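import Pool.Agent.Strip051.G.I9500_9625.Gn

/-! # Certificates of the corner (1, 1, 2) (generated) -/

set_option linter.all false

namespace Pool.Agent.Strip051.G.I9500_9625.Tab.EG

open Pool.Agent.Strip051.PB

def A113_000p :
    ∃ t, chk3 (onCell 0 2621440 0 1073741824 1020054732 13421774 (fA12 0 true 0 c0B .nn true true true gB0q1 gB0q1 gB0q3 gB1q3 26738688 2621440)) t 1 1 1 = true :=
  ⟨(T.b (T.b (T.l 2) (T.b (T.l 2) (T.c (T.b (T.b (T.b (T.l 2) (T.b (T.l 2) (T.c (T.l 272) (T.l 272)))) (T.b (T.l 272) (T.l 272))) (T.l 0)) (T.c (T.l 0) (T.l 0))))) (T.b (T.b (T.b (T.b (T.l 0) (T.l 1)) (T.l 1)) (T.l 1)) (T.l 1))), by decide +kernel⟩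

def A113_000m :
    ∃ t, chk3 (onCell 0 2621440 0 1073741824 1020054732 13421774 (fA12 0 true 0 c0B .nn false true true gB0q1 gB0q1 gB0q3 gB1q3 26738688 2621440)) t 1 1 1 = true :=
  ⟨(T.b (T.b (T.l 1) (T.b (T.l 1) (T.b (T.l 1) (T.b (T.l 1) (T.l 0))))) (T.b (T.b (T.c (T.b (T.l 0) (T.b (T.b (T.l 68) (T.l 68)) (T.b (T.b (T.c (T.l 68) (T.l 68)) (T.l 2)) (T.l 2)))) (T.c (T.l 0) (T.l 0))) (T.l 2)) (T.l 2))), by decide +kernel⟩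

def A113_001p :
    ∃ t, chk3 (onCell 0 2621440 0 1073741824 1020054732 13421774 (fA12 0 true 0 c0B .nn true true true gB0q1 gB0q1 gB1q3 gB2q3 26738688 2621440)) t 1 1 1 = true :=
  ⟨(T.b (T.b (T.b (T.l 2) (T.b (T.l 2) (T.c (T.c (T.l 0) (T.l 0)) (T.a (T.l 0) (T.l 272))))) (T.c (T.b (T.b (T.l 0) (T.a (T.b (T.l 272) (T.l 272)) (T.l 272))) (T.b (T.b (T.c (T.a (T.l 272) (T.l 272)) (T.l 272)) (T.l 1)) (T.l 1))) (T.b (T.c (T.l 0) (T.l 0)) (T.b (T.b (T.l 272) (T.l 1)) (T.l 1))))) (T.l 1)), by decide +kernel⟩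

def A113_001m :
    ∃ t, chk3 (onCell 0 2621440 0 1073741824 1020054732 13421774 (fA12 0 true 0 c0B .nn false true true gB0q1 gB0q1 gB1q3 gB2q3 26738688 2621440)) t 1 1 1 = true :=
  ⟨(T.b (T.l 1) (T.b (T.c (T.b (T.b (T.l 1) (T.b (T.l 1) (T.c (T.a (T.l 68) (T.l 68)) (T.l 68)))) (T.b (T.a (T.b (T.l 68) (T.l 68)) (T.l 68)) (T.l 0))) (T.b (T.b (T.l 1) (T.b (T.l 1) (T.l 68))) (T.c (T.l 0) (T.l 0)))) (T.b (T.b (T.c (T.c (T.l 0) (T.l 0)) (T.a (T.l 0) (T.l 68))) (T.l 2)) (T.l 2)))), by decide +kernel⟩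

def A113_002p :
    ∃ t, chk3 (onCell 0 91892597 0 1073741824 1020054732 13421774 (fA12 1 true 0 c0B .nn true true false gB0q1 gB0q1 gB2q3 gB3q3 26738688 2621440)) t 1 1 1 = true :=
  ⟨(T.b (T.b (T.a (T.c (T.b (T.l 272) (T.l 0)) (T.a (T.l 0) (T.l 0))) (T.c (T.b (T.l 272) (T.l 0)) (T.b (T.l 272) (T.l 0)))) (T.l 1)) (T.l 1)), by decide +kernel⟩

def A113_002m :
    ∃ t, chk3 (onCell 0 91892597 0 1073741824 1020054732 13421774 (fA12 1 true 0 c0B .nn false true false gB0q1 gB0q1 gB2q3 gB3q3 26738688 2621440)) t 1 1 1 = true :=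
  ⟨(T.b (T.l 1) (T.b (T.l 1) (T.a (T.c (T.l 0) (T.a (T.l 0) (T.l 0))) (T.c (T.b (T.l 0) (T.l 68)) (T.b (T.l 0) (T.l 68)))))), by decide +kernel⟩

def A123_013p :
    ∃ t, chk3 (onCell 0 91892597 0 805306368 1020054732 13421774 (fA12 4 true 0 c0B .npn true false false gB0q1 gB1q2 gB3q3 gB4q3 26738688 2621440)) t 1 1 1 = true :=
  ⟨(T.b (T.b (T.a (T.b (T.b (T.b (T.b (T.l 1) (T.l 0)) (T.l 0)) (T.l 0)) (T.b (T.l 68) (T.l 68))) (T.b (T.b (T.b (T.b (T.l 1) (T.l 0)) (T.l 0)) (T.a (T.l 0) (T.b (T.l 0) (T.a (T.l 68) (T.b (T.l 68) (T.l 0)))))) (T.a (T.b (T.a (T.l 68) (T.b (T.l 68) (T.b (T.l 68) (T.l 68)))) (T.a (T.b (T.l 68) (T.b (T.l 68) (T.l 68))) (T.b (T.l 0) (T.l 0)))) (T.b (T.b (T.a (T.b (T.l 68) (T.l 0)) (T.b (T.l 0) (T.l 0))) (T.a (T.l 0) (T.l 0))) (T.a (T.b (T.l 0) (T.l 0)) (T.b (T.l 0) (T.l 0))))))) (T.b (T.b (T.b (T.a (T.l 68) (T.a (T.a (T.l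 0) (T.l 0)) (T.a (T.l 0) (T.l 0)))) (T.b (T.a (T.a (T.l 68) (T.a (T.l 68) (T.l 68))) (T.a (T.a (T.l 68) (T.l 0)) (T.l 0))) (T.a (T.a (T.l 68) (T.a (T.l 68) (T.l 68))) (T.a (T.a (T.l 68) (T.l 0)) (T.l 0))))) (T.b (T.b (T.a (T.a (T.l 68) (T.a (T.l 68) (T.l 68))) (T.a (T.a (T.l 0) (T.l 0)) (T.l 0))) (T.a (T.a (T.l 68) (T.a (T.l 68) (T.l 68))) (T.a (T.a (T.l 0) (T.l 0)) (T.l 0)))) (T.a (T.a (T.l 68) (T.l 2)) (T.l 2)))) (T.l 2))) (T.l 2)), by decide +kernel⟩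

def A123_014p :
    ∃ t, chk3 (onCell 0 91892597 0 805306368 1020054732 13421774 (fA12 4 true 0 c0B .npn true false false gB0q1 gB1q2 gB4q3 gB5q3 26738688 2621440)) t 1 1 1 = true :=
  ⟨(T.b (T.b (T.l 1) (T.b (T.b (T.l 1) (T.b (T.b (T.l 1) (T.a (T.a (T.l 68) (T.a (T.l 68) (T.l 68))) (T.a (T.a (T.l 0) (T.l 0)) (T.l 0)))) (T.b (T.a (T.a (T.l 68) (T.a (T.l 68) (T.l 0))) (T.a (T.a (T.l 0) (T.l 0)) (T.l 0))) (T.a (T.a (T.l 68) (T.a (T.l 68) (T.l 0))) (T.a (T.a (T.l 0) (T.l 0)) (T.l 0)))))) (T.b (T.b (T.b (T.a (T.a (T.l 68) (T.a (T.l 68) (T.l 0))) (T.a (T.a (T.l 0) (T.l 0)) (T.l 0))) (T.a (T.a (T.l 68) (T.a (T.a (T.l 68) (T.l 68)) (T.l 0))) (T.a (T.a (T.l 0) (T.l 0)) (T.a (T.l 0) (T.l 0))))) (T.b (T.a (T.a (T.l 68) (T.a (T.a (T.l 68) (T.l 68)) (T.l 0))) (T.a (T.a (T.l 0) (T.l 0)) (T.a (T.l 0) (T.l 0)))) (T.a (T.a (T.l 68) (T.a (T.a (T.l 68) (T.l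 68)) (T.l 0))) (T.a (T.a (T.l 0) (T.l 0)) (T.a (T.l 0) (T.l 3)))))) (T.b (T.b (T.a (T.a (T.l 68) (T.a (T.a (T.l 68) (T.l 68)) (T.l 0))) (T.a (T.a (T.l 0) (T.l 0)) (T.a (T.l 0) (T.l 3)))) (T.a (T.a (T.l 68) (T.a (T.a (T.l 68) (T.l 68)) (T.l 0))) (T.a (T.a (T.l 0) (T.l 0)) (T.a (T.l 0) (T.l 3))))) (T.b (T.a (T.a (T.l 68) (T.a (T.a (T.l 68) (T.l 68)) (T.l 0))) (T.b (T.a (T.a (T.l 0) (T.l 0)) (T.a (T.l 0) (T.l 3))) (T.a (T.a (T.l 0) (T.l 0)) (T.a (T.l 0) (T.l 3))))) (T.a (T.a (T.l 68) (T.b (T.a (T.a (T.l 68) (T.l 68)) (T.l 0)) (T.l 2))) (T.a (T.a (T.l 0) (T.l 2)) (T.l 2)))))))) (T.b (T.a (T.b (T.l 2) (T.l 2)) (T.l 2)) (T.l 2))), by decide +kernel⟩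

def A123_023p :
    ∃ t, chk3 (onCell 0 91892597 0 805306368 1020054732 13421774 (fA12 4 true 0 c0B .npn true false false gB0q1 gB2q2 gB3q3 gB4q3 26738688 2621440)) t 1 1 1 = true :=
  ⟨(T.b (T.b (T.a (T.b (T.b (T.b (T.l 1) (T.l 0)) (T.l 0)) (T.l 0)) (T.b (T.b (T.b (T.l 1) (T.l 272)) (T.a (T.l 272) (T.b (T.l 272) (T.a (T.l 272) (T.l 272))))) (T.b (T.a (T.a (T.l 272) (T.b (T.l 272) (T.l 272))) (T.b (T.a (T.l 272) (T.l 272)) (T.l 272))) (T.a (T.a (T.l 0) (T.l 272)) (T.b (T.l 272) (T.l 272)))))) (T.b (T.b (T.b (T.a (T.l 272) (T.a (T.l 272) (T.l 272))) (T.a (T.a (T.l 272) (T.a (T.l 272) (T.l 272))) (T.a (T.l 272) (T.l 272)))) (T.b (T.a (T.a (T.l 272) (T.a (T.l 272) (T.l 272))) (T.a (T.l 272) (T.l 272))) (T.a (T.a (T.l 272) (T.a (T.l 272) (T.l 272))) (T.a (T.l 272) (T.l 272))))) (T.b (T.b (T.b (T.a (T.a (T.l 272) (T.a (T.l 272) (T.l 272))) (T.a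 (T.l 272) (T.l 272))) (T.a (T.a (T.l 272) (T.a (T.l 272) (T.l 272))) (T.a (T.l 272) (T.l 272)))) (T.b (T.b (T.a (T.a (T.l 272) (T.a (T.l 272) (T.l 272))) (T.a (T.l 272) (T.l 272))) (T.a (T.a (T.l 272) (T.a (T.l 272) (T.l 272))) (T.a (T.l 272) (T.l 272)))) (T.b (T.a (T.a (T.l 272) (T.a (T.l 272) (T.l 272))) (T.a (T.l 272) (T.l 272))) (T.a (T.a (T.l 272) (T.a (T.l 272) (T.l 272))) (T.a (T.l 272) (T.l 272)))))) (T.b (T.b (T.b (T.a (T.a (T.l 272) (T.a (T.l 272) (T.l 272))) (T.a (T.l 272) (T.l 272))) (T.a (T.l 2) (T.l 2))) (T.l 2)) (T.l 2))))) (T.l 2)), by decide +kernel⟩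

def A123_024p_1_2_1 :
    ∃ t, chk3 (onCell 0 91892597 0 805306368 1020054732 13421774 (fA12 4 true 0 c0B .npn true false false gB0q1 gB2q2 gB4q3 gB5q3 26738688 2621440)) t 1 2 1 = true :=
  ⟨(T.b (T.l 1) (T.b (T.l 1) (T.b (T.a (T.l 1) (T.a (T.b (T.l 1) (T.l 272)) (T.l 272))) (T.b (T.b (T.a (T.a (T.l 272) (T.a (T.l 272) (T.l 272))) (T.a (T.l 272) (T.l 272))) (T.b (T.a (T.a (T.l 272) (T.a (T.l 272) (T.l 272))) (T.a (T.l 272) (T.l 272))) (T.a (T.a (T.l 272) (T.a (T.l 272) (T.l 272))) (T.a (T.l 272) (T.l 272))))) (T.b (T.b (T.a (T.a (T.l 272) (T.a (T.l 272) (T.l 272))) (T.a (T.l 272) (T.l 272))) (T.a (T.a (T.l 272) (T.a (T.l 272) (T.l 272))) (T.a (T.l 272) (T.l 272)))) (T.b (T.a (T.a (T.l 272) (T.a (T.l 272) (T.l 272))) (T.a (T.l 272) (T.l 272))) (T.a (T.a (T.l 272) (T.a (T.l 272) (T.l 272))) (T.a (T.l 272) (T.l 3))))))))), by decide +kernel⟩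

def A123_024p_1_3_1 :
    ∃ t, chk3 (onCell 0 91892597 0 805306368 1020054732 13421774 (fA12 4 true 0 c0B .npn true false false gB0q1 gB2q2 gB4q3 gB5q3 26738688 2621440)) t 1 3 1 = true :=
  ⟨(T.b (T.b (T.b (T.b (T.b (T.b (T.a (T.a (T.l 272) (T.a (T.l 272) (T.l 272))) (T.a (T.l 272) (T.l 3))) (T.a (T.a (T.l 272) (T.a (T.l 272) (T.l 272))) (T.a (T.l 272) (T.l 3)))) (T.b (T.a (T.a (T.l 272) (T.a (T.l 272) (T.l 272))) (T.a (T.l 272) (T.l 3))) (T.a (T.a (T.l 272) (T.a (T.l 272) (T.l 272))) (T.a (T.l 272) (T.l 3))))) (T.b (T.b (T.a (T.a (T.l 272) (T.a (T.l 272) (T.l 272))) (T.a (T.l 272) (T.l 3))) (T.a (T.a (T.l 272) (T.a (T.l 272) (T.l 272))) (T.a (T.l 272) (T.l 3)))) (T.a (T.a (T.l 272) (T.a (T.l 272) (T.l 272))) (T.a (T.l 272) (T.l 3))))) (T.b (T.b (T.a (T.a (T.l 272) (T.a (T.l 272) (T.l 272))) (T.a (T.l 272) (T.l 3))) (T.a (T.a (T.l 272) (T.a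 (T.l 272) (T.l 272))) (T.a (T.l 272) (T.l 3)))) (T.b (T.a (T.b (T.a (T.l 272) (T.a (T.l 272) (T.l 272))) (T.b (T.a (T.a (T.l 272) (T.l 272)) (T.a (T.l 272) (T.l 272))) (T.a (T.a (T.l 272) (T.l 272)) (T.a (T.l 272) (T.l 272))))) (T.a (T.l 272) (T.l 3))) (T.a (T.b (T.b (T.a (T.a (T.l 272) (T.l 272)) (T.a (T.l 272) (T.l 272))) (T.a (T.a (T.l 272) (T.l 272)) (T.a (T.l 272) (T.l 272)))) (T.b (T.a (T.a (T.l 272) (T.l 272)) (T.a (T.l 272) (T.l 272))) (T.a (T.a (T.l 272) (T.l 272)) (T.a (T.l 272) (T.l 272))))) (T.a (T.l 272) (T.l 3)))))) (T.b (T.b (T.b (T.a (T.b (T.b (T.a (T.a (T.l 272) (T.l 272)) (T.a (T.l 272) (T.l 272))) (T.a (T.a (T.l 272) (T.l 272)) (T.a (T.l 272) (T.l 272)))) (T.b (T.a (T.a (T.l 272) (T.l 272)) (T.a (T.l 272) (T.l 2))) (T.l 2))) (T.a (T.l 272) (T.l 3))) (T.l 2)) (T.l 2)) (T.l 2))) (T.l 2)), by decide +kernel⟩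

theorem A123_024p :
    ∃ t, chk3 (onCell 0 91892597 0 805306368 1020054732 13421774 (fA12 4 true 0 c0B .npn true false false gB0q1 gB2q2 gB4q3 gB5q3 26738688 2621440)) t 1 1 1 = true :=
  ex3_b A123_024p_1_2_1 A123_024p_1_3_1

def B113_010p :
    ∃ t, chk3 (onCell 0 2621440 0 1073741824 1020054732 13421774 (fB12 0 true 0 c0B .nn true true true false gB0q1 gB1q3 gB0q1 gB1q1 26738688 2621440)) t 1 1 1 = true :=
  ⟨(T.b (T.b (T.l 272) (T.b (T.c (T.l 272) (T.l 272)) (T.b (T.b (T.c (T.c (T.a (T.a (T.l 272) (T.l 272)) (T.l 272)) (T.l 272)) (T.l 272)) (T.l 1)) (T.l 1)))) (T.l 1)), by decide +kernel⟩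

def X113_011p :
    ∃ t, chk3 (onCell 0 2621440 0 1073741824 1020054732 13421774 (xB12 0 .nn true true gB0q1 gB1q3 gB1q1 26738688 2621440)) t 1 1 1 = true :=
  ⟨(T.l 0), by decide +kernel⟩

def B123_010p :
    ∃ t, chk3 (onCell 0 26738688 0 1073741824 1020054732 13421774 (fB12 0 true 0 c0B .npn true true true true gB0q1 gB1q3 gB0q2 gB1q2 26738688 2621440)) t 1 1 1 = true :=
  ⟨(T.l 2), by decide +kernel⟩

def B123_011p :
    ∃ t, chk3 (onCell 0 26738688 0 1073741824 1020054732 13421774 (fB12 0 true 0 c0B .npn true true true true gB0q1 gB1q3 gB1q2 gB2q2 26738688 2621440)) t 1 1 1 = true :=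
  ⟨(T.l 2), by decide +kernel⟩

def B123_012p :
    ∃ t, chk3 (onCell 0 26738688 0 1073741824 1020054732 13421774 (fB12 0 true 0 c0B .npn true true true false gB0q1 gB1q3 gB2q2 gB3q2 26738688 2621440)) t 1 1 1 = true :=
  ⟨(T.a (T.a (T.l 0) (T.l 0)) (T.b (T.l 3) (T.l 0))), by decide +kernel⟩

def X123_013p :
    ∃ t, chk3 (onCell 0 26738688 0 1073741824 1020054732 13421774 (xB12 0 .npn true true gB0q1 gB1q3 gB3q2 26738688 2621440)) t 1 1 1 = true :=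
  ⟨(T.l 0), by decide +kernel⟩

def B113_010m :
    ∃ t, chk3 (onCell 0 2621440 0 1073741824 1020054732 13421774 (fB12 0 true 0 c0B .nn false true true false gB0q1 gB1q3 gB0q1 gB1q1 26738688 2621440)) t 1 1 1 = true :=
  ⟨(T.b (T.l 0) (T.b (T.b (T.b (T.l 0) (T.b (T.c (T.l 68) (T.l 0)) (T.b (T.b (T.c (T.c (T.a (T.l 68) (T.l 68)) (T.l 68)) (T.l 68)) (T.l 1)) (T.l 1)))) (T.l 1)) (T.l 1))), by decide +kernel⟩

def X113_011m :
    ∃ t, chk3 (onCell 0 2621440 0 1073741824 1020054732 13421774 (xB12 0 .nn false true gB0q1 gB1q3 gB1q1 26738688 2621440)) t 1 1 1 = true :=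
  ⟨(T.l 0), by decide +kernel⟩

def B123_010m :
    ∃ t, chk3 (onCell 0 26738688 0 1073741824 1020054732 13421774 (fB12 0 true 0 c0B .npn false true true true gB0q1 gB1q3 gB0q2 gB1q2 26738688 2621440)) t 1 1 1 = true :=
  ⟨(T.l 2), by decide +kernel⟩

def B123_011m :
    ∃ t, chk3 (onCell 0 26738688 0 1073741824 1020054732 13421774 (fB12 0 true 0 c0B .npn false true true true gB0q1 gB1q3 gB1q2 gB2q2 26738688 2621440)) t 1 1 1 = true :=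
  ⟨(T.l 2), by decide +kernel⟩

def B123_012m :
    ∃ t, chk3 (onCell 0 26738688 0 1073741824 1020054732 13421774 (fB12 0 true 0 c0B .npn false true true false gB0q1 gB1q3 gB2q2 gB3q2 26738688 2621440)) t 1 1 1 = true :=
  ⟨(T.a (T.a (T.l 0) (T.l 0)) (T.b (T.l 3) (T.l 0))), by decide +kernel⟩

def X123_013m :
    ∃ t, chk3 (onCell 0 26738688 0 1073741824 1020054732 13421774 (xB12 0 .npn false true gB0q1 gB1q3 gB3q2 26738688 2621440)) t 1 1 1 = true :=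
  ⟨(T.l 0), by decide +kernel⟩

def B213_010m :
    ∃ t, chk3 (onCell 0 26738688 0 1073741824 1020054732 13421774 (fB12 0 true 0 c0B .pnn false true true false gB0q2 gB1q3 gB0q1 gB1q1 26738688 2621440)) t 1 1 1 = true :=
  ⟨(T.l 1), by decide +kernel⟩

def X213_011m :
    ∃ t, chk3 (onCell 0 26738688 0 1073741824 1020054732 13421774 (xB12 0 .pnn false true gB0q2 gB1q3 gB1q1 26738688 2621440)) t 1 1 1 = true :=
  ⟨(T.l 0), by decide +kernel⟩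

def B213_110m :
    ∃ t, chk3 (onCell 0 26738688 0 1073741824 1020054732 13421774 (fB12 0 true 0 c0B .pnn false true true false gB1q2 gB1q3 gB0q1 gB1q1 26738688 2621440)) t 1 1 1 = true :=
  ⟨(T.l 1), by decide +kernel⟩

def X213_111m :
    ∃ t, chk3 (onCell 0 26738688 0 1073741824 1020054732 13421774 (xB12 0 .pnn false true gB1q2 gB1q3 gB1q1 26738688 2621440)) t 1 1 1 = true :=
  ⟨(T.l 0), by decide +kernel⟩

def B213_210m :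
    ∃ t, chk3 (onCell 0 26738688 0 1073741824 1020054732 13421774 (fB12 0 true 0 c0B .pnn false true true false gB2q2 gB1q3 gB0q1 gB1q1 26738688 2621440)) t 1 1 1 = true :=
  ⟨(T.l 1), by decide +kernel⟩

def X213_211m :
    ∃ t, chk3 (onCell 0 26738688 0 1073741824 1020054732 13421774 (xB12 0 .pnn false true gB2q2 gB1q3 gB1q1 26738688 2621440)) t 1 1 1 = true :=
  ⟨(T.l 0), by decide +kernel⟩

def B113_020p :
    ∃ t, chk3 (onCell 0 2621440 0 1073741824 1020054732 13421774 (fB12 0 true 0 c0B .nn true true true false gB0q1 gB2q3 gB0q1 gB1q1 26738688 2621440)) t 1 1 1 = true :=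
  ⟨(T.b (T.b (T.b (T.l 272) (T.b (T.l 272) (T.b (T.b (T.c (T.l 272) (T.l 0)) (T.l 1)) (T.l 1)))) (T.l 1)) (T.l 1)), by decide +kernel⟩

def X113_021p :
    ∃ t, chk3 (onCell 0 2621440 0 1073741824 1020054732 13421774 (xB12 0 .nn true true gB0q1 gB2q3 gB1q1 26738688 2621440)) t 1 1 1 = true :=
  ⟨(T.l 0), by decide +kernel⟩

def B123_020p :
    ∃ t, chk3 (onCell 0 26738688 0 1073741824 1020054732 13421774 (fB12 0 true 0 c0B .npn true true true true gB0q1 gB2q3 gB0q2 gB1q2 26738688 2621440)) t 1 1 1 = true :=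
  ⟨(T.l 2), by decide +kernel⟩

def B123_021p :
    ∃ t, chk3 (onCell 0 26738688 0 1073741824 1020054732 13421774 (fB12 0 true 0 c0B .npn true true true true gB0q1 gB2q3 gB1q2 gB2q2 26738688 2621440)) t 1 1 1 = true :=
  ⟨(T.l 2), by decide +kernel⟩

def B123_022p :
    ∃ t, chk3 (onCell 0 26738688 0 1073741824 1020054732 13421774 (fB12 0 true 0 c0B .npn true true true false gB0q1 gB2q3 gB2q2 gB3q2 26738688 2621440)) t 1 1 1 = true :=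
  ⟨(T.b (T.a (T.a (T.l 0) (T.b (T.l 3) (T.l 0))) (T.l 3)) (T.a (T.a (T.l 0) (T.l 0)) (T.l 0))), by decide +kernel⟩

def X123_023p :
    ∃ t, chk3 (onCell 0 26738688 0 1073741824 1020054732 13421774 (xB12 0 .npn true true gB0q1 gB2q3 gB3q2 26738688 2621440)) t 1 1 1 = true :=
  ⟨(T.l 0), by decide +kernel⟩

def B113_020m :
    ∃ t, chk3 (onCell 0 2621440 0 1073741824 1020054732 13421774 (fB12 0 true 0 c0B .nn false true true false gB0q1 gB2q3 gB0q1 gB1q1 26738688 2621440)) t 1 1 1 = true :=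
  ⟨(T.b (T.l 272) (T.b (T.l 0) (T.b (T.b (T.b (T.l 0) (T.c (T.l 0) (T.c (T.l 0) (T.l 0)))) (T.l 1)) (T.l 1)))), by decide +kernel⟩

def X113_021m :
    ∃ t, chk3 (onCell 0 2621440 0 1073741824 1020054732 13421774 (xB12 0 .nn false true gB0q1 gB2q3 gB1q1 26738688 2621440)) t 1 1 1 = true :=
  ⟨(T.l 0), by decide +kernel⟩

def B123_020m :
    ∃ t, chk3 (onCell 0 26738688 0 1073741824 1020054732 13421774 (fB12 0 true 0 c0B .npn false true true true gB0q1 gB2q3 gB0q2 gB1q2 26738688 2621440)) t 1 1 1 = true :=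
  ⟨(T.l 2), by decide +kernel⟩

def B123_021m :
    ∃ t, chk3 (onCell 0 26738688 0 1073741824 1020054732 13421774 (fB12 0 true 0 c0B .npn false true true true gB0q1 gB2q3 gB1q2 gB2q2 26738688 2621440)) t 1 1 1 = true :=
  ⟨(T.l 2), by decide +kernel⟩

def B123_022m :
    ∃ t, chk3 (onCell 0 26738688 0 1073741824 1020054732 13421774 (fB12 0 true 0 c0B .npn false true true false gB0q1 gB2q3 gB2q2 gB3q2 26738688 2621440)) t 1 1 1 = true :=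
  ⟨(T.a (T.a (T.l 0) (T.l 0)) (T.l 0)), by decide +kernel⟩

def X123_023m :
    ∃ t, chk3 (onCell 0 26738688 0 1073741824 1020054732 13421774 (xB12 0 .npn false true gB0q1 gB2q3 gB3q2 26738688 2621440)) t 1 1 1 = true :=
  ⟨(T.b (T.a (T.l 0) (T.l 3)) (T.l 0)), by decide +kernel⟩

def B213_020m :
    ∃ t, chk3 (onCell 0 26738688 0 1073741824 1020054732 13421774 (fB12 0 true 0 c0B .pnn false true true false gB0q2 gB2q3 gB0q1 gB1q1 26738688 2621440)) t 1 1 1 = true :=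
  ⟨(T.l 1), by decide +kernel⟩

def X213_021m :
    ∃ t, chk3 (onCell 0 26738688 0 1073741824 1020054732 13421774 (xB12 0 .pnn false true gB0q2 gB2q3 gB1q1 26738688 2621440)) t 1 1 1 = true :=
  ⟨(T.l 0), by decide +kernel⟩

def B213_120m :
    ∃ t, chk3 (onCell 0 26738688 0 1073741824 1020054732 13421774 (fB12 0 true 0 c0B .pnn false true true false gB1q2 gB2q3 gB0q1 gB1q1 26738688 2621440)) t 1 1 1 = true :=
  ⟨(T.l 1), by decide +kernel⟩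

def X213_121m :
    ∃ t, chk3 (onCell 0 26738688 0 1073741824 1020054732 13421774 (xB12 0 .pnn false true gB1q2 gB2q3 gB1q1 26738688 2621440)) t 1 1 1 = true :=
  ⟨(T.l 0), by decide +kernel⟩

def B213_220m :
    ∃ t, chk3 (onCell 0 26738688 0 1073741824 1020054732 13421774 (fB12 0 true 0 c0B .pnn false true true false gB2q2 gB2q3 gB0q1 gB1q1 26738688 2621440)) t 1 1 1 = true :=
  ⟨(T.l 1), by decide +kernel⟩

def X213_221m :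
    ∃ t, chk3 (onCell 0 26738688 0 1073741824 1020054732 13421774 (xB12 0 .pnn false true gB2q2 gB2q3 gB1q1 26738688 2621440)) t 1 1 1 = true :=
  ⟨(T.l 0), by decide +kernel⟩

def B113_030p :
    ∃ t, chk3 (onCell 0 91892597 0 1073741824 1020054732 13421774 (fB12 2 true 0 c0B .nn true false true false gB0q1 gB3q3 gB0q1 gB1q1 26738688 2621440)) t 1 1 1 = true :=
  ⟨(T.l 1), by decide +kernel⟩

def X113_031p :
    ∃ t, chk3 (onCell 0 91892597 0 1073741824 1020054732 13421774 (xB12 2 .nn true false gB0q1 gB3q3 gB1q1 26738688 2621440)) t 1 1 1 = true :=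
  ⟨(T.l 0), by decide +kernel⟩

def B123_030p :
    ∃ t, chk3 (onCell 0 118631285 0 1073741824 1020054732 13421774 (fB12u true 0 c0B .npn true false true true gB0q1 gB3q3 gB0q2 gB1q2 26738688 2621440)) t 1 1 1 = true :=
  ⟨(T.b (T.b (T.l 0) (T.l 2)) (T.l 2)), by decide +kernel⟩

def B123_031p :
    ∃ t, chk3 (onCell 0 118631285 0 1073741824 1020054732 13421774 (fB12 3 true 0 c0B .npn true false true true gB0q1 gB3q3 gB1q2 gB2q2 26738688 2621440)) t 1 1 1 = true :=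
  ⟨(T.b (T.b (T.b (T.b (T.b (T.b (T.l 1) (T.b (T.b (T.b (T.l 1) (T.a (T.a (T.b (T.l 1) (T.l 0)) (T.l 0)) (T.a (T.l 0) (T.l 0)))) (T.a (T.l 0) (T.l 0))) (T.l 0))) (T.l 2)) (T.l 2)) (T.l 2)) (T.l 2)) (T.l 2)), by decide +kernel⟩

def B123_032p :
    ∃ t, chk3 (onCell 0 118631285 0 1073741824 1020054732 13421774 (fB12 3 true 0 c0B .npn true false true false gB0q1 gB3q3 gB2q2 gB3q2 26738688 2621440)) t 1 1 1 = true :=
  ⟨(T.b (T.b (T.b (T.b (T.b (T.b (T.l 1) (T.b (T.b (T.l 1) (T.a (T.l 1) (T.l 272))) (T.l 0))) (T.a (T.l 0) (T.a (T.l 0) (T.a (T.l 272) (T.l 3))))) (T.a (T.l 0) (T.b (T.a (T.l 0) (T.l 0)) (T.a (T.l 0) (T.l 0))))) (T.a (T.a (T.l 0) (T.b (T.b (T.l 0) (T.l 0)) (T.b (T.l 0) (T.l 0)))) (T.b (T.a (T.l 0) (T.l 0)) (T.a (T.l 0) (T.l 0))))) (T.a (T.a (T.a (T.l 0) (T.b (T.b (T.l 0) (T.l 0)) (T.b (T.l 0) (T.l 0)))) (T.b (T.b (T.l 0) (T.l 0)) (T.b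 (T.l 0) (T.l 0)))) (T.b (T.a (T.b (T.l 0) (T.l 0)) (T.b (T.l 0) (T.l 3))) (T.a (T.b (T.l 0) (T.l 0)) (T.l 3))))) (T.a (T.a (T.a (T.a (T.l 0) (T.b (T.b (T.l 0) (T.l 0)) (T.b (T.l 0) (T.l 0)))) (T.b (T.b (T.l 0) (T.l 0)) (T.b (T.l 0) (T.l 0)))) (T.b (T.a (T.b (T.l 0) (T.l 0)) (T.b (T.l 0) (T.l 3))) (T.a (T.l 0) (T.l 3)))) (T.b (T.b (T.b (T.l 3) (T.l 3)) (T.l 3)) (T.l 3)))), by decide +kernel⟩

def X123_033p :
    ∃ t, chk3 (onCell 0 118631285 0 1073741824 1020054732 13421774 (xB12 3 .npn true false gB0q1 gB3q3 gB3q2 26738688 2621440)) t 1 1 1 = true :=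
  ⟨(T.b (T.b (T.l 0) (T.a (T.l 0) (T.b (T.a (T.l 0) (T.b (T.l 0) (T.l 3))) (T.a (T.a (T.l 0) (T.l 3)) (T.l 3))))) (T.a (T.a (T.l 0) (T.b (T.b (T.l 0) (T.a (T.l 0) (T.l 3))) (T.a (T.a (T.l 0) (T.l 3)) (T.l 3)))) (T.b (T.a (T.b (T.l 3) (T.l 3)) (T.l 3)) (T.l 3)))), by decide +kernel⟩

def B113_030m :
    ∃ t, chk3 (onCell 0 91892597 0 1073741824 1020054732 13421774 (fB12 2 true 0 c0B .nn false false true false gB0q1 gB3q3 gB0q1 gB1q1 26738688 2621440)) t 1 1 1 = true :=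
  ⟨(T.b (T.b (T.l 0) (T.l 0)) (T.b (T.l 0) (T.l 0))), by decide +kernel⟩

def X113_031m :
    ∃ t, chk3 (onCell 0 91892597 0 1073741824 1020054732 13421774 (xB12 2 .nn false false gB0q1 gB3q3 gB1q1 26738688 2621440)) t 1 1 1 = true :=
  ⟨(T.l 0), by decide +kernel⟩

def B123_030m :
    ∃ t, chk3 (onCell 0 118631285 0 1073741824 1020054732 13421774 (fB12 3 true 0 c0B .npn false false true true gB0q1 gB3q3 gB0q2 gB1q2 26738688 2621440)) t 1 1 1 = true :=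
  ⟨(T.b (T.b (T.l 2) (T.l 2)) (T.l 2)), by decide +kernel⟩

def B123_031m :
    ∃ t, chk3 (onCell 0 118631285 0 1073741824 1020054732 13421774 (fB12 3 true 0 c0B .npn false false true true gB0q1 gB3q3 gB1q2 gB2q2 26738688 2621440)) t 1 1 1 = true :=
  ⟨(T.b (T.b (T.l 2) (T.l 2)) (T.l 2)), by decide +kernel⟩

def B123_032m :
    ∃ t, chk3 (onCell 0 118631285 0 1073741824 1020054732 13421774 (fB12 3 true 0 c0B .npn false false true false gB0q1 gB3q3 gB2q2 gB3q2 26738688 2621440)) t 1 1 1 = true :=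
  ⟨(T.b (T.a (T.b (T.b (T.b (T.l 0) (T.l 0)) (T.a (T.l 0) (T.b (T.b (T.l 0) (T.l 0)) (T.b (T.l 0) (T.l 0))))) (T.a (T.a (T.l 0) (T.b (T.b (T.l 0) (T.l 0)) (T.b (T.l 0) (T.l 0)))) (T.b (T.b (T.l 0) (T.l 0)) (T.b (T.l 0) (T.l 0))))) (T.b (T.b (T.a (T.b (T.l 0) (T.b (T.l 0) (T.l 0))) (T.b (T.b (T.l 0) (T.l 0)) (T.b (T.l 0) (T.l 0)))) (T.a (T.b (T.l 0) (T.l 0)) (T.b (T.l 0) (T.l 0)))) (T.a (T.b (T.b (T.l 0) (T.l 0)) (T.l 0)) (T.b (T.b (T.l 0) (T.l 3)) (T.l 3))))) (T.a (T.a (T.a (T.a (T.l 0) (T.b (T.b (T.l 0) (T.l 0)) (T.b (T.l 0) (T.l 0)))) (T.b (T.b (T.l 0) (T.l 0)) (T.b (T.l 0) (T.l 0)))) (T.b (T.a (T.b (T.l 0) (T.l 0)) (T.b (T.l 0) (T.l 3))) (T.a (T.l 0) (T.l 3)))) (T.b (T.b (T.b (T.l 3) (T.l 3)) (T.l 3)) (T.l 3)))), by decide +kernel⟩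

def B123_033m :
    ∃ t, chk3 (onCell 0 118631285 0 1073741824 1020054732 13421774 (fB12 3 true 0 c0B .npn false false false false gB0q1 gB3q3 gB3q2 gB4q2 26738688 2621440)) t 1 1 1 = true :=
  ⟨(T.b (T.a (T.l 1) (T.b (T.b (T.l 1) (T.b (T.l 1) (T.l 1))) (T.a (T.b (T.l 1) (T.b (T.l 0) (T.l 0))) (T.b (T.l 0) (T.l 3))))) (T.a (T.a (T.l 1) (T.b (T.a (T.l 1) (T.b (T.l 1) (T.l 3))) (T.a (T.b (T.l 0) (T.l 0)) (T.l 3)))) (T.b (T.a (T.b (T.l 3) (T.l 3)) (T.l 3)) (T.l 3)))), by decide +kernel⟩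

def X123_034m :
    ∃ t, chk3 (onCell 0 118631285 0 1073741824 1020054732 13421774 (xB12 3 .npn false false gB0q1 gB3q3 gB4q2 26738688 2621440)) t 1 1 1 = true :=
  ⟨(T.l 0), by decide +kernel⟩

def X213_031m :
    ∃ t, chk3 (onCell 0 118631285 0 1073741824 1020054732 13421774 (xB12 3 .pnn false false gB0q2 gB3q3 gB1q1 26738688 2621440)) t 1 1 1 = true :=
  ⟨(T.b (T.l 0) (T.l 0)), by decide +kernel⟩

def B213_130m :
    ∃ t, chk3 (onCell 0 118631285 0 1073741824 1020054732 13421774 (fB12 3 true 0 c0B .pnn false false true false gB1q2 gB3q3 gB0q1 gB1q1 26738688 2621440)) t 1 1 1 = true :=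
  ⟨(T.b (T.b (T.b (T.b (T.b (T.b (T.a (T.l 0) (T.l 0)) (T.b (T.b (T.b (T.l 0) (T.a (T.a (T.l 0) (T.l 0)) (T.a (T.l 68) (T.l 68)))) (T.l 1)) (T.l 1))) (T.l 1)) (T.l 1)) (T.l 1)) (T.l 1)) (T.l 1)), by decide +kernel⟩

def X213_131m :
    ∃ t, chk3 (onCell 0 118631285 0 1073741824 1020054732 13421774 (xB12 3 .pnn false false gB1q2 gB3q3 gB1q1 26738688 2621440)) t 1 1 1 = true :=
  ⟨(T.b (T.l 0) (T.l 0)), by decide +kernel⟩

def B213_230m :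
    ∃ t, chk3 (onCell 0 118631285 0 1073741824 1020054732 13421774 (fB12 3 true 0 c0B .pnn false false true false gB2q2 gB3q3 gB0q1 gB1q1 26738688 2621440)) t 1 1 1 = true :=
  ⟨(T.b (T.b (T.b (T.b (T.b (T.b (T.l 0) (T.b (T.l 0) (T.b (T.l 0) (T.l 1)))) (T.l 1)) (T.l 1)) (T.l 1)) (T.l 1)) (T.l 1)), by decide +kernel⟩

def X213_231m :
    ∃ t, chk3 (onCell 0 118631285 0 1073741824 1020054732 13421774 (xB12 3 .pnn false false gB2q2 gB3q3 gB1q1 26738688 2621440)) t 1 1 1 = true :=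
  ⟨(T.l 0), by decide +kernel⟩

def B113_040p :
    ∃ t, chk3 (onCell 0 91892597 0 1073741824 1020054732 13421774 (fB12 2 true 0 c0B .nn true false true false gB0q1 gB4q3 gB0q1 gB1q1 26738688 2621440)) t 1 1 1 = true :=
  ⟨(T.l 1), by decide +kernel⟩

def X113_041p :
    ∃ t, chk3 (onCell 0 91892597 0 1073741824 1020054732 13421774 (xB12 2 .nn true false gB0q1 gB4q3 gB1q1 26738688 2621440)) t 1 1 1 = true :=
  ⟨(T.l 0), by decide +kernel⟩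

def B123_040p :
    ∃ t, chk3 (onCell 0 118631285 0 1073741824 1020054732 13421774 (fB12u true 0 c0B .npn true false true true gB0q1 gB4q3 gB0q2 gB1q2 26738688 2621440)) t 1 1 1 = true :=
  ⟨(T.b (T.b (T.l 0) (T.l 2)) (T.l 2)), by decide +kernel⟩

def B123_041p :
    ∃ t, chk3 (onCell 0 118631285 0 1073741824 1020054732 13421774 (fB12 3 true 0 c0B .npn true false true true gB0q1 gB4q3 gB1q2 gB2q2 26738688 2621440)) t 1 1 1 = true :=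
  ⟨(T.b (T.b (T.b (T.l 1) (T.b (T.l 1) (T.b (T.b (T.b (T.l 1) (T.a (T.a (T.l 1) (T.a (T.l 1) (T.a (T.l 68) (T.l 68)))) (T.b (T.l 1) (T.a (T.a (T.l 0) (T.l 0)) (T.l 0))))) (T.b (T.a (T.a (T.l 0) (T.a (T.l 0) (T.l 0))) (T.a (T.a (T.l 0) (T.l 0)) (T.l 0))) (T.a (T.a (T.l 0) (T.a (T.l 0) (T.l 0))) (T.a (T.l 0) (T.l 0))))) (T.b (T.b (T.b (T.a (T.a (T.l 0) (T.a (T.l 0) (T.l 0))) (T.a (T.l 0) (T.l 272))) (T.a (T.a (T.l 0) (T.a (T.l 272) (T.l 272))) (T.a (T.l 0) (T.l 272)))) (T.b (T.a (T.a (T.l 0) (T.a (T.l 0) (T.l 272))) (T.a (T.l 0) (T.l 272))) (T.a (T.a (T.l 272) (T.a (T.l 272) (T.l 272))) (T.a (T.l 272) (T.l 272))))) (T.b (T.b (T.a (T.a (T.l 272) (T.a (T.l 272) (T.l 272))) (T.a (T.l 272) (T.l 272))) (T.a (T.a (T.l 272) (T.a (T.l 272) (T.l 272))) (T.a (T.l 272) (T.l 272)))) (T.b (T.a (T.a (T.l 272) (T.a (T.l 272) (T.l 272))) (T.a (T.l 272) (T.l 272)))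 (T.a (T.a (T.l 272) (T.a (T.l 272) (T.l 272))) (T.a (T.l 272) (T.l 272))))))))) (T.b (T.b (T.a (T.a (T.l 0) (T.l 2)) (T.l 2)) (T.l 2)) (T.l 2))) (T.l 2)), by decide +kernel⟩

def B123_042p :
    ∃ t, chk3 (onCell 0 118631285 0 1073741824 1020054732 13421774 (fB12 3 true 0 c0B .npn true false true false gB0q1 gB4q3 gB2q2 gB3q2 26738688 2621440)) t 1 1 1 = true :=
  ⟨(T.b (T.b (T.b (T.l 1) (T.b (T.l 1) (T.b (T.l 1) (T.b (T.l 1) (T.b (T.l 1) (T.b (T.a (T.l 1) (T.a (T.l 1) (T.l 1))) (T.a (T.a (T.l 272) (T.a (T.l 272) (T.l 272))) (T.a (T.l 272) (T.l 272))))))))) (T.b (T.a (T.b (T.a (T.l 272) (T.a (T.b (T.l 272) (T.l 272)) (T.l 0))) (T.a (T.b (T.l 272) (T.a (T.l 272) (T.l 0))) (T.b (T.l 0) (T.l 0)))) (T.b (T.a (T.b (T.l 0) (T.l 0)) (T.b (T.l 0) (T.l 272))) (T.a (T.b (T.l 272) (T.l 0)) (T.l 3)))) (T.a (T.a (T.a (T.l 0) (T.b (T.l 0) (T.l 0))) (T.a (T.l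 0) (T.l 0))) (T.a (T.b (T.l 0) (T.l 0)) (T.l 3))))) (T.a (T.a (T.a (T.a (T.l 0) (T.b (T.b (T.l 0) (T.l 0)) (T.b (T.l 0) (T.l 0)))) (T.b (T.a (T.b (T.l 0) (T.l 0)) (T.l 0)) (T.b (T.l 0) (T.l 0)))) (T.b (T.b (T.a (T.l 0) (T.l 0)) (T.b (T.l 0) (T.l 0))) (T.a (T.b (T.l 0) (T.l 0)) (T.l 3)))) (T.b (T.b (T.b (T.l 3) (T.l 3)) (T.l 3)) (T.l 3)))), by decide +kernel⟩

def X123_043p :
    ∃ t, chk3 (onCell 0 118631285 0 1073741824 1020054732 13421774 (xB12 3 .npn true false gB0q1 gB4q3 gB3q2 26738688 2621440)) t 1 1 1 = true :=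
  ⟨(T.b (T.b (T.l 0) (T.l 0)) (T.a (T.a (T.l 0) (T.b (T.l 0) (T.a (T.a (T.l 0) (T.l 3)) (T.l 3)))) (T.b (T.b (T.b (T.l 3) (T.l 3)) (T.l 3)) (T.l 3)))), by decide +kernel⟩

def B113_040m :
    ∃ t, chk3 (onCell 0 91892597 0 1073741824 1020054732 13421774 (fB12 2 true 0 c0B .nn false false true false gB0q1 gB4q3 gB0q1 gB1q1 26738688 2621440)) t 1 1 1 = true :=
  ⟨(T.l 272), by decide +kernel⟩

def X113_041m :
    ∃ t, chk3 (onCell 0 91892597 0 1073741824 1020054732 13421774 (xB12 2 .nn false false gB0q1 gB4q3 gB1q1 26738688 2621440)) t 1 1 1 = true :=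
  ⟨(T.l 0), by decide +kernel⟩

def B123_040m :
    ∃ t, chk3 (onCell 0 118631285 0 1073741824 1020054732 13421774 (fB12 3 true 0 c0B .npn false false true true gB0q1 gB4q3 gB0q2 gB1q2 26738688 2621440)) t 1 1 1 = true :=
  ⟨(T.b (T.l 2) (T.l 2)), by decide +kernel⟩

def B123_041m :
    ∃ t, chk3 (onCell 0 118631285 0 1073741824 1020054732 13421774 (fB12 3 true 0 c0B .npn false false true true gB0q1 gB4q3 gB1q2 gB2q2 26738688 2621440)) t 1 1 1 = true :=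
  ⟨(T.l 2), by decide +kernel⟩

def B123_042m :
    ∃ t, chk3 (onCell 0 118631285 0 1073741824 1020054732 13421774 (fB12 3 true 0 c0B .npn false false true false gB0q1 gB4q3 gB2q2 gB3q2 26738688 2621440)) t 1 1 1 = true :=
  ⟨(T.a (T.a (T.a (T.b (T.l 0) (T.a (T.l 0) (T.b (T.b (T.l 0) (T.l 0)) (T.l 0)))) (T.b (T.b (T.l 0) (T.b (T.b (T.l 0) (T.l 0)) (T.l 0))) (T.a (T.b (T.l 0) (T.l 0)) (T.b (T.l 0) (T.l 0))))) (T.b (T.a (T.b (T.a (T.l 0) (T.b (T.l 0) (T.l 0))) (T.b (T.l 0) (T.l 0))) (T.b (T.b (T.l 0) (T.l 0)) (T.b (T.l 0) (T.l 0)))) (T.a (T.b (T.b (T.l 0) (T.l 0)) (T.l 0)) (T.b (T.l 0) (T.l 3))))) (T.b (T.a (T.b (T.a (T.b (T.b (T.l 68) (T.l 0)) (T.l 0)) (T.b (T.b (T.l 0) (T.l 2)) (T.l 2))) (T.b (T.b (T.l 0) (T.l 2)) (T.l 2))) (T.l 2)) (T.b (T.l 2) (T.l 3)))), by decide +kernel⟩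

def B123_043m :
    ∃ t, chk3 (onCell 0 118631285 0 1073741824 1020054732 13421774 (fB12 3 true 0 c0B .npn false false false false gB0q1 gB4q3 gB3q2 gB4q2 26738688 2621440)) t 1 1 1 = true :=
  ⟨(T.a (T.a (T.l 1) (T.b (T.b (T.l 1) (T.a (T.l 1) (T.b (T.l 0) (T.l 0)))) (T.a (T.b (T.b (T.l 1) (T.l 0)) (T.l 0)) (T.b (T.l 0) (T.l 3))))) (T.b (T.a (T.b (T.a (T.b (T.b (T.l 68) (T.l 0)) (T.l 0)) (T.b (T.b (T.l 0) (T.l 0)) (T.l 0))) (T.b (T.l 0) (T.l 0))) (T.b (T.b (T.b (T.b (T.l 0) (T.l 0)) (T.l 0)) (T.l 0)) (T.b (T.l 0) (T.l 3)))) (T.a (T.a (T.b (T.l 3) (T.l 3)) (T.l 3)) (T.l 3)))), by decide +kernel⟩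

def X123_044m :
    ∃ t, chk3 (onCell 0 118631285 0 1073741824 1020054732 13421774 (xB12 3 .npn false false gB0q1 gB4q3 gB4q2 26738688 2621440)) t 1 1 1 = true :=
  ⟨(T.l 0), by decide +kernel⟩

def X213_041m :
    ∃ t, chk3 (onCell 0 118631285 0 1073741824 1020054732 13421774 (xB12 3 .pnn false false gB0q2 gB4q3 gB1q1 26738688 2621440)) t 1 1 1 = true :=
  ⟨(T.b (T.l 0) (T.l 0)), by decide +kernel⟩

def B213_140m :
    ∃ t, chk3 (onCell 0 118631285 0 1073741824 1020054732 13421774 (fB12 3 true 0 c0B .pnn false false true false gB1q2 gB4q3 gB0q1 gB1q1 26738688 2621440)) t 1 1 1 = true :=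
  ⟨(T.b (T.b (T.b (T.a (T.l 0) (T.b (T.a (T.l 272) (T.b (T.l 272) (T.l 0))) (T.a (T.b (T.l 272) (T.l 0)) (T.l 0)))) (T.b (T.b (T.a (T.l 272) (T.a (T.l 0) (T.l 0))) (T.b (T.a (T.a (T.l 272) (T.a (T.l 272) (T.l 272))) (T.a (T.l 0) (T.l 0))) (T.b (T.a (T.a (T.l 272) (T.a (T.l 272) (T.l 272))) (T.a (T.l 0) (T.l 0))) (T.a (T.a (T.l 272) (T.a (T.l 272) (T.l 272))) (T.a (T.l 0) (T.l 0)))))) (T.b (T.b (T.b (T.a (T.a (T.l 272) (T.a (T.l 272) (T.l 272))) (T.a (T.l 0) (T.l 0))) (T.a (T.a (T.l 272) (T.a (T.l 272) (T.l 0))) (T.a (T.a (T.l 0) (T.l 0)) (T.a (T.l 0) (T.l 0))))) (T.a (T.b (T.a (T.l 272) (T.a (T.l 272) (T.a (T.l 272) (T.l 1)))) (T.l 1)) (T.l 1))) (T.l 1)))) (T.l 1)) (T.l 1)), by decide +kernel⟩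

def X213_141m :
    ∃ t, chk3 (onCell 0 118631285 0 1073741824 1020054732 13421774 (xB12 3 .pnn false false gB1q2 gB4q3 gB1q1 26738688 2621440)) t 1 1 1 = true :=
  ⟨(T.b (T.l 0) (T.l 0)), by decide +kernel⟩

def B213_240m :
    ∃ t, chk3 (onCell 0 118631285 0 1073741824 1020054732 13421774 (fB12 3 true 0 c0B .pnn false false true false gB2q2 gB4q3 gB0q1 gB1q1 26738688 2621440)) t 1 1 1 = true :=
  ⟨(T.b (T.b (T.a (T.a (T.l 0) (T.b (T.l 0) (T.b (T.a (T.l 0) (T.l 0)) (T.a (T.b (T.l 0) (T.l 0)) (T.b (T.l 0) (T.l 68)))))) (T.b (T.a (T.b (T.l 272) (T.b (T.l 0) (T.l 0))) (T.b (T.b (T.l 272) (T.l 0)) (T.l 0))) (T.b (T.a (T.b (T.l 0) (T.l 0)) (T.l 0)) (T.a (T.b (T.l 0) (T.l 0)) (T.b (T.l 0) (T.l 0)))))) (T.b (T.b (T.a (T.a (T.b (T.l 68) (T.l 1)) (T.l 1)) (T.l 1)) (T.l 1)) (T.l 1))) (T.l 1)), by decide +kernel⟩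

def X213_241m :
    ∃ t, chk3 (onCell 0 118631285 0 1073741824 1020054732 13421774 (xB12 3 .pnn false false gB2q2 gB4q3 gB1q1 26738688 2621440)) t 1 1 1 = true :=
  ⟨(T.b (T.l 0) (T.l 0)), by decide +kernel⟩

def B113_050p :
    ∃ t, chk3 (onCell 0 91892597 0 1073741824 1020054732 13421774 (fB12 2 true 0 c0B .nn true false true false gB0q1 gB5q3 gB0q1 gB1q1 26738688 2621440)) t 1 1 1 = true :=
  ⟨(T.l 1), by decide +kernel⟩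

def X113_051p :
    ∃ t, chk3 (onCell 0 91892597 0 1073741824 1020054732 13421774 (xB12 2 .nn true false gB0q1 gB5q3 gB1q1 26738688 2621440)) t 1 1 1 = true :=
  ⟨(T.l 0), by decide +kernel⟩

def B123_050p :
    ∃ t, chk3 (onCell 0 118631285 0 1073741824 1020054732 13421774 (fB12u true 0 c0B .npn true false true true gB0q1 gB5q3 gB0q2 gB1q2 26738688 2621440)) t 1 1 1 = true :=
  ⟨(T.b (T.b (T.l 0) (T.b (T.l 0) (T.l 2))) (T.l 2)), by decide +kernel⟩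

def B123_051p :
    ∃ t, chk3 (onCell 0 118631285 0 1073741824 1020054732 13421774 (fB12 3 true 0 c0B .npn true false true true gB0q1 gB5q3 gB1q2 gB2q2 26738688 2621440)) t 1 1 1 = true :=
  ⟨(T.b (T.b (T.l 1) (T.b (T.b (T.b (T.b (T.a (T.l 1) (T.b (T.l 1) (T.b (T.l 1) (T.a (T.a (T.l 1) (T.l 0)) (T.a (T.l 0) (T.l 3)))))) (T.b (T.a (T.a (T.l 68) (T.a (T.a (T.l 68) (T.l 0)) (T.a (T.l 0) (T.l 0)))) (T.a (T.a (T.l 0) (T.l 0)) (T.a (T.l 0) (T.l 3)))) (T.a (T.a (T.l 0) (T.a (T.a (T.l 0) (T.l 0)) (T.l 0))) (T.a (T.a (T.l 0) (T.l 0)) (T.a (T.l 272) (T.l 3)))))) (T.b (T.b (T.a (T.a (T.l 0) (T.a (T.a (T.l 0) (T.l 0)) (T.l 0))) (T.a (T.a (T.l 0) (T.l 272)) (T.a (T.l 272) (T.l 3)))) (T.b (T.a (T.a (T.l 0) (T.a (T.l 0) (T.l 272))) (T.a (T.l 0) (T.l 3))) (T.a (T.a (T.l 0) (T.a (T.l 0) (T.l 272))) (T.a (T.l 0) (T.l 3))))) (T.b (T.b (T.a (T.a (T.l 0) (T.a (T.l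 272) (T.l 272))) (T.a (T.l 272) (T.l 3))) (T.a (T.a (T.l 272) (T.a (T.l 272) (T.l 272))) (T.a (T.l 272) (T.l 3)))) (T.b (T.a (T.a (T.l 272) (T.a (T.l 272) (T.l 272))) (T.a (T.l 272) (T.l 3))) (T.a (T.a (T.l 272) (T.a (T.l 272) (T.l 272))) (T.a (T.l 272) (T.l 3))))))) (T.b (T.b (T.b (T.b (T.a (T.a (T.l 272) (T.a (T.l 272) (T.l 272))) (T.a (T.l 272) (T.l 3))) (T.a (T.a (T.l 272) (T.a (T.l 272) (T.l 272))) (T.a (T.l 272) (T.l 3)))) (T.b (T.a (T.a (T.l 272) (T.a (T.l 272) (T.l 272))) (T.a (T.l 272) (T.l 3))) (T.l 2))) (T.l 2)) (T.l 2))) (T.l 2))) (T.l 2)), by decide +kernel⟩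

def B123_052p :
    ∃ t, chk3 (onCell 0 118631285 0 1073741824 1020054732 13421774 (fB12 3 true 0 c0B .npn true false true false gB0q1 gB5q3 gB2q2 gB3q2 26738688 2621440)) t 1 1 1 = true :=
  ⟨(T.b (T.b (T.l 1) (T.b (T.b (T.l 1) (T.a (T.a (T.b (T.l 272) (T.a (T.l 272) (T.b (T.l 0) (T.l 0)))) (T.a (T.b (T.l 272) (T.l 272)) (T.b (T.l 272) (T.l 272)))) (T.a (T.a (T.l 272) (T.l 0)) (T.l 3)))) (T.b (T.a (T.a (T.a (T.l 272) (T.b (T.l 0) (T.l 0))) (T.a (T.l 0) (T.l 272))) (T.a (T.b (T.l 0) (T.l 0)) (T.l 3))) (T.a (T.a (T.a (T.l 0) (T.l 0)) (T.b (T.l 0) (T.l 0))) (T.a (T.l 0) (T.l 3)))))) (T.a (T.a (T.b (T.a (T.b (T.l 0) (T.a (T.l 0) (T.l 0))) (T.b (T.b (T.l 0) (T.l 0)) (T.l 0))) (T.a (T.a (T.l 0) (T.b (T.l 0) (T.l 0))) (T.b (T.l 0) (T.l 0)))) (T.b (T.b (T.a (T.l 0) (T.l 0)) (T.b (T.l 0) (T.l 0))) (T.a (T.b (T.l 0) (T.l 0)) (T.l 3)))) (T.b (T.b (T.b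 (T.l 3) (T.l 3)) (T.l 3)) (T.l 3)))), by decide +kernel⟩

def X123_053p :
    ∃ t, chk3 (onCell 0 118631285 0 1073741824 1020054732 13421774 (xB12 3 .npn true false gB0q1 gB5q3 gB3q2 26738688 2621440)) t 1 1 1 = true :=
  ⟨(T.b (T.b (T.l 0) (T.l 0)) (T.a (T.b (T.l 0) (T.a (T.l 0) (T.a (T.a (T.l 0) (T.l 3)) (T.l 3)))) (T.b (T.b (T.b (T.l 3) (T.l 3)) (T.l 3)) (T.l 3)))), by decide +kernel⟩

def B113_050m :
    ∃ t, chk3 (onCell 0 91892597 0 1073741824 1020054732 13421774 (fB12 2 true 0 c0B .nn false false true false gB0q1 gB5q3 gB0q1 gB1q1 26738688 2621440)) t 1 1 1 = true :=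
  ⟨(T.a (T.a (T.l 272) (T.l 272)) (T.l 272)), by decide +kernel⟩

def X113_051m :
    ∃ t, chk3 (onCell 0 91892597 0 1073741824 1020054732 13421774 (xB12 2 .nn false false gB0q1 gB5q3 gB1q1 26738688 2621440)) t 1 1 1 = true :=
  ⟨(T.l 0), by decide +kernel⟩

def B123_050m :
    ∃ t, chk3 (onCell 0 118631285 0 1073741824 1020054732 13421774 (fB12 3 true 0 c0B .npn false false true true gB0q1 gB5q3 gB0q2 gB1q2 26738688 2621440)) t 1 1 1 = true :=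
  ⟨(T.l 2), by decide +kernel⟩

def B123_051m :
    ∃ t, chk3 (onCell 0 118631285 0 1073741824 1020054732 13421774 (fB12 3 true 0 c0B .npn false false true true gB0q1 gB5q3 gB1q2 gB2q2 26738688 2621440)) t 1 1 1 = true :=
  ⟨(T.l 2), by decide +kernel⟩

def B123_052m :
    ∃ t, chk3 (onCell 0 118631285 0 1073741824 1020054732 13421774 (fB12 3 true 0 c0B .npn false false true false gB0q1 gB5q3 gB2q2 gB3q2 26738688 2621440)) t 1 1 1 = true :=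
  ⟨(T.a (T.a (T.a (T.b (T.l 0) (T.a (T.l 0) (T.b (T.b (T.l 0) (T.l 0)) (T.l 0)))) (T.b (T.b (T.l 0) (T.b (T.b (T.l 0) (T.l 0)) (T.l 0))) (T.a (T.b (T.l 0) (T.l 0)) (T.b (T.l 0) (T.l 0))))) (T.b (T.a (T.b (T.a (T.l 0) (T.b (T.l 0) (T.l 0))) (T.b (T.l 0) (T.l 0))) (T.b (T.b (T.l 0) (T.l 0)) (T.b (T.l 0) (T.l 0)))) (T.a (T.b (T.b (T.l 0) (T.l 0)) (T.l 0)) (T.b (T.l 0) (T.l 3))))) (T.b (T.b (T.b (T.l 2) (T.l 2)) (T.l 2)) (T.l 2))), by decide +kernel⟩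

def B123_053m :
    ∃ t, chk3 (onCell 0 118631285 0 1073741824 1020054732 13421774 (fB12 3 true 0 c0B .npn false false false false gB0q1 gB5q3 gB3q2 gB4q2 26738688 2621440)) t 1 1 1 = true :=
  ⟨(T.a (T.a (T.l 1) (T.b (T.a (T.b (T.l 1) (T.l 1)) (T.b (T.b (T.l 0) (T.l 0)) (T.b (T.l 0) (T.l 0)))) (T.a (T.b (T.b (T.l 0) (T.l 0)) (T.l 0)) (T.b (T.l 0) (T.l 3))))) (T.b (T.a (T.a (T.b (T.b (T.b (T.l 0) (T.l 0)) (T.l 0)) (T.b (T.l 0) (T.l 0))) (T.b (T.b (T.b (T.l 0) (T.l 0)) (T.l 0)) (T.b (T.l 0) (T.l 3)))) (T.b (T.b (T.b (T.b (T.l 0) (T.l 0)) (T.l 0)) (T.b (T.l 0) (T.l 0))) (T.b (T.l 0) (T.l 3)))) (T.a (T.a (T.b (T.l 3) (T.l 3)) (T.l 3)) (T.l 3)))), by decide +kernel⟩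

def X123_054m :
    ∃ t, chk3 (onCell 0 118631285 0 1073741824 1020054732 13421774 (xB12 3 .npn false false gB0q1 gB5q3 gB4q2 26738688 2621440)) t 1 1 1 = true :=
  ⟨(T.l 0), by decide +kernel⟩

def X213_051m :
    ∃ t, chk3 (onCell 0 118631285 0 1073741824 1020054732 13421774 (xB12 3 .pnn false false gB0q2 gB5q3 gB1q1 26738688 2621440)) t 1 1 1 = true :=
  ⟨(T.b (T.l 0) (T.l 0)), by decide +kernel⟩

def B213_150m :
    ∃ t, chk3 (onCell 0 118631285 0 1073741824 1020054732 13421774 (fB12 3 true 0 c0B .pnn false false true false gB1q2 gB5q3 gB0q1 gB1q1 26738688 2621440)) t 1 1 1 = true :=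
  ⟨(T.b (T.b (T.a (T.a (T.b (T.l 272) (T.l 0)) (T.b (T.a (T.l 0) (T.l 272)) (T.b (T.a (T.l 272) (T.l 0)) (T.a (T.a (T.l 272) (T.l 0)) (T.b (T.l 0) (T.l 0)))))) (T.b (T.a (T.b (T.l 272) (T.b (T.l 272) (T.l 0))) (T.b (T.b (T.l 272) (T.l 272)) (T.l 0))) (T.b (T.a (T.b (T.l 0) (T.l 0)) (T.l 0)) (T.a (T.a (T.b (T.l 0) (T.l 0)) (T.b (T.l 0) (T.l 0))) (T.a (T.l 0) (T.l 0)))))) (T.b (T.b (T.b (T.b (T.b (T.a (T.a (T.l 272) (T.a (T.a (T.l 272) (T.l 272)) (T.l 0))) (T.a (T.a (T.l 0) (T.l 0)) (T.l 0))) (T.a (T.a (T.l 272) (T.a (T.a (T.l 272) (T.l 272)) (T.l 0))) (T.a (T.a (T.l 0) (T.l 0)) (T.a (T.l 0) (T.l 3))))) (T.b (T.a (T.a (T.l 272) (T.b (T.a (T.a (T.l 272) (T.l 272)) (T.l 0)) (T.l 1))) (T.a (T.a (T.a (T.l 0) (T.l 0)) (T.l 0)) (T.l 1))) (T.l 1))) (T.l 1)) (T.l 1)) (T.l 1))) (T.l 1)), by decide +kernel⟩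

def X213_151m :
    ∃ t, chk3 (onCell 0 118631285 0 1073741824 1020054732 13421774 (xB12 3 .pnn false false gB1q2 gB5q3 gB1q1 26738688 2621440)) t 1 1 1 = true :=
  ⟨(T.b (T.l 0) (T.l 0)), by decide +kernel⟩

def B213_250m :
    ∃ t, chk3 (onCell 0 118631285 0 1073741824 1020054732 13421774 (fB12 3 true 0 c0B .pnn false false true false gB2q2 gB5q3 gB0q1 gB1q1 26738688 2621440)) t 1 1 1 = true :=
  ⟨(T.b (T.b (T.a (T.a (T.l 0) (T.b (T.b (T.l 0) (T.l 0)) (T.a (T.b (T.l 0) (T.l 0)) (T.b (T.l 0) (T.l 0))))) (T.b (T.a (T.b (T.l 272) (T.l 0)) (T.b (T.b (T.l 272) (T.l 0)) (T.l 0))) (T.b (T.a (T.l 0) (T.l 0)) (T.a (T.l 0) (T.l 0))))) (T.b (T.b (T.b (T.b (T.a (T.a (T.l 0) (T.a (T.l 0) (T.l 0))) (T.a (T.l 0) (T.l 0))) (T.b (T.a (T.a (T.l 0) (T.a (T.l 0) (T.l 68))) (T.a (T.l 0) (T.l 68))) (T.a (T.a (T.l 68) (T.a (T.l 0) (T.l 68))) (T.a (T.l 0) (T.l 68)))))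 (T.b (T.b (T.b (T.a (T.a (T.l 68) (T.a (T.l 68) (T.l 68))) (T.a (T.l 68) (T.l 68))) (T.a (T.a (T.l 68) (T.a (T.l 68) (T.l 68))) (T.a (T.l 68) (T.l 68)))) (T.b (T.a (T.a (T.l 68) (T.a (T.l 68) (T.l 68))) (T.a (T.l 68) (T.l 3))) (T.a (T.a (T.l 68) (T.a (T.l 68) (T.l 68))) (T.a (T.l 68) (T.l 3))))) (T.b (T.b (T.a (T.a (T.l 68) (T.a (T.l 68) (T.l 68))) (T.a (T.l 68) (T.l 3))) (T.a (T.a (T.l 68) (T.a (T.l 68) (T.l 68))) (T.a (T.l 68) (T.l 3)))) (T.b (T.a (T.a (T.l 68) (T.a (T.l 68) (T.l 68))) (T.a (T.l 68) (T.l 3))) (T.a (T.a (T.l 68) (T.a (T.l 68) (T.l 68))) (T.a (T.l 68) (T.l 3))))))) (T.b (T.b (T.b (T.b (T.a (T.a (T.l 68) (T.a (T.l 68) (T.l 68))) (T.a (T.l 68) (T.l 3))) (T.a (T.a (T.l 68) (T.a (T.l 68) (T.l 68))) (T.a (T.l 68) (T.l 3)))) (T.b (T.a (T.a (T.l 68) (T.a (T.l 68) (T.l 68))) (T.a (T.l 68) (T.l 3))) (T.l 1))) (T.l 1)) (T.l 1))) (T.l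 1))) (T.l 1)), by decide +kernel⟩

def X213_251m :
    ∃ t, chk3 (onCell 0 118631285 0 1073741824 1020054732 13421774 (xB12 3 .pnn false false gB2q2 gB5q3 gB1q1 26738688 2621440)) t 1 1 1 = true :=
  ⟨(T.b (T.l 0) (T.l 0)), by decide +kernel⟩

end Pool.Agent.Strip051.G.I9500_9625.Tab.EG
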