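import Pool.Agent.Strip051.G.I9500_9625.Gn
import Pool.Agent.Strip051.PB.Corns
import Pool.Agent.Strip051.PB.CornW

/-! # Certificates of the aligned corners (generated) -/

set_option linter.all false

namespace Pool.Agent.Strip051.G.I9500_9625.Tab.CG

open Pool.Agent.Strip051.PB

def A011E_000 :
    ∃ t, chk3 (onCell 0 38347922 0 1073741824 1020054732 13421774 (corT true 1 c0B cA011E gB0q0 gB0q1 gB0q1 gB1q1 true false)) t 1 1 1 = true :=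
  ⟨(T.l 1), by decide +kernel⟩

def A011L_002 :
    ∃ t, chk3 (onCell 0 38347922 0 1073741824 1020054732 13421774 (corT true 1 c0B cA011L gB0q0 gB0q1 gB2q1 gB3q1 false true)) t 1 1 1 = true :=
  ⟨(T.l 2), by decide +kernel⟩

def A011L_003 :
    ∃ t, chk3 (onCell 0 38347922 0 1073741824 1020054732 13421774 (corT true 1 c0B cA011L gB0q0 gB0q1 gB3q1 gB4q1 true true)) t 1 1 1 = true :=
  ⟨(T.l 2), by decide +kernel⟩

def A011L_004 :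
    ∃ t, chk3 (onCell 0 38347922 0 1073741824 1020054732 13421774 (corT true 1 c0B cA011L gB0q0 gB0q1 gB4q1 gB5q1 true true)) t 1 1 1 = true :=
  ⟨(T.l 2), by decide +kernel⟩

def A011R_030 :
    ∃ t, chk3 (onCell 0 38347922 0 1073741824 1020054732 13421774 (corT true 1 c0B cA011R gB0q0 gB3q1 gB0q1 gB1q1 true false)) t 1 1 1 = true :=
  ⟨(T.b (T.b (T.b (T.b (T.a (T.l 204) (T.a (T.l 204) (T.l 204))) (T.l 1)) (T.l 1)) (T.l 1)) (T.l 1)), by decide +kernel⟩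

def A011R_040 :
    ∃ t, chk3 (onCell 0 38347922 0 1073741824 1020054732 13421774 (corT true 1 c0B cA011R gB0q0 gB4q1 gB0q1 gB1q1 true false)) t 1 1 1 = true :=
  ⟨(T.b (T.b (T.a (T.l 0) (T.a (T.b (T.l 0) (T.b (T.l 0) (T.l 0))) (T.b (T.l 0) (T.l 0)))) (T.l 1)) (T.l 1)), by decide +kernel⟩

def A011R_050 :
    ∃ t, chk3 (onCell 0 26843545 0 1073741824 1020054732 13421774 (corX 1 c0B cA011R tA011R gB0q0 gB5q1 gB0q1 gB1q1 gB0q1 true false)) t 1 1 1 = true :=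
  ⟨(T.b (T.a (T.l 3) (T.b (T.a (T.l 0) (T.b (T.l 0) (T.l 0))) (T.b (T.b (T.l 0) (T.l 207)) (T.l 1)))) (T.l 1)), by decide +kernel⟩

def A011R_130 :
    ∃ t, chk3 (onCell 0 38347922 0 1073741824 1020054732 13421774 (corT true 1 c0B cA011R gB1q0 gB3q1 gB0q1 gB1q1 true false)) t 1 1 1 = true :=
  ⟨(T.l 1), by decide +kernel⟩

def A011R_140 :
    ∃ t, chk3 (onCell 0 38347922 0 1073741824 1020054732 13421774 (corT true 1 c0B cA011R gB1q0 gB4q1 gB0q1 gB1q1 true false)) t 1 1 1 = true :=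
  ⟨(T.b (T.b (T.b (T.a (T.a (T.a (T.l 816) (T.l 0)) (T.l 0)) (T.l 0)) (T.l 1)) (T.l 1)) (T.l 1)), by decide +kernel⟩

def A011R_150 :
    ∃ t, chk3 (onCell 0 38347922 0 1073741824 1020054732 13421774 (corT true 1 c0B cA011R gB1q0 gB5q1 gB0q1 gB1q1 true false)) t 1 1 1 = true :=
  ⟨(T.b (T.b (T.b (T.a (T.a (T.a (T.l 816) (T.l 0)) (T.l 0)) (T.b (T.l 0) (T.l 0))) (T.b (T.a (T.a (T.a (T.l 816) (T.l 0)) (T.l 0)) (T.b (T.l 0) (T.l 0))) (T.l 1))) (T.l 1)) (T.l 1)), by decide +kernel⟩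

def A011R_230 :
    ∃ t, chk3 (onCell 0 38347922 0 1073741824 1020054732 13421774 (corT true 1 c0B cA011R gB2q0 gB3q1 gB0q1 gB1q1 true false)) t 1 1 1 = true :=
  ⟨(T.l 1), by decide +kernel⟩

def A011R_240 :
    ∃ t, chk3 (onCell 0 38347922 0 1073741824 1020054732 13421774 (corT true 1 c0B cA011R gB2q0 gB4q1 gB0q1 gB1q1 true false)) t 1 1 1 = true :=
  ⟨(T.l 1), by decide +kernel⟩

def A011R_250 :
    ∃ t, chk3 (onCell 0 38347922 0 1073741824 1020054732 13421774 (corT true 1 c0B cA011R gB2q0 gB5q1 gB0q1 gB1q1 true false)) t 1 1 1 = true :=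
  ⟨(T.l 1), by decide +kernel⟩

def A012E_000 :
    ∃ t, chk3 (onCell 0 16777216 0 1073741824 1020054732 13421774 (corX 1 c0B cA012E tA012E gB0q0 gB0q1 gB0q2 gB1q2 gB0q2 true true)) t 1 1 1 = true :=
  ⟨(T.b (T.b (T.l 1) (T.b (T.l 1) (T.b (T.l 1) (T.b (T.l 1) (T.b (T.l 1) (T.b (T.l 1) (T.a (T.b (T.l 1) (T.a (T.a (T.l 207) (T.l 207)) (T.c (T.l 207) (T.l 207)))) (T.a (T.c (T.l 207) (T.l 207)) (T.l 207))))))))) (T.b (T.b (T.b (T.b (T.a (T.a (T.a (T.c (T.l 207) (T.l 207)) (T.b (T.l 207) (T.l 207))) (T.a (T.l 207) (T.l 207))) (T.a (T.c (T.l 207) (T.l 207)) (T.b (T.l 207) (T.l 207)))) (T.a (T.a (T.a (T.c (T.l 207) (T.l 207)) (T.b (T.l 207) (T.l 207))) (T.a (T.l 207) (T.l 207))) (T.a (T.c (T.l 207) (T.l 207)) (T.b (T.l 207) (T.l 207))))) (T.l 2)) (T.l 2)) (T.l 2))), by decide +kernel⟩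

def A012E_001 :
    ∃ t, chk3 (onCell 0 16777216 0 1073741824 1020054732 13421774 (corT true 1 c0B cA012E gB0q0 gB0q1 gB1q2 gB2q2 true true)) t 1 1 1 = true :=
  ⟨(T.b (T.l 1) (T.b (T.b (T.b (T.b (T.l 1) (T.b (T.l 1) (T.a (T.b (T.b (T.l 1) (T.b (T.a (T.l 1) (T.a (T.l 1) (T.a (T.l 1) (T.b (T.l 1) (T.l 204))))) (T.a (T.a (T.l 1) (T.b (T.l 1) (T.c (T.l 204) (T.c (T.l 204) (T.a (T.c (T.l 204) (T.l 204)) (T.l 204)))))) (T.c (T.l 204) (T.c (T.l 204) (T.a (T.a (T.l 460) (T.l 204)) (T.l 204))))))) (T.a (T.b (T.a (T.b (T.a (T.b (T.b (T.l 1) (T.l 204)) (T.l 204)) (T.l 460)) (T.l 204)) (T.l 460)) (T.l 204)) (T.c (T.l 204) (T.l 204)))) (T.b (T.b (T.a (T.l 1) (T.b (T.l 1) (T.b (T.l 1) (T.c (T.l 204) (T.l 204))))) (T.a (T.c (T.l 204) (T.c (T.l 204) (T.a (T.a (T.l 204) (T.l 204)) (T.l 204)))) (T.l 204))) (T.l 204))))) (T.b (T.b (T.c (T.l 0) (T.l 0)) (T.l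 0)) (T.l 0))) (T.b (T.l 0) (T.l 816))) (T.l 2))), by decide +kernel⟩

def A012E_002 :
    ∃ t, chk3 (onCell 0 16777216 0 1073741824 1020054732 13421774 (corT true 1 c0B cA012E gB0q0 gB0q1 gB2q2 gB3q2 true false)) t 1 1 1 = true :=
  ⟨(T.b (T.l 1) (T.b (T.b (T.l 1) (T.b (T.l 1) (T.b (T.l 816) (T.l 816)))) (T.b (T.l 816) (T.l 816)))), by decide +kernel⟩

def A012L_004 :
    ∃ t, chk3 (onCell 0 38347922 0 1073741824 1020054732 13421774 (corT true 1 c0B cA012L gB0q0 gB0q1 gB4q2 gB5q2 false true)) t 1 1 1 = true :=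
  ⟨(T.l 2), by decide +kernel⟩

def A012R_030 :
    ∃ t, chk3 (onCell 0 38347922 0 1073741824 1020054732 13421774 (corT true 1 c0B cA012R gB0q0 gB3q1 gB0q2 gB1q2 true true)) t 1 1 1 = true :=
  ⟨(T.b (T.b (T.l 2) (T.l 2)) (T.l 2)), by decide +kernel⟩

def A012R_031 :
    ∃ t, chk3 (onCell 0 38347922 0 1073741824 1020054732 13421774 (corT true 1 c0B cA012R gB0q0 gB3q1 gB1q2 gB2q2 true true)) t 1 1 1 = true :=
  ⟨(T.b (T.l 2) (T.l 2)), by decide +kernel⟩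

def A012R_032 :
    ∃ t, chk3 (onCell 0 38347922 0 1073741824 1020054732 13421774 (corT true 1 c0B cA012R gB0q0 gB3q1 gB2q2 gB3q2 true false)) t 1 1 1 = true :=
  ⟨(T.a (T.b (T.l 0) (T.l 0)) (T.b (T.a (T.l 0) (T.l 0)) (T.b (T.l 0) (T.b (T.l 0) (T.l 0))))), by decide +kernel⟩

def A012R_040 :
    ∃ t, chk3 (onCell 0 38347922 0 1073741824 1020054732 13421774 (corT true 1 c0B cA012R gB0q0 gB4q1 gB0q2 gB1q2 true true)) t 1 1 1 = true :=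
  ⟨(T.l 2), by decide +kernel⟩

def A012R_041 :
    ∃ t, chk3 (onCell 0 38347922 0 1073741824 1020054732 13421774 (corT true 1 c0B cA012R gB0q0 gB4q1 gB1q2 gB2q2 true true)) t 1 1 1 = true :=
  ⟨(T.l 2), by decide +kernel⟩

def A012R_042 :
    ∃ t, chk3 (onCell 0 38347922 0 1073741824 1020054732 13421774 (corT true 1 c0B cA012R gB0q0 gB4q1 gB2q2 gB3q2 true false)) t 1 1 1 = true :=
  ⟨(T.a (T.l 64) (T.b (T.l 64) (T.b (T.l 816) (T.b (T.l 0) (T.l 0))))), by decide +kernel⟩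

def A012R_050 :
    ∃ t, chk3 (onCell 0 38347922 0 1073741824 1020054732 13421774 (corT true 1 c0B cA012R gB0q0 gB5q1 gB0q2 gB1q2 true true)) t 1 1 1 = true :=
  ⟨(T.l 2), by decide +kernel⟩

def A012R_051 :
    ∃ t, chk3 (onCell 0 38347922 0 1073741824 1020054732 13421774 (corT true 1 c0B cA012R gB0q0 gB5q1 gB1q2 gB2q2 true true)) t 1 1 1 = true :=
  ⟨(T.l 2), by decide +kernel⟩

def A012R_052 :
    ∃ t, chk3 (onCell 0 38347922 0 1073741824 1020054732 13421774 (corT true 1 c0B cA012R gB0q0 gB5q1 gB2q2 gB3q2 true false)) t 1 1 1 = true :=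
  ⟨(T.a (T.b (T.l 0) (T.l 816)) (T.a (T.b (T.l 0) (T.l 816)) (T.b (T.b (T.l 0) (T.l 816)) (T.b (T.l 816) (T.l 816))))), by decide +kernel⟩

def A012R_130 :
    ∃ t, chk3 (onCell 0 38347922 0 1073741824 1020054732 13421774 (corT true 1 c0B cA012R gB1q0 gB3q1 gB0q2 gB1q2 true true)) t 1 1 1 = true :=
  ⟨(T.b (T.b (T.b (T.l 1) (T.b (T.a (T.a (T.a (T.l 0) (T.l 0)) (T.l 0)) (T.l 0)) (T.a (T.a (T.a (T.l 0) (T.l 0)) (T.l 0)) (T.l 0)))) (T.l 2)) (T.l 2)), by decide +kernel⟩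

def A012R_131 :
    ∃ t, chk3 (onCell 0 38347922 0 1073741824 1020054732 13421774 (corT true 1 c0B cA012R gB1q0 gB3q1 gB1q2 gB2q2 true true)) t 1 1 1 = true :=
  ⟨(T.b (T.b (T.a (T.a (T.a (T.l 0) (T.l 0)) (T.l 0)) (T.l 0)) (T.a (T.a (T.a (T.l 0) (T.l 0)) (T.l 0)) (T.l 0))) (T.b (T.l 2) (T.l 2))), by decide +kernel⟩

def A012R_132 :
    ∃ t, chk3 (onCell 0 38347922 0 1073741824 1020054732 13421774 (corT true 1 c0B cA012R gB1q0 gB3q1 gB2q2 gB3q2 true false)) t 1 1 1 = true :=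
  ⟨(T.b (T.a (T.a (T.a (T.l 0) (T.l 0)) (T.l 0)) (T.l 0)) (T.b (T.a (T.a (T.a (T.l 816) (T.l 816)) (T.l 816)) (T.l 0)) (T.a (T.a (T.a (T.l 816) (T.l 816)) (T.l 816)) (T.b (T.l 0) (T.l 0))))), by decide +kernel⟩

def A012R_140 :
    ∃ t, chk3 (onCell 0 38347922 0 1073741824 1020054732 13421774 (corT true 1 c0B cA012R gB1q0 gB4q1 gB0q2 gB1q2 true true)) t 1 1 1 = true :=
  ⟨(T.b (T.l 2) (T.l 2)), by decide +kernel⟩

def A012R_141 :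
    ∃ t, chk3 (onCell 0 38347922 0 1073741824 1020054732 13421774 (corT true 1 c0B cA012R gB1q0 gB4q1 gB1q2 gB2q2 true true)) t 1 1 1 = true :=
  ⟨(T.b (T.l 2) (T.l 2)), by decide +kernel⟩

def A012R_142 :
    ∃ t, chk3 (onCell 0 38347922 0 1073741824 1020054732 13421774 (corT true 1 c0B cA012R gB1q0 gB4q1 gB2q2 gB3q2 true false)) t 1 1 1 = true :=
  ⟨(T.b (T.a (T.a (T.a (T.l 816) (T.l 0)) (T.l 0)) (T.l 0)) (T.b (T.a (T.a (T.a (T.l 816) (T.l 816)) (T.l 816)) (T.l 816)) (T.a (T.a (T.a (T.l 816) (T.l 816)) (T.l 816)) (T.b (T.l 0) (T.l 0))))), by decide +kernel⟩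

def A012R_150 :
    ∃ t, chk3 (onCell 0 38347922 0 1073741824 1020054732 13421774 (corT true 1 c0B cA012R gB1q0 gB5q1 gB0q2 gB1q2 true true)) t 1 1 1 = true :=
  ⟨(T.l 2), by decide +kernel⟩

def A012R_151 :
    ∃ t, chk3 (onCell 0 38347922 0 1073741824 1020054732 13421774 (corT true 1 c0B cA012R gB1q0 gB5q1 gB1q2 gB2q2 true true)) t 1 1 1 = true :=
  ⟨(T.l 2), by decide +kernel⟩

def A012R_152 :
    ∃ t, chk3 (onCell 0 38347922 0 1073741824 1020054732 13421774 (corT true 1 c0B cA012R gB1q0 gB5q1 gB2q2 gB3q2 true false)) t 1 1 1 = true :=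
  ⟨(T.b (T.b (T.b (T.a (T.a (T.a (T.l 816) (T.l 0)) (T.l 0)) (T.l 0)) (T.a (T.a (T.a (T.l 816) (T.l 0)) (T.l 0)) (T.l 0))) (T.a (T.a (T.a (T.l 816) (T.l 816)) (T.l 816)) (T.l 816))) (T.b (T.a (T.a (T.a (T.l 816) (T.l 816)) (T.l 816)) (T.l 816)) (T.a (T.a (T.a (T.l 816) (T.l 816)) (T.l 816)) (T.b (T.l 0) (T.l 0))))), by decide +kernel⟩

def A012R_230 :
    ∃ t, chk3 (onCell 0 38347922 0 1073741824 1020054732 13421774 (corT true 1 c0B cA012R gB2q0 gB3q1 gB0q2 gB1q2 true true)) t 1 1 1 = true :=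
  ⟨(T.b (T.l 1) (T.b (T.b (T.b (T.b (T.a (T.l 1) (T.l 0)) (T.a (T.a (T.l 1) (T.l 0)) (T.l 0))) (T.a (T.a (T.a (T.l 816) (T.l 816)) (T.l 0)) (T.b (T.l 0) (T.l 0)))) (T.b (T.a (T.a (T.a (T.l 816) (T.l 816)) (T.l 0)) (T.a (T.l 816) (T.l 816))) (T.a (T.b (T.a (T.a (T.l 816) (T.l 816)) (T.l 0)) (T.a (T.a (T.l 816) (T.l 816)) (T.l 0))) (T.a (T.l 816) (T.l 2))))) (T.b (T.a (T.l 2) (T.l 2)) (T.l 2)))), by decide +kernel⟩

def A012R_231 :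
    ∃ t, chk3 (onCell 0 38347922 0 1073741824 1020054732 13421774 (corT true 1 c0B cA012R gB2q0 gB3q1 gB1q2 gB2q2 true true)) t 1 1 1 = true :=
  ⟨(T.b (T.l 1) (T.b (T.a (T.a (T.a (T.l 816) (T.l 816)) (T.l 816)) (T.l 816)) (T.b (T.a (T.a (T.a (T.l 816) (T.l 816)) (T.l 816)) (T.b (T.l 816) (T.l 0))) (T.a (T.a (T.a (T.l 816) (T.l 816)) (T.l 816)) (T.b (T.l 0) (T.l 0)))))), by decide +kernel⟩

def A012R_232 :
    ∃ t, chk3 (onCell 0 38347922 0 1073741824 1020054732 13421774 (corT true 1 c0B cA012R gB2q0 gB3q1 gB2q2 gB3q2 true false)) t 1 1 1 = true :=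
  ⟨(T.l 1), by decide +kernel⟩

def A012R_240 :
    ∃ t, chk3 (onCell 0 38347922 0 1073741824 1020054732 13421774 (corT true 1 c0B cA012R gB2q0 gB4q1 gB0q2 gB1q2 true true)) t 1 1 1 = true :=
  ⟨(T.b (T.b (T.l 1) (T.b (T.l 1) (T.b (T.a (T.l 1) (T.b (T.l 1) (T.l 0))) (T.a (T.a (T.a (T.l 816) (T.l 816)) (T.l 816)) (T.b (T.l 0) (T.l 0)))))) (T.b (T.b (T.b (T.a (T.a (T.a (T.l 816) (T.l 816)) (T.l 64)) (T.a (T.l 816) (T.l 816))) (T.a (T.b (T.a (T.a (T.l 816) (T.l 816)) (T.l 0)) (T.a (T.a (T.l 816) (T.l 816)) (T.l 0))) (T.a (T.l 816) (T.l 816)))) (T.b (T.a (T.b (T.a (T.a (T.l 816) (T.l 816)) (T.l 2)) (T.l 2)) (T.l 2)) (T.l 2))) (T.l 2))), by decide +kernel⟩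

def A012R_241 :
    ∃ t, chk3 (onCell 0 38347922 0 1073741824 1020054732 13421774 (corT true 1 c0B cA012R gB2q0 gB4q1 gB1q2 gB2q2 true true)) t 1 1 1 = true :=
  ⟨(T.b (T.l 1) (T.b (T.a (T.a (T.a (T.l 816) (T.l 816)) (T.l 816)) (T.l 816)) (T.b (T.a (T.a (T.a (T.l 816) (T.l 816)) (T.l 816)) (T.b (T.l 816) (T.l 0))) (T.a (T.a (T.a (T.l 816) (T.l 816)) (T.l 816)) (T.b (T.l 0) (T.l 0)))))), by decide +kernel⟩

def A012R_242 :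
    ∃ t, chk3 (onCell 0 38347922 0 1073741824 1020054732 13421774 (corT true 1 c0B cA012R gB2q0 gB4q1 gB2q2 gB3q2 true false)) t 1 1 1 = true :=
  ⟨(T.l 1), by decide +kernel⟩

def A012R_250 :
    ∃ t, chk3 (onCell 0 38347922 0 1073741824 1020054732 13421774 (corT true 1 c0B cA012R gB2q0 gB5q1 gB0q2 gB1q2 true true)) t 1 1 1 = true :=
  ⟨(T.b (T.b (T.l 1) (T.b (T.b (T.l 1) (T.a (T.a (T.l 1) (T.l 816)) (T.l 0))) (T.b (T.a (T.a (T.a (T.l 816) (T.l 816)) (T.l 816)) (T.b (T.l 0) (T.l 0))) (T.a (T.a (T.a (T.l 816) (T.l 816)) (T.l 816)) (T.b (T.l 0) (T.l 0)))))) (T.b (T.b (T.b (T.a (T.b (T.a (T.a (T.l 816) (T.l 816)) (T.l 816)) (T.a (T.a (T.l 816) (T.l 816)) (T.l 0))) (T.a (T.l 816) (T.l 2))) (T.a (T.b (T.a (T.a (T.l 816) (T.l 2)) (T.l 2)) (T.l 2)) (T.l 2))) (T.l 2)) (T.l 2))), by decide +kernel⟩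

def A012R_251 :
    ∃ t, chk3 (onCell 0 38347922 0 1073741824 1020054732 13421774 (corT true 1 c0B cA012R gB2q0 gB5q1 gB1q2 gB2q2 true true)) t 1 1 1 = true :=
  ⟨(T.b (T.b (T.l 1) (T.a (T.l 1) (T.l 816))) (T.b (T.a (T.a (T.a (T.l 816) (T.l 816)) (T.l 816)) (T.l 816)) (T.a (T.a (T.a (T.l 816) (T.l 816)) (T.l 816)) (T.a (T.l 816) (T.l 0))))), by decide +kernel⟩

def A012R_252 :
    ∃ t, chk3 (onCell 0 38347922 0 1073741824 1020054732 13421774 (corT true 1 c0B cA012R gB2q0 gB5q1 gB2q2 gB3q2 true false)) t 1 1 1 = true :=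
  ⟨(T.l 1), by decide +kernel⟩

def A022E_000 :
    ∃ t, chk3 (onCell 0 33554432 0 1073741824 1020054732 13421774 (corT true 1 c0B cA022E gB0q0 gB0q2 gB0q2 gB1q2 true true)) t 1 1 1 = true :=
  ⟨(T.l 2), by decide +kernel⟩

def A022E_001 :
    ∃ t, chk3 (onCell 0 33554432 0 1073741824 1020054732 13421774 (corT true 1 c0B cA022E gB0q0 gB0q2 gB1q2 gB2q2 true true)) t 1 1 1 = true :=
  ⟨(T.l 2), by decide +kernel⟩

def A022E_002_2_8_1 :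
    ∃ t, chk3 (onCell 0 33554432 0 1073741824 1020054732 13421774 (corT true 1 c0B cA022E gB0q0 gB0q2 gB2q2 gB3q2 true false)) t 2 8 1 = true :=
  ⟨(T.a (T.c (T.b (T.a (T.a (T.l 204) (T.l 204)) (T.a (T.l 204) (T.l 204))) (T.l 204)) (T.b (T.l 204) (T.l 204))) (T.a (T.a (T.b (T.b (T.a (T.l 204) (T.a (T.l 204) (T.a (T.l 204) (T.l 204)))) (T.l 204)) (T.l 204)) (T.b (T.a (T.b (T.c (T.b (T.a (T.l 204) (T.l 204)) (T.l 204)) (T.l 204)) (T.l 204)) (T.b (T.c (T.b (T.a (T.l 204) (T.l 204)) (T.l 204)) (T.l 204)) (T.l 204))) (T.a (T.l 204) (T.l 204)))) (T.a (T.b (T.a (T.b (T.c (T.a (T.l 204) (T.l 204)) (T.l 204)) (T.l 204)) (T.b (T.c (T.a (T.l 204) (T.l 204)) (T.l 204)) (T.l 204))) (T.b (T.l 204) (T.l 204))) (T.b (T.b (T.a (T.c (T.b (T.l 204) (T.l 204)) (T.l 204)) (T.a (T.b (T.l 204) (T.l 204)) (T.l 204))) (T.a (T.l 204) (T.l 204))) (T.b (T.l 204) (T.l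 204)))))), by decide +kernel⟩

def A022E_002_3_8_1 :
    ∃ t, chk3 (onCell 0 33554432 0 1073741824 1020054732 13421774 (corT true 1 c0B cA022E gB0q0 gB0q2 gB2q2 gB3q2 true false)) t 3 8 1 = true :=
  ⟨(T.a (T.a (T.b (T.a (T.b (T.a (T.a (T.l 204) (T.l 204)) (T.b (T.l 204) (T.l 204))) (T.b (T.l 204) (T.l 204))) (T.b (T.a (T.b (T.l 204) (T.l 204)) (T.c (T.l 204) (T.b (T.l 204) (T.l 204)))) (T.b (T.l 204) (T.l 204)))) (T.a (T.b (T.l 204) (T.l 204)) (T.b (T.l 204) (T.l 204)))) (T.b (T.a (T.b (T.a (T.c (T.l 204) (T.b (T.l 204) (T.l 204))) (T.c (T.l 204) (T.b (T.l 204) (T.l 204)))) (T.b (T.l 204) (T.l 204))) (T.b (T.a (T.c (T.l 204) (T.b (T.l 204) (T.l 204))) (T.c (T.l 204) (T.b (T.l 204) (T.l 204)))) (T.c (T.l 204) (T.l 204)))) (T.a (T.b (T.l 204) (T.l 204)) (T.b (T.l 204) (T.l 204))))) (T.a (T.b (T.a (T.b (T.c (T.b (T.l 204) (T.l 204)) (T.b (T.a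 (T.l 204) (T.l 204)) (T.l 204))) (T.c (T.l 204) (T.l 204))) (T.b (T.c (T.l 204) (T.a (T.l 204) (T.l 204))) (T.b (T.l 204) (T.l 204)))) (T.a (T.b (T.l 204) (T.l 204)) (T.b (T.l 204) (T.l 204)))) (T.b (T.a (T.c (T.b (T.l 204) (T.l 204)) (T.b (T.b (T.l 204) (T.l 204)) (T.l 204))) (T.c (T.l 204) (T.a (T.b (T.l 204) (T.l 204)) (T.l 204)))) (T.a (T.b (T.l 204) (T.l 204)) (T.b (T.l 204) (T.l 204)))))), by decide +kernel⟩

def A022E_002_1_9_1 :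
    ∃ t, chk3 (onCell 0 33554432 0 1073741824 1020054732 13421774 (corT true 1 c0B cA022E gB0q0 gB0q2 gB2q2 gB3q2 true false)) t 1 9 1 = true :=
  ⟨(T.a (T.a (T.l 204) (T.a (T.a (T.l 204) (T.b (T.l 204) (T.l 204))) (T.a (T.b (T.l 204) (T.l 204)) (T.b (T.l 204) (T.l 204))))) (T.a (T.a (T.b (T.b (T.l 204) (T.l 204)) (T.l 204)) (T.b (T.b (T.l 204) (T.l 204)) (T.l 204))) (T.a (T.b (T.b (T.l 204) (T.l 204)) (T.l 204)) (T.b (T.b (T.l 204) (T.l 204)) (T.l 204))))), by decide +kernel⟩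

def A022E_002_1_5_1 :
    ∃ t, chk3 (onCell 0 33554432 0 1073741824 1020054732 13421774 (corT true 1 c0B cA022E gB0q0 gB0q2 gB2q2 gB3q2 true false)) t 1 5 1 = true :=
  ⟨(T.b (T.a (T.a (T.l 204) (T.a (T.l 204) (T.b (T.l 204) (T.l 204)))) (T.a (T.a (T.b (T.l 204) (T.l 204)) (T.b (T.l 204) (T.l 204))) (T.a (T.b (T.l 204) (T.l 204)) (T.b (T.l 204) (T.l 204))))) (T.a (T.a (T.l 204) (T.a (T.l 204) (T.b (T.l 204) (T.l 204)))) (T.a (T.a (T.l 204) (T.l 204)) (T.a (T.l 204) (T.l 204))))), by decide +kernel⟩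

def A022E_002_1_3_1 :
    ∃ t, chk3 (onCell 0 33554432 0 1073741824 1020054732 13421774 (corT true 1 c0B cA022E gB0q0 gB0q2 gB2q2 gB3q2 true false)) t 1 3 1 = true :=
  ⟨(T.a (T.l 0) (T.b (T.b (T.a (T.b (T.l 0) (T.l 0)) (T.b (T.l 0) (T.l 0))) (T.a (T.l 0) (T.b (T.l 0) (T.l 0)))) (T.a (T.l 0) (T.l 0)))), by decide +kernel⟩

theorem A022E_002_1_8_1 :
    ∃ t, chk3 (onCell 0 33554432 0 1073741824 1020054732 13421774 (corT true 1 c0B cA022E gB0q0 gB0q2 gB2q2 gB3q2 true false)) t 1 8 1 = true :=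
  ex3_a A022E_002_2_8_1 A022E_002_3_8_1
theorem A022E_002_1_4_1 :
    ∃ t, chk3 (onCell 0 33554432 0 1073741824 1020054732 13421774 (corT true 1 c0B cA022E gB0q0 gB0q2 gB2q2 gB3q2 true false)) t 1 4 1 = true :=
  ex3_b A022E_002_1_8_1 A022E_002_1_9_1
theorem A022E_002_1_2_1 :
    ∃ t, chk3 (onCell 0 33554432 0 1073741824 1020054732 13421774 (corT true 1 c0B cA022E gB0q0 gB0q2 gB2q2 gB3q2 true false)) t 1 2 1 = true :=
  ex3_b A022E_002_1_4_1 A022E_002_1_5_1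
theorem A022E_002 :
    ∃ t, chk3 (onCell 0 33554432 0 1073741824 1020054732 13421774 (corT true 1 c0B cA022E gB0q0 gB0q2 gB2q2 gB3q2 true false)) t 1 1 1 = true :=
  ex3_b A022E_002_1_2_1 A022E_002_1_3_1

def A022E_010 :
    ∃ t, chk3 (onCell 0 33554432 0 1073741824 1020054732 13421774 (corT true 1 c0B cA022E gB0q0 gB1q2 gB0q2 gB1q2 true true)) t 1 1 1 = true :=
  ⟨(T.l 2), by decide +kernel⟩

def A022E_011 :
    ∃ t, chk3 (onCell 0 33554432 0 1073741824 1020054732 13421774 (corT true 1 c0B cA022E gB0q0 gB1q2 gB1q2 gB2q2 true true)) t 1 1 1 = true :=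
  ⟨(T.l 2), by decide +kernel⟩

def A022E_012 :
    ∃ t, chk3 (onCell 0 33554432 0 1073741824 1020054732 13421774 (corT true 1 c0B cA022E gB0q0 gB1q2 gB2q2 gB3q2 true false)) t 1 1 1 = true :=
  ⟨(T.a (T.b (T.a (T.l 204) (T.l 204)) (T.l 0)) (T.b (T.a (T.l 204) (T.b (T.a (T.l 204) (T.b (T.b (T.l 204) (T.l 204)) (T.l 204))) (T.l 204))) (T.b (T.a (T.l 0) (T.l 0)) (T.a (T.l 0) (T.l 0))))), by decide +kernel⟩

def A022E_020 :
    ∃ t, chk3 (onCell 0 38347922 0 1073741824 1020054732 13421774 (corT true 1 c0B cA022E gB0q0 gB2q2 gB0q2 gB1q2 true true)) t 1 1 1 = true :=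
  ⟨(T.l 2), by decide +kernel⟩

def A022E_021 :
    ∃ t, chk3 (onCell 0 38347922 0 1073741824 1020054732 13421774 (corT true 1 c0B cA022E gB0q0 gB2q2 gB1q2 gB2q2 true true)) t 1 1 1 = true :=
  ⟨(T.l 2), by decide +kernel⟩

def A022E_022 :
    ∃ t, chk3 (onCell 0 38347922 0 1073741824 1020054732 13421774 (corT true 1 c0B cA022E gB0q0 gB2q2 gB2q2 gB3q2 true false)) t 1 1 1 = true :=
  ⟨(T.a (T.l 0) (T.b (T.a (T.l 0) (T.b (T.l 0) (T.l 0))) (T.b (T.a (T.l 0) (T.l 0)) (T.a (T.l 0) (T.l 0))))), by decide +kernel⟩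

def A022E_110 :
    ∃ t, chk3 (onCell 0 33554432 0 1073741824 1020054732 13421774 (corT true 1 c0B cA022E gB1q0 gB1q2 gB0q2 gB1q2 true true)) t 1 1 1 = true :=
  ⟨(T.l 2), by decide +kernel⟩

def A022E_111 :
    ∃ t, chk3 (onCell 0 33554432 0 1073741824 1020054732 13421774 (corT true 1 c0B cA022E gB1q0 gB1q2 gB1q2 gB2q2 true true)) t 1 1 1 = true :=
  ⟨(T.l 2), by decide +kernel⟩

def A022E_112 :
    ∃ t, chk3 (onCell 0 33554432 0 1073741824 1020054732 13421774 (corT true 1 c0B cA022E gB1q0 gB1q2 gB2q2 gB3q2 true false)) t 1 1 1 = true :=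
  ⟨(T.b (T.b (T.a (T.a (T.l 204) (T.l 204)) (T.b (T.a (T.l 204) (T.a (T.l 204) (T.l 220))) (T.a (T.l 204) (T.b (T.l 204) (T.l 204))))) (T.a (T.a (T.l 204) (T.b (T.l 204) (T.l 0))) (T.a (T.b (T.l 204) (T.l 0)) (T.b (T.l 204) (T.l 0))))) (T.b (T.a (T.a (T.l 0) (T.b (T.l 0) (T.l 0))) (T.a (T.l 0) (T.l 0))) (T.a (T.a (T.a (T.l 0) (T.b (T.l 0) (T.l 0))) (T.b (T.l 0) (T.l 0))) (T.a (T.l 0) (T.l 0))))), by decide +kernel⟩

def A022E_120 :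
    ∃ t, chk3 (onCell 0 38347922 0 1073741824 1020054732 13421774 (corT true 1 c0B cA022E gB1q0 gB2q2 gB0q2 gB1q2 true true)) t 1 1 1 = true :=
  ⟨(T.l 2), by decide +kernel⟩

def A022E_121 :
    ∃ t, chk3 (onCell 0 38347922 0 1073741824 1020054732 13421774 (corT true 1 c0B cA022E gB1q0 gB2q2 gB1q2 gB2q2 true true)) t 1 1 1 = true :=
  ⟨(T.l 2), by decide +kernel⟩

def A022E_122 :
    ∃ t, chk3 (onCell 0 38347922 0 1073741824 1020054732 13421774 (corT true 1 c0B cA022E gB1q0 gB2q2 gB2q2 gB3q2 true false)) t 1 1 1 = true :=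
  ⟨(T.b (T.b (T.a (T.l 0) (T.b (T.a (T.l 204) (T.l 0)) (T.a (T.l 204) (T.l 0)))) (T.a (T.a (T.l 0) (T.b (T.l 0) (T.l 0))) (T.a (T.b (T.l 0) (T.l 0)) (T.l 0)))) (T.b (T.a (T.a (T.l 0) (T.b (T.l 0) (T.l 0))) (T.b (T.l 0) (T.l 0))) (T.a (T.a (T.a (T.l 0) (T.b (T.l 0) (T.l 0))) (T.b (T.l 0) (T.l 0))) (T.a (T.l 0) (T.l 0))))), by decide +kernel⟩

def A022E_220 :
    ∃ t, chk3 (onCell 0 38347922 0 1073741824 1020054732 13421774 (corT true 1 c0B cA022E gB2q0 gB2q2 gB0q2 gB1q2 true true)) t 1 1 1 = true :=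
  ⟨(T.l 2), by decide +kernel⟩

def A022E_221 :
    ∃ t, chk3 (onCell 0 38347922 0 1073741824 1020054732 13421774 (corT true 1 c0B cA022E gB2q0 gB2q2 gB1q2 gB2q2 true true)) t 1 1 1 = true :=
  ⟨(T.l 2), by decide +kernel⟩

def A022E_222 :
    ∃ t, chk3 (onCell 0 38347922 0 1073741824 1020054732 13421774 (corT true 1 c0B cA022E gB2q0 gB2q2 gB2q2 gB3q2 true false)) t 1 1 1 = true :=
  ⟨(T.b (T.b (T.a (T.l 0) (T.b (T.a (T.l 204) (T.l 0)) (T.b (T.l 0) (T.l 0)))) (T.a (T.a (T.l 0) (T.b (T.l 204) (T.l 0))) (T.b (T.b (T.l 0) (T.l 0)) (T.b (T.l 0) (T.l 0))))) (T.b (T.a (T.a (T.l 0) (T.b (T.l 0) (T.l 0))) (T.a (T.l 0) (T.l 0))) (T.a (T.a (T.a (T.l 0) (T.b (T.l 0) (T.l 0))) (T.b (T.l 0) (T.l 0))) (T.b (T.l 0) (T.l 0))))), by decide +kernel⟩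

def A022L_004_1_4_1 :
    ∃ t, chk3 (onCell 0 26843545 0 1073741824 1020054732 13421774 (corX 1 c0B cA022L tA022L gB0q0 gB0q2 gB4q2 gB5q2 gB5q2 false true)) t 1 4 1 = true :=
  ⟨(T.b (T.a (T.a (T.l 207) (T.a (T.l 207) (T.a (T.b (T.b (T.l 204) (T.l 204)) (T.b (T.l 204) (T.l 204))) (T.b (T.l 204) (T.b (T.l 204) (T.l 204)))))) (T.a (T.a (T.a (T.b (T.l 204) (T.l 204)) (T.b (T.l 204) (T.l 204))) (T.b (T.b (T.l 204) (T.l 204)) (T.b (T.l 204) (T.l 204)))) (T.a (T.b (T.b (T.l 204) (T.l 204)) (T.b (T.l 204) (T.l 204))) (T.b (T.l 204) (T.l 204))))) (T.a (T.a (T.l 207) (T.a (T.l 207) (T.a (T.l 207) (T.b (T.b (T.l 204) (T.l 204)) (T.b (T.l 204) (T.l 204)))))) (T.a (T.a (T.a (T.b (T.l 204) (T.b (T.l 204) (T.l 204))) (T.b (T.l 204) (T.l 204))) (T.b (T.b (T.l 204) (T.l 204)) (T.b (T.l 204) (T.l 204)))) (T.a (T.b (T.b (T.l 204) (T.l 204)) (T.b (T.l 204) (T.l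 204))) (T.b (T.b (T.l 204) (T.l 204)) (T.b (T.l 204) (T.l 204))))))), by decide +kernel⟩

def A022L_004_1_5_1 :
    ∃ t, chk3 (onCell 0 26843545 0 1073741824 1020054732 13421774 (corX 1 c0B cA022L tA022L gB0q0 gB0q2 gB4q2 gB5q2 gB5q2 false true)) t 1 5 1 = true :=
  ⟨(T.b (T.b (T.a (T.b (T.l 207) (T.l 207)) (T.a (T.a (T.a (T.b (T.l 204) (T.l 204)) (T.b (T.l 204) (T.l 204))) (T.a (T.l 204) (T.l 204))) (T.a (T.b (T.l 204) (T.l 204)) (T.b (T.l 204) (T.l 204))))) (T.a (T.b (T.l 207) (T.l 207)) (T.a (T.a (T.a (T.b (T.l 204) (T.l 207)) (T.b (T.l 204) (T.l 204))) (T.a (T.b (T.l 204) (T.l 204)) (T.b (T.l 204) (T.l 204)))) (T.a (T.a (T.l 204) (T.l 204)) (T.b (T.l 204) (T.l 204)))))) (T.a (T.a (T.l 207) (T.l 207)) (T.a (T.a (T.b (T.a (T.l 207) (T.b (T.l 204) (T.l 207))) (T.l 207)) (T.b (T.a (T.b (T.l 204) (T.l 204)) (T.b (T.l 204) (T.l 204))) (T.a (T.b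 (T.l 204) (T.l 207)) (T.b (T.l 204) (T.b (T.l 204) (T.l 204)))))) (T.b (T.a (T.a (T.b (T.l 204) (T.l 204)) (T.b (T.l 204) (T.l 204))) (T.b (T.l 204) (T.b (T.l 204) (T.l 204)))) (T.a (T.b (T.b (T.l 204) (T.l 204)) (T.a (T.l 204) (T.l 204))) (T.b (T.b (T.l 204) (T.l 204)) (T.b (T.l 204) (T.l 204)))))))), by decide +kernel⟩

def A022L_004_1_3_1 :
    ∃ t, chk3 (onCell 0 26843545 0 1073741824 1020054732 13421774 (corX 1 c0B cA022L tA022L gB0q0 gB0q2 gB4q2 gB5q2 gB5q2 false true)) t 1 3 1 = true :=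
  ⟨(T.b (T.a (T.a (T.b (T.l 207) (T.l 207)) (T.b (T.l 207) (T.l 207))) (T.b (T.a (T.l 207) (T.b (T.a (T.b (T.a (T.b (T.l 204) (T.l 204)) (T.l 220)) (T.a (T.l 207) (T.b (T.l 204) (T.l 204)))) (T.b (T.a (T.l 204) (T.l 204)) (T.a (T.b (T.l 204) (T.l 204)) (T.b (T.l 204) (T.l 204))))) (T.a (T.l 207) (T.b (T.a (T.b (T.l 204) (T.l 204)) (T.b (T.l 204) (T.l 204))) (T.a (T.l 207) (T.b (T.b (T.l 204) (T.l 204)) (T.b (T.l 204) (T.l 207)))))))) (T.b (T.l 207) (T.l 2)))) (T.l 2)), by decide +kernel⟩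

theorem A022L_004_1_2_1 :
    ∃ t, chk3 (onCell 0 26843545 0 1073741824 1020054732 13421774 (corX 1 c0B cA022L tA022L gB0q0 gB0q2 gB4q2 gB5q2 gB5q2 false true)) t 1 2 1 = true :=
  ex3_b A022L_004_1_4_1 A022L_004_1_5_1
theorem A022L_004 :
    ∃ t, chk3 (onCell 0 26843545 0 1073741824 1020054732 13421774 (corX 1 c0B cA022L tA022L gB0q0 gB0q2 gB4q2 gB5q2 gB5q2 false true)) t 1 1 1 = true :=
  ex3_b A022L_004_1_2_1 A022L_004_1_3_1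

def A022L_014 :
    ∃ t, chk3 (onCell 0 38347922 0 1073741824 1020054732 13421774 (corT true 1 c0B cA022L gB0q0 gB1q2 gB4q2 gB5q2 false true)) t 1 1 1 = true :=
  ⟨(T.b (T.a (T.l 0) (T.a (T.l 0) (T.b (T.b (T.l 0) (T.l 0)) (T.l 0)))) (T.b (T.b (T.a (T.b (T.l 0) (T.l 816)) (T.a (T.l 0) (T.b (T.l 0) (T.b (T.l 0) (T.l 2))))) (T.l 2)) (T.l 2))), by decide +kernel⟩

def A022L_024 :
    ∃ t, chk3 (onCell 0 38347922 0 1073741824 1020054732 13421774 (corT true 1 c0B cA022L gB0q0 gB2q2 gB4q2 gB5q2 false true)) t 1 1 1 = true :=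
  ⟨(T.b (T.b (T.a (T.l 204) (T.a (T.l 204) (T.l 0))) (T.l 2)) (T.l 2)), by decide +kernel⟩

def A022L_114 :
    ∃ t, chk3 (onCell 0 38347922 0 1073741824 1020054732 13421774 (corT true 1 c0B cA022L gB1q0 gB1q2 gB4q2 gB5q2 false true)) t 1 1 1 = true :=
  ⟨(T.b (T.b (T.a (T.l 0) (T.a (T.l 204) (T.b (T.l 0) (T.b (T.l 0) (T.l 0))))) (T.b (T.a (T.l 0) (T.b (T.l 0) (T.l 0))) (T.b (T.a (T.a (T.l 816) (T.l 0)) (T.l 0)) (T.a (T.a (T.l 816) (T.l 0)) (T.b (T.l 0) (T.l 0)))))) (T.l 2)), by decide +kernel⟩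

def A022L_124 :
    ∃ t, chk3 (onCell 0 38347922 0 1073741824 1020054732 13421774 (corT true 1 c0B cA022L gB1q0 gB2q2 gB4q2 gB5q2 false true)) t 1 1 1 = true :=
  ⟨(T.b (T.b (T.a (T.l 0) (T.b (T.b (T.l 0) (T.l 0)) (T.b (T.l 0) (T.l 2)))) (T.l 2)) (T.l 2)), by decide +kernel⟩

def A022L_224 :
    ∃ t, chk3 (onCell 0 38347922 0 1073741824 1020054732 13421774 (corT true 1 c0B cA022L gB2q0 gB2q2 gB4q2 gB5q2 false true)) t 1 1 1 = true :=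
  ⟨(T.b (T.b (T.b (T.a (T.l 204) (T.b (T.l 0) (T.l 0))) (T.l 2)) (T.l 2)) (T.l 2)), by decide +kernel⟩

def A022R_050 :
    ∃ t, chk3 (onCell 0 38347922 0 1073741824 1020054732 13421774 (corT true 1 c0B cA022R gB0q0 gB5q2 gB0q2 gB1q2 true true)) t 1 1 1 = true :=
  ⟨(T.l 2), by decide +kernel⟩

def A022R_051 :
    ∃ t, chk3 (onCell 0 38347922 0 1073741824 1020054732 13421774 (corT true 1 c0B cA022R gB0q0 gB5q2 gB1q2 gB2q2 true true)) t 1 1 1 = true :=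
  ⟨(T.l 2), by decide +kernel⟩

def A022R_052 :
    ∃ t, chk3 (onCell 0 38347922 0 1073741824 1020054732 13421774 (corT true 1 c0B cA022R gB0q0 gB5q2 gB2q2 gB3q2 true false)) t 1 1 1 = true :=
  ⟨(T.a (T.l 0) (T.b (T.a (T.l 0) (T.b (T.l 0) (T.l 0))) (T.b (T.b (T.l 0) (T.l 0)) (T.b (T.l 0) (T.l 0))))), by decide +kernel⟩

def A022R_150 :
    ∃ t, chk3 (onCell 0 38347922 0 1073741824 1020054732 13421774 (corT true 1 c0B cA022R gB1q0 gB5q2 gB0q2 gB1q2 true true)) t 1 1 1 = true :=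
  ⟨(T.l 2), by decide +kernel⟩

def A022R_151 :
    ∃ t, chk3 (onCell 0 38347922 0 1073741824 1020054732 13421774 (corT true 1 c0B cA022R gB1q0 gB5q2 gB1q2 gB2q2 true true)) t 1 1 1 = true :=
  ⟨(T.l 2), by decide +kernel⟩

def A022R_152 :
    ∃ t, chk3 (onCell 0 38347922 0 1073741824 1020054732 13421774 (corT true 1 c0B cA022R gB1q0 gB5q2 gB2q2 gB3q2 true false)) t 1 1 1 = true :=
  ⟨(T.b (T.b (T.a (T.l 0) (T.b (T.l 0) (T.b (T.l 0) (T.l 0)))) (T.b (T.a (T.l 0) (T.l 0)) (T.a (T.a (T.l 0) (T.l 0)) (T.l 0)))) (T.b (T.a (T.a (T.l 816) (T.l 0)) (T.b (T.l 0) (T.l 0))) (T.a (T.a (T.a (T.l 816) (T.l 0)) (T.l 0)) (T.b (T.l 0) (T.l 0))))), by decide +kernel⟩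

def A022R_250 :
    ∃ t, chk3 (onCell 0 38347922 0 1073741824 1020054732 13421774 (corT true 1 c0B cA022R gB2q0 gB5q2 gB0q2 gB1q2 true true)) t 1 1 1 = true :=
  ⟨(T.l 2), by decide +kernel⟩

def A022R_251 :
    ∃ t, chk3 (onCell 0 38347922 0 1073741824 1020054732 13421774 (corT true 1 c0B cA022R gB2q0 gB5q2 gB1q2 gB2q2 true true)) t 1 1 1 = true :=
  ⟨(T.b (T.b (T.a (T.l 0) (T.l 2)) (T.b (T.a (T.l 0) (T.a (T.l 0) (T.l 0))) (T.a (T.a (T.l 0) (T.l 0)) (T.b (T.l 4) (T.l 0))))) (T.b (T.b (T.a (T.a (T.l 816) (T.l 0)) (T.b (T.l 0) (T.l 0))) (T.a (T.a (T.l 816) (T.l 0)) (T.b (T.l 0) (T.l 0)))) (T.a (T.a (T.a (T.l 816) (T.l 0)) (T.l 0)) (T.a (T.l 816) (T.l 816))))), by decide +kernel⟩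

def A022R_252 :
    ∃ t, chk3 (onCell 0 38347922 0 1073741824 1020054732 13421774 (corT true 1 c0B cA022R gB2q0 gB5q2 gB2q2 gB3q2 true false)) t 1 1 1 = true :=
  ⟨(T.b (T.b (T.a (T.l 0) (T.b (T.l 0) (T.b (T.l 0) (T.l 0)))) (T.b (T.a (T.l 0) (T.l 0)) (T.a (T.l 1) (T.l 0)))) (T.b (T.l 1) (T.l 1))), by decide +kernel⟩

def A101E_000 :
    ∃ t, chk3 (onCell 0 38347922 0 1073741824 1020054732 13421774 (corT true 1 c0B cA101E gB0q1 gB0q0 gB0q1 gB1q1 true false)) t 1 1 1 = true :=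
  ⟨(T.l 1), by decide +kernel⟩

def A101E_010 :
    ∃ t, chk3 (onCell 0 38347922 0 1073741824 1020054732 13421774 (corT true 1 c0B cA101E gB0q1 gB1q0 gB0q1 gB1q1 true false)) t 1 1 1 = true :=
  ⟨(T.l 1), by decide +kernel⟩

def A101E_020 :
    ∃ t, chk3 (onCell 0 38347922 0 1073741824 1020054732 13421774 (corT true 1 c0B cA101E gB0q1 gB2q0 gB0q1 gB1q1 true false)) t 1 1 1 = true :=
  ⟨(T.l 1), by decide +kernel⟩

def A101R_002 :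
    ∃ t, chk3 (onCell 0 38347922 0 1073741824 1020054732 13421774 (corT true 1 c0B cA101R gB0q1 gB0q0 gB2q1 gB3q1 false true)) t 1 1 1 = true :=
  ⟨(T.l 2), by decide +kernel⟩

def A101R_003 :
    ∃ t, chk3 (onCell 0 38347922 0 1073741824 1020054732 13421774 (corT true 1 c0B cA101R gB0q1 gB0q0 gB3q1 gB4q1 true true)) t 1 1 1 = true :=
  ⟨(T.l 2), by decide +kernel⟩

def A101R_004 :
    ∃ t, chk3 (onCell 0 38347922 0 1073741824 1020054732 13421774 (corT true 1 c0B cA101R gB0q1 gB0q0 gB4q1 gB5q1 true true)) t 1 1 1 = true :=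
  ⟨(T.l 2), by decide +kernel⟩

def A101R_012 :
    ∃ t, chk3 (onCell 0 38347922 0 1073741824 1020054732 13421774 (corT true 1 c0B cA101R gB0q1 gB1q0 gB2q1 gB3q1 false true)) t 1 1 1 = true :=
  ⟨(T.l 2), by decide +kernel⟩

def A101R_013 :
    ∃ t, chk3 (onCell 0 38347922 0 1073741824 1020054732 13421774 (corT true 1 c0B cA101R gB0q1 gB1q0 gB3q1 gB4q1 true true)) t 1 1 1 = true :=
  ⟨(T.l 2), by decide +kernel⟩

def A101R_014 :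
    ∃ t, chk3 (onCell 0 38347922 0 1073741824 1020054732 13421774 (corT true 1 c0B cA101R gB0q1 gB1q0 gB4q1 gB5q1 true true)) t 1 1 1 = true :=
  ⟨(T.l 2), by decide +kernel⟩

def A101R_022 :
    ∃ t, chk3 (onCell 0 38347922 0 1073741824 1020054732 13421774 (corT true 1 c0B cA101R gB0q1 gB2q0 gB2q1 gB3q1 false true)) t 1 1 1 = true :=
  ⟨(T.l 2), by decide +kernel⟩

def A101R_023 :
    ∃ t, chk3 (onCell 0 38347922 0 1073741824 1020054732 13421774 (corT true 1 c0B cA101R gB0q1 gB2q0 gB3q1 gB4q1 true true)) t 1 1 1 = true :=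
  ⟨(T.l 2), by decide +kernel⟩

def A101R_024 :
    ∃ t, chk3 (onCell 0 38347922 0 1073741824 1020054732 13421774 (corT true 1 c0B cA101R gB0q1 gB2q0 gB4q1 gB5q1 true true)) t 1 1 1 = true :=
  ⟨(T.l 2), by decide +kernel⟩

def A102E_000 :
    ∃ t, chk3 (onCell 0 16777216 0 1073741824 1020054732 13421774 (corX 1 c0B cA102E tA102E gB0q1 gB0q0 gB0q2 gB1q2 gB0q2 true true)) t 1 1 1 = true :=
  ⟨(T.b (T.b (T.l 2) (T.b (T.l 2) (T.b (T.l 2) (T.b (T.a (T.a (T.a (T.a (T.l 819) (T.l 819)) (T.c (T.l 819) (T.l 819))) (T.a (T.b (T.l 819) (T.l 819)) (T.b (T.l 819) (T.l 819)))) (T.a (T.a (T.l 819) (T.l 819)) (T.c (T.l 819) (T.l 819)))) (T.a (T.b (T.a (T.a (T.c (T.l 819) (T.l 819)) (T.b (T.l 819) (T.l 819))) (T.a (T.l 819) (T.l 819))) (T.a (T.a (T.c (T.l 819) (T.l 819)) (T.b (T.l 819) (T.l 819))) (T.a (T.l 819) (T.l 819)))) (T.a (T.a (T.l 819) (T.l 819))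 (T.a (T.l 819) (T.l 819)))))))) (T.b (T.b (T.b (T.b (T.b (T.b (T.a (T.b (T.a (T.a (T.c (T.l 819) (T.l 819)) (T.l 819)) (T.c (T.l 819) (T.l 819))) (T.l 1)) (T.a (T.c (T.l 819) (T.l 819)) (T.l 823))) (T.l 1)) (T.l 1)) (T.l 1)) (T.l 1)) (T.l 1)) (T.l 1))), by decide +kernel⟩

def A102E_001 :
    ∃ t, chk3 (onCell 0 16777216 0 1073741824 1020054732 13421774 (corT true 1 c0B cA102E gB0q1 gB0q0 gB1q2 gB2q2 true true)) t 1 1 1 = true :=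
  ⟨(T.b (T.b (T.l 2) (T.b (T.b (T.l 204) (T.l 0)) (T.b (T.b (T.l 0) (T.b (T.l 0) (T.c (T.a (T.l 816) (T.l 0)) (T.l 0)))) (T.b (T.b (T.a (T.b (T.a (T.b (T.l 816) (T.a (T.b (T.l 816) (T.a (T.b (T.l 816) (T.b (T.l 816) (T.l 1))) (T.l 820))) (T.l 820))) (T.c (T.l 816) (T.l 816))) (T.b (T.b (T.a (T.a (T.l 1) (T.b (T.c (T.l 816) (T.c (T.l 816) (T.a (T.c (T.l 816) (T.l 816)) (T.l 816)))) (T.l 1))) (T.c (T.l 816) (T.a (T.c (T.l 816) (T.a (T.l 820) (T.l 816))) (T.l 816)))) (T.a (T.l 1) (T.a (T.l 1) (T.a (T.l 1) (T.b (T.l 816) (T.l 1)))))) (T.l 1))) (T.b (T.l 816) (T.b (T.a (T.c (T.l 816) (T.c (T.l 816) (T.a (T.a (T.l 816) (T.l 816)) (T.l 816)))) (T.l 816)) (T.a (T.l 1) (T.b (T.b (T.c (T.l 816) (T.l 816)) (T.l 1)) (T.l 1)))))) (T.l 1)) (T.l 1))))) (T.l 1)), by decide +kernel⟩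

def A102E_002 :
    ∃ t, chk3 (onCell 0 16777216 0 1073741824 1020054732 13421774 (corT true 1 c0B cA102E gB0q1 gB0q0 gB2q2 gB3q2 true false)) t 1 1 1 = true :=
  ⟨(T.b (T.b (T.b (T.l 204) (T.l 204)) (T.b (T.b (T.b (T.l 204) (T.l 204)) (T.l 1)) (T.l 1))) (T.l 1)), by decide +kernel⟩

def A102E_010_1_2_1 :
    ∃ t, chk3 (onCell 0 38347922 0 1073741824 1020054732 13421774 (corT true 1 c0B cA102E gB0q1 gB1q0 gB0q2 gB1q2 true true)) t 1 2 1 = true :=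
  ⟨(T.l 2), by decide +kernel⟩

def A102E_010_1_24_1 :
    ∃ t, chk3 (onCell 0 38347922 0 1073741824 1020054732 13421774 (corT true 1 c0B cA102E gB0q1 gB1q0 gB0q2 gB1q2 true true)) t 1 24 1 = true :=
  ⟨(T.b (T.l 2) (T.b (T.l 2) (T.b (T.l 2) (T.a (T.b (T.a (T.a (T.l 0) (T.a (T.l 0) (T.l 0))) (T.a (T.l 0) (T.l 0))) (T.a (T.a (T.l 0) (T.a (T.l 0) (T.l 0))) (T.a (T.l 0) (T.l 0)))) (T.b (T.l 2) (T.a (T.a (T.l 0) (T.l 0)) (T.a (T.l 0) (T.l 816)))))))), by decide +kernel⟩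

def A102E_010_1_50_1 :
    ∃ t, chk3 (onCell 0 38347922 0 1073741824 1020054732 13421774 (corT true 1 c0B cA102E gB0q1 gB1q0 gB0q2 gB1q2 true true)) t 1 50 1 = true :=
  ⟨(T.b (T.b (T.a (T.b (T.a (T.a (T.l 0) (T.a (T.l 0) (T.l 0))) (T.a (T.l 0) (T.l 0))) (T.a (T.a (T.l 0) (T.a (T.l 0) (T.l 0))) (T.a (T.l 0) (T.l 0)))) (T.b (T.a (T.a (T.l 0) (T.l 0)) (T.a (T.l 0) (T.l 816))) (T.a (T.a (T.l 0) (T.l 0)) (T.a (T.l 0) (T.l 0))))) (T.a (T.b (T.a (T.a (T.l 0) (T.a (T.l 0) (T.l 0))) (T.a (T.l 0) (T.l 0))) (T.a (T.a (T.l 204) (T.a (T.l 0) (T.l 0))) (T.a (T.l 0) (T.l 0)))) (T.a (T.a (T.l 0) (T.l 0)) (T.a (T.l 0) (T.l 0))))) (T.b (T.a (T.b (T.a (T.a (T.l 204) (T.a (T.l 204) (T.l 0))) (T.a (T.c (T.l 0) (T.l 0)) (T.l 40))) (T.a (T.a (T.l 204) (T.a (T.l 204) (T.l 0))) (T.a (T.c (T.l 32) (T.l 0)) (T.c (T.l 0) (T.l 0))))) (T.a (T.a (T.l 0) (T.l 136)) (T.a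 (T.l 0) (T.l 0)))) (T.a (T.b (T.a (T.a (T.l 204) (T.a (T.l 204) (T.l 0))) (T.a (T.a (T.l 0) (T.l 0)) (T.a (T.l 0) (T.l 0)))) (T.a (T.a (T.l 204) (T.a (T.l 204) (T.c (T.l 204) (T.l 0)))) (T.a (T.a (T.l 0) (T.l 0)) (T.a (T.l 0) (T.l 0))))) (T.a (T.a (T.a (T.l 0) (T.l 0)) (T.a (T.l 0) (T.l 0))) (T.a (T.c (T.l 0) (T.l 0)) (T.l 128)))))), by decide +kernel⟩

def A102E_010_1_204_1 :
    ∃ t, chk3 (onCell 0 38347922 0 1073741824 1020054732 13421774 (corT true 1 c0B cA102E gB0q1 gB1q0 gB0q2 gB1q2 true true)) t 1 204 1 = true :=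
  ⟨(T.a (T.b (T.a (T.a (T.c (T.l 204) (T.l 204)) (T.a (T.l 204) (T.a (T.l 716) (T.l 204)))) (T.a (T.a (T.c (T.l 204) (T.l 0)) (T.l 0)) (T.a (T.l 0) (T.l 0)))) (T.a (T.a (T.c (T.b (T.l 204) (T.c (T.b (T.l 204) (T.a (T.l 1) (T.b (T.l 204) (T.l 1)))) (T.c (T.l 204) (T.l 204)))) (T.a (T.a (T.c (T.l 204) (T.c (T.l 204) (T.l 204))) (T.l 204)) (T.l 204))) (T.a (T.c (T.c (T.l 716) (T.l 204)) (T.l 204)) (T.a (T.c (T.a (T.c (T.l 716) (T.l 204)) (T.l 204)) (T.c (T.l 716) (T.l 204))) (T.c (T.l 204) (T.l 204))))) (T.b (T.a (T.a (T.c (T.l 204) (T.l 204)) (T.l 32)) (T.a (T.l 0) (T.c (T.l 204) (T.l 0)))) (T.a (T.a (T.c (T.c (T.l 716) (T.l 204)) (T.l 716)) (T.c (T.l 204) (T.l 0))) (T.a (T.l 0) (T.c (T.l 204) (T.l 0))))))) (T.b (T.a (T.a (T.a (T.l 0) (T.l 0)) (T.a (T.l 0) (T.l 0))) (T.a (T.a (T.l 0) (T.l 0)) (T.c (T.l 0) (T.l 816)))) (T.a (T.a (T.a (T.c (T.l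 0) (T.l 0)) (T.c (T.l 0) (T.l 0))) (T.a (T.c (T.l 0) (T.l 128)) (T.c (T.l 0) (T.l 816)))) (T.a (T.a (T.c (T.l 0) (T.l 816)) (T.c (T.l 0) (T.l 816))) (T.a (T.l 944) (T.l 944)))))), by decide +kernel⟩

def A102E_010_2_205_1 :
    ∃ t, chk3 (onCell 0 38347922 0 1073741824 1020054732 13421774 (corT true 1 c0B cA102E gB0q1 gB1q0 gB0q2 gB1q2 true true)) t 2 205 1 = true :=
  ⟨(T.b (T.a (T.a (T.l 1) (T.a (T.l 1) (T.b (T.b (T.b (T.a (T.b (T.a (T.c (T.c (T.l 716) (T.l 204)) (T.l 716)) (T.c (T.l 716) (T.l 204))) (T.l 1)) (T.c (T.c (T.l 204) (T.l 204)) (T.l 204))) (T.l 1)) (T.l 1)) (T.l 1)))) (T.b (T.a (T.b (T.a (T.a (T.c (T.l 204) (T.l 204)) (T.c (T.l 204) (T.l 204))) (T.c (T.l 204) (T.l 204))) (T.a (T.l 1) (T.b (T.c (T.l 204) (T.l 204)) (T.l 1)))) (T.a (T.c (T.l 204) (T.l 0)) (T.a (T.c (T.l 204) (T.l 0)) (T.c (T.l 204) (T.l 0))))) (T.a (T.l 1) (T.a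 (T.l 1) (T.b (T.b (T.a (T.c (T.l 204) (T.l 0)) (T.c (T.l 204) (T.l 0))) (T.l 1)) (T.l 1)))))) (T.l 1)), by decide +kernel⟩

def A102E_010_3_410_1 :
    ∃ t, chk3 (onCell 0 38347922 0 1073741824 1020054732 13421774 (corT true 1 c0B cA102E gB0q1 gB1q0 gB0q2 gB1q2 true true)) t 3 410 1 = true :=
  ⟨(T.a (T.b (T.a (T.a (T.c (T.l 0) (T.a (T.l 0) (T.l 0))) (T.c (T.l 0) (T.c (T.l 0) (T.l 128)))) (T.a (T.c (T.l 0) (T.a (T.l 0) (T.l 816))) (T.c (T.l 0) (T.c (T.l 816) (T.l 944))))) (T.a (T.b (T.a (T.c (T.c (T.l 204) (T.l 716)) (T.a (T.l 128) (T.l 128))) (T.c (T.l 0) (T.a (T.l 128) (T.l 128)))) (T.a (T.a (T.l 1) (T.c (T.l 204) (T.c (T.l 0) (T.a (T.l 1) (T.l 0))))) (T.b (T.c (T.l 512) (T.a (T.c (T.l 0) (T.l 944)) (T.c (T.l 0) (T.l 944)))) (T.a (T.l 1) (T.c (T.l 0) (T.c (T.l 0) (T.c (T.l 816) (T.l 944)))))))) (T.b (T.a (T.c (T.l 0) (T.a (T.l 128) (T.l 944)))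 (T.c (T.l 0) (T.a (T.l 944) (T.l 944)))) (T.a (T.c (T.c (T.l 0) (T.l 0)) (T.a (T.c (T.l 0) (T.c (T.l 816) (T.l 944))) (T.c (T.l 816) (T.c (T.l 816) (T.l 944))))) (T.c (T.l 128) (T.a (T.c (T.l 816) (T.c (T.l 816) (T.l 944))) (T.c (T.l 816) (T.l 944)))))))) (T.a (T.a (T.c (T.l 128) (T.b (T.l 944) (T.a (T.c (T.l 816) (T.l 944)) (T.c (T.l 816) (T.l 944))))) (T.c (T.l 0) (T.a (T.c (T.l 816) (T.l 944)) (T.l 944)))) (T.a (T.c (T.l 0) (T.a (T.l 944) (T.l 944))) (T.c (T.l 816) (T.c (T.l 816) (T.l 944)))))), by decide +kernel⟩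

def A102E_010_6_411_1 :
    ∃ t, chk3 (onCell 0 38347922 0 1073741824 1020054732 13421774 (corT true 1 c0B cA102E gB0q1 gB1q0 gB0q2 gB1q2 true true)) t 6 411 1 = true :=
  ⟨(T.a (T.l 1) (T.b (T.b (T.a (T.a (T.l 1) (T.c (T.l 0) (T.c (T.l 944) (T.a (T.l 1) (T.c (T.l 944) (T.b (T.c (T.l 944) (T.l 944)) (T.l 1))))))) (T.b (T.c (T.c (T.l 0) (T.l 0)) (T.a (T.c (T.l 816) (T.c (T.l 944) (T.a (T.c (T.l 944) (T.l 944)) (T.l 944)))) (T.c (T.l 816) (T.c (T.l 944) (T.a (T.l 944) (T.l 944)))))) (T.a (T.l 1) (T.c (T.l 0) (T.c (T.l 944) (T.a (T.l 1) (T.c (T.l 944) (T.b (T.b (T.l 944) (T.l 1)) (T.l 1))))))))) (T.l 1)) (T.l 1))), by decide +kernel⟩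

def A102E_010_14_822_1 :
    ∃ t, chk3 (onCell 0 38347922 0 1073741824 1020054732 13421774 (corT true 1 c0B cA102E gB0q1 gB1q0 gB0q2 gB1q2 true true)) t 14 822 1 = true :=
  ⟨(T.b (T.a (T.c (T.c (T.l 0) (T.l 128)) (T.a (T.c (T.l 944) (T.c (T.a (T.l 944) (T.l 944)) (T.a (T.c (T.l 944) (T.b (T.l 944) (T.b (T.l 944) (T.l 1)))) (T.c (T.l 944) (T.b (T.l 944) (T.c (T.l 944) (T.a (T.a (T.b (T.l 944) (T.l 1)) (T.l 944)) (T.l 944)))))))) (T.c (T.l 944) (T.c (T.l 944) (T.a (T.a (T.c (T.l 944) (T.l 944)) (T.l 944)) (T.l 944)))))) (T.c (T.l 128) (T.a (T.c (T.l 944) (T.a (T.c (T.l 944) (T.l 944)) (T.l 944))) (T.c (T.l 816) (T.c (T.l 944) (T.l 944)))))) (T.a (T.a (T.l 1) (T.c (T.l 128) (T.a (T.l 1) (T.c (T.l 944) (T.b (T.c (T.l 944) (T.b (T.b (T.a (T.c (T.l 944) (T.l 944)) (T.l 944)) (T.l 1)) (T.l 1))) (T.l 1)))))) (T.b (T.c (T.c (T.l 0) (T.l 944)) (T.a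 (T.c (T.l 944) (T.c (T.a (T.l 944) (T.l 944)) (T.a (T.b (T.a (T.c (T.l 944) (T.l 944)) (T.l 944)) (T.l 1)) (T.c (T.l 944) (T.b (T.l 944) (T.b (T.a (T.l 944) (T.l 944)) (T.l 1))))))) (T.c (T.l 944) (T.c (T.l 944) (T.a (T.a (T.c (T.l 944) (T.l 944)) (T.l 944)) (T.l 944)))))) (T.a (T.l 1) (T.c (T.l 0) (T.c (T.l 944) (T.b (T.a (T.c (T.l 944) (T.a (T.l 1) (T.c (T.l 944) (T.a (T.l 1) (T.b (T.l 944) (T.l 1)))))) (T.c (T.l 944) (T.c (T.l 944) (T.a (T.b (T.l 944) (T.l 1)) (T.l 944))))) (T.l 1)))))))), by decide +kernel⟩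

def A102E_010_15_822_1 :
    ∃ t, chk3 (onCell 0 38347922 0 1073741824 1020054732 13421774 (corT true 1 c0B cA102E gB0q1 gB1q0 gB0q2 gB1q2 true true)) t 15 822 1 = true :=
  ⟨(T.b (T.a (T.c (T.l 944) (T.c (T.l 944) (T.a (T.l 944) (T.l 944)))) (T.c (T.l 816) (T.c (T.l 944) (T.l 944)))) (T.a (T.c (T.c (T.l 816) (T.l 944)) (T.c (T.a (T.l 944) (T.l 944)) (T.a (T.c (T.a (T.l 944) (T.l 944)) (T.a (T.c (T.l 944) (T.b (T.l 944) (T.b (T.l 944) (T.a (T.l 1) (T.b (T.l 944) (T.l 1)))))) (T.a (T.c (T.l 944) (T.a (T.l 944) (T.l 944))) (T.l 944)))) (T.a (T.c (T.l 944) (T.l 944)) (T.l 944))))) (T.c (T.l 944) (T.c (T.l 944) (T.a (T.c (T.l 944) (T.l 944)) (T.l 944)))))), by decide +kernel⟩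

def A102E_010_7_823_1 :
    ∃ t, chk3 (onCell 0 38347922 0 1073741824 1020054732 13421774 (corT true 1 c0B cA102E gB0q1 gB1q0 gB0q2 gB1q2 true true)) t 7 823 1 = true :=
  ⟨(T.a (T.l 1) (T.b (T.a (T.a (T.l 1) (T.c (T.l 944) (T.b (T.c (T.l 944) (T.b (T.c (T.l 944) (T.a (T.a (T.l 1) (T.a (T.l 1) (T.l 944))) (T.c (T.l 944) (T.l 944)))) (T.l 1))) (T.l 1)))) (T.c (T.c (T.l 816) (T.l 944)) (T.b (T.a (T.c (T.l 944) (T.c (T.l 944) (T.a (T.a (T.c (T.l 944) (T.l 944)) (T.l 944)) (T.l 944)))) (T.c (T.l 944) (T.c (T.l 944) (T.l 944)))) (T.a (T.l 1) (T.c (T.l 944) (T.b (T.a (T.c (T.l 944) (T.l 944)) (T.l 944)) (T.l 1))))))) (T.l 1))), by decide +kernel⟩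

def A102E_010_1_103_1 :
    ∃ t, chk3 (onCell 0 38347922 0 1073741824 1020054732 13421774 (corT true 1 c0B cA102E gB0q1 gB1q0 gB0q2 gB1q2 true true)) t 1 103 1 = true :=
  ⟨(T.l 1), by decide +kernel⟩

def A102E_010_1_13_1 :
    ∃ t, chk3 (onCell 0 38347922 0 1073741824 1020054732 13421774 (corT true 1 c0B cA102E gB0q1 gB1q0 gB0q2 gB1q2 true true)) t 1 13 1 = true :=
  ⟨(T.l 1), by decide +kernel⟩

def A102E_010_1_7_1 :
    ∃ t, chk3 (onCell 0 38347922 0 1073741824 1020054732 13421774 (corT true 1 c0B cA102E gB0q1 gB1q0 gB0q2 gB1q2 true true)) t 1 7 1 = true :=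
  ⟨(T.l 1), by decide +kernel⟩

theorem A102E_010_7_822_1 :
    ∃ t, chk3 (onCell 0 38347922 0 1073741824 1020054732 13421774 (corT true 1 c0B cA102E gB0q1 gB1q0 gB0q2 gB1q2 true true)) t 7 822 1 = true :=
  ex3_a A102E_010_14_822_1 A102E_010_15_822_1
theorem A102E_010_7_411_1 :
    ∃ t, chk3 (onCell 0 38347922 0 1073741824 1020054732 13421774 (corT true 1 c0B cA102E gB0q1 gB1q0 gB0q2 gB1q2 true true)) t 7 411 1 = true :=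
  ex3_b A102E_010_7_822_1 A102E_010_7_823_1
theorem A102E_010_3_411_1 :
    ∃ t, chk3 (onCell 0 38347922 0 1073741824 1020054732 13421774 (corT true 1 c0B cA102E gB0q1 gB1q0 gB0q2 gB1q2 true true)) t 3 411 1 = true :=
  ex3_a A102E_010_6_411_1 A102E_010_7_411_1
theorem A102E_010_3_205_1 :
    ∃ t, chk3 (onCell 0 38347922 0 1073741824 1020054732 13421774 (corT true 1 c0B cA102E gB0q1 gB1q0 gB0q2 gB1q2 true true)) t 3 205 1 = true :=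
  ex3_b A102E_010_3_410_1 A102E_010_3_411_1
theorem A102E_010_1_205_1 :
    ∃ t, chk3 (onCell 0 38347922 0 1073741824 1020054732 13421774 (corT true 1 c0B cA102E gB0q1 gB1q0 gB0q2 gB1q2 true true)) t 1 205 1 = true :=
  ex3_a A102E_010_2_205_1 A102E_010_3_205_1
theorem A102E_010_1_102_1 :
    ∃ t, chk3 (onCell 0 38347922 0 1073741824 1020054732 13421774 (corT true 1 c0B cA102E gB0q1 gB1q0 gB0q2 gB1q2 true true)) t 1 102 1 = true :=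
  ex3_b A102E_010_1_204_1 A102E_010_1_205_1
theorem A102E_010_1_51_1 :
    ∃ t, chk3 (onCell 0 38347922 0 1073741824 1020054732 13421774 (corT true 1 c0B cA102E gB0q1 gB1q0 gB0q2 gB1q2 true true)) t 1 51 1 = true :=
  ex3_b A102E_010_1_102_1 A102E_010_1_103_1
theorem A102E_010_1_25_1 :
    ∃ t, chk3 (onCell 0 38347922 0 1073741824 1020054732 13421774 (corT true 1 c0B cA102E gB0q1 gB1q0 gB0q2 gB1q2 true true)) t 1 25 1 = true :=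
  ex3_b A102E_010_1_50_1 A102E_010_1_51_1
theorem A102E_010_1_12_1 :
    ∃ t, chk3 (onCell 0 38347922 0 1073741824 1020054732 13421774 (corT true 1 c0B cA102E gB0q1 gB1q0 gB0q2 gB1q2 true true)) t 1 12 1 = true :=
  ex3_b A102E_010_1_24_1 A102E_010_1_25_1
theorem A102E_010_1_6_1 :
    ∃ t, chk3 (onCell 0 38347922 0 1073741824 1020054732 13421774 (corT true 1 c0B cA102E gB0q1 gB1q0 gB0q2 gB1q2 true true)) t 1 6 1 = true :=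
  ex3_b A102E_010_1_12_1 A102E_010_1_13_1
theorem A102E_010_1_3_1 :
    ∃ t, chk3 (onCell 0 38347922 0 1073741824 1020054732 13421774 (corT true 1 c0B cA102E gB0q1 gB1q0 gB0q2 gB1q2 true true)) t 1 3 1 = true :=
  ex3_b A102E_010_1_6_1 A102E_010_1_7_1
theorem A102E_010 :
    ∃ t, chk3 (onCell 0 38347922 0 1073741824 1020054732 13421774 (corT true 1 c0B cA102E gB0q1 gB1q0 gB0q2 gB1q2 true true)) t 1 1 1 = true :=
  ex3_b A102E_010_1_2_1 A102E_010_1_3_1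

def A102E_011_1_2_1 :
    ∃ t, chk3 (onCell 0 38347922 0 1073741824 1020054732 13421774 (corT true 1 c0B cA102E gB0q1 gB1q0 gB1q2 gB2q2 true true)) t 1 2 1 = true :=
  ⟨(T.b (T.l 2) (T.b (T.l 2) (T.b (T.b (T.l 2) (T.b (T.l 2) (T.b (T.b (T.l 2) (T.a (T.a (T.a (T.l 204) (T.l 204)) (T.l 204)) (T.l 2))) (T.b (T.a (T.a (T.a (T.l 204) (T.l 204)) (T.l 204)) (T.a (T.l 204) (T.l 204))) (T.a (T.a (T.a (T.l 204) (T.l 204)) (T.l 204)) (T.a (T.l 204) (T.l 204))))))) (T.b (T.b (T.b (T.b (T.a (T.a (T.a (T.l 204) (T.l 204)) (T.l 204)) (T.a (T.l 204) (T.l 204))) (T.a (T.a (T.a (T.l 204) (T.l 204)) (T.l 204)) (T.a (T.l 204) (T.l 204)))) (T.b (T.a (T.a (T.a (T.l 204) (T.l 204)) (T.l 204)) (T.a (T.l 204) (T.l 204))) (T.a (T.a (T.a (T.l 204) (T.l 204)) (T.l 204)) (T.a (T.l 204) (T.l 204))))) (T.b (T.b (T.a (T.a (T.a (T.l 204) (T.l 204)) (T.l 0)) (T.a (T.l 204)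 (T.l 204))) (T.a (T.a (T.a (T.l 204) (T.l 0)) (T.l 0)) (T.a (T.l 204) (T.l 204)))) (T.a (T.a (T.a (T.l 204) (T.l 0)) (T.l 0)) (T.a (T.l 204) (T.l 204))))) (T.b (T.a (T.a (T.a (T.l 204) (T.l 0)) (T.l 0)) (T.a (T.l 204) (T.l 204))) (T.a (T.a (T.a (T.l 204) (T.l 0)) (T.l 0)) (T.a (T.l 0) (T.l 204)))))))), by decide +kernel⟩

def A102E_011_1_3_1 :
    ∃ t, chk3 (onCell 0 38347922 0 1073741824 1020054732 13421774 (corT true 1 c0B cA102E gB0q1 gB1q0 gB1q2 gB2q2 true true)) t 1 3 1 = true :=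
  ⟨(T.b (T.b (T.b (T.b (T.b (T.a (T.a (T.a (T.l 204) (T.c (T.l 0) (T.l 0))) (T.a (T.l 204) (T.l 204))) (T.a (T.l 0) (T.l 0))) (T.b (T.a (T.a (T.a (T.l 204) (T.a (T.l 204) (T.l 204))) (T.a (T.l 204) (T.l 204))) (T.a (T.l 0) (T.l 0))) (T.a (T.a (T.a (T.l 204) (T.a (T.l 204) (T.l 204))) (T.a (T.l 0) (T.l 204))) (T.a (T.l 0) (T.l 0))))) (T.b (T.b (T.a (T.a (T.a (T.l 204) (T.a (T.l 204) (T.l 0))) (T.a (T.l 0) (T.l 0))) (T.a (T.l 0) (T.l 0))) (T.a (T.a (T.a (T.l 204) (T.a (T.l 204) (T.l 0))) (T.a (T.l 0) (T.l 0))) (T.a (T.l 0) (T.l 0)))) (T.b (T.a (T.b (T.a (T.a (T.l 0) (T.a (T.l 0) (T.l 0))) (T.a (T.l 0) (T.l 0))) (T.a (T.a (T.l 0) (T.a (T.l 0) (T.l 0))) (T.a (T.l 0) (T.l 0)))) (T.a (T.a (T.l 0) (T.l 0)) (T.l 0))) (T.a (T.b (T.a (T.a (T.l 0) (T.a (T.l 0) (T.l 0))) (T.a (T.l 0) (T.l 0))) (T.a (T.l 1) (T.a (T.l 1) (T.l 0)))) (T.a (T.a (T.l 0) (T.l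 0)) (T.l 0)))))) (T.a (T.l 1) (T.b (T.a (T.l 1) (T.b (T.a (T.l 1) (T.l 816)) (T.l 1))) (T.l 1)))) (T.l 1)) (T.l 1)), by decide +kernel⟩

theorem A102E_011 :
    ∃ t, chk3 (onCell 0 38347922 0 1073741824 1020054732 13421774 (corT true 1 c0B cA102E gB0q1 gB1q0 gB1q2 gB2q2 true true)) t 1 1 1 = true :=
  ex3_b A102E_011_1_2_1 A102E_011_1_3_1

def A102E_012 :
    ∃ t, chk3 (onCell 0 38347922 0 1073741824 1020054732 13421774 (corT true 1 c0B cA102E gB0q1 gB1q0 gB2q2 gB3q2 true false)) t 1 1 1 = true :=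
  ⟨(T.b (T.b (T.a (T.a (T.a (T.l 204) (T.l 0)) (T.l 0)) (T.a (T.l 204) (T.l 0))) (T.b (T.b (T.a (T.a (T.a (T.l 204) (T.l 204)) (T.l 204)) (T.a (T.l 204) (T.l 204))) (T.a (T.a (T.a (T.l 204) (T.l 204)) (T.l 204)) (T.a (T.l 204) (T.l 204)))) (T.b (T.b (T.a (T.a (T.a (T.l 204) (T.l 204)) (T.l 204)) (T.a (T.l 204) (T.l 204))) (T.b (T.b (T.a (T.a (T.a (T.l 204) (T.l 204)) (T.l 204)) (T.a (T.l 204) (T.l 204))) (T.b (T.a (T.a (T.a (T.l 204) (T.l 204)) (T.l 204)) (T.a (T.l 204) (T.l 204))) (T.a (T.a (T.a (T.l 204) (T.l 204)) (T.l 204)) (T.a (T.l 204) (T.l 204))))) (T.b (T.b (T.a (T.a (T.a (T.l 204) (T.l 204)) (T.l 204)) (T.a (T.l 204) (T.l 204))) (T.a (T.a (T.a (T.l 204) (T.l 204)) (T.l 204)) (T.a (T.l 204) (T.l 204)))) (T.b (T.a (T.a (T.l 1) (T.l 204)) (T.a (T.l 204) (T.l 204))) (T.l 1))))) (T.l 1)))) (T.l 1)), by decide +kernel⟩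

end Pool.Agent.Strip051.G.I9500_9625.Tab.CG
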