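import Pool.Agent.Strip051.G.I9500_9625.Gn
import Pool.Agent.Strip051.PB.Corns
import Pool.Agent.Strip051.PB.CornW

/-! # Certificates of the aligned corners (generated) -/

set_option linter.all false

namespace Pool.Agent.Strip051.G.I9500_9625.Tab.CG

open Pool.Agent.Strip051.PB

def A102E_020_1_2_1 :
    ∃ t, chk3 (onCell 0 16777216 0 1073741824 1020054732 13421774 (corT true 1 c0B cA102E gB0q1 gB2q0 gB0q2 gB1q2 true true)) t 1 2 1 = true :=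
  ⟨(T.l 2), by decide +kernel⟩

def A102E_020_1_6_1 :
    ∃ t, chk3 (onCell 0 16777216 0 1073741824 1020054732 13421774 (corT true 1 c0B cA102E gB0q1 gB2q0 gB0q2 gB1q2 true true)) t 1 6 1 = true :=
  ⟨(T.l 2), by decide +kernel⟩

def A102E_020_1_112_1 :
    ∃ t, chk3 (onCell 0 16777216 0 1073741824 1020054732 13421774 (corT true 1 c0B cA102E gB0q1 gB2q0 gB0q2 gB1q2 true true)) t 1 112 1 = true :=
  ⟨(T.l 2), by decide +kernel⟩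

def A102E_020_1_113_1 :
    ∃ t, chk3 (onCell 0 16777216 0 1073741824 1020054732 13421774 (corT true 1 c0B cA102E gB0q1 gB2q0 gB0q2 gB1q2 true true)) t 1 113 1 = true :=
  ⟨(T.b (T.l 2) (T.b (T.l 2) (T.b (T.b (T.b (T.b (T.l 2) (T.a (T.a (T.l 816) (T.a (T.l 816) (T.l 0))) (T.b (T.l 2) (T.a (T.a (T.l 816) (T.l 816)) (T.a (T.l 816) (T.l 816)))))) (T.a (T.a (T.l 816) (T.a (T.l 816) (T.l 0))) (T.b (T.b (T.a (T.a (T.l 816) (T.l 816)) (T.a (T.l 816) (T.l 816))) (T.a (T.a (T.l 816) (T.l 816)) (T.a (T.l 816) (T.l 816)))) (T.b (T.a (T.a (T.l 816) (T.l 816)) (T.a (T.l 816) (T.l 816))) (T.a (T.a (T.l 816) (T.l 816)) (T.a (T.l 816) (T.l 816))))))) (T.b (T.a (T.a (T.l 816) (T.a (T.l 816) (T.l 0))) (T.b (T.b (T.a (T.a (T.l 816) (T.l 816)) (T.a (T.l 816) (T.l 816))) (T.a (T.a (T.l 816) (T.l 816)) (T.a (T.l 816) (T.l 816)))) (T.a (T.a (T.l 816) (T.l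 816)) (T.a (T.l 816) (T.l 816))))) (T.a (T.a (T.l 816) (T.a (T.l 816) (T.l 0))) (T.b (T.a (T.a (T.l 816) (T.l 816)) (T.a (T.l 816) (T.l 816))) (T.a (T.a (T.l 816) (T.l 816)) (T.a (T.l 816) (T.l 816))))))) (T.b (T.b (T.a (T.a (T.l 816) (T.a (T.l 816) (T.l 0))) (T.b (T.a (T.a (T.l 816) (T.l 816)) (T.a (T.l 816) (T.l 816))) (T.a (T.a (T.l 816) (T.l 816)) (T.a (T.l 816) (T.l 816))))) (T.a (T.a (T.l 816) (T.a (T.l 816) (T.l 0))) (T.b (T.a (T.a (T.l 816) (T.l 816)) (T.a (T.l 816) (T.l 816))) (T.a (T.a (T.l 816) (T.l 816)) (T.a (T.l 816) (T.l 816)))))) (T.b (T.a (T.a (T.l 816) (T.a (T.l 816) (T.l 0))) (T.b (T.a (T.a (T.l 0) (T.l 816)) (T.a (T.l 816) (T.l 816))) (T.a (T.a (T.l 0) (T.l 816)) (T.a (T.l 816) (T.l 816))))) (T.a (T.a (T.l 816) (T.a (T.l 816) (T.l 0))) (T.b (T.a (T.a (T.l 0) (T.l 816)) (T.a (T.l 816) (T.l 816))) (T.a (T.a (T.l 0) (T.l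 816)) (T.a (T.l 816) (T.l 816)))))))))), by decide +kernel⟩

def A102E_020_1_456_1 :
    ∃ t, chk3 (onCell 0 16777216 0 1073741824 1020054732 13421774 (corT true 1 c0B cA102E gB0q1 gB2q0 gB0q2 gB1q2 true true)) t 1 456 1 = true :=
  ⟨(T.b (T.b (T.b (T.a (T.a (T.l 816) (T.a (T.l 816) (T.l 0))) (T.b (T.a (T.a (T.l 0) (T.l 816)) (T.a (T.l 816) (T.l 816))) (T.a (T.a (T.l 0) (T.l 816)) (T.a (T.l 816) (T.l 816))))) (T.a (T.a (T.l 816) (T.a (T.l 816) (T.l 0))) (T.b (T.a (T.a (T.l 0) (T.l 816)) (T.a (T.l 816) (T.l 816))) (T.a (T.a (T.l 0) (T.l 816)) (T.a (T.l 816) (T.l 816)))))) (T.b (T.a (T.a (T.l 0) (T.a (T.l 816) (T.l 0))) (T.b (T.a (T.a (T.l 0) (T.l 816)) (T.a (T.l 816) (T.l 816))) (T.a (T.a (T.l 0) (T.l 816)) (T.a (T.l 944) (T.l 816))))) (T.a (T.a (T.l 0) (T.a (T.l 816) (T.l 0))) (T.b (T.a (T.a (T.l 0) (T.l 816)) (T.a (T.l 944) (T.l 944)))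 (T.a (T.a (T.l 0) (T.l 816)) (T.a (T.l 944) (T.l 944))))))) (T.b (T.b (T.a (T.a (T.l 0) (T.a (T.l 816) (T.l 0))) (T.b (T.a (T.a (T.l 0) (T.l 816)) (T.a (T.l 944) (T.l 944))) (T.a (T.a (T.l 0) (T.l 816)) (T.a (T.l 944) (T.l 944))))) (T.a (T.a (T.l 0) (T.a (T.l 816) (T.l 8))) (T.b (T.a (T.a (T.l 0) (T.l 816)) (T.a (T.l 944) (T.l 944))) (T.a (T.a (T.l 0) (T.l 816)) (T.a (T.l 944) (T.l 944)))))) (T.b (T.a (T.a (T.l 0) (T.a (T.l 816) (T.l 8))) (T.b (T.a (T.a (T.l 0) (T.l 816)) (T.a (T.l 944) (T.l 944))) (T.a (T.a (T.l 0) (T.l 816)) (T.a (T.l 944) (T.l 944))))) (T.a (T.a (T.l 0) (T.a (T.l 816) (T.l 8))) (T.b (T.a (T.a (T.l 0) (T.l 816)) (T.a (T.l 944) (T.l 944))) (T.a (T.a (T.l 0) (T.l 816)) (T.a (T.c (T.l 816) (T.l 816)) (T.l 944)))))))), by decide +kernel⟩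

def A102E_020_1_914_1 :
    ∃ t, chk3 (onCell 0 16777216 0 1073741824 1020054732 13421774 (corT true 1 c0B cA102E gB0q1 gB2q0 gB0q2 gB1q2 true true)) t 1 914 1 = true :=
  ⟨(T.b (T.b (T.a (T.a (T.l 0) (T.a (T.l 816) (T.l 8))) (T.b (T.a (T.a (T.l 0) (T.l 816)) (T.a (T.c (T.l 816) (T.l 816)) (T.l 944))) (T.a (T.a (T.l 0) (T.l 816)) (T.a (T.c (T.l 816) (T.l 816)) (T.l 944))))) (T.a (T.a (T.l 0) (T.a (T.l 816) (T.c (T.l 0) (T.l 816)))) (T.b (T.a (T.a (T.l 0) (T.l 816)) (T.a (T.c (T.l 816) (T.l 816)) (T.l 944))) (T.a (T.a (T.l 0) (T.l 816)) (T.a (T.c (T.l 816) (T.l 816)) (T.c (T.l 816) (T.l 816))))))) (T.b (T.a (T.a (T.l 0) (T.a (T.l 816) (T.c (T.l 0) (T.l 816)))) (T.b (T.a (T.a (T.l 0) (T.l 816)) (T.a (T.c (T.l 816) (T.l 816)) (T.c (T.l 816) (T.l 816)))) (T.a (T.a (T.l 0) (T.l 816)) (T.a (T.c (T.l 816) (T.l 816)) (T.c (T.l 816) (T.l 816))))))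 (T.a (T.a (T.l 0) (T.a (T.l 816) (T.c (T.l 0) (T.l 816)))) (T.b (T.a (T.a (T.l 0) (T.l 816)) (T.a (T.c (T.l 816) (T.l 816)) (T.c (T.l 816) (T.l 816)))) (T.a (T.a (T.l 0) (T.l 816)) (T.a (T.c (T.l 816) (T.l 816)) (T.c (T.l 816) (T.l 816)))))))), by decide +kernel⟩

def A102E_020_1_915_1 :
    ∃ t, chk3 (onCell 0 16777216 0 1073741824 1020054732 13421774 (corT true 1 c0B cA102E gB0q1 gB2q0 gB0q2 gB1q2 true true)) t 1 915 1 = true :=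
  ⟨(T.b (T.b (T.a (T.a (T.l 0) (T.a (T.l 816) (T.c (T.l 0) (T.l 816)))) (T.b (T.a (T.a (T.l 0) (T.l 816)) (T.a (T.c (T.l 816) (T.l 816)) (T.c (T.l 816) (T.l 816)))) (T.a (T.a (T.l 0) (T.l 816)) (T.a (T.c (T.l 816) (T.l 816)) (T.c (T.l 816) (T.l 816)))))) (T.a (T.a (T.l 0) (T.a (T.l 816) (T.c (T.l 0) (T.l 816)))) (T.b (T.a (T.a (T.l 128) (T.l 816)) (T.a (T.c (T.l 816) (T.l 816)) (T.c (T.l 816) (T.l 816)))) (T.a (T.a (T.l 128) (T.l 944)) (T.a (T.c (T.l 816) (T.l 816)) (T.c (T.l 816) (T.l 816))))))) (T.b (T.a (T.a (T.l 0) (T.a (T.l 816) (T.c (T.l 0) (T.l 816)))) (T.b (T.a (T.a (T.l 128) (T.l 944)) (T.a (T.c (T.l 816) (T.l 816)) (T.c (T.l 816) (T.l 816)))) (T.a (T.a (T.l 128) (T.l 944)) (T.a (T.c (T.l 816) (T.l 816)) (T.c (T.l 816) (T.l 816)))))) (T.a (T.a (T.l 0) (T.a (T.l 816) (T.c (T.l 0) (T.l 816)))) (T.b (T.a (T.a (T.l 128) (T.l 944))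 (T.a (T.c (T.l 816) (T.l 816)) (T.c (T.l 816) (T.l 816)))) (T.a (T.a (T.l 128) (T.l 944)) (T.a (T.c (T.l 816) (T.l 816)) (T.c (T.l 816) (T.l 816)))))))), by decide +kernel⟩

def A102E_020_1_916_1 :
    ∃ t, chk3 (onCell 0 16777216 0 1073741824 1020054732 13421774 (corT true 1 c0B cA102E gB0q1 gB2q0 gB0q2 gB1q2 true true)) t 1 916 1 = true :=
  ⟨(T.b (T.b (T.a (T.a (T.l 0) (T.a (T.l 816) (T.c (T.l 0) (T.l 816)))) (T.b (T.a (T.a (T.l 128) (T.l 944)) (T.a (T.c (T.l 816) (T.l 816)) (T.c (T.l 816) (T.l 816)))) (T.a (T.a (T.c (T.l 0) (T.l 816)) (T.l 944)) (T.a (T.c (T.l 816) (T.l 816)) (T.c (T.l 816) (T.l 816)))))) (T.a (T.a (T.l 0) (T.a (T.l 816) (T.c (T.l 0) (T.l 816)))) (T.b (T.a (T.a (T.c (T.l 0) (T.l 816)) (T.l 128)) (T.a (T.c (T.l 816) (T.l 944)) (T.c (T.l 816) (T.l 816)))) (T.a (T.a (T.c (T.l 0) (T.l 816)) (T.c (T.l 816) (T.l 816)))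 (T.a (T.c (T.l 816) (T.l 944)) (T.c (T.l 816) (T.l 816))))))) (T.b (T.a (T.a (T.l 0) (T.a (T.l 0) (T.c (T.l 0) (T.l 816)))) (T.b (T.a (T.a (T.c (T.l 0) (T.l 816)) (T.c (T.l 816) (T.l 816))) (T.a (T.c (T.l 816) (T.l 944)) (T.c (T.l 816) (T.l 944)))) (T.a (T.a (T.c (T.l 0) (T.l 816)) (T.c (T.l 816) (T.l 816))) (T.a (T.c (T.l 816) (T.l 944)) (T.c (T.l 816) (T.l 944)))))) (T.a (T.a (T.l 0) (T.a (T.l 0) (T.c (T.l 0) (T.l 816)))) (T.b (T.a (T.a (T.c (T.l 0) (T.l 816)) (T.c (T.l 816) (T.l 816))) (T.a (T.c (T.l 816) (T.l 944)) (T.c (T.l 816) (T.l 944)))) (T.a (T.a (T.c (T.l 0) (T.l 816)) (T.c (T.l 816) (T.l 816))) (T.a (T.c (T.l 816) (T.l 944)) (T.c (T.l 816) (T.l 944)))))))), by decide +kernel⟩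

def A102E_020_1_917_1 :
    ∃ t, chk3 (onCell 0 16777216 0 1073741824 1020054732 13421774 (corT true 1 c0B cA102E gB0q1 gB2q0 gB0q2 gB1q2 true true)) t 1 917 1 = true :=
  ⟨(T.b (T.b (T.a (T.a (T.l 0) (T.a (T.l 0) (T.c (T.l 0) (T.l 816)))) (T.b (T.a (T.a (T.c (T.l 0) (T.l 816)) (T.c (T.l 816) (T.l 816))) (T.a (T.c (T.l 816) (T.l 944)) (T.c (T.l 816) (T.l 944)))) (T.a (T.a (T.c (T.l 0) (T.l 816)) (T.c (T.l 816) (T.l 816))) (T.a (T.c (T.l 816) (T.l 944)) (T.c (T.l 816) (T.l 944)))))) (T.a (T.a (T.l 0) (T.a (T.l 0) (T.c (T.l 0) (T.l 816)))) (T.b (T.a (T.a (T.c (T.l 0) (T.l 816)) (T.c (T.l 816) (T.l 816))) (T.a (T.c (T.l 816) (T.l 944)) (T.c (T.l 816) (T.l 944)))) (T.a (T.a (T.c (T.l 0) (T.l 816)) (T.c (T.l 816) (T.l 816))) (T.a (T.c (T.l 816) (T.l 944)) (T.c (T.l 816) (T.l 944))))))) (T.b (T.a (T.a (T.l 0) (T.a (T.l 0) (T.c (T.l 0) (T.l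 816)))) (T.b (T.a (T.a (T.c (T.l 0) (T.l 816)) (T.c (T.l 816) (T.l 816))) (T.a (T.c (T.l 816) (T.c (T.l 816) (T.l 944))) (T.c (T.l 816) (T.l 944)))) (T.a (T.a (T.c (T.l 0) (T.l 816)) (T.c (T.l 816) (T.l 816))) (T.a (T.c (T.l 816) (T.c (T.l 816) (T.l 944))) (T.c (T.l 816) (T.l 944)))))) (T.a (T.a (T.l 0) (T.a (T.l 0) (T.c (T.l 0) (T.l 816)))) (T.b (T.a (T.a (T.c (T.l 0) (T.l 816)) (T.c (T.l 816) (T.l 816))) (T.a (T.c (T.l 816) (T.c (T.l 816) (T.l 944))) (T.c (T.l 816) (T.l 944)))) (T.a (T.a (T.c (T.l 0) (T.l 816)) (T.c (T.l 816) (T.l 816))) (T.a (T.c (T.l 816) (T.c (T.l 816) (T.l 944))) (T.c (T.l 816) (T.l 944)))))))), by decide +kernel⟩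

def A102E_020_1_918_1 :
    ∃ t, chk3 (onCell 0 16777216 0 1073741824 1020054732 13421774 (corT true 1 c0B cA102E gB0q1 gB2q0 gB0q2 gB1q2 true true)) t 1 918 1 = true :=
  ⟨(T.b (T.b (T.a (T.a (T.l 0) (T.a (T.l 0) (T.c (T.l 0) (T.l 816)))) (T.b (T.a (T.a (T.c (T.l 0) (T.l 816)) (T.c (T.l 816) (T.l 816))) (T.a (T.c (T.l 816) (T.c (T.l 816) (T.l 944))) (T.c (T.l 816) (T.c (T.l 816) (T.l 944))))) (T.a (T.a (T.c (T.l 0) (T.l 816)) (T.c (T.l 816) (T.l 816))) (T.a (T.c (T.l 816) (T.c (T.l 816) (T.l 944))) (T.c (T.l 816) (T.c (T.l 816) (T.l 944))))))) (T.a (T.a (T.l 0) (T.a (T.l 0) (T.c (T.l 0) (T.l 816)))) (T.b (T.a (T.a (T.c (T.l 0) (T.l 816)) (T.c (T.l 816) (T.l 816))) (T.a (T.c (T.l 944) (T.c (T.l 944) (T.l 944))) (T.c (T.l 816) (T.c (T.l 816) (T.l 944))))) (T.a (T.a (T.c (T.l 0) (T.l 816)) (T.c (T.l 816) (T.l 816))) (T.a (T.c (T.l 944)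 (T.c (T.l 944) (T.l 944))) (T.c (T.l 816) (T.c (T.l 816) (T.l 944)))))))) (T.a (T.a (T.l 0) (T.a (T.l 0) (T.c (T.l 0) (T.l 944)))) (T.b (T.b (T.a (T.a (T.c (T.l 0) (T.l 816)) (T.c (T.l 816) (T.l 816))) (T.a (T.c (T.l 944) (T.c (T.l 944) (T.l 944))) (T.c (T.l 944) (T.c (T.l 816) (T.l 944))))) (T.a (T.a (T.c (T.l 0) (T.l 816)) (T.c (T.l 0) (T.l 816))) (T.a (T.c (T.l 944) (T.a (T.l 816) (T.l 816))) (T.c (T.l 944) (T.c (T.l 944) (T.l 944)))))) (T.b (T.a (T.a (T.c (T.l 0) (T.l 816)) (T.c (T.l 0) (T.l 816))) (T.a (T.c (T.l 944) (T.a (T.l 816) (T.l 816))) (T.c (T.l 944) (T.c (T.l 944) (T.l 944))))) (T.a (T.a (T.c (T.l 0) (T.l 816)) (T.c (T.l 0) (T.l 816))) (T.a (T.c (T.l 944) (T.a (T.l 816) (T.l 816))) (T.c (T.l 944) (T.c (T.l 944) (T.l 944))))))))), by decide +kernel⟩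

def A102E_020_1_1838_1 :
    ∃ t, chk3 (onCell 0 16777216 0 1073741824 1020054732 13421774 (corT true 1 c0B cA102E gB0q1 gB2q0 gB0q2 gB1q2 true true)) t 1 1838 1 = true :=
  ⟨(T.a (T.a (T.l 0) (T.a (T.l 0) (T.c (T.l 0) (T.c (T.l 816) (T.l 816))))) (T.b (T.b (T.a (T.a (T.c (T.l 0) (T.l 816)) (T.c (T.l 0) (T.l 816))) (T.a (T.c (T.c (T.l 816) (T.l 816)) (T.a (T.l 816) (T.l 816))) (T.c (T.l 944) (T.c (T.l 944) (T.l 944))))) (T.a (T.a (T.c (T.l 0) (T.l 944)) (T.c (T.l 0) (T.l 944))) (T.b (T.a (T.c (T.c (T.l 816) (T.l 816)) (T.a (T.l 816) (T.l 944))) (T.c (T.l 944) (T.c (T.l 944) (T.l 944)))) (T.a (T.c (T.c (T.l 816) (T.l 816)) (T.a (T.l 816) (T.l 944))) (T.c (T.l 944) (T.a (T.l 944) (T.l 944))))))) (T.b (T.a (T.a (T.c (T.l 0) (T.l 944)) (T.c (T.l 0) (T.l 944))) (T.b (T.a (T.c (T.c (T.l 816) (T.l 816)) (T.a (T.l 816) (T.l 944))) (T.c (T.l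 944) (T.a (T.l 944) (T.l 944)))) (T.a (T.c (T.c (T.l 816) (T.l 944)) (T.a (T.l 944) (T.l 944))) (T.c (T.l 944) (T.a (T.l 944) (T.l 944)))))) (T.a (T.a (T.c (T.l 0) (T.l 944)) (T.c (T.l 0) (T.l 944))) (T.b (T.a (T.c (T.c (T.l 816) (T.l 944)) (T.a (T.l 944) (T.l 944))) (T.c (T.l 944) (T.a (T.l 944) (T.l 944)))) (T.a (T.c (T.c (T.l 816) (T.l 944)) (T.a (T.l 944) (T.l 944))) (T.c (T.l 944) (T.a (T.l 944) (T.l 944))))))))), by decide +kernel⟩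

def A102E_020_1_1839_1 :
    ∃ t, chk3 (onCell 0 16777216 0 1073741824 1020054732 13421774 (corT true 1 c0B cA102E gB0q1 gB2q0 gB0q2 gB1q2 true true)) t 1 1839 1 = true :=
  ⟨(T.a (T.a (T.l 0) (T.a (T.l 0) (T.c (T.l 0) (T.c (T.l 816) (T.l 944))))) (T.b (T.b (T.a (T.a (T.c (T.l 0) (T.l 944)) (T.c (T.l 0) (T.l 944))) (T.b (T.a (T.c (T.c (T.l 816) (T.l 944)) (T.a (T.l 944) (T.l 944))) (T.c (T.c (T.l 816) (T.l 816)) (T.a (T.l 944) (T.l 944)))) (T.a (T.c (T.c (T.l 816) (T.l 944)) (T.a (T.l 944) (T.l 944))) (T.c (T.c (T.l 816) (T.l 816)) (T.a (T.l 944) (T.l 944)))))) (T.a (T.a (T.c (T.l 0) (T.l 944)) (T.c (T.l 0) (T.l 944))) (T.b (T.a (T.c (T.c (T.l 816) (T.l 944)) (T.a (T.l 944) (T.l 944))) (T.c (T.c (T.l 816) (T.l 944)) (T.a (T.l 944) (T.l 944)))) (T.a (T.c (T.c (T.l 816) (T.l 944)) (T.a (T.l 944) (T.l 944))) (T.c (T.c (T.l 816) (T.l 944))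 (T.a (T.l 944) (T.l 944))))))) (T.b (T.a (T.a (T.c (T.l 0) (T.l 944)) (T.c (T.l 0) (T.l 944))) (T.b (T.a (T.c (T.c (T.l 816) (T.l 944)) (T.a (T.l 944) (T.l 944))) (T.c (T.c (T.l 816) (T.l 944)) (T.a (T.l 944) (T.l 944)))) (T.a (T.c (T.c (T.l 816) (T.l 944)) (T.a (T.l 944) (T.l 944))) (T.c (T.c (T.l 816) (T.l 944)) (T.a (T.l 944) (T.l 944)))))) (T.a (T.b (T.a (T.c (T.l 0) (T.l 944)) (T.c (T.l 0) (T.l 944))) (T.a (T.c (T.l 0) (T.l 944)) (T.c (T.l 0) (T.l 944)))) (T.b (T.a (T.c (T.c (T.l 816) (T.l 944)) (T.a (T.l 944) (T.l 944))) (T.c (T.c (T.l 816) (T.l 944)) (T.a (T.l 944) (T.l 944)))) (T.a (T.c (T.c (T.l 816) (T.l 944)) (T.a (T.l 944) (T.l 944))) (T.c (T.c (T.l 816) (T.l 944)) (T.a (T.l 944) (T.l 944))))))))), by decide +kernel⟩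

def A102E_020_2_1840_1 :
    ∃ t, chk3 (onCell 0 16777216 0 1073741824 1020054732 13421774 (corT true 1 c0B cA102E gB0q1 gB2q0 gB0q2 gB1q2 true true)) t 2 1840 1 = true :=
  ⟨(T.a (T.l 0) (T.a (T.c (T.l 0) (T.l 816)) (T.c (T.l 128) (T.a (T.l 816) (T.l 816))))), by decide +kernel⟩

def A102E_020_3_3680_1 :
    ∃ t, chk3 (onCell 0 16777216 0 1073741824 1020054732 13421774 (corT true 1 c0B cA102E gB0q1 gB2q0 gB0q2 gB1q2 true true)) t 3 3680 1 = true :=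
  ⟨(T.b (T.a (T.b (T.a (T.c (T.l 0) (T.c (T.l 816) (T.l 816))) (T.c (T.l 0) (T.l 944))) (T.a (T.c (T.l 0) (T.c (T.l 816) (T.l 816))) (T.c (T.l 0) (T.l 944)))) (T.b (T.a (T.c (T.a (T.l 816) (T.l 816)) (T.a (T.l 944) (T.l 944))) (T.c (T.c (T.l 816) (T.l 944)) (T.a (T.l 944) (T.l 944)))) (T.a (T.c (T.a (T.l 816) (T.l 816)) (T.a (T.l 944) (T.l 944))) (T.c (T.c (T.l 816) (T.l 944)) (T.a (T.l 944) (T.l 944)))))) (T.a (T.b (T.a (T.c (T.l 0) (T.c (T.l 816) (T.l 816))) (T.c (T.l 0) (T.c (T.l 816) (T.l 816)))) (T.a (T.c (T.l 0) (T.c (T.l 816) (T.l 816))) (T.c (T.l 0) (T.c (T.l 816) (T.l 816))))) (T.b (T.a (T.c (T.a (T.l 816) (T.l 816)) (T.a (T.l 944) (T.l 944))) (T.c (T.c (T.l 816) (T.l 944)) (T.a (T.l 944) (T.l 944)))) (T.a (T.c (T.a (T.l 816) (T.l 816)) (T.a (T.l 944) (T.l 944))) (T.c (T.c (T.l 816) (T.l 944)) (T.a (T.l 944) (T.c (T.l 816) (T.l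 944)))))))), by decide +kernel⟩

def A102E_020_3_3681_1 :
    ∃ t, chk3 (onCell 0 16777216 0 1073741824 1020054732 13421774 (corT true 1 c0B cA102E gB0q1 gB2q0 gB0q2 gB1q2 true true)) t 3 3681 1 = true :=
  ⟨(T.b (T.a (T.b (T.a (T.c (T.l 0) (T.c (T.l 816) (T.l 816))) (T.c (T.l 0) (T.c (T.l 816) (T.l 944)))) (T.a (T.c (T.l 0) (T.c (T.l 816) (T.l 816))) (T.c (T.l 0) (T.c (T.l 816) (T.l 944))))) (T.b (T.a (T.c (T.a (T.l 816) (T.l 816)) (T.a (T.l 944) (T.l 944))) (T.c (T.c (T.l 816) (T.l 944)) (T.a (T.l 944) (T.c (T.l 816) (T.l 944))))) (T.a (T.c (T.a (T.l 816) (T.l 816)) (T.a (T.l 944) (T.c (T.l 816) (T.l 944)))) (T.c (T.c (T.l 816) (T.l 944)) (T.a (T.c (T.l 816) (T.l 944)) (T.c (T.l 816) (T.l 944))))))) (T.a (T.b (T.a (T.c (T.l 0) (T.c (T.l 816) (T.l 944))) (T.c (T.l 0) (T.c (T.l 816) (T.l 944)))) (T.a (T.c (T.l 0) (T.c (T.l 816) (T.l 944)))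 (T.c (T.l 0) (T.c (T.l 816) (T.l 944))))) (T.b (T.a (T.c (T.a (T.l 816) (T.l 816)) (T.a (T.l 944) (T.c (T.l 816) (T.l 944)))) (T.c (T.c (T.l 816) (T.l 944)) (T.a (T.c (T.l 816) (T.l 944)) (T.c (T.l 816) (T.l 944))))) (T.a (T.c (T.a (T.l 816) (T.l 816)) (T.a (T.c (T.l 816) (T.l 944)) (T.c (T.l 816) (T.l 944)))) (T.c (T.c (T.l 816) (T.l 944)) (T.a (T.c (T.l 816) (T.l 944)) (T.c (T.l 816) (T.l 944)))))))), by decide +kernel⟩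

def A102E_020_2_1841_1 :
    ∃ t, chk3 (onCell 0 16777216 0 1073741824 1020054732 13421774 (corT true 1 c0B cA102E gB0q1 gB2q0 gB0q2 gB1q2 true true)) t 2 1841 1 = true :=
  ⟨(T.a (T.c (T.l 0) (T.l 816)) (T.a (T.c (T.l 0) (T.l 816)) (T.c (T.c (T.l 0) (T.l 0)) (T.a (T.l 816) (T.l 816))))), by decide +kernel⟩

def A102E_020_3_3682_1 :
    ∃ t, chk3 (onCell 0 16777216 0 1073741824 1020054732 13421774 (corT true 1 c0B cA102E gB0q1 gB2q0 gB0q2 gB1q2 true true)) t 3 3682 1 = true :=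
  ⟨(T.b (T.a (T.b (T.a (T.c (T.l 0) (T.c (T.l 816) (T.l 944))) (T.c (T.l 0) (T.c (T.l 816) (T.l 944)))) (T.a (T.c (T.l 0) (T.c (T.l 816) (T.l 944))) (T.c (T.l 0) (T.c (T.l 816) (T.l 944))))) (T.b (T.a (T.c (T.a (T.l 816) (T.l 816)) (T.a (T.c (T.l 816) (T.l 944)) (T.c (T.l 816) (T.l 944)))) (T.c (T.a (T.l 816) (T.l 816)) (T.a (T.c (T.l 816) (T.l 944)) (T.c (T.l 816) (T.l 944))))) (T.a (T.c (T.a (T.l 816) (T.l 816)) (T.a (T.c (T.l 816) (T.l 944)) (T.c (T.l 816) (T.l 944)))) (T.c (T.a (T.l 816) (T.l 816)) (T.a (T.c (T.l 816) (T.l 944)) (T.c (T.l 816) (T.l 944))))))) (T.a (T.b (T.a (T.c (T.l 0) (T.c (T.l 816) (T.l 944))) (T.c (T.l 0) (T.c (T.l 816) (T.l 944)))) (T.a (T.c (T.l 0) (T.c (T.l 816) (T.l 944))) (T.c (T.l 0) (T.c (T.l 816) (T.l 944))))) (T.b (T.a (T.c (T.a (T.l 816) (T.l 816)) (T.a (T.c (T.l 816) (T.l 944)) (T.c (T.l 816) (T.l 944))))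 (T.c (T.a (T.l 816) (T.l 816)) (T.a (T.c (T.l 816) (T.l 944)) (T.c (T.l 816) (T.l 944))))) (T.a (T.c (T.a (T.l 816) (T.l 816)) (T.a (T.c (T.l 816) (T.l 944)) (T.c (T.l 816) (T.l 944)))) (T.c (T.a (T.l 816) (T.l 816)) (T.a (T.c (T.l 816) (T.l 944)) (T.c (T.l 944) (T.l 944)))))))), by decide +kernel⟩

def A102E_020_3_3683_1 :
    ∃ t, chk3 (onCell 0 16777216 0 1073741824 1020054732 13421774 (corT true 1 c0B cA102E gB0q1 gB2q0 gB0q2 gB1q2 true true)) t 3 3683 1 = true :=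
  ⟨(T.b (T.a (T.b (T.a (T.c (T.l 0) (T.c (T.l 816) (T.l 944))) (T.c (T.l 0) (T.c (T.l 816) (T.l 944)))) (T.a (T.c (T.l 0) (T.c (T.l 816) (T.l 944))) (T.c (T.l 0) (T.c (T.l 816) (T.l 944))))) (T.b (T.a (T.c (T.a (T.l 816) (T.l 816)) (T.a (T.c (T.l 816) (T.l 944)) (T.c (T.l 816) (T.l 944)))) (T.c (T.a (T.l 816) (T.l 816)) (T.a (T.c (T.l 816) (T.l 944)) (T.c (T.l 944) (T.l 944))))) (T.a (T.c (T.a (T.l 816) (T.l 816)) (T.a (T.c (T.l 816) (T.l 944)) (T.c (T.l 816) (T.l 944)))) (T.c (T.a (T.l 816) (T.l 816)) (T.a (T.c (T.l 816) (T.l 944)) (T.c (T.l 944) (T.l 944))))))) (T.a (T.b (T.a (T.c (T.l 0) (T.c (T.l 816) (T.l 944))) (T.c (T.l 0) (T.c (T.l 816) (T.l 944)))) (T.a (T.c (T.l 0) (T.c (T.l 816) (T.l 944))) (T.c (T.l 0) (T.c (T.l 816) (T.l 944))))) (T.b (T.a (T.b (T.a (T.c (T.l 816) (T.c (T.l 816) (T.l 944))) (T.c (T.l 816) (T.c (T.l 816) (T.l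 944)))) (T.a (T.c (T.l 816) (T.c (T.l 816) (T.l 944))) (T.c (T.l 816) (T.c (T.l 816) (T.l 944))))) (T.c (T.a (T.l 816) (T.l 816)) (T.a (T.c (T.l 944) (T.l 944)) (T.c (T.l 944) (T.l 944))))) (T.a (T.b (T.a (T.c (T.l 816) (T.c (T.l 816) (T.l 944))) (T.c (T.l 816) (T.c (T.l 816) (T.l 944)))) (T.a (T.c (T.l 816) (T.c (T.l 816) (T.l 944))) (T.c (T.l 816) (T.c (T.l 816) (T.l 944))))) (T.c (T.a (T.l 816) (T.l 944)) (T.a (T.c (T.l 944) (T.l 944)) (T.c (T.l 944) (T.l 944)))))))), by decide +kernel⟩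

def A102E_020_2_1842_1 :
    ∃ t, chk3 (onCell 0 16777216 0 1073741824 1020054732 13421774 (corT true 1 c0B cA102E gB0q1 gB2q0 gB0q2 gB1q2 true true)) t 2 1842 1 = true :=
  ⟨(T.a (T.c (T.l 0) (T.l 816)) (T.b (T.a (T.c (T.l 0) (T.l 816)) (T.c (T.c (T.l 0) (T.l 0)) (T.a (T.l 816) (T.l 816)))) (T.b (T.b (T.a (T.c (T.l 0) (T.l 816)) (T.c (T.c (T.l 0) (T.l 0)) (T.a (T.l 816) (T.l 816)))) (T.a (T.c (T.l 0) (T.l 816)) (T.c (T.c (T.l 0) (T.l 0)) (T.a (T.l 816) (T.l 816))))) (T.b (T.a (T.c (T.l 0) (T.l 816)) (T.b (T.a (T.c (T.l 0) (T.l 816)) (T.c (T.l 0) (T.l 816))) (T.a (T.c (T.l 0) (T.l 816)) (T.c (T.l 0) (T.l 816))))) (T.a (T.c (T.l 0) (T.l 816)) (T.b (T.a (T.c (T.l 0) (T.l 816)) (T.c (T.l 0) (T.l 816))) (T.a (T.c (T.l 0) (T.l 816)) (T.c (T.l 0) (T.l 816))))))))), by decide +kernel⟩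

def A102E_020_3_7368_1 :
    ∃ t, chk3 (onCell 0 16777216 0 1073741824 1020054732 13421774 (corT true 1 c0B cA102E gB0q1 gB2q0 gB0q2 gB1q2 true true)) t 3 7368 1 = true :=
  ⟨(T.a (T.b (T.a (T.c (T.l 0) (T.c (T.l 816) (T.l 944))) (T.c (T.l 0) (T.c (T.l 816) (T.l 944)))) (T.a (T.c (T.l 0) (T.c (T.l 816) (T.l 944))) (T.c (T.l 0) (T.c (T.l 816) (T.l 944))))) (T.b (T.a (T.b (T.a (T.c (T.l 816) (T.c (T.l 816) (T.l 944))) (T.c (T.l 816) (T.c (T.l 816) (T.l 944)))) (T.a (T.c (T.l 816) (T.c (T.l 816) (T.l 944))) (T.c (T.l 816) (T.c (T.l 816) (T.l 944))))) (T.c (T.a (T.l 816) (T.l 944)) (T.a (T.c (T.l 944) (T.l 944)) (T.c (T.l 944) (T.l 944))))) (T.a (T.b (T.a (T.c (T.l 816) (T.c (T.l 816) (T.l 944))) (T.c (T.l 816) (T.c (T.l 944) (T.l 944)))) (T.a (T.c (T.l 816) (T.c (T.l 816) (T.l 944))) (T.c (T.l 816) (T.c (T.l 944) (T.l 944))))) (T.b (T.a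 (T.c (T.l 816) (T.c (T.l 944) (T.l 944))) (T.c (T.l 944) (T.c (T.l 944) (T.l 944)))) (T.a (T.c (T.l 816) (T.c (T.l 944) (T.l 944))) (T.c (T.l 944) (T.c (T.l 944) (T.l 944)))))))), by decide +kernel⟩

def A102E_020_3_7369_1 :
    ∃ t, chk3 (onCell 0 16777216 0 1073741824 1020054732 13421774 (corT true 1 c0B cA102E gB0q1 gB2q0 gB0q2 gB1q2 true true)) t 3 7369 1 = true :=
  ⟨(T.a (T.b (T.a (T.c (T.l 128) (T.a (T.l 816) (T.l 944))) (T.c (T.l 0) (T.c (T.l 944) (T.l 944)))) (T.a (T.c (T.l 128) (T.a (T.l 816) (T.l 944))) (T.c (T.l 128) (T.a (T.l 944) (T.l 944))))) (T.b (T.a (T.b (T.a (T.c (T.l 816) (T.c (T.l 816) (T.l 944))) (T.c (T.l 816) (T.c (T.l 944) (T.l 944)))) (T.a (T.c (T.l 816) (T.c (T.l 816) (T.l 944))) (T.c (T.l 816) (T.c (T.l 944) (T.l 944))))) (T.b (T.a (T.c (T.l 816) (T.c (T.l 944) (T.l 944))) (T.c (T.l 944) (T.c (T.l 944) (T.l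 944)))) (T.a (T.c (T.l 944) (T.c (T.l 944) (T.l 944))) (T.c (T.l 944) (T.c (T.l 944) (T.l 944)))))) (T.a (T.b (T.a (T.c (T.l 816) (T.c (T.l 816) (T.l 944))) (T.c (T.l 816) (T.c (T.l 944) (T.l 944)))) (T.a (T.c (T.l 816) (T.c (T.l 816) (T.l 944))) (T.c (T.l 816) (T.c (T.l 944) (T.l 944))))) (T.b (T.a (T.c (T.l 944) (T.c (T.l 944) (T.l 944))) (T.c (T.l 944) (T.c (T.l 944) (T.c (T.l 944) (T.l 944))))) (T.a (T.c (T.l 944) (T.c (T.l 944) (T.l 944))) (T.c (T.l 944) (T.c (T.l 944) (T.c (T.l 944) (T.l 944))))))))), by decide +kernel⟩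

def A102E_020_3_7370_1 :
    ∃ t, chk3 (onCell 0 16777216 0 1073741824 1020054732 13421774 (corT true 1 c0B cA102E gB0q1 gB2q0 gB0q2 gB1q2 true true)) t 3 7370 1 = true :=
  ⟨(T.a (T.b (T.a (T.c (T.l 128) (T.a (T.l 944) (T.l 944))) (T.c (T.l 128) (T.a (T.l 944) (T.l 944)))) (T.a (T.c (T.l 128) (T.a (T.l 944) (T.l 944))) (T.c (T.l 128) (T.a (T.l 944) (T.c (T.l 816) (T.l 944)))))) (T.b (T.a (T.b (T.a (T.c (T.l 816) (T.c (T.l 944) (T.l 944))) (T.c (T.l 816) (T.c (T.l 944) (T.l 944)))) (T.a (T.c (T.l 816) (T.c (T.l 944) (T.l 944))) (T.c (T.l 816) (T.c (T.l 944) (T.l 944))))) (T.b (T.a (T.c (T.l 944) (T.c (T.l 944) (T.c (T.l 944) (T.l 944)))) (T.c (T.l 944) (T.c (T.l 944) (T.c (T.l 944) (T.l 944))))) (T.a (T.c (T.l 944) (T.c (T.l 944) (T.c (T.l 944) (T.l 944)))) (T.c (T.l 944) (T.c (T.l 944) (T.c (T.l 944) (T.l 944))))))) (T.a (T.b (T.a (T.c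 (T.l 816) (T.c (T.l 944) (T.l 944))) (T.c (T.l 944) (T.c (T.l 944) (T.c (T.l 944) (T.l 944))))) (T.a (T.c (T.l 816) (T.c (T.l 944) (T.l 944))) (T.c (T.l 944) (T.c (T.l 944) (T.c (T.l 944) (T.l 944)))))) (T.b (T.a (T.c (T.l 944) (T.c (T.l 944) (T.c (T.l 944) (T.l 944)))) (T.c (T.l 944) (T.c (T.l 944) (T.c (T.l 944) (T.l 944))))) (T.a (T.c (T.l 944) (T.c (T.l 944) (T.c (T.l 944) (T.l 944)))) (T.c (T.l 944) (T.c (T.l 944) (T.c (T.l 944) (T.l 944))))))))), by decide +kernel⟩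

def A102E_020_3_7371_1 :
    ∃ t, chk3 (onCell 0 16777216 0 1073741824 1020054732 13421774 (corT true 1 c0B cA102E gB0q1 gB2q0 gB0q2 gB1q2 true true)) t 3 7371 1 = true :=
  ⟨(T.a (T.b (T.a (T.c (T.l 128) (T.a (T.l 944) (T.l 944))) (T.c (T.l 128) (T.a (T.l 944) (T.c (T.l 816) (T.l 944))))) (T.a (T.c (T.l 128) (T.a (T.l 944) (T.l 944))) (T.c (T.l 128) (T.a (T.l 944) (T.c (T.l 816) (T.l 944)))))) (T.b (T.a (T.b (T.a (T.c (T.l 816) (T.c (T.l 944) (T.l 944))) (T.c (T.l 944) (T.c (T.l 944) (T.c (T.l 944) (T.l 944))))) (T.a (T.c (T.l 816) (T.c (T.l 944) (T.c (T.l 944) (T.l 944)))) (T.c (T.l 944) (T.c (T.l 944) (T.c (T.l 944) (T.l 944)))))) (T.b (T.a (T.c (T.l 944) (T.c (T.l 944) (T.c (T.l 944) (T.l 944)))) (T.c (T.l 944) (T.c (T.l 944) (T.c (T.l 944) (T.l 944))))) (T.a (T.c (T.l 944) (T.c (T.l 944) (T.c (T.l 944) (T.l 944)))) (T.c (T.l 944)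 (T.c (T.l 944) (T.c (T.l 944) (T.l 944))))))) (T.a (T.b (T.a (T.c (T.l 816) (T.c (T.l 944) (T.c (T.l 944) (T.l 944)))) (T.c (T.l 944) (T.c (T.l 944) (T.c (T.l 944) (T.l 944))))) (T.a (T.c (T.l 944) (T.c (T.l 944) (T.c (T.l 944) (T.l 944)))) (T.c (T.l 944) (T.c (T.l 944) (T.c (T.l 944) (T.l 944)))))) (T.b (T.a (T.c (T.l 944) (T.c (T.l 944) (T.c (T.l 944) (T.l 944)))) (T.c (T.l 944) (T.c (T.l 944) (T.c (T.l 944) (T.l 944))))) (T.a (T.c (T.l 944) (T.c (T.l 944) (T.c (T.l 944) (T.l 944)))) (T.c (T.l 944) (T.c (T.l 944) (T.a (T.l 944) (T.l 944))))))))), by decide +kernel⟩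

def A102E_020_2_1843_1 :
    ∃ t, chk3 (onCell 0 16777216 0 1073741824 1020054732 13421774 (corT true 1 c0B cA102E gB0q1 gB2q0 gB0q2 gB1q2 true true)) t 2 1843 1 = true :=
  ⟨(T.b (T.b (T.a (T.c (T.l 0) (T.l 816)) (T.b (T.a (T.c (T.l 0) (T.l 816)) (T.b (T.a (T.c (T.l 0) (T.l 816)) (T.c (T.l 0) (T.l 816))) (T.a (T.c (T.l 0) (T.l 816)) (T.c (T.l 0) (T.l 944))))) (T.a (T.c (T.l 0) (T.l 816)) (T.b (T.a (T.c (T.l 0) (T.l 816)) (T.c (T.l 0) (T.l 944))) (T.a (T.c (T.l 0) (T.l 816)) (T.c (T.l 0) (T.l 944))))))) (T.a (T.c (T.l 0) (T.l 816)) (T.b (T.a (T.c (T.l 0) (T.l 816)) (T.b (T.a (T.c (T.l 0) (T.l 816)) (T.c (T.l 0) (T.l 944))) (T.a (T.c (T.l 0) (T.l 944)) (T.c (T.l 0) (T.l 944))))) (T.a (T.c (T.l 0) (T.l 816)) (T.b (T.a (T.c (T.l 0) (T.l 944)) (T.c (T.l 0) (T.l 944))) (T.a (T.l 1) (T.c (T.l 0) (T.l 944)))))))) (T.l 1)), by decide +kernel⟩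

def A102E_020_3_7372_1 :
    ∃ t, chk3 (onCell 0 16777216 0 1073741824 1020054732 13421774 (corT true 1 c0B cA102E gB0q1 gB2q0 gB0q2 gB1q2 true true)) t 3 7372 1 = true :=
  ⟨(T.a (T.b (T.a (T.c (T.l 128) (T.a (T.l 944) (T.l 944))) (T.c (T.l 128) (T.c (T.l 944) (T.a (T.l 816) (T.l 944))))) (T.a (T.c (T.c (T.l 0) (T.l 816)) (T.a (T.l 944) (T.l 944))) (T.c (T.l 128) (T.c (T.l 944) (T.a (T.l 816) (T.l 944)))))) (T.b (T.a (T.b (T.a (T.c (T.l 944) (T.c (T.l 944) (T.c (T.l 944) (T.l 944)))) (T.c (T.l 944) (T.c (T.l 944) (T.c (T.l 944) (T.l 944))))) (T.a (T.c (T.l 944) (T.c (T.l 944) (T.c (T.l 944) (T.l 944)))) (T.c (T.l 944) (T.c (T.l 944) (T.c (T.l 944) (T.l 944)))))) (T.b (T.a (T.c (T.l 944) (T.c (T.l 944) (T.c (T.l 944) (T.l 944)))) (T.c (T.l 944) (T.c (T.l 944) (T.a (T.l 944) (T.l 944))))) (T.a (T.c (T.l 944) (T.c (T.l 944) (T.a (T.l 944)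 (T.l 944)))) (T.c (T.l 944) (T.c (T.l 944) (T.a (T.l 944) (T.l 944))))))) (T.a (T.b (T.a (T.c (T.l 944) (T.c (T.l 944) (T.c (T.l 944) (T.l 944)))) (T.c (T.l 944) (T.c (T.l 944) (T.c (T.l 944) (T.l 944))))) (T.a (T.c (T.l 944) (T.c (T.l 944) (T.c (T.l 944) (T.l 944)))) (T.c (T.l 944) (T.c (T.l 944) (T.a (T.l 944) (T.l 944)))))) (T.b (T.a (T.c (T.l 944) (T.c (T.l 944) (T.a (T.l 944) (T.l 944)))) (T.c (T.l 944) (T.c (T.l 944) (T.a (T.l 944) (T.l 944))))) (T.a (T.c (T.l 944) (T.c (T.l 944) (T.a (T.l 944) (T.l 944)))) (T.c (T.l 944) (T.c (T.l 944) (T.a (T.l 944) (T.l 944))))))))), by decide +kernel⟩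

def A102E_020_3_7373_1 :
    ∃ t, chk3 (onCell 0 16777216 0 1073741824 1020054732 13421774 (corT true 1 c0B cA102E gB0q1 gB2q0 gB0q2 gB1q2 true true)) t 3 7373 1 = true :=
  ⟨(T.a (T.b (T.a (T.c (T.c (T.l 0) (T.l 816)) (T.a (T.l 944) (T.l 944))) (T.c (T.l 128) (T.c (T.l 944) (T.a (T.l 816) (T.l 944))))) (T.a (T.b (T.a (T.c (T.l 0) (T.l 944)) (T.c (T.l 0) (T.l 944))) (T.a (T.c (T.l 0) (T.l 944)) (T.c (T.l 0) (T.l 944)))) (T.c (T.c (T.l 0) (T.l 816)) (T.c (T.l 944) (T.a (T.l 944) (T.l 944)))))) (T.b (T.a (T.b (T.a (T.c (T.l 944) (T.c (T.l 944) (T.c (T.l 944) (T.l 944)))) (T.c (T.l 944) (T.c (T.l 944) (T.a (T.l 944) (T.l 944))))) (T.a (T.c (T.l 944) (T.c (T.l 944) (T.c (T.l 944) (T.l 944)))) (T.c (T.l 944) (T.c (T.l 944) (T.a (T.l 944) (T.l 944)))))) (T.b (T.a (T.c (T.l 944) (T.c (T.l 944) (T.a (T.l 944) (T.l 944)))) (T.c (T.l 944) (T.c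 (T.l 944) (T.a (T.l 944) (T.l 944))))) (T.a (T.c (T.l 944) (T.c (T.l 944) (T.a (T.l 944) (T.l 944)))) (T.c (T.l 944) (T.c (T.l 944) (T.a (T.l 944) (T.c (T.l 944) (T.l 944)))))))) (T.a (T.b (T.a (T.c (T.l 944) (T.c (T.l 944) (T.a (T.l 944) (T.l 944)))) (T.c (T.l 944) (T.c (T.l 944) (T.a (T.l 944) (T.l 944))))) (T.a (T.c (T.l 944) (T.c (T.l 944) (T.a (T.l 944) (T.l 944)))) (T.c (T.l 944) (T.c (T.l 944) (T.a (T.l 944) (T.l 944)))))) (T.b (T.a (T.c (T.l 944) (T.c (T.l 944) (T.a (T.l 944) (T.l 944)))) (T.c (T.l 944) (T.c (T.l 944) (T.a (T.l 944) (T.c (T.l 944) (T.l 944)))))) (T.a (T.c (T.l 944) (T.c (T.l 944) (T.a (T.l 944) (T.l 944)))) (T.c (T.l 944) (T.c (T.l 944) (T.c (T.l 944) (T.a (T.l 944) (T.l 944)))))))))), by decide +kernel⟩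

def A102E_020_3_3687_1 :
    ∃ t, chk3 (onCell 0 16777216 0 1073741824 1020054732 13421774 (corT true 1 c0B cA102E gB0q1 gB2q0 gB0q2 gB1q2 true true)) t 3 3687 1 = true :=
  ⟨(T.b (T.a (T.b (T.a (T.a (T.l 1) (T.c (T.l 0) (T.c (T.l 816) (T.l 816)))) (T.c (T.c (T.l 0) (T.l 816)) (T.c (T.l 944) (T.a (T.l 944) (T.l 944))))) (T.l 1)) (T.b (T.a (T.b (T.a (T.c (T.l 944) (T.c (T.l 944) (T.a (T.l 944) (T.l 944)))) (T.c (T.l 944) (T.c (T.l 944) (T.a (T.l 944) (T.l 944))))) (T.a (T.c (T.l 944) (T.c (T.l 944) (T.a (T.l 944) (T.l 944)))) (T.c (T.l 944) (T.c (T.l 944) (T.a (T.l 944) (T.l 944)))))) (T.b (T.a (T.c (T.l 944) (T.c (T.l 944) (T.a (T.l 944) (T.l 944)))) (T.c (T.l 944) (T.c (T.l 944) (T.c (T.l 944) (T.a (T.l 944) (T.l 944)))))) (T.a (T.c (T.l 944) (T.c (T.l 944) (T.a (T.l 944) (T.c (T.l 944) (T.l 944))))) (T.c (T.c (T.l 816) (T.l 944)) (T.c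 (T.l 944) (T.c (T.a (T.l 944) (T.l 944)) (T.a (T.l 944) (T.l 944)))))))) (T.a (T.b (T.a (T.c (T.l 944) (T.c (T.l 944) (T.a (T.l 1) (T.l 944)))) (T.c (T.l 944) (T.c (T.l 944) (T.a (T.l 944) (T.l 944))))) (T.l 1)) (T.b (T.a (T.c (T.l 944) (T.c (T.l 944) (T.a (T.l 944) (T.c (T.l 944) (T.l 944))))) (T.c (T.c (T.l 816) (T.l 944)) (T.c (T.c (T.l 944) (T.l 944)) (T.c (T.a (T.l 944) (T.l 944)) (T.a (T.l 944) (T.l 944)))))) (T.a (T.c (T.l 944) (T.c (T.l 944) (T.b (T.a (T.c (T.l 944) (T.l 944)) (T.c (T.l 944) (T.l 944))) (T.l 1)))) (T.c (T.c (T.l 816) (T.l 944)) (T.c (T.c (T.l 944) (T.l 944)) (T.b (T.a (T.c (T.l 944) (T.l 944)) (T.c (T.l 944) (T.l 944))) (T.a (T.c (T.l 944) (T.l 944)) (T.c (T.l 944) (T.l 944))))))))))) (T.a (T.l 1) (T.a (T.l 1) (T.a (T.l 1) (T.a (T.l 1) (T.c (T.l 944) (T.c (T.l 944) (T.c (T.l 944) (T.c (T.l 944) (T.l 944)))))))))),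 by decide +kernel⟩

def A102E_020_1_461_1 :
    ∃ t, chk3 (onCell 0 16777216 0 1073741824 1020054732 13421774 (corT true 1 c0B cA102E gB0q1 gB2q0 gB0q2 gB1q2 true true)) t 1 461 1 = true :=
  ⟨(T.l 1), by decide +kernel⟩

def A102E_020_1_231_1 :
    ∃ t, chk3 (onCell 0 16777216 0 1073741824 1020054732 13421774 (corT true 1 c0B cA102E gB0q1 gB2q0 gB0q2 gB1q2 true true)) t 1 231 1 = true :=
  ⟨(T.l 1), by decide +kernel⟩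

def A102E_020_1_29_1 :
    ∃ t, chk3 (onCell 0 16777216 0 1073741824 1020054732 13421774 (corT true 1 c0B cA102E gB0q1 gB2q0 gB0q2 gB1q2 true true)) t 1 29 1 = true :=
  ⟨(T.l 1), by decide +kernel⟩

def A102E_020_1_15_1 :
    ∃ t, chk3 (onCell 0 16777216 0 1073741824 1020054732 13421774 (corT true 1 c0B cA102E gB0q1 gB2q0 gB0q2 gB1q2 true true)) t 1 15 1 = true :=
  ⟨(T.l 1), by decide +kernel⟩

theorem A102E_020_3_3686_1 :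
    ∃ t, chk3 (onCell 0 16777216 0 1073741824 1020054732 13421774 (corT true 1 c0B cA102E gB0q1 gB2q0 gB0q2 gB1q2 true true)) t 3 3686 1 = true :=
  ex3_b A102E_020_3_7372_1 A102E_020_3_7373_1
theorem A102E_020_3_1843_1 :
    ∃ t, chk3 (onCell 0 16777216 0 1073741824 1020054732 13421774 (corT true 1 c0B cA102E gB0q1 gB2q0 gB0q2 gB1q2 true true)) t 3 1843 1 = true :=
  ex3_b A102E_020_3_3686_1 A102E_020_3_3687_1
theorem A102E_020_1_1843_1 :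
    ∃ t, chk3 (onCell 0 16777216 0 1073741824 1020054732 13421774 (corT true 1 c0B cA102E gB0q1 gB2q0 gB0q2 gB1q2 true true)) t 1 1843 1 = true :=
  ex3_a A102E_020_2_1843_1 A102E_020_3_1843_1
theorem A102E_020_3_3685_1 :
    ∃ t, chk3 (onCell 0 16777216 0 1073741824 1020054732 13421774 (corT true 1 c0B cA102E gB0q1 gB2q0 gB0q2 gB1q2 true true)) t 3 3685 1 = true :=
  ex3_b A102E_020_3_7370_1 A102E_020_3_7371_1
theorem A102E_020_3_3684_1 :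
    ∃ t, chk3 (onCell 0 16777216 0 1073741824 1020054732 13421774 (corT true 1 c0B cA102E gB0q1 gB2q0 gB0q2 gB1q2 true true)) t 3 3684 1 = true :=
  ex3_b A102E_020_3_7368_1 A102E_020_3_7369_1
theorem A102E_020_3_1842_1 :
    ∃ t, chk3 (onCell 0 16777216 0 1073741824 1020054732 13421774 (corT true 1 c0B cA102E gB0q1 gB2q0 gB0q2 gB1q2 true true)) t 3 1842 1 = true :=
  ex3_b A102E_020_3_3684_1 A102E_020_3_3685_1
theorem A102E_020_1_1842_1 :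
    ∃ t, chk3 (onCell 0 16777216 0 1073741824 1020054732 13421774 (corT true 1 c0B cA102E gB0q1 gB2q0 gB0q2 gB1q2 true true)) t 1 1842 1 = true :=
  ex3_a A102E_020_2_1842_1 A102E_020_3_1842_1
theorem A102E_020_1_921_1 :
    ∃ t, chk3 (onCell 0 16777216 0 1073741824 1020054732 13421774 (corT true 1 c0B cA102E gB0q1 gB2q0 gB0q2 gB1q2 true true)) t 1 921 1 = true :=
  ex3_b A102E_020_1_1842_1 A102E_020_1_1843_1
theorem A102E_020_3_1841_1 :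
    ∃ t, chk3 (onCell 0 16777216 0 1073741824 1020054732 13421774 (corT true 1 c0B cA102E gB0q1 gB2q0 gB0q2 gB1q2 true true)) t 3 1841 1 = true :=
  ex3_b A102E_020_3_3682_1 A102E_020_3_3683_1
theorem A102E_020_1_1841_1 :
    ∃ t, chk3 (onCell 0 16777216 0 1073741824 1020054732 13421774 (corT true 1 c0B cA102E gB0q1 gB2q0 gB0q2 gB1q2 true true)) t 1 1841 1 = true :=
  ex3_a A102E_020_2_1841_1 A102E_020_3_1841_1
theorem A102E_020_3_1840_1 :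
    ∃ t, chk3 (onCell 0 16777216 0 1073741824 1020054732 13421774 (corT true 1 c0B cA102E gB0q1 gB2q0 gB0q2 gB1q2 true true)) t 3 1840 1 = true :=
  ex3_b A102E_020_3_3680_1 A102E_020_3_3681_1
theorem A102E_020_1_1840_1 :
    ∃ t, chk3 (onCell 0 16777216 0 1073741824 1020054732 13421774 (corT true 1 c0B cA102E gB0q1 gB2q0 gB0q2 gB1q2 true true)) t 1 1840 1 = true :=
  ex3_a A102E_020_2_1840_1 A102E_020_3_1840_1
theorem A102E_020_1_920_1 :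
    ∃ t, chk3 (onCell 0 16777216 0 1073741824 1020054732 13421774 (corT true 1 c0B cA102E gB0q1 gB2q0 gB0q2 gB1q2 true true)) t 1 920 1 = true :=
  ex3_b A102E_020_1_1840_1 A102E_020_1_1841_1
theorem A102E_020_1_460_1 :
    ∃ t, chk3 (onCell 0 16777216 0 1073741824 1020054732 13421774 (corT true 1 c0B cA102E gB0q1 gB2q0 gB0q2 gB1q2 true true)) t 1 460 1 = true :=
  ex3_b A102E_020_1_920_1 A102E_020_1_921_1
theorem A102E_020_1_230_1 :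
    ∃ t, chk3 (onCell 0 16777216 0 1073741824 1020054732 13421774 (corT true 1 c0B cA102E gB0q1 gB2q0 gB0q2 gB1q2 true true)) t 1 230 1 = true :=
  ex3_b A102E_020_1_460_1 A102E_020_1_461_1
theorem A102E_020_1_115_1 :
    ∃ t, chk3 (onCell 0 16777216 0 1073741824 1020054732 13421774 (corT true 1 c0B cA102E gB0q1 gB2q0 gB0q2 gB1q2 true true)) t 1 115 1 = true :=
  ex3_b A102E_020_1_230_1 A102E_020_1_231_1
theorem A102E_020_1_919_1 :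
    ∃ t, chk3 (onCell 0 16777216 0 1073741824 1020054732 13421774 (corT true 1 c0B cA102E gB0q1 gB2q0 gB0q2 gB1q2 true true)) t 1 919 1 = true :=
  ex3_b A102E_020_1_1838_1 A102E_020_1_1839_1
theorem A102E_020_1_459_1 :
    ∃ t, chk3 (onCell 0 16777216 0 1073741824 1020054732 13421774 (corT true 1 c0B cA102E gB0q1 gB2q0 gB0q2 gB1q2 true true)) t 1 459 1 = true :=
  ex3_b A102E_020_1_918_1 A102E_020_1_919_1
theorem A102E_020_1_458_1 :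
    ∃ t, chk3 (onCell 0 16777216 0 1073741824 1020054732 13421774 (corT true 1 c0B cA102E gB0q1 gB2q0 gB0q2 gB1q2 true true)) t 1 458 1 = true :=
  ex3_b A102E_020_1_916_1 A102E_020_1_917_1
theorem A102E_020_1_229_1 :
    ∃ t, chk3 (onCell 0 16777216 0 1073741824 1020054732 13421774 (corT true 1 c0B cA102E gB0q1 gB2q0 gB0q2 gB1q2 true true)) t 1 229 1 = true :=
  ex3_b A102E_020_1_458_1 A102E_020_1_459_1
theorem A102E_020_1_457_1 :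
    ∃ t, chk3 (onCell 0 16777216 0 1073741824 1020054732 13421774 (corT true 1 c0B cA102E gB0q1 gB2q0 gB0q2 gB1q2 true true)) t 1 457 1 = true :=
  ex3_b A102E_020_1_914_1 A102E_020_1_915_1
theorem A102E_020_1_228_1 :
    ∃ t, chk3 (onCell 0 16777216 0 1073741824 1020054732 13421774 (corT true 1 c0B cA102E gB0q1 gB2q0 gB0q2 gB1q2 true true)) t 1 228 1 = true :=
  ex3_b A102E_020_1_456_1 A102E_020_1_457_1
theorem A102E_020_1_114_1 :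
    ∃ t, chk3 (onCell 0 16777216 0 1073741824 1020054732 13421774 (corT true 1 c0B cA102E gB0q1 gB2q0 gB0q2 gB1q2 true true)) t 1 114 1 = true :=
  ex3_b A102E_020_1_228_1 A102E_020_1_229_1
theorem A102E_020_1_57_1 :
    ∃ t, chk3 (onCell 0 16777216 0 1073741824 1020054732 13421774 (corT true 1 c0B cA102E gB0q1 gB2q0 gB0q2 gB1q2 true true)) t 1 57 1 = true :=
  ex3_b A102E_020_1_114_1 A102E_020_1_115_1
theorem A102E_020_1_56_1 :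
    ∃ t, chk3 (onCell 0 16777216 0 1073741824 1020054732 13421774 (corT true 1 c0B cA102E gB0q1 gB2q0 gB0q2 gB1q2 true true)) t 1 56 1 = true :=
  ex3_b A102E_020_1_112_1 A102E_020_1_113_1
theorem A102E_020_1_28_1 :
    ∃ t, chk3 (onCell 0 16777216 0 1073741824 1020054732 13421774 (corT true 1 c0B cA102E gB0q1 gB2q0 gB0q2 gB1q2 true true)) t 1 28 1 = true :=
  ex3_b A102E_020_1_56_1 A102E_020_1_57_1
theorem A102E_020_1_14_1 :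
    ∃ t, chk3 (onCell 0 16777216 0 1073741824 1020054732 13421774 (corT true 1 c0B cA102E gB0q1 gB2q0 gB0q2 gB1q2 true true)) t 1 14 1 = true :=
  ex3_b A102E_020_1_28_1 A102E_020_1_29_1
theorem A102E_020_1_7_1 :
    ∃ t, chk3 (onCell 0 16777216 0 1073741824 1020054732 13421774 (corT true 1 c0B cA102E gB0q1 gB2q0 gB0q2 gB1q2 true true)) t 1 7 1 = true :=
  ex3_b A102E_020_1_14_1 A102E_020_1_15_1
theorem A102E_020_1_3_1 :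
    ∃ t, chk3 (onCell 0 16777216 0 1073741824 1020054732 13421774 (corT true 1 c0B cA102E gB0q1 gB2q0 gB0q2 gB1q2 true true)) t 1 3 1 = true :=
  ex3_b A102E_020_1_6_1 A102E_020_1_7_1
theorem A102E_020 :
    ∃ t, chk3 (onCell 0 16777216 0 1073741824 1020054732 13421774 (corT true 1 c0B cA102E gB0q1 gB2q0 gB0q2 gB1q2 true true)) t 1 1 1 = true :=
  ex3_b A102E_020_1_2_1 A102E_020_1_3_1

def A102E_021_1_2_1 :
    ∃ t, chk3 (onCell 0 16777216 0 1073741824 1020054732 13421774 (corT true 1 c0B cA102E gB0q1 gB2q0 gB1q2 gB2q2 true true)) t 1 2 1 = true :=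
  ⟨(T.l 2), by decide +kernel⟩

def A102E_021_1_12_1 :
    ∃ t, chk3 (onCell 0 16777216 0 1073741824 1020054732 13421774 (corT true 1 c0B cA102E gB0q1 gB2q0 gB1q2 gB2q2 true true)) t 1 12 1 = true :=
  ⟨(T.l 2), by decide +kernel⟩

def A102E_021_1_26_1 :
    ∃ t, chk3 (onCell 0 16777216 0 1073741824 1020054732 13421774 (corT true 1 c0B cA102E gB0q1 gB2q0 gB1q2 gB2q2 true true)) t 1 26 1 = true :=
  ⟨(T.l 2), by decide +kernel⟩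

def A102E_021_1_54_1 :
    ∃ t, chk3 (onCell 0 16777216 0 1073741824 1020054732 13421774 (corT true 1 c0B cA102E gB0q1 gB2q0 gB1q2 gB2q2 true true)) t 1 54 1 = true :=
  ⟨(T.b (T.l 2) (T.b (T.l 2) (T.b (T.b (T.a (T.l 2) (T.a (T.l 0) (T.l 0))) (T.a (T.a (T.l 204) (T.a (T.l 204) (T.l 0))) (T.a (T.l 0) (T.l 0)))) (T.b (T.a (T.a (T.l 204) (T.a (T.l 204) (T.l 0))) (T.a (T.l 0) (T.l 0))) (T.a (T.a (T.l 204) (T.a (T.l 204) (T.l 0))) (T.a (T.l 0) (T.l 0))))))), by decide +kernel⟩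

def A102E_021_1_55_1 :
    ∃ t, chk3 (onCell 0 16777216 0 1073741824 1020054732 13421774 (corT true 1 c0B cA102E gB0q1 gB2q0 gB1q2 gB2q2 true true)) t 1 55 1 = true :=
  ⟨(T.b (T.b (T.b (T.b (T.a (T.a (T.l 204) (T.a (T.l 204) (T.l 0))) (T.a (T.l 0) (T.l 0))) (T.a (T.a (T.l 204) (T.a (T.l 204) (T.l 0))) (T.a (T.l 0) (T.l 0)))) (T.b (T.a (T.a (T.l 204) (T.a (T.l 204) (T.l 0))) (T.a (T.l 0) (T.l 0))) (T.a (T.a (T.l 204) (T.a (T.l 0) (T.l 0))) (T.a (T.l 0) (T.l 0))))) (T.b (T.b (T.a (T.a (T.l 0) (T.a (T.l 0) (T.l 0))) (T.a (T.l 0) (T.l 0))) (T.a (T.a (T.l 0) (T.a (T.l 0) (T.l 0))) (T.a (T.l 0) (T.l 0)))) (T.b (T.a (T.a (T.l 0) (T.a (T.l 0) (T.l 0))) (T.a (T.l 0) (T.l 0))) (T.a (T.a (T.l 0) (T.a (T.l 0) (T.l 0))) (T.a (T.l 0) (T.l 0)))))) (T.b (T.b (T.b (T.a (T.a (T.l 0) (T.a (T.l 0) (T.l 0))) (T.a (T.l 0) (T.l 0))) (T.a (T.a (T.l 0) (T.a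 (T.l 0) (T.l 0))) (T.a (T.l 0) (T.l 0)))) (T.b (T.a (T.a (T.l 0) (T.a (T.l 0) (T.l 0))) (T.a (T.l 0) (T.l 0))) (T.a (T.a (T.l 0) (T.a (T.l 0) (T.l 0))) (T.a (T.l 0) (T.l 0))))) (T.b (T.b (T.a (T.a (T.l 0) (T.a (T.l 0) (T.l 0))) (T.a (T.l 0) (T.l 0))) (T.a (T.a (T.l 0) (T.a (T.l 0) (T.l 0))) (T.a (T.l 0) (T.l 0)))) (T.b (T.b (T.a (T.a (T.l 0) (T.a (T.l 0) (T.l 0))) (T.a (T.l 0) (T.l 0))) (T.a (T.a (T.l 0) (T.a (T.l 0) (T.l 0))) (T.a (T.l 0) (T.l 0)))) (T.b (T.a (T.a (T.l 0) (T.a (T.l 0) (T.l 0))) (T.a (T.l 0) (T.l 0))) (T.a (T.a (T.l 0) (T.a (T.l 0) (T.l 0))) (T.a (T.l 0) (T.l 0)))))))), by decide +kernel⟩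

def A102E_021_1_224_1 :
    ∃ t, chk3 (onCell 0 16777216 0 1073741824 1020054732 13421774 (corT true 1 c0B cA102E gB0q1 gB2q0 gB1q2 gB2q2 true true)) t 1 224 1 = true :=
  ⟨(T.b (T.b (T.b (T.a (T.a (T.l 0) (T.a (T.l 0) (T.l 0))) (T.a (T.l 0) (T.l 0))) (T.a (T.a (T.l 0) (T.a (T.l 0) (T.l 0))) (T.a (T.l 0) (T.l 0)))) (T.b (T.a (T.a (T.l 0) (T.a (T.l 0) (T.l 0))) (T.a (T.l 0) (T.l 0))) (T.a (T.a (T.l 0) (T.a (T.l 0) (T.l 0))) (T.a (T.l 0) (T.l 0))))) (T.b (T.b (T.a (T.a (T.l 0) (T.a (T.l 0) (T.l 0))) (T.a (T.l 0) (T.l 0))) (T.b (T.a (T.a (T.l 0) (T.a (T.l 0) (T.l 0))) (T.a (T.l 0) (T.l 0))) (T.a (T.a (T.l 0) (T.a (T.l 0) (T.l 0))) (T.a (T.l 0) (T.l 0))))) (T.b (T.b (T.a (T.a (T.l 0) (T.a (T.l 0) (T.l 0))) (T.a (T.l 0) (T.l 0))) (T.a (T.a (T.l 0) (T.a (T.l 0) (T.l 0))) (T.a (T.l 0) (T.l 0)))) (T.b (T.a (T.a (T.l 0) (T.a (T.l 0) (T.l 0)))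 (T.a (T.l 0) (T.l 0))) (T.a (T.a (T.l 0) (T.a (T.l 0) (T.l 0))) (T.a (T.l 0) (T.l 0))))))), by decide +kernel⟩

def A102E_021_1_225_1 :
    ∃ t, chk3 (onCell 0 16777216 0 1073741824 1020054732 13421774 (corT true 1 c0B cA102E gB0q1 gB2q0 gB1q2 gB2q2 true true)) t 1 225 1 = true :=
  ⟨(T.b (T.b (T.b (T.b (T.a (T.a (T.l 0) (T.a (T.l 0) (T.l 0))) (T.a (T.l 0) (T.l 0))) (T.a (T.a (T.l 0) (T.a (T.l 0) (T.l 0))) (T.a (T.l 0) (T.l 0)))) (T.b (T.a (T.a (T.l 0) (T.a (T.l 0) (T.l 0))) (T.a (T.l 0) (T.l 0))) (T.a (T.a (T.l 0) (T.a (T.l 0) (T.l 0))) (T.a (T.l 0) (T.l 0))))) (T.b (T.b (T.a (T.a (T.l 0) (T.a (T.l 0) (T.l 0))) (T.a (T.l 0) (T.l 0))) (T.a (T.a (T.l 0) (T.a (T.l 0) (T.l 0))) (T.a (T.l 0) (T.l 0)))) (T.b (T.a (T.a (T.l 0) (T.a (T.l 0) (T.l 0))) (T.a (T.l 0) (T.l 128))) (T.a (T.a (T.l 0) (T.a (T.l 0) (T.l 0))) (T.a (T.l 0) (T.l 128))))))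 (T.b (T.b (T.b (T.a (T.a (T.l 0) (T.a (T.l 0) (T.l 0))) (T.a (T.l 0) (T.l 128))) (T.a (T.a (T.l 0) (T.a (T.l 0) (T.l 0))) (T.a (T.l 8) (T.l 128)))) (T.b (T.a (T.a (T.l 0) (T.a (T.l 0) (T.l 0))) (T.a (T.l 8) (T.l 128))) (T.a (T.a (T.l 0) (T.a (T.l 0) (T.l 0))) (T.a (T.l 8) (T.c (T.l 0) (T.l 816)))))) (T.b (T.b (T.a (T.a (T.l 0) (T.a (T.l 816) (T.l 0))) (T.a (T.l 8) (T.c (T.l 0) (T.l 816)))) (T.a (T.a (T.l 0) (T.a (T.l 816) (T.l 0))) (T.a (T.c (T.l 0) (T.l 816)) (T.c (T.l 0) (T.l 816))))) (T.b (T.a (T.a (T.l 0) (T.a (T.l 816) (T.l 0))) (T.a (T.c (T.l 0) (T.l 816)) (T.c (T.l 0) (T.l 816)))) (T.a (T.a (T.l 0) (T.a (T.l 816) (T.l 0))) (T.a (T.c (T.l 0) (T.l 816)) (T.c (T.l 0) (T.l 816)))))))), by decide +kernel⟩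

def A102E_021_1_452_1 :
    ∃ t, chk3 (onCell 0 16777216 0 1073741824 1020054732 13421774 (corT true 1 c0B cA102E gB0q1 gB2q0 gB1q2 gB2q2 true true)) t 1 452 1 = true :=
  ⟨(T.b (T.b (T.b (T.a (T.a (T.l 0) (T.a (T.l 816) (T.l 0))) (T.a (T.c (T.l 0) (T.l 816)) (T.c (T.l 0) (T.l 816)))) (T.a (T.a (T.l 0) (T.a (T.l 816) (T.l 0))) (T.a (T.c (T.l 0) (T.l 816)) (T.c (T.l 0) (T.l 816))))) (T.b (T.a (T.a (T.l 0) (T.a (T.l 816) (T.l 0))) (T.a (T.c (T.l 0) (T.l 816)) (T.c (T.l 0) (T.l 816)))) (T.a (T.a (T.l 0) (T.a (T.l 816) (T.l 0))) (T.a (T.c (T.l 0) (T.l 816)) (T.c (T.l 0) (T.l 816)))))) (T.b (T.b (T.a (T.a (T.l 0) (T.a (T.l 816) (T.l 0))) (T.a (T.c (T.l 0) (T.l 816)) (T.c (T.l 0) (T.l 816)))) (T.a (T.a (T.l 0) (T.a (T.l 816) (T.l 0))) (T.a (T.c (T.l 0) (T.l 816)) (T.c (T.l 0) (T.l 816))))) (T.b (T.a (T.a (T.l 0) (T.a (T.l 816) (T.l 0))) (T.a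 (T.c (T.l 0) (T.l 816)) (T.c (T.l 0) (T.l 816)))) (T.a (T.a (T.l 0) (T.a (T.l 816) (T.l 0))) (T.a (T.c (T.l 0) (T.l 816)) (T.c (T.l 0) (T.l 816))))))), by decide +kernel⟩

def A102E_021_1_453_1 :
    ∃ t, chk3 (onCell 0 16777216 0 1073741824 1020054732 13421774 (corT true 1 c0B cA102E gB0q1 gB2q0 gB1q2 gB2q2 true true)) t 1 453 1 = true :=
  ⟨(T.b (T.b (T.b (T.a (T.a (T.l 0) (T.a (T.l 816) (T.l 0))) (T.a (T.c (T.l 0) (T.l 816)) (T.c (T.l 0) (T.l 944)))) (T.a (T.a (T.l 0) (T.a (T.l 816) (T.l 0))) (T.a (T.c (T.l 0) (T.l 816)) (T.c (T.l 0) (T.l 944))))) (T.b (T.a (T.a (T.l 0) (T.a (T.l 816) (T.l 0))) (T.a (T.c (T.l 0) (T.l 816)) (T.c (T.l 0) (T.l 944)))) (T.a (T.a (T.l 0) (T.a (T.l 816) (T.l 0))) (T.a (T.c (T.l 0) (T.l 816)) (T.c (T.l 0) (T.l 944)))))) (T.b (T.b (T.a (T.a (T.l 0) (T.a (T.l 816) (T.l 0))) (T.a (T.c (T.l 0) (T.l 816)) (T.c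 (T.l 0) (T.l 944)))) (T.a (T.a (T.l 0) (T.a (T.l 816) (T.l 0))) (T.a (T.c (T.l 0) (T.l 816)) (T.c (T.l 0) (T.l 944))))) (T.b (T.a (T.a (T.l 816) (T.a (T.l 816) (T.l 0))) (T.a (T.c (T.l 0) (T.l 816)) (T.a (T.l 816) (T.l 816)))) (T.a (T.a (T.l 816) (T.a (T.l 816) (T.l 0))) (T.b (T.a (T.c (T.l 0) (T.l 824)) (T.a (T.l 816) (T.l 816))) (T.b (T.a (T.c (T.l 0) (T.l 824)) (T.a (T.l 816) (T.l 816))) (T.a (T.c (T.l 0) (T.l 824)) (T.a (T.l 816) (T.l 816))))))))), by decide +kernel⟩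

def A102E_021_1_908_1 :
    ∃ t, chk3 (onCell 0 16777216 0 1073741824 1020054732 13421774 (corT true 1 c0B cA102E gB0q1 gB2q0 gB1q2 gB2q2 true true)) t 1 908 1 = true :=
  ⟨(T.b (T.b (T.a (T.a (T.l 816) (T.a (T.l 816) (T.l 0))) (T.b (T.b (T.a (T.c (T.l 0) (T.l 824)) (T.a (T.l 816) (T.l 816))) (T.a (T.c (T.l 0) (T.l 824)) (T.a (T.l 816) (T.l 816)))) (T.b (T.a (T.c (T.l 0) (T.l 824)) (T.a (T.l 816) (T.l 816))) (T.a (T.c (T.l 0) (T.l 824)) (T.a (T.l 816) (T.l 816)))))) (T.a (T.a (T.l 816) (T.a (T.l 816) (T.l 0))) (T.b (T.b (T.a (T.c (T.l 0) (T.l 824)) (T.a (T.l 816) (T.l 816))) (T.a (T.c (T.l 0) (T.l 824)) (T.a (T.l 816) (T.l 816)))) (T.b (T.a (T.c (T.l 0) (T.l 824)) (T.a (T.l 816) (T.l 816))) (T.a (T.c (T.l 0) (T.l 824)) (T.a (T.l 816) (T.l 816))))))) (T.b (T.a (T.a (T.l 816) (T.a (T.l 816) (T.l 0))) (T.b (T.b (T.a (T.c (T.l 0) (T.l 824))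 (T.a (T.l 816) (T.l 816))) (T.a (T.c (T.l 0) (T.l 824)) (T.a (T.l 816) (T.l 816)))) (T.b (T.a (T.c (T.l 0) (T.l 824)) (T.a (T.l 816) (T.l 816))) (T.a (T.c (T.l 0) (T.l 824)) (T.a (T.l 816) (T.l 816)))))) (T.a (T.a (T.l 816) (T.a (T.l 816) (T.l 0))) (T.b (T.b (T.a (T.c (T.l 0) (T.l 824)) (T.a (T.l 816) (T.l 816))) (T.a (T.c (T.l 0) (T.l 824)) (T.a (T.l 816) (T.l 816)))) (T.b (T.a (T.c (T.l 0) (T.l 824)) (T.a (T.l 816) (T.l 816))) (T.a (T.c (T.l 0) (T.l 824)) (T.a (T.l 816) (T.l 816)))))))), by decide +kernel⟩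

def A102E_021_1_909_1 :
    ∃ t, chk3 (onCell 0 16777216 0 1073741824 1020054732 13421774 (corT true 1 c0B cA102E gB0q1 gB2q0 gB1q2 gB2q2 true true)) t 1 909 1 = true :=
  ⟨(T.b (T.b (T.a (T.a (T.l 816) (T.a (T.l 816) (T.l 0))) (T.b (T.b (T.a (T.a (T.l 816) (T.l 816)) (T.a (T.l 816) (T.l 816))) (T.a (T.a (T.l 816) (T.l 816)) (T.a (T.l 816) (T.l 816)))) (T.b (T.a (T.a (T.l 816) (T.l 816)) (T.a (T.l 816) (T.l 816))) (T.a (T.a (T.l 816) (T.l 816)) (T.a (T.l 816) (T.l 816)))))) (T.a (T.a (T.l 816) (T.a (T.l 816) (T.l 0))) (T.b (T.b (T.a (T.a (T.l 816) (T.l 816)) (T.a (T.l 816) (T.l 816))) (T.a (T.a (T.l 816) (T.l 816)) (T.a (T.l 816) (T.l 816)))) (T.b (T.a (T.a (T.l 816) (T.l 816)) (T.a (T.l 816) (T.l 816))) (T.a (T.a (T.l 816) (T.l 816)) (T.a (T.l 816) (T.l 816))))))) (T.b (T.a (T.a (T.l 816) (T.a (T.l 816) (T.l 0))) (T.b (T.b (T.a (T.a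 (T.l 816) (T.l 816)) (T.a (T.l 816) (T.l 816))) (T.a (T.a (T.l 816) (T.l 816)) (T.a (T.l 816) (T.l 816)))) (T.b (T.a (T.a (T.l 816) (T.l 816)) (T.a (T.l 816) (T.l 816))) (T.a (T.a (T.l 816) (T.l 816)) (T.a (T.l 816) (T.l 816)))))) (T.a (T.a (T.l 816) (T.a (T.l 816) (T.l 0))) (T.b (T.b (T.a (T.a (T.l 816) (T.l 816)) (T.a (T.l 816) (T.l 816))) (T.a (T.a (T.l 816) (T.l 816)) (T.a (T.l 816) (T.l 816)))) (T.b (T.a (T.a (T.l 816) (T.l 816)) (T.a (T.l 816) (T.l 816))) (T.a (T.a (T.l 816) (T.l 816)) (T.a (T.l 816) (T.l 816)))))))), by decide +kernel⟩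

def A102E_021_1_455_1 :
    ∃ t, chk3 (onCell 0 16777216 0 1073741824 1020054732 13421774 (corT true 1 c0B cA102E gB0q1 gB2q0 gB1q2 gB2q2 true true)) t 1 455 1 = true :=
  ⟨(T.b (T.b (T.b (T.a (T.a (T.l 816) (T.a (T.l 816) (T.l 0))) (T.b (T.b (T.a (T.a (T.l 816) (T.l 816)) (T.a (T.l 816) (T.l 816))) (T.a (T.a (T.l 816) (T.l 816)) (T.a (T.l 816) (T.l 816)))) (T.b (T.a (T.a (T.l 816) (T.l 816)) (T.a (T.l 816) (T.l 816))) (T.a (T.a (T.l 816) (T.l 816)) (T.a (T.l 816) (T.l 816)))))) (T.a (T.l 1) (T.a (T.l 1) (T.l 1)))) (T.l 1)) (T.l 1)), by decide +kernel⟩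

def A102E_021_1_57_1 :
    ∃ t, chk3 (onCell 0 16777216 0 1073741824 1020054732 13421774 (corT true 1 c0B cA102E gB0q1 gB2q0 gB1q2 gB2q2 true true)) t 1 57 1 = true :=
  ⟨(T.l 1), by decide +kernel⟩

def A102E_021_1_29_1 :
    ∃ t, chk3 (onCell 0 16777216 0 1073741824 1020054732 13421774 (corT true 1 c0B cA102E gB0q1 gB2q0 gB1q2 gB2q2 true true)) t 1 29 1 = true :=
  ⟨(T.l 1), by decide +kernel⟩

def A102E_021_1_15_1 :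
    ∃ t, chk3 (onCell 0 16777216 0 1073741824 1020054732 13421774 (corT true 1 c0B cA102E gB0q1 gB2q0 gB1q2 gB2q2 true true)) t 1 15 1 = true :=
  ⟨(T.l 1), by decide +kernel⟩

theorem A102E_021_1_454_1 :
    ∃ t, chk3 (onCell 0 16777216 0 1073741824 1020054732 13421774 (corT true 1 c0B cA102E gB0q1 gB2q0 gB1q2 gB2q2 true true)) t 1 454 1 = true :=
  ex3_b A102E_021_1_908_1 A102E_021_1_909_1
theorem A102E_021_1_227_1 :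
    ∃ t, chk3 (onCell 0 16777216 0 1073741824 1020054732 13421774 (corT true 1 c0B cA102E gB0q1 gB2q0 gB1q2 gB2q2 true true)) t 1 227 1 = true :=
  ex3_b A102E_021_1_454_1 A102E_021_1_455_1
theorem A102E_021_1_226_1 :
    ∃ t, chk3 (onCell 0 16777216 0 1073741824 1020054732 13421774 (corT true 1 c0B cA102E gB0q1 gB2q0 gB1q2 gB2q2 true true)) t 1 226 1 = true :=
  ex3_b A102E_021_1_452_1 A102E_021_1_453_1
theorem A102E_021_1_113_1 :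
    ∃ t, chk3 (onCell 0 16777216 0 1073741824 1020054732 13421774 (corT true 1 c0B cA102E gB0q1 gB2q0 gB1q2 gB2q2 true true)) t 1 113 1 = true :=
  ex3_b A102E_021_1_226_1 A102E_021_1_227_1
theorem A102E_021_1_112_1 :
    ∃ t, chk3 (onCell 0 16777216 0 1073741824 1020054732 13421774 (corT true 1 c0B cA102E gB0q1 gB2q0 gB1q2 gB2q2 true true)) t 1 112 1 = true :=
  ex3_b A102E_021_1_224_1 A102E_021_1_225_1
theorem A102E_021_1_56_1 :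
    ∃ t, chk3 (onCell 0 16777216 0 1073741824 1020054732 13421774 (corT true 1 c0B cA102E gB0q1 gB2q0 gB1q2 gB2q2 true true)) t 1 56 1 = true :=
  ex3_b A102E_021_1_112_1 A102E_021_1_113_1
theorem A102E_021_1_28_1 :
    ∃ t, chk3 (onCell 0 16777216 0 1073741824 1020054732 13421774 (corT true 1 c0B cA102E gB0q1 gB2q0 gB1q2 gB2q2 true true)) t 1 28 1 = true :=
  ex3_b A102E_021_1_56_1 A102E_021_1_57_1
theorem A102E_021_1_14_1 :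
    ∃ t, chk3 (onCell 0 16777216 0 1073741824 1020054732 13421774 (corT true 1 c0B cA102E gB0q1 gB2q0 gB1q2 gB2q2 true true)) t 1 14 1 = true :=
  ex3_b A102E_021_1_28_1 A102E_021_1_29_1
theorem A102E_021_1_7_1 :
    ∃ t, chk3 (onCell 0 16777216 0 1073741824 1020054732 13421774 (corT true 1 c0B cA102E gB0q1 gB2q0 gB1q2 gB2q2 true true)) t 1 7 1 = true :=
  ex3_b A102E_021_1_14_1 A102E_021_1_15_1
theorem A102E_021_1_27_1 :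
    ∃ t, chk3 (onCell 0 16777216 0 1073741824 1020054732 13421774 (corT true 1 c0B cA102E gB0q1 gB2q0 gB1q2 gB2q2 true true)) t 1 27 1 = true :=
  ex3_b A102E_021_1_54_1 A102E_021_1_55_1
theorem A102E_021_1_13_1 :
    ∃ t, chk3 (onCell 0 16777216 0 1073741824 1020054732 13421774 (corT true 1 c0B cA102E gB0q1 gB2q0 gB1q2 gB2q2 true true)) t 1 13 1 = true :=
  ex3_b A102E_021_1_26_1 A102E_021_1_27_1
theorem A102E_021_1_6_1 :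
    ∃ t, chk3 (onCell 0 16777216 0 1073741824 1020054732 13421774 (corT true 1 c0B cA102E gB0q1 gB2q0 gB1q2 gB2q2 true true)) t 1 6 1 = true :=
  ex3_b A102E_021_1_12_1 A102E_021_1_13_1
theorem A102E_021_1_3_1 :
    ∃ t, chk3 (onCell 0 16777216 0 1073741824 1020054732 13421774 (corT true 1 c0B cA102E gB0q1 gB2q0 gB1q2 gB2q2 true true)) t 1 3 1 = true :=
  ex3_b A102E_021_1_6_1 A102E_021_1_7_1
theorem A102E_021 :
    ∃ t, chk3 (onCell 0 16777216 0 1073741824 1020054732 13421774 (corT true 1 c0B cA102E gB0q1 gB2q0 gB1q2 gB2q2 true true)) t 1 1 1 = true :=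
  ex3_b A102E_021_1_2_1 A102E_021_1_3_1

def A102E_022_1_2_1 :
    ∃ t, chk3 (onCell 0 16777216 0 1073741824 1020054732 13421774 (corT true 1 c0B cA102E gB0q1 gB2q0 gB2q2 gB3q2 true false)) t 1 2 1 = true :=
  ⟨(T.a (T.a (T.l 0) (T.l 0)) (T.l 0)), by decide +kernel⟩

def A102E_022_1_12_1 :
    ∃ t, chk3 (onCell 0 16777216 0 1073741824 1020054732 13421774 (corT true 1 c0B cA102E gB0q1 gB2q0 gB2q2 gB3q2 true false)) t 1 12 1 = true :=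
  ⟨(T.a (T.a (T.l 204) (T.l 0)) (T.l 0)), by decide +kernel⟩

def A102E_022_1_26_1 :
    ∃ t, chk3 (onCell 0 16777216 0 1073741824 1020054732 13421774 (corT true 1 c0B cA102E gB0q1 gB2q0 gB2q2 gB3q2 true false)) t 1 26 1 = true :=
  ⟨(T.b (T.a (T.a (T.l 204) (T.l 0)) (T.a (T.l 0) (T.l 0))) (T.b (T.b (T.a (T.a (T.l 204) (T.l 0)) (T.a (T.l 0) (T.l 0))) (T.b (T.b (T.a (T.a (T.l 204) (T.l 0)) (T.a (T.l 0) (T.l 0))) (T.a (T.a (T.l 204) (T.l 0)) (T.a (T.l 0) (T.l 0)))) (T.b (T.a (T.a (T.l 204) (T.l 0)) (T.a (T.l 0) (T.l 0))) (T.a (T.a (T.l 204) (T.l 0)) (T.a (T.l 0) (T.l 0)))))) (T.b (T.b (T.b (T.a (T.a (T.l 204) (T.l 0)) (T.a (T.l 0) (T.l 0))) (T.a (T.a (T.l 204) (T.l 0)) (T.a (T.l 0) (T.l 0)))) (T.b (T.a (T.a (T.l 204) (T.l 0)) (T.a (T.l 0) (T.l 0))) (T.a (T.a (T.l 204) (T.l 0)) (T.a (T.l 0) (T.l 0))))) (T.b (T.b (T.a (T.a (T.l 204) (T.c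 (T.l 0) (T.l 0))) (T.a (T.l 0) (T.l 0))) (T.a (T.a (T.l 204) (T.c (T.l 0) (T.l 0))) (T.a (T.l 0) (T.l 0)))) (T.b (T.a (T.a (T.l 204) (T.c (T.l 0) (T.l 0))) (T.a (T.l 0) (T.l 0))) (T.a (T.a (T.l 204) (T.c (T.l 0) (T.l 0))) (T.a (T.l 0) (T.l 0)))))))), by decide +kernel⟩

def A102E_022_1_27_1 :
    ∃ t, chk3 (onCell 0 16777216 0 1073741824 1020054732 13421774 (corT true 1 c0B cA102E gB0q1 gB2q0 gB2q2 gB3q2 true false)) t 1 27 1 = true :=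
  ⟨(T.b (T.b (T.b (T.b (T.b (T.a (T.a (T.l 204) (T.c (T.l 0) (T.l 0))) (T.a (T.l 0) (T.l 0))) (T.a (T.a (T.l 204) (T.c (T.l 0) (T.l 0))) (T.a (T.l 0) (T.l 0)))) (T.b (T.a (T.a (T.l 204) (T.a (T.l 204) (T.l 204))) (T.a (T.l 0) (T.l 0))) (T.a (T.a (T.l 204) (T.a (T.l 204) (T.l 204))) (T.a (T.l 0) (T.l 0))))) (T.b (T.b (T.a (T.a (T.l 204) (T.a (T.l 204) (T.l 204))) (T.a (T.l 0) (T.l 0))) (T.a (T.a (T.l 204) (T.a (T.l 204) (T.l 204))) (T.a (T.l 0) (T.l 0)))) (T.b (T.a (T.a (T.l 204) (T.a (T.l 204) (T.l 0))) (T.a (T.l 0) (T.l 0))) (T.a (T.a (T.l 204) (T.a (T.l 204) (T.l 0))) (T.a (T.l 0) (T.l 0)))))) (T.b (T.b (T.b (T.a (T.a (T.l 204) (T.a (T.l 204) (T.l 0))) (T.a (T.l 0) (T.l 0))) (T.a (T.a (T.l 204) (T.a (T.l 204) (T.l 0))) (T.a (T.l 0) (T.l 0)))) (T.b (T.a (T.a (T.l 204) (T.a (T.l 204) (T.l 0))) (T.a (T.l 0) (T.l 0))) (T.a (T.a (T.l 204)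 (T.a (T.l 204) (T.l 0))) (T.a (T.l 0) (T.l 0))))) (T.b (T.b (T.a (T.a (T.l 204) (T.a (T.l 204) (T.l 0))) (T.a (T.l 0) (T.l 0))) (T.a (T.a (T.l 204) (T.a (T.l 204) (T.l 0))) (T.a (T.l 0) (T.l 1)))) (T.l 1)))) (T.l 1)), by decide +kernel⟩

def A102E_022_1_7_1 :
    ∃ t, chk3 (onCell 0 16777216 0 1073741824 1020054732 13421774 (corT true 1 c0B cA102E gB0q1 gB2q0 gB2q2 gB3q2 true false)) t 1 7 1 = true :=
  ⟨(T.l 1), by decide +kernel⟩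

theorem A102E_022_1_13_1 :
    ∃ t, chk3 (onCell 0 16777216 0 1073741824 1020054732 13421774 (corT true 1 c0B cA102E gB0q1 gB2q0 gB2q2 gB3q2 true false)) t 1 13 1 = true :=
  ex3_b A102E_022_1_26_1 A102E_022_1_27_1
theorem A102E_022_1_6_1 :
    ∃ t, chk3 (onCell 0 16777216 0 1073741824 1020054732 13421774 (corT true 1 c0B cA102E gB0q1 gB2q0 gB2q2 gB3q2 true false)) t 1 6 1 = true :=
  ex3_b A102E_022_1_12_1 A102E_022_1_13_1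
theorem A102E_022_1_3_1 :
    ∃ t, chk3 (onCell 0 16777216 0 1073741824 1020054732 13421774 (corT true 1 c0B cA102E gB0q1 gB2q0 gB2q2 gB3q2 true false)) t 1 3 1 = true :=
  ex3_b A102E_022_1_6_1 A102E_022_1_7_1
theorem A102E_022 :
    ∃ t, chk3 (onCell 0 16777216 0 1073741824 1020054732 13421774 (corT true 1 c0B cA102E gB0q1 gB2q0 gB2q2 gB3q2 true false)) t 1 1 1 = true :=
  ex3_b A102E_022_1_2_1 A102E_022_1_3_1

def A102R_004 :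
    ∃ t, chk3 (onCell 0 38347922 0 1073741824 1020054732 13421774 (corT true 1 c0B cA102R gB0q1 gB0q0 gB4q2 gB5q2 false true)) t 1 1 1 = true :=
  ⟨(T.l 2), by decide +kernel⟩

def A102R_014 :
    ∃ t, chk3 (onCell 0 38347922 0 1073741824 1020054732 13421774 (corT true 1 c0B cA102R gB0q1 gB1q0 gB4q2 gB5q2 false true)) t 1 1 1 = true :=
  ⟨(T.l 2), by decide +kernel⟩

def A102R_024 :
    ∃ t, chk3 (onCell 0 38347922 0 1073741824 1020054732 13421774 (corT true 1 c0B cA102R gB0q1 gB2q0 gB4q2 gB5q2 false true)) t 1 1 1 = true :=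
  ⟨(T.l 2), by decide +kernel⟩

def A202E_000 :
    ∃ t, chk3 (onCell 0 33554432 0 1073741824 1020054732 13421774 (corT true 1 c0B cA202E gB0q2 gB0q0 gB0q2 gB1q2 true true)) t 1 1 1 = true :=
  ⟨(T.l 2), by decide +kernel⟩

def A202E_001 :
    ∃ t, chk3 (onCell 0 33554432 0 1073741824 1020054732 13421774 (corT true 1 c0B cA202E gB0q2 gB0q0 gB1q2 gB2q2 true true)) t 1 1 1 = true :=
  ⟨(T.l 2), by decide +kernel⟩

def A202E_002_1_2_1 :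
    ∃ t, chk3 (onCell 0 33554432 0 1073741824 1020054732 13421774 (corT true 1 c0B cA202E gB0q2 gB0q0 gB2q2 gB3q2 true false)) t 1 2 1 = true :=
  ⟨(T.a (T.l 0) (T.b (T.a (T.l 0) (T.l 0)) (T.b (T.a (T.l 0) (T.b (T.l 0) (T.l 0))) (T.a (T.b (T.l 0) (T.l 0)) (T.b (T.l 0) (T.l 0)))))), by decide +kernel⟩

def A202E_002_1_6_1 :
    ∃ t, chk3 (onCell 0 33554432 0 1073741824 1020054732 13421774 (corT true 1 c0B cA202E gB0q2 gB0q0 gB2q2 gB3q2 true false)) t 1 6 1 = true :=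
  ⟨(T.b (T.a (T.a (T.l 816) (T.a (T.l 816) (T.b (T.l 816) (T.l 816)))) (T.a (T.a (T.l 816) (T.l 816)) (T.a (T.l 816) (T.l 816)))) (T.a (T.a (T.l 816) (T.a (T.l 816) (T.b (T.l 816) (T.l 816)))) (T.a (T.a (T.b (T.l 816) (T.l 816)) (T.b (T.l 816) (T.l 816))) (T.a (T.b (T.l 816) (T.l 816)) (T.b (T.l 816) (T.l 816)))))), by decide +kernel⟩

def A202E_002_1_14_1 :
    ∃ t, chk3 (onCell 0 33554432 0 1073741824 1020054732 13421774 (corT true 1 c0B cA202E gB0q2 gB0q0 gB2q2 gB3q2 true false)) t 1 14 1 = true :=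
  ⟨(T.a (T.a (T.l 816) (T.a (T.a (T.l 816) (T.b (T.l 816) (T.l 880))) (T.a (T.b (T.l 816) (T.l 816)) (T.b (T.l 816) (T.l 816))))) (T.a (T.a (T.b (T.l 816) (T.b (T.l 816) (T.l 816))) (T.b (T.l 816) (T.b (T.l 816) (T.l 816)))) (T.a (T.b (T.l 816) (T.b (T.l 816) (T.l 816))) (T.b (T.l 816) (T.b (T.l 816) (T.l 816)))))), by decide +kernel⟩

def A202E_002_2_15_1 :
    ∃ t, chk3 (onCell 0 33554432 0 1073741824 1020054732 13421774 (corT true 1 c0B cA202E gB0q2 gB0q0 gB2q2 gB3q2 true false)) t 2 15 1 = true :=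
  ⟨(T.a (T.a (T.c (T.a (T.l 816) (T.l 816)) (T.l 816)) (T.c (T.a (T.l 816) (T.b (T.l 816) (T.l 816))) (T.l 816))) (T.a (T.a (T.b (T.l 816) (T.b (T.l 816) (T.a (T.l 816) (T.a (T.l 816) (T.a (T.l 816) (T.l 816)))))) (T.b (T.a (T.l 816) (T.l 816)) (T.a (T.b (T.l 816) (T.c (T.b (T.l 816) (T.a (T.l 816) (T.l 816))) (T.l 816))) (T.b (T.l 816) (T.c (T.b (T.l 816) (T.a (T.l 816) (T.l 816))) (T.l 816)))))) (T.a (T.b (T.b (T.l 816) (T.l 880)) (T.a (T.b (T.l 816) (T.b (T.l 816) (T.c (T.a (T.l 816) (T.l 816)) (T.l 816)))) (T.b (T.l 816) (T.b (T.l 816) (T.a (T.l 816) (T.l 816)))))) (T.b (T.b (T.l 816) (T.l 816)) (T.b (T.a (T.l 816) (T.l 816)) (T.a (T.c (T.a (T.l 816) (T.l 816)) (T.l 816)) (T.a (T.b (T.l 816) (T.l 816)) (T.l 816)))))))), by decide +kernel⟩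

def A202E_002_3_15_1 :
    ∃ t, chk3 (onCell 0 33554432 0 1073741824 1020054732 13421774 (corT true 1 c0B cA202E gB0q2 gB0q0 gB2q2 gB3q2 true false)) t 3 15 1 = true :=
  ⟨(T.a (T.a (T.b (T.a (T.b (T.l 816) (T.l 816)) (T.b (T.l 816) (T.l 816))) (T.a (T.b (T.b (T.l 816) (T.l 816)) (T.a (T.a (T.l 816) (T.l 816)) (T.b (T.l 816) (T.l 816)))) (T.b (T.b (T.l 816) (T.l 816)) (T.a (T.b (T.l 816) (T.l 816)) (T.a (T.l 816) (T.b (T.l 816) (T.l 816))))))) (T.b (T.a (T.b (T.l 816) (T.l 816)) (T.b (T.l 816) (T.l 816))) (T.a (T.b (T.b (T.l 816) (T.l 816)) (T.a (T.c (T.l 816) (T.b (T.l 816) (T.l 816))) (T.c (T.l 816) (T.b (T.l 816) (T.l 816))))) (T.b (T.c (T.l 816) (T.l 816)) (T.a (T.c (T.l 816) (T.b (T.l 816) (T.l 816))) (T.c (T.l 816) (T.b (T.l 816) (T.l 816)))))))) (T.a (T.b (T.a (T.b (T.l 816) (T.l 816)) (T.b (T.l 816) (T.l 816))) (T.a (T.b (T.c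 (T.l 816) (T.l 816)) (T.c (T.b (T.l 816) (T.l 816)) (T.b (T.l 816) (T.a (T.l 816) (T.l 816))))) (T.b (T.b (T.l 816) (T.l 816)) (T.c (T.l 816) (T.a (T.l 816) (T.l 816)))))) (T.b (T.a (T.b (T.l 816) (T.l 816)) (T.b (T.l 816) (T.l 816))) (T.a (T.b (T.b (T.l 816) (T.l 816)) (T.c (T.l 816) (T.b (T.l 816) (T.l 816)))) (T.c (T.l 816) (T.a (T.b (T.l 816) (T.l 816)) (T.l 816))))))), by decide +kernel⟩

theorem A202E_002_1_15_1 :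
    ∃ t, chk3 (onCell 0 33554432 0 1073741824 1020054732 13421774 (corT true 1 c0B cA202E gB0q2 gB0q0 gB2q2 gB3q2 true false)) t 1 15 1 = true :=
  ex3_a A202E_002_2_15_1 A202E_002_3_15_1
theorem A202E_002_1_7_1 :
    ∃ t, chk3 (onCell 0 33554432 0 1073741824 1020054732 13421774 (corT true 1 c0B cA202E gB0q2 gB0q0 gB2q2 gB3q2 true false)) t 1 7 1 = true :=
  ex3_b A202E_002_1_14_1 A202E_002_1_15_1
theorem A202E_002_1_3_1 :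
    ∃ t, chk3 (onCell 0 33554432 0 1073741824 1020054732 13421774 (corT true 1 c0B cA202E gB0q2 gB0q0 gB2q2 gB3q2 true false)) t 1 3 1 = true :=
  ex3_b A202E_002_1_6_1 A202E_002_1_7_1
theorem A202E_002 :
    ∃ t, chk3 (onCell 0 33554432 0 1073741824 1020054732 13421774 (corT true 1 c0B cA202E gB0q2 gB0q0 gB2q2 gB3q2 true false)) t 1 1 1 = true :=
  ex3_b A202E_002_1_2_1 A202E_002_1_3_1

def A202E_010 :
    ∃ t, chk3 (onCell 0 33554432 0 1073741824 1020054732 13421774 (corT true 1 c0B cA202E gB0q2 gB1q0 gB0q2 gB1q2 true true)) t 1 1 1 = true :=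
  ⟨(T.l 2), by decide +kernel⟩

def A202E_011 :
    ∃ t, chk3 (onCell 0 33554432 0 1073741824 1020054732 13421774 (corT true 1 c0B cA202E gB0q2 gB1q0 gB1q2 gB2q2 true true)) t 1 1 1 = true :=
  ⟨(T.l 2), by decide +kernel⟩

def A202E_012_1_2_1 :
    ∃ t, chk3 (onCell 0 33554432 0 1073741824 1020054732 13421774 (corT true 1 c0B cA202E gB0q2 gB1q0 gB2q2 gB3q2 true false)) t 1 2 1 = true :=
  ⟨(T.b (T.a (T.a (T.a (T.l 0) (T.b (T.l 0) (T.l 0))) (T.b (T.l 0) (T.l 0))) (T.a (T.l 0) (T.l 0))) (T.b (T.a (T.a (T.l 0) (T.l 0)) (T.a (T.l 0) (T.l 64))) (T.a (T.a (T.l 816) (T.l 0)) (T.a (T.b (T.l 0) (T.l 0)) (T.b (T.l 0) (T.l 0)))))), by decide +kernel⟩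

def A202E_012_1_6_1 :
    ∃ t, chk3 (onCell 0 33554432 0 1073741824 1020054732 13421774 (corT true 1 c0B cA202E gB0q2 gB1q0 gB2q2 gB3q2 true false)) t 1 6 1 = true :=
  ⟨(T.b (T.a (T.a (T.l 816) (T.a (T.l 816) (T.b (T.l 816) (T.l 816)))) (T.a (T.a (T.l 816) (T.l 816)) (T.b (T.l 0) (T.l 816)))) (T.a (T.a (T.l 816) (T.a (T.l 816) (T.b (T.l 816) (T.l 816)))) (T.a (T.a (T.b (T.l 816) (T.l 816)) (T.b (T.l 816) (T.l 816))) (T.a (T.b (T.l 816) (T.l 816)) (T.b (T.l 816) (T.l 816)))))), by decide +kernel⟩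

def A202E_012_1_14_1 :
    ∃ t, chk3 (onCell 0 33554432 0 1073741824 1020054732 13421774 (corT true 1 c0B cA202E gB0q2 gB1q0 gB2q2 gB3q2 true false)) t 1 14 1 = true :=
  ⟨(T.a (T.a (T.l 816) (T.a (T.a (T.l 816) (T.b (T.l 816) (T.l 816))) (T.a (T.b (T.l 816) (T.l 816)) (T.l 816)))) (T.a (T.a (T.b (T.l 816) (T.l 816)) (T.b (T.l 816) (T.l 816))) (T.b (T.a (T.l 816) (T.l 816)) (T.a (T.l 816) (T.l 816))))), by decide +kernel⟩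

def A202E_012_1_15_1 :
    ∃ t, chk3 (onCell 0 33554432 0 1073741824 1020054732 13421774 (corT true 1 c0B cA202E gB0q2 gB1q0 gB2q2 gB3q2 true false)) t 1 15 1 = true :=
  ⟨(T.a (T.a (T.a (T.c (T.a (T.l 816) (T.l 816)) (T.l 816)) (T.c (T.a (T.l 816) (T.b (T.l 816) (T.l 816))) (T.l 816))) (T.a (T.a (T.b (T.l 816) (T.b (T.l 816) (T.a (T.l 816) (T.a (T.l 816) (T.a (T.l 816) (T.l 816)))))) (T.b (T.b (T.l 816) (T.l 816)) (T.a (T.b (T.l 816) (T.b (T.l 816) (T.c (T.a (T.l 816) (T.l 816)) (T.l 816)))) (T.b (T.l 816) (T.b (T.l 816) (T.c (T.a (T.l 816) (T.l 816)) (T.l 816))))))) (T.a (T.b (T.b (T.l 816) (T.l 816)) (T.b (T.b (T.l 816) (T.l 880)) (T.a (T.b (T.l 816) (T.c (T.a (T.l 816) (T.l 816)) (T.l 816))) (T.c (T.a (T.l 816) (T.l 816)) (T.l 816))))) (T.b (T.l 816) (T.b (T.b (T.l 816) (T.l 816)) (T.a (T.c (T.b (T.l 816) (T.l 816)) (T.l 816)) (T.a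 (T.b (T.l 816) (T.l 816)) (T.l 816)))))))) (T.a (T.a (T.b (T.a (T.l 816) (T.l 816)) (T.a (T.b (T.l 816) (T.a (T.a (T.l 816) (T.l 816)) (T.b (T.l 816) (T.l 816)))) (T.b (T.l 816) (T.a (T.b (T.l 816) (T.l 816)) (T.c (T.l 816) (T.b (T.l 816) (T.l 816))))))) (T.b (T.a (T.l 816) (T.l 816)) (T.a (T.b (T.l 816) (T.a (T.c (T.l 816) (T.b (T.l 816) (T.l 816))) (T.c (T.l 816) (T.b (T.l 816) (T.l 816))))) (T.b (T.b (T.l 816) (T.l 816)) (T.a (T.c (T.l 816) (T.b (T.l 816) (T.l 816))) (T.c (T.l 816) (T.b (T.l 816) (T.l 816)))))))) (T.a (T.b (T.a (T.l 816) (T.l 816)) (T.a (T.b (T.l 880) (T.c (T.b (T.l 816) (T.l 816)) (T.b (T.l 816) (T.a (T.l 816) (T.l 816))))) (T.b (T.l 816) (T.c (T.l 816) (T.a (T.l 816) (T.l 816)))))) (T.b (T.a (T.l 816) (T.l 816)) (T.a (T.b (T.l 816) (T.c (T.l 816) (T.b (T.l 816) (T.l 816)))) (T.b (T.l 816) (T.c (T.l 816) (T.b (T.l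 816) (T.l 816))))))))), by decide +kernel⟩

theorem A202E_012_1_7_1 :
    ∃ t, chk3 (onCell 0 33554432 0 1073741824 1020054732 13421774 (corT true 1 c0B cA202E gB0q2 gB1q0 gB2q2 gB3q2 true false)) t 1 7 1 = true :=
  ex3_b A202E_012_1_14_1 A202E_012_1_15_1
theorem A202E_012_1_3_1 :
    ∃ t, chk3 (onCell 0 33554432 0 1073741824 1020054732 13421774 (corT true 1 c0B cA202E gB0q2 gB1q0 gB2q2 gB3q2 true false)) t 1 3 1 = true :=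
  ex3_b A202E_012_1_6_1 A202E_012_1_7_1
theorem A202E_012 :
    ∃ t, chk3 (onCell 0 33554432 0 1073741824 1020054732 13421774 (corT true 1 c0B cA202E gB0q2 gB1q0 gB2q2 gB3q2 true false)) t 1 1 1 = true :=
  ex3_b A202E_012_1_2_1 A202E_012_1_3_1

def A202E_020 :
    ∃ t, chk3 (onCell 0 33554432 0 1073741824 1020054732 13421774 (corT true 1 c0B cA202E gB0q2 gB2q0 gB0q2 gB1q2 true true)) t 1 1 1 = true :=
  ⟨(T.l 2), by decide +kernel⟩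

def A202E_021 :
    ∃ t, chk3 (onCell 0 33554432 0 1073741824 1020054732 13421774 (corT true 1 c0B cA202E gB0q2 gB2q0 gB1q2 gB2q2 true true)) t 1 1 1 = true :=
  ⟨(T.l 2), by decide +kernel⟩

def A202E_022_1_2_1 :
    ∃ t, chk3 (onCell 0 33554432 0 1073741824 1020054732 13421774 (corT true 1 c0B cA202E gB0q2 gB2q0 gB2q2 gB3q2 true false)) t 1 2 1 = true :=
  ⟨(T.b (T.a (T.a (T.a (T.l 0) (T.b (T.l 0) (T.l 0))) (T.b (T.l 0) (T.l 0))) (T.a (T.l 0) (T.l 0))) (T.b (T.a (T.a (T.l 0) (T.l 0)) (T.a (T.l 0) (T.l 0))) (T.a (T.a (T.l 816) (T.l 0)) (T.a (T.b (T.l 0) (T.l 0)) (T.l 0))))), by decide +kernel⟩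

def A202E_022_1_6_1 :
    ∃ t, chk3 (onCell 0 33554432 0 1073741824 1020054732 13421774 (corT true 1 c0B cA202E gB0q2 gB2q0 gB2q2 gB3q2 true false)) t 1 6 1 = true :=
  ⟨(T.b (T.a (T.a (T.l 816) (T.a (T.l 816) (T.l 816))) (T.a (T.b (T.l 816) (T.l 816)) (T.b (T.l 0) (T.l 816)))) (T.a (T.a (T.l 816) (T.a (T.l 816) (T.l 816))) (T.a (T.a (T.b (T.l 816) (T.l 816)) (T.l 816)) (T.b (T.l 816) (T.l 816))))), by decide +kernel⟩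

def A202E_022_1_14_1 :
    ∃ t, chk3 (onCell 0 33554432 0 1073741824 1020054732 13421774 (corT true 1 c0B cA202E gB0q2 gB2q0 gB2q2 gB3q2 true false)) t 1 14 1 = true :=
  ⟨(T.a (T.a (T.l 816) (T.a (T.a (T.l 816) (T.l 816)) (T.b (T.l 816) (T.l 816)))) (T.a (T.a (T.b (T.l 816) (T.l 816)) (T.b (T.l 816) (T.l 816))) (T.b (T.b (T.l 816) (T.l 816)) (T.a (T.l 816) (T.l 816))))), by decide +kernel⟩

def A202E_022_1_15_1 :
    ∃ t, chk3 (onCell 0 33554432 0 1073741824 1020054732 13421774 (corT true 1 c0B cA202E gB0q2 gB2q0 gB2q2 gB3q2 true false)) t 1 15 1 = true :=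
  ⟨(T.a (T.a (T.b (T.l 816) (T.c (T.b (T.l 816) (T.a (T.a (T.l 816) (T.l 816)) (T.a (T.l 816) (T.l 816)))) (T.b (T.l 816) (T.l 816)))) (T.a (T.a (T.b (T.l 816) (T.b (T.l 816) (T.a (T.l 816) (T.a (T.l 816) (T.a (T.l 816) (T.l 816)))))) (T.b (T.l 816) (T.b (T.b (T.l 816) (T.l 816)) (T.a (T.b (T.l 816) (T.c (T.a (T.l 816) (T.l 816)) (T.l 816))) (T.b (T.l 816) (T.c (T.a (T.l 816) (T.l 816)) (T.l 816))))))) (T.b (T.a (T.l 816) (T.l 816)) (T.a (T.b (T.l 816) (T.a (T.b (T.l 816) (T.a (T.b (T.l 816) (T.l 816)) (T.l 816))) (T.c (T.a (T.l 816) (T.l 816)) (T.l 816)))) (T.b (T.l 816) (T.b (T.l 816) (T.a (T.c (T.l 816) (T.l 816)) (T.c (T.l 816) (T.l 816))))))))) (T.a (T.a (T.b (T.b (T.l 816) (T.l 816)) (T.a (T.b (T.l 816) (T.b (T.l 816) (T.a (T.b (T.l 816) (T.l 816)) (T.l 816)))) (T.b (T.l 816) (T.b (T.l 816) (T.a (T.l 816) (T.b (T.l 816) (T.l 816)))))))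 (T.b (T.b (T.l 816) (T.l 816)) (T.a (T.b (T.l 816) (T.b (T.l 816) (T.a (T.c (T.l 816) (T.l 816)) (T.c (T.l 816) (T.l 816))))) (T.b (T.l 816) (T.b (T.l 816) (T.c (T.c (T.l 816) (T.l 816)) (T.a (T.l 816) (T.l 816)))))))) (T.a (T.b (T.b (T.l 816) (T.l 816)) (T.a (T.b (T.l 816) (T.b (T.l 816) (T.c (T.l 816) (T.a (T.l 816) (T.l 816))))) (T.b (T.l 816) (T.c (T.l 816) (T.a (T.l 816) (T.l 816)))))) (T.b (T.b (T.l 816) (T.l 816)) (T.a (T.b (T.l 816) (T.c (T.l 816) (T.b (T.l 816) (T.l 816)))) (T.b (T.l 816) (T.c (T.l 816) (T.b (T.l 816) (T.l 816))))))))), by decide +kernel⟩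

theorem A202E_022_1_7_1 :
    ∃ t, chk3 (onCell 0 33554432 0 1073741824 1020054732 13421774 (corT true 1 c0B cA202E gB0q2 gB2q0 gB2q2 gB3q2 true false)) t 1 7 1 = true :=
  ex3_b A202E_022_1_14_1 A202E_022_1_15_1
theorem A202E_022_1_3_1 :
    ∃ t, chk3 (onCell 0 33554432 0 1073741824 1020054732 13421774 (corT true 1 c0B cA202E gB0q2 gB2q0 gB2q2 gB3q2 true false)) t 1 3 1 = true :=
  ex3_b A202E_022_1_6_1 A202E_022_1_7_1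
theorem A202E_022 :
    ∃ t, chk3 (onCell 0 33554432 0 1073741824 1020054732 13421774 (corT true 1 c0B cA202E gB0q2 gB2q0 gB2q2 gB3q2 true false)) t 1 1 1 = true :=
  ex3_b A202E_022_1_2_1 A202E_022_1_3_1

def A202E_110 :
    ∃ t, chk3 (onCell 0 33554432 0 1073741824 1020054732 13421774 (corT true 1 c0B cA202E gB1q2 gB1q0 gB0q2 gB1q2 true true)) t 1 1 1 = true :=
  ⟨(T.l 2), by decide +kernel⟩

def A202E_111 :
    ∃ t, chk3 (onCell 0 33554432 0 1073741824 1020054732 13421774 (corT true 1 c0B cA202E gB1q2 gB1q0 gB1q2 gB2q2 true true)) t 1 1 1 = true :=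
  ⟨(T.l 2), by decide +kernel⟩

def A202E_112 :
    ∃ t, chk3 (onCell 0 33554432 0 1073741824 1020054732 13421774 (corT true 1 c0B cA202E gB1q2 gB1q0 gB2q2 gB3q2 true false)) t 1 1 1 = true :=
  ⟨(T.b (T.b (T.a (T.a (T.a (T.l 0) (T.b (T.l 0) (T.l 0))) (T.b (T.l 0) (T.l 0))) (T.a (T.l 0) (T.l 0))) (T.a (T.a (T.l 0) (T.b (T.l 0) (T.l 0))) (T.a (T.l 0) (T.l 0)))) (T.b (T.a (T.a (T.l 816) (T.b (T.l 0) (T.l 816))) (T.a (T.b (T.l 0) (T.l 816)) (T.b (T.l 0) (T.l 816)))) (T.a (T.a (T.l 816) (T.l 816)) (T.b (T.a (T.l 816) (T.b (T.l 816) (T.l 816))) (T.a (T.l 816) (T.a (T.l 816) (T.b (T.l 816) (T.l 816)))))))), by decide +kernel⟩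

def A202E_120 :
    ∃ t, chk3 (onCell 0 33554432 0 1073741824 1020054732 13421774 (corT true 1 c0B cA202E gB1q2 gB2q0 gB0q2 gB1q2 true true)) t 1 1 1 = true :=
  ⟨(T.l 2), by decide +kernel⟩

def A202E_121 :
    ∃ t, chk3 (onCell 0 33554432 0 1073741824 1020054732 13421774 (corT true 1 c0B cA202E gB1q2 gB2q0 gB1q2 gB2q2 true true)) t 1 1 1 = true :=
  ⟨(T.l 2), by decide +kernel⟩

def A202E_122 :
    ∃ t, chk3 (onCell 0 33554432 0 1073741824 1020054732 13421774 (corT true 1 c0B cA202E gB1q2 gB2q0 gB2q2 gB3q2 true false)) t 1 1 1 = true :=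
  ⟨(T.b (T.b (T.a (T.a (T.a (T.l 0) (T.b (T.l 0) (T.l 0))) (T.b (T.l 0) (T.l 0))) (T.b (T.l 0) (T.l 0))) (T.a (T.a (T.l 0) (T.b (T.l 0) (T.l 0))) (T.a (T.b (T.l 0) (T.l 0)) (T.l 0)))) (T.b (T.a (T.a (T.l 816) (T.b (T.b (T.l 816) (T.l 816)) (T.l 816))) (T.b (T.a (T.l 816) (T.l 0)) (T.a (T.l 816) (T.l 816)))) (T.a (T.a (T.l 816) (T.l 816)) (T.b (T.a (T.l 816) (T.b (T.l 816) (T.l 816))) (T.a (T.l 816) (T.a (T.l 816) (T.b (T.l 816) (T.l 816)))))))), by decide +kernel⟩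

def A202E_220 :
    ∃ t, chk3 (onCell 0 38347922 0 1073741824 1020054732 13421774 (corT true 1 c0B cA202E gB2q2 gB2q0 gB0q2 gB1q2 true true)) t 1 1 1 = true :=
  ⟨(T.l 2), by decide +kernel⟩

def A202E_221 :
    ∃ t, chk3 (onCell 0 38347922 0 1073741824 1020054732 13421774 (corT true 1 c0B cA202E gB2q2 gB2q0 gB1q2 gB2q2 true true)) t 1 1 1 = true :=
  ⟨(T.l 2), by decide +kernel⟩

def A202E_222 :
    ∃ t, chk3 (onCell 0 38347922 0 1073741824 1020054732 13421774 (corT true 1 c0B cA202E gB2q2 gB2q0 gB2q2 gB3q2 true false)) t 1 1 1 = true :=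
  ⟨(T.b (T.b (T.a (T.a (T.a (T.l 0) (T.b (T.l 0) (T.l 0))) (T.b (T.l 0) (T.l 0))) (T.b (T.l 0) (T.l 0))) (T.a (T.a (T.l 0) (T.b (T.l 0) (T.l 0))) (T.a (T.l 0) (T.l 0)))) (T.b (T.a (T.a (T.l 0) (T.b (T.l 0) (T.l 816))) (T.b (T.b (T.l 0) (T.l 0)) (T.b (T.l 0) (T.l 0)))) (T.a (T.l 0) (T.b (T.b (T.l 0) (T.l 0)) (T.a (T.l 816) (T.l 0)))))), by decide +kernel⟩

end Pool.Agent.Strip051.G.I9500_9625.Tab.CG
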