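import Pool.Agent.Strip051.G.I9500_9625.Gn
import Pool.Agent.Strip051.PB.Corns
import Pool.Agent.Strip051.PB.CornW

/-! # Certificates of the aligned corners (generated) -/

set_option linter.all false

namespace Pool.Agent.Strip051.G.I9500_9625.Tab.CW

open Pool.Agent.Strip051.PB

def A102E_021_1_2_1 :
    ∃ t, chk3 (onCell 0 16777216 0 1073741824 1020054732 13421774 (corW 3 c0B eng mog cA102E gB0q1 gB2q0 gB1q2 gB2q2 dB0q1 dB2q0 dB1q2 dB2q2 true true)) t 1 2 1 = true :=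
  ⟨(T.l 2), by decide +kernel⟩

def A102E_021_1_12_1 :
    ∃ t, chk3 (onCell 0 16777216 0 1073741824 1020054732 13421774 (corW 3 c0B eng mog cA102E gB0q1 gB2q0 gB1q2 gB2q2 dB0q1 dB2q0 dB1q2 dB2q2 true true)) t 1 12 1 = true :=
  ⟨(T.l 2), by decide +kernel⟩

def A102E_021_1_26_1 :
    ∃ t, chk3 (onCell 0 16777216 0 1073741824 1020054732 13421774 (corW 3 c0B eng mog cA102E gB0q1 gB2q0 gB1q2 gB2q2 dB0q1 dB2q0 dB1q2 dB2q2 true true)) t 1 26 1 = true :=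
  ⟨(T.l 2), by decide +kernel⟩

def A102E_021_1_54_1 :
    ∃ t, chk3 (onCell 0 16777216 0 1073741824 1020054732 13421774 (corW 3 c0B eng mog cA102E gB0q1 gB2q0 gB1q2 gB2q2 dB0q1 dB2q0 dB1q2 dB2q2 true true)) t 1 54 1 = true :=
  ⟨(T.b (T.l 2) (T.b (T.l 2) (T.b (T.b (T.a (T.l 2) (T.a (T.l 0) (T.l 0))) (T.a (T.a (T.l 204) (T.c (T.l 0) (T.l 0))) (T.a (T.l 0) (T.l 0)))) (T.b (T.a (T.a (T.l 204) (T.c (T.l 0) (T.l 0))) (T.a (T.l 0) (T.l 0))) (T.a (T.a (T.l 204) (T.c (T.l 0) (T.l 0))) (T.a (T.l 0) (T.l 0))))))), by decide +kernel⟩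

def A102E_021_1_55_1 :
    ∃ t, chk3 (onCell 0 16777216 0 1073741824 1020054732 13421774 (corW 3 c0B eng mog cA102E gB0q1 gB2q0 gB1q2 gB2q2 dB0q1 dB2q0 dB1q2 dB2q2 true true)) t 1 55 1 = true :=
  ⟨(T.b (T.b (T.b (T.b (T.a (T.a (T.l 204) (T.a (T.l 204) (T.l 0))) (T.a (T.l 0) (T.l 0))) (T.a (T.a (T.l 204) (T.a (T.l 204) (T.l 0))) (T.a (T.l 0) (T.l 0)))) (T.b (T.a (T.a (T.l 204) (T.a (T.l 204) (T.l 0))) (T.a (T.l 0) (T.l 0))) (T.a (T.a (T.l 204) (T.a (T.l 0) (T.l 0))) (T.a (T.l 0) (T.l 0))))) (T.b (T.b (T.a (T.a (T.l 0) (T.a (T.l 0) (T.l 0))) (T.a (T.l 0) (T.l 0))) (T.a (T.a (T.l 0) (T.a (T.l 0) (T.l 0))) (T.a (T.l 0) (T.l 0)))) (T.b (T.a (T.a (T.l 0) (T.a (T.l 0) (T.l 0))) (T.a (T.l 0) (T.l 0))) (T.a (T.a (T.l 0) (T.a (T.l 0) (T.l 0))) (T.a (T.l 0) (T.l 0)))))) (T.b (T.b (T.b (T.a (T.a (T.l 0) (T.a (T.l 0)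 (T.l 0))) (T.a (T.l 0) (T.l 0))) (T.a (T.a (T.l 0) (T.a (T.l 0) (T.l 0))) (T.a (T.l 0) (T.l 0)))) (T.b (T.a (T.a (T.l 0) (T.a (T.l 0) (T.l 0))) (T.a (T.l 0) (T.l 0))) (T.a (T.a (T.l 0) (T.a (T.l 0) (T.l 0))) (T.a (T.l 0) (T.l 0))))) (T.b (T.b (T.a (T.a (T.l 0) (T.a (T.l 0) (T.l 0))) (T.a (T.l 0) (T.l 0))) (T.a (T.a (T.l 0) (T.a (T.l 0) (T.l 0))) (T.a (T.l 0) (T.l 0)))) (T.b (T.b (T.a (T.a (T.l 0) (T.a (T.l 0) (T.l 0))) (T.a (T.l 0) (T.l 0))) (T.a (T.a (T.l 0) (T.a (T.l 0) (T.l 0))) (T.a (T.l 0) (T.l 0)))) (T.b (T.a (T.a (T.l 0) (T.a (T.l 0) (T.l 0))) (T.a (T.l 0) (T.l 0))) (T.a (T.a (T.l 0) (T.a (T.l 0) (T.l 0))) (T.a (T.l 0) (T.l 0)))))))), by decide +kernel⟩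

def A102E_021_1_224_1 :
    ∃ t, chk3 (onCell 0 16777216 0 1073741824 1020054732 13421774 (corW 3 c0B eng mog cA102E gB0q1 gB2q0 gB1q2 gB2q2 dB0q1 dB2q0 dB1q2 dB2q2 true true)) t 1 224 1 = true :=
  ⟨(T.b (T.b (T.b (T.a (T.a (T.l 0) (T.a (T.l 0) (T.l 0))) (T.a (T.l 0) (T.l 0))) (T.a (T.a (T.l 0) (T.a (T.l 0) (T.l 0))) (T.a (T.l 0) (T.l 0)))) (T.b (T.a (T.a (T.l 0) (T.a (T.l 0) (T.l 0))) (T.a (T.l 0) (T.l 0))) (T.a (T.a (T.l 0) (T.a (T.l 0) (T.l 0))) (T.a (T.l 0) (T.l 0))))) (T.b (T.b (T.a (T.a (T.l 0) (T.a (T.l 0) (T.l 0))) (T.a (T.l 0) (T.l 0))) (T.b (T.a (T.a (T.l 0) (T.a (T.l 0) (T.l 0))) (T.a (T.l 0) (T.l 0))) (T.a (T.a (T.l 0) (T.a (T.l 0) (T.l 0))) (T.a (T.l 0) (T.l 0))))) (T.b (T.b (T.a (T.a (T.l 0) (T.a (T.l 0) (T.l 0))) (T.a (T.l 0) (T.l 0))) (T.a (T.a (T.l 0) (T.a (T.l 0) (T.l 0))) (T.a (T.l 0)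 (T.l 0)))) (T.b (T.a (T.a (T.l 0) (T.a (T.l 0) (T.l 0))) (T.a (T.l 0) (T.l 0))) (T.a (T.a (T.l 0) (T.a (T.l 0) (T.l 0))) (T.a (T.l 0) (T.l 0))))))), by decide +kernel⟩

def A102E_021_1_225_1 :
    ∃ t, chk3 (onCell 0 16777216 0 1073741824 1020054732 13421774 (corW 3 c0B eng mog cA102E gB0q1 gB2q0 gB1q2 gB2q2 dB0q1 dB2q0 dB1q2 dB2q2 true true)) t 1 225 1 = true :=
  ⟨(T.b (T.b (T.b (T.b (T.a (T.a (T.l 0) (T.a (T.l 0) (T.l 0))) (T.a (T.l 0) (T.l 0))) (T.a (T.a (T.l 0) (T.a (T.l 0) (T.l 0))) (T.a (T.l 0) (T.l 0)))) (T.b (T.a (T.a (T.l 0) (T.a (T.l 0) (T.l 0))) (T.a (T.l 0) (T.l 0))) (T.a (T.a (T.l 0) (T.a (T.l 0) (T.l 0))) (T.a (T.l 0) (T.l 0))))) (T.b (T.b (T.a (T.a (T.l 0) (T.a (T.l 0) (T.l 0))) (T.a (T.l 0) (T.l 0))) (T.a (T.a (T.l 0) (T.a (T.l 0) (T.l 0))) (T.a (T.l 0) (T.l 0)))) (T.b (T.a (T.a (T.l 0) (T.a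 (T.l 0) (T.l 0))) (T.a (T.l 0) (T.l 0))) (T.a (T.a (T.l 0) (T.a (T.l 0) (T.l 0))) (T.a (T.l 0) (T.l 0)))))) (T.b (T.b (T.b (T.a (T.a (T.l 0) (T.a (T.l 0) (T.l 0))) (T.a (T.l 0) (T.l 0))) (T.a (T.a (T.l 0) (T.a (T.l 0) (T.l 0))) (T.a (T.l 0) (T.l 0)))) (T.b (T.a (T.a (T.l 0) (T.a (T.l 0) (T.l 0))) (T.a (T.l 0) (T.l 0))) (T.a (T.a (T.l 0) (T.a (T.l 0) (T.l 0))) (T.a (T.l 0) (T.l 0))))) (T.b (T.b (T.a (T.a (T.l 0) (T.a (T.l 816) (T.l 0))) (T.a (T.l 0) (T.l 0))) (T.a (T.a (T.l 0) (T.a (T.l 816) (T.l 0))) (T.a (T.l 0) (T.l 128)))) (T.b (T.a (T.a (T.l 0) (T.a (T.l 816) (T.l 0))) (T.a (T.l 8) (T.l 128))) (T.a (T.a (T.l 0) (T.a (T.l 816) (T.l 0))) (T.a (T.l 8) (T.l 128))))))), by decide +kernel⟩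

def A102E_021_1_452_1 :
    ∃ t, chk3 (onCell 0 16777216 0 1073741824 1020054732 13421774 (corW 3 c0B eng mog cA102E gB0q1 gB2q0 gB1q2 gB2q2 dB0q1 dB2q0 dB1q2 dB2q2 true true)) t 1 452 1 = true :=
  ⟨(T.b (T.b (T.b (T.a (T.a (T.l 0) (T.a (T.l 816) (T.l 0))) (T.a (T.l 8) (T.l 128))) (T.a (T.a (T.l 0) (T.a (T.l 816) (T.l 0))) (T.a (T.l 8) (T.l 128)))) (T.b (T.a (T.a (T.l 0) (T.a (T.l 816) (T.l 0))) (T.a (T.c (T.l 0) (T.l 816)) (T.l 128))) (T.a (T.a (T.l 0) (T.a (T.l 816) (T.l 0))) (T.a (T.c (T.l 0) (T.l 816)) (T.c (T.l 0) (T.l 816)))))) (T.b (T.b (T.a (T.a (T.l 0) (T.a (T.l 816) (T.l 0))) (T.a (T.c (T.l 0) (T.l 816)) (T.c (T.l 0) (T.l 816)))) (T.a (T.a (T.l 0) (T.a (T.l 816) (T.l 0))) (T.a (T.c (T.l 0) (T.l 816)) (T.c (T.l 0) (T.l 816))))) (T.b (T.a (T.a (T.l 0) (T.a (T.l 816) (T.l 0))) (T.a (T.c (T.l 0) (T.l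 816)) (T.c (T.l 0) (T.l 816)))) (T.a (T.a (T.l 0) (T.a (T.l 816) (T.l 0))) (T.a (T.c (T.l 0) (T.l 816)) (T.c (T.l 0) (T.l 816))))))), by decide +kernel⟩

def A102E_021_1_453_1 :
    ∃ t, chk3 (onCell 0 16777216 0 1073741824 1020054732 13421774 (corW 3 c0B eng mog cA102E gB0q1 gB2q0 gB1q2 gB2q2 dB0q1 dB2q0 dB1q2 dB2q2 true true)) t 1 453 1 = true :=
  ⟨(T.b (T.b (T.b (T.a (T.a (T.l 0) (T.a (T.l 816) (T.l 0))) (T.a (T.c (T.l 0) (T.l 816)) (T.c (T.l 0) (T.l 816)))) (T.a (T.a (T.l 0) (T.a (T.l 816) (T.l 0))) (T.a (T.c (T.l 0) (T.l 816)) (T.c (T.l 0) (T.l 816))))) (T.b (T.a (T.a (T.l 0) (T.a (T.l 816) (T.l 0))) (T.a (T.c (T.l 0) (T.l 816)) (T.c (T.l 0) (T.l 816)))) (T.a (T.a (T.l 0) (T.a (T.l 816) (T.l 0))) (T.a (T.c (T.l 0) (T.l 816)) (T.c (T.l 0) (T.l 816)))))) (T.b (T.b (T.a (T.a (T.l 0) (T.a (T.l 816) (T.l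 0))) (T.a (T.c (T.l 0) (T.l 816)) (T.c (T.l 0) (T.l 816)))) (T.a (T.a (T.l 0) (T.a (T.l 816) (T.l 0))) (T.a (T.c (T.l 0) (T.l 816)) (T.c (T.l 0) (T.l 816))))) (T.b (T.a (T.a (T.l 816) (T.a (T.l 816) (T.l 0))) (T.a (T.c (T.l 0) (T.l 816)) (T.c (T.l 0) (T.l 816)))) (T.a (T.a (T.l 816) (T.a (T.l 816) (T.l 0))) (T.a (T.c (T.l 0) (T.l 816)) (T.c (T.l 0) (T.l 816))))))), by decide +kernel⟩

def A102E_021_1_908_1 :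
    ∃ t, chk3 (onCell 0 16777216 0 1073741824 1020054732 13421774 (corW 3 c0B eng mog cA102E gB0q1 gB2q0 gB1q2 gB2q2 dB0q1 dB2q0 dB1q2 dB2q2 true true)) t 1 908 1 = true :=
  ⟨(T.b (T.b (T.a (T.a (T.l 816) (T.a (T.l 816) (T.l 0))) (T.a (T.c (T.l 0) (T.l 816)) (T.c (T.l 0) (T.l 816)))) (T.a (T.a (T.l 816) (T.a (T.l 816) (T.l 0))) (T.b (T.a (T.c (T.l 0) (T.l 816)) (T.c (T.l 0) (T.l 816))) (T.b (T.a (T.c (T.l 0) (T.l 816)) (T.c (T.l 0) (T.l 816))) (T.a (T.c (T.l 0) (T.l 816)) (T.c (T.l 0) (T.l 816))))))) (T.b (T.a (T.a (T.l 816) (T.a (T.l 816) (T.l 0))) (T.b (T.b (T.a (T.c (T.l 0) (T.l 816)) (T.c (T.l 0) (T.l 816))) (T.a (T.c (T.l 0) (T.l 816)) (T.c (T.l 0) (T.l 816)))) (T.b (T.a (T.c (T.l 0) (T.l 816)) (T.c (T.l 0) (T.l 944))) (T.a (T.c (T.l 0) (T.l 816)) (T.c (T.l 0) (T.l 944)))))) (T.a (T.a (T.l 816) (T.a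 (T.l 816) (T.l 0))) (T.b (T.b (T.a (T.c (T.l 0) (T.l 816)) (T.c (T.l 0) (T.l 944))) (T.a (T.c (T.l 0) (T.l 816)) (T.c (T.l 0) (T.l 944)))) (T.b (T.a (T.c (T.l 0) (T.l 816)) (T.c (T.l 0) (T.l 944))) (T.a (T.c (T.l 0) (T.l 816)) (T.c (T.l 0) (T.l 944)))))))), by decide +kernel⟩

def A102E_021_1_909_1 :
    ∃ t, chk3 (onCell 0 16777216 0 1073741824 1020054732 13421774 (corW 3 c0B eng mog cA102E gB0q1 gB2q0 gB1q2 gB2q2 dB0q1 dB2q0 dB1q2 dB2q2 true true)) t 1 909 1 = true :=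
  ⟨(T.b (T.b (T.a (T.a (T.l 816) (T.a (T.l 816) (T.l 0))) (T.b (T.b (T.a (T.c (T.l 0) (T.l 816)) (T.c (T.l 0) (T.l 944))) (T.a (T.c (T.l 0) (T.l 816)) (T.c (T.l 0) (T.l 944)))) (T.b (T.a (T.c (T.l 0) (T.l 816)) (T.c (T.l 0) (T.l 944))) (T.a (T.c (T.l 0) (T.l 816)) (T.c (T.l 0) (T.l 944)))))) (T.a (T.a (T.l 816) (T.a (T.l 816) (T.l 0))) (T.b (T.b (T.a (T.c (T.l 0) (T.l 816)) (T.c (T.l 0) (T.l 944))) (T.a (T.c (T.l 0) (T.l 816)) (T.c (T.l 0) (T.l 944)))) (T.b (T.a (T.c (T.l 0) (T.l 824)) (T.c (T.l 0) (T.l 944))) (T.a (T.c (T.l 0) (T.l 824)) (T.c (T.l 0) (T.l 944))))))) (T.b (T.a (T.a (T.l 816) (T.a (T.l 816) (T.l 0))) (T.b (T.b (T.a (T.c (T.l 0) (T.l 824)) (T.c (T.l 0) (T.l 944))) (T.a (T.c (T.l 0) (T.l 824)) (T.c (T.l 0) (T.l 944)))) (T.b (T.a (T.c (T.l 0) (T.l 824)) (T.c (T.l 0) (T.l 944))) (T.a (T.c (T.l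 0) (T.l 824)) (T.c (T.l 0) (T.l 944)))))) (T.a (T.a (T.l 816) (T.a (T.l 816) (T.l 0))) (T.b (T.b (T.a (T.c (T.l 0) (T.l 824)) (T.c (T.l 0) (T.l 944))) (T.a (T.c (T.l 0) (T.l 824)) (T.c (T.l 0) (T.l 944)))) (T.b (T.a (T.c (T.l 0) (T.l 824)) (T.c (T.l 0) (T.l 944))) (T.a (T.c (T.l 0) (T.l 824)) (T.c (T.l 0) (T.l 944)))))))), by decide +kernel⟩

def A102E_021_1_455_1 :
    ∃ t, chk3 (onCell 0 16777216 0 1073741824 1020054732 13421774 (corW 3 c0B eng mog cA102E gB0q1 gB2q0 gB1q2 gB2q2 dB0q1 dB2q0 dB1q2 dB2q2 true true)) t 1 455 1 = true :=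
  ⟨(T.b (T.b (T.b (T.a (T.a (T.l 816) (T.a (T.l 816) (T.l 0))) (T.b (T.b (T.a (T.c (T.l 0) (T.l 824)) (T.c (T.l 0) (T.l 944))) (T.a (T.c (T.l 0) (T.l 824)) (T.c (T.l 0) (T.l 944)))) (T.b (T.a (T.c (T.l 0) (T.l 824)) (T.c (T.l 0) (T.l 944))) (T.a (T.c (T.l 0) (T.l 824)) (T.c (T.l 0) (T.l 944)))))) (T.a (T.l 1) (T.a (T.l 1) (T.l 1)))) (T.l 1)) (T.l 1)), by decide +kernel⟩

def A102E_021_1_57_1 :
    ∃ t, chk3 (onCell 0 16777216 0 1073741824 1020054732 13421774 (corW 3 c0B eng mog cA102E gB0q1 gB2q0 gB1q2 gB2q2 dB0q1 dB2q0 dB1q2 dB2q2 true true)) t 1 57 1 = true :=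
  ⟨(T.l 1), by decide +kernel⟩

def A102E_021_1_29_1 :
    ∃ t, chk3 (onCell 0 16777216 0 1073741824 1020054732 13421774 (corW 3 c0B eng mog cA102E gB0q1 gB2q0 gB1q2 gB2q2 dB0q1 dB2q0 dB1q2 dB2q2 true true)) t 1 29 1 = true :=
  ⟨(T.l 1), by decide +kernel⟩

def A102E_021_1_15_1 :
    ∃ t, chk3 (onCell 0 16777216 0 1073741824 1020054732 13421774 (corW 3 c0B eng mog cA102E gB0q1 gB2q0 gB1q2 gB2q2 dB0q1 dB2q0 dB1q2 dB2q2 true true)) t 1 15 1 = true :=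
  ⟨(T.l 1), by decide +kernel⟩

theorem A102E_021_1_454_1 :
    ∃ t, chk3 (onCell 0 16777216 0 1073741824 1020054732 13421774 (corW 3 c0B eng mog cA102E gB0q1 gB2q0 gB1q2 gB2q2 dB0q1 dB2q0 dB1q2 dB2q2 true true)) t 1 454 1 = true :=
  ex3_b A102E_021_1_908_1 A102E_021_1_909_1
theorem A102E_021_1_227_1 :
    ∃ t, chk3 (onCell 0 16777216 0 1073741824 1020054732 13421774 (corW 3 c0B eng mog cA102E gB0q1 gB2q0 gB1q2 gB2q2 dB0q1 dB2q0 dB1q2 dB2q2 true true)) t 1 227 1 = true :=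
  ex3_b A102E_021_1_454_1 A102E_021_1_455_1
theorem A102E_021_1_226_1 :
    ∃ t, chk3 (onCell 0 16777216 0 1073741824 1020054732 13421774 (corW 3 c0B eng mog cA102E gB0q1 gB2q0 gB1q2 gB2q2 dB0q1 dB2q0 dB1q2 dB2q2 true true)) t 1 226 1 = true :=
  ex3_b A102E_021_1_452_1 A102E_021_1_453_1
theorem A102E_021_1_113_1 :
    ∃ t, chk3 (onCell 0 16777216 0 1073741824 1020054732 13421774 (corW 3 c0B eng mog cA102E gB0q1 gB2q0 gB1q2 gB2q2 dB0q1 dB2q0 dB1q2 dB2q2 true true)) t 1 113 1 = true :=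
  ex3_b A102E_021_1_226_1 A102E_021_1_227_1
theorem A102E_021_1_112_1 :
    ∃ t, chk3 (onCell 0 16777216 0 1073741824 1020054732 13421774 (corW 3 c0B eng mog cA102E gB0q1 gB2q0 gB1q2 gB2q2 dB0q1 dB2q0 dB1q2 dB2q2 true true)) t 1 112 1 = true :=
  ex3_b A102E_021_1_224_1 A102E_021_1_225_1
theorem A102E_021_1_56_1 :
    ∃ t, chk3 (onCell 0 16777216 0 1073741824 1020054732 13421774 (corW 3 c0B eng mog cA102E gB0q1 gB2q0 gB1q2 gB2q2 dB0q1 dB2q0 dB1q2 dB2q2 true true)) t 1 56 1 = true :=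
  ex3_b A102E_021_1_112_1 A102E_021_1_113_1
theorem A102E_021_1_28_1 :
    ∃ t, chk3 (onCell 0 16777216 0 1073741824 1020054732 13421774 (corW 3 c0B eng mog cA102E gB0q1 gB2q0 gB1q2 gB2q2 dB0q1 dB2q0 dB1q2 dB2q2 true true)) t 1 28 1 = true :=
  ex3_b A102E_021_1_56_1 A102E_021_1_57_1
theorem A102E_021_1_14_1 :
    ∃ t, chk3 (onCell 0 16777216 0 1073741824 1020054732 13421774 (corW 3 c0B eng mog cA102E gB0q1 gB2q0 gB1q2 gB2q2 dB0q1 dB2q0 dB1q2 dB2q2 true true)) t 1 14 1 = true :=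
  ex3_b A102E_021_1_28_1 A102E_021_1_29_1
theorem A102E_021_1_7_1 :
    ∃ t, chk3 (onCell 0 16777216 0 1073741824 1020054732 13421774 (corW 3 c0B eng mog cA102E gB0q1 gB2q0 gB1q2 gB2q2 dB0q1 dB2q0 dB1q2 dB2q2 true true)) t 1 7 1 = true :=
  ex3_b A102E_021_1_14_1 A102E_021_1_15_1
theorem A102E_021_1_27_1 :
    ∃ t, chk3 (onCell 0 16777216 0 1073741824 1020054732 13421774 (corW 3 c0B eng mog cA102E gB0q1 gB2q0 gB1q2 gB2q2 dB0q1 dB2q0 dB1q2 dB2q2 true true)) t 1 27 1 = true :=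
  ex3_b A102E_021_1_54_1 A102E_021_1_55_1
theorem A102E_021_1_13_1 :
    ∃ t, chk3 (onCell 0 16777216 0 1073741824 1020054732 13421774 (corW 3 c0B eng mog cA102E gB0q1 gB2q0 gB1q2 gB2q2 dB0q1 dB2q0 dB1q2 dB2q2 true true)) t 1 13 1 = true :=
  ex3_b A102E_021_1_26_1 A102E_021_1_27_1
theorem A102E_021_1_6_1 :
    ∃ t, chk3 (onCell 0 16777216 0 1073741824 1020054732 13421774 (corW 3 c0B eng mog cA102E gB0q1 gB2q0 gB1q2 gB2q2 dB0q1 dB2q0 dB1q2 dB2q2 true true)) t 1 6 1 = true :=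
  ex3_b A102E_021_1_12_1 A102E_021_1_13_1
theorem A102E_021_1_3_1 :
    ∃ t, chk3 (onCell 0 16777216 0 1073741824 1020054732 13421774 (corW 3 c0B eng mog cA102E gB0q1 gB2q0 gB1q2 gB2q2 dB0q1 dB2q0 dB1q2 dB2q2 true true)) t 1 3 1 = true :=
  ex3_b A102E_021_1_6_1 A102E_021_1_7_1
theorem A102E_021 :
    ∃ t, chk3 (onCell 0 16777216 0 1073741824 1020054732 13421774 (corW 3 c0B eng mog cA102E gB0q1 gB2q0 gB1q2 gB2q2 dB0q1 dB2q0 dB1q2 dB2q2 true true)) t 1 1 1 = true :=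
  ex3_b A102E_021_1_2_1 A102E_021_1_3_1

def A102E_022 :
    ∃ t, chk3 (onCell 0 16777216 0 1073741824 1020054732 13421774 (corW 3 c0B eng mog cA102E gB0q1 gB2q0 gB2q2 gB3q2 dB0q1 dB2q0 dB2q2 dB3q2 true false)) t 1 1 1 = true :=
  ⟨(T.b (T.a (T.a (T.l 0) (T.l 0)) (T.l 0)) (T.b (T.b (T.a (T.a (T.l 204) (T.l 0)) (T.l 0)) (T.b (T.b (T.a (T.a (T.l 204) (T.l 0)) (T.a (T.l 0) (T.l 0))) (T.b (T.a (T.a (T.l 204) (T.l 0)) (T.a (T.l 0) (T.l 0))) (T.b (T.a (T.a (T.l 204) (T.l 0)) (T.a (T.l 0) (T.l 0))) (T.b (T.a (T.a (T.l 204) (T.l 0)) (T.a (T.l 0) (T.l 0))) (T.b (T.a (T.a (T.l 204) (T.l 0)) (T.a (T.l 0) (T.l 0))) (T.a (T.a (T.l 204) (T.l 0)) (T.a (T.l 0) (T.l 0)))))))) (T.b (T.b (T.b (T.b (T.b (T.a (T.a (T.l 204) (T.l 0)) (T.a (T.l 0) (T.l 0))) (T.a (T.a (T.l 204) (T.l 0)) (T.a (T.l 0) (T.l 0)))) (T.b (T.a (T.a (T.l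 204) (T.l 0)) (T.a (T.l 0) (T.l 0))) (T.a (T.a (T.l 204) (T.l 0)) (T.a (T.l 0) (T.l 0))))) (T.b (T.b (T.a (T.a (T.l 204) (T.l 0)) (T.a (T.l 0) (T.l 0))) (T.a (T.a (T.l 204) (T.l 0)) (T.a (T.l 0) (T.l 0)))) (T.b (T.a (T.a (T.l 204) (T.l 0)) (T.a (T.l 0) (T.l 0))) (T.a (T.a (T.l 204) (T.l 32)) (T.a (T.l 0) (T.l 0)))))) (T.b (T.b (T.b (T.a (T.a (T.l 204) (T.c (T.l 0) (T.l 0))) (T.a (T.l 0) (T.l 0))) (T.a (T.a (T.l 204) (T.c (T.l 0) (T.l 0))) (T.a (T.l 0) (T.l 0)))) (T.b (T.a (T.a (T.l 204) (T.c (T.l 0) (T.l 0))) (T.a (T.l 0) (T.l 0))) (T.a (T.a (T.l 204) (T.c (T.l 0) (T.l 0))) (T.a (T.l 0) (T.l 0))))) (T.b (T.b (T.a (T.a (T.l 204) (T.c (T.l 0) (T.l 0))) (T.a (T.l 0) (T.l 0))) (T.a (T.a (T.l 204) (T.c (T.l 0) (T.l 0))) (T.a (T.l 0) (T.l 1)))) (T.l 1)))) (T.l 1)))) (T.l 1))), by decide +kernel⟩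

def A102R_004 :
    ∃ t, chk3 (onCell 0 38347922 0 1073741824 1020054732 13421774 (corW 3 c0B eng mog cA102R gB0q1 gB0q0 gB4q2 gB5q2 dB0q1 dB0q0 dB4q2 dB5q2 false true)) t 1 1 1 = true :=
  ⟨(T.l 2), by decide +kernel⟩

def A102R_014 :
    ∃ t, chk3 (onCell 0 38347922 0 1073741824 1020054732 13421774 (corW 3 c0B eng mog cA102R gB0q1 gB1q0 gB4q2 gB5q2 dB0q1 dB1q0 dB4q2 dB5q2 false true)) t 1 1 1 = true :=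
  ⟨(T.l 2), by decide +kernel⟩

def A102R_024 :
    ∃ t, chk3 (onCell 0 38347922 0 1073741824 1020054732 13421774 (corW 3 c0B eng mog cA102R gB0q1 gB2q0 gB4q2 gB5q2 dB0q1 dB2q0 dB4q2 dB5q2 false true)) t 1 1 1 = true :=
  ⟨(T.l 2), by decide +kernel⟩

def A202E_000 :
    ∃ t, chk3 (onCell 0 33554432 0 1073741824 1020054732 13421774 (corW 3 c0B eng mog cA202E gB0q2 gB0q0 gB0q2 gB1q2 dB0q2 dB0q0 dB0q2 dB1q2 true true)) t 1 1 1 = true :=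
  ⟨(T.l 2), by decide +kernel⟩

def A202E_001 :
    ∃ t, chk3 (onCell 0 33554432 0 1073741824 1020054732 13421774 (corW 3 c0B eng mog cA202E gB0q2 gB0q0 gB1q2 gB2q2 dB0q2 dB0q0 dB1q2 dB2q2 true true)) t 1 1 1 = true :=
  ⟨(T.l 2), by decide +kernel⟩

def A202E_002 :
    ∃ t, chk3 (onCell 0 33554432 0 1073741824 1020054732 13421774 (corW 3 c0B eng mog cA202E gB0q2 gB0q0 gB2q2 gB3q2 dB0q2 dB0q0 dB2q2 dB3q2 true false)) t 1 1 1 = true :=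
  ⟨(T.b (T.b (T.a (T.a (T.l 0) (T.l 0)) (T.a (T.b (T.l 0) (T.l 0)) (T.l 0))) (T.a (T.l 0) (T.a (T.b (T.l 0) (T.b (T.l 0) (T.l 0))) (T.b (T.b (T.l 0) (T.l 0)) (T.b (T.l 0) (T.l 0)))))) (T.b (T.a (T.a (T.l 816) (T.a (T.l 816) (T.b (T.l 816) (T.b (T.l 816) (T.l 816))))) (T.a (T.b (T.b (T.l 816) (T.l 816)) (T.a (T.l 816) (T.l 816))) (T.b (T.b (T.l 816) (T.l 816)) (T.b (T.l 816) (T.l 816))))) (T.a (T.a (T.b (T.l 816) (T.a (T.b (T.l 816) (T.l 816)) (T.l 816))) (T.a (T.b (T.a (T.l 816) (T.b (T.l 816) (T.l 816))) (T.a (T.a (T.l 816) (T.b (T.l 816) (T.l 816))) (T.b (T.l 816) (T.b (T.l 816) (T.l 816))))) (T.b (T.a (T.l 816) (T.l 816)) (T.a (T.b (T.l 816) (T.l 816)) (T.b (T.l 816) (T.l 816)))))) (T.a (T.b (T.a (T.b (T.l 816) (T.l 816)) (T.b (T.l 816) (T.l 816))) (T.a (T.b (T.l 816) (T.b (T.l 816) (T.l 816))) (T.b (T.l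 816) (T.l 816)))) (T.b (T.a (T.l 816) (T.l 816)) (T.a (T.b (T.l 816) (T.l 816)) (T.b (T.l 816) (T.l 816)))))))), by decide +kernel⟩

def A202E_010 :
    ∃ t, chk3 (onCell 0 33554432 0 1073741824 1020054732 13421774 (corW 3 c0B eng mog cA202E gB0q2 gB1q0 gB0q2 gB1q2 dB0q2 dB1q0 dB0q2 dB1q2 true true)) t 1 1 1 = true :=
  ⟨(T.l 2), by decide +kernel⟩

def A202E_011 :
    ∃ t, chk3 (onCell 0 33554432 0 1073741824 1020054732 13421774 (corW 3 c0B eng mog cA202E gB0q2 gB1q0 gB1q2 gB2q2 dB0q2 dB1q0 dB1q2 dB2q2 true true)) t 1 1 1 = true :=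
  ⟨(T.l 2), by decide +kernel⟩

def A202E_012 :
    ∃ t, chk3 (onCell 0 33554432 0 1073741824 1020054732 13421774 (corW 3 c0B eng mog cA202E gB0q2 gB1q0 gB2q2 gB3q2 dB0q2 dB1q0 dB2q2 dB3q2 true false)) t 1 1 1 = true :=
  ⟨(T.b (T.b (T.a (T.a (T.a (T.l 0) (T.b (T.l 0) (T.l 0))) (T.b (T.l 0) (T.l 0))) (T.a (T.l 0) (T.l 0))) (T.b (T.a (T.a (T.l 0) (T.l 0)) (T.a (T.l 0) (T.l 0))) (T.a (T.a (T.l 816) (T.l 0)) (T.a (T.b (T.l 0) (T.l 0)) (T.l 0))))) (T.b (T.b (T.a (T.a (T.l 816) (T.a (T.l 816) (T.l 0))) (T.a (T.b (T.l 0) (T.l 816)) (T.b (T.l 0) (T.l 816)))) (T.a (T.a (T.l 816) (T.a (T.l 816) (T.l 816))) (T.a (T.b (T.l 816) (T.l 816)) (T.b (T.l 816) (T.l 816))))) (T.b (T.a (T.a (T.l 816) (T.a (T.a (T.l 816) (T.l 816)) (T.b (T.l 816) (T.l 816)))) (T.a (T.a (T.l 816) (T.l 816)) (T.b (T.b (T.l 816) (T.l 816)) (T.b (T.l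 816) (T.l 816))))) (T.a (T.a (T.a (T.b (T.l 816) (T.l 816)) (T.l 816)) (T.a (T.a (T.a (T.l 816) (T.b (T.l 816) (T.l 816))) (T.b (T.l 816) (T.b (T.l 816) (T.l 816)))) (T.a (T.b (T.l 816) (T.l 816)) (T.b (T.l 816) (T.l 816))))) (T.a (T.a (T.b (T.l 816) (T.b (T.l 816) (T.l 816))) (T.b (T.l 816) (T.l 816))) (T.a (T.b (T.l 816) (T.l 816)) (T.b (T.l 816) (T.l 816)))))))), by decide +kernel⟩

def A202E_020 :
    ∃ t, chk3 (onCell 0 33554432 0 1073741824 1020054732 13421774 (corW 3 c0B eng mog cA202E gB0q2 gB2q0 gB0q2 gB1q2 dB0q2 dB2q0 dB0q2 dB1q2 true true)) t 1 1 1 = true :=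
  ⟨(T.l 2), by decide +kernel⟩

def A202E_021 :
    ∃ t, chk3 (onCell 0 33554432 0 1073741824 1020054732 13421774 (corW 3 c0B eng mog cA202E gB0q2 gB2q0 gB1q2 gB2q2 dB0q2 dB2q0 dB1q2 dB2q2 true true)) t 1 1 1 = true :=
  ⟨(T.l 2), by decide +kernel⟩

def A202E_022 :
    ∃ t, chk3 (onCell 0 33554432 0 1073741824 1020054732 13421774 (corW 3 c0B eng mog cA202E gB0q2 gB2q0 gB2q2 gB3q2 dB0q2 dB2q0 dB2q2 dB3q2 true false)) t 1 1 1 = true :=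
  ⟨(T.b (T.b (T.a (T.a (T.a (T.l 0) (T.b (T.l 0) (T.l 0))) (T.b (T.l 0) (T.l 0))) (T.b (T.l 0) (T.l 0))) (T.b (T.a (T.a (T.l 0) (T.l 0)) (T.a (T.l 0) (T.l 0))) (T.a (T.a (T.l 816) (T.l 0)) (T.a (T.l 0) (T.l 0))))) (T.b (T.b (T.a (T.a (T.l 816) (T.a (T.l 816) (T.l 816))) (T.a (T.b (T.l 816) (T.l 816)) (T.l 0))) (T.a (T.a (T.l 816) (T.a (T.l 816) (T.l 816))) (T.a (T.b (T.l 816) (T.l 816)) (T.b (T.l 816) (T.l 816))))) (T.b (T.a (T.a (T.l 816) (T.a (T.b (T.l 816) (T.l 816)) (T.l 816))) (T.a (T.a (T.l 816) (T.l 816)) (T.b (T.l 816) (T.l 816)))) (T.a (T.a (T.a (T.b (T.l 816) (T.l 816)) (T.l 816)) (T.a (T.a (T.a (T.l 816) (T.b (T.l 816) (T.l 816))) (T.b (T.l 816) (T.b (T.l 816) (T.l 816)))) (T.b (T.l 816) (T.a (T.l 816) (T.l 816))))) (T.a (T.a (T.b (T.l 816) (T.b (T.l 816) (T.l 816))) (T.b (T.l 816) (T.l 816))) (T.a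 (T.b (T.l 816) (T.l 816)) (T.b (T.l 816) (T.l 816)))))))), by decide +kernel⟩

def A202E_110 :
    ∃ t, chk3 (onCell 0 33554432 0 1073741824 1020054732 13421774 (corW 3 c0B eng mog cA202E gB1q2 gB1q0 gB0q2 gB1q2 dB1q2 dB1q0 dB0q2 dB1q2 true true)) t 1 1 1 = true :=
  ⟨(T.l 2), by decide +kernel⟩

def A202E_111 :
    ∃ t, chk3 (onCell 0 33554432 0 1073741824 1020054732 13421774 (corW 3 c0B eng mog cA202E gB1q2 gB1q0 gB1q2 gB2q2 dB1q2 dB1q0 dB1q2 dB2q2 true true)) t 1 1 1 = true :=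
  ⟨(T.l 2), by decide +kernel⟩

def A202E_112 :
    ∃ t, chk3 (onCell 0 33554432 0 1073741824 1020054732 13421774 (corW 3 c0B eng mog cA202E gB1q2 gB1q0 gB2q2 gB3q2 dB1q2 dB1q0 dB2q2 dB3q2 true false)) t 1 1 1 = true :=
  ⟨(T.b (T.b (T.a (T.a (T.a (T.l 0) (T.b (T.l 0) (T.l 0))) (T.b (T.l 0) (T.l 0))) (T.a (T.l 0) (T.l 0))) (T.a (T.a (T.l 0) (T.b (T.l 0) (T.l 0))) (T.a (T.l 0) (T.l 0)))) (T.b (T.a (T.a (T.l 816) (T.b (T.l 0) (T.l 816))) (T.b (T.a (T.l 0) (T.l 0)) (T.a (T.l 816) (T.l 816)))) (T.a (T.b (T.l 816) (T.l 816)) (T.b (T.a (T.l 816) (T.b (T.l 816) (T.l 816))) (T.a (T.l 816) (T.b (T.l 816) (T.l 816))))))), by decide +kernel⟩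

def A202E_120 :
    ∃ t, chk3 (onCell 0 33554432 0 1073741824 1020054732 13421774 (corW 3 c0B eng mog cA202E gB1q2 gB2q0 gB0q2 gB1q2 dB1q2 dB2q0 dB0q2 dB1q2 true true)) t 1 1 1 = true :=
  ⟨(T.l 2), by decide +kernel⟩

def A202E_121 :
    ∃ t, chk3 (onCell 0 33554432 0 1073741824 1020054732 13421774 (corW 3 c0B eng mog cA202E gB1q2 gB2q0 gB1q2 gB2q2 dB1q2 dB2q0 dB1q2 dB2q2 true true)) t 1 1 1 = true :=
  ⟨(T.l 2), by decide +kernel⟩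

def A202E_122 :
    ∃ t, chk3 (onCell 0 33554432 0 1073741824 1020054732 13421774 (corW 3 c0B eng mog cA202E gB1q2 gB2q0 gB2q2 gB3q2 dB1q2 dB2q0 dB2q2 dB3q2 true false)) t 1 1 1 = true :=
  ⟨(T.b (T.b (T.a (T.a (T.a (T.l 0) (T.b (T.l 0) (T.l 0))) (T.b (T.l 0) (T.l 0))) (T.b (T.l 0) (T.l 0))) (T.a (T.a (T.l 0) (T.b (T.l 0) (T.l 0))) (T.a (T.l 0) (T.l 0)))) (T.b (T.a (T.a (T.l 816) (T.b (T.b (T.l 816) (T.l 816)) (T.l 816))) (T.b (T.b (T.l 0) (T.l 0)) (T.a (T.l 816) (T.l 816)))) (T.a (T.b (T.l 816) (T.l 816)) (T.b (T.a (T.l 816) (T.b (T.l 816) (T.l 816))) (T.a (T.l 816) (T.b (T.l 816) (T.l 816))))))), by decide +kernel⟩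

def A202E_220 :
    ∃ t, chk3 (onCell 0 38347922 0 1073741824 1020054732 13421774 (corW 3 c0B eng mog cA202E gB2q2 gB2q0 gB0q2 gB1q2 dB2q2 dB2q0 dB0q2 dB1q2 true true)) t 1 1 1 = true :=
  ⟨(T.l 2), by decide +kernel⟩

def A202E_221 :
    ∃ t, chk3 (onCell 0 38347922 0 1073741824 1020054732 13421774 (corW 3 c0B eng mog cA202E gB2q2 gB2q0 gB1q2 gB2q2 dB2q2 dB2q0 dB1q2 dB2q2 true true)) t 1 1 1 = true :=
  ⟨(T.l 2), by decide +kernel⟩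

def A202E_222 :
    ∃ t, chk3 (onCell 0 38347922 0 1073741824 1020054732 13421774 (corW 3 c0B eng mog cA202E gB2q2 gB2q0 gB2q2 gB3q2 dB2q2 dB2q0 dB2q2 dB3q2 true false)) t 1 1 1 = true :=
  ⟨(T.b (T.b (T.a (T.a (T.a (T.l 0) (T.b (T.l 0) (T.l 0))) (T.b (T.l 0) (T.l 0))) (T.b (T.l 0) (T.l 0))) (T.a (T.a (T.l 0) (T.b (T.l 0) (T.l 0))) (T.a (T.l 0) (T.l 0)))) (T.b (T.a (T.a (T.l 0) (T.b (T.l 0) (T.l 816))) (T.b (T.b (T.l 0) (T.l 0)) (T.b (T.l 0) (T.l 0)))) (T.a (T.l 0) (T.b (T.b (T.l 0) (T.l 0)) (T.a (T.l 816) (T.l 0)))))), by decide +kernel⟩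

def A202R_004 :
    ∃ t, chk3 (onCell 0 26843545 0 1073741824 1020054732 13421774 (corW 3 c0B eng mog cA202R gB0q2 gB0q0 gB4q2 gB5q2 dB0q2 dB0q0 dB4q2 dB5q2 false true)) t 1 1 1 = true :=
  ⟨(T.b (T.b (T.l 2) (T.b (T.b (T.l 2) (T.b (T.b (T.l 2) (T.a (T.b (T.b (T.a (T.l 2) (T.a (T.l 2) (T.a (T.l 2) (T.b (T.l 2) (T.b (T.l 2) (T.l 0)))))) (T.a (T.b (T.b (T.b (T.l 2) (T.a (T.c (T.l 0) (T.a (T.l 2) (T.l 0))) (T.l 0))) (T.c (T.l 0) (T.l 0))) (T.l 0)) (T.c (T.l 0) (T.l 0)))) (T.a (T.l 816) (T.l 816))) (T.b (T.b (T.b (T.l 2) (T.a (T.b (T.l 2) (T.c (T.l 0) (T.l 0))) (T.c (T.l 0) (T.l 0)))) (T.a (T.l 0) (T.l 0))) (T.a (T.l 816) (T.l 816))))) (T.a (T.b (T.l 816) (T.l 816)) (T.a (T.l 816) (T.l 816))))) (T.a (T.b (T.b (T.l 816) (T.l 816)) (T.l 816)) (T.a (T.b (T.l 816) (T.l 816)) (T.b (T.a (T.l 816) (T.b (T.l 816) (T.l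 816))) (T.a (T.b (T.l 816) (T.l 816)) (T.b (T.l 816) (T.l 816)))))))) (T.b (T.b (T.a (T.b (T.l 816) (T.l 816)) (T.a (T.a (T.b (T.l 816) (T.b (T.l 816) (T.l 816))) (T.b (T.b (T.l 816) (T.l 816)) (T.l 816))) (T.b (T.a (T.l 816) (T.l 816)) (T.b (T.l 816) (T.l 816))))) (T.a (T.b (T.l 816) (T.l 816)) (T.a (T.a (T.b (T.l 816) (T.l 816)) (T.b (T.l 816) (T.l 816))) (T.b (T.b (T.l 816) (T.l 816)) (T.l 816))))) (T.b (T.a (T.a (T.l 816) (T.a (T.l 816) (T.b (T.l 816) (T.l 816)))) (T.a (T.a (T.b (T.l 816) (T.l 816)) (T.l 816)) (T.b (T.l 816) (T.l 816)))) (T.a (T.a (T.l 816) (T.a (T.l 816) (T.b (T.l 816) (T.l 816)))) (T.a (T.a (T.l 816) (T.l 816)) (T.b (T.l 816) (T.l 816))))))), by decide +kernel⟩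

def A202R_014 :
    ∃ t, chk3 (onCell 0 38347922 0 1073741824 1020054732 13421774 (corW 3 c0B eng mog cA202R gB0q2 gB1q0 gB4q2 gB5q2 dB0q2 dB1q0 dB4q2 dB5q2 false true)) t 1 1 1 = true :=
  ⟨(T.b (T.b (T.l 2) (T.b (T.l 2) (T.b (T.a (T.l 2) (T.a (T.b (T.l 2) (T.l 0)) (T.l 0))) (T.b (T.b (T.b (T.a (T.a (T.l 204) (T.l 0)) (T.a (T.l 0) (T.l 0))) (T.a (T.a (T.l 204) (T.l 0)) (T.a (T.l 0) (T.l 0)))) (T.a (T.a (T.l 0) (T.l 0)) (T.a (T.l 0) (T.l 0)))) (T.b (T.a (T.a (T.l 0) (T.l 0)) (T.a (T.l 0) (T.l 0))) (T.a (T.a (T.l 0) (T.l 0)) (T.a (T.l 0) (T.l 0)))))))) (T.b (T.b (T.b (T.b (T.a (T.a (T.l 0) (T.l 0)) (T.a (T.l 0) (T.l 0))) (T.a (T.a (T.l 816) (T.a (T.l 816) (T.l 0))) (T.a (T.l 0) (T.l 0)))) (T.a (T.a (T.l 816) (T.a (T.l 816) (T.l 0))) (T.a (T.l 0) (T.l 0)))) (T.b (T.a (T.a (T.l 816) (T.a (T.l 816) (T.l 0)))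 (T.a (T.l 0) (T.l 0))) (T.a (T.a (T.l 816) (T.a (T.l 0) (T.l 816))) (T.a (T.b (T.l 0) (T.l 0)) (T.l 0))))) (T.b (T.b (T.a (T.a (T.l 816) (T.a (T.l 816) (T.l 816))) (T.a (T.l 0) (T.l 0))) (T.a (T.a (T.l 816) (T.a (T.l 816) (T.l 816))) (T.a (T.l 0) (T.l 0)))) (T.a (T.a (T.l 816) (T.a (T.a (T.l 816) (T.l 816)) (T.b (T.l 816) (T.l 816)))) (T.a (T.a (T.l 816) (T.l 816)) (T.a (T.l 816) (T.l 0))))))), by decide +kernel⟩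

def A202R_024 :
    ∃ t, chk3 (onCell 0 38347922 0 1073741824 1020054732 13421774 (corW 3 c0B eng mog cA202R gB0q2 gB2q0 gB4q2 gB5q2 dB0q2 dB2q0 dB4q2 dB5q2 false true)) t 1 1 1 = true :=
  ⟨(T.b (T.l 2) (T.b (T.b (T.b (T.l 2) (T.b (T.a (T.a (T.l 0) (T.l 0)) (T.a (T.l 0) (T.l 0))) (T.a (T.a (T.l 0) (T.l 0)) (T.a (T.l 0) (T.l 0))))) (T.b (T.a (T.a (T.l 816) (T.l 0)) (T.a (T.l 0) (T.l 0))) (T.a (T.a (T.l 816) (T.b (T.l 0) (T.l 0))) (T.a (T.l 0) (T.l 0))))) (T.b (T.b (T.a (T.a (T.l 816) (T.b (T.l 0) (T.l 0))) (T.a (T.l 0) (T.l 0))) (T.a (T.a (T.l 816) (T.a (T.l 816) (T.l 816))) (T.a (T.l 0) (T.l 0)))) (T.a (T.a (T.l 816) (T.a (T.a (T.l 816) (T.l 816)) (T.b (T.l 816) (T.l 816)))) (T.a (T.a (T.l 816) (T.l 816)) (T.a (T.l 816) (T.l 0))))))), by decide +kernel⟩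

def A202R_114 :
    ∃ t, chk3 (onCell 0 38347922 0 1073741824 1020054732 13421774 (corW 3 c0B eng mog cA202R gB1q2 gB1q0 gB4q2 gB5q2 dB1q2 dB1q0 dB4q2 dB5q2 false true)) t 1 1 1 = true :=
  ⟨(T.b (T.l 2) (T.b (T.b (T.b (T.a (T.a (T.l 204) (T.l 0)) (T.b (T.l 0) (T.l 0))) (T.a (T.a (T.l 204) (T.l 0)) (T.l 0))) (T.a (T.l 0) (T.b (T.l 0) (T.l 0)))) (T.a (T.l 0) (T.b (T.a (T.l 816) (T.l 0)) (T.a (T.l 816) (T.l 0)))))), by decide +kernel⟩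

def A202R_124 :
    ∃ t, chk3 (onCell 0 38347922 0 1073741824 1020054732 13421774 (corW 3 c0B eng mog cA202R gB1q2 gB2q0 gB4q2 gB5q2 dB1q2 dB2q0 dB4q2 dB5q2 false true)) t 1 1 1 = true :=
  ⟨(T.b (T.l 2) (T.b (T.b (T.l 2) (T.a (T.l 0) (T.b (T.l 0) (T.l 0)))) (T.a (T.l 0) (T.b (T.a (T.l 0) (T.b (T.l 0) (T.l 0))) (T.a (T.l 816) (T.l 0)))))), by decide +kernel⟩

def A202R_224 :
    ∃ t, chk3 (onCell 0 38347922 0 1073741824 1020054732 13421774 (corW 3 c0B eng mog cA202R gB2q2 gB2q0 gB4q2 gB5q2 dB2q2 dB2q0 dB4q2 dB5q2 false true)) t 1 1 1 = true :=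
  ⟨(T.b (T.l 2) (T.b (T.l 2) (T.b (T.l 2) (T.a (T.l 816) (T.b (T.l 0) (T.l 0)))))), by decide +kernel⟩

def B011E_000 :
    ∃ t, chk3 (onCell 0 38347922 0 1073741824 1020054732 13421774 (corW 3 c0B eng mog cB011E gB0q0 gB0q1 gB0q1 gB1q1 dB0q0 dB0q1 dB0q1 dB1q1 true false)) t 1 1 1 = true :=
  ⟨(T.l 1), by decide +kernel⟩

def B011E_100 :
    ∃ t, chk3 (onCell 0 38347922 0 1073741824 1020054732 13421774 (corW 3 c0B eng mog cB011E gB1q0 gB0q1 gB0q1 gB1q1 dB1q0 dB0q1 dB0q1 dB1q1 true false)) t 1 1 1 = true :=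
  ⟨(T.l 1), by decide +kernel⟩

def B011E_200 :
    ∃ t, chk3 (onCell 0 38347922 0 1073741824 1020054732 13421774 (corW 3 c0B eng mog cB011E gB2q0 gB0q1 gB0q1 gB1q1 dB2q0 dB0q1 dB0q1 dB1q1 true false)) t 1 1 1 = true :=
  ⟨(T.l 1), by decide +kernel⟩

def B011L_030 :
    ∃ t, chk3 (onCell 0 38347922 0 1073741824 1020054732 13421774 (corW 3 c0B eng mog cB011L gB0q0 gB3q1 gB0q1 gB1q1 dB0q0 dB3q1 dB0q1 dB1q1 true false)) t 1 1 1 = true :=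
  ⟨(T.l 1), by decide +kernel⟩

def B011L_040 :
    ∃ t, chk3 (onCell 0 38347922 0 1073741824 1020054732 13421774 (corW 3 c0B eng mog cB011L gB0q0 gB4q1 gB0q1 gB1q1 dB0q0 dB4q1 dB0q1 dB1q1 true false)) t 1 1 1 = true :=
  ⟨(T.l 1), by decide +kernel⟩

def B011L_050 :
    ∃ t, chk3 (onCell 0 38347922 0 1073741824 1020054732 13421774 (corW 3 c0B eng mog cB011L gB0q0 gB5q1 gB0q1 gB1q1 dB0q0 dB5q1 dB0q1 dB1q1 true false)) t 1 1 1 = true :=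
  ⟨(T.l 1), by decide +kernel⟩

def B011L_130 :
    ∃ t, chk3 (onCell 0 38347922 0 1073741824 1020054732 13421774 (corW 3 c0B eng mog cB011L gB1q0 gB3q1 gB0q1 gB1q1 dB1q0 dB3q1 dB0q1 dB1q1 true false)) t 1 1 1 = true :=
  ⟨(T.l 1), by decide +kernel⟩

def B011L_140 :
    ∃ t, chk3 (onCell 0 38347922 0 1073741824 1020054732 13421774 (corW 3 c0B eng mog cB011L gB1q0 gB4q1 gB0q1 gB1q1 dB1q0 dB4q1 dB0q1 dB1q1 true false)) t 1 1 1 = true :=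
  ⟨(T.l 1), by decide +kernel⟩

def B011L_150 :
    ∃ t, chk3 (onCell 0 38347922 0 1073741824 1020054732 13421774 (corW 3 c0B eng mog cB011L gB1q0 gB5q1 gB0q1 gB1q1 dB1q0 dB5q1 dB0q1 dB1q1 true false)) t 1 1 1 = true :=
  ⟨(T.l 1), by decide +kernel⟩

def B011L_230 :
    ∃ t, chk3 (onCell 0 38347922 0 1073741824 1020054732 13421774 (corW 3 c0B eng mog cB011L gB2q0 gB3q1 gB0q1 gB1q1 dB2q0 dB3q1 dB0q1 dB1q1 true false)) t 1 1 1 = true :=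
  ⟨(T.l 1), by decide +kernel⟩

def B011L_240 :
    ∃ t, chk3 (onCell 0 38347922 0 1073741824 1020054732 13421774 (corW 3 c0B eng mog cB011L gB2q0 gB4q1 gB0q1 gB1q1 dB2q0 dB4q1 dB0q1 dB1q1 true false)) t 1 1 1 = true :=
  ⟨(T.l 1), by decide +kernel⟩

def B011L_250 :
    ∃ t, chk3 (onCell 0 38347922 0 1073741824 1020054732 13421774 (corW 3 c0B eng mog cB011L gB2q0 gB5q1 gB0q1 gB1q1 dB2q0 dB5q1 dB0q1 dB1q1 true false)) t 1 1 1 = true :=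
  ⟨(T.l 1), by decide +kernel⟩

def B011R_002 :
    ∃ t, chk3 (onCell 0 26843545 0 1073741824 1020054732 13421774 (corW 3 c0B eng mog cB011R gB0q0 gB0q1 gB2q1 gB3q1 dB0q0 dB0q1 dB2q1 dB3q1 false true)) t 1 1 1 = true :=
  ⟨(T.b (T.b (T.b (T.b (T.b (T.a (T.l 204) (T.a (T.l 204) (T.l 204))) (T.l 2)) (T.l 2)) (T.l 2)) (T.l 2)) (T.l 2)), by decide +kernel⟩

def B011R_003 :
    ∃ t, chk3 (onCell 0 26843545 0 1073741824 1020054732 13421774 (corW 3 c0B eng mog cB011R gB0q0 gB0q1 gB3q1 gB4q1 dB0q0 dB0q1 dB3q1 dB4q1 true true)) t 1 1 1 = true :=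
  ⟨(T.b (T.b (T.b (T.a (T.b (T.l 204) (T.l 204)) (T.a (T.l 0) (T.b (T.l 0) (T.l 0)))) (T.a (T.l 0) (T.a (T.l 0) (T.b (T.l 0) (T.l 0))))) (T.l 2)) (T.l 2)), by decide +kernel⟩

def B011R_004 :
    ∃ t, chk3 (onCell 0 26843545 0 1073741824 1020054732 13421774 (corW 3 c0B eng mog cB011R gB0q0 gB0q1 gB4q1 gB5q1 dB0q0 dB0q1 dB4q1 dB5q1 true true)) t 1 1 1 = true :=
  ⟨(T.b (T.b (T.b (T.l 1) (T.b (T.l 1) (T.a (T.l 0) (T.a (T.l 816) (T.l 0))))) (T.b (T.b (T.a (T.l 0) (T.b (T.l 816) (T.l 0))) (T.b (T.b (T.a (T.l 0) (T.l 0)) (T.b (T.a (T.b (T.l 0) (T.b (T.a (T.l 0) (T.l 0)) (T.b (T.a (T.a (T.l 2) (T.l 0)) (T.l 0)) (T.l 2)))) (T.a (T.c (T.l 0) (T.l 0)) (T.l 0))) (T.a (T.l 2) (T.a (T.l 2) (T.a (T.l 2) (T.b (T.b (T.c (T.l 0) (T.l 0)) (T.l 2)) (T.l 2))))))) (T.l 2))) (T.l 2))) (T.l 2)), by decide +kernel⟩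

def B011R_102 :
    ∃ t, chk3 (onCell 0 38347922 0 1073741824 1020054732 13421774 (corW 3 c0B eng mog cB011R gB1q0 gB0q1 gB2q1 gB3q1 dB1q0 dB0q1 dB2q1 dB3q1 false true)) t 1 1 1 = true :=
  ⟨(T.l 2), by decide +kernel⟩

def B011R_103 :
    ∃ t, chk3 (onCell 0 38347922 0 1073741824 1020054732 13421774 (corW 3 c0B eng mog cB011R gB1q0 gB0q1 gB3q1 gB4q1 dB1q0 dB0q1 dB3q1 dB4q1 true true)) t 1 1 1 = true :=
  ⟨(T.b (T.b (T.b (T.b (T.a (T.a (T.a (T.l 0) (T.l 0)) (T.l 0)) (T.l 0)) (T.l 2)) (T.l 2)) (T.l 2)) (T.l 2)), by decide +kernel⟩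

def B011R_104 :
    ∃ t, chk3 (onCell 0 38347922 0 1073741824 1020054732 13421774 (corW 3 c0B eng mog cB011R gB1q0 gB0q1 gB4q1 gB5q1 dB1q0 dB0q1 dB4q1 dB5q1 true true)) t 1 1 1 = true :=
  ⟨(T.b (T.b (T.b (T.b (T.a (T.b (T.l 1) (T.a (T.a (T.l 816) (T.l 0)) (T.l 0))) (T.l 0)) (T.a (T.a (T.a (T.l 816) (T.l 0)) (T.l 0)) (T.l 0))) (T.b (T.a (T.a (T.a (T.l 816) (T.l 0)) (T.l 0)) (T.b (T.l 0) (T.l 0))) (T.l 2))) (T.l 2)) (T.l 2)), by decide +kernel⟩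

def B011R_202 :
    ∃ t, chk3 (onCell 0 38347922 0 1073741824 1020054732 13421774 (corW 3 c0B eng mog cB011R gB2q0 gB0q1 gB2q1 gB3q1 dB2q0 dB0q1 dB2q1 dB3q1 false true)) t 1 1 1 = true :=
  ⟨(T.l 2), by decide +kernel⟩

def B011R_203 :
    ∃ t, chk3 (onCell 0 38347922 0 1073741824 1020054732 13421774 (corW 3 c0B eng mog cB011R gB2q0 gB0q1 gB3q1 gB4q1 dB2q0 dB0q1 dB3q1 dB4q1 true true)) t 1 1 1 = true :=
  ⟨(T.l 2), by decide +kernel⟩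

def B011R_204 :
    ∃ t, chk3 (onCell 0 38347922 0 1073741824 1020054732 13421774 (corW 3 c0B eng mog cB011R gB2q0 gB0q1 gB4q1 gB5q1 dB2q0 dB0q1 dB4q1 dB5q1 true true)) t 1 1 1 = true :=
  ⟨(T.l 2), by decide +kernel⟩

def B012E_000 :
    ∃ t, chk3 (onCell 0 16777216 0 1073741824 1020054732 13421774 (corW 3 c0B eng mog cB012E gB0q0 gB0q2 gB0q1 gB1q1 dB0q0 dB0q2 dB0q1 dB1q1 true false)) t 1 1 1 = true :=
  ⟨(T.b (T.b (T.l 1) (T.b (T.l 1) (T.b (T.l 1) (T.b (T.l 1) (T.b (T.l 1) (T.b (T.l 1) (T.a (T.b (T.l 1) (T.a (T.b (T.l 1) (T.l 0)) (T.l 0))) (T.a (T.b (T.b (T.l 1) (T.l 0)) (T.l 0)) (T.l 0))))))))) (T.a (T.b (T.b (T.b (T.b (T.b (T.l 0) (T.l 0)) (T.l 0)) (T.b (T.l 816) (T.l 816))) (T.b (T.l 816) (T.l 816))) (T.b (T.l 816) (T.l 816))) (T.b (T.a (T.b (T.b (T.b (T.l 0) (T.l 816)) (T.l 816)) (T.l 816)) (T.b (T.b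 (T.b (T.l 0) (T.l 816)) (T.a (T.l 816) (T.b (T.l 816) (T.l 816)))) (T.b (T.a (T.l 816) (T.l 816)) (T.b (T.l 0) (T.l 0))))) (T.a (T.b (T.a (T.l 816) (T.b (T.l 816) (T.l 816))) (T.a (T.b (T.l 816) (T.l 816)) (T.l 0))) (T.b (T.a (T.b (T.l 816) (T.l 816)) (T.l 0)) (T.b (T.l 0) (T.l 0))))))), by decide +kernel⟩

def B012E_010 :
    ∃ t, chk3 (onCell 0 38347922 0 1073741824 1020054732 13421774 (corW 3 c0B eng mog cB012E gB0q0 gB1q2 gB0q1 gB1q1 dB0q0 dB1q2 dB0q1 dB1q1 true false)) t 1 1 1 = true :=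
  ⟨(T.b (T.l 1) (T.b (T.b (T.b (T.b (T.l 1) (T.b (T.a (T.l 1) (T.b (T.l 1) (T.a (T.a (T.l 1) (T.l 0)) (T.a (T.l 0) (T.l 0))))) (T.b (T.a (T.a (T.l 204) (T.l 204)) (T.a (T.a (T.l 204) (T.l 0)) (T.l 0))) (T.a (T.a (T.l 204) (T.l 204)) (T.a (T.a (T.l 0) (T.l 0)) (T.l 0)))))) (T.b (T.b (T.b (T.a (T.a (T.l 204) (T.l 204)) (T.a (T.a (T.l 204) (T.l 0)) (T.l 0))) (T.a (T.a (T.l 204) (T.l 204)) (T.a (T.a (T.l 0) (T.l 0)) (T.l 0)))) (T.a (T.a (T.l 204) (T.l 204)) (T.a (T.a (T.l 0) (T.l 0)) (T.l 0)))) (T.a (T.a (T.l 204) (T.l 0)) (T.a (T.a (T.l 0) (T.l 0)) (T.l 0))))) (T.a (T.a (T.l 0) (T.l 0)) (T.a (T.a (T.l 0) (T.b (T.l 0) (T.l 0))) (T.b (T.b (T.l 0) (T.l 0)) (T.l 0))))) (T.a (T.a (T.l 0) (T.l 0)) (T.a (T.b (T.l 0) (T.l 0)) (T.b (T.b (T.l 816) (T.l 0)) (T.b (T.l 0) (T.l 0))))))), by decide +kernel⟩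

def B012E_020 :
    ∃ t, chk3 (onCell 0 38347922 0 1073741824 1020054732 13421774 (corW 3 c0B eng mog cB012E gB0q0 gB2q2 gB0q1 gB1q1 dB0q0 dB2q2 dB0q1 dB1q1 true false)) t 1 1 1 = true :=
  ⟨(T.b (T.l 1) (T.b (T.b (T.l 1) (T.b (T.l 1) (T.b (T.b (T.l 1) (T.b (T.a (T.a (T.l 1) (T.l 816)) (T.a (T.a (T.l 816) (T.l 816)) (T.l 816))) (T.a (T.a (T.l 816) (T.l 816)) (T.a (T.a (T.l 816) (T.l 816)) (T.l 816))))) (T.b (T.b (T.a (T.a (T.l 816) (T.l 816)) (T.a (T.a (T.l 816) (T.l 816)) (T.l 816))) (T.a (T.a (T.l 816) (T.l 816)) (T.a (T.a (T.l 816) (T.l 816)) (T.l 816)))) (T.a (T.a (T.l 816) (T.l 816)) (T.a (T.a (T.l 816) (T.l 816)) (T.l 816))))))) (T.b (T.a (T.a (T.l 816) (T.l 816)) (T.a (T.a (T.l 816) (T.l 816)) (T.b (T.l 816) (T.b (T.l 816) (T.l 816))))) (T.a (T.a (T.l 816) (T.l 816)) (T.a (T.l 816) (T.a (T.b (T.l 816)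 (T.l 816)) (T.l 816))))))), by decide +kernel⟩

def B012E_100_1_4_1 :
    ∃ t, chk3 (onCell 0 38347922 0 1073741824 1020054732 13421774 (corW 3 c0B eng mog cB012E gB1q0 gB0q2 gB0q1 gB1q1 dB1q0 dB0q2 dB0q1 dB1q1 true false)) t 1 4 1 = true :=
  ⟨(T.l 1), by decide +kernel⟩

def B012E_100_1_10_1 :
    ∃ t, chk3 (onCell 0 38347922 0 1073741824 1020054732 13421774 (corW 3 c0B eng mog cB012E gB1q0 gB0q2 gB0q1 gB1q1 dB1q0 dB0q2 dB0q1 dB1q1 true false)) t 1 10 1 = true :=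
  ⟨(T.l 1), by decide +kernel⟩

def B012E_100_1_44_1 :
    ∃ t, chk3 (onCell 0 38347922 0 1073741824 1020054732 13421774 (corW 3 c0B eng mog cB012E gB1q0 gB0q2 gB0q1 gB1q1 dB1q0 dB0q2 dB0q1 dB1q1 true false)) t 1 44 1 = true :=
  ⟨(T.b (T.l 1) (T.b (T.a (T.b (T.l 1) (T.a (T.a (T.l 1) (T.a (T.l 1) (T.b (T.l 1) (T.b (T.l 1) (T.b (T.l 1) (T.a (T.c (T.l 816) (T.l 816)) (T.c (T.l 816) (T.l 816)))))))) (T.b (T.a (T.l 1) (T.a (T.l 1) (T.c (T.l 816) (T.l 0)))) (T.a (T.a (T.c (T.l 824) (T.l 816)) (T.c (T.l 816) (T.l 816))) (T.a (T.l 0) (T.l 0)))))) (T.b (T.a (T.a (T.l 1) (T.b (T.l 1) (T.b (T.l 1) (T.a (T.c (T.l 0) (T.l 0)) (T.l 32))))) (T.b (T.a (T.l 1) (T.a (T.c (T.l 0) (T.l 204)) (T.l 236))) (T.a (T.a (T.c (T.l 0) (T.l 204)) (T.l 32)) (T.c (T.l 0) (T.l 236))))) (T.a (T.a (T.a (T.c (T.l 816) (T.l 0)) (T.l 32)) (T.a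 (T.l 32) (T.l 32))) (T.a (T.c (T.l 0) (T.l 32)) (T.c (T.l 0) (T.l 204)))))) (T.a (T.b (T.a (T.a (T.c (T.c (T.l 816) (T.l 816)) (T.l 816)) (T.a (T.c (T.l 816) (T.l 816)) (T.a (T.c (T.l 816) (T.l 816)) (T.c (T.l 816) (T.l 816))))) (T.a (T.a (T.c (T.l 816) (T.l 816)) (T.l 816)) (T.a (T.l 0) (T.l 0)))) (T.a (T.a (T.c (T.l 816) (T.l 816)) (T.a (T.l 816) (T.c (T.l 816) (T.l 816)))) (T.a (T.a (T.l 816) (T.l 816)) (T.a (T.l 0) (T.l 0))))) (T.a (T.a (T.c (T.l 0) (T.l 0)) (T.c (T.l 0) (T.l 32))) (T.a (T.l 32) (T.l 0)))))), by decide +kernel⟩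

def B012E_100_1_45_1 :
    ∃ t, chk3 (onCell 0 38347922 0 1073741824 1020054732 13421774 (corW 3 c0B eng mog cB012E gB1q0 gB0q2 gB0q1 gB1q1 dB1q0 dB0q2 dB0q1 dB1q1 true false)) t 1 45 1 = true :=
  ⟨(T.b (T.b (T.a (T.b (T.a (T.a (T.l 816) (T.a (T.l 816) (T.l 816))) (T.a (T.a (T.l 816) (T.l 816)) (T.c (T.l 0) (T.l 0)))) (T.a (T.a (T.l 816) (T.a (T.l 816) (T.l 816))) (T.a (T.c (T.l 816) (T.l 0)) (T.l 0)))) (T.a (T.a (T.l 0) (T.l 0)) (T.a (T.l 0) (T.l 0)))) (T.a (T.b (T.a (T.a (T.l 816) (T.a (T.l 816) (T.l 816))) (T.a (T.l 128) (T.l 0))) (T.a (T.a (T.l 816) (T.a (T.l 816) (T.l 816))) (T.a (T.l 0) (T.l 0)))) (T.a (T.a (T.l 0) (T.l 0)) (T.a (T.l 0) (T.l 0))))) (T.b (T.a (T.b (T.a (T.a (T.l 816) (T.a (T.l 816) (T.l 816))) (T.a (T.l 0) (T.l 0))) (T.a (T.a (T.l 816) (T.a (T.l 816) (T.l 816))) (T.a (T.l 0) (T.l 0))))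 (T.a (T.a (T.l 0) (T.l 0)) (T.l 0))) (T.a (T.a (T.a (T.l 816) (T.a (T.l 816) (T.l 816))) (T.a (T.l 0) (T.l 0))) (T.a (T.a (T.l 0) (T.l 0)) (T.l 0))))), by decide +kernel⟩

def B012E_100_1_23_1 :
    ∃ t, chk3 (onCell 0 38347922 0 1073741824 1020054732 13421774 (corW 3 c0B eng mog cB012E gB1q0 gB0q2 gB0q1 gB1q1 dB1q0 dB0q2 dB0q1 dB1q1 true false)) t 1 23 1 = true :=
  ⟨(T.b (T.b (T.b (T.a (T.a (T.a (T.l 816) (T.a (T.l 816) (T.l 816))) (T.a (T.l 0) (T.l 0))) (T.a (T.a (T.l 0) (T.l 0)) (T.l 0))) (T.a (T.a (T.a (T.l 816) (T.a (T.l 816) (T.l 816))) (T.a (T.l 0) (T.l 0))) (T.a (T.a (T.l 0) (T.l 0)) (T.l 0)))) (T.a (T.a (T.a (T.l 816) (T.a (T.l 816) (T.l 816))) (T.a (T.l 0) (T.l 0))) (T.a (T.a (T.l 0) (T.l 0)) (T.l 0)))) (T.a (T.a (T.a (T.l 816) (T.l 0)) (T.b (T.l 0) (T.l 0))) (T.a (T.b (T.l 0) (T.l 0)) (T.l 0)))),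 by decide +kernel⟩

def B012E_100_1_3_1 :
    ∃ t, chk3 (onCell 0 38347922 0 1073741824 1020054732 13421774 (corW 3 c0B eng mog cB012E gB1q0 gB0q2 gB0q1 gB1q1 dB1q0 dB0q2 dB0q1 dB1q1 true false)) t 1 3 1 = true :=
  ⟨(T.b (T.b (T.b (T.b (T.a (T.a (T.a (T.l 816) (T.l 0)) (T.l 0)) (T.a (T.l 0) (T.l 0))) (T.a (T.a (T.a (T.l 816) (T.l 0)) (T.a (T.l 816) (T.l 0))) (T.a (T.l 0) (T.l 0)))) (T.a (T.a (T.a (T.l 816) (T.l 0)) (T.a (T.l 816) (T.l 0))) (T.a (T.b (T.l 0) (T.l 0)) (T.l 0)))) (T.b (T.a (T.a (T.a (T.l 816) (T.l 0)) (T.a (T.l 816) (T.l 0))) (T.a (T.b (T.l 0) (T.l 0)) (T.l 0))) (T.a (T.a (T.a (T.l 816) (T.l 0)) (T.a (T.l 0) (T.l 0))) (T.a (T.l 0) (T.l 0))))) (T.b (T.a (T.a (T.a (T.l 816) (T.l 0)) (T.a (T.b (T.l 0) (T.l 0)) (T.l 0))) (T.a (T.b (T.l 0) (T.l 0)) (T.l 0))) (T.a (T.a (T.a (T.l 816) (T.l 816)) (T.a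 (T.b (T.l 0) (T.l 0)) (T.l 0))) (T.a (T.b (T.l 0) (T.l 0)) (T.l 0))))), by decide +kernel⟩

theorem B012E_100_1_22_1 :
    ∃ t, chk3 (onCell 0 38347922 0 1073741824 1020054732 13421774 (corW 3 c0B eng mog cB012E gB1q0 gB0q2 gB0q1 gB1q1 dB1q0 dB0q2 dB0q1 dB1q1 true false)) t 1 22 1 = true :=
  ex3_b B012E_100_1_44_1 B012E_100_1_45_1
theorem B012E_100_1_11_1 :
    ∃ t, chk3 (onCell 0 38347922 0 1073741824 1020054732 13421774 (corW 3 c0B eng mog cB012E gB1q0 gB0q2 gB0q1 gB1q1 dB1q0 dB0q2 dB0q1 dB1q1 true false)) t 1 11 1 = true :=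
  ex3_b B012E_100_1_22_1 B012E_100_1_23_1
theorem B012E_100_1_5_1 :
    ∃ t, chk3 (onCell 0 38347922 0 1073741824 1020054732 13421774 (corW 3 c0B eng mog cB012E gB1q0 gB0q2 gB0q1 gB1q1 dB1q0 dB0q2 dB0q1 dB1q1 true false)) t 1 5 1 = true :=
  ex3_b B012E_100_1_10_1 B012E_100_1_11_1
theorem B012E_100_1_2_1 :
    ∃ t, chk3 (onCell 0 38347922 0 1073741824 1020054732 13421774 (corW 3 c0B eng mog cB012E gB1q0 gB0q2 gB0q1 gB1q1 dB1q0 dB0q2 dB0q1 dB1q1 true false)) t 1 2 1 = true :=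
  ex3_b B012E_100_1_4_1 B012E_100_1_5_1
theorem B012E_100 :
    ∃ t, chk3 (onCell 0 38347922 0 1073741824 1020054732 13421774 (corW 3 c0B eng mog cB012E gB1q0 gB0q2 gB0q1 gB1q1 dB1q0 dB0q2 dB0q1 dB1q1 true false)) t 1 1 1 = true :=
  ex3_b B012E_100_1_2_1 B012E_100_1_3_1

def B012E_110 :
    ∃ t, chk3 (onCell 0 38347922 0 1073741824 1020054732 13421774 (corW 3 c0B eng mog cB012E gB1q0 gB1q2 gB0q1 gB1q1 dB1q0 dB1q2 dB0q1 dB1q1 true false)) t 1 1 1 = true :=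
  ⟨(T.b (T.b (T.l 1) (T.b (T.l 1) (T.b (T.a (T.l 1) (T.b (T.l 1) (T.a (T.l 1) (T.b (T.l 1) (T.l 0))))) (T.b (T.b (T.b (T.a (T.b (T.a (T.l 1) (T.a (T.l 1) (T.l 0))) (T.a (T.a (T.l 0) (T.a (T.l 0) (T.l 0))) (T.a (T.l 0) (T.l 0)))) (T.a (T.l 0) (T.l 0))) (T.a (T.b (T.a (T.a (T.l 0) (T.a (T.l 0) (T.l 0))) (T.a (T.l 0) (T.l 0))) (T.a (T.a (T.l 0) (T.c (T.l 0) (T.l 0))) (T.a (T.l 0) (T.l 0)))) (T.a (T.l 0) (T.l 0)))) (T.b (T.a (T.a (T.a (T.l 0) (T.c (T.l 0) (T.l 0))) (T.a (T.l 0) (T.l 0))) (T.a (T.l 0) (T.l 0))) (T.a (T.a (T.a (T.l 0) (T.l 0)) (T.l 0)) (T.a (T.l 0) (T.l 0))))) (T.a (T.a (T.a (T.l 0) (T.l 0)) (T.l 0)) (T.a (T.l 0) (T.l 0))))))) (T.b (T.b (T.b (T.a (T.a (T.a (T.l 0) (T.l 0)) (T.l 0)) (T.a (T.l 0) (T.l 0))) (T.a (T.a (T.a (T.l 0) (T.l 0)) (T.l 0)) (T.a (T.l 0) (T.l 0)))) (T.a (T.a (T.a (T.l 0) (T.l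 0)) (T.l 0)) (T.a (T.b (T.l 0) (T.l 0)) (T.l 0)))) (T.a (T.a (T.a (T.l 0) (T.l 0)) (T.l 0)) (T.a (T.l 0) (T.b (T.l 0) (T.l 0)))))), by decide +kernel⟩

def B012E_120 :
    ∃ t, chk3 (onCell 0 38347922 0 1073741824 1020054732 13421774 (corW 3 c0B eng mog cB012E gB1q0 gB2q2 gB0q1 gB1q1 dB1q0 dB2q2 dB0q1 dB1q1 true false)) t 1 1 1 = true :=
  ⟨(T.b (T.l 1) (T.b (T.b (T.b (T.l 1) (T.b (T.b (T.b (T.b (T.l 1) (T.a (T.a (T.l 1) (T.l 816)) (T.a (T.l 816) (T.l 816)))) (T.a (T.a (T.a (T.l 816) (T.l 816)) (T.l 816)) (T.a (T.l 816) (T.l 816)))) (T.a (T.a (T.a (T.l 816) (T.l 816)) (T.l 816)) (T.a (T.l 816) (T.l 816)))) (T.a (T.a (T.a (T.l 816) (T.l 816)) (T.l 816)) (T.a (T.l 816) (T.l 816))))) (T.b (T.a (T.a (T.a (T.l 816) (T.l 816)) (T.l 816)) (T.a (T.l 816) (T.l 816))) (T.a (T.a (T.a (T.l 816) (T.l 816)) (T.l 816)) (T.a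 (T.l 816) (T.l 816))))) (T.a (T.a (T.a (T.l 816) (T.l 816)) (T.l 816)) (T.a (T.l 816) (T.b (T.l 816) (T.l 816)))))), by decide +kernel⟩

def B012E_200_2_1_1 :
    ∃ t, chk3 (onCell 0 13421772 0 1073741824 1020054732 13421774 (corW 3 c0B eng mog cB012E gB2q0 gB0q2 gB0q1 gB1q1 dB2q0 dB0q2 dB0q1 dB1q1 true false)) t 2 1 1 = true :=
  ⟨(T.b (T.b (T.b (T.l 1) (T.b (T.l 1) (T.b (T.b (T.b (T.l 1) (T.b (T.l 1) (T.c (T.l 0) (T.l 236)))) (T.c (T.l 0) (T.l 204))) (T.l 0)))) (T.b (T.l 0) (T.l 0))) (T.l 0)), by decide +kernel⟩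

def B012E_200_3_8_1 :
    ∃ t, chk3 (onCell 0 13421772 0 1073741824 1020054732 13421774 (corW 3 c0B eng mog cB012E gB2q0 gB0q2 gB0q1 gB1q1 dB2q0 dB0q2 dB0q1 dB1q1 true false)) t 3 8 1 = true :=
  ⟨(T.l 1), by decide +kernel⟩

def B012E_200_3_18_1 :
    ∃ t, chk3 (onCell 0 13421772 0 1073741824 1020054732 13421774 (corW 3 c0B eng mog cB012E gB2q0 gB0q2 gB0q1 gB1q1 dB2q0 dB0q2 dB0q1 dB1q1 true false)) t 3 18 1 = true :=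
  ⟨(T.l 1), by decide +kernel⟩

def B012E_200_6_152_1 :
    ∃ t, chk3 (onCell 0 13421772 0 1073741824 1020054732 13421774 (corW 3 c0B eng mog cB012E gB2q0 gB0q2 gB0q1 gB1q1 dB2q0 dB0q2 dB0q1 dB1q1 true false)) t 6 152 1 = true :=
  ⟨(T.l 1), by decide +kernel⟩

def B012E_200_6_306_1 :
    ∃ t, chk3 (onCell 0 13421772 0 1073741824 1020054732 13421774 (corW 3 c0B eng mog cB012E gB2q0 gB0q2 gB0q1 gB1q1 dB2q0 dB0q2 dB0q1 dB1q1 true false)) t 6 306 1 = true :=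
  ⟨(T.l 1), by decide +kernel⟩

def B012E_200_6_614_1 :
    ∃ t, chk3 (onCell 0 13421772 0 1073741824 1020054732 13421774 (corW 3 c0B eng mog cB012E gB2q0 gB0q2 gB0q1 gB1q1 dB2q0 dB0q2 dB0q1 dB1q1 true false)) t 6 614 1 = true :=
  ⟨(T.b (T.b (T.a (T.l 1) (T.c (T.l 32) (T.c (T.l 236) (T.a (T.l 1) (T.l 236))))) (T.b (T.b (T.a (T.c (T.l 32) (T.c (T.l 236) (T.c (T.l 236) (T.l 236)))) (T.c (T.l 32) (T.c (T.l 236) (T.c (T.l 236) (T.l 236))))) (T.a (T.c (T.l 32) (T.c (T.l 236) (T.c (T.l 236) (T.l 236)))) (T.c (T.l 32) (T.c (T.l 204) (T.c (T.l 236) (T.l 236)))))) (T.b (T.a (T.c (T.l 32) (T.c (T.l 236) (T.c (T.l 236) (T.l 236)))) (T.c (T.l 0) (T.c (T.l 204) (T.c (T.l 236) (T.l 236))))) (T.a (T.c (T.l 32) (T.a (T.l 236) (T.l 236))) (T.c (T.l 0) (T.c (T.l 204) (T.l 236))))))) (T.b (T.b (T.b (T.a (T.c (T.l 32) (T.a (T.l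 236) (T.l 236))) (T.c (T.l 0) (T.c (T.l 204) (T.l 236)))) (T.a (T.c (T.l 0) (T.a (T.l 236) (T.l 236))) (T.c (T.l 0) (T.c (T.l 204) (T.l 236))))) (T.b (T.a (T.c (T.l 0) (T.a (T.l 236) (T.l 236))) (T.c (T.l 0) (T.c (T.l 204) (T.l 236)))) (T.a (T.c (T.l 0) (T.c (T.l 204) (T.l 236))) (T.c (T.l 0) (T.c (T.l 204) (T.l 236)))))) (T.b (T.b (T.a (T.c (T.l 0) (T.c (T.l 204) (T.l 236))) (T.c (T.l 0) (T.c (T.l 204) (T.l 236)))) (T.a (T.c (T.l 0) (T.c (T.l 204) (T.l 236))) (T.c (T.l 0) (T.c (T.l 204) (T.l 236))))) (T.b (T.a (T.c (T.l 0) (T.c (T.l 204) (T.l 236))) (T.c (T.l 0) (T.c (T.l 204) (T.l 236)))) (T.a (T.c (T.l 0) (T.c (T.l 204) (T.l 236))) (T.c (T.l 0) (T.c (T.l 204) (T.l 236)))))))), by decide +kernel⟩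

def B012E_200_6_615_1 :
    ∃ t, chk3 (onCell 0 13421772 0 1073741824 1020054732 13421774 (corW 3 c0B eng mog cB012E gB2q0 gB0q2 gB0q1 gB1q1 dB2q0 dB0q2 dB0q1 dB1q1 true false)) t 6 615 1 = true :=
  ⟨(T.b (T.b (T.b (T.b (T.a (T.c (T.l 0) (T.c (T.l 204) (T.l 236))) (T.c (T.l 0) (T.c (T.l 204) (T.l 236)))) (T.a (T.c (T.l 0) (T.c (T.l 204) (T.l 236))) (T.c (T.l 0) (T.c (T.l 204) (T.l 236))))) (T.b (T.a (T.c (T.l 0) (T.c (T.l 204) (T.l 236))) (T.c (T.l 0) (T.c (T.l 204) (T.l 236)))) (T.a (T.c (T.l 0) (T.c (T.l 204) (T.l 236))) (T.c (T.l 0) (T.c (T.l 204) (T.l 204)))))) (T.b (T.b (T.a (T.c (T.l 0) (T.c (T.l 204) (T.l 236))) (T.c (T.l 0) (T.c (T.l 204) (T.l 204)))) (T.a (T.c (T.l 0) (T.c (T.l 204) (T.l 204))) (T.c (T.l 0) (T.c (T.l 204) (T.l 204))))) (T.b (T.a (T.c (T.l 0) (T.c (T.l 204) (T.l 204))) (T.c (T.l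 0) (T.c (T.l 204) (T.l 204)))) (T.a (T.c (T.l 0) (T.c (T.l 204) (T.l 204))) (T.c (T.l 0) (T.c (T.l 204) (T.l 204))))))) (T.b (T.b (T.b (T.a (T.c (T.l 0) (T.c (T.l 204) (T.l 204))) (T.c (T.l 0) (T.c (T.l 204) (T.l 204)))) (T.a (T.c (T.l 0) (T.c (T.l 204) (T.l 204))) (T.c (T.l 0) (T.c (T.l 204) (T.l 204))))) (T.b (T.a (T.c (T.l 0) (T.c (T.l 204) (T.l 204))) (T.c (T.l 0) (T.c (T.l 204) (T.l 204)))) (T.a (T.c (T.l 0) (T.c (T.l 204) (T.l 204))) (T.c (T.l 0) (T.l 236))))) (T.b (T.b (T.a (T.c (T.l 0) (T.c (T.l 204) (T.l 204))) (T.c (T.l 0) (T.l 236))) (T.a (T.c (T.l 0) (T.c (T.l 204) (T.l 204))) (T.c (T.l 0) (T.l 236)))) (T.b (T.a (T.c (T.l 0) (T.c (T.l 204) (T.l 204))) (T.c (T.l 0) (T.l 236))) (T.a (T.c (T.l 0) (T.c (T.l 204) (T.l 204))) (T.c (T.l 0) (T.l 236))))))), by decide +kernel⟩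

def B012E_200_6_77_1 :
    ∃ t, chk3 (onCell 0 13421772 0 1073741824 1020054732 13421774 (corW 3 c0B eng mog cB012E gB2q0 gB0q2 gB0q1 gB1q1 dB2q0 dB0q2 dB0q1 dB1q1 true false)) t 6 77 1 = true :=
  ⟨(T.a (T.c (T.l 0) (T.c (T.l 204) (T.l 204))) (T.c (T.l 0) (T.l 236))), by decide +kernel⟩

def B012E_200_6_39_1 :
    ∃ t, chk3 (onCell 0 13421772 0 1073741824 1020054732 13421774 (corW 3 c0B eng mog cB012E gB2q0 gB0q2 gB0q1 gB1q1 dB2q0 dB0q2 dB0q1 dB1q1 true false)) t 6 39 1 = true :=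
  ⟨(T.c (T.l 0) (T.l 512)), by decide +kernel⟩

def B012E_200_7_152_1 :
    ∃ t, chk3 (onCell 0 13421772 0 1073741824 1020054732 13421774 (corW 3 c0B eng mog cB012E gB2q0 gB0q2 gB0q1 gB1q1 dB2q0 dB0q2 dB0q1 dB1q1 true false)) t 7 152 1 = true :=
  ⟨(T.l 1), by decide +kernel⟩

def B012E_200_7_306_1 :
    ∃ t, chk3 (onCell 0 13421772 0 1073741824 1020054732 13421774 (corW 3 c0B eng mog cB012E gB2q0 gB0q2 gB0q1 gB1q1 dB2q0 dB0q2 dB0q1 dB1q1 true false)) t 7 306 1 = true :=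
  ⟨(T.l 1), by decide +kernel⟩

def B012E_200_7_1228_1 :
    ∃ t, chk3 (onCell 0 13421772 0 1073741824 1020054732 13421774 (corW 3 c0B eng mog cB012E gB2q0 gB0q2 gB0q1 gB1q1 dB2q0 dB0q2 dB0q1 dB1q1 true false)) t 7 1228 1 = true :=
  ⟨(T.b (T.b (T.l 1) (T.b (T.a (T.l 1) (T.a (T.l 1) (T.c (T.l 236) (T.c (T.l 236) (T.c (T.l 236) (T.l 236)))))) (T.a (T.c (T.l 32) (T.c (T.l 236) (T.c (T.l 236) (T.l 236)))) (T.b (T.c (T.c (T.l 204) (T.l 236)) (T.a (T.c (T.l 204) (T.l 236)) (T.c (T.l 236) (T.l 236)))) (T.c (T.c (T.l 204) (T.l 236)) (T.a (T.c (T.l 204) (T.l 236)) (T.c (T.l 236) (T.l 236)))))))) (T.b (T.b (T.a (T.c (T.l 32) (T.c (T.l 236) (T.c (T.l 236) (T.l 236)))) (T.b (T.c (T.c (T.l 204) (T.l 236)) (T.a (T.c (T.l 204) (T.l 236)) (T.c (T.l 236) (T.l 236)))) (T.c (T.c (T.l 204) (T.l 236)) (T.a (T.c (T.l 204) (T.l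 236)) (T.c (T.l 236) (T.l 236)))))) (T.a (T.c (T.l 32) (T.c (T.l 236) (T.c (T.l 236) (T.l 236)))) (T.b (T.c (T.c (T.l 204) (T.l 236)) (T.a (T.c (T.l 204) (T.l 236)) (T.c (T.l 236) (T.l 236)))) (T.c (T.c (T.l 204) (T.l 236)) (T.a (T.c (T.l 204) (T.l 236)) (T.c (T.l 236) (T.l 236))))))) (T.b (T.a (T.c (T.l 32) (T.c (T.l 236) (T.c (T.l 236) (T.l 236)))) (T.b (T.c (T.c (T.l 204) (T.l 236)) (T.a (T.c (T.l 204) (T.l 236)) (T.c (T.l 236) (T.l 236)))) (T.c (T.c (T.l 204) (T.l 236)) (T.a (T.c (T.l 204) (T.l 236)) (T.c (T.l 204) (T.l 236)))))) (T.a (T.c (T.l 0) (T.c (T.l 236) (T.l 236))) (T.b (T.c (T.c (T.l 204) (T.l 236)) (T.a (T.c (T.l 204) (T.l 236)) (T.c (T.l 204) (T.l 236)))) (T.c (T.c (T.l 204) (T.l 236)) (T.a (T.c (T.l 204) (T.l 236)) (T.c (T.l 204) (T.l 236))))))))), by decide +kernel⟩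

def B012E_200_7_1229_1 :
    ∃ t, chk3 (onCell 0 13421772 0 1073741824 1020054732 13421774 (corW 3 c0B eng mog cB012E gB2q0 gB0q2 gB0q1 gB1q1 dB2q0 dB0q2 dB0q1 dB1q1 true false)) t 7 1229 1 = true :=
  ⟨(T.b (T.b (T.b (T.a (T.c (T.l 0) (T.c (T.l 204) (T.l 236))) (T.c (T.c (T.l 204) (T.l 236)) (T.a (T.c (T.l 204) (T.l 236)) (T.c (T.l 204) (T.l 236))))) (T.a (T.c (T.l 0) (T.c (T.l 204) (T.l 236))) (T.c (T.c (T.l 204) (T.l 236)) (T.a (T.c (T.l 204) (T.l 236)) (T.c (T.l 204) (T.l 236)))))) (T.b (T.a (T.c (T.l 0) (T.c (T.l 204) (T.l 236))) (T.c (T.c (T.l 204) (T.l 236)) (T.a (T.c (T.l 204) (T.l 236)) (T.c (T.l 204) (T.l 236))))) (T.a (T.c (T.l 0) (T.c (T.l 204) (T.l 236))) (T.c (T.c (T.l 204) (T.l 236)) (T.a (T.c (T.l 204) (T.l 236)) (T.c (T.l 204) (T.l 236))))))) (T.b (T.b (T.a (T.c (T.l 0) (T.c (T.l 204) (T.l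 236))) (T.c (T.c (T.l 204) (T.l 236)) (T.a (T.c (T.l 204) (T.l 236)) (T.c (T.l 204) (T.l 236))))) (T.a (T.c (T.l 0) (T.c (T.l 204) (T.l 236))) (T.c (T.c (T.l 204) (T.l 204)) (T.a (T.c (T.l 204) (T.l 236)) (T.c (T.l 204) (T.l 236)))))) (T.b (T.a (T.c (T.l 0) (T.c (T.l 204) (T.l 236))) (T.c (T.c (T.l 204) (T.l 204)) (T.a (T.l 236) (T.c (T.l 204) (T.l 236))))) (T.a (T.c (T.l 0) (T.c (T.l 204) (T.l 236))) (T.c (T.c (T.l 204) (T.l 204)) (T.a (T.l 236) (T.c (T.l 204) (T.l 236)))))))), by decide +kernel⟩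

def B012E_200_7_615_1 :
    ∃ t, chk3 (onCell 0 13421772 0 1073741824 1020054732 13421774 (corW 3 c0B eng mog cB012E gB2q0 gB0q2 gB0q1 gB1q1 dB2q0 dB0q2 dB0q1 dB1q1 true false)) t 7 615 1 = true :=
  ⟨(T.b (T.b (T.b (T.b (T.a (T.c (T.l 0) (T.c (T.l 204) (T.l 236))) (T.c (T.c (T.l 0) (T.l 204)) (T.a (T.l 236) (T.c (T.l 204) (T.l 236))))) (T.a (T.c (T.l 0) (T.c (T.l 204) (T.l 236))) (T.c (T.c (T.l 0) (T.l 204)) (T.a (T.l 236) (T.c (T.l 204) (T.l 236)))))) (T.b (T.a (T.c (T.l 0) (T.c (T.l 204) (T.l 236))) (T.c (T.l 32) (T.a (T.l 236) (T.c (T.l 204) (T.l 236))))) (T.a (T.c (T.l 0) (T.c (T.l 204) (T.l 236))) (T.c (T.l 32) (T.a (T.l 236) (T.c (T.l 204) (T.l 236))))))) (T.b (T.b (T.a (T.c (T.l 0) (T.c (T.l 204) (T.l 236))) (T.c (T.l 32) (T.a (T.l 236) (T.l 236)))) (T.a (T.c (T.l 0) (T.c (T.l 204) (T.l 236))) (T.c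 (T.l 32) (T.a (T.l 236) (T.l 236))))) (T.b (T.a (T.c (T.l 0) (T.c (T.l 204) (T.l 204))) (T.c (T.l 32) (T.a (T.l 236) (T.l 236)))) (T.a (T.c (T.l 0) (T.c (T.l 204) (T.l 204))) (T.c (T.l 32) (T.a (T.l 236) (T.l 236))))))) (T.b (T.b (T.b (T.a (T.c (T.l 0) (T.c (T.l 204) (T.l 204))) (T.c (T.l 32) (T.a (T.l 236) (T.l 236)))) (T.a (T.c (T.l 0) (T.c (T.l 204) (T.l 204))) (T.c (T.l 32) (T.c (T.l 236) (T.l 236))))) (T.b (T.a (T.c (T.l 0) (T.l 236)) (T.c (T.l 32) (T.c (T.l 236) (T.l 236)))) (T.a (T.c (T.l 0) (T.l 236)) (T.c (T.l 32) (T.c (T.l 236) (T.l 236)))))) (T.b (T.b (T.a (T.c (T.l 0) (T.l 236)) (T.c (T.l 0) (T.c (T.l 236) (T.l 236)))) (T.a (T.c (T.l 0) (T.l 236)) (T.c (T.l 0) (T.c (T.l 204) (T.l 236))))) (T.b (T.a (T.c (T.l 0) (T.l 236)) (T.c (T.l 0) (T.c (T.l 204) (T.l 236)))) (T.a (T.c (T.l 0) (T.l 236)) (T.c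 (T.l 0) (T.c (T.l 204) (T.l 236)))))))), by decide +kernel⟩

def B012E_200_7_77_1 :
    ∃ t, chk3 (onCell 0 13421772 0 1073741824 1020054732 13421774 (corW 3 c0B eng mog cB012E gB2q0 gB0q2 gB0q1 gB1q1 dB2q0 dB0q2 dB0q1 dB1q1 true false)) t 7 77 1 = true :=
  ⟨(T.a (T.c (T.l 0) (T.l 236)) (T.c (T.l 32) (T.a (T.l 236) (T.l 236)))), by decide +kernel⟩

def B012E_200_7_39_1 :
    ∃ t, chk3 (onCell 0 13421772 0 1073741824 1020054732 13421774 (corW 3 c0B eng mog cB012E gB2q0 gB0q2 gB0q1 gB1q1 dB2q0 dB0q2 dB0q1 dB1q1 true false)) t 7 39 1 = true :=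
  ⟨(T.l 544), by decide +kernel⟩

def B012E_200_3_5_1 :
    ∃ t, chk3 (onCell 0 13421772 0 1073741824 1020054732 13421774 (corW 3 c0B eng mog cB012E gB2q0 gB0q2 gB0q1 gB1q1 dB2q0 dB0q2 dB0q1 dB1q1 true false)) t 3 5 1 = true :=
  ⟨(T.a (T.b (T.l 512) (T.l 0)) (T.b (T.l 0) (T.l 0))), by decide +kernel⟩

def B012E_200_3_3_1 :
    ∃ t, chk3 (onCell 0 13421772 0 1073741824 1020054732 13421774 (corW 3 c0B eng mog cB012E gB2q0 gB0q2 gB0q1 gB1q1 dB2q0 dB0q2 dB0q1 dB1q1 true false)) t 3 3 1 = true :=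
  ⟨(T.b (T.b (T.l 0) (T.l 0)) (T.a (T.l 0) (T.l 0))), by decide +kernel⟩

theorem B012E_200_7_614_1 :
    ∃ t, chk3 (onCell 0 13421772 0 1073741824 1020054732 13421774 (corW 3 c0B eng mog cB012E gB2q0 gB0q2 gB0q1 gB1q1 dB2q0 dB0q2 dB0q1 dB1q1 true false)) t 7 614 1 = true :=
  ex3_b B012E_200_7_1228_1 B012E_200_7_1229_1
theorem B012E_200_7_307_1 :
    ∃ t, chk3 (onCell 0 13421772 0 1073741824 1020054732 13421774 (corW 3 c0B eng mog cB012E gB2q0 gB0q2 gB0q1 gB1q1 dB2q0 dB0q2 dB0q1 dB1q1 true false)) t 7 307 1 = true :=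
  ex3_b B012E_200_7_614_1 B012E_200_7_615_1
theorem B012E_200_7_153_1 :
    ∃ t, chk3 (onCell 0 13421772 0 1073741824 1020054732 13421774 (corW 3 c0B eng mog cB012E gB2q0 gB0q2 gB0q1 gB1q1 dB2q0 dB0q2 dB0q1 dB1q1 true false)) t 7 153 1 = true :=
  ex3_b B012E_200_7_306_1 B012E_200_7_307_1
theorem B012E_200_7_76_1 :
    ∃ t, chk3 (onCell 0 13421772 0 1073741824 1020054732 13421774 (corW 3 c0B eng mog cB012E gB2q0 gB0q2 gB0q1 gB1q1 dB2q0 dB0q2 dB0q1 dB1q1 true false)) t 7 76 1 = true :=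
  ex3_b B012E_200_7_152_1 B012E_200_7_153_1
theorem B012E_200_7_38_1 :
    ∃ t, chk3 (onCell 0 13421772 0 1073741824 1020054732 13421774 (corW 3 c0B eng mog cB012E gB2q0 gB0q2 gB0q1 gB1q1 dB2q0 dB0q2 dB0q1 dB1q1 true false)) t 7 38 1 = true :=
  ex3_b B012E_200_7_76_1 B012E_200_7_77_1
theorem B012E_200_7_19_1 :
    ∃ t, chk3 (onCell 0 13421772 0 1073741824 1020054732 13421774 (corW 3 c0B eng mog cB012E gB2q0 gB0q2 gB0q1 gB1q1 dB2q0 dB0q2 dB0q1 dB1q1 true false)) t 7 19 1 = true :=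
  ex3_b B012E_200_7_38_1 B012E_200_7_39_1
theorem B012E_200_6_307_1 :
    ∃ t, chk3 (onCell 0 13421772 0 1073741824 1020054732 13421774 (corW 3 c0B eng mog cB012E gB2q0 gB0q2 gB0q1 gB1q1 dB2q0 dB0q2 dB0q1 dB1q1 true false)) t 6 307 1 = true :=
  ex3_b B012E_200_6_614_1 B012E_200_6_615_1
theorem B012E_200_6_153_1 :
    ∃ t, chk3 (onCell 0 13421772 0 1073741824 1020054732 13421774 (corW 3 c0B eng mog cB012E gB2q0 gB0q2 gB0q1 gB1q1 dB2q0 dB0q2 dB0q1 dB1q1 true false)) t 6 153 1 = true :=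
  ex3_b B012E_200_6_306_1 B012E_200_6_307_1
theorem B012E_200_6_76_1 :
    ∃ t, chk3 (onCell 0 13421772 0 1073741824 1020054732 13421774 (corW 3 c0B eng mog cB012E gB2q0 gB0q2 gB0q1 gB1q1 dB2q0 dB0q2 dB0q1 dB1q1 true false)) t 6 76 1 = true :=
  ex3_b B012E_200_6_152_1 B012E_200_6_153_1
theorem B012E_200_6_38_1 :
    ∃ t, chk3 (onCell 0 13421772 0 1073741824 1020054732 13421774 (corW 3 c0B eng mog cB012E gB2q0 gB0q2 gB0q1 gB1q1 dB2q0 dB0q2 dB0q1 dB1q1 true false)) t 6 38 1 = true :=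
  ex3_b B012E_200_6_76_1 B012E_200_6_77_1
theorem B012E_200_6_19_1 :
    ∃ t, chk3 (onCell 0 13421772 0 1073741824 1020054732 13421774 (corW 3 c0B eng mog cB012E gB2q0 gB0q2 gB0q1 gB1q1 dB2q0 dB0q2 dB0q1 dB1q1 true false)) t 6 19 1 = true :=
  ex3_b B012E_200_6_38_1 B012E_200_6_39_1
theorem B012E_200_3_19_1 :
    ∃ t, chk3 (onCell 0 13421772 0 1073741824 1020054732 13421774 (corW 3 c0B eng mog cB012E gB2q0 gB0q2 gB0q1 gB1q1 dB2q0 dB0q2 dB0q1 dB1q1 true false)) t 3 19 1 = true :=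
  ex3_a B012E_200_6_19_1 B012E_200_7_19_1
theorem B012E_200_3_9_1 :
    ∃ t, chk3 (onCell 0 13421772 0 1073741824 1020054732 13421774 (corW 3 c0B eng mog cB012E gB2q0 gB0q2 gB0q1 gB1q1 dB2q0 dB0q2 dB0q1 dB1q1 true false)) t 3 9 1 = true :=
  ex3_b B012E_200_3_18_1 B012E_200_3_19_1
theorem B012E_200_3_4_1 :
    ∃ t, chk3 (onCell 0 13421772 0 1073741824 1020054732 13421774 (corW 3 c0B eng mog cB012E gB2q0 gB0q2 gB0q1 gB1q1 dB2q0 dB0q2 dB0q1 dB1q1 true false)) t 3 4 1 = true :=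
  ex3_b B012E_200_3_8_1 B012E_200_3_9_1
theorem B012E_200_3_2_1 :
    ∃ t, chk3 (onCell 0 13421772 0 1073741824 1020054732 13421774 (corW 3 c0B eng mog cB012E gB2q0 gB0q2 gB0q1 gB1q1 dB2q0 dB0q2 dB0q1 dB1q1 true false)) t 3 2 1 = true :=
  ex3_b B012E_200_3_4_1 B012E_200_3_5_1
theorem B012E_200_3_1_1 :
    ∃ t, chk3 (onCell 0 13421772 0 1073741824 1020054732 13421774 (corW 3 c0B eng mog cB012E gB2q0 gB0q2 gB0q1 gB1q1 dB2q0 dB0q2 dB0q1 dB1q1 true false)) t 3 1 1 = true :=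
  ex3_b B012E_200_3_2_1 B012E_200_3_3_1
theorem B012E_200 :
    ∃ t, chk3 (onCell 0 13421772 0 1073741824 1020054732 13421774 (corW 3 c0B eng mog cB012E gB2q0 gB0q2 gB0q1 gB1q1 dB2q0 dB0q2 dB0q1 dB1q1 true false)) t 1 1 1 = true :=
  ex3_a B012E_200_2_1_1 B012E_200_3_1_1

def B012E_210_1_8_1 :
    ∃ t, chk3 (onCell 0 38347922 0 1073741824 1020054732 13421774 (corW 3 c0B eng mog cB012E gB2q0 gB1q2 gB0q1 gB1q1 dB2q0 dB1q2 dB0q1 dB1q1 true false)) t 1 8 1 = true :=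
  ⟨(T.l 1), by decide +kernel⟩

def B012E_210_1_18_1 :
    ∃ t, chk3 (onCell 0 38347922 0 1073741824 1020054732 13421774 (corW 3 c0B eng mog cB012E gB2q0 gB1q2 gB0q1 gB1q1 dB2q0 dB1q2 dB0q1 dB1q1 true false)) t 1 18 1 = true :=
  ⟨(T.l 1), by decide +kernel⟩

def B012E_210_1_38_1 :
    ∃ t, chk3 (onCell 0 38347922 0 1073741824 1020054732 13421774 (corW 3 c0B eng mog cB012E gB2q0 gB1q2 gB0q1 gB1q1 dB2q0 dB1q2 dB0q1 dB1q1 true false)) t 1 38 1 = true :=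
  ⟨(T.l 1), by decide +kernel⟩

def B012E_210_1_312_1 :
    ∃ t, chk3 (onCell 0 38347922 0 1073741824 1020054732 13421774 (corW 3 c0B eng mog cB012E gB2q0 gB1q2 gB0q1 gB1q1 dB2q0 dB1q2 dB0q1 dB1q1 true false)) t 1 312 1 = true :=
  ⟨(T.b (T.l 1) (T.a (T.b (T.l 1) (T.b (T.a (T.l 1) (T.a (T.l 1) (T.c (T.l 32) (T.l 236)))) (T.a (T.a (T.l 204) (T.a (T.l 204) (T.l 0))) (T.b (T.a (T.a (T.l 204) (T.l 204)) (T.c (T.l 32) (T.l 236))) (T.a (T.a (T.l 204) (T.l 204)) (T.c (T.l 0) (T.l 236))))))) (T.b (T.l 1) (T.b (T.a (T.a (T.l 748) (T.l 236)) (T.a (T.l 236) (T.l 204))) (T.a (T.a (T.l 748) (T.l 236)) (T.a (T.l 204) (T.l 204))))))), by decide +kernel⟩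

def B012E_210_1_626_1 :
    ∃ t, chk3 (onCell 0 38347922 0 1073741824 1020054732 13421774 (corW 3 c0B eng mog cB012E gB2q0 gB1q2 gB0q1 gB1q1 dB2q0 dB1q2 dB0q1 dB1q1 true false)) t 1 626 1 = true :=
  ⟨(T.a (T.b (T.b (T.a (T.a (T.l 204) (T.a (T.l 204) (T.l 0))) (T.b (T.a (T.a (T.l 204) (T.l 204)) (T.c (T.l 0) (T.l 236))) (T.a (T.a (T.l 204) (T.l 204)) (T.c (T.l 0) (T.l 236))))) (T.a (T.a (T.l 204) (T.a (T.l 204) (T.l 0))) (T.b (T.a (T.a (T.l 204) (T.l 204)) (T.c (T.l 0) (T.l 236))) (T.a (T.a (T.l 204) (T.l 204)) (T.c (T.l 0) (T.l 236)))))) (T.b (T.a (T.a (T.l 204) (T.a (T.l 204) (T.l 0))) (T.b (T.a (T.a (T.l 204) (T.l 204)) (T.c (T.l 0) (T.l 236))) (T.a (T.a (T.l 204) (T.l 204)) (T.c (T.l 0) (T.l 236))))) (T.a (T.a (T.l 204) (T.a (T.l 204) (T.l 0))) (T.b (T.a (T.a (T.l 204) (T.l 204)) (T.c (T.l 0) (T.l 236)))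 (T.a (T.a (T.l 204) (T.l 204)) (T.c (T.l 0) (T.l 236))))))) (T.b (T.b (T.a (T.a (T.l 748) (T.l 236)) (T.a (T.l 204) (T.l 204))) (T.a (T.a (T.l 236) (T.l 236)) (T.a (T.l 204) (T.l 204)))) (T.b (T.a (T.a (T.l 32) (T.l 236)) (T.a (T.l 204) (T.l 204))) (T.a (T.a (T.l 32) (T.l 204)) (T.a (T.l 204) (T.l 204)))))), by decide +kernel⟩

def B012E_210_1_627_1 :
    ∃ t, chk3 (onCell 0 38347922 0 1073741824 1020054732 13421774 (corW 3 c0B eng mog cB012E gB2q0 gB1q2 gB0q1 gB1q1 dB2q0 dB1q2 dB0q1 dB1q1 true false)) t 1 627 1 = true :=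
  ⟨(T.a (T.b (T.b (T.a (T.a (T.l 204) (T.a (T.l 204) (T.l 0))) (T.b (T.a (T.a (T.l 204) (T.l 204)) (T.c (T.l 0) (T.l 236))) (T.a (T.a (T.l 204) (T.l 204)) (T.c (T.l 0) (T.l 236))))) (T.a (T.a (T.l 204) (T.a (T.l 204) (T.l 0))) (T.b (T.a (T.a (T.l 204) (T.l 204)) (T.c (T.l 0) (T.l 204))) (T.a (T.a (T.l 204) (T.l 204)) (T.c (T.l 0) (T.l 204)))))) (T.b (T.a (T.a (T.l 204) (T.a (T.l 204) (T.l 0))) (T.a (T.a (T.l 204) (T.l 204)) (T.c (T.l 0) (T.l 204)))) (T.a (T.a (T.l 204) (T.a (T.l 204) (T.l 0))) (T.a (T.a (T.l 204) (T.l 204)) (T.c (T.l 0) (T.l 204)))))) (T.b (T.b (T.a (T.a (T.l 32) (T.l 204)) (T.a (T.l 204) (T.l 204))) (T.a (T.a (T.l 32) (T.l 204)) (T.a (T.l 204) (T.l 204)))) (T.b (T.a (T.a (T.l 32) (T.l 204)) (T.a (T.l 204) (T.l 204))) (T.a (T.a (T.l 32) (T.l 204)) (T.a (T.l 204) (T.l 204)))))), by decide +kernel⟩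

def B012E_210_1_314_1 :
    ∃ t, chk3 (onCell 0 38347922 0 1073741824 1020054732 13421774 (corW 3 c0B eng mog cB012E gB2q0 gB1q2 gB0q1 gB1q1 dB2q0 dB1q2 dB0q1 dB1q1 true false)) t 1 314 1 = true :=
  ⟨(T.b (T.a (T.b (T.b (T.a (T.a (T.l 204) (T.a (T.l 204) (T.l 0))) (T.a (T.a (T.l 204) (T.l 204)) (T.c (T.l 0) (T.l 204)))) (T.a (T.a (T.l 204) (T.a (T.l 204) (T.l 0))) (T.a (T.a (T.l 204) (T.l 204)) (T.c (T.l 0) (T.l 204))))) (T.b (T.a (T.a (T.l 204) (T.a (T.l 204) (T.l 0))) (T.a (T.a (T.l 204) (T.l 204)) (T.c (T.l 0) (T.l 204)))) (T.a (T.a (T.l 204) (T.a (T.l 204) (T.l 0))) (T.a (T.a (T.l 204) (T.l 204)) (T.c (T.l 0) (T.l 204)))))) (T.a (T.a (T.l 0) (T.l 204)) (T.a (T.l 204) (T.l 204)))) (T.a (T.b (T.b (T.a (T.a (T.l 204) (T.a (T.l 204) (T.l 0))) (T.a (T.a (T.l 204) (T.l 204)) (T.c (T.l 0) (T.l 204)))) (T.a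 (T.a (T.l 204) (T.a (T.l 204) (T.l 0))) (T.a (T.a (T.l 204) (T.l 204)) (T.c (T.l 0) (T.l 204))))) (T.b (T.a (T.a (T.l 204) (T.a (T.l 204) (T.l 0))) (T.a (T.a (T.l 204) (T.l 204)) (T.c (T.l 0) (T.l 204)))) (T.a (T.a (T.l 204) (T.a (T.l 204) (T.l 0))) (T.a (T.a (T.l 204) (T.l 204)) (T.c (T.l 0) (T.l 204)))))) (T.a (T.a (T.l 0) (T.l 204)) (T.a (T.l 204) (T.l 204))))), by decide +kernel⟩

def B012E_210_1_315_1 :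
    ∃ t, chk3 (onCell 0 38347922 0 1073741824 1020054732 13421774 (corW 3 c0B eng mog cB012E gB2q0 gB1q2 gB0q1 gB1q1 dB2q0 dB1q2 dB0q1 dB1q1 true false)) t 1 315 1 = true :=
  ⟨(T.b (T.a (T.b (T.b (T.a (T.a (T.l 204) (T.a (T.l 204) (T.l 0))) (T.a (T.a (T.l 204) (T.l 204)) (T.c (T.l 0) (T.l 204)))) (T.a (T.a (T.l 204) (T.a (T.l 204) (T.l 0))) (T.a (T.a (T.l 204) (T.l 204)) (T.c (T.l 0) (T.l 204))))) (T.b (T.a (T.a (T.l 204) (T.a (T.l 204) (T.l 0))) (T.a (T.a (T.l 204) (T.l 204)) (T.l 544))) (T.a (T.a (T.l 204) (T.a (T.l 204) (T.l 0))) (T.a (T.a (T.l 204) (T.l 204)) (T.l 544))))) (T.a (T.a (T.l 0) (T.l 204)) (T.a (T.l 204) (T.l 204)))) (T.a (T.b (T.b (T.a (T.a (T.l 204) (T.a (T.l 204) (T.l 0))) (T.a (T.a (T.l 204) (T.l 204)) (T.l 32))) (T.a (T.a (T.l 204) (T.a (T.l 204) (T.l 0))) (T.a (T.a (T.l 204) (T.l 204))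 (T.l 32)))) (T.b (T.a (T.a (T.l 204) (T.a (T.l 204) (T.l 0))) (T.a (T.a (T.l 0) (T.l 204)) (T.l 32))) (T.a (T.a (T.l 204) (T.a (T.l 204) (T.l 0))) (T.a (T.a (T.l 0) (T.l 204)) (T.l 32))))) (T.a (T.a (T.l 0) (T.l 0)) (T.a (T.l 204) (T.l 204))))), by decide +kernel⟩

def B012E_210_1_158_1 :
    ∃ t, chk3 (onCell 0 38347922 0 1073741824 1020054732 13421774 (corW 3 c0B eng mog cB012E gB2q0 gB1q2 gB0q1 gB1q1 dB2q0 dB1q2 dB0q1 dB1q1 true false)) t 1 158 1 = true :=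
  ⟨(T.b (T.b (T.a (T.b (T.b (T.a (T.a (T.l 204) (T.a (T.l 204) (T.l 0))) (T.a (T.a (T.l 0) (T.l 204)) (T.l 32))) (T.a (T.a (T.l 204) (T.a (T.l 204) (T.l 0))) (T.a (T.a (T.l 0) (T.l 204)) (T.l 32)))) (T.b (T.a (T.a (T.l 204) (T.a (T.l 204) (T.l 0))) (T.a (T.a (T.l 0) (T.l 204)) (T.l 0))) (T.a (T.a (T.l 204) (T.a (T.l 204) (T.l 0))) (T.a (T.a (T.l 0) (T.l 204)) (T.l 0))))) (T.a (T.a (T.l 0) (T.l 0)) (T.l 544))) (T.a (T.b (T.a (T.a (T.l 0) (T.a (T.l 204) (T.l 0))) (T.a (T.a (T.l 0) (T.l 204)) (T.l 0))) (T.a (T.a (T.l 0) (T.a (T.l 204) (T.l 0))) (T.a (T.a (T.l 0) (T.l 204)) (T.l 0)))) (T.a (T.a (T.l 0) (T.l 0)) (T.l 544)))) (T.b (T.a (T.b (T.a (T.a (T.l 0) (T.a (T.l 204) (T.l 0))) (T.a (T.a (T.l 0) (T.l 204)) (T.l 0))) (T.a (T.a (T.l 0) (T.a (T.l 204) (T.l 0))) (T.a (T.c (T.l 0) (T.l 748)) (T.l 0)))) (T.a (T.a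 (T.l 0) (T.l 0)) (T.l 544))) (T.a (T.b (T.a (T.a (T.l 0) (T.a (T.l 204) (T.l 0))) (T.a (T.c (T.l 0) (T.l 236)) (T.l 0))) (T.a (T.a (T.l 0) (T.a (T.l 204) (T.l 0))) (T.a (T.c (T.l 0) (T.l 236)) (T.l 0)))) (T.a (T.a (T.l 0) (T.l 0)) (T.l 512))))), by decide +kernel⟩

def B012E_210_1_159_1 :
    ∃ t, chk3 (onCell 0 38347922 0 1073741824 1020054732 13421774 (corW 3 c0B eng mog cB012E gB2q0 gB1q2 gB0q1 gB1q1 dB2q0 dB1q2 dB0q1 dB1q1 true false)) t 1 159 1 = true :=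
  ⟨(T.b (T.b (T.a (T.b (T.a (T.a (T.l 0) (T.a (T.l 204) (T.l 0))) (T.a (T.c (T.l 0) (T.l 204)) (T.l 0))) (T.a (T.a (T.l 0) (T.a (T.l 204) (T.l 0))) (T.a (T.c (T.l 0) (T.l 204)) (T.l 0)))) (T.a (T.a (T.l 0) (T.l 0)) (T.l 0))) (T.a (T.b (T.a (T.a (T.l 0) (T.a (T.l 204) (T.l 0))) (T.a (T.c (T.l 0) (T.l 204)) (T.l 0))) (T.a (T.a (T.l 0) (T.a (T.l 204) (T.l 0))) (T.a (T.c (T.l 0) (T.l 204)) (T.l 0)))) (T.a (T.a (T.l 0) (T.l 0)) (T.l 0)))) (T.b (T.a (T.b (T.a (T.a (T.l 0) (T.a (T.l 204) (T.l 0))) (T.a (T.c (T.l 0) (T.l 204)) (T.l 0))) (T.a (T.a (T.l 0) (T.a (T.l 204) (T.l 0))) (T.a (T.c (T.l 0) (T.l 204)) (T.l 0)))) (T.a (T.a (T.l 0) (T.l 0)) (T.l 0))) (T.a (T.b (T.a (T.a (T.l 0) (T.a (T.l 204) (T.l 0))) (T.a (T.c (T.l 0) (T.l 204)) (T.l 0))) (T.a (T.a (T.l 0) (T.a (T.l 204) (T.l 0))) (T.a (T.c (T.l 0) (T.l 204))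 (T.l 0)))) (T.a (T.a (T.l 0) (T.l 0)) (T.l 0))))), by decide +kernel⟩

def B012E_210_1_160_1 :
    ∃ t, chk3 (onCell 0 38347922 0 1073741824 1020054732 13421774 (corW 3 c0B eng mog cB012E gB2q0 gB1q2 gB0q1 gB1q1 dB2q0 dB1q2 dB0q1 dB1q1 true false)) t 1 160 1 = true :=
  ⟨(T.b (T.b (T.a (T.b (T.a (T.a (T.l 0) (T.a (T.l 204) (T.l 0))) (T.a (T.c (T.l 0) (T.l 204)) (T.l 0))) (T.a (T.a (T.l 0) (T.a (T.l 204) (T.l 0))) (T.a (T.c (T.l 0) (T.l 204)) (T.l 0)))) (T.a (T.a (T.l 0) (T.l 0)) (T.l 0))) (T.a (T.b (T.a (T.a (T.l 0) (T.a (T.l 204) (T.l 0))) (T.a (T.l 544) (T.l 0))) (T.a (T.a (T.l 0) (T.a (T.l 204) (T.l 0))) (T.a (T.l 544) (T.l 0)))) (T.a (T.a (T.l 0) (T.l 0)) (T.l 0)))) (T.b (T.a (T.b (T.a (T.a (T.l 0) (T.a (T.l 204) (T.l 0))) (T.a (T.l 512) (T.l 0))) (T.a (T.a (T.l 0) (T.a (T.l 204) (T.l 0))) (T.a (T.l 0)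 (T.l 0)))) (T.a (T.a (T.l 0) (T.l 0)) (T.l 0))) (T.a (T.b (T.a (T.a (T.l 0) (T.a (T.l 204) (T.l 0))) (T.a (T.l 0) (T.l 0))) (T.a (T.a (T.l 0) (T.a (T.l 204) (T.l 0))) (T.a (T.l 0) (T.l 0)))) (T.a (T.l 544) (T.l 0))))), by decide +kernel⟩

def B012E_210_1_161_1 :
    ∃ t, chk3 (onCell 0 38347922 0 1073741824 1020054732 13421774 (corW 3 c0B eng mog cB012E gB2q0 gB1q2 gB0q1 gB1q1 dB2q0 dB1q2 dB0q1 dB1q1 true false)) t 1 161 1 = true :=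
  ⟨(T.b (T.b (T.a (T.b (T.a (T.a (T.l 0) (T.a (T.l 204) (T.l 0))) (T.a (T.l 0) (T.l 0))) (T.a (T.a (T.l 0) (T.a (T.l 204) (T.l 0))) (T.a (T.l 0) (T.l 0)))) (T.a (T.l 512) (T.l 0))) (T.a (T.b (T.a (T.a (T.l 0) (T.a (T.l 204) (T.l 0))) (T.a (T.l 0) (T.l 0))) (T.a (T.a (T.l 0) (T.a (T.l 0) (T.l 0))) (T.a (T.l 0) (T.l 0)))) (T.a (T.l 512) (T.l 0)))) (T.b (T.a (T.b (T.a (T.a (T.l 0) (T.a (T.l 0) (T.l 0))) (T.a (T.l 0) (T.l 0))) (T.a (T.a (T.l 0) (T.a (T.l 0) (T.l 0))) (T.a (T.l 0) (T.l 0)))) (T.a (T.l 0) (T.l 0))) (T.a (T.b (T.a (T.a (T.l 0) (T.a (T.l 0) (T.l 0))) (T.a (T.l 0) (T.l 0))) (T.a (T.a (T.l 0) (T.a (T.l 0) (T.l 0))) (T.a (T.l 0) (T.l 0)))) (T.a (T.l 0) (T.l 0))))), by decide +kernel⟩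

def B012E_210_1_81_1 :
    ∃ t, chk3 (onCell 0 38347922 0 1073741824 1020054732 13421774 (corW 3 c0B eng mog cB012E gB2q0 gB1q2 gB0q1 gB1q1 dB2q0 dB1q2 dB0q1 dB1q1 true false)) t 1 81 1 = true :=
  ⟨(T.b (T.b (T.b (T.a (T.b (T.a (T.a (T.l 0) (T.a (T.l 0) (T.l 0))) (T.a (T.l 0) (T.l 0))) (T.a (T.a (T.l 0) (T.a (T.l 0) (T.l 0))) (T.a (T.l 0) (T.l 0)))) (T.a (T.l 0) (T.l 0))) (T.a (T.b (T.a (T.a (T.l 0) (T.a (T.l 0) (T.l 0))) (T.a (T.l 0) (T.l 0))) (T.a (T.a (T.l 0) (T.a (T.l 0) (T.l 0))) (T.a (T.l 0) (T.l 0)))) (T.a (T.l 0) (T.l 0)))) (T.b (T.a (T.a (T.a (T.l 0) (T.a (T.l 0) (T.l 0))) (T.a (T.l 0) (T.l 0))) (T.a (T.l 0) (T.l 0))) (T.a (T.a (T.a (T.l 0) (T.a (T.l 0) (T.l 0))) (T.a (T.l 0) (T.l 0))) (T.a (T.l 0) (T.l 0))))) (T.b (T.b (T.a (T.a (T.a (T.l 0) (T.a (T.l 0) (T.l 0))) (T.a (T.l 0) (T.l 0))) (T.a (T.l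 0) (T.l 0))) (T.a (T.a (T.a (T.l 0) (T.a (T.l 0) (T.l 0))) (T.a (T.l 0) (T.l 0))) (T.a (T.l 0) (T.l 0)))) (T.a (T.a (T.a (T.l 0) (T.a (T.l 0) (T.l 0))) (T.a (T.l 0) (T.l 0))) (T.a (T.l 0) (T.l 0))))), by decide +kernel⟩

def B012E_210_1_41_1 :
    ∃ t, chk3 (onCell 0 38347922 0 1073741824 1020054732 13421774 (corW 3 c0B eng mog cB012E gB2q0 gB1q2 gB0q1 gB1q1 dB2q0 dB1q2 dB0q1 dB1q1 true false)) t 1 41 1 = true :=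
  ⟨(T.b (T.b (T.b (T.a (T.a (T.a (T.l 0) (T.a (T.l 0) (T.l 0))) (T.a (T.l 0) (T.l 0))) (T.a (T.l 0) (T.l 0))) (T.a (T.a (T.a (T.l 0) (T.c (T.l 0) (T.l 0))) (T.a (T.l 0) (T.l 0))) (T.a (T.l 0) (T.l 0)))) (T.a (T.a (T.a (T.l 0) (T.c (T.l 0) (T.l 0))) (T.a (T.l 0) (T.l 0))) (T.a (T.l 0) (T.l 0)))) (T.a (T.a (T.a (T.l 0) (T.c (T.l 0) (T.l 0))) (T.a (T.l 0) (T.l 0))) (T.a (T.l 0) (T.l 0)))), by decide +kernel⟩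

def B012E_210_1_21_1 :
    ∃ t, chk3 (onCell 0 38347922 0 1073741824 1020054732 13421774 (corW 3 c0B eng mog cB012E gB2q0 gB1q2 gB0q1 gB1q1 dB2q0 dB1q2 dB0q1 dB1q1 true false)) t 1 21 1 = true :=
  ⟨(T.a (T.a (T.a (T.l 0) (T.l 0)) (T.a (T.l 0) (T.l 0))) (T.a (T.l 0) (T.l 0))), by decide +kernel⟩

def B012E_210_1_11_1 :
    ∃ t, chk3 (onCell 0 38347922 0 1073741824 1020054732 13421774 (corW 3 c0B eng mog cB012E gB2q0 gB1q2 gB0q1 gB1q1 dB2q0 dB1q2 dB0q1 dB1q1 true false)) t 1 11 1 = true :=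
  ⟨(T.a (T.a (T.a (T.l 0) (T.l 0)) (T.a (T.l 0) (T.l 0))) (T.a (T.l 0) (T.l 0))), by decide +kernel⟩

def B012E_210_1_3_1 :
    ∃ t, chk3 (onCell 0 38347922 0 1073741824 1020054732 13421774 (corW 3 c0B eng mog cB012E gB2q0 gB1q2 gB0q1 gB1q1 dB2q0 dB1q2 dB0q1 dB1q1 true false)) t 1 3 1 = true :=
  ⟨(T.b (T.b (T.a (T.a (T.a (T.l 0) (T.l 0)) (T.l 0)) (T.b (T.l 0) (T.l 0))) (T.a (T.a (T.a (T.l 0) (T.l 0)) (T.l 0)) (T.b (T.l 0) (T.l 0)))) (T.a (T.a (T.a (T.l 0) (T.l 0)) (T.l 0)) (T.a (T.l 0) (T.l 0)))), by decide +kernel⟩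

theorem B012E_210_1_80_1 :
    ∃ t, chk3 (onCell 0 38347922 0 1073741824 1020054732 13421774 (corW 3 c0B eng mog cB012E gB2q0 gB1q2 gB0q1 gB1q1 dB2q0 dB1q2 dB0q1 dB1q1 true false)) t 1 80 1 = true :=
  ex3_b B012E_210_1_160_1 B012E_210_1_161_1
theorem B012E_210_1_40_1 :
    ∃ t, chk3 (onCell 0 38347922 0 1073741824 1020054732 13421774 (corW 3 c0B eng mog cB012E gB2q0 gB1q2 gB0q1 gB1q1 dB2q0 dB1q2 dB0q1 dB1q1 true false)) t 1 40 1 = true :=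
  ex3_b B012E_210_1_80_1 B012E_210_1_81_1
theorem B012E_210_1_20_1 :
    ∃ t, chk3 (onCell 0 38347922 0 1073741824 1020054732 13421774 (corW 3 c0B eng mog cB012E gB2q0 gB1q2 gB0q1 gB1q1 dB2q0 dB1q2 dB0q1 dB1q1 true false)) t 1 20 1 = true :=
  ex3_b B012E_210_1_40_1 B012E_210_1_41_1
theorem B012E_210_1_10_1 :
    ∃ t, chk3 (onCell 0 38347922 0 1073741824 1020054732 13421774 (corW 3 c0B eng mog cB012E gB2q0 gB1q2 gB0q1 gB1q1 dB2q0 dB1q2 dB0q1 dB1q1 true false)) t 1 10 1 = true :=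
  ex3_b B012E_210_1_20_1 B012E_210_1_21_1
theorem B012E_210_1_5_1 :
    ∃ t, chk3 (onCell 0 38347922 0 1073741824 1020054732 13421774 (corW 3 c0B eng mog cB012E gB2q0 gB1q2 gB0q1 gB1q1 dB2q0 dB1q2 dB0q1 dB1q1 true false)) t 1 5 1 = true :=
  ex3_b B012E_210_1_10_1 B012E_210_1_11_1
theorem B012E_210_1_79_1 :
    ∃ t, chk3 (onCell 0 38347922 0 1073741824 1020054732 13421774 (corW 3 c0B eng mog cB012E gB2q0 gB1q2 gB0q1 gB1q1 dB2q0 dB1q2 dB0q1 dB1q1 true false)) t 1 79 1 = true :=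
  ex3_b B012E_210_1_158_1 B012E_210_1_159_1
theorem B012E_210_1_157_1 :
    ∃ t, chk3 (onCell 0 38347922 0 1073741824 1020054732 13421774 (corW 3 c0B eng mog cB012E gB2q0 gB1q2 gB0q1 gB1q1 dB2q0 dB1q2 dB0q1 dB1q1 true false)) t 1 157 1 = true :=
  ex3_b B012E_210_1_314_1 B012E_210_1_315_1
theorem B012E_210_1_313_1 :
    ∃ t, chk3 (onCell 0 38347922 0 1073741824 1020054732 13421774 (corW 3 c0B eng mog cB012E gB2q0 gB1q2 gB0q1 gB1q1 dB2q0 dB1q2 dB0q1 dB1q1 true false)) t 1 313 1 = true :=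
  ex3_b B012E_210_1_626_1 B012E_210_1_627_1
theorem B012E_210_1_156_1 :
    ∃ t, chk3 (onCell 0 38347922 0 1073741824 1020054732 13421774 (corW 3 c0B eng mog cB012E gB2q0 gB1q2 gB0q1 gB1q1 dB2q0 dB1q2 dB0q1 dB1q1 true false)) t 1 156 1 = true :=
  ex3_b B012E_210_1_312_1 B012E_210_1_313_1
theorem B012E_210_1_78_1 :
    ∃ t, chk3 (onCell 0 38347922 0 1073741824 1020054732 13421774 (corW 3 c0B eng mog cB012E gB2q0 gB1q2 gB0q1 gB1q1 dB2q0 dB1q2 dB0q1 dB1q1 true false)) t 1 78 1 = true :=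
  ex3_b B012E_210_1_156_1 B012E_210_1_157_1
theorem B012E_210_1_39_1 :
    ∃ t, chk3 (onCell 0 38347922 0 1073741824 1020054732 13421774 (corW 3 c0B eng mog cB012E gB2q0 gB1q2 gB0q1 gB1q1 dB2q0 dB1q2 dB0q1 dB1q1 true false)) t 1 39 1 = true :=
  ex3_b B012E_210_1_78_1 B012E_210_1_79_1
theorem B012E_210_1_19_1 :
    ∃ t, chk3 (onCell 0 38347922 0 1073741824 1020054732 13421774 (corW 3 c0B eng mog cB012E gB2q0 gB1q2 gB0q1 gB1q1 dB2q0 dB1q2 dB0q1 dB1q1 true false)) t 1 19 1 = true :=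
  ex3_b B012E_210_1_38_1 B012E_210_1_39_1
theorem B012E_210_1_9_1 :
    ∃ t, chk3 (onCell 0 38347922 0 1073741824 1020054732 13421774 (corW 3 c0B eng mog cB012E gB2q0 gB1q2 gB0q1 gB1q1 dB2q0 dB1q2 dB0q1 dB1q1 true false)) t 1 9 1 = true :=
  ex3_b B012E_210_1_18_1 B012E_210_1_19_1
theorem B012E_210_1_4_1 :
    ∃ t, chk3 (onCell 0 38347922 0 1073741824 1020054732 13421774 (corW 3 c0B eng mog cB012E gB2q0 gB1q2 gB0q1 gB1q1 dB2q0 dB1q2 dB0q1 dB1q1 true false)) t 1 4 1 = true :=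
  ex3_b B012E_210_1_8_1 B012E_210_1_9_1
theorem B012E_210_1_2_1 :
    ∃ t, chk3 (onCell 0 38347922 0 1073741824 1020054732 13421774 (corW 3 c0B eng mog cB012E gB2q0 gB1q2 gB0q1 gB1q1 dB2q0 dB1q2 dB0q1 dB1q1 true false)) t 1 2 1 = true :=
  ex3_b B012E_210_1_4_1 B012E_210_1_5_1
theorem B012E_210 :
    ∃ t, chk3 (onCell 0 38347922 0 1073741824 1020054732 13421774 (corW 3 c0B eng mog cB012E gB2q0 gB1q2 gB0q1 gB1q1 dB2q0 dB1q2 dB0q1 dB1q1 true false)) t 1 1 1 = true :=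
  ex3_b B012E_210_1_2_1 B012E_210_1_3_1

def B012E_220_1_4_1 :
    ∃ t, chk3 (onCell 0 38347922 0 1073741824 1020054732 13421774 (corW 3 c0B eng mog cB012E gB2q0 gB2q2 gB0q1 gB1q1 dB2q0 dB2q2 dB0q1 dB1q1 true false)) t 1 4 1 = true :=
  ⟨(T.l 1), by decide +kernel⟩

def B012E_220_1_20_1 :
    ∃ t, chk3 (onCell 0 38347922 0 1073741824 1020054732 13421774 (corW 3 c0B eng mog cB012E gB2q0 gB2q2 gB0q1 gB1q1 dB2q0 dB2q2 dB0q1 dB1q1 true false)) t 1 20 1 = true :=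
  ⟨(T.b (T.l 1) (T.b (T.b (T.b (T.a (T.l 1) (T.l 1)) (T.a (T.b (T.a (T.a (T.l 816) (T.c (T.l 0) (T.l 0))) (T.a (T.l 0) (T.l 1))) (T.a (T.a (T.l 816) (T.c (T.l 0) (T.l 0))) (T.a (T.l 0) (T.l 0)))) (T.a (T.l 0) (T.l 0)))) (T.b (T.a (T.b (T.a (T.a (T.l 816) (T.c (T.l 0) (T.l 0))) (T.a (T.l 0) (T.l 0))) (T.a (T.a (T.l 816) (T.c (T.l 0) (T.l 0))) (T.a (T.l 0) (T.l 0)))) (T.a (T.l 0) (T.l 0))) (T.a (T.b (T.a (T.a (T.l 816) (T.c (T.l 0) (T.l 0))) (T.a (T.l 0) (T.l 0))) (T.a (T.a (T.l 816) (T.c (T.l 0) (T.l 0))) (T.a (T.l 0) (T.l 0)))) (T.a (T.l 0) (T.l 0))))) (T.b (T.b (T.a (T.b (T.a (T.a (T.l 816) (T.c (T.l 0) (T.l 0))) (T.a (T.l 0) (T.l 0))) (T.a (T.a (T.l 816) (T.c (T.l 0) (T.l 0))) (T.a (T.l 0) (T.l 0)))) (T.a (T.l 0) (T.l 0))) (T.a (T.b (T.a (T.a (T.l 816) (T.l 0)) (T.a (T.l 0) (T.l 0))) (T.a (T.a (T.l 816)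 (T.l 0)) (T.a (T.l 0) (T.l 0)))) (T.a (T.l 0) (T.l 0)))) (T.a (T.b (T.b (T.a (T.a (T.l 816) (T.l 0)) (T.a (T.l 0) (T.l 0))) (T.a (T.a (T.l 816) (T.l 0)) (T.a (T.l 0) (T.l 0)))) (T.b (T.a (T.a (T.l 816) (T.l 0)) (T.a (T.l 0) (T.l 0))) (T.a (T.a (T.l 816) (T.l 0)) (T.a (T.l 0) (T.l 0))))) (T.a (T.l 0) (T.l 0)))))), by decide +kernel⟩

def B012E_220_1_21_1 :
    ∃ t, chk3 (onCell 0 38347922 0 1073741824 1020054732 13421774 (corW 3 c0B eng mog cB012E gB2q0 gB2q2 gB0q1 gB1q1 dB2q0 dB2q2 dB0q1 dB1q1 true false)) t 1 21 1 = true :=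
  ⟨(T.b (T.b (T.b (T.a (T.b (T.a (T.a (T.l 816) (T.l 0)) (T.a (T.l 0) (T.l 0))) (T.a (T.a (T.l 816) (T.l 0)) (T.a (T.l 0) (T.l 0)))) (T.a (T.l 0) (T.l 0))) (T.a (T.a (T.a (T.l 816) (T.l 0)) (T.a (T.l 0) (T.l 0))) (T.a (T.l 0) (T.l 0)))) (T.b (T.a (T.a (T.a (T.l 816) (T.l 0)) (T.a (T.l 0) (T.l 0))) (T.a (T.l 0) (T.l 0))) (T.a (T.a (T.a (T.l 816) (T.l 0)) (T.a (T.l 0) (T.l 0))) (T.a (T.l 0) (T.l 0))))) (T.a (T.a (T.a (T.l 816) (T.l 0)) (T.a (T.l 816) (T.l 0))) (T.a (T.l 0) (T.l 0)))), by decide +kernel⟩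

def B012E_220_1_11_1 :
    ∃ t, chk3 (onCell 0 38347922 0 1073741824 1020054732 13421774 (corW 3 c0B eng mog cB012E gB2q0 gB2q2 gB0q1 gB1q1 dB2q0 dB2q2 dB0q1 dB1q1 true false)) t 1 11 1 = true :=
  ⟨(T.b (T.a (T.a (T.a (T.l 816) (T.l 0)) (T.a (T.l 816) (T.l 0))) (T.a (T.l 0) (T.l 0))) (T.a (T.a (T.a (T.l 816) (T.l 0)) (T.l 0)) (T.a (T.l 0) (T.l 816)))), by decide +kernel⟩

def B012E_220_1_3_1 :
    ∃ t, chk3 (onCell 0 38347922 0 1073741824 1020054732 13421774 (corW 3 c0B eng mog cB012E gB2q0 gB2q2 gB0q1 gB1q1 dB2q0 dB2q2 dB0q1 dB1q1 true false)) t 1 3 1 = true :=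
  ⟨(T.b (T.b (T.a (T.a (T.a (T.l 816) (T.l 816)) (T.l 0)) (T.b (T.l 0) (T.l 0))) (T.a (T.a (T.a (T.l 816) (T.l 816)) (T.l 816)) (T.b (T.l 0) (T.l 0)))) (T.a (T.a (T.a (T.l 816) (T.l 816)) (T.l 816)) (T.b (T.l 0) (T.l 0)))), by decide +kernel⟩

theorem B012E_220_1_10_1 :
    ∃ t, chk3 (onCell 0 38347922 0 1073741824 1020054732 13421774 (corW 3 c0B eng mog cB012E gB2q0 gB2q2 gB0q1 gB1q1 dB2q0 dB2q2 dB0q1 dB1q1 true false)) t 1 10 1 = true :=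
  ex3_b B012E_220_1_20_1 B012E_220_1_21_1
theorem B012E_220_1_5_1 :
    ∃ t, chk3 (onCell 0 38347922 0 1073741824 1020054732 13421774 (corW 3 c0B eng mog cB012E gB2q0 gB2q2 gB0q1 gB1q1 dB2q0 dB2q2 dB0q1 dB1q1 true false)) t 1 5 1 = true :=
  ex3_b B012E_220_1_10_1 B012E_220_1_11_1
theorem B012E_220_1_2_1 :
    ∃ t, chk3 (onCell 0 38347922 0 1073741824 1020054732 13421774 (corW 3 c0B eng mog cB012E gB2q0 gB2q2 gB0q1 gB1q1 dB2q0 dB2q2 dB0q1 dB1q1 true false)) t 1 2 1 = true :=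
  ex3_b B012E_220_1_4_1 B012E_220_1_5_1
theorem B012E_220 :
    ∃ t, chk3 (onCell 0 38347922 0 1073741824 1020054732 13421774 (corW 3 c0B eng mog cB012E gB2q0 gB2q2 gB0q1 gB1q1 dB2q0 dB2q2 dB0q1 dB1q1 true false)) t 1 1 1 = true :=
  ex3_b B012E_220_1_2_1 B012E_220_1_3_1

def B012L_050 :
    ∃ t, chk3 (onCell 0 38347922 0 1073741824 1020054732 13421774 (corW 3 c0B eng mog cB012L gB0q0 gB5q2 gB0q1 gB1q1 dB0q0 dB5q2 dB0q1 dB1q1 true false)) t 1 1 1 = true :=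
  ⟨(T.l 1), by decide +kernel⟩

def B012L_150 :
    ∃ t, chk3 (onCell 0 38347922 0 1073741824 1020054732 13421774 (corW 3 c0B eng mog cB012L gB1q0 gB5q2 gB0q1 gB1q1 dB1q0 dB5q2 dB0q1 dB1q1 true false)) t 1 1 1 = true :=
  ⟨(T.l 1), by decide +kernel⟩

def B012L_250 :
    ∃ t, chk3 (onCell 0 38347922 0 1073741824 1020054732 13421774 (corW 3 c0B eng mog cB012L gB2q0 gB5q2 gB0q1 gB1q1 dB2q0 dB5q2 dB0q1 dB1q1 true false)) t 1 1 1 = true :=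
  ⟨(T.l 1), by decide +kernel⟩

def B012R_002 :
    ∃ t, chk3 (onCell 0 38347922 0 1073741824 1020054732 13421774 (corW 3 c0B eng mog cB012R gB0q0 gB0q2 gB2q1 gB3q1 dB0q0 dB0q2 dB2q1 dB3q1 false true)) t 1 1 1 = true :=
  ⟨(T.b (T.b (T.b (T.a (T.a (T.l 204) (T.l 204)) (T.a (T.l 204) (T.l 204))) (T.a (T.a (T.l 204) (T.l 204)) (T.a (T.l 204) (T.l 204)))) (T.b (T.a (T.a (T.l 204) (T.l 204)) (T.a (T.a (T.l 204) (T.b (T.l 204) (T.l 204))) (T.b (T.l 0) (T.l 0)))) (T.a (T.a (T.l 204) (T.l 204)) (T.a (T.b (T.l 0) (T.l 0)) (T.b (T.l 0) (T.l 0)))))) (T.b (T.b (T.a (T.a (T.l 204) (T.a (T.l 204) (T.l 0))) (T.a (T.b (T.l 0) (T.l 0)) (T.b (T.l 0) (T.l 0)))) (T.a (T.a (T.l 204) (T.a (T.b (T.l 204) (T.l 0)) (T.l 0))) (T.a (T.b (T.l 0) (T.l 0)) (T.l 0)))) (T.b (T.a (T.a (T.l 204) (T.a (T.b (T.l 0) (T.l 0)) (T.l 0))) (T.a (T.b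 (T.l 0) (T.l 0)) (T.b (T.l 0) (T.l 0)))) (T.a (T.a (T.l 0) (T.a (T.b (T.l 0) (T.l 0)) (T.l 0))) (T.a (T.a (T.l 0) (T.l 0)) (T.b (T.l 0) (T.l 0))))))), by decide +kernel⟩

def B012R_003 :
    ∃ t, chk3 (onCell 0 38347922 0 1073741824 1020054732 13421774 (corW 3 c0B eng mog cB012R gB0q0 gB0q2 gB3q1 gB4q1 dB0q0 dB0q2 dB3q1 dB4q1 true true)) t 1 1 1 = true :=
  ⟨(T.b (T.b (T.l 1) (T.l 1)) (T.l 1)), by decide +kernel⟩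

def B012R_004 :
    ∃ t, chk3 (onCell 0 38347922 0 1073741824 1020054732 13421774 (corW 3 c0B eng mog cB012R gB0q0 gB0q2 gB4q1 gB5q1 dB0q0 dB0q2 dB4q1 dB5q1 true true)) t 1 1 1 = true :=
  ⟨(T.l 1), by decide +kernel⟩

def B012R_012 :
    ∃ t, chk3 (onCell 0 38347922 0 1073741824 1020054732 13421774 (corW 3 c0B eng mog cB012R gB0q0 gB1q2 gB2q1 gB3q1 dB0q0 dB1q2 dB2q1 dB3q1 false true)) t 1 1 1 = true :=
  ⟨(T.b (T.a (T.a (T.l 0) (T.l 0)) (T.a (T.b (T.l 0) (T.l 0)) (T.l 0))) (T.b (T.a (T.a (T.l 0) (T.l 0)) (T.l 0)) (T.a (T.a (T.l 816) (T.l 816)) (T.a (T.l 0) (T.l 0))))), by decide +kernel⟩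

def B012R_013 :
    ∃ t, chk3 (onCell 0 38347922 0 1073741824 1020054732 13421774 (corW 3 c0B eng mog cB012R gB0q0 gB1q2 gB3q1 gB4q1 dB0q0 dB1q2 dB3q1 dB4q1 true true)) t 1 1 1 = true :=
  ⟨(T.b (T.b (T.l 1) (T.l 1)) (T.l 1)), by decide +kernel⟩

def B012R_014 :
    ∃ t, chk3 (onCell 0 38347922 0 1073741824 1020054732 13421774 (corW 3 c0B eng mog cB012R gB0q0 gB1q2 gB4q1 gB5q1 dB0q0 dB1q2 dB4q1 dB5q1 true true)) t 1 1 1 = true :=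
  ⟨(T.l 1), by decide +kernel⟩

def B012R_022 :
    ∃ t, chk3 (onCell 0 38347922 0 1073741824 1020054732 13421774 (corW 3 c0B eng mog cB012R gB0q0 gB2q2 gB2q1 gB3q1 dB0q0 dB2q2 dB2q1 dB3q1 false true)) t 1 1 1 = true :=
  ⟨(T.b (T.a (T.a (T.l 0) (T.l 0)) (T.a (T.l 0) (T.l 0))) (T.b (T.a (T.a (T.l 0) (T.l 0)) (T.l 0)) (T.a (T.a (T.l 0) (T.l 0)) (T.b (T.l 0) (T.l 0))))), by decide +kernel⟩

def B012R_023 :
    ∃ t, chk3 (onCell 0 38347922 0 1073741824 1020054732 13421774 (corW 3 c0B eng mog cB012R gB0q0 gB2q2 gB3q1 gB4q1 dB0q0 dB2q2 dB3q1 dB4q1 true true)) t 1 1 1 = true :=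
  ⟨(T.b (T.l 1) (T.l 1)), by decide +kernel⟩

def B012R_024 :
    ∃ t, chk3 (onCell 0 38347922 0 1073741824 1020054732 13421774 (corW 3 c0B eng mog cB012R gB0q0 gB2q2 gB4q1 gB5q1 dB0q0 dB2q2 dB4q1 dB5q1 true true)) t 1 1 1 = true :=
  ⟨(T.l 1), by decide +kernel⟩

end Pool.Agent.Strip051.G.I9500_9625.Tab.CW
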