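import Pool.Agent.Strip051.G.I9500_9625.DgP

/-! # The corner (1, 1, 2): certificates of the degenerate charts (generated) -/

set_option linter.all false

namespace Pool.Agent.Strip051.G.I9500_9625.Tab.DG

open Pool.Agent.Strip051.PB Pool.Agent.Strip051.PB.Dg Pool.Agent.StripNear Pool.Agent.Strip051.LC

theorem cFA4 : ∃ t, chk3 (onCell 0 91892597 0 1073741824 1020054732 13421774 (fdAx true pF (ndUR ndF4) (dgSC pF) (thUp (ndUR ndF4) (dgSC pF)))) t 1 1 1 = true :=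
  ⟨(T.b (T.l 2) (T.a (T.a (T.c (T.b (T.b (T.l 2) (T.b (T.l 2) (T.a (T.l 64) (T.l 64)))) (T.b (T.l 279616) (T.l 349520))) (T.b (T.b (T.l 2) (T.b (T.l 2) (T.c (T.l 64) (T.l 1088)))) (T.a (T.c (T.l 349520) (T.l 349520)) (T.l 349520)))) (T.a (T.a (T.c (T.b (T.b (T.l 2) (T.l 17472)) (T.l 349520)) (T.b (T.b (T.l 2) (T.l 279616)) (T.l 349520))) (T.c (T.b (T.b (T.l 2) (T.b (T.l 2) (T.a (T.a (T.l 64) (T.l 16448)) (T.a (T.l 16448) (T.l 16448))))) (T.a (T.c (T.b (T.a (T.l 278592) (T.l 279616)) (T.a (T.l 349520) (T.l 349520))) (T.b (T.a (T.l 278592) (T.l 279616)) (T.a (T.l 349520) (T.l 349520)))) (T.b (T.l 287840) (T.a (T.l 357712) (T.b (T.l 279616) (T.l 357712)))))) (T.b (T.b (T.l 2) (T.b (T.l 2) (T.a (T.a (T.l 64) (T.l 16448)) (T.a (T.l 16448) (T.l 16448))))) (T.a (T.c (T.b (T.a (T.l 279616) (T.l 279616)) (T.a (T.l 349520) (T.l 349520))) (T.b (T.a (T.l 279616) (T.l 279616))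 (T.a (T.l 349520) (T.l 349520)))) (T.b (T.a (T.l 279616) (T.l 279616)) (T.a (T.l 357712) (T.b (T.l 279616) (T.l 357712)))))))) (T.a (T.c (T.b (T.b (T.l 2) (T.b (T.l 2) (T.a (T.a (T.l 16448) (T.l 16448)) (T.a (T.l 16448) (T.l 16448))))) (T.a (T.b (T.a (T.l 279616) (T.l 279616)) (T.a (T.b (T.l 287808) (T.l 349520)) (T.b (T.l 287808) (T.l 357712)))) (T.b (T.a (T.l 287808) (T.l 287808)) (T.a (T.l 357712) (T.l 357712))))) (T.b (T.b (T.l 2) (T.a (T.a (T.l 279616) (T.l 279616)) (T.a (T.l 279616) (T.l 279648)))) (T.a (T.b (T.a (T.l 279616) (T.l 287808)) (T.a (T.b (T.l 287808) (T.l 349520)) (T.b (T.l 287808) (T.l 349520)))) (T.b (T.a (T.b (T.l 278592) (T.l 287808)) (T.b (T.l 279616) (T.l 287808))) (T.a (T.l 357712) (T.l 357712)))))) (T.c (T.b (T.b (T.l 2) (T.a (T.b (T.l 2) (T.a (T.l 16448) (T.l 278592))) (T.b (T.l 2) (T.a (T.l 16448) (T.l 16480))))) (T.a (T.b (T.a (T.b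 (T.l 279616) (T.l 279616)) (T.b (T.l 279616) (T.l 279616))) (T.a (T.l 357712) (T.l 357712))) (T.c (T.b (T.l 287808) (T.a (T.l 349520) (T.l 349520))) (T.b (T.l 287808) (T.a (T.l 349520) (T.l 349520)))))) (T.b (T.b (T.l 2) (T.a (T.a (T.l 279648) (T.l 279648)) (T.b (T.l 2) (T.a (T.l 287808) (T.l 287808))))) (T.a (T.b (T.a (T.b (T.l 287808) (T.l 279616)) (T.b (T.l 287808) (T.l 279616))) (T.a (T.l 357712) (T.l 357712))) (T.c (T.b (T.a (T.l 279616) (T.l 279616)) (T.a (T.l 349520) (T.l 349520))) (T.b (T.a (T.l 279616) (T.l 279616)) (T.a (T.l 349520) (T.l 349520)))))))))) (T.c (T.b (T.b (T.l 2) (T.b (T.l 2) (T.a (T.a (T.a (T.a (T.a (T.l 278592) (T.l 16448)) (T.a (T.l 16448) (T.l 16448))) (T.a (T.a (T.l 16448) (T.l 16448)) (T.a (T.l 16448) (T.l 16480)))) (T.a (T.a (T.a (T.l 16480) (T.l 16480)) (T.a (T.l 16480) (T.l 16480))) (T.a (T.a (T.l 16480) (T.l 16480)) (T.a (T.a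 (T.l 16480) (T.l 16480)) (T.a (T.l 16480) (T.l 16480)))))) (T.a (T.a (T.a (T.a (T.a (T.l 16480) (T.l 16480)) (T.a (T.l 16480) (T.l 16480))) (T.a (T.a (T.l 16480) (T.l 16480)) (T.c (T.l 16480) (T.l 16480)))) (T.a (T.a (T.c (T.l 16480) (T.l 16480)) (T.c (T.l 16480) (T.l 16480))) (T.a (T.c (T.l 16480) (T.l 16480)) (T.c (T.l 24672) (T.l 16480))))) (T.a (T.a (T.a (T.c (T.l 24672) (T.l 24672)) (T.c (T.a (T.l 24672) (T.l 24672)) (T.l 24672))) (T.a (T.c (T.a (T.l 24672) (T.l 24672)) (T.a (T.l 24672) (T.l 24672))) (T.c (T.a (T.b (T.l 96) (T.l 96)) (T.b (T.l 96) (T.l 96))) (T.a (T.b (T.l 96) (T.l 96)) (T.b (T.l 96) (T.l 96)))))) (T.a (T.a (T.b (T.b (T.l 2) (T.b (T.l 2) (T.c (T.a (T.l 96) (T.l 96)) (T.l 96)))) (T.c (T.a (T.l 96) (T.l 96)) (T.a (T.l 96) (T.l 96)))) (T.b (T.b (T.l 2) (T.b (T.l 2) (T.c (T.a (T.l 96) (T.l 96)) (T.a (T.l 96) (T.l 96))))) (T.c (T.a (T.l 96)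 (T.a (T.l 96) (T.l 96))) (T.a (T.l 96) (T.a (T.l 96) (T.l 96)))))) (T.a (T.c (T.b (T.b (T.l 2) (T.a (T.l 96) (T.c (T.l 96) (T.l 96)))) (T.a (T.b (T.a (T.l 96) (T.l 96)) (T.l 96)) (T.l 96))) (T.a (T.b (T.l 96) (T.a (T.l 96) (T.l 96))) (T.b (T.a (T.l 96) (T.l 96)) (T.l 96)))) (T.b (T.b (T.l 2) (T.b (T.l 2) (T.c (T.a (T.a (T.c (T.l 96) (T.l 96)) (T.l 96)) (T.l 96)) (T.a (T.a (T.l 96) (T.l 96)) (T.l 96))))) (T.c (T.a (T.l 96) (T.l 96)) (T.a (T.l 96) (T.l 96))))))))))) (T.b (T.a (T.a (T.a (T.a (T.a (T.l 279616) (T.l 279616)) (T.a (T.l 279616) (T.l 279616))) (T.a (T.a (T.l 279616) (T.l 279616)) (T.a (T.l 279616) (T.l 279616)))) (T.a (T.a (T.a (T.l 279616) (T.l 279616)) (T.a (T.l 279616) (T.l 287808))) (T.a (T.a (T.l 287840) (T.l 287840)) (T.a (T.l 287840) (T.l 287840))))) (T.c (T.a (T.a (T.a (T.a (T.l 279648) (T.l 287840)) (T.a (T.l 287840) (T.b (T.l 16480) (T.l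 287840)))) (T.a (T.a (T.b (T.l 16480) (T.l 287840)) (T.b (T.l 24672) (T.l 279648))) (T.b (T.a (T.l 25696) (T.a (T.l 24672) (T.l 24672))) (T.a (T.l 279648) (T.l 279648))))) (T.c (T.a (T.a (T.b (T.a (T.l 24672) (T.l 16480)) (T.l 279648)) (T.b (T.a (T.l 16480) (T.a (T.l 16480) (T.l 16480))) (T.a (T.l 17504) (T.l 17504)))) (T.a (T.a (T.l 279648) (T.l 279648)) (T.a (T.l 279648) (T.b (T.a (T.l 16480) (T.l 16480)) (T.a (T.l 16480) (T.l 16480)))))) (T.a (T.a (T.b (T.a (T.l 24672) (T.l 16480)) (T.l 279648)) (T.b (T.a (T.l 16480) (T.a (T.l 16480) (T.l 16480))) (T.a (T.l 17504) (T.l 17504)))) (T.a (T.a (T.l 279648) (T.l 279648)) (T.a (T.l 279648) (T.b (T.a (T.l 16480) (T.l 16480)) (T.a (T.l 16480) (T.l 16480)))))))) (T.a (T.a (T.a (T.a (T.l 279616) (T.l 279648)) (T.a (T.l 287840) (T.b (T.l 16480) (T.l 287840)))) (T.a (T.a (T.b (T.l 16480) (T.l 287840)) (T.b (T.l 24672)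 (T.l 279648))) (T.b (T.a (T.l 25696) (T.l 25696)) (T.a (T.l 279648) (T.l 279648))))) (T.c (T.a (T.a (T.b (T.a (T.l 24672) (T.l 16480)) (T.l 279648)) (T.b (T.a (T.l 16480) (T.a (T.l 16480) (T.l 16480))) (T.a (T.l 17504) (T.l 17504)))) (T.a (T.a (T.l 279648) (T.l 279648)) (T.a (T.l 279648) (T.b (T.l 24672) (T.l 17504))))) (T.a (T.a (T.b (T.a (T.l 24672) (T.l 16480)) (T.l 279648)) (T.b (T.a (T.l 16480) (T.a (T.l 16480) (T.l 16480))) (T.a (T.l 17504) (T.l 17504)))) (T.a (T.a (T.l 279648) (T.l 279648)) (T.a (T.l 287840) (T.b (T.l 24672) (T.l 17504))))))))) (T.b (T.a (T.a (T.a (T.a (T.a (T.l 287808) (T.l 287808)) (T.a (T.l 287808) (T.l 287808))) (T.a (T.a (T.l 287808) (T.l 287808)) (T.a (T.l 287808) (T.l 287808)))) (T.a (T.a (T.a (T.l 287808) (T.l 287808)) (T.a (T.l 287808) (T.l 287808))) (T.a (T.a (T.l 287808) (T.l 287808)) (T.a (T.l 287808) (T.a (T.l 287808) (T.l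 287808)))))) (T.b (T.c (T.a (T.a (T.a (T.a (T.l 287808) (T.l 287808)) (T.l 287840)) (T.a (T.l 279648) (T.l 279648))) (T.a (T.a (T.l 279648) (T.a (T.l 17504) (T.l 17504))) (T.a (T.a (T.l 17504) (T.l 4)) (T.l 4)))) (T.a (T.a (T.a (T.a (T.l 279616) (T.l 287808)) (T.l 287840)) (T.a (T.l 279648) (T.l 279648))) (T.a (T.a (T.l 279648) (T.a (T.l 17504) (T.l 17504))) (T.a (T.a (T.l 17504) (T.l 4)) (T.l 4))))) (T.c (T.a (T.a (T.a (T.l 287840) (T.l 279648)) (T.a (T.l 279648) (T.l 279648))) (T.a (T.a (T.l 279648) (T.a (T.l 279648) (T.l 279648))) (T.l 4))) (T.a (T.a (T.a (T.l 287840) (T.l 279648)) (T.a (T.l 279648) (T.l 279648))) (T.a (T.a (T.l 279648) (T.a (T.l 279648) (T.l 279648))) (T.l 4)))))) (T.a (T.a (T.a (T.a (T.a (T.l 357712) (T.l 357712)) (T.a (T.l 357712) (T.l 357712))) (T.a (T.a (T.l 357712) (T.l 357712)) (T.a (T.l 357712) (T.l 357712)))) (T.a (T.a (T.a (T.l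 357712) (T.l 357712)) (T.a (T.l 357712) (T.l 357712))) (T.a (T.a (T.a (T.l 357712) (T.l 357712)) (T.a (T.l 357712) (T.l 357712))) (T.a (T.a (T.l 357712) (T.l 357712)) (T.l 349520))))) (T.a (T.b (T.c (T.c (T.a (T.a (T.l 283728) (T.l 283760)) (T.a (T.l 283760) (T.l 283760))) (T.a (T.a (T.l 283728) (T.l 283760)) (T.a (T.l 283760) (T.l 283760)))) (T.c (T.a (T.a (T.l 283728) (T.l 283760)) (T.a (T.l 283760) (T.l 283760))) (T.a (T.a (T.l 283984) (T.l 284016)) (T.a (T.l 284016) (T.l 284016))))) (T.b (T.c (T.c (T.a (T.a (T.l 349520) (T.l 349552)) (T.a (T.l 349552) (T.l 349552))) (T.a (T.a (T.l 349520) (T.l 349552)) (T.a (T.l 349552) (T.l 349552)))) (T.c (T.a (T.a (T.l 349520) (T.l 349552)) (T.a (T.l 349552) (T.l 349552))) (T.a (T.a (T.l 349520) (T.l 349552)) (T.a (T.l 349552) (T.l 349552))))) (T.c (T.c (T.a (T.a (T.l 349520) (T.l 349552)) (T.a (T.l 349552) (T.l 349552)))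 (T.a (T.a (T.l 349520) (T.l 349552)) (T.a (T.l 349552) (T.l 349552)))) (T.c (T.a (T.a (T.l 349520) (T.l 349552)) (T.a (T.l 349552) (T.l 349552))) (T.a (T.a (T.l 349520) (T.l 349552)) (T.a (T.l 349552) (T.l 349552))))))) (T.a (T.a (T.a (T.l 349552) (T.l 349552)) (T.l 4)) (T.l 4))))))) (T.b (T.b (T.l 2) (T.b (T.l 2) (T.a (T.a (T.a (T.a (T.a (T.l 287808) (T.l 279616)) (T.a (T.l 279616) (T.l 279616))) (T.a (T.a (T.l 279616) (T.l 279616)) (T.a (T.l 279616) (T.l 279616)))) (T.a (T.a (T.a (T.l 279616) (T.l 279616)) (T.a (T.l 279616) (T.l 279648))) (T.a (T.a (T.l 279648) (T.l 279648)) (T.a (T.l 279648) (T.l 287840))))) (T.a (T.a (T.a (T.a (T.l 287840) (T.a (T.l 16480) (T.l 16480))) (T.a (T.a (T.l 16480) (T.l 16480)) (T.a (T.l 16480) (T.l 16480)))) (T.a (T.a (T.a (T.l 16480) (T.l 16480)) (T.a (T.l 24672) (T.l 24672))) (T.a (T.a (T.l 24672) (T.l 24672)) (T.a (T.l 24672)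 (T.l 24672))))) (T.a (T.a (T.a (T.a (T.l 24672) (T.l 25696)) (T.a (T.l 25696) (T.l 25696))) (T.a (T.c (T.l 24672) (T.l 24672)) (T.c (T.b (T.a (T.l 96) (T.l 96)) (T.l 16480)) (T.b (T.a (T.l 96) (T.l 96)) (T.l 24672))))) (T.a (T.a (T.c (T.b (T.a (T.l 96) (T.l 96)) (T.a (T.l 96) (T.l 96))) (T.b (T.a (T.l 96) (T.l 96)) (T.a (T.l 96) (T.l 96)))) (T.a (T.c (T.b (T.l 96) (T.l 96)) (T.b (T.l 96) (T.l 96))) (T.c (T.b (T.l 96) (T.l 96)) (T.b (T.l 96) (T.l 96))))) (T.a (T.c (T.a (T.b (T.l 96) (T.a (T.l 96) (T.l 96))) (T.b (T.a (T.l 96) (T.l 96)) (T.l 96))) (T.a (T.b (T.l 96) (T.l 96)) (T.b (T.l 96) (T.l 96)))) (T.b (T.b (T.l 2) (T.b (T.l 2) (T.a (T.c (T.a (T.l 96) (T.l 96)) (T.a (T.l 0) (T.l 0))) (T.c (T.l 96) (T.l 96))))) (T.c (T.a (T.l 96) (T.l 96)) (T.a (T.l 96) (T.l 96))))))))))) (T.b (T.a (T.a (T.a (T.a (T.a (T.l 287808) (T.l 287808)) (T.a (T.l 287808) (T.l 287808)))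 (T.a (T.a (T.l 287808) (T.l 287808)) (T.a (T.l 287808) (T.l 287808)))) (T.a (T.a (T.a (T.l 287808) (T.l 287808)) (T.a (T.l 279616) (T.l 287808))) (T.a (T.a (T.l 287808) (T.l 287840)) (T.a (T.l 287840) (T.l 287840))))) (T.c (T.a (T.a (T.a (T.a (T.l 279616) (T.l 279616)) (T.a (T.l 287840) (T.l 287840))) (T.a (T.a (T.b (T.l 17472) (T.l 287840)) (T.b (T.l 17504) (T.l 279648))) (T.b (T.a (T.l 287840) (T.l 287840)) (T.a (T.l 279648) (T.l 279648))))) (T.c (T.a (T.a (T.b (T.a (T.l 24672) (T.l 16480)) (T.l 279648)) (T.b (T.a (T.l 17504) (T.a (T.l 16480) (T.l 16448))) (T.a (T.l 17504) (T.l 17504)))) (T.a (T.a (T.l 279648) (T.l 279648)) (T.a (T.l 287840) (T.b (T.l 24672) (T.l 17504))))) (T.a (T.a (T.b (T.a (T.l 25696) (T.l 17504)) (T.l 279648)) (T.b (T.a (T.l 17504) (T.a (T.l 16480) (T.l 16448))) (T.a (T.l 279648) (T.l 17504)))) (T.a (T.a (T.l 279648) (T.l 279648)) (T.a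 (T.l 287840) (T.b (T.l 25696) (T.l 279648))))))) (T.a (T.a (T.a (T.a (T.l 279616) (T.l 279616)) (T.a (T.l 287840) (T.l 287840))) (T.a (T.a (T.b (T.l 279616) (T.l 287840)) (T.b (T.l 287840) (T.l 279648))) (T.b (T.a (T.l 287840) (T.l 287840)) (T.a (T.l 279648) (T.l 279648))))) (T.c (T.a (T.a (T.b (T.a (T.l 25696) (T.l 17504)) (T.l 279648)) (T.b (T.a (T.l 17504) (T.a (T.l 16480) (T.l 16448))) (T.a (T.l 279648) (T.l 279648)))) (T.a (T.a (T.l 279648) (T.l 279648)) (T.a (T.l 287840) (T.b (T.l 25696) (T.a (T.l 17504) (T.l 17504)))))) (T.a (T.a (T.b (T.a (T.l 25696) (T.l 17504)) (T.l 279648)) (T.b (T.a (T.l 17504) (T.a (T.l 16480) (T.l 16448))) (T.a (T.l 279648) (T.l 279648)))) (T.a (T.a (T.l 279648) (T.l 279648)) (T.a (T.l 287840) (T.b (T.l 25696) (T.a (T.l 17504) (T.l 17504)))))))))) (T.b (T.a (T.a (T.a (T.a (T.a (T.l 287808) (T.l 287808)) (T.a (T.l 287808) (T.l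 287808))) (T.a (T.a (T.l 287808) (T.l 287808)) (T.a (T.l 287808) (T.l 287808)))) (T.a (T.a (T.a (T.l 287808) (T.l 287808)) (T.a (T.l 287808) (T.l 287808))) (T.a (T.a (T.l 287808) (T.l 287808)) (T.a (T.l 287808) (T.l 287840))))) (T.b (T.c (T.a (T.a (T.a (T.a (T.l 279616) (T.l 287808)) (T.l 287840)) (T.a (T.l 279648) (T.l 279648))) (T.a (T.a (T.l 279648) (T.a (T.l 17504) (T.l 17504))) (T.a (T.a (T.l 17504) (T.l 4)) (T.l 4)))) (T.a (T.a (T.a (T.a (T.l 279616) (T.l 287808)) (T.a (T.l 279616) (T.l 279616))) (T.a (T.l 279648) (T.l 279648))) (T.a (T.a (T.a (T.l 279648) (T.l 279648)) (T.a (T.l 279648) (T.l 279648))) (T.a (T.a (T.l 279648) (T.l 4)) (T.l 4))))) (T.c (T.a (T.a (T.a (T.l 287840) (T.l 279648)) (T.a (T.l 279648) (T.l 279648))) (T.a (T.a (T.l 279648) (T.a (T.l 279648) (T.l 279648))) (T.l 4))) (T.a (T.a (T.a (T.l 287840) (T.l 279648)) (T.a (T.l 279648) (T.a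 (T.l 279648) (T.l 279648)))) (T.a (T.a (T.a (T.l 279648) (T.l 279648)) (T.a (T.l 279648) (T.l 279648))) (T.l 4)))))) (T.a (T.a (T.a (T.a (T.a (T.l 357712) (T.l 357712)) (T.a (T.l 357712) (T.l 357712))) (T.a (T.a (T.l 357712) (T.l 357712)) (T.a (T.l 357712) (T.l 357712)))) (T.a (T.a (T.a (T.l 357712) (T.l 357712)) (T.a (T.l 357712) (T.l 357712))) (T.a (T.a (T.l 357712) (T.a (T.l 357712) (T.l 357712))) (T.a (T.a (T.l 357712) (T.l 357712)) (T.l 349552))))) (T.a (T.b (T.c (T.c (T.a (T.a (T.l 349520) (T.l 284016)) (T.a (T.l 284016) (T.l 284016))) (T.a (T.a (T.l 349552) (T.l 349552)) (T.a (T.l 284016) (T.l 284016)))) (T.c (T.a (T.a (T.l 349552) (T.l 349552)) (T.a (T.l 349552) (T.l 284016))) (T.a (T.a (T.l 349552) (T.l 349552)) (T.a (T.l 349552) (T.l 349552))))) (T.b (T.c (T.c (T.a (T.a (T.l 349520) (T.l 349552)) (T.a (T.l 349552) (T.l 349552))) (T.a (T.a (T.l 349552)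 (T.l 349552)) (T.a (T.l 349552) (T.l 349552)))) (T.c (T.a (T.a (T.l 349552) (T.l 349552)) (T.a (T.l 349552) (T.l 349552))) (T.a (T.a (T.l 349552) (T.l 349552)) (T.a (T.l 349552) (T.l 349552))))) (T.c (T.c (T.a (T.a (T.l 349520) (T.l 349552)) (T.a (T.l 349552) (T.l 349552))) (T.a (T.a (T.l 349552) (T.l 349552)) (T.a (T.l 349552) (T.l 349552)))) (T.c (T.a (T.a (T.l 349552) (T.l 349552)) (T.a (T.l 349552) (T.l 349552))) (T.a (T.a (T.l 349552) (T.l 349552)) (T.a (T.l 349552) (T.l 349552))))))) (T.a (T.a (T.b (T.a (T.l 284016) (T.a (T.l 279648) (T.l 4))) (T.l 4)) (T.l 4)) (T.l 4)))))))))), by decide +kernel⟩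

end Pool.Agent.Strip051.G.I9500_9625.Tab.DG
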