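import Pool.Agent.Strip051.G.I9500_9625.DgP

/-! # The corner (1, 1, 2): certificates of the degenerate charts (generated) -/

set_option linter.all false

namespace Pool.Agent.Strip051.G.I9500_9625.Tab.DG

open Pool.Agent.Strip051.PB Pool.Agent.Strip051.PB.Dg Pool.Agent.StripNear Pool.Agent.Strip051.LC

theorem cNA3 : ∃ t, chk3 (onCell 0 91892597 0 1073741824 1020054732 13421774 (fdAW pN qN (ndUR ndN3) (ndUR ndN4) (thLo (ndUR ndN3) (ndUR ndN4)) (tuLo (ndUR ndN3) (ndUR ndN4) (suR ndN3) (suR ndN4)))) t 1 1 1 = true :=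
  ⟨(T.a (T.a (T.b (T.b (T.b (T.b (T.b (T.l 2) (T.c (T.a (T.l 8224) (T.l 8224)) (T.a (T.l 8224) (T.l 8224)))) (T.c (T.l 8224) (T.l 8224))) (T.c (T.l 8224) (T.a (T.l 8224) (T.l 8224)))) (T.b (T.a (T.l 139808) (T.l 139808)) (T.l 139808))) (T.b (T.a (T.l 139808) (T.l 139808)) (T.l 3))) (T.b (T.b (T.b (T.b (T.b (T.l 2) (T.a (T.c (T.l 0) (T.l 8224)) (T.l 2))) (T.c (T.a (T.l 8224) (T.l 32)) (T.a (T.l 8224) (T.l 8224)))) (T.b (T.c (T.l 8192) (T.l 8224)) (T.a (T.l 8224) (T.l 8224)))) (T.b (T.b (T.l 8224) (T.l 8224)) (T.a (T.l 139808) (T.l 139808)))) (T.a (T.b (T.a (T.l 139808) (T.l 139808)) (T.l 3)) (T.b (T.a (T.l 139808) (T.b (T.l 8224) (T.l 139808))) (T.l 3))))) (T.b (T.b (T.b (T.b (T.l 2) (T.c (T.a (T.a (T.l 0) (T.l 0)) (T.l 0)) (T.a (T.a (T.l 8224) (T.l 32)) (T.b (T.l 0) (T.l 0))))) (T.c (T.b (T.a (T.l 0) (T.l 0))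 (T.l 8192)) (T.b (T.a (T.l 8224) (T.l 8224)) (T.l 8224)))) (T.a (T.a (T.b (T.b (T.l 8224) (T.l 8224)) (T.l 139808)) (T.b (T.b (T.l 8224) (T.l 8224)) (T.b (T.l 139296) (T.a (T.l 8224) (T.l 8224))))) (T.b (T.b (T.a (T.l 8224) (T.a (T.l 8224) (T.l 8224))) (T.a (T.l 139296) (T.l 139296))) (T.a (T.b (T.a (T.l 8224) (T.l 139296)) (T.l 139808)) (T.b (T.a (T.l 8224) (T.l 8224)) (T.a (T.l 8224) (T.l 8224))))))) (T.c (T.a (T.b (T.a (T.b (T.a (T.l 139808) (T.l 8224)) (T.a (T.l 8224) (T.l 8736))) (T.b (T.a (T.l 8224) (T.l 8224)) (T.a (T.l 8224) (T.l 8224)))) (T.l 3)) (T.b (T.a (T.b (T.a (T.l 8224) (T.l 8224)) (T.a (T.l 8224) (T.l 8736))) (T.b (T.a (T.l 8224) (T.l 8224)) (T.b (T.l 139808) (T.a (T.l 8224) (T.l 8224))))) (T.l 3))) (T.a (T.b (T.a (T.b (T.a (T.l 139808) (T.l 8224)) (T.a (T.l 8224) (T.l 8224))) (T.b (T.a (T.l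 8224) (T.l 8224)) (T.a (T.l 8224) (T.l 8224)))) (T.l 3)) (T.b (T.a (T.b (T.a (T.l 8224) (T.l 8224)) (T.a (T.l 8224) (T.l 8224))) (T.b (T.a (T.l 8224) (T.l 8224)) (T.b (T.l 139808) (T.a (T.l 0) (T.l 0))))) (T.l 3)))))), by decide +kernel⟩
theorem cNA4 : ∃ t, chk3 (onCell 0 91892597 0 1073741824 1020054732 13421774 (fdAW pN qN (ndUR ndN4) (dgSC pN) (thUp (ndUR ndN4) (dgSC pN)) (tuUp (ndUR ndN4) (dgSC pN) (suR ndN4) (suC qN)))) t 1 1 1 = true :=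
  ⟨(T.b (T.l 2) (T.a (T.a (T.b (T.b (T.l 2) (T.l 139808)) (T.a (T.l 139808) (T.l 139808))) (T.a (T.a (T.b (T.l 139808) (T.l 139808)) (T.b (T.b (T.l 2) (T.l 139808)) (T.b (T.l 139808) (T.a (T.l 174760) (T.l 139808))))) (T.a (T.b (T.b (T.l 2) (T.a (T.l 139808) (T.l 139808))) (T.b (T.a (T.l 139808) (T.l 139808)) (T.a (T.l 139808) (T.l 139808)))) (T.b (T.b (T.l 2) (T.a (T.l 139808) (T.l 139808))) (T.b (T.a (T.l 139808) (T.l 139808)) (T.a (T.l 139944) (T.l 174760))))))) (T.c (T.b (T.b (T.l 2) (T.b (T.l 2) (T.a (T.a (T.a (T.l 139808) (T.l 139808)) (T.a (T.l 139808) (T.l 139808))) (T.a (T.a (T.l 139808) (T.a (T.l 32) (T.l 32))) (T.a (T.a (T.l 8224) (T.l 8224)) (T.a (T.l 8224) (T.l 8224))))))) (T.b (T.a (T.a (T.a (T.a (T.l 8224) (T.l 8224)) (T.a (T.l 8224) (T.l 8224))) (T.a (T.a (T.l 8224) (T.l 8736)) (T.a (T.l 8736)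 (T.l 8736)))) (T.a (T.a (T.a (T.l 139808) (T.l 139808)) (T.a (T.l 139808) (T.l 139808))) (T.a (T.a (T.l 139816) (T.l 139816)) (T.a (T.l 139816) (T.a (T.l 139808) (T.l 139808)))))) (T.b (T.a (T.a (T.a (T.l 8736) (T.l 139808)) (T.a (T.l 139808) (T.l 174760))) (T.a (T.a (T.l 174760) (T.l 174760)) (T.a (T.l 174760) (T.a (T.l 32) (T.l 4))))) (T.a (T.a (T.a (T.l 32) (T.l 544)) (T.a (T.l 174760) (T.l 174760))) (T.a (T.a (T.l 174760) (T.l 174760)) (T.a (T.a (T.l 0) (T.l 4)) (T.l 4))))))) (T.b (T.b (T.l 2) (T.b (T.l 2) (T.a (T.a (T.a (T.l 139808) (T.l 139808)) (T.a (T.l 139808) (T.l 139808))) (T.a (T.a (T.a (T.l 0) (T.l 0)) (T.a (T.l 0) (T.l 0))) (T.a (T.a (T.l 0) (T.l 0)) (T.a (T.l 0) (T.l 32))))))) (T.b (T.a (T.a (T.a (T.a (T.l 0) (T.l 32)) (T.a (T.l 8224) (T.l 8224))) (T.a (T.a (T.l 8224) (T.l 8224)) (T.a (T.l 8736)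 (T.l 8736)))) (T.a (T.a (T.a (T.l 139808) (T.l 139808)) (T.a (T.l 139808) (T.l 139808))) (T.a (T.a (T.l 139808) (T.l 139808)) (T.a (T.l 139808) (T.l 139808))))) (T.b (T.a (T.a (T.a (T.l 8736) (T.l 139808)) (T.a (T.l 139808) (T.l 174760))) (T.a (T.a (T.l 174760) (T.l 141992)) (T.a (T.l 174760) (T.a (T.l 0) (T.l 4))))) (T.a (T.a (T.a (T.l 544) (T.l 8736)) (T.a (T.l 174760) (T.l 174760))) (T.a (T.a (T.l 174760) (T.l 174760)) (T.a (T.l 174760) (T.l 4)))))))))), by decide +kernel⟩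
theorem cNB3 : ∃ t, chk3 (onCell 0 91892597 0 2684354560 1020054732 13421774 (fdBW pN qN (ndUR ndN3) (suR ndN3))) t 1 1 1 = true :=
  ⟨(T.b (T.b (T.b (T.b (T.c (T.b (T.b (T.l 2) (T.a (T.a (T.c (T.b (T.a (T.l 0) (T.l 0)) (T.l 0)) (T.a (T.b (T.b (T.l 2) (T.l 0)) (T.l 0)) (T.l 0))) (T.l 0)) (T.l 0))) (T.a (T.l 4) (T.a (T.l 0) (T.l 0)))) (T.b (T.b (T.l 2) (T.a (T.c (T.a (T.a (T.b (T.c (T.l 0) (T.l 0)) (T.l 8192)) (T.l 0)) (T.l 0)) (T.a (T.a (T.b (T.b (T.l 2) (T.c (T.l 0) (T.l 0))) (T.l 8192)) (T.l 0)) (T.l 0))) (T.a (T.l 0) (T.l 2)))) (T.a (T.l 4) (T.b (T.l 0) (T.l 4))))) (T.l 4)) (T.l 4)) (T.l 4)) (T.l 4)), by decide +kernel⟩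
theorem cNB4 : ∃ t, chk3 (onCell 0 91892597 0 2684354560 1020054732 13421774 (fdBW pN qN (ndUR ndN4) (suR ndN4))) t 1 1 1 = true :=
  ⟨(T.b (T.b (T.l 2) (T.b (T.a (T.a (T.b (T.a (T.l 0) (T.l 0)) (T.l 0)) (T.b (T.a (T.b (T.l 2) (T.l 0)) (T.b (T.l 2) (T.a (T.l 0) (T.a (T.l 0) (T.l 0))))) (T.b (T.a (T.l 0) (T.l 141992)) (T.l 4)))) (T.c (T.b (T.a (T.b (T.l 2) (T.a (T.a (T.l 0) (T.l 0)) (T.a (T.l 0) (T.l 0)))) (T.b (T.l 2) (T.a (T.b (T.a (T.l 0) (T.l 0)) (T.l 139808)) (T.b (T.a (T.l 0) (T.l 0)) (T.l 139808))))) (T.a (T.b (T.a (T.l 139816) (T.l 139816)) (T.l 4)) (T.b (T.a (T.l 174760) (T.l 174760)) (T.l 4)))) (T.b (T.a (T.b (T.l 2) (T.a (T.a (T.l 0) (T.l 0)) (T.a (T.l 0) (T.l 0)))) (T.b (T.l 2) (T.a (T.a (T.l 0) (T.l 0)) (T.b (T.a (T.l 0) (T.l 0)) (T.l 8736))))) (T.a (T.b (T.a (T.l 139808) (T.l 139808)) (T.l 4))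 (T.b (T.a (T.l 141992) (T.l 141992)) (T.l 4)))))) (T.l 4))) (T.l 4)), by decide +kernel⟩
theorem cNB5 : ∃ t, chk3 (onCell 0 91892597 0 2684354560 1020054732 13421774 (fdBW pN qN (dgSC pN) (suC qN))) t 1 1 1 = true :=
  ⟨(T.b (T.b (T.l 2) (T.b (T.l 2) (T.a (T.a (T.b (T.l 0) (T.l 0)) (T.b (T.a (T.b (T.a (T.l 0) (T.a (T.l 0) (T.l 0))) (T.a (T.l 174760) (T.l 174760))) (T.b (T.b (T.l 2) (T.a (T.l 0) (T.a (T.l 0) (T.l 0)))) (T.a (T.l 174760) (T.l 174760)))) (T.b (T.a (T.l 174760) (T.l 174760)) (T.l 4)))) (T.a (T.c (T.c (T.a (T.b (T.b (T.a (T.l 0) (T.l 0)) (T.a (T.l 136) (T.l 174760))) (T.a (T.l 174760) (T.l 174760))) (T.a (T.b (T.b (T.a (T.l 0) (T.l 0)) (T.l 174760)) (T.l 174760)) (T.b (T.b (T.a (T.l 0) (T.l 0)) (T.l 174760)) (T.l 174760)))) (T.a (T.b (T.b (T.a (T.l 0) (T.l 0)) (T.a (T.l 136) (T.l 174760))) (T.a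 (T.l 174760) (T.l 174760))) (T.a (T.b (T.b (T.a (T.l 0) (T.l 0)) (T.l 174760)) (T.l 174760)) (T.b (T.b (T.a (T.l 0) (T.l 0)) (T.l 174760)) (T.l 174760))))) (T.c (T.a (T.b (T.b (T.a (T.l 0) (T.l 0)) (T.a (T.l 136) (T.l 174760))) (T.a (T.l 174760) (T.l 174760))) (T.a (T.b (T.b (T.a (T.l 0) (T.l 0)) (T.l 174760)) (T.l 174760)) (T.b (T.b (T.a (T.l 0) (T.l 0)) (T.l 174760)) (T.l 174760)))) (T.a (T.b (T.b (T.a (T.l 0) (T.l 0)) (T.a (T.l 136) (T.l 174760))) (T.a (T.l 174760) (T.l 174760))) (T.a (T.b (T.b (T.a (T.l 0) (T.l 0)) (T.l 174760)) (T.l 174760)) (T.b (T.b (T.a (T.l 0) (T.l 0)) (T.l 43688)) (T.l 174760)))))) (T.a (T.b (T.a (T.a (T.b (T.a (T.l 0) (T.l 0)) (T.l 174760)) (T.b (T.a (T.l 0) (T.l 0)) (T.l 174760))) (T.b (T.b (T.l 2) (T.a (T.l 0) (T.a (T.l 0) (T.l 0)))) (T.a (T.l 174760) (T.l 6)))) (T.a (T.a (T.l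 174760) (T.l 6)) (T.l 6))) (T.a (T.a (T.b (T.b (T.b (T.l 2) (T.l 6)) (T.l 6)) (T.l 5)) (T.l 6)) (T.l 6))))))) (T.a (T.l 4) (T.l 4))), by decide +kernel⟩
theorem cNP3 : ∃ t, chk3 (onCell 0 91892597 0 1073741824 1020054732 13421774 (fdPW pN qN (ndUR ndN3) (suR ndN3))) t 1 1 1 = true :=
  ⟨(T.b (T.b (T.b (T.c (T.b (T.a (T.b (T.l 8224) (T.a (T.b (T.l 8192) (T.c (T.l 0) (T.a (T.l 0) (T.l 0)))) (T.l 0))) (T.l 32)) (T.b (T.a (T.a (T.l 2) (T.l 0)) (T.l 0)) (T.l 2))) (T.b (T.a (T.b (T.l 8224) (T.b (T.l 8224) (T.a (T.c (T.c (T.l 0) (T.l 0)) (T.a (T.c (T.l 0) (T.a (T.l 0) (T.l 0))) (T.l 0))) (T.l 0)))) (T.l 8224)) (T.b (T.a (T.a (T.l 2) (T.a (T.l 0) (T.l 0))) (T.l 0)) (T.l 2)))) (T.l 2)) (T.l 2)) (T.l 2)), by decide +kernel⟩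
theorem cNP4 : ∃ t, chk3 (onCell 0 91892597 0 1073741824 1020054732 13421774 (fdPW pN qN (ndUR ndN4) (suR ndN4))) t 1 1 1 = true :=
  ⟨(T.a (T.a (T.b (T.l 139808) (T.b (T.b (T.l 8224) (T.l 0)) (T.l 2))) (T.b (T.l 139808) (T.b (T.a (T.b (T.l 8224) (T.l 0)) (T.b (T.l 8224) (T.a (T.l 0) (T.b (T.l 0) (T.l 0))))) (T.l 2)))) (T.b (T.b (T.l 139808) (T.a (T.l 174760) (T.l 174760))) (T.c (T.a (T.b (T.b (T.l 141992) (T.b (T.a (T.l 8224) (T.l 8224)) (T.b (T.a (T.a (T.l 0) (T.l 0)) (T.a (T.l 0) (T.l 0))) (T.l 2)))) (T.l 2)) (T.b (T.b (T.l 141864) (T.b (T.a (T.l 8224) (T.l 139808)) (T.b (T.a (T.a (T.l 0) (T.l 0)) (T.a (T.l 0) (T.l 0))) (T.l 2)))) (T.l 2))) (T.a (T.b (T.b (T.l 174760) (T.b (T.a (T.l 8224) (T.l 8224)) (T.b (T.a (T.l 0) (T.l 0)) (T.l 2)))) (T.l 2)) (T.b (T.b (T.l 141992) (T.b (T.a (T.l 8224) (T.l 139808))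 (T.b (T.a (T.l 0) (T.a (T.l 0) (T.l 0))) (T.l 2)))) (T.l 2)))))), by decide +kernel⟩
theorem cNP5 : ∃ t, chk3 (onCell 0 91892597 0 1073741824 1020054732 13421774 (fdPW pN qN (dgSC pN) (suC qN))) t 1 1 1 = true :=
  ⟨(T.a (T.a (T.b (T.l 139808) (T.b (T.l 139808) (T.a (T.l 0) (T.l 0)))) (T.b (T.l 174760) (T.a (T.b (T.l 174760) (T.a (T.l 0) (T.b (T.l 0) (T.a (T.l 139808) (T.l 0))))) (T.b (T.l 174760) (T.b (T.l 174760) (T.b (T.l 174760) (T.a (T.l 544) (T.l 139944)))))))) (T.b (T.a (T.l 174760) (T.l 174760)) (T.c (T.a (T.a (T.b (T.l 174760) (T.b (T.l 174760) (T.a (T.l 139944) (T.l 174760)))) (T.b (T.l 174760) (T.b (T.l 174760) (T.b (T.l 174760) (T.a (T.l 174760) (T.l 174760)))))) (T.b (T.l 174760) (T.b (T.a (T.l 174760) (T.l 174760)) (T.a (T.b (T.l 174760) (T.a (T.l 174760) (T.l 174760))) (T.b (T.l 174760) (T.a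 (T.l 174760) (T.l 3))))))) (T.a (T.a (T.b (T.l 174760) (T.b (T.l 174760) (T.a (T.l 139944) (T.l 174760)))) (T.b (T.l 174760) (T.b (T.l 174760) (T.b (T.l 174760) (T.a (T.l 174760) (T.l 174760)))))) (T.b (T.l 174760) (T.b (T.a (T.l 174760) (T.l 174760)) (T.a (T.b (T.l 174760) (T.a (T.l 174760) (T.l 174760))) (T.b (T.l 174760) (T.a (T.l 174760) (T.l 3)))))))))), by decide +kernel⟩
theorem cNC1 : ∃ t, chk3 (onCell 0 91892597 0 1073741824 1020054732 13421774 (fdCW pN qN ndN2 (thLo (ndUL pN ndN2) (ndUR ndN3)) (tuLo (ndUL pN ndN2) (ndUR ndN3) (suL qN ndN2) (suR ndN3)) cvN1 cFsDD1 (ndUR ndN3))) t 1 1 1 = true :=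
  ⟨(T.b (T.b (T.b (T.b (T.b (T.a (T.b (T.b (T.a (T.c (T.l 0) (T.c (T.l 0) (T.l 0))) (T.c (T.l 0) (T.c (T.l 0) (T.l 0)))) (T.l 8224)) (T.l 8224)) (T.b (T.b (T.c (T.a (T.l 0) (T.l 0)) (T.c (T.l 0) (T.l 0))) (T.a (T.l 8224) (T.l 8224))) (T.l 8224))) (T.l 1)) (T.l 1)) (T.l 1)) (T.l 1)) (T.l 1)), by decide +kernel⟩
theorem cNC2 : ∃ t, chk3 (onCell 0 91892597 0 1073741824 1020054732 13421774 (fdCW pN qN ndN2 (thLo (ndUL pN ndN2) (ndUR ndN3)) (tuLo (ndUL pN ndN2) (ndUR ndN3) (suL qN ndN2) (suR ndN3)) cvN2 cFsDD2 (ndUR ndN3))) t 1 1 1 = true :=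
  ⟨(T.b (T.b (T.b (T.b (T.b (T.b (T.a (T.b (T.a (T.c (T.l 0) (T.c (T.l 0) (T.l 0))) (T.c (T.l 0) (T.c (T.l 0) (T.l 0)))) (T.l 8224)) (T.b (T.c (T.a (T.l 0) (T.l 0)) (T.c (T.l 0) (T.l 0))) (T.l 8224))) (T.l 8224)) (T.l 1)) (T.l 1)) (T.l 1)) (T.l 1)) (T.l 1)), by decide +kernel⟩

end Pool.Agent.Strip051.G.I9500_9625.Tab.DG
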