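import Pool.Agent.Strip051.PB.Cuts
import Pool.Agent.Strip051.PB.WinG

/-! # Tables I9500_9625 (generated) -/

namespace Pool.Agent.Strip051.G.I9500_9625.Tab

open Pool.Agent.Strip051.PB

noncomputable def c1g : Fn1 := ⟨_, _, fun h1 => (enc_sqrtg (enc_sub (enc_pnc _ 1) (enc_scaleT 3 4 (enc_sq h1))))⟩
noncomputable def kcg_3 : Fn2 := ⟨_, _, fun h1 h2 => (enc_subr 153 160 h2)⟩
noncomputable def kcg_6 : Fn2 := ⟨_, _, fun h1 h2 => (enc_add h1 (enc_rat _ 2 5))⟩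
noncomputable def kcg_9 : Fn2 := ⟨_, _, fun h1 h2 => (enc_add h1 (enc_rat _ 470613 1000000))⟩
noncomputable def kcg_12 : Fn2 := ⟨_, _, fun h1 h2 => (enc_add h1 (enc_rat _ 242653 500000))⟩
noncomputable def kcg_13 : Fn2 := ⟨_, _, fun h1 h2 => (enc_scaleT 175201067 14694000 h1)⟩
noncomputable def kcg_18 : Fn2 := ⟨_, _, fun h1 h2 => (enc_scaleT 54095711 367350 h1)⟩
noncomputable def kcg_31 : Fn2 := ⟨_, _, fun h1 h2 => (enc_subr 53 10000 (enc_neg (enc_scaleT 2761 1000 (kcg_3.enc h1 h2))))⟩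
noncomputable def kcg_34 : Fn2 := ⟨_, _, fun h1 h2 => (enc_add h1 (enc_rat _ 1 2))⟩
noncomputable def kcg_35 : Fn2 := ⟨_, _, fun h1 h2 => (enc_sub (enc_neg (enc_rat _ 242653 500000)) h1)⟩
noncomputable def kcg_40 : Fn2 := ⟨_, _, fun h1 h2 => (enc_scaleT 35039581 2938600 h1)⟩
noncomputable def kcg_45 : Fn2 := ⟨_, _, fun h1 h2 => (enc_scaleT 216241677 1469300 h1)⟩
noncomputable def kcg_58 : Fn2 := ⟨_, _, fun h1 h2 => (enc_subr 47 5000 (enc_neg (enc_scaleT 1889 500 (kcg_3.enc h1 h2))))⟩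
noncomputable def kcg_59 : Fn2 := ⟨_, _, fun h1 h2 => (enc_sub (enc_neg (enc_rat _ 470613 1000000)) h1)⟩
noncomputable def kcg_67 : Fn2 := ⟨_, _, fun h1 h2 => (enc_add h1 (enc_rat _ 181 397))⟩
noncomputable def kcg_68 : Fn2 := ⟨_, _, fun h1 h2 => (enc_scaleT 8135674551 1458340250 h1)⟩
noncomputable def kcg_73 : Fn2 := ⟨_, _, fun h1 h2 => (enc_scaleT 1452392343 30701900 h1)⟩
noncomputable def kcg_86 : Fn2 := ⟨_, _, fun h1 h2 => (enc_subr 2158971 5000 (enc_neg (enc_scaleT 1358501 200 (kcg_3.enc h1 h2))))⟩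
noncomputable def kcg_87 : Fn2 := ⟨_, _, fun h1 h2 => (enc_sub (enc_neg (enc_rat _ 181 397)) h1)⟩
noncomputable def kcg_94 : Fn2 := ⟨_, _, fun h1 h2 => (enc_add h1 (enc_rat _ 107 254))⟩
noncomputable def kcg_95 : Fn2 := ⟨_, _, fun h1 h2 => (enc_scaleT 12731654623 6990000000 h1)⟩
noncomputable def kcg_99 : Fn2 := ⟨_, _, fun h1 h2 => (enc_scaleT 9174547132073 174750000000 h1)⟩
noncomputable def kcg_110 : Fn2 := ⟨_, _, fun h1 h2 => (enc_subr 60911 2000 (enc_neg (enc_scaleT 23 500 (kcg_3.enc h1 h2))))⟩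
noncomputable def kcg_111 : Fn2 := ⟨_, _, fun h1 h2 => (enc_sub (enc_neg (enc_rat _ 107 254)) h1)⟩
noncomputable def kcg_116 : Fn2 := ⟨_, _, fun h1 h2 => (enc_scaleT 7768736431 2700000000 h1)⟩
noncomputable def kcg_120 : Fn2 := ⟨_, _, fun h1 h2 => (enc_scaleT 12636540259 270000000 h1)⟩
noncomputable def kcg_129 : Fn2 := ⟨_, _, fun h1 h2 => (enc_subr 19 1250 (enc_scaleT 134069 500 (kcg_3.enc h1 h2)))⟩
noncomputable def kcg_130 : Fn2 := ⟨_, _, fun h1 h2 => (enc_sub (enc_neg (enc_rat _ 2 5)) h1)⟩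
noncomputable def kcg_140 : Fn2 := ⟨_, _, fun h1 h2 => (enc_add h1 (enc_rat _ 6 25))⟩
noncomputable def kcg_143 : Fn2 := ⟨_, _, fun h1 h2 => (enc_add h1 (enc_rat _ 9 25))⟩
noncomputable def kcg_144 : Fn2 := ⟨_, _, fun h1 h2 => (enc_scaleT 1438887 500000 h1)⟩
noncomputable def kcg_148 : Fn2 := ⟨_, _, fun h1 h2 => (enc_scaleT 1519177 50000 h1)⟩
noncomputable def kcg_157 : Fn2 := ⟨_, _, fun h1 h2 => (enc_subr 7 2000 (enc_scaleT 66987 250 (kcg_3.enc h1 h2)))⟩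
noncomputable def kcg_158 : Fn2 := ⟨_, _, fun h1 h2 => (enc_sub (enc_neg (enc_rat _ 9 25)) h1)⟩
noncomputable def kcg_165 : Fn2 := ⟨_, _, fun h1 h2 => (enc_add h1 (enc_rat _ 8 25))⟩
noncomputable def kcg_166 : Fn2 := ⟨_, _, fun h1 h2 => (enc_scaleT 359751 125000 h1)⟩
noncomputable def kcg_170 : Fn2 := ⟨_, _, fun h1 h2 => (enc_scaleT 89857 10000 h1)⟩
noncomputable def kcg_179 : Fn2 := ⟨_, _, fun h1 h2 => (enc_subr 3 1250 (enc_scaleT 266999 1000 (kcg_3.enc h1 h2)))⟩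
noncomputable def kcg_180 : Fn2 := ⟨_, _, fun h1 h2 => (enc_sub (enc_neg (enc_rat _ 8 25)) h1)⟩
noncomputable def kcg_185 : Fn2 := ⟨_, _, fun h1 h2 => (enc_scaleT 1439081 500000 h1)⟩
noncomputable def kcg_189 : Fn2 := ⟨_, _, fun h1 h2 => (enc_scaleT 42799 25000 h1)⟩
noncomputable def kcg_199 : Fn2 := ⟨_, _, fun h1 h2 => (enc_subr 1 1250 (enc_scaleT 111 500 (kcg_3.enc h1 h2)))⟩
noncomputable def kcg_200 : Fn2 := ⟨_, _, fun h1 h2 => (enc_sub (enc_neg (enc_rat _ 6 25)) h1)⟩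
noncomputable def kcg_209 : Fn2 := ⟨_, _, fun h1 h2 => (enc_add h1 (enc_rat _ 4 25))⟩
noncomputable def kcg_210 : Fn2 := ⟨_, _, fun h1 h2 => (enc_scaleT 1439131 500000 h1)⟩
noncomputable def kcg_214 : Fn2 := ⟨_, _, fun h1 h2 => (enc_scaleT 5419 3125 h1)⟩
noncomputable def kcg_225 : Fn2 := ⟨_, _, fun h1 h2 => (enc_subr 1 2000 (enc_scaleT 11 200 (kcg_3.enc h1 h2)))⟩
noncomputable def kcg_226 : Fn2 := ⟨_, _, fun h1 h2 => (enc_sub (enc_neg (enc_rat _ 4 25)) h1)⟩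
noncomputable def kcg_234 : Fn2 := ⟨_, _, fun h1 h2 => (enc_scaleT 1439163 500000 h1)⟩
noncomputable def kcg_238 : Fn2 := ⟨_, _, fun h1 h2 => (enc_scaleT 21693 12500 h1)⟩
noncomputable def kcg_251 : Fn2 := ⟨_, _, fun h1 h2 => (enc_subr 3 10000 (enc_neg (enc_scaleT 19 500 (kcg_3.enc h1 h2))))⟩
noncomputable def kcg_252 : Fn2 := ⟨_, _, fun h1 h2 => (enc_sub (enc_neg (enc_rat _ 2 25)) h1)⟩
noncomputable def kcg_257 : Fn2 := ⟨_, _, fun h1 h2 => (enc_scaleT 57567 20000 h1)⟩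
noncomputable def kcg_261 : Fn2 := ⟨_, _, fun h1 h2 => (enc_mul (enc_norm (kcg_3.enc h1 h2)) (enc_scaleT 4331 2500 h1))⟩
noncomputable def kcg_269 : Fn2 := ⟨_, _, fun h1 h2 => (enc_sub (enc_rat _ 2 5) h1)⟩
noncomputable def kcg_270 : Fn2 := ⟨_, _, fun h1 h2 => (enc_sub (enc_rat _ 470613 1000000) h1)⟩
noncomputable def kcg_271 : Fn2 := ⟨_, _, fun h1 h2 => (enc_sub (enc_rat _ 242653 500000) h1)⟩
noncomputable def kcg_276 : Fn2 := ⟨_, _, fun h1 h2 => (enc_sub (enc_rat _ 1 2) h1)⟩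
noncomputable def kcg_277 : Fn2 := ⟨_, _, fun h1 h2 => (enc_subr 242653 500000 h1)⟩
noncomputable def kcg_286 : Fn2 := ⟨_, _, fun h1 h2 => (enc_subr 470613 1000000 h1)⟩
noncomputable def kcg_292 : Fn2 := ⟨_, _, fun h1 h2 => (enc_sub (enc_rat _ 181 397) h1)⟩
noncomputable def kcg_297 : Fn2 := ⟨_, _, fun h1 h2 => (enc_subr 181 397 h1)⟩
noncomputable def kcg_302 : Fn2 := ⟨_, _, fun h1 h2 => (enc_sub (enc_rat _ 107 254) h1)⟩
noncomputable def kcg_309 : Fn2 := ⟨_, _, fun h1 h2 => (enc_subr 107 254 h1)⟩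
noncomputable def kcg_320 : Fn2 := ⟨_, _, fun h1 h2 => (enc_subr 2 5 h1)⟩
noncomputable def kcg_328 : Fn2 := ⟨_, _, fun h1 h2 => (enc_sub (enc_rat _ 6 25) h1)⟩
noncomputable def kcg_329 : Fn2 := ⟨_, _, fun h1 h2 => (enc_sub (enc_rat _ 9 25) h1)⟩
noncomputable def kcg_336 : Fn2 := ⟨_, _, fun h1 h2 => (enc_subr 9 25 h1)⟩
noncomputable def kcg_341 : Fn2 := ⟨_, _, fun h1 h2 => (enc_sub (enc_rat _ 8 25) h1)⟩
noncomputable def kcg_348 : Fn2 := ⟨_, _, fun h1 h2 => (enc_subr 8 25 h1)⟩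
noncomputable def kcg_358 : Fn2 := ⟨_, _, fun h1 h2 => (enc_subr 6 25 h1)⟩
noncomputable def kcg_365 : Fn2 := ⟨_, _, fun h1 h2 => (enc_sub (enc_rat _ 4 25) h1)⟩
noncomputable def kcg_371 : Fn2 := ⟨_, _, fun h1 h2 => (enc_subr 4 25 h1)⟩
noncomputable def kcg_382 : Fn2 := ⟨_, _, fun h1 h2 => (enc_subr 2 25 h1)⟩
noncomputable def kcg : Fn2 := ⟨_, _, fun h1 h2 => (enc_norm (enc_case h1 (enc_case (kcg_6.enc h1 h2) (enc_case (kcg_9.enc h1 h2) (enc_case (kcg_12.enc h1 h2) (enc_add (enc_add (enc_subr 49995324588113 7347000000000 (enc_neg (kcg_13.enc h1 h2))) (enc_mul (enc_norm (kcg_3.enc h1 h2)) (enc_norm (enc_subr 26612537749117 367350000000 (enc_neg (kcg_18.enc h1 h2)))))) (enc_mA (enc_mul (enc_norm (kcg_31.enc h1 h2)) (enc_norm (enc_mul (enc_norm (kcg_34.enc h1 h2)) (enc_norm (kcg_35.enc h1 h2))))) (kcg_31.enc h1 h2) (kcg_34.enc h1 h2) (kcg_35.enc h1 h2) rfl)) (enc_add (enc_add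 (enc_subr 12498512028551 1836625000000 (enc_neg (kcg_40.enc h1 h2))) (enc_mul (enc_norm (kcg_3.enc h1 h2)) (enc_norm (enc_subr 1063815439237 14693000000 (enc_neg (kcg_45.enc h1 h2)))))) (enc_mA (enc_mul (enc_norm (kcg_58.enc h1 h2)) (enc_norm (enc_mul (enc_norm (kcg_12.enc h1 h2)) (enc_norm (kcg_59.enc h1 h2))))) (kcg_58.enc h1 h2) (kcg_12.enc h1 h2) (kcg_59.enc h1 h2) rfl))) (enc_case (kcg_67.enc h1 h2) (enc_add (enc_add (enc_subr 22277764067204563 5833361000000000 (enc_neg (kcg_68.enc h1 h2))) (enc_mul (enc_norm (kcg_3.enc h1 h2)) (enc_norm (enc_subr 48747265333861 1918868750000 (enc_neg (kcg_73.enc h1 h2)))))) (enc_mA (enc_mul (enc_norm (kcg_86.enc h1 h2)) (enc_norm (enc_mul (enc_norm (kcg_9.enc h1 h2)) (enc_norm (kcg_87.enc h1 h2))))) (kcg_86.enc h1 h2) (kcg_9.enc h1 h2) (kcg_87.enc h1 h2) rfl)) (enc_case (kcg_94.enc h1 h2) (enc_add (enc_add (enc_subr 311169370517 699000000000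 (kcg_95.enc h1 h2)) (enc_mul (enc_norm (kcg_3.enc h1 h2)) (enc_norm (enc_add (kcg_99.enc h1 h2) (enc_rat _ 3512456530889 174750000000))))) (enc_mA (enc_mul (enc_norm (kcg_110.enc h1 h2)) (enc_norm (enc_mul (enc_norm (kcg_67.enc h1 h2)) (enc_norm (kcg_111.enc h1 h2))))) (kcg_110.enc h1 h2) (kcg_67.enc h1 h2) (kcg_111.enc h1 h2) rfl)) (enc_add (enc_add (enc_subr 2398709 6750000000 (kcg_116.enc h1 h2)) (enc_mul (enc_norm (kcg_3.enc h1 h2)) (enc_norm (enc_add (kcg_120.enc h1 h2) (enc_rat _ 11946920299 675000000))))) (enc_mA (enc_mul (enc_norm (kcg_129.enc h1 h2)) (enc_norm (enc_mul (enc_norm (kcg_94.enc h1 h2)) (enc_norm (kcg_130.enc h1 h2))))) (kcg_129.enc h1 h2) (kcg_94.enc h1 h2) (kcg_130.enc h1 h2) rfl))))) (enc_case (kcg_140.enc h1 h2) (enc_case (kcg_143.enc h1 h2) (enc_add (enc_add (enc_subr 2121 12500000 (kcg_144.enc h1 h2)) (enc_mul (enc_norm (kcg_3.enc h1 h2)) (enc_norm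 (enc_add (kcg_148.enc h1 h2) (enc_rat _ 1739337 156250))))) (enc_mA (enc_mul (enc_norm (kcg_157.enc h1 h2)) (enc_norm (enc_mul (enc_norm (kcg_6.enc h1 h2)) (enc_norm (kcg_158.enc h1 h2))))) (kcg_157.enc h1 h2) (kcg_6.enc h1 h2) (kcg_158.enc h1 h2) rfl)) (enc_case (kcg_165.enc h1 h2) (enc_add (enc_add (enc_subr 267 3125000 (kcg_166.enc h1 h2)) (enc_mul (enc_norm (kcg_3.enc h1 h2)) (enc_norm (enc_add (kcg_170.enc h1 h2) (enc_rat _ 1071417 312500))))) (enc_mA (enc_mul (enc_norm (kcg_179.enc h1 h2)) (enc_norm (enc_mul (enc_norm (kcg_143.enc h1 h2)) (enc_norm (kcg_180.enc h1 h2))))) (kcg_179.enc h1 h2) (kcg_143.enc h1 h2) (kcg_180.enc h1 h2) rfl)) (enc_add (enc_add (enc_subr 113 3125000 (kcg_185.enc h1 h2)) (enc_mul (enc_norm (kcg_3.enc h1 h2)) (enc_norm (enc_sub (enc_rat _ 1651 312500) (kcg_189.enc h1 h2))))) (enc_mA (enc_mul (enc_norm (kcg_199.enc h1 h2)) (enc_norm (enc_mul (enc_norm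 (kcg_165.enc h1 h2)) (enc_norm (kcg_200.enc h1 h2))))) (kcg_199.enc h1 h2) (kcg_165.enc h1 h2) (kcg_200.enc h1 h2) rfl)))) (enc_case (kcg_209.enc h1 h2) (enc_add (enc_add (enc_subr 19 1562500 (kcg_210.enc h1 h2)) (enc_mul (enc_norm (kcg_3.enc h1 h2)) (enc_norm (enc_subr 2 78125 (enc_neg (kcg_214.enc h1 h2)))))) (enc_mA (enc_mul (enc_norm (kcg_225.enc h1 h2)) (enc_norm (enc_mul (enc_norm (kcg_140.enc h1 h2)) (enc_norm (kcg_226.enc h1 h2))))) (kcg_225.enc h1 h2) (kcg_140.enc h1 h2) (kcg_226.enc h1 h2) rfl)) (enc_case (enc_add h1 (enc_rat _ 2 25)) (enc_add (enc_add (enc_subr 3 1562500 (kcg_234.enc h1 h2)) (enc_mul (enc_norm (kcg_3.enc h1 h2)) (enc_norm (enc_subr 19 78125 (enc_neg (kcg_238.enc h1 h2)))))) (enc_mA (enc_mul (enc_norm (kcg_251.enc h1 h2)) (enc_norm (enc_mul (enc_norm (kcg_209.enc h1 h2)) (enc_norm (kcg_252.enc h1 h2))))) (kcg_251.enc h1 h2) (kcg_209.enc h1 h2) (kcg_252.enc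 h1 h2) rfl)) (enc_sub (kcg_257.enc h1 h2) (kcg_261.enc h1 h2)))))) (enc_neg (enc_case (kcg_269.enc h1 h2) (enc_case (kcg_270.enc h1 h2) (enc_case (kcg_271.enc h1 h2) (enc_add (enc_add (enc_subr 49995324588113 7347000000000 (kcg_13.enc h1 h2)) (enc_mul (enc_norm (kcg_3.enc h1 h2)) (enc_norm (enc_subr 26612537749117 367350000000 (kcg_18.enc h1 h2))))) (enc_mA (enc_mul (enc_norm (kcg_31.enc h1 h2)) (enc_norm (enc_mul (enc_norm (kcg_276.enc h1 h2)) (enc_norm (kcg_277.enc h1 h2))))) (kcg_31.enc h1 h2) (kcg_276.enc h1 h2) (kcg_277.enc h1 h2) rfl)) (enc_add (enc_add (enc_subr 12498512028551 1836625000000 (kcg_40.enc h1 h2)) (enc_mul (enc_norm (kcg_3.enc h1 h2)) (enc_norm (enc_subr 1063815439237 14693000000 (kcg_45.enc h1 h2))))) (enc_mA (enc_mul (enc_norm (kcg_58.enc h1 h2)) (enc_norm (enc_mul (enc_norm (kcg_271.enc h1 h2)) (enc_norm (kcg_286.enc h1 h2))))) (kcg_58.enc h1 h2) (kcg_271.enc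 h1 h2) (kcg_286.enc h1 h2) rfl))) (enc_case (kcg_292.enc h1 h2) (enc_add (enc_add (enc_subr 22277764067204563 5833361000000000 (kcg_68.enc h1 h2)) (enc_mul (enc_norm (kcg_3.enc h1 h2)) (enc_norm (enc_subr 48747265333861 1918868750000 (kcg_73.enc h1 h2))))) (enc_mA (enc_mul (enc_norm (kcg_86.enc h1 h2)) (enc_norm (enc_mul (enc_norm (kcg_270.enc h1 h2)) (enc_norm (kcg_297.enc h1 h2))))) (kcg_86.enc h1 h2) (kcg_270.enc h1 h2) (kcg_297.enc h1 h2) rfl)) (enc_case (kcg_302.enc h1 h2) (enc_add (enc_add (enc_subr 311169370517 699000000000 (enc_neg (kcg_95.enc h1 h2))) (enc_mul (enc_norm (kcg_3.enc h1 h2)) (enc_norm (enc_sub (enc_rat _ 3512456530889 174750000000) (kcg_99.enc h1 h2))))) (enc_mA (enc_mul (enc_norm (kcg_110.enc h1 h2)) (enc_norm (enc_mul (enc_norm (kcg_292.enc h1 h2)) (enc_norm (kcg_309.enc h1 h2))))) (kcg_110.enc h1 h2) (kcg_292.enc h1 h2) (kcg_309.enc h1 h2) rfl)) (enc_add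 (enc_add (enc_subr 2398709 6750000000 (enc_neg (kcg_116.enc h1 h2))) (enc_mul (enc_norm (kcg_3.enc h1 h2)) (enc_norm (enc_sub (enc_rat _ 11946920299 675000000) (kcg_120.enc h1 h2))))) (enc_mA (enc_mul (enc_norm (kcg_129.enc h1 h2)) (enc_norm (enc_mul (enc_norm (kcg_302.enc h1 h2)) (enc_norm (kcg_320.enc h1 h2))))) (kcg_129.enc h1 h2) (kcg_302.enc h1 h2) (kcg_320.enc h1 h2) rfl))))) (enc_case (kcg_328.enc h1 h2) (enc_case (kcg_329.enc h1 h2) (enc_add (enc_add (enc_subr 2121 12500000 (enc_neg (kcg_144.enc h1 h2))) (enc_mul (enc_norm (kcg_3.enc h1 h2)) (enc_norm (enc_sub (enc_rat _ 1739337 156250) (kcg_148.enc h1 h2))))) (enc_mA (enc_mul (enc_norm (kcg_157.enc h1 h2)) (enc_norm (enc_mul (enc_norm (kcg_269.enc h1 h2)) (enc_norm (kcg_336.enc h1 h2))))) (kcg_157.enc h1 h2) (kcg_269.enc h1 h2) (kcg_336.enc h1 h2) rfl)) (enc_case (kcg_341.enc h1 h2) (enc_add (enc_add (enc_subr 267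 3125000 (enc_neg (kcg_166.enc h1 h2))) (enc_mul (enc_norm (kcg_3.enc h1 h2)) (enc_norm (enc_sub (enc_rat _ 1071417 312500) (kcg_170.enc h1 h2))))) (enc_mA (enc_mul (enc_norm (kcg_179.enc h1 h2)) (enc_norm (enc_mul (enc_norm (kcg_329.enc h1 h2)) (enc_norm (kcg_348.enc h1 h2))))) (kcg_179.enc h1 h2) (kcg_329.enc h1 h2) (kcg_348.enc h1 h2) rfl)) (enc_add (enc_add (enc_subr 113 3125000 (enc_neg (kcg_185.enc h1 h2))) (enc_mul (enc_norm (kcg_3.enc h1 h2)) (enc_norm (enc_add (kcg_189.enc h1 h2) (enc_rat _ 1651 312500))))) (enc_mA (enc_mul (enc_norm (kcg_199.enc h1 h2)) (enc_norm (enc_mul (enc_norm (kcg_341.enc h1 h2)) (enc_norm (kcg_358.enc h1 h2))))) (kcg_199.enc h1 h2) (kcg_341.enc h1 h2) (kcg_358.enc h1 h2) rfl)))) (enc_case (kcg_365.enc h1 h2) (enc_add (enc_add (enc_subr 19 1562500 (enc_neg (kcg_210.enc h1 h2))) (enc_mul (enc_norm (kcg_3.enc h1 h2)) (enc_norm (enc_subr 2 78125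 (kcg_214.enc h1 h2))))) (enc_mA (enc_mul (enc_norm (kcg_225.enc h1 h2)) (enc_norm (enc_mul (enc_norm (kcg_328.enc h1 h2)) (enc_norm (kcg_371.enc h1 h2))))) (kcg_225.enc h1 h2) (kcg_328.enc h1 h2) (kcg_371.enc h1 h2) rfl)) (enc_case (enc_sub (enc_rat _ 2 25) h1) (enc_add (enc_add (enc_subr 3 1562500 (enc_neg (kcg_234.enc h1 h2))) (enc_mul (enc_norm (kcg_3.enc h1 h2)) (enc_norm (enc_subr 19 78125 (kcg_238.enc h1 h2))))) (enc_mA (enc_mul (enc_norm (kcg_251.enc h1 h2)) (enc_norm (enc_mul (enc_norm (kcg_365.enc h1 h2)) (enc_norm (kcg_382.enc h1 h2))))) (kcg_251.enc h1 h2) (kcg_365.enc h1 h2) (kcg_382.enc h1 h2) rfl)) (enc_sub (kcg_261.enc h1 h2) (kcg_257.enc h1 h2)))))))))⟩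
noncomputable def kf0q0_9 : Fn2 := ⟨_, _, fun h1 h2 => (enc_scaleT 3 2 h1)⟩
noncomputable def kf0q0_12 : Fn2 := ⟨_, _, fun h1 h2 => (enc_add (enc_pnc _ 1) (c1g.enc h1))⟩
noncomputable def kf0q0 : Fn2 := ⟨_, _, fun h1 h2 => (enc_norm (enc_add (enc_mul (enc_norm (enc_mul (enc_norm (enc_sub (c1g.enc h1) (kf0q0_9.enc h1 h2))) (enc_norm (kf0q0_12.enc h1 h2)))) (enc_inv (enc_sub (kf0q0_12.enc h1 h2) (kf0q0_9.enc h1 h2)))) (enc_mul h1 (kcg.enc (enc_norm (enc_sub (enc_scaleT 3 4 h1) (enc_half (c1g.enc h1)))) h2))))⟩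
noncomputable def txg_4 : Fn3 := ⟨_, _, fun h1 h2 h3 => (enc_subr 153 160 h3)⟩
noncomputable def txg_6 : Fn3 := ⟨_, _, fun h1 h2 h3 => (enc_add h1 (enc_half h2))⟩
noncomputable def txg_26 : Fn3 := ⟨_, _, fun h1 h2 h3 => (enc_add h1 (enc_rat _ 1 5))⟩
noncomputable def txg_29 : Fn3 := ⟨_, _, fun h1 h2 h3 => (enc_add h1 (enc_rat _ 2 5))⟩
noncomputable def txg_32 : Fn3 := ⟨_, _, fun h1 h2 h3 => (enc_add h1 (enc_rat _ 470613 1000000))⟩
noncomputable def txg_35 : Fn3 := ⟨_, _, fun h1 h2 h3 => (enc_add h1 (enc_rat _ 242653 500000))⟩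
noncomputable def txg_50 : Fn3 := ⟨_, _, fun h1 h2 h3 => (enc_subr 33547 10000 (enc_neg (enc_scaleT 78111 1000 (txg_4.enc h1 h2 h3))))⟩
noncomputable def txg_53 : Fn3 := ⟨_, _, fun h1 h2 h3 => (enc_add h1 (enc_rat _ 1 2))⟩
noncomputable def txg_54 : Fn3 := ⟨_, _, fun h1 h2 h3 => (enc_sub (enc_neg (enc_rat _ 242653 500000)) h1)⟩
noncomputable def txg_70 : Fn3 := ⟨_, _, fun h1 h2 h3 => (enc_add (enc_scaleT 7191 200 (txg_4.enc h1 h2 h3)) (enc_rat _ 1103 1000))⟩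
noncomputable def txg_71 : Fn3 := ⟨_, _, fun h1 h2 h3 => (enc_sub (enc_neg (enc_rat _ 470613 1000000)) h1)⟩
noncomputable def txg_79 : Fn3 := ⟨_, _, fun h1 h2 h3 => (enc_add h1 (enc_rat _ 23 50))⟩
noncomputable def txg_91 : Fn3 := ⟨_, _, fun h1 h2 h3 => (enc_add (enc_scaleT 21537 1000 (txg_4.enc h1 h2 h3)) (enc_rat _ 38371 10000))⟩
noncomputable def txg_92 : Fn3 := ⟨_, _, fun h1 h2 h3 => (enc_sub (enc_neg (enc_rat _ 23 50)) h1)⟩
noncomputable def txg_99 : Fn3 := ⟨_, _, fun h1 h2 h3 => (enc_add h1 (enc_rat _ 43 100))⟩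
noncomputable def txg_113 : Fn3 := ⟨_, _, fun h1 h2 h3 => (enc_add (enc_scaleT 14327 1000 (txg_4.enc h1 h2 h3)) (enc_rat _ 1747 2500))⟩
noncomputable def txg_114 : Fn3 := ⟨_, _, fun h1 h2 h3 => (enc_sub (enc_neg (enc_rat _ 43 100)) h1)⟩
noncomputable def txg_133 : Fn3 := ⟨_, _, fun h1 h2 h3 => (enc_subr 14311 10000 (enc_neg (enc_scaleT 2971 100 (txg_4.enc h1 h2 h3))))⟩
noncomputable def txg_134 : Fn3 := ⟨_, _, fun h1 h2 h3 => (enc_sub (enc_neg (enc_rat _ 2 5)) h1)⟩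
noncomputable def txg_144 : Fn3 := ⟨_, _, fun h1 h2 h3 => (enc_add h1 (enc_rat _ 33 100))⟩
noncomputable def txg_147 : Fn3 := ⟨_, _, fun h1 h2 h3 => (enc_add h1 (enc_rat _ 9 25))⟩
noncomputable def txg_162 : Fn3 := ⟨_, _, fun h1 h2 h3 => (enc_subr 37773 5000 (enc_neg (enc_scaleT 120119 1000 (txg_4.enc h1 h2 h3))))⟩
noncomputable def txg_163 : Fn3 := ⟨_, _, fun h1 h2 h3 => (enc_sub (enc_neg (enc_rat _ 9 25)) h1)⟩
noncomputable def txg_180 : Fn3 := ⟨_, _, fun h1 h2 h3 => (enc_subr 1 2500 (enc_scaleT 77 1000 (txg_4.enc h1 h2 h3)))⟩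
noncomputable def txg_181 : Fn3 := ⟨_, _, fun h1 h2 h3 => (enc_sub (enc_neg (enc_rat _ 33 100)) h1)⟩
noncomputable def txg_189 : Fn3 := ⟨_, _, fun h1 h2 h3 => (enc_add h1 (enc_rat _ 3 10))⟩
noncomputable def txg_201 : Fn3 := ⟨_, _, fun h1 h2 h3 => (enc_add (enc_scaleT 32503 500 (txg_4.enc h1 h2 h3)) (enc_rat _ 3643 5000))⟩
noncomputable def txg_202 : Fn3 := ⟨_, _, fun h1 h2 h3 => (enc_sub (enc_neg (enc_rat _ 3 10)) h1)⟩
noncomputable def txg_209 : Fn3 := ⟨_, _, fun h1 h2 h3 => (enc_add h1 (enc_rat _ 1 4))⟩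
noncomputable def txg_221 : Fn3 := ⟨_, _, fun h1 h2 h3 => (enc_add (enc_scaleT 58447 1000 (txg_4.enc h1 h2 h3)) (enc_rat _ 7291 10000))⟩
noncomputable def txg_222 : Fn3 := ⟨_, _, fun h1 h2 h3 => (enc_sub (enc_neg (enc_rat _ 1 4)) h1)⟩
noncomputable def txg_238 : Fn3 := ⟨_, _, fun h1 h2 h3 => (enc_add (enc_scaleT 181 1000 (txg_4.enc h1 h2 h3)) (enc_rat _ 7297 10000))⟩
noncomputable def txg_239 : Fn3 := ⟨_, _, fun h1 h2 h3 => (enc_sub (enc_neg (enc_rat _ 1 5)) h1)⟩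
noncomputable def txg_248 : Fn3 := ⟨_, _, fun h1 h2 h3 => (enc_subr 1 5 h1)⟩
noncomputable def txg_251 : Fn3 := ⟨_, _, fun h1 h2 h3 => (enc_add h1 (enc_rat _ 1 10))⟩
noncomputable def txg_254 : Fn3 := ⟨_, _, fun h1 h2 h3 => (enc_add h1 (enc_rat _ 3 20))⟩
noncomputable def txg_266 : Fn3 := ⟨_, _, fun h1 h2 h3 => (enc_add (enc_scaleT 83 1000 (txg_4.enc h1 h2 h3)) (enc_rat _ 702 625))⟩
noncomputable def txg_267 : Fn3 := ⟨_, _, fun h1 h2 h3 => (enc_sub (enc_neg (enc_rat _ 3 20)) h1)⟩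
noncomputable def txg_283 : Fn3 := ⟨_, _, fun h1 h2 h3 => (enc_add (enc_scaleT 17 250 (txg_4.enc h1 h2 h3)) (enc_rat _ 11237 10000))⟩
noncomputable def txg_284 : Fn3 := ⟨_, _, fun h1 h2 h3 => (enc_sub (enc_neg (enc_rat _ 1 10)) h1)⟩
noncomputable def txg_290 : Fn3 := ⟨_, _, fun h1 h2 h3 => (enc_subr 1 10 h1)⟩
noncomputable def txg_302 : Fn3 := ⟨_, _, fun h1 h2 h3 => (enc_add (enc_scaleT 4051 1000 (txg_4.enc h1 h2 h3)) (enc_rat _ 11233 10000))⟩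
noncomputable def txg_303 : Fn3 := ⟨_, _, fun h1 h2 h3 => (enc_sub (enc_rat _ 1 10) h1)⟩
noncomputable def txg_308 : Fn3 := ⟨_, _, fun h1 h2 h3 => (enc_subr 3 20 h1)⟩
noncomputable def txg_322 : Fn3 := ⟨_, _, fun h1 h2 h3 => (enc_add (enc_scaleT 18533 1000 (txg_4.enc h1 h2 h3)) (enc_rat _ 1127 1000))⟩
noncomputable def txg_323 : Fn3 := ⟨_, _, fun h1 h2 h3 => (enc_sub (enc_rat _ 3 20) h1)⟩
noncomputable def txg_341 : Fn3 := ⟨_, _, fun h1 h2 h3 => (enc_add (enc_scaleT 2307 125 (txg_4.enc h1 h2 h3)) (enc_rat _ 2277 2000))⟩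
noncomputable def txg_342 : Fn3 := ⟨_, _, fun h1 h2 h3 => (enc_sub (enc_rat _ 1 5) h1)⟩
noncomputable def txg_350 : Fn3 := ⟨_, _, fun h1 h2 h3 => (enc_subr 33 100 h1)⟩
noncomputable def txg_351 : Fn3 := ⟨_, _, fun h1 h2 h3 => (enc_subr 1 4 h1)⟩
noncomputable def txg_365 : Fn3 := ⟨_, _, fun h1 h2 h3 => (enc_add (enc_scaleT 181 500 (txg_4.enc h1 h2 h3)) (enc_rat _ 1517 1000))⟩
noncomputable def txg_366 : Fn3 := ⟨_, _, fun h1 h2 h3 => (enc_sub (enc_rat _ 1 4) h1)⟩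
noncomputable def txg_371 : Fn3 := ⟨_, _, fun h1 h2 h3 => (enc_subr 3 10 h1)⟩
noncomputable def txg_385 : Fn3 := ⟨_, _, fun h1 h2 h3 => (enc_add (enc_scaleT 11 1000 (txg_4.enc h1 h2 h3)) (enc_rat _ 7587 5000))⟩
noncomputable def txg_386 : Fn3 := ⟨_, _, fun h1 h2 h3 => (enc_sub (enc_rat _ 3 10) h1)⟩
noncomputable def txg_406 : Fn3 := ⟨_, _, fun h1 h2 h3 => (enc_sub (enc_rat _ 15177 10000) (enc_scaleT 857 1000 (txg_4.enc h1 h2 h3)))⟩
noncomputable def txg_407 : Fn3 := ⟨_, _, fun h1 h2 h3 => (enc_sub (enc_rat _ 33 100) h1)⟩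
noncomputable def txg_414 : Fn3 := ⟨_, _, fun h1 h2 h3 => (enc_subr 9 25 h1)⟩
noncomputable def txg_430 : Fn3 := ⟨_, _, fun h1 h2 h3 => (enc_sub (enc_rat _ 23607 10000) (enc_scaleT 819 1000 (txg_4.enc h1 h2 h3)))⟩
noncomputable def txg_431 : Fn3 := ⟨_, _, fun h1 h2 h3 => (enc_sub (enc_rat _ 9 25) h1)⟩
noncomputable def txg_436 : Fn3 := ⟨_, _, fun h1 h2 h3 => (enc_subr 2 5 h1)⟩
noncomputable def txg_453 : Fn3 := ⟨_, _, fun h1 h2 h3 => (enc_subr 5099 2500 (enc_neg (enc_scaleT 21877 500 (txg_4.enc h1 h2 h3))))⟩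
noncomputable def txg_454 : Fn3 := ⟨_, _, fun h1 h2 h3 => (enc_sub (enc_rat _ 2 5) h1)⟩
noncomputable def txg_473 : Fn3 := ⟨_, _, fun h1 h2 h3 => (enc_sq (enc_norm (txg_4.enc h1 h2 h3)))⟩
noncomputable def txg_484 : Fn3 := ⟨_, _, fun h1 h2 h3 => (enc_add (enc_mul (enc_norm (enc_sub (enc_rat _ 2357 250) (enc_scaleT 42159 100 (txg_4.enc h1 h2 h3)))) (enc_norm (txg_4.enc h1 h2 h3))) (enc_rat _ 9749 10000))⟩
noncomputable def txg_485 : Fn3 := ⟨_, _, fun h1 h2 h3 => (enc_sub (enc_rat _ 107 254) h1)⟩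
noncomputable def txg_496 : Fn3 := ⟨_, _, fun h1 h2 h3 => (enc_subr 181 397 h1)⟩
noncomputable def txg_497 : Fn3 := ⟨_, _, fun h1 h2 h3 => (enc_subr 470613 1000000 h1)⟩
noncomputable def txg_522 : Fn3 := ⟨_, _, fun h1 h2 h3 => (enc_add (enc_mul (enc_norm (enc_sub (enc_rat _ 543 100) (enc_scaleT 24617 25 (txg_4.enc h1 h2 h3)))) (enc_norm (txg_4.enc h1 h2 h3))) (enc_rat _ 4069 2000))⟩
noncomputable def txg_523 : Fn3 := ⟨_, _, fun h1 h2 h3 => (enc_sub (enc_rat _ 470613 1000000) h1)⟩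
noncomputable def txg_528 : Fn3 := ⟨_, _, fun h1 h2 h3 => (enc_subr 242653 500000 h1)⟩
noncomputable def txg_542 : Fn3 := ⟨_, _, fun h1 h2 h3 => (enc_add (enc_scaleT 901 125 (txg_4.enc h1 h2 h3)) (enc_rat _ 8581 10000))⟩
noncomputable def txg_543 : Fn3 := ⟨_, _, fun h1 h2 h3 => (enc_sub (enc_rat _ 242653 500000) h1)⟩
noncomputable def txg_564 : Fn3 := ⟨_, _, fun h1 h2 h3 => (enc_subr 557 400 (enc_neg (enc_scaleT 24247 500 (txg_4.enc h1 h2 h3))))⟩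
noncomputable def txg_565 : Fn3 := ⟨_, _, fun h1 h2 h3 => (enc_sub (enc_rat _ 1 2) h1)⟩
noncomputable def txg : Fn3 := ⟨_, _, fun h1 h2 h3 => (enc_case (enc_subr 107 254 h1) (enc_case (txg_26.enc h1 h2 h3) (enc_case (txg_29.enc h1 h2 h3) (enc_case (txg_32.enc h1 h2 h3) (enc_case (txg_35.enc h1 h2 h3) (enc_add (enc_add (enc_add (enc_scaleT 7064 36735 h1) (enc_rat _ 3532 36735)) (enc_mul (enc_norm (txg_4.enc h1 h2 h3)) (enc_norm (enc_add (enc_scaleT 6577 12245 h1) (enc_rat _ 6577 24490))))) (enc_mA (enc_mul (enc_norm (txg_50.enc h1 h2 h3)) (enc_norm (enc_mul (enc_norm (txg_53.enc h1 h2 h3)) (enc_norm (txg_54.enc h1 h2 h3))))) (txg_50.enc h1 h2 h3) (txg_53.enc h1 h2 h3) (txg_54.enc h1 h2 h3) rfl)) (enc_add (enc_add (enc_add (enc_scaleT 13247 58772 h1) (enc_rat _ 16487286863 146930000000)) (enc_mul (enc_norm (txg_4.enc h1 h2 h3)) (enc_norm (enc_add (enc_scaleT 24277 20990 h1) (enc_rat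 _ 5973717619 10495000000))))) (enc_mA (enc_mul (enc_norm (txg_70.enc h1 h2 h3)) (enc_norm (enc_mul (enc_norm (txg_35.enc h1 h2 h3)) (enc_norm (txg_71.enc h1 h2 h3))))) (txg_70.enc h1 h2 h3) (txg_35.enc h1 h2 h3) (txg_71.enc h1 h2 h3) rfl))) (enc_case (txg_79.enc h1 h2 h3) (enc_add (enc_add (enc_add (enc_scaleT 178783 1061300 h1) (enc_rat _ 45325586767 530650000000)) (enc_mul (enc_norm (txg_4.enc h1 h2 h3)) (enc_norm (enc_add (enc_scaleT 21208 53065 h1) (enc_rat _ 22602704027 106130000000))))) (enc_mA (enc_mul (enc_norm (txg_91.enc h1 h2 h3)) (enc_norm (enc_mul (enc_norm (txg_32.enc h1 h2 h3)) (enc_norm (txg_92.enc h1 h2 h3))))) (txg_91.enc h1 h2 h3) (txg_32.enc h1 h2 h3) (txg_92.enc h1 h2 h3) rfl)) (enc_case (txg_99.enc h1 h2 h3) (enc_add (enc_add (enc_add (enc_scaleT 320309 3000000 h1) (enc_rat _ 2138971 37500000)) (enc_mul (enc_norm (txg_4.enc h1 h2 h3)) (enc_norm (enc_subr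 898833 10000000 (enc_neg (enc_scaleT 1617 6250 h1)))))) (enc_mA (enc_mul (enc_norm (txg_113.enc h1 h2 h3)) (enc_norm (enc_mul (enc_norm (txg_79.enc h1 h2 h3)) (enc_norm (txg_114.enc h1 h2 h3))))) (txg_113.enc h1 h2 h3) (txg_79.enc h1 h2 h3) (txg_114.enc h1 h2 h3) rfl)) (enc_add (enc_add (enc_add (enc_scaleT 386207 3000000 h1) (enc_rat _ 9972691 150000000)) (enc_mul (enc_norm (txg_4.enc h1 h2 h3)) (enc_norm (enc_add (enc_scaleT 20277 100000 h1) (enc_rat _ 542787 5000000))))) (enc_mA (enc_mul (enc_norm (txg_133.enc h1 h2 h3)) (enc_norm (enc_mul (enc_norm (txg_99.enc h1 h2 h3)) (enc_norm (txg_134.enc h1 h2 h3))))) (txg_133.enc h1 h2 h3) (txg_99.enc h1 h2 h3) (txg_134.enc h1 h2 h3) rfl))))) (enc_case (txg_144.enc h1 h2 h3) (enc_case (txg_147.enc h1 h2 h3) (enc_add (enc_add (enc_add (enc_scaleT 473849 1000000 h1) (enc_rat _ 10226497 50000000)) (enc_mul (enc_norm (txg_4.enc h1 h2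 h3)) (enc_norm (enc_add (enc_scaleT 2359539 400000 h1) (enc_rat _ 5967471 2500000))))) (enc_mA (enc_mul (enc_norm (txg_162.enc h1 h2 h3)) (enc_norm (enc_mul (enc_norm (txg_29.enc h1 h2 h3)) (enc_norm (txg_163.enc h1 h2 h3))))) (txg_162.enc h1 h2 h3) (txg_29.enc h1 h2 h3) (txg_163.enc h1 h2 h3) rfl)) (enc_add (enc_add (enc_add (enc_scaleT 776043 1000000 h1) (enc_rat _ 15665989 50000000)) (enc_mul (enc_norm (txg_4.enc h1 h2 h3)) (enc_norm (enc_add (enc_scaleT 267533 25000 h1) (enc_rat _ 8231757 2000000))))) (enc_mA (enc_mul (enc_norm (txg_180.enc h1 h2 h3)) (enc_norm (enc_mul (enc_norm (txg_147.enc h1 h2 h3)) (enc_norm (txg_181.enc h1 h2 h3))))) (txg_180.enc h1 h2 h3) (txg_147.enc h1 h2 h3) (txg_181.enc h1 h2 h3) rfl))) (enc_case (txg_189.enc h1 h2 h3) (enc_add (enc_add (enc_add (enc_scaleT 2262587 3000000 h1) (enc_rat _ 3826377 12500000)) (enc_mul (enc_norm (txg_4.enc h1 h2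 h3)) (enc_norm (enc_add (enc_scaleT 656161 75000 h1) (enc_rat _ 34715513 10000000))))) (enc_mA (enc_mul (enc_norm (txg_201.enc h1 h2 h3)) (enc_norm (enc_mul (enc_norm (txg_144.enc h1 h2 h3)) (enc_norm (txg_202.enc h1 h2 h3))))) (txg_201.enc h1 h2 h3) (txg_144.enc h1 h2 h3) (txg_202.enc h1 h2 h3) rfl)) (enc_case (txg_209.enc h1 h2 h3) (enc_add (enc_add (enc_add (enc_scaleT 3479393 5000000 h1) (enc_rat _ 450961 1562500)) (enc_mul (enc_norm (txg_4.enc h1 h2 h3)) (enc_norm (enc_add (enc_scaleT 484537 125000 h1) (enc_rat _ 20097961 10000000))))) (enc_mA (enc_mul (enc_norm (txg_221.enc h1 h2 h3)) (enc_norm (enc_mul (enc_norm (txg_189.enc h1 h2 h3)) (enc_norm (txg_222.enc h1 h2 h3))))) (txg_221.enc h1 h2 h3) (txg_189.enc h1 h2 h3) (txg_222.enc h1 h2 h3) rfl)) (enc_add (enc_add (enc_add (enc_scaleT 3114681 5000000 h1) (enc_rat _ 3379743 12500000)) (enc_mul (enc_norm (txg_4.enc h1 h2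 h3)) (enc_norm (enc_add (enc_scaleT 59059 62500 h1) (enc_rat _ 12769581 10000000))))) (enc_mA (enc_mul (enc_norm (txg_238.enc h1 h2 h3)) (enc_norm (enc_mul (enc_norm (txg_209.enc h1 h2 h3)) (enc_norm (txg_239.enc h1 h2 h3))))) (txg_238.enc h1 h2 h3) (txg_209.enc h1 h2 h3) (txg_239.enc h1 h2 h3) rfl)))))) (enc_case (txg_248.enc h1 h2 h3) (enc_case (txg_251.enc h1 h2 h3) (enc_case (txg_254.enc h1 h2 h3) (enc_add (enc_add (enc_add (enc_scaleT 530291 1000000 h1) (enc_rat _ 314813 1250000)) (enc_mul (enc_norm (txg_4.enc h1 h2 h3)) (enc_norm (enc_add (enc_scaleT 116471 125000 h1) (enc_rat _ 12743229 10000000))))) (enc_mA (enc_mul (enc_norm (txg_266.enc h1 h2 h3)) (enc_norm (enc_mul (enc_norm (txg_26.enc h1 h2 h3)) (enc_norm (txg_267.enc h1 h2 h3))))) (txg_266.enc h1 h2 h3) (txg_26.enc h1 h2 h3) (txg_267.enc h1 h2 h3) rfl)) (enc_add (enc_add (enc_add (enc_scaleT 2089719 5000000 h1)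 (enc_rat _ 2937479 12500000)) (enc_mul (enc_norm (txg_4.enc h1 h2 h3)) (enc_norm (enc_add (enc_scaleT 462123 500000 h1) (enc_rat _ 6365973 5000000))))) (enc_mA (enc_mul (enc_norm (txg_283.enc h1 h2 h3)) (enc_norm (enc_mul (enc_norm (txg_254.enc h1 h2 h3)) (enc_norm (txg_284.enc h1 h2 h3))))) (txg_283.enc h1 h2 h3) (txg_254.enc h1 h2 h3) (txg_284.enc h1 h2 h3) rfl))) (enc_case (txg_290.enc h1 h2 h3) (enc_add (enc_add (enc_add (enc_scaleT 1370961 10000000 h1) (enc_rat _ 4138271 20000000)) (enc_mul (enc_norm (txg_4.enc h1 h2 h3)) (enc_norm (enc_add (enc_scaleT 110669 1000000 h1) (enc_rat _ 11918369 10000000))))) (enc_mA (enc_mul (enc_norm (txg_302.enc h1 h2 h3)) (enc_norm (enc_mul (enc_norm (txg_251.enc h1 h2 h3)) (enc_norm (txg_303.enc h1 h2 h3))))) (txg_302.enc h1 h2 h3) (txg_251.enc h1 h2 h3) (txg_303.enc h1 h2 h3) rfl)) (enc_case (txg_308.enc h1 h2 h3) (enc_add (enc_add (enc_sub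 (enc_rat _ 1468841 6250000) (enc_scaleT 71957 500000 h1)) (enc_mul (enc_norm (txg_4.enc h1 h2 h3)) (enc_norm (enc_sub (enc_rat _ 6827597 5000000) (enc_scaleT 406539 250000 h1))))) (enc_mA (enc_mul (enc_norm (txg_322.enc h1 h2 h3)) (enc_norm (enc_mul (enc_norm (txg_290.enc h1 h2 h3)) (enc_norm (txg_323.enc h1 h2 h3))))) (txg_322.enc h1 h2 h3) (txg_290.enc h1 h2 h3) (txg_323.enc h1 h2 h3) rfl)) (enc_add (enc_add (enc_sub (enc_rat _ 25200617 100000000) (enc_scaleT 1285957 5000000 h1)) (enc_mul (enc_norm (txg_4.enc h1 h2 h3)) (enc_norm (enc_sub (enc_rat _ 1642933 1000000) (enc_scaleT 173779 50000 h1))))) (enc_mA (enc_mul (enc_norm (txg_341.enc h1 h2 h3)) (enc_norm (enc_mul (enc_norm (txg_308.enc h1 h2 h3)) (enc_norm (txg_342.enc h1 h2 h3))))) (txg_341.enc h1 h2 h3) (txg_308.enc h1 h2 h3) (txg_342.enc h1 h2 h3) rfl))))) (enc_case (txg_350.enc h1 h2 h3) (enc_case (txg_351.enc h1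 h2 h3) (enc_add (enc_add (enc_sub (enc_rat _ 5571233 20000000) (enc_scaleT 487461 1250000 h1)) (enc_mul (enc_norm (txg_4.enc h1 h2 h3)) (enc_norm (enc_sub (enc_rat _ 9155591 5000000) (enc_scaleT 2208253 500000 h1))))) (enc_mA (enc_mul (enc_norm (txg_365.enc h1 h2 h3)) (enc_norm (enc_mul (enc_norm (txg_248.enc h1 h2 h3)) (enc_norm (txg_366.enc h1 h2 h3))))) (txg_365.enc h1 h2 h3) (txg_248.enc h1 h2 h3) (txg_366.enc h1 h2 h3) rfl)) (enc_case (txg_371.enc h1 h2 h3) (enc_add (enc_add (enc_sub (enc_rat _ 6329821 20000000) (enc_scaleT 169277 312500 h1)) (enc_mul (enc_norm (txg_4.enc h1 h2 h3)) (enc_norm (enc_sub (enc_rat _ 18357867 10000000) (enc_scaleT 221759 50000 h1))))) (enc_mA (enc_mul (enc_norm (txg_385.enc h1 h2 h3)) (enc_norm (enc_mul (enc_norm (txg_351.enc h1 h2 h3)) (enc_norm (txg_386.enc h1 h2 h3))))) (txg_385.enc h1 h2 h3) (txg_351.enc h1 h2 h3) (txg_386.enc h1 h2 h3)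 rfl)) (enc_add (enc_add (enc_sub (enc_rat _ 35291063 100000000) (enc_scaleT 132617 200000 h1)) (enc_mul (enc_norm (txg_4.enc h1 h2 h3)) (enc_norm (enc_sub (enc_rat _ 18282347 10000000) (enc_scaleT 661501 150000 h1))))) (enc_mA (enc_mul (enc_norm (txg_406.enc h1 h2 h3)) (enc_norm (enc_mul (enc_norm (txg_371.enc h1 h2 h3)) (enc_norm (txg_407.enc h1 h2 h3))))) (txg_406.enc h1 h2 h3) (txg_371.enc h1 h2 h3) (txg_407.enc h1 h2 h3) rfl)))) (enc_case (txg_414.enc h1 h2 h3) (enc_add (enc_add (enc_sub (enc_rat _ 9782667 25000000) (enc_scaleT 233831 300000 h1)) (enc_mul (enc_norm (txg_4.enc h1 h2 h3)) (enc_norm (enc_sub (enc_rat _ 4529103 2500000) (enc_scaleT 1307917 300000 h1))))) (enc_mA (enc_mul (enc_norm (txg_430.enc h1 h2 h3)) (enc_norm (enc_mul (enc_norm (txg_350.enc h1 h2 h3)) (enc_norm (txg_431.enc h1 h2 h3))))) (txg_430.enc h1 h2 h3) (txg_350.enc h1 h2 h3) (txg_431.enc h1 h2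 h3) rfl)) (enc_case (txg_436.enc h1 h2 h3) (enc_add (enc_add (enc_sub (enc_rat _ 9685803 25000000) (enc_scaleT 384337 500000 h1)) (enc_mul (enc_norm (txg_4.enc h1 h2 h3)) (enc_norm (enc_sub (enc_rat _ 469101 400000) (enc_scaleT 1034013 400000 h1))))) (enc_mA (enc_mul (enc_norm (txg_453.enc h1 h2 h3)) (enc_norm (enc_mul (enc_norm (txg_414.enc h1 h2 h3)) (enc_norm (txg_454.enc h1 h2 h3))))) (txg_453.enc h1 h2 h3) (txg_414.enc h1 h2 h3) (txg_454.enc h1 h2 h3) rfl)) (enc_add (enc_add (enc_add (enc_sub (enc_rat _ 12450306063931 34290000000000) (enc_scaleT 9708391253131 13716000000000 h1)) (enc_mul (enc_norm (txg_4.enc h1 h2 h3)) (enc_norm (enc_sub (enc_rat _ 631934261897 1143000000000) (enc_scaleT 473355013397 457200000000 h1))))) (enc_mul (txg_473.enc h1 h2 h3) (enc_norm (enc_subr 67222079 18750000 (enc_scaleT 67222079 7500000 h1))))) (enc_mA (enc_mul (enc_norm (txg_484.enc h1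 h2 h3)) (enc_norm (enc_mul (enc_norm (txg_436.enc h1 h2 h3)) (enc_norm (txg_485.enc h1 h2 h3))))) (txg_484.enc h1 h2 h3) (txg_436.enc h1 h2 h3) (txg_485.enc h1 h2 h3) rfl))))))) (enc_case (txg_496.enc h1 h2 h3) (enc_sub (enc_mul (enc_norm (enc_sub (enc_pnc _ 1) h2)) (enc_norm (enc_subn 1 (enc_nat 2 h2)))) (enc_mul (enc_norm (enc_nat 2 (enc_sub (enc_scaleT 4 3 (txg_6.enc h1 h2 h3)) h3))) (enc_norm (enc_mul (enc_norm (enc_subn 1 (enc_add (enc_scaleT 2 3 (txg_6.enc h1 h2 h3)) h2))) (kcg.enc h1 h3))))) (enc_case (txg_497.enc h1 h2 h3) (enc_add (enc_add (enc_add (enc_sub (enc_rat _ 78098878919770189129 185267545360000000000) (enc_scaleT 155777627045733 185267545360000 h1)) (enc_mul (enc_norm (txg_4.enc h1 h2 h3)) (enc_norm (enc_sub (enc_rat _ 93204169611407869 115792215850000000) (enc_scaleT 187208657113 115792215850 h1))))) (enc_mul (txg_473.enc h1 h2 h3) (enc_norm (enc_sub (enc_rat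 _ 124122865269117 18229253125000) (enc_scaleT 2109977672 145834025 h1))))) (enc_mA (enc_mul (enc_norm (txg_522.enc h1 h2 h3)) (enc_norm (enc_mul (enc_norm (txg_496.enc h1 h2 h3)) (enc_norm (txg_523.enc h1 h2 h3))))) (txg_522.enc h1 h2 h3) (txg_496.enc h1 h2 h3) (txg_523.enc h1 h2 h3) rfl)) (enc_case (txg_528.enc h1 h2 h3) (enc_add (enc_add (enc_sub (enc_rat _ 5190341629 11754400000) (enc_scaleT 1297927 1469300 h1)) (enc_mul (enc_norm (txg_4.enc h1 h2 h3)) (enc_norm (enc_sub (enc_rat _ 1024328593 1147890625) (enc_scaleT 132424 73465 h1))))) (enc_mA (enc_mul (enc_norm (txg_542.enc h1 h2 h3)) (enc_norm (enc_mul (enc_norm (txg_497.enc h1 h2 h3)) (enc_norm (txg_543.enc h1 h2 h3))))) (txg_542.enc h1 h2 h3) (txg_497.enc h1 h2 h3) (txg_543.enc h1 h2 h3) rfl)) (enc_add (enc_add (enc_sub (enc_rat _ 428797 979600) (enc_scaleT 428797 489800 h1)) (enc_mul (enc_norm (txg_4.enc h1 h2 h3))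 (enc_norm (enc_sub (enc_rat _ 21964 36735) (enc_scaleT 43928 36735 h1))))) (enc_mA (enc_mul (enc_norm (txg_564.enc h1 h2 h3)) (enc_norm (enc_mul (enc_norm (txg_528.enc h1 h2 h3)) (enc_norm (txg_565.enc h1 h2 h3))))) (txg_564.enc h1 h2 h3) (txg_528.enc h1 h2 h3) (txg_565.enc h1 h2 h3) rfl))))))⟩
noncomputable def l0q0 : Fn2 := ⟨_, _, fun h1 h2 => (enc_norm (txg.enc (enc_norm (enc_sub (enc_scaleT 3 4 h1) (enc_half (c1g.enc h1)))) (c1g.enc h1) h2))⟩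
noncomputable def kc0q0_3 : Fn2 := ⟨_, _, fun h1 h2 => (enc_subr 153 160 h2)⟩
noncomputable def kc0q0_8 : Fn2 := ⟨_, _, fun h1 h2 => (enc_sub (enc_scaleT 3 4 h1) (enc_half (c1g.enc h1)))⟩
noncomputable def kc0q0_28 : Fn2 := ⟨_, _, fun h1 h2 => (enc_mul (enc_norm (kc0q0_3.enc h1 h2)) (enc_norm (enc_subr 27 10 (enc_neg (enc_scaleT 27 5 (kc0q0_8.enc h1 h2))))))⟩
noncomputable def kc0q0_39 : Fn2 := ⟨_, _, fun h1 h2 => (enc_scaleT 37 30 (kc0q0_8.enc h1 h2))⟩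
noncomputable def kc0q0_80 : Fn2 := ⟨_, _, fun h1 h2 => (enc_scaleT 827 670 (kc0q0_8.enc h1 h2))⟩
noncomputable def kc0q0_93 : Fn2 := ⟨_, _, fun h1 h2 => (enc_scaleT 205 166 (kc0q0_8.enc h1 h2))⟩
noncomputable def kc0q0_105 : Fn2 := ⟨_, _, fun h1 h2 => (enc_add (enc_scaleT 1031 835 (kc0q0_8.enc h1 h2)) (enc_rat _ 351 1250))⟩
noncomputable def kc0q0 : Fn2 := ⟨_, _, fun h1 h2 => (enc_norm (enc_case (enc_add (kc0q0_8.enc h1 h2) (enc_rat _ 2 5)) (enc_case (enc_add (kc0q0_8.enc h1 h2) (enc_rat _ 93 200)) (enc_case (enc_add (kc0q0_8.enc h1 h2) (enc_rat _ 49 100)) (enc_add (enc_subr 779 100 (enc_neg (enc_scaleT 779 50 (kc0q0_8.enc h1 h2)))) (kc0q0_28.enc h1 h2)) (enc_case (enc_add (kc0q0_8.enc h1 h2) (enc_rat _ 12 25)) (enc_add (enc_subr 77949 10000 (enc_neg (enc_scaleT 1559 100 (kc0q0_8.enc h1 h2)))) (kc0q0_28.enc h1 h2)) (enc_add (enc_add (kc0q0_39.enc h1 h2) (enc_rat _ 2803 10000))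 (kc0q0_28.enc h1 h2)))) (enc_case (enc_add (kc0q0_8.enc h1 h2) (enc_rat _ 9 20)) (enc_add (enc_add (enc_scaleT 92 75 (kc0q0_8.enc h1 h2)) (enc_rat _ 693 2500)) (kc0q0_28.enc h1 h2)) (enc_case (enc_add (kc0q0_8.enc h1 h2) (enc_rat _ 43 100)) (enc_add (enc_add (enc_scaleT 247 200 (kc0q0_8.enc h1 h2)) (enc_rat _ 5619 20000)) (enc_mul (enc_norm (kc0q0_3.enc h1 h2)) (enc_norm (enc_subr 1089 400 (enc_neg (enc_scaleT 109 20 (kc0q0_8.enc h1 h2))))))) (enc_add (enc_add (kc0q0_39.enc h1 h2) (enc_rat _ 8407 30000)) (enc_mul (enc_norm (kc0q0_3.enc h1 h2)) (enc_norm (enc_subr 4073 1500 (enc_neg (enc_scaleT 163 30 (kc0q0_8.enc h1 h2)))))))))) (enc_case (kc0q0_8.enc h1 h2) (enc_case (enc_add (kc0q0_8.enc h1 h2) (enc_rat _ 333 1000)) (enc_add (enc_add (kc0q0_80.enc h1 h2) (enc_rat _ 188023 670000)) (enc_mul (enc_norm (kc0q0_3.enc h1 h2)) (enc_norm (enc_subr 91357 33500 (enc_neg (enc_scaleT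 366 67 (kc0q0_8.enc h1 h2))))))) (enc_case (enc_add (kc0q0_8.enc h1 h2) (enc_rat _ 167 1000)) (enc_add (enc_add (kc0q0_93.enc h1 h2) (enc_rat _ 233093 830000)) (enc_mul (enc_norm (kc0q0_3.enc h1 h2)) (enc_norm (enc_subr 452759 166000 (enc_neg (enc_scaleT 907 166 (kc0q0_8.enc h1 h2))))))) (enc_add (kc0q0_105.enc h1 h2) (enc_mul (enc_norm (kc0q0_3.enc h1 h2)) (enc_norm (enc_subr 341 125 (enc_neg (enc_scaleT 913 167 (kc0q0_8.enc h1 h2))))))))) (enc_case (enc_subr 333 1000 (kc0q0_8.enc h1 h2)) (enc_case (enc_subr 167 1000 (kc0q0_8.enc h1 h2)) (enc_add (kc0q0_105.enc h1 h2) (enc_mul (enc_norm (kc0q0_3.enc h1 h2)) (enc_norm (enc_subr 341 125 (enc_neg (enc_scaleT 914 167 (kc0q0_8.enc h1 h2))))))) (enc_add (enc_add (kc0q0_93.enc h1 h2) (enc_rat _ 46607 166000)) (enc_mul (enc_norm (kc0q0_3.enc h1 h2)) (enc_norm (enc_subr 56617 20750 (enc_neg (enc_scaleT 454 83 (kc0q0_8.enc h1 h2))))))))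 (enc_case (enc_subr 2 5 (kc0q0_8.enc h1 h2)) (enc_add (enc_add (kc0q0_80.enc h1 h2) (enc_rat _ 188249 670000)) (enc_mul (enc_norm (kc0q0_3.enc h1 h2)) (enc_norm (enc_subr 182639 67000 (enc_neg (enc_scaleT 367 67 (kc0q0_8.enc h1 h2))))))) (enc_add (enc_add (enc_scaleT 33382305473 27000000000 (kc0q0_8.enc h1 h2)) (enc_rat _ 18909944527 67500000000)) (enc_mul (enc_norm (kc0q0_3.enc h1 h2)) (enc_norm (enc_subr 91833893531 33750000000 (enc_neg (enc_scaleT 74114856469 13500000000 (kc0q0_8.enc h1 h2))))))))))))⟩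
noncomputable def kf0q1_10 : Fn2 := ⟨_, _, fun h1 h2 => (enc_scaleT 3 2 h1)⟩
noncomputable def kf0q1 : Fn2 := ⟨_, _, fun h1 h2 => (enc_norm (enc_add (enc_mul (enc_norm (enc_mul (enc_norm (enc_add (enc_pnc _ 1) (enc_nat 2 (c1g.enc h1)))) (enc_norm (enc_sub (kf0q1_10.enc h1 h2) (c1g.enc h1))))) (enc_inv (enc_nat 2 (enc_sub (enc_add (enc_pnc _ 1) (kf0q1_10.enc h1 h2)) (c1g.enc h1))))) (enc_mul (enc_norm (enc_subn 1 h1)) (kcg.enc (enc_norm (enc_sub (enc_scaleT 3 4 h1) (enc_half (c1g.enc h1)))) h2))))⟩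
noncomputable def l0q1 : Fn2 := ⟨_, _, fun h1 h2 => (enc_norm (txg.enc (enc_norm (enc_sub (enc_scaleT 3 4 h1) (enc_half (c1g.enc h1)))) (c1g.enc h1) h2))⟩
noncomputable def gsg : Fn1 := ⟨_, _, fun h1 => (enc_sqrt (enc_sub (enc_pnc _ 1) (enc_scaleT 3 4 (enc_sq h1))))⟩
noncomputable def gug : Fn1 := ⟨_, _, fun h1 => (enc_norm (enc_add (enc_scaleT 3 4 h1) (enc_scaleT 3 2 (enc_sub (enc_pnc _ 1) (gsg.enc h1)))))⟩
noncomputable def kc0q1_3 : Fn2 := ⟨_, _, fun h1 h2 => (enc_subr 153 160 h2)⟩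
noncomputable def kc0q1_9 : Fn2 := ⟨_, _, fun h1 h2 => (enc_sub (enc_scaleT 3 4 h1) (enc_half (c1g.enc h1)))⟩
noncomputable def kc0q1_71 : Fn2 := ⟨_, _, fun h1 h2 => (enc_mul (enc_norm (kc0q1_3.enc h1 h2)) (enc_norm (enc_subr 27 10 (enc_neg (enc_scaleT 27 5 (kc0q1_9.enc h1 h2))))))⟩
noncomputable def kc0q1_82 : Fn2 := ⟨_, _, fun h1 h2 => (enc_scaleT 37 30 (kc0q1_9.enc h1 h2))⟩
noncomputable def kc0q1_124 : Fn2 := ⟨_, _, fun h1 h2 => (enc_scaleT 827 670 (kc0q1_9.enc h1 h2))⟩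
noncomputable def kc0q1_137 : Fn2 := ⟨_, _, fun h1 h2 => (enc_scaleT 205 166 (kc0q1_9.enc h1 h2))⟩
noncomputable def kc0q1_149 : Fn2 := ⟨_, _, fun h1 h2 => (enc_add (enc_scaleT 1031 835 (kc0q1_9.enc h1 h2)) (enc_rat _ 351 1250))⟩
noncomputable def kc0q1 : Fn2 := ⟨_, _, fun h1 h2 => (enc_norm (enc_case (enc_subr 107 254 (kc0q1_9.enc h1 h2)) (enc_case (enc_add (kc0q1_9.enc h1 h2) (enc_rat _ 2 5)) (enc_case (enc_add (kc0q1_9.enc h1 h2) (enc_rat _ 93 200)) (enc_case (enc_add (kc0q1_9.enc h1 h2) (enc_rat _ 49 100)) (enc_add (enc_subr 779 100 (enc_neg (enc_scaleT 779 50 (kc0q1_9.enc h1 h2)))) (kc0q1_71.enc h1 h2)) (enc_case (enc_add (kc0q1_9.enc h1 h2) (enc_rat _ 12 25)) (enc_add (enc_subr 77949 10000 (enc_neg (enc_scaleT 1559 100 (kc0q1_9.enc h1 h2)))) (kc0q1_71.enc h1 h2)) (enc_add (enc_add (kc0q1_82.enc h1 h2) (enc_rat _ 2803 10000)) (kc0q1_71.enc h1 h2)))) (enc_case (enc_add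 (kc0q1_9.enc h1 h2) (enc_rat _ 9 20)) (enc_add (enc_add (enc_scaleT 92 75 (kc0q1_9.enc h1 h2)) (enc_rat _ 693 2500)) (kc0q1_71.enc h1 h2)) (enc_case (enc_add (kc0q1_9.enc h1 h2) (enc_rat _ 43 100)) (enc_add (enc_add (enc_scaleT 247 200 (kc0q1_9.enc h1 h2)) (enc_rat _ 5619 20000)) (enc_mul (enc_norm (kc0q1_3.enc h1 h2)) (enc_norm (enc_subr 1089 400 (enc_neg (enc_scaleT 109 20 (kc0q1_9.enc h1 h2))))))) (enc_add (enc_add (kc0q1_82.enc h1 h2) (enc_rat _ 8407 30000)) (enc_mul (enc_norm (kc0q1_3.enc h1 h2)) (enc_norm (enc_subr 4073 1500 (enc_neg (enc_scaleT 163 30 (kc0q1_9.enc h1 h2)))))))))) (enc_case (kc0q1_9.enc h1 h2) (enc_case (enc_add (kc0q1_9.enc h1 h2) (enc_rat _ 333 1000)) (enc_add (enc_add (kc0q1_124.enc h1 h2) (enc_rat _ 188023 670000)) (enc_mul (enc_norm (kc0q1_3.enc h1 h2)) (enc_norm (enc_subr 91357 33500 (enc_neg (enc_scaleT 366 67 (kc0q1_9.enc h1 h2))))))) (enc_case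 (enc_add (kc0q1_9.enc h1 h2) (enc_rat _ 167 1000)) (enc_add (enc_add (kc0q1_137.enc h1 h2) (enc_rat _ 233093 830000)) (enc_mul (enc_norm (kc0q1_3.enc h1 h2)) (enc_norm (enc_subr 452759 166000 (enc_neg (enc_scaleT 907 166 (kc0q1_9.enc h1 h2))))))) (enc_add (kc0q1_149.enc h1 h2) (enc_mul (enc_norm (kc0q1_3.enc h1 h2)) (enc_norm (enc_subr 341 125 (enc_neg (enc_scaleT 913 167 (kc0q1_9.enc h1 h2))))))))) (enc_case (enc_subr 333 1000 (kc0q1_9.enc h1 h2)) (enc_case (enc_subr 167 1000 (kc0q1_9.enc h1 h2)) (enc_add (kc0q1_149.enc h1 h2) (enc_mul (enc_norm (kc0q1_3.enc h1 h2)) (enc_norm (enc_subr 341 125 (enc_neg (enc_scaleT 914 167 (kc0q1_9.enc h1 h2))))))) (enc_add (enc_add (kc0q1_137.enc h1 h2) (enc_rat _ 46607 166000)) (enc_mul (enc_norm (kc0q1_3.enc h1 h2)) (enc_norm (enc_subr 56617 20750 (enc_neg (enc_scaleT 454 83 (kc0q1_9.enc h1 h2)))))))) (enc_case (enc_subr 2 5 (kc0q1_9.enc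 h1 h2)) (enc_add (enc_add (kc0q1_124.enc h1 h2) (enc_rat _ 188249 670000)) (enc_mul (enc_norm (kc0q1_3.enc h1 h2)) (enc_norm (enc_subr 182639 67000 (enc_neg (enc_scaleT 367 67 (kc0q1_9.enc h1 h2))))))) (enc_add (enc_add (enc_scaleT 33382305473 27000000000 (kc0q1_9.enc h1 h2)) (enc_rat _ 18909944527 67500000000)) (enc_mul (enc_norm (kc0q1_3.enc h1 h2)) (enc_norm (enc_subr 91833893531 33750000000 (enc_neg (enc_scaleT 74114856469 13500000000 (kc0q1_9.enc h1 h2))))))))))) (enc_case (enc_subr 181 397 (kc0q1_9.enc h1 h2)) (enc_sub (enc_add (enc_add (enc_rat _ 3 4) (enc_scaleT 3 2 h1)) (enc_scaleT 3 4 (enc_mul (enc_norm (enc_mul h1 (enc_inv (c1g.enc h1)))) (gug.enc h1)))) (enc_mul (kcg.enc (enc_norm (kc0q1_9.enc h1 h2)) h2) (enc_norm (enc_add (gug.enc h1) (enc_nat 2 (c1g.enc h1)))))) (enc_case (enc_subr 470613 1000000 (kc0q1_9.enc h1 h2)) (enc_add (enc_sub (enc_rat _ 777737961112279409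 58333610000000000) (enc_scaleT 1589340894893 58333610000 (kc0q1_9.enc h1 h2))) (enc_mul (enc_norm (kc0q1_3.enc h1 h2)) (enc_norm (enc_subr 21117121068664848629 58333610000000000 (enc_scaleT 45091164556833 58333610000 (kc0q1_9.enc h1 h2)))))) (enc_add (enc_sub (enc_rat _ 255200 29387) (enc_scaleT 510400 29387 (kc0q1_9.enc h1 h2))) (enc_mul (enc_norm (kc0q1_3.enc h1 h2)) (enc_norm (enc_sub (enc_rat _ 886000 29387) (enc_scaleT 1772000 29387 (kc0q1_9.enc h1 h2))))))))))⟩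
noncomputable def yag : Fn1 := ⟨_, _, fun h1 => (enc_sqrt (enc_scaleT 4 3 (enc_sub (enc_pnc _ 1) (enc_sq h1))))⟩
noncomputable def kfc02 : Fn2 := ⟨_, _, fun h1 h2 => (enc_norm (enc_add h1 (enc_mul (enc_norm (enc_subn 1 (yag.enc h1))) (kcg.enc (enc_neg h1) h2))))⟩
noncomputable def lc02_7 : Fn2 := ⟨_, _, fun h1 h2 => (enc_scaleT 3 4 (yag.enc h1))⟩
noncomputable def lc02_8 : Fn2 := ⟨_, _, fun h1 h2 => (enc_half h1)⟩
noncomputable def lc02 : Fn2 := ⟨_, _, fun h1 h2 => (enc_norm (enc_sub (txg.enc (enc_neg h1) (enc_norm (enc_add (lc02_7.enc h1 h2) (lc02_8.enc h1 h2))) h2) (txg.enc h1 (enc_norm (enc_sub (lc02_7.enc h1 h2) (lc02_8.enc h1 h2))) h2)))⟩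
noncomputable def kcc02 : Fn2 := ⟨_, _, fun h1 h2 => (enc_pnc _ 0)⟩
noncomputable def swg : Fn1 := ⟨_, _, fun h1 => (enc_sqrt (enc_sub (enc_pnc _ 1) (enc_scaleT 3 4 (enc_sq (enc_norm (enc_subn 1 h1))))))⟩
noncomputable def cv1m : Fn1 := ⟨_, _, fun h1 => (enc_norm (enc_add (enc_scaleT 4 5 (c1g.enc h1)) (enc_scaleT 1 5 (enc_add (swg.enc h1) (enc_rat _ 1 2)))))⟩
noncomputable def bf1q0_3 : Fn2 := ⟨_, _, fun h1 h2 => (enc_subr 153 160 h2)⟩
noncomputable def bf1q0_20 : Fn2 := ⟨_, _, fun h1 h2 => (enc_scaleT 39 20 h1)⟩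
noncomputable def bf1q0_23 : Fn2 := ⟨_, _, fun h1 h2 => (enc_sub (enc_rat _ 200001 200000) (bf1q0_20.enc h1 h2))⟩
noncomputable def bf1q0_73 : Fn2 := ⟨_, _, fun h1 h2 => (enc_sub (enc_rat _ 100001 100000) (bf1q0_20.enc h1 h2))⟩
noncomputable def bf1q0_82 : Fn2 := ⟨_, _, fun h1 h2 => (enc_scaleT 839 100 h1)⟩
noncomputable def bf1q0 : Fn2 := ⟨_, _, fun h1 h2 => (enc_norm (enc_case (enc_subr 11 200 h1) (enc_case (enc_subr 49 2000 h1) (enc_case (enc_subr 67 10000 h1) (enc_add (enc_sub (enc_pnc _ 1) (enc_scaleT 653 335 h1)) (enc_mul (enc_norm (bf1q0_3.enc h1 h2)) (enc_scaleT 562 67 h1))) (enc_case (enc_subr 31 2000 h1) (enc_add (bf1q0_23.enc h1 h2) (enc_mul (enc_norm (bf1q0_3.enc h1 h2)) (enc_norm (enc_add (enc_scaleT 369 44 h1) (enc_rat _ 1 88000))))) (enc_add (bf1q0_23.enc h1 h2) (enc_mul (enc_norm (bf1q0_3.enc h1 h2)) (enc_norm (enc_subr 1 5000 (enc_scaleT 42 5 h1))))))) (enc_case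 (enc_subr 303 10000 h1) (enc_add (bf1q0_23.enc h1 h2) (enc_mul (enc_norm (bf1q0_3.enc h1 h2)) (enc_norm (enc_add (enc_scaleT 243 29 h1) (enc_rat _ 89 290000))))) (enc_case (enc_subr 1 25 h1) (enc_add (enc_sub (enc_rat _ 48501 48500) (enc_scaleT 946 485 h1)) (enc_mul (enc_norm (bf1q0_3.enc h1 h2)) (enc_norm (enc_subr 17 242500 (enc_scaleT 814 97 h1))))) (enc_add (enc_sub (enc_rat _ 37499 37500) (enc_scaleT 731 375 h1)) (enc_mul (enc_norm (bf1q0_3.enc h1 h2)) (enc_norm (enc_add (enc_scaleT 629 75 h1) (enc_rat _ 1 7500)))))))) (enc_case (enc_subr 4 25 h1) (enc_case (enc_subr 7 100 h1) (enc_add (bf1q0_73.enc h1 h2) (enc_mul (enc_norm (bf1q0_3.enc h1 h2)) (enc_norm (enc_subr 7 30000 (enc_scaleT 1259 150 h1))))) (enc_case (enc_subr 1 10 h1) (enc_add (bf1q0_73.enc h1 h2) (enc_mul (enc_norm (bf1q0_3.enc h1 h2)) (bf1q0_82.enc h1 h2))) (enc_add (enc_sub (enc_rat _ 149999 150000) (enc_scaleT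 11699 6000 h1)) (enc_mul (enc_norm (bf1q0_3.enc h1 h2)) (enc_norm (enc_add (enc_scaleT 5033 600 h1) (enc_rat _ 1 6000))))))) (enc_case (enc_subr 1 4 h1) (enc_add (enc_sub (enc_rat _ 450001 450000) (enc_scaleT 17549 9000 h1)) (enc_mul (enc_norm (bf1q0_3.enc h1 h2)) (enc_norm (enc_subr 1 10000 (bf1q0_82.enc h1 h2))))) (enc_case (enc_subr 7 20 h1) (enc_add (enc_sub (enc_rat _ 200001 200000) (enc_scaleT 19499 10000 h1)) (enc_mul (enc_norm (bf1q0_3.enc h1 h2)) (enc_norm (enc_add (enc_scaleT 8389 1000 h1) (enc_rat _ 3 20000))))) (enc_add (enc_sub (enc_rat _ 149999 150000) (enc_scaleT 3656 1875 h1)) (enc_mul (enc_norm (bf1q0_3.enc h1 h2)) (enc_norm (enc_subr 1 5000 (bf1q0_82.enc h1 h2))))))))))⟩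
noncomputable def kf1q0 : Fn2 := ⟨_, _, fun h1 h2 => (enc_norm (enc_mul (cv1m.enc h1) (bf1q0.enc h1 h2)))⟩
noncomputable def bx1q0_3 : Fn2 := ⟨_, _, fun h1 h2 => (enc_subr 153 160 h2)⟩
noncomputable def bx1q0_31 : Fn2 := ⟨_, _, fun h1 h2 => (enc_scaleT 2 5 h1)⟩
noncomputable def bx1q0_69 : Fn2 := ⟨_, _, fun h1 h2 => (enc_mul (enc_norm (bx1q0_3.enc h1 h2)) (enc_norm (enc_subr 7 2000 (bx1q0_31.enc h1 h2))))⟩
noncomputable def bx1q0_95 : Fn2 := ⟨_, _, fun h1 h2 => (enc_mul (enc_norm (bx1q0_3.enc h1 h2)) (enc_norm (enc_subr 23 6000 (enc_scaleT 121 300 h1))))⟩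
noncomputable def bx1q0 : Fn2 := ⟨_, _, fun h1 h2 => (enc_norm (enc_case (enc_subr 11 200 h1) (enc_case (enc_subr 49 2000 h1) (enc_case (enc_subr 67 10000 h1) (enc_add (enc_scaleT 231 670 h1) (enc_mul (enc_norm (bx1q0_3.enc h1 h2)) (enc_scaleT 12 67 h1))) (enc_case (enc_subr 31 2000 h1) (enc_add (enc_subr 103 550000 (enc_scaleT 41 110 h1)) (enc_mul (enc_norm (bx1q0_3.enc h1 h2)) (enc_norm (enc_subr 1 55000 (enc_scaleT 2 11 h1))))) (enc_add (enc_subr 59 300000 (enc_scaleT 28 75 h1)) (enc_mul (enc_norm (bx1q0_3.enc h1 h2)) (enc_norm (enc_subr 17 5000 (bx1q0_31.enc h1 h2))))))) (enc_case (enc_subr 303 10000 h1) (enc_add (enc_subr 101 580000 (enc_scaleT 54 145 h1)) (enc_mul (enc_norm (bx1q0_3.enc h1 h2)) (enc_norm (enc_subr 839 290000 (enc_scaleT 11 29 h1))))) (enc_case (enc_subr 1 25 h1) (enc_add (enc_subr 101 606250 (enc_scaleT 361 970 h1)) (enc_mul (enc_norm (bx1q0_3.enc h1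 h2)) (enc_norm (enc_subr 139 38800 (enc_scaleT 39 97 h1))))) (enc_add (enc_add (enc_scaleT 523 1500 h1) (enc_rat _ 29 37500)) (bx1q0_69.enc h1 h2))))) (enc_case (enc_subr 4 25 h1) (enc_case (enc_subr 7 100 h1) (enc_add (enc_add (enc_scaleT 437 1500 h1) (enc_rat _ 589 150000)) (bx1q0_69.enc h1 h2)) (enc_case (enc_subr 1 10 h1) (enc_add (enc_add (enc_scaleT 851 3000 h1) (enc_rat _ 1339 300000)) (bx1q0_69.enc h1 h2)) (enc_add (enc_add (enc_scaleT 169 600 h1) (enc_rat _ 1399 300000)) (bx1q0_95.enc h1 h2)))) (enc_case (enc_subr 1 4 h1) (enc_add (enc_add (enc_scaleT 2519 9000 h1) (enc_rat _ 4453 900000)) (bx1q0_95.enc h1 h2)) (enc_case (enc_subr 7 20 h1) (enc_add (enc_add (enc_scaleT 1379 5000 h1) (enc_rat _ 597 100000)) (enc_mul (enc_norm (bx1q0_3.enc h1 h2)) (enc_norm (enc_subr 3 800 (enc_scaleT 403 1000 h1))))) (enc_add (enc_add (enc_scaleT 277 1250 h1) (enc_rat _ 1247 50000))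 (enc_mul (enc_norm (bx1q0_3.enc h1 h2)) (enc_norm (enc_subr 109 30000 (enc_scaleT 151 375 h1))))))))))⟩
noncomputable def l1q0 : Fn2 := ⟨_, _, fun h1 h2 => (enc_norm (enc_mul (cv1m.enc h1) (bx1q0.enc h1 h2)))⟩
noncomputable def bd1q0_3 : Fn2 := ⟨_, _, fun h1 h2 => (enc_subr 153 160 h2)⟩
noncomputable def bd1q0 : Fn2 := ⟨_, _, fun h1 h2 => (enc_norm (enc_case (enc_subr 3 100 h1) (enc_case (enc_subr 1 100 h1) (enc_sub (enc_neg (enc_scaleT 1177 100 h1)) (enc_mul (enc_norm (bd1q0_3.enc h1 h2)) (enc_scaleT 432 5 h1))) (enc_add (enc_subr 51 10000 (enc_neg (enc_scaleT 563 50 h1))) (enc_mul (enc_norm (bd1q0_3.enc h1 h2)) (enc_norm (enc_sub (enc_rat _ 1 40) (enc_scaleT 889 10 h1)))))) (enc_case (enc_subr 303 10000 h1) (enc_add (enc_subr 1229 10000 (enc_neg (enc_scaleT 22 3 h1))) (enc_mul (enc_norm (bd1q0_3.enc h1 h2)) (enc_norm (enc_sub (enc_rat _ 2479 500) (enc_scaleT 760 3 h1)))))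 (enc_case (enc_subr 11 200 h1) (enc_add (enc_subr 77431 617500 (enc_neg (enc_scaleT 1791 247 h1))) (enc_mul (enc_norm (bd1q0_3.enc h1 h2)) (enc_norm (enc_sub (enc_rat _ 697557 123500) (enc_scaleT 68200 247 h1))))) (enc_add (enc_subr 55817 445000 (enc_neg (enc_scaleT 16132 2225 h1))) (enc_mul (enc_norm (bd1q0_3.enc h1 h2)) (enc_norm (enc_sub (enc_rat _ 63177 11125) (enc_scaleT 123118 445 h1)))))))))⟩
noncomputable def kc1q0 : Fn2 := ⟨_, _, fun h1 h2 => (enc_norm (enc_mul (cv1m.enc h1) (bd1q0.enc h1 h2)))⟩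
noncomputable def bf1q1_3 : Fn2 := ⟨_, _, fun h1 h2 => (enc_subr 153 160 h2)⟩
noncomputable def bf1q1 : Fn2 := ⟨_, _, fun h1 h2 => (enc_norm (enc_case (enc_subr 4 5 h1) (enc_add (enc_subr 523687 300000 (enc_scaleT 16453 6000 h1)) (enc_mul (enc_norm (bf1q1_3.enc h1 h2)) (enc_norm (enc_sub (enc_rat _ 597413 6000) (enc_scaleT 80519 750 h1))))) (enc_case (enc_subr 91 100 h1) (enc_add (enc_subr 1920199 1100000 (enc_scaleT 7541 2750 h1)) (enc_mul (enc_norm (bf1q1_3.enc h1 h2)) (enc_norm (enc_sub (enc_rat _ 10952529 110000) (enc_scaleT 59047 550 h1))))) (enc_add (enc_subr 785507 450000 (enc_scaleT 24679 9000 h1)) (enc_mul (enc_norm (bf1q1_3.enc h1 h2)) (enc_norm (enc_sub (enc_rat _ 4480609 45000) (enc_scaleT 96623 900 h1))))))))⟩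
noncomputable def kf1q1 : Fn2 := ⟨_, _, fun h1 h2 => (enc_norm (enc_mul (cv1m.enc h1) (bf1q1.enc h1 h2)))⟩
noncomputable def bx1q1_3 : Fn2 := ⟨_, _, fun h1 h2 => (enc_subr 153 160 h2)⟩
noncomputable def bx1q1 : Fn2 := ⟨_, _, fun h1 h2 => (enc_norm (enc_case (enc_subr 4 5 h1) (enc_add (enc_add (enc_scaleT 3407 30000 h1) (enc_rat _ 23687 300000)) (enc_mul (enc_norm (bx1q1_3.enc h1 h2)) (enc_norm (enc_subr 89 30000 (enc_scaleT 301 750 h1))))) (enc_case (enc_subr 91 100 h1) (enc_add (enc_add (enc_scaleT 1249 11000 h1) (enc_rat _ 86871 1100000)) (enc_mul (enc_norm (bx1q1_3.enc h1 h2)) (enc_norm (enc_subr 289 110000 (enc_scaleT 441 1100 h1))))) (enc_add (enc_add (enc_scaleT 511 4500 h1) (enc_rat _ 17767 225000)) (enc_mul (enc_norm (bx1q1_3.enc h1 h2)) (enc_norm (enc_subr 43 11250 (enc_scaleT 181 450 h1))))))))⟩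
noncomputable def l1q1 : Fn2 := ⟨_, _, fun h1 h2 => (enc_norm (enc_mul (cv1m.enc h1) (bx1q1.enc h1 h2)))⟩
noncomputable def bd1q1 : Fn2 := ⟨_, _, fun h1 h2 => (enc_norm (enc_add (enc_subr 627 5000 (enc_neg (enc_scaleT 9063 1250 h1))) (enc_mul (enc_norm (enc_subr 153 160 h2)) (enc_norm (enc_sub (enc_rat _ 5691 1000) (enc_scaleT 138347 500 h1))))))⟩
noncomputable def kc1q1 : Fn2 := ⟨_, _, fun h1 h2 => (enc_norm (enc_mul (cv1m.enc h1) (bd1q1.enc h1 h2)))⟩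
noncomputable def xc12a : Fn1 := ⟨_, _, fun h1 => (enc_norm (enc_add (enc_scaleT 4 5 h1) (enc_scaleT 1 5 (enc_subr 1 2 (swg.enc (yag.enc h1))))))⟩
noncomputable def bf1q2_3 : Fn2 := ⟨_, _, fun h1 h2 => (enc_subr 153 160 h2)⟩
noncomputable def bf1q2_33 : Fn2 := ⟨_, _, fun h1 h2 => (enc_scaleT 5037 1750 h1)⟩
noncomputable def bf1q2_59 : Fn2 := ⟨_, _, fun h1 h2 => (enc_scaleT 57567 20000 h1)⟩
noncomputable def bf1q2 : Fn2 := ⟨_, _, fun h1 h2 => (enc_norm (enc_case (enc_subr 577 500 h1) (enc_case (enc_subr 211 200 h1) (enc_case (enc_subr 10303 10000 h1) (enc_add (enc_sub (enc_rat _ 3917 1010) (enc_scaleT 2907 1010 h1)) (enc_mul (enc_norm (bf1q2_3.enc h1 h2)) (enc_norm (enc_subr 175 101 (enc_scaleT 175 101 h1))))) (enc_add (enc_sub (enc_rat _ 95800243 24700000) (enc_scaleT 711 247 h1)) (enc_mul (enc_norm (bf1q2_3.enc h1 h2)) (enc_norm (enc_subr 4280009 2470000 (enc_scaleT 428 247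 h1)))))) (enc_case (enc_subr 109 100 h1) (enc_add (enc_sub (enc_rat _ 2714797 700000) (bf1q2_33.enc h1 h2)) (enc_mul (enc_norm (bf1q2_3.enc h1 h2)) (enc_norm (enc_subr 24239 14000 (enc_scaleT 303 175 h1))))) (enc_add (enc_sub (enc_rat _ 248216131 64000000) (enc_scaleT 1842159 640000 h1)) (enc_mul (enc_norm (bf1q2_3.enc h1 h2)) (enc_norm (enc_subr 3465377 2000000 (enc_scaleT 34653 20000 h1))))))) (enc_case (enc_subr 29 25 h1) (enc_case (enc_subr 231 200 h1) (enc_add (enc_sub (enc_rat _ 77567 20000) (bf1q2_59.enc h1 h2)) (enc_mul (enc_norm (bf1q2_3.enc h1 h2)) (enc_norm (enc_subr 4331 2500 (enc_scaleT 4331 2500 h1))))) (enc_add (enc_sub (enc_rat _ 1939637 500000) (enc_scaleT 57583 20000 h1)) (enc_mul (enc_norm (bf1q2_3.enc h1 h2)) (enc_norm (enc_subr 54253 31250 (enc_scaleT 4339 2500 h1)))))) (enc_case (enc_subr 13 10 h1) (enc_add (enc_sub (enc_rat _ 271479 70000) (bf1q2_33.enc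 h1 h2)) (enc_mul (enc_norm (bf1q2_3.enc h1 h2)) (enc_norm (enc_subr 60623 35000 (enc_scaleT 97 56 h1))))) (enc_add (enc_sub (enc_rat _ 775671 200000) (bf1q2_59.enc h1 h2)) (enc_mul (enc_norm (bf1q2_3.enc h1 h2)) (enc_norm (enc_subr 34651 20000 (enc_scaleT 693 400 h1)))))))))⟩
noncomputable def kfc12a : Fn2 := ⟨_, _, fun h1 h2 => (enc_norm (enc_mul (enc_norm (enc_add (enc_scaleT 4 5 h1) (enc_scaleT 1 5 (enc_subr 1 2 (swg.enc (yag.enc h1)))))) (bf1q2.enc (yag.enc h1) h2)))⟩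
noncomputable def bx1q2_3 : Fn2 := ⟨_, _, fun h1 h2 => (enc_subr 153 160 h2)⟩
noncomputable def bx1q2_85 : Fn2 := ⟨_, _, fun h1 h2 => (enc_subr 167811 100000 (enc_scaleT 2431 2000 h1))⟩
noncomputable def bx1q2 : Fn2 := ⟨_, _, fun h1 h2 => (enc_norm (enc_case (enc_subr 577 500 h1) (enc_case (enc_subr 211 200 h1) (enc_case (enc_subr 10303 10000 h1) (enc_add (enc_sub (enc_rat _ 2692 1515) (enc_scaleT 2692 1515 h1)) (enc_mul (enc_norm (bx1q2_3.enc h1 h2)) (enc_norm (enc_sub (enc_rat _ 454 101) (enc_scaleT 454 101 h1))))) (enc_add (enc_sub (enc_rat _ 14060829 6175000) (enc_scaleT 2794 1235 h1)) (enc_mul (enc_norm (bx1q2_3.enc h1 h2)) (enc_norm (enc_sub (enc_rat _ 217813 65000) (enc_scaleT 44 13 h1)))))) (enc_case (enc_subr 109 100 h1) (enc_add (enc_sub (enc_rat _ 227669 100000) (enc_scaleT 1131 500 h1)) (enc_mul (enc_norm (bx1q2_3.enc h1 h2)) (enc_norm (enc_subr 6427 35000 (enc_neg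 (enc_scaleT 6 175 h1)))))) (enc_add (enc_sub (enc_rat _ 40445219 32000000) (enc_scaleT 426511 320000 h1)) (enc_mul (enc_norm (bx1q2_3.enc h1 h2)) (enc_norm (enc_subr 688779 3200000 (enc_neg (enc_scaleT 169 32000 h1)))))))) (enc_case (enc_subr 29 25 h1) (enc_case (enc_subr 231 200 h1) (enc_sub (enc_neg (enc_rat _ 1370961 5000000)) (enc_scaleT 110669 500000 (bx1q2_3.enc h1 h2))) (enc_add (enc_subr 4186401 2500000 (enc_scaleT 30311 25000 h1)) (enc_mul (enc_norm (bx1q2_3.enc h1 h2)) (enc_norm (enc_subr 3129829 250000 (enc_scaleT 26619 2500 h1)))))) (enc_case (enc_subr 13 10 h1) (enc_add (bx1q2_85.enc h1 h2) (enc_mul (enc_norm (bx1q2_3.enc h1 h2)) (enc_norm (enc_subr 179381 14000 (enc_scaleT 15261 1400 h1))))) (enc_add (bx1q2_85.enc h1 h2) (enc_mul (enc_norm (bx1q2_3.enc h1 h2)) (enc_norm (enc_subr 256487 20000 (enc_scaleT 21819 2000 h1)))))))))⟩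
noncomputable def lc12a : Fn2 := ⟨_, _, fun h1 h2 => (enc_norm (enc_mul (enc_norm (enc_add (enc_scaleT 4 5 h1) (enc_scaleT 1 5 (enc_subr 1 2 (swg.enc (yag.enc h1)))))) (bx1q2.enc (yag.enc h1) h2)))⟩
noncomputable def bd1q2 : Fn2 := ⟨_, _, fun h1 h2 => (enc_pnc _ 0)⟩
noncomputable def kcc12a : Fn2 := ⟨_, _, fun h1 h2 => (enc_norm (enc_mul (enc_norm (enc_add (enc_scaleT 4 5 h1) (enc_scaleT 1 5 (enc_subr 1 2 (swg.enc (yag.enc h1)))))) (bd1q2.enc (yag.enc h1) h2)))⟩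
noncomputable def xc12b : Fn1 := ⟨_, _, fun h1 => (enc_norm (enc_scaleT 1 5 (enc_subr 1 2 (swg.enc h1))))⟩
noncomputable def kfc12b : Fn2 := ⟨_, _, fun h1 h2 => (enc_norm (enc_mul (enc_norm (enc_scaleT 1 5 (enc_subr 1 2 (swg.enc h1)))) (bf1q2.enc h1 h2)))⟩
noncomputable def lc12b : Fn2 := ⟨_, _, fun h1 h2 => (enc_norm (enc_mul (enc_norm (enc_scaleT 1 5 (enc_subr 1 2 (swg.enc h1)))) (bx1q2.enc h1 h2)))⟩
noncomputable def kcc12b : Fn2 := ⟨_, _, fun h1 h2 => (enc_norm (enc_mul (enc_norm (enc_scaleT 1 5 (enc_subr 1 2 (swg.enc h1)))) (bd1q2.enc h1 h2)))⟩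
noncomputable def cv1r : Fn1 := ⟨_, _, fun h1 => (enc_norm (enc_scaleT 1 5 (enc_subr 1 2 (swg.enc h1))))⟩
noncomputable def c3g : Fn1 := ⟨_, _, fun h1 => (enc_sqrtg (enc_sub (enc_pnc _ 3) (enc_scaleT 3 4 (enc_sq h1))))⟩
noncomputable def kf1q3_4 : Fn2 := ⟨_, _, fun h1 h2 => (enc_subr 153 160 h2)⟩
noncomputable def kf1q3 : Fn2 := ⟨_, _, fun h1 h2 => (enc_norm (enc_mul (cv1r.enc h1) (enc_norm (enc_case (enc_subr 19697 10000 h1) (enc_case (enc_subr 191 100 h1) (enc_add (enc_sub (enc_rat _ 6896663 410000) (enc_scaleT 180261 20500 h1)) (enc_mul (enc_norm (kf1q3_4.enc h1 h2)) (enc_norm (enc_sub (enc_rat _ 504470197 410000) (enc_scaleT 640354 1025 h1))))) (enc_case (enc_subr 389 200 h1) (enc_add (enc_sub (enc_rat _ 367959 21875) (enc_scaleT 7694 875 h1)) (enc_mul (enc_norm (kf1q3_4.enc h1 h2)) (enc_norm (enc_sub (enc_rat _ 86129263 70000) (enc_scaleT 109329 175 h1))))) (enc_add (enc_sub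 (enc_rat _ 207738527 12350000) (enc_scaleT 21719 2470 h1)) (enc_mul (enc_norm (kf1q3_4.enc h1 h2)) (enc_norm (enc_sub (enc_rat _ 3039111671 2470000) (enc_scaleT 154309 247 h1))))))) (enc_case (enc_sub (enc_rat _ 215220381 1000000000) (c3g.enc h1)) (enc_case (enc_sub (enc_rat _ 33784661 125000000) (c3g.enc h1)) (enc_add (enc_sub (enc_rat _ 1203189076337 751872325000) (enc_scaleT 210190000 30074893 (c3g.enc h1))) (enc_mul (enc_norm (kf1q3_4.enc h1 h2)) (enc_norm (enc_subr 12355945631911 75187232500 (enc_scaleT 16442600000 30074893 (c3g.enc h1)))))) (enc_add (enc_sub (enc_rat _ 2202654243419 1376422675000) (enc_scaleT 384790000 55056907 (c3g.enc h1))) (enc_mul (enc_norm (kf1q3_4.enc h1 h2)) (enc_norm (enc_subr 4523892233183 27528453500 (enc_scaleT 30100700000 55056907 (c3g.enc h1))))))) (enc_case (enc_sub (enc_rat _ 141655683 1000000000) (c3g.enc h1)) (enc_add (enc_sub (enc_rat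 _ 3924051920277 2452156600000) (enc_scaleT 257065000 36782349 (c3g.enc h1))) (enc_mul (enc_norm (kf1q3_4.enc h1 h2)) (enc_norm (enc_subr 8059513445829 49043132000 (enc_scaleT 20109650000 36782349 (c3g.enc h1)))))) (enc_add (enc_sub (enc_rat _ 80013 50000) (enc_scaleT 990020000 141655683 (c3g.enc h1))) (enc_mul (enc_norm (kf1q3_4.enc h1 h2)) (enc_norm (enc_subr 1643351 10000 (enc_scaleT 25815300000 47218561 (c3g.enc h1))))))))))))⟩
noncomputable def l1q3_4 : Fn2 := ⟨_, _, fun h1 h2 => (enc_subr 153 160 h2)⟩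
noncomputable def l1q3 : Fn2 := ⟨_, _, fun h1 h2 => (enc_norm (enc_mul (cv1r.enc h1) (enc_norm (enc_case (enc_subr 19697 10000 h1) (enc_case (enc_subr 191 100 h1) (enc_add (enc_subr 430011 256250 (enc_scaleT 9967 8200 h1)) (enc_mul (enc_norm (l1q3_4.enc h1 h2)) (enc_norm (enc_subr 5259941 410000 (enc_scaleT 22371 2050 h1))))) (enc_case (enc_subr 389 200 h1) (enc_add (enc_subr 234917 140000 (enc_scaleT 2127 1750 h1)) (enc_mul (enc_norm (l1q3_4.enc h1 h2)) (enc_norm (enc_subr 897871 70000 (enc_scaleT 3819 350 h1))))) (enc_add (enc_subr 2181261 1300000 (enc_scaleT 79 65 h1)) (enc_mul (enc_norm (l1q3_4.enc h1 h2)) (enc_norm (enc_subr 792477 61750 (enc_scaleT 2696 247 h1))))))) (enc_case (enc_sub (enc_rat _ 215220381 1000000000) (c3g.enc h1)) (enc_case (enc_sub (enc_rat _ 33784661 125000000) (c3g.enc h1)) (enc_add (enc_sub (enc_rat _ 2447257146283 3007489300000) (enc_scaleT 9780000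 30074893 (c3g.enc h1))) (enc_mul (enc_norm (l1q3_4.enc h1 h2)) (enc_norm (enc_add (enc_scaleT 115900000 30074893 (c3g.enc h1)) (enc_rat _ 2258061750029 300748930000))))) (enc_add (enc_sub (enc_rat _ 4480262103589 5505690700000) (enc_scaleT 17910000 55056907 (c3g.enc h1))) (enc_mul (enc_norm (l1q3_4.enc h1 h2)) (enc_norm (enc_add (enc_scaleT 212000000 55056907 (c3g.enc h1)) (enc_rat _ 4134212527219 550569070000)))))) (enc_case (enc_sub (enc_rat _ 141655683 1000000000) (c3g.enc h1)) (enc_add (enc_sub (enc_rat _ 498842333367 613039150000) (enc_scaleT 11960000 36782349 (c3g.enc h1))) (enc_mul (enc_norm (l1q3_4.enc h1 h2)) (enc_norm (enc_add (enc_scaleT 141650000 36782349 (c3g.enc h1)) (enc_rat _ 1841294828591 245215660000))))) (enc_add (enc_sub (enc_rat _ 20343 25000) (enc_scaleT 46060000 141655683 (c3g.enc h1))) (enc_mul (enc_norm (l1q3_4.enc h1 h2)) (enc_norm (enc_add (enc_scaleT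 545600000 141655683 (c3g.enc h1)) (enc_rat _ 4693 625)))))))))))⟩
noncomputable def kc1q3_4 : Fn2 := ⟨_, _, fun h1 h2 => (enc_subr 153 160 h2)⟩
noncomputable def kc1q3 : Fn2 := ⟨_, _, fun h1 h2 => (enc_norm (enc_mul (cv1r.enc h1) (enc_norm (enc_case (enc_subr 19697 10000 h1) (enc_pnc _ 0) (enc_case (enc_sub (enc_rat _ 298872883 1000000000) (c3g.enc h1)) (enc_add (enc_sub (enc_rat _ 62773605829 2958596000) (enc_scaleT 52250000 739649 (c3g.enc h1))) (enc_mul (enc_norm (kc1q3_4.enc h1 h2)) (enc_norm (enc_subr 2380891738787 739649000 (enc_scaleT 7927000000 739649 (c3g.enc h1)))))) (enc_add (enc_sub (enc_rat _ 53063 2500) (enc_scaleT 21120700000 298872883 (c3g.enc h1))) (enc_mul (enc_norm (kc1q3_4.enc h1 h2)) (enc_norm (enc_subr 1609519 500 (enc_scaleT 3203184000000 298872883 (c3g.enc h1)))))))))))⟩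
noncomputable def cv2m : Fn1 := ⟨_, _, fun h1 => (enc_norm (enc_add (enc_scaleT 2 5 (c1g.enc h1)) (enc_scaleT 3 5 (enc_add (swg.enc h1) (enc_rat _ 1 2)))))⟩
noncomputable def bf2q0_3 : Fn2 := ⟨_, _, fun h1 h2 => (enc_subr 153 160 h2)⟩
noncomputable def bf2q0_66 : Fn2 := ⟨_, _, fun h1 h2 => (enc_scaleT 281 125 h1)⟩
noncomputable def bf2q0_69 : Fn2 := ⟨_, _, fun h1 h2 => (enc_sub (enc_rat _ 25109 25000) (bf2q0_66.enc h1 h2))⟩
noncomputable def bf2q0_82 : Fn2 := ⟨_, _, fun h1 h2 => (enc_scaleT 5021 200 h1)⟩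
noncomputable def bf2q0 : Fn2 := ⟨_, _, fun h1 h2 => (enc_norm (enc_case (enc_subr 1 25 h1) (enc_case (enc_subr 31 2000 h1) (enc_case (enc_subr 67 10000 h1) (enc_add (enc_sub (enc_pnc _ 1) (enc_scaleT 659 335 h1)) (enc_mul (enc_norm (bf2q0_3.enc h1 h2)) (enc_scaleT 1693 67 h1))) (enc_add (enc_sub (enc_rat _ 8799993 8800000) (enc_scaleT 1731 880 h1)) (enc_mul (enc_norm (bf2q0_3.enc h1 h2)) (enc_norm (enc_add (enc_scaleT 2223 88 h1) (enc_rat _ 43 880000)))))) (enc_case (enc_subr 49 2000 h1) (enc_add (enc_sub (enc_rat _ 1807831 1800000) (enc_scaleT 2023 900 h1)) (enc_mul (enc_norm (bf2q0_3.enc h1 h2)) (enc_norm (enc_add (enc_scaleT 226 9 h1) (enc_rat _ 107 45000))))) (enc_case (enc_subr 303 10000 h1) (enc_add (enc_sub (enc_rat _ 728163 725000) (enc_scaleT 326 145 h1)) (enc_mul (enc_norm (bf2q0_3.enc h1 h2)) (enc_norm (enc_add (enc_scaleT 728 29 h1) (enc_rat _ 93 36250))))) (enc_add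 (enc_sub (enc_rat _ 2435517 2425000) (enc_scaleT 218 97 h1)) (enc_mul (enc_norm (bf2q0_3.enc h1 h2)) (enc_norm (enc_add (enc_scaleT 2435 97 h1) (enc_rat _ 2499 970000)))))))) (enc_case (enc_subr 4 25 h1) (enc_case (enc_subr 7 100 h1) (enc_add (bf2q0_69.enc h1 h2) (enc_mul (enc_norm (bf2q0_3.enc h1 h2)) (enc_norm (enc_add (enc_scaleT 1883 75 h1) (enc_rat _ 73 30000))))) (enc_case (enc_subr 1 10 h1) (enc_add (bf2q0_69.enc h1 h2) (enc_mul (enc_norm (bf2q0_3.enc h1 h2)) (enc_norm (enc_add (enc_scaleT 7531 300 h1) (enc_rat _ 1 375))))) (enc_add (bf2q0_69.enc h1 h2) (enc_mul (enc_norm (bf2q0_3.enc h1 h2)) (enc_norm (enc_add (bf2q0_82.enc h1 h2) (enc_rat _ 1 400))))))) (enc_case (enc_subr 1 4 h1) (enc_add (enc_sub (enc_rat _ 225977 225000) (enc_scaleT 20231 9000 h1)) (enc_mul (enc_norm (bf2q0_3.enc h1 h2)) (enc_norm (enc_add (enc_scaleT 11297 450 h1) (enc_rat _ 233 90000))))) (enc_case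 (enc_subr 7 20 h1) (enc_add (enc_sub (enc_rat _ 100437 100000) (bf2q0_66.enc h1 h2)) (enc_mul (enc_norm (bf2q0_3.enc h1 h2)) (enc_norm (enc_add (bf2q0_82.enc h1 h2) (enc_rat _ 49 20000))))) (enc_add (enc_sub (enc_rat _ 37663 37500) (enc_scaleT 33719 15000 h1)) (enc_mul (enc_norm (bf2q0_3.enc h1 h2)) (enc_norm (enc_add (enc_scaleT 37657 1500 h1) (enc_rat _ 77 30000))))))))))⟩
noncomputable def kf2q0 : Fn2 := ⟨_, _, fun h1 h2 => (enc_norm (enc_mul (cv2m.enc h1) (bf2q0.enc h1 h2)))⟩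
noncomputable def bx2q0_3 : Fn2 := ⟨_, _, fun h1 h2 => (enc_subr 153 160 h2)⟩
noncomputable def bx2q0 : Fn2 := ⟨_, _, fun h1 h2 => (enc_norm (enc_case (enc_subr 11 200 h1) (enc_case (enc_subr 49 2000 h1) (enc_case (enc_subr 67 10000 h1) (enc_add (enc_scaleT 53 67 h1) (enc_mul (enc_norm (bx2q0_3.enc h1 h2)) (enc_scaleT 131 67 h1))) (enc_case (enc_subr 31 2000 h1) (enc_add (enc_add (enc_scaleT 87 110 h1) (enc_rat _ 1 1100000)) (enc_mul (enc_norm (bx2q0_3.enc h1 h2)) (enc_norm (enc_subr 63 880000 (enc_scaleT 173 88 h1))))) (enc_add (enc_add (enc_scaleT 689 900 h1) (enc_rat _ 709 1800000)) (enc_mul (enc_norm (bx2q0_3.enc h1 h2)) (enc_norm (enc_subr 6649 180000 (enc_scaleT 391 90 h1))))))) (enc_case (enc_subr 303 10000 h1) (enc_add (enc_add (enc_scaleT 209 290 h1) (enc_rat _ 433 290000)) (enc_mul (enc_norm (bx2q0_3.enc h1 h2)) (enc_norm (enc_subr 2143 58000 (enc_scaleT 126 29 h1)))))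 (enc_case (enc_subr 1 25 h1) (enc_add (enc_add (enc_scaleT 70 97 h1) (enc_rat _ 14201 9700000)) (enc_mul (enc_norm (bx2q0_3.enc h1 h2)) (enc_norm (enc_add (enc_scaleT 20 97 h1) (enc_rat _ 85799 970000))))) (enc_add (enc_add (enc_scaleT 467 750 h1) (enc_rat _ 1627 300000)) (enc_mul (enc_norm (bx2q0_3.enc h1 h2)) (enc_norm (enc_add (enc_scaleT 29 150 h1) (enc_rat _ 2669 30000)))))))) (enc_case (enc_subr 4 25 h1) (enc_case (enc_subr 7 100 h1) (enc_add (enc_add (enc_scaleT 463 750 h1) (enc_rat _ 343 60000)) (enc_mul (enc_norm (bx2q0_3.enc h1 h2)) (enc_norm (enc_add (enc_scaleT 9 50 h1) (enc_rat _ 897 10000))))) (enc_case (enc_subr 1 10 h1) (enc_add (enc_add (enc_scaleT 1663 3000 h1) (enc_rat _ 1519 150000)) (enc_mul (enc_norm (bx2q0_3.enc h1 h2)) (enc_norm (enc_add (enc_scaleT 53 300 h1) (enc_rat _ 1349 15000))))) (enc_add (enc_sub (enc_rat _ 19733 300000) (enc_scaleT 13 6000 h1))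 (enc_mul (enc_norm (bx2q0_3.enc h1 h2)) (enc_norm (enc_add (enc_scaleT 17 100 h1) (enc_rat _ 453 5000))))))) (enc_case (enc_subr 1 4 h1) (enc_add (enc_sub (enc_rat _ 6751 100000) (enc_scaleT 13 1000 h1)) (enc_mul (enc_norm (bx2q0_3.enc h1 h2)) (enc_norm (enc_add (enc_scaleT 1 6 h1) (enc_rat _ 1367 15000))))) (enc_case (enc_subr 7 20 h1) (enc_add (enc_sub (enc_rat _ 13517 200000) (enc_scaleT 133 10000 h1)) (enc_mul (enc_norm (bx2q0_3.enc h1 h2)) (enc_norm (enc_add (enc_scaleT 41 250 h1) (enc_rat _ 459 5000))))) (enc_add (enc_sub (enc_rat _ 20279 300000) (enc_scaleT 1 75 h1)) (enc_mul (enc_norm (bx2q0_3.enc h1 h2)) (enc_norm (enc_add (enc_scaleT 81 500 h1) (enc_rat _ 37 400))))))))))⟩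
noncomputable def l2q0 : Fn2 := ⟨_, _, fun h1 h2 => (enc_norm (enc_mul (cv2m.enc h1) (bx2q0.enc h1 h2)))⟩
noncomputable def bd2q0_3 : Fn2 := ⟨_, _, fun h1 h2 => (enc_subr 153 160 h2)⟩
noncomputable def bd2q0 : Fn2 := ⟨_, _, fun h1 h2 => (enc_norm (enc_case (enc_subr 3 100 h1) (enc_case (enc_subr 1 100 h1) (enc_sub (enc_mul (enc_norm (bd2q0_3.enc h1 h2)) (enc_scaleT 2551 10 h1)) (enc_scaleT 584 25 h1)) (enc_add (enc_subr 1 20000 (enc_neg (enc_scaleT 4671 200 h1))) (enc_mul (enc_norm (bd2q0_3.enc h1 h2)) (enc_norm (enc_add (enc_scaleT 5101 20 h1) (enc_rat _ 1 2000)))))) (enc_case (enc_subr 303 10000 h1) (enc_add (enc_subr 7 10000 (enc_neg (enc_scaleT 70 3 h1))) (enc_mul (enc_norm (bd2q0_3.enc h1 h2)) (enc_norm (enc_subr 6 125 (enc_scaleT 770 3 h1))))) (enc_case (enc_subr 11 200 h1) (enc_add (enc_subr 3 617500 (enc_neg (enc_scaleT 5769 247 h1))) (enc_mul (enc_norm (bd2q0_3.enc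 h1 h2)) (enc_norm (enc_subr 7 12350 (enc_scaleT 63010 247 h1))))) (enc_add (enc_subr 31 890000 (enc_neg (enc_scaleT 103933 4450 h1))) (enc_mul (enc_norm (bd2q0_3.enc h1 h2)) (enc_norm (enc_subr 4 2225 (enc_scaleT 22706 89 h1)))))))))⟩
noncomputable def kc2q0 : Fn2 := ⟨_, _, fun h1 h2 => (enc_norm (enc_mul (cv2m.enc h1) (bd2q0.enc h1 h2)))⟩
noncomputable def bf2q1_3 : Fn2 := ⟨_, _, fun h1 h2 => (enc_subr 153 160 h2)⟩
noncomputable def bf2q1 : Fn2 := ⟨_, _, fun h1 h2 => (enc_norm (enc_case (enc_subr 4 5 h1) (enc_add (enc_sub (enc_rat _ 50903 75000) (enc_scaleT 2551 7500 h1)) (enc_mul (enc_norm (bf2q1_3.enc h1 h2)) (enc_norm (enc_subr 3082313 30000 (enc_scaleT 152627 1500 h1))))) (enc_case (enc_subr 91 100 h1) (enc_add (enc_sub (enc_rat _ 37327 55000) (enc_scaleT 3741 11000 h1)) (enc_mul (enc_norm (bf2q1_3.enc h1 h2)) (enc_norm (enc_subr 11301777 110000 (enc_scaleT 55963 550 h1)))))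 (enc_add (enc_sub (enc_rat _ 610913 900000) (enc_scaleT 1531 4500 h1)) (enc_mul (enc_norm (bf2q1_3.enc h1 h2)) (enc_norm (enc_subr 369877 3600 (enc_scaleT 22894 225 h1))))))))⟩
noncomputable def kf2q1 : Fn2 := ⟨_, _, fun h1 h2 => (enc_norm (enc_mul (cv2m.enc h1) (bf2q1.enc h1 h2)))⟩
noncomputable def bx2q1_3 : Fn2 := ⟨_, _, fun h1 h2 => (enc_subr 153 160 h2)⟩
noncomputable def bx2q1_6 : Fn2 := ⟨_, _, fun h1 h2 => (enc_scaleT 1 75 h1)⟩
noncomputable def bx2q1 : Fn2 := ⟨_, _, fun h1 h2 => (enc_norm (enc_case (enc_subr 4 5 h1) (enc_add (enc_sub (enc_rat _ 20279 300000) (bx2q1_6.enc h1 h2)) (enc_mul (enc_norm (bx2q1_3.enc h1 h2)) (enc_norm (enc_add (enc_scaleT 481 3000 h1) (enc_rat _ 7 75))))) (enc_case (enc_subr 91 100 h1) (enc_add (enc_sub (enc_rat _ 74383 1100000) (enc_scaleT 147 11000 h1)) (enc_mul (enc_norm (bx2q1_3.enc h1 h2)) (enc_norm (enc_add (enc_scaleT 4 25 h1) (enc_rat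 _ 117 1250))))) (enc_add (enc_sub (enc_rat _ 10139 150000) (bx2q1_6.enc h1 h2)) (enc_mul (enc_norm (bx2q1_3.enc h1 h2)) (enc_norm (enc_add (enc_scaleT 143 900 h1) (enc_rat _ 1703 18000))))))))⟩
noncomputable def l2q1 : Fn2 := ⟨_, _, fun h1 h2 => (enc_norm (enc_mul (cv2m.enc h1) (bx2q1.enc h1 h2)))⟩
noncomputable def bd2q1 : Fn2 := ⟨_, _, fun h1 h2 => (enc_norm (enc_sub (enc_mul (enc_norm (enc_subr 153 160 h2)) (enc_norm (enc_subr 1 1000 (enc_scaleT 127561 500 h1)))) (enc_scaleT 116779 5000 h1)))⟩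
noncomputable def kc2q1 : Fn2 := ⟨_, _, fun h1 h2 => (enc_norm (enc_mul (cv2m.enc h1) (bd2q1.enc h1 h2)))⟩
noncomputable def xc22a : Fn1 := ⟨_, _, fun h1 => (enc_norm (enc_add (enc_scaleT 2 5 h1) (enc_scaleT 3 5 (enc_subr 1 2 (swg.enc (yag.enc h1))))))⟩
noncomputable def bf2q2_3 : Fn2 := ⟨_, _, fun h1 h2 => (enc_subr 153 160 h2)⟩
noncomputable def bf2q2_33 : Fn2 := ⟨_, _, fun h1 h2 => (enc_sub (enc_rat _ 326601 175000) (enc_scaleT 758 875 h1))⟩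
noncomputable def bf2q2 : Fn2 := ⟨_, _, fun h1 h2 => (enc_norm (enc_case (enc_subr 109 100 h1) (enc_case (enc_subr 10303 10000 h1) (enc_add (enc_sub (enc_rat _ 377 202) (enc_scaleT 175 202 h1)) (enc_mul (enc_norm (bf2q2_3.enc h1 h2)) (enc_norm (enc_subr 13341 101 (enc_scaleT 13341 101 h1))))) (enc_case (enc_subr 211 200 h1) (enc_add (enc_sub (enc_rat _ 23044871 12350000) (enc_scaleT 2139 2470 h1)) (enc_mul (enc_norm (bf2q2_3.enc h1 h2)) (enc_norm (enc_subr 326259997 2470000 (enc_scaleT 32626 247 h1))))) (enc_add (bf2q2_33.enc h1 h2) (enc_mul (enc_norm (bf2q2_3.enc h1 h2)) (enc_norm (enc_subr 4623099 35000 (enc_scaleT 46231 350 h1))))))) (enc_case (enc_subr 29 25 h1) (enc_add (bf2q2_33.enc h1 h2) (enc_mul (enc_norm (bf2q2_3.enc h1 h2)) (enc_norm (enc_subr 1320901 10000 (enc_scaleT 13209 100 h1))))) (enc_case (enc_subr 13 10 h1) (enc_add (bf2q2_33.enc h1 h2) (enc_mul (enc_norm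 (bf2q2_3.enc h1 h2)) (enc_norm (enc_subr 9246249 70000 (enc_scaleT 7397 56 h1))))) (enc_add (enc_sub (enc_rat _ 373249 200000) (enc_scaleT 693 800 h1)) (enc_mul (enc_norm (bf2q2_3.enc h1 h2)) (enc_norm (enc_subr 1320889 10000 (enc_scaleT 132089 1000 h1)))))))))⟩
noncomputable def kfc22a : Fn2 := ⟨_, _, fun h1 h2 => (enc_norm (enc_mul (enc_norm (enc_add (enc_scaleT 2 5 h1) (enc_scaleT 3 5 (enc_subr 1 2 (swg.enc (yag.enc h1)))))) (bf2q2.enc (yag.enc h1) h2)))⟩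
noncomputable def bx2q2_3 : Fn2 := ⟨_, _, fun h1 h2 => (enc_subr 153 160 h2)⟩
noncomputable def bx2q2 : Fn2 := ⟨_, _, fun h1 h2 => (enc_norm (enc_case (enc_subr 109 100 h1) (enc_case (enc_subr 10303 10000 h1) (enc_add (enc_sub (enc_rat _ 284 303) (enc_scaleT 284 303 h1)) (enc_mul (enc_norm (bx2q2_3.enc h1 h2)) (enc_norm (enc_subr 543 101 (enc_scaleT 543 101 h1))))) (enc_case (enc_subr 211 200 h1) (enc_add (enc_sub (enc_rat _ 5790067 6175000) (enc_scaleT 1158 1235 h1)) (enc_mul (enc_norm (bx2q2_3.enc h1 h2)) (enc_norm (enc_subr 6634859 1235000 (enc_scaleT 1327 247 h1))))) (enc_add (enc_sub (enc_rat _ 163997 175000) (enc_scaleT 164 175 h1)) (enc_mul (enc_norm (bx2q2_3.enc h1 h2)) (enc_norm (enc_subr 187783 35000 (enc_scaleT 939 175 h1))))))) (enc_case (enc_subr 29 25 h1) (enc_add (enc_sub (enc_rat _ 328103 350000) (enc_scaleT 3281 3500 h1)) (enc_mul (enc_norm (bx2q2_3.enc h1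 h2)) (enc_norm (enc_subr 375021 70000 (enc_scaleT 3751 700 h1))))) (enc_case (enc_subr 13 10 h1) (enc_add (enc_subr 604943 350000 (enc_scaleT 381 280 h1)) (enc_mul (enc_norm (bx2q2_3.enc h1 h2)) (enc_norm (enc_add (enc_scaleT 101 280 h1) (enc_rat _ 6161 14000))))) (enc_add (enc_subr 43213 25000 (enc_scaleT 1701 1250 h1)) (enc_mul (enc_norm (bx2q2_3.enc h1 h2)) (enc_norm (enc_add (enc_scaleT 89 250 h1) (enc_rat _ 2231 5000)))))))))⟩
noncomputable def lc22a : Fn2 := ⟨_, _, fun h1 h2 => (enc_norm (enc_mul (enc_norm (enc_add (enc_scaleT 2 5 h1) (enc_scaleT 3 5 (enc_subr 1 2 (swg.enc (yag.enc h1)))))) (bx2q2.enc (yag.enc h1) h2)))⟩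
noncomputable def bd2q2_3 : Fn2 := ⟨_, _, fun h1 h2 => (enc_subr 153 160 h2)⟩
noncomputable def bd2q2 : Fn2 := ⟨_, _, fun h1 h2 => (enc_norm (enc_case (enc_subr 231 200 h1) (enc_add (enc_subr 37439 1550 (enc_scaleT 37439 1550 h1)) (enc_mul (enc_norm (bd2q2_3.enc h1 h2)) (enc_norm (enc_sub (enc_rat _ 25316 155) (enc_scaleT 25316 155 h1))))) (enc_add (enc_subr 5555467 230000 (enc_scaleT 41666 1725 h1)) (enc_mul (enc_norm (bd2q2_3.enc h1 h2)) (enc_norm (enc_sub (enc_rat _ 751321 4600) (enc_scaleT 18783 115 h1)))))))⟩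
noncomputable def kcc22a : Fn2 := ⟨_, _, fun h1 h2 => (enc_norm (enc_mul (enc_norm (enc_add (enc_scaleT 2 5 h1) (enc_scaleT 3 5 (enc_subr 1 2 (swg.enc (yag.enc h1)))))) (bd2q2.enc (yag.enc h1) h2)))⟩
noncomputable def xc22b : Fn1 := ⟨_, _, fun h1 => (enc_norm (enc_scaleT 3 5 (enc_subr 1 2 (swg.enc h1))))⟩
noncomputable def kfc22b : Fn2 := ⟨_, _, fun h1 h2 => (enc_norm (enc_mul (enc_norm (enc_scaleT 3 5 (enc_subr 1 2 (swg.enc h1)))) (bf2q2.enc h1 h2)))⟩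
noncomputable def lc22b : Fn2 := ⟨_, _, fun h1 h2 => (enc_norm (enc_mul (enc_norm (enc_scaleT 3 5 (enc_subr 1 2 (swg.enc h1)))) (bx2q2.enc h1 h2)))⟩
noncomputable def kcc22b : Fn2 := ⟨_, _, fun h1 h2 => (enc_norm (enc_mul (enc_norm (enc_scaleT 3 5 (enc_subr 1 2 (swg.enc h1)))) (bd2q2.enc h1 h2)))⟩
noncomputable def cv2r : Fn1 := ⟨_, _, fun h1 => (enc_norm (enc_scaleT 3 5 (enc_subr 1 2 (swg.enc h1))))⟩
noncomputable def kf2q3_4 : Fn2 := ⟨_, _, fun h1 h2 => (enc_subr 153 160 h2)⟩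
noncomputable def kf2q3 : Fn2 := ⟨_, _, fun h1 h2 => (enc_norm (enc_mul (cv2r.enc h1) (enc_norm (enc_case (enc_subr 19697 10000 h1) (enc_case (enc_subr 191 100 h1) (enc_add (enc_subr 461013 51250 (enc_scaleT 92441 20500 h1)) (enc_mul (enc_norm (kf2q3_4.enc h1 h2)) (enc_norm (enc_sub (enc_rat _ 375760553 410000) (enc_scaleT 1986097 4100 h1))))) (enc_case (enc_subr 389 200 h1) (enc_add (enc_subr 393557 43750 (enc_scaleT 15783 3500 h1)) (enc_mul (enc_norm (kf2q3_4.enc h1 h2)) (enc_norm (enc_sub (enc_rat _ 16038573 17500) (enc_scaleT 33909 70 h1))))) (enc_add (enc_subr 8887417 988000 (enc_scaleT 5569 1235 h1)) (enc_mul (enc_norm (kf2q3_4.enc h1 h2)) (enc_norm (enc_sub (enc_rat _ 2263723627 2470000) (enc_scaleT 119650 247 h1))))))) (enc_case (enc_sub (enc_rat _ 215220381 1000000000) (c3g.enc h1)) (enc_case (enc_sub (enc_rat _ 33784661 125000000) (c3g.enc h1)) (enc_add (enc_subr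 1397598034699 3007489300000 (enc_scaleT 35180000 30074893 (c3g.enc h1))) (enc_mul (enc_norm (kf2q3_4.enc h1 h2)) (enc_norm (enc_sub (enc_rat _ 11289636751 75187232500) (enc_scaleT 3786100000 30074893 (c3g.enc h1)))))) (enc_add (enc_subr 2557915533629 5505690700000 (enc_scaleT 64380000 55056907 (c3g.enc h1))) (enc_mul (enc_norm (kf2q3_4.enc h1 h2)) (enc_norm (enc_sub (enc_rat _ 20692994033 137642267500) (enc_scaleT 6931100000 55056907 (c3g.enc h1))))))) (enc_case (enc_sub (enc_rat _ 141655683 1000000000) (c3g.enc h1)) (enc_add (enc_subr 569694878773 1226078300000 (enc_scaleT 14340000 12260783 (c3g.enc h1))) (enc_mul (enc_norm (kf2q3_4.enc h1 h2)) (enc_norm (enc_sub (enc_rat _ 18489731691 122607830000) (enc_scaleT 4630600000 36782349 (c3g.enc h1)))))) (enc_add (enc_subr 46463 100000 (enc_scaleT 55220000 47218561 (c3g.enc h1))) (enc_mul (enc_norm (kf2q3_4.enc h1 h2)) (enc_norm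 (enc_sub (enc_rat _ 1509 10000) (enc_scaleT 1371800000 10896591 (c3g.enc h1))))))))))))⟩
noncomputable def l2q3_4 : Fn2 := ⟨_, _, fun h1 h2 => (enc_subr 153 160 h2)⟩
noncomputable def l2q3 : Fn2 := ⟨_, _, fun h1 h2 => (enc_norm (enc_mul (cv2r.enc h1) (enc_norm (enc_case (enc_subr 19697 10000 h1) (enc_case (enc_subr 191 100 h1) (enc_add (enc_subr 1771703 1025000 (enc_scaleT 6974 5125 h1)) (enc_mul (enc_norm (l2q3_4.enc h1 h2)) (enc_norm (enc_add (enc_scaleT 1453 4100 h1) (enc_rat _ 45983 102500))))) (enc_case (enc_subr 389 200 h1) (enc_add (enc_subr 605023 350000 (enc_scaleT 4763 3500 h1)) (enc_mul (enc_norm (l2q3_4.enc h1 h2)) (enc_norm (enc_add (enc_scaleT 62 175 h1) (enc_rat _ 31417 70000))))) (enc_add (enc_subr 42691169 24700000 (enc_scaleT 3361 2470 h1)) (enc_mul (enc_norm (l2q3_4.enc h1 h2)) (enc_norm (enc_add (enc_scaleT 88 247 h1) (enc_rat _ 1099013 2470000))))))) (enc_case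 (enc_sub (enc_rat _ 215220381 1000000000) (c3g.enc h1)) (enc_case (enc_sub (enc_rat _ 33784661 125000000) (c3g.enc h1)) (enc_add (enc_add (enc_scaleT 5220000 30074893 (c3g.enc h1)) (enc_rat _ 270586477683 300748930000)) (enc_mul (enc_norm (l2q3_4.enc h1 h2)) (enc_norm (enc_sub (enc_rat _ 2125774808149 150374465000) (enc_scaleT 1300700000 30074893 (c3g.enc h1)))))) (enc_add (enc_add (enc_scaleT 12120000 55056907 (c3g.enc h1)) (enc_rat _ 2442110428689 2752845350000)) (enc_mul (enc_norm (l2q3_4.enc h1 h2)) (enc_norm (enc_subr 155073932693 275284535000 (enc_scaleT 613300000 55056907 (c3g.enc h1))))))) (enc_case (enc_sub (enc_rat _ 141655683 1000000000) (c3g.enc h1)) (enc_add (enc_add (enc_scaleT 8095000 36782349 (c3g.enc h1)) (enc_rat _ 2175393077087 2452156600000)) (enc_mul (enc_norm (l2q3_4.enc h1 h2)) (enc_norm (enc_subr 27603363701 49043132000 (enc_scaleT 136550000 12260783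 (c3g.enc h1)))))) (enc_add (enc_add (enc_scaleT 10390000 47218561 (c3g.enc h1)) (enc_rat _ 44357 50000)) (enc_mul (enc_norm (l2q3_4.enc h1 h2)) (enc_norm (enc_subr 1407 2500 (enc_scaleT 1577600000 141655683 (c3g.enc h1))))))))))))⟩
noncomputable def kc2q3_4 : Fn2 := ⟨_, _, fun h1 h2 => (enc_subr 153 160 h2)⟩
noncomputable def kc2q3 : Fn2 := ⟨_, _, fun h1 h2 => (enc_norm (enc_mul (cv2r.enc h1) (enc_norm (enc_case (enc_subr 19697 10000 h1) (enc_case (enc_subr 389 200 h1) (enc_add (enc_subr 21497181 890000 (enc_scaleT 53743 2225 h1)) (enc_mul (enc_norm (kc2q3_4.enc h1 h2)) (enc_norm (enc_sub (enc_rat _ 2907283 17800) (enc_scaleT 72682 445 h1))))) (enc_add (enc_subr 3139959 130000 (enc_scaleT 314 13 h1)) (enc_mul (enc_norm (kc2q3_4.enc h1 h2)) (enc_norm (enc_sub (enc_rat _ 40337591 247000) (enc_scaleT 40340 247 h1)))))) (enc_case (enc_sub (enc_rat _ 298872883 1000000000) (c3g.enc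 h1)) (enc_add (enc_add (enc_scaleT 41650000 739649 (c3g.enc h1)) (enc_rat _ 96292248681 14792980000)) (enc_mul (enc_norm (kc2q3_4.enc h1 h2)) (enc_norm (enc_subr 109646541423 1479298000 (enc_neg (enc_scaleT 207500000 739649 (c3g.enc h1))))))) (enc_add (enc_add (enc_scaleT 16824500000 298872883 (c3g.enc h1)) (enc_rat _ 13029 2000)) (enc_mul (enc_norm (kc2q3_4.enc h1 h2)) (enc_norm (enc_subr 74139 1000 (enc_neg (enc_scaleT 83827000000 298872883 (c3g.enc h1))))))))))))⟩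
noncomputable def cv3m : Fn1 := ⟨_, _, fun h1 => (enc_norm (enc_add (enc_scaleT 9481 10000 (enc_add (swg.enc h1) (enc_rat _ 1 2))) (enc_scaleT 519 10000 (c3g.enc h1))))⟩
noncomputable def esg : Fn1 := ⟨_, _, fun h1 => (enc_norm (enc_subn 1 (enc_add (enc_half h1) (gsg.enc h1))))⟩
noncomputable def kf3q0_4 : Fn2 := ⟨_, _, fun h1 h2 => (enc_subr 153 160 h2)⟩
noncomputable def kf3q0_137 : Fn2 := ⟨_, _, fun h1 h2 => (enc_sub (enc_pnc _ 1) h1)⟩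
noncomputable def kf3q0_138 : Fn2 := ⟨_, _, fun h1 h2 => (gsg.enc (enc_norm (kf3q0_137.enc h1 h2)))⟩
noncomputable def kf3q0_141 : Fn2 := ⟨_, _, fun h1 h2 => (enc_sub (enc_scaleT 3 4 (kf3q0_137.enc h1 h2)) (enc_half (kf3q0_138.enc h1 h2)))⟩
noncomputable def kf3q0_142 : Fn2 := ⟨_, _, fun h1 h2 => (esg.enc (enc_norm (kf3q0_137.enc h1 h2)))⟩
noncomputable def kf3q0_143 : Fn2 := ⟨_, _, fun h1 h2 => (kcg.enc (enc_norm (kf3q0_141.enc h1 h2)) h2)⟩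
noncomputable def kf3q0_150 : Fn2 := ⟨_, _, fun h1 h2 => (enc_sub (kf3q0_141.enc h1 h2) (enc_sub (enc_rat _ 1 4) (enc_scaleT 3 8 (enc_mul (enc_norm (kf3q0_137.enc h1 h2)) (enc_inv (kf3q0_138.enc h1 h2))))))⟩
noncomputable def kf3q0_159 : Fn2 := ⟨_, _, fun h1 h2 => (enc_mul (cv2m.enc h1) (bf2q0.enc h1 h2))⟩
noncomputable def kf3q0 : Fn2 := ⟨_, _, fun h1 h2 => (enc_norm (enc_case (enc_subr 303 10000 h1) (enc_mul (cv3m.enc h1) (enc_norm (enc_case (enc_subr 31 2000 h1) (enc_case (enc_subr 67 10000 h1) (enc_add (enc_sub (enc_rat _ 19069 20000) (enc_scaleT 2066 335 h1)) (enc_mul (enc_norm (kf3q0_4.enc h1 h2)) (enc_norm (enc_subr 239 625 (enc_neg (enc_scaleT 3199 67 h1)))))) (enc_add (enc_sub (enc_rat _ 8390353 8800000) (enc_scaleT 5427 880 h1)) (enc_mul (enc_norm (kf3q0_4.enc h1 h2)) (enc_norm (enc_subr 3059 8000 (enc_neg (enc_scaleT 191 4 h1))))))) (enc_case (enc_subr 49 2000 h1)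 (enc_add (enc_sub (enc_rat _ 286033 300000) (enc_scaleT 37 6 h1)) (enc_mul (enc_norm (kf3q0_4.enc h1 h2)) (enc_norm (enc_subr 17203 45000 (enc_neg (enc_scaleT 2149 45 h1)))))) (enc_add (enc_sub (enc_rat _ 552980653 580000000) (enc_scaleT 1787997 290000 h1)) (enc_mul (enc_norm (kf3q0_4.enc h1 h2)) (enc_norm (enc_subr 277237937 725000000 (enc_neg (enc_scaleT 17309787 362500 h1)))))))))) (enc_case (enc_subr 11 200 h1) (enc_add (kf3q0_159.enc h1 h2) (enc_mul (enc_norm (enc_mul (enc_norm (enc_sub (enc_wB0 (enc_mul h1 (enc_norm (enc_sub (enc_mul (enc_norm (kf3q0_150.enc h1 h2)) (enc_inv (kf3q0_142.enc h1 h2))) (kf3q0_143.enc h1 h2)))) (kf3q0_137.enc h1 h2) (kf3q0_138.enc h1 h2) (kf3q0_142.enc h1 h2) h1 (kf3q0_150.enc h1 h2) (kf3q0_143.enc h1 h2) rfl rfl rfl rfl) (kf3q0_159.enc h1 h2))) (enc_norm (enc_sub (cv3m.enc h1) (cv2m.enc h1))))) (enc_inv (enc_sub (enc_add (swg.enc h1) (enc_rat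 _ 1 2)) (cv2m.enc h1))))) (enc_mul (cv3m.enc h1) (enc_norm (enc_case (enc_subr 4 25 h1) (enc_case (enc_subr 7 100 h1) (enc_add (enc_sub (enc_rat _ 4685015503 5000000000) (enc_scaleT 214937929 50000000 h1)) (enc_mul (enc_norm (kf3q0_4.enc h1 h2)) (enc_norm (enc_subr 3389900387 750000000 (enc_scaleT 387489341 7500000 h1))))) (enc_case (enc_subr 1 10 h1) (enc_add (enc_sub (enc_rat _ 281113 300000) (enc_scaleT 6449 1500 h1)) (enc_mul (enc_norm (kf3q0_4.enc h1 h2)) (enc_norm (enc_subr 16949 3750 (enc_scaleT 15499 300 h1))))) (enc_add (enc_sub (enc_rat _ 93701 100000) (enc_scaleT 4299 1000 h1)) (enc_mul (enc_norm (kf3q0_4.enc h1 h2)) (enc_norm (enc_subr 45199 10000 (enc_scaleT 10333 200 h1))))))) (enc_case (enc_subr 1 4 h1) (enc_add (enc_sub (enc_rat _ 843341 900000) (enc_scaleT 38693 9000 h1)) (enc_mul (enc_norm (kf3q0_4.enc h1 h2)) (enc_norm (enc_subr 406783 90000 (enc_scaleT 23249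 450 h1))))) (enc_case (enc_subr 7 20 h1) (enc_add (enc_sub (enc_rat _ 187403 200000) (enc_scaleT 42991 10000 h1)) (enc_mul (enc_norm (kf3q0_4.enc h1 h2)) (enc_norm (enc_subr 45197 10000 (enc_scaleT 6458 125 h1))))) (enc_add (enc_sub (enc_rat _ 70277 75000) (enc_scaleT 64487 15000 h1)) (enc_mul (enc_norm (kf3q0_4.enc h1 h2)) (enc_norm (enc_subr 67799 15000 (enc_scaleT 77497 1500 h1)))))))))))))⟩
noncomputable def qsg : Fn1 := ⟨_, _, fun h1 => (enc_norm (enc_mul (enc_norm (enc_sub (enc_pnc _ 1) (gsg.enc h1))) (enc_norm (enc_subn 1 (enc_nat 2 (gsg.enc h1))))))⟩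
noncomputable def l3q0_4 : Fn2 := ⟨_, _, fun h1 h2 => (enc_subr 153 160 h2)⟩
noncomputable def l3q0_49 : Fn2 := ⟨_, _, fun h1 h2 => (enc_sq (enc_norm (l3q0_4.enc h1 h2)))⟩
noncomputable def l3q0_134 : Fn2 := ⟨_, _, fun h1 h2 => (enc_sub (enc_pnc _ 1) h1)⟩
noncomputable def l3q0_149 : Fn2 := ⟨_, _, fun h1 h2 => (enc_mul (cv2m.enc h1) (bx2q0.enc h1 h2))⟩
noncomputable def l3q0 : Fn2 := ⟨_, _, fun h1 h2 => (enc_norm (enc_case (enc_subr 303 10000 h1) (enc_mul (cv3m.enc h1) (enc_norm (enc_case (enc_subr 31 2000 h1) (enc_case (enc_subr 67 10000 h1) (enc_add (enc_add (enc_scaleT 343 335 h1) (enc_rat _ 3297 100000)) (enc_mul (enc_norm (l3q0_4.enc h1 h2)) (enc_norm (enc_add (enc_scaleT 6 67 h1) (enc_rat _ 13 250))))) (enc_add (enc_add (enc_scaleT 901 880 h1) (enc_rat _ 290137 8800000)) (enc_mul (enc_norm (l3q0_4.enc h1 h2)) (enc_norm (enc_add (enc_scaleT 1 11 h1) (enc_rat _ 5719 110000))))))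 (enc_case (enc_subr 49 2000 h1) (enc_add (enc_add (enc_scaleT 911 900 h1) (enc_rat _ 59671 1800000)) (enc_mul (enc_norm (l3q0_4.enc h1 h2)) (enc_norm (enc_add (enc_scaleT 1 15 h1) (enc_rat _ 1571 30000))))) (enc_add (enc_add (enc_add (enc_scaleT 50361739 58000000 h1) (enc_rat _ 4254474789 116000000000)) (enc_mul (enc_norm (l3q0_4.enc h1 h2)) (enc_norm (enc_sub (enc_rat _ 730032839 2900000000) (enc_scaleT 11702711 1450000 h1))))) (enc_mul (l3q0_49.enc h1 h2) (enc_norm (enc_subr 1185359 464000 (enc_scaleT 24191 232 h1))))))))) (enc_case (enc_subr 11 200 h1) (enc_add (l3q0_149.enc h1 h2) (enc_mul (enc_norm (enc_mul (enc_norm (enc_sub (enc_sub (qsg.enc (enc_norm (l3q0_134.enc h1 h2))) (enc_mul (enc_norm (enc_nat 2 (enc_sub (l3q0_134.enc h1 h2) h2))) (enc_norm (enc_mul (esg.enc (enc_norm (l3q0_134.enc h1 h2))) (kcg.enc (enc_norm (enc_sub (enc_scaleT 3 4 (l3q0_134.enc h1 h2)) (enc_half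 (gsg.enc (enc_norm (l3q0_134.enc h1 h2)))))) h2))))) (l3q0_149.enc h1 h2))) (enc_norm (enc_sub (cv3m.enc h1) (cv2m.enc h1))))) (enc_inv (enc_sub (enc_add (swg.enc h1) (enc_rat _ 1 2)) (cv2m.enc h1))))) (enc_mul (cv3m.enc h1) (enc_norm (enc_case (enc_subr 4 25 h1) (enc_case (enc_subr 7 100 h1) (enc_add (enc_add (enc_add (enc_scaleT 2065907 18750000 h1) (enc_rat _ 142644901 1875000000)) (enc_mul (enc_norm (l3q0_4.enc h1 h2)) (enc_norm (enc_sub (enc_rat _ 1598028583 1500000000) (enc_scaleT 258418369 15000000 h1))))) (enc_mul (l3q0_49.enc h1 h2) (enc_norm (enc_sub (enc_rat _ 512323 300000) (enc_scaleT 73189 3000 h1))))) (enc_case (enc_subr 1 10 h1) (enc_add (enc_add (enc_scaleT 11 100 h1) (enc_rat _ 7609 100000)) (enc_mul (enc_norm (l3q0_4.enc h1 h2)) (enc_norm (enc_sub (enc_rat _ 107 2500) (enc_scaleT 131 50 h1))))) (enc_add (enc_add (enc_scaleT 331 3000 h1) (enc_rat _ 22817 300000))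 (enc_mul (enc_norm (l3q0_4.enc h1 h2)) (enc_norm (enc_sub (enc_rat _ 301 7500) (enc_scaleT 389 150 h1))))))) (enc_case (enc_subr 1 4 h1) (enc_add (enc_add (enc_scaleT 991 9000 h1) (enc_rat _ 68483 900000)) (enc_mul (enc_norm (l3q0_4.enc h1 h2)) (enc_norm (enc_sub (enc_rat _ 87 2500) (enc_scaleT 64 25 h1))))) (enc_case (enc_subr 7 20 h1) (enc_add (enc_add (enc_scaleT 1099 10000 h1) (enc_rat _ 15229 200000)) (enc_mul (enc_norm (l3q0_4.enc h1 h2)) (enc_norm (enc_sub (enc_rat _ 13 625) (enc_scaleT 313 125 h1))))) (enc_add (enc_sub (enc_rat _ 13081 75000) (enc_scaleT 2563 15000 h1)) (enc_mul (enc_norm (l3q0_4.enc h1 h2)) (enc_norm (enc_subr 15193 15000 (enc_scaleT 337 750 h1)))))))))))))⟩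
noncomputable def kc3q0_4 : Fn2 := ⟨_, _, fun h1 h2 => (enc_subr 153 160 h2)⟩
noncomputable def kc3q0_16 : Fn2 := ⟨_, _, fun h1 h2 => (enc_mul (enc_norm (kc3q0_4.enc h1 h2)) (enc_norm (enc_subr 1149 1000 (enc_scaleT 3971 5 h1))))⟩
noncomputable def kc3q0_53 : Fn2 := ⟨_, _, fun h1 h2 => (enc_sub (enc_pnc _ 1) h1)⟩
noncomputable def kc3q0_54 : Fn2 := ⟨_, _, fun h1 h2 => (gsg.enc (enc_norm (kc3q0_53.enc h1 h2)))⟩
noncomputable def kc3q0_58 : Fn2 := ⟨_, _, fun h1 h2 => (esg.enc (enc_norm (kc3q0_53.enc h1 h2)))⟩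
noncomputable def kc3q0_62 : Fn2 := ⟨_, _, fun h1 h2 => (gug.enc (enc_norm (kc3q0_53.enc h1 h2)))⟩
noncomputable def kc3q0_64 : Fn2 := ⟨_, _, fun h1 h2 => (enc_mul (enc_norm (kc3q0_53.enc h1 h2)) (enc_inv (kc3q0_54.enc h1 h2)))⟩
noncomputable def kc3q0_65 : Fn2 := ⟨_, _, fun h1 h2 => (enc_scaleT 3 4 (kc3q0_64.enc h1 h2))⟩
noncomputable def kc3q0_95 : Fn2 := ⟨_, _, fun h1 h2 => (enc_mul (cv2m.enc h1) (bd2q0.enc h1 h2))⟩
noncomputable def kc3q0 : Fn2 := ⟨_, _, fun h1 h2 => (enc_norm (enc_case (enc_subr 303 10000 h1) (enc_mul (cv3m.enc h1) (enc_norm (enc_case (enc_subr 1 100 h1) (enc_add (enc_subr 1583 5000 (enc_neg (enc_scaleT 1941 50 h1))) (kc3q0_16.enc h1 h2)) (enc_case (enc_subr 3 100 h1) (enc_add (enc_subr 6333 20000 (enc_neg (enc_scaleT 7763 200 h1))) (kc3q0_16.enc h1 h2)) (enc_add (enc_subr 7933087 25000000 (enc_neg (enc_scaleT 29094413 750000 h1))) (enc_mul (enc_norm (kc3q0_4.enc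 h1 h2)) (enc_norm (enc_subr 5576121 5000000 (enc_scaleT 39653707 50000 h1))))))))) (enc_case (enc_subr 11 200 h1) (enc_add (kc3q0_95.enc h1 h2) (enc_mul (enc_norm (enc_mul (enc_norm (enc_sub (enc_add (enc_sub (enc_neg (enc_add (enc_add (enc_rat _ 3 4) (enc_scaleT 3 2 (kc3q0_53.enc h1 h2))) (enc_scaleT 3 4 (enc_mul (enc_norm (kc3q0_64.enc h1 h2)) (kc3q0_62.enc h1 h2))))) (enc_wT (enc_mul (enc_norm (enc_sub (enc_mul (enc_norm (enc_mul (enc_norm (kc3q0_65.enc h1 h2)) (enc_norm (enc_subn 3 (enc_nat 4 (kc3q0_54.enc h1 h2)))))) (kc3q0_58.enc h1 h2)) (enc_mul (qsg.enc (enc_norm (kc3q0_53.enc h1 h2))) (enc_norm (enc_sub (enc_rat _ 1 2) (kc3q0_65.enc h1 h2)))))) (enc_inv (enc_mul (enc_nat 2 (kc3q0_58.enc h1 h2)) (kc3q0_58.enc h1 h2)))) (kc3q0_53.enc h1 h2) (kc3q0_54.enc h1 h2) (kc3q0_58.enc h1 h2) rfl rfl rfl rfl)) (enc_mul (kcg.enc (enc_norm (enc_sub (enc_scaleT 3 4 (kc3q0_53.enc h1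 h2)) (enc_half (kc3q0_54.enc h1 h2)))) h2) (enc_norm (enc_add (enc_pnc _ 1) (enc_add (kc3q0_62.enc h1 h2) (enc_nat 2 (kc3q0_54.enc h1 h2))))))) (kc3q0_95.enc h1 h2))) (enc_norm (enc_sub (cv3m.enc h1) (cv2m.enc h1))))) (enc_inv (enc_sub (enc_add (swg.enc h1) (enc_rat _ 1 2)) (cv2m.enc h1))))) (enc_mul (cv3m.enc h1) (enc_norm (enc_add (enc_subr 3213039919 8900000000 (enc_scaleT 1606589919 4450000000 h1)) (enc_mul (enc_norm (kc3q0_4.enc h1 h2)) (enc_norm (enc_subr 608633059 445000000 (enc_scaleT 304253059 222500000 h1))))))))))⟩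
noncomputable def bf3q1_3 : Fn2 := ⟨_, _, fun h1 h2 => (enc_subr 153 160 h2)⟩
noncomputable def bf3q1 : Fn2 := ⟨_, _, fun h1 h2 => (enc_norm (enc_case (enc_subr 4 5 h1) (enc_add (enc_subr 328451 300000 (enc_scaleT 12569 6000 h1)) (enc_mul (enc_norm (bf3q1_3.enc h1 h2)) (enc_norm (enc_sub (enc_rat _ 2362039 30000) (enc_scaleT 59051 750 h1))))) (enc_case (enc_subr 91 100 h1) (enc_add (enc_subr 1204387 1100000 (enc_scaleT 5761 2750 h1)) (enc_mul (enc_norm (bf3q1_3.enc h1 h2)) (enc_norm (enc_sub (enc_rat _ 8660799 110000) (enc_scaleT 21652 275 h1))))) (enc_add (enc_subr 9853 9000 (enc_scaleT 18853 9000 h1)) (enc_mul (enc_norm (bf3q1_3.enc h1 h2)) (enc_norm (enc_sub (enc_rat _ 70861 900) (enc_scaleT 70861 900 h1))))))))⟩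
noncomputable def kf3q1 : Fn2 := ⟨_, _, fun h1 h2 => (enc_norm (enc_mul (cv3m.enc h1) (bf3q1.enc h1 h2)))⟩
noncomputable def bx3q1_3 : Fn2 := ⟨_, _, fun h1 h2 => (enc_subr 153 160 h2)⟩
noncomputable def bx3q1 : Fn2 := ⟨_, _, fun h1 h2 => (enc_norm (enc_case (enc_subr 4 5 h1) (enc_add (enc_sub (enc_rat _ 53389 300000) (enc_scaleT 5339 30000 h1)) (enc_mul (enc_norm (bx3q1_3.enc h1 h2)) (enc_norm (enc_subr 47291 30000 (enc_scaleT 4729 3000 h1))))) (enc_case (enc_subr 91 100 h1) (enc_add (enc_sub (enc_rat _ 195709 1100000) (enc_scaleT 1957 11000 h1)) (enc_mul (enc_norm (bx3q1_3.enc h1 h2)) (enc_norm (enc_subr 173483 110000 (enc_scaleT 347 220 h1))))) (enc_add (enc_sub (enc_rat _ 89 500) (enc_scaleT 89 500 h1)) (enc_mul (enc_norm (bx3q1_3.enc h1 h2)) (enc_norm (enc_subr 709 450 (enc_scaleT 709 450 h1))))))))⟩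
noncomputable def l3q1 : Fn2 := ⟨_, _, fun h1 h2 => (enc_norm (enc_mul (cv3m.enc h1) (bx3q1.enc h1 h2)))⟩
noncomputable def bd3q1 : Fn2 := ⟨_, _, fun h1 h2 => (enc_norm (enc_add (enc_subr 361 1000 (enc_scaleT 361 1000 h1)) (enc_mul (enc_norm (enc_subr 153 160 h2)) (enc_norm (enc_subr 171 125 (enc_scaleT 171 125 h1))))))⟩
noncomputable def kc3q1 : Fn2 := ⟨_, _, fun h1 h2 => (enc_norm (enc_mul (cv3m.enc h1) (bd3q1.enc h1 h2)))⟩
noncomputable def cv3p : Fn1 := ⟨_, _, fun h1 => (enc_norm (enc_add (enc_scaleT 9481 10000 (enc_subr 1 2 (swg.enc h1))) (enc_scaleT 519 10000 (c3g.enc h1))))⟩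
noncomputable def bf3q2_3 : Fn2 := ⟨_, _, fun h1 h2 => (enc_subr 153 160 h2)⟩
noncomputable def bf3q2_31 : Fn2 := ⟨_, _, fun h1 h2 => (enc_add (enc_scaleT 332 875 h1) (enc_rat _ 188539 350000))⟩
noncomputable def bf3q2 : Fn2 := ⟨_, _, fun h1 h2 => (enc_norm (enc_case (enc_subr 211 200 h1) (enc_case (enc_subr 10303 10000 h1) (enc_add (enc_add (enc_scaleT 115 303 h1) (enc_rat _ 16318733 30300000)) (enc_mul (enc_norm (bf3q2_3.enc h1 h2)) (enc_norm (enc_sub (enc_rat _ 296819203 3030000) (enc_scaleT 29491 303 h1))))) (enc_add (enc_add (enc_scaleT 937 2470 h1) (enc_rat _ 415858 771875)) (enc_mul (enc_norm (bf3q2_3.enc h1 h2)) (enc_norm (enc_sub (enc_rat _ 24195619 247000) (enc_scaleT 24040 247 h1)))))) (enc_case (enc_subr 29 25 h1) (enc_add (bf3q2_31.enc h1 h2) (enc_mul (enc_norm (bf3q2_3.enc h1 h2)) (enc_norm (enc_sub (enc_rat _ 1371421 14000) (enc_scaleT 6813 70 h1))))) (enc_case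 (enc_subr 13 10 h1) (enc_add (bf3q2_31.enc h1 h2) (enc_mul (enc_norm (bf3q2_3.enc h1 h2)) (enc_norm (enc_sub (enc_rat _ 6857047 70000) (enc_scaleT 136259 1400 h1))))) (enc_add (enc_add (enc_scaleT 7589 20000 h1) (enc_rat _ 107731 200000)) (enc_mul (enc_norm (bf3q2_3.enc h1 h2)) (enc_norm (enc_sub (enc_rat _ 48979 500) (enc_scaleT 12166 125 h1)))))))))⟩
noncomputable def kf3q2 : Fn2 := ⟨_, _, fun h1 h2 => (enc_norm (enc_mul (cv3p.enc h1) (bf3q2.enc h1 h2)))⟩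
noncomputable def bx3q2_3 : Fn2 := ⟨_, _, fun h1 h2 => (enc_subr 153 160 h2)⟩
noncomputable def bx3q2 : Fn2 := ⟨_, _, fun h1 h2 => (enc_norm (enc_case (enc_subr 109 100 h1) (enc_case (enc_subr 10303 10000 h1) (enc_add (enc_subr 991511 10100000 (enc_scaleT 98 505 h1)) (enc_mul (enc_norm (bx3q2_3.enc h1 h2)) (enc_norm (enc_subr 2529823 303000 (enc_scaleT 2578 303 h1))))) (enc_case (enc_subr 211 200 h1) (enc_add (enc_subr 1210709 12350000 (enc_scaleT 479 2470 h1)) (enc_mul (enc_norm (bx3q2_3.enc h1 h2)) (enc_norm (enc_subr 20617107 2470000 (enc_scaleT 2101 247 h1))))) (enc_add (enc_subr 9811 100000 (enc_scaleT 97 500 h1)) (enc_mul (enc_norm (bx3q2_3.enc h1 h2)) (enc_norm (enc_subr 583209 70000 (enc_scaleT 1486 175 h1))))))) (enc_case (enc_subr 29 25 h1) (enc_add (enc_subr 34393 350000 (enc_scaleT 1359 7000 h1)) (enc_mul (enc_norm (bx3q2_3.enc h1 h2)) (enc_norm (enc_subr 116293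 14000 (enc_scaleT 1482 175 h1))))) (enc_case (enc_subr 13 10 h1) (enc_add (enc_subr 325959 350000 (enc_scaleT 3193 3500 h1)) (enc_mul (enc_norm (bx3q2_3.enc h1 h2)) (enc_norm (enc_sub (enc_rat _ 57243 14000) (enc_scaleT 388 175 h1))))) (enc_add (enc_subr 11913 12500 (enc_scaleT 929 1000 h1)) (enc_mul (enc_norm (bx3q2_3.enc h1 h2)) (enc_norm (enc_sub (enc_rat _ 16799 4000) (enc_scaleT 921 400 h1)))))))))⟩
noncomputable def l3q2 : Fn2 := ⟨_, _, fun h1 h2 => (enc_norm (enc_mul (cv3p.enc h1) (bx3q2.enc h1 h2)))⟩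
noncomputable def bd3q2_3 : Fn2 := ⟨_, _, fun h1 h2 => (enc_subr 153 160 h2)⟩
noncomputable def bd3q2 : Fn2 := ⟨_, _, fun h1 h2 => (enc_norm (enc_case (enc_subr 231 200 h1) (enc_add (enc_subr 319673 62000 (enc_scaleT 878 155 h1)) (enc_mul (enc_norm (bd3q2_3.enc h1 h2)) (enc_norm (enc_sub (enc_rat _ 125052 3875) (enc_scaleT 3276 155 h1))))) (enc_add (enc_subr 296479 57500 (enc_scaleT 19543 3450 h1)) (enc_mul (enc_norm (bd3q2_3.enc h1 h2)) (enc_norm (enc_sub (enc_rat _ 92783 2875) (enc_scaleT 7292 345 h1)))))))⟩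
noncomputable def kc3q2 : Fn2 := ⟨_, _, fun h1 h2 => (enc_norm (enc_mul (cv3p.enc h1) (bd3q2.enc h1 h2)))⟩
noncomputable def ycg : Fn1 := ⟨_, _, fun h1 => (enc_sqrtg (enc_scaleT 4 3 (enc_sub (enc_pnc _ 3) (enc_sq h1))))⟩
noncomputable def xc33 : Fn1 := ⟨_, _, fun h1 => (enc_norm (enc_add (enc_scaleT 9481 10000 (enc_subr 1 2 (swg.enc (ycg.enc h1)))) (enc_scaleT 519 10000 h1)))⟩
noncomputable def kfc33_6 : Fn2 := ⟨_, _, fun h1 h2 => (enc_subr 1 2 (swg.enc (ycg.enc h1)))⟩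
noncomputable def kfc33_9 : Fn2 := ⟨_, _, fun h1 h2 => (enc_add (enc_scaleT 9481 10000 (kfc33_6.enc h1 h2)) (enc_scaleT 519 10000 h1))⟩
noncomputable def kfc33_11 : Fn2 := ⟨_, _, fun h1 h2 => (enc_subr 153 160 h2)⟩
noncomputable def kfc33_13 : Fn2 := ⟨_, _, fun h1 h2 => (enc_subr 191 100 (ycg.enc h1))⟩
noncomputable def kfc33_37 : Fn2 := ⟨_, _, fun h1 h2 => (enc_sub (enc_rat _ 215220381 1000000000) h1)⟩
noncomputable def kfc33_39 : Fn2 := ⟨_, _, fun h1 h2 => (enc_sub (enc_rat _ 33784661 125000000) h1)⟩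
noncomputable def kfc33_62 : Fn2 := ⟨_, _, fun h1 h2 => (enc_sub (enc_rat _ 141655683 1000000000) h1)⟩
noncomputable def kfc33_86 : Fn2 := ⟨_, _, fun h1 h2 => (enc_subn 1 (ycg.enc h1))⟩
noncomputable def kfc33_87 : Fn2 := ⟨_, _, fun h1 h2 => (gsg.enc (enc_norm (kfc33_86.enc h1 h2)))⟩
noncomputable def kfc33_88 : Fn2 := ⟨_, _, fun h1 h2 => (enc_scaleT 3 4 (kfc33_86.enc h1 h2))⟩
noncomputable def kfc33_89 : Fn2 := ⟨_, _, fun h1 h2 => (enc_half (kfc33_87.enc h1 h2))⟩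
noncomputable def kfc33_91 : Fn2 := ⟨_, _, fun h1 h2 => (esg.enc (enc_norm (kfc33_86.enc h1 h2)))⟩
noncomputable def kfc33_92 : Fn2 := ⟨_, _, fun h1 h2 => (kcg.enc (enc_norm (enc_sub (kfc33_88.enc h1 h2) (kfc33_89.enc h1 h2))) h2)⟩
noncomputable def kfc33_94 : Fn2 := ⟨_, _, fun h1 h2 => (enc_subn 2 (ycg.enc h1))⟩
noncomputable def kfc33_101 : Fn2 := ⟨_, _, fun h1 h2 => (enc_sub (enc_sub (kfc33_89.enc h1 h2) (kfc33_88.enc h1 h2)) (enc_sub (enc_rat _ 1 4) (enc_scaleT 3 8 (enc_mul (enc_norm (kfc33_86.enc h1 h2)) (enc_inv (kfc33_87.enc h1 h2))))))⟩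
noncomputable def kfc33_107 : Fn2 := ⟨_, _, fun h1 h2 => (cv2r.enc (ycg.enc h1))⟩
noncomputable def kfc33_109 : Fn2 := ⟨_, _, fun h1 h2 => (enc_subr 19697 10000 (ycg.enc h1))⟩
noncomputable def kfc33_121 : Fn2 := ⟨_, _, fun h1 h2 => (enc_subr 389 200 (ycg.enc h1))⟩
noncomputable def kfc33_188 : Fn2 := ⟨_, _, fun h1 h2 => (enc_mul (kfc33_107.enc h1 h2) (enc_norm (enc_case (kfc33_109.enc h1 h2) (enc_case (kfc33_13.enc h1 h2) (enc_add (enc_subr 461013 51250 (enc_scaleT 92441 20500 (ycg.enc h1))) (enc_mul (enc_norm (kfc33_11.enc h1 h2)) (enc_norm (enc_sub (enc_rat _ 375760553 410000) (enc_scaleT 1986097 4100 (ycg.enc h1)))))) (enc_case (kfc33_121.enc h1 h2) (enc_add (enc_subr 393557 43750 (enc_scaleT 15783 3500 (ycg.enc h1))) (enc_mul (enc_norm (kfc33_11.enc h1 h2)) (enc_norm (enc_sub (enc_rat _ 16038573 17500) (enc_scaleT 33909 70 (ycg.enc h1)))))) (enc_add (enc_subr 8887417 988000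 (enc_scaleT 5569 1235 (ycg.enc h1))) (enc_mul (enc_norm (kfc33_11.enc h1 h2)) (enc_norm (enc_sub (enc_rat _ 2263723627 2470000) (enc_scaleT 119650 247 (ycg.enc h1)))))))) (enc_case (kfc33_37.enc h1 h2) (enc_case (kfc33_39.enc h1 h2) (enc_add (enc_subr 1397598034699 3007489300000 (enc_scaleT 35180000 30074893 h1)) (enc_mul (enc_norm (kfc33_11.enc h1 h2)) (enc_norm (enc_sub (enc_rat _ 11289636751 75187232500) (enc_scaleT 3786100000 30074893 h1))))) (enc_add (enc_subr 2557915533629 5505690700000 (enc_scaleT 64380000 55056907 h1)) (enc_mul (enc_norm (kfc33_11.enc h1 h2)) (enc_norm (enc_sub (enc_rat _ 20692994033 137642267500) (enc_scaleT 6931100000 55056907 h1)))))) (enc_case (kfc33_62.enc h1 h2) (enc_add (enc_subr 569694878773 1226078300000 (enc_scaleT 14340000 12260783 h1)) (enc_mul (enc_norm (kfc33_11.enc h1 h2)) (enc_norm (enc_sub (enc_rat _ 18489731691 122607830000) (enc_scaleT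 4630600000 36782349 h1))))) (enc_add (enc_subr 46463 100000 (enc_scaleT 55220000 47218561 h1)) (enc_mul (enc_norm (kfc33_11.enc h1 h2)) (enc_norm (enc_sub (enc_rat _ 1509 10000) (enc_scaleT 1371800000 10896591 h1))))))))))⟩
noncomputable def kfc33 : Fn2 := ⟨_, _, fun h1 h2 => (enc_norm (enc_case (kfc33_121.enc h1 h2) (enc_mul (enc_norm (kfc33_9.enc h1 h2)) (enc_norm (enc_case (kfc33_13.enc h1 h2) (enc_add (enc_sub (enc_rat _ 8474323 4100000) (enc_scaleT 43279 41000 (ycg.enc h1))) (enc_mul (enc_norm (kfc33_11.enc h1 h2)) (enc_norm (enc_sub (enc_rat _ 2285283 10000) (enc_scaleT 11479 100 (ycg.enc h1)))))) (enc_add (enc_sub (enc_rat _ 5167843667 2500000000) (enc_scaleT 26392637 25000000 (ycg.enc h1))) (enc_mul (enc_norm (kfc33_11.enc h1 h2)) (enc_norm (enc_sub (enc_rat _ 399922872277 1750000000) (enc_scaleT 2008816347 17500000 (ycg.enc h1))))))))) (enc_case (kfc33_109.enc h1 h2)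 (enc_add (kfc33_188.enc h1 h2) (enc_mul (enc_norm (enc_mul (enc_norm (enc_sub (enc_wB3 (enc_mul (enc_norm (kfc33_94.enc h1 h2)) (enc_norm (enc_add (enc_mul (enc_norm (kfc33_101.enc h1 h2)) (enc_inv (kfc33_91.enc h1 h2))) (kfc33_92.enc h1 h2)))) (kfc33_86.enc h1 h2) (kfc33_87.enc h1 h2) (kfc33_91.enc h1 h2) (kfc33_94.enc h1 h2) (kfc33_101.enc h1 h2) (kfc33_92.enc h1 h2) (ycg.enc h1) rfl rfl rfl rfl rfl) (kfc33_188.enc h1 h2))) (enc_norm (enc_sub (kfc33_9.enc h1 h2) (kfc33_107.enc h1 h2))))) (enc_inv (enc_sub (kfc33_6.enc h1 h2) (kfc33_107.enc h1 h2))))) (enc_mul (enc_norm (kfc33_9.enc h1 h2)) (enc_norm (enc_case (kfc33_37.enc h1 h2) (enc_case (kfc33_39.enc h1 h2) (enc_add (enc_subr 5490463186068883 18796808125000000 (enc_scaleT 177045903 150374465 h1)) (enc_mul (enc_norm (kfc33_11.enc h1 h2)) (enc_norm (enc_subr 20113433682562119 469920203125000 (enc_scaleT 5261457332 30074893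 h1))))) (enc_add (enc_subr 80419950851 275284535000 (enc_scaleT 64830000 55056907 h1)) (enc_mul (enc_norm (kfc33_11.enc h1 h2)) (enc_norm (enc_subr 23564972310751 550569070000 (enc_scaleT 9631800000 55056907 h1)))))) (enc_case (kfc33_62.enc h1 h2) (enc_add (enc_subr 526009405129 2452156600000 (enc_scaleT 10015000 12260783 h1)) (enc_mul (enc_norm (kfc33_11.enc h1 h2)) (enc_norm (enc_subr 1900677596591 245215660000 (enc_scaleT 444550000 36782349 h1))))) (enc_sub (enc_sub (enc_rat _ 1 2) (enc_scaleT 199600000 47218561 h1)) (enc_mul (enc_norm (kfc33_11.enc h1 h2)) (enc_scaleT 2013000000 47218561 h1))))))))))⟩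
noncomputable def lc33_6 : Fn2 := ⟨_, _, fun h1 h2 => (enc_subr 1 2 (swg.enc (ycg.enc h1)))⟩
noncomputable def lc33_9 : Fn2 := ⟨_, _, fun h1 h2 => (enc_add (enc_scaleT 9481 10000 (lc33_6.enc h1 h2)) (enc_scaleT 519 10000 h1))⟩
noncomputable def lc33_11 : Fn2 := ⟨_, _, fun h1 h2 => (enc_subr 153 160 h2)⟩
noncomputable def lc33_13 : Fn2 := ⟨_, _, fun h1 h2 => (enc_subr 191 100 (ycg.enc h1))⟩
noncomputable def lc33_38 : Fn2 := ⟨_, _, fun h1 h2 => (enc_sq (enc_norm (lc33_11.enc h1 h2)))⟩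
noncomputable def lc33_44 : Fn2 := ⟨_, _, fun h1 h2 => (enc_sub (enc_rat _ 215220381 1000000000) h1)⟩
noncomputable def lc33_46 : Fn2 := ⟨_, _, fun h1 h2 => (enc_sub (enc_rat _ 33784661 125000000) h1)⟩
noncomputable def lc33_73 : Fn2 := ⟨_, _, fun h1 h2 => (enc_sub (enc_rat _ 141655683 1000000000) h1)⟩
noncomputable def lc33_96 : Fn2 := ⟨_, _, fun h1 h2 => (enc_subn 1 (ycg.enc h1))⟩
noncomputable def lc33_109 : Fn2 := ⟨_, _, fun h1 h2 => (cv2r.enc (ycg.enc h1))⟩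
noncomputable def lc33_111 : Fn2 := ⟨_, _, fun h1 h2 => (enc_subr 19697 10000 (ycg.enc h1))⟩
noncomputable def lc33_122 : Fn2 := ⟨_, _, fun h1 h2 => (enc_subr 389 200 (ycg.enc h1))⟩
noncomputable def lc33_183 : Fn2 := ⟨_, _, fun h1 h2 => (enc_mul (lc33_109.enc h1 h2) (enc_norm (enc_case (lc33_111.enc h1 h2) (enc_case (lc33_13.enc h1 h2) (enc_add (enc_subr 1771703 1025000 (enc_scaleT 6974 5125 (ycg.enc h1))) (enc_mul (enc_norm (lc33_11.enc h1 h2)) (enc_norm (enc_add (enc_scaleT 1453 4100 (ycg.enc h1)) (enc_rat _ 45983 102500))))) (enc_case (lc33_122.enc h1 h2) (enc_add (enc_subr 605023 350000 (enc_scaleT 4763 3500 (ycg.enc h1))) (enc_mul (enc_norm (lc33_11.enc h1 h2)) (enc_norm (enc_add (enc_scaleT 62 175 (ycg.enc h1)) (enc_rat _ 31417 70000))))) (enc_add (enc_subr 42691169 24700000 (enc_scaleT 3361 2470 (ycg.enc h1))) (enc_mul (enc_norm (lc33_11.enc h1 h2)) (enc_norm (enc_add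 (enc_scaleT 88 247 (ycg.enc h1)) (enc_rat _ 1099013 2470000))))))) (enc_case (lc33_44.enc h1 h2) (enc_case (lc33_46.enc h1 h2) (enc_add (enc_add (enc_scaleT 5220000 30074893 h1) (enc_rat _ 270586477683 300748930000)) (enc_mul (enc_norm (lc33_11.enc h1 h2)) (enc_norm (enc_sub (enc_rat _ 2125774808149 150374465000) (enc_scaleT 1300700000 30074893 h1))))) (enc_add (enc_add (enc_scaleT 12120000 55056907 h1) (enc_rat _ 2442110428689 2752845350000)) (enc_mul (enc_norm (lc33_11.enc h1 h2)) (enc_norm (enc_subr 155073932693 275284535000 (enc_scaleT 613300000 55056907 h1)))))) (enc_case (lc33_73.enc h1 h2) (enc_add (enc_add (enc_scaleT 8095000 36782349 h1) (enc_rat _ 2175393077087 2452156600000)) (enc_mul (enc_norm (lc33_11.enc h1 h2)) (enc_norm (enc_subr 27603363701 49043132000 (enc_scaleT 136550000 12260783 h1))))) (enc_add (enc_add (enc_scaleT 10390000 47218561 h1) (enc_rat _ 44357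 50000)) (enc_mul (enc_norm (lc33_11.enc h1 h2)) (enc_norm (enc_subr 1407 2500 (enc_scaleT 1577600000 141655683 h1))))))))))⟩
noncomputable def lc33 : Fn2 := ⟨_, _, fun h1 h2 => (enc_norm (enc_case (lc33_122.enc h1 h2) (enc_mul (enc_norm (lc33_9.enc h1 h2)) (enc_norm (enc_case (lc33_13.enc h1 h2) (enc_add (enc_subr 976941 1025000 (enc_scaleT 38091 41000 (ycg.enc h1))) (enc_mul (enc_norm (lc33_11.enc h1 h2)) (enc_norm (enc_sub (enc_rat _ 172471 41000) (enc_scaleT 9459 4100 (ycg.enc h1)))))) (enc_add (enc_add (enc_subr 33357392451 35000000000 (enc_scaleT 325158861 350000000 (ycg.enc h1))) (enc_mul (enc_norm (lc33_11.enc h1 h2)) (enc_norm (enc_subr 71919011419 700000000 (enc_scaleT 375806709 7000000 (ycg.enc h1)))))) (enc_mul (lc33_38.enc h1 h2) (enc_norm (enc_subr 19531087 109375 (enc_scaleT 409028 4375 (ycg.enc h1))))))))) (enc_case (lc33_111.enc h1 h2) (enc_add (lc33_183.enc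 h1 h2) (enc_mul (enc_norm (enc_mul (enc_norm (enc_sub (enc_sub (qsg.enc (enc_norm (lc33_96.enc h1 h2))) (enc_mul (enc_norm (enc_nat 2 (enc_sub (lc33_96.enc h1 h2) h2))) (enc_norm (enc_mul (esg.enc (enc_norm (lc33_96.enc h1 h2))) (kcg.enc (enc_norm (enc_sub (enc_scaleT 3 4 (lc33_96.enc h1 h2)) (enc_half (gsg.enc (enc_norm (lc33_96.enc h1 h2)))))) h2))))) (lc33_183.enc h1 h2))) (enc_norm (enc_sub (lc33_9.enc h1 h2) (lc33_109.enc h1 h2))))) (enc_inv (enc_sub (lc33_6.enc h1 h2) (lc33_109.enc h1 h2))))) (enc_mul (enc_norm (lc33_9.enc h1 h2)) (enc_norm (enc_case (lc33_44.enc h1 h2) (enc_case (lc33_46.enc h1 h2) (enc_add (enc_add (enc_sub (enc_rat _ 1100623066786083 1174800507812500) (enc_scaleT 33153898 150374465 h1)) (enc_mul (enc_norm (lc33_11.enc h1 h2)) (enc_norm (enc_subr 936124047355979 375936162500000 (enc_scaleT 423522390 30074893 h1))))) (enc_mul (lc33_38.enc h1 h2) (enc_norm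 (enc_subr 227116606525297 3759361625000 (enc_scaleT 6722477000 30074893 h1))))) (enc_add (enc_add (enc_scaleT 360000 55056907 h1) (enc_rat _ 4820247298021 5505690700000)) (enc_mul (enc_norm (lc33_11.enc h1 h2)) (enc_norm (enc_add (enc_scaleT 63800000 55056907 h1) (enc_rat _ 69013998297 68821133750)))))) (enc_case (lc33_73.enc h1 h2) (enc_add (enc_add (enc_scaleT 2165000 12260783 h1) (enc_rat _ 2057130219133 2452156600000)) (enc_mul (enc_norm (lc33_11.enc h1 h2)) (enc_norm (enc_subr 5078635697 12260783000 (enc_scaleT 284800000 36782349 h1))))) (enc_add (enc_add (enc_scaleT 5909137403927 10407443030010 h1) (enc_rat _ 57563064996073 73470000000000)) (enc_mul (enc_norm (lc33_11.enc h1 h2)) (enc_norm (enc_sub (enc_rat _ 5793549573307 7347000000000) (enc_scaleT 778487373307 1040744303001 h1))))))))))))⟩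
noncomputable def kcc33_6 : Fn2 := ⟨_, _, fun h1 h2 => (enc_subr 1 2 (swg.enc (ycg.enc h1)))⟩
noncomputable def kcc33_9 : Fn2 := ⟨_, _, fun h1 h2 => (enc_add (enc_scaleT 9481 10000 (kcc33_6.enc h1 h2)) (enc_scaleT 519 10000 h1))⟩
noncomputable def kcc33_11 : Fn2 := ⟨_, _, fun h1 h2 => (enc_subr 153 160 h2)⟩
noncomputable def kcc33_24 : Fn2 := ⟨_, _, fun h1 h2 => (enc_sub (enc_rat _ 298872883 1000000000) h1)⟩
noncomputable def kcc33_48 : Fn2 := ⟨_, _, fun h1 h2 => (enc_subn 1 (ycg.enc h1))⟩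
noncomputable def kcc33_49 : Fn2 := ⟨_, _, fun h1 h2 => (gsg.enc (enc_norm (kcc33_48.enc h1 h2)))⟩
noncomputable def kcc33_53 : Fn2 := ⟨_, _, fun h1 h2 => (esg.enc (enc_norm (kcc33_48.enc h1 h2)))⟩
noncomputable def kcc33_58 : Fn2 := ⟨_, _, fun h1 h2 => (gug.enc (enc_norm (kcc33_48.enc h1 h2)))⟩
noncomputable def kcc33_60 : Fn2 := ⟨_, _, fun h1 h2 => (enc_mul (enc_norm (kcc33_48.enc h1 h2)) (enc_inv (kcc33_49.enc h1 h2)))⟩
noncomputable def kcc33_61 : Fn2 := ⟨_, _, fun h1 h2 => (enc_scaleT 3 4 (kcc33_60.enc h1 h2))⟩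
noncomputable def kcc33_87 : Fn2 := ⟨_, _, fun h1 h2 => (cv2r.enc (ycg.enc h1))⟩
noncomputable def kcc33_89 : Fn2 := ⟨_, _, fun h1 h2 => (enc_subr 19697 10000 (ycg.enc h1))⟩
noncomputable def kcc33_91 : Fn2 := ⟨_, _, fun h1 h2 => (enc_subr 389 200 (ycg.enc h1))⟩
noncomputable def kcc33_135 : Fn2 := ⟨_, _, fun h1 h2 => (enc_mul (kcc33_87.enc h1 h2) (enc_norm (enc_case (kcc33_89.enc h1 h2) (enc_case (kcc33_91.enc h1 h2) (enc_add (enc_subr 21497181 890000 (enc_scaleT 53743 2225 (ycg.enc h1))) (enc_mul (enc_norm (kcc33_11.enc h1 h2)) (enc_norm (enc_sub (enc_rat _ 2907283 17800) (enc_scaleT 72682 445 (ycg.enc h1)))))) (enc_add (enc_subr 3139959 130000 (enc_scaleT 314 13 (ycg.enc h1))) (enc_mul (enc_norm (kcc33_11.enc h1 h2)) (enc_norm (enc_sub (enc_rat _ 40337591 247000) (enc_scaleT 40340 247 (ycg.enc h1))))))) (enc_case (kcc33_24.enc h1 h2) (enc_add (enc_add (enc_scaleT 41650000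 739649 h1) (enc_rat _ 96292248681 14792980000)) (enc_mul (enc_norm (kcc33_11.enc h1 h2)) (enc_norm (enc_subr 109646541423 1479298000 (enc_neg (enc_scaleT 207500000 739649 h1)))))) (enc_add (enc_add (enc_scaleT 16824500000 298872883 h1) (enc_rat _ 13029 2000)) (enc_mul (enc_norm (kcc33_11.enc h1 h2)) (enc_norm (enc_subr 74139 1000 (enc_neg (enc_scaleT 83827000000 298872883 h1))))))))))⟩
noncomputable def kcc33 : Fn2 := ⟨_, _, fun h1 h2 => (enc_norm (enc_case (kcc33_91.enc h1 h2) (enc_mul (enc_norm (kcc33_9.enc h1 h2)) (enc_norm (enc_add (enc_subr 179241201 34765625 (enc_scaleT 196924134 34765625 (ycg.enc h1))) (enc_mul (enc_norm (kcc33_11.enc h1 h2)) (enc_norm (enc_sub (enc_rat _ 7181010377 222500000) (enc_scaleT 2351543459 111250000 (ycg.enc h1)))))))) (enc_case (kcc33_89.enc h1 h2) (enc_add (kcc33_135.enc h1 h2) (enc_mul (enc_norm (enc_mul (enc_norm (enc_sub (enc_add (enc_sub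 (enc_add (enc_add (enc_rat _ 3 4) (enc_scaleT 3 2 (kcc33_48.enc h1 h2))) (enc_scaleT 3 4 (enc_mul (enc_norm (kcc33_60.enc h1 h2)) (kcc33_58.enc h1 h2)))) (enc_wT (enc_mul (enc_norm (enc_sub (enc_mul (enc_norm (enc_mul (enc_norm (kcc33_61.enc h1 h2)) (enc_norm (enc_subn 3 (enc_nat 4 (kcc33_49.enc h1 h2)))))) (kcc33_53.enc h1 h2)) (enc_mul (qsg.enc (enc_norm (kcc33_48.enc h1 h2))) (enc_norm (enc_sub (enc_rat _ 1 2) (kcc33_61.enc h1 h2)))))) (enc_inv (enc_mul (enc_nat 2 (kcc33_53.enc h1 h2)) (kcc33_53.enc h1 h2)))) (kcc33_48.enc h1 h2) (kcc33_49.enc h1 h2) (kcc33_53.enc h1 h2) rfl rfl rfl rfl)) (enc_mul (kcg.enc (enc_norm (enc_sub (enc_scaleT 3 4 (kcc33_48.enc h1 h2)) (enc_half (kcc33_49.enc h1 h2)))) h2) (enc_norm (enc_sub (enc_pnc _ 1) (enc_add (kcc33_58.enc h1 h2) (enc_nat 2 (kcc33_49.enc h1 h2))))))) (kcc33_135.enc h1 h2))) (enc_norm (enc_sub (kcc33_9.enc h1 h2) (kcc33_87.enc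 h1 h2))))) (enc_inv (enc_sub (kcc33_6.enc h1 h2) (kcc33_87.enc h1 h2))))) (enc_mul (enc_norm (kcc33_9.enc h1 h2)) (enc_norm (enc_case (kcc33_24.enc h1 h2) (enc_add (enc_add (enc_scaleT 501064157 14792980 h1) (enc_rat _ 102806058369445369 14792980000000000)) (enc_mul (enc_norm (kcc33_11.enc h1 h2)) (enc_norm (enc_subr 23297857754506127 295859600000000 (enc_neg (enc_scaleT 227857655 1479298 h1)))))) (enc_add (enc_add (enc_scaleT 1694191000000 49911771461 h1) (enc_rat _ 1157 167)) (enc_mul (enc_norm (kcc33_11.enc h1 h2)) (enc_norm (enc_subr 13176 167 (enc_neg (enc_scaleT 7662594000000 49911771461 h1))))))))))))⟩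
noncomputable def cv4m : Fn1 := ⟨_, _, fun h1 => (enc_norm (enc_add (enc_scaleT 3 10 (enc_add (swg.enc h1) (enc_rat _ 1 2))) (enc_scaleT 7 10 (c3g.enc h1))))⟩
noncomputable def bf4q0_3 : Fn2 := ⟨_, _, fun h1 h2 => (enc_subr 153 160 h2)⟩
noncomputable def bf4q0_32 : Fn2 := ⟨_, _, fun h1 h2 => (enc_scaleT 167 150 h1)⟩
noncomputable def bf4q0_97 : Fn2 := ⟨_, _, fun h1 h2 => (enc_scaleT 591 100 h1)⟩
noncomputable def bf4q0_100 : Fn2 := ⟨_, _, fun h1 h2 => (enc_mul (enc_norm (bf4q0_3.enc h1 h2)) (enc_norm (enc_sub (enc_rat _ 581 10000) (bf4q0_97.enc h1 h2))))⟩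
noncomputable def bf4q0_102 : Fn2 := ⟨_, _, fun h1 h2 => (enc_scaleT 2227 2000 h1)⟩
noncomputable def bf4q0 : Fn2 := ⟨_, _, fun h1 h2 => (enc_norm (enc_case (enc_subr 11 200 h1) (enc_case (enc_subr 49 2000 h1) (enc_case (enc_subr 67 10000 h1) (enc_add (enc_sub (enc_rat _ 10129 50000) (enc_scaleT 373 335 h1)) (enc_mul (enc_norm (bf4q0_3.enc h1 h2)) (enc_norm (enc_sub (enc_rat _ 581 10000) (enc_scaleT 396 67 h1))))) (enc_case (enc_subr 31 2000 h1) (enc_add (enc_sub (enc_rat _ 445679 2200000) (enc_scaleT 49 44 h1)) (enc_mul (enc_norm (bf4q0_3.enc h1 h2)) (enc_norm (enc_sub (enc_rat _ 639 11000) (enc_scaleT 65 11 h1))))) (enc_add (enc_sub (enc_rat _ 60773 300000) (bf4q0_32.enc h1 h2)) (enc_mul (enc_norm (bf4q0_3.enc h1 h2)) (enc_norm (enc_sub (enc_rat _ 5231 90000) (enc_scaleT 266 45 h1))))))) (enc_case (enc_subr 303 10000 h1) (enc_add (enc_sub (enc_rat _ 117501 580000) (enc_scaleT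 323 290 h1)) (enc_mul (enc_norm (bf4q0_3.enc h1 h2)) (enc_norm (enc_sub (enc_rat _ 33749 580000) (enc_scaleT 343 58 h1))))) (enc_case (enc_subr 1 25 h1) (enc_add (enc_sub (enc_rat _ 491247 2425000) (enc_scaleT 108 97 h1)) (enc_mul (enc_norm (bf4q0_3.enc h1 h2)) (enc_norm (enc_sub (enc_rat _ 56249 970000) (enc_scaleT 573 97 h1))))) (enc_add (enc_sub (enc_rat _ 15193 75000) (bf4q0_32.enc h1 h2)) (enc_mul (enc_norm (bf4q0_3.enc h1 h2)) (enc_norm (enc_sub (enc_rat _ 1747 30000) (enc_scaleT 887 150 h1)))))))) (enc_case (enc_subr 4 25 h1) (enc_case (enc_subr 7 100 h1) (enc_add (enc_sub (enc_rat _ 20261 100000) (enc_scaleT 557 500 h1)) (enc_mul (enc_norm (bf4q0_3.enc h1 h2)) (enc_norm (enc_sub (enc_rat _ 217 3750) (enc_scaleT 443 75 h1))))) (enc_case (enc_subr 1 10 h1) (enc_add (enc_sub (enc_rat _ 60769 300000) (bf4q0_32.enc h1 h2)) (bf4q0_100.enc h1 h2)) (enc_add (enc_sub (enc_rat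 _ 10129 50000) (bf4q0_102.enc h1 h2)) (bf4q0_100.enc h1 h2)))) (enc_case (enc_subr 1 4 h1) (enc_add (enc_sub (enc_rat _ 18233 90000) (enc_scaleT 5011 4500 h1)) (bf4q0_100.enc h1 h2)) (enc_case (enc_subr 7 20 h1) (enc_add (enc_sub (enc_rat _ 8103 40000) (bf4q0_102.enc h1 h2)) (enc_mul (enc_norm (bf4q0_3.enc h1 h2)) (enc_norm (enc_sub (enc_rat _ 1157 20000) (enc_scaleT 5909 1000 h1))))) (enc_add (enc_sub (enc_rat _ 60769 300000) (enc_scaleT 8351 7500 h1)) (enc_mul (enc_norm (bf4q0_3.enc h1 h2)) (enc_norm (enc_sub (enc_rat _ 291 5000) (bf4q0_97.enc h1 h2))))))))))⟩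
noncomputable def kf4q0 : Fn2 := ⟨_, _, fun h1 h2 => (enc_norm (enc_mul (cv4m.enc h1) (bf4q0.enc h1 h2)))⟩
noncomputable def bx4q0_3 : Fn2 := ⟨_, _, fun h1 h2 => (enc_subr 153 160 h2)⟩
noncomputable def bx4q0_36 : Fn2 := ⟨_, _, fun h1 h2 => (enc_scaleT 17 15 h1)⟩
noncomputable def bx4q0_68 : Fn2 := ⟨_, _, fun h1 h2 => (enc_scaleT 419 1500 h1)⟩
noncomputable def bx4q0_87 : Fn2 := ⟨_, _, fun h1 h2 => (enc_scaleT 57 50 h1)⟩
noncomputable def bx4q0_100 : Fn2 := ⟨_, _, fun h1 h2 => (enc_mul (enc_norm (bx4q0_3.enc h1 h2)) (enc_norm (enc_sub (enc_rat _ 8543 7500) (enc_scaleT 341 300 h1))))⟩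
noncomputable def bx4q0 : Fn2 := ⟨_, _, fun h1 h2 => (enc_norm (enc_case (enc_subr 11 200 h1) (enc_case (enc_subr 49 2000 h1) (enc_case (enc_subr 67 10000 h1) (enc_add (enc_sub (enc_rat _ 27983 100000) (enc_scaleT 187 670 h1)) (enc_mul (enc_norm (bx4q0_3.enc h1 h2)) (enc_norm (enc_sub (enc_rat _ 11391 10000) (enc_scaleT 76 67 h1))))) (enc_case (enc_subr 31 2000 h1) (enc_add (enc_sub (enc_rat _ 246253 880000) (enc_scaleT 123 440 h1)) (enc_mul (enc_norm (bx4q0_3.enc h1 h2)) (enc_norm (enc_sub (enc_rat _ 50121 44000) (enc_scaleT 25 22 h1))))) (enc_add (enc_sub (enc_rat _ 503681 1800000) (enc_scaleT 251 900 h1)) (enc_mul (enc_norm (bx4q0_3.enc h1 h2)) (enc_norm (enc_sub (enc_rat _ 8543 7500) (bx4q0_36.enc h1 h2))))))) (enc_case (enc_subr 303 10000 h1) (enc_add (enc_sub (enc_rat _ 202879 725000) (enc_scaleT 81 290 h1)) (enc_mul (enc_norm (bx4q0_3.enc h1 h2)) (enc_norm (enc_sub (enc_rat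 _ 165181 145000) (enc_scaleT 33 29 h1))))) (enc_case (enc_subr 1 25 h1) (enc_add (enc_sub (enc_rat _ 1357201 4850000) (enc_scaleT 271 970 h1)) (enc_mul (enc_norm (bx4q0_3.enc h1 h2)) (enc_norm (enc_sub (enc_rat _ 138149 121250) (enc_scaleT 111 97 h1))))) (enc_add (enc_sub (enc_rat _ 1679 6000) (bx4q0_68.enc h1 h2)) (enc_mul (enc_norm (bx4q0_3.enc h1 h2)) (enc_norm (enc_sub (enc_rat _ 4271 3750) (bx4q0_36.enc h1 h2)))))))) (enc_case (enc_subr 4 25 h1) (enc_case (enc_subr 7 100 h1) (enc_add (enc_sub (enc_rat _ 83939 300000) (enc_scaleT 209 750 h1)) (enc_mul (enc_norm (bx4q0_3.enc h1 h2)) (enc_norm (enc_sub (enc_rat _ 11393 10000) (bx4q0_87.enc h1 h2))))) (enc_case (enc_subr 1 10 h1) (enc_add (enc_sub (enc_rat _ 83953 300000) (bx4q0_68.enc h1 h2)) (bx4q0_100.enc h1 h2)) (enc_add (enc_sub (enc_rat _ 20987 75000) (enc_scaleT 67 240 h1)) (bx4q0_100.enc h1 h2)))) (enc_case (enc_subr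 1 4 h1) (enc_add (enc_sub (enc_rat _ 62963 225000) (enc_scaleT 2513 9000 h1)) (enc_mul (enc_norm (bx4q0_3.enc h1 h2)) (enc_norm (enc_sub (enc_rat _ 25637 22500) (enc_scaleT 41 36 h1))))) (enc_case (enc_subr 7 20 h1) (enc_add (enc_sub (enc_rat _ 55971 200000) (enc_scaleT 2793 10000 h1)) (enc_mul (enc_norm (bx4q0_3.enc h1 h2)) (enc_norm (enc_sub (enc_rat _ 712 625) (enc_scaleT 569 500 h1))))) (enc_add (enc_sub (enc_rat _ 13991 50000) (enc_scaleT 349 1250 h1)) (enc_mul (enc_norm (bx4q0_3.enc h1 h2)) (enc_norm (enc_sub (enc_rat _ 11399 10000) (bx4q0_87.enc h1 h2))))))))))⟩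
noncomputable def l4q0 : Fn2 := ⟨_, _, fun h1 h2 => (enc_norm (enc_mul (cv4m.enc h1) (bx4q0.enc h1 h2)))⟩
noncomputable def bd4q0_3 : Fn2 := ⟨_, _, fun h1 h2 => (enc_subr 153 160 h2)⟩
noncomputable def bd4q0 : Fn2 := ⟨_, _, fun h1 h2 => (enc_norm (enc_case (enc_subr 3 100 h1) (enc_case (enc_subr 1 100 h1) (enc_add (enc_sub (enc_rat _ 3567 10000) (enc_scaleT 9 25 h1)) (enc_mul (enc_norm (bd4q0_3.enc h1 h2)) (enc_norm (enc_sub (enc_rat _ 292557 1000) (enc_scaleT 1463 5 h1))))) (enc_add (enc_sub (enc_rat _ 7133 20000) (enc_scaleT 71 200 h1)) (enc_mul (enc_norm (bd4q0_3.enc h1 h2)) (enc_norm (enc_sub (enc_rat _ 585113 2000) (enc_scaleT 5851 20 h1)))))) (enc_case (enc_subr 303 10000 h1) (enc_add (enc_sub (enc_rat _ 183 500) (enc_scaleT 2 3 h1)) (enc_mul (enc_norm (bd4q0_3.enc h1 h2)) (enc_norm (enc_sub (enc_rat _ 14629 50) (enc_scaleT 880 3 h1))))) (enc_case (enc_subr 11 200 h1)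 (enc_add (enc_sub (enc_rat _ 88079 247000) (enc_scaleT 88 247 h1)) (enc_mul (enc_norm (bd4q0_3.enc h1 h2)) (enc_norm (enc_sub (enc_rat _ 36130701 123500) (enc_scaleT 72260 247 h1))))) (enc_add (enc_sub (enc_rat _ 317387 890000) (enc_scaleT 1587 4450 h1)) (enc_mul (enc_norm (bd4q0_3.enc h1 h2)) (enc_norm (enc_sub (enc_rat _ 13018771 44500) (enc_scaleT 130188 445 h1)))))))))⟩
noncomputable def kc4q0 : Fn2 := ⟨_, _, fun h1 h2 => (enc_norm (enc_mul (cv4m.enc h1) (bd4q0.enc h1 h2)))⟩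
noncomputable def bf4q1_3 : Fn2 := ⟨_, _, fun h1 h2 => (enc_subr 153 160 h2)⟩
noncomputable def bf4q1 : Fn2 := ⟨_, _, fun h1 h2 => (enc_norm (enc_case (enc_subr 4 5 h1) (enc_add (enc_subr 653 5000 (enc_scaleT 5653 5000 h1)) (enc_mul (enc_norm (bf4q1_3.enc h1 h2)) (enc_norm (enc_sub (enc_rat _ 4167 1000) (enc_scaleT 4167 1000 h1))))) (enc_case (enc_subr 91 100 h1) (enc_add (enc_subr 35923 275000 (enc_scaleT 12437 11000 h1)) (enc_mul (enc_norm (bf4q1_3.enc h1 h2)) (enc_norm (enc_sub (enc_rat _ 229197 55000) (enc_scaleT 1146 275 h1))))) (enc_add (enc_subr 47 360 (enc_scaleT 407 360 h1)) (enc_mul (enc_norm (bf4q1_3.enc h1 h2)) (enc_norm (enc_sub (enc_rat _ 25 6) (enc_scaleT 25 6 h1))))))))⟩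
noncomputable def kf4q1 : Fn2 := ⟨_, _, fun h1 h2 => (enc_norm (enc_mul (cv4m.enc h1) (bf4q1.enc h1 h2)))⟩
noncomputable def bx4q1_3 : Fn2 := ⟨_, _, fun h1 h2 => (enc_subr 153 160 h2)⟩
noncomputable def bx4q1 : Fn2 := ⟨_, _, fun h1 h2 => (enc_norm (enc_case (enc_subr 4 5 h1) (enc_add (enc_sub (enc_rat _ 10517 37500) (enc_scaleT 4207 15000 h1)) (enc_mul (enc_norm (bx4q1_3.enc h1 h2)) (enc_norm (enc_sub (enc_rat _ 17101 15000) (enc_scaleT 3421 3000 h1))))) (enc_case (enc_subr 91 100 h1) (enc_add (enc_sub (enc_rat _ 38551 137500) (enc_scaleT 771 2750 h1)) (enc_mul (enc_norm (bx4q1_3.enc h1 h2)) (enc_norm (enc_sub (enc_rat _ 62649 55000) (enc_scaleT 1253 1100 h1))))) (enc_add (enc_sub (enc_rat _ 631 2250) (enc_scaleT 631 2250 h1)) (enc_mul (enc_norm (bx4q1_3.enc h1 h2)) (enc_norm (enc_sub (enc_rat _ 41 36) (enc_scaleT 41 36 h1))))))))⟩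
noncomputable def l4q1 : Fn2 := ⟨_, _, fun h1 h2 => (enc_norm (enc_mul (cv4m.enc h1) (bx4q1.enc h1 h2)))⟩
noncomputable def bd4q1 : Fn2 := ⟨_, _, fun h1 h2 => (enc_norm (enc_add (enc_sub (enc_rat _ 1783 5000) (enc_scaleT 1783 5000 h1)) (enc_mul (enc_norm (enc_subr 153 160 h2)) (enc_norm (enc_sub (enc_rat _ 73139 250) (enc_scaleT 73139 250 h1))))))⟩
noncomputable def kc4q1 : Fn2 := ⟨_, _, fun h1 h2 => (enc_norm (enc_mul (cv4m.enc h1) (bd4q1.enc h1 h2)))⟩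
noncomputable def cv4p : Fn1 := ⟨_, _, fun h1 => (enc_norm (enc_add (enc_scaleT 3 10 (enc_subr 1 2 (swg.enc h1))) (enc_scaleT 7 10 (c3g.enc h1))))⟩
noncomputable def bf4q2_3 : Fn2 := ⟨_, _, fun h1 h2 => (enc_subr 153 160 h2)⟩
noncomputable def bf4q2_34 : Fn2 := ⟨_, _, fun h1 h2 => (enc_subr 466157 175000 (enc_scaleT 3009 875 h1))⟩
noncomputable def bf4q2 : Fn2 := ⟨_, _, fun h1 h2 => (enc_norm (enc_case (enc_subr 211 200 h1) (enc_case (enc_subr 10303 10000 h1) (enc_add (enc_subr 8071447 3030000 (enc_scaleT 1042 303 h1)) (enc_mul (enc_norm (bf4q2_3.enc h1 h2)) (enc_norm (enc_subr 347293 20200 (enc_scaleT 1437 101 h1))))) (enc_add (enc_subr 16448743 6175000 (enc_scaleT 4247 1235 h1)) (enc_mul (enc_norm (bf4q2_3.enc h1 h2)) (enc_norm (enc_subr 1698539 98800 (enc_scaleT 3514 247 h1)))))) (enc_case (enc_subr 29 25 h1) (enc_add (bf4q2_34.enc h1 h2) (enc_mul (enc_norm (bf4q2_3.enc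 h1 h2)) (enc_norm (enc_subr 240711 14000 (enc_scaleT 498 35 h1))))) (enc_case (enc_subr 13 10 h1) (enc_add (bf4q2_34.enc h1 h2) (enc_mul (enc_norm (bf4q2_3.enc h1 h2)) (enc_norm (enc_subr 1203613 70000 (enc_scaleT 19921 1400 h1))))) (enc_add (enc_subr 266381 100000 (enc_scaleT 34389 10000 h1)) (enc_mul (enc_norm (bf4q2_3.enc h1 h2)) (enc_norm (enc_subr 343869 20000 (enc_scaleT 28457 2000 h1)))))))))⟩
noncomputable def kf4q2 : Fn2 := ⟨_, _, fun h1 h2 => (enc_norm (enc_mul (cv4p.enc h1) (bf4q2.enc h1 h2)))⟩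
noncomputable def bx4q2_3 : Fn2 := ⟨_, _, fun h1 h2 => (enc_subr 153 160 h2)⟩
noncomputable def bx4q2_33 : Fn2 := ⟨_, _, fun h1 h2 => (enc_sub (enc_rat _ 3793 35000) (enc_scaleT 207 1750 h1))⟩
noncomputable def bx4q2 : Fn2 := ⟨_, _, fun h1 h2 => (enc_norm (enc_case (enc_subr 109 100 h1) (enc_case (enc_subr 10303 10000 h1) (enc_add (enc_sub (enc_rat _ 602833 5050000) (enc_scaleT 13 101 h1)) (enc_mul (enc_norm (bx4q2_3.enc h1 h2)) (enc_norm (enc_subr 34365541 3030000 (enc_scaleT 3220 303 h1))))) (enc_case (enc_subr 211 200 h1) (enc_add (enc_sub (enc_rat _ 1474663 12350000) (enc_scaleT 159 1235 h1)) (enc_mul (enc_norm (bx4q2_3.enc h1 h2)) (enc_norm (enc_subr 1750959 154375 (enc_scaleT 2625 247 h1))))) (enc_add (bx4q2_33.enc h1 h2) (enc_mul (enc_norm (bx4q2_3.enc h1 h2)) (enc_norm (enc_subr 79319 7000 (enc_scaleT 1858 175 h1))))))) (enc_case (enc_subr 29 25 h1) (enc_add (bx4q2_33.enc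 h1 h2) (enc_mul (enc_norm (bx4q2_3.enc h1 h2)) (enc_norm (enc_subr 334029 35000 (enc_scaleT 1571 175 h1))))) (enc_case (enc_subr 13 10 h1) (enc_add (enc_subr 2593 70000 (enc_scaleT 99 14000 h1)) (enc_mul (enc_norm (bx4q2_3.enc h1 h2)) (enc_norm (enc_subr 57717 35000 (enc_scaleT 76 35 h1))))) (enc_add (enc_subr 276529 200000 (enc_scaleT 20843 20000 h1)) (enc_mul (enc_norm (bx4q2_3.enc h1 h2)) (enc_norm (enc_subr 31397 20000 (enc_scaleT 4221 2000 h1)))))))))⟩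
noncomputable def l4q2 : Fn2 := ⟨_, _, fun h1 h2 => (enc_norm (enc_mul (cv4p.enc h1) (bx4q2.enc h1 h2)))⟩
noncomputable def bd4q2_3 : Fn2 := ⟨_, _, fun h1 h2 => (enc_subr 153 160 h2)⟩
noncomputable def bd4q2 : Fn2 := ⟨_, _, fun h1 h2 => (enc_norm (enc_case (enc_subr 231 200 h1) (enc_add (enc_subr 5714147 310000 (enc_scaleT 9152 775 h1)) (enc_mul (enc_norm (bd4q2_3.enc h1 h2)) (enc_norm (enc_sub (enc_rat _ 1629007 3100) (enc_scaleT 119802 155 h1))))) (enc_add (enc_subr 4239439 230000 (enc_scaleT 1358 115 h1)) (enc_mul (enc_norm (bd4q2_3.enc h1 h2)) (enc_norm (enc_sub (enc_rat _ 12086407 23000) (enc_scaleT 266659 345 h1)))))))⟩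
noncomputable def kc4q2 : Fn2 := ⟨_, _, fun h1 h2 => (enc_norm (enc_mul (cv4p.enc h1) (bd4q2.enc h1 h2)))⟩
noncomputable def xc43 : Fn1 := ⟨_, _, fun h1 => (enc_norm (enc_add (enc_scaleT 3 10 (enc_subr 1 2 (swg.enc (ycg.enc h1)))) (enc_scaleT 7 10 h1)))⟩
noncomputable def kfc43_11 : Fn2 := ⟨_, _, fun h1 h2 => (enc_subr 153 160 h2)⟩
noncomputable def kfc43 : Fn2 := ⟨_, _, fun h1 h2 => (enc_norm (enc_mul (enc_norm (enc_add (enc_scaleT 3 10 (enc_subr 1 2 (swg.enc (ycg.enc h1)))) (enc_scaleT 7 10 h1))) (enc_norm (enc_case (enc_subr 19697 10000 (ycg.enc h1)) (enc_case (enc_subr 191 100 (ycg.enc h1)) (enc_add (enc_subr 287551 164000 (enc_scaleT 44037 41000 (ycg.enc h1))) (enc_mul (enc_norm (kfc43_11.enc h1 h2)) (enc_norm (enc_sub (enc_rat _ 16130969 410000) (enc_scaleT 85739 4100 (ycg.enc h1)))))) (enc_case (enc_subr 389 200 (ycg.enc h1)) (enc_add (enc_subr 87661 50000 (enc_scaleT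 537 500 (ycg.enc h1))) (enc_mul (enc_norm (kfc43_11.enc h1 h2)) (enc_norm (enc_sub (enc_rat _ 1376999 35000) (enc_scaleT 7319 350 (ycg.enc h1)))))) (enc_add (enc_subr 43308813 24700000 (enc_scaleT 2653 2470 (ycg.enc h1))) (enc_mul (enc_norm (kfc43_11.enc h1 h2)) (enc_norm (enc_sub (enc_rat _ 97193847 2470000) (enc_scaleT 5166 247 (ycg.enc h1)))))))) (enc_case (enc_sub (enc_rat _ 215220381 1000000000) h1) (enc_case (enc_sub (enc_rat _ 33784661 125000000) h1) (enc_add (enc_sub (enc_rat _ 1314396707601 3007489300000) (enc_scaleT 7490000 30074893 h1)) (enc_mul (enc_norm (kfc43_11.enc h1 h2)) (enc_norm (enc_sub (enc_rat _ 1142714 18796808125) (enc_scaleT 184900000 30074893 h1))))) (enc_add (enc_sub (enc_rat _ 2405898907071 5505690700000) (enc_scaleT 13700000 55056907 h1)) (enc_mul (enc_norm (kfc43_11.enc h1 h2)) (enc_norm (enc_subr 5180603 13764226750 (enc_neg (enc_scaleT 338400000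 55056907 h1))))))) (enc_case (enc_sub (enc_rat _ 141655683 1000000000) h1) (enc_add (enc_sub (enc_rat _ 267878709387 613039150000) (enc_scaleT 3050000 12260783 h1)) (enc_mul (enc_norm (kfc43_11.enc h1 h2)) (enc_norm (enc_subr 30253509 122607830000 (enc_neg (enc_scaleT 226100000 36782349 h1)))))) (enc_sub (enc_sub (enc_rat _ 1 2) (enc_scaleT 98270000 141655683 h1)) (enc_mul (enc_norm (kfc43_11.enc h1 h2)) (enc_scaleT 67000000 10896591 h1)))))))))⟩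
noncomputable def lc43_11 : Fn2 := ⟨_, _, fun h1 h2 => (enc_subr 153 160 h2)⟩
noncomputable def lc43 : Fn2 := ⟨_, _, fun h1 h2 => (enc_norm (enc_mul (enc_norm (enc_add (enc_scaleT 3 10 (enc_subr 1 2 (swg.enc (ycg.enc h1)))) (enc_scaleT 7 10 h1))) (enc_norm (enc_case (enc_subr 19697 10000 (ycg.enc h1)) (enc_case (enc_subr 191 100 (ycg.enc h1)) (enc_add (enc_subr 883709 512500 (enc_scaleT 52067 41000 (ycg.enc h1))) (enc_mul (enc_norm (lc43_11.enc h1 h2)) (enc_norm (enc_add (enc_scaleT 1913 4100 (ycg.enc h1)) (enc_rat _ 367369 410000))))) (enc_case (enc_subr 389 200 (ycg.enc h1)) (enc_add (enc_subr 1206733 700000 (enc_scaleT 1111 875 (ycg.enc h1))) (enc_mul (enc_norm (lc43_11.enc h1 h2)) (enc_norm (enc_add (enc_scaleT 163 350 (ycg.enc h1)) (enc_rat _ 31419 35000))))) (enc_add (enc_subr 42596107 24700000 (enc_scaleT 3137 2470 (ycg.enc h1))) (enc_mul (enc_norm (lc43_11.enc h1 h2))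 (enc_norm (enc_add (enc_scaleT 116 247 (ycg.enc h1)) (enc_rat _ 439689 494000))))))) (enc_case (enc_sub (enc_rat _ 215220381 1000000000) h1) (enc_case (enc_sub (enc_rat _ 33784661 125000000) h1) (enc_add (enc_sub (enc_rat _ 2409384511079 3007489300000) (enc_scaleT 2410000 30074893 h1)) (enc_mul (enc_norm (lc43_11.enc h1 h2)) (enc_norm (enc_add (enc_scaleT 102500000 30074893 h1) (enc_rat _ 119014198659 150374465000))))) (enc_add (enc_sub (enc_rat _ 4410713013937 5505690700000) (enc_scaleT 4410000 55056907 h1)) (enc_mul (enc_norm (lc43_11.enc h1 h2)) (enc_norm (enc_add (enc_scaleT 187500000 55056907 h1) (enc_rat _ 218067337141 275284535000)))))) (enc_case (enc_sub (enc_rat _ 141655683 1000000000) h1) (enc_add (enc_sub (enc_rat _ 1955699154917 2452156600000) (enc_scaleT 2335000 36782349 h1)) (enc_mul (enc_norm (lc43_11.enc h1 h2)) (enc_norm (enc_add (enc_scaleT 125450000 36782349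 h1) (enc_rat _ 193982424423 245215660000))))) (enc_add (enc_add (enc_scaleT 371703503927 10407443030010 h1) (enc_rat _ 57563064996073 73470000000000)) (enc_mul (enc_norm (lc43_11.enc h1 h2)) (enc_norm (enc_add (enc_scaleT 3567997826693 1040744303001 h1) (enc_rat _ 5793549573307 7347000000000)))))))))))⟩
noncomputable def kcc43_11 : Fn2 := ⟨_, _, fun h1 h2 => (enc_subr 153 160 h2)⟩
noncomputable def kcc43 : Fn2 := ⟨_, _, fun h1 h2 => (enc_norm (enc_mul (enc_norm (enc_add (enc_scaleT 3 10 (enc_subr 1 2 (swg.enc (ycg.enc h1)))) (enc_scaleT 7 10 h1))) (enc_norm (enc_case (enc_subr 19697 10000 (ycg.enc h1)) (enc_case (enc_subr 389 200 (ycg.enc h1)) (enc_add (enc_subr 16404877 890000 (enc_scaleT 52549 4450 (ycg.enc h1))) (enc_mul (enc_norm (kcc43_11.enc h1 h2)) (enc_norm (enc_sub (enc_rat _ 46768701 89000) (enc_scaleT 68790 89 (ycg.enc h1)))))) (enc_add (enc_subr 22766359 1235000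 (enc_scaleT 2917 247 (ycg.enc h1))) (enc_mul (enc_norm (kcc43_11.enc h1 h2)) (enc_norm (enc_sub (enc_rat _ 129793223 247000) (enc_scaleT 190910 247 (ycg.enc h1))))))) (enc_case (enc_sub (enc_rat _ 298872883 1000000000) h1) (enc_add (enc_sub (enc_rat _ 102346426997 14792980000) (enc_scaleT 5150000 739649 h1)) (enc_mul (enc_norm (kcc43_11.enc h1 h2)) (enc_norm (enc_subr 23373460687 295859600 (enc_neg (enc_scaleT 2260500000 739649 h1)))))) (enc_add (enc_sub (enc_rat _ 1157 167) (enc_scaleT 349120800000 49911771461 h1)) (enc_mul (enc_norm (kcc43_11.enc h1 h2)) (enc_norm (enc_subr 13176 167 (enc_neg (enc_scaleT 152556637000000 49911771461 h1)))))))))))⟩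
noncomputable def kf5q0 : Fn2 := ⟨_, _, fun h1 h2 => (enc_norm (enc_sub (enc_mul h1 (kcg.enc (enc_half h1) h2)) (enc_mul (enc_norm (enc_mul (enc_sq h1) (enc_norm (enc_add (c3g.enc h1) (enc_rat _ 3 2))))) (enc_inv (enc_mul (enc_norm (enc_sub (enc_pnc _ 1) h1)) (enc_norm (enc_add (enc_pnc _ 1) h1)))))))⟩
noncomputable def l5q0_6 : Fn2 := ⟨_, _, fun h1 h2 => (enc_half h1)⟩
noncomputable def l5q0_7 : Fn2 := ⟨_, _, fun h1 h2 => (enc_half (c3g.enc h1))⟩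
noncomputable def l5q0_8 : Fn2 := ⟨_, _, fun h1 h2 => (enc_scaleT 1 4 h1)⟩
noncomputable def l5q0 : Fn2 := ⟨_, _, fun h1 h2 => (enc_norm (enc_add (txg.enc (l5q0_6.enc h1 h2) (enc_norm (enc_sub (l5q0_7.enc h1 h2) (l5q0_8.enc h1 h2))) h2) (txg.enc (enc_neg (l5q0_6.enc h1 h2)) (enc_norm (enc_add (l5q0_7.enc h1 h2) (l5q0_8.enc h1 h2))) h2)))⟩
noncomputable def kc5q0_3 : Fn2 := ⟨_, _, fun h1 h2 => (enc_subr 153 160 h2)⟩
noncomputable def kc5q0_6 : Fn2 := ⟨_, _, fun h1 h2 => (enc_half h1)⟩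
noncomputable def kc5q0 : Fn2 := ⟨_, _, fun h1 h2 => (enc_norm (enc_case (enc_subr 167 1000 (kc5q0_6.enc h1 h2)) (enc_add (enc_subr 3323 500 (enc_scaleT 31851 3340 h1)) (enc_mul (enc_norm (kc5q0_3.enc h1 h2)) (enc_norm (enc_subr 55203 50 (enc_scaleT 559893 334 h1))))) (enc_case (enc_subr 333 1000 (kc5q0_6.enc h1 h2)) (enc_add (enc_subr 11032147 1660000 (enc_scaleT 31659 3320 h1)) (enc_mul (enc_norm (kc5q0_3.enc h1 h2)) (enc_norm (enc_subr 91636951 83000 (enc_scaleT 139135 83 h1))))) (enc_add (enc_subr 295 334 (enc_scaleT 295 334 h1)) (enc_mul (enc_norm (kc5q0_3.enc h1 h2)) (enc_norm (enc_sub (enc_rat _ 12373 334) (enc_scaleT 12373 334 h1))))))))⟩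
noncomputable def kf5q1 : Fn2 := ⟨_, _, fun h1 h2 => (enc_norm (enc_add (enc_mul (enc_norm (enc_mul h1 (enc_norm (enc_add (c3g.enc h1) (enc_rat _ 3 2))))) (enc_inv (enc_add (enc_pnc _ 1) h1))) (enc_mul (enc_norm (enc_subn 1 h1)) (kcg.enc (enc_half h1) h2))))⟩
noncomputable def l5q1_7 : Fn2 := ⟨_, _, fun h1 h2 => (enc_half h1)⟩
noncomputable def l5q1_8 : Fn2 := ⟨_, _, fun h1 h2 => (enc_half (c3g.enc h1))⟩
noncomputable def l5q1_9 : Fn2 := ⟨_, _, fun h1 h2 => (enc_scaleT 1 4 h1)⟩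
noncomputable def l5q1 : Fn2 := ⟨_, _, fun h1 h2 => (enc_norm (enc_add (txg.enc (l5q1_7.enc h1 h2) (enc_norm (enc_sub (l5q1_8.enc h1 h2) (l5q1_9.enc h1 h2))) h2) (txg.enc (enc_neg (l5q1_7.enc h1 h2)) (enc_norm (enc_add (l5q1_8.enc h1 h2) (l5q1_9.enc h1 h2))) h2)))⟩
noncomputable def kc5q1_3 : Fn2 := ⟨_, _, fun h1 h2 => (enc_subr 153 160 h2)⟩
noncomputable def kc5q1_7 : Fn2 := ⟨_, _, fun h1 h2 => (enc_half h1)⟩
noncomputable def kc5q1 : Fn2 := ⟨_, _, fun h1 h2 => (enc_norm (enc_case (enc_subr 167 1000 (kc5q1_7.enc h1 h2)) (enc_add (enc_subr 3323 500 (enc_scaleT 31851 3340 h1)) (enc_mul (enc_norm (kc5q1_3.enc h1 h2)) (enc_norm (enc_subr 55203 50 (enc_scaleT 559893 334 h1))))) (enc_case (enc_subr 333 1000 (kc5q1_7.enc h1 h2)) (enc_add (enc_subr 11032147 1660000 (enc_scaleT 31659 3320 h1)) (enc_mul (enc_norm (kc5q1_3.enc h1 h2)) (enc_norm (enc_subr 91636951 83000 (enc_scaleT 139135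 83 h1))))) (enc_add (enc_subr 295 334 (enc_scaleT 295 334 h1)) (enc_mul (enc_norm (kc5q1_3.enc h1 h2)) (enc_norm (enc_sub (enc_rat _ 12373 334) (enc_scaleT 12373 334 h1))))))))⟩
noncomputable def kf5q2 : Fn2 := ⟨_, _, fun h1 h2 => (enc_norm (enc_add (enc_mul (enc_norm (enc_mul (enc_norm (enc_sub (enc_nat 2 (c3g.enc h1)) h1)) (enc_norm (enc_sub (enc_add (c3g.enc h1) (enc_pnc _ 3)) (enc_scaleT 3 2 h1))))) (enc_inv (enc_nat 4 (enc_sub (enc_pnc _ 2) h1)))) (enc_mul (enc_norm (enc_subn 1 h1)) (kcg.enc (enc_norm (enc_sub (enc_scaleT 1 4 h1) (enc_half (c3g.enc h1)))) h2))))⟩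
noncomputable def l5q2_7 : Fn2 := ⟨_, _, fun h1 h2 => (enc_half (c3g.enc h1))⟩
noncomputable def l5q2_8 : Fn2 := ⟨_, _, fun h1 h2 => (enc_scaleT 1 4 h1)⟩
noncomputable def l5q2_9 : Fn2 := ⟨_, _, fun h1 h2 => (enc_sub (l5q2_7.enc h1 h2) (l5q2_8.enc h1 h2))⟩
noncomputable def l5q2_12 : Fn2 := ⟨_, _, fun h1 h2 => (enc_add (enc_scaleT 1 4 (c3g.enc h1)) (enc_scaleT 3 8 h1))⟩
noncomputable def l5q2_14 : Fn2 := ⟨_, _, fun h1 h2 => (enc_half (l5q2_9.enc h1 h2))⟩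
noncomputable def l5q2 : Fn2 := ⟨_, _, fun h1 h2 => (enc_norm (enc_sub (enc_nat 2 (txg.enc (enc_norm (enc_sub (l5q2_8.enc h1 h2) (l5q2_7.enc h1 h2))) (enc_norm (enc_add (l5q2_12.enc h1 h2) (l5q2_14.enc h1 h2))) h2)) (txg.enc (enc_norm (l5q2_9.enc h1 h2)) (enc_norm (enc_sub (l5q2_12.enc h1 h2) (l5q2_14.enc h1 h2))) h2)))⟩
noncomputable def kc5q2_3 : Fn2 := ⟨_, _, fun h1 h2 => (enc_subr 153 160 h2)⟩
noncomputable def kc5q2_9 : Fn2 := ⟨_, _, fun h1 h2 => (enc_sub (enc_half (c3g.enc h1)) (enc_scaleT 1 4 h1))⟩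
noncomputable def kc5q2_27 : Fn2 := ⟨_, _, fun h1 h2 => (enc_scaleT 301 166 (kc5q2_9.enc h1 h2))⟩
noncomputable def kc5q2 : Fn2 := ⟨_, _, fun h1 h2 => (enc_norm (enc_case (kc5q2_9.enc h1 h2) (enc_case (enc_add (kc5q2_9.enc h1 h2) (enc_rat _ 333 1000)) (enc_add (enc_add (enc_scaleT 2314 167 (kc5q2_9.enc h1 h2)) (enc_rat _ 1157 167)) (enc_mul (enc_norm (kc5q2_3.enc h1 h2)) (enc_norm (enc_subr 13176 167 (enc_neg (enc_scaleT 26352 167 (kc5q2_9.enc h1 h2))))))) (enc_case (enc_add (kc5q2_9.enc h1 h2) (enc_rat _ 167 1000)) (enc_add (enc_sub (enc_rat _ 283891 166000) (kc5q2_27.enc h1 h2)) (enc_mul (enc_norm (kc5q2_3.enc h1 h2)) (enc_norm (enc_add (enc_scaleT 26725 83 (kc5q2_9.enc h1 h2)) (enc_rat _ 6712209 83000))))) (enc_add (enc_sub (enc_rat _ 17101 10000) (enc_scaleT 3029 1670 (kc5q2_9.enc h1 h2))) (enc_mul (enc_norm (kc5q2_3.enc h1 h2)) (enc_norm (enc_add (enc_scaleT 53773 167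 (kc5q2_9.enc h1 h2)) (enc_rat _ 80871 1000))))))) (enc_case (enc_subr 167 1000 (kc5q2_9.enc h1 h2)) (enc_add (enc_sub (enc_rat _ 17101 10000) (enc_scaleT 1514 835 (kc5q2_9.enc h1 h2))) (enc_mul (enc_norm (kc5q2_3.enc h1 h2)) (enc_norm (enc_add (enc_scaleT 53772 167 (kc5q2_9.enc h1 h2)) (enc_rat _ 80871 1000))))) (enc_case (enc_subr 333 1000 (kc5q2_9.enc h1 h2)) (enc_add (enc_sub (enc_rat _ 709697 415000) (kc5q2_27.enc h1 h2)) (enc_mul (enc_norm (kc5q2_3.enc h1 h2)) (enc_norm (enc_add (enc_scaleT 53451 166 (kc5q2_9.enc h1 h2)) (enc_rat _ 13424421 166000))))) (enc_add (enc_sub (enc_rat _ 11063 3340) (enc_scaleT 11063 1670 (kc5q2_9.enc h1 h2))) (enc_mul (enc_norm (kc5q2_3.enc h1 h2)) (enc_norm (enc_sub (enc_rat _ 94047 167) (enc_scaleT 188094 167 (kc5q2_9.enc h1 h2))))))))))⟩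
noncomputable def kfc53 : Fn2 := ⟨_, _, fun h1 h2 => (enc_norm (enc_sub (enc_mul (enc_norm (enc_subn 2 (ycg.enc h1))) (kcg.enc (enc_norm (enc_sub (enc_scaleT 1 4 (ycg.enc h1)) (enc_half h1))) h2)) (enc_mul (enc_norm (enc_mul (enc_norm (enc_sub (enc_nat 2 h1) (ycg.enc h1))) (enc_norm (enc_sub (enc_add h1 (enc_pnc _ 3)) (enc_scaleT 3 2 (ycg.enc h1)))))) (enc_inv (enc_nat 4 (enc_subn 1 (ycg.enc h1)))))))⟩
noncomputable def lc53_7 : Fn2 := ⟨_, _, fun h1 h2 => (enc_half h1)⟩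
noncomputable def lc53_8 : Fn2 := ⟨_, _, fun h1 h2 => (enc_scaleT 1 4 (ycg.enc h1))⟩
noncomputable def lc53_9 : Fn2 := ⟨_, _, fun h1 h2 => (enc_sub (lc53_7.enc h1 h2) (lc53_8.enc h1 h2))⟩
noncomputable def lc53_12 : Fn2 := ⟨_, _, fun h1 h2 => (enc_add (enc_scaleT 1 4 h1) (enc_scaleT 3 8 (ycg.enc h1)))⟩
noncomputable def lc53_14 : Fn2 := ⟨_, _, fun h1 h2 => (enc_half (lc53_9.enc h1 h2))⟩
noncomputable def lc53 : Fn2 := ⟨_, _, fun h1 h2 => (enc_norm (enc_sub (enc_nat 2 (txg.enc (enc_norm (enc_sub (lc53_8.enc h1 h2) (lc53_7.enc h1 h2))) (enc_norm (enc_add (lc53_12.enc h1 h2) (lc53_14.enc h1 h2))) h2)) (txg.enc (enc_norm (lc53_9.enc h1 h2)) (enc_norm (enc_sub (lc53_12.enc h1 h2) (lc53_14.enc h1 h2))) h2)))⟩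
noncomputable def kcc53_4 : Fn2 := ⟨_, _, fun h1 h2 => (enc_subr 153 160 h2)⟩
noncomputable def kcc53_9 : Fn2 := ⟨_, _, fun h1 h2 => (enc_sub (enc_half h1) (enc_scaleT 1 4 (ycg.enc h1)))⟩
noncomputable def kcc53_27 : Fn2 := ⟨_, _, fun h1 h2 => (enc_scaleT 301 166 (kcc53_9.enc h1 h2))⟩
noncomputable def kcc53 : Fn2 := ⟨_, _, fun h1 h2 => (enc_norm (enc_case (kcc53_9.enc h1 h2) (enc_case (enc_add (kcc53_9.enc h1 h2) (enc_rat _ 333 1000)) (enc_add (enc_add (enc_scaleT 2314 167 (kcc53_9.enc h1 h2)) (enc_rat _ 1157 167)) (enc_mul (enc_norm (kcc53_4.enc h1 h2)) (enc_norm (enc_subr 13176 167 (enc_neg (enc_scaleT 26352 167 (kcc53_9.enc h1 h2))))))) (enc_case (enc_add (kcc53_9.enc h1 h2) (enc_rat _ 167 1000)) (enc_add (enc_sub (enc_rat _ 283891 166000) (kcc53_27.enc h1 h2)) (enc_mul (enc_norm (kcc53_4.enc h1 h2)) (enc_norm (enc_add (enc_scaleT 26725 83 (kcc53_9.enc h1 h2)) (enc_rat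 _ 6712209 83000))))) (enc_add (enc_sub (enc_rat _ 17101 10000) (enc_scaleT 3029 1670 (kcc53_9.enc h1 h2))) (enc_mul (enc_norm (kcc53_4.enc h1 h2)) (enc_norm (enc_add (enc_scaleT 53773 167 (kcc53_9.enc h1 h2)) (enc_rat _ 80871 1000))))))) (enc_case (enc_subr 167 1000 (kcc53_9.enc h1 h2)) (enc_add (enc_sub (enc_rat _ 17101 10000) (enc_scaleT 1514 835 (kcc53_9.enc h1 h2))) (enc_mul (enc_norm (kcc53_4.enc h1 h2)) (enc_norm (enc_add (enc_scaleT 53772 167 (kcc53_9.enc h1 h2)) (enc_rat _ 80871 1000))))) (enc_case (enc_subr 333 1000 (kcc53_9.enc h1 h2)) (enc_add (enc_sub (enc_rat _ 709697 415000) (kcc53_27.enc h1 h2)) (enc_mul (enc_norm (kcc53_4.enc h1 h2)) (enc_norm (enc_add (enc_scaleT 53451 166 (kcc53_9.enc h1 h2)) (enc_rat _ 13424421 166000))))) (enc_add (enc_sub (enc_rat _ 11063 3340) (enc_scaleT 11063 1670 (kcc53_9.enc h1 h2))) (enc_mul (enc_norm (kcc53_4.enc h1 h2)) (enc_norm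 (enc_sub (enc_rat _ 94047 167) (enc_scaleT 188094 167 (kcc53_9.enc h1 h2))))))))))⟩
noncomputable def lm4m : Fn2 := ⟨_, _, fun h1 h2 => (enc_lam (enc_norm (enc_sub h1 (cv4m.enc h2))) (enc_sub (c3g.enc h2) (cv4m.enc h2)))⟩
noncomputable def lm3m : Fn2 := ⟨_, _, fun h1 h2 => (enc_lam (enc_norm (enc_sub h1 (cv3m.enc h2))) (enc_sub (cv4m.enc h2) (cv3m.enc h2)))⟩
noncomputable def bf3q0_3 : Fn2 := ⟨_, _, fun h1 h2 => (enc_subr 153 160 h2)⟩
noncomputable def bf3q0 : Fn2 := ⟨_, _, fun h1 h2 => (enc_norm (enc_case (enc_subr 853 20000 h1) (enc_case (enc_subr 31 2000 h1) (enc_case (enc_subr 67 10000 h1) (enc_add (enc_sub (enc_rat _ 19069 20000) (enc_scaleT 2066 335 h1)) (enc_mul (enc_norm (bf3q0_3.enc h1 h2)) (enc_norm (enc_subr 239 625 (enc_neg (enc_scaleT 3199 67 h1)))))) (enc_add (enc_sub (enc_rat _ 8390353 8800000) (enc_scaleT 5427 880 h1)) (enc_mul (enc_norm (bf3q0_3.enc h1 h2))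 (enc_norm (enc_subr 3059 8000 (enc_neg (enc_scaleT 191 4 h1))))))) (enc_case (enc_subr 49 2000 h1) (enc_add (enc_sub (enc_rat _ 286033 300000) (enc_scaleT 37 6 h1)) (enc_mul (enc_norm (bf3q0_3.enc h1 h2)) (enc_norm (enc_subr 17203 45000 (enc_neg (enc_scaleT 2149 45 h1)))))) (enc_add (enc_sub (enc_rat _ 552980653 580000000) (enc_scaleT 1787997 290000 h1)) (enc_mul (enc_norm (bf3q0_3.enc h1 h2)) (enc_norm (enc_subr 277237937 725000000 (enc_neg (enc_scaleT 17309787 362500 h1)))))))) (enc_case (enc_subr 4 25 h1) (enc_case (enc_subr 7 100 h1) (enc_add (enc_sub (enc_rat _ 4685015503 5000000000) (enc_scaleT 214937929 50000000 h1)) (enc_mul (enc_norm (bf3q0_3.enc h1 h2)) (enc_norm (enc_subr 3389900387 750000000 (enc_scaleT 387489341 7500000 h1))))) (enc_case (enc_subr 1 10 h1) (enc_add (enc_sub (enc_rat _ 281113 300000) (enc_scaleT 6449 1500 h1)) (enc_mul (enc_norm (bf3q0_3.enc h1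 h2)) (enc_norm (enc_subr 16949 3750 (enc_scaleT 15499 300 h1))))) (enc_add (enc_sub (enc_rat _ 93701 100000) (enc_scaleT 4299 1000 h1)) (enc_mul (enc_norm (bf3q0_3.enc h1 h2)) (enc_norm (enc_subr 45199 10000 (enc_scaleT 10333 200 h1))))))) (enc_case (enc_subr 1 4 h1) (enc_add (enc_sub (enc_rat _ 843341 900000) (enc_scaleT 38693 9000 h1)) (enc_mul (enc_norm (bf3q0_3.enc h1 h2)) (enc_norm (enc_subr 406783 90000 (enc_scaleT 23249 450 h1))))) (enc_case (enc_subr 7 20 h1) (enc_add (enc_sub (enc_rat _ 187403 200000) (enc_scaleT 42991 10000 h1)) (enc_mul (enc_norm (bf3q0_3.enc h1 h2)) (enc_norm (enc_subr 45197 10000 (enc_scaleT 6458 125 h1))))) (enc_add (enc_sub (enc_rat _ 70277 75000) (enc_scaleT 64487 15000 h1)) (enc_mul (enc_norm (bf3q0_3.enc h1 h2)) (enc_norm (enc_subr 67799 15000 (enc_scaleT 77497 1500 h1))))))))))⟩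
noncomputable def lm2m : Fn2 := ⟨_, _, fun h1 h2 => (enc_lam (enc_norm (enc_sub h1 (cv2m.enc h2))) (enc_sub (cv3m.enc h2) (cv2m.enc h2)))⟩
noncomputable def lm1m : Fn2 := ⟨_, _, fun h1 h2 => (enc_lam (enc_norm (enc_sub h1 (cv1m.enc h2))) (enc_sub (cv2m.enc h2) (cv1m.enc h2)))⟩
noncomputable def lm0m : Fn2 := ⟨_, _, fun h1 h2 => (enc_lam (enc_norm (enc_sub h1 (c1g.enc h2))) (enc_sub (cv1m.enc h2) (c1g.enc h2)))⟩
noncomputable def rkbq0_36 : Fn3 := ⟨_, _, fun h1 h2 h3 => (enc_add (enc_mul h1 (bf3q0.enc h2 h3)) (enc_mul (enc_norm (enc_mul (enc_norm (enc_sub (enc_pnc _ 1) (lm2m.enc h1 h2))) (cv2m.enc h2))) (enc_norm (enc_sub (bf2q0.enc h2 h3) (bf3q0.enc h2 h3)))))⟩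
noncomputable def rkbq0_38 : Fn3 := ⟨_, _, fun h1 h2 h3 => (enc_sub (enc_pnc _ 1) h2)⟩
noncomputable def rkbq0_39 : Fn3 := ⟨_, _, fun h1 h2 h3 => (gsg.enc (enc_norm (rkbq0_38.enc h1 h2 h3)))⟩
noncomputable def rkbq0_42 : Fn3 := ⟨_, _, fun h1 h2 h3 => (enc_sub (enc_scaleT 3 4 (rkbq0_38.enc h1 h2 h3)) (enc_half (rkbq0_39.enc h1 h2 h3)))⟩
noncomputable def rkbq0_43 : Fn3 := ⟨_, _, fun h1 h2 h3 => (esg.enc (enc_norm (rkbq0_38.enc h1 h2 h3)))⟩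
noncomputable def rkbq0_44 : Fn3 := ⟨_, _, fun h1 h2 h3 => (kcg.enc (enc_norm (rkbq0_42.enc h1 h2 h3)) h3)⟩
noncomputable def rkbq0_52 : Fn3 := ⟨_, _, fun h1 h2 h3 => (enc_sub (rkbq0_42.enc h1 h2 h3) (enc_sub (enc_rat _ 1 4) (enc_scaleT 3 8 (enc_mul (enc_norm (rkbq0_38.enc h1 h2 h3)) (enc_inv (rkbq0_39.enc h1 h2 h3))))))⟩
noncomputable def rkbq0_58 : Fn3 := ⟨_, _, fun h1 h2 h3 => (enc_wB0 (enc_mul h2 (enc_norm (enc_sub (enc_mul (enc_norm (rkbq0_52.enc h1 h2 h3)) (enc_inv (rkbq0_43.enc h1 h2 h3))) (rkbq0_44.enc h1 h2 h3)))) (rkbq0_38.enc h1 h2 h3) (rkbq0_39.enc h1 h2 h3) (rkbq0_43.enc h1 h2 h3) h2 (rkbq0_52.enc h1 h2 h3) (rkbq0_44.enc h1 h2 h3) rfl rfl rfl rfl)⟩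
noncomputable def rkbq0_62 : Fn3 := ⟨_, _, fun h1 h2 h3 => (enc_add (swg.enc h2) (enc_rat _ 1 2))⟩
noncomputable def rkbq0_63 : Fn3 := ⟨_, _, fun h1 h2 h3 => (enc_sub h1 (cv2m.enc h2))⟩
noncomputable def rkbq0 : Fn3 := ⟨_, _, fun h1 h2 h3 => (enc_case (enc_sub h1 (cv1m.enc h2)) (enc_add (enc_mul h1 (bf1q0.enc h2 h3)) (enc_mul (enc_norm (enc_sub (enc_pnc _ 1) (lm0m.enc h1 h2))) (enc_norm (enc_sub (kf0q0.enc h2 h3) (enc_mul (c1g.enc h2) (bf1q0.enc h2 h3)))))) (enc_case (rkbq0_63.enc h1 h2 h3) (enc_add (enc_mul h1 (bf2q0.enc h2 h3)) (enc_mul (enc_norm (enc_mul (enc_norm (enc_sub (enc_pnc _ 1) (lm1m.enc h1 h2))) (cv1m.enc h2))) (enc_norm (enc_sub (bf1q0.enc h2 h3) (bf2q0.enc h2 h3))))) (enc_case (enc_sub h1 (cv3m.enc h2)) (enc_case (enc_subr 303 10000 h2) (rkbq0_36.enc h1 h2 h3) (enc_case (enc_subr 11 200 h2) (enc_wL (enc_add (kf2q0.enc h2 h3) (enc_mul (enc_norm (enc_mul (enc_norm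 (rkbq0_63.enc h1 h2 h3)) (enc_inv (enc_sub (rkbq0_62.enc h1 h2 h3) (cv2m.enc h2))))) (enc_norm (enc_sub (rkbq0_58.enc h1 h2 h3) (kf2q0.enc h2 h3))))) h1 (rkbq0_62.enc h1 h2 h3) (cv2m.enc h2) (rkbq0_58.enc h1 h2 h3) (kf2q0.enc h2 h3) rfl) (rkbq0_36.enc h1 h2 h3))) (enc_case (enc_sub h1 (cv4m.enc h2)) (enc_add (enc_mul h1 (bf4q0.enc h2 h3)) (enc_mul (enc_norm (enc_sub (enc_pnc _ 1) (lm3m.enc h1 h2))) (enc_norm (enc_sub (kf3q0.enc h2 h3) (enc_mul (cv3m.enc h2) (bf4q0.enc h2 h3)))))) (enc_add (kf4q0.enc h2 h3) (enc_mul (lm4m.enc h1 h2) (enc_norm (enc_sub (kf5q0.enc h2 h3) (kf4q0.enc h2 h3)))))))))⟩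
noncomputable def rsbq0 : Fn3 := ⟨_, _, fun h1 h2 h3 => (enc_case h1 (enc_neg (rkbq0.enc (enc_neg h1) h2 h3)) (rkbq0.enc h1 h2 h3))⟩
noncomputable def rkbq1 : Fn3 := ⟨_, _, fun h1 h2 h3 => (enc_case (enc_sub h1 (cv1m.enc h2)) (enc_add (enc_mul h1 (bf1q1.enc h2 h3)) (enc_mul (enc_norm (enc_sub (enc_pnc _ 1) (lm0m.enc h1 h2))) (enc_norm (enc_sub (kf0q1.enc h2 h3) (enc_mul (c1g.enc h2) (bf1q1.enc h2 h3)))))) (enc_case (enc_sub h1 (cv2m.enc h2)) (enc_add (enc_mul h1 (bf2q1.enc h2 h3)) (enc_mul (enc_norm (enc_mul (enc_norm (enc_sub (enc_pnc _ 1) (lm1m.enc h1 h2))) (cv1m.enc h2))) (enc_norm (enc_sub (bf1q1.enc h2 h3) (bf2q1.enc h2 h3))))) (enc_case (enc_sub h1 (cv3m.enc h2)) (enc_add (enc_mul h1 (bf3q1.enc h2 h3)) (enc_mul (enc_norm (enc_mul (enc_norm (enc_sub (enc_pnc _ 1) (lm2m.enc h1 h2))) (cv2m.enc h2))) (enc_norm (enc_sub (bf2q1.enc h2 h3) (bf3q1.enc h2 h3))))) (enc_case (enc_sub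 h1 (cv4m.enc h2)) (enc_add (enc_mul h1 (bf4q1.enc h2 h3)) (enc_mul (enc_norm (enc_mul (enc_norm (enc_sub (enc_pnc _ 1) (lm3m.enc h1 h2))) (cv3m.enc h2))) (enc_norm (enc_sub (bf3q1.enc h2 h3) (bf4q1.enc h2 h3))))) (enc_add (kf4q1.enc h2 h3) (enc_mul (lm4m.enc h1 h2) (enc_norm (enc_sub (kf5q1.enc h2 h3) (kf4q1.enc h2 h3)))))))))⟩
noncomputable def rsbq1 : Fn3 := ⟨_, _, fun h1 h2 h3 => (enc_case h1 (enc_neg (rkbq1.enc (enc_neg h1) h2 h3)) (rkbq1.enc h1 h2 h3))⟩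
noncomputable def cv1p : Fn1 := ⟨_, _, fun h1 => (enc_norm (enc_add (enc_scaleT 4 5 (c1g.enc h1)) (enc_scaleT 1 5 (enc_subr 1 2 (swg.enc h1)))))⟩
noncomputable def cv2p : Fn1 := ⟨_, _, fun h1 => (enc_norm (enc_add (enc_scaleT 2 5 (c1g.enc h1)) (enc_scaleT 3 5 (enc_subr 1 2 (swg.enc h1)))))⟩
noncomputable def lm4p : Fn2 := ⟨_, _, fun h1 h2 => (enc_lam (enc_norm (enc_sub h1 (cv4p.enc h2))) (enc_sub (c3g.enc h2) (cv4p.enc h2)))⟩
noncomputable def lm3p : Fn2 := ⟨_, _, fun h1 h2 => (enc_lam (enc_norm (enc_sub h1 (cv3p.enc h2))) (enc_sub (cv4p.enc h2) (cv3p.enc h2)))⟩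
noncomputable def lm2p : Fn2 := ⟨_, _, fun h1 h2 => (enc_lam (enc_norm (enc_sub h1 (cv2p.enc h2))) (enc_sub (cv3p.enc h2) (cv2p.enc h2)))⟩
noncomputable def lm1p : Fn2 := ⟨_, _, fun h1 h2 => (enc_lam (enc_norm (enc_sub h1 (cv1p.enc h2))) (enc_sub (cv2p.enc h2) (cv1p.enc h2)))⟩
noncomputable def kf0q2 : Fn2 := ⟨_, _, fun h1 h2 => (enc_norm (enc_add (c1g.enc h1) (enc_mul (enc_norm (enc_subn 1 h1)) (kcg.enc (enc_neg (c1g.enc h1)) h2))))⟩
noncomputable def lm0p : Fn2 := ⟨_, _, fun h1 h2 => (enc_lam (enc_norm (enc_sub h1 (c1g.enc h2))) (enc_sub (cv1p.enc h2) (c1g.enc h2)))⟩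
noncomputable def n0b : Fn2 := ⟨_, _, fun h1 h2 => (enc_norm (enc_sub (enc_pnc _ 1) (enc_mul (enc_norm (enc_subn 1 h1)) (enc_norm (enc_sub (enc_rat _ 57567 20000) (enc_scaleT 4331 2500 (enc_subr 153 160 h2)))))))⟩
noncomputable def rkbq2_51 : Fn3 := ⟨_, _, fun h1 h2 h3 => (enc_mul h1 (bf1q2.enc h2 h3))⟩
noncomputable def rkbq2_53 : Fn3 := ⟨_, _, fun h1 h2 h3 => (enc_sub (enc_pnc _ 1) (lm0p.enc h1 h2))⟩
noncomputable def rkbq2 : Fn3 := ⟨_, _, fun h1 h2 h3 => (enc_case (enc_sub h1 (cv1p.enc h2)) (enc_case (enc_subr 1151 1000 h2) (enc_add (rkbq2_51.enc h1 h2 h3) (enc_mul (enc_norm (rkbq2_53.enc h1 h2 h3)) (enc_norm (enc_sub (kf0q2.enc h2 h3) (enc_mul (c1g.enc h2) (bf1q2.enc h2 h3)))))) (enc_case (enc_subr 2887 2500 h2) (enc_add (rkbq2_51.enc h1 h2 h3) (enc_mul (enc_norm (rkbq2_53.enc h1 h2 h3)) (enc_norm (enc_mul (c1g.enc h2) (enc_norm (enc_sub (n0b.enc h2 h3) (bf1q2.enc h2 h3)))))))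 (rkbq2_51.enc h1 h2 h3))) (enc_case (enc_sub h1 (cv2p.enc h2)) (enc_add (enc_mul h1 (bf2q2.enc h2 h3)) (enc_mul (enc_norm (enc_mul (enc_norm (enc_sub (enc_pnc _ 1) (lm1p.enc h1 h2))) (cv1p.enc h2))) (enc_norm (enc_sub (bf1q2.enc h2 h3) (bf2q2.enc h2 h3))))) (enc_case (enc_sub h1 (cv3p.enc h2)) (enc_add (enc_mul h1 (bf3q2.enc h2 h3)) (enc_mul (enc_norm (enc_mul (enc_norm (enc_sub (enc_pnc _ 1) (lm2p.enc h1 h2))) (cv2p.enc h2))) (enc_norm (enc_sub (bf2q2.enc h2 h3) (bf3q2.enc h2 h3))))) (enc_case (enc_sub h1 (cv4p.enc h2)) (enc_add (enc_mul h1 (bf4q2.enc h2 h3)) (enc_mul (enc_norm (enc_mul (enc_norm (enc_sub (enc_pnc _ 1) (lm3p.enc h1 h2))) (cv3p.enc h2))) (enc_norm (enc_sub (bf3q2.enc h2 h3) (bf4q2.enc h2 h3))))) (enc_add (kf4q2.enc h2 h3) (enc_mul (lm4p.enc h1 h2) (enc_norm (enc_sub (kf5q2.enc h2 h3) (kf4q2.enc h2 h3)))))))))⟩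
noncomputable def rsbq2 : Fn3 := ⟨_, _, fun h1 h2 h3 => (enc_case h1 (enc_neg (rkbq2.enc (enc_neg h1) h2 h3)) (rkbq2.enc h1 h2 h3))⟩
noncomputable def cv3r : Fn1 := ⟨_, _, fun h1 => (enc_norm (enc_add (enc_scaleT 9481 10000 (enc_subr 1 2 (swg.enc h1))) (enc_scaleT 519 10000 (c3g.enc h1))))⟩
noncomputable def cv4r : Fn1 := ⟨_, _, fun h1 => (enc_norm (enc_add (enc_scaleT 3 10 (enc_subr 1 2 (swg.enc h1))) (enc_scaleT 7 10 (c3g.enc h1))))⟩
noncomputable def kf4q3_4 : Fn2 := ⟨_, _, fun h1 h2 => (enc_subr 153 160 h2)⟩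
noncomputable def kf4q3 : Fn2 := ⟨_, _, fun h1 h2 => (enc_norm (enc_mul (cv4r.enc h1) (enc_norm (enc_case (enc_subr 19697 10000 h1) (enc_case (enc_subr 191 100 h1) (enc_add (enc_subr 287551 164000 (enc_scaleT 44037 41000 h1)) (enc_mul (enc_norm (kf4q3_4.enc h1 h2)) (enc_norm (enc_sub (enc_rat _ 16130969 410000) (enc_scaleT 85739 4100 h1))))) (enc_case (enc_subr 389 200 h1) (enc_add (enc_subr 87661 50000 (enc_scaleT 537 500 h1)) (enc_mul (enc_norm (kf4q3_4.enc h1 h2)) (enc_norm (enc_sub (enc_rat _ 1376999 35000) (enc_scaleT 7319 350 h1))))) (enc_add (enc_subr 43308813 24700000 (enc_scaleT 2653 2470 h1)) (enc_mul (enc_norm (kf4q3_4.enc h1 h2)) (enc_norm (enc_sub (enc_rat _ 97193847 2470000) (enc_scaleT 5166 247 h1))))))) (enc_case (enc_sub (enc_rat _ 215220381 1000000000) (c3g.enc h1)) (enc_case (enc_sub (enc_rat _ 33784661 125000000) (c3g.enc h1)) (enc_add (enc_sub (enc_rat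 _ 1314396707601 3007489300000) (enc_scaleT 7490000 30074893 (c3g.enc h1))) (enc_mul (enc_norm (kf4q3_4.enc h1 h2)) (enc_norm (enc_sub (enc_rat _ 1142714 18796808125) (enc_scaleT 184900000 30074893 (c3g.enc h1)))))) (enc_add (enc_sub (enc_rat _ 2405898907071 5505690700000) (enc_scaleT 13700000 55056907 (c3g.enc h1))) (enc_mul (enc_norm (kf4q3_4.enc h1 h2)) (enc_norm (enc_subr 5180603 13764226750 (enc_neg (enc_scaleT 338400000 55056907 (c3g.enc h1)))))))) (enc_case (enc_sub (enc_rat _ 141655683 1000000000) (c3g.enc h1)) (enc_add (enc_sub (enc_rat _ 267878709387 613039150000) (enc_scaleT 3050000 12260783 (c3g.enc h1))) (enc_mul (enc_norm (kf4q3_4.enc h1 h2)) (enc_norm (enc_subr 30253509 122607830000 (enc_neg (enc_scaleT 226100000 36782349 (c3g.enc h1))))))) (enc_sub (enc_sub (enc_rat _ 1 2) (enc_scaleT 98270000 141655683 (c3g.enc h1))) (enc_mul (enc_norm (kf4q3_4.enc h1 h2)) (enc_scaleT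 67000000 10896591 (c3g.enc h1))))))))))⟩
noncomputable def kf5q3 : Fn2 := ⟨_, _, fun h1 h2 => (enc_norm (enc_sub (enc_mul (enc_norm (enc_subn 2 h1)) (kcg.enc (enc_norm (enc_sub (enc_scaleT 1 4 h1) (enc_half (c3g.enc h1)))) h2)) (enc_mul (enc_norm (enc_mul (enc_norm (enc_sub (enc_nat 2 (c3g.enc h1)) h1)) (enc_norm (enc_sub (enc_add (c3g.enc h1) (enc_pnc _ 3)) (enc_scaleT 3 2 h1))))) (enc_inv (enc_nat 4 (enc_subn 1 h1))))))⟩
noncomputable def lm4r : Fn2 := ⟨_, _, fun h1 h2 => (enc_lam (enc_norm (enc_sub h1 (cv4r.enc h2))) (enc_sub (c3g.enc h2) (cv4r.enc h2)))⟩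
noncomputable def bf4q3_3 : Fn2 := ⟨_, _, fun h1 h2 => (enc_subr 153 160 h2)⟩
noncomputable def bf4q3 : Fn2 := ⟨_, _, fun h1 h2 => (enc_norm (enc_case (enc_subr 19697 10000 h1) (enc_case (enc_subr 191 100 h1) (enc_add (enc_subr 287551 164000 (enc_scaleT 44037 41000 h1)) (enc_mul (enc_norm (bf4q3_3.enc h1 h2)) (enc_norm (enc_sub (enc_rat _ 16130969 410000) (enc_scaleT 85739 4100 h1))))) (enc_case (enc_subr 389 200 h1) (enc_add (enc_subr 87661 50000 (enc_scaleT 537 500 h1)) (enc_mul (enc_norm (bf4q3_3.enc h1 h2)) (enc_norm (enc_sub (enc_rat _ 1376999 35000) (enc_scaleT 7319 350 h1))))) (enc_add (enc_subr 43308813 24700000 (enc_scaleT 2653 2470 h1)) (enc_mul (enc_norm (bf4q3_3.enc h1 h2)) (enc_norm (enc_sub (enc_rat _ 97193847 2470000) (enc_scaleT 5166 247 h1))))))) (enc_case (enc_sub (enc_rat _ 215220381 1000000000) (c3g.enc h1)) (enc_case (enc_sub (enc_rat _ 33784661 125000000)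 (c3g.enc h1)) (enc_add (enc_sub (enc_rat _ 1314396707601 3007489300000) (enc_scaleT 7490000 30074893 (c3g.enc h1))) (enc_mul (enc_norm (bf4q3_3.enc h1 h2)) (enc_norm (enc_sub (enc_rat _ 1142714 18796808125) (enc_scaleT 184900000 30074893 (c3g.enc h1)))))) (enc_add (enc_sub (enc_rat _ 2405898907071 5505690700000) (enc_scaleT 13700000 55056907 (c3g.enc h1))) (enc_mul (enc_norm (bf4q3_3.enc h1 h2)) (enc_norm (enc_subr 5180603 13764226750 (enc_neg (enc_scaleT 338400000 55056907 (c3g.enc h1)))))))) (enc_case (enc_sub (enc_rat _ 141655683 1000000000) (c3g.enc h1)) (enc_add (enc_sub (enc_rat _ 267878709387 613039150000) (enc_scaleT 3050000 12260783 (c3g.enc h1))) (enc_mul (enc_norm (bf4q3_3.enc h1 h2)) (enc_norm (enc_subr 30253509 122607830000 (enc_neg (enc_scaleT 226100000 36782349 (c3g.enc h1))))))) (enc_sub (enc_sub (enc_rat _ 1 2) (enc_scaleT 98270000 141655683 (c3g.enc h1)))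 (enc_mul (enc_norm (bf4q3_3.enc h1 h2)) (enc_scaleT 67000000 10896591 (c3g.enc h1))))))))⟩
noncomputable def lm3r : Fn2 := ⟨_, _, fun h1 h2 => (enc_lam (enc_norm (enc_sub h1 (cv3r.enc h2))) (enc_sub (cv4r.enc h2) (cv3r.enc h2)))⟩
noncomputable def kf3q3_4 : Fn2 := ⟨_, _, fun h1 h2 => (enc_subr 153 160 h2)⟩
noncomputable def kf3q3_6 : Fn2 := ⟨_, _, fun h1 h2 => (enc_subr 191 100 h1)⟩
noncomputable def kf3q3_31 : Fn2 := ⟨_, _, fun h1 h2 => (enc_sub (enc_rat _ 215220381 1000000000) (c3g.enc h1))⟩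
noncomputable def kf3q3_33 : Fn2 := ⟨_, _, fun h1 h2 => (enc_sub (enc_rat _ 33784661 125000000) (c3g.enc h1))⟩
noncomputable def kf3q3_56 : Fn2 := ⟨_, _, fun h1 h2 => (enc_sub (enc_rat _ 141655683 1000000000) (c3g.enc h1))⟩
noncomputable def kf3q3_81 : Fn2 := ⟨_, _, fun h1 h2 => (enc_subn 1 h1)⟩
noncomputable def kf3q3_82 : Fn2 := ⟨_, _, fun h1 h2 => (gsg.enc (enc_norm (kf3q3_81.enc h1 h2)))⟩
noncomputable def kf3q3_83 : Fn2 := ⟨_, _, fun h1 h2 => (enc_scaleT 3 4 (kf3q3_81.enc h1 h2))⟩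
noncomputable def kf3q3_84 : Fn2 := ⟨_, _, fun h1 h2 => (enc_half (kf3q3_82.enc h1 h2))⟩
noncomputable def kf3q3_86 : Fn2 := ⟨_, _, fun h1 h2 => (esg.enc (enc_norm (kf3q3_81.enc h1 h2)))⟩
noncomputable def kf3q3_87 : Fn2 := ⟨_, _, fun h1 h2 => (kcg.enc (enc_norm (enc_sub (kf3q3_83.enc h1 h2) (kf3q3_84.enc h1 h2))) h2)⟩
noncomputable def kf3q3_89 : Fn2 := ⟨_, _, fun h1 h2 => (enc_subn 2 h1)⟩
noncomputable def kf3q3_96 : Fn2 := ⟨_, _, fun h1 h2 => (enc_sub (enc_sub (kf3q3_84.enc h1 h2) (kf3q3_83.enc h1 h2)) (enc_sub (enc_rat _ 1 4) (enc_scaleT 3 8 (enc_mul (enc_norm (kf3q3_81.enc h1 h2)) (enc_inv (kf3q3_82.enc h1 h2))))))⟩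
noncomputable def kf3q3_104 : Fn2 := ⟨_, _, fun h1 h2 => (enc_subr 19697 10000 h1)⟩
noncomputable def kf3q3_116 : Fn2 := ⟨_, _, fun h1 h2 => (enc_subr 389 200 h1)⟩
noncomputable def kf3q3_183 : Fn2 := ⟨_, _, fun h1 h2 => (enc_mul (cv2r.enc h1) (enc_norm (enc_case (kf3q3_104.enc h1 h2) (enc_case (kf3q3_6.enc h1 h2) (enc_add (enc_subr 461013 51250 (enc_scaleT 92441 20500 h1)) (enc_mul (enc_norm (kf3q3_4.enc h1 h2)) (enc_norm (enc_sub (enc_rat _ 375760553 410000) (enc_scaleT 1986097 4100 h1))))) (enc_case (kf3q3_116.enc h1 h2) (enc_add (enc_subr 393557 43750 (enc_scaleT 15783 3500 h1)) (enc_mul (enc_norm (kf3q3_4.enc h1 h2)) (enc_norm (enc_sub (enc_rat _ 16038573 17500) (enc_scaleT 33909 70 h1))))) (enc_add (enc_subr 8887417 988000 (enc_scaleT 5569 1235 h1)) (enc_mul (enc_norm (kf3q3_4.enc h1 h2)) (enc_norm (enc_sub (enc_rat _ 2263723627 2470000) (enc_scaleT 119650 247 h1)))))))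 (enc_case (kf3q3_31.enc h1 h2) (enc_case (kf3q3_33.enc h1 h2) (enc_add (enc_subr 1397598034699 3007489300000 (enc_scaleT 35180000 30074893 (c3g.enc h1))) (enc_mul (enc_norm (kf3q3_4.enc h1 h2)) (enc_norm (enc_sub (enc_rat _ 11289636751 75187232500) (enc_scaleT 3786100000 30074893 (c3g.enc h1)))))) (enc_add (enc_subr 2557915533629 5505690700000 (enc_scaleT 64380000 55056907 (c3g.enc h1))) (enc_mul (enc_norm (kf3q3_4.enc h1 h2)) (enc_norm (enc_sub (enc_rat _ 20692994033 137642267500) (enc_scaleT 6931100000 55056907 (c3g.enc h1))))))) (enc_case (kf3q3_56.enc h1 h2) (enc_add (enc_subr 569694878773 1226078300000 (enc_scaleT 14340000 12260783 (c3g.enc h1))) (enc_mul (enc_norm (kf3q3_4.enc h1 h2)) (enc_norm (enc_sub (enc_rat _ 18489731691 122607830000) (enc_scaleT 4630600000 36782349 (c3g.enc h1)))))) (enc_add (enc_subr 46463 100000 (enc_scaleT 55220000 47218561 (c3g.enc h1))) (enc_mul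 (enc_norm (kf3q3_4.enc h1 h2)) (enc_norm (enc_sub (enc_rat _ 1509 10000) (enc_scaleT 1371800000 10896591 (c3g.enc h1)))))))))))⟩
noncomputable def kf3q3 : Fn2 := ⟨_, _, fun h1 h2 => (enc_norm (enc_case (kf3q3_116.enc h1 h2) (enc_mul (cv3r.enc h1) (enc_norm (enc_case (kf3q3_6.enc h1 h2) (enc_add (enc_sub (enc_rat _ 8474323 4100000) (enc_scaleT 43279 41000 h1)) (enc_mul (enc_norm (kf3q3_4.enc h1 h2)) (enc_norm (enc_sub (enc_rat _ 2285283 10000) (enc_scaleT 11479 100 h1))))) (enc_add (enc_sub (enc_rat _ 5167843667 2500000000) (enc_scaleT 26392637 25000000 h1)) (enc_mul (enc_norm (kf3q3_4.enc h1 h2)) (enc_norm (enc_sub (enc_rat _ 399922872277 1750000000) (enc_scaleT 2008816347 17500000 h1)))))))) (enc_case (kf3q3_104.enc h1 h2) (enc_add (kf3q3_183.enc h1 h2) (enc_mul (enc_norm (enc_mul (enc_norm (enc_sub (enc_wB3 (enc_mul (enc_norm (kf3q3_89.enc h1 h2)) (enc_norm (enc_add (enc_mul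 (enc_norm (kf3q3_96.enc h1 h2)) (enc_inv (kf3q3_86.enc h1 h2))) (kf3q3_87.enc h1 h2)))) (kf3q3_81.enc h1 h2) (kf3q3_82.enc h1 h2) (kf3q3_86.enc h1 h2) (kf3q3_89.enc h1 h2) (kf3q3_96.enc h1 h2) (kf3q3_87.enc h1 h2) h1 rfl rfl rfl rfl rfl) (kf3q3_183.enc h1 h2))) (enc_norm (enc_sub (cv3r.enc h1) (cv2r.enc h1))))) (enc_inv (enc_sub (enc_subr 1 2 (swg.enc h1)) (cv2r.enc h1))))) (enc_mul (cv3r.enc h1) (enc_norm (enc_case (kf3q3_31.enc h1 h2) (enc_case (kf3q3_33.enc h1 h2) (enc_add (enc_subr 5490463186068883 18796808125000000 (enc_scaleT 177045903 150374465 (c3g.enc h1))) (enc_mul (enc_norm (kf3q3_4.enc h1 h2)) (enc_norm (enc_subr 20113433682562119 469920203125000 (enc_scaleT 5261457332 30074893 (c3g.enc h1)))))) (enc_add (enc_subr 80419950851 275284535000 (enc_scaleT 64830000 55056907 (c3g.enc h1))) (enc_mul (enc_norm (kf3q3_4.enc h1 h2)) (enc_norm (enc_subr 23564972310751 550569070000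 (enc_scaleT 9631800000 55056907 (c3g.enc h1))))))) (enc_case (kf3q3_56.enc h1 h2) (enc_add (enc_subr 526009405129 2452156600000 (enc_scaleT 10015000 12260783 (c3g.enc h1))) (enc_mul (enc_norm (kf3q3_4.enc h1 h2)) (enc_norm (enc_subr 1900677596591 245215660000 (enc_scaleT 444550000 36782349 (c3g.enc h1)))))) (enc_sub (enc_sub (enc_rat _ 1 2) (enc_scaleT 199600000 47218561 (c3g.enc h1))) (enc_mul (enc_norm (kf3q3_4.enc h1 h2)) (enc_scaleT 2013000000 47218561 (c3g.enc h1)))))))))))⟩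
noncomputable def bf3q3_3 : Fn2 := ⟨_, _, fun h1 h2 => (enc_subr 153 160 h2)⟩
noncomputable def bf3q3 : Fn2 := ⟨_, _, fun h1 h2 => (enc_norm (enc_case (enc_subr 39147 20000 h1) (enc_case (enc_subr 191 100 h1) (enc_add (enc_sub (enc_rat _ 8474323 4100000) (enc_scaleT 43279 41000 h1)) (enc_mul (enc_norm (bf3q3_3.enc h1 h2)) (enc_norm (enc_sub (enc_rat _ 2285283 10000) (enc_scaleT 11479 100 h1))))) (enc_add (enc_sub (enc_rat _ 5167843667 2500000000) (enc_scaleT 26392637 25000000 h1)) (enc_mul (enc_norm (bf3q3_3.enc h1 h2)) (enc_norm (enc_sub (enc_rat _ 399922872277 1750000000) (enc_scaleT 2008816347 17500000 h1)))))) (enc_case (enc_sub (enc_rat _ 215220381 1000000000) (c3g.enc h1)) (enc_case (enc_sub (enc_rat _ 33784661 125000000) (c3g.enc h1)) (enc_add (enc_subr 5490463186068883 18796808125000000 (enc_scaleT 177045903 150374465 (c3g.enc h1))) (enc_mul (enc_norm (bf3q3_3.enc h1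 h2)) (enc_norm (enc_subr 20113433682562119 469920203125000 (enc_scaleT 5261457332 30074893 (c3g.enc h1)))))) (enc_add (enc_subr 80419950851 275284535000 (enc_scaleT 64830000 55056907 (c3g.enc h1))) (enc_mul (enc_norm (bf3q3_3.enc h1 h2)) (enc_norm (enc_subr 23564972310751 550569070000 (enc_scaleT 9631800000 55056907 (c3g.enc h1))))))) (enc_case (enc_sub (enc_rat _ 141655683 1000000000) (c3g.enc h1)) (enc_add (enc_subr 526009405129 2452156600000 (enc_scaleT 10015000 12260783 (c3g.enc h1))) (enc_mul (enc_norm (bf3q3_3.enc h1 h2)) (enc_norm (enc_subr 1900677596591 245215660000 (enc_scaleT 444550000 36782349 (c3g.enc h1)))))) (enc_sub (enc_sub (enc_rat _ 1 2) (enc_scaleT 199600000 47218561 (c3g.enc h1))) (enc_mul (enc_norm (bf3q3_3.enc h1 h2)) (enc_scaleT 2013000000 47218561 (c3g.enc h1))))))))⟩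
noncomputable def lm2r : Fn2 := ⟨_, _, fun h1 h2 => (enc_lam (enc_norm (enc_sub h1 (cv2r.enc h2))) (enc_sub (cv3r.enc h2) (cv2r.enc h2)))⟩
noncomputable def bf2q3_3 : Fn2 := ⟨_, _, fun h1 h2 => (enc_subr 153 160 h2)⟩
noncomputable def bf2q3 : Fn2 := ⟨_, _, fun h1 h2 => (enc_norm (enc_case (enc_subr 19697 10000 h1) (enc_case (enc_subr 191 100 h1) (enc_add (enc_subr 461013 51250 (enc_scaleT 92441 20500 h1)) (enc_mul (enc_norm (bf2q3_3.enc h1 h2)) (enc_norm (enc_sub (enc_rat _ 375760553 410000) (enc_scaleT 1986097 4100 h1))))) (enc_case (enc_subr 389 200 h1) (enc_add (enc_subr 393557 43750 (enc_scaleT 15783 3500 h1)) (enc_mul (enc_norm (bf2q3_3.enc h1 h2)) (enc_norm (enc_sub (enc_rat _ 16038573 17500) (enc_scaleT 33909 70 h1))))) (enc_add (enc_subr 8887417 988000 (enc_scaleT 5569 1235 h1)) (enc_mul (enc_norm (bf2q3_3.enc h1 h2)) (enc_norm (enc_sub (enc_rat _ 2263723627 2470000)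 (enc_scaleT 119650 247 h1))))))) (enc_case (enc_sub (enc_rat _ 215220381 1000000000) (c3g.enc h1)) (enc_case (enc_sub (enc_rat _ 33784661 125000000) (c3g.enc h1)) (enc_add (enc_subr 1397598034699 3007489300000 (enc_scaleT 35180000 30074893 (c3g.enc h1))) (enc_mul (enc_norm (bf2q3_3.enc h1 h2)) (enc_norm (enc_sub (enc_rat _ 11289636751 75187232500) (enc_scaleT 3786100000 30074893 (c3g.enc h1)))))) (enc_add (enc_subr 2557915533629 5505690700000 (enc_scaleT 64380000 55056907 (c3g.enc h1))) (enc_mul (enc_norm (bf2q3_3.enc h1 h2)) (enc_norm (enc_sub (enc_rat _ 20692994033 137642267500) (enc_scaleT 6931100000 55056907 (c3g.enc h1))))))) (enc_case (enc_sub (enc_rat _ 141655683 1000000000) (c3g.enc h1)) (enc_add (enc_subr 569694878773 1226078300000 (enc_scaleT 14340000 12260783 (c3g.enc h1))) (enc_mul (enc_norm (bf2q3_3.enc h1 h2)) (enc_norm (enc_sub (enc_rat _ 18489731691 122607830000)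 (enc_scaleT 4630600000 36782349 (c3g.enc h1)))))) (enc_add (enc_subr 46463 100000 (enc_scaleT 55220000 47218561 (c3g.enc h1))) (enc_mul (enc_norm (bf2q3_3.enc h1 h2)) (enc_norm (enc_sub (enc_rat _ 1509 10000) (enc_scaleT 1371800000 10896591 (c3g.enc h1))))))))))⟩
noncomputable def lm1r : Fn2 := ⟨_, _, fun h1 h2 => (enc_lam (enc_norm (enc_sub h1 (cv1r.enc h2))) (enc_sub (cv2r.enc h2) (cv1r.enc h2)))⟩
noncomputable def bf1q3_3 : Fn2 := ⟨_, _, fun h1 h2 => (enc_subr 153 160 h2)⟩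
noncomputable def bf1q3 : Fn2 := ⟨_, _, fun h1 h2 => (enc_norm (enc_case (enc_subr 19697 10000 h1) (enc_case (enc_subr 191 100 h1) (enc_add (enc_sub (enc_rat _ 6896663 410000) (enc_scaleT 180261 20500 h1)) (enc_mul (enc_norm (bf1q3_3.enc h1 h2)) (enc_norm (enc_sub (enc_rat _ 504470197 410000) (enc_scaleT 640354 1025 h1))))) (enc_case (enc_subr 389 200 h1) (enc_add (enc_sub (enc_rat _ 367959 21875) (enc_scaleT 7694 875 h1)) (enc_mul (enc_norm (bf1q3_3.enc h1 h2)) (enc_norm (enc_sub (enc_rat _ 86129263 70000) (enc_scaleT 109329 175 h1))))) (enc_add (enc_sub (enc_rat _ 207738527 12350000) (enc_scaleT 21719 2470 h1)) (enc_mul (enc_norm (bf1q3_3.enc h1 h2)) (enc_norm (enc_sub (enc_rat _ 3039111671 2470000) (enc_scaleT 154309 247 h1))))))) (enc_case (enc_sub (enc_rat _ 215220381 1000000000) (c3g.enc h1)) (enc_case (enc_sub (enc_rat _ 33784661 125000000) (c3g.enc h1)) (enc_add (enc_sub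 (enc_rat _ 1203189076337 751872325000) (enc_scaleT 210190000 30074893 (c3g.enc h1))) (enc_mul (enc_norm (bf1q3_3.enc h1 h2)) (enc_norm (enc_subr 12355945631911 75187232500 (enc_scaleT 16442600000 30074893 (c3g.enc h1)))))) (enc_add (enc_sub (enc_rat _ 2202654243419 1376422675000) (enc_scaleT 384790000 55056907 (c3g.enc h1))) (enc_mul (enc_norm (bf1q3_3.enc h1 h2)) (enc_norm (enc_subr 4523892233183 27528453500 (enc_scaleT 30100700000 55056907 (c3g.enc h1))))))) (enc_case (enc_sub (enc_rat _ 141655683 1000000000) (c3g.enc h1)) (enc_add (enc_sub (enc_rat _ 3924051920277 2452156600000) (enc_scaleT 257065000 36782349 (c3g.enc h1))) (enc_mul (enc_norm (bf1q3_3.enc h1 h2)) (enc_norm (enc_subr 8059513445829 49043132000 (enc_scaleT 20109650000 36782349 (c3g.enc h1)))))) (enc_add (enc_sub (enc_rat _ 80013 50000) (enc_scaleT 990020000 141655683 (c3g.enc h1))) (enc_mul (enc_norm (bf1q3_3.enc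 h1 h2)) (enc_norm (enc_subr 1643351 10000 (enc_scaleT 25815300000 47218561 (c3g.enc h1))))))))))⟩
noncomputable def rkbq3_36 : Fn3 := ⟨_, _, fun h1 h2 h3 => (enc_add (enc_mul h1 (bf3q3.enc h2 h3)) (enc_mul (enc_norm (enc_mul (enc_norm (enc_sub (enc_pnc _ 1) (lm2r.enc h1 h2))) (cv2r.enc h2))) (enc_norm (enc_sub (bf2q3.enc h2 h3) (bf3q3.enc h2 h3)))))⟩
noncomputable def rkbq3_37 : Fn3 := ⟨_, _, fun h1 h2 h3 => (enc_subn 1 h2)⟩
noncomputable def rkbq3_38 : Fn3 := ⟨_, _, fun h1 h2 h3 => (gsg.enc (enc_norm (rkbq3_37.enc h1 h2 h3)))⟩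
noncomputable def rkbq3_39 : Fn3 := ⟨_, _, fun h1 h2 h3 => (enc_scaleT 3 4 (rkbq3_37.enc h1 h2 h3))⟩
noncomputable def rkbq3_40 : Fn3 := ⟨_, _, fun h1 h2 h3 => (enc_half (rkbq3_38.enc h1 h2 h3))⟩
noncomputable def rkbq3_42 : Fn3 := ⟨_, _, fun h1 h2 h3 => (esg.enc (enc_norm (rkbq3_37.enc h1 h2 h3)))⟩
noncomputable def rkbq3_43 : Fn3 := ⟨_, _, fun h1 h2 h3 => (kcg.enc (enc_norm (enc_sub (rkbq3_39.enc h1 h2 h3) (rkbq3_40.enc h1 h2 h3))) h3)⟩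
noncomputable def rkbq3_45 : Fn3 := ⟨_, _, fun h1 h2 h3 => (enc_subn 2 h2)⟩
noncomputable def rkbq3_52 : Fn3 := ⟨_, _, fun h1 h2 h3 => (enc_sub (enc_sub (rkbq3_40.enc h1 h2 h3) (rkbq3_39.enc h1 h2 h3)) (enc_sub (enc_rat _ 1 4) (enc_scaleT 3 8 (enc_mul (enc_norm (rkbq3_37.enc h1 h2 h3)) (enc_inv (rkbq3_38.enc h1 h2 h3))))))⟩
noncomputable def rkbq3_57 : Fn3 := ⟨_, _, fun h1 h2 h3 => (enc_wB3 (enc_mul (enc_norm (rkbq3_45.enc h1 h2 h3)) (enc_norm (enc_add (enc_mul (enc_norm (rkbq3_52.enc h1 h2 h3)) (enc_inv (rkbq3_42.enc h1 h2 h3))) (rkbq3_43.enc h1 h2 h3)))) (rkbq3_37.enc h1 h2 h3) (rkbq3_38.enc h1 h2 h3) (rkbq3_42.enc h1 h2 h3) (rkbq3_45.enc h1 h2 h3) (rkbq3_52.enc h1 h2 h3) (rkbq3_43.enc h1 h2 h3) h2 rfl rfl rfl rfl rfl)⟩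
noncomputable def rkbq3_62 : Fn3 := ⟨_, _, fun h1 h2 h3 => (enc_subr 1 2 (swg.enc h2))⟩
noncomputable def rkbq3_63 : Fn3 := ⟨_, _, fun h1 h2 h3 => (enc_sub h1 (cv2r.enc h2))⟩
noncomputable def rkbq3 : Fn3 := ⟨_, _, fun h1 h2 h3 => (enc_case (enc_sub h1 (cv1r.enc h2)) (enc_mul h1 (bf1q3.enc h2 h3)) (enc_case (rkbq3_63.enc h1 h2 h3) (enc_add (enc_mul h1 (bf2q3.enc h2 h3)) (enc_mul (enc_norm (enc_mul (enc_norm (enc_sub (enc_pnc _ 1) (lm1r.enc h1 h2))) (cv1r.enc h2))) (enc_norm (enc_sub (bf1q3.enc h2 h3) (bf2q3.enc h2 h3))))) (enc_case (enc_sub h1 (cv3r.enc h2)) (enc_case (enc_subr 389 200 h2) (rkbq3_36.enc h1 h2 h3) (enc_case (enc_subr 19697 10000 h2) (enc_wL (enc_add (kf2q3.enc h2 h3) (enc_mul (enc_norm (enc_mul (enc_norm (rkbq3_63.enc h1 h2 h3)) (enc_inv (enc_sub (rkbq3_62.enc h1 h2 h3) (cv2r.enc h2))))) (enc_norm (enc_sub (rkbq3_57.enc h1 h2 h3) (kf2q3.enc h2 h3))))) h1 (rkbq3_62.enc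 h1 h2 h3) (cv2r.enc h2) (rkbq3_57.enc h1 h2 h3) (kf2q3.enc h2 h3) rfl) (rkbq3_36.enc h1 h2 h3))) (enc_case (enc_sub h1 (cv4r.enc h2)) (enc_add (enc_mul h1 (bf4q3.enc h2 h3)) (enc_mul (enc_norm (enc_sub (enc_pnc _ 1) (lm3r.enc h1 h2))) (enc_norm (enc_sub (kf3q3.enc h2 h3) (enc_mul (cv3r.enc h2) (bf4q3.enc h2 h3)))))) (enc_add (kf4q3.enc h2 h3) (enc_mul (lm4r.enc h1 h2) (enc_norm (enc_sub (kf5q3.enc h2 h3) (kf4q3.enc h2 h3)))))))))⟩
noncomputable def rsbq3 : Fn3 := ⟨_, _, fun h1 h2 h3 => (enc_case h1 (enc_neg (rkbq3.enc (enc_neg h1) h2 h3)) (rkbq3.enc h1 h2 h3))⟩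
noncomputable def bx3q0_3 : Fn2 := ⟨_, _, fun h1 h2 => (enc_subr 153 160 h2)⟩
noncomputable def bx3q0_48 : Fn2 := ⟨_, _, fun h1 h2 => (enc_sq (enc_norm (bx3q0_3.enc h1 h2)))⟩
noncomputable def bx3q0 : Fn2 := ⟨_, _, fun h1 h2 => (enc_norm (enc_case (enc_subr 853 20000 h1) (enc_case (enc_subr 31 2000 h1) (enc_case (enc_subr 67 10000 h1) (enc_add (enc_add (enc_scaleT 343 335 h1) (enc_rat _ 3297 100000)) (enc_mul (enc_norm (bx3q0_3.enc h1 h2)) (enc_norm (enc_add (enc_scaleT 6 67 h1) (enc_rat _ 13 250))))) (enc_add (enc_add (enc_scaleT 901 880 h1) (enc_rat _ 290137 8800000)) (enc_mul (enc_norm (bx3q0_3.enc h1 h2)) (enc_norm (enc_add (enc_scaleT 1 11 h1) (enc_rat _ 5719 110000)))))) (enc_case (enc_subr 49 2000 h1) (enc_add (enc_add (enc_scaleT 911 900 h1) (enc_rat _ 59671 1800000)) (enc_mul (enc_norm (bx3q0_3.enc h1 h2)) (enc_norm (enc_add (enc_scaleT 1 15 h1) (enc_rat _ 1571 30000)))))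 (enc_add (enc_add (enc_add (enc_scaleT 50361739 58000000 h1) (enc_rat _ 4254474789 116000000000)) (enc_mul (enc_norm (bx3q0_3.enc h1 h2)) (enc_norm (enc_sub (enc_rat _ 730032839 2900000000) (enc_scaleT 11702711 1450000 h1))))) (enc_mul (bx3q0_48.enc h1 h2) (enc_norm (enc_subr 1185359 464000 (enc_scaleT 24191 232 h1))))))) (enc_case (enc_subr 4 25 h1) (enc_case (enc_subr 7 100 h1) (enc_add (enc_add (enc_add (enc_scaleT 2065907 18750000 h1) (enc_rat _ 142644901 1875000000)) (enc_mul (enc_norm (bx3q0_3.enc h1 h2)) (enc_norm (enc_sub (enc_rat _ 1598028583 1500000000) (enc_scaleT 258418369 15000000 h1))))) (enc_mul (bx3q0_48.enc h1 h2) (enc_norm (enc_sub (enc_rat _ 512323 300000) (enc_scaleT 73189 3000 h1))))) (enc_case (enc_subr 1 10 h1) (enc_add (enc_add (enc_scaleT 11 100 h1) (enc_rat _ 7609 100000)) (enc_mul (enc_norm (bx3q0_3.enc h1 h2)) (enc_norm (enc_sub (enc_rat _ 107 2500)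 (enc_scaleT 131 50 h1))))) (enc_add (enc_add (enc_scaleT 331 3000 h1) (enc_rat _ 22817 300000)) (enc_mul (enc_norm (bx3q0_3.enc h1 h2)) (enc_norm (enc_sub (enc_rat _ 301 7500) (enc_scaleT 389 150 h1))))))) (enc_case (enc_subr 1 4 h1) (enc_add (enc_add (enc_scaleT 991 9000 h1) (enc_rat _ 68483 900000)) (enc_mul (enc_norm (bx3q0_3.enc h1 h2)) (enc_norm (enc_sub (enc_rat _ 87 2500) (enc_scaleT 64 25 h1))))) (enc_case (enc_subr 7 20 h1) (enc_add (enc_add (enc_scaleT 1099 10000 h1) (enc_rat _ 15229 200000)) (enc_mul (enc_norm (bx3q0_3.enc h1 h2)) (enc_norm (enc_sub (enc_rat _ 13 625) (enc_scaleT 313 125 h1))))) (enc_add (enc_sub (enc_rat _ 13081 75000) (enc_scaleT 2563 15000 h1)) (enc_mul (enc_norm (bx3q0_3.enc h1 h2)) (enc_norm (enc_subr 15193 15000 (enc_scaleT 337 750 h1))))))))))⟩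
noncomputable def rxq0_36 : Fn3 := ⟨_, _, fun h1 h2 h3 => (enc_add (enc_mul h1 (bx3q0.enc h2 h3)) (enc_mul (enc_norm (enc_mul (enc_norm (enc_sub (enc_pnc _ 1) (lm2m.enc h1 h2))) (cv2m.enc h2))) (enc_norm (enc_sub (bx2q0.enc h2 h3) (bx3q0.enc h2 h3)))))⟩
noncomputable def rxq0_38 : Fn3 := ⟨_, _, fun h1 h2 h3 => (enc_sub (enc_pnc _ 1) h2)⟩
noncomputable def rxq0_50 : Fn3 := ⟨_, _, fun h1 h2 h3 => (enc_sub (qsg.enc (enc_norm (rxq0_38.enc h1 h2 h3))) (enc_mul (enc_norm (enc_nat 2 (enc_sub (rxq0_38.enc h1 h2 h3) h3))) (enc_norm (enc_mul (esg.enc (enc_norm (rxq0_38.enc h1 h2 h3))) (kcg.enc (enc_norm (enc_sub (enc_scaleT 3 4 (rxq0_38.enc h1 h2 h3)) (enc_half (gsg.enc (enc_norm (rxq0_38.enc h1 h2 h3)))))) h3)))))⟩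
noncomputable def rxq0_54 : Fn3 := ⟨_, _, fun h1 h2 h3 => (enc_add (swg.enc h2) (enc_rat _ 1 2))⟩
noncomputable def rxq0_55 : Fn3 := ⟨_, _, fun h1 h2 h3 => (enc_sub h1 (cv2m.enc h2))⟩
noncomputable def rxq0 : Fn3 := ⟨_, _, fun h1 h2 h3 => (enc_case (enc_sub h1 (cv1m.enc h2)) (enc_add (enc_mul h1 (bx1q0.enc h2 h3)) (enc_mul (enc_norm (enc_sub (enc_pnc _ 1) (lm0m.enc h1 h2))) (enc_norm (enc_sub (l0q0.enc h2 h3) (enc_mul (c1g.enc h2) (bx1q0.enc h2 h3)))))) (enc_case (rxq0_55.enc h1 h2 h3) (enc_add (enc_mul h1 (bx2q0.enc h2 h3)) (enc_mul (enc_norm (enc_mul (enc_norm (enc_sub (enc_pnc _ 1) (lm1m.enc h1 h2))) (cv1m.enc h2))) (enc_norm (enc_sub (bx1q0.enc h2 h3) (bx2q0.enc h2 h3))))) (enc_case (enc_sub h1 (cv3m.enc h2)) (enc_case (enc_subr 303 10000 h2) (rxq0_36.enc h1 h2 h3) (enc_case (enc_subr 11 200 h2) (enc_wL (enc_add (l2q0.enc h2 h3) (enc_mul (enc_norm (enc_mul (enc_norm (rxq0_55.enc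 h1 h2 h3)) (enc_inv (enc_sub (rxq0_54.enc h1 h2 h3) (cv2m.enc h2))))) (enc_norm (enc_sub (rxq0_50.enc h1 h2 h3) (l2q0.enc h2 h3))))) h1 (rxq0_54.enc h1 h2 h3) (cv2m.enc h2) (rxq0_50.enc h1 h2 h3) (l2q0.enc h2 h3) rfl) (rxq0_36.enc h1 h2 h3))) (enc_case (enc_sub h1 (cv4m.enc h2)) (enc_add (enc_mul h1 (bx4q0.enc h2 h3)) (enc_mul (enc_norm (enc_sub (enc_pnc _ 1) (lm3m.enc h1 h2))) (enc_norm (enc_sub (l3q0.enc h2 h3) (enc_mul (cv3m.enc h2) (bx4q0.enc h2 h3)))))) (enc_add (l4q0.enc h2 h3) (enc_mul (lm4m.enc h1 h2) (enc_norm (enc_sub (l5q0.enc h2 h3) (l4q0.enc h2 h3)))))))))⟩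
noncomputable def rlq0 : Fn3 := ⟨_, _, fun h1 h2 h3 => (enc_case h1 (enc_neg (rxq0.enc (enc_neg h1) h2 h3)) (rxq0.enc h1 h2 h3))⟩
noncomputable def rxq1 : Fn3 := ⟨_, _, fun h1 h2 h3 => (enc_case (enc_sub h1 (cv1m.enc h2)) (enc_add (enc_mul h1 (bx1q1.enc h2 h3)) (enc_mul (enc_norm (enc_sub (enc_pnc _ 1) (lm0m.enc h1 h2))) (enc_norm (enc_sub (l0q1.enc h2 h3) (enc_mul (c1g.enc h2) (bx1q1.enc h2 h3)))))) (enc_case (enc_sub h1 (cv2m.enc h2)) (enc_add (enc_mul h1 (bx2q1.enc h2 h3)) (enc_mul (enc_norm (enc_mul (enc_norm (enc_sub (enc_pnc _ 1) (lm1m.enc h1 h2))) (cv1m.enc h2))) (enc_norm (enc_sub (bx1q1.enc h2 h3) (bx2q1.enc h2 h3))))) (enc_case (enc_sub h1 (cv3m.enc h2)) (enc_add (enc_mul h1 (bx3q1.enc h2 h3)) (enc_mul (enc_norm (enc_mul (enc_norm (enc_sub (enc_pnc _ 1) (lm2m.enc h1 h2))) (cv2m.enc h2))) (enc_norm (enc_sub (bx2q1.enc h2 h3) (bx3q1.enc h2 h3))))) (enc_case (enc_sub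 h1 (cv4m.enc h2)) (enc_add (enc_mul h1 (bx4q1.enc h2 h3)) (enc_mul (enc_norm (enc_mul (enc_norm (enc_sub (enc_pnc _ 1) (lm3m.enc h1 h2))) (cv3m.enc h2))) (enc_norm (enc_sub (bx3q1.enc h2 h3) (bx4q1.enc h2 h3))))) (enc_add (l4q1.enc h2 h3) (enc_mul (lm4m.enc h1 h2) (enc_norm (enc_sub (l5q1.enc h2 h3) (l4q1.enc h2 h3)))))))))⟩
noncomputable def rlq1 : Fn3 := ⟨_, _, fun h1 h2 h3 => (enc_case h1 (enc_neg (rxq1.enc (enc_neg h1) h2 h3)) (rxq1.enc h1 h2 h3))⟩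
noncomputable def l0q2_7 : Fn2 := ⟨_, _, fun h1 h2 => (enc_scaleT 3 4 h1)⟩
noncomputable def l0q2_8 : Fn2 := ⟨_, _, fun h1 h2 => (enc_half (c1g.enc h1))⟩
noncomputable def l0q2 : Fn2 := ⟨_, _, fun h1 h2 => (enc_norm (enc_sub (txg.enc (enc_neg (c1g.enc h1)) (enc_norm (enc_add (l0q2_7.enc h1 h2) (l0q2_8.enc h1 h2))) h2) (txg.enc (c1g.enc h1) (enc_norm (enc_sub (l0q2_7.enc h1 h2) (l0q2_8.enc h1 h2))) h2)))⟩
noncomputable def n0x : Fn2 := ⟨_, _, fun h1 h2 => (enc_norm (enc_subr 1370961 5000000 (enc_neg (enc_scaleT 110669 500000 (enc_subr 153 160 h2)))))⟩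
noncomputable def rxq2_51 : Fn3 := ⟨_, _, fun h1 h2 h3 => (enc_mul h1 (bx1q2.enc h2 h3))⟩
noncomputable def rxq2_53 : Fn3 := ⟨_, _, fun h1 h2 h3 => (enc_sub (enc_pnc _ 1) (lm0p.enc h1 h2))⟩
noncomputable def rxq2 : Fn3 := ⟨_, _, fun h1 h2 h3 => (enc_case (enc_sub h1 (cv1p.enc h2)) (enc_case (enc_subr 1149 1000 h2) (enc_add (rxq2_51.enc h1 h2 h3) (enc_mul (enc_norm (rxq2_53.enc h1 h2 h3)) (enc_norm (enc_sub (l0q2.enc h2 h3) (enc_mul (c1g.enc h2) (bx1q2.enc h2 h3)))))) (enc_case (enc_subr 2887 2500 h2) (enc_add (rxq2_51.enc h1 h2 h3) (enc_mul (enc_norm (rxq2_53.enc h1 h2 h3)) (enc_norm (enc_mul (c1g.enc h2) (enc_norm (enc_sub (n0x.enc h2 h3) (bx1q2.enc h2 h3))))))) (rxq2_51.enc h1 h2 h3))) (enc_case (enc_sub h1 (cv2p.enc h2)) (enc_add (enc_mul h1 (bx2q2.enc h2 h3)) (enc_mul (enc_norm (enc_mul (enc_norm (enc_sub (enc_pnc _ 1) (lm1p.enc h1 h2))) (cv1p.enc h2))) (enc_norm (enc_sub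 (bx1q2.enc h2 h3) (bx2q2.enc h2 h3))))) (enc_case (enc_sub h1 (cv3p.enc h2)) (enc_add (enc_mul h1 (bx3q2.enc h2 h3)) (enc_mul (enc_norm (enc_mul (enc_norm (enc_sub (enc_pnc _ 1) (lm2p.enc h1 h2))) (cv2p.enc h2))) (enc_norm (enc_sub (bx2q2.enc h2 h3) (bx3q2.enc h2 h3))))) (enc_case (enc_sub h1 (cv4p.enc h2)) (enc_add (enc_mul h1 (bx4q2.enc h2 h3)) (enc_mul (enc_norm (enc_mul (enc_norm (enc_sub (enc_pnc _ 1) (lm3p.enc h1 h2))) (cv3p.enc h2))) (enc_norm (enc_sub (bx3q2.enc h2 h3) (bx4q2.enc h2 h3))))) (enc_add (l4q2.enc h2 h3) (enc_mul (lm4p.enc h1 h2) (enc_norm (enc_sub (l5q2.enc h2 h3) (l4q2.enc h2 h3)))))))))⟩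
noncomputable def rlq2 : Fn3 := ⟨_, _, fun h1 h2 h3 => (enc_case h1 (enc_neg (rxq2.enc (enc_neg h1) h2 h3)) (rxq2.enc h1 h2 h3))⟩
noncomputable def l4q3_4 : Fn2 := ⟨_, _, fun h1 h2 => (enc_subr 153 160 h2)⟩
noncomputable def l4q3 : Fn2 := ⟨_, _, fun h1 h2 => (enc_norm (enc_mul (cv4r.enc h1) (enc_norm (enc_case (enc_subr 19697 10000 h1) (enc_case (enc_subr 191 100 h1) (enc_add (enc_subr 883709 512500 (enc_scaleT 52067 41000 h1)) (enc_mul (enc_norm (l4q3_4.enc h1 h2)) (enc_norm (enc_add (enc_scaleT 1913 4100 h1) (enc_rat _ 367369 410000))))) (enc_case (enc_subr 389 200 h1) (enc_add (enc_subr 1206733 700000 (enc_scaleT 1111 875 h1)) (enc_mul (enc_norm (l4q3_4.enc h1 h2)) (enc_norm (enc_add (enc_scaleT 163 350 h1) (enc_rat _ 31419 35000))))) (enc_add (enc_subr 42596107 24700000 (enc_scaleT 3137 2470 h1)) (enc_mul (enc_norm (l4q3_4.enc h1 h2)) (enc_norm (enc_add (enc_scaleT 116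 247 h1) (enc_rat _ 439689 494000))))))) (enc_case (enc_sub (enc_rat _ 215220381 1000000000) (c3g.enc h1)) (enc_case (enc_sub (enc_rat _ 33784661 125000000) (c3g.enc h1)) (enc_add (enc_sub (enc_rat _ 2409384511079 3007489300000) (enc_scaleT 2410000 30074893 (c3g.enc h1))) (enc_mul (enc_norm (l4q3_4.enc h1 h2)) (enc_norm (enc_add (enc_scaleT 102500000 30074893 (c3g.enc h1)) (enc_rat _ 119014198659 150374465000))))) (enc_add (enc_sub (enc_rat _ 4410713013937 5505690700000) (enc_scaleT 4410000 55056907 (c3g.enc h1))) (enc_mul (enc_norm (l4q3_4.enc h1 h2)) (enc_norm (enc_add (enc_scaleT 187500000 55056907 (c3g.enc h1)) (enc_rat _ 218067337141 275284535000)))))) (enc_case (enc_sub (enc_rat _ 141655683 1000000000) (c3g.enc h1)) (enc_add (enc_sub (enc_rat _ 1955699154917 2452156600000) (enc_scaleT 2335000 36782349 (c3g.enc h1))) (enc_mul (enc_norm (l4q3_4.enc h1 h2)) (enc_norm (enc_add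 (enc_scaleT 125450000 36782349 (c3g.enc h1)) (enc_rat _ 193982424423 245215660000))))) (enc_add (enc_add (enc_scaleT 371703503927 10407443030010 (c3g.enc h1)) (enc_rat _ 57563064996073 73470000000000)) (enc_mul (enc_norm (l4q3_4.enc h1 h2)) (enc_norm (enc_add (enc_scaleT 3567997826693 1040744303001 (c3g.enc h1)) (enc_rat _ 5793549573307 7347000000000)))))))))))⟩
noncomputable def l5q3_7 : Fn2 := ⟨_, _, fun h1 h2 => (enc_half (c3g.enc h1))⟩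
noncomputable def l5q3_8 : Fn2 := ⟨_, _, fun h1 h2 => (enc_scaleT 1 4 h1)⟩
noncomputable def l5q3_9 : Fn2 := ⟨_, _, fun h1 h2 => (enc_sub (l5q3_7.enc h1 h2) (l5q3_8.enc h1 h2))⟩
noncomputable def l5q3_12 : Fn2 := ⟨_, _, fun h1 h2 => (enc_add (enc_scaleT 1 4 (c3g.enc h1)) (enc_scaleT 3 8 h1))⟩
noncomputable def l5q3_14 : Fn2 := ⟨_, _, fun h1 h2 => (enc_half (l5q3_9.enc h1 h2))⟩
noncomputable def l5q3 : Fn2 := ⟨_, _, fun h1 h2 => (enc_norm (enc_sub (enc_nat 2 (txg.enc (enc_norm (enc_sub (l5q3_8.enc h1 h2) (l5q3_7.enc h1 h2))) (enc_norm (enc_add (l5q3_12.enc h1 h2) (l5q3_14.enc h1 h2))) h2)) (txg.enc (enc_norm (l5q3_9.enc h1 h2)) (enc_norm (enc_sub (l5q3_12.enc h1 h2) (l5q3_14.enc h1 h2))) h2)))⟩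
noncomputable def bx4q3_3 : Fn2 := ⟨_, _, fun h1 h2 => (enc_subr 153 160 h2)⟩
noncomputable def bx4q3 : Fn2 := ⟨_, _, fun h1 h2 => (enc_norm (enc_case (enc_subr 19697 10000 h1) (enc_case (enc_subr 191 100 h1) (enc_add (enc_subr 883709 512500 (enc_scaleT 52067 41000 h1)) (enc_mul (enc_norm (bx4q3_3.enc h1 h2)) (enc_norm (enc_add (enc_scaleT 1913 4100 h1) (enc_rat _ 367369 410000))))) (enc_case (enc_subr 389 200 h1) (enc_add (enc_subr 1206733 700000 (enc_scaleT 1111 875 h1)) (enc_mul (enc_norm (bx4q3_3.enc h1 h2)) (enc_norm (enc_add (enc_scaleT 163 350 h1) (enc_rat _ 31419 35000))))) (enc_add (enc_subr 42596107 24700000 (enc_scaleT 3137 2470 h1)) (enc_mul (enc_norm (bx4q3_3.enc h1 h2)) (enc_norm (enc_add (enc_scaleT 116 247 h1) (enc_rat _ 439689 494000))))))) (enc_case (enc_sub (enc_rat _ 215220381 1000000000) (c3g.enc h1)) (enc_case (enc_sub (enc_rat _ 33784661 125000000) (c3g.enc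 h1)) (enc_add (enc_sub (enc_rat _ 2409384511079 3007489300000) (enc_scaleT 2410000 30074893 (c3g.enc h1))) (enc_mul (enc_norm (bx4q3_3.enc h1 h2)) (enc_norm (enc_add (enc_scaleT 102500000 30074893 (c3g.enc h1)) (enc_rat _ 119014198659 150374465000))))) (enc_add (enc_sub (enc_rat _ 4410713013937 5505690700000) (enc_scaleT 4410000 55056907 (c3g.enc h1))) (enc_mul (enc_norm (bx4q3_3.enc h1 h2)) (enc_norm (enc_add (enc_scaleT 187500000 55056907 (c3g.enc h1)) (enc_rat _ 218067337141 275284535000)))))) (enc_case (enc_sub (enc_rat _ 141655683 1000000000) (c3g.enc h1)) (enc_add (enc_sub (enc_rat _ 1955699154917 2452156600000) (enc_scaleT 2335000 36782349 (c3g.enc h1))) (enc_mul (enc_norm (bx4q3_3.enc h1 h2)) (enc_norm (enc_add (enc_scaleT 125450000 36782349 (c3g.enc h1)) (enc_rat _ 193982424423 245215660000))))) (enc_add (enc_add (enc_scaleT 371703503927 10407443030010 (c3g.enc h1))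 (enc_rat _ 57563064996073 73470000000000)) (enc_mul (enc_norm (bx4q3_3.enc h1 h2)) (enc_norm (enc_add (enc_scaleT 3567997826693 1040744303001 (c3g.enc h1)) (enc_rat _ 5793549573307 7347000000000)))))))))⟩
noncomputable def l3q3_4 : Fn2 := ⟨_, _, fun h1 h2 => (enc_subr 153 160 h2)⟩
noncomputable def l3q3_6 : Fn2 := ⟨_, _, fun h1 h2 => (enc_subr 191 100 h1)⟩
noncomputable def l3q3_31 : Fn2 := ⟨_, _, fun h1 h2 => (enc_sq (enc_norm (l3q3_4.enc h1 h2)))⟩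
noncomputable def l3q3_38 : Fn2 := ⟨_, _, fun h1 h2 => (enc_sub (enc_rat _ 215220381 1000000000) (c3g.enc h1))⟩
noncomputable def l3q3_40 : Fn2 := ⟨_, _, fun h1 h2 => (enc_sub (enc_rat _ 33784661 125000000) (c3g.enc h1))⟩
noncomputable def l3q3_67 : Fn2 := ⟨_, _, fun h1 h2 => (enc_sub (enc_rat _ 141655683 1000000000) (c3g.enc h1))⟩
noncomputable def l3q3_90 : Fn2 := ⟨_, _, fun h1 h2 => (enc_subn 1 h1)⟩
noncomputable def l3q3_105 : Fn2 := ⟨_, _, fun h1 h2 => (enc_subr 19697 10000 h1)⟩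
noncomputable def l3q3_116 : Fn2 := ⟨_, _, fun h1 h2 => (enc_subr 389 200 h1)⟩
noncomputable def l3q3_177 : Fn2 := ⟨_, _, fun h1 h2 => (enc_mul (cv2r.enc h1) (enc_norm (enc_case (l3q3_105.enc h1 h2) (enc_case (l3q3_6.enc h1 h2) (enc_add (enc_subr 1771703 1025000 (enc_scaleT 6974 5125 h1)) (enc_mul (enc_norm (l3q3_4.enc h1 h2)) (enc_norm (enc_add (enc_scaleT 1453 4100 h1) (enc_rat _ 45983 102500))))) (enc_case (l3q3_116.enc h1 h2) (enc_add (enc_subr 605023 350000 (enc_scaleT 4763 3500 h1)) (enc_mul (enc_norm (l3q3_4.enc h1 h2)) (enc_norm (enc_add (enc_scaleT 62 175 h1) (enc_rat _ 31417 70000))))) (enc_add (enc_subr 42691169 24700000 (enc_scaleT 3361 2470 h1)) (enc_mul (enc_norm (l3q3_4.enc h1 h2)) (enc_norm (enc_add (enc_scaleT 88 247 h1) (enc_rat _ 1099013 2470000))))))) (enc_case (l3q3_38.enc h1 h2) (enc_case (l3q3_40.enc h1 h2) (enc_add (enc_add (enc_scaleT 5220000 30074893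 (c3g.enc h1)) (enc_rat _ 270586477683 300748930000)) (enc_mul (enc_norm (l3q3_4.enc h1 h2)) (enc_norm (enc_sub (enc_rat _ 2125774808149 150374465000) (enc_scaleT 1300700000 30074893 (c3g.enc h1)))))) (enc_add (enc_add (enc_scaleT 12120000 55056907 (c3g.enc h1)) (enc_rat _ 2442110428689 2752845350000)) (enc_mul (enc_norm (l3q3_4.enc h1 h2)) (enc_norm (enc_subr 155073932693 275284535000 (enc_scaleT 613300000 55056907 (c3g.enc h1))))))) (enc_case (l3q3_67.enc h1 h2) (enc_add (enc_add (enc_scaleT 8095000 36782349 (c3g.enc h1)) (enc_rat _ 2175393077087 2452156600000)) (enc_mul (enc_norm (l3q3_4.enc h1 h2)) (enc_norm (enc_subr 27603363701 49043132000 (enc_scaleT 136550000 12260783 (c3g.enc h1)))))) (enc_add (enc_add (enc_scaleT 10390000 47218561 (c3g.enc h1)) (enc_rat _ 44357 50000)) (enc_mul (enc_norm (l3q3_4.enc h1 h2)) (enc_norm (enc_subr 1407 2500 (enc_scaleT 1577600000 141655683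 (c3g.enc h1)))))))))))⟩
noncomputable def l3q3 : Fn2 := ⟨_, _, fun h1 h2 => (enc_norm (enc_case (l3q3_116.enc h1 h2) (enc_mul (cv3r.enc h1) (enc_norm (enc_case (l3q3_6.enc h1 h2) (enc_add (enc_subr 976941 1025000 (enc_scaleT 38091 41000 h1)) (enc_mul (enc_norm (l3q3_4.enc h1 h2)) (enc_norm (enc_sub (enc_rat _ 172471 41000) (enc_scaleT 9459 4100 h1))))) (enc_add (enc_add (enc_subr 33357392451 35000000000 (enc_scaleT 325158861 350000000 h1)) (enc_mul (enc_norm (l3q3_4.enc h1 h2)) (enc_norm (enc_subr 71919011419 700000000 (enc_scaleT 375806709 7000000 h1))))) (enc_mul (l3q3_31.enc h1 h2) (enc_norm (enc_subr 19531087 109375 (enc_scaleT 409028 4375 h1)))))))) (enc_case (l3q3_105.enc h1 h2) (enc_add (l3q3_177.enc h1 h2) (enc_mul (enc_norm (enc_mul (enc_norm (enc_sub (enc_sub (qsg.enc (enc_norm (l3q3_90.enc h1 h2))) (enc_mul (enc_norm (enc_nat 2 (enc_sub (l3q3_90.enc h1 h2) h2)))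 (enc_norm (enc_mul (esg.enc (enc_norm (l3q3_90.enc h1 h2))) (kcg.enc (enc_norm (enc_sub (enc_scaleT 3 4 (l3q3_90.enc h1 h2)) (enc_half (gsg.enc (enc_norm (l3q3_90.enc h1 h2)))))) h2))))) (l3q3_177.enc h1 h2))) (enc_norm (enc_sub (cv3r.enc h1) (cv2r.enc h1))))) (enc_inv (enc_sub (enc_subr 1 2 (swg.enc h1)) (cv2r.enc h1))))) (enc_mul (cv3r.enc h1) (enc_norm (enc_case (l3q3_38.enc h1 h2) (enc_case (l3q3_40.enc h1 h2) (enc_add (enc_add (enc_sub (enc_rat _ 1100623066786083 1174800507812500) (enc_scaleT 33153898 150374465 (c3g.enc h1))) (enc_mul (enc_norm (l3q3_4.enc h1 h2)) (enc_norm (enc_subr 936124047355979 375936162500000 (enc_scaleT 423522390 30074893 (c3g.enc h1)))))) (enc_mul (l3q3_31.enc h1 h2) (enc_norm (enc_subr 227116606525297 3759361625000 (enc_scaleT 6722477000 30074893 (c3g.enc h1)))))) (enc_add (enc_add (enc_scaleT 360000 55056907 (c3g.enc h1)) (enc_rat _ 4820247298021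 5505690700000)) (enc_mul (enc_norm (l3q3_4.enc h1 h2)) (enc_norm (enc_add (enc_scaleT 63800000 55056907 (c3g.enc h1)) (enc_rat _ 69013998297 68821133750)))))) (enc_case (l3q3_67.enc h1 h2) (enc_add (enc_add (enc_scaleT 2165000 12260783 (c3g.enc h1)) (enc_rat _ 2057130219133 2452156600000)) (enc_mul (enc_norm (l3q3_4.enc h1 h2)) (enc_norm (enc_subr 5078635697 12260783000 (enc_scaleT 284800000 36782349 (c3g.enc h1)))))) (enc_add (enc_add (enc_scaleT 5909137403927 10407443030010 (c3g.enc h1)) (enc_rat _ 57563064996073 73470000000000)) (enc_mul (enc_norm (l3q3_4.enc h1 h2)) (enc_norm (enc_sub (enc_rat _ 5793549573307 7347000000000) (enc_scaleT 778487373307 1040744303001 (c3g.enc h1)))))))))))))⟩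
noncomputable def bx3q3_3 : Fn2 := ⟨_, _, fun h1 h2 => (enc_subr 153 160 h2)⟩
noncomputable def bx3q3_30 : Fn2 := ⟨_, _, fun h1 h2 => (enc_sq (enc_norm (bx3q3_3.enc h1 h2)))⟩
noncomputable def bx3q3 : Fn2 := ⟨_, _, fun h1 h2 => (enc_norm (enc_case (enc_subr 39147 20000 h1) (enc_case (enc_subr 191 100 h1) (enc_add (enc_subr 976941 1025000 (enc_scaleT 38091 41000 h1)) (enc_mul (enc_norm (bx3q3_3.enc h1 h2)) (enc_norm (enc_sub (enc_rat _ 172471 41000) (enc_scaleT 9459 4100 h1))))) (enc_add (enc_add (enc_subr 33357392451 35000000000 (enc_scaleT 325158861 350000000 h1)) (enc_mul (enc_norm (bx3q3_3.enc h1 h2)) (enc_norm (enc_subr 71919011419 700000000 (enc_scaleT 375806709 7000000 h1))))) (enc_mul (bx3q3_30.enc h1 h2) (enc_norm (enc_subr 19531087 109375 (enc_scaleT 409028 4375 h1)))))) (enc_case (enc_sub (enc_rat _ 215220381 1000000000) (c3g.enc h1)) (enc_case (enc_sub (enc_rat _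 33784661 125000000) (c3g.enc h1)) (enc_add (enc_add (enc_sub (enc_rat _ 1100623066786083 1174800507812500) (enc_scaleT 33153898 150374465 (c3g.enc h1))) (enc_mul (enc_norm (bx3q3_3.enc h1 h2)) (enc_norm (enc_subr 936124047355979 375936162500000 (enc_scaleT 423522390 30074893 (c3g.enc h1)))))) (enc_mul (bx3q3_30.enc h1 h2) (enc_norm (enc_subr 227116606525297 3759361625000 (enc_scaleT 6722477000 30074893 (c3g.enc h1)))))) (enc_add (enc_add (enc_scaleT 360000 55056907 (c3g.enc h1)) (enc_rat _ 4820247298021 5505690700000)) (enc_mul (enc_norm (bx3q3_3.enc h1 h2)) (enc_norm (enc_add (enc_scaleT 63800000 55056907 (c3g.enc h1)) (enc_rat _ 69013998297 68821133750)))))) (enc_case (enc_sub (enc_rat _ 141655683 1000000000) (c3g.enc h1)) (enc_add (enc_add (enc_scaleT 2165000 12260783 (c3g.enc h1)) (enc_rat _ 2057130219133 2452156600000)) (enc_mul (enc_norm (bx3q3_3.enc h1 h2)) (enc_norm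 (enc_subr 5078635697 12260783000 (enc_scaleT 284800000 36782349 (c3g.enc h1)))))) (enc_add (enc_add (enc_scaleT 5909137403927 10407443030010 (c3g.enc h1)) (enc_rat _ 57563064996073 73470000000000)) (enc_mul (enc_norm (bx3q3_3.enc h1 h2)) (enc_norm (enc_sub (enc_rat _ 5793549573307 7347000000000) (enc_scaleT 778487373307 1040744303001 (c3g.enc h1))))))))))⟩
noncomputable def bx2q3_3 : Fn2 := ⟨_, _, fun h1 h2 => (enc_subr 153 160 h2)⟩
noncomputable def bx2q3 : Fn2 := ⟨_, _, fun h1 h2 => (enc_norm (enc_case (enc_subr 19697 10000 h1) (enc_case (enc_subr 191 100 h1) (enc_add (enc_subr 1771703 1025000 (enc_scaleT 6974 5125 h1)) (enc_mul (enc_norm (bx2q3_3.enc h1 h2)) (enc_norm (enc_add (enc_scaleT 1453 4100 h1) (enc_rat _ 45983 102500))))) (enc_case (enc_subr 389 200 h1) (enc_add (enc_subr 605023 350000 (enc_scaleT 4763 3500 h1)) (enc_mul (enc_norm (bx2q3_3.enc h1 h2)) (enc_norm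 (enc_add (enc_scaleT 62 175 h1) (enc_rat _ 31417 70000))))) (enc_add (enc_subr 42691169 24700000 (enc_scaleT 3361 2470 h1)) (enc_mul (enc_norm (bx2q3_3.enc h1 h2)) (enc_norm (enc_add (enc_scaleT 88 247 h1) (enc_rat _ 1099013 2470000))))))) (enc_case (enc_sub (enc_rat _ 215220381 1000000000) (c3g.enc h1)) (enc_case (enc_sub (enc_rat _ 33784661 125000000) (c3g.enc h1)) (enc_add (enc_add (enc_scaleT 5220000 30074893 (c3g.enc h1)) (enc_rat _ 270586477683 300748930000)) (enc_mul (enc_norm (bx2q3_3.enc h1 h2)) (enc_norm (enc_sub (enc_rat _ 2125774808149 150374465000) (enc_scaleT 1300700000 30074893 (c3g.enc h1)))))) (enc_add (enc_add (enc_scaleT 12120000 55056907 (c3g.enc h1)) (enc_rat _ 2442110428689 2752845350000)) (enc_mul (enc_norm (bx2q3_3.enc h1 h2)) (enc_norm (enc_subr 155073932693 275284535000 (enc_scaleT 613300000 55056907 (c3g.enc h1))))))) (enc_case (enc_sub (enc_rat _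 141655683 1000000000) (c3g.enc h1)) (enc_add (enc_add (enc_scaleT 8095000 36782349 (c3g.enc h1)) (enc_rat _ 2175393077087 2452156600000)) (enc_mul (enc_norm (bx2q3_3.enc h1 h2)) (enc_norm (enc_subr 27603363701 49043132000 (enc_scaleT 136550000 12260783 (c3g.enc h1)))))) (enc_add (enc_add (enc_scaleT 10390000 47218561 (c3g.enc h1)) (enc_rat _ 44357 50000)) (enc_mul (enc_norm (bx2q3_3.enc h1 h2)) (enc_norm (enc_subr 1407 2500 (enc_scaleT 1577600000 141655683 (c3g.enc h1))))))))))⟩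
noncomputable def bx1q3_3 : Fn2 := ⟨_, _, fun h1 h2 => (enc_subr 153 160 h2)⟩
noncomputable def bx1q3 : Fn2 := ⟨_, _, fun h1 h2 => (enc_norm (enc_case (enc_subr 19697 10000 h1) (enc_case (enc_subr 191 100 h1) (enc_add (enc_subr 430011 256250 (enc_scaleT 9967 8200 h1)) (enc_mul (enc_norm (bx1q3_3.enc h1 h2)) (enc_norm (enc_subr 5259941 410000 (enc_scaleT 22371 2050 h1))))) (enc_case (enc_subr 389 200 h1) (enc_add (enc_subr 234917 140000 (enc_scaleT 2127 1750 h1)) (enc_mul (enc_norm (bx1q3_3.enc h1 h2)) (enc_norm (enc_subr 897871 70000 (enc_scaleT 3819 350 h1))))) (enc_add (enc_subr 2181261 1300000 (enc_scaleT 79 65 h1)) (enc_mul (enc_norm (bx1q3_3.enc h1 h2)) (enc_norm (enc_subr 792477 61750 (enc_scaleT 2696 247 h1))))))) (enc_case (enc_sub (enc_rat _ 215220381 1000000000) (c3g.enc h1)) (enc_case (enc_sub (enc_rat _ 33784661 125000000) (c3g.enc h1)) (enc_add (enc_sub (enc_rat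 _ 2447257146283 3007489300000) (enc_scaleT 9780000 30074893 (c3g.enc h1))) (enc_mul (enc_norm (bx1q3_3.enc h1 h2)) (enc_norm (enc_add (enc_scaleT 115900000 30074893 (c3g.enc h1)) (enc_rat _ 2258061750029 300748930000))))) (enc_add (enc_sub (enc_rat _ 4480262103589 5505690700000) (enc_scaleT 17910000 55056907 (c3g.enc h1))) (enc_mul (enc_norm (bx1q3_3.enc h1 h2)) (enc_norm (enc_add (enc_scaleT 212000000 55056907 (c3g.enc h1)) (enc_rat _ 4134212527219 550569070000)))))) (enc_case (enc_sub (enc_rat _ 141655683 1000000000) (c3g.enc h1)) (enc_add (enc_sub (enc_rat _ 498842333367 613039150000) (enc_scaleT 11960000 36782349 (c3g.enc h1))) (enc_mul (enc_norm (bx1q3_3.enc h1 h2)) (enc_norm (enc_add (enc_scaleT 141650000 36782349 (c3g.enc h1)) (enc_rat _ 1841294828591 245215660000))))) (enc_add (enc_sub (enc_rat _ 20343 25000) (enc_scaleT 46060000 141655683 (c3g.enc h1))) (enc_mul (enc_norm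 (bx1q3_3.enc h1 h2)) (enc_norm (enc_add (enc_scaleT 545600000 141655683 (c3g.enc h1)) (enc_rat _ 4693 625)))))))))⟩
noncomputable def rxq3_36 : Fn3 := ⟨_, _, fun h1 h2 h3 => (enc_add (enc_mul h1 (bx3q3.enc h2 h3)) (enc_mul (enc_norm (enc_mul (enc_norm (enc_sub (enc_pnc _ 1) (lm2r.enc h1 h2))) (cv2r.enc h2))) (enc_norm (enc_sub (bx2q3.enc h2 h3) (bx3q3.enc h2 h3)))))⟩
noncomputable def rxq3_37 : Fn3 := ⟨_, _, fun h1 h2 h3 => (enc_subn 1 h2)⟩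
noncomputable def rxq3_49 : Fn3 := ⟨_, _, fun h1 h2 h3 => (enc_sub (qsg.enc (enc_norm (rxq3_37.enc h1 h2 h3))) (enc_mul (enc_norm (enc_nat 2 (enc_sub (rxq3_37.enc h1 h2 h3) h3))) (enc_norm (enc_mul (esg.enc (enc_norm (rxq3_37.enc h1 h2 h3))) (kcg.enc (enc_norm (enc_sub (enc_scaleT 3 4 (rxq3_37.enc h1 h2 h3)) (enc_half (gsg.enc (enc_norm (rxq3_37.enc h1 h2 h3)))))) h3)))))⟩
noncomputable def rxq3_54 : Fn3 := ⟨_, _, fun h1 h2 h3 => (enc_subr 1 2 (swg.enc h2))⟩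
noncomputable def rxq3_55 : Fn3 := ⟨_, _, fun h1 h2 h3 => (enc_sub h1 (cv2r.enc h2))⟩
noncomputable def rxq3 : Fn3 := ⟨_, _, fun h1 h2 h3 => (enc_case (enc_sub h1 (cv1r.enc h2)) (enc_mul h1 (bx1q3.enc h2 h3)) (enc_case (rxq3_55.enc h1 h2 h3) (enc_add (enc_mul h1 (bx2q3.enc h2 h3)) (enc_mul (enc_norm (enc_mul (enc_norm (enc_sub (enc_pnc _ 1) (lm1r.enc h1 h2))) (cv1r.enc h2))) (enc_norm (enc_sub (bx1q3.enc h2 h3) (bx2q3.enc h2 h3))))) (enc_case (enc_sub h1 (cv3r.enc h2)) (enc_case (enc_subr 389 200 h2) (rxq3_36.enc h1 h2 h3) (enc_case (enc_subr 19697 10000 h2) (enc_wL (enc_add (l2q3.enc h2 h3) (enc_mul (enc_norm (enc_mul (enc_norm (rxq3_55.enc h1 h2 h3)) (enc_inv (enc_sub (rxq3_54.enc h1 h2 h3) (cv2r.enc h2))))) (enc_norm (enc_sub (rxq3_49.enc h1 h2 h3) (l2q3.enc h2 h3))))) h1 (rxq3_54.enc h1 h2 h3) (cv2r.enc h2) (rxq3_49.enc h1 h2 h3) (l2q3.enc h2 h3) rfl) (rxq3_36.enc h1 h2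 h3))) (enc_case (enc_sub h1 (cv4r.enc h2)) (enc_add (enc_mul h1 (bx4q3.enc h2 h3)) (enc_mul (enc_norm (enc_sub (enc_pnc _ 1) (lm3r.enc h1 h2))) (enc_norm (enc_sub (l3q3.enc h2 h3) (enc_mul (cv3r.enc h2) (bx4q3.enc h2 h3)))))) (enc_add (l4q3.enc h2 h3) (enc_mul (lm4r.enc h1 h2) (enc_norm (enc_sub (l5q3.enc h2 h3) (l4q3.enc h2 h3)))))))))⟩
noncomputable def rlq3 : Fn3 := ⟨_, _, fun h1 h2 h3 => (enc_case h1 (enc_neg (rxq3.enc (enc_neg h1) h2 h3)) (rxq3.enc h1 h2 h3))⟩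
noncomputable def bd3q0_3 : Fn2 := ⟨_, _, fun h1 h2 => (enc_subr 153 160 h2)⟩
noncomputable def bd3q0_15 : Fn2 := ⟨_, _, fun h1 h2 => (enc_mul (enc_norm (bd3q0_3.enc h1 h2)) (enc_norm (enc_subr 1149 1000 (enc_scaleT 3971 5 h1))))⟩
noncomputable def bd3q0 : Fn2 := ⟨_, _, fun h1 h2 => (enc_norm (enc_case (enc_subr 853 20000 h1) (enc_case (enc_subr 1 100 h1) (enc_add (enc_subr 1583 5000 (enc_neg (enc_scaleT 1941 50 h1))) (bd3q0_15.enc h1 h2)) (enc_case (enc_subr 3 100 h1) (enc_add (enc_subr 6333 20000 (enc_neg (enc_scaleT 7763 200 h1))) (bd3q0_15.enc h1 h2)) (enc_add (enc_subr 7933087 25000000 (enc_neg (enc_scaleT 29094413 750000 h1))) (enc_mul (enc_norm (bd3q0_3.enc h1 h2)) (enc_norm (enc_subr 5576121 5000000 (enc_scaleT 39653707 50000 h1))))))) (enc_add (enc_subr 3213039919 8900000000 (enc_scaleT 1606589919 4450000000 h1)) (enc_mul (enc_norm (bd3q0_3.enc h1 h2)) (enc_norm (enc_subr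 608633059 445000000 (enc_scaleT 304253059 222500000 h1)))))))⟩
noncomputable def rcq0_36 : Fn3 := ⟨_, _, fun h1 h2 h3 => (enc_add (enc_mul h1 (bd3q0.enc h2 h3)) (enc_mul (enc_norm (enc_mul (enc_norm (enc_sub (enc_pnc _ 1) (lm2m.enc h1 h2))) (cv2m.enc h2))) (enc_norm (enc_sub (bd2q0.enc h2 h3) (bd3q0.enc h2 h3)))))⟩
noncomputable def rcq0_38 : Fn3 := ⟨_, _, fun h1 h2 h3 => (enc_sub (enc_pnc _ 1) h2)⟩
noncomputable def rcq0_39 : Fn3 := ⟨_, _, fun h1 h2 h3 => (gsg.enc (enc_norm (rcq0_38.enc h1 h2 h3)))⟩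
noncomputable def rcq0_43 : Fn3 := ⟨_, _, fun h1 h2 h3 => (esg.enc (enc_norm (rcq0_38.enc h1 h2 h3)))⟩
noncomputable def rcq0_47 : Fn3 := ⟨_, _, fun h1 h2 h3 => (gug.enc (enc_norm (rcq0_38.enc h1 h2 h3)))⟩
noncomputable def rcq0_49 : Fn3 := ⟨_, _, fun h1 h2 h3 => (enc_mul (enc_norm (rcq0_38.enc h1 h2 h3)) (enc_inv (rcq0_39.enc h1 h2 h3)))⟩
noncomputable def rcq0_50 : Fn3 := ⟨_, _, fun h1 h2 h3 => (enc_scaleT 3 4 (rcq0_49.enc h1 h2 h3))⟩
noncomputable def rcq0_77 : Fn3 := ⟨_, _, fun h1 h2 h3 => (enc_add (enc_sub (enc_neg (enc_add (enc_add (enc_rat _ 3 4) (enc_scaleT 3 2 (rcq0_38.enc h1 h2 h3))) (enc_scaleT 3 4 (enc_mul (enc_norm (rcq0_49.enc h1 h2 h3)) (rcq0_47.enc h1 h2 h3))))) (enc_wT (enc_mul (enc_norm (enc_sub (enc_mul (enc_norm (enc_mul (enc_norm (rcq0_50.enc h1 h2 h3)) (enc_norm (enc_subn 3 (enc_nat 4 (rcq0_39.enc h1 h2 h3)))))) (rcq0_43.enc h1 h2 h3)) (enc_mul (qsg.enc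 (enc_norm (rcq0_38.enc h1 h2 h3))) (enc_norm (enc_sub (enc_rat _ 1 2) (rcq0_50.enc h1 h2 h3)))))) (enc_inv (enc_mul (enc_nat 2 (rcq0_43.enc h1 h2 h3)) (rcq0_43.enc h1 h2 h3)))) (rcq0_38.enc h1 h2 h3) (rcq0_39.enc h1 h2 h3) (rcq0_43.enc h1 h2 h3) rfl rfl rfl rfl)) (enc_mul (kcg.enc (enc_norm (enc_sub (enc_scaleT 3 4 (rcq0_38.enc h1 h2 h3)) (enc_half (rcq0_39.enc h1 h2 h3)))) h3) (enc_norm (enc_add (enc_pnc _ 1) (enc_add (rcq0_47.enc h1 h2 h3) (enc_nat 2 (rcq0_39.enc h1 h2 h3)))))))⟩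
noncomputable def rcq0_80 : Fn3 := ⟨_, _, fun h1 h2 h3 => (enc_add (swg.enc h2) (enc_rat _ 1 2))⟩
noncomputable def rcq0_81 : Fn3 := ⟨_, _, fun h1 h2 h3 => (enc_sub h1 (cv2m.enc h2))⟩
noncomputable def rcq0 : Fn3 := ⟨_, _, fun h1 h2 h3 => (enc_case (enc_sub h1 (cv1m.enc h2)) (enc_add (enc_mul h1 (bd1q0.enc h2 h3)) (enc_mul (enc_norm (enc_sub (enc_pnc _ 1) (lm0m.enc h1 h2))) (enc_norm (enc_sub (kc0q0.enc h2 h3) (enc_mul (c1g.enc h2) (bd1q0.enc h2 h3)))))) (enc_case (rcq0_81.enc h1 h2 h3) (enc_add (enc_mul h1 (bd2q0.enc h2 h3)) (enc_mul (enc_norm (enc_mul (enc_norm (enc_sub (enc_pnc _ 1) (lm1m.enc h1 h2))) (cv1m.enc h2))) (enc_norm (enc_sub (bd1q0.enc h2 h3) (bd2q0.enc h2 h3))))) (enc_case (enc_sub h1 (cv3m.enc h2)) (enc_case (enc_subr 303 10000 h2) (rcq0_36.enc h1 h2 h3) (enc_case (enc_subr 11 200 h2) (enc_wL (enc_add (kc2q0.enc h2 h3) (enc_mul (enc_norm (enc_mul (enc_norm (rcq0_81.enc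 h1 h2 h3)) (enc_inv (enc_sub (rcq0_80.enc h1 h2 h3) (cv2m.enc h2))))) (enc_norm (enc_sub (rcq0_77.enc h1 h2 h3) (kc2q0.enc h2 h3))))) h1 (rcq0_80.enc h1 h2 h3) (cv2m.enc h2) (rcq0_77.enc h1 h2 h3) (kc2q0.enc h2 h3) rfl) (rcq0_36.enc h1 h2 h3))) (enc_case (enc_sub h1 (cv4m.enc h2)) (enc_add (enc_mul h1 (bd4q0.enc h2 h3)) (enc_mul (enc_norm (enc_sub (enc_pnc _ 1) (lm3m.enc h1 h2))) (enc_norm (enc_sub (kc3q0.enc h2 h3) (enc_mul (cv3m.enc h2) (bd4q0.enc h2 h3)))))) (enc_add (kc4q0.enc h2 h3) (enc_mul (lm4m.enc h1 h2) (enc_norm (enc_sub (kc5q0.enc h2 h3) (kc4q0.enc h2 h3)))))))))⟩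
noncomputable def pd0 : Fn3 := ⟨_, _, fun h1 h2 h3 => (enc_case h1 (enc_neg (rcq0.enc (enc_neg h1) h2 h3)) (rcq0.enc h1 h2 h3))⟩
noncomputable def rcq1 : Fn3 := ⟨_, _, fun h1 h2 h3 => (enc_case (enc_sub h1 (cv1m.enc h2)) (enc_add (enc_mul h1 (bd1q1.enc h2 h3)) (enc_mul (enc_norm (enc_sub (enc_pnc _ 1) (lm0m.enc h1 h2))) (enc_norm (enc_sub (kc0q1.enc h2 h3) (enc_mul (c1g.enc h2) (bd1q1.enc h2 h3)))))) (enc_case (enc_sub h1 (cv2m.enc h2)) (enc_add (enc_mul h1 (bd2q1.enc h2 h3)) (enc_mul (enc_norm (enc_mul (enc_norm (enc_sub (enc_pnc _ 1) (lm1m.enc h1 h2))) (cv1m.enc h2))) (enc_norm (enc_sub (bd1q1.enc h2 h3) (bd2q1.enc h2 h3))))) (enc_case (enc_sub h1 (cv3m.enc h2)) (enc_add (enc_mul h1 (bd3q1.enc h2 h3)) (enc_mul (enc_norm (enc_mul (enc_norm (enc_sub (enc_pnc _ 1) (lm2m.enc h1 h2))) (cv2m.enc h2))) (enc_norm (enc_sub (bd2q1.enc h2 h3) (bd3q1.enc h2 h3))))) (enc_case (enc_sub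 h1 (cv4m.enc h2)) (enc_add (enc_mul h1 (bd4q1.enc h2 h3)) (enc_mul (enc_norm (enc_mul (enc_norm (enc_sub (enc_pnc _ 1) (lm3m.enc h1 h2))) (cv3m.enc h2))) (enc_norm (enc_sub (bd3q1.enc h2 h3) (bd4q1.enc h2 h3))))) (enc_add (kc4q1.enc h2 h3) (enc_mul (lm4m.enc h1 h2) (enc_norm (enc_sub (kc5q1.enc h2 h3) (kc4q1.enc h2 h3)))))))))⟩
noncomputable def pd1 : Fn3 := ⟨_, _, fun h1 h2 h3 => (enc_case h1 (enc_neg (rcq1.enc (enc_neg h1) h2 h3)) (rcq1.enc h1 h2 h3))⟩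
noncomputable def kc0q2 : Fn2 := ⟨_, _, fun h1 h2 => (enc_pnc _ 0)⟩
noncomputable def n0d : Fn2 := ⟨_, _, fun h1 h2 => (enc_pnc _ 0)⟩
noncomputable def rcq2_51 : Fn3 := ⟨_, _, fun h1 h2 h3 => (enc_mul h1 (bd1q2.enc h2 h3))⟩
noncomputable def rcq2_53 : Fn3 := ⟨_, _, fun h1 h2 h3 => (enc_sub (enc_pnc _ 1) (lm0p.enc h1 h2))⟩
noncomputable def rcq2 : Fn3 := ⟨_, _, fun h1 h2 h3 => (enc_case (enc_sub h1 (cv1p.enc h2)) (enc_case (enc_subr 1149 1000 h2) (enc_add (rcq2_51.enc h1 h2 h3) (enc_mul (enc_norm (rcq2_53.enc h1 h2 h3)) (enc_norm (enc_sub (kc0q2.enc h2 h3) (enc_mul (c1g.enc h2) (bd1q2.enc h2 h3)))))) (enc_case (enc_subr 2887 2500 h2) (enc_add (rcq2_51.enc h1 h2 h3) (enc_mul (enc_norm (rcq2_53.enc h1 h2 h3)) (enc_norm (enc_mul (c1g.enc h2) (enc_norm (enc_sub (n0d.enc h2 h3) (bd1q2.enc h2 h3))))))) (rcq2_51.enc h1 h2 h3))) (enc_case (enc_sub h1 (cv2p.enc h2)) (enc_add (enc_mul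 h1 (bd2q2.enc h2 h3)) (enc_mul (enc_norm (enc_mul (enc_norm (enc_sub (enc_pnc _ 1) (lm1p.enc h1 h2))) (cv1p.enc h2))) (enc_norm (enc_sub (bd1q2.enc h2 h3) (bd2q2.enc h2 h3))))) (enc_case (enc_sub h1 (cv3p.enc h2)) (enc_add (enc_mul h1 (bd3q2.enc h2 h3)) (enc_mul (enc_norm (enc_mul (enc_norm (enc_sub (enc_pnc _ 1) (lm2p.enc h1 h2))) (cv2p.enc h2))) (enc_norm (enc_sub (bd2q2.enc h2 h3) (bd3q2.enc h2 h3))))) (enc_case (enc_sub h1 (cv4p.enc h2)) (enc_add (enc_mul h1 (bd4q2.enc h2 h3)) (enc_mul (enc_norm (enc_mul (enc_norm (enc_sub (enc_pnc _ 1) (lm3p.enc h1 h2))) (cv3p.enc h2))) (enc_norm (enc_sub (bd3q2.enc h2 h3) (bd4q2.enc h2 h3))))) (enc_add (kc4q2.enc h2 h3) (enc_mul (lm4p.enc h1 h2) (enc_norm (enc_sub (kc5q2.enc h2 h3) (kc4q2.enc h2 h3)))))))))⟩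
noncomputable def pd2 : Fn3 := ⟨_, _, fun h1 h2 h3 => (enc_case h1 (enc_neg (rcq2.enc (enc_neg h1) h2 h3)) (rcq2.enc h1 h2 h3))⟩
noncomputable def kc4q3_4 : Fn2 := ⟨_, _, fun h1 h2 => (enc_subr 153 160 h2)⟩
noncomputable def kc4q3 : Fn2 := ⟨_, _, fun h1 h2 => (enc_norm (enc_mul (cv4r.enc h1) (enc_norm (enc_case (enc_subr 19697 10000 h1) (enc_case (enc_subr 389 200 h1) (enc_add (enc_subr 16404877 890000 (enc_scaleT 52549 4450 h1)) (enc_mul (enc_norm (kc4q3_4.enc h1 h2)) (enc_norm (enc_sub (enc_rat _ 46768701 89000) (enc_scaleT 68790 89 h1))))) (enc_add (enc_subr 22766359 1235000 (enc_scaleT 2917 247 h1)) (enc_mul (enc_norm (kc4q3_4.enc h1 h2)) (enc_norm (enc_sub (enc_rat _ 129793223 247000) (enc_scaleT 190910 247 h1)))))) (enc_case (enc_sub (enc_rat _ 298872883 1000000000) (c3g.enc h1)) (enc_add (enc_sub (enc_rat _ 102346426997 14792980000) (enc_scaleT 5150000 739649 (c3g.enc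 h1))) (enc_mul (enc_norm (kc4q3_4.enc h1 h2)) (enc_norm (enc_subr 23373460687 295859600 (enc_neg (enc_scaleT 2260500000 739649 (c3g.enc h1))))))) (enc_add (enc_sub (enc_rat _ 1157 167) (enc_scaleT 349120800000 49911771461 (c3g.enc h1))) (enc_mul (enc_norm (kc4q3_4.enc h1 h2)) (enc_norm (enc_subr 13176 167 (enc_neg (enc_scaleT 152556637000000 49911771461 (c3g.enc h1))))))))))))⟩
noncomputable def kc5q3_3 : Fn2 := ⟨_, _, fun h1 h2 => (enc_subr 153 160 h2)⟩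
noncomputable def kc5q3_9 : Fn2 := ⟨_, _, fun h1 h2 => (enc_sub (enc_half (c3g.enc h1)) (enc_scaleT 1 4 h1))⟩
noncomputable def kc5q3_27 : Fn2 := ⟨_, _, fun h1 h2 => (enc_scaleT 301 166 (kc5q3_9.enc h1 h2))⟩
noncomputable def kc5q3 : Fn2 := ⟨_, _, fun h1 h2 => (enc_norm (enc_case (kc5q3_9.enc h1 h2) (enc_case (enc_add (kc5q3_9.enc h1 h2) (enc_rat _ 333 1000)) (enc_add (enc_add (enc_scaleT 2314 167 (kc5q3_9.enc h1 h2)) (enc_rat _ 1157 167)) (enc_mul (enc_norm (kc5q3_3.enc h1 h2)) (enc_norm (enc_subr 13176 167 (enc_neg (enc_scaleT 26352 167 (kc5q3_9.enc h1 h2))))))) (enc_case (enc_add (kc5q3_9.enc h1 h2) (enc_rat _ 167 1000)) (enc_add (enc_sub (enc_rat _ 283891 166000) (kc5q3_27.enc h1 h2)) (enc_mul (enc_norm (kc5q3_3.enc h1 h2)) (enc_norm (enc_add (enc_scaleT 26725 83 (kc5q3_9.enc h1 h2)) (enc_rat _ 6712209 83000))))) (enc_add (enc_sub (enc_rat _ 17101 10000) (enc_scaleT 3029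 1670 (kc5q3_9.enc h1 h2))) (enc_mul (enc_norm (kc5q3_3.enc h1 h2)) (enc_norm (enc_add (enc_scaleT 53773 167 (kc5q3_9.enc h1 h2)) (enc_rat _ 80871 1000))))))) (enc_case (enc_subr 167 1000 (kc5q3_9.enc h1 h2)) (enc_add (enc_sub (enc_rat _ 17101 10000) (enc_scaleT 1514 835 (kc5q3_9.enc h1 h2))) (enc_mul (enc_norm (kc5q3_3.enc h1 h2)) (enc_norm (enc_add (enc_scaleT 53772 167 (kc5q3_9.enc h1 h2)) (enc_rat _ 80871 1000))))) (enc_case (enc_subr 333 1000 (kc5q3_9.enc h1 h2)) (enc_add (enc_sub (enc_rat _ 709697 415000) (kc5q3_27.enc h1 h2)) (enc_mul (enc_norm (kc5q3_3.enc h1 h2)) (enc_norm (enc_add (enc_scaleT 53451 166 (kc5q3_9.enc h1 h2)) (enc_rat _ 13424421 166000))))) (enc_add (enc_sub (enc_rat _ 11063 3340) (enc_scaleT 11063 1670 (kc5q3_9.enc h1 h2))) (enc_mul (enc_norm (kc5q3_3.enc h1 h2)) (enc_norm (enc_sub (enc_rat _ 94047 167) (enc_scaleT 188094 167 (kc5q3_9.enc h1 h2))))))))))⟩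
noncomputable def bd4q3_3 : Fn2 := ⟨_, _, fun h1 h2 => (enc_subr 153 160 h2)⟩
noncomputable def bd4q3 : Fn2 := ⟨_, _, fun h1 h2 => (enc_norm (enc_case (enc_subr 19697 10000 h1) (enc_case (enc_subr 389 200 h1) (enc_add (enc_subr 16404877 890000 (enc_scaleT 52549 4450 h1)) (enc_mul (enc_norm (bd4q3_3.enc h1 h2)) (enc_norm (enc_sub (enc_rat _ 46768701 89000) (enc_scaleT 68790 89 h1))))) (enc_add (enc_subr 22766359 1235000 (enc_scaleT 2917 247 h1)) (enc_mul (enc_norm (bd4q3_3.enc h1 h2)) (enc_norm (enc_sub (enc_rat _ 129793223 247000) (enc_scaleT 190910 247 h1)))))) (enc_case (enc_sub (enc_rat _ 298872883 1000000000) (c3g.enc h1)) (enc_add (enc_sub (enc_rat _ 102346426997 14792980000) (enc_scaleT 5150000 739649 (c3g.enc h1))) (enc_mul (enc_norm (bd4q3_3.enc h1 h2)) (enc_norm (enc_subr 23373460687 295859600 (enc_neg (enc_scaleT 2260500000 739649 (c3g.enc h1))))))) (enc_add (enc_sub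 (enc_rat _ 1157 167) (enc_scaleT 349120800000 49911771461 (c3g.enc h1))) (enc_mul (enc_norm (bd4q3_3.enc h1 h2)) (enc_norm (enc_subr 13176 167 (enc_neg (enc_scaleT 152556637000000 49911771461 (c3g.enc h1))))))))))⟩
noncomputable def kc3q3_4 : Fn2 := ⟨_, _, fun h1 h2 => (enc_subr 153 160 h2)⟩
noncomputable def kc3q3_18 : Fn2 := ⟨_, _, fun h1 h2 => (enc_sub (enc_rat _ 298872883 1000000000) (c3g.enc h1))⟩
noncomputable def kc3q3_42 : Fn2 := ⟨_, _, fun h1 h2 => (enc_subn 1 h1)⟩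
noncomputable def kc3q3_43 : Fn2 := ⟨_, _, fun h1 h2 => (gsg.enc (enc_norm (kc3q3_42.enc h1 h2)))⟩
noncomputable def kc3q3_47 : Fn2 := ⟨_, _, fun h1 h2 => (esg.enc (enc_norm (kc3q3_42.enc h1 h2)))⟩
noncomputable def kc3q3_52 : Fn2 := ⟨_, _, fun h1 h2 => (gug.enc (enc_norm (kc3q3_42.enc h1 h2)))⟩
noncomputable def kc3q3_54 : Fn2 := ⟨_, _, fun h1 h2 => (enc_mul (enc_norm (kc3q3_42.enc h1 h2)) (enc_inv (kc3q3_43.enc h1 h2)))⟩
noncomputable def kc3q3_55 : Fn2 := ⟨_, _, fun h1 h2 => (enc_scaleT 3 4 (kc3q3_54.enc h1 h2))⟩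
noncomputable def kc3q3_84 : Fn2 := ⟨_, _, fun h1 h2 => (enc_subr 19697 10000 h1)⟩
noncomputable def kc3q3_86 : Fn2 := ⟨_, _, fun h1 h2 => (enc_subr 389 200 h1)⟩
noncomputable def kc3q3_130 : Fn2 := ⟨_, _, fun h1 h2 => (enc_mul (cv2r.enc h1) (enc_norm (enc_case (kc3q3_84.enc h1 h2) (enc_case (kc3q3_86.enc h1 h2) (enc_add (enc_subr 21497181 890000 (enc_scaleT 53743 2225 h1)) (enc_mul (enc_norm (kc3q3_4.enc h1 h2)) (enc_norm (enc_sub (enc_rat _ 2907283 17800) (enc_scaleT 72682 445 h1))))) (enc_add (enc_subr 3139959 130000 (enc_scaleT 314 13 h1)) (enc_mul (enc_norm (kc3q3_4.enc h1 h2)) (enc_norm (enc_sub (enc_rat _ 40337591 247000) (enc_scaleT 40340 247 h1)))))) (enc_case (kc3q3_18.enc h1 h2) (enc_add (enc_add (enc_scaleT 41650000 739649 (c3g.enc h1)) (enc_rat _ 96292248681 14792980000)) (enc_mul (enc_norm (kc3q3_4.enc h1 h2)) (enc_norm (enc_subr 109646541423 1479298000 (enc_neg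 (enc_scaleT 207500000 739649 (c3g.enc h1))))))) (enc_add (enc_add (enc_scaleT 16824500000 298872883 (c3g.enc h1)) (enc_rat _ 13029 2000)) (enc_mul (enc_norm (kc3q3_4.enc h1 h2)) (enc_norm (enc_subr 74139 1000 (enc_neg (enc_scaleT 83827000000 298872883 (c3g.enc h1)))))))))))⟩
noncomputable def kc3q3 : Fn2 := ⟨_, _, fun h1 h2 => (enc_norm (enc_case (kc3q3_86.enc h1 h2) (enc_mul (cv3r.enc h1) (enc_norm (enc_add (enc_subr 179241201 34765625 (enc_scaleT 196924134 34765625 h1)) (enc_mul (enc_norm (kc3q3_4.enc h1 h2)) (enc_norm (enc_sub (enc_rat _ 7181010377 222500000) (enc_scaleT 2351543459 111250000 h1))))))) (enc_case (kc3q3_84.enc h1 h2) (enc_add (kc3q3_130.enc h1 h2) (enc_mul (enc_norm (enc_mul (enc_norm (enc_sub (enc_add (enc_sub (enc_add (enc_add (enc_rat _ 3 4) (enc_scaleT 3 2 (kc3q3_42.enc h1 h2))) (enc_scaleT 3 4 (enc_mul (enc_norm (kc3q3_54.enc h1 h2)) (kc3q3_52.enc h1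 h2)))) (enc_wT (enc_mul (enc_norm (enc_sub (enc_mul (enc_norm (enc_mul (enc_norm (kc3q3_55.enc h1 h2)) (enc_norm (enc_subn 3 (enc_nat 4 (kc3q3_43.enc h1 h2)))))) (kc3q3_47.enc h1 h2)) (enc_mul (qsg.enc (enc_norm (kc3q3_42.enc h1 h2))) (enc_norm (enc_sub (enc_rat _ 1 2) (kc3q3_55.enc h1 h2)))))) (enc_inv (enc_mul (enc_nat 2 (kc3q3_47.enc h1 h2)) (kc3q3_47.enc h1 h2)))) (kc3q3_42.enc h1 h2) (kc3q3_43.enc h1 h2) (kc3q3_47.enc h1 h2) rfl rfl rfl rfl)) (enc_mul (kcg.enc (enc_norm (enc_sub (enc_scaleT 3 4 (kc3q3_42.enc h1 h2)) (enc_half (kc3q3_43.enc h1 h2)))) h2) (enc_norm (enc_sub (enc_pnc _ 1) (enc_add (kc3q3_52.enc h1 h2) (enc_nat 2 (kc3q3_43.enc h1 h2))))))) (kc3q3_130.enc h1 h2))) (enc_norm (enc_sub (cv3r.enc h1) (cv2r.enc h1))))) (enc_inv (enc_sub (enc_subr 1 2 (swg.enc h1)) (cv2r.enc h1))))) (enc_mul (cv3r.enc h1) (enc_norm (enc_case (kc3q3_18.enc h1 h2) (enc_add (enc_add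 (enc_scaleT 501064157 14792980 (c3g.enc h1)) (enc_rat _ 102806058369445369 14792980000000000)) (enc_mul (enc_norm (kc3q3_4.enc h1 h2)) (enc_norm (enc_subr 23297857754506127 295859600000000 (enc_neg (enc_scaleT 227857655 1479298 (c3g.enc h1))))))) (enc_add (enc_add (enc_scaleT 1694191000000 49911771461 (c3g.enc h1)) (enc_rat _ 1157 167)) (enc_mul (enc_norm (kc3q3_4.enc h1 h2)) (enc_norm (enc_subr 13176 167 (enc_neg (enc_scaleT 7662594000000 49911771461 (c3g.enc h1)))))))))))))⟩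
noncomputable def bd3q3_3 : Fn2 := ⟨_, _, fun h1 h2 => (enc_subr 153 160 h2)⟩
noncomputable def bd3q3 : Fn2 := ⟨_, _, fun h1 h2 => (enc_norm (enc_case (enc_subr 39147 20000 h1) (enc_add (enc_subr 179241201 34765625 (enc_scaleT 196924134 34765625 h1)) (enc_mul (enc_norm (bd3q3_3.enc h1 h2)) (enc_norm (enc_sub (enc_rat _ 7181010377 222500000) (enc_scaleT 2351543459 111250000 h1))))) (enc_case (enc_sub (enc_rat _ 298872883 1000000000) (c3g.enc h1)) (enc_add (enc_add (enc_scaleT 501064157 14792980 (c3g.enc h1)) (enc_rat _ 102806058369445369 14792980000000000)) (enc_mul (enc_norm (bd3q3_3.enc h1 h2)) (enc_norm (enc_subr 23297857754506127 295859600000000 (enc_neg (enc_scaleT 227857655 1479298 (c3g.enc h1))))))) (enc_add (enc_add (enc_scaleT 1694191000000 49911771461 (c3g.enc h1)) (enc_rat _ 1157 167)) (enc_mul (enc_norm (bd3q3_3.enc h1 h2)) (enc_norm (enc_subr 13176 167 (enc_neg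 (enc_scaleT 7662594000000 49911771461 (c3g.enc h1))))))))))⟩
noncomputable def bd2q3_3 : Fn2 := ⟨_, _, fun h1 h2 => (enc_subr 153 160 h2)⟩
noncomputable def bd2q3 : Fn2 := ⟨_, _, fun h1 h2 => (enc_norm (enc_case (enc_subr 19697 10000 h1) (enc_case (enc_subr 389 200 h1) (enc_add (enc_subr 21497181 890000 (enc_scaleT 53743 2225 h1)) (enc_mul (enc_norm (bd2q3_3.enc h1 h2)) (enc_norm (enc_sub (enc_rat _ 2907283 17800) (enc_scaleT 72682 445 h1))))) (enc_add (enc_subr 3139959 130000 (enc_scaleT 314 13 h1)) (enc_mul (enc_norm (bd2q3_3.enc h1 h2)) (enc_norm (enc_sub (enc_rat _ 40337591 247000) (enc_scaleT 40340 247 h1)))))) (enc_case (enc_sub (enc_rat _ 298872883 1000000000) (c3g.enc h1)) (enc_add (enc_add (enc_scaleT 41650000 739649 (c3g.enc h1)) (enc_rat _ 96292248681 14792980000)) (enc_mul (enc_norm (bd2q3_3.enc h1 h2)) (enc_norm (enc_subr 109646541423 1479298000 (enc_neg (enc_scaleT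 207500000 739649 (c3g.enc h1))))))) (enc_add (enc_add (enc_scaleT 16824500000 298872883 (c3g.enc h1)) (enc_rat _ 13029 2000)) (enc_mul (enc_norm (bd2q3_3.enc h1 h2)) (enc_norm (enc_subr 74139 1000 (enc_neg (enc_scaleT 83827000000 298872883 (c3g.enc h1))))))))))⟩
noncomputable def bd1q3_3 : Fn2 := ⟨_, _, fun h1 h2 => (enc_subr 153 160 h2)⟩
noncomputable def bd1q3 : Fn2 := ⟨_, _, fun h1 h2 => (enc_norm (enc_case (enc_subr 19697 10000 h1) (enc_pnc _ 0) (enc_case (enc_sub (enc_rat _ 298872883 1000000000) (c3g.enc h1)) (enc_add (enc_sub (enc_rat _ 62773605829 2958596000) (enc_scaleT 52250000 739649 (c3g.enc h1))) (enc_mul (enc_norm (bd1q3_3.enc h1 h2)) (enc_norm (enc_subr 2380891738787 739649000 (enc_scaleT 7927000000 739649 (c3g.enc h1)))))) (enc_add (enc_sub (enc_rat _ 53063 2500) (enc_scaleT 21120700000 298872883 (c3g.enc h1))) (enc_mul (enc_norm (bd1q3_3.enc h1 h2)) (enc_norm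 (enc_subr 1609519 500 (enc_scaleT 3203184000000 298872883 (c3g.enc h1)))))))))⟩
noncomputable def rcq3_36 : Fn3 := ⟨_, _, fun h1 h2 h3 => (enc_add (enc_mul h1 (bd3q3.enc h2 h3)) (enc_mul (enc_norm (enc_mul (enc_norm (enc_sub (enc_pnc _ 1) (lm2r.enc h1 h2))) (cv2r.enc h2))) (enc_norm (enc_sub (bd2q3.enc h2 h3) (bd3q3.enc h2 h3)))))⟩
noncomputable def rcq3_37 : Fn3 := ⟨_, _, fun h1 h2 h3 => (enc_subn 1 h2)⟩
noncomputable def rcq3_38 : Fn3 := ⟨_, _, fun h1 h2 h3 => (gsg.enc (enc_norm (rcq3_37.enc h1 h2 h3)))⟩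
noncomputable def rcq3_42 : Fn3 := ⟨_, _, fun h1 h2 h3 => (esg.enc (enc_norm (rcq3_37.enc h1 h2 h3)))⟩
noncomputable def rcq3_47 : Fn3 := ⟨_, _, fun h1 h2 h3 => (gug.enc (enc_norm (rcq3_37.enc h1 h2 h3)))⟩
noncomputable def rcq3_49 : Fn3 := ⟨_, _, fun h1 h2 h3 => (enc_mul (enc_norm (rcq3_37.enc h1 h2 h3)) (enc_inv (rcq3_38.enc h1 h2 h3)))⟩
noncomputable def rcq3_50 : Fn3 := ⟨_, _, fun h1 h2 h3 => (enc_scaleT 3 4 (rcq3_49.enc h1 h2 h3))⟩
noncomputable def rcq3_76 : Fn3 := ⟨_, _, fun h1 h2 h3 => (enc_add (enc_sub (enc_add (enc_add (enc_rat _ 3 4) (enc_scaleT 3 2 (rcq3_37.enc h1 h2 h3))) (enc_scaleT 3 4 (enc_mul (enc_norm (rcq3_49.enc h1 h2 h3)) (rcq3_47.enc h1 h2 h3)))) (enc_wT (enc_mul (enc_norm (enc_sub (enc_mul (enc_norm (enc_mul (enc_norm (rcq3_50.enc h1 h2 h3)) (enc_norm (enc_subn 3 (enc_nat 4 (rcq3_38.enc h1 h2 h3)))))) (rcq3_42.enc h1 h2 h3)) (enc_mul (qsg.enc (enc_norm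 (rcq3_37.enc h1 h2 h3))) (enc_norm (enc_sub (enc_rat _ 1 2) (rcq3_50.enc h1 h2 h3)))))) (enc_inv (enc_mul (enc_nat 2 (rcq3_42.enc h1 h2 h3)) (rcq3_42.enc h1 h2 h3)))) (rcq3_37.enc h1 h2 h3) (rcq3_38.enc h1 h2 h3) (rcq3_42.enc h1 h2 h3) rfl rfl rfl rfl)) (enc_mul (kcg.enc (enc_norm (enc_sub (enc_scaleT 3 4 (rcq3_37.enc h1 h2 h3)) (enc_half (rcq3_38.enc h1 h2 h3)))) h3) (enc_norm (enc_sub (enc_pnc _ 1) (enc_add (rcq3_47.enc h1 h2 h3) (enc_nat 2 (rcq3_38.enc h1 h2 h3)))))))⟩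
noncomputable def rcq3_80 : Fn3 := ⟨_, _, fun h1 h2 h3 => (enc_subr 1 2 (swg.enc h2))⟩
noncomputable def rcq3_81 : Fn3 := ⟨_, _, fun h1 h2 h3 => (enc_sub h1 (cv2r.enc h2))⟩
noncomputable def rcq3 : Fn3 := ⟨_, _, fun h1 h2 h3 => (enc_case (enc_sub h1 (cv1r.enc h2)) (enc_mul h1 (bd1q3.enc h2 h3)) (enc_case (rcq3_81.enc h1 h2 h3) (enc_add (enc_mul h1 (bd2q3.enc h2 h3)) (enc_mul (enc_norm (enc_mul (enc_norm (enc_sub (enc_pnc _ 1) (lm1r.enc h1 h2))) (cv1r.enc h2))) (enc_norm (enc_sub (bd1q3.enc h2 h3) (bd2q3.enc h2 h3))))) (enc_case (enc_sub h1 (cv3r.enc h2)) (enc_case (enc_subr 389 200 h2) (rcq3_36.enc h1 h2 h3) (enc_case (enc_subr 19697 10000 h2) (enc_wL (enc_add (kc2q3.enc h2 h3) (enc_mul (enc_norm (enc_mul (enc_norm (rcq3_81.enc h1 h2 h3)) (enc_inv (enc_sub (rcq3_80.enc h1 h2 h3) (cv2r.enc h2))))) (enc_norm (enc_sub (rcq3_76.enc h1 h2 h3) (kc2q3.enc h2 h3))))) h1 (rcq3_80.enc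 h1 h2 h3) (cv2r.enc h2) (rcq3_76.enc h1 h2 h3) (kc2q3.enc h2 h3) rfl) (rcq3_36.enc h1 h2 h3))) (enc_case (enc_sub h1 (cv4r.enc h2)) (enc_add (enc_mul h1 (bd4q3.enc h2 h3)) (enc_mul (enc_norm (enc_sub (enc_pnc _ 1) (lm3r.enc h1 h2))) (enc_norm (enc_sub (kc3q3.enc h2 h3) (enc_mul (cv3r.enc h2) (bd4q3.enc h2 h3)))))) (enc_add (kc4q3.enc h2 h3) (enc_mul (lm4r.enc h1 h2) (enc_norm (enc_sub (kc5q3.enc h2 h3) (kc4q3.enc h2 h3)))))))))⟩
noncomputable def pd3 : Fn3 := ⟨_, _, fun h1 h2 h3 => (enc_case h1 (enc_neg (rcq3.enc (enc_neg h1) h2 h3)) (rcq3.enc h1 h2 h3))⟩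
noncomputable def mug3 : Fn1 := ⟨_, _, fun h1 => (enc_inv (enc_add (enc_nat 2 (gsg.enc h1)) (enc_pnc _ 3)))⟩
noncomputable def eng : Fn1 := ⟨_, _, fun h1 => (enc_norm (enc_add (enc_pnc _ 1) (enc_mul (mug3.enc h1) (gug.enc h1))))⟩
noncomputable def mog : Fn1 := ⟨_, _, fun h1 => (enc_norm (enc_scaleT 1 20 (enc_mul (mug3.enc h1) (esg.enc h1))))⟩
noncomputable def kf1q2 : Fn2 := ⟨_, _, fun h1 h2 => (enc_norm (enc_mul (cv1p.enc h1) (bf1q2.enc h1 h2)))⟩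
noncomputable def l1q2 : Fn2 := ⟨_, _, fun h1 h2 => (enc_norm (enc_mul (cv1p.enc h1) (bx1q2.enc h1 h2)))⟩
noncomputable def kc1q2 : Fn2 := ⟨_, _, fun h1 h2 => (enc_norm (enc_mul (cv1p.enc h1) (bd1q2.enc h1 h2)))⟩
noncomputable def kf2q2 : Fn2 := ⟨_, _, fun h1 h2 => (enc_norm (enc_mul (cv2p.enc h1) (bf2q2.enc h1 h2)))⟩
noncomputable def l2q2 : Fn2 := ⟨_, _, fun h1 h2 => (enc_norm (enc_mul (cv2p.enc h1) (bx2q2.enc h1 h2)))⟩
noncomputable def kc2q2 : Fn2 := ⟨_, _, fun h1 h2 => (enc_norm (enc_mul (cv2p.enc h1) (bd2q2.enc h1 h2)))⟩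

noncomputable def ndB0q0 : Node := ⟨idf, c1g, kf0q0, l0q0⟩
noncomputable def cd0q0 : Fn2 := kc0q0
noncomputable def ndB0q1 : Node := ⟨idf, c1g, kf0q1, l0q1⟩
noncomputable def cd0q1 : Fn2 := kc0q1
noncomputable def ndB0q2 : Node := ⟨yag, idf, kfc02, lc02⟩
noncomputable def cd0q2 : Fn2 := kcc02
noncomputable def ndB1q0 : Node := ⟨idf, cv1m, kf1q0, l1q0⟩
noncomputable def cd1q0 : Fn2 := kc1q0
noncomputable def ndB1q1 : Node := ⟨idf, cv1m, kf1q1, l1q1⟩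
noncomputable def cd1q1 : Fn2 := kc1q1
noncomputable def ndB1q2a : Node := ⟨yag, xc12a, kfc12a, lc12a⟩
noncomputable def cd1q2a : Fn2 := kcc12a
noncomputable def ndB1q2b : Node := ⟨idf, xc12b, kfc12b, lc12b⟩
noncomputable def cd1q2b : Fn2 := kcc12b
noncomputable def ndB1q3 : Node := ⟨idf, cv1r, kf1q3, l1q3⟩
noncomputable def cd1q3 : Fn2 := kc1q3
noncomputable def ndB2q0 : Node := ⟨idf, cv2m, kf2q0, l2q0⟩
noncomputable def cd2q0 : Fn2 := kc2q0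
noncomputable def ndB2q1 : Node := ⟨idf, cv2m, kf2q1, l2q1⟩
noncomputable def cd2q1 : Fn2 := kc2q1
noncomputable def ndB2q2a : Node := ⟨yag, xc22a, kfc22a, lc22a⟩
noncomputable def cd2q2a : Fn2 := kcc22a
noncomputable def ndB2q2b : Node := ⟨idf, xc22b, kfc22b, lc22b⟩
noncomputable def cd2q2b : Fn2 := kcc22b
noncomputable def ndB2q3 : Node := ⟨idf, cv2r, kf2q3, l2q3⟩
noncomputable def cd2q3 : Fn2 := kc2q3
noncomputable def ndB3q0 : Node := ⟨idf, cv3m, kf3q0, l3q0⟩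
noncomputable def cd3q0 : Fn2 := kc3q0
noncomputable def ndB3q1 : Node := ⟨idf, cv3m, kf3q1, l3q1⟩
noncomputable def cd3q1 : Fn2 := kc3q1
noncomputable def ndB3q2 : Node := ⟨idf, cv3p, kf3q2, l3q2⟩
noncomputable def cd3q2 : Fn2 := kc3q2
noncomputable def ndB3q3 : Node := ⟨ycg, xc33, kfc33, lc33⟩
noncomputable def cd3q3 : Fn2 := kcc33
noncomputable def ndB4q0 : Node := ⟨idf, cv4m, kf4q0, l4q0⟩
noncomputable def cd4q0 : Fn2 := kc4q0
noncomputable def ndB4q1 : Node := ⟨idf, cv4m, kf4q1, l4q1⟩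
noncomputable def cd4q1 : Fn2 := kc4q1
noncomputable def ndB4q2 : Node := ⟨idf, cv4p, kf4q2, l4q2⟩
noncomputable def cd4q2 : Fn2 := kc4q2
noncomputable def ndB4q3 : Node := ⟨ycg, xc43, kfc43, lc43⟩
noncomputable def cd4q3 : Fn2 := kcc43
noncomputable def ndB5q0 : Node := ⟨idf, c3g, kf5q0, l5q0⟩
noncomputable def cd5q0 : Fn2 := kc5q0
noncomputable def ndB5q1 : Node := ⟨idf, c3g, kf5q1, l5q1⟩
noncomputable def cd5q1 : Fn2 := kc5q1
noncomputable def ndB5q2 : Node := ⟨idf, c3g, kf5q2, l5q2⟩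
noncomputable def cd5q2 : Fn2 := kc5q2
noncomputable def ndB5q3 : Node := ⟨ycg, idf, kfc53, lc53⟩
noncomputable def cd5q3 : Fn2 := kcc53
noncomputable def pcB0 : Piece := ⟨rsbq0, rlq0⟩
noncomputable def pcB1 : Piece := ⟨rsbq1, rlq1⟩
noncomputable def pcB2 : Piece := ⟨rsbq2, rlq2⟩
noncomputable def pcB3 : Piece := ⟨rsbq3, rlq3⟩
noncomputable def ndB1q2 : Node := ⟨idf, cv1p, kf1q2, l1q2⟩
noncomputable def cd1q2 : Fn2 := kc1q2
noncomputable def ndB2q2 : Node := ⟨idf, cv2p, kf2q2, l2q2⟩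
noncomputable def cd2q2 : Fn2 := kc2q2
end Pool.Agent.Strip051.G.I9500_9625.Tab
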