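import Pool.Agent.Strip051.PB.StripC
import Pool.Agent.Strip051.G.I9500_9625.Fact

/-! # Facts about the strips of a table (generated) -/

set_option linter.all false
set_option maxRecDepth 4000

namespace Pool.Agent.Strip051.G.I9500_9625.Tab.St

open Pool.Agent.Strip051.PB Pool.Agent.StripNear Pool.Agent.Strip051.LC
open Pool.Agent.Strip051.G.I9500_9625.Tab

noncomputable def sl1 : Fn1 := ⟨_, _, fun h1 => (enc_norm (enc_subr 437810832855677 36735000000000 (enc_neg (enc_scaleT 530963610887249 3673500000000 (enc_subr 153 160 h1)))))⟩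
noncomputable def sv1 : Fn1 := ⟨_, _, fun h1 => (enc_norm (enc_subr 499858758986807 73470000000000 (enc_neg (enc_scaleT 527328522619589 7347000000000 (enc_subr 153 160 h1)))))⟩
noncomputable def sw1 : Fn1 := ⟨_, _, fun h1 => (enc_norm (enc_add (enc_scaleT 2761 1000 (enc_subr 153 160 h1)) (enc_rat _ 53 10000)))⟩
noncomputable def sl2 : Fn1 := ⟨_, _, fun h1 => (enc_norm (enc_subr 875329395060251 73465000000000 (enc_neg (enc_scaleT 1054676779549237 7346500000000 (enc_subr 153 160 h1)))))⟩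
noncomputable def sv2 : Fn1 := ⟨_, _, fun h1 => (enc_norm (enc_subr 249891380362460848981 36732500000000000000 (enc_neg (enc_scaleT 262784350575883270747 3673250000000000000 (enc_subr 153 160 h1)))))⟩
noncomputable def sw2 : Fn1 := ⟨_, _, fun h1 => (enc_norm (enc_add (enc_scaleT 1889 500 (enc_subr 153 160 h1)) (enc_rat _ 47 5000)))⟩
noncomputable def sl3 : Fn1 := ⟨_, _, fun h1 => (enc_norm (enc_add (enc_scaleT 152264805364265612359 24377308600000000 (enc_subr 153 160 h1)) (enc_rat _ 4567917144165462905691 11579221585000000000)))⟩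
noncomputable def sv3 : Fn1 := ⟨_, _, fun h1 => (enc_norm (enc_add (enc_scaleT 34908465209241498463 24377308600000000 (enc_subr 153 160 h1)) (enc_rat _ 32142263607654724109 361850674531250000)))⟩
noncomputable def sw3 : Fn1 := ⟨_, _, fun h1 => (enc_norm (enc_add (enc_scaleT 1358501 200 (enc_subr 153 160 h1)) (enc_rat _ 2158971 5000)))⟩
noncomputable def sl4 : Fn1 := ⟨_, _, fun h1 => (enc_norm (enc_add (enc_scaleT 462927006572238587 8810720250000000 (enc_subr 153 160 h1)) (enc_rat _ 10057029087979537 352428810000000)))⟩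
noncomputable def sv4 : Fn1 := ⟨_, _, fun h1 => (enc_norm (enc_add (enc_scaleT 177172386645642491 8810720250000000 (enc_subr 153 160 h1)) (enc_rat _ 190457319648653377 35242881000000000)))⟩
noncomputable def sw4 : Fn1 := ⟨_, _, fun h1 => (enc_norm (enc_add (enc_scaleT 23 500 (enc_subr 153 160 h1)) (enc_rat _ 60911 2000)))⟩
noncomputable def sl5 : Fn1 := ⟨_, _, fun h1 => (enc_norm (enc_sub (enc_rat _ 990909998737 342900000000) (enc_scaleT 5946193605107 34290000000 (enc_subr 153 160 h1))))⟩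
noncomputable def sv5 : Fn1 := ⟨_, _, fun h1 => (enc_norm (enc_sub (enc_rat _ 1891003957 857250000000) (enc_scaleT 2355994532027 85725000000 (enc_subr 153 160 h1))))⟩
noncomputable def sw5 : Fn1 := ⟨_, _, fun h1 => (enc_norm (enc_sub (enc_rat _ 19 1250) (enc_scaleT 134069 500 (enc_subr 153 160 h1))))⟩
noncomputable def sl6 : Fn1 := ⟨_, _, fun h1 => (enc_norm (enc_sub (enc_rat _ 1440217 500000) (enc_scaleT 8662847 50000 (enc_subr 153 160 h1))))⟩
noncomputable def sv6 : Fn1 := ⟨_, _, fun h1 => (enc_norm (enc_sub (enc_rat _ 4179 12500000) (enc_scaleT 4289493 156250 (enc_subr 153 160 h1))))⟩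
noncomputable def sw6 : Fn1 := ⟨_, _, fun h1 => (enc_norm (enc_sub (enc_rat _ 7 2000) (enc_scaleT 66987 250 (enc_subr 153 160 h1))))⟩
noncomputable def sl7 : Fn1 := ⟨_, _, fun h1 => (enc_norm (enc_sub (enc_rat _ 71991 25000) (enc_scaleT 8628681 50000 (enc_subr 153 160 h1))))⟩
noncomputable def sv7 : Fn1 := ⟨_, _, fun h1 => (enc_norm (enc_sub (enc_rat _ 597 3125000) (enc_scaleT 8540547 312500 (enc_subr 153 160 h1))))⟩
noncomputable def sw7 : Fn1 := ⟨_, _, fun h1 => (enc_norm (enc_sub (enc_rat _ 3 1250) (enc_scaleT 266999 1000 (enc_subr 153 160 h1))))⟩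
noncomputable def sl8 : Fn1 := ⟨_, _, fun h1 => (enc_norm (enc_sub (enc_rat _ 287861 100000) (enc_scaleT 45907 25000 (enc_subr 153 160 h1))))⟩
noncomputable def sv8 : Fn1 := ⟨_, _, fun h1 => (enc_norm (enc_sub (enc_rat _ 79 3125000) (enc_scaleT 3677 312500 (enc_subr 153 160 h1))))⟩
noncomputable def sw8 : Fn1 := ⟨_, _, fun h1 => (enc_norm (enc_sub (enc_rat _ 1 1250) (enc_scaleT 111 500 (enc_subr 153 160 h1))))⟩
noncomputable def sl9 : Fn1 := ⟨_, _, fun h1 => (enc_norm (enc_sub (enc_rat _ 1439231 500000) (enc_scaleT 21951 12500 (enc_subr 153 160 h1))))⟩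
noncomputable def sv9 : Fn1 := ⟨_, _, fun h1 => (enc_norm (enc_sub (enc_rat _ 11 1562500) (enc_scaleT 167 78125 (enc_subr 153 160 h1))))⟩
noncomputable def sw9 : Fn1 := ⟨_, _, fun h1 => (enc_norm (enc_sub (enc_rat _ 1 2000) (enc_scaleT 11 200 (enc_subr 153 160 h1))))⟩
noncomputable def sl10 : Fn1 := ⟨_, _, fun h1 => (enc_norm (enc_sub (enc_rat _ 1439199 500000) (enc_scaleT 21579 12500 (enc_subr 153 160 h1))))⟩
noncomputable def sv10 : Fn1 := ⟨_, _, fun h1 => (enc_norm (enc_add (enc_scaleT 19 78125 (enc_subr 153 160 h1)) (enc_rat _ 3 1562500)))⟩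
noncomputable def sw10 : Fn1 := ⟨_, _, fun h1 => (enc_norm (enc_add (enc_scaleT 19 500 (enc_subr 153 160 h1)) (enc_rat _ 3 10000)))⟩
noncomputable def sl11 : Fn1 := ⟨_, _, fun h1 => (enc_norm (enc_sub (enc_rat _ 57567 20000) (enc_scaleT 4331 2500 (enc_subr 153 160 h1))))⟩
noncomputable def sv11 : Fn1 := ⟨_, _, fun h1 => (enc_pnc _ 0)⟩
noncomputable def sl12 : Fn1 := ⟨_, _, fun h1 => (enc_norm (enc_sub (enc_rat _ 1439199 500000) (enc_scaleT 21579 12500 (enc_subr 153 160 h1))))⟩
noncomputable def sv12 : Fn1 := ⟨_, _, fun h1 => (enc_norm (enc_subr 3 1562500 (enc_neg (enc_scaleT 19 78125 (enc_subr 153 160 h1)))))⟩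
noncomputable def sw12 : Fn1 := ⟨_, _, fun h1 => (enc_norm (enc_subr 3 10000 (enc_neg (enc_scaleT 19 500 (enc_subr 153 160 h1)))))⟩
noncomputable def sl13 : Fn1 := ⟨_, _, fun h1 => (enc_norm (enc_sub (enc_rat _ 1439231 500000) (enc_scaleT 21951 12500 (enc_subr 153 160 h1))))⟩
noncomputable def sv13 : Fn1 := ⟨_, _, fun h1 => (enc_norm (enc_subr 11 1562500 (enc_scaleT 167 78125 (enc_subr 153 160 h1))))⟩
noncomputable def sw13 : Fn1 := ⟨_, _, fun h1 => (enc_norm (enc_subr 1 2000 (enc_scaleT 11 200 (enc_subr 153 160 h1))))⟩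
noncomputable def sl14 : Fn1 := ⟨_, _, fun h1 => (enc_norm (enc_sub (enc_rat _ 287861 100000) (enc_scaleT 45907 25000 (enc_subr 153 160 h1))))⟩
noncomputable def sv14 : Fn1 := ⟨_, _, fun h1 => (enc_norm (enc_subr 79 3125000 (enc_scaleT 3677 312500 (enc_subr 153 160 h1))))⟩
noncomputable def sw14 : Fn1 := ⟨_, _, fun h1 => (enc_norm (enc_subr 1 1250 (enc_scaleT 111 500 (enc_subr 153 160 h1))))⟩
noncomputable def sl15 : Fn1 := ⟨_, _, fun h1 => (enc_norm (enc_sub (enc_rat _ 71991 25000) (enc_scaleT 8628681 50000 (enc_subr 153 160 h1))))⟩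
noncomputable def sv15 : Fn1 := ⟨_, _, fun h1 => (enc_norm (enc_subr 597 3125000 (enc_scaleT 8540547 312500 (enc_subr 153 160 h1))))⟩
noncomputable def sw15 : Fn1 := ⟨_, _, fun h1 => (enc_norm (enc_subr 3 1250 (enc_scaleT 266999 1000 (enc_subr 153 160 h1))))⟩
noncomputable def sl16 : Fn1 := ⟨_, _, fun h1 => (enc_norm (enc_sub (enc_rat _ 1440217 500000) (enc_scaleT 8662847 50000 (enc_subr 153 160 h1))))⟩
noncomputable def sv16 : Fn1 := ⟨_, _, fun h1 => (enc_norm (enc_subr 4179 12500000 (enc_scaleT 4289493 156250 (enc_subr 153 160 h1))))⟩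
noncomputable def sw16 : Fn1 := ⟨_, _, fun h1 => (enc_norm (enc_subr 7 2000 (enc_scaleT 66987 250 (enc_subr 153 160 h1))))⟩
noncomputable def sl17 : Fn1 := ⟨_, _, fun h1 => (enc_norm (enc_sub (enc_rat _ 990909998737 342900000000) (enc_scaleT 5946193605107 34290000000 (enc_subr 153 160 h1))))⟩
noncomputable def sv17 : Fn1 := ⟨_, _, fun h1 => (enc_norm (enc_subr 1891003957 857250000000 (enc_scaleT 2355994532027 85725000000 (enc_subr 153 160 h1))))⟩
noncomputable def sw17 : Fn1 := ⟨_, _, fun h1 => (enc_norm (enc_subr 19 1250 (enc_scaleT 134069 500 (enc_subr 153 160 h1))))⟩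
noncomputable def sl18 : Fn1 := ⟨_, _, fun h1 => (enc_norm (enc_add (enc_scaleT 462927006572238587 8810720250000000 (enc_subr 153 160 h1)) (enc_rat _ 10057029087979537 352428810000000)))⟩
noncomputable def sv18 : Fn1 := ⟨_, _, fun h1 => (enc_norm (enc_subr 190457319648653377 35242881000000000 (enc_neg (enc_scaleT 177172386645642491 8810720250000000 (enc_subr 153 160 h1)))))⟩
noncomputable def sw18 : Fn1 := ⟨_, _, fun h1 => (enc_norm (enc_subr 60911 2000 (enc_neg (enc_scaleT 23 500 (enc_subr 153 160 h1)))))⟩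
noncomputable def sl19 : Fn1 := ⟨_, _, fun h1 => (enc_norm (enc_add (enc_scaleT 152264805364265612359 24377308600000000 (enc_subr 153 160 h1)) (enc_rat _ 4567917144165462905691 11579221585000000000)))⟩
noncomputable def sv19 : Fn1 := ⟨_, _, fun h1 => (enc_norm (enc_subr 32142263607654724109 361850674531250000 (enc_neg (enc_scaleT 34908465209241498463 24377308600000000 (enc_subr 153 160 h1)))))⟩
noncomputable def sw19 : Fn1 := ⟨_, _, fun h1 => (enc_norm (enc_subr 2158971 5000 (enc_neg (enc_scaleT 1358501 200 (enc_subr 153 160 h1)))))⟩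
noncomputable def sl20 : Fn1 := ⟨_, _, fun h1 => (enc_norm (enc_subr 875329395060251 73465000000000 (enc_neg (enc_scaleT 1054676779549237 7346500000000 (enc_subr 153 160 h1)))))⟩
noncomputable def sv20 : Fn1 := ⟨_, _, fun h1 => (enc_norm (enc_add (enc_scaleT 262784350575883270747 3673250000000000000 (enc_subr 153 160 h1)) (enc_rat _ 249891380362460848981 36732500000000000000)))⟩
noncomputable def sw20 : Fn1 := ⟨_, _, fun h1 => (enc_norm (enc_subr 47 5000 (enc_neg (enc_scaleT 1889 500 (enc_subr 153 160 h1)))))⟩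
noncomputable def sl21 : Fn1 := ⟨_, _, fun h1 => (enc_norm (enc_subr 437810832855677 36735000000000 (enc_neg (enc_scaleT 530963610887249 3673500000000 (enc_subr 153 160 h1)))))⟩
noncomputable def sv21 : Fn1 := ⟨_, _, fun h1 => (enc_norm (enc_add (enc_scaleT 527328522619589 7347000000000 (enc_subr 153 160 h1)) (enc_rat _ 499858758986807 73470000000000)))⟩
noncomputable def sw21 : Fn1 := ⟨_, _, fun h1 => (enc_norm (enc_subr 53 10000 (enc_neg (enc_scaleT 2761 1000 (enc_subr 153 160 h1)))))⟩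
noncomputable def sl42 : Fn1 := ⟨_, _, fun h1 => (enc_norm (enc_add (enc_scaleT 94899183664867 1224500000000 (enc_subr 153 160 h1)) (enc_rat _ 128488090813277 36735000000000)))⟩
noncomputable def sv42 : Fn1 := ⟨_, _, fun h1 => (enc_norm (enc_add (enc_scaleT 47075723914867 2449000000000 (enc_subr 153 160 h1)) (enc_rat _ 66870638563277 73470000000000)))⟩
noncomputable def sw42 : Fn1 := ⟨_, _, fun h1 => (enc_norm (enc_add (enc_scaleT 78111 1000 (enc_subr 153 160 h1)) (enc_rat _ 33547 10000)))⟩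
noncomputable def sl43 : Fn1 := ⟨_, _, fun h1 => (enc_norm (enc_subr 12180235607301 14693000000000 (enc_neg (enc_scaleT 13943014397371 419800000000 (enc_subr 153 160 h1)))))⟩
noncomputable def sv43 : Fn1 := ⟨_, _, fun h1 => (enc_norm (enc_subr 1026333742823267531 7346500000000000000 (enc_neg (enc_scaleT 1604184491841443701 209900000000000000 (enc_subr 153 160 h1)))))⟩
noncomputable def sw43 : Fn1 := ⟨_, _, fun h1 => (enc_norm (enc_subr 1103 1000 (enc_neg (enc_scaleT 7191 200 (enc_subr 153 160 h1)))))⟩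
noncomputable def sl44 : Fn1 := ⟨_, _, fun h1 => (enc_norm (enc_subr 361096556252299 106130000000000 (enc_neg (enc_scaleT 208470643076953 10613000000000 (enc_subr 153 160 h1)))))⟩
noncomputable def sv44 : Fn1 := ⟨_, _, fun h1 => (enc_norm (enc_subr 3954657370792877 5306500000000000 (enc_neg (enc_scaleT 2361074395654919 530650000000000 (enc_subr 153 160 h1)))))⟩
noncomputable def sw44 : Fn1 := ⟨_, _, fun h1 => (enc_norm (enc_subr 38371 10000 (enc_neg (enc_scaleT 21537 1000 (enc_subr 153 160 h1)))))⟩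
noncomputable def sl45 : Fn1 := ⟨_, _, fun h1 => (enc_norm (enc_subr 1545487 3000000 (enc_neg (enc_scaleT 52039 4000 (enc_subr 153 160 h1)))))⟩
noncomputable def sv45 : Fn1 := ⟨_, _, fun h1 => (enc_norm (enc_subr 1522189 18750000 (enc_neg (enc_scaleT 29237639 10000000 (enc_subr 153 160 h1)))))⟩
noncomputable def sw45 : Fn1 := ⟨_, _, fun h1 => (enc_norm (enc_subr 1747 2500 (enc_neg (enc_scaleT 14327 1000 (enc_subr 153 160 h1)))))⟩
noncomputable def sl46 : Fn1 := ⟨_, _, fun h1 => (enc_norm (enc_add (enc_scaleT 2486207 100000 (enc_subr 153 160 h1)) (enc_rat _ 1974823 1500000)))⟩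
noncomputable def sv46 : Fn1 := ⟨_, _, fun h1 => (enc_norm (enc_add (enc_scaleT 26093387 5000000 (enc_subr 153 160 h1)) (enc_rat _ 46895071 150000000)))⟩
noncomputable def sw46 : Fn1 := ⟨_, _, fun h1 => (enc_norm (enc_add (enc_scaleT 2971 100 (enc_subr 153 160 h1)) (enc_rat _ 14311 10000)))⟩
noncomputable def sl47 : Fn1 := ⟨_, _, fun h1 => (enc_norm (enc_add (enc_scaleT 7775143 80000 (enc_subr 153 160 h1)) (enc_rat _ 1243069 200000)))⟩
noncomputable def sv47 : Fn1 := ⟨_, _, fun h1 => (enc_norm (enc_add (enc_scaleT 49210311 2500000 (enc_subr 153 160 h1)) (enc_rat _ 64619617 50000000)))⟩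
noncomputable def sw47 : Fn1 := ⟨_, _, fun h1 => (enc_norm (enc_add (enc_scaleT 120119 1000 (enc_subr 153 160 h1)) (enc_rat _ 37773 5000)))⟩
noncomputable def sl48 : Fn1 := ⟨_, _, fun h1 => (enc_norm (enc_add (enc_scaleT 1064819 100000 (enc_subr 153 160 h1)) (enc_rat _ 776319 1000000)))⟩
noncomputable def sv48 : Fn1 := ⟨_, _, fun h1 => (enc_norm (enc_add (enc_scaleT 41067309 10000000 (enc_subr 153 160 h1)) (enc_rat _ 3133673 10000000)))⟩
noncomputable def sw48 : Fn1 := ⟨_, _, fun h1 => (enc_norm (enc_sub (enc_rat _ 1 2500) (enc_scaleT 77 1000 (enc_subr 153 160 h1))))⟩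
noncomputable def sl49 : Fn1 := ⟨_, _, fun h1 => (enc_norm (enc_sub (enc_rat _ 885533 3000000) (enc_scaleT 966149 30000 (enc_subr 153 160 h1))))⟩
noncomputable def sv49 : Fn1 := ⟨_, _, fun h1 => (enc_norm (enc_sub (enc_rat _ 5849469 25000000) (enc_scaleT 29640427 10000000 (enc_subr 153 160 h1))))⟩
noncomputable def sw49 : Fn1 := ⟨_, _, fun h1 => (enc_norm (enc_subr 3643 5000 (enc_neg (enc_scaleT 32503 500 (enc_subr 153 160 h1)))))⟩
noncomputable def sl50 : Fn1 := ⟨_, _, fun h1 => (enc_norm (enc_sub (enc_rat _ 23037 78125) (enc_scaleT 14134777 500000 (enc_subr 153 160 h1))))⟩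
noncomputable def sv50 : Fn1 := ⟨_, _, fun h1 => (enc_norm (enc_sub (enc_rat _ 11696627 50000000) (enc_scaleT 23737289 10000000 (enc_subr 153 160 h1))))⟩
noncomputable def sw50 : Fn1 := ⟨_, _, fun h1 => (enc_norm (enc_subr 7291 10000 (enc_neg (enc_scaleT 58447 1000 (enc_subr 153 160 h1)))))⟩
noncomputable def sl51 : Fn1 := ⟨_, _, fun h1 => (enc_norm (enc_add (enc_scaleT 431747 500000 (enc_subr 153 160 h1)) (enc_rat _ 184107 625000)))⟩
noncomputable def sv51 : Fn1 := ⟨_, _, fun h1 => (enc_norm (enc_add (enc_scaleT 12679081 10000000 (enc_subr 153 160 h1)) (enc_rat _ 5847361 25000000)))⟩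
noncomputable def sw51 : Fn1 := ⟨_, _, fun h1 => (enc_norm (enc_subr 7297 10000 (enc_neg (enc_scaleT 181 1000 (enc_subr 153 160 h1)))))⟩
noncomputable def sl52 : Fn1 := ⟨_, _, fun h1 => (enc_norm (enc_add (enc_scaleT 451359 500000 (enc_subr 153 160 h1)) (enc_rat _ 137171 1000000)))⟩
noncomputable def sv52 : Fn1 := ⟨_, _, fun h1 => (enc_norm (enc_add (enc_scaleT 12718329 10000000 (enc_subr 153 160 h1)) (enc_rat _ 272693 1250000)))⟩
noncomputable def sw52 : Fn1 := ⟨_, _, fun h1 => (enc_norm (enc_subr 702 625 (enc_neg (enc_scaleT 83 1000 (enc_subr 153 160 h1)))))⟩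
noncomputable def sl53 : Fn1 := ⟨_, _, fun h1 => (enc_norm (enc_add (enc_scaleT 453623 500000 (enc_subr 153 160 h1)) (enc_rat _ 342547 2500000)))⟩
noncomputable def sv53 : Fn1 := ⟨_, _, fun h1 => (enc_norm (enc_add (enc_scaleT 6360873 5000000 (enc_subr 153 160 h1)) (enc_rat _ 10907141 50000000)))⟩
noncomputable def sw53 : Fn1 := ⟨_, _, fun h1 => (enc_norm (enc_subr 11237 10000 (enc_neg (enc_scaleT 17 250 (enc_subr 153 160 h1)))))⟩
noncomputable def sl54 : Fn1 := ⟨_, _, fun h1 => (enc_norm (enc_add (enc_scaleT 110669 1000000 (enc_subr 153 160 h1)) (enc_rat _ 1370961 10000000)))⟩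
noncomputable def sv54 : Fn1 := ⟨_, _, fun h1 => (enc_norm (enc_add (enc_scaleT 12323469 10000000 (enc_subr 153 160 h1)) (enc_rat _ 4362931 20000000)))⟩
noncomputable def sw54 : Fn1 := ⟨_, _, fun h1 => (enc_norm (enc_subr 11233 10000 (enc_neg (enc_scaleT 4051 1000 (enc_subr 153 160 h1)))))⟩
noncomputable def sl55 : Fn1 := ⟨_, _, fun h1 => (enc_norm (enc_add (enc_scaleT 1503547 500000 (enc_subr 153 160 h1)) (enc_rat _ 34459 250000)))⟩
noncomputable def sv55 : Fn1 := ⟨_, _, fun h1 => (enc_norm (enc_add (enc_scaleT 2718811 2500000 (enc_subr 153 160 h1)) (enc_rat _ 5452739 25000000)))⟩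
noncomputable def sw55 : Fn1 := ⟨_, _, fun h1 => (enc_norm (enc_subr 1127 1000 (enc_neg (enc_scaleT 18533 1000 (enc_subr 153 160 h1)))))⟩
noncomputable def sl56 : Fn1 := ⟨_, _, fun h1 => (enc_norm (enc_add (enc_scaleT 149201 50000 (enc_subr 153 160 h1)) (enc_rat _ 353209 2500000)))⟩
noncomputable def sv56 : Fn1 := ⟨_, _, fun h1 => (enc_norm (enc_add (enc_scaleT 1089253 1000000 (enc_subr 153 160 h1)) (enc_rat _ 21785117 100000000)))⟩
noncomputable def sw56 : Fn1 := ⟨_, _, fun h1 => (enc_norm (enc_subr 2277 2000 (enc_neg (enc_scaleT 2307 125 (enc_subr 153 160 h1)))))⟩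
noncomputable def sl57 : Fn1 := ⟨_, _, fun h1 => (enc_norm (enc_sub (enc_rat _ 731703 2500000) (enc_scaleT 2126803 500000 (enc_subr 153 160 h1))))⟩
noncomputable def sv57 : Fn1 := ⟨_, _, fun h1 => (enc_norm (enc_add (enc_scaleT 9065091 5000000 (enc_subr 153 160 h1)) (enc_rat _ 4054233 20000000)))⟩
noncomputable def sw57 : Fn1 := ⟨_, _, fun h1 => (enc_norm (enc_subr 1517 1000 (enc_neg (enc_scaleT 181 500 (enc_subr 153 160 h1)))))⟩
noncomputable def sl58 : Fn1 := ⟨_, _, fun h1 => (enc_norm (enc_sub (enc_rat _ 732209 2500000) (enc_scaleT 442913 100000 (enc_subr 153 160 h1))))⟩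
noncomputable def sv58 : Fn1 := ⟨_, _, fun h1 => (enc_norm (enc_add (enc_scaleT 18349617 10000000 (enc_subr 153 160 h1)) (enc_rat _ 4053721 20000000)))⟩
noncomputable def sw58 : Fn1 := ⟨_, _, fun h1 => (enc_norm (enc_subr 7587 5000 (enc_neg (enc_scaleT 11 1000 (enc_subr 153 160 h1)))))⟩
noncomputable def sl59 : Fn1 := ⟨_, _, fun h1 => (enc_norm (enc_sub (enc_rat _ 146533 500000) (enc_scaleT 59399 12000 (enc_subr 153 160 h1))))⟩
noncomputable def sv59 : Fn1 := ⟨_, _, fun h1 => (enc_norm (enc_add (enc_scaleT 19130777 10000000 (enc_subr 153 160 h1)) (enc_rat _ 20265833 100000000)))⟩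
noncomputable def sw59 : Fn1 := ⟨_, _, fun h1 => (enc_norm (enc_subr 15177 10000 (enc_scaleT 857 1000 (enc_subr 153 160 h1))))⟩
noncomputable def sl60 : Fn1 := ⟨_, _, fun h1 => (enc_norm (enc_sub (enc_rat _ 2548339 3000000) (enc_scaleT 29549 6000 (enc_subr 153 160 h1))))⟩
noncomputable def sv60 : Fn1 := ⟨_, _, fun h1 => (enc_norm (enc_add (enc_scaleT 2386173 1250000 (enc_subr 153 160 h1)) (enc_rat _ 692847 6250000)))⟩
noncomputable def sw60 : Fn1 := ⟨_, _, fun h1 => (enc_norm (enc_subr 23607 10000 (enc_scaleT 819 1000 (enc_subr 153 160 h1))))⟩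
noncomputable def sl61 : Fn1 := ⟨_, _, fun h1 => (enc_norm (enc_subr 231877 100000 (enc_neg (enc_scaleT 14335229 400000 (enc_subr 153 160 h1)))))⟩
noncomputable def sv61 : Fn1 := ⟨_, _, fun h1 => (enc_norm (enc_add (enc_scaleT 14946657 2000000 (enc_subr 153 160 h1)) (enc_rat _ 17028363 25000000)))⟩
noncomputable def sw61 : Fn1 := ⟨_, _, fun h1 => (enc_norm (enc_add (enc_scaleT 21877 500 (enc_subr 153 160 h1)) (enc_rat _ 5099 2500)))⟩
noncomputable def sl62_2 : Fn1 := ⟨_, _, fun h1 => (enc_subr 153 160 h1)⟩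
noncomputable def sl62 : Fn1 := ⟨_, _, fun h1 => (enc_norm (enc_sub (enc_add (enc_scaleT 3066670426603 457200000000 (sl62_2.enc h1)) (enc_rat _ 1273272306869 13716000000000)) (enc_scaleT 321251573467 952500000 (enc_sq (enc_norm (sl62_2.enc h1))))))⟩
noncomputable def sv62_2 : Fn1 := ⟨_, _, fun h1 => (enc_subr 153 160 h1)⟩
noncomputable def sv62 : Fn1 := ⟨_, _, fun h1 => (enc_norm (enc_add (enc_sub (enc_rat _ 6817333863931 34290000000000) (enc_scaleT 1183898538103 1143000000000 (sv62_2.enc h1))) (enc_scaleT 160625783467 2381250000 (enc_sq (enc_norm (sv62_2.enc h1))))))⟩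
noncomputable def sw62_2 : Fn1 := ⟨_, _, fun h1 => (enc_subr 153 160 h1)⟩
noncomputable def sw62 : Fn1 := ⟨_, _, fun h1 => (enc_norm (enc_add (enc_subr 9749 10000 (enc_neg (enc_scaleT 2357 250 (sw62_2.enc h1)))) (enc_scaleT 42159 100 (enc_sq (enc_norm (sw62_2.enc h1))))))⟩
noncomputable def sl64_2 : Fn1 := ⟨_, _, fun h1 => (enc_subr 153 160 h1)⟩
noncomputable def sl64 : Fn1 := ⟨_, _, fun h1 => (enc_norm (enc_sub (enc_add (enc_scaleT 790700382702082303 231584431700000000 (sl64_2.enc h1)) (enc_rat _ 4836432084078345149 4631688634000000000)) (enc_scaleT 53658475767972954057 57896107925000000 (enc_sq (enc_norm (sl64_2.enc h1))))))⟩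
noncomputable def sv64_2 : Fn1 := ⟨_, _, fun h1 => (enc_subr 153 160 h1)⟩
noncomputable def sv64 : Fn1 := ⟨_, _, fun h1 => (enc_norm (enc_add (enc_subr 2775140795632661951 185267545360000000000 (enc_neg (enc_scaleT 83403609078141181 231584431700000000 (sv64_2.enc h1)))) (enc_scaleT 12626186100987268953 57896107925000000 (enc_sq (enc_norm (sv64_2.enc h1))))))⟩
noncomputable def sw64_2 : Fn1 := ⟨_, _, fun h1 => (enc_subr 153 160 h1)⟩
noncomputable def sw64 : Fn1 := ⟨_, _, fun h1 => (enc_norm (enc_add (enc_subr 4069 2000 (enc_neg (enc_scaleT 543 100 (sw64_2.enc h1)))) (enc_scaleT 24617 25 (enc_sq (enc_norm (sw64_2.enc h1))))))⟩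
noncomputable def sl65 : Fn1 := ⟨_, _, fun h1 => (enc_norm (enc_subr 9269827383273 146930000000000 (enc_scaleT 9344231398167 1836625000000 (enc_subr 153 160 h1))))⟩
noncomputable def sv65 : Fn1 := ⟨_, _, fun h1 => (enc_norm (enc_sub (enc_rat _ 18041774550482449063 73465000000000000000) (enc_scaleT 692304102446703577 918312500000000000 (enc_subr 153 160 h1))))⟩
noncomputable def sw65 : Fn1 := ⟨_, _, fun h1 => (enc_norm (enc_subr 8581 10000 (enc_neg (enc_scaleT 901 125 (enc_subr 153 160 h1)))))⟩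
noncomputable def sl66 : Fn1 := ⟨_, _, fun h1 => (enc_norm (enc_subr 1100821508729 489800000000 (enc_neg (enc_scaleT 89958940016977 1836750000000 (enc_subr 153 160 h1)))))⟩
noncomputable def sv66 : Fn1 := ⟨_, _, fun h1 => (enc_norm (enc_add (enc_scaleT 45423262766977 3673500000000 (enc_subr 153 160 h1)) (enc_rat _ 759798258729 979600000000)))⟩
noncomputable def sw66 : Fn1 := ⟨_, _, fun h1 => (enc_norm (enc_add (enc_scaleT 24247 500 (enc_subr 153 160 h1)) (enc_rat _ 557 400)))⟩
noncomputable def skf0 : Fn2 := ⟨_, _, fun h1 h2 => (enc_norm (enc_add (bf1q0.enc h1 h2) (enc_mul (enc_norm (enc_sub (enc_mul (c1g.enc h1) (bf1q0.enc h1 h2)) (kf0q0.enc h1 h2))) (enc_inv (enc_sub (cv1m.enc h1) (c1g.enc h1))))))⟩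
noncomputable def sxf0 : Fn2 := ⟨_, _, fun h1 h2 => (enc_norm (enc_mul (enc_norm (enc_sub (l1q0.enc h1 h2) (l0q0.enc h1 h2))) (enc_inv (enc_sub (cv1m.enc h1) (c1g.enc h1)))))⟩
noncomputable def skl0 : Fn2 := ⟨_, _, fun h1 h2 => (enc_norm (enc_add (bf4q0.enc h1 h2) (enc_mul (enc_norm (enc_sub (kf5q0.enc h1 h2) (enc_mul (c3g.enc h1) (bf4q0.enc h1 h2)))) (enc_inv (enc_sub (c3g.enc h1) (cv4m.enc h1))))))⟩
noncomputable def sxl0 : Fn2 := ⟨_, _, fun h1 h2 => (enc_norm (enc_mul (enc_norm (enc_sub (l5q0.enc h1 h2) (l4q0.enc h1 h2))) (enc_inv (enc_sub (c3g.enc h1) (cv4m.enc h1)))))⟩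
noncomputable def skf1 : Fn2 := ⟨_, _, fun h1 h2 => (enc_norm (enc_add (bf1q1.enc h1 h2) (enc_mul (enc_norm (enc_sub (enc_mul (c1g.enc h1) (bf1q1.enc h1 h2)) (kf0q1.enc h1 h2))) (enc_inv (enc_sub (cv1m.enc h1) (c1g.enc h1))))))⟩
noncomputable def sxf1 : Fn2 := ⟨_, _, fun h1 h2 => (enc_norm (enc_mul (enc_norm (enc_sub (l1q1.enc h1 h2) (l0q1.enc h1 h2))) (enc_inv (enc_sub (cv1m.enc h1) (c1g.enc h1)))))⟩
noncomputable def skl1 : Fn2 := ⟨_, _, fun h1 h2 => (enc_norm (enc_add (bf4q1.enc h1 h2) (enc_mul (enc_norm (enc_sub (kf5q1.enc h1 h2) (enc_mul (c3g.enc h1) (bf4q1.enc h1 h2)))) (enc_inv (enc_sub (c3g.enc h1) (cv4m.enc h1))))))⟩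
noncomputable def sxl1 : Fn2 := ⟨_, _, fun h1 h2 => (enc_norm (enc_mul (enc_norm (enc_sub (l5q1.enc h1 h2) (l4q1.enc h1 h2))) (enc_inv (enc_sub (c3g.enc h1) (cv4m.enc h1)))))⟩
noncomputable def skf2 : Fn2 := ⟨_, _, fun h1 h2 => (enc_norm (enc_add (bf1q2.enc h1 h2) (enc_mul (enc_norm (enc_add (enc_mul (c1g.enc h1) (enc_norm (enc_subn 1 (bf1q2.enc h1 h2)))) (enc_mul (enc_norm (enc_subn 1 h1)) (kcg.enc (c1g.enc h1) h2)))) (enc_inv (enc_sub (cv1p.enc h1) (c1g.enc h1))))))⟩
noncomputable def sxf2 : Fn2 := ⟨_, _, fun h1 h2 => (enc_norm (enc_mul (enc_norm (enc_sub (l1q2.enc h1 h2) (l0q2.enc h1 h2))) (enc_inv (enc_sub (cv1p.enc h1) (c1g.enc h1)))))⟩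
noncomputable def skl2 : Fn2 := ⟨_, _, fun h1 h2 => (enc_norm (enc_add (bf4q2.enc h1 h2) (enc_mul (enc_norm (enc_sub (kf5q2.enc h1 h2) (enc_mul (c3g.enc h1) (bf4q2.enc h1 h2)))) (enc_inv (enc_sub (c3g.enc h1) (cv4p.enc h1))))))⟩
noncomputable def sxl2 : Fn2 := ⟨_, _, fun h1 h2 => (enc_norm (enc_mul (enc_norm (enc_sub (l5q2.enc h1 h2) (l4q2.enc h1 h2))) (enc_inv (enc_sub (c3g.enc h1) (cv4p.enc h1)))))⟩
noncomputable def skl3 : Fn2 := ⟨_, _, fun h1 h2 => (enc_norm (enc_add (bf4q3.enc h1 h2) (enc_mul (enc_norm (enc_sub (kf5q3.enc h1 h2) (enc_mul (c3g.enc h1) (bf4q3.enc h1 h2)))) (enc_inv (enc_sub (c3g.enc h1) (cv4r.enc h1))))))⟩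
noncomputable def sxl3 : Fn2 := ⟨_, _, fun h1 h2 => (enc_norm (enc_mul (enc_norm (enc_sub (l5q3.enc h1 h2) (l4q3.enc h1 h2))) (enc_inv (enc_sub (c3g.enc h1) (cv4r.enc h1)))))⟩
noncomputable def rhk : Fn2 := ⟨_, _, fun h1 h2 => (enc_norm (enc_mul (enc_norm (enc_sub (bf1q2.enc h1 h2) (n0b.enc h1 h2))) (enc_norm (enc_mul (cv1p.enc h1) (enc_inv (enc_sub (cv1p.enc h1) (c1g.enc h1)))))))⟩
noncomputable def rhx : Fn2 := ⟨_, _, fun h1 h2 => (enc_norm (enc_mul (enc_norm (enc_sub (bx1q2.enc h1 h2) (n0x.enc h1 h2))) (enc_norm (enc_mul (cv1p.enc h1) (enc_inv (enc_sub (cv1p.enc h1) (c1g.enc h1)))))))⟩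
noncomputable def sbk : Fn1 := ⟨_, _, fun h1 => (enc_norm (enc_subr 1 1250 (enc_scaleT 2 625 (enc_subr 153 160 h1))))⟩
noncomputable def sbx : Fn1 := ⟨_, _, fun h1 => (enc_norm (enc_add (enc_scaleT 26619 2500 (enc_subr 153 160 h1)) (enc_rat _ 30311 25000)))⟩
noncomputable def k0c : Fn1 := ⟨_, _, fun h1 => (enc_norm (enc_sub (enc_rat _ 57567 20000) (enc_scaleT 4331 2500 (enc_subr 153 160 h1))))⟩
noncomputable def m0c : Fn1 := ⟨_, _, fun h1 => (enc_norm (enc_subr 1370961 5000000 (enc_neg (enc_scaleT 110669 500000 (enc_subr 153 160 h1)))))⟩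
noncomputable def sl91 : Fn1 := ⟨_, _, fun h1 => (enc_norm (enc_subr 1565301 5000000 (enc_scaleT 72229 20000 (enc_subr 153 160 h1))))⟩
noncomputable def sv91 : Fn1 := ⟨_, _, fun h1 => (enc_norm (enc_subr 3118279 100000000 (enc_scaleT 5451101 10000000 (enc_subr 153 160 h1))))⟩
noncomputable def sw91 : Fn1 := ⟨_, _, fun h1 => (enc_norm (enc_subr 7873 10000 (enc_neg (enc_scaleT 181 1000 (enc_subr 153 160 h1)))))⟩
noncomputable def sl92 : Fn1 := ⟨_, _, fun h1 => (enc_norm (enc_subr 333 78125 (enc_neg (enc_scaleT 18327 5000 (enc_subr 153 160 h1)))))⟩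
noncomputable def sv92 : Fn1 := ⟨_, _, fun h1 => (enc_norm (enc_subr 30323 100000000 (enc_neg (enc_scaleT 1825799 10000000 (enc_subr 153 160 h1)))))⟩
noncomputable def sw92 : Fn1 := ⟨_, _, fun h1 => (enc_norm (enc_subr 153 10000 (enc_neg (enc_scaleT 18373 1000 (enc_subr 153 160 h1)))))⟩
noncomputable def sl93 : Fn1 := ⟨_, _, fun h1 => (enc_norm (enc_subr 3313 5000000 (enc_neg (enc_scaleT 1846501 500000 (enc_subr 153 160 h1)))))⟩
noncomputable def sv93 : Fn1 := ⟨_, _, fun h1 => (enc_norm (enc_subr 1663 50000000 (enc_neg (enc_scaleT 923251 5000000 (enc_subr 153 160 h1)))))⟩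
noncomputable def sw93 : Fn1 := ⟨_, _, fun h1 => (enc_norm (enc_subr 33 10000 (enc_neg (enc_scaleT 3693 200 (enc_subr 153 160 h1)))))⟩
noncomputable def sl94 : Fn1 := ⟨_, _, fun h1 => (enc_pnc _ 0)⟩
noncomputable def sv94 : Fn1 := ⟨_, _, fun h1 => (enc_pnc _ 0)⟩
noncomputable def sl95 : Fn1 := ⟨_, _, fun h1 => (enc_norm (enc_subr 3313 5000000 (enc_neg (enc_scaleT 1846501 500000 (enc_subr 153 160 h1)))))⟩
noncomputable def sv95 : Fn1 := ⟨_, _, fun h1 => (enc_norm (enc_add (enc_scaleT 923251 5000000 (enc_subr 153 160 h1)) (enc_rat _ 1663 50000000)))⟩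
noncomputable def sw95 : Fn1 := ⟨_, _, fun h1 => (enc_norm (enc_add (enc_scaleT 3693 200 (enc_subr 153 160 h1)) (enc_rat _ 33 10000)))⟩
noncomputable def sl96 : Fn1 := ⟨_, _, fun h1 => (enc_norm (enc_subr 333 78125 (enc_neg (enc_scaleT 18327 5000 (enc_subr 153 160 h1)))))⟩
noncomputable def sv96 : Fn1 := ⟨_, _, fun h1 => (enc_norm (enc_add (enc_scaleT 1825799 10000000 (enc_subr 153 160 h1)) (enc_rat _ 30323 100000000)))⟩
noncomputable def sw96 : Fn1 := ⟨_, _, fun h1 => (enc_norm (enc_add (enc_scaleT 18373 1000 (enc_subr 153 160 h1)) (enc_rat _ 153 10000)))⟩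
noncomputable def sl97 : Fn1 := ⟨_, _, fun h1 => (enc_norm (enc_subr 1565301 5000000 (enc_scaleT 72229 20000 (enc_subr 153 160 h1))))⟩
noncomputable def sv97 : Fn1 := ⟨_, _, fun h1 => (enc_norm (enc_sub (enc_rat _ 3118279 100000000) (enc_scaleT 5451101 10000000 (enc_subr 153 160 h1))))⟩
noncomputable def sw97 : Fn1 := ⟨_, _, fun h1 => (enc_norm (enc_add (enc_scaleT 181 1000 (enc_subr 153 160 h1)) (enc_rat _ 7873 10000)))⟩
noncomputable def kqf : Fn2 := ⟨_, _, fun h1 h2 => (enc_norm (enc_mul (enc_norm (enc_subn 1 h1)) (enc_norm (enc_case (enc_subr 2 25 (c1g.enc h1)) (enc_sub (enc_rat _ 57567 20000) (enc_scaleT 4331 2500 (enc_subr 153 160 h2))) (enc_mul (kcg.enc (c1g.enc h1) h2) (enc_inv (c1g.enc h1)))))))⟩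
noncomputable def skm : Fn2 := ⟨_, _, fun h1 h2 => (enc_norm (enc_sub (enc_mul (enc_norm (enc_mul (cv1p.enc h1) (enc_inv (enc_sub (cv1p.enc h1) (c1g.enc h1))))) (enc_norm (enc_add (enc_subn 1 (bf1q2.enc h1 h2)) (kqf.enc h1 h2)))) (kqf.enc h1 h2)))⟩
noncomputable def dt1 : DT := .quad sw1 sl1 sv1
noncomputable def dt2 : DT := .quad sw2 sl2 sv2
noncomputable def dt3 : DT := .quad sw3 sl3 sv3
noncomputable def dt4 : DT := .quad sw4 sl4 sv4
noncomputable def dt5 : DT := .quad sw5 sl5 sv5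
noncomputable def dt6 : DT := .quad sw6 sl6 sv6
noncomputable def dt7 : DT := .quad sw7 sl7 sv7
noncomputable def dt8 : DT := .quad sw8 sl8 sv8
noncomputable def dt9 : DT := .quad sw9 sl9 sv9
noncomputable def dt10 : DT := .quad sw10 sl10 sv10
noncomputable def dt11 : DT := .lin sl11 sv11
noncomputable def dt12 : DT := .quad sw12 sl12 sv12
noncomputable def dt13 : DT := .quad sw13 sl13 sv13
noncomputable def dt14 : DT := .quad sw14 sl14 sv14
noncomputable def dt15 : DT := .quad sw15 sl15 sv15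
noncomputable def dt16 : DT := .quad sw16 sl16 sv16
noncomputable def dt17 : DT := .quad sw17 sl17 sv17
noncomputable def dt18 : DT := .quad sw18 sl18 sv18
noncomputable def dt19 : DT := .quad sw19 sl19 sv19
noncomputable def dt20 : DT := .quad sw20 sl20 sv20
noncomputable def dt21 : DT := .quad sw21 sl21 sv21
noncomputable def dt22 : DT := .node ((Cn.rt 242653 500000).ng) dt1 dt2
noncomputable def dt23 : DT := .node ((Cn.rt 107 254).ng) dt4 dt5
noncomputable def dt24 : DT := .node ((Cn.rt 181 397).ng) dt3 dt23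
noncomputable def dt25 : DT := .node ((Cn.rt 470613 1000000).ng) dt22 dt24
noncomputable def dt26 : DT := .node ((Cn.rt 9 25).ng) dt6 dt7
noncomputable def dt27 : DT := .node ((Cn.rt 4 25).ng) dt9 dt10
noncomputable def dt28 : DT := .node ((Cn.rt 6 25).ng) dt8 dt27
noncomputable def dt29 : DT := .node ((Cn.rt 8 25).ng) dt26 dt28
noncomputable def dt30 : DT := .node ((Cn.rt 2 5).ng) dt25 dt29
noncomputable def dt31 : DT := .node (Cn.rt 2 25) dt11 dt12
noncomputable def dt32 : DT := .node (Cn.rt 8 25) dt14 dt15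
noncomputable def dt33 : DT := .node (Cn.rt 6 25) dt13 dt32
noncomputable def dt34 : DT := .node (Cn.rt 4 25) dt31 dt33
noncomputable def dt35 : DT := .node (Cn.rt 107 254) dt17 dt18
noncomputable def dt36 : DT := .node (Cn.rt 2 5) dt16 dt35
noncomputable def dt37 : DT := .node (Cn.rt 242653 500000) dt20 dt21
noncomputable def dt38 : DT := .node (Cn.rt 470613 1000000) dt19 dt37
noncomputable def dt39 : DT := .node (Cn.rt 181 397) dt36 dt38
noncomputable def dt40 : DT := .node (Cn.rt 9 25) dt34 dt39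
noncomputable def dt41 : DT := .node ((Cn.rt 2 25).ng) dt30 dt40
noncomputable def dt42 : DT := .quad sw42 sl42 sv42
noncomputable def dt43 : DT := .quad sw43 sl43 sv43
noncomputable def dt44 : DT := .quad sw44 sl44 sv44
noncomputable def dt45 : DT := .quad sw45 sl45 sv45
noncomputable def dt46 : DT := .quad sw46 sl46 sv46
noncomputable def dt47 : DT := .quad sw47 sl47 sv47
noncomputable def dt48 : DT := .quad sw48 sl48 sv48
noncomputable def dt49 : DT := .quad sw49 sl49 sv49
noncomputable def dt50 : DT := .quad sw50 sl50 sv50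
noncomputable def dt51 : DT := .quad sw51 sl51 sv51
noncomputable def dt52 : DT := .quad sw52 sl52 sv52
noncomputable def dt53 : DT := .quad sw53 sl53 sv53
noncomputable def dt54 : DT := .quad sw54 sl54 sv54
noncomputable def dt55 : DT := .quad sw55 sl55 sv55
noncomputable def dt56 : DT := .quad sw56 sl56 sv56
noncomputable def dt57 : DT := .quad sw57 sl57 sv57
noncomputable def dt58 : DT := .quad sw58 sl58 sv58
noncomputable def dt59 : DT := .quad sw59 sl59 sv59
noncomputable def dt60 : DT := .quad sw60 sl60 sv60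
noncomputable def dt61 : DT := .quad sw61 sl61 sv61
noncomputable def dt62 : DT := .quad sw62 sl62 sv62
noncomputable def dt63 : DT := .clo
noncomputable def dt64 : DT := .quad sw64 sl64 sv64
noncomputable def dt65 : DT := .quad sw65 sl65 sv65
noncomputable def dt66 : DT := .quad sw66 sl66 sv66
noncomputable def dt67 : DT := .node ((Cn.rt 470613 1000000).ng) dt43 dt44
noncomputable def dt68 : DT := .node ((Cn.rt 242653 500000).ng) dt42 dt67
noncomputable def dt69 : DT := .node ((Cn.rt 2 5).ng) dt46 dt47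
noncomputable def dt70 : DT := .node ((Cn.rt 43 100).ng) dt45 dt69
noncomputable def dt71 : DT := .node ((Cn.rt 23 50).ng) dt68 dt70
noncomputable def dt72 : DT := .node ((Cn.rt 3 10).ng) dt49 dt50
noncomputable def dt73 : DT := .node ((Cn.rt 33 100).ng) dt48 dt72
noncomputable def dt74 : DT := .node ((Cn.rt 3 20).ng) dt52 dt53
noncomputable def dt75 : DT := .node ((Cn.rt 1 5).ng) dt51 dt74
noncomputable def dt76 : DT := .node ((Cn.rt 1 4).ng) dt73 dt75
noncomputable def dt77 : DT := .node ((Cn.rt 9 25).ng) dt71 dt76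
noncomputable def dt78 : DT := .node (Cn.rt 3 20) dt55 dt56
noncomputable def dt79 : DT := .node (Cn.rt 1 10) dt54 dt78
noncomputable def dt80 : DT := .node (Cn.rt 3 10) dt58 dt59
noncomputable def dt81 : DT := .node (Cn.rt 1 4) dt57 dt80
noncomputable def dt82 : DT := .node (Cn.rt 1 5) dt79 dt81
noncomputable def dt83 : DT := .node (Cn.rt 2 5) dt61 dt62
noncomputable def dt84 : DT := .node (Cn.rt 9 25) dt60 dt83
noncomputable def dt85 : DT := .node (Cn.rt 181 397) dt63 dt64
noncomputable def dt86 : DT := .node (Cn.rt 242653 500000) dt65 dt66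
noncomputable def dt87 : DT := .node (Cn.rt 470613 1000000) dt85 dt86
noncomputable def dt88 : DT := .node (Cn.rt 107 254) dt84 dt87
noncomputable def dt89 : DT := .node (Cn.rt 33 100) dt82 dt88
noncomputable def dt90 : DT := .node ((Cn.rt 1 10).ng) dt77 dt89
noncomputable def dt91 : DT := .quad sw91 sl91 sv91
noncomputable def dt92 : DT := .quad sw92 sl92 sv92
noncomputable def dt93 : DT := .quad sw93 sl93 sv93
noncomputable def dt94 : DT := .lin sl94 sv94
noncomputable def dt95 : DT := .quad sw95 sl95 sv95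
noncomputable def dt96 : DT := .quad sw96 sl96 sv96
noncomputable def dt97 : DT := .quad sw97 sl97 sv97
noncomputable def dt98 : DT := .node ((Cn.rt 3 20).ng) dt92 dt93
noncomputable def dt99 : DT := .node ((Cn.rt 1 5).ng) dt91 dt98
noncomputable def dt100 : DT := .node (Cn.rt 1 10) dt94 dt95
noncomputable def dt101 : DT := .node (Cn.rt 1 5) dt96 dt97
noncomputable def dt102 : DT := .node (Cn.rt 3 20) dt100 dt101
noncomputable def dt103 : DT := .node ((Cn.rt 1 10).ng) dt99 dt102
noncomputable def dd : SDat := ⟨dt41, kcg, dt90, Kh.T⟩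
noncomputable def gf0 : Sg := ⟨cv1m, skf0, sxf0⟩
noncomputable def gf1 : Sg := ⟨cv1m, skf1, sxf1⟩
noncomputable def gf2 : Sg := ⟨cv1p, skf2, sxf2⟩
noncomputable def gf3 : Sg := ⟨cv1r, skf2, sxf2⟩
noncomputable def gl0 : Sg := ⟨cv4m, skl0, sxl0⟩
noncomputable def gl1 : Sg := ⟨cv4m, skl1, sxl1⟩
noncomputable def gl2 : Sg := ⟨cv4p, skl2, sxl2⟩
noncomputable def gl3 : Sg := ⟨cv4r, skl3, sxl3⟩
noncomputable def vv : Vt := ⟨(Cn.rt 2 25), (Cn.rt 577 500), (Cn.rt 231 200), (Cn.rt 29 25), k0c, m0c, sbk, sbx, rhk, rhx, bf1q2, bx1q2, (Cn.rt 1 4), (Cn.rt 577 500), skm, dt103⟩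
noncomputable def ff (q : ℕ) : Sg := match q with
  | 0 => gf0
  | 1 => gf1
  | 2 => gf2
  | _ => gf3
noncomputable def fl (q : ℕ) : Sg := match q with
  | 0 => gl0
  | 1 => gl1
  | 2 => gl2
  | _ => gl3
noncomputable def tt : STab 5 := ⟨dd, 0, 4, ff, fl, vv⟩
theorem kcl0 {p x : ℝ} (h1 : -1 / 2 ≤ p) (h2 : p ≤ -242653 / 500000) : kcg.v p x = (-499858758986807 / 73470000000000 + (x - 153 / 160) * (-527328522619589 / 7347000000000)) + (-437810832855677 / 36735000000000 + (x - 153 / 160) * (-530963610887249 / 3673500000000)) * p + (53 / 10000 + (x - 153 / 160) * (2761 / 1000)) * p ^ 2 := by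
  simp only [kcg, kcg_3, kcg_6, kcg_9, kcg_12, kcg_13, kcg_18, kcg_31, kcg_34, kcg_35, kcg_40, kcg_45, kcg_58, kcg_59, kcg_67, kcg_68, kcg_73, kcg_86, kcg_87, kcg_94, kcg_95, kcg_99, kcg_110, kcg_111, kcg_116, kcg_120, kcg_129, kcg_130, kcg_140, kcg_143, kcg_144, kcg_148, kcg_157, kcg_158, kcg_165, kcg_166, kcg_170, kcg_179, kcg_180, kcg_185, kcg_189, kcg_199, kcg_200, kcg_209, kcg_210, kcg_214, kcg_225, kcg_226, kcg_234, kcg_238, kcg_251, kcg_252, kcg_257, kcg_261, kcg_269, kcg_270, kcg_271, kcg_276, kcg_277, kcg_286, kcg_292, kcg_297, kcg_302, kcg_309, kcg_320, kcg_328, kcg_329, kcg_336, kcg_341, kcg_348, kcg_358, kcg_365, kcg_371, kcg_382]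
  rcases eq_or_lt_of_le h1 with h | h1
  · subst h
    ((try push_cast); (repeat first | rw [if_pos (by linarith)] | rw [if_neg (by linarith)] | erw [if_pos (by linarith)] | erw [if_neg (by linarith)]); (try push_cast); (try ring1))
  rcases eq_or_lt_of_le h2 with h | h2
  · subst h
    ((try push_cast); (repeat first | rw [if_pos (by linarith)] | rw [if_neg (by linarith)] | erw [if_pos (by linarith)] | erw [if_neg (by linarith)]); (try push_cast); (try ring1))
  · ((try push_cast); (repeat first | rw [if_pos (by linarith)] | rw [if_neg (by linarith)] | erw [if_pos (by linarith)] | erw [if_neg (by linarith)]); (try push_cast); (try ring1))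
theorem kcl1 {p x : ℝ} (h1 : -242653 / 500000 ≤ p) (h2 : p ≤ -470613 / 1000000) : kcg.v p x = (-249891380362460848981 / 36732500000000000000 + (x - 153 / 160) * (-262784350575883270747 / 3673250000000000000)) + (-875329395060251 / 73465000000000 + (x - 153 / 160) * (-1054676779549237 / 7346500000000)) * p + (47 / 5000 + (x - 153 / 160) * (1889 / 500)) * p ^ 2 := by
  simp only [kcg, kcg_3, kcg_6, kcg_9, kcg_12, kcg_13, kcg_18, kcg_31, kcg_34, kcg_35, kcg_40, kcg_45, kcg_58, kcg_59, kcg_67, kcg_68, kcg_73, kcg_86, kcg_87, kcg_94, kcg_95, kcg_99, kcg_110, kcg_111, kcg_116, kcg_120, kcg_129, kcg_130, kcg_140, kcg_143, kcg_144, kcg_148, kcg_157, kcg_158, kcg_165, kcg_166, kcg_170, kcg_179, kcg_180, kcg_185, kcg_189, kcg_199, kcg_200, kcg_209, kcg_210, kcg_214, kcg_225, kcg_226, kcg_234, kcg_238, kcg_251, kcg_252, kcg_257, kcg_261, kcg_269, kcg_270, kcg_271, kcg_276, kcg_277, kcg_286, kcg_292, kcg_297, kcg_302, kcg_309, kcg_320, kcg_328, kcg_329, kcg_336, kcg_341, kcg_348,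 kcg_358, kcg_365, kcg_371, kcg_382]
  rcases eq_or_lt_of_le h1 with h | h1
  · subst h
    ((try push_cast); (repeat first | rw [if_pos (by linarith)] | rw [if_neg (by linarith)] | erw [if_pos (by linarith)] | erw [if_neg (by linarith)]); (try push_cast); (try ring1))
  rcases eq_or_lt_of_le h2 with h | h2
  · subst h
    ((try push_cast); (repeat first | rw [if_pos (by linarith)] | rw [if_neg (by linarith)] | erw [if_pos (by linarith)] | erw [if_neg (by linarith)]); (try push_cast); (try ring1))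
  · ((try push_cast); (repeat first | rw [if_pos (by linarith)] | rw [if_neg (by linarith)] | erw [if_pos (by linarith)] | erw [if_neg (by linarith)]); (try push_cast); (try ring1))
theorem kcl2 {p x : ℝ} (h1 : -470613 / 1000000 ≤ p) (h2 : p ≤ -181 / 397) : kcg.v p x = (32142263607654724109 / 361850674531250000 + (x - 153 / 160) * (34908465209241498463 / 24377308600000000)) + (4567917144165462905691 / 11579221585000000000 + (x - 153 / 160) * (152264805364265612359 / 24377308600000000)) * p + (2158971 / 5000 + (x - 153 / 160) * (1358501 / 200)) * p ^ 2 := by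
  simp only [kcg, kcg_3, kcg_6, kcg_9, kcg_12, kcg_13, kcg_18, kcg_31, kcg_34, kcg_35, kcg_40, kcg_45, kcg_58, kcg_59, kcg_67, kcg_68, kcg_73, kcg_86, kcg_87, kcg_94, kcg_95, kcg_99, kcg_110, kcg_111, kcg_116, kcg_120, kcg_129, kcg_130, kcg_140, kcg_143, kcg_144, kcg_148, kcg_157, kcg_158, kcg_165, kcg_166, kcg_170, kcg_179, kcg_180, kcg_185, kcg_189, kcg_199, kcg_200, kcg_209, kcg_210, kcg_214, kcg_225, kcg_226, kcg_234, kcg_238, kcg_251, kcg_252, kcg_257, kcg_261, kcg_269, kcg_270, kcg_271, kcg_276, kcg_277, kcg_286, kcg_292, kcg_297, kcg_302, kcg_309, kcg_320, kcg_328, kcg_329, kcg_336, kcg_341, kcg_348, kcg_358, kcg_365, kcg_371, kcg_382]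
  rcases eq_or_lt_of_le h1 with h | h1
  · subst h
    ((try push_cast); (repeat first | rw [if_pos (by linarith)] | rw [if_neg (by linarith)] | erw [if_pos (by linarith)] | erw [if_neg (by linarith)]); (try push_cast); (try ring1))
  rcases eq_or_lt_of_le h2 with h | h2
  · subst h
    ((try push_cast); (repeat first | rw [if_pos (by linarith)] | rw [if_neg (by linarith)] | erw [if_pos (by linarith)] | erw [if_neg (by linarith)]); (try push_cast); (try ring1))
  · ((try push_cast); (repeat first | rw [if_pos (by linarith)] | rw [if_neg (by linarith)] | erw [if_pos (by linarith)] | erw [if_neg (by linarith)]); (try push_cast); (try ring1))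
theorem kcl3 {p x : ℝ} (h1 : -181 / 397 ≤ p) (h2 : p ≤ -107 / 254) : kcg.v p x = (190457319648653377 / 35242881000000000 + (x - 153 / 160) * (177172386645642491 / 8810720250000000)) + (10057029087979537 / 352428810000000 + (x - 153 / 160) * (462927006572238587 / 8810720250000000)) * p + (60911 / 2000 + (x - 153 / 160) * (23 / 500)) * p ^ 2 := by
  simp only [kcg, kcg_3, kcg_6, kcg_9, kcg_12, kcg_13, kcg_18, kcg_31, kcg_34, kcg_35, kcg_40, kcg_45, kcg_58, kcg_59, kcg_67, kcg_68, kcg_73, kcg_86, kcg_87, kcg_94, kcg_95, kcg_99, kcg_110, kcg_111, kcg_116, kcg_120, kcg_129, kcg_130, kcg_140, kcg_143, kcg_144, kcg_148, kcg_157, kcg_158, kcg_165, kcg_166, kcg_170, kcg_179, kcg_180, kcg_185, kcg_189, kcg_199, kcg_200, kcg_209, kcg_210, kcg_214, kcg_225, kcg_226, kcg_234, kcg_238, kcg_251, kcg_252, kcg_257, kcg_261, kcg_269, kcg_270, kcg_271, kcg_276, kcg_277, kcg_286, kcg_292, kcg_297, kcg_302, kcg_309, kcg_320, kcg_328, kcg_329, kcg_336, kcg_341, kcg_348, kcg_358, kcg_365,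 kcg_371, kcg_382]
  rcases eq_or_lt_of_le h1 with h | h1
  · subst h
    ((try push_cast); (repeat first | rw [if_pos (by linarith)] | rw [if_neg (by linarith)] | erw [if_pos (by linarith)] | erw [if_neg (by linarith)]); (try push_cast); (try ring1))
  rcases eq_or_lt_of_le h2 with h | h2
  · subst h
    ((try push_cast); (repeat first | rw [if_pos (by linarith)] | rw [if_neg (by linarith)] | erw [if_pos (by linarith)] | erw [if_neg (by linarith)]); (try push_cast); (try ring1))
  · ((try push_cast); (repeat first | rw [if_pos (by linarith)] | rw [if_neg (by linarith)] | erw [if_pos (by linarith)] | erw [if_neg (by linarith)]); (try push_cast); (try ring1))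
theorem kcl4 {p x : ℝ} (h1 : -107 / 254 ≤ p) (h2 : p ≤ -2 / 5) : kcg.v p x = (1891003957 / 857250000000 + (x - 153 / 160) * (-2355994532027 / 85725000000)) + (990909998737 / 342900000000 + (x - 153 / 160) * (-5946193605107 / 34290000000)) * p + (19 / 1250 + (x - 153 / 160) * (-134069 / 500)) * p ^ 2 := by
  simp only [kcg, kcg_3, kcg_6, kcg_9, kcg_12, kcg_13, kcg_18, kcg_31, kcg_34, kcg_35, kcg_40, kcg_45, kcg_58, kcg_59, kcg_67, kcg_68, kcg_73, kcg_86, kcg_87, kcg_94, kcg_95, kcg_99, kcg_110, kcg_111, kcg_116, kcg_120, kcg_129, kcg_130, kcg_140, kcg_143, kcg_144, kcg_148, kcg_157, kcg_158, kcg_165, kcg_166, kcg_170, kcg_179, kcg_180, kcg_185, kcg_189, kcg_199, kcg_200, kcg_209, kcg_210, kcg_214, kcg_225, kcg_226, kcg_234, kcg_238, kcg_251, kcg_252, kcg_257, kcg_261, kcg_269, kcg_270, kcg_271, kcg_276, kcg_277, kcg_286, kcg_292, kcg_297, kcg_302, kcg_309, kcg_320, kcg_328, kcg_329, kcg_336, kcg_341, kcg_348, kcg_358, kcg_365, kcg_371, kcg_382]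
  rcases eq_or_lt_of_le h1 with h | h1
  · subst h
    ((try push_cast); (repeat first | rw [if_pos (by linarith)] | rw [if_neg (by linarith)] | erw [if_pos (by linarith)] | erw [if_neg (by linarith)]); (try push_cast); (try ring1))
  rcases eq_or_lt_of_le h2 with h | h2
  · subst h
    ((try push_cast); (repeat first | rw [if_pos (by linarith)] | rw [if_neg (by linarith)] | erw [if_pos (by linarith)] | erw [if_neg (by linarith)]); (try push_cast); (try ring1))
  · ((try push_cast); (repeat first | rw [if_pos (by linarith)] | rw [if_neg (by linarith)] | erw [if_pos (by linarith)] | erw [if_neg (by linarith)]); (try push_cast); (try ring1))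
theorem kcl5 {p x : ℝ} (h1 : -2 / 5 ≤ p) (h2 : p ≤ -9 / 25) : kcg.v p x = (4179 / 12500000 + (x - 153 / 160) * (-4289493 / 156250)) + (1440217 / 500000 + (x - 153 / 160) * (-8662847 / 50000)) * p + (7 / 2000 + (x - 153 / 160) * (-66987 / 250)) * p ^ 2 := by
  simp only [kcg, kcg_3, kcg_6, kcg_9, kcg_12, kcg_13, kcg_18, kcg_31, kcg_34, kcg_35, kcg_40, kcg_45, kcg_58, kcg_59, kcg_67, kcg_68, kcg_73, kcg_86, kcg_87, kcg_94, kcg_95, kcg_99, kcg_110, kcg_111, kcg_116, kcg_120, kcg_129, kcg_130, kcg_140, kcg_143, kcg_144, kcg_148, kcg_157, kcg_158, kcg_165, kcg_166, kcg_170, kcg_179, kcg_180, kcg_185, kcg_189, kcg_199, kcg_200, kcg_209, kcg_210, kcg_214, kcg_225, kcg_226, kcg_234, kcg_238, kcg_251, kcg_252, kcg_257, kcg_261, kcg_269, kcg_270, kcg_271, kcg_276, kcg_277, kcg_286, kcg_292, kcg_297, kcg_302, kcg_309, kcg_320, kcg_328, kcg_329, kcg_336, kcg_341, kcg_348, kcg_358, kcg_365, kcg_371, kcg_382]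
  rcases eq_or_lt_of_le h1 with h | h1
  · subst h
    ((try push_cast); (repeat first | rw [if_pos (by linarith)] | rw [if_neg (by linarith)] | erw [if_pos (by linarith)] | erw [if_neg (by linarith)]); (try push_cast); (try ring1))
  rcases eq_or_lt_of_le h2 with h | h2
  · subst h
    ((try push_cast); (repeat first | rw [if_pos (by linarith)] | rw [if_neg (by linarith)] | erw [if_pos (by linarith)] | erw [if_neg (by linarith)]); (try push_cast); (try ring1))
  · ((try push_cast); (repeat first | rw [if_pos (by linarith)] | rw [if_neg (by linarith)] | erw [if_pos (by linarith)] | erw [if_neg (by linarith)]); (try push_cast); (try ring1))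
theorem kcl6 {p x : ℝ} (h1 : -9 / 25 ≤ p) (h2 : p ≤ -8 / 25) : kcg.v p x = (597 / 3125000 + (x - 153 / 160) * (-8540547 / 312500)) + (71991 / 25000 + (x - 153 / 160) * (-8628681 / 50000)) * p + (3 / 1250 + (x - 153 / 160) * (-266999 / 1000)) * p ^ 2 := by
  simp only [kcg, kcg_3, kcg_6, kcg_9, kcg_12, kcg_13, kcg_18, kcg_31, kcg_34, kcg_35, kcg_40, kcg_45, kcg_58, kcg_59, kcg_67, kcg_68, kcg_73, kcg_86, kcg_87, kcg_94, kcg_95, kcg_99, kcg_110, kcg_111, kcg_116, kcg_120, kcg_129, kcg_130, kcg_140, kcg_143, kcg_144, kcg_148, kcg_157, kcg_158, kcg_165, kcg_166, kcg_170, kcg_179, kcg_180, kcg_185, kcg_189, kcg_199, kcg_200, kcg_209, kcg_210, kcg_214, kcg_225, kcg_226, kcg_234, kcg_238, kcg_251, kcg_252, kcg_257, kcg_261, kcg_269, kcg_270, kcg_271, kcg_276, kcg_277, kcg_286, kcg_292, kcg_297, kcg_302, kcg_309, kcg_320, kcg_328, kcg_329, kcg_336, kcg_341, kcg_348, kcg_358, kcg_365, kcg_371, kcg_382]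
  rcases eq_or_lt_of_le h1 with h | h1
  · subst h
    ((try push_cast); (repeat first | rw [if_pos (by linarith)] | rw [if_neg (by linarith)] | erw [if_pos (by linarith)] | erw [if_neg (by linarith)]); (try push_cast); (try ring1))
  rcases eq_or_lt_of_le h2 with h | h2
  · subst h
    ((try push_cast); (repeat first | rw [if_pos (by linarith)] | rw [if_neg (by linarith)] | erw [if_pos (by linarith)] | erw [if_neg (by linarith)]); (try push_cast); (try ring1))
  · ((try push_cast); (repeat first | rw [if_pos (by linarith)] | rw [if_neg (by linarith)] | erw [if_pos (by linarith)] | erw [if_neg (by linarith)]); (try push_cast); (try ring1))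
theorem kcl7 {p x : ℝ} (h1 : -8 / 25 ≤ p) (h2 : p ≤ -6 / 25) : kcg.v p x = (79 / 3125000 + (x - 153 / 160) * (-3677 / 312500)) + (287861 / 100000 + (x - 153 / 160) * (-45907 / 25000)) * p + (1 / 1250 + (x - 153 / 160) * (-111 / 500)) * p ^ 2 := by
  simp only [kcg, kcg_3, kcg_6, kcg_9, kcg_12, kcg_13, kcg_18, kcg_31, kcg_34, kcg_35, kcg_40, kcg_45, kcg_58, kcg_59, kcg_67, kcg_68, kcg_73, kcg_86, kcg_87, kcg_94, kcg_95, kcg_99, kcg_110, kcg_111, kcg_116, kcg_120, kcg_129, kcg_130, kcg_140, kcg_143, kcg_144, kcg_148, kcg_157, kcg_158, kcg_165, kcg_166, kcg_170, kcg_179, kcg_180, kcg_185, kcg_189, kcg_199, kcg_200, kcg_209, kcg_210, kcg_214, kcg_225, kcg_226, kcg_234, kcg_238, kcg_251, kcg_252, kcg_257, kcg_261, kcg_269, kcg_270, kcg_271, kcg_276, kcg_277, kcg_286, kcg_292, kcg_297, kcg_302, kcg_309, kcg_320, kcg_328, kcg_329, kcg_336, kcg_341, kcg_348, kcg_358, kcg_365, kcg_371, kcg_382]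
  rcases eq_or_lt_of_le h1 with h | h1
  · subst h
    ((try push_cast); (repeat first | rw [if_pos (by linarith)] | rw [if_neg (by linarith)] | erw [if_pos (by linarith)] | erw [if_neg (by linarith)]); (try push_cast); (try ring1))
  rcases eq_or_lt_of_le h2 with h | h2
  · subst h
    ((try push_cast); (repeat first | rw [if_pos (by linarith)] | rw [if_neg (by linarith)] | erw [if_pos (by linarith)] | erw [if_neg (by linarith)]); (try push_cast); (try ring1))
  · ((try push_cast); (repeat first | rw [if_pos (by linarith)] | rw [if_neg (by linarith)] | erw [if_pos (by linarith)] | erw [if_neg (by linarith)]); (try push_cast); (try ring1))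
theorem kcl8 {p x : ℝ} (h1 : -6 / 25 ≤ p) (h2 : p ≤ -4 / 25) : kcg.v p x = (11 / 1562500 + (x - 153 / 160) * (-167 / 78125)) + (1439231 / 500000 + (x - 153 / 160) * (-21951 / 12500)) * p + (1 / 2000 + (x - 153 / 160) * (-11 / 200)) * p ^ 2 := by
  simp only [kcg, kcg_3, kcg_6, kcg_9, kcg_12, kcg_13, kcg_18, kcg_31, kcg_34, kcg_35, kcg_40, kcg_45, kcg_58, kcg_59, kcg_67, kcg_68, kcg_73, kcg_86, kcg_87, kcg_94, kcg_95, kcg_99, kcg_110, kcg_111, kcg_116, kcg_120, kcg_129, kcg_130, kcg_140, kcg_143, kcg_144, kcg_148, kcg_157, kcg_158, kcg_165, kcg_166, kcg_170, kcg_179, kcg_180, kcg_185, kcg_189, kcg_199, kcg_200, kcg_209, kcg_210, kcg_214, kcg_225, kcg_226, kcg_234, kcg_238, kcg_251, kcg_252, kcg_257, kcg_261, kcg_269, kcg_270, kcg_271, kcg_276, kcg_277, kcg_286, kcg_292, kcg_297, kcg_302, kcg_309, kcg_320, kcg_328, kcg_329, kcg_336, kcg_341, kcg_348, kcg_358, kcg_365, kcg_371, kcg_382]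
  rcases eq_or_lt_of_le h1 with h | h1
  · subst h
    ((try push_cast); (repeat first | rw [if_pos (by linarith)] | rw [if_neg (by linarith)] | erw [if_pos (by linarith)] | erw [if_neg (by linarith)]); (try push_cast); (try ring1))
  rcases eq_or_lt_of_le h2 with h | h2
  · subst h
    ((try push_cast); (repeat first | rw [if_pos (by linarith)] | rw [if_neg (by linarith)] | erw [if_pos (by linarith)] | erw [if_neg (by linarith)]); (try push_cast); (try ring1))
  · ((try push_cast); (repeat first | rw [if_pos (by linarith)] | rw [if_neg (by linarith)] | erw [if_pos (by linarith)] | erw [if_neg (by linarith)]); (try push_cast); (try ring1))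
theorem kcl9 {p x : ℝ} (h1 : -4 / 25 ≤ p) (h2 : p ≤ -2 / 25) : kcg.v p x = (3 / 1562500 + (x - 153 / 160) * (19 / 78125)) + (1439199 / 500000 + (x - 153 / 160) * (-21579 / 12500)) * p + (3 / 10000 + (x - 153 / 160) * (19 / 500)) * p ^ 2 := by
  simp only [kcg, kcg_3, kcg_6, kcg_9, kcg_12, kcg_13, kcg_18, kcg_31, kcg_34, kcg_35, kcg_40, kcg_45, kcg_58, kcg_59, kcg_67, kcg_68, kcg_73, kcg_86, kcg_87, kcg_94, kcg_95, kcg_99, kcg_110, kcg_111, kcg_116, kcg_120, kcg_129, kcg_130, kcg_140, kcg_143, kcg_144, kcg_148, kcg_157, kcg_158, kcg_165, kcg_166, kcg_170, kcg_179, kcg_180, kcg_185, kcg_189, kcg_199, kcg_200, kcg_209, kcg_210, kcg_214, kcg_225, kcg_226, kcg_234, kcg_238, kcg_251, kcg_252, kcg_257, kcg_261, kcg_269, kcg_270, kcg_271, kcg_276, kcg_277, kcg_286, kcg_292, kcg_297, kcg_302, kcg_309, kcg_320, kcg_328, kcg_329, kcg_336, kcg_341, kcg_348, kcg_358, kcg_365, kcg_371, kcg_382]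
  rcases eq_or_lt_of_le h1 with h | h1
  · subst h
    ((try push_cast); (repeat first | rw [if_pos (by linarith)] | rw [if_neg (by linarith)] | erw [if_pos (by linarith)] | erw [if_neg (by linarith)]); (try push_cast); (try ring1))
  rcases eq_or_lt_of_le h2 with h | h2
  · subst h
    ((try push_cast); (repeat first | rw [if_pos (by linarith)] | rw [if_neg (by linarith)] | erw [if_pos (by linarith)] | erw [if_neg (by linarith)]); (try push_cast); (try ring1))
  · ((try push_cast); (repeat first | rw [if_pos (by linarith)] | rw [if_neg (by linarith)] | erw [if_pos (by linarith)] | erw [if_neg (by linarith)]); (try push_cast); (try ring1))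
theorem kcl10 {p x : ℝ} (h1 : -2 / 25 ≤ p) (h2 : p ≤ 2 / 25) : kcg.v p x = (0) + (57567 / 20000 + (x - 153 / 160) * (-4331 / 2500)) * p := by
  simp only [kcg, kcg_3, kcg_6, kcg_9, kcg_12, kcg_13, kcg_18, kcg_31, kcg_34, kcg_35, kcg_40, kcg_45, kcg_58, kcg_59, kcg_67, kcg_68, kcg_73, kcg_86, kcg_87, kcg_94, kcg_95, kcg_99, kcg_110, kcg_111, kcg_116, kcg_120, kcg_129, kcg_130, kcg_140, kcg_143, kcg_144, kcg_148, kcg_157, kcg_158, kcg_165, kcg_166, kcg_170, kcg_179, kcg_180, kcg_185, kcg_189, kcg_199, kcg_200, kcg_209, kcg_210, kcg_214, kcg_225, kcg_226, kcg_234, kcg_238, kcg_251, kcg_252, kcg_257, kcg_261, kcg_269, kcg_270, kcg_271, kcg_276, kcg_277, kcg_286, kcg_292, kcg_297, kcg_302, kcg_309, kcg_320, kcg_328, kcg_329, kcg_336, kcg_341, kcg_348, kcg_358, kcg_365, kcg_371, kcg_382]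
  rcases eq_or_lt_of_le h1 with h | h1
  · subst h
    ((try push_cast); (repeat first | rw [if_pos (by linarith)] | rw [if_neg (by linarith)] | erw [if_pos (by linarith)] | erw [if_neg (by linarith)]); (try push_cast); (try ring1))
  rcases eq_or_lt_of_le h2 with h | h2
  · subst h
    ((try push_cast); (repeat first | rw [if_pos (by linarith)] | rw [if_neg (by linarith)] | erw [if_pos (by linarith)] | erw [if_neg (by linarith)]); (try push_cast); (try ring1))
  rcases lt_trichotomy p 0 with h | h | h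
  · ((try push_cast); (repeat first | rw [if_pos (by linarith)] | rw [if_neg (by linarith)] | erw [if_pos (by linarith)] | erw [if_neg (by linarith)]); (try push_cast); (try ring1))
  · subst h
    ((try push_cast); (repeat first | rw [if_pos (by linarith)] | rw [if_neg (by linarith)] | erw [if_pos (by linarith)] | erw [if_neg (by linarith)]); (try push_cast); (try ring1))
  · ((try push_cast); (repeat first | rw [if_pos (by linarith)] | rw [if_neg (by linarith)] | erw [if_pos (by linarith)] | erw [if_neg (by linarith)]); (try push_cast); (try ring1))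
theorem kcl11 {p x : ℝ} (h1 : 2 / 25 ≤ p) (h2 : p ≤ 4 / 25) : kcg.v p x = (-3 / 1562500 + (x - 153 / 160) * (-19 / 78125)) + (1439199 / 500000 + (x - 153 / 160) * (-21579 / 12500)) * p + (-3 / 10000 + (x - 153 / 160) * (-19 / 500)) * p ^ 2 := by
  simp only [kcg, kcg_3, kcg_6, kcg_9, kcg_12, kcg_13, kcg_18, kcg_31, kcg_34, kcg_35, kcg_40, kcg_45, kcg_58, kcg_59, kcg_67, kcg_68, kcg_73, kcg_86, kcg_87, kcg_94, kcg_95, kcg_99, kcg_110, kcg_111, kcg_116, kcg_120, kcg_129, kcg_130, kcg_140, kcg_143, kcg_144, kcg_148, kcg_157, kcg_158, kcg_165, kcg_166, kcg_170, kcg_179, kcg_180, kcg_185, kcg_189, kcg_199, kcg_200, kcg_209, kcg_210, kcg_214, kcg_225, kcg_226, kcg_234, kcg_238, kcg_251, kcg_252, kcg_257, kcg_261, kcg_269, kcg_270, kcg_271, kcg_276, kcg_277, kcg_286, kcg_292, kcg_297, kcg_302, kcg_309, kcg_320, kcg_328, kcg_329, kcg_336, kcg_341, kcg_348, kcg_358, kcg_365, kcg_371, kcg_382]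
  rcases eq_or_lt_of_le h1 with h | h1
  · subst h
    ((try push_cast); (repeat first | rw [if_pos (by linarith)] | rw [if_neg (by linarith)] | erw [if_pos (by linarith)] | erw [if_neg (by linarith)]); (try push_cast); (try ring1))
  rcases eq_or_lt_of_le h2 with h | h2
  · subst h
    ((try push_cast); (repeat first | rw [if_pos (by linarith)] | rw [if_neg (by linarith)] | erw [if_pos (by linarith)] | erw [if_neg (by linarith)]); (try push_cast); (try ring1))
  · ((try push_cast); (repeat first | rw [if_pos (by linarith)] | rw [if_neg (by linarith)] | erw [if_pos (by linarith)] | erw [if_neg (by linarith)]); (try push_cast); (try ring1))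
theorem kcl12 {p x : ℝ} (h1 : 4 / 25 ≤ p) (h2 : p ≤ 6 / 25) : kcg.v p x = (-11 / 1562500 + (x - 153 / 160) * (167 / 78125)) + (1439231 / 500000 + (x - 153 / 160) * (-21951 / 12500)) * p + (-1 / 2000 + (x - 153 / 160) * (11 / 200)) * p ^ 2 := by
  simp only [kcg, kcg_3, kcg_6, kcg_9, kcg_12, kcg_13, kcg_18, kcg_31, kcg_34, kcg_35, kcg_40, kcg_45, kcg_58, kcg_59, kcg_67, kcg_68, kcg_73, kcg_86, kcg_87, kcg_94, kcg_95, kcg_99, kcg_110, kcg_111, kcg_116, kcg_120, kcg_129, kcg_130, kcg_140, kcg_143, kcg_144, kcg_148, kcg_157, kcg_158, kcg_165, kcg_166, kcg_170, kcg_179, kcg_180, kcg_185, kcg_189, kcg_199, kcg_200, kcg_209, kcg_210, kcg_214, kcg_225, kcg_226, kcg_234, kcg_238, kcg_251, kcg_252, kcg_257, kcg_261, kcg_269, kcg_270, kcg_271, kcg_276, kcg_277, kcg_286, kcg_292, kcg_297, kcg_302, kcg_309, kcg_320, kcg_328, kcg_329, kcg_336, kcg_341, kcg_348, kcg_358, kcg_365, kcg_371, kcg_382]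
  rcases eq_or_lt_of_le h1 with h | h1
  · subst h
    ((try push_cast); (repeat first | rw [if_pos (by linarith)] | rw [if_neg (by linarith)] | erw [if_pos (by linarith)] | erw [if_neg (by linarith)]); (try push_cast); (try ring1))
  rcases eq_or_lt_of_le h2 with h | h2
  · subst h
    ((try push_cast); (repeat first | rw [if_pos (by linarith)] | rw [if_neg (by linarith)] | erw [if_pos (by linarith)] | erw [if_neg (by linarith)]); (try push_cast); (try ring1))
  · ((try push_cast); (repeat first | rw [if_pos (by linarith)] | rw [if_neg (by linarith)] | erw [if_pos (by linarith)] | erw [if_neg (by linarith)]); (try push_cast); (try ring1))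
theorem kcl13 {p x : ℝ} (h1 : 6 / 25 ≤ p) (h2 : p ≤ 8 / 25) : kcg.v p x = (-79 / 3125000 + (x - 153 / 160) * (3677 / 312500)) + (287861 / 100000 + (x - 153 / 160) * (-45907 / 25000)) * p + (-1 / 1250 + (x - 153 / 160) * (111 / 500)) * p ^ 2 := by
  simp only [kcg, kcg_3, kcg_6, kcg_9, kcg_12, kcg_13, kcg_18, kcg_31, kcg_34, kcg_35, kcg_40, kcg_45, kcg_58, kcg_59, kcg_67, kcg_68, kcg_73, kcg_86, kcg_87, kcg_94, kcg_95, kcg_99, kcg_110, kcg_111, kcg_116, kcg_120, kcg_129, kcg_130, kcg_140, kcg_143, kcg_144, kcg_148, kcg_157, kcg_158, kcg_165, kcg_166, kcg_170, kcg_179, kcg_180, kcg_185, kcg_189, kcg_199, kcg_200, kcg_209, kcg_210, kcg_214, kcg_225, kcg_226, kcg_234, kcg_238, kcg_251, kcg_252, kcg_257, kcg_261, kcg_269, kcg_270, kcg_271, kcg_276, kcg_277, kcg_286, kcg_292, kcg_297, kcg_302, kcg_309, kcg_320, kcg_328, kcg_329, kcg_336, kcg_341, kcg_348, kcg_358, kcg_365, kcg_371, kcg_382]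
  rcases eq_or_lt_of_le h1 with h | h1
  · subst h
    ((try push_cast); (repeat first | rw [if_pos (by linarith)] | rw [if_neg (by linarith)] | erw [if_pos (by linarith)] | erw [if_neg (by linarith)]); (try push_cast); (try ring1))
  rcases eq_or_lt_of_le h2 with h | h2
  · subst h
    ((try push_cast); (repeat first | rw [if_pos (by linarith)] | rw [if_neg (by linarith)] | erw [if_pos (by linarith)] | erw [if_neg (by linarith)]); (try push_cast); (try ring1))
  · ((try push_cast); (repeat first | rw [if_pos (by linarith)] | rw [if_neg (by linarith)] | erw [if_pos (by linarith)] | erw [if_neg (by linarith)]); (try push_cast); (try ring1))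
theorem kcl14 {p x : ℝ} (h1 : 8 / 25 ≤ p) (h2 : p ≤ 9 / 25) : kcg.v p x = (-597 / 3125000 + (x - 153 / 160) * (8540547 / 312500)) + (71991 / 25000 + (x - 153 / 160) * (-8628681 / 50000)) * p + (-3 / 1250 + (x - 153 / 160) * (266999 / 1000)) * p ^ 2 := by
  simp only [kcg, kcg_3, kcg_6, kcg_9, kcg_12, kcg_13, kcg_18, kcg_31, kcg_34, kcg_35, kcg_40, kcg_45, kcg_58, kcg_59, kcg_67, kcg_68, kcg_73, kcg_86, kcg_87, kcg_94, kcg_95, kcg_99, kcg_110, kcg_111, kcg_116, kcg_120, kcg_129, kcg_130, kcg_140, kcg_143, kcg_144, kcg_148, kcg_157, kcg_158, kcg_165, kcg_166, kcg_170, kcg_179, kcg_180, kcg_185, kcg_189, kcg_199, kcg_200, kcg_209, kcg_210, kcg_214, kcg_225, kcg_226, kcg_234, kcg_238, kcg_251, kcg_252, kcg_257, kcg_261, kcg_269, kcg_270, kcg_271, kcg_276, kcg_277, kcg_286, kcg_292, kcg_297, kcg_302, kcg_309, kcg_320, kcg_328, kcg_329, kcg_336, kcg_341, kcg_348, kcg_358, kcg_365, kcg_371, kcg_382]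
  rcases eq_or_lt_of_le h1 with h | h1
  · subst h
    ((try push_cast); (repeat first | rw [if_pos (by linarith)] | rw [if_neg (by linarith)] | erw [if_pos (by linarith)] | erw [if_neg (by linarith)]); (try push_cast); (try ring1))
  rcases eq_or_lt_of_le h2 with h | h2
  · subst h
    ((try push_cast); (repeat first | rw [if_pos (by linarith)] | rw [if_neg (by linarith)] | erw [if_pos (by linarith)] | erw [if_neg (by linarith)]); (try push_cast); (try ring1))
  · ((try push_cast); (repeat first | rw [if_pos (by linarith)] | rw [if_neg (by linarith)] | erw [if_pos (by linarith)] | erw [if_neg (by linarith)]); (try push_cast); (try ring1))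
theorem kcl15 {p x : ℝ} (h1 : 9 / 25 ≤ p) (h2 : p ≤ 2 / 5) : kcg.v p x = (-4179 / 12500000 + (x - 153 / 160) * (4289493 / 156250)) + (1440217 / 500000 + (x - 153 / 160) * (-8662847 / 50000)) * p + (-7 / 2000 + (x - 153 / 160) * (66987 / 250)) * p ^ 2 := by
  simp only [kcg, kcg_3, kcg_6, kcg_9, kcg_12, kcg_13, kcg_18, kcg_31, kcg_34, kcg_35, kcg_40, kcg_45, kcg_58, kcg_59, kcg_67, kcg_68, kcg_73, kcg_86, kcg_87, kcg_94, kcg_95, kcg_99, kcg_110, kcg_111, kcg_116, kcg_120, kcg_129, kcg_130, kcg_140, kcg_143, kcg_144, kcg_148, kcg_157, kcg_158, kcg_165, kcg_166, kcg_170, kcg_179, kcg_180, kcg_185, kcg_189, kcg_199, kcg_200, kcg_209, kcg_210, kcg_214, kcg_225, kcg_226, kcg_234, kcg_238, kcg_251, kcg_252, kcg_257, kcg_261, kcg_269, kcg_270, kcg_271, kcg_276, kcg_277, kcg_286, kcg_292, kcg_297, kcg_302, kcg_309, kcg_320, kcg_328, kcg_329, kcg_336, kcg_341, kcg_348, kcg_358, kcg_365, kcg_371, kcg_382]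
  rcases eq_or_lt_of_le h1 with h | h1
  · subst h
    ((try push_cast); (repeat first | rw [if_pos (by linarith)] | rw [if_neg (by linarith)] | erw [if_pos (by linarith)] | erw [if_neg (by linarith)]); (try push_cast); (try ring1))
  rcases eq_or_lt_of_le h2 with h | h2
  · subst h
    ((try push_cast); (repeat first | rw [if_pos (by linarith)] | rw [if_neg (by linarith)] | erw [if_pos (by linarith)] | erw [if_neg (by linarith)]); (try push_cast); (try ring1))
  · ((try push_cast); (repeat first | rw [if_pos (by linarith)] | rw [if_neg (by linarith)] | erw [if_pos (by linarith)] | erw [if_neg (by linarith)]); (try push_cast); (try ring1))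
theorem kcl16 {p x : ℝ} (h1 : 2 / 5 ≤ p) (h2 : p ≤ 107 / 254) : kcg.v p x = (-1891003957 / 857250000000 + (x - 153 / 160) * (2355994532027 / 85725000000)) + (990909998737 / 342900000000 + (x - 153 / 160) * (-5946193605107 / 34290000000)) * p + (-19 / 1250 + (x - 153 / 160) * (134069 / 500)) * p ^ 2 := by
  simp only [kcg, kcg_3, kcg_6, kcg_9, kcg_12, kcg_13, kcg_18, kcg_31, kcg_34, kcg_35, kcg_40, kcg_45, kcg_58, kcg_59, kcg_67, kcg_68, kcg_73, kcg_86, kcg_87, kcg_94, kcg_95, kcg_99, kcg_110, kcg_111, kcg_116, kcg_120, kcg_129, kcg_130, kcg_140, kcg_143, kcg_144, kcg_148, kcg_157, kcg_158, kcg_165, kcg_166, kcg_170, kcg_179, kcg_180, kcg_185, kcg_189, kcg_199, kcg_200, kcg_209, kcg_210, kcg_214, kcg_225, kcg_226, kcg_234, kcg_238, kcg_251, kcg_252, kcg_257, kcg_261, kcg_269, kcg_270, kcg_271, kcg_276, kcg_277, kcg_286, kcg_292, kcg_297, kcg_302, kcg_309, kcg_320, kcg_328, kcg_329, kcg_336, kcg_341, kcg_348, kcg_358, kcg_365, kcg_371, kcg_382]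
  rcases eq_or_lt_of_le h1 with h | h1
  · subst h
    ((try push_cast); (repeat first | rw [if_pos (by linarith)] | rw [if_neg (by linarith)] | erw [if_pos (by linarith)] | erw [if_neg (by linarith)]); (try push_cast); (try ring1))
  rcases eq_or_lt_of_le h2 with h | h2
  · subst h
    ((try push_cast); (repeat first | rw [if_pos (by linarith)] | rw [if_neg (by linarith)] | erw [if_pos (by linarith)] | erw [if_neg (by linarith)]); (try push_cast); (try ring1))
  · ((try push_cast); (repeat first | rw [if_pos (by linarith)] | rw [if_neg (by linarith)] | erw [if_pos (by linarith)] | erw [if_neg (by linarith)]); (try push_cast); (try ring1))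
theorem kcl17 {p x : ℝ} (h1 : 107 / 254 ≤ p) (h2 : p ≤ 181 / 397) : kcg.v p x = (-190457319648653377 / 35242881000000000 + (x - 153 / 160) * (-177172386645642491 / 8810720250000000)) + (10057029087979537 / 352428810000000 + (x - 153 / 160) * (462927006572238587 / 8810720250000000)) * p + (-60911 / 2000 + (x - 153 / 160) * (-23 / 500)) * p ^ 2 := by
  simp only [kcg, kcg_3, kcg_6, kcg_9, kcg_12, kcg_13, kcg_18, kcg_31, kcg_34, kcg_35, kcg_40, kcg_45, kcg_58, kcg_59, kcg_67, kcg_68, kcg_73, kcg_86, kcg_87, kcg_94, kcg_95, kcg_99, kcg_110, kcg_111, kcg_116, kcg_120, kcg_129, kcg_130, kcg_140, kcg_143, kcg_144, kcg_148, kcg_157, kcg_158, kcg_165, kcg_166, kcg_170, kcg_179, kcg_180, kcg_185, kcg_189, kcg_199, kcg_200, kcg_209, kcg_210, kcg_214, kcg_225, kcg_226, kcg_234, kcg_238, kcg_251, kcg_252, kcg_257, kcg_261, kcg_269, kcg_270, kcg_271, kcg_276, kcg_277, kcg_286, kcg_292, kcg_297, kcg_302, kcg_309, kcg_320, kcg_328, kcg_329, kcg_336, kcg_341, kcg_348, kcg_358,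 kcg_365, kcg_371, kcg_382]
  rcases eq_or_lt_of_le h1 with h | h1
  · subst h
    ((try push_cast); (repeat first | rw [if_pos (by linarith)] | rw [if_neg (by linarith)] | erw [if_pos (by linarith)] | erw [if_neg (by linarith)]); (try push_cast); (try ring1))
  rcases eq_or_lt_of_le h2 with h | h2
  · subst h
    ((try push_cast); (repeat first | rw [if_pos (by linarith)] | rw [if_neg (by linarith)] | erw [if_pos (by linarith)] | erw [if_neg (by linarith)]); (try push_cast); (try ring1))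
  · ((try push_cast); (repeat first | rw [if_pos (by linarith)] | rw [if_neg (by linarith)] | erw [if_pos (by linarith)] | erw [if_neg (by linarith)]); (try push_cast); (try ring1))
theorem kcl18 {p x : ℝ} (h1 : 181 / 397 ≤ p) (h2 : p ≤ 470613 / 1000000) : kcg.v p x = (-32142263607654724109 / 361850674531250000 + (x - 153 / 160) * (-34908465209241498463 / 24377308600000000)) + (4567917144165462905691 / 11579221585000000000 + (x - 153 / 160) * (152264805364265612359 / 24377308600000000)) * p + (-2158971 / 5000 + (x - 153 / 160) * (-1358501 / 200)) * p ^ 2 := by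
  simp only [kcg, kcg_3, kcg_6, kcg_9, kcg_12, kcg_13, kcg_18, kcg_31, kcg_34, kcg_35, kcg_40, kcg_45, kcg_58, kcg_59, kcg_67, kcg_68, kcg_73, kcg_86, kcg_87, kcg_94, kcg_95, kcg_99, kcg_110, kcg_111, kcg_116, kcg_120, kcg_129, kcg_130, kcg_140, kcg_143, kcg_144, kcg_148, kcg_157, kcg_158, kcg_165, kcg_166, kcg_170, kcg_179, kcg_180, kcg_185, kcg_189, kcg_199, kcg_200, kcg_209, kcg_210, kcg_214, kcg_225, kcg_226, kcg_234, kcg_238, kcg_251, kcg_252, kcg_257, kcg_261, kcg_269, kcg_270, kcg_271, kcg_276, kcg_277, kcg_286, kcg_292, kcg_297, kcg_302, kcg_309, kcg_320, kcg_328, kcg_329, kcg_336, kcg_341, kcg_348, kcg_358, kcg_365, kcg_371, kcg_382]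
  rcases eq_or_lt_of_le h1 with h | h1
  · subst h
    ((try push_cast); (repeat first | rw [if_pos (by linarith)] | rw [if_neg (by linarith)] | erw [if_pos (by linarith)] | erw [if_neg (by linarith)]); (try push_cast); (try ring1))
  rcases eq_or_lt_of_le h2 with h | h2
  · subst h
    ((try push_cast); (repeat first | rw [if_pos (by linarith)] | rw [if_neg (by linarith)] | erw [if_pos (by linarith)] | erw [if_neg (by linarith)]); (try push_cast); (try ring1))
  · ((try push_cast); (repeat first | rw [if_pos (by linarith)] | rw [if_neg (by linarith)] | erw [if_pos (by linarith)] | erw [if_neg (by linarith)]); (try push_cast); (try ring1))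
theorem kcl19 {p x : ℝ} (h1 : 470613 / 1000000 ≤ p) (h2 : p ≤ 242653 / 500000) : kcg.v p x = (249891380362460848981 / 36732500000000000000 + (x - 153 / 160) * (262784350575883270747 / 3673250000000000000)) + (-875329395060251 / 73465000000000 + (x - 153 / 160) * (-1054676779549237 / 7346500000000)) * p + (-47 / 5000 + (x - 153 / 160) * (-1889 / 500)) * p ^ 2 := by
  simp only [kcg, kcg_3, kcg_6, kcg_9, kcg_12, kcg_13, kcg_18, kcg_31, kcg_34, kcg_35, kcg_40, kcg_45, kcg_58, kcg_59, kcg_67, kcg_68, kcg_73, kcg_86, kcg_87, kcg_94, kcg_95, kcg_99, kcg_110, kcg_111, kcg_116, kcg_120, kcg_129, kcg_130, kcg_140, kcg_143, kcg_144, kcg_148, kcg_157, kcg_158, kcg_165, kcg_166, kcg_170, kcg_179, kcg_180, kcg_185, kcg_189, kcg_199, kcg_200, kcg_209, kcg_210, kcg_214, kcg_225, kcg_226, kcg_234, kcg_238, kcg_251, kcg_252, kcg_257, kcg_261, kcg_269, kcg_270, kcg_271, kcg_276, kcg_277, kcg_286, kcg_292, kcg_297, kcg_302, kcg_309, kcg_320, kcg_328, kcg_329, kcg_336, kcg_341, kcg_348,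 kcg_358, kcg_365, kcg_371, kcg_382]
  rcases eq_or_lt_of_le h1 with h | h1
  · subst h
    ((try push_cast); (repeat first | rw [if_pos (by linarith)] | rw [if_neg (by linarith)] | erw [if_pos (by linarith)] | erw [if_neg (by linarith)]); (try push_cast); (try ring1))
  rcases eq_or_lt_of_le h2 with h | h2
  · subst h
    ((try push_cast); (repeat first | rw [if_pos (by linarith)] | rw [if_neg (by linarith)] | erw [if_pos (by linarith)] | erw [if_neg (by linarith)]); (try push_cast); (try ring1))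
  · ((try push_cast); (repeat first | rw [if_pos (by linarith)] | rw [if_neg (by linarith)] | erw [if_pos (by linarith)] | erw [if_neg (by linarith)]); (try push_cast); (try ring1))
theorem kcl20 {p x : ℝ} (h1 : 242653 / 500000 ≤ p) (h2 : p ≤ 1 / 2) : kcg.v p x = (499858758986807 / 73470000000000 + (x - 153 / 160) * (527328522619589 / 7347000000000)) + (-437810832855677 / 36735000000000 + (x - 153 / 160) * (-530963610887249 / 3673500000000)) * p + (-53 / 10000 + (x - 153 / 160) * (-2761 / 1000)) * p ^ 2 := by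
  simp only [kcg, kcg_3, kcg_6, kcg_9, kcg_12, kcg_13, kcg_18, kcg_31, kcg_34, kcg_35, kcg_40, kcg_45, kcg_58, kcg_59, kcg_67, kcg_68, kcg_73, kcg_86, kcg_87, kcg_94, kcg_95, kcg_99, kcg_110, kcg_111, kcg_116, kcg_120, kcg_129, kcg_130, kcg_140, kcg_143, kcg_144, kcg_148, kcg_157, kcg_158, kcg_165, kcg_166, kcg_170, kcg_179, kcg_180, kcg_185, kcg_189, kcg_199, kcg_200, kcg_209, kcg_210, kcg_214, kcg_225, kcg_226, kcg_234, kcg_238, kcg_251, kcg_252, kcg_257, kcg_261, kcg_269, kcg_270, kcg_271, kcg_276, kcg_277, kcg_286, kcg_292, kcg_297, kcg_302, kcg_309, kcg_320, kcg_328, kcg_329, kcg_336, kcg_341, kcg_348, kcg_358, kcg_365, kcg_371, kcg_382]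
  rcases eq_or_lt_of_le h1 with h | h1
  · subst h
    ((try push_cast); (repeat first | rw [if_pos (by linarith)] | rw [if_neg (by linarith)] | erw [if_pos (by linarith)] | erw [if_neg (by linarith)]); (try push_cast); (try ring1))
  rcases eq_or_lt_of_le h2 with h | h2
  · subst h
    ((try push_cast); (repeat first | rw [if_pos (by linarith)] | rw [if_neg (by linarith)] | erw [if_pos (by linarith)] | erw [if_neg (by linarith)]); (try push_cast); (try ring1))
  · ((try push_cast); (repeat first | rw [if_pos (by linarith)] | rw [if_neg (by linarith)] | erw [if_pos (by linarith)] | erw [if_neg (by linarith)]); (try push_cast); (try ring1))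
theorem kvh0 {p x : ℝ} (h2 : p ≤ -242653 / 500000) : dt41.kv p x = (-499858758986807 / 73470000000000 + (x - 153 / 160) * (-527328522619589 / 7347000000000)) + (-437810832855677 / 36735000000000 + (x - 153 / 160) * (-530963610887249 / 3673500000000)) * p + (53 / 10000 + (x - 153 / 160) * (2761 / 1000)) * p ^ 2 := by
  refine (DT.kv_le (by simp only [Cn.rt_v, Cn.ng_v]; push_cast; linarith)).trans ?_
  refine (DT.kv_le (by simp only [Cn.rt_v, Cn.ng_v]; push_cast; linarith)).trans ?_
  refine (DT.kv_le (by simp only [Cn.rt_v, Cn.ng_v]; push_cast; linarith)).trans ?_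
  refine (DT.kv_le (by simp only [Cn.rt_v, Cn.ng_v]; push_cast; linarith)).trans ?_
  simp only [dt1, DT.kv, sw1, sl1, sv1]
  ((try push_cast); ring1)
theorem kvh1 {p x : ℝ} (h1 : -242653 / 500000 < p) (h2 : p ≤ -470613 / 1000000) : dt41.kv p x = (-249891380362460848981 / 36732500000000000000 + (x - 153 / 160) * (-262784350575883270747 / 3673250000000000000)) + (-875329395060251 / 73465000000000 + (x - 153 / 160) * (-1054676779549237 / 7346500000000)) * p + (47 / 5000 + (x - 153 / 160) * (1889 / 500)) * p ^ 2 := by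
  refine (DT.kv_le (by simp only [Cn.rt_v, Cn.ng_v]; push_cast; linarith)).trans ?_
  refine (DT.kv_le (by simp only [Cn.rt_v, Cn.ng_v]; push_cast; linarith)).trans ?_
  refine (DT.kv_le (by simp only [Cn.rt_v, Cn.ng_v]; push_cast; linarith)).trans ?_
  refine (DT.kv_gt (by simp only [Cn.rt_v, Cn.ng_v]; push_cast; linarith)).trans ?_
  simp only [dt2, DT.kv, sw2, sl2, sv2]
  ((try push_cast); ring1)
theorem kvh2 {p x : ℝ} (h1 : -470613 / 1000000 < p) (h2 : p ≤ -181 / 397) : dt41.kv p x = (32142263607654724109 / 361850674531250000 + (x - 153 / 160) * (34908465209241498463 / 24377308600000000)) + (4567917144165462905691 / 11579221585000000000 + (x - 153 / 160) * (152264805364265612359 / 24377308600000000)) * p + (2158971 / 5000 + (x - 153 / 160) * (1358501 / 200)) * p ^ 2 := by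
  refine (DT.kv_le (by simp only [Cn.rt_v, Cn.ng_v]; push_cast; linarith)).trans ?_
  refine (DT.kv_le (by simp only [Cn.rt_v, Cn.ng_v]; push_cast; linarith)).trans ?_
  refine (DT.kv_gt (by simp only [Cn.rt_v, Cn.ng_v]; push_cast; linarith)).trans ?_
  refine (DT.kv_le (by simp only [Cn.rt_v, Cn.ng_v]; push_cast; linarith)).trans ?_
  simp only [dt3, DT.kv, sw3, sl3, sv3]
  ((try push_cast); ring1)
theorem kvh3 {p x : ℝ} (h1 : -181 / 397 < p) (h2 : p ≤ -107 / 254) : dt41.kv p x = (190457319648653377 / 35242881000000000 + (x - 153 / 160) * (177172386645642491 / 8810720250000000)) + (10057029087979537 / 352428810000000 + (x - 153 / 160) * (462927006572238587 / 8810720250000000)) * p + (60911 / 2000 + (x - 153 / 160) * (23 / 500)) * p ^ 2 := by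
  refine (DT.kv_le (by simp only [Cn.rt_v, Cn.ng_v]; push_cast; linarith)).trans ?_
  refine (DT.kv_le (by simp only [Cn.rt_v, Cn.ng_v]; push_cast; linarith)).trans ?_
  refine (DT.kv_gt (by simp only [Cn.rt_v, Cn.ng_v]; push_cast; linarith)).trans ?_
  refine (DT.kv_gt (by simp only [Cn.rt_v, Cn.ng_v]; push_cast; linarith)).trans ?_
  refine (DT.kv_le (by simp only [Cn.rt_v, Cn.ng_v]; push_cast; linarith)).trans ?_
  simp only [dt4, DT.kv, sw4, sl4, sv4]
  ((try push_cast); ring1)
theorem kvh4 {p x : ℝ} (h1 : -107 / 254 < p) (h2 : p ≤ -2 / 5) : dt41.kv p x = (1891003957 / 857250000000 + (x - 153 / 160) * (-2355994532027 / 85725000000)) + (990909998737 / 342900000000 + (x - 153 / 160) * (-5946193605107 / 34290000000)) * p + (19 / 1250 + (x - 153 / 160) * (-134069 / 500)) * p ^ 2 := by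
  refine (DT.kv_le (by simp only [Cn.rt_v, Cn.ng_v]; push_cast; linarith)).trans ?_
  refine (DT.kv_le (by simp only [Cn.rt_v, Cn.ng_v]; push_cast; linarith)).trans ?_
  refine (DT.kv_gt (by simp only [Cn.rt_v, Cn.ng_v]; push_cast; linarith)).trans ?_
  refine (DT.kv_gt (by simp only [Cn.rt_v, Cn.ng_v]; push_cast; linarith)).trans ?_
  refine (DT.kv_gt (by simp only [Cn.rt_v, Cn.ng_v]; push_cast; linarith)).trans ?_
  simp only [dt5, DT.kv, sw5, sl5, sv5]
  ((try push_cast); ring1)
theorem kvh5 {p x : ℝ} (h1 : -2 / 5 < p) (h2 : p ≤ -9 / 25) : dt41.kv p x = (4179 / 12500000 + (x - 153 / 160) * (-4289493 / 156250)) + (1440217 / 500000 + (x - 153 / 160) * (-8662847 / 50000)) * p + (7 / 2000 + (x - 153 / 160) * (-66987 / 250)) * p ^ 2 := by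
  refine (DT.kv_le (by simp only [Cn.rt_v, Cn.ng_v]; push_cast; linarith)).trans ?_
  refine (DT.kv_gt (by simp only [Cn.rt_v, Cn.ng_v]; push_cast; linarith)).trans ?_
  refine (DT.kv_le (by simp only [Cn.rt_v, Cn.ng_v]; push_cast; linarith)).trans ?_
  refine (DT.kv_le (by simp only [Cn.rt_v, Cn.ng_v]; push_cast; linarith)).trans ?_
  simp only [dt6, DT.kv, sw6, sl6, sv6]
  ((try push_cast); ring1)
theorem kvh6 {p x : ℝ} (h1 : -9 / 25 < p) (h2 : p ≤ -8 / 25) : dt41.kv p x = (597 / 3125000 + (x - 153 / 160) * (-8540547 / 312500)) + (71991 / 25000 + (x - 153 / 160) * (-8628681 / 50000)) * p + (3 / 1250 + (x - 153 / 160) * (-266999 / 1000)) * p ^ 2 := by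
  refine (DT.kv_le (by simp only [Cn.rt_v, Cn.ng_v]; push_cast; linarith)).trans ?_
  refine (DT.kv_gt (by simp only [Cn.rt_v, Cn.ng_v]; push_cast; linarith)).trans ?_
  refine (DT.kv_le (by simp only [Cn.rt_v, Cn.ng_v]; push_cast; linarith)).trans ?_
  refine (DT.kv_gt (by simp only [Cn.rt_v, Cn.ng_v]; push_cast; linarith)).trans ?_
  simp only [dt7, DT.kv, sw7, sl7, sv7]
  ((try push_cast); ring1)
theorem kvh7 {p x : ℝ} (h1 : -8 / 25 < p) (h2 : p ≤ -6 / 25) : dt41.kv p x = (79 / 3125000 + (x - 153 / 160) * (-3677 / 312500)) + (287861 / 100000 + (x - 153 / 160) * (-45907 / 25000)) * p + (1 / 1250 + (x - 153 / 160) * (-111 / 500)) * p ^ 2 := by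
  refine (DT.kv_le (by simp only [Cn.rt_v, Cn.ng_v]; push_cast; linarith)).trans ?_
  refine (DT.kv_gt (by simp only [Cn.rt_v, Cn.ng_v]; push_cast; linarith)).trans ?_
  refine (DT.kv_gt (by simp only [Cn.rt_v, Cn.ng_v]; push_cast; linarith)).trans ?_
  refine (DT.kv_le (by simp only [Cn.rt_v, Cn.ng_v]; push_cast; linarith)).trans ?_
  simp only [dt8, DT.kv, sw8, sl8, sv8]
  ((try push_cast); ring1)
theorem kvh8 {p x : ℝ} (h1 : -6 / 25 < p) (h2 : p ≤ -4 / 25) : dt41.kv p x = (11 / 1562500 + (x - 153 / 160) * (-167 / 78125)) + (1439231 / 500000 + (x - 153 / 160) * (-21951 / 12500)) * p + (1 / 2000 + (x - 153 / 160) * (-11 / 200)) * p ^ 2 := by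
  refine (DT.kv_le (by simp only [Cn.rt_v, Cn.ng_v]; push_cast; linarith)).trans ?_
  refine (DT.kv_gt (by simp only [Cn.rt_v, Cn.ng_v]; push_cast; linarith)).trans ?_
  refine (DT.kv_gt (by simp only [Cn.rt_v, Cn.ng_v]; push_cast; linarith)).trans ?_
  refine (DT.kv_gt (by simp only [Cn.rt_v, Cn.ng_v]; push_cast; linarith)).trans ?_
  refine (DT.kv_le (by simp only [Cn.rt_v, Cn.ng_v]; push_cast; linarith)).trans ?_
  simp only [dt9, DT.kv, sw9, sl9, sv9]
  ((try push_cast); ring1)
theorem kvh9 {p x : ℝ} (h1 : -4 / 25 < p) (h2 : p ≤ -2 / 25) : dt41.kv p x = (3 / 1562500 + (x - 153 / 160) * (19 / 78125)) + (1439199 / 500000 + (x - 153 / 160) * (-21579 / 12500)) * p + (3 / 10000 + (x - 153 / 160) * (19 / 500)) * p ^ 2 := by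
  refine (DT.kv_le (by simp only [Cn.rt_v, Cn.ng_v]; push_cast; linarith)).trans ?_
  refine (DT.kv_gt (by simp only [Cn.rt_v, Cn.ng_v]; push_cast; linarith)).trans ?_
  refine (DT.kv_gt (by simp only [Cn.rt_v, Cn.ng_v]; push_cast; linarith)).trans ?_
  refine (DT.kv_gt (by simp only [Cn.rt_v, Cn.ng_v]; push_cast; linarith)).trans ?_
  refine (DT.kv_gt (by simp only [Cn.rt_v, Cn.ng_v]; push_cast; linarith)).trans ?_
  simp only [dt10, DT.kv, sw10, sl10, sv10]
  ((try push_cast); ring1)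
theorem kvh10 {p x : ℝ} (h1 : -2 / 25 < p) (h2 : p ≤ 2 / 25) : dt41.kv p x = (0) + (57567 / 20000 + (x - 153 / 160) * (-4331 / 2500)) * p := by
  refine (DT.kv_gt (by simp only [Cn.rt_v, Cn.ng_v]; push_cast; linarith)).trans ?_
  refine (DT.kv_le (by simp only [Cn.rt_v, Cn.ng_v]; push_cast; linarith)).trans ?_
  refine (DT.kv_le (by simp only [Cn.rt_v, Cn.ng_v]; push_cast; linarith)).trans ?_
  refine (DT.kv_le (by simp only [Cn.rt_v, Cn.ng_v]; push_cast; linarith)).trans ?_
  simp only [dt11, DT.kv, sl11, sv11]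
  ((try push_cast); ring1)
theorem kvh11 {p x : ℝ} (h1 : 2 / 25 < p) (h2 : p ≤ 4 / 25) : dt41.kv p x = (-3 / 1562500 + (x - 153 / 160) * (-19 / 78125)) + (1439199 / 500000 + (x - 153 / 160) * (-21579 / 12500)) * p + (-3 / 10000 + (x - 153 / 160) * (-19 / 500)) * p ^ 2 := by
  refine (DT.kv_gt (by simp only [Cn.rt_v, Cn.ng_v]; push_cast; linarith)).trans ?_
  refine (DT.kv_le (by simp only [Cn.rt_v, Cn.ng_v]; push_cast; linarith)).trans ?_
  refine (DT.kv_le (by simp only [Cn.rt_v, Cn.ng_v]; push_cast; linarith)).trans ?_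
  refine (DT.kv_gt (by simp only [Cn.rt_v, Cn.ng_v]; push_cast; linarith)).trans ?_
  simp only [dt12, DT.kv, sw12, sl12, sv12]
  ((try push_cast); ring1)
theorem kvh12 {p x : ℝ} (h1 : 4 / 25 < p) (h2 : p ≤ 6 / 25) : dt41.kv p x = (-11 / 1562500 + (x - 153 / 160) * (167 / 78125)) + (1439231 / 500000 + (x - 153 / 160) * (-21951 / 12500)) * p + (-1 / 2000 + (x - 153 / 160) * (11 / 200)) * p ^ 2 := by
  refine (DT.kv_gt (by simp only [Cn.rt_v, Cn.ng_v]; push_cast; linarith)).trans ?_
  refine (DT.kv_le (by simp only [Cn.rt_v, Cn.ng_v]; push_cast; linarith)).trans ?_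
  refine (DT.kv_gt (by simp only [Cn.rt_v, Cn.ng_v]; push_cast; linarith)).trans ?_
  refine (DT.kv_le (by simp only [Cn.rt_v, Cn.ng_v]; push_cast; linarith)).trans ?_
  simp only [dt13, DT.kv, sw13, sl13, sv13]
  ((try push_cast); ring1)
theorem kvh13 {p x : ℝ} (h1 : 6 / 25 < p) (h2 : p ≤ 8 / 25) : dt41.kv p x = (-79 / 3125000 + (x - 153 / 160) * (3677 / 312500)) + (287861 / 100000 + (x - 153 / 160) * (-45907 / 25000)) * p + (-1 / 1250 + (x - 153 / 160) * (111 / 500)) * p ^ 2 := by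
  refine (DT.kv_gt (by simp only [Cn.rt_v, Cn.ng_v]; push_cast; linarith)).trans ?_
  refine (DT.kv_le (by simp only [Cn.rt_v, Cn.ng_v]; push_cast; linarith)).trans ?_
  refine (DT.kv_gt (by simp only [Cn.rt_v, Cn.ng_v]; push_cast; linarith)).trans ?_
  refine (DT.kv_gt (by simp only [Cn.rt_v, Cn.ng_v]; push_cast; linarith)).trans ?_
  refine (DT.kv_le (by simp only [Cn.rt_v, Cn.ng_v]; push_cast; linarith)).trans ?_
  simp only [dt14, DT.kv, sw14, sl14, sv14]
  ((try push_cast); ring1)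
theorem kvh14 {p x : ℝ} (h1 : 8 / 25 < p) (h2 : p ≤ 9 / 25) : dt41.kv p x = (-597 / 3125000 + (x - 153 / 160) * (8540547 / 312500)) + (71991 / 25000 + (x - 153 / 160) * (-8628681 / 50000)) * p + (-3 / 1250 + (x - 153 / 160) * (266999 / 1000)) * p ^ 2 := by
  refine (DT.kv_gt (by simp only [Cn.rt_v, Cn.ng_v]; push_cast; linarith)).trans ?_
  refine (DT.kv_le (by simp only [Cn.rt_v, Cn.ng_v]; push_cast; linarith)).trans ?_
  refine (DT.kv_gt (by simp only [Cn.rt_v, Cn.ng_v]; push_cast; linarith)).trans ?_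
  refine (DT.kv_gt (by simp only [Cn.rt_v, Cn.ng_v]; push_cast; linarith)).trans ?_
  refine (DT.kv_gt (by simp only [Cn.rt_v, Cn.ng_v]; push_cast; linarith)).trans ?_
  simp only [dt15, DT.kv, sw15, sl15, sv15]
  ((try push_cast); ring1)
theorem kvh15 {p x : ℝ} (h1 : 9 / 25 < p) (h2 : p ≤ 2 / 5) : dt41.kv p x = (-4179 / 12500000 + (x - 153 / 160) * (4289493 / 156250)) + (1440217 / 500000 + (x - 153 / 160) * (-8662847 / 50000)) * p + (-7 / 2000 + (x - 153 / 160) * (66987 / 250)) * p ^ 2 := by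
  refine (DT.kv_gt (by simp only [Cn.rt_v, Cn.ng_v]; push_cast; linarith)).trans ?_
  refine (DT.kv_gt (by simp only [Cn.rt_v, Cn.ng_v]; push_cast; linarith)).trans ?_
  refine (DT.kv_le (by simp only [Cn.rt_v, Cn.ng_v]; push_cast; linarith)).trans ?_
  refine (DT.kv_le (by simp only [Cn.rt_v, Cn.ng_v]; push_cast; linarith)).trans ?_
  simp only [dt16, DT.kv, sw16, sl16, sv16]
  ((try push_cast); ring1)
theorem kvh16 {p x : ℝ} (h1 : 2 / 5 < p) (h2 : p ≤ 107 / 254) : dt41.kv p x = (-1891003957 / 857250000000 + (x - 153 / 160) * (2355994532027 / 85725000000)) + (990909998737 / 342900000000 + (x - 153 / 160) * (-5946193605107 / 34290000000)) * p + (-19 / 1250 + (x - 153 / 160) * (134069 / 500)) * p ^ 2 := by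
  refine (DT.kv_gt (by simp only [Cn.rt_v, Cn.ng_v]; push_cast; linarith)).trans ?_
  refine (DT.kv_gt (by simp only [Cn.rt_v, Cn.ng_v]; push_cast; linarith)).trans ?_
  refine (DT.kv_le (by simp only [Cn.rt_v, Cn.ng_v]; push_cast; linarith)).trans ?_
  refine (DT.kv_gt (by simp only [Cn.rt_v, Cn.ng_v]; push_cast; linarith)).trans ?_
  refine (DT.kv_le (by simp only [Cn.rt_v, Cn.ng_v]; push_cast; linarith)).trans ?_
  simp only [dt17, DT.kv, sw17, sl17, sv17]
  ((try push_cast); ring1)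
theorem kvh17 {p x : ℝ} (h1 : 107 / 254 < p) (h2 : p ≤ 181 / 397) : dt41.kv p x = (-190457319648653377 / 35242881000000000 + (x - 153 / 160) * (-177172386645642491 / 8810720250000000)) + (10057029087979537 / 352428810000000 + (x - 153 / 160) * (462927006572238587 / 8810720250000000)) * p + (-60911 / 2000 + (x - 153 / 160) * (-23 / 500)) * p ^ 2 := by
  refine (DT.kv_gt (by simp only [Cn.rt_v, Cn.ng_v]; push_cast; linarith)).trans ?_
  refine (DT.kv_gt (by simp only [Cn.rt_v, Cn.ng_v]; push_cast; linarith)).trans ?_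
  refine (DT.kv_le (by simp only [Cn.rt_v, Cn.ng_v]; push_cast; linarith)).trans ?_
  refine (DT.kv_gt (by simp only [Cn.rt_v, Cn.ng_v]; push_cast; linarith)).trans ?_
  refine (DT.kv_gt (by simp only [Cn.rt_v, Cn.ng_v]; push_cast; linarith)).trans ?_
  simp only [dt18, DT.kv, sw18, sl18, sv18]
  ((try push_cast); ring1)
theorem kvh18 {p x : ℝ} (h1 : 181 / 397 < p) (h2 : p ≤ 470613 / 1000000) : dt41.kv p x = (-32142263607654724109 / 361850674531250000 + (x - 153 / 160) * (-34908465209241498463 / 24377308600000000)) + (4567917144165462905691 / 11579221585000000000 + (x - 153 / 160) * (152264805364265612359 / 24377308600000000)) * p + (-2158971 / 5000 + (x - 153 / 160) * (-1358501 / 200)) * p ^ 2 := by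
  refine (DT.kv_gt (by simp only [Cn.rt_v, Cn.ng_v]; push_cast; linarith)).trans ?_
  refine (DT.kv_gt (by simp only [Cn.rt_v, Cn.ng_v]; push_cast; linarith)).trans ?_
  refine (DT.kv_gt (by simp only [Cn.rt_v, Cn.ng_v]; push_cast; linarith)).trans ?_
  refine (DT.kv_le (by simp only [Cn.rt_v, Cn.ng_v]; push_cast; linarith)).trans ?_
  simp only [dt19, DT.kv, sw19, sl19, sv19]
  ((try push_cast); ring1)
theorem kvh19 {p x : ℝ} (h1 : 470613 / 1000000 < p) (h2 : p ≤ 242653 / 500000) : dt41.kv p x = (249891380362460848981 / 36732500000000000000 + (x - 153 / 160) * (262784350575883270747 / 3673250000000000000)) + (-875329395060251 / 73465000000000 + (x - 153 / 160) * (-1054676779549237 / 7346500000000)) * p + (-47 / 5000 + (x - 153 / 160) * (-1889 / 500)) * p ^ 2 := by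
  refine (DT.kv_gt (by simp only [Cn.rt_v, Cn.ng_v]; push_cast; linarith)).trans ?_
  refine (DT.kv_gt (by simp only [Cn.rt_v, Cn.ng_v]; push_cast; linarith)).trans ?_
  refine (DT.kv_gt (by simp only [Cn.rt_v, Cn.ng_v]; push_cast; linarith)).trans ?_
  refine (DT.kv_gt (by simp only [Cn.rt_v, Cn.ng_v]; push_cast; linarith)).trans ?_
  refine (DT.kv_le (by simp only [Cn.rt_v, Cn.ng_v]; push_cast; linarith)).trans ?_
  simp only [dt20, DT.kv, sw20, sl20, sv20]
  ((try push_cast); ring1)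
theorem kvh20 {p x : ℝ} (h1 : 242653 / 500000 < p) (h2 : p ≤ 1 / 2) : dt41.kv p x = (499858758986807 / 73470000000000 + (x - 153 / 160) * (527328522619589 / 7347000000000)) + (-437810832855677 / 36735000000000 + (x - 153 / 160) * (-530963610887249 / 3673500000000)) * p + (-53 / 10000 + (x - 153 / 160) * (-2761 / 1000)) * p ^ 2 := by
  refine (DT.kv_gt (by simp only [Cn.rt_v, Cn.ng_v]; push_cast; linarith)).trans ?_
  refine (DT.kv_gt (by simp only [Cn.rt_v, Cn.ng_v]; push_cast; linarith)).trans ?_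
  refine (DT.kv_gt (by simp only [Cn.rt_v, Cn.ng_v]; push_cast; linarith)).trans ?_
  refine (DT.kv_gt (by simp only [Cn.rt_v, Cn.ng_v]; push_cast; linarith)).trans ?_
  refine (DT.kv_gt (by simp only [Cn.rt_v, Cn.ng_v]; push_cast; linarith)).trans ?_
  simp only [dt21, DT.kv, sw21, sl21, sv21]
  ((try push_cast); ring1)
theorem kvl0 {p x : ℝ} (h1 : -1 / 2 ≤ p) (h2 : p ≤ -242653 / 500000) : dt41.kv p x = (-499858758986807 / 73470000000000 + (x - 153 / 160) * (-527328522619589 / 7347000000000)) + (-437810832855677 / 36735000000000 + (x - 153 / 160) * (-530963610887249 / 3673500000000)) * p + (53 / 10000 + (x - 153 / 160) * (2761 / 1000)) * p ^ 2 := by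
  exact kvh0 h2
theorem kvl1 {p x : ℝ} (h1 : -242653 / 500000 ≤ p) (h2 : p ≤ -470613 / 1000000) : dt41.kv p x = (-249891380362460848981 / 36732500000000000000 + (x - 153 / 160) * (-262784350575883270747 / 3673250000000000000)) + (-875329395060251 / 73465000000000 + (x - 153 / 160) * (-1054676779549237 / 7346500000000)) * p + (47 / 5000 + (x - 153 / 160) * (1889 / 500)) * p ^ 2 := by
  rcases eq_or_lt_of_le h1 with h | h1
  · subst h
    rw [kvh0 (by norm_num)]
    ring1
  · exact kvh1 h1 h2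
theorem kvl2 {p x : ℝ} (h1 : -470613 / 1000000 ≤ p) (h2 : p ≤ -181 / 397) : dt41.kv p x = (32142263607654724109 / 361850674531250000 + (x - 153 / 160) * (34908465209241498463 / 24377308600000000)) + (4567917144165462905691 / 11579221585000000000 + (x - 153 / 160) * (152264805364265612359 / 24377308600000000)) * p + (2158971 / 5000 + (x - 153 / 160) * (1358501 / 200)) * p ^ 2 := by
  rcases eq_or_lt_of_le h1 with h | h1
  · subst h
    rw [kvh1 (by norm_num) (by norm_num)]
    ring1
  · exact kvh2 h1 h2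
theorem kvl3 {p x : ℝ} (h1 : -181 / 397 ≤ p) (h2 : p ≤ -107 / 254) : dt41.kv p x = (190457319648653377 / 35242881000000000 + (x - 153 / 160) * (177172386645642491 / 8810720250000000)) + (10057029087979537 / 352428810000000 + (x - 153 / 160) * (462927006572238587 / 8810720250000000)) * p + (60911 / 2000 + (x - 153 / 160) * (23 / 500)) * p ^ 2 := by
  rcases eq_or_lt_of_le h1 with h | h1
  · subst h
    rw [kvh2 (by norm_num) (by norm_num)]
    ring1
  · exact kvh3 h1 h2
theorem kvl4 {p x : ℝ} (h1 : -107 / 254 ≤ p) (h2 : p ≤ -2 / 5) : dt41.kv p x = (1891003957 / 857250000000 + (x - 153 / 160) * (-2355994532027 / 85725000000)) + (990909998737 / 342900000000 + (x - 153 / 160) * (-5946193605107 / 34290000000)) * p + (19 / 1250 + (x - 153 / 160) * (-134069 / 500)) * p ^ 2 := by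
  rcases eq_or_lt_of_le h1 with h | h1
  · subst h
    rw [kvh3 (by norm_num) (by norm_num)]
    ring1
  · exact kvh4 h1 h2
theorem kvl5 {p x : ℝ} (h1 : -2 / 5 ≤ p) (h2 : p ≤ -9 / 25) : dt41.kv p x = (4179 / 12500000 + (x - 153 / 160) * (-4289493 / 156250)) + (1440217 / 500000 + (x - 153 / 160) * (-8662847 / 50000)) * p + (7 / 2000 + (x - 153 / 160) * (-66987 / 250)) * p ^ 2 := by
  rcases eq_or_lt_of_le h1 with h | h1
  · subst h
    rw [kvh4 (by norm_num) (by norm_num)]
    ring1
  · exact kvh5 h1 h2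
theorem kvl6 {p x : ℝ} (h1 : -9 / 25 ≤ p) (h2 : p ≤ -8 / 25) : dt41.kv p x = (597 / 3125000 + (x - 153 / 160) * (-8540547 / 312500)) + (71991 / 25000 + (x - 153 / 160) * (-8628681 / 50000)) * p + (3 / 1250 + (x - 153 / 160) * (-266999 / 1000)) * p ^ 2 := by
  rcases eq_or_lt_of_le h1 with h | h1
  · subst h
    rw [kvh5 (by norm_num) (by norm_num)]
    ring1
  · exact kvh6 h1 h2
theorem kvl7 {p x : ℝ} (h1 : -8 / 25 ≤ p) (h2 : p ≤ -6 / 25) : dt41.kv p x = (79 / 3125000 + (x - 153 / 160) * (-3677 / 312500)) + (287861 / 100000 + (x - 153 / 160) * (-45907 / 25000)) * p + (1 / 1250 + (x - 153 / 160) * (-111 / 500)) * p ^ 2 := by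
  rcases eq_or_lt_of_le h1 with h | h1
  · subst h
    rw [kvh6 (by norm_num) (by norm_num)]
    ring1
  · exact kvh7 h1 h2
theorem kvl8 {p x : ℝ} (h1 : -6 / 25 ≤ p) (h2 : p ≤ -4 / 25) : dt41.kv p x = (11 / 1562500 + (x - 153 / 160) * (-167 / 78125)) + (1439231 / 500000 + (x - 153 / 160) * (-21951 / 12500)) * p + (1 / 2000 + (x - 153 / 160) * (-11 / 200)) * p ^ 2 := by
  rcases eq_or_lt_of_le h1 with h | h1
  · subst h
    rw [kvh7 (by norm_num) (by norm_num)]
    ring1
  · exact kvh8 h1 h2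
theorem kvl9 {p x : ℝ} (h1 : -4 / 25 ≤ p) (h2 : p ≤ -2 / 25) : dt41.kv p x = (3 / 1562500 + (x - 153 / 160) * (19 / 78125)) + (1439199 / 500000 + (x - 153 / 160) * (-21579 / 12500)) * p + (3 / 10000 + (x - 153 / 160) * (19 / 500)) * p ^ 2 := by
  rcases eq_or_lt_of_le h1 with h | h1
  · subst h
    rw [kvh8 (by norm_num) (by norm_num)]
    ring1
  · exact kvh9 h1 h2
theorem kvl10 {p x : ℝ} (h1 : -2 / 25 ≤ p) (h2 : p ≤ 2 / 25) : dt41.kv p x = (0) + (57567 / 20000 + (x - 153 / 160) * (-4331 / 2500)) * p := by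
  rcases eq_or_lt_of_le h1 with h | h1
  · subst h
    rw [kvh9 (by norm_num) (by norm_num)]
    ring1
  · exact kvh10 h1 h2
theorem kvl11 {p x : ℝ} (h1 : 2 / 25 ≤ p) (h2 : p ≤ 4 / 25) : dt41.kv p x = (-3 / 1562500 + (x - 153 / 160) * (-19 / 78125)) + (1439199 / 500000 + (x - 153 / 160) * (-21579 / 12500)) * p + (-3 / 10000 + (x - 153 / 160) * (-19 / 500)) * p ^ 2 := by
  rcases eq_or_lt_of_le h1 with h | h1
  · subst h
    rw [kvh10 (by norm_num) (by norm_num)]
    ring1
  · exact kvh11 h1 h2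
theorem kvl12 {p x : ℝ} (h1 : 4 / 25 ≤ p) (h2 : p ≤ 6 / 25) : dt41.kv p x = (-11 / 1562500 + (x - 153 / 160) * (167 / 78125)) + (1439231 / 500000 + (x - 153 / 160) * (-21951 / 12500)) * p + (-1 / 2000 + (x - 153 / 160) * (11 / 200)) * p ^ 2 := by
  rcases eq_or_lt_of_le h1 with h | h1
  · subst h
    rw [kvh11 (by norm_num) (by norm_num)]
    ring1
  · exact kvh12 h1 h2
theorem kvl13 {p x : ℝ} (h1 : 6 / 25 ≤ p) (h2 : p ≤ 8 / 25) : dt41.kv p x = (-79 / 3125000 + (x - 153 / 160) * (3677 / 312500)) + (287861 / 100000 + (x - 153 / 160) * (-45907 / 25000)) * p + (-1 / 1250 + (x - 153 / 160) * (111 / 500)) * p ^ 2 := by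
  rcases eq_or_lt_of_le h1 with h | h1
  · subst h
    rw [kvh12 (by norm_num) (by norm_num)]
    ring1
  · exact kvh13 h1 h2
theorem kvl14 {p x : ℝ} (h1 : 8 / 25 ≤ p) (h2 : p ≤ 9 / 25) : dt41.kv p x = (-597 / 3125000 + (x - 153 / 160) * (8540547 / 312500)) + (71991 / 25000 + (x - 153 / 160) * (-8628681 / 50000)) * p + (-3 / 1250 + (x - 153 / 160) * (266999 / 1000)) * p ^ 2 := by
  rcases eq_or_lt_of_le h1 with h | h1
  · subst h
    rw [kvh13 (by norm_num) (by norm_num)]
    ring1
  · exact kvh14 h1 h2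
theorem kvl15 {p x : ℝ} (h1 : 9 / 25 ≤ p) (h2 : p ≤ 2 / 5) : dt41.kv p x = (-4179 / 12500000 + (x - 153 / 160) * (4289493 / 156250)) + (1440217 / 500000 + (x - 153 / 160) * (-8662847 / 50000)) * p + (-7 / 2000 + (x - 153 / 160) * (66987 / 250)) * p ^ 2 := by
  rcases eq_or_lt_of_le h1 with h | h1
  · subst h
    rw [kvh14 (by norm_num) (by norm_num)]
    ring1
  · exact kvh15 h1 h2
theorem kvl16 {p x : ℝ} (h1 : 2 / 5 ≤ p) (h2 : p ≤ 107 / 254) : dt41.kv p x = (-1891003957 / 857250000000 + (x - 153 / 160) * (2355994532027 / 85725000000)) + (990909998737 / 342900000000 + (x - 153 / 160) * (-5946193605107 / 34290000000)) * p + (-19 / 1250 + (x - 153 / 160) * (134069 / 500)) * p ^ 2 := by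
  rcases eq_or_lt_of_le h1 with h | h1
  · subst h
    rw [kvh15 (by norm_num) (by norm_num)]
    ring1
  · exact kvh16 h1 h2
theorem kvl17 {p x : ℝ} (h1 : 107 / 254 ≤ p) (h2 : p ≤ 181 / 397) : dt41.kv p x = (-190457319648653377 / 35242881000000000 + (x - 153 / 160) * (-177172386645642491 / 8810720250000000)) + (10057029087979537 / 352428810000000 + (x - 153 / 160) * (462927006572238587 / 8810720250000000)) * p + (-60911 / 2000 + (x - 153 / 160) * (-23 / 500)) * p ^ 2 := by
  rcases eq_or_lt_of_le h1 with h | h1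
  · subst h
    rw [kvh16 (by norm_num) (by norm_num)]
    ring1
  · exact kvh17 h1 h2
theorem kvl18 {p x : ℝ} (h1 : 181 / 397 ≤ p) (h2 : p ≤ 470613 / 1000000) : dt41.kv p x = (-32142263607654724109 / 361850674531250000 + (x - 153 / 160) * (-34908465209241498463 / 24377308600000000)) + (4567917144165462905691 / 11579221585000000000 + (x - 153 / 160) * (152264805364265612359 / 24377308600000000)) * p + (-2158971 / 5000 + (x - 153 / 160) * (-1358501 / 200)) * p ^ 2 := by
  rcases eq_or_lt_of_le h1 with h | h1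
  · subst h
    rw [kvh17 (by norm_num) (by norm_num)]
    ring1
  · exact kvh18 h1 h2
theorem kvl19 {p x : ℝ} (h1 : 470613 / 1000000 ≤ p) (h2 : p ≤ 242653 / 500000) : dt41.kv p x = (249891380362460848981 / 36732500000000000000 + (x - 153 / 160) * (262784350575883270747 / 3673250000000000000)) + (-875329395060251 / 73465000000000 + (x - 153 / 160) * (-1054676779549237 / 7346500000000)) * p + (-47 / 5000 + (x - 153 / 160) * (-1889 / 500)) * p ^ 2 := by
  rcases eq_or_lt_of_le h1 with h | h1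
  · subst h
    rw [kvh18 (by norm_num) (by norm_num)]
    ring1
  · exact kvh19 h1 h2
theorem kvl20 {p x : ℝ} (h1 : 242653 / 500000 ≤ p) (h2 : p ≤ 1 / 2) : dt41.kv p x = (499858758986807 / 73470000000000 + (x - 153 / 160) * (527328522619589 / 7347000000000)) + (-437810832855677 / 36735000000000 + (x - 153 / 160) * (-530963610887249 / 3673500000000)) * p + (-53 / 10000 + (x - 153 / 160) * (-2761 / 1000)) * p ^ 2 := by
  rcases eq_or_lt_of_le h1 with h | h1
  · subst h
    rw [kvh19 (by norm_num) (by norm_num)]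
    ring1
  · exact kvh20 h1 h2
theorem kfe {x p : ℝ} (h : |p| ≤ 1 / 2) : kcg.v p x = dt41.kv p x := by
  obtain ⟨h1, h2⟩ := abs_le.1 h
  rcases le_total p (-242653 / 500000) with g0 | g1000
  · rw [kcl0 (by linarith) g0, kvl0 (by linarith) g0]
  rcases le_total p (-470613 / 1000000) with g1 | g1001
  · rw [kcl1 g1000 g1, kvl1 g1000 g1]
  rcases le_total p (-181 / 397) with g2 | g1002
  · rw [kcl2 g1001 g2, kvl2 g1001 g2]
  rcases le_total p (-107 / 254) with g3 | g1003
  · rw [kcl3 g1002 g3, kvl3 g1002 g3]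
  rcases le_total p (-2 / 5) with g4 | g1004
  · rw [kcl4 g1003 g4, kvl4 g1003 g4]
  rcases le_total p (-9 / 25) with g5 | g1005
  · rw [kcl5 g1004 g5, kvl5 g1004 g5]
  rcases le_total p (-8 / 25) with g6 | g1006
  · rw [kcl6 g1005 g6, kvl6 g1005 g6]
  rcases le_total p (-6 / 25) with g7 | g1007
  · rw [kcl7 g1006 g7, kvl7 g1006 g7]
  rcases le_total p (-4 / 25) with g8 | g1008
  · rw [kcl8 g1007 g8, kvl8 g1007 g8]
  rcases le_total p (-2 / 25) with g9 | g1009
  · rw [kcl9 g1008 g9, kvl9 g1008 g9]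
  rcases le_total p (2 / 25) with g10 | g1010
  · rw [kcl10 g1009 g10, kvl10 g1009 g10]
  rcases le_total p (4 / 25) with g11 | g1011
  · rw [kcl11 g1010 g11, kvl11 g1010 g11]
  rcases le_total p (6 / 25) with g12 | g1012
  · rw [kcl12 g1011 g12, kvl12 g1011 g12]
  rcases le_total p (8 / 25) with g13 | g1013
  · rw [kcl13 g1012 g13, kvl13 g1012 g13]
  rcases le_total p (9 / 25) with g14 | g1014
  · rw [kcl14 g1013 g14, kvl14 g1013 g14]
  rcases le_total p (2 / 5) with g15 | g1015
  · rw [kcl15 g1014 g15, kvl15 g1014 g15]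
  rcases le_total p (107 / 254) with g16 | g1016
  · rw [kcl16 g1015 g16, kvl16 g1015 g16]
  rcases le_total p (181 / 397) with g17 | g1017
  · rw [kcl17 g1016 g17, kvl17 g1016 g17]
  rcases le_total p (470613 / 1000000) with g18 | g1018
  · rw [kcl18 g1017 g18, kvl18 g1017 g18]
  rcases le_total p (242653 / 500000) with g19 | g1019
  · rw [kcl19 g1018 g19, kvl19 g1018 g19]
  · rw [kcl20 g1019 (by linarith), kvl20 g1019 (by linarith)]
theorem odd {x p : ℝ} (h : |p| ≤ 1 / 2) : kcg.v (-p) x = -kcg.v p x := by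
  obtain ⟨h1, h2⟩ := abs_le.1 h
  rcases le_total p (-242653 / 500000) with g0 | g1000
  · rw [kcl0 (by linarith) g0, kcl20 (p := -p) (by linarith) (by linarith)]; ring
  rcases le_total p (-470613 / 1000000) with g1 | g1001
  · rw [kcl1 g1000 g1, kcl19 (p := -p) (by linarith) (by linarith)]; ring
  rcases le_total p (-181 / 397) with g2 | g1002
  · rw [kcl2 g1001 g2, kcl18 (p := -p) (by linarith) (by linarith)]; ring
  rcases le_total p (-107 / 254) with g3 | g1003
  · rw [kcl3 g1002 g3, kcl17 (p := -p) (by linarith) (by linarith)]; ring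
  rcases le_total p (-2 / 5) with g4 | g1004
  · rw [kcl4 g1003 g4, kcl16 (p := -p) (by linarith) (by linarith)]; ring
  rcases le_total p (-9 / 25) with g5 | g1005
  · rw [kcl5 g1004 g5, kcl15 (p := -p) (by linarith) (by linarith)]; ring
  rcases le_total p (-8 / 25) with g6 | g1006
  · rw [kcl6 g1005 g6, kcl14 (p := -p) (by linarith) (by linarith)]; ring
  rcases le_total p (-6 / 25) with g7 | g1007
  · rw [kcl7 g1006 g7, kcl13 (p := -p) (by linarith) (by linarith)]; ring
  rcases le_total p (-4 / 25) with g8 | g1008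
  · rw [kcl8 g1007 g8, kcl12 (p := -p) (by linarith) (by linarith)]; ring
  rcases le_total p (-2 / 25) with g9 | g1009
  · rw [kcl9 g1008 g9, kcl11 (p := -p) (by linarith) (by linarith)]; ring
  rcases le_total p (2 / 25) with g10 | g1010
  · rw [kcl10 g1009 g10, kcl10 (p := -p) (by linarith) (by linarith)]; ring
  rcases le_total p (4 / 25) with g11 | g1011
  · rw [kcl11 g1010 g11, kcl9 (p := -p) (by linarith) (by linarith)]; ring
  rcases le_total p (6 / 25) with g12 | g1012
  · rw [kcl12 g1011 g12, kcl8 (p := -p) (by linarith) (by linarith)]; ring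
  rcases le_total p (8 / 25) with g13 | g1013
  · rw [kcl13 g1012 g13, kcl7 (p := -p) (by linarith) (by linarith)]; ring
  rcases le_total p (9 / 25) with g14 | g1014
  · rw [kcl14 g1013 g14, kcl6 (p := -p) (by linarith) (by linarith)]; ring
  rcases le_total p (2 / 5) with g15 | g1015
  · rw [kcl15 g1014 g15, kcl5 (p := -p) (by linarith) (by linarith)]; ring
  rcases le_total p (107 / 254) with g16 | g1016
  · rw [kcl16 g1015 g16, kcl4 (p := -p) (by linarith) (by linarith)]; ring
  rcases le_total p (181 / 397) with g17 | g1017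
  · rw [kcl17 g1016 g17, kcl3 (p := -p) (by linarith) (by linarith)]; ring
  rcases le_total p (470613 / 1000000) with g18 | g1018
  · rw [kcl18 g1017 g18, kcl2 (p := -p) (by linarith) (by linarith)]; ring
  rcases le_total p (242653 / 500000) with g19 | g1019
  · rw [kcl19 g1018 g19, kcl1 (p := -p) (by linarith) (by linarith)]; ring
  · rw [kcl20 g1019 (by linarith), kcl0 (p := -p) (by linarith) (by linarith)]; ring
theorem ctA : cT (107 / 254) = 73 / 127 := by
  unfold cT
  rw [show (3 / 4 * (1 - (107 / 254 : ℝ) ^ 2)) = (399 / 508) ^ 2 by norm_num, Real.sqrt_sq (by norm_num)]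
  norm_num
theorem ctB : cT (181 / 397) = 431 / 794 := by
  unfold cT
  rw [show (3 / 4 * (1 - (181 / 397 : ℝ) ^ 2)) = (306 / 397) ^ 2 by norm_num, Real.sqrt_sq (by norm_num)]
  norm_num
theorem kgA {x : ℝ} : kcg.v (107 / 254) x = (1212450433 / 1000000000 + (x - 153 / 160) * (201666237 / 100000000)) := by
  rw [kcl16 (by norm_num) (by norm_num)]
  ring
theorem kgB {x : ℝ} : kcg.v (181 / 397) x = (1275579683 / 1000000000 + (x - 153 / 160) * (23977019 / 6250000)) := by
  rw [kcl17 (by norm_num) (by norm_num)]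
  ring
theorem ka_dt1 (x : ℝ) : dt1.kv (-1 / 2) x = (-843209179 / 1000000000 + (x - 153 / 160) * (59251089 / 50000000)) := by
  simp only [dt1, DT.kv, sw1, sl1, sv1]
  ((try push_cast); ring1)
theorem kb_dt1 (x : ℝ) : dt1.kv (-242653 / 500000) x = (-509205123 / 500000000 + (x - 153 / 160) * (-48940333 / 50000000)) := by
  simp only [dt1, DT.kv, sw1, sl1, sv1]
  ((try push_cast); ring1)
theorem ka_dt2 (x : ℝ) : dt2.kv (-242653 / 500000) x = (-509205123 / 500000000 + (x - 153 / 160) * (-48940333 / 50000000)) := by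
  simp only [dt2, DT.kv, sw2, sl2, sv2]
  ((try push_cast); ring1)
theorem kb_dt2 (x : ℝ) : dt2.kv (-470613 / 1000000) x = (-1193608151 / 1000000000 + (x - 153 / 160) * (-314122343 / 100000000)) := by
  simp only [dt2, DT.kv, sw2, sl2, sv2]
  ((try push_cast); ring1)
theorem ka_dt22 (x : ℝ) : dt22.kv (-1 / 2) x = (-843209179 / 1000000000 + (x - 153 / 160) * (59251089 / 50000000)) :=
  (DT.kv_le (by simp only [Cn.rt_v, Cn.ng_v]; norm_num)).trans (ka_dt1 x)
theorem kb_dt22 (x : ℝ) : dt22.kv (-470613 / 1000000) x = (-1193608151 / 1000000000 + (x - 153 / 160) * (-314122343 / 100000000)) :=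
  (DT.kv_gt (by simp only [Cn.rt_v, Cn.ng_v]; norm_num)).trans (kb_dt2 x)
theorem ka_dt3 (x : ℝ) : dt3.kv (-470613 / 1000000) x = (-1193608151 / 1000000000 + (x - 153 / 160) * (-314122343 / 100000000)) := by
  simp only [dt3, DT.kv, sw3, sl3, sv3]
  ((try push_cast); ring1)
theorem kb_dt3 (x : ℝ) : dt3.kv (-181 / 397) x = (-1275579683 / 1000000000 + (x - 153 / 160) * (-23977019 / 6250000)) := by
  simp only [dt3, DT.kv, sw3, sl3, sv3]
  ((try push_cast); ring1)
theorem ka_dt4 (x : ℝ) : dt4.kv (-181 / 397) x = (-1275579683 / 1000000000 + (x - 153 / 160) * (-23977019 / 6250000)) := by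
  simp only [dt4, DT.kv, sw4, sl4, sv4]
  ((try push_cast); ring1)
theorem kb_dt4 (x : ℝ) : dt4.kv (-107 / 254) x = (-1212450433 / 1000000000 + (x - 153 / 160) * (-201666237 / 100000000)) := by
  simp only [dt4, DT.kv, sw4, sl4, sv4]
  ((try push_cast); ring1)
theorem ka_dt5 (x : ℝ) : dt5.kv (-107 / 254) x = (-1212450433 / 1000000000 + (x - 153 / 160) * (-201666237 / 100000000)) := by
  simp only [dt5, DT.kv, sw5, sl5, sv5]
  ((try push_cast); ring1)
theorem kb_dt5 (x : ℝ) : dt5.kv (-2 / 5) x = (-14390991 / 12500000 + (x - 153 / 160) * (-638537 / 625000)) := by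
  simp only [dt5, DT.kv, sw5, sl5, sv5]
  ((try push_cast); ring1)
theorem ka_dt23 (x : ℝ) : dt23.kv (-181 / 397) x = (-1275579683 / 1000000000 + (x - 153 / 160) * (-23977019 / 6250000)) :=
  (DT.kv_le (by simp only [Cn.rt_v, Cn.ng_v]; norm_num)).trans (ka_dt4 x)
theorem kb_dt23 (x : ℝ) : dt23.kv (-2 / 5) x = (-14390991 / 12500000 + (x - 153 / 160) * (-638537 / 625000)) :=
  (DT.kv_gt (by simp only [Cn.rt_v, Cn.ng_v]; norm_num)).trans (kb_dt5 x)
theorem ka_dt24 (x : ℝ) : dt24.kv (-470613 / 1000000) x = (-1193608151 / 1000000000 + (x - 153 / 160) * (-314122343 / 100000000)) :=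
  (DT.kv_le (by simp only [Cn.rt_v, Cn.ng_v]; norm_num)).trans (ka_dt3 x)
theorem kb_dt24 (x : ℝ) : dt24.kv (-2 / 5) x = (-14390991 / 12500000 + (x - 153 / 160) * (-638537 / 625000)) :=
  (DT.kv_gt (by simp only [Cn.rt_v, Cn.ng_v]; norm_num)).trans (kb_dt23 x)
theorem ka_dt25 (x : ℝ) : dt25.kv (-1 / 2) x = (-843209179 / 1000000000 + (x - 153 / 160) * (59251089 / 50000000)) :=
  (DT.kv_le (by simp only [Cn.rt_v, Cn.ng_v]; norm_num)).trans (ka_dt22 x)
theorem kb_dt25 (x : ℝ) : dt25.kv (-2 / 5) x = (-14390991 / 12500000 + (x - 153 / 160) * (-638537 / 625000)) :=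
  (DT.kv_gt (by simp only [Cn.rt_v, Cn.ng_v]; norm_num)).trans (kb_dt24 x)
theorem ka_dt6 (x : ℝ) : dt6.kv (-2 / 5) x = (-14390991 / 12500000 + (x - 153 / 160) * (-638537 / 625000)) := by
  simp only [dt6, DT.kv, sw6, sl6, sv6]
  ((try push_cast); ring1)
theorem kb_dt6 (x : ℝ) : dt6.kv (-9 / 25) x = (-1619013 / 1562500 + (x - 153 / 160) * (242103 / 1250000)) := by
  simp only [dt6, DT.kv, sw6, sl6, sv6]
  ((try push_cast); ring1)
theorem ka_dt7 (x : ℝ) : dt7.kv (-9 / 25) x = (-1619013 / 1562500 + (x - 153 / 160) * (242103 / 1250000)) := by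
  simp only [dt7, DT.kv, sw7, sl7, sv7]
  ((try push_cast); ring1)
theorem kb_dt7 (x : ℝ) : dt7.kv (-8 / 25) x = (-115131 / 125000 + (x - 153 / 160) * (172847 / 312500)) := by
  simp only [dt7, DT.kv, sw7, sl7, sv7]
  ((try push_cast); ring1)
theorem ka_dt26 (x : ℝ) : dt26.kv (-2 / 5) x = (-14390991 / 12500000 + (x - 153 / 160) * (-638537 / 625000)) :=
  (DT.kv_le (by simp only [Cn.rt_v, Cn.ng_v]; norm_num)).trans (ka_dt6 x)
theorem kb_dt26 (x : ℝ) : dt26.kv (-8 / 25) x = (-115131 / 125000 + (x - 153 / 160) * (172847 / 312500)) :=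
  (DT.kv_gt (by simp only [Cn.rt_v, Cn.ng_v]; norm_num)).trans (kb_dt7 x)
theorem ka_dt8 (x : ℝ) : dt8.kv (-8 / 25) x = (-115131 / 125000 + (x - 153 / 160) * (172847 / 312500)) := by
  simp only [dt8, DT.kv, sw8, sl8, sv8]
  ((try push_cast); ring1)
theorem kb_dt8 (x : ℝ) : dt8.kv (-6 / 25) x = (-4317469 / 6250000 + (x - 153 / 160) * (32512 / 78125)) := by
  simp only [dt8, DT.kv, sw8, sl8, sv8]
  ((try push_cast); ring1)
theorem ka_dt9 (x : ℝ) : dt9.kv (-6 / 25) x = (-4317469 / 6250000 + (x - 153 / 160) * (32512 / 78125)) := by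
  simp only [dt9, DT.kv, sw9, sl9, sv9]
  ((try push_cast); ring1)
theorem kb_dt9 (x : ℝ) : dt9.kv (-4 / 25) x = (-1439169 / 3125000 + (x - 153 / 160) * (21674 / 78125)) := by
  simp only [dt9, DT.kv, sw9, sl9, sv9]
  ((try push_cast); ring1)
theorem ka_dt10 (x : ℝ) : dt10.kv (-4 / 25) x = (-1439169 / 3125000 + (x - 153 / 160) * (21674 / 78125)) := by
  simp only [dt10, DT.kv, sw10, sl10, sv10]
  ((try push_cast); ring1)
theorem kb_dt10 (x : ℝ) : dt10.kv (-2 / 25) x = (-57567 / 250000 + (x - 153 / 160) * (4331 / 31250)) := by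
  simp only [dt10, DT.kv, sw10, sl10, sv10]
  ((try push_cast); ring1)
theorem ka_dt27 (x : ℝ) : dt27.kv (-6 / 25) x = (-4317469 / 6250000 + (x - 153 / 160) * (32512 / 78125)) :=
  (DT.kv_le (by simp only [Cn.rt_v, Cn.ng_v]; norm_num)).trans (ka_dt9 x)
theorem kb_dt27 (x : ℝ) : dt27.kv (-2 / 25) x = (-57567 / 250000 + (x - 153 / 160) * (4331 / 31250)) :=
  (DT.kv_gt (by simp only [Cn.rt_v, Cn.ng_v]; norm_num)).trans (kb_dt10 x)
theorem ka_dt28 (x : ℝ) : dt28.kv (-8 / 25) x = (-115131 / 125000 + (x - 153 / 160) * (172847 / 312500)) :=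
  (DT.kv_le (by simp only [Cn.rt_v, Cn.ng_v]; norm_num)).trans (ka_dt8 x)
theorem kb_dt28 (x : ℝ) : dt28.kv (-2 / 25) x = (-57567 / 250000 + (x - 153 / 160) * (4331 / 31250)) :=
  (DT.kv_gt (by simp only [Cn.rt_v, Cn.ng_v]; norm_num)).trans (kb_dt27 x)
theorem ka_dt29 (x : ℝ) : dt29.kv (-2 / 5) x = (-14390991 / 12500000 + (x - 153 / 160) * (-638537 / 625000)) :=
  (DT.kv_le (by simp only [Cn.rt_v, Cn.ng_v]; norm_num)).trans (ka_dt26 x)
theorem kb_dt29 (x : ℝ) : dt29.kv (-2 / 25) x = (-57567 / 250000 + (x - 153 / 160) * (4331 / 31250)) :=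
  (DT.kv_gt (by simp only [Cn.rt_v, Cn.ng_v]; norm_num)).trans (kb_dt28 x)
theorem ka_dt30 (x : ℝ) : dt30.kv (-1 / 2) x = (-843209179 / 1000000000 + (x - 153 / 160) * (59251089 / 50000000)) :=
  (DT.kv_le (by simp only [Cn.rt_v, Cn.ng_v]; norm_num)).trans (ka_dt25 x)
theorem kb_dt30 (x : ℝ) : dt30.kv (-2 / 25) x = (-57567 / 250000 + (x - 153 / 160) * (4331 / 31250)) :=
  (DT.kv_gt (by simp only [Cn.rt_v, Cn.ng_v]; norm_num)).trans (kb_dt29 x)
theorem ka_dt11 (x : ℝ) : dt11.kv (-2 / 25) x = (-57567 / 250000 + (x - 153 / 160) * (4331 / 31250)) := by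
  simp only [dt11, DT.kv, sl11, sv11]
  ((try push_cast); ring1)
theorem kb_dt11 (x : ℝ) : dt11.kv (2 / 25) x = (57567 / 250000 + (x - 153 / 160) * (-4331 / 31250)) := by
  simp only [dt11, DT.kv, sl11, sv11]
  ((try push_cast); ring1)
theorem ka_dt12 (x : ℝ) : dt12.kv (2 / 25) x = (57567 / 250000 + (x - 153 / 160) * (-4331 / 31250)) := by
  simp only [dt12, DT.kv, sw12, sl12, sv12]
  ((try push_cast); ring1)
theorem kb_dt12 (x : ℝ) : dt12.kv (4 / 25) x = (1439169 / 3125000 + (x - 153 / 160) * (-21674 / 78125)) := by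
  simp only [dt12, DT.kv, sw12, sl12, sv12]
  ((try push_cast); ring1)
theorem ka_dt31 (x : ℝ) : dt31.kv (-2 / 25) x = (-57567 / 250000 + (x - 153 / 160) * (4331 / 31250)) :=
  (DT.kv_le (by simp only [Cn.rt_v, Cn.ng_v]; norm_num)).trans (ka_dt11 x)
theorem kb_dt31 (x : ℝ) : dt31.kv (4 / 25) x = (1439169 / 3125000 + (x - 153 / 160) * (-21674 / 78125)) :=
  (DT.kv_gt (by simp only [Cn.rt_v, Cn.ng_v]; norm_num)).trans (kb_dt12 x)
theorem ka_dt13 (x : ℝ) : dt13.kv (4 / 25) x = (1439169 / 3125000 + (x - 153 / 160) * (-21674 / 78125)) := by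
  simp only [dt13, DT.kv, sw13, sl13, sv13]
  ((try push_cast); ring1)
theorem kb_dt13 (x : ℝ) : dt13.kv (6 / 25) x = (4317469 / 6250000 + (x - 153 / 160) * (-32512 / 78125)) := by
  simp only [dt13, DT.kv, sw13, sl13, sv13]
  ((try push_cast); ring1)
theorem ka_dt14 (x : ℝ) : dt14.kv (6 / 25) x = (4317469 / 6250000 + (x - 153 / 160) * (-32512 / 78125)) := by
  simp only [dt14, DT.kv, sw14, sl14, sv14]
  ((try push_cast); ring1)
theorem kb_dt14 (x : ℝ) : dt14.kv (8 / 25) x = (115131 / 125000 + (x - 153 / 160) * (-172847 / 312500)) := by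
  simp only [dt14, DT.kv, sw14, sl14, sv14]
  ((try push_cast); ring1)
theorem ka_dt15 (x : ℝ) : dt15.kv (8 / 25) x = (115131 / 125000 + (x - 153 / 160) * (-172847 / 312500)) := by
  simp only [dt15, DT.kv, sw15, sl15, sv15]
  ((try push_cast); ring1)
theorem kb_dt15 (x : ℝ) : dt15.kv (9 / 25) x = (1619013 / 1562500 + (x - 153 / 160) * (-242103 / 1250000)) := by
  simp only [dt15, DT.kv, sw15, sl15, sv15]
  ((try push_cast); ring1)
theorem ka_dt32 (x : ℝ) : dt32.kv (6 / 25) x = (4317469 / 6250000 + (x - 153 / 160) * (-32512 / 78125)) :=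
  (DT.kv_le (by simp only [Cn.rt_v, Cn.ng_v]; norm_num)).trans (ka_dt14 x)
theorem kb_dt32 (x : ℝ) : dt32.kv (9 / 25) x = (1619013 / 1562500 + (x - 153 / 160) * (-242103 / 1250000)) :=
  (DT.kv_gt (by simp only [Cn.rt_v, Cn.ng_v]; norm_num)).trans (kb_dt15 x)
theorem ka_dt33 (x : ℝ) : dt33.kv (4 / 25) x = (1439169 / 3125000 + (x - 153 / 160) * (-21674 / 78125)) :=
  (DT.kv_le (by simp only [Cn.rt_v, Cn.ng_v]; norm_num)).trans (ka_dt13 x)
theorem kb_dt33 (x : ℝ) : dt33.kv (9 / 25) x = (1619013 / 1562500 + (x - 153 / 160) * (-242103 / 1250000)) :=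
  (DT.kv_gt (by simp only [Cn.rt_v, Cn.ng_v]; norm_num)).trans (kb_dt32 x)
theorem ka_dt34 (x : ℝ) : dt34.kv (-2 / 25) x = (-57567 / 250000 + (x - 153 / 160) * (4331 / 31250)) :=
  (DT.kv_le (by simp only [Cn.rt_v, Cn.ng_v]; norm_num)).trans (ka_dt31 x)
theorem kb_dt34 (x : ℝ) : dt34.kv (9 / 25) x = (1619013 / 1562500 + (x - 153 / 160) * (-242103 / 1250000)) :=
  (DT.kv_gt (by simp only [Cn.rt_v, Cn.ng_v]; norm_num)).trans (kb_dt33 x)
theorem ka_dt16 (x : ℝ) : dt16.kv (9 / 25) x = (1619013 / 1562500 + (x - 153 / 160) * (-242103 / 1250000)) := by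
  simp only [dt16, DT.kv, sw16, sl16, sv16]
  ((try push_cast); ring1)
theorem kb_dt16 (x : ℝ) : dt16.kv (2 / 5) x = (14390991 / 12500000 + (x - 153 / 160) * (638537 / 625000)) := by
  simp only [dt16, DT.kv, sw16, sl16, sv16]
  ((try push_cast); ring1)
theorem ka_dt17 (x : ℝ) : dt17.kv (2 / 5) x = (14390991 / 12500000 + (x - 153 / 160) * (638537 / 625000)) := by
  simp only [dt17, DT.kv, sw17, sl17, sv17]
  ((try push_cast); ring1)
theorem kb_dt17 (x : ℝ) : dt17.kv (107 / 254) x = (1212450433 / 1000000000 + (x - 153 / 160) * (201666237 / 100000000)) := by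
  simp only [dt17, DT.kv, sw17, sl17, sv17]
  ((try push_cast); ring1)
theorem ka_dt18 (x : ℝ) : dt18.kv (107 / 254) x = (1212450433 / 1000000000 + (x - 153 / 160) * (201666237 / 100000000)) := by
  simp only [dt18, DT.kv, sw18, sl18, sv18]
  ((try push_cast); ring1)
theorem kb_dt18 (x : ℝ) : dt18.kv (181 / 397) x = (1275579683 / 1000000000 + (x - 153 / 160) * (23977019 / 6250000)) := by
  simp only [dt18, DT.kv, sw18, sl18, sv18]
  ((try push_cast); ring1)
theorem ka_dt35 (x : ℝ) : dt35.kv (2 / 5) x = (14390991 / 12500000 + (x - 153 / 160) * (638537 / 625000)) :=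
  (DT.kv_le (by simp only [Cn.rt_v, Cn.ng_v]; norm_num)).trans (ka_dt17 x)
theorem kb_dt35 (x : ℝ) : dt35.kv (181 / 397) x = (1275579683 / 1000000000 + (x - 153 / 160) * (23977019 / 6250000)) :=
  (DT.kv_gt (by simp only [Cn.rt_v, Cn.ng_v]; norm_num)).trans (kb_dt18 x)
theorem ka_dt36 (x : ℝ) : dt36.kv (9 / 25) x = (1619013 / 1562500 + (x - 153 / 160) * (-242103 / 1250000)) :=
  (DT.kv_le (by simp only [Cn.rt_v, Cn.ng_v]; norm_num)).trans (ka_dt16 x)
theorem kb_dt36 (x : ℝ) : dt36.kv (181 / 397) x = (1275579683 / 1000000000 + (x - 153 / 160) * (23977019 / 6250000)) :=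
  (DT.kv_gt (by simp only [Cn.rt_v, Cn.ng_v]; norm_num)).trans (kb_dt35 x)
theorem ka_dt19 (x : ℝ) : dt19.kv (181 / 397) x = (1275579683 / 1000000000 + (x - 153 / 160) * (23977019 / 6250000)) := by
  simp only [dt19, DT.kv, sw19, sl19, sv19]
  ((try push_cast); ring1)
theorem kb_dt19 (x : ℝ) : dt19.kv (470613 / 1000000) x = (1193608151 / 1000000000 + (x - 153 / 160) * (314122343 / 100000000)) := by
  simp only [dt19, DT.kv, sw19, sl19, sv19]
  ((try push_cast); ring1)
theorem ka_dt20 (x : ℝ) : dt20.kv (470613 / 1000000) x = (1193608151 / 1000000000 + (x - 153 / 160) * (314122343 / 100000000)) := by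
  simp only [dt20, DT.kv, sw20, sl20, sv20]
  ((try push_cast); ring1)
theorem kb_dt20 (x : ℝ) : dt20.kv (242653 / 500000) x = (509205123 / 500000000 + (x - 153 / 160) * (48940333 / 50000000)) := by
  simp only [dt20, DT.kv, sw20, sl20, sv20]
  ((try push_cast); ring1)
theorem ka_dt21 (x : ℝ) : dt21.kv (242653 / 500000) x = (509205123 / 500000000 + (x - 153 / 160) * (48940333 / 50000000)) := by
  simp only [dt21, DT.kv, sw21, sl21, sv21]
  ((try push_cast); ring1)
theorem kb_dt21 (x : ℝ) : dt21.kv (1 / 2) x = (843209179 / 1000000000 + (x - 153 / 160) * (-59251089 / 50000000)) := by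
  simp only [dt21, DT.kv, sw21, sl21, sv21]
  ((try push_cast); ring1)
theorem ka_dt37 (x : ℝ) : dt37.kv (470613 / 1000000) x = (1193608151 / 1000000000 + (x - 153 / 160) * (314122343 / 100000000)) :=
  (DT.kv_le (by simp only [Cn.rt_v, Cn.ng_v]; norm_num)).trans (ka_dt20 x)
theorem kb_dt37 (x : ℝ) : dt37.kv (1 / 2) x = (843209179 / 1000000000 + (x - 153 / 160) * (-59251089 / 50000000)) :=
  (DT.kv_gt (by simp only [Cn.rt_v, Cn.ng_v]; norm_num)).trans (kb_dt21 x)
theorem ka_dt38 (x : ℝ) : dt38.kv (181 / 397) x = (1275579683 / 1000000000 + (x - 153 / 160) * (23977019 / 6250000)) :=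
  (DT.kv_le (by simp only [Cn.rt_v, Cn.ng_v]; norm_num)).trans (ka_dt19 x)
theorem kb_dt38 (x : ℝ) : dt38.kv (1 / 2) x = (843209179 / 1000000000 + (x - 153 / 160) * (-59251089 / 50000000)) :=
  (DT.kv_gt (by simp only [Cn.rt_v, Cn.ng_v]; norm_num)).trans (kb_dt37 x)
theorem ka_dt39 (x : ℝ) : dt39.kv (9 / 25) x = (1619013 / 1562500 + (x - 153 / 160) * (-242103 / 1250000)) :=
  (DT.kv_le (by simp only [Cn.rt_v, Cn.ng_v]; norm_num)).trans (ka_dt36 x)
theorem kb_dt39 (x : ℝ) : dt39.kv (1 / 2) x = (843209179 / 1000000000 + (x - 153 / 160) * (-59251089 / 50000000)) :=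
  (DT.kv_gt (by simp only [Cn.rt_v, Cn.ng_v]; norm_num)).trans (kb_dt38 x)
theorem ka_dt40 (x : ℝ) : dt40.kv (-2 / 25) x = (-57567 / 250000 + (x - 153 / 160) * (4331 / 31250)) :=
  (DT.kv_le (by simp only [Cn.rt_v, Cn.ng_v]; norm_num)).trans (ka_dt34 x)
theorem kb_dt40 (x : ℝ) : dt40.kv (1 / 2) x = (843209179 / 1000000000 + (x - 153 / 160) * (-59251089 / 50000000)) :=
  (DT.kv_gt (by simp only [Cn.rt_v, Cn.ng_v]; norm_num)).trans (kb_dt39 x)
theorem ka_dt41 (x : ℝ) : dt41.kv (-1 / 2) x = (-843209179 / 1000000000 + (x - 153 / 160) * (59251089 / 50000000)) :=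
  (DT.kv_le (by simp only [Cn.rt_v, Cn.ng_v]; norm_num)).trans (ka_dt30 x)
theorem kb_dt41 (x : ℝ) : dt41.kv (1 / 2) x = (843209179 / 1000000000 + (x - 153 / 160) * (-59251089 / 50000000)) :=
  (DT.kv_gt (by simp only [Cn.rt_v, Cn.ng_v]; norm_num)).trans (kb_dt40 x)
theorem ko_dt1 (x : ℝ) : dt1.KOk x := trivial
theorem ko_dt2 (x : ℝ) : dt2.KOk x := trivial
theorem ko_dt22 (x : ℝ) : dt22.KOk x :=
  DT.kOk_node (v := -242653 / 500000) (by simp only [Cn.rt_v, Cn.ng_v]; norm_num) (kb_dt1 x) (ka_dt2 x) (by ring1) (ko_dt1 x) (ko_dt2 x)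
theorem ko_dt3 (x : ℝ) : dt3.KOk x := trivial
theorem ko_dt4 (x : ℝ) : dt4.KOk x := trivial
theorem ko_dt5 (x : ℝ) : dt5.KOk x := trivial
theorem ko_dt23 (x : ℝ) : dt23.KOk x :=
  DT.kOk_node (v := -107 / 254) (by simp only [Cn.rt_v, Cn.ng_v]; norm_num) (kb_dt4 x) (ka_dt5 x) (by ring1) (ko_dt4 x) (ko_dt5 x)
theorem ko_dt24 (x : ℝ) : dt24.KOk x :=
  DT.kOk_node (v := -181 / 397) (by simp only [Cn.rt_v, Cn.ng_v]; norm_num) (kb_dt3 x) (ka_dt23 x) (by ring1) (ko_dt3 x) (ko_dt23 x)
theorem ko_dt25 (x : ℝ) : dt25.KOk x :=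
  DT.kOk_node (v := -470613 / 1000000) (by simp only [Cn.rt_v, Cn.ng_v]; norm_num) (kb_dt22 x) (ka_dt24 x) (by ring1) (ko_dt22 x) (ko_dt24 x)
theorem ko_dt6 (x : ℝ) : dt6.KOk x := trivial
theorem ko_dt7 (x : ℝ) : dt7.KOk x := trivial
theorem ko_dt26 (x : ℝ) : dt26.KOk x :=
  DT.kOk_node (v := -9 / 25) (by simp only [Cn.rt_v, Cn.ng_v]; norm_num) (kb_dt6 x) (ka_dt7 x) (by ring1) (ko_dt6 x) (ko_dt7 x)
theorem ko_dt8 (x : ℝ) : dt8.KOk x := trivial
theorem ko_dt9 (x : ℝ) : dt9.KOk x := trivial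
theorem ko_dt10 (x : ℝ) : dt10.KOk x := trivial
theorem ko_dt27 (x : ℝ) : dt27.KOk x :=
  DT.kOk_node (v := -4 / 25) (by simp only [Cn.rt_v, Cn.ng_v]; norm_num) (kb_dt9 x) (ka_dt10 x) (by ring1) (ko_dt9 x) (ko_dt10 x)
theorem ko_dt28 (x : ℝ) : dt28.KOk x :=
  DT.kOk_node (v := -6 / 25) (by simp only [Cn.rt_v, Cn.ng_v]; norm_num) (kb_dt8 x) (ka_dt27 x) (by ring1) (ko_dt8 x) (ko_dt27 x)
theorem ko_dt29 (x : ℝ) : dt29.KOk x :=
  DT.kOk_node (v := -8 / 25) (by simp only [Cn.rt_v, Cn.ng_v]; norm_num) (kb_dt26 x) (ka_dt28 x) (by ring1) (ko_dt26 x) (ko_dt28 x)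
theorem ko_dt30 (x : ℝ) : dt30.KOk x :=
  DT.kOk_node (v := -2 / 5) (by simp only [Cn.rt_v, Cn.ng_v]; norm_num) (kb_dt25 x) (ka_dt29 x) (by ring1) (ko_dt25 x) (ko_dt29 x)
theorem ko_dt11 (x : ℝ) : dt11.KOk x := trivial
theorem ko_dt12 (x : ℝ) : dt12.KOk x := trivial
theorem ko_dt31 (x : ℝ) : dt31.KOk x :=
  DT.kOk_node (v := 2 / 25) (by simp only [Cn.rt_v, Cn.ng_v]; norm_num) (kb_dt11 x) (ka_dt12 x) (by ring1) (ko_dt11 x) (ko_dt12 x)
theorem ko_dt13 (x : ℝ) : dt13.KOk x := trivial
theorem ko_dt14 (x : ℝ) : dt14.KOk x := trivial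
theorem ko_dt15 (x : ℝ) : dt15.KOk x := trivial
theorem ko_dt32 (x : ℝ) : dt32.KOk x :=
  DT.kOk_node (v := 8 / 25) (by simp only [Cn.rt_v, Cn.ng_v]; norm_num) (kb_dt14 x) (ka_dt15 x) (by ring1) (ko_dt14 x) (ko_dt15 x)
theorem ko_dt33 (x : ℝ) : dt33.KOk x :=
  DT.kOk_node (v := 6 / 25) (by simp only [Cn.rt_v, Cn.ng_v]; norm_num) (kb_dt13 x) (ka_dt32 x) (by ring1) (ko_dt13 x) (ko_dt32 x)
theorem ko_dt34 (x : ℝ) : dt34.KOk x :=
  DT.kOk_node (v := 4 / 25) (by simp only [Cn.rt_v, Cn.ng_v]; norm_num) (kb_dt31 x) (ka_dt33 x) (by ring1) (ko_dt31 x) (ko_dt33 x)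
theorem ko_dt16 (x : ℝ) : dt16.KOk x := trivial
theorem ko_dt17 (x : ℝ) : dt17.KOk x := trivial
theorem ko_dt18 (x : ℝ) : dt18.KOk x := trivial
theorem ko_dt35 (x : ℝ) : dt35.KOk x :=
  DT.kOk_node (v := 107 / 254) (by simp only [Cn.rt_v, Cn.ng_v]; norm_num) (kb_dt17 x) (ka_dt18 x) (by ring1) (ko_dt17 x) (ko_dt18 x)
theorem ko_dt36 (x : ℝ) : dt36.KOk x :=
  DT.kOk_node (v := 2 / 5) (by simp only [Cn.rt_v, Cn.ng_v]; norm_num) (kb_dt16 x) (ka_dt35 x) (by ring1) (ko_dt16 x) (ko_dt35 x)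
theorem ko_dt19 (x : ℝ) : dt19.KOk x := trivial
theorem ko_dt20 (x : ℝ) : dt20.KOk x := trivial
theorem ko_dt21 (x : ℝ) : dt21.KOk x := trivial
theorem ko_dt37 (x : ℝ) : dt37.KOk x :=
  DT.kOk_node (v := 242653 / 500000) (by simp only [Cn.rt_v, Cn.ng_v]; norm_num) (kb_dt20 x) (ka_dt21 x) (by ring1) (ko_dt20 x) (ko_dt21 x)
theorem ko_dt38 (x : ℝ) : dt38.KOk x :=
  DT.kOk_node (v := 470613 / 1000000) (by simp only [Cn.rt_v, Cn.ng_v]; norm_num) (kb_dt19 x) (ka_dt37 x) (by ring1) (ko_dt19 x) (ko_dt37 x)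
theorem ko_dt39 (x : ℝ) : dt39.KOk x :=
  DT.kOk_node (v := 181 / 397) (by simp only [Cn.rt_v, Cn.ng_v]; norm_num) (kb_dt36 x) (ka_dt38 x) (by ring1) (ko_dt36 x) (ko_dt38 x)
theorem ko_dt40 (x : ℝ) : dt40.KOk x :=
  DT.kOk_node (v := 9 / 25) (by simp only [Cn.rt_v, Cn.ng_v]; norm_num) (kb_dt34 x) (ka_dt39 x) (by ring1) (ko_dt34 x) (ko_dt39 x)
theorem ko_dt41 (x : ℝ) : dt41.KOk x :=
  DT.kOk_node (v := -2 / 25) (by simp only [Cn.rt_v, Cn.ng_v]; norm_num) (kb_dt30 x) (ka_dt40 x) (by ring1) (ko_dt30 x) (ko_dt40 x)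
theorem txl0 {p c x : ℝ} (h1 : -1 / 2 ≤ p) (h2 : p ≤ -242653 / 500000) : txg.v p c x = dt90.val (fun p x => kcg.v p x) p c x := by
  symm
  refine (DT.val_le (by simp only [Cn.rt_v, Cn.ng_v]; push_cast; linarith)).trans ?_
  refine (DT.val_le (by simp only [Cn.rt_v, Cn.ng_v]; push_cast; linarith)).trans ?_
  refine (DT.val_le (by simp only [Cn.rt_v, Cn.ng_v]; push_cast; linarith)).trans ?_
  refine (DT.val_le (by simp only [Cn.rt_v, Cn.ng_v]; push_cast; linarith)).trans ?_
  simp only [dt42, DT.val, cloR, sw42, sl42, sv42, txg, txg_4, txg_6, txg_26, txg_29, txg_32, txg_35, txg_50, txg_53, txg_54, txg_70, txg_71, txg_79, txg_91, txg_92, txg_99, txg_113, txg_114, txg_133, txg_134, txg_144, txg_147, txg_162, txg_163, txg_180, txg_181, txg_189, txg_201, txg_202, txg_209, txg_221, txg_222, txg_238, txg_239, txg_248, txg_251, txg_254, txg_266, txg_267, txg_283, txg_284, txg_290, txg_302, txg_303, txg_308, txg_322, txg_323, txg_341, txg_342, txg_350, txg_351, txg_365,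 txg_366, txg_371, txg_385, txg_386, txg_406, txg_407, txg_414, txg_430, txg_431, txg_436, txg_453, txg_454, txg_473, txg_484, txg_485, txg_496, txg_497, txg_522, txg_523, txg_528, txg_542, txg_543, txg_564, txg_565]
  rcases eq_or_lt_of_le h1 with h | h1
  · subst h
    ((try push_cast); (repeat first | rw [if_pos (by linarith)] | rw [if_neg (by linarith)] | erw [if_pos (by linarith)] | erw [if_neg (by linarith)]); (try push_cast); (try ring1))
  rcases eq_or_lt_of_le h2 with h | h2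
  · subst h
    ((try push_cast); (repeat first | rw [if_pos (by linarith)] | rw [if_neg (by linarith)] | erw [if_pos (by linarith)] | erw [if_neg (by linarith)]); (try push_cast); (try ring1))
  · ((try push_cast); (repeat first | rw [if_pos (by linarith)] | rw [if_neg (by linarith)] | erw [if_pos (by linarith)] | erw [if_neg (by linarith)]); (try push_cast); (try ring1))
theorem txl1 {p c x : ℝ} (h1 : -242653 / 500000 < p) (h2 : p ≤ -470613 / 1000000) : txg.v p c x = dt90.val (fun p x => kcg.v p x) p c x := by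
  symm
  refine (DT.val_le (by simp only [Cn.rt_v, Cn.ng_v]; push_cast; linarith)).trans ?_
  refine (DT.val_le (by simp only [Cn.rt_v, Cn.ng_v]; push_cast; linarith)).trans ?_
  refine (DT.val_le (by simp only [Cn.rt_v, Cn.ng_v]; push_cast; linarith)).trans ?_
  refine (DT.val_gt (by simp only [Cn.rt_v, Cn.ng_v]; push_cast; linarith)).trans ?_
  refine (DT.val_le (by simp only [Cn.rt_v, Cn.ng_v]; push_cast; linarith)).trans ?_
  simp only [dt43, DT.val, cloR, sw43, sl43, sv43, txg, txg_4, txg_6, txg_26, txg_29, txg_32, txg_35, txg_50, txg_53, txg_54, txg_70, txg_71, txg_79, txg_91, txg_92, txg_99, txg_113, txg_114, txg_133, txg_134, txg_144, txg_147, txg_162, txg_163, txg_180, txg_181, txg_189, txg_201, txg_202, txg_209, txg_221, txg_222, txg_238, txg_239, txg_248, txg_251, txg_254, txg_266, txg_267, txg_283, txg_284, txg_290, txg_302, txg_303, txg_308, txg_322, txg_323, txg_341, txg_342, txg_350, txg_351, txg_365, txg_366, txg_371, txg_385, txg_386, txg_406,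 txg_407, txg_414, txg_430, txg_431, txg_436, txg_453, txg_454, txg_473, txg_484, txg_485, txg_496, txg_497, txg_522, txg_523, txg_528, txg_542, txg_543, txg_564, txg_565]
  rcases eq_or_lt_of_le h2 with h | h2
  · subst h
    ((try push_cast); (repeat first | rw [if_pos (by linarith)] | rw [if_neg (by linarith)] | erw [if_pos (by linarith)] | erw [if_neg (by linarith)]); (try push_cast); (try ring1))
  · ((try push_cast); (repeat first | rw [if_pos (by linarith)] | rw [if_neg (by linarith)] | erw [if_pos (by linarith)] | erw [if_neg (by linarith)]); (try push_cast); (try ring1))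
theorem txl2 {p c x : ℝ} (h1 : -470613 / 1000000 < p) (h2 : p ≤ -23 / 50) : txg.v p c x = dt90.val (fun p x => kcg.v p x) p c x := by
  symm
  refine (DT.val_le (by simp only [Cn.rt_v, Cn.ng_v]; push_cast; linarith)).trans ?_
  refine (DT.val_le (by simp only [Cn.rt_v, Cn.ng_v]; push_cast; linarith)).trans ?_
  refine (DT.val_le (by simp only [Cn.rt_v, Cn.ng_v]; push_cast; linarith)).trans ?_
  refine (DT.val_gt (by simp only [Cn.rt_v, Cn.ng_v]; push_cast; linarith)).trans ?_
  refine (DT.val_gt (by simp only [Cn.rt_v, Cn.ng_v]; push_cast; linarith)).trans ?_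
  simp only [dt44, DT.val, cloR, sw44, sl44, sv44, txg, txg_4, txg_6, txg_26, txg_29, txg_32, txg_35, txg_50, txg_53, txg_54, txg_70, txg_71, txg_79, txg_91, txg_92, txg_99, txg_113, txg_114, txg_133, txg_134, txg_144, txg_147, txg_162, txg_163, txg_180, txg_181, txg_189, txg_201, txg_202, txg_209, txg_221, txg_222, txg_238, txg_239, txg_248, txg_251, txg_254, txg_266, txg_267, txg_283, txg_284, txg_290, txg_302, txg_303, txg_308, txg_322, txg_323, txg_341, txg_342, txg_350, txg_351, txg_365, txg_366, txg_371, txg_385, txg_386, txg_406, txg_407, txg_414, txg_430, txg_431, txg_436, txg_453, txg_454, txg_473, txg_484, txg_485, txg_496, txg_497, txg_522, txg_523, txg_528, txg_542, txg_543, txg_564, txg_565]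
  rcases eq_or_lt_of_le h2 with h | h2
  · subst h
    ((try push_cast); (repeat first | rw [if_pos (by linarith)] | rw [if_neg (by linarith)] | erw [if_pos (by linarith)] | erw [if_neg (by linarith)]); (try push_cast); (try ring1))
  · ((try push_cast); (repeat first | rw [if_pos (by linarith)] | rw [if_neg (by linarith)] | erw [if_pos (by linarith)] | erw [if_neg (by linarith)]); (try push_cast); (try ring1))
theorem txl3 {p c x : ℝ} (h1 : -23 / 50 < p) (h2 : p ≤ -43 / 100) : txg.v p c x = dt90.val (fun p x => kcg.v p x) p c x := by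
  symm
  refine (DT.val_le (by simp only [Cn.rt_v, Cn.ng_v]; push_cast; linarith)).trans ?_
  refine (DT.val_le (by simp only [Cn.rt_v, Cn.ng_v]; push_cast; linarith)).trans ?_
  refine (DT.val_gt (by simp only [Cn.rt_v, Cn.ng_v]; push_cast; linarith)).trans ?_
  refine (DT.val_le (by simp only [Cn.rt_v, Cn.ng_v]; push_cast; linarith)).trans ?_
  simp only [dt45, DT.val, cloR, sw45, sl45, sv45, txg, txg_4, txg_6, txg_26, txg_29, txg_32, txg_35, txg_50, txg_53, txg_54, txg_70, txg_71, txg_79, txg_91, txg_92, txg_99, txg_113, txg_114, txg_133, txg_134, txg_144, txg_147, txg_162, txg_163, txg_180, txg_181, txg_189, txg_201, txg_202, txg_209, txg_221, txg_222, txg_238, txg_239, txg_248, txg_251, txg_254, txg_266, txg_267, txg_283, txg_284, txg_290, txg_302, txg_303, txg_308, txg_322, txg_323, txg_341, txg_342, txg_350, txg_351, txg_365, txg_366, txg_371, txg_385, txg_386, txg_406, txg_407, txg_414, txg_430, txg_431, txg_436, txg_453, txg_454, txg_473, txg_484, txg_485,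 txg_496, txg_497, txg_522, txg_523, txg_528, txg_542, txg_543, txg_564, txg_565]
  rcases eq_or_lt_of_le h2 with h | h2
  · subst h
    ((try push_cast); (repeat first | rw [if_pos (by linarith)] | rw [if_neg (by linarith)] | erw [if_pos (by linarith)] | erw [if_neg (by linarith)]); (try push_cast); (try ring1))
  · ((try push_cast); (repeat first | rw [if_pos (by linarith)] | rw [if_neg (by linarith)] | erw [if_pos (by linarith)] | erw [if_neg (by linarith)]); (try push_cast); (try ring1))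
theorem txl4 {p c x : ℝ} (h1 : -43 / 100 < p) (h2 : p ≤ -2 / 5) : txg.v p c x = dt90.val (fun p x => kcg.v p x) p c x := by
  symm
  refine (DT.val_le (by simp only [Cn.rt_v, Cn.ng_v]; push_cast; linarith)).trans ?_
  refine (DT.val_le (by simp only [Cn.rt_v, Cn.ng_v]; push_cast; linarith)).trans ?_
  refine (DT.val_gt (by simp only [Cn.rt_v, Cn.ng_v]; push_cast; linarith)).trans ?_
  refine (DT.val_gt (by simp only [Cn.rt_v, Cn.ng_v]; push_cast; linarith)).trans ?_
  refine (DT.val_le (by simp only [Cn.rt_v, Cn.ng_v]; push_cast; linarith)).trans ?_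
  simp only [dt46, DT.val, cloR, sw46, sl46, sv46, txg, txg_4, txg_6, txg_26, txg_29, txg_32, txg_35, txg_50, txg_53, txg_54, txg_70, txg_71, txg_79, txg_91, txg_92, txg_99, txg_113, txg_114, txg_133, txg_134, txg_144, txg_147, txg_162, txg_163, txg_180, txg_181, txg_189, txg_201, txg_202, txg_209, txg_221, txg_222, txg_238, txg_239, txg_248, txg_251, txg_254, txg_266, txg_267, txg_283, txg_284, txg_290, txg_302, txg_303, txg_308, txg_322, txg_323, txg_341, txg_342, txg_350, txg_351, txg_365, txg_366, txg_371, txg_385, txg_386, txg_406, txg_407, txg_414, txg_430, txg_431, txg_436, txg_453, txg_454, txg_473, txg_484, txg_485, txg_496, txg_497, txg_522, txg_523, txg_528, txg_542, txg_543, txg_564, txg_565]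
  rcases eq_or_lt_of_le h2 with h | h2
  · subst h
    ((try push_cast); (repeat first | rw [if_pos (by linarith)] | rw [if_neg (by linarith)] | erw [if_pos (by linarith)] | erw [if_neg (by linarith)]); (try push_cast); (try ring1))
  · ((try push_cast); (repeat first | rw [if_pos (by linarith)] | rw [if_neg (by linarith)] | erw [if_pos (by linarith)] | erw [if_neg (by linarith)]); (try push_cast); (try ring1))
theorem txl5 {p c x : ℝ} (h1 : -2 / 5 < p) (h2 : p ≤ -9 / 25) : txg.v p c x = dt90.val (fun p x => kcg.v p x) p c x := by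
  symm
  refine (DT.val_le (by simp only [Cn.rt_v, Cn.ng_v]; push_cast; linarith)).trans ?_
  refine (DT.val_le (by simp only [Cn.rt_v, Cn.ng_v]; push_cast; linarith)).trans ?_
  refine (DT.val_gt (by simp only [Cn.rt_v, Cn.ng_v]; push_cast; linarith)).trans ?_
  refine (DT.val_gt (by simp only [Cn.rt_v, Cn.ng_v]; push_cast; linarith)).trans ?_
  refine (DT.val_gt (by simp only [Cn.rt_v, Cn.ng_v]; push_cast; linarith)).trans ?_
  simp only [dt47, DT.val, cloR, sw47, sl47, sv47, txg, txg_4, txg_6, txg_26, txg_29, txg_32, txg_35, txg_50, txg_53, txg_54, txg_70, txg_71, txg_79, txg_91, txg_92, txg_99, txg_113, txg_114, txg_133, txg_134, txg_144, txg_147, txg_162, txg_163, txg_180, txg_181, txg_189, txg_201, txg_202, txg_209, txg_221, txg_222, txg_238, txg_239, txg_248, txg_251, txg_254, txg_266, txg_267, txg_283, txg_284, txg_290, txg_302, txg_303, txg_308, txg_322, txg_323, txg_341, txg_342, txg_350, txg_351, txg_365, txg_366, txg_371, txg_385, txg_386, txg_406,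 txg_407, txg_414, txg_430, txg_431, txg_436, txg_453, txg_454, txg_473, txg_484, txg_485, txg_496, txg_497, txg_522, txg_523, txg_528, txg_542, txg_543, txg_564, txg_565]
  rcases eq_or_lt_of_le h2 with h | h2
  · subst h
    ((try push_cast); (repeat first | rw [if_pos (by linarith)] | rw [if_neg (by linarith)] | erw [if_pos (by linarith)] | erw [if_neg (by linarith)]); (try push_cast); (try ring1))
  · ((try push_cast); (repeat first | rw [if_pos (by linarith)] | rw [if_neg (by linarith)] | erw [if_pos (by linarith)] | erw [if_neg (by linarith)]); (try push_cast); (try ring1))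
theorem txl6 {p c x : ℝ} (h1 : -9 / 25 < p) (h2 : p ≤ -33 / 100) : txg.v p c x = dt90.val (fun p x => kcg.v p x) p c x := by
  symm
  refine (DT.val_le (by simp only [Cn.rt_v, Cn.ng_v]; push_cast; linarith)).trans ?_
  refine (DT.val_gt (by simp only [Cn.rt_v, Cn.ng_v]; push_cast; linarith)).trans ?_
  refine (DT.val_le (by simp only [Cn.rt_v, Cn.ng_v]; push_cast; linarith)).trans ?_
  refine (DT.val_le (by simp only [Cn.rt_v, Cn.ng_v]; push_cast; linarith)).trans ?_
  simp only [dt48, DT.val, cloR, sw48, sl48, sv48, txg, txg_4, txg_6, txg_26, txg_29, txg_32, txg_35, txg_50, txg_53, txg_54, txg_70, txg_71, txg_79, txg_91, txg_92, txg_99, txg_113, txg_114, txg_133, txg_134, txg_144, txg_147, txg_162, txg_163, txg_180, txg_181, txg_189, txg_201, txg_202, txg_209, txg_221, txg_222, txg_238, txg_239, txg_248, txg_251, txg_254, txg_266, txg_267, txg_283, txg_284, txg_290, txg_302, txg_303, txg_308, txg_322, txg_323, txg_341, txg_342, txg_350, txg_351, txg_365, txg_366,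 txg_371, txg_385, txg_386, txg_406, txg_407, txg_414, txg_430, txg_431, txg_436, txg_453, txg_454, txg_473, txg_484, txg_485, txg_496, txg_497, txg_522, txg_523, txg_528, txg_542, txg_543, txg_564, txg_565]
  rcases eq_or_lt_of_le h2 with h | h2
  · subst h
    ((try push_cast); (repeat first | rw [if_pos (by linarith)] | rw [if_neg (by linarith)] | erw [if_pos (by linarith)] | erw [if_neg (by linarith)]); (try push_cast); (try ring1))
  · ((try push_cast); (repeat first | rw [if_pos (by linarith)] | rw [if_neg (by linarith)] | erw [if_pos (by linarith)] | erw [if_neg (by linarith)]); (try push_cast); (try ring1))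
theorem txl7 {p c x : ℝ} (h1 : -33 / 100 < p) (h2 : p ≤ -3 / 10) : txg.v p c x = dt90.val (fun p x => kcg.v p x) p c x := by
  symm
  refine (DT.val_le (by simp only [Cn.rt_v, Cn.ng_v]; push_cast; linarith)).trans ?_
  refine (DT.val_gt (by simp only [Cn.rt_v, Cn.ng_v]; push_cast; linarith)).trans ?_
  refine (DT.val_le (by simp only [Cn.rt_v, Cn.ng_v]; push_cast; linarith)).trans ?_
  refine (DT.val_gt (by simp only [Cn.rt_v, Cn.ng_v]; push_cast; linarith)).trans ?_
  refine (DT.val_le (by simp only [Cn.rt_v, Cn.ng_v]; push_cast; linarith)).trans ?_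
  simp only [dt49, DT.val, cloR, sw49, sl49, sv49, txg, txg_4, txg_6, txg_26, txg_29, txg_32, txg_35, txg_50, txg_53, txg_54, txg_70, txg_71, txg_79, txg_91, txg_92, txg_99, txg_113, txg_114, txg_133, txg_134, txg_144, txg_147, txg_162, txg_163, txg_180, txg_181, txg_189, txg_201, txg_202, txg_209, txg_221, txg_222, txg_238, txg_239, txg_248, txg_251, txg_254, txg_266, txg_267, txg_283, txg_284, txg_290, txg_302, txg_303, txg_308, txg_322, txg_323, txg_341, txg_342, txg_350, txg_351, txg_365, txg_366, txg_371, txg_385, txg_386, txg_406, txg_407, txg_414, txg_430, txg_431, txg_436, txg_453, txg_454, txg_473, txg_484, txg_485, txg_496, txg_497, txg_522, txg_523, txg_528, txg_542, txg_543, txg_564, txg_565]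
  rcases eq_or_lt_of_le h2 with h | h2
  · subst h
    ((try push_cast); (repeat first | rw [if_pos (by linarith)] | rw [if_neg (by linarith)] | erw [if_pos (by linarith)] | erw [if_neg (by linarith)]); (try push_cast); (try ring1))
  · ((try push_cast); (repeat first | rw [if_pos (by linarith)] | rw [if_neg (by linarith)] | erw [if_pos (by linarith)] | erw [if_neg (by linarith)]); (try push_cast); (try ring1))
theorem txl8 {p c x : ℝ} (h1 : -3 / 10 < p) (h2 : p ≤ -1 / 4) : txg.v p c x = dt90.val (fun p x => kcg.v p x) p c x := by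
  symm
  refine (DT.val_le (by simp only [Cn.rt_v, Cn.ng_v]; push_cast; linarith)).trans ?_
  refine (DT.val_gt (by simp only [Cn.rt_v, Cn.ng_v]; push_cast; linarith)).trans ?_
  refine (DT.val_le (by simp only [Cn.rt_v, Cn.ng_v]; push_cast; linarith)).trans ?_
  refine (DT.val_gt (by simp only [Cn.rt_v, Cn.ng_v]; push_cast; linarith)).trans ?_
  refine (DT.val_gt (by simp only [Cn.rt_v, Cn.ng_v]; push_cast; linarith)).trans ?_
  simp only [dt50, DT.val, cloR, sw50, sl50, sv50, txg, txg_4, txg_6, txg_26, txg_29, txg_32, txg_35, txg_50, txg_53, txg_54, txg_70, txg_71, txg_79, txg_91, txg_92, txg_99, txg_113, txg_114, txg_133, txg_134, txg_144, txg_147, txg_162, txg_163, txg_180, txg_181, txg_189, txg_201, txg_202, txg_209, txg_221, txg_222, txg_238, txg_239, txg_248, txg_251, txg_254, txg_266, txg_267, txg_283, txg_284, txg_290, txg_302, txg_303, txg_308, txg_322, txg_323, txg_341, txg_342, txg_350, txg_351, txg_365, txg_366, txg_371, txg_385, txg_386, txg_406,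 txg_407, txg_414, txg_430, txg_431, txg_436, txg_453, txg_454, txg_473, txg_484, txg_485, txg_496, txg_497, txg_522, txg_523, txg_528, txg_542, txg_543, txg_564, txg_565]
  rcases eq_or_lt_of_le h2 with h | h2
  · subst h
    ((try push_cast); (repeat first | rw [if_pos (by linarith)] | rw [if_neg (by linarith)] | erw [if_pos (by linarith)] | erw [if_neg (by linarith)]); (try push_cast); (try ring1))
  · ((try push_cast); (repeat first | rw [if_pos (by linarith)] | rw [if_neg (by linarith)] | erw [if_pos (by linarith)] | erw [if_neg (by linarith)]); (try push_cast); (try ring1))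
theorem txl9 {p c x : ℝ} (h1 : -1 / 4 < p) (h2 : p ≤ -1 / 5) : txg.v p c x = dt90.val (fun p x => kcg.v p x) p c x := by
  symm
  refine (DT.val_le (by simp only [Cn.rt_v, Cn.ng_v]; push_cast; linarith)).trans ?_
  refine (DT.val_gt (by simp only [Cn.rt_v, Cn.ng_v]; push_cast; linarith)).trans ?_
  refine (DT.val_gt (by simp only [Cn.rt_v, Cn.ng_v]; push_cast; linarith)).trans ?_
  refine (DT.val_le (by simp only [Cn.rt_v, Cn.ng_v]; push_cast; linarith)).trans ?_
  simp only [dt51, DT.val, cloR, sw51, sl51, sv51, txg, txg_4, txg_6, txg_26, txg_29, txg_32, txg_35, txg_50, txg_53, txg_54, txg_70, txg_71, txg_79, txg_91, txg_92, txg_99, txg_113, txg_114, txg_133, txg_134, txg_144, txg_147, txg_162, txg_163, txg_180, txg_181, txg_189, txg_201, txg_202, txg_209, txg_221, txg_222, txg_238, txg_239, txg_248, txg_251, txg_254, txg_266, txg_267, txg_283, txg_284, txg_290, txg_302, txg_303, txg_308, txg_322, txg_323, txg_341, txg_342, txg_350, txg_351, txg_365, txg_366,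 txg_371, txg_385, txg_386, txg_406, txg_407, txg_414, txg_430, txg_431, txg_436, txg_453, txg_454, txg_473, txg_484, txg_485, txg_496, txg_497, txg_522, txg_523, txg_528, txg_542, txg_543, txg_564, txg_565]
  rcases eq_or_lt_of_le h2 with h | h2
  · subst h
    ((try push_cast); (repeat first | rw [if_pos (by linarith)] | rw [if_neg (by linarith)] | erw [if_pos (by linarith)] | erw [if_neg (by linarith)]); (try push_cast); (try ring1))
  · ((try push_cast); (repeat first | rw [if_pos (by linarith)] | rw [if_neg (by linarith)] | erw [if_pos (by linarith)] | erw [if_neg (by linarith)]); (try push_cast); (try ring1))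
theorem txl10 {p c x : ℝ} (h1 : -1 / 5 < p) (h2 : p ≤ -3 / 20) : txg.v p c x = dt90.val (fun p x => kcg.v p x) p c x := by
  symm
  refine (DT.val_le (by simp only [Cn.rt_v, Cn.ng_v]; push_cast; linarith)).trans ?_
  refine (DT.val_gt (by simp only [Cn.rt_v, Cn.ng_v]; push_cast; linarith)).trans ?_
  refine (DT.val_gt (by simp only [Cn.rt_v, Cn.ng_v]; push_cast; linarith)).trans ?_
  refine (DT.val_gt (by simp only [Cn.rt_v, Cn.ng_v]; push_cast; linarith)).trans ?_
  refine (DT.val_le (by simp only [Cn.rt_v, Cn.ng_v]; push_cast; linarith)).trans ?_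
  simp only [dt52, DT.val, cloR, sw52, sl52, sv52, txg, txg_4, txg_6, txg_26, txg_29, txg_32, txg_35, txg_50, txg_53, txg_54, txg_70, txg_71, txg_79, txg_91, txg_92, txg_99, txg_113, txg_114, txg_133, txg_134, txg_144, txg_147, txg_162, txg_163, txg_180, txg_181, txg_189, txg_201, txg_202, txg_209, txg_221, txg_222, txg_238, txg_239, txg_248, txg_251, txg_254, txg_266, txg_267, txg_283, txg_284, txg_290, txg_302, txg_303, txg_308, txg_322, txg_323, txg_341, txg_342, txg_350, txg_351, txg_365, txg_366, txg_371, txg_385, txg_386, txg_406, txg_407, txg_414, txg_430, txg_431, txg_436, txg_453, txg_454, txg_473, txg_484, txg_485, txg_496, txg_497, txg_522, txg_523, txg_528, txg_542, txg_543, txg_564, txg_565]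
  rcases eq_or_lt_of_le h2 with h | h2
  · subst h
    ((try push_cast); (repeat first | rw [if_pos (by linarith)] | rw [if_neg (by linarith)] | erw [if_pos (by linarith)] | erw [if_neg (by linarith)]); (try push_cast); (try ring1))
  · ((try push_cast); (repeat first | rw [if_pos (by linarith)] | rw [if_neg (by linarith)] | erw [if_pos (by linarith)] | erw [if_neg (by linarith)]); (try push_cast); (try ring1))
theorem txl11 {p c x : ℝ} (h1 : -3 / 20 < p) (h2 : p ≤ -1 / 10) : txg.v p c x = dt90.val (fun p x => kcg.v p x) p c x := by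
  symm
  refine (DT.val_le (by simp only [Cn.rt_v, Cn.ng_v]; push_cast; linarith)).trans ?_
  refine (DT.val_gt (by simp only [Cn.rt_v, Cn.ng_v]; push_cast; linarith)).trans ?_
  refine (DT.val_gt (by simp only [Cn.rt_v, Cn.ng_v]; push_cast; linarith)).trans ?_
  refine (DT.val_gt (by simp only [Cn.rt_v, Cn.ng_v]; push_cast; linarith)).trans ?_
  refine (DT.val_gt (by simp only [Cn.rt_v, Cn.ng_v]; push_cast; linarith)).trans ?_
  simp only [dt53, DT.val, cloR, sw53, sl53, sv53, txg, txg_4, txg_6, txg_26, txg_29, txg_32, txg_35, txg_50, txg_53, txg_54, txg_70, txg_71, txg_79, txg_91, txg_92, txg_99, txg_113, txg_114, txg_133, txg_134, txg_144, txg_147, txg_162, txg_163, txg_180, txg_181, txg_189, txg_201, txg_202, txg_209, txg_221, txg_222, txg_238, txg_239, txg_248, txg_251, txg_254, txg_266, txg_267, txg_283, txg_284, txg_290, txg_302, txg_303, txg_308, txg_322, txg_323, txg_341, txg_342, txg_350, txg_351, txg_365, txg_366, txg_371, txg_385, txg_386, txg_406,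 txg_407, txg_414, txg_430, txg_431, txg_436, txg_453, txg_454, txg_473, txg_484, txg_485, txg_496, txg_497, txg_522, txg_523, txg_528, txg_542, txg_543, txg_564, txg_565]
  rcases eq_or_lt_of_le h2 with h | h2
  · subst h
    ((try push_cast); (repeat first | rw [if_pos (by linarith)] | rw [if_neg (by linarith)] | erw [if_pos (by linarith)] | erw [if_neg (by linarith)]); (try push_cast); (try ring1))
  · ((try push_cast); (repeat first | rw [if_pos (by linarith)] | rw [if_neg (by linarith)] | erw [if_pos (by linarith)] | erw [if_neg (by linarith)]); (try push_cast); (try ring1))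
theorem txl12 {p c x : ℝ} (h1 : -1 / 10 < p) (h2 : p ≤ 1 / 10) : txg.v p c x = dt90.val (fun p x => kcg.v p x) p c x := by
  symm
  refine (DT.val_gt (by simp only [Cn.rt_v, Cn.ng_v]; push_cast; linarith)).trans ?_
  refine (DT.val_le (by simp only [Cn.rt_v, Cn.ng_v]; push_cast; linarith)).trans ?_
  refine (DT.val_le (by simp only [Cn.rt_v, Cn.ng_v]; push_cast; linarith)).trans ?_
  refine (DT.val_le (by simp only [Cn.rt_v, Cn.ng_v]; push_cast; linarith)).trans ?_
  simp only [dt54, DT.val, cloR, sw54, sl54, sv54, txg, txg_4, txg_6, txg_26, txg_29, txg_32, txg_35, txg_50, txg_53, txg_54, txg_70, txg_71, txg_79, txg_91, txg_92, txg_99, txg_113, txg_114, txg_133, txg_134, txg_144, txg_147, txg_162, txg_163, txg_180, txg_181, txg_189, txg_201, txg_202, txg_209, txg_221, txg_222, txg_238, txg_239, txg_248, txg_251, txg_254, txg_266, txg_267, txg_283, txg_284, txg_290, txg_302, txg_303, txg_308, txg_322, txg_323, txg_341, txg_342, txg_350, txg_351, txg_365, txg_366,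 txg_371, txg_385, txg_386, txg_406, txg_407, txg_414, txg_430, txg_431, txg_436, txg_453, txg_454, txg_473, txg_484, txg_485, txg_496, txg_497, txg_522, txg_523, txg_528, txg_542, txg_543, txg_564, txg_565]
  rcases eq_or_lt_of_le h2 with h | h2
  · subst h
    ((try push_cast); (repeat first | rw [if_pos (by linarith)] | rw [if_neg (by linarith)] | erw [if_pos (by linarith)] | erw [if_neg (by linarith)]); (try push_cast); (try ring1))
  · ((try push_cast); (repeat first | rw [if_pos (by linarith)] | rw [if_neg (by linarith)] | erw [if_pos (by linarith)] | erw [if_neg (by linarith)]); (try push_cast); (try ring1))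
theorem txl13 {p c x : ℝ} (h1 : 1 / 10 < p) (h2 : p ≤ 3 / 20) : txg.v p c x = dt90.val (fun p x => kcg.v p x) p c x := by
  symm
  refine (DT.val_gt (by simp only [Cn.rt_v, Cn.ng_v]; push_cast; linarith)).trans ?_
  refine (DT.val_le (by simp only [Cn.rt_v, Cn.ng_v]; push_cast; linarith)).trans ?_
  refine (DT.val_le (by simp only [Cn.rt_v, Cn.ng_v]; push_cast; linarith)).trans ?_
  refine (DT.val_gt (by simp only [Cn.rt_v, Cn.ng_v]; push_cast; linarith)).trans ?_
  refine (DT.val_le (by simp only [Cn.rt_v, Cn.ng_v]; push_cast; linarith)).trans ?_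
  simp only [dt55, DT.val, cloR, sw55, sl55, sv55, txg, txg_4, txg_6, txg_26, txg_29, txg_32, txg_35, txg_50, txg_53, txg_54, txg_70, txg_71, txg_79, txg_91, txg_92, txg_99, txg_113, txg_114, txg_133, txg_134, txg_144, txg_147, txg_162, txg_163, txg_180, txg_181, txg_189, txg_201, txg_202, txg_209, txg_221, txg_222, txg_238, txg_239, txg_248, txg_251, txg_254, txg_266, txg_267, txg_283, txg_284, txg_290, txg_302, txg_303, txg_308, txg_322, txg_323, txg_341, txg_342, txg_350, txg_351, txg_365, txg_366, txg_371, txg_385, txg_386, txg_406, txg_407, txg_414, txg_430, txg_431, txg_436, txg_453, txg_454, txg_473, txg_484, txg_485, txg_496, txg_497, txg_522, txg_523, txg_528, txg_542, txg_543, txg_564, txg_565]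
  rcases eq_or_lt_of_le h2 with h | h2
  · subst h
    ((try push_cast); (repeat first | rw [if_pos (by linarith)] | rw [if_neg (by linarith)] | erw [if_pos (by linarith)] | erw [if_neg (by linarith)]); (try push_cast); (try ring1))
  · ((try push_cast); (repeat first | rw [if_pos (by linarith)] | rw [if_neg (by linarith)] | erw [if_pos (by linarith)] | erw [if_neg (by linarith)]); (try push_cast); (try ring1))
theorem txl14 {p c x : ℝ} (h1 : 3 / 20 < p) (h2 : p ≤ 1 / 5) : txg.v p c x = dt90.val (fun p x => kcg.v p x) p c x := by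
  symm
  refine (DT.val_gt (by simp only [Cn.rt_v, Cn.ng_v]; push_cast; linarith)).trans ?_
  refine (DT.val_le (by simp only [Cn.rt_v, Cn.ng_v]; push_cast; linarith)).trans ?_
  refine (DT.val_le (by simp only [Cn.rt_v, Cn.ng_v]; push_cast; linarith)).trans ?_
  refine (DT.val_gt (by simp only [Cn.rt_v, Cn.ng_v]; push_cast; linarith)).trans ?_
  refine (DT.val_gt (by simp only [Cn.rt_v, Cn.ng_v]; push_cast; linarith)).trans ?_
  simp only [dt56, DT.val, cloR, sw56, sl56, sv56, txg, txg_4, txg_6, txg_26, txg_29, txg_32, txg_35, txg_50, txg_53, txg_54, txg_70, txg_71, txg_79, txg_91, txg_92, txg_99, txg_113, txg_114, txg_133, txg_134, txg_144, txg_147, txg_162, txg_163, txg_180, txg_181, txg_189, txg_201, txg_202, txg_209, txg_221, txg_222, txg_238, txg_239, txg_248, txg_251, txg_254, txg_266, txg_267, txg_283, txg_284, txg_290, txg_302, txg_303, txg_308, txg_322, txg_323, txg_341, txg_342, txg_350, txg_351, txg_365, txg_366, txg_371, txg_385, txg_386, txg_406,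 txg_407, txg_414, txg_430, txg_431, txg_436, txg_453, txg_454, txg_473, txg_484, txg_485, txg_496, txg_497, txg_522, txg_523, txg_528, txg_542, txg_543, txg_564, txg_565]
  rcases eq_or_lt_of_le h2 with h | h2
  · subst h
    ((try push_cast); (repeat first | rw [if_pos (by linarith)] | rw [if_neg (by linarith)] | erw [if_pos (by linarith)] | erw [if_neg (by linarith)]); (try push_cast); (try ring1))
  · ((try push_cast); (repeat first | rw [if_pos (by linarith)] | rw [if_neg (by linarith)] | erw [if_pos (by linarith)] | erw [if_neg (by linarith)]); (try push_cast); (try ring1))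
theorem txl15 {p c x : ℝ} (h1 : 1 / 5 < p) (h2 : p ≤ 1 / 4) : txg.v p c x = dt90.val (fun p x => kcg.v p x) p c x := by
  symm
  refine (DT.val_gt (by simp only [Cn.rt_v, Cn.ng_v]; push_cast; linarith)).trans ?_
  refine (DT.val_le (by simp only [Cn.rt_v, Cn.ng_v]; push_cast; linarith)).trans ?_
  refine (DT.val_gt (by simp only [Cn.rt_v, Cn.ng_v]; push_cast; linarith)).trans ?_
  refine (DT.val_le (by simp only [Cn.rt_v, Cn.ng_v]; push_cast; linarith)).trans ?_
  simp only [dt57, DT.val, cloR, sw57, sl57, sv57, txg, txg_4, txg_6, txg_26, txg_29, txg_32, txg_35, txg_50, txg_53, txg_54, txg_70, txg_71, txg_79, txg_91, txg_92, txg_99, txg_113, txg_114, txg_133, txg_134, txg_144, txg_147, txg_162, txg_163, txg_180, txg_181, txg_189, txg_201, txg_202, txg_209, txg_221, txg_222, txg_238, txg_239, txg_248, txg_251, txg_254, txg_266, txg_267, txg_283, txg_284, txg_290, txg_302, txg_303, txg_308, txg_322, txg_323, txg_341, txg_342, txg_350, txg_351, txg_365, txg_366, txg_371,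 txg_385, txg_386, txg_406, txg_407, txg_414, txg_430, txg_431, txg_436, txg_453, txg_454, txg_473, txg_484, txg_485, txg_496, txg_497, txg_522, txg_523, txg_528, txg_542, txg_543, txg_564, txg_565]
  rcases eq_or_lt_of_le h2 with h | h2
  · subst h
    ((try push_cast); (repeat first | rw [if_pos (by linarith)] | rw [if_neg (by linarith)] | erw [if_pos (by linarith)] | erw [if_neg (by linarith)]); (try push_cast); (try ring1))
  · ((try push_cast); (repeat first | rw [if_pos (by linarith)] | rw [if_neg (by linarith)] | erw [if_pos (by linarith)] | erw [if_neg (by linarith)]); (try push_cast); (try ring1))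
theorem txl16 {p c x : ℝ} (h1 : 1 / 4 < p) (h2 : p ≤ 3 / 10) : txg.v p c x = dt90.val (fun p x => kcg.v p x) p c x := by
  symm
  refine (DT.val_gt (by simp only [Cn.rt_v, Cn.ng_v]; push_cast; linarith)).trans ?_
  refine (DT.val_le (by simp only [Cn.rt_v, Cn.ng_v]; push_cast; linarith)).trans ?_
  refine (DT.val_gt (by simp only [Cn.rt_v, Cn.ng_v]; push_cast; linarith)).trans ?_
  refine (DT.val_gt (by simp only [Cn.rt_v, Cn.ng_v]; push_cast; linarith)).trans ?_
  refine (DT.val_le (by simp only [Cn.rt_v, Cn.ng_v]; push_cast; linarith)).trans ?_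
  simp only [dt58, DT.val, cloR, sw58, sl58, sv58, txg, txg_4, txg_6, txg_26, txg_29, txg_32, txg_35, txg_50, txg_53, txg_54, txg_70, txg_71, txg_79, txg_91, txg_92, txg_99, txg_113, txg_114, txg_133, txg_134, txg_144, txg_147, txg_162, txg_163, txg_180, txg_181, txg_189, txg_201, txg_202, txg_209, txg_221, txg_222, txg_238, txg_239, txg_248, txg_251, txg_254, txg_266, txg_267, txg_283, txg_284, txg_290, txg_302, txg_303, txg_308, txg_322, txg_323, txg_341, txg_342, txg_350, txg_351, txg_365, txg_366, txg_371, txg_385, txg_386, txg_406, txg_407, txg_414, txg_430, txg_431, txg_436, txg_453, txg_454, txg_473, txg_484, txg_485, txg_496, txg_497, txg_522, txg_523, txg_528, txg_542, txg_543, txg_564, txg_565]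
  rcases eq_or_lt_of_le h2 with h | h2
  · subst h
    ((try push_cast); (repeat first | rw [if_pos (by linarith)] | rw [if_neg (by linarith)] | erw [if_pos (by linarith)] | erw [if_neg (by linarith)]); (try push_cast); (try ring1))
  · ((try push_cast); (repeat first | rw [if_pos (by linarith)] | rw [if_neg (by linarith)] | erw [if_pos (by linarith)] | erw [if_neg (by linarith)]); (try push_cast); (try ring1))
theorem txl17 {p c x : ℝ} (h1 : 3 / 10 < p) (h2 : p ≤ 33 / 100) : txg.v p c x = dt90.val (fun p x => kcg.v p x) p c x := by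
  symm
  refine (DT.val_gt (by simp only [Cn.rt_v, Cn.ng_v]; push_cast; linarith)).trans ?_
  refine (DT.val_le (by simp only [Cn.rt_v, Cn.ng_v]; push_cast; linarith)).trans ?_
  refine (DT.val_gt (by simp only [Cn.rt_v, Cn.ng_v]; push_cast; linarith)).trans ?_
  refine (DT.val_gt (by simp only [Cn.rt_v, Cn.ng_v]; push_cast; linarith)).trans ?_
  refine (DT.val_gt (by simp only [Cn.rt_v, Cn.ng_v]; push_cast; linarith)).trans ?_
  simp only [dt59, DT.val, cloR, sw59, sl59, sv59, txg, txg_4, txg_6, txg_26, txg_29, txg_32, txg_35, txg_50, txg_53, txg_54, txg_70, txg_71, txg_79, txg_91, txg_92, txg_99, txg_113, txg_114, txg_133, txg_134, txg_144, txg_147, txg_162, txg_163, txg_180, txg_181, txg_189, txg_201, txg_202, txg_209, txg_221, txg_222, txg_238, txg_239, txg_248, txg_251, txg_254, txg_266, txg_267, txg_283, txg_284, txg_290, txg_302, txg_303, txg_308, txg_322, txg_323, txg_341, txg_342, txg_350, txg_351, txg_365, txg_366, txg_371, txg_385, txg_386, txg_406,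 txg_407, txg_414, txg_430, txg_431, txg_436, txg_453, txg_454, txg_473, txg_484, txg_485, txg_496, txg_497, txg_522, txg_523, txg_528, txg_542, txg_543, txg_564, txg_565]
  rcases eq_or_lt_of_le h2 with h | h2
  · subst h
    ((try push_cast); (repeat first | rw [if_pos (by linarith)] | rw [if_neg (by linarith)] | erw [if_pos (by linarith)] | erw [if_neg (by linarith)]); (try push_cast); (try ring1))
  · ((try push_cast); (repeat first | rw [if_pos (by linarith)] | rw [if_neg (by linarith)] | erw [if_pos (by linarith)] | erw [if_neg (by linarith)]); (try push_cast); (try ring1))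
theorem txl18 {p c x : ℝ} (h1 : 33 / 100 < p) (h2 : p ≤ 9 / 25) : txg.v p c x = dt90.val (fun p x => kcg.v p x) p c x := by
  symm
  refine (DT.val_gt (by simp only [Cn.rt_v, Cn.ng_v]; push_cast; linarith)).trans ?_
  refine (DT.val_gt (by simp only [Cn.rt_v, Cn.ng_v]; push_cast; linarith)).trans ?_
  refine (DT.val_le (by simp only [Cn.rt_v, Cn.ng_v]; push_cast; linarith)).trans ?_
  refine (DT.val_le (by simp only [Cn.rt_v, Cn.ng_v]; push_cast; linarith)).trans ?_
  simp only [dt60, DT.val, cloR, sw60, sl60, sv60, txg, txg_4, txg_6, txg_26, txg_29, txg_32, txg_35, txg_50, txg_53, txg_54, txg_70, txg_71, txg_79, txg_91, txg_92, txg_99, txg_113, txg_114, txg_133, txg_134, txg_144, txg_147, txg_162, txg_163, txg_180, txg_181, txg_189, txg_201, txg_202, txg_209, txg_221, txg_222, txg_238, txg_239, txg_248, txg_251, txg_254, txg_266, txg_267, txg_283, txg_284, txg_290, txg_302, txg_303, txg_308, txg_322, txg_323, txg_341, txg_342, txg_350, txg_351, txg_365, txg_366,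 txg_371, txg_385, txg_386, txg_406, txg_407, txg_414, txg_430, txg_431, txg_436, txg_453, txg_454, txg_473, txg_484, txg_485, txg_496, txg_497, txg_522, txg_523, txg_528, txg_542, txg_543, txg_564, txg_565]
  rcases eq_or_lt_of_le h2 with h | h2
  · subst h
    ((try push_cast); (repeat first | rw [if_pos (by linarith)] | rw [if_neg (by linarith)] | erw [if_pos (by linarith)] | erw [if_neg (by linarith)]); (try push_cast); (try ring1))
  · ((try push_cast); (repeat first | rw [if_pos (by linarith)] | rw [if_neg (by linarith)] | erw [if_pos (by linarith)] | erw [if_neg (by linarith)]); (try push_cast); (try ring1))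
theorem txl19 {p c x : ℝ} (h1 : 9 / 25 < p) (h2 : p ≤ 2 / 5) : txg.v p c x = dt90.val (fun p x => kcg.v p x) p c x := by
  symm
  refine (DT.val_gt (by simp only [Cn.rt_v, Cn.ng_v]; push_cast; linarith)).trans ?_
  refine (DT.val_gt (by simp only [Cn.rt_v, Cn.ng_v]; push_cast; linarith)).trans ?_
  refine (DT.val_le (by simp only [Cn.rt_v, Cn.ng_v]; push_cast; linarith)).trans ?_
  refine (DT.val_gt (by simp only [Cn.rt_v, Cn.ng_v]; push_cast; linarith)).trans ?_
  refine (DT.val_le (by simp only [Cn.rt_v, Cn.ng_v]; push_cast; linarith)).trans ?_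
  simp only [dt61, DT.val, cloR, sw61, sl61, sv61, txg, txg_4, txg_6, txg_26, txg_29, txg_32, txg_35, txg_50, txg_53, txg_54, txg_70, txg_71, txg_79, txg_91, txg_92, txg_99, txg_113, txg_114, txg_133, txg_134, txg_144, txg_147, txg_162, txg_163, txg_180, txg_181, txg_189, txg_201, txg_202, txg_209, txg_221, txg_222, txg_238, txg_239, txg_248, txg_251, txg_254, txg_266, txg_267, txg_283, txg_284, txg_290, txg_302, txg_303, txg_308, txg_322, txg_323, txg_341, txg_342, txg_350, txg_351, txg_365, txg_366, txg_371, txg_385, txg_386, txg_406, txg_407, txg_414, txg_430, txg_431, txg_436, txg_453, txg_454, txg_473, txg_484, txg_485, txg_496, txg_497, txg_522, txg_523, txg_528, txg_542, txg_543, txg_564, txg_565]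
  rcases eq_or_lt_of_le h2 with h | h2
  · subst h
    ((try push_cast); (repeat first | rw [if_pos (by linarith)] | rw [if_neg (by linarith)] | erw [if_pos (by linarith)] | erw [if_neg (by linarith)]); (try push_cast); (try ring1))
  · ((try push_cast); (repeat first | rw [if_pos (by linarith)] | rw [if_neg (by linarith)] | erw [if_pos (by linarith)] | erw [if_neg (by linarith)]); (try push_cast); (try ring1))
theorem txl20 {p c x : ℝ} (h1 : 2 / 5 < p) (h2 : p ≤ 107 / 254) : txg.v p c x = dt90.val (fun p x => kcg.v p x) p c x := by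
  symm
  refine (DT.val_gt (by simp only [Cn.rt_v, Cn.ng_v]; push_cast; linarith)).trans ?_
  refine (DT.val_gt (by simp only [Cn.rt_v, Cn.ng_v]; push_cast; linarith)).trans ?_
  refine (DT.val_le (by simp only [Cn.rt_v, Cn.ng_v]; push_cast; linarith)).trans ?_
  refine (DT.val_gt (by simp only [Cn.rt_v, Cn.ng_v]; push_cast; linarith)).trans ?_
  refine (DT.val_gt (by simp only [Cn.rt_v, Cn.ng_v]; push_cast; linarith)).trans ?_
  simp only [dt62, DT.val, cloR, sw62, sw62_2, sl62, sl62_2, sv62, sv62_2, txg, txg_4, txg_6, txg_26, txg_29, txg_32, txg_35, txg_50, txg_53, txg_54, txg_70, txg_71, txg_79, txg_91, txg_92, txg_99, txg_113, txg_114, txg_133, txg_134, txg_144, txg_147, txg_162, txg_163, txg_180, txg_181, txg_189, txg_201, txg_202, txg_209, txg_221, txg_222, txg_238, txg_239, txg_248, txg_251, txg_254, txg_266, txg_267, txg_283, txg_284, txg_290, txg_302, txg_303, txg_308, txg_322, txg_323, txg_341, txg_342, txg_350, txg_351, txg_365, txg_366, txg_371, txg_385,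 txg_386, txg_406, txg_407, txg_414, txg_430, txg_431, txg_436, txg_453, txg_454, txg_473, txg_484, txg_485, txg_496, txg_497, txg_522, txg_523, txg_528, txg_542, txg_543, txg_564, txg_565]
  rcases eq_or_lt_of_le h2 with h | h2
  · subst h
    ((try push_cast); (repeat first | rw [if_pos (by linarith)] | rw [if_neg (by linarith)] | erw [if_pos (by linarith)] | erw [if_neg (by linarith)]); (try push_cast); (try ring1))
  · ((try push_cast); (repeat first | rw [if_pos (by linarith)] | rw [if_neg (by linarith)] | erw [if_pos (by linarith)] | erw [if_neg (by linarith)]); (try push_cast); (try ring1))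
theorem txl21 {p c x : ℝ} (h1 : 107 / 254 < p) (h2 : p ≤ 181 / 397) : txg.v p c x = dt90.val (fun p x => kcg.v p x) p c x := by
  symm
  refine (DT.val_gt (by simp only [Cn.rt_v, Cn.ng_v]; push_cast; linarith)).trans ?_
  refine (DT.val_gt (by simp only [Cn.rt_v, Cn.ng_v]; push_cast; linarith)).trans ?_
  refine (DT.val_gt (by simp only [Cn.rt_v, Cn.ng_v]; push_cast; linarith)).trans ?_
  refine (DT.val_le (by simp only [Cn.rt_v, Cn.ng_v]; push_cast; linarith)).trans ?_
  refine (DT.val_le (by simp only [Cn.rt_v, Cn.ng_v]; push_cast; linarith)).trans ?_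
  simp only [dt63, DT.val, cloR, txg, txg_4, txg_6, txg_26, txg_29, txg_32, txg_35, txg_50, txg_53, txg_54, txg_70, txg_71, txg_79, txg_91, txg_92, txg_99, txg_113, txg_114, txg_133, txg_134, txg_144, txg_147, txg_162, txg_163, txg_180, txg_181, txg_189, txg_201, txg_202, txg_209, txg_221, txg_222, txg_238, txg_239, txg_248, txg_251, txg_254, txg_266, txg_267, txg_283, txg_284, txg_290, txg_302, txg_303, txg_308, txg_322, txg_323, txg_341, txg_342, txg_350, txg_351, txg_365, txg_366, txg_371, txg_385, txg_386, txg_406, txg_407, txg_414, txg_430, txg_431, txg_436, txg_453, txg_454, txg_473, txg_484, txg_485, txg_496, txg_497, txg_522, txg_523, txg_528, txg_542, txg_543, txg_564, txg_565]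
  rcases eq_or_lt_of_le h2 with h | h2
  · subst h
    ((try push_cast); (repeat first | rw [if_pos (by linarith)] | rw [if_neg (by linarith)] | erw [if_pos (by linarith)] | erw [if_neg (by linarith)]); (try push_cast); (try ring1))
  · ((try push_cast); (repeat first | rw [if_pos (by linarith)] | rw [if_neg (by linarith)] | erw [if_pos (by linarith)] | erw [if_neg (by linarith)]); (try push_cast); (try ring1))
theorem txl22 {p c x : ℝ} (h1 : 181 / 397 < p) (h2 : p ≤ 470613 / 1000000) : txg.v p c x = dt90.val (fun p x => kcg.v p x) p c x := by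
  symm
  refine (DT.val_gt (by simp only [Cn.rt_v, Cn.ng_v]; push_cast; linarith)).trans ?_
  refine (DT.val_gt (by simp only [Cn.rt_v, Cn.ng_v]; push_cast; linarith)).trans ?_
  refine (DT.val_gt (by simp only [Cn.rt_v, Cn.ng_v]; push_cast; linarith)).trans ?_
  refine (DT.val_le (by simp only [Cn.rt_v, Cn.ng_v]; push_cast; linarith)).trans ?_
  refine (DT.val_gt (by simp only [Cn.rt_v, Cn.ng_v]; push_cast; linarith)).trans ?_
  simp only [dt64, DT.val, cloR, sw64, sw64_2, sl64, sl64_2, sv64, sv64_2, txg, txg_4, txg_6, txg_26, txg_29, txg_32, txg_35, txg_50, txg_53, txg_54, txg_70, txg_71, txg_79, txg_91, txg_92, txg_99, txg_113, txg_114, txg_133, txg_134, txg_144, txg_147, txg_162, txg_163, txg_180, txg_181, txg_189, txg_201, txg_202, txg_209, txg_221, txg_222, txg_238, txg_239, txg_248, txg_251, txg_254, txg_266, txg_267, txg_283, txg_284, txg_290, txg_302, txg_303, txg_308, txg_322, txg_323, txg_341, txg_342, txg_350, txg_351, txg_365, txg_366, txg_371, txg_385,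 txg_386, txg_406, txg_407, txg_414, txg_430, txg_431, txg_436, txg_453, txg_454, txg_473, txg_484, txg_485, txg_496, txg_497, txg_522, txg_523, txg_528, txg_542, txg_543, txg_564, txg_565]
  rcases eq_or_lt_of_le h2 with h | h2
  · subst h
    ((try push_cast); (repeat first | rw [if_pos (by linarith)] | rw [if_neg (by linarith)] | erw [if_pos (by linarith)] | erw [if_neg (by linarith)]); (try push_cast); (try ring1))
  · ((try push_cast); (repeat first | rw [if_pos (by linarith)] | rw [if_neg (by linarith)] | erw [if_pos (by linarith)] | erw [if_neg (by linarith)]); (try push_cast); (try ring1))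
theorem txl23 {p c x : ℝ} (h1 : 470613 / 1000000 < p) (h2 : p ≤ 242653 / 500000) : txg.v p c x = dt90.val (fun p x => kcg.v p x) p c x := by
  symm
  refine (DT.val_gt (by simp only [Cn.rt_v, Cn.ng_v]; push_cast; linarith)).trans ?_
  refine (DT.val_gt (by simp only [Cn.rt_v, Cn.ng_v]; push_cast; linarith)).trans ?_
  refine (DT.val_gt (by simp only [Cn.rt_v, Cn.ng_v]; push_cast; linarith)).trans ?_
  refine (DT.val_gt (by simp only [Cn.rt_v, Cn.ng_v]; push_cast; linarith)).trans ?_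
  refine (DT.val_le (by simp only [Cn.rt_v, Cn.ng_v]; push_cast; linarith)).trans ?_
  simp only [dt65, DT.val, cloR, sw65, sl65, sv65, txg, txg_4, txg_6, txg_26, txg_29, txg_32, txg_35, txg_50, txg_53, txg_54, txg_70, txg_71, txg_79, txg_91, txg_92, txg_99, txg_113, txg_114, txg_133, txg_134, txg_144, txg_147, txg_162, txg_163, txg_180, txg_181, txg_189, txg_201, txg_202, txg_209, txg_221, txg_222, txg_238, txg_239, txg_248, txg_251, txg_254, txg_266, txg_267, txg_283, txg_284, txg_290, txg_302, txg_303, txg_308, txg_322, txg_323, txg_341, txg_342, txg_350, txg_351, txg_365, txg_366, txg_371, txg_385, txg_386, txg_406, txg_407, txg_414, txg_430, txg_431, txg_436, txg_453, txg_454, txg_473, txg_484, txg_485, txg_496, txg_497, txg_522, txg_523, txg_528, txg_542, txg_543, txg_564, txg_565]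
  rcases eq_or_lt_of_le h2 with h | h2
  · subst h
    ((try push_cast); (repeat first | rw [if_pos (by linarith)] | rw [if_neg (by linarith)] | erw [if_pos (by linarith)] | erw [if_neg (by linarith)]); (try push_cast); (try ring1))
  · ((try push_cast); (repeat first | rw [if_pos (by linarith)] | rw [if_neg (by linarith)] | erw [if_pos (by linarith)] | erw [if_neg (by linarith)]); (try push_cast); (try ring1))
theorem txl24 {p c x : ℝ} (h1 : 242653 / 500000 < p) (h2 : p ≤ 1 / 2) : txg.v p c x = dt90.val (fun p x => kcg.v p x) p c x := by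
  symm
  refine (DT.val_gt (by simp only [Cn.rt_v, Cn.ng_v]; push_cast; linarith)).trans ?_
  refine (DT.val_gt (by simp only [Cn.rt_v, Cn.ng_v]; push_cast; linarith)).trans ?_
  refine (DT.val_gt (by simp only [Cn.rt_v, Cn.ng_v]; push_cast; linarith)).trans ?_
  refine (DT.val_gt (by simp only [Cn.rt_v, Cn.ng_v]; push_cast; linarith)).trans ?_
  refine (DT.val_gt (by simp only [Cn.rt_v, Cn.ng_v]; push_cast; linarith)).trans ?_
  simp only [dt66, DT.val, cloR, sw66, sl66, sv66, txg, txg_4, txg_6, txg_26, txg_29, txg_32, txg_35, txg_50, txg_53, txg_54, txg_70, txg_71, txg_79, txg_91, txg_92, txg_99, txg_113, txg_114, txg_133, txg_134, txg_144, txg_147, txg_162, txg_163, txg_180, txg_181, txg_189, txg_201, txg_202, txg_209, txg_221, txg_222, txg_238, txg_239, txg_248, txg_251, txg_254, txg_266, txg_267, txg_283, txg_284, txg_290, txg_302, txg_303, txg_308, txg_322, txg_323, txg_341, txg_342, txg_350, txg_351, txg_365, txg_366, txg_371, txg_385, txg_386, txg_406,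 txg_407, txg_414, txg_430, txg_431, txg_436, txg_453, txg_454, txg_473, txg_484, txg_485, txg_496, txg_497, txg_522, txg_523, txg_528, txg_542, txg_543, txg_564, txg_565]
  rcases eq_or_lt_of_le h2 with h | h2
  · subst h
    ((try push_cast); (repeat first | rw [if_pos (by linarith)] | rw [if_neg (by linarith)] | erw [if_pos (by linarith)] | erw [if_neg (by linarith)]); (try push_cast); (try ring1))
  · ((try push_cast); (repeat first | rw [if_pos (by linarith)] | rw [if_neg (by linarith)] | erw [if_pos (by linarith)] | erw [if_neg (by linarith)]); (try push_cast); (try ring1))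
theorem txe {x : ℝ} (p c : ℝ) (h : |p| ≤ 1 / 2) : txg.v p c x = dt90.val (fun p x => kcg.v p x) p c x := by
  obtain ⟨h1, h2⟩ := abs_le.1 h
  rcases le_or_gt p (-242653 / 500000) with g0 | g1000
  · exact txl0 (by linarith) g0
  rcases le_or_gt p (-470613 / 1000000) with g1 | g1001
  · exact txl1 g1000 g1
  rcases le_or_gt p (-23 / 50) with g2 | g1002
  · exact txl2 g1001 g2
  rcases le_or_gt p (-43 / 100) with g3 | g1003
  · exact txl3 g1002 g3
  rcases le_or_gt p (-2 / 5) with g4 | g1004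
  · exact txl4 g1003 g4
  rcases le_or_gt p (-9 / 25) with g5 | g1005
  · exact txl5 g1004 g5
  rcases le_or_gt p (-33 / 100) with g6 | g1006
  · exact txl6 g1005 g6
  rcases le_or_gt p (-3 / 10) with g7 | g1007
  · exact txl7 g1006 g7
  rcases le_or_gt p (-1 / 4) with g8 | g1008
  · exact txl8 g1007 g8
  rcases le_or_gt p (-1 / 5) with g9 | g1009
  · exact txl9 g1008 g9
  rcases le_or_gt p (-3 / 20) with g10 | g1010
  · exact txl10 g1009 g10
  rcases le_or_gt p (-1 / 10) with g11 | g1011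
  · exact txl11 g1010 g11
  rcases le_or_gt p (1 / 10) with g12 | g1012
  · exact txl12 g1011 g12
  rcases le_or_gt p (3 / 20) with g13 | g1013
  · exact txl13 g1012 g13
  rcases le_or_gt p (1 / 5) with g14 | g1014
  · exact txl14 g1013 g14
  rcases le_or_gt p (1 / 4) with g15 | g1015
  · exact txl15 g1014 g15
  rcases le_or_gt p (3 / 10) with g16 | g1016
  · exact txl16 g1015 g16
  rcases le_or_gt p (33 / 100) with g17 | g1017
  · exact txl17 g1016 g17
  rcases le_or_gt p (9 / 25) with g18 | g1018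
  · exact txl18 g1017 g18
  rcases le_or_gt p (2 / 5) with g19 | g1019
  · exact txl19 g1018 g19
  rcases le_or_gt p (107 / 254) with g20 | g1020
  · exact txl20 g1019 g20
  rcases le_or_gt p (181 / 397) with g21 | g1021
  · exact txl21 g1020 g21
  rcases le_or_gt p (470613 / 1000000) with g22 | g1022
  · exact txl22 g1021 g22
  rcases le_or_gt p (242653 / 500000) with g23 | g1023
  · exact txl23 g1022 g23
  · exact txl24 g1023 (by linarith)
theorem ta_dt42 (x : ℝ) : dt42.val (fun p x => kcg.v p x) (-1 / 2) (cT (-1 / 2)) x = (0) := by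
  simp only [dt42, DT.val, sw42, sl42, sv42]
  ((try push_cast); ring1)
theorem tb_dt42 (x : ℝ) : dt42.val (fun p x => kcg.v p x) (-242653 / 500000) (cT (-242653 / 500000)) x = (883 / 312500 + (x - 153 / 160) * (19731 / 2500000)) := by
  simp only [dt42, DT.val, sw42, sl42, sv42]
  ((try push_cast); ring1)
theorem ta_dt43 (x : ℝ) : dt43.val (fun p x => kcg.v p x) (-242653 / 500000) (cT (-242653 / 500000)) x = (883 / 312500 + (x - 153 / 160) * (19731 / 2500000)) := by
  simp only [dt43, DT.val, sw43, sl43, sv43]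
  ((try push_cast); ring1)
theorem tb_dt43 (x : ℝ) : dt43.val (fun p x => kcg.v p x) (-470613 / 1000000) (cT (-470613 / 1000000)) x = (122747 / 20000000 + (x - 153 / 160) * (248863 / 10000000)) := by
  simp only [dt43, DT.val, sw43, sl43, sv43]
  ((try push_cast); ring1)
theorem ta_dt44 (x : ℝ) : dt44.val (fun p x => kcg.v p x) (-470613 / 1000000) (cT (-470613 / 1000000)) x = (122747 / 20000000 + (x - 153 / 160) * (248863 / 10000000)) := by
  simp only [dt44, DT.val, sw44, sl44, sv44]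
  ((try push_cast); ring1)
theorem tb_dt44 (x : ℝ) : dt44.val (fun p x => kcg.v p x) (-23 / 50) (cT (-23 / 50)) x = (396259 / 50000000 + (x - 153 / 160) * (291279 / 10000000)) := by
  simp only [dt44, DT.val, sw44, sl44, sv44]
  ((try push_cast); ring1)
theorem ta_dt67 (x : ℝ) : dt67.val (fun p x => kcg.v p x) (-242653 / 500000) (cT (-242653 / 500000)) x = (883 / 312500 + (x - 153 / 160) * (19731 / 2500000)) :=
  (DT.val_le (by simp only [Cn.rt_v, Cn.ng_v]; norm_num)).trans (ta_dt43 x)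
theorem tb_dt67 (x : ℝ) : dt67.val (fun p x => kcg.v p x) (-23 / 50) (cT (-23 / 50)) x = (396259 / 50000000 + (x - 153 / 160) * (291279 / 10000000)) :=
  (DT.val_gt (by simp only [Cn.rt_v, Cn.ng_v]; norm_num)).trans (tb_dt44 x)
theorem ta_dt68 (x : ℝ) : dt68.val (fun p x => kcg.v p x) (-1 / 2) (cT (-1 / 2)) x = (0) :=
  (DT.val_le (by simp only [Cn.rt_v, Cn.ng_v]; norm_num)).trans (ta_dt42 x)
theorem tb_dt68 (x : ℝ) : dt68.val (fun p x => kcg.v p x) (-23 / 50) (cT (-23 / 50)) x = (396259 / 50000000 + (x - 153 / 160) * (291279 / 10000000)) :=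
  (DT.val_gt (by simp only [Cn.rt_v, Cn.ng_v]; norm_num)).trans (tb_dt67 x)
theorem ta_dt45 (x : ℝ) : dt45.val (fun p x => kcg.v p x) (-23 / 50) (cT (-23 / 50)) x = (396259 / 50000000 + (x - 153 / 160) * (291279 / 10000000)) := by
  simp only [dt45, DT.val, sw45, sl45, sv45]
  ((try push_cast); ring1)
theorem tb_dt45 (x : ℝ) : dt45.val (fun p x => kcg.v p x) (-43 / 100) (cT (-43 / 100)) x = (1112827 / 100000000 + (x - 153 / 160) * (213663 / 10000000)) := by
  simp only [dt45, DT.val, sw45, sl45, sv45]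
  ((try push_cast); ring1)
theorem ta_dt46 (x : ℝ) : dt46.val (fun p x => kcg.v p x) (-43 / 100) (cT (-43 / 100)) x = (1112827 / 100000000 + (x - 153 / 160) * (213663 / 10000000)) := by
  simp only [dt46, DT.val, sw46, sl46, sv46]
  ((try push_cast); ring1)
theorem tb_dt46 (x : ℝ) : dt46.val (fun p x => kcg.v p x) (-2 / 5) (cT (-2 / 5)) x = (749517 / 50000000 + (x - 153 / 160) * (137247 / 5000000)) := by
  simp only [dt46, DT.val, sw46, sl46, sv46]
  ((try push_cast); ring1)
theorem ta_dt47 (x : ℝ) : dt47.val (fun p x => kcg.v p x) (-2 / 5) (cT (-2 / 5)) x = (749517 / 50000000 + (x - 153 / 160) * (137247 / 5000000)) := by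
  simp only [dt47, DT.val, sw47, sl47, sv47]
  ((try push_cast); ring1)
theorem tb_dt47 (x : ℝ) : dt47.val (fun p x => kcg.v p x) (-9 / 25) (cT (-9 / 25)) x = (339443 / 10000000 + (x - 153 / 160) * (2634033 / 10000000)) := by
  simp only [dt47, DT.val, sw47, sl47, sv47]
  ((try push_cast); ring1)
theorem ta_dt69 (x : ℝ) : dt69.val (fun p x => kcg.v p x) (-43 / 100) (cT (-43 / 100)) x = (1112827 / 100000000 + (x - 153 / 160) * (213663 / 10000000)) :=
  (DT.val_le (by simp only [Cn.rt_v, Cn.ng_v]; norm_num)).trans (ta_dt46 x)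
theorem tb_dt69 (x : ℝ) : dt69.val (fun p x => kcg.v p x) (-9 / 25) (cT (-9 / 25)) x = (339443 / 10000000 + (x - 153 / 160) * (2634033 / 10000000)) :=
  (DT.val_gt (by simp only [Cn.rt_v, Cn.ng_v]; norm_num)).trans (tb_dt47 x)
theorem ta_dt70 (x : ℝ) : dt70.val (fun p x => kcg.v p x) (-23 / 50) (cT (-23 / 50)) x = (396259 / 50000000 + (x - 153 / 160) * (291279 / 10000000)) :=
  (DT.val_le (by simp only [Cn.rt_v, Cn.ng_v]; norm_num)).trans (ta_dt45 x)
theorem tb_dt70 (x : ℝ) : dt70.val (fun p x => kcg.v p x) (-9 / 25) (cT (-9 / 25)) x = (339443 / 10000000 + (x - 153 / 160) * (2634033 / 10000000)) :=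
  (DT.val_gt (by simp only [Cn.rt_v, Cn.ng_v]; norm_num)).trans (tb_dt69 x)
theorem ta_dt71 (x : ℝ) : dt71.val (fun p x => kcg.v p x) (-1 / 2) (cT (-1 / 2)) x = (0) :=
  (DT.val_le (by simp only [Cn.rt_v, Cn.ng_v]; norm_num)).trans (ta_dt68 x)
theorem tb_dt71 (x : ℝ) : dt71.val (fun p x => kcg.v p x) (-9 / 25) (cT (-9 / 25)) x = (339443 / 10000000 + (x - 153 / 160) * (2634033 / 10000000)) :=
  (DT.val_gt (by simp only [Cn.rt_v, Cn.ng_v]; norm_num)).trans (tb_dt70 x)
theorem ta_dt48 (x : ℝ) : dt48.val (fun p x => kcg.v p x) (-9 / 25) (cT (-9 / 25)) x = (339443 / 10000000 + (x - 153 / 160) * (2634033 / 10000000)) := by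
  simp only [dt48, DT.val, sw48, sl48, sv48]
  ((try push_cast); ring1)
theorem tb_dt48 (x : ℝ) : dt48.val (fun p x => kcg.v p x) (-33 / 100) (cT (-33 / 100)) x = (5722559 / 100000000 + (x - 153 / 160) * (5844429 / 10000000)) := by
  simp only [dt48, DT.val, sw48, sl48, sv48]
  ((try push_cast); ring1)
theorem ta_dt49 (x : ℝ) : dt49.val (fun p x => kcg.v p x) (-33 / 100) (cT (-33 / 100)) x = (5722559 / 100000000 + (x - 153 / 160) * (5844429 / 10000000)) := by
  simp only [dt49, DT.val, sw49, sl49, sv49]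
  ((try push_cast); ring1)
theorem tb_dt49 (x : ℝ) : dt49.val (fun p x => kcg.v p x) (-3 / 10) (cT (-3 / 10)) x = (3992573 / 50000000 + (x - 153 / 160) * (8469073 / 10000000)) := by
  simp only [dt49, DT.val, sw49, sl49, sv49]
  ((try push_cast); ring1)
theorem ta_dt50 (x : ℝ) : dt50.val (fun p x => kcg.v p x) (-3 / 10) (cT (-3 / 10)) x = (3992573 / 50000000 + (x - 153 / 160) * (8469073 / 10000000)) := by
  simp only [dt50, DT.val, sw50, sl50, sv50]
  ((try push_cast); ring1)
theorem tb_dt50 (x : ℝ) : dt50.val (fun p x => kcg.v p x) (-1 / 4) (cT (-1 / 4)) x = (11464539 / 100000000 + (x - 153 / 160) * (10407221 / 10000000)) := by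
  simp only [dt50, DT.val, sw50, sl50, sv50]
  ((try push_cast); ring1)
theorem ta_dt72 (x : ℝ) : dt72.val (fun p x => kcg.v p x) (-33 / 100) (cT (-33 / 100)) x = (5722559 / 100000000 + (x - 153 / 160) * (5844429 / 10000000)) :=
  (DT.val_le (by simp only [Cn.rt_v, Cn.ng_v]; norm_num)).trans (ta_dt49 x)
theorem tb_dt72 (x : ℝ) : dt72.val (fun p x => kcg.v p x) (-1 / 4) (cT (-1 / 4)) x = (11464539 / 100000000 + (x - 153 / 160) * (10407221 / 10000000)) :=
  (DT.val_gt (by simp only [Cn.rt_v, Cn.ng_v]; norm_num)).trans (tb_dt50 x)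
theorem ta_dt73 (x : ℝ) : dt73.val (fun p x => kcg.v p x) (-9 / 25) (cT (-9 / 25)) x = (339443 / 10000000 + (x - 153 / 160) * (2634033 / 10000000)) :=
  (DT.val_le (by simp only [Cn.rt_v, Cn.ng_v]; norm_num)).trans (ta_dt48 x)
theorem tb_dt73 (x : ℝ) : dt73.val (fun p x => kcg.v p x) (-1 / 4) (cT (-1 / 4)) x = (11464539 / 100000000 + (x - 153 / 160) * (10407221 / 10000000)) :=
  (DT.val_gt (by simp only [Cn.rt_v, Cn.ng_v]; norm_num)).trans (tb_dt72 x)
theorem ta_dt51 (x : ℝ) : dt51.val (fun p x => kcg.v p x) (-1 / 4) (cT (-1 / 4)) x = (11464539 / 100000000 + (x - 153 / 160) * (10407221 / 10000000)) := by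
  simp only [dt51, DT.val, sw51, sl51, sv51]
  ((try push_cast); ring1)
theorem tb_dt51 (x : ℝ) : dt51.val (fun p x => kcg.v p x) (-1 / 5) (cT (-1 / 5)) x = (728961 / 5000000 + (x - 153 / 160) * (10879693 / 10000000)) := by
  simp only [dt51, DT.val, sw51, sl51, sv51]
  ((try push_cast); ring1)
theorem ta_dt52 (x : ℝ) : dt52.val (fun p x => kcg.v p x) (-1 / 5) (cT (-1 / 5)) x = (728961 / 5000000 + (x - 153 / 160) * (10879693 / 10000000)) := by
  simp only [dt52, DT.val, sw52, sl52, sv52]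
  ((try push_cast); ring1)
theorem tb_dt52 (x : ℝ) : dt52.val (fun p x => kcg.v p x) (-3 / 20) (cT (-3 / 20)) x = (689227 / 4000000 + (x - 153 / 160) * (11345577 / 10000000)) := by
  simp only [dt52, DT.val, sw52, sl52, sv52]
  ((try push_cast); ring1)
theorem ta_dt53 (x : ℝ) : dt53.val (fun p x => kcg.v p x) (-3 / 20) (cT (-3 / 20)) x = (689227 / 4000000 + (x - 153 / 160) * (11345577 / 10000000)) := by
  simp only [dt53, DT.val, sw53, sl53, sv53]
  ((try push_cast); ring1)
theorem tb_dt53 (x : ℝ) : dt53.val (fun p x => kcg.v p x) (-1 / 10) (cT (-1 / 10)) x = (9660197 / 50000000 + (x - 153 / 160) * (118077 / 100000)) := by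
  simp only [dt53, DT.val, sw53, sl53, sv53]
  ((try push_cast); ring1)
theorem ta_dt74 (x : ℝ) : dt74.val (fun p x => kcg.v p x) (-1 / 5) (cT (-1 / 5)) x = (728961 / 5000000 + (x - 153 / 160) * (10879693 / 10000000)) :=
  (DT.val_le (by simp only [Cn.rt_v, Cn.ng_v]; norm_num)).trans (ta_dt52 x)
theorem tb_dt74 (x : ℝ) : dt74.val (fun p x => kcg.v p x) (-1 / 10) (cT (-1 / 10)) x = (9660197 / 50000000 + (x - 153 / 160) * (118077 / 100000)) :=
  (DT.val_gt (by simp only [Cn.rt_v, Cn.ng_v]; norm_num)).trans (tb_dt53 x)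
theorem ta_dt75 (x : ℝ) : dt75.val (fun p x => kcg.v p x) (-1 / 4) (cT (-1 / 4)) x = (11464539 / 100000000 + (x - 153 / 160) * (10407221 / 10000000)) :=
  (DT.val_le (by simp only [Cn.rt_v, Cn.ng_v]; norm_num)).trans (ta_dt51 x)
theorem tb_dt75 (x : ℝ) : dt75.val (fun p x => kcg.v p x) (-1 / 10) (cT (-1 / 10)) x = (9660197 / 50000000 + (x - 153 / 160) * (118077 / 100000)) :=
  (DT.val_gt (by simp only [Cn.rt_v, Cn.ng_v]; norm_num)).trans (tb_dt74 x)
theorem ta_dt76 (x : ℝ) : dt76.val (fun p x => kcg.v p x) (-9 / 25) (cT (-9 / 25)) x = (339443 / 10000000 + (x - 153 / 160) * (2634033 / 10000000)) :=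
  (DT.val_le (by simp only [Cn.rt_v, Cn.ng_v]; norm_num)).trans (ta_dt73 x)
theorem tb_dt76 (x : ℝ) : dt76.val (fun p x => kcg.v p x) (-1 / 10) (cT (-1 / 10)) x = (9660197 / 50000000 + (x - 153 / 160) * (118077 / 100000)) :=
  (DT.val_gt (by simp only [Cn.rt_v, Cn.ng_v]; norm_num)).trans (tb_dt75 x)
theorem ta_dt77 (x : ℝ) : dt77.val (fun p x => kcg.v p x) (-1 / 2) (cT (-1 / 2)) x = (0) :=
  (DT.val_le (by simp only [Cn.rt_v, Cn.ng_v]; norm_num)).trans (ta_dt71 x)
theorem tb_dt77 (x : ℝ) : dt77.val (fun p x => kcg.v p x) (-1 / 10) (cT (-1 / 10)) x = (9660197 / 50000000 + (x - 153 / 160) * (118077 / 100000)) :=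
  (DT.val_gt (by simp only [Cn.rt_v, Cn.ng_v]; norm_num)).trans (tb_dt76 x)
theorem ta_dt54 (x : ℝ) : dt54.val (fun p x => kcg.v p x) (-1 / 10) (cT (-1 / 10)) x = (9660197 / 50000000 + (x - 153 / 160) * (118077 / 100000)) := by
  simp only [dt54, DT.val, sw54, sl54, sv54]
  ((try push_cast); ring1)
theorem tb_dt54 (x : ℝ) : dt54.val (fun p x => kcg.v p x) (1 / 10) (cT (1 / 10)) x = (5515579 / 25000000 + (x - 153 / 160) * (6014519 / 5000000)) := by
  simp only [dt54, DT.val, sw54, sl54, sv54]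
  ((try push_cast); ring1)
theorem ta_dt55 (x : ℝ) : dt55.val (fun p x => kcg.v p x) (1 / 10) (cT (1 / 10)) x = (5515579 / 25000000 + (x - 153 / 160) * (6014519 / 5000000)) := by
  simp only [dt55, DT.val, sw55, sl55, sv55]
  ((try push_cast); ring1)
theorem tb_dt55 (x : ℝ) : dt55.val (fun p x => kcg.v p x) (3 / 20) (cT (3 / 20)) x = (10671373 / 50000000 + (x - 153 / 160) * (280399 / 250000)) := by
  simp only [dt55, DT.val, sw55, sl55, sv55]
  ((try push_cast); ring1)
theorem ta_dt56 (x : ℝ) : dt56.val (fun p x => kcg.v p x) (3 / 20) (cT (3 / 20)) x = (10671373 / 50000000 + (x - 153 / 160) * (280399 / 250000)) := by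
  simp only [dt56, DT.val, sw56, sl56, sv56]
  ((try push_cast); ring1)
theorem tb_dt56 (x : ℝ) : dt56.val (fun p x => kcg.v p x) (1 / 5) (cT (1 / 5)) x = (20056789 / 100000000 + (x - 153 / 160) * (947817 / 1000000)) := by
  simp only [dt56, DT.val, sw56, sl56, sv56]
  ((try push_cast); ring1)
theorem ta_dt78 (x : ℝ) : dt78.val (fun p x => kcg.v p x) (1 / 10) (cT (1 / 10)) x = (5515579 / 25000000 + (x - 153 / 160) * (6014519 / 5000000)) :=
  (DT.val_le (by simp only [Cn.rt_v, Cn.ng_v]; norm_num)).trans (ta_dt55 x)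
theorem tb_dt78 (x : ℝ) : dt78.val (fun p x => kcg.v p x) (1 / 5) (cT (1 / 5)) x = (20056789 / 100000000 + (x - 153 / 160) * (947817 / 1000000)) :=
  (DT.val_gt (by simp only [Cn.rt_v, Cn.ng_v]; norm_num)).trans (tb_dt56 x)
theorem ta_dt79 (x : ℝ) : dt79.val (fun p x => kcg.v p x) (-1 / 10) (cT (-1 / 10)) x = (9660197 / 50000000 + (x - 153 / 160) * (118077 / 100000)) :=
  (DT.val_le (by simp only [Cn.rt_v, Cn.ng_v]; norm_num)).trans (ta_dt54 x)
theorem tb_dt79 (x : ℝ) : dt79.val (fun p x => kcg.v p x) (1 / 5) (cT (1 / 5)) x = (20056789 / 100000000 + (x - 153 / 160) * (947817 / 1000000)) :=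
  (DT.val_gt (by simp only [Cn.rt_v, Cn.ng_v]; norm_num)).trans (tb_dt78 x)
theorem ta_dt57 (x : ℝ) : dt57.val (fun p x => kcg.v p x) (1 / 5) (cT (1 / 5)) x = (20056789 / 100000000 + (x - 153 / 160) * (947817 / 1000000)) := by
  simp only [dt57, DT.val, sw57, sl57, sv57]
  ((try push_cast); ring1)
theorem tb_dt57 (x : ℝ) : dt57.val (fun p x => kcg.v p x) (1 / 4) (cT (1 / 4)) x = (3621389 / 20000000 + (x - 153 / 160) * (7269917 / 10000000)) := by
  simp only [dt57, DT.val, sw57, sl57, sv57]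
  ((try push_cast); ring1)
theorem ta_dt58 (x : ℝ) : dt58.val (fun p x => kcg.v p x) (1 / 4) (cT (1 / 4)) x = (3621389 / 20000000 + (x - 153 / 160) * (7269917 / 10000000)) := by
  simp only [dt58, DT.val, sw58, sl58, sv58]
  ((try push_cast); ring1)
theorem tb_dt58 (x : ℝ) : dt58.val (fun p x => kcg.v p x) (3 / 10) (cT (3 / 10)) x = (15398513 / 100000000 + (x - 153 / 160) * (5052327 / 10000000)) := by
  simp only [dt58, DT.val, sw58, sl58, sv58]
  ((try push_cast); ring1)
theorem ta_dt59 (x : ℝ) : dt59.val (fun p x => kcg.v p x) (3 / 10) (cT (3 / 10)) x = (15398513 / 100000000 + (x - 153 / 160) * (5052327 / 10000000)) := by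
  simp only [dt59, DT.val, sw59, sl59, sv59]
  ((try push_cast); ring1)
theorem tb_dt59 (x : ℝ) : dt59.val (fun p x => kcg.v p x) (33 / 100) (cT (33 / 100)) x = (6704629 / 50000000 + (x - 153 / 160) * (149173 / 400000)) := by
  simp only [dt59, DT.val, sw59, sl59, sv59]
  ((try push_cast); ring1)
theorem ta_dt80 (x : ℝ) : dt80.val (fun p x => kcg.v p x) (1 / 4) (cT (1 / 4)) x = (3621389 / 20000000 + (x - 153 / 160) * (7269917 / 10000000)) :=
  (DT.val_le (by simp only [Cn.rt_v, Cn.ng_v]; norm_num)).trans (ta_dt58 x)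
theorem tb_dt80 (x : ℝ) : dt80.val (fun p x => kcg.v p x) (33 / 100) (cT (33 / 100)) x = (6704629 / 50000000 + (x - 153 / 160) * (149173 / 400000)) :=
  (DT.val_gt (by simp only [Cn.rt_v, Cn.ng_v]; norm_num)).trans (tb_dt59 x)
theorem ta_dt81 (x : ℝ) : dt81.val (fun p x => kcg.v p x) (1 / 5) (cT (1 / 5)) x = (20056789 / 100000000 + (x - 153 / 160) * (947817 / 1000000)) :=
  (DT.val_le (by simp only [Cn.rt_v, Cn.ng_v]; norm_num)).trans (ta_dt57 x)
theorem tb_dt81 (x : ℝ) : dt81.val (fun p x => kcg.v p x) (33 / 100) (cT (33 / 100)) x = (6704629 / 50000000 + (x - 153 / 160) * (149173 / 400000)) :=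
  (DT.val_gt (by simp only [Cn.rt_v, Cn.ng_v]; norm_num)).trans (tb_dt80 x)
theorem ta_dt82 (x : ℝ) : dt82.val (fun p x => kcg.v p x) (-1 / 10) (cT (-1 / 10)) x = (9660197 / 50000000 + (x - 153 / 160) * (118077 / 100000)) :=
  (DT.val_le (by simp only [Cn.rt_v, Cn.ng_v]; norm_num)).trans (ta_dt79 x)
theorem tb_dt82 (x : ℝ) : dt82.val (fun p x => kcg.v p x) (33 / 100) (cT (33 / 100)) x = (6704629 / 50000000 + (x - 153 / 160) * (149173 / 400000)) :=
  (DT.val_gt (by simp only [Cn.rt_v, Cn.ng_v]; norm_num)).trans (tb_dt81 x)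
theorem ta_dt60 (x : ℝ) : dt60.val (fun p x => kcg.v p x) (33 / 100) (cT (33 / 100)) x = (6704629 / 50000000 + (x - 153 / 160) * (149173 / 400000)) := by
  simp only [dt60, DT.val, sw60, sl60, sv60]
  ((try push_cast); ring1)
theorem tb_dt60 (x : ℝ) : dt60.val (fun p x => kcg.v p x) (9 / 25) (cT (9 / 25)) x = (2767737 / 25000000 + (x - 153 / 160) * (75669 / 312500)) := by
  simp only [dt60, DT.val, sw60, sl60, sv60]
  ((try push_cast); ring1)
theorem ta_dt61 (x : ℝ) : dt61.val (fun p x => kcg.v p x) (9 / 25) (cT (9 / 25)) x = (2767737 / 25000000 + (x - 153 / 160) * (75669 / 312500)) := by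
  simp only [dt61, DT.val, sw61, sl61, sv61]
  ((try push_cast); ring1)
theorem tb_dt61 (x : ℝ) : dt61.val (fun p x => kcg.v p x) (2 / 5) (cT (2 / 5)) x = (1999063 / 25000000 + (x - 153 / 160) * (277479 / 2000000)) := by
  simp only [dt61, DT.val, sw61, sl61, sv61]
  ((try push_cast); ring1)
theorem ta_dt62 (x : ℝ) : dt62.val (fun p x => kcg.v p x) (2 / 5) (cT (2 / 5)) x = (1999063 / 25000000 + (x - 153 / 160) * (277479 / 2000000)) := by
  simp only [dt62, DT.val, sw62, sw62_2, sl62, sl62_2, sv62, sv62_2]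
  ((try push_cast); ring1)
theorem tb_dt62 (x : ℝ) : dt62.val (fun p x => kcg.v p x) (107 / 254) (73 / 127) x = (41880228150069 / 645160000000000 + (x - 153 / 160) * (7530852541809 / 64516000000000) + (x - 153 / 160) ^ 2 * (604998711 / 3175000000)) := by
  simp only [dt62, DT.val, sw62, sw62_2, sl62, sl62_2, sv62, sv62_2]
  ((try push_cast); ring1)
theorem ta_dt83 (x : ℝ) : dt83.val (fun p x => kcg.v p x) (9 / 25) (cT (9 / 25)) x = (2767737 / 25000000 + (x - 153 / 160) * (75669 / 312500)) :=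
  (DT.val_le (by simp only [Cn.rt_v, Cn.ng_v]; norm_num)).trans (ta_dt61 x)
theorem tb_dt83 (x : ℝ) : dt83.val (fun p x => kcg.v p x) (107 / 254) (73 / 127) x = (41880228150069 / 645160000000000 + (x - 153 / 160) * (7530852541809 / 64516000000000) + (x - 153 / 160) ^ 2 * (604998711 / 3175000000)) :=
  (DT.val_gt (by simp only [Cn.rt_v, Cn.ng_v]; norm_num)).trans (tb_dt62 x)
theorem ta_dt84 (x : ℝ) : dt84.val (fun p x => kcg.v p x) (33 / 100) (cT (33 / 100)) x = (6704629 / 50000000 + (x - 153 / 160) * (149173 / 400000)) :=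
  (DT.val_le (by simp only [Cn.rt_v, Cn.ng_v]; norm_num)).trans (ta_dt60 x)
theorem tb_dt84 (x : ℝ) : dt84.val (fun p x => kcg.v p x) (107 / 254) (73 / 127) x = (41880228150069 / 645160000000000 + (x - 153 / 160) * (7530852541809 / 64516000000000) + (x - 153 / 160) ^ 2 * (604998711 / 3175000000)) :=
  (DT.val_gt (by simp only [Cn.rt_v, Cn.ng_v]; norm_num)).trans (tb_dt83 x)
theorem ta_dt63 (x : ℝ) : dt63.val (fun p x => kcg.v p x) (107 / 254) (73 / 127) x = (41880228150069 / 645160000000000 + (x - 153 / 160) * (7530852541809 / 64516000000000) + (x - 153 / 160) ^ 2 * (604998711 / 3175000000)) := by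
  simp only [dt63, DT.val, cloR, kgA]
  ring1
theorem tb_dt63 (x : ℝ) : dt63.val (fun p x => kcg.v p x) (181 / 397) (431 / 794) x = (481627047575333 / 12608720000000000 + (x - 153 / 160) * (534389762313 / 7880450000000) + (x - 153 / 160) ^ 2 * (263747209 / 1240625000)) := by
  simp only [dt63, DT.val, cloR, kgB]
  ring1
theorem ta_dt64 (x : ℝ) : dt64.val (fun p x => kcg.v p x) (181 / 397) (431 / 794) x = (481627047575333 / 12608720000000000 + (x - 153 / 160) * (534389762313 / 7880450000000) + (x - 153 / 160) ^ 2 * (263747209 / 1240625000)) := by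
  simp only [dt64, DT.val, sw64, sw64_2, sl64, sl64_2, sv64, sv64_2]
  ((try push_cast); ring1)
theorem tb_dt64 (x : ℝ) : dt64.val (fun p x => kcg.v p x) (470613 / 1000000) (cT (470613 / 1000000)) x = (1292159 / 50000000 + (x - 153 / 160) * (5507 / 125000)) := by
  simp only [dt64, DT.val, sw64, sw64_2, sl64, sl64_2, sv64, sv64_2]
  ((try push_cast); ring1)
theorem ta_dt85 (x : ℝ) : dt85.val (fun p x => kcg.v p x) (107 / 254) (73 / 127) x = (41880228150069 / 645160000000000 + (x - 153 / 160) * (7530852541809 / 64516000000000) + (x - 153 / 160) ^ 2 * (604998711 / 3175000000)) :=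
  (DT.val_le (by simp only [Cn.rt_v, Cn.ng_v]; norm_num)).trans (ta_dt63 x)
theorem tb_dt85 (x : ℝ) : dt85.val (fun p x => kcg.v p x) (470613 / 1000000) (cT (470613 / 1000000)) x = (1292159 / 50000000 + (x - 153 / 160) * (5507 / 125000)) :=
  (DT.val_gt (by simp only [Cn.rt_v, Cn.ng_v]; norm_num)).trans (tb_dt64 x)
theorem ta_dt65 (x : ℝ) : dt65.val (fun p x => kcg.v p x) (470613 / 1000000) (cT (470613 / 1000000)) x = (1292159 / 50000000 + (x - 153 / 160) * (5507 / 125000)) := by
  simp only [dt65, DT.val, sw65, sl65, sv65]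
  ((try push_cast); ring1)
theorem tb_dt65 (x : ℝ) : dt65.val (fun p x => kcg.v p x) (242653 / 500000) (cT (242653 / 500000)) x = (1286391 / 100000000 + (x - 153 / 160) * (5491 / 312500)) := by
  simp only [dt65, DT.val, sw65, sl65, sv65]
  ((try push_cast); ring1)
theorem ta_dt66 (x : ℝ) : dt66.val (fun p x => kcg.v p x) (242653 / 500000) (cT (242653 / 500000)) x = (1286391 / 100000000 + (x - 153 / 160) * (5491 / 312500)) := by
  simp only [dt66, DT.val, sw66, sl66, sv66]
  ((try push_cast); ring1)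
theorem tb_dt66 (x : ℝ) : dt66.val (fun p x => kcg.v p x) (1 / 2) (cT (1 / 2)) x = (0) := by
  simp only [dt66, DT.val, sw66, sl66, sv66]
  ((try push_cast); ring1)
theorem ta_dt86 (x : ℝ) : dt86.val (fun p x => kcg.v p x) (470613 / 1000000) (cT (470613 / 1000000)) x = (1292159 / 50000000 + (x - 153 / 160) * (5507 / 125000)) :=
  (DT.val_le (by simp only [Cn.rt_v, Cn.ng_v]; norm_num)).trans (ta_dt65 x)
theorem tb_dt86 (x : ℝ) : dt86.val (fun p x => kcg.v p x) (1 / 2) (cT (1 / 2)) x = (0) :=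
  (DT.val_gt (by simp only [Cn.rt_v, Cn.ng_v]; norm_num)).trans (tb_dt66 x)
theorem ta_dt87 (x : ℝ) : dt87.val (fun p x => kcg.v p x) (107 / 254) (73 / 127) x = (41880228150069 / 645160000000000 + (x - 153 / 160) * (7530852541809 / 64516000000000) + (x - 153 / 160) ^ 2 * (604998711 / 3175000000)) :=
  (DT.val_le (by simp only [Cn.rt_v, Cn.ng_v]; norm_num)).trans (ta_dt85 x)
theorem tb_dt87 (x : ℝ) : dt87.val (fun p x => kcg.v p x) (1 / 2) (cT (1 / 2)) x = (0) :=
  (DT.val_gt (by simp only [Cn.rt_v, Cn.ng_v]; norm_num)).trans (tb_dt86 x)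
theorem ta_dt88 (x : ℝ) : dt88.val (fun p x => kcg.v p x) (33 / 100) (cT (33 / 100)) x = (6704629 / 50000000 + (x - 153 / 160) * (149173 / 400000)) :=
  (DT.val_le (by simp only [Cn.rt_v, Cn.ng_v]; norm_num)).trans (ta_dt84 x)
theorem tb_dt88 (x : ℝ) : dt88.val (fun p x => kcg.v p x) (1 / 2) (cT (1 / 2)) x = (0) :=
  (DT.val_gt (by simp only [Cn.rt_v, Cn.ng_v]; norm_num)).trans (tb_dt87 x)
theorem ta_dt89 (x : ℝ) : dt89.val (fun p x => kcg.v p x) (-1 / 10) (cT (-1 / 10)) x = (9660197 / 50000000 + (x - 153 / 160) * (118077 / 100000)) :=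
  (DT.val_le (by simp only [Cn.rt_v, Cn.ng_v]; norm_num)).trans (ta_dt82 x)
theorem tb_dt89 (x : ℝ) : dt89.val (fun p x => kcg.v p x) (1 / 2) (cT (1 / 2)) x = (0) :=
  (DT.val_gt (by simp only [Cn.rt_v, Cn.ng_v]; norm_num)).trans (tb_dt88 x)
theorem ta_dt90 (x : ℝ) : dt90.val (fun p x => kcg.v p x) (-1 / 2) (cT (-1 / 2)) x = (0) :=
  (DT.val_le (by simp only [Cn.rt_v, Cn.ng_v]; norm_num)).trans (ta_dt77 x)
theorem tb_dt90 (x : ℝ) : dt90.val (fun p x => kcg.v p x) (1 / 2) (cT (1 / 2)) x = (0) :=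
  (DT.val_gt (by simp only [Cn.rt_v, Cn.ng_v]; norm_num)).trans (tb_dt89 x)
theorem to_dt42 (x : ℝ) : dt42.Ok (fun p x => kcg.v p x) x := trivial
theorem to_dt43 (x : ℝ) : dt43.Ok (fun p x => kcg.v p x) x := trivial
theorem to_dt44 (x : ℝ) : dt44.Ok (fun p x => kcg.v p x) x := trivial
theorem to_dt67 (x : ℝ) : dt67.Ok (fun p x => kcg.v p x) x :=
  DT.ok_node (v := -470613 / 1000000) (by simp only [Cn.rt_v, Cn.ng_v]; norm_num) (by rw [abs_le]; constructor <;> norm_num) rfl (tb_dt43 x) (ta_dt44 x) (by ring1) (to_dt43 x) (to_dt44 x)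
theorem to_dt68 (x : ℝ) : dt68.Ok (fun p x => kcg.v p x) x :=
  DT.ok_node (v := -242653 / 500000) (by simp only [Cn.rt_v, Cn.ng_v]; norm_num) (by rw [abs_le]; constructor <;> norm_num) rfl (tb_dt42 x) (ta_dt67 x) (by ring1) (to_dt42 x) (to_dt67 x)
theorem to_dt45 (x : ℝ) : dt45.Ok (fun p x => kcg.v p x) x := trivial
theorem to_dt46 (x : ℝ) : dt46.Ok (fun p x => kcg.v p x) x := trivial
theorem to_dt47 (x : ℝ) : dt47.Ok (fun p x => kcg.v p x) x := trivial
theorem to_dt69 (x : ℝ) : dt69.Ok (fun p x => kcg.v p x) x :=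
  DT.ok_node (v := -2 / 5) (by simp only [Cn.rt_v, Cn.ng_v]; norm_num) (by rw [abs_le]; constructor <;> norm_num) rfl (tb_dt46 x) (ta_dt47 x) (by ring1) (to_dt46 x) (to_dt47 x)
theorem to_dt70 (x : ℝ) : dt70.Ok (fun p x => kcg.v p x) x :=
  DT.ok_node (v := -43 / 100) (by simp only [Cn.rt_v, Cn.ng_v]; norm_num) (by rw [abs_le]; constructor <;> norm_num) rfl (tb_dt45 x) (ta_dt69 x) (by ring1) (to_dt45 x) (to_dt69 x)
theorem to_dt71 (x : ℝ) : dt71.Ok (fun p x => kcg.v p x) x :=
  DT.ok_node (v := -23 / 50) (by simp only [Cn.rt_v, Cn.ng_v]; norm_num) (by rw [abs_le]; constructor <;> norm_num) rfl (tb_dt68 x) (ta_dt70 x) (by ring1) (to_dt68 x) (to_dt70 x)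
theorem to_dt48 (x : ℝ) : dt48.Ok (fun p x => kcg.v p x) x := trivial
theorem to_dt49 (x : ℝ) : dt49.Ok (fun p x => kcg.v p x) x := trivial
theorem to_dt50 (x : ℝ) : dt50.Ok (fun p x => kcg.v p x) x := trivial
theorem to_dt72 (x : ℝ) : dt72.Ok (fun p x => kcg.v p x) x :=
  DT.ok_node (v := -3 / 10) (by simp only [Cn.rt_v, Cn.ng_v]; norm_num) (by rw [abs_le]; constructor <;> norm_num) rfl (tb_dt49 x) (ta_dt50 x) (by ring1) (to_dt49 x) (to_dt50 x)
theorem to_dt73 (x : ℝ) : dt73.Ok (fun p x => kcg.v p x) x :=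
  DT.ok_node (v := -33 / 100) (by simp only [Cn.rt_v, Cn.ng_v]; norm_num) (by rw [abs_le]; constructor <;> norm_num) rfl (tb_dt48 x) (ta_dt72 x) (by ring1) (to_dt48 x) (to_dt72 x)
theorem to_dt51 (x : ℝ) : dt51.Ok (fun p x => kcg.v p x) x := trivial
theorem to_dt52 (x : ℝ) : dt52.Ok (fun p x => kcg.v p x) x := trivial
theorem to_dt53 (x : ℝ) : dt53.Ok (fun p x => kcg.v p x) x := trivial
theorem to_dt74 (x : ℝ) : dt74.Ok (fun p x => kcg.v p x) x :=
  DT.ok_node (v := -3 / 20) (by simp only [Cn.rt_v, Cn.ng_v]; norm_num) (by rw [abs_le]; constructor <;> norm_num) rfl (tb_dt52 x) (ta_dt53 x) (by ring1) (to_dt52 x) (to_dt53 x)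
theorem to_dt75 (x : ℝ) : dt75.Ok (fun p x => kcg.v p x) x :=
  DT.ok_node (v := -1 / 5) (by simp only [Cn.rt_v, Cn.ng_v]; norm_num) (by rw [abs_le]; constructor <;> norm_num) rfl (tb_dt51 x) (ta_dt74 x) (by ring1) (to_dt51 x) (to_dt74 x)
theorem to_dt76 (x : ℝ) : dt76.Ok (fun p x => kcg.v p x) x :=
  DT.ok_node (v := -1 / 4) (by simp only [Cn.rt_v, Cn.ng_v]; norm_num) (by rw [abs_le]; constructor <;> norm_num) rfl (tb_dt73 x) (ta_dt75 x) (by ring1) (to_dt73 x) (to_dt75 x)
theorem to_dt77 (x : ℝ) : dt77.Ok (fun p x => kcg.v p x) x :=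
  DT.ok_node (v := -9 / 25) (by simp only [Cn.rt_v, Cn.ng_v]; norm_num) (by rw [abs_le]; constructor <;> norm_num) rfl (tb_dt71 x) (ta_dt76 x) (by ring1) (to_dt71 x) (to_dt76 x)
theorem to_dt54 (x : ℝ) : dt54.Ok (fun p x => kcg.v p x) x := trivial
theorem to_dt55 (x : ℝ) : dt55.Ok (fun p x => kcg.v p x) x := trivial
theorem to_dt56 (x : ℝ) : dt56.Ok (fun p x => kcg.v p x) x := trivial
theorem to_dt78 (x : ℝ) : dt78.Ok (fun p x => kcg.v p x) x :=
  DT.ok_node (v := 3 / 20) (by simp only [Cn.rt_v, Cn.ng_v]; norm_num) (by rw [abs_le]; constructor <;> norm_num) rfl (tb_dt55 x) (ta_dt56 x) (by ring1) (to_dt55 x) (to_dt56 x)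
theorem to_dt79 (x : ℝ) : dt79.Ok (fun p x => kcg.v p x) x :=
  DT.ok_node (v := 1 / 10) (by simp only [Cn.rt_v, Cn.ng_v]; norm_num) (by rw [abs_le]; constructor <;> norm_num) rfl (tb_dt54 x) (ta_dt78 x) (by ring1) (to_dt54 x) (to_dt78 x)
theorem to_dt57 (x : ℝ) : dt57.Ok (fun p x => kcg.v p x) x := trivial
theorem to_dt58 (x : ℝ) : dt58.Ok (fun p x => kcg.v p x) x := trivial
theorem to_dt59 (x : ℝ) : dt59.Ok (fun p x => kcg.v p x) x := trivial
theorem to_dt80 (x : ℝ) : dt80.Ok (fun p x => kcg.v p x) x :=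
  DT.ok_node (v := 3 / 10) (by simp only [Cn.rt_v, Cn.ng_v]; norm_num) (by rw [abs_le]; constructor <;> norm_num) rfl (tb_dt58 x) (ta_dt59 x) (by ring1) (to_dt58 x) (to_dt59 x)
theorem to_dt81 (x : ℝ) : dt81.Ok (fun p x => kcg.v p x) x :=
  DT.ok_node (v := 1 / 4) (by simp only [Cn.rt_v, Cn.ng_v]; norm_num) (by rw [abs_le]; constructor <;> norm_num) rfl (tb_dt57 x) (ta_dt80 x) (by ring1) (to_dt57 x) (to_dt80 x)
theorem to_dt82 (x : ℝ) : dt82.Ok (fun p x => kcg.v p x) x :=
  DT.ok_node (v := 1 / 5) (by simp only [Cn.rt_v, Cn.ng_v]; norm_num) (by rw [abs_le]; constructor <;> norm_num) rfl (tb_dt79 x) (ta_dt81 x) (by ring1) (to_dt79 x) (to_dt81 x)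
theorem to_dt60 (x : ℝ) : dt60.Ok (fun p x => kcg.v p x) x := trivial
theorem to_dt61 (x : ℝ) : dt61.Ok (fun p x => kcg.v p x) x := trivial
theorem to_dt62 (x : ℝ) : dt62.Ok (fun p x => kcg.v p x) x := trivial
theorem to_dt83 (x : ℝ) : dt83.Ok (fun p x => kcg.v p x) x :=
  DT.ok_node (v := 2 / 5) (by simp only [Cn.rt_v, Cn.ng_v]; norm_num) (by rw [abs_le]; constructor <;> norm_num) rfl (tb_dt61 x) (ta_dt62 x) (by ring1) (to_dt61 x) (to_dt62 x)
theorem to_dt84 (x : ℝ) : dt84.Ok (fun p x => kcg.v p x) x :=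
  DT.ok_node (v := 9 / 25) (by simp only [Cn.rt_v, Cn.ng_v]; norm_num) (by rw [abs_le]; constructor <;> norm_num) rfl (tb_dt60 x) (ta_dt83 x) (by ring1) (to_dt60 x) (to_dt83 x)
theorem to_dt63 (x : ℝ) : dt63.Ok (fun p x => kcg.v p x) x := trivial
theorem to_dt64 (x : ℝ) : dt64.Ok (fun p x => kcg.v p x) x := trivial
theorem to_dt85 (x : ℝ) : dt85.Ok (fun p x => kcg.v p x) x :=
  DT.ok_node (v := 181 / 397) (by simp only [Cn.rt_v, Cn.ng_v]; norm_num) (by rw [abs_le]; constructor <;> norm_num) ctB (tb_dt63 x) (ta_dt64 x) (by ring1) (to_dt63 x) (to_dt64 x)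
theorem to_dt65 (x : ℝ) : dt65.Ok (fun p x => kcg.v p x) x := trivial
theorem to_dt66 (x : ℝ) : dt66.Ok (fun p x => kcg.v p x) x := trivial
theorem to_dt86 (x : ℝ) : dt86.Ok (fun p x => kcg.v p x) x :=
  DT.ok_node (v := 242653 / 500000) (by simp only [Cn.rt_v, Cn.ng_v]; norm_num) (by rw [abs_le]; constructor <;> norm_num) rfl (tb_dt65 x) (ta_dt66 x) (by ring1) (to_dt65 x) (to_dt66 x)
theorem to_dt87 (x : ℝ) : dt87.Ok (fun p x => kcg.v p x) x :=
  DT.ok_node (v := 470613 / 1000000) (by simp only [Cn.rt_v, Cn.ng_v]; norm_num) (by rw [abs_le]; constructor <;> norm_num) rfl (tb_dt85 x) (ta_dt86 x) (by ring1) (to_dt85 x) (to_dt86 x)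
theorem to_dt88 (x : ℝ) : dt88.Ok (fun p x => kcg.v p x) x :=
  DT.ok_node (v := 107 / 254) (by simp only [Cn.rt_v, Cn.ng_v]; norm_num) (by rw [abs_le]; constructor <;> norm_num) ctA (tb_dt84 x) (ta_dt87 x) (by ring1) (to_dt84 x) (to_dt87 x)
theorem to_dt89 (x : ℝ) : dt89.Ok (fun p x => kcg.v p x) x :=
  DT.ok_node (v := 33 / 100) (by simp only [Cn.rt_v, Cn.ng_v]; norm_num) (by rw [abs_le]; constructor <;> norm_num) rfl (tb_dt82 x) (ta_dt88 x) (by ring1) (to_dt82 x) (to_dt88 x)
theorem to_dt90 (x : ℝ) : dt90.Ok (fun p x => kcg.v p x) x :=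
  DT.ok_node (v := -1 / 10) (by simp only [Cn.rt_v, Cn.ng_v]; norm_num) (by rw [abs_le]; constructor <;> norm_num) rfl (tb_dt77 x) (ta_dt89 x) (by ring1) (to_dt77 x) (to_dt89 x)
theorem dok (x : ℝ) : dd.Ok x := ⟨ko_dt41 x, fun p h => kfe h, to_dt90 x⟩
theorem K0_ (x : ℝ) : ∀ q y, OnC (0 : Fin 6) q y → TightK (tyO q) q (fun p => dd.kf.v p x) (c1n y) y (tK 0 q y x) := by
  refine K0_of (R := fun q y => tK 0 q y x) (kc := fun p => kcg.v p x) ?_ ?_ ?_
  · intro y h
    show tK 0 0 y x = _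
    ·
      rw [← (atB00 h).K]
      show kf0q0.v y x = _
      simp only [kf0q0, kf0q0_9, kf0q0_12, c1g_v]
      ((try push_cast); (try simp only [mul_inv]); (try ring_nf))
  · intro y h
    show tK 0 1 y x = _
    ·
      rw [← (atB01 h).K]
      show kf0q1.v y x = _
      simp only [kf0q1, kf0q1_10, c1g_v]
      ((try push_cast); (try simp only [mul_inv]); (try ring_nf))
  · intro y h
    show tK 0 2 y x = _
    ·
      have ey := yag_v h.1.nonneg (h.2 rfl)
      rw [← (atB02 h).K]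
      show kfc02.v (c1n y) x = _
      simp only [kfc02, c1g_v, ey]
      ((try push_cast); (try simp only [mul_inv]); (try ring_nf))
theorem L0_ (x : ℝ) : ∀ q y, OnC (0 : Fin 6) q y → TightL (tyO q) (fun p c => dd.TX.val dd.kf.v p c x) (c1n y) y (tL 0 q y x) := by
  refine L0_of (R := fun q y => tL 0 q y x) (tx := fun p c => txg.v p c x) txe ?_ ?_ ?_
  · intro y h
    show tL 0 0 y x = _
    ·
      rw [← (atB00 h).L]
      show l0q0.v y x = _
      simp only [l0q0, c1g_v]
      ((try push_cast); (try simp only [mul_inv]); (try ring_nf))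
  · intro y h
    show tL 0 1 y x = _
    ·
      rw [← (atB01 h).L]
      show l0q1.v y x = _
      simp only [l0q1, c1g_v]
      ((try push_cast); (try simp only [mul_inv]); (try ring_nf))
  · intro y h
    show tL 0 2 y x = _
    ·
      have ey := yag_v h.1.nonneg (h.2 rfl)
      rw [← (atB02 h).L]
      show lc02.v (c1n y) x = _
      simp only [lc02, lc02_7, lc02_8, c1g_v, ey]
      ((try push_cast); (try simp only [mul_inv]); (try ring_nf))
theorem Kn_ (x : ℝ) : ∀ q y, InQ q y → TightK (tyN q) q (fun p => dd.kf.v p x) (c3n y) y (tK (Fin.last 5) q y x) := by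
  refine Kn_of (R := fun q y => tK 5 q y x) (kc := fun p => kcg.v p x) ?_ ?_ ?_ ?_
  · intro y h
    show tK 5 0 y x = _
    ·
      rw [← (atB50 (onc h (by decide))).K]
      show kf5q0.v y x = _
      simp only [kf5q0, c3g_v]
      ((try push_cast); (try simp only [mul_inv]); (try ring_nf))
  · intro y h
    show tK 5 1 y x = _
    ·
      rw [← (atB51 (onc h (by decide))).K]
      show kf5q1.v y x = _
      simp only [kf5q1, c3g_v]
      ((try push_cast); (try simp only [mul_inv]); (try ring_nf))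
  · intro y h
    show tK 5 2 y x = _
    ·
      rw [← (atB52 (onc h (by decide))).K]
      show kf5q2.v y x = _
      simp only [kf5q2, c3g_v]
      ((try push_cast); (try simp only [mul_inv]); (try ring_nf))
  · intro y h
    show tK 5 3 y x = _
    ·
      have ey := ycg_v h.nonneg h.le_two
      rw [← (atB53 (onc h (by decide))).K]
      show kfc53.v (c3n y) x = _
      simp only [kfc53, c3g_v, ey]
      ((try push_cast); (try simp only [mul_inv]); (try ring_nf))
theorem Ln_ (x : ℝ) : ∀ q y, InQ q y → TightL (tyN q) (fun p c => dd.TX.val dd.kf.v p c x) (c3n y) y (tL (Fin.last 5) q y x) := by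
  refine Ln_of (R := fun q y => tL 5 q y x) (tx := fun p c => txg.v p c x) txe ?_ ?_ ?_ ?_
  · intro y h
    show tL 5 0 y x = _
    ·
      rw [← (atB50 (onc h (by decide))).L]
      show l5q0.v y x = _
      simp only [l5q0, l5q0_6, l5q0_7, l5q0_8, c3g_v]
      ((try push_cast); (try simp only [mul_inv]); (try ring_nf))
  · intro y h
    show tL 5 1 y x = _
    ·
      rw [← (atB51 (onc h (by decide))).L]
      show l5q1.v y x = _
      simp only [l5q1, l5q1_7, l5q1_8, l5q1_9, c3g_v]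
      ((try push_cast); (try simp only [mul_inv]); (try ring_nf))
  · intro y h
    show tL 5 2 y x = _
    ·
      rw [← (atB52 (onc h (by decide))).L]
      show l5q2.v y x = _
      simp only [l5q2, l5q2_7, l5q2_8, l5q2_9, l5q2_12, l5q2_14, c3g_v]
      ((try push_cast); (try simp only [mul_inv]); (try ring_nf))
  · intro y h
    show tL 5 3 y x = _
    ·
      have ey := ycg_v h.nonneg h.le_two
      rw [← (atB53 (onc h (by decide))).L]
      show lc53.v (c3n y) x = _
      simp only [lc53, lc53_7, lc53_8, lc53_9, lc53_12, lc53_14, c3g_v, ey]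
      ((try push_cast); (try simp only [mul_inv]); (try ring_nf))
theorem f0_ : ∀ q y, InQ q y → (ff q).f.v y = crv PP 1 q y
  | 0, y, _ => ecv1q0.symm
  | 1, y, _ => ecv1q1.symm
  | 2, y, _ => ecv1q2.symm
  | 3, y, h => (ecv1q3 h.1).symm
theorem fn_ : ∀ q y, InQ q y → (fl q).f.v y = crv PP 4 q y
  | 0, y, _ => ecv4q0.symm
  | 1, y, _ => ecv4q1.symm
  | 2, y, _ => ecv4q2.symm
  | 3, y, h => (ecv4q3 h.1).symm
theorem yK00 {y x : ℝ} (h : OnC (0 : Fin 6) 0 y) : tK 0 0 y x = kf0q0.v y x := (atB00 h).K.symm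
theorem yK10 {y x : ℝ} (h : InQ 0 y) : tK 1 0 y x = kf1q0.v y x := (atB10 (onc h (by decide))).K.symm
theorem yK01 {y x : ℝ} (h : OnC (0 : Fin 6) 1 y) : tK 0 1 y x = kf0q1.v y x := (atB01 h).K.symm
theorem yK11 {y x : ℝ} (h : InQ 1 y) : tK 1 1 y x = kf1q1.v y x := (atB11 (onc h (by decide))).K.symm
theorem yK02 {y x : ℝ} (h : OnC (0 : Fin 6) 2 y) : tK 0 2 y x = kf0q2.v y x := by
  rw [← (atB02 h).K]
  show kfc02.v (c1n y) x = _
  have ey := yag_v h.1.nonneg (h.2 rfl)
  simp only [kfc02, kf0q2, ey, c1g_v, c3g_v, swg_v]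
  ((try push_cast); (try ring_nf))
theorem yK12 {y x : ℝ} (h : InQ 2 y) : tK 1 2 y x = kf1q2.v y x := (atB12 (onc h (by decide))).K.symm
theorem yK50 {y x : ℝ} (h : InQ 0 y) : tK 5 0 y x = kf5q0.v y x := (atB50 (onc h (by decide))).K.symm
theorem yK40 {y x : ℝ} (h : InQ 0 y) : tK 4 0 y x = kf4q0.v y x := (atB40 (onc h (by decide))).K.symm
theorem yK51 {y x : ℝ} (h : InQ 1 y) : tK 5 1 y x = kf5q1.v y x := (atB51 (onc h (by decide))).K.symm
theorem yK41 {y x : ℝ} (h : InQ 1 y) : tK 4 1 y x = kf4q1.v y x := (atB41 (onc h (by decide))).K.symm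
theorem yK52 {y x : ℝ} (h : InQ 2 y) : tK 5 2 y x = kf5q2.v y x := (atB52 (onc h (by decide))).K.symm
theorem yK42 {y x : ℝ} (h : InQ 2 y) : tK 4 2 y x = kf4q2.v y x := (atB42 (onc h (by decide))).K.symm
theorem yK53 {y x : ℝ} (h : InQ 3 y) : tK 5 3 y x = kf5q3.v y x := by
  rw [← (atB53 (onc h (by decide))).K]
  show kfc53.v (c3n y) x = _
  have ey := ycg_v h.nonneg h.le_two
  simp only [kfc53, kf5q3, ey, c1g_v, c3g_v, swg_v]
  ((try push_cast); (try ring_nf))
theorem yK43 {y x : ℝ} (h : InQ 3 y) : tK 4 3 y x = kf4q3.v y x := by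
  rw [← (atB43 (onc h (by decide))).K]
  show kfc43.v (c3n y) x = _
  have ey := ycg_v h.nonneg h.le_two
  simp only [kfc43, kfc43_11, kf4q3, kf4q3_4, cv4r, ey, c1g_v, c3g_v, swg_v]
  ((try push_cast); (try ring_nf))
theorem yL00 {y x : ℝ} (h : OnC (0 : Fin 6) 0 y) : tL 0 0 y x = l0q0.v y x := (atB00 h).L.symm
theorem yL10 {y x : ℝ} (h : InQ 0 y) : tL 1 0 y x = l1q0.v y x := (atB10 (onc h (by decide))).L.symm
theorem yL01 {y x : ℝ} (h : OnC (0 : Fin 6) 1 y) : tL 0 1 y x = l0q1.v y x := (atB01 h).L.symm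
theorem yL11 {y x : ℝ} (h : InQ 1 y) : tL 1 1 y x = l1q1.v y x := (atB11 (onc h (by decide))).L.symm
theorem yL02 {y x : ℝ} (h : OnC (0 : Fin 6) 2 y) : tL 0 2 y x = l0q2.v y x := by
  rw [← (atB02 h).L]
  show lc02.v (c1n y) x = _
  have ey := yag_v h.1.nonneg (h.2 rfl)
  simp only [lc02, lc02_7, lc02_8, l0q2, l0q2_7, l0q2_8, ey, c1g_v, c3g_v, swg_v]
  ((try push_cast); (try ring_nf))
theorem yL12 {y x : ℝ} (h : InQ 2 y) : tL 1 2 y x = l1q2.v y x := (atB12 (onc h (by decide))).L.symm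
theorem yL50 {y x : ℝ} (h : InQ 0 y) : tL 5 0 y x = l5q0.v y x := (atB50 (onc h (by decide))).L.symm
theorem yL40 {y x : ℝ} (h : InQ 0 y) : tL 4 0 y x = l4q0.v y x := (atB40 (onc h (by decide))).L.symm
theorem yL51 {y x : ℝ} (h : InQ 1 y) : tL 5 1 y x = l5q1.v y x := (atB51 (onc h (by decide))).L.symm
theorem yL41 {y x : ℝ} (h : InQ 1 y) : tL 4 1 y x = l4q1.v y x := (atB41 (onc h (by decide))).L.symm
theorem yL52 {y x : ℝ} (h : InQ 2 y) : tL 5 2 y x = l5q2.v y x := (atB52 (onc h (by decide))).L.symm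
theorem yL42 {y x : ℝ} (h : InQ 2 y) : tL 4 2 y x = l4q2.v y x := (atB42 (onc h (by decide))).L.symm
theorem yL53 {y x : ℝ} (h : InQ 3 y) : tL 5 3 y x = l5q3.v y x := by
  rw [← (atB53 (onc h (by decide))).L]
  show lc53.v (c3n y) x = _
  have ey := ycg_v h.nonneg h.le_two
  simp only [lc53, lc53_7, lc53_8, lc53_9, lc53_12, lc53_14, l5q3, l5q3_7, l5q3_8, l5q3_9, l5q3_12, l5q3_14, ey, c1g_v, c3g_v, swg_v]
  ((try push_cast); (try ring_nf))
theorem yL43 {y x : ℝ} (h : InQ 3 y) : tL 4 3 y x = l4q3.v y x := by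
  rw [← (atB43 (onc h (by decide))).L]
  show lc43.v (c3n y) x = _
  have ey := ycg_v h.nonneg h.le_two
  simp only [lc43, lc43_11, l4q3, l4q3_4, cv4r, ey, c1g_v, c3g_v, swg_v]
  ((try push_cast); (try ring_nf))
theorem sK0_ (x : ℝ) : ∀ q y, OnC (0 : Fin 6) q y → c1n y < crv PP 1 q y →
    (ff q).SK.v y x * (crv PP 1 q y - c1n y) = tK 1 q y x - tK 0 q y x := by
  intro q y h hlt
  rcases onC_q h with rfl | rfl | rfl
  · rw [yK10 h.1, yK00 h]
    rw [ecv1q0, ← c1g_v] at hlt ⊢
    have hd : 0 < cv1m.v y - c1g.v y := sub_pos.2 hlt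
    have hi := inv_mul_cancel₀ hd.ne'
    show skf0.v y x * _ = _
    simp only [skf0, kf1q0]
    (try push_cast)
    linear_combination (c1g.v y * bf1q0.v y x - kf0q0.v y x) * hi
  · rw [yK11 h.1, yK01 h]
    rw [ecv1q1, ← c1g_v] at hlt ⊢
    have hd : 0 < cv1m.v y - c1g.v y := sub_pos.2 hlt
    have hi := inv_mul_cancel₀ hd.ne'
    show skf1.v y x * _ = _
    simp only [skf1, kf1q1]
    (try push_cast)
    linear_combination (c1g.v y * bf1q1.v y x - kf0q1.v y x) * hi
  · rw [yK12 h.1, yK02 h]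
    rw [ecv1q2, ← c1g_v] at hlt ⊢
    have hd : 0 < cv1p.v y - c1g.v y := sub_pos.2 hlt
    have hi := inv_mul_cancel₀ hd.ne'
    have hb : |c1g.v y| ≤ 1 / 2 := by rw [c1g_v]; exact bnd_O h
    have eo := odd (x := x) hb
    show skf2.v y x * _ = _
    simp only [skf2, kf1q2, kf0q2, eo]
    (try push_cast)
    linear_combination (c1g.v y * (bf1q2.v y x - 1) + (y - 1) * kcg.v (c1g.v y) x) * hi
theorem sX0_ (x : ℝ) : ∀ q y, OnC (0 : Fin 6) q y → c1n y < crv PP 1 q y →
    (ff q).SX.v y x * (crv PP 1 q y - c1n y) = tL 1 q y x - tL 0 q y x := by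
  intro q y h hlt
  rcases onC_q h with rfl | rfl | rfl
  · rw [yL10 h.1, yL00 h]
    rw [ecv1q0, ← c1g_v] at hlt ⊢
    have hd : 0 < cv1m.v y - c1g.v y := sub_pos.2 hlt
    have hi := inv_mul_cancel₀ hd.ne'
    show sxf0.v y x * _ = _
    simp only [sxf0]
    (try push_cast)
    linear_combination (l1q0.v y x - l0q0.v y x) * hi
  · rw [yL11 h.1, yL01 h]
    rw [ecv1q1, ← c1g_v] at hlt ⊢
    have hd : 0 < cv1m.v y - c1g.v y := sub_pos.2 hlt
    have hi := inv_mul_cancel₀ hd.ne'
    show sxf1.v y x * _ = _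
    simp only [sxf1]
    (try push_cast)
    linear_combination (l1q1.v y x - l0q1.v y x) * hi
  · rw [yL12 h.1, yL02 h]
    rw [ecv1q2, ← c1g_v] at hlt ⊢
    have hd : 0 < cv1p.v y - c1g.v y := sub_pos.2 hlt
    have hi := inv_mul_cancel₀ hd.ne'
    show sxf2.v y x * _ = _
    simp only [sxf2]
    (try push_cast)
    linear_combination (l1q2.v y x - l0q2.v y x) * hi
theorem sKn_ (x : ℝ) : ∀ q y, InQ q y → crv PP 4 q y < c3n y →
    (fl q).SK.v y x * (c3n y - crv PP 4 q y) = tK 5 q y x - tK 4 q y x := by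
  intro q y h hlt
  match q, h with
  | 0, h =>
    rw [yK50 h, yK40 h]
    rw [ecv4q0, ← c3g_v] at hlt ⊢
    have hd : 0 < c3g.v y - cv4m.v y := sub_pos.2 hlt
    have hi := inv_mul_cancel₀ hd.ne'
    show skl0.v y x * _ = _
    simp only [skl0, kf4q0]
    (try push_cast)
    linear_combination (kf5q0.v y x - c3g.v y * bf4q0.v y x) * hi
  | 1, h =>
    rw [yK51 h, yK41 h]
    rw [ecv4q1, ← c3g_v] at hlt ⊢
    have hd : 0 < c3g.v y - cv4m.v y := sub_pos.2 hlt
    have hi := inv_mul_cancel₀ hd.ne'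
    show skl1.v y x * _ = _
    simp only [skl1, kf4q1]
    (try push_cast)
    linear_combination (kf5q1.v y x - c3g.v y * bf4q1.v y x) * hi
  | 2, h =>
    rw [yK52 h, yK42 h]
    rw [ecv4q2, ← c3g_v] at hlt ⊢
    have hd : 0 < c3g.v y - cv4p.v y := sub_pos.2 hlt
    have hi := inv_mul_cancel₀ hd.ne'
    show skl2.v y x * _ = _
    simp only [skl2, kf4q2]
    (try push_cast)
    linear_combination (kf5q2.v y x - c3g.v y * bf4q2.v y x) * hi
  | 3, h =>
    rw [yK53 h, yK43 h]
    rw [ecv4q3 h.1, ← c3g_v] at hlt ⊢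
    have hd : 0 < c3g.v y - cv4r.v y := sub_pos.2 hlt
    have hi := inv_mul_cancel₀ hd.ne'
    have hB : kf4q3.v y x = cv4r.v y * bf4q3.v y x := by
      simp only [kf4q3, kf4q3_4, bf4q3, bf4q3_3]
    show skl3.v y x * _ = _
    simp only [skl3, hB]
    (try push_cast)
    linear_combination (kf5q3.v y x - c3g.v y * bf4q3.v y x) * hi
theorem sXn_ (x : ℝ) : ∀ q y, InQ q y → crv PP 4 q y < c3n y →
    (fl q).SX.v y x * (c3n y - crv PP 4 q y) = tL 5 q y x - tL 4 q y x := by
  intro q y h hlt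
  match q, h with
  | 0, h =>
    rw [yL50 h, yL40 h]
    rw [ecv4q0, ← c3g_v] at hlt ⊢
    have hd : 0 < c3g.v y - cv4m.v y := sub_pos.2 hlt
    have hi := inv_mul_cancel₀ hd.ne'
    show sxl0.v y x * _ = _
    simp only [sxl0]
    (try push_cast)
    linear_combination (l5q0.v y x - l4q0.v y x) * hi
  | 1, h =>
    rw [yL51 h, yL41 h]
    rw [ecv4q1, ← c3g_v] at hlt ⊢
    have hd : 0 < c3g.v y - cv4m.v y := sub_pos.2 hlt
    have hi := inv_mul_cancel₀ hd.ne'
    show sxl1.v y x * _ = _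
    simp only [sxl1]
    (try push_cast)
    linear_combination (l5q1.v y x - l4q1.v y x) * hi
  | 2, h =>
    rw [yL52 h, yL42 h]
    rw [ecv4q2, ← c3g_v] at hlt ⊢
    have hd : 0 < c3g.v y - cv4p.v y := sub_pos.2 hlt
    have hi := inv_mul_cancel₀ hd.ne'
    show sxl2.v y x * _ = _
    simp only [sxl2]
    (try push_cast)
    linear_combination (l5q2.v y x - l4q2.v y x) * hi
  | 3, h =>
    rw [yL53 h, yL43 h]
    rw [ecv4q3 h.1, ← c3g_v] at hlt ⊢
    have hd : 0 < c3g.v y - cv4r.v y := sub_pos.2 hlt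
    have hi := inv_mul_cancel₀ hd.ne'
    show sxl3.v y x * _ = _
    simp only [sxl3]
    (try push_cast)
    linear_combination (l5q3.v y x - l4q3.v y x) * hi
theorem kn_ (x : ℝ) : ∀ X, |X| ≤ vv.k1.v → kcg.v (-X) x = -(k0c.v x * X) := by
  intro X h
  have h : |X| ≤ 2 / 25 := by
    refine h.trans_eq ?_
    show (Cn.rt 2 25).v = _
    rw [Cn.rt_v]
    norm_num
  obtain ⟨h1, h2⟩ := abs_le.1 h
  rw [kcl10 (p := -X) (by linarith) (by linarith)]
  simp only [k0c]
  push_cast
  ring
theorem tvm {p c x : ℝ} (h1 : -1 / 10 ≤ p) (h2 : p ≤ 1 / 10) : dt90.val (fun p x => kcg.v p x) p c x = (4362931 / 20000000 + (x - 153 / 160) * (12323469 / 10000000)) + (1370961 / 10000000 + (x - 153 / 160) * (110669 / 1000000)) * p + (-11233 / 10000 + (x - 153 / 160) * (-4051 / 1000)) * p ^ 2 := by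
  rcases eq_or_lt_of_le h1 with h | h1
  · subst h
    refine (DT.val_le (by simp only [Cn.rt_v, Cn.ng_v]; push_cast; linarith)).trans ?_
    refine (DT.val_gt (by simp only [Cn.rt_v, Cn.ng_v]; push_cast; linarith)).trans ?_
    refine (DT.val_gt (by simp only [Cn.rt_v, Cn.ng_v]; push_cast; linarith)).trans ?_
    refine (DT.val_gt (by simp only [Cn.rt_v, Cn.ng_v]; push_cast; linarith)).trans ?_
    refine (DT.val_gt (by simp only [Cn.rt_v, Cn.ng_v]; push_cast; linarith)).trans ?_
    simp only [dt53, DT.val, sw53, sl53, sv53]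
    ((try push_cast); ring1)
  ·
    refine (DT.val_gt (by simp only [Cn.rt_v, Cn.ng_v]; push_cast; linarith)).trans ?_
    refine (DT.val_le (by simp only [Cn.rt_v, Cn.ng_v]; push_cast; linarith)).trans ?_
    refine (DT.val_le (by simp only [Cn.rt_v, Cn.ng_v]; push_cast; linarith)).trans ?_
    refine (DT.val_le (by simp only [Cn.rt_v, Cn.ng_v]; push_cast; linarith)).trans ?_
    simp only [dt54, DT.val, sw54, sl54, sv54]
    ((try push_cast); ring1)
theorem tn_ (x : ℝ) : ∀ X, |X| ≤ vv.k1.v → dd.tF x (-X) - dd.tF x X = m0c.v x * X := by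
  intro X h
  have h : |X| ≤ 2 / 25 := by
    refine h.trans_eq ?_
    show (Cn.rt 2 25).v = _
    rw [Cn.rt_v]
    norm_num
  obtain ⟨h1, h2⟩ := abs_le.1 h
  show dt90.val (fun p x => kcg.v p x) (-X) (cT (-X)) x - dt90.val (fun p x => kcg.v p x) X (cT X) x = _
  rw [tvm (by linarith) (by linarith), tvm (by linarith) (by linarith)]
  simp only [m0c]
  push_cast
  ring
theorem vK_ (x : ℝ) : ∀ y, InQ 2 y → tK 1 2 y x = crv PP 1 2 y * bf1q2.v y x := by
  intro y h
  rw [yK12 h, ecv1q2]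
  simp only [kf1q2]
theorem vX_ (x : ℝ) : ∀ y, InQ 2 y → tL 1 2 y x = crv PP 1 2 y * bx1q2.v y x := by
  intro y h
  rw [yL12 h, ecv1q2]
  simp only [l1q2]
theorem n0_rK (y x : ℝ) : n0b.v y x = (1 - (y - 1) * k0c.v x) := by
  simp only [n0b, k0c]
  all_goals (try push_cast)
  all_goals (try ring)
theorem rK_ (x : ℝ) : ∀ y, OnC (0 : Fin 6) 2 y → c1n y < crv PP 1 2 y →
    rhk.v y x * (crv PP 1 2 y - c1n y) = crv PP 1 2 y * (bf1q2.v y x - (1 - (y - 1) * k0c.v x)) := by
  intro y h hlt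
  rw [ecv1q2, ← c1g_v] at hlt ⊢
  have hd : 0 < cv1p.v y - c1g.v y := sub_pos.2 hlt
  have hi := inv_mul_cancel₀ hd.ne'
  rw [← n0_rK]
  simp only [rhk]
  linear_combination ((bf1q2.v y x - n0b.v y x) * cv1p.v y) * hi
theorem n0_rX (y x : ℝ) : n0x.v y x = m0c.v x := by
  simp only [n0x, m0c]
  all_goals (try push_cast)
  all_goals (try ring)
theorem rX_ (x : ℝ) : ∀ y, OnC (0 : Fin 6) 2 y → c1n y < crv PP 1 2 y →
    rhx.v y x * (crv PP 1 2 y - c1n y) = crv PP 1 2 y * (bx1q2.v y x - m0c.v x) := by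
  intro y h hlt
  rw [ecv1q2, ← c1g_v] at hlt ⊢
  have hd : 0 < cv1p.v y - c1g.v y := sub_pos.2 hlt
  have hi := inv_mul_cancel₀ hd.ne'
  rw [← n0_rX]
  simp only [rhx]
  linear_combination ((bx1q2.v y x - n0x.v y x) * cv1p.v y) * hi
theorem flat_ (x : ℝ) : ∀ y, InQ 2 y → vv.ya.v ≤ y → y ≤ vv.yb.v → bf1q2.v y x = 1 - (y - 1) * k0c.v x ∧ bx1q2.v y x = m0c.v x := by
  intro y h h1 h2
  have ea : vv.ya.v = 577 / 500 := by
    show (Cn.rt 577 500).v = _
    rw [Cn.rt_v]
    norm_num
  have eb : vv.yb.v = 231 / 200 := by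
    show (Cn.rt 231 200).v = _
    rw [Cn.rt_v]
    norm_num
  rw [ea] at h1
  rw [eb] at h2
  constructor
  · simp only [bf1q2, bf1q2_3, bf1q2_33, bf1q2_59, k0c]
    rcases eq_or_lt_of_le h1 with g | h1
    · subst g
      ((try push_cast); (repeat first | rw [if_pos (by linarith)] | rw [if_neg (by linarith)] | erw [if_pos (by linarith)] | erw [if_neg (by linarith)]); (try push_cast); (try ring1))
    rcases eq_or_lt_of_le h2 with g | h2
    · subst g
      ((try push_cast); (repeat first | rw [if_pos (by linarith)] | rw [if_neg (by linarith)] | erw [if_pos (by linarith)] | erw [if_neg (by linarith)]); (try push_cast); (try ring1))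
    · ((try push_cast); (repeat first | rw [if_pos (by linarith)] | rw [if_neg (by linarith)] | erw [if_pos (by linarith)] | erw [if_neg (by linarith)]); (try push_cast); (try ring1))
  · simp only [bx1q2, bx1q2_3, bx1q2_85, m0c]
    rcases eq_or_lt_of_le h1 with g | h1
    · subst g
      ((try push_cast); (repeat first | rw [if_pos (by linarith)] | rw [if_neg (by linarith)] | erw [if_pos (by linarith)] | erw [if_neg (by linarith)]); (try push_cast); (try ring1))
    rcases eq_or_lt_of_le h2 with g | h2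
    · subst g
      ((try push_cast); (repeat first | rw [if_pos (by linarith)] | rw [if_neg (by linarith)] | erw [if_pos (by linarith)] | erw [if_neg (by linarith)]); (try push_cast); (try ring1))
    · ((try push_cast); (repeat first | rw [if_pos (by linarith)] | rw [if_neg (by linarith)] | erw [if_pos (by linarith)] | erw [if_neg (by linarith)]); (try push_cast); (try ring1))
theorem abk_ (x : ℝ) : ∀ y, InQ 2 y → vv.yb.v ≤ y → y ≤ vv.yk.v → bf1q2.v y x = 1 - (y - 1) * k0c.v x + sbk.v x * (y - vv.yb.v) ∧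
    bx1q2.v y x = m0c.v x + sbx.v x * (y - vv.yb.v) := by
  intro y h h1 h2
  have eb : vv.yb.v = 231 / 200 := by
    show (Cn.rt 231 200).v = _
    rw [Cn.rt_v]
    norm_num
  have ek : vv.yk.v = 29 / 25 := by
    show (Cn.rt 29 25).v = _
    rw [Cn.rt_v]
    norm_num
  rw [eb] at h1 ⊢
  rw [ek] at h2
  constructor
  · simp only [bf1q2, bf1q2_3, bf1q2_33, bf1q2_59, k0c, sbk]
    rcases eq_or_lt_of_le h1 with g | h1
    · subst g
      ((try push_cast); (repeat first | rw [if_pos (by linarith)] | rw [if_neg (by linarith)] | erw [if_pos (by linarith)] | erw [if_neg (by linarith)]); (try push_cast); (try ring1))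
    rcases eq_or_lt_of_le h2 with g | h2
    · subst g
      ((try push_cast); (repeat first | rw [if_pos (by linarith)] | rw [if_neg (by linarith)] | erw [if_pos (by linarith)] | erw [if_neg (by linarith)]); (try push_cast); (try ring1))
    · ((try push_cast); (repeat first | rw [if_pos (by linarith)] | rw [if_neg (by linarith)] | erw [if_pos (by linarith)] | erw [if_neg (by linarith)]); (try push_cast); (try ring1))
  · simp only [bx1q2, bx1q2_3, bx1q2_85, m0c, sbx]
    rcases eq_or_lt_of_le h1 with g | h1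
    · subst g
      ((try push_cast); (repeat first | rw [if_pos (by linarith)] | rw [if_neg (by linarith)] | erw [if_pos (by linarith)] | erw [if_neg (by linarith)]); (try push_cast); (try ring1))
    rcases eq_or_lt_of_le h2 with g | h2
    · subst g
      ((try push_cast); (repeat first | rw [if_pos (by linarith)] | rw [if_neg (by linarith)] | erw [if_pos (by linarith)] | erw [if_neg (by linarith)]); (try push_cast); (try ring1))
    · ((try push_cast); (repeat first | rw [if_pos (by linarith)] | rw [if_neg (by linarith)] | erw [if_pos (by linarith)] | erw [if_neg (by linarith)]); (try push_cast); (try ring1))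
theorem ka_dt91 (x : ℝ) : dt91.kv (-1 / 4) x = (-212399 / 100000000 + (x - 153 / 160) * (-3690649 / 10000000)) := by
  simp only [dt91, DT.kv, sw91, sl91, sv91]
  ((try push_cast); ring1)
theorem kb_dt91 (x : ℝ) : dt91.kv (-1 / 5) x = (-251 / 4000000 + (x - 153 / 160) * (-1844199 / 10000000)) := by
  simp only [dt91, DT.kv, sw91, sl91, sv91]
  ((try push_cast); ring1)
theorem ka_dt92 (x : ℝ) : dt92.kv (-1 / 5) x = (-251 / 4000000 + (x - 153 / 160) * (-1844199 / 10000000)) := by
  simp only [dt92, DT.kv, sw92, sl92, sv92]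
  ((try push_cast); ring1)
theorem kb_dt92 (x : ℝ) : dt92.kv (-3 / 20) x = (-203 / 25000000 + (x - 153 / 160) * (-57703 / 1250000)) := by
  simp only [dt92, DT.kv, sw92, sl92, sv92]
  ((try push_cast); ring1)
theorem ka_dt93 (x : ℝ) : dt93.kv (-3 / 20) x = (-203 / 25000000 + (x - 153 / 160) * (-57703 / 1250000)) := by
  simp only [dt93, DT.kv, sw93, sl93, sv93]
  ((try push_cast); ring1)
theorem kb_dt93 (x : ℝ) : dt93.kv (-1 / 10) x = (0) := by
  simp only [dt93, DT.kv, sw93, sl93, sv93]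
  ((try push_cast); ring1)
theorem ka_dt98 (x : ℝ) : dt98.kv (-1 / 5) x = (-251 / 4000000 + (x - 153 / 160) * (-1844199 / 10000000)) :=
  (DT.kv_le (by simp only [Cn.rt_v, Cn.ng_v]; norm_num)).trans (ka_dt92 x)
theorem kb_dt98 (x : ℝ) : dt98.kv (-1 / 10) x = (0) :=
  (DT.kv_gt (by simp only [Cn.rt_v, Cn.ng_v]; norm_num)).trans (kb_dt93 x)
theorem ka_dt99 (x : ℝ) : dt99.kv (-1 / 4) x = (-212399 / 100000000 + (x - 153 / 160) * (-3690649 / 10000000)) :=
  (DT.kv_le (by simp only [Cn.rt_v, Cn.ng_v]; norm_num)).trans (ka_dt91 x)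
theorem kb_dt99 (x : ℝ) : dt99.kv (-1 / 10) x = (0) :=
  (DT.kv_gt (by simp only [Cn.rt_v, Cn.ng_v]; norm_num)).trans (kb_dt98 x)
theorem ka_dt94 (x : ℝ) : dt94.kv (-1 / 10) x = (0) := by
  simp only [dt94, DT.kv, sl94, sv94]
  ((try push_cast); ring1)
theorem kb_dt94 (x : ℝ) : dt94.kv (1 / 10) x = (0) := by
  simp only [dt94, DT.kv, sl94, sv94]
  ((try push_cast); ring1)
theorem ka_dt95 (x : ℝ) : dt95.kv (1 / 10) x = (0) := by
  simp only [dt95, DT.kv, sw95, sl95, sv95]
  ((try push_cast); ring1)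
theorem kb_dt95 (x : ℝ) : dt95.kv (3 / 20) x = (203 / 25000000 + (x - 153 / 160) * (57703 / 1250000)) := by
  simp only [dt95, DT.kv, sw95, sl95, sv95]
  ((try push_cast); ring1)
theorem ka_dt100 (x : ℝ) : dt100.kv (-1 / 10) x = (0) :=
  (DT.kv_le (by simp only [Cn.rt_v, Cn.ng_v]; norm_num)).trans (ka_dt94 x)
theorem kb_dt100 (x : ℝ) : dt100.kv (3 / 20) x = (203 / 25000000 + (x - 153 / 160) * (57703 / 1250000)) :=
  (DT.kv_gt (by simp only [Cn.rt_v, Cn.ng_v]; norm_num)).trans (kb_dt95 x)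
theorem ka_dt96 (x : ℝ) : dt96.kv (3 / 20) x = (203 / 25000000 + (x - 153 / 160) * (57703 / 1250000)) := by
  simp only [dt96, DT.kv, sw96, sl96, sv96]
  ((try push_cast); ring1)
theorem kb_dt96 (x : ℝ) : dt96.kv (1 / 5) x = (251 / 4000000 + (x - 153 / 160) * (1844199 / 10000000)) := by
  simp only [dt96, DT.kv, sw96, sl96, sv96]
  ((try push_cast); ring1)
theorem ka_dt97 (x : ℝ) : dt97.kv (1 / 5) x = (251 / 4000000 + (x - 153 / 160) * (1844199 / 10000000)) := by
  simp only [dt97, DT.kv, sw97, sl97, sv97]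
  ((try push_cast); ring1)
theorem kb_dt97 (x : ℝ) : dt97.kv (1 / 4) x = (212399 / 100000000 + (x - 153 / 160) * (3690649 / 10000000)) := by
  simp only [dt97, DT.kv, sw97, sl97, sv97]
  ((try push_cast); ring1)
theorem ka_dt101 (x : ℝ) : dt101.kv (3 / 20) x = (203 / 25000000 + (x - 153 / 160) * (57703 / 1250000)) :=
  (DT.kv_le (by simp only [Cn.rt_v, Cn.ng_v]; norm_num)).trans (ka_dt96 x)
theorem kb_dt101 (x : ℝ) : dt101.kv (1 / 4) x = (212399 / 100000000 + (x - 153 / 160) * (3690649 / 10000000)) :=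
  (DT.kv_gt (by simp only [Cn.rt_v, Cn.ng_v]; norm_num)).trans (kb_dt97 x)
theorem ka_dt102 (x : ℝ) : dt102.kv (-1 / 10) x = (0) :=
  (DT.kv_le (by simp only [Cn.rt_v, Cn.ng_v]; norm_num)).trans (ka_dt100 x)
theorem kb_dt102 (x : ℝ) : dt102.kv (1 / 4) x = (212399 / 100000000 + (x - 153 / 160) * (3690649 / 10000000)) :=
  (DT.kv_gt (by simp only [Cn.rt_v, Cn.ng_v]; norm_num)).trans (kb_dt101 x)
theorem ka_dt103 (x : ℝ) : dt103.kv (-1 / 4) x = (-212399 / 100000000 + (x - 153 / 160) * (-3690649 / 10000000)) :=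
  (DT.kv_le (by simp only [Cn.rt_v, Cn.ng_v]; norm_num)).trans (ka_dt99 x)
theorem kb_dt103 (x : ℝ) : dt103.kv (1 / 4) x = (212399 / 100000000 + (x - 153 / 160) * (3690649 / 10000000)) :=
  (DT.kv_gt (by simp only [Cn.rt_v, Cn.ng_v]; norm_num)).trans (kb_dt102 x)
theorem ko_dt91 (x : ℝ) : dt91.KOk x := trivial
theorem ko_dt92 (x : ℝ) : dt92.KOk x := trivial
theorem ko_dt93 (x : ℝ) : dt93.KOk x := trivial
theorem ko_dt98 (x : ℝ) : dt98.KOk x :=
  DT.kOk_node (v := -3 / 20) (by simp only [Cn.rt_v, Cn.ng_v]; norm_num) (kb_dt92 x) (ka_dt93 x) (by ring1) (ko_dt92 x) (ko_dt93 x)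
theorem ko_dt99 (x : ℝ) : dt99.KOk x :=
  DT.kOk_node (v := -1 / 5) (by simp only [Cn.rt_v, Cn.ng_v]; norm_num) (kb_dt91 x) (ka_dt98 x) (by ring1) (ko_dt91 x) (ko_dt98 x)
theorem ko_dt94 (x : ℝ) : dt94.KOk x := trivial
theorem ko_dt95 (x : ℝ) : dt95.KOk x := trivial
theorem ko_dt100 (x : ℝ) : dt100.KOk x :=
  DT.kOk_node (v := 1 / 10) (by simp only [Cn.rt_v, Cn.ng_v]; norm_num) (kb_dt94 x) (ka_dt95 x) (by ring1) (ko_dt94 x) (ko_dt95 x)
theorem ko_dt96 (x : ℝ) : dt96.KOk x := trivial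
theorem ko_dt97 (x : ℝ) : dt97.KOk x := trivial
theorem ko_dt101 (x : ℝ) : dt101.KOk x :=
  DT.kOk_node (v := 1 / 5) (by simp only [Cn.rt_v, Cn.ng_v]; norm_num) (kb_dt96 x) (ka_dt97 x) (by ring1) (ko_dt96 x) (ko_dt97 x)
theorem ko_dt102 (x : ℝ) : dt102.KOk x :=
  DT.kOk_node (v := 3 / 20) (by simp only [Cn.rt_v, Cn.ng_v]; norm_num) (kb_dt100 x) (ka_dt101 x) (by ring1) (ko_dt100 x) (ko_dt101 x)
theorem ko_dt103 (x : ℝ) : dt103.KOk x :=
  DT.kOk_node (v := -1 / 10) (by simp only [Cn.rt_v, Cn.ng_v]; norm_num) (kb_dt99 x) (ka_dt102 x) (by ring1) (ko_dt99 x) (ko_dt102 x)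
theorem phl0 {p x : ℝ} (h2 : p ≤ -1 / 5) : dt103.kv p x = (-3118279 / 100000000 + (x - 153 / 160) * (5451101 / 10000000)) + (-1565301 / 5000000 + (x - 153 / 160) * (72229 / 20000)) * p + (-7873 / 10000 + (x - 153 / 160) * (-181 / 1000)) * p ^ 2 := by
  refine (DT.kv_le (by simp only [Cn.rt_v, Cn.ng_v]; push_cast; linarith)).trans ?_
  refine (DT.kv_le (by simp only [Cn.rt_v, Cn.ng_v]; push_cast; linarith)).trans ?_
  simp only [dt91, DT.kv, sw91, sl91, sv91]
  ((try push_cast); ring1)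
theorem phl1 {p x : ℝ} (h1 : -1 / 5 < p) (h2 : p ≤ -3 / 20) : dt103.kv p x = (-30323 / 100000000 + (x - 153 / 160) * (-1825799 / 10000000)) + (-333 / 78125 + (x - 153 / 160) * (-18327 / 5000)) * p + (-153 / 10000 + (x - 153 / 160) * (-18373 / 1000)) * p ^ 2 := by
  refine (DT.kv_le (by simp only [Cn.rt_v, Cn.ng_v]; push_cast; linarith)).trans ?_
  refine (DT.kv_gt (by simp only [Cn.rt_v, Cn.ng_v]; push_cast; linarith)).trans ?_
  refine (DT.kv_le (by simp only [Cn.rt_v, Cn.ng_v]; push_cast; linarith)).trans ?_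
  simp only [dt92, DT.kv, sw92, sl92, sv92]
  ((try push_cast); ring1)
theorem phl2 {p x : ℝ} (h1 : -3 / 20 < p) (h2 : p ≤ -1 / 10) : dt103.kv p x = (-1663 / 50000000 + (x - 153 / 160) * (-923251 / 5000000)) + (-3313 / 5000000 + (x - 153 / 160) * (-1846501 / 500000)) * p + (-33 / 10000 + (x - 153 / 160) * (-3693 / 200)) * p ^ 2 := by
  refine (DT.kv_le (by simp only [Cn.rt_v, Cn.ng_v]; push_cast; linarith)).trans ?_
  refine (DT.kv_gt (by simp only [Cn.rt_v, Cn.ng_v]; push_cast; linarith)).trans ?_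
  refine (DT.kv_gt (by simp only [Cn.rt_v, Cn.ng_v]; push_cast; linarith)).trans ?_
  simp only [dt93, DT.kv, sw93, sl93, sv93]
  ((try push_cast); ring1)
theorem phl3 {p x : ℝ} (h1 : -1 / 10 < p) (h2 : p ≤ 1 / 10) : dt103.kv p x = (0) + (0) * p := by
  refine (DT.kv_gt (by simp only [Cn.rt_v, Cn.ng_v]; push_cast; linarith)).trans ?_
  refine (DT.kv_le (by simp only [Cn.rt_v, Cn.ng_v]; push_cast; linarith)).trans ?_
  refine (DT.kv_le (by simp only [Cn.rt_v, Cn.ng_v]; push_cast; linarith)).trans ?_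
  simp only [dt94, DT.kv, sl94, sv94]
  ((try push_cast); ring1)
theorem phl4 {p x : ℝ} (h1 : 1 / 10 < p) (h2 : p ≤ 3 / 20) : dt103.kv p x = (1663 / 50000000 + (x - 153 / 160) * (923251 / 5000000)) + (-3313 / 5000000 + (x - 153 / 160) * (-1846501 / 500000)) * p + (33 / 10000 + (x - 153 / 160) * (3693 / 200)) * p ^ 2 := by
  refine (DT.kv_gt (by simp only [Cn.rt_v, Cn.ng_v]; push_cast; linarith)).trans ?_
  refine (DT.kv_le (by simp only [Cn.rt_v, Cn.ng_v]; push_cast; linarith)).trans ?_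
  refine (DT.kv_gt (by simp only [Cn.rt_v, Cn.ng_v]; push_cast; linarith)).trans ?_
  simp only [dt95, DT.kv, sw95, sl95, sv95]
  ((try push_cast); ring1)
theorem phl5 {p x : ℝ} (h1 : 3 / 20 < p) (h2 : p ≤ 1 / 5) : dt103.kv p x = (30323 / 100000000 + (x - 153 / 160) * (1825799 / 10000000)) + (-333 / 78125 + (x - 153 / 160) * (-18327 / 5000)) * p + (153 / 10000 + (x - 153 / 160) * (18373 / 1000)) * p ^ 2 := by
  refine (DT.kv_gt (by simp only [Cn.rt_v, Cn.ng_v]; push_cast; linarith)).trans ?_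
  refine (DT.kv_gt (by simp only [Cn.rt_v, Cn.ng_v]; push_cast; linarith)).trans ?_
  refine (DT.kv_le (by simp only [Cn.rt_v, Cn.ng_v]; push_cast; linarith)).trans ?_
  simp only [dt96, DT.kv, sw96, sl96, sv96]
  ((try push_cast); ring1)
theorem phl6 {p x : ℝ} (h1 : 1 / 5 < p) (h2 : p ≤ 1 / 4) : dt103.kv p x = (3118279 / 100000000 + (x - 153 / 160) * (-5451101 / 10000000)) + (-1565301 / 5000000 + (x - 153 / 160) * (72229 / 20000)) * p + (7873 / 10000 + (x - 153 / 160) * (181 / 1000)) * p ^ 2 := by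
  refine (DT.kv_gt (by simp only [Cn.rt_v, Cn.ng_v]; push_cast; linarith)).trans ?_
  refine (DT.kv_gt (by simp only [Cn.rt_v, Cn.ng_v]; push_cast; linarith)).trans ?_
  refine (DT.kv_gt (by simp only [Cn.rt_v, Cn.ng_v]; push_cast; linarith)).trans ?_
  simp only [dt97, DT.kv, sw97, sl97, sv97]
  ((try push_cast); ring1)
theorem tvc9 {p x : ℝ} (h1 : -1 / 4 ≤ p) (h2 : p ≤ -1 / 5) : dt90.val (fun p x => kcg.v p x) p (cT p) x = (5847361 / 25000000 + (x - 153 / 160) * (12679081 / 10000000)) + (184107 / 625000 + (x - 153 / 160) * (431747 / 500000)) * p + (-7297 / 10000 + (x - 153 / 160) * (-181 / 1000)) * p ^ 2 := by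
  rcases eq_or_lt_of_le h1 with h | h1
  · subst h
    refine (DT.val_le (by simp only [Cn.rt_v, Cn.ng_v]; push_cast; linarith)).trans ?_
    refine (DT.val_gt (by simp only [Cn.rt_v, Cn.ng_v]; push_cast; linarith)).trans ?_
    refine (DT.val_le (by simp only [Cn.rt_v, Cn.ng_v]; push_cast; linarith)).trans ?_
    refine (DT.val_gt (by simp only [Cn.rt_v, Cn.ng_v]; push_cast; linarith)).trans ?_
    refine (DT.val_gt (by simp only [Cn.rt_v, Cn.ng_v]; push_cast; linarith)).trans ?_
    simp only [dt50, DT.val, sw50, sl50, sv50]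
    ((try push_cast); ring1)
  ·
    refine (DT.val_le (by simp only [Cn.rt_v, Cn.ng_v]; push_cast; linarith)).trans ?_
    refine (DT.val_gt (by simp only [Cn.rt_v, Cn.ng_v]; push_cast; linarith)).trans ?_
    refine (DT.val_gt (by simp only [Cn.rt_v, Cn.ng_v]; push_cast; linarith)).trans ?_
    refine (DT.val_le (by simp only [Cn.rt_v, Cn.ng_v]; push_cast; linarith)).trans ?_
    simp only [dt51, DT.val, sw51, sl51, sv51]
    ((try push_cast); ring1)
theorem tvc10 {p x : ℝ} (h1 : -1 / 5 ≤ p) (h2 : p ≤ -3 / 20) : dt90.val (fun p x => kcg.v p x) p (cT p) x = (272693 / 1250000 + (x - 153 / 160) * (12718329 / 10000000)) + (137171 / 1000000 + (x - 153 / 160) * (451359 / 500000)) * p + (-702 / 625 + (x - 153 / 160) * (-83 / 1000)) * p ^ 2 := by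
  rcases eq_or_lt_of_le h1 with h | h1
  · subst h
    refine (DT.val_le (by simp only [Cn.rt_v, Cn.ng_v]; push_cast; linarith)).trans ?_
    refine (DT.val_gt (by simp only [Cn.rt_v, Cn.ng_v]; push_cast; linarith)).trans ?_
    refine (DT.val_gt (by simp only [Cn.rt_v, Cn.ng_v]; push_cast; linarith)).trans ?_
    refine (DT.val_le (by simp only [Cn.rt_v, Cn.ng_v]; push_cast; linarith)).trans ?_
    simp only [dt51, DT.val, sw51, sl51, sv51]
    ((try push_cast); ring1)
  ·
    refine (DT.val_le (by simp only [Cn.rt_v, Cn.ng_v]; push_cast; linarith)).trans ?_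
    refine (DT.val_gt (by simp only [Cn.rt_v, Cn.ng_v]; push_cast; linarith)).trans ?_
    refine (DT.val_gt (by simp only [Cn.rt_v, Cn.ng_v]; push_cast; linarith)).trans ?_
    refine (DT.val_gt (by simp only [Cn.rt_v, Cn.ng_v]; push_cast; linarith)).trans ?_
    refine (DT.val_le (by simp only [Cn.rt_v, Cn.ng_v]; push_cast; linarith)).trans ?_
    simp only [dt52, DT.val, sw52, sl52, sv52]
    ((try push_cast); ring1)
theorem tvc11 {p x : ℝ} (h1 : -3 / 20 ≤ p) (h2 : p ≤ -1 / 10) : dt90.val (fun p x => kcg.v p x) p (cT p) x = (10907141 / 50000000 + (x - 153 / 160) * (6360873 / 5000000)) + (342547 / 2500000 + (x - 153 / 160) * (453623 / 500000)) * p + (-11237 / 10000 + (x - 153 / 160) * (-17 / 250)) * p ^ 2 := by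
  rcases eq_or_lt_of_le h1 with h | h1
  · subst h
    refine (DT.val_le (by simp only [Cn.rt_v, Cn.ng_v]; push_cast; linarith)).trans ?_
    refine (DT.val_gt (by simp only [Cn.rt_v, Cn.ng_v]; push_cast; linarith)).trans ?_
    refine (DT.val_gt (by simp only [Cn.rt_v, Cn.ng_v]; push_cast; linarith)).trans ?_
    refine (DT.val_gt (by simp only [Cn.rt_v, Cn.ng_v]; push_cast; linarith)).trans ?_
    refine (DT.val_le (by simp only [Cn.rt_v, Cn.ng_v]; push_cast; linarith)).trans ?_
    simp only [dt52, DT.val, sw52, sl52, sv52]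
    ((try push_cast); ring1)
  ·
    refine (DT.val_le (by simp only [Cn.rt_v, Cn.ng_v]; push_cast; linarith)).trans ?_
    refine (DT.val_gt (by simp only [Cn.rt_v, Cn.ng_v]; push_cast; linarith)).trans ?_
    refine (DT.val_gt (by simp only [Cn.rt_v, Cn.ng_v]; push_cast; linarith)).trans ?_
    refine (DT.val_gt (by simp only [Cn.rt_v, Cn.ng_v]; push_cast; linarith)).trans ?_
    refine (DT.val_gt (by simp only [Cn.rt_v, Cn.ng_v]; push_cast; linarith)).trans ?_
    simp only [dt53, DT.val, sw53, sl53, sv53]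
    ((try push_cast); ring1)
theorem tvc12 {p x : ℝ} (h1 : -1 / 10 ≤ p) (h2 : p ≤ 1 / 10) : dt90.val (fun p x => kcg.v p x) p (cT p) x = (4362931 / 20000000 + (x - 153 / 160) * (12323469 / 10000000)) + (1370961 / 10000000 + (x - 153 / 160) * (110669 / 1000000)) * p + (-11233 / 10000 + (x - 153 / 160) * (-4051 / 1000)) * p ^ 2 := by
  rcases eq_or_lt_of_le h1 with h | h1
  · subst h
    refine (DT.val_le (by simp only [Cn.rt_v, Cn.ng_v]; push_cast; linarith)).trans ?_
    refine (DT.val_gt (by simp only [Cn.rt_v, Cn.ng_v]; push_cast; linarith)).trans ?_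
    refine (DT.val_gt (by simp only [Cn.rt_v, Cn.ng_v]; push_cast; linarith)).trans ?_
    refine (DT.val_gt (by simp only [Cn.rt_v, Cn.ng_v]; push_cast; linarith)).trans ?_
    refine (DT.val_gt (by simp only [Cn.rt_v, Cn.ng_v]; push_cast; linarith)).trans ?_
    simp only [dt53, DT.val, sw53, sl53, sv53]
    ((try push_cast); ring1)
  ·
    refine (DT.val_gt (by simp only [Cn.rt_v, Cn.ng_v]; push_cast; linarith)).trans ?_
    refine (DT.val_le (by simp only [Cn.rt_v, Cn.ng_v]; push_cast; linarith)).trans ?_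
    refine (DT.val_le (by simp only [Cn.rt_v, Cn.ng_v]; push_cast; linarith)).trans ?_
    refine (DT.val_le (by simp only [Cn.rt_v, Cn.ng_v]; push_cast; linarith)).trans ?_
    simp only [dt54, DT.val, sw54, sl54, sv54]
    ((try push_cast); ring1)
theorem tvc13 {p x : ℝ} (h1 : 1 / 10 ≤ p) (h2 : p ≤ 3 / 20) : dt90.val (fun p x => kcg.v p x) p (cT p) x = (5452739 / 25000000 + (x - 153 / 160) * (2718811 / 2500000)) + (34459 / 250000 + (x - 153 / 160) * (1503547 / 500000)) * p + (-1127 / 1000 + (x - 153 / 160) * (-18533 / 1000)) * p ^ 2 := by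
  rcases eq_or_lt_of_le h1 with h | h1
  · subst h
    refine (DT.val_gt (by simp only [Cn.rt_v, Cn.ng_v]; push_cast; linarith)).trans ?_
    refine (DT.val_le (by simp only [Cn.rt_v, Cn.ng_v]; push_cast; linarith)).trans ?_
    refine (DT.val_le (by simp only [Cn.rt_v, Cn.ng_v]; push_cast; linarith)).trans ?_
    refine (DT.val_le (by simp only [Cn.rt_v, Cn.ng_v]; push_cast; linarith)).trans ?_
    simp only [dt54, DT.val, sw54, sl54, sv54]
    ((try push_cast); ring1)
  ·
    refine (DT.val_gt (by simp only [Cn.rt_v, Cn.ng_v]; push_cast; linarith)).trans ?_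
    refine (DT.val_le (by simp only [Cn.rt_v, Cn.ng_v]; push_cast; linarith)).trans ?_
    refine (DT.val_le (by simp only [Cn.rt_v, Cn.ng_v]; push_cast; linarith)).trans ?_
    refine (DT.val_gt (by simp only [Cn.rt_v, Cn.ng_v]; push_cast; linarith)).trans ?_
    refine (DT.val_le (by simp only [Cn.rt_v, Cn.ng_v]; push_cast; linarith)).trans ?_
    simp only [dt55, DT.val, sw55, sl55, sv55]
    ((try push_cast); ring1)
theorem tvc14 {p x : ℝ} (h1 : 3 / 20 ≤ p) (h2 : p ≤ 1 / 5) : dt90.val (fun p x => kcg.v p x) p (cT p) x = (21785117 / 100000000 + (x - 153 / 160) * (1089253 / 1000000)) + (353209 / 2500000 + (x - 153 / 160) * (149201 / 50000)) * p + (-2277 / 2000 + (x - 153 / 160) * (-2307 / 125)) * p ^ 2 := by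
  rcases eq_or_lt_of_le h1 with h | h1
  · subst h
    refine (DT.val_gt (by simp only [Cn.rt_v, Cn.ng_v]; push_cast; linarith)).trans ?_
    refine (DT.val_le (by simp only [Cn.rt_v, Cn.ng_v]; push_cast; linarith)).trans ?_
    refine (DT.val_le (by simp only [Cn.rt_v, Cn.ng_v]; push_cast; linarith)).trans ?_
    refine (DT.val_gt (by simp only [Cn.rt_v, Cn.ng_v]; push_cast; linarith)).trans ?_
    refine (DT.val_le (by simp only [Cn.rt_v, Cn.ng_v]; push_cast; linarith)).trans ?_
    simp only [dt55, DT.val, sw55, sl55, sv55]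
    ((try push_cast); ring1)
  ·
    refine (DT.val_gt (by simp only [Cn.rt_v, Cn.ng_v]; push_cast; linarith)).trans ?_
    refine (DT.val_le (by simp only [Cn.rt_v, Cn.ng_v]; push_cast; linarith)).trans ?_
    refine (DT.val_le (by simp only [Cn.rt_v, Cn.ng_v]; push_cast; linarith)).trans ?_
    refine (DT.val_gt (by simp only [Cn.rt_v, Cn.ng_v]; push_cast; linarith)).trans ?_
    refine (DT.val_gt (by simp only [Cn.rt_v, Cn.ng_v]; push_cast; linarith)).trans ?_
    simp only [dt56, DT.val, sw56, sl56, sv56]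
    ((try push_cast); ring1)
theorem tvc15 {p x : ℝ} (h1 : 1 / 5 ≤ p) (h2 : p ≤ 1 / 4) : dt90.val (fun p x => kcg.v p x) p (cT p) x = (4054233 / 20000000 + (x - 153 / 160) * (9065091 / 5000000)) + (731703 / 2500000 + (x - 153 / 160) * (-2126803 / 500000)) * p + (-1517 / 1000 + (x - 153 / 160) * (-181 / 500)) * p ^ 2 := by
  rcases eq_or_lt_of_le h1 with h | h1
  · subst h
    refine (DT.val_gt (by simp only [Cn.rt_v, Cn.ng_v]; push_cast; linarith)).trans ?_
    refine (DT.val_le (by simp only [Cn.rt_v, Cn.ng_v]; push_cast; linarith)).trans ?_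
    refine (DT.val_le (by simp only [Cn.rt_v, Cn.ng_v]; push_cast; linarith)).trans ?_
    refine (DT.val_gt (by simp only [Cn.rt_v, Cn.ng_v]; push_cast; linarith)).trans ?_
    refine (DT.val_gt (by simp only [Cn.rt_v, Cn.ng_v]; push_cast; linarith)).trans ?_
    simp only [dt56, DT.val, sw56, sl56, sv56]
    ((try push_cast); ring1)
  ·
    refine (DT.val_gt (by simp only [Cn.rt_v, Cn.ng_v]; push_cast; linarith)).trans ?_
    refine (DT.val_le (by simp only [Cn.rt_v, Cn.ng_v]; push_cast; linarith)).trans ?_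
    refine (DT.val_gt (by simp only [Cn.rt_v, Cn.ng_v]; push_cast; linarith)).trans ?_
    refine (DT.val_le (by simp only [Cn.rt_v, Cn.ng_v]; push_cast; linarith)).trans ?_
    simp only [dt57, DT.val, sw57, sl57, sv57]
    ((try push_cast); ring1)
theorem ph_ (x : ℝ) : ∀ u, |u| ≤ vv.k2.v → dd.tF x (-u) - dd.tF x u = m0c.v x * u + dt103.kv u x := by
  intro u h
  have h : |u| ≤ 1 / 4 := by
    refine h.trans_eq ?_
    show (Cn.rt 1 4).v = _
    rw [Cn.rt_v]
    norm_num
  obtain ⟨h1, h2⟩ := abs_le.1 h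
  show dt90.val (fun p x => kcg.v p x) (-u) (cT (-u)) x - dt90.val (fun p x => kcg.v p x) u (cT u) x = _
  rcases le_or_gt u (-1 / 5) with g0 | g1000
  ·
    rw [tvc15 (p := -u) (by linarith) (by linarith), tvc9 (p := u) (by linarith) (by linarith), phl0 g0]
    simp only [m0c]
    push_cast
    ring
  rcases le_or_gt u (-3 / 20) with g1 | g1001
  ·
    rw [tvc14 (p := -u) (by linarith) (by linarith), tvc10 (p := u) (by linarith) (by linarith), phl1 g1000 g1]
    simp only [m0c]
    push_cast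
    ring
  rcases le_or_gt u (-1 / 10) with g2 | g1002
  ·
    rw [tvc13 (p := -u) (by linarith) (by linarith), tvc11 (p := u) (by linarith) (by linarith), phl2 g1001 g2]
    simp only [m0c]
    push_cast
    ring
  rcases le_or_gt u (1 / 10) with g3 | g1003
  ·
    rw [tvc12 (p := -u) (by linarith) (by linarith), tvc12 (p := u) (by linarith) (by linarith), phl3 g1002 g3]
    simp only [m0c]
    push_cast
    ring
  rcases le_or_gt u (3 / 20) with g4 | g1004
  ·
    rw [tvc11 (p := -u) (by linarith) (by linarith), tvc13 (p := u) (by linarith) (by linarith), phl4 g1003 g4]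
    simp only [m0c]
    push_cast
    ring
  rcases le_or_gt u (1 / 5) with g5 | g1005
  ·
    rw [tvc10 (p := -u) (by linarith) (by linarith), tvc14 (p := u) (by linarith) (by linarith), phl5 g1004 g5]
    simp only [m0c]
    push_cast
    ring
  ·
    rw [tvc9 (p := -u) (by linarith) (by linarith), tvc15 (p := u) (by linarith) (by linarith), phl6 g1005 (by linarith)]
    simp only [m0c]
    push_cast
    ring
theorem kqf_ {y : ℝ} (x : ℝ) (h : OnC (0 : Fin 6) 2 y) : kqf.v y x * c1g.v y = (y - 1) * kcg.v (c1g.v y) x := by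
  have h0 : 0 ≤ c1g.v y := by rw [c1g_v]; exact c1n_nn y
  simp only [kqf]
  (try push_cast)
  split_ifs with hh
  · rw [kcl10 (p := c1g.v y) (by linarith) (by linarith)]
    ring
  · have hc : c1g.v y ≠ 0 := by
      intro e
      rw [e] at hh
      exact hh (by norm_num)
    have hi := inv_mul_cancel₀ hc
    linear_combination ((y - 1) * kcg.v (c1g.v y) x) * hi
theorem sM_ (x : ℝ) : ∀ y, OnC (0 : Fin 6) 2 y → c1n y < crv PP 1 2 y →
    (1 + skm.v y x) * (crv PP 1 2 y - c1n y) = tK 1 2 y x - tK 0 2 y x := by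
  intro y h hlt
  rw [yK12 h.1, yK02 h]
  rw [ecv1q2, ← c1g_v] at hlt ⊢
  have hd : 0 < cv1p.v y - c1g.v y := sub_pos.2 hlt
  have hi := inv_mul_cancel₀ hd.ne'
  have hb : |c1g.v y| ≤ 1 / 2 := by rw [c1g_v]; exact bnd_O h
  have eo := odd (x := x) hb
  have hk := kqf_ x h
  simp only [skm, kf1q2, kf0q2, eo]
  (try push_cast)
  linear_combination (cv1p.v y * ((bf1q2.v y x - 1) + kqf.v y x)) * hi + hk
theorem ok (x : ℝ) : tt.Ok PP tK tL x where
  i0 := rfl
  il := rfl
  rl := by
    show 1 < PP.ρ 4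
    have e : PP.ρ 4 = 17 / 10 := rfl
    rw [e]
    norm_num
  ok := dok x
  kh := rfl
  odd := fun p h => odd h
  K0 := K0_ x
  L0 := L0_ x
  Kn := Kn_ x
  Ln := Ln_ x
  f0 := f0_
  fn := fn_
  sK0 := sK0_ x
  sX0 := sX0_ x
  sKn := sKn_ x
  sXn := sXn_ x
  k1 := by
    show 0 ≤ (Cn.rt 2 25).v ∧ (Cn.rt 2 25).v ≤ 1 / 2
    rw [Cn.rt_v]
    constructor <;> norm_num
  kn := kn_ x
  tn := tn_ x
  vK := vK_ x
  vX := vX_ x
  rK := rK_ x
  rX := rX_ x
  yb := by
    show 0 ≤ (Cn.rt 231 200).v ∧ 1 ≤ 3 / 4 * (Cn.rt 231 200).v ^ 2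
    rw [Cn.rt_v]
    constructor <;> norm_num
  flat := flat_ x
  abk := abk_ x
  phk := ko_dt103 x
  ph := ph_ x
  sM := sM_ x
  yz := by
    show (Cn.rt 577 500).v ≤ (Cn.rt 577 500).v ∧ 0 ≤ (Cn.rt 577 500).v ∧ 1 ≤ 3 / 4 * (Cn.rt 577 500).v ^ 2 + (Cn.rt 2 25).v ^ 2
    simp only [Cn.rt_v]
    refine ⟨?_, ?_, ?_⟩ <;> norm_num
theorem okx {x : ℝ} (hx : ((1020054732 : ℕ) : ℝ) / S ≤ x) (hx' : x ≤ (((1020054732 : ℕ) : ℝ) + (13421774 : ℕ)) / S) : tt.Ok PP tK tL x := ok x

end Pool.Agent.Strip051.G.I9500_9625.Tab.St
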