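import Pool.Agent.Strip051.G.I9500_9625.StH
import Pool.Agent.Strip051.G.I9500_9625.Sp11_0
import Pool.Agent.Strip051.G.I9500_9625.Sp11_1
import Pool.Agent.Strip051.G.I9500_9625.Sp11_2
import Pool.Agent.Strip051.G.I9500_9625.StF

/-! # Unit strips 11 (generated) -/

set_option linter.all false
set_option maxRecDepth 100000

namespace Pool.Agent.Strip051.G.I9500_9625.Tab.St.C

open Pool.Agent.Strip051.PB Pool.Agent.Strip051.PB.T Pool.Agent.StripNear Pool.Agent.Strip051.LC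
open Pool.Agent.Strip051.G.I9500_9625.Tab Pool.Agent.Strip051.G.I9500_9625.Tab.St

theorem t243_B00pm_102_s1 : ∃ t, chk3 f_B00pm_102_s1 t 508 509 1 = true := ex3_a k238_B00pm_102_s1 k239_B00pm_102_s1

theorem t244_B00pm_102_s1 : ∃ t, chk3 f_B00pm_102_s1 t 2034 2034 1 = true := ex3_c k234_B00pm_102_s1 k235_B00pm_102_s1

theorem t245_B00pm_102_s1 : ∃ t, chk3 f_B00pm_102_s1 t 2034 1017 1 = true := ex3_b t244_B00pm_102_s1 k236_B00pm_102_s1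

theorem t246_B00pm_102_s1 : ∃ t, chk3 f_B00pm_102_s1 t 2034 508 1 = true := ex3_b k233_B00pm_102_s1 t245_B00pm_102_s1

theorem t247_B00pm_102_s1 : ∃ t, chk3 f_B00pm_102_s1 t 1017 508 1 = true := ex3_a t246_B00pm_102_s1 k237_B00pm_102_s1

theorem t248_B00pm_102_s1 : ∃ t, chk3 f_B00pm_102_s1 t 2033 1016 1 = true := ex3_c k230_B00pm_102_s1 k231_B00pm_102_s1

theorem t249_B00pm_102_s1 : ∃ t, chk3 f_B00pm_102_s1 t 2032 1016 1 = true := ex3_b k228_B00pm_102_s1 k229_B00pm_102_s1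

theorem t250_B00pm_102_s1 : ∃ t, chk3 f_B00pm_102_s1 t 1016 1016 1 = true := ex3_a t249_B00pm_102_s1 t248_B00pm_102_s1

theorem t251_B00pm_102_s1 : ∃ t, chk3 f_B00pm_102_s1 t 1016 508 1 = true := ex3_b t250_B00pm_102_s1 k232_B00pm_102_s1

theorem t252_B00pm_102_s1 : ∃ t, chk3 f_B00pm_102_s1 t 508 508 1 = true := ex3_a t251_B00pm_102_s1 t247_B00pm_102_s1

theorem t253_B00pm_102_s1 : ∃ t, chk3 f_B00pm_102_s1 t 508 254 1 = true := ex3_b t252_B00pm_102_s1 t243_B00pm_102_s1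

theorem t254_B00pm_102_s1 : ∃ t, chk3 f_B00pm_102_s1 t 254 254 1 = true := ex3_a t253_B00pm_102_s1 k240_B00pm_102_s1

theorem t255_B00pm_102_s1 : ∃ t, chk3 f_B00pm_102_s1 t 127 254 1 = true := ex3_a t254_B00pm_102_s1 k241_B00pm_102_s1

theorem t256_B00pm_102_s1 : ∃ t, chk3 f_B00pm_102_s1 t 127 127 1 = true := ex3_b t255_B00pm_102_s1 k242_B00pm_102_s1

theorem t257_B00pm_102_s1 : ∃ t, chk3 f_B00pm_102_s1 t 2030 2041 3 = true := ex3_b k223_B00pm_102_s1 k224_B00pm_102_s1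

theorem t258_B00pm_102_s1 : ∃ t, chk3 f_B00pm_102_s1 t 2030 1020 3 = true := ex3_b k222_B00pm_102_s1 t257_B00pm_102_s1

theorem t259_B00pm_102_s1 : ∃ t, chk3 f_B00pm_102_s1 t 2030 1020 1 = true := ex3_c k221_B00pm_102_s1 t258_B00pm_102_s1

theorem t260_B00pm_102_s1 : ∃ t, chk3 f_B00pm_102_s1 t 1015 1020 1 = true := ex3_a t259_B00pm_102_s1 k225_B00pm_102_s1

theorem t261_B00pm_102_s1 : ∃ t, chk3 f_B00pm_102_s1 t 2028 4081 3 = true := ex3_a k217_B00pm_102_s1 k218_B00pm_102_s1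

theorem t262_B00pm_102_s1 : ∃ t, chk3 f_B00pm_102_s1 t 1014 4081 3 = true := ex3_a t261_B00pm_102_s1 k219_B00pm_102_s1

theorem t263_B00pm_102_s1 : ∃ t, chk3 f_B00pm_102_s1 t 1014 2040 3 = true := ex3_b k216_B00pm_102_s1 t262_B00pm_102_s1

theorem t264_B00pm_102_s1 : ∃ t, chk3 f_B00pm_102_s1 t 1014 1020 3 = true := ex3_b t263_B00pm_102_s1 k220_B00pm_102_s1

theorem t265_B00pm_102_s1 : ∃ t, chk3 f_B00pm_102_s1 t 1014 1020 2 = true := ex3_b k214_B00pm_102_s1 k215_B00pm_102_s1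

theorem t266_B00pm_102_s1 : ∃ t, chk3 f_B00pm_102_s1 t 1014 1020 1 = true := ex3_c t265_B00pm_102_s1 t264_B00pm_102_s1

theorem t267_B00pm_102_s1 : ∃ t, chk3 f_B00pm_102_s1 t 507 1020 1 = true := ex3_a t266_B00pm_102_s1 t260_B00pm_102_s1

theorem t268_B00pm_102_s1 : ∃ t, chk3 f_B00pm_102_s1 t 507 510 1 = true := ex3_b t267_B00pm_102_s1 k226_B00pm_102_s1

theorem t269_B00pm_102_s1 : ∃ t, chk3 f_B00pm_102_s1 t 1013 4080 7 = true := ex3_a k209_B00pm_102_s1 k210_B00pm_102_s1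

theorem t270_B00pm_102_s1 : ∃ t, chk3 f_B00pm_102_s1 t 1013 2040 7 = true := ex3_b t269_B00pm_102_s1 k211_B00pm_102_s1

theorem t271_B00pm_102_s1 : ∃ t, chk3 f_B00pm_102_s1 t 506 2040 7 = true := ex3_a k208_B00pm_102_s1 t270_B00pm_102_s1

theorem t272_B00pm_102_s1 : ∃ t, chk3 f_B00pm_102_s1 t 506 2040 3 = true := ex3_c k207_B00pm_102_s1 t271_B00pm_102_s1

theorem t273_B00pm_102_s1 : ∃ t, chk3 f_B00pm_102_s1 t 506 1020 3 = true := ex3_b t272_B00pm_102_s1 k212_B00pm_102_s1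

theorem t274_B00pm_102_s1 : ∃ t, chk3 f_B00pm_102_s1 t 1013 1020 2 = true := ex3_b k205_B00pm_102_s1 k206_B00pm_102_s1

theorem t275_B00pm_102_s1 : ∃ t, chk3 f_B00pm_102_s1 t 506 1020 2 = true := ex3_a k204_B00pm_102_s1 t274_B00pm_102_s1

theorem t276_B00pm_102_s1 : ∃ t, chk3 f_B00pm_102_s1 t 506 1020 1 = true := ex3_c t275_B00pm_102_s1 t273_B00pm_102_s1

theorem t277_B00pm_102_s1 : ∃ t, chk3 f_B00pm_102_s1 t 506 510 1 = true := ex3_b t276_B00pm_102_s1 k213_B00pm_102_s1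

theorem t278_B00pm_102_s1 : ∃ t, chk3 f_B00pm_102_s1 t 253 510 1 = true := ex3_a t277_B00pm_102_s1 t268_B00pm_102_s1

theorem t279_B00pm_102_s1 : ∃ t, chk3 f_B00pm_102_s1 t 253 255 1 = true := ex3_b t278_B00pm_102_s1 k227_B00pm_102_s1

theorem t280_B00pm_102_s1 : ∃ t, chk3 f_B00pm_102_s1 t 126 255 1 = true := ex3_a k203_B00pm_102_s1 t279_B00pm_102_s1

theorem t281_B00pm_102_s1 : ∃ t, chk3 f_B00pm_102_s1 t 507 509 1 = true := ex3_c k201_B00pm_102_s1 k202_B00pm_102_s1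

theorem t282_B00pm_102_s1 : ∃ t, chk3 f_B00pm_102_s1 t 2026 4079 7 = true := ex3_b k198_B00pm_102_s1 k199_B00pm_102_s1

theorem t283_B00pm_102_s1 : ∃ t, chk3 f_B00pm_102_s1 t 2026 2039 7 = true := ex3_b k197_B00pm_102_s1 t282_B00pm_102_s1

theorem t284_B00pm_102_s1 : ∃ t, chk3 f_B00pm_102_s1 t 1013 2039 7 = true := ex3_a t283_B00pm_102_s1 k200_B00pm_102_s1

theorem t285_B00pm_102_s1 : ∃ t, chk3 f_B00pm_102_s1 t 2025 4079 7 = true := ex3_b k195_B00pm_102_s1 k196_B00pm_102_s1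

theorem t286_B00pm_102_s1 : ∃ t, chk3 f_B00pm_102_s1 t 1012 4079 7 = true := ex3_a k194_B00pm_102_s1 t285_B00pm_102_s1

theorem t287_B00pm_102_s1 : ∃ t, chk3 f_B00pm_102_s1 t 1012 4078 7 = true := ex3_a k192_B00pm_102_s1 k193_B00pm_102_s1

theorem t288_B00pm_102_s1 : ∃ t, chk3 f_B00pm_102_s1 t 1012 2039 7 = true := ex3_b t287_B00pm_102_s1 t286_B00pm_102_s1

theorem t289_B00pm_102_s1 : ∃ t, chk3 f_B00pm_102_s1 t 506 2039 7 = true := ex3_a t288_B00pm_102_s1 t284_B00pm_102_s1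

theorem t290_B00pm_102_s1 : ∃ t, chk3 f_B00pm_102_s1 t 506 1019 7 = true := ex3_b k191_B00pm_102_s1 t289_B00pm_102_s1

theorem t291_B00pm_102_s1 : ∃ t, chk3 f_B00pm_102_s1 t 506 2039 6 = true := ex3_a k189_B00pm_102_s1 k190_B00pm_102_s1

theorem t292_B00pm_102_s1 : ∃ t, chk3 f_B00pm_102_s1 t 506 1019 6 = true := ex3_b k188_B00pm_102_s1 t291_B00pm_102_s1

theorem t293_B00pm_102_s1 : ∃ t, chk3 f_B00pm_102_s1 t 506 1019 3 = true := ex3_c t292_B00pm_102_s1 t290_B00pm_102_s1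

theorem t294_B00pm_102_s1 : ∃ t, chk3 f_B00pm_102_s1 t 506 2039 2 = true := ex3_a k186_B00pm_102_s1 k187_B00pm_102_s1

theorem t295_B00pm_102_s1 : ∃ t, chk3 f_B00pm_102_s1 t 506 1019 2 = true := ex3_b k185_B00pm_102_s1 t294_B00pm_102_s1

theorem t296_B00pm_102_s1 : ∃ t, chk3 f_B00pm_102_s1 t 506 1019 1 = true := ex3_c t295_B00pm_102_s1 t293_B00pm_102_s1

theorem t297_B00pm_102_s1 : ∃ t, chk3 f_B00pm_102_s1 t 506 509 1 = true := ex3_b k184_B00pm_102_s1 t296_B00pm_102_s1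

theorem t298_B00pm_102_s1 : ∃ t, chk3 f_B00pm_102_s1 t 253 509 1 = true := ex3_a t297_B00pm_102_s1 t281_B00pm_102_s1

theorem t299_B00pm_102_s1 : ∃ t, chk3 f_B00pm_102_s1 t 507 508 1 = true := ex3_b k182_B00pm_102_s1 k183_B00pm_102_s1

theorem t300_B00pm_102_s1 : ∃ t, chk3 f_B00pm_102_s1 t 506 508 1 = true := ex3_b k180_B00pm_102_s1 k181_B00pm_102_s1

theorem t301_B00pm_102_s1 : ∃ t, chk3 f_B00pm_102_s1 t 253 508 1 = true := ex3_a t300_B00pm_102_s1 t299_B00pm_102_s1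

theorem t302_B00pm_102_s1 : ∃ t, chk3 f_B00pm_102_s1 t 253 254 1 = true := ex3_b t301_B00pm_102_s1 t298_B00pm_102_s1

theorem t303_B00pm_102_s1 : ∃ t, chk3 f_B00pm_102_s1 t 1011 254 1 = true := ex3_a k178_B00pm_102_s1 k179_B00pm_102_s1

theorem t304_B00pm_102_s1 : ∃ t, chk3 f_B00pm_102_s1 t 505 254 1 = true := ex3_a k177_B00pm_102_s1 t303_B00pm_102_s1

theorem t305_B00pm_102_s1 : ∃ t, chk3 f_B00pm_102_s1 t 252 254 1 = true := ex3_a k176_B00pm_102_s1 t304_B00pm_102_s1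

theorem t306_B00pm_102_s1 : ∃ t, chk3 f_B00pm_102_s1 t 126 254 1 = true := ex3_a t305_B00pm_102_s1 t302_B00pm_102_s1

theorem t307_B00pm_102_s1 : ∃ t, chk3 f_B00pm_102_s1 t 126 127 1 = true := ex3_b t306_B00pm_102_s1 t280_B00pm_102_s1

theorem t308_B00pm_102_s1 : ∃ t, chk3 f_B00pm_102_s1 t 63 127 1 = true := ex3_a t307_B00pm_102_s1 t256_B00pm_102_s1

theorem t309_B00pm_102_s1 : ∃ t, chk3 f_B00pm_102_s1 t 254 253 1 = true := ex3_b k173_B00pm_102_s1 k174_B00pm_102_s1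

theorem t310_B00pm_102_s1 : ∃ t, chk3 f_B00pm_102_s1 t 254 126 1 = true := ex3_b k172_B00pm_102_s1 t309_B00pm_102_s1

theorem t311_B00pm_102_s1 : ∃ t, chk3 f_B00pm_102_s1 t 127 126 1 = true := ex3_a t310_B00pm_102_s1 k175_B00pm_102_s1

theorem t312_B00pm_102_s1 : ∃ t, chk3 f_B00pm_102_s1 t 2030 1015 1 = true := ex3_a k169_B00pm_102_s1 k170_B00pm_102_s1

theorem t313_B00pm_102_s1 : ∃ t, chk3 f_B00pm_102_s1 t 1015 1015 1 = true := ex3_a t312_B00pm_102_s1 k171_B00pm_102_s1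

theorem t314_B00pm_102_s1 : ∃ t, chk3 f_B00pm_102_s1 t 1015 507 1 = true := ex3_b k168_B00pm_102_s1 t313_B00pm_102_s1

theorem t315_B00pm_102_s1 : ∃ t, chk3 f_B00pm_102_s1 t 2028 1014 1 = true := ex3_b k164_B00pm_102_s1 k165_B00pm_102_s1

theorem t316_B00pm_102_s1 : ∃ t, chk3 f_B00pm_102_s1 t 1014 1014 1 = true := ex3_a t315_B00pm_102_s1 k166_B00pm_102_s1

theorem t317_B00pm_102_s1 : ∃ t, chk3 f_B00pm_102_s1 t 1014 507 1 = true := ex3_b t316_B00pm_102_s1 k167_B00pm_102_s1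

theorem t318_B00pm_102_s1 : ∃ t, chk3 f_B00pm_102_s1 t 507 507 1 = true := ex3_a t317_B00pm_102_s1 t314_B00pm_102_s1

theorem t319_B00pm_102_s1 : ∃ t, chk3 f_B00pm_102_s1 t 507 253 1 = true := ex3_b k163_B00pm_102_s1 t318_B00pm_102_s1

theorem t320_B00pm_102_s1 : ∃ t, chk3 f_B00pm_102_s1 t 1013 507 1 = true := ex3_b k161_B00pm_102_s1 k162_B00pm_102_s1

theorem t321_B00pm_102_s1 : ∃ t, chk3 f_B00pm_102_s1 t 506 507 1 = true := ex3_a k160_B00pm_102_s1 t320_B00pm_102_s1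

theorem t322_B00pm_102_s1 : ∃ t, chk3 f_B00pm_102_s1 t 2027 1013 1 = true := ex3_c k158_B00pm_102_s1 k159_B00pm_102_s1

theorem t323_B00pm_102_s1 : ∃ t, chk3 f_B00pm_102_s1 t 2026 2026 1 = true := ex3_c k155_B00pm_102_s1 k156_B00pm_102_s1

theorem t324_B00pm_102_s1 : ∃ t, chk3 f_B00pm_102_s1 t 2026 1013 1 = true := ex3_b t323_B00pm_102_s1 k157_B00pm_102_s1

theorem t325_B00pm_102_s1 : ∃ t, chk3 f_B00pm_102_s1 t 1013 1013 1 = true := ex3_a t324_B00pm_102_s1 t322_B00pm_102_s1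

theorem t326_B00pm_102_s1 : ∃ t, chk3 f_B00pm_102_s1 t 1013 506 1 = true := ex3_b k154_B00pm_102_s1 t325_B00pm_102_s1

theorem t327_B00pm_102_s1 : ∃ t, chk3 f_B00pm_102_s1 t 2025 1012 1 = true := ex3_c k151_B00pm_102_s1 k152_B00pm_102_s1

theorem t328_B00pm_102_s1 : ∃ t, chk3 f_B00pm_102_s1 t 2024 2024 1 = true := ex3_c k148_B00pm_102_s1 k149_B00pm_102_s1

theorem t329_B00pm_102_s1 : ∃ t, chk3 f_B00pm_102_s1 t 2024 1012 1 = true := ex3_b t328_B00pm_102_s1 k150_B00pm_102_s1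

theorem t330_B00pm_102_s1 : ∃ t, chk3 f_B00pm_102_s1 t 1012 1012 1 = true := ex3_a t329_B00pm_102_s1 t327_B00pm_102_s1

theorem t331_B00pm_102_s1 : ∃ t, chk3 f_B00pm_102_s1 t 1012 506 1 = true := ex3_b t330_B00pm_102_s1 k153_B00pm_102_s1

theorem t332_B00pm_102_s1 : ∃ t, chk3 f_B00pm_102_s1 t 506 506 1 = true := ex3_a t331_B00pm_102_s1 t326_B00pm_102_s1

theorem t333_B00pm_102_s1 : ∃ t, chk3 f_B00pm_102_s1 t 506 253 1 = true := ex3_b t332_B00pm_102_s1 t321_B00pm_102_s1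

theorem t334_B00pm_102_s1 : ∃ t, chk3 f_B00pm_102_s1 t 253 253 1 = true := ex3_a t333_B00pm_102_s1 t319_B00pm_102_s1

theorem t335_B00pm_102_s1 : ∃ t, chk3 f_B00pm_102_s1 t 253 252 1 = true := ex3_b k146_B00pm_102_s1 k147_B00pm_102_s1

theorem t336_B00pm_102_s1 : ∃ t, chk3 f_B00pm_102_s1 t 253 126 1 = true := ex3_b t335_B00pm_102_s1 t334_B00pm_102_s1

theorem t337_B00pm_102_s1 : ∃ t, chk3 f_B00pm_102_s1 t 505 507 1 = true := ex3_c k144_B00pm_102_s1 k145_B00pm_102_s1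

theorem t338_B00pm_102_s1 : ∃ t, chk3 f_B00pm_102_s1 t 505 506 1 = true := ex3_c k142_B00pm_102_s1 k143_B00pm_102_s1

theorem t339_B00pm_102_s1 : ∃ t, chk3 f_B00pm_102_s1 t 505 253 1 = true := ex3_b t338_B00pm_102_s1 t337_B00pm_102_s1

theorem t340_B00pm_102_s1 : ∃ t, chk3 f_B00pm_102_s1 t 504 253 1 = true := ex3_b k140_B00pm_102_s1 k141_B00pm_102_s1

theorem t341_B00pm_102_s1 : ∃ t, chk3 f_B00pm_102_s1 t 252 253 1 = true := ex3_a t340_B00pm_102_s1 t339_B00pm_102_s1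

theorem t342_B00pm_102_s1 : ∃ t, chk3 f_B00pm_102_s1 t 2023 1011 1 = true := ex3_a k138_B00pm_102_s1 k139_B00pm_102_s1

theorem t343_B00pm_102_s1 : ∃ t, chk3 f_B00pm_102_s1 t 2022 1011 1 = true := ex3_b k136_B00pm_102_s1 k137_B00pm_102_s1

theorem t344_B00pm_102_s1 : ∃ t, chk3 f_B00pm_102_s1 t 1011 1011 1 = true := ex3_a t343_B00pm_102_s1 t342_B00pm_102_s1

theorem t345_B00pm_102_s1 : ∃ t, chk3 f_B00pm_102_s1 t 1011 505 1 = true := ex3_b k135_B00pm_102_s1 t344_B00pm_102_s1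

theorem t346_B00pm_102_s1 : ∃ t, chk3 f_B00pm_102_s1 t 1011 252 1 = true := ex3_b k134_B00pm_102_s1 t345_B00pm_102_s1

theorem t347_B00pm_102_s1 : ∃ t, chk3 f_B00pm_102_s1 t 2021 1010 1 = true := ex3_b k131_B00pm_102_s1 k132_B00pm_102_s1

theorem t348_B00pm_102_s1 : ∃ t, chk3 f_B00pm_102_s1 t 2020 1010 1 = true := ex3_c k129_B00pm_102_s1 k130_B00pm_102_s1

theorem t349_B00pm_102_s1 : ∃ t, chk3 f_B00pm_102_s1 t 1010 1010 1 = true := ex3_a t348_B00pm_102_s1 t347_B00pm_102_s1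

theorem t350_B00pm_102_s1 : ∃ t, chk3 f_B00pm_102_s1 t 1010 505 1 = true := ex3_b t349_B00pm_102_s1 k133_B00pm_102_s1

theorem t351_B00pm_102_s1 : ∃ t, chk3 f_B00pm_102_s1 t 1010 252 1 = true := ex3_b k128_B00pm_102_s1 t350_B00pm_102_s1

theorem t352_B00pm_102_s1 : ∃ t, chk3 f_B00pm_102_s1 t 505 252 1 = true := ex3_a t351_B00pm_102_s1 t346_B00pm_102_s1

theorem t353_B00pm_102_s1 : ∃ t, chk3 f_B00pm_102_s1 t 504 505 1 = true := ex3_c k126_B00pm_102_s1 k127_B00pm_102_s1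

theorem t354_B00pm_102_s1 : ∃ t, chk3 f_B00pm_102_s1 t 2019 2019 1 = true := ex3_a k124_B00pm_102_s1 k125_B00pm_102_s1

theorem t355_B00pm_102_s1 : ∃ t, chk3 f_B00pm_102_s1 t 2019 1009 1 = true := ex3_b k123_B00pm_102_s1 t354_B00pm_102_s1

theorem t356_B00pm_102_s1 : ∃ t, chk3 f_B00pm_102_s1 t 2018 2018 1 = true := ex3_a k120_B00pm_102_s1 k121_B00pm_102_s1

theorem t357_B00pm_102_s1 : ∃ t, chk3 f_B00pm_102_s1 t 2018 1009 1 = true := ex3_b t356_B00pm_102_s1 k122_B00pm_102_s1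

theorem t358_B00pm_102_s1 : ∃ t, chk3 f_B00pm_102_s1 t 1009 1009 1 = true := ex3_a t357_B00pm_102_s1 t355_B00pm_102_s1

theorem t359_B00pm_102_s1 : ∃ t, chk3 f_B00pm_102_s1 t 1009 504 1 = true := ex3_b k119_B00pm_102_s1 t358_B00pm_102_s1

theorem t360_B00pm_102_s1 : ∃ t, chk3 f_B00pm_102_s1 t 2016 1008 7 = true := ex3_b k115_B00pm_102_s1 k116_B00pm_102_s1

theorem t361_B00pm_102_s1 : ∃ t, chk3 f_B00pm_102_s1 t 1008 1008 7 = true := ex3_a t360_B00pm_102_s1 k117_B00pm_102_s1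

theorem t362_B00pm_102_s1 : ∃ t, chk3 f_B00pm_102_s1 t 1008 1008 3 = true := ex3_c k114_B00pm_102_s1 t361_B00pm_102_s1

theorem t363_B00pm_102_s1 : ∃ t, chk3 f_B00pm_102_s1 t 1008 1008 1 = true := ex3_c k113_B00pm_102_s1 t362_B00pm_102_s1

theorem t364_B00pm_102_s1 : ∃ t, chk3 f_B00pm_102_s1 t 1008 504 1 = true := ex3_b t363_B00pm_102_s1 k118_B00pm_102_s1

theorem t365_B00pm_102_s1 : ∃ t, chk3 f_B00pm_102_s1 t 504 504 1 = true := ex3_a t364_B00pm_102_s1 t359_B00pm_102_s1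

theorem t366_B00pm_102_s1 : ∃ t, chk3 f_B00pm_102_s1 t 504 252 1 = true := ex3_b t365_B00pm_102_s1 t353_B00pm_102_s1

theorem t367_B00pm_102_s1 : ∃ t, chk3 f_B00pm_102_s1 t 252 252 1 = true := ex3_a t366_B00pm_102_s1 t352_B00pm_102_s1

theorem t368_B00pm_102_s1 : ∃ t, chk3 f_B00pm_102_s1 t 252 126 1 = true := ex3_b t367_B00pm_102_s1 t341_B00pm_102_s1

theorem t369_B00pm_102_s1 : ∃ t, chk3 f_B00pm_102_s1 t 126 126 1 = true := ex3_a t368_B00pm_102_s1 t336_B00pm_102_s1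

theorem t370_B00pm_102_s1 : ∃ t, chk3 f_B00pm_102_s1 t 63 126 1 = true := ex3_a t369_B00pm_102_s1 t311_B00pm_102_s1

theorem t371_B00pm_102_s1 : ∃ t, chk3 f_B00pm_102_s1 t 63 63 1 = true := ex3_b t370_B00pm_102_s1 t308_B00pm_102_s1

theorem t372_B00pm_102_s1 : ∃ t, chk3 f_B00pm_102_s1 t 503 504 3 = true := ex3_c k108_B00pm_102_s1 k109_B00pm_102_s1

theorem t373_B00pm_102_s1 : ∃ t, chk3 f_B00pm_102_s1 t 251 504 3 = true := ex3_a k107_B00pm_102_s1 t372_B00pm_102_s1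

theorem t374_B00pm_102_s1 : ∃ t, chk3 f_B00pm_102_s1 t 251 504 1 = true := ex3_c k106_B00pm_102_s1 t373_B00pm_102_s1

theorem t375_B00pm_102_s1 : ∃ t, chk3 f_B00pm_102_s1 t 251 252 1 = true := ex3_b t374_B00pm_102_s1 k110_B00pm_102_s1

theorem t376_B00pm_102_s1 : ∃ t, chk3 f_B00pm_102_s1 t 125 252 1 = true := ex3_a k105_B00pm_102_s1 t375_B00pm_102_s1

theorem t377_B00pm_102_s1 : ∃ t, chk3 f_B00pm_102_s1 t 125 126 1 = true := ex3_b t376_B00pm_102_s1 k111_B00pm_102_s1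

theorem t378_B00pm_102_s1 : ∃ t, chk3 f_B00pm_102_s1 t 62 126 1 = true := ex3_a k104_B00pm_102_s1 t377_B00pm_102_s1

theorem t379_B00pm_102_s1 : ∃ t, chk3 f_B00pm_102_s1 t 62 63 1 = true := ex3_b t378_B00pm_102_s1 k112_B00pm_102_s1

theorem t380_B00pm_102_s1 : ∃ t, chk3 f_B00pm_102_s1 t 31 63 1 = true := ex3_a t379_B00pm_102_s1 t371_B00pm_102_s1

theorem t381_B00pm_102_s1 : ∃ t, chk3 f_B00pm_102_s1 t 504 251 1 = true := ex3_c k99_B00pm_102_s1 k100_B00pm_102_s1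

theorem t382_B00pm_102_s1 : ∃ t, chk3 f_B00pm_102_s1 t 504 125 1 = true := ex3_b k98_B00pm_102_s1 t381_B00pm_102_s1

theorem t383_B00pm_102_s1 : ∃ t, chk3 f_B00pm_102_s1 t 252 125 1 = true := ex3_a t382_B00pm_102_s1 k101_B00pm_102_s1

theorem t384_B00pm_102_s1 : ∃ t, chk3 f_B00pm_102_s1 t 126 125 1 = true := ex3_a t383_B00pm_102_s1 k102_B00pm_102_s1

theorem t385_B00pm_102_s1 : ∃ t, chk3 f_B00pm_102_s1 t 126 62 1 = true := ex3_b k97_B00pm_102_s1 t384_B00pm_102_s1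

theorem t386_B00pm_102_s1 : ∃ t, chk3 f_B00pm_102_s1 t 63 62 1 = true := ex3_a t385_B00pm_102_s1 k103_B00pm_102_s1

theorem t387_B00pm_102_s1 : ∃ t, chk3 f_B00pm_102_s1 t 2015 2015 7 = true := ex3_a k95_B00pm_102_s1 k96_B00pm_102_s1

theorem t388_B00pm_102_s1 : ∃ t, chk3 f_B00pm_102_s1 t 2015 1007 7 = true := ex3_b k94_B00pm_102_s1 t387_B00pm_102_s1

theorem t389_B00pm_102_s1 : ∃ t, chk3 f_B00pm_102_s1 t 2014 2014 7 = true := ex3_a k91_B00pm_102_s1 k92_B00pm_102_s1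

theorem t390_B00pm_102_s1 : ∃ t, chk3 f_B00pm_102_s1 t 2014 1007 7 = true := ex3_b t389_B00pm_102_s1 k93_B00pm_102_s1

theorem t391_B00pm_102_s1 : ∃ t, chk3 f_B00pm_102_s1 t 1007 1007 7 = true := ex3_a t390_B00pm_102_s1 t388_B00pm_102_s1

theorem t392_B00pm_102_s1 : ∃ t, chk3 f_B00pm_102_s1 t 1007 1007 3 = true := ex3_c k90_B00pm_102_s1 t391_B00pm_102_s1

theorem t393_B00pm_102_s1 : ∃ t, chk3 f_B00pm_102_s1 t 1007 1007 1 = true := ex3_c k89_B00pm_102_s1 t392_B00pm_102_s1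

theorem t394_B00pm_102_s1 : ∃ t, chk3 f_B00pm_102_s1 t 1007 503 1 = true := ex3_b k88_B00pm_102_s1 t393_B00pm_102_s1

theorem t395_B00pm_102_s1 : ∃ t, chk3 f_B00pm_102_s1 t 2013 2013 7 = true := ex3_b k85_B00pm_102_s1 k86_B00pm_102_s1

theorem t396_B00pm_102_s1 : ∃ t, chk3 f_B00pm_102_s1 t 2013 1006 7 = true := ex3_b k84_B00pm_102_s1 t395_B00pm_102_s1

theorem t397_B00pm_102_s1 : ∃ t, chk3 f_B00pm_102_s1 t 2012 2012 7 = true := ex3_a k81_B00pm_102_s1 k82_B00pm_102_s1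

theorem t398_B00pm_102_s1 : ∃ t, chk3 f_B00pm_102_s1 t 2012 1006 7 = true := ex3_b t397_B00pm_102_s1 k83_B00pm_102_s1

theorem t399_B00pm_102_s1 : ∃ t, chk3 f_B00pm_102_s1 t 1006 1006 7 = true := ex3_a t398_B00pm_102_s1 t396_B00pm_102_s1

theorem t400_B00pm_102_s1 : ∃ t, chk3 f_B00pm_102_s1 t 1006 503 7 = true := ex3_b t399_B00pm_102_s1 k87_B00pm_102_s1

theorem t401_B00pm_102_s1 : ∃ t, chk3 f_B00pm_102_s1 t 1006 503 3 = true := ex3_c k80_B00pm_102_s1 t400_B00pm_102_s1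

theorem t402_B00pm_102_s1 : ∃ t, chk3 f_B00pm_102_s1 t 1006 503 1 = true := ex3_c k79_B00pm_102_s1 t401_B00pm_102_s1

theorem t403_B00pm_102_s1 : ∃ t, chk3 f_B00pm_102_s1 t 503 503 1 = true := ex3_a t402_B00pm_102_s1 t394_B00pm_102_s1

theorem t404_B00pm_102_s1 : ∃ t, chk3 f_B00pm_102_s1 t 503 251 1 = true := ex3_b k78_B00pm_102_s1 t403_B00pm_102_s1

theorem t405_B00pm_102_s1 : ∃ t, chk3 f_B00pm_102_s1 t 1005 503 3 = true := ex3_c k76_B00pm_102_s1 k77_B00pm_102_s1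

theorem t406_B00pm_102_s1 : ∃ t, chk3 f_B00pm_102_s1 t 502 503 3 = true := ex3_a k75_B00pm_102_s1 t405_B00pm_102_s1

theorem t407_B00pm_102_s1 : ∃ t, chk3 f_B00pm_102_s1 t 4022 2011 7 = true := ex3_a k72_B00pm_102_s1 k73_B00pm_102_s1

theorem t408_B00pm_102_s1 : ∃ t, chk3 f_B00pm_102_s1 t 2011 2011 7 = true := ex3_a t407_B00pm_102_s1 k74_B00pm_102_s1

theorem t409_B00pm_102_s1 : ∃ t, chk3 f_B00pm_102_s1 t 2011 1005 7 = true := ex3_b k71_B00pm_102_s1 t408_B00pm_102_s1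

theorem t410_B00pm_102_s1 : ∃ t, chk3 f_B00pm_102_s1 t 2011 1005 3 = true := ex3_c k70_B00pm_102_s1 t409_B00pm_102_s1

theorem t411_B00pm_102_s1 : ∃ t, chk3 f_B00pm_102_s1 t 4020 2010 7 = true := ex3_a k66_B00pm_102_s1 k67_B00pm_102_s1

theorem t412_B00pm_102_s1 : ∃ t, chk3 f_B00pm_102_s1 t 2010 2010 7 = true := ex3_a t411_B00pm_102_s1 k68_B00pm_102_s1

theorem t413_B00pm_102_s1 : ∃ t, chk3 f_B00pm_102_s1 t 2010 2010 3 = true := ex3_c k65_B00pm_102_s1 t412_B00pm_102_s1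

theorem t414_B00pm_102_s1 : ∃ t, chk3 f_B00pm_102_s1 t 2010 1005 3 = true := ex3_b t413_B00pm_102_s1 k69_B00pm_102_s1

theorem t415_B00pm_102_s1 : ∃ t, chk3 f_B00pm_102_s1 t 1005 1005 3 = true := ex3_a t414_B00pm_102_s1 t410_B00pm_102_s1

theorem t416_B00pm_102_s1 : ∃ t, chk3 f_B00pm_102_s1 t 1005 502 3 = true := ex3_b k64_B00pm_102_s1 t415_B00pm_102_s1

theorem t417_B00pm_102_s1 : ∃ t, chk3 f_B00pm_102_s1 t 2009 2009 15 = true := ex3_b k61_B00pm_102_s1 k62_B00pm_102_s1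

theorem t418_B00pm_102_s1 : ∃ t, chk3 f_B00pm_102_s1 t 2009 1004 15 = true := ex3_b k60_B00pm_102_s1 t417_B00pm_102_s1

theorem t419_B00pm_102_s1 : ∃ t, chk3 f_B00pm_102_s1 t 2009 1004 7 = true := ex3_c k59_B00pm_102_s1 t418_B00pm_102_s1

theorem t420_B00pm_102_s1 : ∃ t, chk3 f_B00pm_102_s1 t 2009 1004 3 = true := ex3_c k58_B00pm_102_s1 t419_B00pm_102_s1

theorem t421_B00pm_102_s1 : ∃ t, chk3 f_B00pm_102_s1 t 2008 2008 7 = true := ex3_b k55_B00pm_102_s1 k56_B00pm_102_s1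

theorem t422_B00pm_102_s1 : ∃ t, chk3 f_B00pm_102_s1 t 2008 2008 3 = true := ex3_c k54_B00pm_102_s1 t421_B00pm_102_s1

theorem t423_B00pm_102_s1 : ∃ t, chk3 f_B00pm_102_s1 t 2008 1004 3 = true := ex3_b t422_B00pm_102_s1 k57_B00pm_102_s1

theorem t424_B00pm_102_s1 : ∃ t, chk3 f_B00pm_102_s1 t 1004 1004 3 = true := ex3_a t423_B00pm_102_s1 t420_B00pm_102_s1

theorem t425_B00pm_102_s1 : ∃ t, chk3 f_B00pm_102_s1 t 1004 502 3 = true := ex3_b t424_B00pm_102_s1 k63_B00pm_102_s1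

theorem t426_B00pm_102_s1 : ∃ t, chk3 f_B00pm_102_s1 t 502 502 3 = true := ex3_a t425_B00pm_102_s1 t416_B00pm_102_s1

theorem t427_B00pm_102_s1 : ∃ t, chk3 f_B00pm_102_s1 t 502 251 3 = true := ex3_b t426_B00pm_102_s1 t406_B00pm_102_s1

theorem t428_B00pm_102_s1 : ∃ t, chk3 f_B00pm_102_s1 t 502 502 2 = true := ex3_b k51_B00pm_102_s1 k52_B00pm_102_s1

theorem t429_B00pm_102_s1 : ∃ t, chk3 f_B00pm_102_s1 t 502 251 2 = true := ex3_b t428_B00pm_102_s1 k53_B00pm_102_s1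

theorem t430_B00pm_102_s1 : ∃ t, chk3 f_B00pm_102_s1 t 502 251 1 = true := ex3_c t429_B00pm_102_s1 t427_B00pm_102_s1

theorem t431_B00pm_102_s1 : ∃ t, chk3 f_B00pm_102_s1 t 251 251 1 = true := ex3_a t430_B00pm_102_s1 t404_B00pm_102_s1

theorem t432_B00pm_102_s1 : ∃ t, chk3 f_B00pm_102_s1 t 251 250 3 = true := ex3_a k49_B00pm_102_s1 k50_B00pm_102_s1

theorem t433_B00pm_102_s1 : ∃ t, chk3 f_B00pm_102_s1 t 251 250 1 = true := ex3_c k48_B00pm_102_s1 t432_B00pm_102_s1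

theorem t434_B00pm_102_s1 : ∃ t, chk3 f_B00pm_102_s1 t 251 125 1 = true := ex3_b t433_B00pm_102_s1 t431_B00pm_102_s1

theorem t435_B00pm_102_s1 : ∃ t, chk3 f_B00pm_102_s1 t 1003 502 1 = true := ex3_c k45_B00pm_102_s1 k46_B00pm_102_s1

theorem t436_B00pm_102_s1 : ∃ t, chk3 f_B00pm_102_s1 t 501 502 1 = true := ex3_a k44_B00pm_102_s1 t435_B00pm_102_s1

theorem t437_B00pm_102_s1 : ∃ t, chk3 f_B00pm_102_s1 t 250 502 1 = true := ex3_a k43_B00pm_102_s1 t436_B00pm_102_s1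

theorem t438_B00pm_102_s1 : ∃ t, chk3 f_B00pm_102_s1 t 250 251 1 = true := ex3_b t437_B00pm_102_s1 k47_B00pm_102_s1

theorem t439_B00pm_102_s1 : ∃ t, chk3 f_B00pm_102_s1 t 2007 1003 3 = true := ex3_c k41_B00pm_102_s1 k42_B00pm_102_s1

theorem t440_B00pm_102_s1 : ∃ t, chk3 f_B00pm_102_s1 t 2006 1003 3 = true := ex3_b k39_B00pm_102_s1 k40_B00pm_102_s1

theorem t441_B00pm_102_s1 : ∃ t, chk3 f_B00pm_102_s1 t 1003 1003 3 = true := ex3_a t440_B00pm_102_s1 t439_B00pm_102_s1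

theorem t442_B00pm_102_s1 : ∃ t, chk3 f_B00pm_102_s1 t 1003 501 3 = true := ex3_b k38_B00pm_102_s1 t441_B00pm_102_s1

theorem t443_B00pm_102_s1 : ∃ t, chk3 f_B00pm_102_s1 t 1002 1002 3 = true := ex3_a k35_B00pm_102_s1 k36_B00pm_102_s1

theorem t444_B00pm_102_s1 : ∃ t, chk3 f_B00pm_102_s1 t 1002 501 3 = true := ex3_b t443_B00pm_102_s1 k37_B00pm_102_s1

theorem t445_B00pm_102_s1 : ∃ t, chk3 f_B00pm_102_s1 t 501 501 3 = true := ex3_a t444_B00pm_102_s1 t442_B00pm_102_s1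

theorem t446_B00pm_102_s1 : ∃ t, chk3 f_B00pm_102_s1 t 250 501 3 = true := ex3_a k34_B00pm_102_s1 t445_B00pm_102_s1

theorem t447_B00pm_102_s1 : ∃ t, chk3 f_B00pm_102_s1 t 250 501 2 = true := ex3_b k32_B00pm_102_s1 k33_B00pm_102_s1

theorem t448_B00pm_102_s1 : ∃ t, chk3 f_B00pm_102_s1 t 250 501 1 = true := ex3_c t447_B00pm_102_s1 t446_B00pm_102_s1

theorem t449_B00pm_102_s1 : ∃ t, chk3 f_B00pm_102_s1 t 500 1001 3 = true := ex3_a k29_B00pm_102_s1 k30_B00pm_102_s1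

theorem t450_B00pm_102_s1 : ∃ t, chk3 f_B00pm_102_s1 t 500 500 3 = true := ex3_b k28_B00pm_102_s1 t449_B00pm_102_s1

theorem t451_B00pm_102_s1 : ∃ t, chk3 f_B00pm_102_s1 t 250 500 3 = true := ex3_a t450_B00pm_102_s1 k31_B00pm_102_s1

theorem t452_B00pm_102_s1 : ∃ t, chk3 f_B00pm_102_s1 t 250 500 1 = true := ex3_c k27_B00pm_102_s1 t451_B00pm_102_s1

theorem t453_B00pm_102_s1 : ∃ t, chk3 f_B00pm_102_s1 t 250 250 1 = true := ex3_b t452_B00pm_102_s1 t448_B00pm_102_s1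

theorem t454_B00pm_102_s1 : ∃ t, chk3 f_B00pm_102_s1 t 250 125 1 = true := ex3_b t453_B00pm_102_s1 t438_B00pm_102_s1

theorem t455_B00pm_102_s1 : ∃ t, chk3 f_B00pm_102_s1 t 125 125 1 = true := ex3_a t454_B00pm_102_s1 t434_B00pm_102_s1

theorem t456_B00pm_102_s1 : ∃ t, chk3 f_B00pm_102_s1 t 250 124 3 = true := ex3_b k24_B00pm_102_s1 k25_B00pm_102_s1

theorem t457_B00pm_102_s1 : ∃ t, chk3 f_B00pm_102_s1 t 250 124 1 = true := ex3_c k23_B00pm_102_s1 t456_B00pm_102_s1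

theorem t458_B00pm_102_s1 : ∃ t, chk3 f_B00pm_102_s1 t 125 124 1 = true := ex3_a t457_B00pm_102_s1 k26_B00pm_102_s1

theorem t459_B00pm_102_s1 : ∃ t, chk3 f_B00pm_102_s1 t 125 62 1 = true := ex3_b t458_B00pm_102_s1 t455_B00pm_102_s1

theorem t460_B00pm_102_s1 : ∃ t, chk3 f_B00pm_102_s1 t 249 249 3 = true := ex3_a k20_B00pm_102_s1 k21_B00pm_102_s1

theorem t461_B00pm_102_s1 : ∃ t, chk3 f_B00pm_102_s1 t 249 249 1 = true := ex3_c k19_B00pm_102_s1 t460_B00pm_102_s1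

theorem t462_B00pm_102_s1 : ∃ t, chk3 f_B00pm_102_s1 t 249 124 1 = true := ex3_b k18_B00pm_102_s1 t461_B00pm_102_s1

theorem t463_B00pm_102_s1 : ∃ t, chk3 f_B00pm_102_s1 t 124 124 1 = true := ex3_a k17_B00pm_102_s1 t462_B00pm_102_s1

theorem t464_B00pm_102_s1 : ∃ t, chk3 f_B00pm_102_s1 t 124 62 1 = true := ex3_b t463_B00pm_102_s1 k22_B00pm_102_s1

theorem t465_B00pm_102_s1 : ∃ t, chk3 f_B00pm_102_s1 t 62 62 1 = true := ex3_a t464_B00pm_102_s1 t459_B00pm_102_s1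

theorem t466_B00pm_102_s1 : ∃ t, chk3 f_B00pm_102_s1 t 31 62 1 = true := ex3_a t465_B00pm_102_s1 t386_B00pm_102_s1

theorem t467_B00pm_102_s1 : ∃ t, chk3 f_B00pm_102_s1 t 31 31 1 = true := ex3_b t466_B00pm_102_s1 t380_B00pm_102_s1

theorem t468_B00pm_102_s1 : ∃ t, chk3 f_B00pm_102_s1 t 15 31 1 = true := ex3_a k16_B00pm_102_s1 t467_B00pm_102_s1

theorem t469_B00pm_102_s1 : ∃ t, chk3 f_B00pm_102_s1 t 124 61 1 = true := ex3_a k12_B00pm_102_s1 k13_B00pm_102_s1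

theorem t470_B00pm_102_s1 : ∃ t, chk3 f_B00pm_102_s1 t 62 61 1 = true := ex3_a t469_B00pm_102_s1 k14_B00pm_102_s1

theorem t471_B00pm_102_s1 : ∃ t, chk3 f_B00pm_102_s1 t 62 30 1 = true := ex3_b k11_B00pm_102_s1 t470_B00pm_102_s1

theorem t472_B00pm_102_s1 : ∃ t, chk3 f_B00pm_102_s1 t 31 30 1 = true := ex3_a t471_B00pm_102_s1 k15_B00pm_102_s1

theorem t473_B00pm_102_s1 : ∃ t, chk3 f_B00pm_102_s1 t 123 61 1 = true := ex3_b k9_B00pm_102_s1 k10_B00pm_102_s1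

theorem t474_B00pm_102_s1 : ∃ t, chk3 f_B00pm_102_s1 t 61 61 1 = true := ex3_a k8_B00pm_102_s1 t473_B00pm_102_s1

theorem t475_B00pm_102_s1 : ∃ t, chk3 f_B00pm_102_s1 t 61 30 1 = true := ex3_b k7_B00pm_102_s1 t474_B00pm_102_s1

theorem t476_B00pm_102_s1 : ∃ t, chk3 f_B00pm_102_s1 t 30 30 1 = true := ex3_a k6_B00pm_102_s1 t475_B00pm_102_s1

theorem t477_B00pm_102_s1 : ∃ t, chk3 f_B00pm_102_s1 t 15 30 1 = true := ex3_a t476_B00pm_102_s1 t472_B00pm_102_s1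

theorem t478_B00pm_102_s1 : ∃ t, chk3 f_B00pm_102_s1 t 15 15 1 = true := ex3_b t477_B00pm_102_s1 t468_B00pm_102_s1

theorem t479_B00pm_102_s1 : ∃ t, chk3 f_B00pm_102_s1 t 15 7 1 = true := ex3_b k5_B00pm_102_s1 t478_B00pm_102_s1

theorem t480_B00pm_102_s1 : ∃ t, chk3 f_B00pm_102_s1 t 7 7 1 = true := ex3_a k4_B00pm_102_s1 t479_B00pm_102_s1

theorem t481_B00pm_102_s1 : ∃ t, chk3 f_B00pm_102_s1 t 7 3 1 = true := ex3_b k3_B00pm_102_s1 t480_B00pm_102_s1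

theorem t482_B00pm_102_s1 : ∃ t, chk3 f_B00pm_102_s1 t 3 3 1 = true := ex3_a k2_B00pm_102_s1 t481_B00pm_102_s1

theorem t483_B00pm_102_s1 : ∃ t, chk3 f_B00pm_102_s1 t 3 1 1 = true := ex3_b k1_B00pm_102_s1 t482_B00pm_102_s1

theorem t484_B00pm_102_s1 : ∃ t, chk3 f_B00pm_102_s1 t 1 1 1 = true := ex3_a k0_B00pm_102_s1 t483_B00pm_102_s1

theorem c_B00pm_102_s1 : CertF 536870912 536870912 0 536870912 1020054732 13421774 false true false .npp 1 0 2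
    ndB0q1 ndB0q2 pcB0 cut_B00pm_102_s1 xt_B00pm_102_s1 :=
  certF0 (fam := false) (s1 := true) (s2 := false) (a := 1) (b := 0) (c := 2) (cn := .npp) (n1 := ndB0q1) (n2 := ndB0q2) (pc := pcB0) (cut := cut_B00pm_102_s1) (xt := xt_B00pm_102_s1) (P1 := 536870912) (W1 := 536870912) (P2 := 0) (W2 := 536870912) (P3 := 1020054732) (W3 := 13421774)
    rfl t484_B00pm_102_s1

theorem s_B00pm_102_s1 {κ x : ℝ} (hκ : κ * h0 = ken x) (hx : ((1020054732 : ℕ) : ℝ) / S ≤ x)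
    (hx' : x ≤ (((1020054732 : ℕ) : ℝ) + (13421774 : ℕ)) / S)
    (H : CutB (VFD κ) PP tK tL pcB (Cut.of [[⟨0, 1, 0, 11184810⟩, ⟨1, 0, 0, 11184810⟩, ⟨2, 1, 0, 11184810⟩], [⟨0, 0, 1, 46137344⟩, ⟨1, 1, 2, 46137344⟩, ⟨2, 1, 0, 2097152⟩, ⟨0, 0, 0, 1041207446⟩, ⟨0, 1, 0, 59055800⟩, ⟨1, 0, 0, 59055800⟩, ⟨1, 1, 0, 1041207446⟩]]) 1 0 2 0 0 (sgb true) (sgb false) x) :
    AltB (VFD κ) PP tK tL pcB [⟨3, 0, 0, 1100585369⟩] 1 0 2 0 0 (sgb true) (sgb false) x :=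
  strip_altBD (m := 1100585369) true rfl hκ (SH.κ0 hκ (SH.hx1 hx).le (SH.hx2 hx').le) (SH.hx1 hx).le (SH.hx2 hx') (covB01).cov (covB02).cov hx hx' c_B00pm_102_s1 H ((okx hx hx').extB (T := tt) (sideB hx hx') hκ rfl rfl (.O 1 true) (.O 2 false) (Or.inl rfl))

end Pool.Agent.Strip051.G.I9500_9625.Tab.St.C
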