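import Pool.Agent.Strip051.G.I9500_9625.StH
import Pool.Agent.Strip051.G.I9500_9625.StF

/-! # Unit strips 12 (generated) -/

set_option linter.all false
set_option maxRecDepth 100000

namespace Pool.Agent.Strip051.G.I9500_9625.Tab.St.C

open Pool.Agent.Strip051.PB Pool.Agent.Strip051.PB.T Pool.Agent.StripNear Pool.Agent.Strip051.LC
open Pool.Agent.Strip051.G.I9500_9625.Tab Pool.Agent.Strip051.G.I9500_9625.Tab.St

noncomputable def cut_B00pm_102_s3 : Cut := Cut.of [[⟨3, 0, 0, 2845415833⟩], [⟨0, 1, 0, 11184810⟩, ⟨1, 0, 0, 11184810⟩, ⟨2, 1, 0, 11184810⟩], [⟨0, 0, 1, 46137344⟩, ⟨1, 1, 2, 46137344⟩, ⟨2, 1, 0, 2097152⟩, ⟨0, 0, 0, 1041207446⟩, ⟨0, 1, 0, 59055800⟩, ⟨1, 0, 0, 59055800⟩, ⟨1, 1, 0, 1041207446⟩]]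

noncomputable def f_B00pm_102_s3 : ℕ → ℕ → ℕ → ℕ → Bool := onCell 536870912 536870912 0 536870912 1020054732 13421774
    (rowF 0 false true false .npp 1 0 2 (qsf 536870912 536870912 0 536870912 0) ndB0q1 ndB0q2 pcB0 cut_B00pm_102_s3 Ext.none)

def k0_B00pm_102_s3 : ∃ t, chk3 f_B00pm_102_s3 t 1 1 1 = true :=
  ⟨(l 6), by decide +kernel⟩

theorem c_B00pm_102_s3 : CertF 536870912 536870912 0 536870912 1020054732 13421774 false true false .npp 1 0 2
    ndB0q1 ndB0q2 pcB0 cut_B00pm_102_s3 Ext.none :=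
  certF0 (fam := false) (s1 := true) (s2 := false) (a := 1) (b := 0) (c := 2) (cn := .npp) (n1 := ndB0q1) (n2 := ndB0q2) (pc := pcB0) (cut := cut_B00pm_102_s3) (xt := Ext.none) (P1 := 536870912) (W1 := 536870912) (P2 := 0) (W2 := 536870912) (P3 := 1020054732) (W3 := 13421774)
    rfl k0_B00pm_102_s3

theorem s_B00pm_102_s3 {κ x : ℝ} (hκ : κ * h0 = ken x) (hx : ((1020054732 : ℕ) : ℝ) / S ≤ x)
    (hx' : x ≤ (((1020054732 : ℕ) : ℝ) + (13421774 : ℕ)) / S)
    (H : CutB (VFD κ) PP tK tL pcB (Cut.of [[⟨0, 1, 0, 11184810⟩, ⟨1, 0, 0, 11184810⟩, ⟨2, 1, 0, 11184810⟩], [⟨0, 0, 1, 46137344⟩, ⟨1, 1, 2, 46137344⟩, ⟨2, 1, 0, 2097152⟩, ⟨0, 0, 0, 1041207446⟩, ⟨0, 1, 0, 59055800⟩, ⟨1, 0, 0, 59055800⟩, ⟨1, 1, 0, 1041207446⟩]]) 1 0 2 0 0 (sgb true) (sgb false) x) :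
    AltB (VFD κ) PP tK tL pcB [⟨4, 0, 0, 2845415833⟩] 1 0 2 0 0 (sgb true) (sgb false) x :=
  strip_altBD (m := 2845415833) false rfl hκ (SH.κ0 hκ (SH.hx1 hx).le (SH.hx2 hx').le) (SH.hx1 hx).le (SH.hx2 hx') (covB01).cov (covB02).cov hx hx' c_B00pm_102_s3 H (noExt_B)

noncomputable def cut_B00pm_112_s1 : Cut := Cut.of [[⟨4, 0, 0, 1449551462⟩]]

noncomputable def xt_B00pm_112_s1 : Ext := strExt dd false true false .u0 .u2 .u0m .dn 1 1 2 rfl rfl gf1 vv ndB0q1 ndB0q2

noncomputable def f_B00pm_112_s1 : ℕ → ℕ → ℕ → ℕ → Bool := onCell 536870912 536870912 0 536870912 1020054732 13421774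
    (rowF 0 false true false .dn 1 1 2 (qsf 536870912 536870912 0 536870912 1) ndB0q1 ndB0q2 pcB1 cut_B00pm_112_s1 xt_B00pm_112_s1)

def k0_B00pm_112_s1 : ∃ t, chk3 f_B00pm_112_s1 t 8 8 1 = true :=
  ⟨(a (a (b (a (c (l 531244559) (l 532915727)) (c (l 530741775) (l 533047055))) (c (b (c (l 530254863) (l 531946767)) (b (a (b (a (a (l 16489416) (l 16489624)) (l 16575216)) (a (c (l 16541848) (l 16600840)) (c (l 16496144) (l 16598880)))) (l 530991375)) (a (a (l 16493696) (c (l 16498952) (l 16598800))) (a (b (c (a (l 16533096) (l 16532328)) (l 16595072)) (c (l 16534480) (l 16594600))) (b (l 16481920) (c (a (l 16444776) (l 16527312)) (a (l 16591288) (l 16590696)))))))) (b (c (l 533466127) (l 533210383)) (a (b (c (a (b (l 16656792) (l 16654416)) (l 16613816)) (a (b (l 16614904) (l 16613288)) (l 16619872))) (a (l 16593624) (c (l 16651448) (l 16616200)))) (b (l 533014799) (a (c (b (l 16650584) (l 16648888)) (b (l 16617320) (l 16614816))) (b (l 16592880)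 (c (l 16647536) (l 16614712))))))))) (a (b (c (l 530239759) (l 532644111)) (b (c (l 530505487) (l 532627215)) (c (a (a (c (l 16540624) (l 16516976)) (l 530777615)) (l 530421519)) (c (b (l 16660328) (l 16609128)) (c (l 16607960) (l 16654264)))))) (c (c (l 528958223) (l 530362127)) (c (l 532277519) (b (l 533765135) (l 533731343)))))) (c (c (a (b (l 528626447) (c (l 528611599) (l 529675535))) (b (l 527545615) (c (l 527485455) (l 529179151)))) (a (b (l 531155727) (l 529790223)) (b (l 529967631) (c (l 530245903) (l 531230223))))) (c (a (b (l 532882447) (l 531776783)) (b (l 532605199) (c (l 532140047) (l 532983311)))) (a (b (l 533324815) (c (l 534000399) (l 533908239))) (b (l 533375759) (c (l 533767439) (l 533963791))))))), by decide +kernel⟩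

def k1_B00pm_112_s1 : ∃ t, chk3 f_B00pm_112_s1 t 16 9 1 = true :=
  ⟨(b (b (a (c (a (c (l 16561184) (l 16607944)) (c (b (l 16455112) (l 16550424)) (l 16545808))) (c (a (l 16567784) (l 16605280)) (a (l 16606584) (b (l 16611288) (l 16606672))))) (c (a (b (a (b (c (a (l 16440600) (l 16480536)) (a (l 16587888) (l 16586896))) (l 16475384)) (b (a (l 16513792) (l 16473152)) (a (c (l 16520624) (l 16584680)) (b (l 16509624) (l 16508888))))) (c (l 16448984) (l 16590320))) (b (a (a (b (l 16474744) (c (l 16517208) (l 16583104))) (l 16472392)) (l 530158095)) (a (b (c (a (l 16517104) (b (l 16512720) (l 16513640))) (b (l 16538568) (l 16580960))) (l 16469560)) (a (b (c (l 16491240) (l 16579240)) (l 16463592)) (b (l 16463592) (b (a (l 16459456) (l 16500632)) (l 16460824))))))) (a (b (a (b (c (l 16602608) (l 16612120)) (l 16585288)) (c (b (l 16644856) (c (l 16627880) (l 16655048))) (b (l 16612392) (l 16651496)))) (c (l 16642328) (l 16606272))) (a (b (c (l 16602272)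 (l 16653392)) (b (c (a (l 16639120) (l 16638320)) (l 16648952)) (l 16601264))) (b (l 532678671) (c (b (c (l 16624656) (l 16652376)) (a (l 16636624) (l 16635520))) (b (l 16649312) (l 16646456)))))))) (a (a (c (l 16513488) (l 16603760)) (c (c (l 16565576) (l 16606888)) (c (l 16645952) (l 16599544)))) (c (a (c (l 16466600) (l 16597848)) (c (b (l 16443192) (l 16539784)) (b (l 16585088) (l 16590632)))) (c (a (l 16641824) (c (l 16625376) (l 16649056))) (a (l 16599384) (b (l 16643304) (l 16596856))))))) (c (a (b (a (l 16607968) (l 16514760)) (c (l 16603384) (l 16623208))) (a (c (l 16495160) (l 16525848)) (b (c (l 16556512) (l 16597840)) (l 16507024)))) (a (c (b (l 16645704) (l 16643072)) (b (l 16589592) (l 16663128))) (a (c (l 16555632) (l 16626832)) (b (c (l 16636688) (l 16589880)) (l 16607824)))))), by decide +kernel⟩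

def k2_B00pm_112_s1 : ∃ t, chk3 f_B00pm_112_s1 t 34 18 1 = true :=
  ⟨(a (b (a (c (b (l 529773583) (b (l 16508192) (a (b (l 16459192) (a (l 16457760) (l 16498616))) (c (l 16507520) (l 16575872))))) (b (l 532612623) (a (b (l 16582536) (c (l 16635304) (l 16604656))) (c (l 16638312) (l 16648560))))) (c (l 529376015) (l 532268559))) (c (b (c (a (b (a (l 16510888) (l 16484784)) (l 16515808)) (b (b (l 16482608) (a (l 16418288) (l 16458200))) (a (l 16507928) (l 16460504)))) (a (c (l 16561120) (l 16591360)) (b (a (b (l 16572128) (l 16571136)) (l 16571968)) (l 16530168)))) (c (l 16479712) (l 16538176))) (b (c (a (c (l 16619864) (l 16646832)) (b (a (l 16590448) (l 16632672)) (l 16631008))) (a (a (l 16601088) (l 16653336)) (b (a (l 16644080) (l 16602456)) (l 16641624)))) (c (l 16590664) (l 16638496))))) (c (a (b (l 528992527) (b (b (l 529225743) (a (b (c (l 16455832) (l 16568384)) (c (l 16498864) (l 16568328))) (b (l 16451280) (c (l 16474536) (l 16566600)))))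 (c (l 16422504) (l 16571424)))) (b (l 528878095) (b (a (c (l 16461480) (l 16572912)) (l 529074447)) (b (a (b (c (a (l 16451592) (l 16450528)) (l 16564896)) (l 16448240)) (b (a (l 16488016) (l 16447000)) (c (b (l 16448768) (l 16407416)) (l 16521320)))) (c (l 16415696) (l 16567136)))))) (a (b (l 531936015) (b (b (l 532176399) (c (c (a (l 16615056) (l 16615072)) (l 16643928)) (a (l 16641600) (l 16641920)))) (c (l 16628808) (l 16638224)))) (b (l 531872527) (c (b (l 16591832) (b (a (b (l 16627048) (l 16626720)) (b (l 16627488) (l 16625680))) (l 16626336))) (b (l 16654880) (b (a (l 16639168) (l 16649936)) (l 16595024)))))))), by decide +kernel⟩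

def k3_B00pm_112_s1 : ∃ t, chk3 f_B00pm_112_s1 t 35 18 1 = true :=
  ⟨(a (c (a (b (l 528495887) (b (l 528720911) (b (a (c (l 16451168) (l 16565136)) (l 528666895)) (c (c (b (a (l 16469600) (l 16467952)) (l 16449904)) (b (a (l 16508504) (l 16507424)) (l 16467304))) (a (b (l 16519776) (l 16563352)) (b (l 16561296) (l 16560264))))))) (b (l 528382735) (a (b (l 528635919) (b (l 528610575) (b (l 16443904) (c (a (l 16443320) (l 16485424)) (c (l 16542048) (l 16576224)))))) (l 528293647)))) (c (b (l 532583183) (b (l 532544783) (a (b (l 16586088) (a (b (l 16624360) (l 16624408)) (b (l 16624496) (l 16623096)))) (c (l 16613368) (l 16642072))))) (b (l 533607951) (b (l 533575951) (a (b (l 16640216) (a (l 16636800) (b (l 16595800) (l 16594248)))) (c (l 16668896) (l 16673120))))))) (c (c (b (l 527890959) (l 527830287)) (l 529492495)) (c (l 532417295) (l 532670479)))), by decide +kernel⟩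

def k4_B00pm_112_s1 : ∃ t, chk3 f_B00pm_112_s1 t 17 38 2 = true :=
  ⟨(a (a (c (l 16457200) (l 16504800)) (c (c (l 16425200) (l 16538056)) (b (l 16533496) (l 16581680)))) (a (b (c (a (l 16459248) (b (a (b (l 16444104) (l 16490576)) (b (a (l 16451640) (l 16440960)) (l 16442664))) (l 16410544))) (a (l 16566688) (b (b (a (l 16558912) (c (l 16540152) (l 16574552))) (l 16517320)) (l 16562464)))) (c (a (l 16516936) (l 16507064)) (c (l 16556984) (l 16584760)))) (a (b (a (b (b (l 16460168) (c (b (l 16439072) (a (l 16481216) (l 16437512))) (b (l 16556064) (l 16513416)))) (c (l 16401824) (l 16557616))) (c (b (l 16442552) (b (a (l 16447808) (b (l 16478400) (l 16435512))) (l 16398184))) (b (l 16558824) (b (b (l 16512344) (l 16511968)) (l 16555392))))) (c (l 16454536) (l 16520344))) (b (b (l 527784207) (c (a (b (l 16437224) (b (a (l 16434608) (l 16433960)) (l 16435256))) (c (l 16437520) (l 16499448))) (b (l 16514000) (a (c (l 16535008) (l 16527984)) (l 16510984)))))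 (c (b (a (l 16399400) (b (b (a (l 16433032) (l 16431664)) (l 16433912)) (l 16395776))) (l 16405920)) (b (a (l 16555408) (b (c (l 16533488) (l 16526600)) (l 16553200))) (l 16558144))))))), by decide +kernel⟩

def k5_B00pm_112_s1 : ∃ t, chk3 f_B00pm_112_s1 t 17 38 3 = true :=
  ⟨(a (c (a (l 16590632) (b (l 16586072) (l 16628232))) (a (l 16631744) (c (l 16662504) (l 16600488)))) (a (c (b (a (l 16624248) (b (a (l 16621992) (b (l 16621608) (l 16620744))) (l 16621840))) (c (l 16611016) (l 16635936))) (b (a (l 16633600) (b (a (l 16634504) (b (l 16635312) (l 16591976))) (l 16590464))) (b (l 16630328) (l 16586208)))) (a (b (c (b (b (l 16623240) (a (l 16620224) (l 16620984))) (a (l 16619808) (b (l 16624120) (l 16618576)))) (b (c (l 16664280) (l 16669144)) (c (l 16666368) (l 16665944)))) (c (l 16619912) (l 16629112))) (b (c (b (l 16624752) (a (c (l 16603520) (l 16633464)) (l 16619576))) (b (l 16594904) (a (b (l 16591528) (l 16631752)) (l 16633312)))) (b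 (c (c (l 16602064) (l 16631432)) (c (l 16658880) (l 16663696))) (c (l 16617576) (l 16586040))))))), by decide +kernel⟩

def k6_B00pm_112_s1 : ∃ t, chk3 f_B00pm_112_s1 t 17 39 1 = true :=
  ⟨(a (c (c (a (l 16562824) (l 16548792)) (a (l 16598128) (l 16589720))) (c (a (l 16631792) (l 16628032)) (c (l 16655880) (l 16672840)))) (c (c (a (b (l 16526608) (l 16539552)) (c (l 16459056) (l 16446136))) (a (l 16528144) (c (l 16557400) (l 16583304)))) (c (a (l 16582080) (c (l 16607872) (l 16631280))) (a (b (l 16582880) (l 16662232)) (c (l 16653664) (l 16675192)))))), by decide +kernel⟩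

def k7_B00pm_112_s1 : ∃ t, chk3 f_B00pm_112_s1 t 8 5 1 = true :=
  ⟨(b (a (b (a (a (l 6) (c (l 16538944) (l 16558360))) (c (c (l 16520408) (l 16534912)) (c (l 16633504) (l 16564616)))) (l 6)) (a (b (c (a (b (l 16593576) (l 16604776)) (c (l 16494336) (l 16518552))) (c (b (l 16628720) (l 16626920)) (b (l 16654720) (l 16644624)))) (b (c (l 16527320) (l 16587424)) (l 6))) (b (c (b (c (a (l 16556552) (l 16542560)) (a (l 16590944) (l 16582640))) (c (l 16486328) (l 16512008))) (c (b (a (l 16623648) (l 16620032)) (l 16537056)) (b (a (l 16655184) (l 16655456)) (l 16645664)))) (c (b (c (l 16587624) (l 16603456)) (l 16522656)) (c (b (l 16619384) (l 16617392)) (b (l 16635536) (l 16624976))))))) (l 6)), by decide +kernel⟩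

def k8_B00pm_112_s1 : ∃ t, chk3 f_B00pm_112_s1 t 9 8 1 = true :=
  ⟨(b (a (c (c (a (c (l 527150863) (l 528702223)) (c (l 526306063) (l 528227343))) (a (l 530136591) (l 529520143))) (c (a (l 532345871) (l 531570447)) (a (l 533173007) (l 532986639)))) (a (c (c (c (b (l 3) (l 524982031)) (l 527691279)) (l 528928271)) (c (l 531087375) (l 532818191))) (l 3))) (c (c (a (a (a (l 527407119) (l 526874895)) (a (l 526615055) (c (l 526419471) (l 528109839)))) (a (c (a (l 525488911) (l 525105935)) (l 527190031)) (a (c (l 524736015) (l 527246095)) (c (l 524380175) (l 526940175))))) (a (a (c (l 529841935) (l 530893071)) (c (l 529457423) (l 530576655))) (a (a (l 529517583) (l 529363471)) (c (l 528769807) (l 530026255))))) (a (c (a (c (l 531855375) (l 532738063)) (c (l 531591439) (l 532512527))) (a (c (l 533550095) (l 534032143)) (b (l 532952847) (l 532382735)))) (c (a (c (l 531352591) (l 532310031)) (c (l 531142927) (l 532133391))) (a (b (l 532511503) (l 532207119))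 (a (l 532911631) (l 532838671))))))), by decide +kernel⟩

def k9_B00pm_112_s1 : ∃ t, chk3 f_B00pm_112_s1 t 18 18 4 = true :=
  ⟨(a (a (b (l 527626255) (l 527298575)) (b (l 527096847) (l 526770959))) (a (b (l 526571535) (l 526247951)) (b (l 526386447) (c (l 526405903) (l 528008975))))), by decide +kernel⟩

def k10_B00pm_112_s1 : ∃ t, chk3 f_B00pm_112_s1 t 36 19 4 = true :=
  ⟨(b (a (b (l 527243023) (a (b (a (b (b (l 16391104) (a (l 16430608) (l 16389016))) (a (l 16391104) (b (l 16429600) (l 16389224)))) (b (l 16392664) (b (l 16430416) (a (l 16428664) (l 16428416))))) (a (l 16397112) (a (l 16392520) (c (l 16431456) (l 16493416))))) (b (l 16436368) (a (b (b (l 16438408) (a (l 16427008) (l 16426072))) (a (l 16388824) (l 16427584))) (b (l 16387360) (a (b (l 16435464) (l 16425656)) (c (l 16424224) (l 16487960)))))))) (a (b (l 527317775) (l 527274767)) (l 526631695))) (a (b (a (l 16450360) (a (l 16441848) (c (l 16415984) (l 16497040)))) (a (l 16509320)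 (l 16415480))) (b (a (b (a (b (b (a (b (l 16422744) (l 16422752)) (l 16423136)) (a (l 16382632) (b (l 16421712) (l 16422040)))) (l 16427048)) (c (b (l 16402176) (b (a (l 16399184) (l 16398536)) (l 16421112))) (b (l 16487168) (b (l 16463480) (l 16484936))))) (c (l 16369552) (l 16493392))) (b (a (a (b (l 16384568) (c (l 16419744) (l 16484200))) (l 16425216)) (l 16427768)) (b (a (b (a (l 16419808) (a (l 16418328) (l 16418376))) (a (l 16380592) (l 16419224))) (a (b (l 16377512) (c (l 16416096) (l 16480984))) (l 16419656))) (a (l 16425080) (a (l 16420152) (b (c (l 16415104) (l 16480112)) (l 16376312))))))) (a (l 16436264) (c (l 16415688) (l 16454088)))))), by decide +kernel⟩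

def k11_B00pm_112_s1 : ∃ t, chk3 f_B00pm_112_s1 t 37 19 4 = true :=
  ⟨(b (a (c (l 526480399) (l 528159503)) (c (l 526105871) (l 527936271))) (a (b (a (b (l 526719247) (a (b (l 16422240) (b (l 16417776) (a (c (l 16414120) (l 16479296)) (l 16415704)))) (l 16422744))) (l 526314767)) (a (b (c (b (a (a (l 16439224) (b (l 16413088) (l 16437088))) (b (l 16412168) (a (l 16412160) (b (l 16431152) (l 16388472))))) (a (l 16443936) (a (l 16438328) (l 16413576)))) (b (a (l 16459960) (b (l 16479072) (a (l 16477864) (l 16477264)))) (l 16461728))) (c (l 16366016) (l 16489920))) (a (b (b (l 16417192) (b (a (b (l 16412560) (a (l 16411872) (l 16411576))) (l 16413496)) (a (a (l 16371976) (l 16412248)) (c (b (l 16386104) (l 16391376)) (l 16475400))))) (c (l 16397016) (l 16481544))) (b (l 526515727) (b (b (a (c (b (l 16395200) (l 16385168)) (l 16432616)) (l 16411000)) (a (l 16412232) (c (b (b (l 16383232) (l 16383248)) (l 16384360)) (l 16431832)))) (l 16415048))))))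 (a (b (l 526192911) (b (l 526156303) (b (c (c (l 16412064) (l 16443912)) (l 16457120)) (a (b (b (a (a (l 16408584) (l 16408136)) (l 16409240)) (a (l 16409144) (a (l 16407648) (l 16408152)))) (a (l 16411448) (a (l 16408840) (b (l 16407192) (l 16407872))))) (a (b (l 16410352) (c (c (l 16386512) (l 16437224)) (l 16471936))) (l 16410696)))))) (c (l 525970447) (l 527791887))))), by decide +kernel⟩

def k12_B00pm_112_s1 : ∃ t, chk3 f_B00pm_112_s1 t 18 9 5 = true :=
  ⟨(b (a (c (a (l 529854223) (l 529657359)) (l 530803471)) (a (l 529490447) (l 529322767))) (a (b (b (c (l 529670927) (l 530721295)) (b (a (a (c (b (l 16534208) (a (l 16532088) (l 16531160))) (b (l 16569480) (a (l 16567248) (l 16566808)))) (l 16512456)) (l 530087695)) (a (a (a (l 16553288) (c (l 16532248) (l 16566904))) (a (b (c (l 16529360) (l 16565216)) (l 16505712)) (b (l 16549064) (c (b (l 16527696) (l 16526976)) (l 16563688))))) (l 530065935)))) (a (a (b (l 16516312) (l 16566072)) (b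 (c (l 16535184) (l 16568120)) (l 16560504))) (b (a (b (a (b (c (b (l 16525896) (l 16525576)) (l 16541272)) (l 16545680)) (b (l 16503312) (c (b (l 16524208) (l 16524344)) (l 16539912)))) (l 16505744)) (b (c (a (l 16527168) (l 16529768)) (l 16564624)) (a (b (c (b (l 16522656) (l 16523280)) (l 16538632)) (l 16543800)) (b (c (l 16522928) (l 16559736)) (c (b (l 16521256) (l 16522392)) (l 16516488)))))) (c (l 16493400) (l 16567104))))) (b (a (l 529655055) (l 529219599)) (a (b (a (b (l 529912591) (a (b (l 16543976) (c (b (l 16521664) (l 16520120)) (l 16558176))) (l 16544416))) (l 529815567)) (a (b (c (b (a (l 16520768) (b (l 16519760) (l 16518568))) (l 16479888)) (b (a (l 16515416) (l 16556696)) (l 16557808))) (l 16502248)) (b (a (b (l 16540248) (a (b (l 16489336) (l 16536456)) (c (l 16517584) (l 16555120)))) (l 16540752)) (b (a (l 16495696) (c (b (l 16495304) (l 16515904)) (b (l 16553968) (l 16511472)))) (l 16517656))))) (b (l 529422607) (a (b (l 16524160)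 (a (b (l 16515672) (a (a (l 16492616) (l 16512944)) (b (l 16533912) (l 16512232)))) (c (l 16486688) (l 16555656)))) (l 529602063))))))), by decide +kernel⟩

def k13_B00pm_112_s1 : ∃ t, chk3 f_B00pm_112_s1 t 18 18 3 = true :=
  ⟨(c (a (c (l 531766287) (l 532651791)) (c (l 531499535) (l 532422159))) (a (c (l 533468943) (l 533421071)) (c (l 533264399) (a (l 533813775) (l 533722127))))), by decide +kernel⟩

def k14_B00pm_112_s1 : ∃ t, chk3 f_B00pm_112_s1 t 18 38 3 = true :=
  ⟨(a (a (b (c (l 532207887) (l 533038607)) (c (a (b (a (b (l 16616632) (l 16620392)) (c (l 16601344) (l 16631560))) (c (l 16599896) (l 16629288))) (b (l 16618928) (b (c (l 16599104) (l 16629560)) (a (l 16612968) (a (l 16612312) (l 16612536)))))) (b (a (a (b (l 16631112) (l 16629472)) (c (l 16659616) (l 16643848))) (l 16632216)) (c (a (l 16656736) (a (l 16656632) (l 16657216))) (a (l 16640544) (a (l 16661976) (l 16662576))))))) (c (b (l 532077839) (a (l 532072975) (l 532009231)))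 (b (l 532934927) (a (l 533199119) (l 533148175))))) (c (c (l 531399695) (l 532327951)) (a (l 532283151) (l 532187407)))), by decide +kernel⟩

def k15_B00pm_112_s1 : ∃ t, chk3 f_B00pm_112_s1 t 18 78 3 = true :=
  ⟨(a (a (c (a (l 16615808) (c (l 16598736) (l 16627264))) (a (l 16624760) (c (l 16653960) (l 16637120)))) (a (c (b (a (b (c (l 16553656) (l 16626392)) (l 16611000)) (b (l 16612144) (c (l 16552392) (l 16625208)))) (l 16610928)) (b (a (c (l 16654384) (l 16659768)) (b (l 16627216) (c (l 16653792) (l 16638432)))) (a (l 16581760) (l 16623696)))) (c (c (b (l 16597752) (b (a (l 16551200) (l 16593536)) (a (l 16593720) (l 16550088)))) (b (l 16628240) (b (a (l 16624072) (l 16624640)) (l 16623392)))) (c (b (l 16656376) (b (a (l 16652688) (l 16653344)) (l 16651704))) (b (l 16640512) (a (l 16657616) (b (l 16679952) (l 16678216)))))))) (c (a (a (a (b (l 16616024) (c (l 16593888) (l 16624864))) (l 531890959)) (l 531845135)) (l 531756303)) (a (a (a (b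 (l 16629272) (c (l 16653424) (l 16658904))) (l 533321487)) (l 533016335)) (l 532676111)))), by decide +kernel⟩

def k16_B00pm_112_s1 : ∃ t, chk3 f_B00pm_112_s1 t 18 79 3 = true :=
  ⟨(a (c (a (c (l 16603024) (l 16627680)) (c (l 16596680) (l 16624288))) (a (b (l 16621568) (l 16577448)) (c (l 16650168) (l 16653576)))) (c (a (b (a (a (c (l 16549472) (l 16621952)) (b (c (l 16590816) (l 16622168)) (l 16611080))) (a (b (l 16608240) (c (l 16589536) (l 16620984))) (l 16608560))) (a (l 16607240) (b (a (l 16604960) (c (c (l 16559032) (l 16554504)) (l 16619840))) (l 16604792)))) (a (a (b (l 16610624) (b (l 16605504) (c (c (l 16557856) (l 16553368)) (l 16618744)))) (c (l 16593680) (l 16624432))) (l 531683855))) (a (b (a (c (b (a (l 16650600) (l 16651048)) (l 16649720)) (a (l 16634560) (b (l 16677776) (l 16676152)))) (a (b (l 16581728) (c (l 16649936) (l 16676704))) (l 16623704))) (b (a (l 16620168) (a (l 16620224) (c (l 16648840) (l 16654664)))) (c (l 16648112)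 (l 16631776)))) (a (b (l 533210639) (a (b (l 16621464) (c (l 16647784) (l 16653616))) (c (l 16650016) (l 16676488)))) (l 532885775))))), by decide +kernel⟩

def k17_B00pm_112_s1 : ∃ t, chk3 f_B00pm_112_s1 t 19 9 1 = true :=
  ⟨(c (c (b (a (c (a (b (l 525503503) (l 526031375)) (b (l 525131791) (l 525131279))) (a (l 527546895) (l 527287823))) (c (a (b (l 525041423) (l 524780815)) (b (l 524696847) (l 524444431))) (a (l 527252751) (l 526961679)))) (a (c (b (a (c (l 525278991) (l 526468111)) (c (l 525181199) (l 525857807))) (c (a (l 524977679) (l 524889871)) (a (l 526428431) (l 525827855)))) (b (a (l 527719951) (l 527512079)) (a (l 527363855) (l 527159055)))) (c (c (b (a (l 524828175) (l 524489487)) (a (l 524546575) (l 524486415))) (b (a (l 525796623) (l 525481231)) (a (l 525508367) (l 525471247)))) (b (a (l 527228943) (l 526950927)) (a (l 526927375) (l 526927631)))))) (b (a (a (l 528893455) (l 528740367)) (a (l 528595983) (l 528461071))) (b (a (a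 (l 529059599) (l 528907791)) (a (l 528764943) (l 528631567))) (a (a (l 528702223) (l 528551439)) (a (l 528409615) (l 528278031)))))) (c (b (a (a (l 530728975) (l 530892815)) (c (l 531046159) (l 532034575))) (a (a (c (l 531171855) (l 532128527)) (c (l 531057423) (l 532029967))) (a (c (l 530950927) (l 531938063)) (c (l 530852879) (l 531853071))))) (c (b (a (l 533079055) (l 532914959)) (a (b (l 532989711) (l 532917775)) (b (l 532822543) (l 532749071)))) (b (a (l 533054735) (l 533163023)) (a (b (l 533243919) (a (l 533762063) (l 533675535))) (b (l 533348879) (l 532747791))))))), by decide +kernel⟩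

def k18_B00pm_112_s1 : ∃ t, chk3 f_B00pm_112_s1 t 18 20 2 = true :=
  ⟨(c (a (c (b (a (l 16514648) (l 16453088)) (l 16451752)) (b (a (l 16539120) (l 16481832)) (l 16554168))) (b (a (a (c (l 16436544) (l 16427056)) (b (c (l 16412712) (l 16493000)) (l 16410008))) (b (a (a (c (l 16381240) (l 16443024)) (b (b (b (a (c (c (l 16408760) (l 16438256)) (l 16471872)) (c (a (b (l 16420648) (l 16378776)) (l 16378776)) (l 16429064))) (a (l 16410712) (c (l 16381088) (l 16471392)))) (l 16413600)) (l 16422416))) (a (b (b (a (b (l 16407896) (c (b (l 16377672) (a (l 16378056) (l 16376712))) (l 16449176))) (l 16408264)) (b (a (c (l 16380624) (l 16470992)) (c (c (a (l 16382960) (l 16382032)) (l 16412760)) (l 16448368))) (l 16408296))) (b (l 16412944) (l 16376984))) (b (b (l 16411224) (c (b (l 16377576) (a (c (b (l 16381056) (l 16381928)) (l 16411792)) (l 16375208))) (b (l 16470888) (a (l 16447632) (l 16468904))))) (b (a (l 16407816) (b (c (b (a (l 16374312) (l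 16373336)) (l 16375416)) (l 16446968)) (l 16405912))) (l 16412336))))) (a (l 16430872) (c (l 16410472) (l 16490576))))) (a (b (l 16431448) (l 16529728)) (c (l 16449448) (l 16435576))))) (a (c (b (a (l 16562408) (l 16550832)) (l 16572056)) (b (a (l 16584624) (l 16576360)) (l 16589376))) (b (a (a (b (l 16509416) (l 16559736)) (c (l 16492424) (l 16564792))) (b (a (b (a (l 16495528) (b (b (a (l 16490752) (l 16511384)) (l 16512160)) (l 16535328))) (l 16499208)) (b (b (b (l 16493736) (a (c (l 16491728) (l 16550912)) (l 16534800))) (a (a (l 16490640) (b (l 16509984) (l 16531496))) (a (b (l 16531616) (l 16509352)) (l 16490048)))) (a (l 16494088) (a (l 16491432) (b (c (l 16489816) (l 16506976)) (l 16533040)))))) (c (l 16487584) (l 16560920)))) (a (b (l 16564616) (l 16571176)) (c (l 16545856) (l 16570720)))))), by decide +kernel⟩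

def k19_B00pm_112_s1 : ∃ t, chk3 f_B00pm_112_s1 t 18 20 3 = true :=
  ⟨(a (c (c (b (a (l 16605896) (l 16600528)) (l 16606200)) (b (a (l 16626344) (l 16623488)) (l 16622608))) (c (b (a (l 16646080) (l 16645400)) (l 16638680)) (b (a (l 16665232) (l 16666424)) (l 16654480)))) (b (a (c (b (c (l 16593216) (l 16620624)) (a (l 16609384) (l 16607248))) (b (c (l 16646272) (l 16649432)) (c (l 16643152) (l 16664984)))) (c (b (b (b (a (a (l 16603264) (c (l 16575592) (l 16617704))) (c (l 16587888) (l 16619456))) (a (l 16603112) (a (c (l 16564104) (l 16616712)) (c (l 16585424) (l 16617312))))) (a (l 16603840) (a (l 16601896) (c (l 16574152) (l 16615792))))) (c (l 16590064) (l 16617200))) (b (b (a (a (l 16617792) (b (c (l 16646752) (l 16673560)) (l 16617360))) (c (b (l 16648360) (a (l 16645768) (l 16646512))) (b (l 16653968) (a (l 16672552) (l 16673352))))) (a (c (l 16644952) (l 16670056)) (a (l 16615912) (c (l 16644440) (l 16649920))))) (c (l 16642560) (l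 16645416))))) (c (a (b (l 16609040) (l 16609352)) (c (l 16594216) (l 16616504))) (a (b (l 16565832) (l 16645088)) (c (l 16637736) (l 16658080)))))), by decide +kernel⟩

def k20_B00pm_112_s1 : ∃ t, chk3 f_B00pm_112_s1 t 18 21 1 = true :=
  ⟨(c (a (b (c (l 16482392) (l 16506368)) (c (l 16584152) (l 16598096))) (b (c (a (l 16548264) (l 16534976)) (a (l 16579512) (l 16571840))) (c (l 16479600) (l 16501520)))) (a (c (b (l 16529792) (l 16612200)) (b (l 16636832) (l 16626576))) (c (b (a (l 16609208) (l 16606160)) (l 16564952)) (b (a (l 16637848) (l 16596680)) (l 16628224))))), by decide +kernel⟩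

def k21_B00pm_112_s1 : ∃ t, chk3 f_B00pm_112_s1 t 76 40 4 = true :=
  ⟨(a (a (b (b (l 526027023) (c (b (b (a (c (l 16379704) (l 16430744)) (l 16417240)) (a (b (a (l 16373736) (l 16382648)) (l 16375024)) (a (c (l 16378016) (l 16429160)) (l 16414336)))) (a (l 16382032) (a (l 16377624) (b (c (l 16378120) (l 16429224)) (l 16419416))))) (b (b (l 16426888) (a (l 16446376) (l 16425024))) (l 16448624)))) (c (l 16379040) (l 16398720))) (b (b (l 525947151) (b (l 525935375) (b (a (c (a (b (l 16412776) (c (l 16376552) (l 16427776))) (l 16370968)) (l 16445112)) (l 526043919)) (c (a (c (l 16379008) (l 16430008)) (a (b (l 16369512) (l 16370096)) (c (l 16375416) (l 16426688)))) (a (l 16466400) (l 16444288)))))) (b (c (c (l 16369512) (l 16396904)) (l 16429760)) (l 16420320)))) (b (c (l 525718287) (l 527504655)) (a (b (c (b (a (b (c (b (l 16374408) (a (l 16396432) (l 16373584))) (b (l 16425736) (l 16425992))) (l 16372488)) (b (l 16411144) (b (a (b (l 16367048)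 (l 16367432)) (l 16409104)) (c (l 16374032) (l 16425344))))) (l 16378056)) (b (b (a (l 16443528) (l 16465256)) (a (l 16465784) (l 16442832))) (l 16468472))) (b (l 16410808) (l 16375000))) (b (c (b (c (l 16376336) (l 16427464)) (b (a (a (c (l 16373696) (l 16425008)) (b (l 16365880) (l 16371624))) (c (l 16372200) (l 16423608))) (a (l 16413976) (b (a (l 16366152) (c (l 16370400) (l 16421936))) (l 16367472))))) (b (l 16466784) (b (a (l 16442216) (l 16463304)) (a (l 16465280) (l 16441664))))) (c (l 16362336) (l 16470760)))))), by decide +kernel⟩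

def k22_B00pm_112_s1 : ∃ t, chk3 f_B00pm_112_s1 t 77 40 4 = true :=
  ⟨(a (b (c (l 525683983) (l 527403535)) (a (b (a (b (l 525839631) (c (b (l 16410144) (b (l 16407544) (a (b (l 16364040) (l 16364136)) (l 16406312)))) (l 16442904))) (l 525730319)) (c (b (a (a (l 16370256) (b (b (b (l 16363488) (l 16363816)) (l 16407736)) (l 16412112))) (b (a (b (l 16405624) (b (l 16373480) (l 16363576))) (l 16363888)) (c (b (l 16370104) (l 16393872)) (l 16422912)))) (l 16377336)) (b (b (a (l 16441200) (l 16440592)) (l 16442312)) (l 16467560)))) (a (b (l 525692431) (b (b (l 525750287) (c (a (b (l 16372912) (c (l 16368448) (l 16420048))) (c (l 16368240) (l 16419856))) (l 16439808))) (c (c (l 16374264) (l 16425392)) (l 16420992)))) (b (l 525654543) (b (l 525643791) (c (b (b (b (l 16361768) (c (l 16366912) (l 16376656))) (a (l 16362472) (c (l 16366416) (l 16376192)))) (l 16365376)) (b (l 16439096) (l 16461280)))))))) (c (b (l 524713487) (b (l 524697871) (b (l 524689167)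 (a (b (l 16363536) (a (b (a (b (l 16360120) (l 16360384)) (l 16402336)) (a (l 16404280) (c (l 16365600) (l 16375408)))) (l 16366400))) (l 16366080))))) (b (l 527304463) (b (l 16436280) (a (b (l 16466752) (b (l 16462064) (a (b (l 16417248) (l 16417224)) (l 16460040)))) (l 16425968)))))), by decide +kernel⟩

def k23_B00pm_112_s1 : ∃ t, chk3 f_B00pm_112_s1 t 38 41 4 = true :=
  ⟨(c (a (a (l 16391240) (a (l 16382424) (l 16397240))) (a (b (c (l 16363176) (l 16405664)) (l 16462984)) (b (b (b (a (a (l 16368224) (b (c (b (a (l 16365280) (l 16385648)) (l 16366448)) (b (l 16396056) (l 16418112))) (l 16365184))) (c (b (a (l 16375960) (l 16388472)) (a (b (a (l 16364808) (l 16363592)) (l 16345240)) (b (l 16385712) (a (l 16363120) (l 16384440))))) (b (l 16397248) (a (b (l 16395296) (l 16417872)) (l 16395120))))) (a (l 16376936) (a (l 16368080) (b (a (l 16360576) (b (c (l 16362704) (l 16372656)) (l 16401000))) (l 16407016))))) (a (l 16349200) (l 16382616)))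 (l 16366368)))) (a (b (l 16451872) (l 16510616)) (b (a (l 16436240) (b (b (a (a (l 16462584) (b (l 16437872) (l 16460936))) (b (l 16418256) (a (l 16437376) (l 16416336)))) (a (l 16466840) (a (l 16462256) (b (l 16436960) (l 16460624))))) (l 16430328))) (l 16450656)))), by decide +kernel⟩

def k24_B00pm_112_s1 : ∃ t, chk3 f_B00pm_112_s1 t 39 40 4 = true :=
  ⟨(c (c (a (a (l 524871695) (l 524708879)) (a (l 524550159) (l 524395023))) (a (l 525475855) (l 525180943))) (a (l 526596879) (l 526623759))), by decide +kernel⟩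

def k25_B00pm_112_s1 : ∃ t, chk3 f_B00pm_112_s1 t 39 82 4 = true :=
  ⟨(a (c (b (a (b (l 524519439) (a (b (a (b (l 16357864) (a (c (l 16362336) (l 16372304)) (l 16356688))) (l 16359184)) (c (a (b (a (l 16385544) (l 16362032)) (l 16387104)) (a (b (l 16382520) (l 16361776)) (l 16361856))) (a (l 16416512) (a (l 16392912) (l 16371832))))) (l 16360784))) (l 524363279)) (a (b (a (c (c (l 16363168) (l 16378400)) (l 16380072)) (b (a (c (b (a (l 16360496) (l 16382152)) (a (l 16382432) (l 16360040))) (b (l 16370992) (l 16391992))) (l 16356552)) (a (l 16358984) (c (b (a (l 16370120) (l 16380800)) (a (l 16382384) (l 16369768))) (b (l 16391016) (l 16391488)))))) (a (l 16334920) (l 16365064))) (b (a (c (l 16363816) (l 16373576)) (l 16362944)) (b (a (a (c (b (a (l 16358984) (l 16379600)) (a (l 16382432) (l 16358744))) (b (l 16390184) (l 16370168))) (c (l 16359560) (l 16369624))) (l 16357512)) (a (a (l 16359064) (c (b (a (l 16358568) (l 16357600)) (l 16359976))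 (b (l 16389496) (l 16370000)))) (a (a (b (l 16353016) (c (l 16357160) (l 16367384))) (l 16353296)) (l 16355080))))))) (b (a (a (b (l 16462824) (b (a (l 16436512) (l 16459160)) (a (l 16415656) (l 16435776)))) (l 16422136)) (l 16428928)) (a (b (a (l 16418464) (b (a (b (l 16414096) (l 16413680)) (l 16457224)) (a (l 16457200) (b (l 16413344) (l 16413232))))) (l 16421344)) (b (l 16419416) (a (b (a (b (l 16412672) (l 16412888)) (l 16455432)) (a (l 16457016) (l 16433536))) (l 16436352)))))) (c (a (l 523940367) (l 524063759)) (l 526588943))), by decide +kernel⟩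

def k26_B00pm_112_s1 : ∃ t, chk3 f_B00pm_112_s1 t 78 83 4 = true :=
  ⟨(b (a (c (l 16366208) (l 16387952)) (c (a (b (l 16365176) (l 16419048)) (b (a (b (a (l 16354560) (b (c (l 16367256) (l 16367008)) (l 16353048))) (l 16401152)) (b (a (b (l 16351760) (c (l 16366912) (l 16366680))) (l 16352072)) (c (b (a (l 16379464) (l 16366632)) (l 16381104)) (l 16389880)))) (l 16365376))) (a (l 16421088) (b (b (a (l 16433168) (l 16432912)) (a (l 16456864) (l 16411920))) (l 16459912))))) (c (a (l 16443488) (l 16366216)) (l 16435168))), by decide +kernel⟩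

def k27_B00pm_112_s1 : ∃ t, chk3 f_B00pm_112_s1 t 79 83 4 = true :=
  ⟨(c (b (a (b (b (l 524466959) (a (a (c (b (l 16377512) (a (l 16355920) (l 16376376))) (b (l 16408712) (l 16387200))) (l 16352640)) (l 16356344))) (a (c (b (a (c (l 16350936) (l 16387504)) (b (l 16355488) (a (l 16376624) (l 16354496)))) (l 16361888)) (b (a (l 16368792) (b (l 16365776) (l 16386624))) (l 16413632))) (b (l 16352680) (a (c (b (a (l 16354120) (l 16375560)) (a (l 16376624) (l 16364280))) (b (l 16385864) (l 16386192))) (l 16350264))))) (l 524320271)) (a (a (l 16350736) (a (l 16352360) (b (b (c (b (a (l 16364008) (l 16374408)) (a (l 16376808) (l 16353312))) (b (l 16385112) (l 16385920))) (l 16353704)) (l 16404984)))) (b (a (c (b (l 16355824) (a (b (a (l 16353152) (l 16373440)) (l 16354552)) (b (l 16375112) (l 16363096)))) (b (l 16366024) (a (b (l 16384496) (l 16364848)) (l 16384840)))) (l 16353640)) (a (a (l 16357040) (b (b (c (a (l 16374008) (l 16351688)) (l 16384024))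 (l 16349344)) (l 16396064))) (b (a (a (b (l 16347072) (c (l 16351376) (l 16403824))) (l 16347432)) (l 16349376)) (b (a (a (l 16347936) (c (l 16351120) (l 16361632))) (l 16346640)) (a (l 16349600) (a (c (l 16350920) (l 16361440)) (l 16345512))))))))) (b (a (b (a (b (l 16456920) (a (l 16432224) (l 16454840))) (l 16460016)) (a (b (a (l 16411720) (l 16431608)) (l 16413200)) (b (l 16455128) (a (b (l 16409936) (l 16409720)) (l 16453048))))) (l 16421784)) (a (b (a (l 16459840) (b (a (l 16453552) (b (l 16409312) (l 16409416))) (l 16455144))) (l 16378968)) (b (a (a (b (l 16452240) (l 16430192)) (l 16411160)) (l 16456456)) (a (b (a (l 16453552) (l 16429872)) (l 16455160)) (b (l 16430984) (a (l 16429640) (l 16429192)))))))), by decide +kernel⟩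

def k28_B00pm_112_s1 : ∃ t, chk3 f_B00pm_112_s1 t 38 20 5 = true :=
  ⟨(a (b (b (a (b (l 16517320) (b (a (b (l 16509776) (a (l 16508232) (l 16508248))) (l 16532552)) (a (c (l 16510984) (l 16548792)) (b (c (l 16488432) (l 16548088)) (a (l 16486368) (l 16506824)))))) (l 529124879)) (b (a (c (l 16482920) (l 16550744)) (b (a (b (a (l 16506184) (l 16527936)) (a (l 16527656) (b (l 16484536) (l 16484376)))) (l 16487264)) (a (l 16487128) (b (a (l 16505032) (l 16484432)) (a (l 16527072) (l 16504536)))))) (c (l 16496456) (l 16552352)))) (a (b (l 16504208) (l 16554912)) (c (l 16487984) (l 16559688)))) (b (b (l 528744975) (a (b (a (c (l 16510400) (l 16548992)) (l 16491464)) (b (a (b (a (l 16504104) (l 16503976)) (a (l 16526520) (l 16482752))) (c (a (l 16505320) (l 16506664)) (l 16545312))) (a (l 16486024) (b (a (l 16482432) (b (l 16481784) (l 16481352))) (l 16483104))))) (b (l 528936719) (a (b (l 16487352) (b (l 16483536) (a (b (l 16481128) (l 16480904))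 (l 16481896)))) (l 16488328))))) (b (a (c (l 16515984) (l 16508712)) (b (b (a (a (l 16482760) (c (l 16497856) (l 16521320))) (b (l 16482040) (a (b (l 16479976) (l 16480224)) (l 16480472)))) (a (l 16527000) (c (l 16482520) (l 16500368)))) (c (l 16511528) (l 16547408)))) (c (l 16483776) (l 16514416))))), by decide +kernel⟩

def k29_B00pm_112_s1 : ∃ t, chk3 f_B00pm_112_s1 t 39 20 5 = true :=
  ⟨(b (a (c (l 528486927) (l 529709327)) (c (l 528342031) (l 529591823))) (b (a (a (a (b (b (l 16484224) (a (b (l 16500784) (l 16500440)) (b (l 16523192) (l 16500168)))) (c (l 16463152) (l 16501120))) (b (l 16485272) (b (a (b (b (l 16478704) (l 16478200)) (l 16478976)) (c (l 16490168) (l 16540496))) (l 16480592)))) (b (l 528742159) (a (b (l 16481200) (a (c (l 16489328) (l 16539456)) (b (l 16478272) (b (l 16477000) (l 16477176))))) (c (l 16504160) (l 16543608))))) (l 528094735)) (a (a (b (l 16508136) (l 16534928)) (b (a (l 16481912) (b (a (b (l 16497824) (l 16520264))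 (b (l 16497968) (l 16497520))) (l 16479952))) (l 16486528))) (b (a (b (a (c (l 16479024) (l 16539984)) (l 16482096)) (a (b (a (l 16476312) (b (l 16476008) (l 16475432))) (l 16477064)) (a (c (l 16487320) (l 16538032)) (l 16477760)))) (l 528556559)) (a (a (l 16481360) (a (l 16478656) (b (c (l 16486456) (l 16536968)) (l 16520496)))) (b (a (b (l 16476776) (a (b (l 16474408) (l 16474504)) (l 16475168))) (l 16479360)) (a (c (l 16487032) (l 16516152)) (b (b (l 16434056) (l 16495872)) (a (l 16494992) (l 16495032)))))))))), by decide +kernel⟩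

def k30_B00pm_112_s1 : ∃ t, chk3 f_B00pm_112_s1 t 38 20 6 = true :=
  ⟨(b (a (b (a (b (l 531592719) (a (b (c (l 16584200) (l 16616184)) (a (l 16599832) (l 16604392))) (b (l 16602272) (c (b (l 16583328) (l 16561336)) (l 16615088))))) (l 531525647)) (b (a (c (l 16542128) (l 16614656)) (a (b (c (a (l 16539656) (l 16539912)) (l 16614040)) (l 16598000)) (b (l 16599720) (c (b (l 16559984) (l 16580448)) (l 16613048))))) (c (l 16584440) (l 16613984)))) (b (l 531446799) (b (a (c (l 16585384) (l 16617016)) (l 531384335)) (b (a (a (c (b (l 16558920) (l 16579688)) (l 16612104)) (c (l 16580848) (l 16613128))) (l 16600896)) (a (a (l 16596600) (c (b (l 16557952) (l 16579048)) (l 16600736))) (a (c (l 16579680) (l 16612064)) (l 16598432))))))) (c (a (b (l 16545296) (l 16590256)) (b (b (a (l 16581416) (b (a (l 16557296) (l 16578576)) (l 16567928))) (l 16539952)) (l 16542792))) (a (b (l 16614032) (l 16613680)) (b (b (a (l 16611680) (b (a (l 16589432) (l 16611032))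 (l 16589056))) (l 16611064)) (l 16569168))))), by decide +kernel⟩

def k31_B00pm_112_s1 : ∃ t, chk3 f_B00pm_112_s1 t 39 20 6 = true :=
  ⟨(b (c (a (l 530812431) (l 530714639)) (l 531764239)) (b (a (b (a (a (b (l 16597240) (c (b (l 16577880) (l 16555776)) (l 16610048))) (l 16597960)) (l 531235343)) (a (a (c (l 16577608) (l 16609064)) (b (c (a (l 16555176) (l 16534616)) (l 16609104)) (l 16592800))) (a (b (l 16594912) (c (a (l 16533424) (l 16554592)) (l 16608216))) (c (l 16579256) (l 16611456))))) (l 531288847)) (a (a (c (l 16580208) (l 16609056)) (b (a (l 16592584) (b (c (b (l 16553856) (l 16574520)) (l 16607384)) (l 16591696))) (l 16603744))) (b (a (b (c (l 16577608) (l 16609952)) (a (a (l 16590744) (b (l 16590744) (l 16590304))) (c (l 16575064) (l 16607736)))) (l 531091983)) (a (a (l 16591528) (b (c (l 16562984) (l 16584944)) (l 16590688))) (b (a (c (l 16574096) (l 16606824)) (l 16593264)) (a (c (l 16530976) (l 16605280)) (c (b (l 16573608) (l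 16551376)) (l 16605952))))))))), by decide +kernel⟩

def k32_B00pm_112_s1 : ∃ t, chk3 f_B00pm_112_s1 t 19 40 7 = true :=
  ⟨(a (a (b (b (l 532252175) (a (a (b (c (l 16645448) (l 16672328)) (c (l 16643920) (l 16670616))) (b (l 16618384) (c (l 16644408) (l 16650336)))) (l 533284367))) (b (a (c (l 16642808) (l 16647864)) (a (b (c (l 16643392) (c (l 16663784) (l 16676696))) (l 16613832)) (b (c (l 16644584) (l 16671312)) (c (l 16642408) (c (l 16662800) (l 16675704)))))) (a (l 16612056) (c (l 16641128) (l 16666984))))) (b (c (l 16661040) (l 533624079)) (b (a (c (l 16645808) (l 16651128)) (l 533177359)) (b (a (a (c (l 16641464) (c (l 16661840) (l 16674728))) (c (l 16642520) (l 16669360))) (l 533161999)) (a (a (l 16612096) (c (l 16640552) (l 16667408))) (a (c (l 16641512) (l 16668384)) (l 16614712))))))) (c (l 532868367) (a (l 533522447) (l 533443087)))), by decide +kernel⟩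

def k33_B00pm_112_s1 : ∃ t, chk3 f_B00pm_112_s1 t 19 41 7 = true :=
  ⟨(a (a (b (c (l 16639040) (l 16641536)) (c (l 16635848) (l 16656936))) (b (a (c (l 16638768) (l 16663800)) (b (b (a (c (l 16639696) (l 16666488)) (c (l 16640528) (l 16677904))) (a (l 16610408) (c (l 16638880) (l 16665600)))) (c (l 16637904) (l 16663368)))) (c (l 16635704) (l 16616816)))) (a (b (b (a (a (b (l 16655664) (c (l 16639568) (l 16676952))) (l 16614048)) (l 533053199)) (a (a (c (l 16637768) (l 16664072)) (b (c (l 16638640) (l 16676016)) (l 16609000))) (a (b (l 16611768) (c (l 16637744) (l 16675096))) (c (l 16640584) (l 16667016))))) (a (c (l 16635632) (l 16660232)) (a (c (l 16635608) (l 16661008)) (b (b (c (l 16636888) (l 16674192)) (l 16607440)) (l 16605848))))) (b (c (l 532561167) (l 533385743)) (b (a (b (c (l 16639184) (l 16665664)) (a (c (l 16636072) (l 16662832)) (c (l 16637256) (l 16664000)))) (l 532931855)) (a (c (a (l 16634896) (l 16637512)) (c (l 16654640)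 (l 16667120))) (a (b (c (l 16636368) (l 16663104)) (c (l 16634576) (l 16661160))) (b (l 16651680) (c (l 16635496) (l 16667464))))))))), by decide +kernel⟩

def k34_B00pm_112_s1 : ∃ t, chk3 f_B00pm_112_s1 t 19 21 1 = true :=
  ⟨(c (a (b (c (a (b (l 16512720) (l 16527480)) (c (l 16406288) (l 16433296))) (a (b (l 16560168) (l 16566880)) (c (l 16542552) (l 16566432)))) (c (a (l 16546272) (l 16533664)) (a (l 16575280) (l 16568136)))) (b (b (c (c (a (l 16414808) (a (l 16373880) (b (a (l 16372568) (b (a (l 16357512) (a (l 16352968) (b (b (c (l 16350776) (l 16403240)) (l 16348320)) (l 16395048)))) (l 16325056))) (l 16345944)))) (a (l 16450080) (a (l 16393096) (a (l 16426800) (b (c (l 16403480) (l 16467848)) (l 16468856)))))) (a (a (l 16542728) (l 16534432)) (a (b (l 16486032) (l 16533856)) (b (a (l 16480944) (c (l 16478504) (l 16496200))) (l 16485680))))) (a (c (l 16453000) (l 16507336)) (c (c (l 16373632) (l 16492088)) (a (l 16541696) (l 16494296)))))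 (c (a (b (l 16512176) (l 16526984)) (b (l 16411560) (l 16512656))) (a (b (l 16557128) (l 16563776)) (c (l 16457024) (l 16479600)))))) (a (c (c (b (a (l 16593488) (l 16505088)) (l 16594296)) (b (a (l 16612392) (l 16526456)) (l 16608864))) (b (c (a (l 16630616) (l 16630688)) (a (l 16648280) (l 16608224))) (a (l 16629648) (l 16630768)))) (b (a (c (b (c (l 16498688) (l 16566504)) (l 16596952)) (b (c (l 16632560) (l 16655144)) (c (l 16629200) (l 16649352)))) (c (a (c (l 16559264) (l 16585648)) (b (b (c (l 16563488) (l 16584200)) (l 16591264)) (l 16592728))) (b (a (c (l 16632704) (l 16656808)) (c (b (l 16633520) (l 16632088)) (c (l 16651872) (l 16663936)))) (c (l 16629592) (l 16651656))))) (c (a (b (l 16597576) (l 16597720)) (c (l 16500912) (l 16521112))) (c (a (l 16623664) (l 16624232)) (a (l 16640328) (l 16642664))))))), by decide +kernel⟩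

def k35_B00pm_112_s1 : ∃ t, chk3 f_B00pm_112_s1 t 9 11 1 = true :=
  ⟨(b (b (a (a (a (l 6) (c (l 16598664) (l 16612632))) (c (c (l 16581456) (l 16593288)) (c (l 16605344) (l 16617712)))) (c (a (c (l 16477856) (l 16497400)) (c (a (l 16545584) (l 16533872)) (a (l 16571952) (l 16565480)))) (a (c (l 16600568) (l 16619808)) (c (a (l 16597184) (l 16595064)) (a (l 16621712) (l 16623224)))))) (a (a (l 6) (a (l 6) (c (l 16594984) (l 16604664)))) (c (a (c (l 16579368) (l 16588912)) (c (l 16476960) (l 16493880))) (a (c (l 16598736) (l 16608896)) (c (l 16594592) (l 16611520)))))) (a (l 6) (b (a (a (l 6) (c (l 16591544) (l 16596712))) (c (c (l 16577664) (l 16584816)) (c (l 16592272) (l 16600072)))) (a (l 6) (a (l 6) (c (l 16588120) (l 16588680))))))), by decide +kernel⟩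

def k36_B00pm_112_s1 : ∃ t, chk3 f_B00pm_112_s1 t 5 4 1 = true :=
  ⟨(a (b (b (l 3) (b (l 3) (a (a (c (c (c (a (l 524601103) (l 524282127)) (l 526524943)) (l 528346639)) (c (l 531205647) (l 532449295))) (l 3)) (l 1)))) (b (a (c (c (a (c (a (b (l 524636431) (l 524392463)) (b (l 524324879) (l 524357903))) (a (l 526684687) (l 525887247))) (c (a (l 523515407) (l 523516175)) (a (l 525644559) (l 525689615)))) (a (a (l 528336399) (l 528222991)) (a (l 528121615) (l 528302095)))) (c (a (c (l 530867983) (l 531882511)) (c (l 530727951) (l 531761423))) (a (c (l 532773391) (l 533555215)) (c (l 532655119) (l 533425167))))) (l 1)) (a (b (c (c (a (c (a (c (l 524167183) (l 525181455)) (l 523844367)) (a (l 526686991) (l 526439439))) (c (a (l 523569423) (l 523583503)) (a (l 525672719) (l 525730831)))) (a (a (l 528508943) (l 528397583)) (a (l 528298767) (l 528213007)))) (c (a (c (l 530765583) (l 531781135)) (a (l 531188495) (l 531132943))) (a (c (l 532677903) (l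 533469711)) (a (l 532989967) (l 532931855))))) (a (c (c (c (a (c (l 524174095) (l 525181199)) (l 523589391)) (a (l 526673935) (l 526436111))) (a (l 528425231) (l 528315919))) (c (c (l 530680847) (l 531699727)) (c (l 532602895) (l 533403919)))) (a (c (c (c (l 523592975) (l 526216207)) (l 528218895)) (c (l 531105039) (l 532918287))) (l 1)))) (l 1)))) (l 1)), by decide +kernel⟩

def k37_B00pm_112_s1 : ∃ t, chk3 f_B00pm_112_s1 t 20 20 4 = true :=
  ⟨(a (c (c (a (b (l 524170255) (a (l 524226575) (l 524086031))) (b (l 523886607) (l 523615247))) (a (b (l 525170191) (l 524879631)) (b (l 524908303) (l 524898063)))) (a (b (l 526380559) (l 526074895)) (b (l 526422031) (l 526128143)))) (a (c (b (l 523070991) (c (l 523631375) (l 524666895))) (b (l 526212879) (l 526199311))) (l 1))), by decide +kernel⟩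

def k38_B00pm_112_s1 : ∃ t, chk3 f_B00pm_112_s1 t 80 84 4 = true :=
  ⟨(b (c (a (b (a (a (c (b (b (l 16371848) (a (l 16350696) (l 16370816))) (l 16353832)) (b (b (l 16403336) (l 16382072)) (l 16364120))) (b (l 16347192) (c (b (a (l 16370464) (l 16371208)) (a (l 16371704) (l 16349192))) (b (l 16360584) (l 16381712))))) (l 16349344)) (a (c (l 16339624) (l 16412304)) (b (a (c (b (a (l 16348944) (l 16370120)) (a (l 16371992) (l 16348752))) (b (l 16380880) (l 16381512))) (l 16345144)) (a (l 16349128) (c (b (a (l 16348616) (l 16369216)) (l 16349984)) (b (l 16380336) (l 16360512))))))) (a (a (c (c (l 16368360) (l 16383984)) (l 16386328)) (l 524319247)) (l 524271119))) (a (b (a (b (a (l 16428632) (l 16450888)) (a (l 16408480) (l 16428136))) (l 16452696)) (a (l 16411776) (b (a (l 16427712) (l 16449096)) (a (l 16450568) (l 16427368))))) (b (l 16417728) (l 16432488)))) (a (c (c (l 16353088) (l 16340728)) (l 16418200)) (c (b (b (a (c (a (a (l 16350128)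 (b (l 16368488) (l 16369568))) (c (l 16351168) (l 16356544))) (a (a (l 16360640) (l 16379944)) (l 16380208))) (l 16347184)) (a (a (l 16349824) (a (l 16345208) (b (b (l 16341632) (l 16341776)) (l 16343776)))) (a (b (l 16342952) (a (b (l 16341328) (l 16341736)) (l 16341816))) (l 16344808)))) (a (l 16356464) (b (a (b (a (l 16343976) (b (l 16341104) (l 16341776))) (l 16345712)) (b (l 16342096) (a (b (l 16340944) (l 16341904)) (l 16341048)))) (a (l 16350616) (c (l 16349744) (l 16360248)))))) (b (a (b (a (l 16427104) (l 16405696)) (a (l 16450760) (l 16426928))) (b (l 16450776) (l 16427120))) (a (l 16454112) (b (a (l 16405864) (l 16425536)) (l 16407440))))))), by decide +kernel⟩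

def k39_B00pm_112_s1 : ∃ t, chk3 f_B00pm_112_s1 t 81 84 4 = true :=
  ⟨(c (a (a (a (b (l 524223503) (b (l 16349528) (b (l 16343848) (a (b (b (l 16340776) (l 16340376)) (l 16341616)) (c (l 16346312) (l 16399008)))))) (l 524188943)) (l 524142863)) (l 523783951)) (b (l 526374927) (a (a (b (l 16453968) (b (l 16449112) (a (l 16425096) (l 16447072)))) (l 16455624)) (l 16421216)))), by decide +kernel⟩

def k40_B00pm_112_s1 : ∃ t, chk3 f_B00pm_112_s1 t 40 85 4 = true :=
  ⟨(a (c (a (l 16354120) (c (l 16346624) (l 16350808))) (a (l 16477448) (l 16424704))) (b (c (a (b (b (a (a (l 16344904) (b (c (l 16356272) (l 16398504)) (a (l 16341944) (b (l 16339728) (l 16340016))))) (l 16343456)) (a (l 16348440) (c (a (b (a (l 16365968) (l 16365936)) (l 16346304)) (l 16367264)) (a (b (l 16377064) (l 16357032)) (l 16398960))))) (a (l 16400152) (a (l 16349168) (b (a (c (l 16346512) (l 16357224)) (b (l 16339280) (l 16339992))) (l 16304424))))) (a (b (l 16347368) (b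 (a (c (l 16345576) (l 16398296)) (l 16343112)) (a (b (a (l 16340128) (b (l 16338648) (l 16338584))) (l 16341856)) (a (c (l 16354808) (l 16397128)) (l 16340024))))) (l 524016399))) (a (b (a (b (a (l 16447912) (l 16424760)) (l 16449712)) (b (l 16447536) (a (l 16424520) (l 16445608)))) (a (l 16454704) (b (a (l 16448280) (l 16424392)) (l 16450080)))) (a (b (l 16450856) (b (l 16404280) (a (l 16403392) (l 16402536)))) (l 16452664)))) (a (c (l 16350456) (l 16377376)) (a (c (a (l 16356776) (a (l 16352280) (a (c (l 16344896) (l 16407344)) (l 1)))) (c (l 96669582471) (l 16421496))) (l 1))))), by decide +kernel⟩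

def k41_B00pm_112_s1 : ∃ t, chk3 f_B00pm_112_s1 t 40 43 4 = true :=
  ⟨(b (a (a (l 16481312) (l 16387096)) (c (a (l 16356184) (l 81637083815)) (l 85932188119))) (a (l 16496528) (a (l 16482912) (l 1)))), by decide +kernel⟩

def k42_B00pm_112_s1 : ∃ t, chk3 f_B00pm_112_s1 t 41 21 4 = true :=
  ⟨(b (l 1) (l 1)), by decide +kernel⟩

def k43_B00pm_112_s1 : ∃ t, chk3 f_B00pm_112_s1 t 20 10 5 = true :=
  ⟨(b (a (a (b (l 528059151) (c (l 528097551) (l 529373199))) (c (l 527495439) (l 528527375))) (a (b (l 528125455) (l 527749903)) (l 1))) (b (a (b (a (b (a (b (a (a (b (l 16494544) (l 16473696)) (c (l 16474432) (l 16535952))) (l 16476720)) (a (l 16475480) (b (c (l 16484096) (l 16535208)) (c (l 16473344) (l 16534664))))) (c (l 16480944) (l 16541656))) (a (a (l 16480680) (l 16477176)) (a (b (a (b (l 16493096) (l 16515480)) (b (l 16472616) (l 16492880))) (l 16475352)) (b (c (l 16495592) (l 16536144)) (b (a (l 16471752) (l 16492656)) (l 16493536)))))) (a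 (a (b (l 16486688) (b (l 16436544) (c (l 16484056) (l 16535208)))) (l 528569103)) (l 528264719))) (a (c (a (l 16513536) (l 16463928)) (a (l 16546544) (l 16499584))) (b (a (b (a (b (a (l 16471640) (l 16491912)) (l 16430664)) (b (l 16473208) (a (l 16491616) (l 16429640)))) (a (l 16517312) (c (b (l 16471256) (l 16494216)) (l 16512432)))) (a (b (l 16434264) (b (l 16472192) (a (l 16470232) (l 16470656)))) (l 16477888))) (a (l 16478912) (a (c (l 16474584) (l 16492720)) (l 1)))))) (l 1)) (a (a (b (a (l 16541112) (l 16452024)) (l 16547792)) (b (c (l 16468344) (l 16501840)) (l 80026717159))) (l 1)))), by decide +kernel⟩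

def k44_B00pm_112_s1 : ∃ t, chk3 f_B00pm_112_s1 t 20 20 3 = true :=
  ⟨(a (c (a (c (l 530570767) (l 531593231)) (c (l 530491919) (l 531523343))) (a (c (l 532642575) (b (l 533368079) (l 533289743))) (c (l 532440335) (b (l 533296655) (l 533218063))))) (a (c (c (l 530423055) (l 531461391)) (c (l 532378639) (l 533188879))) (l 1))), by decide +kernel⟩

def k45_B00pm_112_s1 : ∃ t, chk3 f_B00pm_112_s1 t 20 21 3 = true :=
  ⟨(a (b (b (c (a (b (a (b (a (c (b (l 16572648) (l 16550656)) (l 16605128)) (l 16591200)) (a (l 16588600) (c (a (l 16529264) (l 16529664)) (c (l 16575528) (l 16591056))))) (c (l 16577344) (l 16609376))) (a (c (l 16573304) (l 16604208)) (b (a (c (b (l 16529032) (l 16570536)) (c (l 16574824) (l 16569360))) (c (l 16572576) (l 16605272))) (a (l 16587832) (c (b (l 16528336) (l 16570176)) (l 16592520)))))) (a (b (l 530918159) (c (a (l 16573864) (l 16577016)) (l 16607712))) (l 530869263))) (a (b (a (a (b (c (l 16634664) (l 16666600)) (c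 (l 16633288) (l 16659632))) (b (l 16649880) (c (l 16633864) (l 16665744)))) (c (l 16638136) (l 16664008))) (a (c (l 16632264) (l 16657840)) (b (a (c (l 16633096) (l 16659672)) (c (l 16634640) (l 16661072))) (a (l 16645400) (c (l 16632368) (l 16658864)))))) (a (b (l 532778511) (c (l 16636528) (l 16672888))) (l 532733455)))) (a (c (c (b (l 16532288) (l 16576456)) (b (l 16561928) (l 16604000))) (c (a (l 16629976) (l 16630272)) (c (l 16648360) (l 16659920)))) (a (c (b (b (a (c (l 16559392) (l 16581448)) (c (l 16570896) (l 16603656))) (a (l 16587144) (c (l 16527544) (l 16601912)))) (l 16598176)) (b (b (a (c (l 16631696) (l 16658088)) (c (l 16633024) (l 16659416))) (c (l 16630920) (l 16662176))) (c (l 16629856) (l 16654824)))) (a (c (b (b (l 16590464) (c (l 16570152) (l 16602912))) (c (l 16527928) (l 16601552))) (b (c (l 16639056) (l 16670408)) (c (l 16630104) (l 16655880)))) (b (c (l 16591640) (l 16607104)) (l 1)))))) (c (a (c (l 16538760) (l 16582584))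 (b (c (l 16532376) (l 16560240)) (l 84858805463))) (c (a (l 16624992) (b (l 16627688) (l 16624192))) (a (b (l 16648288) (l 16642184)) (b (l 81637628455) (l 16645032)))))) (b (l 1) (l 1))), by decide +kernel⟩

def k46_B00pm_112_s1 : ∃ t, chk3 f_B00pm_112_s1 t 21 10 1 = true :=
  ⟨(l 1), by decide +kernel⟩

def k47_B00pm_112_s1 : ∃ t, chk3 f_B00pm_112_s1 t 10 11 1 = true :=
  ⟨(a (a (b (b (c (a (c (l 16437216) (l 16558696)) (a (c (l 16510600) (l 16553312)) (l 1))) (c (c (l 77879385703) (l 77879431431)) (c (l 77879454791) (l 73047691207)))) (a (c (c (l 16546000) (l 16569368)) (c (l 16591896) (l 16613968))) (l 1))) (a (b (c (l 16487064) (l 74121335767)) (l 1)) (l 1))) (l 1)) (l 1)), by decide +kernel⟩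

def k48_B00pm_112_s1 : ∃ t, chk3 f_B00pm_112_s1 t 11 5 1 = true :=
  ⟨(l 1), by decide +kernel⟩

def k49_B00pm_112_s1 : ∃ t, chk3 f_B00pm_112_s1 t 2 3 1 = true :=
  ⟨(b (a (l 6) (l 1)) (a (l 6) (l 1))), by decide +kernel⟩

def k50_B00pm_112_s1 : ∃ t, chk3 f_B00pm_112_s1 t 3 1 1 = true :=
  ⟨(l 1), by decide +kernel⟩

theorem t51_B00pm_112_s1 : ∃ t, chk3 f_B00pm_112_s1 t 20 10 3 = true := ex3_b k44_B00pm_112_s1 k45_B00pm_112_s1

theorem t52_B00pm_112_s1 : ∃ t, chk3 f_B00pm_112_s1 t 40 84 4 = true := ex3_a k38_B00pm_112_s1 k39_B00pm_112_s1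

theorem t53_B00pm_112_s1 : ∃ t, chk3 f_B00pm_112_s1 t 40 42 4 = true := ex3_b t52_B00pm_112_s1 k40_B00pm_112_s1

theorem t54_B00pm_112_s1 : ∃ t, chk3 f_B00pm_112_s1 t 40 21 4 = true := ex3_b t53_B00pm_112_s1 k41_B00pm_112_s1

theorem t55_B00pm_112_s1 : ∃ t, chk3 f_B00pm_112_s1 t 20 21 4 = true := ex3_a t54_B00pm_112_s1 k42_B00pm_112_s1

theorem t56_B00pm_112_s1 : ∃ t, chk3 f_B00pm_112_s1 t 20 10 4 = true := ex3_b k37_B00pm_112_s1 t55_B00pm_112_s1

theorem t57_B00pm_112_s1 : ∃ t, chk3 f_B00pm_112_s1 t 20 10 2 = true := ex3_c t56_B00pm_112_s1 k43_B00pm_112_s1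

theorem t58_B00pm_112_s1 : ∃ t, chk3 f_B00pm_112_s1 t 20 10 1 = true := ex3_c t57_B00pm_112_s1 t51_B00pm_112_s1

theorem t59_B00pm_112_s1 : ∃ t, chk3 f_B00pm_112_s1 t 10 10 1 = true := ex3_a t58_B00pm_112_s1 k46_B00pm_112_s1

theorem t60_B00pm_112_s1 : ∃ t, chk3 f_B00pm_112_s1 t 10 5 1 = true := ex3_b t59_B00pm_112_s1 k47_B00pm_112_s1

theorem t61_B00pm_112_s1 : ∃ t, chk3 f_B00pm_112_s1 t 5 5 1 = true := ex3_a t60_B00pm_112_s1 k48_B00pm_112_s1

theorem t62_B00pm_112_s1 : ∃ t, chk3 f_B00pm_112_s1 t 5 2 1 = true := ex3_b k36_B00pm_112_s1 t61_B00pm_112_s1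

theorem t63_B00pm_112_s1 : ∃ t, chk3 f_B00pm_112_s1 t 19 20 7 = true := ex3_b k32_B00pm_112_s1 k33_B00pm_112_s1

theorem t64_B00pm_112_s1 : ∃ t, chk3 f_B00pm_112_s1 t 19 20 6 = true := ex3_a k30_B00pm_112_s1 k31_B00pm_112_s1

theorem t65_B00pm_112_s1 : ∃ t, chk3 f_B00pm_112_s1 t 19 20 3 = true := ex3_c t64_B00pm_112_s1 t63_B00pm_112_s1

theorem t66_B00pm_112_s1 : ∃ t, chk3 f_B00pm_112_s1 t 19 20 5 = true := ex3_a k28_B00pm_112_s1 k29_B00pm_112_s1

theorem t67_B00pm_112_s1 : ∃ t, chk3 f_B00pm_112_s1 t 39 83 4 = true := ex3_a k26_B00pm_112_s1 k27_B00pm_112_s1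

theorem t68_B00pm_112_s1 : ∃ t, chk3 f_B00pm_112_s1 t 39 41 4 = true := ex3_b k25_B00pm_112_s1 t67_B00pm_112_s1

theorem t69_B00pm_112_s1 : ∃ t, chk3 f_B00pm_112_s1 t 39 20 4 = true := ex3_b k24_B00pm_112_s1 t68_B00pm_112_s1

theorem t70_B00pm_112_s1 : ∃ t, chk3 f_B00pm_112_s1 t 38 40 4 = true := ex3_a k21_B00pm_112_s1 k22_B00pm_112_s1

theorem t71_B00pm_112_s1 : ∃ t, chk3 f_B00pm_112_s1 t 38 20 4 = true := ex3_b t70_B00pm_112_s1 k23_B00pm_112_s1

theorem t72_B00pm_112_s1 : ∃ t, chk3 f_B00pm_112_s1 t 19 20 4 = true := ex3_a t71_B00pm_112_s1 t69_B00pm_112_s1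

theorem t73_B00pm_112_s1 : ∃ t, chk3 f_B00pm_112_s1 t 19 20 2 = true := ex3_c t72_B00pm_112_s1 t66_B00pm_112_s1

theorem t74_B00pm_112_s1 : ∃ t, chk3 f_B00pm_112_s1 t 19 20 1 = true := ex3_c t73_B00pm_112_s1 t65_B00pm_112_s1

theorem t75_B00pm_112_s1 : ∃ t, chk3 f_B00pm_112_s1 t 19 10 1 = true := ex3_b t74_B00pm_112_s1 k34_B00pm_112_s1

theorem t76_B00pm_112_s1 : ∃ t, chk3 f_B00pm_112_s1 t 18 20 1 = true := ex3_c k18_B00pm_112_s1 k19_B00pm_112_s1

theorem t77_B00pm_112_s1 : ∃ t, chk3 f_B00pm_112_s1 t 18 10 1 = true := ex3_b t76_B00pm_112_s1 k20_B00pm_112_s1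

theorem t78_B00pm_112_s1 : ∃ t, chk3 f_B00pm_112_s1 t 9 10 1 = true := ex3_a t77_B00pm_112_s1 t75_B00pm_112_s1

theorem t79_B00pm_112_s1 : ∃ t, chk3 f_B00pm_112_s1 t 9 5 1 = true := ex3_b t78_B00pm_112_s1 k35_B00pm_112_s1

theorem t80_B00pm_112_s1 : ∃ t, chk3 f_B00pm_112_s1 t 18 39 3 = true := ex3_b k15_B00pm_112_s1 k16_B00pm_112_s1

theorem t81_B00pm_112_s1 : ∃ t, chk3 f_B00pm_112_s1 t 18 19 3 = true := ex3_b k14_B00pm_112_s1 t80_B00pm_112_s1

theorem t82_B00pm_112_s1 : ∃ t, chk3 f_B00pm_112_s1 t 18 9 3 = true := ex3_b k13_B00pm_112_s1 t81_B00pm_112_s1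

theorem t83_B00pm_112_s1 : ∃ t, chk3 f_B00pm_112_s1 t 18 19 4 = true := ex3_a k10_B00pm_112_s1 k11_B00pm_112_s1

theorem t84_B00pm_112_s1 : ∃ t, chk3 f_B00pm_112_s1 t 18 9 4 = true := ex3_b k9_B00pm_112_s1 t83_B00pm_112_s1

theorem t85_B00pm_112_s1 : ∃ t, chk3 f_B00pm_112_s1 t 18 9 2 = true := ex3_c t84_B00pm_112_s1 k12_B00pm_112_s1

theorem t86_B00pm_112_s1 : ∃ t, chk3 f_B00pm_112_s1 t 18 9 1 = true := ex3_c t85_B00pm_112_s1 t82_B00pm_112_s1

theorem t87_B00pm_112_s1 : ∃ t, chk3 f_B00pm_112_s1 t 9 9 1 = true := ex3_a t86_B00pm_112_s1 k17_B00pm_112_s1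

theorem t88_B00pm_112_s1 : ∃ t, chk3 f_B00pm_112_s1 t 9 4 1 = true := ex3_b k8_B00pm_112_s1 t87_B00pm_112_s1

theorem t89_B00pm_112_s1 : ∃ t, chk3 f_B00pm_112_s1 t 9 2 1 = true := ex3_b t88_B00pm_112_s1 t79_B00pm_112_s1

theorem t90_B00pm_112_s1 : ∃ t, chk3 f_B00pm_112_s1 t 17 38 1 = true := ex3_c k4_B00pm_112_s1 k5_B00pm_112_s1

theorem t91_B00pm_112_s1 : ∃ t, chk3 f_B00pm_112_s1 t 17 19 1 = true := ex3_b t90_B00pm_112_s1 k6_B00pm_112_s1

theorem t92_B00pm_112_s1 : ∃ t, chk3 f_B00pm_112_s1 t 17 18 1 = true := ex3_a k2_B00pm_112_s1 k3_B00pm_112_s1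

theorem t93_B00pm_112_s1 : ∃ t, chk3 f_B00pm_112_s1 t 17 9 1 = true := ex3_b t92_B00pm_112_s1 t91_B00pm_112_s1

theorem t94_B00pm_112_s1 : ∃ t, chk3 f_B00pm_112_s1 t 8 9 1 = true := ex3_a k1_B00pm_112_s1 t93_B00pm_112_s1

theorem t95_B00pm_112_s1 : ∃ t, chk3 f_B00pm_112_s1 t 8 4 1 = true := ex3_b k0_B00pm_112_s1 t94_B00pm_112_s1

theorem t96_B00pm_112_s1 : ∃ t, chk3 f_B00pm_112_s1 t 8 2 1 = true := ex3_b t95_B00pm_112_s1 k7_B00pm_112_s1

theorem t97_B00pm_112_s1 : ∃ t, chk3 f_B00pm_112_s1 t 4 2 1 = true := ex3_a t96_B00pm_112_s1 t89_B00pm_112_s1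

theorem t98_B00pm_112_s1 : ∃ t, chk3 f_B00pm_112_s1 t 2 2 1 = true := ex3_a t97_B00pm_112_s1 t62_B00pm_112_s1

theorem t99_B00pm_112_s1 : ∃ t, chk3 f_B00pm_112_s1 t 2 1 1 = true := ex3_b t98_B00pm_112_s1 k49_B00pm_112_s1

theorem t100_B00pm_112_s1 : ∃ t, chk3 f_B00pm_112_s1 t 1 1 1 = true := ex3_a t99_B00pm_112_s1 k50_B00pm_112_s1

theorem c_B00pm_112_s1 : CertF 536870912 536870912 0 536870912 1020054732 13421774 false true false .dn 1 1 2
    ndB0q1 ndB0q2 pcB1 cut_B00pm_112_s1 xt_B00pm_112_s1 :=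
  certF0 (fam := false) (s1 := true) (s2 := false) (a := 1) (b := 1) (c := 2) (cn := .dn) (n1 := ndB0q1) (n2 := ndB0q2) (pc := pcB1) (cut := cut_B00pm_112_s1) (xt := xt_B00pm_112_s1) (P1 := 536870912) (W1 := 536870912) (P2 := 0) (W2 := 536870912) (P3 := 1020054732) (W3 := 13421774)
    rfl t100_B00pm_112_s1

theorem s_B00pm_112_s1 {κ x : ℝ} (hκ : κ * h0 = ken x) (hx : ((1020054732 : ℕ) : ℝ) / S ≤ x)
    (hx' : x ≤ (((1020054732 : ℕ) : ℝ) + (13421774 : ℕ)) / S) :
    AltB (VFD κ) PP tK tL pcB [⟨3, 0, 0, 1449551462⟩] 1 1 2 0 0 (sgb true) (sgb false) x :=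
  strip_altBD (m := 1449551462) true rfl hκ (SH.κ0 hκ (SH.hx1 hx).le (SH.hx2 hx').le) (SH.hx1 hx).le (SH.hx2 hx') (covB01).cov (covB02).cov hx hx' c_B00pm_112_s1 cutB_nil ((okx hx hx').extB (T := tt) (sideB hx hx') hκ rfl rfl (.O 1 true) (.O 2 false) (Or.inr rfl))

noncomputable def cut_B00pm_112_s3 : Cut := Cut.of [[⟨3, 0, 0, 2845415833⟩]]

noncomputable def f_B00pm_112_s3 : ℕ → ℕ → ℕ → ℕ → Bool := onCell 536870912 536870912 0 536870912 1020054732 13421774
    (rowF 0 false true false .dn 1 1 2 (qsf 536870912 536870912 0 536870912 1) ndB0q1 ndB0q2 pcB1 cut_B00pm_112_s3 Ext.none)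

def k0_B00pm_112_s3 : ∃ t, chk3 f_B00pm_112_s3 t 1 1 1 = true :=
  ⟨(l 6), by decide +kernel⟩

theorem c_B00pm_112_s3 : CertF 536870912 536870912 0 536870912 1020054732 13421774 false true false .dn 1 1 2
    ndB0q1 ndB0q2 pcB1 cut_B00pm_112_s3 Ext.none :=
  certF0 (fam := false) (s1 := true) (s2 := false) (a := 1) (b := 1) (c := 2) (cn := .dn) (n1 := ndB0q1) (n2 := ndB0q2) (pc := pcB1) (cut := cut_B00pm_112_s3) (xt := Ext.none) (P1 := 536870912) (W1 := 536870912) (P2 := 0) (W2 := 536870912) (P3 := 1020054732) (W3 := 13421774)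
    rfl k0_B00pm_112_s3

theorem s_B00pm_112_s3 {κ x : ℝ} (hκ : κ * h0 = ken x) (hx : ((1020054732 : ℕ) : ℝ) / S ≤ x)
    (hx' : x ≤ (((1020054732 : ℕ) : ℝ) + (13421774 : ℕ)) / S) :
    AltB (VFD κ) PP tK tL pcB [⟨4, 0, 0, 2845415833⟩] 1 1 2 0 0 (sgb true) (sgb false) x :=
  strip_altBD (m := 2845415833) false rfl hκ (SH.κ0 hκ (SH.hx1 hx).le (SH.hx2 hx').le) (SH.hx1 hx).le (SH.hx2 hx') (covB01).cov (covB02).cov hx hx' c_B00pm_112_s3 cutB_nil (noExt_B)

noncomputable def cut_B00pm_202_s1 : Cut := Cut.of [[⟨4, 0, 0, 1449551462⟩], [⟨0, 1, 0, 38347922⟩, ⟨1, 0, 0, 38347922⟩, ⟨2, 1, 0, 38347922⟩], [⟨0, 0, 1, 46137344⟩, ⟨1, 1, 2, 46137344⟩, ⟨2, 1, 0, 2097152⟩, ⟨0, 0, 0, 1041207446⟩, ⟨0, 1, 0, 59055800⟩, ⟨1, 0, 0, 59055800⟩, ⟨1, 1, 0, 1041207446⟩]]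

noncomputable def f_B00pm_202_s1 : ℕ → ℕ → ℕ → ℕ → Bool := onCell 0 536870912 0 536870912 1020054732 13421774
    (rowF 0 false true false .pp 2 0 2 (qsf 0 536870912 0 536870912 0) ndB0q2 ndB0q2 pcB0 cut_B00pm_202_s1 Ext.none)

def k0_B00pm_202_s1 : ∃ t, chk3 f_B00pm_202_s1 t 1 1 1 = true :=
  ⟨(a (l 3) (b (l 3) (a (l 3) (b (l 3) (a (l 3) (b (l 3) (b (l 3) (a (l 3) (l 14))))))))), by decide +kernel⟩

theorem c_B00pm_202_s1 : CertF 0 536870912 0 536870912 1020054732 13421774 false true false .pp 2 0 2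
    ndB0q2 ndB0q2 pcB0 cut_B00pm_202_s1 Ext.none :=
  certF0 (fam := false) (s1 := true) (s2 := false) (a := 2) (b := 0) (c := 2) (cn := .pp) (n1 := ndB0q2) (n2 := ndB0q2) (pc := pcB0) (cut := cut_B00pm_202_s1) (xt := Ext.none) (P1 := 0) (W1 := 536870912) (P2 := 0) (W2 := 536870912) (P3 := 1020054732) (W3 := 13421774)
    rfl k0_B00pm_202_s1

theorem s_B00pm_202_s1 {κ x : ℝ} (hκ : κ * h0 = ken x) (hx : ((1020054732 : ℕ) : ℝ) / S ≤ x)
    (hx' : x ≤ (((1020054732 : ℕ) : ℝ) + (13421774 : ℕ)) / S)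
    (H : CutB (VFD κ) PP tK tL pcB (Cut.of [[⟨0, 1, 0, 38347922⟩, ⟨1, 0, 0, 38347922⟩, ⟨2, 1, 0, 38347922⟩], [⟨0, 0, 1, 46137344⟩, ⟨1, 1, 2, 46137344⟩, ⟨2, 1, 0, 2097152⟩, ⟨0, 0, 0, 1041207446⟩, ⟨0, 1, 0, 59055800⟩, ⟨1, 0, 0, 59055800⟩, ⟨1, 1, 0, 1041207446⟩]]) 2 0 2 0 0 (sgb true) (sgb false) x) :
    AltB (VFD κ) PP tK tL pcB [⟨3, 0, 0, 1449551462⟩] 2 0 2 0 0 (sgb true) (sgb false) x :=
  strip_altBD (m := 1449551462) true rfl hκ (SH.κ0 hκ (SH.hx1 hx).le (SH.hx2 hx').le) (SH.hx1 hx).le (SH.hx2 hx') (covB02).cov (covB02).cov hx hx' c_B00pm_202_s1 H (noExt_B)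

noncomputable def cut_B00pm_202_s3 : Cut := Cut.of [[⟨3, 0, 0, 2845415833⟩], [⟨0, 1, 0, 38347922⟩, ⟨1, 0, 0, 38347922⟩, ⟨2, 1, 0, 38347922⟩], [⟨0, 0, 1, 46137344⟩, ⟨1, 1, 2, 46137344⟩, ⟨2, 1, 0, 2097152⟩, ⟨0, 0, 0, 1041207446⟩, ⟨0, 1, 0, 59055800⟩, ⟨1, 0, 0, 59055800⟩, ⟨1, 1, 0, 1041207446⟩]]

noncomputable def f_B00pm_202_s3 : ℕ → ℕ → ℕ → ℕ → Bool := onCell 0 536870912 0 536870912 1020054732 13421774
    (rowF 0 false true false .pp 2 0 2 (qsf 0 536870912 0 536870912 0) ndB0q2 ndB0q2 pcB0 cut_B00pm_202_s3 Ext.none)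

def k0_B00pm_202_s3 : ∃ t, chk3 f_B00pm_202_s3 t 1 1 1 = true :=
  ⟨(l 6), by decide +kernel⟩

theorem c_B00pm_202_s3 : CertF 0 536870912 0 536870912 1020054732 13421774 false true false .pp 2 0 2
    ndB0q2 ndB0q2 pcB0 cut_B00pm_202_s3 Ext.none :=
  certF0 (fam := false) (s1 := true) (s2 := false) (a := 2) (b := 0) (c := 2) (cn := .pp) (n1 := ndB0q2) (n2 := ndB0q2) (pc := pcB0) (cut := cut_B00pm_202_s3) (xt := Ext.none) (P1 := 0) (W1 := 536870912) (P2 := 0) (W2 := 536870912) (P3 := 1020054732) (W3 := 13421774)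
    rfl k0_B00pm_202_s3

theorem s_B00pm_202_s3 {κ x : ℝ} (hκ : κ * h0 = ken x) (hx : ((1020054732 : ℕ) : ℝ) / S ≤ x)
    (hx' : x ≤ (((1020054732 : ℕ) : ℝ) + (13421774 : ℕ)) / S)
    (H : CutB (VFD κ) PP tK tL pcB (Cut.of [[⟨0, 1, 0, 38347922⟩, ⟨1, 0, 0, 38347922⟩, ⟨2, 1, 0, 38347922⟩], [⟨0, 0, 1, 46137344⟩, ⟨1, 1, 2, 46137344⟩, ⟨2, 1, 0, 2097152⟩, ⟨0, 0, 0, 1041207446⟩, ⟨0, 1, 0, 59055800⟩, ⟨1, 0, 0, 59055800⟩, ⟨1, 1, 0, 1041207446⟩]]) 2 0 2 0 0 (sgb true) (sgb false) x) :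
    AltB (VFD κ) PP tK tL pcB [⟨4, 0, 0, 2845415833⟩] 2 0 2 0 0 (sgb true) (sgb false) x :=
  strip_altBD (m := 2845415833) false rfl hκ (SH.κ0 hκ (SH.hx1 hx).le (SH.hx2 hx').le) (SH.hx1 hx).le (SH.hx2 hx') (covB02).cov (covB02).cov hx hx' c_B00pm_202_s3 H (noExt_B)

noncomputable def cut_B00mm_001_s1 : Cut := Cut.of [[⟨4, 0, 0, 1449551462⟩]]

noncomputable def f_B00mm_001_s1 : ℕ → ℕ → ℕ → ℕ → Bool := onCell 0 536870912 0 536870912 1020054732 13421774
    (rowF 1 false false false .up 0 0 1 (qsf 0 536870912 536870912 536870912 0) ndB0q0 ndB0q1 pcB0 cut_B00mm_001_s1 Ext.none)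

def k0_B00mm_001_s1 : ∃ t, chk3 f_B00mm_001_s1 t 1 1 1 = true :=
  ⟨(l 3), by decide +kernel⟩

theorem c_B00mm_001_s1 : CertF 0 536870912 536870912 536870912 1020054732 13421774 false false false .up 0 0 1
    ndB0q0 ndB0q1 pcB0 cut_B00mm_001_s1 Ext.none :=
  certF1 (fam := false) (s1 := false) (s2 := false) (a := 0) (b := 0) (c := 1) (cn := .up) (n1 := ndB0q0) (n2 := ndB0q1) (pc := pcB0) (cut := cut_B00mm_001_s1) (xt := Ext.none) (P1 := 0) (W1 := 536870912) (P2 := 536870912) (W2 := 536870912) (P3 := 1020054732) (W3 := 13421774)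
    rfl (fun _ => rfl) k0_B00mm_001_s1

theorem s_B00mm_001_s1 {κ x : ℝ} (hκ : κ * h0 = ken x) (hx : ((1020054732 : ℕ) : ℝ) / S ≤ x)
    (hx' : x ≤ (((1020054732 : ℕ) : ℝ) + (13421774 : ℕ)) / S) :
    AltB (VFD κ) PP tK tL pcB [⟨3, 0, 0, 1449551462⟩] 0 0 1 0 0 (sgb false) (sgb false) x :=
  strip_altBD (m := 1449551462) true rfl hκ (SH.κ0 hκ (SH.hx1 hx).le (SH.hx2 hx').le) (SH.hx1 hx).le (SH.hx2 hx') (covB00).cov (covB01).cov hx hx' c_B00mm_001_s1 cutB_nil (noExt_B)

noncomputable def cut_B00mm_001_s3 : Cut := Cut.of [[⟨3, 0, 0, 2845415833⟩]]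

noncomputable def f_B00mm_001_s3 : ℕ → ℕ → ℕ → ℕ → Bool := onCell 0 536870912 536870912 536870912 1020054732 13421774
    (rowF 0 false false false .up 0 0 1 (qsf 0 536870912 536870912 536870912 0) ndB0q0 ndB0q1 pcB0 cut_B00mm_001_s3 Ext.none)

def k0_B00mm_001_s3 : ∃ t, chk3 f_B00mm_001_s3 t 1 1 1 = true :=
  ⟨(l 6), by decide +kernel⟩

theorem c_B00mm_001_s3 : CertF 0 536870912 536870912 536870912 1020054732 13421774 false false false .up 0 0 1
    ndB0q0 ndB0q1 pcB0 cut_B00mm_001_s3 Ext.none :=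
  certF0 (fam := false) (s1 := false) (s2 := false) (a := 0) (b := 0) (c := 1) (cn := .up) (n1 := ndB0q0) (n2 := ndB0q1) (pc := pcB0) (cut := cut_B00mm_001_s3) (xt := Ext.none) (P1 := 0) (W1 := 536870912) (P2 := 536870912) (W2 := 536870912) (P3 := 1020054732) (W3 := 13421774)
    rfl k0_B00mm_001_s3

theorem s_B00mm_001_s3 {κ x : ℝ} (hκ : κ * h0 = ken x) (hx : ((1020054732 : ℕ) : ℝ) / S ≤ x)
    (hx' : x ≤ (((1020054732 : ℕ) : ℝ) + (13421774 : ℕ)) / S) :
    AltB (VFD κ) PP tK tL pcB [⟨4, 0, 0, 2845415833⟩] 0 0 1 0 0 (sgb false) (sgb false) x :=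
  strip_altBD (m := 2845415833) false rfl hκ (SH.κ0 hκ (SH.hx1 hx).le (SH.hx2 hx').le) (SH.hx1 hx).le (SH.hx2 hx') (covB00).cov (covB01).cov hx hx' c_B00mm_001_s3 cutB_nil (noExt_B)

noncomputable def cut_B00mm_011_s1 : Cut := Cut.of [[⟨4, 0, 0, 1449551462⟩]]

noncomputable def f_B00mm_011_s1 : ℕ → ℕ → ℕ → ℕ → Bool := onCell 0 536870912 536870912 536870912 1020054732 13421774
    (rowF 1 false false false .pnn 0 1 1 (qsf 0 536870912 536870912 536870912 1) ndB0q0 ndB0q1 pcB1 cut_B00mm_011_s1 Ext.none)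

def k0_B00mm_011_s1 : ∃ t, chk3 f_B00mm_011_s1 t 1 1 1 = true :=
  ⟨(l 5), by decide +kernel⟩

theorem c_B00mm_011_s1 : CertF 0 536870912 536870912 536870912 1020054732 13421774 false false false .pnn 0 1 1
    ndB0q0 ndB0q1 pcB1 cut_B00mm_011_s1 Ext.none :=
  certF1 (fam := false) (s1 := false) (s2 := false) (a := 0) (b := 1) (c := 1) (cn := .pnn) (n1 := ndB0q0) (n2 := ndB0q1) (pc := pcB1) (cut := cut_B00mm_011_s1) (xt := Ext.none) (P1 := 0) (W1 := 536870912) (P2 := 536870912) (W2 := 536870912) (P3 := 1020054732) (W3 := 13421774)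
    rfl (fun _ => rfl) k0_B00mm_011_s1

theorem s_B00mm_011_s1 {κ x : ℝ} (hκ : κ * h0 = ken x) (hx : ((1020054732 : ℕ) : ℝ) / S ≤ x)
    (hx' : x ≤ (((1020054732 : ℕ) : ℝ) + (13421774 : ℕ)) / S) :
    AltB (VFD κ) PP tK tL pcB [⟨3, 0, 0, 1449551462⟩] 0 1 1 0 0 (sgb false) (sgb false) x :=
  strip_altBD (m := 1449551462) true rfl hκ (SH.κ0 hκ (SH.hx1 hx).le (SH.hx2 hx').le) (SH.hx1 hx).le (SH.hx2 hx') (covB00).cov (covB01).cov hx hx' c_B00mm_011_s1 cutB_nil (noExt_B)

noncomputable def cut_B00mm_011_s3 : Cut := Cut.of [[⟨3, 0, 0, 2845415833⟩]]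

noncomputable def f_B00mm_011_s3 : ℕ → ℕ → ℕ → ℕ → Bool := onCell 0 536870912 536870912 536870912 1020054732 13421774
    (rowF 0 false false false .pnn 0 1 1 (qsf 0 536870912 536870912 536870912 1) ndB0q0 ndB0q1 pcB1 cut_B00mm_011_s3 Ext.none)

def k0_B00mm_011_s3 : ∃ t, chk3 f_B00mm_011_s3 t 1 1 1 = true :=
  ⟨(l 6), by decide +kernel⟩

theorem c_B00mm_011_s3 : CertF 0 536870912 536870912 536870912 1020054732 13421774 false false false .pnn 0 1 1
    ndB0q0 ndB0q1 pcB1 cut_B00mm_011_s3 Ext.none :=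
  certF0 (fam := false) (s1 := false) (s2 := false) (a := 0) (b := 1) (c := 1) (cn := .pnn) (n1 := ndB0q0) (n2 := ndB0q1) (pc := pcB1) (cut := cut_B00mm_011_s3) (xt := Ext.none) (P1 := 0) (W1 := 536870912) (P2 := 536870912) (W2 := 536870912) (P3 := 1020054732) (W3 := 13421774)
    rfl k0_B00mm_011_s3

theorem s_B00mm_011_s3 {κ x : ℝ} (hκ : κ * h0 = ken x) (hx : ((1020054732 : ℕ) : ℝ) / S ≤ x)
    (hx' : x ≤ (((1020054732 : ℕ) : ℝ) + (13421774 : ℕ)) / S) :
    AltB (VFD κ) PP tK tL pcB [⟨4, 0, 0, 2845415833⟩] 0 1 1 0 0 (sgb false) (sgb false) x :=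
  strip_altBD (m := 2845415833) false rfl hκ (SH.κ0 hκ (SH.hx1 hx).le (SH.hx2 hx').le) (SH.hx1 hx).le (SH.hx2 hx') (covB00).cov (covB01).cov hx hx' c_B00mm_011_s3 cutB_nil (noExt_B)

noncomputable def cut_B00mm_012_s1 : Cut := Cut.of [[⟨4, 0, 0, 1449551462⟩]]

noncomputable def f_B00mm_012_s1 : ℕ → ℕ → ℕ → ℕ → Bool := onCell 0 536870912 0 536870912 1020054732 13421774
    (rowF 0 false false false .pnp 0 1 2 (qsf 0 536870912 0 536870912 1) ndB0q0 ndB0q2 pcB1 cut_B00mm_012_s1 Ext.none)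

def k0_B00mm_012_s1 : ∃ t, chk3 f_B00mm_012_s1 t 1 1 1 = true :=
  ⟨(l 5), by decide +kernel⟩

theorem c_B00mm_012_s1 : CertF 0 536870912 0 536870912 1020054732 13421774 false false false .pnp 0 1 2
    ndB0q0 ndB0q2 pcB1 cut_B00mm_012_s1 Ext.none :=
  certF0 (fam := false) (s1 := false) (s2 := false) (a := 0) (b := 1) (c := 2) (cn := .pnp) (n1 := ndB0q0) (n2 := ndB0q2) (pc := pcB1) (cut := cut_B00mm_012_s1) (xt := Ext.none) (P1 := 0) (W1 := 536870912) (P2 := 0) (W2 := 536870912) (P3 := 1020054732) (W3 := 13421774)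
    rfl k0_B00mm_012_s1

theorem s_B00mm_012_s1 {κ x : ℝ} (hκ : κ * h0 = ken x) (hx : ((1020054732 : ℕ) : ℝ) / S ≤ x)
    (hx' : x ≤ (((1020054732 : ℕ) : ℝ) + (13421774 : ℕ)) / S) :
    AltB (VFD κ) PP tK tL pcB [⟨3, 0, 0, 1449551462⟩] 0 1 2 0 0 (sgb false) (sgb false) x :=
  strip_altBD (m := 1449551462) true rfl hκ (SH.κ0 hκ (SH.hx1 hx).le (SH.hx2 hx').le) (SH.hx1 hx).le (SH.hx2 hx') (covB00).cov (covB02).cov hx hx' c_B00mm_012_s1 cutB_nil (noExt_B)

noncomputable def cut_B00mm_012_s3 : Cut := Cut.of [[⟨3, 0, 0, 2845415833⟩]]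

noncomputable def f_B00mm_012_s3 : ℕ → ℕ → ℕ → ℕ → Bool := onCell 0 536870912 0 536870912 1020054732 13421774
    (rowF 0 false false false .pnp 0 1 2 (qsf 0 536870912 0 536870912 1) ndB0q0 ndB0q2 pcB1 cut_B00mm_012_s3 Ext.none)

def k0_B00mm_012_s3 : ∃ t, chk3 f_B00mm_012_s3 t 1 1 1 = true :=
  ⟨(l 5), by decide +kernel⟩

theorem c_B00mm_012_s3 : CertF 0 536870912 0 536870912 1020054732 13421774 false false false .pnp 0 1 2
    ndB0q0 ndB0q2 pcB1 cut_B00mm_012_s3 Ext.none :=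
  certF0 (fam := false) (s1 := false) (s2 := false) (a := 0) (b := 1) (c := 2) (cn := .pnp) (n1 := ndB0q0) (n2 := ndB0q2) (pc := pcB1) (cut := cut_B00mm_012_s3) (xt := Ext.none) (P1 := 0) (W1 := 536870912) (P2 := 0) (W2 := 536870912) (P3 := 1020054732) (W3 := 13421774)
    rfl k0_B00mm_012_s3

theorem s_B00mm_012_s3 {κ x : ℝ} (hκ : κ * h0 = ken x) (hx : ((1020054732 : ℕ) : ℝ) / S ≤ x)
    (hx' : x ≤ (((1020054732 : ℕ) : ℝ) + (13421774 : ℕ)) / S) :
    AltB (VFD κ) PP tK tL pcB [⟨4, 0, 0, 2845415833⟩] 0 1 2 0 0 (sgb false) (sgb false) x :=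
  strip_altBD (m := 2845415833) false rfl hκ (SH.κ0 hκ (SH.hx1 hx).le (SH.hx2 hx').le) (SH.hx1 hx).le (SH.hx2 hx') (covB00).cov (covB02).cov hx hx' c_B00mm_012_s3 cutB_nil (noExt_B)

noncomputable def cut_B00mm_022_s1 : Cut := Cut.of [[⟨4, 0, 0, 1449551462⟩]]

noncomputable def f_B00mm_022_s1 : ℕ → ℕ → ℕ → ℕ → Bool := onCell 0 536870912 0 536870912 1020054732 13421774
    (rowF 0 false false false .pp 0 2 2 (qsf 0 536870912 0 536870912 2) ndB0q0 ndB0q2 pcB2 cut_B00mm_022_s1 Ext.none)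

def k0_B00mm_022_s1 : ∃ t, chk3 f_B00mm_022_s1 t 1 1 1 = true :=
  ⟨(l 5), by decide +kernel⟩

theorem c_B00mm_022_s1 : CertF 0 536870912 0 536870912 1020054732 13421774 false false false .pp 0 2 2
    ndB0q0 ndB0q2 pcB2 cut_B00mm_022_s1 Ext.none :=
  certF0 (fam := false) (s1 := false) (s2 := false) (a := 0) (b := 2) (c := 2) (cn := .pp) (n1 := ndB0q0) (n2 := ndB0q2) (pc := pcB2) (cut := cut_B00mm_022_s1) (xt := Ext.none) (P1 := 0) (W1 := 536870912) (P2 := 0) (W2 := 536870912) (P3 := 1020054732) (W3 := 13421774)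
    rfl k0_B00mm_022_s1

theorem s_B00mm_022_s1 {κ x : ℝ} (hκ : κ * h0 = ken x) (hx : ((1020054732 : ℕ) : ℝ) / S ≤ x)
    (hx' : x ≤ (((1020054732 : ℕ) : ℝ) + (13421774 : ℕ)) / S) :
    AltB (VFD κ) PP tK tL pcB [⟨3, 0, 0, 1449551462⟩] 0 2 2 0 0 (sgb false) (sgb false) x :=
  strip_altBD (m := 1449551462) true rfl hκ (SH.κ0 hκ (SH.hx1 hx).le (SH.hx2 hx').le) (SH.hx1 hx).le (SH.hx2 hx') (covB00).cov (covB02).cov hx hx' c_B00mm_022_s1 cutB_nil (noExt_B)

noncomputable def cut_B00mm_022_s3 : Cut := Cut.of [[⟨3, 0, 0, 2845415833⟩]]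

noncomputable def f_B00mm_022_s3 : ℕ → ℕ → ℕ → ℕ → Bool := onCell 0 536870912 0 536870912 1020054732 13421774
    (rowF 0 false false false .pp 0 2 2 (qsf 0 536870912 0 536870912 2) ndB0q0 ndB0q2 pcB2 cut_B00mm_022_s3 Ext.none)

def k0_B00mm_022_s3 : ∃ t, chk3 f_B00mm_022_s3 t 1 1 1 = true :=
  ⟨(l 5), by decide +kernel⟩

theorem c_B00mm_022_s3 : CertF 0 536870912 0 536870912 1020054732 13421774 false false false .pp 0 2 2
    ndB0q0 ndB0q2 pcB2 cut_B00mm_022_s3 Ext.none :=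
  certF0 (fam := false) (s1 := false) (s2 := false) (a := 0) (b := 2) (c := 2) (cn := .pp) (n1 := ndB0q0) (n2 := ndB0q2) (pc := pcB2) (cut := cut_B00mm_022_s3) (xt := Ext.none) (P1 := 0) (W1 := 536870912) (P2 := 0) (W2 := 536870912) (P3 := 1020054732) (W3 := 13421774)
    rfl k0_B00mm_022_s3

theorem s_B00mm_022_s3 {κ x : ℝ} (hκ : κ * h0 = ken x) (hx : ((1020054732 : ℕ) : ℝ) / S ≤ x)
    (hx' : x ≤ (((1020054732 : ℕ) : ℝ) + (13421774 : ℕ)) / S) :
    AltB (VFD κ) PP tK tL pcB [⟨4, 0, 0, 2845415833⟩] 0 2 2 0 0 (sgb false) (sgb false) x :=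
  strip_altBD (m := 2845415833) false rfl hκ (SH.κ0 hκ (SH.hx1 hx).le (SH.hx2 hx').le) (SH.hx1 hx).le (SH.hx2 hx') (covB00).cov (covB02).cov hx hx' c_B00mm_022_s3 cutB_nil (noExt_B)

noncomputable def cut_B00mm_101_s1 : Cut := Cut.of [[⟨4, 0, 0, 1449551462⟩]]

noncomputable def f_B00mm_101_s1 : ℕ → ℕ → ℕ → ℕ → Bool := onCell 536870912 536870912 536870912 536870912 1020054732 13421774
    (rowF 0 false false false .npn 1 0 1 (qsf 536870912 536870912 536870912 536870912 0) ndB0q1 ndB0q1 pcB0 cut_B00mm_101_s1 Ext.none)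

def k0_B00mm_101_s1 : ∃ t, chk3 f_B00mm_101_s1 t 1 1 1 = true :=
  ⟨(l 3), by decide +kernel⟩

theorem c_B00mm_101_s1 : CertF 536870912 536870912 536870912 536870912 1020054732 13421774 false false false .npn 1 0 1
    ndB0q1 ndB0q1 pcB0 cut_B00mm_101_s1 Ext.none :=
  certF0 (fam := false) (s1 := false) (s2 := false) (a := 1) (b := 0) (c := 1) (cn := .npn) (n1 := ndB0q1) (n2 := ndB0q1) (pc := pcB0) (cut := cut_B00mm_101_s1) (xt := Ext.none) (P1 := 536870912) (W1 := 536870912) (P2 := 536870912) (W2 := 536870912) (P3 := 1020054732) (W3 := 13421774)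
    rfl k0_B00mm_101_s1

theorem s_B00mm_101_s1 {κ x : ℝ} (hκ : κ * h0 = ken x) (hx : ((1020054732 : ℕ) : ℝ) / S ≤ x)
    (hx' : x ≤ (((1020054732 : ℕ) : ℝ) + (13421774 : ℕ)) / S) :
    AltB (VFD κ) PP tK tL pcB [⟨3, 0, 0, 1449551462⟩] 1 0 1 0 0 (sgb false) (sgb false) x :=
  strip_altBD (m := 1449551462) true rfl hκ (SH.κ0 hκ (SH.hx1 hx).le (SH.hx2 hx').le) (SH.hx1 hx).le (SH.hx2 hx') (covB01).cov (covB01).cov hx hx' c_B00mm_101_s1 cutB_nil (noExt_B)

noncomputable def cut_B00mm_101_s3 : Cut := Cut.of [[⟨3, 0, 0, 2845415833⟩]]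

noncomputable def f_B00mm_101_s3 : ℕ → ℕ → ℕ → ℕ → Bool := onCell 536870912 536870912 536870912 536870912 1020054732 13421774
    (rowF 0 false false false .npn 1 0 1 (qsf 536870912 536870912 536870912 536870912 0) ndB0q1 ndB0q1 pcB0 cut_B00mm_101_s3 Ext.none)

def k0_B00mm_101_s3 : ∃ t, chk3 f_B00mm_101_s3 t 1 1 1 = true :=
  ⟨(l 3), by decide +kernel⟩

theorem c_B00mm_101_s3 : CertF 536870912 536870912 536870912 536870912 1020054732 13421774 false false false .npn 1 0 1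
    ndB0q1 ndB0q1 pcB0 cut_B00mm_101_s3 Ext.none :=
  certF0 (fam := false) (s1 := false) (s2 := false) (a := 1) (b := 0) (c := 1) (cn := .npn) (n1 := ndB0q1) (n2 := ndB0q1) (pc := pcB0) (cut := cut_B00mm_101_s3) (xt := Ext.none) (P1 := 536870912) (W1 := 536870912) (P2 := 536870912) (W2 := 536870912) (P3 := 1020054732) (W3 := 13421774)
    rfl k0_B00mm_101_s3

theorem s_B00mm_101_s3 {κ x : ℝ} (hκ : κ * h0 = ken x) (hx : ((1020054732 : ℕ) : ℝ) / S ≤ x)
    (hx' : x ≤ (((1020054732 : ℕ) : ℝ) + (13421774 : ℕ)) / S) :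
    AltB (VFD κ) PP tK tL pcB [⟨4, 0, 0, 2845415833⟩] 1 0 1 0 0 (sgb false) (sgb false) x :=
  strip_altBD (m := 2845415833) false rfl hκ (SH.κ0 hκ (SH.hx1 hx).le (SH.hx2 hx').le) (SH.hx1 hx).le (SH.hx2 hx') (covB01).cov (covB01).cov hx hx' c_B00mm_101_s3 cutB_nil (noExt_B)

noncomputable def cut_B00mm_102_s1 : Cut := Cut.of [[⟨4, 0, 0, 1449551462⟩]]

noncomputable def f_B00mm_102_s1 : ℕ → ℕ → ℕ → ℕ → Bool := onCell 536870912 536870912 0 536870912 1020054732 13421774
    (rowF 0 false false false .npp 1 0 2 (qsf 536870912 536870912 0 536870912 0) ndB0q1 ndB0q2 pcB0 cut_B00mm_102_s1 Ext.none)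

def k0_B00mm_102_s1 : ∃ t, chk3 f_B00mm_102_s1 t 1 1 1 = true :=
  ⟨(a (l 5) (l 3)), by decide +kernel⟩

theorem c_B00mm_102_s1 : CertF 536870912 536870912 0 536870912 1020054732 13421774 false false false .npp 1 0 2
    ndB0q1 ndB0q2 pcB0 cut_B00mm_102_s1 Ext.none :=
  certF0 (fam := false) (s1 := false) (s2 := false) (a := 1) (b := 0) (c := 2) (cn := .npp) (n1 := ndB0q1) (n2 := ndB0q2) (pc := pcB0) (cut := cut_B00mm_102_s1) (xt := Ext.none) (P1 := 536870912) (W1 := 536870912) (P2 := 0) (W2 := 536870912) (P3 := 1020054732) (W3 := 13421774)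
    rfl k0_B00mm_102_s1

theorem s_B00mm_102_s1 {κ x : ℝ} (hκ : κ * h0 = ken x) (hx : ((1020054732 : ℕ) : ℝ) / S ≤ x)
    (hx' : x ≤ (((1020054732 : ℕ) : ℝ) + (13421774 : ℕ)) / S) :
    AltB (VFD κ) PP tK tL pcB [⟨3, 0, 0, 1449551462⟩] 1 0 2 0 0 (sgb false) (sgb false) x :=
  strip_altBD (m := 1449551462) true rfl hκ (SH.κ0 hκ (SH.hx1 hx).le (SH.hx2 hx').le) (SH.hx1 hx).le (SH.hx2 hx') (covB01).cov (covB02).cov hx hx' c_B00mm_102_s1 cutB_nil (noExt_B)

noncomputable def cut_B00mm_102_s3 : Cut := Cut.of [[⟨3, 0, 0, 2845415833⟩]]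

noncomputable def f_B00mm_102_s3 : ℕ → ℕ → ℕ → ℕ → Bool := onCell 536870912 536870912 0 536870912 1020054732 13421774
    (rowF 0 false false false .npp 1 0 2 (qsf 536870912 536870912 0 536870912 0) ndB0q1 ndB0q2 pcB0 cut_B00mm_102_s3 Ext.none)

def k0_B00mm_102_s3 : ∃ t, chk3 f_B00mm_102_s3 t 1 1 1 = true :=
  ⟨(l 6), by decide +kernel⟩

theorem c_B00mm_102_s3 : CertF 536870912 536870912 0 536870912 1020054732 13421774 false false false .npp 1 0 2
    ndB0q1 ndB0q2 pcB0 cut_B00mm_102_s3 Ext.none :=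
  certF0 (fam := false) (s1 := false) (s2 := false) (a := 1) (b := 0) (c := 2) (cn := .npp) (n1 := ndB0q1) (n2 := ndB0q2) (pc := pcB0) (cut := cut_B00mm_102_s3) (xt := Ext.none) (P1 := 536870912) (W1 := 536870912) (P2 := 0) (W2 := 536870912) (P3 := 1020054732) (W3 := 13421774)
    rfl k0_B00mm_102_s3

theorem s_B00mm_102_s3 {κ x : ℝ} (hκ : κ * h0 = ken x) (hx : ((1020054732 : ℕ) : ℝ) / S ≤ x)
    (hx' : x ≤ (((1020054732 : ℕ) : ℝ) + (13421774 : ℕ)) / S) :
    AltB (VFD κ) PP tK tL pcB [⟨4, 0, 0, 2845415833⟩] 1 0 2 0 0 (sgb false) (sgb false) x :=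
  strip_altBD (m := 2845415833) false rfl hκ (SH.κ0 hκ (SH.hx1 hx).le (SH.hx2 hx').le) (SH.hx1 hx).le (SH.hx2 hx') (covB01).cov (covB02).cov hx hx' c_B00mm_102_s3 cutB_nil (noExt_B)

noncomputable def cut_B00mm_112_s1 : Cut := Cut.of [[⟨4, 0, 0, 1449551462⟩]]

noncomputable def f_B00mm_112_s1 : ℕ → ℕ → ℕ → ℕ → Bool := onCell 536870912 536870912 0 536870912 1020054732 13421774
    (rowF 2 false false false .dn 1 1 2 (qsf 536870912 536870912 0 536870912 1) ndB0q1 ndB0q2 pcB1 cut_B00mm_112_s1 Ext.none)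

def k0_B00mm_112_s1 : ∃ t, chk3 f_B00mm_112_s1 t 1 1 1 = true :=
  ⟨(l 5), by decide +kernel⟩

theorem c_B00mm_112_s1 : CertF 536870912 536870912 0 536870912 1020054732 13421774 false false false .dn 1 1 2
    ndB0q1 ndB0q2 pcB1 cut_B00mm_112_s1 Ext.none :=
  certF2 (fam := false) (s1 := false) (s2 := false) (a := 1) (b := 1) (c := 2) (cn := .dn) (n1 := ndB0q1) (n2 := ndB0q2) (pc := pcB1) (cut := cut_B00mm_112_s1) (xt := Ext.none) (P1 := 536870912) (W1 := 536870912) (P2 := 0) (W2 := 536870912) (P3 := 1020054732) (W3 := 13421774)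
    rfl (fun _ => rfl) k0_B00mm_112_s1

theorem s_B00mm_112_s1 {κ x : ℝ} (hκ : κ * h0 = ken x) (hx : ((1020054732 : ℕ) : ℝ) / S ≤ x)
    (hx' : x ≤ (((1020054732 : ℕ) : ℝ) + (13421774 : ℕ)) / S) :
    AltB (VFD κ) PP tK tL pcB [⟨3, 0, 0, 1449551462⟩] 1 1 2 0 0 (sgb false) (sgb false) x :=
  strip_altBD (m := 1449551462) true rfl hκ (SH.κ0 hκ (SH.hx1 hx).le (SH.hx2 hx').le) (SH.hx1 hx).le (SH.hx2 hx') (covB01).cov (covB02).cov hx hx' c_B00mm_112_s1 cutB_nil (noExt_B)

noncomputable def cut_B00mm_112_s3 : Cut := Cut.of [[⟨3, 0, 0, 2845415833⟩]]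

noncomputable def f_B00mm_112_s3 : ℕ → ℕ → ℕ → ℕ → Bool := onCell 536870912 536870912 0 536870912 1020054732 13421774
    (rowF 0 false false false .dn 1 1 2 (qsf 536870912 536870912 0 536870912 1) ndB0q1 ndB0q2 pcB1 cut_B00mm_112_s3 Ext.none)

def k0_B00mm_112_s3 : ∃ t, chk3 f_B00mm_112_s3 t 1 1 1 = true :=
  ⟨(l 6), by decide +kernel⟩

theorem c_B00mm_112_s3 : CertF 536870912 536870912 0 536870912 1020054732 13421774 false false false .dn 1 1 2
    ndB0q1 ndB0q2 pcB1 cut_B00mm_112_s3 Ext.none :=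
  certF0 (fam := false) (s1 := false) (s2 := false) (a := 1) (b := 1) (c := 2) (cn := .dn) (n1 := ndB0q1) (n2 := ndB0q2) (pc := pcB1) (cut := cut_B00mm_112_s3) (xt := Ext.none) (P1 := 536870912) (W1 := 536870912) (P2 := 0) (W2 := 536870912) (P3 := 1020054732) (W3 := 13421774)
    rfl k0_B00mm_112_s3

theorem s_B00mm_112_s3 {κ x : ℝ} (hκ : κ * h0 = ken x) (hx : ((1020054732 : ℕ) : ℝ) / S ≤ x)
    (hx' : x ≤ (((1020054732 : ℕ) : ℝ) + (13421774 : ℕ)) / S) :
    AltB (VFD κ) PP tK tL pcB [⟨4, 0, 0, 2845415833⟩] 1 1 2 0 0 (sgb false) (sgb false) x :=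
  strip_altBD (m := 2845415833) false rfl hκ (SH.κ0 hκ (SH.hx1 hx).le (SH.hx2 hx').le) (SH.hx1 hx).le (SH.hx2 hx') (covB01).cov (covB02).cov hx hx' c_B00mm_112_s3 cutB_nil (noExt_B)

noncomputable def cut_B00mm_202_s1 : Cut := Cut.of [[⟨4, 0, 0, 1449551462⟩]]

noncomputable def f_B00mm_202_s1 : ℕ → ℕ → ℕ → ℕ → Bool := onCell 0 536870912 0 536870912 1020054732 13421774
    (rowF 0 false false false .pp 2 0 2 (qsf 0 536870912 0 536870912 0) ndB0q2 ndB0q2 pcB0 cut_B00mm_202_s1 Ext.none)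

def k0_B00mm_202_s1 : ∃ t, chk3 f_B00mm_202_s1 t 1 1 1 = true :=
  ⟨(l 3), by decide +kernel⟩

theorem c_B00mm_202_s1 : CertF 0 536870912 0 536870912 1020054732 13421774 false false false .pp 2 0 2
    ndB0q2 ndB0q2 pcB0 cut_B00mm_202_s1 Ext.none :=
  certF0 (fam := false) (s1 := false) (s2 := false) (a := 2) (b := 0) (c := 2) (cn := .pp) (n1 := ndB0q2) (n2 := ndB0q2) (pc := pcB0) (cut := cut_B00mm_202_s1) (xt := Ext.none) (P1 := 0) (W1 := 536870912) (P2 := 0) (W2 := 536870912) (P3 := 1020054732) (W3 := 13421774)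
    rfl k0_B00mm_202_s1

theorem s_B00mm_202_s1 {κ x : ℝ} (hκ : κ * h0 = ken x) (hx : ((1020054732 : ℕ) : ℝ) / S ≤ x)
    (hx' : x ≤ (((1020054732 : ℕ) : ℝ) + (13421774 : ℕ)) / S) :
    AltB (VFD κ) PP tK tL pcB [⟨3, 0, 0, 1449551462⟩] 2 0 2 0 0 (sgb false) (sgb false) x :=
  strip_altBD (m := 1449551462) true rfl hκ (SH.κ0 hκ (SH.hx1 hx).le (SH.hx2 hx').le) (SH.hx1 hx).le (SH.hx2 hx') (covB02).cov (covB02).cov hx hx' c_B00mm_202_s1 cutB_nil (noExt_B)

noncomputable def cut_B00mm_202_s3 : Cut := Cut.of [[⟨3, 0, 0, 2845415833⟩]]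

noncomputable def f_B00mm_202_s3 : ℕ → ℕ → ℕ → ℕ → Bool := onCell 0 536870912 0 536870912 1020054732 13421774
    (rowF 0 false false false .pp 2 0 2 (qsf 0 536870912 0 536870912 0) ndB0q2 ndB0q2 pcB0 cut_B00mm_202_s3 Ext.none)

def k0_B00mm_202_s3 : ∃ t, chk3 f_B00mm_202_s3 t 1 1 1 = true :=
  ⟨(l 3), by decide +kernel⟩

theorem c_B00mm_202_s3 : CertF 0 536870912 0 536870912 1020054732 13421774 false false false .pp 2 0 2
    ndB0q2 ndB0q2 pcB0 cut_B00mm_202_s3 Ext.none :=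
  certF0 (fam := false) (s1 := false) (s2 := false) (a := 2) (b := 0) (c := 2) (cn := .pp) (n1 := ndB0q2) (n2 := ndB0q2) (pc := pcB0) (cut := cut_B00mm_202_s3) (xt := Ext.none) (P1 := 0) (W1 := 536870912) (P2 := 0) (W2 := 536870912) (P3 := 1020054732) (W3 := 13421774)
    rfl k0_B00mm_202_s3

theorem s_B00mm_202_s3 {κ x : ℝ} (hκ : κ * h0 = ken x) (hx : ((1020054732 : ℕ) : ℝ) / S ≤ x)
    (hx' : x ≤ (((1020054732 : ℕ) : ℝ) + (13421774 : ℕ)) / S) :
    AltB (VFD κ) PP tK tL pcB [⟨4, 0, 0, 2845415833⟩] 2 0 2 0 0 (sgb false) (sgb false) x :=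
  strip_altBD (m := 2845415833) false rfl hκ (SH.κ0 hκ (SH.hx1 hx).le (SH.hx2 hx').le) (SH.hx1 hx).le (SH.hx2 hx') (covB02).cov (covB02).cov hx hx' c_B00mm_202_s3 cutB_nil (noExt_B)

noncomputable def cut_B05pp_001_s1 : Cut := Cut.of [[⟨4, 0, 0, 1449551462⟩]]

noncomputable def f_B05pp_001_s1 : ℕ → ℕ → ℕ → ℕ → Bool := onCell 0 536870912 0 536870912 1020054732 13421774
    (rowF 1 false true true .up 0 0 1 (qsf 0 536870912 536870912 536870912 0) ndB0q0 ndB5q1 pcB0 cut_B05pp_001_s1 Ext.none)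

def k0_B05pp_001_s1 : ∃ t, chk3 f_B05pp_001_s1 t 1 1 1 = true :=
  ⟨(l 3), by decide +kernel⟩

theorem c_B05pp_001_s1 : CertF 0 536870912 536870912 536870912 1020054732 13421774 false true true .up 0 0 1
    ndB0q0 ndB5q1 pcB0 cut_B05pp_001_s1 Ext.none :=
  certF1 (fam := false) (s1 := true) (s2 := true) (a := 0) (b := 0) (c := 1) (cn := .up) (n1 := ndB0q0) (n2 := ndB5q1) (pc := pcB0) (cut := cut_B05pp_001_s1) (xt := Ext.none) (P1 := 0) (W1 := 536870912) (P2 := 536870912) (W2 := 536870912) (P3 := 1020054732) (W3 := 13421774)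
    rfl (fun _ => rfl) k0_B05pp_001_s1

theorem s_B05pp_001_s1 {κ x : ℝ} (hκ : κ * h0 = ken x) (hx : ((1020054732 : ℕ) : ℝ) / S ≤ x)
    (hx' : x ≤ (((1020054732 : ℕ) : ℝ) + (13421774 : ℕ)) / S) :
    AltB (VFD κ) PP tK tL pcB [⟨3, 0, 0, 1449551462⟩] 0 0 1 0 5 (sgb true) (sgb true) x :=
  strip_altBD (m := 1449551462) true rfl hκ (SH.κ0 hκ (SH.hx1 hx).le (SH.hx2 hx').le) (SH.hx1 hx).le (SH.hx2 hx') (covB00).cov (covB51).cov hx hx' c_B05pp_001_s1 cutB_nil (noExt_B)

noncomputable def cut_B05pp_011_s1 : Cut := Cut.of [[⟨4, 0, 0, 1449551462⟩], [⟨0, 0, 0, 38347922⟩, ⟨1, 1, 0, 38347922⟩, ⟨2, 1, 0, 38347922⟩]]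

noncomputable def f_B05pp_011_s1 : ℕ → ℕ → ℕ → ℕ → Bool := onCell 0 536870912 536870912 536870912 1020054732 13421774
    (rowF 1 false true true .pnn 0 1 1 (qsf 0 536870912 536870912 536870912 1) ndB0q0 ndB5q1 pcB1 cut_B05pp_011_s1 Ext.none)

def k0_B05pp_011_s1 : ∃ t, chk3 f_B05pp_011_s1 t 1 1 1 = true :=
  ⟨(b (l 3) (a (b (l 3) (a (b (l 3) (a (b (l 3) (a (l 14) (l 3))) (l 3))) (l 3))) (l 3))), by decide +kernel⟩

theorem c_B05pp_011_s1 : CertF 0 536870912 536870912 536870912 1020054732 13421774 false true true .pnn 0 1 1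
    ndB0q0 ndB5q1 pcB1 cut_B05pp_011_s1 Ext.none :=
  certF1 (fam := false) (s1 := true) (s2 := true) (a := 0) (b := 1) (c := 1) (cn := .pnn) (n1 := ndB0q0) (n2 := ndB5q1) (pc := pcB1) (cut := cut_B05pp_011_s1) (xt := Ext.none) (P1 := 0) (W1 := 536870912) (P2 := 536870912) (W2 := 536870912) (P3 := 1020054732) (W3 := 13421774)
    rfl (fun _ => rfl) k0_B05pp_011_s1

theorem s_B05pp_011_s1 {κ x : ℝ} (hκ : κ * h0 = ken x) (hx : ((1020054732 : ℕ) : ℝ) / S ≤ x)
    (hx' : x ≤ (((1020054732 : ℕ) : ℝ) + (13421774 : ℕ)) / S)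
    (H : CutB (VFD κ) PP tK tL pcB (Cut.of [[⟨0, 0, 0, 38347922⟩, ⟨1, 1, 0, 38347922⟩, ⟨2, 1, 0, 38347922⟩]]) 0 1 1 0 5 (sgb true) (sgb true) x) :
    AltB (VFD κ) PP tK tL pcB [⟨3, 0, 0, 1449551462⟩] 0 1 1 0 5 (sgb true) (sgb true) x :=
  strip_altBD (m := 1449551462) true rfl hκ (SH.κ0 hκ (SH.hx1 hx).le (SH.hx2 hx').le) (SH.hx1 hx).le (SH.hx2 hx') (covB00).cov (covB51).cov hx hx' c_B05pp_011_s1 H (noExt_B)

noncomputable def cut_B05pp_012_s1 : Cut := Cut.of [[⟨4, 0, 0, 1449551462⟩], [⟨0, 0, 0, 38347922⟩, ⟨1, 1, 0, 38347922⟩, ⟨2, 1, 0, 38347922⟩]]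

noncomputable def f_B05pp_012_s1 : ℕ → ℕ → ℕ → ℕ → Bool := onCell 0 536870912 536870912 536870912 1020054732 13421774
    (rowF 1 false true true .pnp 0 1 2 (qsf 0 536870912 1073741824 536870912 1) ndB0q0 ndB5q2 pcB1 cut_B05pp_012_s1 Ext.none)

def k0_B05pp_012_s1 : ∃ t, chk3 f_B05pp_012_s1 t 1 1 1 = true :=
  ⟨(b (l 3) (a (b (l 3) (a (a (a (b (l 1) (b (l 3) (l 14))) (l 3)) (l 3)) (l 3))) (l 3))), by decide +kernel⟩

theorem c_B05pp_012_s1 : CertF 0 536870912 1073741824 536870912 1020054732 13421774 false true true .pnp 0 1 2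
    ndB0q0 ndB5q2 pcB1 cut_B05pp_012_s1 Ext.none :=
  certF1 (fam := false) (s1 := true) (s2 := true) (a := 0) (b := 1) (c := 2) (cn := .pnp) (n1 := ndB0q0) (n2 := ndB5q2) (pc := pcB1) (cut := cut_B05pp_012_s1) (xt := Ext.none) (P1 := 0) (W1 := 536870912) (P2 := 1073741824) (W2 := 536870912) (P3 := 1020054732) (W3 := 13421774)
    rfl (fun _ => rfl) k0_B05pp_012_s1

theorem s_B05pp_012_s1 {κ x : ℝ} (hκ : κ * h0 = ken x) (hx : ((1020054732 : ℕ) : ℝ) / S ≤ x)
    (hx' : x ≤ (((1020054732 : ℕ) : ℝ) + (13421774 : ℕ)) / S)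
    (H : CutB (VFD κ) PP tK tL pcB (Cut.of [[⟨0, 0, 0, 38347922⟩, ⟨1, 1, 0, 38347922⟩, ⟨2, 1, 0, 38347922⟩]]) 0 1 2 0 5 (sgb true) (sgb true) x) :
    AltB (VFD κ) PP tK tL pcB [⟨3, 0, 0, 1449551462⟩] 0 1 2 0 5 (sgb true) (sgb true) x :=
  strip_altBD (m := 1449551462) true rfl hκ (SH.κ0 hκ (SH.hx1 hx).le (SH.hx2 hx').le) (SH.hx1 hx).le (SH.hx2 hx') (covB00).cov (covB52).cov hx hx' c_B05pp_012_s1 H (noExt_B)

noncomputable def cut_B05pp_022_s1 : Cut := Cut.of [[⟨4, 0, 0, 1449551462⟩], [⟨0, 0, 0, 26843545⟩, ⟨1, 1, 0, 26843545⟩, ⟨2, 1, 0, 26843545⟩]]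

noncomputable def xt_B05pp_022_s1 : Ext := strExt dd false true true .u0 .s2 .u2 .pp 0 2 2 rfl rfl gf2 vv ndB0q0 ndB5q2

noncomputable def f_B05pp_022_s1 : ℕ → ℕ → ℕ → ℕ → Bool := onCell 0 536870912 1073741824 536870912 1020054732 13421774
    (rowF 1 false true true .pp 0 2 2 (qsf 0 536870912 1073741824 536870912 2) ndB0q0 ndB5q2 pcB2 cut_B05pp_022_s1 xt_B05pp_022_s1)

def k0_B05pp_022_s1 : ∃ t, chk3 f_B05pp_022_s1 t 32 32 1 = true :=
  ⟨(b (l 14) (a (l 14) (b (a (l 14) (b (a (l 14) (a (l 14) (l 514312831))) (b (a (l 14) (a (b (l 14) (l 16761688)) (b (l 16768048) (b (l 16766976) (l 16761304))))) (a (b (l 14) (l 16742824)) (b (b (a (l 16767184) (l 16755896)) (l 16756432)) (l 16756688)))))) (b (b (a (l 14) (a (l 16749800) (b (l 16746024) (l 16743656)))) (a (a (l 14) (l 16708168)) (a (l 16734608) (l 16750576)))) (a (a (l 16716728) (b (l 16703496) (l 16698792))) (b (a (l 16708912) (l 16735320)) (a (l 16704168) (l 16709552)))))))), by decide +kernel⟩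

def k1_B05pp_022_s1 : ∃ t, chk3 f_B05pp_022_s1 t 33 32 1 = true :=
  ⟨(b (a (a (a (a (l 14) (l 3)) (l 3)) (l 3)) (l 3)) (b (a (a (a (a (b (l 514376831) (b (l 16763736) (a (b (l 16761176) (l 16766112)) (b (l 16767040) (l 16760760))))) (b (l 514440575) (b (l 515585919) (b (l 16768312) (l 16756336))))) (a (b (l 514504063) (l 515955839)) (b (l 514567295) (l 516019327)))) (a (b (a (l 514630527) (l 3)) (a (l 516082815) (l 516146047))) (b (l 3) (l 516227967)))) (a (a (b (l 3) (l 516355967)) (l 3)) (l 3))) (a (a (b (b (a (a (a (l 16756184) (l 16755760)) (b (c (l 16765720) (l 16755624)) (l 16765808))) (b (l 16767760) (a (a (l 16755040) (l 16765952)) (l 16767112)))) (a (b (l 16745648) (l 16744376)) (b (a (l 16760192) (l 16755352)) (a (l 16765784) (l 16765208))))) (b (a (l 16751248) (b (l 16744832) (l 16744992))) (a (l 16735912) (l 16751800)))) (b (a (b (l 517211007) (b (l 16768048) (l 16756216))) (l 517666431)) (b (a (b (a (b (l 16765144) (l 16764896))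 (l 16766104)) (a (l 16765024) (l 16754608))) (l 16757200)) (a (a (l 16744752) (b (l 16764760) (l 16765160))) (a (b (l 16765176) (l 16764624)) (l 16755472)))))) (a (a (b (l 517794943) (l 519231103)) (b (l 517922431) (l 519359103))) (a (l 517052031) (l 517715327)))))), by decide +kernel⟩

def k2_B05pp_022_s1 : ∃ t, chk3 f_B05pp_022_s1 t 16 33 1 = true :=
  ⟨(a (a (b (a (b (l 14) (l 16661904)) (b (b (a (l 14) (l 16639200)) (b (l 16671528) (l 16666936))) (a (l 16653832) (l 16657680)))) (a (b (l 16592656) (l 16659328)) (b (b (l 16600248) (l 16675208)) (l 16578048)))) (b (b (a (b (a (l 16686424) (l 16691712)) (l 16700560)) (b (c (l 16724048) (l 16717176)) (a (l 16687384) (l 16692592)))) (a (b (l 16670024) (l 16618424)) (b (l 16701192) (l 16670376)))) (b (a (l 16645728) (b (l 16618496) (l 16692352))) (a (l 16625792) (l 16593280))))) (b (a (b (a (b (b (a (l 16710080) (l 16736400)) (a (l 16705184) (l 16710488))) (b (l 16723880) (l 16697944))) (b (a (b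 (l 16741768) (l 16736776)) (b (a (l 16744144) (b (l 16764600) (l 16764576))) (l 16742104))) (b (a (l 16710800) (l 16737048)) (a (l 16705768) (l 16711000))))) (b (a (c (l 16694568) (l 16686312)) (b (l 16724280) (l 16698216))) (a (l 16680424) (c (l 16694408) (l 16686600))))) (b (b (a (b (a (b (l 16766232) (l 16765296)) (l 16757864)) (a (c (l 16764320) (b (l 16765120) (l 16765152))) (l 16766176))) (a (l 520925823) (l 521053055))) (a (a (b (l 16742336) (l 16737208)) (b (b (l 16764944) (l 16759344)) (c (l 16764192) (l 16741720)))) (a (b (l 16766624) (a (l 16754208) (l 16765448))) (l 522504575)))) (b (a (b (a (l 16711088) (l 16716296)) (l 16729472)) (b (a (c (l 16763984) (l 16741656)) (l 16760392)) (a (l 16716248) (c (l 16763560) (l 16741312))))) (a (b (l 16724264) (l 16698056)) (c (l 16733424) (l 16730232)))))) (a (b (a (b (l 16670296) (l 16618136)) (b (l 16680208) (l 16669800))) (a (l 16644600) (a (l 16609720) (l 16656392)))) (b (b (a (l 16711136)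 (b (l 16702856) (l 16697488))) (a (l 16679576) (l 16710344))) (b (a (l 16626952) (l 16678536)) (c (l 16626912) (l 16614856))))))), by decide +kernel⟩

def k3_B05pp_022_s1 : ∃ t, chk3 f_B05pp_022_s1 t 17 16 1 = true :=
  ⟨(b (a (b (l 3) (a (b (l 3) (a (a (l 518109567) (l 3)) (l 3))) (l 3))) (l 3)) (b (a (a (a (b (b (l 521219967) (a (l 522633343) (l 522771071))) (b (b (l 523788415) (a (l 16765736) (l 16767648))) (b (a (b (l 16763408) (l 16761496)) (l 16764896)) (a (l 16736856) (l 16751080))))) (b (b (l 521208447) (a (l 522897535) (l 523019135))) (b (a (l 524077695) (l 523832703)) (a (l 16765448) (l 522571391))))) (b (a (b (l 3) (c (l 522576767) (l 523479423))) (l 3)) (a (b (l 523827071) (l 522537343)) (l 522717567)))) (a (b (l 3) (a (l 523440511) (l 3))) (l 3))) (a (a (b (a (a (b (l 16728672) (l 16696808)) (b (b (l 16746888) (l 16751984)) (l 16701840))) (b (a (b (l 16760744) (l 16746344)) (b (l 16721264) (l 16760056))) (a (l 16727976) (b (l 16745848)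 (l 16751568))))) (b (a (l 16709384) (b (l 16701520) (l 16696104))) (a (l 16677552) (l 16688016)))) (b (a (a (b (l 16764080) (b (l 16759496) (l 16755904))) (l 521044095)) (l 521111935)) (a (b (a (c (l 16708304) (l 16705600)) (b (l 16734536) (l 16751488))) (c (l 16700952) (l 16654944))) (b (b (l 16717824) (a (l 16713224) (l 16758032))) (a (b (l 16730424) (l 16746504)) (b (l 16754912) (l 16730360))))))) (a (b (a (l 521294719) (l 521573759)) (a (b (l 520293759) (l 16736648)) (c (l 520864895) (l 518685055)))) (b (a (b (l 3) (l 521762687)) (l 3)) (a (c (l 521488511) (l 520472959)) (l 521073279))))))), by decide +kernel⟩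

def k4_B05pp_022_s1 : ∃ t, chk3 f_B05pp_022_s1 t 16 17 1 = true :=
  ⟨(a (b (b (a (b (l 16600880) (l 16540880)) (b (a (l 16564240) (l 16572728)) (a (l 16628840) (l 16635728)))) (a (a (l 16512176) (l 16514048)) (b (a (l 16609648) (l 16614424)) (l 16508528)))) (b (a (l 16474632) (b (l 16572608) (l 16552744))) (a (l 16519264) (l 16440104)))) (b (b (a (b (a (l 16581720) (l 16590728)) (b (l 16570160) (l 16643280))) (b (a (l 16641880) (a (l 16606968) (l 16653776))) (a (l 16578208) (l 16587784)))) (b (a (l 16543240) (c (l 16656504) (l 16634024))) (a (l 16521600) (l 16540232)))) (b (a (a (l 16485432) (l 16494192)) (a (l 16503888) (l 16514616))) (a (b (l 16543128) (l 16524408)) (l 16469096))))), by decide +kernel⟩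

def k5_B05pp_022_s1 : ∃ t, chk3 f_B05pp_022_s1 t 17 17 1 = true :=
  ⟨(b (a (b (a (b (a (b (l 16624776) (l 16697888)) (b (l 16677272) (l 16624656))) (a (l 16639888) (l 16650736))) (b (b (a (l 16688320) (b (l 16728384) (l 16696904))) (a (l 16635848) (l 16689152))) (b (c (l 16635376) (l 16626960)) (b (l 16665456) (l 16618568))))) (a (b (a (l 16576800) (l 16587976)) (c (l 16656512) (l 16635224))) (b (b (l 16652888) (l 16600928)) (b (l 16591008) (l 16581112))))) (b (a (b (b (a (a (b (l 16730344) (l 16705320)) (b (l 16754592) (l 16709448))) (l 16736536)) (a (b (a (l 16742168) (l 16705728)) (l 16698056)) (a (b (l 16751592) (l 16706168)) (l 16711248)))) (b (a (l 16690552) (a (l 16699128) (a (l 16724264) (l 16747456)))) (a (l 16638688) (l 16692064)))) (a (b (l 520135551) (a (b (b (l 16751816) (l 16706608)) (l 16742192)) (b (l 16753040) (c (l 16705440) (l 16703552))))) (b (l 520792959) (b (l 16756848) (a (l 16707704) (l 16752400)))))) (b (a (c (l 16675672)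 (l 16667632)) (a (b (l 16692944) (l 16641200)) (b (b (a (l 16744688) (l 16747992)) (l 16721392)) (l 16693280)))) (a (b (l 16615008) (l 16605224)) (b (l 16689016) (l 16668792)))))) (b (a (a (b (l 16541776) (l 16605880)) (b (l 16566520) (l 16630880))) (a (b (l 16590576) (l 16571128)) (b (a (l 16607080) (l 16617296)) (l 16592944)))) (a (a (l 16492864) (l 16517872)) (a (a (l 16536216) (l 16547872)) (b (l 16573720) (l 16638496)))))), by decide +kernel⟩

def k6_B05pp_022_s1 : ∃ t, chk3 f_B05pp_022_s1 t 9 8 1 = true :=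
  ⟨(b (a (b (l 3) (b (l 3) (a (b (l 3) (a (b (l 3) (l 521110655)) (l 3))) (l 3)))) (l 3)) (a (b (a (b (a (l 520727935) (l 520873087)) (b (a (b (l 16732072) (a (b (l 16724752) (l 16721208)) (l 16749832))) (l 520559999)) (a (b (a (l 16714536) (b (l 16745256) (l 16720896))) (b (a (l 16728128) (l 16695992)) (l 16686296))) (b (l 16730768) (a (b (l 16744768) (l 16699528)) (l 16748552)))))) (b (a (l 521044607) (l 3)) (a (l 520655231) (l 520855679)))) (a (b (b (a (b (l 16679064) (l 16627496)) (b (a (a (l 16733224) (l 16695840)) (a (l 16699232) (l 16744120))) (a (l 16726080) (c (l 16694544) (l 16692376))))) (a (a (l 16608088) (l 16618056)) (b (l 16679464) (l 16628032)))) (b (a (l 16594024) (a (l 16608936) (l 16618720))) (a (l 16575064) (l 16595080)))) (a (b (b (b (l 16708520) (a (l 16721024) (l 16747328))) (b (a (b (l 16695328) (l 16691440)) (l 16741552)) (a (l 16726320) (a (l 16691384) (l 16694928))))) (b (b (l 16679760) (l 16628496)) (a (l 16609736)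 (l 16619344)))) (b (b (l 520771711) (b (l 16707312) (l 16722672))) (b (b (a (b (l 16736600) (l 16691184)) (l 16740744)) (a (l 16684600) (a (l 16691072) (l 16736216)))) (b (a (l 16717288) (l 16684696)) (l 16628920))))))) (b (a (b (l 3) (a (l 521083007) (l 3))) (l 3)) (a (a (b (l 521057407) (b (l 16724472) (b (a (a (l 16690840) (l 16735840)) (l 16739736)) (a (l 16684656) (b (l 16735464) (l 16732288)))))) (b (l 521218943) (b (l 521322367) (l 16723168)))) (b (l 519813247) (b (l 521526911) (a (l 521518207) (l 521662335)))))))), by decide +kernel⟩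

def k7_B05pp_022_s1 : ∃ t, chk3 f_B05pp_022_s1 t 5 8 1 = true :=
  ⟨(a (a (b (l 3) (b (l 3) (b (l 3) (a (a (b (l 521755007) (l 521805951)) (b (l 3) (l 521948799))) (l 3))))) (l 3)) (l 3)), by decide +kernel⟩

def k8_B05pp_022_s1 : ∃ t, chk3 f_B05pp_022_s1 t 8 9 1 = true :=
  ⟨(a (b (b (a (b (a (l 16479816) (l 16486912)) (l 16361968)) (b (a (l 16413528) (l 16430328)) (a (l 16462544) (l 16478160)))) (a (b (l 16409592) (l 16374560)) (b (l 16351984) (l 16401824)))) (b (a (l 16237920) (b (l 16368176) (l 16334672))) (a (l 16251776) (l 16200992)))) (b (b (a (b (a (l 16538136) (l 16479424)) (a (l 16499992) (l 16525352))) (b (a (l 16503920) (l 16526176)) (a (l 16550088) (l 16488760)))) (a (b (a (l 16462952) (l 16487952)) (a (l 16428968) (l 16451128))) (b (a (l 16512968) (l 16535848)) (l 16404464)))) (b (a (b (l 16323328) (l 16374552)) (b (l 16326472) (l 16334840))) (a (b (l 16342880) (l 16311120)) (b (l 16303560) (l 16356120)))))), by decide +kernel⟩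

def k9_B05pp_022_s1 : ∃ t, chk3 f_B05pp_022_s1 t 9 9 1 = true :=
  ⟨(b (b (a (b (a (a (b (l 16640128) (l 16621440)) (b (l 16576440) (l 16641840))) (b (a (l 16596160) (l 16667664)) (a (l 16577864) (l 16597104)))) (a (a (l 16509808) (l 16530504)) (b (a (l 16643568) (l 16579040)) (l 16572488)))) (b (b (a (a (b (a (l 16717432) (l 16684424)) (l 16628976)) (b (a (l 16712152) (l 16738352)) (a (l 16684016) (l 16711512)))) (a (l 16700656) (l 521713023))) (a (a (l 16657392) (b (a (l 16716944) (l 16683504)) (l 16628408))) (a (b (a (l 16689856) (l 16736840)) (a (l 16682920) (l 16689136))) (l 16720000)))) (a (b (a (l 16597488) (l 16656968)) (a (l 16663496) (l 16597256))) (b (a (b (a (l 16716000) (l 16682272)) (l 16627424)) (b (a (l 16688376) (l 16735224)) (a (l 16681560) (l 16729528)))) (a (l 16656128) (a (l 16626480) (b (l 16680792) (l 16714032)))))))) (a (a (b (a (l 16557280) (l 16494344)) (l 16448168)) (b (b (l 16533592) (l 16515776)) (a (l 16563096)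 (l 16498920)))) (b (a (b (a (l 16645720) (l 16663456)) (a (l 16628032) (l 16645864))) (b (a (l 16596608) (l 16655016)) (a (l 16663008) (l 16595688)))) (a (b (l 16535664) (l 16518224)) (b (b (l 16574504) (l 16565856)) (l 16552936)))))) (b (a (a (b (l 16413040) (l 16378280)) (b (l 16454248) (l 16419720))) (b (a (b (l 16584768) (l 16567544)) (a (l 16518632) (l 16535552))) (a (l 16458016) (l 16493328)))) (a (a (b (l 16343704) (l 16312112)) (b (l 16469600) (l 16436168))) (b (a (l 16424240) (l 16459840)) (a (l 16474864) (l 16510704)))))), by decide +kernel⟩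

def k10_B05pp_022_s1 : ∃ t, chk3 f_B05pp_022_s1 t 5 18 1 = true :=
  ⟨(b (a (a (b (a (a (a (l 521842559) (l 521914239)) (l 522018431)) (l 522223487)) (a (a (b (l 16697296) (b (a (l 16728696) (l 16733512)) (a (l 16679960) (l 16727832)))) (l 522118783)) (l 522055551))) (b (a (l 522507647) (l 3)) (a (l 522608255) (b (l 3) (a (l 522857599) (l 522997119)))))) (l 3)) (a (a (b (b (a (a (c (l 16672336) (l 16669760)) (b (a (l 16726928) (l 16731696)) (a (l 16720056) (l 16725992)))) (l 522407295)) (a (a (l 16611680) (c (l 16628512) (l 16625960))) (a (b (l 16706216) (l 16699920)) (l 16733472)))) (a (b (c (l 16605744) (l 16598952)) (l 16627288)) (b (a (l 16667032) (b (l 16683176) (l 16676744))) (c (l 16617496) (l 16613416))))) (a (b (b (a (l 522627455) (l 522768255)) (l 522741887)) (b (a (l 16689304) (l 16739336)) (a (c (l 16635856) (l 16635016)) (l 16686960)))) (b (a (b (l 522908287) (l 522958975)) (l 523066239)) (a (l 523026047) (l 523166335))))) (a (b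 (a (l 523269503) (l 523545983)) (a (l 523370111) (l 523647359))) (b (l 3) (a (l 523921791) (l 3)))))), by decide +kernel⟩

def k11_B05pp_022_s1 : ∃ t, chk3 f_B05pp_022_s1 t 5 19 1 = true :=
  ⟨(a (b (a (b (a (b (l 16568392) (l 16551536)) (b (l 16598760) (l 16582128))) (a (b (l 16618656) (l 16601992)) (b (l 16649464) (l 16633008)))) (b (b (a (a (l 16703896) (a (l 16630232) (l 16635864))) (a (l 16684496) (l 16734528))) (a (l 16652456) (a (c (l 16714616) (l 16629520)) (l 16681904)))) (a (a (l 16579016) (l 16592848)) (b (a (l 16698096) (l 16668944)) (l 16604728))))) (a (b (a (l 16493272) (l 16524576)) (a (l 16544432) (l 16576088))) (b (a (l 16553776) (a (l 16574240) (l 16587280))) (a (l 16521816) (l 16549408))))) (b (a (a (b (l 523469951) (b (a (l 16700104) (l 16729400)) (a (l 16623432) (c (l 16718424) (l 16633784))))) (b (l 523748223) (b (l 16719056) (a (l 16642560) (l 16733672))))) (b (l 524146303) (a (l 524124543) (l 524398463)))) (a (b (a (b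 (l 16697640) (l 16598224)) (b (a (c (l 16715264) (l 16630184)) (l 16702400)) (a (l 16699608) (l 16668840)))) (a (b (l 16666640) (l 16651232)) (c (l 16601760) (l 16595368)))) (a (b (b (l 16650248) (a (c (l 16720440) (l 16635752)) (l 16643736))) (b (a (l 16706328) (b (l 16719704) (l 16712896))) (l 16612896))) (b (l 524499327) (b (a (l 16682264) (l 16731048)) (a (l 16628016) (l 16720464)))))))), by decide +kernel⟩

def k12_B05pp_022_s1 : ∃ t, chk3 f_B05pp_022_s1 t 4 5 1 = true :=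
  ⟨(b (a (b (b (a (a (l 16182104) (l 16134312)) (a (b (l 16279408) (l 16247176)) (b (l 16325440) (l 16294336)))) (a (b (a (l 16129248) (l 16167464)) (b (l 16120048) (b (l 16105440) (b (l 16013120) (l 16092184))))) (b (a (l 16214120) (l 16262352)) (b (a (l 16188208) (l 16237216)) (a (b (l 16173816) (l 16163896)) (b (l 16223184) (l 16213488))))))) (a (a (b (l 16041792) (l 15984416)) (b (l 16082696) (l 16027672))) (a (b (l 16132000) (l 16079232)) (b (l 16182832) (l 16132224))))) (b (b (a (b (a (l 16365608) (l 16403936)) (a (l 16335216) (l 16374272))) (b (a (l 16442176) (l 16478192)) (a (l 16410640) (l 16446240)))) (b (a (a (l 16304288) (l 16343816)) (b (l 16322576) (l 16307912))) (b (a (l 16216624) (l 16375896)) (a (b (l 16286992) (l 16193768)) (b (l 16363096) (l 16270344)))))) (a (b (a (l 16227304) (l 16269312)) (l 16033576)) (b (a (l 16308600) (l 16345352)) (l 16283792))))) (a (b (a (b (l 15868168) (l 15901672)) (a (l 15837936) (l 15977864)))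 (a (b (l 15854040) (l 15809072)) (b (l 15882136) (l 15924768)))) (a (b (b (l 16156336) (l 16113776)) (l 15970984)) (b (b (l 16242280) (l 16203040)) (l 16063376))))), by decide +kernel⟩

def k13_B05pp_022_s1 : ∃ t, chk3 f_B05pp_022_s1 t 5 5 1 = true :=
  ⟨(b (b (b (a (a (b (a (l 16512152) (l 16544096)) (l 16412968)) (b (a (l 16574064) (l 16602080)) (a (l 16542736) (l 16571104)))) (a (b (a (l 16544280) (l 16568456)) (b (l 16534144) (l 16519040))) (b (a (b (l 16682048) (l 16667328)) (b (l 16702256) (l 16687904))) (a (l 16561280) (l 16582352))))) (a (b (a (a (l 16448888) (l 16481128)) (a (l 16511520) (l 16540128))) (a (b (l 16359000) (b (l 16347048) (l 16422040))) (b (l 16503128) (b (l 16406984) (a (l 16468392) (l 16413880)))))) (b (a (b (l 16503920) (l 16572584)) (b (l 16550448) (l 16535688))) (a (b (l 16556976) (b (l 16544664) (a (l 16440312) (l 16549544)))) (b (l 16520424) (b (l 16592064) (a (l 16572976) (l 16595136)))))))) (a (a (b (l 16313528)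 (l 16356856)) (b (a (l 16444968) (l 16474592)) (l 16337800))) (a (b (l 16431344) (l 16478688)) (b (l 16479744) (l 16528872))))) (a (a (b (b (l 16318304) (l 16280384)) (l 16226816)) (b (l 16199128) (l 16297544))) (b (a (l 16342712) (l 16395368)) (a (l 16360512) (l 16415864))))), by decide +kernel⟩

def k14_B05pp_022_s1 : ∃ t, chk3 f_B05pp_022_s1 t 2 3 1 = true :=
  ⟨(b (b (a (a (a (b (b (l 15766664) (l 15726712)) (l 15671776)) (b (l 15700072) (l 15713768))) (b (a (l 15981736) (l 16076144)) (a (l 15912200) (l 16009616)))) (a (a (b (l 16158752) (l 16095520)) (b (l 16232856) (l 16172392))) (b (a (l 16298552) (l 16355904)) (l 16061896)))) (b (a (a (l 6) (l 15732504)) (a (l 15826808) (a (l 16184688) (l 2)))) (a (l 6) (l 6)))) (l 6)), by decide +kernel⟩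

def k15_B05pp_022_s1 : ∃ t, chk3 f_B05pp_022_s1 t 3 4 1 = true :=
  ⟨(b (l 3) (a (b (l 3) (b (a (a (b (a (l 524566143) (l 3)) (l 524792703)) (l 3)) (l 3)) (a (a (a (b (l 524772223) (b (l 16698232) (a (l 16643640) (l 16733760)))) (b (l 525042303) (l 525144447))) (b (l 525432447) (l 525537919))) (b (l 3) (a (l 526067071) (l 3)))))) (l 3))), by decide +kernel⟩

def k16_B05pp_022_s1 : ∃ t, chk3 f_B05pp_022_s1 t 3 5 1 = true :=
  ⟨(a (a (b (b (b (a (b (a (b (a (l 16716128) (l 16723696)) (l 16706608)) (b (c (l 16649328) (l 16690912)) (a (l 16719280) (l 16726176)))) (a (b (l 16692648) (l 16678640)) (b (l 16709936) (l 16696368)))) (a (b (b (l 16702128) (c (l 16651184) (l 16650840))) (b (a (l 16721584) (l 16728008)) (l 16712336))) (b (l 525783679) (b (c (l 16652504) (l 16652152)) (b (l 16729040) (l 16723432)))))) (b (a (b (a (l 16664552) (l 16682688)) (l 16576016)) (b (a (l 16699144) (l 16713912)) (a (l 16685728) (l 16701040)))) (b (a (a (l 16635448)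 (l 16654368)) (a (l 16671736) (l 16687584))) (a (b (l 16549496) (a (l 16615856) (l 16635136))) (a (b (l 16660344) (l 16653008)) (b (l 16676600) (l 16669480))))))) (a (b (a (l 16595664) (l 16615384)) (l 16572776)) (b (b (l 16566544) (l 16634288)) (l 16610552)))) (b (a (l 16441216) (l 16480368)) (a (l 16463680) (l 16504000)))) (b (b (b (b (a (l 526174591) (l 526698623)) (b (a (l 526273919) (l 526796927)) (a (a (a (l 16650680) (l 16739456)) (l 16746192)) (l 526854527)))) (b (a (b (a (b (l 16729784) (l 16723976)) (b (l 16739656) (l 16735008))) (a (l 16714744) (b (l 16729784) (l 16723944)))) (b (l 526911103) (a (b (l 16739400) (l 16734560)) (l 2)))) (a (a (b (l 16701928) (b (l 16691432) (l 16642640))) (b (l 16714760) (b (l 16704864) (a (l 16694984) (l 16701528))))) (a (b (l 95663541463) (b (l 16716896) (l 58619417847))) (l 2))))) (a (b (b (l 16639160) (l 16665456)) (l 16642304)) (b (b (l 73651752711) (l 2)) (l 2)))) (b (a (l 16512880) (l 2)) (l 2))))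 (b (b (b (b (b (l 3) (l 2)) (l 2)) (l 2)) (l 2)) (l 2))), by decide +kernel⟩

def k17_B05pp_022_s1 : ∃ t, chk3 f_B05pp_022_s1 t 3 3 1 = true :=
  ⟨(a (b (b (a (b (a (l 16404944) (l 2)) (l 2)) (l 2)) (l 2)) (l 2)) (l 2)), by decide +kernel⟩

theorem t18_B05pp_022_s1 : ∃ t, chk3 f_B05pp_022_s1 t 3 2 1 = true := ex3_b k15_B05pp_022_s1 k16_B05pp_022_s1

theorem t19_B05pp_022_s1 : ∃ t, chk3 f_B05pp_022_s1 t 3 1 1 = true := ex3_b t18_B05pp_022_s1 k17_B05pp_022_s1

theorem t20_B05pp_022_s1 : ∃ t, chk3 f_B05pp_022_s1 t 2 5 1 = true := ex3_a k12_B05pp_022_s1 k13_B05pp_022_s1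

theorem t21_B05pp_022_s1 : ∃ t, chk3 f_B05pp_022_s1 t 5 9 1 = true := ex3_b k10_B05pp_022_s1 k11_B05pp_022_s1

theorem t22_B05pp_022_s1 : ∃ t, chk3 f_B05pp_022_s1 t 4 9 1 = true := ex3_a k8_B05pp_022_s1 k9_B05pp_022_s1

theorem t23_B05pp_022_s1 : ∃ t, chk3 f_B05pp_022_s1 t 2 9 1 = true := ex3_a t22_B05pp_022_s1 t21_B05pp_022_s1

theorem t24_B05pp_022_s1 : ∃ t, chk3 f_B05pp_022_s1 t 8 17 1 = true := ex3_a k4_B05pp_022_s1 k5_B05pp_022_s1

theorem t25_B05pp_022_s1 : ∃ t, chk3 f_B05pp_022_s1 t 16 32 1 = true := ex3_a k0_B05pp_022_s1 k1_B05pp_022_s1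

theorem t26_B05pp_022_s1 : ∃ t, chk3 f_B05pp_022_s1 t 16 16 1 = true := ex3_b t25_B05pp_022_s1 k2_B05pp_022_s1

theorem t27_B05pp_022_s1 : ∃ t, chk3 f_B05pp_022_s1 t 8 16 1 = true := ex3_a t26_B05pp_022_s1 k3_B05pp_022_s1

theorem t28_B05pp_022_s1 : ∃ t, chk3 f_B05pp_022_s1 t 8 8 1 = true := ex3_b t27_B05pp_022_s1 t24_B05pp_022_s1

theorem t29_B05pp_022_s1 : ∃ t, chk3 f_B05pp_022_s1 t 4 8 1 = true := ex3_a t28_B05pp_022_s1 k6_B05pp_022_s1

theorem t30_B05pp_022_s1 : ∃ t, chk3 f_B05pp_022_s1 t 2 8 1 = true := ex3_a t29_B05pp_022_s1 k7_B05pp_022_s1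

theorem t31_B05pp_022_s1 : ∃ t, chk3 f_B05pp_022_s1 t 2 4 1 = true := ex3_b t30_B05pp_022_s1 t23_B05pp_022_s1

theorem t32_B05pp_022_s1 : ∃ t, chk3 f_B05pp_022_s1 t 2 2 1 = true := ex3_b t31_B05pp_022_s1 t20_B05pp_022_s1

theorem t33_B05pp_022_s1 : ∃ t, chk3 f_B05pp_022_s1 t 2 1 1 = true := ex3_b t32_B05pp_022_s1 k14_B05pp_022_s1

theorem t34_B05pp_022_s1 : ∃ t, chk3 f_B05pp_022_s1 t 1 1 1 = true := ex3_a t33_B05pp_022_s1 t19_B05pp_022_s1

theorem c_B05pp_022_s1 : CertF 0 536870912 1073741824 536870912 1020054732 13421774 false true true .pp 0 2 2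
    ndB0q0 ndB5q2 pcB2 cut_B05pp_022_s1 xt_B05pp_022_s1 :=
  certF1 (fam := false) (s1 := true) (s2 := true) (a := 0) (b := 2) (c := 2) (cn := .pp) (n1 := ndB0q0) (n2 := ndB5q2) (pc := pcB2) (cut := cut_B05pp_022_s1) (xt := xt_B05pp_022_s1) (P1 := 0) (W1 := 536870912) (P2 := 1073741824) (W2 := 536870912) (P3 := 1020054732) (W3 := 13421774)
    rfl (fun _ => rfl) t34_B05pp_022_s1

theorem s_B05pp_022_s1 {κ x : ℝ} (hκ : κ * h0 = ken x) (hx : ((1020054732 : ℕ) : ℝ) / S ≤ x)
    (hx' : x ≤ (((1020054732 : ℕ) : ℝ) + (13421774 : ℕ)) / S)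
    (H : CutB (VFD κ) PP tK tL pcB (Cut.of [[⟨0, 0, 0, 26843545⟩, ⟨1, 1, 0, 26843545⟩, ⟨2, 1, 0, 26843545⟩]]) 0 2 2 0 5 (sgb true) (sgb true) x) :
    AltB (VFD κ) PP tK tL pcB [⟨3, 0, 0, 1449551462⟩] 0 2 2 0 5 (sgb true) (sgb true) x :=
  strip_altBD (m := 1449551462) true rfl hκ (SH.κ0 hκ (SH.hx1 hx).le (SH.hx2 hx').le) (SH.hx1 hx).le (SH.hx2 hx') (covB00).cov (covB52).cov hx hx' c_B05pp_022_s1 H ((okx hx hx').extB (T := tt) (sideB hx hx') hκ rfl rfl (.O 0 true) (.N 2 true) rfl)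

noncomputable def cut_B05pp_023_s1 : Cut := Cut.of [[⟨4, 0, 0, 1449551462⟩]]

noncomputable def xt_B05pp_023_s1 : Ext := strExt dd false true true .u0 .s2 .u2 .up 0 2 3 rfl rfl gf2 vv ndB0q0 ndB5q3

noncomputable def f_B05pp_023_s1 : ℕ → ℕ → ℕ → ℕ → Bool := onCell 1073741824 536870912 0 1230186008 1020054732 13421774
    (rowF 2 false true true .up 0 2 3 (qsf 0 536870912 0 1230186008 2) ndB0q0 ndB5q3 pcB2 cut_B05pp_023_s1 xt_B05pp_023_s1)

def k0_B05pp_023_s1 : ∃ t, chk3 f_B05pp_023_s1 t 1 2 1 = true :=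
  ⟨(a (l 2) (a (l 2) (l 6))), by decide +kernel⟩

def k1_B05pp_023_s1 : ∃ t, chk3 f_B05pp_023_s1 t 4 3 1 = true :=
  ⟨(b (l 2) (b (l 2) (l 3))), by decide +kernel⟩

def k2_B05pp_023_s1 : ∃ t, chk3 f_B05pp_023_s1 t 5 6 1 = true :=
  ⟨(a (l 2) (b (l 2) (a (l 2) (b (l 2) (l 16555704))))), by decide +kernel⟩

def k3_B05pp_023_s1 : ∃ t, chk3 f_B05pp_023_s1 t 10 14 1 = true :=
  ⟨(b (a (l 2) (a (l 2) (l 530321519))) (a (a (l 3) (a (l 3) (b (l 2) (a (a (b (l 3) (l 529128063)) (b (a (l 529323135) (l 529317503)) (l 529101839))) (b (a (a (l 529321087) (l 529324607)) (l 28017913767)) (b (a (l 16771432) (l 16767264)) (l 16757400))))))) (a (b (a (b (l 2) (l 429597319319)) (l 16662584)) (a (b (l 16737992) (l 16714056)) (l 16656896))) (b (l 16722584) (l 16715592))))), by decide +kernel⟩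

def k4_B05pp_023_s1 : ∃ t, chk3 f_B05pp_023_s1 t 20 30 1 = true :=
  ⟨(a (l 3) (b (a (a (l 3) (b (a (l 3) (l 528614527)) (l 528674943))) (a (a (b (l 528899455) (l 528661887)) (a (b (l 528883327) (l 528644623)) (l 528761471))) (a (b (a (l 16758136) (l 16766472)) (l 16721840)) (b (a (a (a (l 16765136) (a (l 16764728) (b (l 16765352) (a (a (l 16763752) (l 16763824)) (l 16763808))))) (l 16763952)) (l 16762328)) (a (a (a (b (l 16762344) (l 16760368)) (a (b (l 16762072) (l 16760328)) (a (a (l 16761424) (l 16761624)) (l 16761624)))) (l 16761000)) (l 16759336)))))) (a (a (b (l 3) (l 527882879)) (b (l 528424575) (l 527877391))) (a (b (a (l 528146559) (l 16753392)) (a (l 527889535) (l 16716904))) (a (b (a (l 16760488) (a (l 16758800) (a (l 16758000) (l 16757584)))) (a (b (l 16756744) (l 16754024)) (a (l 16753816) (l 16752968)))) (b (a (a (a (l 16752112) (a (l 16757368) (l 16757384))) (l 16756800)) (l 16755112)) (a (a (a (l 16752376) (a (l 16752064) (l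 16751832))) (l 16751120)) (l 16749408)))))))), by decide +kernel⟩

def k5_B05pp_023_s1 : ∃ t, chk3 f_B05pp_023_s1 t 20 31 1 = true :=
  ⟨(a (b (a (l 3) (a (l 3) (b (l 527884159) (l 527615103)))) (a (b (l 3) (l 527047551)) (b (l 527331199) (l 527048463)))) (a (b (a (b (l 527620223) (l 527615615)) (b (l 527617039) (l 527345935))) (a (b (l 527331199) (l 527035519)) (b (l 527331855) (a (l 16745560) (b (l 16742512) (l 16737752)))))) (a (b (a (b (l 16715848) (l 16751240)) (b (b (l 16754576) (l 16751472)) (b (l 16748120) (l 16744432)))) (b (a (b (l 16745680) (l 16741504)) (b (l 16740264) (l 16735496))) (a (b (l 16736760) (l 16731280)) (l 16727336)))) (b (b (a (a (b (l 16751128) (l 16747968)) (l 16747328)) (b (c (l 16745752) (l 16734600)) (c (l 16742064) (l 16741024)))) (a (a (l 16742392) (l 16739456)) (c (l 16714832) (b (l 16736496) (l 16731488))))) (b (a (l 16731352) (a (b (l 16718160) (l 16723016)) (l 16722704))) (a (l 16719792) (b (l 16715584) (l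 16708920)))))))), by decide +kernel⟩

def k6_B05pp_023_s1 : ∃ t, chk3 f_B05pp_023_s1 t 21 15 1 = true :=
  ⟨(b (b (a (b (a (a (l 16756920) (l 16748232)) (l 16735192)) (a (l 16707328) (l 16731224))) (b (l 16708920) (l 16703920))) (a (b (a (l 16744888) (l 16726456)) (l 16687584)) (l 16694848))) (b (a (b (l 16679784) (l 16628288)) (l 16592912)) (a (b (l 16616856) (l 16603400)) (l 16566856)))), by decide +kernel⟩

def k7_B05pp_023_s1 : ∃ t, chk3 f_B05pp_023_s1 t 11 7 1 = true :=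
  ⟨(b (b (a (l 530411631) (l 16624320)) (a (b (l 16674264) (l 16664336)) (l 16516624))) (b (b (a (l 16567928) (l 16576120)) (a (l 16552360) (l 16554856))) (a (b (l 16530008) (l 16498592)) (b (l 16525888) (l 16486440))))), by decide +kernel⟩

def k8_B05pp_023_s1 : ∃ t, chk3 f_B05pp_023_s1 t 3 3 1 = true :=
  ⟨(a (b (b (a (l 2) (b (a (l 2) (l 6)) (l 16423552))) (a (b (l 16386472) (a (l 16584496) (l 16526272))) (b (l 16353968) (l 16345792)))) (b (b (a (l 16445120) (l 16387568)) (a (l 16322336) (l 16324904))) (b (a (b (l 16453392) (l 16338752)) (b (l 16268656) (l 16223928))) (a (b (l 16214616) (l 16161176)) (b (l 16083312) (l 16007848)))))) (l 6)), by decide +kernel⟩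

theorem t9_B05pp_023_s1 : ∃ t, chk3 f_B05pp_023_s1 t 20 15 1 = true := ex3_b k4_B05pp_023_s1 k5_B05pp_023_s1

theorem t10_B05pp_023_s1 : ∃ t, chk3 f_B05pp_023_s1 t 10 15 1 = true := ex3_a t9_B05pp_023_s1 k6_B05pp_023_s1

theorem t11_B05pp_023_s1 : ∃ t, chk3 f_B05pp_023_s1 t 10 7 1 = true := ex3_b k3_B05pp_023_s1 t10_B05pp_023_s1

theorem t12_B05pp_023_s1 : ∃ t, chk3 f_B05pp_023_s1 t 5 7 1 = true := ex3_a t11_B05pp_023_s1 k7_B05pp_023_s1

theorem t13_B05pp_023_s1 : ∃ t, chk3 f_B05pp_023_s1 t 5 3 1 = true := ex3_b k2_B05pp_023_s1 t12_B05pp_023_s1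

theorem t14_B05pp_023_s1 : ∃ t, chk3 f_B05pp_023_s1 t 2 3 1 = true := ex3_a k1_B05pp_023_s1 t13_B05pp_023_s1

theorem t15_B05pp_023_s1 : ∃ t, chk3 f_B05pp_023_s1 t 1 3 1 = true := ex3_a t14_B05pp_023_s1 k8_B05pp_023_s1

theorem t16_B05pp_023_s1 : ∃ t, chk3 f_B05pp_023_s1 t 1 1 1 = true := ex3_b k0_B05pp_023_s1 t15_B05pp_023_s1

theorem c_B05pp_023_s1 : CertF 0 536870912 0 1230186008 1020054732 13421774 false true true .up 0 2 3
    ndB0q0 ndB5q3 pcB2 cut_B05pp_023_s1 xt_B05pp_023_s1 :=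
  certF2 (fam := false) (s1 := true) (s2 := true) (a := 0) (b := 2) (c := 3) (cn := .up) (n1 := ndB0q0) (n2 := ndB5q3) (pc := pcB2) (cut := cut_B05pp_023_s1) (xt := xt_B05pp_023_s1) (P1 := 0) (W1 := 536870912) (P2 := 0) (W2 := 1230186008) (P3 := 1020054732) (W3 := 13421774)
    rfl (fun _ => rfl) t16_B05pp_023_s1

theorem s_B05pp_023_s1 {κ x : ℝ} (hκ : κ * h0 = ken x) (hx : ((1020054732 : ℕ) : ℝ) / S ≤ x)
    (hx' : x ≤ (((1020054732 : ℕ) : ℝ) + (13421774 : ℕ)) / S) :
    AltB (VFD κ) PP tK tL pcB [⟨3, 0, 0, 1449551462⟩] 0 2 3 0 5 (sgb true) (sgb true) x :=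
  strip_altBD (m := 1449551462) true rfl hκ (SH.κ0 hκ (SH.hx1 hx).le (SH.hx2 hx').le) (SH.hx1 hx).le (SH.hx2 hx') (covB00).cov (covB53).cov hx hx' c_B05pp_023_s1 cutB_nil ((okx hx hx').extB (T := tt) (sideB hx hx') hκ rfl rfl (.O 0 true) (.N 3 true) rfl)

noncomputable def cut_B05pp_033_s1 : Cut := Cut.of [[⟨4, 0, 0, 1449551462⟩]]

noncomputable def f_B05pp_033_s1 : ℕ → ℕ → ℕ → ℕ → Bool := onCell 1610612736 536870912 0 1230186008 1020054732 13421774
    (rowF 2 false true true .pnn 0 3 3 (qsf 0 536870912 0 1230186008 3) ndB0q0 ndB5q3 pcB3 cut_B05pp_033_s1 Ext.none)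

def k0_B05pp_033_s1 : ∃ t, chk3 f_B05pp_033_s1 t 1 1 1 = true :=
  ⟨(b (l 6) (l 6)), by decide +kernel⟩

theorem c_B05pp_033_s1 : CertF 0 536870912 0 1230186008 1020054732 13421774 false true true .pnn 0 3 3
    ndB0q0 ndB5q3 pcB3 cut_B05pp_033_s1 Ext.none :=
  certF2 (fam := false) (s1 := true) (s2 := true) (a := 0) (b := 3) (c := 3) (cn := .pnn) (n1 := ndB0q0) (n2 := ndB5q3) (pc := pcB3) (cut := cut_B05pp_033_s1) (xt := Ext.none) (P1 := 0) (W1 := 536870912) (P2 := 0) (W2 := 1230186008) (P3 := 1020054732) (W3 := 13421774)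
    rfl (fun _ => rfl) k0_B05pp_033_s1

theorem s_B05pp_033_s1 {κ x : ℝ} (hκ : κ * h0 = ken x) (hx : ((1020054732 : ℕ) : ℝ) / S ≤ x)
    (hx' : x ≤ (((1020054732 : ℕ) : ℝ) + (13421774 : ℕ)) / S) :
    AltB (VFD κ) PP tK tL pcB [⟨3, 0, 0, 1449551462⟩] 0 3 3 0 5 (sgb true) (sgb true) x :=
  strip_altBD (m := 1449551462) true rfl hκ (SH.κ0 hκ (SH.hx1 hx).le (SH.hx2 hx').le) (SH.hx1 hx).le (SH.hx2 hx') (covB00).cov (covB53).cov hx hx' c_B05pp_033_s1 cutB_nil (noExt_B)

noncomputable def cut_B05pp_101_s1 : Cut := Cut.of [[⟨4, 0, 0, 1449551462⟩]]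

noncomputable def f_B05pp_101_s1 : ℕ → ℕ → ℕ → ℕ → Bool := onCell 536870912 536870912 536870912 536870912 1020054732 13421774
    (rowF 0 false true true .npn 1 0 1 (qsf 536870912 536870912 536870912 536870912 0) ndB0q1 ndB5q1 pcB0 cut_B05pp_101_s1 Ext.none)

def k0_B05pp_101_s1 : ∃ t, chk3 f_B05pp_101_s1 t 1 1 1 = true :=
  ⟨(a (l 3) (l 5)), by decide +kernel⟩

theorem c_B05pp_101_s1 : CertF 536870912 536870912 536870912 536870912 1020054732 13421774 false true true .npn 1 0 1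
    ndB0q1 ndB5q1 pcB0 cut_B05pp_101_s1 Ext.none :=
  certF0 (fam := false) (s1 := true) (s2 := true) (a := 1) (b := 0) (c := 1) (cn := .npn) (n1 := ndB0q1) (n2 := ndB5q1) (pc := pcB0) (cut := cut_B05pp_101_s1) (xt := Ext.none) (P1 := 536870912) (W1 := 536870912) (P2 := 536870912) (W2 := 536870912) (P3 := 1020054732) (W3 := 13421774)
    rfl k0_B05pp_101_s1

theorem s_B05pp_101_s1 {κ x : ℝ} (hκ : κ * h0 = ken x) (hx : ((1020054732 : ℕ) : ℝ) / S ≤ x)
    (hx' : x ≤ (((1020054732 : ℕ) : ℝ) + (13421774 : ℕ)) / S) :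
    AltB (VFD κ) PP tK tL pcB [⟨3, 0, 0, 1449551462⟩] 1 0 1 0 5 (sgb true) (sgb true) x :=
  strip_altBD (m := 1449551462) true rfl hκ (SH.κ0 hκ (SH.hx1 hx).le (SH.hx2 hx').le) (SH.hx1 hx).le (SH.hx2 hx') (covB01).cov (covB51).cov hx hx' c_B05pp_101_s1 cutB_nil (noExt_B)

noncomputable def cut_B05pp_102_s1 : Cut := Cut.of [[⟨4, 0, 0, 1449551462⟩]]

noncomputable def f_B05pp_102_s1 : ℕ → ℕ → ℕ → ℕ → Bool := onCell 536870912 536870912 1073741824 536870912 1020054732 13421774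
    (rowF 0 false true true .npp 1 0 2 (qsf 536870912 536870912 1073741824 536870912 0) ndB0q1 ndB5q2 pcB0 cut_B05pp_102_s1 Ext.none)

def k0_B05pp_102_s1 : ∃ t, chk3 f_B05pp_102_s1 t 1 1 1 = true :=
  ⟨(a (l 3) (b (l 5) (l 3))), by decide +kernel⟩

theorem c_B05pp_102_s1 : CertF 536870912 536870912 1073741824 536870912 1020054732 13421774 false true true .npp 1 0 2
    ndB0q1 ndB5q2 pcB0 cut_B05pp_102_s1 Ext.none :=
  certF0 (fam := false) (s1 := true) (s2 := true) (a := 1) (b := 0) (c := 2) (cn := .npp) (n1 := ndB0q1) (n2 := ndB5q2) (pc := pcB0) (cut := cut_B05pp_102_s1) (xt := Ext.none) (P1 := 536870912) (W1 := 536870912) (P2 := 1073741824) (W2 := 536870912) (P3 := 1020054732) (W3 := 13421774)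
    rfl k0_B05pp_102_s1

theorem s_B05pp_102_s1 {κ x : ℝ} (hκ : κ * h0 = ken x) (hx : ((1020054732 : ℕ) : ℝ) / S ≤ x)
    (hx' : x ≤ (((1020054732 : ℕ) : ℝ) + (13421774 : ℕ)) / S) :
    AltB (VFD κ) PP tK tL pcB [⟨3, 0, 0, 1449551462⟩] 1 0 2 0 5 (sgb true) (sgb true) x :=
  strip_altBD (m := 1449551462) true rfl hκ (SH.κ0 hκ (SH.hx1 hx).le (SH.hx2 hx').le) (SH.hx1 hx).le (SH.hx2 hx') (covB01).cov (covB52).cov hx hx' c_B05pp_102_s1 cutB_nil (noExt_B)

noncomputable def cut_B05pp_112_s1 : Cut := Cut.of [[⟨4, 0, 0, 1449551462⟩]]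

noncomputable def f_B05pp_112_s1 : ℕ → ℕ → ℕ → ℕ → Bool := onCell 536870912 536870912 1073741824 536870912 1020054732 13421774
    (rowF 0 false true true .dn 1 1 2 (qsf 536870912 536870912 1073741824 536870912 1) ndB0q1 ndB5q2 pcB1 cut_B05pp_112_s1 Ext.none)

def k0_B05pp_112_s1 : ∃ t, chk3 f_B05pp_112_s1 t 1 1 1 = true :=
  ⟨(a (l 3) (b (l 5) (l 3))), by decide +kernel⟩

theorem c_B05pp_112_s1 : CertF 536870912 536870912 1073741824 536870912 1020054732 13421774 false true true .dn 1 1 2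
    ndB0q1 ndB5q2 pcB1 cut_B05pp_112_s1 Ext.none :=
  certF0 (fam := false) (s1 := true) (s2 := true) (a := 1) (b := 1) (c := 2) (cn := .dn) (n1 := ndB0q1) (n2 := ndB5q2) (pc := pcB1) (cut := cut_B05pp_112_s1) (xt := Ext.none) (P1 := 536870912) (W1 := 536870912) (P2 := 1073741824) (W2 := 536870912) (P3 := 1020054732) (W3 := 13421774)
    rfl k0_B05pp_112_s1

theorem s_B05pp_112_s1 {κ x : ℝ} (hκ : κ * h0 = ken x) (hx : ((1020054732 : ℕ) : ℝ) / S ≤ x)
    (hx' : x ≤ (((1020054732 : ℕ) : ℝ) + (13421774 : ℕ)) / S) :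
    AltB (VFD κ) PP tK tL pcB [⟨3, 0, 0, 1449551462⟩] 1 1 2 0 5 (sgb true) (sgb true) x :=
  strip_altBD (m := 1449551462) true rfl hκ (SH.κ0 hκ (SH.hx1 hx).le (SH.hx2 hx').le) (SH.hx1 hx).le (SH.hx2 hx') (covB01).cov (covB52).cov hx hx' c_B05pp_112_s1 cutB_nil (noExt_B)

noncomputable def cut_B05pp_113_s1 : Cut := Cut.of [[⟨4, 0, 0, 1449551462⟩], [⟨0, 1, 0, 26738688⟩, ⟨1, 1, 0, 26738688⟩, ⟨2, 2, 0, 2621440⟩]]

noncomputable def f_B05pp_113_s1 : ℕ → ℕ → ℕ → ℕ → Bool := onCell 536870912 536870912 0 1230186008 1020054732 13421774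
    (rowF 2 false true true .nn 1 1 3 (qsf 536870912 536870912 0 1230186008 1) ndB0q1 ndB5q3 pcB1 cut_B05pp_113_s1 Ext.none)

def k0_B05pp_113_s1 : ∃ t, chk3 f_B05pp_113_s1 t 1 1 1 = true :=
  ⟨(b (a (l 2) (a (l 2) (b (a (l 2) (b (a (l 2) (b (a (l 2) (l 14)) (l 3))) (l 3))) (l 3)))) (a (a (b (l 2) (b (l 2) (l 3))) (b (a (l 2) (b (l 2) (l 3))) (l 3))) (b (a (l 3) (l 3)) (l 3)))), by decide +kernel⟩

theorem c_B05pp_113_s1 : CertF 536870912 536870912 0 1230186008 1020054732 13421774 false true true .nn 1 1 3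
    ndB0q1 ndB5q3 pcB1 cut_B05pp_113_s1 Ext.none :=
  certF2 (fam := false) (s1 := true) (s2 := true) (a := 1) (b := 1) (c := 3) (cn := .nn) (n1 := ndB0q1) (n2 := ndB5q3) (pc := pcB1) (cut := cut_B05pp_113_s1) (xt := Ext.none) (P1 := 536870912) (W1 := 536870912) (P2 := 0) (W2 := 1230186008) (P3 := 1020054732) (W3 := 13421774)
    rfl (fun _ => rfl) k0_B05pp_113_s1

theorem s_B05pp_113_s1 {κ x : ℝ} (hκ : κ * h0 = ken x) (hx : ((1020054732 : ℕ) : ℝ) / S ≤ x)
    (hx' : x ≤ (((1020054732 : ℕ) : ℝ) + (13421774 : ℕ)) / S)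
    (H : CutB (VFD κ) PP tK tL pcB (Cut.of [[⟨0, 1, 0, 26738688⟩, ⟨1, 1, 0, 26738688⟩, ⟨2, 2, 0, 2621440⟩]]) 1 1 3 0 5 (sgb true) (sgb true) x) :
    AltB (VFD κ) PP tK tL pcB [⟨3, 0, 0, 1449551462⟩] 1 1 3 0 5 (sgb true) (sgb true) x :=
  strip_altBD (m := 1449551462) true rfl hκ (SH.κ0 hκ (SH.hx1 hx).le (SH.hx2 hx').le) (SH.hx1 hx).le (SH.hx2 hx') (covB01).cov (covB53).cov hx hx' c_B05pp_113_s1 H (noExt_B)

end Pool.Agent.Strip051.G.I9500_9625.Tab.St.C
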