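import Pool.Agent.Strip051.G.I9500_9625.StH
import Pool.Agent.Strip051.G.I9500_9625.StF

/-! # Unit strips 8 (generated) -/

set_option linter.all false
set_option maxRecDepth 100000

namespace Pool.Agent.Strip051.G.I9500_9625.Tab.St.C

open Pool.Agent.Strip051.PB Pool.Agent.Strip051.PB.T Pool.Agent.StripNear Pool.Agent.Strip051.LC
open Pool.Agent.Strip051.G.I9500_9625.Tab Pool.Agent.Strip051.G.I9500_9625.Tab.St

noncomputable def cut_A00mm_001_s1 : Cut := Cut.of [[⟨4, 0, 0, 1449551462⟩]]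

noncomputable def f_A00mm_001_s1 : ℕ → ℕ → ℕ → ℕ → Bool := onCell 0 536870912 0 536870912 1020054732 13421774
    (rowF 0 true false false .up 0 0 1 (qsf 0 536870912 0 536870912 1) ndB0q0 ndB0q0 pcB1 cut_A00mm_001_s1 Ext.none)

def k0_A00mm_001_s1 : ∃ t, chk3 f_A00mm_001_s1 t 1 1 1 = true :=
  ⟨(l 4), by decide +kernel⟩

theorem c_A00mm_001_s1 : CertF 0 536870912 0 536870912 1020054732 13421774 true false false .up 0 0 1
    ndB0q0 ndB0q0 pcB1 cut_A00mm_001_s1 Ext.none :=
  certF0 (fam := true) (s1 := false) (s2 := false) (a := 0) (b := 0) (c := 1) (cn := .up) (n1 := ndB0q0) (n2 := ndB0q0) (pc := pcB1) (cut := cut_A00mm_001_s1) (xt := Ext.none) (P1 := 0) (W1 := 536870912) (P2 := 0) (W2 := 536870912) (P3 := 1020054732) (W3 := 13421774)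
    rfl k0_A00mm_001_s1

theorem s_A00mm_001_s1 {κ x : ℝ} (hκ : κ * h0 = ken x) (hx : ((1020054732 : ℕ) : ℝ) / S ≤ x)
    (hx' : x ≤ (((1020054732 : ℕ) : ℝ) + (13421774 : ℕ)) / S) :
    AltA (VFD κ) PP tK tL pcB [⟨3, 0, 0, 1449551462⟩] 0 0 1 0 0 (sgb false) (sgb false) x :=
  strip_altAD (m := 1449551462) true rfl hκ (SH.κ0 hκ (SH.hx1 hx).le (SH.hx2 hx').le) (SH.hx1 hx).le (SH.hx2 hx') (covB00).cov (covB00).cov hx hx' c_A00mm_001_s1 cutA_nil (noExt_A)

noncomputable def cut_A00mm_001_s3 : Cut := Cut.of [[⟨3, 0, 0, 2845415833⟩]]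

noncomputable def f_A00mm_001_s3 : ℕ → ℕ → ℕ → ℕ → Bool := onCell 0 536870912 0 536870912 1020054732 13421774
    (rowF 0 true false false .up 0 0 1 (qsf 0 536870912 0 536870912 1) ndB0q0 ndB0q0 pcB1 cut_A00mm_001_s3 Ext.none)

def k0_A00mm_001_s3 : ∃ t, chk3 f_A00mm_001_s3 t 1 1 1 = true :=
  ⟨(l 4), by decide +kernel⟩

theorem c_A00mm_001_s3 : CertF 0 536870912 0 536870912 1020054732 13421774 true false false .up 0 0 1
    ndB0q0 ndB0q0 pcB1 cut_A00mm_001_s3 Ext.none :=
  certF0 (fam := true) (s1 := false) (s2 := false) (a := 0) (b := 0) (c := 1) (cn := .up) (n1 := ndB0q0) (n2 := ndB0q0) (pc := pcB1) (cut := cut_A00mm_001_s3) (xt := Ext.none) (P1 := 0) (W1 := 536870912) (P2 := 0) (W2 := 536870912) (P3 := 1020054732) (W3 := 13421774)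
    rfl k0_A00mm_001_s3

theorem s_A00mm_001_s3 {κ x : ℝ} (hκ : κ * h0 = ken x) (hx : ((1020054732 : ℕ) : ℝ) / S ≤ x)
    (hx' : x ≤ (((1020054732 : ℕ) : ℝ) + (13421774 : ℕ)) / S) :
    AltA (VFD κ) PP tK tL pcB [⟨4, 0, 0, 2845415833⟩] 0 0 1 0 0 (sgb false) (sgb false) x :=
  strip_altAD (m := 2845415833) false rfl hκ (SH.κ0 hκ (SH.hx1 hx).le (SH.hx2 hx').le) (SH.hx1 hx).le (SH.hx2 hx') (covB00).cov (covB00).cov hx hx' c_A00mm_001_s3 cutA_nil (noExt_A)

noncomputable def cut_A00mm_011_s1 : Cut := Cut.of [[⟨4, 0, 0, 1449551462⟩]]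

noncomputable def f_A00mm_011_s1 : ℕ → ℕ → ℕ → ℕ → Bool := onCell 0 536870912 536870912 536870912 1020054732 13421774
    (rowF 0 true false false .pnn 0 1 1 (qsf 0 536870912 536870912 536870912 1) ndB0q0 ndB0q1 pcB1 cut_A00mm_011_s1 Ext.none)

def k0_A00mm_011_s1 : ∃ t, chk3 f_A00mm_011_s1 t 1 1 1 = true :=
  ⟨(l 6), by decide +kernel⟩

theorem c_A00mm_011_s1 : CertF 0 536870912 536870912 536870912 1020054732 13421774 true false false .pnn 0 1 1
    ndB0q0 ndB0q1 pcB1 cut_A00mm_011_s1 Ext.none :=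
  certF0 (fam := true) (s1 := false) (s2 := false) (a := 0) (b := 1) (c := 1) (cn := .pnn) (n1 := ndB0q0) (n2 := ndB0q1) (pc := pcB1) (cut := cut_A00mm_011_s1) (xt := Ext.none) (P1 := 0) (W1 := 536870912) (P2 := 536870912) (W2 := 536870912) (P3 := 1020054732) (W3 := 13421774)
    rfl k0_A00mm_011_s1

theorem s_A00mm_011_s1 {κ x : ℝ} (hκ : κ * h0 = ken x) (hx : ((1020054732 : ℕ) : ℝ) / S ≤ x)
    (hx' : x ≤ (((1020054732 : ℕ) : ℝ) + (13421774 : ℕ)) / S) :
    AltA (VFD κ) PP tK tL pcB [⟨3, 0, 0, 1449551462⟩] 0 1 1 0 0 (sgb false) (sgb false) x :=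
  strip_altAD (m := 1449551462) true rfl hκ (SH.κ0 hκ (SH.hx1 hx).le (SH.hx2 hx').le) (SH.hx1 hx).le (SH.hx2 hx') (covB00).cov (covB01).cov hx hx' c_A00mm_011_s1 cutA_nil (noExt_A)

noncomputable def cut_A00mm_011_s3 : Cut := Cut.of [[⟨3, 0, 0, 2845415833⟩]]

noncomputable def f_A00mm_011_s3 : ℕ → ℕ → ℕ → ℕ → Bool := onCell 0 536870912 536870912 536870912 1020054732 13421774
    (rowF 0 true false false .pnn 0 1 1 (qsf 0 536870912 536870912 536870912 1) ndB0q0 ndB0q1 pcB1 cut_A00mm_011_s3 Ext.none)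

def k0_A00mm_011_s3 : ∃ t, chk3 f_A00mm_011_s3 t 1 1 1 = true :=
  ⟨(b (l 4) (l 5)), by decide +kernel⟩

theorem c_A00mm_011_s3 : CertF 0 536870912 536870912 536870912 1020054732 13421774 true false false .pnn 0 1 1
    ndB0q0 ndB0q1 pcB1 cut_A00mm_011_s3 Ext.none :=
  certF0 (fam := true) (s1 := false) (s2 := false) (a := 0) (b := 1) (c := 1) (cn := .pnn) (n1 := ndB0q0) (n2 := ndB0q1) (pc := pcB1) (cut := cut_A00mm_011_s3) (xt := Ext.none) (P1 := 0) (W1 := 536870912) (P2 := 536870912) (W2 := 536870912) (P3 := 1020054732) (W3 := 13421774)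
    rfl k0_A00mm_011_s3

theorem s_A00mm_011_s3 {κ x : ℝ} (hκ : κ * h0 = ken x) (hx : ((1020054732 : ℕ) : ℝ) / S ≤ x)
    (hx' : x ≤ (((1020054732 : ℕ) : ℝ) + (13421774 : ℕ)) / S) :
    AltA (VFD κ) PP tK tL pcB [⟨4, 0, 0, 2845415833⟩] 0 1 1 0 0 (sgb false) (sgb false) x :=
  strip_altAD (m := 2845415833) false rfl hκ (SH.κ0 hκ (SH.hx1 hx).le (SH.hx2 hx').le) (SH.hx1 hx).le (SH.hx2 hx') (covB00).cov (covB01).cov hx hx' c_A00mm_011_s3 cutA_nil (noExt_A)

noncomputable def cut_A00mm_012_s1 : Cut := Cut.of [[⟨4, 0, 0, 1449551462⟩]]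

noncomputable def f_A00mm_012_s1 : ℕ → ℕ → ℕ → ℕ → Bool := onCell 0 536870912 536870912 536870912 1020054732 13421774
    (rowF 0 true false false .pnp 0 1 2 (qsf 0 536870912 536870912 536870912 2) ndB0q0 ndB0q1 pcB2 cut_A00mm_012_s1 Ext.none)

def k0_A00mm_012_s1 : ∃ t, chk3 f_A00mm_012_s1 t 1 1 1 = true :=
  ⟨(l 6), by decide +kernel⟩

theorem c_A00mm_012_s1 : CertF 0 536870912 536870912 536870912 1020054732 13421774 true false false .pnp 0 1 2
    ndB0q0 ndB0q1 pcB2 cut_A00mm_012_s1 Ext.none :=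
  certF0 (fam := true) (s1 := false) (s2 := false) (a := 0) (b := 1) (c := 2) (cn := .pnp) (n1 := ndB0q0) (n2 := ndB0q1) (pc := pcB2) (cut := cut_A00mm_012_s1) (xt := Ext.none) (P1 := 0) (W1 := 536870912) (P2 := 536870912) (W2 := 536870912) (P3 := 1020054732) (W3 := 13421774)
    rfl k0_A00mm_012_s1

theorem s_A00mm_012_s1 {κ x : ℝ} (hκ : κ * h0 = ken x) (hx : ((1020054732 : ℕ) : ℝ) / S ≤ x)
    (hx' : x ≤ (((1020054732 : ℕ) : ℝ) + (13421774 : ℕ)) / S) :
    AltA (VFD κ) PP tK tL pcB [⟨3, 0, 0, 1449551462⟩] 0 1 2 0 0 (sgb false) (sgb false) x :=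
  strip_altAD (m := 1449551462) true rfl hκ (SH.κ0 hκ (SH.hx1 hx).le (SH.hx2 hx').le) (SH.hx1 hx).le (SH.hx2 hx') (covB00).cov (covB01).cov hx hx' c_A00mm_012_s1 cutA_nil (noExt_A)

noncomputable def cut_A00mm_012_s3 : Cut := Cut.of [[⟨3, 0, 0, 2845415833⟩]]

noncomputable def f_A00mm_012_s3 : ℕ → ℕ → ℕ → ℕ → Bool := onCell 0 536870912 536870912 536870912 1020054732 13421774
    (rowF 0 true false false .pnp 0 1 2 (qsf 0 536870912 536870912 536870912 2) ndB0q0 ndB0q1 pcB2 cut_A00mm_012_s3 Ext.none)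

def k0_A00mm_012_s3 : ∃ t, chk3 f_A00mm_012_s3 t 1 1 1 = true :=
  ⟨(b (l 4) (l 5)), by decide +kernel⟩

theorem c_A00mm_012_s3 : CertF 0 536870912 536870912 536870912 1020054732 13421774 true false false .pnp 0 1 2
    ndB0q0 ndB0q1 pcB2 cut_A00mm_012_s3 Ext.none :=
  certF0 (fam := true) (s1 := false) (s2 := false) (a := 0) (b := 1) (c := 2) (cn := .pnp) (n1 := ndB0q0) (n2 := ndB0q1) (pc := pcB2) (cut := cut_A00mm_012_s3) (xt := Ext.none) (P1 := 0) (W1 := 536870912) (P2 := 536870912) (W2 := 536870912) (P3 := 1020054732) (W3 := 13421774)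
    rfl k0_A00mm_012_s3

theorem s_A00mm_012_s3 {κ x : ℝ} (hκ : κ * h0 = ken x) (hx : ((1020054732 : ℕ) : ℝ) / S ≤ x)
    (hx' : x ≤ (((1020054732 : ℕ) : ℝ) + (13421774 : ℕ)) / S) :
    AltA (VFD κ) PP tK tL pcB [⟨4, 0, 0, 2845415833⟩] 0 1 2 0 0 (sgb false) (sgb false) x :=
  strip_altAD (m := 2845415833) false rfl hκ (SH.κ0 hκ (SH.hx1 hx).le (SH.hx2 hx').le) (SH.hx1 hx).le (SH.hx2 hx') (covB00).cov (covB01).cov hx hx' c_A00mm_012_s3 cutA_nil (noExt_A)

noncomputable def cut_A00mm_022_s1 : Cut := Cut.of [[⟨4, 0, 0, 1449551462⟩]]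

noncomputable def f_A00mm_022_s1 : ℕ → ℕ → ℕ → ℕ → Bool := onCell 0 536870912 0 536870912 1020054732 13421774
    (rowF 0 true false false .pp 0 2 2 (qsf 0 536870912 0 536870912 2) ndB0q0 ndB0q2 pcB2 cut_A00mm_022_s1 Ext.none)

def k0_A00mm_022_s1 : ∃ t, chk3 f_A00mm_022_s1 t 1 1 1 = true :=
  ⟨(l 5), by decide +kernel⟩

theorem c_A00mm_022_s1 : CertF 0 536870912 0 536870912 1020054732 13421774 true false false .pp 0 2 2
    ndB0q0 ndB0q2 pcB2 cut_A00mm_022_s1 Ext.none :=
  certF0 (fam := true) (s1 := false) (s2 := false) (a := 0) (b := 2) (c := 2) (cn := .pp) (n1 := ndB0q0) (n2 := ndB0q2) (pc := pcB2) (cut := cut_A00mm_022_s1) (xt := Ext.none) (P1 := 0) (W1 := 536870912) (P2 := 0) (W2 := 536870912) (P3 := 1020054732) (W3 := 13421774)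
    rfl k0_A00mm_022_s1

theorem s_A00mm_022_s1 {κ x : ℝ} (hκ : κ * h0 = ken x) (hx : ((1020054732 : ℕ) : ℝ) / S ≤ x)
    (hx' : x ≤ (((1020054732 : ℕ) : ℝ) + (13421774 : ℕ)) / S) :
    AltA (VFD κ) PP tK tL pcB [⟨3, 0, 0, 1449551462⟩] 0 2 2 0 0 (sgb false) (sgb false) x :=
  strip_altAD (m := 1449551462) true rfl hκ (SH.κ0 hκ (SH.hx1 hx).le (SH.hx2 hx').le) (SH.hx1 hx).le (SH.hx2 hx') (covB00).cov (covB02).cov hx hx' c_A00mm_022_s1 cutA_nil (noExt_A)

noncomputable def cut_A00mm_022_s3 : Cut := Cut.of [[⟨3, 0, 0, 2845415833⟩]]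

noncomputable def f_A00mm_022_s3 : ℕ → ℕ → ℕ → ℕ → Bool := onCell 0 536870912 0 536870912 1020054732 13421774
    (rowF 0 true false false .pp 0 2 2 (qsf 0 536870912 0 536870912 2) ndB0q0 ndB0q2 pcB2 cut_A00mm_022_s3 Ext.none)

def k0_A00mm_022_s3 : ∃ t, chk3 f_A00mm_022_s3 t 1 1 1 = true :=
  ⟨(l 5), by decide +kernel⟩

theorem c_A00mm_022_s3 : CertF 0 536870912 0 536870912 1020054732 13421774 true false false .pp 0 2 2
    ndB0q0 ndB0q2 pcB2 cut_A00mm_022_s3 Ext.none :=
  certF0 (fam := true) (s1 := false) (s2 := false) (a := 0) (b := 2) (c := 2) (cn := .pp) (n1 := ndB0q0) (n2 := ndB0q2) (pc := pcB2) (cut := cut_A00mm_022_s3) (xt := Ext.none) (P1 := 0) (W1 := 536870912) (P2 := 0) (W2 := 536870912) (P3 := 1020054732) (W3 := 13421774)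
    rfl k0_A00mm_022_s3

theorem s_A00mm_022_s3 {κ x : ℝ} (hκ : κ * h0 = ken x) (hx : ((1020054732 : ℕ) : ℝ) / S ≤ x)
    (hx' : x ≤ (((1020054732 : ℕ) : ℝ) + (13421774 : ℕ)) / S) :
    AltA (VFD κ) PP tK tL pcB [⟨4, 0, 0, 2845415833⟩] 0 2 2 0 0 (sgb false) (sgb false) x :=
  strip_altAD (m := 2845415833) false rfl hκ (SH.κ0 hκ (SH.hx1 hx).le (SH.hx2 hx').le) (SH.hx1 hx).le (SH.hx2 hx') (covB00).cov (covB02).cov hx hx' c_A00mm_022_s3 cutA_nil (noExt_A)

noncomputable def cut_A00mm_023_s1 : Cut := Cut.of [[⟨4, 0, 0, 1449551462⟩]]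

noncomputable def f_A00mm_023_s1 : ℕ → ℕ → ℕ → ℕ → Bool := onCell 0 536870912 0 536870912 1020054732 13421774
    (rowF 0 true false false .up 0 2 3 (qsf 0 536870912 0 536870912 3) ndB0q0 ndB0q2 pcB3 cut_A00mm_023_s1 Ext.none)

def k0_A00mm_023_s1 : ∃ t, chk3 f_A00mm_023_s1 t 1 1 1 = true :=
  ⟨(l 5), by decide +kernel⟩

theorem c_A00mm_023_s1 : CertF 0 536870912 0 536870912 1020054732 13421774 true false false .up 0 2 3
    ndB0q0 ndB0q2 pcB3 cut_A00mm_023_s1 Ext.none :=
  certF0 (fam := true) (s1 := false) (s2 := false) (a := 0) (b := 2) (c := 3) (cn := .up) (n1 := ndB0q0) (n2 := ndB0q2) (pc := pcB3) (cut := cut_A00mm_023_s1) (xt := Ext.none) (P1 := 0) (W1 := 536870912) (P2 := 0) (W2 := 536870912) (P3 := 1020054732) (W3 := 13421774)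
    rfl k0_A00mm_023_s1

theorem s_A00mm_023_s1 {κ x : ℝ} (hκ : κ * h0 = ken x) (hx : ((1020054732 : ℕ) : ℝ) / S ≤ x)
    (hx' : x ≤ (((1020054732 : ℕ) : ℝ) + (13421774 : ℕ)) / S) :
    AltA (VFD κ) PP tK tL pcB [⟨3, 0, 0, 1449551462⟩] 0 2 3 0 0 (sgb false) (sgb false) x :=
  strip_altAD (m := 1449551462) true rfl hκ (SH.κ0 hκ (SH.hx1 hx).le (SH.hx2 hx').le) (SH.hx1 hx).le (SH.hx2 hx') (covB00).cov (covB02).cov hx hx' c_A00mm_023_s1 cutA_nil (noExt_A)

noncomputable def cut_A00mm_023_s3 : Cut := Cut.of [[⟨3, 0, 0, 2845415833⟩]]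

noncomputable def f_A00mm_023_s3 : ℕ → ℕ → ℕ → ℕ → Bool := onCell 0 536870912 0 536870912 1020054732 13421774
    (rowF 0 true false false .up 0 2 3 (qsf 0 536870912 0 536870912 3) ndB0q0 ndB0q2 pcB3 cut_A00mm_023_s3 Ext.none)

def k0_A00mm_023_s3 : ∃ t, chk3 f_A00mm_023_s3 t 1 1 1 = true :=
  ⟨(l 5), by decide +kernel⟩

theorem c_A00mm_023_s3 : CertF 0 536870912 0 536870912 1020054732 13421774 true false false .up 0 2 3
    ndB0q0 ndB0q2 pcB3 cut_A00mm_023_s3 Ext.none :=
  certF0 (fam := true) (s1 := false) (s2 := false) (a := 0) (b := 2) (c := 3) (cn := .up) (n1 := ndB0q0) (n2 := ndB0q2) (pc := pcB3) (cut := cut_A00mm_023_s3) (xt := Ext.none) (P1 := 0) (W1 := 536870912) (P2 := 0) (W2 := 536870912) (P3 := 1020054732) (W3 := 13421774)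
    rfl k0_A00mm_023_s3

theorem s_A00mm_023_s3 {κ x : ℝ} (hκ : κ * h0 = ken x) (hx : ((1020054732 : ℕ) : ℝ) / S ≤ x)
    (hx' : x ≤ (((1020054732 : ℕ) : ℝ) + (13421774 : ℕ)) / S) :
    AltA (VFD κ) PP tK tL pcB [⟨4, 0, 0, 2845415833⟩] 0 2 3 0 0 (sgb false) (sgb false) x :=
  strip_altAD (m := 2845415833) false rfl hκ (SH.κ0 hκ (SH.hx1 hx).le (SH.hx2 hx').le) (SH.hx1 hx).le (SH.hx2 hx') (covB00).cov (covB02).cov hx hx' c_A00mm_023_s3 cutA_nil (noExt_A)

noncomputable def cut_A00mm_101_s1 : Cut := Cut.of [[⟨4, 0, 0, 1449551462⟩], [⟨0, 1, 0, 38347922⟩, ⟨1, 0, 0, 38347922⟩, ⟨2, 1, 0, 38347922⟩]]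

noncomputable def f_A00mm_101_s1 : ℕ → ℕ → ℕ → ℕ → Bool := onCell 536870912 536870912 0 536870912 1020054732 13421774
    (rowF 0 true false false .npn 1 0 1 (qsf 536870912 536870912 0 536870912 1) ndB0q1 ndB0q0 pcB1 cut_A00mm_101_s1 Ext.none)

def k0_A00mm_101_s1 : ∃ t, chk3 f_A00mm_101_s1 t 1 1 1 = true :=
  ⟨(l 6), by decide +kernel⟩

theorem c_A00mm_101_s1 : CertF 536870912 536870912 0 536870912 1020054732 13421774 true false false .npn 1 0 1
    ndB0q1 ndB0q0 pcB1 cut_A00mm_101_s1 Ext.none :=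
  certF0 (fam := true) (s1 := false) (s2 := false) (a := 1) (b := 0) (c := 1) (cn := .npn) (n1 := ndB0q1) (n2 := ndB0q0) (pc := pcB1) (cut := cut_A00mm_101_s1) (xt := Ext.none) (P1 := 536870912) (W1 := 536870912) (P2 := 0) (W2 := 536870912) (P3 := 1020054732) (W3 := 13421774)
    rfl k0_A00mm_101_s1

theorem s_A00mm_101_s1 {κ x : ℝ} (hκ : κ * h0 = ken x) (hx : ((1020054732 : ℕ) : ℝ) / S ≤ x)
    (hx' : x ≤ (((1020054732 : ℕ) : ℝ) + (13421774 : ℕ)) / S)
    (H : CutA (VFD κ) PP tK tL pcB (Cut.of [[⟨0, 1, 0, 38347922⟩, ⟨1, 0, 0, 38347922⟩, ⟨2, 1, 0, 38347922⟩]]) 1 0 1 0 0 (sgb false) (sgb false) x) :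
    AltA (VFD κ) PP tK tL pcB [⟨3, 0, 0, 1449551462⟩] 1 0 1 0 0 (sgb false) (sgb false) x :=
  strip_altAD (m := 1449551462) true rfl hκ (SH.κ0 hκ (SH.hx1 hx).le (SH.hx2 hx').le) (SH.hx1 hx).le (SH.hx2 hx') (covB01).cov (covB00).cov hx hx' c_A00mm_101_s1 H (noExt_A)

noncomputable def cut_A00mm_101_s3 : Cut := Cut.of [[⟨3, 0, 0, 2845415833⟩], [⟨0, 1, 0, 38347922⟩, ⟨1, 0, 0, 38347922⟩, ⟨2, 1, 0, 38347922⟩]]

noncomputable def f_A00mm_101_s3 : ℕ → ℕ → ℕ → ℕ → Bool := onCell 536870912 536870912 0 536870912 1020054732 13421774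
    (rowF 0 true false false .npn 1 0 1 (qsf 536870912 536870912 0 536870912 1) ndB0q1 ndB0q0 pcB1 cut_A00mm_101_s3 Ext.none)

def k0_A00mm_101_s3 : ∃ t, chk3 f_A00mm_101_s3 t 1 1 1 = true :=
  ⟨(a (l 4) (b (a (l 4) (b (a (l 4) (b (b (a (l 4) (l 14)) (l 4)) (l 4))) (l 4))) (l 4))), by decide +kernel⟩

theorem c_A00mm_101_s3 : CertF 536870912 536870912 0 536870912 1020054732 13421774 true false false .npn 1 0 1
    ndB0q1 ndB0q0 pcB1 cut_A00mm_101_s3 Ext.none :=
  certF0 (fam := true) (s1 := false) (s2 := false) (a := 1) (b := 0) (c := 1) (cn := .npn) (n1 := ndB0q1) (n2 := ndB0q0) (pc := pcB1) (cut := cut_A00mm_101_s3) (xt := Ext.none) (P1 := 536870912) (W1 := 536870912) (P2 := 0) (W2 := 536870912) (P3 := 1020054732) (W3 := 13421774)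
    rfl k0_A00mm_101_s3

theorem s_A00mm_101_s3 {κ x : ℝ} (hκ : κ * h0 = ken x) (hx : ((1020054732 : ℕ) : ℝ) / S ≤ x)
    (hx' : x ≤ (((1020054732 : ℕ) : ℝ) + (13421774 : ℕ)) / S)
    (H : CutA (VFD κ) PP tK tL pcB (Cut.of [[⟨0, 1, 0, 38347922⟩, ⟨1, 0, 0, 38347922⟩, ⟨2, 1, 0, 38347922⟩]]) 1 0 1 0 0 (sgb false) (sgb false) x) :
    AltA (VFD κ) PP tK tL pcB [⟨4, 0, 0, 2845415833⟩] 1 0 1 0 0 (sgb false) (sgb false) x :=
  strip_altAD (m := 2845415833) false rfl hκ (SH.κ0 hκ (SH.hx1 hx).le (SH.hx2 hx').le) (SH.hx1 hx).le (SH.hx2 hx') (covB01).cov (covB00).cov hx hx' c_A00mm_101_s3 H (noExt_A)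

noncomputable def cut_A00mm_102_s1 : Cut := Cut.of [[⟨4, 0, 0, 1449551462⟩], [⟨0, 1, 0, 38347922⟩, ⟨1, 0, 0, 38347922⟩, ⟨2, 1, 0, 38347922⟩]]

noncomputable def f_A00mm_102_s1 : ℕ → ℕ → ℕ → ℕ → Bool := onCell 536870912 536870912 0 536870912 1020054732 13421774
    (rowF 0 true false false .npp 1 0 2 (qsf 536870912 536870912 0 536870912 2) ndB0q1 ndB0q0 pcB2 cut_A00mm_102_s1 Ext.none)

def k0_A00mm_102_s1 : ∃ t, chk3 f_A00mm_102_s1 t 1 1 1 = true :=
  ⟨(l 6), by decide +kernel⟩

theorem c_A00mm_102_s1 : CertF 536870912 536870912 0 536870912 1020054732 13421774 true false false .npp 1 0 2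
    ndB0q1 ndB0q0 pcB2 cut_A00mm_102_s1 Ext.none :=
  certF0 (fam := true) (s1 := false) (s2 := false) (a := 1) (b := 0) (c := 2) (cn := .npp) (n1 := ndB0q1) (n2 := ndB0q0) (pc := pcB2) (cut := cut_A00mm_102_s1) (xt := Ext.none) (P1 := 536870912) (W1 := 536870912) (P2 := 0) (W2 := 536870912) (P3 := 1020054732) (W3 := 13421774)
    rfl k0_A00mm_102_s1

theorem s_A00mm_102_s1 {κ x : ℝ} (hκ : κ * h0 = ken x) (hx : ((1020054732 : ℕ) : ℝ) / S ≤ x)
    (hx' : x ≤ (((1020054732 : ℕ) : ℝ) + (13421774 : ℕ)) / S)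
    (H : CutA (VFD κ) PP tK tL pcB (Cut.of [[⟨0, 1, 0, 38347922⟩, ⟨1, 0, 0, 38347922⟩, ⟨2, 1, 0, 38347922⟩]]) 1 0 2 0 0 (sgb false) (sgb false) x) :
    AltA (VFD κ) PP tK tL pcB [⟨3, 0, 0, 1449551462⟩] 1 0 2 0 0 (sgb false) (sgb false) x :=
  strip_altAD (m := 1449551462) true rfl hκ (SH.κ0 hκ (SH.hx1 hx).le (SH.hx2 hx').le) (SH.hx1 hx).le (SH.hx2 hx') (covB01).cov (covB00).cov hx hx' c_A00mm_102_s1 H (noExt_A)

noncomputable def cut_A00mm_102_s3 : Cut := Cut.of [[⟨3, 0, 0, 2845415833⟩], [⟨0, 1, 0, 38347922⟩, ⟨1, 0, 0, 38347922⟩, ⟨2, 1, 0, 38347922⟩]]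

noncomputable def f_A00mm_102_s3 : ℕ → ℕ → ℕ → ℕ → Bool := onCell 536870912 536870912 0 536870912 1020054732 13421774
    (rowF 0 true false false .npp 1 0 2 (qsf 536870912 536870912 0 536870912 2) ndB0q1 ndB0q0 pcB2 cut_A00mm_102_s3 Ext.none)

def k0_A00mm_102_s3 : ∃ t, chk3 f_A00mm_102_s3 t 1 1 1 = true :=
  ⟨(a (l 4) (b (a (l 4) (b (a (l 4) (b (a (l 4) (b (l 14) (l 4))) (l 4))) (l 4))) (l 4))), by decide +kernel⟩

theorem c_A00mm_102_s3 : CertF 536870912 536870912 0 536870912 1020054732 13421774 true false false .npp 1 0 2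
    ndB0q1 ndB0q0 pcB2 cut_A00mm_102_s3 Ext.none :=
  certF0 (fam := true) (s1 := false) (s2 := false) (a := 1) (b := 0) (c := 2) (cn := .npp) (n1 := ndB0q1) (n2 := ndB0q0) (pc := pcB2) (cut := cut_A00mm_102_s3) (xt := Ext.none) (P1 := 536870912) (W1 := 536870912) (P2 := 0) (W2 := 536870912) (P3 := 1020054732) (W3 := 13421774)
    rfl k0_A00mm_102_s3

theorem s_A00mm_102_s3 {κ x : ℝ} (hκ : κ * h0 = ken x) (hx : ((1020054732 : ℕ) : ℝ) / S ≤ x)
    (hx' : x ≤ (((1020054732 : ℕ) : ℝ) + (13421774 : ℕ)) / S)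
    (H : CutA (VFD κ) PP tK tL pcB (Cut.of [[⟨0, 1, 0, 38347922⟩, ⟨1, 0, 0, 38347922⟩, ⟨2, 1, 0, 38347922⟩]]) 1 0 2 0 0 (sgb false) (sgb false) x) :
    AltA (VFD κ) PP tK tL pcB [⟨4, 0, 0, 2845415833⟩] 1 0 2 0 0 (sgb false) (sgb false) x :=
  strip_altAD (m := 2845415833) false rfl hκ (SH.κ0 hκ (SH.hx1 hx).le (SH.hx2 hx').le) (SH.hx1 hx).le (SH.hx2 hx') (covB01).cov (covB00).cov hx hx' c_A00mm_102_s3 H (noExt_A)

noncomputable def cut_A00mm_112_s1 : Cut := Cut.of [[⟨4, 0, 0, 1449551462⟩]]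

noncomputable def f_A00mm_112_s1 : ℕ → ℕ → ℕ → ℕ → Bool := onCell 536870912 536870912 536870912 536870912 1020054732 13421774
    (rowF 0 true false false .dn 1 1 2 (qsf 536870912 536870912 536870912 536870912 2) ndB0q1 ndB0q1 pcB2 cut_A00mm_112_s1 Ext.none)

def k0_A00mm_112_s1 : ∃ t, chk3 f_A00mm_112_s1 t 1 1 1 = true :=
  ⟨(l 4), by decide +kernel⟩

theorem c_A00mm_112_s1 : CertF 536870912 536870912 536870912 536870912 1020054732 13421774 true false false .dn 1 1 2
    ndB0q1 ndB0q1 pcB2 cut_A00mm_112_s1 Ext.none :=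
  certF0 (fam := true) (s1 := false) (s2 := false) (a := 1) (b := 1) (c := 2) (cn := .dn) (n1 := ndB0q1) (n2 := ndB0q1) (pc := pcB2) (cut := cut_A00mm_112_s1) (xt := Ext.none) (P1 := 536870912) (W1 := 536870912) (P2 := 536870912) (W2 := 536870912) (P3 := 1020054732) (W3 := 13421774)
    rfl k0_A00mm_112_s1

theorem s_A00mm_112_s1 {κ x : ℝ} (hκ : κ * h0 = ken x) (hx : ((1020054732 : ℕ) : ℝ) / S ≤ x)
    (hx' : x ≤ (((1020054732 : ℕ) : ℝ) + (13421774 : ℕ)) / S) :
    AltA (VFD κ) PP tK tL pcB [⟨3, 0, 0, 1449551462⟩] 1 1 2 0 0 (sgb false) (sgb false) x :=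
  strip_altAD (m := 1449551462) true rfl hκ (SH.κ0 hκ (SH.hx1 hx).le (SH.hx2 hx').le) (SH.hx1 hx).le (SH.hx2 hx') (covB01).cov (covB01).cov hx hx' c_A00mm_112_s1 cutA_nil (noExt_A)

noncomputable def cut_A00mm_112_s3 : Cut := Cut.of [[⟨3, 0, 0, 2845415833⟩]]

noncomputable def f_A00mm_112_s3 : ℕ → ℕ → ℕ → ℕ → Bool := onCell 536870912 536870912 536870912 536870912 1020054732 13421774
    (rowF 0 true false false .dn 1 1 2 (qsf 536870912 536870912 536870912 536870912 2) ndB0q1 ndB0q1 pcB2 cut_A00mm_112_s3 Ext.none)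

def k0_A00mm_112_s3 : ∃ t, chk3 f_A00mm_112_s3 t 1 1 1 = true :=
  ⟨(l 4), by decide +kernel⟩

theorem c_A00mm_112_s3 : CertF 536870912 536870912 536870912 536870912 1020054732 13421774 true false false .dn 1 1 2
    ndB0q1 ndB0q1 pcB2 cut_A00mm_112_s3 Ext.none :=
  certF0 (fam := true) (s1 := false) (s2 := false) (a := 1) (b := 1) (c := 2) (cn := .dn) (n1 := ndB0q1) (n2 := ndB0q1) (pc := pcB2) (cut := cut_A00mm_112_s3) (xt := Ext.none) (P1 := 536870912) (W1 := 536870912) (P2 := 536870912) (W2 := 536870912) (P3 := 1020054732) (W3 := 13421774)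
    rfl k0_A00mm_112_s3

theorem s_A00mm_112_s3 {κ x : ℝ} (hκ : κ * h0 = ken x) (hx : ((1020054732 : ℕ) : ℝ) / S ≤ x)
    (hx' : x ≤ (((1020054732 : ℕ) : ℝ) + (13421774 : ℕ)) / S) :
    AltA (VFD κ) PP tK tL pcB [⟨4, 0, 0, 2845415833⟩] 1 1 2 0 0 (sgb false) (sgb false) x :=
  strip_altAD (m := 2845415833) false rfl hκ (SH.κ0 hκ (SH.hx1 hx).le (SH.hx2 hx').le) (SH.hx1 hx).le (SH.hx2 hx') (covB01).cov (covB01).cov hx hx' c_A00mm_112_s3 cutA_nil (noExt_A)

noncomputable def cut_A00mm_113_s1 : Cut := Cut.of [[⟨4, 0, 0, 1449551462⟩]]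

noncomputable def f_A00mm_113_s1 : ℕ → ℕ → ℕ → ℕ → Bool := onCell 536870912 536870912 536870912 536870912 1020054732 13421774
    (rowF 0 true false false .nn 1 1 3 (qsf 536870912 536870912 536870912 536870912 3) ndB0q1 ndB0q1 pcB3 cut_A00mm_113_s1 Ext.none)

def k0_A00mm_113_s1 : ∃ t, chk3 f_A00mm_113_s1 t 1 1 1 = true :=
  ⟨(l 4), by decide +kernel⟩

theorem c_A00mm_113_s1 : CertF 536870912 536870912 536870912 536870912 1020054732 13421774 true false false .nn 1 1 3
    ndB0q1 ndB0q1 pcB3 cut_A00mm_113_s1 Ext.none :=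
  certF0 (fam := true) (s1 := false) (s2 := false) (a := 1) (b := 1) (c := 3) (cn := .nn) (n1 := ndB0q1) (n2 := ndB0q1) (pc := pcB3) (cut := cut_A00mm_113_s1) (xt := Ext.none) (P1 := 536870912) (W1 := 536870912) (P2 := 536870912) (W2 := 536870912) (P3 := 1020054732) (W3 := 13421774)
    rfl k0_A00mm_113_s1

theorem s_A00mm_113_s1 {κ x : ℝ} (hκ : κ * h0 = ken x) (hx : ((1020054732 : ℕ) : ℝ) / S ≤ x)
    (hx' : x ≤ (((1020054732 : ℕ) : ℝ) + (13421774 : ℕ)) / S) :
    AltA (VFD κ) PP tK tL pcB [⟨3, 0, 0, 1449551462⟩] 1 1 3 0 0 (sgb false) (sgb false) x :=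
  strip_altAD (m := 1449551462) true rfl hκ (SH.κ0 hκ (SH.hx1 hx).le (SH.hx2 hx').le) (SH.hx1 hx).le (SH.hx2 hx') (covB01).cov (covB01).cov hx hx' c_A00mm_113_s1 cutA_nil (noExt_A)

noncomputable def cut_A00mm_113_s3 : Cut := Cut.of [[⟨3, 0, 0, 2845415833⟩]]

noncomputable def f_A00mm_113_s3 : ℕ → ℕ → ℕ → ℕ → Bool := onCell 536870912 536870912 536870912 536870912 1020054732 13421774
    (rowF 0 true false false .nn 1 1 3 (qsf 536870912 536870912 536870912 536870912 3) ndB0q1 ndB0q1 pcB3 cut_A00mm_113_s3 Ext.none)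

def k0_A00mm_113_s3 : ∃ t, chk3 f_A00mm_113_s3 t 1 1 1 = true :=
  ⟨(l 4), by decide +kernel⟩

theorem c_A00mm_113_s3 : CertF 536870912 536870912 536870912 536870912 1020054732 13421774 true false false .nn 1 1 3
    ndB0q1 ndB0q1 pcB3 cut_A00mm_113_s3 Ext.none :=
  certF0 (fam := true) (s1 := false) (s2 := false) (a := 1) (b := 1) (c := 3) (cn := .nn) (n1 := ndB0q1) (n2 := ndB0q1) (pc := pcB3) (cut := cut_A00mm_113_s3) (xt := Ext.none) (P1 := 536870912) (W1 := 536870912) (P2 := 536870912) (W2 := 536870912) (P3 := 1020054732) (W3 := 13421774)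
    rfl k0_A00mm_113_s3

theorem s_A00mm_113_s3 {κ x : ℝ} (hκ : κ * h0 = ken x) (hx : ((1020054732 : ℕ) : ℝ) / S ≤ x)
    (hx' : x ≤ (((1020054732 : ℕ) : ℝ) + (13421774 : ℕ)) / S) :
    AltA (VFD κ) PP tK tL pcB [⟨4, 0, 0, 2845415833⟩] 1 1 3 0 0 (sgb false) (sgb false) x :=
  strip_altAD (m := 2845415833) false rfl hκ (SH.κ0 hκ (SH.hx1 hx).le (SH.hx2 hx').le) (SH.hx1 hx).le (SH.hx2 hx') (covB01).cov (covB01).cov hx hx' c_A00mm_113_s3 cutA_nil (noExt_A)

noncomputable def cut_A00mm_123_s1 : Cut := Cut.of [[⟨4, 0, 0, 1449551462⟩]]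

noncomputable def f_A00mm_123_s1 : ℕ → ℕ → ℕ → ℕ → Bool := onCell 536870912 536870912 0 536870912 1020054732 13421774
    (rowF 0 true false false .npn 1 2 3 (qsf 536870912 536870912 0 536870912 3) ndB0q1 ndB0q2 pcB3 cut_A00mm_123_s1 Ext.none)

def k0_A00mm_123_s1 : ∃ t, chk3 f_A00mm_123_s1 t 1 1 1 = true :=
  ⟨(l 6), by decide +kernel⟩

theorem c_A00mm_123_s1 : CertF 536870912 536870912 0 536870912 1020054732 13421774 true false false .npn 1 2 3
    ndB0q1 ndB0q2 pcB3 cut_A00mm_123_s1 Ext.none :=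
  certF0 (fam := true) (s1 := false) (s2 := false) (a := 1) (b := 2) (c := 3) (cn := .npn) (n1 := ndB0q1) (n2 := ndB0q2) (pc := pcB3) (cut := cut_A00mm_123_s1) (xt := Ext.none) (P1 := 536870912) (W1 := 536870912) (P2 := 0) (W2 := 536870912) (P3 := 1020054732) (W3 := 13421774)
    rfl k0_A00mm_123_s1

theorem s_A00mm_123_s1 {κ x : ℝ} (hκ : κ * h0 = ken x) (hx : ((1020054732 : ℕ) : ℝ) / S ≤ x)
    (hx' : x ≤ (((1020054732 : ℕ) : ℝ) + (13421774 : ℕ)) / S) :
    AltA (VFD κ) PP tK tL pcB [⟨3, 0, 0, 1449551462⟩] 1 2 3 0 0 (sgb false) (sgb false) x :=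
  strip_altAD (m := 1449551462) true rfl hκ (SH.κ0 hκ (SH.hx1 hx).le (SH.hx2 hx').le) (SH.hx1 hx).le (SH.hx2 hx') (covB01).cov (covB02).cov hx hx' c_A00mm_123_s1 cutA_nil (noExt_A)

noncomputable def cut_A00mm_123_s3 : Cut := Cut.of [[⟨3, 0, 0, 2845415833⟩]]

noncomputable def f_A00mm_123_s3 : ℕ → ℕ → ℕ → ℕ → Bool := onCell 536870912 536870912 0 536870912 1020054732 13421774
    (rowF 0 true false false .npn 1 2 3 (qsf 536870912 536870912 0 536870912 3) ndB0q1 ndB0q2 pcB3 cut_A00mm_123_s3 Ext.none)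

def k0_A00mm_123_s3 : ∃ t, chk3 f_A00mm_123_s3 t 1 1 1 = true :=
  ⟨(a (l 5) (l 4)), by decide +kernel⟩

theorem c_A00mm_123_s3 : CertF 536870912 536870912 0 536870912 1020054732 13421774 true false false .npn 1 2 3
    ndB0q1 ndB0q2 pcB3 cut_A00mm_123_s3 Ext.none :=
  certF0 (fam := true) (s1 := false) (s2 := false) (a := 1) (b := 2) (c := 3) (cn := .npn) (n1 := ndB0q1) (n2 := ndB0q2) (pc := pcB3) (cut := cut_A00mm_123_s3) (xt := Ext.none) (P1 := 536870912) (W1 := 536870912) (P2 := 0) (W2 := 536870912) (P3 := 1020054732) (W3 := 13421774)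
    rfl k0_A00mm_123_s3

theorem s_A00mm_123_s3 {κ x : ℝ} (hκ : κ * h0 = ken x) (hx : ((1020054732 : ℕ) : ℝ) / S ≤ x)
    (hx' : x ≤ (((1020054732 : ℕ) : ℝ) + (13421774 : ℕ)) / S) :
    AltA (VFD κ) PP tK tL pcB [⟨4, 0, 0, 2845415833⟩] 1 2 3 0 0 (sgb false) (sgb false) x :=
  strip_altAD (m := 2845415833) false rfl hκ (SH.κ0 hκ (SH.hx1 hx).le (SH.hx2 hx').le) (SH.hx1 hx).le (SH.hx2 hx') (covB01).cov (covB02).cov hx hx' c_A00mm_123_s3 cutA_nil (noExt_A)

noncomputable def cut_A00mm_202_s1 : Cut := Cut.of [[⟨4, 0, 0, 1449551462⟩], [⟨0, 1, 0, 26843545⟩, ⟨1, 0, 0, 26843545⟩, ⟨2, 1, 0, 26843545⟩]]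

noncomputable def f_A00mm_202_s1 : ℕ → ℕ → ℕ → ℕ → Bool := onCell 0 536870912 0 536870912 1020054732 13421774
    (rowF 0 true false false .pp 2 0 2 (qsf 0 536870912 0 536870912 2) ndB0q2 ndB0q0 pcB2 cut_A00mm_202_s1 Ext.none)

def k0_A00mm_202_s1 : ∃ t, chk3 f_A00mm_202_s1 t 1 1 1 = true :=
  ⟨(l 6), by decide +kernel⟩

theorem c_A00mm_202_s1 : CertF 0 536870912 0 536870912 1020054732 13421774 true false false .pp 2 0 2
    ndB0q2 ndB0q0 pcB2 cut_A00mm_202_s1 Ext.none :=
  certF0 (fam := true) (s1 := false) (s2 := false) (a := 2) (b := 0) (c := 2) (cn := .pp) (n1 := ndB0q2) (n2 := ndB0q0) (pc := pcB2) (cut := cut_A00mm_202_s1) (xt := Ext.none) (P1 := 0) (W1 := 536870912) (P2 := 0) (W2 := 536870912) (P3 := 1020054732) (W3 := 13421774)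
    rfl k0_A00mm_202_s1

theorem s_A00mm_202_s1 {κ x : ℝ} (hκ : κ * h0 = ken x) (hx : ((1020054732 : ℕ) : ℝ) / S ≤ x)
    (hx' : x ≤ (((1020054732 : ℕ) : ℝ) + (13421774 : ℕ)) / S)
    (H : CutA (VFD κ) PP tK tL pcB (Cut.of [[⟨0, 1, 0, 26843545⟩, ⟨1, 0, 0, 26843545⟩, ⟨2, 1, 0, 26843545⟩]]) 2 0 2 0 0 (sgb false) (sgb false) x) :
    AltA (VFD κ) PP tK tL pcB [⟨3, 0, 0, 1449551462⟩] 2 0 2 0 0 (sgb false) (sgb false) x :=
  strip_altAD (m := 1449551462) true rfl hκ (SH.κ0 hκ (SH.hx1 hx).le (SH.hx2 hx').le) (SH.hx1 hx).le (SH.hx2 hx') (covB02).cov (covB00).cov hx hx' c_A00mm_202_s1 H (noExt_A)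

noncomputable def cut_A00mm_202_s3 : Cut := Cut.of [[⟨3, 0, 0, 2845415833⟩], [⟨0, 1, 0, 26843545⟩, ⟨1, 0, 0, 26843545⟩, ⟨2, 1, 0, 26843545⟩]]

noncomputable def xt_A00mm_202_s3 : Ext := strExt dd true false false .u2 .u0m .s2m .pp 2 0 2 rfl rfl gl2 vv ndB0q2 ndB0q0

noncomputable def f_A00mm_202_s3 : ℕ → ℕ → ℕ → ℕ → Bool := onCell 0 536870912 0 536870912 1020054732 13421774
    (rowF 0 true false false .pp 2 0 2 (qsf 0 536870912 0 536870912 2) ndB0q2 ndB0q0 pcB2 cut_A00mm_202_s3 xt_A00mm_202_s3)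

def k0_A00mm_202_s3 : ∃ t, chk3 f_A00mm_202_s3 t 2 2 1 = true :=
  ⟨(b (a (l 6) (b (l 6) (a (l 6) (a (l 6) (b (b (l 6) (l 15995088)) (b (l 15989320) (l 15994120))))))) (a (b (l 6) (a (l 6) (b (l 6) (a (l 6) (b (l 6) (l 15513232)))))) (b (a (b (l 6) (a (l 6) (b (l 15685008) (l 15715616)))) (b (a (b (l 15832856) (l 15850824)) (b (b (l 16003976) (l 16013440)) (a (l 15987280) (l 16075992)))) (a (b (l 15919696) (a (l 15864464) (l 15961528))) (b (a (l 16017976) (l 16109120)) (a (l 16056784) (l 16171120)))))) (a (b (a (b (l 15546248) (l 15588992)) (b (l 15754600) (b (l 15788976) (l 15814280)))) (a (b (l 15691992) (b (l 15682248) (l 15712920))) (b (a (l 15802464) (l 15908792)) (a (l 15862768) (l 15970616))))) (a (b (b (a (l 15906736) (l 16005888)) (a (l 15956528) (l 16057560))) (a (b (l 16013328) (l 516530959)) (b (l 517303055) (l 516705295)))) (a (b (b (l 16103200) (l 16188160)) (b (l 517487119) (l 516884495))) (b (b (l 16230032) (l 518324239)) (b (l 517677071)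 (l 517068815))))))))), by decide +kernel⟩

def k1_A00mm_202_s3 : ∃ t, chk3 f_A00mm_202_s3 t 6 8 1 = true :=
  ⟨(b (a (a (l 6) (a (l 6) (b (l 16351888) (l 16397624)))) (a (b (a (a (l 16471992) (l 16411504)) (b (a (l 16526344) (l 16464048)) (l 16437624))) (a (b (l 16458040) (l 16441872)) (b (l 16422696) (l 16408528)))) (a (b (b (a (l 16484728) (l 16546512)) (a (l 16554440) (l 16533696))) (b (a (l 16541048) (l 16521144)) (a (l 16528368) (l 16551384)))) (b (b (a (b (l 16568328) (l 16520624)) (b (l 16595640) (l 16591232))) (a (b (l 16556696) (l 16508896)) (a (c (l 16522024) (l 16530800)) (b (l 16538288) (l 16533272))))) (a (b (a (l 16579072) (l 16547528)) (b (l 16576216) (l 16571008))) (b (b (l 16586248) (l 16581216)) (b (l 16555376) (l 16571624)))))))) (a (a (b (l 6) (a (l 6) (l 16209608))) (b (a (l 16304288) (l 16362904)) (a (l 16274128) (l 16336344)))) (a (a (b (b (l 16426384) (l 16412064)) (b (l 16400416) (l 16392664))) (b (b (l 16436920) (l 16424496)) (b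 (l 16456664) (l 16450720)))) (a (b (b (a (l 16516264) (l 16540240)) (a (l 16505248) (l 16530152))) (a (b (l 16496872) (l 16492336)) (b (l 16522704) (l 16519088)))) (b (a (b (b (l 16565960) (l 16561032)) (b (l 16556360) (l 16552296))) (b (b (l 16567040) (l 16562584)) (b (l 16558376) (l 16554768)))) (a (b (b (l 16549008) (l 16546640)) (b (l 16545320) (l 16544960))) (b (a (l 16544904) (b (l 16578744) (l 16576944))) (b (a (l 16564016) (l 16576200)) (l 16570248))))))))), by decide +kernel⟩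

def k2_A00mm_202_s3 : ∃ t, chk3 f_A00mm_202_s3 t 6 9 1 = true :=
  ⟨(a (a (b (b (l 16071640) (a (l 16108408) (l 16181688))) (b (b (l 16144816) (l 16147792)) (a (l 16116864) (l 16196248)))) (b (b (a (l 16258056) (l 16323744)) (a (l 16252888) (l 16321824))) (a (b (l 16258232) (l 16273472)) (b (l 16330248) (b (l 16343024) (l 16354296)))))) (a (b (a (b (a (l 16371408) (l 16402400)) (b (l 16387040) (l 16390232))) (b (b (l 16448080) (l 16447824)) (b (l 16450080) (l 16475808)))) (a (b (b (l 16395968) (l 16404208)) (b (l 16414744) (l 16427424))) (b (a (b (l 16445824) (l 16455184)) (b (l 16478184) (l 16488288))) (a (l 524277775) (b (l 16500640) (l 16515064)))))) (b (a (b (a (b (l 16491016) (l 16492024)) (b (l 16518688) (l 16520568))) (a (b (l 16495488) (l 16501416)) (b (l 16524816) (l 16531528)))) (b (a (b (c (l 16545200) (l 16545920)) (c (l 16548264) (l 16548336))) (b (c (l 16576344) (l 16571976)) (a (l 16568536) (c (l 16539672) (l 16581920))))) (a (b (c (l 16553600)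 (l 16553128)) (c (l 16561312) (l 16560400))) (b (a (l 527343119) (l 527438351)) (a (l 526802959) (l 526895375)))))) (a (b (a (b (l 16509824) (l 16520672)) (b (l 525973007) (a (l 16544464) (l 16560080)))) (a (a (l 524550415) (l 524630287)) (a (l 524711183) (l 524793103)))) (b (a (b (c (l 16576656) (l 16570176)) (a (l 16575496) (l 525957903))) (b (a (c (l 16593336) (l 16592328)) (l 526368783)) (a (l 526313487) (b (l 16617024) (l 16624224))))) (a (a (l 524875791) (b (l 525469199) (l 524989711))) (a (c (l 525096463) (l 524992783)) (b (c (l 525687055) (l 525596175)) (l 525158927))))))))), by decide +kernel⟩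

def k3_A00mm_202_s3 : ∃ t, chk3 f_A00mm_202_s3 t 56 16 1 = true :=
  ⟨(b (a (b (a (b (l 16584296) (l 16593616)) (b (l 16605160) (l 16595144))) (a (b (l 16589136) (l 16584496)) (b (l 16597736) (l 16593536)))) (b (a (b (c (l 16588984) (l 16579888)) (l 16616072)) (b (c (l 16610480) (l 16601640)) (c (l 16599704) (l 16612112)))) (a (b (l 16626800) (l 16623208)) (b (c (l 16609944) (l 16601704)) (c (l 16606720) (l 16612432)))))) (a (b (a (b (l 16579808) (l 16617072)) (b (l 16589176) (l 16584768))) (a (b (l 16612560) (l 16608192)) (b (l 16622440) (l 16618312)))) (b (a (b (l 16619224) (l 16615168)) (b (c (l 16603392) (l 16610808)) (b (l 16604288) (l 16602392)))) (a (b (l 16611120) (l 16607224)) (b (l 16620528) (l 16616872)))))), by decide +kernel⟩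

def k4_A00mm_202_s3 : ∃ t, chk3 f_A00mm_202_s3 t 57 16 1 = true :=
  ⟨(b (a (b (a (b (c (l 16621872) (b (l 16621256) (l 16626328))) (c (l 16621296) (l 16623464))) (b (a (c (l 16612304) (l 16614448)) (c (l 16623520) (l 16615336))) (a (c (l 16622008) (l 16613896)) (c (l 16622608) (l 16625128))))) (a (b (c (l 16631224) (l 16623216)) (c (l 16614880) (l 16633584))) (b (c (l 16631936) (a (l 16623888) (l 16624472))) (c (l 16641632) (b (l 16610704) (l 16615752)))))) (b (c (a (b (b (l 16632936) (l 16637632)) (b (l 16621352) (l 16626024))) (b (b (l 16624520) (l 16629128)) (b (l 16633680) (l 16638232)))) (a (b (b (l 16624944) (l 16629728)) (b (l 16634520) (l 16618344))) (b (b (c (l 16629280) (l 16625392)) (l 16621544)) (b (l 16626192) (l 16630848))))) (c (a (b (b (l 16630704) (l 16635384)) (b (l 16640080) (l 16623824))) (b (b (l 16632288) (l 16636824)) (b (l 16641368) (l 16645928)))) (a (b (b (l 16623144) (l 16627960)) (b (l 16632800) (l 16637680))) (b (b (l 16635504)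 (l 16640168)) (b (l 16634360) (l 16639072))))))) (a (b (a (b (c (l 16632904) (l 16619176)) (c (l 16629800) (l 16615600))) (b (c (l 16641128) (l 16644400)) (c (l 16638448) (l 16645056)))) (a (b (b (l 16630584) (l 16628832)) (a (l 16623944) (l 16628592))) (b (c (l 16635584) (l 16641696)) (b (l 16636224) (l 16634664))))) (c (b (a (b (l 16649032) (l 16646728)) (b (b (l 16650512) (l 16634152)) (l 16665160))) (a (b (l 16644248) (l 16641680)) (b (l 16663104) (l 16660856)))) (b (a (b (b (l 16642600) (l 16626600)) (l 16653160)) (b (b (l 16643816) (l 16648608)) (b (l 16653448) (l 16637376)))) (a (b (l 16650200) (l 16647104)) (b (b (l 16638080) (l 16636776)) (c (l 16654312) (l 16656992)))))))), by decide +kernel⟩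

def k5_A00mm_202_s3 : ∃ t, chk3 f_A00mm_202_s3 t 116 32 1 = true :=
  ⟨(b (a (b (a (c (b (l 16636776) (l 16641320)) (b (l 16629376) (l 16634000))) (c (b (l 16638056) (l 16642568)) (b (l 16630824) (l 16635424)))) (b (a (c (l 16645800) (l 16638560)) (c (l 16647016) (l 16639952))) (c (l 16640336) (c (l 16645552) (l 16641968))))) (b (a (c (b (l 16639408) (l 16643912)) (b (l 16632352) (l 16636936))) (c (b (l 16640832) (l 16645320)) (b (l 16633952) (l 16638520)))) (a (c (b (l 16648312) (l 16652656)) (b (l 16641424) (l 16645856))) (c (b (l 16649696) (l 16654008)) (b (l 16642984) (l 16647376)))))) (c (a (b (b (l 16644752) (l 16649152)) (b (l 16643072) (l 16647480))) (b (a (b (l 16656976) (l 16661288)) (b (l 16658264) (l 16662512))) (b (l 16655672) (l 16659944)))) (a (b (b (a (l 16647664) (l 16648912)) (l 16642312)) (b (l 16646840) (l 16651392))) (b (a (b (l 16650272) (l 16654680)) (b (l 16651728) (l 16656072))) (a (b (l 16659104) (l 16663536)) (b (l 16660424) (l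 16664776))))))), by decide +kernel⟩

def k6_A00mm_202_s3 : ∃ t, chk3 f_A00mm_202_s3 t 117 32 1 = true :=
  ⟨(b (a (b (a (c (b (l 16642336) (l 16646800)) (b (l 16635632) (l 16640184))) (c (b (l 16643912) (l 16648360)) (b (l 16637392) (l 16641920)))) (a (c (b (l 16651168) (l 16655448)) (b (l 16644640) (l 16648992))) (c (b (l 16652712) (l 16656968)) (b (l 16646360) (l 16645456))))) (b (a (c (b (l 16645560) (l 16650000)) (b (l 16639224) (l 16643744))) (c (b (b (l 16646168) (l 16648408)) (l 16651712)) (b (l 16641128) (l 16645640)))) (a (c (b (l 16654336) (l 16658576)) (b (l 16648168) (l 16652488))) (c (b (l 16656032) (l 16660256)) (b (l 16650048) (b (l 16653288) (l 16655416))))))) (a (b (a (c (b (l 16659656) (l 16663840)) (b (l 16653288) (l 16647088))) (c (b (l 16661144) (l 16665264)) (b (l 16649712) (l 16648688)))) (a (c (b (l 16668008) (l 16651208)) (b (l 16651360) (l 16655648))) (c (b (l 16658896) (l 16652512)) (b (l 16652896) (l 16657112))))) (b (a (c (b (l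 16662720) (l 16656312)) (b (l 16651472) (l 16655640))) (c (b (l 16659136) (l 16657944)) (b (c (l 16660032) (l 16657080)) (c (l 16664144) (l 16661232))))) (a (c (b (l 16660360) (l 16664400)) (b (l 16654536) (l 16658688))) (c (b (l 16661936) (l 16665912)) (b (l 16661536) (l 16665608))))))), by decide +kernel⟩

def k7_A00mm_202_s3 : ∃ t, chk3 f_A00mm_202_s3 t 58 33 1 = true :=
  ⟨(a (b (c (a (b (b (l 16651912) (l 16656360)) (b (l 16660840) (l 16661888))) (b (b (l 16664224) (l 16658032)) (b (l 16662352) (l 16666704)))) (a (b (b (l 16655968) (l 16650088)) (b (l 16654752) (l 16659464))) (b (b (a (l 16667984) (l 16648184)) (l 16662520)) (b (l 16667000) (l 16661040))))) (a (b (c (l 16671104) (b (l 16664240) (l 16644688))) (c (l 16669232) (b (l 16643528) (l 16663264)))) (b (a (b (l 16668016) (l 16668656)) (b (l 16668768) (l 16672384))) (a (c (l 16664848) (l 16669824)) (c (l 16668776) (l 16673656)))))) (b (c (a (b (b (l 16666472) (l 16670624)) (b (l 16674784) (l 16668488)))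 (b (a (b (l 16657952) (l 16661992)) (b (l 16669888) (l 16663368))) (b (a (l 16666048) (l 16667352)) (l 16681208)))) (a (b (a (b (l 16649456) (l 16653784)) (b (l 16661336) (l 16655088))) (b (a (l 16658136) (l 16659360)) (l 16673576))) (b (a (b (l 16662832) (l 16667000)) (b (l 16664448) (l 16668536))) (a (b (l 16660704) (l 16664928)) (b (l 16672648) (l 16666304)))))) (c (a (b (b (l 16672712) (l 16675304)) (b (l 16674784) (l 16674216))) (b (b (l 16685272) (l 16678880)) (b (l 16681992) (l 16681624)))) (a (b (b (l 16677976) (l 16671944)) (b (l 16676472) (l 16678824))) (b (b (a (l 16669192) (l 16670488)) (l 16684592)) (b (l 16688920) (l 16682832))))))), by decide +kernel⟩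

def k8_A00mm_202_s3 : ∃ t, chk3 f_A00mm_202_s3 t 118 32 1 = true :=
  ⟨(b (a (b (a (c (b (b (l 16647968) (l 16650200)) (l 16653496)) (b (l 16643112) (l 16647600))) (c (b (b (l 16649832) (l 16652048)) (b (l 16654240) (l 16656416))) (b (l 16645144) (l 16649624)))) (a (c (b (l 16657800) (l 16662016)) (b (l 16651992) (b (l 16655224) (l 16657352)))) (c (b (l 16659624) (c (l 16665184) (l 16662456))) (b (b (l 16652920) (l 16655088)) (b (l 16657224) (l 16659344)))))) (b (a (c (b (b (l 16651744) (l 16653960)) (b (l 16656144) (l 16658312))) (b (l 16649864) (l 16651704))) (c (b (b (l 16653720) (l 16655928)) (b (l 16658112) (l 16660272))) (b (l 16649392) (l 16653848)))) (a (c (b (b (l 16660456) (l 16662568)) (l 16665704)) (b (b (l 16654992) (l 16657152)) (b (l 16659288) (l 16661400)))) (c (b (b (l 16662408) (l 16664512)) (l 16667640)) (a (b (l 16657664) (l 16661928)) (b (l 16658744) (l 16663008))))))) (a (b (a (c (b (l 16660888) (l 16664904)) (b (c (l 16661920) (l 16659064))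 (c (l 16665992) (l 16663184)))) (c (b (l 16662688) (l 16666688)) (b (c (l 16663856) (l 16661088)) (c (l 16667920) (l 16665200))))) (a (c (b (l 16663616) (l 16667520)) (b (c (l 16670016) (l 16667248)) (l 16667392))) (c (b (l 16670600) (l 16669224)) (b (c (l 16671896) (l 16669216)) (l 16669272))))) (b (a (c (b (l 16664544) (l 16668536)) (a (b (l 16664008) (l 16668088)) (b (l 16665040) (l 16669120)))) (c (b (c (l 16672968) (l 16670456)) (l 16670456)) (a (b (l 16666096) (l 16670168)) (b (l 16667168) (l 16671232))))) (a (c (b (l 16672432) (l 16676256)) (b (c (l 16673864) (l 16671280)) (c (l 16677752) (l 16675216)))) (c (b (l 16674336) (l 16678120)) (b (c (l 16675904) (l 16673416)) (c (l 16679752) (l 16677312)))))))), by decide +kernel⟩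

def k9_A00mm_202_s3 : ∃ t, chk3 f_A00mm_202_s3 t 119 32 1 = true :=
  ⟨(b (a (b (a (c (a (b (l 16656344) (l 16660704)) (b (l 16657376) (l 16661728))) (b (l 16651608) (l 16656048))) (c (b (l 16661576) (b (l 16662224) (l 16664376))) (b (l 16653880) (l 16658312)))) (a (c (b (b (l 16664416) (l 16666528)) (l 16669640)) (b (l 16660400) (b (l 16663592) (l 16665696)))) (c (b (b (l 16666496) (l 16668600)) (l 16671704)) (b (l 16662656) (l 16666896))))) (c (a (b (b (l 16663736) (l 16665448)) (b (l 16669688) (l 16673832))) (b (b (l 16665960) (l 16667664)) (b (l 16671896) (l 16676032)))) (a (b (b (l 16656216) (l 16660640)) (b (l 16664968) (l 16669208))) (b (b (l 16658616) (l 16663032)) (b (l 16667360) (l 16671584)))))) (a (b (a (c (b (l 16673704) (l 16672432)) (b (b (l 16667768) (l 16669824)) (c (l 16674072) (l 16671632)))) (c (b (l 16675760) (l 16679720)) (b (l 16671040) (c (l 16676256) (l 16673904))))) (a (c (b (l 16676304) (l 16680072)) (a (b (l 16676272) (l 16680128))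 (b (l 16677360) (l 16681208)))) (c (b (l 16678336) (l 16682096)) (b (c (l 16680184) (l 16677880)) (l 16677640))))) (a (b (c (b (l 16677880) (l 16681832)) (b (l 16673344) (l 16677376))) (c (b (l 16685680) (l 16684192)) (b (l 16676072) (l 16679920)))) (c (b (b (l 16680072) (l 16684008)) (b (l 16687856) (l 16691600))) (b (b (l 16675712) (l 16679744)) (b (l 16683672) (l 16687504))))))), by decide +kernel⟩

def k10_A00mm_202_s3 : ∃ t, chk3 f_A00mm_202_s3 t 118 33 1 = true :=
  ⟨(b (a (b (a (b (c (l 16671432) (l 16666168)) (c (l 16675336) (l 16670184))) (c (b (l 16673072) (l 16676912)) (b (l 16673216) (l 16671920)))) (a (c (b (l 16668760) (l 16672688)) (b (l 16674216) (l 16678280))) (c (b (l 16680752) (l 16674120)) (b (l 16675888) (l 16679864))))) (b (a (c (b (l 16674792) (l 16678576)) (b (l 16675120) (l 16679000))) (c (b (l 16676608) (l 16680328)) (b (l 16677112) (l 16680928)))) (a (b (c (l 16682352) (l 16677648)) (c (l 16686128) (l 16681552))) (c (b (l 16684040)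 (l 16687752)) (b (l 16679512) (l 16683344)))))) (c (b (a (b (l 16687784) (l 16691712)) (a (b (l 16679440) (l 16683256)) (b (l 16691480) (l 16684736)))) (a (b (l 16695680) (l 16699160)) (b (l 16698272) (l 16702120)))) (a (b (a (b (l 16671888) (l 16676024)) (b (l 16683880) (l 16677440))) (b (c (l 16681960) (l 16679768)) (l 16695560))) (b (a (b (l 16685480) (l 16689448)) (b (l 16687192) (l 16691080))) (a (b (l 16682976) (l 16687040)) (b (l 16684512) (l 16688488))))))), by decide +kernel⟩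

def k11_A00mm_202_s3 : ∃ t, chk3 f_A00mm_202_s3 t 119 33 1 = true :=
  ⟨(b (a (b (a (c (b (l 16683768) (l 16682184)) (b (l 16679216) (l 16682960))) (c (b (l 16685768) (l 16684128)) (b (l 16681392) (l 16685088)))) (a (c (b (l 16685832) (l 16689480)) (b (l 16681472) (l 16685232))) (c (b (l 16687720) (l 16691304)) (b (l 16688776) (l 16687224))))) (b (a (c (b (l 16687840) (l 16691416)) (b (c (l 16689952) (l 16687832)) (l 16687312))) (c (b (l 16690000) (l 16693552)) (b (l 16686000) (l 16689632)))) (a (c (b (l 16689704) (l 16693224)) (b (l 16690936) (l 16689320))) (c (b (l 16691784) (l 16695256)) (b (l 16693200) (l 16696760)))))) (a (a (b (c (b (l 16693136) (l 16696800)) (b (l 16689008) (l 16692808))) (b (c (l 16690000) (l 16696648)) (c (l 16693720) (l 16690048)))) (b (c (b (l 16694888) (l 16698488)) (b (l 16690928) (l 16694656))) (b (c (l 16702096) (l 16698408)) (c (l 16695256) (l 16702208))))) (a (b (c (b (l 16696752) (l 16700272)) (b (l 16692952) (l 16696600)))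 (c (b (l 16703816) (l 16707376)) (b (l 16700280) (l 16703992)))) (b (c (b (l 16698712) (l 16702168)) (b (l 16695088) (l 16698664))) (c (b (l 16705640) (l 16709128)) (b (l 16702264) (l 16705896))))))), by decide +kernel⟩

def k12_A00mm_202_s3 : ∃ t, chk3 f_A00mm_202_s3 t 120 32 1 = true :=
  ⟨(a (b (c (a (b (b (l 16668248) (l 16669944)) (b (l 16674168) (l 16678296))) (b (b (l 16670608) (l 16672296)) (b (l 16676512) (l 16680632)))) (a (b (b (l 16661080) (l 16665496)) (b (l 16669808) (l 16674024))) (b (b (l 16663608) (l 16668016)) (b (l 16672328) (l 16676544))))) (a (c (b (b (l 16682328) (l 16686256)) (b (l 16690096) (l 16693832))) (b (b (l 16678152) (l 16682176)) (b (l 16686096) (l 16689928)))) (c (b (a (b (l 16684064) (l 16687992)) (b (l 16685248) (l 16689168))) (b (c (l 16693344) (l 16691464)) (l 16696144))) (b (b (l 16680656) (l 16684672)) (b (l 16688592) (l 16692416)))))) (b (c (a (b (b (l 16673032) (l 16674720)) (b (l 16678928) (l 16683040))) (b (b (l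 16675528) (l 16677208)) (b (l 16681408) (l 16685520)))) (a (b (b (l 16666208) (l 16670616)) (b (l 16674920) (l 16679128))) (b (b (l 16668880) (l 16673272)) (b (l 16677576) (l 16681784))))) (a (c (b (a (b (l 16686448) (l 16690368)) (b (l 16687664) (l 16691584))) (b (c (l 16695688) (l 16693896)) (l 16693280))) (b (b (l 16683240) (l 16687248)) (b (l 16691160) (l 16694976)))) (b (c (a (b (l 16688904) (l 16692816)) (b (l 16690160) (l 16694072))) (b (l 16685888) (l 16689896))) (c (a (b (l 16696640) (l 16700360)) (b (l 16697888) (l 16701608))) (b (l 16693808) (l 16697616))))))), by decide +kernel⟩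

def k13_A00mm_202_s3 : ∃ t, chk3 f_A00mm_202_s3 t 121 32 1 = true :=
  ⟨(a (b (a (b (c (b (c (l 16676424) (l 16674520)) (l 16679768)) (b (l 16671616) (l 16676008))) (c (b (l 16683968) (l 16688072)) (b (l 16680304) (l 16684512)))) (b (c (b (c (l 16679016) (l 16677200)) (l 16682400)) (b (l 16674424) (l 16678816))) (c (b (l 16686600) (c (l 16691536) (l 16689856))) (b (l 16683112) (l 16687312))))) (a (b (c (a (b (l 16691432) (l 16695344)) (b (l 16692728) (l 16696632))) (b (l 16688616) (l 16692616))) (c (a (b (l 16699160) (l 16702872)) (b (l 16700448) (l 16704160))) (b (l 16696528) (l 16700336)))) (b (c (a (b (l 16694040) (l 16697944)) (b (l 16695368) (l 16699272))) (b (l 16691416) (l 16695416))) (c (a (b (l 16701752) (l 16705464)) (b (l 16703080) (l 16706792))) (b (l 16699320) (l 16697888)))))) (b (a (b (c (b (l 16680824) (l 16685112)) (b (l 16677304) (l 16681696))) (c (b (l 16689304) (c (l 16694192) (l 16692608))) (b (l 16685992) (l 16690184)))) (b (c (b (l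 16683608) (l 16687896)) (b (l 16680256) (l 16684648))) (c (b (l 16692088) (c (l 16696936) (l 16695432))) (b (l 16688944) (l 16693144))))) (a (b (c (a (b (l 16696720) (l 16700624)) (b (l 16698088) (l 16701992))) (b (l 16694288) (l 16698288))) (c (a (b (l 16704432) (l 16708136)) (b (l 16705792) (l 16709504))) (b (l 16702192) (l 16700760)))) (b (c (a (b (l 16699480) (l 16703376)) (b (l 16700888) (l 16704792))) (b (l 16697240) (l 16701240))) (c (a (b (l 16707184) (l 16710888)) (b (l 16708592) (l 16712296))) (b (l 16705144) (l 16703704))))))), by decide +kernel⟩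

def k14_A00mm_202_s3 : ∃ t, chk3 f_A00mm_202_s3 t 122 32 1 = true :=
  ⟨(a (b (c (a (b (b (l 16686472) (l 16690760)) (b (l 16694952) (c (l 16699752) (l 16698336)))) (b (b (l 16692040) (l 16693704)) (a (b (l 16697152) (l 16701240)) (b (l 16698632) (l 16702728))))) (a (b (b (l 16683288) (l 16687680)) (b (l 16691976) (l 16696176))) (b (b (l 16686392) (l 16690784)) (b (l 16695080) (l 16699280))))) (a (b (c (a (b (l 16702320) (l 16706216)) (b (l 16703768) (l 16707664))) (b (l 16700272) (l 16704272))) (c (a (b (l 16710016) (l 16713720)) (b (l 16711472) (l 16715168))) (b (l 16708176) (c (l 16712608) (l 16711360))))) (b (c (a (b (l 16705240) (l 16709136)) (b (l 16706720) (l 16710624))) (b (l 16703384) (l 16707384))) (c (a (b (l 16712936) (l 16716640)) (b (l 16714424) (l 16718128))) (a (b (l 16710504) (l 16714312)) (b (l 16712072) (l 16715880))))))) (b (c (a (b (b (c (l 16693064) (l 16691648)) (l 16696648)) (a (b (l 16700104) (l 16704200)) (b (l 16701560) (l 16705656))))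 (b (b (c (l 16695928) (l 16694576)) (l 16699544)) (a (b (l 16703008) (l 16707104)) (b (l 16704448) (l 16708552))))) (a (b (b (l 16689488) (l 16693880)) (b (l 16698184) (l 16702384))) (b (b (l 16692512) (l 16696912)) (b (l 16701216) (l 16705424))))) (c (a (b (a (b (l 16708192) (l 16712096)) (b (l 16709656) (l 16713552))) (a (b (l 16715896) (l 16719600)) (b (l 16717352) (l 16721056)))) (a (b (b (l 16711104) (l 16715008)) (b (l 16718808) (l 16722512))) (b (b (l 16712544) (l 16716448)) (b (l 16720256) (l 16723960))))) (a (b (b (l 16706488) (l 16710496)) (a (b (l 16713632) (l 16717440)) (b (l 16715168) (l 16718976)))) (b (b (l 16709536) (l 16713544)) (a (b (l 16716696) (l 16720504)) (b (l 16718208) (l 16722024)))))))), by decide +kernel⟩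

def k15_A00mm_202_s3 : ∃ t, chk3 f_A00mm_202_s3 t 123 64 1 = true :=
  ⟨(b (b (a (a (c (c (l 16698760) (l 16697472)) (l 16695496)) (c (c (l 16701600) (l 16700352)) (l 16698464))) (l 14)) (a (a (c (l 16702408) (l 16699904)) (c (l 16707896) (l 16702872))) (a (c (a (l 16707424) (l 16708872)) (l 16705848)) (c (c (l 16711608) (l 16710512)) (l 16708848))))) (b (a (a (c (a (l 16705888) (l 16707320)) (l 16704216)) (c (a (l 16708752) (l 16710192)) (l 16707192))) (a (c (a (l 16711632) (l 16713080)) (l 16710176)) (c (a (l 16714536) (l 16716008)) (l 16713184)))) (a (a (c (c (l 16711264) (l 16710144)) (l 16708424)) (c (c (l 16714112) (l 16713040)) (l 16711408))) (a (c (c (l 16716976) (l 16715952)) (l 16714400)) (c (c (l 16719880) (l 16718904)) (l 16720040)))))), by decide +kernel⟩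

def k16_A00mm_202_s3 : ∃ t, chk3 f_A00mm_202_s3 t 123 65 1 = true :=
  ⟨(b (b (a (a (c (c (l 16715240) (l 16714168)) (l 16712544)) (c (a (l 16716864) (l 16718304)) (l 16715528))) (a (a (a (l 530610959) (l 530581007)) (a (l 530550031) (l 530518287))) (a (a (l 530485775) (l 530452239)) (a (l 530417935) (l 530382607))))) (a (a (c (c (l 16719120) (l 16718104)) (l 16716560)) (a (c (l 16720768) (l 16718800)) (c (l 16722216) (l 16720304)))) (a (a (c (l 16723664) (l 16721808)) (c (l 16725120) (l 16723312))) (a (c (l 16726592) (l 16724832)) (c (l 16728072) (l 16726360)))))) (a (a (a (c (b (l 16721696) (l 16725408)) (b (l 16719720) (l 16723536))) (c (b (l 16723136) (l 16726848)) (b (l 16721224) (l 16725040)))) (a (c (b (l 16724584) (l 16728296)) (b (l 16722728) (l 16726552))) (c (b (l 16726024) (l 16729744)) (b (l 16724232) (l 16728056))))) (a (a (c (b (l 16727480) (l 16731200)) (b (l 16725736) (l 16729568))) (c (b (l 16728936) (l 16732664)) (b (l 16727248) (l 16731080))))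 (a (c (b (l 16730408) (l 530869519)) (b (l 16728768) (l 16732608))) (c (a (l 530771727) (l 530737679)) (b (l 16730304) (l 16734152))))))), by decide +kernel⟩

def k17_A00mm_202_s3 : ∃ t, chk3 f_A00mm_202_s3 t 31 64 1 = true :=
  ⟨(a (a (b (l 14) (b (a (a (c (c (l 16718736) (l 16717744)) (l 16718856)) (l 14)) (l 14)) (b (a (a (a (l 16719632) (l 16721160)) (c (l 16724424) (l 16722592))) (l 14)) (a (a (c (l 16723384) (l 16721528)) (c (l 16726464) (l 16724696))) (a (c (l 16729728) (l 16728056)) (l 14)))))) (l 14)) (l 14)), by decide +kernel⟩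

def k18_A00mm_202_s3 : ∃ t, chk3 f_A00mm_202_s3 t 31 130 1 = true :=
  ⟨(a (a (a (a (a (a (c (l 530505743) (l 530284559)) (b (l 530309135) (l 530408207))) (a (b (l 530270991) (l 530370063)) (b (l 530232079) (l 530330895)))) (a (a (b (l 530192143) (l 530291215)) (b (l 530152207) (l 530251279))) (a (b (l 530112271) (l 530211087)) (b (l 530072335) (l 530171151))))) (a (a (a (b (l 530032399) (l 530131215)) (b (l 529992207) (l 530091023))) (a (b (l 529952015) (l 530050831)) (b (l 529912079) (l 530010639)))) (a (a (b (l 529871887) (l 529970447)) (b (l 529831695) (l 529930255))) (a (b (l 529791247) (l 529889807)) (b (l 529751055) (l 529849359)))))) (b (l 14) (a (a (a (a (l 529809167) (l 529768719)) (a (l 529828879) (c (l 529548047) (l 529288975)))) (b (l 14) (a (a (l 529671695) (l 529630991)) (a (l 529590543) (l 14))))) (l 14)))) (l 14)), by decide +kernel⟩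

def k19_A00mm_202_s3 : ∃ t, chk3 f_A00mm_202_s3 t 31 131 1 = true :=
  ⟨(a (a (a (a (a (a (c (l 530702607) (l 530484239)) (c (l 530666767) (l 530446607))) (a (b (l 530469391) (l 530569231)) (b (l 530430479) (l 530530063)))) (a (a (b (l 530390543) (l 530490127)) (b (l 530350607) (l 530450191))) (a (b (l 530310415) (l 530409999)) (b (l 530270479) (l 530370063))))) (a (a (a (b (l 530230287) (l 530329871)) (b (l 530190095) (l 530289679))) (a (b (l 530149903) (l 530249487)) (b (l 530109711) (l 530209039)))) (a (a (b (l 530069519) (l 530168847)) (b (l 530029071) (l 530128399))) (a (b (l 529988623) (l 530087951)) (b (l 529948431) (l 530047503)))))) (a (a (a (a (b (l 529907983) (l 530007055)) (b (l 529867535) (l 529966607))) (a (b (l 529893903) (l 529925903)) (b (c (l 529646095) (l 529656591)) (c (l 529744399) (l 529756431))))) (a (a (b (c (l 529606415) (l 529615119)) (a (l 529854991) (l 529834767))) (b (a (l 529715471) (l 529694991)) (a (l 529814287) (l 529794063))))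 (a (b (a (l 529674767) (l 529654287)) (a (l 529773583) (l 529753359))) (b (a (l 529634063) (l 529613583)) (a (l 529732879) (l 529712399)))))) (b (a (a (a (a (l 529593359) (l 529572879)) (a (l 529552399) (l 529532175))) (a (a (l 529511695) (l 529491215)) (a (l 529470735) (l 529450255)))) (a (a (a (l 529429775) (l 14)) (l 14)) (l 14))) (a (a (a (a (l 529692175) (l 529671695)) (a (l 529651215) (l 529630991))) (a (a (l 529610511) (l 529590031)) (a (l 529569551) (l 529549071)))) (a (a (a (l 529528591) (l 529508111)) (a (l 529487631) (l 529467151))) (a (a (l 529446671) (l 529425935)) (a (l 529405455) (l 529384975)))))))) (b (l 14) (a (a (a (a (a (a (l 529364239) (l 529343759)) (a (l 529323279) (l 529302543))) (a (a (l 529349135) (c (l 529136399) (l 528847887))) (l 14))) (l 14)) (l 14)) (l 4)))), by decide +kernel⟩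

def k20_A00mm_202_s3 : ∃ t, chk3 f_A00mm_202_s3 t 120 33 1 = true :=
  ⟨(a (b (b (a (c (b (l 16692232) (l 16695760)) (b (l 16688408) (l 16692024))) (c (b (l 16694528) (l 16698064)) (b (l 16696136) (l 16694512)))) (a (c (b (l 16699216) (l 16697384)) (b (l 16695576) (l 16699072))) (c (b (l 16701496) (l 16704864)) (b (l 16698032) (l 16701496))))) (b (a (c (b (l 16700776) (l 16704176)) (b (l 16702568) (l 16700832))) (c (b (l 16708192) (l 16706288)) (b (l 16704920) (l 16708360)))) (a (c (b (l 16707576) (l 16710992)) (b (l 16704360) (l 16707912))) (c (b (l 16709624) (l 16712968)) (b (l 16711816) (l 16710040)))))) (b (a (b (c (b (l 16696904) (l 16700432)) (b (l 16698696) (l 16697072))) (c (b (l 16703856) (l 16707192)) (b (l 16700584) (l 16704008)))) (b (c (b (l 16699360) (l 16702880)) (b (l 16696088) (l 16699704))) (c (b (l 16706304) (l 16709616)) (b (l 16703216) (l 16706616))))) (a (b (c (b (l 16710472) (l 16713752)) (b (l 16707384) (l 16710760))) (c (b (l 16717024)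 (l 16715056)) (b (l 16714136) (l 16717536)))) (b (c (b (l 16712872) (l 16716080)) (b (l 16709960) (l 16713264))) (c (b (l 16719288) (l 16722504)) (b (l 16716584) (l 16719912))))))), by decide +kernel⟩

def k21_A00mm_202_s3 : ∃ t, chk3 f_A00mm_202_s3 t 242 33 1 = true :=
  ⟨(b (a (b (c (b (c (l 16707888) (l 16706368)) (l 16705400)) (b (l 16698800) (l 16702408))) (c (b (l 16708824) (l 16712136)) (b (l 16705920) (l 16709328)))) (b (c (a (b (l 16709080) (l 16712592)) (b (l 16710400) (l 16713912))) (b (l 16701592) (l 16705200))) (c (b (l 16711424) (l 16714736)) (b (l 16708704) (l 16712112))))) (a (b (c (b (l 16715360) (l 16718520)) (b (l 16712632) (l 16715888))) (c (b (l 16721672) (l 16724824)) (b (l 16719144) (l 16722400)))) (b (c (a (b (l 16722536) (l 16725672)) (b (l 16723856) (l 16726976))) (a (b (l 16719944) (l 16723184)) (b (l 16721360) (l 16724576)))) (c (a (b (l 16728776) (l 16731880)) (b (l 16730056) (l 16733128))) (a (b (l 16726376) (l 16729592)) (b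 (l 16727744) (l 16730928))))))), by decide +kernel⟩

def k22_A00mm_202_s3 : ∃ t, chk3 f_A00mm_202_s3 t 243 33 1 = true :=
  ⟨(b (a (b (c (a (b (l 16711744) (l 16715256)) (b (l 16713112) (l 16716624))) (a (b (l 16708976) (l 16712584)) (b (l 16710432) (l 16714040)))) (c (a (b (l 16718672) (l 16721984)) (b (l 16720032) (l 16723344))) (b (l 16711568) (c (l 16720832) (l 16719600))))) (b (c (a (b (l 16714496) (l 16718008)) (b (l 16715904) (l 16719408))) (a (b (l 16711912) (l 16715512)) (b (l 16713408) (l 16717008)))) (c (a (b (l 16721416) (l 16724720)) (b (l 16722816) (l 16726128))) (a (b (l 16719016) (l 16722424)) (b (l 16720512) (l 16723920)))))) (a (b (c (a (b (l 16725192) (l 16728304)) (b (l 16726552) (l 16729664))) (a (b (l 16722792) (l 16726000)) (b (l 16724248) (l 16727448)))) (c (a (b (l 16731360) (l 16734408)) (b (l 16732696) (l 16730472))) (a (b (l 16729144) (l 16732288)) (b (l 16730576) (l 16733688))))) (b (c (a (b (l 16727936) (l 16731040)) (b (l 16729336)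 (l 16732440))) (a (b (l 16725720) (l 16728912)) (b (l 16727216) (l 16730416)))) (c (a (b (l 16734064) (l 16731808)) (b (l 16735456) (l 16733176))) (a (b (l 16732032) (l 16735120)) (b (l 16733520) (l 16731328))))))), by decide +kernel⟩

def k23_A00mm_202_s3 : ∃ t, chk3 f_A00mm_202_s3 t 244 33 1 = true :=
  ⟨(b (a (b (c (a (b (l 16717328) (l 16720832)) (b (l 16718776) (l 16722280))) (a (b (l 16714920) (l 16718528)) (b (l 16716456) (l 16720064)))) (c (a (b (l 16724240) (l 16727552)) (b (l 16725688) (l 16729000))) (a (b (l 16722032) (l 16725432)) (b (l 16723568) (l 16726976))))) (b (c (a (b (l 16720248) (l 16723752)) (b (l 16721728) (l 16725232))) (a (b (l 16718016) (l 16721624)) (b (l 16719592) (l 16723192)))) (a (c (b (l 16727160) (l 16730464)) (b (l 16725128) (l 16728536))) (c (b (l 16728640) (l 16731952)) (b (l 16726704) (l 16730104)))))) (a (b (c (a (b (l 16730760) (l 16733864)) (b (l 16732208) (l 16735312))) (a (b (l 16728736) (l 16731936)) (b (l 16730272)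 (l 16733472)))) (c (a (b (l 16731632) (l 16734568)) (b (l 16733072) (l 16736000))) (a (b (l 16735032) (l 16732824)) (b (l 16736568) (l 16734344))))) (b (a (c (b (l 16733672) (l 16736784)) (b (l 16731840) (l 16735040))) (c (b (l 16735152) (l 16738264)) (b (l 16733408) (l 16736608)))) (a (c (b (l 16734544) (l 531997199)) (b (l 16738136) (l 16735896))) (c (b (l 16736024) (l 531984399)) (b (l 16734464) (l 531767567))))))), by decide +kernel⟩

def k24_A00mm_202_s3 : ∃ t, chk3 f_A00mm_202_s3 t 245 33 1 = true :=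
  ⟨(b (a (b (a (c (b (l 16723200) (l 16726712)) (b (l 16721144) (l 16724752))) (c (b (l 16724664) (l 16728168)) (b (l 16722688) (l 16726296)))) (a (c (b (l 16730112) (l 16733424)) (b (l 16728264) (l 16731664))) (c (b (l 16731576) (l 16734888)) (b (l 16729808) (l 16733216))))) (b (a (c (b (l 16726120) (l 16729624)) (b (l 16724216) (l 16727832))) (c (b (l 16727568) (l 16731080)) (b (l 16725736) (l 16729352)))) (a (c (b (l 16733032) (l 16736344)) (b (l 16731336) (l 16734752))) (c (b (l 16734488) (l 16737800)) (b (l 16732864) (l 16736280)))))) (a (b (a (c (b (l 16736632) (l 16734496)) (b (l 16734968) (l 16738176))) (c (b (l 16738096) (l 16735960)) (b (l 16736520) (l 16739728)))) (a (c (b (l 16737496) (l 531969807)) (b (l 16736032) (l 531756047))) (c (b (l 531880975) (l 531952655)) (b (l 16737584) (l 531741967))))) (b (a (c (b (l 16739552) (l 16737416)) (b (l 16738056) (l 16736024))) (c (b (l 16735768) (l 16738872)) (b (l 16739584) (l 16737552)))) (a (c (b (l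 531858191) (l 531932175)) (b (l 16739128) (l 531724047))) (c (b (l 531832335) (l 531908879)) (b (l 531627535) (l 531703055))))))), by decide +kernel⟩

def k25_A00mm_202_s3 : ∃ t, chk3 f_A00mm_202_s3 t 246 33 1 = true :=
  ⟨(b (a (a (b (c (b (l 16729016) (l 16732528)) (b (l 16727256) (l 16730872))) (c (b (l 16735936) (l 16739248)) (b (l 16734384) (l 16737800)))) (b (c (b (l 16730456) (l 16733976)) (b (l 16728760) (l 16732384))) (c (b (l 16737384) (l 16735456)) (b (l 16735904) (l 16739320))))) (a (b (c (b (l 16731904) (l 16735424)) (b (l 16730272) (l 16733896))) (c (b (l 16738840) (l 531468303)) (b (l 16737416) (l 16740840)))) (b (c (b (l 16733360) (l 16736872)) (b (l 16731784) (l 16735408))) (c (a (l 531387919) (l 531363599)) (b (l 16738936) (l 16737112)))))) (a (b (a (c (b (l 16737216) (l 531720975)) (b (l 16741112) (l 16739080))) (c (a (l 531652623) (l 531633679)) (b (l 16737392) (l 531484431)))) (a (c (b (l 531803407) (l 531882511)) (b (l 531600143) (l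 531678479))) (c (b (l 531771151) (l 531852815)) (b (l 531569167) (l 531650575))))) (b (a (c (a (l 531614223) (l 531593743)) (b (l 16738912) (l 531446799))) (c (a (l 531572239) (l 531549967)) (a (l 531370511) (l 531347983)))) (a (c (b (l 531735567) (l 531820047)) (b (l 531534351) (l 531618575))) (c (a (l 531750159) (l 531730447)) (a (l 531549455) (l 531529743))))))), by decide +kernel⟩

def k26_A00mm_202_s3 : ∃ t, chk3 f_A00mm_202_s3 t 247 33 1 = true :=
  ⟨(a (b (a (b (c (b (l 16734816) (l 16735712)) (b (l 16733296) (l 16736928))) (c (a (l 531338511) (l 531312399)) (b (l 16740456) (l 531169039)))) (b (c (a (l 531091983) (l 531062543)) (b (l 16734816) (l 16738448))) (c (a (l 531285263) (l 531257103)) (b (l 16736744) (l 531114255))))) (b (a (c (a (l 531526671) (l 531502351)) (a (l 531324431) (l 531299855))) (c (a (l 531476751) (l 531450383)) (a (l 531273999) (l 531246863)))) (a (c (a (l 531709455) (l 531687439)) (a (l 531508751) (l 531486735))) (c (a (l 531664399)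 (l 531640335)) (a (l 531463439) (l 531439119)))))) (b (a (b (c (a (l 531032335) (l 531001103)) (b (l 16736352) (l 530855951))) (c (a (l 531227919) (l 531197711)) (a (l 531020815) (l 530989583)))) (b (a (c (l 530968591) (l 530756111)) (c (l 530935311) (l 530721295))) (a (c (l 531166223) (l 530956815)) (c (l 531133711) (l 530923023))))) (a (b (c (a (l 531422735) (l 531394063)) (a (l 531218447) (l 531188751))) (c (a (l 531614991) (l 531588367)) (a (l 531413263) (l 531386127)))) (b (a (c (l 531363855) (l 531157775)) (l 530826767)) (a (c (l 531560463) (l 531357199)) (c (l 531531023) (l 531326735))))))), by decide +kernel⟩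

def k27_A00mm_202_s3 : ∃ t, chk3 f_A00mm_202_s3 t 124 66 1 = true :=
  ⟨(a (a (a (b (a (c (l 530900751) (l 530685455)) (c (l 530865167) (l 530648079))) (a (c (l 531099919) (l 530887695)) (l 530690063))) (b (a (c (l 530828303) (l 530609423)) (c (l 530790415) (l 530569487))) (a (l 530921231) (l 530882319)))) (a (b (a (c (l 530751247) (l 530528527)) (c (l 530712335) (l 530487311))) (a (l 530842383) (l 530802191))) (b (a (c (l 530673167) (l 530446095)) (c (l 530633999) (l 530404879))) (a (l 530761999) (l 530721551))))) (a (a (b (a (c (l 530594831) (l 530363663)) (c (l 530555663) (l 530322191))) (a (l 530681359) (l 530372623))) (b (a (c (l 530516495) (l 530280975)) (c (l 530477071) (l 530239503))) (a (c (l 530715919) (l 530483727)) (c (l 530676495) (l 530442255))))) (a (b (a (c (l 530437647) (l 530198031)) (c (l 530398479) (l 530156559))) (a (c (l 530637071) (l 530400783)) (c (l 530597647) (l 530359055)))) (b (a (c (l 530359055) (l 530115087)) (a (l 530207503)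 (l 530187279))) (a (c (l 530558223) (l 530317583)) (c (l 530518799) (l 530275855))))))), by decide +kernel⟩

def k28_A00mm_202_s3 : ∃ t, chk3 f_A00mm_202_s3 t 125 66 1 = true :=
  ⟨(a (a (a (b (a (a (l 530166799) (l 530146575)) (a (l 530126351) (l 530106127))) (a (c (l 530479119) (l 530234127)) (c (l 530439439) (l 530192399)))) (b (b (a (l 530025487) (l 529984783)) (a (l 530125327) (l 530084623))) (a (c (l 530399759) (l 530150671)) (a (l 530245647) (l 530225167))))) (a (b (a (b (a (l 529954575) (l 529934095)) (l 530178319)) (a (b (l 529913615) (l 530013455)) (b (l 529893391) (l 529993231)))) (a (a (l 530204687) (l 530184463)) (a (l 530163983) (l 530143503)))) (b (a (a (b (l 529872911) (l 529972751)) (b (l 529852687) (l 529952271))) (a (b (l 529832207) (l 529931791)) (b (l 529811727) (l 529911567)))) (a (a (l 530123023) (l 530102543)) (a (l 530082319) (l 530061839)))))) (a (a (b (a (a (b (l 529791247) (l 529891087)) (b (l 529771023) (l 529870607))) (a (b (l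 529750543) (l 529850127)) (b (l 529730063) (l 529829647)))) (a (a (l 530041359) (l 530020879)) (a (l 530134543) (b (l 529929487) (l 530029839))))) (a (b (a (b (l 529709583) (l 529809167)) (b (l 529689103) (l 529788687))) (a (b (l 529909007) (l 530009359)) (b (l 529888527) (l 529988879)))) (b (a (b (l 529668623) (l 529768207)) (b (l 529648143) (l 529747727))) (a (b (l 529868047) (l 529968399)) (b (l 529847567) (l 529947663)))))) (a (a (b (a (b (l 529627663) (l 529726991)) (b (l 529607183) (l 529706511))) (a (b (l 529826831) (l 529927183)) (b (l 529806351) (l 529906703)))) (b (b (a (l 529586703) (l 529565967)) (a (l 529686031) (l 529665551))) (a (b (l 529785871) (l 529885967)) (b (l 529765135) (l 529865487))))) (a (b (b (a (l 529545487) (l 529525007)) (a (l 529644815) (l 529624335))) (a (b (l 529744655) (l 529844751)) (b (l 529724175) (l 529824271)))) (b (a (b (l 529504527) (l 529603855)) (b (l 529483791) (c (l 529453583) (l 529174031)))) (b (a (l 529703439)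 (l 529682959)) (l 4))))))), by decide +kernel⟩

def k29_A00mm_202_s3 : ∃ t, chk3 f_A00mm_202_s3 t 63 66 1 = true :=
  ⟨(a (a (b (a (a (a (a (b (l 529463311) (c (l 529433615) (l 529153039))) (b (l 529442575) (c (l 529413391) (l 529131791)))) (a (b (l 529422095) (c (l 529393423) (l 529110799))) (b (l 529401359) (c (l 529373199) (l 529089551))))) (a (a (b (l 529380879) (l 529479951)) (b (l 529427215) (l 529459215))) (a (b (c (l 529214479) (l 528926223)) (l 529539343)) (b (c (l 529194255) (l 528904975)) (c (l 529292815) (l 529004815)))))) (b (b (a (a (a (l 529273359) (l 529252879)) (a (l 529232143) (l 529211407))) (l 14)) (a (a (a (l 529323023) (l 529302287)) (a (l 529281551) (l 529260815))) (a (a (a (l 529245455) (l 529234959)) (l 4)) (l 4)))) (a (a (b (a (l 529372431) (l 529351695)) (l 4)) (l 4)) (l 4)))) (b (a (a (a (a (l 529662223) (l 529641487)) (a (l 529621007) (c (l 529472271) (l 529189903)))) (l 4)) (l 4)) (l 4))) (l 4)) (l 4)), by decide +kernel⟩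

def k30_A00mm_202_s3 : ∃ t, chk3 f_A00mm_202_s3 t 31 67 1 = true :=
  ⟨(a (a (a (a (a (b (a (l 530927631) (l 531161103)) (a (l 530995215) (l 531095823))) (b (a (l 531124239) (l 531085583)) (a (l 531328527) (l 531290383)))) (a (b (a (l 531045647) (l 531005199)) (a (l 531250447) (l 531209999))) (b (a (l 530965007) (l 530924559)) (a (l 531169551) (l 531129103))))) (a (a (b (a (l 530884111) (l 530843919)) (a (l 531088655) (l 531048207))) (a (b (l 530803215) (l 531007503)) (b (l 530762767) (l 530967055)))) (a (a (b (l 530722319) (l 530926351)) (b (l 530413327) (l 530885647))) (a (b (l 530238479) (l 530844943)) (b (c (l 530719247) (l 530479887)) (l 530804239)))))) (a (b (a (a (a (c (l 530679823) (l 530438159)) (c (l 530639887) (l 530396431))) (a (c (l 530600207) (l 530354447)) (c (l 530560527) (l 530312463)))) (a (a (a (l 530406671) (l 530386191)) (a (l 530365711) (l 530345231))) (a (a (l 530324751) (l 530304271)) (a (l 530283791) (l 530263311))))) (a (a (a (l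 530763535) (l 530454287)) (a (c (l 530802191) (l 530560015)) (a (l 530651151) (l 530630671)))) (a (b (a (l 530548751) (l 530507791)) (l 4)) (l 4)))) (b (a (a (a (a (l 530242831) (l 530222351)) (a (l 530201871) (l 530181391))) (a (a (l 530160655) (l 530140175)) (a (l 530119439) (l 530098959)))) (l 4)) (l 4)))) (l 4)), by decide +kernel⟩

def k31_A00mm_202_s3 : ∃ t, chk3 f_A00mm_202_s3 t 56 17 1 = true :=
  ⟨(b (b (a (a (b (l 16603968) (l 16599856)) (b (l 16614320) (l 16610440))) (a (b (l 16603464) (l 16599816)) (b (l 16613344) (c (l 16628648) (l 16633184))))) (a (a (b (l 16595992) (l 16592728)) (b (l 16606800) (l 16603768))) (a (b (l 16617384) (l 16614568)) (b (c (l 16625792) (l 16629680)) (c (l 16623512) (l 16626784)))))) (a (b (a (b (l 16590248) (l 16588680)) (b (l 16601512) (l 16600176))) (a (b (l 16588160) (l 16588616)) (b (l 16599888) (l 16600576)))) (b (a (b (l 16612544) (l 16611432)) (b (c (l 16621992) (l 16624704)) (c (l 16621360) (l 16623576)))) (a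 (b (a (l 16587560) (l 16593248)) (l 16612304)) (b (c (l 16621736) (l 16623544)) (c (l 16623056) (l 16624528))))))), by decide +kernel⟩

def k32_A00mm_202_s3 : ∃ t, chk3 f_A00mm_202_s3 t 57 17 1 = true :=
  ⟨(b (a (b (a (b (c (l 16641440) (l 16646512)) (c (l 16638552) (l 16643008))) (b (b (l 16633128) (l 16631632)) (c (l 16648224) (l 16652576)))) (a (b (c (l 16635920) (l 16639736)) (c (l 16633864) (l 16637072))) (b (c (l 16645800) (l 16649536)) (c (l 16643968) (l 16647104))))) (b (a (b (c (l 16660080) (l 16643960)) (b (l 16649952) (l 16648616))) (b (c (l 16648048) (l 16652768)) (b (l 16659008) (l 16657784)))) (a (b (b (l 16647344) (l 16646216)) (c (l 16653824) (l 16656880))) (b (c (l 16664824) (l 16657872)) (c (l 16663424) (l 16655896)))))) (a (b (a (b (c (l 16632560) (l 16635224)) (c (l 16632152) (l 16634328))) (b (c (l 16642888) (l 16645488)) (c (l 16642696) (l 16644824)))) (a (b (c (l 16632752) (l 16634536)) (c (l 16634296) (l 16635752))) (b (c (l 16643528)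 (l 16645264)) (c (l 16645296) (l 16646720))))) (b (a (b (c (l 16652968) (l 16655488)) (c (l 16653000) (l 16657680))) (a (b (l 530925071) (l 530597135)) (b (l 530979855) (l 530649871)))) (a (b (c (l 16656672) (b (l 16655440) (l 16656072))) (c (l 16658664) (l 529974543))) (b (a (l 530291983) (l 530343695)) (a (l 530011663) (l 530063119))))))), by decide +kernel⟩

def k33_A00mm_202_s3 : ∃ t, chk3 f_A00mm_202_s3 t 58 17 1 = true :=
  ⟨(b (a (b (a (b (a (c (l 16675600) (l 16659248)) (b (l 16661696) (l 16660568))) (c (l 16665232) (l 16669232))) (b (a (b (l 16665832) (l 16664784)) (c (l 16667216) (l 16671600))) (a (b (l 16663728) (l 16683672)) (b (l 16667920) (l 16666952))))) (a (a (b (l 531193871) (l 531380239)) (b (l 531254031) (l 531169551))) (b (a (l 531314703) (l 531376143)) (a (l 530959119) (l 531017743))))) (b (a (b (a (c (l 16671248) (l 16675544)) (c (l 16685712) (l 16689920))) (a (b (l 16682544) (l 16681624)) (b (l 16686592) (l 16685736)))) (b (a (c (l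 16689568) (l 16693680)) (c (l 16693336) (l 16697336))) (a (b (l 16690560) (l 16689792)) (b (l 16694440) (l 532171791))))) (a (b (a (l 531438095) (b (l 16684936) (l 16684280))) (a (l 531076623) (l 531136015))) (b (a (b (l 16689040) (l 16688440)) (b (l 16693064) (l 16697768))) (a (l 531195663) (c (l 16701320) (l 531875855))))))) (a (b (a (b (a (l 531034895) (l 531089935)) (a (l 530702863) (l 530755855))) (b (a (l 530608655) (c (l 16683944) (l 16686152))) (a (c (l 16679992) (l 16681824)) (c (l 16684688) (l 530920719))))) (a (b (a (l 530395407) (l 530413327)) (a (l 530114575) (l 530165775))) (b (a (c (l 16681656) (l 530548751)) (c (l 530499855) (l 530600975))) (a (l 530216975) (l 530267919))))) (b (a (b (a (l 530720015) (c (l 16692912) (l 531382799))) (a (c (l 16689320) (l 530974479)) (c (l 530908431) (l 531027983)))) (b (a (c (l 16697296) (l 531439887)) (c (l 531354383) (l 531496975))) (a (c (l 530960655) (l 531081487)) (c (l 531012367) (l 531134479))))) (a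 (a (b (c (l 530550287) (l 530652687)) (l 530318607)) (b (c (l 530600463) (l 530704143)) (l 530369039))) (a (b (c (l 530650383) (l 530755087)) (l 530418703)) (b (b (l 530828047) (l 530678799)) (l 530468111))))))), by decide +kernel⟩

def k34_A00mm_202_s3 : ∃ t, chk3 f_A00mm_202_s3 t 59 34 1 = true :=
  ⟨(a (b (a (b (a (b (l 16699144) (l 16698712)) (b (l 532478735) (l 16702304))) (a (b (l 16698224) (l 532238607)) (b (l 532203535) (l 532305167)))) (b (a (b (l 532398095) (l 532417039)) (b (l 532384783) (l 532450319))) (a (b (l 532267535) (l 532103183)) (b (l 532331279) (l 532169743))))) (a (b (a (b (l 532054799) (l 532136207)) (b (l 532122895) (l 532202511))) (a (l 531317263) (l 531380239))) (b (a (b (l 532192271) (l 532002575)) (b (l 532261135) (l 532073231))) (a (b (l 532078607) (l 531886095)) (c (l 531962895) (l 531868687)))))) (b (a (b (b (c (l 16708680) (a (l 16693984) (l 16695568))) (a (l 532367375) (l 532352271))) (a (b (l 532394767) (l 532236047)) (b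 (l 532425743) (l 532301583)))) (b (a (b (c (l 16700488) (l 16707744)) (c (l 16704120) (l 16701072))) (b (c (l 16712640) (l 16709560)) (c (l 16705712) (l 16713280)))) (a (b (l 532340751) (l 532366863)) (b (c (l 16709304) (l 16706576)) (l 532407823))))) (a (b (a (a (l 531952911) (l 531987983)) (b (l 532129807) (l 532216079))) (a (b (l 531950095) (l 532020751)) (b (l 532023567) (l 532091663)))) (b (a (b (l 532197647) (l 532286735)) (b (l 532264719) (l 532088335))) (a (b (l 532097295) (l 531897103)) (b (l 532170255) (l 531973135))))))), by decide +kernel⟩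

def k35_A00mm_202_s3 : ∃ t, chk3 f_A00mm_202_s3 t 59 35 1 = true :=
  ⟨(a (b (a (b (a (l 530945039) (b (l 531633679) (l 531448079))) (a (b (l 531212559) (l 531040783)) (b (l 531267343) (l 531094031)))) (a (b (b (l 531695119) (l 531506959)) (b (l 531323919) (l 531148303))) (b (b (l 531758351) (l 531567631)) (b (l 531382031) (l 531203855))))) (a (a (b (b (l 530878479) (l 530728463)) (l 530517007)) (b (b (l 530929935) (l 530779151)) (l 530566927))) (a (b (b (l 530982671) (l 530830607)) (l 530618127)) (b (b (l 531036431) (l 530883343)) (l 530670095))))) (b (a (a (b (b (l 531823887) (l 531630095)) (b (l 531441679) (l 531260943))) (b (b (l 531891727) (l 531694863)) (b (l 531502863) (l 531319311)))) (a (b (b (l 531962383) (l 531761679)) (b (l 531566351) (l 531379215))) (b (b (l 532035855) (l 531831311)) (b (l 531631887) (l 531440911))))) (a (a (b (b (l 531091215) (l 530937103)) (l 530723343)) (b (b (l 531147279) (l 530991887)) (l 530777615))) (a (b (b (l 531204623)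 (l 531047695)) (l 530832911)) (b (b (l 531263247) (l 531104527)) (l 530889231)))))), by decide +kernel⟩

def k36_A00mm_202_s3 : ∃ t, chk3 f_A00mm_202_s3 t 120 34 1 = true :=
  ⟨(b (a (b (a (b (c (l 16714432) (l 16711496)) (c (l 16717896) (l 16715128))) (c (b (l 16716328) (l 16719720)) (b (l 16713552) (l 16717096)))) (a (b (c (l 16721408) (l 16718816)) (c (l 16713944) (l 16722576))) (b (c (l 16723144) (l 16720688)) (c (l 16726624) (l 16724352))))) (c (a (b (b (l 16718344) (l 16721664)) (b (l 16725008) (l 16728400))) (b (a (l 532169487) (b (l 16721032) (l 16724256))) (b (l 16726992) (l 16730296)))) (a (b (b (l 16720968) (l 16719184)) (b (l 16722688) (l 532307983))) (b (b (l 16723256) (a (l 16720832) (l 16721968))) (a (l 531905551) (l 531866895)))))) (a (b (a (b (l 532330767) (l 532157199)) (b (l 532395279) (l 532225039))) (a (a (l 531860751) (l 531897359)) (b (l 532045327) (l 532123663)))) (a (b (b (c (l 16731152) (l 16729856)) (c (l 16731768) (l 16733384)))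 (b (l 532114703) (l 531928591))) (b (a (c (l 532583951) (l 532224783)) (c (l 532613903) (l 532182287))) (b (c (l 16740944) (l 16737176)) (l 531999759)))))), by decide +kernel⟩

def k37_A00mm_202_s3 : ∃ t, chk3 f_A00mm_202_s3 t 121 34 1 = true :=
  ⟨(b (a (a (b (c (a (b (l 16722160) (l 16725344)) (b (l 16723312) (l 16726464))) (b (l 16725680) (a (l 16723136) (l 16724336)))) (a (b (l 531880719) (l 532014863)) (b (b (l 16727840) (l 16729472)) (l 531976975)))) (b (c (a (b (l 16724504) (l 16727616)) (b (l 16725720) (l 16728800))) (a (b (l 16732816) (l 16725568)) (b (l 16734112) (l 16726840)))) (c (a (b (l 16730752) (l 16733920)) (b (l 16731896) (l 16735024))) (a (b (l 16728848) (l 16732176)) (b (l 16730072) (l 532326671)))))) (a (b (c (a (b (l 16732208) (l 16735256)) (b (l 16733480) (l 16736496))) (a (b (l 16730200) (l 16733376)) (b (l 16731568) (l 16734704)))) (c (a (b (l 532396047) (l 532251663)) (b (l 16739528) (l 532218639))) (a (b (l 16736576) (l 532292879))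 (b (l 16737864) (l 532260623))))) (b (c (a (b (l 16734792) (l 16737776)) (b (l 16736128) (l 16739080))) (a (b (l 16732960) (l 16736064)) (b (l 16734392) (l 16737456)))) (c (a (b (l 16740768) (l 532455951)) (b (l 16742040) (l 532427023))) (a (b (l 16739184) (l 16742344)) (b (l 16740544) (l 532202767))))))) (a (c (a (b (b (l 532257807) (l 532577807)) (a (l 532312847) (l 532344591))) (b (a (l 532545551) (l 532239119)) (b (l 532472847) (l 532304399)))) (a (b (a (l 532140815) (l 532100367)) (a (l 532510479) (l 532542735))) (b (a (l 532060943) (b (l 16736648) (l 16739856))) (b (l 532297487) (l 532498191))))) (a (b (c (a (l 532202511) (l 532167439)) (a (l 532053519) (l 531951887))) (c (a (l 532164111) (l 532189967)) (a (l 532326159) (l 532287503)))) (b (a (c (l 532134415) (l 531919631)) (c (l 532103695) (l 531889935))) (c (a (l 532213519) (l 532502543)) (a (l 532251407) (l 532218127))))))), by decide +kernel⟩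

def k38_A00mm_202_s3 : ∃ t, chk3 f_A00mm_202_s3 t 122 34 1 = true :=
  ⟨(a (b (a (b (a (c (b (l 16737496) (l 16740416)) (b (l 16735848) (l 16738880))) (c (b (l 16738896) (l 532164367)) (b (l 16737336) (l 531938831)))) (c (a (b (l 532282895) (l 532400399)) (b (l 532260367) (l 532376847))) (a (b (l 532056335) (l 532177935)) (b (l 532036111) (l 532156175))))) (b (a (c (b (l 532066831) (l 532146703)) (b (l 531844623) (l 531923983))) (c (b (l 532052751) (l 532131343)) (b (l 531833871) (l 531911695)))) (a (c (a (l 532032271) (l 532023311)) (b (l 532019727) (l 532138511))) (c (b (l 532224527) (l 532339215)) (b (l 532005903) (l 532123919)))))) (a (b (a (c (l 532075535) (l 531863311)) (c (l 532319503) (l 532109071))) (a (c (l 532519439) (l 532188687)) (c (l 532531471) (l 532164111)))) (a (b (c (l 532299279) (l 532091151)) (c (l 532537615) (l 532145679))) (b (c (l 532282127) (l 532077327)) (c (l 532538383) (l 532400911)))))) (b (a (b (a (c (b (l 532037391) (l 532114191))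 (b (l 531821583) (l 531897359))) (c (b (l 532019983) (l 532095247)) (b (l 531807247) (l 531881231)))) (a (c (b (l 532206095) (l 532319759)) (b (l 531990031) (l 532107535))) (c (b (l 532185359) (l 532298255)) (b (l 531972111) (l 532088335))))) (b (a (c (b (l 532001039) (l 532074255)) (b (l 531791119) (l 531863055))) (c (b (l 531980047) (l 532051727)) (b (l 531772687) (l 531842575)))) (a (c (b (l 532162575) (l 532274191)) (b (l 531951631) (l 532066575))) (c (b (l 532137743) (l 532248079)) (b (l 531928847) (l 532042255)))))) (a (b (a (c (l 532263439) (l 532061199)) (c (l 532242447) (l 532042767))) (a (b (l 532129551) (l 532281359)) (b (l 532110607) (l 532275983)))) (a (b (c (l 532219151) (l 532021519)) (b (l 532089103) (l 532255247))) (b (c (l 532193551) (l 531997967)) (b (l 532065295) (l 532231951))))))), by decide +kernel⟩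

def k39_A00mm_202_s3 : ∃ t, chk3 f_A00mm_202_s3 t 123 34 1 = true :=
  ⟨(a (b (a (b (a (c (b (l 531956751) (l 532027407)) (b (l 531751695) (l 531820559))) (c (b (l 531930127) (l 532001807)) (b (l 531726863) (l 531796751)))) (a (c (b (l 532110863) (l 532219663)) (b (l 531903759) (l 532015375))) (c (b (l 532082191) (l 532188687)) (b (l 531876879) (l 531985935))))) (b (a (c (b (l 531900431) (l 531974159)) (b (l 531698447) (l 531770895))) (c (b (l 531866895) (l 531944463)) (b (l 531666191) (l 531742735)))) (a (c (b (l 532051727) (l 532155663)) (b (l 531847695) (l 531953935))) (b (c (l 532019727) (l 531816975)) (c (l 532120335) (l 531919375)))))) (a (a (b (c (l 532165391) (l 531971599)) (a (l 532128527) (l 532114959))) (b (c (l 532134927) (l 531942415)) (c (l 532448527) (l 532273423)))) (a (b (c (l 532102159) (l 531910927)) (c (l 532416783) (l 532242959))) (b (c (l 532067087) (l 531876623)) (a (l 532037135) (l 532019727)))))) (b (a (b (a (c (b (l 531829775) (l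 531911695)) (b (l 531629583) (l 531710991))) (c (b (l 531788559) (l 531874575)) (b (l 531588623) (l 531674383)))) (a (b (c (l 531986447) (l 531784719)) (c (l 532082703) (l 531882255))) (b (c (l 531951631) (l 531750927)) (c (l 532043023) (l 531843087))))) (b (a (c (a (l 531531535) (l 531776783)) (b (l 531542287) (l 531633167))) (c (a (l 531752207) (l 531726095)) (a (l 531551759) (l 531524879)))) (b (a (c (l 531646735) (l 531446543)) (c (a (l 531886351) (l 531864591)) (a (l 531686415) (l 531664655)))) (a (c (l 531733263) (l 531801615)) (c (a (l 531969295) (l 531947791)) (b (l 531734543) (l 531786767))))))) (a (a (b (c (l 532029455) (l 531839503)) (a (l 532001807) (l 531983119))) (b (c (l 531989519) (l 531800079)) (a (l 531963663) (l 531943695)))) (a (b (c (l 531947279) (l 531757583)) (a (l 531923215) (l 531901967))) (b (c (l 531902479) (l 531712527)) (l 4)))))), by decide +kernel⟩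

def k40_A00mm_202_s3 : ∃ t, chk3 f_A00mm_202_s3 t 31 34 1 = true :=
  ⟨(a (a (a (b (a (b (a (a (c (l 531698191) (l 531496207)) (c (l 531667983) (l 531464975))) (a (c (l 531635215) (l 531430927)) (l 531228175))) (b (a (a (c (l 531841039) (l 531640847)) (c (l 531815183) (l 531614735))) (a (c (l 531786511) (l 531585039)) (l 531383567))) (a (b (c (a (l 531904527) (l 531883279)) (a (l 531704335) (l 531683087))) (c (l 531676687) (l 531746319))) (c (a (b (l 531859471) (l 531617039)) (b (l 531830799) (l 531612943))) (a (b (l 531659023) (l 531414799)) (a (l 531397135) (l 531645455))))))) (b (a (a (l 531456527) (l 531416079)) (a (l 531375631) (l 531335183))) (a (b (l 531591695) (a (c (l 531817743) (l 531614991)) (l 531676687))) (b (l 531242255) (a (l 531635983) (l 4)))))) (b (a (a (c (l 531855119) (l 531664655)) (a (l 531454991) (a (l 531704335) (l 4)))) (l 4)) (l 4))) (b (b (a (a (a (l 531294735) (l 531254031)) (a (l 531213327) (l 531172879))) (a (a (l 531131919)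 (l 531091215)) (a (l 531050511) (l 531009551)))) (a (a (b (l 531161103) (l 4)) (l 4)) (l 4))) (l 4))) (l 4)) (l 4)), by decide +kernel⟩

def k41_A00mm_202_s3 : ∃ t, chk3 f_A00mm_202_s3 t 60 35 1 = true :=
  ⟨(a (b (a (b (a (b (l 531843855) (l 531903759)) (b (l 531922703) (l 531979535))) (a (b (l 531699727) (l 531504655)) (b (l 531770383) (l 531570447)))) (b (a (b (l 532000015) (l 531790351)) (b (l 531807247) (l 531602959))) (a (b (l 531844623) (l 531638543)) (b (l 531654159) (l 531709967))))) (a (a (b (b (l 531323407) (l 531162639)) (l 530946831)) (b (b (l 531384847) (l 531221775)) (l 531005199))) (b (a (b (l 531448079) (l 531282191)) (b (l 531513103) (l 531343631))) (a (l 531065103) (l 531125775))))) (b (a (b (a (b (a (l 532399631) (l 532166927)) (l 531681039)) (b (a (l 532201487) (l 532234767)) (a (l 532275215) (l 532043023)))) (a (b (a (l 531984911) (l 532026639)) (l 531784975)) (b (a (l 532067599) (l 532107279)) (a (l 531845391) (l 531887119))))) (a (b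 (a (b (l 532266511) (l 532077839)) (b (l 532296207) (l 532110863))) (b (a (l 532145679) (l 531914255)) (a (l 531929615) (l 531971855)))) (a (b (b (c (l 532500495) (l 532684303)) (l 532141071)) (b (l 531948815) (l 531743247))) (b (c (l 531968783) (b (l 532707599) (l 532255247))) (b (c (l 532168463) (l 532329999)) (c (l 531974927) (l 532123919))))))) (a (b (a (b (l 531580431) (l 531406351)) (b (l 531650831) (l 531470607))) (a (l 530919439) (l 530982415))) (b (b (a (a (l 531706895) (l 531746063)) (a (l 531786767) (b (l 531887887) (l 531772687)))) (a (l 531267599) (a (l 531586831) (l 531621391)))) (a (l 530778127) (a (l 531364879) (l 531397903))))))), by decide +kernel⟩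

def k42_A00mm_202_s3 : ∃ t, chk3 f_A00mm_202_s3 t 61 35 1 = true :=
  ⟨(a (a (b (a (b (a (c (l 531922959) (l 532167183)) (c (l 531938319) (l 532113935))) (a (c (b (l 532195343) (l 532007695)) (b (l 532356879) (l 531888655))) (c (b (l 532215823) (l 532033807)) (b (l 532376079) (l 531914511))))) (a (b (c (l 531945487) (l 532118031)) (c (b (l 532225551) (l 531779087)) (a (l 532021263) (l 532289551)))) (b (c (l 532213007) (l 532381711)) (c (l 532134927) (l 532015119))))) (b (b (a (a (b (l 531927055) (l 531815695)) (a (b (l 531952911) (l 531847183)) (c (l 531848719) (l 531985423)))) (a (a (c (l 531860751) (l 531996943)) (c (l 531865359) (l 532000271))) (l 531927055))) (b (a (a (l 531702031) (b (l 531503631) (l 531714575))) (a (c (a (b (l 531738383) (l 531684623)) (l 531725839)) (a (b (l 531866639) (l 531808783)) (l 531583503))) (l 531781903))) (b (a (l 531648783) (a (a (l 531696143) (c (a (l 531653135) (l 531654159)) (a (l 531774991) (l 531774991)))) (b (l 531720463)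 (l 4)))) (a (l 531611407) (a (a (l 531654927) (a (l 531667727) (l 4))) (l 4)))))) (a (a (l 531431183) (l 531464719)) (a (a (l 531490319) (l 4)) (l 4))))) (b (a (b (a (c (l 532213519) (l 532378639)) (b (l 532115215) (l 532208655))) (a (b (l 532028431) (l 531843599)) (c (l 531865615) (l 532006671)))) (a (b (b (l 532119823) (l 532078095)) (c (l 531869199) (l 532006927))) (b (c (l 532230415) (l 532386319)) (c (l 531875343) (l 532009999))))) (b (b (a (a (l 531921679) (l 531918863)) (l 4)) (l 4)) (l 4)))) (a (b (b (a (a (c (l 532241423) (l 532394511)) (c (l 532254991) (l 532406031))) (a (a (l 532072975) (l 532081167)) (a (l 532090383) (l 532100111)))) (a (a (c (l 531884303) (l 532015887)) (l 4)) (l 4))) (l 4)) (l 4))), by decide +kernel⟩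

def k43_A00mm_202_s3 : ∃ t, chk3 f_A00mm_202_s3 t 31 35 1 = true :=
  ⟨(l 4), by decide +kernel⟩

def k44_A00mm_202_s3 : ∃ t, chk3 f_A00mm_202_s3 t 56 18 1 = true :=
  ⟨(a (b (a (b (c (l 16568984) (l 16590912)) (c (l 16594592) (l 16594968))) (b (b (l 16601880) (l 16603728)) (b (l 16606136) (l 16609088)))) (b (a (b (l 16599472) (l 16603312)) (b (l 16612584) (l 527494927))) (a (b (l 16607752) (l 527123471)) (c (l 527096335) (l 527072527))))) (c (b (a (b (l 529086735) (l 528275727)) (b (b (l 16624968) (l 16627416)) (b (l 16630408) (l 16633936)))) (a (b (l 527731983) (l 527191055)) (b (b (l 16638000) (l 16642584)) (l 527354383)))) (b (a (b (l 529135375) (l 528569615)) (b (b (l 16626136) (l 16628312)) (l 528739343))) (a (b (l 527734543) (l 527171087)) (b (b (l 16638192) (l 16642592)) (l 527405071)))))), by decide +kernel⟩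

def k45_A00mm_202_s3 : ∃ t, chk3 f_A00mm_202_s3 t 57 18 1 = true :=
  ⟨(a (b (a (b (c (b (l 16636432) (l 16639112)) (b (l 16637600) (l 16640008))) (c (b (l 16642328) (l 16646080)) (b (l 16642984) (l 16646512)))) (b (c (b (l 16647656) (l 16650560)) (b (l 16648808) (l 16654072))) (c (a (l 528549647) (l 528600079)) (a (l 528853775) (l 528905999))))) (a (a (b (b (l 528049167) (l 527771407)) (c (l 527629327) (l 527616015))) (b (b (l 528100111) (l 527822351)) (c (l 527410447) (l 527398671)))) (b (c (a (l 528006159) (l 528056591)) (a (l 528019215) (l 528071439))) (a (c (l 527460367) (l 527450383)) (c (l 527510799) (l 527502607)))))) (b (a (b (a (c (l 529462031) (l 529523727)) (c (l 529512463) (l 529575951))) (a (c (l 528650511) (l 528957967)) (c (l 528700943) (l 529010191)))) (b (a (c (l 529562895) (l 529627919)) (c (l 529613583) (l 529680143))) (a (c (l 528751375) (l 529062159)) (c (l 528802063) (l 529114383))))) (c (a (b (a (l 528107279) (l 528157967)) (a (l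 527561487) (l 527612431))) (b (a (l 528208655) (l 528259343)) (a (l 527663887) (l 527715599)))) (a (b (a (l 528123663) (l 528176143)) (a (l 527555087) (l 527608079))) (b (a (l 528228367) (l 528549135)) (a (l 527661071) (a (l 527701263) (l 527727631)))))))), by decide +kernel⟩

def k46_A00mm_202_s3 : ∃ t, chk3 f_A00mm_202_s3 t 56 19 1 = true :=
  ⟨(a (b (b (a (b (l 16618432) (l 526599439)) (c (b (l 16632632) (l 16639120)) (l 526529295))) (a (c (l 526256399) (l 526188047)) (c (b (l 16646192) (l 16653792)) (b (l 16645440) (l 16652984))))) (b (a (c (l 525772815) (l 525685775)) (c (a (l 525838095) (l 525881871)) (b (l 16666296) (l 525651727)))) (a (c (l 525297679) (l 525192719)) (a (l 525579023) (a (l 525343759) (l 525365775)))))) (b (c (a (b (b (l 527063823) (l 16655568)) (a (l 526412303) (l 526457359))) (b (a (l 527004175) (l 527051023)) (a (b (l 16670560) (l 526380047)) (b (l 526672143) (l 526425359))))) (a (b (l 526624527) (a (l 526350351) (l 526397199)))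 (b (c (l 526730255) (l 526711567)) (a (l 526444303) (b (l 526620175) (l 526363919)))))) (b (a (b (a (l 526008591) (l 526053903)) (a (l 525762831) (l 525807887))) (a (b (c (l 526135823) (l 526063375)) (c (l 525894159) (l 525812495))) (b (c (l 526180879) (l 526110223)) (c (l 525938703) (l 525858831))))) (a (b (a (l 525519631) (l 525564175)) (a (l 525278479) (l 525322767))) (b (a (l 525608975) (c (l 525698831) (l 525609743))) (a (l 525367311) (c (l 525461007) (l 525362959)))))))), by decide +kernel⟩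

def k47_A00mm_202_s3 : ∃ t, chk3 f_A00mm_202_s3 t 114 19 1 = true :=
  ⟨(b (a (b (c (a (b (l 16669600) (l 526969359)) (b (l 527276815) (l 527016463))) (a (l 526794255) (l 526843407))) (c (a (b (l 526718223) (l 526471183)) (b (l 526764559) (l 526517263))) (a (b (l 526668047) (l 526411535)) (b (l 526716175) (l 526459151))))) (b (a (c (b (l 527324943) (l 527063567)) (l 526893071)) (c (b (l 527373839) (l 527111439)) (l 526942735))) (c (a (b (l 526811407) (l 526563599)) (b (l 526858511) (l 526610191))) (a (b (l 526764559) (l 526507279)) (b (l 526813199) (l 526555407)))))) (a (b (a (b (c (l 526226447) (l 526157327)) (c (l 525983759) (l 525905423))) (c (b (l 526272015) (l 526029071)) (b (l 526204687) (l 525952271)))) (b (a (c (l 525743375) (l 525656079)) (c (l 525788175) (l 525702415))) (a (c (l 525505039) (l 525408783)) (c (a (l 525538575) (l 525560847)) (a (l 525443599) (l 525466639)))))) (b (a (b (c (l 526317839) (l 526252303)) (c (a (l 526063119) (l 526086159))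 (a (l 525987855) (l 526011407)))) (c (b (l 526364175) (a (l 526108943) (l 526131983))) (b (l 526300175) (a (l 526035215) (l 526059023))))) (a (b (c (a (l 525822223) (l 525844751)) (a (l 525737743) (l 525761039))) (b (c (l 525653775) (l 525563151)) (c (l 525534991) (l 525439759)))) (b (c (a (l 525867535) (l 525890319)) (a (l 525784591) (l 525808143))) (c (a (b (l 525687823) (l 525568783)) (b (l 525710351) (l 525591311))) (a (b (l 525598223) (l 525474831)) (b (l 525621775) (l 525498127))))))))), by decide +kernel⟩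

def k48_A00mm_202_s3 : ∃ t, chk3 f_A00mm_202_s3 t 115 19 1 = true :=
  ⟨(b (a (b (a (c (b (l 527422991) (l 527159311)) (l 526992911)) (c (b (l 527472399) (l 527207695)) (l 527043599))) (c (a (b (l 526905871) (l 526657295)) (b (l 526953487) (l 526704399))) (a (b (l 526862351) (l 526604047)) (l 526513423)))) (b (a (c (l 527119887) (l 527094543)) (c (l 527169551) (l 527145743))) (a (c (b (l 527001615) (l 526752015)) (l 526562831)) (c (b (l 527049999) (l 526800143)) (l 526612239))))) (a (b (a (c (b (l 526410767) (a (l 526155023) (l 526178319))) (b (l 526348303) (a (l 526082831) (l 526106895)))) (c (b (l 526457615) (l 526212879)) (a (l 525720591) (l 525744655)))) (a (b (c (a (l 525913103) (l 525936143)) (a (l 525831951) (l 525855503))) (a (c (l 525673487) (b (l 525645327) (l 525521423))) (c (l 525696015) (l 525606671)))) (c (b (l 525970447) (a (l 525718799) (l 525741839))) (b (l 525891087) (a (l 525630223) (l 525654031)))))) (a (c (b (b (l 526504719) (l 526259727))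 (b (a (l 526005263) (l 526028559)) (a (l 525764879) (l 525787663)))) (b (b (l 526445327) (l 526191119)) (a (b (l 525927183) (l 525677583)) (l 525288975)))) (c (b (b (l 526552335) (l 526306831)) (b (a (l 526051855) (l 526075407)) (a (l 525810959) (l 525833999)))) (b (b (l 526494223) (a (l 526227471) (l 526251791))) (a (l 525313039) (l 525337103))))))), by decide +kernel⟩

def k49_A00mm_202_s3 : ∃ t, chk3 f_A00mm_202_s3 t 116 18 1 = true :=
  ⟨(b (a (b (a (b (l 529836559) (l 529290511)) (b (l 529887759) (l 529341711))) (a (c (l 528852495) (l 529166351)) (b (l 529198607) (l 528921871)))) (b (a (b (l 529938703) (l 529526799)) (b (l 529989647) (l 529711631))) (a (b (l 529316623) (b (l 528907535) (l 528769295))) (b (b (l 529235215) (l 529096463)) (b (l 528958223) (l 528819727)))))) (a (b (a (c (l 528310031) (l 528601615)) (c (a (l 528348175) (l 528373519)) (a (l 528372239) (l 528398351)))) (a (c (l 527833871) (a (l 527754255) (l 527780623))) (c (a (l 527805455)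 (l 527831055)) (a (l 527806991) (l 527833359))))) (b (a (c (a (l 528398607) (l 528423695)) (a (l 528424207) (l 528450063))) (b (a (l 528600079) (l 528625167)) (a (l 528323855) (l 528349199)))) (a (c (a (l 527856655) (l 527881999)) (b (l 528282639) (l 527731471))) (c (a (l 527907599) (l 527932943)) (b (l 528066063) (l 527784207))))))), by decide +kernel⟩

def k50_A00mm_202_s3 : ∃ t, chk3 f_A00mm_202_s3 t 117 18 1 = true :=
  ⟨(b (a (b (a (b (l 530039823) (b (l 529562895) (l 529423887))) (b (l 530123535) (b (l 529612559) (l 529473551)))) (a (b (c (l 529456399) (l 529244431)) (a (l 528926735) (l 528951567))) (b (c (l 529505295) (l 529294351)) (a (l 528976143) (l 529000463))))) (b (a (b (a (l 530127119) (l 530151695)) (b (l 529661711) (l 529522447))) (b (a (l 530176015) (l 530200079)) (c (l 529605135) (l 529675791)))) (a (b (c (l 529284879) (l 529343503)) (c (l 529013263) (l 529060367))) (b (c (l 529331983) (l 529391375)) (c (l 529059599) (l 529107727)))))) (a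 (c (b (a (a (l 528498447) (l 528523023)) (b (l 528694543) (l 528424207))) (a (a (l 527958031) (l 527983119)) (a (l 528007695) (l 528032015)))) (b (a (b (l 528679951) (l 528398351)) (b (l 528729615) (l 528448271))) (a (b (l 528117263) (l 527836175)) (b (l 528167695) (l 527887375))))) (b (a (b (c (l 528742159) (l 528778255)) (c (l 528471823) (l 528496911))) (b (c (l 528787983) (l 528824847)) (c (l 528517391) (l 528543247)))) (a (b (c (l 528202255) (l 528216335)) (a (l 527922959) (l 527946767))) (b (a (l 528243727) (l 528265743)) (a (l 527969551) (l 527991311))))))), by decide +kernel⟩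

def k51_A00mm_202_s3 : ∃ t, chk3 f_A00mm_202_s3 t 116 19 1 = true :=
  ⟨(b (b (a (a (c (b (l 527624463) (l 527355151)) (a (l 527184911) (l 527211023))) (c (a (l 527258127) (l 527283727)) (a (l 527237135) (b (l 527674895) (l 527392271))))) (b (c (a (b (l 527797263) (l 527659791)) (a (l 527768079) (l 527793935))) (a (b (l 527786767) (l 527643663)) (l 527500559))) (a (c (l 527455503) (a (l 527418127) (l 527444239))) (c (a (l 527493903) (l 527519503)) (a (l 527470607) (l 527496975)))))) (a (a (c (b (l 527098639) (l 526848271)) (b (l 527061007) (l 526801167))) (c (b (l 527147535) (l 526896911)) (a (l 526700047) (l 526725391)))) (a (c (b (l 527196943) (l 526945551)) (a (l 526750479) (l 526775823))) (c (b (a (l 527234319) (l 527259151)) (a (l 526982671) (l 527007503))) (a (l 526801423) (l 526826767)))))) (a (b (c (a (b (l 526600207) (a (l 526342415) (l 526366223))) (b (a (l 526636303) (l 526660367)) (a (l 526390031) (l 526413839)))) (a (b (a (l 526531343) (l 526556175))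 (a (l 526276367) (l 526300943))) (b (a (l 526581007) (l 526605839)) (a (l 526325519) (l 526350095))))) (b (b (a (c (l 526171151) (l 526098703)) (c (l 526218511) (l 526147343))) (a (c (l 526049807) (l 525972751)) (l 4))) (a (a (c (l 525857295) (l 525773327)) (l 4)) (l 4)))) (b (b (a (c (a (l 526684687) (l 526709007)) (a (l 526630671) (l 526655759))) (c (a (l 526733327) (l 526757903)) (a (l 526680847) (l 526705935)))) (a (c (a (l 526437903) (l 526461967)) (a (l 526374671) (l 526399503))) (a (c (l 526486287) (l 526424335)) (l 4)))) (l 4)))), by decide +kernel⟩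

def k52_A00mm_202_s3 : ∃ t, chk3 f_A00mm_202_s3 t 117 19 1 = true :=
  ⟨(b (a (b (b (a (c (a (l 527819791) (l 527845647)) (l 527554063)) (c (a (l 527871247) (l 527896591)) (l 527606543))) (a (c (b (l 527627279) (l 527490575)) (b (l 527608591) (l 527466255))) (c (b (a (l 527666959) (l 527693071)) (l 527542287)) (b (a (l 527649551) (l 527676431)) (a (l 527506447) (l 527533327)))))) (a (c (b (a (l 527284239) (l 527309327)) (a (l 527032079) (l 527056911))) (a (b (l 527251983) (l 526990351)) (b (l 527277839) (l 527015951)))) (c (b (b (l 527410447) (l 527283471)) (a (l 527081999) (l 527106831))) (a (c (l 526912783) (l 526895375)) (c (l 526938383) (l 526921231)))))) (b (a (a (c (b (l 527921423) (b (l 527718927) (l 527581967))) (b (l 527913487) (b (l 527702799) (l 527560463)))) (c (b (l 527945487) (b (l 527744015) (l 527608335))) (b (l 527938063) (b (l 527728655) (b (l 527623183) (l 527552015)))))) (c (a (c (l 527570447) (a (l 527558671) (l 527569167))) (c (l 527591183)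 (l 527584783))) (a (b (l 527961615) (b (l 527753231) (a (l 527607567) (l 527619599)))) (a (c (l 527573775) (l 527568143)) (l 527581199))))) (a (b (c (b (a (l 527448591) (l 527474959)) (l 527333903)) (b (a (l 527421711) (l 527448591)) (a (l 527289615) (l 527315727)))) (a (c (l 527131919) (l 527093007)) (l 4))) (b (b (b (a (c (a (l 527525903) (l 527536399)) (a (l 527501327) (b (l 527532303) (l 527497487)))) (c (a (l 527552015) (l 527562255)) (a (l 527527951) (l 527538447)))) (a (c (l 527467535) (l 527440655)) (a (a (l 527470095) (l 4)) (l 4)))) (a (c (l 527372303) (l 527341583)) (l 4))) (l 4))))) (a (b (b (a (c (a (l 526782223) (l 526807055)) (a (l 526731023) (l 526756367))) (l 4)) (l 4)) (l 4)) (l 4))), by decide +kernel⟩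

def k53_A00mm_202_s3 : ∃ t, chk3 f_A00mm_202_s3 t 59 36 1 = true :=
  ⟨(a (a (b (a (b (l 530236175) (c (l 529652239) (l 529723663))) (b (l 530151183) (c (l 529700367) (l 530041103)))) (a (b (c (l 529378575) (l 529438479)) (c (l 529105423) (l 529154063))) (b (c (l 529425935) (l 529486863)) (c (l 529152015) (l 529201679))))) (b (a (b (c (l 530025487) (l 530378767)) (c (l 529749775) (l 530091279))) (b (a (l 530374671) (l 530400527)) (a (l 530092303) (l 530118159)))) (a (b (c (l 529474319) (l 529536015)) (c (l 529199631) (l 529250063))) (b (a (l 529542415) (l 529567759)) (a (l 529261583) (l 529286415)))))) (a (a (b (b (l 530171407) (a (l 530144015) (l 530170127))) (b (c (l 529574415) (l 529906191)) (a (l 529311503) (l 529336847)))) (b (b (l 530493199) (a (l 530196495) (l 530223119))) (b (c (l 529626127) (l 529958671)) (c (l 529349135) (l 529401871))))) (a (b (b (l 530547983) (l 529995023)) (b (a (l 529966351) (l 529993231)) (c (l 529401103) (l 529454863))))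 (b (b (l 530603535) (l 530049807)) (b (a (l 530020367) (l 530047759)) (c (l 529454095) (l 529777167))))))), by decide +kernel⟩

def k54_A00mm_202_s3 : ∃ t, chk3 f_A00mm_202_s3 t 59 37 1 = true :=
  ⟨(a (a (b (a (b (c (l 528833039) (l 528870671)) (c (l 528561423) (l 528588047))) (a (b (l 528886287) (l 528608527)) (b (l 528909583) (l 528631567)))) (a (b (c (l 528290831) (l 528306447)) (a (l 528012815) (l 528034319))) (b (c (l 528335119) (b (l 528421903) (l 528280847))) (a (l 528056335) (l 528078351))))) (b (a (b (a (l 528933391) (l 528957199)) (a (l 528721935) (l 528678415))) (b (a (l 528981519) (l 529005839)) (a (l 528769295) (l 528726287)))) (a (b (a (c (l 528637711) (l 528654351)) (c (l 528660751) (l 528409103))) (a (c (l 528366607) (l 528372239)) (c (l 528389135) (l 528126735)))) (b (b (a (l 528761871) (l 528785423)) (a (c (l 528615695) (l 528630287)) (c (l 528639247) (l 528654095)))) (c (a (l 528411919) (b (l 528503055) (l 528366863))) (a (l 528149775)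 (l 528173071))))))) (a (b (a (b (a (l 529030671) (l 529055759)) (a (l 528750607) (l 528775183))) (b (a (l 529080847) (l 529106447)) (a (l 528800015) (l 528825103)))) (a (b (a (c (l 528731151) (l 528749071)) (l 528495375)) (b (a (c (l 528526351) (a (l 528530191) (l 528541967))) (c (l 528549903) (l 528560143))) (l 4))) (b (a (l 528519951) (l 528544527)) (l 4)))) (a (b (b (a (l 529132303) (l 529158415)) (a (l 528850447) (l 528876047))) (b (a (l 528569615) (l 4)) (l 4))) (b (a (c (l 529293327) (l 529330447)) (c (l 529319695) (l 529357071))) (l 4))))), by decide +kernel⟩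

def k55_A00mm_202_s3 : ∃ t, chk3 f_A00mm_202_s3 t 59 19 1 = true :=
  ⟨(a (b (a (b (a (c (a (l 527608591) (l 527629327)) (a (l 527596815) (l 527617807))) (c (a (l 527650319) (l 527671567)) (b (l 527789583) (a (l 527768335) (l 527789839))))) (b (b (b (a (a (l 527565071) (l 4)) (l 4)) (l 4)) (l 4)) (l 4))) (b (b (a (a (c (l 528096527) (l 528091151)) (c (l 528118543) (l 528113679))) (a (c (l 528140815) (l 528136207)) (l 4))) (l 4)) (l 4))) (l 4)) (l 4)), by decide +kernel⟩

def k56_A00mm_202_s3 : ∃ t, chk3 f_A00mm_202_s3 t 15 9 1 = true :=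
  ⟨(b (a (a (a (b (a (a (b (a (l 530234895) (l 530263567)) (b (a (l 530075407) (l 530103311)) (c (l 529508367) (l 529831951)))) (b (a (l 530292239) (l 530321423)) (a (c (l 529958159) (l 530019855)) (b (l 530160143) (l 529874191))))) (a (b (a (l 530350607) (l 530380303)) (a (b (l 530188815) (l 529902607)) (b (l 530217999) (l 529931279)))) (b (a (l 530410255) (l 530440463)) (a (l 529835279) (l 529864719))))) (b (b (a (a (c (l 529229839) (l 529273615)) (c (l 529284111) (l 529597199))) (l 4)) (l 4)) (l 4))) (b (b (a (a (a (l 530470927) (l 530769935)) (a (l 530801167) (l 530832399))) (a (a (l 530864143) (l 530627599)) (a (l 530659599) (l 530692111)))) (a (a (a (l 529894415) (l 529924367)) (l 4)) (l 4))) (l 4))) (l 4)) (l 4)) (l 4)), by decide +kernel⟩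

def k57_A00mm_202_s3 : ∃ t, chk3 f_A00mm_202_s3 t 12 5 1 = true :=
  ⟨(b (b (a (b (a (l 16135456) (l 16217600)) (a (l 16162768) (b (l 16239224) (l 16256200)))) (a (b (b (l 16290736) (l 16304896)) (b (l 16321112) (l 16339312))) (b (b (l 16367704) (l 16383176)) (b (l 16421624) (a (l 16400136) (l 16439904)))))) (a (a (b (l 16198280) (l 519949583)) (b (b (l 16275152) (l 16296008)) (b (l 16318712) (l 16343192)))) (a (b (b (l 16359432) (l 16402392)) (b (l 16436656) (l 520215567))) (b (a (l 521374479) (b (l 16461496) (l 16484888))) (a (l 520585743) (b (l 16510024) (l 16552568))))))) (a (b (a (b (l 519218959) (l 518526735)) (b (l 519972111) (a (l 518683407) (l 518790159)))) (a (b (l 517873167) (l 517258767)) (b (a (l 518024975) (l 518128143)) (a (l 517405199) (l 517504783))))) (b (a (b (a (l 519603471) (l 519718159)) (a (l 518898959) (l 519009807))) (b (a (l 519835151) (l 519954447)) (a (l 519122703) (b (l 519413775) (l 519064847))))) (a (b (a (l 518233103) (l 518339855))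 (a (l 517605903) (l 517708559))) (b (a (l 518448655) (l 518559247)) (a (l 517813263) (l 517919247))))))), by decide +kernel⟩

def k58_A00mm_202_s3 : ∃ t, chk3 f_A00mm_202_s3 t 26 10 1 = true :=
  ⟨(b (a (b (c (b (l 16444528) (l 16461320)) (b (l 16439824) (l 16456592))) (a (b (l 16458704) (l 16479040)) (b (l 16496576) (l 16528008)))) (b (a (b (l 16496312) (l 16514080)) (b (l 16542008) (l 523552527))) (a (b (l 522963727) (l 522532367)) (b (c (l 16582232) (l 16568800)) (l 522944015))))) (a (b (a (b (l 16511704) (l 521430287)) (b (l 521972751) (l 521562639))) (a (b (l 521031695) (l 520642575)) (b (l 521161743) (l 520770319)))) (b (a (b (l 522110479) (l 521697807)) (b (a (l 522215951) (l 522286863)) (a (l 521801231) (l 521871119)))) (a (b (l 521294351) (l 520900623)) (b (l 521430031) (l 521033487)))))), by decide +kernel⟩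

def k59_A00mm_202_s3 : ∃ t, chk3 f_A00mm_202_s3 t 27 10 1 = true :=
  ⟨(b (a (a (b (c (b (l 16567280) (l 523789071)) (l 523580431)) (b (a (l 523221007) (l 523296271)) (a (l 522785295) (l 522859279)))) (b (c (a (l 524124943) (l 524201999)) (a (l 523969551) (l 524050959))) (a (b (l 523372559) (l 522934031)) (b (l 523449615) (l 523009807))))) (a (a (b (b (l 524437775) (l 523977999)) (b (l 523527439) (l 523086351))) (b (b (l 524519439) (l 524058383)) (b (l 523606287) (l 523163663)))) (b (a (b (l 524602127) (l 524139535)) (c (b (l 524748815) (l 524293391)) (l 524116239))) (a (b (l 523686159) (c (l 523331855) (l 523152143))) (b (c (l 523846671) (l 523686927)) (c (l 523409167) (l 523233295))))))) (a (b (a (b (a (l 522358799) (l 522431503)) (a (l 521941775) (l 522012943))) (b (a (l 522504975) (l 522579215)) (a (b (l 522189327) (l 521981711)) (a (l 522139919) (l 522176527))))) (a (b (a (l 521533967) (l 521603855)) (l 521169423)) (b (a (b (l 521776655) (l 521573647))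 (b (a (l 521830671) (b (l 521917967) (l 521815567))) (c (l 521765647) (l 521523983)))) (l 521308175)))) (b (a (a (b (l 522654479) (a (l 522213647) (l 522250511))) (b (l 522730511) (l 522306319))) (a (b (c (l 522904847) (l 522709519)) (c (l 522486799) (l 522276367))) (b (c (l 522980623) (l 522789135)) (c (l 522561039) (l 522354703))))) (a (b (a (b (a (l 521903119) (l 521939727)) (a (c (l 521818127) (l 521579535)) (l 521735183))) (c (l 522006287) (l 521776911))) (l 4)) (l 4))))), by decide +kernel⟩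

def k60_A00mm_202_s3 : ∃ t, chk3 f_A00mm_202_s3 t 13 11 1 = true :=
  ⟨(a (b (a (a (b (l 520613135) (b (l 519532047) (l 519181071))) (b (l 520468751) (l 519742735))) (a (b (l 520326927) (b (l 519775759) (l 519419919))) (b (l 520456207) (l 519720207)))) (a (a (b (c (l 518863119) (l 518479631)) (l 518027535)) (b (b (l 518955279) (l 518621199)) (l 4))) (l 4))) (a (b (b (a (b (l 520779791) (l 520399631)) (b (l 520915727) (l 4))) (l 4)) (l 4)) (l 4))), by decide +kernel⟩

def k61_A00mm_202_s3 : ∃ t, chk3 f_A00mm_202_s3 t 56 10 1 = true :=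
  ⟨(b (a (b (a (b (b (l 524888335) (l 524653327)) (c (l 524374543) (l 524235023))) (b (b (l 524974351) (l 524738575)) (a (l 524368143) (c (l 524477967) (l 524342799))))) (a (b (c (l 523926287) (l 523770383)) (c (a (l 523467791) (l 523507215)) (l 523315215))) (b (a (c (l 523987215) (l 523833871)) (c (l 524027663) (l 523876367))) (a (c (l 523546895) (l 523377679)) (c (l 523586575) (l 523419407)))))) (b (a (b (b (a (l 525039887) (l 525083663)) (a (l 524803343) (l 524846863))) (a (c (l 524519439) (l 524386319)) (c (l 524561423) (l 524430095)))) (b (b (a (l 525127695) (l 525171983)) (a (l 524890383) (l 524934415))) (c (a (l 524603663) (b (l 524760847) (l 524531983))) (a (l 524473871) (b (l 524637199) (l 524399887)))))) (a (b (a (c (l 524068623) (l 523919119)) (c (b (l 524221967) (l 523998479)) (l 523961871))) (a (c (b (l 523736591) (l 4)) (l 523461135)) (l 4))) (b (a (c (b (l 524263439) (l 524039439)) (b (l 524121615) (l 523889423))) (b (c (l 524305423) (l 524165135))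 (l 4))) (l 4))))) (a (b (a (b (c (a (l 523038223) (l 523076879)) (l 522869775)) (l 4)) (l 4)) (l 4)) (l 4))), by decide +kernel⟩

def k62_A00mm_202_s3 : ∃ t, chk3 f_A00mm_202_s3 t 114 20 1 = true :=
  ⟨(b (a (b (b (a (c (l 525269263) (l 525164047)) (c (l 525313295) (l 525209871))) (a (c (l 525035279) (l 524921871)) (c (l 525079055) (l 524967183)))) (a (b (c (l 524803855) (l 524681743)) (c (l 524574479) (l 524444175))) (b (c (l 524847119) (l 524726799)) (b (a (l 524600335) (l 524622351)) (l 4))))) (b (b (a (b (c (l 525416463) (l 525317135)) (c (l 525298703) (l 525194767))) (b (c (a (l 525450255) (l 525472527)) (a (l 525351951) (l 525374991))) (b (a (l 525310735) (c (l 525383951) (l 525283087))) (a (l 525250831) (l 525474831))))) (a (c (b (l 525181455) (l 525064719)) (l 525012495)) (c (b (l 525225743) (l 525108751)) (b (l 525119247) (l 524997903))))) (b (b (a (c (l 524948495) (l 524831759)) (c (l 524992271) (l 524877327))) (a (c (l 524832783) (l 524711951))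 (l 4))) (l 4)))) (a (b (a (b (c (a (l 524337167) (l 4)) (l 524208911)) (l 4)) (l 4)) (l 4)) (l 4))), by decide +kernel⟩

def k63_A00mm_202_s3 : ∃ t, chk3 f_A00mm_202_s3 t 115 20 1 = true :=
  ⟨(b (b (a (b (a (c (b (a (a (l 525489423) (l 525500687)) (a (l 525511951) (l 525523215))) (a (b (l 525406479) (b (l 525362191) (l 525332751))) (a (b (l 525423375) (c (l 525389839) (l 525338895))) (l 525404943)))) (b (a (a (l 525392655) (l 525404175)) (a (l 525415951) (l 525427471))) (a (b (a (l 525300495) (l 525312271)) (b (l 525260559) (l 525230095))) (a (b (l 525323791) (c (l 525287951) (l 525237519))) (l 525304847))))) (c (a (l 525480975) (l 525503759)) (a (l 525383695) (l 525406991)))) (a (a (b (c (l 525259279) (l 525153807)) (c (l 525142031) (l 525032463))) (b (a (b (b (c (l 525320207) (l 525217039)) (l 525238543)) (l 525193743)) (b (b (a (c (l 525328399) (l 525225743)) (b (l 525290255) (l 4))) (l 4)) (l 4))) (l 4))) (l 4))) (a (a (b (c (l 525526287) (l 525430543))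 (l 4)) (l 4)) (l 4))) (l 4)) (l 4)), by decide +kernel⟩

def k64_A00mm_202_s3 : ∃ t, chk3 f_A00mm_202_s3 t 57 21 1 = true :=
  ⟨(l 4), by decide +kernel⟩

def k65_A00mm_202_s3 : ∃ t, chk3 f_A00mm_202_s3 t 29 10 1 = true :=
  ⟨(l 4), by decide +kernel⟩

def k66_A00mm_202_s3 : ∃ t, chk3 f_A00mm_202_s3 t 15 10 1 = true :=
  ⟨(l 4), by decide +kernel⟩

def k67_A00mm_202_s3 : ∃ t, chk3 f_A00mm_202_s3 t 7 11 1 = true :=
  ⟨(l 4), by decide +kernel⟩

def k68_A00mm_202_s3 : ∃ t, chk3 f_A00mm_202_s3 t 4 6 1 = true :=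
  ⟨(b (a (b (l 6) (a (l 6) (a (l 6) (a (l 6) (b (l 6) (l 513231119)))))) (b (a (b (l 6) (b (l 15345504) (l 15380072))) (b (b (l 15516840) (l 15549424)) (a (l 15500768) (l 15660304)))) (b (a (a (l 513766415) (l 513914639)) (a (l 15622128) (l 514214159))) (a (a (c (l 15427224) (l 15434968)) (l 513492751)) (a (l 513642767) (l 513793039)))))) (b (a (a (a (l 6) (b (l 6) (c (b (l 6) (l 15281712)) (l 15176560)))) (a (b (c (l 512973583) (l 15262176)) (b (l 512396047) (l 512771087))) (b (c (l 15396368) (l 15392024)) (c (l 512790799) (l 15481664))))) (a (b (a (c (l 15531296) (l 15519776)) (c (l 15674672) (l 15645440))) (a (c (l 512942607) (l 15609936)) (c (l 513092879) (l 15757016)))) (b (a (l 513263119) (l 513413391)) (a (c (l 513241871) (l 512606735)) (l 513074959))))) (b (a (b (b (a (a (l 6) (l 511961103)) (a (l 15385640) (l 15556568))) (l 2)) (l 2)) (a (b (a (l 512395791) (l 512548879)) (l 2)) (a (c (l 512953615) (l 512302351)) (l 512778511)))) (l 2)))), by decide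 +kernel⟩

def k69_A00mm_202_s3 : ∃ t, chk3 f_A00mm_202_s3 t 5 6 1 = true :=
  ⟨(b (a (b (a (b (a (l 15705736) (l 15818512)) (a (l 15776088) (l 15916240))) (b (a (l 15950464) (l 515810831)) (a (l 515140879) (l 515300623)))) (a (b (a (l 514365967) (l 514519311)) (a (l 513944079) (l 514095631))) (b (a (l 514674191) (l 514830863)) (a (l 514247951) (l 514401551))))) (b (a (a (b (l 515976975) (l 515463183)) (b (l 516147215) (l 515628815))) (a (b (l 516321295) (l 515798031)) (b (l 516499983) (l 515970831)))) (a (a (b (l 514989583) (l 514556431)) (b (l 515150863) (l 514713103))) (a (b (l 515314703) (b (l 514979343) (l 514767887))) (b (a (l 515439887) (l 515524111)) (a (l 514992143) (l 515073295))))))) (a (a (b (b (a (l 513563151) (l 513712911)) (a (l 513223695) (l 513371663))) (b (a (l 512925967) (l 513071631)) (a (l 2) (l 512813327)))) (b (b (a (l 513862927) (l 514013199)) (a (l 513518863) (l 513665807))) (b (a (l 513216271) (l 513359375)) (a (l 512954895) (l 513094415)))))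 (a (b (a (b (l 514163983) (l 513812495)) (b (l 514315791) (l 513959183))) (a (b (l 513501711) (b (l 513297167) (l 513172751))) (b (l 513643791) (b (l 513435151) (l 4))))) (b (a (b (l 514468879) (l 514106639)) (b (a (l 514584847) (l 514662671)) (l 4))) (a (b (l 513785359) (l 4)) (l 4)))))), by decide +kernel⟩

def k70_A00mm_202_s3 : ∃ t, chk3 f_A00mm_202_s3 t 2 7 1 = true :=
  ⟨(a (l 2) (a (l 2) (a (l 2) (l 4)))), by decide +kernel⟩

def k71_A00mm_202_s3 : ∃ t, chk3 f_A00mm_202_s3 t 3 3 1 = true :=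
  ⟨(a (b (a (b (a (b (a (b (l 516683535) (l 516147727)) (b (a (l 516824847) (l 516920591)) (a (l 516283919) (l 516375823)))) (a (b (l 515651855) (a (l 515155215) (l 515237647))) (b (a (l 515782415) (l 515870479)) (l 4)))) (b (a (b (a (l 517017871) (l 517116431)) (a (l 516469007) (l 4))) (b (a (c (l 517440271) (l 516992015)) (l 4)) (l 4))) (l 4))) (l 4)) (l 4)) (l 4)) (l 4)), by decide +kernel⟩

theorem t72_A00mm_202_s3 : ∃ t, chk3 f_A00mm_202_s3 t 2 6 1 = true := ex3_a k68_A00mm_202_s3 k69_A00mm_202_s3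

theorem t73_A00mm_202_s3 : ∃ t, chk3 f_A00mm_202_s3 t 2 3 1 = true := ex3_b t72_A00mm_202_s3 k70_A00mm_202_s3

theorem t74_A00mm_202_s3 : ∃ t, chk3 f_A00mm_202_s3 t 1 3 1 = true := ex3_a t73_A00mm_202_s3 k71_A00mm_202_s3

theorem t75_A00mm_202_s3 : ∃ t, chk3 f_A00mm_202_s3 t 57 20 1 = true := ex3_a k62_A00mm_202_s3 k63_A00mm_202_s3

theorem t76_A00mm_202_s3 : ∃ t, chk3 f_A00mm_202_s3 t 57 10 1 = true := ex3_b t75_A00mm_202_s3 k64_A00mm_202_s3

theorem t77_A00mm_202_s3 : ∃ t, chk3 f_A00mm_202_s3 t 28 10 1 = true := ex3_a k61_A00mm_202_s3 t76_A00mm_202_s3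

theorem t78_A00mm_202_s3 : ∃ t, chk3 f_A00mm_202_s3 t 14 10 1 = true := ex3_a t77_A00mm_202_s3 k65_A00mm_202_s3

theorem t79_A00mm_202_s3 : ∃ t, chk3 f_A00mm_202_s3 t 7 10 1 = true := ex3_a t78_A00mm_202_s3 k66_A00mm_202_s3

theorem t80_A00mm_202_s3 : ∃ t, chk3 f_A00mm_202_s3 t 7 5 1 = true := ex3_b t79_A00mm_202_s3 k67_A00mm_202_s3

theorem t81_A00mm_202_s3 : ∃ t, chk3 f_A00mm_202_s3 t 13 10 1 = true := ex3_a k58_A00mm_202_s3 k59_A00mm_202_s3

theorem t82_A00mm_202_s3 : ∃ t, chk3 f_A00mm_202_s3 t 13 5 1 = true := ex3_b t81_A00mm_202_s3 k60_A00mm_202_s3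

theorem t83_A00mm_202_s3 : ∃ t, chk3 f_A00mm_202_s3 t 6 5 1 = true := ex3_a k57_A00mm_202_s3 t82_A00mm_202_s3

theorem t84_A00mm_202_s3 : ∃ t, chk3 f_A00mm_202_s3 t 3 5 1 = true := ex3_a t83_A00mm_202_s3 t80_A00mm_202_s3

theorem t85_A00mm_202_s3 : ∃ t, chk3 f_A00mm_202_s3 t 59 18 1 = true := ex3_b k53_A00mm_202_s3 k54_A00mm_202_s3

theorem t86_A00mm_202_s3 : ∃ t, chk3 f_A00mm_202_s3 t 59 9 1 = true := ex3_b t85_A00mm_202_s3 k55_A00mm_202_s3

theorem t87_A00mm_202_s3 : ∃ t, chk3 f_A00mm_202_s3 t 58 19 1 = true := ex3_a k51_A00mm_202_s3 k52_A00mm_202_s3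

theorem t88_A00mm_202_s3 : ∃ t, chk3 f_A00mm_202_s3 t 58 18 1 = true := ex3_a k49_A00mm_202_s3 k50_A00mm_202_s3

theorem t89_A00mm_202_s3 : ∃ t, chk3 f_A00mm_202_s3 t 58 9 1 = true := ex3_b t88_A00mm_202_s3 t87_A00mm_202_s3

theorem t90_A00mm_202_s3 : ∃ t, chk3 f_A00mm_202_s3 t 29 9 1 = true := ex3_a t89_A00mm_202_s3 t86_A00mm_202_s3

theorem t91_A00mm_202_s3 : ∃ t, chk3 f_A00mm_202_s3 t 57 19 1 = true := ex3_a k47_A00mm_202_s3 k48_A00mm_202_s3

theorem t92_A00mm_202_s3 : ∃ t, chk3 f_A00mm_202_s3 t 28 19 1 = true := ex3_a k46_A00mm_202_s3 t91_A00mm_202_s3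

theorem t93_A00mm_202_s3 : ∃ t, chk3 f_A00mm_202_s3 t 28 18 1 = true := ex3_a k44_A00mm_202_s3 k45_A00mm_202_s3

theorem t94_A00mm_202_s3 : ∃ t, chk3 f_A00mm_202_s3 t 28 9 1 = true := ex3_b t93_A00mm_202_s3 t92_A00mm_202_s3

theorem t95_A00mm_202_s3 : ∃ t, chk3 f_A00mm_202_s3 t 14 9 1 = true := ex3_a t94_A00mm_202_s3 t90_A00mm_202_s3

theorem t96_A00mm_202_s3 : ∃ t, chk3 f_A00mm_202_s3 t 7 9 1 = true := ex3_a t95_A00mm_202_s3 k56_A00mm_202_s3

theorem t97_A00mm_202_s3 : ∃ t, chk3 f_A00mm_202_s3 t 30 35 1 = true := ex3_a k41_A00mm_202_s3 k42_A00mm_202_s3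

theorem t98_A00mm_202_s3 : ∃ t, chk3 f_A00mm_202_s3 t 15 35 1 = true := ex3_a t97_A00mm_202_s3 k43_A00mm_202_s3

theorem t99_A00mm_202_s3 : ∃ t, chk3 f_A00mm_202_s3 t 61 34 1 = true := ex3_a k38_A00mm_202_s3 k39_A00mm_202_s3

theorem t100_A00mm_202_s3 : ∃ t, chk3 f_A00mm_202_s3 t 60 34 1 = true := ex3_a k36_A00mm_202_s3 k37_A00mm_202_s3

theorem t101_A00mm_202_s3 : ∃ t, chk3 f_A00mm_202_s3 t 30 34 1 = true := ex3_a t100_A00mm_202_s3 t99_A00mm_202_s3

theorem t102_A00mm_202_s3 : ∃ t, chk3 f_A00mm_202_s3 t 15 34 1 = true := ex3_a t101_A00mm_202_s3 k40_A00mm_202_s3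

theorem t103_A00mm_202_s3 : ∃ t, chk3 f_A00mm_202_s3 t 15 17 1 = true := ex3_b t102_A00mm_202_s3 t98_A00mm_202_s3

theorem t104_A00mm_202_s3 : ∃ t, chk3 f_A00mm_202_s3 t 59 17 1 = true := ex3_b k34_A00mm_202_s3 k35_A00mm_202_s3

theorem t105_A00mm_202_s3 : ∃ t, chk3 f_A00mm_202_s3 t 29 17 1 = true := ex3_a k33_A00mm_202_s3 t104_A00mm_202_s3

theorem t106_A00mm_202_s3 : ∃ t, chk3 f_A00mm_202_s3 t 28 17 1 = true := ex3_a k31_A00mm_202_s3 k32_A00mm_202_s3

theorem t107_A00mm_202_s3 : ∃ t, chk3 f_A00mm_202_s3 t 14 17 1 = true := ex3_a t106_A00mm_202_s3 t105_A00mm_202_s3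

theorem t108_A00mm_202_s3 : ∃ t, chk3 f_A00mm_202_s3 t 7 17 1 = true := ex3_a t107_A00mm_202_s3 t103_A00mm_202_s3

theorem t109_A00mm_202_s3 : ∃ t, chk3 f_A00mm_202_s3 t 62 66 1 = true := ex3_a k27_A00mm_202_s3 k28_A00mm_202_s3

theorem t110_A00mm_202_s3 : ∃ t, chk3 f_A00mm_202_s3 t 31 66 1 = true := ex3_a t109_A00mm_202_s3 k29_A00mm_202_s3

theorem t111_A00mm_202_s3 : ∃ t, chk3 f_A00mm_202_s3 t 31 33 1 = true := ex3_b t110_A00mm_202_s3 k30_A00mm_202_s3

theorem t112_A00mm_202_s3 : ∃ t, chk3 f_A00mm_202_s3 t 123 33 1 = true := ex3_a k25_A00mm_202_s3 k26_A00mm_202_s3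

theorem t113_A00mm_202_s3 : ∃ t, chk3 f_A00mm_202_s3 t 122 33 1 = true := ex3_a k23_A00mm_202_s3 k24_A00mm_202_s3

theorem t114_A00mm_202_s3 : ∃ t, chk3 f_A00mm_202_s3 t 61 33 1 = true := ex3_a t113_A00mm_202_s3 t112_A00mm_202_s3

theorem t115_A00mm_202_s3 : ∃ t, chk3 f_A00mm_202_s3 t 121 33 1 = true := ex3_a k21_A00mm_202_s3 k22_A00mm_202_s3

theorem t116_A00mm_202_s3 : ∃ t, chk3 f_A00mm_202_s3 t 60 33 1 = true := ex3_a k20_A00mm_202_s3 t115_A00mm_202_s3

theorem t117_A00mm_202_s3 : ∃ t, chk3 f_A00mm_202_s3 t 30 33 1 = true := ex3_a t116_A00mm_202_s3 t114_A00mm_202_s3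

theorem t118_A00mm_202_s3 : ∃ t, chk3 f_A00mm_202_s3 t 15 33 1 = true := ex3_a t117_A00mm_202_s3 t111_A00mm_202_s3

theorem t119_A00mm_202_s3 : ∃ t, chk3 f_A00mm_202_s3 t 31 65 1 = true := ex3_b k18_A00mm_202_s3 k19_A00mm_202_s3

theorem t120_A00mm_202_s3 : ∃ t, chk3 f_A00mm_202_s3 t 31 32 1 = true := ex3_b k17_A00mm_202_s3 t119_A00mm_202_s3

theorem t121_A00mm_202_s3 : ∃ t, chk3 f_A00mm_202_s3 t 123 32 1 = true := ex3_b k15_A00mm_202_s3 k16_A00mm_202_s3

theorem t122_A00mm_202_s3 : ∃ t, chk3 f_A00mm_202_s3 t 61 32 1 = true := ex3_a k14_A00mm_202_s3 t121_A00mm_202_s3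

theorem t123_A00mm_202_s3 : ∃ t, chk3 f_A00mm_202_s3 t 60 32 1 = true := ex3_a k12_A00mm_202_s3 k13_A00mm_202_s3

theorem t124_A00mm_202_s3 : ∃ t, chk3 f_A00mm_202_s3 t 30 32 1 = true := ex3_a t123_A00mm_202_s3 t122_A00mm_202_s3

theorem t125_A00mm_202_s3 : ∃ t, chk3 f_A00mm_202_s3 t 15 32 1 = true := ex3_a t124_A00mm_202_s3 t120_A00mm_202_s3

theorem t126_A00mm_202_s3 : ∃ t, chk3 f_A00mm_202_s3 t 15 16 1 = true := ex3_b t125_A00mm_202_s3 t118_A00mm_202_s3

theorem t127_A00mm_202_s3 : ∃ t, chk3 f_A00mm_202_s3 t 59 33 1 = true := ex3_a k10_A00mm_202_s3 k11_A00mm_202_s3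

theorem t128_A00mm_202_s3 : ∃ t, chk3 f_A00mm_202_s3 t 59 32 1 = true := ex3_a k8_A00mm_202_s3 k9_A00mm_202_s3

theorem t129_A00mm_202_s3 : ∃ t, chk3 f_A00mm_202_s3 t 59 16 1 = true := ex3_b t128_A00mm_202_s3 t127_A00mm_202_s3

theorem t130_A00mm_202_s3 : ∃ t, chk3 f_A00mm_202_s3 t 58 32 1 = true := ex3_a k5_A00mm_202_s3 k6_A00mm_202_s3

theorem t131_A00mm_202_s3 : ∃ t, chk3 f_A00mm_202_s3 t 58 16 1 = true := ex3_b t130_A00mm_202_s3 k7_A00mm_202_s3

theorem t132_A00mm_202_s3 : ∃ t, chk3 f_A00mm_202_s3 t 29 16 1 = true := ex3_a t131_A00mm_202_s3 t129_A00mm_202_s3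

theorem t133_A00mm_202_s3 : ∃ t, chk3 f_A00mm_202_s3 t 28 16 1 = true := ex3_a k3_A00mm_202_s3 k4_A00mm_202_s3

theorem t134_A00mm_202_s3 : ∃ t, chk3 f_A00mm_202_s3 t 14 16 1 = true := ex3_a t133_A00mm_202_s3 t132_A00mm_202_s3

theorem t135_A00mm_202_s3 : ∃ t, chk3 f_A00mm_202_s3 t 7 16 1 = true := ex3_a t134_A00mm_202_s3 t126_A00mm_202_s3

theorem t136_A00mm_202_s3 : ∃ t, chk3 f_A00mm_202_s3 t 7 8 1 = true := ex3_b t135_A00mm_202_s3 t108_A00mm_202_s3

theorem t137_A00mm_202_s3 : ∃ t, chk3 f_A00mm_202_s3 t 7 4 1 = true := ex3_b t136_A00mm_202_s3 t96_A00mm_202_s3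

theorem t138_A00mm_202_s3 : ∃ t, chk3 f_A00mm_202_s3 t 6 4 1 = true := ex3_b k1_A00mm_202_s3 k2_A00mm_202_s3

theorem t139_A00mm_202_s3 : ∃ t, chk3 f_A00mm_202_s3 t 3 4 1 = true := ex3_a t138_A00mm_202_s3 t137_A00mm_202_s3

theorem t140_A00mm_202_s3 : ∃ t, chk3 f_A00mm_202_s3 t 3 2 1 = true := ex3_b t139_A00mm_202_s3 t84_A00mm_202_s3

theorem t141_A00mm_202_s3 : ∃ t, chk3 f_A00mm_202_s3 t 1 2 1 = true := ex3_a k0_A00mm_202_s3 t140_A00mm_202_s3

theorem t142_A00mm_202_s3 : ∃ t, chk3 f_A00mm_202_s3 t 1 1 1 = true := ex3_b t141_A00mm_202_s3 t74_A00mm_202_s3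

theorem c_A00mm_202_s3 : CertF 0 536870912 0 536870912 1020054732 13421774 true false false .pp 2 0 2
    ndB0q2 ndB0q0 pcB2 cut_A00mm_202_s3 xt_A00mm_202_s3 :=
  certF0 (fam := true) (s1 := false) (s2 := false) (a := 2) (b := 0) (c := 2) (cn := .pp) (n1 := ndB0q2) (n2 := ndB0q0) (pc := pcB2) (cut := cut_A00mm_202_s3) (xt := xt_A00mm_202_s3) (P1 := 0) (W1 := 536870912) (P2 := 0) (W2 := 536870912) (P3 := 1020054732) (W3 := 13421774)
    rfl t142_A00mm_202_s3

theorem s_A00mm_202_s3 {κ x : ℝ} (hκ : κ * h0 = ken x) (hx : ((1020054732 : ℕ) : ℝ) / S ≤ x)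
    (hx' : x ≤ (((1020054732 : ℕ) : ℝ) + (13421774 : ℕ)) / S)
    (H : CutA (VFD κ) PP tK tL pcB (Cut.of [[⟨0, 1, 0, 26843545⟩, ⟨1, 0, 0, 26843545⟩, ⟨2, 1, 0, 26843545⟩]]) 2 0 2 0 0 (sgb false) (sgb false) x) :
    AltA (VFD κ) PP tK tL pcB [⟨4, 0, 0, 2845415833⟩] 2 0 2 0 0 (sgb false) (sgb false) x :=
  strip_altAD (m := 2845415833) false rfl hκ (SH.κ0 hκ (SH.hx1 hx).le (SH.hx2 hx').le) (SH.hx1 hx).le (SH.hx2 hx') (covB02).cov (covB00).cov hx hx' c_A00mm_202_s3 H ((okx hx hx').extA (T := tt) (sideB hx hx') hκ rfl rfl (.O 2 false) (.O 0 false) (Or.inl rfl))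

noncomputable def cut_A00mm_203_s1 : Cut := Cut.of [[⟨4, 0, 0, 1449551462⟩]]

noncomputable def f_A00mm_203_s1 : ℕ → ℕ → ℕ → ℕ → Bool := onCell 0 536870912 0 536870912 1020054732 13421774
    (rowF 0 true false false .up 2 0 3 (qsf 0 536870912 0 536870912 3) ndB0q2 ndB0q0 pcB3 cut_A00mm_203_s1 Ext.none)

def k0_A00mm_203_s1 : ∃ t, chk3 f_A00mm_203_s1 t 1 1 1 = true :=
  ⟨(l 6), by decide +kernel⟩

theorem c_A00mm_203_s1 : CertF 0 536870912 0 536870912 1020054732 13421774 true false false .up 2 0 3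
    ndB0q2 ndB0q0 pcB3 cut_A00mm_203_s1 Ext.none :=
  certF0 (fam := true) (s1 := false) (s2 := false) (a := 2) (b := 0) (c := 3) (cn := .up) (n1 := ndB0q2) (n2 := ndB0q0) (pc := pcB3) (cut := cut_A00mm_203_s1) (xt := Ext.none) (P1 := 0) (W1 := 536870912) (P2 := 0) (W2 := 536870912) (P3 := 1020054732) (W3 := 13421774)
    rfl k0_A00mm_203_s1

theorem s_A00mm_203_s1 {κ x : ℝ} (hκ : κ * h0 = ken x) (hx : ((1020054732 : ℕ) : ℝ) / S ≤ x)
    (hx' : x ≤ (((1020054732 : ℕ) : ℝ) + (13421774 : ℕ)) / S) :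
    AltA (VFD κ) PP tK tL pcB [⟨3, 0, 0, 1449551462⟩] 2 0 3 0 0 (sgb false) (sgb false) x :=
  strip_altAD (m := 1449551462) true rfl hκ (SH.κ0 hκ (SH.hx1 hx).le (SH.hx2 hx').le) (SH.hx1 hx).le (SH.hx2 hx') (covB02).cov (covB00).cov hx hx' c_A00mm_203_s1 cutA_nil (noExt_A)

noncomputable def cut_A00mm_203_s3 : Cut := Cut.of [[⟨3, 0, 0, 2845415833⟩]]

noncomputable def xt_A00mm_203_s3 : Ext := strExt dd true false false .u2 .u0m .s2m .up 2 0 3 rfl rfl gl3 vv ndB0q2 ndB0q0

noncomputable def f_A00mm_203_s3 : ℕ → ℕ → ℕ → ℕ → Bool := onCell 0 536870912 1610612736 536870912 1020054732 13421774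
    (rowF 1 true false false .up 2 0 3 (qsf 0 536870912 0 536870912 3) ndB0q2 ndB0q0 pcB3 cut_A00mm_203_s3 xt_A00mm_203_s3)

def k0_A00mm_203_s3 : ∃ t, chk3 f_A00mm_203_s3 t 1 1 1 = true :=
  ⟨(b (a (b (a (b (a (b (b (l 16448400) (l 16479504)) (a (l 16502432) (l 532850191))) (a (b (l 532369423) (l 532762895)) (b (l 532282639) (l 532671759)))) (a (b (a (l 533245455) (l 533160975)) (a (l 533472015) (l 533387791))) (a (b (l 533071375) (l 533028623)) (b (l 532439823) (l 532125967))))) (a (b (a (b (l 532193039) (l 532307983)) (b (l 532100111) (l 532475919))) (a (b (l 532339471) (l 4)) (l 4))) (b (a (b (l 531196943) (l 4)) (l 4)) (l 4)))) (a (b (b (a (a (l 533348111) (l 533265423)) (a (l 533443343) (l 532538895))) (a (l 2) (l 2))) (l 2)) (l 4))) (l 4)) (l 2)), by decide +kernel⟩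

theorem c_A00mm_203_s3 : CertF 0 536870912 0 536870912 1020054732 13421774 true false false .up 2 0 3
    ndB0q2 ndB0q0 pcB3 cut_A00mm_203_s3 xt_A00mm_203_s3 :=
  certF1 (fam := true) (s1 := false) (s2 := false) (a := 2) (b := 0) (c := 3) (cn := .up) (n1 := ndB0q2) (n2 := ndB0q0) (pc := pcB3) (cut := cut_A00mm_203_s3) (xt := xt_A00mm_203_s3) (P1 := 0) (W1 := 536870912) (P2 := 0) (W2 := 536870912) (P3 := 1020054732) (W3 := 13421774)
    rfl (fun _ => rfl) k0_A00mm_203_s3

theorem s_A00mm_203_s3 {κ x : ℝ} (hκ : κ * h0 = ken x) (hx : ((1020054732 : ℕ) : ℝ) / S ≤ x)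
    (hx' : x ≤ (((1020054732 : ℕ) : ℝ) + (13421774 : ℕ)) / S) :
    AltA (VFD κ) PP tK tL pcB [⟨4, 0, 0, 2845415833⟩] 2 0 3 0 0 (sgb false) (sgb false) x :=
  strip_altAD (m := 2845415833) false rfl hκ (SH.κ0 hκ (SH.hx1 hx).le (SH.hx2 hx').le) (SH.hx1 hx).le (SH.hx2 hx') (covB02).cov (covB00).cov hx hx' c_A00mm_203_s3 cutA_nil ((okx hx hx').extA (T := tt) (sideB hx hx') hκ rfl rfl (.O 2 false) (.O 0 false) (Or.inr rfl))

noncomputable def cut_A00mm_213_s1 : Cut := Cut.of [[⟨4, 0, 0, 1449551462⟩]]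

noncomputable def f_A00mm_213_s1 : ℕ → ℕ → ℕ → ℕ → Bool := onCell 0 536870912 536870912 536870912 1020054732 13421774
    (rowF 0 true false false .pnn 2 1 3 (qsf 0 536870912 536870912 536870912 3) ndB0q2 ndB0q1 pcB3 cut_A00mm_213_s1 Ext.none)

def k0_A00mm_213_s1 : ∃ t, chk3 f_A00mm_213_s1 t 1 1 1 = true :=
  ⟨(l 6), by decide +kernel⟩

theorem c_A00mm_213_s1 : CertF 0 536870912 536870912 536870912 1020054732 13421774 true false false .pnn 2 1 3
    ndB0q2 ndB0q1 pcB3 cut_A00mm_213_s1 Ext.none :=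
  certF0 (fam := true) (s1 := false) (s2 := false) (a := 2) (b := 1) (c := 3) (cn := .pnn) (n1 := ndB0q2) (n2 := ndB0q1) (pc := pcB3) (cut := cut_A00mm_213_s1) (xt := Ext.none) (P1 := 0) (W1 := 536870912) (P2 := 536870912) (W2 := 536870912) (P3 := 1020054732) (W3 := 13421774)
    rfl k0_A00mm_213_s1

theorem s_A00mm_213_s1 {κ x : ℝ} (hκ : κ * h0 = ken x) (hx : ((1020054732 : ℕ) : ℝ) / S ≤ x)
    (hx' : x ≤ (((1020054732 : ℕ) : ℝ) + (13421774 : ℕ)) / S) :
    AltA (VFD κ) PP tK tL pcB [⟨3, 0, 0, 1449551462⟩] 2 1 3 0 0 (sgb false) (sgb false) x :=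
  strip_altAD (m := 1449551462) true rfl hκ (SH.κ0 hκ (SH.hx1 hx).le (SH.hx2 hx').le) (SH.hx1 hx).le (SH.hx2 hx') (covB02).cov (covB01).cov hx hx' c_A00mm_213_s1 cutA_nil (noExt_A)

noncomputable def cut_A00mm_213_s3 : Cut := Cut.of [[⟨3, 0, 0, 2845415833⟩]]

noncomputable def xt_A00mm_213_s3 : Ext := strExt dd true false false .u2 .u0m .s2m .pnn 2 1 3 rfl rfl gl3 vv ndB0q2 ndB0q1

noncomputable def f_A00mm_213_s3 : ℕ → ℕ → ℕ → ℕ → Bool := onCell 0 536870912 536870912 536870912 1020054732 13421774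
    (rowF 0 true false false .pnn 2 1 3 (qsf 0 536870912 536870912 536870912 3) ndB0q2 ndB0q1 pcB3 cut_A00mm_213_s3 xt_A00mm_213_s3)

def k0_A00mm_213_s3 : ∃ t, chk3 f_A00mm_213_s3 t 1 1 1 = true :=
  ⟨(a (b (b (a (b (a (b (a (l 533412623) (l 533331727)) (a (l 533145103) (l 533339151))) (b (a (l 533239311) (l 4)) (l 4))) (a (b (a (l 532813327) (l 4)) (l 4)) (l 4))) (l 4)) (l 4)) (l 4)) (l 4)), by decide +kernel⟩

theorem c_A00mm_213_s3 : CertF 0 536870912 536870912 536870912 1020054732 13421774 true false false .pnn 2 1 3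
    ndB0q2 ndB0q1 pcB3 cut_A00mm_213_s3 xt_A00mm_213_s3 :=
  certF0 (fam := true) (s1 := false) (s2 := false) (a := 2) (b := 1) (c := 3) (cn := .pnn) (n1 := ndB0q2) (n2 := ndB0q1) (pc := pcB3) (cut := cut_A00mm_213_s3) (xt := xt_A00mm_213_s3) (P1 := 0) (W1 := 536870912) (P2 := 536870912) (W2 := 536870912) (P3 := 1020054732) (W3 := 13421774)
    rfl k0_A00mm_213_s3

theorem s_A00mm_213_s3 {κ x : ℝ} (hκ : κ * h0 = ken x) (hx : ((1020054732 : ℕ) : ℝ) / S ≤ x)
    (hx' : x ≤ (((1020054732 : ℕ) : ℝ) + (13421774 : ℕ)) / S) :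
    AltA (VFD κ) PP tK tL pcB [⟨4, 0, 0, 2845415833⟩] 2 1 3 0 0 (sgb false) (sgb false) x :=
  strip_altAD (m := 2845415833) false rfl hκ (SH.κ0 hκ (SH.hx1 hx).le (SH.hx2 hx').le) (SH.hx1 hx).le (SH.hx2 hx') (covB02).cov (covB01).cov hx hx' c_A00mm_213_s3 cutA_nil ((okx hx hx').extA (T := tt) (sideB hx hx') hκ rfl rfl (.O 2 false) (.O 1 false) (Or.inr rfl))

noncomputable def cut_A05pp_001_s1 : Cut := Cut.of [[⟨4, 0, 0, 1449551462⟩]]

noncomputable def f_A05pp_001_s1 : ℕ → ℕ → ℕ → ℕ → Bool := onCell 0 536870912 0 536870912 1020054732 13421774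
    (rowF 0 true true true .up 0 0 1 (qsf 0 536870912 0 536870912 1) ndB0q0 ndB5q0 pcB1 cut_A05pp_001_s1 Ext.none)

def k0_A05pp_001_s1 : ∃ t, chk3 f_A05pp_001_s1 t 1 1 1 = true :=
  ⟨(l 4), by decide +kernel⟩

theorem c_A05pp_001_s1 : CertF 0 536870912 0 536870912 1020054732 13421774 true true true .up 0 0 1
    ndB0q0 ndB5q0 pcB1 cut_A05pp_001_s1 Ext.none :=
  certF0 (fam := true) (s1 := true) (s2 := true) (a := 0) (b := 0) (c := 1) (cn := .up) (n1 := ndB0q0) (n2 := ndB5q0) (pc := pcB1) (cut := cut_A05pp_001_s1) (xt := Ext.none) (P1 := 0) (W1 := 536870912) (P2 := 0) (W2 := 536870912) (P3 := 1020054732) (W3 := 13421774)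
    rfl k0_A05pp_001_s1

theorem s_A05pp_001_s1 {κ x : ℝ} (hκ : κ * h0 = ken x) (hx : ((1020054732 : ℕ) : ℝ) / S ≤ x)
    (hx' : x ≤ (((1020054732 : ℕ) : ℝ) + (13421774 : ℕ)) / S) :
    AltA (VFD κ) PP tK tL pcB [⟨3, 0, 0, 1449551462⟩] 0 0 1 0 5 (sgb true) (sgb true) x :=
  strip_altAD (m := 1449551462) true rfl hκ (SH.κ0 hκ (SH.hx1 hx).le (SH.hx2 hx').le) (SH.hx1 hx).le (SH.hx2 hx') (covB00).cov (covB50).cov hx hx' c_A05pp_001_s1 cutA_nil (noExt_A)

noncomputable def cut_A05pp_011_s1 : Cut := Cut.of [[⟨4, 0, 0, 1449551462⟩]]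

noncomputable def f_A05pp_011_s1 : ℕ → ℕ → ℕ → ℕ → Bool := onCell 0 536870912 536870912 536870912 1020054732 13421774
    (rowF 0 true true true .pnn 0 1 1 (qsf 0 536870912 536870912 536870912 1) ndB0q0 ndB5q1 pcB1 cut_A05pp_011_s1 Ext.none)

def k0_A05pp_011_s1 : ∃ t, chk3 f_A05pp_011_s1 t 1 1 1 = true :=
  ⟨(l 4), by decide +kernel⟩

theorem c_A05pp_011_s1 : CertF 0 536870912 536870912 536870912 1020054732 13421774 true true true .pnn 0 1 1
    ndB0q0 ndB5q1 pcB1 cut_A05pp_011_s1 Ext.none :=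
  certF0 (fam := true) (s1 := true) (s2 := true) (a := 0) (b := 1) (c := 1) (cn := .pnn) (n1 := ndB0q0) (n2 := ndB5q1) (pc := pcB1) (cut := cut_A05pp_011_s1) (xt := Ext.none) (P1 := 0) (W1 := 536870912) (P2 := 536870912) (W2 := 536870912) (P3 := 1020054732) (W3 := 13421774)
    rfl k0_A05pp_011_s1

theorem s_A05pp_011_s1 {κ x : ℝ} (hκ : κ * h0 = ken x) (hx : ((1020054732 : ℕ) : ℝ) / S ≤ x)
    (hx' : x ≤ (((1020054732 : ℕ) : ℝ) + (13421774 : ℕ)) / S) :
    AltA (VFD κ) PP tK tL pcB [⟨3, 0, 0, 1449551462⟩] 0 1 1 0 5 (sgb true) (sgb true) x :=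
  strip_altAD (m := 1449551462) true rfl hκ (SH.κ0 hκ (SH.hx1 hx).le (SH.hx2 hx').le) (SH.hx1 hx).le (SH.hx2 hx') (covB00).cov (covB51).cov hx hx' c_A05pp_011_s1 cutA_nil (noExt_A)

noncomputable def cut_A05pp_012_s1 : Cut := Cut.of [[⟨4, 0, 0, 1449551462⟩]]

noncomputable def f_A05pp_012_s1 : ℕ → ℕ → ℕ → ℕ → Bool := onCell 0 536870912 536870912 536870912 1020054732 13421774
    (rowF 0 true true true .pnp 0 1 2 (qsf 0 536870912 536870912 536870912 2) ndB0q0 ndB5q1 pcB2 cut_A05pp_012_s1 Ext.none)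

def k0_A05pp_012_s1 : ∃ t, chk3 f_A05pp_012_s1 t 1 1 1 = true :=
  ⟨(l 4), by decide +kernel⟩

theorem c_A05pp_012_s1 : CertF 0 536870912 536870912 536870912 1020054732 13421774 true true true .pnp 0 1 2
    ndB0q0 ndB5q1 pcB2 cut_A05pp_012_s1 Ext.none :=
  certF0 (fam := true) (s1 := true) (s2 := true) (a := 0) (b := 1) (c := 2) (cn := .pnp) (n1 := ndB0q0) (n2 := ndB5q1) (pc := pcB2) (cut := cut_A05pp_012_s1) (xt := Ext.none) (P1 := 0) (W1 := 536870912) (P2 := 536870912) (W2 := 536870912) (P3 := 1020054732) (W3 := 13421774)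
    rfl k0_A05pp_012_s1

theorem s_A05pp_012_s1 {κ x : ℝ} (hκ : κ * h0 = ken x) (hx : ((1020054732 : ℕ) : ℝ) / S ≤ x)
    (hx' : x ≤ (((1020054732 : ℕ) : ℝ) + (13421774 : ℕ)) / S) :
    AltA (VFD κ) PP tK tL pcB [⟨3, 0, 0, 1449551462⟩] 0 1 2 0 5 (sgb true) (sgb true) x :=
  strip_altAD (m := 1449551462) true rfl hκ (SH.κ0 hκ (SH.hx1 hx).le (SH.hx2 hx').le) (SH.hx1 hx).le (SH.hx2 hx') (covB00).cov (covB51).cov hx hx' c_A05pp_012_s1 cutA_nil (noExt_A)

noncomputable def cut_A05pp_022_s1 : Cut := Cut.of [[⟨4, 0, 0, 1449551462⟩]]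

noncomputable def f_A05pp_022_s1 : ℕ → ℕ → ℕ → ℕ → Bool := onCell 0 536870912 1073741824 536870912 1020054732 13421774
    (rowF 0 true true true .pp 0 2 2 (qsf 0 536870912 1073741824 536870912 2) ndB0q0 ndB5q2 pcB2 cut_A05pp_022_s1 Ext.none)

def k0_A05pp_022_s1 : ∃ t, chk3 f_A05pp_022_s1 t 1 1 1 = true :=
  ⟨(l 4), by decide +kernel⟩

theorem c_A05pp_022_s1 : CertF 0 536870912 1073741824 536870912 1020054732 13421774 true true true .pp 0 2 2
    ndB0q0 ndB5q2 pcB2 cut_A05pp_022_s1 Ext.none :=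
  certF0 (fam := true) (s1 := true) (s2 := true) (a := 0) (b := 2) (c := 2) (cn := .pp) (n1 := ndB0q0) (n2 := ndB5q2) (pc := pcB2) (cut := cut_A05pp_022_s1) (xt := Ext.none) (P1 := 0) (W1 := 536870912) (P2 := 1073741824) (W2 := 536870912) (P3 := 1020054732) (W3 := 13421774)
    rfl k0_A05pp_022_s1

theorem s_A05pp_022_s1 {κ x : ℝ} (hκ : κ * h0 = ken x) (hx : ((1020054732 : ℕ) : ℝ) / S ≤ x)
    (hx' : x ≤ (((1020054732 : ℕ) : ℝ) + (13421774 : ℕ)) / S) :
    AltA (VFD κ) PP tK tL pcB [⟨3, 0, 0, 1449551462⟩] 0 2 2 0 5 (sgb true) (sgb true) x :=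
  strip_altAD (m := 1449551462) true rfl hκ (SH.κ0 hκ (SH.hx1 hx).le (SH.hx2 hx').le) (SH.hx1 hx).le (SH.hx2 hx') (covB00).cov (covB52).cov hx hx' c_A05pp_022_s1 cutA_nil (noExt_A)

noncomputable def cut_A05pp_023_s1 : Cut := Cut.of [[⟨4, 0, 0, 1449551462⟩]]

noncomputable def f_A05pp_023_s1 : ℕ → ℕ → ℕ → ℕ → Bool := onCell 0 536870912 1073741824 536870912 1020054732 13421774
    (rowF 0 true true true .up 0 2 3 (qsf 0 536870912 1073741824 536870912 3) ndB0q0 ndB5q2 pcB3 cut_A05pp_023_s1 Ext.none)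

def k0_A05pp_023_s1 : ∃ t, chk3 f_A05pp_023_s1 t 1 1 1 = true :=
  ⟨(l 4), by decide +kernel⟩

theorem c_A05pp_023_s1 : CertF 0 536870912 1073741824 536870912 1020054732 13421774 true true true .up 0 2 3
    ndB0q0 ndB5q2 pcB3 cut_A05pp_023_s1 Ext.none :=
  certF0 (fam := true) (s1 := true) (s2 := true) (a := 0) (b := 2) (c := 3) (cn := .up) (n1 := ndB0q0) (n2 := ndB5q2) (pc := pcB3) (cut := cut_A05pp_023_s1) (xt := Ext.none) (P1 := 0) (W1 := 536870912) (P2 := 1073741824) (W2 := 536870912) (P3 := 1020054732) (W3 := 13421774)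
    rfl k0_A05pp_023_s1

theorem s_A05pp_023_s1 {κ x : ℝ} (hκ : κ * h0 = ken x) (hx : ((1020054732 : ℕ) : ℝ) / S ≤ x)
    (hx' : x ≤ (((1020054732 : ℕ) : ℝ) + (13421774 : ℕ)) / S) :
    AltA (VFD κ) PP tK tL pcB [⟨3, 0, 0, 1449551462⟩] 0 2 3 0 5 (sgb true) (sgb true) x :=
  strip_altAD (m := 1449551462) true rfl hκ (SH.κ0 hκ (SH.hx1 hx).le (SH.hx2 hx').le) (SH.hx1 hx).le (SH.hx2 hx') (covB00).cov (covB52).cov hx hx' c_A05pp_023_s1 cutA_nil (noExt_A)

noncomputable def cut_A05pp_033_s1 : Cut := Cut.of [[⟨4, 0, 0, 1449551462⟩]]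

noncomputable def f_A05pp_033_s1 : ℕ → ℕ → ℕ → ℕ → Bool := onCell 0 536870912 0 1230186008 1020054732 13421774
    (rowF 0 true true true .pnn 0 3 3 (qsf 0 536870912 0 1230186008 3) ndB0q0 ndB5q3 pcB3 cut_A05pp_033_s1 Ext.none)

def k0_A05pp_033_s1 : ∃ t, chk3 f_A05pp_033_s1 t 1 1 1 = true :=
  ⟨(l 4), by decide +kernel⟩

theorem c_A05pp_033_s1 : CertF 0 536870912 0 1230186008 1020054732 13421774 true true true .pnn 0 3 3
    ndB0q0 ndB5q3 pcB3 cut_A05pp_033_s1 Ext.none :=
  certF0 (fam := true) (s1 := true) (s2 := true) (a := 0) (b := 3) (c := 3) (cn := .pnn) (n1 := ndB0q0) (n2 := ndB5q3) (pc := pcB3) (cut := cut_A05pp_033_s1) (xt := Ext.none) (P1 := 0) (W1 := 536870912) (P2 := 0) (W2 := 1230186008) (P3 := 1020054732) (W3 := 13421774)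
    rfl k0_A05pp_033_s1

theorem s_A05pp_033_s1 {κ x : ℝ} (hκ : κ * h0 = ken x) (hx : ((1020054732 : ℕ) : ℝ) / S ≤ x)
    (hx' : x ≤ (((1020054732 : ℕ) : ℝ) + (13421774 : ℕ)) / S) :
    AltA (VFD κ) PP tK tL pcB [⟨3, 0, 0, 1449551462⟩] 0 3 3 0 5 (sgb true) (sgb true) x :=
  strip_altAD (m := 1449551462) true rfl hκ (SH.κ0 hκ (SH.hx1 hx).le (SH.hx2 hx').le) (SH.hx1 hx).le (SH.hx2 hx') (covB00).cov (covB53).cov hx hx' c_A05pp_033_s1 cutA_nil (noExt_A)

noncomputable def cut_A05pp_101_s1 : Cut := Cut.of [[⟨4, 0, 0, 1449551462⟩]]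

noncomputable def f_A05pp_101_s1 : ℕ → ℕ → ℕ → ℕ → Bool := onCell 536870912 536870912 0 536870912 1020054732 13421774
    (rowF 0 true true true .npn 1 0 1 (qsf 536870912 536870912 0 536870912 1) ndB0q1 ndB5q0 pcB1 cut_A05pp_101_s1 Ext.none)

def k0_A05pp_101_s1 : ∃ t, chk3 f_A05pp_101_s1 t 1 1 1 = true :=
  ⟨(l 4), by decide +kernel⟩

theorem c_A05pp_101_s1 : CertF 536870912 536870912 0 536870912 1020054732 13421774 true true true .npn 1 0 1
    ndB0q1 ndB5q0 pcB1 cut_A05pp_101_s1 Ext.none :=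
  certF0 (fam := true) (s1 := true) (s2 := true) (a := 1) (b := 0) (c := 1) (cn := .npn) (n1 := ndB0q1) (n2 := ndB5q0) (pc := pcB1) (cut := cut_A05pp_101_s1) (xt := Ext.none) (P1 := 536870912) (W1 := 536870912) (P2 := 0) (W2 := 536870912) (P3 := 1020054732) (W3 := 13421774)
    rfl k0_A05pp_101_s1

theorem s_A05pp_101_s1 {κ x : ℝ} (hκ : κ * h0 = ken x) (hx : ((1020054732 : ℕ) : ℝ) / S ≤ x)
    (hx' : x ≤ (((1020054732 : ℕ) : ℝ) + (13421774 : ℕ)) / S) :
    AltA (VFD κ) PP tK tL pcB [⟨3, 0, 0, 1449551462⟩] 1 0 1 0 5 (sgb true) (sgb true) x :=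
  strip_altAD (m := 1449551462) true rfl hκ (SH.κ0 hκ (SH.hx1 hx).le (SH.hx2 hx').le) (SH.hx1 hx).le (SH.hx2 hx') (covB01).cov (covB50).cov hx hx' c_A05pp_101_s1 cutA_nil (noExt_A)

noncomputable def cut_A05pp_102_s1 : Cut := Cut.of [[⟨4, 0, 0, 1449551462⟩]]

noncomputable def f_A05pp_102_s1 : ℕ → ℕ → ℕ → ℕ → Bool := onCell 536870912 536870912 0 536870912 1020054732 13421774
    (rowF 0 true true true .npp 1 0 2 (qsf 536870912 536870912 0 536870912 2) ndB0q1 ndB5q0 pcB2 cut_A05pp_102_s1 Ext.none)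

def k0_A05pp_102_s1 : ∃ t, chk3 f_A05pp_102_s1 t 1 1 1 = true :=
  ⟨(l 4), by decide +kernel⟩

theorem c_A05pp_102_s1 : CertF 536870912 536870912 0 536870912 1020054732 13421774 true true true .npp 1 0 2
    ndB0q1 ndB5q0 pcB2 cut_A05pp_102_s1 Ext.none :=
  certF0 (fam := true) (s1 := true) (s2 := true) (a := 1) (b := 0) (c := 2) (cn := .npp) (n1 := ndB0q1) (n2 := ndB5q0) (pc := pcB2) (cut := cut_A05pp_102_s1) (xt := Ext.none) (P1 := 536870912) (W1 := 536870912) (P2 := 0) (W2 := 536870912) (P3 := 1020054732) (W3 := 13421774)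
    rfl k0_A05pp_102_s1

theorem s_A05pp_102_s1 {κ x : ℝ} (hκ : κ * h0 = ken x) (hx : ((1020054732 : ℕ) : ℝ) / S ≤ x)
    (hx' : x ≤ (((1020054732 : ℕ) : ℝ) + (13421774 : ℕ)) / S) :
    AltA (VFD κ) PP tK tL pcB [⟨3, 0, 0, 1449551462⟩] 1 0 2 0 5 (sgb true) (sgb true) x :=
  strip_altAD (m := 1449551462) true rfl hκ (SH.κ0 hκ (SH.hx1 hx).le (SH.hx2 hx').le) (SH.hx1 hx).le (SH.hx2 hx') (covB01).cov (covB50).cov hx hx' c_A05pp_102_s1 cutA_nil (noExt_A)

noncomputable def cut_A05pp_112_s1 : Cut := Cut.of [[⟨4, 0, 0, 1449551462⟩]]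

noncomputable def f_A05pp_112_s1 : ℕ → ℕ → ℕ → ℕ → Bool := onCell 536870912 536870912 536870912 536870912 1020054732 13421774
    (rowF 0 true true true .dn 1 1 2 (qsf 536870912 536870912 536870912 536870912 2) ndB0q1 ndB5q1 pcB2 cut_A05pp_112_s1 Ext.none)

def k0_A05pp_112_s1 : ∃ t, chk3 f_A05pp_112_s1 t 1 1 1 = true :=
  ⟨(l 4), by decide +kernel⟩

theorem c_A05pp_112_s1 : CertF 536870912 536870912 536870912 536870912 1020054732 13421774 true true true .dn 1 1 2
    ndB0q1 ndB5q1 pcB2 cut_A05pp_112_s1 Ext.none :=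
  certF0 (fam := true) (s1 := true) (s2 := true) (a := 1) (b := 1) (c := 2) (cn := .dn) (n1 := ndB0q1) (n2 := ndB5q1) (pc := pcB2) (cut := cut_A05pp_112_s1) (xt := Ext.none) (P1 := 536870912) (W1 := 536870912) (P2 := 536870912) (W2 := 536870912) (P3 := 1020054732) (W3 := 13421774)
    rfl k0_A05pp_112_s1

theorem s_A05pp_112_s1 {κ x : ℝ} (hκ : κ * h0 = ken x) (hx : ((1020054732 : ℕ) : ℝ) / S ≤ x)
    (hx' : x ≤ (((1020054732 : ℕ) : ℝ) + (13421774 : ℕ)) / S) :
    AltA (VFD κ) PP tK tL pcB [⟨3, 0, 0, 1449551462⟩] 1 1 2 0 5 (sgb true) (sgb true) x :=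
  strip_altAD (m := 1449551462) true rfl hκ (SH.κ0 hκ (SH.hx1 hx).le (SH.hx2 hx').le) (SH.hx1 hx).le (SH.hx2 hx') (covB01).cov (covB51).cov hx hx' c_A05pp_112_s1 cutA_nil (noExt_A)

noncomputable def cut_A05pp_113_s1 : Cut := Cut.of [[⟨4, 0, 0, 1449551462⟩]]

noncomputable def f_A05pp_113_s1 : ℕ → ℕ → ℕ → ℕ → Bool := onCell 536870912 536870912 536870912 536870912 1020054732 13421774
    (rowF 0 true true true .nn 1 1 3 (qsf 536870912 536870912 536870912 536870912 3) ndB0q1 ndB5q1 pcB3 cut_A05pp_113_s1 Ext.none)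

def k0_A05pp_113_s1 : ∃ t, chk3 f_A05pp_113_s1 t 1 1 1 = true :=
  ⟨(l 4), by decide +kernel⟩

theorem c_A05pp_113_s1 : CertF 536870912 536870912 536870912 536870912 1020054732 13421774 true true true .nn 1 1 3
    ndB0q1 ndB5q1 pcB3 cut_A05pp_113_s1 Ext.none :=
  certF0 (fam := true) (s1 := true) (s2 := true) (a := 1) (b := 1) (c := 3) (cn := .nn) (n1 := ndB0q1) (n2 := ndB5q1) (pc := pcB3) (cut := cut_A05pp_113_s1) (xt := Ext.none) (P1 := 536870912) (W1 := 536870912) (P2 := 536870912) (W2 := 536870912) (P3 := 1020054732) (W3 := 13421774)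
    rfl k0_A05pp_113_s1

theorem s_A05pp_113_s1 {κ x : ℝ} (hκ : κ * h0 = ken x) (hx : ((1020054732 : ℕ) : ℝ) / S ≤ x)
    (hx' : x ≤ (((1020054732 : ℕ) : ℝ) + (13421774 : ℕ)) / S) :
    AltA (VFD κ) PP tK tL pcB [⟨3, 0, 0, 1449551462⟩] 1 1 3 0 5 (sgb true) (sgb true) x :=
  strip_altAD (m := 1449551462) true rfl hκ (SH.κ0 hκ (SH.hx1 hx).le (SH.hx2 hx').le) (SH.hx1 hx).le (SH.hx2 hx') (covB01).cov (covB51).cov hx hx' c_A05pp_113_s1 cutA_nil (noExt_A)

noncomputable def cut_A05pp_123_s1 : Cut := Cut.of [[⟨4, 0, 0, 1449551462⟩]]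

noncomputable def f_A05pp_123_s1 : ℕ → ℕ → ℕ → ℕ → Bool := onCell 536870912 536870912 1073741824 536870912 1020054732 13421774
    (rowF 0 true true true .npn 1 2 3 (qsf 536870912 536870912 1073741824 536870912 3) ndB0q1 ndB5q2 pcB3 cut_A05pp_123_s1 Ext.none)

def k0_A05pp_123_s1 : ∃ t, chk3 f_A05pp_123_s1 t 1 1 1 = true :=
  ⟨(l 4), by decide +kernel⟩

theorem c_A05pp_123_s1 : CertF 536870912 536870912 1073741824 536870912 1020054732 13421774 true true true .npn 1 2 3
    ndB0q1 ndB5q2 pcB3 cut_A05pp_123_s1 Ext.none :=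
  certF0 (fam := true) (s1 := true) (s2 := true) (a := 1) (b := 2) (c := 3) (cn := .npn) (n1 := ndB0q1) (n2 := ndB5q2) (pc := pcB3) (cut := cut_A05pp_123_s1) (xt := Ext.none) (P1 := 536870912) (W1 := 536870912) (P2 := 1073741824) (W2 := 536870912) (P3 := 1020054732) (W3 := 13421774)
    rfl k0_A05pp_123_s1

theorem s_A05pp_123_s1 {κ x : ℝ} (hκ : κ * h0 = ken x) (hx : ((1020054732 : ℕ) : ℝ) / S ≤ x)
    (hx' : x ≤ (((1020054732 : ℕ) : ℝ) + (13421774 : ℕ)) / S) :
    AltA (VFD κ) PP tK tL pcB [⟨3, 0, 0, 1449551462⟩] 1 2 3 0 5 (sgb true) (sgb true) x :=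
  strip_altAD (m := 1449551462) true rfl hκ (SH.κ0 hκ (SH.hx1 hx).le (SH.hx2 hx').le) (SH.hx1 hx).le (SH.hx2 hx') (covB01).cov (covB52).cov hx hx' c_A05pp_123_s1 cutA_nil (noExt_A)

noncomputable def cut_A05pp_133_s1 : Cut := Cut.of [[⟨4, 0, 0, 1449551462⟩]]

noncomputable def f_A05pp_133_s1 : ℕ → ℕ → ℕ → ℕ → Bool := onCell 536870912 536870912 0 1230186008 1020054732 13421774
    (rowF 0 true true true .dn 1 3 3 (qsf 536870912 536870912 0 1230186008 3) ndB0q1 ndB5q3 pcB3 cut_A05pp_133_s1 Ext.none)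

def k0_A05pp_133_s1 : ∃ t, chk3 f_A05pp_133_s1 t 1 1 1 = true :=
  ⟨(l 4), by decide +kernel⟩

theorem c_A05pp_133_s1 : CertF 536870912 536870912 0 1230186008 1020054732 13421774 true true true .dn 1 3 3
    ndB0q1 ndB5q3 pcB3 cut_A05pp_133_s1 Ext.none :=
  certF0 (fam := true) (s1 := true) (s2 := true) (a := 1) (b := 3) (c := 3) (cn := .dn) (n1 := ndB0q1) (n2 := ndB5q3) (pc := pcB3) (cut := cut_A05pp_133_s1) (xt := Ext.none) (P1 := 536870912) (W1 := 536870912) (P2 := 0) (W2 := 1230186008) (P3 := 1020054732) (W3 := 13421774)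
    rfl k0_A05pp_133_s1

theorem s_A05pp_133_s1 {κ x : ℝ} (hκ : κ * h0 = ken x) (hx : ((1020054732 : ℕ) : ℝ) / S ≤ x)
    (hx' : x ≤ (((1020054732 : ℕ) : ℝ) + (13421774 : ℕ)) / S) :
    AltA (VFD κ) PP tK tL pcB [⟨3, 0, 0, 1449551462⟩] 1 3 3 0 5 (sgb true) (sgb true) x :=
  strip_altAD (m := 1449551462) true rfl hκ (SH.κ0 hκ (SH.hx1 hx).le (SH.hx2 hx').le) (SH.hx1 hx).le (SH.hx2 hx') (covB01).cov (covB53).cov hx hx' c_A05pp_133_s1 cutA_nil (noExt_A)

noncomputable def cut_A05pp_202_s1 : Cut := Cut.of [[⟨4, 0, 0, 1449551462⟩]]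

noncomputable def f_A05pp_202_s1 : ℕ → ℕ → ℕ → ℕ → Bool := onCell 0 536870912 0 536870912 1020054732 13421774
    (rowF 0 true true true .pp 2 0 2 (qsf 0 536870912 0 536870912 2) ndB0q2 ndB5q0 pcB2 cut_A05pp_202_s1 Ext.none)

def k0_A05pp_202_s1 : ∃ t, chk3 f_A05pp_202_s1 t 1 1 1 = true :=
  ⟨(l 4), by decide +kernel⟩

theorem c_A05pp_202_s1 : CertF 0 536870912 0 536870912 1020054732 13421774 true true true .pp 2 0 2
    ndB0q2 ndB5q0 pcB2 cut_A05pp_202_s1 Ext.none :=
  certF0 (fam := true) (s1 := true) (s2 := true) (a := 2) (b := 0) (c := 2) (cn := .pp) (n1 := ndB0q2) (n2 := ndB5q0) (pc := pcB2) (cut := cut_A05pp_202_s1) (xt := Ext.none) (P1 := 0) (W1 := 536870912) (P2 := 0) (W2 := 536870912) (P3 := 1020054732) (W3 := 13421774)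
    rfl k0_A05pp_202_s1

theorem s_A05pp_202_s1 {κ x : ℝ} (hκ : κ * h0 = ken x) (hx : ((1020054732 : ℕ) : ℝ) / S ≤ x)
    (hx' : x ≤ (((1020054732 : ℕ) : ℝ) + (13421774 : ℕ)) / S) :
    AltA (VFD κ) PP tK tL pcB [⟨3, 0, 0, 1449551462⟩] 2 0 2 0 5 (sgb true) (sgb true) x :=
  strip_altAD (m := 1449551462) true rfl hκ (SH.κ0 hκ (SH.hx1 hx).le (SH.hx2 hx').le) (SH.hx1 hx).le (SH.hx2 hx') (covB02).cov (covB50).cov hx hx' c_A05pp_202_s1 cutA_nil (noExt_A)

noncomputable def cut_A05pp_203_s1 : Cut := Cut.of [[⟨4, 0, 0, 1449551462⟩]]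

noncomputable def f_A05pp_203_s1 : ℕ → ℕ → ℕ → ℕ → Bool := onCell 0 536870912 0 536870912 1020054732 13421774
    (rowF 0 true true true .up 2 0 3 (qsf 0 536870912 0 536870912 3) ndB0q2 ndB5q0 pcB3 cut_A05pp_203_s1 Ext.none)

def k0_A05pp_203_s1 : ∃ t, chk3 f_A05pp_203_s1 t 1 1 1 = true :=
  ⟨(l 4), by decide +kernel⟩

theorem c_A05pp_203_s1 : CertF 0 536870912 0 536870912 1020054732 13421774 true true true .up 2 0 3
    ndB0q2 ndB5q0 pcB3 cut_A05pp_203_s1 Ext.none :=
  certF0 (fam := true) (s1 := true) (s2 := true) (a := 2) (b := 0) (c := 3) (cn := .up) (n1 := ndB0q2) (n2 := ndB5q0) (pc := pcB3) (cut := cut_A05pp_203_s1) (xt := Ext.none) (P1 := 0) (W1 := 536870912) (P2 := 0) (W2 := 536870912) (P3 := 1020054732) (W3 := 13421774)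
    rfl k0_A05pp_203_s1

theorem s_A05pp_203_s1 {κ x : ℝ} (hκ : κ * h0 = ken x) (hx : ((1020054732 : ℕ) : ℝ) / S ≤ x)
    (hx' : x ≤ (((1020054732 : ℕ) : ℝ) + (13421774 : ℕ)) / S) :
    AltA (VFD κ) PP tK tL pcB [⟨3, 0, 0, 1449551462⟩] 2 0 3 0 5 (sgb true) (sgb true) x :=
  strip_altAD (m := 1449551462) true rfl hκ (SH.κ0 hκ (SH.hx1 hx).le (SH.hx2 hx').le) (SH.hx1 hx).le (SH.hx2 hx') (covB02).cov (covB50).cov hx hx' c_A05pp_203_s1 cutA_nil (noExt_A)

noncomputable def cut_A05pp_213_s1 : Cut := Cut.of [[⟨4, 0, 0, 1449551462⟩]]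

noncomputable def f_A05pp_213_s1 : ℕ → ℕ → ℕ → ℕ → Bool := onCell 0 536870912 536870912 536870912 1020054732 13421774
    (rowF 0 true true true .pnn 2 1 3 (qsf 0 536870912 536870912 536870912 3) ndB0q2 ndB5q1 pcB3 cut_A05pp_213_s1 Ext.none)

def k0_A05pp_213_s1 : ∃ t, chk3 f_A05pp_213_s1 t 1 1 1 = true :=
  ⟨(l 4), by decide +kernel⟩

theorem c_A05pp_213_s1 : CertF 0 536870912 536870912 536870912 1020054732 13421774 true true true .pnn 2 1 3
    ndB0q2 ndB5q1 pcB3 cut_A05pp_213_s1 Ext.none :=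
  certF0 (fam := true) (s1 := true) (s2 := true) (a := 2) (b := 1) (c := 3) (cn := .pnn) (n1 := ndB0q2) (n2 := ndB5q1) (pc := pcB3) (cut := cut_A05pp_213_s1) (xt := Ext.none) (P1 := 0) (W1 := 536870912) (P2 := 536870912) (W2 := 536870912) (P3 := 1020054732) (W3 := 13421774)
    rfl k0_A05pp_213_s1

theorem s_A05pp_213_s1 {κ x : ℝ} (hκ : κ * h0 = ken x) (hx : ((1020054732 : ℕ) : ℝ) / S ≤ x)
    (hx' : x ≤ (((1020054732 : ℕ) : ℝ) + (13421774 : ℕ)) / S) :
    AltA (VFD κ) PP tK tL pcB [⟨3, 0, 0, 1449551462⟩] 2 1 3 0 5 (sgb true) (sgb true) x :=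
  strip_altAD (m := 1449551462) true rfl hκ (SH.κ0 hκ (SH.hx1 hx).le (SH.hx2 hx').le) (SH.hx1 hx).le (SH.hx2 hx') (covB02).cov (covB51).cov hx hx' c_A05pp_213_s1 cutA_nil (noExt_A)

noncomputable def cut_A05pm_001_s1 : Cut := Cut.of [[⟨4, 0, 0, 1449551462⟩]]

noncomputable def xt_A05pm_001_s1 : Ext := strExt dd true true false .u0 .s0m .u0m .up 0 0 1 rfl rfl gf1 vv ndB0q0 ndB5q0

noncomputable def f_A05pm_001_s1 : ℕ → ℕ → ℕ → ℕ → Bool := onCell 0 536870912 536870912 536870912 1020054732 13421774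
    (rowF 1 true true false .up 0 0 1 (qsf 0 536870912 0 536870912 1) ndB0q0 ndB5q0 pcB1 cut_A05pm_001_s1 xt_A05pm_001_s1)

def k0_A05pm_001_s1 : ∃ t, chk3 f_A05pm_001_s1 t 1 1 1 = true :=
  ⟨(a (b (l 3) (b (b (l 3) (l 2)) (l 2))) (b (b (l 3) (a (l 3) (b (a (l 3) (b (c (l 529326095) (l 525353231)) (c (l 528235023) (l 525017871)))) (a (b (a (l 3) (l 525720847)) (a (l 525235983) (l 525397007))) (b (a (l 525949199) (l 526122255)) (a (l 525507343) (l 525569807))))))) (b (a (b (a (a (l 3) (b (l 3) (l 522365967))) (b (a (l 3) (l 523959823)) (a (l 522497807) (l 522650127)))) (a (b (a (l 2) (l 521100815)) (l 2)) (b (a (l 521239055) (l 521402383)) (a (l 520101903) (l 520275215))))) (b (a (b (a (l 524111375) (l 524267279)) (a (l 522818575) (l 522997775))) (b (a (l 524420623) (l 524561935)) (a (l 523181327) (l 523361551)))) (a (b (a (l 521586959) (l 521787663)) (a (l 520474127) (l 520694543))) (b (l 522109455) (l 521058575))))) (a (b (a (l 2) (b (a (l 2) (l 519331087))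 (l 2))) (l 2)) (b (a (b (a (l 16217040) (l 16234368)) (b (l 16101056) (l 16044744))) (b (l 520181519) (a (l 16052224) (l 15999472)))) (a (b (a (l 2) (l 15931128)) (l 2)) (b (a (l 15968928) (l 16035272)) (l 279808510359)))))))), by decide +kernel⟩

theorem c_A05pm_001_s1 : CertF 0 536870912 0 536870912 1020054732 13421774 true true false .up 0 0 1
    ndB0q0 ndB5q0 pcB1 cut_A05pm_001_s1 xt_A05pm_001_s1 :=
  certF1 (fam := true) (s1 := true) (s2 := false) (a := 0) (b := 0) (c := 1) (cn := .up) (n1 := ndB0q0) (n2 := ndB5q0) (pc := pcB1) (cut := cut_A05pm_001_s1) (xt := xt_A05pm_001_s1) (P1 := 0) (W1 := 536870912) (P2 := 0) (W2 := 536870912) (P3 := 1020054732) (W3 := 13421774)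
    rfl (fun _ => rfl) k0_A05pm_001_s1

theorem s_A05pm_001_s1 {κ x : ℝ} (hκ : κ * h0 = ken x) (hx : ((1020054732 : ℕ) : ℝ) / S ≤ x)
    (hx' : x ≤ (((1020054732 : ℕ) : ℝ) + (13421774 : ℕ)) / S) :
    AltA (VFD κ) PP tK tL pcB [⟨3, 0, 0, 1449551462⟩] 0 0 1 0 5 (sgb true) (sgb false) x :=
  strip_altAD (m := 1449551462) true rfl hκ (SH.κ0 hκ (SH.hx1 hx).le (SH.hx2 hx').le) (SH.hx1 hx).le (SH.hx2 hx') (covB00).cov (covB50).cov hx hx' c_A05pm_001_s1 cutA_nil ((okx hx hx').extA (T := tt) (sideB hx hx') hκ rfl rfl (.O 0 true) (.N 0 false) (Or.inr rfl))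

noncomputable def cut_A05pm_011_s1 : Cut := Cut.of [[⟨4, 0, 0, 1449551462⟩], [⟨0, 0, 0, 26843545⟩, ⟨1, 1, 0, 26843545⟩, ⟨2, 1, 0, 26843545⟩]]

noncomputable def xt_A05pm_011_s1 : Ext := strExt dd true true false .u0 .s0m .u0m .pnn 0 1 1 rfl rfl gf1 vv ndB0q0 ndB5q1

noncomputable def f_A05pm_011_s1 : ℕ → ℕ → ℕ → ℕ → Bool := onCell 0 536870912 536870912 536870912 1020054732 13421774
    (rowF 1 true true false .pnn 0 1 1 (qsf 0 536870912 536870912 536870912 1) ndB0q0 ndB5q1 pcB1 cut_A05pm_011_s1 xt_A05pm_011_s1)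

def k0_A05pm_011_s1 : ∃ t, chk3 f_A05pm_011_s1 t 1 2 1 = true :=
  ⟨(a (l 3) (a (b (l 1) (l 3)) (l 1))), by decide +kernel⟩

def k1_A05pm_011_s1 : ∃ t, chk3 f_A05pm_011_s1 t 2 6 1 = true :=
  ⟨(a (l 3) (a (l 3) (b (l 3) (b (l 3) (a (b (l 3) (l 519383567)) (l 519706639)))))), by decide +kernel⟩

def k2_A05pm_011_s1 : ∃ t, chk3 f_A05pm_011_s1 t 2 14 1 = true :=
  ⟨(a (b (l 3) (a (l 3) (a (l 3) (a (l 3) (b (l 3) (b (l 3) (l 517817103))))))) (a (a (b (l 3) (a (b (l 3) (a (l 517857807) (l 517847823))) (b (l 518102031) (l 517829391)))) (b (b (l 3) (a (l 518453263) (l 518457615))) (a (b (l 518097423) (l 517823759)) (b (l 518101263) (l 517826831))))) (b (a (b (l 518895631) (a (l 518470671) (l 518492175))) (b (l 518960143) (l 518532367))) (a (a (b (l 518113807) (l 517838607)) (l 516638991)) (b (l 518174735) (l 517898255)))))), by decide +kernel⟩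

def k3_A05pm_011_s1 : ∃ t, chk3 f_A05pm_011_s1 t 4 30 1 = true :=
  ⟨(a (b (l 3) (a (l 3) (a (l 3) (a (l 3) (a (l 3) (l 517789199)))))) (a (a (b (l 3) (a (l 517500943) (l 517741071))) (b (b (l 3) (l 516436751)) (a (l 517690383) (l 517618703)))) (a (b (a (b (l 3) (l 517684751)) (l 517431567)) (a (l 517526543) (l 517391375))) (b (b (l 517728783) (l 517601295)) (a (l 517415183) (l 517417487)))))), by decide +kernel⟩

def k4_A05pm_011_s1 : ∃ t, chk3 f_A05pm_011_s1 t 4 62 1 = true :=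
  ⟨(a (a (b (l 3) (a (l 3) (a (l 3) (a (l 3) (b (l 3) (a (l 3) (l 517921551))))))) (a (a (b (l 3) (a (b (l 3) (l 518127375)) (b (a (l 3) (l 518035471)) (a (l 518351887) (l 518632975))))) (b (a (l 3) (b (l 3) (l 518067471))) (a (b (c (l 517432847) (l 518673935)) (c (l 517759503) (l 518318351))) (b (l 517985807) (l 516780559))))) (a (b (a (b (l 3) (l 517936143)) (b (l 518114831) (l 517719055))) (b (a (l 517835535) (l 517596687)) (a (l 518139151) (l 517852943)))) (b (a (b (a (l 517134351) (c (l 517331983) (l 518340367))) (l 517420815)) (b (c (l 517278991) (l 518274319)) (l 516690959))) (a (b (l 517275151) (l 517491727)) (b (l 516968207) (l 517124367))))))) (a (a (b (a (b (a (l 517748751) (l 517817359)) (a (l 517340943) (l 517455887))) (b (l 517796879) (l 517537295))) (a (b (b (l 517078287) (l 16709624)) (c (l 16677560) (l 16680752))) (b (l 517215759) (l 16686376)))) (b (a (b (l 517751823) (l 517569807)) (l 517622287)) (a (l 515628303) (l 517281295)))) (a (b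 (b (l 517508367) (l 16643112)) (c (l 16620088) (l 16626280))) (b (l 517342735) (l 516622607))))), by decide +kernel⟩

def k5_A05pm_011_s1 : ∃ t, chk3 f_A05pm_011_s1 t 4 63 1 = true :=
  ⟨(a (a (b (a (b (l 3) (b (l 3) (b (l 3) (l 14)))) (a (a (a (a (l 516291855) (l 517172751)) (a (l 518053391) (l 518128399))) (a (a (l 518203151) (l 518277391)) (a (l 518351631) (l 518425871)))) (a (a (l 516920591) (l 518678543)) (a (l 518825231) (l 518971151))))) (a (l 14) (a (a (a (b (a (l 14) (l 519012623)) (l 14)) (a (l 517791247) (l 518671887))) (a (b (l 518192143) (l 519923727)) (b (l 519414543) (l 520072719)))) (a (a (b (l 519562255) (l 520220687)) (l 519224335)) (a (l 520176655) (l 520323087)))))) (a (a (a (b (a (l 519116047) (l 519260687)) (b (l 520207887) (l 16716360))) (b (a (l 519404303) (l 519547407)) (l 519210767))) (b (a (c (l 517332495) (l 520574479)) (b (l 519202831) (l 520046863))) (a (l 520807183) (l 520616463)))) (a (a (b (b (l 518918415) (l 16712640)) (l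 520775439)) (b (b (l 518565903) (l 16684776)) (l 520477455))) (b (a (l 517737999) (l 517548047)) (b (l 16665224) (l 16699992)))))) (b (a (a (a (b (l 16688512) (l 16615624)) (c (l 16645152) (l 16650928))) (a (l 517225999) (l 16578640))) (a (c (l 16636632) (l 16645472)) (l 16527560))) (a (a (b (c (l 16595392) (l 16603192)) (l 16633744)) (c (l 16602616) (l 16613048))) (a (l 16537432) (l 16507616))))), by decide +kernel⟩

def k6_A05pm_011_s1 : ∃ t, chk3 f_A05pm_011_s1 t 5 15 1 = true :=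
  ⟨(b (a (a (b (a (b (l 517705487) (l 517618959)) (b (l 517689871) (l 517611791))) (a (a (l 517436943) (l 517452559)) (l 517461519))) (b (a (l 517629455) (l 517634831)) (a (l 517480719) (l 16497920)))) (a (b (a (l 16518216) (l 16487152)) (a (l 16467048) (l 16519576))) (b (l 517708047) (l 16387832)))) (a (b (a (a (b (l 16591128) (l 16522448)) (b (l 16519832) (l 16576848))) (b (l 16474744) (l 16448128))) (a (a (c (l 16480112) (l 16494304)) (l 16457440)) (a (l 16427432) (l 16481256)))) (b (a (a (l 16414760) (l 16383432)) (b (l 16433016) (l 16406888))) (a (l 16351072) (l 16287816))))), by decide +kernel⟩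

def k7_A05pm_011_s1 : ∃ t, chk3 f_A05pm_011_s1 t 3 3 1 = true :=
  ⟨(a (a (b (b (a (l 3) (b (l 3) (l 522350351))) (b (a (l 520958479) (l 521079055)) (a (l 519802895) (l 519660047)))) (b (b (a (b (l 519056399) (l 518629647)) (l 517620239)) (a (b (l 518272271) (l 16427160)) (l 518253327))) (b (a (b (l 16458856) (l 16406456)) (b (l 16392640) (l 16339792))) (b (a (l 16270528) (l 16287992)) (a (l 16223056) (l 16240960)))))) (b (b (b (l 1) (a (l 522487823) (l 1))) (b (a (l 521224719) (l 521393423)) (l 520161295))) (a (b (b (l 519123471) (l 16238312)) (b (l 16214424) (b (l 16220504) (l 16174016)))) (b (b (l 519313423) (l 16255048)) (b (l 16229712) (l 15918728)))))) (b (b (l 1) (a (b (l 1) (l 520572687)) (l 1))) (b (a (b (b (l 16209088) (l 16237376)) (a (l 16270872) (l 16202064))) (b (l 1) (a (l 16133832) (l 1)))) (a (b (a (l 16160408) (l 16012224)) (a (b (l 16085536) (l 16054920)) (l 15872568))) (b (a (l 15966440) (l 16033008)) (l 16031872)))))), by decide +kernel⟩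

theorem t8_A05pm_011_s1 : ∃ t, chk3 f_A05pm_011_s1 t 4 31 1 = true := ex3_b k4_A05pm_011_s1 k5_A05pm_011_s1

theorem t9_A05pm_011_s1 : ∃ t, chk3 f_A05pm_011_s1 t 4 15 1 = true := ex3_b k3_A05pm_011_s1 t8_A05pm_011_s1

theorem t10_A05pm_011_s1 : ∃ t, chk3 f_A05pm_011_s1 t 2 15 1 = true := ex3_a t9_A05pm_011_s1 k6_A05pm_011_s1

theorem t11_A05pm_011_s1 : ∃ t, chk3 f_A05pm_011_s1 t 2 7 1 = true := ex3_b k2_A05pm_011_s1 t10_A05pm_011_s1

theorem t12_A05pm_011_s1 : ∃ t, chk3 f_A05pm_011_s1 t 2 3 1 = true := ex3_b k1_A05pm_011_s1 t11_A05pm_011_s1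

theorem t13_A05pm_011_s1 : ∃ t, chk3 f_A05pm_011_s1 t 1 3 1 = true := ex3_a t12_A05pm_011_s1 k7_A05pm_011_s1

theorem t14_A05pm_011_s1 : ∃ t, chk3 f_A05pm_011_s1 t 1 1 1 = true := ex3_b k0_A05pm_011_s1 t13_A05pm_011_s1

theorem c_A05pm_011_s1 : CertF 0 536870912 536870912 536870912 1020054732 13421774 true true false .pnn 0 1 1
    ndB0q0 ndB5q1 pcB1 cut_A05pm_011_s1 xt_A05pm_011_s1 :=
  certF1 (fam := true) (s1 := true) (s2 := false) (a := 0) (b := 1) (c := 1) (cn := .pnn) (n1 := ndB0q0) (n2 := ndB5q1) (pc := pcB1) (cut := cut_A05pm_011_s1) (xt := xt_A05pm_011_s1) (P1 := 0) (W1 := 536870912) (P2 := 536870912) (W2 := 536870912) (P3 := 1020054732) (W3 := 13421774)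
    rfl (fun _ => rfl) t14_A05pm_011_s1

theorem s_A05pm_011_s1 {κ x : ℝ} (hκ : κ * h0 = ken x) (hx : ((1020054732 : ℕ) : ℝ) / S ≤ x)
    (hx' : x ≤ (((1020054732 : ℕ) : ℝ) + (13421774 : ℕ)) / S)
    (H : CutA (VFD κ) PP tK tL pcB (Cut.of [[⟨0, 0, 0, 26843545⟩, ⟨1, 1, 0, 26843545⟩, ⟨2, 1, 0, 26843545⟩]]) 0 1 1 0 5 (sgb true) (sgb false) x) :
    AltA (VFD κ) PP tK tL pcB [⟨3, 0, 0, 1449551462⟩] 0 1 1 0 5 (sgb true) (sgb false) x :=
  strip_altAD (m := 1449551462) true rfl hκ (SH.κ0 hκ (SH.hx1 hx).le (SH.hx2 hx').le) (SH.hx1 hx).le (SH.hx2 hx') (covB00).cov (covB51).cov hx hx' c_A05pm_011_s1 H ((okx hx hx').extA (T := tt) (sideB hx hx') hκ rfl rfl (.O 0 true) (.N 1 false) (Or.inr rfl))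

noncomputable def cut_A05pm_012_s1 : Cut := Cut.of [[⟨4, 0, 0, 1449551462⟩], [⟨0, 0, 0, 38347922⟩, ⟨1, 1, 0, 38347922⟩, ⟨2, 1, 0, 38347922⟩]]

noncomputable def f_A05pm_012_s1 : ℕ → ℕ → ℕ → ℕ → Bool := onCell 1073741824 536870912 536870912 536870912 1020054732 13421774
    (rowF 2 true true false .pnp 0 1 2 (qsf 0 536870912 536870912 536870912 2) ndB0q0 ndB5q1 pcB2 cut_A05pm_012_s1 Ext.none)

def k0_A05pm_012_s1 : ∃ t, chk3 f_A05pm_012_s1 t 4 2 1 = true :=
  ⟨(b (a (b (a (l 16013904) (l 6)) (a (l 16131208) (l 16037360))) (l 6)) (a (b (a (l 16251048) (l 16171024)) (a (b (l 16341536) (l 16400888)) (l 16306008))) (b (a (l 16080584) (l 6)) (a (l 16222592) (l 16127016))))), by decide +kernel⟩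

def k1_A05pm_012_s1 : ∃ t, chk3 f_A05pm_012_s1 t 4 6 1 = true :=
  ⟨(a (b (a (b (l 16459416) (l 16493696)) (b (l 16353632) (l 16369048))) (a (b (a (l 16550992) (l 16480800)) (a (l 16573440) (l 16413192))) (b (l 16380896) (l 16304528)))) (b (a (b (l 16245752) (l 16253928)) (l 16147904)) (a (b (l 16172936) (l 16169824)) (b (l 16143136) (l 16130752))))), by decide +kernel⟩

def k2_A05pm_012_s1 : ∃ t, chk3 f_A05pm_012_s1 t 8 7 1 = true :=
  ⟨(b (a (b (a (b (l 16504128) (a (l 16535704) (l 16575744))) (b (l 16506520) (l 16428392))) (a (b (a (l 16550896) (l 16587392)) (a (a (l 16577912) (l 16635704)) (l 16513544))) (b (l 16435048) (a (l 16547936) (l 16500232))))) (b (a (l 16345552) (l 16352576)) (a (b (l 16432088) (l 16431440)) (b (l 16349488) (l 16344376))))) (a (b (a (b (a (a (b (l 16671296) (l 16595688)) (b (l 16643944) (l 16650368))) (b (l 16603624) (l 16566312))) (a (a (b (a (l 16698512) (l 16682880)) (a (l 16670528) (l 16696472))) (b (l 16659848) (l 16630688)))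 (b (a (l 16630288) (l 16601256)) (a (l 16641168) (l 16610592))))) (b (a (l 16553080) (l 16501928)) (a (b (l 16559384) (a (l 16581264) (l 16552440))) (b (l 16506200) (l 16510848))))) (a (b (b (a (a (l 14) (b (l 16641064) (l 14))) (a (l 16612792) (l 16623240))) (a (l 14) (a (l 14) (a (l 16644920) (l 16629040))))) (l 14)) (b (a (b (a (l 16592072) (l 16561768)) (a (l 16605576) (l 16574416))) (b (l 16518288) (a (l 16543552) (l 16513536)))) (a (b (a (l 14) (l 16588000)) (l 14)) (b (a (l 16557120) (l 16526296)) (a (l 14) (l 16540016))))))) (b (a (b (a (l 16452544) (l 16404960)) (a (l 16456032) (l 16405320))) (b (l 16336344) (l 16248792))) (a (b (a (b (l 16462808) (l 16470432)) (b (l 16410320) (l 16415400))) (a (b (l 16480784) (a (l 16509496) (l 16479008))) (b (l 16423312) (l 16433960)))) (b (a (l 16361064) (l 16310968)) (a (b (l 16368752) (l 16377032)) (b (l 16317088) (l 16322968)))))))), by decide +kernel⟩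

def k3_A05pm_012_s1 : ∃ t, chk3 f_A05pm_012_s1 t 9 7 1 = true :=
  ⟨(b (b (a (l 16159944) (l 16109864)) (a (a (b (l 16270576) (l 16261456)) (b (l 16195240) (l 16182472))) (a (l 16031328) (l 16045104)))) (a (b (a (b (l 16249560) (l 16241008)) (b (l 16166952) (l 16154864))) (a (b (l 16239168) (a (l 16269032) (l 16219680))) (b (l 16148504) (l 16148920)))) (b (a (l 15996720) (l 15836288)) (a (b (l 16063288) (l 16059504)) (b (l 15982192) (l 15975464)))))), by decide +kernel⟩

def k4_A05pm_012_s1 : ∃ t, chk3 f_A05pm_012_s1 t 5 1 1 = true :=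
  ⟨(b (b (l 6) (l 6)) (b (a (b (a (l 16051976) (l 6)) (b (l 15739896) (a (l 16019096) (l 15918048)))) (l 6)) (a (b (a (b (l 15988632) (a (l 15979008) (l 15916160))) (b (l 15879648) (l 15828672))) (a (a (b (l 15763192) (l 15899640)) (a (b (l 15877912) (l 15843040)) (b (a (l 15852048) (a (l 15839264) (l 15830704))) (a (l 15815600) (a (l 15802232) (l 15793424)))))) (b (l 15511472) (l 15633464)))) (a (b (l 6) (a (b (l 15673384) (l 15615376)) (l 6))) (l 6))))), by decide +kernel⟩

def k5_A05pm_012_s1 : ∃ t, chk3 f_A05pm_012_s1 t 3 1 1 = true :=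
  ⟨(b (l 6) (l 6)), by decide +kernel⟩

theorem t6_A05pm_012_s1 : ∃ t, chk3 f_A05pm_012_s1 t 4 7 1 = true := ex3_a k2_A05pm_012_s1 k3_A05pm_012_s1

theorem t7_A05pm_012_s1 : ∃ t, chk3 f_A05pm_012_s1 t 4 3 1 = true := ex3_b k1_A05pm_012_s1 t6_A05pm_012_s1

theorem t8_A05pm_012_s1 : ∃ t, chk3 f_A05pm_012_s1 t 4 1 1 = true := ex3_b k0_A05pm_012_s1 t7_A05pm_012_s1

theorem t9_A05pm_012_s1 : ∃ t, chk3 f_A05pm_012_s1 t 2 1 1 = true := ex3_a t8_A05pm_012_s1 k4_A05pm_012_s1

theorem t10_A05pm_012_s1 : ∃ t, chk3 f_A05pm_012_s1 t 1 1 1 = true := ex3_a t9_A05pm_012_s1 k5_A05pm_012_s1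

theorem c_A05pm_012_s1 : CertF 0 536870912 536870912 536870912 1020054732 13421774 true true false .pnp 0 1 2
    ndB0q0 ndB5q1 pcB2 cut_A05pm_012_s1 Ext.none :=
  certF2 (fam := true) (s1 := true) (s2 := false) (a := 0) (b := 1) (c := 2) (cn := .pnp) (n1 := ndB0q0) (n2 := ndB5q1) (pc := pcB2) (cut := cut_A05pm_012_s1) (xt := Ext.none) (P1 := 0) (W1 := 536870912) (P2 := 536870912) (W2 := 536870912) (P3 := 1020054732) (W3 := 13421774)
    rfl (fun _ => rfl) t10_A05pm_012_s1

theorem s_A05pm_012_s1 {κ x : ℝ} (hκ : κ * h0 = ken x) (hx : ((1020054732 : ℕ) : ℝ) / S ≤ x)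
    (hx' : x ≤ (((1020054732 : ℕ) : ℝ) + (13421774 : ℕ)) / S)
    (H : CutA (VFD κ) PP tK tL pcB (Cut.of [[⟨0, 0, 0, 38347922⟩, ⟨1, 1, 0, 38347922⟩, ⟨2, 1, 0, 38347922⟩]]) 0 1 2 0 5 (sgb true) (sgb false) x) :
    AltA (VFD κ) PP tK tL pcB [⟨3, 0, 0, 1449551462⟩] 0 1 2 0 5 (sgb true) (sgb false) x :=
  strip_altAD (m := 1449551462) true rfl hκ (SH.κ0 hκ (SH.hx1 hx).le (SH.hx2 hx').le) (SH.hx1 hx).le (SH.hx2 hx') (covB00).cov (covB51).cov hx hx' c_A05pm_012_s1 H (noExt_A)

end Pool.Agent.Strip051.G.I9500_9625.Tab.St.C
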