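import Pool.Agent.Strip051.G.I9500_9625.StH
import Pool.Agent.Strip051.G.I9500_9625.StF

/-! # Unit strips 9 (generated) -/

set_option linter.all false
set_option maxRecDepth 100000

namespace Pool.Agent.Strip051.G.I9500_9625.Tab.St.C

open Pool.Agent.Strip051.PB Pool.Agent.Strip051.PB.T Pool.Agent.StripNear Pool.Agent.Strip051.LC
open Pool.Agent.Strip051.G.I9500_9625.Tab Pool.Agent.Strip051.G.I9500_9625.Tab.St

noncomputable def cut_A05pm_022_s1 : Cut := Cut.of [[⟨4, 0, 0, 1449551462⟩], [⟨0, 0, 0, 38347922⟩, ⟨1, 1, 0, 38347922⟩, ⟨2, 1, 0, 38347922⟩]]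

noncomputable def f_A05pm_022_s1 : ℕ → ℕ → ℕ → ℕ → Bool := onCell 0 536870912 1073741824 536870912 1020054732 13421774
    (rowF 1 true true false .pp 0 2 2 (qsf 0 536870912 1073741824 536870912 2) ndB0q0 ndB5q2 pcB2 cut_A05pm_022_s1 Ext.none)

def k0_A05pm_022_s1 : ∃ t, chk3 f_A05pm_022_s1 t 1 4 1 = true :=
  ⟨(a (b (a (a (b (a (l 14) (a (a (a (l 14) (l 1)) (l 1)) (l 1))) (b (b (a (b (l 14) (a (l 16542088) (l 16513400))) (a (a (l 16459240) (l 16436024)) (l 1))) (a (a (a (l 16534264) (l 16579928)) (l 16474632)) (a (a (l 16505504) (l 16440472)) (a (l 16376240) (l 1))))) (a (a (b (l 16478160) (l 16397432)) (b (l 16438144) (l 16528816))) (a (b (l 16394768) (l 16401616)) (b (a (l 16381920) (l 16320160)) (l 16273784)))))) (b (l 1) (a (a (b (l 1) (a (l 16263424) (l 1))) (l 1)) (l 1)))) (l 1)) (a (a (a (b (b (a (b (l 16441872) (l 16402232)) (b (l 16536928) (l 16499560))) (a (b (l 16363184) (l 16408304)) (l 16356064))) (b (a (l 16184840) (l 16277224))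 (a (l 16281224) (l 16285584)))) (b (b (a (l 16330272) (b (l 16365712) (l 16374968))) (a (l 16352272) (l 16307200))) (b (a (l 16460872) (l 16333920)) (a (l 16381984) (l 16363816))))) (b (a (b (a (b (l 16244992) (l 16253904)) (l 16132128)) (a (l 16269416) (l 16151296))) (b (l 1) (a (l 16037360) (l 1)))) (a (b (a (l 16294576) (l 16175256)) (a (l 16241624) (l 16204256))) (b (a (l 16059824) (l 15948504)) (a (l 16087232) (l 15974032)))))) (a (a (b (l 1) (b (l 1) (l 15642736))) (l 1)) (l 1)))) (l 1)), by decide +kernel⟩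

def k1_A05pm_022_s1 : ∃ t, chk3 f_A05pm_022_s1 t 1 5 1 = true :=
  ⟨(a (a (a (b (b (a (b (b (l 16186960) (l 16150640)) (b (l 16113888) (b (l 16169608) (b (l 16154176) (l 16143656))))) (b (a (l 16306032) (l 16477688)) (b (a (l 16335000) (l 16426224)) (b (l 16267584) (c (l 16155384) (l 16171408)))))) (a (b (l 16023880) (l 15963904)) (a (l 16128512) (l 16134672)))) (a (b (b (l 15991520) (l 15937912)) (b (l 15887192) (l 15839256))) (b (a (l 16095176) (l 16182816)) (a (l 15991160) (l 16076672))))) (b (b (b (a (b (l 16122600) (l 16140888)) (l 15893840)) (b (a (l 16158488) (l 16089384)) (a (b (l 16256672) (a (l 16409568) (l 16212024))) (b (l 16106096) (a (l 16092472) (l 16057848)))))) (a (b (l 16204224) (l 16219768)) (a (l 16049168) (l 15935168)))) (a (b (l 16131672) (l 16021336)) (b (a (l 16196264) (l 16092792)) (l 16188760))))) (b (a (b (b (a (l 15586144) (l 1)) (b (a (l 15862056) (l 1)) (b (a (l 15875632) (l 1)) (a (b (l 15883112) (l 15888288))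 (b (l 1) (l 15669624)))))) (a (a (l 15818888) (l 15870512)) (a (l 15758896) (l 15650592)))) (b (l 1) (a (a (l 15545864) (l 1)) (l 1)))) (b (a (a (a (l 15897848) (l 15870096)) (a (l 15756200) (l 15726336))) (a (a (l 15617144) (l 15511256)) (a (l 15411520) (l 1)))) (a (a (a (l 16137136) (l 15951872)) (a (l 15842944) (l 6))) (l 6))))) (a (b (l 1) (l 6)) (l 1))), by decide +kernel⟩

def k2_A05pm_022_s1 : ∃ t, chk3 f_A05pm_022_s1 t 1 3 1 = true :=
  ⟨(b (a (b (a (a (a (b (l 15689048) (l 15692616)) (b (l 15687856) (l 6))) (b (a (l 16008112) (l 16218992)) (l 6))) (l 6)) (l 6)) (l 6)) (l 6)), by decide +kernel⟩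

theorem t3_A05pm_022_s1 : ∃ t, chk3 f_A05pm_022_s1 t 1 2 1 = true := ex3_b k0_A05pm_022_s1 k1_A05pm_022_s1

theorem t4_A05pm_022_s1 : ∃ t, chk3 f_A05pm_022_s1 t 1 1 1 = true := ex3_b t3_A05pm_022_s1 k2_A05pm_022_s1

theorem c_A05pm_022_s1 : CertF 0 536870912 1073741824 536870912 1020054732 13421774 true true false .pp 0 2 2
    ndB0q0 ndB5q2 pcB2 cut_A05pm_022_s1 Ext.none :=
  certF1 (fam := true) (s1 := true) (s2 := false) (a := 0) (b := 2) (c := 2) (cn := .pp) (n1 := ndB0q0) (n2 := ndB5q2) (pc := pcB2) (cut := cut_A05pm_022_s1) (xt := Ext.none) (P1 := 0) (W1 := 536870912) (P2 := 1073741824) (W2 := 536870912) (P3 := 1020054732) (W3 := 13421774)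
    rfl (fun _ => rfl) t4_A05pm_022_s1

theorem s_A05pm_022_s1 {κ x : ℝ} (hκ : κ * h0 = ken x) (hx : ((1020054732 : ℕ) : ℝ) / S ≤ x)
    (hx' : x ≤ (((1020054732 : ℕ) : ℝ) + (13421774 : ℕ)) / S)
    (H : CutA (VFD κ) PP tK tL pcB (Cut.of [[⟨0, 0, 0, 38347922⟩, ⟨1, 1, 0, 38347922⟩, ⟨2, 1, 0, 38347922⟩]]) 0 2 2 0 5 (sgb true) (sgb false) x) :
    AltA (VFD κ) PP tK tL pcB [⟨3, 0, 0, 1449551462⟩] 0 2 2 0 5 (sgb true) (sgb false) x :=
  strip_altAD (m := 1449551462) true rfl hκ (SH.κ0 hκ (SH.hx1 hx).le (SH.hx2 hx').le) (SH.hx1 hx).le (SH.hx2 hx') (covB00).cov (covB52).cov hx hx' c_A05pm_022_s1 H (noExt_A)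

noncomputable def cut_A05pm_023_s1 : Cut := Cut.of [[⟨4, 0, 0, 1449551462⟩]]

noncomputable def f_A05pm_023_s1 : ℕ → ℕ → ℕ → ℕ → Bool := onCell 1610612736 536870912 1073741824 536870912 1020054732 13421774
    (rowF 2 true true false .up 0 2 3 (qsf 0 536870912 1073741824 536870912 3) ndB0q0 ndB5q2 pcB3 cut_A05pm_023_s1 Ext.none)

def k0_A05pm_023_s1 : ∃ t, chk3 f_A05pm_023_s1 t 1 1 1 = true :=
  ⟨(a (l 6) (l 6)), by decide +kernel⟩

theorem c_A05pm_023_s1 : CertF 0 536870912 1073741824 536870912 1020054732 13421774 true true false .up 0 2 3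
    ndB0q0 ndB5q2 pcB3 cut_A05pm_023_s1 Ext.none :=
  certF2 (fam := true) (s1 := true) (s2 := false) (a := 0) (b := 2) (c := 3) (cn := .up) (n1 := ndB0q0) (n2 := ndB5q2) (pc := pcB3) (cut := cut_A05pm_023_s1) (xt := Ext.none) (P1 := 0) (W1 := 536870912) (P2 := 1073741824) (W2 := 536870912) (P3 := 1020054732) (W3 := 13421774)
    rfl (fun _ => rfl) k0_A05pm_023_s1

theorem s_A05pm_023_s1 {κ x : ℝ} (hκ : κ * h0 = ken x) (hx : ((1020054732 : ℕ) : ℝ) / S ≤ x)
    (hx' : x ≤ (((1020054732 : ℕ) : ℝ) + (13421774 : ℕ)) / S) :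
    AltA (VFD κ) PP tK tL pcB [⟨3, 0, 0, 1449551462⟩] 0 2 3 0 5 (sgb true) (sgb false) x :=
  strip_altAD (m := 1449551462) true rfl hκ (SH.κ0 hκ (SH.hx1 hx).le (SH.hx2 hx').le) (SH.hx1 hx).le (SH.hx2 hx') (covB00).cov (covB52).cov hx hx' c_A05pm_023_s1 cutA_nil (noExt_A)

noncomputable def cut_A05pm_033_s1 : Cut := Cut.of [[⟨4, 0, 0, 1449551462⟩]]

noncomputable def f_A05pm_033_s1 : ℕ → ℕ → ℕ → ℕ → Bool := onCell 1610612736 536870912 0 1230186008 1020054732 13421774
    (rowF 2 true true false .pnn 0 3 3 (qsf 0 536870912 0 1230186008 3) ndB0q0 ndB5q3 pcB3 cut_A05pm_033_s1 Ext.none)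

def k0_A05pm_033_s1 : ∃ t, chk3 f_A05pm_033_s1 t 1 1 1 = true :=
  ⟨(b (l 6) (l 6)), by decide +kernel⟩

theorem c_A05pm_033_s1 : CertF 0 536870912 0 1230186008 1020054732 13421774 true true false .pnn 0 3 3
    ndB0q0 ndB5q3 pcB3 cut_A05pm_033_s1 Ext.none :=
  certF2 (fam := true) (s1 := true) (s2 := false) (a := 0) (b := 3) (c := 3) (cn := .pnn) (n1 := ndB0q0) (n2 := ndB5q3) (pc := pcB3) (cut := cut_A05pm_033_s1) (xt := Ext.none) (P1 := 0) (W1 := 536870912) (P2 := 0) (W2 := 1230186008) (P3 := 1020054732) (W3 := 13421774)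
    rfl (fun _ => rfl) k0_A05pm_033_s1

theorem s_A05pm_033_s1 {κ x : ℝ} (hκ : κ * h0 = ken x) (hx : ((1020054732 : ℕ) : ℝ) / S ≤ x)
    (hx' : x ≤ (((1020054732 : ℕ) : ℝ) + (13421774 : ℕ)) / S) :
    AltA (VFD κ) PP tK tL pcB [⟨3, 0, 0, 1449551462⟩] 0 3 3 0 5 (sgb true) (sgb false) x :=
  strip_altAD (m := 1449551462) true rfl hκ (SH.κ0 hκ (SH.hx1 hx).le (SH.hx2 hx').le) (SH.hx1 hx).le (SH.hx2 hx') (covB00).cov (covB53).cov hx hx' c_A05pm_033_s1 cutA_nil (noExt_A)

noncomputable def cut_A05pm_101_s1 : Cut := Cut.of [[⟨4, 0, 0, 1449551462⟩]]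

noncomputable def xt_A05pm_101_s1 : Ext := strExt dd true true false .u0 .s0m .u0m .npn 1 0 1 rfl rfl gf1 vv ndB0q1 ndB5q0

noncomputable def f_A05pm_101_s1 : ℕ → ℕ → ℕ → ℕ → Bool := onCell 536870912 536870912 536870912 536870912 1020054732 13421774
    (rowF 1 true true false .npn 1 0 1 (qsf 536870912 536870912 0 536870912 1) ndB0q1 ndB5q0 pcB1 cut_A05pm_101_s1 xt_A05pm_101_s1)

def k0_A05pm_101_s1 : ∃ t, chk3 f_A05pm_101_s1 t 1 2 1 = true :=
  ⟨(a (b (a (a (b (l 3) (c (b (l 533585167) (l 532036879)) (b (l 526214159) (l 525835279)))) (b (a (a (l 3) (l 1)) (l 1)) (c (b (c (l 536240399) (l 532750351)) (l 532134415)) (b (l 526824719) (l 526003471))))) (b (l 1) (b (l 1) (a (a (c (l 532806159) (l 526455567)) (l 1)) (l 1))))) (a (b (c (b (a (l 530559247) (l 530955279)) (a (l 529195279) (l 529885199))) (a (b (l 525383183) (l 524930319)) (b (l 525189903) (l 524649487)))) (b (a (c (l 527975695) (l 524425231)) (c (l 528423951) (l 524146191))) (a (c (l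 526922767) (l 523686159)) (l 524106511)))) (a (b (c (b (c (l 533676559) (l 530502927)) (l 529535247)) (b (l 525671183) (l 524582159))) (a (b (l 525692687) (b (l 16306904) (l 16175336))) (b (a (l 16158200) (b (l 16238816) (l 16178848))) (b (a (l 16251248) (l 16206568)) (l 16007928))))) (b (a (a (b (l 1) (b (l 1) (l 16187776))) (l 1)) (l 1)) (b (a (b (a (l 16124344) (l 16168800)) (l 16034320)) (b (l 1) (l 16037592))) (a (b (l 16133432) (l 16158800)) (b (l 16137768) (l 16073624)))))))) (a (b (l 1) (a (b (l 1) (b (l 1) (a (l 333964930071) (l 1)))) (l 1))) (l 1))), by decide +kernel⟩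

def k1_A05pm_101_s1 : ∃ t, chk3 f_A05pm_101_s1 t 1 3 1 = true :=
  ⟨(a (b (a (b (a (b (l 524728079) (l 523606031)) (b (a (l 524789519) (b (l 16371520) (l 16326968))) (a (l 16322528) (b (l 16279064) (l 16230008))))) (a (b (l 522531343) (a (l 16232344) (l 16172152))) (b (a (l 15923952) (l 16081520)) (a (l 16132432) (l 16096584))))) (b (a (b (a (b (l 16211160) (l 16248504)) (b (l 16208856) (l 16163600))) (a (b (l 16204872) (l 16166504)) (l 16104312))) (b (a (l 15922616) (l 15985648)) (a (l 16016728) (l 6)))) (a (b (a (l 16115920) (l 16041624)) (l 16027856)) (b (a (l 6) (l 6)) (l 6))))) (b (a (a (b (a (l 16125440) (l 16092920)) (l 16052312)) (b (l 16061600) (l 16030808))) (a (b (l 15991856) (l 6)) (l 6))) (a (a (b (l 16029856) (l 16037352)) (b (l 16025568) (l 6))) (l 6)))) (a (b (a (l 6) (l 6)) (l 6)) (l 6))), by decide +kernel⟩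

theorem t2_A05pm_101_s1 : ∃ t, chk3 f_A05pm_101_s1 t 1 1 1 = true := ex3_b k0_A05pm_101_s1 k1_A05pm_101_s1

theorem c_A05pm_101_s1 : CertF 536870912 536870912 0 536870912 1020054732 13421774 true true false .npn 1 0 1
    ndB0q1 ndB5q0 pcB1 cut_A05pm_101_s1 xt_A05pm_101_s1 :=
  certF1 (fam := true) (s1 := true) (s2 := false) (a := 1) (b := 0) (c := 1) (cn := .npn) (n1 := ndB0q1) (n2 := ndB5q0) (pc := pcB1) (cut := cut_A05pm_101_s1) (xt := xt_A05pm_101_s1) (P1 := 536870912) (W1 := 536870912) (P2 := 0) (W2 := 536870912) (P3 := 1020054732) (W3 := 13421774)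
    rfl (fun _ => rfl) t2_A05pm_101_s1

theorem s_A05pm_101_s1 {κ x : ℝ} (hκ : κ * h0 = ken x) (hx : ((1020054732 : ℕ) : ℝ) / S ≤ x)
    (hx' : x ≤ (((1020054732 : ℕ) : ℝ) + (13421774 : ℕ)) / S) :
    AltA (VFD κ) PP tK tL pcB [⟨3, 0, 0, 1449551462⟩] 1 0 1 0 5 (sgb true) (sgb false) x :=
  strip_altAD (m := 1449551462) true rfl hκ (SH.κ0 hκ (SH.hx1 hx).le (SH.hx2 hx').le) (SH.hx1 hx).le (SH.hx2 hx') (covB01).cov (covB50).cov hx hx' c_A05pm_101_s1 cutA_nil ((okx hx hx').extA (T := tt) (sideB hx hx') hκ rfl rfl (.O 1 true) (.N 0 false) (Or.inr rfl))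

noncomputable def cut_A05pm_102_s1 : Cut := Cut.of [[⟨4, 0, 0, 1449551462⟩]]

noncomputable def f_A05pm_102_s1 : ℕ → ℕ → ℕ → ℕ → Bool := onCell 536870912 536870912 1073741824 536870912 1020054732 13421774
    (rowF 1 true true false .npp 1 0 2 (qsf 536870912 536870912 0 536870912 2) ndB0q1 ndB5q0 pcB2 cut_A05pm_102_s1 Ext.none)

def k0_A05pm_102_s1 : ∃ t, chk3 f_A05pm_102_s1 t 1 1 1 = true :=
  ⟨(a (b (a (b (b (a (b (l 15934848) (l 6)) (l 6)) (l 6)) (l 6)) (l 6)) (l 6)) (l 6)), by decide +kernel⟩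

theorem c_A05pm_102_s1 : CertF 536870912 536870912 0 536870912 1020054732 13421774 true true false .npp 1 0 2
    ndB0q1 ndB5q0 pcB2 cut_A05pm_102_s1 Ext.none :=
  certF1 (fam := true) (s1 := true) (s2 := false) (a := 1) (b := 0) (c := 2) (cn := .npp) (n1 := ndB0q1) (n2 := ndB5q0) (pc := pcB2) (cut := cut_A05pm_102_s1) (xt := Ext.none) (P1 := 536870912) (W1 := 536870912) (P2 := 0) (W2 := 536870912) (P3 := 1020054732) (W3 := 13421774)
    rfl (fun _ => rfl) k0_A05pm_102_s1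

theorem s_A05pm_102_s1 {κ x : ℝ} (hκ : κ * h0 = ken x) (hx : ((1020054732 : ℕ) : ℝ) / S ≤ x)
    (hx' : x ≤ (((1020054732 : ℕ) : ℝ) + (13421774 : ℕ)) / S) :
    AltA (VFD κ) PP tK tL pcB [⟨3, 0, 0, 1449551462⟩] 1 0 2 0 5 (sgb true) (sgb false) x :=
  strip_altAD (m := 1449551462) true rfl hκ (SH.κ0 hκ (SH.hx1 hx).le (SH.hx2 hx').le) (SH.hx1 hx).le (SH.hx2 hx') (covB01).cov (covB50).cov hx hx' c_A05pm_102_s1 cutA_nil (noExt_A)

noncomputable def cut_A05pm_112_s1 : Cut := Cut.of [[⟨4, 0, 0, 1449551462⟩]]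

noncomputable def f_A05pm_112_s1 : ℕ → ℕ → ℕ → ℕ → Bool := onCell 536870912 536870912 536870912 536870912 1020054732 13421774
    (rowF 0 true true false .dn 1 1 2 (qsf 536870912 536870912 536870912 536870912 2) ndB0q1 ndB5q1 pcB2 cut_A05pm_112_s1 Ext.none)

def k0_A05pm_112_s1 : ∃ t, chk3 f_A05pm_112_s1 t 1 1 1 = true :=
  ⟨(a (b (a (b (a (b (l 15851736) (l 6)) (l 6)) (l 6)) (l 6)) (l 6)) (l 6)), by decide +kernel⟩

theorem c_A05pm_112_s1 : CertF 536870912 536870912 536870912 536870912 1020054732 13421774 true true false .dn 1 1 2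
    ndB0q1 ndB5q1 pcB2 cut_A05pm_112_s1 Ext.none :=
  certF0 (fam := true) (s1 := true) (s2 := false) (a := 1) (b := 1) (c := 2) (cn := .dn) (n1 := ndB0q1) (n2 := ndB5q1) (pc := pcB2) (cut := cut_A05pm_112_s1) (xt := Ext.none) (P1 := 536870912) (W1 := 536870912) (P2 := 536870912) (W2 := 536870912) (P3 := 1020054732) (W3 := 13421774)
    rfl k0_A05pm_112_s1

theorem s_A05pm_112_s1 {κ x : ℝ} (hκ : κ * h0 = ken x) (hx : ((1020054732 : ℕ) : ℝ) / S ≤ x)
    (hx' : x ≤ (((1020054732 : ℕ) : ℝ) + (13421774 : ℕ)) / S) :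
    AltA (VFD κ) PP tK tL pcB [⟨3, 0, 0, 1449551462⟩] 1 1 2 0 5 (sgb true) (sgb false) x :=
  strip_altAD (m := 1449551462) true rfl hκ (SH.κ0 hκ (SH.hx1 hx).le (SH.hx2 hx').le) (SH.hx1 hx).le (SH.hx2 hx') (covB01).cov (covB51).cov hx hx' c_A05pm_112_s1 cutA_nil (noExt_A)

noncomputable def cut_A05pm_113_s1 : Cut := Cut.of [[⟨4, 0, 0, 1449551462⟩]]

noncomputable def f_A05pm_113_s1 : ℕ → ℕ → ℕ → ℕ → Bool := onCell 536870912 536870912 1610612736 536870912 1020054732 13421774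
    (rowF 1 true true false .nn 1 1 3 (qsf 536870912 536870912 536870912 536870912 3) ndB0q1 ndB5q1 pcB3 cut_A05pm_113_s1 Ext.none)

def k0_A05pm_113_s1 : ∃ t, chk3 f_A05pm_113_s1 t 1 1 1 = true :=
  ⟨(l 6), by decide +kernel⟩

theorem c_A05pm_113_s1 : CertF 536870912 536870912 536870912 536870912 1020054732 13421774 true true false .nn 1 1 3
    ndB0q1 ndB5q1 pcB3 cut_A05pm_113_s1 Ext.none :=
  certF1 (fam := true) (s1 := true) (s2 := false) (a := 1) (b := 1) (c := 3) (cn := .nn) (n1 := ndB0q1) (n2 := ndB5q1) (pc := pcB3) (cut := cut_A05pm_113_s1) (xt := Ext.none) (P1 := 536870912) (W1 := 536870912) (P2 := 536870912) (W2 := 536870912) (P3 := 1020054732) (W3 := 13421774)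
    rfl (fun _ => rfl) k0_A05pm_113_s1

theorem s_A05pm_113_s1 {κ x : ℝ} (hκ : κ * h0 = ken x) (hx : ((1020054732 : ℕ) : ℝ) / S ≤ x)
    (hx' : x ≤ (((1020054732 : ℕ) : ℝ) + (13421774 : ℕ)) / S) :
    AltA (VFD κ) PP tK tL pcB [⟨3, 0, 0, 1449551462⟩] 1 1 3 0 5 (sgb true) (sgb false) x :=
  strip_altAD (m := 1449551462) true rfl hκ (SH.κ0 hκ (SH.hx1 hx).le (SH.hx2 hx').le) (SH.hx1 hx).le (SH.hx2 hx') (covB01).cov (covB51).cov hx hx' c_A05pm_113_s1 cutA_nil (noExt_A)

noncomputable def cut_A05pm_123_s1 : Cut := Cut.of [[⟨4, 0, 0, 1449551462⟩]]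

noncomputable def f_A05pm_123_s1 : ℕ → ℕ → ℕ → ℕ → Bool := onCell 536870912 536870912 1073741824 536870912 1020054732 13421774
    (rowF 0 true true false .npn 1 2 3 (qsf 536870912 536870912 1073741824 536870912 3) ndB0q1 ndB5q2 pcB3 cut_A05pm_123_s1 Ext.none)

def k0_A05pm_123_s1 : ∃ t, chk3 f_A05pm_123_s1 t 1 1 1 = true :=
  ⟨(l 6), by decide +kernel⟩

theorem c_A05pm_123_s1 : CertF 536870912 536870912 1073741824 536870912 1020054732 13421774 true true false .npn 1 2 3
    ndB0q1 ndB5q2 pcB3 cut_A05pm_123_s1 Ext.none :=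
  certF0 (fam := true) (s1 := true) (s2 := false) (a := 1) (b := 2) (c := 3) (cn := .npn) (n1 := ndB0q1) (n2 := ndB5q2) (pc := pcB3) (cut := cut_A05pm_123_s1) (xt := Ext.none) (P1 := 536870912) (W1 := 536870912) (P2 := 1073741824) (W2 := 536870912) (P3 := 1020054732) (W3 := 13421774)
    rfl k0_A05pm_123_s1

theorem s_A05pm_123_s1 {κ x : ℝ} (hκ : κ * h0 = ken x) (hx : ((1020054732 : ℕ) : ℝ) / S ≤ x)
    (hx' : x ≤ (((1020054732 : ℕ) : ℝ) + (13421774 : ℕ)) / S) :
    AltA (VFD κ) PP tK tL pcB [⟨3, 0, 0, 1449551462⟩] 1 2 3 0 5 (sgb true) (sgb false) x :=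
  strip_altAD (m := 1449551462) true rfl hκ (SH.κ0 hκ (SH.hx1 hx).le (SH.hx2 hx').le) (SH.hx1 hx).le (SH.hx2 hx') (covB01).cov (covB52).cov hx hx' c_A05pm_123_s1 cutA_nil (noExt_A)

noncomputable def cut_A05pm_133_s1 : Cut := Cut.of [[⟨4, 0, 0, 1449551462⟩]]

noncomputable def f_A05pm_133_s1 : ℕ → ℕ → ℕ → ℕ → Bool := onCell 536870912 536870912 0 1230186008 1020054732 13421774
    (rowF 0 true true false .dn 1 3 3 (qsf 536870912 536870912 0 1230186008 3) ndB0q1 ndB5q3 pcB3 cut_A05pm_133_s1 Ext.none)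

def k0_A05pm_133_s1 : ∃ t, chk3 f_A05pm_133_s1 t 1 1 1 = true :=
  ⟨(l 6), by decide +kernel⟩

theorem c_A05pm_133_s1 : CertF 536870912 536870912 0 1230186008 1020054732 13421774 true true false .dn 1 3 3
    ndB0q1 ndB5q3 pcB3 cut_A05pm_133_s1 Ext.none :=
  certF0 (fam := true) (s1 := true) (s2 := false) (a := 1) (b := 3) (c := 3) (cn := .dn) (n1 := ndB0q1) (n2 := ndB5q3) (pc := pcB3) (cut := cut_A05pm_133_s1) (xt := Ext.none) (P1 := 536870912) (W1 := 536870912) (P2 := 0) (W2 := 1230186008) (P3 := 1020054732) (W3 := 13421774)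
    rfl k0_A05pm_133_s1

theorem s_A05pm_133_s1 {κ x : ℝ} (hκ : κ * h0 = ken x) (hx : ((1020054732 : ℕ) : ℝ) / S ≤ x)
    (hx' : x ≤ (((1020054732 : ℕ) : ℝ) + (13421774 : ℕ)) / S) :
    AltA (VFD κ) PP tK tL pcB [⟨3, 0, 0, 1449551462⟩] 1 3 3 0 5 (sgb true) (sgb false) x :=
  strip_altAD (m := 1449551462) true rfl hκ (SH.κ0 hκ (SH.hx1 hx).le (SH.hx2 hx').le) (SH.hx1 hx).le (SH.hx2 hx') (covB01).cov (covB53).cov hx hx' c_A05pm_133_s1 cutA_nil (noExt_A)

noncomputable def cut_A05pm_202_s1 : Cut := Cut.of [[⟨4, 0, 0, 1449551462⟩]]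

noncomputable def f_A05pm_202_s1 : ℕ → ℕ → ℕ → ℕ → Bool := onCell 0 536870912 0 536870912 1020054732 13421774
    (rowF 0 true true false .pp 2 0 2 (qsf 0 536870912 0 536870912 2) ndB0q2 ndB5q0 pcB2 cut_A05pm_202_s1 Ext.none)

def k0_A05pm_202_s1 : ∃ t, chk3 f_A05pm_202_s1 t 1 1 1 = true :=
  ⟨(l 6), by decide +kernel⟩

theorem c_A05pm_202_s1 : CertF 0 536870912 0 536870912 1020054732 13421774 true true false .pp 2 0 2
    ndB0q2 ndB5q0 pcB2 cut_A05pm_202_s1 Ext.none :=
  certF0 (fam := true) (s1 := true) (s2 := false) (a := 2) (b := 0) (c := 2) (cn := .pp) (n1 := ndB0q2) (n2 := ndB5q0) (pc := pcB2) (cut := cut_A05pm_202_s1) (xt := Ext.none) (P1 := 0) (W1 := 536870912) (P2 := 0) (W2 := 536870912) (P3 := 1020054732) (W3 := 13421774)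
    rfl k0_A05pm_202_s1

theorem s_A05pm_202_s1 {κ x : ℝ} (hκ : κ * h0 = ken x) (hx : ((1020054732 : ℕ) : ℝ) / S ≤ x)
    (hx' : x ≤ (((1020054732 : ℕ) : ℝ) + (13421774 : ℕ)) / S) :
    AltA (VFD κ) PP tK tL pcB [⟨3, 0, 0, 1449551462⟩] 2 0 2 0 5 (sgb true) (sgb false) x :=
  strip_altAD (m := 1449551462) true rfl hκ (SH.κ0 hκ (SH.hx1 hx).le (SH.hx2 hx').le) (SH.hx1 hx).le (SH.hx2 hx') (covB02).cov (covB50).cov hx hx' c_A05pm_202_s1 cutA_nil (noExt_A)

noncomputable def cut_A05pm_203_s1 : Cut := Cut.of [[⟨4, 0, 0, 1449551462⟩]]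

noncomputable def f_A05pm_203_s1 : ℕ → ℕ → ℕ → ℕ → Bool := onCell 0 536870912 0 536870912 1020054732 13421774
    (rowF 0 true true false .up 2 0 3 (qsf 0 536870912 0 536870912 3) ndB0q2 ndB5q0 pcB3 cut_A05pm_203_s1 Ext.none)

def k0_A05pm_203_s1 : ∃ t, chk3 f_A05pm_203_s1 t 1 1 1 = true :=
  ⟨(l 6), by decide +kernel⟩

theorem c_A05pm_203_s1 : CertF 0 536870912 0 536870912 1020054732 13421774 true true false .up 2 0 3
    ndB0q2 ndB5q0 pcB3 cut_A05pm_203_s1 Ext.none :=
  certF0 (fam := true) (s1 := true) (s2 := false) (a := 2) (b := 0) (c := 3) (cn := .up) (n1 := ndB0q2) (n2 := ndB5q0) (pc := pcB3) (cut := cut_A05pm_203_s1) (xt := Ext.none) (P1 := 0) (W1 := 536870912) (P2 := 0) (W2 := 536870912) (P3 := 1020054732) (W3 := 13421774)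
    rfl k0_A05pm_203_s1

theorem s_A05pm_203_s1 {κ x : ℝ} (hκ : κ * h0 = ken x) (hx : ((1020054732 : ℕ) : ℝ) / S ≤ x)
    (hx' : x ≤ (((1020054732 : ℕ) : ℝ) + (13421774 : ℕ)) / S) :
    AltA (VFD κ) PP tK tL pcB [⟨3, 0, 0, 1449551462⟩] 2 0 3 0 5 (sgb true) (sgb false) x :=
  strip_altAD (m := 1449551462) true rfl hκ (SH.κ0 hκ (SH.hx1 hx).le (SH.hx2 hx').le) (SH.hx1 hx).le (SH.hx2 hx') (covB02).cov (covB50).cov hx hx' c_A05pm_203_s1 cutA_nil (noExt_A)

noncomputable def cut_A05pm_213_s1 : Cut := Cut.of [[⟨4, 0, 0, 1449551462⟩]]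

noncomputable def f_A05pm_213_s1 : ℕ → ℕ → ℕ → ℕ → Bool := onCell 0 536870912 536870912 536870912 1020054732 13421774
    (rowF 0 true true false .pnn 2 1 3 (qsf 0 536870912 536870912 536870912 3) ndB0q2 ndB5q1 pcB3 cut_A05pm_213_s1 Ext.none)

def k0_A05pm_213_s1 : ∃ t, chk3 f_A05pm_213_s1 t 1 1 1 = true :=
  ⟨(l 6), by decide +kernel⟩

theorem c_A05pm_213_s1 : CertF 0 536870912 536870912 536870912 1020054732 13421774 true true false .pnn 2 1 3
    ndB0q2 ndB5q1 pcB3 cut_A05pm_213_s1 Ext.none :=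
  certF0 (fam := true) (s1 := true) (s2 := false) (a := 2) (b := 1) (c := 3) (cn := .pnn) (n1 := ndB0q2) (n2 := ndB5q1) (pc := pcB3) (cut := cut_A05pm_213_s1) (xt := Ext.none) (P1 := 0) (W1 := 536870912) (P2 := 536870912) (W2 := 536870912) (P3 := 1020054732) (W3 := 13421774)
    rfl k0_A05pm_213_s1

theorem s_A05pm_213_s1 {κ x : ℝ} (hκ : κ * h0 = ken x) (hx : ((1020054732 : ℕ) : ℝ) / S ≤ x)
    (hx' : x ≤ (((1020054732 : ℕ) : ℝ) + (13421774 : ℕ)) / S) :
    AltA (VFD κ) PP tK tL pcB [⟨3, 0, 0, 1449551462⟩] 2 1 3 0 5 (sgb true) (sgb false) x :=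
  strip_altAD (m := 1449551462) true rfl hκ (SH.κ0 hκ (SH.hx1 hx).le (SH.hx2 hx').le) (SH.hx1 hx).le (SH.hx2 hx') (covB02).cov (covB51).cov hx hx' c_A05pm_213_s1 cutA_nil (noExt_A)

noncomputable def cut_A05mm_001_s1 : Cut := Cut.of [[⟨4, 0, 0, 1449551462⟩]]

noncomputable def f_A05mm_001_s1 : ℕ → ℕ → ℕ → ℕ → Bool := onCell 0 536870912 0 536870912 1020054732 13421774
    (rowF 0 true false false .up 0 0 1 (qsf 0 536870912 0 536870912 1) ndB0q0 ndB5q0 pcB1 cut_A05mm_001_s1 Ext.none)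

def k0_A05mm_001_s1 : ∃ t, chk3 f_A05mm_001_s1 t 1 1 1 = true :=
  ⟨(l 4), by decide +kernel⟩

theorem c_A05mm_001_s1 : CertF 0 536870912 0 536870912 1020054732 13421774 true false false .up 0 0 1
    ndB0q0 ndB5q0 pcB1 cut_A05mm_001_s1 Ext.none :=
  certF0 (fam := true) (s1 := false) (s2 := false) (a := 0) (b := 0) (c := 1) (cn := .up) (n1 := ndB0q0) (n2 := ndB5q0) (pc := pcB1) (cut := cut_A05mm_001_s1) (xt := Ext.none) (P1 := 0) (W1 := 536870912) (P2 := 0) (W2 := 536870912) (P3 := 1020054732) (W3 := 13421774)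
    rfl k0_A05mm_001_s1

theorem s_A05mm_001_s1 {κ x : ℝ} (hκ : κ * h0 = ken x) (hx : ((1020054732 : ℕ) : ℝ) / S ≤ x)
    (hx' : x ≤ (((1020054732 : ℕ) : ℝ) + (13421774 : ℕ)) / S) :
    AltA (VFD κ) PP tK tL pcB [⟨3, 0, 0, 1449551462⟩] 0 0 1 0 5 (sgb false) (sgb false) x :=
  strip_altAD (m := 1449551462) true rfl hκ (SH.κ0 hκ (SH.hx1 hx).le (SH.hx2 hx').le) (SH.hx1 hx).le (SH.hx2 hx') (covB00).cov (covB50).cov hx hx' c_A05mm_001_s1 cutA_nil (noExt_A)

noncomputable def cut_A05mm_011_s1 : Cut := Cut.of [[⟨4, 0, 0, 1449551462⟩]]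

noncomputable def f_A05mm_011_s1 : ℕ → ℕ → ℕ → ℕ → Bool := onCell 0 536870912 536870912 536870912 1020054732 13421774
    (rowF 0 true false false .pnn 0 1 1 (qsf 0 536870912 536870912 536870912 1) ndB0q0 ndB5q1 pcB1 cut_A05mm_011_s1 Ext.none)

def k0_A05mm_011_s1 : ∃ t, chk3 f_A05mm_011_s1 t 1 1 1 = true :=
  ⟨(l 4), by decide +kernel⟩

theorem c_A05mm_011_s1 : CertF 0 536870912 536870912 536870912 1020054732 13421774 true false false .pnn 0 1 1
    ndB0q0 ndB5q1 pcB1 cut_A05mm_011_s1 Ext.none :=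
  certF0 (fam := true) (s1 := false) (s2 := false) (a := 0) (b := 1) (c := 1) (cn := .pnn) (n1 := ndB0q0) (n2 := ndB5q1) (pc := pcB1) (cut := cut_A05mm_011_s1) (xt := Ext.none) (P1 := 0) (W1 := 536870912) (P2 := 536870912) (W2 := 536870912) (P3 := 1020054732) (W3 := 13421774)
    rfl k0_A05mm_011_s1

theorem s_A05mm_011_s1 {κ x : ℝ} (hκ : κ * h0 = ken x) (hx : ((1020054732 : ℕ) : ℝ) / S ≤ x)
    (hx' : x ≤ (((1020054732 : ℕ) : ℝ) + (13421774 : ℕ)) / S) :
    AltA (VFD κ) PP tK tL pcB [⟨3, 0, 0, 1449551462⟩] 0 1 1 0 5 (sgb false) (sgb false) x :=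
  strip_altAD (m := 1449551462) true rfl hκ (SH.κ0 hκ (SH.hx1 hx).le (SH.hx2 hx').le) (SH.hx1 hx).le (SH.hx2 hx') (covB00).cov (covB51).cov hx hx' c_A05mm_011_s1 cutA_nil (noExt_A)

noncomputable def cut_A05mm_012_s1 : Cut := Cut.of [[⟨4, 0, 0, 1449551462⟩]]

noncomputable def f_A05mm_012_s1 : ℕ → ℕ → ℕ → ℕ → Bool := onCell 0 536870912 536870912 536870912 1020054732 13421774
    (rowF 0 true false false .pnp 0 1 2 (qsf 0 536870912 536870912 536870912 2) ndB0q0 ndB5q1 pcB2 cut_A05mm_012_s1 Ext.none)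

def k0_A05mm_012_s1 : ∃ t, chk3 f_A05mm_012_s1 t 1 1 1 = true :=
  ⟨(l 4), by decide +kernel⟩

theorem c_A05mm_012_s1 : CertF 0 536870912 536870912 536870912 1020054732 13421774 true false false .pnp 0 1 2
    ndB0q0 ndB5q1 pcB2 cut_A05mm_012_s1 Ext.none :=
  certF0 (fam := true) (s1 := false) (s2 := false) (a := 0) (b := 1) (c := 2) (cn := .pnp) (n1 := ndB0q0) (n2 := ndB5q1) (pc := pcB2) (cut := cut_A05mm_012_s1) (xt := Ext.none) (P1 := 0) (W1 := 536870912) (P2 := 536870912) (W2 := 536870912) (P3 := 1020054732) (W3 := 13421774)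
    rfl k0_A05mm_012_s1

theorem s_A05mm_012_s1 {κ x : ℝ} (hκ : κ * h0 = ken x) (hx : ((1020054732 : ℕ) : ℝ) / S ≤ x)
    (hx' : x ≤ (((1020054732 : ℕ) : ℝ) + (13421774 : ℕ)) / S) :
    AltA (VFD κ) PP tK tL pcB [⟨3, 0, 0, 1449551462⟩] 0 1 2 0 5 (sgb false) (sgb false) x :=
  strip_altAD (m := 1449551462) true rfl hκ (SH.κ0 hκ (SH.hx1 hx).le (SH.hx2 hx').le) (SH.hx1 hx).le (SH.hx2 hx') (covB00).cov (covB51).cov hx hx' c_A05mm_012_s1 cutA_nil (noExt_A)

noncomputable def cut_A05mm_022_s1 : Cut := Cut.of [[⟨4, 0, 0, 1449551462⟩]]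

noncomputable def f_A05mm_022_s1 : ℕ → ℕ → ℕ → ℕ → Bool := onCell 0 536870912 1073741824 536870912 1020054732 13421774
    (rowF 0 true false false .pp 0 2 2 (qsf 0 536870912 1073741824 536870912 2) ndB0q0 ndB5q2 pcB2 cut_A05mm_022_s1 Ext.none)

def k0_A05mm_022_s1 : ∃ t, chk3 f_A05mm_022_s1 t 1 1 1 = true :=
  ⟨(l 4), by decide +kernel⟩

theorem c_A05mm_022_s1 : CertF 0 536870912 1073741824 536870912 1020054732 13421774 true false false .pp 0 2 2
    ndB0q0 ndB5q2 pcB2 cut_A05mm_022_s1 Ext.none :=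
  certF0 (fam := true) (s1 := false) (s2 := false) (a := 0) (b := 2) (c := 2) (cn := .pp) (n1 := ndB0q0) (n2 := ndB5q2) (pc := pcB2) (cut := cut_A05mm_022_s1) (xt := Ext.none) (P1 := 0) (W1 := 536870912) (P2 := 1073741824) (W2 := 536870912) (P3 := 1020054732) (W3 := 13421774)
    rfl k0_A05mm_022_s1

theorem s_A05mm_022_s1 {κ x : ℝ} (hκ : κ * h0 = ken x) (hx : ((1020054732 : ℕ) : ℝ) / S ≤ x)
    (hx' : x ≤ (((1020054732 : ℕ) : ℝ) + (13421774 : ℕ)) / S) :
    AltA (VFD κ) PP tK tL pcB [⟨3, 0, 0, 1449551462⟩] 0 2 2 0 5 (sgb false) (sgb false) x :=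
  strip_altAD (m := 1449551462) true rfl hκ (SH.κ0 hκ (SH.hx1 hx).le (SH.hx2 hx').le) (SH.hx1 hx).le (SH.hx2 hx') (covB00).cov (covB52).cov hx hx' c_A05mm_022_s1 cutA_nil (noExt_A)

noncomputable def cut_A05mm_023_s1 : Cut := Cut.of [[⟨4, 0, 0, 1449551462⟩]]

noncomputable def f_A05mm_023_s1 : ℕ → ℕ → ℕ → ℕ → Bool := onCell 0 536870912 1073741824 536870912 1020054732 13421774
    (rowF 0 true false false .up 0 2 3 (qsf 0 536870912 1073741824 536870912 3) ndB0q0 ndB5q2 pcB3 cut_A05mm_023_s1 Ext.none)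

def k0_A05mm_023_s1 : ∃ t, chk3 f_A05mm_023_s1 t 1 1 1 = true :=
  ⟨(l 4), by decide +kernel⟩

theorem c_A05mm_023_s1 : CertF 0 536870912 1073741824 536870912 1020054732 13421774 true false false .up 0 2 3
    ndB0q0 ndB5q2 pcB3 cut_A05mm_023_s1 Ext.none :=
  certF0 (fam := true) (s1 := false) (s2 := false) (a := 0) (b := 2) (c := 3) (cn := .up) (n1 := ndB0q0) (n2 := ndB5q2) (pc := pcB3) (cut := cut_A05mm_023_s1) (xt := Ext.none) (P1 := 0) (W1 := 536870912) (P2 := 1073741824) (W2 := 536870912) (P3 := 1020054732) (W3 := 13421774)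
    rfl k0_A05mm_023_s1

theorem s_A05mm_023_s1 {κ x : ℝ} (hκ : κ * h0 = ken x) (hx : ((1020054732 : ℕ) : ℝ) / S ≤ x)
    (hx' : x ≤ (((1020054732 : ℕ) : ℝ) + (13421774 : ℕ)) / S) :
    AltA (VFD κ) PP tK tL pcB [⟨3, 0, 0, 1449551462⟩] 0 2 3 0 5 (sgb false) (sgb false) x :=
  strip_altAD (m := 1449551462) true rfl hκ (SH.κ0 hκ (SH.hx1 hx).le (SH.hx2 hx').le) (SH.hx1 hx).le (SH.hx2 hx') (covB00).cov (covB52).cov hx hx' c_A05mm_023_s1 cutA_nil (noExt_A)

noncomputable def cut_A05mm_033_s1 : Cut := Cut.of [[⟨4, 0, 0, 1449551462⟩]]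

noncomputable def f_A05mm_033_s1 : ℕ → ℕ → ℕ → ℕ → Bool := onCell 0 536870912 0 1230186008 1020054732 13421774
    (rowF 0 true false false .pnn 0 3 3 (qsf 0 536870912 0 1230186008 3) ndB0q0 ndB5q3 pcB3 cut_A05mm_033_s1 Ext.none)

def k0_A05mm_033_s1 : ∃ t, chk3 f_A05mm_033_s1 t 1 1 1 = true :=
  ⟨(l 4), by decide +kernel⟩

theorem c_A05mm_033_s1 : CertF 0 536870912 0 1230186008 1020054732 13421774 true false false .pnn 0 3 3
    ndB0q0 ndB5q3 pcB3 cut_A05mm_033_s1 Ext.none :=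
  certF0 (fam := true) (s1 := false) (s2 := false) (a := 0) (b := 3) (c := 3) (cn := .pnn) (n1 := ndB0q0) (n2 := ndB5q3) (pc := pcB3) (cut := cut_A05mm_033_s1) (xt := Ext.none) (P1 := 0) (W1 := 536870912) (P2 := 0) (W2 := 1230186008) (P3 := 1020054732) (W3 := 13421774)
    rfl k0_A05mm_033_s1

theorem s_A05mm_033_s1 {κ x : ℝ} (hκ : κ * h0 = ken x) (hx : ((1020054732 : ℕ) : ℝ) / S ≤ x)
    (hx' : x ≤ (((1020054732 : ℕ) : ℝ) + (13421774 : ℕ)) / S) :
    AltA (VFD κ) PP tK tL pcB [⟨3, 0, 0, 1449551462⟩] 0 3 3 0 5 (sgb false) (sgb false) x :=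
  strip_altAD (m := 1449551462) true rfl hκ (SH.κ0 hκ (SH.hx1 hx).le (SH.hx2 hx').le) (SH.hx1 hx).le (SH.hx2 hx') (covB00).cov (covB53).cov hx hx' c_A05mm_033_s1 cutA_nil (noExt_A)

noncomputable def cut_A05mm_101_s1 : Cut := Cut.of [[⟨4, 0, 0, 1449551462⟩]]

noncomputable def f_A05mm_101_s1 : ℕ → ℕ → ℕ → ℕ → Bool := onCell 536870912 536870912 0 536870912 1020054732 13421774
    (rowF 0 true false false .npn 1 0 1 (qsf 536870912 536870912 0 536870912 1) ndB0q1 ndB5q0 pcB1 cut_A05mm_101_s1 Ext.none)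

def k0_A05mm_101_s1 : ∃ t, chk3 f_A05mm_101_s1 t 1 1 1 = true :=
  ⟨(l 4), by decide +kernel⟩

theorem c_A05mm_101_s1 : CertF 536870912 536870912 0 536870912 1020054732 13421774 true false false .npn 1 0 1
    ndB0q1 ndB5q0 pcB1 cut_A05mm_101_s1 Ext.none :=
  certF0 (fam := true) (s1 := false) (s2 := false) (a := 1) (b := 0) (c := 1) (cn := .npn) (n1 := ndB0q1) (n2 := ndB5q0) (pc := pcB1) (cut := cut_A05mm_101_s1) (xt := Ext.none) (P1 := 536870912) (W1 := 536870912) (P2 := 0) (W2 := 536870912) (P3 := 1020054732) (W3 := 13421774)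
    rfl k0_A05mm_101_s1

theorem s_A05mm_101_s1 {κ x : ℝ} (hκ : κ * h0 = ken x) (hx : ((1020054732 : ℕ) : ℝ) / S ≤ x)
    (hx' : x ≤ (((1020054732 : ℕ) : ℝ) + (13421774 : ℕ)) / S) :
    AltA (VFD κ) PP tK tL pcB [⟨3, 0, 0, 1449551462⟩] 1 0 1 0 5 (sgb false) (sgb false) x :=
  strip_altAD (m := 1449551462) true rfl hκ (SH.κ0 hκ (SH.hx1 hx).le (SH.hx2 hx').le) (SH.hx1 hx).le (SH.hx2 hx') (covB01).cov (covB50).cov hx hx' c_A05mm_101_s1 cutA_nil (noExt_A)

noncomputable def cut_A05mm_102_s1 : Cut := Cut.of [[⟨4, 0, 0, 1449551462⟩]]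

noncomputable def f_A05mm_102_s1 : ℕ → ℕ → ℕ → ℕ → Bool := onCell 536870912 536870912 0 536870912 1020054732 13421774
    (rowF 0 true false false .npp 1 0 2 (qsf 536870912 536870912 0 536870912 2) ndB0q1 ndB5q0 pcB2 cut_A05mm_102_s1 Ext.none)

def k0_A05mm_102_s1 : ∃ t, chk3 f_A05mm_102_s1 t 1 1 1 = true :=
  ⟨(l 4), by decide +kernel⟩

theorem c_A05mm_102_s1 : CertF 536870912 536870912 0 536870912 1020054732 13421774 true false false .npp 1 0 2
    ndB0q1 ndB5q0 pcB2 cut_A05mm_102_s1 Ext.none :=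
  certF0 (fam := true) (s1 := false) (s2 := false) (a := 1) (b := 0) (c := 2) (cn := .npp) (n1 := ndB0q1) (n2 := ndB5q0) (pc := pcB2) (cut := cut_A05mm_102_s1) (xt := Ext.none) (P1 := 536870912) (W1 := 536870912) (P2 := 0) (W2 := 536870912) (P3 := 1020054732) (W3 := 13421774)
    rfl k0_A05mm_102_s1

theorem s_A05mm_102_s1 {κ x : ℝ} (hκ : κ * h0 = ken x) (hx : ((1020054732 : ℕ) : ℝ) / S ≤ x)
    (hx' : x ≤ (((1020054732 : ℕ) : ℝ) + (13421774 : ℕ)) / S) :
    AltA (VFD κ) PP tK tL pcB [⟨3, 0, 0, 1449551462⟩] 1 0 2 0 5 (sgb false) (sgb false) x :=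
  strip_altAD (m := 1449551462) true rfl hκ (SH.κ0 hκ (SH.hx1 hx).le (SH.hx2 hx').le) (SH.hx1 hx).le (SH.hx2 hx') (covB01).cov (covB50).cov hx hx' c_A05mm_102_s1 cutA_nil (noExt_A)

noncomputable def cut_A05mm_112_s1 : Cut := Cut.of [[⟨4, 0, 0, 1449551462⟩]]

noncomputable def f_A05mm_112_s1 : ℕ → ℕ → ℕ → ℕ → Bool := onCell 536870912 536870912 536870912 536870912 1020054732 13421774
    (rowF 0 true false false .dn 1 1 2 (qsf 536870912 536870912 536870912 536870912 2) ndB0q1 ndB5q1 pcB2 cut_A05mm_112_s1 Ext.none)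

def k0_A05mm_112_s1 : ∃ t, chk3 f_A05mm_112_s1 t 1 1 1 = true :=
  ⟨(l 4), by decide +kernel⟩

theorem c_A05mm_112_s1 : CertF 536870912 536870912 536870912 536870912 1020054732 13421774 true false false .dn 1 1 2
    ndB0q1 ndB5q1 pcB2 cut_A05mm_112_s1 Ext.none :=
  certF0 (fam := true) (s1 := false) (s2 := false) (a := 1) (b := 1) (c := 2) (cn := .dn) (n1 := ndB0q1) (n2 := ndB5q1) (pc := pcB2) (cut := cut_A05mm_112_s1) (xt := Ext.none) (P1 := 536870912) (W1 := 536870912) (P2 := 536870912) (W2 := 536870912) (P3 := 1020054732) (W3 := 13421774)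
    rfl k0_A05mm_112_s1

theorem s_A05mm_112_s1 {κ x : ℝ} (hκ : κ * h0 = ken x) (hx : ((1020054732 : ℕ) : ℝ) / S ≤ x)
    (hx' : x ≤ (((1020054732 : ℕ) : ℝ) + (13421774 : ℕ)) / S) :
    AltA (VFD κ) PP tK tL pcB [⟨3, 0, 0, 1449551462⟩] 1 1 2 0 5 (sgb false) (sgb false) x :=
  strip_altAD (m := 1449551462) true rfl hκ (SH.κ0 hκ (SH.hx1 hx).le (SH.hx2 hx').le) (SH.hx1 hx).le (SH.hx2 hx') (covB01).cov (covB51).cov hx hx' c_A05mm_112_s1 cutA_nil (noExt_A)

noncomputable def cut_A05mm_113_s1 : Cut := Cut.of [[⟨4, 0, 0, 1449551462⟩]]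

noncomputable def f_A05mm_113_s1 : ℕ → ℕ → ℕ → ℕ → Bool := onCell 536870912 536870912 536870912 536870912 1020054732 13421774
    (rowF 0 true false false .nn 1 1 3 (qsf 536870912 536870912 536870912 536870912 3) ndB0q1 ndB5q1 pcB3 cut_A05mm_113_s1 Ext.none)

def k0_A05mm_113_s1 : ∃ t, chk3 f_A05mm_113_s1 t 1 1 1 = true :=
  ⟨(l 4), by decide +kernel⟩

theorem c_A05mm_113_s1 : CertF 536870912 536870912 536870912 536870912 1020054732 13421774 true false false .nn 1 1 3
    ndB0q1 ndB5q1 pcB3 cut_A05mm_113_s1 Ext.none :=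
  certF0 (fam := true) (s1 := false) (s2 := false) (a := 1) (b := 1) (c := 3) (cn := .nn) (n1 := ndB0q1) (n2 := ndB5q1) (pc := pcB3) (cut := cut_A05mm_113_s1) (xt := Ext.none) (P1 := 536870912) (W1 := 536870912) (P2 := 536870912) (W2 := 536870912) (P3 := 1020054732) (W3 := 13421774)
    rfl k0_A05mm_113_s1

theorem s_A05mm_113_s1 {κ x : ℝ} (hκ : κ * h0 = ken x) (hx : ((1020054732 : ℕ) : ℝ) / S ≤ x)
    (hx' : x ≤ (((1020054732 : ℕ) : ℝ) + (13421774 : ℕ)) / S) :
    AltA (VFD κ) PP tK tL pcB [⟨3, 0, 0, 1449551462⟩] 1 1 3 0 5 (sgb false) (sgb false) x :=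
  strip_altAD (m := 1449551462) true rfl hκ (SH.κ0 hκ (SH.hx1 hx).le (SH.hx2 hx').le) (SH.hx1 hx).le (SH.hx2 hx') (covB01).cov (covB51).cov hx hx' c_A05mm_113_s1 cutA_nil (noExt_A)

noncomputable def cut_A05mm_123_s1 : Cut := Cut.of [[⟨4, 0, 0, 1449551462⟩]]

noncomputable def f_A05mm_123_s1 : ℕ → ℕ → ℕ → ℕ → Bool := onCell 536870912 536870912 1073741824 536870912 1020054732 13421774
    (rowF 0 true false false .npn 1 2 3 (qsf 536870912 536870912 1073741824 536870912 3) ndB0q1 ndB5q2 pcB3 cut_A05mm_123_s1 Ext.none)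

def k0_A05mm_123_s1 : ∃ t, chk3 f_A05mm_123_s1 t 1 1 1 = true :=
  ⟨(l 4), by decide +kernel⟩

theorem c_A05mm_123_s1 : CertF 536870912 536870912 1073741824 536870912 1020054732 13421774 true false false .npn 1 2 3
    ndB0q1 ndB5q2 pcB3 cut_A05mm_123_s1 Ext.none :=
  certF0 (fam := true) (s1 := false) (s2 := false) (a := 1) (b := 2) (c := 3) (cn := .npn) (n1 := ndB0q1) (n2 := ndB5q2) (pc := pcB3) (cut := cut_A05mm_123_s1) (xt := Ext.none) (P1 := 536870912) (W1 := 536870912) (P2 := 1073741824) (W2 := 536870912) (P3 := 1020054732) (W3 := 13421774)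
    rfl k0_A05mm_123_s1

theorem s_A05mm_123_s1 {κ x : ℝ} (hκ : κ * h0 = ken x) (hx : ((1020054732 : ℕ) : ℝ) / S ≤ x)
    (hx' : x ≤ (((1020054732 : ℕ) : ℝ) + (13421774 : ℕ)) / S) :
    AltA (VFD κ) PP tK tL pcB [⟨3, 0, 0, 1449551462⟩] 1 2 3 0 5 (sgb false) (sgb false) x :=
  strip_altAD (m := 1449551462) true rfl hκ (SH.κ0 hκ (SH.hx1 hx).le (SH.hx2 hx').le) (SH.hx1 hx).le (SH.hx2 hx') (covB01).cov (covB52).cov hx hx' c_A05mm_123_s1 cutA_nil (noExt_A)

noncomputable def cut_A05mm_133_s1 : Cut := Cut.of [[⟨4, 0, 0, 1449551462⟩]]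

noncomputable def f_A05mm_133_s1 : ℕ → ℕ → ℕ → ℕ → Bool := onCell 536870912 536870912 0 1230186008 1020054732 13421774
    (rowF 0 true false false .dn 1 3 3 (qsf 536870912 536870912 0 1230186008 3) ndB0q1 ndB5q3 pcB3 cut_A05mm_133_s1 Ext.none)

def k0_A05mm_133_s1 : ∃ t, chk3 f_A05mm_133_s1 t 1 1 1 = true :=
  ⟨(l 4), by decide +kernel⟩

theorem c_A05mm_133_s1 : CertF 536870912 536870912 0 1230186008 1020054732 13421774 true false false .dn 1 3 3
    ndB0q1 ndB5q3 pcB3 cut_A05mm_133_s1 Ext.none :=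
  certF0 (fam := true) (s1 := false) (s2 := false) (a := 1) (b := 3) (c := 3) (cn := .dn) (n1 := ndB0q1) (n2 := ndB5q3) (pc := pcB3) (cut := cut_A05mm_133_s1) (xt := Ext.none) (P1 := 536870912) (W1 := 536870912) (P2 := 0) (W2 := 1230186008) (P3 := 1020054732) (W3 := 13421774)
    rfl k0_A05mm_133_s1

theorem s_A05mm_133_s1 {κ x : ℝ} (hκ : κ * h0 = ken x) (hx : ((1020054732 : ℕ) : ℝ) / S ≤ x)
    (hx' : x ≤ (((1020054732 : ℕ) : ℝ) + (13421774 : ℕ)) / S) :
    AltA (VFD κ) PP tK tL pcB [⟨3, 0, 0, 1449551462⟩] 1 3 3 0 5 (sgb false) (sgb false) x :=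
  strip_altAD (m := 1449551462) true rfl hκ (SH.κ0 hκ (SH.hx1 hx).le (SH.hx2 hx').le) (SH.hx1 hx).le (SH.hx2 hx') (covB01).cov (covB53).cov hx hx' c_A05mm_133_s1 cutA_nil (noExt_A)

noncomputable def cut_A05mm_202_s1 : Cut := Cut.of [[⟨4, 0, 0, 1449551462⟩]]

noncomputable def f_A05mm_202_s1 : ℕ → ℕ → ℕ → ℕ → Bool := onCell 0 536870912 0 536870912 1020054732 13421774
    (rowF 0 true false false .pp 2 0 2 (qsf 0 536870912 0 536870912 2) ndB0q2 ndB5q0 pcB2 cut_A05mm_202_s1 Ext.none)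

def k0_A05mm_202_s1 : ∃ t, chk3 f_A05mm_202_s1 t 1 1 1 = true :=
  ⟨(l 4), by decide +kernel⟩

theorem c_A05mm_202_s1 : CertF 0 536870912 0 536870912 1020054732 13421774 true false false .pp 2 0 2
    ndB0q2 ndB5q0 pcB2 cut_A05mm_202_s1 Ext.none :=
  certF0 (fam := true) (s1 := false) (s2 := false) (a := 2) (b := 0) (c := 2) (cn := .pp) (n1 := ndB0q2) (n2 := ndB5q0) (pc := pcB2) (cut := cut_A05mm_202_s1) (xt := Ext.none) (P1 := 0) (W1 := 536870912) (P2 := 0) (W2 := 536870912) (P3 := 1020054732) (W3 := 13421774)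
    rfl k0_A05mm_202_s1

theorem s_A05mm_202_s1 {κ x : ℝ} (hκ : κ * h0 = ken x) (hx : ((1020054732 : ℕ) : ℝ) / S ≤ x)
    (hx' : x ≤ (((1020054732 : ℕ) : ℝ) + (13421774 : ℕ)) / S) :
    AltA (VFD κ) PP tK tL pcB [⟨3, 0, 0, 1449551462⟩] 2 0 2 0 5 (sgb false) (sgb false) x :=
  strip_altAD (m := 1449551462) true rfl hκ (SH.κ0 hκ (SH.hx1 hx).le (SH.hx2 hx').le) (SH.hx1 hx).le (SH.hx2 hx') (covB02).cov (covB50).cov hx hx' c_A05mm_202_s1 cutA_nil (noExt_A)

noncomputable def cut_A05mm_203_s1 : Cut := Cut.of [[⟨4, 0, 0, 1449551462⟩]]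

noncomputable def f_A05mm_203_s1 : ℕ → ℕ → ℕ → ℕ → Bool := onCell 0 536870912 0 536870912 1020054732 13421774
    (rowF 0 true false false .up 2 0 3 (qsf 0 536870912 0 536870912 3) ndB0q2 ndB5q0 pcB3 cut_A05mm_203_s1 Ext.none)

def k0_A05mm_203_s1 : ∃ t, chk3 f_A05mm_203_s1 t 1 1 1 = true :=
  ⟨(l 4), by decide +kernel⟩

theorem c_A05mm_203_s1 : CertF 0 536870912 0 536870912 1020054732 13421774 true false false .up 2 0 3
    ndB0q2 ndB5q0 pcB3 cut_A05mm_203_s1 Ext.none :=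
  certF0 (fam := true) (s1 := false) (s2 := false) (a := 2) (b := 0) (c := 3) (cn := .up) (n1 := ndB0q2) (n2 := ndB5q0) (pc := pcB3) (cut := cut_A05mm_203_s1) (xt := Ext.none) (P1 := 0) (W1 := 536870912) (P2 := 0) (W2 := 536870912) (P3 := 1020054732) (W3 := 13421774)
    rfl k0_A05mm_203_s1

theorem s_A05mm_203_s1 {κ x : ℝ} (hκ : κ * h0 = ken x) (hx : ((1020054732 : ℕ) : ℝ) / S ≤ x)
    (hx' : x ≤ (((1020054732 : ℕ) : ℝ) + (13421774 : ℕ)) / S) :
    AltA (VFD κ) PP tK tL pcB [⟨3, 0, 0, 1449551462⟩] 2 0 3 0 5 (sgb false) (sgb false) x :=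
  strip_altAD (m := 1449551462) true rfl hκ (SH.κ0 hκ (SH.hx1 hx).le (SH.hx2 hx').le) (SH.hx1 hx).le (SH.hx2 hx') (covB02).cov (covB50).cov hx hx' c_A05mm_203_s1 cutA_nil (noExt_A)

noncomputable def cut_A05mm_213_s1 : Cut := Cut.of [[⟨4, 0, 0, 1449551462⟩]]

noncomputable def f_A05mm_213_s1 : ℕ → ℕ → ℕ → ℕ → Bool := onCell 0 536870912 536870912 536870912 1020054732 13421774
    (rowF 0 true false false .pnn 2 1 3 (qsf 0 536870912 536870912 536870912 3) ndB0q2 ndB5q1 pcB3 cut_A05mm_213_s1 Ext.none)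

def k0_A05mm_213_s1 : ∃ t, chk3 f_A05mm_213_s1 t 1 1 1 = true :=
  ⟨(l 4), by decide +kernel⟩

theorem c_A05mm_213_s1 : CertF 0 536870912 536870912 536870912 1020054732 13421774 true false false .pnn 2 1 3
    ndB0q2 ndB5q1 pcB3 cut_A05mm_213_s1 Ext.none :=
  certF0 (fam := true) (s1 := false) (s2 := false) (a := 2) (b := 1) (c := 3) (cn := .pnn) (n1 := ndB0q2) (n2 := ndB5q1) (pc := pcB3) (cut := cut_A05mm_213_s1) (xt := Ext.none) (P1 := 0) (W1 := 536870912) (P2 := 536870912) (W2 := 536870912) (P3 := 1020054732) (W3 := 13421774)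
    rfl k0_A05mm_213_s1

theorem s_A05mm_213_s1 {κ x : ℝ} (hκ : κ * h0 = ken x) (hx : ((1020054732 : ℕ) : ℝ) / S ≤ x)
    (hx' : x ≤ (((1020054732 : ℕ) : ℝ) + (13421774 : ℕ)) / S) :
    AltA (VFD κ) PP tK tL pcB [⟨3, 0, 0, 1449551462⟩] 2 1 3 0 5 (sgb false) (sgb false) x :=
  strip_altAD (m := 1449551462) true rfl hκ (SH.κ0 hκ (SH.hx1 hx).le (SH.hx2 hx').le) (SH.hx1 hx).le (SH.hx2 hx') (covB02).cov (covB51).cov hx hx' c_A05mm_213_s1 cutA_nil (noExt_A)

noncomputable def cut_B00pp_001_s1 : Cut := Cut.of [[⟨4, 0, 0, 1449551462⟩]]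

noncomputable def f_B00pp_001_s1 : ℕ → ℕ → ℕ → ℕ → Bool := onCell 0 536870912 0 536870912 1020054732 13421774
    (rowF 1 false true true .up 0 0 1 (qsf 0 536870912 536870912 536870912 0) ndB0q0 ndB0q1 pcB0 cut_B00pp_001_s1 Ext.none)

def k0_B00pp_001_s1 : ∃ t, chk3 f_B00pp_001_s1 t 1 1 1 = true :=
  ⟨(l 3), by decide +kernel⟩

theorem c_B00pp_001_s1 : CertF 0 536870912 536870912 536870912 1020054732 13421774 false true true .up 0 0 1
    ndB0q0 ndB0q1 pcB0 cut_B00pp_001_s1 Ext.none :=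
  certF1 (fam := false) (s1 := true) (s2 := true) (a := 0) (b := 0) (c := 1) (cn := .up) (n1 := ndB0q0) (n2 := ndB0q1) (pc := pcB0) (cut := cut_B00pp_001_s1) (xt := Ext.none) (P1 := 0) (W1 := 536870912) (P2 := 536870912) (W2 := 536870912) (P3 := 1020054732) (W3 := 13421774)
    rfl (fun _ => rfl) k0_B00pp_001_s1

theorem s_B00pp_001_s1 {κ x : ℝ} (hκ : κ * h0 = ken x) (hx : ((1020054732 : ℕ) : ℝ) / S ≤ x)
    (hx' : x ≤ (((1020054732 : ℕ) : ℝ) + (13421774 : ℕ)) / S) :
    AltB (VFD κ) PP tK tL pcB [⟨3, 0, 0, 1449551462⟩] 0 0 1 0 0 (sgb true) (sgb true) x :=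
  strip_altBD (m := 1449551462) true rfl hκ (SH.κ0 hκ (SH.hx1 hx).le (SH.hx2 hx').le) (SH.hx1 hx).le (SH.hx2 hx') (covB00).cov (covB01).cov hx hx' c_B00pp_001_s1 cutB_nil (noExt_B)

noncomputable def cut_B00pp_001_s3 : Cut := Cut.of [[⟨3, 0, 0, 2845415833⟩]]

noncomputable def f_B00pp_001_s3 : ℕ → ℕ → ℕ → ℕ → Bool := onCell 0 536870912 536870912 536870912 1020054732 13421774
    (rowF 0 false true true .up 0 0 1 (qsf 0 536870912 536870912 536870912 0) ndB0q0 ndB0q1 pcB0 cut_B00pp_001_s3 Ext.none)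

def k0_B00pp_001_s3 : ∃ t, chk3 f_B00pp_001_s3 t 1 1 1 = true :=
  ⟨(l 6), by decide +kernel⟩

theorem c_B00pp_001_s3 : CertF 0 536870912 536870912 536870912 1020054732 13421774 false true true .up 0 0 1
    ndB0q0 ndB0q1 pcB0 cut_B00pp_001_s3 Ext.none :=
  certF0 (fam := false) (s1 := true) (s2 := true) (a := 0) (b := 0) (c := 1) (cn := .up) (n1 := ndB0q0) (n2 := ndB0q1) (pc := pcB0) (cut := cut_B00pp_001_s3) (xt := Ext.none) (P1 := 0) (W1 := 536870912) (P2 := 536870912) (W2 := 536870912) (P3 := 1020054732) (W3 := 13421774)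
    rfl k0_B00pp_001_s3

theorem s_B00pp_001_s3 {κ x : ℝ} (hκ : κ * h0 = ken x) (hx : ((1020054732 : ℕ) : ℝ) / S ≤ x)
    (hx' : x ≤ (((1020054732 : ℕ) : ℝ) + (13421774 : ℕ)) / S) :
    AltB (VFD κ) PP tK tL pcB [⟨4, 0, 0, 2845415833⟩] 0 0 1 0 0 (sgb true) (sgb true) x :=
  strip_altBD (m := 2845415833) false rfl hκ (SH.κ0 hκ (SH.hx1 hx).le (SH.hx2 hx').le) (SH.hx1 hx).le (SH.hx2 hx') (covB00).cov (covB01).cov hx hx' c_B00pp_001_s3 cutB_nil (noExt_B)

noncomputable def cut_B00pp_011_s1 : Cut := Cut.of [[⟨4, 0, 0, 1449551462⟩], [⟨0, 0, 0, 38347922⟩, ⟨1, 1, 0, 38347922⟩, ⟨2, 1, 0, 38347922⟩]]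

noncomputable def f_B00pp_011_s1 : ℕ → ℕ → ℕ → ℕ → Bool := onCell 536870912 536870912 536870912 536870912 1020054732 13421774
    (rowF 2 false true true .pnn 0 1 1 (qsf 0 536870912 536870912 536870912 1) ndB0q0 ndB0q1 pcB1 cut_B00pp_011_s1 Ext.none)

def k0_B00pp_011_s1 : ∃ t, chk3 f_B00pp_011_s1 t 1 1 1 = true :=
  ⟨(a (l 3) (b (l 3) (a (l 3) (b (l 3) (a (l 3) (b (l 3) (b (l 3) (a (l 3) (l 14))))))))), by decide +kernel⟩

theorem c_B00pp_011_s1 : CertF 0 536870912 536870912 536870912 1020054732 13421774 false true true .pnn 0 1 1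
    ndB0q0 ndB0q1 pcB1 cut_B00pp_011_s1 Ext.none :=
  certF2 (fam := false) (s1 := true) (s2 := true) (a := 0) (b := 1) (c := 1) (cn := .pnn) (n1 := ndB0q0) (n2 := ndB0q1) (pc := pcB1) (cut := cut_B00pp_011_s1) (xt := Ext.none) (P1 := 0) (W1 := 536870912) (P2 := 536870912) (W2 := 536870912) (P3 := 1020054732) (W3 := 13421774)
    rfl (fun _ => rfl) k0_B00pp_011_s1

theorem s_B00pp_011_s1 {κ x : ℝ} (hκ : κ * h0 = ken x) (hx : ((1020054732 : ℕ) : ℝ) / S ≤ x)
    (hx' : x ≤ (((1020054732 : ℕ) : ℝ) + (13421774 : ℕ)) / S)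
    (H : CutB (VFD κ) PP tK tL pcB (Cut.of [[⟨0, 0, 0, 38347922⟩, ⟨1, 1, 0, 38347922⟩, ⟨2, 1, 0, 38347922⟩]]) 0 1 1 0 0 (sgb true) (sgb true) x) :
    AltB (VFD κ) PP tK tL pcB [⟨3, 0, 0, 1449551462⟩] 0 1 1 0 0 (sgb true) (sgb true) x :=
  strip_altBD (m := 1449551462) true rfl hκ (SH.κ0 hκ (SH.hx1 hx).le (SH.hx2 hx').le) (SH.hx1 hx).le (SH.hx2 hx') (covB00).cov (covB01).cov hx hx' c_B00pp_011_s1 H (noExt_B)

noncomputable def cut_B00pp_011_s3 : Cut := Cut.of [[⟨3, 0, 0, 2845415833⟩], [⟨0, 0, 0, 38347922⟩, ⟨1, 1, 0, 38347922⟩, ⟨2, 1, 0, 38347922⟩]]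

noncomputable def f_B00pp_011_s3 : ℕ → ℕ → ℕ → ℕ → Bool := onCell 0 536870912 536870912 536870912 1020054732 13421774
    (rowF 0 false true true .pnn 0 1 1 (qsf 0 536870912 536870912 536870912 1) ndB0q0 ndB0q1 pcB1 cut_B00pp_011_s3 Ext.none)

def k0_B00pp_011_s3 : ∃ t, chk3 f_B00pp_011_s3 t 1 1 1 = true :=
  ⟨(l 6), by decide +kernel⟩

theorem c_B00pp_011_s3 : CertF 0 536870912 536870912 536870912 1020054732 13421774 false true true .pnn 0 1 1
    ndB0q0 ndB0q1 pcB1 cut_B00pp_011_s3 Ext.none :=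
  certF0 (fam := false) (s1 := true) (s2 := true) (a := 0) (b := 1) (c := 1) (cn := .pnn) (n1 := ndB0q0) (n2 := ndB0q1) (pc := pcB1) (cut := cut_B00pp_011_s3) (xt := Ext.none) (P1 := 0) (W1 := 536870912) (P2 := 536870912) (W2 := 536870912) (P3 := 1020054732) (W3 := 13421774)
    rfl k0_B00pp_011_s3

theorem s_B00pp_011_s3 {κ x : ℝ} (hκ : κ * h0 = ken x) (hx : ((1020054732 : ℕ) : ℝ) / S ≤ x)
    (hx' : x ≤ (((1020054732 : ℕ) : ℝ) + (13421774 : ℕ)) / S)
    (H : CutB (VFD κ) PP tK tL pcB (Cut.of [[⟨0, 0, 0, 38347922⟩, ⟨1, 1, 0, 38347922⟩, ⟨2, 1, 0, 38347922⟩]]) 0 1 1 0 0 (sgb true) (sgb true) x) :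
    AltB (VFD κ) PP tK tL pcB [⟨4, 0, 0, 2845415833⟩] 0 1 1 0 0 (sgb true) (sgb true) x :=
  strip_altBD (m := 2845415833) false rfl hκ (SH.κ0 hκ (SH.hx1 hx).le (SH.hx2 hx').le) (SH.hx1 hx).le (SH.hx2 hx') (covB00).cov (covB01).cov hx hx' c_B00pp_011_s3 H (noExt_B)

noncomputable def cut_B00pp_012_s1 : Cut := Cut.of [[⟨4, 0, 0, 1449551462⟩], [⟨0, 0, 0, 16777216⟩, ⟨1, 1, 0, 16777216⟩, ⟨2, 1, 0, 16777216⟩]]

noncomputable def xt_B00pp_012_s1 : Ext := strExt dd false true true .u0 .u2 .u0m .pnp 0 1 2 rfl rfl gf1 vv ndB0q0 ndB0q2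

noncomputable def f_B00pp_012_s1 : ℕ → ℕ → ℕ → ℕ → Bool := onCell 0 536870912 0 536870912 1020054732 13421774
    (rowF 0 false true true .pnp 0 1 2 (qsf 0 536870912 0 536870912 1) ndB0q0 ndB0q2 pcB1 cut_B00pp_012_s1 xt_B00pp_012_s1)

def k0_B00pp_012_s1 : ∃ t, chk3 f_B00pp_012_s1 t 4 2 1 = true :=
  ⟨(a (l 2) (b (l 2) (a (l 2) (b (l 2) (a (l 2) (b (l 2) (a (l 2) (b (a (l 2) (l 16461864)) (a (b (l 16444512) (l 16423384)) (b (l 16430568) (l 16410040))))))))))), by decide +kernel⟩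

def k1_B00pp_012_s1 : ∃ t, chk3 f_B00pp_012_s1 t 10 4 1 = true :=
  ⟨(l 6), by decide +kernel⟩

def k2_B00pp_012_s1 : ∃ t, chk3 f_B00pp_012_s1 t 10 10 1 = true :=
  ⟨(b (l 6) (a (l 6) (a (c (b (l 6) (l 16424184)) (l 16440360)) (c (b (l 16419560) (l 16391640)) (b (l 16454904) (l 16422848)))))), by decide +kernel⟩

def k3_B00pp_012_s1 : ∃ t, chk3 f_B00pp_012_s1 t 20 11 1 = true :=
  ⟨(a (b (b (l 6) (a (l 16439904) (l 16412328))) (b (a (c (l 16415440) (l 16467064)) (c (l 16391936) (l 16439872))) (a (b (a (l 16417352) (l 16404856)) (c (l 16366712) (l 16416568))) (a (c (l 16360488) (l 16407312)) (b (l 16382008) (c (l 16426304) (l 16469664))))))) (b (a (c (l 16404024) (l 16471552)) (b (l 16442536) (a (l 16412592) (l 16402216)))) (b (a (c (l 16371648) (l 16415056)) (c (b (l 16446248) (l 16346712)) (b (l 16485264) (l 16383712)))) (a (b (c (a (l 16434520) (l 16426280)) (a (l 16476840) (l 16465704))) (c (a (l 16418024) (b (l 16414416) (l 16406688))) (a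 (l 16416472) (b (l 16452216) (l 16401352))))) (b (c (a (l 16418840) (l 16412176)) (a (l 16455152) (l 16445176))) (a (c (c (l 16374608) (l 16412232)) (c (l 16429136) (l 16404360))) (a (c (c (l 16370760) (l 16365112)) (c (l 16422624) (l 16438432))) (b (c (l 16400048) (l 16430080)) (c (b (l 16352944) (a (b (l 16392984) (l 16381032)) (b (l 16370848) (l 16381912)))) (b (l 16423792) (a (c (l 16392600) (l 16407120)) (b (l 16409160) (l 16409336))))))))))))), by decide +kernel⟩

def k4_B00pp_012_s1 : ∃ t, chk3 f_B00pp_012_s1 t 42 11 1 = true :=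
  ⟨(a (b (b (l 16420936) (c (l 16453800) (l 16406296))) (b (a (c (l 16343672) (l 16377136)) (b (l 16359992) (c (l 16414440) (l 16443208)))) (b (a (c (b (l 16409728) (l 16402864)) (b (l 16439920) (l 16431608))) (c (a (l 16402376) (c (l 16372904) (l 16364104))) (b (l 16430960) (a (l 16425000) (l 16415456))))) (a (b (a (c (l 16355448) (l 16425552)) (c (a (l 16353576) (b (l 16395976) (l 16382800))) (a (l 16422240) (c (l 16403272) (l 16416336))))) (a (a (b (c (l 16371992) (l 16420416)) (b (c (l 16371504) (l 16408840)) (l 16407784))) (b (c (b (l 16392584) (l 16371616)) (b (l 16419272) (l 16397896))) (l 16408704))) (a (b (b (c (l 16371760) (l 16397472)) (l 16407152)) (l 16410880)) (c (l 16398640) (l 16422720))))) (b (b (a (c (a (l 16394816) (l 16372992)) (a (l 16419992) (l 16397168))) (c (b (l 16384104) (l 16354192)) (c (l 16370712) (l 16382256)))) (a (c (a (l 16383672) (l 16396032)) (a (l 16408032) (l 16419400))) (l 16410880))) (c (l 16405416) (l 16427072)))))))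 (b (b (l 16401928) (c (l 16356072) (l 16386520))) (b (c (b (l 16377872) (a (l 16409336) (l 16404984))) (b (l 16446160) (a (l 16434448) (l 16426248)))) (b (a (b (c (l 16357976) (l 16422576)) (a (c (b (l 16396240) (b (l 16374152) (l 16354440))) (b (l 16418608) (b (l 16374928) (l 16375800)))) (b (c (b (l 16353848) (l 16354792)) (l 16396016)) (l 16409952)))) (b (a (b (l 16408408) (c (l 16376240) (l 16374480))) (b (c (l 16355984) (l 16374016)) (l 16388336))) (l 16393432))) (a (c (l 16411024) (l 16429664)) (c (l 16422240) (l 16437232))))))), by decide +kernel⟩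

def k5_B00pp_012_s1 : ∃ t, chk3 f_B00pp_012_s1 t 43 11 1 = true :=
  ⟨(b (c (b (a (l 16454840) (l 16444136)) (a (l 16387160) (b (l 16426672) (l 16415752)))) (b (a (l 16484120) (l 16466920)) (a (l 16368920) (l 16353448)))) (b (b (a (c (b (l 16414008) (l 16408248)) (l 16387960)) (b (a (l 16415840) (c (l 16323400) (l 16332600))) (a (c (l 16362944) (l 16374520)) (c (l 16326440) (l 16334120))))) (a (c (a (b (l 16404216) (a (l 16357808) (l 16380192))) (b (b (l 16318664) (l 16381280)) (l 16365688))) (a (b (l 16422328) (a (l 16375096) (l 16374528))) (b (a (l 16416888) (l 16373776)) (l 16420104)))) (a (c (l 16372176) (l 16423632)) (l 16428160)))) (a (a (b (a (c (l 16409224) (l 16424296)) (l 16421272)) (l 16439344)) (b (l 16428592) (l 16449232))) (b (l 16443616) (l 16464440))))), by decide +kernel⟩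

def k6_B00pp_012_s1 : ∃ t, chk3 f_B00pp_012_s1 t 11 2 1 = true :=
  ⟨(b (b (l 6) (a (l 6) (a (l 6) (c (l 16436088) (l 16454496))))) (a (b (a (b (c (l 16430712) (l 16463144)) (c (b (l 16477232) (l 16370560)) (c (l 16398224) (l 16409320)))) (b (c (l 16408112) (l 16429824)) (c (b (l 16462056) (l 16402576)) (b (l 16473248) (l 16447536))))) (b (a (b (c (a (l 16436304) (l 16431304)) (a (l 16451792) (l 16438696))) (a (b (c (l 16337056) (l 16430768)) (a (c (l 16328368) (l 16420088)) (c (b (l 16413008) (l 16330224)) (l 16375896)))) (a (b (l 16420088) (c (l 16337048) (l 16420720))) (b (c (l 16335784) (l 16334528)) (l 16429248))))) (b (a (a (l 16387800) (c (l 16345464) (l 16425424))) (c (b (l 16349160) (l 16437032)) (b (l 16424368) (l 16425024)))) (a (b (c (l 16389504) (l 16424552)) (l 16445432)) (l 16457384)))) (a (a (b (a (b (c (l 16417056) (l 16421776)) (l 16438400)) (l 16438632)) (l 16474816)) (b (l 16454496) (l 16496096))) (a (b (l 16476096) (l 16517704))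 (l 527871503))))) (b (b (c (a (l 16479976) (l 16478240)) (a (l 16487872) (l 16469336))) (a (b (c (l 16457640) (l 16452056)) (a (c (l 16444312) (l 16433336)) (c (b (l 16449712) (l 16450816)) (l 16388776)))) (a (b (l 16451104) (c (l 16466376) (l 16438216))) (b (c (l 16468472) (l 16438088)) (c (l 16487912) (l 16453488)))))) (a (b (a (b (b (c (l 16443496) (l 16426280)) (l 16449808)) (l 16479680)) (b (l 16462736) (l 16502128))) (a (l 528273935) (l 528427791))) (b (a (l 528637711) (l 528806159)) (a (l 528600847) (l 528791823))))))), by decide +kernel⟩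

def k7_B00pp_012_s1 : ∃ t, chk3 f_B00pp_012_s1 t 8 6 1 = true :=
  ⟨(l 2), by decide +kernel⟩

def k8_B00pp_012_s1 : ∃ t, chk3 f_B00pp_012_s1 t 18 6 1 = true :=
  ⟨(b (l 2) (a (b (l 2) (a (l 2) (b (b (l 2) (l 16441960)) (b (l 16459496) (c (l 16544168) (l 16579264)))))) (b (a (b (l 2) (b (l 2) (l 16414920))) (b (b (l 2) (b (l 16384232) (l 16392816))) (c (l 16392712) (l 16437408)))) (b (a (b (l 16432408) (l 16450504)) (b (l 16526472) (l 16545976))) (a (b (l 16469360) (c (l 16559112) (l 16587112))) (b (l 16482576) (c (l 16493432) (l 16599192)))))))), by decide +kernel⟩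

def k9_B00pp_012_s1 : ∃ t, chk3 f_B00pp_012_s1 t 38 12 1 = true :=
  ⟨(b (b (l 2) (a (l 2) (b (l 2) (a (l 2) (c (l 16391320) (l 16408312)))))) (b (a (l 2) (b (a (a (l 2) (c (l 16337096) (l 16396984))) (b (c (a (l 16420320) (l 16414528)) (a (l 16479208) (l 16472136))) (c (c (l 16387640) (l 16421304)) (c (l 16408200) (l 16437456))))) (a (b (a (l 2) (c (b (l 16407704) (l 16397224)) (b (l 16466944) (l 16419464)))) (a (a (l 2) (b (c (l 16401464) (l 16461128)) (c (b (a (l 16398224) (l 16397000)) (l 16397664)) (c (l 16442120) (l 16472112))))) (b (c (a (b (l 16399952) (l 16397328)) (b (l 16397120) (l 16396544))) (a (c (l 16442624) (l 16472520)) (b (l 16455456) (l 16454528)))) (c (c (l 16364032) (l 16371424)) (c (l 16442136) (l 16471328)))))) (a (b (c (b (l 16402072) (a (l 16398256) (b (l 16396856) (a (l 16395392) (l 16395360))))) (b (l 16459952) (a (l 16456144) (c (l 16438912) (l 16467872))))) (c (b (c (l 16373600) (l 16391000)) (l 16402264)) (a (c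 (l 16441736) (l 16470376)) (l 16455984)))) (b (b (c (a (l 16397984) (c (l 16371392) (l 16399008))) (a (l 16454816) (c (l 16437520) (l 16465944)))) (c (a (c (l 16371808) (l 16389000)) (l 16396976)) (c (l 16438440) (l 16466640)))) (c (l 16403480) (l 16457016))))))) (a (a (b (l 2) (b (l 2) (l 16364952))) (b (b (a (l 2) (b (l 2) (c (l 16401664) (l 16461112)))) (c (l 16407256) (l 16465664))) (c (l 16422312) (l 16476288)))) (b (c (a (a (a (c (l 16393008) (l 16421064)) (l 16408440)) (l 16411176)) (b (l 16411704) (l 16421912))) (a (a (c (l 16449984) (l 16478560)) (l 16465128)) (l 16425376))) (c (a (l 16429648) (l 16437480)) (l 16438768)))))), by decide +kernel⟩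

def k10_B00pp_012_s1 : ∃ t, chk3 f_B00pp_012_s1 t 39 48 1 = true :=
  ⟨(a (c (a (l 16390408) (l 16377464)) (a (l 16448544) (l 16433704))) (b (c (l 16369616) (l 16423048)) (c (a (l 16439224) (l 16428384)) (a (l 16492888) (l 16395688))))), by decide +kernel⟩

def k11_B00pp_012_s1 : ∃ t, chk3 f_B00pp_012_s1 t 39 49 1 = true :=
  ⟨(a (b (a (c (l 16442216) (l 16415744)) (c (l 16430472) (l 16401656))) (a (c (b (l 16426592) (l 16416360)) (a (l 16397568) (l 16390624))) (c (b (l 16415472) (c (l 16392528) (l 16418896))) (c (l 16408872) (l 16436184))))) (b (a (c (c (l 16406704) (l 16432584)) (b (l 16477264) (l 16424976))) (c (c (b (l 16401904) (l 16350904)) (l 16400896)) (c (l 16404784) (l 16440496)))) (a (b (c (a (l 16407688) (l 16402776)) (c (l 16443632) (l 16469704))) (a (c (c (l 16385600) (l 16410880)) (c (l 16436536) (l 16462560))) (a (c (b (l 16396960) (b (l 16393480) (a (l 16391712) (b (l 16391160) (l 16390872))))) (b (l 16447352) (a (l 16448216)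 (c (l 16418568) (l 16454272))))) (c (b (l 16394640) (b (c (l 16363528) (l 16382552)) (a (l 16391256) (l 16391880)))) (b (l 16444264) (b (c (l 16407168) (l 16453120)) (a (l 16445584) (l 16440416)))))))) (c (b (a (c (l 16386016) (l 16410232)) (a (c (l 16361888) (l 16385528)) (b (l 16394720) (b (l 16391384) (a (b (l 16390240) (l 16390000)) (b (l 16389872) (l 16390672))))))) (a (b (b (c (l 16364688) (l 16393848)) (a (a (l 16391792) (l 16390784)) (c (l 16363592) (l 16392368)))) (a (c (l 16370328) (l 16393976)) (l 16394256))) (b (a (b (c (c (l 16352416) (l 16363968)) (l 16391944)) (l 16392512)) (l 16393360)) (l 16397448)))) (b (a (c (l 16434816) (l 16459760)) (a (c (l 16430496) (l 16454840)) (b (l 16442176) (b (l 16443696) (c (c (l 16398560) (l 16410328)) (c (l 16422184) (l 16444600))))))) (a (a (c (b (l 16418320) (l 16417968)) (b (l 16453568) (l 16452808))) (b (b (c (l 16427232) (l 16451664)) (c (l 16416256) (l 16440496))) (l 16441120))) (b (a (b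 (c (l 16415568) (c (l 16423032) (l 16435104))) (l 16439192)) (l 16439216)) (l 16442632)))))))), by decide +kernel⟩

def k12_B00pp_012_s1 : ∃ t, chk3 f_B00pp_012_s1 t 78 25 1 = true :=
  ⟨(a (b (b (b (c (c (l 16392624) (l 16420016)) (c (l 16447816) (l 16476008))) (b (c (a (l 16401400) (c (l 16372296) (l 16388568))) (a (l 16457168) (c (l 16436688) (l 16464232)))) (c (a (a (l 16397712) (c (l 16360704) (l 16387800))) (a (b (a (l 16394432) (l 16393400)) (l 16394160)) (c (l 16360888) (l 16366080)))) (c (a (l 16437744) (a (a (l 16413768) (l 16413408)) (l 16392632))) (a (a (l 16467664) (l 16464168)) (a (l 16464840) (l 16461512))))))) (c (b (a (b (a (b (c (l 16359856) (l 16366192)) (l 16395184)) (b (l 16394656) (l 16396880))) (l 16399704)) (l 16401032)) (l 16409248)) (b (a (a (b (c (l 16436352) (l 16464328)) (l 16452632)) (c (l 16438328) (l 16465416))) (l 16452688)) (l 16459328)))) (b (c (l 16424720) (l 16470784)) (l 16382216))) (b (b (c (b (a (c (l 16364336)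 (l 16411640)) (b (a (l 16397144) (l 16394712)) (a (b (l 16393560) (c (l 16358784) (l 16384352))) (b (a (l 16392016) (l 16391968)) (l 16393432))))) (a (b (a (b (l 16393616) (a (l 16392888) (l 16393248))) (c (l 16370696) (l 16396368))) (l 16397344)) (l 16398784))) (b (a (c (l 16438352) (l 16465456)) (b (c (l 16434912) (l 16461368)) (a (b (l 16445784) (c (l 16410296) (l 16457592))) (b (c (l 16409584) (l 16456608)) (l 16444248))))) (a (b (c (a (b (l 16433448) (l 16432808)) (l 16411936)) (a (b (l 16460480) (l 16459648)) (l 16459336))) (l 16448712)) (l 16448520)))) (c (b (l 16406992) (l 16417336)) (b (l 16455232) (l 16462952)))) (b (c (l 16433128) (l 16474912)) (l 16389144)))), by decide +kernel⟩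

def k13_B00pp_012_s1 : ∃ t, chk3 f_B00pp_012_s1 t 79 25 1 = true :=
  ⟨(b (b (a (c (b (b (a (a (b (l 16393504) (a (l 16391848) (l 16391624))) (b (a (l 16391744) (b (l 16391184) (l 16391224))) (l 16392536))) (c (l 16372032) (l 16385408))) (c (l 16374984) (l 16398792))) (l 16404944)) (a (b (b (a (b (l 16444640) (c (l 16408912) (l 16455672))) (b (c (l 16418768) (l 16454776)) (l 16447608))) (a (l 16449488) (l 16445040))) (l 16450328)) (b (a (c (l 16432080) (l 16456616)) (l 16444992)) (l 16452296)))) (c (c (l 16397720) (l 16419008)) (c (l 16440608) (l 16462536)))) (a (c (l 16420624) (l 16463200)) (c (l 16429616) (l 16468024)))) (b (c (l 16446744) (l 16440544)) (c (l 16469080) (l 16500312)))), by decide +kernel⟩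

def k14_B00pp_012_s1 : ∃ t, chk3 f_B00pp_012_s1 t 19 13 1 = true :=
  ⟨(b (a (a (b (b (c (l 16439072) (l 16489512)) (b (l 16393544) (l 16402624))) (b (l 16416576) (l 16435840))) (b (b (c (l 16454480) (l 16496312)) (l 16410400)) (b (l 16430336) (l 16535024)))) (a (b (b (c (l 16472224) (l 16506224)) (l 16425664)) (b (l 16446888) (l 16552784))) (b (c (l 16419864) (l 16486688)) (b (l 16464984) (l 16487608))))) (a (a (b (b (l 16540008) (l 16477264)) (b (c (l 16573232) (l 16593712)) (a (l 16559816) (l 526968079)))) (a (b (l 525538575) (a (l 526447119) (l 526965519))) (b (l 526583311) (l 525593871)))) (b (a (b (l 16491432) (l 527011087)) (l 527018511)) (a (b (l 526948367) (l 526884879)) (b (l 526934287) (l 526889999)))))), by decide +kernel⟩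

def k15_B00pp_012_s1 : ∃ t, chk3 f_B00pp_012_s1 t 8 14 1 = true :=
  ⟨(a (l 2) (a (b (l 2) (b (l 2) (a (a (l 2) (b (l 2) (a (l 2) (l 527428623)))) (a (b (a (l 2) (l 527779343)) (a (l 527187727) (l 526947087))) (b (a (l 527555087) (l 527335439)) (a (l 526441487) (l 526211087))))))) (b (a (l 2) (b (l 2) (a (b (l 2) (l 527195151)) (b (l 527726863) (l 526935823))))) (a (b (a (b (l 2) (c (l 527025423) (l 528691727))) (b (l 526427407) (c (l 526715919) (l 528262671)))) (a (b (a (l 527122959) (l 526921231)) (c (a (l 526591247) (l 526417935)) (l 526353935))) (b (a (l 526465295) (l 525491215)) (a (c (l 526264335) (l 527634703)) (c (l 526136847) (l 527448847)))))) (b (a (b (l 525849359) (a (l 527247119) (l 526309647))) (b (c (l 526502159) (l 16608328)) (c (l 525754895) (l 527621391)))) (a (b (a (c (l 526281743) (l 527642383)) (c (l 526193679) (l 527501583))) (a (c (l 525775375) (l 527301135)) (c (b (l 526039567) (l 525956879)) (l 526663439)))) (b (c (a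 (l 526134287) (l 526097679)) (a (l 527392527) (l 527308559))) (a (b (c (l 526017551) (l 527204623)) (c (l 525983503) (l 527127823))) (c (b (l 526036751) (l 526036751)) (l 526893071)))))))))), by decide +kernel⟩

def k16_B00pp_012_s1 : ∃ t, chk3 f_B00pp_012_s1 t 18 28 1 = true :=
  ⟨(a (a (b (a (b (l 2) (l 16503112)) (b (l 16489200) (l 16507952))) (a (b (l 526950159) (b (l 16536800) (l 16589016))) (b (l 526197775) (c (l 526393103) (l 16600400))))) (b (a (b (l 16577936) (l 16555608)) (b (l 16499744) (l 525518351))) (b (a (b (l 16529112) (l 16581752)) (c (l 16574920) (l 16635320))) (a (c (l 526291983) (l 527511567)) (c (b (l 16635776) (l 16627784)) (l 527116815)))))) (b (a (a (b (l 16506344) (c (l 16601816) (l 16621952))) (b (l 16555848) (b (l 16530816) (l 16584432)))) (b (a (l 526164495) (l 526939151)) (a (c (l 526376975) (l 16595608)) (b (l 16591840) (l 526850063))))) (c (a (b (a (l 526308623) (l 526324495)) (a (l 526276879) (b (l 526308623) (l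 526306831)))) (b (a (l 526352911) (l 526351375)) (a (b (l 526323215) (l 526300175)) (l 526311695)))) (a (b (a (l 527431183) (l 527363599)) (a (l 527324431) (l 527007503))) (b (a (l 527308303) (l 527217167)) (a (l 527183375) (l 527094543))))))), by decide +kernel⟩

def k17_B00pp_012_s1 : ∃ t, chk3 f_B00pp_012_s1 t 36 29 1 = true :=
  ⟨(b (a (b (a (c (l 526343951) (l 527667215)) (c (l 526236431) (l 527463183))) (a (c (a (l 526201359) (l 526162959)) (l 526068495)) (c (b (l 526160143) (l 525878543)) (b (l 527322895) (l 527270415))))) (b (a (c (b (l 526213647) (l 526192399)) (b (l 16623016) (l 527310351))) (c (a (l 526222351) (l 526242575)) (b (l 527305999) (l 527269647)))) (a (c (b (l 526192655) (l 525938959)) (b (l 527272975) (l 527250959))) (b (c (l 526247951) (l 527246863)) (a (l 526207247) (c (l 526271503) (l 527211023))))))) (a (b (a (c (a (b (l 526107151) (l 526078735)) (l 525574671)) (a (l 527257103) (l 527237903))) (a (c (b (l 526140175)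 (l 526160143)) (l 527238415)) (c (b (l 526177807) (l 526209807)) (l 527240975)))) (a (a (c (l 525825551) (l 527183119)) (c (b (l 526135823) (l 526175247)) (b (l 527206159) (l 527209743)))) (b (a (c (l 526195215) (l 527227919)) (c (l 526245903) (l 527239695))) (a (c (l 526235663) (l 527232015)) (c (b (l 526261519) (l 525987599)) (l 526941455)))))) (b (a (b (a (c (l 526219535) (l 527246863)) (l 525671951)) (a (c (l 526252815) (l 527243279)) (c (l 526271247) (l 527218703)))) (b (a (c (l 526273039) (l 527216399)) (l 525906447)) (a (c (l 526265359) (l 527165967)) (l 526682895)))) (a (b (a (c (b (l 526269199) (l 526265871)) (l 527216655)) (c (l 525991951) (l 527163663))) (a (c (l 525982991) (l 527157263)) (l 525867791))) (c (a (l 525981711) (b (l 526253071) (l 525979663))) (a (l 527083535) (l 527036175))))))), by decide +kernel⟩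

def k18_B00pp_012_s1 : ∃ t, chk3 f_B00pp_012_s1 t 37 58 1 = true :=
  ⟨(a (b (a (b (c (l 526272527) (l 527263503)) (a (l 526753039) (l 526744335))) (b (c (l 526289423) (l 527192847)) (c (l 526270479) (l 527131663)))) (a (b (a (l 525933071) (l 526709007)) (a (l 526171151) (l 526678031))) (c (a (l 525988623) (l 525987343)) (l 527052303)))) (b (a (c (l 526006543) (l 527064847)) (c (l 526017039) (l 526982671))) (a (b (c (l 525992975) (l 526986255)) (c (l 525995791) (l 526945807))) (b (c (l 526013455) (l 526913807)) (c (b (l 526019599) (l 526028815)) (l 526611727)))))), by decide +kernel⟩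

def k19_B00pp_012_s1 : ∃ t, chk3 f_B00pp_012_s1 t 74 59 1 = true :=
  ⟨(b (a (b (c (l 525989391) (l 527084047)) (c (a (l 526256911) (l 526258447)) (l 527038735))) (b (c (b (l 525989647) (l 525993487)) (l 526991631)) (a (c (l 525995791) (l 526975503)) (c (l 526006031) (l 526938639))))) (a (c (a (b (l 525986575) (l 525986831)) (b (l 525992975) (b (l 525996815) (l 526000143)))) (a (l 526993167) (b (l 526974991) (l 526666255)))) (b (c (a (b (l 526270223) (l 526006287)) (a (l 525746703) (b (l 526288655) (l 525759503)))) (a (l 526938639) (l 526638351))) (a (c (a (b (l 526276111) (l 525744399)) (b (l 526016015) (c (l 526145039) (l 526438671)))) (l 526635023)) (a (c (b (l 525757455) (a (l 525896719) (l 3))) (l 526614799)) (b (c (a (l 525765391) (l 525771279)) (l 526878223)) (l 3))))))), by decide +kernel⟩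

def k20_B00pp_012_s1 : ∃ t, chk3 f_B00pp_012_s1 t 75 59 1 = true :=
  ⟨(b (b (a (c (a (l 526004751) (l 526019087)) (l 526917135)) (c (a (a (l 526301199) (l 526311695)) (a (l 526189071) (a (l 526332943) (l 526339599)))) (b (l 526596879) (l 526588687)))) (a (c (a (b (l 526285071) (l 525756687)) (b (c (l 526160655) (l 526446607)) (a (l 525771791) (l 525783311)))) (a (l 526637839) (l 526610191))) (c (b (a (a (l 526319631) (l 526332175)) (a (l 525808911) (l 525823759))) (a (a (a (l 525792783) (l 525933583)) (b (l 525806095) (a (l 525809935) (l 525817359)))) (c (a (b (l 526239503) (c (l 526192911) (l 526307855))) (b (l 526261007) (c (b (l 526214927) (l 3)) (l 526327311)))) (a (l 526479375) (l 526489615))))) (a (b (l 526860047) (l 526583055)) (b (l 526840591) (l 526566159)))))) (a (b (c (b (b (a (l 525763599) (a (l 526317071) (l 525792783))) (a (l 525902607) (a (l 525786127) (c (l 526209039) (l 526464271))))) (a (a (l 525770255) (c (c (l 526117903)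 (l 526251535)) (l 526454543))) (a (a (b (l 526325775) (l 525928975)) (b (l 525795343) (l 3))) (a (b (a (l 525800463) (l 525804047)) (l 3)) (l 3))))) (a (l 526477071) (b (l 526594063) (a (l 526857231) (l 526579471))))) (b (b (a (a (c (l 525911823) (l 526869775)) (l 3)) (l 3)) (l 3)) (l 3))) (a (b (b (a (c (c (c (b (l 526157583) (a (l 526162959) (l 526174735))) (l 526285327)) (l 526470415)) (l 526848015)) (b (c (c (a (b (l 526231823) (l 526236943)) (b (l 526242319) (l 3))) (l 526477327)) (l 526841359)) (l 3))) (l 3)) (l 3)) (l 3)))), by decide +kernel⟩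

def k21_B00pp_012_s1 : ∃ t, chk3 f_B00pp_012_s1 t 19 28 1 = true :=
  ⟨(a (b (a (b (a (l 526648591) (l 526875919)) (a (c (l 526400783) (l 527257359)) (l 526794511))) (b (c (l 526486031) (l 527200271)) (c (l 526461967) (l 527095311)))) (a (b (c (l 525829647) (l 527096591)) (a (c (l 526328335) (l 527019791)) (c (l 526097679) (l 526966543)))) (b (c (b (l 526185231) (l 526184719)) (l 526734607)) (a (c (l 526157839) (l 526936591)) (c (b (l 526493199) (l 526503951)) (l 526649615)))))) (b (a (a (b (l 526832143) (l 526518543)) (c (l 526327055) (l 527046159))) (b (c (l 526406671) (l 527032079)) (a (b (l 526823439) (l 526537743)) (l 526556431)))) (b (a (c (a (l 526280207) (b (l 526607887) (l 526613263))) (a (l 526963727) (l 526661391))) (c (b (a (l 526664207) (l 526725903)) (a (l 526672143) (c (l 526709263) (l 526765583)))) (b (l 526630671) (a (l 526881039) (l 526852879))))) (a (c (a (b (a (l 526545935) (l 526577679)) (a (l 526555663) (l 526584591)))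 (b (l 526619919) (l 526628879))) (a (b (l 526912271) (l 526604815)) (b (l 526877455) (l 526841359)))) (c (a (b (c (l 526642191) (l 526722575)) (c (l 526666255) (l 526723855))) (b (b (l 526747663) (l 526755343)) (c (l 526762767) (l 526773519)))) (b (a (l 526846223) (b (l 526829071) (l 526813711))) (a (l 526812943) (l 526791439)))))))), by decide +kernel⟩

def k22_B00pp_012_s1 : ∃ t, chk3 f_B00pp_012_s1 t 38 58 1 = true :=
  ⟨(a (b (a (c (l 526047247) (l 526920719)) (c (b (l 526365455) (l 526103055)) (l 526613263))) (c (a (b (l 526053135) (b (l 526064143) (a (l 526331919) (l 526360591)))) (b (a (l 526365967) (l 526403087)) (b (a (l 526379279) (c (l 526322191) (l 526513935))) (a (c (l 526293775) (l 526497295)) (c (b (l 526335247) (l 526349327)) (l 526520335)))))) (a (b (l 526592527) (b (l 526838543) (l 526560783))) (b (l 526562063) (a (l 526538511) (l 526534671)))))) (a (b (c (b (l 526169871) (a (l 526430735) (l 526474767))) (b (l 526883343) (l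 526596623))) (b (c (a (a (l 526436111) (b (l 526455311) (l 526466063))) (c (b (l 526404367) (l 526416399)) (b (l 526573327) (l 526574095)))) (a (l 526560527) (l 526555663))) (b (c (a (a (l 526451983) (c (l 526395919) (l 526559759))) (c (a (l 526417935) (l 526438415)) (l 526574095))) (a (a (l 526808079) (l 526810895)) (c (l 526723087) (l 526874639)))) (a (c (c (a (b (l 526383119) (a (l 526381327) (l 526396175))) (b (l 526405391) (l 526411535))) (a (b (l 526549775) (l 526551311)) (l 526560527))) (c (a (l 526717199) (l 526715663)) (a (l 526886927) (l 526873359)))) (a (b (c (l 526497295) (l 526789391)) (l 3)) (l 3)))))) (a (b (c (b (l 526498831) (c (l 526430223) (l 526593295))) (l 526591503)) (b (c (c (b (l 526447631) (l 526458383)) (l 526593039)) (c (l 526735887) (l 526881295))) (b (b (c (l 526529039) (l 526785551)) (l 3)) (l 3)))) (b (c (b (b (l 526532111) (l 526536719)) (b (l 526540815) (l 526545167))) (b (l 526862607) (l 526827535))) (b (c (c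 (l 526494479) (l 526611471)) (l 526791183)) (l 3)))))), by decide +kernel⟩

def k23_B00pp_012_s1 : ∃ t, chk3 f_B00pp_012_s1 t 38 59 1 = true :=
  ⟨(b (a (b (a (a (c (c (b (l 526229775) (l 526252815)) (l 526474511)) (l 526563087)) (c (c (b (l 526272527) (a (l 526286607) (l 526310415))) (l 526495503)) (l 526549263))) (a (c (c (b (l 526319887) (a (l 526335503) (l 526361871))) (b (l 526512655) (l 526530319))) (l 526540047)) (b (a (c (l 526446095) (l 526803471)) (b (c (l 526461199) (l 526801167)) (l 3))) (l 3)))) (a (b (a (c (c (a (l 526265615) (b (l 526282255) (l 526294799))) (l 526493711)) (l 526557199)) (a (b (c (a (l 526402063) (l 526411535)) (l 526818319)) (l 3)) (l 3))) (a (a (a (b (c (l 525916175) (l 526827535)) (l 3)) (l 3)) (l 3)) (l 3))) (l 3))) (a (a (a (a (b (a (b (b (c (l 526474767) (l 526800143)) (l 3)) (l 3)) (l 3)) (l 3)) (l 3)) (l 3)) (l 3)) (l 3))) (l 3)), by decide +kernel⟩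

def k24_B00pp_012_s1 : ∃ t, chk3 f_B00pp_012_s1 t 39 29 1 = true :=
  ⟨(b (a (a (b (c (a (b (l 526563343) (l 526572559)) (c (l 526680591) (l 526651151))) (b (l 526569231) (c (l 526747663) (l 526856975)))) (b (b (c (c (a (l 526531855) (l 526576399)) (l 526641167)) (c (l 526730767) (l 526822159))) (l 3)) (l 3))) (b (c (b (c (l 526599951) (l 526681359)) (c (a (l 526602511) (l 526649359)) (a (l 526672655) (l 526695951)))) (b (l 526806543) (c (l 526743567) (l 526804495)))) (l 3))) (b (b (a (c (c (a (l 526669327) (l 526717711)) (l 526727695)) (c (l 526763535) (l 526800143))) (a (c (a (l 526757903) (l 3)) (l 526767631)) (l 3))) (l 3)) (l 3))) (l 3)), by decide +kernel⟩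

def k25_B00pp_012_s1 : ∃ t, chk3 f_B00pp_012_s1 t 16 60 1 = true :=
  ⟨(a (l 2) (b (l 2) (a (l 2) (a (l 2) (a (l 2) (b (l 2) (l 527184143))))))), by decide +kernel⟩

def k26_B00pp_012_s1 : ∃ t, chk3 f_B00pp_012_s1 t 34 60 1 = true :=
  ⟨(a (b (a (a (l 2) (b (l 2) (l 527544335))) (a (c (l 527561743) (l 529358351)) (c (l 527349519) (l 529078031)))) (a (a (b (l 527365135) (l 526964751)) (c (l 527264015) (l 529029647))) (a (c (l 526785807) (l 528751375)) (c (l 526293263) (l 528188431))))) (a (b (a (c (l 527127567) (l 528786447)) (c (l 526906639) (l 528496143))) (c (a (b (l 526927631) (l 526802703)) (b (l 526696975) (l 526567439))) (a (l 527880207) (l 527037967)))) (b (a (c (l 526691343) (l 528211471)) (c (l 526485775) (l 527938063))) (a (c (b (l 526474767) (l 526343439)) (l 526475023)) (c (b (l 526267151) (l 525066511)) (b (l 527636495) (l 527456015))))))), by decide +kernel⟩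

def k27_B00pp_012_s1 : ∃ t, chk3 f_B00pp_012_s1 t 35 60 1 = true :=
  ⟨(a (a (b (a (c (l 525490447) (l 527681551)) (c (b (l 526200335) (l 526058767)) (l 526913039))) (c (a (b (l 526082831) (c (l 525395983) (l 526280463))) (b (c (l 525361423) (l 526241039)) (b (l 525600783) (a (l 525872399) (l 525843983))))) (a (b (l 527385871) (l 526416655)) (b (l 527175183) (b (l 527072783) (l 527039503)))))) (b (a (c (b (l 526057487) (l 525932047)) (b (l 527346447) (l 527167247))) (b (c (l 525952783) (l 527185423)) (c (l 525590287) (l 527040783)))) (b (a (c (b (l 525856527) (l 525828111)) (l 526758415)) (c (l 525281295) (l 526955535))) (c (a (c (l 525270543) (l 525832975)) (c (l 525286415) (l 525826831))) (a (c (l 526672655) (l 527252495)) (l 526653199)))))) (a (b (a (b (c (l 525899279) (l 527081743)) (c (l 525856015) (l 526993423))) (c (b (l 525917455) (l 525911311)) (b (l 527057935) (l 527011343)))) (a (c (b (l 525848591) (c (l 525351183) (l 525872655)))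 (b (l 526945039) (l 526938127))) (c (b (l 525937167) (a (l 525960719) (l 526037775))) (a (l 526982927) (l 527035919))))) (b (a (c (b (l 525981711) (l 526009615)) (l 527076879)) (b (c (l 526063375) (l 527132943)) (c (a (l 526088975) (l 526139919)) (l 527149327)))) (c (a (b (a (l 526035215) (l 526099471)) (a (b (l 526094607) (c (l 525638415) (l 526131471))) (b (l 526159887) (b (a (l 526173967) (l 526185487)) (a (l 525906447) (l 526178319)))))) (b (b (a (l 526139151) (l 526187279)) (a (l 526174479) (l 525934863))) (b (a (a (l 525921295) (l 525925903)) (l 525924367)) (a (l 525910287) (l 526175247))))) (a (b (a (l 527075087) (l 527124751)) (a (b (l 527110415) (b (l 527133967) (l 527153423))) (b (l 527160591) (c (l 526637071) (l 527403279))))) (b (b (l 527174159) (a (l 527175439) (l 527184399))) (b (a (b (l 527180303) (l 527167503)) (l 527150607)) (l 526852879)))))))), by decide +kernel⟩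

def k28_B00pp_012_s1 : ∃ t, chk3 f_B00pp_012_s1 t 16 61 1 = true :=
  ⟨(a (l 2) (a (b (l 2) (a (l 2) (b (a (l 2) (b (l 2) (l 527424271))) (a (a (l 528484879) (l 528672015)) (a (l 528589071) (l 528504847)))))) (c (a (b (a (l 526603535) (l 526716943)) (a (a (l 527896079) (l 527823887)) (a (l 527750159) (l 527674895)))) (b (a (l 526553359) (l 526112527)) (a (b (l 527668751) (l 527430415)) (b (l 527504399) (l 527272719))))) (a (b (a (l 528866575) (l 528917775)) (a (a (l 529791503) (l 529688591)) (l 527919375))) (b (a (l 528959503) (l 528722191)) (a (l 527702799) (b (l 529227535) (l 528929807)))))))), by decide +kernel⟩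

def k29_B00pp_012_s1 : ∃ t, chk3 f_B00pp_012_s1 t 34 61 1 = true :=
  ⟨(a (c (a (b (a (b (l 527582991) (l 527485199)) (b (l 527385615) (l 527293455))) (a (b (l 527331087) (l 527108111)) (b (l 527146767) (l 526934799)))) (b (a (b (l 527174671) (l 527087375)) (b (l 526947087) (l 526863375))) (a (b (l 526948367) (l 526748943)) (a (l 526429199) (l 526316559))))) (a (b (a (l 528473359) (l 527942671)) (a (b (l 528988687) (l 528700175)) (b (l 528737295) (l 528460815)))) (b (a (l 527127823) (b (l 528499983) (l 528368655))) (a (b (l 528470287) (l 528207631)) (b (l 528180751) (l 527383311)))))) (b (a (a (b (c (l 526705167) (l 528184591)) (c (l 526624015) (l 528055567))) (b (c (l 526469647) (l 527876111)) (c (a (l 526452495) (l 526346511)) (l 527757583)))) (b (a (c (b (l 526267663) (l 526240015)) (l 527051279)) (c (b (l 526076431) (l 525798415)) (b (l 527355407) (l 527325455)))) (a (c (a (l 526250767) (b (l 526177551) (l 526164239))) (a (l 527558671) (l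 527445007))) (c (b (a (l 526105615) (l 526060303)) (a (l 526121999) (l 526095887))) (b (l 527054607) (l 527332111)))))) (a (c (a (b (l 526496015) (a (b (l 526421775) (l 526306063)) (b (l 526318863) (l 526253071)))) (b (a (l 526338319) (b (l 526277903) (l 525976591))) (a (c (l 525659663) (l 526554639)) (b (l 526218255) (l 526202639))))) (a (b (l 527873295) (a (l 527136783) (l 526511375))) (b (a (l 527662607) (b (l 527582223) (l 527525135))) (a (l 526974991) (l 527456783))))) (c (a (b (a (b (l 526208271) (l 526200847)) (b (l 526168847) (l 526179343))) (c (l 525628687) (l 526223887))) (b (c (l 525588239) (l 526178575)) (c (l 525651471) (l 526224399)))) (a (b (a (b (l 527481359) (l 527452687)) (l 527413007)) (l 527401999)) (b (l 527349263) (l 527368719))))))), by decide +kernel⟩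

def k30_B00pp_012_s1 : ∃ t, chk3 f_B00pp_012_s1 t 70 61 1 = true :=
  ⟨(b (a (c (b (a (b (a (l 525965071) (l 525914639)) (a (l 525984527) (l 525954319))) (b (l 525604879) (l 525659151))) (a (b (l 526022671) (l 526075151)) (b (l 526004239) (l 525274895)))) (b (a (b (l 527154959) (l 527169807)) (b (l 527037455) (l 527078159))) (a (b (l 527210511) (l 527249167)) (l 526371087)))) (b (c (b (a (l 525316111) (a (l 525864719) (l 525885455))) (a (a (l 525922319) (l 525930255)) (c (l 525431055) (l 525954319)))) (b (a (l 526969103) (l 526946063)) (a (l 527029263) (l 526217487)))) (c (a (c (a (l 525792015) (l 525822223)) (l 526074895)) (c (b (l 525554447) (l 525679631)) (l 526135823))) (a (c (l 526889231) (l 527443471)) (c (l 526931215) (l 527466255)))))) (b (a (c (a (c (l 525601807) (l 526169359)) (c (l 525652495) (l 526199567))) (a (l 527305487) (l 527304463))) (a (a (c (l 525981455) (l 527332879)) (l 3)) (l 3))) (l 3))), by decide +kernel⟩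

def k31_B00pp_012_s1 : ∃ t, chk3 f_B00pp_012_s1 t 71 61 1 = true :=
  ⟨(b (b (a (c (a (b (c (l 525416719) (l 525926415)) (b (b (l 525985807) (l 526014735)) (l 526069007))) (b (a (c (l 525779983) (l 526277903)) (a (l 526090767) (b (l 526123279) (l 525885711)))) (b (a (c (c (l 525707535) (l 525952015)) (l 526322191)) (c (a (a (l 525883663) (b (l 525907471) (l 525912591))) (b (l 525916431) (l 525915407))) (a (l 526125839) (l 526398479)))) (a (a (l 526139407) (b (l 526150671) (l 3))) (a (c (a (l 525944335) (l 3)) (l 526427663)) (l 3)))))) (a (b (c (l 526443791) (l 527237391)) (c (l 526803727) (l 527324431))) (b (a (l 527038991) (a (l 527092239) (l 527146767))) (a (b (l 527075599) (a (l 527143183) (l 527187215))) (c (b (l 526351375) (l 526626063)) (b (l 527389199) (l 527390479))))))) (b (a (c (a (a (b (l 525891087) (l 525894159)) (b (l 525900559) (l 526163215))) (l 525895439)) (a (c (l 526625039) (l 527391247)) (l 527121423))) (c (l 525890575) (l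 527079951))) (a (b (b (l 526359311) (l 3)) (l 3)) (l 3)))) (b (a (a (a (c (l 526151951) (l 527182351)) (b (c (l 526172431) (l 527187215)) (l 3))) (l 3)) (l 3)) (l 3))) (l 3)), by decide +kernel⟩

def k32_B00pp_012_s1 : ∃ t, chk3 f_B00pp_012_s1 t 16 31 1 = true :=
  ⟨(a (b (a (l 2) (b (a (l 2) (a (l 2) (b (l 2) (a (l 2) (l 527566863))))) (a (l 14) (a (l 14) (a (l 14) (a (l 14) (l 526638863))))))) (a (l 14) (a (l 14) (a (l 14) (a (l 14) (a (l 14) (b (b (l 527313167) (l 526581007)) (l 3)))))))) (b (a (a (a (b (a (b (l 2) (l 527755279)) (b (l 528087823) (l 527673871))) (a (b (l 527062031) (l 526086927)) (b (l 527246095) (l 526267663)))) (b (c (a (l 527649807) (l 527582991)) (a (l 529305871) (l 529476879))) (a (b (l 527428879) (l 526178831)) (b (l 527341839) (l 526625551))))) (a (b (a (b (l 528114447) (l 527959823)) (b (l 528031503) (l 527873807))) (a (b (l 527522319) (l 526534415)) (b (l 527433231) (l 526441999)))) (b (a (b (l 528215823) (l 528055055))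 (b (l 528130575) (l 527966735))) (a (b (l 527342863) (l 526348303)) (b (l 526982927) (l 526790671)))))) (a (c (b (a (a (l 527231503) (l 526889487)) (b (l 526976015) (l 526576655))) (a (a (l 526420495) (l 526341391)) (a (l 526261007) (l 526179599)))) (a (b (a (l 528971023) (l 528597775)) (a (l 527982095) (l 527870223))) (b (b (l 528949263) (l 528462095)) (a (l 527757327) (l 527643151))))) (b (a (b (a (l 527418127) (l 527325711)) (a (l 527507471) (l 527412239))) (b (b (l 526757391) (l 527074319)) (c (l 526528271) (l 528016143)))) (b (a (a (l 527044879) (l 526946575)) (a (l 526846991) (l 526477839))) (l 3))))) (b (b (a (a (a (a (a (l 527268367) (l 527223055)) (a (l 527177487) (l 527131919))) (a (a (l 527085839) (l 526770959)) (c (l 526182415) (l 527767311)))) (a (a (c (l 526104079) (l 527656463)) (l 525168399)) (l 3))) (l 3)) (l 3)) (l 3)))), by decide +kernel⟩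

def k33_B00pp_012_s1 : ∃ t, chk3 f_B00pp_012_s1 t 17 31 1 = true :=
  ⟨(b (b (a (a (a (a (b (b (l 526566415) (l 526881551)) (c (l 526363663) (l 527785743))) (c (b (b (l 526714127) (l 526513935)) (l 525656079)) (b (l 527250191) (l 527548431)))) (a (b (b (c (l 526025231) (l 527967759)) (l 526482447)) (b (c (l 525327631) (l 527445519)) (l 3))) (b (c (b (a (l 526410767) (a (l 526334223) (l 526268175))) (a (l 526182671) (a (l 526157839) (l 525901839)))) (b (a (l 527763983) (l 527329295)) (a (l 527487759) (a (l 527442447) (l 527445007))))) (l 3)))) (b (b (a (c (a (c (l 525236751) (l 526534671)) (a (l 526191375) (l 3))) (a (a (l 527520271) (l 527464975)) (l 527410191))) (l 3)) (l 3)) (l 3))) (l 3)) (l 3)) (l 3)), by decide +kernel⟩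

def k34_B00pp_012_s1 : ∃ t, chk3 f_B00pp_012_s1 t 9 15 1 = true :=
  ⟨(a (b (b (a (a (b (a (a (b (c (l 526149135) (l 527184143)) (c (a (l 526184719) (b (l 526208527) (l 526224911))) (a (l 527193871) (l 527208975)))) (b (c (b (l 526210575) (l 526232079)) (l 526953999)) (b (a (l 525646095) (l 525906191)) (c (l 525956111) (l 527169551))))) (c (b (a (b (l 526249743) (l 525973775)) (l 525969935)) (a (l 526224143) (l 525950991))) (b (a (b (l 527216399) (l 527186191)) (l 527145743)) (l 526837007)))) (a (c (a (b (b (a (l 525946383) (l 526216975)) (a (l 526205455) (l 526201359))) (l 525910543)) (b (l 525935119) (b (l 525914127) (l 3)))) (a (b (b (a (l 527195663) (l 527174671)) (l 527148047)) (l 527088399)) (l 526806287))) (b (a (c (l 525931279) (l 527061007)) (c (b (l 525936399) (l 525927439)) (l 527013135))) (a (c (b (l 525914383) (l 3)) (l 526989839)) (l 3))))) (a (b (c (a (b (l 526235151) (l 525950735)) (b (l 525965839) (b (l 525957391) (l 525952527))))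 (a (l 527063311) (l 526345999))) (b (a (c (b (l 525939983) (l 3)) (l 526970127)) (l 3)) (l 3))) (b (b (a (c (l 525969167) (l 527001871)) (c (b (l 525977359) (l 525976591)) (l 526961935))) (b (a (c (l 525964815) (l 526961935)) (c (a (l 525973263) (l 3)) (l 526926095))) (l 3))) (l 3)))) (a (b (a (b (a (c (b (l 525988367) (a (l 525718287) (l 525726223))) (l 526658319)) (b (c (a (l 525731343) (l 525740303)) (l 526637071)) (l 3))) (l 3)) (l 3)) (l 3)) (l 3))) (l 3)) (l 3)) (l 3)), by decide +kernel⟩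

def k35_B00pp_012_s1 : ∃ t, chk3 f_B00pp_012_s1 t 80 48 1 = true :=
  ⟨(a (c (b (l 16436944) (c (l 16406496) (l 16430384))) (c (l 16422496) (l 16447464))) (b (c (l 16427000) (l 16390392)) (c (c (l 16398064) (l 16420512)) (c (l 16401352) (l 16434952))))), by decide +kernel⟩

def k36_B00pp_012_s1 : ∃ t, chk3 f_B00pp_012_s1 t 81 48 1 = true :=
  ⟨(b (c (a (c (l 16406968) (l 16428864)) (c (l 16399416) (l 16419808))) (a (c (l 16451088) (l 16473640)) (c (l 16440504) (l 16461512)))) (a (c (a (c (l 16371320) (l 16413600)) (b (l 16403072) (c (l 16374280) (l 16394504)))) (b (c (l 16437200) (l 16459008)) (c (a (l 16430608) (l 16425512)) (a (l 16452272) (b (l 16448744) (l 16443928)))))) (b (c (a (b (l 16401248) (l 16397192)) (c (l 16365064) (l 16384200))) (c (a (l 16429512) (l 16403632)) (a (l 16450088) (l 16444320)))) (c (a (b (a (l 16394080) (l 16392280)) (a (a (c (l 16380752) (l 16400288)) (b (l 16390632) (b (l 16389120) (a (l 16383496) (l 16388992)))))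 (a (b (l 16389744) (b (a (l 16383488) (l 16383672)) (l 16389768))) (b (b (l 16389368) (a (l 16383504) (l 16383616))) (l 16390288))))) (b (a (a (l 16385720) (b (l 16391080) (a (l 16384080) (b (l 16389400) (l 16383552))))) (a (b (l 16390224) (b (a (l 16388968) (l 16383552)) (l 16384104))) (b (c (l 16380224) (l 16398640)) (b (l 16384032) (l 16390440))))) (a (b (a (b (a (l 16383544) (l 16383568)) (l 16389520)) (l 16384848)) (l 16392080)) (l 16393160)))) (a (b (c (l 16422800) (l 16442928)) (a (b (l 16435936) (a (c (l 16419024) (l 16439080)) (b (l 16430904) (c (l 16418072) (l 16427368))))) (b (a (l 16433952) (b (l 16427976) (a (l 16429912) (l 16429784)))) (a (b (c (l 16407344) (l 16426976)) (l 16428208)) (l 16428328))))) (b (a (a (l 16434768) (b (l 16429368) (b (l 16427656) (a (l 16426848) (l 16429168))))) (a (b (l 16428072) (b (a (l 16426672) (l 16428896)) (l 16429336))) (c (b (l 16406848) (l 16417544)) (b (b (l 16436896) (l 16425304)) (l 16425824)))))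 (a (b (a (b (a (l 16429672) (l 16429464)) (l 16427432)) (b (l 16429696) (l 16428064))) (l 16429320)) (l 16429600)))))))), by decide +kernel⟩

def k37_B00pp_012_s1 : ∃ t, chk3 f_B00pp_012_s1 t 80 49 2 = true :=
  ⟨(b (a (a (c (l 16390944) (l 16414336)) (b (l 16402600) (b (l 16396024) (a (l 16392712) (b (l 16391728) (a (l 16390056) (b (l 16389592) (l 16389392)))))))) (b (a (b (l 16400488) (l 16396176)) (b (l 16396368) (a (l 16393144) (c (l 16364976) (l 16391168))))) (a (b (a (l 16392912) (b (l 16391960) (a (l 16390344) (c (l 16363128) (l 16384440))))) (b (a (a (l 16390200) (b (l 16389744) (b (l 16383824) (l 16378680)))) (a (c (l 16363248) (l 16384600)) (l 16390264))) (a (c (l 16363928) (l 16390656)) (l 16392248)))) (b (a (b (c (l 16363712) (l 16390104)) (a (b (a (l 16389136) (l 16383688)) (l 16384232)) (l 16389992))) (b (a (c (b (l 16378704) (l 16378888)) (c (l 16373536) (l 16384024))) (c (l 16358520) (l 16400064))) (l 16391544))) (l 16394336)))))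 (a (b (b (a (a (l 16392560) (b (l 16391536) (a (b (l 16390424) (l 16389600)) (b (l 16389552) (l 16389936))))) (c (b (a (a (l 16378864) (l 16362960)) (l 16358840)) (l 16360256)) (b (a (a (l 16401200) (l 16390320)) (l 16380576)) (l 16381976)))) (a (b (a (a (b (l 16390336) (l 16389760)) (b (l 16389672) (l 16390272))) (l 16391280)) (l 16392712)) (l 16395800))) (a (l 16399208) (l 16403672))) (b (c (l 16369040) (l 16388992)) (l 16410584)))), by decide +kernel⟩

def k38_B00pp_012_s1 : ∃ t, chk3 f_B00pp_012_s1 t 81 49 2 = true :=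
  ⟨(a (b (b (a (b (c (l 16361224) (l 16402808)) (a (b (l 16390312) (a (b (l 16389224) (a (l 16383592) (l 16389072))) (c (l 16363680) (l 16383992)))) (b (a (b (l 16389424) (a (l 16383536) (l 16383632))) (b (a (l 16383552) (l 16383560)) (l 16389512))) (l 16390880)))) (b (b (a (l 16385432) (c (b (l 16358584) (a (l 16379080) (l 16379400))) (b (l 16399224) (a (l 16398784) (l 16398864))))) (b (a (a (l 16389616) (a (l 16388920) (l 16383488))) (a (l 16383944) (l 16390192))) (a (a (a (l 16388840) (l 16383512)) (l 16384040)) (l 16390928)))) (a (c (l 16382224) (l 16401744)) (l 16394232)))) (a (b (l 16393672) (l 16398960)) (l 16401032))) (b (l 16409360) (l 16420200))) (b (b (a (b (a (a (c (a (l 16365344) (l 16381568)) (l 16390040)) (l 16391888)) (l 16393672)) (l 16397800)) (l 16399968)) (l 16413528)) (l 16382712))), by decide +kernel⟩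

def k39_B00pp_012_s1 : ∃ t, chk3 f_B00pp_012_s1 t 80 49 3 = true :=
  ⟨(b (a (b (c (l 16440096) (l 16464040)) (a (c (l 16433256) (l 16457104)) (a (c (l 16429136) (l 16452384)) (b (l 16440248) (b (l 16436608) (a (b (l 16435512) (l 16439528)) (b (l 16434056) (a (l 16433600) (l 16433560))))))))) (b (c (a (l 16431856) (c (l 16400112) (l 16421488))) (a (l 16454616) (a (l 16450024) (c (l 16420512) (l 16431448))))) (a (b (a (c (l 16426136) (l 16448704)) (b (l 16435744) (a (l 16434048) (b (l 16433240) (a (l 16432400) (l 16437312)))))) (a (b (a (l 16434464) (b (l 16433656) (a (l 16438192) (l 16432784)))) (a (c (l 16401656) (l 16434400)) (l 16433904))) (b (a (b (a (l 16437904) (l 16437656)) (l 16432984)) (l 16438328)) (l 16434752)))) (b (a (b (c (l 16411568) (c (l 16417392) (l 16428360))) (a (b (a (l 16432176) (l 16436984)) (l 16437424)) (b (l 16437032) (l 16432640)))) (b (c (a (c (l 16399832) (l 16410480)) (l 16410464)) (a (b (l 16442264) (l 16442144))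 (l 16431656))) (l 16433016))) (a (l 16434896) (l 16436096)))))) (a (b (a (b (a (c (l 16427424) (l 16451096)) (a (c (l 16414864) (l 16448712)) (b (l 16436792) (c (l 16413360) (l 16436416))))) (b (a (c (a (l 16403792) (l 16403512)) (a (l 16437840) (l 16426832))) (l 16441680)) (l 16437816))) (b (b (a (a (b (l 16435952) (l 16440056)) (b (l 16439776) (l 16439688))) (c (l 16402640) (l 16435520))) (c (l 16414512) (l 16436880))) (l 16438984))) (c (l 16433176) (l 16454736))) (b (c (l 16409248) (l 16450776)) (l 16448816)))), by decide +kernel⟩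

def k40_B00pp_012_s1 : ∃ t, chk3 f_B00pp_012_s1 t 81 49 3 = true :=
  ⟨(a (b (b (a (b (c (l 16413248) (l 16444976)) (a (b (a (l 16432840) (l 16436704)) (a (b (l 16436288) (a (l 16435840) (l 16430584))) (b (a (l 16435528) (l 16435456)) (l 16430912)))) (b (a (b (l 16430696) (c (l 16409136) (l 16435232))) (b (c (l 16408896) (l 16434848)) (l 16430096))) (l 16431304)))) (b (a (b (a (l 16432080) (l 16430728)) (a (b (l 16430328) (c (l 16408672) (l 16434488))) (b (c (l 16418952) (l 16434144)) (a (l 16429184) (l 16429376))))) (b (a (a (l 16429720) (c (l 16418984) (l 16428776))) (b (a (l 16428968) (l 16430984)) (a (l 16431096) (l 16428576)))) (a (c (l 16419448) (l 16429080)) (l 16429952)))) (a (c (l 16421560) (l 16431184)) (l 16432776)))) (a (c (l 16425872) (l 16424976)) (b (l 16436336) (l 16440584)))) (c (l 16441096) (l 16458968))) (a (b (b (b (a (c (c (l 16394512) (l 16409472)) (c (l 16424504) (l 16434360))) (l 16431168)) (l 16434752)) (l 16441192))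 (l 16454368)) (b (c (l 16431016) (l 16451064)) (l 16457432)))), by decide +kernel⟩

def k41_B00pp_012_s1 : ∃ t, chk3 f_B00pp_012_s1 t 40 25 1 = true :=
  ⟨(b (a (a (b (c (b (l 16411984) (l 16422712)) (b (l 16452120) (l 16460528))) (c (l 16439096) (l 16473520))) (b (c (l 16426848) (l 16461752)) (c (l 16449000) (l 16479632)))) (b (a (c (l 16436712) (l 16467712)) (b (l 16413320) (l 16465520))) (c (l 16464296) (l 16489512)))) (a (b (c (l 16466488) (l 16494792)) (c (l 16489472) (l 16513792))) (b (c (l 16487344) (l 16508880)) (l 16435552)))), by decide +kernel⟩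

def k42_B00pp_012_s1 : ∃ t, chk3 f_B00pp_012_s1 t 82 48 2 = true :=
  ⟨(b (a (c (a (l 16352352) (l 16380680)) (c (l 16385808) (l 16395272))) (b (c (l 16369472) (l 16386872)) (a (b (c (l 16386440) (l 16403784)) (a (l 16381640) (a (l 16385680) (b (l 16391112) (b (l 16389720) (l 16379072)))))) (b (a (l 16371760) (c (b (l 16384016) (l 16361360)) (l 16383616))) (a (b (a (l 16390360) (b (l 16390072) (l 16379120))) (c (b (l 16361016) (l 16383000)) (l 16383112))) (b (c (a (l 16361152) (l 16383040)) (l 16382944)) (l 16392888))))))) (a (b (a (b (a (l 16394904) (l 16382720)) (a (c (l 16360888) (l 16384456)) (b (l 16385088) (a (b (l 16389288) (c (l 16380232) (l 16398096))) (a (a (l 16384032) (l 16384184)) (l 16384512)))))) (b (a (c (l 16382696) (l 16400480)) (b (l 16390896) (a (c (l 16359896) (l 16382496)) (a (b (l 16389280) (l 16389360)) (l 16384352))))) (b (b (a (a (l 16389592) (c (l 16380448) (l 16397896))) (l 16385080)) (a (a (a (l 16388968) (l 16389096))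 (l 16389784)) (l 16391592))) (l 16387120)))) (a (b (a (b (a (b (l 16383816) (l 16383968)) (c (l 16359872) (l 16383056))) (l 16391584)) (l 16392688)) (l 16396808)) (a (l 16397832) (l 16400312)))) (a (b (b (a (a (b (c (l 16381224) (l 16398304)) (l 16385016)) (b (b (l 16378944) (l 16379096)) (l 16391352))) (a (c (l 16362296) (l 16384024)) (l 16392512))) (l 16395992)) (l 16404080)) (b (l 16398344) (l 16409176))))), by decide +kernel⟩

def k43_B00pp_012_s1 : ∃ t, chk3 f_B00pp_012_s1 t 82 48 3 = true :=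
  ⟨(a (b (c (c (l 16425776) (l 16435384)) (c (l 16424088) (l 16433840))) (b (a (c (b (l 16422024) (a (l 16408312) (b (l 16417600) (a (b (l 16416544) (l 16416240)) (l 16406000))))) (b (l 16441024) (b (l 16427040) (a (l 16426040) (b (a (l 16435056) (l 16423800)) (a (l 16424168) (l 16434832))))))) (b (a (b (l 16428784) (l 16429168)) (b (l 16426272) (a (b (l 16425232) (a (l 16424432) (l 16424136))) (b (a (l 16424288) (l 16423896)) (l 16424328))))) (b (a (a (b (l 16425504) (a (l 16424816) (l 16424696))) (b (a (l 16424608) (l 16424408)) (l 16425000))) (a (l 16425200) (l 16425832))) (l 16429552)))) (a (b (a (b (a (b (a (l 16426392) (l 16425800)) (a (l 16425904) (l 16426016))) (b (a (l 16425600) (l 16425672)) (l 16426496))) (l 16427760)) (l 16428064)) (l 16431672)) (b (l 16430184) (l 16434552))))) (b (b (c (l 16425512) (l 16443440)) (a (b (a (l 16431544) (l 16429056)) (a (l 16432360) (b (l 16425760) (a (l 16424144) (b (l 16423488) (l 16423128)))))) (b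 (a (l 16426600) (a (l 16424784) (c (l 16404816) (l 16421416)))) (a (b (a (l 16423928) (b (l 16423272) (l 16422608))) (a (b (l 16422856) (l 16423472)) (l 16423664))) (b (a (c (l 16393512) (l 16420560)) (l 16423024)) (l 16424768)))))) (a (b (b (a (b (a (b (l 16424968) (l 16423928)) (b (l 16423752) (l 16423704))) (c (l 16416288) (l 16423064))) (a (c (l 16406008) (l 16423000)) (l 16425464))) (l 16428736)) (l 16435344)) (c (l 16426336) (l 16441672))))), by decide +kernel⟩

def k44_B00pp_012_s1 : ∃ t, chk3 f_B00pp_012_s1 t 83 48 1 = true :=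
  ⟨(b (a (b (c (a (c (l 16365464) (l 16381528)) (b (c (l 16385720) (l 16401056)) (a (b (l 16391408) (a (a (l 16379800) (l 16379840)) (l 16380344))) (b (c (l 16362544) (l 16377368)) (l 16392384))))) (a (c (l 16397840) (l 16424896)) (b (l 16427144) (a (b (l 16422480) (c (l 16397968) (l 16418792))) (b (c (l 16397664) (l 16418192)) (l 16422056)))))) (c (a (b (a (b (a (l 16391040) (l 16379840)) (c (a (l 16361328) (l 16383112)) (l 16382800))) (b (c (a (l 16361560) (l 16383224)) (l 16382696)) (l 16392608))) (l 16395360)) (l 16387328)) (a (b (a (b (a (l 16423480) (l 16422288)) (a (c (l 16393136) (l 16419888)) (l 16422408))) (b (b (a (l 16421664) (l 16410840)) (l 16421944)) (l 16423384))) (l 16425936)) (l 16426824)))) (b (a (c (b (a (b (l 16392176) (a (l 16369888) (l 16380496))) (b (c (l 16363192) (l 16377448)) (l 16371360))) (a (l 16383200) (l 16396216))) (b (a (b (l 16422112) (c (l 16392152) (l 16407152))) (b (c (l 16391936) (l 16406648)) (l 16410408)))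 (a (l 16422576) (l 16424088)))) (c (a (c (l 16368680) (l 16382128)) (l 16398784)) (c (l 16396736) (l 16420848)))) (c (l 16405656) (l 16431680)))) (a (c (b (l 16406048) (l 16416952)) (c (l 16431856) (l 16445688))) (c (l 16422080) (l 16445496)))), by decide +kernel⟩

def k45_B00pp_012_s1 : ∃ t, chk3 f_B00pp_012_s1 t 41 49 1 = true :=
  ⟨(a (b (a (c (c (l 16405144) (l 16420560)) (b (a (l 16438200) (l 16441184)) (l 16448584))) (c (l 16423032) (b (l 16445864) (l 16455008)))) (a (c (l 16434832) (l 16462248)) (b (l 16409928) (l 16462200)))) (a (b (c (l 16433528) (l 16457192)) (l 16424048)) (c (l 16371712) (l 16432120)))), by decide +kernel⟩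

def k46_B00pp_012_s1 : ∃ t, chk3 f_B00pp_012_s1 t 41 25 1 = true :=
  ⟨(b (a (b (c (l 16462512) (l 16484480)) (c (l 16485416) (l 16503992))) (c (l 16411912) (l 16467848))) (a (b (l 16474368) (l 16454536)) (b (l 16451776) (l 16558096)))), by decide +kernel⟩

def k47_B00pp_012_s1 : ∃ t, chk3 f_B00pp_012_s1 t 20 13 1 = true :=
  ⟨(a (b (b (a (b (l 16460176) (l 16544976)) (b (l 16541512) (l 16564032))) (a (l 527118863) (l 527111439))) (b (a (l 527013391) (l 527020047)) (a (b (l 526945295) (l 526907151)) (b (l 526969359) (l 526674959))))) (b (b (a (b (l 16560920) (l 16583752)) (l 527221519)) (a (l 527117327) (l 527154959))) (b (a (l 527052815) (l 526842127)) (a (b (l 527018767) (l 526737167)) (b (l 527094799) (l 526825231)))))), by decide +kernel⟩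

def k48_B00pp_012_s1 : ∃ t, chk3 f_B00pp_012_s1 t 21 6 1 = true :=
  ⟨(b (a (b (b (a (c (b (a (b (l 16405440) (l 16416352)) (l 16421816)) (l 16396456)) (b (a (b (l 16429304) (l 16438544)) (l 16441096)) (a (l 16452664) (l 16460216)))) (a (b (l 16398784) (l 16461584)) (b (l 16450336) (l 16471368)))) (a (c (b (l 16460808) (l 16483504)) (b (l 16475832) (l 16495736))) (b (l 16403848) (l 16509360)))) (a (b (b (l 16427368) (l 16533280)) (l 526792975)) (b (l 527446031) (l 527108367)))) (b (a (b (b (l 16381280) (l 16486384)) (l 16476904)) (b (l 16412408) (l 16539616))) (b (a (l 16479104) (l 16499960)) (a (l 527446799) (l 527541263))))) (b (a (b (a (l 526994447) (l 527328015)) (a (l 527215887) (l 527302415))) (b (a (l 527417871) (l 527531535)) (a (l 527412751) (l 527545871)))) (a (b (a (b (l 527196687) (l 527192591)) (b (l 527299343) (l 527306255))) (a (b (l 527195663) (l 527206415)) (b (l 527320335) (a (l 527306511) (l 527379983))))) (b (a (b (l 527425039)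 (a (l 527406863) (l 527480591))) (c (l 528002575) (l 527165711))) (a (b (a (l 527429135) (b (l 527500303) (l 3))) (l 3)) (l 3)))))), by decide +kernel⟩

def k49_B00pp_012_s1 : ∃ t, chk3 f_B00pp_012_s1 t 11 6 1 = true :=
  ⟨(b (a (b (a (b (a (l 16517296) (l 16538616)) (l 527487759)) (a (l 527951119) (l 528092431))) (a (b (l 527730447) (a (l 527658767) (l 527798287))) (b (l 528017935) (l 527777295)))) (a (b (b (l 528333839) (l 528348943)) (b (l 528384527) (a (l 528337167) (l 528553487)))) (b (a (l 528632847) (l 528848655)) (b (l 527211791) (a (l 528786447) (l 528766991)))))) (a (b (a (b (a (l 527667215) (l 527824399)) (a (l 527700495) (l 527875855))) (b (c (l 528671503) (l 527514127)) (c (l 527498255) (l 527498255)))) (a (b (a (l 527760911) (l 526612495)) (l 3)) (l 3))) (b (b (a (c (l 529298703) (l 527741199)) (c (l 529989391) (l 528037135))) (l 3)) (l 3)))), by decide +kernel⟩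

def k50_B00pp_012_s1 : ∃ t, chk3 f_B00pp_012_s1 t 5 7 1 = true :=
  ⟨(b (a (b (a (a (b (a (b (b (l 526614031) (l 526601743)) (c (a (l 526776591) (l 526846991)) (l 526628879))) (c (b (l 526930959) (a (l 526924303) (l 527008527))) (b (l 526919695) (a (l 526871055) (l 526861071))))) (b (a (c (a (b (l 526794767) (a (l 526791183) (l 526829327))) (b (l 526870543) (c (l 526907919) (l 526871311)))) (a (c (l 526834959) (l 526857999)) (a (l 527101967) (l 526826767)))) (b (a (c (l 526953487) (l 526831631)) (c (l 527043087) (l 526826255))) (a (c (b (l 526970127) (l 526982159)) (l 526807823)) (l 3)))) (a (b (b (c (a (c (l 526826767) (l 526819599)) (a (c (l 526905615) (l 526863375)) (l 526927375))) (a (c (l 526812943) (l 526806799)) (a (l 526800143) (l 526795279)))) (a (c (c (l 526841871) (l 526823439)) (l 526796303)) (l 3))) (b (a (a (c (l 526822671) (l 526786319)) (l 3)) (l 3)) (l 3))) (l 3)))) (a (a (b (b (l 526979599) (c (l 527099663) (l 526857231)))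 (b (b (c (l 527407887) (l 526826767)) (l 3)) (l 3))) (b (b (l 527023375) (b (l 527026959) (l 526763535))) (l 3))) (b (a (b (l 526805263) (b (l 526813199) (l 3))) (b (l 526861583) (l 3))) (l 3)))) (b (a (b (a (c (b (l 527496207) (l 3)) (l 526664207)) (l 3)) (l 3)) (l 3)) (l 3))) (l 3)) (l 3)) (l 3)), by decide +kernel⟩

def k51_B00pp_012_s1 : ∃ t, chk3 f_B00pp_012_s1 t 6 4 1 = true :=
  ⟨(a (a (b (l 6) (c (b (l 16439576) (a (l 16502440) (l 16510320))) (a (l 16434256) (l 16420704)))) (b (c (a (l 6) (l 16551472)) (l 16392720)) (a (b (l 16438264) (c (l 16527520) (l 16482008))) (b (l 16423736) (b (l 16436976) (a (l 16430960) (l 16446344))))))) (b (a (a (b (l 6) (l 16465760)) (c (l 16498240) (l 16464352))) (a (b (l 16454168) (c (l 16620160) (l 16461480))) (b (c (l 16629272) (l 16484576)) (c (a (l 16649384) (l 16504048)) (c (l 16501496) (l 16449960)))))) (b (a (a (c (l 16488880) (l 16511680)) (a (b (l 16473288) (l 16390568)) (c (l 16533176) (l 16441576))))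 (a (c (b (l 16473000) (l 16487192)) (b (a (l 16532608) (l 16458392)) (a (l 16454144) (l 16557136)))) (b (a (c (l 16589224) (l 16472208)) (a (l 16461816) (l 16472104))) (c (l 16612184) (l 16504032))))) (a (a (c (b (l 16501920) (l 16519184)) (b (l 16418232) (l 16434696))) (a (b (l 16401976) (l 16510336)) (c (l 16649080) (l 16473112)))) (c (a (l 533712655) (l 534513935)) (a (l 530763791) (l 531217679))))))), by decide +kernel⟩

def k52_B00pp_012_s1 : ∃ t, chk3 f_B00pp_012_s1 t 6 5 1 = true :=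
  ⟨(a (b (a (b (a (c (b (l 16489536) (l 16400336)) (b (l 16467080) (l 16449400))) (c (b (l 16505312) (l 16430552)) (b (l 16461240) (l 16378352)))) (a (b (c (a (l 16483424) (l 16504224)) (a (l 16444608) (l 16458944))) (l 16421496)) (l 528463887))) (b (b (a (c (l 16452328) (l 16389448)) (a (l 16448448) (l 16471488))) (a (l 16445016) (l 16427240))) (c (l 529649679) (l 528157711)))) (a (a (b (c (l 529744399) (l 528430351)) (l 528036623)) (b (l 528993551) (c (l 530536463) (l 528628495)))) (a (b (l 528417039) (c (l 530990095) (l 528974095))) (c (b (l 531508495) (c (l 532681231) (l 531373839))) (b (l 529358863) (l 528294671)))))) (b (b (a (a (l 529448719) (c (l 533005583) (l 530253327))) (c (a (l 533801487) (l 534011407)) (a (l 530692111) (l 530358543)))) (a (c (c (l 533424143) (l 531266063)) (a (l 529785103) (l 530208527))) (c (a (l 533701647) (l 533688591)) (a (l 530131727) (l 529817359))))) (b (a (c (a (l 532019727) (l 532301583)) (a (l 529230351)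 (l 529142031))) (c (a (l 532613647) (l 532476943)) (a (b (l 530414607) (l 530175247)) (b (l 529847311) (l 529618447))))) (a (c (a (l 531503631) (l 532085007)) (a (l 528195343) (c (l 531148047) (l 529405711)))) (a (a (c (l 533217807) (l 529583631)) (l 3)) (l 3)))))), by decide +kernel⟩

def k53_B00pp_012_s1 : ∃ t, chk3 f_B00pp_012_s1 t 14 4 1 = true :=
  ⟨(c (b (a (b (a (l 16583360) (a (l 16678712) (l 16587880))) (a (b (l 16541560) (a (l 16609784) (l 16605064))) (b (a (l 16594504) (l 16589648)) (l 16600312)))) (b (a (b (l 16577520) (a (l 16579368) (a (l 16574672) (l 16572576)))) (b (a (a (l 16566624) (l 16562376)) (b (l 16556288) (l 16559080))) (a (l 16570816) (l 16569984)))) (a (a (a (l 16592672) (l 16591976)) (l 533646607)) (l 533029391)))) (a (a (l 532815631) (b (l 534066191) (l 533848591))) (a (b (l 533596687) (l 533097231)) (c (l 530755855) (l 532278799))))) (b (b (a (a (l 16497328) (a (l 16510208) (l 16520376))) (b (a (a (l 16530424) (l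 16542224)) (a (b (l 16553896) (l 16473152)) (b (l 16526080) (l 16530232)))) (c (a (a (l 16654992) (l 16587608)) (l 16612088)) (a (a (l 16496712) (l 16509536)) (a (l 16525384) (l 16543056)))))) (a (a (a (b (l 16573144) (l 16491832)) (b (l 16499584) (l 16508176))) (b (a (l 16470680) (b (l 16524248) (l 16531728))) (l 16494688))) (a (a (b (l 16545728) (l 16563328)) (l 531672591)) (c (l 534517519) (l 532267023))))) (a (c (a (l 532117263) (b (l 533255183) (l 533223695))) (b (l 530279183) (l 529359375))) (a (c (l 532236559) (b (l 531707407) (l 531610639))) (c (b (l 534461455) (l 534188559)) (b (l 532143375) (l 531520527))))))), by decide +kernel⟩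

def k54_B00pp_012_s1 : ∃ t, chk3 f_B00pp_012_s1 t 15 4 1 = true :=
  ⟨(b (a (a (a (b (b (a (b (c (l 16635056) (l 16578992)) (l 16516704)) (c (l 16554064) (l 16547568))) (c (l 16570584) (l 16555496))) (c (l 532947727) (c (l 534768143) (l 532592655)))) (c (l 532767759) (c (l 534630927) (l 532350735)))) (c (c (l 531720719) (l 533089039)) (c (l 534381327) (c (l 533863695) (l 532293903))))) (c (a (b (l 530937359) (l 530546447)) (c (l 529577743) (l 531991567))) (c (a (l 533516047) (l 532926479)) (a (c (l 534071311) (l 532150031)) (b (l 532529679) (l 532406543)))))) (a (c (a (b (l 532111119) (l 531051535)) (b (l 531097359) (c (l 531144207) (l 532647695)))) (c (b (l 532793359) (a (l 534151439) (l 534075663))) (a (b (l 532051983) (l 531438863)) (c (b (l 533712655) (l 533666319)) (b (l 532358671) (l 532267791)))))) (a (c (b (c (l 530902287) (l 532455695)) (c (l 530594063) (l 532218383))) (c (b (l 533905167) (l 532933647)) (b (l 532144399) (c (l 533894415)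 (l 532141071))))) (b (c (c (l 530357263) (l 532038159)) (c (l 533581583) (l 532315919))) (l 3))))), by decide +kernel⟩

def k55_B00pp_012_s1 : ∃ t, chk3 f_B00pp_012_s1 t 7 5 1 = true :=
  ⟨(b (b (a (c (a (a (l 534057231) (l 533292559)) (a (l 531987727) (l 530949647))) (a (a (l 530052367) (c (l 533246991) (l 531108879))) (c (a (l 533605135) (l 533701391)) (a (l 531017487) (l 531206415))))) (b (a (a (c (l 532154639) (c (l 534272271) (l 531942159))) (l 3)) (l 3)) (l 3))) (a (a (c (a (l 533711887) (l 532656911)) (c (c (l 533545743) (l 531677199)) (a (l 530640911) (l 531083279)))) (a (c (l 531331855) (c (l 533701647) (l 531004175))) (l 3))) (l 3))) (a (a (a (b (c (l 531936527) (c (c (l 533367055) (l 532289295)) (l 529841935))) (l 3)) (l 3)) (l 3)) (l 3))), by decide +kernel⟩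

def k56_B00pp_012_s1 : ∃ t, chk3 f_B00pp_012_s1 t 3 3 1 = true :=
  ⟨(b (b (a (a (a (a (b (b (l 528900623) (l 528161551)) (c (b (l 530322959) (l 530247183)) (b (l 528309775) (l 528340751)))) (b (c (l 530536975) (l 528629775)) (a (b (l 528932367) (l 3)) (l 3)))) (b (a (c (c (l 532198159) (l 530940431)) (l 527938575)) (b (c (l 531476751) (l 528876559)) (l 3))) (l 3))) (l 3)) (l 3)) (l 3)) (l 3)), by decide +kernel⟩

theorem t57_B00pp_012_s1 : ∃ t, chk3 f_B00pp_012_s1 t 7 4 1 = true := ex3_a k53_B00pp_012_s1 k54_B00pp_012_s1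

theorem t58_B00pp_012_s1 : ∃ t, chk3 f_B00pp_012_s1 t 7 2 1 = true := ex3_b t57_B00pp_012_s1 k55_B00pp_012_s1

theorem t59_B00pp_012_s1 : ∃ t, chk3 f_B00pp_012_s1 t 6 2 1 = true := ex3_b k51_B00pp_012_s1 k52_B00pp_012_s1

theorem t60_B00pp_012_s1 : ∃ t, chk3 f_B00pp_012_s1 t 3 2 1 = true := ex3_a t59_B00pp_012_s1 t58_B00pp_012_s1

theorem t61_B00pp_012_s1 : ∃ t, chk3 f_B00pp_012_s1 t 3 1 1 = true := ex3_b t60_B00pp_012_s1 k56_B00pp_012_s1

theorem t62_B00pp_012_s1 : ∃ t, chk3 f_B00pp_012_s1 t 82 48 1 = true := ex3_c k42_B00pp_012_s1 k43_B00pp_012_s1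

theorem t63_B00pp_012_s1 : ∃ t, chk3 f_B00pp_012_s1 t 41 48 1 = true := ex3_a t62_B00pp_012_s1 k44_B00pp_012_s1

theorem t64_B00pp_012_s1 : ∃ t, chk3 f_B00pp_012_s1 t 41 24 1 = true := ex3_b t63_B00pp_012_s1 k45_B00pp_012_s1

theorem t65_B00pp_012_s1 : ∃ t, chk3 f_B00pp_012_s1 t 41 12 1 = true := ex3_b t64_B00pp_012_s1 k46_B00pp_012_s1

theorem t66_B00pp_012_s1 : ∃ t, chk3 f_B00pp_012_s1 t 40 49 3 = true := ex3_a k39_B00pp_012_s1 k40_B00pp_012_s1

theorem t67_B00pp_012_s1 : ∃ t, chk3 f_B00pp_012_s1 t 40 49 2 = true := ex3_a k37_B00pp_012_s1 k38_B00pp_012_s1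

theorem t68_B00pp_012_s1 : ∃ t, chk3 f_B00pp_012_s1 t 40 49 1 = true := ex3_c t67_B00pp_012_s1 t66_B00pp_012_s1

theorem t69_B00pp_012_s1 : ∃ t, chk3 f_B00pp_012_s1 t 40 48 1 = true := ex3_a k35_B00pp_012_s1 k36_B00pp_012_s1

theorem t70_B00pp_012_s1 : ∃ t, chk3 f_B00pp_012_s1 t 40 24 1 = true := ex3_b t69_B00pp_012_s1 t68_B00pp_012_s1

theorem t71_B00pp_012_s1 : ∃ t, chk3 f_B00pp_012_s1 t 40 12 1 = true := ex3_b t70_B00pp_012_s1 k41_B00pp_012_s1

theorem t72_B00pp_012_s1 : ∃ t, chk3 f_B00pp_012_s1 t 20 12 1 = true := ex3_a t71_B00pp_012_s1 t65_B00pp_012_s1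

theorem t73_B00pp_012_s1 : ∃ t, chk3 f_B00pp_012_s1 t 20 6 1 = true := ex3_b t72_B00pp_012_s1 k47_B00pp_012_s1

theorem t74_B00pp_012_s1 : ∃ t, chk3 f_B00pp_012_s1 t 10 6 1 = true := ex3_a t73_B00pp_012_s1 k48_B00pp_012_s1

theorem t75_B00pp_012_s1 : ∃ t, chk3 f_B00pp_012_s1 t 5 6 1 = true := ex3_a t74_B00pp_012_s1 k49_B00pp_012_s1

theorem t76_B00pp_012_s1 : ∃ t, chk3 f_B00pp_012_s1 t 5 3 1 = true := ex3_b t75_B00pp_012_s1 k50_B00pp_012_s1

theorem t77_B00pp_012_s1 : ∃ t, chk3 f_B00pp_012_s1 t 8 31 1 = true := ex3_a k32_B00pp_012_s1 k33_B00pp_012_s1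

theorem t78_B00pp_012_s1 : ∃ t, chk3 f_B00pp_012_s1 t 35 61 1 = true := ex3_a k30_B00pp_012_s1 k31_B00pp_012_s1

theorem t79_B00pp_012_s1 : ∃ t, chk3 f_B00pp_012_s1 t 17 61 1 = true := ex3_a k29_B00pp_012_s1 t78_B00pp_012_s1

theorem t80_B00pp_012_s1 : ∃ t, chk3 f_B00pp_012_s1 t 8 61 1 = true := ex3_a k28_B00pp_012_s1 t79_B00pp_012_s1

theorem t81_B00pp_012_s1 : ∃ t, chk3 f_B00pp_012_s1 t 17 60 1 = true := ex3_a k26_B00pp_012_s1 k27_B00pp_012_s1

theorem t82_B00pp_012_s1 : ∃ t, chk3 f_B00pp_012_s1 t 8 60 1 = true := ex3_a k25_B00pp_012_s1 t81_B00pp_012_s1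

theorem t83_B00pp_012_s1 : ∃ t, chk3 f_B00pp_012_s1 t 8 30 1 = true := ex3_b t82_B00pp_012_s1 t80_B00pp_012_s1

theorem t84_B00pp_012_s1 : ∃ t, chk3 f_B00pp_012_s1 t 8 15 1 = true := ex3_b t83_B00pp_012_s1 t77_B00pp_012_s1

theorem t85_B00pp_012_s1 : ∃ t, chk3 f_B00pp_012_s1 t 4 15 1 = true := ex3_a t84_B00pp_012_s1 k34_B00pp_012_s1

theorem t86_B00pp_012_s1 : ∃ t, chk3 f_B00pp_012_s1 t 38 29 1 = true := ex3_b k22_B00pp_012_s1 k23_B00pp_012_s1

theorem t87_B00pp_012_s1 : ∃ t, chk3 f_B00pp_012_s1 t 19 29 1 = true := ex3_a t86_B00pp_012_s1 k24_B00pp_012_s1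

theorem t88_B00pp_012_s1 : ∃ t, chk3 f_B00pp_012_s1 t 19 14 1 = true := ex3_b k21_B00pp_012_s1 t87_B00pp_012_s1

theorem t89_B00pp_012_s1 : ∃ t, chk3 f_B00pp_012_s1 t 37 59 1 = true := ex3_a k19_B00pp_012_s1 k20_B00pp_012_s1

theorem t90_B00pp_012_s1 : ∃ t, chk3 f_B00pp_012_s1 t 37 29 1 = true := ex3_b k18_B00pp_012_s1 t89_B00pp_012_s1

theorem t91_B00pp_012_s1 : ∃ t, chk3 f_B00pp_012_s1 t 18 29 1 = true := ex3_a k17_B00pp_012_s1 t90_B00pp_012_s1

theorem t92_B00pp_012_s1 : ∃ t, chk3 f_B00pp_012_s1 t 18 14 1 = true := ex3_b k16_B00pp_012_s1 t91_B00pp_012_s1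

theorem t93_B00pp_012_s1 : ∃ t, chk3 f_B00pp_012_s1 t 9 14 1 = true := ex3_a t92_B00pp_012_s1 t88_B00pp_012_s1

theorem t94_B00pp_012_s1 : ∃ t, chk3 f_B00pp_012_s1 t 4 14 1 = true := ex3_a k15_B00pp_012_s1 t93_B00pp_012_s1

theorem t95_B00pp_012_s1 : ∃ t, chk3 f_B00pp_012_s1 t 4 7 1 = true := ex3_b t94_B00pp_012_s1 t85_B00pp_012_s1

theorem t96_B00pp_012_s1 : ∃ t, chk3 f_B00pp_012_s1 t 39 25 1 = true := ex3_a k12_B00pp_012_s1 k13_B00pp_012_s1

theorem t97_B00pp_012_s1 : ∃ t, chk3 f_B00pp_012_s1 t 39 24 1 = true := ex3_b k10_B00pp_012_s1 k11_B00pp_012_s1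

theorem t98_B00pp_012_s1 : ∃ t, chk3 f_B00pp_012_s1 t 39 12 1 = true := ex3_b t97_B00pp_012_s1 t96_B00pp_012_s1

theorem t99_B00pp_012_s1 : ∃ t, chk3 f_B00pp_012_s1 t 19 12 1 = true := ex3_a k9_B00pp_012_s1 t98_B00pp_012_s1

theorem t100_B00pp_012_s1 : ∃ t, chk3 f_B00pp_012_s1 t 19 6 1 = true := ex3_b t99_B00pp_012_s1 k14_B00pp_012_s1

theorem t101_B00pp_012_s1 : ∃ t, chk3 f_B00pp_012_s1 t 9 6 1 = true := ex3_a k8_B00pp_012_s1 t100_B00pp_012_s1

theorem t102_B00pp_012_s1 : ∃ t, chk3 f_B00pp_012_s1 t 4 6 1 = true := ex3_a k7_B00pp_012_s1 t101_B00pp_012_s1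

theorem t103_B00pp_012_s1 : ∃ t, chk3 f_B00pp_012_s1 t 4 3 1 = true := ex3_b t102_B00pp_012_s1 t95_B00pp_012_s1

theorem t104_B00pp_012_s1 : ∃ t, chk3 f_B00pp_012_s1 t 2 3 1 = true := ex3_a t103_B00pp_012_s1 t76_B00pp_012_s1

theorem t105_B00pp_012_s1 : ∃ t, chk3 f_B00pp_012_s1 t 21 11 1 = true := ex3_a k4_B00pp_012_s1 k5_B00pp_012_s1

theorem t106_B00pp_012_s1 : ∃ t, chk3 f_B00pp_012_s1 t 10 11 1 = true := ex3_a k3_B00pp_012_s1 t105_B00pp_012_s1

theorem t107_B00pp_012_s1 : ∃ t, chk3 f_B00pp_012_s1 t 10 5 1 = true := ex3_b k2_B00pp_012_s1 t106_B00pp_012_s1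

theorem t108_B00pp_012_s1 : ∃ t, chk3 f_B00pp_012_s1 t 10 2 1 = true := ex3_b k1_B00pp_012_s1 t107_B00pp_012_s1

theorem t109_B00pp_012_s1 : ∃ t, chk3 f_B00pp_012_s1 t 5 2 1 = true := ex3_a t108_B00pp_012_s1 k6_B00pp_012_s1

theorem t110_B00pp_012_s1 : ∃ t, chk3 f_B00pp_012_s1 t 2 2 1 = true := ex3_a k0_B00pp_012_s1 t109_B00pp_012_s1

theorem t111_B00pp_012_s1 : ∃ t, chk3 f_B00pp_012_s1 t 2 1 1 = true := ex3_b t110_B00pp_012_s1 t104_B00pp_012_s1

theorem t112_B00pp_012_s1 : ∃ t, chk3 f_B00pp_012_s1 t 1 1 1 = true := ex3_a t111_B00pp_012_s1 t61_B00pp_012_s1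

theorem c_B00pp_012_s1 : CertF 0 536870912 0 536870912 1020054732 13421774 false true true .pnp 0 1 2
    ndB0q0 ndB0q2 pcB1 cut_B00pp_012_s1 xt_B00pp_012_s1 :=
  certF0 (fam := false) (s1 := true) (s2 := true) (a := 0) (b := 1) (c := 2) (cn := .pnp) (n1 := ndB0q0) (n2 := ndB0q2) (pc := pcB1) (cut := cut_B00pp_012_s1) (xt := xt_B00pp_012_s1) (P1 := 0) (W1 := 536870912) (P2 := 0) (W2 := 536870912) (P3 := 1020054732) (W3 := 13421774)
    rfl t112_B00pp_012_s1

theorem s_B00pp_012_s1 {κ x : ℝ} (hκ : κ * h0 = ken x) (hx : ((1020054732 : ℕ) : ℝ) / S ≤ x)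
    (hx' : x ≤ (((1020054732 : ℕ) : ℝ) + (13421774 : ℕ)) / S)
    (H : CutB (VFD κ) PP tK tL pcB (Cut.of [[⟨0, 0, 0, 16777216⟩, ⟨1, 1, 0, 16777216⟩, ⟨2, 1, 0, 16777216⟩]]) 0 1 2 0 0 (sgb true) (sgb true) x) :
    AltB (VFD κ) PP tK tL pcB [⟨3, 0, 0, 1449551462⟩] 0 1 2 0 0 (sgb true) (sgb true) x :=
  strip_altBD (m := 1449551462) true rfl hκ (SH.κ0 hκ (SH.hx1 hx).le (SH.hx2 hx').le) (SH.hx1 hx).le (SH.hx2 hx') (covB00).cov (covB02).cov hx hx' c_B00pp_012_s1 H ((okx hx hx').extB (T := tt) (sideB hx hx') hκ rfl rfl (.O 0 true) (.O 2 true) (Or.inr rfl))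

noncomputable def cut_B00pp_012_s3 : Cut := Cut.of [[⟨3, 0, 0, 2845415833⟩], [⟨0, 0, 0, 16777216⟩, ⟨1, 1, 0, 16777216⟩, ⟨2, 1, 0, 16777216⟩]]

noncomputable def f_B00pp_012_s3 : ℕ → ℕ → ℕ → ℕ → Bool := onCell 0 536870912 0 536870912 1020054732 13421774
    (rowF 0 false true true .pnp 0 1 2 (qsf 0 536870912 0 536870912 1) ndB0q0 ndB0q2 pcB1 cut_B00pp_012_s3 Ext.none)

def k0_B00pp_012_s3 : ∃ t, chk3 f_B00pp_012_s3 t 1 1 1 = true :=
  ⟨(l 6), by decide +kernel⟩

theorem c_B00pp_012_s3 : CertF 0 536870912 0 536870912 1020054732 13421774 false true true .pnp 0 1 2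
    ndB0q0 ndB0q2 pcB1 cut_B00pp_012_s3 Ext.none :=
  certF0 (fam := false) (s1 := true) (s2 := true) (a := 0) (b := 1) (c := 2) (cn := .pnp) (n1 := ndB0q0) (n2 := ndB0q2) (pc := pcB1) (cut := cut_B00pp_012_s3) (xt := Ext.none) (P1 := 0) (W1 := 536870912) (P2 := 0) (W2 := 536870912) (P3 := 1020054732) (W3 := 13421774)
    rfl k0_B00pp_012_s3

theorem s_B00pp_012_s3 {κ x : ℝ} (hκ : κ * h0 = ken x) (hx : ((1020054732 : ℕ) : ℝ) / S ≤ x)
    (hx' : x ≤ (((1020054732 : ℕ) : ℝ) + (13421774 : ℕ)) / S)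
    (H : CutB (VFD κ) PP tK tL pcB (Cut.of [[⟨0, 0, 0, 16777216⟩, ⟨1, 1, 0, 16777216⟩, ⟨2, 1, 0, 16777216⟩]]) 0 1 2 0 0 (sgb true) (sgb true) x) :
    AltB (VFD κ) PP tK tL pcB [⟨4, 0, 0, 2845415833⟩] 0 1 2 0 0 (sgb true) (sgb true) x :=
  strip_altBD (m := 2845415833) false rfl hκ (SH.κ0 hκ (SH.hx1 hx).le (SH.hx2 hx').le) (SH.hx1 hx).le (SH.hx2 hx') (covB00).cov (covB02).cov hx hx' c_B00pp_012_s3 H (noExt_B)

noncomputable def cut_B00pp_022_s1 : Cut := Cut.of [[⟨4, 0, 0, 1449551462⟩], [⟨0, 0, 0, 33554432⟩, ⟨1, 1, 0, 33554432⟩, ⟨2, 1, 0, 33554432⟩]]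

noncomputable def f_B00pp_022_s1 : ℕ → ℕ → ℕ → ℕ → Bool := onCell 1073741824 536870912 0 536870912 1020054732 13421774
    (rowF 2 false true true .pp 0 2 2 (qsf 0 536870912 0 536870912 2) ndB0q0 ndB0q2 pcB2 cut_B00pp_022_s1 Ext.none)

def k0_B00pp_022_s1 : ∃ t, chk3 f_B00pp_022_s1 t 4 2 1 = true :=
  ⟨(a (b (l 6) (a (b (l 6) (b (l 6) (a (l 16455072) (l 16455552)))) (l 6))) (l 6)), by decide +kernel⟩

def k1_B00pp_022_s1 : ∃ t, chk3 f_B00pp_022_s1 t 16 12 1 = true :=
  ⟨(b (a (b (l 16481976) (a (l 16582512) (l 16586232))) (b (l 16570792) (l 16508264))) (a (a (b (l 16558616) (a (l 16596224) (l 16578584))) (b (l 16521888) (l 16583744))) (b (l 16530136) (a (l 16548776) (l 16626584))))), by decide +kernel⟩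

def k2_B00pp_022_s1 : ∃ t, chk3 f_B00pp_022_s1 t 32 26 1 = true :=
  ⟨(a (b (a (c (b (l 16629408) (l 16638832)) (l 16594632)) (c (l 16595448) (l 16557848))) (c (a (b (l 16637816) (c (l 16647008) (l 16637152))) (b (l 16652088) (l 16620024))) (a (b (l 16649992) (l 16648584)) (l 16639624)))) (b (a (l 16601824) (l 16564120)) (c (b (l 16615872) (l 16619440)) (l 16635968)))), by decide +kernel⟩

def k3_B00pp_022_s1 : ∃ t, chk3 f_B00pp_022_s1 t 64 27 1 = true :=
  ⟨(b (a (a (b (c (b (l 16663832) (a (l 16667984) (l 16669136))) (b (l 16664264) (l 16668800))) (b (c (c (l 16668040) (l 16662824)) (l 16668096)) (a (c (c (a (l 16677240) (l 16677792)) (l 16672064)) (b (l 16675864) (l 16678128))) (c (l 16668168) (l 16678792))))) (c (b (l 16657984) (b (l 16654720) (l 16670040))) (b (l 16648904) (l 16668688)))) (b (c (l 16650896) (l 16632088)) (c (a (l 16657464) (l 16673088)) (l 16663496)))) (a (b (b (c (a (a (b (a (l 16680624) (l 16681264)) (a (l 16680360) (l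 16683632))) (a (l 16677856) (l 16673256))) (l 16673384)) (a (a (b (l 16675152) (a (l 16682208) (l 16683136))) (l 16672904)) (l 16683648))) (a (b (a (c (c (l 16680600) (l 16680248)) (c (l 16679888) (l 16679520))) (c (l 16676504) (l 16676344))) (a (a (b (c (l 16687104) (l 16686176)) (c (l 16683032) (l 16682064))) (c (l 16677880) (l 16677216))) (a (l 16683608) (l 16687728)))) (c (l 16683952) (l 16683832)))) (a (b (c (a (a (b (a (l 16684632) (l 16679728)) (l 16686680)) (l 16685200)) (l 16688312)) (a (a (b (b (l 16683200) (l 16684336)) (a (c (l 16686096) (l 16685496)) (l 16681048))) (b (l 16679496) (l 16681112))) (l 16683776))) (a (c (a (b (l 16686808) (l 16686952)) (l 16685440)) (a (c (l 16687952) (b (b (l 16682200) (l 16683328)) (l 16688784))) (l 16686624))) (c (l 16683272) (a (l 16679688) (l 16688472))))) (c (a (l 16680296) (l 16682664)) (a (b (l 16685688) (l 16685928)) (l 16682432))))) (c (b (a (l 16667872) (l 16672784)) (a (l 16678328) (l 16672528)))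 (b (a (l 16666736) (l 16670672)) (a (l 16677352) (l 16670544)))))), by decide +kernel⟩

def k4_B00pp_022_s1 : ∃ t, chk3 f_B00pp_022_s1 t 65 27 1 = true :=
  ⟨(b (a (c (b (l 16665672) (l 16664992)) (l 16651096)) (a (l 16644280) (l 16627960))) (a (b (c (l 16643384) (l 16660776)) (a (l 16665208) (l 16658840))) (b (c (l 16653016) (l 16647456)) (c (l 16652008) (l 16646464))))), by decide +kernel⟩

def k5_B00pp_022_s1 : ∃ t, chk3 f_B00pp_022_s1 t 33 13 1 = true :=
  ⟨(b (a (b (l 16599504) (c (l 16642000) (l 16633520))) (b (l 16621152) (a (l 16579576) (l 16526248)))) (a (c (b (a (l 16643840) (l 16633024)) (a (l 16619720) (l 16628136))) (b (a (l 16636312) (l 16623560)) (a (l 16612104) (l 16618344)))) (b (a (l 16574088) (l 16561408)) (a (c (l 16615520) (l 16603536)) (l 16553112))))), by decide +kernel⟩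

def k6_B00pp_022_s1 : ∃ t, chk3 f_B00pp_022_s1 t 17 6 1 = true :=
  ⟨(b (a (b (l 16504624) (a (b (l 16614744) (l 16608240)) (l 16529896))) (b (l 16502944) (a (l 16488608) (l 16466848)))) (a (b (a (b (l 16600480) (a (l 16598384) (l 16586304))) (b (l 16494368) (l 16482688))) (a (b (c (l 16507024) (l 16574032)) (a (l 16538184) (l 16565344))) (b (l 16491992) (l 16501704)))) (b (a (b (l 16469768) (l 16456464)) (c (l 16452144) (l 16423824))) (a (c (l 16493016) (l 16424448)) (b (l 16502304) (l 16491432)))))), by decide +kernel⟩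

def k7_B00pp_022_s1 : ∃ t, chk3 f_B00pp_022_s1 t 16 14 1 = true :=
  ⟨(b (a (b (a (a (c (b (a (a (b (b (l 16686360) (l 16686496)) (l 16686712)) (b (l 16688720) (l 16688952))) (a (l 16685848) (l 16682856))) (a (b (l 16685488) (l 16691024)) (l 16684672))) (a (b (a (b (a (c (l 16688312) (l 16689096)) (l 16686984)) (b (l 16688136) (l 16693576))) (b (l 16684392) (l 16689960))) (b (a (l 16683392) (l 16690296)) (l 16681992))) (b (b (l 16673952) (l 16684664)) (l 16679784)))) (b (a (b (l 16672672) (l 16677976)) (c (l 16672328) (l 16670456))) (a (b (l 16678056) (l 16678176)) (l 16660840)))) (a (b (c (l 16642296) (l 16638856)) (a (l 16664376) (l 16657328))) (b (a (l 16651432) (l 16644560)) (l 16625376)))) (a (a (b (a (b (l 16681616) (l 16692504)) (b (l 16685224) (l 16685432))) (a (l 16672000) (l 16685568))) (b (a (l 16678208) (l 16670984)) (l 16653072))) (a (b (a (l 16663536) (l 16655920)) (l 16658160)) (b (l 16644232) (l 16641824))))) (a (b (a (b (l 16612864)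 (l 16631192)) (b (l 16619032) (l 16615600))) (b (a (l 16628264) (l 16612000)) (a (l 16625184) (l 16608712)))) (b (a (b (l 16603800) (l 16599704)) (l 16554616)) (b (l 16546152) (l 16584608))))) (a (a (b (a (b (l 16647336) (l 16688784)) (b (l 16673008) (l 16671680))) (b (l 16637192) (l 16636648))) (b (b (a (l 16656296) (l 16639272)) (l 16603696)) (b (l 16644256) (l 16643424)))) (b (a (a (l 16621280) (l 16604608)) (l 16580800)) (b (a (l 16610504) (l 16578864)) (a (l 16610168) (l 16578768)))))), by decide +kernel⟩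

def k8_B00pp_022_s1 : ∃ t, chk3 f_B00pp_022_s1 t 17 14 1 = true :=
  ⟨(b (a (b (a (a (l 16570864) (l 16555752)) (l 16492352)) (a (a (l 16563136) (l 16548392)) (l 16527176))) (b (a (l 16507432) (l 16482576)) (a (l 16500624) (l 16476096)))) (a (b (a (l 16550728) (l 16522600)) (a (b (l 16549128) (l 16549280)) (b (l 16521328) (l 16521736)))) (b (a (l 16496440) (l 16472312)) (l 377453071511)))), by decide +kernel⟩

def k9_B00pp_022_s1 : ∃ t, chk3 f_B00pp_022_s1 t 32 60 1 = true :=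
  ⟨(b (b (a (l 16657584) (l 16622696)) (a (a (b (l 16687776) (l 16687984)) (l 16670040)) (a (l 16652656) (l 16635736)))) (b (b (a (a (a (c (l 16691720) (l 16693840)) (l 16683768)) (c (l 16671152) (l 16669800))) (a (c (l 16655184) (l 16651088)) (a (l 16640448) (l 16632128)))) (a (b (a (a (c (b (l 16691920) (l 16692192)) (l 16694216)) (c (b (l 16683600) (l 16683808)) (l 16684496))) (a (c (b (l 16675416) (l 16670328)) (l 16674904)) (c (l 16662184) (l 16654944)))) (a (a (c (l 16693024) (l 16695112)) (c (l 16684576) (l 16685320))) (c (c (l 16672456) (l 16671824)) (a (l 16675656) (l 16666112))))) (b (a (a (c (l 16648952) (l 16645576)) (a (l 16646080) (l 16641824))) (a (a (l 16637616) (l 16633432)) (a (l 16629272) (l 16630392)))) (a (a (c (l 16659992) (l 16656688)) (c (l 16646792) (l 16647368))) (a (c (a (l 16646152) (l 16631784)) (c (l 16634456) (l 16631408))) (c (a (l 16633184) (l 16629368)) (b (b (l 16623624) (l 16618536)) (l 16618896)))))))) (b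 (b (a (a (a (c (l 16694120) (l 16696144)) (c (l 16685608) (l 16686336))) (c (c (l 16673392) (l 16672784)) (a (l 16676656) (l 16667104)))) (a (a (c (l 16660856) (l 16657664)) (c (l 16652856) (l 16648352))) (a (c (l 16634504) (l 16633920)) (c (l 16626760) (l 16624856))))) (l 14)) (l 14)))), by decide +kernel⟩

def k10_B00pp_022_s1 : ∃ t, chk3 f_B00pp_022_s1 t 33 120 1 = true :=
  ⟨(a (b (l 16568656) (a (l 16619264) (l 16603264))) (b (l 16537448) (a (l 16566752) (l 16551696)))), by decide +kernel⟩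

def k11_B00pp_022_s1 : ∃ t, chk3 f_B00pp_022_s1 t 33 242 1 = true :=
  ⟨(b (a (a (a (l 16623920) (l 16615824)) (a (l 16607848) (l 16599992))) (a (a (l 16592248) (l 16584632)) (a (l 16577128) (l 16569744)))) (a (b (a (a (a (l 16626296) (l 16622224)) (a (l 16618184) (l 16614176))) (a (a (l 16610192) (l 16606240)) (a (l 16591832) (l 16587944)))) (a (a (c (b (l 16623592) (l 16629120)) (b (a (l 16611776) (l 16607360)) (l 16615200))) (b (c (l 16616176) (a (l 16602984) (l 16609120))) (c (l 16611176) (l 16606384)))) (b (a (c (l 16603632) (a (l 16604792) (l 16600504))) (c (l 16596448) (a (l 16596248) (l 16592024)))) (a (c (a (l 16616144) (l 16612496)) (a (l 16605096) (l 16595536))) (c (a (l 16608896) (l 16594832)) (c (l 16592344) (b (l 16585792) (l 16591264)))))))) (c (a (a (b (l 16599664) (a (l 16591232) (l 16587728))) (a (l 16584112) (l 16580656))) (a (a (l 16566752) (l 16584328)) (l 16568808))) (c (a (b (l 16585112) (a (b (l 16589312) (b (l 16589440)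 (l 16589584))) (a (l 16572976) (l 16579528)))) (b (l 16569488) (a (l 16568432) (l 16565976)))) (a (b (l 16577632) (b (a (l 16582168) (l 16573576)) (a (b (l 16577056) (l 16577232)) (b (l 16573688) (a (l 16575968) (l 16571680)))))) (b (l 16560680) (a (b (l 16565104) (a (l 16556912) (l 16563192))) (b (l 16556760) (l 16551696))))))))), by decide +kernel⟩

def k12_B00pp_022_s1 : ∃ t, chk3 f_B00pp_022_s1 t 33 243 1 = true :=
  ⟨(a (b (b (c (a (a (l 16624384) (l 16616896)) (c (a (l 16617512) (l 16610600)) (a (l 16612016) (l 16604448)))) (a (a (a (l 16623384) (l 16618944)) (a (l 16614536) (l 16599672))) (a (a (l 16595328) (l 16591008)) (a (l 16591968) (l 16587720))))) (l 14)) (l 14)) (a (b (b (a (c (a (l 16602184) (l 16598656)) (c (l 16590112) (l 16577896))) (c (c (l 16597144) (l 16589688)) (c (l 16582128) (a (l 16576640) (l 16572336))))) (l 14)) (l 14)) (b (b (a (c (l 16576072) (c (l 16574272) (a (l 16568072) (l 16563840)))) (c (a (l 16560520) (l 16557176))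 (c (a (l 16568464) (l 16564624)) (a (l 16549152) (b (l 16544704) (l 16555744)))))) (a (l 14) (a (l 14) (c (l 16557640) (a (l 14) (a (l 14) (l 16549056))))))) (a (l 14) (a (l 14) (a (l 14) (l 1))))))), by decide +kernel⟩

def k13_B00pp_022_s1 : ∃ t, chk3 f_B00pp_022_s1 t 16 61 1 = true :=
  ⟨(a (l 14) (a (l 14) (a (l 14) (a (l 14) (a (l 14) (l 1)))))), by decide +kernel⟩

def k14_B00pp_022_s1 : ∃ t, chk3 f_B00pp_022_s1 t 16 31 1 = true :=
  ⟨(a (l 14) (a (l 14) (l 1))), by decide +kernel⟩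

def k15_B00pp_022_s1 : ∃ t, chk3 f_B00pp_022_s1 t 17 15 1 = true :=
  ⟨(b (a (a (b (b (a (b (l 16557248) (l 16537120)) (l 445635902039)) (a (a (b (a (c (l 16553048) (a (a (l 16546008) (l 16545024)) (l 16543544))) (l 463889547991)) (b (b (a (a (c (l 16575664) (c (l 16561760) (l 16541864))) (l 1)) (l 1)) (l 1)) (l 1))) (b (l 391411964199) (l 1))) (l 1))) (l 1)) (l 1)) (l 1)) (l 1)), by decide +kernel⟩

def k16_B00pp_022_s1 : ∃ t, chk3 f_B00pp_022_s1 t 9 3 1 = true :=
  ⟨(b (b (a (b (l 6) (a (a (l 16444632) (l 16423224)) (l 16395328))) (l 6)) (a (b (a (a (l 16414328) (l 16393048)) (c (l 16469936) (l 16427688))) (a (b (l 16384304) (a (l 16468376) (l 16447408))) (a (l 16349552) (l 1)))) (b (a (l 16335552) (l 1)) (l 1)))) (b (a (b (a (b (a (l 16459776) (l 16439072)) (l 16359248)) (l 1)) (l 1)) (l 1)) (l 1))), by decide +kernel⟩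

def k17_B00pp_022_s1 : ∃ t, chk3 f_B00pp_022_s1 t 5 1 1 = true :=
  ⟨(b (l 6) (b (l 1) (l 1))), by decide +kernel⟩

def k18_B00pp_022_s1 : ∃ t, chk3 f_B00pp_022_s1 t 3 1 1 = true :=
  ⟨(l 1), by decide +kernel⟩

theorem t19_B00pp_022_s1 : ∃ t, chk3 f_B00pp_022_s1 t 33 121 1 = true := ex3_b k11_B00pp_022_s1 k12_B00pp_022_s1

theorem t20_B00pp_022_s1 : ∃ t, chk3 f_B00pp_022_s1 t 33 60 1 = true := ex3_b k10_B00pp_022_s1 t19_B00pp_022_s1

theorem t21_B00pp_022_s1 : ∃ t, chk3 f_B00pp_022_s1 t 16 60 1 = true := ex3_a k9_B00pp_022_s1 t20_B00pp_022_s1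

theorem t22_B00pp_022_s1 : ∃ t, chk3 f_B00pp_022_s1 t 16 30 1 = true := ex3_b t21_B00pp_022_s1 k13_B00pp_022_s1

theorem t23_B00pp_022_s1 : ∃ t, chk3 f_B00pp_022_s1 t 16 15 1 = true := ex3_b t22_B00pp_022_s1 k14_B00pp_022_s1

theorem t24_B00pp_022_s1 : ∃ t, chk3 f_B00pp_022_s1 t 8 15 1 = true := ex3_a t23_B00pp_022_s1 k15_B00pp_022_s1

theorem t25_B00pp_022_s1 : ∃ t, chk3 f_B00pp_022_s1 t 8 14 1 = true := ex3_a k7_B00pp_022_s1 k8_B00pp_022_s1

theorem t26_B00pp_022_s1 : ∃ t, chk3 f_B00pp_022_s1 t 8 7 1 = true := ex3_b t25_B00pp_022_s1 t24_B00pp_022_s1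

theorem t27_B00pp_022_s1 : ∃ t, chk3 f_B00pp_022_s1 t 32 27 1 = true := ex3_a k3_B00pp_022_s1 k4_B00pp_022_s1

theorem t28_B00pp_022_s1 : ∃ t, chk3 f_B00pp_022_s1 t 32 13 1 = true := ex3_b k2_B00pp_022_s1 t27_B00pp_022_s1

theorem t29_B00pp_022_s1 : ∃ t, chk3 f_B00pp_022_s1 t 16 13 1 = true := ex3_a t28_B00pp_022_s1 k5_B00pp_022_s1

theorem t30_B00pp_022_s1 : ∃ t, chk3 f_B00pp_022_s1 t 16 6 1 = true := ex3_b k1_B00pp_022_s1 t29_B00pp_022_s1

theorem t31_B00pp_022_s1 : ∃ t, chk3 f_B00pp_022_s1 t 8 6 1 = true := ex3_a t30_B00pp_022_s1 k6_B00pp_022_s1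

theorem t32_B00pp_022_s1 : ∃ t, chk3 f_B00pp_022_s1 t 8 3 1 = true := ex3_b t31_B00pp_022_s1 t26_B00pp_022_s1

theorem t33_B00pp_022_s1 : ∃ t, chk3 f_B00pp_022_s1 t 4 3 1 = true := ex3_a t32_B00pp_022_s1 k16_B00pp_022_s1

theorem t34_B00pp_022_s1 : ∃ t, chk3 f_B00pp_022_s1 t 4 1 1 = true := ex3_b k0_B00pp_022_s1 t33_B00pp_022_s1

theorem t35_B00pp_022_s1 : ∃ t, chk3 f_B00pp_022_s1 t 2 1 1 = true := ex3_a t34_B00pp_022_s1 k17_B00pp_022_s1

theorem t36_B00pp_022_s1 : ∃ t, chk3 f_B00pp_022_s1 t 1 1 1 = true := ex3_a t35_B00pp_022_s1 k18_B00pp_022_s1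

theorem c_B00pp_022_s1 : CertF 0 536870912 0 536870912 1020054732 13421774 false true true .pp 0 2 2
    ndB0q0 ndB0q2 pcB2 cut_B00pp_022_s1 Ext.none :=
  certF2 (fam := false) (s1 := true) (s2 := true) (a := 0) (b := 2) (c := 2) (cn := .pp) (n1 := ndB0q0) (n2 := ndB0q2) (pc := pcB2) (cut := cut_B00pp_022_s1) (xt := Ext.none) (P1 := 0) (W1 := 536870912) (P2 := 0) (W2 := 536870912) (P3 := 1020054732) (W3 := 13421774)
    rfl (fun _ => rfl) t36_B00pp_022_s1

theorem s_B00pp_022_s1 {κ x : ℝ} (hκ : κ * h0 = ken x) (hx : ((1020054732 : ℕ) : ℝ) / S ≤ x)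
    (hx' : x ≤ (((1020054732 : ℕ) : ℝ) + (13421774 : ℕ)) / S)
    (H : CutB (VFD κ) PP tK tL pcB (Cut.of [[⟨0, 0, 0, 33554432⟩, ⟨1, 1, 0, 33554432⟩, ⟨2, 1, 0, 33554432⟩]]) 0 2 2 0 0 (sgb true) (sgb true) x) :
    AltB (VFD κ) PP tK tL pcB [⟨3, 0, 0, 1449551462⟩] 0 2 2 0 0 (sgb true) (sgb true) x :=
  strip_altBD (m := 1449551462) true rfl hκ (SH.κ0 hκ (SH.hx1 hx).le (SH.hx2 hx').le) (SH.hx1 hx).le (SH.hx2 hx') (covB00).cov (covB02).cov hx hx' c_B00pp_022_s1 H (noExt_B)

noncomputable def cut_B00pp_022_s3 : Cut := Cut.of [[⟨3, 0, 0, 2845415833⟩], [⟨0, 0, 0, 33554432⟩, ⟨1, 1, 0, 33554432⟩, ⟨2, 1, 0, 33554432⟩]]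

noncomputable def f_B00pp_022_s3 : ℕ → ℕ → ℕ → ℕ → Bool := onCell 0 536870912 0 536870912 1020054732 13421774
    (rowF 0 false true true .pp 0 2 2 (qsf 0 536870912 0 536870912 2) ndB0q0 ndB0q2 pcB2 cut_B00pp_022_s3 Ext.none)

def k0_B00pp_022_s3 : ∃ t, chk3 f_B00pp_022_s3 t 1 1 1 = true :=
  ⟨(l 6), by decide +kernel⟩

theorem c_B00pp_022_s3 : CertF 0 536870912 0 536870912 1020054732 13421774 false true true .pp 0 2 2
    ndB0q0 ndB0q2 pcB2 cut_B00pp_022_s3 Ext.none :=
  certF0 (fam := false) (s1 := true) (s2 := true) (a := 0) (b := 2) (c := 2) (cn := .pp) (n1 := ndB0q0) (n2 := ndB0q2) (pc := pcB2) (cut := cut_B00pp_022_s3) (xt := Ext.none) (P1 := 0) (W1 := 536870912) (P2 := 0) (W2 := 536870912) (P3 := 1020054732) (W3 := 13421774)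
    rfl k0_B00pp_022_s3

theorem s_B00pp_022_s3 {κ x : ℝ} (hκ : κ * h0 = ken x) (hx : ((1020054732 : ℕ) : ℝ) / S ≤ x)
    (hx' : x ≤ (((1020054732 : ℕ) : ℝ) + (13421774 : ℕ)) / S)
    (H : CutB (VFD κ) PP tK tL pcB (Cut.of [[⟨0, 0, 0, 33554432⟩, ⟨1, 1, 0, 33554432⟩, ⟨2, 1, 0, 33554432⟩]]) 0 2 2 0 0 (sgb true) (sgb true) x) :
    AltB (VFD κ) PP tK tL pcB [⟨4, 0, 0, 2845415833⟩] 0 2 2 0 0 (sgb true) (sgb true) x :=
  strip_altBD (m := 2845415833) false rfl hκ (SH.κ0 hκ (SH.hx1 hx).le (SH.hx2 hx').le) (SH.hx1 hx).le (SH.hx2 hx') (covB00).cov (covB02).cov hx hx' c_B00pp_022_s3 H (noExt_B)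

noncomputable def cut_B00pp_101_s1 : Cut := Cut.of [[⟨4, 0, 0, 1449551462⟩]]

noncomputable def f_B00pp_101_s1 : ℕ → ℕ → ℕ → ℕ → Bool := onCell 536870912 536870912 536870912 536870912 1020054732 13421774
    (rowF 0 false true true .npn 1 0 1 (qsf 536870912 536870912 536870912 536870912 0) ndB0q1 ndB0q1 pcB0 cut_B00pp_101_s1 Ext.none)

def k0_B00pp_101_s1 : ∃ t, chk3 f_B00pp_101_s1 t 1 1 1 = true :=
  ⟨(l 3), by decide +kernel⟩

theorem c_B00pp_101_s1 : CertF 536870912 536870912 536870912 536870912 1020054732 13421774 false true true .npn 1 0 1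
    ndB0q1 ndB0q1 pcB0 cut_B00pp_101_s1 Ext.none :=
  certF0 (fam := false) (s1 := true) (s2 := true) (a := 1) (b := 0) (c := 1) (cn := .npn) (n1 := ndB0q1) (n2 := ndB0q1) (pc := pcB0) (cut := cut_B00pp_101_s1) (xt := Ext.none) (P1 := 536870912) (W1 := 536870912) (P2 := 536870912) (W2 := 536870912) (P3 := 1020054732) (W3 := 13421774)
    rfl k0_B00pp_101_s1

theorem s_B00pp_101_s1 {κ x : ℝ} (hκ : κ * h0 = ken x) (hx : ((1020054732 : ℕ) : ℝ) / S ≤ x)
    (hx' : x ≤ (((1020054732 : ℕ) : ℝ) + (13421774 : ℕ)) / S) :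
    AltB (VFD κ) PP tK tL pcB [⟨3, 0, 0, 1449551462⟩] 1 0 1 0 0 (sgb true) (sgb true) x :=
  strip_altBD (m := 1449551462) true rfl hκ (SH.κ0 hκ (SH.hx1 hx).le (SH.hx2 hx').le) (SH.hx1 hx).le (SH.hx2 hx') (covB01).cov (covB01).cov hx hx' c_B00pp_101_s1 cutB_nil (noExt_B)

noncomputable def cut_B00pp_101_s3 : Cut := Cut.of [[⟨3, 0, 0, 2845415833⟩]]

noncomputable def f_B00pp_101_s3 : ℕ → ℕ → ℕ → ℕ → Bool := onCell 536870912 536870912 536870912 536870912 1020054732 13421774
    (rowF 0 false true true .npn 1 0 1 (qsf 536870912 536870912 536870912 536870912 0) ndB0q1 ndB0q1 pcB0 cut_B00pp_101_s3 Ext.none)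

def k0_B00pp_101_s3 : ∃ t, chk3 f_B00pp_101_s3 t 1 1 1 = true :=
  ⟨(l 3), by decide +kernel⟩

theorem c_B00pp_101_s3 : CertF 536870912 536870912 536870912 536870912 1020054732 13421774 false true true .npn 1 0 1
    ndB0q1 ndB0q1 pcB0 cut_B00pp_101_s3 Ext.none :=
  certF0 (fam := false) (s1 := true) (s2 := true) (a := 1) (b := 0) (c := 1) (cn := .npn) (n1 := ndB0q1) (n2 := ndB0q1) (pc := pcB0) (cut := cut_B00pp_101_s3) (xt := Ext.none) (P1 := 536870912) (W1 := 536870912) (P2 := 536870912) (W2 := 536870912) (P3 := 1020054732) (W3 := 13421774)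
    rfl k0_B00pp_101_s3

theorem s_B00pp_101_s3 {κ x : ℝ} (hκ : κ * h0 = ken x) (hx : ((1020054732 : ℕ) : ℝ) / S ≤ x)
    (hx' : x ≤ (((1020054732 : ℕ) : ℝ) + (13421774 : ℕ)) / S) :
    AltB (VFD κ) PP tK tL pcB [⟨4, 0, 0, 2845415833⟩] 1 0 1 0 0 (sgb true) (sgb true) x :=
  strip_altBD (m := 2845415833) false rfl hκ (SH.κ0 hκ (SH.hx1 hx).le (SH.hx2 hx').le) (SH.hx1 hx).le (SH.hx2 hx') (covB01).cov (covB01).cov hx hx' c_B00pp_101_s3 cutB_nil (noExt_B)

noncomputable def cut_B00pp_102_s1 : Cut := Cut.of [[⟨4, 0, 0, 1449551462⟩]]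

noncomputable def f_B00pp_102_s1 : ℕ → ℕ → ℕ → ℕ → Bool := onCell 0 536870912 0 536870912 1020054732 13421774
    (rowF 2 false true true .npp 1 0 2 (qsf 536870912 536870912 0 536870912 0) ndB0q1 ndB0q2 pcB0 cut_B00pp_102_s1 Ext.none)

def k0_B00pp_102_s1 : ∃ t, chk3 f_B00pp_102_s1 t 1 1 1 = true :=
  ⟨(a (b (l 3) (l 3)) (l 3)), by decide +kernel⟩

theorem c_B00pp_102_s1 : CertF 536870912 536870912 0 536870912 1020054732 13421774 false true true .npp 1 0 2
    ndB0q1 ndB0q2 pcB0 cut_B00pp_102_s1 Ext.none :=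
  certF2 (fam := false) (s1 := true) (s2 := true) (a := 1) (b := 0) (c := 2) (cn := .npp) (n1 := ndB0q1) (n2 := ndB0q2) (pc := pcB0) (cut := cut_B00pp_102_s1) (xt := Ext.none) (P1 := 536870912) (W1 := 536870912) (P2 := 0) (W2 := 536870912) (P3 := 1020054732) (W3 := 13421774)
    rfl (fun _ => rfl) k0_B00pp_102_s1

theorem s_B00pp_102_s1 {κ x : ℝ} (hκ : κ * h0 = ken x) (hx : ((1020054732 : ℕ) : ℝ) / S ≤ x)
    (hx' : x ≤ (((1020054732 : ℕ) : ℝ) + (13421774 : ℕ)) / S) :
    AltB (VFD κ) PP tK tL pcB [⟨3, 0, 0, 1449551462⟩] 1 0 2 0 0 (sgb true) (sgb true) x :=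
  strip_altBD (m := 1449551462) true rfl hκ (SH.κ0 hκ (SH.hx1 hx).le (SH.hx2 hx').le) (SH.hx1 hx).le (SH.hx2 hx') (covB01).cov (covB02).cov hx hx' c_B00pp_102_s1 cutB_nil (noExt_B)

noncomputable def cut_B00pp_102_s3 : Cut := Cut.of [[⟨3, 0, 0, 2845415833⟩]]

noncomputable def f_B00pp_102_s3 : ℕ → ℕ → ℕ → ℕ → Bool := onCell 536870912 536870912 0 536870912 1020054732 13421774
    (rowF 0 false true true .npp 1 0 2 (qsf 536870912 536870912 0 536870912 0) ndB0q1 ndB0q2 pcB0 cut_B00pp_102_s3 Ext.none)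

def k0_B00pp_102_s3 : ∃ t, chk3 f_B00pp_102_s3 t 1 1 1 = true :=
  ⟨(l 6), by decide +kernel⟩

theorem c_B00pp_102_s3 : CertF 536870912 536870912 0 536870912 1020054732 13421774 false true true .npp 1 0 2
    ndB0q1 ndB0q2 pcB0 cut_B00pp_102_s3 Ext.none :=
  certF0 (fam := false) (s1 := true) (s2 := true) (a := 1) (b := 0) (c := 2) (cn := .npp) (n1 := ndB0q1) (n2 := ndB0q2) (pc := pcB0) (cut := cut_B00pp_102_s3) (xt := Ext.none) (P1 := 536870912) (W1 := 536870912) (P2 := 0) (W2 := 536870912) (P3 := 1020054732) (W3 := 13421774)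
    rfl k0_B00pp_102_s3

theorem s_B00pp_102_s3 {κ x : ℝ} (hκ : κ * h0 = ken x) (hx : ((1020054732 : ℕ) : ℝ) / S ≤ x)
    (hx' : x ≤ (((1020054732 : ℕ) : ℝ) + (13421774 : ℕ)) / S) :
    AltB (VFD κ) PP tK tL pcB [⟨4, 0, 0, 2845415833⟩] 1 0 2 0 0 (sgb true) (sgb true) x :=
  strip_altBD (m := 2845415833) false rfl hκ (SH.κ0 hκ (SH.hx1 hx).le (SH.hx2 hx').le) (SH.hx1 hx).le (SH.hx2 hx') (covB01).cov (covB02).cov hx hx' c_B00pp_102_s3 cutB_nil (noExt_B)

noncomputable def cut_B00pp_112_s1 : Cut := Cut.of [[⟨4, 0, 0, 1449551462⟩]]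

noncomputable def xt_B00pp_112_s1 : Ext := strExt dd false true true .u0 .u2 .u0m .dn 1 1 2 rfl rfl gf1 vv ndB0q1 ndB0q2

noncomputable def f_B00pp_112_s1 : ℕ → ℕ → ℕ → ℕ → Bool := onCell 536870912 536870912 0 536870912 1020054732 13421774
    (rowF 0 false true true .dn 1 1 2 (qsf 536870912 536870912 0 536870912 1) ndB0q1 ndB0q2 pcB1 cut_B00pp_112_s1 xt_B00pp_112_s1)

def k0_B00pp_112_s1 : ∃ t, chk3 f_B00pp_112_s1 t 1 1 1 = true :=
  ⟨(b (a (a (b (b (a (a (a (c (c (b (l 530187023) (l 530040079)) (l 530509583)) (c (l 532345615) (b (l 532941071) (l 532825615)))) (c (c (b (l 529641487) (l 529491471)) (b (l 531507727) (l 531399951))) (c (b (l 533154831) (l 533086991)) (c (l 533985039) (l 532736783))))) (a (c (c (b (l 528825103) (l 528672271)) (b (l 531114767) (l 531007503))) (c (b (l 532866063) (l 532800271)) (b (l 533329679) (l 533303055)))) (b (c (c (l 527741199) (l 530196239)) (a (l 531867407) (l 531752719))) (l 3)))) (b (a (a (c (c (l 526661647)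 (l 530366735)) (c (l 532337167) (l 533455375))) (l 3)) (l 3)) (l 3))) (a (a (a (b (c (c (l 529807631) (l 531626767)) (a (l 532493583) (l 532626959))) (l 3)) (l 3)) (l 3)) (l 3))) (l 3)) (l 3)) (l 1)) (l 3)), by decide +kernel⟩

theorem c_B00pp_112_s1 : CertF 536870912 536870912 0 536870912 1020054732 13421774 false true true .dn 1 1 2
    ndB0q1 ndB0q2 pcB1 cut_B00pp_112_s1 xt_B00pp_112_s1 :=
  certF0 (fam := false) (s1 := true) (s2 := true) (a := 1) (b := 1) (c := 2) (cn := .dn) (n1 := ndB0q1) (n2 := ndB0q2) (pc := pcB1) (cut := cut_B00pp_112_s1) (xt := xt_B00pp_112_s1) (P1 := 536870912) (W1 := 536870912) (P2 := 0) (W2 := 536870912) (P3 := 1020054732) (W3 := 13421774)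
    rfl k0_B00pp_112_s1

theorem s_B00pp_112_s1 {κ x : ℝ} (hκ : κ * h0 = ken x) (hx : ((1020054732 : ℕ) : ℝ) / S ≤ x)
    (hx' : x ≤ (((1020054732 : ℕ) : ℝ) + (13421774 : ℕ)) / S) :
    AltB (VFD κ) PP tK tL pcB [⟨3, 0, 0, 1449551462⟩] 1 1 2 0 0 (sgb true) (sgb true) x :=
  strip_altBD (m := 1449551462) true rfl hκ (SH.κ0 hκ (SH.hx1 hx).le (SH.hx2 hx').le) (SH.hx1 hx).le (SH.hx2 hx') (covB01).cov (covB02).cov hx hx' c_B00pp_112_s1 cutB_nil ((okx hx hx').extB (T := tt) (sideB hx hx') hκ rfl rfl (.O 1 true) (.O 2 true) (Or.inr rfl))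

noncomputable def cut_B00pp_112_s3 : Cut := Cut.of [[⟨3, 0, 0, 2845415833⟩]]

noncomputable def f_B00pp_112_s3 : ℕ → ℕ → ℕ → ℕ → Bool := onCell 536870912 536870912 0 536870912 1020054732 13421774
    (rowF 0 false true true .dn 1 1 2 (qsf 536870912 536870912 0 536870912 1) ndB0q1 ndB0q2 pcB1 cut_B00pp_112_s3 Ext.none)

def k0_B00pp_112_s3 : ∃ t, chk3 f_B00pp_112_s3 t 1 1 1 = true :=
  ⟨(l 6), by decide +kernel⟩

theorem c_B00pp_112_s3 : CertF 536870912 536870912 0 536870912 1020054732 13421774 false true true .dn 1 1 2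
    ndB0q1 ndB0q2 pcB1 cut_B00pp_112_s3 Ext.none :=
  certF0 (fam := false) (s1 := true) (s2 := true) (a := 1) (b := 1) (c := 2) (cn := .dn) (n1 := ndB0q1) (n2 := ndB0q2) (pc := pcB1) (cut := cut_B00pp_112_s3) (xt := Ext.none) (P1 := 536870912) (W1 := 536870912) (P2 := 0) (W2 := 536870912) (P3 := 1020054732) (W3 := 13421774)
    rfl k0_B00pp_112_s3

theorem s_B00pp_112_s3 {κ x : ℝ} (hκ : κ * h0 = ken x) (hx : ((1020054732 : ℕ) : ℝ) / S ≤ x)
    (hx' : x ≤ (((1020054732 : ℕ) : ℝ) + (13421774 : ℕ)) / S) :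
    AltB (VFD κ) PP tK tL pcB [⟨4, 0, 0, 2845415833⟩] 1 1 2 0 0 (sgb true) (sgb true) x :=
  strip_altBD (m := 2845415833) false rfl hκ (SH.κ0 hκ (SH.hx1 hx).le (SH.hx2 hx').le) (SH.hx1 hx).le (SH.hx2 hx') (covB01).cov (covB02).cov hx hx' c_B00pp_112_s3 cutB_nil (noExt_B)

noncomputable def cut_B00pp_202_s1 : Cut := Cut.of [[⟨4, 0, 0, 1449551462⟩]]

noncomputable def f_B00pp_202_s1 : ℕ → ℕ → ℕ → ℕ → Bool := onCell 0 536870912 0 536870912 1020054732 13421774
    (rowF 0 false true true .pp 2 0 2 (qsf 0 536870912 0 536870912 0) ndB0q2 ndB0q2 pcB0 cut_B00pp_202_s1 Ext.none)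

def k0_B00pp_202_s1 : ∃ t, chk3 f_B00pp_202_s1 t 1 1 1 = true :=
  ⟨(l 3), by decide +kernel⟩

theorem c_B00pp_202_s1 : CertF 0 536870912 0 536870912 1020054732 13421774 false true true .pp 2 0 2
    ndB0q2 ndB0q2 pcB0 cut_B00pp_202_s1 Ext.none :=
  certF0 (fam := false) (s1 := true) (s2 := true) (a := 2) (b := 0) (c := 2) (cn := .pp) (n1 := ndB0q2) (n2 := ndB0q2) (pc := pcB0) (cut := cut_B00pp_202_s1) (xt := Ext.none) (P1 := 0) (W1 := 536870912) (P2 := 0) (W2 := 536870912) (P3 := 1020054732) (W3 := 13421774)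
    rfl k0_B00pp_202_s1

theorem s_B00pp_202_s1 {κ x : ℝ} (hκ : κ * h0 = ken x) (hx : ((1020054732 : ℕ) : ℝ) / S ≤ x)
    (hx' : x ≤ (((1020054732 : ℕ) : ℝ) + (13421774 : ℕ)) / S) :
    AltB (VFD κ) PP tK tL pcB [⟨3, 0, 0, 1449551462⟩] 2 0 2 0 0 (sgb true) (sgb true) x :=
  strip_altBD (m := 1449551462) true rfl hκ (SH.κ0 hκ (SH.hx1 hx).le (SH.hx2 hx').le) (SH.hx1 hx).le (SH.hx2 hx') (covB02).cov (covB02).cov hx hx' c_B00pp_202_s1 cutB_nil (noExt_B)

noncomputable def cut_B00pp_202_s3 : Cut := Cut.of [[⟨3, 0, 0, 2845415833⟩]]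

noncomputable def f_B00pp_202_s3 : ℕ → ℕ → ℕ → ℕ → Bool := onCell 0 536870912 0 536870912 1020054732 13421774
    (rowF 0 false true true .pp 2 0 2 (qsf 0 536870912 0 536870912 0) ndB0q2 ndB0q2 pcB0 cut_B00pp_202_s3 Ext.none)

def k0_B00pp_202_s3 : ∃ t, chk3 f_B00pp_202_s3 t 1 1 1 = true :=
  ⟨(l 3), by decide +kernel⟩

theorem c_B00pp_202_s3 : CertF 0 536870912 0 536870912 1020054732 13421774 false true true .pp 2 0 2
    ndB0q2 ndB0q2 pcB0 cut_B00pp_202_s3 Ext.none :=
  certF0 (fam := false) (s1 := true) (s2 := true) (a := 2) (b := 0) (c := 2) (cn := .pp) (n1 := ndB0q2) (n2 := ndB0q2) (pc := pcB0) (cut := cut_B00pp_202_s3) (xt := Ext.none) (P1 := 0) (W1 := 536870912) (P2 := 0) (W2 := 536870912) (P3 := 1020054732) (W3 := 13421774)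
    rfl k0_B00pp_202_s3

theorem s_B00pp_202_s3 {κ x : ℝ} (hκ : κ * h0 = ken x) (hx : ((1020054732 : ℕ) : ℝ) / S ≤ x)
    (hx' : x ≤ (((1020054732 : ℕ) : ℝ) + (13421774 : ℕ)) / S) :
    AltB (VFD κ) PP tK tL pcB [⟨4, 0, 0, 2845415833⟩] 2 0 2 0 0 (sgb true) (sgb true) x :=
  strip_altBD (m := 2845415833) false rfl hκ (SH.κ0 hκ (SH.hx1 hx).le (SH.hx2 hx').le) (SH.hx1 hx).le (SH.hx2 hx') (covB02).cov (covB02).cov hx hx' c_B00pp_202_s3 cutB_nil (noExt_B)

noncomputable def cut_B00pm_001_s1 : Cut := Cut.of [[⟨4, 0, 0, 1449551462⟩]]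

noncomputable def f_B00pm_001_s1 : ℕ → ℕ → ℕ → ℕ → Bool := onCell 0 536870912 536870912 536870912 1020054732 13421774
    (rowF 0 false true false .up 0 0 1 (qsf 0 536870912 536870912 536870912 0) ndB0q0 ndB0q1 pcB0 cut_B00pm_001_s1 Ext.none)

def k0_B00pm_001_s1 : ∃ t, chk3 f_B00pm_001_s1 t 1 1 1 = true :=
  ⟨(l 6), by decide +kernel⟩

theorem c_B00pm_001_s1 : CertF 0 536870912 536870912 536870912 1020054732 13421774 false true false .up 0 0 1
    ndB0q0 ndB0q1 pcB0 cut_B00pm_001_s1 Ext.none :=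
  certF0 (fam := false) (s1 := true) (s2 := false) (a := 0) (b := 0) (c := 1) (cn := .up) (n1 := ndB0q0) (n2 := ndB0q1) (pc := pcB0) (cut := cut_B00pm_001_s1) (xt := Ext.none) (P1 := 0) (W1 := 536870912) (P2 := 536870912) (W2 := 536870912) (P3 := 1020054732) (W3 := 13421774)
    rfl k0_B00pm_001_s1

theorem s_B00pm_001_s1 {κ x : ℝ} (hκ : κ * h0 = ken x) (hx : ((1020054732 : ℕ) : ℝ) / S ≤ x)
    (hx' : x ≤ (((1020054732 : ℕ) : ℝ) + (13421774 : ℕ)) / S) :
    AltB (VFD κ) PP tK tL pcB [⟨3, 0, 0, 1449551462⟩] 0 0 1 0 0 (sgb true) (sgb false) x :=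
  strip_altBD (m := 1449551462) true rfl hκ (SH.κ0 hκ (SH.hx1 hx).le (SH.hx2 hx').le) (SH.hx1 hx).le (SH.hx2 hx') (covB00).cov (covB01).cov hx hx' c_B00pm_001_s1 cutB_nil (noExt_B)

noncomputable def cut_B00pm_001_s3 : Cut := Cut.of [[⟨3, 0, 0, 2845415833⟩]]

noncomputable def xt_B00pm_001_s3 : Ext := strExt dd false true false .u0 .u0m .s0m .up 0 0 1 rfl rfl gl0 vv ndB0q0 ndB0q1

noncomputable def f_B00pm_001_s3 : ℕ → ℕ → ℕ → ℕ → Bool := onCell 0 536870912 536870912 536870912 1020054732 13421774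
    (rowF 2 false true false .up 0 0 1 (qsf 0 536870912 536870912 536870912 0) ndB0q0 ndB0q1 pcB0 cut_B00pm_001_s3 xt_B00pm_001_s3)

def k0_B00pm_001_s3 : ∃ t, chk3 f_B00pm_001_s3 t 2 1 1 = true :=
  ⟨(b (a (b (b (l 4) (a (a (l 2) (l 528385295)) (a (l 529033487) (b (l 4) (l 529776143))))) (b (a (l 2) (a (l 2) (l 530145295))) (l 2))) (b (l 4) (b (b (a (a (l 530570511) (a (l 530929935) (l 4))) (l 4)) (a (a (l 530806799) (l 531274767)) (a (a (l 531314959) (l 531764495)) (b (l 4) (l 532010255))))) (a (b (a (l 2) (l 531487503)) (l 2)) (a (b (a (l 531798031) (l 531981071)) (l 532079119)) (b (a (l 532147727) (l 532055567)) (a (l 532341775) (l 532214287)))))))) (a (l 2) (b (b (a (l 2) (b (a (l 2) (l 532165391)) (l 2))) (l 2)) (l 2)))), by decide +kernel⟩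

def k1_B00pm_001_s3 : ∃ t, chk3 f_B00pm_001_s3 t 3 2 1 = true :=
  ⟨(b (l 4) (a (b (l 4) (b (a (a (a (l 531884047) (b (l 4) (l 531761423))) (a (b (l 4) (l 531605519)) (l 4))) (l 4)) (a (a (b (a (l 532009231) (l 531844879)) (a (l 532084239) (l 531922447))) (a (b (l 531692559) (l 531773199)) (b (a (l 531588111) (l 531525647)) (l 531641615)))) (a (a (a (b (l 531469071) (l 531556623)) (b (l 531418639) (l 531240207))) (b (b (l 4) (l 531381775)) (a (l 531467535) (l 531433999)))) (b (l 4) (a (l 531400207) (a (l 531384335) (l 4)))))))) (l 4))), by decide +kernel⟩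

def k2_B00pm_001_s3 : ∃ t, chk3 f_B00pm_001_s3 t 6 6 1 = true :=
  ⟨(b (a (b (a (a (l 532184591) (l 531490063)) (a (b (l 531847695) (l 531916303)) (b (l 531720207) (l 531792399)))) (a (b (l 532199695) (l 2)) (a (l 531739663) (a (l 531915791) (l 531862287))))) (b (a (b (a (l 531615503) (a (l 531553807) (l 531522831))) (a (l 531692303) (l 531620111))) (b (a (a (l 531500047) (l 531486223)) (l 530812943)) (a (a (l 531585551) (l 531574287)) (c (l 531771151) (l 531375119))))) (b (a (a (l 531762959) (l 531695631)) (a (l 531124239) (a (l 531389455) (l 531400719)))) (a (a (l 531827983) (l 531765263)) (a (l 531467535) (c (l 531941135) (l 531539983))))))) (a (a (l 2) (b (b (b (l 531752207) (l 2)) (l 2)) (l 2))) (b (a (b (a (l 531887119) (l 531829263)) (a (l 6) (b (a (l 6) (l 16476928)) (l 6)))) (b (a (l 531268367) (c (l 532017423) (l 531613711))) (b (a (l 531853327) (l 531603471)) (b (a (a (l 6) (l 16480808)) (l 531896847)) (a (l 6) (a (b (l 16483624)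 (l 6)) (l 16493320))))))) (a (l 6) (b (a (l 6) (a (l 6) (a (l 6) (b (b (b (l 16486904) (l 6)) (l 6)) (l 6))))) (l 6)))))), by decide +kernel⟩

def k3_B00pm_001_s3 : ∃ t, chk3 f_B00pm_001_s3 t 7 12 1 = true :=
  ⟨(b (a (a (a (b (a (l 531502351) (b (l 4) (l 531555087))) (a (l 531331343) (l 531092751))) (b (b (l 4) (a (c (l 531798799) (l 531382031)) (c (l 531853071) (l 531430927)))) (a (c (l 531876623) (l 531458319)) (b (a (l 531416591) (l 531177999)) (l 531483663))))) (b (l 4) (a (a (b (l 531229455) (a (l 531533327) (l 531302415))) (c (l 531817487) (l 531117071))) (b (l 4) (a (l 531462159) (l 531574287)))))) (l 4)) (a (a (a (b (c (l 531909647) (l 531497743)) (a (l 531239695) (l 531276303))) (b (a (l 531232783) (l 531290383)) (a (l 531324687) (l 531385871)))) (a (b (a (b (l 531335951) (l 531655439)) (b (a (l 531397391) (l 531442959)) (l 531472655))) (a (l 531460367) (b (l 531524111) (l 531574031)))) (b (b (a (l 531518479) (l 531632143)) (a (a (l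 531546383) (l 531600143)) (l 531688719))) (a (b (l 531626255) (l 531677967)) (b (l 531475471) (l 531797519)))))) (a (a (b (a (l 531522575) (l 531662607)) (a (b (l 531877391) (l 531664399)) (c (l 532049423) (l 531830287)))) (b (a (c (l 531772175) (l 532214543)) (c (l 531537167) (l 531717647))) (a (c (l 531835407) (l 532011279)) (b (l 531270159) (l 531299855))))) (a (b (a (b (l 4) (l 530982671)) (l 4)) (a (b (l 531013135) (l 530773775)) (b (l 530730767) (c (l 531067151) (l 531530255))))) (b (l 4) (a (b (b (l 4) (l 530160655)) (c (l 530754575) (l 531223055))) (b (l 4) (a (l 531104783) (b (l 530553103) (l 530565647)))))))))), by decide +kernel⟩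

def k4_B00pm_001_s3 : ∃ t, chk3 f_B00pm_001_s3 t 14 26 1 = true :=
  ⟨(b (a (a (c (l 532080399) (l 531663631)) (c (l 531652879) (a (l 531730959) (l 531792911)))) (a (a (l 531553807) (l 531377423)) (a (l 531484175) (c (l 532476431) (l 531917327))))) (a (a (c (l 532157199) (l 531737615)) (a (l 531491343) (l 531559695))) (a (c (l 531903247) (a (l 531955215) (l 532049167))) (a (l 531579151) (l 531705103))))), by decide +kernel⟩

def k5_B00pm_001_s3 : ∃ t, chk3 f_B00pm_001_s3 t 28 27 1 = true :=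
  ⟨(b (a (b (a (b (a (c (l 16501584) (l 16456520)) (l 16413440)) (b (c (l 16408568) (l 16426808)) (l 6))) (b (l 16424232) (c (b (l 16467736) (l 16458152)) (b (a (l 16481912) (l 16489864)) (a (l 16471016) (l 16481312)))))) (l 6)) (b (b (l 531574031) (b (l 531588111) (a (a (b (l 16421032) (l 16458840)) (l 16426880)) (l 16438376)))) (b (a (b (a (l 16407040) (c (l 16429896) (l 16447920))) (l 16440760)) (b (a (c (l 16439312) (b (l 16501440) (l 16497352))) (l 16436032)) (a (l 16415704) (b (c (l 16442256) (l 16502056)) (l 16423840))))) (a (l 6) (c (l 16410584) (l 16431336)))))) (l 6)), by decide +kernel⟩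

def k6_B00pm_001_s3 : ∃ t, chk3 f_B00pm_001_s3 t 29 27 1 = true :=
  ⟨(a (b (b (a (l 531703311) (l 531801615)) (b (a (b (l 16447848) (a (c (l 16490632) (b (l 16511000) (l 16464976))) (l 16487728))) (l 16502632)) (a (b (a (l 16424992) (b (a (l 16479752) (l 16484912)) (l 16433544))) (a (l 16410448) (l 16422504))) (b (a (c (l 16500584) (b (l 16521184) (l 16475176))) (l 16498072)) (a (l 16476848) (b (a (l 16490128) (l 16495416)) (l 16443880))))))) (b (a (b (c (l 16487680) (l 16426392)) (l 6)) (c (b (l 16428808) (l 16480432)) (b (b (l 16415184) (l 16484752)) (l 16421152)))) (l 6))) (b (a (b (l 531915023) (b (l 531947535) (b (l 16510464) (a (b (l 16460152) (a (l 16495544) (l 16500888))) (l 16509000))))) (b (l 532043791) (l 532088847))) (a (b (b (b (a (l 16487384) (b (a (l 16501104) (l 16506512)) (l 16454824))) (a (l 16430040) (l 16485104))) (c (l 16422312) (l 16445456))) (b (b (l 16431256) (l 6)) (l 6))) (b (b (b (a (b (l 16471416) (a (l 16506816)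 (l 16512288))) (l 16520512)) (a (l 16498544) (b (a (l 16512680) (l 16518200)) (l 16466384)))) (c (l 16449440) (c (l 16434440) (l 16465912)))) (c (b (l 16415344) (l 16464456)) (b (l 16440632) (l 16451616))))))), by decide +kernel⟩

def k7_B00pm_001_s3 : ∃ t, chk3 f_B00pm_001_s3 t 15 26 1 = true :=
  ⟨(a (a (a (b (c (l 532302607) (l 531786767)) (c (l 532357903) (l 532156687))) (b (b (l 531774479) (l 532071695)) (c (l 531893775) (l 532315663)))) (a (b (c (l 531624207) (c (l 532225551) (l 532186639))) (c (l 531944975) (l 532125455))) (b (c (l 531654671) (l 531570703)) (b (c (l 531693583) (l 531879695)) (l 531137039))))) (c (a (b (a (l 531392527) (l 531105039)) (a (l 531441167) (l 531152143))) (b (a (l 530790927) (l 530448911)) (a (l 530836239) (l 530491919)))) (a (b (a (l 531582991) (l 531032847)) (a (b (l 531890703) (l 531914767)) (c (l 531499791) (l 531739151)))) (b (a (b (l 531249167) (l 531273999)) (b (l 530912527) (l 530936079))) (a (b (l 531297295)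 (l 531319567)) (b (l 530958607) (l 530979599))))))), by decide +kernel⟩

def k8_B00pm_001_s3 : ∃ t, chk3 f_B00pm_001_s3 t 30 27 1 = true :=
  ⟨(b (a (a (a (l 532133647) (l 532041999)) (a (l 532213263) (l 531842575))) (c (a (l 531992591) (l 531750927)) (a (l 532175375) (l 531671311)))) (b (b (a (a (b (l 16526072) (a (b (l 16480160) (c (l 16551760) (a (l 16506976) (l 16512544)))) (l 16520800))) (l 532192271)) (c (l 531631375) (l 531819023))) (a (a (b (a (l 16489336) (b (c (l 16549080) (a (l 16513232) (l 16518856))) (l 16477976))) (c (l 16469272) (l 16490568))) (b (a (b (l 16516592) (c (l 16546208) (a (l 16519648) (l 16525328)))) (l 16514960)) (a (l 16518616) (b (c (l 16522160) (b (l 16523400) (l 16523192))) (l 16514040))))) (a (b (l 531715087) (a (b (l 16510296) (c (l 16518896) (b (l 16562040) (l 16519872)))) (l 16508352))) (l 531208975)))) (a (c (b (a (l 16443272) (l 16472456)) (a (l 16407872) (l 16436600))) (b (a (c (l 16429816) (l 16462408))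 (c (l 16458064) (l 16489912))) (a (l 16435464) (l 16462720)))) (b (a (b (a (l 16512472) (b (c (a (l 16536952) (l 16535240)) (b (l 16537552) (l 16537312))) (l 16507344))) (c (l 16548264) (l 16516064))) (b (a (b (l 16503224) (c (a (l 16533312) (l 16531520)) (a (l 16534536) (l 16532864)))) (c (l 16532048) (l 16554056))) (a (c (l 16537120) (l 16516136)) (b (c (a (l 16529480) (l 16527600)) (a (l 16530648) (l 16528896))) (c (l 16531112) (l 16510608)))))) (c (a (l 16466624) (l 16503888)) (a (c (l 16453856) (l 16444944)) (c (l 16475560) (l 16516504)))))))), by decide +kernel⟩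

def k9_B00pm_001_s3 : ∃ t, chk3 f_B00pm_001_s3 t 31 27 1 = true :=
  ⟨(b (a (a (c (l 531485199) (c (l 531830031) (l 531799567))) (b (c (l 531184655) (l 531652623)) (c (l 531204367) (l 531673359)))) (a (c (b (l 530867215) (l 530886159)) (b (l 531340303) (l 531360015))) (c (b (l 530521615) (l 530539279)) (b (l 530999311) (l 531017743))))) (b (a (c (a (l 531515663) (l 531223055)) (a (l 531980303) (l 531693071))) (a (c (l 530903567) (l 531378447)) (c (l 530555919) (a (l 531124495) (l 530945295))))) (a (b (a (a (b (l 16500272) (b (l 16495304) (c (a (l 16525440) (l 16523488)) (a (b (l 16547136) (l 16547888)) (b (l 16545824) (l 16545008)))))) (l 531152911)) (c (l 16526680) (l 531707151))) (a (b (a (c (l 16529376) (l 16508256)) (b (c (a (l 16521200) (l 16519176)) (a (b (l 16542832) (l 16543560)) (b (l 16541464) (l 16540600)))) (c (l 16522808) (l 16502184)))) (c (l 16450256) (l 16511344))) (b (a (b (l 16486664) (c (a (l 16516768) (l 16514664)) (a (b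 (l 16538320) (l 16539024)) (b (l 16536912) (l 16535984))))) (l 530862095)) (a (c (l 16520816) (c (l 16536216) (l 16546840))) (b (c (a (b (l 16511520) (l 16512528)) (l 16509944)) (b (a (l 16533600) (l 16532144)) (a (l 16534272) (l 16531168)))) (c (l 16513704) (l 16513904))))))) (a (a (b (l 531502095) (b (l 531508495) (b (l 531511567) (c (a (b (l 16506672) (l 16507648)) (l 16505032)) (a (b (l 16528680) (l 16529320)) (b (l 16527176) (l 16531384))))))) (l 531474447)) (c (l 530571279) (b (l 531047695) (l 531055631))))))), by decide +kernel⟩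

def k10_B00pm_001_s3 : ∃ t, chk3 f_B00pm_001_s3 t 6 14 1 = true :=
  ⟨(l 6), by decide +kernel⟩

def k11_B00pm_001_s3 : ∃ t, chk3 f_B00pm_001_s3 t 7 14 1 = true :=
  ⟨(a (l 6) (b (a (b (b (b (a (a (l 6) (b (l 16444720) (l 16427176))) (c (a (l 16429400) (l 16460272)) (a (l 16457960) (l 16487408)))) (a (l 6) (c (a (l 16475200) (l 16421648)) (a (l 16465984) (l 16410888))))) (a (l 6) (a (l 6) (a (l 6) (b (l 16428408) (l 6)))))) (l 6)) (b (a (c (b (b (a (l 16463800) (l 16488776)) (a (l 16453368) (l 16466080))) (b (a (l 16413320) (l 16445888)) (l 16409176))) (b (b (a (l 16507704) (c (l 16502040) (l 16511200))) (a (l 16441120) (l 16514656))) (b (a (l 16405352) (l 16436376)) (c (l 16385080) (l 16424904))))) (b (b (a (c (b (a (l 16469512) (b (a (b (l 16501624) (l 16502560)) (l 16499912)) (l 16503784))) (l 16474856)) (b (a (c (l 16526720) (l 16537256)) (b (a (b (l 16528792) (l 16524160)) (b (l 16522008) (l 16526144))) (c (l 16519424) (l 16530208)))) (c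 (l 16530728) (l 16498392)))) (a (b (b (l 16529912) (a (c (b (l 16475400) (l 16497280)) (b (a (l 16518552) (l 16517488)) (l 16518792))) (b (l 16505608) (c (l 16472704) (a (l 16515808) (l 16514736)))))) (c (b (l 16498512) (l 16504080)) (c (l 16516400) (l 16526824)))) (b (l 530995471) (b (a (c (b (l 16469944) (l 16491784)) (b (c (l 16486144) (l 16497296)) (l 16513208))) (b (l 16500072) (c (l 16477632) (a (l 16510160) (l 16509064))))) (c (l 16493048) (c (l 16508544) (l 16519232))))))) (c (a (l 16490264) (c (l 16466280) (l 16474664))) (a (c (l 16459680) (l 16467528)) (c (l 16483280) (l 16502640))))) (b (c (a (l 16468792) (l 16450256)) (a (l 16468784) (l 16504752))) (c (l 16455000) (a (l 16431216) (l 16464448)))))) (a (l 6) (b (c (b (l 16411752) (l 16367592)) (b (c (l 16409768) (l 16408424)) (l 16380424))) (l 6))))) (l 6))), by decide +kernel⟩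

def k12_B00pm_001_s3 : ∃ t, chk3 f_B00pm_001_s3 t 3 15 1 = true :=
  ⟨(l 6), by decide +kernel⟩

theorem t13_B00pm_001_s3 : ∃ t, chk3 f_B00pm_001_s3 t 3 14 1 = true := ex3_a k10_B00pm_001_s3 k11_B00pm_001_s3

theorem t14_B00pm_001_s3 : ∃ t, chk3 f_B00pm_001_s3 t 3 7 1 = true := ex3_b t13_B00pm_001_s3 k12_B00pm_001_s3

theorem t15_B00pm_001_s3 : ∃ t, chk3 f_B00pm_001_s3 t 15 27 1 = true := ex3_a k8_B00pm_001_s3 k9_B00pm_001_s3

theorem t16_B00pm_001_s3 : ∃ t, chk3 f_B00pm_001_s3 t 15 13 1 = true := ex3_b k7_B00pm_001_s3 t15_B00pm_001_s3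

theorem t17_B00pm_001_s3 : ∃ t, chk3 f_B00pm_001_s3 t 14 27 1 = true := ex3_a k5_B00pm_001_s3 k6_B00pm_001_s3

theorem t18_B00pm_001_s3 : ∃ t, chk3 f_B00pm_001_s3 t 14 13 1 = true := ex3_b k4_B00pm_001_s3 t17_B00pm_001_s3

theorem t19_B00pm_001_s3 : ∃ t, chk3 f_B00pm_001_s3 t 7 13 1 = true := ex3_a t18_B00pm_001_s3 t16_B00pm_001_s3

theorem t20_B00pm_001_s3 : ∃ t, chk3 f_B00pm_001_s3 t 7 6 1 = true := ex3_b k3_B00pm_001_s3 t19_B00pm_001_s3

theorem t21_B00pm_001_s3 : ∃ t, chk3 f_B00pm_001_s3 t 3 6 1 = true := ex3_a k2_B00pm_001_s3 t20_B00pm_001_s3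

theorem t22_B00pm_001_s3 : ∃ t, chk3 f_B00pm_001_s3 t 3 3 1 = true := ex3_b t21_B00pm_001_s3 t14_B00pm_001_s3

theorem t23_B00pm_001_s3 : ∃ t, chk3 f_B00pm_001_s3 t 3 1 1 = true := ex3_b k1_B00pm_001_s3 t22_B00pm_001_s3

theorem t24_B00pm_001_s3 : ∃ t, chk3 f_B00pm_001_s3 t 1 1 1 = true := ex3_a k0_B00pm_001_s3 t23_B00pm_001_s3

theorem c_B00pm_001_s3 : CertF 0 536870912 536870912 536870912 1020054732 13421774 false true false .up 0 0 1
    ndB0q0 ndB0q1 pcB0 cut_B00pm_001_s3 xt_B00pm_001_s3 :=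
  certF2 (fam := false) (s1 := true) (s2 := false) (a := 0) (b := 0) (c := 1) (cn := .up) (n1 := ndB0q0) (n2 := ndB0q1) (pc := pcB0) (cut := cut_B00pm_001_s3) (xt := xt_B00pm_001_s3) (P1 := 0) (W1 := 536870912) (P2 := 536870912) (W2 := 536870912) (P3 := 1020054732) (W3 := 13421774)
    rfl (fun _ => rfl) t24_B00pm_001_s3

theorem s_B00pm_001_s3 {κ x : ℝ} (hκ : κ * h0 = ken x) (hx : ((1020054732 : ℕ) : ℝ) / S ≤ x)
    (hx' : x ≤ (((1020054732 : ℕ) : ℝ) + (13421774 : ℕ)) / S) :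
    AltB (VFD κ) PP tK tL pcB [⟨4, 0, 0, 2845415833⟩] 0 0 1 0 0 (sgb true) (sgb false) x :=
  strip_altBD (m := 2845415833) false rfl hκ (SH.κ0 hκ (SH.hx1 hx).le (SH.hx2 hx').le) (SH.hx1 hx).le (SH.hx2 hx') (covB00).cov (covB01).cov hx hx' c_B00pm_001_s3 cutB_nil ((okx hx hx').extB (T := tt) (sideB hx hx') hκ rfl rfl (.O 0 true) (.O 1 false) (Or.inl rfl))

noncomputable def cut_B00pm_011_s1 : Cut := Cut.of [[⟨4, 0, 0, 1449551462⟩], [⟨0, 0, 0, 26843545⟩, ⟨1, 1, 0, 26843545⟩, ⟨2, 1, 0, 26843545⟩]]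

noncomputable def f_B00pm_011_s1 : ℕ → ℕ → ℕ → ℕ → Bool := onCell 0 536870912 536870912 536870912 1020054732 13421774
    (rowF 0 false true false .pnn 0 1 1 (qsf 0 536870912 536870912 536870912 1) ndB0q0 ndB0q1 pcB1 cut_B00pm_011_s1 Ext.none)

def k0_B00pm_011_s1 : ∃ t, chk3 f_B00pm_011_s1 t 1 1 1 = true :=
  ⟨(l 6), by decide +kernel⟩

theorem c_B00pm_011_s1 : CertF 0 536870912 536870912 536870912 1020054732 13421774 false true false .pnn 0 1 1
    ndB0q0 ndB0q1 pcB1 cut_B00pm_011_s1 Ext.none :=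
  certF0 (fam := false) (s1 := true) (s2 := false) (a := 0) (b := 1) (c := 1) (cn := .pnn) (n1 := ndB0q0) (n2 := ndB0q1) (pc := pcB1) (cut := cut_B00pm_011_s1) (xt := Ext.none) (P1 := 0) (W1 := 536870912) (P2 := 536870912) (W2 := 536870912) (P3 := 1020054732) (W3 := 13421774)
    rfl k0_B00pm_011_s1

theorem s_B00pm_011_s1 {κ x : ℝ} (hκ : κ * h0 = ken x) (hx : ((1020054732 : ℕ) : ℝ) / S ≤ x)
    (hx' : x ≤ (((1020054732 : ℕ) : ℝ) + (13421774 : ℕ)) / S)
    (H : CutB (VFD κ) PP tK tL pcB (Cut.of [[⟨0, 0, 0, 26843545⟩, ⟨1, 1, 0, 26843545⟩, ⟨2, 1, 0, 26843545⟩]]) 0 1 1 0 0 (sgb true) (sgb false) x) :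
    AltB (VFD κ) PP tK tL pcB [⟨3, 0, 0, 1449551462⟩] 0 1 1 0 0 (sgb true) (sgb false) x :=
  strip_altBD (m := 1449551462) true rfl hκ (SH.κ0 hκ (SH.hx1 hx).le (SH.hx2 hx').le) (SH.hx1 hx).le (SH.hx2 hx') (covB00).cov (covB01).cov hx hx' c_B00pm_011_s1 H (noExt_B)

end Pool.Agent.Strip051.G.I9500_9625.Tab.St.C
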