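import Pool.Agent.Strip051.G.I9500_9625.Tab
import Pool.Agent.Strip051.PB.StripB

/-! # Strips, near vertex: certificates 4 (generated) -/

set_option linter.all false
set_option maxRecDepth 100000

namespace Pool.Agent.Strip051.G.I9500_9625.Tab.CS.BA00

open Pool.Agent.Strip051.PB Pool.Agent.Strip051.PB.T
open Pool.Agent.Strip051.G.I9500_9625.Tab

noncomputable def cut_pm_213_t : Cut := Cut.of [[⟨3, 0, 0, 3194381926⟩], [⟨0, 1, 0, 26738688⟩, ⟨1, 1, 0, 26738688⟩, ⟨2, 2, 0, 2621440⟩], [⟨0, 0, 1, 46137344⟩, ⟨1, 1, 0, 2097152⟩, ⟨2, 1, 1, 46137344⟩, ⟨0, 0, 0, 1041207446⟩, ⟨0, 1, 0, 59055800⟩, ⟨2, 1, 0, 1041207446⟩, ⟨2, 2, 0, 59055800⟩], [⟨0, 1, 0, 2097152⟩, ⟨1, 0, 1, 46137344⟩, ⟨2, 1, 1, 46137344⟩, ⟨1, 0, 0, 1041207446⟩, ⟨1, 1, 0, 59055800⟩, ⟨2, 1, 0, 1041207446⟩, ⟨2, 2, 0, 59055800⟩]]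

noncomputable def f_pm_213_t : ℕ → ℕ → ℕ → ℕ → Bool := onCell 0 536870912 1610612736 536870912 1020054732 13421774
    (rowNE 3 eng mog cd0q2 cd0q1 pd3 1 true true false .pnn 2 1 3 (qsf 0 536870912 536870912 536870912 3) ndB0q2 ndB0q1 pcB3 cut_pm_213_t Ext.none)

def k0_pm_213_t : ∃ t, chk3 f_pm_213_t t 2 1 1 = true :=
  ⟨(b (b (l 6) (b (l 6) (a (a (b (b (l 6) (l 16730480)) (b (l 16744312) (a (l 16749400) (l 16744368)))) (l 6)) (l 6)))) (b (b (a (b (a (b (a (l 99019038183) (l 16758664)) (a (l 4) (l 76470466903))) (b (l 6) (l 16732000))) (a (b (c (l 151632429703) (l 113514488071)) (l 4)) (b (a (l 16760664) (l 6)) (a (l 79691698439) (l 16748304))))) (l 6)) (a (a (l 4) (a (b (b (b (l 16745120) (l 4)) (l 4)) (l 4)) (b (b (l 16764392) (b (l 16775448) (l 16726280))) (l 4)))) (b (a (b (l 6) (a (l 16753296) (l 6))) (l 6)) (a (b (a (b (l 16766856) (l 16774792)) (l 16741392)) (a (b (l 16747456) (l 4)) (b (l 16756472) (l 16766752)))) (l 6))))) (b (a (l 4) (b (a (a (l 4) (b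 (b (l 16775752) (l 16724104)) (l 4))) (b (a (b (l 16743664) (l 16755624)) (l 6)) (a (b (l 16769120) (l 16731056)) (b (l 16728288) (l 16742736))))) (a (l 4) (b (a (b (l 121567610167) (l 4)) (b (l 16758904) (a (l 16748896) (l 16765600)))) (a (l 4) (b (a (l 4) (l 16750704)) (l 4))))))) (l 4)))), by decide +kernel⟩

def k1_pm_213_t : ∃ t, chk3 f_pm_213_t t 3 2 1 = true :=
  ⟨(l 6), by decide +kernel⟩

def k2_pm_213_t : ∃ t, chk3 f_pm_213_t t 6 3 1 = true :=
  ⟨(b (l 6) (b (b (l 6) (a (b (a (b (l 6) (l 16729160)) (l 6)) (a (b (a (l 16761784) (l 16736248)) (a (l 16741352) (l 16758656))) (b (l 6) (a (l 16731272) (l 6))))) (l 6))) (b (b (a (b (a (a (l 4) (l 107609000023)) (a (l 16756616) (l 16706448))) (a (l 4) (a (b (l 16755992) (l 16746360)) (b (l 16748760) (l 16763976))))) (a (b (l 6) (c (l 16711752) (a (l 16723136) (l 6)))) (l 6))) (a (b (a (l 4) (a (l 4) (b (l 64659335159) (l 150558668887)))) (l 4)) (b (a (b (a (l 16749832) (l 16717320)) (a (a (l 16753808) (l 16759520))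 (l 16735320))) (a (c (l 16695984) (l 16708096)) (l 6))) (a (b (a (b (l 16753496) (l 154316779447)) (l 16754288)) (a (l 4) (b (l 16758544) (a (l 16749760) (l 16771472))))) (a (b (c (l 16724168) (l 16717560)) (c (l 16743912) (l 16739368))) (b (l 6) (c (l 16712072) (l 16702648)))))))) (b (a (l 4) (b (a (b (a (l 4) (b (a (l 4) (l 16763304)) (l 4))) (l 4)) (b (a (b (l 16757928) (a (l 16765352) (l 16761016))) (c (a (l 16741448) (l 16725936)) (a (l 16735864) (l 16717600)))) (a (b (a (l 194045240519) (l 16761848)) (a (l 4) (a (l 4) (l 170959807911)))) (b (a (l 16756272) (l 16739816)) (a (l 16765616) (l 16752096)))))) (a (l 4) (a (l 4) (b (b (a (b (l 78081136631) (l 123715161767)) (l 16764600)) (a (l 4) (b (l 50700730775) (a (l 4) (l 16755256))))) (b (a (l 4) (b (l 416846694983) (l 4))) (l 4))))))) (l 4))))), by decide +kernel⟩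

def k3_pm_213_t : ∃ t, chk3 f_pm_213_t t 7 6 1 = true :=
  ⟨(l 6), by decide +kernel⟩

def k4_pm_213_t : ∃ t, chk3 f_pm_213_t t 14 14 1 = true :=
  ⟨(l 6), by decide +kernel⟩

def k5_pm_213_t : ∃ t, chk3 f_pm_213_t t 14 30 1 = true :=
  ⟨(b (l 6) (l 6)), by decide +kernel⟩

def k6_pm_213_t : ∃ t, chk3 f_pm_213_t t 14 62 1 = true :=
  ⟨(b (a (a (b (c (l 16702648) (a (l 16699056) (l 6))) (c (b (l 16720352) (l 16732240)) (a (l 16746416) (l 16707504)))) (b (l 6) (a (c (l 16705160) (l 16710656)) (l 6)))) (l 6)) (a (b (a (c (b (l 16754664) (a (l 16763112) (l 16749408))) (b (l 16758216) (l 16761952))) (c (a (l 16730304) (l 16718432)) (a (b (l 16711472) (l 16726240)) (b (l 16694880) (l 16710160))))) (a (b (a (b (a (l 16754112) (l 16767600)) (a (l 232699965255) (l 16774064))) (c (l 16761464) (l 16757608))) (a (b (a (l 4) (l 169349198823)) (l 4)) (b (a (l 16773232) (l 16765936)) (a (b (l 16765544) (l 265985965079)) (l 16772608))))) (b (c (a (l 16748856) (l 16737624)) (a (l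 16741168) (l 16725512))) (a (c (l 16760976) (l 16756248)) (c (l 16749976) (l 16740904)))))) (a (b (a (b (l 6) (b (a (l 16704496) (l 6)) (c (l 16718376) (l 16699040)))) (l 6)) (a (c (b (l 16728392) (l 16741120)) (b (l 16711112) (l 16726952))) (b (a (c (b (l 16719680) (l 16726608)) (b (l 16697200) (l 16705568))) (c (l 16720296) (b (l 6) (l 16699688)))) (b (a (l 16723560) (c (l 16731104) (a (l 16709720) (l 16707128)))) (c (l 16738536) (l 16719176)))))) (b (l 6) (b (l 6) (a (a (b (l 16716368) (c (a (l 16737096) (l 16736824)) (a (l 16713320) (l 16711096)))) (c (l 16733064) (l 16703192))) (c (l 16736568) (l 16699376)))))))), by decide +kernel⟩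

def k7_pm_213_t : ∃ t, chk3 f_pm_213_t t 28 126 1 = true :=
  ⟨(b (a (b (a (l 4) (b (a (l 4) (b (l 143579400391) (l 214983228791))) (l 4))) (l 4)) (b (a (b (a (l 16772224) (l 16765384)) (a (b (l 136600081879) (l 224646905559)) (l 16772088))) (b (l 16755696) (l 16762440))) (a (b (a (l 4) (b (a (l 16765216) (l 16775416)) (l 238605548951))) (l 4)) (b (a (l 16772216) (l 16766104)) (a (c (b (l 155390564023) (l 452817053639)) (b (l 16771232) (l 258469772615))) (b (l 16771032) (l 16774216))))))) (a (l 4) (b (a (l 4) (b (a (l 4) (b (a (l 255248552983) (l 16775880)) (l 492008629367))) (l 4))) (l 4)))), by decide +kernel⟩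

def k8_pm_213_t : ∃ t, chk3 f_pm_213_t t 29 252 1 = true :=
  ⟨(a (b (c (a (l 16753144) (l 16747696)) (a (l 16763568) (c (l 16735344) (l 16727048)))) (c (a (b (l 16761616) (l 16766968)) (l 16758800)) (a (b (l 16754152) (l 16761760)) (b (l 16742896) (l 16750480))))) (a (b (a (b (c (l 16753936) (l 16741592)) (c (l 16749592) (l 16728872))) (b (c (l 16744128) (l 16717232)) (c (a (l 16750272) (l 16751216)) (a (l 16726576) (l 16725408))))) (b (c (a (l 16755168) (l 16756416)) (a (l 16736728) (l 16734000))) (c (l 16760712) (l 16742872)))) (b (c (l 16751640) (l 16718592)) (b (a (a (c (b (l 16757184) (l 16760024)) (l 16753888)) (l 16746448)) (l 16748360)) (b (a (a (l 16750824) (c (l 16762976) (l 16738720))) (l 16753832)) (a (c (l 16764824) (l 16742504)) (c (l 16753168) (l 16743088)))))))), by decide +kernel⟩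

def k9_pm_213_t : ∃ t, chk3 f_pm_213_t t 29 253 1 = true :=
  ⟨(a (b (a (b (a (b (l 16771760) (l 16772152)) (l 16768200)) (a (b (a (l 285313322375) (l 16771104)) (l 591866617623)) (b (l 16772744) (a (l 162369888599) (l 16774496))))) (c (b (l 16766160) (l 16770552)) (b (l 16757872) (l 16765056)))) (a (b (a (l 4) (b (a (l 626226358023) (c (l 16771312) (l 16766040))) (l 4))) (l 4)) (b (a (b (l 16773936) (a (c (l 228405009255) (l 232163105591)) (l 16775544))) (l 16771504)) (a (b (a (l 4) (c (l 269207196871) (l 273502164119))) (l 4)) (b (a (l 16770784) (l 16774392)) (a (c (l 312156867879) (l 317525576951)) (c (l 16774008) (l 16770944)))))))) (b (a (c (b (l 16765264) (l 16769208)) (b (l 16750176) (l 16757128))) (a (c (b (l 16766760) (l 16769384)) (b (l 16748016) (l 16754808))) (b (c (a (b (l 16764872) (l 16766112)) (b (l 16764480) (a (l 16765568) (l 16765248)))) (a (l 16748368) (b (l 16747416) (l 16751152)))) (c (b (l 16767192) (l 16768440)) (l 16755560))))) (a (b (c (l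 16772480) (l 16770896)) (c (l 16772400) (a (l 16771632) (l 16768368)))) (b (c (a (l 16771768) (l 16770368)) (a (l 16761040) (l 16761648))) (c (a (l 16773856) (l 16772688)) (a (l 16766648) (l 16766880))))))), by decide +kernel⟩

def k10_pm_213_t : ∃ t, chk3 f_pm_213_t t 14 127 1 = true :=
  ⟨(b (a (l 4) (b (a (a (l 4) (b (a (l 4) (b (a (l 4) (l 670249773079)) (l 4))) (l 4))) (a (b (a (b (a (b (l 16776568) (l 289608293719)) (l 16775832)) (a (l 4) (b (l 209077659559) (l 367454574167)))) (b (l 16774480) (c (l 16771632) (l 16775008)))) (a (l 4) (b (b (a (l 309472517319) (l 16776640)) (a (l 4) (a (l 16773600) (l 16776936)))) (a (l 4) (c (l 751854150903) (l 762591569063)))))) (b (c (a (l 16775592) (l 16764176)) (a (l 16771576) (l 16771240))) (b (c (a (l 16776584) (l 16775824)) (a (l 16774816) (l 16773928))) (b (a (c (l 16774536) (l 16770904)) (l 16776352)) (a (a (l 358864640519) (l 16777048)) (l 16776592))))))) (a (l 4) (b (a (l 4) (b (b (a (a (l 4) (a (l 399129960791) (l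 16771656))) (l 16776832)) (a (l 4) (a (a (l 322894292887) (l 16777208)) (l 16776912)))) (a (l 4) (b (a (a (l 4) (l 414699216759)) (c (l 16771920) (l 16774264))) (a (l 4) (a (l 4) (c (l 348127225463) (l 354569676375)))))))) (l 4))))) (l 4)), by decide +kernel⟩

def k11_pm_213_t : ∃ t, chk3 f_pm_213_t t 15 14 1 = true :=
  ⟨(l 6), by decide +kernel⟩

def k12_pm_213_t : ∃ t, chk3 f_pm_213_t t 15 30 1 = true :=
  ⟨(l 6), by decide +kernel⟩

def k13_pm_213_t : ∃ t, chk3 f_pm_213_t t 60 62 1 = true :=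
  ⟨(l 6), by decide +kernel⟩

def k14_pm_213_t : ∃ t, chk3 f_pm_213_t t 60 126 1 = true :=
  ⟨(b (b (a (c (l 16760568) (l 16722472)) (l 6)) (a (c (l 16763384) (l 16741280)) (c (a (l 16763904) (l 16764256)) (l 16760648)))) (a (b (a (b (c (l 16765208) (l 16751392)) (a (c (b (a (l 16766184) (l 16766080)) (l 16767416)) (b (l 16756136) (l 16759312))) (c (b (l 16766312) (l 16766864)) (l 16759912)))) (c (l 16766288) (l 16760816))) (b (a (a (c (l 16769280) (l 16763704)) (b (c (a (l 16768128) (l 16767824)) (l 16764544)) (l 16769784))) (a (b (c (l 16767744) (l 16767512)) (c (a (l 16768832) (l 16758040)) (a (l 16769416) (l 16769720)))) (l 16768992))) (a (c (l 16771464) (l 16769576)) (a (c (l 16760096) (l 16771592)) (b (c (a (b (l 16769144) (l 16769784)) (l 16769304)) (a (l 16770632) (l 16770432))) (c (l 16770688) (l 16771696))))))) (b (c (a (l 16766696) (l 16767088)) (l 16768320)) (a (b (c (l 16768704) (l 16769936)) (a (b (l 16770120) (a (b (l 16767824) (a (l 16771032) (l 16765672)))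 (l 16765448))) (l 16770632))) (c (l 16769768) (l 16770904)))))), by decide +kernel⟩

def k15_pm_213_t : ∃ t, chk3 f_pm_213_t t 60 254 1 = true :=
  ⟨(b (a (b (c (a (l 16763192) (l 16767416)) (a (l 16773320) (l 16773424))) (c (b (a (l 16775016) (l 16774160)) (a (l 16775632) (l 16774832))) (b (l 16764624) (l 16770392)))) (b (a (b (a (c (b (l 16765824) (l 16771552)) (l 16772368)) (a (c (b (l 16770792) (l 16771224)) (l 16761440)) (l 16771576))) (a (l 16772864) (a (l 16772536) (b (a (l 16766856) (l 16771992)) (l 16772624))))) (a (b (l 16771736) (a (c (b (l 16771656) (l 16771968)) (l 16762144)) (l 16772368))) (l 16772240))) (a (c (b (l 16773272) (l 16773992)) (l 16763784)) (b (b (a (a (l 16772968) (c (l 16772328) (l 16773176))) (l 16772928)) (a (c (l 16772888) (l 16773664)) (a (c (l 16772512) (l 16773320)) (l 16773056)))) (a (l 16773672) (a (b (l 16773280) (l 16773536)) (b (a (l 16773080) (l 16773096)) (l 16773424)))))))) (b (a (b (a (c (l 16776216) (l 16776416)) (c (l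 16775472) (l 16775800))) (b (a (l 16776696) (l 16776056)) (a (a (c (l 16771960) (l 16771872)) (l 16776784)) (l 16776328)))) (b (c (a (l 16774688) (l 16773864)) (l 16772184)) (a (c (l 16775352) (l 16775688)) (c (l 16774584) (l 16775032))))) (a (b (b (a (a (a (l 452280180039) (a (l 347053484743) (l 226257531223))) (l 16774448)) (l 16776584)) (a (a (l 4) (a (a (l 518852174103) (l 387318802087)) (b (l 16777160) (l 16774096)))) (l 16771600))) (a (l 4) (b (a (a (b (l 16771632) (l 16773128)) (a (l 16774480) (l 16777152))) (l 16776944)) (b (a (l 868892012503) (l 16772008)) (a (l 4) (a (l 456038279511) (l 16777208))))))) (b (a (c (l 16775992) (l 16776208)) (c (l 16775280) (l 16775608))) (a (c (l 16776592) (l 16776704)) (c (l 16765456) (l 16776160))))))), by decide +kernel⟩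

def k16_pm_213_t : ∃ t, chk3 f_pm_213_t t 60 255 1 = true :=
  ⟨(b (b (a (b (b (a (l 4) (a (l 4) (c (l 840974724263) (l 851712142439)))) (l 4)) (l 4)) (a (b (b (a (b (l 16777160) (a (l 414162348887) (l 16777216))) (l 16776888)) (b (a (a (l 4) (l 396445608983)) (l 16777112)) (a (l 4) (a (l 383023836311) (l 16777168))))) (b (b (a (l 4) (a (l 4) (l 374433901815))) (l 4)) (l 4))) (b (b (l 16776480) (l 16771512)) (b (b (l 16774336) (a (a (c (l 366917709447) (l 16773984)) (l 16777152)) (l 16776944))) (b (a (a (l 4) (c (l 369602063687) (l 16773984))) (l 16777088)) (a (l 4) (a (c (l 377655127335) (l 16774784)) (l 16777160)))))))) (a (l 4) (b (b (b (a (l 4) (a (l 4) (a (l 4) (c (l 392150641879) (l 400203705527))))) (l 4)) (l 4)) (l 4)))) (l 4)), by decide +kernel⟩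

def k17_pm_213_t : ∃ t, chk3 f_pm_213_t t 61 62 1 = true :=
  ⟨(l 6), by decide +kernel⟩

def k18_pm_213_t : ∃ t, chk3 f_pm_213_t t 122 126 1 = true :=
  ⟨(a (b (b (l 6) (c (l 16764608) (l 16766168))) (c (b (l 16767480) (l 16764944)) (b (l 16768832) (l 16771312)))) (b (l 6) (b (c (l 16767664) (l 16768952)) (c (l 16770392) (l 16771464))))), by decide +kernel⟩

def k19_pm_213_t : ∃ t, chk3 f_pm_213_t t 122 254 1 = true :=
  ⟨(b (b (a (c (l 16772104) (l 16773040)) (c (l 16772320) (l 16773224))) (a (a (b (l 16773176) (a (c (l 16770112) (l 16768240)) (l 16773320))) (l 16773408)) (c (l 16773128) (l 16773896)))) (b (a (b (b (a (a (l 16768336) (c (l 16773000) (l 16773688))) (l 16773536)) (a (a (l 16773824) (l 16771104)) (a (c (l 16773168) (l 16773824)) (l 16773624)))) (a (l 16774248) (a (c (l 16763328) (l 16774400)) (b (c (l 16768096) (l 16763472)) (l 16772072))))) (a (b (l 16773640) (a (a (b (l 16773720) (a (l 16771224) (l 16771152))) (l 16771056)) (l 16773752))) (c (l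 16773304) (l 16773904)))) (a (b (c (l 16774552) (l 16774984)) (c (l 16770032) (l 16765104))) (a (b (b (a (l 16771536) (a (b (l 16773816) (l 16774016)) (l 16771176))) (c (l 16774152) (l 16774624))) (c (l 16774632) (l 16775016))) (b (b (l 16773792) (b (c (l 16770896) (l 16774008)) (a (a (l 16774080) (l 16773904)) (l 16773864)))) (b (b (a (l 16774176) (a (l 16771328) (l 16773904))) (c (l 16771480) (l 16769280))) (l 16774472))))))), by decide +kernel⟩

def k20_pm_213_t : ∃ t, chk3 f_pm_213_t t 122 255 1 = true :=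
  ⟨(b (b (b (a (c (b (l 16775792) (l 16776120)) (b (l 16776032) (l 16776304))) (c (b (l 16769712) (l 16770096)) (a (l 16775640) (l 16775176)))) (b (a (a (l 16776616) (l 16776336)) (c (l 16770480) (l 16765440))) (a (a (l 16776888) (l 16776632)) (c (l 16773472) (l 16765768))))) (b (a (b (a (b (l 16777104) (a (c (l 414699219719) (l 422752283367)) (l 16777192))) (l 16774280)) (b (a (a (l 4) (c (l 444227119671) (l 452817054247))) (a (l 16775920) (l 16777040))) (a (l 4) (a (c (c (l 485566179639) (l 489861146919)) (l 495766726599)) (c (l 16774632) (l 16772000)))))) (a (b (l 16776616) (l 16774288)) (b (l 16771048) (l 16774008)))) (b (a (b (a (l 4) (a (l 4) (c (l 555359397191) (l 558580622631)))) (l 4)) (a (b (a (c (c (l 16774536) (l 16774528)) (l 16774520)) (l 16777064)) (b (a (l 582202944599) (l 16777208)) (a (l 4) (c (l 16775536) (l 16774216))))) (c (l 16776928) (l 16776968)))) (a (l 4) (a (b (a (l 4) (l 1194772656903)) (l 4)) (b (a (b (l 16774584) (a (l 16773696) (l 16771744)))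 (l 16777104)) (a (l 4) (b (a (l 16774248) (l 16777208)) (l 619783908391))))))))) (l 4)), by decide +kernel⟩

def k21_pm_213_t : ∃ t, chk3 f_pm_213_t t 123 126 1 = true :=
  ⟨(b (l 6) (a (b (c (l 16767376) (l 16768528)) (c (b (l 16769464) (l 16770720)) (a (l 16771216) (l 16770848)))) (b (b (l 6) (c (l 16767432) (l 16768360))) (c (a (l 16769664) (l 16769368)) (a (l 16770512) (l 16770136)))))), by decide +kernel⟩

def k22_pm_213_t : ∃ t, chk3 f_pm_213_t t 246 127 1 = true :=
  ⟨(b (b (b (c (l 16766784) (l 16772832)) (c (a (l 16772936) (l 16772752)) (a (l 16773640) (l 16773400)))) (b (c (a (l 16773176) (l 16773008)) (a (l 16773728) (l 16773528))) (b (c (l 16773416) (l 16773864)) (a (b (l 16773824) (a (b (c (l 16771176) (l 16768960)) (l 16771624)) (c (l 16773712) (l 16774096)))) (l 16773840))))) (b (a (b (b (b (b (a (l 16774368) (c (l 16771360) (l 16769104))) (l 16771880)) (l 16774752)) (c (l 16772624) (l 16770224))) (b (b (l 16775944) (l 16771080)) (b (l 16775368) (a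 (b (l 16776984) (l 16774544)) (l 16776936))))) (b (b (b (b (l 16774040) (a (c (l 16771304) (l 16769024)) (l 16774104))) (b (a (a (l 16774352) (l 16772960)) (l 16774152)) (a (l 16774504) (a (l 16774384) (l 16774240))))) (b (c (l 16769440) (l 16769712)) (l 16775152))) (b (b (l 16775576) (l 16770744)) (b (l 16773760) (c (l 16776720) (l 16776776)))))) (b (b (b (a (b (b (a (a (l 16775224) (l 16777112)) (l 16777120)) (a (l 1316642354599) (a (l 16774360) (l 16777176)))) (b (a (l 4) (a (l 4) (l 16775504))) (l 4))) (b (l 16776992) (b (l 16774504) (a (a (l 627300102743) (l 16777152)) (l 14))))) (b (a (l 4) (a (c (l 1407373537639) (l 1425627148599)) (l 14))) (l 4))) (l 4)) (l 4)))), by decide +kernel⟩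

def k23_pm_213_t : ∃ t, chk3 f_pm_213_t t 247 127 1 = true :=
  ⟨(b (b (b (c (l 16771560) (l 16772232)) (c (a (l 16772552) (l 16772424)) (a (l 16773152) (l 16772976)))) (b (c (a (l 16772888) (l 16772800)) (a (l 16773360) (l 16773240))) (c (a (l 16773416) (l 16773360)) (a (l 16773784) (l 16773704))))) (b (b (b (c (l 16773936) (l 16774232)) (a (a (b (b (c (l 16771536) (l 16769200)) (c (l 16771816) (l 16769472))) (l 16774848)) (b (l 16774336) (b (a (l 16773320) (l 16774496)) (l 16774832)))) (b (l 16774360) (b (l 16774520) (a (a (c (l 16774504) (l 16774752)) (l 16774632)) (l 16774624)))))) (b (b (a (l 16775200) (b (a (a (l 16774872) (c (l 16774672) (l 16774912))) (l 16774680)) (a (l 16775040) (a (l 16772336) (c (l 16774704) (l 16774928)))))) (a (l 16773024) (c (l 16772664) (l 16770232)))) (b (a (l 16773456) (l 16774448)) (l 14)))) (l 14))), by decide +kernel⟩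

def k24_pm_213_t : ∃ t, chk3 f_pm_213_t t 62 62 1 = true :=
  ⟨(l 6), by decide +kernel⟩

def k25_pm_213_t : ∃ t, chk3 f_pm_213_t t 62 126 1 = true :=
  ⟨(b (l 6) (b (b (l 6) (a (a (c (a (l 16766896) (l 16766624)) (l 16764912)) (c (l 16766632) (l 16767264))) (l 6))) (b (a (a (c (l 16768256) (l 16768952)) (c (l 16768288) (l 16766272))) (a (c (a (l 16768808) (l 16769368)) (a (l 16769408) (l 16769992))) (c (a (l 16770072) (l 16770912)) (a (l 16770736) (l 16771624))))) (a (a (c (l 16769784) (l 16770416)) (c (l 16767320) (a (l 16770408) (l 16770664)))) (a (c (a (l 16770520) (l 16771096)) (a (l 16771104) (l 16771712))) (c (a (l 16771816) (l 16772600)) (a (l 16772480) (l 16773320)))))))), by decide +kernel⟩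

def k26_pm_213_t : ∃ t, chk3 f_pm_213_t t 62 254 1 = true :=
  ⟨(a (b (a (b (c (l 16771296) (l 16769256)) (c (a (l 16772344) (l 16772352)) (a (l 16772856) (l 16772840)))) (b (c (a (l 16771424) (l 16771728)) (a (l 16771968) (l 16772272))) (c (a (l 16772512) (l 16772832)) (a (l 16772992) (l 16773320))))) (a (b (c (a (l 16772752) (l 16772776)) (a (l 16773160) (l 16773160))) (c (a (l 16773328) (l 16773360)) (a (l 16773648) (l 16773664)))) (b (c (a (l 16772936) (l 16773240)) (a (l 16773320) (l 16773640))) (c (a (l 16773512) (l 16773800)) (a (l 16773816) (l 16774120)))))) (b (a (b (c (a (l 16772176) (l 16772776)) (a (l 16772744) (l 16773384))) (c (a (l 16773296) (b (l 16773792) (l 16773936))) (a (l 16773816) (b (l 16774376) (l 16774472))))) (b (c (a (l 16773456) (l 16774184)) (a (l 16774112) (l 16774896))) (c (a (l 16774464) (b (l 16775080) (l 16775104))) (a (l 16773760) (b (l 16775760) (l 16775728)))))) (a (b (c (a (l 16773672) (l 16774152)) (a (l 16774088) (l 16774608)))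 (c (a (l 16772832) (l 16774528)) (a (l 16771856) (l 16774888)))) (b (c (a (l 16774648) (l 16775144)) (a (l 16775136) (l 16774360))) (c (a (l 16774904) (b (l 16775248) (l 16775344))) (a (l 16773984) (b (l 16775696) (l 16775736)))))))), by decide +kernel⟩

def k27_pm_213_t : ∃ t, chk3 f_pm_213_t t 62 255 1 = true :=
  ⟨(b (b (a (a (c (a (l 16774088) (l 16774112)) (a (l 16774336) (l 16774352))) (c (a (l 16771640) (b (l 16774320) (l 16774704))) (a (l 16774504) (l 16773416)))) (a (c (a (l 16774744) (l 16773688)) (a (l 16775008) (b (l 16775192) (l 16775416)))) (c (a (b (l 16775176) (l 16775392)) (b (l 16775472) (l 16775632))) (a (b (l 16775496) (l 16775664)) (b (l 16775816) (l 16775920)))))) (b (a (a (a (b (l 16774776) (b (a (a (c (l 16772264) (l 16775096)) (l 16774920)) (l 16774960)) (a (c (l 16775152) (l 16775344)) (a (c (l 16774944) (l 16775144)) (l 16775080))))) (l 16774912)) (a (c (l 16774936) (l 16775136)) (l 16775200))) (a (a (l 16774064) (c (l 16775448) (l 16775672)))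 (c (a (l 16775632) (l 16775824)) (a (l 16775864) (l 16776064))))) (b (b (b (a (a (a (a (l 16775344) (a (l 16775264) (l 16775144))) (l 16775200)) (a (l 16775296) (l 16775440))) (a (a (l 16775584) (l 16775736)) (a (l 16775896) (l 16776056)))) (l 14)) (l 14)) (l 14)))) (l 14)), by decide +kernel⟩

def k28_pm_213_t : ∃ t, chk3 f_pm_213_t t 63 62 1 = true :=
  ⟨(l 6), by decide +kernel⟩

def k29_pm_213_t : ∃ t, chk3 f_pm_213_t t 63 126 1 = true :=
  ⟨(b (l 6) (b (l 6) (b (a (a (c (a (l 16771792) (l 16772728)) (a (l 16772568) (l 16773568))) (l 6)) (l 6)) (a (a (c (a (l 16773432) (l 16774248)) (a (l 16774208) (l 16775088))) (c (a (l 16775072) (c (l 16775656) (l 16776136))) (a (l 16775976) (c (l 16776616) (l 16777104))))) (a (b (a (c (l 16776424) (l 16776144)) (a (c (l 16777056) (l 16778144)) (b (l 6) (c (l 16777616) (l 16778728))))) (c (a (l 16777008) (c (l 16777536) (l 16778072))) (a (l 16776720) (c (l 16778616) (l 16779168))))) (b (b (l 6) (a (c (a (c (l 16776904) (l 16777472))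 (c (l 16775560) (l 16776168))) (c (a (l 16778056) (l 16776784)) (a (l 16778648) (l 16777408)))) (c (c (a (l 16774216) (c (l 16771384) (l 16773032))) (a (l 16774848) (c (l 16773360) (l 16773704)))) (c (a (l 16775496) (c (l 16774040) (l 16774384))) (a (l 16774848) (c (l 16774728) (l 16775080))))))) (a (c (a (a (c (l 16777728) (l 16778288)) (l 16777376)) (c (l 16776064) (l 16776648))) (a (a (a (a (l 16779336) (l 16779256)) (l 16779024)) (l 16777224)) (c (l 16777248) (l 16775240)))) (c (c (a (c (l 16774536) (l 16774840)) (a (l 16773656) (a (l 16773136) (l 16772136)))) (a (c (l 16775144) (l 16775456)) (a (l 16774288) (a (l 16773784) (l 16772792))))) (c (a (c (l 16775768) (l 16776088)) (a (l 16774936) (a (l 16774440) (l 16774112)))) (a (c (l 16776400) (l 16776720)) (a (l 16775592) (a (l 16775104) (l 16774784))))))))))))), by decide +kernel⟩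

def k30_pm_213_t : ∃ t, chk3 f_pm_213_t t 126 254 1 = true :=
  ⟨(b (b (a (c (a (l 16774904) (l 16775632)) (a (l 16775672) (l 16776456))) (c (a (l 16776360) (c (l 16776864) (l 16777320))) (a (l 16774616) (c (l 16777792) (l 16778264))))) (a (c (a (b (l 16775728) (l 16775696)) (b (l 16776384) (l 16776288))) (a (b (l 16776464) (l 16776360)) (b (l 16777168) (l 16777000)))) (c (a (b (l 16777032) (l 16776880)) (b (l 16776376) (l 16777480))) (a (b (l 16777872) (l 16777648)) (b (c (l 16778360) (l 16778808)) (l 16778288)))))) (a (b (c (a (l 16774328) (b (l 16776192) (l 16776120))) (a (b (l 16776264) (l 16776184)) (b (l 16776832) (l 16776696)))) (c (a (b (l 16775664) (l 16775704)) (b (l 16776080) (l 16776064))) (a (b (l 16776136) (l 16776120)) (b (l 16776584) (l 16776504))))) (b (b (c (a (l 16776728) (l 16777264)) (a (l 16777416) (l 16777992))) (c (a (l 16776592) (l 16777072)) (a (l 16777208) (l 16777720)))) (c (a (b (l 16776496) (l 16776416)) (b (l 16776912) (l 16776776)))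 (a (b (l 16777032) (l 16776888)) (b (l 16777488) (l 16776624))))))), by decide +kernel⟩

def k31_pm_213_t : ∃ t, chk3 f_pm_213_t t 254 254 1 = true :=
  ⟨(b (b (c (a (c (l 16777576) (l 16778064)) (c (a (l 16778112) (l 16778464)) (a (l 16778624) (l 16778992)))) (a (c (l 16778568) (l 16779072)) (c (a (l 16779144) (l 16779528)) (a (l 16779672) (l 16780072))))) (c (a (b (c (l 16778112) (l 16778576)) (l 16776760)) (b (b (a (l 16778896) (l 16779224)) (l 16778936)) (c (l 16778440) (l 16778888)))) (a (b (c (l 16779048) (l 16778224)) (c (l 16778712) (l 16779152))) (b (c (b (l 16779824) (l 16779672)) (b (l 16780344) (l 16780168))) (c (l 16779344) (l 16778496)))))) (b (c (a (b (l 16776480) (c (l 16777376) (l 16777712))) (b (c (l 16778120) (l 16778528)) (c (l 16777832) (l 16778192)))) (a (b (c (l 16778376) (l 16778768)) (c (l 16778064) (l 16778408))) (b (c (l 16778936) (l 16778040)) (c (l 16777248) (l 16777952))))) (c (a (b (c (l 16777176) (l 16777472)) (c (l 16777000) (l 16777264)))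 (a (b (l 16777632) (l 16777400)) (b (l 16777832) (l 16776920)))) (a (b (c (l 16777776) (l 16778088)) (c (l 16777528) (l 16777800))) (a (b (l 16778264) (l 16777296)) (b (c (l 16778320) (l 16778656)) (c (l 16778000) (l 16778288)))))))), by decide +kernel⟩

def k32_pm_213_t : ∃ t, chk3 f_pm_213_t t 510 508 1 = true :=
  ⟨(c (b (a (a (a (b (l 16778720) (l 16779168)) (b (l 16778552) (a (l 16779208) (l 16779104)))) (c (l 16778080) (l 16778624))) (c (c (l 16774248) (l 16774528)) (c (l 16774800) (l 16775088)))) (a (a (b (b (c (l 16779208) (l 16779728)) (l 16779336)) (l 16779032)) (b (c (l 16777488) (l 16778328)) (a (a (l 16777784) (l 16778992)) (l 16778752)))) (b (c (b (l 16777712) (l 16777728)) (b (l 16776936) (l 16778240))) (c (l 16776368) (l 16776840))))) (b (b (a (a (a (c (l 16779544) (l 16780104)) (l 16778344)) (l 16777848)) (c (l 16777848) (l 16775808))) (a (a (a (l 16780248) (c (l 16779952) (l 16780496))) (l 16778440)) (c (l 16775792) (l 16776352)))) (a (a (b (b (c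 (l 16780264) (a (l 16780760) (l 16780824))) (l 16779040)) (l 16779968)) (b (b (c (l 16779872) (l 16780416)) (l 16778752)) (a (c (l 16778432) (a (l 16780288) (l 16780184))) (l 16779704)))) (b (c (b (l 16777472) (l 16778752)) (b (l 16778016) (l 16779272))) (c (l 16777320) (c (l 16776368) (l 16776616))))))), by decide +kernel⟩

def k33_pm_213_t : ∃ t, chk3 f_pm_213_t t 511 508 1 = true :=
  ⟨(b (c (c (a (b (c (l 16775144) (l 16775432)) (l 16774552)) (a (b (l 16774232) (l 16774784)) (b (b (l 16772080) (l 16772352)) (l 16774056)))) (a (a (l 16775200) (a (l 16775976) (l 16775624))) (a (c (l 16774944) (l 16775240)) (b (a (l 16774312) (l 16772656)) (l 16774672))))) (c (a (c (b (l 16776320) (l 16776848)) (b (l 16776624) (l 16777128))) (a (c (l 16775536) (l 16775840)) (c (b (l 16774600) (l 16775064)) (b (l 16774912) (l 16775360))))) (a (b (c (l 16776928) (l 16777232)) (c (l 16777416) (l 16777712))) (b (a (l 16776064) (a (l 16775560) (l 16775216))) (a (l 16776504) (a (l 16775976)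 (l 16775624))))))) (c (b (c (a (b (b (l 16776208) (l 16776296)) (l 16776312)) (b (b (l 16773432) (c (l 16774704) (l 16774968))) (a (l 16775240) (l 16773224)))) (a (b (b (l 16776752) (l 16776824)) (l 16775512)) (b (b (l 16774144) (c (l 16775232) (l 16775504))) (c (l 16775272) (l 16774224))))) (a (c (c (l 16774912) (l 16775144)) (c (l 16775384) (l 16775616))) (a (c (l 16775328) (c (l 16774376) (l 16774616))) (c (c (l 16773888) (l 16774120)) (c (l 16774360) (l 16774600)))))) (b (c (a (b (c (l 16775880) (l 16776152)) (l 16776024)) (b (b (c (l 16775704) (l 16775984)) (c (l 16775776) (l 16776048))) (c (l 16774480) (l 16774744)))) (a (b (c (l 16776432) (l 16776704)) (l 16776552)) (b (b (c (l 16776264) (l 16776544)) (c (l 16776320) (l 16775288))) (c (l 16775008) (l 16775280))))) (c (a (c (l 16775856) (l 16776104)) (c (b (l 16774504) (l 16774536)) (a (l 16776408) (l 16775744)))) (a (a (l 16778112) (l 16776792)) (a (c (l 16776656) (l 16776904)) (c (l 16775656) (b (l 16776232)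 (l 16776232))))))))), by decide +kernel⟩

def k34_pm_213_t : ∃ t, chk3 f_pm_213_t t 255 1018 1 = true :=
  ⟨(b (a (a (a (c (l 16778648) (l 16779504)) (c (a (c (l 16778528) (l 16778952)) (c (l 16778376) (l 16778792))) (a (c (l 16779384) (l 16779160)) (c (l 16779224) (l 16779656))))) (c (c (l 16776304) (a (l 16778344) (l 16777728))) (c (a (l 16778776) (l 16778160)) (c (l 16777480) (l 16777704))))) (c (a (c (a (l 16776688) (l 16776072)) (b (l 16775496) (l 16775496))) (c (a (c (l 16774040) (l 16774248)) (c (l 16774400) (l 16774616))) (a (c (l 16774464) (l 16775984)) (b (l 16775232) (l 16775296))))) (a (a (c (l 16777544) (l 16777976)) (c (l 16776928) (c (l 16777256) (l 16777472)))) (c (a (c (l 16776200) (l 16776416)) (b (l 16775672) (l 16775712))) (a (c (l 16776632) (l 16776856)) (c (b (l 16776008) (l 16774720)) (b (l 16776240) (l 16776240)))))))) (a (a (c (a (l 16778304) (a (l 16778392) (c (l 16777528) (b (l 16778640) (l 16778512))))) (a (l 16779064) (a (l 16779152) (c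 (b (l 16779032) (l 16778888)) (b (l 16779432) (l 16779264)))))) (c (c (a (l 16777824) (l 16777264)) (a (l 16778208) (l 16777640))) (c (c (l 16776904) (l 16777096)) (b (l 16777440) (l 16777336))))) (c (a (c (b (l 16775104) (l 16775128)) (b (l 16775488) (l 16776144))) (a (c (c (l 16774176) (l 16774360)) (c (l 16775208) (l 16776048))) (b (c (l 16774320) (l 16775360)) (c (l 16774408) (l 16775424))))) (a (a (c (l 16777464) (l 16777200)) (c (c (l 16776808) (l 16777000)) (c (l 16777192) (l 16777384)))) (c (a (c (l 16776240) (l 16776432)) (b (l 16775752) (a (l 16775936) (l 16775000)))) (a (c (l 16776624) (l 16776168)) (c (b (l 16776048) (l 16774760)) (b (l 16776248) (l 16776264))))))))), by decide +kernel⟩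

def k35_pm_213_t : ∃ t, chk3 f_pm_213_t t 510 1019 1 = true :=
  ⟨(a (b (c (b (a (l 16778064) (c (l 16778000) (l 16778352))) (l 16777960)) (a (l 16777344) (b (c (l 16778696) (l 16779056)) (l 16778664)))) (c (c (l 16777600) (l 16777888)) (c (l 16778184) (l 16778480)))) (c (b (a (a (c (l 16777840) (l 16778176)) (l 16777776)) (c (l 16777232) (l 16777560))) (a (a (c (b (l 16777736) (l 16777640)) (b (l 16778040) (l 16777920))) (l 16777672)) (c (l 16777192) (l 16777480)))) (b (a (c (b (l 16778448) (l 16777688)) (b (l 16778808) (a (l 16778800) (l 16778576)))) (c (l 16777896) (l 16778240))) (a (a (b (a (l 16778536) (l 16778480)) (c (l 16778208) (l 16778496))) (c (l 16778120) (l 16778416))) (c (l 16777776) (l 16777424)))))), by decide +kernel⟩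

def k36_pm_213_t : ∃ t, chk3 f_pm_213_t t 511 1019 1 = true :=
  ⟨(c (b (a (a (c (l 16776720) (l 16777056)) (c (l 16776280) (c (l 16776464) (l 16776632)))) (a (c (b (l 16774368) (l 16774432)) (c (l 16775304) (l 16776120))) (c (b (l 16774832) (l 16774928)) (b (l 16775496) (l 16775568))))) (a (a (c (l 16776744) (l 16776376)) (c (b (l 16776280) (l 16776320)) (b (l 16776576) (l 16776592)))) (a (c (b (l 16775160) (l 16775224)) (b (l 16776104) (l 16776152))) (c (b (c (l 16774624) (l 16774768)) (c (l 16774728) (l 16774856))) (b (c (l 16774912) (l 16775056)) (c (l 16774992) (l 16775128))))))) (b (a (a (c (l 16777392) (c (l 16777648) (l 16777816))) (c (c (l 16776800) (l 16776968)) (c (l 16777136) (l 16777304)))) (c (a (c (l 16776288) (l 16776128)) (c (b (l 16774440) (l 16774496)) (b (l 16774616) (l 16775312)))) (a (b (l 16776712) (l 16776712)) (c (b (l 16774792) (l 16775472)) (b (l 16776280) (l 16776296)))))) (b (a (c (a (l 16777344) (l 16776872)) (c (l 16776024) (l 16776832)))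 (a (c (l 16776408) (l 16776704)) (c (c (l 16775208) (l 16775352)) (c (l 16775504) (l 16776312))))) (a (c (c (l 16776368) (l 16776504)) (c (l 16776648) (l 16776792))) (a (c (l 16776432) (l 16776384)) (c (c (l 16775264) (l 16775400)) (c (l 16775536) (l 16776336)))))))), by decide +kernel⟩

def k37_pm_213_t : ∃ t, chk3 f_pm_213_t t 63 1020 2 = true :=
  ⟨(a (a (a (b (l 16775776) (l 16775880)) (b (l 16776072) (l 16776120))) (a (b (l 16776376) (l 16776368)) (b (l 16776680) (c (l 16776528) (l 16776704))))) (a (a (b (c (l 16776864) (l 16777088)) (a (l 16776800) (l 16776920))) (a (b (l 16777200) (l 16777040)) (b (c (l 16777224) (l 16777464)) (c (l 16777056) (l 16777256))))) (a (a (b (c (l 16777368) (l 16777616)) (c (l 16777168) (l 16777376))) (a (b (a (c (l 16777456) (l 16777712)) (a (b (l 16777632) (l 16777544)) (b (l 16777552) (l 16777496)))) (b (a (l 16777400) (c (l 16776664) (l 16777544))) (l 16777312))) (b (c (l 16777160) (l 16776752)) (a (b (l 16777328) (c (l 16777184)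 (a (l 16777424) (l 16777360)))) (c (l 16776392) (l 16777256)))))) (b (a (c (b (a (l 16776768) (l 16776360)) (a (l 16776776) (l 16776400))) (b (a (l 16777024) (l 16776608)) (a (l 16777016) (l 16776632)))) (c (b (a (l 16775296) (c (l 16774832) (l 16774952))) (a (l 16775368) (c (l 16774936) (l 16775048)))) (b (a (l 16776200) (c (l 16775072) (l 16775200))) (a (l 16776256) (c (l 16775160) (l 16775272)))))) (a (c (b (a (l 16776792) (l 16776440)) (a (l 16776808) (l 16776488))) (b (a (l 16777008) (l 16776656)) (a (l 16777000) (l 16776680)))) (c (b (a (l 16775768) (c (l 16775368) (l 16775472))) (a (l 16776008) (c (l 16775480) (l 16775736)))) (b (a (l 16776304) (c (l 16775576) (l 16775672))) (a (c (l 16775656) (l 16775752)) (a (l 16775456) (l 16775624)))))))))), by decide +kernel⟩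

def k38_pm_213_t : ∃ t, chk3 f_pm_213_t t 63 1021 2 = true :=
  ⟨(b (a (a (a (l 16776016) (l 16776208)) (a (a (l 16776352) (l 16776448)) (a (l 16776544) (l 16776640)))) (b (a (a (l 16776800) (a (l 16776952) (l 16777048))) (a (a (l 16777144) (a (l 16777216) (a (a (l 16777248) (a (l 16777240) (l 16777208))) (l 16777120)))) (a (c (a (l 16776816) (l 16776536)) (a (l 16776992) (l 16776704))) (b (c (a (l 16775568) (l 16775600)) (a (l 16775744) (l 16775768))) (c (a (l 16775608) (l 16775656)) (a (l 16775768) (l 16775976))))))) (a (a (l 16776776) (a (l 16776904) (l 16776984))) (a (a (l 16777064) (a (l 16777128) (a (c (l 16776752) (l 16777248)) (c (l 16776688) (l 16777176))))) (a (c (a (l 16776832) (l 16776576)) (a (l 16776992) (l 16776728))) (b (c (a (l 16775648) (l 16775712)) (a (l 16775800) (l 16776104))) (c (a (l 16775688) (l 16775928)) (a (l 16775824) (c (l 16775536) (l 16775608)))))))))) (b (a (a (a (l 16776144) (l 16776296)) (a (l 16776456) (l 16776608))) (b (b (b (a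 (a (l 16776760) (l 16776920)) (a (a (l 16777032) (a (l 16777088) (a (l 16777112) (l 16777088)))) (c (a (l 16776728) (c (l 16775552) (l 16776280))) (a (l 16776872) (c (l 16776344) (l 16776416)))))) (l 14)) (l 14)) (l 14))) (l 14))), by decide +kernel⟩

def k39_pm_213_t : ∃ t, chk3 f_pm_213_t t 63 511 2 = true :=
  ⟨(l 14), by decide +kernel⟩

def k40_pm_213_t : ∃ t, chk3 f_pm_213_t t 63 1020 3 = true :=
  ⟨(a (a (a (b (l 16776136) (l 16776184)) (b (l 16776456) (l 16776448))) (a (b (l 16776784) (l 16776056)) (b (c (l 16777000) (l 16777216)) (c (l 16776888) (l 16777072))))) (a (a (b (c (l 16777320) (l 16777552)) (c (l 16777144) (l 16776680))) (a (b (l 16777016) (c (l 16777336) (l 16777536))) (b (c (l 16777712) (l 16777960)) (c (l 16777464) (l 16777672))))) (a (a (b (c (l 16777864) (l 16778120)) (b (l 16777768) (l 16777632))) (a (b (a (c (l 16777960) (l 16778224)) (c (b (l 16777984) (a (l 16777912) (l 16777864))) (b (l 16778248) (a (l 16778160) (l 16778112))))) (b (a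 (l 16777848) (a (l 16777872) (b (l 16777912) (l 16777856)))) (l 16777720))) (a (b (b (l 16777928) (l 16777856)) (b (l 16777288) (a (c (l 16777624) (l 16777832)) (l 16777672)))) (b (c (l 16777560) (l 16777816)) (c (l 16777464) (l 16777680)))))) (b (a (a (c (b (l 16777280) (l 16777248)) (b (l 16777544) (l 16777496))) (c (b (l 16776864) (l 16776864)) (b (l 16777128) (l 16777104)))) (c (b (a (l 16776456) (c (l 16775328) (l 16775448))) (a (c (l 16775768) (l 16775888)) (c (l 16775384) (l 16775832)))) (b (a (c (l 16776648) (l 16776776)) (c (l 16775576) (l 16776360))) (a (c (l 16776656) (l 16776776)) (a (l 16775768) (l 16776152)))))) (a (c (b (a (l 16777224) (l 16776872)) (a (l 16777200) (l 16776872))) (b (a (l 16777448) (l 16777088)) (a (l 16777400) (l 16776744)))) (c (b (a (c (l 16775808) (l 16775912)) (a (l 16775592) (l 16775904))) (a (c (l 16775840) (l 16776592)) (a (l 16775976) (l 16776056)))) (b (a (c (l 16776672) (l 16776784)) (a (l 16776128) (a (l 16775664) (l 16775904))))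 (a (c (l 16776688) (l 16776784)) (a (l 16776328) (a (l 16776040) (l 16775952))))))))))), by decide +kernel⟩

def k41_pm_213_t : ∃ t, chk3 f_pm_213_t t 63 1021 3 = true :=
  ⟨(b (a (a (a (l 16776272) (l 16776472)) (a (a (l 16776632) (l 16776736)) (a (l 16776832) (l 16776936)))) (a (a (a (l 16777040) (l 16776816)) (a (c (l 16777160) (l 16777328)) (c (l 16777256) (l 16777424)))) (a (a (c (b (l 16777416) (l 16777312)) (b (l 16777592) (l 16777472))) (a (c (l 16777424) (l 16777272)) (a (a (b (c (l 16777520) (l 16777712)) (l 16777488)) (b (c (l 16777496) (l 16777680)) (c (l 16777416) (l 16777584)))) (b (l 16777488) (a (c (l 16777376) (l 16777544)) (l 16777400)))))) (a (c (b (a (l 16777176) (l 16776880)) (a (l 16777152) (c (l 16776848) (l 16776928)))) (b (a (l 16777360) (c (l 16777008) (l 16777104))) (a (l 16776992) (c (l 16777008) (l 16777088))))) (a (a (c (b (l 16776000) (l 16776032)) (b (l 16776176) (l 16776512))) (c (b (l 16775848) (l 16776224)) (b (l 16776352) (l 16776376))))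 (a (c (b (l 16776032) (l 16776336)) (b (a (l 16775912) (l 16776160)) (c (l 16775872) (l 16776280)))) (c (b (a (l 16775920) (l 16775848)) (c (l 16775920) (l 16775992))) (b (c (l 16776008) (l 16776088)) (c (l 16776064) (l 16776304)))))))))) (b (b (b (a (a (a (l 16776344) (l 16776512)) (a (l 16776688) (l 16776864))) (b (a (a (l 16777040) (l 16777208)) (a (a (l 16777336) (a (l 16777392) (a (l 16777424) (c (l 16777320) (l 16777480))))) (c (a (l 16777016) (c (l 16776480) (l 16776224))) (a (l 16776512) (a (l 16776784) (l 16776200)))))) (l 14))) (l 14)) (l 14)) (l 14))), by decide +kernel⟩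

def k42_pm_213_t : ∃ t, chk3 f_pm_213_t t 63 511 3 = true :=
  ⟨(l 14), by decide +kernel⟩

theorem s43_pm_213_t : ∃ t, chk3 f_pm_213_t t 63 510 3 = true := ex3_b k40_pm_213_t k41_pm_213_t

theorem s44_pm_213_t : ∃ t, chk3 f_pm_213_t t 63 255 3 = true := ex3_b s43_pm_213_t k42_pm_213_t

theorem s45_pm_213_t : ∃ t, chk3 f_pm_213_t t 63 510 2 = true := ex3_b k37_pm_213_t k38_pm_213_t

theorem s46_pm_213_t : ∃ t, chk3 f_pm_213_t t 63 255 2 = true := ex3_b s45_pm_213_t k39_pm_213_t

theorem s47_pm_213_t : ∃ t, chk3 f_pm_213_t t 63 255 1 = true := ex3_c s46_pm_213_t s44_pm_213_t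

theorem s48_pm_213_t : ∃ t, chk3 f_pm_213_t t 255 1019 1 = true := ex3_a k35_pm_213_t k36_pm_213_t

theorem s49_pm_213_t : ∃ t, chk3 f_pm_213_t t 255 509 1 = true := ex3_b k34_pm_213_t s48_pm_213_t

theorem s50_pm_213_t : ∃ t, chk3 f_pm_213_t t 255 508 1 = true := ex3_a k32_pm_213_t k33_pm_213_t

theorem s51_pm_213_t : ∃ t, chk3 f_pm_213_t t 255 254 1 = true := ex3_b s50_pm_213_t s49_pm_213_t

theorem s52_pm_213_t : ∃ t, chk3 f_pm_213_t t 127 254 1 = true := ex3_a k31_pm_213_t s51_pm_213_t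

theorem s53_pm_213_t : ∃ t, chk3 f_pm_213_t t 63 254 1 = true := ex3_a k30_pm_213_t s52_pm_213_t

theorem s54_pm_213_t : ∃ t, chk3 f_pm_213_t t 63 127 1 = true := ex3_b s53_pm_213_t s47_pm_213_t

theorem s55_pm_213_t : ∃ t, chk3 f_pm_213_t t 63 63 1 = true := ex3_b k29_pm_213_t s54_pm_213_t

theorem s56_pm_213_t : ∃ t, chk3 f_pm_213_t t 63 31 1 = true := ex3_b k28_pm_213_t s55_pm_213_t

theorem s57_pm_213_t : ∃ t, chk3 f_pm_213_t t 62 127 1 = true := ex3_b k26_pm_213_t k27_pm_213_t

theorem s58_pm_213_t : ∃ t, chk3 f_pm_213_t t 62 63 1 = true := ex3_b k25_pm_213_t s57_pm_213_t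

theorem s59_pm_213_t : ∃ t, chk3 f_pm_213_t t 62 31 1 = true := ex3_b k24_pm_213_t s58_pm_213_t

theorem s60_pm_213_t : ∃ t, chk3 f_pm_213_t t 31 31 1 = true := ex3_a s59_pm_213_t s56_pm_213_t

theorem s61_pm_213_t : ∃ t, chk3 f_pm_213_t t 123 127 1 = true := ex3_a k22_pm_213_t k23_pm_213_t

theorem s62_pm_213_t : ∃ t, chk3 f_pm_213_t t 123 63 1 = true := ex3_b k21_pm_213_t s61_pm_213_t

theorem s63_pm_213_t : ∃ t, chk3 f_pm_213_t t 122 127 1 = true := ex3_b k19_pm_213_t k20_pm_213_t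

theorem s64_pm_213_t : ∃ t, chk3 f_pm_213_t t 122 63 1 = true := ex3_b k18_pm_213_t s63_pm_213_t

theorem s65_pm_213_t : ∃ t, chk3 f_pm_213_t t 61 63 1 = true := ex3_a s64_pm_213_t s62_pm_213_t

theorem s66_pm_213_t : ∃ t, chk3 f_pm_213_t t 61 31 1 = true := ex3_b k17_pm_213_t s65_pm_213_t

theorem s67_pm_213_t : ∃ t, chk3 f_pm_213_t t 60 127 1 = true := ex3_b k15_pm_213_t k16_pm_213_t

theorem s68_pm_213_t : ∃ t, chk3 f_pm_213_t t 60 63 1 = true := ex3_b k14_pm_213_t s67_pm_213_t

theorem s69_pm_213_t : ∃ t, chk3 f_pm_213_t t 60 31 1 = true := ex3_b k13_pm_213_t s68_pm_213_t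

theorem s70_pm_213_t : ∃ t, chk3 f_pm_213_t t 30 31 1 = true := ex3_a s69_pm_213_t s66_pm_213_t

theorem s71_pm_213_t : ∃ t, chk3 f_pm_213_t t 15 31 1 = true := ex3_a s70_pm_213_t s60_pm_213_t

theorem s72_pm_213_t : ∃ t, chk3 f_pm_213_t t 15 15 1 = true := ex3_b k12_pm_213_t s71_pm_213_t

theorem s73_pm_213_t : ∃ t, chk3 f_pm_213_t t 15 7 1 = true := ex3_b k11_pm_213_t s72_pm_213_t

theorem s74_pm_213_t : ∃ t, chk3 f_pm_213_t t 29 126 1 = true := ex3_b k8_pm_213_t k9_pm_213_t

theorem s75_pm_213_t : ∃ t, chk3 f_pm_213_t t 14 126 1 = true := ex3_a k7_pm_213_t s74_pm_213_t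

theorem s76_pm_213_t : ∃ t, chk3 f_pm_213_t t 14 63 1 = true := ex3_b s75_pm_213_t k10_pm_213_t

theorem s77_pm_213_t : ∃ t, chk3 f_pm_213_t t 14 31 1 = true := ex3_b k6_pm_213_t s76_pm_213_t

theorem s78_pm_213_t : ∃ t, chk3 f_pm_213_t t 14 15 1 = true := ex3_b k5_pm_213_t s77_pm_213_t

theorem s79_pm_213_t : ∃ t, chk3 f_pm_213_t t 14 7 1 = true := ex3_b k4_pm_213_t s78_pm_213_t

theorem s80_pm_213_t : ∃ t, chk3 f_pm_213_t t 7 7 1 = true := ex3_a s79_pm_213_t s73_pm_213_t

theorem s81_pm_213_t : ∃ t, chk3 f_pm_213_t t 7 3 1 = true := ex3_b k3_pm_213_t s80_pm_213_t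

theorem s82_pm_213_t : ∃ t, chk3 f_pm_213_t t 3 3 1 = true := ex3_a k2_pm_213_t s81_pm_213_t

theorem s83_pm_213_t : ∃ t, chk3 f_pm_213_t t 3 1 1 = true := ex3_b k1_pm_213_t s82_pm_213_t

theorem s84_pm_213_t : ∃ t, chk3 f_pm_213_t t 1 1 1 = true := ex3_a k0_pm_213_t s83_pm_213_t

theorem c_pm_213_t : CertNE 0 536870912 536870912 536870912 1020054732 13421774 3 eng mog cd0q2 cd0q1 pd3 true true false .pnn 2 1 3
    ndB0q2 ndB0q1 pcB3 cut_pm_213_t Ext.none :=
  certNE1 (fam := true) (s1 := true) (s2 := false) (a := 2) (b := 1) (c := 3) (cn := .pnn) (n1 := ndB0q2) (n2 := ndB0q1) (pc := pcB3) (cut := cut_pm_213_t) (xt := Ext.none) (P1 := 0) (W1 := 536870912) (P2 := 536870912) (W2 := 536870912) (P3 := 1020054732) (W3 := 13421774) (N0 := 3) (En := eng) (mo := mog) (C1 := cd0q2) (C2 := cd0q1) (C3 := pd3)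
    rfl (fun _ => rfl) s84_pm_213_t

noncomputable def cut_mm_001_s : Cut := Cut.of [[⟨4, 0, 0, 1449551462⟩]]

noncomputable def f_mm_001_s : ℕ → ℕ → ℕ → ℕ → Bool := onCell 0 536870912 0 536870912 1020054732 13421774
    (rowNE 3 eng mog cd0q0 cd0q0 pd1 0 true false false .up 0 0 1 (qsf 0 536870912 0 536870912 1) ndB0q0 ndB0q0 pcB1 cut_mm_001_s Ext.none)

def k0_mm_001_s : ∃ t, chk3 f_mm_001_s t 1 1 1 = true :=
  ⟨(l 4), by decide +kernel⟩

theorem c_mm_001_s : CertNE 0 536870912 0 536870912 1020054732 13421774 3 eng mog cd0q0 cd0q0 pd1 true false false .up 0 0 1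
    ndB0q0 ndB0q0 pcB1 cut_mm_001_s Ext.none :=
  certNE0 (fam := true) (s1 := false) (s2 := false) (a := 0) (b := 0) (c := 1) (cn := .up) (n1 := ndB0q0) (n2 := ndB0q0) (pc := pcB1) (cut := cut_mm_001_s) (xt := Ext.none) (P1 := 0) (W1 := 536870912) (P2 := 0) (W2 := 536870912) (P3 := 1020054732) (W3 := 13421774) (N0 := 3) (En := eng) (mo := mog) (C1 := cd0q0) (C2 := cd0q0) (C3 := pd1)
    rfl k0_mm_001_s

noncomputable def cut_mm_001_t : Cut := Cut.of [[⟨3, 0, 0, 2845415833⟩]]

noncomputable def f_mm_001_t : ℕ → ℕ → ℕ → ℕ → Bool := onCell 0 536870912 0 536870912 1020054732 13421774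
    (rowNE 3 eng mog cd0q0 cd0q0 pd1 0 true false false .up 0 0 1 (qsf 0 536870912 0 536870912 1) ndB0q0 ndB0q0 pcB1 cut_mm_001_t Ext.none)

def k0_mm_001_t : ∃ t, chk3 f_mm_001_t t 1 1 1 = true :=
  ⟨(l 4), by decide +kernel⟩

theorem c_mm_001_t : CertNE 0 536870912 0 536870912 1020054732 13421774 3 eng mog cd0q0 cd0q0 pd1 true false false .up 0 0 1
    ndB0q0 ndB0q0 pcB1 cut_mm_001_t Ext.none :=
  certNE0 (fam := true) (s1 := false) (s2 := false) (a := 0) (b := 0) (c := 1) (cn := .up) (n1 := ndB0q0) (n2 := ndB0q0) (pc := pcB1) (cut := cut_mm_001_t) (xt := Ext.none) (P1 := 0) (W1 := 536870912) (P2 := 0) (W2 := 536870912) (P3 := 1020054732) (W3 := 13421774) (N0 := 3) (En := eng) (mo := mog) (C1 := cd0q0) (C2 := cd0q0) (C3 := pd1)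
    rfl k0_mm_001_t

noncomputable def cut_mm_011_s : Cut := Cut.of [[⟨4, 0, 0, 1449551462⟩]]

noncomputable def f_mm_011_s : ℕ → ℕ → ℕ → ℕ → Bool := onCell 0 536870912 536870912 536870912 1020054732 13421774
    (rowNE 3 eng mog cd0q0 cd0q1 pd1 0 true false false .pnn 0 1 1 (qsf 0 536870912 536870912 536870912 1) ndB0q0 ndB0q1 pcB1 cut_mm_011_s Ext.none)

def k0_mm_011_s : ∃ t, chk3 f_mm_011_s t 1 1 1 = true :=
  ⟨(l 6), by decide +kernel⟩

theorem c_mm_011_s : CertNE 0 536870912 536870912 536870912 1020054732 13421774 3 eng mog cd0q0 cd0q1 pd1 true false false .pnn 0 1 1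
    ndB0q0 ndB0q1 pcB1 cut_mm_011_s Ext.none :=
  certNE0 (fam := true) (s1 := false) (s2 := false) (a := 0) (b := 1) (c := 1) (cn := .pnn) (n1 := ndB0q0) (n2 := ndB0q1) (pc := pcB1) (cut := cut_mm_011_s) (xt := Ext.none) (P1 := 0) (W1 := 536870912) (P2 := 536870912) (W2 := 536870912) (P3 := 1020054732) (W3 := 13421774) (N0 := 3) (En := eng) (mo := mog) (C1 := cd0q0) (C2 := cd0q1) (C3 := pd1)
    rfl k0_mm_011_s

noncomputable def cut_mm_011_t : Cut := Cut.of [[⟨3, 0, 0, 2845415833⟩]]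

noncomputable def f_mm_011_t : ℕ → ℕ → ℕ → ℕ → Bool := onCell 0 536870912 536870912 536870912 1020054732 13421774
    (rowNE 3 eng mog cd0q0 cd0q1 pd1 0 true false false .pnn 0 1 1 (qsf 0 536870912 536870912 536870912 1) ndB0q0 ndB0q1 pcB1 cut_mm_011_t Ext.none)

def k0_mm_011_t : ∃ t, chk3 f_mm_011_t t 1 1 1 = true :=
  ⟨(b (l 4) (l 5)), by decide +kernel⟩

theorem c_mm_011_t : CertNE 0 536870912 536870912 536870912 1020054732 13421774 3 eng mog cd0q0 cd0q1 pd1 true false false .pnn 0 1 1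
    ndB0q0 ndB0q1 pcB1 cut_mm_011_t Ext.none :=
  certNE0 (fam := true) (s1 := false) (s2 := false) (a := 0) (b := 1) (c := 1) (cn := .pnn) (n1 := ndB0q0) (n2 := ndB0q1) (pc := pcB1) (cut := cut_mm_011_t) (xt := Ext.none) (P1 := 0) (W1 := 536870912) (P2 := 536870912) (W2 := 536870912) (P3 := 1020054732) (W3 := 13421774) (N0 := 3) (En := eng) (mo := mog) (C1 := cd0q0) (C2 := cd0q1) (C3 := pd1)
    rfl k0_mm_011_t

noncomputable def cut_mm_012_s : Cut := Cut.of [[⟨4, 0, 0, 1449551462⟩]]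

noncomputable def f_mm_012_s : ℕ → ℕ → ℕ → ℕ → Bool := onCell 0 536870912 536870912 536870912 1020054732 13421774
    (rowNE 3 eng mog cd0q0 cd0q1 pd2 0 true false false .pnp 0 1 2 (qsf 0 536870912 536870912 536870912 2) ndB0q0 ndB0q1 pcB2 cut_mm_012_s Ext.none)

def k0_mm_012_s : ∃ t, chk3 f_mm_012_s t 1 1 1 = true :=
  ⟨(l 6), by decide +kernel⟩

theorem c_mm_012_s : CertNE 0 536870912 536870912 536870912 1020054732 13421774 3 eng mog cd0q0 cd0q1 pd2 true false false .pnp 0 1 2
    ndB0q0 ndB0q1 pcB2 cut_mm_012_s Ext.none :=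
  certNE0 (fam := true) (s1 := false) (s2 := false) (a := 0) (b := 1) (c := 2) (cn := .pnp) (n1 := ndB0q0) (n2 := ndB0q1) (pc := pcB2) (cut := cut_mm_012_s) (xt := Ext.none) (P1 := 0) (W1 := 536870912) (P2 := 536870912) (W2 := 536870912) (P3 := 1020054732) (W3 := 13421774) (N0 := 3) (En := eng) (mo := mog) (C1 := cd0q0) (C2 := cd0q1) (C3 := pd2)
    rfl k0_mm_012_s

noncomputable def cut_mm_012_t : Cut := Cut.of [[⟨3, 0, 0, 2845415833⟩]]

noncomputable def f_mm_012_t : ℕ → ℕ → ℕ → ℕ → Bool := onCell 0 536870912 536870912 536870912 1020054732 13421774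
    (rowNE 3 eng mog cd0q0 cd0q1 pd2 0 true false false .pnp 0 1 2 (qsf 0 536870912 536870912 536870912 2) ndB0q0 ndB0q1 pcB2 cut_mm_012_t Ext.none)

def k0_mm_012_t : ∃ t, chk3 f_mm_012_t t 1 1 1 = true :=
  ⟨(b (l 4) (l 5)), by decide +kernel⟩

theorem c_mm_012_t : CertNE 0 536870912 536870912 536870912 1020054732 13421774 3 eng mog cd0q0 cd0q1 pd2 true false false .pnp 0 1 2
    ndB0q0 ndB0q1 pcB2 cut_mm_012_t Ext.none :=
  certNE0 (fam := true) (s1 := false) (s2 := false) (a := 0) (b := 1) (c := 2) (cn := .pnp) (n1 := ndB0q0) (n2 := ndB0q1) (pc := pcB2) (cut := cut_mm_012_t) (xt := Ext.none) (P1 := 0) (W1 := 536870912) (P2 := 536870912) (W2 := 536870912) (P3 := 1020054732) (W3 := 13421774) (N0 := 3) (En := eng) (mo := mog) (C1 := cd0q0) (C2 := cd0q1) (C3 := pd2)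
    rfl k0_mm_012_t

noncomputable def cut_mm_022_s : Cut := Cut.of [[⟨4, 0, 0, 1449551462⟩]]

noncomputable def f_mm_022_s : ℕ → ℕ → ℕ → ℕ → Bool := onCell 0 536870912 0 536870912 1020054732 13421774
    (rowNE 3 eng mog cd0q0 cd0q2 pd2 0 true false false .pp 0 2 2 (qsf 0 536870912 0 536870912 2) ndB0q0 ndB0q2 pcB2 cut_mm_022_s Ext.none)

def k0_mm_022_s : ∃ t, chk3 f_mm_022_s t 1 1 1 = true :=
  ⟨(l 5), by decide +kernel⟩

theorem c_mm_022_s : CertNE 0 536870912 0 536870912 1020054732 13421774 3 eng mog cd0q0 cd0q2 pd2 true false false .pp 0 2 2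
    ndB0q0 ndB0q2 pcB2 cut_mm_022_s Ext.none :=
  certNE0 (fam := true) (s1 := false) (s2 := false) (a := 0) (b := 2) (c := 2) (cn := .pp) (n1 := ndB0q0) (n2 := ndB0q2) (pc := pcB2) (cut := cut_mm_022_s) (xt := Ext.none) (P1 := 0) (W1 := 536870912) (P2 := 0) (W2 := 536870912) (P3 := 1020054732) (W3 := 13421774) (N0 := 3) (En := eng) (mo := mog) (C1 := cd0q0) (C2 := cd0q2) (C3 := pd2)
    rfl k0_mm_022_s

noncomputable def cut_mm_022_t : Cut := Cut.of [[⟨3, 0, 0, 2845415833⟩]]

noncomputable def f_mm_022_t : ℕ → ℕ → ℕ → ℕ → Bool := onCell 0 536870912 0 536870912 1020054732 13421774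
    (rowNE 3 eng mog cd0q0 cd0q2 pd2 0 true false false .pp 0 2 2 (qsf 0 536870912 0 536870912 2) ndB0q0 ndB0q2 pcB2 cut_mm_022_t Ext.none)

def k0_mm_022_t : ∃ t, chk3 f_mm_022_t t 1 1 1 = true :=
  ⟨(l 5), by decide +kernel⟩

theorem c_mm_022_t : CertNE 0 536870912 0 536870912 1020054732 13421774 3 eng mog cd0q0 cd0q2 pd2 true false false .pp 0 2 2
    ndB0q0 ndB0q2 pcB2 cut_mm_022_t Ext.none :=
  certNE0 (fam := true) (s1 := false) (s2 := false) (a := 0) (b := 2) (c := 2) (cn := .pp) (n1 := ndB0q0) (n2 := ndB0q2) (pc := pcB2) (cut := cut_mm_022_t) (xt := Ext.none) (P1 := 0) (W1 := 536870912) (P2 := 0) (W2 := 536870912) (P3 := 1020054732) (W3 := 13421774) (N0 := 3) (En := eng) (mo := mog) (C1 := cd0q0) (C2 := cd0q2) (C3 := pd2)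
    rfl k0_mm_022_t

noncomputable def cut_mm_023_s : Cut := Cut.of [[⟨4, 0, 0, 1449551462⟩]]

noncomputable def f_mm_023_s : ℕ → ℕ → ℕ → ℕ → Bool := onCell 0 536870912 0 536870912 1020054732 13421774
    (rowNE 3 eng mog cd0q0 cd0q2 pd3 0 true false false .up 0 2 3 (qsf 0 536870912 0 536870912 3) ndB0q0 ndB0q2 pcB3 cut_mm_023_s Ext.none)

def k0_mm_023_s : ∃ t, chk3 f_mm_023_s t 1 1 1 = true :=
  ⟨(l 5), by decide +kernel⟩

theorem c_mm_023_s : CertNE 0 536870912 0 536870912 1020054732 13421774 3 eng mog cd0q0 cd0q2 pd3 true false false .up 0 2 3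
    ndB0q0 ndB0q2 pcB3 cut_mm_023_s Ext.none :=
  certNE0 (fam := true) (s1 := false) (s2 := false) (a := 0) (b := 2) (c := 3) (cn := .up) (n1 := ndB0q0) (n2 := ndB0q2) (pc := pcB3) (cut := cut_mm_023_s) (xt := Ext.none) (P1 := 0) (W1 := 536870912) (P2 := 0) (W2 := 536870912) (P3 := 1020054732) (W3 := 13421774) (N0 := 3) (En := eng) (mo := mog) (C1 := cd0q0) (C2 := cd0q2) (C3 := pd3)
    rfl k0_mm_023_s

noncomputable def cut_mm_023_t : Cut := Cut.of [[⟨3, 0, 0, 2845415833⟩]]

noncomputable def f_mm_023_t : ℕ → ℕ → ℕ → ℕ → Bool := onCell 0 536870912 0 536870912 1020054732 13421774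
    (rowNE 3 eng mog cd0q0 cd0q2 pd3 0 true false false .up 0 2 3 (qsf 0 536870912 0 536870912 3) ndB0q0 ndB0q2 pcB3 cut_mm_023_t Ext.none)

def k0_mm_023_t : ∃ t, chk3 f_mm_023_t t 1 1 1 = true :=
  ⟨(l 5), by decide +kernel⟩

theorem c_mm_023_t : CertNE 0 536870912 0 536870912 1020054732 13421774 3 eng mog cd0q0 cd0q2 pd3 true false false .up 0 2 3
    ndB0q0 ndB0q2 pcB3 cut_mm_023_t Ext.none :=
  certNE0 (fam := true) (s1 := false) (s2 := false) (a := 0) (b := 2) (c := 3) (cn := .up) (n1 := ndB0q0) (n2 := ndB0q2) (pc := pcB3) (cut := cut_mm_023_t) (xt := Ext.none) (P1 := 0) (W1 := 536870912) (P2 := 0) (W2 := 536870912) (P3 := 1020054732) (W3 := 13421774) (N0 := 3) (En := eng) (mo := mog) (C1 := cd0q0) (C2 := cd0q2) (C3 := pd3)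
    rfl k0_mm_023_t

noncomputable def cut_mm_101_s : Cut := Cut.of [[⟨4, 0, 0, 1449551462⟩], [⟨0, 1, 0, 38347922⟩, ⟨1, 0, 0, 38347922⟩, ⟨2, 1, 0, 38347922⟩]]

noncomputable def f_mm_101_s : ℕ → ℕ → ℕ → ℕ → Bool := onCell 536870912 536870912 0 536870912 1020054732 13421774
    (rowNE 3 eng mog cd0q1 cd0q0 pd1 0 true false false .npn 1 0 1 (qsf 536870912 536870912 0 536870912 1) ndB0q1 ndB0q0 pcB1 cut_mm_101_s Ext.none)

def k0_mm_101_s : ∃ t, chk3 f_mm_101_s t 1 1 1 = true :=
  ⟨(l 6), by decide +kernel⟩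

theorem c_mm_101_s : CertNE 536870912 536870912 0 536870912 1020054732 13421774 3 eng mog cd0q1 cd0q0 pd1 true false false .npn 1 0 1
    ndB0q1 ndB0q0 pcB1 cut_mm_101_s Ext.none :=
  certNE0 (fam := true) (s1 := false) (s2 := false) (a := 1) (b := 0) (c := 1) (cn := .npn) (n1 := ndB0q1) (n2 := ndB0q0) (pc := pcB1) (cut := cut_mm_101_s) (xt := Ext.none) (P1 := 536870912) (W1 := 536870912) (P2 := 0) (W2 := 536870912) (P3 := 1020054732) (W3 := 13421774) (N0 := 3) (En := eng) (mo := mog) (C1 := cd0q1) (C2 := cd0q0) (C3 := pd1)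
    rfl k0_mm_101_s

noncomputable def cut_mm_101_t : Cut := Cut.of [[⟨3, 0, 0, 2845415833⟩], [⟨0, 1, 0, 38347922⟩, ⟨1, 0, 0, 38347922⟩, ⟨2, 1, 0, 38347922⟩]]

noncomputable def f_mm_101_t : ℕ → ℕ → ℕ → ℕ → Bool := onCell 536870912 536870912 0 536870912 1020054732 13421774
    (rowNE 3 eng mog cd0q1 cd0q0 pd1 0 true false false .npn 1 0 1 (qsf 536870912 536870912 0 536870912 1) ndB0q1 ndB0q0 pcB1 cut_mm_101_t Ext.none)

def k0_mm_101_t : ∃ t, chk3 f_mm_101_t t 1 1 1 = true :=
  ⟨(a (l 4) (b (a (l 4) (b (a (l 4) (b (b (a (l 4) (l 14)) (l 4)) (l 4))) (l 4))) (l 4))), by decide +kernel⟩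

theorem c_mm_101_t : CertNE 536870912 536870912 0 536870912 1020054732 13421774 3 eng mog cd0q1 cd0q0 pd1 true false false .npn 1 0 1
    ndB0q1 ndB0q0 pcB1 cut_mm_101_t Ext.none :=
  certNE0 (fam := true) (s1 := false) (s2 := false) (a := 1) (b := 0) (c := 1) (cn := .npn) (n1 := ndB0q1) (n2 := ndB0q0) (pc := pcB1) (cut := cut_mm_101_t) (xt := Ext.none) (P1 := 536870912) (W1 := 536870912) (P2 := 0) (W2 := 536870912) (P3 := 1020054732) (W3 := 13421774) (N0 := 3) (En := eng) (mo := mog) (C1 := cd0q1) (C2 := cd0q0) (C3 := pd1)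
    rfl k0_mm_101_t

noncomputable def cut_mm_102_s : Cut := Cut.of [[⟨4, 0, 0, 1449551462⟩], [⟨0, 1, 0, 38347922⟩, ⟨1, 0, 0, 38347922⟩, ⟨2, 1, 0, 38347922⟩]]

noncomputable def f_mm_102_s : ℕ → ℕ → ℕ → ℕ → Bool := onCell 536870912 536870912 0 536870912 1020054732 13421774
    (rowNE 3 eng mog cd0q1 cd0q0 pd2 0 true false false .npp 1 0 2 (qsf 536870912 536870912 0 536870912 2) ndB0q1 ndB0q0 pcB2 cut_mm_102_s Ext.none)

def k0_mm_102_s : ∃ t, chk3 f_mm_102_s t 1 1 1 = true :=
  ⟨(l 6), by decide +kernel⟩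

theorem c_mm_102_s : CertNE 536870912 536870912 0 536870912 1020054732 13421774 3 eng mog cd0q1 cd0q0 pd2 true false false .npp 1 0 2
    ndB0q1 ndB0q0 pcB2 cut_mm_102_s Ext.none :=
  certNE0 (fam := true) (s1 := false) (s2 := false) (a := 1) (b := 0) (c := 2) (cn := .npp) (n1 := ndB0q1) (n2 := ndB0q0) (pc := pcB2) (cut := cut_mm_102_s) (xt := Ext.none) (P1 := 536870912) (W1 := 536870912) (P2 := 0) (W2 := 536870912) (P3 := 1020054732) (W3 := 13421774) (N0 := 3) (En := eng) (mo := mog) (C1 := cd0q1) (C2 := cd0q0) (C3 := pd2)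
    rfl k0_mm_102_s

noncomputable def cut_mm_102_t : Cut := Cut.of [[⟨3, 0, 0, 2845415833⟩], [⟨0, 1, 0, 38347922⟩, ⟨1, 0, 0, 38347922⟩, ⟨2, 1, 0, 38347922⟩]]

noncomputable def f_mm_102_t : ℕ → ℕ → ℕ → ℕ → Bool := onCell 536870912 536870912 0 536870912 1020054732 13421774
    (rowNE 3 eng mog cd0q1 cd0q0 pd2 0 true false false .npp 1 0 2 (qsf 536870912 536870912 0 536870912 2) ndB0q1 ndB0q0 pcB2 cut_mm_102_t Ext.none)

def k0_mm_102_t : ∃ t, chk3 f_mm_102_t t 1 1 1 = true :=
  ⟨(a (l 4) (b (a (l 4) (b (a (l 4) (b (a (l 4) (b (l 14) (l 4))) (l 4))) (l 4))) (l 4))), by decide +kernel⟩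

theorem c_mm_102_t : CertNE 536870912 536870912 0 536870912 1020054732 13421774 3 eng mog cd0q1 cd0q0 pd2 true false false .npp 1 0 2
    ndB0q1 ndB0q0 pcB2 cut_mm_102_t Ext.none :=
  certNE0 (fam := true) (s1 := false) (s2 := false) (a := 1) (b := 0) (c := 2) (cn := .npp) (n1 := ndB0q1) (n2 := ndB0q0) (pc := pcB2) (cut := cut_mm_102_t) (xt := Ext.none) (P1 := 536870912) (W1 := 536870912) (P2 := 0) (W2 := 536870912) (P3 := 1020054732) (W3 := 13421774) (N0 := 3) (En := eng) (mo := mog) (C1 := cd0q1) (C2 := cd0q0) (C3 := pd2)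
    rfl k0_mm_102_t

noncomputable def cut_mm_112_s : Cut := Cut.of [[⟨4, 0, 0, 1449551462⟩]]

noncomputable def f_mm_112_s : ℕ → ℕ → ℕ → ℕ → Bool := onCell 536870912 536870912 536870912 536870912 1020054732 13421774
    (rowNE 3 eng mog cd0q1 cd0q1 pd2 0 true false false .dn 1 1 2 (qsf 536870912 536870912 536870912 536870912 2) ndB0q1 ndB0q1 pcB2 cut_mm_112_s Ext.none)

def k0_mm_112_s : ∃ t, chk3 f_mm_112_s t 1 1 1 = true :=
  ⟨(l 4), by decide +kernel⟩

theorem c_mm_112_s : CertNE 536870912 536870912 536870912 536870912 1020054732 13421774 3 eng mog cd0q1 cd0q1 pd2 true false false .dn 1 1 2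
    ndB0q1 ndB0q1 pcB2 cut_mm_112_s Ext.none :=
  certNE0 (fam := true) (s1 := false) (s2 := false) (a := 1) (b := 1) (c := 2) (cn := .dn) (n1 := ndB0q1) (n2 := ndB0q1) (pc := pcB2) (cut := cut_mm_112_s) (xt := Ext.none) (P1 := 536870912) (W1 := 536870912) (P2 := 536870912) (W2 := 536870912) (P3 := 1020054732) (W3 := 13421774) (N0 := 3) (En := eng) (mo := mog) (C1 := cd0q1) (C2 := cd0q1) (C3 := pd2)
    rfl k0_mm_112_s

noncomputable def cut_mm_112_t : Cut := Cut.of [[⟨3, 0, 0, 2845415833⟩]]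

noncomputable def f_mm_112_t : ℕ → ℕ → ℕ → ℕ → Bool := onCell 536870912 536870912 536870912 536870912 1020054732 13421774
    (rowNE 3 eng mog cd0q1 cd0q1 pd2 0 true false false .dn 1 1 2 (qsf 536870912 536870912 536870912 536870912 2) ndB0q1 ndB0q1 pcB2 cut_mm_112_t Ext.none)

def k0_mm_112_t : ∃ t, chk3 f_mm_112_t t 1 1 1 = true :=
  ⟨(l 4), by decide +kernel⟩

theorem c_mm_112_t : CertNE 536870912 536870912 536870912 536870912 1020054732 13421774 3 eng mog cd0q1 cd0q1 pd2 true false false .dn 1 1 2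
    ndB0q1 ndB0q1 pcB2 cut_mm_112_t Ext.none :=
  certNE0 (fam := true) (s1 := false) (s2 := false) (a := 1) (b := 1) (c := 2) (cn := .dn) (n1 := ndB0q1) (n2 := ndB0q1) (pc := pcB2) (cut := cut_mm_112_t) (xt := Ext.none) (P1 := 536870912) (W1 := 536870912) (P2 := 536870912) (W2 := 536870912) (P3 := 1020054732) (W3 := 13421774) (N0 := 3) (En := eng) (mo := mog) (C1 := cd0q1) (C2 := cd0q1) (C3 := pd2)
    rfl k0_mm_112_t

noncomputable def cut_mm_113_s : Cut := Cut.of [[⟨4, 0, 0, 1449551462⟩]]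

noncomputable def f_mm_113_s : ℕ → ℕ → ℕ → ℕ → Bool := onCell 536870912 536870912 536870912 536870912 1020054732 13421774
    (rowNE 3 eng mog cd0q1 cd0q1 pd3 0 true false false .nn 1 1 3 (qsf 536870912 536870912 536870912 536870912 3) ndB0q1 ndB0q1 pcB3 cut_mm_113_s Ext.none)

def k0_mm_113_s : ∃ t, chk3 f_mm_113_s t 1 1 1 = true :=
  ⟨(l 4), by decide +kernel⟩

theorem c_mm_113_s : CertNE 536870912 536870912 536870912 536870912 1020054732 13421774 3 eng mog cd0q1 cd0q1 pd3 true false false .nn 1 1 3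
    ndB0q1 ndB0q1 pcB3 cut_mm_113_s Ext.none :=
  certNE0 (fam := true) (s1 := false) (s2 := false) (a := 1) (b := 1) (c := 3) (cn := .nn) (n1 := ndB0q1) (n2 := ndB0q1) (pc := pcB3) (cut := cut_mm_113_s) (xt := Ext.none) (P1 := 536870912) (W1 := 536870912) (P2 := 536870912) (W2 := 536870912) (P3 := 1020054732) (W3 := 13421774) (N0 := 3) (En := eng) (mo := mog) (C1 := cd0q1) (C2 := cd0q1) (C3 := pd3)
    rfl k0_mm_113_s

noncomputable def cut_mm_113_t : Cut := Cut.of [[⟨3, 0, 0, 2845415833⟩]]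

noncomputable def f_mm_113_t : ℕ → ℕ → ℕ → ℕ → Bool := onCell 536870912 536870912 536870912 536870912 1020054732 13421774
    (rowNE 3 eng mog cd0q1 cd0q1 pd3 0 true false false .nn 1 1 3 (qsf 536870912 536870912 536870912 536870912 3) ndB0q1 ndB0q1 pcB3 cut_mm_113_t Ext.none)

def k0_mm_113_t : ∃ t, chk3 f_mm_113_t t 1 1 1 = true :=
  ⟨(l 4), by decide +kernel⟩

theorem c_mm_113_t : CertNE 536870912 536870912 536870912 536870912 1020054732 13421774 3 eng mog cd0q1 cd0q1 pd3 true false false .nn 1 1 3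
    ndB0q1 ndB0q1 pcB3 cut_mm_113_t Ext.none :=
  certNE0 (fam := true) (s1 := false) (s2 := false) (a := 1) (b := 1) (c := 3) (cn := .nn) (n1 := ndB0q1) (n2 := ndB0q1) (pc := pcB3) (cut := cut_mm_113_t) (xt := Ext.none) (P1 := 536870912) (W1 := 536870912) (P2 := 536870912) (W2 := 536870912) (P3 := 1020054732) (W3 := 13421774) (N0 := 3) (En := eng) (mo := mog) (C1 := cd0q1) (C2 := cd0q1) (C3 := pd3)
    rfl k0_mm_113_t

noncomputable def cut_mm_123_s : Cut := Cut.of [[⟨4, 0, 0, 1449551462⟩]]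

noncomputable def f_mm_123_s : ℕ → ℕ → ℕ → ℕ → Bool := onCell 536870912 536870912 0 536870912 1020054732 13421774
    (rowNE 3 eng mog cd0q1 cd0q2 pd3 0 true false false .npn 1 2 3 (qsf 536870912 536870912 0 536870912 3) ndB0q1 ndB0q2 pcB3 cut_mm_123_s Ext.none)

def k0_mm_123_s : ∃ t, chk3 f_mm_123_s t 1 1 1 = true :=
  ⟨(l 6), by decide +kernel⟩

theorem c_mm_123_s : CertNE 536870912 536870912 0 536870912 1020054732 13421774 3 eng mog cd0q1 cd0q2 pd3 true false false .npn 1 2 3
    ndB0q1 ndB0q2 pcB3 cut_mm_123_s Ext.none :=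
  certNE0 (fam := true) (s1 := false) (s2 := false) (a := 1) (b := 2) (c := 3) (cn := .npn) (n1 := ndB0q1) (n2 := ndB0q2) (pc := pcB3) (cut := cut_mm_123_s) (xt := Ext.none) (P1 := 536870912) (W1 := 536870912) (P2 := 0) (W2 := 536870912) (P3 := 1020054732) (W3 := 13421774) (N0 := 3) (En := eng) (mo := mog) (C1 := cd0q1) (C2 := cd0q2) (C3 := pd3)
    rfl k0_mm_123_s

noncomputable def cut_mm_123_t : Cut := Cut.of [[⟨3, 0, 0, 2845415833⟩]]

noncomputable def f_mm_123_t : ℕ → ℕ → ℕ → ℕ → Bool := onCell 536870912 536870912 0 536870912 1020054732 13421774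
    (rowNE 3 eng mog cd0q1 cd0q2 pd3 0 true false false .npn 1 2 3 (qsf 536870912 536870912 0 536870912 3) ndB0q1 ndB0q2 pcB3 cut_mm_123_t Ext.none)

def k0_mm_123_t : ∃ t, chk3 f_mm_123_t t 1 1 1 = true :=
  ⟨(a (l 5) (l 4)), by decide +kernel⟩

theorem c_mm_123_t : CertNE 536870912 536870912 0 536870912 1020054732 13421774 3 eng mog cd0q1 cd0q2 pd3 true false false .npn 1 2 3
    ndB0q1 ndB0q2 pcB3 cut_mm_123_t Ext.none :=
  certNE0 (fam := true) (s1 := false) (s2 := false) (a := 1) (b := 2) (c := 3) (cn := .npn) (n1 := ndB0q1) (n2 := ndB0q2) (pc := pcB3) (cut := cut_mm_123_t) (xt := Ext.none) (P1 := 536870912) (W1 := 536870912) (P2 := 0) (W2 := 536870912) (P3 := 1020054732) (W3 := 13421774) (N0 := 3) (En := eng) (mo := mog) (C1 := cd0q1) (C2 := cd0q2) (C3 := pd3)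
    rfl k0_mm_123_t

noncomputable def cut_mm_202_s : Cut := Cut.of [[⟨4, 0, 0, 1449551462⟩], [⟨0, 1, 0, 26843545⟩, ⟨1, 0, 0, 26843545⟩, ⟨2, 1, 0, 26843545⟩]]

noncomputable def f_mm_202_s : ℕ → ℕ → ℕ → ℕ → Bool := onCell 0 536870912 0 536870912 1020054732 13421774
    (rowNE 3 eng mog cd0q2 cd0q0 pd2 0 true false false .pp 2 0 2 (qsf 0 536870912 0 536870912 2) ndB0q2 ndB0q0 pcB2 cut_mm_202_s Ext.none)

def k0_mm_202_s : ∃ t, chk3 f_mm_202_s t 1 1 1 = true :=
  ⟨(l 6), by decide +kernel⟩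

theorem c_mm_202_s : CertNE 0 536870912 0 536870912 1020054732 13421774 3 eng mog cd0q2 cd0q0 pd2 true false false .pp 2 0 2
    ndB0q2 ndB0q0 pcB2 cut_mm_202_s Ext.none :=
  certNE0 (fam := true) (s1 := false) (s2 := false) (a := 2) (b := 0) (c := 2) (cn := .pp) (n1 := ndB0q2) (n2 := ndB0q0) (pc := pcB2) (cut := cut_mm_202_s) (xt := Ext.none) (P1 := 0) (W1 := 536870912) (P2 := 0) (W2 := 536870912) (P3 := 1020054732) (W3 := 13421774) (N0 := 3) (En := eng) (mo := mog) (C1 := cd0q2) (C2 := cd0q0) (C3 := pd2)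
    rfl k0_mm_202_s

noncomputable def cut_mm_202_t : Cut := Cut.of [[⟨3, 0, 0, 2845415833⟩], [⟨0, 1, 0, 26843545⟩, ⟨1, 0, 0, 26843545⟩, ⟨2, 1, 0, 26843545⟩]]

noncomputable def f_mm_202_t : ℕ → ℕ → ℕ → ℕ → Bool := onCell 0 536870912 0 536870912 1020054732 13421774
    (rowNE 3 eng mog cd0q2 cd0q0 pd2 0 true false false .pp 2 0 2 (qsf 0 536870912 0 536870912 2) ndB0q2 ndB0q0 pcB2 cut_mm_202_t Ext.none)

def k0_mm_202_t : ∃ t, chk3 f_mm_202_t t 2 2 1 = true :=
  ⟨(b (a (l 6) (b (l 6) (a (l 6) (a (l 6) (b (b (l 6) (b (l 6) (l 15992568))) (b (b (l 15989688) (l 15989552)) (b (l 15991976) (l 15996800)))))))) (a (b (l 6) (a (l 6) (a (l 6) (a (l 6) (b (l 6) (b (l 6) (l 15507696))))))) (b (a (b (l 6) (a (l 6) (a (b (l 6) (l 15644352)) (b (l 15712872) (l 15744728))))) (b (a (b (c (l 15841672) (l 15824000)) (c (l 15859904) (l 15841712))) (b (a (l 15944240) (l 16051280)) (a (l 15987280) (l 16075992)))) (a (b (a (l 15809264) (l 15924976)) (a (l 15864464) (l 15961528))) (b (a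 (l 16017976) (l 16119600)) (a (l 16067272) (b (l 16139160) (l 16161560))))))) (a (b (a (b (c (l 15538880) (l 15532576)) (c (l 15602432) (l 15575472))) (b (a (l 15682256) (l 15784848)) (a (l 15728136) (l 15853688)))) (a (b (a (l 15563704) (l 15673432)) (a (l 15620776) (l 15753128))) (b (a (l 15802464) (l 15908792)) (a (l 15862768) (l 15970616))))) (b (a (b (a (l 15906736) (l 16005888)) (a (l 15956528) (l 16057560))) (b (a (l 16103200) (b (l 16185784) (l 16211752))) (a (l 16188160) (b (l 16239416) (l 16268704))))) (a (b (a (l 16013328) (l 16136984)) (a (l 16076624) (b (l 16163976) (l 16197816)))) (b (a (b (l 16201144) (l 16232744)) (b (l 16299552) (l 16331896))) (a (b (l 16265824) (l 16300320)) (b (l 16365680) (l 16400824)))))))))), by decide +kernel⟩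

def k1_mm_202_t : ∃ t, chk3 f_mm_202_t t 6 8 1 = true :=
  ⟨(b (a (a (l 6) (a (l 6) (b (l 16393832) (l 16376656)))) (a (b (a (b (l 16492864) (l 16475032)) (b (l 16495480) (l 16500536))) (a (b (l 16458040) (l 16441872)) (b (l 16506584) (l 16492416)))) (b (a (b (a (l 16547640) (l 16567488)) (a (l 16554440) (l 16554664))) (b (b (l 16577216) (l 16571840)) (a (l 16574760) (l 16594008)))) (a (b (l 16510264) (l 16498064)) (b (a (l 16584304) (l 16583704)) (a (l 16573584) (l 16594928))))))) (a (a (b (l 6) (a (l 6) (l 16209608))) (b (a (l 16304288) (b (l 16371200) (l 16354976))) (a (l 16274128) (b (l 16341472) (l 16331928))))) (a (b (a (b (l 16426384) (l 16412064)) (b (l 16478864) (l 16466440))) (a (b (l 16400416) (l 16392664)) (b (l 16456664) (l 16450720)))) (b (a (b (l 16486440) (l 16475880)) (b (a (l 16563392) (l 16585680)) (a (l 16554232) (l 16577440)))) (a (b (a (l 16496872) (l 16522704)) (a (l 16492336) (l 16519088))) (b (a (l 16547696) (l 16571824)) (a (l 16545016)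 (l 16570064)))))))), by decide +kernel⟩

def k2_mm_202_t : ∃ t, chk3 f_mm_202_t t 6 9 1 = true :=
  ⟨(a (b (a (b (a (l 16120200) (l 16190144)) (b (l 16146888) (l 16144504))) (b (a (l 16258056) (l 16323744)) (a (l 16252888) (l 16332312)))) (a (b (a (l 16086536) (l 16183928)) (a (l 16116864) (l 16196248))) (b (a (l 16258232) (b (l 16327168) (l 16333928))) (a (b (l 16268816) (l 16278688)) (b (l 16343024) (l 16354296)))))) (b (a (b (a (b (l 16388272) (l 16386392)) (b (l 16448080) (l 16447824))) (a (b (l 16387040) (l 16390232)) (b (l 16450080) (l 16454832)))) (b (a (b (a (l 16491016) (l 16518688)) (a (l 16492024) (l 16520568))) (b (a (l 16545552) (l 16571528)) (a (l 16548288) (l 16575176)))) (a (b (a (l 16495488) (l 16524816)) (a (l 16501416) (l 16531528))) (b (a (l 16553360) (l 16581096)) (a (l 16560856) (c (l 16589688) (l 16589040))))))) (a (b (a (b (l 16395968) (l 16404208)) (b (l 16483064) (a (l 16455184) (l 16488288)))) (a (b (l 16414744) (l 16427424)) (b (a (l 16466808)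 (l 16500640)) (a (l 16480536) (l 16515064))))) (a (b (b (a (l 16509824) (l 16540696)) (a (l 16520672) (l 16552288))) (b (a (l 16533736) (l 16576568)) (a (l 16548864) (c (l 16582944) (l 16580896))))) (b (b (a (l 16581272) (c (l 16600544) (l 16599600))) (a (c (l 16583864) (l 16582408)) (c (l 16613728) (l 16612600)))) (b (a (c (l 16598448) (l 16596864)) (c (l 16629032) (l 16627800))) (a (c (l 16615008) (l 16613384)) (c (b (l 16641800) (l 16650912)) (l 16645048))))))))), by decide +kernel⟩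

def k3_mm_202_t : ∃ t, chk3 f_mm_202_t t 14 16 1 = true :=
  ⟨(a (b (a (b (a (l 16589752) (b (l 16605728) (l 16616208))) (a (l 16591128) (l 16608280))) (b (a (b (l 16607808) (l 16617696)) (b (l 16611448) (l 16620776))) (a (b (l 16627624) (l 16637648)) (b (l 16630112) (l 16639496))))) (a (b (a (l 16603264) (l 16600736)) (a (l 16594416) (l 16613944))) (b (a (b (l 16640608) (l 16637440)) (b (l 16648992) (l 16653888))) (a (b (l 16634216) (l 16630888)) (b (l 16651344) (l 16648720)))))) (b (b (a (a (b (l 16616472) (l 16625464)) (b (a (l 16642096) (l 16645568)) (a (l 16650888) (l 16654312)))) (c (a (b (l 16654112) (l 16662696)) (b (l 16651744) (l 16649744))) (a (b (l 16648456) (l 16657208)) (b (l 16646800) (l 16644984))))) (a (a (b (l 16634240) (l 16643032)) (b (b (l 16637952) (l 16642120)) (l 16648296))) (a (b (b (l 16645232) (l 16649248)) (a (l 16653312) (l 16657096))) (b (c (l 16657848) (l 16653264)) (a (l 16661176) (l 16665584)))))) (a (b (a (b (l 16651880) (l 16660856))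 (b (l 16656552) (l 16664872))) (a (b (l 16667208) (l 16665272)) (b (l 16673328) (l 16680480)))) (b (a (b (a (l 16661152) (l 16664712)) (a (l 16669024) (l 16672312))) (b (a (l 16668672) (l 16672960)) (a (l 16676000) (l 16680080)))) (a (b (a (l 16676984) (l 16679968)) (a (l 16685096) (l 16687736))) (b (a (l 16683360) (l 16687168)) (a (l 16690808) (l 16694312)))))))), by decide +kernel⟩

def k4_mm_202_t : ∃ t, chk3 f_mm_202_t t 14 17 1 = true :=
  ⟨(a (b (a (b (a (l 16586104) (l 16606568)) (a (l 16578784) (l 16594920))) (b (a (c (l 16644704) (l 16628440)) (b (l 16645984) (l 16643360))) (a (b (l 16642768) (l 16640520)) (a (l 16635216) (l 16644664))))) (a (b (a (l 16595056) (b (l 16617976) (l 16616976))) (a (l 16573248) (b (l 16617040) (l 16618072)))) (b (a (b (l 16639064) (l 16638520)) (b (l 16659144) (l 16659056))) (a (b (l 16639040) (l 16640536)) (b (l 16660032) (l 16641024)))))) (b (a (b (a (b (l 16663240) (l 16661056)) (b (l 16679136) (l 16677672))) (a (b (l 16659112)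 (l 16657760)) (b (l 16676160) (b (l 16675416) (l 16675152))))) (b (a (b (a (l 16690224) (l 16695704)) (a (l 16689272) (l 16696656))) (b (a (l 16698416) (l 16701584)) (a (l 16703640) (l 16709080)))) (a (b (a (l 16688280) (l 16696008)) (c (l 16690720) (l 16692976))) (b (a (l 16703448) (l 16720976)) (a (l 16713944) (c (l 16710008) (l 16732816))))))) (a (b (a (b (l 16657200) (l 16657568)) (b (a (l 16691744) (l 16700440)) (a (l 16692448) (l 16701368)))) (a (b (a (l 16675088) (l 16684792)) (a (l 16677400) (l 16687328))) (b (a (l 16694224) (l 16703368)) (a (l 16696992) (l 16706368))))) (b (a (b (c (l 16691152) (l 16692936)) (c (l 16692608) (l 16694000))) (b (a (l 16714592) (b (l 16711568) (l 16733184))) (c (a (l 16726080) (l 16734112)) (a (l 16727272) (l 16735168))))) (a (b (c (a (l 16711688) (l 16720408)) (l 16706680)) (c (a (l 16715024) (l 16723968)) (l 16699424))) (b (c (a (l 16728904) (l 16737152)) (b (l 16712144) (l 16713768))) (c (a (l 16732680) (l 16741152)) (a (l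 16733392) (l 16741752))))))))), by decide +kernel⟩

def k5_mm_202_t : ∃ t, chk3 f_mm_202_t t 30 32 1 = true :=
  ⟨(a (a (b (b (a (b (l 16664584) (l 16668952)) (b (l 16669608) (l 16673960))) (a (l 16654344) (c (l 16682232) (l 16678360)))) (b (a (l 16662488) (l 16675328)) (a (l 16670240) (l 16685680)))) (b (b (a (b (l 16674912) (l 16679256)) (b (l 16680504) (l 16684840))) (a (c (l 16687344) (l 16683824)) (b (l 16689088) (l 16693232)))) (b (a (c (l 16695352) (l 16692024)) (c (l 16700752) (l 16697776))) (a (c (l 16702976) (l 16699840)) (c (l 16708360) (l 16705584)))))) (b (a (b (b (a (l 16686408) (c (l 16693816) (l 16691008))) (a (l 16690752) (l 16686280))) (a (c (l 16688008) (l 16695656)) (b (l 16690528) (l 16694672)))) (b (a (b (c (l 16699552) (l 16696984)) (c (l 16703848) (l 16701392))) (b (l 14) (c (l 16709608) (l 16707344)))) (a (b (c (l 16708040) (l 16705712)) (c (l 16712144) (l 16709920))) (b (c (l 16713816) (l 16711680)) (c (l 16717928) (l 16715912)))))) (a (b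 (a (c (l 16696000) (l 16703856)) (b (l 16698728) (l 16702680))) (a (c (l 16703600) (l 16690688)) (c (l 16710784) (l 16707376)))) (b (a (b (c (l 16716152) (l 16714040)) (c (l 16720056) (l 16718064))) (b (c (l 16721944) (l 16720040)) (c (l 16725864) (l 16724080)))) (a (c (b (l 16723864) (l 16727576)) (b (l 16721984) (l 16725800))) (c (a (l 16719600) (l 16727792)) (b (l 16728016) (l 16731848)))))))), by decide +kernel⟩

def k6_mm_202_t : ∃ t, chk3 f_mm_202_t t 30 33 1 = true :=
  ⟨(a (a (b (b (a (l 16677560) (l 16693016)) (a (l 16684584) (c (l 16711984) (l 16708840)))) (a (b (l 16691416) (l 16708760)) (b (a (l 16694872) (l 16697352)) (c (l 16704040) (l 16701304))))) (b (b (a (c (l 16710200) (l 16707256)) (a (l 16691896) (l 16705240))) (a (a (l 16693344) (l 16696040)) (c (l 16701424) (l 16720000)))) (a (b (c (l 16702504) (l 16699920)) (c (l 16708744) (l 16706360))) (b (c (l 16718312) (l 16716096)) (c (l 16724432) (l 16722408)))))) (b (b (a (a (c (l 16710808) (l 16698104))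 (c (b (l 16725400) (l 16728904)) (b (l 16723464) (l 16727072)))) (a (c (a (l 16731512) (l 16723920)) (b (l 16729520) (l 16733144))) (c (b (l 16726544) (l 16734000)) (b (l 16725104) (l 16733984))))) (c (a (a (l 16717624) (c (l 16723912) (l 16712600))) (a (b (l 16727632) (l 16730944)) (b (a (l 16742488) (l 16745464)) (a (l 16745816) (l 16748792))))) (a (a (l 16715600) (c (l 16711752) (l 16710904))) (a (a (l 16726384) (l 16729416)) (b (l 16737520) (l 16740952)))))) (a (a (b (c (c (l 16714008) (l 16713096)) (c (l 16712184) (l 16711248))) (c (b (l 16718088) (l 16721016)) (c (l 16718328) (l 16717488)))) (b (c (a (l 16717960) (l 16731368)) (c (l 16728808) (l 16717568))) (c (b (l 16723976) (l 16726864)) (a (l 16722576) (l 16725680))))) (b (a (c (b (l 16734160) (l 16737272)) (b (l 16722432) (l 16736136))) (a (b (l 16743272) (l 16746440)) (b (c (l 16752016) (l 16751080)) (c (l 16755144) (l 16754312))))) (c (a (b (l 16740288) (l 16743200)) (a (c (l 16746360) (l 16745968)) (b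 (l 16758176) (l 16750616)))) (a (b (l 16739248) (l 16742256)) (b (c (l 16745600) (l 16745208)) (a (l 16757352) (l 16749992))))))))), by decide +kernel⟩

def k7_mm_202_t : ∃ t, chk3 f_mm_202_t t 31 32 1 = true :=
  ⟨(a (b (a (b (l 14) (a (b (c (l 16709288) (l 16717800)) (c (l 16718656) (l 16722056))) (a (a (b (l 14) (l 16727016)) (l 14)) (l 14)))) (l 14)) (a (b (a (a (b (l 16725520) (l 16729504)) (b (l 16723408) (l 16727408))) (b (c (a (l 16732752) (l 16736224)) (a (l 16731176) (l 16734752))) (c (a (l 16736704) (l 16740176)) (a (l 16735248) (l 16738840))))) (a (a (b (l 16728152) (c (l 16737888) (l 16736480))) (b (c (l 16737264) (l 16735832)) (c (l 16741000) (l 16739696)))) (b (c (a (l 16740552) (l 16744032)) (a (l 16739224) (l 16742824))) (c (a (l 16744296) (l 16742552)) (a (l 16743096) (l 16746712)))))) (a (b (b (l 14) (a (c (l 16738616) (l 16742640)) (b (l 14) (a (l 16747184) (l 16749208))))) (c (b (a (b (l 16746768) (l 16748672)) (a (l 16750616) (l 16747368))) (a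 (b (l 16750560) (l 16752416)) (c (l 16750344) (l 16749944)))) (b (a (l 16741392) (b (l 16749664) (l 16751640))) (a (l 16745288) (b (l 16753600) (l 16755528)))))) (b (l 14) (b (b (a (c (a (l 16753696) (l 14)) (l 16753896)) (l 14)) (a (c (l 16751416) (l 16755880)) (a (a (l 16758984) (l 14)) (l 14)))) (a (c (b (a (l 16757504) (l 16759608)) (a (l 16759376) (l 16761480))) (b (l 16752600) (l 16754536))) (c (b (c (l 16759056) (l 16757472)) (a (l 16763632) (l 16760592))) (b (c (l 16757200) (l 16756920)) (c (l 16761752) (l 16758888)))))))))) (b (l 14) (a (b (l 14) (a (b (l 14) (a (b (l 14) (a (c (a (l 16767520) (l 16768664)) (l 16765120)) (a (b (l 14) (l 16767528)) (l 14)))) (l 14))) (l 14))) (l 14)))), by decide +kernel⟩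

def k8_mm_202_t : ∃ t, chk3 f_mm_202_t t 124 66 1 = true :=
  ⟨(c (a (b (b (a (l 16741520) (l 16744640)) (a (l 16745056) (l 16748184))) (b (a (l 16748488) (l 16751632)) (a (l 16751824) (l 16754976)))) (b (b (a (l 16747952) (b (l 16750544) (l 16752352))) (a (l 16751496) (l 16749768))) (a (b (l 16749712) (l 16753064)) (b (b (l 16757616) (l 16759320)) (c (l 16756736) (l 16751200)))))) (a (b (b (a (l 16740232) (l 16743456)) (a (l 16743888) (l 16747120))) (b (a (l 16747440) (l 16750680)) (a (l 16750888) (l 16754144)))) (b (b (a (l 16746872) (l 16750496)) (a (l 16750544) (l 16748936))) (b (a (l 16754120) (l 16752520)) (a (l 16747104) (c (l 16750912) (l 16750608))))))), by decide +kernel⟩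

def k9_mm_202_t : ∃ t, chk3 f_mm_202_t t 125 132 1 = true :=
  ⟨(a (b (c (a (b (l 16754248) (l 16756056)) (b (l 16752912) (l 16754728))) (a (b (l 16753392) (l 16755264)) (c (l 16753312) (l 16752960)))) (a (c (c (l 16753656) (l 16753312)) (c (l 16747720) (l 16757848))) (c (b (l 16759136) (l 16759592)) (b (l 16755928) (l 16757752))))) (b (a (c (b (a (l 16761216) (l 16763320)) (c (l 16758960) (l 16758712))) (b (a (l 16760608) (l 16762792)) (c (l 16758464) (l 16758208)))) (c (b (a (l 16765480) (l 16765064)) (a (l 16762056) (a (l 16768952) (l 16770072)))) (b (a (l 16765024) (l 16764696)) (a (l 16766920) (l 16766592))))) (a (c (b (c (l 16760744) (l 16760528)) (a (l 16766592) (l 16763464))) (b (c (l 16760304) (l 16760088)) (a (l 16766184) (l 16763136)))) (a (c (b (l 16766480) (c (l 16765688) (l 16765568))) (b (l 16766160) (l 16768000))) (b (c (c (l 16768744) (l 16768632)) (c (l 16765896) (l 16765776))) (c (c (l 16770504) (l 16770424)) (c (l 16770344) (l 16770264)))))))),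 by decide +kernel⟩

def k10_mm_202_t : ∃ t, chk3 f_mm_202_t t 250 133 1 = true :=
  ⟨(a (b (c (b (l 16756096) (l 16757808)) (c (l 16756528) (l 16756232))) (c (b (l 16759488) (l 16763768)) (b (l 16759008) (l 16760728)))) (b (c (b (c (l 16760136) (l 16759904)) (c (l 16761832) (l 16761632))) (b (l 16760872) (c (l 16761440) (l 16761240)))) (c (b (c (l 16763504) (l 16763344)) (c (l 16767776) (l 16767640))) (b (a (l 16767288) (l 16764144)) (a (l 16769016) (l 16765872)))))), by decide +kernel⟩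

def k11_mm_202_t : ∃ t, chk3 f_mm_202_t t 502 133 1 = true :=
  ⟨(b (b (c (a (l 16763096) (l 16767832)) (a (l 16767992) (l 16767568))) (c (a (l 16764816) (c (l 16766976) (l 16766880))) (a (l 16764536) (c (l 16766784) (l 16766680))))) (a (c (b (l 16769128) (c (l 16768208) (l 16768136))) (b (l 16768912) (c (l 16768064) (l 16767984)))) (b (c (c (l 16771280) (l 16771216)) (c (l 16771152) (l 16771080))) (b (c (l 16772504) (l 16772416)) (a (l 16774072) (a (l 16773584) (b (l 16776544) (c (l 16776952) (l 16776936))))))))), by decide +kernel⟩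

def k12_mm_202_t : ∃ t, chk3 f_mm_202_t t 503 133 1 = true :=
  ⟨(b (b (a (c (c (l 16770040) (l 16769952)) (c (l 16769864) (l 16769776))) (b (c (l 16772432) (l 16772328)) (a (c (l 16769464) (l 16769368)) (c (l 16773208) (l 16773160))))) (b (a (c (l 16771288) (l 16771160)) (a (c (l 16772952) (l 16772888)) (a (l 16775416) (b (l 16774136) (a (c (l 16777032) (l 16777024)) (b (c (l 16777176) (l 16777176)) (l 199413989847))))))) (a (c (l 16772144) (l 16772704)) (b (a (l 16774888) (a (b (l 16776936) (a (l 16777016) (c (l 16777392) (l 104387838375)))) (c (l 260080402679) (c (l 264912240887) (l 265985982711))))) (a (c (l 67343742071) (a (l 16776328) (l 16776896))) (a (a (b (c (l 16777184) (l 16777184)) (l 212835762647)) (l 4)) (l 4))))))) (a (a (b (b (c (l 16769824) (l 16769744)) (c (l 16770672) (l 16770616))) (b (a (l 16775152) (b (l 16774184) (a (c (l 16777072) (l 16777064)) (b (l 77007420599) (l 4))))) (a (b (a (l 16776952) (b (l 16777112) (l 130157642199))) (a (b (l 80765515687)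 (l 4)) (l 4))) (a (c (l 272428433735) (l 276723401015)) (l 4))))) (a (b (b (l 16773248) (b (l 16776512) (c (l 16776928) (l 16776920)))) (b (b (a (b (l 16777104) (l 126936415399)) (c (l 187065958999) (l 191360926279))) (l 4)) (l 4))) (b (b (l 16775120) (b (b (l 16776960) (a (l 16777040) (c (l 16777232) (l 109756547527)))) (a (b (a (l 16777160) (l 16777248)) (l 4)) (l 4)))) (l 4)))) (b (a (a (b (b (l 16774160) (a (c (l 16777048) (l 16777048)) (b (a (l 16777160) (l 16777408)) (l 233773728151)))) (b (c (l 265449111815) (l 268133466375)) (l 4))) (b (b (a (b (l 16777088) (c (l 16777232) (l 107072192951))) (c (l 180623508039) (c (l 185455346199) (l 180086637111)))) (l 4)) (l 4))) (l 4)) (l 4)))), by decide +kernel⟩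

def k13_mm_202_t : ∃ t, chk3 f_mm_202_t t 124 67 1 = true :=
  ⟨(b (c (a (a (b (l 16755064) (l 16747712)) (b (l 16747728) (l 16756120))) (b (a (l 16756312) (b (l 16759048) (l 16760648))) (a (c (l 16754344) (l 16754104)) (b (l 16762232) (l 16766408))))) (a (b (a (l 16754232) (l 16757496)) (a (l 16757480) (l 16750272))) (b (a (l 16755712) (c (l 16759504) (l 16759264))) (a (c (l 16753864) (l 16753616)) (b (l 16761856) (l 16763464)))))) (a (a (c (b (l 16750744) (l 16753680)) (b (l 16750136) (l 16753176))) (b (c (l 16759160) (l 16758664)) (c (b (l 16756128) (l 16757576)) (l 16763024)))) (a (b (c (b (l 16761760) (l 16763264)) (b (l 16756120) (l 16762920))) (a (c (l 16764600) (l 16764312)) (c (l 16768952) (l 16768736)))) (b (a (c (l 16767784) (l 16767512)) (c (b (l 16766232) (l 16767736)) (b (l 16760768) (l 16767568)))) (a (c (b (l 16767384) (l 16768840)) (b (l 16761960) (l 16768712))) (b (c (l 16769216) (l 16769112)) (a (c (l 16770208) (l 16770136)) (b (l 16770752) (c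 (l 16776720) (a (l 16765992) (l 16776928))))))))))), by decide +kernel⟩

def k14_mm_202_t : ∃ t, chk3 f_mm_202_t t 250 134 1 = true :=
  ⟨(a (c (b (b (c (l 16762872) (l 16762696)) (c (l 16764464) (l 16764320))) (b (c (l 16766040) (l 16765920)) (a (l 16766576) (l 16771128)))) (b (b (l 16763736) (c (l 16764176) (l 16764024))) (b (c (l 16765800) (l 16765680)) (a (l 16766368) (l 16770992))))) (b (c (a (b (l 16765720) (l 16769952)) (b (l 16770368) (c (l 16769384) (l 16769336)))) (a (b (l 16765480) (l 16767152)) (b (l 16770200) (c (l 16769280) (l 16769232))))) (b (a (c (l 16771544) (l 16771424)) (a (b (l 16772624) (l 16774736)) (b (l 16774984) (b (a (l 16776632) (a (l 16777016) (a (l 16777176) (l 133378867767)))) (c (a (l 16777008) (l 187602830023)) (a (l 16777000) (c (l 184381604551) (l 185455346375)))))))) (a (b (c (l 16770096) (l 16770024)) (a (l 16772960) (a (l 16771104) (b (l 16776664) (l 109219674567))))) (a (b (a (l 16773968) (a (c (l 16776960) (l 16776944)) (b (l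 16777032) (a (l 138210705991) (l 4))))) (b (a (a (l 16777040) (a (l 16777192) (l 141968802375))) (l 4)) (b (c (l 262227886423) (l 265449111895)) (l 4)))) (a (a (b (b (a (l 16777184) (l 136063222343)) (l 4)) (l 4)) (l 4)) (l 4))))))), by decide +kernel⟩

def k15_mm_202_t : ∃ t, chk3 f_mm_202_t t 250 135 1 = true :=
  ⟨(a (b (b (c (a (l 16768112) (l 16772664)) (a (l 16767960) (l 16772584))) (a (b (l 16772464) (c (l 16769992) (l 16769912))) (a (b (l 16773280) (a (l 16776424) (c (l 16776896) (l 16776880)))) (a (b (l 16774032) (a (b (l 16777080) (l 185992217255)) (b (l 110830286983) (l 4)))) (b (b (l 16776952) (a (l 16777168) (l 182234120855))) (l 4)))))) (a (b (b (a (l 16770224) (l 16773816)) (a (l 16770968) (a (c (l 16776920) (l 16776904)) (b (a (l 16777096) (l 122641449671)) (l 322357428135))))) (a (b (b (l 16775776) (a (l 16776896) (a (l 16777176) (l 217667601031)))) (c (a (b (l 16777176) (l 238068695751)) (l 4)) (l 299808848455))) (a (b (l 299808848183) (l 4)) (l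 4)))) (b (a (b (a (b (l 16776976) (a (l 16777176) (l 191897797287))) (c (l 244511146279) (l 320209943047))) (l 4)) (l 4)) (l 4)))) (b (a (b (a (b (l 16775056) (a (c (l 16776872) (l 38889585575)) (a (b (l 16777056) (l 176328540823)) (b (a (l 16777200) (l 166664864263)) (l 4))))) (b (a (b (l 16776928) (a (a (l 16777112) (l 16777200)) (l 161296155351))) (a (b (a (l 16777200) (l 145726898775)) (l 4)) (l 4))) (l 4))) (a (b (c (a (l 239142434519) (l 4)) (l 328263007287)) (l 4)) (l 4))) (l 4)) (l 4))), by decide +kernel⟩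

def k16_mm_202_t : ∃ t, chk3 f_mm_202_t t 251 67 1 = true :=
  ⟨(b (a (b (a (b (b (c (l 16772032) (l 16771928)) (a (l 16772280) (c (l 16770752) (l 16770704)))) (a (b (l 16774408) (a (l 16773656) (b (l 16776600) (c (l 16776992) (l 16776984))))) (a (b (l 16773904) (a (b (l 16777000) (a (l 126399544583) (l 220888826391))) (b (b (l 16777144) (l 151632478711)) (l 4)))) (b (b (l 16776856) (a (c (l 16777104) (l 16777096)) (b (l 95261032967) (l 4)))) (c (l 291218915767) (l 295513883047)))))) (a (a (b (b (l 16773328) (b (l 16776576) (c (l 16776968) (l 16776960)))) (b (a (b (b (l 16777136) (l 144653156855)) (l 4)) (c (l 287460819287) (l 284239593815))) (l 4))) (b (b (l 16773872) (a (b (l 16776976) (b (l 90966065655) (l 4))) (b (b (l 16777128) (l 140895060455)) (l 4)))) (l 4))) (b (a (b (b (l 16776824) (a (c (l 16777088) (l 16777080)) (b (l 87207969255) (l 4)))) (c (l 286923948455) (l 291218914423))) (b (a (b (b (l 16777120) (l 133915738599)) (l 4)) (c (l 275649659207) (l 278334013767)))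 (l 4))) (l 4)))) (a (b (a (b (a (a (c (l 16776936) (l 16777008)) (b (l 16777008) (a (l 130157642295) (l 4)))) (b (a (a (l 16777168) (l 129620771367)) (l 227331277431)) (l 4))) (l 4)) (l 4)) (l 4)) (l 4))) (l 4)) (l 4)), by decide +kernel⟩

def k17_mm_202_t : ∃ t, chk3 f_mm_202_t t 504 132 1 = true :=
  ⟨(a (a (b (c (b (l 16769376) (l 16768584)) (b (l 16769072) (l 16768344))) (c (b (l 16771696) (c (l 16772184) (l 16772136))) (b (l 16770216) (b (l 16768984) (l 16772520))))) (b (c (b (l 16767896) (l 16769728)) (b (l 16767632) (l 16769536))) (b (c (c (l 16771560) (l 16771496)) (c (l 16771440) (l 16771376))) (b (c (l 16772864) (l 16772792)) (b (c (l 16773528) (l 16773488)) (c (c (l 16775280) (l 16775264)) (c (l 16775584) (l 63048774599)))))))) (a (b (c (b (l 16769048) (c (l 16770920) (l 16770848))) (b (l 16768832) (c (l 16770776) (l 16770696)))) (b (b (c (l 16772240) (l 16772144)) (c (l 16773136) (l 16773072))) (b (b (c (l 16773800) (l 16773768)) (a (l 16773944) (a (c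 (l 16777000) (l 16776992)) (b (c (l 16777160) (a (l 16777112) (l 16777208))) (c (l 193508409703) (l 195119022439)))))) (a (a (b (l 16774240) (b (c (l 16777160) (l 16777320)) (c (l 195119022455) (l 196729635191)))) (b (b (l 16777040) (a (l 16777176) (l 168812347719))) (l 4))) (a (a (b (b (a (l 16777200) (l 144116285735)) (l 4)) (l 4)) (l 4)) (l 4)))))) (b (b (c (c (l 16770264) (l 16770176)) (c (l 16770096) (l 16770008))) (c (b (l 16771592) (l 16772504)) (b (l 16771480) (l 16772424)))) (b (a (b (c (l 16773112) (l 16773056)) (b (l 16775080) (c (l 16776848) (l 72712452151)))) (b (c (l 16773704) (l 16773664)) (a (b (l 16774224) (b (c (l 16777152) (a (l 16777104) (l 16777208))) (c (l 175254798743) (l 168812347175)))) (b (b (l 16777024) (a (l 16777160) (a (l 133378867479) (l 4)))) (l 4))))) (b (a (b (a (b (l 16777032) (a (l 16777168) (l 152169349479))) (b (a (c (l 16777208) (l 16777208)) (l 4)) (l 4))) (l 4)) (l 4)) (l 4)))))), by decide +kernel⟩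

def k18_mm_202_t : ∃ t, chk3 f_mm_202_t t 505 132 1 = true :=
  ⟨(b (a (b (a (c (c (l 16771432) (l 16771368)) (b (l 16770800) (l 16771752))) (b (l 14) (c (l 16774368) (c (l 16773008) (l 16772984))))) (a (b (c (l 16774088) (l 16774016)) (a (c (l 16773392) (l 16773344)) (b (l 16775056) (a (l 16774056) (c (l 16776976) (l 16776960)))))) (a (b (c (l 16773672) (l 16773640)) (b (a (l 16775512) (b (l 16777008) (a (l 16777144) (c (l 139284447527) (l 139821318439))))) (a (b (c (l 16777136) (a (l 16777088) (l 16777200))) (c (l 160759283479) (c (l 177939153239) (l 178476024151)))) (c (l 292292657367) (l 294977011927))))) (b (b (l 16776000) (a (c (l 16776968) (l 16776952)) (b (c (l 16777296) (c (l 16777128) (l 16777288))) (a (a (l 117272740103) (l 190824055079)) (l 4))))) (b (a (b (a (c (l 16777192) (l 16777360)) (l 198340247911)) (l 4)) (l 4)) (l 4)))))) (b (l 14) (b (a (a (a (b (b (l 16777000) (a (l 16777144) (c (l 132305125671) (l 138210705687)))) (c (l 287997690071) (l 290682044631)))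 (b (b (l 14) (l 4)) (l 4))) (l 4)) (l 4)) (l 4)))) (a (a (b (b (b (a (l 16775368) (a (b (l 16777016) (a (l 16777152) (c (l 140895060279) (l 147337511207)))) (b (a (c (l 16777200) (l 16777200)) (l 225183793463)) (l 4)))) (c (a (a (l 16776984) (b (l 16777144) (l 162369896887))) (l 295513882935)) (a (a (l 16776976) (c (b (l 16777144) (l 179012895079)) (b (l 16777136) (l 180086636903)))) (l 298198237495)))) (a (a (a (b (b (c (l 16777208) (l 16777208)) (l 4)) (l 4)) (l 4)) (l 4)) (l 4))) (l 4)) (l 4)) (l 4))), by decide +kernel⟩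

def k19_mm_202_t : ∃ t, chk3 f_mm_202_t t 252 133 1 = true :=
  ⟨(a (b (a (b (a (a (b (l 16774472) (b (l 16773832) (c (l 16776888) (l 16776872)))) (a (b (l 16774912) (b (l 16776888) (b (c (l 16777176) (l 16777168)) (l 193508409815)))) (b (l 16775200) (b (b (l 16777064) (c (l 95261032855) (l 95797901143))) (l 4))))) (b (a (b (l 16775416) (a (c (l 16777016) (l 16777008)) (b (c (l 16777168) (l 16777168)) (c (l 201024602487) (l 203172086135))))) (b (a (b (l 16777048) (c (l 89355452823) (l 89892322423))) (b (c (l 130157642167) (l 130694511767)) (l 4))) (l 4))) (a (a (a (b (b (l 97408516487) (l 4)) (l 4)) (l 4)) (l 4)) (l 4)))) (b (b (a (a (a (b (l 16777072) (c (l 97408516519) (l 97945387431))) (a (b (l 114588385639) (l 4)) (l 4))) (l 4)) (l 4)) (l 4)) (l 4))) (l 4)) (l 4)) (l 4)), by decide +kernel⟩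

def k20_mm_202_t : ∃ t, chk3 f_mm_202_t t 253 66 1 = true :=
  ⟨(l 4), by decide +kernel⟩

def k21_mm_202_t : ∃ t, chk3 f_mm_202_t t 126 67 1 = true :=
  ⟨(l 4), by decide +kernel⟩

def k22_mm_202_t : ∃ t, chk3 f_mm_202_t t 127 33 1 = true :=
  ⟨(l 4), by decide +kernel⟩

def k23_mm_202_t : ∃ t, chk3 f_mm_202_t t 60 34 1 = true :=
  ⟨(c (b (a (b (c (l 16709184) (l 16707888)) (a (l 16713560) (l 16717192))) (b (a (l 16714992) (l 16730400)) (a (l 16721328) (b (l 16724424) (l 16748432))))) (a (b (b (l 16719112) (l 16730152)) (b (l 16730800) (l 16731552))) (b (a (l 16727664) (l 16742464)) (a (l 16740880) (b (l 16735728) (l 16736984)))))) (b (a (b (a (l 16703816) (l 16708080)) (b (l 16711216) (l 16714832))) (a (b (l 16712840) (l 16719464)) (b (l 16718096) (b (l 16722800) (l 16725976))))) (a (b (a (l 16718184) (l 16722080)) (b (l 16721960) (l 16722520))) (b (a (l 16726128) (l 16741208)) (a (l 16731600) (l 16752408)))))), by decide +kernel⟩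

def k24_mm_202_t : ∃ t, chk3 f_mm_202_t t 61 68 1 = true :=
  ⟨(b (b (a (a (c (l 16723896) (l 16722384)) (c (l 16740176) (l 16728536))) (c (a (c (l 16746200) (l 16735296)) (a (l 16750432) (l 16753440))) (a (l 16750384) (a (l 16739296) (l 16752920))))) (a (a (c (l 16726768) (l 16725368)) (c (l 16742944) (l 16731400))) (a (c (c (l 16748904) (l 16748536)) (l 16751896)) (a (c (l 16753144) (l 16752600)) (c (l 16756160) (l 16755744)))))) (b (a (a (c (l 16729648) (l 16728368)) (c (l 16745696) (l 16744752))) (a (b (a (l 16748888) (l 16751856)) (a (l 16750248) (l 16753184))) (a (c (l 16755760) (l 16755312)) (b (l 16764512) (c (l 16759416) (l 16759120)))))) (a (a (a (l 16730592) (l 16743832)) (c (l 16748464) (l 16747632))) (a (a (c (l 16742120) (l 16741504)) (b (l 16754520) (l 16755856))) (a (b (l 16762736) (l 16764048)) (c (c (l 16766616) (l 16761264)) (b (l 16760432) (l 16761736)))))))), by decide +kernel⟩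

def k25_mm_202_t : ∃ t, chk3 f_mm_202_t t 61 69 1 = true :=
  ⟨(a (b (c (a (b (l 16735424) (l 16748688)) (b (l 16756448) (l 16760392))) (a (b (l 16734408) (l 16737328)) (b (l 16750496) (l 16758496)))) (a (b (c (l 16751352) (l 16740120)) (c (l 16753056) (l 16753256))) (b (a (l 16760048) (c (l 16747112) (l 16746712))) (a (c (l 16746560) (l 16746568)) (c (l 16759704) (l 16759624)))))) (a (b (b (a (c (l 16765736) (l 16744264)) (c (l 16758016) (l 16757648))) (a (c (l 16757784) (l 16757392)) (c (l 16760480) (l 16765464)))) (b (a (c (l 16760168) (l 16759888)) (c (l 16768048) (l 16770504))) (a (c (l 16767600) (l 16767472)) (b (c (l 16764440) (l 16764344)) (a (l 16770048) (a (l 16765784) (b (l 16776672) (l 137673832359)))))))) (b (b (a (c (l 16766104) (l 16765856)) (b (c (l 16768416) (l 16768272)) (c (l 16769624) (l 16769536)))) (a (b (c (l 16762672) (l 16762504)) (c (l 16763840) (l 16763720))) (a (b (l 16770032) (a (l 16770824) (c (l 42647681223) (l 96871641815)))) (b (a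 (l 16771144) (b (l 16776840) (a (l 245584886311) (l 196729636087)))) (c (a (l 269744074647) (l 4)) (c (l 282628976807) (l 281018366039))))))) (a (b (b (c (l 16770208) (l 16772752)) (a (l 16770584) (c (a (l 39963326951) (l 271891557287)) (a (l 102777221975) (l 271891560631))))) (a (b (a (l 16771312) (b (l 16776952) (l 289608301079))) (a (c (l 274575910807) (l 273502166999)) (l 4))) (b (c (l 305714413767) (l 300882569975)) (l 4)))) (b (a (b (b (a (l 16776896) (l 293366392023)) (c (l 289608294055) (l 286923936151))) (l 4)) (l 4)) (l 4)))))), by decide +kernel⟩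

def k26_mm_202_t : ∃ t, chk3 f_mm_202_t t 60 35 1 = true :=
  ⟨(b (a (b (c (a (l 16718712) (l 16736400)) (a (l 16719968) (l 16747968))) (a (c (l 16720912) (l 16721824)) (c (l 16738936) (l 16739704)))) (b (a (c (l 16743232) (l 16744136)) (b (c (l 16759336) (l 16739120)) (c (l 16760856) (l 16740504)))) (b (a (c (l 16734840) (l 16735520)) (c (l 16752032) (l 16763016))) (a (c (l 16736448) (l 16736992)) (a (l 16752360) (l 16760920)))))) (a (a (b (c (l 16724168) (l 16724832)) (c (l 16738880) (l 16728872))) (b (c (l 16742368) (l 16742896)) (c (c (l 16736240) (l 16736416)) (l 16747176)))) (b (b (a (c (l 16738272) (l 16738696)) (a (l 16759496) (c (l 16747048) (l 16747288)))) (a (c (l 16740392) (l 16740728)) (a (l 16761640) (c (l 16749304) (l 16749456))))) (a (a (c (l 16752576) (l 16742352)) (c (l 16756320) (l 16756520))) (a (b (l 16764040) (c (l 16750816) (l 16750912))) (b (b (l 16761696) (l 16762960)) (a (l 16769288) (a (l 16770616) (b (l 16776072) (l 138210694231)))))))))),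 by decide +kernel⟩

def k27_mm_202_t : ∃ t, chk3 f_mm_202_t t 122 35 1 = true :=
  ⟨(b (a (b (b (c (l 16759880) (l 16755136)) (c (l 16764232) (l 16762000))) (b (a (l 16762160) (b (l 16759368) (l 16760360))) (a (c (l 16748248) (l 16769464)) (c (l 16761840) (l 16761984))))) (b (b (a (c (l 16758768) (l 16748600)) (c (l 16761528) (l 16761720))) (a (c (l 16760648) (l 16760864)) (c (l 16768744) (l 16768856)))) (a (b (c (l 16762688) (l 16762816)) (b (c (l 16774816) (l 16764400)) (a (l 16775216) (c (l 102777220391) (l 71638680663))))) (b (b (c (l 16770344) (l 16770392)) (a (l 16765480) (a (b (l 16776792) (l 138747549319)) (l 281018362679)))) (a (b (a (l 16768872) (b (l 16766664) (l 139821279047))) (a (l 282628969063) (l 4))) (l 4)))))) (a (b (b (a (b (l 16770904) (l 16761504)) (c (l 16769344) (l 16769416))) (b (a (l 16767896) (a (l 16775600) (a (l 16767656) (b (l 16765944) (l 4))))) (a (l 16769104) (a (c (l 110830283927) (a (l 16776448) (l 187602808983))) (a (l 284239579575)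 (l 4)))))) (a (b (a (a (l 16764488) (l 16770584)) (b (l 44258274967) (a (l 138210695095) (l 285850191191)))) (a (b (c (l 137136943015) (l 139284426487)) (l 296050730791)) (l 4))) (a (a (b (c (l 275112771303) (l 273502155799)) (l 4)) (l 4)) (l 4)))) (b (a (b (a (b (b (l 16776080) (l 16766200)) (c (l 255248558615) (l 256859172919))) (b (b (l 264375366551) (l 302493187111)) (l 4))) (l 4)) (l 4)) (l 4)))), by decide +kernel⟩

def k28_mm_202_t : ∃ t, chk3 f_mm_202_t t 123 35 1 = true :=
  ⟨(b (a (b (a (b (c (l 16772136) (c (l 16764336) (l 16764376))) (a (b (l 16765136) (c (l 78618030423) (a (l 16776336) (l 117809607543)))) (b (a (l 16768800) (b (l 16766576) (l 305714428615))) (b (l 281555235831) (l 4))))) (b (a (b (c (l 16776296) (l 16765808)) (a (b (l 16776728) (l 137673830151)) (b (l 269207206183) (l 4)))) (b (a (b (l 16777008) (c (l 157001188679) (l 157001188711))) (l 301956332535)) (l 4))) (a (b (a (l 311083123687) (l 4)) (l 4)) (l 4)))) (a (b (a (b (a (b (l 16766624)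 (l 314841234327)) (l 312156864311)) (l 4)) (l 4)) (l 4)) (l 4))) (l 4)) (l 4)), by decide +kernel⟩

def k29_mm_202_t : ∃ t, chk3 f_mm_202_t t 124 136 1 = true :=
  ⟨(b (a (a (c (l 16761752) (l 16761352)) (c (b (l 16758992) (l 16765632)) (b (l 16758696) (l 16765384)))) (a (c (b (l 16770232) (a (l 16762896) (l 16769880))) (b (l 16769400) (b (l 16768528) (l 16769248)))) (a (b (c (l 16770264) (l 16770200)) (a (b (l 16776088) (c (l 16776776) (l 42647681511))) (b (b (l 16775504) (a (l 16776944) (a (l 16777008) (l 4)))) (c (l 284239592871) (l 301419458327))))) (b (a (b (l 16773888) (a (c (l 16776968) (l 16776952)) (a (b (l 16777136) (l 4)) (l 322894297863)))) (b (b (a (l 16777016) (a (l 143579415223) (l 4))) (l 310546266951)) (l 4))) (a (b (l 332557972567) (l 4)) (l 4)))))) (a (a (a (c (l 16758464) (l 16758136)) (b (l 16759208) (l 16765816))) (c (b (l 16767000) (l 16768344)) (a (l 16766656) (b (l 16762416) (l 16763816))))) (a (a (b (c (l 16769512) (l 16769416)) (b (l 16773120)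 (a (l 16775984) (c (l 16776832) (l 42110810791))))) (b (a (l 16774064) (b (l 16773960) (a (c (l 16777016) (l 16777000)) (b (l 94187288903) (l 4))))) (b (a (a (l 16776832) (b (l 16777080) (l 143579415495))) (l 341147905015)) (c (l 319136198871) (l 312693746439))))) (a (b (a (b (b (a (l 16777064) (l 181697250231)) (l 313230620103)) (l 4)) (l 4)) (l 4)) (l 4))))), by decide +kernel⟩

def k30_mm_202_t : ∃ t, chk3 f_mm_202_t t 124 137 1 = true :=
  ⟨(a (a (a (b (c (l 16761088) (l 16760864)) (c (l 16768856) (l 16771352))) (b (b (l 16767152) (l 16768464)) (b (l 16772704) (b (l 16770704) (c (l 43184551367) (l 75396804887)))))) (b (a (c (l 16772112) (b (l 16763472) (l 16764816))) (a (b (l 16770032) (b (l 16776264) (c (l 16776888) (l 16776872)))) (b (l 16773504) (b (b (l 16776928) (l 250416724391)) (l 307861908135))))) (b (a (a (l 16773592) (b (l 16776712) (a (c (l 16777096) (l 16777096)) (a (l 145190023111) (l 4))))) (a (c (l 298735103079) (l 294977010375)) (l 4))) (a (a (b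 (a (l 16776944) (c (l 111904031671) (l 104387828535))) (l 310009390375)) (l 4)) (l 4))))) (a (b (a (b (a (b (l 16771400) (a (l 121567705335) (b (l 111367160743) (l 4)))) (b (c (l 281018366455) (l 279407751607)) (l 4))) (l 4)) (l 4)) (l 4)) (l 4))), by decide +kernel⟩

def k31_mm_202_t : ∃ t, chk3 f_mm_202_t t 124 69 1 = true :=
  ⟨(a (b (a (b (a (b (c (l 16765448) (l 16765400)) (a (c (l 46405777303) (l 92039803351)) (a (b (l 16776992) (l 183844734263)) (c (l 293903264583) (l 290682036247))))) (b (b (a (l 16776776) (l 287460816839)) (c (l 286923944807) (b (l 278870877495) (l 302493192727)))) (l 4))) (a (b (a (b (l 290145167671) (l 4)) (l 4)) (l 4)) (l 4))) (l 4)) (l 4)) (l 4)), by decide +kernel⟩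

def k32_mm_202_t : ∃ t, chk3 f_mm_202_t t 125 34 1 = true :=
  ⟨(l 4), by decide +kernel⟩

def k33_mm_202_t : ∃ t, chk3 f_mm_202_t t 62 35 1 = true :=
  ⟨(l 4), by decide +kernel⟩

def k34_mm_202_t : ∃ t, chk3 f_mm_202_t t 63 17 1 = true :=
  ⟨(l 4), by decide +kernel⟩

def k35_mm_202_t : ∃ t, chk3 f_mm_202_t t 28 18 1 = true :=
  ⟨(b (a (b (a (l 16596600) (c (l 16620240) (l 16621256))) (a (c (l 16600984) (l 16601392)) (c (l 16625992) (l 16626496)))) (b (a (c (l 16643392) (l 16644416)) (c (b (l 16664016) (l 16667256)) (b (l 16665120) (l 16668120)))) (a (c (b (l 16648192) (l 16652056)) (l 16629632)) (c (b (l 16671040) (l 16675352)) (b (l 16671688) (l 16675808)))))) (a (b (a (c (l 16607984) (l 16607928)) (c (l 16633872) (l 16633952))) (a (c (l 16617240) (l 16616808)) (b (l 16652928) (a (l 16639992) (l 16653256))))) (b (a (c (b (l 16656456) (l 16661376)) (b (l 16656704) (l 16661464))) (c (b (l 16680200) (l 16685568)) (b (l 16680488) (l 16685712)))) (a (c (b (l 16666824)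 (l 16672824)) (b (l 16666760) (l 16672640))) (a (b (l 16685400) (l 16691656)) (b (l 16697488) (l 16693480))))))), by decide +kernel⟩

def k36_mm_202_t : ∃ t, chk3 f_mm_202_t t 29 36 1 = true :=
  ⟨(a (b (a (c (b (l 16684936) (l 16688624)) (b (l 16685936) (l 16689408))) (c (b (l 16683792) (a (l 16703952) (l 16713824))) (b (l 16684648) (l 16688600)))) (a (c (b (l 16692848) (l 16676640)) (b (l 16693448) (l 16698040))) (c (b (a (l 16708512) (l 16718608)) (a (l 16713616) (l 16723936))) (b (l 16693112) (l 16703424))))) (b (a (c (b (a (l 16718960) (l 16728128)) (a (l 16723432) (l 16732824))) (b (l 16708520) (a (l 16723992) (l 16733304)))) (c (b (a (l 16737064) (l 16724784)) (a (l 16741984) (l 16740416))) (b (a (l 16737600) (l 16746200)) (a (l 16742376) (l 16730240))))) (a (c (b (a (l 16728448) (l 16738064)) (a (l 16734000) (l 16743840))) (b (a (l 16728856) (l 16738408)) (a (l 16734280) (l 16744064)))) (a (b (c (l 16726480) (l 16726744)) (c (l 16742960) (l 16732648))) (b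 (c (l 16746104) (l 16746296)) (c (b (l 16740240) (l 16743480)) (b (l 16740368) (l 16743576)))))))), by decide +kernel⟩

def k37_mm_202_t : ∃ t, chk3 f_mm_202_t t 29 37 1 = true :=
  ⟨(a (c (a (b (b (l 16687184) (a (l 16703040) (l 16714360))) (b (a (l 16709280) (l 16720824)) (a (l 16716032) (l 16727800)))) (b (b (a (l 16719248) (l 16729792)) (a (l 16725408) (l 16736184))) (b (a (l 16732096) (l 16743096)) (a (l 16739304) (l 16729560))))) (a (b (b (l 16703192) (l 16687920)) (b (l 16694168) (l 16700960))) (b (b (a (l 16719504) (l 16730016)) (a (l 16725560) (l 16736312))) (b (a (l 16732160) (l 16743152)) (a (l 16739312) (l 16729568)))))) (a (b (b (c (a (l 16740080) (l 16739664)) (a (l 16740264) (l 16729312))) (a (c (l 16725720) (l 16725824)) (c (l 16746496) (l 16746568)))) (b (a (c (l 16743344) (l 16732904)) (c (b (l 16741488) (l 16745304)) (b (l 16741528) (l 16745328)))) (a (c (c (l 16740520) (l 16740528)) (l 16751016)) (b (c (l 16749248) (l 16749256)) (a (l 16761136)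 (a (l 45868887191) (b (l 16766512) (l 135526304231)))))))) (b (a (b (c (c (l 16738984) (l 16739032)) (c (l 16739080) (l 16739128))) (c (b (l 16744264) (l 16747928)) (b (l 16744312) (l 16747952)))) (b (b (a (l 16744536) (l 16759712)) (c (l 16760856) (l 16763512))) (a (b (l 16762104) (a (l 16764592) (b (l 16766040) (l 136600049303)))) (c (b (a (l 16765616) (l 249342971399)) (l 275112751847)) (b (a (l 16760384) (l 250953582983)) (l 272965265079)))))) (a (b (a (b (l 16759680) (c (l 16753056) (l 16753056))) (b (c (l 45868876823) (l 44795135015)) (a (b (l 16766288) (l 136600047575)) (l 274039017879)))) (a (b (a (c (l 16760848) (l 45332004743)) (b (l 136600054071) (l 4))) (l 4)) (l 4))) (a (b (b (c (l 255248538103) (l 255785414711)) (l 4)) (l 4)) (l 4)))))), by decide +kernel⟩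

def k38_mm_202_t : ∃ t, chk3 f_mm_202_t t 28 19 1 = true :=
  ⟨(b (a (b (a (c (l 16628848) (l 16628152)) (c (b (l 16653000) (l 16659768)) (b (l 16652560) (l 16659240)))) (a (c (b (l 16639104) (l 16646608)) (l 16641928)) (c (b (l 16667120) (l 16674992)) (b (l 16666536) (l 16674368))))) (a (b (c (b (l 16679376) (l 16665552)) (b (l 16679096) (l 16686176))) (a (b (l 16687336) (l 16695480)) (b (l 16700720) (l 16695944)))) (b (c (b (a (l 16698560) (l 16711056)) (a (l 16706000) (l 16718680))) (b (l 16683712) (l 16691176))) (c (b (a (l 16714008) (l 16726880)) (a (l 16722528) (l 16735592))) (b (a (l 16713728) (l 16726672)) (a (l 16722248) (l 16735392))))))) (a (a (a (b (c (l 16651440) (l 16650456)) (b (l 16664112) (l 16673496))) (b (c (l 16666112) (l 16665272)) (b (l 16679128) (l 16688696)))) (b (a (b (l 16675912) (l 16684680)) (b (l 16690128) (l 16699080))) (a (b (l 16693936) (l 16703672)) (b (l 16708520) (l 16702704))))) (a (b (c (b (a (l 16704352) (l 16718064)) (a (l 16713480)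 (l 16727376))) (b (l 16689848) (l 16699080))) (c (b (a (l 16723088) (l 16737160)) (b (l 16716752) (l 16721944))) (b (l 16706192) (b (l 16716432) (l 16721656))))) (b (b (c (b (l 16714896) (l 16719568)) (b (l 16714664) (l 16719352))) (a (c (l 16741032) (l 16740792)) (c (l 16733496) (l 16733344)))) (a (b (c (l 16730024) (l 16729832)) (c (l 16740456) (l 16740328))) (b (c (l 16743640) (l 16743544)) (b (c (l 51774456279) (l 50700714039)) (a (l 16763752) (l 230552481863))))))))), by decide +kernel⟩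

def k39_mm_202_t : ∃ t, chk3 f_mm_202_t t 29 38 1 = true :=
  ⟨(a (b (a (c (b (a (l 16723304) (l 16735296)) (b (l 16714248) (l 16718344))) (b (a (l 16723216) (l 16735240)) (b (l 16714152) (l 16718232)))) (c (b (a (l 16726056) (l 16747992)) (a (l 16734296) (b (l 16743808) (l 16748168)))) (b (a (l 16726024) (l 16747976)) (a (l 16734240) (b (l 16743792) (l 16748152)))))) (a (a (b (c (l 16739512) (l 16739368)) (c (l 16727440) (l 16727304))) (b (c (l 16730928) (l 16730840)) (c (l 16740016) (l 16739944)))) (a (b (c (l 16753552) (l 16753504)) (b (a (l 16746920) (l 48553242679)) (a (l 16762136) (a (c (l 16755808) (l 16755808)) (l 243974255863))))) (a (b (b (l 16749720) (b (l 16753128) (l 48016363207))) (b (c (l 236994935751) (l 238068676519)) (l 4))) (b (b (a (l 16764536) (c (l 132305086631) (l 134452569607))) (b (l 244511127159) (l 4))) (l 4)))))) (a (b (a (b (a (c (l 16745928) (l 16745920)) (b (l 16749360) (b (l 16752536) (l 46942626519)))) (a (b (l 16768056) (c (b (l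 16755384) (l 132841946743)) (a (l 16755152) (l 134452558439)))) (b (a (c (l 133378830295) (l 136063184343)) (l 253637928423)) (l 4)))) (b (a (b (b (l 16764208) (c (l 16760840) (l 45868873511))) (c (l 246121737543) (l 246658617431))) (b (a (l 253637930775) (l 4)) (l 4))) (l 4))) (a (b (a (b (l 264912205239) (l 4)) (l 4)) (l 4)) (l 4))) (l 4))), by decide +kernel⟩

def k40_mm_202_t : ∃ t, chk3 f_mm_202_t t 29 39 1 = true :=
  ⟨(a (a (b (a (b (c (l 16736824) (l 16736720)) (b (l 16744144) (a (l 16745904) (l 16762880)))) (b (b (l 16757616) (a (l 16748864) (c (l 16760016) (l 48553228615)))) (a (b (a (l 16773232) (l 16765632)) (a (l 129620734343) (l 4))) (b (a (l 129620725015) (l 4)) (l 4))))) (a (b (a (b (l 16751048) (c (l 128010119591) (l 130157602903))) (b (a (l 16763416) (l 128010110295)) (l 4))) (a (b (l 249879827431) (l 4)) (l 4))) (l 4))) (b (a (b (a (b (b (l 49090107287) (l 130694468727)) (l 256322275079)) (l 4)) (l 4)) (l 4)) (l 4))) (l 4)), by decide +kernel⟩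

def k41_mm_202_t : ∃ t, chk3 f_mm_202_t t 60 36 1 = true :=
  ⟨(a (a (b (b (c (l 16743704) (l 16744040)) (c (c (l 16738536) (l 16738640)) (c (l 16738744) (l 16738856)))) (b (b (c (l 16742968) (l 16743112)) (c (l 16756544) (l 16756640))) (b (a (l 16757568) (l 16767256)) (a (l 16760888) (a (l 16764264) (b (l 16776104) (a (l 16766320) (l 137136924151)))))))) (a (b (b (c (l 16739360) (l 16739616)) (c (l 16755384) (l 16755528))) (b (c (l 16765392) (b (l 16749480) (l 16752616))) (b (b (c (l 16760248) (l 44258265175)) (a (l 16766088) (l 268670319223))) (a (b (l 258469777415) (l 4)) (l 4))))) (b (b (c (l 16753856) (l 16754056)) (b (l 16758096) (l 16766280))) (b (b (c (l 16764080) (l 16764112)) (b (a (l 16775936) (a (l 137673806039) (l 4))) (c (l 255785419351) (l 256859169927)))) (l 4))))) (b (a (b (c (b (l 16758360) (l 16765056)) (b (l 16758496) (a (l 16748808) (l 16752632)))) (a (b (c (l 16751568) (l 16751632)) (a (l 16764080) (a (l 44795147703) (b (l 16776296) (l 137673799047)))))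 (b (a (b (l 16774776) (l 16776256)) (b (l 44795141111) (l 264375356631))) (a (c (l 260617257159) (l 260617265655)) (l 4))))) (b (a (b (b (l 16763352) (l 16769976)) (b (a (l 16775696) (a (l 16766608) (l 138210662295))) (a (c (l 45332004023) (l 44258261559)) (l 4)))) (b (a (b (l 44258272567) (l 261691009671)) (b (l 274575900327) (l 4))) (l 4))) (a (b (a (b (l 276186510807) (l 4)) (l 4)) (l 4)) (l 4)))) (a (b (a (b (a (b (l 44795138807) (l 266522837911)) (b (l 285850184999) (l 4))) (l 4)) (l 4)) (l 4)) (l 4)))), by decide +kernel⟩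

def k42_mm_202_t : ∃ t, chk3 f_mm_202_t t 60 37 1 = true :=
  ⟨(a (b (a (b (a (c (b (l 16764288) (a (l 136063200871) (l 263838475943))) (b (l 44258268679) (a (l 138210678599) (l 262764731991)))) (b (a (b (l 137136931255) (l 278870864231)) (l 4)) (l 4))) (l 4)) (l 4)) (l 4)) (l 4)), by decide +kernel⟩

def k43_mm_202_t : ∃ t, chk3 f_mm_202_t t 61 18 1 = true :=
  ⟨(l 4), by decide +kernel⟩

def k44_mm_202_t : ∃ t, chk3 f_mm_202_t t 31 18 1 = true :=
  ⟨(l 4), by decide +kernel⟩

def k45_mm_202_t : ∃ t, chk3 f_mm_202_t t 15 19 1 = true :=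
  ⟨(l 4), by decide +kernel⟩

def k46_mm_202_t : ∃ t, chk3 f_mm_202_t t 12 10 1 = true :=
  ⟨(b (a (b (a (l 16145944) (b (l 16211432) (l 16224280))) (a (b (l 16155136) (l 16170880)) (b (l 16239224) (l 16256200)))) (b (a (b (l 16290736) (l 16304896)) (b (l 16367704) (l 16383176))) (a (b (l 16321112) (l 16339312)) (b (l 16421624) (a (l 16400136) (l 16439904)))))) (a (b (a (b (l 16188648) (l 16208368)) (b (l 16275152) (l 16296008))) (a (b (l 16229992) (l 16253440)) (b (l 16318712) (l 16343192)))) (b (a (b (l 16359432) (l 16381424)) (b (a (l 16421136) (l 16461496)) (a (l 16443976) (l 16484888)))) (a (b (l 16426176) (l 16451688)) (c (b (l 16492040) (l 16518400)) (b (l 16486632) (l 16513368))))))), by decide +kernel⟩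

def k47_mm_202_t : ∃ t, chk3 f_mm_202_t t 13 20 1 = true :=
  ⟨(a (b (a (b (a (l 16423816) (l 16460400)) (a (l 16440280) (l 16477520))) (b (a (l 16496312) (l 16531520)) (a (l 16514080) (l 16549944)))) (a (b (a (l 16458704) (l 16496576)) (a (l 16479040) (l 16517520))) (a (b (l 16533776) (l 16565824)) (b (l 16586008) (a (l 16583248) (l 16601624)))))) (b (a (a (b (l 16579112) (c (l 16586336) (l 16583848))) (b (c (l 16600768) (l 16598720)) (c (l 16620472) (l 16618512)))) (b (a (c (l 16643984) (l 16631912)) (c (b (l 16660496) (l 16670552)) (l 16632824))) (b (a (l 16658336) (a (l 16672432) (l 16688568))) (a (c (l 16659240) (l 16657800)) (a (l 16683360) (l 16699656)))))) (a (b (c (a (l 16607232) (l 16642008)) (a (l 16604888) (l 16640200))) (a (c (l 16629920) (l 16627776)) (c (b (l 16659320) (l 16671400)) (l 16663728)))) (b (a (c (b (l 16670328) (l 16681856)) (l 16653760)) (c (b (l 16703432) (l 16694304)) (c (l 16677200) (l 16676784)))) (a (c (c (l 16658264) (l 16678712))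 (b (l 16692696) (l 16705216))) (c (b (l 16706568) (l 16719256)) (b (l 16705928) (l 16718768)))))))), by decide +kernel⟩

def k48_mm_202_t : ∃ t, chk3 f_mm_202_t t 13 21 1 = true :=
  ⟨(a (b (a (b (a (l 16501216) (l 16540288)) (a (l 16525176) (l 16564816))) (b (c (a (l 16580288) (l 16617656)) (a (l 16577096) (l 16615144))) (c (a (l 16605232) (l 16643160)) (a (l 16602336) (l 16640976))))) (a (a (b (l 16550856) (l 16578192)) (b (l 16591040) (l 16618896))) (b (a (c (l 16631816) (l 16629288)) (c (l 16670296) (l 16668488))) (a (c (l 16659984) (l 16657888)) (c (l 16678008) (l 16697616)))))) (b (a (b (a (c (l 16654336) (l 16652464)) (c (b (l 16683904) (l 16696824)) (l 16668056))) (a (c (l 16659440) (l 16678880)) (c (c (l 16696216) (l 16695752)) (l 16695056)))) (b (a (c (c (l 16683792) (l 16683416)) (b (l 16718176) (l 16710584))) (b (a (l 16723632) (l 16740728)) (a (l 16737160) (b (l 16750336) (l 100092822679))))) (a (b (c (l 16724848) (l 16724384)) (a (l 16729744) (b (l 16744096)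 (l 16750512)))) (a (b (b (l 16747392) (l 61974997159)) (b (l 94724104327) (l 4))) (b (a (l 96871581591) (l 4)) (l 4)))))) (a (a (b (c (l 16666144) (l 16685984)) (c (l 16695360) (l 16715656))) (b (b (l 16706216) (a (l 16742976) (l 16740576))) (b (a (l 16736928) (a (l 16750288) (l 16751152))) (a (l 67880566999) (l 118346399815))))) (a (b (a (b (l 16743976) (a (l 16752920) (l 87207914103))) (b (b (l 91502890407) (l 16743760)) (l 4))) (l 4)) (l 4))))), by decide +kernel⟩

def k49_mm_202_t : ∃ t, chk3 f_mm_202_t t 12 11 1 = true :=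
  ⟨(b (a (b (a (b (l 16278648) (l 16305568)) (b (l 16369392) (l 16397248))) (a (b (l 16334128) (l 16364256)) (b (l 16426696) (l 16457672)))) (b (a (b (a (l 16436032) (l 16479712)) (a (l 16464592) (l 16508744))) (b (a (l 16522792) (l 16565264)) (a (l 16552296) (l 16595240)))) (a (c (b (l 16519736) (l 16551256)) (b (l 16514320) (l 16546440))) (b (a (l 16583304) (l 16626704)) (a (l 16615768) (l 16659592)))))) (a (b (a (b (l 16395904) (l 16428992)) (b (l 16490112) (l 16523944))) (a (b (l 16463464) (l 16499256)) (b (l 16517176) (l 16532648)))) (b (a (b (a (l 16559360) (l 16604776)) (a (l 16593760) (l 16639552))) (b (c (l 16609936) (l 16628688)) (a (l 16684768) (l 16687440)))) (a (b (a (l 16629464) (l 16675616)) (a (l 16666400) (l 16691912))) (a (b (l 16700208) (a (l 16726400) (l 16745624))) (b (c (l 71101722519) (l 16719720)) (b (l 103314022087) (l 4)))))))), by decide +kernel⟩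

def k50_mm_202_t : ∃ t, chk3 f_mm_202_t t 13 11 1 = true :=
  ⟨(b (a (b (b (a (a (l 16607112) (l 16627344)) (a (c (l 16689672) (l 16688056)) (b (l 16700016) (l 16715608)))) (a (a (l 16637568) (l 16637304)) (a (c (l 16699840) (l 16698776)) (b (l 16710504) (a (l 16758792) (l 16753328)))))) (a (b (a (l 16627536) (a (l 16701160) (l 16701096))) (a (l 16681824) (b (l 16715840) (l 16711784)))) (b (a (b (l 16723808) (a (l 16751208) (l 16749096))) (a (b (l 16751640) (l 16742608)) (l 112440790023))) (a (b (a (l 16767248) (l 16745888)) (a (l 16769848) (l 4))) (l 4))))) (a (b (a (b (b (a (l 16750360) (l 16747712)) (a (l 16744704) (l 80228584551))) (b (a (l 78617979831) (l 4)) (l 4))) (b (a (b (l 116735796999) (l 4)) (l 4)) (l 4))) (l 4)) (l 4))) (a (a (b (a (b (l 16695512) (a (l 16719104) (b (l 16772088) (l 16765384)))) (b (c (a (l 16745920) (l 16734480)) (a (l 16745696) (l 16744640))) (l 106535187991))) (a (b (b (l 104924621895) (l 4)) (l 4)) (l 4))) (l 4)) (l 4))), by decide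 +kernel⟩

def k51_mm_202_t : ∃ t, chk3 f_mm_202_t t 14 5 1 = true :=
  ⟨(a (b (b (b (a (a (b (c (b (l 16691488) (l 16680904)) (b (l 16690648) (l 16701096))) (c (b (l 16691744) (l 16703040)) (b (l 16712024) (l 16702440)))) (b (c (b (a (l 16714184) (l 16729048)) (a (l 16724832) (l 16739864))) (b (l 16700144) (l 16710952))) (a (b (l 16719984) (b (l 16744360) (l 16750272))) (b (c (l 16751128) (l 16729888)) (c (l 16741864) (l 16741704)))))) (a (b (a (b (c (l 16743696) (l 16743392)) (c (l 16733712) (l 16733496))) (b (c (l 16737144) (l 16736976)) (b (l 16745424) (a (l 16747488) (l 52311331223))))) (a (b (b (l 16742176) (l 16755824)) (a (b (l 16750208) (l 54458810007)) (b (l 119957054263) (l 4)))) (b (a (b (l 16763488) (l 121030788439)) (b (l 122104522471) (l 4))) (l 4)))) (b (a (b (a (l 38889546807) (b (l 16751968) (a (l 16755360) (l 125325760631)))) (a (b (c (l 16755344) (l 16760576)) (l 244511120663)) (l 4))) (b (b (c (l 227868118359) (l 228404993111)) (l 4)) (l 4))) (l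 4)))) (a (a (b (b (c (l 16710176) (l 16714280)) (c (l 16726928) (l 16726568))) (b (a (l 16731200) (b (l 16744352) (l 56606288743))) (a (b (l 16740912) (l 16747400)) (a (c (l 58216895975) (l 58216895623)) (l 106535247991))))) (b (a (b (c (l 16738464) (l 16738264)) (a (l 16746840) (b (l 16751504) (l 112440863975)))) (b (a (b (l 16747024) (l 16752872)) (b (l 16764608) (l 114588333799))) (a (b (l 113514599031) (l 4)) (l 4)))) (a (b (a (b (l 16755216) (l 16750080)) (l 4)) (l 4)) (l 4)))) (a (b (a (b (a (l 239142401463) (l 4)) (l 4)) (l 4)) (l 4)) (l 4)))) (a (b (a (b (a (b (a (l 59290647527) (b (l 16752696) (l 4))) (l 228941844103)) (l 4)) (l 4)) (l 4)) (l 4)) (l 4))) (l 4)) (l 4)), by decide +kernel⟩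

def k52_mm_202_t : ∃ t, chk3 f_mm_202_t t 15 5 1 = true :=
  ⟨(l 4), by decide +kernel⟩

def k53_mm_202_t : ∃ t, chk3 f_mm_202_t t 4 6 1 = true :=
  ⟨(b (a (b (l 6) (a (l 6) (b (l 6) (c (b (l 6) (l 15302384)) (l 15243440))))) (b (a (b (l 6) (c (b (l 15363264) (l 15397552)) (l 15344936))) (a (b (l 15453904) (l 15521736)) (b (l 15570208) (l 15660304)))) (a (b (c (b (l 15433456) (l 15470920)) (l 15417984)) (c (b (l 15509864) (l 15550224)) (l 15497360))) (b (a (l 15616880) (l 15735528)) (a (l 15696856) (l 15816296)))))) (b (a (a (b (l 6) (c (b (l 6) (l 15215776)) (l 15150896))) (b (c (b (l 15343360) (l 15385752)) (l 15326992)) (c (b (l 15429488) (l 15474512)) (l 15416312)))) (a (a (b (a (l 15504824) (l 15567352)) (l 15625264)) (b (l 15660104) (l 15749712))) (b (a (l 15782096) (l 15902072)) (a (l 15872048) (l 15992312))))) (b (a (b (a (a (l 6) (l 15308096)) (a (l 15439392) (l 15568408))) (l 2)) (a (a (l 15719136) (l 15843736)) (a (l 15966168) (l 16086480)))) (l 2)))),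 by decide +kernel⟩

def k54_mm_202_t : ∃ t, chk3 f_mm_202_t t 5 6 1 = true :=
  ⟨(b (a (b (a (b (a (l 15705736) (l 15818512)) (a (l 15776088) (l 15890032))) (b (a (l 15929488) (l 16038632)) (a (l 16002112) (l 16112312)))) (a (b (a (l 15852280) (l 15967144)) (a (l 15933776) (l 16049320))) (a (b (l 16080096) (l 16162920)) (b (l 16191136) (l 16274576))))) (b (a (b (a (l 16166864) (b (l 16233072) (l 16269664))) (a (b (l 16201400) (l 16240032)) (b (l 16307528) (l 16346608)))) (b (a (b (l 16336176) (l 16373320)) (b (l 16437272) (l 16474968))) (a (b (l 16411688) (l 16451216)) (b (l 16513832) (l 16553808))))) (a (b (a (l 16300240) (b (l 16386832) (l 16428144))) (a (l 16384280) (l 16387168))) (b (a (b (l 16491840) (l 16533488)) (c (l 16554816) (l 16550832))) (a (b (l 16576112) (l 16619624)) (b (l 16637808) (a (l 16697816) (l 16726512)))))))) (a (b (a (b (a (l 16020040) (l 16136032)) (a (l 16110536) (l 16226736))) (a (b (l 16250048) (l 16340944)) (b (l 16362096) (l 16453176))))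 (b (a (a (l 16204704) (l 16320896)) (b (l 16341360) (l 16389096))) (b (a (l 16293280) (l 16437456)) (l 2)))) (b (a (a (b (l 16451216) (l 16500528)) (b (b (l 16557888) (l 16602864)) (b (l 16648592) (l 16653064)))) (b (a (b (l 16643008) (l 16645992)) (a (b (l 16741480) (l 16749360)) (b (l 16748112) (l 4)))) (a (b (a (l 16728600) (l 16747752)) (a (l 16765160) (l 4))) (l 4)))) (a (b (a (l 16552656) (b (c (l 16653560) (l 16652488)) (a (l 16757080) (l 16765480)))) (a (b (l 56606042311) (a (l 16748168) (l 16768696))) (b (l 97945292423) (l 4)))) (b (a (b (l 97408408247) (l 4)) (l 4)) (l 4)))))), by decide +kernel⟩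

def k55_mm_202_t : ∃ t, chk3 f_mm_202_t t 2 7 1 = true :=
  ⟨(a (l 2) (a (l 2) (a (l 2) (l 4)))), by decide +kernel⟩

def k56_mm_202_t : ∃ t, chk3 f_mm_202_t t 3 3 1 = true :=
  ⟨(a (a (b (b (b (a (b (a (c (l 16474008) (l 16510760)) (b (l 16570304) (l 16609096))) (a (c (l 16530880) (l 16548416)) (b (a (l 16687664) (l 16694104)) (a (l 16707472) (a (l 16741352) (l 16770192)))))) (b (a (a (b (l 16704520) (l 16701280)) (b (a (l 16718704) (l 16740112)) (b (l 16751232) (l 16763808)))) (b (a (a (l 16749720) (l 4)) (l 4)) (l 4))) (a (a (b (a (l 16746456) (l 16766880)) (l 4)) (l 4)) (l 4)))) (a (b (a (b (l 16632864) (a (l 16713080) (l 70027959831))) (b (a (a (l 16756632) (l 16772296)) (l 16736304)) (a (l 16740120) (l 4)))) (a (b (a (l 16711200) (l 16743360)) (a (l 16746040) (l 4))) (l 4))) (l 4))) (l 4)) (l 4)) (l 4)) (l 4)), by decide +kernel⟩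

theorem s57_mm_202_t : ∃ t, chk3 f_mm_202_t t 2 6 1 = true := ex3_a k53_mm_202_t k54_mm_202_t

theorem s58_mm_202_t : ∃ t, chk3 f_mm_202_t t 2 3 1 = true := ex3_b s57_mm_202_t k55_mm_202_t

theorem s59_mm_202_t : ∃ t, chk3 f_mm_202_t t 1 3 1 = true := ex3_a s58_mm_202_t k56_mm_202_t

theorem s60_mm_202_t : ∃ t, chk3 f_mm_202_t t 7 5 1 = true := ex3_a k51_mm_202_t k52_mm_202_t

theorem s61_mm_202_t : ∃ t, chk3 f_mm_202_t t 6 11 1 = true := ex3_a k49_mm_202_t k50_mm_202_t

theorem s62_mm_202_t : ∃ t, chk3 f_mm_202_t t 13 10 1 = true := ex3_b k47_mm_202_t k48_mm_202_t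

theorem s63_mm_202_t : ∃ t, chk3 f_mm_202_t t 6 10 1 = true := ex3_a k46_mm_202_t s62_mm_202_t

theorem s64_mm_202_t : ∃ t, chk3 f_mm_202_t t 6 5 1 = true := ex3_b s63_mm_202_t s61_mm_202_t

theorem s65_mm_202_t : ∃ t, chk3 f_mm_202_t t 3 5 1 = true := ex3_a s64_mm_202_t s60_mm_202_t

theorem s66_mm_202_t : ∃ t, chk3 f_mm_202_t t 60 18 1 = true := ex3_b k41_mm_202_t k42_mm_202_t

theorem s67_mm_202_t : ∃ t, chk3 f_mm_202_t t 30 18 1 = true := ex3_a s66_mm_202_t k43_mm_202_t

theorem s68_mm_202_t : ∃ t, chk3 f_mm_202_t t 15 18 1 = true := ex3_a s67_mm_202_t k44_mm_202_t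

theorem s69_mm_202_t : ∃ t, chk3 f_mm_202_t t 15 9 1 = true := ex3_b s68_mm_202_t k45_mm_202_t

theorem s70_mm_202_t : ∃ t, chk3 f_mm_202_t t 29 19 1 = true := ex3_b k39_mm_202_t k40_mm_202_t

theorem s71_mm_202_t : ∃ t, chk3 f_mm_202_t t 14 19 1 = true := ex3_a k38_mm_202_t s70_mm_202_t

theorem s72_mm_202_t : ∃ t, chk3 f_mm_202_t t 29 18 1 = true := ex3_b k36_mm_202_t k37_mm_202_t

theorem s73_mm_202_t : ∃ t, chk3 f_mm_202_t t 14 18 1 = true := ex3_a k35_mm_202_t s72_mm_202_t

theorem s74_mm_202_t : ∃ t, chk3 f_mm_202_t t 14 9 1 = true := ex3_b s73_mm_202_t s71_mm_202_t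

theorem s75_mm_202_t : ∃ t, chk3 f_mm_202_t t 7 9 1 = true := ex3_a s74_mm_202_t s69_mm_202_t

theorem s76_mm_202_t : ∃ t, chk3 f_mm_202_t t 124 68 1 = true := ex3_b k29_mm_202_t k30_mm_202_t

theorem s77_mm_202_t : ∃ t, chk3 f_mm_202_t t 124 34 1 = true := ex3_b s76_mm_202_t k31_mm_202_t

theorem s78_mm_202_t : ∃ t, chk3 f_mm_202_t t 62 34 1 = true := ex3_a s77_mm_202_t k32_mm_202_t

theorem s79_mm_202_t : ∃ t, chk3 f_mm_202_t t 62 17 1 = true := ex3_b s78_mm_202_t k33_mm_202_t

theorem s80_mm_202_t : ∃ t, chk3 f_mm_202_t t 31 17 1 = true := ex3_a s79_mm_202_t k34_mm_202_t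

theorem s81_mm_202_t : ∃ t, chk3 f_mm_202_t t 61 35 1 = true := ex3_a k27_mm_202_t k28_mm_202_t

theorem s82_mm_202_t : ∃ t, chk3 f_mm_202_t t 30 35 1 = true := ex3_a k26_mm_202_t s81_mm_202_t

theorem s83_mm_202_t : ∃ t, chk3 f_mm_202_t t 61 34 1 = true := ex3_b k24_mm_202_t k25_mm_202_t

theorem s84_mm_202_t : ∃ t, chk3 f_mm_202_t t 30 34 1 = true := ex3_a k23_mm_202_t s83_mm_202_t

theorem s85_mm_202_t : ∃ t, chk3 f_mm_202_t t 30 17 1 = true := ex3_b s84_mm_202_t s82_mm_202_t

theorem s86_mm_202_t : ∃ t, chk3 f_mm_202_t t 15 17 1 = true := ex3_a s85_mm_202_t s80_mm_202_t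

theorem s87_mm_202_t : ∃ t, chk3 f_mm_202_t t 252 132 1 = true := ex3_a k17_mm_202_t k18_mm_202_t

theorem s88_mm_202_t : ∃ t, chk3 f_mm_202_t t 252 66 1 = true := ex3_b s87_mm_202_t k19_mm_202_t

theorem s89_mm_202_t : ∃ t, chk3 f_mm_202_t t 126 66 1 = true := ex3_a s88_mm_202_t k20_mm_202_t

theorem s90_mm_202_t : ∃ t, chk3 f_mm_202_t t 126 33 1 = true := ex3_b s89_mm_202_t k21_mm_202_t

theorem s91_mm_202_t : ∃ t, chk3 f_mm_202_t t 63 33 1 = true := ex3_a s90_mm_202_t k22_mm_202_t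

theorem s92_mm_202_t : ∃ t, chk3 f_mm_202_t t 250 67 1 = true := ex3_b k14_mm_202_t k15_mm_202_t

theorem s93_mm_202_t : ∃ t, chk3 f_mm_202_t t 125 67 1 = true := ex3_a s92_mm_202_t k16_mm_202_t

theorem s94_mm_202_t : ∃ t, chk3 f_mm_202_t t 62 67 1 = true := ex3_a k13_mm_202_t s93_mm_202_t

theorem s95_mm_202_t : ∃ t, chk3 f_mm_202_t t 251 133 1 = true := ex3_a k11_mm_202_t k12_mm_202_t

theorem s96_mm_202_t : ∃ t, chk3 f_mm_202_t t 125 133 1 = true := ex3_a k10_mm_202_t s95_mm_202_t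

theorem s97_mm_202_t : ∃ t, chk3 f_mm_202_t t 125 66 1 = true := ex3_b k9_mm_202_t s96_mm_202_t

theorem s98_mm_202_t : ∃ t, chk3 f_mm_202_t t 62 66 1 = true := ex3_a k8_mm_202_t s97_mm_202_t

theorem s99_mm_202_t : ∃ t, chk3 f_mm_202_t t 62 33 1 = true := ex3_b s98_mm_202_t s94_mm_202_t

theorem s100_mm_202_t : ∃ t, chk3 f_mm_202_t t 31 33 1 = true := ex3_a s99_mm_202_t s91_mm_202_t

theorem s101_mm_202_t : ∃ t, chk3 f_mm_202_t t 31 16 1 = true := ex3_b k7_mm_202_t s100_mm_202_t

theorem s102_mm_202_t : ∃ t, chk3 f_mm_202_t t 30 16 1 = true := ex3_b k5_mm_202_t k6_mm_202_t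

theorem s103_mm_202_t : ∃ t, chk3 f_mm_202_t t 15 16 1 = true := ex3_a s102_mm_202_t s101_mm_202_t

theorem s104_mm_202_t : ∃ t, chk3 f_mm_202_t t 15 8 1 = true := ex3_b s103_mm_202_t s86_mm_202_t

theorem s105_mm_202_t : ∃ t, chk3 f_mm_202_t t 14 8 1 = true := ex3_b k3_mm_202_t k4_mm_202_t

theorem s106_mm_202_t : ∃ t, chk3 f_mm_202_t t 7 8 1 = true := ex3_a s105_mm_202_t s104_mm_202_t

theorem s107_mm_202_t : ∃ t, chk3 f_mm_202_t t 7 4 1 = true := ex3_b s106_mm_202_t s75_mm_202_t

theorem s108_mm_202_t : ∃ t, chk3 f_mm_202_t t 6 4 1 = true := ex3_b k1_mm_202_t k2_mm_202_t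

theorem s109_mm_202_t : ∃ t, chk3 f_mm_202_t t 3 4 1 = true := ex3_a s108_mm_202_t s107_mm_202_t

theorem s110_mm_202_t : ∃ t, chk3 f_mm_202_t t 3 2 1 = true := ex3_b s109_mm_202_t s65_mm_202_t

theorem s111_mm_202_t : ∃ t, chk3 f_mm_202_t t 1 2 1 = true := ex3_a k0_mm_202_t s110_mm_202_t

theorem s112_mm_202_t : ∃ t, chk3 f_mm_202_t t 1 1 1 = true := ex3_b s111_mm_202_t s59_mm_202_t

theorem c_mm_202_t : CertNE 0 536870912 0 536870912 1020054732 13421774 3 eng mog cd0q2 cd0q0 pd2 true false false .pp 2 0 2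
    ndB0q2 ndB0q0 pcB2 cut_mm_202_t Ext.none :=
  certNE0 (fam := true) (s1 := false) (s2 := false) (a := 2) (b := 0) (c := 2) (cn := .pp) (n1 := ndB0q2) (n2 := ndB0q0) (pc := pcB2) (cut := cut_mm_202_t) (xt := Ext.none) (P1 := 0) (W1 := 536870912) (P2 := 0) (W2 := 536870912) (P3 := 1020054732) (W3 := 13421774) (N0 := 3) (En := eng) (mo := mog) (C1 := cd0q2) (C2 := cd0q0) (C3 := pd2)
    rfl s112_mm_202_t

noncomputable def cut_mm_203_s : Cut := Cut.of [[⟨4, 0, 0, 1449551462⟩]]

noncomputable def f_mm_203_s : ℕ → ℕ → ℕ → ℕ → Bool := onCell 0 536870912 0 536870912 1020054732 13421774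
    (rowNE 3 eng mog cd0q2 cd0q0 pd3 0 true false false .up 2 0 3 (qsf 0 536870912 0 536870912 3) ndB0q2 ndB0q0 pcB3 cut_mm_203_s Ext.none)

def k0_mm_203_s : ∃ t, chk3 f_mm_203_s t 1 1 1 = true :=
  ⟨(l 6), by decide +kernel⟩

theorem c_mm_203_s : CertNE 0 536870912 0 536870912 1020054732 13421774 3 eng mog cd0q2 cd0q0 pd3 true false false .up 2 0 3
    ndB0q2 ndB0q0 pcB3 cut_mm_203_s Ext.none :=
  certNE0 (fam := true) (s1 := false) (s2 := false) (a := 2) (b := 0) (c := 3) (cn := .up) (n1 := ndB0q2) (n2 := ndB0q0) (pc := pcB3) (cut := cut_mm_203_s) (xt := Ext.none) (P1 := 0) (W1 := 536870912) (P2 := 0) (W2 := 536870912) (P3 := 1020054732) (W3 := 13421774) (N0 := 3) (En := eng) (mo := mog) (C1 := cd0q2) (C2 := cd0q0) (C3 := pd3)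
    rfl k0_mm_203_s

noncomputable def cut_mm_203_t : Cut := Cut.of [[⟨3, 0, 0, 2845415833⟩]]

noncomputable def f_mm_203_t : ℕ → ℕ → ℕ → ℕ → Bool := onCell 0 536870912 1610612736 536870912 1020054732 13421774
    (rowNE 3 eng mog cd0q2 cd0q0 pd3 1 true false false .up 2 0 3 (qsf 0 536870912 0 536870912 3) ndB0q2 ndB0q0 pcB3 cut_mm_203_t Ext.none)

def k0_mm_203_t : ∃ t, chk3 f_mm_203_t t 1 1 1 = true :=
  ⟨(b (a (b (b (a (b (a (b (l 16532288) (l 16563384)) (b (l 16556592) (l 16583264))) (a (a (l 16586312) (l 16580544)) (a (l 16661040) (a (l 16691488) (l 16712640))))) (a (b (b (a (l 16691296) (l 16742736)) (a (l 16714544) (a (l 16751080) (l 84523527543)))) (a (b (l 16735744) (l 16749440)) (b (c (l 88281575991) (l 88281572487)) (a (l 95260927159) (l 4))))) (b (a (b (a (c (l 16750008) (l 16750064)) (l 4)) (l 4)) (l 4)) (l 4)))) (a (b (a (b (l 16619024) (l 16660968)) (b (l 16702080) (l 16731104))) (a (b (l 16680152) (l 16697840)) (a (l 16738384) (b (a (l 16757008) (l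 16752304)) (a (l 16771368) (l 103314002599)))))) (a (a (b (b (a (l 16762240) (l 91502846135)) (a (l 16738504) (l 4))) (l 4)) (l 4)) (l 4)))) (b (a (b (a (b (l 16693336) (l 16729840)) (a (b (l 16761552) (a (l 16768216) (l 16747584))) (b (a (l 100092785863) (l 4)) (l 4)))) (a (l 2) (l 2))) (l 4)) (l 2))) (l 4)) (l 2)), by decide +kernel⟩

theorem c_mm_203_t : CertNE 0 536870912 0 536870912 1020054732 13421774 3 eng mog cd0q2 cd0q0 pd3 true false false .up 2 0 3
    ndB0q2 ndB0q0 pcB3 cut_mm_203_t Ext.none :=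
  certNE1 (fam := true) (s1 := false) (s2 := false) (a := 2) (b := 0) (c := 3) (cn := .up) (n1 := ndB0q2) (n2 := ndB0q0) (pc := pcB3) (cut := cut_mm_203_t) (xt := Ext.none) (P1 := 0) (W1 := 536870912) (P2 := 0) (W2 := 536870912) (P3 := 1020054732) (W3 := 13421774) (N0 := 3) (En := eng) (mo := mog) (C1 := cd0q2) (C2 := cd0q0) (C3 := pd3)
    rfl (fun _ => rfl) k0_mm_203_t

noncomputable def cut_mm_213_s : Cut := Cut.of [[⟨4, 0, 0, 1449551462⟩]]

noncomputable def f_mm_213_s : ℕ → ℕ → ℕ → ℕ → Bool := onCell 0 536870912 536870912 536870912 1020054732 13421774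
    (rowNE 3 eng mog cd0q2 cd0q1 pd3 0 true false false .pnn 2 1 3 (qsf 0 536870912 536870912 536870912 3) ndB0q2 ndB0q1 pcB3 cut_mm_213_s Ext.none)

def k0_mm_213_s : ∃ t, chk3 f_mm_213_s t 1 1 1 = true :=
  ⟨(l 6), by decide +kernel⟩

theorem c_mm_213_s : CertNE 0 536870912 536870912 536870912 1020054732 13421774 3 eng mog cd0q2 cd0q1 pd3 true false false .pnn 2 1 3
    ndB0q2 ndB0q1 pcB3 cut_mm_213_s Ext.none :=
  certNE0 (fam := true) (s1 := false) (s2 := false) (a := 2) (b := 1) (c := 3) (cn := .pnn) (n1 := ndB0q2) (n2 := ndB0q1) (pc := pcB3) (cut := cut_mm_213_s) (xt := Ext.none) (P1 := 0) (W1 := 536870912) (P2 := 536870912) (W2 := 536870912) (P3 := 1020054732) (W3 := 13421774) (N0 := 3) (En := eng) (mo := mog) (C1 := cd0q2) (C2 := cd0q1) (C3 := pd3)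
    rfl k0_mm_213_s

noncomputable def cut_mm_213_t : Cut := Cut.of [[⟨3, 0, 0, 2845415833⟩]]

noncomputable def f_mm_213_t : ℕ → ℕ → ℕ → ℕ → Bool := onCell 0 536870912 536870912 536870912 1020054732 13421774
    (rowNE 3 eng mog cd0q2 cd0q1 pd3 0 true false false .pnn 2 1 3 (qsf 0 536870912 536870912 536870912 3) ndB0q2 ndB0q1 pcB3 cut_mm_213_t Ext.none)

def k0_mm_213_t : ∃ t, chk3 f_mm_213_t t 1 1 1 = true :=
  ⟨(a (b (a (b (b (a (a (b (l 16735216) (b (l 16756664) (l 16748184))) (b (b (l 16756864) (l 65733064967)) (b (a (l 16775520) (l 4)) (l 4)))) (b (a (b (a (l 16775888) (l 4)) (l 4)) (l 4)) (l 4))) (a (b (a (b (a (l 16775352) (l 4)) (l 4)) (l 4)) (l 4)) (l 4))) (l 4)) (l 4)) (l 4)) (l 4)), by decide +kernel⟩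

theorem c_mm_213_t : CertNE 0 536870912 536870912 536870912 1020054732 13421774 3 eng mog cd0q2 cd0q1 pd3 true false false .pnn 2 1 3
    ndB0q2 ndB0q1 pcB3 cut_mm_213_t Ext.none :=
  certNE0 (fam := true) (s1 := false) (s2 := false) (a := 2) (b := 1) (c := 3) (cn := .pnn) (n1 := ndB0q2) (n2 := ndB0q1) (pc := pcB3) (cut := cut_mm_213_t) (xt := Ext.none) (P1 := 0) (W1 := 536870912) (P2 := 536870912) (W2 := 536870912) (P3 := 1020054732) (W3 := 13421774) (N0 := 3) (En := eng) (mo := mog) (C1 := cd0q2) (C2 := cd0q1) (C3 := pd3)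
    rfl k0_mm_213_t

end Pool.Agent.Strip051.G.I9500_9625.Tab.CS.BA00

namespace Pool.Agent.Strip051.G.I9500_9625.Tab.CS.BA05

open Pool.Agent.Strip051.PB Pool.Agent.Strip051.PB.T
open Pool.Agent.Strip051.G.I9500_9625.Tab

noncomputable def cut_pp_001_s : Cut := Cut.of [[⟨4, 0, 0, 1449551462⟩]]

noncomputable def f_pp_001_s : ℕ → ℕ → ℕ → ℕ → Bool := onCell 0 536870912 0 536870912 1020054732 13421774
    (rowNE 3 eng mog cd0q0 cd5q0 pd1 0 true true true .up 0 0 1 (qsf 0 536870912 0 536870912 1) ndB0q0 ndB5q0 pcB1 cut_pp_001_s Ext.none)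

def k0_pp_001_s : ∃ t, chk3 f_pp_001_s t 1 1 1 = true :=
  ⟨(l 4), by decide +kernel⟩

theorem c_pp_001_s : CertNE 0 536870912 0 536870912 1020054732 13421774 3 eng mog cd0q0 cd5q0 pd1 true true true .up 0 0 1
    ndB0q0 ndB5q0 pcB1 cut_pp_001_s Ext.none :=
  certNE0 (fam := true) (s1 := true) (s2 := true) (a := 0) (b := 0) (c := 1) (cn := .up) (n1 := ndB0q0) (n2 := ndB5q0) (pc := pcB1) (cut := cut_pp_001_s) (xt := Ext.none) (P1 := 0) (W1 := 536870912) (P2 := 0) (W2 := 536870912) (P3 := 1020054732) (W3 := 13421774) (N0 := 3) (En := eng) (mo := mog) (C1 := cd0q0) (C2 := cd5q0) (C3 := pd1)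
    rfl k0_pp_001_s

noncomputable def cut_pp_011_s : Cut := Cut.of [[⟨4, 0, 0, 1449551462⟩]]

noncomputable def f_pp_011_s : ℕ → ℕ → ℕ → ℕ → Bool := onCell 0 536870912 536870912 536870912 1020054732 13421774
    (rowNE 3 eng mog cd0q0 cd5q1 pd1 0 true true true .pnn 0 1 1 (qsf 0 536870912 536870912 536870912 1) ndB0q0 ndB5q1 pcB1 cut_pp_011_s Ext.none)

def k0_pp_011_s : ∃ t, chk3 f_pp_011_s t 1 1 1 = true :=
  ⟨(l 4), by decide +kernel⟩

theorem c_pp_011_s : CertNE 0 536870912 536870912 536870912 1020054732 13421774 3 eng mog cd0q0 cd5q1 pd1 true true true .pnn 0 1 1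
    ndB0q0 ndB5q1 pcB1 cut_pp_011_s Ext.none :=
  certNE0 (fam := true) (s1 := true) (s2 := true) (a := 0) (b := 1) (c := 1) (cn := .pnn) (n1 := ndB0q0) (n2 := ndB5q1) (pc := pcB1) (cut := cut_pp_011_s) (xt := Ext.none) (P1 := 0) (W1 := 536870912) (P2 := 536870912) (W2 := 536870912) (P3 := 1020054732) (W3 := 13421774) (N0 := 3) (En := eng) (mo := mog) (C1 := cd0q0) (C2 := cd5q1) (C3 := pd1)
    rfl k0_pp_011_s

noncomputable def cut_pp_012_s : Cut := Cut.of [[⟨4, 0, 0, 1449551462⟩]]

noncomputable def f_pp_012_s : ℕ → ℕ → ℕ → ℕ → Bool := onCell 0 536870912 536870912 536870912 1020054732 13421774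
    (rowNE 3 eng mog cd0q0 cd5q1 pd2 0 true true true .pnp 0 1 2 (qsf 0 536870912 536870912 536870912 2) ndB0q0 ndB5q1 pcB2 cut_pp_012_s Ext.none)

def k0_pp_012_s : ∃ t, chk3 f_pp_012_s t 1 1 1 = true :=
  ⟨(l 4), by decide +kernel⟩

theorem c_pp_012_s : CertNE 0 536870912 536870912 536870912 1020054732 13421774 3 eng mog cd0q0 cd5q1 pd2 true true true .pnp 0 1 2
    ndB0q0 ndB5q1 pcB2 cut_pp_012_s Ext.none :=
  certNE0 (fam := true) (s1 := true) (s2 := true) (a := 0) (b := 1) (c := 2) (cn := .pnp) (n1 := ndB0q0) (n2 := ndB5q1) (pc := pcB2) (cut := cut_pp_012_s) (xt := Ext.none) (P1 := 0) (W1 := 536870912) (P2 := 536870912) (W2 := 536870912) (P3 := 1020054732) (W3 := 13421774) (N0 := 3) (En := eng) (mo := mog) (C1 := cd0q0) (C2 := cd5q1) (C3 := pd2)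
    rfl k0_pp_012_s

noncomputable def cut_pp_022_s : Cut := Cut.of [[⟨4, 0, 0, 1449551462⟩]]

noncomputable def f_pp_022_s : ℕ → ℕ → ℕ → ℕ → Bool := onCell 0 536870912 1073741824 536870912 1020054732 13421774
    (rowNE 3 eng mog cd0q0 cd5q2 pd2 0 true true true .pp 0 2 2 (qsf 0 536870912 1073741824 536870912 2) ndB0q0 ndB5q2 pcB2 cut_pp_022_s Ext.none)

def k0_pp_022_s : ∃ t, chk3 f_pp_022_s t 1 1 1 = true :=
  ⟨(l 4), by decide +kernel⟩

theorem c_pp_022_s : CertNE 0 536870912 1073741824 536870912 1020054732 13421774 3 eng mog cd0q0 cd5q2 pd2 true true true .pp 0 2 2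
    ndB0q0 ndB5q2 pcB2 cut_pp_022_s Ext.none :=
  certNE0 (fam := true) (s1 := true) (s2 := true) (a := 0) (b := 2) (c := 2) (cn := .pp) (n1 := ndB0q0) (n2 := ndB5q2) (pc := pcB2) (cut := cut_pp_022_s) (xt := Ext.none) (P1 := 0) (W1 := 536870912) (P2 := 1073741824) (W2 := 536870912) (P3 := 1020054732) (W3 := 13421774) (N0 := 3) (En := eng) (mo := mog) (C1 := cd0q0) (C2 := cd5q2) (C3 := pd2)
    rfl k0_pp_022_s

noncomputable def cut_pp_023_s : Cut := Cut.of [[⟨4, 0, 0, 1449551462⟩]]

noncomputable def f_pp_023_s : ℕ → ℕ → ℕ → ℕ → Bool := onCell 0 536870912 1073741824 536870912 1020054732 13421774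
    (rowNE 3 eng mog cd0q0 cd5q2 pd3 0 true true true .up 0 2 3 (qsf 0 536870912 1073741824 536870912 3) ndB0q0 ndB5q2 pcB3 cut_pp_023_s Ext.none)

def k0_pp_023_s : ∃ t, chk3 f_pp_023_s t 1 1 1 = true :=
  ⟨(l 4), by decide +kernel⟩

theorem c_pp_023_s : CertNE 0 536870912 1073741824 536870912 1020054732 13421774 3 eng mog cd0q0 cd5q2 pd3 true true true .up 0 2 3
    ndB0q0 ndB5q2 pcB3 cut_pp_023_s Ext.none :=
  certNE0 (fam := true) (s1 := true) (s2 := true) (a := 0) (b := 2) (c := 3) (cn := .up) (n1 := ndB0q0) (n2 := ndB5q2) (pc := pcB3) (cut := cut_pp_023_s) (xt := Ext.none) (P1 := 0) (W1 := 536870912) (P2 := 1073741824) (W2 := 536870912) (P3 := 1020054732) (W3 := 13421774) (N0 := 3) (En := eng) (mo := mog) (C1 := cd0q0) (C2 := cd5q2) (C3 := pd3)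
    rfl k0_pp_023_s

noncomputable def cut_pp_033_s : Cut := Cut.of [[⟨4, 0, 0, 1449551462⟩]]

noncomputable def f_pp_033_s : ℕ → ℕ → ℕ → ℕ → Bool := onCell 0 536870912 0 1230186008 1020054732 13421774
    (rowNE 3 eng mog cd0q0 cd5q3 pd3 0 true true true .pnn 0 3 3 (qsf 0 536870912 0 1230186008 3) ndB0q0 ndB5q3 pcB3 cut_pp_033_s Ext.none)

def k0_pp_033_s : ∃ t, chk3 f_pp_033_s t 1 1 1 = true :=
  ⟨(l 4), by decide +kernel⟩

theorem c_pp_033_s : CertNE 0 536870912 0 1230186008 1020054732 13421774 3 eng mog cd0q0 cd5q3 pd3 true true true .pnn 0 3 3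
    ndB0q0 ndB5q3 pcB3 cut_pp_033_s Ext.none :=
  certNE0 (fam := true) (s1 := true) (s2 := true) (a := 0) (b := 3) (c := 3) (cn := .pnn) (n1 := ndB0q0) (n2 := ndB5q3) (pc := pcB3) (cut := cut_pp_033_s) (xt := Ext.none) (P1 := 0) (W1 := 536870912) (P2 := 0) (W2 := 1230186008) (P3 := 1020054732) (W3 := 13421774) (N0 := 3) (En := eng) (mo := mog) (C1 := cd0q0) (C2 := cd5q3) (C3 := pd3)
    rfl k0_pp_033_s

noncomputable def cut_pp_101_s : Cut := Cut.of [[⟨4, 0, 0, 1449551462⟩]]

noncomputable def f_pp_101_s : ℕ → ℕ → ℕ → ℕ → Bool := onCell 536870912 536870912 0 536870912 1020054732 13421774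
    (rowNE 3 eng mog cd0q1 cd5q0 pd1 0 true true true .npn 1 0 1 (qsf 536870912 536870912 0 536870912 1) ndB0q1 ndB5q0 pcB1 cut_pp_101_s Ext.none)

def k0_pp_101_s : ∃ t, chk3 f_pp_101_s t 1 1 1 = true :=
  ⟨(l 4), by decide +kernel⟩

theorem c_pp_101_s : CertNE 536870912 536870912 0 536870912 1020054732 13421774 3 eng mog cd0q1 cd5q0 pd1 true true true .npn 1 0 1
    ndB0q1 ndB5q0 pcB1 cut_pp_101_s Ext.none :=
  certNE0 (fam := true) (s1 := true) (s2 := true) (a := 1) (b := 0) (c := 1) (cn := .npn) (n1 := ndB0q1) (n2 := ndB5q0) (pc := pcB1) (cut := cut_pp_101_s) (xt := Ext.none) (P1 := 536870912) (W1 := 536870912) (P2 := 0) (W2 := 536870912) (P3 := 1020054732) (W3 := 13421774) (N0 := 3) (En := eng) (mo := mog) (C1 := cd0q1) (C2 := cd5q0) (C3 := pd1)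
    rfl k0_pp_101_s

noncomputable def cut_pp_102_s : Cut := Cut.of [[⟨4, 0, 0, 1449551462⟩]]

noncomputable def f_pp_102_s : ℕ → ℕ → ℕ → ℕ → Bool := onCell 536870912 536870912 0 536870912 1020054732 13421774
    (rowNE 3 eng mog cd0q1 cd5q0 pd2 0 true true true .npp 1 0 2 (qsf 536870912 536870912 0 536870912 2) ndB0q1 ndB5q0 pcB2 cut_pp_102_s Ext.none)

def k0_pp_102_s : ∃ t, chk3 f_pp_102_s t 1 1 1 = true :=
  ⟨(l 4), by decide +kernel⟩

theorem c_pp_102_s : CertNE 536870912 536870912 0 536870912 1020054732 13421774 3 eng mog cd0q1 cd5q0 pd2 true true true .npp 1 0 2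
    ndB0q1 ndB5q0 pcB2 cut_pp_102_s Ext.none :=
  certNE0 (fam := true) (s1 := true) (s2 := true) (a := 1) (b := 0) (c := 2) (cn := .npp) (n1 := ndB0q1) (n2 := ndB5q0) (pc := pcB2) (cut := cut_pp_102_s) (xt := Ext.none) (P1 := 536870912) (W1 := 536870912) (P2 := 0) (W2 := 536870912) (P3 := 1020054732) (W3 := 13421774) (N0 := 3) (En := eng) (mo := mog) (C1 := cd0q1) (C2 := cd5q0) (C3 := pd2)
    rfl k0_pp_102_s

noncomputable def cut_pp_112_s : Cut := Cut.of [[⟨4, 0, 0, 1449551462⟩]]

noncomputable def f_pp_112_s : ℕ → ℕ → ℕ → ℕ → Bool := onCell 536870912 536870912 536870912 536870912 1020054732 13421774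
    (rowNE 3 eng mog cd0q1 cd5q1 pd2 0 true true true .dn 1 1 2 (qsf 536870912 536870912 536870912 536870912 2) ndB0q1 ndB5q1 pcB2 cut_pp_112_s Ext.none)

def k0_pp_112_s : ∃ t, chk3 f_pp_112_s t 1 1 1 = true :=
  ⟨(l 4), by decide +kernel⟩

theorem c_pp_112_s : CertNE 536870912 536870912 536870912 536870912 1020054732 13421774 3 eng mog cd0q1 cd5q1 pd2 true true true .dn 1 1 2
    ndB0q1 ndB5q1 pcB2 cut_pp_112_s Ext.none :=
  certNE0 (fam := true) (s1 := true) (s2 := true) (a := 1) (b := 1) (c := 2) (cn := .dn) (n1 := ndB0q1) (n2 := ndB5q1) (pc := pcB2) (cut := cut_pp_112_s) (xt := Ext.none) (P1 := 536870912) (W1 := 536870912) (P2 := 536870912) (W2 := 536870912) (P3 := 1020054732) (W3 := 13421774) (N0 := 3) (En := eng) (mo := mog) (C1 := cd0q1) (C2 := cd5q1) (C3 := pd2)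
    rfl k0_pp_112_s

noncomputable def cut_pp_113_s : Cut := Cut.of [[⟨4, 0, 0, 1449551462⟩]]

noncomputable def f_pp_113_s : ℕ → ℕ → ℕ → ℕ → Bool := onCell 536870912 536870912 536870912 536870912 1020054732 13421774
    (rowNE 3 eng mog cd0q1 cd5q1 pd3 0 true true true .nn 1 1 3 (qsf 536870912 536870912 536870912 536870912 3) ndB0q1 ndB5q1 pcB3 cut_pp_113_s Ext.none)

def k0_pp_113_s : ∃ t, chk3 f_pp_113_s t 1 1 1 = true :=
  ⟨(l 4), by decide +kernel⟩

theorem c_pp_113_s : CertNE 536870912 536870912 536870912 536870912 1020054732 13421774 3 eng mog cd0q1 cd5q1 pd3 true true true .nn 1 1 3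
    ndB0q1 ndB5q1 pcB3 cut_pp_113_s Ext.none :=
  certNE0 (fam := true) (s1 := true) (s2 := true) (a := 1) (b := 1) (c := 3) (cn := .nn) (n1 := ndB0q1) (n2 := ndB5q1) (pc := pcB3) (cut := cut_pp_113_s) (xt := Ext.none) (P1 := 536870912) (W1 := 536870912) (P2 := 536870912) (W2 := 536870912) (P3 := 1020054732) (W3 := 13421774) (N0 := 3) (En := eng) (mo := mog) (C1 := cd0q1) (C2 := cd5q1) (C3 := pd3)
    rfl k0_pp_113_s

noncomputable def cut_pp_123_s : Cut := Cut.of [[⟨4, 0, 0, 1449551462⟩]]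

noncomputable def f_pp_123_s : ℕ → ℕ → ℕ → ℕ → Bool := onCell 536870912 536870912 1073741824 536870912 1020054732 13421774
    (rowNE 3 eng mog cd0q1 cd5q2 pd3 0 true true true .npn 1 2 3 (qsf 536870912 536870912 1073741824 536870912 3) ndB0q1 ndB5q2 pcB3 cut_pp_123_s Ext.none)

def k0_pp_123_s : ∃ t, chk3 f_pp_123_s t 1 1 1 = true :=
  ⟨(l 4), by decide +kernel⟩

theorem c_pp_123_s : CertNE 536870912 536870912 1073741824 536870912 1020054732 13421774 3 eng mog cd0q1 cd5q2 pd3 true true true .npn 1 2 3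
    ndB0q1 ndB5q2 pcB3 cut_pp_123_s Ext.none :=
  certNE0 (fam := true) (s1 := true) (s2 := true) (a := 1) (b := 2) (c := 3) (cn := .npn) (n1 := ndB0q1) (n2 := ndB5q2) (pc := pcB3) (cut := cut_pp_123_s) (xt := Ext.none) (P1 := 536870912) (W1 := 536870912) (P2 := 1073741824) (W2 := 536870912) (P3 := 1020054732) (W3 := 13421774) (N0 := 3) (En := eng) (mo := mog) (C1 := cd0q1) (C2 := cd5q2) (C3 := pd3)
    rfl k0_pp_123_s

noncomputable def cut_pp_133_s : Cut := Cut.of [[⟨4, 0, 0, 1449551462⟩]]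

noncomputable def f_pp_133_s : ℕ → ℕ → ℕ → ℕ → Bool := onCell 536870912 536870912 0 1230186008 1020054732 13421774
    (rowNE 3 eng mog cd0q1 cd5q3 pd3 0 true true true .dn 1 3 3 (qsf 536870912 536870912 0 1230186008 3) ndB0q1 ndB5q3 pcB3 cut_pp_133_s Ext.none)

def k0_pp_133_s : ∃ t, chk3 f_pp_133_s t 1 1 1 = true :=
  ⟨(l 4), by decide +kernel⟩

theorem c_pp_133_s : CertNE 536870912 536870912 0 1230186008 1020054732 13421774 3 eng mog cd0q1 cd5q3 pd3 true true true .dn 1 3 3
    ndB0q1 ndB5q3 pcB3 cut_pp_133_s Ext.none :=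
  certNE0 (fam := true) (s1 := true) (s2 := true) (a := 1) (b := 3) (c := 3) (cn := .dn) (n1 := ndB0q1) (n2 := ndB5q3) (pc := pcB3) (cut := cut_pp_133_s) (xt := Ext.none) (P1 := 536870912) (W1 := 536870912) (P2 := 0) (W2 := 1230186008) (P3 := 1020054732) (W3 := 13421774) (N0 := 3) (En := eng) (mo := mog) (C1 := cd0q1) (C2 := cd5q3) (C3 := pd3)
    rfl k0_pp_133_s

noncomputable def cut_pp_202_s : Cut := Cut.of [[⟨4, 0, 0, 1449551462⟩]]

noncomputable def f_pp_202_s : ℕ → ℕ → ℕ → ℕ → Bool := onCell 0 536870912 0 536870912 1020054732 13421774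
    (rowNE 3 eng mog cd0q2 cd5q0 pd2 0 true true true .pp 2 0 2 (qsf 0 536870912 0 536870912 2) ndB0q2 ndB5q0 pcB2 cut_pp_202_s Ext.none)

def k0_pp_202_s : ∃ t, chk3 f_pp_202_s t 1 1 1 = true :=
  ⟨(l 4), by decide +kernel⟩

theorem c_pp_202_s : CertNE 0 536870912 0 536870912 1020054732 13421774 3 eng mog cd0q2 cd5q0 pd2 true true true .pp 2 0 2
    ndB0q2 ndB5q0 pcB2 cut_pp_202_s Ext.none :=
  certNE0 (fam := true) (s1 := true) (s2 := true) (a := 2) (b := 0) (c := 2) (cn := .pp) (n1 := ndB0q2) (n2 := ndB5q0) (pc := pcB2) (cut := cut_pp_202_s) (xt := Ext.none) (P1 := 0) (W1 := 536870912) (P2 := 0) (W2 := 536870912) (P3 := 1020054732) (W3 := 13421774) (N0 := 3) (En := eng) (mo := mog) (C1 := cd0q2) (C2 := cd5q0) (C3 := pd2)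
    rfl k0_pp_202_s

noncomputable def cut_pp_203_s : Cut := Cut.of [[⟨4, 0, 0, 1449551462⟩]]

noncomputable def f_pp_203_s : ℕ → ℕ → ℕ → ℕ → Bool := onCell 0 536870912 0 536870912 1020054732 13421774
    (rowNE 3 eng mog cd0q2 cd5q0 pd3 0 true true true .up 2 0 3 (qsf 0 536870912 0 536870912 3) ndB0q2 ndB5q0 pcB3 cut_pp_203_s Ext.none)

def k0_pp_203_s : ∃ t, chk3 f_pp_203_s t 1 1 1 = true :=
  ⟨(l 4), by decide +kernel⟩

theorem c_pp_203_s : CertNE 0 536870912 0 536870912 1020054732 13421774 3 eng mog cd0q2 cd5q0 pd3 true true true .up 2 0 3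
    ndB0q2 ndB5q0 pcB3 cut_pp_203_s Ext.none :=
  certNE0 (fam := true) (s1 := true) (s2 := true) (a := 2) (b := 0) (c := 3) (cn := .up) (n1 := ndB0q2) (n2 := ndB5q0) (pc := pcB3) (cut := cut_pp_203_s) (xt := Ext.none) (P1 := 0) (W1 := 536870912) (P2 := 0) (W2 := 536870912) (P3 := 1020054732) (W3 := 13421774) (N0 := 3) (En := eng) (mo := mog) (C1 := cd0q2) (C2 := cd5q0) (C3 := pd3)
    rfl k0_pp_203_s

noncomputable def cut_pp_213_s : Cut := Cut.of [[⟨4, 0, 0, 1449551462⟩]]

noncomputable def f_pp_213_s : ℕ → ℕ → ℕ → ℕ → Bool := onCell 0 536870912 536870912 536870912 1020054732 13421774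
    (rowNE 3 eng mog cd0q2 cd5q1 pd3 0 true true true .pnn 2 1 3 (qsf 0 536870912 536870912 536870912 3) ndB0q2 ndB5q1 pcB3 cut_pp_213_s Ext.none)

def k0_pp_213_s : ∃ t, chk3 f_pp_213_s t 1 1 1 = true :=
  ⟨(l 4), by decide +kernel⟩

theorem c_pp_213_s : CertNE 0 536870912 536870912 536870912 1020054732 13421774 3 eng mog cd0q2 cd5q1 pd3 true true true .pnn 2 1 3
    ndB0q2 ndB5q1 pcB3 cut_pp_213_s Ext.none :=
  certNE0 (fam := true) (s1 := true) (s2 := true) (a := 2) (b := 1) (c := 3) (cn := .pnn) (n1 := ndB0q2) (n2 := ndB5q1) (pc := pcB3) (cut := cut_pp_213_s) (xt := Ext.none) (P1 := 0) (W1 := 536870912) (P2 := 536870912) (W2 := 536870912) (P3 := 1020054732) (W3 := 13421774) (N0 := 3) (En := eng) (mo := mog) (C1 := cd0q2) (C2 := cd5q1) (C3 := pd3)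
    rfl k0_pp_213_s

noncomputable def cut_pm_001_s : Cut := Cut.of [[⟨4, 0, 0, 1449551462⟩]]

noncomputable def f_pm_001_s : ℕ → ℕ → ℕ → ℕ → Bool := onCell 0 536870912 536870912 536870912 1020054732 13421774
    (rowNE 3 eng mog cd0q0 cd5q0 pd1 1 true true false .up 0 0 1 (qsf 0 536870912 0 536870912 1) ndB0q0 ndB5q0 pcB1 cut_pm_001_s Ext.none)

def k0_pm_001_s : ∃ t, chk3 f_pm_001_s t 2 1 1 = true :=
  ⟨(b (l 3) (b (b (l 3) (l 2)) (l 2))), by decide +kernel⟩

def k1_pm_001_s : ∃ t, chk3 f_pm_001_s t 3 2 1 = true :=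
  ⟨(b (l 3) (a (l 3) (b (a (l 3) (b (a (l 3) (b (l 3) (a (l 3) (l 347523098199)))) (a (b (l 3) (a (l 3) (l 341080646167))) (b (c (l 316921454215) (l 313163347767)) (c (l 255718173447) (l 254107523383)))))) (b (a (a (l 3) (b (l 3) (b (l 364702917223) (l 340543754279)))) (c (a (b (l 315310842455) (l 16729272)) (b (l 16736144) (l 16711616))) (a (b (l 310478994279) (l 16723720)) (b (l 16723456) (l 16693096))))) (a (c (a (b (l 607368664167) (l 343764950567)) (b (l 274508663703) (l 16740344))) (a (b (l 614884851031) (l 338396227287)) (b (l 272898027767) (l 16732960)))) (a (b (b (l 16685960) (l 16693240)) (c (l 16698704) (l 16678848))) (b (l 16569832) (l 16582112)))))))), by decide +kernel⟩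

def k2_pm_001_s : ∃ t, chk3 f_pm_001_s t 3 3 1 = true :=
  ⟨(b (a (b (a (b (l 3) (a (l 3) (b (l 3) (a (l 3) (b (l 3) (l 351281182615)))))) (b (a (l 3) (b (a (l 3) (l 358797339687)) (a (b (l 366850444471) (l 16733696)) (b (l 16767632) (l 16752048))))) (a (b (a (b (l 3) (l 365776677959)) (b (l 352354942647) (l 16747408))) (a (b (l 338933189431) (l 16759720)) (b (l 16751568) (l 16733560)))) (a (b (a (l 16737216) (l 16745664)) (l 16716680)) (b (l 16726952) (l 16690168)))))) (a (b (a (l 2) (b (a (l 2) (b (l 16725680) (l 2))) (l 2))) (l 2)) (b (a (b (b (a (l 16741496) (l 16714680)) (l 184247142503)) (a (l 16671376) (l 16664016))) (b (a (l 16677696) (l 16649944)) (a (l 16635368) (l 16606424)))) (a (b (l 176193948215) (l 2)) (b (l 16575680) (l 16463976)))))) (b (a (b (a (b (a (b (l 16752720) (l 16759440)) (l 16743864)) (b (l 16690400) (l 16694632))) (b (c (l 16713672) (l 16697952)) (a (l 16686664) (l 16661536)))) (a (b (a (l 16701424) (l 16675600)) (l 16579728)) (b (l 16615952)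 (l 16595680)))) (b (a (c (l 16571464) (l 16560112)) (b (l 16589896) (l 16571272))) (a (b (l 16583376) (l 16539600)) (b (l 16528296) (l 16482056))))) (a (b (a (b (l 16608432) (l 16563152)) (b (l 16551136) (l 16503504))) (a (b (l 16514904) (l 16422088)) (l 16427784))) (b (a (b (l 16492632) (l 16442704)) (l 16407808)) (a (l 16363832) (l 16298768)))))) (b (a (a (l 2) (b (a (l 2) (b (l 16433752) (l 2))) (l 2))) (a (b (a (l 16238008) (l 16255336)) (a (l 16231728) (l 16204560))) (b (a (l 16208952) (l 16182712)) (a (l 16094160) (l 16020440))))) (a (l 2) (a (b (a (l 2) (l 15910160)) (l 2)) (b (a (l 15947952) (l 16035272)) (a (l 16035904) (l 16033384))))))), by decide +kernel⟩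

theorem s3_pm_001_s : ∃ t, chk3 f_pm_001_s t 3 1 1 = true := ex3_b k1_pm_001_s k2_pm_001_s

theorem s4_pm_001_s : ∃ t, chk3 f_pm_001_s t 1 1 1 = true := ex3_a k0_pm_001_s s3_pm_001_s

theorem c_pm_001_s : CertNE 0 536870912 0 536870912 1020054732 13421774 3 eng mog cd0q0 cd5q0 pd1 true true false .up 0 0 1
    ndB0q0 ndB5q0 pcB1 cut_pm_001_s Ext.none :=
  certNE1 (fam := true) (s1 := true) (s2 := false) (a := 0) (b := 0) (c := 1) (cn := .up) (n1 := ndB0q0) (n2 := ndB5q0) (pc := pcB1) (cut := cut_pm_001_s) (xt := Ext.none) (P1 := 0) (W1 := 536870912) (P2 := 0) (W2 := 536870912) (P3 := 1020054732) (W3 := 13421774) (N0 := 3) (En := eng) (mo := mog) (C1 := cd0q0) (C2 := cd5q0) (C3 := pd1)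
    rfl (fun _ => rfl) s4_pm_001_s

noncomputable def cut_pm_011_s : Cut := Cut.of [[⟨4, 0, 0, 1449551462⟩], [⟨0, 0, 0, 26843545⟩, ⟨1, 1, 0, 26843545⟩, ⟨2, 1, 0, 26843545⟩]]

noncomputable def f_pm_011_s : ℕ → ℕ → ℕ → ℕ → Bool := onCell 0 536870912 536870912 536870912 1020054732 13421774
    (rowNE 3 eng mog cd0q0 cd5q1 pd1 1 true true false .pnn 0 1 1 (qsf 0 536870912 536870912 536870912 1) ndB0q0 ndB5q1 pcB1 cut_pm_011_s Ext.none)

def k0_pm_011_s : ∃ t, chk3 f_pm_011_s t 1 2 1 = true :=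
  ⟨(a (l 3) (b (l 1) (a (l 3) (l 1)))), by decide +kernel⟩

def k1_pm_011_s : ∃ t, chk3 f_pm_011_s t 2 6 1 = true :=
  ⟨(a (l 3) (b (l 3) (a (l 3) (b (l 3) (a (b (l 3) (a (l 3) (b (l 3) (a (l 3) (b (l 3) (l 344301900519)))))) (b (a (l 3) (b (l 676088131255) (b (l 347523081911) (l 339470068887)))) (a (b (b (l 673403808775) (l 344301858503)) (c (l 287393595943) (l 262160659127))) (b (a (l 16724736) (l 16752768)) (l 16738568))))))))), by decide +kernel⟩

def k2_pm_011_s : ∃ t, chk3 f_pm_011_s t 4 14 1 = true :=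
  ⟨(a (l 3) (b (l 3) (a (l 3) (b (l 3) (a (l 3) (b (l 3) (a (b (l 3) (a (l 3) (b (l 3) (a (b (l 3) (l 781314919671)) (b (l 731385930439) (l 16760808)))))) (b (a (l 3) (b (a (l 3) (l 778093679367)) (b (a (l 3) (l 16755280)) (l 248738955335)))) (a (b (a (b (l 3) (l 714742937719)) (c (l 338396391607) (l 338933261879))) (c (l 16762368) (l 16751912))) (b (l 229948494023) (l 16744952))))))))))), by decide +kernel⟩

def k3_pm_011_s : ∃ t, chk3 f_pm_011_s t 8 30 1 = true :=
  ⟨(a (l 3) (b (l 3) (a (l 3) (b (l 3) (a (l 3) (b (l 3) (a (l 3) (b (l 3) (a (b (l 3) (a (l 3) (b (l 3) (c (l 727090982503) (l 728701594535))))) (a (b (l 3) (b (a (l 787220520375) (b (l 359871261783) (l 16776632))) (l 16775920))) (b (b (l 895131581111) (b (l 795810461399) (l 232632856583))) (b (l 16775776) (l 16774280))))))))))))), by decide +kernel⟩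

def k4_pm_011_s : ∃ t, chk3 f_pm_011_s t 16 62 1 = true :=
  ⟨(a (l 3) (b (l 3) (b (l 3) (a (l 3) (b (l 3) (a (l 3) (a (l 3) (a (l 3) (b (l 3) (b (l 3) (b (b (l 1074983335415) (l 920364513831)) (a (a (l 3) (b (l 3) (l 16777496))) (c (l 16776840) (l 16776872)))))))))))))), by decide +kernel⟩

def k5_pm_011_s : ∃ t, chk3 f_pm_011_s t 32 63 1 = true :=
  ⟨(b (b (l 3) (b (l 3) (b (l 3) (l 14)))) (l 14)), by decide +kernel⟩

def k6_pm_011_s : ∃ t, chk3 f_pm_011_s t 66 252 1 = true :=
  ⟨(b (l 3) (a (l 3) (b (l 3) (a (l 3) (a (l 3) (a (l 3) (b (l 3) (b (l 3) (b (a (l 3) (a (l 522006299223) (l 169282109303))) (a (a (l 548849844823) (l 224579813831)) (l 16776968))))))))))), by decide +kernel⟩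

def k7_pm_011_s : ∃ t, chk3 f_pm_011_s t 67 504 1 = true :=
  ⟨(a (b (l 3) (a (l 3) (b (l 3) (a (l 3) (b (a (l 3) (c (c (l 787220529671) (l 786146787863)) (l 851645038839))) (b (a (l 3) (a (l 525764395735) (l 16777112))) (a (l 794736721015) (l 256255196055)))))))) (b (a (a (l 3) (b (l 3) (b (a (l 3) (a (l 3) (b (l 3) (l 326048416423)))) (b (a (l 3) (a (l 369534960247) (l 16776984))) (a (c (l 673940767031) (l 933249416231)) (l 16776808)))))) (b (b (a (a (l 3) (a (l 3) (b (l 3) (l 237464715911)))) (b (b (l 406579049399) (l 16775288)) (l 16776320))) (a (b (a (l 3) (c (l 16777104) (l 16777120))) (a (a (l 3) (l 264308261575)) (l 16776744))) (l 16775768))) (a (b (b (a (c (l 107005082919) (l 16777152)) (l 16776376)) (l 16776392)) (l 16775832)) (c (l 16769320) (l 16764280))))) (a (b (b (b (a (l 3) (a (a (l 406579053207) (l 16777016)) (l 16776440))) (a (a (l 3) (c (l 704542409031) (l 956871736663))) (l 316921606103))) (a (b (a (l 3) (a (l 449528726183) (l 16777048))) (a (c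 (l 729775341927) (l 949355544295)) (l 16776872))) (l 16773936))) (b (a (a (b (a (l 484962206407) (l 16777080)) (l 16776552)) (l 16776320)) (l 16775168)) (c (l 16775120) (l 16775280)))) (b (a (c (l 16769392) (l 16769592)) (l 16767960)) (c (l 16767080) (l 16762224)))))), by decide +kernel⟩

def k8_pm_011_s : ∃ t, chk3 f_pm_011_s t 67 505 1 = true :=
  ⟨(a (b (a (a (l 3) (a (l 3) (b (l 3) (b (l 3) (b (a (l 3) (a (l 346986381815) (l 16777136))) (c (a (l 201494364615) (l 16776848)) (l 16777408))))))) (a (a (b (b (l 3) (c (l 854866264663) (l 854866264695))) (b (b (a (l 850034426167) (a (l 296520516071) (l 16777104))) (c (a (l 16777208) (l 16776816)) (l 16777032))) (l 16776472))) (b (b (c (l 837149524535) (l 837686395479)) (b (a (l 586430808919) (a (l 16777240) (l 16777072))) (c (l 16776984) (l 16777000)))) (c (l 16776024) (l 16776120)))) (b (a (b (b (a (l 559587263223) (l 16777144)) (c (l 16776952) (l 16776976))) (l 16776408)) (c (l 16775960) (l 16776064))) (b (l 16775288)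 (l 16769312))))) (b (a (a (a (l 3) (b (l 3) (b (a (l 3) (a (l 437180695079) (l 16777184))) (a (c (l 275582550503) (l 268603228647)) (l 16776912))))) (a (b (b (a (l 3) (a (l 388862312983) (l 16777160))) (a (a (l 416779600407) (l 16777176)) (l 16776888))) (l 265381999015)) (c (l 16776080) (l 16776176)))) (a (b (l 16772728) (l 16769376)) (l 16770848))) (a (b (a (a (b (a (l 3) (c (l 290078063831) (l 283098743287))) (a (a (l 503215817287) (l 144586048007)) (l 16776944))) (c (l 16776528) (l 16776576))) (l 16773440)) (a (c (l 16776152) (l 16776240)) (a (l 16769808) (l 16763808)))) (c (l 16767344) (l 16767720))))) (b (c (a (a (b (l 16769528) (l 16762760)) (l 16767184)) (l 16764832)) (a (b (l 16774232) (l 16762352)) (l 16760160))) (a (c (l 16764968) (l 16765544)) (c (l 16756632) (l 16746984))))), by decide +kernel⟩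

def k9_pm_011_s : ∃ t, chk3 f_pm_011_s t 132 506 1 = true :=
  ⟨(b (l 3) (a (l 3) (a (l 3) (a (l 3) (b (l 3) (b (l 3) (a (b (l 3) (c (l 785073045767) (l 782388691223))) (b (c (l 773798756599) (l 771651272967)) (b (a (l 494089011559) (l 16777152)) (l 16777064)))))))))), by decide +kernel⟩

def k10_pm_011_s : ∃ t, chk3 f_pm_011_s t 133 1012 1 = true :=
  ⟨(b (a (l 3) (b (a (l 3) (b (a (a (l 3) (b (l 581598970423) (l 247665263015))) (l 16775480)) (a (a (b (l 599315710535) (l 264845132215)) (l 16776992)) (l 16776424)))) (a (a (l 3) (b (a (l 3) (b (l 617032450647) (l 290614935991))) (a (b (l 643339125335) (l 307794805191)) (l 16777016)))) (c (a (l 16776608) (l 16770568)) (l 306184187447))))) (b (a (l 3) (a (b (b (a (l 3) (l 16776928)) (a (c (l 668035186935) (l 672867025143)) (l 16776744))) (a (a (b (l 3) (l 351281349079)) (l 260550163767)) (l 16776472))) (c (l 16770200) (l 16770344)))) (a (a (l 3) (a (l 3) (b (b (l 3) (c (l 694878732551) (l 693268119831))) (a (a (l 3)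 (a (l 502142075447) (l 312626643431))) (b (l 16777160) (l 16776976)))))) (a (a (a (b (l 254107712887) (l 16776688)) (l 16776488)) (l 16775920)) (l 16772160))))), by decide +kernel⟩

def k11_pm_011_s : ∃ t, chk3 f_pm_011_s t 133 1013 1 = true :=
  ⟨(a (b (a (b (l 3) (a (l 3) (b (b (l 3) (c (l 746418340135) (l 745344598327))) (c (a (l 724943503591) (c (l 16777104) (l 16777112))) (a (c (l 533280588375) (l 525227524711)) (l 16777120)))))) (b (b (b (a (l 3) (l 414632114487)) (a (c (l 720648536343) (l 719574794535)) (l 16776792))) (a (a (a (l 3) (b (l 3) (l 16777248))) (b (l 105931342167) (l 16777000))) (l 16776520))) (a (b (b (l 429664500119) (l 16776816)) (l 16776544)) (l 16774656)))) (a (b (b (b (a (l 3) (c (a (l 16777216) (l 16771576)) (l 16777032))) (a (c (l 771114402103) (l 789904884039)) (l 16776840))) (a (a (c (l 755008274679) (l 752860791047)) (a (b (l 437717565783) (l 16777136)) (l 16777040))) (l 16776568))) (a (b (b (a (a (l 472077304151) (l 16777144)) (l 16776856))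 (l 16776864)) (l 16776584)) (l 16774704))) (c (b (l 16772920) (l 16769536)) (l 16775328)))) (b (a (c (b (l 16772872) (l 16769488)) (l 16775288)) (c (l 16768296) (l 16763360))) (a (c (l 16768344) (l 16768648)) (l 16767000)))), by decide +kernel⟩

def k12_pm_011_s : ∃ t, chk3 f_pm_011_s t 132 1014 1 = true :=
  ⟨(a (a (l 3) (a (l 3) (a (l 3) (b (l 3) (b (l 3) (b (l 3) (b (a (l 3) (l 213305524503)) (a (l 228337910039) (l 16777056))))))))) (b (b (a (l 3) (a (a (b (l 3) (c (l 831243944215) (l 831243944231))) (b (c (l 803326656775) (l 821043396887)) (b (a (l 548849844599) (l 16777176)) (l 16777088)))) (b (b (a (a (l 527911879015) (l 16777168)) (l 16776880)) (l 355576313975)) (l 16776608)))) (a (a (l 3) (b (c (a (l 3) (l 849497555223)) (l 858624360903)) (b (a (l 3) (a (l 620253675911) (l 16777200))) (a (l 846813200615) (l 16777104))))) (a (b (b (a (a (l 581598970231) (l 16777184)) (l 16776904)) (l 368998086871)) (l 16776632)) (c (l 16773384) (l 16770864))))) (b (a (a (a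 (l 3) (a (b (l 3) (b (l 3) (l 16777216))) (b (l 855940006119) (c (l 16777120) (l 16777128))))) (b (b (a (a (l 652465930631) (l 16777208)) (l 16776920)) (c (l 16776912) (l 16776944))) (l 16776648))) (c (a (l 16773408) (l 16770000)) (l 16775768))) (a (a (b (b (a (a (l 3) (l 16777304)) (l 16776944)) (b (l 409263405607) (l 16776904))) (l 16775688)) (a (l 16775304) (l 16775912))) (c (l 16769624) (l 16769824)))))), by decide +kernel⟩

def k13_pm_011_s : ∃ t, chk3 f_pm_011_s t 132 1015 1 = true :=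
  ⟨(a (b (b (a (l 3) (a (a (l 3) (b (l 3) (b (a (l 3) (l 272898195735)) (a (l 275045679399) (l 16777072))))) (b (a (b (a (l 3) (l 243370295575)) (a (l 258402681111) (l 16777064))) (l 16776872)) (c (l 16776664) (l 16776712))))) (a (b (l 3) (b (b (a (l 3) (c (l 838760137015) (l 839297007943))) (l 14)) (l 14))) (b (a (a (b (a (l 3) (l 289541194023)) (a (a (l 474224787783) (l 16777216)) (l 16777080))) (l 16776888)) (l 16776320)) (a (c (l 16776688) (l 16776736)) (l 16773336))))) (a (l 14) (c (a (c (l 16774384) (l 16773136)) (l 16772320)) (b (l 16775848) (l 16769904))))) (b (a (c (a (c (l 16773032) (l 16773096)) (l 16772280)) (b (l 16775808) (l 16769864))) (c (l 16771104) (l 16768784))) (a (c (l 16771144) (l 16768824)) (l 16769808)))), by decide +kernel⟩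

def k14_pm_011_s : ∃ t, chk3 f_pm_011_s t 133 507 1 = true :=
  ⟨(b (b (a (a (c (c (l 16772544) (l 16772624)) (a (l 16775736) (l 16769776))) (c (l 16768392) (l 16768696))) (c (l 16766056) (l 16761320))) (a (a (c (l 16768440) (l 16768744)) (l 16769720)) (l 16766192))) (a (a (c (l 16768800) (l 16766688)) (b (l 16765672) (l 16759008))) (c (l 16757096) (l 16757960)))), by decide +kernel⟩

def k15_pm_011_s : ∃ t, chk3 f_pm_011_s t 67 253 1 = true :=
  ⟨(b (c (a (b (b (a (a (b (l 16770144) (l 16769384)) (l 16768184)) (l 16760592)) (a (l 16770080) (l 16759104))) (a (b (l 16765952) (l 16759216)) (l 16756888))) (b (a (l 16756760) (l 16764208)) (l 16752344))) (b (a (a (b (a (l 16775184) (l 16763256)) (l 16767832)) (l 16765664)) (l 16761456)) (a (a (l 16767088) (l 16757736)) (l 16753608)))) (a (a (b (a (l 16764704) (l 16761936)) (l 16759888)) (b (l 16759776) (l 16741320))) (b (c (l 16739016) (l 16740576)) (l 16747632)))), by decide +kernel⟩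

def k16_pm_011_s : ∃ t, chk3 f_pm_011_s t 33 127 1 = true :=
  ⟨(b (a (b (b (a (a (b (a (l 14) (c (l 16771184) (l 16768864))) (l 14)) (b (c (l 16766240) (l 16766752)) (c (l 16759496) (l 16760152)))) (a (b (l 16763568) (l 16756920)) (l 16759992))) (a (a (l 14) (c (l 16762520) (l 16758152))) (a (l 16760088) (l 16752024)))) (a (a (l 14) (b (c (l 16754344) (l 16745040)) (l 14))) (b (a (l 16752120) (l 16738864)) (c (l 16736616) (l 16738584))))) (b (b (a (c (l 16739240) (l 16740840)) (l 16734544)) (a (l 16750496) (l 16732000))) (a (b (l 16734792) (l 16732240)) (l 16738752)))) (a (a (l 14) (b (b (l 16734992) (l 16732440)) (b (l 16729928) (l 14)))) (b (a (l 16738992) (l 16723464)) (a (l 16723696) (l 16718856))))), by decide +kernel⟩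

def k17_pm_011_s : ∃ t, chk3 f_pm_011_s t 34 124 1 = true :=
  ⟨(a (l 3) (b (l 3) (a (l 3) (b (l 3) (a (l 3) (b (l 3) (b (a (l 3) (b (l 891373484343) (a (l 879562318599) (l 438254433543)))) (a (c (a (l 936470630823) (l 754471400951)) (l 800642297703)) (c (b (l 16776584) (l 16775816)) (l 16776264)))))))))), by decide +kernel⟩

def k18_pm_011_s : ∃ t, chk3 f_pm_011_s t 34 250 1 = true :=
  ⟨(a (a (l 3) (b (l 3) (a (l 3) (b (l 3) (b (a (l 3) (c (l 954724242983) (l 931101916439))) (b (a (l 3) (a (l 914995800311) (c (l 16776960) (l 16776984)))) (a (l 975125343479) (b (l 425906401863) (l 16776440))))))))) (a (b (a (l 3) (b (l 3) (b (a (l 3) (c (l 868288032407) (l 853792519223))) (a (c (l 889225997447) (l 872583000023)) (b (a (a (l 447381243191) (l 125258690455)) (l 16776608)) (l 16776256)))))) (b (a (b (a (l 3) (c (l 910163962647) (l 891373480951))) (a (c (l 932175669879) (l 911237703847)) (a (b (l 844665712311) (l 16776840)) (c (l 16776400) (l 16776448))))) (b (a (b (a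 (b (l 516100719879) (l 752323918503)) (l 16776704)) (l 318532217655)) (l 16772512)) (a (l 16772608) (l 16773632)))) (a (b (b (a (a (l 880636062599) (l 420000822391)) (l 16775696)) (a (a (l 438791304407) (l 16776144)) (l 16774952))) (c (l 16774544) (l 16774720))) (a (c (l 16767600) (l 16762640)) (c (l 16760704) (l 16750616)))))) (b (b (a (b (a (l 3) (c (a (l 978883432071) (l 778630590887)) (l 817822165463))) (a (c (a (l 3) (l 803863522759)) (l 836075780359)) (b (b (l 478519751607) (l 16776624)) (l 16776064)))) (a (b (b (b (l 445233754871) (l 16776520)) (l 16775960)) (l 16774832)) (b (l 16774728) (l 16762728)))) (a (a (b (a (b (a (l 365239992951) (l 16777104)) (l 16776560)) (l 16776136)) (l 16775032)) (b (l 16774936) (l 16773432))) (b (l 16768912) (l 16765760)))) (b (b (a (c (l 16762096) (l 16762392)) (l 16759016)) (a (l 16765984) (l 16747024))) (a (c (l 16758224) (l 16748288)) (l 16755256)))))), by decide +kernel⟩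

def k19_pm_011_s : ∃ t, chk3 f_pm_011_s t 34 502 1 = true :=
  ⟨(a (a (b (l 3) (a (l 3) (b (l 3) (a (l 3) (b (c (l 839297005415) (l 829633325943)) (b (a (c (l 418390213559) (l 434496340855)) (l 16776752)) (b (l 432348853319) (l 16776680)))))))) (b (a (b (c (l 1021296242727) (l 998210796631)) (b (a (l 3) (c (l 788831139751) (l 784536170599))) (a (l 1031496784039) (a (a (a (l 416242729959) (l 209010557831)) (l 16776992)) (l 16776408))))) (b (a (c (b (l 761987593175) (a (c (l 16777088) (l 16777096)) (l 16776288))) (b (l 763061334999) (l 244980906327))) (c (l 16775456) (l 16775576))) (c (l 16774736) (l 16774904)))) (a (b (a (b (c (l 813527201559) (l 806547877271)) (b (a (a (l 3) (l 16777024)) (l 16776672)) (l 388325437831))) (c (l 16775624) (l 16775736))) (c (a (l 16775712) (l 16763608)) (l 16775064))) (b (c (l 16767968) (l 16763008)) (l 16767968))))) (a (b (a (a (b (l 16773936) (l 16761984)) (c (l 16760944) (l 16761336))) (c (l 16758472) (l 16748544))) (a (c (l 16758752)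 (l 16759320)) (l 16755880))) (a (b (l 16755544) (l 16742184)) (b (l 16741816) (l 16738936))))), by decide +kernel⟩

def k20_pm_011_s : ∃ t, chk3 f_pm_011_s t 34 503 1 = true :=
  ⟨(a (a (b (a (b (l 3) (a (l 3) (b (c (l 868288035639) (l 876877965751)) (a (a (l 989620860631) (b (l 517174461127) (l 16777112))) (l 355576312615))))) (b (b (a (c (l 865603680439) (l 852718774823)) (l 16773592)) (a (a (a (l 939154994759) (b (l 379198636807) (l 16777040))) (l 16776640)) (l 16775472))) (a (c (l 16775872) (l 16775968)) (l 16771744)))) (b (a (b (b (a (l 1040623595879) (l 344838893639)) (a (b (l 946134316599) (l 873119873351)) (l 16776176))) (a (a (c (l 635822930727) (l 855403132343)) (l 385104212919)) (l 16775624))) (a (l 16771824) (l 16767664))) (b (a (a (a (c (l 16776808) (l 16776840)) (l 16776048)) (l 16774888)) (l 16767344)) (a (a (l 16775696) (l 16763672)) (l 16761376))))) (b (a (b (a (l 16774288) (l 16762256)) (l 16768456)) (c (l 16758968) (l 16759544))) (a (c (l 16759136)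 (l 16759704)) (l 16761664)))) (b (a (a (l 16756208) (l 16742592)) (l 16748256)) (a (a (l 16742944) (l 16739856)) (l 16735088)))), by decide +kernel⟩

def k21_pm_011_s : ∃ t, chk3 f_pm_011_s t 35 248 1 = true :=
  ⟨(a (a (l 3) (b (l 3) (a (a (l 3) (b (l 3) (b (l 3) (b (l 3) (l 884394150215))))) (b (a (l 3) (b (l 3) (c (l 857013733079) (l 843591957511)))) (a (b (c (l 877414826231) (l 861845566599)) (b (a (a (l 3) (l 387788571879)) (l 16776912)) (l 241222796263))) (b (a (b (l 865603680743) (l 16776856)) (l 246054638759)) (l 16775312))))))) (b (a (b (a (l 3) (a (l 3) (b (l 3) (c (l 763598206215) (l 761450716023))))) (a (b (l 3) (a (l 3) (c (l 816211552199) (l 807084739463)))) (c (b (a (l 795273588311) (l 347523246119)) (a (l 240149049223) (l 16764256))) (a (b (l 788294259575) (l 16776464)) (l 247128372567))))) (a (b (b (a (c (l 745344591719) (l 745344590727)) (l 248202121847)) (b (l 247665247527) (l 16775000))) (c (l 16772984) (l 16773200))) (b (b (l 16773592) (l 16761608))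 (c (l 16748664) (l 16749048))))) (b (a (a (b (a (c (l 836612639991) (l 824801477559)) (a (b (l 373293051623) (l 16776608)) (l 16776168))) (a (b (b (l 695952471495) (l 428590756327)) (l 16776328)) (l 16775064))) (c (l 16773072) (l 16773440))) (c (l 16761592) (l 16758120))) (c (a (a (l 16773176) (l 16759584)) (l 16754448)) (a (a (l 16773704) (l 16749456)) (l 16744576)))))), by decide +kernel⟩

def k22_pm_011_s : ∃ t, chk3 f_pm_011_s t 35 249 1 = true :=
  ⟨(a (a (a (b (l 3) (a (b (b (l 3) (c (c (l 771651268039) (l 769503783703)) (l 766819430727))) (b (c (l 16776088) (l 16776160)) (l 16774616))) (b (c (b (c (l 752323916359) (l 751250174039)) (l 16775976)) (b (l 750176432791) (l 16776056))) (b (l 16774504) (l 16762504))))) (b (b (l 3) (b (a (l 3) (a (c (l 803863521255) (l 796347327047)) (b (l 705079277367) (l 16776520)))) (a (a (c (l 829096452791) (l 819432774535)) (b (a (l 425906406711) (l 16777168)) (l 16776632))) (l 255181447767)))) (b (b (c (l 16775032) (l 16775160))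 (a (l 16774392) (l 16762272))) (c (l 16765880) (l 16760992))))) (a (b (b (b (b (a (l 3) (a (l 882783542439) (l 461876753815))) (a (l 922511983351) (b (l 428590756471) (l 16776504)))) (a (b (a (l 932175664727) (c (l 16777136) (l 16777144))) (b (l 466708591447) (l 16776616))) (l 16772936))) (c (b (l 16774792) (l 16762744)) (l 16773864))) (b (c (l 16760384) (l 16760744)) (l 16762736))) (c (b (b (b (l 16774544) (l 16762496)) (l 16760128)) (l 16757984)) (b (b (l 16773952) (l 16760488)) (l 16755984))))) (b (a (b (a (c (l 16759864) (l 16760224)) (l 16761880)) (c (l 16754896) (l 16755512))) (c (l 16749536) (l 16750400))) (a (c (b (l 16741176) (l 16737936)) (l 16750920)) (c (l 16732384) (l 16733584))))), by decide +kernel⟩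

def k23_pm_011_s : ∃ t, chk3 f_pm_011_s t 35 125 1 = true :=
  ⟨(a (b (b (b (a (a (b (l 16768360) (l 16760288)) (c (l 16747008) (l 16747552))) (c (l 16741832) (l 16742656))) (a (c (a (l 16757744) (l 16764832)) (l 16756696)) (l 16752264))) (a (a (b (l 16754992) (l 16741488)) (b (l 16741176) (l 16738152))) (c (l 16733880) (l 16735208)))) (b (a (c (l 16734704) (l 16736112)) (b (l 16730016) (l 16727096))) (a (c (l 16728840) (l 16730760)) (l 16722880)))) (b (a (b (c (l 16733056) (l 16734304)) (b (l 16728968) (l 16725856))) (b (l 16726496) (l 16720064))) (b (a (l 16721304) (l 16713832)) (c (l 16710408) (l 16713192))))), by decide +kernel⟩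

def k24_pm_011_s : ∃ t, chk3 f_pm_011_s t 17 63 1 = true :=
  ⟨(a (b (a (b (a (b (b (a (b (a (c (l 16769248) (l 16764208)) (l 16767816)) (c (l 16761696) (l 16762080))) (c (l 16759296) (l 16759872))) (a (c (l 16764688) (l 16760024)) (l 16761992))) (b (c (l 16760200) (l 16755920)) (a (l 16754128) (l 16740768)))) (b (a (b (l 16761832) (l 16753808)) (b (l 16753640) (l 16740432))) (c (l 16747536) (l 16749184)))) (b (a (c (l 16747824) (l 16749504)) (c (l 16731552) (l 16733816))) (a (a (l 16744816) (l 16731632)) (l 16738176)))) (b (b (a (c (l 16747072) (l 16738192)) (c (l 16730104) (l 16732176))) (a (c (l 16731096) (l 16733296)) (l 16726112))) (b (a (l 16727200) (l 16721344)) (a (l 16722416) (l 16716760))))) (b (a (b (a (l 16738472) (l 16722904)) (a (l 16723192) (l 16739280))) (b (l 16717800) (l 16710888))) (a (b (b (l 16717432) (l 16715232)) (l 16712024)) (b (l 16706792) (l 16702880))))) (b (a (b (a (b (l 16724512) (l 16719584)) (b (l 16717560) (l 16712568))) (b (a (l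 16714888) (l 16707888)) (l 16707088))) (b (c (a (l 16705824) (l 16718896)) (l 16705600)) (b (l 16696488) (l 16692056)))) (b (a (b (l 16702952) (l 16699016)) (b (l 16687944) (l 16684272))) (a (l 16683104) (l 16679016))))), by decide +kernel⟩

def k25_pm_011_s : ∃ t, chk3 f_pm_011_s t 18 60 1 = true :=
  ⟨(a (l 3) (b (l 3) (a (l 3) (b (l 3) (a (b (l 3) (a (l 3) (b (a (l 3) (l 788831117175)) (b (l 716353561063) (l 233706592183))))) (a (b (b (l 3) (a (l 3) (l 765208802263))) (b (a (b (l 367387435367) (l 16776768)) (l 16765352)) (l 16773704))) (b (b (b (l 3) (l 745344582439)) (c (l 233706582791) (l 16760512))) (b (l 16773296) (l 16749320))))))))), by decide +kernel⟩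

def k26_pm_011_s : ∃ t, chk3 f_pm_011_s t 36 122 1 = true :=
  ⟨(a (l 3) (b (l 3) (a (b (l 3) (a (l 3) (b (l 3) (a (l 3) (b (l 3) (l 804937252631)))))) (b (a (l 3) (a (l 3) (b (l 3) (c (l 765208805431) (l 762524449367))))) (b (a (a (l 3) (b (l 3) (l 770040648055))) (b (c (a (l 363629338679) (l 16776240)) (l 351818176743)) (l 16767728))) (a (b (a (l 787757385799) (l 16766104)) (a (l 232095983271) (l 16775104))) (l 16773344))))))), by decide +kernel⟩

def k27_pm_011_s : ∃ t, chk3 f_pm_011_s t 36 123 1 = true :=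
  ⟨(b (a (a (l 3) (b (l 3) (b (a (l 3) (b (c (l 767893171031) (l 765208804215)) (a (l 743733980519) (l 16776088)))) (a (b (a (l 3) (l 760376979223)) (a (l 778093717143) (l 239612181543))) (b (l 246591505383) (l 16773912)))))) (c (a (b (b (a (l 873656726231) (a (l 727090981351) (l 237464688887))) (a (a (l 751787041623) (c (l 233706586247) (l 233169715047))) (l 16773960))) (b (l 16772584) (l 16759024))) (b (b (l 16771912) (l 16747864)) (l 16753728))) (a (b (b (a (l 862919282711) (a (l 728701590599) (l 16765712))) (a (a (l 750713293175) (l 232632843527)) (l 16774088))) (b (l 16772784) (l 16748872))) (b (b (l 16772120) (l 16748200)) (l 16743784))))) (a (b (a (b (a (l 3) (b (a (l 3) (l 795810460311)) (a (c (l 815137801495) (l 807621606807)) (c (l 16766184) (l 16776696))))) (b (a (c (l 872582976183) (l 862382425143)) (c (l 365776854535) (l 239075300103))) (a (a (l 875804219863) (c (l 481204104871) (l 356650036935))) (l 16774528)))) (a (b (c (b (l 16765200) (l 16763672))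 (l 16765848)) (c (l 16761360) (l 16751120))) (b (l 16766416) (l 16758168)))) (a (a (b (b (b (c (l 443623139431) (l 232095972471)) (l 243907147767)) (l 16774816)) (c (l 16761960) (l 16762192))) (b (c (l 16761664) (l 16751416)) (l 16758776))) (c (b (l 16746096) (l 16743008)) (l 16755592)))) (a (b (c (l 16754400) (l 16754952)) (c (l 16737736) (l 16738600))) (b (c (l 16737056) (l 16737904)) (l 16731448))))), by decide +kernel⟩

def k28_pm_011_s : ∃ t, chk3 f_pm_011_s t 37 61 1 = true :=
  ⟨(b (a (b (a (b (l 3) (a (l 3) (b (l 3) (b (l 833391399639) (a (l 841981342631) (l 16763896)))))) (b (a (l 3) (b (l 3) (b (l 760913836663) (a (l 363629340775) (l 16776280))))) (b (a (c (l 726554109895) (l 727627844103)) (l 243907147127)) (c (l 248738979959) (l 16763144))))) (b (a (b (a (a (l 3) (b (l 3) (l 355039413047))) (c (l 238538426951) (l 16759912))) (a (c (c (l 235854066183) (l 235317195335)) (l 234243452599)) (l 16772632))) (b (c (l 16749488) (l 16749712)) (l 16757072))) (a (c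 (a (l 16771376) (l 16746968)) (l 16769944)) (a (l 16754240) (l 16740352))))) (b (b (a (a (b (b (l 738365263415) (l 229948489015)) (l 16769256)) (b (l 16774104) (l 16750128))) (a (c (l 16748104) (l 16748344)) (l 16755280))) (a (b (l 16769800) (l 16756296)) (l 16750952))) (a (b (c (l 16741024) (l 16741536)) (l 16735224)) (b (l 16734400) (l 16728320))))) (b (b (a (a (c (l 16742536) (l 16743072)) (l 16746496)) (c (l 16725112) (l 16726296))) (a (a (l 16747248) (l 16729952)) (l 16719616))) (a (b (a (l 16730720) (l 16723896)) (l 16721272)) (b (l 16713536) (l 16707464))))), by decide +kernel⟩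

def k29_pm_011_s : ∃ t, chk3 f_pm_011_s t 19 30 1 = true :=
  ⟨(b (a (b (a (l 3) (b (a (l 3) (b (l 3) (a (l 3) (b (l 3) (l 714206070087))))) (b (a (a (l 3) (b (l 3) (l 748028926663))) (b (a (l 730849062935) (l 16765144)) (c (l 16763880) (l 16753440)))) (a (b (a (l 795810432327) (l 238001548439)) (c (l 241759637879) (l 241759637463))) (b (l 16771456) (l 16747504)))))) (b (a (a (b (l 3) (a (b (l 3) (c (l 737291515815) (l 736217772743))) (b (b (l 794736699367) (l 352891918439)) (l 241759658231)))) (b (b (a (l 3) (c (l 348060073287) (l 349670685479))) (a (a (l 753397643143) (l 346986347543)) (l 16774552))) (b (l 248738983607) (l 16770288)))) (a (b (c (l 16770832) (l 16770952)) (a (l 16745632) (l 16742168))) (b (l 16753496) (l 16736976)))) (b (b (a (a (c (l 243370264151) (l 16763688)) (l 16746312)) (l 16735904)) (a (a (l 16771160) (l 16743288)) (l 16732864))) (a (a (c (l 16745528) (l 16745816)) (l 16738752)) (l 16733528))))) (b (b (a (a (b (a (l 3) (b (l 3) (l 344301979543)))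 (b (c (l 241222757143) (l 241222756695)) (l 16762960))) (b (c (l 250349573559) (l 250886444375)) (l 16768000))) (b (c (a (l 16745960) (l 16759904)) (l 16742584)) (l 16744424))) (c (a (a (a (l 16767680) (l 16743216)) (l 16737960)) (l 16727376)) (a (b (l 16765616) (l 16738744)) (l 16727816)))) (b (a (b (l 16737832) (l 16726528)) (l 16715512)) (a (b (l 16720424) (l 16714248)) (l 16703240))))) (a (b (a (b (a (c (l 16746776) (l 16736888)) (c (l 16729224) (l 16730008))) (b (l 16723960) (l 16717832))) (b (b (l 16722136) (l 16715976)) (l 16706712))) (b (a (b (l 16711704) (l 16705576)) (l 16694336)) (a (l 16696392) (l 16681992)))) (b (a (b (l 16704952) (l 16692480)) (b (l 16690808) (l 16699216))) (b (a (l 16679968) (l 16686624)) (l 16649840))))), by decide +kernel⟩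

def k30_pm_011_s : ∃ t, chk3 f_pm_011_s t 9 31 1 = true :=
  ⟨(a (b (a (a (b (b (a (c (b (b (l 16757184) (l 16743600)) (l 16738840)) (b (b (l 16747176) (l 16744240)) (l 16739728))) (b (c (l 16738376) (l 16739264)) (l 16743152))) (a (b (c (l 16732216) (l 16733424)) (l 16726264)) (b (l 16726264) (l 16719680)))) (b (b (c (l 16715224) (l 16717328)) (b (l 16711280) (l 16707976))) (b (l 16703176) (l 16696968)))) (b (b (b (a (l 16742640) (l 16725432)) (c (l 16721776) (l 16723528))) (b (l 16716248) (l 16709680))) (b (b (l 16703008) (l 16696304)) (b (l 16689536) (l 16704280))))) (b (b (a (b (l 16715240) (l 16709072)) (b (l 16701400) (l 16716192))) (a (c (l 16697920) (l 16700928)) (l 16685544))) (b (a (l 16686072) (l 16672216)) (c (l 16663552) (l 16668760))))) (b (a (b (a (b (l 16691240) (l 16685888)) (l 16674456)) (a (l 16678536) (l 16663904))) (a (b (l 16681944) (l 16670912)) (l 16620584))) (a (b (a (l 16669968) (l 16654592)) (a (l 16662712) (l 16646848))) (b (a (l 16661248)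 (l 16647424)) (l 16603720))))) (b (a (b (b (a (l 16684144) (l 16669656)) (c (l 16661760) (l 16666448))) (b (b (l 16654112) (l 16647432)) (l 16637688))) (b (b (l 16626816) (l 16634800)) (b (l 16621360) (l 16629208)))) (a (b (b (l 16625656) (l 16614728)) (a (l 16607664) (l 16613920))) (b (l 16569504) (l 16570536))))), by decide +kernel⟩

def k31_pm_011_s : ∃ t, chk3 f_pm_011_s t 10 28 1 = true :=
  ⟨(a (l 3) (b (l 3) (a (b (l 3) (a (l 3) (b (l 3) (b (l 735144007047) (l 311015937703))))) (b (a (b (l 3) (a (l 3) (l 742123318151))) (b (l 723332845543) (l 299204781399))) (a (b (c (l 320142725303) (l 328732657735)) (a (l 16769688) (l 16762584))) (b (l 16763184) (l 16730872))))))), by decide +kernel⟩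

def k32_pm_011_s : ∃ t, chk3 f_pm_011_s t 10 29 1 = true :=
  ⟨(a (b (a (l 3) (b (a (l 3) (b (l 3) (a (l 3) (b (l 3) (l 321753365799))))) (a (b (a (l 3) (b (l 3) (l 751250136631))) (a (b (l 768429993991) (c (l 327658958119) (l 327122086439))) (c (l 281488068023) (l 286319905463)))) (b (a (b (l 735144020871) (l 287930534455)) (b (l 16752784) (l 16768072))) (b (l 16765832) (l 16739048)))))) (b (a (a (b (l 3) (a (b (l 3) (b (l 3) (l 756081980679))) (b (b (l 3) (l 697563062695)) (c (l 255718272023) (l 257865754999))))) (b (a (b (l 3) (b (l 763598169895) (l 675014495623))) (b (a (l 701858023671) (l 265918822935)) (l 16762592))) (c (b (l 275045634567) (l 16743984)) (a (l 272361277671) (l 16743344))))) (a (c (b (l 16765504) (l 16732792)) (b (l 16765392) (l 16732696))) (b (l 16732880) (l 16718440)))) (b (a (a (a (b (b (a (l 759840087975) (l 16776248)) (l 16759336)) (l 16770736)) (b (l 16769616) (l 16742752))) (b (l 16738080) (l 16732160))) (a (l 16720888) (l 16706512)))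 (a (a (a (c (l 16740856) (l 16740944)) (l 16739104)) (c (l 16723136) (l 16723320))) (a (l 16708920) (l 16715440)))))) (a (a (b (b (b (a (l 3) (b (l 748028912439) (l 16745064))) (c (a (l 295446701335) (l 16768368)) (l 308331599367))) (b (b (l 16763192) (l 16736432)) (l 16727680))) (b (c (l 16710104) (l 16709792)) (l 16685928))) (b (b (b (a (l 240685889607) (l 16765472)) (l 16757576)) (b (l 16725000) (l 16713264))) (b (l 16695408) (l 16671232)))) (b (a (b (a (b (l 16737360) (l 16725832)) (l 16745368)) (l 16694136)) (b (l 16703064) (l 16689976))) (b (c (l 16673608) (l 16673072)) (l 16648936))))), by decide +kernel⟩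

def k33_pm_011_s : ∃ t, chk3 f_pm_011_s t 11 14 1 = true :=
  ⟨(b (a (b (a (b (l 3) (a (b (l 3) (l 655150252407)) (c (l 293836043943) (l 290614816455)))) (c (b (b (l 338396291863) (l 16726608)) (l 16752896)) (b (b (l 345912481431) (l 16725936)) (l 16751424)))) (a (a (b (b (l 16744856) (l 16760136)) (l 16743128)) (b (l 16751400) (l 16707632))) (b (b (l 16714408) (l 16703008)) (l 16664640)))) (b (a (b (b (l 16750928) (l 16739992)) (l 16723248)) (b (l 16674624) (l 16672888))) (a (c (l 16648448) (l 16644832)) (b (l 16649528) (l 16646544))))) (a (b (a (b (b (l 16697496) (l 16685704)) (l 16667768)) (b (l 16661920) (l 16658672))) (a (b (l 16643448) (l 16639720)) (l 16558608))) (b (a (b (l 16652704) (l 16628128)) (l 16588632)) (a (l 16569528) (l 16559024))))), by decide +kernel⟩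

def k34_pm_011_s : ∃ t, chk3 f_pm_011_s t 5 15 1 = true :=
  ⟨(b (a (a (b (a (b (a (b (b (l 16728456) (l 16722464)) (l 16713448)) (b (l 16711232) (l 16699160))) (a (c (l 16694496) (l 16695832)) (c (l 16679968) (l 16681608)))) (b (b (c (l 16689288) (l 16689952)) (l 16677440)) (b (l 16665160) (l 16652712)))) (a (b (b (l 16658824) (l 16656712)) (b (l 16644056) (l 16631336))) (b (a (l 16641144) (l 16647360)) (l 16608392)))) (a (b (b (c (l 16653552) (l 16654816)) (l 16629336)) (b (l 16604016) (l 16599480))) (b (b (l 16624240) (l 16620152)) (b (l 16594672) (l 16569064))))) (a (b (b (l 16557392) (l 16532008)) (a (l 16508992) (l 16498600))) (b (a (l 16539512) (l 16507552)) (l 16387832)))) (a (b (a (b (a (c (l 16608728) (l 16615520)) (l 16582744)) (a (l 16564392) (l 16555872))) (b (a (l 16573792) (l 16543344)) (a (l 16547128) (l 16516784)))) (a (a (b (l 16560792) (l 16540488)) (b (l 16552216) (l 16531512))) (a (l 16448408) (l 16460280)))) (b (a (b (l 16475768) (l 16470344))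 (b (l 16433016) (l 16406888))) (a (a (l 16429520) (l 16419280)) (l 16308784))))), by decide +kernel⟩

def k35_pm_011_s : ∃ t, chk3 f_pm_011_s t 3 6 1 = true :=
  ⟨(a (b (a (b (l 3) (a (l 3) (b (l 3) (a (l 3) (b (l 3) (l 351281183127)))))) (b (l 1) (a (b (l 1) (a (c (l 16705792) (l 16703328)) (l 1))) (l 1)))) (a (b (a (b (l 3) (a (b (l 3) (l 650318373415)) (b (l 347523072151) (l 258402578935)))) (b (a (b (l 360944816695) (l 338396309479)) (b (l 16725328) (l 16749104))) (a (b (l 16757008) (l 16737368)) (b (l 16729704) (l 16709472))))) (a (b (a (b (c (l 16709352) (l 16708416)) (l 16752472)) (b (l 16744968) (l 16724224))) (b (a (l 16731472) (l 16681728)) (a (l 16688728) (l 16659448)))) (b (a (b (l 16716880) (l 16674616)) (l 16677560)) (b (l 16616848) (l 16593800))))) (b (a (b (b (a (l 16741160) (l 1)) (l 16687384)) (a (l 16691696) (l 16663400))) (b (l 1) (l 16620376))) (a (b (c (l 16641936) (l 16583616)) (l 16524128)) (b (l 16574320) (l 16483512)))))) (b (l 1) (a (b (l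 1) (a (l 123513249591) (l 1))) (l 1)))), by decide +kernel⟩

def k36_pm_011_s : ∃ t, chk3 f_pm_011_s t 3 7 1 = true :=
  ⟨(b (a (a (b (a (b (b (a (l 16666232) (l 16657424)) (l 16586032)) (a (l 16586120) (l 16576200))) (b (l 16505544) (l 16508184))) (a (b (l 16478696) (l 16490080)) (b (l 16498504) (l 16445744)))) (b (a (b (l 16495736) (l 16486160)) (b (l 16474184) (l 16420992))) (a (l 16322200) (l 16317960)))) (a (b (a (l 16319400) (l 16295000)) (a (l 16270872) (l 16202064))) (b (l 1) (a (l 16133832) (l 1))))) (a (b (a (a (b (l 16437888) (l 16406456)) (b (l 16392640) (l 16339792))) (a (l 16214424) (l 16208744))) (a (b (a (l 16312472) (l 16287992)) (a (l 16285976) (l 16240960))) (b (a (l 16220504) (l 16152232)) (a (l 16174016) (l 16106408))))) (b (a (a (l 16160408) (l 16033200)) (a (l 16008384) (l 16033008))) (a (a (b (l 16085536) (l 16054920)) (l 15935480)) (l 16031872))))), by decide +kernel⟩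

theorem s37_pm_011_s : ∃ t, chk3 f_pm_011_s t 3 3 1 = true := ex3_b k35_pm_011_s k36_pm_011_s

theorem s38_pm_011_s : ∃ t, chk3 f_pm_011_s t 10 14 1 = true := ex3_b k31_pm_011_s k32_pm_011_s

theorem s39_pm_011_s : ∃ t, chk3 f_pm_011_s t 5 14 1 = true := ex3_a s38_pm_011_s k33_pm_011_s

theorem s40_pm_011_s : ∃ t, chk3 f_pm_011_s t 5 7 1 = true := ex3_b s39_pm_011_s k34_pm_011_s

theorem s41_pm_011_s : ∃ t, chk3 f_pm_011_s t 36 61 1 = true := ex3_b k26_pm_011_s k27_pm_011_s

theorem s42_pm_011_s : ∃ t, chk3 f_pm_011_s t 18 61 1 = true := ex3_a s41_pm_011_s k28_pm_011_s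

theorem s43_pm_011_s : ∃ t, chk3 f_pm_011_s t 18 30 1 = true := ex3_b k25_pm_011_s s42_pm_011_s

theorem s44_pm_011_s : ∃ t, chk3 f_pm_011_s t 9 30 1 = true := ex3_a s43_pm_011_s k29_pm_011_s

theorem s45_pm_011_s : ∃ t, chk3 f_pm_011_s t 9 15 1 = true := ex3_b s44_pm_011_s k30_pm_011_s

theorem s46_pm_011_s : ∃ t, chk3 f_pm_011_s t 35 124 1 = true := ex3_b k21_pm_011_s k22_pm_011_s

theorem s47_pm_011_s : ∃ t, chk3 f_pm_011_s t 35 62 1 = true := ex3_b s46_pm_011_s k23_pm_011_s

theorem s48_pm_011_s : ∃ t, chk3 f_pm_011_s t 34 251 1 = true := ex3_b k19_pm_011_s k20_pm_011_s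

theorem s49_pm_011_s : ∃ t, chk3 f_pm_011_s t 34 125 1 = true := ex3_b k18_pm_011_s s48_pm_011_s

theorem s50_pm_011_s : ∃ t, chk3 f_pm_011_s t 34 62 1 = true := ex3_b k17_pm_011_s s49_pm_011_s

theorem s51_pm_011_s : ∃ t, chk3 f_pm_011_s t 17 62 1 = true := ex3_a s50_pm_011_s s47_pm_011_s

theorem s52_pm_011_s : ∃ t, chk3 f_pm_011_s t 17 31 1 = true := ex3_b s51_pm_011_s k24_pm_011_s

theorem s53_pm_011_s : ∃ t, chk3 f_pm_011_s t 132 507 1 = true := ex3_b k12_pm_011_s k13_pm_011_s

theorem s54_pm_011_s : ∃ t, chk3 f_pm_011_s t 66 507 1 = true := ex3_a s53_pm_011_s k14_pm_011_s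

theorem s55_pm_011_s : ∃ t, chk3 f_pm_011_s t 133 506 1 = true := ex3_b k10_pm_011_s k11_pm_011_s

theorem s56_pm_011_s : ∃ t, chk3 f_pm_011_s t 66 506 1 = true := ex3_a k9_pm_011_s s55_pm_011_s

theorem s57_pm_011_s : ∃ t, chk3 f_pm_011_s t 66 253 1 = true := ex3_b s56_pm_011_s s54_pm_011_s

theorem s58_pm_011_s : ∃ t, chk3 f_pm_011_s t 33 253 1 = true := ex3_a s57_pm_011_s k15_pm_011_s

theorem s59_pm_011_s : ∃ t, chk3 f_pm_011_s t 67 252 1 = true := ex3_b k7_pm_011_s k8_pm_011_s

theorem s60_pm_011_s : ∃ t, chk3 f_pm_011_s t 33 252 1 = true := ex3_a k6_pm_011_s s59_pm_011_s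

theorem s61_pm_011_s : ∃ t, chk3 f_pm_011_s t 33 126 1 = true := ex3_b s60_pm_011_s s58_pm_011_s

theorem s62_pm_011_s : ∃ t, chk3 f_pm_011_s t 33 63 1 = true := ex3_b s61_pm_011_s k16_pm_011_s

theorem s63_pm_011_s : ∃ t, chk3 f_pm_011_s t 16 63 1 = true := ex3_a k5_pm_011_s s62_pm_011_s

theorem s64_pm_011_s : ∃ t, chk3 f_pm_011_s t 16 31 1 = true := ex3_b k4_pm_011_s s63_pm_011_s

theorem s65_pm_011_s : ∃ t, chk3 f_pm_011_s t 8 31 1 = true := ex3_a s64_pm_011_s s52_pm_011_s

theorem s66_pm_011_s : ∃ t, chk3 f_pm_011_s t 8 15 1 = true := ex3_b k3_pm_011_s s65_pm_011_s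

theorem s67_pm_011_s : ∃ t, chk3 f_pm_011_s t 4 15 1 = true := ex3_a s66_pm_011_s s45_pm_011_s

theorem s68_pm_011_s : ∃ t, chk3 f_pm_011_s t 4 7 1 = true := ex3_b k2_pm_011_s s67_pm_011_s

theorem s69_pm_011_s : ∃ t, chk3 f_pm_011_s t 2 7 1 = true := ex3_a s68_pm_011_s s40_pm_011_s

theorem s70_pm_011_s : ∃ t, chk3 f_pm_011_s t 2 3 1 = true := ex3_b k1_pm_011_s s69_pm_011_s

theorem s71_pm_011_s : ∃ t, chk3 f_pm_011_s t 1 3 1 = true := ex3_a s70_pm_011_s s37_pm_011_s

theorem s72_pm_011_s : ∃ t, chk3 f_pm_011_s t 1 1 1 = true := ex3_b k0_pm_011_s s71_pm_011_s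

theorem c_pm_011_s : CertNE 0 536870912 536870912 536870912 1020054732 13421774 3 eng mog cd0q0 cd5q1 pd1 true true false .pnn 0 1 1
    ndB0q0 ndB5q1 pcB1 cut_pm_011_s Ext.none :=
  certNE1 (fam := true) (s1 := true) (s2 := false) (a := 0) (b := 1) (c := 1) (cn := .pnn) (n1 := ndB0q0) (n2 := ndB5q1) (pc := pcB1) (cut := cut_pm_011_s) (xt := Ext.none) (P1 := 0) (W1 := 536870912) (P2 := 536870912) (W2 := 536870912) (P3 := 1020054732) (W3 := 13421774) (N0 := 3) (En := eng) (mo := mog) (C1 := cd0q0) (C2 := cd5q1) (C3 := pd1)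
    rfl (fun _ => rfl) s72_pm_011_s

noncomputable def cut_pm_012_s : Cut := Cut.of [[⟨4, 0, 0, 1449551462⟩], [⟨0, 0, 0, 38347922⟩, ⟨1, 1, 0, 38347922⟩, ⟨2, 1, 0, 38347922⟩]]

noncomputable def f_pm_012_s : ℕ → ℕ → ℕ → ℕ → Bool := onCell 1073741824 536870912 536870912 536870912 1020054732 13421774
    (rowNE 3 eng mog cd0q0 cd5q1 pd2 2 true true false .pnp 0 1 2 (qsf 0 536870912 536870912 536870912 2) ndB0q0 ndB5q1 pcB2 cut_pm_012_s Ext.none)

def k0_pm_012_s : ∃ t, chk3 f_pm_012_s t 4 2 1 = true :=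
  ⟨(b (a (b (a (l 16013904) (l 6)) (a (l 16131208) (l 16037360))) (l 6)) (a (a (b (l 16251048) (a (l 16385600) (l 16356104))) (b (l 16171024) (l 16243088))) (b (a (l 16080584) (l 6)) (a (l 16222592) (l 16127016))))), by decide +kernel⟩

def k1_pm_012_s : ∃ t, chk3 f_pm_012_s t 4 6 1 = true :=
  ⟨(a (b (a (b (l 16459416) (a (l 16525968) (l 16461392))) (b (l 16353632) (l 16369048))) (a (b (a (l 16550992) (l 16480800)) (a (b (l 16568024) (l 16578432)) (l 16455136))) (b (l 16380896) (a (l 16423712) (l 16353360))))) (b (a (b (l 16245752) (l 16253928)) (l 16147904)) (b (a (l 16214880) (l 16143136)) (a (l 16211768) (l 16130752))))), by decide +kernel⟩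

def k2_pm_012_s : ∃ t, chk3 f_pm_012_s t 8 14 1 = true :=
  ⟨(a (b (a (b (l 16546072) (a (l 16598616) (l 16575744))) (b (l 16506520) (l 16470336))) (a (a (b (l 16592840) (a (l 16640832) (l 16635704))) (b (l 16587392) (l 16555488))) (b (a (l 16541424) (l 16496672)) (a (l 16547936) (l 16500232))))) (b (a (b (l 16428216) (l 16430184)) (l 16352576)) (a (b (l 16369176) (a (l 16454024) (l 16409080))) (b (l 16349488) (l 16344376))))), by decide +kernel⟩

def k3_pm_012_s : ∃ t, chk3 f_pm_012_s t 8 15 1 = true :=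
  ⟨(a (b (a (b (a (b (a (l 16650320) (l 16643944)) (a (l 16658608) (l 16650368))) (b (l 16603624) (a (l 16622216) (l 16594976)))) (a (a (b (c (l 16669456) (l 16669952)) (a (l 16691504) (l 16675504))) (b (l 16638880) (c (l 16651160) (l 16652168)))) (b (a (l 16630288) (l 16601256)) (a (l 16620192) (l 16610592))))) (b (a (b (l 16551496) (l 16554800)) (l 16501928)) (a (b (a (l 16573264) (l 16546176)) (a (l 16581264) (l 16552440))) (b (l 16506200) (l 16468904))))) (a (b (a (a (l 14) (b (a (l 16673576) (l 16657496)) (l 14))) (b (a (a (l 16662664) (l 16646832)) (a (l 16631056) (l 16615424))) (a (l 14) (a (l 16644920) (l 16629040))))) (l 14)) (b (a (b (a (l 16592072) (l 16561768)) (a (a (l 16613416) (l 16597760)) (l 16574416))) (b (a (l 16532688) (l 16504088)) (a (l 16543552) (l 16513536)))) (a (b (a (l 14) (a (l 16596008) (l 16580312))) (l 14)) (b (a (l 16536152) (l 16526296)) (a (l 14) (b (l 16536672) (l 14)))))))) (b (a (b (a (l 16452544) (l 16404960)) (a (l 16456032)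 (l 16405320))) (b (l 16252456) (a (l 16356328) (l 16309104)))) (a (b (a (b (l 16462808) (a (l 16484704) (l 16456352))) (b (l 16410320) (l 16415400))) (a (b (a (l 16495744) (l 16466016)) (a (l 16509496) (l 16479008))) (b (l 16423312) (a (l 16448768) (l 16419328))))) (b (a (l 16361064) (l 16310968)) (a (b (l 16368752) (l 16377032)) (b (l 16317088) (l 16322968))))))), by decide +kernel⟩

def k4_pm_012_s : ∃ t, chk3 f_pm_012_s t 9 7 1 = true :=
  ⟨(b (b (a (a (l 16279072) (l 16208832)) (l 16109864)) (a (a (b (l 16270576) (l 16261456)) (b (l 16195240) (l 16182472))) (a (b (l 16123608) (l 16106984)) (l 16003160)))) (a (b (a (b (l 16249560) (l 16241008)) (b (l 16166952) (l 16154864))) (a (b (a (l 16262544) (l 16215848)) (a (l 16269032) (l 16219680))) (b (l 16148504) (a (l 16171952) (l 16125912))))) (b (a (b (l 16088184) (l 16072880)) (b (l 16012976) (l 15994736))) (a (b (l 16063288) (l 16059504)) (b (l 15982192) (l 15975464)))))), by decide +kernel⟩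

def k5_pm_012_s : ∃ t, chk3 f_pm_012_s t 5 1 1 = true :=
  ⟨(b (b (l 6) (l 6)) (b (a (a (b (l 16051976) (a (l 16035336) (l 16005032))) (b (l 6) (l 15849176))) (l 6)) (a (b (a (b (l 15988632) (a (l 15979008) (l 15916160))) (b (l 15879648) (l 15828672))) (a (a (b (b (l 15941016) (l 15920032)) (b (l 15904944) (l 15895568))) (a (b (l 15877912) (l 15843040)) (b (a (l 15852048) (a (l 15839264) (l 15830704))) (a (l 15815600) (a (l 15802232) (l 15793424)))))) (b (b (l 15779200) (l 15747376)) (a (l 15752736) (l 15682088))))) (a (b (l 6) (a (b (l 15673384) (l 15615376)) (l 6))) (l 6))))), by decide +kernel⟩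

def k6_pm_012_s : ∃ t, chk3 f_pm_012_s t 3 1 1 = true :=
  ⟨(b (l 6) (l 6)), by decide +kernel⟩

theorem s7_pm_012_s : ∃ t, chk3 f_pm_012_s t 8 7 1 = true := ex3_b k2_pm_012_s k3_pm_012_s

theorem s8_pm_012_s : ∃ t, chk3 f_pm_012_s t 4 7 1 = true := ex3_a s7_pm_012_s k4_pm_012_s

theorem s9_pm_012_s : ∃ t, chk3 f_pm_012_s t 4 3 1 = true := ex3_b k1_pm_012_s s8_pm_012_s

theorem s10_pm_012_s : ∃ t, chk3 f_pm_012_s t 4 1 1 = true := ex3_b k0_pm_012_s s9_pm_012_s

theorem s11_pm_012_s : ∃ t, chk3 f_pm_012_s t 2 1 1 = true := ex3_a s10_pm_012_s k5_pm_012_s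

theorem s12_pm_012_s : ∃ t, chk3 f_pm_012_s t 1 1 1 = true := ex3_a s11_pm_012_s k6_pm_012_s

theorem c_pm_012_s : CertNE 0 536870912 536870912 536870912 1020054732 13421774 3 eng mog cd0q0 cd5q1 pd2 true true false .pnp 0 1 2
    ndB0q0 ndB5q1 pcB2 cut_pm_012_s Ext.none :=
  certNE2 (fam := true) (s1 := true) (s2 := false) (a := 0) (b := 1) (c := 2) (cn := .pnp) (n1 := ndB0q0) (n2 := ndB5q1) (pc := pcB2) (cut := cut_pm_012_s) (xt := Ext.none) (P1 := 0) (W1 := 536870912) (P2 := 536870912) (W2 := 536870912) (P3 := 1020054732) (W3 := 13421774) (N0 := 3) (En := eng) (mo := mog) (C1 := cd0q0) (C2 := cd5q1) (C3 := pd2)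
    rfl (fun _ => rfl) s12_pm_012_s

noncomputable def cut_pm_022_s : Cut := Cut.of [[⟨4, 0, 0, 1449551462⟩], [⟨0, 0, 0, 38347922⟩, ⟨1, 1, 0, 38347922⟩, ⟨2, 1, 0, 38347922⟩]]

noncomputable def f_pm_022_s : ℕ → ℕ → ℕ → ℕ → Bool := onCell 0 536870912 1073741824 536870912 1020054732 13421774
    (rowNE 3 eng mog cd0q0 cd5q2 pd2 1 true true false .pp 0 2 2 (qsf 0 536870912 1073741824 536870912 2) ndB0q0 ndB5q2 pcB2 cut_pm_022_s Ext.none)

def k0_pm_022_s : ∃ t, chk3 f_pm_022_s t 1 4 1 = true :=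
  ⟨(a (b (a (a (b (a (l 14) (a (a (a (l 14) (l 1)) (l 1)) (l 1))) (b (b (a (b (l 14) (a (c (l 16594784) (l 16573120)) (c (l 16527232) (l 16541624)))) (a (a (b (l 16500328) (l 16502176)) (b (l 1) (l 16437056))) (l 1))) (a (a (a (b (l 16585344) (l 16566920)) (l 16600896)) (a (l 16568384) (l 16527376))) (a (a (l 16484528) (l 16398528)) (a (l 16376240) (l 1))))) (a (a (b (a (l 16496688) (l 16564304)) (a (l 16478560) (l 16526368))) (b (b (l 16520584) (l 16523648)) (l 16507840))) (a (b (a (l 16511064) (l 16446112)) (l 16380648)) (b (a (l 16381920) (l 16320160)) (a (l 16388792) (l 16326968))))))) (b (l 1) (a (a (b (l 1) (b (l 1) (l 16237240))) (l 1)) (l 1)))) (l 1)) (a (a (a (b (b (a (a (b (l 16459736) (l 16461736)) (b (l 16507960) (l 16488904))) (a (l 16452848) (l 16510296))) (a (b (l 16342216) (l 16345392)) (b (l 16459800) (l 16419912)))) (b (a (b (l 16329232) (l 16335288)) (b (l 16401616) (l 16383624))) (a (l 16176368) (b (l 16367224) (l 16351992))))) (b (a (b (b (l 16430704)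 (l 16440096)) (a (l 16489280) (l 16444912))) (b (b (l 16344736) (l 16374968)) (a (l 16422440) (l 16360168)))) (a (b (l 16397960) (l 16361016)) (b (l 16312944) (l 16363816))))) (b (a (b (a (b (l 16244992) (l 16253904)) (b (l 1) (l 16136600))) (a (l 16227472) (b (l 16146176) (l 16156936)))) (b (l 1) (a (l 16037360) (l 1)))) (a (b (a (l 16294576) (l 16175256)) (a (l 16283568) (l 16204256))) (b (a (l 16059824) (l 15948504)) (a (l 16087232) (l 15974032)))))) (a (b (l 1) (a (b (l 1) (a (l 15864264) (l 1))) (l 1))) (l 1)))) (l 1)), by decide +kernel⟩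

def k1_pm_022_s : ∃ t, chk3 f_pm_022_s t 1 5 1 = true :=
  ⟨(b (a (a (a (b (a (b (a (l 16104304) (l 16255240)) (b (l 16050968) (b (l 16148640) (b (l 16154176) (l 16080744))))) (b (a (b (l 16408888) (l 16372296)) (l 16435744)) (b (a (l 16335000) (l 16426224)) (b (l 16225640) (b (l 16210288) (l 16178872)))))) (a (a (a (l 15951992) (l 16056112)) (l 15995128)) (a (l 16107544) (b (l 16334296) (l 16270816))))) (b (b (a (a (l 16307472) (l 16218328)) (a (l 16119944) (l 16004768))) (a (b (l 16137512) (b (l 16235696) (b (l 16287352) (l 16250992)))) (b (l 16068408) (b (l 16064160) (b (l 16093488) (l 16036424)))))) (a (b (l 16204224) (l 16177824)) (a (b (l 16201408) (l 16236744)) (l 15914200))))) (a (b (b (a (a (l 15892760) (l 15784184)) (l 1)) (b (a (l 15862056) (l 1)) (b (a (l 15875632) (l 1)) (a (b (l 15883112) (l 15888288)) (b (l 1) (l 15669624)))))) (a (b (l 15887624) (l 15760208)) (a (l 15758896) (l 15650592)))) (b (l 1) (a (a (l 15545864) (l 1)) (l 1))))) (l 1)) (b (a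 (a (a (a (b (l 15949576) (l 15937912)) (a (l 16053240) (l 16140872))) (a (l 16089728) (a (l 16154320) (l 16092792)))) (a (a (a (l 15918824) (l 15870096)) (a (l 15735224) (l 15726336))) (a (a (l 15617144) (l 15511256)) (a (l 15411520) (l 1))))) (l 1)) (a (a (a (a (b (l 15887192) (l 15839256)) (a (l 15991160) (l 16076672))) (a (a (l 16152648) (l 16223736)) (l 16188760))) (a (a (a (l 16074224) (l 15972840)) (b (l 15787584) (l 6))) (l 6))) (l 6)))), by decide +kernel⟩

def k2_pm_022_s : ∃ t, chk3 f_pm_022_s t 1 3 1 = true :=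
  ⟨(b (a (b (a (b (a (a (b (l 15794008) (l 15751360)) (a (l 15897968) (l 15981768))) (a (l 16008112) (l 16218992))) (a (a (l 15566784) (l 6)) (l 6))) (l 6)) (l 6)) (l 6)) (l 6)), by decide +kernel⟩

theorem s3_pm_022_s : ∃ t, chk3 f_pm_022_s t 1 2 1 = true := ex3_b k0_pm_022_s k1_pm_022_s

theorem s4_pm_022_s : ∃ t, chk3 f_pm_022_s t 1 1 1 = true := ex3_b s3_pm_022_s k2_pm_022_s

theorem c_pm_022_s : CertNE 0 536870912 1073741824 536870912 1020054732 13421774 3 eng mog cd0q0 cd5q2 pd2 true true false .pp 0 2 2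
    ndB0q0 ndB5q2 pcB2 cut_pm_022_s Ext.none :=
  certNE1 (fam := true) (s1 := true) (s2 := false) (a := 0) (b := 2) (c := 2) (cn := .pp) (n1 := ndB0q0) (n2 := ndB5q2) (pc := pcB2) (cut := cut_pm_022_s) (xt := Ext.none) (P1 := 0) (W1 := 536870912) (P2 := 1073741824) (W2 := 536870912) (P3 := 1020054732) (W3 := 13421774) (N0 := 3) (En := eng) (mo := mog) (C1 := cd0q0) (C2 := cd5q2) (C3 := pd2)
    rfl (fun _ => rfl) s4_pm_022_s

noncomputable def cut_pm_023_s : Cut := Cut.of [[⟨4, 0, 0, 1449551462⟩]]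

noncomputable def f_pm_023_s : ℕ → ℕ → ℕ → ℕ → Bool := onCell 1610612736 536870912 1073741824 536870912 1020054732 13421774
    (rowNE 3 eng mog cd0q0 cd5q2 pd3 2 true true false .up 0 2 3 (qsf 0 536870912 1073741824 536870912 3) ndB0q0 ndB5q2 pcB3 cut_pm_023_s Ext.none)

def k0_pm_023_s : ∃ t, chk3 f_pm_023_s t 1 1 1 = true :=
  ⟨(a (l 6) (l 6)), by decide +kernel⟩

theorem c_pm_023_s : CertNE 0 536870912 1073741824 536870912 1020054732 13421774 3 eng mog cd0q0 cd5q2 pd3 true true false .up 0 2 3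
    ndB0q0 ndB5q2 pcB3 cut_pm_023_s Ext.none :=
  certNE2 (fam := true) (s1 := true) (s2 := false) (a := 0) (b := 2) (c := 3) (cn := .up) (n1 := ndB0q0) (n2 := ndB5q2) (pc := pcB3) (cut := cut_pm_023_s) (xt := Ext.none) (P1 := 0) (W1 := 536870912) (P2 := 1073741824) (W2 := 536870912) (P3 := 1020054732) (W3 := 13421774) (N0 := 3) (En := eng) (mo := mog) (C1 := cd0q0) (C2 := cd5q2) (C3 := pd3)
    rfl (fun _ => rfl) k0_pm_023_s

noncomputable def cut_pm_033_s : Cut := Cut.of [[⟨4, 0, 0, 1449551462⟩]]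

noncomputable def f_pm_033_s : ℕ → ℕ → ℕ → ℕ → Bool := onCell 1610612736 536870912 0 1230186008 1020054732 13421774
    (rowNE 3 eng mog cd0q0 cd5q3 pd3 2 true true false .pnn 0 3 3 (qsf 0 536870912 0 1230186008 3) ndB0q0 ndB5q3 pcB3 cut_pm_033_s Ext.none)

def k0_pm_033_s : ∃ t, chk3 f_pm_033_s t 1 1 1 = true :=
  ⟨(b (l 6) (l 6)), by decide +kernel⟩

theorem c_pm_033_s : CertNE 0 536870912 0 1230186008 1020054732 13421774 3 eng mog cd0q0 cd5q3 pd3 true true false .pnn 0 3 3
    ndB0q0 ndB5q3 pcB3 cut_pm_033_s Ext.none :=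
  certNE2 (fam := true) (s1 := true) (s2 := false) (a := 0) (b := 3) (c := 3) (cn := .pnn) (n1 := ndB0q0) (n2 := ndB5q3) (pc := pcB3) (cut := cut_pm_033_s) (xt := Ext.none) (P1 := 0) (W1 := 536870912) (P2 := 0) (W2 := 1230186008) (P3 := 1020054732) (W3 := 13421774) (N0 := 3) (En := eng) (mo := mog) (C1 := cd0q0) (C2 := cd5q3) (C3 := pd3)
    rfl (fun _ => rfl) k0_pm_033_s

noncomputable def cut_pm_101_s : Cut := Cut.of [[⟨4, 0, 0, 1449551462⟩]]

noncomputable def f_pm_101_s : ℕ → ℕ → ℕ → ℕ → Bool := onCell 536870912 536870912 536870912 536870912 1020054732 13421774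
    (rowNE 3 eng mog cd0q1 cd5q0 pd1 1 true true false .npn 1 0 1 (qsf 536870912 536870912 0 536870912 1) ndB0q1 ndB5q0 pcB1 cut_pm_101_s Ext.none)

def k0_pm_101_s : ∃ t, chk3 f_pm_101_s t 2 4 1 = true :=
  ⟨(a (b (a (l 3) (a (a (l 3) (l 1)) (l 1))) (a (b (a (l 3) (b (l 3) (a (l 3) (l 349670591623)))) (a (b (l 3) (a (l 3) (l 350744328599))) (b (a (l 350744331031) (c (l 16733184) (l 16732152))) (a (c (l 16734344) (l 16752072)) (c (l 16764504) (l 16748632)))))) (b (b (a (a (l 349133722343) (c (l 263100206791) (l 16712000))) (l 1)) (a (a (c (l 290077970391) (l 16732776)) (c (l 16770464) (l 16751400))) (a (l 322692703031) (l 1)))) (a (b (c (l 16700112) (a (l 16749880) (l 16725472))) (c (l 16728944) (l 16710264))) (b (a (l 16623408) (l 16588784)) (a (l 16600848) (l 16584752))))))) (b (l 1) (a (b (l 1) (a (b (l 1) (a (l 16549368) (l 1))) (l 1))) (l 1)))), by decide +kernel⟩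

def k1_pm_101_s : ∃ t, chk3 f_pm_101_s t 2 5 1 = true :=
  ⟨(a (b (c (a (b (b (a (a (l 16715056) (l 16754136)) (l 16733752)) (a (a (l 16752208) (l 16758024)) (l 16737096))) (a (b (l 16745936) (l 16724456)) (b (l 16716032) (l 16691728)))) (b (a (b (l 16732840) (l 16711936)) (l 16553520)) (a (b (l 16687392) (l 16659408)) (c (l 16666888) (l 16617376))))) (a (b (a (b (l 313700220039) (l 261623722791)) (b (l 16713072) (l 16706104))) (a (b (l 16729536) (l 16700776)) (b (l 16655696) (l 16645824)))) (b (a (b (l 16681520) (l 16630224)) (l 16482792)) (a (l 16518400) (l 16475416))))) (a (b (a (b (c (l 16700144) (l 16670808)) (l 16551928)) (c (l 16585872) (l 16533576))) (a (c (l 16606824) (l 16563552)) (b (l 16532424) (l 16539440)))) (a (b (c (l 16568720) (l 16532824)) (c (l 16537536) (l 16457376))) (b (c (l 16549912) (l 16462680)) (l 16205248))))) (b (b (a (a (c (c (l 16713176) (l 16629784)) (l 16429432)) (c (l 237866916647) (l 16360072))) (l 1)) (b (a (c (a (l 16631040) (l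 16585536)) (a (l 16490960) (l 16434984))) (l 1)) (a (a (l 16395928) (l 16304352)) (a (c (l 16373608) (l 16324552)) (l 1))))) (a (c (b (a (l 16528600) (l 16290016)) (a (l 16432968) (l 16212384))) (b (a (l 16385128) (l 16257080)) (a (l 16297728) (l 16209720)))) (b (a (c (b (l 16363448) (l 16367008)) (l 16025144)) (c (l 16202440) (l 16171608))) (a (c (l 16250648) (l 16118256)) (c (l 16153840) (l 16057256))))))), by decide +kernel⟩

def k2_pm_101_s : ∃ t, chk3 f_pm_101_s t 3 2 1 = true :=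
  ⟨(a (b (l 1) (a (b (l 1) (b (l 1) (a (l 365103778519) (l 1)))) (l 1))) (l 1)), by decide +kernel⟩

def k3_pm_101_s : ∃ t, chk3 f_pm_101_s t 1 3 1 = true :=
  ⟨(a (b (a (b (a (b (a (b (l 16558792) (l 16516672)) (l 16283280)) (a (l 16364200) (l 16387184))) (b (a (l 16314760) (b (l 16371520) (l 16326968))) (a (l 16322528) (c (l 16299688) (l 16202384))))) (a (b (a (l 16345120) (l 16280184)) (a (l 16232344) (l 16172152))) (b (a (l 16091720) (l 16144432)) (a (l 16132432) (l 16096584))))) (b (a (b (a (c (l 16326264) (l 16215232)) (c (l 16236840) (l 16133264))) (a (b (l 16204872) (l 16166504)) (l 16104312))) (b (a (l 15985536) (l 15985648)) (a (l 16016728) (l 6)))) (a (b (a (l 16115920) (l 16041624)) (l 16027856)) (b (a (l 6) (l 6)) (l 6))))) (b (a (a (b (a (l 16125440) (l 16092920)) (l 16157168)) (b (l 16061600) (l 16030808))) (a (b (l 15991856) (l 6)) (l 6))) (a (a (b (l 16029856) (l 16037352)) (b (l 16025568) (l 6))) (l 6)))) (a (b (a (l 6) (l 6)) (l 6)) (l 6))), by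 decide +kernel⟩

theorem s4_pm_101_s : ∃ t, chk3 f_pm_101_s t 2 2 1 = true := ex3_b k0_pm_101_s k1_pm_101_s

theorem s5_pm_101_s : ∃ t, chk3 f_pm_101_s t 1 2 1 = true := ex3_a s4_pm_101_s k2_pm_101_s

theorem s6_pm_101_s : ∃ t, chk3 f_pm_101_s t 1 1 1 = true := ex3_b s5_pm_101_s k3_pm_101_s

theorem c_pm_101_s : CertNE 536870912 536870912 0 536870912 1020054732 13421774 3 eng mog cd0q1 cd5q0 pd1 true true false .npn 1 0 1
    ndB0q1 ndB5q0 pcB1 cut_pm_101_s Ext.none :=
  certNE1 (fam := true) (s1 := true) (s2 := false) (a := 1) (b := 0) (c := 1) (cn := .npn) (n1 := ndB0q1) (n2 := ndB5q0) (pc := pcB1) (cut := cut_pm_101_s) (xt := Ext.none) (P1 := 536870912) (W1 := 536870912) (P2 := 0) (W2 := 536870912) (P3 := 1020054732) (W3 := 13421774) (N0 := 3) (En := eng) (mo := mog) (C1 := cd0q1) (C2 := cd5q0) (C3 := pd1)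
    rfl (fun _ => rfl) s6_pm_101_s

noncomputable def cut_pm_102_s : Cut := Cut.of [[⟨4, 0, 0, 1449551462⟩]]

noncomputable def f_pm_102_s : ℕ → ℕ → ℕ → ℕ → Bool := onCell 536870912 536870912 1073741824 536870912 1020054732 13421774
    (rowNE 3 eng mog cd0q1 cd5q0 pd2 1 true true false .npp 1 0 2 (qsf 536870912 536870912 0 536870912 2) ndB0q1 ndB5q0 pcB2 cut_pm_102_s Ext.none)

def k0_pm_102_s : ∃ t, chk3 f_pm_102_s t 1 1 1 = true :=
  ⟨(a (b (b (a (b (a (b (l 15934848) (l 6)) (l 6)) (l 6)) (l 6)) (l 6)) (l 6)) (l 6)), by decide +kernel⟩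

theorem c_pm_102_s : CertNE 536870912 536870912 0 536870912 1020054732 13421774 3 eng mog cd0q1 cd5q0 pd2 true true false .npp 1 0 2
    ndB0q1 ndB5q0 pcB2 cut_pm_102_s Ext.none :=
  certNE1 (fam := true) (s1 := true) (s2 := false) (a := 1) (b := 0) (c := 2) (cn := .npp) (n1 := ndB0q1) (n2 := ndB5q0) (pc := pcB2) (cut := cut_pm_102_s) (xt := Ext.none) (P1 := 536870912) (W1 := 536870912) (P2 := 0) (W2 := 536870912) (P3 := 1020054732) (W3 := 13421774) (N0 := 3) (En := eng) (mo := mog) (C1 := cd0q1) (C2 := cd5q0) (C3 := pd2)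
    rfl (fun _ => rfl) k0_pm_102_s

noncomputable def cut_pm_112_s : Cut := Cut.of [[⟨4, 0, 0, 1449551462⟩]]

noncomputable def f_pm_112_s : ℕ → ℕ → ℕ → ℕ → Bool := onCell 536870912 536870912 536870912 536870912 1020054732 13421774
    (rowNE 3 eng mog cd0q1 cd5q1 pd2 0 true true false .dn 1 1 2 (qsf 536870912 536870912 536870912 536870912 2) ndB0q1 ndB5q1 pcB2 cut_pm_112_s Ext.none)

def k0_pm_112_s : ∃ t, chk3 f_pm_112_s t 1 1 1 = true :=
  ⟨(a (b (a (b (a (b (l 15851736) (l 6)) (l 6)) (l 6)) (l 6)) (l 6)) (l 6)), by decide +kernel⟩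

theorem c_pm_112_s : CertNE 536870912 536870912 536870912 536870912 1020054732 13421774 3 eng mog cd0q1 cd5q1 pd2 true true false .dn 1 1 2
    ndB0q1 ndB5q1 pcB2 cut_pm_112_s Ext.none :=
  certNE0 (fam := true) (s1 := true) (s2 := false) (a := 1) (b := 1) (c := 2) (cn := .dn) (n1 := ndB0q1) (n2 := ndB5q1) (pc := pcB2) (cut := cut_pm_112_s) (xt := Ext.none) (P1 := 536870912) (W1 := 536870912) (P2 := 536870912) (W2 := 536870912) (P3 := 1020054732) (W3 := 13421774) (N0 := 3) (En := eng) (mo := mog) (C1 := cd0q1) (C2 := cd5q1) (C3 := pd2)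
    rfl k0_pm_112_s

noncomputable def cut_pm_113_s : Cut := Cut.of [[⟨4, 0, 0, 1449551462⟩]]

noncomputable def f_pm_113_s : ℕ → ℕ → ℕ → ℕ → Bool := onCell 536870912 536870912 1610612736 536870912 1020054732 13421774
    (rowNE 3 eng mog cd0q1 cd5q1 pd3 1 true true false .nn 1 1 3 (qsf 536870912 536870912 536870912 536870912 3) ndB0q1 ndB5q1 pcB3 cut_pm_113_s Ext.none)

def k0_pm_113_s : ∃ t, chk3 f_pm_113_s t 1 1 1 = true :=
  ⟨(l 6), by decide +kernel⟩

theorem c_pm_113_s : CertNE 536870912 536870912 536870912 536870912 1020054732 13421774 3 eng mog cd0q1 cd5q1 pd3 true true false .nn 1 1 3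
    ndB0q1 ndB5q1 pcB3 cut_pm_113_s Ext.none :=
  certNE1 (fam := true) (s1 := true) (s2 := false) (a := 1) (b := 1) (c := 3) (cn := .nn) (n1 := ndB0q1) (n2 := ndB5q1) (pc := pcB3) (cut := cut_pm_113_s) (xt := Ext.none) (P1 := 536870912) (W1 := 536870912) (P2 := 536870912) (W2 := 536870912) (P3 := 1020054732) (W3 := 13421774) (N0 := 3) (En := eng) (mo := mog) (C1 := cd0q1) (C2 := cd5q1) (C3 := pd3)
    rfl (fun _ => rfl) k0_pm_113_s

noncomputable def cut_pm_123_s : Cut := Cut.of [[⟨4, 0, 0, 1449551462⟩]]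

noncomputable def f_pm_123_s : ℕ → ℕ → ℕ → ℕ → Bool := onCell 536870912 536870912 1073741824 536870912 1020054732 13421774
    (rowNE 3 eng mog cd0q1 cd5q2 pd3 0 true true false .npn 1 2 3 (qsf 536870912 536870912 1073741824 536870912 3) ndB0q1 ndB5q2 pcB3 cut_pm_123_s Ext.none)

def k0_pm_123_s : ∃ t, chk3 f_pm_123_s t 1 1 1 = true :=
  ⟨(l 6), by decide +kernel⟩

theorem c_pm_123_s : CertNE 536870912 536870912 1073741824 536870912 1020054732 13421774 3 eng mog cd0q1 cd5q2 pd3 true true false .npn 1 2 3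
    ndB0q1 ndB5q2 pcB3 cut_pm_123_s Ext.none :=
  certNE0 (fam := true) (s1 := true) (s2 := false) (a := 1) (b := 2) (c := 3) (cn := .npn) (n1 := ndB0q1) (n2 := ndB5q2) (pc := pcB3) (cut := cut_pm_123_s) (xt := Ext.none) (P1 := 536870912) (W1 := 536870912) (P2 := 1073741824) (W2 := 536870912) (P3 := 1020054732) (W3 := 13421774) (N0 := 3) (En := eng) (mo := mog) (C1 := cd0q1) (C2 := cd5q2) (C3 := pd3)
    rfl k0_pm_123_s

noncomputable def cut_pm_133_s : Cut := Cut.of [[⟨4, 0, 0, 1449551462⟩]]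

noncomputable def f_pm_133_s : ℕ → ℕ → ℕ → ℕ → Bool := onCell 536870912 536870912 0 1230186008 1020054732 13421774
    (rowNE 3 eng mog cd0q1 cd5q3 pd3 0 true true false .dn 1 3 3 (qsf 536870912 536870912 0 1230186008 3) ndB0q1 ndB5q3 pcB3 cut_pm_133_s Ext.none)

def k0_pm_133_s : ∃ t, chk3 f_pm_133_s t 1 1 1 = true :=
  ⟨(l 6), by decide +kernel⟩

theorem c_pm_133_s : CertNE 536870912 536870912 0 1230186008 1020054732 13421774 3 eng mog cd0q1 cd5q3 pd3 true true false .dn 1 3 3
    ndB0q1 ndB5q3 pcB3 cut_pm_133_s Ext.none :=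
  certNE0 (fam := true) (s1 := true) (s2 := false) (a := 1) (b := 3) (c := 3) (cn := .dn) (n1 := ndB0q1) (n2 := ndB5q3) (pc := pcB3) (cut := cut_pm_133_s) (xt := Ext.none) (P1 := 536870912) (W1 := 536870912) (P2 := 0) (W2 := 1230186008) (P3 := 1020054732) (W3 := 13421774) (N0 := 3) (En := eng) (mo := mog) (C1 := cd0q1) (C2 := cd5q3) (C3 := pd3)
    rfl k0_pm_133_s

noncomputable def cut_pm_202_s : Cut := Cut.of [[⟨4, 0, 0, 1449551462⟩]]

noncomputable def f_pm_202_s : ℕ → ℕ → ℕ → ℕ → Bool := onCell 0 536870912 0 536870912 1020054732 13421774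
    (rowNE 3 eng mog cd0q2 cd5q0 pd2 0 true true false .pp 2 0 2 (qsf 0 536870912 0 536870912 2) ndB0q2 ndB5q0 pcB2 cut_pm_202_s Ext.none)

def k0_pm_202_s : ∃ t, chk3 f_pm_202_s t 1 1 1 = true :=
  ⟨(l 6), by decide +kernel⟩

theorem c_pm_202_s : CertNE 0 536870912 0 536870912 1020054732 13421774 3 eng mog cd0q2 cd5q0 pd2 true true false .pp 2 0 2
    ndB0q2 ndB5q0 pcB2 cut_pm_202_s Ext.none :=
  certNE0 (fam := true) (s1 := true) (s2 := false) (a := 2) (b := 0) (c := 2) (cn := .pp) (n1 := ndB0q2) (n2 := ndB5q0) (pc := pcB2) (cut := cut_pm_202_s) (xt := Ext.none) (P1 := 0) (W1 := 536870912) (P2 := 0) (W2 := 536870912) (P3 := 1020054732) (W3 := 13421774) (N0 := 3) (En := eng) (mo := mog) (C1 := cd0q2) (C2 := cd5q0) (C3 := pd2)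
    rfl k0_pm_202_s

noncomputable def cut_pm_203_s : Cut := Cut.of [[⟨4, 0, 0, 1449551462⟩]]

noncomputable def f_pm_203_s : ℕ → ℕ → ℕ → ℕ → Bool := onCell 0 536870912 0 536870912 1020054732 13421774
    (rowNE 3 eng mog cd0q2 cd5q0 pd3 0 true true false .up 2 0 3 (qsf 0 536870912 0 536870912 3) ndB0q2 ndB5q0 pcB3 cut_pm_203_s Ext.none)

def k0_pm_203_s : ∃ t, chk3 f_pm_203_s t 1 1 1 = true :=
  ⟨(l 6), by decide +kernel⟩

theorem c_pm_203_s : CertNE 0 536870912 0 536870912 1020054732 13421774 3 eng mog cd0q2 cd5q0 pd3 true true false .up 2 0 3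
    ndB0q2 ndB5q0 pcB3 cut_pm_203_s Ext.none :=
  certNE0 (fam := true) (s1 := true) (s2 := false) (a := 2) (b := 0) (c := 3) (cn := .up) (n1 := ndB0q2) (n2 := ndB5q0) (pc := pcB3) (cut := cut_pm_203_s) (xt := Ext.none) (P1 := 0) (W1 := 536870912) (P2 := 0) (W2 := 536870912) (P3 := 1020054732) (W3 := 13421774) (N0 := 3) (En := eng) (mo := mog) (C1 := cd0q2) (C2 := cd5q0) (C3 := pd3)
    rfl k0_pm_203_s

noncomputable def cut_pm_213_s : Cut := Cut.of [[⟨4, 0, 0, 1449551462⟩]]

noncomputable def f_pm_213_s : ℕ → ℕ → ℕ → ℕ → Bool := onCell 0 536870912 536870912 536870912 1020054732 13421774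
    (rowNE 3 eng mog cd0q2 cd5q1 pd3 0 true true false .pnn 2 1 3 (qsf 0 536870912 536870912 536870912 3) ndB0q2 ndB5q1 pcB3 cut_pm_213_s Ext.none)

def k0_pm_213_s : ∃ t, chk3 f_pm_213_s t 1 1 1 = true :=
  ⟨(l 6), by decide +kernel⟩

theorem c_pm_213_s : CertNE 0 536870912 536870912 536870912 1020054732 13421774 3 eng mog cd0q2 cd5q1 pd3 true true false .pnn 2 1 3
    ndB0q2 ndB5q1 pcB3 cut_pm_213_s Ext.none :=
  certNE0 (fam := true) (s1 := true) (s2 := false) (a := 2) (b := 1) (c := 3) (cn := .pnn) (n1 := ndB0q2) (n2 := ndB5q1) (pc := pcB3) (cut := cut_pm_213_s) (xt := Ext.none) (P1 := 0) (W1 := 536870912) (P2 := 536870912) (W2 := 536870912) (P3 := 1020054732) (W3 := 13421774) (N0 := 3) (En := eng) (mo := mog) (C1 := cd0q2) (C2 := cd5q1) (C3 := pd3)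
    rfl k0_pm_213_s

noncomputable def cut_mm_001_s : Cut := Cut.of [[⟨4, 0, 0, 1449551462⟩]]

noncomputable def f_mm_001_s : ℕ → ℕ → ℕ → ℕ → Bool := onCell 0 536870912 0 536870912 1020054732 13421774
    (rowNE 3 eng mog cd0q0 cd5q0 pd1 0 true false false .up 0 0 1 (qsf 0 536870912 0 536870912 1) ndB0q0 ndB5q0 pcB1 cut_mm_001_s Ext.none)

def k0_mm_001_s : ∃ t, chk3 f_mm_001_s t 1 1 1 = true :=
  ⟨(l 4), by decide +kernel⟩

theorem c_mm_001_s : CertNE 0 536870912 0 536870912 1020054732 13421774 3 eng mog cd0q0 cd5q0 pd1 true false false .up 0 0 1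
    ndB0q0 ndB5q0 pcB1 cut_mm_001_s Ext.none :=
  certNE0 (fam := true) (s1 := false) (s2 := false) (a := 0) (b := 0) (c := 1) (cn := .up) (n1 := ndB0q0) (n2 := ndB5q0) (pc := pcB1) (cut := cut_mm_001_s) (xt := Ext.none) (P1 := 0) (W1 := 536870912) (P2 := 0) (W2 := 536870912) (P3 := 1020054732) (W3 := 13421774) (N0 := 3) (En := eng) (mo := mog) (C1 := cd0q0) (C2 := cd5q0) (C3 := pd1)
    rfl k0_mm_001_s

noncomputable def cut_mm_011_s : Cut := Cut.of [[⟨4, 0, 0, 1449551462⟩]]

noncomputable def f_mm_011_s : ℕ → ℕ → ℕ → ℕ → Bool := onCell 0 536870912 536870912 536870912 1020054732 13421774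
    (rowNE 3 eng mog cd0q0 cd5q1 pd1 0 true false false .pnn 0 1 1 (qsf 0 536870912 536870912 536870912 1) ndB0q0 ndB5q1 pcB1 cut_mm_011_s Ext.none)

def k0_mm_011_s : ∃ t, chk3 f_mm_011_s t 1 1 1 = true :=
  ⟨(l 4), by decide +kernel⟩

theorem c_mm_011_s : CertNE 0 536870912 536870912 536870912 1020054732 13421774 3 eng mog cd0q0 cd5q1 pd1 true false false .pnn 0 1 1
    ndB0q0 ndB5q1 pcB1 cut_mm_011_s Ext.none :=
  certNE0 (fam := true) (s1 := false) (s2 := false) (a := 0) (b := 1) (c := 1) (cn := .pnn) (n1 := ndB0q0) (n2 := ndB5q1) (pc := pcB1) (cut := cut_mm_011_s) (xt := Ext.none) (P1 := 0) (W1 := 536870912) (P2 := 536870912) (W2 := 536870912) (P3 := 1020054732) (W3 := 13421774) (N0 := 3) (En := eng) (mo := mog) (C1 := cd0q0) (C2 := cd5q1) (C3 := pd1)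
    rfl k0_mm_011_s

noncomputable def cut_mm_012_s : Cut := Cut.of [[⟨4, 0, 0, 1449551462⟩]]

noncomputable def f_mm_012_s : ℕ → ℕ → ℕ → ℕ → Bool := onCell 0 536870912 536870912 536870912 1020054732 13421774
    (rowNE 3 eng mog cd0q0 cd5q1 pd2 0 true false false .pnp 0 1 2 (qsf 0 536870912 536870912 536870912 2) ndB0q0 ndB5q1 pcB2 cut_mm_012_s Ext.none)

def k0_mm_012_s : ∃ t, chk3 f_mm_012_s t 1 1 1 = true :=
  ⟨(l 4), by decide +kernel⟩

theorem c_mm_012_s : CertNE 0 536870912 536870912 536870912 1020054732 13421774 3 eng mog cd0q0 cd5q1 pd2 true false false .pnp 0 1 2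
    ndB0q0 ndB5q1 pcB2 cut_mm_012_s Ext.none :=
  certNE0 (fam := true) (s1 := false) (s2 := false) (a := 0) (b := 1) (c := 2) (cn := .pnp) (n1 := ndB0q0) (n2 := ndB5q1) (pc := pcB2) (cut := cut_mm_012_s) (xt := Ext.none) (P1 := 0) (W1 := 536870912) (P2 := 536870912) (W2 := 536870912) (P3 := 1020054732) (W3 := 13421774) (N0 := 3) (En := eng) (mo := mog) (C1 := cd0q0) (C2 := cd5q1) (C3 := pd2)
    rfl k0_mm_012_s

noncomputable def cut_mm_022_s : Cut := Cut.of [[⟨4, 0, 0, 1449551462⟩]]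

noncomputable def f_mm_022_s : ℕ → ℕ → ℕ → ℕ → Bool := onCell 0 536870912 1073741824 536870912 1020054732 13421774
    (rowNE 3 eng mog cd0q0 cd5q2 pd2 0 true false false .pp 0 2 2 (qsf 0 536870912 1073741824 536870912 2) ndB0q0 ndB5q2 pcB2 cut_mm_022_s Ext.none)

def k0_mm_022_s : ∃ t, chk3 f_mm_022_s t 1 1 1 = true :=
  ⟨(l 4), by decide +kernel⟩

theorem c_mm_022_s : CertNE 0 536870912 1073741824 536870912 1020054732 13421774 3 eng mog cd0q0 cd5q2 pd2 true false false .pp 0 2 2
    ndB0q0 ndB5q2 pcB2 cut_mm_022_s Ext.none :=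
  certNE0 (fam := true) (s1 := false) (s2 := false) (a := 0) (b := 2) (c := 2) (cn := .pp) (n1 := ndB0q0) (n2 := ndB5q2) (pc := pcB2) (cut := cut_mm_022_s) (xt := Ext.none) (P1 := 0) (W1 := 536870912) (P2 := 1073741824) (W2 := 536870912) (P3 := 1020054732) (W3 := 13421774) (N0 := 3) (En := eng) (mo := mog) (C1 := cd0q0) (C2 := cd5q2) (C3 := pd2)
    rfl k0_mm_022_s

noncomputable def cut_mm_023_s : Cut := Cut.of [[⟨4, 0, 0, 1449551462⟩]]

noncomputable def f_mm_023_s : ℕ → ℕ → ℕ → ℕ → Bool := onCell 0 536870912 1073741824 536870912 1020054732 13421774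
    (rowNE 3 eng mog cd0q0 cd5q2 pd3 0 true false false .up 0 2 3 (qsf 0 536870912 1073741824 536870912 3) ndB0q0 ndB5q2 pcB3 cut_mm_023_s Ext.none)

def k0_mm_023_s : ∃ t, chk3 f_mm_023_s t 1 1 1 = true :=
  ⟨(l 4), by decide +kernel⟩

theorem c_mm_023_s : CertNE 0 536870912 1073741824 536870912 1020054732 13421774 3 eng mog cd0q0 cd5q2 pd3 true false false .up 0 2 3
    ndB0q0 ndB5q2 pcB3 cut_mm_023_s Ext.none :=
  certNE0 (fam := true) (s1 := false) (s2 := false) (a := 0) (b := 2) (c := 3) (cn := .up) (n1 := ndB0q0) (n2 := ndB5q2) (pc := pcB3) (cut := cut_mm_023_s) (xt := Ext.none) (P1 := 0) (W1 := 536870912) (P2 := 1073741824) (W2 := 536870912) (P3 := 1020054732) (W3 := 13421774) (N0 := 3) (En := eng) (mo := mog) (C1 := cd0q0) (C2 := cd5q2) (C3 := pd3)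
    rfl k0_mm_023_s

noncomputable def cut_mm_033_s : Cut := Cut.of [[⟨4, 0, 0, 1449551462⟩]]

noncomputable def f_mm_033_s : ℕ → ℕ → ℕ → ℕ → Bool := onCell 0 536870912 0 1230186008 1020054732 13421774
    (rowNE 3 eng mog cd0q0 cd5q3 pd3 0 true false false .pnn 0 3 3 (qsf 0 536870912 0 1230186008 3) ndB0q0 ndB5q3 pcB3 cut_mm_033_s Ext.none)

def k0_mm_033_s : ∃ t, chk3 f_mm_033_s t 1 1 1 = true :=
  ⟨(l 4), by decide +kernel⟩

theorem c_mm_033_s : CertNE 0 536870912 0 1230186008 1020054732 13421774 3 eng mog cd0q0 cd5q3 pd3 true false false .pnn 0 3 3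
    ndB0q0 ndB5q3 pcB3 cut_mm_033_s Ext.none :=
  certNE0 (fam := true) (s1 := false) (s2 := false) (a := 0) (b := 3) (c := 3) (cn := .pnn) (n1 := ndB0q0) (n2 := ndB5q3) (pc := pcB3) (cut := cut_mm_033_s) (xt := Ext.none) (P1 := 0) (W1 := 536870912) (P2 := 0) (W2 := 1230186008) (P3 := 1020054732) (W3 := 13421774) (N0 := 3) (En := eng) (mo := mog) (C1 := cd0q0) (C2 := cd5q3) (C3 := pd3)
    rfl k0_mm_033_s

noncomputable def cut_mm_101_s : Cut := Cut.of [[⟨4, 0, 0, 1449551462⟩]]

noncomputable def f_mm_101_s : ℕ → ℕ → ℕ → ℕ → Bool := onCell 536870912 536870912 0 536870912 1020054732 13421774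
    (rowNE 3 eng mog cd0q1 cd5q0 pd1 0 true false false .npn 1 0 1 (qsf 536870912 536870912 0 536870912 1) ndB0q1 ndB5q0 pcB1 cut_mm_101_s Ext.none)

def k0_mm_101_s : ∃ t, chk3 f_mm_101_s t 1 1 1 = true :=
  ⟨(l 4), by decide +kernel⟩

theorem c_mm_101_s : CertNE 536870912 536870912 0 536870912 1020054732 13421774 3 eng mog cd0q1 cd5q0 pd1 true false false .npn 1 0 1
    ndB0q1 ndB5q0 pcB1 cut_mm_101_s Ext.none :=
  certNE0 (fam := true) (s1 := false) (s2 := false) (a := 1) (b := 0) (c := 1) (cn := .npn) (n1 := ndB0q1) (n2 := ndB5q0) (pc := pcB1) (cut := cut_mm_101_s) (xt := Ext.none) (P1 := 536870912) (W1 := 536870912) (P2 := 0) (W2 := 536870912) (P3 := 1020054732) (W3 := 13421774) (N0 := 3) (En := eng) (mo := mog) (C1 := cd0q1) (C2 := cd5q0) (C3 := pd1)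
    rfl k0_mm_101_s

noncomputable def cut_mm_102_s : Cut := Cut.of [[⟨4, 0, 0, 1449551462⟩]]

noncomputable def f_mm_102_s : ℕ → ℕ → ℕ → ℕ → Bool := onCell 536870912 536870912 0 536870912 1020054732 13421774
    (rowNE 3 eng mog cd0q1 cd5q0 pd2 0 true false false .npp 1 0 2 (qsf 536870912 536870912 0 536870912 2) ndB0q1 ndB5q0 pcB2 cut_mm_102_s Ext.none)

def k0_mm_102_s : ∃ t, chk3 f_mm_102_s t 1 1 1 = true :=
  ⟨(l 4), by decide +kernel⟩

theorem c_mm_102_s : CertNE 536870912 536870912 0 536870912 1020054732 13421774 3 eng mog cd0q1 cd5q0 pd2 true false false .npp 1 0 2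
    ndB0q1 ndB5q0 pcB2 cut_mm_102_s Ext.none :=
  certNE0 (fam := true) (s1 := false) (s2 := false) (a := 1) (b := 0) (c := 2) (cn := .npp) (n1 := ndB0q1) (n2 := ndB5q0) (pc := pcB2) (cut := cut_mm_102_s) (xt := Ext.none) (P1 := 536870912) (W1 := 536870912) (P2 := 0) (W2 := 536870912) (P3 := 1020054732) (W3 := 13421774) (N0 := 3) (En := eng) (mo := mog) (C1 := cd0q1) (C2 := cd5q0) (C3 := pd2)
    rfl k0_mm_102_s

noncomputable def cut_mm_112_s : Cut := Cut.of [[⟨4, 0, 0, 1449551462⟩]]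

noncomputable def f_mm_112_s : ℕ → ℕ → ℕ → ℕ → Bool := onCell 536870912 536870912 536870912 536870912 1020054732 13421774
    (rowNE 3 eng mog cd0q1 cd5q1 pd2 0 true false false .dn 1 1 2 (qsf 536870912 536870912 536870912 536870912 2) ndB0q1 ndB5q1 pcB2 cut_mm_112_s Ext.none)

def k0_mm_112_s : ∃ t, chk3 f_mm_112_s t 1 1 1 = true :=
  ⟨(l 4), by decide +kernel⟩

theorem c_mm_112_s : CertNE 536870912 536870912 536870912 536870912 1020054732 13421774 3 eng mog cd0q1 cd5q1 pd2 true false false .dn 1 1 2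
    ndB0q1 ndB5q1 pcB2 cut_mm_112_s Ext.none :=
  certNE0 (fam := true) (s1 := false) (s2 := false) (a := 1) (b := 1) (c := 2) (cn := .dn) (n1 := ndB0q1) (n2 := ndB5q1) (pc := pcB2) (cut := cut_mm_112_s) (xt := Ext.none) (P1 := 536870912) (W1 := 536870912) (P2 := 536870912) (W2 := 536870912) (P3 := 1020054732) (W3 := 13421774) (N0 := 3) (En := eng) (mo := mog) (C1 := cd0q1) (C2 := cd5q1) (C3 := pd2)
    rfl k0_mm_112_s

noncomputable def cut_mm_113_s : Cut := Cut.of [[⟨4, 0, 0, 1449551462⟩]]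

noncomputable def f_mm_113_s : ℕ → ℕ → ℕ → ℕ → Bool := onCell 536870912 536870912 536870912 536870912 1020054732 13421774
    (rowNE 3 eng mog cd0q1 cd5q1 pd3 0 true false false .nn 1 1 3 (qsf 536870912 536870912 536870912 536870912 3) ndB0q1 ndB5q1 pcB3 cut_mm_113_s Ext.none)

def k0_mm_113_s : ∃ t, chk3 f_mm_113_s t 1 1 1 = true :=
  ⟨(l 4), by decide +kernel⟩

theorem c_mm_113_s : CertNE 536870912 536870912 536870912 536870912 1020054732 13421774 3 eng mog cd0q1 cd5q1 pd3 true false false .nn 1 1 3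
    ndB0q1 ndB5q1 pcB3 cut_mm_113_s Ext.none :=
  certNE0 (fam := true) (s1 := false) (s2 := false) (a := 1) (b := 1) (c := 3) (cn := .nn) (n1 := ndB0q1) (n2 := ndB5q1) (pc := pcB3) (cut := cut_mm_113_s) (xt := Ext.none) (P1 := 536870912) (W1 := 536870912) (P2 := 536870912) (W2 := 536870912) (P3 := 1020054732) (W3 := 13421774) (N0 := 3) (En := eng) (mo := mog) (C1 := cd0q1) (C2 := cd5q1) (C3 := pd3)
    rfl k0_mm_113_s

noncomputable def cut_mm_123_s : Cut := Cut.of [[⟨4, 0, 0, 1449551462⟩]]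

noncomputable def f_mm_123_s : ℕ → ℕ → ℕ → ℕ → Bool := onCell 536870912 536870912 1073741824 536870912 1020054732 13421774
    (rowNE 3 eng mog cd0q1 cd5q2 pd3 0 true false false .npn 1 2 3 (qsf 536870912 536870912 1073741824 536870912 3) ndB0q1 ndB5q2 pcB3 cut_mm_123_s Ext.none)

def k0_mm_123_s : ∃ t, chk3 f_mm_123_s t 1 1 1 = true :=
  ⟨(l 4), by decide +kernel⟩

theorem c_mm_123_s : CertNE 536870912 536870912 1073741824 536870912 1020054732 13421774 3 eng mog cd0q1 cd5q2 pd3 true false false .npn 1 2 3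
    ndB0q1 ndB5q2 pcB3 cut_mm_123_s Ext.none :=
  certNE0 (fam := true) (s1 := false) (s2 := false) (a := 1) (b := 2) (c := 3) (cn := .npn) (n1 := ndB0q1) (n2 := ndB5q2) (pc := pcB3) (cut := cut_mm_123_s) (xt := Ext.none) (P1 := 536870912) (W1 := 536870912) (P2 := 1073741824) (W2 := 536870912) (P3 := 1020054732) (W3 := 13421774) (N0 := 3) (En := eng) (mo := mog) (C1 := cd0q1) (C2 := cd5q2) (C3 := pd3)
    rfl k0_mm_123_s

noncomputable def cut_mm_133_s : Cut := Cut.of [[⟨4, 0, 0, 1449551462⟩]]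

noncomputable def f_mm_133_s : ℕ → ℕ → ℕ → ℕ → Bool := onCell 536870912 536870912 0 1230186008 1020054732 13421774
    (rowNE 3 eng mog cd0q1 cd5q3 pd3 0 true false false .dn 1 3 3 (qsf 536870912 536870912 0 1230186008 3) ndB0q1 ndB5q3 pcB3 cut_mm_133_s Ext.none)

def k0_mm_133_s : ∃ t, chk3 f_mm_133_s t 1 1 1 = true :=
  ⟨(l 4), by decide +kernel⟩

theorem c_mm_133_s : CertNE 536870912 536870912 0 1230186008 1020054732 13421774 3 eng mog cd0q1 cd5q3 pd3 true false false .dn 1 3 3
    ndB0q1 ndB5q3 pcB3 cut_mm_133_s Ext.none :=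
  certNE0 (fam := true) (s1 := false) (s2 := false) (a := 1) (b := 3) (c := 3) (cn := .dn) (n1 := ndB0q1) (n2 := ndB5q3) (pc := pcB3) (cut := cut_mm_133_s) (xt := Ext.none) (P1 := 536870912) (W1 := 536870912) (P2 := 0) (W2 := 1230186008) (P3 := 1020054732) (W3 := 13421774) (N0 := 3) (En := eng) (mo := mog) (C1 := cd0q1) (C2 := cd5q3) (C3 := pd3)
    rfl k0_mm_133_s

noncomputable def cut_mm_202_s : Cut := Cut.of [[⟨4, 0, 0, 1449551462⟩]]

noncomputable def f_mm_202_s : ℕ → ℕ → ℕ → ℕ → Bool := onCell 0 536870912 0 536870912 1020054732 13421774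
    (rowNE 3 eng mog cd0q2 cd5q0 pd2 0 true false false .pp 2 0 2 (qsf 0 536870912 0 536870912 2) ndB0q2 ndB5q0 pcB2 cut_mm_202_s Ext.none)

def k0_mm_202_s : ∃ t, chk3 f_mm_202_s t 1 1 1 = true :=
  ⟨(l 4), by decide +kernel⟩

theorem c_mm_202_s : CertNE 0 536870912 0 536870912 1020054732 13421774 3 eng mog cd0q2 cd5q0 pd2 true false false .pp 2 0 2
    ndB0q2 ndB5q0 pcB2 cut_mm_202_s Ext.none :=
  certNE0 (fam := true) (s1 := false) (s2 := false) (a := 2) (b := 0) (c := 2) (cn := .pp) (n1 := ndB0q2) (n2 := ndB5q0) (pc := pcB2) (cut := cut_mm_202_s) (xt := Ext.none) (P1 := 0) (W1 := 536870912) (P2 := 0) (W2 := 536870912) (P3 := 1020054732) (W3 := 13421774) (N0 := 3) (En := eng) (mo := mog) (C1 := cd0q2) (C2 := cd5q0) (C3 := pd2)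
    rfl k0_mm_202_s

noncomputable def cut_mm_203_s : Cut := Cut.of [[⟨4, 0, 0, 1449551462⟩]]

noncomputable def f_mm_203_s : ℕ → ℕ → ℕ → ℕ → Bool := onCell 0 536870912 0 536870912 1020054732 13421774
    (rowNE 3 eng mog cd0q2 cd5q0 pd3 0 true false false .up 2 0 3 (qsf 0 536870912 0 536870912 3) ndB0q2 ndB5q0 pcB3 cut_mm_203_s Ext.none)

def k0_mm_203_s : ∃ t, chk3 f_mm_203_s t 1 1 1 = true :=
  ⟨(l 4), by decide +kernel⟩

theorem c_mm_203_s : CertNE 0 536870912 0 536870912 1020054732 13421774 3 eng mog cd0q2 cd5q0 pd3 true false false .up 2 0 3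
    ndB0q2 ndB5q0 pcB3 cut_mm_203_s Ext.none :=
  certNE0 (fam := true) (s1 := false) (s2 := false) (a := 2) (b := 0) (c := 3) (cn := .up) (n1 := ndB0q2) (n2 := ndB5q0) (pc := pcB3) (cut := cut_mm_203_s) (xt := Ext.none) (P1 := 0) (W1 := 536870912) (P2 := 0) (W2 := 536870912) (P3 := 1020054732) (W3 := 13421774) (N0 := 3) (En := eng) (mo := mog) (C1 := cd0q2) (C2 := cd5q0) (C3 := pd3)
    rfl k0_mm_203_s

noncomputable def cut_mm_213_s : Cut := Cut.of [[⟨4, 0, 0, 1449551462⟩]]

noncomputable def f_mm_213_s : ℕ → ℕ → ℕ → ℕ → Bool := onCell 0 536870912 536870912 536870912 1020054732 13421774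
    (rowNE 3 eng mog cd0q2 cd5q1 pd3 0 true false false .pnn 2 1 3 (qsf 0 536870912 536870912 536870912 3) ndB0q2 ndB5q1 pcB3 cut_mm_213_s Ext.none)

def k0_mm_213_s : ∃ t, chk3 f_mm_213_s t 1 1 1 = true :=
  ⟨(l 4), by decide +kernel⟩

theorem c_mm_213_s : CertNE 0 536870912 536870912 536870912 1020054732 13421774 3 eng mog cd0q2 cd5q1 pd3 true false false .pnn 2 1 3
    ndB0q2 ndB5q1 pcB3 cut_mm_213_s Ext.none :=
  certNE0 (fam := true) (s1 := false) (s2 := false) (a := 2) (b := 1) (c := 3) (cn := .pnn) (n1 := ndB0q2) (n2 := ndB5q1) (pc := pcB3) (cut := cut_mm_213_s) (xt := Ext.none) (P1 := 0) (W1 := 536870912) (P2 := 536870912) (W2 := 536870912) (P3 := 1020054732) (W3 := 13421774) (N0 := 3) (En := eng) (mo := mog) (C1 := cd0q2) (C2 := cd5q1) (C3 := pd3)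
    rfl k0_mm_213_s

end Pool.Agent.Strip051.G.I9500_9625.Tab.CS.BA05

namespace Pool.Agent.Strip051.G.I9500_9625.Tab.CS.BB00

open Pool.Agent.Strip051.PB Pool.Agent.Strip051.PB.T
open Pool.Agent.Strip051.G.I9500_9625.Tab

noncomputable def cut_pp_001_s : Cut := Cut.of [[⟨4, 0, 0, 1449551462⟩]]

noncomputable def f_pp_001_s : ℕ → ℕ → ℕ → ℕ → Bool := onCell 0 536870912 0 536870912 1020054732 13421774
    (rowNE 3 eng mog cd0q0 cd0q1 pd0 1 false true true .up 0 0 1 (qsf 0 536870912 536870912 536870912 0) ndB0q0 ndB0q1 pcB0 cut_pp_001_s Ext.none)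

def k0_pp_001_s : ∃ t, chk3 f_pp_001_s t 1 1 1 = true :=
  ⟨(l 3), by decide +kernel⟩

theorem c_pp_001_s : CertNE 0 536870912 536870912 536870912 1020054732 13421774 3 eng mog cd0q0 cd0q1 pd0 false true true .up 0 0 1
    ndB0q0 ndB0q1 pcB0 cut_pp_001_s Ext.none :=
  certNE1 (fam := false) (s1 := true) (s2 := true) (a := 0) (b := 0) (c := 1) (cn := .up) (n1 := ndB0q0) (n2 := ndB0q1) (pc := pcB0) (cut := cut_pp_001_s) (xt := Ext.none) (P1 := 0) (W1 := 536870912) (P2 := 536870912) (W2 := 536870912) (P3 := 1020054732) (W3 := 13421774) (N0 := 3) (En := eng) (mo := mog) (C1 := cd0q0) (C2 := cd0q1) (C3 := pd0)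
    rfl (fun _ => rfl) k0_pp_001_s

noncomputable def cut_pp_001_t : Cut := Cut.of [[⟨3, 0, 0, 2845415833⟩]]

noncomputable def f_pp_001_t : ℕ → ℕ → ℕ → ℕ → Bool := onCell 0 536870912 536870912 536870912 1020054732 13421774
    (rowNE 3 eng mog cd0q0 cd0q1 pd0 0 false true true .up 0 0 1 (qsf 0 536870912 536870912 536870912 0) ndB0q0 ndB0q1 pcB0 cut_pp_001_t Ext.none)

def k0_pp_001_t : ∃ t, chk3 f_pp_001_t t 1 1 1 = true :=
  ⟨(l 6), by decide +kernel⟩

theorem c_pp_001_t : CertNE 0 536870912 536870912 536870912 1020054732 13421774 3 eng mog cd0q0 cd0q1 pd0 false true true .up 0 0 1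
    ndB0q0 ndB0q1 pcB0 cut_pp_001_t Ext.none :=
  certNE0 (fam := false) (s1 := true) (s2 := true) (a := 0) (b := 0) (c := 1) (cn := .up) (n1 := ndB0q0) (n2 := ndB0q1) (pc := pcB0) (cut := cut_pp_001_t) (xt := Ext.none) (P1 := 0) (W1 := 536870912) (P2 := 536870912) (W2 := 536870912) (P3 := 1020054732) (W3 := 13421774) (N0 := 3) (En := eng) (mo := mog) (C1 := cd0q0) (C2 := cd0q1) (C3 := pd0)
    rfl k0_pp_001_t

noncomputable def cut_pp_011_s : Cut := Cut.of [[⟨4, 0, 0, 1449551462⟩], [⟨0, 0, 0, 38347922⟩, ⟨1, 1, 0, 38347922⟩, ⟨2, 1, 0, 38347922⟩]]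

noncomputable def f_pp_011_s : ℕ → ℕ → ℕ → ℕ → Bool := onCell 536870912 536870912 536870912 536870912 1020054732 13421774
    (rowNE 3 eng mog cd0q0 cd0q1 pd1 2 false true true .pnn 0 1 1 (qsf 0 536870912 536870912 536870912 1) ndB0q0 ndB0q1 pcB1 cut_pp_011_s Ext.none)

def k0_pp_011_s : ∃ t, chk3 f_pp_011_s t 1 1 1 = true :=
  ⟨(a (l 3) (b (l 3) (a (l 3) (b (l 3) (a (l 3) (b (l 3) (b (l 3) (a (l 3) (l 14))))))))), by decide +kernel⟩

theorem c_pp_011_s : CertNE 0 536870912 536870912 536870912 1020054732 13421774 3 eng mog cd0q0 cd0q1 pd1 false true true .pnn 0 1 1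
    ndB0q0 ndB0q1 pcB1 cut_pp_011_s Ext.none :=
  certNE2 (fam := false) (s1 := true) (s2 := true) (a := 0) (b := 1) (c := 1) (cn := .pnn) (n1 := ndB0q0) (n2 := ndB0q1) (pc := pcB1) (cut := cut_pp_011_s) (xt := Ext.none) (P1 := 0) (W1 := 536870912) (P2 := 536870912) (W2 := 536870912) (P3 := 1020054732) (W3 := 13421774) (N0 := 3) (En := eng) (mo := mog) (C1 := cd0q0) (C2 := cd0q1) (C3 := pd1)
    rfl (fun _ => rfl) k0_pp_011_s

noncomputable def cut_pp_011_t : Cut := Cut.of [[⟨3, 0, 0, 2845415833⟩], [⟨0, 0, 0, 38347922⟩, ⟨1, 1, 0, 38347922⟩, ⟨2, 1, 0, 38347922⟩]]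

noncomputable def f_pp_011_t : ℕ → ℕ → ℕ → ℕ → Bool := onCell 0 536870912 536870912 536870912 1020054732 13421774
    (rowNE 3 eng mog cd0q0 cd0q1 pd1 0 false true true .pnn 0 1 1 (qsf 0 536870912 536870912 536870912 1) ndB0q0 ndB0q1 pcB1 cut_pp_011_t Ext.none)

def k0_pp_011_t : ∃ t, chk3 f_pp_011_t t 1 1 1 = true :=
  ⟨(l 6), by decide +kernel⟩

theorem c_pp_011_t : CertNE 0 536870912 536870912 536870912 1020054732 13421774 3 eng mog cd0q0 cd0q1 pd1 false true true .pnn 0 1 1
    ndB0q0 ndB0q1 pcB1 cut_pp_011_t Ext.none :=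
  certNE0 (fam := false) (s1 := true) (s2 := true) (a := 0) (b := 1) (c := 1) (cn := .pnn) (n1 := ndB0q0) (n2 := ndB0q1) (pc := pcB1) (cut := cut_pp_011_t) (xt := Ext.none) (P1 := 0) (W1 := 536870912) (P2 := 536870912) (W2 := 536870912) (P3 := 1020054732) (W3 := 13421774) (N0 := 3) (En := eng) (mo := mog) (C1 := cd0q0) (C2 := cd0q1) (C3 := pd1)
    rfl k0_pp_011_t

end Pool.Agent.Strip051.G.I9500_9625.Tab.CS.BB00

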