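import Pool.Agent.Strip051.G.I9500_9625.Tab
import Pool.Agent.Strip051.PB.StripB
import Pool.Agent.Strip051.PB.ExtD3

/-! # Strips, near vertex: certificates 5 (generated) -/

set_option linter.all false
set_option maxRecDepth 100000

namespace Pool.Agent.Strip051.G.I9500_9625.Tab.CS.BB00

open Pool.Agent.Strip051.PB Pool.Agent.Strip051.PB.T
open Pool.Agent.Strip051.G.I9500_9625.Tab

noncomputable def cut_pp_012_s : Cut := Cut.of [[⟨4, 0, 0, 1449551462⟩], [⟨0, 0, 0, 16777216⟩, ⟨1, 1, 0, 16777216⟩, ⟨2, 1, 0, 16777216⟩]]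

noncomputable def f_pp_012_s : ℕ → ℕ → ℕ → ℕ → Bool := onCell 536870912 536870912 0 536870912 1020054732 13421774
    (rowNE 3 eng mog cd0q0 cd0q2 pd1 2 false true true .pnp 0 1 2 (qsf 0 536870912 0 536870912 1) ndB0q0 ndB0q2 pcB1 cut_pp_012_s Ext.none)

def k0_pp_012_s : ∃ t, chk3 f_pp_012_s t 2 1 1 = true :=
  ⟨(b (b (a (l 2) (a (a (a (l 2) (b (a (l 2) (a (l 2) (b (l 16644000) (l 16679136)))) (b (a (l 2) (b (l 16727968) (l 16766936))) (l 3)))) (a (b (c (b (l 16627696) (l 16694976)) (c (l 16728048) (l 16711432))) (b (c (b (l 16750120) (l 16728952)) (b (l 16765056) (l 16775392))) (l 140827769607))) (b (c (b (l 16657688) (l 16699760)) (c (l 16720896) (l 16690016))) (b (c (l 16720008) (l 16740536)) (c (a (l 16724280) (l 16720272)) (l 102709959863)))))) (b (b (a (a (c (l 16649896) (l 16644824)) (c (l 16563648) (l 16532216))) (a (c (b (l 16584304) (l 16654800)) (l 16502224)) (b (l 16472464) (a (l 16530712) (l 16498024))))) (a (a (c (l 16687704) (l 16684392)) (c (l 16679752) (l 16660360)))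 (a (c (l 16675856) (l 16652752)) (b (l 16473808) (l 16565096))))) (a (c (a (b (l 16724704) (b (l 16752456) (l 16749256))) (b (l 16712536) (l 16745288))) (a (b (l 16725528) (b (l 16762448) (l 16772768))) (a (l 16639440) (l 16650192)))) (a (b (c (l 16704456) (l 16680744)) (a (l 16665184) (l 16662136))) (b (c (l 16700432) (l 16651648)) (b (l 16630472) (l 16639016)))))))) (a (l 3) (b (a (l 3) (a (a (c (l 188072496391) (l 195588675479)) (b (b (a (l 16754496) (l 16769544)) (l 126869158535)) (l 3))) (c (a (b (b (l 16754808) (l 16769368)) (l 153175848167)) (b (l 16749752) (b (l 16769024) (l 16724032)))) (b (a (b (l 16753800) (l 16768648)) (l 16719128)) (a (l 130627196343) (a (l 16706048) (l 16726576))))))) (l 3)))) (l 3)), by decide +kernel⟩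

def k1_pp_012_s : ∃ t, chk3 f_pp_012_s t 12 2 1 = true :=
  ⟨(b (b (a (c (b (a (l 16676872) (l 16662616)) (a (l 16598544) (l 16566200))) (b (c (l 16612128) (l 16562896)) (c (a (l 16640200) (l 16587048)) (a (l 16551816) (l 16547256))))) (c (a (b (l 16625456) (l 16631368)) (l 16604896)) (a (b (l 16567352) (l 16514160)) (l 16531208)))) (a (a (b (l 16505408) (c (l 16720744) (l 16655224))) (b (l 16491896) (c (l 16720624) (l 16642656)))) (a (c (b (l 16612880) (l 16695952)) (b (l 16481224) (l 16584616))) (c (b (l 16592312) (l 16657592)) (b (l 16451792) (l 16565488)))))) (b (c (a (a (b (l 16741520) (a (l 16765904) (l 16760736))) (a (l 16684192) (l 16682144))) (a (b (l 16716152) (l 16737568)) (b (l 16683520) (l 16710664)))) (a (a (b (l 16693176) (a (l 16758784) (l 16746776))) (b (l 16663080) (l 16705424))) (a (b (l 16650176) (l 16674776)) (b (l 16592016) (l 16619552))))) (a (b (b (a (a (l 16759704) (l 16713056)) (c (l 16768856) (l 16758384))) (a (l 3) (a (l 16720744) (l 16721512)))) (l 3)) (a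 (b (c (a (l 16764184) (l 16755280)) (a (l 16749256) (l 16734560))) (c (b (l 73718950567) (l 133848429063)) (b (l 67813355095) (l 131164062215)))) (a (b (c (l 16744680) (l 16718912)) (c (l 97878148903) (l 92509419799))) (b (l 16633656) (b (l 16747552) (l 49559795879)))))))), by decide +kernel⟩

def k2_pp_012_s : ∃ t, chk3 f_pp_012_s t 13 2 1 = true :=
  ⟨(b (a (b (c (a (l 16557664) (l 16560432)) (a (l 16526976) (l 16549320))) (b (a (c (l 16594776) (l 16496008)) (l 16453192)) (c (a (l 16614040) (l 16530768)) (a (l 16463152) (l 16434272))))) (b (a (c (l 16550496) (l 16556440)) (l 6)) (a (b (l 16483688) (a (l 16430816) (l 16507176))) (c (l 16522632) (l 16499824))))) (a (b (a (c (c (l 16677000) (l 16583264)) (b (l 16573032) (l 16603192))) (c (c (l 16593976) (l 16563176)) (l 16432168))) (a (b (c (l 16690144) (c (l 16663976) (l 16646176))) (c (b (l 16736584) (l 16753792)) (a (l 16736848) (l 16720016)))) (b (c (l 16677592) (l 16596624)) (c (a (l 16724504) (l 16708808)) (a (l 16681456) (l 16663176))))))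 (b (b (a (c (l 16513264) (l 16449280)) (c (l 16431688) (b (l 16461968) (l 16463520)))) (a (l 16485512) (l 16461512))) (a (b (a (l 16587168) (l 16566752)) (c (a (l 16670776) (l 16673416)) (l 16592712))) (b (l 16471992) (c (l 16601816) (l 16574088))))))), by decide +kernel⟩

def k3_pp_012_s : ∃ t, chk3 f_pp_012_s t 6 3 1 = true :=
  ⟨(b (a (b (a (l 3) (a (l 3) (b (c (l 203104860551) (l 205789207479)) (l 3)))) (l 3)) (b (a (b (a (a (c (l 112910449655) (l 110762948327)) (b (l 16741680) (l 112910501831))) (a (b (l 16727256) (a (l 16731696) (l 16767608))) (b (l 16722088) (l 16735736)))) (a (l 3) (b (a (l 184851246999) (a (l 16698304) (l 16712336))) (l 3)))) (a (b (a (b (l 16710624) (l 16725112)) (c (l 16718848) (l 16661472))) (b (c (a (l 16766976) (l 16752904)) (a (l 16763728) (l 16746496))) (a (a (l 3) (l 110226150423)) (a (l 103783731063) (l 98415055543))))) (b (c (a (l 16680488) (l 16661896)) (a (l 16663432) (l 16643992))) (a (b (c (l 16716128) (l 16707120)) (c (l 16760888) (l 16757208)))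 (b (l 16672696) (a (l 16746240) (l 16716392))))))) (a (l 3) (b (a (l 3) (b (a (c (l 152102122087) (l 157470829623)) (a (b (l 16766432) (l 16750136)) (l 45264845623))) (a (l 3) (c (l 226727202279) (l 225653455415))))) (l 3))))) (l 3)), by decide +kernel⟩

def k4_pp_012_s : ∃ t, chk3 f_pp_012_s t 7 4 1 = true :=
  ⟨(b (l 6) (a (b (a (a (l 16504400) (l 6)) (l 6)) (a (a (l 16456032) (l 16482768)) (a (l 16454880) (l 6)))) (l 6))), by decide +kernel⟩

def k5_pp_012_s : ∃ t, chk3 f_pp_012_s t 7 5 1 = true :=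
  ⟨(b (b (a (c (a (a (l 16467992) (l 16478864)) (a (l 16478952) (l 16489272))) (a (a (l 16456912) (l 16466960)) (a (l 16484312) (l 16508944)))) (a (a (a (l 16496928) (l 6)) (l 6)) (l 6))) (a (a (a (a (l 16427440) (a (l 16453704) (l 16403032))) (c (b (l 16464184) (l 16403016)) (b (l 16440320) (l 16376056)))) (a (a (c (l 16451440) (l 16439816)) (l 16449704)) (c (l 16454808) (l 16465216)))) (a (a (a (l 16454312) (l 16467552)) (c (l 16453568) (l 16488872))) (a (a (l 16479952) (l 6)) (l 6))))) (a (a (a (b (l 16469744) (a (l 16577832) (l 16577424))) (b (l 16424560) (a (l 16555712) (l 16533816)))) (a (b (b (a (l 16399656) (c (l 16434432) (l 16424456))) (l 16456840)) (a (l 16511888) (l 16490088))) (b (c (b (l 16410672) (a (l 16430272) (l 16418064))) (b (l 16434272) (a (l 16426280) (l 16421816)))) (a (l 16468584) (a (l 16452744) (l 16442688)))))) (a (a (b (a (c (l 16427624) (l 16441688)) (c (l 16434872) (l 16456536))) (a (b (a (b (l 16413672) (l 16424568)) (b (l 16412264) (l 16415552))) (l 16441936))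 (b (a (b (l 16416736) (l 16389664)) (l 16416848)) (a (l 16427192) (b (l 16391176) (l 16425048)))))) (b (a (c (l 16445024) (l 16473480)) (l 16391312)) (b (a (c (l 16413816) (l 16438944)) (l 16367440)) (a (a (b (c (l 16377664) (l 16420080)) (l 16415896)) (b (l 16413360) (c (l 16398144) (l 16422544)))) (a (c (l 16379648) (l 16429272)) (l 16401296)))))) (a (b (a (l 16409960) (l 16431224)) (a (c (l 16359608) (l 16423664)) (a (l 16366472) (l 16387376)))) (b (a (l 16434192) (l 16460856)) (a (a (l 16398496) (l 16410312)) (c (l 16445400) (l 16476728)))))))), by decide +kernel⟩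

def k6_pp_012_s : ∃ t, chk3 f_pp_012_s t 28 6 1 = true :=
  ⟨(b (a (b (a (b (l 16640232) (l 16668024)) (l 16571048)) (a (b (l 16674880) (a (l 16707312) (l 16698032))) (b (l 16655408) (l 16662808)))) (b (a (l 16571256) (l 16592104)) (a (c (l 16634064) (l 16644816)) (b (l 16635864) (l 16644192))))) (b (a (b (a (a (l 16734920) (l 16725944)) (c (l 16714752) (l 16709440))) (a (a (b (l 16733440) (l 3)) (c (l 95730679735) (l 100025642951))) (a (b (l 16758808) (l 16751376)) (b (l 16728688) (l 16763824))))) (a (b (c (l 16696112) (l 16690000)) (c (l 16713032) (l 16699184))) (b (c (l 16697496) (l 16691328)) (c (l 16694200) (l 16679672))))) (a (b (a (l 3) (b (a (l 212231700855) (l 91972601831)) (l 3))) (l 3)) (b (a (a (b (l 16747816) (a (l 139754089335) (l 199346821703))) (c (l 86603906231) (l 81235196359))) (c (a (l 16737336) (l 16728040)) (a (l 16735720) (l 16725968)))) (a (b (a (l 3) (l 264845066855)) (l 3)) (b (a (c (l 94656945943) (l 90361975991)) (a (l 16750928) (l 16767400))) (a (l 3) (a (l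 275045622055) (l 220284799015))))))))), by decide +kernel⟩

def k7_pp_012_s : ∃ t, chk3 f_pp_012_s t 29 6 1 = true :=
  ⟨(b (a (b (a (l 16570816) (l 16549504)) (a (b (l 16615088) (l 16644736)) (b (l 16594160) (l 16624080)))) (b (a (l 16528320) (l 16507440)) (a (l 16546520) (b (l 16552504) (l 16582728))))) (a (b (a (b (l 16632432) (c (l 16684960) (l 16680976))) (b (l 16633032) (a (l 16688928) (l 16678824)))) (a (b (c (a (l 16718520) (l 16708784)) (a (l 16716176) (l 16706352))) (a (a (b (l 16762640) (a (l 103246908583) (l 102710053735))) (b (l 16736880) (l 81235229895))) (b (b (l 16725936) (l 16733288)) (c (l 16744608) (l 16744000))))) (b (c (b (l 16707416) (l 16701056)) (b (l 16704944) (l 16699096))) (a (b (c (l 16741552) (l 16740088)) (c (l 16735048) (l 16734176))) (b (l 16709976) (b (l 16721096) (l 16728496))))))) (b (a (b (l 16633480) (a (l 16668664) (l 16658480))) (b (l 16612968) (l 16601248))) (b (a (a (l 16672424) (l 16667568)) (c (l 16652208) (l 16673520))) (a (a (b (l 16700024)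 (c (l 16736312) (l 16735456))) (c (b (l 16711336) (l 16726192)) (l 16697192))) (c (a (l 16687528) (l 16677096)) (b (l 16695976) (l 16689968)))))))), by decide +kernel⟩

def k8_pp_012_s : ∃ t, chk3 f_pp_012_s t 30 6 1 = true :=
  ⟨(b (a (b (a (b (l 16471872) (l 16501952)) (b (l 16452216) (l 16482192))) (a (b (l 16532136) (l 16562384)) (b (l 16512280) (l 16542448)))) (b (a (b (l 16412536) (l 16442272)) (b (b (a (l 16361304) (c (l 16352728) (l 16425856))) (l 16402352)) (l 16382512))) (a (c (l 16479296) (l 16495416)) (c (l 16436864) (l 16459280))))) (a (b (a (b (l 16592664) (l 16601960)) (b (l 16572656) (l 16581888))) (a (b (a (l 16658168) (l 16648096)) (c (b (l 16674608) (l 16668832)) (b (l 16676792) (l 16670688)))) (b (c (l 16630184) (l 16635912)) (a (b (l 16660592) (l 16675616)) (b (l 16650512) (l 16665512)))))) (b (a (b (l 16553064) (l 16562112)) (b (l 16513272) (l 16542984))) (b (a (c (l 16608384) (l 16617832)) (c (l 16586768) (l 16600624))) (a (c (b (l 16631424) (l 16646784)) (b (l 16639560)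 (l 16654056))) (c (b (l 16609792) (l 16625096)) (b (l 16621936) (l 16636112)))))))), by decide +kernel⟩

def k9_pp_012_s : ∃ t, chk3 f_pp_012_s t 31 6 1 = true :=
  ⟨(a (b (b (a (b (a (b (c (l 16395776) (l 16430696)) (c (l 16396296) (l 16430384))) (b (l 16400760) (a (b (l 16410816) (l 16410248)) (l 16349616)))) (a (l 16412000) (c (l 16407528) (l 16443528)))) (b (c (l 16366544) (l 16430664)) (a (b (a (b (l 16390176) (l 16415960)) (b (l 16391680) (l 16392304))) (l 16424848)) (b (a (b (l 16417408) (l 16370952)) (l 16419376)) (c (l 16376672) (l 16441288)))))) (a (b (c (l 16442704) (l 16473600)) (c (l 16473360) (l 16501216))) (b (c (l 16423360) (l 16462136)) (c (l 16453560) (l 16488736))))) (b (a (b (l 16474464) (l 16503712)) (b (l 16415624) (l 16465088))) (a (b (c (l 16565448) (l 16584384)) (c (a (l 16601552) (l 16590808)) (l 16570312))) (b (c (l 16544408) (l 16569032)) (a (l 16537480) (l 16539024)))))) (a (b (a (b (b (l 16403384) (b (l 16385144) (a (b (l 16373744) (l 16396184)) (c (l 16394432)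 (l 16442960))))) (b (l 16369552) (l 16439368))) (b (b (l 16414600) (c (l 16406512) (l 16457320))) (b (b (a (c (l 16397584) (l 16447096)) (b (l 16356968) (l 16400928))) (l 16412312)) (l 16412096)))) (b (b (c (l 16465496) (l 16504608)) (l 16449960)) (b (l 16478080) (c (l 16534824) (l 16583128))))) (b (c (b (b (l 16448032) (l 16359400)) (b (b (a (a (l 16375680) (l 16400232)) (l 16408504)) (a (l 16381424) (b (l 16378328) (l 16378824)))) (l 16398880))) (b (b (l 16480936) (l 16435296)) (b (b (a (b (l 16455176) (l 16429656)) (l 16465608)) (a (l 16455528) (b (l 16456712) (l 16456920)))) (l 16471888)))) (b (b (c (l 16449664) (l 16497104)) (c (l 16479632) (l 16522560))) (b (l 16466040) (c (l 16540104) (l 16574408))))))), by decide +kernel⟩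

def k10_pp_012_s : ∃ t, chk3 f_pp_012_s t 14 7 1 = true :=
  ⟨(b (a (l 3) (b (a (b (a (b (a (l 3) (b (c (l 69960923687) (l 72645277047)) (a (l 3) (l 159081479239)))) (l 3)) (b (a (a (c (l 16751584) (l 16751368)) (l 16746912)) (c (l 16739848) (l 16739344))) (a (a (l 3) (c (l 239075293943) (l 236927807991))) (a (b (l 16752944) (c (l 131701058263) (l 130090444295))) (c (l 66739709607) (l 68887192663)))))) (l 3)) (b (a (c (a (b (l 16730032) (l 16749920)) (b (l 16741008) (l 16734808))) (a (b (l 16729488) (l 16744440)) (b (l 16740608) (l 16734576)))) (a (b (c (l 16730864) (l 16730784)) (c (l 16724768) (l 16724720))) (b (c (l 16720576) (l 16721008)) (c (l 16714584) (l 16714904))))) (a (b (a (b (a (a (l 135996042007) (l 132237964375)) (l 62981633287)) (a (l 3) (a (l 3) (l 141901619703)))) (a (a (b (l 16749488) (l 137069800839)) (l 67276602007)) (c (l 16747064) (l 16746984)))) (a (l 3) (a (l 3) (b (b (a (l 16751904) (l 16775888)) (l 277193136231)) (l 3))))) (b (a (c (a (l 16742104) (l 16737096))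 (a (l 16742048) (l 16737120))) (c (c (l 16729464) (l 16729568)) (c (l 16729672) (l 16729784)))) (a (b (a (a (l 16759472) (l 16772888)) (l 16748200)) (a (a (l 3) (l 271824431383)) (a (c (l 144585991223) (l 144585990407)) (l 16759432)))) (a (b (l 16743232) (l 16761104)) (c (l 16741880) (l 16742032)))))))) (a (l 3) (b (a (l 3) (b (a (l 3) (b (a (b (c (l 144586001383) (l 145122871655)) (l 286319941287)) (a (l 51170473031) (l 16751784))) (a (l 3) (a (l 3) (l 279877495207))))) (l 3))) (l 3))))) (l 3)), by decide +kernel⟩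

def k11_pp_012_s : ∃ t, chk3 f_pp_012_s t 30 28 1 = true :=
  ⟨(a (b (b (a (a (c (l 16710176) (l 16711296)) (c (l 16699688) (l 16701680))) (a (l 16669632) (l 16659512))) (a (a (c (l 16704272) (l 16726120)) (c (l 16714832) (l 16716440))) (a (c (l 16704304) (l 16706832)) (c (l 16693624) (l 16697240))))) (a (c (a (b (a (l 16742832) (l 16737688)) (a (l 16736816) (l 16731712))) (b (a (l 16732520) (l 16727328)) (c (l 16723800) (l 16724216)))) (a (b (l 16725168) (a (l 16737104) (l 16732192))) (b (l 16710192) (c (l 16724640) (l 16725080))))) (a (b (c (l 16703736) (l 16700512)) (c (c (l 16713240) (l 16713976)) (c (l 16714728) (l 16736464)))) (b (c (l 16687856) (l 16711800)) (c (a (l 16726656) (l 16721312)) (a (l 16728760) (l 16723864))))))) (a (b (c (b (l 16641136) (a (l 16682832) (l 16671960))) (a (l 16654296) (l 16650144))) (c (a (b (l 16698040) (a (l 16715952) (l 16710568))) (b (l 16687240) (a (l 16705184) (l 16699816)))) (a (b (l 16702144) (l 16695616)) (b (l 16692648) (l 16686032))))) (b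 (a (b (l 16629320) (c (l 16661152) (l 16669080))) (c (l 16611368) (l 16632168))) (c (a (b (l 16676448) (l 16670824)) (b (l 16665800) (l 16681200))) (a (b (l 16683352) (l 16697672)) (b (l 16674376) (l 16688640))))))), by decide +kernel⟩

def k12_pp_012_s : ∃ t, chk3 f_pp_012_s t 60 29 1 = true :=
  ⟨(b (a (b (a (a (a (b (l 16749288) (b (l 16775720) (l 159081504839))) (c (l 60297280615) (l 59760408263))) (c (l 16757136) (l 16757328))) (a (c (l 16752048) (l 16741920)) (a (l 16748464) (l 16745952)))) (a (b (a (l 3) (b (a (l 154249698647) (l 16775608)) (c (l 295446748759) (l 293836133351)))) (l 3)) (b (a (a (a (l 47412377863) (l 16753376)) (l 16751536)) (c (l 16747656) (l 16747904))) (a (a (l 3) (a (l 298667973415) (l 283635597831))) (a (b (l 16775472) (b (l 200420624663) (l 3))) (c (l 48486119751) (l 16764304))))))) (a (b (c (a (l 16731280) (l 16726048)) (a (l 16732112) (l 16727184))) (c (a (b (l 16742512) (l 16750000)) (c (l 16751448) (l 16741248))) (a (b (l 16742976) (l 16750216)) (c (l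 16741536) (l 16741832))))) (b (c (a (l 16720784) (l 16715480)) (a (l 16722272) (l 16717360))) (c (a (b (l 16753056) (l 16739640)) (c (l 16730352) (l 16730936))) (a (l 16744616) (l 16742320)))))) (a (l 3) (b (a (b (a (a (c (l 289004314775) (l 289004301959)) (b (l 16764816) (l 295983630327))) (a (c (l 47949249111) (l 16758904)) (l 16761656))) (a (l 3) (b (a (l 338933293831) (c (l 159081537639) (l 161228999703))) (l 3)))) (b (c (a (l 16757672) (l 16741992)) (a (l 16747576) (l 16742664))) (a (b (a (l 16764616) (l 16751632)) (a (b (l 283635608471) (l 3)) (b (l 16775344) (l 243907159447)))) (c (l 16760008) (l 16760336))))) (a (l 3) (b (a (c (l 346449487271) (l 343765126055)) (b (a (c (l 160155280135) (l 162302763255)) (l 16769624)) (a (l 3) (b (a (l 336248960871) (l 16776904)) (l 3))))) (l 3)))))), by decide +kernel⟩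

def k13_pp_012_s : ∃ t, chk3 f_pp_012_s t 122 29 1 = true :=
  ⟨(a (b (b (c (c (l 16706856) (l 16708112)) (c (l 16709392) (l 16710688))) (c (a (c (l 16724992) (l 16725768)) (b (l 16737224) (l 16744872))) (a (l 16737432) (l 16732584)))) (b (a (c (b (l 16736776) (l 16754816)) (b (l 16737776) (l 16744952))) (c (b (l 16752504) (l 16749600)) (c (l 16736224) (l 16736824)))) (b (c (a (a (b (l 16751264) (l 16771960)) (l 16750544)) (l 16759752)) (a (a (l 46338639063) (l 16750856)) (l 16757680))) (a (b (a (l 322290309831) (b (l 43117425351) (l 299204865287))) (l 3)) (a (b (l 16769360) (c (l 291151798871) (l 298667993815))) (c (b (l 16750960) (l 16770376)) (l 49022996407))))))) (b (b (c (c (l 16695936) (l 16697720)) (a (l 16723792) (l 16719040))) (c (a (l 16725304) (l 16714776)) (a (l 16727768) (l 16712512)))) (c (b (a (b (l 16747256) (l 16733880)) (c (l 16734840) (l 16725360))) (b (a (l 16751920) (l 16746688)) (a (c (l 16759312) (l 16759536)) (c (l 16754008) (l 16743928))))) (b (a (c (l 16731288)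 (l 16732096)) (c (l 16726376) (l 16727416))) (b (a (l 16752832) (l 16737528)) (a (l 16762496) (l 16755040))))))), by decide +kernel⟩

def k14_pp_012_s : ∃ t, chk3 f_pp_012_s t 123 29 1 = true :=
  ⟨(b (a (b (c (a (l 16709824) (l 16704528)) (l 16691064)) (c (a (l 16709496) (l 16709472)) (a (l 16707800) (l 16703144)))) (b (c (a (l 16699264) (l 16694024)) (l 16681960)) (c (a (l 16693744) (l 16688520)) (b (l 16713640) (l 16699832))))) (c (a (b (a (c (l 16718984) (l 16720232)) (a (l 16715672) (l 16713048))) (a (b (l 16741456) (l 16748984)) (b (l 16746712) (l 16743760)))) (b (a (b (l 16726256) (l 16733904)) (b (l 16721040) (l 16728688))) (a (b (l 16741488) (l 16738544)) (b (l 16736280) (l 16722840))))) (b (a (a (a (l 16723328) (l 16720968)) (b (l 16734848) (l 16741952))) (a (b (l 16730224) (l 16737304)) (l 16718736))) (a (a (c (l 16746376) (l 16747152)) (b (l 16748992) (l 16735008))) (a (c (l 16726208) (l 16727496)) (c (l 16721432) (l 16723024))))))), by decide +kernel⟩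

def k15_pp_012_s : ∃ t, chk3 f_pp_012_s t 31 28 1 = true :=
  ⟨(a (a (b (a (b (l 16609968) (l 16614224)) (b (l 16621296) (l 16615000))) (a (b (c (l 16655280) (l 16665720)) (a (l 16656720) (l 16651896))) (b (c (l 16644512) (l 16656944)) (a (l 16646952) (l 16641944))))) (b (a (c (l 16589632) (l 16627448)) (b (l 16602504) (l 16595968))) (a (b (c (l 16633568) (l 16648120)) (a (l 16636936) (l 16631984))) (b (c (l 16623016) (l 16639896)) (c (l 16638296) (l 16653528)))))) (a (b (c (a (l 16590600) (l 16581928)) (a (l 16612728) (l 16607072))) (a (b (l 16581080) (c (l 16628568) (l 16646264))) (c (b (l 16604624) (l 16619784)) (l 16612656)))) (b (c (a (l 16574072) (l 16567000)) (l 16558632)) (a (b (l 16588384) (l 16581552)) (b (l 16582968) (l 16576024)))))), by decide +kernel⟩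

def k16_pp_012_s : ∃ t, chk3 f_pp_012_s t 31 29 2 = true :=
  ⟨(a (a (b (a (b (a (l 16688816) (l 16683544)) (a (l 16683320) (l 16699016))) (b (l 16654400) (a (l 16693584) (l 16688040)))) (a (b (a (b (l 16715848) (l 16723496)) (b (l 16710568) (l 16718216))) (a (c (l 16723464) (l 16714832)) (c (l 16707520) (l 16709696)))) (b (a (l 16693224) (l 16682400)) (a (a (l 16714984) (l 16701720)) (a (l 16698904) (l 16696072)))))) (b (a (b (l 16643312) (a (l 16682464) (l 16676888))) (b (l 16653560) (a (l 16671448) (l 16666248)))) (b (a (a (l 16697744) (l 16692120)) (b (l 16680168) (l 16666704))) (a (a (b (l 16709032) (l 16716480)) (b (l 16703352) (l 16710728))) (a (b (l 16697792) (l 16705176)) (b (l 16692488) (l 16699968))))))) (a (b (a (b (l 16643752) (l 16637944)) (b (l 16634904) (l 16628984))) (a (b (b (l 16670152) (l 16656696)) (a (b (l 16687552) (l 16695096)) (l 16665840))) (b (a (l 16667296) (l 16663240)) (b (l 16655856) (l 16663728))))) (b (a (b (l 16626904) (l 16621328)) (b (l 16620120) (l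 16635832))) (a (b (a (l 16659624) (l 16656344)) (b (l 16669904) (l 16656960))) (b (l 16631048) (a (l 16669592) (l 16667096))))))), by decide +kernel⟩

def k17_pp_012_s : ∃ t, chk3 f_pp_012_s t 31 29 3 = true :=
  ⟨(a (a (b (a (b (l 16673120) (a (l 16710560) (l 16706072))) (b (l 16685032) (a (l 16701440) (l 16696736)))) (a (b (a (l 16714232) (l 16699192)) (a (c (l 16716712) (l 16718624)) (a (l 16714208) (l 16711840)))) (b (c (l 16690336) (l 16693824)) (a (b (l 16725760) (l 16732568)) (l 16703304))))) (b (a (b (l 16675808) (l 16668680)) (b (l 16667152) (l 16659800))) (b (a (a (l 16705816) (l 16701040)) (a (l 16696440) (l 16692160))) (a (a (l 16698360) (l 16698568)) (a (l 16688688) (l 16684360)))))) (a (b (a (b (l 16659688) (l 16673096)) (b (l 16653456) (l 16666624))) (a (b (a (l 16688160) (l 16684600)) (b (l 16675376) (l 16682072))) (b (l 16659176) (a (l 16695096) (l 16692616))))) (b (a (b (l 16648328) (l 16661784)) (b (l 16644712) (l 16658432))) (a (b (l 16654552) (a (l 16690560) (l 16688888)))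 (b (l 16651720) (l 16666216)))))), by decide +kernel⟩

def k18_pp_012_s : ∃ t, chk3 f_pp_012_s t 60 30 1 = true :=
  ⟨(l 3), by decide +kernel⟩

def k19_pp_012_s : ∃ t, chk3 f_pp_012_s t 122 60 1 = true :=
  ⟨(b (a (b (a (l 3) (b (a (l 3) (b (l 324974669831) (l 3))) (l 3))) (l 3)) (b (a (b (a (b (l 46875524455) (a (l 351281346647) (l 16777016))) (l 16769064)) (a (l 3) (b (a (l 290078061159) (l 16776368)) (l 327122154983)))) (c (a (b (l 16750640) (l 16764816)) (l 16760384)) (a (l 54928583751) (l 16750336)))) (a (l 3) (a (a (l 367924333687) (b (l 308331671559) (l 3))) (b (b (l 16771648) (a (l 311552898951) (l 16776712))) (l 364166248471)))))) (l 3)), by decide +kernel⟩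

def k20_pp_012_s : ∃ t, chk3 f_pp_012_s t 123 60 1 = true :=
  ⟨(b (a (a (b (c (c (l 16756296) (l 16756656)) (c (l 16746536) (l 16746912))) (b (c (a (l 16763368) (l 16750280)) (l 16762400)) (a (b (c (l 102710109159) (l 103246980519)) (a (l 3) (l 266455743079))) (c (l 16769712) (l 16764640))))) (c (b (c (l 16750968) (l 16741056)) (c (l 16761184) (l 16758864))) (b (l 16752432) (c (l 16759176) (l 16759488))))) (a (b (c (b (l 16754648) (l 16747896)) (l 16747704)) (c (c (l 16753232) (l 16753760)) (c (l 16754296) (l 16744360)))) (c (b (l 16740824) (c (l 16747888) (l 16748672))) (b (l 16732544) (l 16752480))))) (a (b (a (b (a (l 3) (b (a (l 358260668599) (l 246054645239)) (l 3))) (l 3)) (b (a (a (b (l 16775856) (l 240685928775)) (l 56539204631)) (c (l 16762984) (l 16752792))) (a (a (l 3) (l 340007055735)) (a (b (l 108615691255) (l 375977399255)) (b (l 16775664) (l 215453001015)))))) (l 3)) (b (a (c (a (b (l 16760376) (l 16769320)) (c (l 16759480) (l 16759768))) (a (l 57612940007) (l 16760208)))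 (a (c (l 16762256) (l 16757840)) (c (l 16759648) (l 16755480)))) (a (b (a (b (a (l 292225546759) (c (l 16776656) (l 16776712))) (a (l 3) (l 351281339239))) (a (b (l 16764984) (c (l 171429591943) (l 16777120))) (l 16771168))) (a (l 3) (a (l 3) (a (l 353428819863) (l 324437800359))))) (b (c (a (l 16762568) (l 16759952)) (a (l 16762920) (l 16760552))) (a (b (c (l 56539202007) (l 16765448)) (a (l 341080793863) (c (l 116668755687) (l 16776992)))) (c (l 16768896) (l 16763920)))))))), by decide +kernel⟩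

def k21_pp_012_s : ∃ t, chk3 f_pp_012_s t 61 61 1 = true :=
  ⟨(a (l 3) (b (a (l 3) (b (a (l 3) (b (a (l 3) (a (c (l 323364057415) (l 321753438743)) (b (l 78014047799) (l 329806509271)))) (l 3))) (l 3))) (l 3))), by decide +kernel⟩

def k22_pp_012_s : ∃ t, chk3 f_pp_012_s t 30 31 1 = true :=
  ⟨(l 3), by decide +kernel⟩

def k23_pp_012_s : ∃ t, chk3 f_pp_012_s t 62 60 1 = true :=
  ⟨(a (b (c (a (a (b (l 16735624) (c (l 16742544) (l 16754088))) (b (l 16730312) (a (l 16749584) (l 16746864)))) (a (b (l 16714304) (l 16732208)) (b (l 16708640) (a (l 16738432) (l 16735552))))) (a (a (b (l 16727928) (l 16745208)) (b (l 16723232) (l 16740472))) (a (b (l 16739320) (l 16735536)) (b (l 16734320) (l 16730440))))) (a (a (c (b (a (l 16751792) (l 16749176)) (a (b (l 16757344) (l 16761040)) (c (l 16756344) (l 16756800)))) (b (a (l 16753136) (l 16740304)) (a (l 16765120) (l 16762752)))) (b (c (a (l 16746512) (l 16743776)) (c (l 16736184) (l 16758184))) (c (a (c (l 16753576) (l 16754168)) (a (l 16751840)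 (l 16750456))) (a (l 16760312) (l 16752616))))) (b (c (a (c (l 16738928) (l 16740208)) (b (l 16742520) (l 16735760))) (a (b (l 16751008) (l 16733352)) (a (l 16748856) (l 16746328)))) (a (c (a (l 16750992) (l 16745600)) (a (l 16750112) (l 16747624))) (c (a (l 16742784) (l 16740008)) (c (l 16743240) (l 16734008))))))) (c (a (b (a (b (l 16713360) (c (l 16730120) (l 16732392))) (b (l 16718144) (l 16715096))) (a (b (a (l 16740120) (l 16737320)) (b (l 16733952) (l 16737816))) (b (a (l 16734568) (l 16731848)) (b (l 16728520) (l 16732440))))) (b (a (b (l 16712608) (l 16720192)) (b (l 16707496) (l 16715208))) (a (b (l 16717440) (b (l 16733800) (l 16727280))) (b (l 16712544) (l 16720480))))) (a (b (a (b (l 16729240) (l 16714904)) (c (l 16705208) (l 16708128))) (a (b (a (l 16743808) (l 16741352)) (b (l 16747728) (l 16740744))) (b (l 16727280) (a (l 16745936) (l 16743640))))) (b (a (a (l 16703088) (l 16700888)) (b (l 16715344) (l 16722240))) (a (b (l 16733280) (l 16729880)) (b (l 16729264) (l 16715440))))))),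 by decide +kernel⟩

def k24_pp_012_s : ∃ t, chk3 f_pp_012_s t 124 122 1 = true :=
  ⟨(a (b (b (a (a (a (a (b (l 16775360) (l 248739000855)) (l 16771680)) (a (l 16769752) (l 16769128))) (c (l 16767336) (l 16762520))) (c (a (l 16764672) (l 16756712)) (a (l 16760104) (l 16757648)))) (a (b (a (a (l 366850596551) (c (l 268066353495) (l 195588783015))) (c (l 16771424) (l 16770280))) (a (l 3) (a (a (l 363092503159) (l 249812739783)) (a (l 105931337527) (l 16776272))))) (c (a (c (l 16763072) (l 16763240)) (l 16765728)) (a (l 16768728) (l 16761072))))) (a (b (a (l 3) (b (a (l 3) (l 363092504967)) (l 3))) (l 3)) (b (a (b (a (c (c (l 257865805911) (l 258402676855)) (l 258939547815)) (l 16773216)) (a (l 3) (c (l 243907159735) (l 307794801799)))) (c (a (c (l 16770088) (l 16764936)) (l 16768816)) (a (l 16770312) (l 16763880)))) (a (l 3) (a (c (l 371145567239) (l 363629368151)) (b (c (a (l 265381999527) (l 16776496)) (l 109689433703)) (l 392083531799))))))) (a (b (b (c (c (l 16752288) (l 16752944)) (c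 (l 16753624) (l 16743816))) (c (a (l 16763040) (l 16755096)) (a (l 16758656) (l 16756232)))) (b (c (a (c (l 16761464) (l 16761712)) (l 16764160)) (a (l 16767336) (l 16759704))) (a (a (b (l 16772984) (c (b (l 16776872) (l 315847867495)) (l 213305512583))) (c (l 16769888) (l 16770096))) (c (c (l 16767808) (l 16762768)) (l 16768328))))) (a (b (c (c (l 16750072) (l 16750864)) (c (l 16751664) (l 16741992))) (b (c (l 16761488) (l 16757312)) (c (l 16766576) (l 16765960)))) (b (c (c (l 16747288) (l 16748224)) (l 16754904)) (c (b (l 16753576) (l 16762616)) (c (l 16756368) (l 16756968))))))), by decide +kernel⟩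

def k25_pp_012_s : ∃ t, chk3 f_pp_012_s t 124 123 1 = true :=
  ⟨(a (l 3) (b (b (a (b (a (a (l 3) (a (l 380272374231) (l 256792064295))) (a (c (b (l 16776120) (l 16775360)) (l 16776624)) (l 16772744))) (a (l 3) (a (b (l 362555635927) (l 3)) (c (c (l 261087031415) (l 261623902519)) (l 262160773335))))) (c (a (a (l 16769632) (l 16768320)) (c (l 16760952) (l 16761248))) (a (a (l 16764632) (l 16763464)) (l 16766952)))) (a (l 3) (b (a (a (c (b (l 179482655591) (l 349133864855)) (l 249275863815)) (c (l 16773672) (l 16776400))) (c (l 16769104) (l 16769416))) (a (a (l 3) (a (l 3) (l 309942284471))) (a (a (b (l 16776720) (l 313700383895)) (l 86603984023)) (l 16772992)))))) (a (l 3) (b (a (l 3) (b (a (l 402820954695) (c (b (l 16776864) (l 316921609207)) (l 206326198711))) (l 3))) (l 3))))), by decide +kernel⟩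

def k26_pp_012_s : ∃ t, chk3 f_pp_012_s t 250 61 1 = true :=
  ⟨(b (a (b (c (a (a (l 16745728) (l 16744384)) (l 16745000)) (a (l 16747280) (l 16744928))) (c (a (c (l 16757712) (l 16753200)) (c (l 16749752) (l 16750640))) (a (c (l 16753944) (l 16754696)) (c (l 16751544) (l 16741968))))) (b (c (a (l 16739720) (l 16737096)) (a (l 16742608) (l 16740344))) (c (a (c (l 16747048) (l 16748096)) (a (l 16745616) (l 16744328))) (a (l 16754952) (l 16747456))))) (a (a (b (c (b (l 16763712) (c (l 16767280) (l 16762288))) (b (l 16759376) (l 16769224))) (b (b (c (a (l 16770792) (l 16764248)) (l 70497852487)) (b (a (c (l 229948521399) (l 227801038071)) (l 16770912)) (a (l 393694150551) (a (l 233169747015) (l 16776704))))) (a (l 3) (c (l 370608698551) (l 392620405895))))) (b (b (c (l 16761088) (l 16757064)) (c (c (l 16759344) (l 16759744)) (l 16765600))) (b (c (c (l 16768344) (l 16768544)) (c (l 16763504) (l 16763704))) (b (b (a (c (l 16776592) (l 16776672)) (l 16770168)) (a (c (l 250349616183) (l 254644583607))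 (l 16773648))) (a (l 3) (c (a (l 300815482807) (l 274508805175)) (b (l 168745237655) (l 365239991495)))))))) (a (b (c (b (l 16753240) (l 16762184)) (b (l 16754784) (l 16758080))) (b (c (c (l 16765664) (l 16760776)) (l 16766560)) (a (b (l 16771992) (c (l 87140853719) (l 16776368))) (c (l 16768816) (l 16769192))))) (c (b (c (l 16756032) (l 16758176)) (b (l 16763256) (c (l 16766720) (l 16767024)))) (b (c (l 16753768) (l 16754616)) (b (l 16764296) (c (l 16762088) (l 16762408)))))))), by decide +kernel⟩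

def k27_pp_012_s : ∃ t, chk3 f_pp_012_s t 251 61 1 = true :=
  ⟨(a (b (c (b (a (l 16734536) (l 16732064)) (a (l 16745048) (l 16742592))) (b (a (l 16738160) (l 16725600)) (a (l 16745280) (l 16743216)))) (c (b (a (c (l 16749480) (l 16750480)) (c (l 16746936) (l 16748120))) (a (b (l 16760712) (c (l 16758856) (l 16759328))) (b (l 16753016) (l 16761848)))) (b (a (c (l 16751496) (l 16742040)) (l 16752552)) (b (a (l 16756856) (l 16754768)) (a (l 16765288) (l 16757912)))))) (b (c (b (a (l 16729680) (l 16727376)) (a (b (l 16746136) (l 16750000)) (l 16737928))) (b (c (l 16742488) (l 16744848)) (a (l 16741248) (l 16728896)))) (a (b (c (a (l 16745736) (l 16744560)) (l 16751224)) (c (b (l 16750616) (l 16759424)) (c (l 16753840) (l 16754808)))) (b (c (b (l 16751472) (l 16755160)) (l 16748696)) (c (b (l 16758760) (l 16751800)) (b (l 16761304) (l 16753872))))))), by decide +kernel⟩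

def k28_pp_012_s : ∃ t, chk3 f_pp_012_s t 63 60 1 = true :=
  ⟨(a (a (b (c (a (b (l 16702792) (l 16710600)) (b (l 16698472) (l 16706368))) (a (l 16699400) (l 16690952))) (c (a (b (l 16718512) (l 16716016)) (b (l 16714336) (l 16701384))) (a (b (l 16725704) (l 16711920)) (c (l 16703240) (l 16707216))))) (b (c (a (b (l 16694504) (l 16702464)) (l 16673920)) (a (l 16688184) (l 16685824))) (c (a (c (l 16696584) (l 16695752)) (a (l 16690888) (l 16689152))) (a (a (l 16703144) (l 16701872)) (a (l 16700744) (l 16699624)))))) (c (a (b (a (l 16670608) (l 16667624)) (a (a (l 16687488) (l 16685872)) (b (l 16700544) (l 16708376)))) (b (a (l 16664792) (l 16683112)) (a (l 16680504) (l 16677560)))) (a (b (a (l 16683840) (l 16682256)) (a (l 16698104) (l 16696256))) (b (b (l 16697752) (l 16683752)) (a (l 16694664) (l 16693168)))))), by decide +kernel⟩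

def k29_pp_012_s : ∃ t, chk3 f_pp_012_s t 63 61 1 = true :=
  ⟨(a (b (a (c (b (a (c (l 16733192) (l 16735944)) (c (l 16728856) (l 16732104))) (a (a (l 16733088) (l 16730960)) (b (l 16736408) (l 16729736)))) (a (b (l 16729664) (b (l 16745520) (l 16727992))) (b (l 16716104) (l 16733592)))) (c (b (a (l 16716104) (l 16701944)) (a (c (l 16732712) (l 16736064)) (l 16720064))) (b (a (l 16713296) (l 16710776)) (a (l 16720200) (l 16717472))))) (a (a (b (c (a (a (l 16741168) (l 16740056)) (b (l 16747080) (l 16750704))) (a (l 16744264) (l 16742520))) (c (a (c (l 16747064) (l 16748408)) (c (l 16744680) (l 16746232))) (a (c (l 16749768) (l 16751144)) (a (l 16749056) (l 16748144))))) (c (b (a (l 16736280) (l 16734168)) (a (a (l 16743760) (l 16742648)) (a (l 16741536) (l 16740440)))) (b (a (l 16730376) (l 16728744)) (a (l 16752040) (l 16745048))))) (c (b (a (a (l 16721608) (l 16740536)) (c (l 16735840) (l 16739232))) (a (a (l 16741432) (l 16736672)) (a (l 16734560) (l 16732488)))) (b (a (l 16736880)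 (l 16733920)) (a (a (l 16743344) (l 16731208)) (a (l 16729600) (l 16728048))))))) (a (a (b (c (b (l 16719424) (l 16705872)) (b (l 16729464) (l 16714936))) (c (b (l 16723144) (a (l 16719952) (l 16738912))) (b (l 16720656) (l 16736288)))) (b (c (b (l 16716008) (l 16702280)) (c (l 16706800) (l 16712280))) (c (b (l 16708888) (c (l 16733984) (l 16737928))) (b (l 16718056) (l 16722968))))) (a (b (c (c (l 16692360) (l 16698328)) (l 16711376)) (c (b (l 16705224) (l 16721616)) (b (l 16715632) (l 16720312)))) (b (c (a (l 16692864) (l 16691240)) (l 16705520)) (c (b (l 16701672) (l 16707392)) (b (l 16713376) (l 16717816))))))), by decide +kernel⟩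

def k30_pp_012_s : ∃ t, chk3 f_pp_012_s t 124 62 1 = true :=
  ⟨(l 3), by decide +kernel⟩

def k31_pp_012_s : ∃ t, chk3 f_pp_012_s t 250 124 1 = true :=
  ⟨(b (a (l 3) (b (b (a (b (a (c (l 275582549015) (l 284709354535)) (l 73182210903)) (a (l 3) (c (l 186461972311) (l 191293815975)))) (c (c (l 16769504) (l 16764408)) (l 16769864))) (c (a (l 385641084055) (a (b (l 16776472) (l 300278610935)) (l 16770728))) (a (l 380809243351) (a (b (l 16776856) (l 301889223847)) (l 16776120))))) (a (l 3) (b (a (l 3) (b (c (l 206863069575) (l 209547416567)) (l 370071830407))) (l 3))))) (l 3)), by decide +kernel⟩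

def k32_pp_012_s : ∃ t, chk3 f_pp_012_s t 251 124 1 = true :=
  ⟨(b (c (a (b (a (c (l 16767784) (l 16768032)) (c (l 16765184) (l 16760360))) (a (b (a (b (l 16776024) (a (l 16777208) (l 16776592))) (l 16769936)) (a (l 331417119463) (a (l 277730030759) (l 16776632)))) (c (l 16770120) (l 16770312)))) (b (a (c (l 16757376) (l 16768456)) (l 16760480)) (a (c (l 16766192) (l 16766560)) (c (l 16763616) (l 16758920))))) (a (a (b (c (l 16768288) (l 16768544)) (b (c (a (l 16776528) (l 16764888)) (l 91435820263)) (a (l 330343382935) (b (l 16776600) (l 231022253031))))) (b (l 16767560) (c (l 16769200) (l 16769400)))) (a (b (l 16764128) (c (l 16766936) (l 16762064))) (b (l 16756832) (l 16764992))))) (a (b (a (c (l 428590754135) (l 424832657943)) (b (a (a (a (l 333027737511) (l 286319964615)) (b (l 16776720) (l 340007057943))) (c (b (l 16775720) (l 16775296)) (l 16774336))) (a (l 3) (a (l 374903668583) (c (l 268066353607) (l 265918867671)))))) (l 3)) (b (a (a (a (b (l 16770088) (b (l 16776576) (l 264308257255)))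 (b (l 16769488) (a (l 16775224) (l 16771000)))) (c (c (l 16769152) (l 16769336)) (l 16772224))) (a (c (l 16769936) (l 16768512)) (c (l 16766712) (l 16767424)))) (a (b (c (a (l 365239986855) (c (b (l 16776672) (l 273971936263)) (b (l 16776704) (l 271287581879)))) (a (l 362018766711) (b (l 16776760) (l 280951252871)))) (l 3)) (b (c (a (l 16773232) (l 16769328)) (a (l 16770792) (l 16769688))) (a (a (b (l 292225544663) (l 3)) (b (l 104857597047) (l 362555636871))) (a (b (l 16771040) (a (l 282561870263) (l 16776960))) (l 16774128)))))))), by decide +kernel⟩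

def k33_pp_012_s : ∃ t, chk3 f_pp_012_s t 125 125 1 = true :=
  ⟨(a (l 3) (b (a (l 3) (b (a (l 3) (b (a (l 3) (b (c (a (l 3) (l 221358587271)) (l 291688673895)) (l 3))) (l 3))) (l 3))) (l 3))), by decide +kernel⟩

def k34_pp_012_s : ∃ t, chk3 f_pp_012_s t 62 63 1 = true :=
  ⟨(l 3), by decide +kernel⟩

def k35_pp_012_s : ∃ t, chk3 f_pp_012_s t 126 124 1 = true :=
  ⟨(b (a (a (b (c (a (l 16758080) (l 16750472)) (a (l 16754824) (l 16752872))) (c (a (l 16762088) (l 16759024)) (a (l 16762928) (l 16755664)))) (c (a (b (l 16748152) (l 16756648)) (b (l 16745864) (l 16749064))) (a (b (l 16750976) (l 16753704)) (c (l 16749712) (l 16751232))))) (c (a (a (b (l 16754096) (l 16746760)) (b (l 16751880) (l 16754976))) (a (a (l 16741288) (l 16740192)) (b (l 16747544) (l 16750544)))) (a (a (a (l 16749096) (l 16748192)) (l 16746864)) (a (l 16745136) (l 16743456))))) (b (a (c (a (a (c (l 16764592) (l 16765080)) (c (l 16762032) (l 16757472))) (a (b (l 16764352) (l 16760776)) (l 16757552))) (a (a (c (l 16760336)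 (l 16760840)) (l 16763752)) (a (l 16761720) (l 16754504)))) (a (c (a (l 16755200) (l 16752880)) (a (l 16752584) (l 16750712))) (c (a (l 16745352) (l 16753584)) (a (l 16759384) (l 16757608))))) (a (a (c (a (a (c (l 16768832) (l 16769032)) (c (l 16767520) (l 16767808))) (c (l 16766872) (l 16766000))) (a (c (l 16770640) (l 16771552)) (c (l 16766432) (l 16766880)))) (c (a (c (l 16762992) (l 16763616)) (a (l 16761464) (l 16760256))) (a (c (l 16759000) (l 16759648)) (l 16762528)))) (a (c (a (b (l 16762872) (l 16759272)) (c (l 16760704) (l 16761952))) (a (l 16760544) (l 16758608))) (c (a (c (l 16758256) (l 16759728)) (l 16746208)) (c (l 16754992) (l 16751376))))))), by decide +kernel⟩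

def k36_pp_012_s : ∃ t, chk3 f_pp_012_s t 252 250 1 = true :=
  ⟨(a (a (b (a (b (a (b (l 16775424) (l 319605962455)) (c (l 95193918871) (l 16776592))) (c (l 396915375847) (l 392083537735))) (a (b (l 16774144) (b (a (l 244980907383) (l 16777024)) (l 3))) (b (l 16772728) (b (l 16773960) (a (l 350207606071) (l 281488128423)))))) (l 3)) (a (b (a (b (l 16772136) (c (l 16775016) (l 16776456))) (c (l 16772192) (l 16772528))) (b (a (c (l 357723799367) (l 354502573959)) (b (a (l 261087033671) (l 16776880)) (l 382419861383))) (l 3))) (a (b (c (l 16771552) (l 16769360)) (b (b (l 16773808) (a (l 278803774807) (l 125795563687))) (l 3))) (b (c (l 16770920) (l 16768816)) (b (a (l 79087791623) (l 16773472)) (a (l 379735506791) (b (l 240149066551) (l 3)))))))) (b (c (a (c (a (l 16767184) (l 16765880)) (a (l 16767512) (l 16766304))) (a (l 16766152) (l 16766232))) (a (c (l 16768592) (l 16767672)) (c (l 16765080) (l 16765664)))) (b (c (a (a (l 16772584) (l 16771304)) (c (l 16766600) (l 16766976))) (a (c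 (l 16772224) (l 16769792)) (c (l 16767360) (l 16767744)))) (a (a (a (b (c (l 16776840) (l 16776896)) (c (l 339470188439) (l 336785833911))) (b (l 16773648) (a (l 278266902951) (l 16776120)))) (c (c (l 16770384) (l 16770488)) (l 16773272))) (a (c (l 16771776) (l 16769560)) (c (l 16770504) (l 16768488))))))), by decide +kernel⟩

def k37_pp_012_s : ∃ t, chk3 f_pp_012_s t 253 250 1 = true :=
  ⟨(a (a (a (b (c (l 16762376) (l 16758592)) (c (c (l 16765544) (l 16766000)) (l 16769320))) (c (b (l 16761160) (c (l 16764248) (l 16764800))) (b (l 16757576) (l 16765656)))) (a (c (b (l 16759952) (l 16764600)) (b (l 16767064) (l 16764624))) (c (b (l 16753504) (l 16762064)) (b (l 16766080) (l 16763608))))) (c (a (b (b (l 16756152) (l 16757776)) (c (l 16759776) (l 16760696))) (b (c (l 16759152) (l 16760568)) (c (l 16757272) (l 16758408)))) (a (b (l 16759384) (c (l 16761632) (l 16757336))) (b (l 16752248) (b (l 16754232) (l 16760824)))))), by decide +kernel⟩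

def k38_pp_012_s : ∃ t, chk3 f_pp_012_s t 252 251 1 = true :=
  ⟨(a (l 3) (b (a (a (c (l 443623144919) (l 437717565063)) (b (a (b (c (c (l 290078063031) (l 291151804839)) (l 293299288631)) (l 3)) (b (c (l 16776672) (l 16776752)) (c (l 300815482167) (l 300815482343)))) (l 3))) (b (c (a (a (c (l 94657048183) (l 95730790279)) (l 16773208)) (c (l 16769544) (l 16769712))) (a (a (c (l 16775240) (l 16776608)) (l 16770784)) (l 16772592))) (b (a (c (a (l 364166250375) (c (l 256255195207) (l 148344140775))) (a (l 360945024935) (b (l 16776968) (l 268603227655)))) (c (l 16774872) (l 16773712))) (a (l 3) (a (a (l 336785833271) (a (l 231559134743) (l 164987138887))) (c (l 16775424) (l 16776808))))))) (a (l 3) (b (a (l 3) (a (l 3) (a (l 430738243383) (a (l 373829925447) (b (l 270750711303) (l 3)))))) (l 3))))), by decide +kernel⟩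

def k39_pp_012_s : ∃ t, chk3 f_pp_012_s t 253 251 1 = true :=
  ⟨(a (b (b (c (a (a (l 16770976) (l 16769712)) (a (l 16765832) (l 16764584))) (a (c (l 16770816) (l 16768512)) (c (l 16765984) (l 16761264)))) (c (a (a (c (l 16772648) (l 16770160)) (c (l 16768696) (l 16768928))) (a (l 16770168) (l 16768912))) (a (a (l 16773648) (l 16771904)) (a (l 16768216) (l 16767160))))) (a (b (a (b (a (a (a (l 189146331367) (l 119889983847)) (l 94657050119)) (c (l 16771088) (l 16776456))) (c (a (l 387788570487) (b (l 16776984) (l 285783096823))) (a (l 383493603223) (b (l 16777024) (l 297594256887))))) (c (c (l 71034725687) (l 16773232)) (c (l 16773336) (l 16773440)))) (a (l 3) (a (b (a (l 328195898007) (b (l 16777072) (l 384567344615))) (l 3)) (a (b (c (l 16776952) (l 16777000)) (l 3)) (b (l 16774056) (c (l 317995351511) (l 313163513479))))))) (b (c (a (c (l 16771800) (l 16769376)) (c (l 16767856) (l 16768160))) (a (l 16772960) (l 16771232))) (a (a (b (c (l 16773528) (l 16776312)) (a (b (l 16776992) (l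 330880253431)) (a (l 106468210855) (l 16774200)))) (c (l 16774632) (l 16773512))) (c (c (l 16772280) (l 16772448)) (c (l 16772616) (l 16770168))))))) (c (b (a (c (a (l 16763896) (l 16762608)) (c (l 16763736) (l 16764064))) (a (l 16763048) (l 16761824))) (b (a (a (l 16769368) (l 16768112)) (c (l 16763304) (l 16763960))) (a (c (c (l 16770216) (l 16770376)) (c (l 16770536) (l 16770688))) (a (l 16768568) (l 16764696))))) (b (a (c (l 16767184) (l 16765232)) (c (l 16762432) (l 16763320))) (a (c (a (l 16770728) (l 16769624)) (a (l 16771072) (l 16767448))) (c (a (l 16765904) (l 16764824)) (a (l 16766456) (l 16760240))))))), by decide +kernel⟩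

def k40_pp_012_s : ∃ t, chk3 f_pp_012_s t 127 62 1 = true :=
  ⟨(a (a (b (c (b (a (l 16736424) (l 16734312)) (a (a (l 16742968) (l 16741856)) (a (l 16740752) (l 16739656)))) (b (a (l 16741832) (l 16729760)) (a (l 16751872) (l 16744928)))) (a (b (c (b (l 16752296) (a (l 16756064) (l 16760128))) (b (l 16750400) (l 16758240))) (a (c (b (l 16760616) (b (l 16767032) (l 16763456))) (b (l 16761392) (l 16766104))) (c (b (l 16758112) (a (l 16761704) (l 16761088))) (b (l 16755176) (l 16765752))))) (b (c (b (l 16744768) (l 16753136)) (c (l 16748976) (l 16750768))) (c (b (c (l 16755672) (l 16762224)) (c (c (l 16758808) (l 16759320)) (a (l 16765904) (l 16764760)))) (b (l 16758984) (c (l 16761128) (l 16762184))))))) (b (c (b (a (l 16732232) (l 16719696)) (a (b (l 16747032) (l 16749992)) (l 16735872))) (b (b (l 16726360) (l 16728568)) (a (l 16743264) (l 16731168)))) (b (c (a (c (l 16748304) (l 16745048)) (b (l 16750784) (l 16743328))) (a (b (l 16757336) (l 16749328)) (a (l 16746784) (l 16745928))))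 (c (a (b (c (l 16758448) (l 16759992)) (a (l 16757776) (l 16756584))) (b (l 16751656) (b (l 16748776) (l 16755608)))) (a (b (l 16757112) (b (l 16753816) (l 16760384))) (b (l 16750048) (l 16757832))))))) (b (c (a (b (b (l 16736272) (l 16718040)) (a (l 16733760) (l 16731672))) (b (a (l 16734696) (l 16732760)) (a (l 16719128) (l 16738072)))) (a (b (l 16735064) (a (l 16729600) (l 16728080))) (b (l 16721856) (b (l 16724840) (l 16726920))))) (b (c (a (a (a (l 16740152) (l 16739048)) (a (l 16737960) (l 16736872))) (a (l 16735264) (l 16733136))) (a (a (l 16744664) (l 16743024)) (a (l 16730944) (l 16729392)))) (b (a (a (c (l 16744128) (l 16748272)) (l 14)) (l 14)) (l 14))))), by decide +kernel⟩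

def k41_pp_012_s : ∃ t, chk3 f_pp_012_s t 252 126 1 = true :=
  ⟨(l 3), by decide +kernel⟩

def k42_pp_012_s : ∃ t, chk3 f_pp_012_s t 506 252 1 = true :=
  ⟨(b (a (l 3) (a (b (a (a (l 3) (l 424295789815)) (b (a (c (l 273971935447) (l 273435066007)) (b (l 16776904) (l 270213840391))) (l 3))) (l 3)) (a (b (b (c (l 16775632) (l 16774088)) (b (a (l 350744477159) (a (l 16777192) (l 16777048))) (l 390472923767))) (l 3)) (a (b (b (l 16773592) (b (l 16776824) (a (l 278803775143) (l 16777152)))) (l 3)) (b (c (l 16774936) (l 16773776)) (a (l 422148306183) (b (l 328732769767) (l 3)))))))) (l 3)), by decide +kernel⟩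

def k43_pp_012_s : ∃ t, chk3 f_pp_012_s t 507 504 1 = true :=
  ⟨(b (a (c (a (c (a (l 16773088) (l 16772424)) (l 16773544)) (c (l 16771432) (l 16771664))) (a (c (l 16773024) (l 16773160)) (c (l 16769272) (l 16769512)))) (c (a (c (l 16770112) (l 16767824)) (a (l 16766712) (l 16771320))) (a (l 16770952) (l 16769896)))) (a (b (a (a (a (b (l 108078823975) (l 367924346343)) (a (b (l 16776816) (l 273971936471)) (l 16776208))) (c (l 16773816) (l 16773936))) (c (c (l 16772784) (l 16772912)) (l 16774424))) (a (b (a (l 416242727543) (a (c (l 225653554727) (l 211694911239)) (l 16775640))) (a (l 3) (c (l 318532221591) (l 316384736647)))) (a (a (c (l 16776008) (l 16776888)) (l 16775248)) (c (l 16773400) (l 16773584))))) (c (a (c (l 16772560) (l 16772104)) (c (l 16770584) (l 16770880))) (a (c (l 16772304) (l 16772512)) (c (l 16768560) (l 16768872)))))), by decide +kernel⟩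

def k44_pp_012_s : ∃ t, chk3 f_pp_012_s t 507 505 1 = true :=
  ⟨(a (b (a (l 3) (a (b (b (a (l 380809248231) (a (l 286319967447) (l 16777088))) (l 3)) (l 3)) (a (b (b (l 16775560) (a (l 320679706279) (l 263234518183))) (l 3)) (b (c (l 16775424) (l 16776808)) (c (l 347523249511) (l 343765155767)))))) (l 3)) (b (a (a (a (b (l 16775488) (b (a (l 128479919191) (l 16777008)) (l 389936053719))) (b (l 16774864) (b (l 16775472) (a (l 237464714935) (l 16776624))))) (c (b (l 16772984) (l 16775168)) (b (l 16773232) (l 16775288)))) (c (c (a (l 16772712) (l 16772048)) (a (l 16772848) (l 16772232))) (c (l 16773368) (l 16772880)))) (b (a (a (l 3) (a (a (l 362555636375) (b (l 274508807383) (l 3))) (c (b (l 16776976) (l 327659028103)) (b (l 16777016) (l 336785833623))))) (a (a (b (l 16775384) (a (l 250886487175) (l 16777024))) (c (l 16773928) (l 16776656))) (c (l 16774752) (l 16773624)))) (a (l 3) (a (b (a (l 375440539591) (a (l 256792066455) (l 122574339111))) (l 3)) (a (b (l 16776256) (c (l 256255195527)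 (l 259476422391))) (c (a (l 16776200) (l 16774080)) (l 16776192)))))))), by decide +kernel⟩

def k45_pp_012_s : ∃ t, chk3 f_pp_012_s t 253 253 1 = true :=
  ⟨(a (l 3) (a (l 3) (a (l 3) (a (l 3) (a (l 3) (a (l 3) (l 14))))))), by decide +kernel⟩

def k46_pp_012_s : ∃ t, chk3 f_pp_012_s t 126 127 1 = true :=
  ⟨(l 3), by decide +kernel⟩

def k47_pp_012_s : ∃ t, chk3 f_pp_012_s t 127 63 1 = true :=
  ⟨(a (b (b (a (a (b (a (c (b (l 16767760) (a (l 16769784) (l 16766528))) (b (l 16766240) (l 16770280))) (c (b (l 16763896) (l 16768208)) (b (l 16765216) (l 16766624)))) (a (a (c (b (l 16772160) (c (l 16774328) (l 16774600))) (b (l 16771992) (c (l 16773392) (l 16773504)))) (b (c (l 16770864) (l 16771456)) (b (a (l 16773808) (l 16772200)) (l 14)))) (a (b (c (l 16770232) (l 16768304)) (c (c (l 16771848) (l 16772056)) (l 16773688))) (b (b (l 16769608) (l 16771048)) (l 14))))) (a (b (c (b (l 16762664) (l 16766960)) (b (l 16764200) (l 16765592))) (a (b (a (l 16769568) (l 16769280)) (l 14)) (l 14)))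 (b (c (b (l 16761440) (l 16763104)) (c (l 16763480) (l 16764296))) (l 14)))) (a (a (b (b (a (l 16761480) (l 16760936)) (l 14)) (l 14)) (l 14)) (l 14))) (l 14)) (l 14)) (l 14)), by decide +kernel⟩

theorem s48_pp_012_s : ∃ t, chk3 f_pp_012_s t 507 252 1 = true := ex3_b k43_pp_012_s k44_pp_012_s

theorem s49_pp_012_s : ∃ t, chk3 f_pp_012_s t 253 252 1 = true := ex3_a k42_pp_012_s s48_pp_012_s

theorem s50_pp_012_s : ∃ t, chk3 f_pp_012_s t 253 126 1 = true := ex3_b s49_pp_012_s k45_pp_012_s

theorem s51_pp_012_s : ∃ t, chk3 f_pp_012_s t 126 126 1 = true := ex3_a k41_pp_012_s s50_pp_012_s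

theorem s52_pp_012_s : ∃ t, chk3 f_pp_012_s t 126 63 1 = true := ex3_b s51_pp_012_s k46_pp_012_s

theorem s53_pp_012_s : ∃ t, chk3 f_pp_012_s t 63 63 1 = true := ex3_a s52_pp_012_s k47_pp_012_s

theorem s54_pp_012_s : ∃ t, chk3 f_pp_012_s t 126 251 1 = true := ex3_a k38_pp_012_s k39_pp_012_s

theorem s55_pp_012_s : ∃ t, chk3 f_pp_012_s t 126 250 1 = true := ex3_a k36_pp_012_s k37_pp_012_s

theorem s56_pp_012_s : ∃ t, chk3 f_pp_012_s t 126 125 1 = true := ex3_b s55_pp_012_s s54_pp_012_s

theorem s57_pp_012_s : ∃ t, chk3 f_pp_012_s t 126 62 1 = true := ex3_b k35_pp_012_s s56_pp_012_s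

theorem s58_pp_012_s : ∃ t, chk3 f_pp_012_s t 63 62 1 = true := ex3_a s57_pp_012_s k40_pp_012_s

theorem s59_pp_012_s : ∃ t, chk3 f_pp_012_s t 63 31 1 = true := ex3_b s58_pp_012_s s53_pp_012_s

theorem s60_pp_012_s : ∃ t, chk3 f_pp_012_s t 125 124 1 = true := ex3_a k31_pp_012_s k32_pp_012_s

theorem s61_pp_012_s : ∃ t, chk3 f_pp_012_s t 125 62 1 = true := ex3_b s60_pp_012_s k33_pp_012_s

theorem s62_pp_012_s : ∃ t, chk3 f_pp_012_s t 62 62 1 = true := ex3_a k30_pp_012_s s61_pp_012_s

theorem s63_pp_012_s : ∃ t, chk3 f_pp_012_s t 62 31 1 = true := ex3_b s62_pp_012_s k34_pp_012_s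

theorem s64_pp_012_s : ∃ t, chk3 f_pp_012_s t 31 31 1 = true := ex3_a s63_pp_012_s s59_pp_012_s

theorem s65_pp_012_s : ∃ t, chk3 f_pp_012_s t 63 30 1 = true := ex3_b k28_pp_012_s k29_pp_012_s

theorem s66_pp_012_s : ∃ t, chk3 f_pp_012_s t 125 61 1 = true := ex3_a k26_pp_012_s k27_pp_012_s

theorem s67_pp_012_s : ∃ t, chk3 f_pp_012_s t 124 61 1 = true := ex3_b k24_pp_012_s k25_pp_012_s

theorem s68_pp_012_s : ∃ t, chk3 f_pp_012_s t 62 61 1 = true := ex3_a s67_pp_012_s s66_pp_012_s

theorem s69_pp_012_s : ∃ t, chk3 f_pp_012_s t 62 30 1 = true := ex3_b k23_pp_012_s s68_pp_012_s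

theorem s70_pp_012_s : ∃ t, chk3 f_pp_012_s t 31 30 1 = true := ex3_a s69_pp_012_s s65_pp_012_s

theorem s71_pp_012_s : ∃ t, chk3 f_pp_012_s t 31 15 1 = true := ex3_b s70_pp_012_s s64_pp_012_s

theorem s72_pp_012_s : ∃ t, chk3 f_pp_012_s t 61 60 1 = true := ex3_a k19_pp_012_s k20_pp_012_s

theorem s73_pp_012_s : ∃ t, chk3 f_pp_012_s t 61 30 1 = true := ex3_b s72_pp_012_s k21_pp_012_s

theorem s74_pp_012_s : ∃ t, chk3 f_pp_012_s t 30 30 1 = true := ex3_a k18_pp_012_s s73_pp_012_s

theorem s75_pp_012_s : ∃ t, chk3 f_pp_012_s t 30 15 1 = true := ex3_b s74_pp_012_s k22_pp_012_s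

theorem s76_pp_012_s : ∃ t, chk3 f_pp_012_s t 15 15 1 = true := ex3_a s75_pp_012_s s71_pp_012_s

theorem s77_pp_012_s : ∃ t, chk3 f_pp_012_s t 31 29 1 = true := ex3_c k16_pp_012_s k17_pp_012_s

theorem s78_pp_012_s : ∃ t, chk3 f_pp_012_s t 31 14 1 = true := ex3_b k15_pp_012_s s77_pp_012_s

theorem s79_pp_012_s : ∃ t, chk3 f_pp_012_s t 61 29 1 = true := ex3_a k13_pp_012_s k14_pp_012_s

theorem s80_pp_012_s : ∃ t, chk3 f_pp_012_s t 30 29 1 = true := ex3_a k12_pp_012_s s79_pp_012_s

theorem s81_pp_012_s : ∃ t, chk3 f_pp_012_s t 30 14 1 = true := ex3_b k11_pp_012_s s80_pp_012_s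

theorem s82_pp_012_s : ∃ t, chk3 f_pp_012_s t 15 14 1 = true := ex3_a s81_pp_012_s s78_pp_012_s

theorem s83_pp_012_s : ∃ t, chk3 f_pp_012_s t 15 7 1 = true := ex3_b s82_pp_012_s s76_pp_012_s

theorem s84_pp_012_s : ∃ t, chk3 f_pp_012_s t 7 7 1 = true := ex3_a k10_pp_012_s s83_pp_012_s

theorem s85_pp_012_s : ∃ t, chk3 f_pp_012_s t 15 6 1 = true := ex3_a k8_pp_012_s k9_pp_012_s

theorem s86_pp_012_s : ∃ t, chk3 f_pp_012_s t 14 6 1 = true := ex3_a k6_pp_012_s k7_pp_012_s

theorem s87_pp_012_s : ∃ t, chk3 f_pp_012_s t 7 6 1 = true := ex3_a s86_pp_012_s s85_pp_012_s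

theorem s88_pp_012_s : ∃ t, chk3 f_pp_012_s t 7 3 1 = true := ex3_b s87_pp_012_s s84_pp_012_s

theorem s89_pp_012_s : ∃ t, chk3 f_pp_012_s t 7 2 1 = true := ex3_b k4_pp_012_s k5_pp_012_s

theorem s90_pp_012_s : ∃ t, chk3 f_pp_012_s t 7 1 1 = true := ex3_b s89_pp_012_s s88_pp_012_s

theorem s91_pp_012_s : ∃ t, chk3 f_pp_012_s t 6 2 1 = true := ex3_a k1_pp_012_s k2_pp_012_s

theorem s92_pp_012_s : ∃ t, chk3 f_pp_012_s t 6 1 1 = true := ex3_b s91_pp_012_s k3_pp_012_s

theorem s93_pp_012_s : ∃ t, chk3 f_pp_012_s t 3 1 1 = true := ex3_a s92_pp_012_s s90_pp_012_s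

theorem s94_pp_012_s : ∃ t, chk3 f_pp_012_s t 1 1 1 = true := ex3_a k0_pp_012_s s93_pp_012_s

theorem c_pp_012_s : CertNE 0 536870912 0 536870912 1020054732 13421774 3 eng mog cd0q0 cd0q2 pd1 false true true .pnp 0 1 2
    ndB0q0 ndB0q2 pcB1 cut_pp_012_s Ext.none :=
  certNE2 (fam := false) (s1 := true) (s2 := true) (a := 0) (b := 1) (c := 2) (cn := .pnp) (n1 := ndB0q0) (n2 := ndB0q2) (pc := pcB1) (cut := cut_pp_012_s) (xt := Ext.none) (P1 := 0) (W1 := 536870912) (P2 := 0) (W2 := 536870912) (P3 := 1020054732) (W3 := 13421774) (N0 := 3) (En := eng) (mo := mog) (C1 := cd0q0) (C2 := cd0q2) (C3 := pd1)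
    rfl (fun _ => rfl) s94_pp_012_s

noncomputable def cut_pp_012_t : Cut := Cut.of [[⟨3, 0, 0, 2845415833⟩], [⟨0, 0, 0, 16777216⟩, ⟨1, 1, 0, 16777216⟩, ⟨2, 1, 0, 16777216⟩]]

noncomputable def f_pp_012_t : ℕ → ℕ → ℕ → ℕ → Bool := onCell 0 536870912 0 536870912 1020054732 13421774
    (rowNE 3 eng mog cd0q0 cd0q2 pd1 0 false true true .pnp 0 1 2 (qsf 0 536870912 0 536870912 1) ndB0q0 ndB0q2 pcB1 cut_pp_012_t Ext.none)

def k0_pp_012_t : ∃ t, chk3 f_pp_012_t t 1 1 1 = true :=
  ⟨(l 6), by decide +kernel⟩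

theorem c_pp_012_t : CertNE 0 536870912 0 536870912 1020054732 13421774 3 eng mog cd0q0 cd0q2 pd1 false true true .pnp 0 1 2
    ndB0q0 ndB0q2 pcB1 cut_pp_012_t Ext.none :=
  certNE0 (fam := false) (s1 := true) (s2 := true) (a := 0) (b := 1) (c := 2) (cn := .pnp) (n1 := ndB0q0) (n2 := ndB0q2) (pc := pcB1) (cut := cut_pp_012_t) (xt := Ext.none) (P1 := 0) (W1 := 536870912) (P2 := 0) (W2 := 536870912) (P3 := 1020054732) (W3 := 13421774) (N0 := 3) (En := eng) (mo := mog) (C1 := cd0q0) (C2 := cd0q2) (C3 := pd1)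
    rfl k0_pp_012_t

noncomputable def cut_pp_022_s : Cut := Cut.of [[⟨4, 0, 0, 1449551462⟩], [⟨0, 0, 0, 33554432⟩, ⟨1, 1, 0, 33554432⟩, ⟨2, 1, 0, 33554432⟩]]

noncomputable def f_pp_022_s : ℕ → ℕ → ℕ → ℕ → Bool := onCell 1073741824 536870912 0 536870912 1020054732 13421774
    (rowNE 3 eng mog cd0q0 cd0q2 pd2 2 false true true .pp 0 2 2 (qsf 0 536870912 0 536870912 2) ndB0q0 ndB0q2 pcB2 cut_pp_022_s Ext.none)

def k0_pp_022_s : ∃ t, chk3 f_pp_022_s t 4 2 1 = true :=
  ⟨(a (b (l 6) (a (b (l 6) (b (l 6) (a (l 16538960) (l 16518472)))) (l 6))) (l 6)), by decide +kernel⟩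

def k1_pp_022_s : ∃ t, chk3 f_pp_022_s t 8 6 1 = true :=
  ⟨(b (a (b (a (b (l 16565864) (l 16563424)) (l 16539848)) (a (a (l 16567968) (l 16601488)) (b (l 16593048) (l 16614888)))) (a (b (l 16567536) (b (l 16565048) (l 16535360))) (b (l 16502944) (a (l 16530544) (l 16487824))))) (a (b (a (b (a (l 16616496) (l 16645896)) (c (l 16617176) (l 16621720))) (a (l 16602848) (b (l 16621152) (l 16594888)))) (a (a (b (l 16643960) (b (l 16659832) (l 16660000))) (b (l 16636688) (a (l 16641304) (l 16628880)))) (a (b (l 16602976) (c (l 16613488) (l 16604800))) (b (l 16567600) (a (l 16609568) (l 16595048)))))) (b (a (a (a (l 16560192) (l 16548592)) (b (l 16557280) (l 16545608))) (b (c (l 16532920) (l 16507368)) (a (l 16540352) (l 16514864)))) (a (b (a (l 16540592) (l 16533936)) (a (l 16530760) (l 16543640))) (b (a (l 16527584) (l 16502304)) (a (l 16516536) (l 16491432))))))), by decide +kernel⟩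

def k2_pp_022_s : ∃ t, chk3 f_pp_022_s t 8 14 1 = true :=
  ⟨(a (b (a (b (a (a (l 16687920) (l 16653856)) (a (l 16640224) (l 16646952))) (a (a (c (l 16688488) (l 16668656)) (l 16653144)) (a (l 16638000) (l 16643024)))) (b (a (b (l 16605512) (l 16602456)) (a (l 16601640) (l 16586080))) (a (c (l 16602328) (l 16592496)) (a (l 16594272) (l 16578368))))) (a (a (a (b (l 16668016) (l 16666712)) (b (l 16651304) (l 16648912))) (b (b (l 16626728) (l 16624664)) (b (l 16644256) (l 16622456)))) (b (a (a (l 16621280) (l 16604608)) (l 16538856)) (a (b (l 16610504) (l 16589192)) (b (l 16578864) (l 16536824)))))) (b (a (b (a (a (l 16570864) (l 16555752)) (l 16534296)) (a (l 16513752) (l 16527176))) (b (a (l 16507432) (l 16482576)) (a (l 16500624) (l 16476096)))) (a (b (a (l 16550728) (l 16522600)) (a (a (l 16556288) (l 16541960)) (b (l 16521328) (l 16500760)))) (b (a (l 16496440) (l 16472312)) (a (l 16495704) (l 1)))))), by decide +kernel⟩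

def k3_pp_022_s : ∃ t, chk3 f_pp_022_s t 8 15 1 = true :=
  ⟨(a (b (b (a (b (a (a (b (l 16687568) (l 16687872)) (l 16669824)) (a (b (l 16652224) (l 16652656)) (b (l 16635232) (l 16635736)))) (a (b (a (b (l 16667280) (a (l 16693520) (l 16684456))) (b (l 16670480) (c (l 16671768) (l 16670464)))) (a (a (l 16696752) (l 16687536)) (a (l 16678456) (l 16669504)))) (b (b (a (l 16653144) (l 16636272)) (a (c (l 16655744) (l 16651720)) (c (l 16640200) (l 16633464)))) (a (c (l 16658128) (l 16654488)) (c (l 16642240) (l 16636088)))))) (b (a (a (b (l 16618696) (l 16619264)) (b (l 16602624) (l 16603264))) (a (b (l 16587024) (l 16587728)) (b (l 16571896) (l 16572672)))) (a (b (b (a (l 16619856) (l 16603904)) (a (c (l 16625112) (l 16615688)) (c (l 16610496) (l 16598400)))) (b (a (c (l 16626200) (l 16617216)) (c (l 16611432) (l 16599824))) (l 14))) (b (a (c (l 16596072) (b (l 16580968) (l 16581600))) (c (l 16582352) (l 16564976))) (a (b (c (l 16597168) (l 16582944)) (l 14)) (c (a (l 16566328) (l 16580512))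 (a (l 16571584) (b (l 16562528) (l 16564520))))))))) (a (l 14) (a (l 14) (a (l 14) (a (l 14) (a (l 14) (l 1))))))) (a (l 14) (a (l 14) (l 1)))) (b (a (b (a (b (a (b (l 16557248) (l 16558088)) (l 302291402951)) (a (b (c (l 16569112) (l 16549144)) (a (c (l 16573856) (l 16555560)) (l 1))) (l 1))) (l 1)) (l 1)) (l 1)) (l 1))), by decide +kernel⟩

def k4_pp_022_s : ∃ t, chk3 f_pp_022_s t 9 3 1 = true :=
  ⟨(b (b (a (b (l 6) (a (b (l 16463032) (l 16447288)) (l 16416304))) (l 6)) (a (b (a (b (l 16452536) (l 16438640)) (a (l 16436808) (l 16440800))) (a (a (b (l 16479064) (l 16468376)) (b (l 16457912) (l 16447408))) (b (l 16388216) (l 1)))) (b (a (l 16335552) (l 1)) (l 1)))) (b (a (b (a (b (a (l 16459776) (l 16439072)) (a (l 16453624) (l 1))) (l 1)) (l 1)) (l 1)) (l 1))), by decide +kernel⟩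

def k5_pp_022_s : ∃ t, chk3 f_pp_022_s t 5 1 1 = true :=
  ⟨(b (l 6) (b (l 1) (l 1))), by decide +kernel⟩

def k6_pp_022_s : ∃ t, chk3 f_pp_022_s t 3 1 1 = true :=
  ⟨(l 1), by decide +kernel⟩

theorem s7_pp_022_s : ∃ t, chk3 f_pp_022_s t 8 7 1 = true := ex3_b k2_pp_022_s k3_pp_022_s

theorem s8_pp_022_s : ∃ t, chk3 f_pp_022_s t 8 3 1 = true := ex3_b k1_pp_022_s s7_pp_022_s

theorem s9_pp_022_s : ∃ t, chk3 f_pp_022_s t 4 3 1 = true := ex3_a s8_pp_022_s k4_pp_022_s

theorem s10_pp_022_s : ∃ t, chk3 f_pp_022_s t 4 1 1 = true := ex3_b k0_pp_022_s s9_pp_022_s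

theorem s11_pp_022_s : ∃ t, chk3 f_pp_022_s t 2 1 1 = true := ex3_a s10_pp_022_s k5_pp_022_s

theorem s12_pp_022_s : ∃ t, chk3 f_pp_022_s t 1 1 1 = true := ex3_a s11_pp_022_s k6_pp_022_s

theorem c_pp_022_s : CertNE 0 536870912 0 536870912 1020054732 13421774 3 eng mog cd0q0 cd0q2 pd2 false true true .pp 0 2 2
    ndB0q0 ndB0q2 pcB2 cut_pp_022_s Ext.none :=
  certNE2 (fam := false) (s1 := true) (s2 := true) (a := 0) (b := 2) (c := 2) (cn := .pp) (n1 := ndB0q0) (n2 := ndB0q2) (pc := pcB2) (cut := cut_pp_022_s) (xt := Ext.none) (P1 := 0) (W1 := 536870912) (P2 := 0) (W2 := 536870912) (P3 := 1020054732) (W3 := 13421774) (N0 := 3) (En := eng) (mo := mog) (C1 := cd0q0) (C2 := cd0q2) (C3 := pd2)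
    rfl (fun _ => rfl) s12_pp_022_s

noncomputable def cut_pp_022_t : Cut := Cut.of [[⟨3, 0, 0, 2845415833⟩], [⟨0, 0, 0, 33554432⟩, ⟨1, 1, 0, 33554432⟩, ⟨2, 1, 0, 33554432⟩]]

noncomputable def f_pp_022_t : ℕ → ℕ → ℕ → ℕ → Bool := onCell 0 536870912 0 536870912 1020054732 13421774
    (rowNE 3 eng mog cd0q0 cd0q2 pd2 0 false true true .pp 0 2 2 (qsf 0 536870912 0 536870912 2) ndB0q0 ndB0q2 pcB2 cut_pp_022_t Ext.none)

def k0_pp_022_t : ∃ t, chk3 f_pp_022_t t 1 1 1 = true :=
  ⟨(l 6), by decide +kernel⟩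

theorem c_pp_022_t : CertNE 0 536870912 0 536870912 1020054732 13421774 3 eng mog cd0q0 cd0q2 pd2 false true true .pp 0 2 2
    ndB0q0 ndB0q2 pcB2 cut_pp_022_t Ext.none :=
  certNE0 (fam := false) (s1 := true) (s2 := true) (a := 0) (b := 2) (c := 2) (cn := .pp) (n1 := ndB0q0) (n2 := ndB0q2) (pc := pcB2) (cut := cut_pp_022_t) (xt := Ext.none) (P1 := 0) (W1 := 536870912) (P2 := 0) (W2 := 536870912) (P3 := 1020054732) (W3 := 13421774) (N0 := 3) (En := eng) (mo := mog) (C1 := cd0q0) (C2 := cd0q2) (C3 := pd2)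
    rfl k0_pp_022_t

noncomputable def cut_pp_101_s : Cut := Cut.of [[⟨4, 0, 0, 1449551462⟩]]

noncomputable def f_pp_101_s : ℕ → ℕ → ℕ → ℕ → Bool := onCell 536870912 536870912 536870912 536870912 1020054732 13421774
    (rowNE 3 eng mog cd0q1 cd0q1 pd0 0 false true true .npn 1 0 1 (qsf 536870912 536870912 536870912 536870912 0) ndB0q1 ndB0q1 pcB0 cut_pp_101_s Ext.none)

def k0_pp_101_s : ∃ t, chk3 f_pp_101_s t 1 1 1 = true :=
  ⟨(l 3), by decide +kernel⟩

theorem c_pp_101_s : CertNE 536870912 536870912 536870912 536870912 1020054732 13421774 3 eng mog cd0q1 cd0q1 pd0 false true true .npn 1 0 1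
    ndB0q1 ndB0q1 pcB0 cut_pp_101_s Ext.none :=
  certNE0 (fam := false) (s1 := true) (s2 := true) (a := 1) (b := 0) (c := 1) (cn := .npn) (n1 := ndB0q1) (n2 := ndB0q1) (pc := pcB0) (cut := cut_pp_101_s) (xt := Ext.none) (P1 := 536870912) (W1 := 536870912) (P2 := 536870912) (W2 := 536870912) (P3 := 1020054732) (W3 := 13421774) (N0 := 3) (En := eng) (mo := mog) (C1 := cd0q1) (C2 := cd0q1) (C3 := pd0)
    rfl k0_pp_101_s

noncomputable def cut_pp_101_t : Cut := Cut.of [[⟨3, 0, 0, 2845415833⟩]]

noncomputable def f_pp_101_t : ℕ → ℕ → ℕ → ℕ → Bool := onCell 536870912 536870912 536870912 536870912 1020054732 13421774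
    (rowNE 3 eng mog cd0q1 cd0q1 pd0 0 false true true .npn 1 0 1 (qsf 536870912 536870912 536870912 536870912 0) ndB0q1 ndB0q1 pcB0 cut_pp_101_t Ext.none)

def k0_pp_101_t : ∃ t, chk3 f_pp_101_t t 1 1 1 = true :=
  ⟨(l 3), by decide +kernel⟩

theorem c_pp_101_t : CertNE 536870912 536870912 536870912 536870912 1020054732 13421774 3 eng mog cd0q1 cd0q1 pd0 false true true .npn 1 0 1
    ndB0q1 ndB0q1 pcB0 cut_pp_101_t Ext.none :=
  certNE0 (fam := false) (s1 := true) (s2 := true) (a := 1) (b := 0) (c := 1) (cn := .npn) (n1 := ndB0q1) (n2 := ndB0q1) (pc := pcB0) (cut := cut_pp_101_t) (xt := Ext.none) (P1 := 536870912) (W1 := 536870912) (P2 := 536870912) (W2 := 536870912) (P3 := 1020054732) (W3 := 13421774) (N0 := 3) (En := eng) (mo := mog) (C1 := cd0q1) (C2 := cd0q1) (C3 := pd0)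
    rfl k0_pp_101_t

noncomputable def cut_pp_102_s : Cut := Cut.of [[⟨4, 0, 0, 1449551462⟩]]

noncomputable def f_pp_102_s : ℕ → ℕ → ℕ → ℕ → Bool := onCell 0 536870912 0 536870912 1020054732 13421774
    (rowNE 3 eng mog cd0q1 cd0q2 pd0 2 false true true .npp 1 0 2 (qsf 536870912 536870912 0 536870912 0) ndB0q1 ndB0q2 pcB0 cut_pp_102_s Ext.none)

def k0_pp_102_s : ∃ t, chk3 f_pp_102_s t 1 1 1 = true :=
  ⟨(a (b (l 3) (l 3)) (l 3)), by decide +kernel⟩

theorem c_pp_102_s : CertNE 536870912 536870912 0 536870912 1020054732 13421774 3 eng mog cd0q1 cd0q2 pd0 false true true .npp 1 0 2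
    ndB0q1 ndB0q2 pcB0 cut_pp_102_s Ext.none :=
  certNE2 (fam := false) (s1 := true) (s2 := true) (a := 1) (b := 0) (c := 2) (cn := .npp) (n1 := ndB0q1) (n2 := ndB0q2) (pc := pcB0) (cut := cut_pp_102_s) (xt := Ext.none) (P1 := 536870912) (W1 := 536870912) (P2 := 0) (W2 := 536870912) (P3 := 1020054732) (W3 := 13421774) (N0 := 3) (En := eng) (mo := mog) (C1 := cd0q1) (C2 := cd0q2) (C3 := pd0)
    rfl (fun _ => rfl) k0_pp_102_s

noncomputable def cut_pp_102_t : Cut := Cut.of [[⟨3, 0, 0, 2845415833⟩]]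

noncomputable def f_pp_102_t : ℕ → ℕ → ℕ → ℕ → Bool := onCell 536870912 536870912 0 536870912 1020054732 13421774
    (rowNE 3 eng mog cd0q1 cd0q2 pd0 0 false true true .npp 1 0 2 (qsf 536870912 536870912 0 536870912 0) ndB0q1 ndB0q2 pcB0 cut_pp_102_t Ext.none)

def k0_pp_102_t : ∃ t, chk3 f_pp_102_t t 1 1 1 = true :=
  ⟨(l 6), by decide +kernel⟩

theorem c_pp_102_t : CertNE 536870912 536870912 0 536870912 1020054732 13421774 3 eng mog cd0q1 cd0q2 pd0 false true true .npp 1 0 2
    ndB0q1 ndB0q2 pcB0 cut_pp_102_t Ext.none :=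
  certNE0 (fam := false) (s1 := true) (s2 := true) (a := 1) (b := 0) (c := 2) (cn := .npp) (n1 := ndB0q1) (n2 := ndB0q2) (pc := pcB0) (cut := cut_pp_102_t) (xt := Ext.none) (P1 := 536870912) (W1 := 536870912) (P2 := 0) (W2 := 536870912) (P3 := 1020054732) (W3 := 13421774) (N0 := 3) (En := eng) (mo := mog) (C1 := cd0q1) (C2 := cd0q2) (C3 := pd0)
    rfl k0_pp_102_t

noncomputable def cut_pp_112_s : Cut := Cut.of [[⟨4, 0, 0, 1449551462⟩]]

noncomputable def f_pp_112_s : ℕ → ℕ → ℕ → ℕ → Bool := onCell 536870912 536870912 0 536870912 1020054732 13421774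
    (rowNE 3 eng mog cd0q1 cd0q2 pd1 2 false true true .dn 1 1 2 (qsf 536870912 536870912 0 536870912 1) ndB0q1 ndB0q2 pcB1 cut_pp_112_s Ext.none)

def k0_pp_112_s : ∃ t, chk3 f_pp_112_s t 1 1 1 = true :=
  ⟨(a (b (a (b (b (a (l 3) (a (b (a (l 143512174055) (b (c (l 84456384215) (l 16775792)) (l 140827850231))) (l 3)) (a (b (c (b (l 16722656) (l 83919520263)) (b (l 16761064) (l 16775912))) (l 144049032423)) (b (c (l 16646808) (l 16734032)) (b (c (l 82845786071) (l 16775912)) (l 140290969143)))))) (l 3)) (l 3)) (a (b (a (b (b (c (a (l 16664192) (l 16643832)) (a (l 16743672) (l 16734816))) (a (c (b (l 16747312) (l 79087696727)) (b (l 16763160) (l 16775808))) (c (l 16694328) (l 16758304)))) (b (a (l 142975274407) (b (c (l 16729008) (l 16775648)) (l 137606601607))) (l 3))) (b (l 1) (l 1))) (l 3)) (l 1))) (l 3)) (l 1)), by decide +kernel⟩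

theorem c_pp_112_s : CertNE 536870912 536870912 0 536870912 1020054732 13421774 3 eng mog cd0q1 cd0q2 pd1 false true true .dn 1 1 2
    ndB0q1 ndB0q2 pcB1 cut_pp_112_s Ext.none :=
  certNE2 (fam := false) (s1 := true) (s2 := true) (a := 1) (b := 1) (c := 2) (cn := .dn) (n1 := ndB0q1) (n2 := ndB0q2) (pc := pcB1) (cut := cut_pp_112_s) (xt := Ext.none) (P1 := 536870912) (W1 := 536870912) (P2 := 0) (W2 := 536870912) (P3 := 1020054732) (W3 := 13421774) (N0 := 3) (En := eng) (mo := mog) (C1 := cd0q1) (C2 := cd0q2) (C3 := pd1)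
    rfl (fun _ => rfl) k0_pp_112_s

noncomputable def cut_pp_112_t : Cut := Cut.of [[⟨3, 0, 0, 2845415833⟩]]

noncomputable def f_pp_112_t : ℕ → ℕ → ℕ → ℕ → Bool := onCell 536870912 536870912 0 536870912 1020054732 13421774
    (rowNE 3 eng mog cd0q1 cd0q2 pd1 0 false true true .dn 1 1 2 (qsf 536870912 536870912 0 536870912 1) ndB0q1 ndB0q2 pcB1 cut_pp_112_t Ext.none)

def k0_pp_112_t : ∃ t, chk3 f_pp_112_t t 1 1 1 = true :=
  ⟨(l 6), by decide +kernel⟩

theorem c_pp_112_t : CertNE 536870912 536870912 0 536870912 1020054732 13421774 3 eng mog cd0q1 cd0q2 pd1 false true true .dn 1 1 2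
    ndB0q1 ndB0q2 pcB1 cut_pp_112_t Ext.none :=
  certNE0 (fam := false) (s1 := true) (s2 := true) (a := 1) (b := 1) (c := 2) (cn := .dn) (n1 := ndB0q1) (n2 := ndB0q2) (pc := pcB1) (cut := cut_pp_112_t) (xt := Ext.none) (P1 := 536870912) (W1 := 536870912) (P2 := 0) (W2 := 536870912) (P3 := 1020054732) (W3 := 13421774) (N0 := 3) (En := eng) (mo := mog) (C1 := cd0q1) (C2 := cd0q2) (C3 := pd1)
    rfl k0_pp_112_t

noncomputable def cut_pp_202_s : Cut := Cut.of [[⟨4, 0, 0, 1449551462⟩]]

noncomputable def f_pp_202_s : ℕ → ℕ → ℕ → ℕ → Bool := onCell 0 536870912 0 536870912 1020054732 13421774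
    (rowNE 3 eng mog cd0q2 cd0q2 pd0 0 false true true .pp 2 0 2 (qsf 0 536870912 0 536870912 0) ndB0q2 ndB0q2 pcB0 cut_pp_202_s Ext.none)

def k0_pp_202_s : ∃ t, chk3 f_pp_202_s t 1 1 1 = true :=
  ⟨(l 3), by decide +kernel⟩

theorem c_pp_202_s : CertNE 0 536870912 0 536870912 1020054732 13421774 3 eng mog cd0q2 cd0q2 pd0 false true true .pp 2 0 2
    ndB0q2 ndB0q2 pcB0 cut_pp_202_s Ext.none :=
  certNE0 (fam := false) (s1 := true) (s2 := true) (a := 2) (b := 0) (c := 2) (cn := .pp) (n1 := ndB0q2) (n2 := ndB0q2) (pc := pcB0) (cut := cut_pp_202_s) (xt := Ext.none) (P1 := 0) (W1 := 536870912) (P2 := 0) (W2 := 536870912) (P3 := 1020054732) (W3 := 13421774) (N0 := 3) (En := eng) (mo := mog) (C1 := cd0q2) (C2 := cd0q2) (C3 := pd0)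
    rfl k0_pp_202_s

noncomputable def cut_pp_202_t : Cut := Cut.of [[⟨3, 0, 0, 2845415833⟩]]

noncomputable def f_pp_202_t : ℕ → ℕ → ℕ → ℕ → Bool := onCell 0 536870912 0 536870912 1020054732 13421774
    (rowNE 3 eng mog cd0q2 cd0q2 pd0 0 false true true .pp 2 0 2 (qsf 0 536870912 0 536870912 0) ndB0q2 ndB0q2 pcB0 cut_pp_202_t Ext.none)

def k0_pp_202_t : ∃ t, chk3 f_pp_202_t t 1 1 1 = true :=
  ⟨(l 3), by decide +kernel⟩

theorem c_pp_202_t : CertNE 0 536870912 0 536870912 1020054732 13421774 3 eng mog cd0q2 cd0q2 pd0 false true true .pp 2 0 2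
    ndB0q2 ndB0q2 pcB0 cut_pp_202_t Ext.none :=
  certNE0 (fam := false) (s1 := true) (s2 := true) (a := 2) (b := 0) (c := 2) (cn := .pp) (n1 := ndB0q2) (n2 := ndB0q2) (pc := pcB0) (cut := cut_pp_202_t) (xt := Ext.none) (P1 := 0) (W1 := 536870912) (P2 := 0) (W2 := 536870912) (P3 := 1020054732) (W3 := 13421774) (N0 := 3) (En := eng) (mo := mog) (C1 := cd0q2) (C2 := cd0q2) (C3 := pd0)
    rfl k0_pp_202_t

noncomputable def cut_pm_001_s : Cut := Cut.of [[⟨4, 0, 0, 1449551462⟩]]

noncomputable def f_pm_001_s : ℕ → ℕ → ℕ → ℕ → Bool := onCell 0 536870912 536870912 536870912 1020054732 13421774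
    (rowNE 3 eng mog cd0q0 cd0q1 pd0 0 false true false .up 0 0 1 (qsf 0 536870912 536870912 536870912 0) ndB0q0 ndB0q1 pcB0 cut_pm_001_s Ext.none)

def k0_pm_001_s : ∃ t, chk3 f_pm_001_s t 1 1 1 = true :=
  ⟨(l 6), by decide +kernel⟩

theorem c_pm_001_s : CertNE 0 536870912 536870912 536870912 1020054732 13421774 3 eng mog cd0q0 cd0q1 pd0 false true false .up 0 0 1
    ndB0q0 ndB0q1 pcB0 cut_pm_001_s Ext.none :=
  certNE0 (fam := false) (s1 := true) (s2 := false) (a := 0) (b := 0) (c := 1) (cn := .up) (n1 := ndB0q0) (n2 := ndB0q1) (pc := pcB0) (cut := cut_pm_001_s) (xt := Ext.none) (P1 := 0) (W1 := 536870912) (P2 := 536870912) (W2 := 536870912) (P3 := 1020054732) (W3 := 13421774) (N0 := 3) (En := eng) (mo := mog) (C1 := cd0q0) (C2 := cd0q1) (C3 := pd0)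
    rfl k0_pm_001_s

noncomputable def cut_pm_001_t : Cut := Cut.of [[⟨3, 0, 0, 2845415833⟩]]

noncomputable def f_pm_001_t : ℕ → ℕ → ℕ → ℕ → Bool := onCell 0 536870912 536870912 536870912 1020054732 13421774
    (rowNE 3 eng mog cd0q0 cd0q1 pd0 0 false true false .up 0 0 1 (qsf 0 536870912 536870912 536870912 0) ndB0q0 ndB0q1 pcB0 cut_pm_001_t Ext.none)

def k0_pm_001_t : ∃ t, chk3 f_pm_001_t t 2 1 1 = true :=
  ⟨(b (l 4) (b (b (l 4) (l 2)) (l 2))), by decide +kernel⟩

def k1_pm_001_t : ∃ t, chk3 f_pm_001_t t 3 2 1 = true :=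
  ⟨(b (l 4) (a (l 4) (b (a (l 4) (b (a (l 4) (b (l 4) (a (l 4) (l 120493853239)))) (a (b (l 4) (a (l 4) (l 120493857879))) (a (b (l 120493855015) (l 16766144)) (b (l 16746632) (l 16742808)))))) (a (b (a (l 4) (b (l 4) (a (l 4) (l 80228547831)))) (a (b (a (l 4) (l 132304961623)) (a (b (l 4) (l 115125148071)) (a (l 16734416) (l 16766136)))) (b (a (a (l 16727184) (l 16770968)) (l 16754440)) (a (l 16749176) (l 16727192))))) (b (a (a (b (l 121030732711) (l 16759288)) (b (l 16763520) (l 16739072))) (a (b (l 16743104) (l 16720000)) (l 16688512))) (a (b (a (l 16733272) (l 16713232)) (l 16674472)) (b (l 16685056) (l 16658056)))))))), by decide +kernel⟩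

def k2_pm_001_t : ∃ t, chk3 f_pm_001_t t 6 6 1 = true :=
  ⟨(b (a (a (l 4) (b (l 4) (b (l 4) (a (l 4) (b (l 4) (a (l 16706840) (l 16752808))))))) (b (a (l 4) (b (a (l 4) (b (l 4) (l 119420127351))) (a (c (l 86670958983) (l 86670958711)) (b (l 16768192) (l 16755072))))) (a (b (a (b (l 4) (a (l 4) (l 16737944))) (c (l 82376006103) (l 81839134455))) (a (b (a (l 16744992) (l 16771144)) (l 16761008)) (b (l 16756472) (l 16740944)))) (b (a (b (l 16763488) (l 16751856)) (l 16736264)) (a (l 16732080) (l 16714384)))))) (a (b (a (l 2) (b (a (l 2) (b (l 239008115367) (l 2))) (l 2))) (l 2)) (b (a (b (a (b (l 16743024) (l 16722664)) (l 16693472)) (a (b (l 16678696) (l 2)) (l 49492533943))) (b (a (l 16699240) (l 16686656)) (a (l 16658480) (l 16648808)))) (a (b (a (l 2) (l 16552728)) (l 2)) (a (b (l 114453814103) (l 221827714983)) (b (l 16580608) (l 16500176))))))), by decide +kernel⟩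

def k3_pm_001_t : ∃ t, chk3 f_pm_001_t t 7 6 1 = true :=
  ⟨(b (a (b (a (b (a (b (l 16752400) (l 16759768)) (l 16743904)) (a (l 16739288) (l 16716568))) (b (a (l 16721384) (l 16699288)) (a (l 16693736) (l 16671232)))) (a (b (a (l 16713776) (l 16690488)) (a (l 16690992) (l 16666656))) (b (a (l 16666968) (l 16643704)) (l 16629408)))) (b (a (b (l 16667312) (l 16638616)) (b (l 16629600) (l 16600000))) (a (b (l 16609920) (l 16560960)) (b (l 16569712) (l 16518336))))) (a (b (a (b (a (l 16672200) (l 16646256)) (a (l 16640880) (l 16630672))) (b (l 16606512) (l 16566512))) (a (b (a (l 16597696) (l 16594640)) (b (l 16516736) (a (l 16487448) (a (l 16493832) (l 16501360))))) (b (a (l 16589696) (l 16493688)) (a (b (l 16489104) (l 16517880)) (b (b (l 16545632) (l 16530288)) (l 16501592)))))) (b (b (a (l 16555520) (l 16509512)) (a (l 16531744) (a (l 16470824) (b (l 16476920) (l 6))))) (a (b (a (b (l 16531080) (l 16496128)) (b (l 16499104) (l 16476072))) (a (l 16447624) (l 6))) (b (a (b (l 16445888)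 (l 6)) (l 6)) (l 6)))))), by decide +kernel⟩

def k4_pm_001_t : ∃ t, chk3 f_pm_001_t t 3 7 1 = true :=
  ⟨(b (a (a (l 2) (b (a (l 2) (b (b (b (l 16432104) (l 2)) (l 2)) (l 2))) (l 2))) (a (b (a (b (a (b (a (b (l 16505224) (l 16505376)) (l 16479056)) (l 16530944)) (b (l 16547976) (l 16538512))) (a (b (l 16553680) (l 2)) (b (l 16490376) (l 16438104)))) (b (a (l 16423392) (l 16354464)) (l 6))) (a (a (l 2) (l 6)) (l 6))) (l 6))) (a (l 2) (l 6))), by decide +kernel⟩

theorem s5_pm_001_t : ∃ t, chk3 f_pm_001_t t 3 6 1 = true := ex3_a k2_pm_001_t k3_pm_001_t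

theorem s6_pm_001_t : ∃ t, chk3 f_pm_001_t t 3 3 1 = true := ex3_b s5_pm_001_t k4_pm_001_t

theorem s7_pm_001_t : ∃ t, chk3 f_pm_001_t t 3 1 1 = true := ex3_b k1_pm_001_t s6_pm_001_t

theorem s8_pm_001_t : ∃ t, chk3 f_pm_001_t t 1 1 1 = true := ex3_a k0_pm_001_t s7_pm_001_t

theorem c_pm_001_t : CertNE 0 536870912 536870912 536870912 1020054732 13421774 3 eng mog cd0q0 cd0q1 pd0 false true false .up 0 0 1
    ndB0q0 ndB0q1 pcB0 cut_pm_001_t Ext.none :=
  certNE0 (fam := false) (s1 := true) (s2 := false) (a := 0) (b := 0) (c := 1) (cn := .up) (n1 := ndB0q0) (n2 := ndB0q1) (pc := pcB0) (cut := cut_pm_001_t) (xt := Ext.none) (P1 := 0) (W1 := 536870912) (P2 := 536870912) (W2 := 536870912) (P3 := 1020054732) (W3 := 13421774) (N0 := 3) (En := eng) (mo := mog) (C1 := cd0q0) (C2 := cd0q1) (C3 := pd0)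
    rfl s8_pm_001_t

noncomputable def cut_pm_011_s : Cut := Cut.of [[⟨4, 0, 0, 1449551462⟩], [⟨0, 0, 0, 26843545⟩, ⟨1, 1, 0, 26843545⟩, ⟨2, 1, 0, 26843545⟩]]

noncomputable def f_pm_011_s : ℕ → ℕ → ℕ → ℕ → Bool := onCell 0 536870912 536870912 536870912 1020054732 13421774
    (rowNE 3 eng mog cd0q0 cd0q1 pd1 0 false true false .pnn 0 1 1 (qsf 0 536870912 536870912 536870912 1) ndB0q0 ndB0q1 pcB1 cut_pm_011_s Ext.none)

def k0_pm_011_s : ∃ t, chk3 f_pm_011_s t 1 1 1 = true :=
  ⟨(l 6), by decide +kernel⟩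

theorem c_pm_011_s : CertNE 0 536870912 536870912 536870912 1020054732 13421774 3 eng mog cd0q0 cd0q1 pd1 false true false .pnn 0 1 1
    ndB0q0 ndB0q1 pcB1 cut_pm_011_s Ext.none :=
  certNE0 (fam := false) (s1 := true) (s2 := false) (a := 0) (b := 1) (c := 1) (cn := .pnn) (n1 := ndB0q0) (n2 := ndB0q1) (pc := pcB1) (cut := cut_pm_011_s) (xt := Ext.none) (P1 := 0) (W1 := 536870912) (P2 := 536870912) (W2 := 536870912) (P3 := 1020054732) (W3 := 13421774) (N0 := 3) (En := eng) (mo := mog) (C1 := cd0q0) (C2 := cd0q1) (C3 := pd1)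
    rfl k0_pm_011_s

noncomputable def cut_pm_011_t : Cut := Cut.of [[⟨3, 0, 0, 2845415833⟩], [⟨0, 0, 0, 26843545⟩, ⟨1, 1, 0, 26843545⟩, ⟨2, 1, 0, 26843545⟩]]

noncomputable def f_pm_011_t : ℕ → ℕ → ℕ → ℕ → Bool := onCell 0 536870912 536870912 536870912 1020054732 13421774
    (rowNE 3 eng mog cd0q0 cd0q1 pd1 0 false true false .pnn 0 1 1 (qsf 0 536870912 536870912 536870912 1) ndB0q0 ndB0q1 pcB1 cut_pm_011_t Ext.none)

def k0_pm_011_t : ∃ t, chk3 f_pm_011_t t 1 2 1 = true :=
  ⟨(a (l 4) (b (l 1) (a (l 4) (l 1)))), by decide +kernel⟩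

def k1_pm_011_t : ∃ t, chk3 f_pm_011_t t 2 6 1 = true :=
  ⟨(a (l 4) (b (l 4) (a (l 4) (b (l 4) (a (b (l 4) (a (l 4) (b (l 4) (a (l 4) (b (l 4) (l 120493855543)))))) (b (a (l 4) (b (a (l 4) (l 127473118839)) (a (l 118346335095) (l 16752104)))) (a (a (b (l 4) (l 71638618967)) (b (l 109756424199) (l 16759552))) (a (b (l 16766800) (l 16724960)) (l 16701496))))))))), by decide +kernel⟩

def k2_pm_011_t : ∃ t, chk3 f_pm_011_t t 4 14 1 = true :=
  ⟨(a (l 4) (b (l 4) (a (l 4) (b (l 4) (a (l 4) (b (l 4) (a (b (l 4) (a (l 4) (b (l 4) (a (b (l 4) (l 281555211431)) (b (a (l 4) (l 129083856711)) (c (l 70564938103) (l 16759864))))))) (b (a (l 4) (b (c (l 283165795959) (l 281555180663)) (a (b (l 4) (c (l 123715147063) (l 125325759175))) (b (c (l 122104540135) (l 16755280)) (l 16751640))))) (a (b (a (c (l 260617245975) (l 260080370967)) (b (a (l 142505623815) (l 124252030263)) (l 16763736))) (a (c (l 74323037527) (l 16761784)) (l 16745752))) (b (c (l 16755280) (l 16751880)) (c (l 16737720) (l 16736080)))))))))))),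 by decide +kernel⟩

def k3_pm_011_t : ∃ t, chk3 f_pm_011_t t 8 30 1 = true :=
  ⟨(a (l 4) (b (l 4) (a (l 4) (b (l 4) (a (l 4) (b (l 4) (a (l 4) (b (l 4) (a (b (l 4) (a (l 4) (b (l 4) (a (c (l 283702713063) (l 282092098839)) (b (a (l 140358166007) (l 235384337271)) (l 16770896)))))) (b (a (l 4) (b (c (l 318062441095) (l 313767470951)) (a (b (l 4) (a (l 155927446919) (l 16776840))) (c (b (l 119420205607) (l 16775648)) (l 74859918327))))) (a (b (b (a (l 4) (c (l 123178299031) (l 125325782375))) (a (a (l 137673812887) (l 121030822263)) (l 16770616))) (c (l 16769112) (l 16763568))) (c (b (l 16763592) (l 16760304)) (l 16764064))))))))))))), by decide +kernel⟩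

def k4_pm_011_t : ∃ t, chk3 f_pm_011_t t 16 62 1 = true :=
  ⟨(a (l 4) (b (l 4) (a (l 4) (b (l 4) (a (l 4) (b (l 4) (a (l 4) (b (l 4) (a (l 4) (b (l 4) (b (a (l 4) (b (l 374433905239) (a (l 4) (a (l 137673835047) (l 16777008))))) (b (a (l 4) (a (a (l 147874382375) (l 16777032)) (l 16776496))) (a (a (l 4) (a (l 147337511575) (l 16777064))) (l 16773520)))))))))))))), by decide +kernel⟩

def k5_pm_011_t : ∃ t, chk3 f_pm_011_t t 32 63 1 = true :=
  ⟨(b (b (l 4) (b (l 4) (b (l 4) (l 14)))) (l 14)), by decide +kernel⟩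

def k6_pm_011_t : ∃ t, chk3 f_pm_011_t t 66 252 1 = true :=
  ⟨(a (l 4) (b (l 4) (a (l 4) (b (l 4) (a (l 4) (a (l 4) (b (l 4) (b (l 4) (b (a (l 4) (a (a (l 4) (l 180623508007)) (a (l 120493965783) (l 16777136)))) (a (a (a (l 4) (l 189750313511)) (a (l 124252062215) (l 123715190519))) (l 120493962631))))))))))), by decide +kernel⟩

def k7_pm_011_t : ∃ t, chk3 f_pm_011_t t 132 506 1 = true :=
  ⟨(a (l 4) (b (l 4) (a (l 4) (a (l 4) (b (l 4) (b (l 4) (a (b (l 4) (c (l 271354691831) (l 273502175479))) (b (a (l 4) (b (l 4) (l 168812347831))) (a (b (l 173644186039) (l 16777112)) (c (l 16776968) (l 16776936))))))))))), by decide +kernel⟩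

def k8_pm_011_t : ∃ t, chk3 f_pm_011_t t 132 1014 1 = true :=
  ⟨(b (a (l 4) (b (a (l 4) (a (a (b (l 4) (c (l 287460819207) (l 290682044679))) (b (c (l 281555239175) (l 284776464647)) (a (b (l 189213442503) (l 100629741335)) (c (l 16777000) (l 16776976))))) (a (a (b (b (l 183307862455) (l 16777128)) (l 16776688)) (c (l 16776704) (l 16775328))) (l 16774896)))) (a (a (l 4) (a (b (l 4) (c (l 297661366551) (l 300882592023))) (b (c (l 291218915607) (l 296587624711)) (b (a (l 214446375367) (c (l 16777168) (l 16777160))) (c (l 16777040) (l 16777008)))))) (a (a (b (b (a (l 198877118919) (l 105998450471)) (c (l 16777024) (l 16776992))) (l 16773952)) (c (l 16776312) (l 16773576))) (c (l 16772800) (l 16772576)))))) (a (a (l 4) (a (l 4) (a (l 4) (b (l 4) (b (l 4) (b (a (l 4) (c (l 90429194487) (l 16777208))) (a (a (l 147337511223) (l 16777168)) (l 16776952)))))))) (b (a (a (a (l 4) (b (c (l 303566946583) (l 306788172055)) (a (b (l 4) (c (l 16777200) (l 16777192))) (c (l 25467813703) (l 16777120)))))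 (b (a (b (a (l 220351955415) (c (l 16777176) (l 16777168))) (c (l 52848230199) (l 16777024))) (l 16773968)) (c (l 16773736) (l 16773632)))) (a (a (l 16774368) (l 16772432)) (l 16771488))) (a (a (a (b (b (a (l 4) (c (l 16777208) (l 16777200))) (a (a (l 135526351159) (l 16777152)) (l 16776936))) (l 16775336)) (c (l 16773768) (l 16773664))) (c (l 16772896) (l 16772688))) (c (l 16771136) (l 16770704)))))), by decide +kernel⟩

def k9_pm_011_t : ∃ t, chk3 f_pm_011_t t 132 1015 1 = true :=
  ⟨(a (b (b (a (l 4) (a (a (l 4) (b (l 4) (b (a (l 4) (c (l 107072192775) (l 116198998263))) (a (a (l 167201734983) (l 16777192)) (l 16776984))))) (a (b (b (a (l 4) (c (l 94187290903) (l 103314096391))) (a (a (l 155927445831) (l 16777176)) (l 16776968))) (l 16775704)) (b (l 16775360) (l 16773464))))) (a (b (l 4) (b (b (a (l 4) (a (l 4) (a (l 4) (l 183307862343)))) (l 14)) (l 14))) (a (b (a (b (a (l 4) (c (l 113514643735) (l 119420223767))) (a (c (l 117809611031) (l 124252061975)) (l 16777000))) (l 100629738903))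 (c (l 99019125207) (l 16775064))) (c (l 16772992) (l 16772792))))) (a (l 14) (a (c (b (l 16774344) (l 16769336)) (b (l 16772840) (l 16769000))) (c (l 16771352) (l 16770952))))) (a (a (b (b (c (l 16772944) (l 16772736)) (l 16772328)) (a (l 16770232) (l 16769616))) (b (c (l 16771232) (l 16770808)) (l 16768672))) (a (b (c (l 16767424) (l 16766864)) (l 16764784)) (b (l 16768488) (l 16763496))))), by decide +kernel⟩

def k10_pm_011_t : ∃ t, chk3 f_pm_011_t t 133 1012 1 = true :=
  ⟨(b (a (l 4) (a (a (l 4) (b (l 4) (a (b (l 4) (a (c (l 238068695591) (l 243974275607)) (c (l 128010158487) (l 128010158535)))) (b (a (c (l 234847470103) (l 232163115575)) (c (l 115662127543) (l 123715191207))) (c (l 16776880) (l 16776832)))))) (b (a (b (b (c (l 284239593799) (l 287460819271)) (a (l 4) (a (l 191360926151) (l 16777120)))) (b (a (a (l 4) (l 197266506183)) (l 16776976)) (a (a (l 202635215303) (l 16777144)) (l 16776664)))) (c (a (l 16775200) (l 16770640)) (l 100629735687))) (a (a (c (l 117809607143) (l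 16775168)) (l 16773232)) (l 16772872))))) (b (a (l 4) (a (a (a (a (l 4) (b (l 4) (c (l 137673834951) (l 141431931351)))) (b (a (l 4) (c (l 129620771271) (l 135526351303))) (c (l 16776920) (l 16776880)))) (c (c (l 114588380711) (l 114051509527)) (a (l 121030832391) (l 16770592)))) (a (l 16772936) (l 16770928)))) (a (a (l 4) (a (l 4) (b (b (l 4) (a (l 4) (a (l 4) (l 93113549191)))) (b (a (l 4) (a (l 103314096487) (l 16776952))) (a (a (l 4) (l 106535321975)) (l 16776800)))))) (a (a (a (a (a (b (l 121030835927) (l 16776552)) (l 116198995031)) (l 16773840)) (l 16773344)) (c (l 16769856) (l 16769592))) (c (l 16767944) (l 16767456)))))), by decide +kernel⟩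

def k11_pm_011_t : ∃ t, chk3 f_pm_011_t t 133 1013 1 = true :=
  ⟨(b (a (a (a (l 4) (b (l 4) (b (b (l 4) (a (l 4) (a (l 4) (l 131231383975)))) (a (a (l 4) (b (l 4) (l 141431931303))) (a (b (l 136600093095) (l 16777040)) (l 16776880)))))) (b (a (b (b (l 4) (a (l 4) (a (l 4) (l 112977772951)))) (b (a (l 4) (a (l 118346482071) (l 16776992))) (a (a (l 4) (l 123178320279)) (l 16776848)))) (b (a (a (b (l 109756547463) (l 16776984)) (l 16776816)) (l 16776328)) (l 16774720))) (b (a (a (a (c (l 57143197399) (l 109756546839)) (l 16776864)) (l 16776376)) (l 16772784)) (a (l 16774768) (l 16772152))))) (a (a (c (l 16771936) (l 16771616)) (a (l 16770776) (l 16770104))) (c (l 16768752) (l 16765416)))) (a (a (b (a (b (a (l 4) (c (c (l 256859177191) (l 257932919015)) (l 256322306279))) (b (a (l 4) (a (l 157001187751) (l 16777072))) (a (a (l 4) (l 161833025959)) (l 16776920)))) (a (b (a (b (l 146800640423) (l 16777056)) (l 16776896)) (l 16776448)) (l 16774808))) (a (a (b (a (b (l 163980509623) (l 16777096))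 (l 16776936)) (l 16776488)) (l 16774856)) (c (l 16772696) (l 16769840)))) (a (c (c (l 16772136) (l 16771984)) (l 16771752)) (c (l 16768200) (l 16767744)))) (a (c (l 16768936) (l 16765624)) (c (l 16768968) (l 16767968))))), by decide +kernel⟩

def k12_pm_011_t : ∃ t, chk3 f_pm_011_t t 133 507 1 = true :=
  ⟨(a (a (b (b (a (b (a (l 16772952) (l 16772320)) (l 16771424)) (c (l 16770968) (l 16767896))) (c (l 16768624) (l 16767312))) (b (a (l 16764576) (l 16763264)) (l 16761528))) (b (b (c (l 16769112) (l 16768440)) (c (l 16764176) (l 16757968))) (c (l 16760728) (l 16759344)))) (a (b (b (a (l 16764144) (l 16768024)) (l 16760976)) (b (l 16753272) (l 16761304))) (b (c (l 16760152) (l 16753472)) (l 16753136)))), by decide +kernel⟩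

def k13_pm_011_t : ∃ t, chk3 f_pm_011_t t 134 504 1 = true :=
  ⟨(a (l 4) (b (l 4) (a (l 4) (b (l 4) (b (a (l 4) (a (l 4) (a (l 4) (b (l 4) (l 165591122567))))) (a (a (l 4) (c (l 269207208311) (l 271891562871))) (b (c (a (l 191360926423) (l 16776992)) (a (l 195119022807) (l 16776960))) (a (a (l 141431930455) (l 16776864)) (l 16776328))))))))), by decide +kernel⟩

def k14_pm_011_t : ∃ t, chk3 f_pm_011_t t 268 505 1 = true :=
  ⟨(b (a (l 4) (a (l 4) (b (l 4) (b (l 4) (b (a (l 4) (c (l 131768254199) (l 126936415943))) (a (a (a (l 183307862567) (l 117809611271)) (l 79154904615)) (l 16776568))))))) (b (a (a (l 4) (b (l 4) (b (a (l 4) (c (c (l 105998450487) (l 109219676615)) (l 163443638007))) (a (a (a (l 216056988231) (l 154853704215)) (a (l 89355452903) (l 16777080))) (l 16776672))))) (b (b (a (a (l 4) (a (a (l 192971538983) (l 128010158599)) (l 88281710167))) (l 16774936)) (a (a (a (a (l 199950860855) (l 137673835015)) (l 99019128439)) (l 16776624)) (l 16772952))) (a (a (l 16775000) (l 16773000))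 (l 16771944)))) (a (b (a (b (a (l 4) (a (a (l 4) (l 164517380631)) (a (l 102777225671) (l 16777104)))) (a (a (a (l 4) (l 171496702503)) (a (l 109219676647) (l 16777120))) (l 16774104))) (c (l 16773472) (l 16773336))) (a (c (l 102240348567) (l 16773392)) (l 16772088))) (c (a (l 16771536) (l 16767576)) (a (l 16768544) (l 16767048)))))), by decide +kernel⟩

def k15_pm_011_t : ∃ t, chk3 f_pm_011_t t 269 505 1 = true :=
  ⟨(b (a (a (b (a (l 4) (b (l 4) (b (l 4) (l 289608302855)))) (b (b (a (l 295513882903) (c (l 114051514071) (l 109219675783))) (a (c (l 124252061399) (l 118346481319)) (l 16776512))) (a (l 16773576) (l 16770248)))) (b (b (a (l 4) (c (l 279944626567) (l 289071432071))) (b (c (a (l 221425697527) (l 96334773927)) (a (l 224646922999) (l 94187290151))) (a (c (l 103850966743) (l 101703482967)) (l 16776448)))) (c (l 16772600) (l 16772360)))) (b (a (b (b (c (a (l 203172086503) (l 16777040)) (a (l 208540795607) (l 16777008))) (a (c (l 85597355687) (l 16777032)) (l 16776392))) (l 16773752))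 (c (l 16772456) (l 16769584))) (c (a (l 16768608) (l 16767232)) (a (l 16768208) (l 16761424))))) (c (b (a (a (l 16768768) (l 16767408)) (l 16765336)) (a (l 16765544) (l 16768008))) (b (a (a (l 16768384) (l 16761616)) (l 16764544)) (a (l 16764776) (l 16766912))))), by decide +kernel⟩

def k16_pm_011_t : ∃ t, chk3 f_pm_011_t t 135 504 1 = true :=
  ⟨(b (b (a (l 4) (a (b (b (l 4) (a (l 4) (c (a (l 4) (l 106535322215)) (l 294977010055)))) (b (a (l 4) (a (a (l 174181057191) (l 16777144)) (l 16776632))) (a (c (a (l 4) (l 120493965943)) (l 303566945047)) (l 16773664)))) (a (b (b (a (a (l 160222413431) (l 16777088)) (l 16776568)) (l 16773592)) (l 16772504)) (c (l 16769224) (l 16768896))))) (a (a (l 4) (a (b (l 4) (a (l 4) (a (l 295513882967) (b (l 4) (l 116735869511))))) (a (b (l 4) (b (a (l 208540795575) (l 103850967655)) (l 16776792))) (b (b (l 4) (a (l 201561473703) (l 87744840375))) (l 110830284327))))) (a (a (b (b (a (a (l 198340248183) (l 159148670503)) (l 16776696)) (l 107072187191)) (l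 16772664)) (c (l 16769384) (l 16769080))) (c (l 16768504) (l 16766632))))) (a (a (a (b (a (l 4) (a (l 4) (b (l 4) (b (l 4) (l 149484995191))))) (b (a (b (a (l 4) (l 156464317063)) (a (l 112977772119) (l 16776808))) (c (l 16776624) (l 16773928))) (l 16772960))) (b (c (b (a (l 4) (c (l 239679308103) (l 240753049927))) (a (b (l 166664864439) (l 16776920)) (l 16776568))) (b (l 321283685559) (a (b (l 173107315367) (l 16776880)) (l 16776488)))) (c (l 16772320) (l 16769424)))) (a (b (b (b (a (a (l 4) (l 123178320487)) (l 16776816)) (c (l 16776528) (l 16776440))) (l 16772816)) (c (l 16768280) (l 16767848))) (b (c (l 16772168) (l 16769256)) (l 16769176)))) (b (a (c (l 16768696) (l 16766848)) (c (l 16764440) (l 16758320))) (a (c (l 16764680) (l 16758576)) (l 16761112))))), by decide +kernel⟩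

def k17_pm_011_t : ∃ t, chk3 f_pm_011_t t 135 505 1 = true :=
  ⟨(b (a (a (b (c (a (l 16768448) (l 16767048)) (l 16768560)) (c (l 16765128) (l 16759064))) (c (c (l 16763816) (l 16763328)) (b (l 16758824) (l 16766344)))) (c (a (l 16760640) (l 16752392)) (a (l 16759304) (l 16750712)))) (a (a (c (l 16761216) (l 16759936)) (c (l 16753056) (l 16751440))) (a (a (l 16749896) (l 16748296)) (l 16748488)))), by decide +kernel⟩

def k18_pm_011_t : ∃ t, chk3 f_pm_011_t t 67 253 1 = true :=
  ⟨(b (a (a (b (c (a (b (a (l 16771672) (l 16767744)) (l 16765944)) (b (l 16765744) (l 16768504))) (a (b (a (l 16768704) (l 16767232)) (l 16765208)) (b (l 16765000) (l 16767448)))) (a (b (c (l 16768736) (l 16767712)) (l 16760408)) (c (l 16759560) (l 16752816)))) (a (b (c (c (l 16762056) (l 16756208)) (l 16760528)) (a (l 16756600) (l 16749864))) (b (c (l 16753696) (l 16752144)) (l 16750856)))) (a (a (b (a (l 16755880) (l 16749088)) (l 16744472)) (b (l 16749360) (l 16751768))) (b (b (l 16743288) (l 16740504)) (c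 (l 16748536) (l 16745128))))) (a (a (a (b (a (l 16757304) (l 16750608)) (l 16746296)) (b (l 16752336) (l 16743304))) (b (c (l 16745152) (l 16742544)) (b (a (l 16752008) (l 16743768)) (b (a (l 16750096) (a (l 16742960) (l 16742512))) (a (c (a (l 16751448) (l 16750888)) (l 16747896)) (l 16749552)))))) (b (a (a (l 16749624) (b (l 16747720) (c (b (l 16747480) (l 16746776)) (l 16743536)))) (b (a (l 16744416) (c (b (l 16743808) (l 16733136)) (l 16739704))) (a (c (b (l 16734688) (l 16746288)) (b (l 16741048) (l 16741536))) (c (l 16746568) (l 16740880))))) (a (b (a (c (b (l 16748400) (a (l 16748488) (l 16748656))) (b (l 16744776) (l 16744632))) (c (b (l 16747432) (l 16749944)) (l 16743792))) (c (l 16732104) (l 16746840))) (c (l 16737984) (l 16724672)))))), by decide +kernel⟩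

def k19_pm_011_t : ∃ t, chk3 f_pm_011_t t 132 127 1 = true :=
  ⟨(b (b (a (b (a (l 14) (a (l 14) (b (l 16768848) (l 14)))) (l 14)) (b (a (b (c (l 16764800) (l 16763904)) (l 16762056)) (c (l 16761288) (l 16759952))) (a (c (l 16754176) (l 16752592)) (b (l 16762392) (a (l 16760768) (c (b (l 16761000) (l 16760240)) (l 16758552))))))) (b (a (l 14) (a (l 14) (a (l 14) (b (c (b (l 16761168) (l 16742904)) (l 16748632)) (l 14))))) (l 14))) (l 14)), by decide +kernel⟩

def k20_pm_011_t : ∃ t, chk3 f_pm_011_t t 133 127 1 = true :=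
  ⟨(a (a (b (b (b (a (l 16758640) (l 16752048)) (b (l 16759696) (b (a (l 16758664) (c (l 16758976) (l 16756488))) (a (c (l 16754608) (l 16757256)) (l 16737952))))) (b (c (b (l 16743080) (l 16743224)) (b (l 16738608) (l 16741848))) (a (l 14) (b (l 16744576) (l 14))))) (l 14)) (b (b (b (l 16753920) (a (b (l 16752520) (c (b (l 16758904) (l 16761528)) (l 16751512))) (b (b (l 16756800) (a (l 16751176) (l 16750984))) (l 16748624)))) (b (c (b (l 16745056) (l 16739184)) (l 16751256)) (c (b (l 16731816) (l 16724440)) (l 16744552)))) (b (b (b (c (l 16717064) (l 16731440)) (l 14)) (l 14)) (l 14)))) (b (b (b (b (l 16746960) (a (l 16751296) (c (b (l 16755720) (a (l 16755688) (l 16755680))) (b (l 16752960) (l 16747440))))) (b (a (c (b (a (l 16757016) (l 16756664)) (l 16737616)) (b (l 16748912) (l 16754952))) (c (l 16738232) (l 16754624))) (c (l 16753096) (l 16747144)))) (b (c (b (l 16745784) (a (l 16735176) (l 16731216))) (c (l 16743664) (l 16739200))) (c (c (b (l 16722816) (l 16714936)) (b (l 16728864)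 (l 16722024))) (c (l 16732104) (l 16738856))))) (a (b (c (b (b (l 16713072) (l 16705696)) (b (l 16698312) (l 14))) (b (l 16726256) (l 16715784))) (l 14)) (b (c (b (b (l 16709128) (l 16701752)) (b (l 16694368) (l 16686984))) (b (l 16723736) (l 16713272))) (a (l 14) (b (b (c (l 16678616) (l 16704816)) (l 14)) (l 14))))))), by decide +kernel⟩

def k21_pm_011_t : ∃ t, chk3 f_pm_011_t t 67 254 1 = true :=
  ⟨(b (a (b (a (b (a (a (l 16753784) (c (l 16748864) (l 16751104))) (c (b (a (l 16752992) (l 16752192)) (l 16748400)) (b (l 16749568) (l 16749864)))) (b (a (c (a (l 16754432) (l 16754856)) (l 16751256)) (l 16732872)) (c (l 16737024) (l 16752832)))) (a (b (c (l 16743504) (l 16749320)) (l 16740264)) (b (l 16742272) (l 16736064)))) (c (a (b (l 16741008) (l 16740024)) (b (l 16739624) (l 16732304))) (a (c (l 16737872) (l 16733936)) (l 16741856)))) (c (b (a (l 16743648) (l 16735584)) (a (c (l 16725096) (l 16731736)) (c (l 16716984) (l 16725032)))) (b (a (l 16741200) (l 16731120)) (a (l 16737168)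 (l 16737320))))) (c (a (b (a (c (b (l 16730008) (l 16722144)) (l 16731968)) (b (l 16724976) (l 16717648))) (a (c (b (l 16714280) (l 16706400)) (l 16718312)) (b (l 16710304) (l 16702960)))) (b (c (a (l 16709432) (l 16701344)) (a (l 16718136) (l 16711448))) (c (a (l 16693736) (l 16685672)) (a (l 16704520) (l 16697856))))) (a (b (a (c (l 16737936) (l 16739328)) (l 16736112)) (a (c (l 16726400) (l 16734608)) (l 16725664))) (b (a (l 16731424) (l 16726888)) (a (l 16720992) (l 16716472)))))), by decide +kernel⟩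

def k22_pm_011_t : ∃ t, chk3 f_pm_011_t t 67 255 1 = true :=
  ⟨(c (b (b (a (c (a (b (l 16698520) (l 16690624)) (a (l 16688288) (l 16684144))) (a (l 16704648) (l 16697688))) (a (b (l 16688104) (l 16680760)) (b (l 16680752) (l 16673416)))) (a (c (a (b (l 16682728) (l 16674816)) (a (l 16672504) (l 16668376))) (a (b (l 16715360) (l 16708512)) (l 16684024))) (a (c (a (l 16664280) (l 16660232)) (l 16677248)) (b (l 16666072) (l 16648240))))) (b (c (a (a (b (l 16666904) (a (l 16682048) (l 16677856))) (b (l 16658584) (l 16650664))) (a (a (l 16648488) (l 16644448)) (a (l 16640448) (l 16636488)))) (a (a (b (l 16701664) (l 16694808)) (l 16670352)) (b (l 16663688) (l 16656864)))) (a (b (a (c (c (l 16668064) (l 16675976)) (l 16687952)) (c (l 16642744) (l 16681056))) (a (a (l 14) (a (l 16652880) (l 16651040))) (a (l 16648320) (l 16644688)))) (b (b (a (l 16645784) (l 16638488)) (c (a (l 16653496) (l 16624568)) (l 16648224))) (a (l 16628880) (l 16632312)))))) (b (b (a (a (c (l 16714864) (l 16725232))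 (l 16709976)) (c (l 16701336) (l 16715320))) (a (c (a (l 16703328) (l 16697824)) (l 16713824)) (c (l 16689848) (l 16706008)))) (b (c (a (a (l 16691800) (l 16686312)) (l 16678368)) (a (l 16704504) (l 16696720))) (a (b (a (l 16691328) (l 16686568)) (a (l 16687176) (l 16682520))) (b (a (l 16681872) (l 16677384)) (l 16675888)))))), by decide +kernel⟩

def k23_pm_011_t : ∃ t, chk3 f_pm_011_t t 34 124 1 = true :=
  ⟨(a (l 4) (b (l 4) (a (l 4) (b (l 4) (a (l 4) (b (l 4) (a (b (l 4) (b (b (l 4) (c (l 319136193767) (l 318599319975))) (a (c (l 321820550183) (l 315914967815)) (a (a (l 265985980231) (l 92039805831)) (l 16771128))))) (b (a (c (b (l 4) (l 306788165623)) (l 311083135991)) (c (b (l 299808844295) (a (l 16775632) (l 16776200))) (b (a (l 4) (l 236458081735)) (l 80765501559)))) (a (a (b (a (l 174717926407) (l 16775560)) (l 16775464)) (l 92039797431)) (l 16770064)))))))))), by decide +kernel⟩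

def k24_pm_011_t : ∃ t, chk3 f_pm_011_t t 68 250 1 = true :=
  ⟨(a (l 4) (b (l 4) (a (l 4) (b (l 4) (a (a (l 4) (a (l 4) (b (l 4) (c (l 330947357127) (l 324504902231))))) (b (a (l 4) (a (l 4) (c (l 319673068119) (l 313767484743)))) (b (a (c (l 318599327623) (l 313230615719)) (a (b (l 131231384551) (l 16776704)) (l 16771008))) (a (a (b (l 155390575463) (l 16776784)) (l 16771104)) (l 16769816))))))))), by decide +kernel⟩

def k25_pm_011_t : ∃ t, chk3 f_pm_011_t t 136 251 1 = true :=
  ⟨(b (a (l 4) (b (l 4) (a (l 4) (b (l 4) (a (a (c (l 329336747463) (l 322357426423)) (b (l 4) (a (b (l 184918475511) (l 16776888)) (l 170959827687)))) (b (a (b (l 4) (a (l 183307862695) (l 16777136))) (b (l 180623506807) (l 16776608))) (l 16773232))))))) (a (b (a (l 4) (b (l 4) (b (a (l 4) (a (l 334168586023) (b (a (l 4) (l 294977010631)) (l 16776896)))) (a (a (l 343832262551) (b (a (l 4) (l 164517380807)) (l 66806873287))) (c (l 125862668871) (l 16773496)))))) (a (a (b (b (l 4) (b (l 364770228503) (a (l 214983246855)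 (a (l 108682805895) (l 16776944))))) (a (c (c (l 123715184631) (l 123178313351)) (c (l 122641442135) (l 122104570919))) (l 16772680))) (b (b (b (l 355106551847) (a (l 206393312135) (a (l 16777128) (l 16776880)))) (c (c (l 16776400) (l 16774384)) (l 125862668615))) (c (l 16769048) (l 16768704)))) (b (a (b (c (l 133378861783) (l 121030830263)) (l 16769536)) (a (l 16771712) (l 16768288))) (c (l 16766784) (l 16766176))))) (b (b (b (a (a (l 4) (a (b (l 4) (l 292292655687)) (b (a (l 223036310119) (l 16776992)) (l 16776760)))) (c (l 94187281095) (l 16772384))) (b (a (a (c (l 322357427223) (l 325578652359)) (l 122104573143)) (l 16771344)) (a (a (a (a (l 4) (l 16777520)) (l 16776832)) (l 16770408)) (l 16770568)))) (a (c (a (b (l 16773536) (l 16764248)) (l 16768680)) (a (l 99555989895) (l 16763056))) (c (l 16766344) (l 16765688)))) (a (c (b (l 16766568) (l 16758456)) (a (l 16765200) (l 16763464))) (c (c (l 16757032) (l 16756456)) (l 16759520)))))), by decide +kernel⟩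

def k26_pm_011_t : ∃ t, chk3 f_pm_011_t t 137 251 1 = true :=
  ⟨(b (a (b (a (b (l 4) (a (l 4) (c (l 363159611191) (l 354569670119)))) (b (a (l 4) (c (l 351885321543) (l 344369133543))) (b (a (c (l 355106549543) (l 347590352743)) (c (a (l 172033572295) (l 16776640)) (a (l 168812346727) (l 16776568)))) (a (c (a (l 189750312439) (l 16776712)) (a (l 268133463799) (l 16776648))) (l 16770232))))) (a (a (b (b (l 4) (a (b (l 4) (l 169886088519)) (b (l 157538057511) (l 16776520)))) (c (l 16769856) (l 16769616))) (b (b (a (b (l 4) (l 145190026503)) (b (l 136600091815) (l 16776440))) (l 16773048)) (l 16770032))) (c (b (a (l 16769672) (l 16762824)) (l 16765872)) (b (l 16768512) (l 16759928))))) (b (a (b (b (a (c (l 333094842103) (l 326115516855)) (a (b (l 162906768375) (l 16776864)) (l 16773816))) (a (a (b (l 177402283015) (l 16776944)) (l 124252057031)) (l 16770032))) (c (l 16769968) (l 16768280))) (c (b (l 16768440) (l 16765368)) (b (l 16768040) (l 16759368)))) (a (c (c (l 16764328) (l 16763888))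 (c (l 16758192) (l 16757736))) (c (l 16760776) (l 16759504))))) (c (a (b (a (c (l 16764840) (l 16764424)) (c (l 16756456) (l 16755856))) (b (l 16758608) (l 16750432))) (b (b (l 16757912) (l 16749664)) (l 16747800))) (a (b (a (a (l 16764680) (l 16757656)) (l 16760184)) (b (l 16751824) (l 16748552))) (b (b (l 16751056) (l 16747704)) (l 16742704))))), by decide +kernel⟩

def k27_pm_011_t : ∃ t, chk3 f_pm_011_t t 138 250 1 = true :=
  ⟨(b (a (l 4) (b (l 4) (a (b (l 4) (b (l 4) (a (l 4) (c (a (l 195655894183) (l 134452608215)) (a (l 203172086887) (l 131231382567)))))) (b (b (l 4) (a (l 4) (a (b (l 4) (l 136063222807)) (b (l 124788933671) (l 16776648))))) (b (a (c (a (l 190824055847) (l 112440900775)) (l 259006656887)) (l 16773208)) (c (l 16772528) (l 16769680))))))) (a (b (a (b (l 4) (a (l 4) (a (l 4) (c (l 307325040103) (l 303030072663))))) (b (b (l 4) (a (l 4) (a (l 336852936823) (b (l 193508410423) (l 16777008))))) (a (b (a (l 4) (b (l 217667601431) (l 16776424))) (c (l 148411246967) (l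 16773984))) (c (b (l 16773664) (l 16764272)) (l 100092859655))))) (a (b (b (a (c (l 305177555159) (l 300882585623)) (c (a (l 16776848) (l 16776120)) (l 85597350071))) (a (a (b (l 189213441415) (l 16776616)) (l 16770912)) (l 16769600))) (c (l 16768216) (l 16767792))) (c (b (l 16767992) (l 16759616)) (b (l 16767544) (l 16758808))))) (a (b (b (a (c (b (a (l 208003925159) (l 152169348439)) (l 16770952)) (b (a (l 209614537911) (l 149484993719)) (l 16770832))) (c (l 16771376) (l 16769856))) (c (l 16767760) (l 16767280))) (b (a (l 16765080) (l 16758032)) (l 16760856))) (b (c (b (l 16767520) (l 16759080)) (b (l 16761768) (l 16758216))) (c (l 16759568) (l 16752928)))))), by decide +kernel⟩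

def k28_pm_011_t : ∃ t, chk3 f_pm_011_t t 139 250 1 = true :=
  ⟨(b (a (b (a (b (l 4) (a (l 4) (b (l 4) (c (a (l 153779962855) (l 16776792)) (l 230015626951))))) (b (b (c (l 336852941463) (l 331484217799)) (a (l 339537293255) (a (b (l 199413990455) (l 16777024)) (l 126399540455)))) (a (b (a (a (l 174181057687) (l 174181052951)) (l 165591117239)) (l 16770248)) (l 16770576)))) (a (b (b (a (c (a (l 165054252055) (l 16776872)) (a (l 167738606663) (l 16776824))) (l 16770368)) (c (l 16769696) (l 16769440))) (c (l 16767272) (l 16761504))) (b (c (l 16767024) (l 16761224)) (c (l 16758536) (l 16768104))))) (a (b (b (a (b (a (b (l 181160379463) (l 16776928)) (l 16773848)) (l 16770008)) (l 16770320)) (c (l 16766768) (l 16760944))) (c (c (l 16756912) (l 16756352)) (l 16760752))) (b (c (c (l 16765064) (l 16764672)) (c (l 16759032) (l 16758632))) (c (l 16753088) (l 16751560))))) (c (a (b (a (c (l 16757472) (l 16756936)) (l 16753696)) (c (l 16749560) (l 16748584))) (b (c (l 16748888) (l 16747872)) (l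 16741960))) (a (b (a (l 16758752) (l 16752240)) (c (l 16747592) (l 16746584))) (b (c (l 16746848) (l 16745808)) (l 16739184))))), by decide +kernel⟩

def k29_pm_011_t : ∃ t, chk3 f_pm_011_t t 69 251 1 = true :=
  ⟨(b (a (c (a (b (a (c (l 16763800) (l 16763328)) (l 16760176)) (b (l 16757224) (l 16748904))) (b (b (l 16751336) (l 16748200)) (l 16743496))) (a (b (a (c (l 16757600) (l 16757120)) (l 16753592)) (b (l 16750304) (l 16746872))) (b (c (l 16748328) (l 16747360)) (l 16740864)))) (a (b (c (l 16742736) (l 16740032)) (b (l 16736376) (l 16733040))) (b (c (l 16746056) (l 16742560)) (c (l 16739672) (l 16735456))))) (a (a (b (c (l 16744296) (l 16741736)) (b (l 16738200) (l 16734992))) (b (b (l 16737256) (l 16733976)) (c (l 16741576) (l 16737528)))) (a (b (c (l 16740600) (l 16736456)) (l 16721432)) (c (l 16709160) (l 16703856))))), by decide +kernel⟩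

def k30_pm_011_t : ∃ t, chk3 f_pm_011_t t 70 248 1 = true :=
  ⟨(a (l 4) (b (l 4) (a (b (l 4) (a (l 4) (b (l 4) (a (l 4) (c (l 311083137799) (l 305714415719)))))) (b (a (l 4) (b (l 4) (a (l 4) (a (a (l 4) (l 318062460295)) (b (l 4) (l 248806110167)))))) (a (b (a (l 4) (c (a (l 4) (l 294977003895)) (l 296587617271))) (b (a (a (l 4) (a (l 205856441543) (l 282628978663))) (c (l 16774160) (l 16776360))) (a (c (a (l 16776968) (l 16776224)) (l 16771240)) (l 16764264)))) (b (a (a (b (l 4) (l 116735857415)) (b (a (l 171496703175) (l 243974272439)) (l 16775896))) (c (l 16771472) (l 16769960))) (c (l 16767752) (l 16762048)))))))), by decide +kernel⟩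

def k31_pm_011_t : ∃ t, chk3 f_pm_011_t t 140 249 1 = true :=
  ⟨(b (a (l 4) (b (l 4) (a (b (l 4) (b (a (l 4) (c (c (l 163443637495) (l 158611799287)) (l 251490463943))) (a (c (l 261154140903) (l 262764753463)) (l 16773208)))) (b (b (a (l 4) (a (a (l 191360926903) (l 202098343031)) (l 177402277463))) (a (c (a (l 167738606695) (l 16776880)) (a (l 137136940199) (l 16776832))) (l 16770336))) (c (l 92039792119) (l 16768456)))))) (a (b (b (a (l 4) (c (a (a (l 329873610327) (l 287997686503)) (b (a (l 206393312439) (l 145726897383)) (l 16770888))) (b (c (l 289608298199) (l 287997679159)) (a (l 284776461383) (l 16765520))))) (b (a (a (l 4) (c (a (l 4) (l 196192763191)) (l 234310597815))) (c (l 94724150951) (l 16771216))) (a (a (a (l 4) (l 281018365479)) (c (l 16771096) (l 16770992))) (l 16769608)))) (a (a (b (b (c (l 129620765015) (l 16771104)) (l 16769504)) (l 16766880)) (c (l 16767016) (l 16766464))) (c (c (l 16764544) (l 16758880)) (c (l 16758456) (l 16758032))))) (c (b (a (b (a (l 16769944)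 (l 16762928)) (l 16760488)) (c (l 16758776) (l 16758328))) (a (l 16760744) (l 16751904))) (b (a (b (l 90429178247) (l 16759800)) (l 16760272)) (a (l 16754264) (l 16750272)))))), by decide +kernel⟩

def k32_pm_011_t : ∃ t, chk3 f_pm_011_t t 141 249 1 = true :=
  ⟨(b (a (b (a (b (a (l 4) (c (l 321283673303) (l 315378090375))) (b (a (l 327726127159) (c (c (l 85060478871) (l 206930177655)) (l 121567698135))) (a (a (l 269207205175) (l 79691765127)) (l 16770064)))) (b (b (a (c (l 310546260359) (a (l 4) (l 142505647735))) (c (l 182770985911) (l 183307856359))) (a (c (a (l 150021864647) (l 16776464)) (l 119957076343)) (l 16764544))) (c (l 16768288) (l 16762640)))) (c (a (b (l 16768552) (l 16759960)) (c (l 16758248) (l 16757776))) (a (b (l 16762928) (l 16759216)) (l 16757064)))) (b (c (a (b (l 16768016) (l 16759424)) (l 16761416)) (a (b (l 16762344) (l 16758624)) (l 16756480))) (c (a (l 16754408) (l 16750800)) (c (l 16751448) (l 16750672))))) (a (b (c (a (l 16754944) (l 16751344)) (a (l 16753656)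 (l 16749656))) (c (c (l 16747040) (l 16745944)) (l 16744272))) (c (b (l 16747248) (l 16739296)) (b (l 16743664) (l 16746784))))), by decide +kernel⟩

def k33_pm_011_t : ∃ t, chk3 f_pm_011_t t 71 248 1 = true :=
  ⟨(a (b (a (b (l 4) (a (l 4) (b (l 4) (a (l 4) (b (l 4) (a (a (l 192434668823) (l 272965302183)) (l 118346469863))))))) (b (a (l 4) (b (l 4) (a (c (l 303566933479) (l 299808834951)) (c (b (a (l 4) (l 180086637591)) (l 175791664071)) (b (l 137136933495) (l 16776600)))))) (a (b (b (a (l 4) (l 308398774855)) (a (l 320746804935) (a (l 254711690311) (l 16771328)))) (a (b (a (l 272428430759) (l 16771448)) (l 16770256)) (l 16769232))) (b (a (a (b (l 236994949959) (l 16775680)) (l 84523605047)) (l 16768944)) (c (l 16761424) (l 16760856)))))) (a (b (a (b (b (l 4) (a (l 4) (a (l 322894297479) (a (l 248269239735) (l 16776880))))) (b (a (a (a (l 4) (l 201024603223)) (l 232699982503)) (l 16773296)) (c (l 16769968) (l 16769752)))) (b (b (a (a (a (l 204782699831) (l 293903268119)) (l 198340243351))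 (l 16770400)) (c (l 16769712) (l 16764224))) (c (l 16761968) (l 16761456)))) (c (a (b (l 16762240) (l 16758896)) (l 16762200)) (a (l 16762520) (l 16755904)))) (b (c (a (c (l 16760208) (l 16759856)) (l 16761688)) (a (l 16764552) (l 16755344))) (c (c (l 16751992) (l 16751192)) (c (l 16750376) (l 16749552)))))) (a (b (b (b (a (a (c (l 293366387799) (l 291218902343)) (b (a (l 4) (l 271354689079)) (c (l 16776440) (l 16776352)))) (c (l 84523600519) (l 16769104))) (a (c (a (l 91502924327) (l 16763568)) (l 85597341047)) (l 16765800))) (a (c (c (l 16759680) (l 16759296)) (l 16758720)) (c (l 16755888) (l 16754728)))) (c (b (c (l 16751480) (l 16750648)) (l 16744456)) (b (l 16749392) (l 16742072)))) (b (b (c (a (l 16758928) (l 16755344)) (a (l 16758104) (l 16743656))) (c (c (l 16750928) (l 16750080)) (l 16748784))) (c (b (l 16743896) (l 16747800)) (b (l 16730976) (l 16744664)))))), by decide +kernel⟩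

def k34_pm_011_t : ∃ t, chk3 f_pm_011_t t 71 249 1 = true :=
  ⟨(a (b (a (b (c (c (l 16752472) (l 16751688)) (c (l 16750896) (l 16750096))) (c (l 16745424) (l 16743112))) (c (b (l 16744952) (l 16748808)) (b (l 16742608) (l 16745736)))) (b (a (b (l 16739016) (l 16735520)) (c (l 16742176) (l 16738392))) (a (c (l 16742632) (l 16738864)) (l 16722832)))) (b (c (a (a (l 16736328) (l 16722296)) (l 16722200)) (a (c (l 16721496) (l 16719744)) (l 16723248))) (c (a (l 16710872) (l 16724784)) (a (l 16705984) (l 16719168))))), by decide +kernel⟩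

def k35_pm_011_t : ∃ t, chk3 f_pm_011_t t 35 125 1 = true :=
  ⟨(a (b (a (b (a (b (c (a (l 16758688) (l 16752488)) (a (l 16754880) (l 16750904))) (c (c (l 16748240) (l 16747200)) (c (l 16746144) (l 16734584)))) (b (c (c (l 16747624) (l 16746552)) (c (l 16734984) (l 16733888))) (c (l 16740520) (l 16727136)))) (a (b (c (l 16741216) (l 16738376)) (c (l 16745240) (l 16741672))) (c (c (l 16731720) (l 16719264)) (c (l 16717264) (l 16715240))))) (b (b (a (c (l 16739880) (l 16726440)) (c (l 16743160) (l 16739432))) (a (c (l 16743776) (l 16740096)) (l 16723864))) (a (c (l 16718232) (l 16713456)) (b (l 16727416) (l 16720504))))) (a (b (a (c (b (l 16738800) (l 16732368)) (l 16715200)) (b (l 16708000) (l 16722128))) (a (a (l 16705920) (l 16696760)) (c (l 16715288) (l 16708368)))) (b (c (c (l 16697912) (l 16694640)) (c (l 16691328) (l 16687968))) (b (a (l 16707456) (c (l 16693704) (l 16695840))) (a (b (l 16702400) (c (a (l 16705712) (l 16704576)) (l 16696800))) (b (c (a (l 16702304) (l 16702080))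 (l 16693176)) (l 16700912))))))) (b (a (b (a (c (l 16722224) (l 16706880)) (b (l 16726352) (l 16719384))) (c (c (l 16696672) (l 16693376)) (c (l 16690032) (l 16686648)))) (b (c (a (l 16718632) (l 16711600)) (a (l 16712312) (l 16704552))) (a (l 16680592) (l 16694160)))) (b (a (a (c (l 16706360) (l 16698576)) (b (l 16698488) (b (l 16693224) (a (l 16691832) (c (l 16694544) (l 16684920)))))) (b (a (l 16691168) (b (l 16685760) (c (l 16679816) (l 16679936)))) (b (a (a (l 16688360) (l 16671264)) (l 16688064)) (c (l 16676448) (l 16684832))))) (c (a (b (a (b (l 16699056) (l 16689320)) (b (l 16697568) (l 16702552))) (l 16687592)) (b (l 16684048) (l 16694176))) (a (b (a (b (l 16690064) (l 16689904)) (l 16688544)) (l 16694472)) (c (l 16697096) (l 16688280))))))), by decide +kernel⟩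

def k36_pm_011_t : ∃ t, chk3 f_pm_011_t t 68 126 1 = true :=
  ⟨(b (a (a (b (b (b (a (c (l 16766992) (l 16766408)) (c (l 16758712) (l 16757776))) (a (c (l 16758960) (l 16758048)) (l 16760512))) (c (a (l 16760048) (l 16751704)) (b (l 16758480) (l 16750144)))) (b (c (c (l 16748296) (l 16747200)) (l 16745528)) (b (l 16742312) (l 16739448)))) (b (b (c (a (l 16759424) (l 16750992)) (b (l 16757792) (l 16749360))) (c (c (l 16747488) (l 16746352)) (l 16744616))) (b (b (l 16741320) (l 16738360)) (c (l 16746240) (l 16742624))))) (a (b (b (c (l 16748688) (l 16743680)) (b (l 16740296) (l 16737256))) (b (c (l 16745064) (l 16741336)) (l 16726744))) (b (b (b (l 16739240) (l 16736120)) (c (l 16743864) (l 16740016))) (b (l 16725312) (a (l 16731624) (b (l 16729312) (c (l 16719352) (l 16724056)))))))) (b (a (b (a (c (l 16747400) (l 16743888)) (a (l 16740416) (l 16726416))) (a (b (l 16741416) (a (a (l 16741216) (l 16739688)) (c (b (l 16740224) (l 16740712)) (l 16725400)))) (b (a (c (b (l 16739056) (l 16738456))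 (l 16734256)) (c (b (l 16736728) (l 16738168)) (l 16732120))) (c (a (l 16719664) (l 16742136)) (l 16724272))))) (b (a (b (a (l 16734632) (a (l 16731848) (l 16730280))) (a (c (b (l 16735096) (l 16735064)) (l 16730088)) (c (l 16724120) (l 16728424)))) (a (b (c (b (l 16731216) (l 16731976)) (l 16725952)) (l 16732024)) (c (l 16723960) (l 16726432)))) (c (a (l 16720656) (l 16723336)) (c (l 16714560) (l 16730488))))) (a (b (a (b (a (c (b (l 16742128) (l 16744216)) (l 16738064)) (l 16720216)) (c (l 16727960) (l 16741072))) (c (l 16728312) (l 16718608))) (c (a (l 16735864) (l 16735712)) (a (l 16724936) (l 16725040)))) (c (b (a (l 16731136) (l 16733800)) (a (l 16728720) (l 16721888))) (b (a (l 16718576) (l 16718376)) (l 16724888)))))), by decide +kernel⟩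

def k37_pm_011_t : ∃ t, chk3 f_pm_011_t t 69 126 1 = true :=
  ⟨(b (b (a (a (b (c (l 16742672) (l 16738712)) (l 16723904)) (c (l 16721920) (l 16706320))) (c (b (l 16703424) (a (a (l 16723808) (l 16720312)) (b (a (l 16717848) (l 16714744)) (a (l 16716560) (l 16716336))))) (b (l 16697448) (a (l 16715784) (b (l 16709400) (l 16698256)))))) (a (b (a (l 16728128) (b (l 16721888) (a (c (l 16724240) (l 16717944)) (b (l 16718344) (l 16719136))))) (b (a (a (l 16725552) (c (b (l 16725592) (l 16725792)) (l 16719624))) (c (a (l 16725392) (l 16726656)) (l 16717968))) (a (a (c (b (l 16727504) (l 16729296)) (l 16721896)) (l 16725328)) (l 16705224)))) (b (a (b (a (c (l 16720264) (l 16713408)) (c (l 16719160) (l 16711480))) (c (l 16723408) (l 16714472))) (c (l 16723440) (l 16712664))) (c (a (l 16710208) (l 16712808)) (l 16698184))))) (b (a (c (b (a (l 16715472) (l 16718024)) (l 16724544)) (b (a (l 16726216) (l 16725928)) (l 16711512))) (c (a (l 16715296) (l 16707384)) (c (l 16712656) (l 16702872)))) (a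 (c (b (l 16715768) (a (l 16715168) (l 16708472))) (c (l 16726608) (l 16715592))) (c (b (l 16691824) (l 16677440)) (b (l 16717344) (l 16723720)))))), by decide +kernel⟩

def k38_pm_011_t : ∃ t, chk3 f_pm_011_t t 35 126 1 = true :=
  ⟨(b (a (b (a (b (a (b (l 16711248) (a (l 16709936) (c (l 16710984) (l 16703112)))) (b (a (l 16705616) (c (l 16707568) (l 16699136))) (c (l 16710880) (l 16701472)))) (a (b (a (c (l 16713200) (l 16705152)) (l 16709256)) (l 16692128)) (c (l 16718544) (l 16706144)))) (c (b (a (l 16690120) (l 16714072)) (l 16701848)) (a (b (l 16699888) (l 16706248)) (l 16682336)))) (a (c (b (l 16706480) (l 16716792)) (b (l 16691552) (l 16697928))) (c (a (l 16694840) (l 16697744)) (b (l 16691736) (l 16698088))))) (c (b (a (b (l 16697768) (l 16707976)) (l 16688440)) (a (l 16694488) (l 16663888))) (b (a (a (l 16682736) (l 16683320)) (l 16684384)) (a (l 16674736) (l 16676032))))) (a (c (b (a (b (l 16706152) (l 16692552)) (b (l 16692880) (l 16678624))) (a (b (l 16678232) (l 16663888))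 (b (l 16664344) (l 16650048)))) (b (a (c (l 16713760) (l 16701168)) (l 16686640)) (a (l 16699232) (l 16695448)))) (a (c (c (b (l 16662632) (l 16632184)) (b (l 16680112) (l 16674600))) (b (l 16687376) (l 16686400))) (c (b (b (l 16663640) (l 16649464)) (b (l 16635264) (l 16621048))) (b (l 16688632) (l 16676848)))))), by decide +kernel⟩

def k39_pm_011_t : ∃ t, chk3 f_pm_011_t t 17 254 1 = true :=
  ⟨(a (c (a (b (a (b (a (l 16728312) (l 16721184)) (a (l 16703256) (l 16706640))) (a (b (l 16714216) (l 16699688)) (b (l 16707400) (l 16692896)))) (b (a (c (a (l 16693408) (l 16685632)) (l 16701712)) (a (l 16664168) (l 16678368))) (a (c (a (l 16677760) (l 16690976)) (l 16682912)) (a (l 16660080) (l 16642848))))) (b (a (b (c (l 16690536) (l 16704256)) (c (l 16675048) (l 16690808))) (c (b (l 16675792) (l 16660352)) (l 16664600))) (c (a (b (l 16659528) (l 16643976)) (b (l 16644880) (l 16629376))) (a (b (l 16677344) (l 16663872)) (a (l 16661712) (l 16655752)))))) (a (b (a (b (a (l 16731376) (l 16731472))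 (a (l 16732912) (l 16728664))) (b (l 16720816) (l 16701632))) (a (b (c (l 16714112) (l 16726680)) (c (l 16702656) (l 16717368))) (b (l 16691272) (l 16680928)))) (b (a (b (l 16704240) (l 16693912)) (b (l 16696496) (l 16686208))) (a (b (l 16683592) (l 16673288)) (b (l 16675928) (l 16665664)))))) (c (a (b (a (b (l 16649528) (l 16635144)) (b (l 16635728) (l 16621392))) (c (a (a (l 16626080) (l 16618656)) (a (l 16611152) (l 16603552))) (a (l 16625736) (l 16634344)))) (b (c (a (l 16601624) (l 16606704)) (a (l 16648064) (l 16634712))) (a (b (l 16592848) (l 16557544)) (b (l 16578288) (l 16563992))))) (a (b (a (l 16678136) (l 16675000)) (a (b (l 16668024) (l 16657800)) (l 16633640))) (b (c (l 16647624) (l 16675176)) (c (l 16625240) (l 16657016)))))), by decide +kernel⟩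

def k40_pm_011_t : ∃ t, chk3 f_pm_011_t t 34 255 1 = true :=
  ⟨(c (b (a (a (c (b (a (l 16662080) (l 16654344)) (a (l 16646360) (l 16638648))) (b (a (l 16698736) (l 16692400)) (a (l 16685136) (l 16678824)))) (c (b (b (l 16646960) (l 16639144)) (b (l 16631312) (l 16623480))) (b (l 16662240) (l 16648696)))) (a (b (a (l 16621672) (l 16615088)) (a (b (l 16631712) (l 16624424)) (l 16600536))) (b (a (l 16608496) (l 16601880)) (a (l 16593976) (l 16587376))))) (a (b (a (a (b (l 16633736) (l 16626384)) (b (l 16637224) (l 16608912))) (c (b (l 16615632) (l 16607776)) (l 16635136))) (a (b (b (a (l 16631360) (l 16624376)) (c (b (l 16634864) (l 16612544)) (l 16656608))) (l 16606512)) (b (b (a (l 16617552) (l 16610888)) (a (l 16614408) (l 16608048))) (l 16588416)))) (b (a (c (a (l 16621728) (l 16614504)) (l 16644336)) (a (l 16574184) (l 16572856))) (a (b (b (a (l 16604344) (l 16597760)) (l 16577784)) (l 16597016)) (b (b (a (l 16591208) (l 16584744)) (l 16586200)) (l 16584728)))))) (a (a (b (b (c (l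 16691208) (l 16708080)) (c (l 16679760) (l 16698808))) (b (c (l 16668320) (l 16689560)) (b (b (l 16672440) (l 16669920)) (l 16667496)))) (b (b (l 16670592) (l 16660272)) (b (l 16649960) (b (l 16642256) (l 16659888))))) (b (a (c (l 16646032) (l 16690728)) (b (l 16655416) (l 16645176))) (c (b (l 16624560) (b (l 16637616) (l 16655424))) (b (l 16673952) (l 16666152)))))), by decide +kernel⟩

def k41_pm_011_t : ∃ t, chk3 f_pm_011_t t 35 255 1 = true :=
  ⟨(c (b (a (c (a (b (l 16620136) (l 16583648)) (b (l 16605192) (l 16589728))) (a (l 16598936) (l 16607632))) (a (c (b (l 16589816) (l 16574392)) (l 16594864)) (b (l 16549680) (l 16514368)))) (a (b (a (a (l 16566240) (l 16559560)) (a (l 16552792) (l 16545928))) (a (b (b (l 16548960) (l 16573736)) (l 16572296)) (b (l 16540888) (l 16559576)))) (b (b (a (l 16538976) (l 16545544)) (c (a (l 16554896) (l 16539280)) (l 16564816))) (a (l 16526648) (l 16533704))))) (b (a (a (b (l 16647592) (l 16637392)) (l 16613296)) (c (l 16602880) (l 16638944))) (b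 (a (a (l 16627208) (l 16619056)) (a (l 16610128) (l 16600752))) (a (a (l 16619160) (l 16632224)) (l 16598392))))), by decide +kernel⟩

def k42_pm_011_t : ∃ t, chk3 f_pm_011_t t 18 60 1 = true :=
  ⟨(a (l 4) (b (l 4) (a (l 4) (b (l 4) (a (b (l 4) (a (l 4) (c (b (a (l 4) (l 281555216471)) (a (b (l 145726854135) (l 122104553223)) (l 71638688647))) (b (l 291218886263) (a (b (l 146263723767) (l 16766200)) (l 70028075479)))))) (b (a (a (l 4) (b (l 4) (c (l 271891544791) (l 271354672599)))) (b (b (l 4) (c (l 262764748087) (l 263838483671))) (a (b (c (l 129083867111) (l 131231350247)) (l 16764968)) (l 16768384)))) (a (b (a (b (a (l 4) (l 132305098583)) (l 68417466967)) (c (l 16763992) (l 16763720))) (l 16762256)) (c (l 16756352) (l 16744880))))))))), by decide +kernel⟩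

def k43_pm_011_t : ∃ t, chk3 f_pm_011_t t 36 122 1 = true :=
  ⟨(a (l 4) (b (l 4) (a (b (l 4) (a (l 4) (a (l 4) (a (l 4) (b (l 4) (c (l 286923929031) (l 285313314343))))))) (b (a (l 4) (b (l 4) (a (l 4) (b (l 4) (c (a (l 137136928295) (l 16765960)) (a (l 138210669511) (l 16765896))))))) (a (b (a (l 4) (b (l 4) (a (l 4) (c (l 128547000343) (l 130157612519))))) (a (b (a (l 4) (c (l 131231351831) (l 132841964103))) (c (c (l 72712432071) (l 16765536)) (l 71638689431))) (b (c (l 74323047303) (l 16765136)) (l 16762152)))) (b (a (b (c (a (l 147874343911) (l 125862648711)) (a (l 148411213479) (l 16764752))) (c (l 16765008) (l 16764824))) (b (l 78081149511) (l 16761448))) (c (l 16758768) (l 16757968)))))))), by decide +kernel⟩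

def k44_pm_011_t : ∃ t, chk3 f_pm_011_t t 36 246 1 = true :=
  ⟨(a (a (l 4) (b (l 4) (a (b (l 4) (a (a (l 4) (b (l 4) (b (l 4) (a (l 16767632) (l 16776760))))) (b (a (l 308398769911) (b (l 138210678135) (l 118346467047))) (c (l 87207950983) (l 77544273831))))) (b (a (b (l 4) (a (c (l 290682032615) (l 138210665335)) (c (c (l 121030811159) (l 122104552727)) (l 124252035767)))) (b (a (b (l 4) (l 131768231303)) (b (l 129620749351) (l 16776240))) (c (l 16764312) (l 16764056)))) (a (b (c (l 16769840) (l 16764376)) (l 16761200)) (c (l 16759560) (l 16748336))))))) (b (b (a (a (a (l 4) (c (l 309472518983) (l 305714398535))) (b (b (a (l 4) (c (l 122104553639) (l 124252036839))) (a (l 297661353127) (l 16770472))) (a (a (c (l 125325776295) (l 127473259383)) (l 75396794711)) (l 16762848)))) (a (c (l 16759416) (l 16758672)) (c (l 16742056) (l 16740632)))) (a (a (a (b (l 4) (a (b (l 4) (l 127473267079)) (b (l 125325784823) (l 16775928)))) (b (a (b (l 4) (l 123715173607)) (a (l 70564954311) (l 16765432)))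 (l 16768784))) (c (l 16762672) (l 16759376))) (a (c (l 16753136) (l 16741280)) (c (l 16756768) (l 16754704))))) (b (a (a (a (b (l 81839244423) (l 16760544)) (l 16762480)) (c (l 16753728) (l 16741920))) (a (a (l 16747632) (l 16754512)) (l 16738640))) (a (a (c (l 16754320) (l 16753048)) (b (l 16748064) (l 16744712))) (a (l 16739152) (l 16721496)))))), by decide +kernel⟩

def k45_pm_011_t : ∃ t, chk3 f_pm_011_t t 36 247 1 = true :=
  ⟨(b (a (a (a (b (l 4) (a (b (l 4) (c (l 310009379223) (l 306788151239))) (b (b (l 4) (c (l 289071420231) (l 286923935031))) (b (a (c (l 135526323687) (l 136600064855)) (l 75396796327)) (c (l 16769936) (l 16770440)))))) (b (a (b (l 4) (a (l 4) (c (l 278870875223) (b (l 4) (l 16764232))))) (a (b (l 4) (c (c (l 116735846631) (l 117809588215)) (l 119957071255))) (b (b (l 4) (a (l 136063202535) (l 16777008))) (l 16769864)))) (a (b (a (b (a (l 4) (l 264912238119)) (l 16771136)) (l 81302377927)) (l 16767728)) (c (l 16760776) (l 16760152))))) (b (a (a (b (c (c (l 77007400999)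 (l 76470529911)) (c (l 16766320) (l 16764920))) (l 16761848)) (c (l 16760168) (l 16749008))) (c (l 16754896) (l 16753672))) (a (c (l 16758088) (l 16754296)) (c (l 16748440) (l 16736064))))) (a (c (a (c (l 16745248) (l 16744128)) (l 16737760)) (a (c (l 16732504) (l 16731360)) (l 16724304))) (c (c (l 16717968) (l 16715992)) (c (l 16714000) (l 16711968))))) (a (a (a (a (b (b (a (c (b (l 147874351895) (l 201561468631)) (b (l 148411222071) (l 16776856))) (c (l 78081147143) (l 16770656))) (l 16768360)) (c (l 16758376) (l 16757496))) (b (c (l 16766608) (l 16760800)) (c (l 16754808) (l 16764040)))) (b (c (c (l 16756312) (l 16755760)) (l 16754912)) (c (l 16749480) (l 16747680)))) (c (a (c (l 16746232) (l 16745152)) (c (l 16728912) (l 16727480))) (a (c (l 16744056) (l 16732464)) (l 16730528)))) (a (c (b (l 16731512) (l 16714512)) (c (l 16720056) (l 16712800))) (c (a (l 16728440) (l 16721648)) (l 16698736))))), by decide +kernel⟩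

def k46_pm_011_t : ∃ t, chk3 f_pm_011_t t 37 122 1 = true :=
  ⟨(a (b (a (b (l 4) (a (l 4) (b (l 4) (b (c (l 296050728247) (l 294440113271)) (a (l 299808831431) (c (l 119420198807) (l 122104552855))))))) (b (a (l 4) (b (l 4) (a (b (l 4) (a (l 4) (l 128010133703))) (b (c (l 128010124055) (l 130157607191)) (l 16769976))))) (a (b (a (c (l 282092087959) (l 280481473351)) (b (a (l 4) (l 130694485287)) (a (l 121567689015) (l 16775192)))) (a (b (c (l 16766400) (l 16765624)) (l 16752344)) (l 16760880))) (b (a (b (l 72712437383) (l 16751592)) (l 16760144)) (c (l 16745648) (l 16744616)))))) (a (a (b (b (a (l 4) (a (c (l 277797126471) (l 276723383175)) (b (l 4) (l 69491211335)))) (a (b (c (a (l 133915705799) (l 16766320)) (b (l 133915704855) (l 16766304))) (l 16769512)) (c (l 16762536) (l 16751632)))) (b (c (l 16758112) (l 16746768)) (c (l 16741456) (l 16739976)))) (b (a (b (b (c (c (l 120493937927) (l 122104550247)) (l 124252033783)) (l 16763568)) (l 16758776)) (b (l 16761616) (l 16755232))) (c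 (l 16748256) (l 16746424)))) (b (a (c (c (l 16754080) (l 16742968)) (l 16749864)) (c (l 16747096) (l 16734680))) (c (b (l 16741288) (l 16724664)) (b (l 16728288) (l 16721536)))))) (b (a (b (b (a (a (b (l 4) (c (l 125862643303) (l 128546997543))) (b (c (l 124252033751) (l 126399516935)) (l 16764024))) (c (l 16760680) (l 16749608))) (a (c (l 16761376) (l 16760856)) (l 16754232))) (a (c (l 16752496) (l 16751104)) (c (l 16735440) (l 16733416)))) (b (c (a (l 16751216) (l 16734272)) (a (l 16739232) (l 16732160))) (c (c (l 16726448) (l 16724992)) (l 16728016)))) (a (b (c (c (l 16727440) (l 16726016)) (c (l 16724568) (l 16723112))) (c (l 16714592) (l 16710496))) (b (c (l 16713800) (l 16709680)) (a (l 16702424) (l 16716744)))))), by decide +kernel⟩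

def k47_pm_011_t : ∃ t, chk3 f_pm_011_t t 37 123 1 = true :=
  ⟨(a (b (a (b (c (a (l 16742608) (l 16725376)) (a (l 16729704) (l 16722296))) (c (c (l 16717176) (l 16715192)) (c (l 16713176) (l 16711136)))) (b (c (a (l 16739672) (l 16733056)) (l 16711328)) (c (l 16702880) (l 16697560)))) (a (b (c (l 16703472) (l 16698144)) (b (l 16690696) (l 16683888))) (b (c (l 16711192) (l 16704576)) (c (l 16698368) (l 16690432))))) (b (a (b (b (l 16708144) (l 16696408)) (c (l 16710816) (l 16704240))) (b (c (l 16710464) (l 16703928)) (c (l 16698072) (l 16690288)))) (a (b (c (l 16698208) (l 16690352)) (l 16659912)) (c (l 16658200) (l 16648496))))), by decide +kernel⟩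

def k48_pm_011_t : ∃ t, chk3 f_pm_011_t t 38 60 1 = true :=
  ⟨(b (a (l 4) (b (a (l 4) (b (l 4) (a (l 4) (b (l 4) (a (l 286923925255) (c (l 125325767767) (l 126936379911))))))) (a (b (a (l 4) (a (l 4) (c (l 269207178263) (l 268133434711)))) (a (b (a (l 4) (l 272965283831)) (a (b (l 144116246551) (l 16766272)) (l 71101820199))) (b (a (c (l 123715156631) (l 126399510583)) (l 16763912)) (l 16749528)))) (c (b (a (b (l 260080383831) (l 71101811383)) (b (l 16763808) (l 16748280))) (l 16748600)) (b (a (b (l 260617253671) (l 70028069095)) (l 71638679207)) (l 16742176)))))) (a (b (a (b (l 4) (a (b (l 4) (a (l 4) (b (l 145726855815) (l 124252037303)))) (b (a (b (l 4) (l 135526311287)) (b (l 133378830423) (l 16765712))) (c (l 73249300375) (l 71638687287))))) (b (a (b (l 4) (a (b (l 4) (l 131231349895)) (c (l 122104546151) (l 124788900167)))) (b (c (a (l 129620724695) (l 16765400)) (a (l 131231336359) (l 16765248))) (c (l 16751344) (l 16750880)))) (a (b (a (l 16768560) (l 16750304)) (l 16756624))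 (c (l 16743104) (l 16741872))))) (b (a (a (b (a (c (l 68954329559) (l 67343716519)) (l 16762376)) (l 16758128)) (c (l 16744480) (l 16743368))) (c (b (l 16737864) (l 16732248)) (l 16738304))) (a (c (b (l 16739136) (l 16733400)) (b (l 16737504) (l 16731224))) (c (l 16723744) (l 16720672))))) (b (a (b (a (c (l 16747872) (l 16747096)) (l 16750232)) (c (l 16744344) (l 16731768))) (b (c (l 16732632) (l 16730448)) (b (l 16723040) (l 16717320)))) (b (a (c (l 16722776) (l 16719640)) (c (l 16731736) (l 16727504))) (a (c (l 16732512) (l 16728304)) (l 16696984)))))), by decide +kernel⟩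

def k49_pm_011_t : ∃ t, chk3 f_pm_011_t t 39 60 1 = true :=
  ⟨(b (a (b (a (b (a (l 4) (a (c (l 263838472599) (l 263301600279)) (b (l 4) (l 70028074663)))) (b (a (a (b (l 4) (l 16761552)) (c (l 16761024) (l 16755696))) (l 16762144)) (a (l 73249302039) (l 16746328)))) (b (a (b (c (l 121567668999) (l 124252022967)) (l 16750840)) (l 16757864)) (c (l 16740520) (l 16739104)))) (b (a (c (l 16741936) (l 16740632)) (c (l 16730224) (l 16727864))) (a (c (l 16731424) (l 16729152)) (l 16718120)))) (b (a (b (a (l 16741344) (l 16735384)) (l 16733064)) (c (l 16722840) (l 16719864))) (a (c (l 16713608) (l 16709752)) (a (l 16702960) (l 16697224))))) (a (b (a (b (a (l 16743184) (l 16737056)) (l 16707840)) (c (l 16703816) (l 16699008))) (a (c (l 16693496) (l 16687672)) (a (l 16681616) (l 16675728)))) (c (b (c (l 16688552) (l 16685456)) (l 16665456)) (b (c (l 16682312) (l 16679120)) (l 16657144))))), by decide +kernel⟩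

def k50_pm_011_t : ∃ t, chk3 f_pm_011_t t 19 61 1 = true :=
  ⟨(b (a (a (b (a (b (c (l 16729968) (l 16721712)) (c (l 16713032) (l 16708880))) (c (a (l 16709552) (l 16703424)) (a (l 16705096) (l 16698400)))) (a (b (c (l 16722152) (l 16716840)) (c (l 16710144) (l 16703640))) (b (l 16685664) (l 16673136)))) (b (a (b (c (l 16721120) (l 16715824)) (l 16685416)) (b (l 16706104) (l 16694080))) (a (b (l 16694112) (l 16681656)) (c (l 16680280) (l 16671080))))) (a (b (c (a (l 16691992) (l 16680704)) (a (l 16684016) (l 16671720))) (c (l 16642304) (l 16610616))) (b (b (l 16644008) (l 16632256)) (c (l 16641544) (l 16628920))))) (a (b (a (a (c (l 16670848) (l 16662520)) (b (l 16681408) (l 16668528))) (c (a (l 16667864) (l 16656336)) (a (l 16657336) (l 16644776)))) (b (a (a (l 16668064) (l 16655464)) (a (l 16643216) (b (l 16634528) (a (l 16631096) (c (l 16634536) (l 16620072)))))) (a (a (l 16654760) (a (l 16645312) (l 16618424))) (a (c (b (l 16641072) (a (l 16639808) (l 16640584))) (b (l 16627352) (a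 (l 16625504) (l 16624616)))) (b (a (c (l 16636808) (l 16621800)) (l 16630800)) (l 16615344)))))) (b (a (b (l 16618392) (a (l 16632512) (b (l 16624624) (c (a (l 16629648) (l 16629168)) (l 16614720))))) (a (b (a (l 16625184) (b (l 16622744) (l 16617776))) (b (c (a (l 16626504) (l 16627776)) (l 16611504)) (l 16624608))) (c (b (b (l 16623992) (l 16625568)) (l 16637160)) (b (b (l 16608952) (l 16608776)) (l 16615328))))) (a (b (a (b (a (l 16626448) (c (l 16631448) (l 16616376))) (c (l 16636328) (l 16619368))) (c (l 16639296) (l 16619464))) (c (l 16610424) (l 16607008))) (c (a (l 16612656) (l 16619616)) (a (l 16606080) (l 16608760))))))), by decide +kernel⟩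

def k51_pm_011_t : ∃ t, chk3 f_pm_011_t t 36 124 1 = true :=
  ⟨(a (b (a (b (b (a (c (l 16749992) (l 16748232)) (b (l 16743392) (l 16739912))) (a (c (l 16743376) (l 16751392)) (c (l 16746768) (l 16743568)))) (a (b (a (l 16747544) (l 16743808)) (l 16728256)) (b (l 16727744) (l 16731304)))) (b (c (a (b (l 16746336) (l 16739728)) (l 16715056)) (a (l 16728960) (l 16710768))) (c (c (l 16706688) (l 16704056)) (c (l 16701392) (l 16698688))))) (a (b (a (b (l 16731824) (l 16724928)) (a (l 16712304) (l 16698120))) (c (a (l 16717712) (l 16710656)) (a (l 16711360) (l 16703592)))) (b (c (l 16692272) (l 16685544)) (a (l 16678808) (l 16692472))))) (b (c (a (b (a (l 16729088) (l 16722192)) (l 16691520)) (b (l 16711968) (l 16698856))) (a (b (a (l 16724088) (l 16716512)) (l 16684792)) (b (l 16705272) (l 16690784)))) (a (b (c (l 16699416) (l 16691304)) (c (l 16686352) (l 16676848))) (b (c (l 16685808) (l 16676360)) (b (l 16670824) (a (l 16667552) (b (l 16662472) (c (l 16667840) (l 16655608))))))))), by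 decide +kernel⟩

def k52_pm_011_t : ∃ t, chk3 f_pm_011_t t 37 124 1 = true :=
  ⟨(b (a (a (b (c (l 16698544) (l 16690536)) (c (l 16685472) (l 16676096))) (b (c (l 16685376) (l 16676104)) (l 16646096))) (b (c (l 16645192) (l 16634096)) (a (a (l 16656944) (b (l 16653712) (b (l 16648600) (l 16646504)))) (b (a (l 16647224) (c (l 16649512) (l 16636056))) (a (c (b (l 16650712) (l 16653080)) (l 16638232)) (l 16646304)))))) (a (a (b (l 16646144) (a (b (b (l 16662032) (l 16659328)) (c (l 16646832) (l 16654304))) (b (c (b (l 16662488) (l 16663888)) (l 16650856)) (l 16662928)))) (b (b (a (l 16660216) (l 16653704)) (a (b (l 16655176) (c (l 16660000) (l 16647392))) (b (c (l 16657792) (l 16644776)) (l 16653920)))) (c (b (l 16666464) (l 16675952)) (b (l 16650464) (l 16656296))))) (b (a (b (a (c (b (l 16655440) (l 16655880)) (l 16643056)) (c (l 16656488) (l 16641648))) (c (l 16663976) (l 16646672))) (c (l 16645264) (l 16645968))) (c (a (l 16657032) (l 16663816)) (a (l 16655352) (l 16657440)))))), by decide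 +kernel⟩

def k53_pm_011_t : ∃ t, chk3 f_pm_011_t t 19 124 1 = true :=
  ⟨(a (b (a (b (a (b (l 16644656) (a (l 16645576) (b (l 16637752) (l 16638584)))) (b (a (b (l 16637048) (l 16635664)) (b (l 16633840) (l 16636312))) (c (l 16648856) (l 16631632)))) (b (a (c (a (l 16649104) (l 16652376)) (l 16634712)) (l 16605384)) (c (l 16642056) (l 16641064)))) (c (b (c (l 16639704) (l 16649664)) (l 16630640)) (c (b (l 16638480) (l 16650704)) (l 16610496)))) (a (c (b (a (l 16652152) (l 16659072)) (l 16653080)) (c (b (l 16656240) (l 16669416)) (l 16626216))) (c (a (l 16633216) (l 16640104)) (a (l 16616648) (l 16619096))))) (c (b (a (b (l 16627304) (l 16644552)) (b (l 16641120) (l 16658224))) (a (b (l 16662264) (l 16625464)) (b (l 16620944) (l 16595192)))) (b (a (b (l 16617056) (l 16627416)) (b (l 16622256) (l 16632520))) (a (b (l 16638208) (l 16628392)) (l 16606744))))), by decide +kernel⟩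

def k54_pm_011_t : ∃ t, chk3 f_pm_011_t t 9 250 1 = true :=
  ⟨(a (a (a (b (a (a (l 16679720) (l 16693304)) (a (l 16685952) (c (l 16668184) (l 16673800)))) (a (b (l 16686552) (c (a (l 16678288) (b (l 16684192) (l 16685776))) (a (l 16678904) (b (l 16673744) (l 16674248))))) (b (a (b (l 16677344) (c (l 16681336) (l 16670464))) (b (c (l 16678744) (l 16667408)) (l 16675920))) (c (a (l 16686456) (l 16689832)) (l 16673744))))) (b (a (b (a (l 16674880) (b (l 16669432) (c (l 16672960) (l 16661568)))) (a (c (b (l 16675896) (l 16676440)) (l 16665208)) (c (l 16676768) (l 16663464)))) (b (a (c (b (l 16670264) (l 16672768)) (l 16659400)) (l 16666424)) (c (l 16681776) (l 16664632)))) (c (a (l 16658408) (l 16675544)) (a (l 16651232) (l 16652928))))) (a (c (b (a (l 16662648) (l 16669344)) (a (l 16661200) (l 16667824))) (b (c (l 16649080) (l 16658560)) (a (l 16654680) (l 16656488)))) (c (b (a (l 16676048) (l 16661792)) (l 16656792)) (b (l 16631520) (l 16638384))))) (a (c (a (b (l 16650936) (l 16632888))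 (b (l 16629472) (l 16602584))) (a (b (l 16630512) (l 16642496)) (c (l 16654720) (l 16648272)))) (c (a (b (l 16599120) (l 16572384)) (b (l 16568992) (l 16542408))) (a (l 16624792) (l 16606048))))), by decide +kernel⟩

def k55_pm_011_t : ∃ t, chk3 f_pm_011_t t 9 251 1 = true :=
  ⟨(a (a (a (a (b (b (a (b (a (l 16671744) (l 16682432)) (l 16686016)) (l 16665064)) (c (l 16680600) (l 16684720))) (c (l 16674744) (l 16673216))) (c (b (l 16661232) (l 16681304)) (b (l 16662160) (l 16674720)))) (c (b (a (l 16667832) (l 16674400)) (a (l 16687832) (l 16681344))) (b (a (l 16663752) (l 16665392)) (a (l 16676264) (l 16677848))))) (a (c (b (a (l 16680952) (l 16679136)) (a (l 16666424) (l 16651512))) (b (l 16646984) (l 16659352))) (c (b (l 16635672) (c (l 16615856) (l 16642512))) (a (l 16634888) (l 16636768))))) (a (c (a (b (l 16605608) (l 16557280)) (b (l 16575456) (l 16548256))) (a (a (l 16638736) (l 16640808)) (l 16609456))) (c (c (a (l 16491952) (l 16481096)) (a (l 16571936) (l 16544280))) (a (l 16588208)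 (l 16566952))))), by decide +kernel⟩

def k56_pm_011_t : ∃ t, chk3 f_pm_011_t t 18 126 1 = true :=
  ⟨(b (a (a (c (a (b (l 16694976) (l 16669984)) (b (l 16683232) (l 16655152))) (b (c (l 16694800) (l 16678216)) (a (l 16677408) (l 16678816)))) (c (b (a (l 16668352) (l 16653496)) (c (l 16610136) (l 16645400))) (b (l 16668544) (l 16660008)))) (c (a (a (b (l 16638656) (l 16610816)) (b (l 16623816) (l 16596056))) (c (b (l 16586424) (l 16556896)) (a (l 16610744) (l 16597080)))) (a (c (l 16638280) (l 16663584)) (b (l 16642304) (l 16622360))))) (b (a (c (a (a (l 16620776) (l 16606024)) (a (l 16591304) (l 16576616))) (a (c (l 16670432) (l 16699304)) (l 16642144))) (c (a (b (l 16561576) (l 16547624)) (b (l 16532176) (l 16518304))) (a (l 16622440) (l 16602480)))) (c (a (a (c (a (l 16621216) (l 16605320)) (l 16620016)) (a (l 16563160) (l 16548552))) (a (a (l 16533952) (l 16519360)) (a (l 16504768) (l 16490160)))) (a (a (a (l 16667216) (l 16657560)) (l 16622040)) (a (l 16602480) (l 16582664)))))),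 by decide +kernel⟩

def k57_pm_011_t : ∃ t, chk3 f_pm_011_t t 18 127 1 = true :=
  ⟨(c (a (a (b (c (b (a (l 16590832) (l 16575016)) (a (l 16539360) (l 16544608))) (b (l 16583200) (a (l 16615888) (l 16602624)))) (b (a (b (l 16535192) (l 16499928)) (c (l 16493112) (l 16576240))) (b (b (c (l 16523704) (l 16566296)) (c (b (l 16517952) (l 16494168)) (l 16559952))) (l 16471384)))) (b (c (b (b (l 16558944) (l 16543832)) (a (l 16528928) (l 16534272))) (b (l 16567016) (l 16540808))) (b (c (b (l 16477360) (l 16462136)) (l 16514552)) (b (b (c (l 16492648) (l 16540064)) (a (l 16454328) (l 16461592))) (l 16444368))))) (b (a (c (b (a (l 16548816) (l 16533152)) (a (l 16518672) (l 16503088))) (a (l 16512984) (l 16499688))) (b (a (l 16476880) (l 16462360)) (c (a (l 16487528) (l 16471960)) (l 16529704)))) (b (c (a (a (l 16467440) (l 16472928)) (a (l 16457448) (l 16441976))) (a (l 16509200) (l 16503784))) (a (b (c (b (l 16461600) (l 16457024)) (l 16469616)) (l 16417448)) (b (b (c (l 16388848) (l 16487456))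 (l 16392848)) (l 16411528)))))) (b (a (b (a (a (l 16646992) (l 16637408)) (l 16581024)) (a (a (l 16626816) (l 16617312)) (l 16571528))) (a (b (l 16582584) (l 16562744)) (c (l 16528400) (l 16598816)))) (b (a (c (a (l 16602440) (l 16581016)) (a (l 16643632) (l 16627208))) (a (l 16521992) (l 16523576))) (b (a (c (a (l 16585552) (l 16585560)) (l 16580008)) (a (l 16528616) (l 16509880))) (a (c (l 16568656) (l 16615456)) (l 16513456)))))), by decide +kernel⟩

def k58_pm_011_t : ∃ t, chk3 f_pm_011_t t 19 63 1 = true :=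
  ⟨(a (a (c (b (b (c (a (l 16547704) (l 16531736)) (l 16555544)) (b (b (l 16502704) (l 16488920)) (a (l 16475528) (l 16460864)))) (b (b (b (l 16426488) (l 16412632)) (a (l 16399056) (l 16384560))) (c (b (a (l 16426496) (l 16411000)) (b (b (l 16379712) (l 16398312)) (l 16396688))) (b (l 16477256) (l 16438576))))) (b (b (b (l 16621736) (l 16601928)) (b (l 16582184) (l 16562504))) (b (b (l 16542888) (l 16523336)) (b (l 16503840) (l 16488712))))) (c (c (b (b (a (l 16515752) (l 16520768)) (b (l 16484888) (l 16455512))) (b (b (l 16426032) (l 16375488)) (b (c (l 16372224) (l 16403368)) (b (l 16349664) (l 16367752))))) (b (b (l 16527976) (l 16477048)) (b (b (l 16501712) (l 16476160)) (b (l 16450568) (l 16434048))))) (b (b (b (l 16600816) (l 16581144)) (b (l 16561536) (l 16541984))) (b (b (l 16522512) (l 16503096)) (b (l 16483744) (l 16469240)))))) (c (b (b (a (b (l 16470280) (l 16443120)) (b (l 16461736) (l 16413760))) (c (a (a (l 16425592) (l 16409944)) (b (l 16443088) (l 16414048))) (a (l 16470808)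 (l 16443768)))) (b (c (a (b (l 16415824) (l 16365456)) (b (l 16384928) (l 16355712))) (a (l 16399104) (l 16393352))) (b (a (a (l 16292592) (c (l 16349048) (l 16417088))) (b (l 16284720) (c (l 16276816) (l 16390824)))) (a (c (l 16340648) (l 16408544)) (l 16284088))))) (b (a (b (l 16528016) (b (l 16540736) (l 16521328))) (b (l 16527992) (l 16468328))) (b (c (a (l 16502944) (l 16501352)) (l 16514720)) (b (a (l 16442304) (l 16421848)) (l 16377120)))))), by decide +kernel⟩

def k59_pm_011_t : ∃ t, chk3 f_pm_011_t t 10 28 1 = true :=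
  ⟨(a (l 4) (b (l 4) (a (b (l 4) (a (l 4) (b (l 4) (a (b (l 4) (l 142505591975)) (c (l 104387766647) (l 102777153383)))))) (b (a (b (l 4) (a (l 4) (l 271891512631))) (b (a (l 4) (l 135526253991)) (c (l 91502859447) (l 90429117031)))) (a (b (a (b (l 4) (l 16748064)) (l 16751456)) (a (l 16767304) (l 16737304))) (a (l 16735760) (l 16727088))))))), by decide +kernel⟩

def k60_pm_011_t : ∃ t, chk3 f_pm_011_t t 20 29 1 = true :=
  ⟨(b (a (l 4) (b (a (l 4) (b (l 4) (a (l 4) (b (l 4) (a (l 145189954359) (l 16754248)))))) (a (b (a (l 4) (b (l 4) (a (l 4) (l 122104508567)))) (a (b (a (l 4) (l 278870849111)) (a (c (l 121567643575) (l 122641384759)) (l 83449837447))) (b (c (l 114051460391) (l 115662072295)) (l 16746352)))) (b (a (b (a (l 4) (l 117809553335)) (c (l 16752856) (l 16752528))) (b (l 16760288) (l 16742984))) (a (l 16740336) (l 16730208)))))) (a (b (a (b (l 4) (a (a (l 4) (a (l 4) (b (l 4) (l 256859156839)))) (b (a (l 4) (b (l 4) (l 123715148647))) (a (b (l 125862626183) (l 16764144)) (l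 16761000))))) (b (a (b (l 4) (a (l 4) (b (l 141968746103) (l 16760512)))) (b (a (b (l 4) (l 124788882775)) (c (l 117809565463) (l 16753920))) (b (l 80765488823) (l 16747536)))) (a (b (a (c (l 16757912) (l 16758984)) (l 16748824)) (l 16742192)) (c (l 16736776) (l 16735104))))) (a (b (a (b (a (b (l 129083839959) (l 121030808471)) (c (l 16752280) (l 16751912))) (c (l 16745880) (l 16744968))) (b (l 16749040) (l 16734056))) (a (c (l 16731512) (l 16729336)) (c (l 16720696) (l 16717576)))) (b (a (c (l 16728984) (l 16726624)) (l 16716968)) (a (a (l 16710864) (l 16726408)) (l 16697416))))) (b (a (b (a (b (l 68417444551) (l 16739048)) (l 16733032)) (a (l 16725256) (l 16714824))) (b (c (l 16719264) (l 16716152)) (a (l 16725632) (l 16715728)))) (a (b (c (l 16703448) (l 16698920)) (a (l 16707928) (l 16697736))) (c (l 16654080) (l 16647120)))))), by decide +kernel⟩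

def k61_pm_011_t : ∃ t, chk3 f_pm_011_t t 21 29 1 = true :=
  ⟨(b (a (b (a (b (a (l 4) (b (l 272965267399) (l 107072140583))) (a (c (b (l 111367096743) (l 16770712)) (l 96871577367)) (l 16743760))) (b (c (l 94724099479) (l 95797836615)) (l 16726856))) (a (b (a (l 16737200) (l 16727472)) (c (l 16717104) (l 16713856))) (b (l 16713336) (l 16696728)))) (b (a (b (l 16726744) (l 16711248)) (l 16680656)) (a (l 16666184) (l 16670160)))) (a (b (a (b (l 16698184) (l 16680376)) (b (l 16700608) (l 16683024))) (a (b (l 16683008) (l 16664128)) (l 16634696))) (b (a (l 16653424) (l 16657840)) (a (l 16638680) (l 16622616))))), by decide +kernel⟩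

def k62_pm_011_t : ∃ t, chk3 f_pm_011_t t 11 14 1 = true :=
  ⟨(b (a (b (a (b (a (l 4) (l 4)) (a (b (l 4) (a (l 143042426535) (l 16731016))) (b (l 121030738359) (l 16766448)))) (b (a (b (l 131768120663) (l 16737912)) (l 64659314295)) (a (l 16736016) (l 16720856)))) (a (b (a (c (l 79691696567) (l 78617949527)) (l 16746872)) (a (l 16714488) (l 16698424))) (b (a (l 16710288) (l 16716432)) (l 16654880)))) (b (a (b (a (l 16751216) (l 16716224)) (l 16678536)) (b (l 16696480) (l 16673464))) (a (b (l 16674624) (l 16648424)) (b (l 16649280) (l 16644800))))) (a (b (a (b (a (l 16685096) (l 16690392)) (a (l 16675016) (l 16659760))) (b (l 16647448) (l 16617456))) (b (a (l 16592760) (l 16606752)) (a (a (l 16607448) (b (l 16601888) (b (l 16588728) (l 16582416)))) (b (a (l 16588432) (b (l 16580648) (l 16577768))) (a (c (l 16570416) (l 16571848)) (l 16587184)))))) (b (a (b (l 16641784) (l 16612664)) (b (l 16618000) (a (l 16595200) (l 16543768)))) (b (a (b (l 16589768) (a (l 16581520) (c (l 16586896) (l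 16567168)))) (b (a (l 16534968) (l 16534576)) (a (l 16560928) (l 16569624)))) (b (a (a (b (l 16576856) (l 16583800)) (l 16567776)) (l 16517824)) (a (l 16516824) (l 16533784))))))), by decide +kernel⟩

def k63_pm_011_t : ∃ t, chk3 f_pm_011_t t 20 30 1 = true :=
  ⟨(b (a (b (a (b (a (c (l 16711872) (l 16707936)) (c (l 16722144) (l 16717280))) (c (l 16675832) (l 16669592))) (b (c (l 16685624) (l 16679416)) (c (l 16686664) (l 16678656)))) (a (b (c (l 16665568) (l 16657408)) (c (l 16665248) (l 16655096))) (b (c (l 16666168) (l 16656272)) (c (l 16645144) (l 16633288))))) (b (a (b (a (l 16687912) (l 16677848)) (l 16641320)) (a (l 16615960) (l 16627456))) (a (c (l 16615552) (l 16582096)) (b (l 16622080) (b (l 16606296) (a (l 16580016) (c (l 16605856) (l 16588640)))))))) (b (a (b (a (c (l 16643384) (l 16631160)) (a (l 16621712) (b (l 16617360) (c (l 16594352) (l 16599880))))) (a (b (a (l 16625000) (a (l 16617096) (l 16612400))) (a (b (l 16616168) (a (l 16613512) (l 16590648))) (b (c (l 16618352)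 (l 16602288)) (l 16614288)))) (b (a (b (a (l 16609752) (l 16606192)) (c (l 16616384) (l 16599680))) (c (l 16618616) (l 16599616))) (c (l 16630328) (l 16606808))))) (b (a (b (a (l 16607744) (b (l 16601544) (c (l 16608608) (l 16591944)))) (a (c (b (l 16610552) (l 16614408)) (l 16595632)) (l 16607344))) (b (a (b (l 16577688) (l 16603728)) (l 16605856)) (c (l 16628152) (l 16601096)))) (a (c (l 16594664) (l 16587152)) (c (l 16608280) (l 16613808))))) (a (b (a (a (b (c (l 16607216) (l 16608832)) (l 16589288)) (b (l 16581608) (l 16594160))) (c (l 16601152) (l 16578432))) (c (a (b (l 16642760) (l 16638120)) (l 16622520)) (a (l 16591808) (l 16597160)))) (c (a (b (l 16604248) (l 16615720)) (b (l 16638536) (l 16585744))) (a (b (l 16604928) (l 16602488)) (b (l 16610416) (l 16607776))))))), by decide +kernel⟩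

def k64_pm_011_t : ∃ t, chk3 f_pm_011_t t 21 30 1 = true :=
  ⟨(b (a (b (a (b (l 16644688) (l 16624656)) (l 16596304)) (b (a (a (l 16608456) (l 16579448)) (b (a (l 16596344) (l 16590328)) (a (c (l 16599976) (l 16582776)) (l 16593184)))) (a (b (a (b (l 16595688) (l 16593840)) (b (l 16592224) (l 16596552))) (l 16560256)) (c (l 16620152) (l 16592816))))) (a (b (b (l 16610512) (b (l 16595960) (a (l 16590616) (l 16586616)))) (b (c (b (l 16600824) (l 16613488)) (l 16584152)) (l 16553304))) (b (b (l 16595224) (b (a (l 16586064) (l 16584272)) (l 16569216))) (c (l 16570408) (l 16576072))))) (a (b (c (a (b (l 16613584) (l 16621608)) (l 16578312)) (a (b (l 16602792) (l 16619432)) (l 16553808))) (c (a (a (l 16544520) (l 16529664)) (a (l 16514872) (l 16521112))) (c (l 16581560) (l 16568464)))) (b (c (a (l 16587616) (l 16558080)) (b (l 16575048) (l 16591208))) (b (a (l 16515544) (l 16489944)) (a (l 16455592) (l 16451200)))))), by decide +kernel⟩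

def k65_pm_011_t : ∃ t, chk3 f_pm_011_t t 10 62 2 = true :=
  ⟨(a (b (a (b (a (l 16607176) (l 16576992)) (a (b (l 16590744) (l 16565136)) (l 16506136))) (a (b (l 16547040) (l 16497440)) (b (l 16538312) (l 16468024)))) (a (b (c (a (l 16527304) (l 16495712)) (a (l 16566496) (l 16559864))) (c (a (l 16470512) (l 16439240)) (a (l 16537768) (l 16531424)))) (c (b (a (l 16485384) (l 16475352)) (a (l 16429232) (l 16419528))) (b (l 16455880) (l 16385936))))) (b (a (b (c (l 16472888) (l 16515760)) (a (l 16459840) (l 16451928))) (c (a (l 16400912) (l 16412688)) (l 16376144))) (b (a (a (l 16387928) (l 16380312)) (a (l 16372976) (l 16386912))) (a (a (l 16335896) (l 16328592)) (a (l 16321568) (l 16314848)))))), by decide +kernel⟩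

def k66_pm_011_t : ∃ t, chk3 f_pm_011_t t 10 63 2 = true :=
  ⟨(b (b (a (a (a (b (l 16432440) (l 16384624)) (b (l 16403376) (l 16376696))) (a (b (l 16395520) (l 16348032)) (c (l 16363312) (l 16428360)))) (a (a (l 16241640) (l 16255632)) (a (l 16248936) (l 16263504)))) (a (b (a (a (l 16357728) (l 16328992)) (a (l 16321464) (l 16314192))) (a (a (c (l 16383256) (l 16446336)) (l 16281232)) (a (l 16273872) (l 16266768)))) (a (a (c (l 16277112) (l 16353200)) (l 16161544)) (a (l 16176144) (l 16191048))))) (a (b (a (c (a (b (l 16354312) (l 16325272)) (b (l 16323976) (l 16295120))) (a (l 16387760) (l 16382352))) (a (b (l 16226232) (l 16178544)) (c (l 16208016) (l 16330168)))) (a (b (a (b (l 16256376) (a (l 16249704) (l 16235856))) (b (l 16249248) (c (l 16217752) (l 16339288)))) (a (l 16257584) (l 16252304))) (b (b (a (l 16221384) (l 16214752)) (a (c (l 16231064) (l 16314160)) (l 16141128))) (c (l 16213904) (l 16297168))))) (b (a (c (a (l 16220648) (l 16191664)) (l 16228664)) (a (l 16082232) (l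 16118448))) (a (b (b (c (l 16170792) (l 16261152)) (a (l 16177984) (l 16194192))) (c (l 16160064) (l 16249368))) (b (a (b (l 16175328) (l 16168752)) (l 16083904)) (l 16091984)))))), by decide +kernel⟩

def k67_pm_011_t : ∃ t, chk3 f_pm_011_t t 10 31 3 = true :=
  ⟨(b (a (b (a (b (a (l 16611560) (l 16595736)) (a (l 16611688) (l 16616616))) (b (b (l 16598504) (l 16608400)) (b (l 16577464) (l 16559104)))) (a (b (a (l 16584544) (l 16563048)) (a (l 16545696) (l 16524448))) (b (a (l 16541584) (l 16520160)) (a (l 16503232) (l 16503032))))) (b (a (b (l 16539488) (l 16504160)) (a (l 16489472) (l 16468032))) (a (c (a (l 16470968) (l 16468928)) (b (l 16580288) (l 16525192))) (c (l 16392744) (c (l 16507328) (l 16563104)))))) (a (b (a (c (b (l 16467896) (l 16425720)) (b (l 16546272) (l 16532864))) (b (a (l 16465040) (l 16465088)) (a (l 16427136) (l 16427448)))) (b (c (a (l 16383704) (l 16380912)) (a (l 16498904) (l 16482936))) (a (b (a (l 16401536) (l 16381368)) (l 16400512)) (b (a (l 16382304) (l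 16362416)) (l 16361808))))) (a (b (b (l 16370896) (l 16333648)) (b (l 16275744) (b (l 16270008) (l 16344312)))) (b (b (l 16371440) (l 16334704)) (b (l 16277328) (l 16227992)))))), by decide +kernel⟩

def k68_pm_011_t : ∃ t, chk3 f_pm_011_t t 11 15 1 = true :=
  ⟨(a (a (c (b (b (b (b (a (l 16553184) (l 16597320)) (l 16593728)) (l 16547552)) (b (b (l 16577392) (l 16514008)) (c (l 16403720) (l 16471832)))) (b (b (a (l 16307040) (l 16321136)) (b (l 16261576) (l 16189984))) (b (b (l 16118152) (c (l 16147744) (l 16238680))) (a (b (l 16134008) (l 16016704)) (b (l 16128904) (l 16076224)))))) (b (b (b (b (a (l 16577272) (l 16575184)) (l 16584792)) (l 16542648)) (b (l 16572768) (l 16502152))) (b (b (a (l 16467680) (l 16446496)) (c (l 16410560) (l 16465464))) (b (l 16207400) (b (l 16279352) (l 16273712)))))) (b (b (b (c (l 16544112) (l 16547816)) (b (l 16532224) (l 16488864))) (b (b (l 16453936) (l 16397024)) (c (l 16308088) (l 16459208)))) (b (c (b (b (l 16366448) (l 16319328)) (a (l 16195784) (l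 16169208))) (b (b (l 16452968) (l 16439976)) (l 16302344))) (c (b (a (l 16032096) (l 16048120)) (b (l 16006536) (l 15935840))) (b (l 16230168) (b (l 16281920) (l 16278024))))))) (b (b (b (a (a (l 16517424) (l 16525856)) (a (l 16503824) (l 16458080))) (a (b (l 16472152) (l 16438656)) (b (l 16422632) (l 16389552)))) (b (a (b (l 16383192) (l 16347704)) (b (l 16334520) (l 16299496))) (a (c (l 16274224) (l 16416952)) (c (l 16220864) (l 16396424))))) (b (c (b (a (b (l 16333440) (l 16286912)) (l 16069256)) (a (b (l 16238560) (l 16189200)) (b (l 16187280) (l 16138560)))) (c (b (l 16251424) (l 16175408)) (b (a (l 16474192) (l 16457496)) (l 16329712)))) (c (b (a (b (l 16139656) (l 16090032)) (c (l 16013216) (l 16117544))) (b (a (l 16019352) (l 15886216)) (a (l 16015104) (l 6)))) (b (a (l 16211664) (l 16172920)) (b (a (l 16264192) (l 16183752)) (l 16097504))))))), by decide +kernel⟩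

def k69_pm_011_t : ∃ t, chk3 f_pm_011_t t 3 6 1 = true :=
  ⟨(a (b (a (b (l 4) (a (l 4) (b (l 4) (a (l 4) (b (l 4) (l 109756414759)))))) (b (l 1) (a (b (l 1) (a (b (l 1) (l 16763328)) (l 1))) (l 1)))) (a (b (a (b (l 4) (a (b (l 4) (a (l 4) (l 16717392))) (b (l 102240207591) (l 16745352)))) (b (a (c (l 97408333191) (l 96871459159)) (a (l 16746384) (l 16757008))) (a (l 16710336) (l 16731520)))) (a (b (a (b (a (l 16730104) (l 16766776)) (l 16754432)) (b (l 16749064) (l 16709976))) (a (b (l 16735000) (l 16693680)) (b (l 16691048) (l 16692232)))) (b (a (l 16718408) (l 16698536)) (a (l 16660624) (l 16662800))))) (b (a (b (a (l 16742168) (l 16723528)) (a (l 16712320) (l 16694472))) (b (l 1) (l 16648832))) (a (b (a (l 16680256) (l 16663352)) (a (l 16645608) (l 16629792))) (b (a (l 16647584) (l 16632744)) (a (l 16615136) (l 16601408))))))) (b (l 1) (a (a (a (a (b (l 1) (l 16565176)) (l 1)) (l 1)) (l 1)) (l 1)))), by decide +kernel⟩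

def k70_pm_011_t : ∃ t, chk3 f_pm_011_t t 6 14 1 = true :=
  ⟨(a (b (a (b (a (a (l 16667008) (l 16655704)) (b (l 16671520) (l 16649816))) (a (b (l 16647472) (l 16622784)) (l 16552312))) (b (a (l 16599448) (l 16602872)) (b (l 16537408) (a (a (l 16589736) (l 16582480)) (b (a (l 16579336) (l 16574480)) (a (l 16552344) (l 16576448))))))) (b (a (b (a (l 16596808) (b (l 16584368) (a (l 16577096) (l 16552528)))) (b (a (a (l 16581296) (l 16554120)) (a (l 16553648) (l 16581856))) (a (a (c (l 16584480) (l 16564504)) (l 16557768)) (l 16548864)))) (a (b (b (a (l 16574456) (l 16552936)) (l 16507296)) (c (l 16618768) (l 16578784))) (b (l 16505360) (l 16447392)))) (c (a (a (b (l 16592456) (l 16558848)) (b (l 16591664) (l 16483896))) (a (b (l 16538624) (b (l 16490208) (l 16477784))) (b (l 16476896) (l 16402192)))) (a (a (b (l 16577552) (l 16576728)) (b (l 16587176) (l 16606648))) (a (l 16448320) (l 16428384)))))) (b (a (b (a (l 16586944) (b (l 16602768) (l 16574352))) (b (a (c (l 16569664) (l 16550432))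 (b (a (l 16553664) (l 16573784)) (l 16557768))) (a (c (l 16552312) (l 16566936)) (l 16529512)))) (b (b (a (l 16589048) (b (l 16580560) (l 16554432))) (a (c (l 16566560) (l 16567016)) (c (l 16583680) (l 16564952)))) (c (a (l 16516056) (l 16470288)) (a (l 16573960) (l 16558128))))) (a (a (b (b (l 16492608) (l 16402000)) (b (l 16329664) (a (l 16328344) (l 16306728)))) (b (b (l 16448208) (l 16358192)) (b (l 16286536) (b (l 16309688) (l 16282296))))) (a (b (b (l 16384488) (l 16337040)) (b (l 16245088) (l 16150496))) (b (b (l 16364448) (l 16296664)) (l 6)))))), by decide +kernel⟩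

def k71_pm_011_t : ∃ t, chk3 f_pm_011_t t 7 14 1 = true :=
  ⟨(a (b (a (b (a (b (c (l 16580008) (l 16563376)) (l 16554728)) (c (l 16517528) (l 16551384))) (b (a (l 16473472) (l 16434952)) (c (l 16339336) (l 16486776)))) (b (l 1) (l 6))) (a (a (b (b (l 16325240) (l 6)) (l 6)) (l 6)) (l 6))) (l 6)), by decide +kernel⟩

def k72_pm_011_t : ∃ t, chk3 f_pm_011_t t 3 15 1 = true :=
  ⟨(a (b (a (b (a (b (a (a (l 16433616) (l 16409472)) (b (l 16409952) (l 16379520))) (a (b (l 16374304) (l 16341648)) (b (l 16327272) (l 16295048)))) (c (b (a (l 16384096) (l 16355544)) (a (l 16311800) (l 16284224))) (a (b (l 16481752) (l 16409688)) (c (l 16365968) (l 16467864))))) (b (a (a (b (l 16287056) (l 16252488)) (b (l 16240896) (l 16206784))) (c (a (l 16214360) (l 16187840)) (c (l 16320016) (l 16394248)))) (a (a (b (l 16196008) (l 16138616)) (b (l 16150784) (l 16093880))) (a (c (l 16133736) (l 16298080)) (l 6))))) (b (a (a (b (b (l 16275040) (l 16245816)) (c (l 16258608) (l 16353272))) (a (b (l 16208184) (l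 6)) (l 6))) (l 6)) (l 6))) (a (a (a (b (c (b (l 16039648) (b (l 16137624) (l 16089552))) (b (l 16293144) (l 16204200))) (a (b (b (l 15970128) (l 6)) (l 6)) (l 6))) (b (b (c (l 16011752) (l 16254192)) (l 6)) (l 6))) (b (l 6) (l 6))) (l 6))) (l 6)), by decide +kernel⟩

theorem s73_pm_011_t : ∃ t, chk3 f_pm_011_t t 3 14 1 = true := ex3_a k70_pm_011_t k71_pm_011_t

theorem s74_pm_011_t : ∃ t, chk3 f_pm_011_t t 3 7 1 = true := ex3_b s73_pm_011_t k72_pm_011_t

theorem s75_pm_011_t : ∃ t, chk3 f_pm_011_t t 3 3 1 = true := ex3_b k69_pm_011_t s74_pm_011_t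

theorem s76_pm_011_t : ∃ t, chk3 f_pm_011_t t 10 31 2 = true := ex3_b k65_pm_011_t k66_pm_011_t

theorem s77_pm_011_t : ∃ t, chk3 f_pm_011_t t 10 31 1 = true := ex3_c s76_pm_011_t k67_pm_011_t

theorem s78_pm_011_t : ∃ t, chk3 f_pm_011_t t 10 30 1 = true := ex3_a k63_pm_011_t k64_pm_011_t

theorem s79_pm_011_t : ∃ t, chk3 f_pm_011_t t 10 15 1 = true := ex3_b s78_pm_011_t s77_pm_011_t

theorem s80_pm_011_t : ∃ t, chk3 f_pm_011_t t 5 15 1 = true := ex3_a s79_pm_011_t k68_pm_011_t

theorem s81_pm_011_t : ∃ t, chk3 f_pm_011_t t 10 29 1 = true := ex3_a k60_pm_011_t k61_pm_011_t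

theorem s82_pm_011_t : ∃ t, chk3 f_pm_011_t t 10 14 1 = true := ex3_b k59_pm_011_t s81_pm_011_t

theorem s83_pm_011_t : ∃ t, chk3 f_pm_011_t t 5 14 1 = true := ex3_a s82_pm_011_t k62_pm_011_t

theorem s84_pm_011_t : ∃ t, chk3 f_pm_011_t t 5 7 1 = true := ex3_b s83_pm_011_t s80_pm_011_t

theorem s85_pm_011_t : ∃ t, chk3 f_pm_011_t t 18 63 1 = true := ex3_b k56_pm_011_t k57_pm_011_t

theorem s86_pm_011_t : ∃ t, chk3 f_pm_011_t t 9 63 1 = true := ex3_a s85_pm_011_t k58_pm_011_t

theorem s87_pm_011_t : ∃ t, chk3 f_pm_011_t t 9 125 1 = true := ex3_b k54_pm_011_t k55_pm_011_t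

theorem s88_pm_011_t : ∃ t, chk3 f_pm_011_t t 18 124 1 = true := ex3_a k51_pm_011_t k52_pm_011_t

theorem s89_pm_011_t : ∃ t, chk3 f_pm_011_t t 9 124 1 = true := ex3_a s88_pm_011_t k53_pm_011_t

theorem s90_pm_011_t : ∃ t, chk3 f_pm_011_t t 9 62 1 = true := ex3_b s89_pm_011_t s87_pm_011_t

theorem s91_pm_011_t : ∃ t, chk3 f_pm_011_t t 9 31 1 = true := ex3_b s90_pm_011_t s86_pm_011_t

theorem s92_pm_011_t : ∃ t, chk3 f_pm_011_t t 19 60 1 = true := ex3_a k48_pm_011_t k49_pm_011_t

theorem s93_pm_011_t : ∃ t, chk3 f_pm_011_t t 19 30 1 = true := ex3_b s92_pm_011_t k50_pm_011_t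

theorem s94_pm_011_t : ∃ t, chk3 f_pm_011_t t 37 61 1 = true := ex3_b k46_pm_011_t k47_pm_011_t

theorem s95_pm_011_t : ∃ t, chk3 f_pm_011_t t 36 123 1 = true := ex3_b k44_pm_011_t k45_pm_011_t

theorem s96_pm_011_t : ∃ t, chk3 f_pm_011_t t 36 61 1 = true := ex3_b k43_pm_011_t s95_pm_011_t

theorem s97_pm_011_t : ∃ t, chk3 f_pm_011_t t 18 61 1 = true := ex3_a s96_pm_011_t s94_pm_011_t

theorem s98_pm_011_t : ∃ t, chk3 f_pm_011_t t 18 30 1 = true := ex3_b k42_pm_011_t s97_pm_011_t

theorem s99_pm_011_t : ∃ t, chk3 f_pm_011_t t 9 30 1 = true := ex3_a s98_pm_011_t s93_pm_011_t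

theorem s100_pm_011_t : ∃ t, chk3 f_pm_011_t t 9 15 1 = true := ex3_b s99_pm_011_t s91_pm_011_t

theorem s101_pm_011_t : ∃ t, chk3 f_pm_011_t t 17 255 1 = true := ex3_a k40_pm_011_t k41_pm_011_t

theorem s102_pm_011_t : ∃ t, chk3 f_pm_011_t t 17 127 1 = true := ex3_b k39_pm_011_t s101_pm_011_t

theorem s103_pm_011_t : ∃ t, chk3 f_pm_011_t t 34 126 1 = true := ex3_a k36_pm_011_t k37_pm_011_t

theorem s104_pm_011_t : ∃ t, chk3 f_pm_011_t t 17 126 1 = true := ex3_a s103_pm_011_t k38_pm_011_t

theorem s105_pm_011_t : ∃ t, chk3 f_pm_011_t t 17 63 1 = true := ex3_b s104_pm_011_t s102_pm_011_t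

theorem s106_pm_011_t : ∃ t, chk3 f_pm_011_t t 71 124 1 = true := ex3_b k33_pm_011_t k34_pm_011_t

theorem s107_pm_011_t : ∃ t, chk3 f_pm_011_t t 70 249 1 = true := ex3_a k31_pm_011_t k32_pm_011_t

theorem s108_pm_011_t : ∃ t, chk3 f_pm_011_t t 70 124 1 = true := ex3_b k30_pm_011_t s107_pm_011_t

theorem s109_pm_011_t : ∃ t, chk3 f_pm_011_t t 35 124 1 = true := ex3_a s108_pm_011_t s106_pm_011_t

theorem s110_pm_011_t : ∃ t, chk3 f_pm_011_t t 35 62 1 = true := ex3_b s109_pm_011_t k35_pm_011_t

theorem s111_pm_011_t : ∃ t, chk3 f_pm_011_t t 69 250 1 = true := ex3_a k27_pm_011_t k28_pm_011_t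

theorem s112_pm_011_t : ∃ t, chk3 f_pm_011_t t 69 125 1 = true := ex3_b s111_pm_011_t k29_pm_011_t

theorem s113_pm_011_t : ∃ t, chk3 f_pm_011_t t 68 251 1 = true := ex3_a k25_pm_011_t k26_pm_011_t

theorem s114_pm_011_t : ∃ t, chk3 f_pm_011_t t 68 125 1 = true := ex3_b k24_pm_011_t s113_pm_011_t

theorem s115_pm_011_t : ∃ t, chk3 f_pm_011_t t 34 125 1 = true := ex3_a s114_pm_011_t s112_pm_011_t

theorem s116_pm_011_t : ∃ t, chk3 f_pm_011_t t 34 62 1 = true := ex3_b k23_pm_011_t s115_pm_011_t

theorem s117_pm_011_t : ∃ t, chk3 f_pm_011_t t 17 62 1 = true := ex3_a s116_pm_011_t s110_pm_011_t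

theorem s118_pm_011_t : ∃ t, chk3 f_pm_011_t t 17 31 1 = true := ex3_b s117_pm_011_t s105_pm_011_t

theorem s119_pm_011_t : ∃ t, chk3 f_pm_011_t t 67 127 1 = true := ex3_b k21_pm_011_t k22_pm_011_t

theorem s120_pm_011_t : ∃ t, chk3 f_pm_011_t t 66 127 1 = true := ex3_a k19_pm_011_t k20_pm_011_t

theorem s121_pm_011_t : ∃ t, chk3 f_pm_011_t t 33 127 1 = true := ex3_a s120_pm_011_t s119_pm_011_t

theorem s122_pm_011_t : ∃ t, chk3 f_pm_011_t t 135 252 1 = true := ex3_b k16_pm_011_t k17_pm_011_t

theorem s123_pm_011_t : ∃ t, chk3 f_pm_011_t t 134 505 1 = true := ex3_a k14_pm_011_t k15_pm_011_t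

theorem s124_pm_011_t : ∃ t, chk3 f_pm_011_t t 134 252 1 = true := ex3_b k13_pm_011_t s123_pm_011_t

theorem s125_pm_011_t : ∃ t, chk3 f_pm_011_t t 67 252 1 = true := ex3_a s124_pm_011_t s122_pm_011_t

theorem s126_pm_011_t : ∃ t, chk3 f_pm_011_t t 67 126 1 = true := ex3_b s125_pm_011_t k18_pm_011_t

theorem s127_pm_011_t : ∃ t, chk3 f_pm_011_t t 133 506 1 = true := ex3_b k10_pm_011_t k11_pm_011_t

theorem s128_pm_011_t : ∃ t, chk3 f_pm_011_t t 133 253 1 = true := ex3_b s127_pm_011_t k12_pm_011_t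

theorem s129_pm_011_t : ∃ t, chk3 f_pm_011_t t 132 507 1 = true := ex3_b k8_pm_011_t k9_pm_011_t

theorem s130_pm_011_t : ∃ t, chk3 f_pm_011_t t 132 253 1 = true := ex3_b k7_pm_011_t s129_pm_011_t

theorem s131_pm_011_t : ∃ t, chk3 f_pm_011_t t 66 253 1 = true := ex3_a s130_pm_011_t s128_pm_011_t

theorem s132_pm_011_t : ∃ t, chk3 f_pm_011_t t 66 126 1 = true := ex3_b k6_pm_011_t s131_pm_011_t

theorem s133_pm_011_t : ∃ t, chk3 f_pm_011_t t 33 126 1 = true := ex3_a s132_pm_011_t s126_pm_011_t

theorem s134_pm_011_t : ∃ t, chk3 f_pm_011_t t 33 63 1 = true := ex3_b s133_pm_011_t s121_pm_011_t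

theorem s135_pm_011_t : ∃ t, chk3 f_pm_011_t t 16 63 1 = true := ex3_a k5_pm_011_t s134_pm_011_t

theorem s136_pm_011_t : ∃ t, chk3 f_pm_011_t t 16 31 1 = true := ex3_b k4_pm_011_t s135_pm_011_t

theorem s137_pm_011_t : ∃ t, chk3 f_pm_011_t t 8 31 1 = true := ex3_a s136_pm_011_t s118_pm_011_t

theorem s138_pm_011_t : ∃ t, chk3 f_pm_011_t t 8 15 1 = true := ex3_b k3_pm_011_t s137_pm_011_t

theorem s139_pm_011_t : ∃ t, chk3 f_pm_011_t t 4 15 1 = true := ex3_a s138_pm_011_t s100_pm_011_t

theorem s140_pm_011_t : ∃ t, chk3 f_pm_011_t t 4 7 1 = true := ex3_b k2_pm_011_t s139_pm_011_t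

theorem s141_pm_011_t : ∃ t, chk3 f_pm_011_t t 2 7 1 = true := ex3_a s140_pm_011_t s84_pm_011_t

theorem s142_pm_011_t : ∃ t, chk3 f_pm_011_t t 2 3 1 = true := ex3_b k1_pm_011_t s141_pm_011_t

theorem s143_pm_011_t : ∃ t, chk3 f_pm_011_t t 1 3 1 = true := ex3_a s142_pm_011_t s75_pm_011_t

theorem s144_pm_011_t : ∃ t, chk3 f_pm_011_t t 1 1 1 = true := ex3_b k0_pm_011_t s143_pm_011_t

theorem c_pm_011_t : CertNE 0 536870912 536870912 536870912 1020054732 13421774 3 eng mog cd0q0 cd0q1 pd1 false true false .pnn 0 1 1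
    ndB0q0 ndB0q1 pcB1 cut_pm_011_t Ext.none :=
  certNE0 (fam := false) (s1 := true) (s2 := false) (a := 0) (b := 1) (c := 1) (cn := .pnn) (n1 := ndB0q0) (n2 := ndB0q1) (pc := pcB1) (cut := cut_pm_011_t) (xt := Ext.none) (P1 := 0) (W1 := 536870912) (P2 := 536870912) (W2 := 536870912) (P3 := 1020054732) (W3 := 13421774) (N0 := 3) (En := eng) (mo := mog) (C1 := cd0q0) (C2 := cd0q1) (C3 := pd1)
    rfl s144_pm_011_t

noncomputable def cut_pm_012_s : Cut := Cut.of [[⟨4, 0, 0, 1449551462⟩], [⟨0, 0, 0, 38347922⟩, ⟨1, 1, 0, 38347922⟩, ⟨2, 1, 0, 38347922⟩]]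

noncomputable def f_pm_012_s : ℕ → ℕ → ℕ → ℕ → Bool := onCell 0 536870912 0 536870912 1020054732 13421774
    (rowNE 3 eng mog cd0q0 cd0q2 pd1 0 false true false .pnp 0 1 2 (qsf 0 536870912 0 536870912 1) ndB0q0 ndB0q2 pcB1 cut_pm_012_s Ext.none)

def k0_pm_012_s : ∃ t, chk3 f_pm_012_s t 1 1 1 = true :=
  ⟨(a (l 6) (b (a (b (a (l 6) (a (l 6) (a (l 6) (a (l 6) (b (l 16594648) (l 6)))))) (l 6)) (b (a (b (a (b (c (l 16565912) (l 16562584)) (l 6)) (a (c (l 16582712) (l 16574816)) (c (a (l 16636456) (l 16608432)) (c (l 16659904) (l 16609880))))) (l 6)) (b (a (c (b (a (b (l 16547208) (l 16635960)) (b (l 16560080) (a (l 16621128) (l 16590584)))) (a (l 16644056) (l 16606592))) (b (a (b (l 16563712) (l 16660352)) (b (l 16613064) (l 16563392))) (a (l 16650704) (l 16632600)))) (c (b (a (a (l 16511392) (l 16574792)) (l 16601648)) (a (c (l 16502376) (l 16586704)) (b (a (l 16569368) (l 16588440)) (l 16485360)))) (b (a (c (l 16685152) (l 16654480)) (l 16664824)) (c (a (l 16669152) (l 16579816)) (a (l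 16661904) (l 16643136)))))) (b (a (c (a (l 16652864) (l 16640168)) (a (l 16639728) (l 16657528))) (a (c (l 16624968) (l 16674888)) (c (l 16544080) (l 16630328)))) (a (l 6) (a (c (l 16638736) (l 16657720)) (c (l 16624648) (l 16658384))))))) (l 6))) (l 6))), by decide +kernel⟩

theorem c_pm_012_s : CertNE 0 536870912 0 536870912 1020054732 13421774 3 eng mog cd0q0 cd0q2 pd1 false true false .pnp 0 1 2
    ndB0q0 ndB0q2 pcB1 cut_pm_012_s Ext.none :=
  certNE0 (fam := false) (s1 := true) (s2 := false) (a := 0) (b := 1) (c := 2) (cn := .pnp) (n1 := ndB0q0) (n2 := ndB0q2) (pc := pcB1) (cut := cut_pm_012_s) (xt := Ext.none) (P1 := 0) (W1 := 536870912) (P2 := 0) (W2 := 536870912) (P3 := 1020054732) (W3 := 13421774) (N0 := 3) (En := eng) (mo := mog) (C1 := cd0q0) (C2 := cd0q2) (C3 := pd1)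
    rfl k0_pm_012_s

noncomputable def cut_pm_012_t : Cut := Cut.of [[⟨3, 0, 0, 2845415833⟩], [⟨0, 0, 0, 38347922⟩, ⟨1, 1, 0, 38347922⟩, ⟨2, 1, 0, 38347922⟩]]

noncomputable def f_pm_012_t : ℕ → ℕ → ℕ → ℕ → Bool := onCell 536870912 536870912 0 536870912 1020054732 13421774
    (rowNE 3 eng mog cd0q0 cd0q2 pd1 2 false true false .pnp 0 1 2 (qsf 0 536870912 0 536870912 1) ndB0q0 ndB0q2 pcB1 cut_pm_012_t Ext.none)

def k0_pm_012_t : ∃ t, chk3 f_pm_012_t t 2 1 1 = true :=
  ⟨(b (l 6) (b (l 6) (l 6))), by decide +kernel⟩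

def k1_pm_012_t : ∃ t, chk3 f_pm_012_t t 3 2 1 = true :=
  ⟨(l 6), by decide +kernel⟩

def k2_pm_012_t : ∃ t, chk3 f_pm_012_t t 6 3 1 = true :=
  ⟨(b (l 6) (b (l 6) (a (b (l 6) (b (a (l 6) (a (l 6) (c (l 16068952) (l 16311032)))) (c (a (a (l 6) (l 15979152)) (a (l 15958192) (c (l 16082000) (l 16173392)))) (a (l 16060120) (a (l 16257864) (l 16271672)))))) (b (b (a (l 6) (a (l 6) (a (l 6) (a (l 16327240) (l 16334760))))) (a (a (l 6) (a (l 6) (a (l 16207000) (l 16194160)))) (c (a (b (l 16312320) (l 16255792)) (a (l 16291024) (l 16289104))) (a (l 16356088) (b (l 16450504) (l 16426496)))))) (c (a (b (a (c (l 16175856) (l 16249984)) (a (l 16180024) (l 16158592))) (a (a (l 16077168) (l 16037032)) (c (a (l 16165568) (l 16169320)) (l 16196728)))) (b (a (b (l 16197752) (c (l 16252984) (l 16321416))) (b (c (l 16314832) (l 16373744)) (a (l 16299272) (l 16321752)))) (a (b (a (l 16240232) (l 16242568)) (a (l 16184584) (l 16188384))) (b (a (l 16245200) (l 16269088)) (c (a (l 16260176) (l 16287088))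 (l 16325608)))))) (a (b (a (l 16321744) (l 16291144)) (a (l 16244200) (b (l 16345248) (l 16320616)))) (b (a (a (l 16378712) (l 16395248)) (b (l 16422048) (l 16397496))) (a (b (l 16359784) (l 16336952)) (a (l 16386104) (l 16383544)))))))))), by decide +kernel⟩

def k3_pm_012_t : ∃ t, chk3 f_pm_012_t t 7 6 1 = true :=
  ⟨(l 6), by decide +kernel⟩

def k4_pm_012_t : ∃ t, chk3 f_pm_012_t t 14 14 1 = true :=
  ⟨(b (l 6) (b (a (l 6) (a (l 6) (b (l 6) (a (l 16471112) (l 16484360))))) (a (a (l 6) (b (l 6) (a (l 16399704) (l 16414000)))) (a (c (a (l 16483112) (l 16478048)) (a (l 16519432) (l 16531960))) (a (c (l 16494288) (l 16544560)) (c (l 16510936) (l 16557328))))))), by decide +kernel⟩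

def k5_pm_012_t : ∃ t, chk3 f_pm_012_t t 14 30 1 = true :=
  ⟨(a (a (c (b (a (l 16409272) (l 16405376)) (c (a (l 16367816) (l 16388576)) (l 16363392))) (b (l 16437272) (a (l 16450656) (l 16465896)))) (b (c (a (l 16422776) (l 16440496)) (a (l 16499864) (l 16513704))) (c (a (b (l 16435704) (l 16428464)) (b (l 16455336) (l 16449392))) (b (l 16488856) (l 16468048))))) (a (b (c (a (l 16458536) (l 16476880)) (a (l 16527624) (l 16541600))) (a (c (b (l 16475272) (l 16449632)) (l 16511984)) (c (b (l 16495488) (l 16471136)) (l 16506504)))) (b (c (a (l 16474616) (l 16493472)) (a (l 16534728) (l 16548688))) (c (a (b (l 16515976) (l 16492720)) (b (l 16515560) (l 16514376))) (a (l 16521840) (l 16536992)))))), by decide +kernel⟩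

def k6_pm_012_t : ∃ t, chk3 f_pm_012_t t 14 31 1 = true :=
  ⟨(a (c (b (a (b (a (l 16355200) (l 16376888)) (a (l 16323544) (l 16346600))) (b (a (l 16398856) (l 16421104)) (a (l 16369920) (l 16393504)))) (a (b (a (l 16293256) (l 16317696)) (c (a (l 16314320) (l 16341864)) (l 16331536))) (a (b (l 16321416) (c (l 16369768) (l 16430944))) (b (l 16346384) (c (l 16397824) (l 16455336)))))) (b (a (b (l 16433824) (l 16431896)) (b (l 16466800) (l 16466456))) (a (a (l 16401992) (l 16420456)) (a (b (l 16500784) (l 16482624)) (b (l 16518888) (l 16501392)))))) (c (b (a (b (a (l 16422696) (l 16445384)) (a (l 16417344) (l 16441248))) (b (a (l 16468136) (l 16490832)) (a (l 16465088) (l 16467960)))) (a (a (b (c (l 16430200) (l 16480632)) (c (l 16405032) (l 16479720))) (b (c (l 16457080) (l 16503872)) (c (l 16412224) (l 16503936)))) (b (a (c (l 16483960) (l 16526968)) (b (l 16488480) (l 16488616))) (a (a (l 16456672) (l 16469784)) (a (l 16482928) (l 16475136)))))) (b (a (b (l 16478936) (a (l 16534400)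 (l 16551496))) (c (b (l 16555600) (l 16556600)) (b (l 16593112) (l 16596472)))) (a (c (b (l 16520552) (l 16502432)) (b (l 16570720) (l 16576792))) (a (a (l 16527784) (l 16536520)) (b (l 16567872) (l 16573720))))))), by decide +kernel⟩

def k7_pm_012_t : ∃ t, chk3 f_pm_012_t t 15 14 1 = true :=
  ⟨(a (b (b (l 6) (a (l 6) (a (c (l 16535032) (l 16556456)) (c (l 16548312) (l 16566592))))) (a (b (c (a (l 16519480) (l 16534328)) (c (l 16530328) (l 16546984))) (a (c (l 16527728) (l 16548992)) (c (l 16544720) (l 16561544)))) (a (b (c (l 16549416) (l 16576648)) (c (l 16540752) (l 16573808))) (b (c (l 16543576) (l 16566736)) (c (l 16557864) (l 16585880)))))) (b (a (a (b (l 6) (c (l 16561664) (l 16576496))) (b (c (l 16553840) (l 16561856)) (a (l 16556800) (l 16562648)))) (a (b (c (l 16565712) (l 16570528)) (c (l 16578464) (l 16574976))) (b (a (l 16575912) (l 16581168)) (a (l 16590880) (a (l 16604568) (l 16603024)))))) (a (a (b (a (l 16564896) (l 16571456)) (c (l 16575168) (l 16597848))) (b (a (l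 16578032) (l 16584648)) (a (a (l 16595672) (l 16599744)) (c (l 16597360) (l 16626768))))) (b (a (a (l 16591304) (b (l 16613232) (l 16618568))) (a (a (l 16613776) (l 16612264)) (c (l 16611408) (l 16630216)))) (a (a (a (l 16610536) (l 16610488)) (b (l 16625112) (l 16633904))) (a (b (l 16622392) (l 16631776)) (b (l 16620200) (c (l 16631360) (l 16649568))))))))), by decide +kernel⟩

def k8_pm_012_t : ∃ t, chk3 f_pm_012_t t 30 15 1 = true :=
  ⟨(b (a (b (a (c (l 16512464) (l 16562520)) (c (l 16531448) (l 16576032))) (a (c (b (l 16536088) (l 16535992)) (l 16551816)) (c (b (l 16556672) (l 16557704)) (a (l 16583784) (l 16591040))))) (b (a (c (l 16550512) (l 16589344)) (c (a (l 16585920) (l 16595592)) (l 16602528))) (a (b (a (l 16552480) (l 16561232)) (c (l 16579584) (l 16604392))) (b (a (l 16590976) (l 16578912)) (c (a (l 16617200) (l 16607104)) (l 16619104)))))) (c (a (b (b (a (l 16513584) (l 16536456)) (a (l 16491888) (a (l 16572872) (l 16564168)))) (a (b (a (l 16528312) (l 16540936)) (a (c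 (l 16532232) (l 16570448)) (b (l 16542872) (l 16523536)))) (b (a (l 16532752) (l 16545288)) (a (b (l 16555880) (l 16536712)) (b (l 16568624) (l 16549400)))))) (b (a (b (a (l 16595704) (l 16586376)) (a (l 16576152) (l 16587832))) (b (a (l 16597672) (l 16608760)) (a (l 16599416) (l 16610480)))) (a (b (a (l 16557608) (a (l 16587496) (l 16593328))) (a (b (l 16580888) (l 16561736)) (b (l 16592856) (a (l 16591840) (l 16597888))))) (b (a (b (l 16601248) (l 16602800)) (b (l 16612552) (l 16614328))) (b (a (l 16583672) (a (l 16613600) (l 16619656))) (a (a (l 16603936) (l 16610072)) (a (l 16616304) (l 16622720)))))))) (b (a (a (b (l 16597904) (l 16580000)) (b (l 16592440) (l 16596592))) (a (b (l 16608032) (l 16611976)) (b (a (l 16640008) (l 16646960)) (a (l 16643832) (l 16650392))))) (a (b (a (l 16584776) (b (l 16600200) (l 16603208))) (a (a (l 16607896) (l 16595768)) (a (l 16604184) (l 16612248)))) (a (b (b (l 16615880) (l 16618632)) (a (l 16619680) (l 16626752))) (b (a (l 16648536) (l 16655048))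 (b (a (l 16652920) (l 16659848)) (a (l 16656448) (l 16663760))))))))), by decide +kernel⟩

def k9_pm_012_t : ∃ t, chk3 f_pm_012_t t 31 15 1 = true :=
  ⟨(b (a (b (a (a (b (l 16594696) (l 16602048)) (b (l 16602864) (l 16610304))) (a (b (l 16610720) (l 16618336)) (b (l 16618424) (l 16625824)))) (a (b (a (l 16587544) (l 16616872)) (c (a (l 16617736) (l 16627896)) (l 16632400))) (b (a (l 16624680) (c (l 16643536) (l 16662888))) (a (c (l 16637816) (l 16662112)) (c (l 16647632) (l 16667640)))))) (b (a (a (b (l 16625600) (l 16632968)) (b (l 16645272) (l 16648432))) (a (b (l 16643512) (a (l 16657488) (l 16656440))) (b (a (l 16642040) (l 16661984)) (c (l 16656056) (l 16653272))))) (a (b (a (c (l 16652840) (l 16668104)) (c (l 16662424) (l 16668408))) (a (c (l 16657784) (l 16673456)) (c (l 16668376) (l 16679680)))) (a (b (c (l 16672440) (l 16668296)) (l 14)) (l 14))))) (b (a (a (b (a (c (l 16619360) (l 16653280)) (c (l 16629600) (l 16659104))) (a (c (b (l 16641744) (l 16622072)) (l 16656560)) (c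 (a (l 16629528) (l 16635088)) (l 16662896)))) (b (a (c (l 16640104) (l 16665136)) (c (a (l 16648120) (l 16674520)) (l 16671392))) (a (c (a (l 16640720) (l 16646552)) (l 16669480)) (l 14)))) (l 14)) (a (a (a (b (c (b (l 16623856) (l 16615712)) (l 16651272)) (a (b (c (l 16625872) (l 16686248)) (l 14)) (l 14))) (a (b (b (l 16627856) (l 14)) (l 14)) (l 14))) (l 14)) (l 14)))), by decide +kernel⟩

theorem s10_pm_012_t : ∃ t, chk3 f_pm_012_t t 15 15 1 = true := ex3_a k8_pm_012_t k9_pm_012_t

theorem s11_pm_012_t : ∃ t, chk3 f_pm_012_t t 15 7 1 = true := ex3_b k7_pm_012_t s10_pm_012_t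

theorem s12_pm_012_t : ∃ t, chk3 f_pm_012_t t 14 15 1 = true := ex3_b k5_pm_012_t k6_pm_012_t

theorem s13_pm_012_t : ∃ t, chk3 f_pm_012_t t 14 7 1 = true := ex3_b k4_pm_012_t s12_pm_012_t

theorem s14_pm_012_t : ∃ t, chk3 f_pm_012_t t 7 7 1 = true := ex3_a s13_pm_012_t s11_pm_012_t

theorem s15_pm_012_t : ∃ t, chk3 f_pm_012_t t 7 3 1 = true := ex3_b k3_pm_012_t s14_pm_012_t

theorem s16_pm_012_t : ∃ t, chk3 f_pm_012_t t 3 3 1 = true := ex3_a k2_pm_012_t s15_pm_012_t

theorem s17_pm_012_t : ∃ t, chk3 f_pm_012_t t 3 1 1 = true := ex3_b k1_pm_012_t s16_pm_012_t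

theorem s18_pm_012_t : ∃ t, chk3 f_pm_012_t t 1 1 1 = true := ex3_a k0_pm_012_t s17_pm_012_t

theorem c_pm_012_t : CertNE 0 536870912 0 536870912 1020054732 13421774 3 eng mog cd0q0 cd0q2 pd1 false true false .pnp 0 1 2
    ndB0q0 ndB0q2 pcB1 cut_pm_012_t Ext.none :=
  certNE2 (fam := false) (s1 := true) (s2 := false) (a := 0) (b := 1) (c := 2) (cn := .pnp) (n1 := ndB0q0) (n2 := ndB0q2) (pc := pcB1) (cut := cut_pm_012_t) (xt := Ext.none) (P1 := 0) (W1 := 536870912) (P2 := 0) (W2 := 536870912) (P3 := 1020054732) (W3 := 13421774) (N0 := 3) (En := eng) (mo := mog) (C1 := cd0q0) (C2 := cd0q2) (C3 := pd1)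
    rfl (fun _ => rfl) s18_pm_012_t

noncomputable def cut_pm_022_s : Cut := Cut.of [[⟨4, 0, 0, 1449551462⟩], [⟨0, 0, 0, 38347922⟩, ⟨1, 1, 0, 38347922⟩, ⟨2, 1, 0, 38347922⟩]]

noncomputable def f_pm_022_s : ℕ → ℕ → ℕ → ℕ → Bool := onCell 1073741824 536870912 0 536870912 1020054732 13421774
    (rowNE 3 eng mog cd0q0 cd0q2 pd2 2 false true false .pp 0 2 2 (qsf 0 536870912 0 536870912 2) ndB0q0 ndB0q2 pcB2 cut_pm_022_s Ext.none)

def k0_pm_022_s : ∃ t, chk3 f_pm_022_s t 1 1 1 = true :=
  ⟨(l 6), by decide +kernel⟩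

theorem c_pm_022_s : CertNE 0 536870912 0 536870912 1020054732 13421774 3 eng mog cd0q0 cd0q2 pd2 false true false .pp 0 2 2
    ndB0q0 ndB0q2 pcB2 cut_pm_022_s Ext.none :=
  certNE2 (fam := false) (s1 := true) (s2 := false) (a := 0) (b := 2) (c := 2) (cn := .pp) (n1 := ndB0q0) (n2 := ndB0q2) (pc := pcB2) (cut := cut_pm_022_s) (xt := Ext.none) (P1 := 0) (W1 := 536870912) (P2 := 0) (W2 := 536870912) (P3 := 1020054732) (W3 := 13421774) (N0 := 3) (En := eng) (mo := mog) (C1 := cd0q0) (C2 := cd0q2) (C3 := pd2)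
    rfl (fun _ => rfl) k0_pm_022_s

noncomputable def cut_pm_022_t : Cut := Cut.of [[⟨3, 0, 0, 2845415833⟩], [⟨0, 0, 0, 38347922⟩, ⟨1, 1, 0, 38347922⟩, ⟨2, 1, 0, 38347922⟩]]

noncomputable def f_pm_022_t : ℕ → ℕ → ℕ → ℕ → Bool := onCell 0 536870912 0 536870912 1020054732 13421774
    (rowNE 3 eng mog cd0q0 cd0q2 pd2 0 false true false .pp 0 2 2 (qsf 0 536870912 0 536870912 2) ndB0q0 ndB0q2 pcB2 cut_pm_022_t Ext.none)

def k0_pm_022_t : ∃ t, chk3 f_pm_022_t t 2 2 1 = true :=
  ⟨(l 6), by decide +kernel⟩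

def k1_pm_022_t : ∃ t, chk3 f_pm_022_t t 4 6 1 = true :=
  ⟨(b (l 6) (b (a (a (a (b (a (l 16492664) (l 6)) (a (l 16513368) (l 16490728))) (b (l 6) (a (l 16488336) (l 6)))) (l 6)) (l 6)) (a (a (a (a (b (a (l 16537272) (l 16545256)) (b (l 16577880) (l 16594024))) (b (l 16504448) (b (l 16548888) (l 16563272)))) (b (a (l 16477544) (l 16471848)) (a (b (l 16540600) (l 16532728)) (b (l 16511872) (l 16523784))))) (a (b (a (l 16466616) (l 16441840)) (a (b (l 16483952) (l 16494704)) (l 16420360))) (b (l 6) (a (l 16417312) (l 16419000))))) (a (l 6) (l 1))))), by decide +kernel⟩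

def k2_pm_022_t : ∃ t, chk3 f_pm_022_t t 8 14 1 = true :=
  ⟨(a (b (a (b (b (a (l 16588120) (l 16555808)) (a (l 16593096) (l 16568472))) (a (b (a (l 16609928) (l 16623792)) (a (l 16613944) (l 16628128))) (b (l 16580192) (l 16591224)))) (b (a (b (l 16544936) (l 16556472)) (b (l 16534968) (l 16545448))) (a (b (l 16567272) (l 16556344)) (b (l 16534232) (l 16543280))))) (a (b (a (b (a (l 16619256) (l 16633600)) (a (l 16625744) (l 16640240))) (b (a (l 16631552) (l 16613424)) (a (l 16641248) (l 16622664)))) (a (b (a (b (l 16631336) (l 16635384)) (l 16647960)) (a (c (l 16644384) (l 16639384)) (l 16656608))) (b (a (l 16650256) (l 16631240)) (c (l 16625536) (l 16630512))))) (a (b (b (l 16565656) (c (l 16592048) (l 16598368))) (b (c (l 16600304) (l 16605936)) (a (l 16620080) (l 16622024)))) (b (b (l 16551624) (a (l 16589144) (l 16571368))) (b (a (l 16596392) (l 16578168)) (a (l 16603176) (l 16584520))))))) (b (a (b (a (b (l 16504776) (l 16514160)) (b (l 16475880) (l 16484168))) (a (b (l 16522872)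 (l 16509928)) (b (l 16491808) (l 16498800)))) (b (a (b (l 16450160) (l 16457344)) (b (l 16429176) (l 16435288))) (a (b (l 16463920) (l 16469880)) (b (l 16440808) (l 16445760))))) (a (b (a (b (l 16517280) (a (l 16553776) (l 16536336))) (b (l 16505152) (l 16489888))) (a (b (a (l 16560112) (l 16542208)) (a (l 16566024) (l 16547672))) (b (a (l 16524600) (l 16507712)) (a (l 16529616) (l 1))))) (b (a (b (l 16475232) (a (l 16487312) (l 16472976))) (b (l 16450136) (l 1))) (a (b (l 16463248) (l 1)) (l 1)))))), by decide +kernel⟩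

def k3_pm_022_t : ∃ t, chk3 f_pm_022_t t 8 15 1 = true :=
  ⟨(a (b (b (b (a (a (a (c (l 16653592) (l 16649288)) (l 16666208)) (a (l 16666648) (l 16646824))) (a (a (l 16627200) (l 16628736)) (a (l 16609480) (l 16590400)))) (l 14)) (l 14)) (l 14)) (b (a (b (a (b (a (l 16571488) (l 16552704)) (a (l 14) (l 1))) (l 1)) (l 1)) (l 1)) (l 1))), by decide +kernel⟩

def k4_pm_022_t : ∃ t, chk3 f_pm_022_t t 9 7 1 = true :=
  ⟨(b (a (b (a (b (a (b (l 16412424) (l 16417456)) (l 16400968)) (a (b (l 16421952) (l 1)) (l 1))) (l 1)) (l 1)) (l 1)) (l 1)), by decide +kernel⟩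

def k5_pm_022_t : ∃ t, chk3 f_pm_022_t t 5 3 1 = true :=
  ⟨(b (l 1) (l 1)), by decide +kernel⟩

def k6_pm_022_t : ∃ t, chk3 f_pm_022_t t 3 1 1 = true :=
  ⟨(l 1), by decide +kernel⟩

theorem s7_pm_022_t : ∃ t, chk3 f_pm_022_t t 8 7 1 = true := ex3_b k2_pm_022_t k3_pm_022_t

theorem s8_pm_022_t : ∃ t, chk3 f_pm_022_t t 4 7 1 = true := ex3_a s7_pm_022_t k4_pm_022_t

theorem s9_pm_022_t : ∃ t, chk3 f_pm_022_t t 4 3 1 = true := ex3_b k1_pm_022_t s8_pm_022_t

theorem s10_pm_022_t : ∃ t, chk3 f_pm_022_t t 2 3 1 = true := ex3_a s9_pm_022_t k5_pm_022_t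

theorem s11_pm_022_t : ∃ t, chk3 f_pm_022_t t 2 1 1 = true := ex3_b k0_pm_022_t s10_pm_022_t

theorem s12_pm_022_t : ∃ t, chk3 f_pm_022_t t 1 1 1 = true := ex3_a s11_pm_022_t k6_pm_022_t

theorem c_pm_022_t : CertNE 0 536870912 0 536870912 1020054732 13421774 3 eng mog cd0q0 cd0q2 pd2 false true false .pp 0 2 2
    ndB0q0 ndB0q2 pcB2 cut_pm_022_t Ext.none :=
  certNE0 (fam := false) (s1 := true) (s2 := false) (a := 0) (b := 2) (c := 2) (cn := .pp) (n1 := ndB0q0) (n2 := ndB0q2) (pc := pcB2) (cut := cut_pm_022_t) (xt := Ext.none) (P1 := 0) (W1 := 536870912) (P2 := 0) (W2 := 536870912) (P3 := 1020054732) (W3 := 13421774) (N0 := 3) (En := eng) (mo := mog) (C1 := cd0q0) (C2 := cd0q2) (C3 := pd2)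
    rfl s12_pm_022_t

noncomputable def cut_pm_101_s : Cut := Cut.of [[⟨4, 0, 0, 1127428915⟩], [⟨0, 1, 0, 13421772⟩, ⟨1, 0, 0, 13421772⟩, ⟨2, 1, 0, 13421772⟩], [⟨0, 0, 1, 46137344⟩, ⟨1, 1, 2, 46137344⟩, ⟨2, 1, 0, 2097152⟩, ⟨0, 0, 0, 1041207446⟩, ⟨0, 1, 0, 59055800⟩, ⟨1, 0, 0, 59055800⟩, ⟨1, 1, 0, 1041207446⟩]]

noncomputable def xt_pm_101_s : Ext := extD3 3 ⟨4, 1, 1, 5, 99, 20, 33, 40, 51, 125, 1, 32⟩ eng cd0q1 cd0q1 pd0 false true false .npn 1 0 1 rfl ndB0q1 ndB0q1 pcB0

noncomputable def f_pm_101_s : ℕ → ℕ → ℕ → ℕ → Bool := onCell 536870912 536870912 536870912 536870912 1020054732 13421774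
    (rowNE 3 eng mog cd0q1 cd0q1 pd0 0 false true false .npn 1 0 1 (qsf 536870912 536870912 536870912 536870912 0) ndB0q1 ndB0q1 pcB0 cut_pm_101_s xt_pm_101_s)

def k0_pm_101_s : ∃ t, chk3 f_pm_101_s t 1 1 1 = true :=
  ⟨(a (l 6) (b (l 6) (a (l 6) (b (l 6) (a (l 6) (b (l 6) (a (l 6) (b (l 6) (a (b (l 6) (b (l 6) (a (l 6) (a (l 6) (b (l 6) (a (l 6) (b (l 6) (c (b (c (l 144011593437118575) (l 143979913757638767)) (c (l 144036882203738223) (l 144012005753585775))) (b (c (l 143950639259844719) (l 143923838663196783)) (c (l 143989603204595823) (b (l 143924113542987887) (l 143971461264081007)))))))))))) (a (b (l 6) (b (a (l 6) (b (l 6) (l 14))) (a (b (b (l 6) (a (l 6) (c (l 144086635095539823) (c (l 144036401153425519) (l 144004446593630319))))) (a (b (c (c (l 144076739491741807) (l 144042448470917231)) (c (l 144010012875948143) (l 143979501426294895))) (c (c (b (l 144031865690243183) (l 144011524723818607)) (b (l 144005339971698799) (l 144036263735984239))) (b (c (l 143980875837456495) (l 143958542006993007))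 (c (l 144018121794666607) (l 144002247585366127))))) (b (c (c (l 144009119535022191) (l 144070692184490095)) (c (l 144043754147905647) (l 144018327939809391))) (c (c (b (l 144049114285703279) (l 144025543502889071)) (b (l 144027398930677871) (l 144054474403184751))) (b (c (l 144007470282031215) (l 143989190900842607)) (c (l 144040180752646255) (l 144027742517248111))))))) (l 14)))) (b (l 1) (b (b (l 1) (l 14)) (l 14))))))))))))), by decide +kernel⟩

theorem c_pm_101_s : CertNE 536870912 536870912 536870912 536870912 1020054732 13421774 3 eng mog cd0q1 cd0q1 pd0 false true false .npn 1 0 1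
    ndB0q1 ndB0q1 pcB0 cut_pm_101_s xt_pm_101_s :=
  certNE0 (fam := false) (s1 := true) (s2 := false) (a := 1) (b := 0) (c := 1) (cn := .npn) (n1 := ndB0q1) (n2 := ndB0q1) (pc := pcB0) (cut := cut_pm_101_s) (xt := xt_pm_101_s) (P1 := 536870912) (W1 := 536870912) (P2 := 536870912) (W2 := 536870912) (P3 := 1020054732) (W3 := 13421774) (N0 := 3) (En := eng) (mo := mog) (C1 := cd0q1) (C2 := cd0q1) (C3 := pd0)
    rfl k0_pm_101_s

noncomputable def cut_pm_101_t : Cut := Cut.of [[⟨3, 0, 0, 2845415833⟩], [⟨0, 1, 0, 13421772⟩, ⟨1, 0, 0, 13421772⟩, ⟨2, 1, 0, 13421772⟩], [⟨0, 0, 1, 46137344⟩, ⟨1, 1, 2, 46137344⟩, ⟨2, 1, 0, 2097152⟩, ⟨0, 0, 0, 1041207446⟩, ⟨0, 1, 0, 59055800⟩, ⟨1, 0, 0, 59055800⟩, ⟨1, 1, 0, 1041207446⟩]]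

noncomputable def f_pm_101_t : ℕ → ℕ → ℕ → ℕ → Bool := onCell 536870912 536870912 536870912 536870912 1020054732 13421774
    (rowNE 3 eng mog cd0q1 cd0q1 pd0 0 false true false .npn 1 0 1 (qsf 536870912 536870912 536870912 536870912 0) ndB0q1 ndB0q1 pcB0 cut_pm_101_t Ext.none)

def k0_pm_101_t : ∃ t, chk3 f_pm_101_t t 2 1 1 = true :=
  ⟨(b (a (b (a (b (l 4) (a (b (l 4) (a (l 4) (b (l 4) (l 122104462999)))) (b (a (l 4) (b (l 4) (l 123715074583))) (b (a (l 122641333655) (l 51774419559)) (a (l 16748952) (l 16736832)))))) (b (a (a (l 4) (l 1)) (l 1)) (b (a (b (a (l 122641332455) (l 213708033991)) (a (l 50700677415) (l 16730232))) (b (l 1) (l 214781466087))) (a (a (b (l 16733800) (l 16697544)) (b (l 16690296) (l 16654304))) (a (l 16541576) (l 16513376)))))) (b (a (b (a (b (a (l 121030722183) (l 16748560)) (a (l 16747776) (l 16740888))) (b (a (l 16739160) (l 16703784)) (a (l 16709088) (l 16674048)))) (a (b (a (l 16742088) (l 16713504)) (l 16682864)) (b (l 16665736) (l 16641672)))) (b (a (b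 (l 16602600) (l 16594376)) (a (l 16560720) (l 16509304))) (a (a (l 16597808) (l 16556192)) (a (l 16510480) (l 16460320))))) (a (b (a (b (l 16681344) (l 16661024)) (b (l 16620192) (l 16601024))) (a (b (l 16642656) (l 16625648)) (b (l 16583912) (l 16568624)))) (b (a (b (l 16546360) (l 16528720)) (l 16365648)) (a (l 16506592) (l 16401672)))))) (b (a (b (l 1) (b (l 1) (a (b (l 1) (l 16481416)) (l 1)))) (l 1)) (b (a (b (a (b (l 16443088) (l 16411376)) (b (l 1) (l 16297552))) (a (a (l 16405360) (l 16345240)) (l 16315768))) (b (l 1) (a (l 6) (l 1)))) (a (b (a (l 16343440) (l 6)) (l 6)) (l 6))))) (b (a (b (a (b (a (b (l 16597640) (l 16567672)) (l 16527864)) (a (b (l 16536216) (l 16503776)) (l 16472056))) (b (a (l 16482744) (l 6)) (l 6))) (a (b (a (b (a (l 16479856) (l 6)) (l 6)) (l 6)) (l 6)) (l 6))) (l 6)) (l 6))), by decide +kernel⟩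

def k1_pm_101_t : ∃ t, chk3 f_pm_101_t t 3 1 1 = true :=
  ⟨(b (a (b (l 1) (l 6)) (l 1)) (l 6)), by decide +kernel⟩

theorem s2_pm_101_t : ∃ t, chk3 f_pm_101_t t 1 1 1 = true := ex3_a k0_pm_101_t k1_pm_101_t

theorem c_pm_101_t : CertNE 536870912 536870912 536870912 536870912 1020054732 13421774 3 eng mog cd0q1 cd0q1 pd0 false true false .npn 1 0 1
    ndB0q1 ndB0q1 pcB0 cut_pm_101_t Ext.none :=
  certNE0 (fam := false) (s1 := true) (s2 := false) (a := 1) (b := 0) (c := 1) (cn := .npn) (n1 := ndB0q1) (n2 := ndB0q1) (pc := pcB0) (cut := cut_pm_101_t) (xt := Ext.none) (P1 := 536870912) (W1 := 536870912) (P2 := 536870912) (W2 := 536870912) (P3 := 1020054732) (W3 := 13421774) (N0 := 3) (En := eng) (mo := mog) (C1 := cd0q1) (C2 := cd0q1) (C3 := pd0)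
    rfl s2_pm_101_t

end Pool.Agent.Strip051.G.I9500_9625.Tab.CS.BB00

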