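import Pool.Agent.Strip051.G.I9500_9625.Tab
import Pool.Agent.Strip051.PB.StripB

/-! # Strips, near vertex: certificates 6 (generated) -/

set_option linter.all false
set_option maxRecDepth 100000

namespace Pool.Agent.Strip051.G.I9500_9625.Tab.CS.BB00

open Pool.Agent.Strip051.PB Pool.Agent.Strip051.PB.T
open Pool.Agent.Strip051.G.I9500_9625.Tab

noncomputable def cut_pm_102_s : Cut := Cut.of [[⟨4, 0, 0, 1100585369⟩], [⟨0, 1, 0, 11184810⟩, ⟨1, 0, 0, 11184810⟩, ⟨2, 1, 0, 11184810⟩], [⟨0, 0, 1, 46137344⟩, ⟨1, 1, 2, 46137344⟩, ⟨2, 1, 0, 2097152⟩, ⟨0, 0, 0, 1041207446⟩, ⟨0, 1, 0, 59055800⟩, ⟨1, 0, 0, 59055800⟩, ⟨1, 1, 0, 1041207446⟩]]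

noncomputable def f_pm_102_s : ℕ → ℕ → ℕ → ℕ → Bool := onCell 536870912 536870912 0 536870912 1020054732 13421774
    (rowNE 3 eng mog cd0q1 cd0q2 pd0 0 false true false .npp 1 0 2 (qsf 536870912 536870912 0 536870912 0) ndB0q1 ndB0q2 pcB0 cut_pm_102_s Ext.none)

def k0_pm_102_s : ∃ t, chk3 f_pm_102_s t 2 1 1 = true :=
  ⟨(b (b (a (l 2) (a (a (a (l 2) (b (l 3) (b (l 16725344) (l 16736792)))) (b (l 3) (b (a (l 118816141927) (l 3)) (a (l 16754144) (l 73182115655))))) (b (l 3) (a (b (l 3) (a (l 123647981543) (l 3))) (l 3))))) (a (l 6) (a (b (a (l 6) (b (a (l 6) (l 16737952)) (l 6))) (l 6)) (b (a (b (a (l 16735232) (b (l 16753344) (l 16766008))) (a (l 6) (l 16738712))) (b (a (l 129553564903) (l 3)) (a (b (l 16767440) (l 16747080)) (b (l 16750760) (l 16747984))))) (b (a (l 6) (a (l 6) (l 16712976))) (l 6)))))) (l 6)), by decide +kernel⟩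

def k1_pm_102_s : ∃ t, chk3 f_pm_102_s t 3 2 1 = true :=
  ⟨(b (l 3) (a (a (b (a (b (l 3) (a (l 134922279655) (l 3))) (l 3)) (a (b (a (b (l 60297245895) (l 16745432)) (b (l 133311698407) (l 64592214151))) (a (l 6) (b (l 16745488) (l 6)))) (b (a (l 168745210567) (l 3)) (a (b (a (l 16769136) (l 16774200)) (l 16746416)) (b (l 3) (a (l 16773400) (l 16752488))))))) (l 3)) (l 3))), by decide +kernel⟩

def k2_pm_102_s : ∃ t, chk3 f_pm_102_s t 6 3 1 = true :=
  ⟨(b (a (b (a (l 6) (b (a (b (l 6) (l 6)) (b (a (l 16738992) (l 16758368)) (l 16711096))) (l 6))) (l 6)) (b (a (b (a (b (a (l 16753552) (l 16750840)) (a (l 16741176) (l 16742464))) (b (l 3) (a (l 99488848775) (l 3)))) (a (b (l 16710448) (l 6)) (b (a (l 16745088) (b (l 16775312) (l 16759416))) (a (l 6) (l 16724072))))) (b (l 3) (a (b (a (l 108078786999) (l 3)) (a (b (l 16763440) (l 16738928)) (b (l 16752832) (l 16768224)))) (b (l 3) (a (l 130090490759) (l 3)))))) (a (l 6) (b (a (b (a (l 16678896) (l 16728912)) (l 6)) (b (a (b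 (l 73182189607) (l 16746608)) (b (l 132237985287) (l 83382735543))) (a (b (l 16718040) (l 6)) (b (l 16751752) (l 16700632))))) (b (a (l 6) (l 6)) (l 6)))))) (l 6)), by decide +kernel⟩

def k3_pm_102_s : ∃ t, chk3 f_pm_102_s t 7 6 1 = true :=
  ⟨(a (b (l 3) (a (b (a (b (l 3) (a (b (l 115058117111) (a (l 16748568) (l 16767424))) (b (l 3) (l 130090500311)))) (l 3)) (a (b (a (b (a (l 16716784) (l 16735624)) (l 16692568)) (b (a (l 16755184) (l 58149810839)) (l 16752696))) (a (l 6) (b (a (l 6) (l 16706560)) (l 6)))) (b (a (b (l 179482645095) (a (l 29695655367) (l 115058125143))) (l 3)) (a (a (b (l 16706736) (l 16690272)) (b (l 16749656) (l 16712280))) (b (a (b (l 110226293639) (l 16763344)) (l 171966456903)) (a (l 16735144) (b (l 16768392) (l 16749256)))))))) (b (l 3) (a (b (l 3) (a (b (l 3) (a (b (l 145122900087) (l 54928590503)) (l 192904417815))) (l 3))) (l 3))))) (l 3)), by decide +kernel⟩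

def k4_pm_102_s : ∃ t, chk3 f_pm_102_s t 14 7 1 = true :=
  ⟨(b (a (b (a (l 6) (b (a (l 6) (b (a (l 16695616) (b (l 16729552) (l 16709256))) (a (l 6) (l 16677624)))) (l 6))) (l 6)) (a (b (b (a (a (b (b (l 16754240) (l 16713040)) (l 16744416)) (b (b (c (l 132774835815) (l 133311705863)) (l 16770168)) (a (l 16742696) (b (l 16745504) (l 16724128))))) (b (a (c (l 167671468759) (l 170355802455)) (l 3)) (b (a (a (l 16758856) (l 16771784)) (l 177335167367)) (a (l 16744312) (a (l 16765040) (l 80161525783)))))) (a (b (c (l 16716688) (l 16709240)) (l 6)) (a (b (b (l 16743320) (l 16699720)) (l 6)) (b (c (l 16761392) (l 16758536)) (c (l 16716840) (l 16710176)))))) (l 6)) (b (b (b (l 3) (a (a (l 198273126375) (l 3)) (l 3))) (a (b (a (b (a (b (l 16766616) (l 16766240)) (l 129553647623)) (c (l 16757472) (l 16766352))) (b (l 3) (a (b (l 142975419703) (l 16773392)) (l 198810003559)))) (b (a (a (l 16726208) (l 16761992)) (a (l 16756080) (b (l 89825205287) (l 16765576)))) (b (c (l 16764184)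 (l 16760328)) (a (l 16703736) (l 16755016))))) (b (l 3) (a (b (a (b (l 3) (l 101636364487)) (l 3)) (a (b (l 16769392) (l 16736472)) (b (l 144586031639) (l 57076080135)))) (b (l 3) (l 206326193127)))))) (b (a (b (a (c (l 16677136) (l 16668168)) (c (l 16748400) (l 16741816))) (l 6)) (b (a (c (b (l 16748504) (l 16745752)) (b (l 16745768) (l 16740592))) (b (a (b (a (l 16773416) (l 16773232)) (l 16765280)) (b (l 3) (l 106468201879))) (a (b (l 16773856) (l 16740312)) (c (l 16774360) (l 16772968))))) (c (a (l 16708984) (b (l 16752784) (l 16707096))) (a (l 16699760) (b (l 16747952) (l 16699352)))))) (a (l 6) (a (l 6) (b (b (l 16718304) (l 6)) (l 6)))))))) (l 6)), by decide +kernel⟩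

def k5_pm_102_s : ∃ t, chk3 f_pm_102_s t 30 28 1 = true :=
  ⟨(l 3), by decide +kernel⟩

def k6_pm_102_s : ∃ t, chk3 f_pm_102_s t 30 29 1 = true :=
  ⟨(a (b (a (b (a (b (l 3) (a (b (l 173577073703) (a (l 16769520) (l 88214594167))) (l 210084291879))) (l 3)) (a (b (a (c (l 16755872) (l 16753512)) (b (a (l 16773920) (l 134922356231)) (l 15200150727))) (c (l 16760456) (l 16756072))) (b (a (b (l 3) (a (l 92509561447) (l 211694908039))) (l 3)) (a (b (a (l 16765584) (l 61907920343)) (l 16756912)) (b (l 183777620551) (a (l 16770184) (l 98415141143))))))) (b (l 3) (a (b (l 3) (a (l 215989871239) (l 3))) (l 3)))) (a (a (b (c (b (l 16714440) (l 16688856)) (b (l 16727824) (l 16677744))) (l 6)) (b (c (b (c (l 16769664) (l 16767792)) (l 16743448)) (b (a (l 16755568) (l 16753440)) (l 16736120))) (c (b (l 16696768) (l 16670720)) (b (l 16685504) (l 16655096))))) (b (a (b (a (b (a (b (l 16771832) (l 16771640)) (l 134385491351)) (c (l 16766888) (l 16765488))) (b (l 3) (a (b (l 147807266343)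 (l 16773888)) (l 3)))) (b (a (l 16773736) (a (l 16766480) (b (l 104857594023) (l 16772312)))) (c (l 16771272) (l 16767376)))) (b (l 3) (a (b (l 196125650823) (a (c (l 16771848) (l 16771024)) (b (l 162302781271) (l 132237990935)))) (l 3)))) (a (c (b (l 16762688) (l 16726568)) (b (l 16766256) (l 16715240))) (b (a (c (l 16773000) (l 16771128)) (b (a (b (l 115058141143) (l 16773144)) (l 198273135703)) (a (l 16762920) (b (l 72645339847) (l 16768920))))) (c (a (l 16731920) (l 16770432)) (a (l 16724304) (l 16765560)))))))) (b (l 3) (a (b (l 3) (a (b (a (b (l 3) (a (b (l 220821714231) (l 99488884679)) (l 3))) (l 3)) (a (a (c (l 16773056) (l 16770392)) (b (b (l 140827937127) (l 57076083751)) (l 16763896))) (b (l 217600486391) (a (c (l 58686696279) (l 60297308055)) (b (l 3) (l 110763173559)))))) (l 3))) (l 3)))), by decide +kernel⟩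

def k7_pm_102_s : ∃ t, chk3 f_pm_102_s t 31 14 1 = true :=
  ⟨(l 3), by decide +kernel⟩

def k8_pm_102_s : ∃ t, chk3 f_pm_102_s t 60 30 1 = true :=
  ⟨(a (l 6) (b (b (b (a (c (l 16679840) (l 16663600)) (c (l 16736400) (l 16746112))) (a (l 6) (c (l 16690352) (l 16673504)))) (a (l 6) (b (c (l 16665712) (l 16642592)) (l 6)))) (l 6))), by decide +kernel⟩

def k9_pm_102_s : ∃ t, chk3 f_pm_102_s t 122 60 1 = true :=
  ⟨(b (a (b (a (c (l 16762944) (l 16756040)) (b (a (l 16770200) (c (l 16769968) (l 16768472))) (c (l 16753336) (l 16769288)))) (c (c (l 16749928) (l 16744472)) (a (l 16704768) (l 16725720)))) (b (a (b (a (b (l 136532977207) (a (l 16772936) (l 16774472))) (l 223506067607)) (a (l 16770360) (b (a (l 16775608) (l 132238011847)) (l 16773832)))) (b (l 3) (a (b (l 3) (l 122574333415)) (l 3)))) (a (c (l 16770864) (l 16767664)) (b (a (c (l 16774872) (l 24326958247)) (b (l 202568103767) (a (l 16774248) (l 112910658935)))) (c (l 16774144) (l 16770664)))))) (a (c (b (a (l 16693264)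 (l 16711376)) (l 16700480)) (b (l 16726896) (l 16675824))) (c (b (a (l 16729144) (l 16767408)) (a (l 16707008) (l 16724728))) (b (a (l 16716832) (l 16758944)) (a (l 16687312) (l 16708800)))))), by decide +kernel⟩

def k10_pm_102_s : ∃ t, chk3 f_pm_102_s t 123 60 1 = true :=
  ⟨(b (a (b (l 3) (a (b (l 3) (c (a (b (l 107541949367) (l 16773192)) (l 197736264807)) (a (b (l 109689431863) (l 16772080)) (l 203104973927)))) (l 3))) (l 3)) (a (b (a (b (a (c (l 16764616) (l 16761040)) (b (c (l 66739760935) (l 67813502087)) (l 16768840))) (c (l 16768088) (l 16762112))) (b (a (b (l 225116681479) (a (l 65129148439) (l 132238011799))) (l 3)) (c (a (l 16774856) (b (l 176261430087) (l 53854859527))) (a (l 16772384) (b (l 178945763751) (l 51170504311)))))) (c (a (l 16762736) (c (l 16770128) (l 16766632))) (a (l 16751008) (b (l 16768432) (l 16743904))))) (b (a (a (c (l 221895452679) (l 216526743495)) (l 3)) (l 3)) (a (b (a (a (b (l 44191182039) (l 16768528)) (b (l 115595013079) (l 16772856)))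 (b (l 3) (a (c (l 16775136) (l 16774368)) (l 210084296983)))) (a (c (l 16764416) (l 16759208)) (b (c (l 16775296) (l 16775240)) (l 16772760)))) (b (l 3) (a (a (b (l 126332431607) (l 18421380023)) (b (l 3) (a (l 79624663671) (l 122037465271)))) (l 229411647239))))))), by decide +kernel⟩

def k11_pm_102_s : ∃ t, chk3 f_pm_102_s t 61 61 1 = true :=
  ⟨(a (b (a (l 6) (b (c (c (l 16702440) (l 16689384)) (a (l 16658552) (l 16680552))) (l 6))) (l 6)) (b (a (a (b (c (l 16743616) (l 16723232)) (c (l 16706528) (l 16676120))) (b (c (b (l 16743680) (l 16735128)) (b (l 16730200) (l 16716944))) (c (c (l 16730432) (l 16717544)) (l 16729480)))) (b (a (c (b (l 16769424) (l 16750672)) (b (l 16761176) (l 16737648))) (b (a (c (l 16769384) (l 16765480)) (b (a (c (l 16775072) (l 16774640)) (l 196125653735)) (c (l 16774992) (l 16774368)))) (c (c (l 16766376) (l 16762800)) (a (l 16752576) (l 16762176))))) (c (a (b (l 16743384) (l 16737216)) (b (c (l 16760688) (l 16754512)) (l 16762344))) (a (b (l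 16725192) (l 16713424)) (b (l 16766168) (l 16733760)))))) (a (b (a (l 6) (b (c (l 16715384) (l 16680664)) (l 6))) (l 6)) (b (c (a (b (l 16732376) (l 16729088)) (b (l 16747576) (l 16765968))) (a (b (l 16702512) (l 16692640)) (b (l 16723288) (l 16713976)))) (a (l 6) (b (c (l 16765384) (l 16706064)) (a (l 6) (a (l 6) (b (l 16730512) (l 6)))))))))), by decide +kernel⟩

def k12_pm_102_s : ∃ t, chk3 f_pm_102_s t 62 60 1 = true :=
  ⟨(l 3), by decide +kernel⟩

def k13_pm_102_s : ∃ t, chk3 f_pm_102_s t 124 122 1 = true :=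
  ⟨(a (b (a (a (a (b (b (l 3) (b (l 152102237047) (l 86067114535))) (c (l 16772272) (l 16769152))) (b (l 3) (b (c (l 81235276439) (l 82845888487)) (l 16771944)))) (b (l 3) (c (b (l 210621167031) (a (l 16775296) (l 177872041847))) (b (l 214916134295) (a (l 16775048) (l 122574335351)))))) (l 3)) (a (b (a (c (l 16766888) (l 16759352)) (c (b (l 16773856) (l 16770816)) (b (l 16773848) (l 16765424)))) (c (c (l 16767136) (l 16761384)) (a (l 16748120) (l 16757168)))) (b (a (b (a (b (l 131701141847) (a (l 16775600) (l 16774520))) (l 220284843991)) (a (l 16773136) (b (a (l 16776576) (l 16775648)) (l 16775240)))) (b (l 3) (a (b (l 3) (l 122037465335)) (l 3)))) (a (c (l 16771752) (l 16770976)) (c (b (a (l 16775952) (b (l 148881011287) (l 16774488))) (l 16774688)) (b (a (l 16774456) (l 109152562391)) (l 16771192))))))) (b (l 3) (a (b (l 3) (a (b (l 3) (a (c (b (l 110226306279) (l 16776600)) (b (l 16775416) (l 16775560))) (l 209010555239))) (l 3))) (l 3)))), by decide +kernel⟩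

def k14_pm_102_s : ∃ t, chk3 f_pm_102_s t 124 123 1 = true :=
  ⟨(a (b (a (c (b (c (l 16764896) (l 16756008)) (c (l 16764664) (l 16752376))) (b (a (l 16737936) (l 16747144)) (c (l 16740008) (l 16727568)))) (c (b (a (l 16768232) (l 16772336)) (c (l 16773336) (l 16764680))) (b (a (l 16755856) (l 16763984)) (c (l 16755976) (l 16747240))))) (c (a (b (c (l 16766784) (l 16750784)) (c (l 16771640) (l 16751584))) (b (c (l 16775064) (l 16763800)) (c (l 16774856) (l 16765560)))) (a (b (c (l 16734664) (l 16718424)) (c (l 16731352) (l 16710960))) (b (c (l 16751264) (l 16738656)) (c (l 16748808) (l 16731944)))))) (b (a (b (a (b (a (l 16773672) (c (l 15200154647) (l 9294574439))) (c (l 16774952) (l 16769248))) (b (a (b (l 229411649959) (c (l 100562629895) (l 16775160))) (l 3)) (a (c (l 16776568) (l 16774352)) (b (l 130627400023) (a (l 16776312) (l 16774528)))))) (c (a (l 16774352) (c (l 16776688) (l 16774872))) (a (l 16763280) (b (l 16771912) (l 16768344))))) (b (a (b (l 3) (l 222969197527))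 (l 3)) (a (a (b (b (a (l 16774272) (l 127406175799)) (l 16776304)) (l 16773808)) (b (b (l 3) (l 121500594391)) (c (l 16774384) (l 16775504)))) (b (l 3) (a (b (l 149417881975) (c (l 16775856) (l 16774456))) (l 3)))))) (a (c (b (c (l 16765560) (l 16773064)) (c (l 16765344) (l 16753136))) (b (a (l 16757000) (l 16763968)) (a (l 16752952) (l 16760224)))) (b (a (c (a (l 16765744) (l 16776512)) (b (l 16771224) (l 16768824))) (a (c (l 16775472) (l 16773688)) (b (c (b (l 110763177287) (l 16777104)) (b (l 112373789431) (l 16776392))) (l 16774640)))) (c (a (l 16765408) (l 16773800)) (a (l 16766464) (l 16771488))))))), by decide +kernel⟩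

def k15_pm_102_s : ∃ t, chk3 f_pm_102_s t 125 61 1 = true :=
  ⟨(b (l 3) (a (b (l 3) (a (b (a (b (c (l 212231779639) (l 216526746919)) (b (a (c (l 16774544) (l 16774368)) (l 3)) (a (l 16776888) (c (l 101636371943) (l 103783854711))))) (l 3)) (a (a (b (l 16773888) (l 16770824)) (b (c (l 16771824) (l 16776304)) (l 16771208))) (b (a (b (l 131701141911) (c (l 16774552) (l 16774424))) (l 222969198391)) (a (c (l 16777048) (l 16776552)) (b (a (l 16774520) (l 131701142999)) (l 16775720)))))) (b (l 3) (a (b (l 3) (a (b (l 3) (l 123648078231)) (l 3))) (l 3))))) (l 3))), by decide +kernel⟩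

def k16_pm_102_s : ∃ t, chk3 f_pm_102_s t 63 30 1 = true :=
  ⟨(l 3), by decide +kernel⟩

def k17_pm_102_s : ∃ t, chk3 f_pm_102_s t 30 31 1 = true :=
  ⟨(l 6), by decide +kernel⟩

def k18_pm_102_s : ∃ t, chk3 f_pm_102_s t 248 62 1 = true :=
  ⟨(b (a (a (l 6) (b (b (a (b (l 16754960) (l 6)) (b (l 16748816) (b (l 16749976) (l 6)))) (l 6)) (l 6))) (a (b (b (c (l 16772984) (l 16733456)) (a (l 6) (b (c (l 16752152) (l 16736072)) (l 6)))) (l 6)) (b (b (c (l 16752712) (l 16742912)) (b (c (l 16773592) (l 16743464)) (c (a (b (l 16773472) (l 6)) (l 16752856)) (a (l 16758072) (l 16747336))))) (b (a (l 6) (b (c (l 16753496) (l 16749704)) (l 6))) (l 6))))) (l 6)), by decide +kernel⟩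

def k19_pm_102_s : ∃ t, chk3 f_pm_102_s t 249 62 1 = true :=
  ⟨(a (b (a (b (c (b (l 16753400) (l 16753312)) (b (l 16751576) (l 16753368))) (b (a (b (c (b (l 16774200) (l 16774528)) (b (l 16753992) (l 16755536))) (l 6)) (b (c (l 16764080) (l 16759488)) (c (l 16754232) (l 16763360)))) (l 6))) (b (c (b (l 16754064) (l 16753992)) (b (l 16759296) (l 16761720))) (a (b (b (l 16763952) (c (b (l 16774960) (l 16775296)) (b (l 16767008) (l 16768696)))) (c (l 16755800) (l 16748784))) (b (b (l 16764488) (c (l 16764840) (l 16748160))) (b (c (l 16755000) (l 16748480)) (l 6)))))) (l 6)) (b (b (c (b (a (l 16765152) (l 16770936)) (a (l 16765104) (l 16765656))) (b (a (l 16765936) (l 16766072)) (a (l 16768944) (l 16762072)))) (c (b (c (l 16766728) (l 16764280)) (a (b (a (b (l 16754784) (l 16755120)) (l 16770872)) (b (l 16766080) (l 16756168))) (b (l 16776488) (a (b (l 16755592) (l 16755928)) (b (l 16776776) (l 16756000)))))) (b (a (l 16759864) (l 16766464)) (a (b (a (b (l 16769608) (l 16769784))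 (b (l 16770248) (l 16749184))) (c (l 16772064) (l 16768840))) (b (l 16771192) (a (b (l 16749744) (l 16770896)) (b (l 16771320) (l 16750296)))))))) (b (b (a (b (c (l 16756984) (l 16750256)) (l 6)) (c (b (a (l 16756744) (l 16772320)) (l 16757712)) (b (c (l 16773072) (l 16770000)) (l 16761768)))) (l 6)) (l 6)))), by decide +kernel⟩

def k20_pm_102_s : ∃ t, chk3 f_pm_102_s t 250 124 1 = true :=
  ⟨(b (a (c (b (a (a (l 16755552) (l 16766232)) (c (l 16777224) (l 16776704))) (a (l 16771360) (b (l 16755968) (l 16756016)))) (b (a (c (l 16775272) (l 16771064)) (b (l 16765704) (l 16754656))) (a (c (l 16774504) (l 16772312)) (c (l 16775416) (l 16774376))))) (b (a (b (a (c (l 16775856) (l 7147091431)) (b (l 213305522839) (c (l 85530244871) (l 86067115335)))) (c (l 16775840) (l 16775272))) (b (l 3) (a (c (b (l 114521273495) (l 16774592)) (b (l 115595015047) (l 16771808))) (l 212231780455)))) (b (a (c (l 16777160) (l 16765608)) (a (a (l 16771680) (l 16771776)) (b (a (l 16774544) (l 109152564999))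 (l 16774488)))) (c (a (l 16766728) (l 16772064)) (a (l 16754680) (l 16771240)))))) (a (c (b (a (l 16771520) (l 16771896)) (a (l 16766624) (l 16774256))) (b (a (c (l 16773920) (l 16772000)) (c (l 16774864) (l 16773328))) (a (c (l 16773552) (l 16771144)) (b (l 16752680) (l 16752456))))) (b (c (a (b (l 16756352) (l 16756512)) (b (l 16766952) (l 16767144))) (a (b (l 16754304) (l 16753976)) (c (l 16755392) (l 16754608)))) (c (a (c (l 16757664) (l 16777032)) (b (l 16767392) (l 16757208))) (a (b (l 16753720) (l 16753528)) (b (l 16754632) (l 16754464))))))), by decide +kernel⟩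

def k21_pm_102_s : ∃ t, chk3 f_pm_102_s t 251 124 1 = true :=
  ⟨(b (a (b (l 3) (a (b (a (b (l 3) (c (l 107541951783) (l 108078822599))) (l 3)) (a (c (l 16775976) (l 16774360)) (b (l 197736266679) (c (l 71034730343) (l 16775848))))) (l 3))) (l 3)) (a (c (b (a (b (l 16774784) (l 16767128)) (b (a (b (l 100562630039) (l 16774680)) (l 198273137015)) (a (l 16777480) (b (a (l 16777304) (l 16775840)) (l 16777392))))) (a (c (l 16767992) (l 16767112)) (b (l 16772464) (l 16767568)))) (b (a (b (l 16774184) (l 16766056)) (b (a (b (l 101099500871) (l 16777112)) (l 203104975223)) (a (l 16776936) (b (l 16775864) (l 16777080))))) (a (c (l 16766224) (l 16765328)) (b (l 16771624) (l 16766272))))) (b (a (b (l 3) (a (b (l 228874779063) (c (a (l 16774656) (l 131164272343)) (l 94120179287))) (l 3))) (l 3)) (a (b (a (c (l 16776136) (l 16774496)) (a (b (l 105931339527) (l 16777264)) (b (l 3) (a (l 16774624) (l 100562630855))))) (c (l 16775080) (l 16774472))) (b (a (l 218674231143) (l 3)) (a (a (c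 (l 16776416) (l 16774576)) (b (l 123111208455) (l 16775968))) (a (b (l 3) (a (l 16776400) (l 122037467255))) (l 235317229671)))))))), by decide +kernel⟩

def k22_pm_102_s : ∃ t, chk3 f_pm_102_s t 250 125 1 = true :=
  ⟨(b (c (b (a (b (a (a (b (l 16756408) (l 16756744)) (b (l 16777560) (l 16767296))) (l 16757000)) (a (c (l 16769344) (l 16766488)) (a (b (l 16767704) (l 16757560)) (b (l 16778336) (l 16773352))))) (a (c (l 16758560) (l 16777464)) (b (l 16757560) (l 16757976)))) (b (a (a (l 16768928) (c (l 16770056) (l 16767352))) (a (a (b (l 16775072) (l 16768848)) (c (l 16775216) (l 16772896))) (l 16758448))) (a (c (l 16771256) (l 16773472)) (a (c (l 16775992) (l 16773440)) (a (b (a (l 16769264) (l 16758840)) (l 16769640)) (b (l 16758888) (a (l 16769656) (l 16759224)))))))) (a (b (a (b (a (b (l 16750856) (l 16751040)) (b (l 16772400) (l 16761904))) (c (l 16753120) (l 16771168))) (b (l 16752296) (a (b (l 16767712) (l 16752168)) (c (l 16764296) (l 16761768))))) (a (c (l 16764696)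 (l 16751024)) (b (c (l 16764616) (l 16761848)) (c (l 16775792) (l 16772848))))) (b (a (b (l 16753400) (l 16753328)) (b (l 16764848) (l 16764808))) (a (b (a (b (c (l 16775312) (l 16772816)) (l 16763768)) (b (l 16774560) (c (l 16775824) (l 16773408)))) (c (l 16770864) (l 16770872))) (b (l 16764832) (a (b (a (l 16764560) (l 16754296)) (l 16770104)) (b (l 16775608) (a (l 16770352) (l 16754832))))))))) (a (a (l 6) (a (l 6) (b (b (c (l 16759984) (l 16764488)) (l 6)) (l 6)))) (a (b (c (c (l 16772168) (l 16774608)) (c (l 16774392) (c (l 16774864) (l 16773416)))) (a (l 6) (b (c (l 16771864) (l 16771096)) (l 6)))) (c (b (b (c (l 16776672) (l 16776896)) (c (l 16761848) (l 16780248))) (c (l 16781056) (b (l 16780896) (l 16770992)))) (a (b (b (l 16765248) (l 16765712)) (c (l 16767768) (l 16770048))) (b (b (b (l 16770640) (l 16755160)) (l 16765984)) (c (l 16773200) (l 16770392)))))))), by decide +kernel⟩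

def k23_pm_102_s : ∃ t, chk3 f_pm_102_s t 251 250 1 = true :=
  ⟨(a (c (b (a (c (l 16768984) (l 16767656)) (c (l 16768688) (l 16767712))) (a (c (l 16770200) (l 16768424)) (c (l 16769952) (l 16768528)))) (b (a (b (l 16765640) (l 16765624)) (c (l 16766720) (l 16765712))) (a (c (l 16766632) (l 16764816)) (c (l 16767096) (l 16770888))))) (b (b (a (c (l 16772896) (l 16771832)) (b (a (l 16772184) (c (a (l 16777416) (l 16775920)) (l 16776248))) (c (l 16772496) (l 16771992)))) (c (a (l 16773384) (l 16775512)) (a (l 16771872) (l 16772048)))) (c (a (c (l 16769512) (l 16773688)) (c (l 16774136) (l 16773392))) (a (c (l 16772600) (l 16771496)) (c (l 16772648) (l 16774512)))))), by decide +kernel⟩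

def k24_pm_102_s : ∃ t, chk3 f_pm_102_s t 502 251 1 = true :=
  ⟨(a (c (b (b (a (b (c (l 16771120) (l 16768992)) (l 16770384)) (b (l 16759568) (c (l 16771424) (l 16769368)))) (c (l 16779912) (a (l 16780304) (l 16769816)))) (c (l 16781128) (b (l 16770464) (l 16771040)))) (a (b (b (b (a (l 16773504) (l 16755344)) (l 16773776)) (l 16766256)) (c (l 16773384) (l 16770736))) (b (b (b (l 16776592) (c (l 16772528) (l 16770424))) (c (l 16767616) (l 16765392))) (c (l 16773560) (l 16771072))))) (c (b (b (l 16770168) (a (b (c (l 16776952) (l 16774968)) (l 16776280)) (b (l 16760160) (c (l 16777216) (l 16775304))))) (b (c (l 16780432) (a (l 16780976) (l 16770480))) (c (l 16773336) (l 16771064)))) (b (b (l 16771896) (a (b (c (l 16772960) (l 16770928)) (c (l 16778408) (l 16776296))) (b (l 16777472) (c (l 16775992) (l 16774032))))) (b (a (l 16775024) (c (l 16768424) (l 16771592))) (c (l 16779248) (l 16776920)))))), by decide +kernel⟩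

def k25_pm_102_s : ∃ t, chk3 f_pm_102_s t 503 251 1 = true :=
  ⟨(b (c (a (c (l 16771040) (l 16774784)) (c (l 16775560) (l 16774544))) (a (c (l 16773272) (b (l 16776896) (l 16777080))) (c (l 16775992) (b (l 16777328) (l 16777544))))) (b (a (c (a (b (c (l 16780072) (l 16778240)) (l 16776848)) (b (l 16760664) (c (l 16780112) (l 16779832)))) (a (b (c (l 16777688) (a (l 16777016) (l 16777192))) (c (l 16779184) (l 16777224))) (b (l 16757288) (a (a (l 16775736) (l 16773176)) (l 16775888))))) (c (l 16776296) (a (l 16768024) (l 16768128)))) (b (a (c (c (l 16772848) (l 16770928)) (c (l 16774224) (l 16772256))) (a (c (a (b (l 16771736) (l 16771880)) (l 16777000)) (c (a (l 16774408) (l 16779720)) (b (l 16777920) (l 16772728)))) (c (l 16761072) (l 16757968)))) (c (a (l 16777456) (a (l 16777312) (a (b (l 16771952) (l 16772088)) (l 16777088)))) (a (c (l 16779656) (l 16777592)) (a (c (l 16779864) (l 16778040)) (c (a (l 16774728) (l 16769544)) (a (l 16773016) (l 16778392))))))))), by decide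 +kernel⟩

def k26_pm_102_s : ∃ t, chk3 f_pm_102_s t 63 124 1 = true :=
  ⟨(l 3), by decide +kernel⟩

def k27_pm_102_s : ∃ t, chk3 f_pm_102_s t 252 250 1 = true :=
  ⟨(a (b (a (b (a (b (l 207936813735) (c (a (l 16774720) (l 113984403367)) (a (l 16777240) (l 115058144903)))) (l 3)) (a (c (l 16776328) (l 16774672)) (a (b (c (l 89288341399) (l 89288341815)) (l 16772144)) (b (l 219747974055) (c (l 16776608) (l 16774632)))))) (b (l 3) (a (b (l 3) (c (l 198810008327) (l 203104975623))) (l 3)))) (b (a (c (c (l 16772912) (l 16772648)) (c (l 16772336) (l 16777264))) (a (a (c (l 8757705111) (l 16776008)) (b (b (l 147807271111) (l 82309020327)) (l 16774760))) (a (b (l 3) (b (l 112373791127) (l 16775984))) (l 217600489783)))) (a (c (l 16776072) (l 16775024)) (b (a (l 16776376) (a (l 16772216) (b (l 76940311255) (l 16777352)))) (c (l 16775408) (l 16774904)))))) (b (l 3) (a (b (l 3) (a (a (b (c (l 124184950535) (l 125258692055)) (c (l 16774768) (l 16777312))) (b (l 3) (c (b (l 137069853143)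 (l 16775888)) (l 100025759543)))) (l 3))) (l 3)))), by decide +kernel⟩

def k28_pm_102_s : ∃ t, chk3 f_pm_102_s t 252 251 1 = true :=
  ⟨(a (b (b (a (c (l 16776776) (l 16776616)) (c (c (l 16773048) (l 16767904)) (a (l 16767336) (l 16772448)))) (a (c (l 16774912) (c (l 16768256) (l 16777784))) (c (c (l 16768280) (l 16768584)) (a (l 16767696) (l 16767576))))) (b (a (c (l 16775592) (c (l 16768768) (l 16778088))) (c (l 16777304) (c (l 16768496) (l 16767656)))) (a (c (l 16776096) (c (l 16769336) (l 16778448))) (c (l 16777776) (c (l 16769088) (l 16768048)))))) (b (a (b (a (c (l 16775112) (l 16774880)) (a (b (b (a (l 16775896) (l 16776328)) (l 16776016)) (l 16774920)) (b (l 202031234167) (c (b (l 16775896) (l 16777392)) (l 16776000))))) (c (c (l 16775280) (l 16772968)) (c (l 16772696) (l 16772384)))) (b (a (a (a (b (l 3) (b (l 16776256) (l 16775912))) (l 217600490007)) (l 3)) (l 3)) (a (b (a (a (l 16772232) (l 16776720)) (b (l 127943047559) (a (l 16777336) (l 16776512)))) (c (l 16772296)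 (l 16772256))) (b (l 232632875319) (a (b (a (l 16775928) (l 130627402423)) (l 16776048)) (b (l 3) (l 123111209239))))))) (a (c (c (b (l 16773056) (l 16773408)) (b (l 16773568) (l 16774112))) (b (c (l 16773256) (l 16767496)) (c (l 16773880) (l 16773152)))) (b (a (c (l 16772656) (l 16772624)) (a (c (l 16772368) (l 16772392)) (b (a (l 16774808) (b (l 16776528) (l 16777384))) (l 16775064)))) (c (c (l 16772680) (l 16773080)) (c (l 16773216) (l 16772808))))))), by decide +kernel⟩

def k29_pm_102_s : ∃ t, chk3 f_pm_102_s t 253 125 1 = true :=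
  ⟨(b (l 3) (a (b (l 3) (b (a (a (a (a (b (b (l 148881013287) (l 16775936)) (l 16774880)) (b (l 197736267079) (l 16776728))) (b (l 3) (c (b (l 118279371383) (l 16776576)) (b (l 118816242311) (l 16774672))))) (c (l 227264165543) (l 230485390999))) (l 3)) (a (a (c (l 16776272) (l 16775120)) (a (b (b (a (l 16775944) (l 117742500615)) (l 16776048)) (l 16774944)) (b (a (b (l 3) (l 93046438807)) (l 235854101543)) (c (b (l 16776576) (l 16777352)) (l 16776736))))) (a (a (b (l 3) (b (l 205252459847) (a (l 16775952) (l 111836920615)))) (l 3)) (l 3))))) (l 3))), by decide +kernel⟩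

def k30_pm_102_s : ∃ t, chk3 f_pm_102_s t 127 125 1 = true :=
  ⟨(l 3), by decide +kernel⟩

def k31_pm_102_s : ∃ t, chk3 f_pm_102_s t 62 63 1 = true :=
  ⟨(b (a (l 6) (a (l 6) (a (b (a (b (b (c (c (l 16774296) (l 16771552)) (c (l 16779256) (l 16776440))) (l 6)) (l 6)) (b (c (c (b (l 16774000) (l 16774600)) (b (l 16771568) (l 16772000))) (c (b (l 16769096) (l 16769368)) (b (l 16766600) (l 16771944)))) (b (c (a (l 6) (l 16778952)) (c (l 16774808) (l 16771976))) (l 6)))) (l 6)) (a (b (c (b (c (b (l 16773696) (l 16774280)) (b (l 16771568) (l 16771984))) (c (b (l 16774800) (l 16775240)) (b (l 16772336) (l 16777864)))) (b (c (b (l 16769408) (l 16769656)) (b (l 16772464) (l 16772544))) (c (b (l 16775088) (l 16775200)) (b (l 16772560) (l 16775128))))) (l 6)) (b (c (b (a (b (l 16777752) (l 16778248)) (b (b (l 16777512) (l 16772560)) (l 16778160))) (c (b (l 16773888) (l 16774848)) (b (l 16777536) (l 16777800)))) (b (b (c (a (l 16780112) (l 16774992)) (a (l 16778152) (l 16775816)))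 (c (l 16775184) (l 16773136))) (c (b (l 16775352) (l 16775448)) (b (l 16775760) (l 16775680))))) (b (b (c (c (l 16780480) (l 16777992)) (c (l 16778088) (c (l 16778792) (l 16777512)))) (a (l 6) (a (l 6) (b (c (l 16774056) (l 16774224)) (l 6))))) (l 6))))))) (l 6)), by decide +kernel⟩

def k32_pm_102_s : ∃ t, chk3 f_pm_102_s t 504 252 1 = true :=
  ⟨(a (b (a (b (c (b (b (l 16779336) (a (l 16771880) (l 16771432))) (l 16779848)) (b (c (a (l 16775016) (l 16769824)) (a (l 16773376) (l 16778736))) (c (l 16780440) (l 16778760)))) (c (l 16777880) (a (l 16777048) (l 16777152)))) (b (a (b (l 16777064) (c (b (l 16776432) (l 16771400)) (b (l 16774488) (l 16769304)))) (b (l 16776984) (b (l 16770712) (c (l 16776200) (l 16774632))))) (c (c (l 16776192) (l 16777136)) (c (l 16778120) (l 16777768))))) (c (b (c (l 16777464) (l 16777496)) (c (l 16778440) (l 16777744))) (c (b (l 16775608) (l 16778304)) (b (l 16776320) (l 16776880))))) (b (b (c (c (l 16769408) (l 16770616)) (c (l 16769736) (l 16768496)))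 (a (a (c (b (b (l 16775968) (l 16770944)) (l 16771280)) (b (b (l 16774768) (l 16769576)) (l 16769624))) (b (b (l 16776152) (c (l 16775744) (l 16777520))) (c (l 16776088) (l 16777584)))) (b (c (l 16769992) (l 16769536)) (a (c (b (l 16775528) (l 16770504)) (b (l 16777640) (l 16769832))) (b (l 16776328) (c (l 16775320) (l 16777760))))))) (c (b (c (a (l 16770976) (l 16778040)) (a (l 16772216) (l 16779528))) (c (l 16776784) (l 16777680))) (b (c (a (l 16770552) (l 16778520)) (b (l 16778200) (l 16774232))) (c (l 16778544) (c (l 16779832) (l 16778936))))))), by decide +kernel⟩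

def k33_pm_102_s : ∃ t, chk3 f_pm_102_s t 505 252 1 = true :=
  ⟨(b (a (c (b (c (l 16773704) (l 16769360)) (c (l 16773952) (l 16769800))) (b (c (l 16769312) (l 16773632)) (c (l 16775296) (l 16774176)))) (b (c (c (l 16772944) (l 16773544)) (c (l 16773920) (l 16773312))) (c (c (l 16773168) (l 16773952)) (c (l 16774688) (l 16773880))))) (a (b (a (a (c (b (b (l 16777736) (l 16770088)) (l 16770464)) (b (b (l 16777872) (l 16770056)) (l 16770064))) (b (b (l 16776072) (c (l 16777536) (l 16777976))) (c (l 16775272) (l 16778016)))) (b (c (l 16769224) (l 16769920)) (a (c (b (l 16777336) (l 16774944)) (b (l 16778736) (l 16775496))) (a (b (l 16770464) (c (l 16774616) (l 16775552))) (c (l 16774384) (l 16778096)))))) (b (c (c (l 16777496) (l 16778896)) (c (l 16778776) (a (l 16779824) (l 16774848)))) (c (c (l 16775376) (l 16771624)) (c (l 16776160) (l 16774640))))) (b (c (c (l 16773344) (l 16774312)) (c (l 16775296) (l 16774512))) (a (a (c (b (b (c (l 16776368) (l 16774944)) (l 16774576))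 (l 16769736)) (b (b (c (l 16776160) (l 16775016)) (l 16775672)) (l 16775648))) (b (a (b (l 16775288) (c (l 16774248) (l 16775728))) (c (l 16776648) (l 16778256))) (c (l 16777168) (l 16778352)))) (b (c (l 16768536) (l 16770216)) (a (c (b (c (l 16776048) (l 16777184)) (l 16774224)) (b (c (l 16775720) (l 16775208)) (l 16775824))) (a (b (l 16774880) (c (l 16776528) (l 16775872))) (c (l 16777296) (l 16779048))))))))), by decide +kernel⟩

def k34_pm_102_s : ∃ t, chk3 f_pm_102_s t 504 253 1 = true :=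
  ⟨(a (b (c (c (b (l 16779488) (l 16780352)) (b (l 16777912) (l 16780616))) (c (b (l 16778304) (c (l 16781448) (l 16780240))) (b (c (l 16779240) (l 16778112)) (c (l 16779032) (l 16777808))))) (a (l 6) (b (c (c (l 16780416) (l 16777960)) (c (l 16775472) (l 16775568))) (l 6)))) (c (b (c (b (l 16777848) (l 16781624)) (b (l 16780448) (l 16780512))) (b (c (l 16782064) (a (l 16777896) (l 16777832))) (c (c (l 16780744) (l 16779544)) (c (l 16778344) (l 16779752))))) (b (c (b (l 16778520) (a (l 16775744) (l 16775840))) (b (a (l 16773824) (l 16774080)) (c (l 16779448) (l 16778384)))) (c (b (a (l 16775552) (l 16775640)) (c (l 16778536) (l 16777312))) (b (c (l 16779120) (l 16775344)) (c (l 16777384) (b (l 16777592) (l 16777312)))))))), by decide +kernel⟩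

def k35_pm_102_s : ∃ t, chk3 f_pm_102_s t 505 253 1 = true :=
  ⟨(b (c (a (b (c (l 16778816) (l 16780376)) (c (l 16779992) (l 16780416))) (b (a (c (l 16774952) (l 16776344)) (b (a (l 16774656) (l 16776840)) (l 16777664))) (a (c (l 16776136) (l 16777696)) (c (l 16775304) (l 16776720))))) (a (c (b (l 16780056) (c (l 16776448) (l 16780784))) (b (a (l 16774336) (l 16774600)) (a (l 16774040) (l 16774296)))) (b (a (b (l 16778248) (l 16778152)) (b (a (l 16775776) (l 16779144)) (l 16778352))) (c (c (l 16776584) (l 16775824)) (c (l 16775064) (l 16774288)))))) (c (a (b (c (c (l 16778152) (l 16779120)) (c (l 16778232) (l 16777248))) (c (c (l 16779480) (l 16779176)) (c (l 16778120) (l 16779672)))) (b (c (c (l 16776600) (l 16777424)) (c (l 16778048) (l 16777216))) (c (c (l 16777952) (l 16778824)) (c (l 16777912) (l 16779608))))) (c (a (b (a (l 16775720) (l 16775816)) (c (l 16778600) (l 16777520))) (b (c (l 16776376) (l 16775528)) (c (l 16778680) (l 16777752)))) (a (b (c (l 16779512) (l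 16775888)) (c (l 16777752) (b (l 16778112) (l 16777816)))) (b (c (l 16777304) (l 16776440)) (c (l 16778120) (b (l 16778640) (l 16778328)))))))), by decide +kernel⟩

def k36_pm_102_s : ∃ t, chk3 f_pm_102_s t 506 252 1 = true :=
  ⟨(b (b (a (c (c (l 16776312) (l 16776608)) (c (l 16775608) (l 16775400))) (a (b (c (a (l 16774720) (b (c (l 110226307751) (l 110226307767)) (l 16776584))) (a (l 16774856) (b (l 110226307783) (l 16775992)))) (c (l 16774808) (l 16772456))) (a (b (c (l 206863072247) (l 210621168631)) (b (a (l 16775952) (a (l 16776832) (l 133848628279))) (l 16776032))) (b (l 3) (a (b (l 3) (a (l 16775904) (l 102173244615))) (l 219211103351)))))) (a (c (c (l 16775192) (l 16775680)) (c (l 16776176) (l 16775992))) (a (c (l 16776312) (l 16776872)) (b (a (l 16776528) (b (c (l 10368318551) (l 16775992)) (l 16774776))) (c (l 16774832) (l 16772576)))))) (a (b (c (c (l 16775336) (l 16776016)) (c (l 16776696) (l 16776648))) (c (c (l 16776744) (l 16776296)) (c (l 16777160) (l 16777368))))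 (b (c (c (c (l 16774808) (l 16775000)) (l 16776928)) (c (l 16776992) (l 16777264))) (c (c (b (l 16774960) (l 16774984)) (l 16777184)) (c (l 16777432) (l 16777352)))))), by decide +kernel⟩

def k37_pm_102_s : ∃ t, chk3 f_pm_102_s t 507 252 1 = true :=
  ⟨(b (a (b (l 3) (a (a (a (b (b (l 125258693319) (l 16776608)) (l 16774808)) (b (a (b (l 3) (l 82845891863)) (l 203104976247)) (l 16776696))) (b (l 3) (a (b (a (l 16776568) (l 95193922791)) (l 16777320)) (b (l 145122916919) (a (l 16777264) (l 16776872)))))) (a (a (b (l 3) (a (b (l 3) (l 108078824631)) (l 221895458007))) (l 3)) (l 3)))) (l 3)) (a (b (a (c (c (l 16774696) (l 16774872)) (c (l 16775056) (l 16775248))) (b (b (a (a (l 16776608) (b (l 132774886487) (l 16776872))) (l 238538456167)) (a (l 16776016) (a (b (l 98415148263) (l 16777240)) (l 139754207831)))) (a (c (l 16777328) (l 16772336)) (a (l 16776040) (c (b (l 16776552) (l 16777264)) (l 16776832)))))) (c (a (c (l 16774744) (l 16775104)) (c (l 16775960) (l 16774872)))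 (c (a (l 16772848) (l 16775104)) (a (l 16773224) (l 16772712))))) (b (a (b (l 3) (a (a (b (b (l 167671495607) (l 95193922807)) (l 16776608)) (b (l 3) (b (l 126332435559) (l 16776880)))) (l 234243488519))) (l 3)) (a (b (a (c (l 16774648) (l 16774808)) (a (b (b (l 91972697335) (l 16775936)) (l 16774680)) (b (l 135459240567) (b (l 57076088167) (l 16777264))))) (c (l 16776632) (l 16776256))) (b (a (a (b (l 3) (a (b (l 16776424) (l 16777208)) (l 139754208263))) (l 3)) (l 3)) (b (a (a (l 16776608) (b (l 119889984647) (a (l 16777240) (l 16776536)))) (l 228874779815)) (a (l 16776640) (a (a (l 16776904) (b (l 16776800) (l 16777232))) (c (l 130627402711) (l 131164273639)))))))))), by decide +kernel⟩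

def k38_pm_102_s : ∃ t, chk3 f_pm_102_s t 506 506 1 = true :=
  ⟨(a (b (a (a (b (c (b (c (l 16777056) (l 16776824)) (l 16773904)) (b (c (l 16777920) (l 16777984)) (l 16775944))) (c (l 16774352) (l 16775880))) (b (b (l 16777064) (a (c (l 16776208) (l 16778368)) (c (l 16776032) (l 16775512)))) (c (l 16777192) (l 16779240)))) (b (c (l 16773176) (l 16775040)) (a (c (b (a (l 16776056) (l 16775880)) (l 16773608)) (b (c (l 16778840) (l 16778120)) (l 16775760))) (b (l 16776712) (a (c (l 16777216) (l 16777952)) (c (l 16775736) (l 16777720))))))) (c (a (c (l 16774464) (l 16775744)) (b (c (l 16775944) (l 16774416)) (l 16777144))) (b (a (l 16779080) (c (l 16775520) (l 16775424))) (c (l 16776384) (l 16777728))))) (b (c (a (b (l 16772864) (l 16772912)) (c (l 16777520) (l 16772960))) (c (a (l 16774128) (l 16773648)) (a (l 16774968) (l 16774344)))) (c (a (b (a (b (a (l 16776752) (l 16776904)) (l 16773328)) (b (l 16778104) (a (a (l 16775672) (l 16775576)) (l 16776768)))) (c (l 16775720) (l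 16776752))) (b (l 16772664) (a (b (c (a (l 16777664) (l 16777504)) (a (l 16775968) (l 16778400))) (l 16775696)) (b (l 16777856) (c (a (l 16776240) (l 16777400)) (a (l 16775824) (l 16778264))))))) (a (b (a (b (a (l 16777752) (l 16777520)) (l 16775368)) (b (l 16769432) (a (l 16778216) (l 16777328)))) (c (l 16775176) (l 16778128))) (b (l 16774304) (a (b (a (a (l 16774808) (l 16777304)) (l 16778456)) (l 16775000)) (b (l 16769072) (a (a (l 16777248) (l 16777120)) (l 16778280))))))))), by decide +kernel⟩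

def k39_pm_102_s : ∃ t, chk3 f_pm_102_s t 506 507 1 = true :=
  ⟨(a (c (c (a (b (l 16775768) (l 16777192)) (b (l 16777552) (l 16778984))) (b (c (l 16776384) (l 16777072)) (c (l 16777728) (l 16779576)))) (c (b (c (l 16776512) (l 16775816)) (c (l 16778792) (l 16778000))) (b (c (l 16777728) (l 16777016)) (c (l 16778520) (a (l 16778896) (l 16779176)))))) (a (c (b (c (l 16776704) (l 16777864)) (c (a (l 16775736) (l 16777936)) (l 16779480))) (b (c (l 16776344) (l 16777776)) (c (l 16779864) (b (l 16774720) (l 16777024))))) (b (c (b (c (l 16775512) (l 16776488)) (c (l 16773568) (l 16774632))) (c (b (l 16777480) (l 16775712)) (b (l 16778176) (l 16775296)))) (c (c (b (l 16776920) (l 16777656)) (b (l 16778064) (l 16776272))) (c (b (l 16776184) (l 16778576)) (b (l 16777616) (l 16777312))))))), by decide +kernel⟩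

def k40_pm_102_s : ∃ t, chk3 f_pm_102_s t 507 506 1 = true :=
  ⟨(a (c (b (c (a (l 16777368) (l 16774640)) (a (l 16775288) (l 16775040))) (a (b (l 16775048) (l 16775056)) (c (l 16777200) (l 16775160)))) (b (c (a (l 16773208) (l 16775448)) (a (l 16773768) (l 16773240))) (c (a (l 16773512) (l 16775744)) (a (l 16774248) (l 16773712))))) (b (a (c (c (l 16775888) (l 16776160)) (c (l 16775120) (l 16775392))) (b (a (b (l 16776048) (l 16776104)) (b (a (l 16774664) (c (l 16776552) (l 16775944))) (l 16776664))) (c (l 16776768) (l 16776312)))) (c (a (c (l 16775816) (l 16776256)) (b (l 16776600) (l 16776592))) (c (a (l 16775392) (l 16776408)) (a (l 16775848) (l 16775416)))))), by decide +kernel⟩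

def k41_pm_102_s : ∃ t, chk3 f_pm_102_s t 1014 507 1 = true :=
  ⟨(b (c (a (b (a (b (c (a (l 16776136) (l 16777296)) (a (l 16775696) (l 16778136))) (l 16775464)) (b (l 16777624) (a (b (l 16775056) (l 16777816)) (b (l 16777592) (l 16775000))))) (c (b (l 16776456) (l 16775488)) (a (l 16773872) (l 16775992)))) (b (l 16774856) (a (b (a (b (l 16774944) (l 16777704)) (b (l 16777488) (l 16776200))) (l 16775248)) (b (l 16777416) (a (b (l 16776152) (l 16777600)) (b (l 16777384) (l 16776104))))))) (a (b (a (b (c (a (l 16776576) (l 16776360)) (a (l 16777472) (l 16774608))) (l 16777280)) (b (l 16773976) (c (a (l 16776424) (l 16776208)) (a (l 16777288) (l 16777048))))) (c (a (l 16774848) (l 16776888)) (a (l 16775512) (l 16777808)))) (b (l 16776280) (a (b (c (a (l 16777584) (l 16776064)) (a (l 16777112) (l 16776872))) (l 16776952)) (b (l 16773664) (c (a (l 16777440) (l 16777232)) (a (l 16778248) (l 16776704)))))))) (c (c (a (b (l 16773400) (l 16774128)) (b (l 16776456) (l 16773224))) (a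 (l 16777768) (b (l 16776016) (l 16774184)))) (a (c (l 16778512) (c (l 16775432) (l 16774888))) (c (b (l 16776896) (l 16775160)) (b (l 16777792) (l 16775320)))))), by decide +kernel⟩

def k42_pm_102_s : ∃ t, chk3 f_pm_102_s t 1015 507 1 = true :=
  ⟨(b (c (a (c (l 16776352) (l 16776312)) (b (l 16776568) (l 16776200))) (a (c (l 16775616) (l 16776248)) (c (l 16776616) (l 16777112)))) (b (a (a (b (a (b (c (l 16776048) (l 16776272)) (c (l 16777496) (l 16773824))) (b (l 16775392) (c (l 16776000) (l 16776200)))) (c (l 16775048) (l 16776648))) (a (b (l 16775984) (b (c (a (l 16777296) (l 16777224)) (l 16777440)) (c (l 16777408) (l 16773680)))) (b (l 16776576) (b (l 16775280) (c (a (l 16777248) (l 16777176)) (l 16777368)))))) (c (c (l 16776840) (l 16777440)) (l 16777048))) (a (c (c (b (l 16774792) (l 16777768)) (l 16777112)) (c (l 16776624) (l 16777472))) (a (b (a (b (c (a (l 16777208) (l 16777136)) (l 16777296)) (c (l 16777320) (l 16773544))) (b (l 16775168) (c (c (l 16776792) (l 16777480))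 (l 16777224)))) (c (l 16776176) (l 16777672))) (a (b (l 16776096) (b (c (c (l 16776760) (l 16777432)) (l 16777328)) (c (l 16777232) (l 16773408)))) (b (l 16776040) (b (l 16775064) (c (c (l 16776064) (l 16777392)) (c (l 16778064) (l 16776128)))))))))), by decide +kernel⟩

def k43_pm_102_s : ∃ t, chk3 f_pm_102_s t 254 252 1 = true :=
  ⟨(l 3), by decide +kernel⟩

def k44_pm_102_s : ∃ t, chk3 f_pm_102_s t 508 506 1 = true :=
  ⟨(a (b (a (a (b (b (a (a (b (l 16776848) (l 16777216)) (l 134385499175)) (l 3)) (a (l 16776600) (a (b (l 16776840) (l 16777240)) (b (l 16776896) (l 16776544))))) (c (l 16775912) (l 16774768))) (b (c (l 220821715783) (l 229411650375)) (b (a (a (l 16776904) (b (l 112373792135) (l 16777232))) (a (b (l 3) (l 16776928)) (l 160155302791))) (a (l 16775960) (c (l 16776872) (l 16776600)))))) (a (a (b (l 3) (b (l 3) (b (l 142438562839) (c (l 76940311991) (l 76403441111))))) (l 3)) (l 3))) (a (c (c (a (l 16775800) (l 16776472)) (b (l 16777280) (l 16774680))) (c (b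 (l 16774800) (l 16774904)) (l 16777000))) (a (b (a (b (l 16776592) (l 16775968)) (b (b (c (l 108078824791) (l 108078824791)) (c (l 16776544) (l 16775920))) (l 16775944))) (c (l 16775872) (l 16774816))) (a (b (a (b (l 141901691895) (l 16776904)) (b (l 3) (b (l 104320728471) (l 16777224)))) (c (l 16777192) (l 16774728))) (b (a (b (l 3) (b (l 3) (l 79624666583))) (l 225116683447)) (b (c (l 16777032) (l 16776592)) (l 16775944))))))) (b (l 3) (a (b (l 3) (a (a (b (b (l 137069853751) (a (l 16777216) (l 100562632103))) (l 16776584)) (b (l 3) (b (c (a (l 16776520) (l 145122917815)) (l 102710115703)) (c (l 16776544) (l 16775920))))) (a (b (l 3) (b (l 3) (l 134385499191))) (l 3)))) (l 3)))), by decide +kernel⟩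

def k45_pm_102_s : ∃ t, chk3 f_pm_102_s t 508 507 1 = true :=
  ⟨(a (b (c (a (c (b (l 16777008) (l 16776928)) (b (l 16777320) (l 16777320))) (c (b (l 16775752) (l 16776976)) (a (l 16775944) (l 16776568)))) (a (c (c (l 16774960) (l 16775136)) (l 16777368)) (c (b (l 16774800) (l 16774880)) (b (l 16774984) (l 16775144))))) (c (a (b (c (l 16776832) (l 16777304)) (c (l 16776728) (l 16777280))) (c (b (l 16776872) (l 16776760)) (b (l 16777216) (l 16777184)))) (a (c (b (l 16777784) (l 16777840)) (b (l 16773024) (l 16775784))) (c (b (l 16774944) (l 16777608)) (b (l 16775296) (l 16775424)))))) (b (a (a (b (c (l 16776520) (l 16776032)) (c (l 16776464) (l 16776144))) (b (a (b (b (a (l 16777216) (a (l 16776864) (l 122037468727))) (l 16777224)) (l 16776584)) (a (b (b (l 3) (a (l 16777208) (l 16777016))) (l 16775920)) (b (l 150491626439) (b (l 16776880) (l 16777224))))) (c (l 16776488) (l 16776048)))) (a (a (b (b (l 3) (b (c (l 131701144807) (l 132238015719)) (a (l 16777216) (c (l 93583310423)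 (l 16776840))))) (c (l 16776520) (l 16775976))) (b (l 238538456055) (b (b (a (c (l 16776856) (l 16776536)) (l 138680466743)) (c (l 16776536) (l 16775920))) (l 16776568)))) (b (l 3) (a (b (b (l 3) (c (l 129016790263) (l 129553661175))) (b (a (l 16777216) (c (l 89825214039) (l 89825214055))) (l 16777216))) (b (l 3) (a (b (l 159618432391) (c (l 16777024) (l 16776544))) (l 146196659159))))))) (b (a (c (c (l 16776304) (l 16776520)) (c (l 16776080) (l 16776304))) (a (c (c (l 16777048) (l 16777176)) (l 16776704)) (b (a (l 16776568) (a (l 16775904) (b (l 8757706407) (l 16777216)))) (c (l 16775824) (l 16774680))))) (c (a (c (l 16776176) (l 16775824)) (a (l 16776536) (c (l 16777000) (l 16777144)))) (a (c (l 16776128) (l 16775120)) (c (l 16776656) (l 16776832))))))), by decide +kernel⟩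

def k46_pm_102_s : ∃ t, chk3 f_pm_102_s t 509 253 1 = true :=
  ⟨(b (l 3) (a (b (l 3) (a (a (b (b (a (b (c (c (l 126869306615) (l 126869306631)) (l 127406177543)) (a (l 16777216) (c (l 87140859479) (l 86603988583)))) (l 227801038215)) (a (l 16776888) (b (a (a (l 16777208) (l 78550924935)) (l 132238015815)) (c (l 16776864) (l 16776568))))) (c (c (l 16776424) (l 16777160)) (c (l 16777248) (l 16776024)))) (b (a (a (b (l 3) (a (b (l 3) (l 91972697703)) (l 148881013927))) (l 3)) (l 3)) (b (b (a (a (l 16777216) (a (l 61371055767) (l 105394470487))) (l 222432329303)) (a (l 16776552) (a (c (l 59760443015) (l 16776872)) (l 129016790359)))) (a (a (l 16776544) (l 16776552)) (c (c (l 16776832) (l 16776536)) (l 6610222647)))))) (a (b (l 3) (b (l 3) (a (a (b (b (l 146196659719) (l 80161537671)) (l 16777208)) (b (l 3) (b (l 111836921431) (l 16776880)))) (c (l 222432329127) (l 224042941847))))) (l 3)))) (l 3))), by decide +kernel⟩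

def k47_pm_102_s : ∃ t, chk3 f_pm_102_s t 255 126 1 = true :=
  ⟨(l 3), by decide +kernel⟩

def k48_pm_102_s : ∃ t, chk3 f_pm_102_s t 252 254 1 = true :=
  ⟨(a (a (l 6) (a (l 6) (b (b (a (l 6) (b (b (c (l 16778752) (l 16776504)) (l 6)) (l 6))) (l 6)) (l 6)))) (a (b (b (c (c (b (l 16779648) (l 16782192)) (c (l 16780520) (l 16780680))) (c (c (l 16779688) (b (l 16779800) (l 16779528))) (c (b (l 16778648) (l 16778336)) (a (l 16774568) (l 16774808))))) (a (l 6) (c (c (l 16781904) (b (l 16777000) (l 16779400))) (c (b (l 16777248) (l 16778248)) (c (b (l 16778064) (l 16777688)) (b (l 16776856) (l 16776432))))))) (l 6)) (b (c (b (c (b (l 16779192) (l 16781720)) (c (l 16780272) (l 16780576))) (c (b (l 16781600) (l 16781440)) (b (l 16780456) (a (l 16779280) (l 16776552))))) (c (b (c (l 16779568) (b (l 16780000) (l 16779712))) (c (a (l 16777704) (l 16780328)) (a (l 16777872) (l 16777944)))) (a (b (b (l 16775760) (l 16775408)) (b (l 16776016) (c (l 16777832) (l 16776648)))) (b (b (l 16775976)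 (l 16775616)) (b (l 16776536) (a (l 16774752) (l 16774840))))))) (a (a (l 6) (b (b (c (c (l 16778696) (l 16776360)) (c (l 16776608) (c (l 16777432) (l 16776224)))) (l 6)) (l 6))) (b (b (c (c (l 16781136) (l 16779888)) (c (c (l 16779832) (l 16777384)) (c (a (l 16777496) (l 16777584)) (a (l 16776328) (l 16775136))))) (a (b (a (l 6) (c (l 16779848) (c (l 16776336) (l 16775272)))) (l 6)) (c (c (l 16778328) (l 16778664)) (c (l 16777664) (c (l 16777216) (l 16774728)))))) (a (l 6) (b (b (b (c (l 16779728) (c (l 16778808) (l 16775096))) (l 6)) (l 6)) (l 6)))))))), by decide +kernel⟩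

def k49_pm_102_s : ∃ t, chk3 f_pm_102_s t 506 508 1 = true :=
  ⟨(c (a (b (a (c (l 16778728) (l 16779656)) (b (l 16780496) (a (l 16777744) (l 16780312)))) (c (a (b (l 16778624) (l 16781104)) (b (l 16778464) (l 16778384))) (a (b (l 16776712) (l 16779104)) (b (l 16779312) (l 16776520))))) (b (b (a (a (l 16780264) (l 16779792)) (l 16779048)) (c (l 16779592) (l 16779536))) (c (c (l 16780320) (l 16780520)) (c (l 16779720) (l 16778912))))) (c (a (b (b (l 16779336) (a (l 16775080) (l 16777784))) (a (b (l 16777392) (a (l 16777032) (l 16777104))) (b (l 16778824) (l 16777256)))) (b (a (b (l 16778184) (l 16775320)) (l 16778248)) (c (l 16779408) (b (l 16780032) (l 16779768))))) (a (b (a (b (l 16773576) (l 16775824)) (b (l 16773800) (a (l 16778608) (l 16776112)))) (a (b (c (l 16778536) (l 16777544)) (c (l 16776848) (a (l 16777032) (l 16777192)))) (b (c (l 16778768) (l 16775224)) (l 16776656)))) (b (a (b (a (l 16773984) (l 16774128)) (l 16776352)) (b (l 16774384) (l 16776688))) (c (a (l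 16776296) (l 16776600)) (b (l 16775800) (l 16776760))))))), by decide +kernel⟩

def k50_pm_102_s : ∃ t, chk3 f_pm_102_s t 507 508 1 = true :=
  ⟨(b (a (c (c (a (b (l 16774856) (l 16775600)) (c (l 16776680) (l 16774600))) (a (l 16779072) (l 16778040))) (c (c (l 16778808) (l 16778216)) (c (l 16778936) (a (l 16776856) (l 16774576))))) (c (a (c (c (l 16775824) (l 16776296)) (b (l 16773976) (l 16774808))) (c (b (c (l 16775960) (l 16775024)) (l 16775560)) (b (a (l 16773224) (l 16775352)) (l 16776416)))) (c (a (l 16778304) (b (l 16777040) (l 16774664))) (a (c (l 16775392) (l 16774904)) (b (c (l 16774352) (l 16774752)) (l 16775272)))))) (c (a (b (c (l 16778848) (l 16779472)) (c (l 16779600) (l 16780624))) (a (b (c (l 16777184) (l 16775640)) (c (l 16777944) (l 16776480))) (c (b (l 16776312) (l 16777064)) (a (l 16777920) (l 16777424))))) (a (c (c (l 16778384) (l 16779016)) (c (a (l 16776888) (l 16777160)) (a (l 16776168) (l 16776512)))) (c (c (l 16778944) (a (l 16777992) (l 16778160)))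 (c (a (l 16777416) (l 16777656)) (a (l 16776840) (l 16777152))))))), by decide +kernel⟩

def k51_pm_102_s : ∃ t, chk3 f_pm_102_s t 1012 509 2 = true :=
  ⟨(b (c (b (l 16782272) (l 16782192)) (b (a (l 16778904) (l 16778984)) (a (l 16778728) (l 16778808)))) (a (a (b (b (l 16779720) (a (l 6) (l 16779648))) (l 6)) (b (c (l 16778176) (l 16778576)) (b (a (a (l 6) (b (b (l 16779608) (a (l 6) (l 16779608))) (l 6))) (b (l 16779600) (b (b (a (c (l 16780760) (l 16779792)) (l 16779584)) (a (l 16779776) (c (l 16780768) (l 16779816)))) (c (l 16778496) (l 16776248))))) (c (l 16779600) (l 16780040))))) (b (c (l 16780752) (l 16779944)) (b (a (b (l 16779608) (b (c (l 16780704) (a (l 16779784) (l 16781096))) (b (a (c (l 16782064) (a (l 16779848) (l 16779776))) (l 16779568)) (a (a (l 16779864) (l 16779704)) (a (c (l 16780712) (l 16779792)) (l 16779560)))))) (c (l 16778040) (l 16781128))) (b (a (b (c (a (l 16778560) (l 16781848)) (a (l 16776344) (a (l 16781360) (b (l 16779816) (l 16781304)))))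 (c (l 16778784) (l 16779216))) (a (b (b (c (l 16780656) (l 16778464)) (c (l 16782008) (a (l 16779840) (l 16779776)))) (c (l 16778304) (l 16778752))) (b (l 16779544) (b (a (c (l 16780648) (l 16779792)) (l 16779528)) (a (l 16779712) (c (l 16780656) (l 16779808))))))) (c (l 16781648) (c (l 16777424) (l 16778976)))))))), by decide +kernel⟩

def k52_pm_102_s : ∃ t, chk3 f_pm_102_s t 1013 509 2 = true :=
  ⟨(b (c (c (l 16781208) (l 16781640)) (c (l 16780752) (b (l 16781256) (l 16781064)))) (b (c (a (l 16780672) (l 16780584)) (a (l 16778696) (l 16778752))) (a (a (b (l 16779912) (c (b (l 16780600) (b (a (a (l 16780752) (l 16781960)) (l 16781896)) (a (l 16778432) (l 16781720)))) (b (a (l 16779792) (l 16781096)) (b (b (a (a (l 16779840) (l 16779776)) (l 16781072)) (a (l 16778640) (c (l 16781624) (l 16779912)))) (b (a (l 16781472) (a (l 16781240) (l 16779800))) (l 16778896)))))) (b (l 16779576) (a (b (l 16779528) (b (l 16779496) (b (c (l 16780536) (l 16778456)) (c (l 16781888) (a (l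 16779824) (l 16779768)))))) (l 16779504)))) (c (l 16780488) (l 16779872))))), by decide +kernel⟩

def k53_pm_102_s : ∃ t, chk3 f_pm_102_s t 506 1018 3 = true :=
  ⟨(c (a (c (b (l 16778728) (l 16778488)) (a (b (l 16778872) (l 16778592)) (l 16777680))) (c (a (l 16777560) (l 16780336)) (b (l 16776872) (l 16777904)))) (a (b (a (c (l 16777800) (l 16775408)) (c (l 16778136) (l 16777128))) (c (a (l 16776168) (l 16777808)) (a (c (l 16776632) (l 16776072)) (l 16775448)))) (c (b (l 16777296) (a (l 16778128) (l 16778424))) (b (a (l 16777520) (l 16777888)) (a (l 16775840) (l 16777520)))))), by decide +kernel⟩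

def k54_pm_102_s : ∃ t, chk3 f_pm_102_s t 506 2038 6 = true :=
  ⟨(a (a (b (l 16777640) (a (a (l 6) (l 16776160)) (l 16776248))) (c (l 16779648) (l 16778560))) (c (l 16778584) (a (l 16778808) (l 16779040)))), by decide +kernel⟩

def k55_pm_102_s : ∃ t, chk3 f_pm_102_s t 506 4078 6 = true :=
  ⟨(a (a (a (l 6) (a (b (b (l 16778760) (b (a (l 6) (l 16778744)) (l 6))) (l 6)) (b (l 16778800) (b (b (b (c (l 16779352) (l 16777536)) (a (a (l 6) (l 16777464)) (l 16776144))) (b (a (l 16778904) (a (l 16777480) (l 16777464))) (l 16777624))) (l 16776584))))) (a (b (l 16776256) (a (b (c (l 16779392) (a (l 16777576) (l 16778240))) (b (b (a (a (l 16778856) (l 16777488)) (l 16776176)) (a (l 16778928) (a (l 16777512) (l 16777488)))) (c (l 16779584) (l 16778440)))) (a (b (l 16778840) (b (l 16778816) (b (c (l 16779384) (l 16778248)) (c (l 16779424) (l 16777632))))) (l 16777544)))) (l 16777640))) (a (l 16777800) (l 16777992))), by decide +kernel⟩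

def k56_pm_102_s : ∃ t, chk3 f_pm_102_s t 506 4079 6 = true :=
  ⟨(a (b (a (c (l 16778256) (l 16777128)) (a (a (l 16776936) (a (l 16776712) (b (b (b (a (l 16777536) (l 16777520)) (l 16777600)) (l 16776456)) (l 16776776)))) (a (c (b (b (l 16779424) (a (l 16778176) (l 16778120))) (l 16779720)) (b (b (l 16777648) (b (a (l 16777664) (l 16778296)) (a (l 16778424) (l 16777656)))) (l 16777304))) (b (l 16778888) (a (b (b (c (l 16779424) (l 16778320)) (a (l 16778936) (l 16777568))) (l 16776440)) (b (l 16776264) (b (a (l 16777592) (l 16777568)) (l 16777648)))))))) (a (l 6) (c (l 16777888) (l 16778112)))) (a (a (b (c (l 16778856) (c (l 16778704) (l 16777672))) (a (b (b (b (a (a (l 16778960) (l 16777600)) (l 16778904)) (a (l 16779024) (a (l 16777616) (l 16777600)))) (c (l 16779648) (l 16778560))) (l 16776808)) (b (b (l 16778936) (a (b (l 16777616) (a (l 16778976) (l 16777624))) (l 16778928))) (a (l 16776584) (b (b (a (l 16777640) (l 16777616)) (l 16777696)) (l 16779168)))))) (a (b (l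 16779024) (b (l 16778976) (b (c (l 16779496) (l 16778432)) (b (a (a (l 16779000) (l 16777640)) (l 16778952)) (a (l 16779072) (a (l 16777656) (l 16777640))))))) (l 16776416))) (l 16777848))), by decide +kernel⟩

def k57_pm_102_s : ∃ t, chk3 f_pm_102_s t 506 2038 7 = true :=
  ⟨(a (a (b (c (l 16777224) (l 16774760)) (a (a (l 6) (c (l 16777016) (l 16775824))) (c (l 16777144) (l 16775984)))) (c (l 16776488) (c (l 16776656) (l 16775448)))) (c (a (l 16776480) (l 16778096)) (a (c (l 16777024) (l 16776512)) (l 16775832)))), by decide +kernel⟩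

def k58_pm_102_s : ∃ t, chk3 f_pm_102_s t 2024 2039 7 = true :=
  ⟨(a (l 6) (b (a (a (l 6) (b (b (l 16775112) (b (l 16775080) (l 6))) (l 6))) (a (b (l 16775136) (b (a (a (l 6) (b (b (c (l 16776992) (l 16775152)) (l 6)) (l 6))) (b (b (l 16775096) (b (c (l 16777000) (a (l 16775168) (l 16775824))) (c (l 16777032) (l 16775200)))) (l 16775280))) (l 6))) (b (l 16775184) (c (b (b (l 16777032) (b (a (l 16776392) (l 16777032)) (l 16777120))) (l 16777408)) (b (b (l 16775200) (b (b (a (a (l 16775856) (l 16775840)) (l 16775848)) (a (l 16775896) (a (l 16775200) (l 16775856)))) (c (l 16775584) (l 16775328)))) (l 16776240)))))) (c (l 16776144) (c (l 16775296) (l 16774736))))), by decide +kernel⟩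

def k59_pm_102_s : ∃ t, chk3 f_pm_102_s t 4050 2039 7 = true :=
  ⟨(b (b (c (l 16777184) (l 16776040)) (a (a (b (a (b (l 16775160) (b (l 16775144) (c (l 16776392) (b (l 16775872) (a (l 16775888) (l 16775872)))))) (l 16775176)) (b (b (a (l 16775232) (b (c (l 16777056) (c (l 16775528) (l 16774944))) (c (l 16777080) (l 16775264)))) (l 16775312)) (l 16775480))) (b (l 16775208) (b (b (c (l 16777072) (l 16775920)) (a (b (c (l 16777072) (a (l 16775920) (l 16775904))) (l 16775232)) (c (l 16777080) (c (l 16775560) (l 16775304))))) (c (l 16775912) (c (l 16776352) (a (l 16775816) (l 16775416))))))) (a (b (l 16775256) (b (l 16775216) (a (b (c (l 16776440) (b (l 16775936) (a (l 16775952) (l 16775936)))) (l 16775288)) (b (l 16775216) (b (c (l 16777104) (c (l 16774928) (l 16775008))) (c (l 16777128) (l 16775320))))))) (c (l 16777160) (l 16775368))))) (b (a (c (l 16777864) (l 16775416)) (a (c (l 16777648) (l 16775200)) (b (b (b (b (a (c (l 16777120) (a (l 16775984) (l 16775968))) (l 16775240))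 (a (l 16775280) (c (l 16777128) (l 16775496)))) (c (l 16777208) (c (l 16775704) (a (l 16775824) (l 16775096))))) (l 16775504)) (l 16775848)))) (c (l 16776000) (l 16776200)))), by decide +kernel⟩

def k60_pm_102_s : ∃ t, chk3 f_pm_102_s t 4051 2039 7 = true :=
  ⟨(b (c (l 16777296) (l 16776192)) (b (b (a (a (a (b (b (l 16775256) (c (l 16776488) (b (l 16775992) (a (l 16776008) (l 16776000))))) (c (l 16777272) (l 16776136))) (b (l 16775272) (b (c (l 16776512) (b (l 16775360) (l 16775384))) (l 16775384)))) (b (l 16775312) (b (c (l 16777168) (l 16776040)) (b (a (c (l 16777168) (a (l 16776040) (l 16776032))) (l 16775296)) (a (l 16775336) (c (l 16777176) (l 16775392))))))) (l 16775368)) (a (c (a (l 16777576) (l 16776768)) (a (l 16776448) (a (l 16776344) (c (l 16776544) (c (l 16775472) (l 16775512)))))) (a (b (a (b (c (l 16776536) (a (b (l 16776048) (l 16776072)) (l 16776064))) (l 16775720)) (b (l 16775328) (c (l 16776560) (b (l 16775424) (l 16775440))))) (l 16775528)) (b (c (l 16777224)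 (l 16776112)) (b (a (b (c (l 16777216) (a (l 16776104) (l 16776088))) (l 16775712)) (c (l 16777224) (l 16775576))) (c (l 16777304) (c (l 16775816) (a (l 16775944) (l 16775216))))))))) (c (l 16776720) (c (l 16777200) (l 16775344))))), by decide +kernel⟩

def k61_pm_102_s : ∃ t, chk3 f_pm_102_s t 1013 2039 7 = true :=
  ⟨(b (c (a (l 16777536) (l 16777840)) (a (l 16775824) (l 16775544))) (a (a (b (a (a (a (b (l 16775416) (b (l 16775384) (b (l 16775368) (c (l 16776584) (a (a (l 16775632) (l 16775464)) (l 16776120)))))) (l 16775416)) (l 16775448)) (l 16775520)) (b (a (a (a (c (l 16777472) (l 16776368)) (b (b (c (l 16776600) (b (l 16775480) (l 16775504))) (l 16775488)) (l 16775656))) (b (b (c (l 16777264) (l 16776160)) (a (b (c (l 16777264) (a (l 16776160) (l 16776152))) (l 16775768)) (c (l 16777272) (l 16775512)))) (c (l 16776744) (c (l 16776576) (c (l 16775840) (l 16775728)))))) (a (b (l 16775440) (a (b (b (l 16775744) (c (l 16777288) (a (l 16776192) (l 16776184)))) (c (l 16777352)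 (l 16776256))) (b (l 16775432) (c (l 16776648) (b (l 16775544) (l 16775560)))))) (c (l 16777328) (l 16776240)))) (a (c (l 16777808) (l 16776720)) (a (c (l 16777592) (l 16776504)) (b (a (b (b (c (l 16777304) (a (l 16776216) (l 16776208))) (l 16775984)) (l 16775576)) (b (c (l 16777312) (l 16775568)) (c (l 16777352) (c (l 16775888) (l 16775672))))) (l 16775704)))))) (b (c (l 16777480) (l 16776432)) (a (b (l 16775536) (a (a (b (b (l 16775472) (b (l 16775464) (c (l 16777328) (a (l 16776248) (l 16776240))))) (c (l 16777448) (l 16776368))) (b (l 16775488) (b (c (l 16776696) (b (l 16776256) (l 16775616))) (l 16775584)))) (b (l 16775520) (a (b (l 16775496) (c (l 16776712) (b (l 16775784) (l 16776312)))) (c (l 16777360) (l 16775632)))))) (l 16775592)))) (c (l 16777664) (c (l 16776912) (l 16776408))))), by decide +kernel⟩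

def k62_pm_102_s : ∃ t, chk3 f_pm_102_s t 507 509 1 = true :=
  ⟨(c (a (b (b (c (l 16780040) (l 16780464)) (c (l 16781176) (a (l 16778968) (l 16778992)))) (c (b (l 16781744) (a (l 16780384) (l 16780264))) (b (a (l 16778784) (l 16778808)) (c (l 16780352) (l 16779488))))) (b (a (b (c (l 16776088) (l 16776552)) (c (l 16776864) (l 16779000))) (c (b (l 16777832) (l 16778608)) (b (l 16776328) (l 16779000)))) (b (c (a (l 16780240) (l 16779392)) (a (l 16778816) (l 16778816))) (c (a (l 16780136) (l 16780000)) (a (l 16778632) (l 16778624)))))) (c (b (a (c (a (l 16780480) (l 16777992)) (b (l 16777304) (l 16778336))) (c (b (l 16778280) (l 16778040)) (b (l 16777672) (l 16777392)))) (a (c (b (l 16778872) (l 16778944)) (b (l 16778368) (a (l 16778952) (l 16779152)))) (a (b (l 16778688) (l 16778408)) (b (l 16777512) (l 16778544))))) (b (a (c (b (l 16777864) (l 16777864)) (b (l 16777280) (a (l 16777880) (l 16778224)))) (a (b (l 16776624) (l 16777584)) (b (l 16776896) (l 16777856)))) (a (b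 (c (a (l 16778376) (l 16778648)) (a (l 16776192) (l 16777840))) (c (a (l 16776728) (l 16776992)) (a (b (l 16777208) (l 16775704)) (l 16776472)))) (b (a (c (l 16778904) (l 16778168)) (c (l 16779144) (l 16778480))) (a (c (l 16778560) (l 16776472)) (c (l 16778800) (l 16776776)))))))), by decide +kernel⟩

def k63_pm_102_s : ∃ t, chk3 f_pm_102_s t 252 255 1 = true :=
  ⟨(l 6), by decide +kernel⟩

def k64_pm_102_s : ∃ t, chk3 f_pm_102_s t 1012 510 1 = true :=
  ⟨(b (a (l 6) (a (b (b (c (c (l 16780464) (l 16778400)) (c (l 16778928) (c (l 16777344) (l 16776280)))) (l 6)) (l 6)) (c (b (c (l 16781872) (b (l 16780400) (l 16779352))) (c (l 16781344) (l 16780512))) (b (c (c (l 16779672) (l 16778656)) (b (c (l 16776744) (l 16776336)) (c (l 16775880) (l 16777496)))) (b (c (l 16779040) (l 16779768)) (l 6)))))) (l 6)), by decide +kernel⟩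

def k65_pm_102_s : ∃ t, chk3 f_pm_102_s t 1013 1020 2 = true :=
  ⟨(a (b (c (b (a (l 16779200) (a (l 16781336) (b (b (a (l 16781904) (l 16781832)) (l 16778240)) (l 16778784)))) (l 16782960)) (b (a (l 16779784) (b (a (l 16778920) (b (b (c (l 16781600) (l 16779912)) (a (l 16781224) (l 16779792))) (l 16778824))) (l 16779560))) (c (l 16778896) (l 16777928)))) (b (c (l 16782088) (l 16782576)) (c (l 16781024) (l 16780120)))) (a (b (c (b (a (b (b (l 16780472) (a (l 16780624) (l 16781832))) (l 16778472)) (b (l 16781776) (c (l 16782568) (l 16781912)))) (l 16779400)) (b (b (b (l 16779768) (b (a (a (l 16779816) (l 16779752)) (l 16781048)) (a (l 16778616) (c (l 16781576) (l 16779912))))) (b (b (a (l 16781440) (a (l 16781208) (l 16779776))) (l 16778856)) (l 16779152))) (l 16780112))) (c (l 16781752) (l 16781080))) (b (b (b (l 16779424) (a (b (b (c (l 16780400) (l 16778424)) (c (l 16781752) (a (l 16779800) (l 16779736)))) (c (l 16780648) (l 16778688))) (b (l 16779392) (b (c (l 16780384)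 (c (l 16781544) (l 16779904))) (a (l 16779544) (c (l 16780384) (l 16779760))))))) (c (l 16781400) (l 16779504))) (c (l 16781880) (b (l 16778400) (l 16779896)))))), by decide +kernel⟩

def k66_pm_102_s : ∃ t, chk3 f_pm_102_s t 1013 8160 3 = true :=
  ⟨(c (a (a (l 16777952) (b (a (c (l 16779776) (l 16777416)) (a (b (b (l 16777656) (a (l 16779024) (l 16777664))) (l 16779144)) (b (l 16778976) (b (a (l 16777680) (l 16776352)) (l 16777736))))) (l 16778224))) (a (a (c (b (l 16779536) (b (a (l 16778272) (l 16779528)) (l 16779704))) (b (l 16778496) (b (a (a (l 16778576) (l 16777856)) (c (l 16778096) (l 16777912))) (l 16778672)))) (b (l 16779048) (a (b (l 16779008) (b (l 16777696) (a (l 16779064) (l 16777704)))) (l 16779024)))) (l 16779096))) (a (a (c (l 16775712) (l 16775952)) (b (a (a (l 16775896) (a (l 16775792) (c (l 16776904) (c (l 16776104) (b (c (l 16775592) (l 16775648)) (l 16776344)))))) (b (a (a (b (b (l 16775520) (c (l 16777376) (l 16775808))) (c (l 16777432) (l 16776368)))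 (b (l 16775536) (c (l 16776736) (b (l 16776312) (l 16775672))))) (c (l 16777400) (l 16776344))) (a (l 16775720) (b (a (c (l 16776760) (b (l 16776000) (l 16776368))) (c (l 16777400) (l 16776344))) (c (l 16777472) (c (l 16776024) (a (l 16776184) (l 16775792)))))))) (c (l 16775344) (l 16775600)))) (a (b (b (l 16775664) (b (l 16775648) (a (a (a (b (l 16775568) (c (l 16777416) (l 16775704))) (l 16775584)) (l 16775616)) (l 16775672)))) (a (a (a (c (l 16777640) (l 16776584)) (b (b (c (l 16776776) (b (l 16776368) (l 16775728))) (l 16775680)) (l 16775848))) (a (b (b (l 16775592) (c (l 16776800) (b (l 16775728) (l 16776416)))) (l 16775776)) (b (c (l 16777448) (l 16775744)) (c (l 16777528) (c (l 16776096) (c (l 16776032) (l 16775848))))))) (b (l 16775656) (a (b (a (a (c (l 16777456) (l 16775752)) (l 16776272)) (l 16776944)) (a (c (l 16777512) (l 16776472)) (c (l 16777472) (b (l 16776424) (l 16775784))))) (l 16775984))))) (c (l 16777608) (l 16776600))))), by decide +kernel⟩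

def k67_pm_102_s : ∃ t, chk3 f_pm_102_s t 1013 8161 3 = true :=
  ⟨(a (c (c (l 16778344) (l 16777320)) (c (c (l 16776552) (l 16776032)) (c (l 16775520) (l 16776312)))) (a (a (c (l 16777088) (c (l 16778184) (l 16775848))) (a (c (l 16776872) (c (l 16777968) (l 16775632))) (b (b (b (a (c (l 16777720) (c (l 16776840) (a (l 16776464) (l 16775960)))) (c (l 16776392) (c (l 16777480) (l 16776448)))) (c (l 16777776) (a (l 16775760) (a (l 16775712) (c (l 16777504) (l 16775816)))))) (c (l 16779240) (l 16775896))) (c (l 16776928) (l 16776224))))) (c (a (c (b (a (b (l 16779536) (l 16778296)) (l 16778904)) (l 16779824)) (b (b (l 16778544) (a (a (l 16778624) (l 16777912)) (c (l 16778144) (l 16777640)))) (l 16777512))) (b (l 16779072) (a (b (a (b (l 16777736) (l 16779096)) (l 16778072)) (l 16779216)) (b (l 16779056) (b (a (l 16777760) (l 16779056)) (l 16777808)))))) (b (a (b (b (l 16775696) (c (l 16776952) (a (c (l 16776080) (a (l 16775880) (l 16776216))) (l 16776512)))) (b (a (a (c (l 16777552)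 (l 16776528)) (c (l 16777512) (a (l 16775992) (l 16776480)))) (l 16775696)) (a (l 16775808) (a (c (l 16777528) (a (l 16776512) (l 16775848))) (c (l 16777520) (l 16776504)))))) (l 16775760)) (a (b (a (l 16775968) (a (l 16775864) (a (l 16775808) (b (c (l 16777544) (l 16775872)) (l 16775832))))) (l 16776120)) (a (b (b (c (l 16777544) (c (l 16776128) (a (l 16775608) (l 16776272)))) (a (c (l 16777592) (l 16776576)) (c (l 16777552) (a (l 16775880) (l 16776536))))) (l 16775904)) (b (l 16775752) (b (a (c (l 16777568) (a (l 16776568) (l 16775896))) (c (l 16777560) (l 16776552))) (a (l 16775848) (a (l 16775800) (c (l 16777576) (l 16775920)))))))))))), by decide +kernel⟩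

def k68_pm_102_s : ∃ t, chk3 f_pm_102_s t 1013 4081 3 = true :=
  ⟨(c (a (c (l 16779576) (l 16778592)) (c (l 16778368) (c (l 16777640) (l 16777152)))) (a (c (l 16778256) (c (l 16776856) (l 16776360))) (a (c (l 16776712) (l 16776384)) (c (l 16777440) (a (l 16776608) (l 16776320)))))), by decide +kernel⟩

def k69_pm_102_s : ∃ t, chk3 f_pm_102_s t 1013 2041 3 = true :=
  ⟨(c (b (a (c (l 16778568) (l 16777640)) (c (l 16779960) (l 16779048))) (a (c (l 16780168) (l 16779288)) (c (l 16778920) (l 16778056)))) (b (a (c (l 16779328) (l 16778384)) (c (l 16778120) (c (l 16777424) (l 16776960)))) (a (c (l 16778408) (l 16777520)) (c (l 16777184) (l 16778928))))), by decide +kernel⟩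

def k70_pm_102_s : ∃ t, chk3 f_pm_102_s t 1013 1021 1 = true :=
  ⟨(a (a (l 6) (b (c (c (l 16779528) (l 16781096)) (c (l 16780056) (l 16780200))) (l 6))) (b (c (c (c (l 16779368) (l 16780136)) (c (l 16778288) (l 16779064))) (c (c (l 16779848) (l 16780456)) (b (c (l 16778840) (l 16778016)) (l 16780088)))) (c (c (c (l 16777432) (l 16778096)) (c (l 16778776) (l 16776832))) (c (c (l 16777520) (l 16778208)) (c (l 16778904) (l 16779600)))))), by decide +kernel⟩

def k71_pm_102_s : ∃ t, chk3 f_pm_102_s t 1014 1020 2 = true :=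
  ⟨(b (b (a (c (a (l 16780344) (l 16777648)) (a (b (l 16781088) (l 16779744)) (l 16781080))) (c (l 16780184) (l 16778472))) (a (a (b (b (b (a (c (l 16781680) (a (l 16779776) (l 16779720))) (l 16779336)) (c (a (l 16780488) (l 16780304)) (a (l 16778568) (c (l 16781512) (l 16779904))))) (b (a (c (l 16778048) (l 16781392)) (a (l 16779496) (c (l 16780312) (l 16779736)))) (c (l 16778072) (l 16778808)))) (c (l 16778512) (l 16779280))) (a (b (b (l 16779328) (b (c (l 16780256) (l 16778384)) (c (l 16781600) (a (l 16779752) (l 16779696))))) (c (l 16780664) (l 16780136))) (b (l 16779304) (b (b (c (l 16780232) (c (l 16781472) (l 16779888))) (a (l 16779440) (c (l 16780232) (l 16779704)))) (c (l 16777920) (l 16778720)))))) (a (c (b (l 16777552) (b (l 16780160) (a (a (l 16780312) (l 16781528)) (l 16781464)))) (b (l 16781016) (b (l 16779680) (a (b (a (l 16779728) (l 16779664)) (l 16778512)) (c (l 16781432) (l 16779880)))))) (l 16779896)))) (c (a (c (l 16781632) (l 16782136)) (b (b (b (a (a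 (l 16777968) (c (l 16780728) (l 16781152))) (a (c (l 16781872) (l 16781656)) (l 16782664))) (a (l 16778160) (a (l 16780320) (a (l 16781440) (l 16781376))))) (l 16780992)) (l 16781768))) (b (a (c (a (l 16778232) (l 16777624)) (l 16779656)) (a (b (b (b (a (l 16781328) (a (l 16781104) (l 16779680))) (l 16778744)) (l 16779024)) (l 16779576)) (b (a (b (b (l 16778328) (a (l 16779696) (l 16779640))) (l 16779880)) (b (l 16780936) (b (c (l 16781384) (l 16779200)) (a (l 16781072) (l 16779640))))) (l 16778976)))) (a (l 16781584) (c (l 16778160) (l 16779952)))))), by decide +kernel⟩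

def k72_pm_102_s : ∃ t, chk3 f_pm_102_s t 1015 1020 2 = true :=
  ⟨(b (c (a (l 16780032) (l 16779888)) (a (l 16779744) (l 16779736))) (b (a (a (c (b (l 16780000) (b (a (a (l 16780136) (l 16781352)) (l 16781288)) (a (l 16777784) (c (l 16781832) (l 16781000))))) (b (l 16779624) (b (a (b (a (l 16779656) (l 16779600)) (l 16779752)) (c (l 16781344) (l 16779840))) (b (a (l 16781248) (a (l 16781032) (l 16779608))) (l 16778664))))) (a (a (b (l 16779128) (b (l 16779096) (b (l 16779088) (c (l 16779976) (l 16779616))))) (c (l 16779936) (b (l 16780928) (l 16779584)))) (l 16779088))) (c (l 16779800) (l 16778272))) (a (c (a (l 16781096) (a (l 16780624) (b (b (a (l 16781256) (l 16781192)) (l 16777552)) (l 16778048)))) (a (c (l 16777256) (l 16779064)) (b (a (l 16779976) (b (b (c (l 16781280) (l 16780456)) (a (l 16780984) (l 16779568))) (l 16778560))) (l 16779240)))) (l 14)))), by decide +kernel⟩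

def k73_pm_102_s : ∃ t, chk3 f_pm_102_s t 1014 4080 3 = true :=
  ⟨(c (a (a (c (l 16778992) (c (l 16778928) (l 16777792))) (l 16776616)) (l 16778048)) (a (a (b (l 16775952) (b (l 16775880) (b (l 16775848) (a (c (l 16776952) (a (c (l 16776184) (a (l 16776000) (l 16776336))) (l 16776616))) (l 16775864))))) (c (l 16777840) (l 16776904))) (c (l 16778040) (l 16775848)))), by decide +kernel⟩

def k74_pm_102_s : ∃ t, chk3 f_pm_102_s t 2028 4081 6 = true :=
  ⟨(a (b (a (b (b (c (a (l 16778312) (l 16779576)) (a (a (l 16778672) (l 16777960)) (l 16777944))) (c (l 16779744) (l 16778760))) (l 16776944)) (a (b (b (l 16779080) (a (b (l 16777768) (l 16779128)) (l 16777776))) (l 16776728)) (b (l 16779096) (b (b (a (l 16777792) (l 16779088)) (l 16777840)) (l 16779304))))) (l 16778056)) (a (b (b (l 16779128) (b (l 16778128) (a (a (l 16776568) (b (l 16777792) (l 16779168))) (c (l 16779592) (l 16777984))))) (c (l 16778736) (b (l 16777592) (l 16779320)))) (b (l 16779152) (b (a (b (a (b (l 16777792)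 (l 16779152)) (l 16777808)) (l 16779272)) (b (l 16779112) (b (a (l 16777816) (l 16779112)) (l 16777864)))) (l 16776872))))), by decide +kernel⟩

def k75_pm_102_s : ∃ t, chk3 f_pm_102_s t 2028 4081 7 = true :=
  ⟨(b (b (a (a (b (b (a (a (c (l 16777624) (l 16776624)) (c (l 16777584) (a (l 16775936) (l 16776584)))) (l 16775784)) (a (l 16775888) (a (c (l 16777608) (a (l 16776616) (l 16775944))) (c (l 16777600) (l 16776608))))) (a (l 16776056) (a (l 16775944) (a (l 16775896) (b (b (l 16776448) (l 16777144)) (l 16777224)))))) (a (b (l 16777128) (b (c (l 16777616) (c (l 16776224) (l 16776056))) (a (c (l 16777664) (l 16776672)) (c (l 16777624) (c (l 16776232) (l 16776064)))))) (l 16775848))) (l 16775944)) (a (a (c (l 16778104) (l 16777128)) (a (l 16776096) (b (b (a (c (l 16777640) (a (l 16776664) (l 16776000))) (c (l 16777632) (l 16776656))) (a (l 16775936) (a (l 16775880) (b (l 16776488) (l 16777184))))) (l 16776064)))) (a (b (c (l 16777024) (a (c (l 16776280) (l 16776120)) (l 16776720)))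 (b (a (a (c (l 16777696) (l 16776720)) (c (l 16777656) (c (l 16776280) (l 16776120)))) (l 16775872)) (a (l 16775976) (a (c (l 16777680) (a (l 16776712) (l 16776704))) (l 16776528))))) (l 16775936)))) (a (c (l 16775976) (l 16776328)) (b (a (b (a (l 16776136) (c (l 16777128) (c (l 16777064) (a (l 16776616) (c (l 16776336) (l 16776176)))))) (l 16776280)) (a (b (b (c (l 16777688) (l 16776240)) (a (c (l 16777728) (l 16776768)) (c (l 16777696) (a (l 16776736) (l 16776728))))) (l 16776064)) (b (l 16775920) (b (a (c (l 16777712) (a (l 16776760) (l 16776752))) (l 16776576)) (a (l 16776016) (c (l 16777736) (l 16776296))))))) (c (l 16778240) (l 16775984))))), by decide +kernel⟩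

def k76_pm_102_s : ∃ t, chk3 f_pm_102_s t 2029 4081 3 = true :=
  ⟨(a (c (b (l 16779208) (b (c (l 16779624) (l 16778056)) (a (b (a (a (l 16776592) (b (l 16777816) (l 16779192))) (c (l 16779608) (l 16778024))) (c (l 16779760) (l 16777528))) (b (l 16779152) (a (a (a (l 16778176) (l 16778168)) (l 16777832)) (l 16779144)))))) (b (l 16776072) (b (a (c (l 16777104) (a (c (l 16776376) (l 16776232)) (l 16776824))) (l 16776040)) (a (b (b (a (a (c (l 16777760) (l 16776816)) (c (l 16777728) (c (l 16776368) (l 16775896)))) (l 16775952)) (a (l 16776048) (a (b (a (l 16775944) (l 16775944)) (l 16776544)) (l 16775960)))) (a (l 16776208) (a (l 16776104) (b (c (l 16777768) (l 16776336)) (l 16777400))))) (a (b (l 16777296) (b (c (l 16777752) (l 16776168)) (a (c (l 16777792) (l 16776864)) (c (l 16777760) (l 16776424))))) (l 16777320)))))) (c (l 16777944) (c (l 16777928) (l 16777040)))), by decide +kernel⟩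

def k77_pm_102_s : ∃ t, chk3 f_pm_102_s t 1014 2041 3 = true :=
  ⟨(b (a (c (c (l 16778760) (l 16778512)) (c (c (l 16777176) (l 16776720)) (c (l 16777576) (l 16776464)))) (a (a (c (l 16778232) (c (l 16776232) (l 16776632))) (a (c (l 16778016) (c (l 16776016) (l 16776424))) (c (b (b (b (b (a (l 16777840) (l 16779136)) (l 16777888)) (l 16779344)) (l 16779640)) (l 16777608)) (b (b (b (b (a (b (a (l 16775984) (l 16777296)) (l 16776664)) (l 16776000)) (a (l 16777400) (c (l 16777792) (l 16776544)))) (l 16776216)) (l 16776528)) (l 16775840))))) (b (c (a (b (b (l 16777856) (a (a (l 16777920) (a (l 16777880) (l 16778184))) (a (l 16778176) (l 16779152)))) (c (l 16779864) (l 16778312))) (b (l 16779184) (a (b (a (a (l 16778200) (l 16777856)) (l 16777856)) (l 16779304)) (b (l 16779160) (b (l 16778192) (l 16777904)))))) (b (a (b (c (l 16777808) (a (l 16776224) (l 16776904))) (b (a (a (c (l 16777824) (l 16776904)) (c (l 16777792) (l 16776552))) (l 16777344)) (a (l 16776128) (a (b (a (l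 16776024) (l 16777328)) (l 16776704)) (l 16776032))))) (l 16776096)) (a (b (a (l 16776280) (a (l 16776176) (b (c (l 16777824) (l 16776592)) (l 16777472)))) (l 16776424)) (a (b (b (c (l 16777816) (l 16776912)) (a (c (l 16777848) (l 16776952)) (c (l 16777824) (l 16776264)))) (l 16776216)) (b (l 16777384) (b (a (b (a (l 16776056) (l 16777368)) (l 16776736)) (l 16776072)) (a (l 16777472) (c (l 16777856) (l 16776304))))))))) (c (l 16777904) (c (l 16775936) (l 16776360)))))) (c (a (c (l 16777696) (l 16779464)) (c (l 16779120) (l 16778288))) (a (c (l 16778608) (l 16777744)) (c (l 16778096) (c (l 16776808) (l 16776376)))))), by decide +kernel⟩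

def k78_pm_102_s : ∃ t, chk3 f_pm_102_s t 1015 1020 6 = true :=
  ⟨(b (c (a (l 16779840) (l 16779944)) (a (l 16779032) (l 16779200))) (b (a (b (a (c (l 16779656) (l 16778144)) (l 16779288)) (a (a (b (b (a (a (l 16777944) (a (l 16777896) (l 16778208))) (a (l 16778528) (l 16779168))) (c (l 16779768) (l 16778248))) (l 16777008)) (a (b (b (l 16779184) (a (a (l 16778544) (l 16777872)) (l 16777872))) (l 16776792)) (b (l 16779192) (b (b (l 16778536) (l 16777920)) (l 16779376))))) (b (l 16779232) (a (b (l 16777888) (a (a (l 16777952) (a (l 16777912) (l 16778544))) (a (l 16778536) (l 16779184)))) (l 16779216))))) (l 16778040)) (a (a (c (l 16778240) (l 16777416)) (b (b (a (c (l 16778552) (l 16778368)) (b (a (a (a (l 16778552) (l 16777888)) (l 16777888)) (l 16779192)) (a (l 16779328) (b (l 16778544) (l 16777928))))) (l 16778376)) (l 16778952))) (l 14)))), by decide +kernel⟩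

def k79_pm_102_s : ∃ t, chk3 f_pm_102_s t 1015 1020 7 = true :=
  ⟨(b (c (a (l 16777552) (l 16777136)) (a (b (l 16777480) (l 16775968)) (b (l 16777792) (l 16777592)))) (b (a (a (a (b (c (l 16777248) (c (l 16776584) (l 16776472))) (b (b (b (a (a (c (l 16777880) (l 16776992)) (c (l 16777848) (l 16776304))) (l 16777416)) (a (l 16776192) (a (b (l 16776752) (l 16776776)) (l 16776104)))) (a (l 16776352) (a (l 16776248) (b (c (l 16777880) (l 16776344)) (l 16777544))))) (l 16776592))) (b (l 16776208) (a (b (b (l 16777448) (b (c (l 16777872) (l 16777000)) (a (a (l 16777488) (l 16776800)) (c (l 16777880) (l 16776352))))) (l 16776384)) (b (l 16777472) (b (b (a (b (l 16776784) (l 16776808)) (l 16776144)) (a (l 16777536) (c (l 16777912) (l 16776384)))) (l 16776344)))))) (a (b (l 16776280) (b (l 16777520) (b (c (l 16777920) (l 16776408)) (b (a (a (c (l 16777936) (l 16777072)) (c (l 16777904) (l 16777048))) (l 16777480)) (a (l 16776256) (a (b (l 16776824) (l 16776840)) (l 16776176)))))))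 (l 16776304))) (c (l 16778176) (l 16776080))) (a (a (c (l 16776584) (l 16777056)) (b (b (a (b (a (l 16776416) (a (l 16777624) (b (c (l 16777936) (l 16776424)) (l 16777608)))) (l 16776552)) (a (b (b (c (l 16777928) (l 16777080)) (a (c (l 16777960) (l 16777112)) (c (l 16777928) (l 16777080)))) (l 16776344)) (b (l 16777520) (b (a (b (l 16776856) (l 16776872)) (l 16776208)) (a (l 16777600) (l 14)))))) (c (l 16778448) (l 16776296))) (c (l 16776424) (l 16775600)))) (l 14)))), by decide +kernel⟩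

def k80_pm_102_s : ∃ t, chk3 f_pm_102_s t 507 1021 1 = true :=
  ⟨(b (a (c (c (c (a (l 16779648) (l 16779912)) (a (l 16780408) (l 16780656))) (c (a (l 16778544) (l 16781400)) (a (l 16779312) (l 16779520)))) (c (a (a (l 16779912) (l 16780608)) (b (c (l 16778016) (l 16777224)) (l 16781760))) (b (a (c (l 16777624) (l 16776808)) (c (l 16779056) (l 16778256))) (a (l 16781480) (b (l 16779872) (l 16780672)))))) (a (a (c (c (l 16780456) (l 16780296)) (c (b (l 16779352) (l 16778232)) (b (l 16778440) (l 16779384)))) (b (a (c (l 16780880) (c (l 16778912) (l 16777360))) (l 14)) (l 14))) (l 14))) (a (c (c (c (a (l 16777744) (l 16778040)) (a (l 16778408) (l 16778696))) (c (a (l 16779072) (l 16779344)) (a (l 16779744) (l 16780008)))) (c (c (a (l 16777792) (l 16778048)) (a (l 16778472) (l 16778712))) (c (a (l 16779160) (l 16779384)) (a (l 16779848) (l 16779688))))) (l 14))), by decide +kernel⟩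

def k81_pm_102_s : ∃ t, chk3 f_pm_102_s t 253 511 1 = true :=
  ⟨(a (l 6) (b (a (a (b (c (c (b (l 16777976) (l 16777056)) (c (l 16779680) (l 16777632))) (c (c (l 16778216) (l 16776176)) (c (l 16776760) (l 16777352)))) (b (c (c (l 16776160) (l 16778472)) (c (l 16779496) (l 16777904))) (l 6))) (b (b (c (c (l 16778296) (l 16778152)) (c (l 16779336) (l 16780536))) (l 14)) (l 14))) (l 14)) (l 14))), by decide +kernel⟩

def k82_pm_102_s : ∃ t, chk3 f_pm_102_s t 1016 508 1 = true :=
  ⟨(b (a (b (a (a (c (b (b (a (l 16775736) (l 16776976)) (l 16777152)) (l 16777440)) (b (b (a (l 16775760) (l 16775664)) (l 16773280)) (l 16773632))) (b (b (l 16774960) (a (c (l 16775696) (l 16775696)) (c (l 16775624) (l 16775600)))) (c (l 16774592) (l 16775960)))) (b (c (l 16776928) (l 16778104)) (a (b (a (c (l 16775656) (l 16775640)) (c (l 16775592) (l 16775544))) (c (l 16777080) (l 16773152))) (b (l 16774872) (a (c (l 16775624) (l 16775576)) (c (l 16775560) (l 16775480))))))) (c (c (b (l 16775832)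 (l 16774888)) (a (l 16773048) (l 16776496))) (c (a (l 16773808) (l 16775880)) (c (l 16776712) (l 16777088))))) (b (c (c (l 16776632) (l 16777136)) (c (l 16777648) (l 16775544))) (a (a (c (b (b (a (l 16775592) (l 16775520)) (l 16777016)) (l 16774680)) (b (b (a (l 16776832) (l 16775424)) (l 16775656)) (l 16776016))) (b (b (l 16776088) (a (c (l 16776216) (l 16776776)) (c (l 16775488) (l 16775368)))) (c (l 16775776) (l 16775728)))) (b (c (l 16776808) (l 16777888)) (a (b (a (c (l 16775856) (l 16776720)) (c (l 16776120) (l 16776624))) (c (l 16776952) (l 16775552))) (b (l 16776008) (a (c (c (l 16776520) (l 16777096)) (l 16776664)) (c (l 16776088) (l 16776568))))))))) (c (c (a (b (l 16775448) (l 16776208)) (b (b (l 16775736) (l 16774792)) (l 16776664))) (a (b (l 16776256) (c (l 16774248) (l 16774704))) (b (a (l 16775512) (l 16776352)) (l 16777424)))) (a (b (c (l 16777072) (l 16777832)) (c (l 16778000) (l 16777496))) (b (c (a (l 16776232) (l 16776992)) (c (l 16776480) (l 16776824)))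 (c (l 16776880) (l 16777656)))))), by decide +kernel⟩

def k83_pm_102_s : ∃ t, chk3 f_pm_102_s t 1017 508 1 = true :=
  ⟨(b (c (a (a (b (l 16775576) (l 16776128)) (b (l 16776248) (l 16776144))) (b (c (a (l 16776784) (l 16776856)) (a (l 16777072) (l 16777080))) (c (a (l 16776640) (l 16776704)) (a (l 16777000) (l 16777008))))) (a (b (c (l 16776152) (l 16775232)) (c (l 16776824) (l 16776640))) (c (b (l 16776680) (l 16776688)) (b (l 16776288) (l 16777032))))) (a (a (b (a (b (b (a (c (a (l 16776800) (l 16775440)) (l 16776616)) (c (a (l 16775408) (l 16776704)) (l 16776520))) (c (l 16776896) (l 16775448))) (c (l 16774568) (l 16775800))) (b (b (l 16775928) (a (c (a (l 16776768) (l 16776072)) (l 16777216)) (b (l 16774608) (c (l 16776696) (l 16775176))))) (c (l 16775664) (l 16776824)))) (c (c (l 16774728) (l 16775384)) (c (l 16776048) (l 16776728)))) (b (b (c (l 16776712) (l 16777696)) (a (b (a (c (a (l 16775432) (l 16775880)) (l 16776840)) (c (a (l 16776016) (l 16776656)) (l 16777072)))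 (c (l 16776848) (l 16775344))) (a (b (l 16775864) (c (b (l 16775352) (l 16776728)) (a (l 16775176) (l 16776432)))) (b (l 16775856) (b (l 16774536) (c (l 16775336) (l 16775072))))))) (c (c (c (l 16775488) (l 16775784)) (c (l 16776080) (l 16776376))) (c (l 16776824) (l 16777424))))) (b (a (c (c (l 16776480) (l 16776920)) (l 16776944)) (c (c (l 16776544) (l 16776920)) (c (l 16777312) (l 16777704)))) (a (b (b (b (a (a (c (l 16775328) (l 16776360)) (l 16775808)) (l 16775800)) (a (a (c (l 16776704) (l 16777760)) (c (l 16775312) (l 16776344))) (l 14))) (a (c (l 16775488) (l 16775256)) (l 14))) (l 14)) (l 14))))), by decide +kernel⟩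

def k84_pm_102_s : ∃ t, chk3 f_pm_102_s t 508 509 1 = true :=
  ⟨(b (b (a (c (a (c (l 16776968) (l 16777952)) (c (l 16777432) (a (l 16777208) (l 16776720)))) (a (c (l 16778160) (l 16777160)) (c (l 16777824) (l 16777400)))) (a (c (c (c (l 16775112) (l 16775464)) (l 16777144)) (c (l 16778024) (l 16778096))) (l 14))) (a (c (a (c (l 16777744) (l 16778808)) (c (l 16778208) (l 16777824))) (c (c (l 16778208) (l 16779008)) (a (l 16778120) (l 16778360)))) (l 14))) (a (a (c (b (c (l 16778528) (l 16778800)) (c (l 16779320) (l 16778608))) (c (b (l 16777632) (l 16778664)) (b (c (l 16779368) (l 16778776)) (c (l 16779024) (l 16777072))))) (b (a (b (c (l 16778208) (l 16778568)) (l 14)) (l 14)) (l 14))) (l 14))), by decide +kernel⟩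

def k85_pm_102_s : ∃ t, chk3 f_pm_102_s t 509 254 1 = true :=
  ⟨(b (a (b (b (a (c (c (a (l 16776936) (l 16776376)) (a (l 16777104) (l 16775824))) (c (c (l 16776560) (l 16776632)) (a (l 16774816) (l 16776032)))) (a (a (c (l 16776808) (l 16776600)) (l 14)) (l 14))) (a (a (c (c (l 16776784) (l 16777024)) (c (l 16777272) (l 16777520))) (a (c (l 16776288) (l 16776032)) (l 14))) (l 14))) (l 14)) (l 14)) (l 14)), by decide +kernel⟩

def k86_pm_102_s : ∃ t, chk3 f_pm_102_s t 255 254 1 = true :=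
  ⟨(l 14), by decide +kernel⟩

def k87_pm_102_s : ∃ t, chk3 f_pm_102_s t 127 255 1 = true :=
  ⟨(l 14), by decide +kernel⟩

theorem s88_pm_102_s : ∃ t, chk3 f_pm_102_s t 508 508 1 = true := ex3_a k82_pm_102_s k83_pm_102_s

theorem s89_pm_102_s : ∃ t, chk3 f_pm_102_s t 508 254 1 = true := ex3_b s88_pm_102_s k84_pm_102_s

theorem s90_pm_102_s : ∃ t, chk3 f_pm_102_s t 254 254 1 = true := ex3_a s89_pm_102_s k85_pm_102_s

theorem s91_pm_102_s : ∃ t, chk3 f_pm_102_s t 127 254 1 = true := ex3_a s90_pm_102_s k86_pm_102_s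

theorem s92_pm_102_s : ∃ t, chk3 f_pm_102_s t 127 127 1 = true := ex3_b s91_pm_102_s k87_pm_102_s

theorem s93_pm_102_s : ∃ t, chk3 f_pm_102_s t 1015 1020 3 = true := ex3_c k78_pm_102_s k79_pm_102_s

theorem s94_pm_102_s : ∃ t, chk3 f_pm_102_s t 2028 4081 3 = true := ex3_c k74_pm_102_s k75_pm_102_s

theorem s95_pm_102_s : ∃ t, chk3 f_pm_102_s t 1014 4081 3 = true := ex3_a s94_pm_102_s k76_pm_102_s

theorem s96_pm_102_s : ∃ t, chk3 f_pm_102_s t 1014 2040 3 = true := ex3_b k73_pm_102_s s95_pm_102_s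

theorem s97_pm_102_s : ∃ t, chk3 f_pm_102_s t 1014 1020 3 = true := ex3_b s96_pm_102_s k77_pm_102_s

theorem s98_pm_102_s : ∃ t, chk3 f_pm_102_s t 507 1020 3 = true := ex3_a s97_pm_102_s s93_pm_102_s

theorem s99_pm_102_s : ∃ t, chk3 f_pm_102_s t 507 1020 2 = true := ex3_a k71_pm_102_s k72_pm_102_s

theorem s100_pm_102_s : ∃ t, chk3 f_pm_102_s t 507 1020 1 = true := ex3_c s99_pm_102_s s98_pm_102_s

theorem s101_pm_102_s : ∃ t, chk3 f_pm_102_s t 507 510 1 = true := ex3_b s100_pm_102_s k80_pm_102_s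

theorem s102_pm_102_s : ∃ t, chk3 f_pm_102_s t 1013 4080 3 = true := ex3_b k66_pm_102_s k67_pm_102_s

theorem s103_pm_102_s : ∃ t, chk3 f_pm_102_s t 1013 2040 3 = true := ex3_b s102_pm_102_s k68_pm_102_s

theorem s104_pm_102_s : ∃ t, chk3 f_pm_102_s t 1013 1020 3 = true := ex3_b s103_pm_102_s k69_pm_102_s

theorem s105_pm_102_s : ∃ t, chk3 f_pm_102_s t 1013 1020 1 = true := ex3_c k65_pm_102_s s104_pm_102_s

theorem s106_pm_102_s : ∃ t, chk3 f_pm_102_s t 1013 510 1 = true := ex3_b s105_pm_102_s k70_pm_102_s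

theorem s107_pm_102_s : ∃ t, chk3 f_pm_102_s t 506 510 1 = true := ex3_a k64_pm_102_s s106_pm_102_s

theorem s108_pm_102_s : ∃ t, chk3 f_pm_102_s t 253 510 1 = true := ex3_a s107_pm_102_s s101_pm_102_s

theorem s109_pm_102_s : ∃ t, chk3 f_pm_102_s t 253 255 1 = true := ex3_b s108_pm_102_s k81_pm_102_s

theorem s110_pm_102_s : ∃ t, chk3 f_pm_102_s t 126 255 1 = true := ex3_a k63_pm_102_s s109_pm_102_s

theorem s111_pm_102_s : ∃ t, chk3 f_pm_102_s t 2025 2039 7 = true := ex3_a k59_pm_102_s k60_pm_102_s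

theorem s112_pm_102_s : ∃ t, chk3 f_pm_102_s t 1012 2039 7 = true := ex3_a k58_pm_102_s s111_pm_102_s

theorem s113_pm_102_s : ∃ t, chk3 f_pm_102_s t 506 2039 7 = true := ex3_a s112_pm_102_s k61_pm_102_s

theorem s114_pm_102_s : ∃ t, chk3 f_pm_102_s t 506 1019 7 = true := ex3_b k57_pm_102_s s113_pm_102_s

theorem s115_pm_102_s : ∃ t, chk3 f_pm_102_s t 506 2039 6 = true := ex3_b k55_pm_102_s k56_pm_102_s

theorem s116_pm_102_s : ∃ t, chk3 f_pm_102_s t 506 1019 6 = true := ex3_b k54_pm_102_s s115_pm_102_s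

theorem s117_pm_102_s : ∃ t, chk3 f_pm_102_s t 506 1019 3 = true := ex3_c s116_pm_102_s s114_pm_102_s

theorem s118_pm_102_s : ∃ t, chk3 f_pm_102_s t 506 509 3 = true := ex3_b k53_pm_102_s s117_pm_102_s

theorem s119_pm_102_s : ∃ t, chk3 f_pm_102_s t 506 509 2 = true := ex3_a k51_pm_102_s k52_pm_102_s

theorem s120_pm_102_s : ∃ t, chk3 f_pm_102_s t 506 509 1 = true := ex3_c s119_pm_102_s s118_pm_102_s

theorem s121_pm_102_s : ∃ t, chk3 f_pm_102_s t 253 509 1 = true := ex3_a s120_pm_102_s k62_pm_102_s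

theorem s122_pm_102_s : ∃ t, chk3 f_pm_102_s t 253 508 1 = true := ex3_a k49_pm_102_s k50_pm_102_s

theorem s123_pm_102_s : ∃ t, chk3 f_pm_102_s t 253 254 1 = true := ex3_b s122_pm_102_s s121_pm_102_s

theorem s124_pm_102_s : ∃ t, chk3 f_pm_102_s t 126 254 1 = true := ex3_a k48_pm_102_s s123_pm_102_s

theorem s125_pm_102_s : ∃ t, chk3 f_pm_102_s t 126 127 1 = true := ex3_b s124_pm_102_s s110_pm_102_s

theorem s126_pm_102_s : ∃ t, chk3 f_pm_102_s t 63 127 1 = true := ex3_a s125_pm_102_s s92_pm_102_s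

theorem s127_pm_102_s : ∃ t, chk3 f_pm_102_s t 508 253 1 = true := ex3_b k44_pm_102_s k45_pm_102_s

theorem s128_pm_102_s : ∃ t, chk3 f_pm_102_s t 254 253 1 = true := ex3_a s127_pm_102_s k46_pm_102_s

theorem s129_pm_102_s : ∃ t, chk3 f_pm_102_s t 254 126 1 = true := ex3_b k43_pm_102_s s128_pm_102_s

theorem s130_pm_102_s : ∃ t, chk3 f_pm_102_s t 127 126 1 = true := ex3_a s129_pm_102_s k47_pm_102_s

theorem s131_pm_102_s : ∃ t, chk3 f_pm_102_s t 507 507 1 = true := ex3_a k41_pm_102_s k42_pm_102_s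

theorem s132_pm_102_s : ∃ t, chk3 f_pm_102_s t 507 253 1 = true := ex3_b k40_pm_102_s s131_pm_102_s

theorem s133_pm_102_s : ∃ t, chk3 f_pm_102_s t 506 253 1 = true := ex3_b k38_pm_102_s k39_pm_102_s

theorem s134_pm_102_s : ∃ t, chk3 f_pm_102_s t 253 253 1 = true := ex3_a s133_pm_102_s s132_pm_102_s

theorem s135_pm_102_s : ∃ t, chk3 f_pm_102_s t 253 252 1 = true := ex3_a k36_pm_102_s k37_pm_102_s

theorem s136_pm_102_s : ∃ t, chk3 f_pm_102_s t 253 126 1 = true := ex3_b s135_pm_102_s s134_pm_102_s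

theorem s137_pm_102_s : ∃ t, chk3 f_pm_102_s t 252 253 1 = true := ex3_a k34_pm_102_s k35_pm_102_s

theorem s138_pm_102_s : ∃ t, chk3 f_pm_102_s t 252 252 1 = true := ex3_a k32_pm_102_s k33_pm_102_s

theorem s139_pm_102_s : ∃ t, chk3 f_pm_102_s t 252 126 1 = true := ex3_b s138_pm_102_s s137_pm_102_s

theorem s140_pm_102_s : ∃ t, chk3 f_pm_102_s t 126 126 1 = true := ex3_a s139_pm_102_s s136_pm_102_s

theorem s141_pm_102_s : ∃ t, chk3 f_pm_102_s t 63 126 1 = true := ex3_a s140_pm_102_s s130_pm_102_s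

theorem s142_pm_102_s : ∃ t, chk3 f_pm_102_s t 63 63 1 = true := ex3_b s141_pm_102_s s126_pm_102_s

theorem s143_pm_102_s : ∃ t, chk3 f_pm_102_s t 31 63 1 = true := ex3_a k31_pm_102_s s142_pm_102_s

theorem s144_pm_102_s : ∃ t, chk3 f_pm_102_s t 252 125 1 = true := ex3_b k27_pm_102_s k28_pm_102_s

theorem s145_pm_102_s : ∃ t, chk3 f_pm_102_s t 126 125 1 = true := ex3_a s144_pm_102_s k29_pm_102_s

theorem s146_pm_102_s : ∃ t, chk3 f_pm_102_s t 63 125 1 = true := ex3_a s145_pm_102_s k30_pm_102_s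

theorem s147_pm_102_s : ∃ t, chk3 f_pm_102_s t 63 62 1 = true := ex3_b k26_pm_102_s s146_pm_102_s

theorem s148_pm_102_s : ∃ t, chk3 f_pm_102_s t 251 251 1 = true := ex3_a k24_pm_102_s k25_pm_102_s

theorem s149_pm_102_s : ∃ t, chk3 f_pm_102_s t 251 125 1 = true := ex3_b k23_pm_102_s s148_pm_102_s

theorem s150_pm_102_s : ∃ t, chk3 f_pm_102_s t 125 125 1 = true := ex3_a k22_pm_102_s s149_pm_102_s

theorem s151_pm_102_s : ∃ t, chk3 f_pm_102_s t 125 124 1 = true := ex3_a k20_pm_102_s k21_pm_102_s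

theorem s152_pm_102_s : ∃ t, chk3 f_pm_102_s t 125 62 1 = true := ex3_b s151_pm_102_s s150_pm_102_s

theorem s153_pm_102_s : ∃ t, chk3 f_pm_102_s t 124 62 1 = true := ex3_a k18_pm_102_s k19_pm_102_s

theorem s154_pm_102_s : ∃ t, chk3 f_pm_102_s t 62 62 1 = true := ex3_a s153_pm_102_s s152_pm_102_s

theorem s155_pm_102_s : ∃ t, chk3 f_pm_102_s t 31 62 1 = true := ex3_a s154_pm_102_s s147_pm_102_s

theorem s156_pm_102_s : ∃ t, chk3 f_pm_102_s t 31 31 1 = true := ex3_b s155_pm_102_s s143_pm_102_s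

theorem s157_pm_102_s : ∃ t, chk3 f_pm_102_s t 15 31 1 = true := ex3_a k17_pm_102_s s156_pm_102_s

theorem s158_pm_102_s : ∃ t, chk3 f_pm_102_s t 124 61 1 = true := ex3_b k13_pm_102_s k14_pm_102_s

theorem s159_pm_102_s : ∃ t, chk3 f_pm_102_s t 62 61 1 = true := ex3_a s158_pm_102_s k15_pm_102_s

theorem s160_pm_102_s : ∃ t, chk3 f_pm_102_s t 62 30 1 = true := ex3_b k12_pm_102_s s159_pm_102_s

theorem s161_pm_102_s : ∃ t, chk3 f_pm_102_s t 31 30 1 = true := ex3_a s160_pm_102_s k16_pm_102_s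

theorem s162_pm_102_s : ∃ t, chk3 f_pm_102_s t 61 60 1 = true := ex3_a k9_pm_102_s k10_pm_102_s

theorem s163_pm_102_s : ∃ t, chk3 f_pm_102_s t 61 30 1 = true := ex3_b s162_pm_102_s k11_pm_102_s

theorem s164_pm_102_s : ∃ t, chk3 f_pm_102_s t 30 30 1 = true := ex3_a k8_pm_102_s s163_pm_102_s

theorem s165_pm_102_s : ∃ t, chk3 f_pm_102_s t 15 30 1 = true := ex3_a s164_pm_102_s s161_pm_102_s

theorem s166_pm_102_s : ∃ t, chk3 f_pm_102_s t 15 15 1 = true := ex3_b s165_pm_102_s s157_pm_102_s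

theorem s167_pm_102_s : ∃ t, chk3 f_pm_102_s t 30 14 1 = true := ex3_b k5_pm_102_s k6_pm_102_s

theorem s168_pm_102_s : ∃ t, chk3 f_pm_102_s t 15 14 1 = true := ex3_a s167_pm_102_s k7_pm_102_s

theorem s169_pm_102_s : ∃ t, chk3 f_pm_102_s t 15 7 1 = true := ex3_b s168_pm_102_s s166_pm_102_s

theorem s170_pm_102_s : ∃ t, chk3 f_pm_102_s t 7 7 1 = true := ex3_a k4_pm_102_s s169_pm_102_s

theorem s171_pm_102_s : ∃ t, chk3 f_pm_102_s t 7 3 1 = true := ex3_b k3_pm_102_s s170_pm_102_s

theorem s172_pm_102_s : ∃ t, chk3 f_pm_102_s t 3 3 1 = true := ex3_a k2_pm_102_s s171_pm_102_s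

theorem s173_pm_102_s : ∃ t, chk3 f_pm_102_s t 3 1 1 = true := ex3_b k1_pm_102_s s172_pm_102_s

theorem s174_pm_102_s : ∃ t, chk3 f_pm_102_s t 1 1 1 = true := ex3_a k0_pm_102_s s173_pm_102_s

theorem c_pm_102_s : CertNE 536870912 536870912 0 536870912 1020054732 13421774 3 eng mog cd0q1 cd0q2 pd0 false true false .npp 1 0 2
    ndB0q1 ndB0q2 pcB0 cut_pm_102_s Ext.none :=
  certNE0 (fam := false) (s1 := true) (s2 := false) (a := 1) (b := 0) (c := 2) (cn := .npp) (n1 := ndB0q1) (n2 := ndB0q2) (pc := pcB0) (cut := cut_pm_102_s) (xt := Ext.none) (P1 := 536870912) (W1 := 536870912) (P2 := 0) (W2 := 536870912) (P3 := 1020054732) (W3 := 13421774) (N0 := 3) (En := eng) (mo := mog) (C1 := cd0q1) (C2 := cd0q2) (C3 := pd0)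
    rfl s174_pm_102_s

noncomputable def cut_pm_102_t : Cut := Cut.of [[⟨3, 0, 0, 2845415833⟩], [⟨0, 1, 0, 11184810⟩, ⟨1, 0, 0, 11184810⟩, ⟨2, 1, 0, 11184810⟩], [⟨0, 0, 1, 46137344⟩, ⟨1, 1, 2, 46137344⟩, ⟨2, 1, 0, 2097152⟩, ⟨0, 0, 0, 1041207446⟩, ⟨0, 1, 0, 59055800⟩, ⟨1, 0, 0, 59055800⟩, ⟨1, 1, 0, 1041207446⟩]]

noncomputable def f_pm_102_t : ℕ → ℕ → ℕ → ℕ → Bool := onCell 536870912 536870912 0 536870912 1020054732 13421774
    (rowNE 3 eng mog cd0q1 cd0q2 pd0 0 false true false .npp 1 0 2 (qsf 536870912 536870912 0 536870912 0) ndB0q1 ndB0q2 pcB0 cut_pm_102_t Ext.none)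

def k0_pm_102_t : ∃ t, chk3 f_pm_102_t t 1 1 1 = true :=
  ⟨(l 6), by decide +kernel⟩

theorem c_pm_102_t : CertNE 536870912 536870912 0 536870912 1020054732 13421774 3 eng mog cd0q1 cd0q2 pd0 false true false .npp 1 0 2
    ndB0q1 ndB0q2 pcB0 cut_pm_102_t Ext.none :=
  certNE0 (fam := false) (s1 := true) (s2 := false) (a := 1) (b := 0) (c := 2) (cn := .npp) (n1 := ndB0q1) (n2 := ndB0q2) (pc := pcB0) (cut := cut_pm_102_t) (xt := Ext.none) (P1 := 536870912) (W1 := 536870912) (P2 := 0) (W2 := 536870912) (P3 := 1020054732) (W3 := 13421774) (N0 := 3) (En := eng) (mo := mog) (C1 := cd0q1) (C2 := cd0q2) (C3 := pd0)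
    rfl k0_pm_102_t

noncomputable def cut_pm_112_s : Cut := Cut.of [[⟨4, 0, 0, 1449551462⟩]]

noncomputable def f_pm_112_s : ℕ → ℕ → ℕ → ℕ → Bool := onCell 536870912 536870912 0 536870912 1020054732 13421774
    (rowNE 3 eng mog cd0q1 cd0q2 pd1 2 false true false .dn 1 1 2 (qsf 536870912 536870912 0 536870912 1) ndB0q1 ndB0q2 pcB1 cut_pm_112_s Ext.none)

def k0_pm_112_s : ∃ t, chk3 f_pm_112_s t 16 2 1 = true :=
  ⟨(b (b (b (l 3) (a (l 144049048023) (b (l 141364726567) (c (b (l 16718264) (l 16717384)) (l 77477080295))))) (a (b (c (b (a (l 16727792) (l 16736552)) (l 16660200)) (b (l 75866465927) (l 16751032))) (c (c (l 16538560) (l 16627808)) (c (l 16700960) (l 16725160)))) (c (b (b (l 16665024) (l 16619416)) (c (l 16513728) (l 16614296))) (c (a (l 16669512) (l 16657528)) (l 16639576))))) (a (b (b (b (c (l 16468880) (l 16652760)) (c (l 16393464) (l 16602952))) (b (a (c (b (l 16404336) (b (l 16372016) (l 16441704))) (c (l 16594864) (l 16649592))) (b (c (b (l 16395832) (l 16396552))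 (l 16579136)) (l 16352632))) (c (c (l 16467776) (l 16544352)) (l 16551560)))) (b (c (c (l 16501208) (l 16569128)) (c (l 16593952) (l 16618064))) (c (b (l 16581464) (l 16589856)) (l 16550584)))) (b (b (b (c (l 16430304) (l 16633080)) (c (a (b (l 16504360) (a (l 16442400) (l 16398656))) (b (l 16385680) (l 16354368))) (a (l 16548160) (c (l 16597784) (l 16652848))))) (c (b (a (l 16314712) (l 16498088)) (l 16499896)) (c (b (l 16595296) (l 16597952)) (l 16574032)))) (b (c (b (l 16542648) (l 16580608)) (c (l 16598008) (l 16615160))) (c (l 16428096) (l 16572648)))))), by decide +kernel⟩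

def k1_pm_112_s : ∃ t, chk3 f_pm_112_s t 17 2 1 = true :=
  ⟨(b (b (b (a (l 144585919175) (b (l 141364725015) (c (a (l 16771416) (l 16763400)) (l 16733264)))) (a (c (b (a (l 16771056) (l 16761720)) (l 16669384)) (b (l 79624566503) (l 16755208))) (c (b (l 16693752) (l 16632472)) (l 16684056)))) (b (c (a (b (l 16626360) (l 16581904)) (c (l 16564640) (l 16653432))) (a (l 16659680) (l 16642376))) (a (c (c (l 16495624) (l 16604016)) (l 16570504)) (b (c (l 16503352) (l 16650488)) (a (l 16385200) (b (l 16467128) (a (l 16410648) (l 16386912)))))))) (b (b (c (a (b (a (l 16363376) (b (l 16505760) (c (l 16409488) (l 16532464)))) (a (b (b (l 16403248) (l 16471840)) (l 16508208)) (l 16473656))) (b (a (b (l 16372760) (l 16463640)) (b (l 16421664) (l 16522568))) (l 16453536))) (a (b (a (l 16599264) (l 16551376)) (c (l 16536008) (l 16649104))) (b (a (c (l 16603616) (l 16657920)) (l 16568760)) (l 16606744)))) (c (a (c (l 16490680) (l 16568960)) (b (l 16561112) (l 16579664))) (a (c (l 16602736)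 (l 16634648)) (l 16557760)))) (b (a (c (l 16482792) (l 16586704)) (c (l 16539464) (l 16609128))) (l 6)))), by decide +kernel⟩

def k2_pm_112_s : ∃ t, chk3 f_pm_112_s t 9 2 1 = true :=
  ⟨(b (c (a (b (a (b (b (a (l 16771640) (l 16764784)) (l 16696760)) (c (l 16624480) (l 16674744))) (b (b (l 16720360) (l 16664488)) (l 16547320))) (b (a (c (l 16553328) (l 16627088)) (l 16450128)) (a (b (c (l 16501760) (l 16572440)) (a (b (l 16491808) (l 16402952)) (b (l 16407152) (l 16523440)))) (b (a (b (l 16531096) (l 16454888)) (b (l 16482936) (l 16505672))) (l 16455920))))) (b (a (b (l 16610928) (l 16543064)) (b (l 16607096) (l 16543248))) (b (a (b (l 16552384) (a (l 16479280) (b (l 16541664) (l 16493272)))) (b (a (l 16559648) (l 16492944)) (a (b (l 16520536) (l 16548640)) (l 16536840)))) (a (b (a (l 16410720) (l 16551424)) (l 16545344)) (l 16475088))))) (b (a (a (b (b (l 16754584) (l 16758488)) (l 16688440)) (b (l 16709360) (l 16674016))) (c (a (l 16686296) (l 16693760)) (a (l 16732984)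 (l 16704416)))) (a (b (a (l 16627296) (l 16614680)) (a (b (l 16573896) (a (l 16556880) (l 16555408))) (b (c (l 16560280) (l 16675456)) (l 16600072)))) (b (a (b (l 16677136) (c (l 16612952) (l 16684960))) (b (l 16586592) (c (l 16613312) (l 16682592)))) (a (c (l 16563160) (l 16626680)) (l 16588912)))))) (a (b (c (b (a (c (l 16485312) (l 16572080)) (c (l 16556056) (l 16588928))) (a (l 16504304) (l 16583168))) (b (a (c (l 16613136) (l 16651336)) (l 16572608)) (a (l 16622648) (l 16624592)))) (l 6)) (b (a (b (c (l 16508072) (l 16617296)) (c (l 16618936) (l 16626264))) (b (c (l 16587936) (l 16640608)) (l 6))) (l 6)))), by decide +kernel⟩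

def k3_pm_112_s : ∃ t, chk3 f_pm_112_s t 5 2 1 = true :=
  ⟨(a (a (b (b (c (a (b (l 16607584) (b (l 16605256) (l 16491832))) (b (l 16591408) (b (l 16571464) (a (l 16530752) (l 16536232))))) (b (b (l 16635848) (l 16622512)) (a (c (l 16665912) (l 16688552)) (b (l 16648832) (l 16574624))))) (c (a (b (b (a (b (l 16556752) (l 16556560)) (l 16524464)) (l 16556720)) (l 16537248)) (b (l 16509152) (l 16617512))) (a (b (c (b (l 16644424) (l 16642864)) (l 16624624)) (l 16634080)) (b (l 16607008) (l 16657528))))) (b (a (b (a (l 16526208) (l 16572080)) (l 6)) (l 6)) (l 6))) (b (b (l 1) (l 1)) (l 1))) (l 1)), by decide +kernel⟩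

def k4_pm_112_s : ∃ t, chk3 f_pm_112_s t 2 3 1 = true :=
  ⟨(b (a (l 6) (l 1)) (l 6)), by decide +kernel⟩

def k5_pm_112_s : ∃ t, chk3 f_pm_112_s t 3 1 1 = true :=
  ⟨(l 1), by decide +kernel⟩

theorem s6_pm_112_s : ∃ t, chk3 f_pm_112_s t 8 2 1 = true := ex3_a k0_pm_112_s k1_pm_112_s

theorem s7_pm_112_s : ∃ t, chk3 f_pm_112_s t 4 2 1 = true := ex3_a s6_pm_112_s k2_pm_112_s

theorem s8_pm_112_s : ∃ t, chk3 f_pm_112_s t 2 2 1 = true := ex3_a s7_pm_112_s k3_pm_112_s

theorem s9_pm_112_s : ∃ t, chk3 f_pm_112_s t 2 1 1 = true := ex3_b s8_pm_112_s k4_pm_112_s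

theorem s10_pm_112_s : ∃ t, chk3 f_pm_112_s t 1 1 1 = true := ex3_a s9_pm_112_s k5_pm_112_s

theorem c_pm_112_s : CertNE 536870912 536870912 0 536870912 1020054732 13421774 3 eng mog cd0q1 cd0q2 pd1 false true false .dn 1 1 2
    ndB0q1 ndB0q2 pcB1 cut_pm_112_s Ext.none :=
  certNE2 (fam := false) (s1 := true) (s2 := false) (a := 1) (b := 1) (c := 2) (cn := .dn) (n1 := ndB0q1) (n2 := ndB0q2) (pc := pcB1) (cut := cut_pm_112_s) (xt := Ext.none) (P1 := 536870912) (W1 := 536870912) (P2 := 0) (W2 := 536870912) (P3 := 1020054732) (W3 := 13421774) (N0 := 3) (En := eng) (mo := mog) (C1 := cd0q1) (C2 := cd0q2) (C3 := pd1)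
    rfl (fun _ => rfl) s10_pm_112_s

noncomputable def cut_pm_112_t : Cut := Cut.of [[⟨3, 0, 0, 2845415833⟩]]

noncomputable def f_pm_112_t : ℕ → ℕ → ℕ → ℕ → Bool := onCell 536870912 536870912 0 536870912 1020054732 13421774
    (rowNE 3 eng mog cd0q1 cd0q2 pd1 0 false true false .dn 1 1 2 (qsf 536870912 536870912 0 536870912 1) ndB0q1 ndB0q2 pcB1 cut_pm_112_t Ext.none)

def k0_pm_112_t : ∃ t, chk3 f_pm_112_t t 1 1 1 = true :=
  ⟨(l 6), by decide +kernel⟩

theorem c_pm_112_t : CertNE 536870912 536870912 0 536870912 1020054732 13421774 3 eng mog cd0q1 cd0q2 pd1 false true false .dn 1 1 2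
    ndB0q1 ndB0q2 pcB1 cut_pm_112_t Ext.none :=
  certNE0 (fam := false) (s1 := true) (s2 := false) (a := 1) (b := 1) (c := 2) (cn := .dn) (n1 := ndB0q1) (n2 := ndB0q2) (pc := pcB1) (cut := cut_pm_112_t) (xt := Ext.none) (P1 := 536870912) (W1 := 536870912) (P2 := 0) (W2 := 536870912) (P3 := 1020054732) (W3 := 13421774) (N0 := 3) (En := eng) (mo := mog) (C1 := cd0q1) (C2 := cd0q2) (C3 := pd1)
    rfl k0_pm_112_t

noncomputable def cut_pm_202_s : Cut := Cut.of [[⟨4, 0, 0, 1449551462⟩], [⟨0, 1, 0, 38347922⟩, ⟨1, 0, 0, 38347922⟩, ⟨2, 1, 0, 38347922⟩], [⟨0, 0, 1, 46137344⟩, ⟨1, 1, 2, 46137344⟩, ⟨2, 1, 0, 2097152⟩, ⟨0, 0, 0, 1041207446⟩, ⟨0, 1, 0, 59055800⟩, ⟨1, 0, 0, 59055800⟩, ⟨1, 1, 0, 1041207446⟩]]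

noncomputable def f_pm_202_s : ℕ → ℕ → ℕ → ℕ → Bool := onCell 0 536870912 0 536870912 1020054732 13421774
    (rowNE 3 eng mog cd0q2 cd0q2 pd0 0 false true false .pp 2 0 2 (qsf 0 536870912 0 536870912 0) ndB0q2 ndB0q2 pcB0 cut_pm_202_s Ext.none)

def k0_pm_202_s : ∃ t, chk3 f_pm_202_s t 1 1 1 = true :=
  ⟨(a (l 3) (b (l 3) (a (l 3) (b (l 3) (a (l 3) (b (l 3) (b (l 3) (a (l 3) (l 14))))))))), by decide +kernel⟩

theorem c_pm_202_s : CertNE 0 536870912 0 536870912 1020054732 13421774 3 eng mog cd0q2 cd0q2 pd0 false true false .pp 2 0 2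
    ndB0q2 ndB0q2 pcB0 cut_pm_202_s Ext.none :=
  certNE0 (fam := false) (s1 := true) (s2 := false) (a := 2) (b := 0) (c := 2) (cn := .pp) (n1 := ndB0q2) (n2 := ndB0q2) (pc := pcB0) (cut := cut_pm_202_s) (xt := Ext.none) (P1 := 0) (W1 := 536870912) (P2 := 0) (W2 := 536870912) (P3 := 1020054732) (W3 := 13421774) (N0 := 3) (En := eng) (mo := mog) (C1 := cd0q2) (C2 := cd0q2) (C3 := pd0)
    rfl k0_pm_202_s

noncomputable def cut_pm_202_t : Cut := Cut.of [[⟨3, 0, 0, 2845415833⟩], [⟨0, 1, 0, 38347922⟩, ⟨1, 0, 0, 38347922⟩, ⟨2, 1, 0, 38347922⟩], [⟨0, 0, 1, 46137344⟩, ⟨1, 1, 2, 46137344⟩, ⟨2, 1, 0, 2097152⟩, ⟨0, 0, 0, 1041207446⟩, ⟨0, 1, 0, 59055800⟩, ⟨1, 0, 0, 59055800⟩, ⟨1, 1, 0, 1041207446⟩]]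

noncomputable def f_pm_202_t : ℕ → ℕ → ℕ → ℕ → Bool := onCell 0 536870912 0 536870912 1020054732 13421774
    (rowNE 3 eng mog cd0q2 cd0q2 pd0 0 false true false .pp 2 0 2 (qsf 0 536870912 0 536870912 0) ndB0q2 ndB0q2 pcB0 cut_pm_202_t Ext.none)

def k0_pm_202_t : ∃ t, chk3 f_pm_202_t t 1 1 1 = true :=
  ⟨(l 6), by decide +kernel⟩

theorem c_pm_202_t : CertNE 0 536870912 0 536870912 1020054732 13421774 3 eng mog cd0q2 cd0q2 pd0 false true false .pp 2 0 2
    ndB0q2 ndB0q2 pcB0 cut_pm_202_t Ext.none :=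
  certNE0 (fam := false) (s1 := true) (s2 := false) (a := 2) (b := 0) (c := 2) (cn := .pp) (n1 := ndB0q2) (n2 := ndB0q2) (pc := pcB0) (cut := cut_pm_202_t) (xt := Ext.none) (P1 := 0) (W1 := 536870912) (P2 := 0) (W2 := 536870912) (P3 := 1020054732) (W3 := 13421774) (N0 := 3) (En := eng) (mo := mog) (C1 := cd0q2) (C2 := cd0q2) (C3 := pd0)
    rfl k0_pm_202_t

noncomputable def cut_mm_001_s : Cut := Cut.of [[⟨4, 0, 0, 1449551462⟩]]

noncomputable def f_mm_001_s : ℕ → ℕ → ℕ → ℕ → Bool := onCell 0 536870912 0 536870912 1020054732 13421774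
    (rowNE 3 eng mog cd0q0 cd0q1 pd0 1 false false false .up 0 0 1 (qsf 0 536870912 536870912 536870912 0) ndB0q0 ndB0q1 pcB0 cut_mm_001_s Ext.none)

def k0_mm_001_s : ∃ t, chk3 f_mm_001_s t 1 1 1 = true :=
  ⟨(l 3), by decide +kernel⟩

theorem c_mm_001_s : CertNE 0 536870912 536870912 536870912 1020054732 13421774 3 eng mog cd0q0 cd0q1 pd0 false false false .up 0 0 1
    ndB0q0 ndB0q1 pcB0 cut_mm_001_s Ext.none :=
  certNE1 (fam := false) (s1 := false) (s2 := false) (a := 0) (b := 0) (c := 1) (cn := .up) (n1 := ndB0q0) (n2 := ndB0q1) (pc := pcB0) (cut := cut_mm_001_s) (xt := Ext.none) (P1 := 0) (W1 := 536870912) (P2 := 536870912) (W2 := 536870912) (P3 := 1020054732) (W3 := 13421774) (N0 := 3) (En := eng) (mo := mog) (C1 := cd0q0) (C2 := cd0q1) (C3 := pd0)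
    rfl (fun _ => rfl) k0_mm_001_s

noncomputable def cut_mm_001_t : Cut := Cut.of [[⟨3, 0, 0, 2845415833⟩]]

noncomputable def f_mm_001_t : ℕ → ℕ → ℕ → ℕ → Bool := onCell 0 536870912 536870912 536870912 1020054732 13421774
    (rowNE 3 eng mog cd0q0 cd0q1 pd0 0 false false false .up 0 0 1 (qsf 0 536870912 536870912 536870912 0) ndB0q0 ndB0q1 pcB0 cut_mm_001_t Ext.none)

def k0_mm_001_t : ∃ t, chk3 f_mm_001_t t 1 1 1 = true :=
  ⟨(l 6), by decide +kernel⟩

theorem c_mm_001_t : CertNE 0 536870912 536870912 536870912 1020054732 13421774 3 eng mog cd0q0 cd0q1 pd0 false false false .up 0 0 1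
    ndB0q0 ndB0q1 pcB0 cut_mm_001_t Ext.none :=
  certNE0 (fam := false) (s1 := false) (s2 := false) (a := 0) (b := 0) (c := 1) (cn := .up) (n1 := ndB0q0) (n2 := ndB0q1) (pc := pcB0) (cut := cut_mm_001_t) (xt := Ext.none) (P1 := 0) (W1 := 536870912) (P2 := 536870912) (W2 := 536870912) (P3 := 1020054732) (W3 := 13421774) (N0 := 3) (En := eng) (mo := mog) (C1 := cd0q0) (C2 := cd0q1) (C3 := pd0)
    rfl k0_mm_001_t

noncomputable def cut_mm_011_s : Cut := Cut.of [[⟨4, 0, 0, 1449551462⟩]]

noncomputable def f_mm_011_s : ℕ → ℕ → ℕ → ℕ → Bool := onCell 0 536870912 536870912 536870912 1020054732 13421774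
    (rowNE 3 eng mog cd0q0 cd0q1 pd1 1 false false false .pnn 0 1 1 (qsf 0 536870912 536870912 536870912 1) ndB0q0 ndB0q1 pcB1 cut_mm_011_s Ext.none)

def k0_mm_011_s : ∃ t, chk3 f_mm_011_s t 1 1 1 = true :=
  ⟨(l 5), by decide +kernel⟩

theorem c_mm_011_s : CertNE 0 536870912 536870912 536870912 1020054732 13421774 3 eng mog cd0q0 cd0q1 pd1 false false false .pnn 0 1 1
    ndB0q0 ndB0q1 pcB1 cut_mm_011_s Ext.none :=
  certNE1 (fam := false) (s1 := false) (s2 := false) (a := 0) (b := 1) (c := 1) (cn := .pnn) (n1 := ndB0q0) (n2 := ndB0q1) (pc := pcB1) (cut := cut_mm_011_s) (xt := Ext.none) (P1 := 0) (W1 := 536870912) (P2 := 536870912) (W2 := 536870912) (P3 := 1020054732) (W3 := 13421774) (N0 := 3) (En := eng) (mo := mog) (C1 := cd0q0) (C2 := cd0q1) (C3 := pd1)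
    rfl (fun _ => rfl) k0_mm_011_s

noncomputable def cut_mm_011_t : Cut := Cut.of [[⟨3, 0, 0, 2845415833⟩]]

noncomputable def f_mm_011_t : ℕ → ℕ → ℕ → ℕ → Bool := onCell 0 536870912 536870912 536870912 1020054732 13421774
    (rowNE 3 eng mog cd0q0 cd0q1 pd1 0 false false false .pnn 0 1 1 (qsf 0 536870912 536870912 536870912 1) ndB0q0 ndB0q1 pcB1 cut_mm_011_t Ext.none)

def k0_mm_011_t : ∃ t, chk3 f_mm_011_t t 1 1 1 = true :=
  ⟨(l 6), by decide +kernel⟩

theorem c_mm_011_t : CertNE 0 536870912 536870912 536870912 1020054732 13421774 3 eng mog cd0q0 cd0q1 pd1 false false false .pnn 0 1 1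
    ndB0q0 ndB0q1 pcB1 cut_mm_011_t Ext.none :=
  certNE0 (fam := false) (s1 := false) (s2 := false) (a := 0) (b := 1) (c := 1) (cn := .pnn) (n1 := ndB0q0) (n2 := ndB0q1) (pc := pcB1) (cut := cut_mm_011_t) (xt := Ext.none) (P1 := 0) (W1 := 536870912) (P2 := 536870912) (W2 := 536870912) (P3 := 1020054732) (W3 := 13421774) (N0 := 3) (En := eng) (mo := mog) (C1 := cd0q0) (C2 := cd0q1) (C3 := pd1)
    rfl k0_mm_011_t

noncomputable def cut_mm_012_s : Cut := Cut.of [[⟨4, 0, 0, 1449551462⟩]]

noncomputable def f_mm_012_s : ℕ → ℕ → ℕ → ℕ → Bool := onCell 0 536870912 0 536870912 1020054732 13421774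
    (rowNE 3 eng mog cd0q0 cd0q2 pd1 0 false false false .pnp 0 1 2 (qsf 0 536870912 0 536870912 1) ndB0q0 ndB0q2 pcB1 cut_mm_012_s Ext.none)

def k0_mm_012_s : ∃ t, chk3 f_mm_012_s t 1 1 1 = true :=
  ⟨(l 5), by decide +kernel⟩

theorem c_mm_012_s : CertNE 0 536870912 0 536870912 1020054732 13421774 3 eng mog cd0q0 cd0q2 pd1 false false false .pnp 0 1 2
    ndB0q0 ndB0q2 pcB1 cut_mm_012_s Ext.none :=
  certNE0 (fam := false) (s1 := false) (s2 := false) (a := 0) (b := 1) (c := 2) (cn := .pnp) (n1 := ndB0q0) (n2 := ndB0q2) (pc := pcB1) (cut := cut_mm_012_s) (xt := Ext.none) (P1 := 0) (W1 := 536870912) (P2 := 0) (W2 := 536870912) (P3 := 1020054732) (W3 := 13421774) (N0 := 3) (En := eng) (mo := mog) (C1 := cd0q0) (C2 := cd0q2) (C3 := pd1)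
    rfl k0_mm_012_s

noncomputable def cut_mm_012_t : Cut := Cut.of [[⟨3, 0, 0, 2845415833⟩]]

noncomputable def f_mm_012_t : ℕ → ℕ → ℕ → ℕ → Bool := onCell 0 536870912 0 536870912 1020054732 13421774
    (rowNE 3 eng mog cd0q0 cd0q2 pd1 0 false false false .pnp 0 1 2 (qsf 0 536870912 0 536870912 1) ndB0q0 ndB0q2 pcB1 cut_mm_012_t Ext.none)

def k0_mm_012_t : ∃ t, chk3 f_mm_012_t t 1 1 1 = true :=
  ⟨(l 5), by decide +kernel⟩

theorem c_mm_012_t : CertNE 0 536870912 0 536870912 1020054732 13421774 3 eng mog cd0q0 cd0q2 pd1 false false false .pnp 0 1 2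
    ndB0q0 ndB0q2 pcB1 cut_mm_012_t Ext.none :=
  certNE0 (fam := false) (s1 := false) (s2 := false) (a := 0) (b := 1) (c := 2) (cn := .pnp) (n1 := ndB0q0) (n2 := ndB0q2) (pc := pcB1) (cut := cut_mm_012_t) (xt := Ext.none) (P1 := 0) (W1 := 536870912) (P2 := 0) (W2 := 536870912) (P3 := 1020054732) (W3 := 13421774) (N0 := 3) (En := eng) (mo := mog) (C1 := cd0q0) (C2 := cd0q2) (C3 := pd1)
    rfl k0_mm_012_t

noncomputable def cut_mm_022_s : Cut := Cut.of [[⟨4, 0, 0, 1449551462⟩]]

noncomputable def f_mm_022_s : ℕ → ℕ → ℕ → ℕ → Bool := onCell 0 536870912 0 536870912 1020054732 13421774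
    (rowNE 3 eng mog cd0q0 cd0q2 pd2 0 false false false .pp 0 2 2 (qsf 0 536870912 0 536870912 2) ndB0q0 ndB0q2 pcB2 cut_mm_022_s Ext.none)

def k0_mm_022_s : ∃ t, chk3 f_mm_022_s t 1 1 1 = true :=
  ⟨(l 5), by decide +kernel⟩

theorem c_mm_022_s : CertNE 0 536870912 0 536870912 1020054732 13421774 3 eng mog cd0q0 cd0q2 pd2 false false false .pp 0 2 2
    ndB0q0 ndB0q2 pcB2 cut_mm_022_s Ext.none :=
  certNE0 (fam := false) (s1 := false) (s2 := false) (a := 0) (b := 2) (c := 2) (cn := .pp) (n1 := ndB0q0) (n2 := ndB0q2) (pc := pcB2) (cut := cut_mm_022_s) (xt := Ext.none) (P1 := 0) (W1 := 536870912) (P2 := 0) (W2 := 536870912) (P3 := 1020054732) (W3 := 13421774) (N0 := 3) (En := eng) (mo := mog) (C1 := cd0q0) (C2 := cd0q2) (C3 := pd2)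
    rfl k0_mm_022_s

noncomputable def cut_mm_022_t : Cut := Cut.of [[⟨3, 0, 0, 2845415833⟩]]

noncomputable def f_mm_022_t : ℕ → ℕ → ℕ → ℕ → Bool := onCell 0 536870912 0 536870912 1020054732 13421774
    (rowNE 3 eng mog cd0q0 cd0q2 pd2 0 false false false .pp 0 2 2 (qsf 0 536870912 0 536870912 2) ndB0q0 ndB0q2 pcB2 cut_mm_022_t Ext.none)

def k0_mm_022_t : ∃ t, chk3 f_mm_022_t t 1 1 1 = true :=
  ⟨(l 5), by decide +kernel⟩

theorem c_mm_022_t : CertNE 0 536870912 0 536870912 1020054732 13421774 3 eng mog cd0q0 cd0q2 pd2 false false false .pp 0 2 2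
    ndB0q0 ndB0q2 pcB2 cut_mm_022_t Ext.none :=
  certNE0 (fam := false) (s1 := false) (s2 := false) (a := 0) (b := 2) (c := 2) (cn := .pp) (n1 := ndB0q0) (n2 := ndB0q2) (pc := pcB2) (cut := cut_mm_022_t) (xt := Ext.none) (P1 := 0) (W1 := 536870912) (P2 := 0) (W2 := 536870912) (P3 := 1020054732) (W3 := 13421774) (N0 := 3) (En := eng) (mo := mog) (C1 := cd0q0) (C2 := cd0q2) (C3 := pd2)
    rfl k0_mm_022_t

noncomputable def cut_mm_101_s : Cut := Cut.of [[⟨4, 0, 0, 1449551462⟩]]

noncomputable def f_mm_101_s : ℕ → ℕ → ℕ → ℕ → Bool := onCell 536870912 536870912 536870912 536870912 1020054732 13421774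
    (rowNE 3 eng mog cd0q1 cd0q1 pd0 0 false false false .npn 1 0 1 (qsf 536870912 536870912 536870912 536870912 0) ndB0q1 ndB0q1 pcB0 cut_mm_101_s Ext.none)

def k0_mm_101_s : ∃ t, chk3 f_mm_101_s t 1 1 1 = true :=
  ⟨(l 3), by decide +kernel⟩

theorem c_mm_101_s : CertNE 536870912 536870912 536870912 536870912 1020054732 13421774 3 eng mog cd0q1 cd0q1 pd0 false false false .npn 1 0 1
    ndB0q1 ndB0q1 pcB0 cut_mm_101_s Ext.none :=
  certNE0 (fam := false) (s1 := false) (s2 := false) (a := 1) (b := 0) (c := 1) (cn := .npn) (n1 := ndB0q1) (n2 := ndB0q1) (pc := pcB0) (cut := cut_mm_101_s) (xt := Ext.none) (P1 := 536870912) (W1 := 536870912) (P2 := 536870912) (W2 := 536870912) (P3 := 1020054732) (W3 := 13421774) (N0 := 3) (En := eng) (mo := mog) (C1 := cd0q1) (C2 := cd0q1) (C3 := pd0)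
    rfl k0_mm_101_s

noncomputable def cut_mm_101_t : Cut := Cut.of [[⟨3, 0, 0, 2845415833⟩]]

noncomputable def f_mm_101_t : ℕ → ℕ → ℕ → ℕ → Bool := onCell 536870912 536870912 536870912 536870912 1020054732 13421774
    (rowNE 3 eng mog cd0q1 cd0q1 pd0 0 false false false .npn 1 0 1 (qsf 536870912 536870912 536870912 536870912 0) ndB0q1 ndB0q1 pcB0 cut_mm_101_t Ext.none)

def k0_mm_101_t : ∃ t, chk3 f_mm_101_t t 1 1 1 = true :=
  ⟨(l 3), by decide +kernel⟩

theorem c_mm_101_t : CertNE 536870912 536870912 536870912 536870912 1020054732 13421774 3 eng mog cd0q1 cd0q1 pd0 false false false .npn 1 0 1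
    ndB0q1 ndB0q1 pcB0 cut_mm_101_t Ext.none :=
  certNE0 (fam := false) (s1 := false) (s2 := false) (a := 1) (b := 0) (c := 1) (cn := .npn) (n1 := ndB0q1) (n2 := ndB0q1) (pc := pcB0) (cut := cut_mm_101_t) (xt := Ext.none) (P1 := 536870912) (W1 := 536870912) (P2 := 536870912) (W2 := 536870912) (P3 := 1020054732) (W3 := 13421774) (N0 := 3) (En := eng) (mo := mog) (C1 := cd0q1) (C2 := cd0q1) (C3 := pd0)
    rfl k0_mm_101_t

noncomputable def cut_mm_102_s : Cut := Cut.of [[⟨4, 0, 0, 1449551462⟩]]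

noncomputable def f_mm_102_s : ℕ → ℕ → ℕ → ℕ → Bool := onCell 536870912 536870912 0 536870912 1020054732 13421774
    (rowNE 3 eng mog cd0q1 cd0q2 pd0 0 false false false .npp 1 0 2 (qsf 536870912 536870912 0 536870912 0) ndB0q1 ndB0q2 pcB0 cut_mm_102_s Ext.none)

def k0_mm_102_s : ∃ t, chk3 f_mm_102_s t 1 1 1 = true :=
  ⟨(a (l 5) (l 3)), by decide +kernel⟩

theorem c_mm_102_s : CertNE 536870912 536870912 0 536870912 1020054732 13421774 3 eng mog cd0q1 cd0q2 pd0 false false false .npp 1 0 2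
    ndB0q1 ndB0q2 pcB0 cut_mm_102_s Ext.none :=
  certNE0 (fam := false) (s1 := false) (s2 := false) (a := 1) (b := 0) (c := 2) (cn := .npp) (n1 := ndB0q1) (n2 := ndB0q2) (pc := pcB0) (cut := cut_mm_102_s) (xt := Ext.none) (P1 := 536870912) (W1 := 536870912) (P2 := 0) (W2 := 536870912) (P3 := 1020054732) (W3 := 13421774) (N0 := 3) (En := eng) (mo := mog) (C1 := cd0q1) (C2 := cd0q2) (C3 := pd0)
    rfl k0_mm_102_s

noncomputable def cut_mm_102_t : Cut := Cut.of [[⟨3, 0, 0, 2845415833⟩]]

noncomputable def f_mm_102_t : ℕ → ℕ → ℕ → ℕ → Bool := onCell 536870912 536870912 0 536870912 1020054732 13421774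
    (rowNE 3 eng mog cd0q1 cd0q2 pd0 0 false false false .npp 1 0 2 (qsf 536870912 536870912 0 536870912 0) ndB0q1 ndB0q2 pcB0 cut_mm_102_t Ext.none)

def k0_mm_102_t : ∃ t, chk3 f_mm_102_t t 1 1 1 = true :=
  ⟨(l 6), by decide +kernel⟩

theorem c_mm_102_t : CertNE 536870912 536870912 0 536870912 1020054732 13421774 3 eng mog cd0q1 cd0q2 pd0 false false false .npp 1 0 2
    ndB0q1 ndB0q2 pcB0 cut_mm_102_t Ext.none :=
  certNE0 (fam := false) (s1 := false) (s2 := false) (a := 1) (b := 0) (c := 2) (cn := .npp) (n1 := ndB0q1) (n2 := ndB0q2) (pc := pcB0) (cut := cut_mm_102_t) (xt := Ext.none) (P1 := 536870912) (W1 := 536870912) (P2 := 0) (W2 := 536870912) (P3 := 1020054732) (W3 := 13421774) (N0 := 3) (En := eng) (mo := mog) (C1 := cd0q1) (C2 := cd0q2) (C3 := pd0)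
    rfl k0_mm_102_t

noncomputable def cut_mm_112_s : Cut := Cut.of [[⟨4, 0, 0, 1449551462⟩]]

noncomputable def f_mm_112_s : ℕ → ℕ → ℕ → ℕ → Bool := onCell 536870912 536870912 0 536870912 1020054732 13421774
    (rowNE 3 eng mog cd0q1 cd0q2 pd1 2 false false false .dn 1 1 2 (qsf 536870912 536870912 0 536870912 1) ndB0q1 ndB0q2 pcB1 cut_mm_112_s Ext.none)

def k0_mm_112_s : ∃ t, chk3 f_mm_112_s t 1 1 1 = true :=
  ⟨(l 5), by decide +kernel⟩

theorem c_mm_112_s : CertNE 536870912 536870912 0 536870912 1020054732 13421774 3 eng mog cd0q1 cd0q2 pd1 false false false .dn 1 1 2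
    ndB0q1 ndB0q2 pcB1 cut_mm_112_s Ext.none :=
  certNE2 (fam := false) (s1 := false) (s2 := false) (a := 1) (b := 1) (c := 2) (cn := .dn) (n1 := ndB0q1) (n2 := ndB0q2) (pc := pcB1) (cut := cut_mm_112_s) (xt := Ext.none) (P1 := 536870912) (W1 := 536870912) (P2 := 0) (W2 := 536870912) (P3 := 1020054732) (W3 := 13421774) (N0 := 3) (En := eng) (mo := mog) (C1 := cd0q1) (C2 := cd0q2) (C3 := pd1)
    rfl (fun _ => rfl) k0_mm_112_s

noncomputable def cut_mm_112_t : Cut := Cut.of [[⟨3, 0, 0, 2845415833⟩]]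

noncomputable def f_mm_112_t : ℕ → ℕ → ℕ → ℕ → Bool := onCell 536870912 536870912 0 536870912 1020054732 13421774
    (rowNE 3 eng mog cd0q1 cd0q2 pd1 0 false false false .dn 1 1 2 (qsf 536870912 536870912 0 536870912 1) ndB0q1 ndB0q2 pcB1 cut_mm_112_t Ext.none)

def k0_mm_112_t : ∃ t, chk3 f_mm_112_t t 1 1 1 = true :=
  ⟨(l 6), by decide +kernel⟩

theorem c_mm_112_t : CertNE 536870912 536870912 0 536870912 1020054732 13421774 3 eng mog cd0q1 cd0q2 pd1 false false false .dn 1 1 2
    ndB0q1 ndB0q2 pcB1 cut_mm_112_t Ext.none :=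
  certNE0 (fam := false) (s1 := false) (s2 := false) (a := 1) (b := 1) (c := 2) (cn := .dn) (n1 := ndB0q1) (n2 := ndB0q2) (pc := pcB1) (cut := cut_mm_112_t) (xt := Ext.none) (P1 := 536870912) (W1 := 536870912) (P2 := 0) (W2 := 536870912) (P3 := 1020054732) (W3 := 13421774) (N0 := 3) (En := eng) (mo := mog) (C1 := cd0q1) (C2 := cd0q2) (C3 := pd1)
    rfl k0_mm_112_t

noncomputable def cut_mm_202_s : Cut := Cut.of [[⟨4, 0, 0, 1449551462⟩]]

noncomputable def f_mm_202_s : ℕ → ℕ → ℕ → ℕ → Bool := onCell 0 536870912 0 536870912 1020054732 13421774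
    (rowNE 3 eng mog cd0q2 cd0q2 pd0 0 false false false .pp 2 0 2 (qsf 0 536870912 0 536870912 0) ndB0q2 ndB0q2 pcB0 cut_mm_202_s Ext.none)

def k0_mm_202_s : ∃ t, chk3 f_mm_202_s t 1 1 1 = true :=
  ⟨(l 3), by decide +kernel⟩

theorem c_mm_202_s : CertNE 0 536870912 0 536870912 1020054732 13421774 3 eng mog cd0q2 cd0q2 pd0 false false false .pp 2 0 2
    ndB0q2 ndB0q2 pcB0 cut_mm_202_s Ext.none :=
  certNE0 (fam := false) (s1 := false) (s2 := false) (a := 2) (b := 0) (c := 2) (cn := .pp) (n1 := ndB0q2) (n2 := ndB0q2) (pc := pcB0) (cut := cut_mm_202_s) (xt := Ext.none) (P1 := 0) (W1 := 536870912) (P2 := 0) (W2 := 536870912) (P3 := 1020054732) (W3 := 13421774) (N0 := 3) (En := eng) (mo := mog) (C1 := cd0q2) (C2 := cd0q2) (C3 := pd0)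
    rfl k0_mm_202_s

noncomputable def cut_mm_202_t : Cut := Cut.of [[⟨3, 0, 0, 2845415833⟩]]

noncomputable def f_mm_202_t : ℕ → ℕ → ℕ → ℕ → Bool := onCell 0 536870912 0 536870912 1020054732 13421774
    (rowNE 3 eng mog cd0q2 cd0q2 pd0 0 false false false .pp 2 0 2 (qsf 0 536870912 0 536870912 0) ndB0q2 ndB0q2 pcB0 cut_mm_202_t Ext.none)

def k0_mm_202_t : ∃ t, chk3 f_mm_202_t t 1 1 1 = true :=
  ⟨(l 3), by decide +kernel⟩

theorem c_mm_202_t : CertNE 0 536870912 0 536870912 1020054732 13421774 3 eng mog cd0q2 cd0q2 pd0 false false false .pp 2 0 2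
    ndB0q2 ndB0q2 pcB0 cut_mm_202_t Ext.none :=
  certNE0 (fam := false) (s1 := false) (s2 := false) (a := 2) (b := 0) (c := 2) (cn := .pp) (n1 := ndB0q2) (n2 := ndB0q2) (pc := pcB0) (cut := cut_mm_202_t) (xt := Ext.none) (P1 := 0) (W1 := 536870912) (P2 := 0) (W2 := 536870912) (P3 := 1020054732) (W3 := 13421774) (N0 := 3) (En := eng) (mo := mog) (C1 := cd0q2) (C2 := cd0q2) (C3 := pd0)
    rfl k0_mm_202_t

end Pool.Agent.Strip051.G.I9500_9625.Tab.CS.BB00

namespace Pool.Agent.Strip051.G.I9500_9625.Tab.CS.BB05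

open Pool.Agent.Strip051.PB Pool.Agent.Strip051.PB.T
open Pool.Agent.Strip051.G.I9500_9625.Tab

noncomputable def cut_pp_001_s : Cut := Cut.of [[⟨4, 0, 0, 1449551462⟩]]

noncomputable def f_pp_001_s : ℕ → ℕ → ℕ → ℕ → Bool := onCell 0 536870912 0 536870912 1020054732 13421774
    (rowNE 3 eng mog cd0q0 cd5q1 pd0 1 false true true .up 0 0 1 (qsf 0 536870912 536870912 536870912 0) ndB0q0 ndB5q1 pcB0 cut_pp_001_s Ext.none)

def k0_pp_001_s : ∃ t, chk3 f_pp_001_s t 1 1 1 = true :=
  ⟨(l 3), by decide +kernel⟩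

theorem c_pp_001_s : CertNE 0 536870912 536870912 536870912 1020054732 13421774 3 eng mog cd0q0 cd5q1 pd0 false true true .up 0 0 1
    ndB0q0 ndB5q1 pcB0 cut_pp_001_s Ext.none :=
  certNE1 (fam := false) (s1 := true) (s2 := true) (a := 0) (b := 0) (c := 1) (cn := .up) (n1 := ndB0q0) (n2 := ndB5q1) (pc := pcB0) (cut := cut_pp_001_s) (xt := Ext.none) (P1 := 0) (W1 := 536870912) (P2 := 536870912) (W2 := 536870912) (P3 := 1020054732) (W3 := 13421774) (N0 := 3) (En := eng) (mo := mog) (C1 := cd0q0) (C2 := cd5q1) (C3 := pd0)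
    rfl (fun _ => rfl) k0_pp_001_s

noncomputable def cut_pp_011_s : Cut := Cut.of [[⟨4, 0, 0, 1449551462⟩], [⟨0, 0, 0, 38347922⟩, ⟨1, 1, 0, 38347922⟩, ⟨2, 1, 0, 38347922⟩]]

noncomputable def f_pp_011_s : ℕ → ℕ → ℕ → ℕ → Bool := onCell 0 536870912 536870912 536870912 1020054732 13421774
    (rowNE 3 eng mog cd0q0 cd5q1 pd1 1 false true true .pnn 0 1 1 (qsf 0 536870912 536870912 536870912 1) ndB0q0 ndB5q1 pcB1 cut_pp_011_s Ext.none)

def k0_pp_011_s : ∃ t, chk3 f_pp_011_s t 1 1 1 = true :=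
  ⟨(b (l 3) (a (b (l 3) (a (b (l 3) (a (b (l 3) (a (l 14) (l 3))) (l 3))) (l 3))) (l 3))), by decide +kernel⟩

theorem c_pp_011_s : CertNE 0 536870912 536870912 536870912 1020054732 13421774 3 eng mog cd0q0 cd5q1 pd1 false true true .pnn 0 1 1
    ndB0q0 ndB5q1 pcB1 cut_pp_011_s Ext.none :=
  certNE1 (fam := false) (s1 := true) (s2 := true) (a := 0) (b := 1) (c := 1) (cn := .pnn) (n1 := ndB0q0) (n2 := ndB5q1) (pc := pcB1) (cut := cut_pp_011_s) (xt := Ext.none) (P1 := 0) (W1 := 536870912) (P2 := 536870912) (W2 := 536870912) (P3 := 1020054732) (W3 := 13421774) (N0 := 3) (En := eng) (mo := mog) (C1 := cd0q0) (C2 := cd5q1) (C3 := pd1)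
    rfl (fun _ => rfl) k0_pp_011_s

noncomputable def cut_pp_012_s : Cut := Cut.of [[⟨4, 0, 0, 1449551462⟩], [⟨0, 0, 0, 38347922⟩, ⟨1, 1, 0, 38347922⟩, ⟨2, 1, 0, 38347922⟩]]

noncomputable def f_pp_012_s : ℕ → ℕ → ℕ → ℕ → Bool := onCell 0 536870912 536870912 536870912 1020054732 13421774
    (rowNE 3 eng mog cd0q0 cd5q2 pd1 1 false true true .pnp 0 1 2 (qsf 0 536870912 1073741824 536870912 1) ndB0q0 ndB5q2 pcB1 cut_pp_012_s Ext.none)

def k0_pp_012_s : ∃ t, chk3 f_pp_012_s t 1 1 1 = true :=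
  ⟨(b (l 3) (a (b (l 3) (a (b (l 3) (a (b (l 3) (a (l 14) (l 3))) (l 3))) (l 3))) (l 3))), by decide +kernel⟩

theorem c_pp_012_s : CertNE 0 536870912 1073741824 536870912 1020054732 13421774 3 eng mog cd0q0 cd5q2 pd1 false true true .pnp 0 1 2
    ndB0q0 ndB5q2 pcB1 cut_pp_012_s Ext.none :=
  certNE1 (fam := false) (s1 := true) (s2 := true) (a := 0) (b := 1) (c := 2) (cn := .pnp) (n1 := ndB0q0) (n2 := ndB5q2) (pc := pcB1) (cut := cut_pp_012_s) (xt := Ext.none) (P1 := 0) (W1 := 536870912) (P2 := 1073741824) (W2 := 536870912) (P3 := 1020054732) (W3 := 13421774) (N0 := 3) (En := eng) (mo := mog) (C1 := cd0q0) (C2 := cd5q2) (C3 := pd1)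
    rfl (fun _ => rfl) k0_pp_012_s

noncomputable def cut_pp_022_s : Cut := Cut.of [[⟨4, 0, 0, 1449551462⟩], [⟨0, 0, 0, 26843545⟩, ⟨1, 1, 0, 26843545⟩, ⟨2, 1, 0, 26843545⟩]]

noncomputable def f_pp_022_s : ℕ → ℕ → ℕ → ℕ → Bool := onCell 0 536870912 1073741824 536870912 1020054732 13421774
    (rowNE 3 eng mog cd0q0 cd5q2 pd2 1 false true true .pp 0 2 2 (qsf 0 536870912 1073741824 536870912 2) ndB0q0 ndB5q2 pcB2 cut_pp_022_s Ext.none)

def k0_pp_022_s : ∃ t, chk3 f_pp_022_s t 32 32 1 = true :=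
  ⟨(b (l 14) (a (l 14) (a (b (l 14) (b (a (l 14) (b (l 14) (l 16737000))) (c (a (l 16720736) (l 16725512)) (a (l 16712672) (l 16718680))))) (b (b (b (l 14) (a (l 14) (b (l 14) (a (l 14) (l 16769704))))) (a (b (l 14) (c (l 16755624) (l 16753304))) (b (a (b (l 14) (c (l 16766584) (l 16767288))) (b (l 16768048) (c (l 16761480) (a (l 16766712) (l 16767056))))) (b (a (l 16756776) (c (l 16766176) (l 16766728))) (a (l 16746624) (l 16756272)))))) (b (b (a (c (l 16740928) (l 16737672)) (c (l 16756176) (l 16754304))) (a (c (l 16736696) (l 16732496)) (c (l 16741568) (l 16738592)))) (c (a (l 16730304) (l 16745584)) (a (l 16724696) (b (l 16733344) (l 16749048))))))))), by decide +kernel⟩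

def k1_pp_022_s : ∃ t, chk3 f_pp_022_s t 33 64 1 = true :=
  ⟨(a (a (a (a (l 14) (l 3)) (l 3)) (l 3)) (l 3)), by decide +kernel⟩

def k2_pp_022_s : ∃ t, chk3 f_pp_022_s t 66 520 1 = true :=
  ⟨(a (b (a (a (l 14) (a (a (b (l 3) (b (l 3) (b (a (l 14) (l 3)) (a (l 16777048) (a (l 16777192) (l 510195138791)))))) (l 3)) (l 3))) (l 3)) (a (a (a (l 14) (a (l 16772600) (l 16774360))) (a (b (a (l 16775272) (b (b (a (a (l 16777184) (l 489257173223)) (l 3)) (a (l 16777040) (a (l 16777184) (l 424832663815)))) (l 16776808))) (l 16773272)) (a (b (b (l 3) (b (a (a (l 16777176) (l 403894698247)) (l 3)) (a (l 16777032) (a (l 16777176) (l 382956732679))))) (l 16773944)) (b (l 3) (b (b (a (c (l 16777360) (l 145122917415)) (l 3)) (a (l 16777016) (c (l 16777192) (l 128479920455)))) (l 16774168)))))) (a (a (a (b (l 3) (b (l 3) (b (a (c (l 16777184) (l 16777192)) (l 3)) (a (l 16774384) (a (l 16777160) (l 336785834215)))))) (l 3)) (l 3)) (l 3)))) (l 3)), by decide +kernel⟩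

def k3_pp_022_s : ∃ t, chk3 f_pp_022_s t 66 521 1 = true :=
  ⟨(b (a (a (a (l 16770584) (a (l 16771920) (a (l 16772592) (l 16774344)))) (a (b (a (a (l 16773928) (b (b (a (c (l 16777184) (l 16777184)) (l 3)) (c (l 16777080) (l 16777248))) (l 16774144))) (b (c (l 912311452055) (l 920901386647)) (a (b (a (c (l 16777176) (l 16777176)) (l 715816698151)) (b (l 184314494791) (l 16777032))) (l 902647775495)))) (a (l 16773248) (b (a (l 16774136) (b (a (l 16777168) (l 679846347047)) (l 180019527303))) (l 16773904)))) (a (b (l 3) (b (c (l 889762873735) (l 898352808327)) (a (b (a (l 16777160) (l 642265383191)) (l 154786594455)) (l 868824908023)))) (l 3)))) (l 3)) (a (a (a (l 16771472) (l 16770616)) (b (a (l 16774112) (a (b (a (l 16771496) (b (a (l 16777152) (l 571398422839)) (l 16777048))) (l 16773888)) (a (b (l 847350071543) (a (l 16777040) (b (l 534891200823) (l 16777136)))) (b (l 3) (l 815674687719))))) (a (l 16771928) (a (l 16773224) (b (a (l 16771472) (a (l 16777024) (b (l 466708595031)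 (l 16777128)))) (l 16773872)))))) (b (l 3) (a (a (a (a (b (c (l 789368013031) (l 798494818535)) (b (a (l 16777120) (l 445233758535)) (l 16777016))) (a (c (l 813527204135) (l 828559589655)) (l 3))) (l 3)) (l 3)) (l 3))))), by decide +kernel⟩

def k4_pp_022_s : ∃ t, chk3 f_pp_022_s t 132 261 1 = true :=
  ⟨(b (a (a (l 16763736) (l 16768088)) (b (a (l 16768016) (c (l 16772336) (l 16772368))) (a (l 16771600) (l 16768048)))) (a (b (a (a (l 16763792) (l 16767040)) (l 16768312)) (a (c (l 16765888) (l 16761096)) (l 16761584))) (a (l 16758720) (l 16765624)))), by decide +kernel⟩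

def k5_pp_022_s : ∃ t, chk3 f_pp_022_s t 133 522 1 = true :=
  ⟨(a (b (a (a (b (a (l 16773856) (a (l 16776792) (b (b (l 423758922039) (l 16777104)) (l 16776792)))) (l 16770576)) (a (b (b (c (l 763598209223) (l 772188143815)) (b (a (l 16777104) (l 401747214631)) (l 16776992))) (l 16771216)) (a (b (c (l 773798756615) (l 782388691207)) (l 16776768)) (b (l 3) (b (b (l 363092508967) (l 16777088)) (l 16776768)))))) (b (l 3) (a (b (b (l 3) (c (l 759303241975) (l 768430047479))) (b (a (a (l 16777080) (l 339470188823)) (l 3)) (a (l 16776968) (a (l 260550164823) (l 3))))) (l 3)))) (a (c (l 16772328) (l 16772368)) (b (b (a (a (l 16771408) (a (l 16776960) (l 344302024007))) (b (l 3) (a (a (l 16777216) (l 3)) (l 3)))) (a (l 16771192) (b (a (l 180019527527) (l 3)) (a (l 16776952) (c (l 345912639975) (l 347523251399)))))) (a (l 16770552) (a (l 16771176) (b (l 204178718167) (l 16776616))))))) (b (l 3) (a (b (l 3) (a (a (b (a (c (l 335712092631) (l 337322704055)) (l 3)) (l 191830687175))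 (a (b (l 3) (c (l 319069094343) (l 320679707079))) (l 3))) (l 3))) (l 3)))), by decide +kernel⟩

def k6_pp_022_s : ∃ t, chk3 f_pp_022_s t 133 523 1 = true :=
  ⟨(a (b (a (l 16768072) (c (l 16772320) (l 16769736))) (c (l 16767240) (l 16767336))) (b (a (a (a (l 16773360) (b (l 317458478919) (l 16775976))) (b (b (b (l 3) (c (l 676625120151) (a (l 296520516023) (l 3)))) (a (l 16776992) (a (a (l 192367559031) (l 408726536599)) (l 699710570951)))) (c (l 141901686391) (l 16776584)))) (a (b (l 3) (b (b (l 891373486407) (a (a (l 16777168) (l 649781575959)) (l 3))) (a (l 16776968) (a (c (l 197199397335) (l 197199397335)) (l 663740219815))))) (l 3))) (a (l 16772984) (a (b (l 275582546823) (l 16770504)) (b (b (b (l 837149524279) (a (a (l 16777144) (l 527375008055)) (l 3))) (a (l 16776944) (a (c (l 16777184) (l 16777184)) (l 540259910119)))) (l 16776536)))))), by decide +kernel⟩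

def k7_pp_022_s : ∃ t, chk3 f_pp_022_s t 66 131 1 = true :=
  ⟨(b (a (b (a (a (b (l 16755784) (l 16745672)) (b (c (l 16765720) (l 16760864)) (l 16760560))) (b (l 16767760) (a (c (l 16765648) (l 16755520)) (l 16767112)))) (a (c (l 16755424) (l 16744696)) (b (a (c (l 16765128) (l 16765752)) (l 16760600)) (c (l 16765104) (a (l 16766352) (l 16754992)))))) (b (a (a (l 16758944) (l 16765776)) (b (a (l 16768120) (l 16772320)) (c (l 16767320) (l 16767432)))) (a (b (l 16768048) (l 16761464)) (b (l 16765896) (l 16759224))))) (a (b (c (c (l 16754720) (l 16754496)) (a (l 16739400) (l 16745464))) (c (c (l 16740872) (l 16739376)) (a (l 16734080) (l 16740088)))) (b (a (b (a (c (l 16764856) (l 16754864)) (l 16766104)) (a (l 16754536) (l 16759856))) (l 16757200)) (a (b (c (l 16764600) (l 16755136)) (l 16744584)) (b (l 16760640) (a (l 16764624) (l 16765328))))))), by decide +kernel⟩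

def k8_pp_022_s : ∃ t, chk3 f_pp_022_s t 67 130 1 = true :=
  ⟨(b (l 3) (a (b (l 3) (a (a (a (b (l 3) (b (l 3) (b (b (l 809769107735) (a (l 140291079303) (l 3))) (a (l 16776920) (a (l 127943048311) (l 470466691575)))))) (l 3)) (l 3)) (l 3))) (l 3))), by decide +kernel⟩

def k9_pp_022_s : ∃ t, chk3 f_pp_022_s t 134 131 1 = true :=
  ⟨(b (a (a (b (b (a (l 224579808391) (b (b (b (l 774335627527) (a (l 16777160) (l 3))) (a (l 16776896) (a (l 16777152) (l 402820956679)))) (l 16776496))) (l 16772312)) (l 16770056)) (b (a (b (b (l 3) (b (a (a (l 16777144) (l 380272378359)) (l 3)) (a (l 16776872) (a (l 16777136) (l 359871283687))))) (l 63518532263)) (b (l 3) (b (b (a (a (l 16777120) (l 338933318103)) (l 3)) (a (l 16771608) (a (l 16777112) (l 317458481607)))) (l 16771208)))) (b (l 16772304) (l 16762960)))) (a (b (b (l 3) (b (l 3) (a (b (a (a (l 16777104) (l 295983645111)) (l 899963420951)) (a (l 16771584) (a (l 16777088) (l 224042942967)))) (l 894057839863)))) (b (b (a (l 16771192)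 (b (a (a (l 16777080) (l 201494364647)) (l 659982123623)) (c (l 16776952) (l 16776960)))) (c (l 16770776) (l 16770816))) (l 16769672))) (b (l 3) (b (b (a (c (l 869898650103) (l 879025455607)) (l 3)) (b (a (a (l 342691413815) (l 574619648631)) (l 3)) (a (l 205789330567) (l 803326656855)))) (b (a (l 16771144) (b (a (l 16777096) (l 531133104743)) (l 16776256))) (c (l 16770744) (l 16770784))))))) (b (a (l 16767000) (a (l 16767528) (b (l 16769664) (l 16763016)))) (a (l 16757528) (l 16765560)))), by decide +kernel⟩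

def k10_pp_022_s : ∃ t, chk3 f_pp_022_s t 135 131 1 = true :=
  ⟨(b (b (l 3) (a (a (b (l 3) (b (a (c (l 797421076935) (l 807621624263)) (l 3)) (b (a (a (l 16777072) (l 454897435287)) (l 3)) (a (l 16776888) (l 741049631015))))) (l 3)) (l 3))) (b (a (b (b (b (a (a (l 16771288) (a (l 16777048) (l 417853342327))) (l 3)) (a (l 16775448) (a (l 712058601735) (l 3)))) (a (l 16775968) (a (b (a (l 16777024) (l 379198636631)) (l 16776840)) (c (l 728164729207) (l 957408607175))))) (a (l 16769656) (a (l 16775944) (b (a (l 16776824) (b (l 301889225351) (l 16776984))) (l 16771040))))) (a (b (l 3) (b (a (c (l 705616150871) (l 937007512135)) (l 3)) (a (a (l 16776800) (b (l 261087036007) (l 16776960))) (c (l 683067572535) (l 917143288087))))) (l 3))) (a (a (l 16767616) (b (l 16769656) (l 16763072))) (b (b (a (a (l 16765776) (a (l 16776768) (l 336248957447))) (a (c (l 659982123287) (l 897279064135)) (l 3))) (a (l 16775904) (a (l 376514279175) (l 820506525175)))) (a (l 16769648) (a (l 16775888)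 (c (l 16776512) (l 16776544)))))))), by decide +kernel⟩

def k11_pp_022_s : ∃ t, chk3 f_pp_022_s t 32 33 1 = true :=
  ⟨(a (b (a (b (l 14) (b (l 16676520) (l 16668208))) (a (b (b (l 14) (l 16687816)) (b (l 16679000) (l 16691288))) (b (b (l 16702120) (l 16692792)) (b (l 16683376) (l 16694840))))) (b (a (c (l 16685840) (l 16667112)) (a (l 16636448) (b (l 16664312) (l 16676016)))) (a (l 16617384) (c (l 16672944) (l 16650768))))) (a (b (b (b (c (l 16714664) (c (l 16707704) (l 16702976))) (c (l 16706120) (l 16694928))) (b (a (l 16688448) (l 16693536)) (l 16670856))) (b (c (l 16675504) (l 16657776)) (b (l 16651856) (l 16641792)))) (b (b (b (c (a (l 16721696) (l 16726400)) (a (l 16714208) (l 16720128))) (c (l 16715312) (l 16706552))) (b (c (l 16706480) (l 16695840)) (a (l 16688832) (l 16693848)))) (b (c (l 16684032) (l 16658192)) (b (l 16661272) (l 16651080)))))), by decide +kernel⟩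

def k12_pp_022_s : ∃ t, chk3 f_pp_022_s t 33 33 1 = true :=
  ⟨(b (b (a (a (b (c (b (l 16746192) (l 16731264)) (b (l 16742200) (l 16726328))) (c (a (l 16722240) (l 16726880)) (b (l 16720912) (l 16715480)))) (b (b (a (b (l 16743008) (l 16740520)) (a (l 16754624) (b (l 16764600) (l 16764576)))) (c (l 16751192) (l 16746024))) (c (b (l 16736152) (l 16731576)) (b (l 16732648) (l 16727112))))) (b (a (b (a (b (l 16766232) (l 16761368)) (l 16757864)) (a (c (b (l 16764344) (l 16764072)) (a (l 16765192) (l 16765096))) (l 16760936))) (a (b (l 16765760) (l 16747720)) (b (a (l 16767712) (l 16771624)) (l 16771200)))) (a (a (b (l 16752824) (l 16737208)) (b (b (l 16759696) (a (l 16764464) (l 16764544))) (b (l 16754216) (l 16741160)))) (a (b (l 16766624) (b (l 16765328) (l 16754336))) (l 16762800))))) (a (c (a (b (l 16715544) (l 16706440)) (b (l 16729904) (l 16715376))) (b (a (l 16707288) (a (l 16715888) (l 16721640))) (a (l 16696288) (l 16707568)))) (b (a (c (b (l 16736192) (l 16731480))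 (b (l 16733112) (l 16727440))) (b (a (b (l 16756672) (l 16741192)) (b (l 16765832) (l 16765248))) (a (l 16737216) (b (l 16753592) (l 16751488))))) (a (c (l 16724368) (l 16718888)) (c (b (l 16735848) (l 16731000)) (b (l 16733136) (l 16727328))))))) (a (b (c (a (l 16687384) (b (l 16706000) (l 16717512))) (a (a (l 16676880) (l 16682360)) (b (l 16717256) (l 16705888)))) (a (c (l 16673904) (l 16657112)) (c (l 16682200) (l 16667704)))) (a (b (b (c (l 16714816) (l 16707408)) (b (l 16703200) (l 16697880))) (b (l 16684624) (l 16679080))) (b (b (c (l 16723688) (l 16718560)) (c (l 16713848) (l 16706784))) (b (b (l 16702224) (l 16696784)) (l 16683392)))))), by decide +kernel⟩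

def k13_pp_022_s : ∃ t, chk3 f_pp_022_s t 17 32 1 = true :=
  ⟨(a (b (l 3) (a (b (l 3) (b (l 3) (a (b (l 3) (a (a (b (l 3) (b (a (l 843591974151) (l 3)) (a (l 16776184) (l 843591973975)))) (l 3)) (l 3))) (l 3)))) (l 3))) (l 3)), by decide +kernel⟩

def k14_pp_022_s : ∃ t, chk3 f_pp_022_s t 34 132 1 = true :=
  ⟨(a (a (b (b (a (a (b (a (l 16775856) (l 299741737143)) (l 16774888)) (b (b (a (l 825338362871) (l 3)) (a (l 16776792) (l 803863526359))) (l 243907160775))) (b (l 3) (a (a (b (a (l 347523252359) (l 933249415223)) (l 16776744)) (c (l 854329392007) (l 849497550055))) (l 3)))) (a (b (l 16769024) (l 16773080)) (b (a (l 16770856) (b (c (l 838760135207) (l 832317681047)) (a (l 16776696) (l 720111663831)))) (a (l 16774880) (l 16770824))))) (a (b (l 16771416) (l 16769400)) (b (b (l 16769064) (l 16773192)) (l 16771632)))) (b (b (l 3) (a (b (l 3) (a (a (b (l 697563085431) (l 16776648)) (b (l 3) (l 675551378007))) (l 1041697329639))) (l 3))) (b (a (b (a (l 16776040) (c (b (l 779167463751)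 (l 199883750087)) (b (l 779704332727) (l 363629377223)))) (l 16773480)) (b (a (l 1015927525415) (l 3)) (a (b (a (l 605758159287) (l 948818668119)) (l 372756181959)) (l 990694592391)))) (a (b (l 16769104) (l 16773312)) (b (a (l 16775984) (a (l 359334409095) (b (l 905332124695) (l 16777008)))) (l 16772816)))))) (b (l 3) (a (b (l 3) (a (a (b (l 965461670087) (b (b (l 780241205767) (l 611126867943)) (l 16776712))) (c (l 969756634247) (l 952039898183))) (l 3))) (l 3)))), by decide +kernel⟩

def k15_pp_022_s : ∃ t, chk3 f_pp_022_s t 34 133 1 = true :=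
  ⟨(a (a (b (b (l 16763464) (b (l 16767384) (l 16745024))) (a (b (c (l 16762960) (l 16740728)) (b (l 16738184) (l 16756432))) (b (l 16764896) (a (l 16740040) (l 16762376))))) (b (a (c (l 16760296) (l 16760104)) (b (a (l 16773440) (l 16763952)) (l 16771552))) (a (l 16765448) (l 16757072)))) (b (a (b (a (a (l 16770176) (b (a (l 16776680) (b (l 847886941223) (l 16776912))) (l 16775864))) (b (a (c (l 892984089655) (l 881172924887)) (l 3)) (b (a (a (l 16776888) (l 794736720807)) (l 3)) (a (l 16776600) (l 829633324775))))) (a (l 16768376) (a (l 16769944) (b (c (l 388325437959) (l 387788566855)) (l 16775656))))) (b (l 3) (a (b (a (c (l 844665708471) (l 838223254055)) (l 3)) (a (c (l 374903664903) (l 370071826567)) (c (l 821043389031) (l 816748418823)))) (l 3)))) (a (a (b (l 16771104) (l 16768408)) (b (l 16768064) (l 16770704))) (b (a (a (l 16764456) (c (l 312089765527) (l 232095982263))) (b (a (c (l 797421069735) (l 795810454599)) (l 3)) (a (l 229411631735) (c (l 773798750567) (l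 774335619559))))) (a (l 16772992) (c (l 252497081479) (l 246054630247))))))), by decide +kernel⟩

def k16_pp_022_s : ∃ t, chk3 f_pp_022_s t 34 67 1 = true :=
  ⟨(b (a (a (b (b (a (l 16731392) (c (l 16758280) (l 16735488))) (c (l 16730144) (l 16726784))) (c (l 16722704) (l 16717888))) (b (a (b (l 16739776) (a (l 16734880) (l 16757928))) (b (l 16742232) (l 16760056))) (a (c (l 16729520) (l 16726400)) (b (c (l 16757176) (l 16734504)) (l 16730592))))) (b (a (b (l 16756264) (l 16763808)) (a (l 16763680) (b (l 16772680) (l 16769944)))) (a (b (l 16739784) (a (l 16745416) (l 16758928))) (a (l 16742080) (l 16744640))))) (a (c (a (b (l 16712736) (l 16723800)) (b (l 16722000) (l 16712152))) (a (b (l 16705984) (l 16715128)) (b (l 16717528) (l 16705776)))) (b (a (a (b (l 16730576) (l 16725184)) (b (l 16734536) (l 16741000))) (b (l 16738792) (l 16746024))) (a (c (l 16721920) (l 16717856)) (b (a (l 16740912) (l 16754912)) (a (l 16725536) (l 16730360))))))), by decide +kernel⟩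

def k17_pp_022_s : ∃ t, chk3 f_pp_022_s t 35 33 1 = true :=
  ⟨(b (a (b (l 3) (b (l 3) (a (b (l 3) (a (b (a (c (l 750713302423) (l 753397655511)) (l 3)) (a (l 16776344) (c (l 727627854375) (l 732459691527)))) (l 3))) (l 3)))) (l 3)) (a (b (a (b (b (a (a (l 16774440) (l 16770360)) (b (a (a (l 595020739815) (l 807621616407)) (l 3)) (a (l 16776128) (a (l 328195874759) (a (l 764671949127) (l 920364514391)))))) (a (l 16772376) (b (l 16775432) (l 16774120)))) (b (a (l 16748624) (l 16772080)) (l 16757504))) (b (b (l 3) (a (b (a (b (l 782388689063) (l 16776888)) (l 942376203911)) (a (l 16775912) (c (l 337322704407) (l 343228249991)))) (b (l 3) (a (l 917143272615) (l 3))))) (a (b (l 16770928) (l 16771800)) (b (a (c (l 377588016903) (l 226727264119)) (b (l 867214279431) (l 421074557031))) (l 16769040))))) (b (a (a (l 16741272) (l 16743936)) (b (a (l 16747992) (l 16771528)) (l 16767424))) (a (l 16736648) (a (l 16740816) (l 16743584))))) (b (b (l 3) (a (b (a (b (l 3) (a (l 841444477351)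 (l 3))) (l 3)) (a (a (c (l 16765680) (l 16765600)) (b (l 815674675319) (l 16766184))) (a (b (l 3) (l 789904873335)) (l 3)))) (l 3))) (a (b (b (a (l 16774040) (b (a (l 16776552) (l 764135071399)) (l 16767968))) (a (l 16750360) (l 16773832))) (b (l 16763976) (l 16767128))) (b (b (a (a (a (l 775946227575) (l 890299722199)) (l 3)) (l 3)) (b (a (a (l 16776320) (l 362018724375)) (l 3)) (a (l 16775592) (a (l 352355051527) (l 3))))) (a (l 16767008) (b (c (l 289004285783) (l 295446735911)) (l 16773336)))))))), by decide +kernel⟩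

def k18_pp_022_s : ∃ t, chk3 f_pp_022_s t 16 17 1 = true :=
  ⟨(b (a (b (a (b (a (l 16620752) (l 16622968)) (c (l 16637936) (l 16611416))) (b (a (a (l 16625344) (l 16628928)) (l 16614664)) (a (l 16586896) (l 16614760)))) (a (b (c (l 16620600) (l 16591864)) (l 16566544)) (b (a (l 16588672) (l 16572480)) (a (l 16590352) (l 16572832))))) (b (a (b (a (c (l 16675824) (l 16655248)) (b (l 16659056) (l 16669264))) (a (l 16602352) (c (l 16664048) (l 16641928)))) (b (a (b (l 16668264) (l 16657424)) (c (l 16679160) (l 16665352))) (c (a (l 16671960) (l 16680400)) (a (l 16652088) (l 16662808))))) (a (b (b (l 16590552) (l 16579792)) (c (l 16620752) (l 16589992))) (b (a (l 16598592) (l 16608336)) (a (l 16598232) (l 16608216)))))) (a (b (a (a (l 16515752) (l 16496456)) (b (c (l 16590336) (l 16554616)) (l 16552744))) (a (c (l 16537776) (l 16500488)) (c (l 16544104) (l 16503584)))) (b (a (b (c (l 16601072) (l 16566600)) (a (l 16558912) (l 16567640))) (b (c (l 16617992) (l 16588256)) (l 16520088)))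 (a (b (a (l 16539400) (l 16547056)) (l 16482464)) (a (l 16484536) (l 16495712)))))), by decide +kernel⟩

def k19_pp_022_s : ∃ t, chk3 f_pp_022_s t 17 17 1 = true :=
  ⟨(b (a (b (a (b (c (a (l 16688024) (l 16697472)) (a (l 16676488) (l 16677776))) (c (a (l 16689416) (l 16678120)) (a (l 16674136) (l 16665200)))) (a (b (b (b (l 16711936) (l 16706648)) (l 16698760)) (c (l 16688368) (l 16677848))) (b (b (c (l 16722320) (l 16718752)) (b (l 16712704) (l 16707552))) (b (l 16699896) (l 16689840))))) (a (b (c (l 16633160) (a (l 16651136) (l 16663520))) (c (l 16635544) (l 16614248))) (b (c (c (l 16678384) (l 16672056)) (b (l 16667832) (l 16677904))) (a (l 16621824) (l 16634216))))) (b (a (b (a (b (b (a (l 16730344) (l 16754592)) (a (l 16726288) (l 16730424))) (b (c (l 16725336) (l 16722704)) (l 16719032))) (b (l 16736536) (a (b (l 16751592) (l 16727136)) (l 16732224)))) (a (b (l 16711520) (l 16701600)) (b (a (l 16720104) (c (l 16726344) (l 16724216))) (l 16713040)))) (a (c (b (l 16739768)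 (b (l 16731136) (l 16734880))) (b (l 16738768) (b (l 16729552) (b (l 16724464) (l 16720056))))) (b (b (b (l 16748432) (l 16745688)) (l 16741520)) (b (l 16756848) (l 16740432))))) (a (b (c (a (l 16691408) (l 16701704)) (b (l 16693952) (l 16683256))) (c (l 16678720) (l 16667264))) (b (a (b (l 16713912) (l 16704120)) (b (b (l 16735672) (l 16721392)) (l 16714256))) (c (c (l 16699832) (l 16696376)) (a (l 16706352) (l 16696616))))))) (a (b (a (b (c (l 16637968) (l 16613176)) (c (l 16619872) (l 16591680))) (b (a (l 16623176) (l 16635584)) (l 16567968))) (a (a (l 16507616) (l 16519920)) (b (l 16569496) (l 16571136)))) (b (a (b (a (l 16647632) (l 16659160)) (c (l 16664032) (l 16645864))) (b (c (l 16680336) (l 16669976)) (a (l 16650624) (l 16660904)))) (a (b (l 16593728) (l 16595464)) (b (c (l 16666000) (l 16649072)) (l 16596552)))))), by decide +kernel⟩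

def k20_pp_022_s : ∃ t, chk3 f_pp_022_s t 9 16 1 = true :=
  ⟨(b (l 3) (a (b (l 3) (a (b (l 3) (a (b (l 3) (a (b (a (b (l 919290744007) (a (l 331953964215) (l 891910339031))) (l 3)) (a (c (l 16762704) (l 16759984)) (b (l 880099171623) (a (l 16766416) (l 814064060967))))) (l 3))) (l 3))) (l 3))) (l 3))), by decide +kernel⟩

def k21_pp_022_s : ∃ t, chk3 f_pp_022_s t 18 34 1 = true :=
  ⟨(b (a (a (b (b (b (a (a (l 16752096) (l 272361300631)) (a (c (l 707226758615) (l 712058595479)) (l 3))) (a (l 16771568) (a (l 16764728) (b (l 780241190695) (l 324437763847))))) (c (a (l 16746752) (l 16772496)) (a (l 16746208) (l 16772224)))) (b (a (l 16740904) (l 16745872)) (l 16748256))) (b (b (l 3) (a (b (a (b (l 744270844071) (l 309942256503)) (l 892984060695)) (a (l 16774632) (b (l 707763626583) (l 16765888)))) (b (l 3) (a (l 862919294503) (l 3))))) (a (b (b (l 16773120) (l 16749400)) (l 16745240)) (b (b (a (c (l 317995306631) (l 323364015015)) (l 806010982743)) (c (l 284709313831) (l 243907124135)))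 (b (l 16772496) (l 16748760)))))) (b (l 3) (a (b (a (b (l 3) (a (l 777019959751) (l 3))) (l 3)) (a (b (a (l 296520483575) (b (l 3) (l 712058592775))) (a (l 16752400) (l 16765296))) (b (l 3) (a (b (l 850034402759) (l 352891918823)) (l 3))))) (l 3)))) (a (b (a (a (b (l 16750480) (c (l 16723728) (l 16732320))) (l 16731744)) (a (l 16736792) (b (l 16744584) (l 16759928)))) (a (b (a (b (l 16716944) (l 16732984)) (c (l 16723264) (l 16721504))) (a (l 16704736) (c (l 16715960) (l 16713288)))) (b (l 16730768) (a (b (l 16744768) (l 16720496)) (l 16748552))))) (b (a (b (a (l 16770456) (a (l 16763592) (b (b (l 782925543847) (l 334638315479)) (l 16775096)))) (a (l 16743912) (b (l 16750176) (l 16747400)))) (b (a (b (l 3) (a (b (l 742123359607) (l 16755824)) (l 3))) (l 3)) (b (a (c (l 300815435175) (l 305647273239)) (a (l 840907590023) (l 3))) (a (l 16773192) (a (l 318532184695) (l 780241182375)))))) (b (a (l 16751256) (c (a (l 16748248) (l 265381967559)) (a (l 16747904) (l 269676934567))))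 (a (l 16735136) (a (l 16742512) (l 16747344))))))), by decide +kernel⟩

def k22_pp_022_s : ∃ t, chk3 f_pp_022_s t 19 34 1 = true :=
  ⟨(a (b (l 3) (b (l 3) (a (b (a (b (a (l 746418320295) (l 3)) (a (l 16755016) (l 713132329079))) (l 3)) (a (l 246591498055) (b (a (l 678772596007) (l 3)) (c (l 302426048087) (l 306184144039))))) (l 3)))) (l 3)), by decide +kernel⟩

def k23_pp_022_s : ∃ t, chk3 f_pp_022_s t 9 35 1 = true :=
  ⟨(a (b (a (b (a (c (l 16698296) (l 16692096)) (b (a (c (l 16715776) (l 16713384)) (l 16721480)) (a (l 16705104) (c (l 16715512) (l 16713352))))) (a (c (l 16680728) (l 16671248)) (c (l 16698400) (l 16692936)))) (b (b (a (l 16729488) (l 16739384)) (a (a (l 16721024) (l 16747328)) (l 16733824))) (a (b (a (b (l 16716296) (l 16712408)) (l 16741552)) (a (l 16705344) (a (l 16712352) (l 16715904)))) (b (l 16749256) (l 16722672))))) (a (b (a (a (l 16651880) (l 16661928)) (c (l 16681080) (l 16672408))) (a (l 16617008) (c (l 16684840) (l 16673000)))) (b (a (c (l 16698448)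 (l 16693648)) (b (a (c (l 16735504) (l 16712904)) (l 16740744)) (a (l 16705568) (l 16713472)))) (a (c (l 16681424) (l 16673496)) (b (c (l 16702768) (l 16699392)) (l 16691840)))))) (b (a (b (a (b (a (l 16746600) (l 16772280)) (a (l 16762080) (l 16745872))) (b (a (b (a (l 320679667719) (l 813527177175)) (l 275582515527)) (b (l 3) (l 795810428999))) (a (l 16771488) (a (l 16753928) (l 319069035463))))) (a (a (l 16732920) (l 16737728)) (a (l 16742408) (l 16758784)))) (b (a (b (l 3) (a (b (l 3) (l 707763610887)) (l 3))) (l 3)) (a (b (a (c (l 271824408295) (l 274508762551)) (b (l 3) (l 655687143655))) (a (l 16748816) (l 248738971943))) (b (l 3) (a (b (l 778630563111) (l 314774074423)) (l 3)))))) (a (b (a (l 16724472) (l 16733952)) (a (b (a (l 16713168) (l 16739736)) (a (l 16705624) (l 16712728))) (l 16723168))) (a (b (b (c (l 16745840) (l 16745560)) (l 16740344)) (l 16732328)) (b (b (a (l 16773320) (b (l 682530681495) (l 16755368))) (a (l 16747016) (l 16772360))) (b (l 16743904)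 (l 16738584))))))), by decide +kernel⟩

def k24_pp_022_s : ∃ t, chk3 f_pp_022_s t 5 8 1 = true :=
  ⟨(b (l 3) (a (b (l 3) (a (b (l 3) (a (b (a (b (a (l 807621571799) (l 3)) (a (a (l 16754624) (l 320142779639)) (l 764135040279))) (l 3)) (b (a (a (l 16771376) (l 261086991463)) (a (l 719574777127) (l 3))) (a (l 16768248) (a (l 16753632) (l 614348074439))))) (l 3))) (l 3))) (l 3))), by decide +kernel⟩

def k25_pp_022_s : ∃ t, chk3 f_pp_022_s t 8 9 1 = true :=
  ⟨(b (a (a (b (b (a (l 16437872) (l 16403024)) (a (l 16441984) (l 16450480))) (b (a (l 16404832) (l 16415432)) (l 16332616))) (b (b (a (c (l 16520168) (l 16474336)) (c (l 16536344) (l 16491752))) (a (l 16462544) (l 16394280))) (b (c (l 16460952) (l 16410416)) (l 16317936)))) (b (a (b (a (c (l 16557808) (l 16518168)) (c (l 16580400) (l 16545952))) (a (l 16458048) (l 16483408))) (b (a (b (l 16576344) (l 16578328)) (b (l 16598536) (l 16600656))) (a (l 16487176) (c (l 16588040) (l 16556992))))) (a (b (a (l 16400040) (l 16466984))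 (a (l 16407992) (l 16409184))) (b (a (l 16491992) (l 16493904)) (a (l 16476504) (l 16478776)))))) (a (b (a (b (l 16339296) (l 16304168)) (b (l 16326232) (l 16334672))) (a (b (l 16269176) (l 16234304)) (b (l 16301328) (l 16268184)))) (b (a (b (a (l 16395928) (l 16396712)) (l 16290664)) (b (a (l 16419592) (l 16464232)) (b (l 16342688) (l 16368592)))) (a (b (l 16300936) (l 16311120)) (b (a (l 16376392) (l 16397104)) (l 16314176)))))), by decide +kernel⟩

def k26_pp_022_s : ∃ t, chk3 f_pp_022_s t 9 9 1 = true :=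
  ⟨(b (a (b (b (a (b (a (l 16619160) (l 16618384)) (a (l 16600472) (l 16620864))) (b (a (l 16638104) (b (l 16682704) (l 16673624))) (a (l 16640784) (l 16639048)))) (a (c (a (l 16606952) (l 16625584)) (a (l 16580208) (l 16603008))) (b (a (l 16622600) (l 16641952)) (a (l 16625536) (l 16623984))))) (c (a (b (l 16562064) (l 16550024)) (b (l 16556800) (l 16566128))) (a (b (l 16510560) (l 16513776)) (b (a (l 16586280) (l 16607760)) (l 16516968))))) (b (b (a (b (a (b (c (l 16702496) (l 16699624)) (l 16691896)) (b (a (l 16712152) (l 16738352)) (a (l 16704992) (l 16711512)))) (a (a (l 16673848) (l 16682784)) (b (a (l 16716944) (l 16704472)) (l 16691320)))) (a (b (l 16742600) (b (l 16713136) (a (l 16703888) (l 16731080)))) (b (l 16730624) (l 16740968)))) (b (a (a (l 16660400) (l 16667456)) (a (b (a (l 16716000) (l 16703240)) (l 16690336)) (b (l 16711608) (a (l 16702528) (l 16729528))))) (a (a (l 16642528) (l 16660168)) (a (l 16656128) (c (l 16694968) (l 16692256)))))) (b (a (c (a (l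 16645256) (l 16640352)) (b (l 16626816) (l 16628704))) (c (b (l 16671440) (l 16655408)) (b (l 16664256) (l 16645392)))) (a (c (l 16579208) (l 16537376)) (b (a (l 16645608) (l 16662288)) (l 16573912)))))) (b (a (a (b (c (l 16517616) (l 16475864)) (l 16378280)) (b (c (l 16554832) (l 16521136)) (c (l 16522936) (l 16483920)))) (a (b (b (l 16542824) (l 16546568)) (c (l 16557584) (l 16525912))) (b (c (l 16599896) (l 16580216)) (c (l 16589592) (l 16564584))))) (a (b (a (a (l 16417000) (l 16438552)) (l 16406680)) (a (c (l 16422792) (l 16368728)) (l 16415192))) (b (a (l 16445208) (l 16459840)) (a (l 16453896) (l 16489736)))))), by decide +kernel⟩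

def k27_pp_022_s : ∃ t, chk3 f_pp_022_s t 5 18 1 = true :=
  ⟨(a (b (a (b (a (a (b (l 16749856) (l 16728816)) (b (a (l 16745752) (l 16760432)) (l 16737384))) (b (a (b (a (l 344301964807) (l 779704291975)) (a (l 16772432) (l 16755544))) (b (l 3) (a (l 728164696791) (l 3)))) (a (l 16756208) (a (l 16751800) (l 321753371511))))) (a (b (a (l 16739240) (l 16747880)) (a (b (l 16709944) (a (l 16721904) (l 16727832))) (l 16737416))) (b (a (l 16735312) (l 16764448)) (a (l 16745880) (l 16733144))))) (b (a (b (l 3) (a (b (l 3) (a (l 16752144) (l 3))) (l 3))) (l 3)) (a (b (a (c (l 16751432) (l 16751376)) (b (l 728701551847) (l 223506000311))) (a (l 16741136) (l 16769872))) (b (l 3) (a (a (l 16754560) (l 353428745735)) (l 705616088343)))))) (a (b (a (b (a (c (l 16693312) (l 16690728)) (b (l 16708152) (l 16701920))) (a (l 16674592) (b (l 16694368) (l 16706688)))) (b (l 16718744) (a (c (l 16703160) (l 16702360)) (l 16733472)))) (a (c (b (l 16668656) (l 16673944)) (b (l 16661864) (l 16664416)))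 (b (a (l 16688008) (c (l 16701040) (l 16700248))) (c (l 16680408) (l 16676328))))) (b (a (a (l 16725784) (l 16733656)) (b (a (l 16767288) (l 16753696)) (l 16740000))) (a (b (a (l 16731248) (l 16739336)) (a (l 16719328) (l 16728904))) (b (l 16729928) (l 16740840)))))) (b (l 3) (a (b (a (b (a (l 369534840775) (l 3)) (a (l 16771840) (l 16729128))) (b (l 3) (l 687362452535))) (a (b (l 16765472) (l 16734568)) (a (l 244980840343) (l 326048300935)))) (b (l 3) (a (b (l 3) (l 350207476759)) (l 3)))))), by decide +kernel⟩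

def k28_pp_022_s : ∃ t, chk3 f_pp_022_s t 5 19 1 = true :=
  ⟨(a (b (a (b (a (b (l 16610336) (l 16614448)) (c (l 16636384) (l 16628264))) (a (c (l 16619664) (l 16600744)) (b (l 16628496) (l 16633008)))) (b (a (b (a (l 16703896) (l 16716808)) (l 16652456)) (b (a (l 16705472) (l 16734528)) (a (l 16714016) (l 16702872)))) (a (c (l 16653144) (l 16644728)) (b (a (l 16698096) (l 16689920)) (l 16667640))))) (a (b (a (c (l 16589080) (l 16564984)) (c (l 16617648) (l 16599072))) (a (l 16523464) (l 16555120))) (b (a (l 16574752) (a (l 16637152) (l 16650200))) (a (l 16584728) (l 16591352))))) (b (a (b (a (l 16719736) (l 16754736)) (a (b (l 16719664) (a (l 16707320) (l 16718048))) (b (l 16740024) (l 16729968)))) (b (a (l 158544620487) (l 333564464455)) (a (l 16748616) (l 16761208)))) (a (b (a (c (l 16671360) (l 16687280)) (b (l 16718816) (l 16705376))) (a (l 16616944) (l 16672008))) (b (a (b (l 16734136) (l 16723600)) (l 16721248)) (a (b (l 16711480) (l 16696784)) (b (l 16727456) (l 16716176))))))),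 by decide +kernel⟩

def k29_pp_022_s : ∃ t, chk3 f_pp_022_s t 4 5 1 = true :=
  ⟨(b (a (b (b (a (a (b (l 16199496) (l 16164672)) (b (l 16234992) (l 16201496))) (a (b (l 16279408) (l 16247176)) (c (l 16311816) (l 16286528)))) (a (b (a (l 16129248) (l 16167464)) (b (a (l 16101696) (l 16140776)) (b (a (l 16086688) (l 16126024)) (a (l 16076312) (l 16115872))))) (b (a (l 16214120) (l 16262352)) (b (a (l 16188208) (l 16237216)) (a (b (l 16173816) (l 16163896)) (b (l 16223184) (l 16213488))))))) (a (a (b (l 16041792) (l 15984416)) (b (l 16082696) (l 16027672))) (a (b (l 16132000) (l 16079232)) (b (l 16182832) (l 16132224))))) (b (b (a (b (a (l 16281720) (l 16299072)) (a (l 16335216) (l 16290384))) (b (a (l 16442176) (l 16478192)) (a (l 16347728) (l 16446240)))) (b (a (a (l 16304288) (l 16343816)) (a (b (l 16388432) (l 16373376)) (b (l 16422800) (l 16408440)))) (b (a (a (l 16279912) (l 16320184)) (l 16260552)) (a (b (l 16224080) (a (l 16256776) (l 16297648))) (b (l 16300176) (a (l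 16335848) (l 16371568))))))) (a (b (a (l 16227304) (l 16269312)) (a (l 16178752) (l 16222712))) (b (a (l 16308600) (l 16345352)) (a (l 16263856) (l 16302352)))))) (a (a (b (b (a (l 15930032) (l 15975544)) (a (l 15878544) (l 15926224))) (b (l 15854040) (l 15809072))) (b (a (b (l 16029272) (l 15982016)) (b (l 16084320) (l 16039024))) (a (l 15895408) (l 15976128)))) (a (b (b (l 16030512) (l 16113776)) (b (l 16073560) (l 16035576))) (b (b (l 16221304) (l 16161096)) (b (l 16165664) (l 16128608)))))), by decide +kernel⟩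

def k30_pp_022_s : ∃ t, chk3 f_pp_022_s t 5 5 1 = true :=
  ⟨(b (b (b (a (a (b (a (l 16512152) (l 16544096)) (a (l 16480320) (l 16512480))) (b (a (l 16574064) (l 16581112)) (a (l 16542736) (l 16571104)))) (a (b (a (l 16607192) (l 16631368)) (a (l 16597616) (l 16622296))) (b (a (l 16674616) (l 16695016)) (a (l 16645160) (l 16666240))))) (a (b (a (a (l 16344032) (l 16481128)) (a (l 16511520) (l 16540128))) (b (a (a (l 16426808) (l 16458136)) (l 16461184)) (b (a (a (l 16414032) (l 16446552)) (a (l 16476592) (l 16504848))) (a (l 16380096) (a (l 16468392) (a (l 16448872) (l 16483568))))))) (b (a (a (l 16566968) (l 16592064)) (c (l 16613480) (l 16597720))) (b (a (l 16556976) (l 16583336)) (b (a (l 16544664) (l 16592064)) (a (a (l 16461288) (l 16549544)) (l 16521480))))))) (a (a (b (a (l 16380304) (l 16413504)) (a (l 16338952) (l 16373904))) (b (a (l 16444968) (l 16474592)) (l 16358776))) (a (b (l 16431344) (l 16478688)) (b (l 16542656) (l 16528872))))) (a (a (b (b (l 16234416)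 (l 16280384)) (l 16100984)) (b (b (l 16384640) (l 16348640)) (l 16297544))) (b (a (l 16363688) (l 16416336)) (a (l 16360512) (l 16415864))))), by decide +kernel⟩

def k31_pp_022_s : ∃ t, chk3 f_pp_022_s t 2 3 1 = true :=
  ⟨(b (b (a (a (a (b (b (l 15766664) (l 15726712)) (l 15545952)) (b (a (l 15836872) (l 15899904)) (a (l 15766944) (l 15830184)))) (a (b (b (l 15999656) (l 15963616)) (l 15912200)) (b (l 16076144) (l 16009616)))) (a (a (b (l 16158752) (l 16095520)) (b (l 16232856) (l 16172392))) (b (a (l 16298552) (l 16355904)) (a (l 16240144) (l 16298776))))) (b (a (a (l 6) (a (l 15847400) (l 15947864))) (a (a (l 16036600) (l 16115584)) (a (l 16184688) (l 2)))) (a (l 6) (l 6)))) (l 6)), by decide +kernel⟩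

def k32_pp_022_s : ∃ t, chk3 f_pp_022_s t 3 1 1 = true :=
  ⟨(b (b (b (l 3) (a (b (l 3) (a (b (a (b (a (l 624011682023) (l 3)) (a (l 16731048) (l 341080657095))) (l 3)) (a (b (a (l 16754240) (l 16765480)) (a (l 16735224) (l 16726056))) (b (a (l 16754976) (l 16713464)) (l 152102144279)))) (b (l 3) (a (b (l 3) (l 238001448023)) (l 3))))) (l 3))) (a (b (b (b (a (a (b (a (b (l 16719832) (l 16706608)) (b (l 16733032) (l 16722640))) (a (l 16685536) (l 16703056))) (b (a (l 16739424) (l 16749768)) (a (l 16697560) (l 16730888)))) (b (a (l 16763832) (l 16719496)) (a (a (l 16741368) (l 16750560)) (l 16762840)))) (b (a (a (c (l 16671400) (l 16640880)) (b (l 16706896) (l 16693736))) (a (b (l 16732168) (l 16721184)) (b (l 16750040) (l 16741208)))) (b (a (a (l 16624288) (l 16680008)) (a (l 16708672) (l 16710456))) (a (b (a (l 16633384) (l 16668784)) (a (l 16604840) (l 16640576))) (b (a (l 16698448) (l 16722512)) (a (l 16670784) (l 16716592))))))) (a (a (b (l 16585000) (l 16572776)) (b (l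 16621552) (l 16610552))) (a (b (l 16652480) (l 16642304)) (b (l 16698880) (l 2))))) (a (b (a (l 16483160) (l 16522312)) (a (l 16463680) (l 16504000))) (b (a (l 16554824) (l 2)) (l 2)))) (b (b (b (b (b (l 3) (l 2)) (l 2)) (l 2)) (l 2)) (l 2)))) (a (b (b (a (b (a (l 16404944) (l 2)) (l 2)) (l 2)) (l 2)) (l 2)) (l 2))), by decide +kernel⟩

theorem s33_pp_022_s : ∃ t, chk3 f_pp_022_s t 2 5 1 = true := ex3_a k29_pp_022_s k30_pp_022_s

theorem s34_pp_022_s : ∃ t, chk3 f_pp_022_s t 5 9 1 = true := ex3_b k27_pp_022_s k28_pp_022_s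

theorem s35_pp_022_s : ∃ t, chk3 f_pp_022_s t 4 9 1 = true := ex3_a k25_pp_022_s k26_pp_022_s

theorem s36_pp_022_s : ∃ t, chk3 f_pp_022_s t 2 9 1 = true := ex3_a s35_pp_022_s s34_pp_022_s

theorem s37_pp_022_s : ∃ t, chk3 f_pp_022_s t 9 34 1 = true := ex3_a k21_pp_022_s k22_pp_022_s

theorem s38_pp_022_s : ∃ t, chk3 f_pp_022_s t 9 17 1 = true := ex3_b s37_pp_022_s k23_pp_022_s

theorem s39_pp_022_s : ∃ t, chk3 f_pp_022_s t 9 8 1 = true := ex3_b k20_pp_022_s s38_pp_022_s

theorem s40_pp_022_s : ∃ t, chk3 f_pp_022_s t 8 17 1 = true := ex3_a k18_pp_022_s k19_pp_022_s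

theorem s41_pp_022_s : ∃ t, chk3 f_pp_022_s t 34 66 1 = true := ex3_b k14_pp_022_s k15_pp_022_s

theorem s42_pp_022_s : ∃ t, chk3 f_pp_022_s t 34 33 1 = true := ex3_b s41_pp_022_s k16_pp_022_s

theorem s43_pp_022_s : ∃ t, chk3 f_pp_022_s t 17 33 1 = true := ex3_a s42_pp_022_s k17_pp_022_s

theorem s44_pp_022_s : ∃ t, chk3 f_pp_022_s t 17 16 1 = true := ex3_b k13_pp_022_s s43_pp_022_s

theorem s45_pp_022_s : ∃ t, chk3 f_pp_022_s t 16 33 1 = true := ex3_a k11_pp_022_s k12_pp_022_s

theorem s46_pp_022_s : ∃ t, chk3 f_pp_022_s t 67 131 1 = true := ex3_a k9_pp_022_s k10_pp_022_s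

theorem s47_pp_022_s : ∃ t, chk3 f_pp_022_s t 67 65 1 = true := ex3_b k8_pp_022_s s46_pp_022_s

theorem s48_pp_022_s : ∃ t, chk3 f_pp_022_s t 133 261 1 = true := ex3_b k5_pp_022_s k6_pp_022_s

theorem s49_pp_022_s : ∃ t, chk3 f_pp_022_s t 66 261 1 = true := ex3_a k4_pp_022_s s48_pp_022_s

theorem s50_pp_022_s : ∃ t, chk3 f_pp_022_s t 66 260 1 = true := ex3_b k2_pp_022_s k3_pp_022_s

theorem s51_pp_022_s : ∃ t, chk3 f_pp_022_s t 66 130 1 = true := ex3_b s50_pp_022_s s49_pp_022_s

theorem s52_pp_022_s : ∃ t, chk3 f_pp_022_s t 66 65 1 = true := ex3_b s51_pp_022_s k7_pp_022_s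

theorem s53_pp_022_s : ∃ t, chk3 f_pp_022_s t 33 65 1 = true := ex3_a s52_pp_022_s s47_pp_022_s

theorem s54_pp_022_s : ∃ t, chk3 f_pp_022_s t 33 32 1 = true := ex3_b k1_pp_022_s s53_pp_022_s

theorem s55_pp_022_s : ∃ t, chk3 f_pp_022_s t 16 32 1 = true := ex3_a k0_pp_022_s s54_pp_022_s

theorem s56_pp_022_s : ∃ t, chk3 f_pp_022_s t 16 16 1 = true := ex3_b s55_pp_022_s s45_pp_022_s

theorem s57_pp_022_s : ∃ t, chk3 f_pp_022_s t 8 16 1 = true := ex3_a s56_pp_022_s s44_pp_022_s

theorem s58_pp_022_s : ∃ t, chk3 f_pp_022_s t 8 8 1 = true := ex3_b s57_pp_022_s s40_pp_022_s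

theorem s59_pp_022_s : ∃ t, chk3 f_pp_022_s t 4 8 1 = true := ex3_a s58_pp_022_s s39_pp_022_s

theorem s60_pp_022_s : ∃ t, chk3 f_pp_022_s t 2 8 1 = true := ex3_a s59_pp_022_s k24_pp_022_s

theorem s61_pp_022_s : ∃ t, chk3 f_pp_022_s t 2 4 1 = true := ex3_b s60_pp_022_s s36_pp_022_s

theorem s62_pp_022_s : ∃ t, chk3 f_pp_022_s t 2 2 1 = true := ex3_b s61_pp_022_s s33_pp_022_s

theorem s63_pp_022_s : ∃ t, chk3 f_pp_022_s t 2 1 1 = true := ex3_b s62_pp_022_s k31_pp_022_s

theorem s64_pp_022_s : ∃ t, chk3 f_pp_022_s t 1 1 1 = true := ex3_a s63_pp_022_s k32_pp_022_s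

theorem c_pp_022_s : CertNE 0 536870912 1073741824 536870912 1020054732 13421774 3 eng mog cd0q0 cd5q2 pd2 false true true .pp 0 2 2
    ndB0q0 ndB5q2 pcB2 cut_pp_022_s Ext.none :=
  certNE1 (fam := false) (s1 := true) (s2 := true) (a := 0) (b := 2) (c := 2) (cn := .pp) (n1 := ndB0q0) (n2 := ndB5q2) (pc := pcB2) (cut := cut_pp_022_s) (xt := Ext.none) (P1 := 0) (W1 := 536870912) (P2 := 1073741824) (W2 := 536870912) (P3 := 1020054732) (W3 := 13421774) (N0 := 3) (En := eng) (mo := mog) (C1 := cd0q0) (C2 := cd5q2) (C3 := pd2)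
    rfl (fun _ => rfl) s64_pp_022_s

noncomputable def cut_pp_023_s : Cut := Cut.of [[⟨4, 0, 0, 1449551462⟩]]

noncomputable def f_pp_023_s : ℕ → ℕ → ℕ → ℕ → Bool := onCell 1073741824 536870912 0 1230186008 1020054732 13421774
    (rowNE 3 eng mog cd0q0 cd5q3 pd2 2 false true true .up 0 2 3 (qsf 0 536870912 0 1230186008 2) ndB0q0 ndB5q3 pcB2 cut_pp_023_s Ext.none)

def k0_pp_023_s : ∃ t, chk3 f_pp_023_s t 1 1 1 = true :=
  ⟨(a (b (l 2) (a (b (l 2) (b (l 2) (l 3))) (b (a (l 2) (b (l 2) (a (l 2) (b (l 2) (l 16618616))))) (b (b (a (a (l 2) (l 319001889815)) (b (l 16616592) (l 16608968))) (b (a (a (l 2) (l 16738480)) (l 16599256)) (a (a (a (l 3) (a (l 3) (a (l 16775760) (l 16769912)))) (l 16732320)) (l 16566120)))) (a (a (a (b (l 3) (b (a (l 3) (l 300815352215)) (a (b (l 3) (l 16753216)) (b (l 16776168) (l 16768608))))) (a (b (b (l 290614818199) (l 226190321207)) (b (a (l 16771376) (l 16761792)) (a (l 16757432) (l 16747128)))) (b (a (b (l 16772168) (l 16763656)) (b (a (l 16765656)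 (l 16761760)) (a (l 16757160) (l 16732256)))) (a (b (l 16720752) (b (l 16740744) (l 16730760))) (b (a (l 16744896) (l 16739440)) (a (l 16725848) (l 16718744))))))) (b (b (a (l 16742136) (l 16706472)) (l 16713744)) (b (a (l 16717072) (l 16676800)) (b (l 16679504) (l 16644168))))) (b (b (a (l 16651808) (l 16576120)) (a (l 16615280) (l 16554856))) (b (a (l 16592928) (l 16525888)) (a (l 16561504) (l 16486440))))))))) (a (b (l 2) (b (b (a (l 2) (b (l 290546544679) (l 16423552))) (a (b (l 321148944103) (a (l 16584496) (l 16526272))) (b (l 16437856) (l 16387736)))) (b (b (a (l 16508040) (l 16387568)) (a (l 16406216) (l 16324904))) (b (a (b (l 16453392) (l 16380696)) (b (l 16268656) (l 16223928))) (a (b (l 16277528) (l 16161176)) (b (l 16104288) (l 16007848))))))) (b (l 6) (l 6)))), by decide +kernel⟩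

theorem c_pp_023_s : CertNE 0 536870912 0 1230186008 1020054732 13421774 3 eng mog cd0q0 cd5q3 pd2 false true true .up 0 2 3
    ndB0q0 ndB5q3 pcB2 cut_pp_023_s Ext.none :=
  certNE2 (fam := false) (s1 := true) (s2 := true) (a := 0) (b := 2) (c := 3) (cn := .up) (n1 := ndB0q0) (n2 := ndB5q3) (pc := pcB2) (cut := cut_pp_023_s) (xt := Ext.none) (P1 := 0) (W1 := 536870912) (P2 := 0) (W2 := 1230186008) (P3 := 1020054732) (W3 := 13421774) (N0 := 3) (En := eng) (mo := mog) (C1 := cd0q0) (C2 := cd5q3) (C3 := pd2)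
    rfl (fun _ => rfl) k0_pp_023_s

noncomputable def cut_pp_033_s : Cut := Cut.of [[⟨4, 0, 0, 1449551462⟩]]

noncomputable def f_pp_033_s : ℕ → ℕ → ℕ → ℕ → Bool := onCell 1610612736 536870912 0 1230186008 1020054732 13421774
    (rowNE 3 eng mog cd0q0 cd5q3 pd3 2 false true true .pnn 0 3 3 (qsf 0 536870912 0 1230186008 3) ndB0q0 ndB5q3 pcB3 cut_pp_033_s Ext.none)

def k0_pp_033_s : ∃ t, chk3 f_pp_033_s t 1 1 1 = true :=
  ⟨(b (l 6) (l 6)), by decide +kernel⟩

theorem c_pp_033_s : CertNE 0 536870912 0 1230186008 1020054732 13421774 3 eng mog cd0q0 cd5q3 pd3 false true true .pnn 0 3 3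
    ndB0q0 ndB5q3 pcB3 cut_pp_033_s Ext.none :=
  certNE2 (fam := false) (s1 := true) (s2 := true) (a := 0) (b := 3) (c := 3) (cn := .pnn) (n1 := ndB0q0) (n2 := ndB5q3) (pc := pcB3) (cut := cut_pp_033_s) (xt := Ext.none) (P1 := 0) (W1 := 536870912) (P2 := 0) (W2 := 1230186008) (P3 := 1020054732) (W3 := 13421774) (N0 := 3) (En := eng) (mo := mog) (C1 := cd0q0) (C2 := cd5q3) (C3 := pd3)
    rfl (fun _ => rfl) k0_pp_033_s

noncomputable def cut_pp_101_s : Cut := Cut.of [[⟨4, 0, 0, 1449551462⟩]]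

noncomputable def f_pp_101_s : ℕ → ℕ → ℕ → ℕ → Bool := onCell 536870912 536870912 536870912 536870912 1020054732 13421774
    (rowNE 3 eng mog cd0q1 cd5q1 pd0 0 false true true .npn 1 0 1 (qsf 536870912 536870912 536870912 536870912 0) ndB0q1 ndB5q1 pcB0 cut_pp_101_s Ext.none)

def k0_pp_101_s : ∃ t, chk3 f_pp_101_s t 1 1 1 = true :=
  ⟨(a (l 3) (l 5)), by decide +kernel⟩

theorem c_pp_101_s : CertNE 536870912 536870912 536870912 536870912 1020054732 13421774 3 eng mog cd0q1 cd5q1 pd0 false true true .npn 1 0 1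
    ndB0q1 ndB5q1 pcB0 cut_pp_101_s Ext.none :=
  certNE0 (fam := false) (s1 := true) (s2 := true) (a := 1) (b := 0) (c := 1) (cn := .npn) (n1 := ndB0q1) (n2 := ndB5q1) (pc := pcB0) (cut := cut_pp_101_s) (xt := Ext.none) (P1 := 536870912) (W1 := 536870912) (P2 := 536870912) (W2 := 536870912) (P3 := 1020054732) (W3 := 13421774) (N0 := 3) (En := eng) (mo := mog) (C1 := cd0q1) (C2 := cd5q1) (C3 := pd0)
    rfl k0_pp_101_s

noncomputable def cut_pp_102_s : Cut := Cut.of [[⟨4, 0, 0, 1449551462⟩]]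

noncomputable def f_pp_102_s : ℕ → ℕ → ℕ → ℕ → Bool := onCell 536870912 536870912 1073741824 536870912 1020054732 13421774
    (rowNE 3 eng mog cd0q1 cd5q2 pd0 0 false true true .npp 1 0 2 (qsf 536870912 536870912 1073741824 536870912 0) ndB0q1 ndB5q2 pcB0 cut_pp_102_s Ext.none)

def k0_pp_102_s : ∃ t, chk3 f_pp_102_s t 1 1 1 = true :=
  ⟨(a (l 3) (b (l 5) (l 3))), by decide +kernel⟩

theorem c_pp_102_s : CertNE 536870912 536870912 1073741824 536870912 1020054732 13421774 3 eng mog cd0q1 cd5q2 pd0 false true true .npp 1 0 2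
    ndB0q1 ndB5q2 pcB0 cut_pp_102_s Ext.none :=
  certNE0 (fam := false) (s1 := true) (s2 := true) (a := 1) (b := 0) (c := 2) (cn := .npp) (n1 := ndB0q1) (n2 := ndB5q2) (pc := pcB0) (cut := cut_pp_102_s) (xt := Ext.none) (P1 := 536870912) (W1 := 536870912) (P2 := 1073741824) (W2 := 536870912) (P3 := 1020054732) (W3 := 13421774) (N0 := 3) (En := eng) (mo := mog) (C1 := cd0q1) (C2 := cd5q2) (C3 := pd0)
    rfl k0_pp_102_s

noncomputable def cut_pp_112_s : Cut := Cut.of [[⟨4, 0, 0, 1449551462⟩]]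

noncomputable def f_pp_112_s : ℕ → ℕ → ℕ → ℕ → Bool := onCell 536870912 536870912 1073741824 536870912 1020054732 13421774
    (rowNE 3 eng mog cd0q1 cd5q2 pd1 0 false true true .dn 1 1 2 (qsf 536870912 536870912 1073741824 536870912 1) ndB0q1 ndB5q2 pcB1 cut_pp_112_s Ext.none)

def k0_pp_112_s : ∃ t, chk3 f_pp_112_s t 1 1 1 = true :=
  ⟨(a (l 3) (b (l 5) (l 3))), by decide +kernel⟩

theorem c_pp_112_s : CertNE 536870912 536870912 1073741824 536870912 1020054732 13421774 3 eng mog cd0q1 cd5q2 pd1 false true true .dn 1 1 2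
    ndB0q1 ndB5q2 pcB1 cut_pp_112_s Ext.none :=
  certNE0 (fam := false) (s1 := true) (s2 := true) (a := 1) (b := 1) (c := 2) (cn := .dn) (n1 := ndB0q1) (n2 := ndB5q2) (pc := pcB1) (cut := cut_pp_112_s) (xt := Ext.none) (P1 := 536870912) (W1 := 536870912) (P2 := 1073741824) (W2 := 536870912) (P3 := 1020054732) (W3 := 13421774) (N0 := 3) (En := eng) (mo := mog) (C1 := cd0q1) (C2 := cd5q2) (C3 := pd1)
    rfl k0_pp_112_s

noncomputable def cut_pp_113_s : Cut := Cut.of [[⟨4, 0, 0, 1449551462⟩], [⟨0, 1, 0, 26738688⟩, ⟨1, 1, 0, 26738688⟩, ⟨2, 2, 0, 2621440⟩]]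

noncomputable def f_pp_113_s : ℕ → ℕ → ℕ → ℕ → Bool := onCell 536870912 536870912 0 1230186008 1020054732 13421774
    (rowNE 3 eng mog cd0q1 cd5q3 pd1 2 false true true .nn 1 1 3 (qsf 536870912 536870912 0 1230186008 1) ndB0q1 ndB5q3 pcB1 cut_pp_113_s Ext.none)

def k0_pp_113_s : ∃ t, chk3 f_pp_113_s t 1 1 1 = true :=
  ⟨(a (b (l 2) (a (b (l 2) (b (l 2) (l 3))) (b (a (l 2) (b (l 2) (l 3))) (l 3)))) (a (b (l 2) (b (l 3) (l 3))) (b (b (a (l 2) (a (l 2) (b (a (l 2) (b (l 14) (l 3))) (l 3)))) (l 3)) (l 3)))), by decide +kernel⟩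

theorem c_pp_113_s : CertNE 536870912 536870912 0 1230186008 1020054732 13421774 3 eng mog cd0q1 cd5q3 pd1 false true true .nn 1 1 3
    ndB0q1 ndB5q3 pcB1 cut_pp_113_s Ext.none :=
  certNE2 (fam := false) (s1 := true) (s2 := true) (a := 1) (b := 1) (c := 3) (cn := .nn) (n1 := ndB0q1) (n2 := ndB5q3) (pc := pcB1) (cut := cut_pp_113_s) (xt := Ext.none) (P1 := 536870912) (W1 := 536870912) (P2 := 0) (W2 := 1230186008) (P3 := 1020054732) (W3 := 13421774) (N0 := 3) (En := eng) (mo := mog) (C1 := cd0q1) (C2 := cd5q3) (C3 := pd1)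
    rfl (fun _ => rfl) k0_pp_113_s

noncomputable def cut_pp_123_s : Cut := Cut.of [[⟨4, 0, 0, 1449551462⟩], [⟨0, 1, 0, 26738688⟩, ⟨1, 1, 0, 26738688⟩, ⟨2, 2, 0, 2621440⟩]]

noncomputable def f_pp_123_s : ℕ → ℕ → ℕ → ℕ → Bool := onCell 1073741824 536870912 0 1230186008 1020054732 13421774
    (rowNE 3 eng mog cd0q1 cd5q3 pd2 2 false true true .npn 1 2 3 (qsf 536870912 536870912 0 1230186008 2) ndB0q1 ndB5q3 pcB2 cut_pp_123_s Ext.none)

def k0_pp_123_s : ∃ t, chk3 f_pp_123_s t 32 8 1 = true :=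
  ⟨(b (l 14) (l 3)), by decide +kernel⟩

def k1_pp_123_s : ∃ t, chk3 f_pp_123_s t 33 16 1 = true :=
  ⟨(b (a (l 14) (a (l 16689488) (l 16695224))) (a (b (l 14) (b (l 14) (a (l 3) (a (l 14) (a (l 14) (a (l 14) (b (b (l 14) (l 16774984)) (a (l 278266902007) (l 16776104))))))))) (a (b (a (b (l 16716136) (b (l 16716728) (a (b (l 16719968) (l 16704184)) (l 16695992)))) (l 16710160)) (b (a (b (a (l 16716096) (l 16684816)) (c (l 16731616) (l 16711104))) (b (a (b (l 16714864) (l 16720736)) (l 16690888)) (a (l 16711416) (l 16701456)))) (a (b (a (b (l 16743504) (a (b (l 16772544) (l 16774216)) (b (l 16767728) (l 16771536)))) (b (l 16733200) (l 16740968))) (a (a (l 16775576) (b (l 16773856) (l 16775248))) (b (a (b (l 16770384) (l 16772912)) (l 16767128)) (a (l 16774416) (b (l 16772152) (l 16773608)))))) (a (b (l 16726912) (a (b (l 16762000) (b (l 16767784) (l 16771304))) (l 16739800))) (b (l 16716888) (l 16732256)))))) (b (l 16700568) (b (a (a (b (l 16707464) (l 16671336)) (l 16664456))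 (l 16700760)) (b (a (l 16681200) (b (l 16682816) (l 16666096))) (a (c (l 16723712) (l 16711088)) (l 16677184)))))))), by decide +kernel⟩

def k2_pp_123_s : ∃ t, chk3 f_pp_123_s t 66 34 1 = true :=
  ⟨(b (a (l 3) (b (a (l 3) (b (a (l 3) (b (a (l 3) (b (c (l 369534954055) (l 367924336183)) (l 453286820215))) (l 3))) (l 3))) (l 3))) (l 3)), by decide +kernel⟩

def k3_pp_123_s : ∃ t, chk3 f_pp_123_s t 67 68 1 = true :=
  ⟨(b (a (a (b (a (b (a (b (l 16776624) (l 266455741479)) (l 16776152)) (a (b (l 423222049783) (l 3)) (b (l 294909899495) (c (l 382956726695) (l 382956732023))))) (c (l 16775800) (l 16775144))) (a (l 467782330855) (b (a (b (l 348596991143) (l 444160015111)) (l 297594252295)) (a (l 3) (b (l 395304760151) (l 3)))))) (b (a (b (a (l 16773320) (b (l 16770328) (l 16772448))) (l 16774280)) (b (a (l 16767328) (l 16741232)) (a (l 16772184) (b (l 16767928) (l 16771088))))) (a (b (l 16775384) (a (b (l 16776624) (l 354502568791)) (l 16776072))) (a (l 16774624) (l 16773496)))))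 (a (b (a (l 16732344) (l 16727760)) (a (b (a (b (l 16770280) (l 16772096)) (l 16767552)) (a (l 16773368) (l 16771896))) (a (b (l 16741568) (b (l 16768272) (l 16770960))) (l 16740424)))) (b (a (l 16718056) (l 16708432)) (a (l 16733096) (l 16723400))))) (a (a (l 3) (b (a (b (a (l 454897432295) (b (l 278803772007) (l 410874013751))) (l 3)) (a (b (l 16775064) (b (l 365776857783) (l 456508045639))) (c (l 264308258023) (l 237464712519)))) (a (l 3) (c (l 452749946327) (l 456508042647))))) (a (b (a (l 16774744) (b (a (l 16772664) (l 16770816)) (l 16773520))) (a (b (a (b (l 16775416) (l 377588017671)) (l 16776136)) (a (l 468319204663) (b (l 344302023751) (l 444696886055)))) (c (l 265382000087) (l 240685938215)))) (b (a (a (b (l 16767760) (l 16771688)) (b (l 16762856) (l 16769496))) (b (l 16734584) (l 16742080))) (a (l 16773520) (b (a (l 16770624) (l 16767832)) (l 16771888))))))), by decide +kernel⟩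

def k4_pp_123_s : ∃ t, chk3 f_pp_123_s t 67 69 1 = true :=
  ⟨(a (l 3) (b (a (b (a (l 3) (b (a (l 423222044199) (l 339470183895)) (l 454897431223))) (l 3)) (b (a (b (l 16775432) (a (l 351281343303) (l 16776248))) (l 16774168)) (a (b (a (l 3) (l 393694144551)) (l 3)) (b (a (l 331953990631) (l 16775640)) (a (l 443623143799) (l 342154538711)))))) (a (l 3) (b (a (l 3) (l 469392943975)) (l 3))))), by decide +kernel⟩

def k5_pp_123_s : ∃ t, chk3 f_pp_123_s t 33 35 1 = true :=
  ⟨(l 3), by decide +kernel⟩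

def k6_pp_123_s : ∃ t, chk3 f_pp_123_s t 16 9 1 = true :=
  ⟨(l 3), by decide +kernel⟩

def k7_pp_123_s : ∃ t, chk3 f_pp_123_s t 17 16 1 = true :=
  ⟨(a (b (a (b (l 16669504) (l 16674736)) (l 16575280)) (b (a (l 16659424) (l 16650712)) (a (a (b (l 16691296) (a (b (l 16696728) (b (l 16678480) (l 16662064))) (l 16691496))) (l 16679800)) (l 16638112)))) (b (a (l 16602200) (l 16565576)) (a (l 16624120) (l 16592072)))), by decide +kernel⟩

def k8_pp_123_s : ∃ t, chk3 f_pp_123_s t 34 34 1 = true :=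
  ⟨(b (b (a (a (a (c (l 16710312) (l 16692752)) (b (a (l 16680080) (l 16694192)) (l 16690176))) (a (b (l 16687816) (l 16630984)) (l 16682576))) (l 16623592)) (a (a (b (a (c (l 16728880) (l 16718688)) (l 16683856)) (a (a (a (b (l 16763088) (l 16769368)) (l 16741072)) (l 16733712)) (l 16698424))) (a (b (l 16686192) (l 16700624)) (b (l 16647888) (l 16703184)))) (a (a (b (l 16679216) (l 16664856)) (l 16673976)) (l 16663248)))) (a (a (b (a (b (a (b (a (l 16772032) (l 16770376)) (l 16772856)) (b (a (l 16767792) (l 16763224)) (a (l 16771144) (l 16769168)))) (a (l 16774840) (l 16772848))) (b (a (b (l 16735048) (l 16742448)) (l 16729128)) (a (b (a (l 16770096) (l 16767672)) (l 16771328)) (a (b (l 16763296) (l 16768920)) (l 16741304))))) (a (b (a (b (a (l 364703110631) (l 16776344)) (l 437717557943)) (b (l 16774864) (l 281488126407))) (a (l 3) (b (a (l 448454981767) (l 345912635319)) (l 3)))) (b (a (l 16773520) (b (l 16770288) (l 16772144))) (a (b (l 16775560) (l 330343377287)) (l 16774208)))))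 (b (a (c (l 16748256) (l 16695920)) (c (l 16711648) (l 16695256))) (a (b (a (b (a (l 16767496) (l 16763304)) (l 16758720)) (a (l 16741296) (l 16757376))) (a (l 16772128) (b (a (l 16769464) (l 16767264)) (l 16770720)))) (b (l 16703720) (a (a (b (l 16763288) (l 16768328)) (l 16741216)) (l 16755016)))))) (a (b (a (l 16664288) (b (l 16660912) (l 16695304))) (a (c (l 16719640) (l 16706656)) (l 16674072))) (a (b (b (l 16670936) (l 16657048)) (l 16677264)) (b (l 16665736) (b (l 16674240) (l 16687592))))))), by decide +kernel⟩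

def k9_pp_123_s : ∃ t, chk3 f_pp_123_s t 34 35 1 = true :=
  ⟨(b (a (a (b (a (l 3) (b (a (l 450065592439) (b (l 289541189575) (l 388325435271))) (l 3))) (l 3)) (b (a (b (a (l 16774912) (l 16772816)) (a (b (l 334638339495) (l 446844368391)) (l 327659017447))) (b (a (l 16770320) (b (a (l 16766992) (l 16763208)) (l 16768552))) (l 16772456))) (a (b (a (l 3) (b (l 393694139063) (l 3))) (l 3)) (b (a (b (l 16775632) (l 339470167271)) (l 16774216)) (a (l 453823688711) (b (l 335175214119) (l 397452224903))))))) (a (b (a (b (a (a (l 16762048) (l 16736304)) (l 16729368)) (a (b (l 16767392) (l 16769944)) (b (l 16760760) (l 16766080)))) (b (l 16715648) (l 16708320))) (a (a (b (l 16772080) (l 16774920)) (b (l 16769624) (l 16772776))) (b (a (b (l 16764536) (l 16746880)) (b (l 16755872) (l 16762656))) (a (l 16770616) (b (l 16766712) (l 16769168)))))) (a (b (l 16683456) (a (b (l 16729176) (b (l 16760352) (l 16765432))) (l 16705864))) (c (l 16729400) (l 16649672))))) (a (l 3) (a (b (a (b (a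 (b (l 339470167287) (l 449528722903)) (l 329269630519)) (a (l 3) (l 428590746887))) (b (l 16772400) (a (l 338396437751) (l 16774168)))) (a (l 3) (b (a (l 452213076119) (l 339470177687)) (l 3)))) (b (a (b (a (l 16768896) (b (l 16763912) (l 16767128))) (l 16770936)) (b (a (l 16737944) (l 16749792)) (a (l 16766752) (b (l 16738792) (l 16764744))))) (a (b (l 16773784) (a (l 378124882759) (l 254107709863))) (a (l 16771968) (l 16769536))))))), by decide +kernel⟩

def k10_pp_123_s : ∃ t, chk3 f_pp_123_s t 35 17 1 = true :=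
  ⟨(a (b (a (b (l 16647128) (b (l 16654768) (a (l 16625480) (l 16657912)))) (l 16596424)) (b (b (a (a (l 16669472) (l 16631264)) (a (l 16639048) (l 16650504))) (a (c (l 16697640) (l 16676784)) (c (l 16668904) (l 16616088)))) (a (b (a (b (l 16715576) (l 16728600)) (l 16683712)) (a (b (a (b (l 16763240) (l 16766424)) (l 16758288)) (a (l 16769128) (l 16766064))) (b (l 16744960) (a (b (l 16759032) (l 16764064)) (l 16732400))))) (b (a (l 16687632) (l 16691880)) (a (l 16692104) (l 16696112)))))) (b (c (l 16624968) (l 16608656)) (b (a (b (l 16639200) (a (l 16631904) (l 16643344))) (l 16628672)) (a (a (l 16625040) (a (l 16654808) (l 16583416))) (b (l 16600096) (l 16565360)))))), by decide +kernel⟩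

def k11_pp_123_s : ∃ t, chk3 f_pp_123_s t 17 9 1 = true :=
  ⟨(b (a (b (a (l 3) (b (a (l 3) (b (a (b (a (l 3) (l 418927081223)) (l 3)) (b (a (l 319069085975) (l 16774056)) (a (l 445233754599) (l 324437781319)))) (a (l 3) (l 465097972039)))) (l 3))) (l 3)) (a (b (b (a (b (a (l 16772264) (b (a (l 16767448) (c (l 16743936) (l 16762568))) (l 16769480))) (a (b (a (l 362018745335) (l 16775352)) (a (l 3) (l 399599728903))) (b (l 16772200) (l 319069079303)))) (b (a (b (b (l 16728864) (l 16735368)) (a (l 16765360) (l 16760712))) (c (l 16725616) (l 16716432))) (a (a (l 16770448) (l 16767976)) (b (a (l 16762952) (l 16756456)) (a (l 16767728) (l 16764552)))))) (a (b (a (l 3) (b (a (l 436643820599) (l 333027729751)) (l 457581782775))) (l 3)) (b (a (b (l 16773440) (l 329806500071)) (l 16770664)) (a (b (l 409263393431) (l 3)) (b (l 16774592) (l 339470167543)))))) (b (a (l 3) (b (a (l 3) (l 452749942775)) (l 3))) (l 3))) (b (b (a (b (c (l 16704496) (l 16687104)) (a (b (l 16722544) (a (l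 16759712) (l 16751432))) (l 16711832))) (c (l 16666240) (l 16642264))) (a (b (a (b (a (l 16765832) (l 16762008)) (l 16767960)) (b (l 16750944) (a (l 16763648) (l 16758488)))) (a (l 16771816) (a (l 16768824) (l 16766144)))) (b (a (l 16698112) (l 16702704)) (a (b (a (l 16760896) (l 16753528)) (a (l 16766048) (l 16762624))) (b (l 16720176) (l 16752976)))))) (b (a (b (a (b (l 302962956231) (l 382956709303)) (l 16772896)) (a (l 3) (b (l 311016008151) (l 425369530295)))) (b (a (l 16768944) (b (a (l 16763920) (l 16759576)) (l 16765912))) (a (l 230485387431) (l 16769968)))) (a (l 3) (b (a (l 386714814855) (l 260013285175)) (a (l 3) (l 413558369111)))))))) (l 3)), by decide +kernel⟩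

def k12_pp_123_s : ∃ t, chk3 f_pp_123_s t 8 5 1 = true :=
  ⟨(l 3), by decide +kernel⟩

def k13_pp_123_s : ∃ t, chk3 f_pp_123_s t 9 8 1 = true :=
  ⟨(a (a (b (b (l 16509488) (a (l 16558848) (l 16524688))) (b (a (l 16586752) (l 16555568)) (a (b (l 16607584) (a (b (l 16624856) (l 16614240)) (l 16614512))) (l 16564744)))) (b (l 16327000) (b (a (l 16523784) (l 16491424)) (a (l 16555952) (l 16525600))))) (b (l 16340488) (a (b (l 16442584) (l 16479792)) (b (l 16377072) (l 16418424))))), by decide +kernel⟩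

def k14_pp_123_s : ∃ t, chk3 f_pp_123_s t 18 18 1 = true :=
  ⟨(b (a (b (a (a (a (l 16630640) (l 16572816)) (b (l 16607512) (l 16603856))) (a (l 16555336) (l 16601360))) (a (a (c (l 16720408) (l 16638832)) (b (l 16647848) (l 16649328))) (a (b (l 16617872) (l 16661176)) (b (l 16615680) (l 16610976))))) (a (b (l 16580136) (a (l 16605640) (l 16589096))) (l 16559440))) (a (a (b (a (b (a (b (l 16747752) (a (l 16761448) (l 16755136))) (l 16737224)) (a (a (l 16767088) (l 16764056)) (b (l 16754160) (a (l 16763904) (l 16760048))))) (b (l 16671560) (a (l 16743432) (l 16706664)))) (a (b (a (l 16770928) (l 16766904)) (a (l 313700369895) (l 16771808))) (b (a (b (a (l 16740592) (l 16755992)) (l 16742648)) (b (l 16743904) (l 16754696))) (a (l 16768024) (b (l 16761312) (l 16765480)))))) (a (b (c (l 16684616) (l 16660720)) (a (b (l 16712608) (b (l 16749584) (l 16758480))) (c (l 16713672) (l 16701632)))) (b (l 16622232) (c (l 16694664) (l 16675192))))) (a (b (a (l 16530272) (l 16548408)) (c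 (l 16637376) (l 16582672))) (b (l 16502776) (a (l 16579184) (l 16599224)))))), by decide +kernel⟩

def k15_pp_123_s : ∃ t, chk3 f_pp_123_s t 18 19 1 = true :=
  ⟨(a (a (b (b (a (b (a (l 445233751207) (l 317458468503)) (l 452749937991)) (b (l 16770736) (a (l 319069072823) (l 16773360)))) (a (l 3) (a (l 3) (l 379198608615)))) (l 3)) (b (b (a (b (a (l 16764336) (b (l 16754720) (l 16760952))) (l 16767808)) (b (a (l 16744480) (l 16729192)) (a (a (l 16741136) (l 16758520)) (l 16749528)))) (a (b (l 16772176) (l 338933295255)) (a (l 16768832) (b (l 16761520) (l 16767384))))) (a (b (b (l 441475653687) (l 3)) (l 3)) (b (a (l 308331654343) (l 16773592)) (a (l 3) (l 444160005799)))))) (a (b (a (b (c (l 16703544) (l 16688032)) (b (a (l 16763760) (l 16738832)) (a (l 16762976) (l 16756048)))) (b (l 16645992) (a (l 16733624) (l 16698104)))) (b (a (a (l 16770008) (l 16766216)) (b (a (l 16758112) (l 16747424)) (a (l 16765064) (l 16759680)))) (a (l 283635590855) (l 16769208)))) (a (b (c (l 16650824)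 (l 16623048)) (b (c (l 16739424) (l 16730616)) (b (a (l 16760920) (l 16753384)) (l 16763496)))) (b (l 16547160) (b (l 16706352) (a (b (l 16739848) (l 16755344)) (l 16734392))))))), by decide +kernel⟩

def k16_pp_123_s : ∃ t, chk3 f_pp_123_s t 19 9 1 = true :=
  ⟨(a (b (b (l 16452696) (a (b (l 16556520) (l 16554456)) (l 16536872))) (b (a (b (a (l 16586672) (l 16587800)) (l 16568544)) (b (l 16564704) (l 16502656))) (a (b (l 16561312) (c (l 16710136) (l 16648024))) (c (l 16633032) (l 16569352))))) (b (b (l 16456704) (l 16494056)) (a (b (l 16440688) (b (l 16554680) (l 16539048))) (b (l 16517072) (l 16431024))))), by decide +kernel⟩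

def k17_pp_123_s : ∃ t, chk3 f_pp_123_s t 9 5 1 = true :=
  ⟨(a (b (a (l 3) (b (a (b (a (b (a (l 3) (l 440401908135)) (l 3)) (b (l 294909879927) (l 437717548631))) (l 3)) (b (a (b (l 16769928) (l 289541170471)) (b (a (l 16764584) (l 16759048)) (l 16770432))) (a (l 3) (b (l 282561848871) (l 3))))) (l 3))) (l 3)) (b (a (b (a (b (a (b (b (l 16739224) (a (l 16757992) (l 16748608))) (a (l 16765472) (l 16760664))) (b (l 16719744) (a (l 16754416) (l 16744920)))) (a (b (l 16770720) (l 16755912)) (b (l 16763200) (l 16770808)))) (b (c (l 16706640) (l 16664336)) (a (b (a (l 16756096) (l 16747816)) (l 16763848)) (b (l 16728440) (a (l 16757120) (l 16749632)))))) (a (b (a (l 3) (l 399062831111)) (l 3)) (b (a (l 292762384743) (b (l 16764136) (l 16770400))) (a (l 422685160375) (l 282561835751))))) (b (a (b (c (l 16665688) (l 16627896)) (a (b (l 16702824) (l 16731112)) (l 16692048))) (b (a (l 16613024) (l 16569896)) (c (l 16673568) (l 16639136)))) (a (b (a (b (a (l 16757624) (l 16750592))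 (l 16764208)) (b (l 16732816) (l 16753360))) (l 177872016375)) (b (a (l 16689224) (l 16696288)) (a (b (l 16753016) (l 16763008)) (b (l 16732760) (l 16752120))))))) (a (l 3) (b (a (b (l 358797491319) (l 3)) (b (a (l 16770936) (l 16764256)) (l 349133821943))) (a (l 3) (b (l 348596936263) (l 3))))))), by decide +kernel⟩

def k18_pp_123_s : ∃ t, chk3 f_pp_123_s t 5 2 1 = true :=
  ⟨(b (b (a (a (b (l 16189096) (a (l 16208024) (a (l 16284992) (a (l 16259128) (l 16241840))))) (l 15890160)) (l 6)) (a (a (a (b (l 16271144) (b (l 16475000) (l 16386672))) (a (b (l 16376168) (l 16451688)) (b (a (l 16355024) (l 16131192)) (a (l 16430272) (l 16415120))))) (b (l 16175648) (l 16363152))) (b (a (l 16174496) (l 6)) (a (l 16256256) (l 16191560))))) (a (a (a (b (b (a (b (l 16461552) (l 16570976)) (b (l 16515760) (l 16490896))) (a (b (c (l 16677720) (l 16645136)) (a (l 16719912) (l 16696216))) (c (l 16576328) (l 16515800)))) (b (a (b (a (b (l 16750568) (l 16760560)) (b (l 16728696) (l 16748152)))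 (a (l 16768488) (l 16760976))) (b (l 16661032) (a (b (l 16744496) (l 16756344)) (l 16729680)))) (a (b (l 16774352) (l 335175174807)) (b (a (l 16765352) (l 16755632)) (l 16770312))))) (b (a (b (b (l 16507624) (l 16482800)) (b (a (l 16589376) (l 16572952)) (l 16599000))) (b (a (l 16503704) (b (l 16469640) (l 16505160))) (a (b (l 16558064) (l 16590776)) (b (l 16539808) (a (l 16578184) (l 16464840)))))) (a (b (b (l 16594480) (l 16656128)) (a (b (l 16739352) (l 16759032)) (b (l 16714400) (l 16744176)))) (b (a (l 16557872) (b (a (l 16608592) (l 16557872)) (a (l 16639056) (l 16627968)))) (a (b (l 16688544) (l 16717216)) (b (a (l 16667448) (l 16654608)) (a (l 16694200) (l 16679840)))))))) (b (b (a (l 16458064) (l 16416952)) (a (l 16528536) (l 16490712))) (b (a (b (l 16578464) (l 16607168)) (l 16454432)) (a (l 16583488) (l 16615384))))) (b (a (b (l 16358656) (l 16436832)) (b (l 16285320) (l 16368408))) (b (a (b (l 16492672) (l 16507168)) (l 16447320)) (a (l 16403240) (l 16431224)))))),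 by decide +kernel⟩

def k19_pp_123_s : ∃ t, chk3 f_pp_123_s t 3 2 1 = true :=
  ⟨(a (b (l 6) (a (b (b (l 6) (a (l 16304104) (l 6))) (b (a (l 16386880) (l 16328856)) (a (l 16420088) (l 16407280)))) (l 6))) (l 6)), by decide +kernel⟩

def k20_pp_123_s : ∃ t, chk3 f_pp_123_s t 1 3 1 = true :=
  ⟨(a (a (b (l 3) (b (l 3) (l 3))) (a (a (b (a (b (a (l 3) (b (b (l 16776840) (l 16750312)) (l 3))) (l 3)) (b (a (b (a (l 16771656) (b (l 16760496) (l 16768816))) (a (l 313163451735) (l 16776944))) (b (a (b (a (l 16750744) (l 16736920)) (a (l 16763800) (l 16757240))) (b (a (l 16719160) (l 16703488)) (a (l 16743152) (l 16725440)))) (b (a (l 16768312) (a (l 16759032) (l 16745512))) (a (l 16773136) (a (l 16767816) (b (l 16758904) (l 16764656))))))) (a (l 3) (b (a (b (l 16777160) (l 16773936)) (b (a (l 16772408) (l 16768904)) (l 16773984))) (a (l 3) (l 16776920)))))) (b (a (l 3) (a (l 3) (b (a (l 3) (l 16777152)) (a (b (l 16770552) (l 16775808)) (b (l 16774224) (l 16769856)))))) (a (b (l 3)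 (l 1)) (l 1)))) (b (b (b (b (l 16625568) (l 16689624)) (b (l 16709752) (l 16727592))) (b (b (l 16740416) (l 16745136)) (a (l 16759832) (l 16732712)))) (b (b (b (l 16745256) (l 16742664)) (b (l 16738344) (l 16731984))) (l 1)))) (b (b (b (a (l 16579376) (l 16567320)) (a (l 16662496) (l 16608328))) (a (b (l 16753104) (l 16692856)) (b (l 16637224) (l 16639520)))) (b (b (b (l 16679232) (l 16671232)) (l 1)) (l 1))))) (b (a (b (a (b (a (l 16515984) (l 16464616)) (l 16425008)) (b (a (l 16414160) (l 6)) (l 16423016))) (a (b (a (l 16582040) (l 16525688)) (a (l 16584176) (l 16525528))) (b (l 16436280) (l 1)))) (l 6)) (l 1))), by decide +kernel⟩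

theorem s21_pp_123_s : ∃ t, chk3 f_pp_123_s t 18 9 1 = true := ex3_b k14_pp_123_s k15_pp_123_s

theorem s22_pp_123_s : ∃ t, chk3 f_pp_123_s t 9 9 1 = true := ex3_a s21_pp_123_s k16_pp_123_s

theorem s23_pp_123_s : ∃ t, chk3 f_pp_123_s t 9 4 1 = true := ex3_b k13_pp_123_s s22_pp_123_s

theorem s24_pp_123_s : ∃ t, chk3 f_pp_123_s t 9 2 1 = true := ex3_b s23_pp_123_s k17_pp_123_s

theorem s25_pp_123_s : ∃ t, chk3 f_pp_123_s t 34 17 1 = true := ex3_b k8_pp_123_s k9_pp_123_s

theorem s26_pp_123_s : ∃ t, chk3 f_pp_123_s t 17 17 1 = true := ex3_a s25_pp_123_s k10_pp_123_s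

theorem s27_pp_123_s : ∃ t, chk3 f_pp_123_s t 17 8 1 = true := ex3_b k7_pp_123_s s26_pp_123_s

theorem s28_pp_123_s : ∃ t, chk3 f_pp_123_s t 17 4 1 = true := ex3_b s27_pp_123_s k11_pp_123_s

theorem s29_pp_123_s : ∃ t, chk3 f_pp_123_s t 67 34 1 = true := ex3_b k3_pp_123_s k4_pp_123_s

theorem s30_pp_123_s : ∃ t, chk3 f_pp_123_s t 33 34 1 = true := ex3_a k2_pp_123_s s29_pp_123_s

theorem s31_pp_123_s : ∃ t, chk3 f_pp_123_s t 33 17 1 = true := ex3_b s30_pp_123_s k5_pp_123_s

theorem s32_pp_123_s : ∃ t, chk3 f_pp_123_s t 33 8 1 = true := ex3_b k1_pp_123_s s31_pp_123_s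

theorem s33_pp_123_s : ∃ t, chk3 f_pp_123_s t 16 8 1 = true := ex3_a k0_pp_123_s s32_pp_123_s

theorem s34_pp_123_s : ∃ t, chk3 f_pp_123_s t 16 4 1 = true := ex3_b s33_pp_123_s k6_pp_123_s

theorem s35_pp_123_s : ∃ t, chk3 f_pp_123_s t 8 4 1 = true := ex3_a s34_pp_123_s s28_pp_123_s

theorem s36_pp_123_s : ∃ t, chk3 f_pp_123_s t 8 2 1 = true := ex3_b s35_pp_123_s k12_pp_123_s

theorem s37_pp_123_s : ∃ t, chk3 f_pp_123_s t 4 2 1 = true := ex3_a s36_pp_123_s s24_pp_123_s

theorem s38_pp_123_s : ∃ t, chk3 f_pp_123_s t 2 2 1 = true := ex3_a s37_pp_123_s k18_pp_123_s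

theorem s39_pp_123_s : ∃ t, chk3 f_pp_123_s t 1 2 1 = true := ex3_a s38_pp_123_s k19_pp_123_s

theorem s40_pp_123_s : ∃ t, chk3 f_pp_123_s t 1 1 1 = true := ex3_b s39_pp_123_s k20_pp_123_s

theorem c_pp_123_s : CertNE 536870912 536870912 0 1230186008 1020054732 13421774 3 eng mog cd0q1 cd5q3 pd2 false true true .npn 1 2 3
    ndB0q1 ndB5q3 pcB2 cut_pp_123_s Ext.none :=
  certNE2 (fam := false) (s1 := true) (s2 := true) (a := 1) (b := 2) (c := 3) (cn := .npn) (n1 := ndB0q1) (n2 := ndB5q3) (pc := pcB2) (cut := cut_pp_123_s) (xt := Ext.none) (P1 := 536870912) (W1 := 536870912) (P2 := 0) (W2 := 1230186008) (P3 := 1020054732) (W3 := 13421774) (N0 := 3) (En := eng) (mo := mog) (C1 := cd0q1) (C2 := cd5q3) (C3 := pd2)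
    rfl (fun _ => rfl) s40_pp_123_s

noncomputable def cut_pp_133_s : Cut := Cut.of [[⟨4, 0, 0, 1449551462⟩]]

noncomputable def f_pp_133_s : ℕ → ℕ → ℕ → ℕ → Bool := onCell 1610612736 536870912 0 1230186008 1020054732 13421774
    (rowNE 3 eng mog cd0q1 cd5q3 pd3 2 false true true .dn 1 3 3 (qsf 536870912 536870912 0 1230186008 3) ndB0q1 ndB5q3 pcB3 cut_pp_133_s Ext.none)

def k0_pp_133_s : ∃ t, chk3 f_pp_133_s t 1 1 1 = true :=
  ⟨(b (l 6) (l 1)), by decide +kernel⟩

theorem c_pp_133_s : CertNE 536870912 536870912 0 1230186008 1020054732 13421774 3 eng mog cd0q1 cd5q3 pd3 false true true .dn 1 3 3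
    ndB0q1 ndB5q3 pcB3 cut_pp_133_s Ext.none :=
  certNE2 (fam := false) (s1 := true) (s2 := true) (a := 1) (b := 3) (c := 3) (cn := .dn) (n1 := ndB0q1) (n2 := ndB5q3) (pc := pcB3) (cut := cut_pp_133_s) (xt := Ext.none) (P1 := 536870912) (W1 := 536870912) (P2 := 0) (W2 := 1230186008) (P3 := 1020054732) (W3 := 13421774) (N0 := 3) (En := eng) (mo := mog) (C1 := cd0q1) (C2 := cd5q3) (C3 := pd3)
    rfl (fun _ => rfl) k0_pp_133_s

noncomputable def cut_pp_202_s : Cut := Cut.of [[⟨4, 0, 0, 1449551462⟩]]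

noncomputable def f_pp_202_s : ℕ → ℕ → ℕ → ℕ → Bool := onCell 0 536870912 1073741824 536870912 1020054732 13421774
    (rowNE 3 eng mog cd0q2 cd5q2 pd0 0 false true true .pp 2 0 2 (qsf 0 536870912 1073741824 536870912 0) ndB0q2 ndB5q2 pcB0 cut_pp_202_s Ext.none)

def k0_pp_202_s : ∃ t, chk3 f_pp_202_s t 1 1 1 = true :=
  ⟨(l 5), by decide +kernel⟩

theorem c_pp_202_s : CertNE 0 536870912 1073741824 536870912 1020054732 13421774 3 eng mog cd0q2 cd5q2 pd0 false true true .pp 2 0 2
    ndB0q2 ndB5q2 pcB0 cut_pp_202_s Ext.none :=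
  certNE0 (fam := false) (s1 := true) (s2 := true) (a := 2) (b := 0) (c := 2) (cn := .pp) (n1 := ndB0q2) (n2 := ndB5q2) (pc := pcB0) (cut := cut_pp_202_s) (xt := Ext.none) (P1 := 0) (W1 := 536870912) (P2 := 1073741824) (W2 := 536870912) (P3 := 1020054732) (W3 := 13421774) (N0 := 3) (En := eng) (mo := mog) (C1 := cd0q2) (C2 := cd5q2) (C3 := pd0)
    rfl k0_pp_202_s

noncomputable def cut_pp_203_s : Cut := Cut.of [[⟨4, 0, 0, 1449551462⟩]]

noncomputable def f_pp_203_s : ℕ → ℕ → ℕ → ℕ → Bool := onCell 0 536870912 0 1230186008 1020054732 13421774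
    (rowNE 3 eng mog cd0q2 cd5q3 pd0 0 false true true .up 2 0 3 (qsf 0 536870912 0 1230186008 0) ndB0q2 ndB5q3 pcB0 cut_pp_203_s Ext.none)

def k0_pp_203_s : ∃ t, chk3 f_pp_203_s t 1 1 1 = true :=
  ⟨(b (l 2) (a (l 5) (b (l 2) (l 3)))), by decide +kernel⟩

theorem c_pp_203_s : CertNE 0 536870912 0 1230186008 1020054732 13421774 3 eng mog cd0q2 cd5q3 pd0 false true true .up 2 0 3
    ndB0q2 ndB5q3 pcB0 cut_pp_203_s Ext.none :=
  certNE0 (fam := false) (s1 := true) (s2 := true) (a := 2) (b := 0) (c := 3) (cn := .up) (n1 := ndB0q2) (n2 := ndB5q3) (pc := pcB0) (cut := cut_pp_203_s) (xt := Ext.none) (P1 := 0) (W1 := 536870912) (P2 := 0) (W2 := 1230186008) (P3 := 1020054732) (W3 := 13421774) (N0 := 3) (En := eng) (mo := mog) (C1 := cd0q2) (C2 := cd5q3) (C3 := pd0)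
    rfl k0_pp_203_s

noncomputable def cut_pp_213_s : Cut := Cut.of [[⟨4, 0, 0, 1449551462⟩], [⟨0, 1, 0, 26738688⟩, ⟨1, 1, 0, 26738688⟩, ⟨2, 2, 0, 2621440⟩]]

noncomputable def f_pp_213_s : ℕ → ℕ → ℕ → ℕ → Bool := onCell 0 536870912 0 1230186008 1020054732 13421774
    (rowNE 3 eng mog cd0q2 cd5q3 pd1 0 false true true .pnn 2 1 3 (qsf 0 536870912 0 1230186008 1) ndB0q2 ndB5q3 pcB1 cut_pp_213_s Ext.none)

def k0_pp_213_s : ∃ t, chk3 f_pp_213_s t 1 1 1 = true :=
  ⟨(b (a (l 3) (a (l 3) (b (a (l 3) (b (a (l 3) (b (l 14) (l 3))) (l 3))) (l 3)))) (a (l 5) (b (l 3) (l 3)))), by decide +kernel⟩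

theorem c_pp_213_s : CertNE 0 536870912 0 1230186008 1020054732 13421774 3 eng mog cd0q2 cd5q3 pd1 false true true .pnn 2 1 3
    ndB0q2 ndB5q3 pcB1 cut_pp_213_s Ext.none :=
  certNE0 (fam := false) (s1 := true) (s2 := true) (a := 2) (b := 1) (c := 3) (cn := .pnn) (n1 := ndB0q2) (n2 := ndB5q3) (pc := pcB1) (cut := cut_pp_213_s) (xt := Ext.none) (P1 := 0) (W1 := 536870912) (P2 := 0) (W2 := 1230186008) (P3 := 1020054732) (W3 := 13421774) (N0 := 3) (En := eng) (mo := mog) (C1 := cd0q2) (C2 := cd5q3) (C3 := pd1)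
    rfl k0_pp_213_s

noncomputable def cut_pm_001_s : Cut := Cut.of [[⟨4, 0, 0, 1449551462⟩]]

noncomputable def f_pm_001_s : ℕ → ℕ → ℕ → ℕ → Bool := onCell 0 536870912 536870912 536870912 1020054732 13421774
    (rowNE 3 eng mog cd0q0 cd5q1 pd0 0 false true false .up 0 0 1 (qsf 0 536870912 536870912 536870912 0) ndB0q0 ndB5q1 pcB0 cut_pm_001_s Ext.none)

def k0_pm_001_s : ∃ t, chk3 f_pm_001_s t 1 1 1 = true :=
  ⟨(l 4), by decide +kernel⟩

theorem c_pm_001_s : CertNE 0 536870912 536870912 536870912 1020054732 13421774 3 eng mog cd0q0 cd5q1 pd0 false true false .up 0 0 1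
    ndB0q0 ndB5q1 pcB0 cut_pm_001_s Ext.none :=
  certNE0 (fam := false) (s1 := true) (s2 := false) (a := 0) (b := 0) (c := 1) (cn := .up) (n1 := ndB0q0) (n2 := ndB5q1) (pc := pcB0) (cut := cut_pm_001_s) (xt := Ext.none) (P1 := 0) (W1 := 536870912) (P2 := 536870912) (W2 := 536870912) (P3 := 1020054732) (W3 := 13421774) (N0 := 3) (En := eng) (mo := mog) (C1 := cd0q0) (C2 := cd5q1) (C3 := pd0)
    rfl k0_pm_001_s

noncomputable def cut_pm_011_s : Cut := Cut.of [[⟨4, 0, 0, 1449551462⟩]]

noncomputable def f_pm_011_s : ℕ → ℕ → ℕ → ℕ → Bool := onCell 0 536870912 536870912 536870912 1020054732 13421774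
    (rowNE 3 eng mog cd0q0 cd5q1 pd1 0 false true false .pnn 0 1 1 (qsf 0 536870912 536870912 536870912 1) ndB0q0 ndB5q1 pcB1 cut_pm_011_s Ext.none)

def k0_pm_011_s : ∃ t, chk3 f_pm_011_s t 1 1 1 = true :=
  ⟨(l 4), by decide +kernel⟩

theorem c_pm_011_s : CertNE 0 536870912 536870912 536870912 1020054732 13421774 3 eng mog cd0q0 cd5q1 pd1 false true false .pnn 0 1 1
    ndB0q0 ndB5q1 pcB1 cut_pm_011_s Ext.none :=
  certNE0 (fam := false) (s1 := true) (s2 := false) (a := 0) (b := 1) (c := 1) (cn := .pnn) (n1 := ndB0q0) (n2 := ndB5q1) (pc := pcB1) (cut := cut_pm_011_s) (xt := Ext.none) (P1 := 0) (W1 := 536870912) (P2 := 536870912) (W2 := 536870912) (P3 := 1020054732) (W3 := 13421774) (N0 := 3) (En := eng) (mo := mog) (C1 := cd0q0) (C2 := cd5q1) (C3 := pd1)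
    rfl k0_pm_011_s

noncomputable def cut_pm_012_s : Cut := Cut.of [[⟨4, 0, 0, 1449551462⟩]]

noncomputable def f_pm_012_s : ℕ → ℕ → ℕ → ℕ → Bool := onCell 0 536870912 1073741824 536870912 1020054732 13421774
    (rowNE 3 eng mog cd0q0 cd5q2 pd1 0 false true false .pnp 0 1 2 (qsf 0 536870912 1073741824 536870912 1) ndB0q0 ndB5q2 pcB1 cut_pm_012_s Ext.none)

def k0_pm_012_s : ∃ t, chk3 f_pm_012_s t 1 1 1 = true :=
  ⟨(l 4), by decide +kernel⟩

theorem c_pm_012_s : CertNE 0 536870912 1073741824 536870912 1020054732 13421774 3 eng mog cd0q0 cd5q2 pd1 false true false .pnp 0 1 2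
    ndB0q0 ndB5q2 pcB1 cut_pm_012_s Ext.none :=
  certNE0 (fam := false) (s1 := true) (s2 := false) (a := 0) (b := 1) (c := 2) (cn := .pnp) (n1 := ndB0q0) (n2 := ndB5q2) (pc := pcB1) (cut := cut_pm_012_s) (xt := Ext.none) (P1 := 0) (W1 := 536870912) (P2 := 1073741824) (W2 := 536870912) (P3 := 1020054732) (W3 := 13421774) (N0 := 3) (En := eng) (mo := mog) (C1 := cd0q0) (C2 := cd5q2) (C3 := pd1)
    rfl k0_pm_012_s

noncomputable def cut_pm_022_s : Cut := Cut.of [[⟨4, 0, 0, 1449551462⟩]]

noncomputable def f_pm_022_s : ℕ → ℕ → ℕ → ℕ → Bool := onCell 0 536870912 1073741824 536870912 1020054732 13421774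
    (rowNE 3 eng mog cd0q0 cd5q2 pd2 0 false true false .pp 0 2 2 (qsf 0 536870912 1073741824 536870912 2) ndB0q0 ndB5q2 pcB2 cut_pm_022_s Ext.none)

def k0_pm_022_s : ∃ t, chk3 f_pm_022_s t 1 1 1 = true :=
  ⟨(l 4), by decide +kernel⟩

theorem c_pm_022_s : CertNE 0 536870912 1073741824 536870912 1020054732 13421774 3 eng mog cd0q0 cd5q2 pd2 false true false .pp 0 2 2
    ndB0q0 ndB5q2 pcB2 cut_pm_022_s Ext.none :=
  certNE0 (fam := false) (s1 := true) (s2 := false) (a := 0) (b := 2) (c := 2) (cn := .pp) (n1 := ndB0q0) (n2 := ndB5q2) (pc := pcB2) (cut := cut_pm_022_s) (xt := Ext.none) (P1 := 0) (W1 := 536870912) (P2 := 1073741824) (W2 := 536870912) (P3 := 1020054732) (W3 := 13421774) (N0 := 3) (En := eng) (mo := mog) (C1 := cd0q0) (C2 := cd5q2) (C3 := pd2)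
    rfl k0_pm_022_s

noncomputable def cut_pm_023_s : Cut := Cut.of [[⟨4, 0, 0, 1449551462⟩]]

noncomputable def f_pm_023_s : ℕ → ℕ → ℕ → ℕ → Bool := onCell 0 536870912 0 1230186008 1020054732 13421774
    (rowNE 3 eng mog cd0q0 cd5q3 pd2 0 false true false .up 0 2 3 (qsf 0 536870912 0 1230186008 2) ndB0q0 ndB5q3 pcB2 cut_pm_023_s Ext.none)

def k0_pm_023_s : ∃ t, chk3 f_pm_023_s t 1 1 1 = true :=
  ⟨(l 6), by decide +kernel⟩

theorem c_pm_023_s : CertNE 0 536870912 0 1230186008 1020054732 13421774 3 eng mog cd0q0 cd5q3 pd2 false true false .up 0 2 3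
    ndB0q0 ndB5q3 pcB2 cut_pm_023_s Ext.none :=
  certNE0 (fam := false) (s1 := true) (s2 := false) (a := 0) (b := 2) (c := 3) (cn := .up) (n1 := ndB0q0) (n2 := ndB5q3) (pc := pcB2) (cut := cut_pm_023_s) (xt := Ext.none) (P1 := 0) (W1 := 536870912) (P2 := 0) (W2 := 1230186008) (P3 := 1020054732) (W3 := 13421774) (N0 := 3) (En := eng) (mo := mog) (C1 := cd0q0) (C2 := cd5q3) (C3 := pd2)
    rfl k0_pm_023_s

noncomputable def cut_pm_033_s : Cut := Cut.of [[⟨4, 0, 0, 1449551462⟩]]

noncomputable def f_pm_033_s : ℕ → ℕ → ℕ → ℕ → Bool := onCell 0 536870912 0 1230186008 1020054732 13421774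
    (rowNE 3 eng mog cd0q0 cd5q3 pd3 0 false true false .pnn 0 3 3 (qsf 0 536870912 0 1230186008 3) ndB0q0 ndB5q3 pcB3 cut_pm_033_s Ext.none)

def k0_pm_033_s : ∃ t, chk3 f_pm_033_s t 1 1 1 = true :=
  ⟨(l 6), by decide +kernel⟩

theorem c_pm_033_s : CertNE 0 536870912 0 1230186008 1020054732 13421774 3 eng mog cd0q0 cd5q3 pd3 false true false .pnn 0 3 3
    ndB0q0 ndB5q3 pcB3 cut_pm_033_s Ext.none :=
  certNE0 (fam := false) (s1 := true) (s2 := false) (a := 0) (b := 3) (c := 3) (cn := .pnn) (n1 := ndB0q0) (n2 := ndB5q3) (pc := pcB3) (cut := cut_pm_033_s) (xt := Ext.none) (P1 := 0) (W1 := 536870912) (P2 := 0) (W2 := 1230186008) (P3 := 1020054732) (W3 := 13421774) (N0 := 3) (En := eng) (mo := mog) (C1 := cd0q0) (C2 := cd5q3) (C3 := pd3)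
    rfl k0_pm_033_s

noncomputable def cut_pm_101_s : Cut := Cut.of [[⟨4, 0, 0, 1449551462⟩]]

noncomputable def f_pm_101_s : ℕ → ℕ → ℕ → ℕ → Bool := onCell 536870912 536870912 536870912 536870912 1020054732 13421774
    (rowNE 3 eng mog cd0q1 cd5q1 pd0 0 false true false .npn 1 0 1 (qsf 536870912 536870912 536870912 536870912 0) ndB0q1 ndB5q1 pcB0 cut_pm_101_s Ext.none)

def k0_pm_101_s : ∃ t, chk3 f_pm_101_s t 1 1 1 = true :=
  ⟨(l 4), by decide +kernel⟩

theorem c_pm_101_s : CertNE 536870912 536870912 536870912 536870912 1020054732 13421774 3 eng mog cd0q1 cd5q1 pd0 false true false .npn 1 0 1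
    ndB0q1 ndB5q1 pcB0 cut_pm_101_s Ext.none :=
  certNE0 (fam := false) (s1 := true) (s2 := false) (a := 1) (b := 0) (c := 1) (cn := .npn) (n1 := ndB0q1) (n2 := ndB5q1) (pc := pcB0) (cut := cut_pm_101_s) (xt := Ext.none) (P1 := 536870912) (W1 := 536870912) (P2 := 536870912) (W2 := 536870912) (P3 := 1020054732) (W3 := 13421774) (N0 := 3) (En := eng) (mo := mog) (C1 := cd0q1) (C2 := cd5q1) (C3 := pd0)
    rfl k0_pm_101_s

noncomputable def cut_pm_102_s : Cut := Cut.of [[⟨4, 0, 0, 1449551462⟩]]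

noncomputable def f_pm_102_s : ℕ → ℕ → ℕ → ℕ → Bool := onCell 536870912 536870912 1073741824 536870912 1020054732 13421774
    (rowNE 3 eng mog cd0q1 cd5q2 pd0 0 false true false .npp 1 0 2 (qsf 536870912 536870912 1073741824 536870912 0) ndB0q1 ndB5q2 pcB0 cut_pm_102_s Ext.none)

def k0_pm_102_s : ∃ t, chk3 f_pm_102_s t 1 1 1 = true :=
  ⟨(l 6), by decide +kernel⟩

theorem c_pm_102_s : CertNE 536870912 536870912 1073741824 536870912 1020054732 13421774 3 eng mog cd0q1 cd5q2 pd0 false true false .npp 1 0 2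
    ndB0q1 ndB5q2 pcB0 cut_pm_102_s Ext.none :=
  certNE0 (fam := false) (s1 := true) (s2 := false) (a := 1) (b := 0) (c := 2) (cn := .npp) (n1 := ndB0q1) (n2 := ndB5q2) (pc := pcB0) (cut := cut_pm_102_s) (xt := Ext.none) (P1 := 536870912) (W1 := 536870912) (P2 := 1073741824) (W2 := 536870912) (P3 := 1020054732) (W3 := 13421774) (N0 := 3) (En := eng) (mo := mog) (C1 := cd0q1) (C2 := cd5q2) (C3 := pd0)
    rfl k0_pm_102_s

noncomputable def cut_pm_112_s : Cut := Cut.of [[⟨4, 0, 0, 1449551462⟩]]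

noncomputable def f_pm_112_s : ℕ → ℕ → ℕ → ℕ → Bool := onCell 536870912 536870912 1073741824 536870912 1020054732 13421774
    (rowNE 3 eng mog cd0q1 cd5q2 pd1 0 false true false .dn 1 1 2 (qsf 536870912 536870912 1073741824 536870912 1) ndB0q1 ndB5q2 pcB1 cut_pm_112_s Ext.none)

def k0_pm_112_s : ∃ t, chk3 f_pm_112_s t 1 1 1 = true :=
  ⟨(l 6), by decide +kernel⟩

theorem c_pm_112_s : CertNE 536870912 536870912 1073741824 536870912 1020054732 13421774 3 eng mog cd0q1 cd5q2 pd1 false true false .dn 1 1 2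
    ndB0q1 ndB5q2 pcB1 cut_pm_112_s Ext.none :=
  certNE0 (fam := false) (s1 := true) (s2 := false) (a := 1) (b := 1) (c := 2) (cn := .dn) (n1 := ndB0q1) (n2 := ndB5q2) (pc := pcB1) (cut := cut_pm_112_s) (xt := Ext.none) (P1 := 536870912) (W1 := 536870912) (P2 := 1073741824) (W2 := 536870912) (P3 := 1020054732) (W3 := 13421774) (N0 := 3) (En := eng) (mo := mog) (C1 := cd0q1) (C2 := cd5q2) (C3 := pd1)
    rfl k0_pm_112_s

noncomputable def cut_pm_113_s : Cut := Cut.of [[⟨4, 0, 0, 1449551462⟩], [⟨0, 1, 0, 26738688⟩, ⟨1, 1, 0, 26738688⟩, ⟨2, 2, 0, 2621440⟩]]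

noncomputable def f_pm_113_s : ℕ → ℕ → ℕ → ℕ → Bool := onCell 536870912 536870912 0 1230186008 1020054732 13421774
    (rowNE 3 eng mog cd0q1 cd5q3 pd1 0 false true false .nn 1 1 3 (qsf 536870912 536870912 0 1230186008 1) ndB0q1 ndB5q3 pcB1 cut_pm_113_s Ext.none)

def k0_pm_113_s : ∃ t, chk3 f_pm_113_s t 1 1 1 = true :=
  ⟨(b (a (l 2) (a (l 2) (b (a (l 2) (a (l 2) (a (b (l 2) (b (l 2) (l 16619040))) (b (b (l 14) (a (l 2) (b (l 16621656) (l 16632824)))) (b (a (b (l 16540872) (l 16552488)) (b (l 16602568) (l 16584992))) (l 16485504)))))) (a (l 6) (b (a (l 6) (b (a (l 6) (l 16795256)) (l 6))) (l 6)))))) (b (l 6) (l 6))), by decide +kernel⟩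

theorem c_pm_113_s : CertNE 536870912 536870912 0 1230186008 1020054732 13421774 3 eng mog cd0q1 cd5q3 pd1 false true false .nn 1 1 3
    ndB0q1 ndB5q3 pcB1 cut_pm_113_s Ext.none :=
  certNE0 (fam := false) (s1 := true) (s2 := false) (a := 1) (b := 1) (c := 3) (cn := .nn) (n1 := ndB0q1) (n2 := ndB5q3) (pc := pcB1) (cut := cut_pm_113_s) (xt := Ext.none) (P1 := 536870912) (W1 := 536870912) (P2 := 0) (W2 := 1230186008) (P3 := 1020054732) (W3 := 13421774) (N0 := 3) (En := eng) (mo := mog) (C1 := cd0q1) (C2 := cd5q3) (C3 := pd1)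
    rfl k0_pm_113_s

noncomputable def cut_pm_123_s : Cut := Cut.of [[⟨4, 0, 0, 1449551462⟩], [⟨0, 1, 0, 26738688⟩, ⟨1, 1, 0, 26738688⟩, ⟨2, 2, 0, 2621440⟩]]

noncomputable def f_pm_123_s : ℕ → ℕ → ℕ → ℕ → Bool := onCell 1073741824 536870912 0 1230186008 1020054732 13421774
    (rowNE 3 eng mog cd0q1 cd5q3 pd2 2 false true false .npn 1 2 3 (qsf 536870912 536870912 0 1230186008 2) ndB0q1 ndB5q3 pcB2 cut_pm_123_s Ext.none)

def k0_pm_123_s : ∃ t, chk3 f_pm_123_s t 1 1 1 = true :=
  ⟨(b (a (b (a (a (b (a (b (a (l 14) (b (a (l 14) (l 16607544)) (l 16688656))) (a (b (l 16747408) (l 16714480)) (l 16635272))) (b (a (b (l 16590160) (l 16599568)) (l 16531632)) (a (l 16536184) (l 16439352)))) (a (b (a (a (l 16679816) (l 16625944)) (l 16519952)) (a (l 16489856) (l 16428416))) (b (l 16378296) (l 6)))) (b (b (a (l 16404616) (l 16231776)) (a (l 16294584) (l 6))) (l 6))) (b (l 6) (l 6))) (b (l 6) (l 6))) (l 6)) (l 6)), by decide +kernel⟩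

theorem c_pm_123_s : CertNE 536870912 536870912 0 1230186008 1020054732 13421774 3 eng mog cd0q1 cd5q3 pd2 false true false .npn 1 2 3
    ndB0q1 ndB5q3 pcB2 cut_pm_123_s Ext.none :=
  certNE2 (fam := false) (s1 := true) (s2 := false) (a := 1) (b := 2) (c := 3) (cn := .npn) (n1 := ndB0q1) (n2 := ndB5q3) (pc := pcB2) (cut := cut_pm_123_s) (xt := Ext.none) (P1 := 536870912) (W1 := 536870912) (P2 := 0) (W2 := 1230186008) (P3 := 1020054732) (W3 := 13421774) (N0 := 3) (En := eng) (mo := mog) (C1 := cd0q1) (C2 := cd5q3) (C3 := pd2)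
    rfl (fun _ => rfl) k0_pm_123_s

noncomputable def cut_pm_133_s : Cut := Cut.of [[⟨4, 0, 0, 1449551462⟩]]

noncomputable def f_pm_133_s : ℕ → ℕ → ℕ → ℕ → Bool := onCell 1610612736 536870912 0 1230186008 1020054732 13421774
    (rowNE 3 eng mog cd0q1 cd5q3 pd3 2 false true false .dn 1 3 3 (qsf 536870912 536870912 0 1230186008 3) ndB0q1 ndB5q3 pcB3 cut_pm_133_s Ext.none)

def k0_pm_133_s : ∃ t, chk3 f_pm_133_s t 1 1 1 = true :=
  ⟨(l 6), by decide +kernel⟩

theorem c_pm_133_s : CertNE 536870912 536870912 0 1230186008 1020054732 13421774 3 eng mog cd0q1 cd5q3 pd3 false true false .dn 1 3 3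
    ndB0q1 ndB5q3 pcB3 cut_pm_133_s Ext.none :=
  certNE2 (fam := false) (s1 := true) (s2 := false) (a := 1) (b := 3) (c := 3) (cn := .dn) (n1 := ndB0q1) (n2 := ndB5q3) (pc := pcB3) (cut := cut_pm_133_s) (xt := Ext.none) (P1 := 536870912) (W1 := 536870912) (P2 := 0) (W2 := 1230186008) (P3 := 1020054732) (W3 := 13421774) (N0 := 3) (En := eng) (mo := mog) (C1 := cd0q1) (C2 := cd5q3) (C3 := pd3)
    rfl (fun _ => rfl) k0_pm_133_s

noncomputable def cut_pm_202_s : Cut := Cut.of [[⟨4, 0, 0, 1449551462⟩]]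

noncomputable def f_pm_202_s : ℕ → ℕ → ℕ → ℕ → Bool := onCell 0 536870912 1073741824 536870912 1020054732 13421774
    (rowNE 3 eng mog cd0q2 cd5q2 pd0 0 false true false .pp 2 0 2 (qsf 0 536870912 1073741824 536870912 0) ndB0q2 ndB5q2 pcB0 cut_pm_202_s Ext.none)

def k0_pm_202_s : ∃ t, chk3 f_pm_202_s t 1 1 1 = true :=
  ⟨(a (b (l 6) (b (l 6) (l 6))) (l 6)), by decide +kernel⟩

theorem c_pm_202_s : CertNE 0 536870912 1073741824 536870912 1020054732 13421774 3 eng mog cd0q2 cd5q2 pd0 false true false .pp 2 0 2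
    ndB0q2 ndB5q2 pcB0 cut_pm_202_s Ext.none :=
  certNE0 (fam := false) (s1 := true) (s2 := false) (a := 2) (b := 0) (c := 2) (cn := .pp) (n1 := ndB0q2) (n2 := ndB5q2) (pc := pcB0) (cut := cut_pm_202_s) (xt := Ext.none) (P1 := 0) (W1 := 536870912) (P2 := 1073741824) (W2 := 536870912) (P3 := 1020054732) (W3 := 13421774) (N0 := 3) (En := eng) (mo := mog) (C1 := cd0q2) (C2 := cd5q2) (C3 := pd0)
    rfl k0_pm_202_s

noncomputable def cut_pm_203_s : Cut := Cut.of [[⟨4, 0, 0, 1449551462⟩]]

noncomputable def f_pm_203_s : ℕ → ℕ → ℕ → ℕ → Bool := onCell 0 536870912 0 1230186008 1020054732 13421774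
    (rowNE 3 eng mog cd0q2 cd5q3 pd0 0 false true false .up 2 0 3 (qsf 0 536870912 0 1230186008 0) ndB0q2 ndB5q3 pcB0 cut_pm_203_s Ext.none)

def k0_pm_203_s : ∃ t, chk3 f_pm_203_s t 1 1 1 = true :=
  ⟨(b (l 2) (b (l 2) (a (b (b (l 2) (a (a (b (l 2) (l 378057282759)) (l 16570608)) (a (l 16478192) (l 6)))) (a (b (a (b (a (l 16618552) (l 16578912)) (l 16563720)) (b (l 16516464) (l 6))) (a (b (l 16529936) (a (l 16513528) (l 6))) (l 6))) (l 6))) (l 6)))), by decide +kernel⟩

theorem c_pm_203_s : CertNE 0 536870912 0 1230186008 1020054732 13421774 3 eng mog cd0q2 cd5q3 pd0 false true false .up 2 0 3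
    ndB0q2 ndB5q3 pcB0 cut_pm_203_s Ext.none :=
  certNE0 (fam := false) (s1 := true) (s2 := false) (a := 2) (b := 0) (c := 3) (cn := .up) (n1 := ndB0q2) (n2 := ndB5q3) (pc := pcB0) (cut := cut_pm_203_s) (xt := Ext.none) (P1 := 0) (W1 := 536870912) (P2 := 0) (W2 := 1230186008) (P3 := 1020054732) (W3 := 13421774) (N0 := 3) (En := eng) (mo := mog) (C1 := cd0q2) (C2 := cd5q3) (C3 := pd0)
    rfl k0_pm_203_s

end Pool.Agent.Strip051.G.I9500_9625.Tab.CS.BB05

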