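import Pool.Agent.Strip051.G.I9500_9625.Tab

/-! # Certificates B0 (generated) -/

set_option linter.all false
set_option maxRecDepth 100000

namespace Pool.Agent.Strip051.G.I9500_9625.Tab.C.BA00

open Pool.Agent.Strip051.PB Pool.Agent.Strip051.PB.T
open Pool.Agent.Strip051.G.I9500_9625.Tab

noncomputable def cut_pp_001 : Cut := Cut.of [[⟨3, 0, 0, 1449551462⟩], [⟨4, 0, 0, 2845415833⟩]]

noncomputable def f_pp_001 : ℕ → ℕ → ℕ → ℕ → Bool := onCell 0 536870912 0 536870912 1020054732 13421774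
    (rowB 3 eng mog cd0q0 cd0q0 pd1 0 true true true .up 0 0 1 (qsf 0 536870912 0 536870912 1) ndB0q0 ndB0q0 pcB1 cut_pp_001 Ext.none)

def k0_pp_001 : ∃ t, chk3 f_pp_001 t 1 1 1 = true :=
  ⟨(l 4), by decide +kernel⟩

theorem c_pp_001 : CertB 0 536870912 0 536870912 1020054732 13421774 3 eng mog cd0q0 cd0q0 pd1 true true true .up 0 0 1
    ndB0q0 ndB0q0 pcB1 cut_pp_001 Ext.none :=
  certB0 (fam := true) (s1 := true) (s2 := true) (a := 0) (b := 0) (c := 1) (cn := .up) (n1 := ndB0q0) (n2 := ndB0q0) (pc := pcB1) (cut := cut_pp_001) (xt := Ext.none) (P1 := 0) (W1 := 536870912) (P2 := 0) (W2 := 536870912) (P3 := 1020054732) (W3 := 13421774) (N0 := 3) (En := eng) (mo := mog) (C1 := cd0q0) (C2 := cd0q0) (C3 := pd1)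
    rfl k0_pp_001

noncomputable def cut_pp_011 : Cut := Cut.of [[⟨3, 0, 0, 1449551462⟩], [⟨4, 0, 0, 2845415833⟩], [⟨0, 0, 0, 38347922⟩, ⟨1, 1, 0, 38347922⟩, ⟨2, 1, 0, 38347922⟩]]

noncomputable def f_pp_011 : ℕ → ℕ → ℕ → ℕ → Bool := onCell 0 536870912 536870912 536870912 1020054732 13421774
    (rowB 3 eng mog cd0q0 cd0q1 pd1 0 true true true .pnn 0 1 1 (qsf 0 536870912 536870912 536870912 1) ndB0q0 ndB0q1 pcB1 cut_pp_011 Ext.none)

def k0_pp_011 : ∃ t, chk3 f_pp_011 t 1 1 1 = true :=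
  ⟨(l 14), by decide +kernel⟩

theorem c_pp_011 : CertB 0 536870912 536870912 536870912 1020054732 13421774 3 eng mog cd0q0 cd0q1 pd1 true true true .pnn 0 1 1
    ndB0q0 ndB0q1 pcB1 cut_pp_011 Ext.none :=
  certB0 (fam := true) (s1 := true) (s2 := true) (a := 0) (b := 1) (c := 1) (cn := .pnn) (n1 := ndB0q0) (n2 := ndB0q1) (pc := pcB1) (cut := cut_pp_011) (xt := Ext.none) (P1 := 0) (W1 := 536870912) (P2 := 536870912) (W2 := 536870912) (P3 := 1020054732) (W3 := 13421774) (N0 := 3) (En := eng) (mo := mog) (C1 := cd0q0) (C2 := cd0q1) (C3 := pd1)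
    rfl k0_pp_011

noncomputable def cut_pp_012 : Cut := Cut.of [[⟨3, 0, 0, 1449551462⟩], [⟨4, 0, 0, 2845415833⟩], [⟨0, 0, 0, 38347922⟩, ⟨1, 1, 0, 38347922⟩, ⟨2, 1, 0, 38347922⟩]]

noncomputable def f_pp_012 : ℕ → ℕ → ℕ → ℕ → Bool := onCell 0 536870912 536870912 536870912 1020054732 13421774
    (rowB 3 eng mog cd0q0 cd0q1 pd2 0 true true true .pnp 0 1 2 (qsf 0 536870912 536870912 536870912 2) ndB0q0 ndB0q1 pcB2 cut_pp_012 Ext.none)

def k0_pp_012 : ∃ t, chk3 f_pp_012 t 1 1 1 = true :=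
  ⟨(l 14), by decide +kernel⟩

theorem c_pp_012 : CertB 0 536870912 536870912 536870912 1020054732 13421774 3 eng mog cd0q0 cd0q1 pd2 true true true .pnp 0 1 2
    ndB0q0 ndB0q1 pcB2 cut_pp_012 Ext.none :=
  certB0 (fam := true) (s1 := true) (s2 := true) (a := 0) (b := 1) (c := 2) (cn := .pnp) (n1 := ndB0q0) (n2 := ndB0q1) (pc := pcB2) (cut := cut_pp_012) (xt := Ext.none) (P1 := 0) (W1 := 536870912) (P2 := 536870912) (W2 := 536870912) (P3 := 1020054732) (W3 := 13421774) (N0 := 3) (En := eng) (mo := mog) (C1 := cd0q0) (C2 := cd0q1) (C3 := pd2)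
    rfl k0_pp_012

noncomputable def cut_pp_022 : Cut := Cut.of [[⟨3, 0, 0, 1449551462⟩], [⟨4, 0, 0, 2845415833⟩], [⟨0, 0, 0, 26843545⟩, ⟨1, 1, 0, 26843545⟩, ⟨2, 1, 0, 26843545⟩]]

noncomputable def f_pp_022 : ℕ → ℕ → ℕ → ℕ → Bool := onCell 0 536870912 0 536870912 1020054732 13421774
    (rowB 3 eng mog cd0q0 cd0q2 pd2 0 true true true .pp 0 2 2 (qsf 0 536870912 0 536870912 2) ndB0q0 ndB0q2 pcB2 cut_pp_022 Ext.none)

def k0_pp_022 : ∃ t, chk3 f_pp_022 t 4 4 1 = true :=
  ⟨(a (a (b (a (l 15928032) (l 15819680)) (a (l 15855264) (l 15739176))) (b (a (l 15709808) (l 15603024)) (a (b (l 15638688) (b (l 15611640) (l 15581024))) (b (l 15505728) (b (l 15496704) (a (b (l 15513296) (l 15525072)) (b (l 15463712) (l 15491616)))))))) (b (a (a (l 15504528) (c (l 15417168) (l 15406344))) (a (c (l 15311288) (l 15317328)) (c (b (l 15284592) (l 15220936)) (l 15234080)))) (a (b (c (a (l 15431144) (l 15336112)) (l 15364792)) (b (b (a (l 15395408) (a (l 15321296) (b (l 15275912)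 (a (l 15286912) (l 15272688))))) (a (a (l 15412776) (b (l 15363544) (l 15368320))) (a (b (l 15323280) (l 15341808)) (l 15310064)))) (a (a (b (l 15424176) (l 15462848)) (l 15417000)) (l 15383864)))) (b (b (c (a (l 15259632) (l 15177264)) (l 15170816)) (b (a (l 15227408) (c (a (l 15178712) (b (l 15141760) (a (b (l 15147032) (l 15151376)) (l 15140424)))) (a (l 15148992) (b (l 15110192) (l 15114096))))) (a (a (l 15238352) (b (l 15196928) (a (c (l 15220736) (l 15192184)) (l 15194504)))) (a (b (a (c (l 15184440) (l 15154336)) (l 15158456)) (l 15184744)) (l 15162360))))) (a (a (a (b (b (b (l 15245600) (l 15263392)) (l 15296216)) (l 15361704)) (l 15288208)) (l 15278840)) (c (c (l 15263248) (l 15249128)) (l 15248824))))))), by decide +kernel⟩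

def k1_pp_022 : ∃ t, chk3 f_pp_022 t 4 5 1 = true :=
  ⟨(a (a (b (b (a (b (l 15834160) (l 15865688)) (b (l 15726416) (l 15782488))) (a (l 15957376) (l 15881144))) (b (a (l 16077336) (l 16010616)) (a (l 16152312) (l 16115616)))) (b (a (b (a (l 15688360) (l 15651840)) (l 15811096)) (b (l 15602120) (l 15751624))) (a (b (l 15949384) (b (l 16050392) (l 16116368))) (b (l 15898248) (b (l 16005240) (l 16075000)))))) (b (a (b (a (l 15549760) (l 15510240)) (a (l 15707728) (l 15676192))) (b (a (c (l 15473592) (l 15471872)) (c (l 15459360) (l 15455912))) (a (l 15656696) (c (l 15658896) (l 15638344))))) (a (b (a (l 15862288) (l 15838248)) (a (l 16012032) (a (l 15998256) (l 15992568)))) (b (a (l 15825800) (a (l 15823712) (l 15825512))) (a (a (l 15989688) (l 15989552)) (a (l 15991976) (l 15996800))))))), by decide +kernel⟩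

def k2_pp_022 : ∃ t, chk3 f_pp_022 t 10 8 1 = true :=
  ⟨(a (c (b (a (l 15211688) (b (l 15161472) (l 15126200))) (a (a (l 15164096) (b (l 15143664) (l 15111960))) (b (a (l 15109032) (l 15075712)) (a (l 15076776) (l 15042928))))) (a (b (l 15192752) (l 15118920)) (b (l 15121200) (b (l 15063240) (l 15026648))))) (b (a (c (b (l 15099232) (l 15063104)) (l 15054752)) (c (c (l 15031200) (l 15016104)) (l 14993392))) (b (a (c (c (l 15036424) (l 15019976)) (l 14995200)) (c (c (l 14978600) (l 14960176)) (l 14932384))) (a (b (c (l 15023832) (l 14966664)) (a (c (a (l 15010280) (b (l 14998320) (b (l 14992248) (a (l 14992464) (c (l 14996120) (l 14976864)))))) (l 14966584)) (b (c (a (l 14982688) (b (l 14969456) (c (l 14977160) (l 14957496)))) (l 14937848)) (c (a (b (c (a (l 14990360) (l 14984720)) (l 14968832)) (a (l 14983048) (l 14983360))) (a (b (l 14971768) (l 14984408)) (l 14978992))) (a (l 14942840) (l 14938800)))))) (b (a (c (a (l 14965016) (b (l 14954720) (b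 (l 14948328) (c (l 14956264) (l 14936104))))) (l 14920128)) (b (a (l 14920448) (c (c (l 14938864) (l 14918336)) (l 14887360))) (c (a (b (c (l 14946440) (l 14926032)) (l 14962136)) (c (l 14948448) (l 14927864))) (a (l 14898688) (l 14896784))))) (a (b (c (c (a (b (l 14966504) (l 14971272)) (l 14967392)) (a (b (l 14946592) (l 14951336)) (l 14947280))) (a (l 14919896) (l 14916920))) (c (l 14982688) (l 14942936))) (c (l 14977040) (l 14936656)))))))), by decide +kernel⟩

def k3_pp_022 : ∃ t, chk3 f_pp_022 t 20 9 1 = true :=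
  ⟨(a (b (b (b (c (l 15107520) (l 15075792)) (a (c (a (l 15121392) (l 15103816)) (l 15080776)) (b (a (l 15070528) (c (c (l 15100256) (l 15061984)) (l 15035888))) (a (c (b (l 15083728) (l 15088064)) (l 15052488)) (c (a (l 15079856) (l 15078776)) (l 15044288)))))) (a (b (b (a (c (b (l 15114464) (l 15118792)) (l 15084520)) (c (l 15108872) (l 15075288))) (l 15118232)) (l 15154424)) (c (l 15141424) (l 15108024)))) (c (a (l 15247264) (l 15244752)) (l 15236832))) (b (b (b (a (c (a (l 15062328) (b (l 15048656) (b (l 15042944) (a (l 15043744) (b (l 15036008) (l 15036704)))))) (l 15020056)) (b (c (a (l 15031552) (b (l 15016736) (a (l 15017232) (b (l 15009904) (l 15010608))))) (l 14988096)) (c (a (b (a (l 15030272) (b (l 15022736) (l 15023432))) (a (b (l 15030016) (l 15035088)) (l 15031704))) (a (b (b (l 15016968) (l 15022088)) (l 15031640)) (l 15025352))) (a (b (l 14990848) (l 14995264)) (l 14987896))))) (a (b (c (a (b (a (l 15057656) (b (l 15049720) (l 15050416)))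 (a (l 15059904) (l 15058536))) (a (b (b (l 15043504) (l 15048536)) (l 15057904)) (l 15051168))) (a (l 15043304) (l 15015168))) (c (l 15076888) (l 15041464))) (c (l 15063392) (l 15027080)))) (c (c (a (l 15147448) (l 15147840)) (l 15130280)) (l 15104488))) (c (c (a (l 15231568) (l 15234408)) (l 15238272)) (l 15235960)))), by decide +kernel⟩

def k4_pp_022 : ∃ t, chk3 f_pp_022 t 21 9 1 = true :=
  ⟨(b (a (a (b (b (b (c (a (b (a (l 15004632) (c (l 15007944) (l 14988960))) (a (b (l 15004352) (l 15009536)) (l 15006656))) (a (b (b (l 14992176) (l 14997424)) (l 15007152)) (l 15001304))) (a (l 14988504) (l 14962448))) (c (l 15026296) (l 14988592))) (c (l 15065016) (l 15028192))) (c (l 15142120) (l 15107040))) (c (c (b (l 15052440) (l 15156376)) (l 15086216)) (l 15058688))) (c (c (a (l 15048784) (l 15058480)) (l 15055904)) (l 15049000))) (a (c (a (l 15221416) (l 15260584)) (l 15266664)) (c (a (l 15270704) (l 15304136)) (l 15286464)))), by decide +kernel⟩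

def k5_pp_022 : ∃ t, chk3 f_pp_022 t 11 16 1 = true :=
  ⟨(a (c (a (c (l 14979648) (l 14962664)) (c (l 14933168) (l 14914288))) (a (l 14937088) (l 14885816))) (b (a (c (l 14900680) (l 14861328)) (c (l 14863536) (l 14820360))) (a (b (c (l 14871520) (l 14828480)) (a (c (c (l 14896888) (l 14853800)) (l 14820416)) (b (c (a (l 14852120) (l 14845168)) (l 14803976)) (c (a (b (l 14848104) (l 14854856)) (l 14857488)) (l 14851496))))) (b (a (c (c (l 14856960) (l 14834112)) (l 14799616)) (b (c (c (l 14844992) (l 14821528)) (l 14786072)) (a (c (b (l 14830944) (l 14838736)) (l 14788072)) (c (l 14843160) (l 14795528))))) (a (b (c (a (b (l 14838792) (l 14846032)) (l 14849568)) (a (l 14796392) (l 14802568))) (l 14851288)) (l 14859864)))))), by decide +kernel⟩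

def k6_pp_022 : ∃ t, chk3 f_pp_022 t 11 17 1 = true :=
  ⟨(a (a (b (b (c (l 14924768) (l 14884888)) (a (a (l 14906056) (b (l 14897144) (c (c (l 14921264) (l 14900288)) (l 14868616)))) (b (c (a (l 14904864) (b (l 14894672) (l 14892624))) (l 14858016)) (c (a (b (l 14921520) (l 14905896)) (l 14904808)) (a (l 14861360) (l 14861640)))))) (a (a (b (b (c (b (c (l 14928008) (l 14907136)) (l 14922696)) (l 14879184)) (l 14922488)) (l 14964248)) (b (c (c (l 14944688) (l 14923808)) (l 14892296)) (l 14969936))) (c (l 14971992) (l 14930504)))) (b (b (a (a (l 14872848) (c (c (l 14895104) (l 14873536)) (l 14840984))) (b (c (c (l 14883128) (l 14861120)) (l 14827888)) (c (a (b (l 14871232) (l 14877176)) (l 14877968)) (l 14874768)))) (a (b (c (a (b (l 14885104) (l 14890728)) (l 14890584)) (a (l 14845176) (l 14846584))) (l 14894080)) (c (l 14917448) (l 14873688)))) (c (a (l 14986704) (l 15003752)) (l 14953352)))) (a (a (b (b (b (c (a (b (l 14858904) (l 14865224)) (l 14866944))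 (l 14820408)) (l 14869536)) (l 14913968)) (c (l 15023064) (l 14981376))) (c (l 14943704) (l 14942576))) (c (c (l 14989808) (l 14989448)) (l 14978208)))), by decide +kernel⟩

def k7_pp_022 : ∃ t, chk3 f_pp_022 t 11 9 1 = true :=
  ⟨(a (b (a (c (a (l 15082256) (l 15096656)) (l 15072736)) (c (a (l 15113352) (l 15153240)) (l 15126984))) (a (c (c (l 15335168) (l 15340064)) (l 15315800)) (c (c (l 15394312) (l 15378296)) (l 15354120)))) (b (a (c (b (l 15149456) (l 15263936)) (l 15169264)) (c (c (l 15245272) (l 15247832)) (l 15220032))) (a (c (l 15432752) (l 15400896)) (c (l 15481640) (l 15455608))))), by decide +kernel⟩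

def k8_pp_022 : ∃ t, chk3 f_pp_022 t 5 5 1 = true :=
  ⟨(a (b (a (b (a (c (l 15434864) (l 15451088)) (c (a (l 15459864) (l 15465672)) (l 15456872))) (a (c (l 15661808) (l 15640176)) (c (l 15653480) (l 15652112)))) (b (a (c (a (l 15473880) (l 15484416)) (l 15472728)) (c (c (l 15532304) (l 15518696)) (l 15498144))) (a (c (a (l 15689960) (l 15703120)) (l 15673648)) (b (l 15644352) (l 15744728))))) (a (b (a (c (l 15841672) (l 15824000)) (b (l 15783584) (l 15875792))) (a (b (l 15944240) (l 14)) (l 14))) (b (a (b (l 15809264) (l 14)) (l 14)) (l 14)))) (b (a (b (a (c (l 15538880) (l 15532576)) (c (l 15602432) (l 15575472))) (a (b (l 15682256) (l 14)) (l 14))) (b (b (a (l 15563704) (l 15620776)) (l 14)) (l 14))) (l 14))), by decide +kernel⟩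

def k9_pp_022 : ∃ t, chk3 f_pp_022 t 2 3 1 = true :=
  ⟨(a (b (a (a (b (b (a (b (l 16278472) (l 16332848)) (b (l 16227480) (l 16286200))) (a (a (l 16337880) (l 16316792)) (b (l 16342992) (l 16376656)))) (b (a (b (a (l 16492864) (l 16475032)) (l 14)) (l 14)) (l 14))) (b (b (a (b (l 16180784) (l 16243504)) (b (l 16143192) (l 16209608))) (a (b (l 16304288) (l 16299992)) (b (l 16274128) (l 14)))) (l 14))) (b (a (b (a (b (l 16120200) (l 16190144)) (a (l 16146888) (l 16144504))) (l 14)) (l 14)) (l 14))) (l 14)) (l 14)), by decide +kernel⟩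

def k10_pp_022 : ∃ t, chk3 f_pp_022 t 12 8 1 = true :=
  ⟨(a (b (b (a (b (c (l 14841256) (l 14795616)) (a (a (l 14809496) (b (l 14806528) (c (c (l 14835568) (l 14811584)) (l 14775352)))) (b (c (a (l 14822560) (b (l 14817896) (c (l 14829744) (l 14805368)))) (l 14774000)) (a (c (b (c (l 14831648) (l 14807408)) (l 14828664)) (l 14775936)) (c (l 14834816) (l 14786080)))))) (b (a (c (a (l 14823584) (b (l 14822088) (b (l 14814536) (c (l 14826968) (l 14802336))))) (l 14796416)) (b (c (a (l 14815952) (b (l 14812624) (c (l 14825544) (l 14800688)))) (l 14767536)) (a (c (b (c (l 14826088) (l 14801344)) (l 14824528)) (l 14769656)) (l 14807520)))) (a (a (b (c (b (c (l 14828184) (l 14803680)) (l 14825864)) (l 14772072)) (l 14825352)) (c (l 14848656) (l 14799848))) (c (l 14872192) (l 14823672))))) (a (a (b (b (a (c (b (l 14824536) (l 14832952)) (l 14781264)) (c (l 14838248) (l 14790032))) (l 14839128)) (l 14885864)) (c (l 14905840) (l 14858984))) (c (c (l 14962672)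 (l 14939648)) (l 14904864)))) (a (c (a (l 15019096) (l 15048232)) (l 15033064)) (c (a (l 15100232) (l 15133080)) (l 15095920)))) (b (a (a (a (b (b (b (c (b (c (l 14825328) (l 14800376)) (l 14824384)) (l 14768664)) (l 14823904)) (l 14872624)) (c (l 14992088) (l 14946352))) (c (l 14903256) (l 14898080))) (c (c (l 14983160) (l 14959944)) (l 14924856))) (a (c (a (l 14977920) (l 15017656)) (l 14962144)) (c (l 15015168) (l 15001200)))) (c (a (c (l 15216736) (l 15196624)) (a (l 15262904) (l 15302384))) (a (l 15166232) (a (l 15223440) (l 15263672)))))), by decide +kernel⟩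

def k11_pp_022 : ∃ t, chk3 f_pp_022 t 12 9 1 = true :=
  ⟨(a (b (a (c (c (l 15324112) (l 15306048)) (l 15278768)) (c (c (l 15389048) (l 15371480)) (l 15344936))) (b (a (l 15453904) (l 15521736)) (a (l 15570208) (l 14)))) (b (a (c (a (l 15433456) (l 15470920)) (a (l 15399024) (l 15437168))) (b (a (l 15431944) (l 15472512)) (l 14))) (l 14))), by decide +kernel⟩

def k12_pp_022 : ∃ t, chk3 f_pp_022 t 13 4 1 = true :=
  ⟨(b (a (b (c (a (a (b (l 15021552) (l 15151960)) (b (l 15062896) (l 15193776))) (a (b (l 15105776) (l 15237048)) (b (l 15150120) (l 15281712)))) (a (a (l 15041952) (l 15084336)) (a (l 15128280) (b (l 15106288) (l 15241408))))) (a (c (a (l 15343360) (b (l 15322544) (l 15449208))) (a (l 15305456) (l 15348712))) (b (c (a (l 15366152) (l 15411072)) (l 15330232)) (l 14)))) (b (a (c (a (b (l 33920354935) (l 15327696)) (l 2)) (b (l 40362752679) (l 35531208727))) (l 2)) (l 14))) (l 14)), by decide +kernel⟩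

def k13_pp_022 : ∃ t, chk3 f_pp_022 t 7 4 1 = true :=
  ⟨(l 2), by decide +kernel⟩

def k14_pp_022 : ∃ t, chk3 f_pp_022 t 3 5 1 = true :=
  ⟨(l 14), by decide +kernel⟩

def k15_pp_022 : ∃ t, chk3 f_pp_022 t 3 3 1 = true :=
  ⟨(l 14), by decide +kernel⟩

theorem s16_pp_022 : ∃ t, chk3 f_pp_022 t 12 4 1 = true := ex3_b k10_pp_022 k11_pp_022

theorem s17_pp_022 : ∃ t, chk3 f_pp_022 t 6 4 1 = true := ex3_a s16_pp_022 k12_pp_022

theorem s18_pp_022 : ∃ t, chk3 f_pp_022 t 3 4 1 = true := ex3_a s17_pp_022 k13_pp_022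

theorem s19_pp_022 : ∃ t, chk3 f_pp_022 t 3 2 1 = true := ex3_b s18_pp_022 k14_pp_022

theorem s20_pp_022 : ∃ t, chk3 f_pp_022 t 3 1 1 = true := ex3_b s19_pp_022 k15_pp_022

theorem s21_pp_022 : ∃ t, chk3 f_pp_022 t 11 8 1 = true := ex3_b k5_pp_022 k6_pp_022

theorem s22_pp_022 : ∃ t, chk3 f_pp_022 t 11 4 1 = true := ex3_b s21_pp_022 k7_pp_022

theorem s23_pp_022 : ∃ t, chk3 f_pp_022 t 10 9 1 = true := ex3_a k3_pp_022 k4_pp_022

theorem s24_pp_022 : ∃ t, chk3 f_pp_022 t 10 4 1 = true := ex3_b k2_pp_022 s23_pp_022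

theorem s25_pp_022 : ∃ t, chk3 f_pp_022 t 5 4 1 = true := ex3_a s24_pp_022 s22_pp_022

theorem s26_pp_022 : ∃ t, chk3 f_pp_022 t 5 2 1 = true := ex3_b s25_pp_022 k8_pp_022

theorem s27_pp_022 : ∃ t, chk3 f_pp_022 t 4 2 1 = true := ex3_b k0_pp_022 k1_pp_022

theorem s28_pp_022 : ∃ t, chk3 f_pp_022 t 2 2 1 = true := ex3_a s27_pp_022 s26_pp_022

theorem s29_pp_022 : ∃ t, chk3 f_pp_022 t 2 1 1 = true := ex3_b s28_pp_022 k9_pp_022

theorem s30_pp_022 : ∃ t, chk3 f_pp_022 t 1 1 1 = true := ex3_a s29_pp_022 s20_pp_022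

theorem c_pp_022 : CertB 0 536870912 0 536870912 1020054732 13421774 3 eng mog cd0q0 cd0q2 pd2 true true true .pp 0 2 2
    ndB0q0 ndB0q2 pcB2 cut_pp_022 Ext.none :=
  certB0 (fam := true) (s1 := true) (s2 := true) (a := 0) (b := 2) (c := 2) (cn := .pp) (n1 := ndB0q0) (n2 := ndB0q2) (pc := pcB2) (cut := cut_pp_022) (xt := Ext.none) (P1 := 0) (W1 := 536870912) (P2 := 0) (W2 := 536870912) (P3 := 1020054732) (W3 := 13421774) (N0 := 3) (En := eng) (mo := mog) (C1 := cd0q0) (C2 := cd0q2) (C3 := pd2)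
    rfl s30_pp_022

noncomputable def cut_pp_023 : Cut := Cut.of [[⟨3, 0, 0, 1449551462⟩], [⟨4, 0, 0, 2845415833⟩]]

noncomputable def f_pp_023 : ℕ → ℕ → ℕ → ℕ → Bool := onCell 1610612736 536870912 0 536870912 1020054732 13421774
    (rowB 3 eng mog cd0q0 cd0q2 pd3 2 true true true .up 0 2 3 (qsf 0 536870912 0 536870912 3) ndB0q0 ndB0q2 pcB3 cut_pp_023 Ext.none)

def k0_pp_023 : ∃ t, chk3 f_pp_023 t 1 1 1 = true :=
  ⟨(a (b (a (a (b (b (a (a (l 16511320) (l 16521448)) (l 14)) (l 14)) (l 14)) (l 14)) (l 14)) (l 4)) (l 2)), by decide +kernel⟩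

theorem c_pp_023 : CertB 0 536870912 0 536870912 1020054732 13421774 3 eng mog cd0q0 cd0q2 pd3 true true true .up 0 2 3
    ndB0q0 ndB0q2 pcB3 cut_pp_023 Ext.none :=
  certB2 (fam := true) (s1 := true) (s2 := true) (a := 0) (b := 2) (c := 3) (cn := .up) (n1 := ndB0q0) (n2 := ndB0q2) (pc := pcB3) (cut := cut_pp_023) (xt := Ext.none) (P1 := 0) (W1 := 536870912) (P2 := 0) (W2 := 536870912) (P3 := 1020054732) (W3 := 13421774) (N0 := 3) (En := eng) (mo := mog) (C1 := cd0q0) (C2 := cd0q2) (C3 := pd3)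
    rfl (fun _ => rfl) k0_pp_023

noncomputable def cut_pp_101 : Cut := Cut.of [[⟨3, 0, 0, 1449551462⟩], [⟨4, 0, 0, 2845415833⟩]]

noncomputable def f_pp_101 : ℕ → ℕ → ℕ → ℕ → Bool := onCell 536870912 536870912 0 536870912 1020054732 13421774
    (rowB 3 eng mog cd0q1 cd0q0 pd1 0 true true true .npn 1 0 1 (qsf 536870912 536870912 0 536870912 1) ndB0q1 ndB0q0 pcB1 cut_pp_101 Ext.none)

def k0_pp_101 : ∃ t, chk3 f_pp_101 t 1 1 1 = true :=
  ⟨(l 14), by decide +kernel⟩

theorem c_pp_101 : CertB 536870912 536870912 0 536870912 1020054732 13421774 3 eng mog cd0q1 cd0q0 pd1 true true true .npn 1 0 1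
    ndB0q1 ndB0q0 pcB1 cut_pp_101 Ext.none :=
  certB0 (fam := true) (s1 := true) (s2 := true) (a := 1) (b := 0) (c := 1) (cn := .npn) (n1 := ndB0q1) (n2 := ndB0q0) (pc := pcB1) (cut := cut_pp_101) (xt := Ext.none) (P1 := 536870912) (W1 := 536870912) (P2 := 0) (W2 := 536870912) (P3 := 1020054732) (W3 := 13421774) (N0 := 3) (En := eng) (mo := mog) (C1 := cd0q1) (C2 := cd0q0) (C3 := pd1)
    rfl k0_pp_101

noncomputable def cut_pp_102 : Cut := Cut.of [[⟨3, 0, 0, 1449551462⟩], [⟨4, 0, 0, 2845415833⟩]]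

noncomputable def f_pp_102 : ℕ → ℕ → ℕ → ℕ → Bool := onCell 536870912 536870912 0 536870912 1020054732 13421774
    (rowB 3 eng mog cd0q1 cd0q0 pd2 0 true true true .npp 1 0 2 (qsf 536870912 536870912 0 536870912 2) ndB0q1 ndB0q0 pcB2 cut_pp_102 Ext.none)

def k0_pp_102 : ∃ t, chk3 f_pp_102 t 1 1 1 = true :=
  ⟨(l 14), by decide +kernel⟩

theorem c_pp_102 : CertB 536870912 536870912 0 536870912 1020054732 13421774 3 eng mog cd0q1 cd0q0 pd2 true true true .npp 1 0 2
    ndB0q1 ndB0q0 pcB2 cut_pp_102 Ext.none :=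
  certB0 (fam := true) (s1 := true) (s2 := true) (a := 1) (b := 0) (c := 2) (cn := .npp) (n1 := ndB0q1) (n2 := ndB0q0) (pc := pcB2) (cut := cut_pp_102) (xt := Ext.none) (P1 := 536870912) (W1 := 536870912) (P2 := 0) (W2 := 536870912) (P3 := 1020054732) (W3 := 13421774) (N0 := 3) (En := eng) (mo := mog) (C1 := cd0q1) (C2 := cd0q0) (C3 := pd2)
    rfl k0_pp_102

noncomputable def cut_pp_112 : Cut := Cut.of [[⟨3, 0, 0, 1449551462⟩], [⟨4, 0, 0, 2845415833⟩]]

noncomputable def f_pp_112 : ℕ → ℕ → ℕ → ℕ → Bool := onCell 536870912 536870912 536870912 536870912 1020054732 13421774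
    (rowB 3 eng mog cd0q1 cd0q1 pd2 0 true true true .dn 1 1 2 (qsf 536870912 536870912 536870912 536870912 2) ndB0q1 ndB0q1 pcB2 cut_pp_112 Ext.none)

def k0_pp_112 : ∃ t, chk3 f_pp_112 t 1 1 1 = true :=
  ⟨(l 4), by decide +kernel⟩

theorem c_pp_112 : CertB 536870912 536870912 536870912 536870912 1020054732 13421774 3 eng mog cd0q1 cd0q1 pd2 true true true .dn 1 1 2
    ndB0q1 ndB0q1 pcB2 cut_pp_112 Ext.none :=
  certB0 (fam := true) (s1 := true) (s2 := true) (a := 1) (b := 1) (c := 2) (cn := .dn) (n1 := ndB0q1) (n2 := ndB0q1) (pc := pcB2) (cut := cut_pp_112) (xt := Ext.none) (P1 := 536870912) (W1 := 536870912) (P2 := 536870912) (W2 := 536870912) (P3 := 1020054732) (W3 := 13421774) (N0 := 3) (En := eng) (mo := mog) (C1 := cd0q1) (C2 := cd0q1) (C3 := pd2)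
    rfl k0_pp_112

noncomputable def cut_pp_113 : Cut := Cut.of [[⟨3, 0, 0, 1449551462⟩], [⟨4, 0, 0, 2845415833⟩]]

noncomputable def f_pp_113 : ℕ → ℕ → ℕ → ℕ → Bool := onCell 536870912 536870912 536870912 536870912 1020054732 13421774
    (rowB 3 eng mog cd0q1 cd0q1 pd3 0 true true true .nn 1 1 3 (qsf 536870912 536870912 536870912 536870912 3) ndB0q1 ndB0q1 pcB3 cut_pp_113 Ext.none)

def k0_pp_113 : ∃ t, chk3 f_pp_113 t 1 1 1 = true :=
  ⟨(l 4), by decide +kernel⟩

theorem c_pp_113 : CertB 536870912 536870912 536870912 536870912 1020054732 13421774 3 eng mog cd0q1 cd0q1 pd3 true true true .nn 1 1 3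
    ndB0q1 ndB0q1 pcB3 cut_pp_113 Ext.none :=
  certB0 (fam := true) (s1 := true) (s2 := true) (a := 1) (b := 1) (c := 3) (cn := .nn) (n1 := ndB0q1) (n2 := ndB0q1) (pc := pcB3) (cut := cut_pp_113) (xt := Ext.none) (P1 := 536870912) (W1 := 536870912) (P2 := 536870912) (W2 := 536870912) (P3 := 1020054732) (W3 := 13421774) (N0 := 3) (En := eng) (mo := mog) (C1 := cd0q1) (C2 := cd0q1) (C3 := pd3)
    rfl k0_pp_113

noncomputable def cut_pp_123 : Cut := Cut.of [[⟨3, 0, 0, 1449551462⟩], [⟨4, 0, 0, 2845415833⟩]]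

noncomputable def f_pp_123 : ℕ → ℕ → ℕ → ℕ → Bool := onCell 536870912 536870912 0 536870912 1020054732 13421774
    (rowB 3 eng mog cd0q1 cd0q2 pd3 0 true true true .npn 1 2 3 (qsf 536870912 536870912 0 536870912 3) ndB0q1 ndB0q2 pcB3 cut_pp_123 Ext.none)

def k0_pp_123 : ∃ t, chk3 f_pp_123 t 1 1 1 = true :=
  ⟨(a (l 14) (l 4)), by decide +kernel⟩

theorem c_pp_123 : CertB 536870912 536870912 0 536870912 1020054732 13421774 3 eng mog cd0q1 cd0q2 pd3 true true true .npn 1 2 3
    ndB0q1 ndB0q2 pcB3 cut_pp_123 Ext.none :=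
  certB0 (fam := true) (s1 := true) (s2 := true) (a := 1) (b := 2) (c := 3) (cn := .npn) (n1 := ndB0q1) (n2 := ndB0q2) (pc := pcB3) (cut := cut_pp_123) (xt := Ext.none) (P1 := 536870912) (W1 := 536870912) (P2 := 0) (W2 := 536870912) (P3 := 1020054732) (W3 := 13421774) (N0 := 3) (En := eng) (mo := mog) (C1 := cd0q1) (C2 := cd0q2) (C3 := pd3)
    rfl k0_pp_123

noncomputable def cut_pp_202 : Cut := Cut.of [[⟨3, 0, 0, 1449551462⟩], [⟨4, 0, 0, 2845415833⟩]]

noncomputable def f_pp_202 : ℕ → ℕ → ℕ → ℕ → Bool := onCell 0 536870912 0 536870912 1020054732 13421774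
    (rowB 3 eng mog cd0q2 cd0q0 pd2 0 true true true .pp 2 0 2 (qsf 0 536870912 0 536870912 2) ndB0q2 ndB0q0 pcB2 cut_pp_202 Ext.none)

def k0_pp_202 : ∃ t, chk3 f_pp_202 t 1 1 1 = true :=
  ⟨(l 5), by decide +kernel⟩

theorem c_pp_202 : CertB 0 536870912 0 536870912 1020054732 13421774 3 eng mog cd0q2 cd0q0 pd2 true true true .pp 2 0 2
    ndB0q2 ndB0q0 pcB2 cut_pp_202 Ext.none :=
  certB0 (fam := true) (s1 := true) (s2 := true) (a := 2) (b := 0) (c := 2) (cn := .pp) (n1 := ndB0q2) (n2 := ndB0q0) (pc := pcB2) (cut := cut_pp_202) (xt := Ext.none) (P1 := 0) (W1 := 536870912) (P2 := 0) (W2 := 536870912) (P3 := 1020054732) (W3 := 13421774) (N0 := 3) (En := eng) (mo := mog) (C1 := cd0q2) (C2 := cd0q0) (C3 := pd2)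
    rfl k0_pp_202

noncomputable def cut_pp_203 : Cut := Cut.of [[⟨3, 0, 0, 1449551462⟩], [⟨4, 0, 0, 2845415833⟩]]

noncomputable def f_pp_203 : ℕ → ℕ → ℕ → ℕ → Bool := onCell 0 536870912 0 536870912 1020054732 13421774
    (rowB 3 eng mog cd0q2 cd0q0 pd3 0 true true true .up 2 0 3 (qsf 0 536870912 0 536870912 3) ndB0q2 ndB0q0 pcB3 cut_pp_203 Ext.none)

def k0_pp_203 : ∃ t, chk3 f_pp_203 t 1 1 1 = true :=
  ⟨(l 5), by decide +kernel⟩

theorem c_pp_203 : CertB 0 536870912 0 536870912 1020054732 13421774 3 eng mog cd0q2 cd0q0 pd3 true true true .up 2 0 3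
    ndB0q2 ndB0q0 pcB3 cut_pp_203 Ext.none :=
  certB0 (fam := true) (s1 := true) (s2 := true) (a := 2) (b := 0) (c := 3) (cn := .up) (n1 := ndB0q2) (n2 := ndB0q0) (pc := pcB3) (cut := cut_pp_203) (xt := Ext.none) (P1 := 0) (W1 := 536870912) (P2 := 0) (W2 := 536870912) (P3 := 1020054732) (W3 := 13421774) (N0 := 3) (En := eng) (mo := mog) (C1 := cd0q2) (C2 := cd0q0) (C3 := pd3)
    rfl k0_pp_203

noncomputable def cut_pp_213 : Cut := Cut.of [[⟨3, 0, 0, 1449551462⟩], [⟨4, 0, 0, 2845415833⟩]]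

noncomputable def f_pp_213 : ℕ → ℕ → ℕ → ℕ → Bool := onCell 0 536870912 536870912 536870912 1020054732 13421774
    (rowB 3 eng mog cd0q2 cd0q1 pd3 0 true true true .pnn 2 1 3 (qsf 0 536870912 536870912 536870912 3) ndB0q2 ndB0q1 pcB3 cut_pp_213 Ext.none)

def k0_pp_213 : ∃ t, chk3 f_pp_213 t 1 1 1 = true :=
  ⟨(a (l 5) (l 4)), by decide +kernel⟩

theorem c_pp_213 : CertB 0 536870912 536870912 536870912 1020054732 13421774 3 eng mog cd0q2 cd0q1 pd3 true true true .pnn 2 1 3
    ndB0q2 ndB0q1 pcB3 cut_pp_213 Ext.none :=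
  certB0 (fam := true) (s1 := true) (s2 := true) (a := 2) (b := 1) (c := 3) (cn := .pnn) (n1 := ndB0q2) (n2 := ndB0q1) (pc := pcB3) (cut := cut_pp_213) (xt := Ext.none) (P1 := 0) (W1 := 536870912) (P2 := 536870912) (W2 := 536870912) (P3 := 1020054732) (W3 := 13421774) (N0 := 3) (En := eng) (mo := mog) (C1 := cd0q2) (C2 := cd0q1) (C3 := pd3)
    rfl k0_pp_213

noncomputable def cut_pm_001 : Cut := Cut.of [[⟨3, 0, 0, 1449551462⟩], [⟨4, 0, 0, 2845415833⟩]]

noncomputable def f_pm_001 : ℕ → ℕ → ℕ → ℕ → Bool := onCell 0 536870912 0 536870912 1020054732 13421774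
    (rowB 3 eng mog cd0q0 cd0q0 pd1 0 true true false .up 0 0 1 (qsf 0 536870912 0 536870912 1) ndB0q0 ndB0q0 pcB1 cut_pm_001 Ext.none)

def k0_pm_001 : ∃ t, chk3 f_pm_001 t 1 1 1 = true :=
  ⟨(l 3), by decide +kernel⟩

theorem c_pm_001 : CertB 0 536870912 0 536870912 1020054732 13421774 3 eng mog cd0q0 cd0q0 pd1 true true false .up 0 0 1
    ndB0q0 ndB0q0 pcB1 cut_pm_001 Ext.none :=
  certB0 (fam := true) (s1 := true) (s2 := false) (a := 0) (b := 0) (c := 1) (cn := .up) (n1 := ndB0q0) (n2 := ndB0q0) (pc := pcB1) (cut := cut_pm_001) (xt := Ext.none) (P1 := 0) (W1 := 536870912) (P2 := 0) (W2 := 536870912) (P3 := 1020054732) (W3 := 13421774) (N0 := 3) (En := eng) (mo := mog) (C1 := cd0q0) (C2 := cd0q0) (C3 := pd1)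
    rfl k0_pm_001

noncomputable def cut_pm_011 : Cut := Cut.of [[⟨3, 0, 0, 1449551462⟩], [⟨4, 0, 0, 2845415833⟩], [⟨0, 0, 0, 38347922⟩, ⟨1, 1, 0, 38347922⟩, ⟨2, 1, 0, 38347922⟩]]

noncomputable def f_pm_011 : ℕ → ℕ → ℕ → ℕ → Bool := onCell 0 536870912 536870912 536870912 1020054732 13421774
    (rowB 3 eng mog cd0q0 cd0q1 pd1 1 true true false .pnn 0 1 1 (qsf 0 536870912 536870912 536870912 1) ndB0q0 ndB0q1 pcB1 cut_pm_011 Ext.none)

def k0_pm_011 : ∃ t, chk3 f_pm_011 t 1 1 1 = true :=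
  ⟨(l 6), by decide +kernel⟩

theorem c_pm_011 : CertB 0 536870912 536870912 536870912 1020054732 13421774 3 eng mog cd0q0 cd0q1 pd1 true true false .pnn 0 1 1
    ndB0q0 ndB0q1 pcB1 cut_pm_011 Ext.none :=
  certB1 (fam := true) (s1 := true) (s2 := false) (a := 0) (b := 1) (c := 1) (cn := .pnn) (n1 := ndB0q0) (n2 := ndB0q1) (pc := pcB1) (cut := cut_pm_011) (xt := Ext.none) (P1 := 0) (W1 := 536870912) (P2 := 536870912) (W2 := 536870912) (P3 := 1020054732) (W3 := 13421774) (N0 := 3) (En := eng) (mo := mog) (C1 := cd0q0) (C2 := cd0q1) (C3 := pd1)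
    rfl (fun _ => rfl) k0_pm_011

noncomputable def cut_pm_012 : Cut := Cut.of [[⟨3, 0, 0, 1449551462⟩], [⟨4, 0, 0, 2845415833⟩], [⟨0, 0, 0, 16777216⟩, ⟨1, 1, 0, 16777216⟩, ⟨2, 1, 0, 16777216⟩]]

noncomputable def f_pm_012 : ℕ → ℕ → ℕ → ℕ → Bool := onCell 0 536870912 536870912 536870912 1020054732 13421774
    (rowB 3 eng mog cd0q0 cd0q1 pd2 0 true true false .pnp 0 1 2 (qsf 0 536870912 536870912 536870912 2) ndB0q0 ndB0q1 pcB2 cut_pm_012 Ext.none)

def k0_pm_012 : ∃ t, chk3 f_pm_012 t 1 2 1 = true :=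
  ⟨(l 6), by decide +kernel⟩

def k1_pm_012 : ∃ t, chk3 f_pm_012 t 2 3 1 = true :=
  ⟨(b (l 6) (a (l 6) (b (l 6) (a (l 6) (b (l 6) (b (l 6) (a (l 6) (c (a (l 15983848) (l 15944816)) (a (l 16029824) (l 15992496)))))))))), by decide +kernel⟩

def k2_pm_012 : ∃ t, chk3 f_pm_012 t 3 6 1 = true :=
  ⟨(a (l 6) (b (l 6) (a (b (l 6) (a (l 6) (b (l 6) (a (l 6) (l 16339672))))) (b (a (l 6) (b (l 16422640) (l 16376312))) (a (b (l 16364344) (l 16290232)) (b (l 16327336) (l 16275496))))))), by decide +kernel⟩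

def k3_pm_012 : ∃ t, chk3 f_pm_012 t 3 7 1 = true :=
  ⟨(b (a (a (l 6) (b (l 6) (a (b (l 6) (c (l 16208424) (l 16188576))) (b (c (l 16247656) (l 16212720)) (c (l 16161960) (l 16138424)))))) (b (a (a (b (c (l 16293760) (l 16238320)) (c (l 16285128) (l 16236472))) (b (c (b (l 16336248) (l 16302720)) (b (l 16274872) (l 16243760))) (c (l 16248960) (l 16195616)))) (b (a (c (l 16179832) (l 16222056)) (b (l 16234680) (l 16142888))) (a (c (l 16216848) (l 16159192)) (c (l 16187848) (l 16126384))))) (a (a (b (c (l 16207048) (l 16167688)) (c (l 16121880) (l 16094528))) (b (c (l 16171664) (l 16128008)) (c (l 16087304) (l 16056072)))) (a (b (c (l 16140616) (l 16092856)) (c (l 16057352) (l 16022240))) (b (c (l 16112976) (l 16061408)) (l 15927976)))))) (a (b (a (a (a (l 6) (b (l 6) (l 16054200))) (b (c (l 16168448) (l 16164528)) (c (l 16065408) (l 16076816)))) (a (b (c (l 16114760) (l 16108336)) (c (l 16011712) (l 16021704))) (b (l 16084896) (l 15969696)))) (a (b (a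 (c (b (l 16043936) (l 15982976)) (b (l 16068656) (l 16016816))) (c (l 15950400) (l 15980064))) (a (c (a (l 15908408) (l 15874536)) (l 15941048)) (c (l 15828376) (l 15880072)))) (b (a (c (l 15896696) (l 15926080)) (c (l 15851064) (l 15879416))) (a (c (l 15774672) (l 15827280)) (c (l 15729368) (l 15781896)))))) (b (b (a (a (l 16022816) (l 15987376)) (a (l 15956760) (l 15930128))) (a (a (l 15929488) (l 15895144)) (a (l 15865840) (l 15840736)))) (a (b (a (b (l 15853840) (l 15798736)) (b (l 15820360) (l 15765848))) (a (l 15549224) (l 15559208))) (b (a (b (l 15792088) (l 15738280)) (c (l 15732784) (l 15749992))) (a (l 15574696) (l 15615840))))))), by decide +kernel⟩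

theorem s4_pm_012 : ∃ t, chk3 f_pm_012 t 3 3 1 = true := ex3_b k2_pm_012 k3_pm_012

theorem s5_pm_012 : ∃ t, chk3 f_pm_012 t 1 3 1 = true := ex3_a k1_pm_012 s4_pm_012

theorem s6_pm_012 : ∃ t, chk3 f_pm_012 t 1 1 1 = true := ex3_b k0_pm_012 s5_pm_012

theorem c_pm_012 : CertB 0 536870912 536870912 536870912 1020054732 13421774 3 eng mog cd0q0 cd0q1 pd2 true true false .pnp 0 1 2
    ndB0q0 ndB0q1 pcB2 cut_pm_012 Ext.none :=
  certB0 (fam := true) (s1 := true) (s2 := false) (a := 0) (b := 1) (c := 2) (cn := .pnp) (n1 := ndB0q0) (n2 := ndB0q1) (pc := pcB2) (cut := cut_pm_012) (xt := Ext.none) (P1 := 0) (W1 := 536870912) (P2 := 536870912) (W2 := 536870912) (P3 := 1020054732) (W3 := 13421774) (N0 := 3) (En := eng) (mo := mog) (C1 := cd0q0) (C2 := cd0q1) (C3 := pd2)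
    rfl s6_pm_012

noncomputable def cut_pm_022 : Cut := Cut.of [[⟨3, 0, 0, 1449551462⟩], [⟨4, 0, 0, 2845415833⟩], [⟨0, 0, 0, 33554432⟩, ⟨1, 1, 0, 33554432⟩, ⟨2, 1, 0, 33554432⟩]]

noncomputable def f_pm_022 : ℕ → ℕ → ℕ → ℕ → Bool := onCell 1073741824 536870912 0 536870912 1020054732 13421774
    (rowB 3 eng mog cd0q0 cd0q2 pd2 2 true true false .pp 0 2 2 (qsf 0 536870912 0 536870912 2) ndB0q0 ndB0q2 pcB2 cut_pm_022 Ext.none)

def k0_pm_022 : ∃ t, chk3 f_pm_022 t 4 1 1 = true :=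
  ⟨(b (a (l 1) (b (l 1) (a (l 1) (b (l 1) (a (l 1) (b (l 1) (l 16450592))))))) (b (a (l 1) (b (a (l 1) (a (b (l 16369384) (b (l 16391904) (l 16390248))) (b (l 16406488) (l 16416728)))) (a (a (l 6) (b (b (l 16363032) (l 6)) (l 6))) (b (a (b (l 16413064) (l 16418600)) (c (l 16468424) (l 16437168))) (a (b (l 16428040) (l 6)) (a (l 16477072) (l 16434904))))))) (l 6))), by decide +kernel⟩

def k1_pm_022 : ∃ t, chk3 f_pm_022 t 5 2 1 = true :=
  ⟨(a (b (a (a (l 1) (b (l 16120240) (l 16157312))) (b (a (l 16020208) (l 15918008)) (a (l 16125176) (l 15985384)))) (a (b (a (l 16274200) (l 16185424)) (b (a (l 16392752) (l 16347344)) (a (l 16401104) (l 16334960)))) (b (a (l 16114568) (b (l 16102480) (l 16146936))) (a (b (l 16256512) (l 16244800)) (b (l 16187304) (l 16220400)))))) (b (a (b (a (l 15814224) (l 15714368)) (a (l 15887368) (l 15752128))) (b (a (l 15622352) (l 15493592)) (a (l 15750096) (l 15626976)))) (a (b (a (b (l 16008536) (l 16056792)) (b (l 15920656)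 (l 15973912))) (a (b (l 16100680) (l 16140256)) (b (l 16021760) (l 16064344)))) (b (b (l 15696352) (a (l 15895488) (l 15821936))) (b (a (l 15946840) (l 15876448)) (a (l 15993048) (l 15926080))))))), by decide +kernel⟩

def k2_pm_022 : ∃ t, chk3 f_pm_022 t 5 3 1 = true :=
  ⟨(b (a (b (a (a (b (l 16422072) (a (l 16495792) (l 16431360))) (b (l 16313424) (a (l 16408648) (l 16386832)))) (a (b (a (l 16352208) (l 16309264)) (a (l 16366256) (l 16326512))) (b (a (l 16268504) (l 16229656)) (l 16249352)))) (a (b (a (b (l 16410720) (l 16406440)) (b (l 16368248) (l 16346024))) (a (b (l 16399264) (l 16389600)) (b (l 16320944) (l 16378728)))) (b (a (l 16249920) (l 16199080)) (a (c (l 16321608) (l 16384200)) (c (l 16252808) (l 16318736)))))) (b (a (b (a (l 16172832) (l 16100888)) (a (l 16198200) (l 16130224))) (b (a (l 16033144) (l 15969568)) (a (l 16066352) (l 16005960)))) (a (b (a (l 16173104) (l 16151312)) (a (l 16138424) (l 16120520))) (b (a (l 16090992) (l 16034080))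 (a (l 16105920) (l 16052608)))))) (b (a (a (b (a (b (a (l 16459032) (l 16464600)) (l 6)) (b (l 16369416) (l 16356872))) (a (l 6) (b (l 16362080) (l 6)))) (b (a (c (l 16305976) (l 16372960)) (c (l 16241568) (l 16312616))) (a (b (l 16320776) (l 16303800)) (b (l 16262176) (l 16247344))))) (a (b (a (c (l 16180944) (l 16255776)) (l 16099360)) (a (b (l 16206512) (l 16193936)) (l 16023216))) (b (a (l 16067696) (l 16060072)) (a (l 16037560) (l 16054784))))) (a (a (l 6) (b (b (a (l 6) (l 16164960)) (l 6)) (l 6))) (b (a (b (a (l 16134816) (l 16107544)) (a (b (l 16054832) (l 16097264)) (c (l 16059912) (l 16147360)))) (b (a (l 16083088) (l 16040400)) (c (a (l 16014752) (l 15972576)) (l 15982088)))) (a (b (a (c (l 16069264) (l 16139600)) (c (l 16022424) (l 16096960))) (a (l 6) (c (l 15985152) (l 16046368)))) (b (c (a (l 15978584) (l 15937688)) (l 16037944)) (c (l 15901488) (l 15987904)))))))), by decide +kernel⟩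

def k3_pm_022 : ∃ t, chk3 f_pm_022 t 6 2 1 = true :=
  ⟨(a (b (a (b (a (c (l 15454528) (l 15454136)) (c (l 15380160) (l 15376560))) (a (b (l 15558920) (l 15626376)) (c (l 15515544) (l 15527896)))) (a (b (b (l 15227688) (l 15302736)) (b (l 15397672) (l 15490872))) (b (c (b (l 15209664) (l 15282328)) (l 15235984)) (c (l 15368168) (l 15396528))))) (b (a (b (a (l 15691368) (l 15623888)) (a (l 15752960) (l 15688104))) (b (a (l 15560688) (l 15501744)) (a (l 15627360) (l 15570696)))) (a (b (a (l 15810440) (l 15748296)) (a (l 15862944) (l 15803608))) (b (a (l 15690096) (l 15635808)) (c (l 15698512) (l 15745648)))))) (c (b (b (b (a (a (l 15149104) (l 15093472)) (a (l 15042768) (l 14996960))) (a (a (l 15223376) (l 15169200)) (a (l 15119768) (l 15075072)))) (a (a (l 15311784) (l 15259928)) (c (b (l 15175672) (l 15248736)) (l 15211072)))) (b (a (b (l 15391920) (l 15459376)) (a (l 15357760) (l 15317600))) (a (b (l 15544112) (l 15603352)) (b (l 15460488) (l 15502352)))))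 (b (b (a (a (l 15172936) (l 15093712)) (a (l 15040232) (b (l 14968400) (l 15056360)))) (a (a (l 15337520) (l 15282912)) (a (l 15232680) (l 15186784)))) (b (a (b (l 15430152) (l 15506848)) (l 15312608)) (a (b (l 15579840) (l 15648264)) (b (l 15492304) (l 15564856))))))), by decide +kernel⟩

def k4_pm_022 : ∃ t, chk3 f_pm_022 t 14 4 2 = true :=
  ⟨(b (a (b (a (l 14956032) (l 14919936)) (a (l 15035096) (l 14999768))) (b (a (b (l 14868464) (l 14908720)) (b (l 14841784) (l 14882232))) (a (l 14969048) (l 14942896)))) (a (c (b (l 15099320) (l 15174432)) (l 15111688)) (b (a (l 15048960) (l 15023296)) (l 15114816)))), by decide +kernel⟩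

def k5_pm_022 : ∃ t, chk3 f_pm_022 t 30 16 2 = true :=
  ⟨(b (a (b (a (b (b (a (l 14811624) (a (l 14812600) (l 14819600))) (c (l 14826448) (l 14801616))) (l 14819800)) (b (c (a (l 14836864) (l 14854528)) (l 14820480)) (a (c (l 14826824) (l 14801848)) (b (c (l 14830592) (l 14805352)) (c (l 14825280) (l 14800072)))))) (l 14829992)) (b (a (c (a (l 14855608) (l 14874712)) (l 14839728)) (l 14890912)) (a (b (a (c (l 14828496) (l 14803344)) (b (c (l 14833944) (l 14808568)) (c (l 14827680) (l 14802304)))) (l 14821696)) (b (c (a (l 14844016) (l 14863576)) (l 14828392)) (a (c (b (a (l 14827736) (l 14829072)) (l 14831112)) (l 14806112)) (b (l 14826040) (c (a (l 14829528) (l 14831248)) (l 14805848)))))))) (a (l 14860424) (c (l 14854976) (l 14831480)))), by decide +kernel⟩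

def k6_pm_022 : ∃ t, chk3 f_pm_022 t 31 16 2 = true :=
  ⟨(b (a (a (a (a (b (l 14915464) (l 14848608)) (l 14892264)) (l 14907424)) (l 14938456)) (a (c (l 14993136) (l 14969224)) (c (l 15037176) (l 15013712)))) (a (b (a (b (a (a (l 14821352) (b (a (l 14819440) (l 14821408)) (l 14821376))) (b (l 14832312) (a (l 14821264) (b (l 14825048) (l 14821520))))) (l 14828272)) (a (b (l 14844264) (b (a (l 14844936) (b (l 14828728) (l 14824488))) (l 14826832))) (b (l 14865408) (b (l 14840152) (a (b (a (l 14824840) (l 14826360)) (l 14826360)) (b (l 14832856) (a (l 14826440) (l 14828192)))))))) (a (l 14843488) (l 14838328))) (b (a (a (l 14869760) (l 14891448)) (l 14924600)) (a (b (a (b (a (b (a (l 14828120) (l 14830120)) (l 14829384)) (b (l 14837400) (a (l 14829888) (l 14832168)))) (l 14832800)) (b (l 14849384) (a (b (a (l 14831760) (l 14834328)) (l 14832856)) (b (l 14842184) (a (b (l 14833688) (l 14832960)) (l 14836616)))))) (a (l 14840256) (l 14838888))) (b (l 14874008)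 (a (b (a (b (a (b (l 14835928) (l 14834896)) (l 14839024)) (l 14836632)) (b (l 14847304) (a (b (l 14838312) (l 14836920)) (l 14841560)))) (c (l 14852992) (l 14827320))) (b (l 14859832) (a (b (a (b (l 14840840) (l 14839048)) (l 14844224)) (c (a (l 14852976) (l 14853568)) (l 14827768))) (b (l 14852760) (a (b (l 14843528) (c (l 14854232) (l 14828296))) (l 14847040))))))))))), by decide +kernel⟩

def k7_pm_022 : ∃ t, chk3 f_pm_022 t 15 17 2 = true :=
  ⟨(a (a (l 14921280) (c (l 14913936) (l 14894384))) (a (b (l 14871224) (l 14911744)) (b (a (l 14864664) (b (a (l 14852224) (b (b (a (l 14843728) (b (a (l 14842072) (b (c (l 14855392) (l 14829456)) (l 14842456))) (l 14844472))) (l 14848504)) (l 14856072))) (l 14871784))) (l 14903472)))), by decide +kernel⟩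

def k8_pm_022 : ∃ t, chk3 f_pm_022 t 15 9 2 = true :=
  ⟨(a (b (a (l 15002000) (l 14985024)) (l 15072968)) (b (a (l 14972336) (l 14963904)) (l 15047616))), by decide +kernel⟩

def k9_pm_022 : ∃ t, chk3 f_pm_022 t 7 5 2 = true :=
  ⟨(a (b (a (b (l 15249224) (l 15322400)) (b (l 15192200) (l 15267168))) (a (a (l 15419752) (l 15390032)) (b (l 15338976) (l 15406816)))) (b (a (b (l 15151248) (l 15227280)) (b (l 15126072) (l 15202424))) (a (b (l 15300320) (l 15369552)) (b (l 15275928) (l 15345784))))), by decide +kernel⟩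

def k10_pm_022 : ∃ t, chk3 f_pm_022 t 7 2 3 = true :=
  ⟨(b (a (b (a (a (l 14926496) (l 14887192)) (b (a (l 14849064) (l 14818936)) (a (l 14939880) (l 14910304)))) (a (c (l 15128344) (l 15124152)) (l 14976504))) (b (a (b (b (a (b (a (b (a (l 14764176) (l 14764912)) (l 14770800)) (b (l 14782712) (a (l 14764104) (b (l 14767208) (l 14761968))))) (l 14782112)) (b (a (l 14802048) (l 14841360)) (a (b (a (l 14765344) (b (l 14770208) (l 14763968))) (l 14771944)) (b (l 14790224) (a (l 14767864) (b (l 14774736) (l 14767288))))))) (a (l 14816504) (l 14795984))) (a (l 14885320) (l 14864912))) (b (b (a (a (a (l 14836712) (l 14857896)) (l 14889512)) (a (l 14933080) (l 14978240))) (a (b (a (b (a (b (l 14769456) (l 14771152)) (b (l 14780832) (l 14771960))) (l 14777904)) (b (l 14803760) (a (b (a (l 14772312) (l 14775232)) (l 14775608)) (b (l 14788536) (a (l 14775232) (l 14778720)))))) (l 14791632)) (b (a (l 14829704) (l 14874680)) (a (b (a (b (a (l 14778480) (l 14782600))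 (l 14781336)) (b (l 14797688) (a (l 14782072) (l 14786872)))) (l 14788832)) (b (l 14822736) (a (b (a (l 14786008) (l 14791544)) (l 14788528)) (b (l 14808104) (a (b (l 14790320) (l 14788688)) (l 14796648))))))))) (a (b (l 14826072) (l 14871960)) (b (a (l 14817168) (b (l 14802112) (l 14824104))) (l 14860576))))) (a (b (l 14966184) (l 15056800)) (b (a (l 14940640) (l 14929104)) (l 15025200))))) (a (b (a (l 15297960) (l 15236088)) (a (b (l 15419360) (l 15495256)) (a (l 15413408) (l 15388264)))) (b (a (l 15189696) (l 15137616)) (a (a (l 15366536) (l 15327232)) (a (l 15312264) (l 15300624)))))), by decide +kernel⟩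

def k11_pm_022 : ∃ t, chk3 f_pm_022 t 3 6 1 = true :=
  ⟨(a (a (b (a (b (c (l 15853296) (l 15909264)) (c (l 15890624) (l 15954240))) (b (c (l 15747840) (l 15803464)) (c (l 15790488) (l 15854536)))) (a (b (c (l 15919872) (l 15991112)) (a (l 16002480) (l 15955488))) (b (c (l 15825320) (l 15897688)) (c (l 15850864) (l 15931784))))) (b (a (b (c (l 15657168) (l 15711176)) (c (l 15704504) (l 15767552))) (b (c (l 15559920) (l 15632120)) (c (l 15611256) (l 15693000)))) (a (b (c (l 15744216) (l 15816232)) (c (l 15774888) (l 15856008))) (b (c (l 15676088) (l 15746392)) (c (l 15711056) (l 15791080)))))) (a (b (b (a (a (l 15556672) (l 15527888)) (b (l 15453464) (l 15486144))) (a (c (l 15552152) (l 15630656)) (a (l 15563960) (l 15542768)))) (a (b (c (l 15599408) (l 15687920)) (c (l 15637888) (l 15736584))) (b (a (l 15618320) (l 15598304)) (a (l 15664056) (l 15645232))))) (b (a (a (b (l 15460928) (l 15503568)) (b (l 15444928) (l 15488248))) (a (b (l 15432008) (l 15475792))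 (b (l 15443104) (c (l 15466704) (l 15508064))))) (a (b (a (l 15581024) (l 15566424)) (a (l 15628912) (l 15573088))) (b (a (l 15533480) (l 15524088)) (c (a (l 15571032) (l 15563328)) (l 15610440))))))), by decide +kernel⟩

def k12_pm_022 : ∃ t, chk3 f_pm_022 t 3 7 1 = true :=
  ⟨(a (b (a (b (a (c (l 15948432) (l 16035488)) (c (l 15865728) (l 15955272))) (a (c (l 15944816) (l 16039576)) (a (l 15934352) (l 15899520)))) (b (a (c (l 15795008) (l 15885400)) (c (l 15735608) (l 15825488))) (a (c (l 15803008) (l 15902504)) (c (l 15748128) (l 15847680))))) (a (b (a (b (a (l 16000368) (l 15962928)) (c (b (l 15922080) (l 15908336)) (l 16014816))) (b (l 15890672) (c (l 15846976) (l 15951664)))) (a (b (c (l 15881768) (l 15967576)) (c (l 15848304) (l 15918168))) (b (c (l 15816168) (l 15906456)) (l 15652768)))) (b (a (b (l 15851376) (c (l 15789200) (l 15896880))) (b (l 15800088) (l 15710672))) (a (b (l 15764664) (l 15767160)) (c (l 15657264) (l 15784824)))))) (b (a (b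 (a (c (l 15666040) (l 15775040)) (b (l 15682648) (l 15697800))) (a (b (l 15747696) (l 15754624)) (b (l 15709848) (l 15718128)))) (a (b (b (l 15609424) (l 15667408)) (b (l 15680296) (l 15689344))) (b (b (a (l 15633600) (l 15624528)) (l 15624360)) (b (l 15658472) (l 15667688))))) (a (b (a (b (l 15757160) (l 15754328)) (b (l 15721960) (l 15720992))) (a (c (l 15661264) (l 15746984)) (b (l 15691696) (l 15652888)))) (b (a (b (l 15693872) (l 15693816)) (b (l 15672264) (l 15672080))) (a (b (l 15666760) (l 15627472)) (b (l 15646848) (l 15607080))))))), by decide +kernel⟩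

theorem s13_pm_022 : ∃ t, chk3 f_pm_022 t 3 3 1 = true := ex3_b k11_pm_022 k12_pm_022

theorem s14_pm_022 : ∃ t, chk3 f_pm_022 t 15 16 2 = true := ex3_a k5_pm_022 k6_pm_022

theorem s15_pm_022 : ∃ t, chk3 f_pm_022 t 15 8 2 = true := ex3_b s14_pm_022 k7_pm_022

theorem s16_pm_022 : ∃ t, chk3 f_pm_022 t 15 4 2 = true := ex3_b s15_pm_022 k8_pm_022

theorem s17_pm_022 : ∃ t, chk3 f_pm_022 t 7 4 2 = true := ex3_a k4_pm_022 s16_pm_022

theorem s18_pm_022 : ∃ t, chk3 f_pm_022 t 7 2 2 = true := ex3_b s17_pm_022 k9_pm_022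

theorem s19_pm_022 : ∃ t, chk3 f_pm_022 t 7 2 1 = true := ex3_c s18_pm_022 k10_pm_022

theorem s20_pm_022 : ∃ t, chk3 f_pm_022 t 3 2 1 = true := ex3_a k3_pm_022 s19_pm_022

theorem s21_pm_022 : ∃ t, chk3 f_pm_022 t 3 1 1 = true := ex3_b s20_pm_022 s13_pm_022

theorem s22_pm_022 : ∃ t, chk3 f_pm_022 t 5 1 1 = true := ex3_b k1_pm_022 k2_pm_022

theorem s23_pm_022 : ∃ t, chk3 f_pm_022 t 2 1 1 = true := ex3_a k0_pm_022 s22_pm_022

theorem s24_pm_022 : ∃ t, chk3 f_pm_022 t 1 1 1 = true := ex3_a s23_pm_022 s21_pm_022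

theorem c_pm_022 : CertB 0 536870912 0 536870912 1020054732 13421774 3 eng mog cd0q0 cd0q2 pd2 true true false .pp 0 2 2
    ndB0q0 ndB0q2 pcB2 cut_pm_022 Ext.none :=
  certB2 (fam := true) (s1 := true) (s2 := false) (a := 0) (b := 2) (c := 2) (cn := .pp) (n1 := ndB0q0) (n2 := ndB0q2) (pc := pcB2) (cut := cut_pm_022) (xt := Ext.none) (P1 := 0) (W1 := 536870912) (P2 := 0) (W2 := 536870912) (P3 := 1020054732) (W3 := 13421774) (N0 := 3) (En := eng) (mo := mog) (C1 := cd0q0) (C2 := cd0q2) (C3 := pd2)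
    rfl (fun _ => rfl) s24_pm_022

noncomputable def cut_pm_023 : Cut := Cut.of [[⟨3, 0, 0, 1449551462⟩], [⟨4, 0, 0, 2845415833⟩]]

noncomputable def f_pm_023 : ℕ → ℕ → ℕ → ℕ → Bool := onCell 1610612736 536870912 0 536870912 1020054732 13421774
    (rowB 3 eng mog cd0q0 cd0q2 pd3 2 true true false .up 0 2 3 (qsf 0 536870912 0 536870912 3) ndB0q0 ndB0q2 pcB3 cut_pm_023 Ext.none)

def k0_pm_023 : ∃ t, chk3 f_pm_023 t 1 1 1 = true :=
  ⟨(a (b (a (b (a (b (a (b (l 16490584) (l 16400648)) (b (l 16510480) (b (l 16528344) (l 16450824)))) (a (l 16443528) (b (l 16482944) (l 16492072)))) (b (a (a (l 16555384) (l 16557592)) (a (l 16557584) (l 14))) (a (b (a (l 16539448) (l 16497056)) (l 16536648)) (b (a (b (l 16586488) (l 16574304)) (l 16578664)) (a (l 16564640) (l 16540424)))))) (a (a (b (l 16428896) (l 16400608)) (b (l 16480128) (l 16468472))) (b (a (l 16523208) (l 16432840)) (a (l 16508200) (l 16541224))))) (a (b (b (l 14) (a (b (a (l 16618016) (l 14)) (a (b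 (l 16578616) (l 16592888)) (b (l 14) (l 191226259063)))) (l 2))) (a (b (b (l 185320694375) (l 16582152)) (l 16568032)) (l 2))) (l 2))) (b (a (a (b (a (l 16271848) (l 16354328)) (b (a (l 16353512) (l 16408696)) (a (l 16308880) (l 16337928)))) (b (a (l 16409664) (l 16438120)) (a (b (l 16458360) (l 16351048)) (b (l 16461664) (l 2))))) (l 2)) (a (b (a (b (a (l 16282872) (l 16282368)) (a (l 16273344) (l 16218672))) (b (a (l 16235112) (l 2)) (l 2))) (a (b (a (l 16111256) (l 45733221687)) (a (b (l 4930777495) (c (l 15970496) (l 16110560))) (l 2))) (l 2))) (l 2)))) (l 2)), by decide +kernel⟩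

theorem c_pm_023 : CertB 0 536870912 0 536870912 1020054732 13421774 3 eng mog cd0q0 cd0q2 pd3 true true false .up 0 2 3
    ndB0q0 ndB0q2 pcB3 cut_pm_023 Ext.none :=
  certB2 (fam := true) (s1 := true) (s2 := false) (a := 0) (b := 2) (c := 3) (cn := .up) (n1 := ndB0q0) (n2 := ndB0q2) (pc := pcB3) (cut := cut_pm_023) (xt := Ext.none) (P1 := 0) (W1 := 536870912) (P2 := 0) (W2 := 536870912) (P3 := 1020054732) (W3 := 13421774) (N0 := 3) (En := eng) (mo := mog) (C1 := cd0q0) (C2 := cd0q2) (C3 := pd3)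
    rfl (fun _ => rfl) k0_pm_023

noncomputable def cut_pm_101 : Cut := Cut.of [[⟨3, 0, 0, 1449551462⟩], [⟨4, 0, 0, 2845415833⟩], [⟨0, 1, 0, 38347922⟩, ⟨1, 0, 0, 38347922⟩, ⟨2, 1, 0, 38347922⟩]]

noncomputable def f_pm_101 : ℕ → ℕ → ℕ → ℕ → Bool := onCell 536870912 536870912 536870912 536870912 1020054732 13421774
    (rowB 3 eng mog cd0q1 cd0q0 pd1 1 true true false .npn 1 0 1 (qsf 536870912 536870912 0 536870912 1) ndB0q1 ndB0q0 pcB1 cut_pm_101 Ext.none)

def k0_pm_101 : ∃ t, chk3 f_pm_101 t 1 1 1 = true :=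
  ⟨(l 6), by decide +kernel⟩

theorem c_pm_101 : CertB 536870912 536870912 0 536870912 1020054732 13421774 3 eng mog cd0q1 cd0q0 pd1 true true false .npn 1 0 1
    ndB0q1 ndB0q0 pcB1 cut_pm_101 Ext.none :=
  certB1 (fam := true) (s1 := true) (s2 := false) (a := 1) (b := 0) (c := 1) (cn := .npn) (n1 := ndB0q1) (n2 := ndB0q0) (pc := pcB1) (cut := cut_pm_101) (xt := Ext.none) (P1 := 536870912) (W1 := 536870912) (P2 := 0) (W2 := 536870912) (P3 := 1020054732) (W3 := 13421774) (N0 := 3) (En := eng) (mo := mog) (C1 := cd0q1) (C2 := cd0q0) (C3 := pd1)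
    rfl (fun _ => rfl) k0_pm_101

noncomputable def cut_pm_102 : Cut := Cut.of [[⟨3, 0, 0, 1449551462⟩], [⟨4, 0, 0, 2845415833⟩], [⟨0, 1, 0, 16777216⟩, ⟨1, 0, 0, 16777216⟩, ⟨2, 1, 0, 16777216⟩]]

noncomputable def f_pm_102 : ℕ → ℕ → ℕ → ℕ → Bool := onCell 536870912 536870912 0 536870912 1020054732 13421774
    (rowB 3 eng mog cd0q1 cd0q0 pd2 0 true true false .npp 1 0 2 (qsf 536870912 536870912 0 536870912 2) ndB0q1 ndB0q0 pcB2 cut_pm_102 Ext.none)

def k0_pm_102 : ∃ t, chk3 f_pm_102 t 2 1 1 = true :=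
  ⟨(l 6), by decide +kernel⟩

def k1_pm_102 : ∃ t, chk3 f_pm_102 t 3 2 1 = true :=
  ⟨(a (l 6) (b (l 6) (a (l 6) (b (l 6) (a (l 6) (a (l 6) (b (l 6) (c (b (l 15983848) (l 15944816)) (b (l 16029824) (l 15992496)))))))))), by decide +kernel⟩

def k2_pm_102 : ∃ t, chk3 f_pm_102 t 6 3 1 = true :=
  ⟨(b (l 6) (a (l 6) (b (a (l 6) (b (l 6) (a (l 6) (b (l 6) (l 16339672))))) (a (b (l 6) (a (l 16422640) (l 16376312))) (b (a (l 16364344) (l 16290232)) (a (l 16327336) (l 16275496))))))), by decide +kernel⟩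

def k3_pm_102 : ∃ t, chk3 f_pm_102 t 7 3 1 = true :=
  ⟨(a (b (b (l 6) (a (l 6) (b (a (l 6) (c (l 16208424) (l 16188576))) (a (c (l 16247656) (l 16212720)) (c (l 16161960) (l 16138424)))))) (a (b (b (a (c (l 16293760) (l 16238320)) (c (l 16285128) (l 16236472))) (a (c (a (l 16336248) (l 16302720)) (a (l 16274872) (l 16243760))) (c (l 16248960) (l 16195616)))) (a (b (c (l 16179832) (l 16222056)) (a (l 16234680) (l 16142888))) (b (c (l 16216848) (l 16159192)) (c (l 16187848) (l 16126384))))) (b (b (a (c (l 16207048) (l 16167688)) (c (l 16121880) (l 16094528))) (a (c (l 16171664) (l 16128008)) (c (l 16087304) (l 16056072)))) (b (a (c (l 16140616) (l 16092856)) (c (l 16057352) (l 16022240))) (a (c (l 16112976) (l 16061408)) (l 15927976)))))) (b (a (b (b (a (l 6) (b (l 6) (l 16054200))) (a (c (l 16168448) (l 16164528)) (c (l 16065408) (l 16076816)))) (b (a (c (l 16114760) (l 16108336)) (c (l 16011712) (l 16021704))) (a (l 16084896) (l 15969696)))) (b (a (b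 (c (a (l 16043936) (l 15982976)) (a (l 16068656) (l 16016816))) (c (l 15950400) (l 15980064))) (b (c (b (l 15908408) (l 15874536)) (l 15941048)) (c (l 15828376) (l 15880072)))) (a (b (c (l 15896696) (l 15926080)) (c (l 15851064) (l 15879416))) (b (c (l 15774672) (l 15827280)) (c (l 15729368) (l 15781896)))))) (a (a (b (b (l 16022816) (l 15987376)) (b (l 15956760) (l 15930128))) (b (b (l 15929488) (l 15895144)) (b (l 15865840) (l 15840736)))) (b (a (b (a (l 15853840) (l 15798736)) (a (l 15820360) (l 15765848))) (b (l 15549224) (l 15559208))) (a (b (a (l 15792088) (l 15738280)) (c (l 15732784) (l 15749992))) (b (l 15574696) (l 15615840))))))), by decide +kernel⟩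

theorem s4_pm_102 : ∃ t, chk3 f_pm_102 t 3 3 1 = true := ex3_a k2_pm_102 k3_pm_102

theorem s5_pm_102 : ∃ t, chk3 f_pm_102 t 3 1 1 = true := ex3_b k1_pm_102 s4_pm_102

theorem s6_pm_102 : ∃ t, chk3 f_pm_102 t 1 1 1 = true := ex3_a k0_pm_102 s5_pm_102

theorem c_pm_102 : CertB 536870912 536870912 0 536870912 1020054732 13421774 3 eng mog cd0q1 cd0q0 pd2 true true false .npp 1 0 2
    ndB0q1 ndB0q0 pcB2 cut_pm_102 Ext.none :=
  certB0 (fam := true) (s1 := true) (s2 := false) (a := 1) (b := 0) (c := 2) (cn := .npp) (n1 := ndB0q1) (n2 := ndB0q0) (pc := pcB2) (cut := cut_pm_102) (xt := Ext.none) (P1 := 536870912) (W1 := 536870912) (P2 := 0) (W2 := 536870912) (P3 := 1020054732) (W3 := 13421774) (N0 := 3) (En := eng) (mo := mog) (C1 := cd0q1) (C2 := cd0q0) (C3 := pd2)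
    rfl s6_pm_102

noncomputable def cut_pm_112 : Cut := Cut.of [[⟨3, 0, 0, 1449551462⟩], [⟨4, 0, 0, 2845415833⟩]]

noncomputable def f_pm_112 : ℕ → ℕ → ℕ → ℕ → Bool := onCell 536870912 536870912 536870912 536870912 1020054732 13421774
    (rowB 3 eng mog cd0q1 cd0q1 pd2 0 true true false .dn 1 1 2 (qsf 536870912 536870912 536870912 536870912 2) ndB0q1 ndB0q1 pcB2 cut_pm_112 Ext.none)

def k0_pm_112 : ∃ t, chk3 f_pm_112 t 2 1 1 = true :=
  ⟨(b (b (a (l 6) (b (l 6) (a (l 6) (a (b (l 6) (l 16514336)) (b (a (l 6) (l 16491488)) (l 16459584)))))) (a (a (l 6) (b (l 6) (b (a (l 6) (l 16514336)) (a (b (l 6) (l 16491488)) (l 16459584))))) (a (b (a (b (l 6) (l 16517848)) (l 16492272)) (a (l 16438064) (l 16388432))) (b (b (l 16438064) (l 16388432)) (l 16310936))))) (b (a (b (a (b (a (l 6) (l 16441496)) (a (b (l 16467976) (l 16427576)) (l 16409168))) (b (a (l 16442240) (l 16399976)) (a (l 16370616) (l 16331400)))) (a (b (a (l 16236712) (l 16326496)) (a (b (l 16292264)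 (l 16241800)) (l 16171016))) (b (a (l 16290736) (l 16254480)) (a (l 16201112) (l 16167992))))) (b (a (b (a (l 16354832) (l 16306896)) (a (l 16290752) (l 16247200))) (a (b (l 16256704) (l 16199568)) (l 16176648))) (a (b (a (l 16216992) (l 16177576)) (a (l 16133880) (l 16098136))) (b (a (l 16135488) (l 2)) (l 2))))) (b (a (a (b (a (b (l 16041384) (c (l 16160712) (l 16096752))) (b (l 16157264) (c (l 16132048) (l 16068624)))) (a (b (c (l 16087848) (l 16032840)) (l 15965712)) (b (l 15909864) (l 15963512)))) (b (a (b (l 16126768) (l 15904776)) (l 15986504)) (b (a (c (l 16041576) (l 15981232)) (c (l 16016752) (l 15956568))) (a (l 15941576) (l 2))))) (a (b (a (l 16039880) (l 2)) (l 2)) (l 2))) (a (b (b (a (a (l 15906640) (l 15885400)) (a (l 15865664) (l 2))) (a (a (l 15819016) (l 15778840)) (l 2))) (a (b (a (l 15700336) (l 15704240)) (a (l 15577008) (l 2))) (l 2))) (l 2))))), by decide +kernel⟩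

def k1_pm_112 : ∃ t, chk3 f_pm_112 t 3 1 1 = true :=
  ⟨(b (a (b (a (b (a (b (l 6) (l 16441496)) (b (a (l 16467976) (l 16427576)) (l 16409168))) (a (b (l 16442240) (l 16399976)) (b (l 16370616) (l 16331400)))) (b (a (b (l 16236712) (l 16326496)) (b (a (l 16292264) (l 16241800)) (l 16171016))) (a (b (l 16290736) (l 16254480)) (b (l 16201112) (l 16167992))))) (a (b (a (b (l 16354832) (l 16306896)) (b (l 16290752) (l 16247200))) (b (a (l 16256704) (l 16199568)) (l 16176648))) (b (a (b (l 16216992) (l 16177576)) (b (l 16133880) (l 16098136))) (a (b (l 16135488) (l 2)) (l 2))))) (a (b (b (a (b (a (l 16041384) (c (l 16160712) (l 16096752))) (a (l 16157264) (c (l 16132048) (l 16068624)))) (b (a (c (l 16087848) (l 16032840)) (l 15965712)) (a (l 15909864) (l 15963512)))) (a (b (a (l 16126768) (l 15904776)) (l 15986504)) (a (b (c (l 16041576) (l 15981232)) (c (l 16016752) (l 15956568))) (b (l 15941576) (l 2))))) (b (a (b (l 16039880) (l 2)) (l 2)) (l 2))) (b (a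 (a (b (b (l 15906640) (l 15885400)) (b (l 15865664) (l 2))) (b (b (l 15819016) (l 15778840)) (l 2))) (b (a (b (l 15700336) (l 15704240)) (b (l 15577008) (l 2))) (l 2))) (l 2)))) (a (b (b (a (l 16095800) (l 2)) (l 2)) (l 2)) (l 2))), by decide +kernel⟩

theorem s2_pm_112 : ∃ t, chk3 f_pm_112 t 1 1 1 = true := ex3_a k0_pm_112 k1_pm_112

theorem c_pm_112 : CertB 536870912 536870912 536870912 536870912 1020054732 13421774 3 eng mog cd0q1 cd0q1 pd2 true true false .dn 1 1 2
    ndB0q1 ndB0q1 pcB2 cut_pm_112 Ext.none :=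
  certB0 (fam := true) (s1 := true) (s2 := false) (a := 1) (b := 1) (c := 2) (cn := .dn) (n1 := ndB0q1) (n2 := ndB0q1) (pc := pcB2) (cut := cut_pm_112) (xt := Ext.none) (P1 := 536870912) (W1 := 536870912) (P2 := 536870912) (W2 := 536870912) (P3 := 1020054732) (W3 := 13421774) (N0 := 3) (En := eng) (mo := mog) (C1 := cd0q1) (C2 := cd0q1) (C3 := pd2)
    rfl s2_pm_112

end Pool.Agent.Strip051.G.I9500_9625.Tab.C.BA00

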