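import Pool.Agent.Strip051.G.I9500_9625.Tab
import Pool.Agent.Strip051.PB.ExtD3

/-! # Certificates B10 (generated) -/

set_option linter.all false
set_option maxRecDepth 100000

namespace Pool.Agent.Strip051.G.I9500_9625.Tab.C.BA03

open Pool.Agent.Strip051.PB Pool.Agent.Strip051.PB.T
open Pool.Agent.Strip051.G.I9500_9625.Tab

noncomputable def f_pm_033 : ℕ → ℕ → ℕ → ℕ → Bool := onCell 0 536870912 0 1230186008 1020054732 13421774
    (rowB 3 eng mog cd0q0 cd3q3 pd3 0 true true false .pnn 0 3 3 (qsf 0 536870912 0 1230186008 3) ndB0q0 ndB3q3 pcB3 Cut.none Ext.none)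

def k0_pm_033 : ∃ t, chk3 f_pm_033 t 1 2 1 = true :=
  ⟨(l 4), by decide +kernel⟩

def k1_pm_033 : ∃ t, chk3 f_pm_033 t 1 6 1 = true :=
  ⟨(a (b (l 4) (a (a (b (a (b (l 4) (l 14851144)) (l 4)) (a (b (l 14838336) (l 14819776)) (b (a (l 14987920) (l 15087304)) (l 15021496)))) (b (l 4) (a (b (l 4) (a (l 15169328) (l 15258576))) (b (l 4) (a (l 15342696) (l 4)))))) (l 4))) (l 4)), by decide +kernel⟩

def k2_pm_033 : ∃ t, chk3 f_pm_033 t 2 14 1 = true :=
  ⟨(a (a (b (a (b (b (l 14804768) (l 14799024)) (l 14796216)) (b (a (l 14951144) (l 15054288)) (b (l 14798288) (l 14983712)))) (a (b (l 14791768) (c (l 14859728) (l 14700688))) (b (a (l 14935328) (l 15031592)) (a (l 14929920) (l 15029360))))) (b (a (b (l 15197664) (b (l 15181688) (l 15170512))) (b (a (l 15332680) (l 15415488)) (l 15355720))) (b (a (b (l 15163992) (l 15162448)) (b (l 15338560) (l 15307032))) (a (l 15163480) (b (l 15325216) (l 15326040)))))) (b (a (a (b (b (l 4) (l 15530024)) (a (l 15482072) (l 15560368))) (b (l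 4) (b (l 4) (l 15667544)))) (l 4)) (a (b (a (b (l 15506128) (l 15493824)) (b (l 15661864) (l 15652424))) (a (b (l 15481160) (l 15454144)) (b (l 15639256) (l 15626072)))) (a (b (a (l 15763384) (l 15810712)) (b (l 15787096) (l 15775056))) (b (l 4) (a (l 15864000) (l 15925648))))))), by decide +kernel⟩

def k3_pm_033 : ∃ t, chk3 f_pm_033 t 2 15 1 = true :=
  ⟨(a (a (b (a (b (c (l 14855256) (l 14672808)) (c (l 14824320) (b (l 14647568) (l 14629008)))) (b (a (l 14918088) (l 15020568)) (c (l 14994616) (a (l 14807136) (l 14920768))))) (a (b (c (b (l 14834288) (l 14825488)) (b (l 14609208) (a (l 14534688) (l 14643792)))) (c (b (a (l 14769296) (l 14863576)) (a (l 14737264) (l 14853072))) (b (a (l 14512880) (l 14622344)) (a (b (l 14496216) (l 14485072)) (l 14579296))))) (b (c (b (l 15028816) (l 15021896)) (a (l 14770208) (l 14885936))) (c (a (l 14875624) (l 15060432)) (a (b (l 14739128) (l 14717320)) (b (l 14855896) (l 14834496))))))) (b (b (a (c (l 15216824) (l 15099320)) (l 15306632))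 (a (c (l 15217360) (l 15076112)) (c (l 15376920) (l 15266000)))) (b (a (c (l 15211328) (l 15044952)) (c (l 15376488) (l 15240680))) (a (c (b (l 15202488) (l 15194752)) (b (l 15016856) (l 14996360))) (c (l 15368848) (b (l 15216000) (l 15197232))))))) (b (a (b (a (b (l 15474800) (l 15478352)) (b (l 15573560) (l 15614416))) (a (l 15311728) (l 15619872))) (b (a (b (l 15760776) (l 15726104)) (b (l 15900880) (l 15886224))) (a (b (l 15743504) (l 15746912)) (b (l 15870408) (l 15863240))))) (a (b (a (c (l 15524984) (l 15418848)) (c (l 15658512) (l 15581280))) (a (c (l 15522936) (l 15390656)) (c (l 15662800) (l 15559872)))) (b (a (l 15753256) (l 15868392)) (a (l 15752440) (l 15877152)))))), by decide +kernel⟩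

def k4_pm_033 : ∃ t, chk3 f_pm_033 t 3 7 1 = true :=
  ⟨(b (a (a (l 4) (l 4)) (l 2)) (a (b (a (b (a (b (l 16005784) (l 16015656)) (b (l 4) (l 16111960))) (a (b (l 16002808) (l 15986448)) (b (l 16105144) (l 16110184)))) (b (l 4) (a (b (l 4) (l 16202776)) (l 4)))) (a (b (a (b (l 15974648) (l 15975400)) (b (l 16093584) (l 16078376))) (a (l 15986592) (l 16082560))) (b (a (b (l 16196568) (l 16193016)) (b (l 16274216) (l 16265208))) (a (b (l 16175048) (l 16171296)) (b (l 16259768) (l 16265160)))))) (b (l 4) (a (b (l 4) (a (b (l 16287144) (l 16320856)) (b (l 4) (l 16368640)))) (l 4))))), by decide +kernel⟩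

theorem s5_pm_033 : ∃ t, chk3 f_pm_033 t 2 7 1 = true := ex3_b k2_pm_033 k3_pm_033

theorem s6_pm_033 : ∃ t, chk3 f_pm_033 t 1 7 1 = true := ex3_a s5_pm_033 k4_pm_033

theorem s7_pm_033 : ∃ t, chk3 f_pm_033 t 1 3 1 = true := ex3_b k1_pm_033 s6_pm_033

theorem s8_pm_033 : ∃ t, chk3 f_pm_033 t 1 1 1 = true := ex3_b k0_pm_033 s7_pm_033

theorem c_pm_033 : CertB 0 536870912 0 1230186008 1020054732 13421774 3 eng mog cd0q0 cd3q3 pd3 true true false .pnn 0 3 3
    ndB0q0 ndB3q3 pcB3 Cut.none Ext.none :=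
  certB0 (fam := true) (s1 := true) (s2 := false) (a := 0) (b := 3) (c := 3) (cn := .pnn) (n1 := ndB0q0) (n2 := ndB3q3) (pc := pcB3) (cut := Cut.none) (xt := Ext.none) (P1 := 0) (W1 := 536870912) (P2 := 0) (W2 := 1230186008) (P3 := 1020054732) (W3 := 13421774) (N0 := 3) (En := eng) (mo := mog) (C1 := cd0q0) (C2 := cd3q3) (C3 := pd3)
    rfl s8_pm_033

noncomputable def xt_pm_101 : Ext := extD3 3 ⟨4, 1, 1, 5, 99, 20, 33, 40, 51, 125, 1, 32⟩ eng cd0q1 cd3q0 pd1 true true false .npn 1 0 1 rfl ndB0q1 ndB3q0 pcB1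

noncomputable def f_pm_101 : ℕ → ℕ → ℕ → ℕ → Bool := onCell 536870912 536870912 0 536870912 1020054732 13421774
    (rowB 3 eng mog cd0q1 cd3q0 pd1 2 true true false .npn 1 0 1 (qsf 536870912 536870912 0 536870912 1) ndB0q1 ndB3q0 pcB1 Cut.none xt_pm_101)

def k0_pm_101 : ∃ t, chk3 f_pm_101 t 2 1 1 = true :=
  ⟨(l 3), by decide +kernel⟩

def k1_pm_101 : ∃ t, chk3 f_pm_101 t 6 2 1 = true :=
  ⟨(l 3), by decide +kernel⟩

def k2_pm_101 : ∃ t, chk3 f_pm_101 t 14 4 1 = true :=
  ⟨(l 3), by decide +kernel⟩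

def k3_pm_101 : ∃ t, chk3 f_pm_101 t 30 4 1 = true :=
  ⟨(l 3), by decide +kernel⟩

def k4_pm_101 : ∃ t, chk3 f_pm_101 t 62 16 1 = true :=
  ⟨(l 3), by decide +kernel⟩

def k5_pm_101 : ∃ t, chk3 f_pm_101 t 126 16 1 = true :=
  ⟨(a (a (l 3) (b (a (a (l 3) (b (b (b (a (a (l 3) (b (c (b (a (l 3) (c (c (l 261087010631) (l 258402657479)) (c (l 16766248) (l 16767216)))) (c (l 218137342423) (l 218137346247))) (b (c (c (l 220821697431) (l 220821699063)) (c (l 220821701031) (l 220821703031))) (c (l 218137350119) (l 218674224983)))) (c (c (l 16765792) (l 16768096)) (c (l 16770440) (l 16772808))))) (b (c (c (c (l 16764976) (l 16765944)) (b (l 16766816) (l 16774560))) (c (c (l 16768896) (l 16764648)) (c (l 16770896) (l 16771912)))) (c (c (l 16778000) (l 16780264)) (c (l 16761592) (l 16763920))))) (c (c (l 273971934807) (l 277193163175)) (a (c (l 462413636407) (l 467782351223)) (l 143942805263597679)))) (c (a (c (l 389936077079) (l 7691186064532250654565236847)) (c (l 16786568) (l 16785424)))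 (c (l 6849773694080514928446898287) (l 7265644176027999591341867119)))) (b (c (l 6946487759649790059587338479) (a (l 7575129185849444097101906159) (l 144046296748441839))) (c (l 6569302903929955800600068335) (c (l 6588645717043704449072382191) (l 6598317123600517509887312111)))))) (b (c (b (c (l 603119900050811652187759) (l 603159675830763404060271)) (l 143911331746447471)) (b (c (l 603200316346854868412015) (l 603241533323629916776047)) (l 144036744776548463))) (b (c (l 144108281720094831) (l 143939300506615919)) (c (l 143886523920597231) (l 143686137900876015))))) (b (a (a (l 3) (b (b (c (l 6482260244917585470725587183) (l 6501603058031194275044327663)) (c (l 6433903212132954192940400879) (l 6453246025246522658926805231))) (c (l 6346860553120549090983100655) (a (l 7381701054710387784339390575) (l 143346594863808623))))) (c (b (l 143664766117675247) (l 143532893430235375)) (b (l 143425416148893935) (l 143222693631918191)))) (b (a (c (l 6898130726864646203032682607) (l 6820759474408895626079043631))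 (c (l 143416482580349039) (l 143205994779492399))) (b (c (a (l 6433903212132546548907802735) (l 143496334568964207)) (l 5814933192489187152349872175)) (c (b (l 5756904753148089022516592687) (l 5737561940034120128101564463)) (a (l 6569302903928647106604007471) (l 142834222333018159)))))))) (c (b (b (l 143613295246671983) (a (l 143578110849728623) (l 143454759422050415))) (b (a (l 142975715858858223) (l 142823021173293295)) (b (l 142745917863264367) (b (l 142825494974431343) (l 142374832619946095))))) (b (b (l 143428508564439151) (l 142865077469593711)) (b (b (l 142653284046176495) (l 142585664065290351)) (b (l 142552266337484847) (l 141605930360733743)))))), by decide +kernel⟩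

def k6_pm_101 : ∃ t, chk3 f_pm_101 t 127 16 1 = true :=
  ⟨(b (b (a (l 143031722254811247) (a (l 16670672) (l 16669632))) (a (l 142390019721838703) (l 142619748878991471))) (b (a (a (l 142208806425723119) (l 142475712824180847)) (l 141928980595081327)) (b (a (l 141871118808891503) (l 16517704)) (a (l 140942581180416047) (l 140867883017207919))))), by decide +kernel⟩

def k7_pm_101 : ∃ t, chk3 f_pm_101 t 31 17 1 = true :=
  ⟨(a (l 3) (a (a (a (l 3) (c (b (b (b (a (l 6482260244916490769253220399) (l 142753820588785711)) (l 5631176467907366868985528367)) (b (l 5573743292314802763113292335) (l 5418998871394579770950292015))) (b (b (l 5264252108744790723249213999) (l 578522464184069774004783)) (b (l 575528615266981748249135) (l 273433599015)))) (b (b (b (l 5795590379374800512208191535) (l 5563476622007830737358405679)) (b (l 5370634069500003046386573871) (l 5225552244513001447150883375))) (b (l 4954757262197168348262224431) (b (l 270212174663) (l 15836448)))))) (c (b (b (b (l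 142098649035538479) (l 142150738394300463)) (b (l 592338928577435753160751) (l 587806941060669179236911))) (b (l 589857123726235977994799) (l 575709047482452722258479))) (b (b (b (l 142003609910460463) (l 139969856657129519)) (b (l 580144474827795333095983) (l 576661072414882008896047))) (b (l 572334158008092247708207) (b (l 15923792) (l 15869088)))))) (b (b (b (l 140166532063019055) (l 584826491212359866703919)) (b (l 588172557766065622540335) (l 587450111854993341419567))) (b (c (l 586951761534626904461359) (l 576994843190465613009455)) (b (l 576859374913674248458799) (a (l 15991472) (l 16032680))))))), by decide +kernel⟩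

def k8_pm_101 : ∃ t, chk3 f_pm_101 t 62 9 1 = true :=
  ⟨(l 3), by decide +kernel⟩

def k9_pm_101 : ∃ t, chk3 f_pm_101 t 63 18 1 = true :=
  ⟨(b (a (a (a (l 3) (c (b (c (l 271822781239) (l 271285778135)) (b (l 275043928759) (l 276654473895))) (b (l 271285656791) (l 276117386887)))) (c (b (a (l 15935288) (l 15951544)) (a (l 15852056) (l 15863320))) (b (l 15803536) (l 15740152)))) (c (a (l 15923800) (l 15949744)) (b (l 15857544) (l 15781376)))) (a (a (a (l 3) (a (l 3) (c (b (c (l 232094087863) (l 15762424)) (b (c (l 15781392) (l 15735576)) (c (a (l 261621910743) (l 15765152)) (l 15722184)))) (b (l 15685816) (c (l 244978750919) (l 15639928)))))) (c (b (c (l 15822384) (l 15772184)) (a (c (b (l 15784760) (l 15767104)) (l 15732072)) (l 15758336))) (b (a (l 15692664) (l 15702304)) (c (l 15691672) (l 15648696))))) (a (c (b (l 15812608) (l 15765744)) (l 15699640)) (c (l 15800072) (l 15719400))))), by decide +kernel⟩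

def k10_pm_101 : ∃ t, chk3 f_pm_101 t 126 19 1 = true :=
  ⟨(a (a (l 3) (a (l 3) (b (c (b (c (a (b (c (l 263769367287) (l 264843070663)) (a (l 3) (c (l 15750640) (l 15732216)))) (b (l 15751816) (l 15741584))) (b (l 239610101767) (a (l 270211728359) (l 15704712)))) (a (a (l 3) (c (b (c (l 233704561751) (l 15725552)) (c (l 243905100343) (l 245515682183))) (b (l 237999463479) (l 248200005815)))) (b (c (c (l 15742664) (l 15725568)) (l 15699640)) (c (c (l 15737160) (l 15721160)) (l 15696832))))) (b (c (b (l 15671992) (l 242294369159)) (l 245515524551)) (c (b (l 242294364215) (l 242294362999)) (b (l 15628552) (l 244978651783))))) (b (b (c (c (a (b (l 278264804743) (l 280412286919)) (l 15726488)) (c (l 238536328359) (l 240146911447))) (c (a (l 284170295671) (l 15664816)) (l 245515529015))) (c (a (a (l 3) (c (l 266453676071) (l 269674844439))) (c (l 15725840) (l 15697144))) (c (a (l 289539010535) (l 15667520)) (l 247126150167)))) (c (c (a (b (l 288465339479) (l 294370913127)) (b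 (l 15727048) (l 15729952))) (b (a (l 291686553815) (l 15699912)) (a (l 297592083719) (l 15704208)))) (c (b (a (l 294907729207) (l 15671728)) (l 247663091319)) (b (l 249273645319) (l 250884272311)))))))) (b (a (c (b (b (a (l 15733008) (l 15734312)) (c (l 15742128) (l 15705944))) (b (c (l 15734072) (l 15700280)) (c (l 15728584) (l 15696944)))) (b (c (l 15671872) (l 15633656)) (c (a (l 15664552) (l 15665512)) (l 15631032)))) (c (b (l 15730768) (l 15715160)) (b (l 15657472) (l 15650928)))) (c (b (a (b (c (l 15725408) (l 15695688)) (c (l 15724320) (l 15696336))) (l 15709192)) (a (a (b (a (l 15712968) (l 15712352)) (l 15716048)) (l 15712848)) (l 15711112))) (b (a (a (c (l 15666008) (l 15635136)) (l 15672136)) (l 15652200)) (a (a (c (l 15673912) (l 15645712)) (l 15680760)) (l 15659856)))))), by decide +kernel⟩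

def k11_pm_101 : ∃ t, chk3 f_pm_101 t 127 19 1 = true :=
  ⟨(b (c (a (b (l 15734864) (l 15716576)) (l 15729344)) (a (b (l 15665672) (l 15656424)) (l 15671272))) (c (a (b (l 15708416) (l 15708504)) (l 15707000)) (a (b (l 15655424) (l 15661152)) (l 15662944)))), by decide +kernel⟩

def k12_pm_101 : ∃ t, chk3 f_pm_101 t 14 5 1 = true :=
  ⟨(l 3), by decide +kernel⟩

def k13_pm_101 : ∃ t, chk3 f_pm_101 t 30 5 1 = true :=
  ⟨(l 3), by decide +kernel⟩

def k14_pm_101 : ∃ t, chk3 f_pm_101 t 62 5 1 = true :=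
  ⟨(l 3), by decide +kernel⟩

def k15_pm_101 : ∃ t, chk3 f_pm_101 t 126 10 1 = true :=
  ⟨(a (a (l 3) (a (l 3) (b (a (b (b (l 3) (l 3)) (l 3)) (b (c (b (b (c (l 15734408) (l 15709896)) (c (l 15740280) (l 15716872))) (b (c (l 15747440) (l 15725016)) (l 15724240))) (b (b (c (l 15684144) (l 15657152)) (c (l 15692128) (l 15666056))) (c (b (l 15701168) (l 15711168)) (b (l 15675888) (l 225114470919))))) (c (b (c (l 15770376) (l 15749912)) (c (l 15793176) (l 15773848))) (b (c (b (l 15722064) (l 15733776)) (b (l 232093815767) (l 239073161719))) (c (l 244978822071) (b (l 246052509351) (l 253031857895))))))) (b (c (b (l 266453782631) (l 271285699783)) (b (c (l 271822429079) (b (l 276117339015) (l 279338593127))) (c (l 278264941927) (l 282022989511)))) (b (l 3) (l 3)))))) (b (b (c (b (a (a (b (l 15720944) (l 15727192)) (l 15722072)) (l 15719560)) (a (c (l 15748208) (b (l 15722536) (l 15731512))) (l 15733456))) (b (a (a (b (l 15670248) (a (l 15678752) (l 15678288))) (l 15673536)) (l 15672784))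 (a (b (c (l 15699352) (l 15674736)) (c (l 15709088) (l 15685160))) (l 15690128)))) (c (b (a (c (l 15766672) (l 15746840)) (l 15751944)) (c (l 15785952) (l 15767736))) (b (a (b (c (l 15719736) (l 15696384)) (c (l 15731216) (l 15708360))) (l 15711184)) (a (c (l 15749880) (b (l 15721024) (l 15734320))) (l 15735392))))) (b (c (b (a (l 15806216) (l 15800032)) (c (l 15840072) (l 15823056))) (b (a (c (l 15777120) (b (l 15748200) (l 15762616))) (l 15762280)) (c (l 15804008) (b (l 15775376) (l 15790624))))) (c (b (l 15779104) (l 15833304)) (b (a (c (l 15838312) (l 15816784)) (l 15822584)) (a (c (l 15871616) (l 15849904)) (l 15855376))))))), by decide +kernel⟩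

def k16_pm_101 : ∃ t, chk3 f_pm_101 t 126 11 1 = true :=
  ⟨(a (b (l 3) (l 3)) (b (b (c (a (l 15839512) (l 15888880)) (b (a (l 190755030727) (l 15847640)) (a (l 15868472) (l 15924992)))) (b (c (l 15837728) (c (l 15920520) (l 15946752))) (c (l 15851256) (c (l 15896824) (l 15926920))))) (b (c (b (l 15821448) (l 15790920)) (b (c (l 15870976) (l 15904104)) (c (l 15843984) (l 15879704)))) (c (b (l 15760088) (l 15729224)) (b (c (l 15816424) (l 15854480)) (c (l 15788648) (l 15828880))))))), by decide +kernel⟩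

def k17_pm_101 : ∃ t, chk3 f_pm_101 t 127 5 1 = true :=
  ⟨(c (b (b (b (a (b (l 15715416) (l 15728016)) (l 15716552)) (a (b (l 15745400) (l 15766840)) (l 15748208))) (b (a (b (l 15791728) (l 15819568)) (l 15795632)) (a (l 15761088) (l 15854544)))) (c (b (b (l 15864368) (l 15788800)) (b (l 15749104) (l 15686984))) (b (b (l 15888368) (l 15756344)) (b (l 15805224) (l 15726192))))) (a (b (b (b (b (l 15672432) (l 15688344)) (b (l 15708160) (l 15731280))) (b (b (l 15757208) (l 15785528)) (b (l 15815904) (l 15848016)))) (b (b (a (l 15796680) (l 15854552)) (b (l 15908864) (l 15886760))) (b (c (l 15832216) (l 15867512)) (b (l 15811040) (l 15784768))))) (b (b (b (l 15680856) (l 15716944)) (b (l 15766032) (l 15761664))) (b (b (l 15869032) (l 15873824)) (b (l 15762768) (l 15795368)))))), by decide +kernel⟩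

def k18_pm_101 : ∃ t, chk3 f_pm_101 t 6 3 1 = true :=
  ⟨(l 3), by decide +kernel⟩

def k19_pm_101 : ∃ t, chk3 f_pm_101 t 14 3 1 = true :=
  ⟨(l 3), by decide +kernel⟩

def k20_pm_101 : ∃ t, chk3 f_pm_101 t 30 3 1 = true :=
  ⟨(l 3), by decide +kernel⟩

def k21_pm_101 : ∃ t, chk3 f_pm_101 t 62 3 1 = true :=
  ⟨(b (l 3) (l 3)), by decide +kernel⟩

def k22_pm_101 : ∃ t, chk3 f_pm_101 t 63 6 1 = true :=
  ⟨(a (a (b (l 3) (l 3)) (b (b (c (b (b (l 15698528) (l 15668152)) (b (l 15638208) (l 15598296))) (c (b (l 160153271319) (l 169279951111)) (b (b (l 15803192) (l 15777616)) (b (l 15741824) (l 15706416))))) (b (c (b (l 15558992) (l 15530840)) (b (l 169279951591) (l 173574864775))) (c (b (l 15503432) (l 15476816)) (b (l 177332909335) (l 180554084391))))) (b (b (c (l 183238122343) (b (l 15593544) (l 15561232))) (c (l 190754208103) (b (l 15540264) (l 15520192)))) (c (b (l 15357248) (l 204175793847)) (a (l 3) (b (l 15487360) (l 15453328))))))) (b (b (c (b (a (l 15658888) (l 15634872))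 (a (l 15600088) (l 15577096))) (b (a (b (l 15758496) (l 15732400)) (l 15722736)) (a (b (l 15706616) (l 15681240)) (l 15672072)))) (c (b (a (l 15543520) (l 15521528)) (a (l 15489736) (l 15468712))) (b (b (l 15677176) (l 15647864)) (a (l 15626968) (l 15576808))))) (b (b (c (a (l 15439192) (l 15419112)) (a (l 15573408) (l 15533264))) (c (l 15382616) (a (l 15511368) (l 15493000)))) (c (b (l 15340112) (b (l 15290072) (l 15272072))) (b (b (l 15474008) (l 15456456)) (a (l 15440504) (l 15423640))))))), by decide +kernel⟩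

def k23_pm_101 : ∃ t, chk3 f_pm_101 t 126 7 1 = true :=
  ⟨(a (l 3) (a (b (l 3) (l 3)) (b (b (b (c (b (l 15297432) (l 15281288)) (b (l 15430616) (l 15395888))) (c (b (l 15266376) (l 182163982359)) (b (l 15383288) (l 15382368)))) (b (c (b (c (l 15205536) (l 15275544)) (c (l 15194024) (l 15265048))) (b (l 195049111319) (l 200954672151))) (a (l 3) (c (b (c (l 15182080) (l 15254072)) (c (l 15173408) (l 15246328))) (b (l 15353744) (l 175721701463)))))) (b (b (c (b (c (l 215986624775) (l 215449936647)) (c (l 222429056743) (l 221892371687))) (b (b (l 218671367559) (l 221892588679)) (b (l 225113810487) (l 228335032983)))) (c (b (c (l 228871492999) (l 228334810039)) (c (l 235313932791) (l 234777252023))) (b (b (l 231556256167) (l 234240609159)) (b (l 237461834423) (l 240683059735))))) (b (c (b (c (l 241756378311) (l 241219697175)) (c (l 268599924919) (l 247662146039))) (b (b (l 243904287095) (l 246588643943)) (b (l 249809872439) (l 253031101991)))) (l 3)))))), by decide +kernel⟩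

def k24_pm_101 : ∃ t, chk3 f_pm_101 t 127 14 1 = true :=
  ⟨(b (b (c (a (l 15255632) (l 15238928)) (b (l 15410000) (l 15404560))) (c (a (b (l 15254232) (c (l 15206488) (l 15275552))) (b (l 15238096) (l 15225112))) (a (b (l 15371424) (l 15360272)) (l 15371176)))) (c (b (a (b (c (l 15193912) (l 15264024)) (c (l 15182680) (l 15253792))) (b (l 15213408) (l 15203032))) (a (b (c (l 15172824) (l 15244896)) (c (l 15164376) (l 15237368))) (b (c (l 15158024) (l 15230256)) (c (l 15149912) (l 15223048))))) (b (a (b (l 15360816) (l 15357360)) (b (l 15335328) (l 15326936))) (a (b (a (l 15337824) (l 15330608)) (a (l 15342104) (l 15324552))) (b (l 15319816) (l 15313976)))))), by decide +kernel⟩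

def k25_pm_101 : ∃ t, chk3 f_pm_101 t 127 15 1 = true :=
  ⟨(a (b (b (c (b (c (l 15157360) (l 15231232)) (c (a (l 15155256) (l 15148360)) (l 15222576))) (b (b (l 15334840) (l 15332776)) (a (b (l 15323976) (l 15322568)) (l 15316448)))) (c (a (b (c (l 15151104) (l 15226584)) (c (l 15148480) (l 15224712))) (b (c (l 15144376) (l 15219888)) (c (l 15141904) (l 15218168)))) (b (a (b (l 15321496) (l 15320784)) (l 15314456)) (a (b (l 15320416) (l 15320416)) (l 15313872))))) (b (c (a (b (c (l 15147392) (l 15224336)) (c (l 15147880) (l 15225488))) (b (c (l 15140968) (l 15217936)) (c (l 15141600) (l 15219224)))) (b (a (b (l 15320768) (l 15321488)) (l 15314712)) (a (b (l 15333056) (l 15334512)) (l 15317016)))) (c (b (a (c (l 15149952) (l 15228192)) (c (l 15143824) (l 15222064))) (a (c (l 15122192) (l 15232472)) (l 15144968))) (b (a (b (l 15336344) (l 15338544)) (l 15320792)) (a (b (l 15341128) (l 1)) (l 15326080)))))) (b (b (c (b (c (l 15143232) (l 15217224)) (c (l 15138000) (l 15212808)))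 (b (l 15309464) (l 15306296))) (c (a (b (l 15175256) (l 15152336)) (l 15125504)) (b (l 15304504) (l 15304112)))) (b (b (c (c (l 15131296) (l 15208304)) (l 15305144)) (c (l 15128872) (l 15307624))) (c (b (l 15131608) (l 15135928)) (b (l 15311576) (l 15317032)))))), by decide +kernel⟩

theorem s26_pm_101 : ∃ t, chk3 f_pm_101 t 127 7 1 = true := ex3_b k24_pm_101 k25_pm_101

theorem s27_pm_101 : ∃ t, chk3 f_pm_101 t 63 7 1 = true := ex3_a k23_pm_101 s26_pm_101

theorem s28_pm_101 : ∃ t, chk3 f_pm_101 t 63 3 1 = true := ex3_b k22_pm_101 s27_pm_101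

theorem s29_pm_101 : ∃ t, chk3 f_pm_101 t 31 3 1 = true := ex3_a k21_pm_101 s28_pm_101

theorem s30_pm_101 : ∃ t, chk3 f_pm_101 t 15 3 1 = true := ex3_a k20_pm_101 s29_pm_101

theorem s31_pm_101 : ∃ t, chk3 f_pm_101 t 7 3 1 = true := ex3_a k19_pm_101 s30_pm_101

theorem s32_pm_101 : ∃ t, chk3 f_pm_101 t 3 3 1 = true := ex3_a k18_pm_101 s31_pm_101

theorem s33_pm_101 : ∃ t, chk3 f_pm_101 t 126 5 1 = true := ex3_b k15_pm_101 k16_pm_101

theorem s34_pm_101 : ∃ t, chk3 f_pm_101 t 63 5 1 = true := ex3_a s33_pm_101 k17_pm_101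

theorem s35_pm_101 : ∃ t, chk3 f_pm_101 t 31 5 1 = true := ex3_a k14_pm_101 s34_pm_101

theorem s36_pm_101 : ∃ t, chk3 f_pm_101 t 15 5 1 = true := ex3_a k13_pm_101 s35_pm_101

theorem s37_pm_101 : ∃ t, chk3 f_pm_101 t 7 5 1 = true := ex3_a k12_pm_101 s36_pm_101

theorem s38_pm_101 : ∃ t, chk3 f_pm_101 t 63 19 1 = true := ex3_a k10_pm_101 k11_pm_101

theorem s39_pm_101 : ∃ t, chk3 f_pm_101 t 63 9 1 = true := ex3_b k9_pm_101 s38_pm_101

theorem s40_pm_101 : ∃ t, chk3 f_pm_101 t 31 9 1 = true := ex3_a k8_pm_101 s39_pm_101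

theorem s41_pm_101 : ∃ t, chk3 f_pm_101 t 63 16 1 = true := ex3_a k5_pm_101 k6_pm_101

theorem s42_pm_101 : ∃ t, chk3 f_pm_101 t 31 16 1 = true := ex3_a k4_pm_101 s41_pm_101

theorem s43_pm_101 : ∃ t, chk3 f_pm_101 t 31 8 1 = true := ex3_b s42_pm_101 k7_pm_101

theorem s44_pm_101 : ∃ t, chk3 f_pm_101 t 31 4 1 = true := ex3_b s43_pm_101 s40_pm_101

theorem s45_pm_101 : ∃ t, chk3 f_pm_101 t 15 4 1 = true := ex3_a k3_pm_101 s44_pm_101

theorem s46_pm_101 : ∃ t, chk3 f_pm_101 t 7 4 1 = true := ex3_a k2_pm_101 s45_pm_101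

theorem s47_pm_101 : ∃ t, chk3 f_pm_101 t 7 2 1 = true := ex3_b s46_pm_101 s37_pm_101

theorem s48_pm_101 : ∃ t, chk3 f_pm_101 t 3 2 1 = true := ex3_a k1_pm_101 s47_pm_101

theorem s49_pm_101 : ∃ t, chk3 f_pm_101 t 3 1 1 = true := ex3_b s48_pm_101 s32_pm_101

theorem s50_pm_101 : ∃ t, chk3 f_pm_101 t 1 1 1 = true := ex3_a k0_pm_101 s49_pm_101

theorem c_pm_101 : CertB 536870912 536870912 0 536870912 1020054732 13421774 3 eng mog cd0q1 cd3q0 pd1 true true false .npn 1 0 1
    ndB0q1 ndB3q0 pcB1 Cut.none xt_pm_101 :=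
  certB2 (fam := true) (s1 := true) (s2 := false) (a := 1) (b := 0) (c := 1) (cn := .npn) (n1 := ndB0q1) (n2 := ndB3q0) (pc := pcB1) (cut := Cut.none) (xt := xt_pm_101) (P1 := 536870912) (W1 := 536870912) (P2 := 0) (W2 := 536870912) (P3 := 1020054732) (W3 := 13421774) (N0 := 3) (En := eng) (mo := mog) (C1 := cd0q1) (C2 := cd3q0) (C3 := pd1)
    rfl (fun _ => rfl) s50_pm_101

noncomputable def xt_pm_102 : Ext := extD3 3 ⟨4, 1, 1, 5, 99, 20, 33, 40, 51, 125, 1, 32⟩ eng cd0q1 cd3q0 pd2 true true false .npp 1 0 2 rfl ndB0q1 ndB3q0 pcB2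

noncomputable def f_pm_102 : ℕ → ℕ → ℕ → ℕ → Bool := onCell 1073741824 536870912 0 536870912 1020054732 13421774
    (rowB 3 eng mog cd0q1 cd3q0 pd2 2 true true false .npp 1 0 2 (qsf 536870912 536870912 0 536870912 2) ndB0q1 ndB3q0 pcB2 Cut.none xt_pm_102)

def k0_pm_102 : ∃ t, chk3 f_pm_102 t 8 8 1 = true :=
  ⟨(a (b (b (a (a (b (a (a (l 16675272) (l 16687960)) (l 16654152)) (a (l 16658048) (b (l 16655280) (l 16625912)))) (a (b (b (l 2) (l 16663152)) (b (l 16635392) (l 16608496))) (b (l 2) (l 16598320)))) (a (b (l 2) (a (l 16574664) (l 2))) (l 2))) (b (a (a (l 141959148479152239) (a (l 16569160) (l 16544536))) (a (a (l 16518976) (l 16493800)) (b (l 2) (l 16442360)))) (a (a (b (l 16554288) (l 140873037009993839)) (b (l 16517304) (l 140956599805231215))) (b (l 16376928) (a (l 16441104) (l 16387312)))))) (b (a (b (a (b (l 578990691739074258839151) (l 585186780031716071319087)) (b (l 141451517458202735) (l 16431184))) (a (l 590671515588683528036399) (l 585860085010561680993839)))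 (b (a (l 584079974435322418818671) (l 16378712)) (a (l 16395728) (l 16383448)))) (a (a (b (l 589674097437379934621743) (l 583013669905265850717743)) (b (l 16451112) (l 585964284265931163293743))) (b (a (l 16423032) (l 16390504)) (a (l 16402736) (l 16383968)))))) (b (b (l 2) (b (l 2) (a (b (l 2) (l 16309256)) (l 2)))) (b (b (a (a (l 16323856) (l 16270504)) (l 2)) (a (a (l 16325168) (l 16268464)) (l 16185920))) (a (b (a (l 16331824) (l 16271720)) (a (l 16328296) (l 16267584))) (b (l 16184232) (l 16175200)))))), by decide +kernel⟩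

def k1_pm_102 : ∃ t, chk3 f_pm_102 t 8 9 1 = true :=
  ⟨(a (b (b (a (a (b (l 16081520) (l 15986472)) (a (l 16130904) (l 16193296))) (l 584788304331232136927279)) (a (a (c (l 15928696) (l 15849104)) (l 16014488)) (a (l 16124256) (l 16205392)))) (a (a (b (a (b (l 15798888) (l 15777216)) (l 15844176)) (a (b (l 15765464) (l 15761864)) (b (l 15816256) (l 15808240)))) (b (a (l 15899384) (l 15952064)) (b (l 15888360) (l 15873872)))) (a (b (l 16023912) (a (l 15943864) (l 15981680))) (b (l 16103416) (l 16031488))))) (b (a (b (b (l 16278432) (l 16259288)) (l 16218528)) (b (a (l 16177296) (l 16114448)) (a (l 16141328) (l 16078280)))) (a (b (l 16155336) (l 16086624)) (l 15892448)))), by decide +kernel⟩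

def k2_pm_102 : ∃ t, chk3 f_pm_102 t 9 4 1 = true :=
  ⟨(b (b (l 2) (b (l 2) (a (b (l 2) (a (l 16057352) (l 2))) (l 2)))) (a (b (a (b (l 16018592) (a (l 16013392) (l 15947384))) (b (l 15896792) (l 15846632))) (b (a (a (l 15980488) (l 15914304)) (b (l 15820088) (l 15804280))) (a (l 15906472) (a (l 15817064) (l 15748040))))) (b (b (l 2) (a (l 15718032) (l 2))) (b (a (l 15672016) (l 15536960)) (a (b (l 15648568) (l 15634808)) (l 15495688)))))), by decide +kernel⟩

def k3_pm_102 : ∃ t, chk3 f_pm_102 t 16 5 1 = true :=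
  ⟨(b (a (c (b (a (b (a (l 15789032) (l 15826360)) (a (l 15813784) (l 15843520))) (b (l 15877712) (l 15883728))) (a (b (a (l 15771200) (l 15877960)) (l 15791384)) (b (l 15908088) (l 15912856)))) (b (a (b (a (l 15747224) (l 15789856)) (b (l 15785992) (l 15802448))) (b (l 15851152) (l 15881424))) (b (a (b (l 15843176) (l 15760912)) (l 15833440)) (a (b (l 15785960) (l 15834096)) (l 15902600))))) (b (a (b (a (l 15916848) (l 15948072)) (a (l 15913632) (l 15938360))) (b (l 15988424) (l 15969280))) (a (b (c (l 15939144) (l 15933496)) (c (l 15894056) (l 15937704))) (b (l 15881352) (c (l 15868128) (l 15920264)))))) (c (b (a (b (a (b (l 15892168) (l 15865568)) (l 15839632)) (a (b (l 15836696) (l 15806592)) (l 15779752))) (b (a (l 15836664) (l 15808144)) (a (l 15775448) (l 15746472)))) (a (b (a (b (l 15775840) (l 15744816)) (l 15759640)) (a (b (l 15713760) (l 15682856)) (l 15697536))) (b (a (l 15713248) (l 15684480)) (a (l 15651472) (l 15623432))))) (b (a (a (b (a (l 15863696) (l 15899904))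 (b (l 15891352) (l 15824656))) (b (l 15888896) (b (l 15873472) (l 15847480)))) (b (a (l 15891496) (l 15827312)) (a (l 15839232) (l 15752680)))) (a (b (a (b (l 15840680) (l 15814144)) (c (l 15790008) (l 15824752))) (a (b (l 15787344) (l 15760512)) (b (l 15766856) (l 15739912)))) (b (a (l 15785104) (l 15761008)) (a (l 15730888) (l 15706824))))))), by decide +kernel⟩

def k4_pm_102 : ∃ t, chk3 f_pm_102 t 17 5 1 = true :=
  ⟨(b (b (a (b (l 16023480) (l 15965000)) (b (l 15955600) (l 15896840))) (a (b (l 15907704) (a (l 15865944) (l 15833928))) (b (l 15838120) (l 15780008)))) (b (a (b (a (l 15787584) (l 15775896)) (a (l 15624896) (l 15718248))) (b (l 15722632) (l 15666064))) (b (a (a (c (l 15652928) (l 15733728)) (l 15661288)) (l 15610472)) (a (a (c (l 15592704) (l 15680488)) (l 15605384)) (l 15451240))))), by decide +kernel⟩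

def k5_pm_102 : ∃ t, chk3 f_pm_102 t 9 5 1 = true :=
  ⟨(b (a (a (b (l 15770480) (l 15725384)) (b (l 15724048) (l 15630352))) (b (b (a (l 15529960) (b (l 15475728) (l 15464264))) (a (l 15583504) (l 15446752))) (a (l 15524192) (l 15404296)))) (a (b (a (l 15511744) (l 15530728)) (a (b (l 15537192) (l 15485432)) (l 15432032))) (b (a (l 15435624) (l 15330512)) (a (l 15345824) (l 15251464))))), by decide +kernel⟩

def k6_pm_102 : ∃ t, chk3 f_pm_102 t 5 2 1 = true :=
  ⟨(b (a (b (l 2) (b (l 2) (a (a (b (l 2) (l 15354552)) (l 2)) (l 2)))) (l 2)) (a (b (a (b (b (a (l 15318496) (l 15171664)) (a (b (l 15302376) (l 15293424)) (l 15141248))) (b (a (l 15279672) (b (l 15129240) (l 15123000))) (a (l 15259160) (l 15113272)))) (b (a (b (l 2) (l 14989120)) (l 2)) (b (a (l 14964680) (l 14807672)) (a (l 14807056) (l 14789480))))) (a (b (b (l 15165400) (l 15138504)) (l 14966024)) (b (b (a (l 14948184) (l 14784704)) (a (l 14938856) (l 14785008))) (a (l 14912112) (l 14776080))))) (b (b (l 2) (a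 (a (b (l 2) (l 14628040)) (l 2)) (l 2))) (a (a (b (b (l 14616304) (l 14617784)) (b (l 14624288) (l 14627200))) (b (l 281415853639) (b (l 14453672) (l 14466552)))) (b (a (l 331881388679) (l 2)) (b (l 324901887607) (a (l 14292896) (l 14114936)))))))), by decide +kernel⟩

def k7_pm_102 : ∃ t, chk3 f_pm_102 t 8 12 1 = true :=
  ⟨(a (b (a (c (b (a (b (l 15652232) (l 15601032)) (l 15615552)) (a (b (l 15571288) (l 15542104)) (l 15556384))) (b (a (b (l 15733824) (l 15707416)) (b (l 15713184) (l 15686784))) (a (b (l 15681384) (l 15655808)) (b (l 15660792) (l 15635280))))) (b (c (a (l 15590968) (l 15563680)) (a (l 15677584) (l 15653808))) (c (a (l 15532360) (l 15505856)) (a (l 15625856) (l 15602472))))) (a (c (b (a (b (l 15513544) (l 15485680)) (l 15499600)) (a (b (l 15458568) (l 15432248)) (l 15445672))) (b (a (b (l 15630776) (l 15606344)) (b (l 15610312) (l 15585960))) (a (b (l 15582576) (l 15559520)) (l 15578160)))) (c (b (a (l 15476144) (l 15450408)) (a (l 15422744) (l 15397744)))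 (b (a (l 15576240) (l 15553272)) (a (l 15529152) (l 15506584)))))) (b (a (a (c (b (l 15533968) (l 15477136)) (b (l 15628408) (l 15577872))) (c (b (l 15502456) (l 15446672)) (b (l 15600136) (l 15550704)))) (c (b (l 15452712) (l 15398624)) (b (l 15554536) (l 15506584)))) (a (b (a (c (l 15422592) (l 15529224)) (c (l 15393176) (l 15503168))) (a (c (l 15370896) (l 15483040)) (c (l 15342416) (l 15458080)))) (c (b (l 15346824) (l 15297624)) (b (l 15460640) (l 15417016)))))), by decide +kernel⟩

def k8_pm_102 : ∃ t, chk3 f_pm_102 t 8 13 1 = true :=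
  ⟨(a (b (a (c (b (a (l 15410056) (l 15374016)) (a (l 15347056) (l 15326936))) (b (a (b (l 15537232) (l 15515752)) (l 15527176)) (a (l 15506744) (l 15465064)))) (c (b (a (l 15351568) (l 15327240)) (b (l 15304480) (l 15282224))) (b (a (l 15484976) (l 15462784)) (a (l 15444064) (l 15422200))))) (a (c (b (a (l 15303760) (l 15283784)) (a (l 15264768) (l 15244864))) (b (a (l 15447544) (l 15427544)) (a (b (l 15421984) (l 15406224)) (l 15393944)))) (c (b (b (l 15260936) (l 15240672)) (a (l 15223464) (l 15200728))) (b (a (l 15406712) (l 15385128)) (a (l 15373232) (l 15351864)))))) (b (a (c (b (b (l 15320272) (l 15275984)) (b (l 15253512) (l 15231944))) (b (a (l 15439712) (l 15415656)) (a (l 15399544) (l 15376160)))) (b (c (l 15251360) (l 15376024)) (c (l 15208232) (l 15337784)))) (a (c (b (l 15222464) (l 15185240)) (b (l 15372344) (a (l 15329888) (l 15307344)))) (c (b (l 15168816) (l 15133184)) (b (l 15302944) (a (l 15284040) (l 15259336))))))), by decide +kernel⟩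

def k9_pm_102 : ∃ t, chk3 f_pm_102 t 16 14 1 = true :=
  ⟨(b (a (c (b (a (b (a (l 15264264) (l 15254680)) (a (l 15248264) (l 15238656))) (l 15210464)) (b (a (a (l 15233504) (l 15223848)) (a (l 15213880) (l 15203616))) (a (a (l 15220008) (l 15210296)) (a (l 15200312) (l 15190048))))) (b (a (b (l 15391544) (l 15377976)) (b (l 15371512) (l 15357904))) (a (b (l 15365552) (l 15354304)) (b (l 15324456) (l 15313136))))) (c (b (a (l 15189272) (l 15166904)) (a (b (l 15187696) (l 15195144)) (b (l 15165568) (l 15152176)))) (b (a (l 15343888) (l 15322680)) (a (b (l 15303808) (l 15292480)) (l 15297840))))) (b (a (c (a (b (c (l 15168320) (l 15237856)) (a (c (l 15161752) (l 15232400)) (l 15187096))) (b (a (l 15188016) (l 15177752)) (a (l 15177032) (l 15166752)))) (a (b (a (l 15328304) (l 15318272)) (a (l 15319536) (l 15309448))) (b (l 15303016) (l 15304608)))) (c (a (b (c (l 15127256) (l 15196832)) (c (l 15115776) (l 15186352))) (b (l 15140024) (l 15129136))) (a (b (l 15282328) (l 15273392))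 (b (l 15261256) (l 15252312))))) (a (c (c (a (b (a (l 15151736) (l 15141888)) (a (l 15143128) (l 15133200))) (b (l 15126680) (l 15117912))) (a (b (a (l 15223384) (l 15213408)) (a (l 15215728) (l 15205672))) (b (l 15198120) (l 15190304)))) (a (b (a (l 15312040) (l 15301880)) (a (l 15316328) (l 15295600))) (b (l 15303512) (a (l 15285296) (l 15274920))))) (c (a (b (c (l 15105640) (l 15177176)) (c (l 15096864) (l 15169320))) (b (c (l 15083760) (l 15155616)) (c (l 15075064) (l 15147792)))) (a (b (l 15265680) (l 15259240)) (b (l 15244592) (l 15238120))))))), by decide +kernel⟩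

def k10_pm_102 : ∃ t, chk3 f_pm_102 t 17 14 1 = true :=
  ⟨(b (a (c (b (b (l 15139184) (l 15123800)) (b (l 15109560) (a (l 15129280) (l 15105544)))) (b (a (l 15300960) (l 15278736)) (a (l 15276296) (l 15254336)))) (b (a (c (l 15093648) (l 15256008)) (c (l 15088600) (l 15232056))) (c (b (l 15059904) (l 15047440)) (a (l 15231976) (l 15208768))))) (a (c (b (a (b (l 15117312) (l 15106584)) (b (l 15093816) (l 15083312))) (a (b (l 15097136) (l 15089000)) (b (l 15074064) (l 15066104)))) (b (a (l 15256160) (l 15234400)) (a (l 15240784) (l 15219152)))) (c (b (a (b (l 15069576) (l 15059344)) (b (l 15044680) (l 15034736))) (a (b (l 15050352) (l 15042624)) (b (l 15026016) (l 15018552)))) (b (a (l 15212296) (l 15189688)) (a (l 15197248) (l 15175040)))))), by decide +kernel⟩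

def k11_pm_102 : ∃ t, chk3 f_pm_102 t 16 30 1 = true :=
  ⟨(a (c (c (b (a (b (a (l 15135960) (l 15125936)) (a (l 15130248) (l 15120120))) (b (l 15110560) (a (l 15109848) (l 15099424)))) (a (b (a (l 15126032) (l 15115792)) (a (l 15123328) (l 15112968))) (b (a (l 15105432) (l 15094960)) (a (l 15102520) (l 15091976))))) (b (a (b (a (l 15209464) (l 15199320)) (a (l 15204624) (l 15194376))) (b (l 15183856) (a (l 15184032) (l 15173584)))) (a (b (a (l 15201224) (l 15190880)) (a (l 15199304) (l 15188840))) (b (a (l 15180448) (l 15169928)) (a (l 15178312) (l 15167728)))))) (b (a (b (a (b (l 15302064) (l 15299960)) (l 15290640)) (a (b (l 15298200) (l 15296784)) (l 15297520))) (b (a (l 15280264) (l 15269840)) (a (l 15276576) (l 15266080)))) (a (b (a (b (l 15295712) (l 15294992)) (l 15295280)) (a (b (l 15294624) (l 15294616)) (l 15294440))) (b (a (l 15274248) (l 15263688)) (a (l 15273320) (l 15262672)))))) (c (a (b (b (c (l 15089480) (l 15162824)) (c (l 15083520) (l 15157704))) (b (c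 (l 15079008) (l 15154000)) (c (l 15075968) (l 15151728)))) (b (b (c (l 15067736) (l 15141312)) (c (l 15061808) (l 15136192))) (b (c (l 15057312) (l 15132464)) (c (l 15054272) (l 15130152))))) (b (a (b (l 15254088) (l 15260752)) (b (l 15232928) (l 15229040))) (a (b (l 15258264) (l 15262400)) (b (l 15226480) (l 15225272)))))), by decide +kernel⟩

def k12_pm_102 : ∃ t, chk3 f_pm_102 t 16 31 1 = true :=
  ⟨(a (a (a (b (b (c (c (l 15122168) (l 15198880)) (b (l 15294960) (l 15295672))) (c (c (l 15122576) (l 15199976)) (b (l 15296752) (l 15298192)))) (c (c (b (l 15103600) (l 15128184)) (b (l 15202624) (l 15206840))) (a (b (l 15314296) (l 15319472)) (b (l 15298312) (l 15303416))))) (b (b (c (c (l 15111680) (l 15188288)) (l 15295024)) (c (c (l 15111952) (l 15189264)) (l 15297056))) (c (b (c (l 15113808) (l 15191768)) (l 15114456)) (b (l 15300560) (l 15305560))))) (c (b (b (c (a (l 15101136) (l 15090512)) (a (l 15177664) (l 15167000))) (b (l 15092192) (l 15092808))) (b (b (l 15093816)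 (l 15095216)) (b (l 15097008) (l 15099200)))) (b (b (a (l 15273800) (l 15263064)) (a (l 15275728) (l 15264896))) (b (a (l 15279120) (l 15268184)) (a (l 15284000) (l 15272952)))))) (c (b (a (b (c (l 15074440) (l 15150912)) (c (l 15074432) (l 15151584))) (b (c (l 15052720) (l 15129280)) (c (l 15052672) (l 15129880)))) (a (b (c (l 15075984) (l 15153776)) (l 15076200)) (b (c (l 15054160) (l 15131968)) (c (l 15057208) (l 15135584))))) (b (a (b (l 15262688) (l 15264392)) (b (l 15225456) (l 15227040))) (a (b (l 15267552) (l 15277424)) (b (l 15230056) (l 15234528)))))), by decide +kernel⟩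

def k13_pm_102 : ∃ t, chk3 f_pm_102 t 17 15 1 = true :=
  ⟨(b (a (c (c (b (a (l 15042256) (l 15019320)) (a (b (l 15035128) (l 15032152)) (l 15010824))) (b (a (l 15116616) (l 15094232)) (a (b (l 15110576) (l 15108280)) (l 15087040)))) (b (a (b (l 15211560) (l 15207648)) (l 15187856)) (a (b (l 15205048) (l 15203792)) (l 15193152)))) (c (b (a (b (l 15036192) (l 15031088)) (b (l 15012376) (l 15007528))) (a (b (l 15027328) (l 15024944)) (b (l 15003984) (l 15001800)))) (b (a (l 15166080) (l 15144096)) (a (l 15160952) (l 15139096))))) (a (c (a (b (b (c (l 15030648) (l 15107416)) (c (l 15030624) (l 15107992))) (b (c (l 15032120) (l 15110056)) (c (l 15035152) (l 15113608)))) (b (b (l 15046592) (l 15046928)) (b (l 15048752) (l 15052064)))) (b (a (b (l 15203904) (l 15205400)) (l 15198560)) (a (b (l 15208312) (l 15212672)) (l 15209504)))) (c (b (a (b (l 15023968) (l 15024424)) (b (l 15001000) (l 15001608))) (a (b (l 15026328) (l 15029720)) (b (l 15003648) (l 15007152)))) (b (a (l 15161112)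 (l 15139304)) (a (l 15187720) (l 15165896)))))), by decide +kernel⟩

def k14_pm_102 : ∃ t, chk3 f_pm_102 t 9 3 1 = true :=
  ⟨(b (b (a (b (a (b (l 15435136) (l 15386608)) (l 15337832)) (a (c (l 15257264) (l 15378616)) (l 15103880))) (b (a (l 15259104) (l 15173520)) (a (l 15178568) (l 15100584)))) (a (b (a (c (l 15169416) (l 15300840)) (c (l 15105632) (l 15241232))) (a (c (l 15094536) (l 15292432)) (b (l 15122400) (l 15092656)))) (b (a (l 15106712) (l 15035464)) (a (l 15045824) (l 14980528))))) (b (a (c (b (a (a (l 15048360) (l 15000544)) (l 14979768)) (a (b (l 14980576) (l 14964016)) (l 14940792))) (b (a (b (l 15194400) (l 15172136)) (l 15130760)) (a (b (l 15153984) (l 15140104)) (l 15128880)))) (b (a (b (l 15008920) (l 14988712)) (l 14938008)) (a (b (l 14972440) (l 14960368)) (l 14951936)))) (a (a (b (b (a (c (b (l 14988208) (l 14983568)) (l 15121600)) (b (l 15041872) (l 15038024))) (a (c (b (l 14980248) (l 14978264)) (l 15116968)) (b (l 15035440) (l 15034128)))) (c (b (a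 (b (l 14977656) (l 14978456)) (l 14954416)) (a (b (l 14980688) (l 14984344)) (b (l 14957496) (l 14961312)))) (b (a (l 15117376) (l 15095024)) (a (l 15144032) (l 15121960))))) (b (c (b (l 14923824) (l 14918616)) (b (l 15083736) (l 15080272))) (c (b (a (l 14930696) (l 14906608)) (a (l 14935904) (l 14912320))) (b (l 15081664) (l 15088136))))) (b (a (b (l 14952720) (l 14949720)) (b (l 14899856) (l 14898520))) (a (c (l 14851208) (l 15037712)) (c (l 14801040) (l 14989704))))))), by decide +kernel⟩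

def k15_pm_102 : ∃ t, chk3 f_pm_102 t 5 3 1 = true :=
  ⟨(b (a (b (a (b (l 14904088) (l 14907632)) (b (l 14809056) (l 14771984))) (a (b (l 14917312) (l 14663184)) (b (l 14737976) (l 14710528)))) (b (a (b (l 14506280) (l 14538896)) (b (b (a (l 14312304) (l 14135984)) (a (l 14328256) (l 14162032))) (l 14266400))) (a (b (l 14528656) (l 14521944)) (b (l 14284792) (l 14303016))))) (a (b (a (b (a (l 14873880) (l 14805280)) (a (l 14850992) (l 14788248))) (b (l 14692296) (l 14685568))) (a (b (a (l 14843800) (l 14786096)) (a (l 14896120) (l 14800704))) (b (a (l 14724912) (l 14659808)) (a (l 14744440) (l 14684968))))) (b (a (b (l 14522160) (l 14531864)) (b (l 14325256) (l 14354720))) (a (b (l 14553256) (l 14588328)) (b (l 14393832) (l 14444704)))))), by decide +kernel⟩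

def k16_pm_102 : ∃ t, chk3 f_pm_102 t 3 2 1 = true :=
  ⟨(a (b (l 2) (a (b (l 2) (a (b (l 2) (b (l 2) (l 420464235799))) (l 2))) (l 2))) (l 2)), by decide +kernel⟩

def k17_pm_102 : ∃ t, chk3 f_pm_102 t 3 3 1 = true :=
  ⟨(a (b (a (b (b (a (b (l 385030779447) (a (l 13983408) (l 13801280))) (b (l 2) (l 492941172311))) (a (b (a (l 14016168) (l 13835632)) (a (l 14045688) (l 13875160))) (a (b (l 13652144) (l 13693112)) (l 460191952871)))) (b (a (l 14002392) (a (b (l 13739416) (l 13782840)) (b (l 13556272) (l 13609352)))) (a (l 14049784) (l 13759304)))) (b (a (b (l 2) (b (l 2) (l 552533256647))) (l 2)) (b (a (b (l 13153616) (a (l 13425528) (l 13240976))) (a (l 618568983255) (l 2))) (a (b (a (l 13485336) (l 13301264)) (a (l 13542784) (l 13367752))) (b (l 13026448) (a (l 13183880) (l 13001312))))))) (a (b (a (b (l 14097840) (l 14150416)) (b (l 13836656) (l 13915656))) (a (b (l 14210464) (l 14280256)) (b (l 13999720) (l 14091488)))) (b (b (a (l 13539984) (b (a (l 13256952) (l 13073728))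 (a (l 13328384) (l 13153280)))) (a (l 13647992) (l 13347080))) (a (b (l 13758800) (l 13875280)) (b (l 13486176) (l 13629440)))))) (b (a (b (l 2) (a (b (l 2) (a (l 759228680871) (l 2))) (l 2))) (l 2)) (a (b (b (a (b (l 691582955831) (a (l 12971176) (l 12792880))) (a (l 833853326391) (l 2))) (a (a (a (l 13148768) (l 13054216)) (l 12668640)) (b (l 12616672) (a (l 12790240) (l 12618608))))) (b (a (l 13183072) (a (b (l 12888360) (l 12986984)) (l 12761992))) (a (l 13353432) (l 13050256)))) (b (a (b (l 2) (a (l 12447616) (l 2))) (l 2)) (a (b (b (l 12465904) (a (l 12643704) (l 12481248))) (a (b (l 12753264) (l 12864792)) (l 12638888))) (b (a (b (l 2) (l 931026496087)) (l 2)) (a (b (l 12427216) (l 12534032)) (b (a (l 12348832) (l 2)) (l 12403928))))))))), by decide +kernel⟩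

theorem s18_pm_102 : ∃ t, chk3 f_pm_102 t 3 1 1 = true := ex3_b k16_pm_102 k17_pm_102

theorem s19_pm_102 : ∃ t, chk3 f_pm_102 t 16 15 1 = true := ex3_b k11_pm_102 k12_pm_102

theorem s20_pm_102 : ∃ t, chk3 f_pm_102 t 8 15 1 = true := ex3_a s19_pm_102 k13_pm_102

theorem s21_pm_102 : ∃ t, chk3 f_pm_102 t 8 14 1 = true := ex3_a k9_pm_102 k10_pm_102

theorem s22_pm_102 : ∃ t, chk3 f_pm_102 t 8 7 1 = true := ex3_b s21_pm_102 s20_pm_102

theorem s23_pm_102 : ∃ t, chk3 f_pm_102 t 8 6 1 = true := ex3_b k7_pm_102 k8_pm_102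

theorem s24_pm_102 : ∃ t, chk3 f_pm_102 t 8 3 1 = true := ex3_b s23_pm_102 s22_pm_102

theorem s25_pm_102 : ∃ t, chk3 f_pm_102 t 4 3 1 = true := ex3_a s24_pm_102 k14_pm_102

theorem s26_pm_102 : ∃ t, chk3 f_pm_102 t 2 3 1 = true := ex3_a s25_pm_102 k15_pm_102

theorem s27_pm_102 : ∃ t, chk3 f_pm_102 t 8 5 1 = true := ex3_a k3_pm_102 k4_pm_102

theorem s28_pm_102 : ∃ t, chk3 f_pm_102 t 4 5 1 = true := ex3_a s27_pm_102 k5_pm_102

theorem s29_pm_102 : ∃ t, chk3 f_pm_102 t 8 4 1 = true := ex3_b k0_pm_102 k1_pm_102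

theorem s30_pm_102 : ∃ t, chk3 f_pm_102 t 4 4 1 = true := ex3_a s29_pm_102 k2_pm_102

theorem s31_pm_102 : ∃ t, chk3 f_pm_102 t 4 2 1 = true := ex3_b s30_pm_102 s28_pm_102

theorem s32_pm_102 : ∃ t, chk3 f_pm_102 t 2 2 1 = true := ex3_a s31_pm_102 k6_pm_102

theorem s33_pm_102 : ∃ t, chk3 f_pm_102 t 2 1 1 = true := ex3_b s32_pm_102 s26_pm_102

theorem s34_pm_102 : ∃ t, chk3 f_pm_102 t 1 1 1 = true := ex3_a s33_pm_102 s18_pm_102

theorem c_pm_102 : CertB 536870912 536870912 0 536870912 1020054732 13421774 3 eng mog cd0q1 cd3q0 pd2 true true false .npp 1 0 2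
    ndB0q1 ndB3q0 pcB2 Cut.none xt_pm_102 :=
  certB2 (fam := true) (s1 := true) (s2 := false) (a := 1) (b := 0) (c := 2) (cn := .npp) (n1 := ndB0q1) (n2 := ndB3q0) (pc := pcB2) (cut := Cut.none) (xt := xt_pm_102) (P1 := 536870912) (W1 := 536870912) (P2 := 0) (W2 := 536870912) (P3 := 1020054732) (W3 := 13421774) (N0 := 3) (En := eng) (mo := mog) (C1 := cd0q1) (C2 := cd3q0) (C3 := pd2)
    rfl (fun _ => rfl) s34_pm_102

noncomputable def f_pm_112 : ℕ → ℕ → ℕ → ℕ → Bool := onCell 536870912 536870912 1073741824 536870912 1020054732 13421774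
    (rowB 3 eng mog cd0q1 cd3q1 pd2 1 true true false .dn 1 1 2 (qsf 536870912 536870912 536870912 536870912 2) ndB0q1 ndB3q1 pcB2 Cut.none Ext.none)

def k0_pm_112 : ∃ t, chk3 f_pm_112 t 1 4 1 = true :=
  ⟨(a (b (a (b (a (b (a (a (c (c (b (l 15448600) (l 15486696)) (l 15598960)) (c (l 15733792) (l 15872904))) (b (l 1) (c (l 15543416) (l 200284487287)))) (l 1)) (a (c (c (a (l 15535080) (l 15527864)) (a (l 15659848) (l 15650728))) (a (c (l 15788224) (l 15920328)) (c (l 15777296) (l 15907664)))) (a (a (c (l 15584512) (l 198673956903)) (l 1)) (l 1)))) (l 1)) (b (a (a (c (c (l 15561896) (l 15703632)) (a (l 15750472) (l 15737912))) (c (a (l 15631672) (l 15627728)) (a (l 15706456) (l 15698104)))) (l 1)) (b (a (a (c (l 15674584) (l 15793432)) (c (l 15659120) (l 15750416))) (l 1)) (a (a (c (l 15693640) (l 15873928)) (c (l 15676888) (l 15851152))) (a (c (l 15671360) (l 15857912)) (l 1)))))) (l 1)) (a (a (b (c (a (b (a (l 15726088) (l 15714040)) (a (l 15757488) (l 15744608))) (b (a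 (l 15704720) (l 15697960)) (l 15751608))) (a (b (c (l 15900000) (l 16023432)) (c (l 15929624) (l 16051832))) (b (c (l 15877400) (l 15998400)) (c (l 15904600) (l 16023504))))) (c (a (b (l 15779312) (l 15804896)) (b (l 15757336) (l 15780760))) (a (b (l 15929392) (l 16010408)) (c (l 15936184) (l 16049632))))) (a (b (c (b (a (l 15694360) (l 15693752)) (l 15721592)) (b (c (l 15863720) (l 15980328)) (l 15902912))) (c (l 15757600) (l 15802600))) (b (a (b (l 1) (l 271687834263)) (l 1)) (c (l 15756872) (l 15851872))))) (a (a (b (l 1) (b (l 1) (l 306584855703))) (l 1)) (l 1)))) (l 1)), by decide +kernel⟩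

def k1_pm_112 : ∃ t, chk3 f_pm_112 t 1 5 1 = true :=
  ⟨(a (a (a (b (c (b (a (l 15836616) (l 15809488)) (a (l 15865976) (l 15835040))) (a (b (l 16029992) (l 16063496)) (b (l 16016672) (l 16025432)))) (c (b (l 15715600) (l 15861176)) (a (l 15824424) (l 15927656)))) (b (c (b (a (l 15793176) (l 15788064)) (l 15704160)) (b (a (l 15990448) (l 15972680)) (l 15878744))) (c (b (l 15814488) (l 15806144)) (b (l 15971616) (l 15945560))))) (b (a (a (b (a (l 15814768) (l 15879576)) (l 15862384)) (b (l 287257314151) (l 15887752))) (b (l 1) (a (l 15901832) (l 1)))) (a (c (b (l 15810240) (l 15793976)) (b (l 15936384) (l 15901904))) (a (a (l 15866896) (l 15872848)) (l 166461251351))))) (a (a (b (l 1) (b (l 1) (l 220148363831))) (l 1)) (l 1))), by decide +kernel⟩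

def k2_pm_112 : ∃ t, chk3 f_pm_112 t 1 3 1 = true :=
  ⟨(a (b (a (c (a (b (b (l 15845928) (l 15817072)) (a (l 15774664) (l 15727312))) (b (b (l 15784312) (l 15749416)) (l 15674688))) (a (b (b (l 15840056) (l 15783800)) (a (l 15627984) (l 15708688))) (b (b (l 15906208) (l 15854392)) (b (l 15791056) (l 15710968))))) (b (a (b (c (l 15764720) (l 15854416)) (l 15591104)) (c (l 15766096) (l 15592304))) (a (c (l 15639200) (l 15644184)) (c (l 15645120) (l 15645408))))) (a (a (b (c (a (l 15572528) (l 15593216)) (a (l 15382808) (l 15459208))) (a (b (l 15255352) (l 15105496)) (b (l 15354680) (l 15214112)))) (b (a (a (l 15446400) (l 15507968)) (l 15310984)) (b (l 15170112) (l 15089176)))) (b (a (c (l 15488960) (l 15465568)) (c (l 15483968) (l 15453936))) (a (b (l 15351920) (l 15246856)) (b (l 15316080) (l 15207672)))))) (a (b (a (b (b (l 15673080) (l 15710848)) (c (l 15685912) (l 15585648))) (b (b (l 1) (l 15491320)) (c (l 15655384) (l 15367080)))) (a (b (c (l 15513216) (l 15395752))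 (c (l 15311528) (l 15194640))) (b (c (l 15475728) (l 15175600)) (a (l 15187360) (l 15063360))))) (a (b (b (l 1) (a (l 15282896) (l 1))) (b (c (l 15171184) (l 14610400)) (c (l 14990760) (l 14642520)))) (b (l 1) (a (b (l 14651944) (l 14471992)) (b (l 1) (b (l 14203912) (l 14117896)))))))), by decide +kernel⟩

theorem s3_pm_112 : ∃ t, chk3 f_pm_112 t 1 2 1 = true := ex3_b k0_pm_112 k1_pm_112

theorem s4_pm_112 : ∃ t, chk3 f_pm_112 t 1 1 1 = true := ex3_b s3_pm_112 k2_pm_112

theorem c_pm_112 : CertB 536870912 536870912 536870912 536870912 1020054732 13421774 3 eng mog cd0q1 cd3q1 pd2 true true false .dn 1 1 2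
    ndB0q1 ndB3q1 pcB2 Cut.none Ext.none :=
  certB1 (fam := true) (s1 := true) (s2 := false) (a := 1) (b := 1) (c := 2) (cn := .dn) (n1 := ndB0q1) (n2 := ndB3q1) (pc := pcB2) (cut := Cut.none) (xt := Ext.none) (P1 := 536870912) (W1 := 536870912) (P2 := 536870912) (W2 := 536870912) (P3 := 1020054732) (W3 := 13421774) (N0 := 3) (En := eng) (mo := mog) (C1 := cd0q1) (C2 := cd3q1) (C3 := pd2)
    rfl (fun _ => rfl) s4_pm_112

noncomputable def f_pm_113 : ℕ → ℕ → ℕ → ℕ → Bool := onCell 536870912 536870912 1610612736 536870912 1020054732 13421774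
    (rowB 3 eng mog cd0q1 cd3q1 pd3 1 true true false .nn 1 1 3 (qsf 536870912 536870912 536870912 536870912 3) ndB0q1 ndB3q1 pcB3 Cut.none Ext.none)

def k0_pm_113 : ∃ t, chk3 f_pm_113 t 1 1 1 = true :=
  ⟨(a (b (b (a (a (b (b (a (l 13927864) (l 14165016)) (a (l 13649808) (l 13892624))) (a (l 2) (b (l 13612944) (l 2)))) (b (a (b (l 14394048) (l 14130768)) (b (l 14610992) (l 14359728))) (a (b (l 13857384) (l 13575128)) (b (l 14095976) (l 13820568))))) (a (b (c (a (l 14800128) (l 15005000)) (a (l 14592152) (l 14778760))) (a (b (l 14324472) (l 14059352)) (b (l 14539568) (l 14287464)))) (b (a (l 14905576) (l 15174168)) (a (l 14392320) (l 14710064))))) (a (b (a (l 2) (b (a (l 2) (l 13534784)) (l 2))) (l 2)) (b (a (b (a (l 13780816) (l 14020032)) (a (l 13490688) (l 13737256))) (a (b (l 14248488) (l 13977816)) (b (l 14462904) (l 14208272)))) (a (b (a (l 2) (l 13442168)) (l 2)) (b (a (l 13690736) (l 13936224)) (a (l 13397936) (l 13656832))))))) (a (l 2) (b (b (a (l 2) (b (l 339395508439)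 (l 2))) (l 2)) (l 2)))) (b (a (b (b (a (c (l 15584216) (l 15308632)) (c (l 15795520) (l 15506152))) (a (a (l 14990032) (l 15146552)) (a (l 15282152) (l 15392912)))) (b (a (b (l 14566728) (a (l 14425400) (l 14626600))) (b (l 14975144) (l 14891288))) (a (b (a (l 14174088) (l 14396080)) (l 14033280)) (b (l 14691488) (l 14479912))))) (a (b (b (c (l 15896720) (l 15608592)) (b (l 15569408) (l 15438904))) (b (b (l 15297744) (l 15151856)) (b (l 14999608) (l 14843608)))) (b (b (a (l 15751008) (b (l 15749856) (l 15658360))) (a (l 15538440) (l 15297840))) (b (a (l 15312864) (b (l 15361928) (l 15269696))) (a (b (l 15144552) (l 4)) (l 4)))))) (b (a (b (a (b (l 13767416) (l 309868102647)) (b (l 14255344) (l 14013728))) (a (l 4) (l 4))) (a (b (l 4) (l 4)) (l 4))) (l 4)))), by decide +kernel⟩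

theorem c_pm_113 : CertB 536870912 536870912 536870912 536870912 1020054732 13421774 3 eng mog cd0q1 cd3q1 pd3 true true false .nn 1 1 3
    ndB0q1 ndB3q1 pcB3 Cut.none Ext.none :=
  certB1 (fam := true) (s1 := true) (s2 := false) (a := 1) (b := 1) (c := 3) (cn := .nn) (n1 := ndB0q1) (n2 := ndB3q1) (pc := pcB3) (cut := Cut.none) (xt := Ext.none) (P1 := 536870912) (W1 := 536870912) (P2 := 536870912) (W2 := 536870912) (P3 := 1020054732) (W3 := 13421774) (N0 := 3) (En := eng) (mo := mog) (C1 := cd0q1) (C2 := cd3q1) (C3 := pd3)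
    rfl (fun _ => rfl) k0_pm_113

noncomputable def xt_pm_123 : Ext := extD3 3 ⟨4, 1, 1, 5, 99, 20, 33, 40, 51, 125, 1, 32⟩ eng cd0q1 cd3q2 pd3 true true false .npn 1 2 3 rfl ndB0q1 ndB3q2 pcB3

noncomputable def f_pm_123 : ℕ → ℕ → ℕ → ℕ → Bool := onCell 1610612736 536870912 1073741824 536870912 1020054732 13421774
    (rowB 3 eng mog cd0q1 cd3q2 pd3 2 true true false .npn 1 2 3 (qsf 536870912 536870912 1073741824 536870912 3) ndB0q1 ndB3q2 pcB3 Cut.none xt_pm_123)

def k0_pm_123 : ∃ t, chk3 f_pm_123 t 2 1 1 = true :=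
  ⟨(b (a (b (b (a (b (a (l 15632048) (l 15625720)) (c (l 84319881495) (a (l 16032416) (l 15981872)))) (b (a (l 15602888) (l 15584256)) (c (l 15634216) (l 15807952)))) (a (b (c (l 101499922471) (l 15958680)) (l 1)) (b (c (l 15767720) (l 16018448)) (a (l 16041176) (l 16011472))))) (a (l 1) (b (b (a (l 1) (l 16097464)) (l 1)) (l 1)))) (b (a (b (b (a (l 15548728) (l 15475456)) (a (l 15787824) (l 15761360))) (b (a (l 15891080) (l 15867688)) (a (l 15985832) (l 15964168)))) (b (b (a (l 15385880) (b (l 15560872) (l 15629728))) (a (l 15739712) (l 15723776))) (b (a (l 15848912) (l 15835480)) (a (l 15947048) (l 15932640))))) (a (b (b (a (l 16071672) (l 16042200)) (a (l 16117944) (l 16081136))) (a (l 1) (l 16117008))) (b (b (a (l 16013648) (l 15990872)) (l 16037264)) (a (l 16088976) (l 16068816)))))) (a (l 1) (b (a (l 1) (b (a (l 1) (l 16105832)) (l 1))) (l 1)))), by decide +kernel⟩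

def k1_pm_123 : ∃ t, chk3 f_pm_123 t 6 2 1 = true :=
  ⟨(b (a (b (b (a (b (l 15545592) (l 15617760)) (b (l 15541272) (l 15616440))) (a (l 15715168) (l 15716656))) (b (a (l 15828752) (l 15831008)) (a (l 15919928) (l 15914624)))) (b (b (a (b (l 15554216) (l 15631216)) (a (l 15621192) (l 15651696))) (a (l 15732840) (l 15771512))) (a (b (l 15846424) (l 15922840)) (b (l 15878496) (l 15951120))))) (a (b (b (l 15969312) (l 16009016)) (a (l 16057512) (l 16056320))) (b (a (l 15998904) (l 16025416)) (l 15846304)))), by decide +kernel⟩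

def k2_pm_123 : ∃ t, chk3 f_pm_123 t 14 4 1 = true :=
  ⟨(b (b (a (b (a (l 15660720) (l 15729976)) (l 15756648)) (b (a (b (l 15825832) (l 15839272)) (b (l 15992392) (l 15979688))) (a (l 15870456) (l 15985424)))) (a (b (l 15817992) (l 15872896)) (b (l 15961448) (l 16000640)))) (b (a (l 15940200) (b (l 16035104) (l 16065840))) (a (l 16006696) (l 16102376)))), by decide +kernel⟩

def k3_pm_123 : ∃ t, chk3 f_pm_123 t 15 4 1 = true :=
  ⟨(b (a (a (b (b (b (l 16326096) (a (l 16129296) (l 16260000))) (l 16400088)) (b (l 16142632) (l 16155696))) (b (b (a (l 584173938420512240001039) (l 142150807283974159)) (b (l 16415336) (l 16357416))) (b (l 16318088) (l 16302360)))) (a (b (a (b (b (a (l 16700360) (l 16706560)) (l 16684464)) (b (l 16664112) (l 16570696))) (b (b (l 142206744967888975) (l 16673160)) (l 16661680))) (a (b (l 16485952) (l 16439608)) (b (l 16615192) (l 16544536)))) (a (b (b (b (l 142372358865223759) (a (l 16705664) (l 16715320))) (b (l 16663312) (l 16662624))) (b (l 16630400)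 (l 16577312))) (a (b (b (b (l 16769664) (l 16732400)) (b (l 16700608) (l 16673480))) (b (l 16616088) (l 16584328))) (a (b (b (l 16770104) (l 16720768)) (b (l 16599424) (l 16586752))) (a (b (b (a (l 142383491451060303) (l 142399640569167951)) (l 16707496)) (b (l 16602968) (l 16589216))) (a (b (a (b (l 142803573655404623) (l 16711336)) (b (l 142869956665213007) (l 16715840))) (b (l 16605208) (l 16588568))) (b (b (a (l 6096403986039) (b (l 4) (l 4))) (a (l 16715232) (a (l 16713232) (a (l 16710704) (a (l 16666320) (b (l 4) (l 16648592))))))) (b (a (l 16606440) (a (l 16586112) (a (l 16586800) (a (l 16587272) (a (l 16587584) (l 141258759644168207)))))) (a (l 16592936) (a (l 16597752) (l 16543488)))))))))))) (a (a (b (l 16182520) (l 16210024)) (b (a (l 16270152) (l 16337752)) (l 16302888))) (b (a (a (l 16412400) (l 16484824)) (a (l 16498160) (a (b (l 16531280) (l 16478856)) (a (b (l 16531472) (l 16486272)) (a (l 16497200) (a (l 16528336) (a (l 16535216) (l 4)))))))) (a (a (l 16379120)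 (l 16396192)) (a (b (l 16430216) (l 16386608)) (a (b (l 16436848) (l 16403040)) (a (l 16438000) (a (l 16449616) (l 4))))))))), by decide +kernel⟩

def k4_pm_123 : ∃ t, chk3 f_pm_123 t 7 5 1 = true :=
  ⟨(a (b (a (l 16073952) (l 16149680)) (a (l 16127168) (l 16169704))) (a (a (b (l 16223368) (l 16191344)) (b (l 16203344) (l 15985176))) (a (a (b (l 16140168) (l 16202768)) (b (b (l 16325248) (l 16270064)) (l 16218664))) (b (a (b (l 16256432) (l 16293184)) (a (l 16293248) (a (l 16358360) (l 4)))) (a (l 16237064) (l 4)))))), by decide +kernel⟩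

def k5_pm_123 : ∃ t, chk3 f_pm_123 t 3 3 1 = true :=
  ⟨(a (b (a (b (a (l 16098088) (l 16099448)) (a (l 1) (l 16121304))) (b (l 24727754375) (a (l 16121688) (l 16111688)))) (a (l 1) (b (a (l 1) (l 16051864)) (l 1)))) (b (a (a (b (l 16142592) (l 16097920)) (b (b (l 16148024) (l 16120616)) (a (l 16086472) (l 16087000)))) (b (a (a (l 16131304) (l 16140280)) (a (l 16160312) (l 4))) (a (a (l 16094432) (l 16107056)) (l 4)))) (a (a (b (l 16044544) (l 1)) (b (a (l 16049216) (l 16059648)) (l 16014496))) (a (b (a (l 16066776) (l 4)) (l 4)) (l 4))))), by decide +kernel⟩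

theorem s6_pm_123 : ∃ t, chk3 f_pm_123 t 7 4 1 = true := ex3_a k2_pm_123 k3_pm_123

theorem s7_pm_123 : ∃ t, chk3 f_pm_123 t 7 2 1 = true := ex3_b s6_pm_123 k4_pm_123

theorem s8_pm_123 : ∃ t, chk3 f_pm_123 t 3 2 1 = true := ex3_a k1_pm_123 s7_pm_123

theorem s9_pm_123 : ∃ t, chk3 f_pm_123 t 3 1 1 = true := ex3_b s8_pm_123 k5_pm_123

theorem s10_pm_123 : ∃ t, chk3 f_pm_123 t 1 1 1 = true := ex3_a k0_pm_123 s9_pm_123

theorem c_pm_123 : CertB 536870912 536870912 1073741824 536870912 1020054732 13421774 3 eng mog cd0q1 cd3q2 pd3 true true false .npn 1 2 3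
    ndB0q1 ndB3q2 pcB3 Cut.none xt_pm_123 :=
  certB2 (fam := true) (s1 := true) (s2 := false) (a := 1) (b := 2) (c := 3) (cn := .npn) (n1 := ndB0q1) (n2 := ndB3q2) (pc := pcB3) (cut := Cut.none) (xt := xt_pm_123) (P1 := 536870912) (W1 := 536870912) (P2 := 1073741824) (W2 := 536870912) (P3 := 1020054732) (W3 := 13421774) (N0 := 3) (En := eng) (mo := mog) (C1 := cd0q1) (C2 := cd3q2) (C3 := pd3)
    rfl (fun _ => rfl) s10_pm_123

noncomputable def f_pm_133 : ℕ → ℕ → ℕ → ℕ → Bool := onCell 536870912 536870912 0 1230186008 1020054732 13421774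
    (rowB 3 eng mog cd0q1 cd3q3 pd3 0 true true false .dn 1 3 3 (qsf 536870912 536870912 0 1230186008 3) ndB0q1 ndB3q3 pcB3 Cut.none Ext.none)

def k0_pm_133 : ∃ t, chk3 f_pm_133 t 1 1 1 = true :=
  ⟨(b (l 2) (b (l 2) (a (l 4) (l 2)))), by decide +kernel⟩

theorem c_pm_133 : CertB 536870912 536870912 0 1230186008 1020054732 13421774 3 eng mog cd0q1 cd3q3 pd3 true true false .dn 1 3 3
    ndB0q1 ndB3q3 pcB3 Cut.none Ext.none :=
  certB0 (fam := true) (s1 := true) (s2 := false) (a := 1) (b := 3) (c := 3) (cn := .dn) (n1 := ndB0q1) (n2 := ndB3q3) (pc := pcB3) (cut := Cut.none) (xt := Ext.none) (P1 := 536870912) (W1 := 536870912) (P2 := 0) (W2 := 1230186008) (P3 := 1020054732) (W3 := 13421774) (N0 := 3) (En := eng) (mo := mog) (C1 := cd0q1) (C2 := cd3q3) (C3 := pd3)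
    rfl k0_pm_133

noncomputable def f_pm_202 : ℕ → ℕ → ℕ → ℕ → Bool := onCell 0 536870912 0 536870912 1020054732 13421774
    (rowB 3 eng mog cd0q2 cd3q0 pd2 0 true true false .pp 2 0 2 (qsf 0 536870912 0 536870912 2) ndB0q2 ndB3q0 pcB2 Cut.none Ext.none)

def k0_pm_202 : ∃ t, chk3 f_pm_202 t 4 2 1 = true :=
  ⟨(b (b (b (b (a (l 15860296) (l 15930320)) (b (a (l 15686920) (l 15823832)) (b (a (l 15600104) (l 15738896)) (a (l 15542568) (l 15682584))))) (b (b (a (l 15476344) (l 15618392)) (a (l 15396632) (l 15541400))) (a (b (l 15318080) (b (l 15259984) (l 15219136))) (b (l 15465480) (l 15382152))))) (b (a (a (b (a (b (l 15148344) (l 15144600)) (c (l 15101232) (l 15091144))) (l 15109352)) (b (l 15129640) (a (b (a (l 15007616) (l 14990104)) (l 14988208)) (l 14955312)))) (b (l 15242600) (l 15057640))) (a (b (l 15042488) (l 15079840)) (b (a (a (b (l 14872640) (l 14831088)) (l 14859176)) (l 14916144)) (a (b (a (l 14837472) (a (l 14768464) (l 14746432))) (l 14804152)) (b (l 14782704)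 (a (l 14843408) (l 14714208)))))))) (b (b (a (b (l 15134304) (l 15205920)) (b (a (l 14832520) (a (l 14682320) (b (l 14639024) (l 14596728)))) (l 14777688))) (a (l 15342312) (b (l 14841864) (l 14922200)))) (b (a (l 15530424) (l 15028128)) (a (b (l 15745856) (l 15814336)) (l 15291392))))), by decide +kernel⟩

def k1_pm_202 : ∃ t, chk3 f_pm_202 t 5 2 1 = true :=
  ⟨(b (b (b (b (a (l 15889448) (a (l 16170768) (l 16183368))) (b (a (l 15974824) (l 15920000)) (a (b (l 15891312) (l 15835920)) (b (l 16047264) (a (l 15952784) (l 16030128)))))) (b (a (b (l 15626768) (l 15699152)) (b (a (l 15891776) (l 15970000)) (a (l 15819288) (l 15898832)))) (a (b (l 15625688) (l 15544480)) (b (a (l 15747672) (l 15828464)) (a (l 15667952) (l 15749712)))))) (b (a (b (l 15407400) (l 15225264)) (b (a (l 15532432) (l 15615080)) (a (l 15351944) (l 15435464)))) (a (b (l 15044952) (l 14867128)) (b (l 15215704) (l 15038656))))) (b (a (b (b (l 14695704) (a (a (a (l 14537624) (b (l 14518464) (l 14491208))) (b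 (l 14541368) (l 14472128))) (l 14564320))) (a (b (b (a (l 14541800) (l 14436544)) (l 14510736)) (l 14557488)) (b (a (b (l 14421144) (a (l 14369960) (l 14355208))) (l 14418936)) (a (l 14374496) (b (l 14310696) (l 14275672)))))) (b (b (l 14864104) (l 14692672)) (b (l 14524928) (l 14363472)))) (a (b (b (l 14502864) (l 14587592)) (l 14552512)) (b (a (b (a (b (l 14208080) (l 14194008)) (l 14190632)) (a (l 14244080) (b (l 14113104) (l 14121592)))) (a (b (l 14222528) (l 14126768)) (l 14184120))) (a (l 14297360) (b (c (a (l 14036552) (l 13979640)) (l 14003880)) (l 14035032))))))), by decide +kernel⟩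

def k2_pm_202 : ∃ t, chk3 f_pm_202 t 2 3 1 = true :=
  ⟨(b (b (a (b (a (l 15827888) (a (l 15685472) (l 15450264))) (a (l 4) (a (l 4) (l 15643840)))) (a (b (l 14863536) (a (l 15432032) (l 15113128))) (b (a (l 14510568) (l 14180360)) (a (l 14771240) (l 14417872))))) (a (l 4) (a (b (a (l 15580408) (l 15391192)) (l 15359136)) (b (a (l 15068928) (l 14698600)) (a (l 15330792) (l 15012056)))))) (b (a (l 2) (a (l 2) (b (a (l 2) (l 15255104)) (l 2)))) (l 2))), by decide +kernel⟩

def k3_pm_202 : ∃ t, chk3 f_pm_202 t 6 2 1 = true :=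
  ⟨(b (b (b (b (a (a (l 16214448) (a (l 16308328) (l 16320424))) (a (a (l 16351856) (l 16360416)) (b (a (l 16528696) (l 16531944)) (a (l 16460616) (l 16485656))))) (b (a (a (l 16240928) (l 16289704)) (a (l 16290424) (a (l 16416656) (l 16441952)))) (a (b (a (l 16159112) (l 16229208)) (a (l 16104768) (l 16175064))) (b (a (l 16293152) (l 16348880)) (a (c (l 16227912) (l 16250648)) (c (l 16284208) (l 16306128))))))) (b (a (b (a (c (l 16036136) (l 16055136)) (c (l 16106280) (l 16127464))) (a (l 15954768) (c (l 16038112) (l 16058904)))) (b (a (b (l 16199480) (l 16165840)) (b (c (l 16245288) (l 16266944)) (l 16160320))) (a (c (l 16104016) (l 16126288)) (c (l 16162496) (l 16185016))))) (a (b (a (l 15906672) (c (l 15970696) (l 15990928))) (a (l 15828896) (c (l 15893600) (l 15914512)))) (b (a (c (l 16037792) (l 16060056)) (c (l 16097552) (l 16120680))) (a (c (l 15961456) (l 15985008)) (c (l 16022024) (l 16047104))))))) (a (b (b (a (l 15695096) (c (l 15759120) (l 15783032))) (a (l 15516256)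 (l 15592824))) (b (a (l 15338064) (l 15414960)) (a (l 15161224) (l 15238088)))) (b (a (b (c (l 15827304) (l 15854808)) (c (l 15647664) (l 15679640))) (b (c (l 15888176) (l 15918256)) (c (l 15708584) (l 15744480)))) (a (b (l 15485912) (l 15308960)) (b (l 15549080) (l 15372024)))))) (b (a (b (b (l 15109496) (l 14852976)) (a (l 14562296) (l 14636336))) (b (a (b (l 15133296) (l 14959560)) (b (l 15195888) (l 15021344))) (a (l 14704128) (c (l 14737600) (l 14791040))))) (a (b (b (l 14355488) (l 14198224)) (a (c (b (l 14004472) (a (l 13878144) (l 13875712))) (l 13970984)) (l 14004768))) (b (a (l 14375368) (l 14431680)) (a (l 14064216) (l 14115736)))))), by decide +kernel⟩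

def k4_pm_202 : ∃ t, chk3 f_pm_202 t 7 4 1 = true :=
  ⟨(a (b (b (b (a (b (c (l 16558920) (l 16509872)) (a (l 16507896) (l 16527008))) (b (c (l 16568952) (l 16547304)) (l 16507120))) (b (a (a (l 16464448) (l 16483832)) (l 16422408)) (b (a (l 16394064) (l 16426008)) (a (c (l 16330768) (l 16350224)) (c (l 16365240) (l 16379936)))))) (b (b (a (b (a (l 16291584) (l 16311552)) (l 16228248)) (b (l 16334944) (l 16304088))) (a (c (l 16190448) (l 16232632)) (c (l 16248504) (l 16266216)))) (a (b (c (l 16147880) (l 16170368)) (c (l 16073240) (l 16098392))) (b (c (l 16186512) (l 16206216)) (b (l 16145952) (l 16103056)))))) (b (a (b (c (l 15939712) (l 15971016)) (c (l 15760160) (l 15798752))) (b (c (l 15979696) (l 16010248)) (c (l 15800224) (l 15839688)))) (a (b (c (l 15580080) (l 15625032)) (l 15425216)) (b (l 15643264) (l 15466160))))) (b (b (b (a (a (b (l 16620200) (l 16602664)) (b (l 16656624) (l 16603536))) (a (b (b (l 16721744) (l 16695168)) (l 16618120)) (b (a (b (l 16718304) (l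 16689776)) (b (l 16710896) (a (l 16687384) (l 16684600)))) (a (l 16613232) (l 16547392))))) (b (a (a (l 16518408) (l 16519600)) (a (l 16513568) (l 16507920))) (a (b (l 16356560) (a (l 16385032) (l 16386504))) (b (a (l 16433904) (l 16428480)) (a (l 16380776) (l 16375472)))))) (b (a (b (a (l 16332168) (l 16313392)) (a (l 16272432) (l 16275784))) (b (a (l 16308424) (l 16324904)) (a (l 16272040) (l 16268848)))) (a (b (a (l 16212984) (l 16217456)) (a (l 16142168) (l 16147448))) (b (a (l 16214896) (l 16212944)) (a (l 16145744) (l 16144720)))))) (a (b (b (a (l 16013520) (l 16019416)) (a (l 15839248) (l 15845728))) (b (a (l 15663184) (l 15670000)) (l 15490928))) (b (b (a (l 16018384) (l 16018088)) (a (l 15845336) (l 15845776))) (b (l 15481928) (l 15494080)))))), by decide +kernel⟩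

def k5_pm_202 : ∃ t, chk3 f_pm_202 t 7 5 1 = true :=
  ⟨(a (b (b (a (b (l 15248640) (l 15073296)) (b (l 15289216) (l 15113144))) (a (b (l 14899808) (l 14728776)) (b (l 14938584) (l 14766176)))) (b (a (l 14478272) (l 14513056)) (a (l 14157656) (l 14188008)))) (b (a (b (b (l 15313744) (l 15137056)) (b (l 14961568) (l 14787912))) (b (b (l 15316840) (l 15139736)) (b (l 14963480) (l 14788752)))) (a (b (b (l 14616704) (l 14448512)) (l 14203248)) (b (c (l 14486320) (l 14576920)) (c (l 14150608) (l 14247200)))))), by decide +kernel⟩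

def k6_pm_202 : ∃ t, chk3 f_pm_202 t 3 3 1 = true :=
  ⟨(a (b (b (a (b (a (b (a (l 13884008) (b (l 13790888) (l 13762568))) (l 13892328)) (a (b (l 13774680) (b (l 13690648) (l 13670760))) (l 13734016))) (a (l 14054824) (b (b (l 13627696) (l 13662040)) (l 13737464)))) (b (a (l 13774464) (l 13820032)) (a (b (l 13574680) (a (b (l 13492768) (l 13485544)) (l 13459368))) (l 13548088)))) (a (b (a (l 14313920) (l 13917080)) (a (l 14612784) (l 14195936))) (b (a (b (b (l 13440928) (l 13484056)) (l 13569192)) (b (l 13364032) (a (b (l 13294736) (l 13292968)) (l 13254136)))) (a (l 13764368) (b (b (l 13268928) (l 13293912)) (l 13387664)))))) (b (a (b (a (l 14940248) (l 14511952)) (l 2)) (b (a (l 14061896) (l 13594848)) (a (l 14394776) (l 13910416)))) (l 2))) (b (a (b (b (a (l 13856200) (l 13881136)) (a (l 13577488) (l 13596104))) (b (a (l 13324800) (l 13336264)) (a (a (b (l 13151768) (b (l 13095248) (l 13092040))) (l 13103408)) (l 13104760)))) (b (a (b (l 13891424) (l 13600664)) (b (l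 13882024) (l 13586184))) (a (b (l 13334448) (l 13095976)) (b (l 13314400) (l 13070000))))) (a (b (b (a (b (a (l 13167816) (l 13002424)) (l 13182520)) (b (l 12951360) (a (l 12902200) (l 12856496)))) (a (l 13407608) (b (a (l 12949384) (l 12802976)) (l 12965440)))) (b (a (l 13740544) (l 13202888)) (l 2))) (b (a (b (l 12888240) (b (l 12754192) (l 12695944))) (b (l 12856096) (l 12675592))) (a (b (a (l 12779400) (b (l 12610384) (l 12623752))) (l 12981640)) (b (l 12537368) (a (b (l 12522128) (l 12631096)) (b (l 12437208) (l 12434448))))))))), by decide +kernel⟩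

theorem s7_pm_202 : ∃ t, chk3 f_pm_202 t 7 2 1 = true := ex3_b k4_pm_202 k5_pm_202

theorem s8_pm_202 : ∃ t, chk3 f_pm_202 t 3 2 1 = true := ex3_a k3_pm_202 s7_pm_202

theorem s9_pm_202 : ∃ t, chk3 f_pm_202 t 3 1 1 = true := ex3_b s8_pm_202 k6_pm_202

theorem s10_pm_202 : ∃ t, chk3 f_pm_202 t 2 2 1 = true := ex3_a k0_pm_202 k1_pm_202

theorem s11_pm_202 : ∃ t, chk3 f_pm_202 t 2 1 1 = true := ex3_b s10_pm_202 k2_pm_202

theorem s12_pm_202 : ∃ t, chk3 f_pm_202 t 1 1 1 = true := ex3_a s11_pm_202 s9_pm_202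

theorem c_pm_202 : CertB 0 536870912 0 536870912 1020054732 13421774 3 eng mog cd0q2 cd3q0 pd2 true true false .pp 2 0 2
    ndB0q2 ndB3q0 pcB2 Cut.none Ext.none :=
  certB0 (fam := true) (s1 := true) (s2 := false) (a := 2) (b := 0) (c := 2) (cn := .pp) (n1 := ndB0q2) (n2 := ndB3q0) (pc := pcB2) (cut := Cut.none) (xt := Ext.none) (P1 := 0) (W1 := 536870912) (P2 := 0) (W2 := 536870912) (P3 := 1020054732) (W3 := 13421774) (N0 := 3) (En := eng) (mo := mog) (C1 := cd0q2) (C2 := cd3q0) (C3 := pd2)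
    rfl s12_pm_202

noncomputable def f_pm_203 : ℕ → ℕ → ℕ → ℕ → Bool := onCell 0 536870912 1610612736 536870912 1020054732 13421774
    (rowB 3 eng mog cd0q2 cd3q0 pd3 1 true true false .up 2 0 3 (qsf 0 536870912 0 536870912 3) ndB0q2 ndB3q0 pcB3 Cut.none Ext.none)

def k0_pm_203 : ∃ t, chk3 f_pm_203 t 1 1 1 = true :=
  ⟨(b (a (b (b (b (a (l 4) (l 15449000)) (l 4)) (l 4)) (l 4)) (a (b (b (b (l 15024520) (a (l 15187144) (l 14991936))) (a (l 4) (b (l 14969472) (l 4)))) (l 2)) (b (b (a (l 14511248) (a (l 14499696) (l 14285768))) (a (b (l 14709416) (l 2)) (l 2))) (l 2)))) (l 2)), by decide +kernel⟩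

theorem c_pm_203 : CertB 0 536870912 0 536870912 1020054732 13421774 3 eng mog cd0q2 cd3q0 pd3 true true false .up 2 0 3
    ndB0q2 ndB3q0 pcB3 Cut.none Ext.none :=
  certB1 (fam := true) (s1 := true) (s2 := false) (a := 2) (b := 0) (c := 3) (cn := .up) (n1 := ndB0q2) (n2 := ndB3q0) (pc := pcB3) (cut := Cut.none) (xt := Ext.none) (P1 := 0) (W1 := 536870912) (P2 := 0) (W2 := 536870912) (P3 := 1020054732) (W3 := 13421774) (N0 := 3) (En := eng) (mo := mog) (C1 := cd0q2) (C2 := cd3q0) (C3 := pd3)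
    rfl (fun _ => rfl) k0_pm_203

noncomputable def f_pm_213 : ℕ → ℕ → ℕ → ℕ → Bool := onCell 0 536870912 1610612736 536870912 1020054732 13421774
    (rowB 3 eng mog cd0q2 cd3q1 pd3 1 true true false .pnn 2 1 3 (qsf 0 536870912 536870912 536870912 3) ndB0q2 ndB3q1 pcB3 Cut.none Ext.none)

def k0_pm_213 : ∃ t, chk3 f_pm_213 t 1 1 1 = true :=
  ⟨(b (a (b (b (l 1) (l 4)) (l 4)) (a (b (b (l 1) (b (l 267930682503) (l 16217920))) (l 4)) (b (b (a (l 16038528) (a (l 15887112) (l 15755952))) (a (b (l 15962488) (l 15925752)) (a (l 15750840) (l 15539168)))) (b (a (b (l 15903064) (l 4)) (b (l 15333120) (l 15322192))) (l 4))))) (l 4)), by decide +kernel⟩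

theorem c_pm_213 : CertB 0 536870912 536870912 536870912 1020054732 13421774 3 eng mog cd0q2 cd3q1 pd3 true true false .pnn 2 1 3
    ndB0q2 ndB3q1 pcB3 Cut.none Ext.none :=
  certB1 (fam := true) (s1 := true) (s2 := false) (a := 2) (b := 1) (c := 3) (cn := .pnn) (n1 := ndB0q2) (n2 := ndB3q1) (pc := pcB3) (cut := Cut.none) (xt := Ext.none) (P1 := 0) (W1 := 536870912) (P2 := 536870912) (W2 := 536870912) (P3 := 1020054732) (W3 := 13421774) (N0 := 3) (En := eng) (mo := mog) (C1 := cd0q2) (C2 := cd3q1) (C3 := pd3)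
    rfl (fun _ => rfl) k0_pm_213

noncomputable def f_mm_001 : ℕ → ℕ → ℕ → ℕ → Bool := onCell 0 536870912 0 536870912 1020054732 13421774
    (rowB 3 eng mog cd0q0 cd3q0 pd1 0 true false false .up 0 0 1 (qsf 0 536870912 0 536870912 1) ndB0q0 ndB3q0 pcB1 Cut.none Ext.none)

def k0_mm_001 : ∃ t, chk3 f_mm_001 t 1 1 1 = true :=
  ⟨(l 4), by decide +kernel⟩

theorem c_mm_001 : CertB 0 536870912 0 536870912 1020054732 13421774 3 eng mog cd0q0 cd3q0 pd1 true false false .up 0 0 1
    ndB0q0 ndB3q0 pcB1 Cut.none Ext.none :=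
  certB0 (fam := true) (s1 := false) (s2 := false) (a := 0) (b := 0) (c := 1) (cn := .up) (n1 := ndB0q0) (n2 := ndB3q0) (pc := pcB1) (cut := Cut.none) (xt := Ext.none) (P1 := 0) (W1 := 536870912) (P2 := 0) (W2 := 536870912) (P3 := 1020054732) (W3 := 13421774) (N0 := 3) (En := eng) (mo := mog) (C1 := cd0q0) (C2 := cd3q0) (C3 := pd1)
    rfl k0_mm_001

noncomputable def f_mm_011 : ℕ → ℕ → ℕ → ℕ → Bool := onCell 0 536870912 536870912 536870912 1020054732 13421774
    (rowB 3 eng mog cd0q0 cd3q1 pd1 0 true false false .pnn 0 1 1 (qsf 0 536870912 536870912 536870912 1) ndB0q0 ndB3q1 pcB1 Cut.none Ext.none)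

def k0_mm_011 : ∃ t, chk3 f_mm_011 t 1 1 1 = true :=
  ⟨(l 4), by decide +kernel⟩

theorem c_mm_011 : CertB 0 536870912 536870912 536870912 1020054732 13421774 3 eng mog cd0q0 cd3q1 pd1 true false false .pnn 0 1 1
    ndB0q0 ndB3q1 pcB1 Cut.none Ext.none :=
  certB0 (fam := true) (s1 := false) (s2 := false) (a := 0) (b := 1) (c := 1) (cn := .pnn) (n1 := ndB0q0) (n2 := ndB3q1) (pc := pcB1) (cut := Cut.none) (xt := Ext.none) (P1 := 0) (W1 := 536870912) (P2 := 536870912) (W2 := 536870912) (P3 := 1020054732) (W3 := 13421774) (N0 := 3) (En := eng) (mo := mog) (C1 := cd0q0) (C2 := cd3q1) (C3 := pd1)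
    rfl k0_mm_011

noncomputable def f_mm_012 : ℕ → ℕ → ℕ → ℕ → Bool := onCell 0 536870912 536870912 536870912 1020054732 13421774
    (rowB 3 eng mog cd0q0 cd3q1 pd2 0 true false false .pnp 0 1 2 (qsf 0 536870912 536870912 536870912 2) ndB0q0 ndB3q1 pcB2 Cut.none Ext.none)

def k0_mm_012 : ∃ t, chk3 f_mm_012 t 1 1 1 = true :=
  ⟨(l 4), by decide +kernel⟩

theorem c_mm_012 : CertB 0 536870912 536870912 536870912 1020054732 13421774 3 eng mog cd0q0 cd3q1 pd2 true false false .pnp 0 1 2
    ndB0q0 ndB3q1 pcB2 Cut.none Ext.none :=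
  certB0 (fam := true) (s1 := false) (s2 := false) (a := 0) (b := 1) (c := 2) (cn := .pnp) (n1 := ndB0q0) (n2 := ndB3q1) (pc := pcB2) (cut := Cut.none) (xt := Ext.none) (P1 := 0) (W1 := 536870912) (P2 := 536870912) (W2 := 536870912) (P3 := 1020054732) (W3 := 13421774) (N0 := 3) (En := eng) (mo := mog) (C1 := cd0q0) (C2 := cd3q1) (C3 := pd2)
    rfl k0_mm_012

noncomputable def f_mm_022 : ℕ → ℕ → ℕ → ℕ → Bool := onCell 0 536870912 1073741824 536870912 1020054732 13421774
    (rowB 3 eng mog cd0q0 cd3q2 pd2 0 true false false .pp 0 2 2 (qsf 0 536870912 1073741824 536870912 2) ndB0q0 ndB3q2 pcB2 Cut.none Ext.none)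

def k0_mm_022 : ∃ t, chk3 f_mm_022 t 1 1 1 = true :=
  ⟨(l 5), by decide +kernel⟩

theorem c_mm_022 : CertB 0 536870912 1073741824 536870912 1020054732 13421774 3 eng mog cd0q0 cd3q2 pd2 true false false .pp 0 2 2
    ndB0q0 ndB3q2 pcB2 Cut.none Ext.none :=
  certB0 (fam := true) (s1 := false) (s2 := false) (a := 0) (b := 2) (c := 2) (cn := .pp) (n1 := ndB0q0) (n2 := ndB3q2) (pc := pcB2) (cut := Cut.none) (xt := Ext.none) (P1 := 0) (W1 := 536870912) (P2 := 1073741824) (W2 := 536870912) (P3 := 1020054732) (W3 := 13421774) (N0 := 3) (En := eng) (mo := mog) (C1 := cd0q0) (C2 := cd3q2) (C3 := pd2)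
    rfl k0_mm_022

noncomputable def f_mm_023 : ℕ → ℕ → ℕ → ℕ → Bool := onCell 0 536870912 1073741824 536870912 1020054732 13421774
    (rowB 3 eng mog cd0q0 cd3q2 pd3 0 true false false .up 0 2 3 (qsf 0 536870912 1073741824 536870912 3) ndB0q0 ndB3q2 pcB3 Cut.none Ext.none)

def k0_mm_023 : ∃ t, chk3 f_mm_023 t 1 1 1 = true :=
  ⟨(l 5), by decide +kernel⟩

theorem c_mm_023 : CertB 0 536870912 1073741824 536870912 1020054732 13421774 3 eng mog cd0q0 cd3q2 pd3 true false false .up 0 2 3
    ndB0q0 ndB3q2 pcB3 Cut.none Ext.none :=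
  certB0 (fam := true) (s1 := false) (s2 := false) (a := 0) (b := 2) (c := 3) (cn := .up) (n1 := ndB0q0) (n2 := ndB3q2) (pc := pcB3) (cut := Cut.none) (xt := Ext.none) (P1 := 0) (W1 := 536870912) (P2 := 1073741824) (W2 := 536870912) (P3 := 1020054732) (W3 := 13421774) (N0 := 3) (En := eng) (mo := mog) (C1 := cd0q0) (C2 := cd3q2) (C3 := pd3)
    rfl k0_mm_023

noncomputable def f_mm_033 : ℕ → ℕ → ℕ → ℕ → Bool := onCell 0 536870912 0 1230186008 1020054732 13421774
    (rowB 3 eng mog cd0q0 cd3q3 pd3 0 true false false .pnn 0 3 3 (qsf 0 536870912 0 1230186008 3) ndB0q0 ndB3q3 pcB3 Cut.none Ext.none)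

def k0_mm_033 : ∃ t, chk3 f_mm_033 t 1 1 1 = true :=
  ⟨(l 5), by decide +kernel⟩

theorem c_mm_033 : CertB 0 536870912 0 1230186008 1020054732 13421774 3 eng mog cd0q0 cd3q3 pd3 true false false .pnn 0 3 3
    ndB0q0 ndB3q3 pcB3 Cut.none Ext.none :=
  certB0 (fam := true) (s1 := false) (s2 := false) (a := 0) (b := 3) (c := 3) (cn := .pnn) (n1 := ndB0q0) (n2 := ndB3q3) (pc := pcB3) (cut := Cut.none) (xt := Ext.none) (P1 := 0) (W1 := 536870912) (P2 := 0) (W2 := 1230186008) (P3 := 1020054732) (W3 := 13421774) (N0 := 3) (En := eng) (mo := mog) (C1 := cd0q0) (C2 := cd3q3) (C3 := pd3)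
    rfl k0_mm_033

noncomputable def f_mm_101 : ℕ → ℕ → ℕ → ℕ → Bool := onCell 536870912 536870912 0 536870912 1020054732 13421774
    (rowB 3 eng mog cd0q1 cd3q0 pd1 0 true false false .npn 1 0 1 (qsf 536870912 536870912 0 536870912 1) ndB0q1 ndB3q0 pcB1 Cut.none Ext.none)

def k0_mm_101 : ∃ t, chk3 f_mm_101 t 1 1 1 = true :=
  ⟨(a (l 4) (b (a (l 4) (l 4)) (l 4))), by decide +kernel⟩

theorem c_mm_101 : CertB 536870912 536870912 0 536870912 1020054732 13421774 3 eng mog cd0q1 cd3q0 pd1 true false false .npn 1 0 1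
    ndB0q1 ndB3q0 pcB1 Cut.none Ext.none :=
  certB0 (fam := true) (s1 := false) (s2 := false) (a := 1) (b := 0) (c := 1) (cn := .npn) (n1 := ndB0q1) (n2 := ndB3q0) (pc := pcB1) (cut := Cut.none) (xt := Ext.none) (P1 := 536870912) (W1 := 536870912) (P2 := 0) (W2 := 536870912) (P3 := 1020054732) (W3 := 13421774) (N0 := 3) (En := eng) (mo := mog) (C1 := cd0q1) (C2 := cd3q0) (C3 := pd1)
    rfl k0_mm_101

noncomputable def f_mm_102 : ℕ → ℕ → ℕ → ℕ → Bool := onCell 536870912 536870912 0 536870912 1020054732 13421774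
    (rowB 3 eng mog cd0q1 cd3q0 pd2 0 true false false .npp 1 0 2 (qsf 536870912 536870912 0 536870912 2) ndB0q1 ndB3q0 pcB2 Cut.none Ext.none)

def k0_mm_102 : ∃ t, chk3 f_mm_102 t 1 1 1 = true :=
  ⟨(a (l 4) (b (a (l 4) (l 4)) (l 4))), by decide +kernel⟩

theorem c_mm_102 : CertB 536870912 536870912 0 536870912 1020054732 13421774 3 eng mog cd0q1 cd3q0 pd2 true false false .npp 1 0 2
    ndB0q1 ndB3q0 pcB2 Cut.none Ext.none :=
  certB0 (fam := true) (s1 := false) (s2 := false) (a := 1) (b := 0) (c := 2) (cn := .npp) (n1 := ndB0q1) (n2 := ndB3q0) (pc := pcB2) (cut := Cut.none) (xt := Ext.none) (P1 := 536870912) (W1 := 536870912) (P2 := 0) (W2 := 536870912) (P3 := 1020054732) (W3 := 13421774) (N0 := 3) (En := eng) (mo := mog) (C1 := cd0q1) (C2 := cd3q0) (C3 := pd2)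
    rfl k0_mm_102

noncomputable def f_mm_112 : ℕ → ℕ → ℕ → ℕ → Bool := onCell 536870912 536870912 536870912 536870912 1020054732 13421774
    (rowB 3 eng mog cd0q1 cd3q1 pd2 0 true false false .dn 1 1 2 (qsf 536870912 536870912 536870912 536870912 2) ndB0q1 ndB3q1 pcB2 Cut.none Ext.none)

def k0_mm_112 : ∃ t, chk3 f_mm_112 t 1 1 1 = true :=
  ⟨(l 4), by decide +kernel⟩

theorem c_mm_112 : CertB 536870912 536870912 536870912 536870912 1020054732 13421774 3 eng mog cd0q1 cd3q1 pd2 true false false .dn 1 1 2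
    ndB0q1 ndB3q1 pcB2 Cut.none Ext.none :=
  certB0 (fam := true) (s1 := false) (s2 := false) (a := 1) (b := 1) (c := 2) (cn := .dn) (n1 := ndB0q1) (n2 := ndB3q1) (pc := pcB2) (cut := Cut.none) (xt := Ext.none) (P1 := 536870912) (W1 := 536870912) (P2 := 536870912) (W2 := 536870912) (P3 := 1020054732) (W3 := 13421774) (N0 := 3) (En := eng) (mo := mog) (C1 := cd0q1) (C2 := cd3q1) (C3 := pd2)
    rfl k0_mm_112

noncomputable def f_mm_113 : ℕ → ℕ → ℕ → ℕ → Bool := onCell 536870912 536870912 536870912 536870912 1020054732 13421774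
    (rowB 3 eng mog cd0q1 cd3q1 pd3 0 true false false .nn 1 1 3 (qsf 536870912 536870912 536870912 536870912 3) ndB0q1 ndB3q1 pcB3 Cut.none Ext.none)

def k0_mm_113 : ∃ t, chk3 f_mm_113 t 1 1 1 = true :=
  ⟨(l 4), by decide +kernel⟩

theorem c_mm_113 : CertB 536870912 536870912 536870912 536870912 1020054732 13421774 3 eng mog cd0q1 cd3q1 pd3 true false false .nn 1 1 3
    ndB0q1 ndB3q1 pcB3 Cut.none Ext.none :=
  certB0 (fam := true) (s1 := false) (s2 := false) (a := 1) (b := 1) (c := 3) (cn := .nn) (n1 := ndB0q1) (n2 := ndB3q1) (pc := pcB3) (cut := Cut.none) (xt := Ext.none) (P1 := 536870912) (W1 := 536870912) (P2 := 536870912) (W2 := 536870912) (P3 := 1020054732) (W3 := 13421774) (N0 := 3) (En := eng) (mo := mog) (C1 := cd0q1) (C2 := cd3q1) (C3 := pd3)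
    rfl k0_mm_113

noncomputable def f_mm_123 : ℕ → ℕ → ℕ → ℕ → Bool := onCell 536870912 536870912 1073741824 536870912 1020054732 13421774
    (rowB 3 eng mog cd0q1 cd3q2 pd3 0 true false false .npn 1 2 3 (qsf 536870912 536870912 1073741824 536870912 3) ndB0q1 ndB3q2 pcB3 Cut.none Ext.none)

def k0_mm_123 : ∃ t, chk3 f_mm_123 t 1 1 1 = true :=
  ⟨(l 4), by decide +kernel⟩

theorem c_mm_123 : CertB 536870912 536870912 1073741824 536870912 1020054732 13421774 3 eng mog cd0q1 cd3q2 pd3 true false false .npn 1 2 3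
    ndB0q1 ndB3q2 pcB3 Cut.none Ext.none :=
  certB0 (fam := true) (s1 := false) (s2 := false) (a := 1) (b := 2) (c := 3) (cn := .npn) (n1 := ndB0q1) (n2 := ndB3q2) (pc := pcB3) (cut := Cut.none) (xt := Ext.none) (P1 := 536870912) (W1 := 536870912) (P2 := 1073741824) (W2 := 536870912) (P3 := 1020054732) (W3 := 13421774) (N0 := 3) (En := eng) (mo := mog) (C1 := cd0q1) (C2 := cd3q2) (C3 := pd3)
    rfl k0_mm_123

noncomputable def f_mm_133 : ℕ → ℕ → ℕ → ℕ → Bool := onCell 1610612736 536870912 0 1230186008 1020054732 13421774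
    (rowB 3 eng mog cd0q1 cd3q3 pd3 2 true false false .dn 1 3 3 (qsf 536870912 536870912 0 1230186008 3) ndB0q1 ndB3q3 pcB3 Cut.none Ext.none)

def k0_mm_133 : ∃ t, chk3 f_mm_133 t 1 1 1 = true :=
  ⟨(l 5), by decide +kernel⟩

theorem c_mm_133 : CertB 536870912 536870912 0 1230186008 1020054732 13421774 3 eng mog cd0q1 cd3q3 pd3 true false false .dn 1 3 3
    ndB0q1 ndB3q3 pcB3 Cut.none Ext.none :=
  certB2 (fam := true) (s1 := false) (s2 := false) (a := 1) (b := 3) (c := 3) (cn := .dn) (n1 := ndB0q1) (n2 := ndB3q3) (pc := pcB3) (cut := Cut.none) (xt := Ext.none) (P1 := 536870912) (W1 := 536870912) (P2 := 0) (W2 := 1230186008) (P3 := 1020054732) (W3 := 13421774) (N0 := 3) (En := eng) (mo := mog) (C1 := cd0q1) (C2 := cd3q3) (C3 := pd3)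
    rfl (fun _ => rfl) k0_mm_133

noncomputable def f_mm_202 : ℕ → ℕ → ℕ → ℕ → Bool := onCell 0 536870912 0 536870912 1020054732 13421774
    (rowB 3 eng mog cd0q2 cd3q0 pd2 0 true false false .pp 2 0 2 (qsf 0 536870912 0 536870912 2) ndB0q2 ndB3q0 pcB2 Cut.none Ext.none)

def k0_mm_202 : ∃ t, chk3 f_mm_202 t 2 1 1 = true :=
  ⟨(b (a (b (b (b (b (a (l 15752432) (a (b (l 15757536) (l 15656432)) (b (l 15793672) (l 15741272)))) (b (a (l 15577568) (a (l 15579760) (l 15696640))) (a (b (l 15494504) (a (l 15450808) (l 15405704))) (b (l 15607104) (l 15588880))))) (b (a (b (a (l 15363464) (c (l 15391416) (l 15383304))) (a (a (l 15315448) (b (l 15318608) (l 15298552))) (l 15392800))) (b (l 15584768) (l 15593240))) (a (b (a (a (b (l 15262864) (l 15240224)) (l 15296744)) (l 15400792)) (l 15333064)) (b (l 15608520) (l 15621824))))) (b (a (b (l 15335768) (l 15354912)) (b (l 15636608) (l 15674112))) (a (b (l 15394040) (l 15451768)) (b (l 15730704) (l 15804976))))) (b (b (a (l 15485896) (b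 (l 15895576) (l 15984792))) (a (b (l 15723128) (l 15833976)) (b (l 16041864) (l 16060176)))) (a (b (b (l 15913728) (l 15953648)) (l 4)) (l 4)))) (b (b (b (b (a (l 15789368) (a (l 16098984) (l 16201952))) (b (a (l 15874208) (l 16096248)) (a (b (l 15848672) (l 15833960)) (b (l 16073736) (l 16061040))))) (b (a (b (l 15835600) (l 15851864)) (b (l 16066560) (l 16088144))) (a (b (l 15874832) (l 15895504)) (b (l 16116552) (l 16142312))))) (b (a (b (l 15920672) (l 15971536)) (b (l 16174360) (a (l 16173192) (l 16274624)))) (a (b (l 16040904) (l 15856968)) (b (a (l 16225768) (l 16279480)) (l 16180480))))) (b (b (a (b (l 27076665703) (l 16152448)) (l 4)) (l 4)) (l 4)))) (l 4)), by decide +kernel⟩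

def k1_mm_202 : ∃ t, chk3 f_mm_202 t 3 1 1 = true :=
  ⟨(b (b (b (b (a (b (a (a (l 16297424) (l 16362328)) (a (b (l 16480168) (l 16437200)) (b (l 16498168) (l 16496384)))) (b (a (l 16288176) (a (l 16401792) (l 16458936))) (a (b (l 16266640) (l 16254496)) (a (l 16309264) (b (l 16435584) (l 16421912)))))) (a (a (b (b (a (l 16573120) (l 16587872)) (l 16472744)) (b (l 16436624) (b (l 16475320) (l 4)))) (b (b (a (l 16597520) (l 16564552)) (a (l 16554656) (l 16570648))) (l 4))) (b (a (a (b (a (l 16617200) (l 4)) (l 4)) (l 4)) (l 4)) (l 4)))) (a (a (b (b (a (l 16217488) (l 16303864)) (l 16203448)) (a (l 16202304) (b (l 16361648) (l 16381552)))) (b (a (b (l 16375808) (l 16398760)) (b (l 16426056) (l 4))) (a (b (l 16419040) (l 4)) (l 4)))) (l 4))) (a (a (b (b (a (l 16323944) (l 16376312)) (a (l 16327152) (l 4))) (l 4)) (l 4)) (l 4))) (l 4)) (l 4)), by decide +kernel⟩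

theorem s2_mm_202 : ∃ t, chk3 f_mm_202 t 1 1 1 = true := ex3_a k0_mm_202 k1_mm_202

theorem c_mm_202 : CertB 0 536870912 0 536870912 1020054732 13421774 3 eng mog cd0q2 cd3q0 pd2 true false false .pp 2 0 2
    ndB0q2 ndB3q0 pcB2 Cut.none Ext.none :=
  certB0 (fam := true) (s1 := false) (s2 := false) (a := 2) (b := 0) (c := 2) (cn := .pp) (n1 := ndB0q2) (n2 := ndB3q0) (pc := pcB2) (cut := Cut.none) (xt := Ext.none) (P1 := 0) (W1 := 536870912) (P2 := 0) (W2 := 536870912) (P3 := 1020054732) (W3 := 13421774) (N0 := 3) (En := eng) (mo := mog) (C1 := cd0q2) (C2 := cd3q0) (C3 := pd2)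
    rfl s2_mm_202

noncomputable def f_mm_203 : ℕ → ℕ → ℕ → ℕ → Bool := onCell 0 536870912 1610612736 536870912 1020054732 13421774
    (rowB 3 eng mog cd0q2 cd3q0 pd3 1 true false false .up 2 0 3 (qsf 0 536870912 0 536870912 3) ndB0q2 ndB3q0 pcB3 Cut.none Ext.none)

def k0_mm_203 : ∃ t, chk3 f_mm_203 t 1 1 1 = true :=
  ⟨(l 4), by decide +kernel⟩

theorem c_mm_203 : CertB 0 536870912 0 536870912 1020054732 13421774 3 eng mog cd0q2 cd3q0 pd3 true false false .up 2 0 3
    ndB0q2 ndB3q0 pcB3 Cut.none Ext.none :=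
  certB1 (fam := true) (s1 := false) (s2 := false) (a := 2) (b := 0) (c := 3) (cn := .up) (n1 := ndB0q2) (n2 := ndB3q0) (pc := pcB3) (cut := Cut.none) (xt := Ext.none) (P1 := 0) (W1 := 536870912) (P2 := 0) (W2 := 536870912) (P3 := 1020054732) (W3 := 13421774) (N0 := 3) (En := eng) (mo := mog) (C1 := cd0q2) (C2 := cd3q0) (C3 := pd3)
    rfl (fun _ => rfl) k0_mm_203

noncomputable def f_mm_213 : ℕ → ℕ → ℕ → ℕ → Bool := onCell 0 536870912 536870912 536870912 1020054732 13421774
    (rowB 3 eng mog cd0q2 cd3q1 pd3 0 true false false .pnn 2 1 3 (qsf 0 536870912 536870912 536870912 3) ndB0q2 ndB3q1 pcB3 Cut.none Ext.none)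

def k0_mm_213 : ∃ t, chk3 f_mm_213 t 1 1 1 = true :=
  ⟨(l 4), by decide +kernel⟩

theorem c_mm_213 : CertB 0 536870912 536870912 536870912 1020054732 13421774 3 eng mog cd0q2 cd3q1 pd3 true false false .pnn 2 1 3
    ndB0q2 ndB3q1 pcB3 Cut.none Ext.none :=
  certB0 (fam := true) (s1 := false) (s2 := false) (a := 2) (b := 1) (c := 3) (cn := .pnn) (n1 := ndB0q2) (n2 := ndB3q1) (pc := pcB3) (cut := Cut.none) (xt := Ext.none) (P1 := 0) (W1 := 536870912) (P2 := 536870912) (W2 := 536870912) (P3 := 1020054732) (W3 := 13421774) (N0 := 3) (En := eng) (mo := mog) (C1 := cd0q2) (C2 := cd3q1) (C3 := pd3)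
    rfl k0_mm_213

end Pool.Agent.Strip051.G.I9500_9625.Tab.C.BA03

namespace Pool.Agent.Strip051.G.I9500_9625.Tab.C.BA04

open Pool.Agent.Strip051.PB Pool.Agent.Strip051.PB.T
open Pool.Agent.Strip051.G.I9500_9625.Tab

noncomputable def f_pp_001 : ℕ → ℕ → ℕ → ℕ → Bool := onCell 0 536870912 0 536870912 1020054732 13421774
    (rowB 3 eng mog cd0q0 cd4q0 pd1 0 true true true .up 0 0 1 (qsf 0 536870912 0 536870912 1) ndB0q0 ndB4q0 pcB1 Cut.none Ext.none)

def k0_pp_001 : ∃ t, chk3 f_pp_001 t 1 1 1 = true :=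
  ⟨(l 4), by decide +kernel⟩

theorem c_pp_001 : CertB 0 536870912 0 536870912 1020054732 13421774 3 eng mog cd0q0 cd4q0 pd1 true true true .up 0 0 1
    ndB0q0 ndB4q0 pcB1 Cut.none Ext.none :=
  certB0 (fam := true) (s1 := true) (s2 := true) (a := 0) (b := 0) (c := 1) (cn := .up) (n1 := ndB0q0) (n2 := ndB4q0) (pc := pcB1) (cut := Cut.none) (xt := Ext.none) (P1 := 0) (W1 := 536870912) (P2 := 0) (W2 := 536870912) (P3 := 1020054732) (W3 := 13421774) (N0 := 3) (En := eng) (mo := mog) (C1 := cd0q0) (C2 := cd4q0) (C3 := pd1)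
    rfl k0_pp_001

noncomputable def f_pp_011 : ℕ → ℕ → ℕ → ℕ → Bool := onCell 0 536870912 536870912 536870912 1020054732 13421774
    (rowB 3 eng mog cd0q0 cd4q1 pd1 0 true true true .pnn 0 1 1 (qsf 0 536870912 536870912 536870912 1) ndB0q0 ndB4q1 pcB1 Cut.none Ext.none)

def k0_pp_011 : ∃ t, chk3 f_pp_011 t 1 1 1 = true :=
  ⟨(l 4), by decide +kernel⟩

theorem c_pp_011 : CertB 0 536870912 536870912 536870912 1020054732 13421774 3 eng mog cd0q0 cd4q1 pd1 true true true .pnn 0 1 1
    ndB0q0 ndB4q1 pcB1 Cut.none Ext.none :=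
  certB0 (fam := true) (s1 := true) (s2 := true) (a := 0) (b := 1) (c := 1) (cn := .pnn) (n1 := ndB0q0) (n2 := ndB4q1) (pc := pcB1) (cut := Cut.none) (xt := Ext.none) (P1 := 0) (W1 := 536870912) (P2 := 536870912) (W2 := 536870912) (P3 := 1020054732) (W3 := 13421774) (N0 := 3) (En := eng) (mo := mog) (C1 := cd0q0) (C2 := cd4q1) (C3 := pd1)
    rfl k0_pp_011

noncomputable def f_pp_012 : ℕ → ℕ → ℕ → ℕ → Bool := onCell 0 536870912 536870912 536870912 1020054732 13421774
    (rowB 3 eng mog cd0q0 cd4q1 pd2 0 true true true .pnp 0 1 2 (qsf 0 536870912 536870912 536870912 2) ndB0q0 ndB4q1 pcB2 Cut.none Ext.none)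

def k0_pp_012 : ∃ t, chk3 f_pp_012 t 1 1 1 = true :=
  ⟨(l 4), by decide +kernel⟩

theorem c_pp_012 : CertB 0 536870912 536870912 536870912 1020054732 13421774 3 eng mog cd0q0 cd4q1 pd2 true true true .pnp 0 1 2
    ndB0q0 ndB4q1 pcB2 Cut.none Ext.none :=
  certB0 (fam := true) (s1 := true) (s2 := true) (a := 0) (b := 1) (c := 2) (cn := .pnp) (n1 := ndB0q0) (n2 := ndB4q1) (pc := pcB2) (cut := Cut.none) (xt := Ext.none) (P1 := 0) (W1 := 536870912) (P2 := 536870912) (W2 := 536870912) (P3 := 1020054732) (W3 := 13421774) (N0 := 3) (En := eng) (mo := mog) (C1 := cd0q0) (C2 := cd4q1) (C3 := pd2)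
    rfl k0_pp_012

noncomputable def f_pp_022 : ℕ → ℕ → ℕ → ℕ → Bool := onCell 0 536870912 1073741824 536870912 1020054732 13421774
    (rowB 3 eng mog cd0q0 cd4q2 pd2 0 true true true .pp 0 2 2 (qsf 0 536870912 1073741824 536870912 2) ndB0q0 ndB4q2 pcB2 Cut.none Ext.none)

def k0_pp_022 : ∃ t, chk3 f_pp_022 t 1 1 1 = true :=
  ⟨(l 4), by decide +kernel⟩

theorem c_pp_022 : CertB 0 536870912 1073741824 536870912 1020054732 13421774 3 eng mog cd0q0 cd4q2 pd2 true true true .pp 0 2 2
    ndB0q0 ndB4q2 pcB2 Cut.none Ext.none :=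
  certB0 (fam := true) (s1 := true) (s2 := true) (a := 0) (b := 2) (c := 2) (cn := .pp) (n1 := ndB0q0) (n2 := ndB4q2) (pc := pcB2) (cut := Cut.none) (xt := Ext.none) (P1 := 0) (W1 := 536870912) (P2 := 1073741824) (W2 := 536870912) (P3 := 1020054732) (W3 := 13421774) (N0 := 3) (En := eng) (mo := mog) (C1 := cd0q0) (C2 := cd4q2) (C3 := pd2)
    rfl k0_pp_022

noncomputable def f_pp_023 : ℕ → ℕ → ℕ → ℕ → Bool := onCell 0 536870912 1073741824 536870912 1020054732 13421774
    (rowB 3 eng mog cd0q0 cd4q2 pd3 0 true true true .up 0 2 3 (qsf 0 536870912 1073741824 536870912 3) ndB0q0 ndB4q2 pcB3 Cut.none Ext.none)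

def k0_pp_023 : ∃ t, chk3 f_pp_023 t 1 1 1 = true :=
  ⟨(l 4), by decide +kernel⟩

theorem c_pp_023 : CertB 0 536870912 1073741824 536870912 1020054732 13421774 3 eng mog cd0q0 cd4q2 pd3 true true true .up 0 2 3
    ndB0q0 ndB4q2 pcB3 Cut.none Ext.none :=
  certB0 (fam := true) (s1 := true) (s2 := true) (a := 0) (b := 2) (c := 3) (cn := .up) (n1 := ndB0q0) (n2 := ndB4q2) (pc := pcB3) (cut := Cut.none) (xt := Ext.none) (P1 := 0) (W1 := 536870912) (P2 := 1073741824) (W2 := 536870912) (P3 := 1020054732) (W3 := 13421774) (N0 := 3) (En := eng) (mo := mog) (C1 := cd0q0) (C2 := cd4q2) (C3 := pd3)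
    rfl k0_pp_023

noncomputable def f_pp_033 : ℕ → ℕ → ℕ → ℕ → Bool := onCell 0 536870912 0 1230186008 1020054732 13421774
    (rowB 3 eng mog cd0q0 cd4q3 pd3 0 true true true .pnn 0 3 3 (qsf 0 536870912 0 1230186008 3) ndB0q0 ndB4q3 pcB3 Cut.none Ext.none)

def k0_pp_033 : ∃ t, chk3 f_pp_033 t 1 1 1 = true :=
  ⟨(b (l 4) (l 4)), by decide +kernel⟩

theorem c_pp_033 : CertB 0 536870912 0 1230186008 1020054732 13421774 3 eng mog cd0q0 cd4q3 pd3 true true true .pnn 0 3 3
    ndB0q0 ndB4q3 pcB3 Cut.none Ext.none :=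
  certB0 (fam := true) (s1 := true) (s2 := true) (a := 0) (b := 3) (c := 3) (cn := .pnn) (n1 := ndB0q0) (n2 := ndB4q3) (pc := pcB3) (cut := Cut.none) (xt := Ext.none) (P1 := 0) (W1 := 536870912) (P2 := 0) (W2 := 1230186008) (P3 := 1020054732) (W3 := 13421774) (N0 := 3) (En := eng) (mo := mog) (C1 := cd0q0) (C2 := cd4q3) (C3 := pd3)
    rfl k0_pp_033

noncomputable def f_pp_101 : ℕ → ℕ → ℕ → ℕ → Bool := onCell 536870912 536870912 0 536870912 1020054732 13421774
    (rowB 3 eng mog cd0q1 cd4q0 pd1 0 true true true .npn 1 0 1 (qsf 536870912 536870912 0 536870912 1) ndB0q1 ndB4q0 pcB1 Cut.none Ext.none)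

def k0_pp_101 : ∃ t, chk3 f_pp_101 t 1 1 1 = true :=
  ⟨(l 4), by decide +kernel⟩

theorem c_pp_101 : CertB 536870912 536870912 0 536870912 1020054732 13421774 3 eng mog cd0q1 cd4q0 pd1 true true true .npn 1 0 1
    ndB0q1 ndB4q0 pcB1 Cut.none Ext.none :=
  certB0 (fam := true) (s1 := true) (s2 := true) (a := 1) (b := 0) (c := 1) (cn := .npn) (n1 := ndB0q1) (n2 := ndB4q0) (pc := pcB1) (cut := Cut.none) (xt := Ext.none) (P1 := 536870912) (W1 := 536870912) (P2 := 0) (W2 := 536870912) (P3 := 1020054732) (W3 := 13421774) (N0 := 3) (En := eng) (mo := mog) (C1 := cd0q1) (C2 := cd4q0) (C3 := pd1)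
    rfl k0_pp_101

noncomputable def f_pp_102 : ℕ → ℕ → ℕ → ℕ → Bool := onCell 536870912 536870912 0 536870912 1020054732 13421774
    (rowB 3 eng mog cd0q1 cd4q0 pd2 0 true true true .npp 1 0 2 (qsf 536870912 536870912 0 536870912 2) ndB0q1 ndB4q0 pcB2 Cut.none Ext.none)

def k0_pp_102 : ∃ t, chk3 f_pp_102 t 1 1 1 = true :=
  ⟨(l 4), by decide +kernel⟩

theorem c_pp_102 : CertB 536870912 536870912 0 536870912 1020054732 13421774 3 eng mog cd0q1 cd4q0 pd2 true true true .npp 1 0 2
    ndB0q1 ndB4q0 pcB2 Cut.none Ext.none :=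
  certB0 (fam := true) (s1 := true) (s2 := true) (a := 1) (b := 0) (c := 2) (cn := .npp) (n1 := ndB0q1) (n2 := ndB4q0) (pc := pcB2) (cut := Cut.none) (xt := Ext.none) (P1 := 536870912) (W1 := 536870912) (P2 := 0) (W2 := 536870912) (P3 := 1020054732) (W3 := 13421774) (N0 := 3) (En := eng) (mo := mog) (C1 := cd0q1) (C2 := cd4q0) (C3 := pd2)
    rfl k0_pp_102

noncomputable def f_pp_112 : ℕ → ℕ → ℕ → ℕ → Bool := onCell 536870912 536870912 536870912 536870912 1020054732 13421774
    (rowB 3 eng mog cd0q1 cd4q1 pd2 0 true true true .dn 1 1 2 (qsf 536870912 536870912 536870912 536870912 2) ndB0q1 ndB4q1 pcB2 Cut.none Ext.none)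

def k0_pp_112 : ∃ t, chk3 f_pp_112 t 1 1 1 = true :=
  ⟨(l 4), by decide +kernel⟩

theorem c_pp_112 : CertB 536870912 536870912 536870912 536870912 1020054732 13421774 3 eng mog cd0q1 cd4q1 pd2 true true true .dn 1 1 2
    ndB0q1 ndB4q1 pcB2 Cut.none Ext.none :=
  certB0 (fam := true) (s1 := true) (s2 := true) (a := 1) (b := 1) (c := 2) (cn := .dn) (n1 := ndB0q1) (n2 := ndB4q1) (pc := pcB2) (cut := Cut.none) (xt := Ext.none) (P1 := 536870912) (W1 := 536870912) (P2 := 536870912) (W2 := 536870912) (P3 := 1020054732) (W3 := 13421774) (N0 := 3) (En := eng) (mo := mog) (C1 := cd0q1) (C2 := cd4q1) (C3 := pd2)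
    rfl k0_pp_112

noncomputable def f_pp_113 : ℕ → ℕ → ℕ → ℕ → Bool := onCell 536870912 536870912 536870912 536870912 1020054732 13421774
    (rowB 3 eng mog cd0q1 cd4q1 pd3 0 true true true .nn 1 1 3 (qsf 536870912 536870912 536870912 536870912 3) ndB0q1 ndB4q1 pcB3 Cut.none Ext.none)

def k0_pp_113 : ∃ t, chk3 f_pp_113 t 1 1 1 = true :=
  ⟨(l 4), by decide +kernel⟩

theorem c_pp_113 : CertB 536870912 536870912 536870912 536870912 1020054732 13421774 3 eng mog cd0q1 cd4q1 pd3 true true true .nn 1 1 3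
    ndB0q1 ndB4q1 pcB3 Cut.none Ext.none :=
  certB0 (fam := true) (s1 := true) (s2 := true) (a := 1) (b := 1) (c := 3) (cn := .nn) (n1 := ndB0q1) (n2 := ndB4q1) (pc := pcB3) (cut := Cut.none) (xt := Ext.none) (P1 := 536870912) (W1 := 536870912) (P2 := 536870912) (W2 := 536870912) (P3 := 1020054732) (W3 := 13421774) (N0 := 3) (En := eng) (mo := mog) (C1 := cd0q1) (C2 := cd4q1) (C3 := pd3)
    rfl k0_pp_113

noncomputable def f_pp_123 : ℕ → ℕ → ℕ → ℕ → Bool := onCell 536870912 536870912 1073741824 536870912 1020054732 13421774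
    (rowB 3 eng mog cd0q1 cd4q2 pd3 0 true true true .npn 1 2 3 (qsf 536870912 536870912 1073741824 536870912 3) ndB0q1 ndB4q2 pcB3 Cut.none Ext.none)

def k0_pp_123 : ∃ t, chk3 f_pp_123 t 1 1 1 = true :=
  ⟨(l 4), by decide +kernel⟩

theorem c_pp_123 : CertB 536870912 536870912 1073741824 536870912 1020054732 13421774 3 eng mog cd0q1 cd4q2 pd3 true true true .npn 1 2 3
    ndB0q1 ndB4q2 pcB3 Cut.none Ext.none :=
  certB0 (fam := true) (s1 := true) (s2 := true) (a := 1) (b := 2) (c := 3) (cn := .npn) (n1 := ndB0q1) (n2 := ndB4q2) (pc := pcB3) (cut := Cut.none) (xt := Ext.none) (P1 := 536870912) (W1 := 536870912) (P2 := 1073741824) (W2 := 536870912) (P3 := 1020054732) (W3 := 13421774) (N0 := 3) (En := eng) (mo := mog) (C1 := cd0q1) (C2 := cd4q2) (C3 := pd3)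
    rfl k0_pp_123

noncomputable def f_pp_133 : ℕ → ℕ → ℕ → ℕ → Bool := onCell 536870912 536870912 0 1230186008 1020054732 13421774
    (rowB 3 eng mog cd0q1 cd4q3 pd3 0 true true true .dn 1 3 3 (qsf 536870912 536870912 0 1230186008 3) ndB0q1 ndB4q3 pcB3 Cut.none Ext.none)

def k0_pp_133 : ∃ t, chk3 f_pp_133 t 1 1 1 = true :=
  ⟨(l 4), by decide +kernel⟩

theorem c_pp_133 : CertB 536870912 536870912 0 1230186008 1020054732 13421774 3 eng mog cd0q1 cd4q3 pd3 true true true .dn 1 3 3
    ndB0q1 ndB4q3 pcB3 Cut.none Ext.none :=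
  certB0 (fam := true) (s1 := true) (s2 := true) (a := 1) (b := 3) (c := 3) (cn := .dn) (n1 := ndB0q1) (n2 := ndB4q3) (pc := pcB3) (cut := Cut.none) (xt := Ext.none) (P1 := 536870912) (W1 := 536870912) (P2 := 0) (W2 := 1230186008) (P3 := 1020054732) (W3 := 13421774) (N0 := 3) (En := eng) (mo := mog) (C1 := cd0q1) (C2 := cd4q3) (C3 := pd3)
    rfl k0_pp_133

noncomputable def f_pp_202 : ℕ → ℕ → ℕ → ℕ → Bool := onCell 0 536870912 0 536870912 1020054732 13421774
    (rowB 3 eng mog cd0q2 cd4q0 pd2 0 true true true .pp 2 0 2 (qsf 0 536870912 0 536870912 2) ndB0q2 ndB4q0 pcB2 Cut.none Ext.none)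

def k0_pp_202 : ∃ t, chk3 f_pp_202 t 1 1 1 = true :=
  ⟨(l 4), by decide +kernel⟩

theorem c_pp_202 : CertB 0 536870912 0 536870912 1020054732 13421774 3 eng mog cd0q2 cd4q0 pd2 true true true .pp 2 0 2
    ndB0q2 ndB4q0 pcB2 Cut.none Ext.none :=
  certB0 (fam := true) (s1 := true) (s2 := true) (a := 2) (b := 0) (c := 2) (cn := .pp) (n1 := ndB0q2) (n2 := ndB4q0) (pc := pcB2) (cut := Cut.none) (xt := Ext.none) (P1 := 0) (W1 := 536870912) (P2 := 0) (W2 := 536870912) (P3 := 1020054732) (W3 := 13421774) (N0 := 3) (En := eng) (mo := mog) (C1 := cd0q2) (C2 := cd4q0) (C3 := pd2)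
    rfl k0_pp_202

noncomputable def f_pp_203 : ℕ → ℕ → ℕ → ℕ → Bool := onCell 0 536870912 0 536870912 1020054732 13421774
    (rowB 3 eng mog cd0q2 cd4q0 pd3 0 true true true .up 2 0 3 (qsf 0 536870912 0 536870912 3) ndB0q2 ndB4q0 pcB3 Cut.none Ext.none)

def k0_pp_203 : ∃ t, chk3 f_pp_203 t 1 1 1 = true :=
  ⟨(l 4), by decide +kernel⟩

theorem c_pp_203 : CertB 0 536870912 0 536870912 1020054732 13421774 3 eng mog cd0q2 cd4q0 pd3 true true true .up 2 0 3
    ndB0q2 ndB4q0 pcB3 Cut.none Ext.none :=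
  certB0 (fam := true) (s1 := true) (s2 := true) (a := 2) (b := 0) (c := 3) (cn := .up) (n1 := ndB0q2) (n2 := ndB4q0) (pc := pcB3) (cut := Cut.none) (xt := Ext.none) (P1 := 0) (W1 := 536870912) (P2 := 0) (W2 := 536870912) (P3 := 1020054732) (W3 := 13421774) (N0 := 3) (En := eng) (mo := mog) (C1 := cd0q2) (C2 := cd4q0) (C3 := pd3)
    rfl k0_pp_203

noncomputable def f_pp_213 : ℕ → ℕ → ℕ → ℕ → Bool := onCell 0 536870912 536870912 536870912 1020054732 13421774
    (rowB 3 eng mog cd0q2 cd4q1 pd3 0 true true true .pnn 2 1 3 (qsf 0 536870912 536870912 536870912 3) ndB0q2 ndB4q1 pcB3 Cut.none Ext.none)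

def k0_pp_213 : ∃ t, chk3 f_pp_213 t 1 1 1 = true :=
  ⟨(l 4), by decide +kernel⟩

theorem c_pp_213 : CertB 0 536870912 536870912 536870912 1020054732 13421774 3 eng mog cd0q2 cd4q1 pd3 true true true .pnn 2 1 3
    ndB0q2 ndB4q1 pcB3 Cut.none Ext.none :=
  certB0 (fam := true) (s1 := true) (s2 := true) (a := 2) (b := 1) (c := 3) (cn := .pnn) (n1 := ndB0q2) (n2 := ndB4q1) (pc := pcB3) (cut := Cut.none) (xt := Ext.none) (P1 := 0) (W1 := 536870912) (P2 := 536870912) (W2 := 536870912) (P3 := 1020054732) (W3 := 13421774) (N0 := 3) (En := eng) (mo := mog) (C1 := cd0q2) (C2 := cd4q1) (C3 := pd3)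
    rfl k0_pp_213

noncomputable def f_pm_001 : ℕ → ℕ → ℕ → ℕ → Bool := onCell 0 536870912 536870912 536870912 1020054732 13421774
    (rowB 3 eng mog cd0q0 cd4q0 pd1 1 true true false .up 0 0 1 (qsf 0 536870912 0 536870912 1) ndB0q0 ndB4q0 pcB1 Cut.none Ext.none)

def k0_pm_001 : ∃ t, chk3 f_pm_001 t 1 2 1 = true :=
  ⟨(l 3), by decide +kernel⟩

def k1_pm_001 : ∃ t, chk3 f_pm_001 t 2 3 1 = true :=
  ⟨(b (l 3) (l 2)), by decide +kernel⟩

def k2_pm_001 : ∃ t, chk3 f_pm_001 t 3 6 1 = true :=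
  ⟨(a (l 3) (b (l 3) (a (b (l 3) (b (a (l 3) (a (l 3) (a (l 3) (b (l 3) (c (l 302962472967) (l 261623360007)))))) (a (b (l 3) (a (b (l 3) (a (l 3) (b (l 3) (c (l 279877010039) (l 280950785383))))) (b (a (l 3) (c (l 281487576679) (l 285245715927))) (a (c (l 173039716215) (b (l 278266379511) (l 273971395527))) (c (l 16511312) (l 16501304)))))) (c (b (a (b (l 287393249575) (l 294372522391)) (b (l 236927344087) (l 16536480))) (a (b (l 263770827447) (l 16508992)) (l 16511616))) (a (b (b (l 285782620279) (a (l 292225110823) (l 258939072199))) (b (a (l 188072115575) (l 16546352)) (l 16529376))) (b (c (l 260012762855) (a (l 262160261319) (l 267528933271))) (l 16531008))))))) (b (a (l 3) (b (l 3) (b (l 3) (a (b (l 3) (l 341616983847)) (b (l 360944302295) (l 248201393767)))))) (b (a (a (b (l 3) (b (c (l 317457928695) (l 321215975767)) (a (c (l 16519912) (l 257328363719)) (l 16470624)))) (b (b (l 322289671927) (a (l 326584660823) (l 249275219255))) (b (a (l 258938914727) (l 16465416))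 (l 16446608)))) (b (a (c (l 245517117527) (b (l 247127696999) (l 16458048))) (b (l 16430112) (l 16443624))) (a (l 16398240) (l 16411720)))) (a (b (a (a (b (l 16482984) (l 16520864)) (l 16463736)) (l 16438768)) (a (l 16485032) (l 16470776))) (a (l 16380024) (l 16411792)))))))), by decide +kernel⟩

def k3_pm_001 : ∃ t, chk3 f_pm_001 t 3 7 1 = true :=
  ⟨(b (b (b (a (b (b (b (l 3) (l 2)) (l 2)) (l 2)) (a (a (c (b (a (b (a (b (l 278803248183) (l 280950713543)) (l 203641299239)) (l 121969772007)) (b (l 16493072) (l 16473952))) (a (l 120359120775) (l 16444304))) (a (b (c (b (a (l 280950731783) (l 182703382247)) (l 121969796455)) (b (a (l 273434505079) (l 201493870215)) (l 121969824055))) (l 115527181287)) (b (b (a (l 16514040) (l 16513200)) (l 16493616)) (l 16462792)))) (b (a (b (l 16500480) (l 16460520)) (l 16485280)) (a (l 16431224) (l 16447680)))) (a (b (l 16470632) (l 16434840)) (l 16403352)))) (a (l 2) (a (a (b (l 113379533303) (l 16345360)) (a (l 16348856) (l 16367200))) (a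 (l 16378152) (l 16353968))))) (a (l 2) (a (a (b (l 143980877751) (l 2)) (b (l 16283192) (l 16213400))) (b (a (l 16297616) (l 16278536)) (l 16164800))))) (a (l 2) (b (a (a (l 2) (l 134853406823)) (a (l 15951472) (l 15988504))) (a (l 2) (b (l 15815984) (l 15728472)))))), by decide +kernel⟩

theorem s4_pm_001 : ∃ t, chk3 f_pm_001 t 3 3 1 = true := ex3_b k2_pm_001 k3_pm_001

theorem s5_pm_001 : ∃ t, chk3 f_pm_001 t 1 3 1 = true := ex3_a k1_pm_001 s4_pm_001

theorem s6_pm_001 : ∃ t, chk3 f_pm_001 t 1 1 1 = true := ex3_b k0_pm_001 s5_pm_001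

theorem c_pm_001 : CertB 0 536870912 0 536870912 1020054732 13421774 3 eng mog cd0q0 cd4q0 pd1 true true false .up 0 0 1
    ndB0q0 ndB4q0 pcB1 Cut.none Ext.none :=
  certB1 (fam := true) (s1 := true) (s2 := false) (a := 0) (b := 0) (c := 1) (cn := .up) (n1 := ndB0q0) (n2 := ndB4q0) (pc := pcB1) (cut := Cut.none) (xt := Ext.none) (P1 := 0) (W1 := 536870912) (P2 := 0) (W2 := 536870912) (P3 := 1020054732) (W3 := 13421774) (N0 := 3) (En := eng) (mo := mog) (C1 := cd0q0) (C2 := cd4q0) (C3 := pd1)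
    rfl (fun _ => rfl) s6_pm_001

noncomputable def cut_pm_011 : Cut := Cut.of [[⟨0, 0, 0, 38347922⟩, ⟨1, 1, 0, 38347922⟩, ⟨2, 1, 0, 38347922⟩]]

noncomputable def xt_pm_011 : Ext := extD3 3 ⟨4, 1, 1, 5, 99, 20, 33, 40, 51, 125, 1, 32⟩ eng cd0q0 cd4q1 pd1 true true false .pnn 0 1 1 rfl ndB0q0 ndB4q1 pcB1

noncomputable def f_pm_011 : ℕ → ℕ → ℕ → ℕ → Bool := onCell 0 536870912 536870912 536870912 1020054732 13421774
    (rowB 3 eng mog cd0q0 cd4q1 pd1 1 true true false .pnn 0 1 1 (qsf 0 536870912 536870912 536870912 1) ndB0q0 ndB4q1 pcB1 cut_pm_011 xt_pm_011)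

def k0_pm_011 : ∃ t, chk3 f_pm_011 t 1 2 1 = true :=
  ⟨(l 3), by decide +kernel⟩

def k1_pm_011 : ∃ t, chk3 f_pm_011 t 2 6 1 = true :=
  ⟨(l 3), by decide +kernel⟩

def k2_pm_011 : ∃ t, chk3 f_pm_011 t 4 14 1 = true :=
  ⟨(l 3), by decide +kernel⟩

def k3_pm_011 : ∃ t, chk3 f_pm_011 t 8 15 1 = true :=
  ⟨(b (l 3) (a (b (l 3) (a (l 6) (b (b (l 3) (a (l 3) (b (l 3) (a (b (l 3) (l 501605132839)) (c (l 302962887543) (l 302962878983)))))) (b (a (l 6) (a (l 6) (b (l 143536123333001279) (l 143448987033993343)))) (l 6))))) (b (b (l 3) (a (l 3) (b (l 3) (a (b (l 3) (a (l 3) (l 344301841383))) (b (a (l 332490710471) (l 16684432)) (a (l 16690520) (l 16684280))))))) (b (c (a (b (a (b (l 3) (l 9528753310346112616305623103)) (b (l 452749815767) (l 5379719897428483118585151551))) (a (a (b (l 499994499175) (l 16737840)) (l 3329381707362273729998503999)) (a (l 143369753440321599) (l 16714832)))) (a (b (a (l 275582392487) (l 16701192)) (l 16687848)) (b (l 16670656) (l 16690328)))) (a (a (b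 (l 9780209880825761695710232639) (b (l 6462917431803240543324143679) (l 143346320111042623))) (b (a (l 5960004290843419223101784127) (l 5515119589225118039047405631)) (l 143132671222923327))) (a (b (b (l 291688489335) (l 16696040)) (l 143111093272412223)) (b (b (l 16682168) (l 16681464)) (l 16679896))))) (a (b (a (a (b (l 143475787616944191) (l 16712200)) (l 143192663354949695)) (l 143037288549007423)) (a (b (l 143190464292454463) (l 16704760)) (l 142987947958075455))) (b (a (l 142839101587734591) (l 16661576)) (a (l 16661856) (l 16658024)))))))), by decide +kernel⟩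

def k4_pm_011 : ∃ t, chk3 f_pm_011 t 9 15 1 = true :=
  ⟨(b (a (l 3) (b (l 3) (b (l 3) (a (b (l 3) (a (c (l 16643944) (l 16630416)) (b (l 16628584) (l 16627072)))) (b (c (l 195588470311) (l 205788955175)) (c (l 16622408) (l 185924725783))))))) (b (a (b (a (b (l 3) (a (l 3) (c (l 323363858663) (l 323363836455)))) (b (a (l 3) (b (l 3) (l 16648920))) (a (c (l 16661896) (l 16647064)) (c (l 16649112) (l 16636168))))) (a (b (a (b (l 332490665479) (l 289004085143)) (b (l 183240533863) (l 16663720))) (a (c (l 16680536) (l 16670008)) (c (l 16669312) (l 16657680)))) (b (a (c (l 16658792) (l 16646480)) (c (l 16648648) (l 16635456))) (a (l 16631232) (l 16641376))))) (b (a (b (a (b (l 16634912) (l 16633856)) (c (l 16632360) (l 16618280))) (c (l 16635288) (a (l 16626024) (l 16616544)))) (b (c (l 16620064) (l 16605168)) (c (l 16618304) (l 16603072)))) (a (b (c (l 16634496) (l 16620160)) (c (l 16633608) (l 16618848))) (b (l 16588352) (l 16607760))))) (a (b (a (b (a (c (l 16679912) (l 16668904))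 (l 16641472)) (a (l 16651640) (l 16660408))) (b (a (l 16650880) (l 16639832)) (l 16601032))) (a (b (a (l 16669832) (l 16657456)) (l 16617896)) (b (l 16618792) (l 16614736)))) (b (a (b (l 16603440) (l 16621696)) (b (l 16605464) (l 16602376))) (a (b (l 16618160) (l 16613824)) (l 16575376)))))), by decide +kernel⟩

def k5_pm_011 : ∃ t, chk3 f_pm_011 t 5 7 1 = true :=
  ⟨(b (a (l 3) (b (l 3) (b (a (l 3) (b (l 3) (a (l 3) (l 291688202343)))) (a (b (l 3) (a (l 16564536) (l 16574120))) (b (a (l 272897713383) (l 16545048)) (a (l 16563792) (l 16554104))))))) (b (a (a (b (a (l 3) (b (l 3) (c (l 331953607463) (l 342154125143)))) (b (a (b (a (l 3) (l 254107316167)) (a (l 215989488775) (l 16580768))) (c (b (l 16602520) (l 16598952)) (a (l 16567696) (l 16581616)))) (a (c (b (l 16609872) (l 16607088)) (b (l 16594656) (l 16591608))) (c (l 16594192) (l 16578160))))) (b (b (a (l 3) (l 621326963383)) (a (c (l 167134219703) (l 168207931223)) (l 16554592))) (b (a (b (l 16581592) (l 16577832))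 (l 16567168)) (a (l 16551400) (l 16559184))))) (a (b (b (a (l 16573808) (l 16563104)) (a (l 16564120) (l 16553072))) (a (l 16508944) (l 16518008))) (b (a (l 16505640) (l 16516256)) (c (l 16530920) (l 16512448))))) (a (b (a (b (a (b (l 16575600) (l 16594232)) (b (l 16581392) (l 16578648))) (a (c (l 16599776) (l 16582888)) (l 16554184))) (b (a (l 16565504) (l 16551632)) (a (l 16559752) (l 16545080)))) (a (b (a (l 16565048) (l 16568992)) (a (l 16556752) (l 16539152))) (a (b (l 16552848) (l 16543432)) (l 16532840)))) (b (a (b (l 16511000) (l 16524296)) (b (l 16506984) (l 16497896))) (a (l 16489656) (l 16482496)))))), by decide +kernel⟩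

def k6_pm_011 : ∃ t, chk3 f_pm_011 t 3 6 1 = true :=
  ⟨(a (l 3) (b (l 1) (a (a (a (a (l 3) (l 1)) (l 1)) (l 1)) (l 1)))), by decide +kernel⟩

def k7_pm_011 : ∃ t, chk3 f_pm_011 t 3 14 1 = true :=
  ⟨(a (b (a (b (l 3) (a (l 3) (b (l 3) (a (b (l 3) (l 304573106967)) (b (l 306720586423) (l 211157549447)))))) (b (a (b (l 3) (a (l 3) (b (l 3) (a (l 3) (l 287930114391))))) (b (a (l 3) (b (l 3) (c (l 272360884567) (a (l 274508346103) (l 278803301719))))) (a (c (b (l 278803342055) (l 241222362199)) (c (l 285782630519) (a (l 275045243591) (l 287930099095)))) (b (a (b (l 251422885239) (l 16543520)) (l 16518880)) (l 16513736))))) (a (b (c (a (l 298130686503) (l 229948060071)) (a (b (l 3) (l 304573103463)) (b (l 235853621943) (l 16552320)))) (a (b (l 219747479703) (l 16556512)) (l 16508280))) (b (a (b (a (l 16540528) (l 16535168)) (l 16530112)) (l 16501800)) (a (l 16539536) (l 16528008)))))) (a (b (a (b (a (l 3) (l 294372544807)) (a (l 276118925751) (l 16518208))) (b (a (b (l 204178231863)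 (l 16561080)) (l 16513368)) (a (l 16550936) (l 16541384)))) (a (b (a (l 16556592) (l 16547256)) (l 16518736)) (b (l 16522392) (l 16519736)))) (b (a (a (b (l 16524656) (l 16531360)) (l 16475600)) (b (l 16518616) (l 16503512))) (a (l 16463168) (l 16481328))))) (a (b (b (a (a (b (a (c (l 270213387975) (b (l 270213371991) (l 16533056))) (l 351146624903)) (b (l 16509920) (l 16543696))) (l 322155532487)) (l 1)) (a (b (a (l 16531544) (l 16515104)) (l 16506152)) (l 269541989207))) (a (b (l 16466816) (l 16412704)) (b (l 16398984) (l 16343512)))) (b (l 1) (b (l 1) (l 16115152))))), by decide +kernel⟩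

def k8_pm_011 : ∃ t, chk3 f_pm_011 t 3 15 1 = true :=
  ⟨(a (b (a (b (a (b (l 16506696) (l 16515968)) (l 16479608)) (a (l 16499096) (l 16475992))) (b (a (l 16477808) (l 16427848)) (a (l 16443000) (l 16372832)))) (a (b (a (l 16456736) (l 16431496)) (a (l 16455336) (l 16404760))) (b (a (l 16387736) (l 16317752)) (a (l 16336920) (l 16267400))))) (b (a (a (b (l 16357536) (l 16302000)) (b (l 16266344) (l 16210216))) (a (l 16084152) (l 16057448))) (a (b (a (l 16247008) (l 16155248)) (a (l 16155072) (l 16105552))) (b (l 15924408) (l 15875152))))), by decide +kernel⟩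

theorem s9_pm_011 : ∃ t, chk3 f_pm_011 t 3 7 1 = true := ex3_b k7_pm_011 k8_pm_011

theorem s10_pm_011 : ∃ t, chk3 f_pm_011 t 3 3 1 = true := ex3_b k6_pm_011 s9_pm_011

theorem s11_pm_011 : ∃ t, chk3 f_pm_011 t 4 15 1 = true := ex3_a k3_pm_011 k4_pm_011

theorem s12_pm_011 : ∃ t, chk3 f_pm_011 t 4 7 1 = true := ex3_b k2_pm_011 s11_pm_011

theorem s13_pm_011 : ∃ t, chk3 f_pm_011 t 2 7 1 = true := ex3_a s12_pm_011 k5_pm_011

theorem s14_pm_011 : ∃ t, chk3 f_pm_011 t 2 3 1 = true := ex3_b k1_pm_011 s13_pm_011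

theorem s15_pm_011 : ∃ t, chk3 f_pm_011 t 1 3 1 = true := ex3_a s14_pm_011 s10_pm_011

theorem s16_pm_011 : ∃ t, chk3 f_pm_011 t 1 1 1 = true := ex3_b k0_pm_011 s15_pm_011

theorem c_pm_011 : CertB 0 536870912 536870912 536870912 1020054732 13421774 3 eng mog cd0q0 cd4q1 pd1 true true false .pnn 0 1 1
    ndB0q0 ndB4q1 pcB1 cut_pm_011 xt_pm_011 :=
  certB1 (fam := true) (s1 := true) (s2 := false) (a := 0) (b := 1) (c := 1) (cn := .pnn) (n1 := ndB0q0) (n2 := ndB4q1) (pc := pcB1) (cut := cut_pm_011) (xt := xt_pm_011) (P1 := 0) (W1 := 536870912) (P2 := 536870912) (W2 := 536870912) (P3 := 1020054732) (W3 := 13421774) (N0 := 3) (En := eng) (mo := mog) (C1 := cd0q0) (C2 := cd4q1) (C3 := pd1)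
    rfl (fun _ => rfl) s16_pm_011

noncomputable def cut_pm_012 : Cut := Cut.of [[⟨0, 0, 0, 38347922⟩, ⟨1, 1, 0, 38347922⟩, ⟨2, 1, 0, 38347922⟩]]

noncomputable def xt_pm_012 : Ext := extD3 3 ⟨4, 1, 1, 5, 99, 20, 33, 40, 51, 125, 1, 32⟩ eng cd0q0 cd4q1 pd2 true true false .pnp 0 1 2 rfl ndB0q0 ndB4q1 pcB2

noncomputable def f_pm_012 : ℕ → ℕ → ℕ → ℕ → Bool := onCell 0 536870912 1073741824 536870912 1020054732 13421774
    (rowB 3 eng mog cd0q0 cd4q1 pd2 1 true true false .pnp 0 1 2 (qsf 0 536870912 536870912 536870912 2) ndB0q0 ndB4q1 pcB2 cut_pm_012 xt_pm_012)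

def k0_pm_012 : ∃ t, chk3 f_pm_012 t 2 8 1 = true :=
  ⟨(a (a (b (a (l 6) (a (a (a (l 6) (b (b (b (l 16668664) (l 16666984)) (l 142320887883251839)) (b (l 142170667014471807) (l 16500640)))) (b (b (b (l 142750247258112063) (l 16630968)) (l 141958392613929023)) (b (l 141817242717667455) (l 141513433819889791)))) (b (b (b (l 142213273208160319) (l 142159053497286719)) (a (l 141905890896003135) (l 16542064))) (b (l 140959898474577983) (l 140857368927060031))))) (a (b (b (b (l 6) (l 2)) (l 2)) (l 2)) (b (a (b (a (b (l 16491640) (l 16468928)) (b (l 16496264) (l 16473984))) (a (b (l 16467184) (l 2)) (b (l 16451688) (l 16429392)))) (b (l 140782464608927871) (a (l 16425832) (l 16413272)))) (a (a (l 2) (b (l 16395920) (l 2))) (b (a (l 16381992) (l 16370216)) (a (l 16338080) (l 16327040))))))) (b (a (b (b (a (c (l 16585248) (l 16599616)) (l 16552736)) (a (a (l 16569392) (l 16555232)) (l 16535096))) (a (b (l 16479376) (l 16480088)) (b (l 16496040) (l 16456584)))) (b (a (b (l 16547288)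 (l 16510632)) (l 16443200)) (a (b (l 16473408) (l 16435672)) (l 16435200)))) (a (b (a (l 139546613447098431) (l 139994801831313471)) (a (b (l 16354984) (l 16312888)) (l 139228167183319103))) (b (a (l 16378240) (l 16361976)) (a (l 16300328) (l 16286904)))))) (a (b (a (b (a (l 16484856) (l 16465504)) (a (l 16417320) (l 16400760))) (b (l 16442232) (l 16338488))) (a (b (a (l 16347128) (l 16333568)) (l 16185464)) (b (l 16274192) (l 16228936)))) (b (a (l 16302720) (l 16343664)) (a (l 16224560) (l 16252568))))), by decide +kernel⟩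

def k1_pm_012 : ∃ t, chk3 f_pm_012 t 2 9 1 = true :=
  ⟨(a (a (a (l 2) (b (b (a (l 2) (a (l 2) (l 16199176))) (l 2)) (l 2))) (b (a (b (a (b (l 16270632) (l 16228248)) (l 16234128)) (a (b (l 16185752) (l 2)) (b (l 16172256) (l 16130832)))) (b (l 137847592690122815) (a (l 16141008) (l 16132520)))) (a (a (l 2) (b (l 16068512) (l 2))) (b (a (l 16060104) (l 16053752)) (a (l 15978760) (l 15974312)))))) (a (b (a (b (l 16196536) (l 16122192)) (b (l 16181840) (l 16111896))) (a (b (l 16046592) (l 15970000)) (b (l 16040408) (l 15967592)))) (b (a (b (l 16171408) (l 16105552)) (l 16133576)) (a (b (l 16037984) (l 15968864)) (l 16007528))))), by decide +kernel⟩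

def k2_pm_012 : ∃ t, chk3 f_pm_012 t 3 4 1 = true :=
  ⟨(a (a (b (b (a (l 16344576) (l 16325472)) (a (l 16240120) (l 16228208))) (b (l 16023016) (l 15910224))) (b (b (l 16296944) (l 16209632)) (b (l 16117472) (l 16020448)))) (a (b (a (l 16225744) (l 16203528)) (l 16055992)) (b (l 16151920) (l 16023080)))), by decide +kernel⟩

def k3_pm_012 : ∃ t, chk3 f_pm_012 t 1 5 1 = true :=
  ⟨(a (a (a (l 2) (b (b (b (a (l 2) (a (l 2) (l 15894624))) (l 2)) (l 2)) (l 2))) (b (b (a (b (a (a (l 15893040) (l 15892552)) (l 15893720)) (b (a (l 15834784) (l 15837848)) (b (a (l 15806080) (l 15809952)) (a (b (l 15792128) (l 15782928)) (b (l 15796200) (l 15787088)))))) (b (a (l 15898304) (l 15908272)) (b (a (l 15844480) (l 15857120)) (b (a (l 15817344) (l 15831160)) (a (b (l 15803800) (l 15794744)) (b (l 15818080) (l 15808968))))))) (a (a (b (l 15737912) (l 2)) (b (l 15743952) (l 15665808))) (a (l 15716456) (l 15733928)))) (a (a (l 2) (b (l 15545944) (l 2))) (a (b (l 15543568) (l 15407224)) (b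 (l 15588168) (l 15227576)))))) (a (a (b (b (l 15791312) (l 15645256)) (a (a (l 15435992) (l 15519384)) (l 15443856))) (b (b (l 15918560) (l 15811816)) (a (l 15584288) (l 15656888)))) (a (b (l 15797288) (a (l 15681520) (l 15698984))) (b (l 15871696) (l 15709544))))), by decide +kernel⟩

def k4_pm_012 : ∃ t, chk3 f_pm_012 t 1 3 1 = true :=
  ⟨(a (a (l 2) (b (a (l 2) (b (a (l 2) (b (l 15113456) (l 2))) (l 2))) (l 2))) (a (b (a (b (a (b (l 15328608) (l 15047472)) (b (l 15386304) (l 15242984))) (a (l 2) (b (l 15094160) (l 2)))) (b (a (l 15205840) (l 15362376)) (a (b (l 15171472) (l 15031064)) (l 15030656)))) (a (l 2) (b (a (l 2) (l 14705560)) (l 2)))) (b (a (b (a (l 15469256) (l 15504344)) (a (l 15201552) (l 15298736))) (b (l 15475120) (a (l 15341952) (l 15371864)))) (a (b (a (l 14901384) (l 15063352)) (b (l 14726480) (l 2))) (b (a (l 15148256) (l 15196752)) (a (l 14951240) (l 15020752))))))), by decide +kernel⟩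

theorem s5_pm_012 : ∃ t, chk3 f_pm_012 t 2 4 1 = true := ex3_b k0_pm_012 k1_pm_012

theorem s6_pm_012 : ∃ t, chk3 f_pm_012 t 1 4 1 = true := ex3_a s5_pm_012 k2_pm_012

theorem s7_pm_012 : ∃ t, chk3 f_pm_012 t 1 2 1 = true := ex3_b s6_pm_012 k3_pm_012

theorem s8_pm_012 : ∃ t, chk3 f_pm_012 t 1 1 1 = true := ex3_b s7_pm_012 k4_pm_012

theorem c_pm_012 : CertB 0 536870912 536870912 536870912 1020054732 13421774 3 eng mog cd0q0 cd4q1 pd2 true true false .pnp 0 1 2
    ndB0q0 ndB4q1 pcB2 cut_pm_012 xt_pm_012 :=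
  certB1 (fam := true) (s1 := true) (s2 := false) (a := 0) (b := 1) (c := 2) (cn := .pnp) (n1 := ndB0q0) (n2 := ndB4q1) (pc := pcB2) (cut := cut_pm_012) (xt := xt_pm_012) (P1 := 0) (W1 := 536870912) (P2 := 536870912) (W2 := 536870912) (P3 := 1020054732) (W3 := 13421774) (N0 := 3) (En := eng) (mo := mog) (C1 := cd0q0) (C2 := cd4q1) (C3 := pd2)
    rfl (fun _ => rfl) s8_pm_012

noncomputable def f_pm_022 : ℕ → ℕ → ℕ → ℕ → Bool := onCell 0 536870912 1073741824 536870912 1020054732 13421774
    (rowB 3 eng mog cd0q0 cd4q2 pd2 1 true true false .pp 0 2 2 (qsf 0 536870912 1073741824 536870912 2) ndB0q0 ndB4q2 pcB2 Cut.none Ext.none)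

def k0_pm_022 : ∃ t, chk3 f_pm_022 t 1 2 1 = true :=
  ⟨(b (a (a (l 3) (a (a (l 3) (l 1)) (l 1))) (l 1)) (a (a (b (a (b (b (b (l 3) (a (l 15982720) (l 15978864))) (b (a (l 15918648) (a (l 15975656) (l 16013632))) (b (a (l 15872376) (a (l 15928888) (l 15967896))) (a (b (l 15858616) (l 15860952)) (b (l 15943296) (l 15881576)))))) (a (b (l 15798576) (l 15679816)) (a (l 15796024) (l 15834480)))) (b (b (a (b (l 3) (l 16153752)) (b (l 16299544) (l 16265536))) (b (a (l 16062904) (b (l 16209648) (l 16176944))) (b (a (l 16041600) (l 16158576)) (b (a (l 16039648) (l 16156224)) (a (l 16038824) (l 16153312)))))) (a (l 15799096) (l 15864784)))) (a (a (b (l 15511560) (l 15305592)) (b (a (l 15561144) (l 15594592)) (l 15362080))) (a (b (l 15655808) (l 15428960)) (b (l 15751728) (l 15513424))))) (a (b (b (b (a (b (l 16370472) (l 16311672)) (l 1)) (b (a (b (l 16275960) (l 16248224)) (l 1)) (b (a (l 16255288) (l 1)) (b (a (l 16269704) (l 1)) (a (l 16222720) (l 16350904)))))) (a (l 15926936)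 (b (l 16227216) (a (l 16168520) (l 16241864))))) (b (a (l 15843392) (l 15888040)) (a (l 15613896) (l 15729704)))) (b (b (l 1) (a (l 71973030807) (l 1))) (b (a (b (c (l 16167744) (l 16254088)) (l 16066736)) (l 77341497575)) (a (l 15840504) (l 15862864)))))) (a (b (l 1) (a (b (l 1) (a (c (l 16058576) (l 16165792)) (l 1))) (l 1))) (l 1)))), by decide +kernel⟩

def k1_pm_022 : ∃ t, chk3 f_pm_022 t 1 3 1 = true :=
  ⟨(a (a (b (a (b (a (b (l 15127792) (l 14979208)) (b (l 15166512) (l 14998656))) (a (l 14803048) (l 14802072))) (b (a (b (l 15223176) (l 15038096)) (b (l 15296440) (l 15100528))) (b (a (l 14879352) (l 14925440)) (l 14763336)))) (a (a (b (l 14642040) (l 14559080)) (b (l 14620456) (l 14519688))) (b (a (l 14606848) (l 14607024)) (l 14454424)))) (b (a (a (b (b (l 15384976) (l 15177384)) (l 14905752)) (b (b (l 15488304) (l 15268456)) (l 14978856))) (b (b (a (l 15607064) (l 15741704)) (a (l 15374416) (l 15495744))) (a (l 14919184) (b (l 15271528) (l 15068832))))) (a (b (a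 (l 14624016) (l 14663944)) (a (l 14449808) (l 14452096))) (b (b (l 14844952) (l 14690984)) (a (l 14475264) (l 14526152)))))) (a (b (b (a (b (a (l 15808704) (c (l 16003480) (l 16096600))) (a (l 15632840) (l 15765000))) (b (l 1) (a (c (l 15895288) (l 15974528)) (l 1)))) (a (b (a (l 15395040) (l 15534144)) (l 14988552)) (b (a (l 15689008) (l 15733840)) (a (l 15444848) (l 15600896))))) (b (a (b (l 15038864) (l 14858912)) (b (a (l 15222536) (l 15364168)) (a (l 15021864) (l 15149240)))) (a (a (l 14591000) (l 14669248)) (a (l 14761336) (l 14720776))))) (b (b (l 1) (a (a (b (l 1) (l 15543088)) (l 1)) (l 1))) (a (b (a (b (l 15375136) (l 15291920)) (b (l 15532528) (l 113847036951))) (a (b (l 15083592) (l 14897424)) (b (l 15040304) (l 15027200)))) (b (b (l 1) (a (l 15489824) (l 1))) (a (b (l 15292968) (l 15180480)) (b (l 15453792) (l 15264440)))))))), by decide +kernel⟩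

theorem s2_pm_022 : ∃ t, chk3 f_pm_022 t 1 1 1 = true := ex3_b k0_pm_022 k1_pm_022

theorem c_pm_022 : CertB 0 536870912 1073741824 536870912 1020054732 13421774 3 eng mog cd0q0 cd4q2 pd2 true true false .pp 0 2 2
    ndB0q0 ndB4q2 pcB2 Cut.none Ext.none :=
  certB1 (fam := true) (s1 := true) (s2 := false) (a := 0) (b := 2) (c := 2) (cn := .pp) (n1 := ndB0q0) (n2 := ndB4q2) (pc := pcB2) (cut := Cut.none) (xt := Ext.none) (P1 := 0) (W1 := 536870912) (P2 := 1073741824) (W2 := 536870912) (P3 := 1020054732) (W3 := 13421774) (N0 := 3) (En := eng) (mo := mog) (C1 := cd0q0) (C2 := cd4q2) (C3 := pd2)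
    rfl (fun _ => rfl) s2_pm_022

noncomputable def f_pm_023 : ℕ → ℕ → ℕ → ℕ → Bool := onCell 0 536870912 1610612736 536870912 1020054732 13421774
    (rowB 3 eng mog cd0q0 cd4q2 pd3 1 true true false .up 0 2 3 (qsf 0 536870912 1073741824 536870912 3) ndB0q0 ndB4q2 pcB3 Cut.none Ext.none)

def k0_pm_023 : ∃ t, chk3 f_pm_023 t 2 1 1 = true :=
  ⟨(b (a (b (a (b (a (b (b (l 14735960) (l 14718312)) (b (l 14657800) (l 2))) (b (l 14644008) (b (l 14668432) (l 14647864)))) (a (l 2) (b (l 14547368) (l 2)))) (b (b (l 14471640) (a (l 14575936) (l 14464456))) (b (a (b (l 14606112) (l 14584520)) (l 14517592)) (a (l 14488304) (l 14530056))))) (a (l 2) (b (b (l 339397797719) (l 2)) (l 2)))) (b (b (a (b (l 14271432) (l 14305104)) (b (a (l 14162104) (l 14194928)) (a (l 14165880) (l 14122736)))) (a (b (l 14353824) (a (l 14463360) (l 14356000))) (b (l 14076160) (l 14200984)))) (b (a (b (a (l 14478928) (l 14418904)) (a (l 14395800) (l 14432544))) (b (l 14257904) (l 14318992))) (a (b (l 14309048)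 (l 2)) (b (l 14101376) (l 325975942631)))))) (a (l 2) (b (b (a (l 2) (b (a (l 2) (l 14323552)) (l 2))) (l 2)) (l 2)))), by decide +kernel⟩

def k1_pm_023 : ∃ t, chk3 f_pm_023 t 3 2 1 = true :=
  ⟨(b (a (b (a (b (a (l 14329408) (l 14476272)) (a (l 14201112) (l 14338808))) (b (a (l 14634808) (l 14805440)) (a (l 14487416) (l 14647408)))) (a (b (a (l 14106472) (l 14219488)) (a (l 14083224) (l 14118856))) (b (a (l 14357624) (l 14506416)) (a (l 14246448) (l 14383400))))) (a (b (a (b (l 14757800) (l 14777192)) (b (c (l 15134024) (l 15051808)) (a (l 14955768) (l 14937368)))) (b (a (l 14666248) (c (l 14939096) (l 14731144))) (a (l 14530696) (l 14688640)))) (b (a (b (c (l 15343888) (l 15128696)) (l 14869680)) (b (c (l 15371616) (l 15177368)) (c (l 15196464) (l 15005648)))) (a (b (c (l 15034296) (l 14831224)) (a (l 14796184) (l 14805560))) (b (c (l 15036248) (l 14851720)) (l 14804728)))))) (a (b (a (a (l 14141064) (b (l 14072488) (l 14086592))) (b (a (l 14154944) (l 14279368)) (a (l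 14088304) (l 14195384)))) (a (b (l 14187496) (l 14254360)) (b (l 14109216) (l 14120560)))) (a (b (b (a (l 14413400) (l 14557416)) (a (l 14315368) (l 14444640))) (b (a (l 14237632) (l 14351272)) (l 14229064))) (b (a (b (a (l 14667024) (l 14689352)) (l 14562960)) (b (l 14679880) (l 14570976))) (a (b (l 14463912) (l 14380024)) (b (l 14477968) (l 14400856))))))), by decide +kernel⟩

def k2_pm_023 : ∃ t, chk3 f_pm_023 t 3 3 1 = true :=
  ⟨(a (b (b (a (b (a (l 14336648) (l 14278144)) (l 302890422215)) (a (l 14226792) (l 14159944))) (a (b (l 537503102583) (l 2)) (b (l 14268080) (l 14319720)))) (b (a (l 2) (b (l 14385736) (l 2))) (l 2))) (a (b (b (b (l 14186304) (l 14172280)) (b (l 14201632) (l 14245752))) (b (l 14330848) (b (b (l 14421872) (l 2)) (l 2)))) (b (b (a (b (l 14313248) (l 14265696)) (b (l 14339488) (l 14292840))) (a (l 14235880) (l 14252352))) (b (b (l 14242192) (l 14291200)) (b (b (l 14334952) (l 14369320)) (b (b (l 14397528) (l 14421416)) (b (l 14449248) (b (l 14470568)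 (b (l 14481584) (l 14488944)))))))))), by decide +kernel⟩

theorem s3_pm_023 : ∃ t, chk3 f_pm_023 t 3 1 1 = true := ex3_b k1_pm_023 k2_pm_023

theorem s4_pm_023 : ∃ t, chk3 f_pm_023 t 1 1 1 = true := ex3_a k0_pm_023 s3_pm_023

theorem c_pm_023 : CertB 0 536870912 1073741824 536870912 1020054732 13421774 3 eng mog cd0q0 cd4q2 pd3 true true false .up 0 2 3
    ndB0q0 ndB4q2 pcB3 Cut.none Ext.none :=
  certB1 (fam := true) (s1 := true) (s2 := false) (a := 0) (b := 2) (c := 3) (cn := .up) (n1 := ndB0q0) (n2 := ndB4q2) (pc := pcB3) (cut := Cut.none) (xt := Ext.none) (P1 := 0) (W1 := 536870912) (P2 := 1073741824) (W2 := 536870912) (P3 := 1020054732) (W3 := 13421774) (N0 := 3) (En := eng) (mo := mog) (C1 := cd0q0) (C2 := cd4q2) (C3 := pd3)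
    rfl (fun _ => rfl) s4_pm_023

noncomputable def f_pm_033 : ℕ → ℕ → ℕ → ℕ → Bool := onCell 1610612736 536870912 0 1230186008 1020054732 13421774
    (rowB 3 eng mog cd0q0 cd4q3 pd3 2 true true false .pnn 0 3 3 (qsf 0 536870912 0 1230186008 3) ndB0q0 ndB4q3 pcB3 Cut.none Ext.none)

def k0_pm_033 : ∃ t, chk3 f_pm_033 t 2 1 1 = true :=
  ⟨(b (l 1) (b (a (l 1) (b (l 1) (a (l 1) (b (l 1) (a (l 1) (b (l 1) (l 257190443335))))))) (b (a (l 1) (a (b (a (l 1) (b (l 1) (a (l 1) (l 14757296)))) (a (b (l 1) (c (l 495562087751) (l 14786992))) (b (a (l 14906880) (l 15000400)) (b (l 14992232) (l 15292352))))) (b (a (b (a (l 1) (l 277054243751)) (a (l 14828016) (l 14889400))) (b (a (b (l 14697720) (l 14791408)) (l 14832352)) (a (l 14963432) (l 15041984)))) (a (b (a (l 14979632) (l 15089208)) (a (l 15319312) (l 15384928))) (b (a (l 15202416) (l 15276592)) (l 15467312)))))) (a (b (a (l 1) (b (a (l 1) (c (l 15197392) (l 14993008))) (a (l 14757272) (b (l 15148256) (l 15187608))))) (a (b (a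 (l 1) (l 14770280)) (a (b (l 14749744) (l 14780776)) (b (l 14927496) (l 14964512)))) (b (a (b (l 15039000) (l 15075816)) (b (l 15227712) (l 15269896))) (a (b (l 15116472) (l 15157336)) (b (l 15297440) (l 15322256)))))) (b (a (b (a (b (l 15123728) (l 15291920)) (b (l 15345720) (l 15475752))) (a (b (l 15333560) (l 15377432)) (b (l 15516872) (l 15540576)))) (b (a (b (l 15544216) (l 15622984)) (l 15683352)) (a (l 15674512) (l 15803032)))) (a (b (a (b (l 15416656) (l 15436360)) (l 15578624)) (a (l 15468440) (l 15611576))) (b (l 15780720) (l 15803792)))))))), by decide +kernel⟩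

def k1_pm_033 : ∃ t, chk3 f_pm_033 t 6 1 1 = true :=
  ⟨(b (l 1) (b (b (a (l 1) (a (b (l 1) (l 179881401847)) (b (a (l 14612800) (l 14710048)) (b (l 14780952) (l 14900440))))) (a (b (a (b (l 1) (l 14576864)) (b (l 14624416) (l 14738016))) (a (b (l 14685520) (a (l 14772816) (l 14876728))) (b (a (l 14825976) (l 14934856)) (l 14846896)))) (b (a (b (l 14807720) (l 14820880)) (b (l 15031040) (l 15168776))) (a (b (l 15092760) (l 15099992)) (l 15356520))))) (b (a (b (a (b (a (l 14934584) (l 15039088)) (a (l 15120200) (l 15213728))) (b (l 15050192) (l 15341440))) (a (b (l 15371264) (l 15573984)) (b (l 15497488) (l 15674920)))) (b (a (l 15441528) (l 15597192)) (a (b (l 15635192) (l 15773920)) (b (l 15768024) (l 15882392))))) (b (a (b (l 15556016) (l 15779168)) (b (l 15963000) (l 16038296))) (a (b (l 16002704) (l 16020784)) (b (l 16166536) (l 16197456))))))), by decide +kernel⟩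

def k2_pm_033 : ∃ t, chk3 f_pm_033 t 7 1 1 = true :=
  ⟨(b (a (b (l 1) (b (l 4) (a (b (l 1) (l 14753160)) (l 4)))) (l 4)) (a (b (b (a (b (a (l 14828624) (l 14969528)) (a (b (l 14974552) (l 15083208)) (l 15162200))) (b (a (l 15118136) (l 4)) (a (l 15305144) (l 15426864)))) (b (a (b (a (l 15202320) (l 15308144)) (l 15361736)) (a (l 15467096) (l 15577344))) (a (l 15527504) (a (l 15645544) (l 15727888))))) (b (b (a (l 15738408) (l 15866096)) (a (l 15953248) (l 16043544))) (b (a (l 16129672) (l 16209800)) (l 16158208)))) (a (b (b (b (l 4) (l 4)) (a (b (l 15686992) (l 15814096)) (l 15857488))) (b (a (b (l 15954944) (l 16113208)) (b (l 16020296) (l 16152208))) (b (a (l 16264424) (l 16296120)) (l 16387064)))) (a (b (b (l 4) (l 15974064)) (b (a (l 15991256) (l 16177344)) (b (l 16328040) (a (l 16423992) (l 16440616))))) (b (l 4) (b (a (l 16225808) (a (l 16263960) (l 4))) (a (b (l 16346896) (l 16457200)) (b (a (l 16370312) (a (l 16390240) (l 16409200))) (a (l 16469480) (a (l 16475760)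 (a (l 16478712) (l 16417648)))))))))))), by decide +kernel⟩

theorem s3_pm_033 : ∃ t, chk3 f_pm_033 t 3 1 1 = true := ex3_a k1_pm_033 k2_pm_033

theorem s4_pm_033 : ∃ t, chk3 f_pm_033 t 1 1 1 = true := ex3_a k0_pm_033 s3_pm_033

theorem c_pm_033 : CertB 0 536870912 0 1230186008 1020054732 13421774 3 eng mog cd0q0 cd4q3 pd3 true true false .pnn 0 3 3
    ndB0q0 ndB4q3 pcB3 Cut.none Ext.none :=
  certB2 (fam := true) (s1 := true) (s2 := false) (a := 0) (b := 3) (c := 3) (cn := .pnn) (n1 := ndB0q0) (n2 := ndB4q3) (pc := pcB3) (cut := Cut.none) (xt := Ext.none) (P1 := 0) (W1 := 536870912) (P2 := 0) (W2 := 1230186008) (P3 := 1020054732) (W3 := 13421774) (N0 := 3) (En := eng) (mo := mog) (C1 := cd0q0) (C2 := cd4q3) (C3 := pd3)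
    rfl (fun _ => rfl) s4_pm_033

noncomputable def f_pm_101 : ℕ → ℕ → ℕ → ℕ → Bool := onCell 536870912 536870912 536870912 536870912 1020054732 13421774
    (rowB 3 eng mog cd0q1 cd4q0 pd1 1 true true false .npn 1 0 1 (qsf 536870912 536870912 0 536870912 1) ndB0q1 ndB4q0 pcB1 Cut.none Ext.none)

def k0_pm_101 : ∃ t, chk3 f_pm_101 t 2 1 1 = true :=
  ⟨(b (a (l 3) (b (a (b (l 1) (l 3)) (l 1)) (l 3))) (b (a (b (a (l 3) (b (l 3) (a (b (l 3) (b (l 3) (l 425905620263))) (b (l 264307646279) (b (l 16386840) (l 16376688)))))) (a (b (a (b (a (l 3) (b (l 3) (l 379197883575))) (b (a (b (l 360944295095) (l 381882240391)) (l 240148273879)) (a (b (l 16422496) (l 16434864)) (l 16417144)))) (b (b (l 404967652663) (a (l 226189635479) (l 16422136))) (b (a (l 16417288) (l 16399104)) (l 16386232)))) (a (b (b (a (l 16422184) (l 16398368)) (l 16350840)) (l 16346816)) (b (l 16354200) (l 16313232)))) (b (a (b (b (l 16360272) (l 16397992)) (l 16360088)) (b (l 16356392) (l 16322352))) (a (b (l 16310328)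 (l 16262160)) (l 16239680))))) (b (a (b (a (l 3) (b (l 3) (l 401209237255))) (a (b (l 198271903495) (l 16287848)) (b (l 16193992) (l 16183072)))) (b (b (a (l 16037600) (l 15884424)) (a (l 16063456) (l 15919776))) (a (b (l 16072976) (l 16068000)) (b (l 15938952) (l 15942664))))) (a (b (a (b (l 16263792) (l 16233016)) (l 16148224)) (a (l 16176936) (l 16079344))) (b (a (l 16038576) (l 15921240)) (l 15916160))))) (b (a (a (b (a (b (l 16336624) (l 16308248)) (l 16256368)) (a (l 16210512) (l 16170688))) (b (a (l 16194248) (l 16134176)) (l 16077056))) (a (b (l 16042768) (a (l 15967048) (l 15896144))) (b (a (l 15892936) (l 15782464)) (a (l 15831128) (l 15760592))))) (a (b (a (a (l 16055560) (l 16027400)) (a (l 15989792) (l 15948736))) (a (a (b (l 15936168) (l 15864104)) (b (l 15920680) (l 15872360))) (a (l 15765568) (l 15914400)))) (a (b (a (l 15891592) (l 15829600)) (l 15837992)) (b (l 15755928) (l 15732840))))))), by decide +kernel⟩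

def k1_pm_101 : ∃ t, chk3 f_pm_101 t 3 1 1 = true :=
  ⟨(b (a (b (l 1) (a (a (a (b (l 1) (l 3)) (l 1)) (l 1)) (l 1))) (l 1)) (a (b (b (a (b (a (b (b (l 349534739767) (l 15740312)) (l 215317268263)) (b (l 1) (l 363493419207))) (a (b (l 15791648) (l 15808312)) (b (l 287257779447) (l 15679432)))) (a (b (l 1) (b (l 1) (l 477846913783))) (l 1))) (a (b (a (b (l 15806648) (l 15788288)) (b (l 15684272) (l 15675000))) (b (l 15447608) (l 15681608))) (b (a (b (l 332891743015) (l 15610480)) (b (l 1) (l 427917907831))) (a (b (l 15573176) (l 15536672)) (b (b (l 15774488) (l 15682360)) (l 15619168)))))) (b (a (b (b (l 15631256) (l 15622016)) (l 15653992)) (b (a (l 15509608) (b (l 15547760) (l 15501024))) (a (l 15536632) (l 15478504)))) (a (b (l 15678000) (l 15656848)) (b (a (l 15623112) (l 15563576)) (l 15604512))))) (b (a (b (l 1) (b (l 1) (a (b (l 1) (l 398926677527)) (l 1)))) (l 1)) (a (b (b (a (b (l 342555144071) (l 15721656)) (a (l 398389583639) (l 1))) (a (b (l 15609776) (l 15510808))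 (b (l 281351886231) (l 15626416)))) (b (a (l 15492320) (b (l 15571440) (l 15519152))) (a (l 15577656) (l 15560664)))) (b (a (b (l 1) (b (l 1) (a (l 15655152) (l 1)))) (l 1)) (a (b (a (l 286183540823) (b (a (l 15617736) (l 1)) (l 457982084455))) (b (a (l 15511544) (l 15538144)) (l 15554440))) (b (a (b (l 1) (b (l 1) (a (l 15583360) (l 1)))) (l 1)) (a (b (l 482141212327) (l 15521064)) (b (b (l 1) (l 501468731399)) (l 483215162215)))))))))), by decide +kernel⟩

theorem s2_pm_101 : ∃ t, chk3 f_pm_101 t 1 1 1 = true := ex3_a k0_pm_101 k1_pm_101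

theorem c_pm_101 : CertB 536870912 536870912 0 536870912 1020054732 13421774 3 eng mog cd0q1 cd4q0 pd1 true true false .npn 1 0 1
    ndB0q1 ndB4q0 pcB1 Cut.none Ext.none :=
  certB1 (fam := true) (s1 := true) (s2 := false) (a := 1) (b := 0) (c := 1) (cn := .npn) (n1 := ndB0q1) (n2 := ndB4q0) (pc := pcB1) (cut := Cut.none) (xt := Ext.none) (P1 := 536870912) (W1 := 536870912) (P2 := 0) (W2 := 536870912) (P3 := 1020054732) (W3 := 13421774) (N0 := 3) (En := eng) (mo := mog) (C1 := cd0q1) (C2 := cd4q0) (C3 := pd1)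
    rfl (fun _ => rfl) s2_pm_101

noncomputable def xt_pm_102 : Ext := extD3 3 ⟨4, 1, 1, 5, 99, 20, 33, 40, 51, 125, 1, 32⟩ eng cd0q1 cd4q0 pd2 true true false .npp 1 0 2 rfl ndB0q1 ndB4q0 pcB2

noncomputable def f_pm_102 : ℕ → ℕ → ℕ → ℕ → Bool := onCell 536870912 536870912 1073741824 536870912 1020054732 13421774
    (rowB 3 eng mog cd0q1 cd4q0 pd2 1 true true false .npp 1 0 2 (qsf 536870912 536870912 0 536870912 2) ndB0q1 ndB4q0 pcB2 Cut.none xt_pm_102)

def k0_pm_102 : ∃ t, chk3 f_pm_102 t 2 1 1 = true :=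
  ⟨(b (a (b (a (b (l 15932480) (l 15797184)) (b (l 15915992) (l 15772472))) (a (l 2) (b (l 15643880) (l 2)))) (b (a (b (l 15786304) (l 15714064)) (b (l 15598160) (l 15486072))) (a (b (l 15571544) (l 15451680)) (b (l 15419920) (l 15330072))))) (a (l 2) (b (a (l 2) (l 337251912903)) (l 2)))), by decide +kernel⟩

def k1_pm_102 : ∃ t, chk3 f_pm_102 t 3 1 1 = true :=
  ⟨(b (a (b (a (b (l 15411176) (l 15237048)) (b (a (l 15267448) (l 15167200)) (l 14742856))) (a (b (l 15108656) (l 15031104)) (b (l 14711944) (l 14628952)))) (a (b (b (a (b (l 15141608) (l 14982496)) (b (l 15039800) (l 14859088))) (a (l 14759352) (l 14603224))) (b (a (l 14501952) (l 14303144)) (a (l 14299448) (l 14060040)))) (b (a (b (b (b (a (l 15007064) (l 14972368)) (l 14876760)) (l 14723264)) (b (l 14525624) (l 14339368))) (b (b (a (a (b (l 14906520) (l 14794760)) (c (l 510857047664560015926895) (l 547480052672527712769583))) (a (b (c (l 506835657415328417015407) (l 546506986922639544342063)) (l 14720352)) (a (c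 (l 503322993582229840733807) (b (l 543652929737985248024111) (l 14693968))) (b (b (c (l 14834392) (b (l 14853288) (l 14821112))) (l 14772568)) (l 14678584))))) (a (a (l 14628344) (l 14585504)) (c (b (l 14585120) (l 14468904)) (l 14519480)))) (a (b (l 14368312) (l 14184200)) (b (c (l 14300384) (l 14284496)) (l 14074144))))) (a (b (l 13875912) (l 13799352)) (a (b (l 13903136) (l 13582704)) (b (b (l 13869920) (l 13681072)) (l 13429768))))))) (a (b (a (b (l 15007864) (l 14962120)) (b (l 14540800) (l 14514432))) (a (l 2) (b (l 14553296) (l 2)))) (b (a (b (l 13999776) (l 13928584)) (b (a (l 13580576) (b (a (l 13387832) (l 13237952)) (a (l 13303872) (l 13222696)))) (a (b (l 13486160) (l 13503688)) (b (a (l 13324928) (l 13324296)) (l 13464544))))) (a (b (a (l 14078632) (b (l 13769032) (l 13854432))) (a (l 2) (l 14164056))) (b (a (l 13741344) (l 13750032)) (a (l 14169976) (l 14225712))))))), by decide +kernel⟩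

theorem s2_pm_102 : ∃ t, chk3 f_pm_102 t 1 1 1 = true := ex3_a k0_pm_102 k1_pm_102

theorem c_pm_102 : CertB 536870912 536870912 0 536870912 1020054732 13421774 3 eng mog cd0q1 cd4q0 pd2 true true false .npp 1 0 2
    ndB0q1 ndB4q0 pcB2 Cut.none xt_pm_102 :=
  certB1 (fam := true) (s1 := true) (s2 := false) (a := 1) (b := 0) (c := 2) (cn := .npp) (n1 := ndB0q1) (n2 := ndB4q0) (pc := pcB2) (cut := Cut.none) (xt := xt_pm_102) (P1 := 536870912) (W1 := 536870912) (P2 := 0) (W2 := 536870912) (P3 := 1020054732) (W3 := 13421774) (N0 := 3) (En := eng) (mo := mog) (C1 := cd0q1) (C2 := cd4q0) (C3 := pd2)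
    rfl (fun _ => rfl) s2_pm_102

noncomputable def f_pm_112 : ℕ → ℕ → ℕ → ℕ → Bool := onCell 536870912 536870912 1073741824 536870912 1020054732 13421774
    (rowB 3 eng mog cd0q1 cd4q1 pd2 1 true true false .dn 1 1 2 (qsf 536870912 536870912 536870912 536870912 2) ndB0q1 ndB4q1 pcB2 Cut.none Ext.none)

def k0_pm_112 : ∃ t, chk3 f_pm_112 t 1 1 1 = true :=
  ⟨(a (b (a (b (a (b (l 16027216) (l 15962752)) (b (l 15914616) (l 15833560))) (a (b (l 15828592) (l 15687000)) (b (l 15741872) (l 15614760)))) (b (a (l 285109486743) (l 1)) (a (b (l 15599096) (l 15477168)) (l 127268619335)))) (a (b (a (b (l 15539800) (l 15389200)) (b (l 15483720) (l 15352896))) (a (b (l 15237880) (l 14879336)) (b (l 15225280) (l 15104312)))) (b (a (b (l 15349248) (l 15217568)) (b (l 15165736) (l 15029120))) (a (b (l 15084672) (l 14953488)) (b (l 14884672) (l 14746648)))))) (b (a (b (l 1) (a (l 274907615703) (l 1))) (l 1)) (a (b (a (b (l 14894456) (l 14763800)) (b (l 14543176) (l 14396304))) (a (b (l 14645640)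 (l 14538872)) (b (l 14264144) (l 14164848)))) (b (a (b (l 1) (l 13931048)) (l 1)) (a (b (a (l 13917696) (l 376373487495)) (a (l 13908384) (l 13912960))) (b (a (l 13717792) (l 1)) (a (l 14011640) (l 14144800)))))))), by decide +kernel⟩

theorem c_pm_112 : CertB 536870912 536870912 536870912 536870912 1020054732 13421774 3 eng mog cd0q1 cd4q1 pd2 true true false .dn 1 1 2
    ndB0q1 ndB4q1 pcB2 Cut.none Ext.none :=
  certB1 (fam := true) (s1 := true) (s2 := false) (a := 1) (b := 1) (c := 2) (cn := .dn) (n1 := ndB0q1) (n2 := ndB4q1) (pc := pcB2) (cut := Cut.none) (xt := Ext.none) (P1 := 536870912) (W1 := 536870912) (P2 := 536870912) (W2 := 536870912) (P3 := 1020054732) (W3 := 13421774) (N0 := 3) (En := eng) (mo := mog) (C1 := cd0q1) (C2 := cd4q1) (C3 := pd2)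
    rfl (fun _ => rfl) k0_pm_112

noncomputable def f_pm_113 : ℕ → ℕ → ℕ → ℕ → Bool := onCell 536870912 536870912 1610612736 536870912 1020054732 13421774
    (rowB 3 eng mog cd0q1 cd4q1 pd3 1 true true false .nn 1 1 3 (qsf 536870912 536870912 536870912 536870912 3) ndB0q1 ndB4q1 pcB3 Cut.none Ext.none)

def k0_pm_113 : ∃ t, chk3 f_pm_113 t 1 1 1 = true :=
  ⟨(a (b (b (a (a (b (a (l 130017051575) (l 13981792)) (a (l 2) (l 13422008))) (b (a (l 14120832) (l 14255824)) (a (l 13770928) (l 13910728)))) (a (b (l 14445160) (l 13864304)) (b (l 14667016) (l 14365216)))) (a (b (a (l 2) (a (l 2) (l 13552600))) (l 2)) (b (a (a (l 13691688) (l 13830848)) (a (l 13968296) (l 14101368))) (a (a (l 2) (l 182092760295)) (b (l 13765952) (l 13372224)))))) (a (l 2) (b (b (a (l 2) (b (l 13405096) (l 2))) (l 2)) (l 2)))) (b (a (b (b (a (l 14845728) (l 14967544)) (a (l 14577128) (l 14737968))) (b (a (l 14056096) (l 14492200)) (a (l 13971080) (l 14230168)))) (a (b (b (l 15003128) (l 14820160)) (b (l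 14636648) (l 14262000))) (b (b (a (l 14956784) (l 14878720)) (a (l 14821944) (l 14793208))) (b (a (l 14703752) (l 4)) (l 4))))) (b (a (b (a (b (l 13716672) (l 13543216)) (b (l 14017672) (l 4))) (a (b (l 13369864) (l 2)) (l 4))) (l 4)) (l 4)))), by decide +kernel⟩

theorem c_pm_113 : CertB 536870912 536870912 536870912 536870912 1020054732 13421774 3 eng mog cd0q1 cd4q1 pd3 true true false .nn 1 1 3
    ndB0q1 ndB4q1 pcB3 Cut.none Ext.none :=
  certB1 (fam := true) (s1 := true) (s2 := false) (a := 1) (b := 1) (c := 3) (cn := .nn) (n1 := ndB0q1) (n2 := ndB4q1) (pc := pcB3) (cut := Cut.none) (xt := Ext.none) (P1 := 536870912) (W1 := 536870912) (P2 := 536870912) (W2 := 536870912) (P3 := 1020054732) (W3 := 13421774) (N0 := 3) (En := eng) (mo := mog) (C1 := cd0q1) (C2 := cd4q1) (C3 := pd3)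
    rfl (fun _ => rfl) k0_pm_113

noncomputable def f_pm_123 : ℕ → ℕ → ℕ → ℕ → Bool := onCell 536870912 536870912 1610612736 536870912 1020054732 13421774
    (rowB 3 eng mog cd0q1 cd4q2 pd3 1 true true false .npn 1 2 3 (qsf 536870912 536870912 1073741824 536870912 3) ndB0q1 ndB4q2 pcB3 Cut.none Ext.none)

def k0_pm_123 : ∃ t, chk3 f_pm_123 t 2 2 1 = true :=
  ⟨(b (a (a (b (a (b (c (l 15407576) (l 15235000)) (c (l 15222184) (l 15051728))) (b (c (l 15432712) (l 15072944)) (c (l 15256800) (l 15107440)))) (a (b (c (l 15049240) (l 14883472)) (c (l 14892320) (l 14733632))) (b (c (l 15073440) (l 14927120)) (c (l 14905344) (l 14764224))))) (b (a (b (l 1) (c (l 15199320) (l 168607316695))) (l 1)) (a (b (c (l 15107368) (l 14813416)) (c (l 14928712) (l 14805744))) (b (a (l 169680881367) (l 1)) (a (l 87002382391) (b (l 14971720) (l 14877744))))))) (a (b (l 1) (a (b (l 1) (a (c (l 15000008) (l 14910368)) (l 1))) (l 1))) (l 1))) (a (a (b (a (b (l 14678176) (l 14559080)) (b (c (l 14754536)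 (l 14620536)) (l 14601752))) (b (a (l 14457200) (l 14449296)) (a (l 14372632) (l 14357480)))) (b (a (b (c (l 14768496) (l 14650488)) (a (l 14567904) (l 14576880))) (b (c (l 14770848) (l 14669256)) (a (l 14588344) (l 14706912)))) (a (b (c (l 14504816) (l 14400512)) (a (l 14354200) (l 14356008))) (b (a (l 14464024) (b (l 14504544) (l 14450688))) (a (l 14360320) (l 14385528)))))) (a (b (a (b (a (b (l 14855528) (a (l 14725464) (l 14739832))) (b (l 14866480) (l 14785216))) (a (b (l 14662000) (l 14599136)) (l 14683416))) (b (c (l 14976400) (l 14907272)) (b (l 14814304) (l 14740144)))) (b (a (b (l 14568792) (l 14516704)) (c (l 14679840) (l 14611320))) (a (l 14447928) (l 14540568)))) (b (b (l 1) (a (c (l 14953024) (l 14898160)) (l 1))) (b (a (c (l 14788880) (l 14733112)) (c (l 14926848) (l 14884752))) (a (l 14635616) (l 14742168))))))), by decide +kernel⟩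

def k1_pm_123 : ∃ t, chk3 f_pm_123 t 2 3 1 = true :=
  ⟨(a (b (b (a (b (a (l 14305584) (l 14284648)) (a (l 14256336) (l 14231184))) (b (a (l 14276752) (a (l 14286872) (l 14315448))) (a (l 14261696) (l 14252544)))) (a (b (l 14210616) (l 14175944)) (a (b (l 14190512) (l 14182112)) (l 14356088)))) (b (a (b (l 14097704) (l 14235208)) (b (l 14192432) (l 14210232))) (b (a (b (l 14269136) (l 14297400)) (b (l 14236928) (l 14266088))) (b (b (a (l 14327104) (l 14301008)) (a (l 14350744) (l 14335016))) (b (a (l 14371384) (l 14356248)) (b (l 14369960) (b (l 14374664) (a (l 14399568) (l 4))))))))) (b (b (a (b (a (l 14371232) (l 14452384)) (a (l 14311112) (l 14381048))) (b (a (l 14538264) (l 14623576)) (a (l 14458096) (l 14537904)))) (a (b (a (l 14266800) (l 14326008)) (a (l 14237864) (l 14287192))) (b (a (l 14394760) (l 14469696)) (a (l 14348496) (l 14419488))))) (b (a (b (l 14244192) (l 14246688)) (b (a (l 14320896) (l 14389392)) (a (l 14316872) (b (l 14383240) (l 14394200))))) (b (b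 (a (l 14267784) (a (l 14340864) (l 14423128))) (a (a (l 14280096) (l 14319168)) (l 14426488))) (b (a (b (l 14343480) (l 14388848)) (l 14500912)) (b (a (l 14400488) (l 4)) (l 4))))))), by decide +kernel⟩

def k2_pm_123 : ∃ t, chk3 f_pm_123 t 3 1 1 = true :=
  ⟨(b (a (b (l 1) (a (b (l 1) (b (l 1) (a (l 14883944) (l 1)))) (l 1))) (l 1)) (a (b (b (a (b (a (l 14721176) (l 14862216)) (a (l 14613808) (l 14703856))) (a (b (l 1) (l 14849960)) (l 1))) (a (b (a (l 14545512) (l 14614144)) (a (l 14496320) (l 14572912))) (b (a (l 14701448) (b (l 1) (l 14821848))) (a (b (l 14645048) (l 14644024)) (b (l 14757864) (l 14730064)))))) (a (b (b (a (l 14468848) (b (l 14559584) (l 14565536))) (b (a (l 14472752) (l 14584584)) (a (l 14494160) (l 14612736)))) (b (b (l 14587776) (l 14642216)) (l 4))) (b (b (a (b (l 14654944) (l 14676152)) (l 14758776)) (b (a (l 14705056) (l 14822416)) (l 14806584))) (l 4)))) (b (a (b (l 1) (b (l 1) (a (l 14970712) (l 1)))) (l 1)) (b (a (b (a (l 14893768) (b (l 1) (l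 4))) (l 4)) (l 4)) (l 4))))), by decide +kernel⟩

theorem s3_pm_123 : ∃ t, chk3 f_pm_123 t 2 1 1 = true := ex3_b k0_pm_123 k1_pm_123

theorem s4_pm_123 : ∃ t, chk3 f_pm_123 t 1 1 1 = true := ex3_a s3_pm_123 k2_pm_123

theorem c_pm_123 : CertB 536870912 536870912 1073741824 536870912 1020054732 13421774 3 eng mog cd0q1 cd4q2 pd3 true true false .npn 1 2 3
    ndB0q1 ndB4q2 pcB3 Cut.none Ext.none :=
  certB1 (fam := true) (s1 := true) (s2 := false) (a := 1) (b := 2) (c := 3) (cn := .npn) (n1 := ndB0q1) (n2 := ndB4q2) (pc := pcB3) (cut := Cut.none) (xt := Ext.none) (P1 := 536870912) (W1 := 536870912) (P2 := 1073741824) (W2 := 536870912) (P3 := 1020054732) (W3 := 13421774) (N0 := 3) (En := eng) (mo := mog) (C1 := cd0q1) (C2 := cd4q2) (C3 := pd3)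
    rfl (fun _ => rfl) s4_pm_123

noncomputable def f_pm_133 : ℕ → ℕ → ℕ → ℕ → Bool := onCell 536870912 536870912 0 1230186008 1020054732 13421774
    (rowB 3 eng mog cd0q1 cd4q3 pd3 0 true true false .dn 1 3 3 (qsf 536870912 536870912 0 1230186008 3) ndB0q1 ndB4q3 pcB3 Cut.none Ext.none)

def k0_pm_133 : ∃ t, chk3 f_pm_133 t 1 1 1 = true :=
  ⟨(b (l 2) (b (l 2) (a (b (l 2) (a (b (l 2) (a (b (l 2) (l 16821440)) (l 2))) (l 2))) (l 2)))), by decide +kernel⟩

theorem c_pm_133 : CertB 536870912 536870912 0 1230186008 1020054732 13421774 3 eng mog cd0q1 cd4q3 pd3 true true false .dn 1 3 3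
    ndB0q1 ndB4q3 pcB3 Cut.none Ext.none :=
  certB0 (fam := true) (s1 := true) (s2 := false) (a := 1) (b := 3) (c := 3) (cn := .dn) (n1 := ndB0q1) (n2 := ndB4q3) (pc := pcB3) (cut := Cut.none) (xt := Ext.none) (P1 := 536870912) (W1 := 536870912) (P2 := 0) (W2 := 1230186008) (P3 := 1020054732) (W3 := 13421774) (N0 := 3) (En := eng) (mo := mog) (C1 := cd0q1) (C2 := cd4q3) (C3 := pd3)
    rfl k0_pm_133

end Pool.Agent.Strip051.G.I9500_9625.Tab.C.BA04

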