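import Pool.Agent.Strip051.G.I9500_9625.Tab

/-! # Certificates B11 (generated) -/

set_option linter.all false
set_option maxRecDepth 100000

namespace Pool.Agent.Strip051.G.I9500_9625.Tab.C.BA04

open Pool.Agent.Strip051.PB Pool.Agent.Strip051.PB.T
open Pool.Agent.Strip051.G.I9500_9625.Tab

noncomputable def f_pm_202 : ℕ → ℕ → ℕ → ℕ → Bool := onCell 0 536870912 0 536870912 1020054732 13421774
    (rowB 3 eng mog cd0q2 cd4q0 pd2 0 true true false .pp 2 0 2 (qsf 0 536870912 0 536870912 2) ndB0q2 ndB4q0 pcB2 Cut.none Ext.none)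

def k0_pm_202 : ∃ t, chk3 f_pm_202 t 2 2 1 = true :=
  ⟨(a (a (l 4) (b (b (b (a (l 4) (l 15228752)) (l 15256016)) (l 4)) (l 4))) (b (b (a (b (b (l 15031800) (l 15088400)) (a (l 15257296) (l 15118952))) (b (b (a (l 14867192) (l 14768648)) (l 14809408)) (a (l 14959320) (l 14784952)))) (a (b (a (l 15370928) (l 15268552)) (b (l 15400776) (l 4))) (b (a (l 15094800) (l 14901240)) (a (l 15259872) (l 15047592))))) (b (a (l 4) (b (a (l 15393656) (l 15228192)) (a (l 4) (l 15378872)))) (l 4)))), by decide +kernel⟩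

def k1_pm_202 : ∃ t, chk3 f_pm_202 t 6 4 1 = true :=
  ⟨(b (a (b (b (a (a (l 14704072) (l 14666536)) (a (l 14634248) (b (l 14624688) (l 14592400)))) (a (l 14663336) (a (l 14593136) (l 14552856)))) (b (a (l 14658720) (a (l 14569584) (l 14515944))) (a (l 14669840) (l 14528584)))) (b (a (b (a (b (l 14608848) (l 14569128)) (b (a (l 14601944) (l 14599952)) (l 14553264))) (a (l 14539688) (b (l 14510856) (l 14473352)))) (a (b (b (a (b (l 14619056) (l 14588360)) (l 14618560)) (a (l 14547280) (b (l 14568056) (l 14536440)))) (b (a (l 14498384) (l 14557320)) (l 14450048))) (b (b (c (l 14646064) (l 14642096)) (c (l 14580704) (l 14573344))) (b (a (l 14502280) (l 14518976)) (a (l 14505272) (l 14453536)))))) (a (b (a (l 14467816) (l 14425992)) (a (l 14434528) (l 14378696))) (b (a (b (l 14409672) (l 14374072)) (b (a (l 14392152) (l 14391576)) (a (l 14350328) (l 14338632)))) (a (l 14329344) (b (l 14304872) (l 14270904))))))) (a (b (b (a (l 14695944) (l 14530968))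 (l 14450976)) (a (l 14820936) (l 14601184))) (b (a (b (a (l 14417856) (l 14348592)) (l 14375152)) (b (a (l 14285160) (l 14228416)) (a (l 14257848) (l 14186976)))) (a (b (l 14383184) (l 14405696)) (b (l 14203512) (l 14201064)))))), by decide +kernel⟩

def k2_pm_202 : ∃ t, chk3 f_pm_202 t 14 4 1 = true :=
  ⟨(b (b (a (a (b (b (c (l 14676984) (a (l 14667328) (l 14683512))) (c (l 14611808) (l 14607184))) (b (l 14606304) (l 14478128))) (b (b (b (a (l 14715600) (l 14730008)) (l 14689528)) (c (l 14640920) (l 14638768))) (b (c (l 14576688) (l 14571472)) (l 14508976)))) (a (b (b (b (a (l 14743792) (l 14756944)) (l 14717320)) (c (l 14667872) (l 14667856))) (b (l 14644224) (l 14537512))) (b (b (b (a (l 14769312) (l 14780728)) (l 14742104)) (a (l 14686800) (l 14698416))) (b (l 14627576) (l 14563080))))) (a (b (a (b (l 14413664) (l 14350264)) (b (l 14444728) (l 14381280))) (a (a (b (l 14286680) (l 14242136)) (b (l 14295264) (l 14236704))) (l 14287704))) (b (a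 (b (l 14473496) (l 14410248)) (b (l 14499296) (l 14436272))) (a (l 14316928) (l 14343240))))) (a (b (b (a (b (l 14197440) (l 14163504)) (b (l 14196344) (l 14162344))) (a (l 14122984) (a (l 14082112) (b (l 14087536) (l 14041376))))) (b (a (l 14083888) (l 14012848)) (l 14080424))) (b (b (a (l 14195408) (l 14222024)) (a (l 14077344) (l 14104312))) (a (b (a (l 13994344) (l 13971512)) (a (l 13916576) (l 13885160))) (b (l 13990288) (l 13882936)))))), by decide +kernel⟩

def k3_pm_202 : ∃ t, chk3 f_pm_202 t 15 4 1 = true :=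
  ⟨(b (a (b (a (b (b (b (a (l 14791184) (l 14800736)) (l 14763192)) (a (l 14709072) (l 14718832))) (b (l 14649208) (l 14584992))) (b (b (a (b (l 14809376) (l 14776584)) (b (l 14816016) (l 14783304))) (a (l 14727680) (l 14734544))) (b (a (l 14663040) (l 14670080)) (l 14602744)))) (a (b (b (l 14521480) (l 14458704)) (l 14365992)) (b (a (l 14504424) (l 14511880)) (l 14384720)))) (b (a (b (a (b (b (c (l 14818416) (l 14823664)) (l 14788320)) (l 14739696)) (b (b (b (l 14834448) (l 14818152)) (l 14793776)) (l 14745320))) (a (b (l 14675424) (l 14611808)) (b (l 14681272) (l 14617872)))) (b (b (b (a (b (a (l 14839248) (l 14842832)) (l 14824768)) (a (b (b (l 14850784) (l 14842680)) (l 14830544)) (a (b (b (l 14853912) (l 14845824)) (l 14833720)) (c (l 14842400) (l 14845944))))) (a (a (l 14798680) (l 14802352)) (a (l 14806360) (l 14810784)))) (a (b (l 14768264) (l 14736208)) (a (l 14758304) (l 14762912)))) (a (b (l 14688440) (l 14625296)) (b (l 14697120) (l 14634272)))))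 (a (b (a (l 14517688) (l 14524048)) (l 14398096)) (b (a (l 14531824) (l 14541200)) (l 14414296))))) (a (a (b (b (l 14245136) (l 14127696)) (l 13958440)) (b (b (l 14264304) (l 14147224)) (l 13978320))) (a (b (b (l 14278240) (l 14161608)) (l 13993224)) (b (b (l 14295120) (l 14179056)) (l 14011344))))), by decide +kernel⟩

def k4_pm_202 : ∃ t, chk3 f_pm_202 t 3 5 1 = true :=
  ⟨(a (b (a (b (a (l 14975848) (l 14716768)) (a (l 15169792) (l 14878440))) (b (a (l 14464904) (b (l 14213400) (l 14239768))) (a (l 14587464) (l 14304064)))) (a (b (a (l 15342024) (l 15080288)) (a (l 15454040) (l 15278648))) (b (a (l 14754472) (l 14432072)) (a (l 14960176) (l 14603240))))) (a (b (b (a (b (l 14003536) (l 14004720)) (a (l 13851048) (b (a (l 13801552) (l 13786280)) (l 13744864)))) (a (b (l 14020312) (l 14049608)) (b (l 13781560) (l 13785384)))) (b (a (l 14117808) (l 13943448)) (a (l 14249952) (l 13905832)))) (b (a (a (b (b (l 13797648) (l 13702912)) (b (l 13780224)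 (l 13603792))) (b (l 13766272) (b (l 13617848) (l 13536752)))) (b (a (l 13781544) (l 13800216)) (a (l 13585944) (l 13604824)))) (a (b (a (l 13605360) (b (l 13483544) (l 13472544))) (a (l 13657264) (l 13497416))) (b (a (b (l 13450856) (l 13383128)) (l 13426416)) (a (b (l 13345280) (l 13351352)) (b (l 13306008) (l 13250088)))))))), by decide +kernel⟩

def k5_pm_202 : ∃ t, chk3 f_pm_202 t 1 3 1 = true :=
  ⟨(a (l 4) (a (b (b (a (b (a (l 4) (l 15417320)) (l 4)) (b (a (l 15183520) (l 14811896)) (a (l 15353560) (l 15050664)))) (a (l 4) (a (l 4) (b (l 15256512) (l 15390640))))) (l 4)) (b (a (b (a (b (l 14424232) (l 14635000)) (b (l 14040912) (l 14217280))) (b (l 14504224) (a (l 15119280) (l 14671032)))) (b (a (b (l 13667712) (l 13804464)) (b (a (l 13396824) (l 13406704)) (l 13403992))) (a (l 13937856) (b (l 13540792) (l 13717328))))) (a (b (a (b (l 15294376) (l 4)) (b (l 14934488) (l 15154144))) (b (a (l 4) (l 15297064)) (l 2))) (b (a (l 14565352) (l 14045328))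 (a (b (l 14960840) (l 15151880)) (l 14481768))))))), by decide +kernel⟩

theorem s6_pm_202 : ∃ t, chk3 f_pm_202 t 7 4 1 = true := ex3_a k2_pm_202 k3_pm_202

theorem s7_pm_202 : ∃ t, chk3 f_pm_202 t 3 4 1 = true := ex3_a k1_pm_202 s6_pm_202

theorem s8_pm_202 : ∃ t, chk3 f_pm_202 t 3 2 1 = true := ex3_b s7_pm_202 k4_pm_202

theorem s9_pm_202 : ∃ t, chk3 f_pm_202 t 1 2 1 = true := ex3_a k0_pm_202 s8_pm_202

theorem s10_pm_202 : ∃ t, chk3 f_pm_202 t 1 1 1 = true := ex3_b s9_pm_202 k5_pm_202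

theorem c_pm_202 : CertB 0 536870912 0 536870912 1020054732 13421774 3 eng mog cd0q2 cd4q0 pd2 true true false .pp 2 0 2
    ndB0q2 ndB4q0 pcB2 Cut.none Ext.none :=
  certB0 (fam := true) (s1 := true) (s2 := false) (a := 2) (b := 0) (c := 2) (cn := .pp) (n1 := ndB0q2) (n2 := ndB4q0) (pc := pcB2) (cut := Cut.none) (xt := Ext.none) (P1 := 0) (W1 := 536870912) (P2 := 0) (W2 := 536870912) (P3 := 1020054732) (W3 := 13421774) (N0 := 3) (En := eng) (mo := mog) (C1 := cd0q2) (C2 := cd4q0) (C3 := pd2)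
    rfl s10_pm_202

noncomputable def f_pm_203 : ℕ → ℕ → ℕ → ℕ → Bool := onCell 0 536870912 1610612736 536870912 1020054732 13421774
    (rowB 3 eng mog cd0q2 cd4q0 pd3 1 true true false .up 2 0 3 (qsf 0 536870912 0 536870912 3) ndB0q2 ndB4q0 pcB3 Cut.none Ext.none)

def k0_pm_203 : ∃ t, chk3 f_pm_203 t 1 1 1 = true :=
  ⟨(a (l 4) (b (a (l 4) (b (a (l 4) (b (l 15167056) (l 2))) (l 2))) (l 2))), by decide +kernel⟩

theorem c_pm_203 : CertB 0 536870912 0 536870912 1020054732 13421774 3 eng mog cd0q2 cd4q0 pd3 true true false .up 2 0 3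
    ndB0q2 ndB4q0 pcB3 Cut.none Ext.none :=
  certB1 (fam := true) (s1 := true) (s2 := false) (a := 2) (b := 0) (c := 3) (cn := .up) (n1 := ndB0q2) (n2 := ndB4q0) (pc := pcB3) (cut := Cut.none) (xt := Ext.none) (P1 := 0) (W1 := 536870912) (P2 := 0) (W2 := 536870912) (P3 := 1020054732) (W3 := 13421774) (N0 := 3) (En := eng) (mo := mog) (C1 := cd0q2) (C2 := cd4q0) (C3 := pd3)
    rfl (fun _ => rfl) k0_pm_203

noncomputable def f_pm_213 : ℕ → ℕ → ℕ → ℕ → Bool := onCell 0 536870912 1610612736 536870912 1020054732 13421774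
    (rowB 3 eng mog cd0q2 cd4q1 pd3 1 true true false .pnn 2 1 3 (qsf 0 536870912 536870912 536870912 3) ndB0q2 ndB4q1 pcB3 Cut.none Ext.none)

def k0_pm_213 : ∃ t, chk3 f_pm_213 t 1 1 1 = true :=
  ⟨(a (l 4) (b (a (l 4) (b (a (l 4) (b (l 14830280) (l 4))) (l 4))) (l 4))), by decide +kernel⟩

theorem c_pm_213 : CertB 0 536870912 536870912 536870912 1020054732 13421774 3 eng mog cd0q2 cd4q1 pd3 true true false .pnn 2 1 3
    ndB0q2 ndB4q1 pcB3 Cut.none Ext.none :=
  certB1 (fam := true) (s1 := true) (s2 := false) (a := 2) (b := 1) (c := 3) (cn := .pnn) (n1 := ndB0q2) (n2 := ndB4q1) (pc := pcB3) (cut := Cut.none) (xt := Ext.none) (P1 := 0) (W1 := 536870912) (P2 := 536870912) (W2 := 536870912) (P3 := 1020054732) (W3 := 13421774) (N0 := 3) (En := eng) (mo := mog) (C1 := cd0q2) (C2 := cd4q1) (C3 := pd3)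
    rfl (fun _ => rfl) k0_pm_213

noncomputable def f_mm_001 : ℕ → ℕ → ℕ → ℕ → Bool := onCell 0 536870912 0 536870912 1020054732 13421774
    (rowB 3 eng mog cd0q0 cd4q0 pd1 0 true false false .up 0 0 1 (qsf 0 536870912 0 536870912 1) ndB0q0 ndB4q0 pcB1 Cut.none Ext.none)

def k0_mm_001 : ∃ t, chk3 f_mm_001 t 1 1 1 = true :=
  ⟨(l 4), by decide +kernel⟩

theorem c_mm_001 : CertB 0 536870912 0 536870912 1020054732 13421774 3 eng mog cd0q0 cd4q0 pd1 true false false .up 0 0 1
    ndB0q0 ndB4q0 pcB1 Cut.none Ext.none :=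
  certB0 (fam := true) (s1 := false) (s2 := false) (a := 0) (b := 0) (c := 1) (cn := .up) (n1 := ndB0q0) (n2 := ndB4q0) (pc := pcB1) (cut := Cut.none) (xt := Ext.none) (P1 := 0) (W1 := 536870912) (P2 := 0) (W2 := 536870912) (P3 := 1020054732) (W3 := 13421774) (N0 := 3) (En := eng) (mo := mog) (C1 := cd0q0) (C2 := cd4q0) (C3 := pd1)
    rfl k0_mm_001

noncomputable def f_mm_011 : ℕ → ℕ → ℕ → ℕ → Bool := onCell 0 536870912 536870912 536870912 1020054732 13421774
    (rowB 3 eng mog cd0q0 cd4q1 pd1 0 true false false .pnn 0 1 1 (qsf 0 536870912 536870912 536870912 1) ndB0q0 ndB4q1 pcB1 Cut.none Ext.none)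

def k0_mm_011 : ∃ t, chk3 f_mm_011 t 1 1 1 = true :=
  ⟨(l 4), by decide +kernel⟩

theorem c_mm_011 : CertB 0 536870912 536870912 536870912 1020054732 13421774 3 eng mog cd0q0 cd4q1 pd1 true false false .pnn 0 1 1
    ndB0q0 ndB4q1 pcB1 Cut.none Ext.none :=
  certB0 (fam := true) (s1 := false) (s2 := false) (a := 0) (b := 1) (c := 1) (cn := .pnn) (n1 := ndB0q0) (n2 := ndB4q1) (pc := pcB1) (cut := Cut.none) (xt := Ext.none) (P1 := 0) (W1 := 536870912) (P2 := 536870912) (W2 := 536870912) (P3 := 1020054732) (W3 := 13421774) (N0 := 3) (En := eng) (mo := mog) (C1 := cd0q0) (C2 := cd4q1) (C3 := pd1)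
    rfl k0_mm_011

noncomputable def f_mm_012 : ℕ → ℕ → ℕ → ℕ → Bool := onCell 0 536870912 536870912 536870912 1020054732 13421774
    (rowB 3 eng mog cd0q0 cd4q1 pd2 0 true false false .pnp 0 1 2 (qsf 0 536870912 536870912 536870912 2) ndB0q0 ndB4q1 pcB2 Cut.none Ext.none)

def k0_mm_012 : ∃ t, chk3 f_mm_012 t 1 1 1 = true :=
  ⟨(l 4), by decide +kernel⟩

theorem c_mm_012 : CertB 0 536870912 536870912 536870912 1020054732 13421774 3 eng mog cd0q0 cd4q1 pd2 true false false .pnp 0 1 2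
    ndB0q0 ndB4q1 pcB2 Cut.none Ext.none :=
  certB0 (fam := true) (s1 := false) (s2 := false) (a := 0) (b := 1) (c := 2) (cn := .pnp) (n1 := ndB0q0) (n2 := ndB4q1) (pc := pcB2) (cut := Cut.none) (xt := Ext.none) (P1 := 0) (W1 := 536870912) (P2 := 536870912) (W2 := 536870912) (P3 := 1020054732) (W3 := 13421774) (N0 := 3) (En := eng) (mo := mog) (C1 := cd0q0) (C2 := cd4q1) (C3 := pd2)
    rfl k0_mm_012

noncomputable def f_mm_022 : ℕ → ℕ → ℕ → ℕ → Bool := onCell 0 536870912 1073741824 536870912 1020054732 13421774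
    (rowB 3 eng mog cd0q0 cd4q2 pd2 0 true false false .pp 0 2 2 (qsf 0 536870912 1073741824 536870912 2) ndB0q0 ndB4q2 pcB2 Cut.none Ext.none)

def k0_mm_022 : ∃ t, chk3 f_mm_022 t 1 1 1 = true :=
  ⟨(l 4), by decide +kernel⟩

theorem c_mm_022 : CertB 0 536870912 1073741824 536870912 1020054732 13421774 3 eng mog cd0q0 cd4q2 pd2 true false false .pp 0 2 2
    ndB0q0 ndB4q2 pcB2 Cut.none Ext.none :=
  certB0 (fam := true) (s1 := false) (s2 := false) (a := 0) (b := 2) (c := 2) (cn := .pp) (n1 := ndB0q0) (n2 := ndB4q2) (pc := pcB2) (cut := Cut.none) (xt := Ext.none) (P1 := 0) (W1 := 536870912) (P2 := 1073741824) (W2 := 536870912) (P3 := 1020054732) (W3 := 13421774) (N0 := 3) (En := eng) (mo := mog) (C1 := cd0q0) (C2 := cd4q2) (C3 := pd2)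
    rfl k0_mm_022

noncomputable def f_mm_023 : ℕ → ℕ → ℕ → ℕ → Bool := onCell 0 536870912 1073741824 536870912 1020054732 13421774
    (rowB 3 eng mog cd0q0 cd4q2 pd3 0 true false false .up 0 2 3 (qsf 0 536870912 1073741824 536870912 3) ndB0q0 ndB4q2 pcB3 Cut.none Ext.none)

def k0_mm_023 : ∃ t, chk3 f_mm_023 t 1 1 1 = true :=
  ⟨(l 4), by decide +kernel⟩

theorem c_mm_023 : CertB 0 536870912 1073741824 536870912 1020054732 13421774 3 eng mog cd0q0 cd4q2 pd3 true false false .up 0 2 3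
    ndB0q0 ndB4q2 pcB3 Cut.none Ext.none :=
  certB0 (fam := true) (s1 := false) (s2 := false) (a := 0) (b := 2) (c := 3) (cn := .up) (n1 := ndB0q0) (n2 := ndB4q2) (pc := pcB3) (cut := Cut.none) (xt := Ext.none) (P1 := 0) (W1 := 536870912) (P2 := 1073741824) (W2 := 536870912) (P3 := 1020054732) (W3 := 13421774) (N0 := 3) (En := eng) (mo := mog) (C1 := cd0q0) (C2 := cd4q2) (C3 := pd3)
    rfl k0_mm_023

noncomputable def f_mm_033 : ℕ → ℕ → ℕ → ℕ → Bool := onCell 0 536870912 0 1230186008 1020054732 13421774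
    (rowB 3 eng mog cd0q0 cd4q3 pd3 0 true false false .pnn 0 3 3 (qsf 0 536870912 0 1230186008 3) ndB0q0 ndB4q3 pcB3 Cut.none Ext.none)

def k0_mm_033 : ∃ t, chk3 f_mm_033 t 1 1 1 = true :=
  ⟨(l 5), by decide +kernel⟩

theorem c_mm_033 : CertB 0 536870912 0 1230186008 1020054732 13421774 3 eng mog cd0q0 cd4q3 pd3 true false false .pnn 0 3 3
    ndB0q0 ndB4q3 pcB3 Cut.none Ext.none :=
  certB0 (fam := true) (s1 := false) (s2 := false) (a := 0) (b := 3) (c := 3) (cn := .pnn) (n1 := ndB0q0) (n2 := ndB4q3) (pc := pcB3) (cut := Cut.none) (xt := Ext.none) (P1 := 0) (W1 := 536870912) (P2 := 0) (W2 := 1230186008) (P3 := 1020054732) (W3 := 13421774) (N0 := 3) (En := eng) (mo := mog) (C1 := cd0q0) (C2 := cd4q3) (C3 := pd3)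
    rfl k0_mm_033

noncomputable def f_mm_101 : ℕ → ℕ → ℕ → ℕ → Bool := onCell 536870912 536870912 0 536870912 1020054732 13421774
    (rowB 3 eng mog cd0q1 cd4q0 pd1 0 true false false .npn 1 0 1 (qsf 536870912 536870912 0 536870912 1) ndB0q1 ndB4q0 pcB1 Cut.none Ext.none)

def k0_mm_101 : ∃ t, chk3 f_mm_101 t 1 1 1 = true :=
  ⟨(l 4), by decide +kernel⟩

theorem c_mm_101 : CertB 536870912 536870912 0 536870912 1020054732 13421774 3 eng mog cd0q1 cd4q0 pd1 true false false .npn 1 0 1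
    ndB0q1 ndB4q0 pcB1 Cut.none Ext.none :=
  certB0 (fam := true) (s1 := false) (s2 := false) (a := 1) (b := 0) (c := 1) (cn := .npn) (n1 := ndB0q1) (n2 := ndB4q0) (pc := pcB1) (cut := Cut.none) (xt := Ext.none) (P1 := 536870912) (W1 := 536870912) (P2 := 0) (W2 := 536870912) (P3 := 1020054732) (W3 := 13421774) (N0 := 3) (En := eng) (mo := mog) (C1 := cd0q1) (C2 := cd4q0) (C3 := pd1)
    rfl k0_mm_101

noncomputable def f_mm_102 : ℕ → ℕ → ℕ → ℕ → Bool := onCell 536870912 536870912 0 536870912 1020054732 13421774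
    (rowB 3 eng mog cd0q1 cd4q0 pd2 0 true false false .npp 1 0 2 (qsf 536870912 536870912 0 536870912 2) ndB0q1 ndB4q0 pcB2 Cut.none Ext.none)

def k0_mm_102 : ∃ t, chk3 f_mm_102 t 1 1 1 = true :=
  ⟨(l 4), by decide +kernel⟩

theorem c_mm_102 : CertB 536870912 536870912 0 536870912 1020054732 13421774 3 eng mog cd0q1 cd4q0 pd2 true false false .npp 1 0 2
    ndB0q1 ndB4q0 pcB2 Cut.none Ext.none :=
  certB0 (fam := true) (s1 := false) (s2 := false) (a := 1) (b := 0) (c := 2) (cn := .npp) (n1 := ndB0q1) (n2 := ndB4q0) (pc := pcB2) (cut := Cut.none) (xt := Ext.none) (P1 := 536870912) (W1 := 536870912) (P2 := 0) (W2 := 536870912) (P3 := 1020054732) (W3 := 13421774) (N0 := 3) (En := eng) (mo := mog) (C1 := cd0q1) (C2 := cd4q0) (C3 := pd2)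
    rfl k0_mm_102

noncomputable def f_mm_112 : ℕ → ℕ → ℕ → ℕ → Bool := onCell 536870912 536870912 536870912 536870912 1020054732 13421774
    (rowB 3 eng mog cd0q1 cd4q1 pd2 0 true false false .dn 1 1 2 (qsf 536870912 536870912 536870912 536870912 2) ndB0q1 ndB4q1 pcB2 Cut.none Ext.none)

def k0_mm_112 : ∃ t, chk3 f_mm_112 t 1 1 1 = true :=
  ⟨(l 4), by decide +kernel⟩

theorem c_mm_112 : CertB 536870912 536870912 536870912 536870912 1020054732 13421774 3 eng mog cd0q1 cd4q1 pd2 true false false .dn 1 1 2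
    ndB0q1 ndB4q1 pcB2 Cut.none Ext.none :=
  certB0 (fam := true) (s1 := false) (s2 := false) (a := 1) (b := 1) (c := 2) (cn := .dn) (n1 := ndB0q1) (n2 := ndB4q1) (pc := pcB2) (cut := Cut.none) (xt := Ext.none) (P1 := 536870912) (W1 := 536870912) (P2 := 536870912) (W2 := 536870912) (P3 := 1020054732) (W3 := 13421774) (N0 := 3) (En := eng) (mo := mog) (C1 := cd0q1) (C2 := cd4q1) (C3 := pd2)
    rfl k0_mm_112

noncomputable def f_mm_113 : ℕ → ℕ → ℕ → ℕ → Bool := onCell 536870912 536870912 536870912 536870912 1020054732 13421774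
    (rowB 3 eng mog cd0q1 cd4q1 pd3 0 true false false .nn 1 1 3 (qsf 536870912 536870912 536870912 536870912 3) ndB0q1 ndB4q1 pcB3 Cut.none Ext.none)

def k0_mm_113 : ∃ t, chk3 f_mm_113 t 1 1 1 = true :=
  ⟨(l 4), by decide +kernel⟩

theorem c_mm_113 : CertB 536870912 536870912 536870912 536870912 1020054732 13421774 3 eng mog cd0q1 cd4q1 pd3 true false false .nn 1 1 3
    ndB0q1 ndB4q1 pcB3 Cut.none Ext.none :=
  certB0 (fam := true) (s1 := false) (s2 := false) (a := 1) (b := 1) (c := 3) (cn := .nn) (n1 := ndB0q1) (n2 := ndB4q1) (pc := pcB3) (cut := Cut.none) (xt := Ext.none) (P1 := 536870912) (W1 := 536870912) (P2 := 536870912) (W2 := 536870912) (P3 := 1020054732) (W3 := 13421774) (N0 := 3) (En := eng) (mo := mog) (C1 := cd0q1) (C2 := cd4q1) (C3 := pd3)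
    rfl k0_mm_113

noncomputable def f_mm_123 : ℕ → ℕ → ℕ → ℕ → Bool := onCell 536870912 536870912 1073741824 536870912 1020054732 13421774
    (rowB 3 eng mog cd0q1 cd4q2 pd3 0 true false false .npn 1 2 3 (qsf 536870912 536870912 1073741824 536870912 3) ndB0q1 ndB4q2 pcB3 Cut.none Ext.none)

def k0_mm_123 : ∃ t, chk3 f_mm_123 t 1 1 1 = true :=
  ⟨(l 4), by decide +kernel⟩

theorem c_mm_123 : CertB 536870912 536870912 1073741824 536870912 1020054732 13421774 3 eng mog cd0q1 cd4q2 pd3 true false false .npn 1 2 3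
    ndB0q1 ndB4q2 pcB3 Cut.none Ext.none :=
  certB0 (fam := true) (s1 := false) (s2 := false) (a := 1) (b := 2) (c := 3) (cn := .npn) (n1 := ndB0q1) (n2 := ndB4q2) (pc := pcB3) (cut := Cut.none) (xt := Ext.none) (P1 := 536870912) (W1 := 536870912) (P2 := 1073741824) (W2 := 536870912) (P3 := 1020054732) (W3 := 13421774) (N0 := 3) (En := eng) (mo := mog) (C1 := cd0q1) (C2 := cd4q2) (C3 := pd3)
    rfl k0_mm_123

noncomputable def f_mm_133 : ℕ → ℕ → ℕ → ℕ → Bool := onCell 536870912 536870912 0 1230186008 1020054732 13421774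
    (rowB 3 eng mog cd0q1 cd4q3 pd3 0 true false false .dn 1 3 3 (qsf 536870912 536870912 0 1230186008 3) ndB0q1 ndB4q3 pcB3 Cut.none Ext.none)

def k0_mm_133 : ∃ t, chk3 f_mm_133 t 1 1 1 = true :=
  ⟨(l 4), by decide +kernel⟩

theorem c_mm_133 : CertB 536870912 536870912 0 1230186008 1020054732 13421774 3 eng mog cd0q1 cd4q3 pd3 true false false .dn 1 3 3
    ndB0q1 ndB4q3 pcB3 Cut.none Ext.none :=
  certB0 (fam := true) (s1 := false) (s2 := false) (a := 1) (b := 3) (c := 3) (cn := .dn) (n1 := ndB0q1) (n2 := ndB4q3) (pc := pcB3) (cut := Cut.none) (xt := Ext.none) (P1 := 536870912) (W1 := 536870912) (P2 := 0) (W2 := 1230186008) (P3 := 1020054732) (W3 := 13421774) (N0 := 3) (En := eng) (mo := mog) (C1 := cd0q1) (C2 := cd4q3) (C3 := pd3)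
    rfl k0_mm_133

noncomputable def f_mm_202 : ℕ → ℕ → ℕ → ℕ → Bool := onCell 0 536870912 0 536870912 1020054732 13421774
    (rowB 3 eng mog cd0q2 cd4q0 pd2 0 true false false .pp 2 0 2 (qsf 0 536870912 0 536870912 2) ndB0q2 ndB4q0 pcB2 Cut.none Ext.none)

def k0_mm_202 : ∃ t, chk3 f_mm_202 t 1 1 1 = true :=
  ⟨(l 4), by decide +kernel⟩

theorem c_mm_202 : CertB 0 536870912 0 536870912 1020054732 13421774 3 eng mog cd0q2 cd4q0 pd2 true false false .pp 2 0 2
    ndB0q2 ndB4q0 pcB2 Cut.none Ext.none :=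
  certB0 (fam := true) (s1 := false) (s2 := false) (a := 2) (b := 0) (c := 2) (cn := .pp) (n1 := ndB0q2) (n2 := ndB4q0) (pc := pcB2) (cut := Cut.none) (xt := Ext.none) (P1 := 0) (W1 := 536870912) (P2 := 0) (W2 := 536870912) (P3 := 1020054732) (W3 := 13421774) (N0 := 3) (En := eng) (mo := mog) (C1 := cd0q2) (C2 := cd4q0) (C3 := pd2)
    rfl k0_mm_202

noncomputable def f_mm_203 : ℕ → ℕ → ℕ → ℕ → Bool := onCell 0 536870912 0 536870912 1020054732 13421774
    (rowB 3 eng mog cd0q2 cd4q0 pd3 0 true false false .up 2 0 3 (qsf 0 536870912 0 536870912 3) ndB0q2 ndB4q0 pcB3 Cut.none Ext.none)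

def k0_mm_203 : ∃ t, chk3 f_mm_203 t 1 1 1 = true :=
  ⟨(l 4), by decide +kernel⟩

theorem c_mm_203 : CertB 0 536870912 0 536870912 1020054732 13421774 3 eng mog cd0q2 cd4q0 pd3 true false false .up 2 0 3
    ndB0q2 ndB4q0 pcB3 Cut.none Ext.none :=
  certB0 (fam := true) (s1 := false) (s2 := false) (a := 2) (b := 0) (c := 3) (cn := .up) (n1 := ndB0q2) (n2 := ndB4q0) (pc := pcB3) (cut := Cut.none) (xt := Ext.none) (P1 := 0) (W1 := 536870912) (P2 := 0) (W2 := 536870912) (P3 := 1020054732) (W3 := 13421774) (N0 := 3) (En := eng) (mo := mog) (C1 := cd0q2) (C2 := cd4q0) (C3 := pd3)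
    rfl k0_mm_203

noncomputable def f_mm_213 : ℕ → ℕ → ℕ → ℕ → Bool := onCell 0 536870912 536870912 536870912 1020054732 13421774
    (rowB 3 eng mog cd0q2 cd4q1 pd3 0 true false false .pnn 2 1 3 (qsf 0 536870912 536870912 536870912 3) ndB0q2 ndB4q1 pcB3 Cut.none Ext.none)

def k0_mm_213 : ∃ t, chk3 f_mm_213 t 1 1 1 = true :=
  ⟨(l 4), by decide +kernel⟩

theorem c_mm_213 : CertB 0 536870912 536870912 536870912 1020054732 13421774 3 eng mog cd0q2 cd4q1 pd3 true false false .pnn 2 1 3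
    ndB0q2 ndB4q1 pcB3 Cut.none Ext.none :=
  certB0 (fam := true) (s1 := false) (s2 := false) (a := 2) (b := 1) (c := 3) (cn := .pnn) (n1 := ndB0q2) (n2 := ndB4q1) (pc := pcB3) (cut := Cut.none) (xt := Ext.none) (P1 := 0) (W1 := 536870912) (P2 := 536870912) (W2 := 536870912) (P3 := 1020054732) (W3 := 13421774) (N0 := 3) (En := eng) (mo := mog) (C1 := cd0q2) (C2 := cd4q1) (C3 := pd3)
    rfl k0_mm_213

end Pool.Agent.Strip051.G.I9500_9625.Tab.C.BA04

namespace Pool.Agent.Strip051.G.I9500_9625.Tab.C.BA05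

open Pool.Agent.Strip051.PB Pool.Agent.Strip051.PB.T
open Pool.Agent.Strip051.G.I9500_9625.Tab

noncomputable def cut_pp_001 : Cut := Cut.of [[⟨3, 0, 0, 1449551462⟩]]

noncomputable def f_pp_001 : ℕ → ℕ → ℕ → ℕ → Bool := onCell 0 536870912 0 536870912 1020054732 13421774
    (rowB 3 eng mog cd0q0 cd5q0 pd1 0 true true true .up 0 0 1 (qsf 0 536870912 0 536870912 1) ndB0q0 ndB5q0 pcB1 cut_pp_001 Ext.none)

def k0_pp_001 : ∃ t, chk3 f_pp_001 t 1 1 1 = true :=
  ⟨(l 4), by decide +kernel⟩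

theorem c_pp_001 : CertB 0 536870912 0 536870912 1020054732 13421774 3 eng mog cd0q0 cd5q0 pd1 true true true .up 0 0 1
    ndB0q0 ndB5q0 pcB1 cut_pp_001 Ext.none :=
  certB0 (fam := true) (s1 := true) (s2 := true) (a := 0) (b := 0) (c := 1) (cn := .up) (n1 := ndB0q0) (n2 := ndB5q0) (pc := pcB1) (cut := cut_pp_001) (xt := Ext.none) (P1 := 0) (W1 := 536870912) (P2 := 0) (W2 := 536870912) (P3 := 1020054732) (W3 := 13421774) (N0 := 3) (En := eng) (mo := mog) (C1 := cd0q0) (C2 := cd5q0) (C3 := pd1)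
    rfl k0_pp_001

noncomputable def cut_pp_011 : Cut := Cut.of [[⟨3, 0, 0, 1449551462⟩]]

noncomputable def f_pp_011 : ℕ → ℕ → ℕ → ℕ → Bool := onCell 0 536870912 536870912 536870912 1020054732 13421774
    (rowB 3 eng mog cd0q0 cd5q1 pd1 0 true true true .pnn 0 1 1 (qsf 0 536870912 536870912 536870912 1) ndB0q0 ndB5q1 pcB1 cut_pp_011 Ext.none)

def k0_pp_011 : ∃ t, chk3 f_pp_011 t 1 1 1 = true :=
  ⟨(l 4), by decide +kernel⟩

theorem c_pp_011 : CertB 0 536870912 536870912 536870912 1020054732 13421774 3 eng mog cd0q0 cd5q1 pd1 true true true .pnn 0 1 1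
    ndB0q0 ndB5q1 pcB1 cut_pp_011 Ext.none :=
  certB0 (fam := true) (s1 := true) (s2 := true) (a := 0) (b := 1) (c := 1) (cn := .pnn) (n1 := ndB0q0) (n2 := ndB5q1) (pc := pcB1) (cut := cut_pp_011) (xt := Ext.none) (P1 := 0) (W1 := 536870912) (P2 := 536870912) (W2 := 536870912) (P3 := 1020054732) (W3 := 13421774) (N0 := 3) (En := eng) (mo := mog) (C1 := cd0q0) (C2 := cd5q1) (C3 := pd1)
    rfl k0_pp_011

noncomputable def cut_pp_012 : Cut := Cut.of [[⟨3, 0, 0, 1449551462⟩]]

noncomputable def f_pp_012 : ℕ → ℕ → ℕ → ℕ → Bool := onCell 0 536870912 536870912 536870912 1020054732 13421774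
    (rowB 3 eng mog cd0q0 cd5q1 pd2 0 true true true .pnp 0 1 2 (qsf 0 536870912 536870912 536870912 2) ndB0q0 ndB5q1 pcB2 cut_pp_012 Ext.none)

def k0_pp_012 : ∃ t, chk3 f_pp_012 t 1 1 1 = true :=
  ⟨(l 4), by decide +kernel⟩

theorem c_pp_012 : CertB 0 536870912 536870912 536870912 1020054732 13421774 3 eng mog cd0q0 cd5q1 pd2 true true true .pnp 0 1 2
    ndB0q0 ndB5q1 pcB2 cut_pp_012 Ext.none :=
  certB0 (fam := true) (s1 := true) (s2 := true) (a := 0) (b := 1) (c := 2) (cn := .pnp) (n1 := ndB0q0) (n2 := ndB5q1) (pc := pcB2) (cut := cut_pp_012) (xt := Ext.none) (P1 := 0) (W1 := 536870912) (P2 := 536870912) (W2 := 536870912) (P3 := 1020054732) (W3 := 13421774) (N0 := 3) (En := eng) (mo := mog) (C1 := cd0q0) (C2 := cd5q1) (C3 := pd2)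
    rfl k0_pp_012

noncomputable def cut_pp_022 : Cut := Cut.of [[⟨3, 0, 0, 1449551462⟩]]

noncomputable def f_pp_022 : ℕ → ℕ → ℕ → ℕ → Bool := onCell 0 536870912 1073741824 536870912 1020054732 13421774
    (rowB 3 eng mog cd0q0 cd5q2 pd2 0 true true true .pp 0 2 2 (qsf 0 536870912 1073741824 536870912 2) ndB0q0 ndB5q2 pcB2 cut_pp_022 Ext.none)

def k0_pp_022 : ∃ t, chk3 f_pp_022 t 1 1 1 = true :=
  ⟨(l 4), by decide +kernel⟩

theorem c_pp_022 : CertB 0 536870912 1073741824 536870912 1020054732 13421774 3 eng mog cd0q0 cd5q2 pd2 true true true .pp 0 2 2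
    ndB0q0 ndB5q2 pcB2 cut_pp_022 Ext.none :=
  certB0 (fam := true) (s1 := true) (s2 := true) (a := 0) (b := 2) (c := 2) (cn := .pp) (n1 := ndB0q0) (n2 := ndB5q2) (pc := pcB2) (cut := cut_pp_022) (xt := Ext.none) (P1 := 0) (W1 := 536870912) (P2 := 1073741824) (W2 := 536870912) (P3 := 1020054732) (W3 := 13421774) (N0 := 3) (En := eng) (mo := mog) (C1 := cd0q0) (C2 := cd5q2) (C3 := pd2)
    rfl k0_pp_022

noncomputable def cut_pp_023 : Cut := Cut.of [[⟨3, 0, 0, 1449551462⟩]]

noncomputable def f_pp_023 : ℕ → ℕ → ℕ → ℕ → Bool := onCell 0 536870912 1073741824 536870912 1020054732 13421774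
    (rowB 3 eng mog cd0q0 cd5q2 pd3 0 true true true .up 0 2 3 (qsf 0 536870912 1073741824 536870912 3) ndB0q0 ndB5q2 pcB3 cut_pp_023 Ext.none)

def k0_pp_023 : ∃ t, chk3 f_pp_023 t 1 1 1 = true :=
  ⟨(l 4), by decide +kernel⟩

theorem c_pp_023 : CertB 0 536870912 1073741824 536870912 1020054732 13421774 3 eng mog cd0q0 cd5q2 pd3 true true true .up 0 2 3
    ndB0q0 ndB5q2 pcB3 cut_pp_023 Ext.none :=
  certB0 (fam := true) (s1 := true) (s2 := true) (a := 0) (b := 2) (c := 3) (cn := .up) (n1 := ndB0q0) (n2 := ndB5q2) (pc := pcB3) (cut := cut_pp_023) (xt := Ext.none) (P1 := 0) (W1 := 536870912) (P2 := 1073741824) (W2 := 536870912) (P3 := 1020054732) (W3 := 13421774) (N0 := 3) (En := eng) (mo := mog) (C1 := cd0q0) (C2 := cd5q2) (C3 := pd3)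
    rfl k0_pp_023

noncomputable def cut_pp_033 : Cut := Cut.of [[⟨3, 0, 0, 1449551462⟩]]

noncomputable def f_pp_033 : ℕ → ℕ → ℕ → ℕ → Bool := onCell 0 536870912 0 1230186008 1020054732 13421774
    (rowB 3 eng mog cd0q0 cd5q3 pd3 0 true true true .pnn 0 3 3 (qsf 0 536870912 0 1230186008 3) ndB0q0 ndB5q3 pcB3 cut_pp_033 Ext.none)

def k0_pp_033 : ∃ t, chk3 f_pp_033 t 1 1 1 = true :=
  ⟨(l 4), by decide +kernel⟩

theorem c_pp_033 : CertB 0 536870912 0 1230186008 1020054732 13421774 3 eng mog cd0q0 cd5q3 pd3 true true true .pnn 0 3 3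
    ndB0q0 ndB5q3 pcB3 cut_pp_033 Ext.none :=
  certB0 (fam := true) (s1 := true) (s2 := true) (a := 0) (b := 3) (c := 3) (cn := .pnn) (n1 := ndB0q0) (n2 := ndB5q3) (pc := pcB3) (cut := cut_pp_033) (xt := Ext.none) (P1 := 0) (W1 := 536870912) (P2 := 0) (W2 := 1230186008) (P3 := 1020054732) (W3 := 13421774) (N0 := 3) (En := eng) (mo := mog) (C1 := cd0q0) (C2 := cd5q3) (C3 := pd3)
    rfl k0_pp_033

noncomputable def cut_pp_101 : Cut := Cut.of [[⟨3, 0, 0, 1449551462⟩]]

noncomputable def f_pp_101 : ℕ → ℕ → ℕ → ℕ → Bool := onCell 536870912 536870912 0 536870912 1020054732 13421774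
    (rowB 3 eng mog cd0q1 cd5q0 pd1 0 true true true .npn 1 0 1 (qsf 536870912 536870912 0 536870912 1) ndB0q1 ndB5q0 pcB1 cut_pp_101 Ext.none)

def k0_pp_101 : ∃ t, chk3 f_pp_101 t 1 1 1 = true :=
  ⟨(l 4), by decide +kernel⟩

theorem c_pp_101 : CertB 536870912 536870912 0 536870912 1020054732 13421774 3 eng mog cd0q1 cd5q0 pd1 true true true .npn 1 0 1
    ndB0q1 ndB5q0 pcB1 cut_pp_101 Ext.none :=
  certB0 (fam := true) (s1 := true) (s2 := true) (a := 1) (b := 0) (c := 1) (cn := .npn) (n1 := ndB0q1) (n2 := ndB5q0) (pc := pcB1) (cut := cut_pp_101) (xt := Ext.none) (P1 := 536870912) (W1 := 536870912) (P2 := 0) (W2 := 536870912) (P3 := 1020054732) (W3 := 13421774) (N0 := 3) (En := eng) (mo := mog) (C1 := cd0q1) (C2 := cd5q0) (C3 := pd1)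
    rfl k0_pp_101

noncomputable def cut_pp_102 : Cut := Cut.of [[⟨3, 0, 0, 1449551462⟩]]

noncomputable def f_pp_102 : ℕ → ℕ → ℕ → ℕ → Bool := onCell 536870912 536870912 0 536870912 1020054732 13421774
    (rowB 3 eng mog cd0q1 cd5q0 pd2 0 true true true .npp 1 0 2 (qsf 536870912 536870912 0 536870912 2) ndB0q1 ndB5q0 pcB2 cut_pp_102 Ext.none)

def k0_pp_102 : ∃ t, chk3 f_pp_102 t 1 1 1 = true :=
  ⟨(l 4), by decide +kernel⟩

theorem c_pp_102 : CertB 536870912 536870912 0 536870912 1020054732 13421774 3 eng mog cd0q1 cd5q0 pd2 true true true .npp 1 0 2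
    ndB0q1 ndB5q0 pcB2 cut_pp_102 Ext.none :=
  certB0 (fam := true) (s1 := true) (s2 := true) (a := 1) (b := 0) (c := 2) (cn := .npp) (n1 := ndB0q1) (n2 := ndB5q0) (pc := pcB2) (cut := cut_pp_102) (xt := Ext.none) (P1 := 536870912) (W1 := 536870912) (P2 := 0) (W2 := 536870912) (P3 := 1020054732) (W3 := 13421774) (N0 := 3) (En := eng) (mo := mog) (C1 := cd0q1) (C2 := cd5q0) (C3 := pd2)
    rfl k0_pp_102

noncomputable def cut_pp_112 : Cut := Cut.of [[⟨3, 0, 0, 1449551462⟩]]

noncomputable def f_pp_112 : ℕ → ℕ → ℕ → ℕ → Bool := onCell 536870912 536870912 536870912 536870912 1020054732 13421774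
    (rowB 3 eng mog cd0q1 cd5q1 pd2 0 true true true .dn 1 1 2 (qsf 536870912 536870912 536870912 536870912 2) ndB0q1 ndB5q1 pcB2 cut_pp_112 Ext.none)

def k0_pp_112 : ∃ t, chk3 f_pp_112 t 1 1 1 = true :=
  ⟨(l 4), by decide +kernel⟩

theorem c_pp_112 : CertB 536870912 536870912 536870912 536870912 1020054732 13421774 3 eng mog cd0q1 cd5q1 pd2 true true true .dn 1 1 2
    ndB0q1 ndB5q1 pcB2 cut_pp_112 Ext.none :=
  certB0 (fam := true) (s1 := true) (s2 := true) (a := 1) (b := 1) (c := 2) (cn := .dn) (n1 := ndB0q1) (n2 := ndB5q1) (pc := pcB2) (cut := cut_pp_112) (xt := Ext.none) (P1 := 536870912) (W1 := 536870912) (P2 := 536870912) (W2 := 536870912) (P3 := 1020054732) (W3 := 13421774) (N0 := 3) (En := eng) (mo := mog) (C1 := cd0q1) (C2 := cd5q1) (C3 := pd2)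
    rfl k0_pp_112

noncomputable def cut_pp_113 : Cut := Cut.of [[⟨3, 0, 0, 1449551462⟩]]

noncomputable def f_pp_113 : ℕ → ℕ → ℕ → ℕ → Bool := onCell 536870912 536870912 536870912 536870912 1020054732 13421774
    (rowB 3 eng mog cd0q1 cd5q1 pd3 0 true true true .nn 1 1 3 (qsf 536870912 536870912 536870912 536870912 3) ndB0q1 ndB5q1 pcB3 cut_pp_113 Ext.none)

def k0_pp_113 : ∃ t, chk3 f_pp_113 t 1 1 1 = true :=
  ⟨(l 4), by decide +kernel⟩

theorem c_pp_113 : CertB 536870912 536870912 536870912 536870912 1020054732 13421774 3 eng mog cd0q1 cd5q1 pd3 true true true .nn 1 1 3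
    ndB0q1 ndB5q1 pcB3 cut_pp_113 Ext.none :=
  certB0 (fam := true) (s1 := true) (s2 := true) (a := 1) (b := 1) (c := 3) (cn := .nn) (n1 := ndB0q1) (n2 := ndB5q1) (pc := pcB3) (cut := cut_pp_113) (xt := Ext.none) (P1 := 536870912) (W1 := 536870912) (P2 := 536870912) (W2 := 536870912) (P3 := 1020054732) (W3 := 13421774) (N0 := 3) (En := eng) (mo := mog) (C1 := cd0q1) (C2 := cd5q1) (C3 := pd3)
    rfl k0_pp_113

noncomputable def cut_pp_123 : Cut := Cut.of [[⟨3, 0, 0, 1449551462⟩]]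

noncomputable def f_pp_123 : ℕ → ℕ → ℕ → ℕ → Bool := onCell 536870912 536870912 1073741824 536870912 1020054732 13421774
    (rowB 3 eng mog cd0q1 cd5q2 pd3 0 true true true .npn 1 2 3 (qsf 536870912 536870912 1073741824 536870912 3) ndB0q1 ndB5q2 pcB3 cut_pp_123 Ext.none)

def k0_pp_123 : ∃ t, chk3 f_pp_123 t 1 1 1 = true :=
  ⟨(l 4), by decide +kernel⟩

theorem c_pp_123 : CertB 536870912 536870912 1073741824 536870912 1020054732 13421774 3 eng mog cd0q1 cd5q2 pd3 true true true .npn 1 2 3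
    ndB0q1 ndB5q2 pcB3 cut_pp_123 Ext.none :=
  certB0 (fam := true) (s1 := true) (s2 := true) (a := 1) (b := 2) (c := 3) (cn := .npn) (n1 := ndB0q1) (n2 := ndB5q2) (pc := pcB3) (cut := cut_pp_123) (xt := Ext.none) (P1 := 536870912) (W1 := 536870912) (P2 := 1073741824) (W2 := 536870912) (P3 := 1020054732) (W3 := 13421774) (N0 := 3) (En := eng) (mo := mog) (C1 := cd0q1) (C2 := cd5q2) (C3 := pd3)
    rfl k0_pp_123

noncomputable def cut_pp_133 : Cut := Cut.of [[⟨3, 0, 0, 1449551462⟩]]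

noncomputable def f_pp_133 : ℕ → ℕ → ℕ → ℕ → Bool := onCell 536870912 536870912 0 1230186008 1020054732 13421774
    (rowB 3 eng mog cd0q1 cd5q3 pd3 0 true true true .dn 1 3 3 (qsf 536870912 536870912 0 1230186008 3) ndB0q1 ndB5q3 pcB3 cut_pp_133 Ext.none)

def k0_pp_133 : ∃ t, chk3 f_pp_133 t 1 1 1 = true :=
  ⟨(l 4), by decide +kernel⟩

theorem c_pp_133 : CertB 536870912 536870912 0 1230186008 1020054732 13421774 3 eng mog cd0q1 cd5q3 pd3 true true true .dn 1 3 3
    ndB0q1 ndB5q3 pcB3 cut_pp_133 Ext.none :=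
  certB0 (fam := true) (s1 := true) (s2 := true) (a := 1) (b := 3) (c := 3) (cn := .dn) (n1 := ndB0q1) (n2 := ndB5q3) (pc := pcB3) (cut := cut_pp_133) (xt := Ext.none) (P1 := 536870912) (W1 := 536870912) (P2 := 0) (W2 := 1230186008) (P3 := 1020054732) (W3 := 13421774) (N0 := 3) (En := eng) (mo := mog) (C1 := cd0q1) (C2 := cd5q3) (C3 := pd3)
    rfl k0_pp_133

noncomputable def cut_pp_202 : Cut := Cut.of [[⟨3, 0, 0, 1449551462⟩]]

noncomputable def f_pp_202 : ℕ → ℕ → ℕ → ℕ → Bool := onCell 0 536870912 0 536870912 1020054732 13421774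
    (rowB 3 eng mog cd0q2 cd5q0 pd2 0 true true true .pp 2 0 2 (qsf 0 536870912 0 536870912 2) ndB0q2 ndB5q0 pcB2 cut_pp_202 Ext.none)

def k0_pp_202 : ∃ t, chk3 f_pp_202 t 1 1 1 = true :=
  ⟨(l 4), by decide +kernel⟩

theorem c_pp_202 : CertB 0 536870912 0 536870912 1020054732 13421774 3 eng mog cd0q2 cd5q0 pd2 true true true .pp 2 0 2
    ndB0q2 ndB5q0 pcB2 cut_pp_202 Ext.none :=
  certB0 (fam := true) (s1 := true) (s2 := true) (a := 2) (b := 0) (c := 2) (cn := .pp) (n1 := ndB0q2) (n2 := ndB5q0) (pc := pcB2) (cut := cut_pp_202) (xt := Ext.none) (P1 := 0) (W1 := 536870912) (P2 := 0) (W2 := 536870912) (P3 := 1020054732) (W3 := 13421774) (N0 := 3) (En := eng) (mo := mog) (C1 := cd0q2) (C2 := cd5q0) (C3 := pd2)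
    rfl k0_pp_202

noncomputable def cut_pp_203 : Cut := Cut.of [[⟨3, 0, 0, 1449551462⟩]]

noncomputable def f_pp_203 : ℕ → ℕ → ℕ → ℕ → Bool := onCell 0 536870912 0 536870912 1020054732 13421774
    (rowB 3 eng mog cd0q2 cd5q0 pd3 0 true true true .up 2 0 3 (qsf 0 536870912 0 536870912 3) ndB0q2 ndB5q0 pcB3 cut_pp_203 Ext.none)

def k0_pp_203 : ∃ t, chk3 f_pp_203 t 1 1 1 = true :=
  ⟨(l 4), by decide +kernel⟩

theorem c_pp_203 : CertB 0 536870912 0 536870912 1020054732 13421774 3 eng mog cd0q2 cd5q0 pd3 true true true .up 2 0 3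
    ndB0q2 ndB5q0 pcB3 cut_pp_203 Ext.none :=
  certB0 (fam := true) (s1 := true) (s2 := true) (a := 2) (b := 0) (c := 3) (cn := .up) (n1 := ndB0q2) (n2 := ndB5q0) (pc := pcB3) (cut := cut_pp_203) (xt := Ext.none) (P1 := 0) (W1 := 536870912) (P2 := 0) (W2 := 536870912) (P3 := 1020054732) (W3 := 13421774) (N0 := 3) (En := eng) (mo := mog) (C1 := cd0q2) (C2 := cd5q0) (C3 := pd3)
    rfl k0_pp_203

noncomputable def cut_pp_213 : Cut := Cut.of [[⟨3, 0, 0, 1449551462⟩]]

noncomputable def f_pp_213 : ℕ → ℕ → ℕ → ℕ → Bool := onCell 0 536870912 536870912 536870912 1020054732 13421774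
    (rowB 3 eng mog cd0q2 cd5q1 pd3 0 true true true .pnn 2 1 3 (qsf 0 536870912 536870912 536870912 3) ndB0q2 ndB5q1 pcB3 cut_pp_213 Ext.none)

def k0_pp_213 : ∃ t, chk3 f_pp_213 t 1 1 1 = true :=
  ⟨(l 4), by decide +kernel⟩

theorem c_pp_213 : CertB 0 536870912 536870912 536870912 1020054732 13421774 3 eng mog cd0q2 cd5q1 pd3 true true true .pnn 2 1 3
    ndB0q2 ndB5q1 pcB3 cut_pp_213 Ext.none :=
  certB0 (fam := true) (s1 := true) (s2 := true) (a := 2) (b := 1) (c := 3) (cn := .pnn) (n1 := ndB0q2) (n2 := ndB5q1) (pc := pcB3) (cut := cut_pp_213) (xt := Ext.none) (P1 := 0) (W1 := 536870912) (P2 := 536870912) (W2 := 536870912) (P3 := 1020054732) (W3 := 13421774) (N0 := 3) (En := eng) (mo := mog) (C1 := cd0q2) (C2 := cd5q1) (C3 := pd3)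
    rfl k0_pp_213

noncomputable def cut_pm_001 : Cut := Cut.of [[⟨3, 0, 0, 1449551462⟩]]

noncomputable def f_pm_001 : ℕ → ℕ → ℕ → ℕ → Bool := onCell 0 536870912 0 536870912 1020054732 13421774
    (rowB 3 eng mog cd0q0 cd5q0 pd1 0 true true false .up 0 0 1 (qsf 0 536870912 0 536870912 1) ndB0q0 ndB5q0 pcB1 cut_pm_001 Ext.none)

def k0_pm_001 : ∃ t, chk3 f_pm_001 t 1 1 1 = true :=
  ⟨(a (l 3) (b (l 6) (a (l 6) (b (l 6) (a (l 6) (b (l 6) (a (l 6) (b (l 6) (l 16030712))))))))), by decide +kernel⟩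

theorem c_pm_001 : CertB 0 536870912 0 536870912 1020054732 13421774 3 eng mog cd0q0 cd5q0 pd1 true true false .up 0 0 1
    ndB0q0 ndB5q0 pcB1 cut_pm_001 Ext.none :=
  certB0 (fam := true) (s1 := true) (s2 := false) (a := 0) (b := 0) (c := 1) (cn := .up) (n1 := ndB0q0) (n2 := ndB5q0) (pc := pcB1) (cut := cut_pm_001) (xt := Ext.none) (P1 := 0) (W1 := 536870912) (P2 := 0) (W2 := 536870912) (P3 := 1020054732) (W3 := 13421774) (N0 := 3) (En := eng) (mo := mog) (C1 := cd0q0) (C2 := cd5q0) (C3 := pd1)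
    rfl k0_pm_001

noncomputable def cut_pm_011 : Cut := Cut.of [[⟨3, 0, 0, 1449551462⟩], [⟨0, 0, 0, 26843545⟩, ⟨1, 1, 0, 26843545⟩, ⟨2, 1, 0, 26843545⟩]]

noncomputable def f_pm_011 : ℕ → ℕ → ℕ → ℕ → Bool := onCell 0 536870912 536870912 536870912 1020054732 13421774
    (rowB 3 eng mog cd0q0 cd5q1 pd1 1 true true false .pnn 0 1 1 (qsf 0 536870912 536870912 536870912 1) ndB0q0 ndB5q1 pcB1 cut_pm_011 Ext.none)

def k0_pm_011 : ∃ t, chk3 f_pm_011 t 1 1 1 = true :=
  ⟨(b (l 6) (a (l 6) (b (l 6) (b (l 6) (a (l 6) (b (l 6) (a (l 6) (l 16031872)))))))), by decide +kernel⟩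

theorem c_pm_011 : CertB 0 536870912 536870912 536870912 1020054732 13421774 3 eng mog cd0q0 cd5q1 pd1 true true false .pnn 0 1 1
    ndB0q0 ndB5q1 pcB1 cut_pm_011 Ext.none :=
  certB1 (fam := true) (s1 := true) (s2 := false) (a := 0) (b := 1) (c := 1) (cn := .pnn) (n1 := ndB0q0) (n2 := ndB5q1) (pc := pcB1) (cut := cut_pm_011) (xt := Ext.none) (P1 := 0) (W1 := 536870912) (P2 := 536870912) (W2 := 536870912) (P3 := 1020054732) (W3 := 13421774) (N0 := 3) (En := eng) (mo := mog) (C1 := cd0q0) (C2 := cd5q1) (C3 := pd1)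
    rfl (fun _ => rfl) k0_pm_011

noncomputable def cut_pm_012 : Cut := Cut.of [[⟨3, 0, 0, 1449551462⟩], [⟨0, 0, 0, 38347922⟩, ⟨1, 1, 0, 38347922⟩, ⟨2, 1, 0, 38347922⟩]]

noncomputable def f_pm_012 : ℕ → ℕ → ℕ → ℕ → Bool := onCell 0 536870912 536870912 536870912 1020054732 13421774
    (rowB 3 eng mog cd0q0 cd5q1 pd2 0 true true false .pnp 0 1 2 (qsf 0 536870912 536870912 536870912 2) ndB0q0 ndB5q1 pcB2 cut_pm_012 Ext.none)

def k0_pm_012 : ∃ t, chk3 f_pm_012 t 1 1 1 = true :=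
  ⟨(a (b (l 6) (a (l 6) (a (l 6) (b (l 6) (b (a (l 6) (b (l 6) (l 15823016))) (b (a (l 6) (l 15556112)) (a (b (l 15690704) (l 15605680)) (l 15353312)))))))) (b (a (b (l 6) (a (l 6) (b (l 6) (a (l 6) (l 16221616))))) (b (a (b (l 6) (a (l 6) (l 16132576))) (b (a (l 555156413159) (l 15952152)) (l 15966672))) (a (b (a (l 16172464) (l 16082008)) (l 15870408)) (b (l 15926184) (l 15874984))))) (b (a (a (b (l 6) (a (l 6) (a (l 15971536) (l 15941232)))) (b (a (l 16146800) (l 16050912)) (b (l 15944336) (l 15701144)))) (a (b (a (l 15961048) (l 15875792)) (a (l 15761192) (l 15685496))) (b (l 15753296) (a (l 15613936) (l 15544480))))) (a (b (a (b (a (l 15932192) (l 15829064)) (a (l 15773784) (l 15674520))) (b (l 15569800) (a (l 15587240) (l 15510784)))) (a (b (a (l 15572456) (l 15498832)) (a (l 15393456) (l 15325368))) (b (a (l 15417168) (l 15347256)) (a (l 15250256) (l 15187832))))) (b (a (b (l 15514200) (l 15225568)) (b (l 15425056) (l 15307016))) (a (b (l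 15010664) (a (l 15136584) (l 15094752))) (b (a (l 15192176) (l 15152144)) (a (l 15060304) (l 15030944))))))))), by decide +kernel⟩

theorem c_pm_012 : CertB 0 536870912 536870912 536870912 1020054732 13421774 3 eng mog cd0q0 cd5q1 pd2 true true false .pnp 0 1 2
    ndB0q0 ndB5q1 pcB2 cut_pm_012 Ext.none :=
  certB0 (fam := true) (s1 := true) (s2 := false) (a := 0) (b := 1) (c := 2) (cn := .pnp) (n1 := ndB0q0) (n2 := ndB5q1) (pc := pcB2) (cut := cut_pm_012) (xt := Ext.none) (P1 := 0) (W1 := 536870912) (P2 := 536870912) (W2 := 536870912) (P3 := 1020054732) (W3 := 13421774) (N0 := 3) (En := eng) (mo := mog) (C1 := cd0q0) (C2 := cd5q1) (C3 := pd2)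
    rfl k0_pm_012

noncomputable def cut_pm_022 : Cut := Cut.of [[⟨3, 0, 0, 1449551462⟩], [⟨0, 0, 0, 38347922⟩, ⟨1, 1, 0, 38347922⟩, ⟨2, 1, 0, 38347922⟩]]

noncomputable def f_pm_022 : ℕ → ℕ → ℕ → ℕ → Bool := onCell 0 536870912 1073741824 536870912 1020054732 13421774
    (rowB 3 eng mog cd0q0 cd5q2 pd2 0 true true false .pp 0 2 2 (qsf 0 536870912 1073741824 536870912 2) ndB0q0 ndB5q2 pcB2 cut_pm_022 Ext.none)

def k0_pm_022 : ∃ t, chk3 f_pm_022 t 2 1 1 = true :=
  ⟨(b (a (b (a (l 6) (b (l 6) (b (l 6) (a (l 6) (l 16252744))))) (a (b (l 6) (a (b (l 6) (c (l 15829992) (l 15801456))) (b (a (l 6) (l 16004088)) (l 15790608)))) (b (b (a (l 6) (l 16267392)) (a (l 16096472) (l 16172280))) (a (b (l 16046448) (l 15964776)) (b (l 16087864) (l 16013240)))))) (b (b (a (a (l 6) (b (a (l 6) (l 15706312)) (l 15680872))) (b (a (l 15520968) (l 15249272)) (a (l 15635136) (l 15495856)))) (a (a (b (l 15926464) (l 16115096)) (b (l 15855632) (l 15947504))) (b (a (l 15775552)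 (l 15643648)) (a (l 15875288) (l 15771944))))) (b (b (a (a (l 16162896) (l 16045640)) (a (l 15939592) (l 15823080))) (a (l 15994784) (l 15788768))) (a (a (l 16079072) (l 16094904)) (b (l 15990192) (l 16024440)))))) (a (b (a (b (a (b (l 15688536) (l 15654936)) (b (l 15816760) (l 15747360))) (a (b (l 15588400) (l 15529496)) (b (l 15686480) (l 15634032)))) (b (b (l 15753720) (l 15756384)) (b (l 15724928) (l 15700536)))) (a (b (a (l 15441520) (l 15407280)) (a (l 15337568) (l 15460400))) (b (b (l 15722768) (l 15680384)) (l 15622824)))) (b (b (a (a (l 15961000) (l 15990200)) (l 15779712)) (a (b (l 15912104) (l 15877456)) (l 15952624))) (b (a (b (l 15848352) (l 2)) (l 2)) (l 2))))), by decide +kernel⟩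

def k1_pm_022 : ∃ t, chk3 f_pm_022 t 3 1 1 = true :=
  ⟨(b (b (a (b (a (b (a (a (l 15395440) (l 15349008)) (l 15247472)) (a (b (l 15446200) (l 15501888)) (l 15268224))) (b (a (l 15221928) (l 15167408)) (a (l 15333992) (l 15287152)))) (a (b (a (l 15459232) (l 15356496)) (a (l 15678664) (l 15494032))) (b (a (l 15451016) (l 15411960)) (a (l 15548360) (l 15517128))))) (b (a (b (a (l 15124240) (l 15090560)) (a (l 15251016) (l 15223568))) (b (a (l 15064256) (l 15042944)) (a (l 15202560) (l 15185504)))) (a (b (a (l 15382808) (l 15361400)) (l 15257088)) (b (l 15151176) (l 2))))) (a (a (b (b (a (l 15758272) (c (l 15740024) (l 15624464))) (a (l 15824864) (l 15755320))) (b (l 15723600) (l 15899664))) (b (b (a (l 15631400) (l 15608200)) (a (l 15704048) (l 15686512))) (a (b (l 15769968) (l 2)) (l 2)))) (a (b (a (l 15405640) (l 2)) (l 2)) (l 2)))) (a (b (a (b (b (l 15940960) (l 2)) (l 2)) (l 2)) (l 2)) (l 2))), by decide +kernel⟩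

theorem s2_pm_022 : ∃ t, chk3 f_pm_022 t 1 1 1 = true := ex3_a k0_pm_022 k1_pm_022

theorem c_pm_022 : CertB 0 536870912 1073741824 536870912 1020054732 13421774 3 eng mog cd0q0 cd5q2 pd2 true true false .pp 0 2 2
    ndB0q0 ndB5q2 pcB2 cut_pm_022 Ext.none :=
  certB0 (fam := true) (s1 := true) (s2 := false) (a := 0) (b := 2) (c := 2) (cn := .pp) (n1 := ndB0q0) (n2 := ndB5q2) (pc := pcB2) (cut := cut_pm_022) (xt := Ext.none) (P1 := 0) (W1 := 536870912) (P2 := 1073741824) (W2 := 536870912) (P3 := 1020054732) (W3 := 13421774) (N0 := 3) (En := eng) (mo := mog) (C1 := cd0q0) (C2 := cd5q2) (C3 := pd2)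
    rfl s2_pm_022

noncomputable def cut_pm_023 : Cut := Cut.of [[⟨3, 0, 0, 1449551462⟩]]

noncomputable def f_pm_023 : ℕ → ℕ → ℕ → ℕ → Bool := onCell 1610612736 536870912 1073741824 536870912 1020054732 13421774
    (rowB 3 eng mog cd0q0 cd5q2 pd3 2 true true false .up 0 2 3 (qsf 0 536870912 1073741824 536870912 3) ndB0q0 ndB5q2 pcB3 cut_pm_023 Ext.none)

def k0_pm_023 : ∃ t, chk3 f_pm_023 t 2 1 1 = true :=
  ⟨(b (b (a (b (a (b (a (l 14035664) (l 14002888)) (a (l 14264824) (l 14235416))) (b (l 2) (a (l 14207840) (l 2)))) (a (b (a (l 14493632) (l 14466600)) (a (l 14697640) (l 14672296))) (b (a (l 14442400) (l 14419472)) (a (l 14650632) (l 14631096))))) (b (l 2) (a (b (l 2) (l 14602896)) (l 2)))) (a (a (b (a (b (l 14882328) (l 14845960)) (b (l 14858208) (l 15025520))) (b (a (b (l 15191544) (l 15310008)) (l 14936912)) (a (l 15409848) (l 15149920)))) (b (b (l 14683504) (l 14916416)) (a (b (l 15159968) (l 15188296)) (l 15197200)))) (b (a (b (l 14798880)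 (l 14974648)) (b (l 2) (l 14949256))) (a (b (l 15133248) (l 15275752)) (b (l 15114488) (l 15263312)))))) (b (a (b (a (b (a (l 15724712) (l 15612880)) (a (l 15937704) (l 15827872))) (b (a (l 15461376) (l 15432128)) (a (l 15720648) (l 15617704)))) (a (a (b (l 15937784) (l 15733032)) (b (l 16017144) (l 15831568))) (a (l 15777232) (l 15781456)))) (a (b (a (b (l 15405616) (l 15542168)) (l 15274304)) (a (l 15810680) (b (l 15643704) (l 15808824)))) (b (b (l 15396520) (l 15514600)) (a (l 15665768) (l 15672544))))) (a (b (a (b (a (c (l 15400032) (l 15628192)) (l 15624736)) (a (l 15388032) (l 15438560))) (b (l 15644832) (a (l 15546320) (l 15654664)))) (a (b (a (l 15305048) (l 15422328)) (a (l 15168464) (l 15344408))) (b (a (l 15477624) (l 15534448)) (l 15498256)))) (a (b (a (l 15858712) (l 15955144)) (b (a (l 15614008) (l 15717720)) (l 15605864))) (b (a (l 15955736) (l 15883952)) (b (l 15890960) (l 15760704))))))), by decide +kernel⟩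

def k1_pm_023 : ∃ t, chk3 f_pm_023 t 3 1 1 = true :=
  ⟨(b (a (b (l 2) (a (b (l 2) (b (l 2) (l 15245912))) (l 2))) (l 2)) (a (b (a (b (l 15196920) (l 15669296)) (b (a (l 15437456) (l 2)) (l 15664104))) (a (b (a (l 15852544) (l 15694096)) (a (l 15972616) (l 15994384))) (b (l 15843504) (l 15770048)))) (b (a (b (l 2) (a (l 15663928) (l 2))) (l 2)) (a (b (a (l 15841592) (l 15843832)) (l 15980136)) (b (a (a (l 15868664) (l 2)) (l 2)) (a (a (l 15981992) (l 15997576)) (a (l 16034248) (l 4)))))))), by decide +kernel⟩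

theorem s2_pm_023 : ∃ t, chk3 f_pm_023 t 1 1 1 = true := ex3_a k0_pm_023 k1_pm_023

theorem c_pm_023 : CertB 0 536870912 1073741824 536870912 1020054732 13421774 3 eng mog cd0q0 cd5q2 pd3 true true false .up 0 2 3
    ndB0q0 ndB5q2 pcB3 cut_pm_023 Ext.none :=
  certB2 (fam := true) (s1 := true) (s2 := false) (a := 0) (b := 2) (c := 3) (cn := .up) (n1 := ndB0q0) (n2 := ndB5q2) (pc := pcB3) (cut := cut_pm_023) (xt := Ext.none) (P1 := 0) (W1 := 536870912) (P2 := 1073741824) (W2 := 536870912) (P3 := 1020054732) (W3 := 13421774) (N0 := 3) (En := eng) (mo := mog) (C1 := cd0q0) (C2 := cd5q2) (C3 := pd3)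
    rfl (fun _ => rfl) s2_pm_023

noncomputable def cut_pm_033 : Cut := Cut.of [[⟨3, 0, 0, 1449551462⟩]]

noncomputable def f_pm_033 : ℕ → ℕ → ℕ → ℕ → Bool := onCell 1610612736 536870912 0 1230186008 1020054732 13421774
    (rowB 3 eng mog cd0q0 cd5q3 pd3 2 true true false .pnn 0 3 3 (qsf 0 536870912 0 1230186008 3) ndB0q0 ndB5q3 pcB3 cut_pm_033 Ext.none)

def k0_pm_033 : ∃ t, chk3 f_pm_033 t 1 2 1 = true :=
  ⟨(a (l 1) (a (l 1) (b (l 4) (b (a (a (l 1) (l 4)) (l 4)) (b (a (a (l 1) (l 14914312)) (l 4)) (a (a (l 14882008) (l 15023976)) (a (l 15368848) (l 4)))))))), by decide +kernel⟩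

def k1_pm_033 : ∃ t, chk3 f_pm_033 t 1 6 1 = true :=
  ⟨(a (a (l 1) (b (l 1) (a (l 1) (b (l 1) (a (l 1) (b (l 1) (l 14947632))))))) (b (a (a (l 1) (b (l 282422840391) (a (l 14707696) (l 14855336)))) (a (a (b (b (l 14853752) (l 14952960)) (l 15118528)) (b (a (l 15104728) (l 15248480)) (a (l 15297312) (l 15405152)))) (a (a (b (l 15405304) (l 15523920)) (l 15608200)) (a (l 15769016) (l 4))))) (a (a (b (a (b (l 1) (l 14718368)) (b (l 14700912) (l 14836584))) (b (a (l 14888552) (l 15021424)) (a (l 15077184) (l 15216072)))) (b (a (b (l 14876648) (l 15017840)) (l 15023328)) (a (b (l 15178848) (l 15361008)) (l 15414712)))) (a (b (a (l 15364744) (l 15526496)) (a (l 15567456) (l 15706696))) (a (a (l 15738600) (b (l 15758400) (l 15883544))) (a (a (l 15895136) (l 15951760)) (a (l 15999584) (a (l 16011856) (a (l 16007680) (l 4)))))))))), by decide +kernel⟩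

def k2_pm_033 : ∃ t, chk3 f_pm_033 t 1 7 1 = true :=
  ⟨(a (b (a (l 1) (a (b (a (l 1) (l 260411316343)) (b (a (l 1) (l 14818336)) (a (l 14909184) (l 15064000)))) (b (a (l 14740632) (b (l 15013216) (l 15074544))) (b (a (l 14989680) (l 15169952)) (a (l 15223056) (l 15376776)))))) (a (b (a (l 1) (b (l 14951576) (a (l 15173936) (l 15323856)))) (a (b (a (l 1) (l 15267320)) (a (l 15226424) (b (l 15318704) (l 15348640)))) (b (a (b (l 15360456) (l 15387384)) (l 15472640)) (a (l 15429048) (l 15537344))))) (b (a (b (a (l 15181168) (l 15325856)) (a (l 15448472) (l 15578696))) (b (a (l 15480560) (l 15584664)) (l 15688520))) (a (b (a (l 15579600) (l 15632024)) (l 15609784)) (b (l 15713800) (l 15710152)))))) (b (a (a (b (a (b (l 15194040) (l 15259376)) (b (l 15368912) (l 15430816))) (b (l 15420896) (l 15576104))) (b (a (l 15537896) (l 15645328)) (b (l 15694616) (l 15795584)))) (a (b (a (l 15760752) (l 15864536)) (l 15940168)) (a (b (a (l 15941528) (l 15996328))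 (a (l 16040024) (l 16076312))) (a (a (b (l 16043144) (l 16108576)) (l 16099920)) (a (l 16062888) (a (l 15997560) (a (l 15923064) (b (l 16124416) (l 16178432))))))))) (a (b (a (b (l 15730664) (l 15810192)) (a (l 15871352) (l 15942456))) (a (b (l 15813344) (a (l 15805520) (l 15898880))) (b (l 15965128) (l 16033848)))) (a (b (l 15994024) (l 16075176)) (a (b (a (l 16100552) (l 16128288)) (a (l 16088080) (l 16087360))) (a (a (b (l 16149672) (l 16090960)) (l 16152568)) (a (l 16154968) (a (l 16178136) (a (l 16197328) (l 605823562711)))))))))), by decide +kernel⟩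

theorem s3_pm_033 : ∃ t, chk3 f_pm_033 t 1 3 1 = true := ex3_b k1_pm_033 k2_pm_033

theorem s4_pm_033 : ∃ t, chk3 f_pm_033 t 1 1 1 = true := ex3_b k0_pm_033 s3_pm_033

theorem c_pm_033 : CertB 0 536870912 0 1230186008 1020054732 13421774 3 eng mog cd0q0 cd5q3 pd3 true true false .pnn 0 3 3
    ndB0q0 ndB5q3 pcB3 cut_pm_033 Ext.none :=
  certB2 (fam := true) (s1 := true) (s2 := false) (a := 0) (b := 3) (c := 3) (cn := .pnn) (n1 := ndB0q0) (n2 := ndB5q3) (pc := pcB3) (cut := cut_pm_033) (xt := Ext.none) (P1 := 0) (W1 := 536870912) (P2 := 0) (W2 := 1230186008) (P3 := 1020054732) (W3 := 13421774) (N0 := 3) (En := eng) (mo := mog) (C1 := cd0q0) (C2 := cd5q3) (C3 := pd3)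
    rfl (fun _ => rfl) s4_pm_033

noncomputable def cut_pm_101 : Cut := Cut.of [[⟨3, 0, 0, 1449551462⟩]]

noncomputable def f_pm_101 : ℕ → ℕ → ℕ → ℕ → Bool := onCell 536870912 536870912 0 536870912 1020054732 13421774
    (rowB 3 eng mog cd0q1 cd5q0 pd1 2 true true false .npn 1 0 1 (qsf 536870912 536870912 0 536870912 1) ndB0q1 ndB5q0 pcB1 cut_pm_101 Ext.none)

def k0_pm_101 : ∃ t, chk3 f_pm_101 t 1 1 1 = true :=
  ⟨(a (b (a (l 6) (b (a (l 6) (b (a (l 6) (b (a (l 6) (l 16071552)) (l 6))) (l 6))) (l 6))) (l 6)) (b (a (b (a (b (b (a (a (l 15993992) (l 15901464)) (l 15627352)) (a (a (l 16085744) (l 15993736)) (l 15805696))) (a (b (a (l 6) (l 16094600)) (l 6)) (a (a (l 16076208) (l 16035648)) (l 15935632)))) (b (a (b (l 15628336) (l 15727480)) (b (l 15510528) (l 15614752))) (a (b (l 15827680) (l 15918984)) (b (l 15712216) (l 15801280))))) (a (b (a (l 6) (a (l 6) (b (l 16108128) (l 6)))) (l 6)) (b (a (a (l 16074552) (l 16008624)) (a (l 15948360) (l 15893808)))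 (a (l 6) (a (l 16082864) (l 16036552)))))) (b (a (b (a (b (l 15428048) (l 15529480)) (b (a (l 15385376) (l 15353360)) (l 15470288))) (a (l 15517464) (l 15555312))) (b (a (b (a (l 15275544) (l 15125576)) (a (l 15439784) (l 15387192))) (b (a (b (l 14845936) (l 15025800)) (b (l 14614992) (l 14810560))) (a (l 15270888) (l 15089584)))) (a (l 15510944) (b (a (l 15479008) (l 15391280)) (l 15561024))))) (a (b (a (l 15822416) (l 15746904)) (a (l 15961072) (l 15877976))) (b (a (l 15692320) (l 15656672)) (a (l 15814224) (l 15768576)))))) (a (b (l 6) (l 6)) (a (b (b (a (a (l 16064696) (l 16035288)) (l 15998560)) (a (l 6) (l 16034160))) (l 6)) (b (b (a (l 15925592) (l 15869520)) (a (l 16024080) (l 15965960))) (b (a (l 16026000) (l 16043000)) (a (l 6) (l 294236865975)))))))), by decide +kernel⟩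

theorem c_pm_101 : CertB 536870912 536870912 0 536870912 1020054732 13421774 3 eng mog cd0q1 cd5q0 pd1 true true false .npn 1 0 1
    ndB0q1 ndB5q0 pcB1 cut_pm_101 Ext.none :=
  certB2 (fam := true) (s1 := true) (s2 := false) (a := 1) (b := 0) (c := 1) (cn := .npn) (n1 := ndB0q1) (n2 := ndB5q0) (pc := pcB1) (cut := cut_pm_101) (xt := Ext.none) (P1 := 536870912) (W1 := 536870912) (P2 := 0) (W2 := 536870912) (P3 := 1020054732) (W3 := 13421774) (N0 := 3) (En := eng) (mo := mog) (C1 := cd0q1) (C2 := cd5q0) (C3 := pd1)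
    rfl (fun _ => rfl) k0_pm_101

noncomputable def cut_pm_102 : Cut := Cut.of [[⟨3, 0, 0, 1449551462⟩]]

noncomputable def f_pm_102 : ℕ → ℕ → ℕ → ℕ → Bool := onCell 536870912 536870912 1073741824 536870912 1020054732 13421774
    (rowB 3 eng mog cd0q1 cd5q0 pd2 1 true true false .npp 1 0 2 (qsf 536870912 536870912 0 536870912 2) ndB0q1 ndB5q0 pcB2 cut_pm_102 Ext.none)

def k0_pm_102 : ∃ t, chk3 f_pm_102 t 1 1 1 = true :=
  ⟨(a (b (b (a (b (a (a (l 15938176) (l 15878384)) (b (l 15826832) (l 15758632))) (a (a (l 2) (l 15773624)) (b (l 15695104) (l 15636032)))) (a (b (l 15686920) (l 15529320)) (b (l 15514400) (l 15382208)))) (a (a (l 2) (b (b (l 15580984) (l 2)) (l 2))) (a (b (l 15390528) (l 15268000)) (b (l 15227616) (l 15080136))))) (a (l 2) (b (a (l 2) (b (l 14949888) (l 2))) (l 2)))) (b (a (b (a (b (l 15256912) (l 15092912)) (b (a (l 15033608) (l 14861296)) (l 14741576))) (a (b (l 14950408) (l 14828728)) (b (l 14563920) (l 14411936)))) (b (a (b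 (a (l 14669680) (l 14455992)) (a (l 14431528) (l 14190968))) (b (a (b (l 14298904) (l 14140536)) (a (b (l 14096912) (l 13934976)) (l 13847472))) (a (b (l 13999304) (l 13879544)) (b (l 13743424) (a (l 13721552) (l 13620480)))))) (a (b (a (l 14222760) (l 13966232)) (a (l 14044352) (b (l 13842232) (l 13798160)))) (b (a (b (l 13789080) (l 13739232)) (a (l 13675768) (l 13608984))) (a (b (l 13724568) (l 13740072)) (a (l 13682296) (l 13658808))))))) (a (b (a (b (l 14726528) (l 14603208)) (b (l 14285240) (a (l 14312904) (l 14071904)))) (a (l 2) (b (a (l 2) (l 14060840)) (l 2)))) (b (a (b (a (l 13928128) (l 13789128)) (a (l 13916240) (l 13933408))) (b (a (l 13874152) (b (l 13779632) (l 13882736))) (a (l 13988312) (l 14070976)))) (a (b (l 14017096) (a (l 2) (l 14349240))) (b (a (l 14229528) (l 14375136)) (a (l 14503248) (b (l 14623264) (l 14748904))))))))), by decide +kernel⟩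

theorem c_pm_102 : CertB 536870912 536870912 0 536870912 1020054732 13421774 3 eng mog cd0q1 cd5q0 pd2 true true false .npp 1 0 2
    ndB0q1 ndB5q0 pcB2 cut_pm_102 Ext.none :=
  certB1 (fam := true) (s1 := true) (s2 := false) (a := 1) (b := 0) (c := 2) (cn := .npp) (n1 := ndB0q1) (n2 := ndB5q0) (pc := pcB2) (cut := cut_pm_102) (xt := Ext.none) (P1 := 536870912) (W1 := 536870912) (P2 := 0) (W2 := 536870912) (P3 := 1020054732) (W3 := 13421774) (N0 := 3) (En := eng) (mo := mog) (C1 := cd0q1) (C2 := cd5q0) (C3 := pd2)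
    rfl (fun _ => rfl) k0_pm_102

noncomputable def cut_pm_112 : Cut := Cut.of [[⟨3, 0, 0, 1449551462⟩]]

noncomputable def f_pm_112 : ℕ → ℕ → ℕ → ℕ → Bool := onCell 536870912 536870912 1073741824 536870912 1020054732 13421774
    (rowB 3 eng mog cd0q1 cd5q1 pd2 1 true true false .dn 1 1 2 (qsf 536870912 536870912 536870912 536870912 2) ndB0q1 ndB5q1 pcB2 cut_pm_112 Ext.none)

def k0_pm_112 : ∃ t, chk3 f_pm_112 t 1 1 1 = true :=
  ⟨(a (b (a (b (a (b (l 15903568) (l 15806392)) (b (l 15788816) (l 15662464))) (a (b (l 15724008) (l 15651864)) (b (l 15552776) (l 15456208)))) (b (a (b (l 1) (l 15525280)) (l 1)) (a (b (l 15387936) (l 15266760)) (l 247527292023)))) (a (b (a (b (l 15585008) (l 15495312)) (b (l 15368864) (l 15286600))) (a (b (a (b (l 15385296) (l 15288056)) (l 15361856)) (a (b (l 15170616) (l 15058072)) (b (l 15233256) (l 15126136)))) (b (l 15205240) (a (l 14991944) (l 15059424))))) (b (a (b (l 15158808) (l 15060904)) (b (l 14952200) (l 14838968)))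 (a (b (l 14969704) (l 14882176)) (b (l 14738496) (l 14648240)))))) (b (a (b (l 1) (a (l 277591548887) (l 1))) (l 1)) (a (b (a (b (l 14736568) (l 14609192)) (b (l 14294496) (l 14205872))) (a (b (l 14501104) (l 14410456)) (b (a (l 14248792) (l 14068056)) (a (l 14243376) (l 14185336))))) (a (b (b (l 1) (a (l 13921768) (l 1))) (b (l 14091392) (l 14299024))) (b (l 1) (b (a (l 14235008) (l 1)) (a (l 14509608) (l 262558725863)))))))), by decide +kernel⟩

theorem c_pm_112 : CertB 536870912 536870912 536870912 536870912 1020054732 13421774 3 eng mog cd0q1 cd5q1 pd2 true true false .dn 1 1 2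
    ndB0q1 ndB5q1 pcB2 cut_pm_112 Ext.none :=
  certB1 (fam := true) (s1 := true) (s2 := false) (a := 1) (b := 1) (c := 2) (cn := .dn) (n1 := ndB0q1) (n2 := ndB5q1) (pc := pcB2) (cut := cut_pm_112) (xt := Ext.none) (P1 := 536870912) (W1 := 536870912) (P2 := 536870912) (W2 := 536870912) (P3 := 1020054732) (W3 := 13421774) (N0 := 3) (En := eng) (mo := mog) (C1 := cd0q1) (C2 := cd5q1) (C3 := pd2)
    rfl (fun _ => rfl) k0_pm_112

noncomputable def cut_pm_113 : Cut := Cut.of [[⟨3, 0, 0, 1449551462⟩]]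

noncomputable def f_pm_113 : ℕ → ℕ → ℕ → ℕ → Bool := onCell 1610612736 536870912 536870912 536870912 1020054732 13421774
    (rowB 3 eng mog cd0q1 cd5q1 pd3 2 true true false .nn 1 1 3 (qsf 536870912 536870912 536870912 536870912 3) ndB0q1 ndB5q1 pcB3 cut_pm_113 Ext.none)

def k0_pm_113 : ∃ t, chk3 f_pm_113 t 1 1 1 = true :=
  ⟨(a (b (a (b (a (b (a (b (l 52306906423) (l 14895872)) (b (l 4) (l 14812696))) (a (l 15014952) (b (l 14873920) (l 14934952)))) (b (l 4) (a (b (l 4) (l 14850056)) (l 4)))) (a (b (a (l 15071368) (l 14980352)) (a (l 15016504) (l 14954160))) (b (a (l 14900392) (b (l 4) (l 14838064))) (a (l 14884592) (l 14819680))))) (b (l 4) (a (b (l 4) (a (l 14774400) (l 4))) (l 4)))) (b (a (a (b (l 14853552) (l 14655264)) (b (a (l 14779104) (l 14726808)) (a (l 14591528) (l 14548168)))) (a (b (a (l 14677056) (l 14640216)) (a (l 14506760) (l 14468664))) (b (a (b (l 4) (l 14586016)) (l 4)) (a (l 14439816) (l 14446904))))) (a (b (a (b (l 14464888)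 (l 14316040)) (b (l 14384784) (l 14239568))) (a (b (l 13979552) (a (l 14000864) (l 13965776))) (b (l 14073672) (a (l 13930320) (l 13893040))))) (b (a (a (l 14130392) (b (l 14288936) (l 14140368))) (a (l 14188392) (l 14206976))) (a (b (a (l 14013720) (l 13972520)) (l 13809912)) (a (b (l 13936208) (l 13765800)) (b (l 13912200) (l 13736136)))))))) (b (l 4) (a (a (b (l 4) (b (a (b (l 4) (l 14073744)) (l 4)) (a (b (l 13893744) (l 13716304)) (b (l 4) (l 13699448))))) (b (l 4) (l 4))) (b (l 4) (l 4))))), by decide +kernel⟩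

theorem c_pm_113 : CertB 536870912 536870912 536870912 536870912 1020054732 13421774 3 eng mog cd0q1 cd5q1 pd3 true true false .nn 1 1 3
    ndB0q1 ndB5q1 pcB3 cut_pm_113 Ext.none :=
  certB2 (fam := true) (s1 := true) (s2 := false) (a := 1) (b := 1) (c := 3) (cn := .nn) (n1 := ndB0q1) (n2 := ndB5q1) (pc := pcB3) (cut := cut_pm_113) (xt := Ext.none) (P1 := 536870912) (W1 := 536870912) (P2 := 536870912) (W2 := 536870912) (P3 := 1020054732) (W3 := 13421774) (N0 := 3) (En := eng) (mo := mog) (C1 := cd0q1) (C2 := cd5q1) (C3 := pd3)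
    rfl (fun _ => rfl) k0_pm_113

noncomputable def cut_pm_123 : Cut := Cut.of [[⟨3, 0, 0, 1449551462⟩]]

noncomputable def f_pm_123 : ℕ → ℕ → ℕ → ℕ → Bool := onCell 536870912 536870912 1610612736 536870912 1020054732 13421774
    (rowB 3 eng mog cd0q1 cd5q2 pd3 1 true true false .npn 1 2 3 (qsf 536870912 536870912 1073741824 536870912 3) ndB0q1 ndB5q2 pcB3 cut_pm_123 Ext.none)

def k0_pm_123 : ∃ t, chk3 f_pm_123 t 2 1 1 = true :=
  ⟨(b (b (a (a (b (a (b (l 13920288) (l 14119448)) (b (l 13701168) (l 13887136))) (a (b (l 14323416) (l 14529520)) (b (l 14089840) (l 14298520)))) (b (a (b (l 1) (l 13667928)) (l 1)) (a (b (l 13854072) (l 14059936)) (b (l 13633728) (l 13819504))))) (a (b (l 1) (a (b (l 1) (l 13597008)) (l 1))) (l 1))) (a (a (b (b (a (l 14710488) (l 14508776)) (a (l 14881472) (l 14693288))) (b (l 14766040) (l 15107072))) (b (a (b (l 14273088) (l 14487232)) (b (l 14028360) (l 14246072))) (b (a (l 14675072) (l 14464248)) (l 14524152)))) (a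 (b (a (b (l 13782048) (l 13994136)) (b (l 13556536) (l 13740808))) (a (b (l 14217008) (l 14439920)) (b (l 13956912) (l 14186328)))) (b (a (l 13430448) (l 1)) (a (b (l 13697136) (l 13921920)) (b (l 13469536) (l 13666296))))))) (a (b (b (a (b (l 15248904) (l 15379408)) (b (l 14842536) (l 15083024))) (a (a (l 15610520) (l 15494776)) (b (l 15145624) (l 15306448)))) (b (a (b (l 15713728) (l 15805608)) (b (a (l 15555640) (l 15460360)) (l 15652504))) (b (a (b (l 15881040) (l 15939232)) (l 15797936)) (b (l 15758064) (l 4))))) (b (b (a (b (a (l 14635696) (l 14418528)) (a (l 14821480) (l 14629656))) (b (a (l 14171224) (l 13912120)) (a (l 14428080) (l 14184104)))) (a (b (a (l 14999088) (l 14841480)) (l 15113576)) (b (a (l 14663336) (l 14460816)) (a (l 14891544) (l 14709960))))) (b (a (b (l 15270480) (l 15468064)) (b (l 14762624) (l 4))) (l 4))))), by decide +kernel⟩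

def k1_pm_123 : ∃ t, chk3 f_pm_123 t 3 1 1 = true :=
  ⟨(b (a (b (l 1) (a (b (l 1) (b (l 1) (l 13349936))) (l 1))) (l 1)) (a (b (b (a (b (l 13461656) (a (l 13916216) (l 13640880))) (b (l 1) (l 4))) (a (b (a (l 14208184) (l 4)) (l 4)) (l 4))) (l 4)) (l 4))), by decide +kernel⟩

theorem s2_pm_123 : ∃ t, chk3 f_pm_123 t 1 1 1 = true := ex3_a k0_pm_123 k1_pm_123

theorem c_pm_123 : CertB 536870912 536870912 1073741824 536870912 1020054732 13421774 3 eng mog cd0q1 cd5q2 pd3 true true false .npn 1 2 3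
    ndB0q1 ndB5q2 pcB3 cut_pm_123 Ext.none :=
  certB1 (fam := true) (s1 := true) (s2 := false) (a := 1) (b := 2) (c := 3) (cn := .npn) (n1 := ndB0q1) (n2 := ndB5q2) (pc := pcB3) (cut := cut_pm_123) (xt := Ext.none) (P1 := 536870912) (W1 := 536870912) (P2 := 1073741824) (W2 := 536870912) (P3 := 1020054732) (W3 := 13421774) (N0 := 3) (En := eng) (mo := mog) (C1 := cd0q1) (C2 := cd5q2) (C3 := pd3)
    rfl (fun _ => rfl) s2_pm_123

noncomputable def cut_pm_133 : Cut := Cut.of [[⟨3, 0, 0, 1449551462⟩]]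

noncomputable def f_pm_133 : ℕ → ℕ → ℕ → ℕ → Bool := onCell 536870912 536870912 0 1230186008 1020054732 13421774
    (rowB 3 eng mog cd0q1 cd5q3 pd3 0 true true false .dn 1 3 3 (qsf 536870912 536870912 0 1230186008 3) ndB0q1 ndB5q3 pcB3 cut_pm_133 Ext.none)

def k0_pm_133 : ∃ t, chk3 f_pm_133 t 1 1 1 = true :=
  ⟨(b (l 2) (b (l 2) (a (b (l 2) (l 4)) (l 2)))), by decide +kernel⟩

theorem c_pm_133 : CertB 536870912 536870912 0 1230186008 1020054732 13421774 3 eng mog cd0q1 cd5q3 pd3 true true false .dn 1 3 3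
    ndB0q1 ndB5q3 pcB3 cut_pm_133 Ext.none :=
  certB0 (fam := true) (s1 := true) (s2 := false) (a := 1) (b := 3) (c := 3) (cn := .dn) (n1 := ndB0q1) (n2 := ndB5q3) (pc := pcB3) (cut := cut_pm_133) (xt := Ext.none) (P1 := 536870912) (W1 := 536870912) (P2 := 0) (W2 := 1230186008) (P3 := 1020054732) (W3 := 13421774) (N0 := 3) (En := eng) (mo := mog) (C1 := cd0q1) (C2 := cd5q3) (C3 := pd3)
    rfl k0_pm_133

noncomputable def cut_pm_202 : Cut := Cut.of [[⟨3, 0, 0, 1449551462⟩]]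

noncomputable def f_pm_202 : ℕ → ℕ → ℕ → ℕ → Bool := onCell 0 536870912 1073741824 536870912 1020054732 13421774
    (rowB 3 eng mog cd0q2 cd5q0 pd2 1 true true false .pp 2 0 2 (qsf 0 536870912 0 536870912 2) ndB0q2 ndB5q0 pcB2 cut_pm_202 Ext.none)

def k0_pm_202 : ∃ t, chk3 f_pm_202 t 1 1 1 = true :=
  ⟨(b (a (b (b (l 1) (l 4)) (l 4)) (b (a (b (l 1) (b (a (l 1) (b (a (l 1) (l 13981344)) (a (l 14095768) (l 14035304)))) (a (l 14318816) (l 14146856)))) (a (b (b (l 1) (a (a (l 1) (l 13874296)) (b (l 13854016) (l 13858528)))) (b (a (b (l 13929944) (l 13963080)) (l 13869760)) (a (l 14023480) (l 13911248)))) (b (a (b (a (l 13876976) (b (l 1) (l 13847760))) (b (a (l 13835048) (l 13810456)) (l 13798768))) (b (a (l 13857664) (b (l 13883376) (l 13812576))) (a (l 13758144) (l 13726200)))) (b (a (l 13780008) (l 13736400)) (a (l 13784456) (l 13641152)))))) (a (b (a (b (l 14511384) (l 4)) (b (l 14326696) (l 14499496))) (a (l 4) (b (l 14673176) (l 14835328))))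 (a (b (b (l 14056680) (l 14172960)) (b (l 14314824) (l 14479824))) (b (a (l 13785560) (b (l 13642904) (l 13676408))) (a (l 14038176) (l 13779504))))))) (a (l 4) (a (b (b (a (l 4) (b (l 14974792) (l 4))) (l 4)) (l 4)) (b (a (b (b (l 14656032) (l 14821688)) (b (l 14965472) (l 15077960))) (b (a (l 14325784) (l 14010152)) (a (l 14680040) (l 14321024)))) (a (l 4) (b (a (l 14954328) (l 14664088)) (b (l 14951416) (l 4)))))))), by decide +kernel⟩

theorem c_pm_202 : CertB 0 536870912 0 536870912 1020054732 13421774 3 eng mog cd0q2 cd5q0 pd2 true true false .pp 2 0 2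
    ndB0q2 ndB5q0 pcB2 cut_pm_202 Ext.none :=
  certB1 (fam := true) (s1 := true) (s2 := false) (a := 2) (b := 0) (c := 2) (cn := .pp) (n1 := ndB0q2) (n2 := ndB5q0) (pc := pcB2) (cut := cut_pm_202) (xt := Ext.none) (P1 := 0) (W1 := 536870912) (P2 := 0) (W2 := 536870912) (P3 := 1020054732) (W3 := 13421774) (N0 := 3) (En := eng) (mo := mog) (C1 := cd0q2) (C2 := cd5q0) (C3 := pd2)
    rfl (fun _ => rfl) k0_pm_202

noncomputable def cut_pm_203 : Cut := Cut.of [[⟨3, 0, 0, 1449551462⟩]]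

noncomputable def f_pm_203 : ℕ → ℕ → ℕ → ℕ → Bool := onCell 0 536870912 1610612736 536870912 1020054732 13421774
    (rowB 3 eng mog cd0q2 cd5q0 pd3 1 true true false .up 2 0 3 (qsf 0 536870912 0 536870912 3) ndB0q2 ndB5q0 pcB3 cut_pm_203 Ext.none)

def k0_pm_203 : ∃ t, chk3 f_pm_203 t 1 1 1 = true :=
  ⟨(a (l 4) (b (l 4) (l 2))), by decide +kernel⟩

theorem c_pm_203 : CertB 0 536870912 0 536870912 1020054732 13421774 3 eng mog cd0q2 cd5q0 pd3 true true false .up 2 0 3
    ndB0q2 ndB5q0 pcB3 cut_pm_203 Ext.none :=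
  certB1 (fam := true) (s1 := true) (s2 := false) (a := 2) (b := 0) (c := 3) (cn := .up) (n1 := ndB0q2) (n2 := ndB5q0) (pc := pcB3) (cut := cut_pm_203) (xt := Ext.none) (P1 := 0) (W1 := 536870912) (P2 := 0) (W2 := 536870912) (P3 := 1020054732) (W3 := 13421774) (N0 := 3) (En := eng) (mo := mog) (C1 := cd0q2) (C2 := cd5q0) (C3 := pd3)
    rfl (fun _ => rfl) k0_pm_203

noncomputable def cut_pm_213 : Cut := Cut.of [[⟨3, 0, 0, 1449551462⟩]]

noncomputable def f_pm_213 : ℕ → ℕ → ℕ → ℕ → Bool := onCell 0 536870912 536870912 536870912 1020054732 13421774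
    (rowB 3 eng mog cd0q2 cd5q1 pd3 0 true true false .pnn 2 1 3 (qsf 0 536870912 536870912 536870912 3) ndB0q2 ndB5q1 pcB3 cut_pm_213 Ext.none)

def k0_pm_213 : ∃ t, chk3 f_pm_213 t 1 1 1 = true :=
  ⟨(a (l 4) (b (l 4) (l 4))), by decide +kernel⟩

theorem c_pm_213 : CertB 0 536870912 536870912 536870912 1020054732 13421774 3 eng mog cd0q2 cd5q1 pd3 true true false .pnn 2 1 3
    ndB0q2 ndB5q1 pcB3 cut_pm_213 Ext.none :=
  certB0 (fam := true) (s1 := true) (s2 := false) (a := 2) (b := 1) (c := 3) (cn := .pnn) (n1 := ndB0q2) (n2 := ndB5q1) (pc := pcB3) (cut := cut_pm_213) (xt := Ext.none) (P1 := 0) (W1 := 536870912) (P2 := 536870912) (W2 := 536870912) (P3 := 1020054732) (W3 := 13421774) (N0 := 3) (En := eng) (mo := mog) (C1 := cd0q2) (C2 := cd5q1) (C3 := pd3)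
    rfl k0_pm_213

noncomputable def cut_mm_001 : Cut := Cut.of [[⟨3, 0, 0, 1449551462⟩]]

noncomputable def f_mm_001 : ℕ → ℕ → ℕ → ℕ → Bool := onCell 0 536870912 0 536870912 1020054732 13421774
    (rowB 3 eng mog cd0q0 cd5q0 pd1 0 true false false .up 0 0 1 (qsf 0 536870912 0 536870912 1) ndB0q0 ndB5q0 pcB1 cut_mm_001 Ext.none)

def k0_mm_001 : ∃ t, chk3 f_mm_001 t 1 1 1 = true :=
  ⟨(l 4), by decide +kernel⟩

theorem c_mm_001 : CertB 0 536870912 0 536870912 1020054732 13421774 3 eng mog cd0q0 cd5q0 pd1 true false false .up 0 0 1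
    ndB0q0 ndB5q0 pcB1 cut_mm_001 Ext.none :=
  certB0 (fam := true) (s1 := false) (s2 := false) (a := 0) (b := 0) (c := 1) (cn := .up) (n1 := ndB0q0) (n2 := ndB5q0) (pc := pcB1) (cut := cut_mm_001) (xt := Ext.none) (P1 := 0) (W1 := 536870912) (P2 := 0) (W2 := 536870912) (P3 := 1020054732) (W3 := 13421774) (N0 := 3) (En := eng) (mo := mog) (C1 := cd0q0) (C2 := cd5q0) (C3 := pd1)
    rfl k0_mm_001

noncomputable def cut_mm_011 : Cut := Cut.of [[⟨3, 0, 0, 1449551462⟩]]

noncomputable def f_mm_011 : ℕ → ℕ → ℕ → ℕ → Bool := onCell 0 536870912 536870912 536870912 1020054732 13421774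
    (rowB 3 eng mog cd0q0 cd5q1 pd1 0 true false false .pnn 0 1 1 (qsf 0 536870912 536870912 536870912 1) ndB0q0 ndB5q1 pcB1 cut_mm_011 Ext.none)

def k0_mm_011 : ∃ t, chk3 f_mm_011 t 1 1 1 = true :=
  ⟨(l 4), by decide +kernel⟩

theorem c_mm_011 : CertB 0 536870912 536870912 536870912 1020054732 13421774 3 eng mog cd0q0 cd5q1 pd1 true false false .pnn 0 1 1
    ndB0q0 ndB5q1 pcB1 cut_mm_011 Ext.none :=
  certB0 (fam := true) (s1 := false) (s2 := false) (a := 0) (b := 1) (c := 1) (cn := .pnn) (n1 := ndB0q0) (n2 := ndB5q1) (pc := pcB1) (cut := cut_mm_011) (xt := Ext.none) (P1 := 0) (W1 := 536870912) (P2 := 536870912) (W2 := 536870912) (P3 := 1020054732) (W3 := 13421774) (N0 := 3) (En := eng) (mo := mog) (C1 := cd0q0) (C2 := cd5q1) (C3 := pd1)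
    rfl k0_mm_011

noncomputable def cut_mm_012 : Cut := Cut.of [[⟨3, 0, 0, 1449551462⟩]]

noncomputable def f_mm_012 : ℕ → ℕ → ℕ → ℕ → Bool := onCell 0 536870912 536870912 536870912 1020054732 13421774
    (rowB 3 eng mog cd0q0 cd5q1 pd2 0 true false false .pnp 0 1 2 (qsf 0 536870912 536870912 536870912 2) ndB0q0 ndB5q1 pcB2 cut_mm_012 Ext.none)

def k0_mm_012 : ∃ t, chk3 f_mm_012 t 1 1 1 = true :=
  ⟨(l 4), by decide +kernel⟩

theorem c_mm_012 : CertB 0 536870912 536870912 536870912 1020054732 13421774 3 eng mog cd0q0 cd5q1 pd2 true false false .pnp 0 1 2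
    ndB0q0 ndB5q1 pcB2 cut_mm_012 Ext.none :=
  certB0 (fam := true) (s1 := false) (s2 := false) (a := 0) (b := 1) (c := 2) (cn := .pnp) (n1 := ndB0q0) (n2 := ndB5q1) (pc := pcB2) (cut := cut_mm_012) (xt := Ext.none) (P1 := 0) (W1 := 536870912) (P2 := 536870912) (W2 := 536870912) (P3 := 1020054732) (W3 := 13421774) (N0 := 3) (En := eng) (mo := mog) (C1 := cd0q0) (C2 := cd5q1) (C3 := pd2)
    rfl k0_mm_012

noncomputable def cut_mm_022 : Cut := Cut.of [[⟨3, 0, 0, 1449551462⟩]]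

noncomputable def f_mm_022 : ℕ → ℕ → ℕ → ℕ → Bool := onCell 0 536870912 1073741824 536870912 1020054732 13421774
    (rowB 3 eng mog cd0q0 cd5q2 pd2 0 true false false .pp 0 2 2 (qsf 0 536870912 1073741824 536870912 2) ndB0q0 ndB5q2 pcB2 cut_mm_022 Ext.none)

def k0_mm_022 : ∃ t, chk3 f_mm_022 t 1 1 1 = true :=
  ⟨(l 4), by decide +kernel⟩

theorem c_mm_022 : CertB 0 536870912 1073741824 536870912 1020054732 13421774 3 eng mog cd0q0 cd5q2 pd2 true false false .pp 0 2 2
    ndB0q0 ndB5q2 pcB2 cut_mm_022 Ext.none :=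
  certB0 (fam := true) (s1 := false) (s2 := false) (a := 0) (b := 2) (c := 2) (cn := .pp) (n1 := ndB0q0) (n2 := ndB5q2) (pc := pcB2) (cut := cut_mm_022) (xt := Ext.none) (P1 := 0) (W1 := 536870912) (P2 := 1073741824) (W2 := 536870912) (P3 := 1020054732) (W3 := 13421774) (N0 := 3) (En := eng) (mo := mog) (C1 := cd0q0) (C2 := cd5q2) (C3 := pd2)
    rfl k0_mm_022

noncomputable def cut_mm_023 : Cut := Cut.of [[⟨3, 0, 0, 1449551462⟩]]

noncomputable def f_mm_023 : ℕ → ℕ → ℕ → ℕ → Bool := onCell 0 536870912 1073741824 536870912 1020054732 13421774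
    (rowB 3 eng mog cd0q0 cd5q2 pd3 0 true false false .up 0 2 3 (qsf 0 536870912 1073741824 536870912 3) ndB0q0 ndB5q2 pcB3 cut_mm_023 Ext.none)

def k0_mm_023 : ∃ t, chk3 f_mm_023 t 1 1 1 = true :=
  ⟨(l 4), by decide +kernel⟩

theorem c_mm_023 : CertB 0 536870912 1073741824 536870912 1020054732 13421774 3 eng mog cd0q0 cd5q2 pd3 true false false .up 0 2 3
    ndB0q0 ndB5q2 pcB3 cut_mm_023 Ext.none :=
  certB0 (fam := true) (s1 := false) (s2 := false) (a := 0) (b := 2) (c := 3) (cn := .up) (n1 := ndB0q0) (n2 := ndB5q2) (pc := pcB3) (cut := cut_mm_023) (xt := Ext.none) (P1 := 0) (W1 := 536870912) (P2 := 1073741824) (W2 := 536870912) (P3 := 1020054732) (W3 := 13421774) (N0 := 3) (En := eng) (mo := mog) (C1 := cd0q0) (C2 := cd5q2) (C3 := pd3)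
    rfl k0_mm_023

noncomputable def cut_mm_033 : Cut := Cut.of [[⟨3, 0, 0, 1449551462⟩]]

noncomputable def f_mm_033 : ℕ → ℕ → ℕ → ℕ → Bool := onCell 0 536870912 0 1230186008 1020054732 13421774
    (rowB 3 eng mog cd0q0 cd5q3 pd3 0 true false false .pnn 0 3 3 (qsf 0 536870912 0 1230186008 3) ndB0q0 ndB5q3 pcB3 cut_mm_033 Ext.none)

def k0_mm_033 : ∃ t, chk3 f_mm_033 t 1 1 1 = true :=
  ⟨(l 4), by decide +kernel⟩

theorem c_mm_033 : CertB 0 536870912 0 1230186008 1020054732 13421774 3 eng mog cd0q0 cd5q3 pd3 true false false .pnn 0 3 3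
    ndB0q0 ndB5q3 pcB3 cut_mm_033 Ext.none :=
  certB0 (fam := true) (s1 := false) (s2 := false) (a := 0) (b := 3) (c := 3) (cn := .pnn) (n1 := ndB0q0) (n2 := ndB5q3) (pc := pcB3) (cut := cut_mm_033) (xt := Ext.none) (P1 := 0) (W1 := 536870912) (P2 := 0) (W2 := 1230186008) (P3 := 1020054732) (W3 := 13421774) (N0 := 3) (En := eng) (mo := mog) (C1 := cd0q0) (C2 := cd5q3) (C3 := pd3)
    rfl k0_mm_033

noncomputable def cut_mm_101 : Cut := Cut.of [[⟨3, 0, 0, 1449551462⟩]]

noncomputable def f_mm_101 : ℕ → ℕ → ℕ → ℕ → Bool := onCell 536870912 536870912 0 536870912 1020054732 13421774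
    (rowB 3 eng mog cd0q1 cd5q0 pd1 0 true false false .npn 1 0 1 (qsf 536870912 536870912 0 536870912 1) ndB0q1 ndB5q0 pcB1 cut_mm_101 Ext.none)

def k0_mm_101 : ∃ t, chk3 f_mm_101 t 1 1 1 = true :=
  ⟨(l 4), by decide +kernel⟩

theorem c_mm_101 : CertB 536870912 536870912 0 536870912 1020054732 13421774 3 eng mog cd0q1 cd5q0 pd1 true false false .npn 1 0 1
    ndB0q1 ndB5q0 pcB1 cut_mm_101 Ext.none :=
  certB0 (fam := true) (s1 := false) (s2 := false) (a := 1) (b := 0) (c := 1) (cn := .npn) (n1 := ndB0q1) (n2 := ndB5q0) (pc := pcB1) (cut := cut_mm_101) (xt := Ext.none) (P1 := 536870912) (W1 := 536870912) (P2 := 0) (W2 := 536870912) (P3 := 1020054732) (W3 := 13421774) (N0 := 3) (En := eng) (mo := mog) (C1 := cd0q1) (C2 := cd5q0) (C3 := pd1)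
    rfl k0_mm_101

noncomputable def cut_mm_102 : Cut := Cut.of [[⟨3, 0, 0, 1449551462⟩]]

noncomputable def f_mm_102 : ℕ → ℕ → ℕ → ℕ → Bool := onCell 536870912 536870912 0 536870912 1020054732 13421774
    (rowB 3 eng mog cd0q1 cd5q0 pd2 0 true false false .npp 1 0 2 (qsf 536870912 536870912 0 536870912 2) ndB0q1 ndB5q0 pcB2 cut_mm_102 Ext.none)

def k0_mm_102 : ∃ t, chk3 f_mm_102 t 1 1 1 = true :=
  ⟨(l 4), by decide +kernel⟩

theorem c_mm_102 : CertB 536870912 536870912 0 536870912 1020054732 13421774 3 eng mog cd0q1 cd5q0 pd2 true false false .npp 1 0 2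
    ndB0q1 ndB5q0 pcB2 cut_mm_102 Ext.none :=
  certB0 (fam := true) (s1 := false) (s2 := false) (a := 1) (b := 0) (c := 2) (cn := .npp) (n1 := ndB0q1) (n2 := ndB5q0) (pc := pcB2) (cut := cut_mm_102) (xt := Ext.none) (P1 := 536870912) (W1 := 536870912) (P2 := 0) (W2 := 536870912) (P3 := 1020054732) (W3 := 13421774) (N0 := 3) (En := eng) (mo := mog) (C1 := cd0q1) (C2 := cd5q0) (C3 := pd2)
    rfl k0_mm_102

noncomputable def cut_mm_112 : Cut := Cut.of [[⟨3, 0, 0, 1449551462⟩]]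

noncomputable def f_mm_112 : ℕ → ℕ → ℕ → ℕ → Bool := onCell 536870912 536870912 536870912 536870912 1020054732 13421774
    (rowB 3 eng mog cd0q1 cd5q1 pd2 0 true false false .dn 1 1 2 (qsf 536870912 536870912 536870912 536870912 2) ndB0q1 ndB5q1 pcB2 cut_mm_112 Ext.none)

def k0_mm_112 : ∃ t, chk3 f_mm_112 t 1 1 1 = true :=
  ⟨(l 4), by decide +kernel⟩

theorem c_mm_112 : CertB 536870912 536870912 536870912 536870912 1020054732 13421774 3 eng mog cd0q1 cd5q1 pd2 true false false .dn 1 1 2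
    ndB0q1 ndB5q1 pcB2 cut_mm_112 Ext.none :=
  certB0 (fam := true) (s1 := false) (s2 := false) (a := 1) (b := 1) (c := 2) (cn := .dn) (n1 := ndB0q1) (n2 := ndB5q1) (pc := pcB2) (cut := cut_mm_112) (xt := Ext.none) (P1 := 536870912) (W1 := 536870912) (P2 := 536870912) (W2 := 536870912) (P3 := 1020054732) (W3 := 13421774) (N0 := 3) (En := eng) (mo := mog) (C1 := cd0q1) (C2 := cd5q1) (C3 := pd2)
    rfl k0_mm_112

noncomputable def cut_mm_113 : Cut := Cut.of [[⟨3, 0, 0, 1449551462⟩]]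

noncomputable def f_mm_113 : ℕ → ℕ → ℕ → ℕ → Bool := onCell 536870912 536870912 536870912 536870912 1020054732 13421774
    (rowB 3 eng mog cd0q1 cd5q1 pd3 0 true false false .nn 1 1 3 (qsf 536870912 536870912 536870912 536870912 3) ndB0q1 ndB5q1 pcB3 cut_mm_113 Ext.none)

def k0_mm_113 : ∃ t, chk3 f_mm_113 t 1 1 1 = true :=
  ⟨(l 4), by decide +kernel⟩

theorem c_mm_113 : CertB 536870912 536870912 536870912 536870912 1020054732 13421774 3 eng mog cd0q1 cd5q1 pd3 true false false .nn 1 1 3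
    ndB0q1 ndB5q1 pcB3 cut_mm_113 Ext.none :=
  certB0 (fam := true) (s1 := false) (s2 := false) (a := 1) (b := 1) (c := 3) (cn := .nn) (n1 := ndB0q1) (n2 := ndB5q1) (pc := pcB3) (cut := cut_mm_113) (xt := Ext.none) (P1 := 536870912) (W1 := 536870912) (P2 := 536870912) (W2 := 536870912) (P3 := 1020054732) (W3 := 13421774) (N0 := 3) (En := eng) (mo := mog) (C1 := cd0q1) (C2 := cd5q1) (C3 := pd3)
    rfl k0_mm_113

noncomputable def cut_mm_123 : Cut := Cut.of [[⟨3, 0, 0, 1449551462⟩]]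

noncomputable def f_mm_123 : ℕ → ℕ → ℕ → ℕ → Bool := onCell 536870912 536870912 1073741824 536870912 1020054732 13421774
    (rowB 3 eng mog cd0q1 cd5q2 pd3 0 true false false .npn 1 2 3 (qsf 536870912 536870912 1073741824 536870912 3) ndB0q1 ndB5q2 pcB3 cut_mm_123 Ext.none)

def k0_mm_123 : ∃ t, chk3 f_mm_123 t 1 1 1 = true :=
  ⟨(l 4), by decide +kernel⟩

theorem c_mm_123 : CertB 536870912 536870912 1073741824 536870912 1020054732 13421774 3 eng mog cd0q1 cd5q2 pd3 true false false .npn 1 2 3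
    ndB0q1 ndB5q2 pcB3 cut_mm_123 Ext.none :=
  certB0 (fam := true) (s1 := false) (s2 := false) (a := 1) (b := 2) (c := 3) (cn := .npn) (n1 := ndB0q1) (n2 := ndB5q2) (pc := pcB3) (cut := cut_mm_123) (xt := Ext.none) (P1 := 536870912) (W1 := 536870912) (P2 := 1073741824) (W2 := 536870912) (P3 := 1020054732) (W3 := 13421774) (N0 := 3) (En := eng) (mo := mog) (C1 := cd0q1) (C2 := cd5q2) (C3 := pd3)
    rfl k0_mm_123

noncomputable def cut_mm_133 : Cut := Cut.of [[⟨3, 0, 0, 1449551462⟩]]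

noncomputable def f_mm_133 : ℕ → ℕ → ℕ → ℕ → Bool := onCell 536870912 536870912 0 1230186008 1020054732 13421774
    (rowB 3 eng mog cd0q1 cd5q3 pd3 0 true false false .dn 1 3 3 (qsf 536870912 536870912 0 1230186008 3) ndB0q1 ndB5q3 pcB3 cut_mm_133 Ext.none)

def k0_mm_133 : ∃ t, chk3 f_mm_133 t 1 1 1 = true :=
  ⟨(l 4), by decide +kernel⟩

theorem c_mm_133 : CertB 536870912 536870912 0 1230186008 1020054732 13421774 3 eng mog cd0q1 cd5q3 pd3 true false false .dn 1 3 3
    ndB0q1 ndB5q3 pcB3 cut_mm_133 Ext.none :=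
  certB0 (fam := true) (s1 := false) (s2 := false) (a := 1) (b := 3) (c := 3) (cn := .dn) (n1 := ndB0q1) (n2 := ndB5q3) (pc := pcB3) (cut := cut_mm_133) (xt := Ext.none) (P1 := 536870912) (W1 := 536870912) (P2 := 0) (W2 := 1230186008) (P3 := 1020054732) (W3 := 13421774) (N0 := 3) (En := eng) (mo := mog) (C1 := cd0q1) (C2 := cd5q3) (C3 := pd3)
    rfl k0_mm_133

noncomputable def cut_mm_202 : Cut := Cut.of [[⟨3, 0, 0, 1449551462⟩]]

noncomputable def f_mm_202 : ℕ → ℕ → ℕ → ℕ → Bool := onCell 0 536870912 0 536870912 1020054732 13421774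
    (rowB 3 eng mog cd0q2 cd5q0 pd2 0 true false false .pp 2 0 2 (qsf 0 536870912 0 536870912 2) ndB0q2 ndB5q0 pcB2 cut_mm_202 Ext.none)

def k0_mm_202 : ∃ t, chk3 f_mm_202 t 1 1 1 = true :=
  ⟨(l 4), by decide +kernel⟩

theorem c_mm_202 : CertB 0 536870912 0 536870912 1020054732 13421774 3 eng mog cd0q2 cd5q0 pd2 true false false .pp 2 0 2
    ndB0q2 ndB5q0 pcB2 cut_mm_202 Ext.none :=
  certB0 (fam := true) (s1 := false) (s2 := false) (a := 2) (b := 0) (c := 2) (cn := .pp) (n1 := ndB0q2) (n2 := ndB5q0) (pc := pcB2) (cut := cut_mm_202) (xt := Ext.none) (P1 := 0) (W1 := 536870912) (P2 := 0) (W2 := 536870912) (P3 := 1020054732) (W3 := 13421774) (N0 := 3) (En := eng) (mo := mog) (C1 := cd0q2) (C2 := cd5q0) (C3 := pd2)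
    rfl k0_mm_202

noncomputable def cut_mm_203 : Cut := Cut.of [[⟨3, 0, 0, 1449551462⟩]]

noncomputable def f_mm_203 : ℕ → ℕ → ℕ → ℕ → Bool := onCell 0 536870912 0 536870912 1020054732 13421774
    (rowB 3 eng mog cd0q2 cd5q0 pd3 0 true false false .up 2 0 3 (qsf 0 536870912 0 536870912 3) ndB0q2 ndB5q0 pcB3 cut_mm_203 Ext.none)

def k0_mm_203 : ∃ t, chk3 f_mm_203 t 1 1 1 = true :=
  ⟨(l 4), by decide +kernel⟩

theorem c_mm_203 : CertB 0 536870912 0 536870912 1020054732 13421774 3 eng mog cd0q2 cd5q0 pd3 true false false .up 2 0 3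
    ndB0q2 ndB5q0 pcB3 cut_mm_203 Ext.none :=
  certB0 (fam := true) (s1 := false) (s2 := false) (a := 2) (b := 0) (c := 3) (cn := .up) (n1 := ndB0q2) (n2 := ndB5q0) (pc := pcB3) (cut := cut_mm_203) (xt := Ext.none) (P1 := 0) (W1 := 536870912) (P2 := 0) (W2 := 536870912) (P3 := 1020054732) (W3 := 13421774) (N0 := 3) (En := eng) (mo := mog) (C1 := cd0q2) (C2 := cd5q0) (C3 := pd3)
    rfl k0_mm_203

noncomputable def cut_mm_213 : Cut := Cut.of [[⟨3, 0, 0, 1449551462⟩]]

noncomputable def f_mm_213 : ℕ → ℕ → ℕ → ℕ → Bool := onCell 0 536870912 536870912 536870912 1020054732 13421774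
    (rowB 3 eng mog cd0q2 cd5q1 pd3 0 true false false .pnn 2 1 3 (qsf 0 536870912 536870912 536870912 3) ndB0q2 ndB5q1 pcB3 cut_mm_213 Ext.none)

def k0_mm_213 : ∃ t, chk3 f_mm_213 t 1 1 1 = true :=
  ⟨(l 4), by decide +kernel⟩

theorem c_mm_213 : CertB 0 536870912 536870912 536870912 1020054732 13421774 3 eng mog cd0q2 cd5q1 pd3 true false false .pnn 2 1 3
    ndB0q2 ndB5q1 pcB3 cut_mm_213 Ext.none :=
  certB0 (fam := true) (s1 := false) (s2 := false) (a := 2) (b := 1) (c := 3) (cn := .pnn) (n1 := ndB0q2) (n2 := ndB5q1) (pc := pcB3) (cut := cut_mm_213) (xt := Ext.none) (P1 := 0) (W1 := 536870912) (P2 := 536870912) (W2 := 536870912) (P3 := 1020054732) (W3 := 13421774) (N0 := 3) (En := eng) (mo := mog) (C1 := cd0q2) (C2 := cd5q1) (C3 := pd3)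
    rfl k0_mm_213

end Pool.Agent.Strip051.G.I9500_9625.Tab.C.BA05

namespace Pool.Agent.Strip051.G.I9500_9625.Tab.C.BA11

open Pool.Agent.Strip051.PB Pool.Agent.Strip051.PB.T
open Pool.Agent.Strip051.G.I9500_9625.Tab

noncomputable def f_pp_001 : ℕ → ℕ → ℕ → ℕ → Bool := onCell 0 536870912 0 536870912 1020054732 13421774
    (rowB 3 eng mog cd1q0 cd1q0 pd1 0 true true true .up 0 0 1 (qsf 0 536870912 0 536870912 1) ndB1q0 ndB1q0 pcB1 Cut.none Ext.none)

def k0_pp_001 : ∃ t, chk3 f_pp_001 t 1 1 1 = true :=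
  ⟨(l 4), by decide +kernel⟩

theorem c_pp_001 : CertB 0 536870912 0 536870912 1020054732 13421774 3 eng mog cd1q0 cd1q0 pd1 true true true .up 0 0 1
    ndB1q0 ndB1q0 pcB1 Cut.none Ext.none :=
  certB0 (fam := true) (s1 := true) (s2 := true) (a := 0) (b := 0) (c := 1) (cn := .up) (n1 := ndB1q0) (n2 := ndB1q0) (pc := pcB1) (cut := Cut.none) (xt := Ext.none) (P1 := 0) (W1 := 536870912) (P2 := 0) (W2 := 536870912) (P3 := 1020054732) (W3 := 13421774) (N0 := 3) (En := eng) (mo := mog) (C1 := cd1q0) (C2 := cd1q0) (C3 := pd1)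
    rfl k0_pp_001

noncomputable def f_pp_011 : ℕ → ℕ → ℕ → ℕ → Bool := onCell 0 536870912 536870912 536870912 1020054732 13421774
    (rowB 3 eng mog cd1q0 cd1q1 pd1 0 true true true .pnn 0 1 1 (qsf 0 536870912 536870912 536870912 1) ndB1q0 ndB1q1 pcB1 Cut.none Ext.none)

def k0_pp_011 : ∃ t, chk3 f_pp_011 t 1 1 1 = true :=
  ⟨(l 4), by decide +kernel⟩

theorem c_pp_011 : CertB 0 536870912 536870912 536870912 1020054732 13421774 3 eng mog cd1q0 cd1q1 pd1 true true true .pnn 0 1 1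
    ndB1q0 ndB1q1 pcB1 Cut.none Ext.none :=
  certB0 (fam := true) (s1 := true) (s2 := true) (a := 0) (b := 1) (c := 1) (cn := .pnn) (n1 := ndB1q0) (n2 := ndB1q1) (pc := pcB1) (cut := Cut.none) (xt := Ext.none) (P1 := 0) (W1 := 536870912) (P2 := 536870912) (W2 := 536870912) (P3 := 1020054732) (W3 := 13421774) (N0 := 3) (En := eng) (mo := mog) (C1 := cd1q0) (C2 := cd1q1) (C3 := pd1)
    rfl k0_pp_011

noncomputable def f_pp_012 : ℕ → ℕ → ℕ → ℕ → Bool := onCell 0 536870912 536870912 536870912 1020054732 13421774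
    (rowB 3 eng mog cd1q0 cd1q1 pd2 0 true true true .pnp 0 1 2 (qsf 0 536870912 536870912 536870912 2) ndB1q0 ndB1q1 pcB2 Cut.none Ext.none)

def k0_pp_012 : ∃ t, chk3 f_pp_012 t 1 1 1 = true :=
  ⟨(l 4), by decide +kernel⟩

theorem c_pp_012 : CertB 0 536870912 536870912 536870912 1020054732 13421774 3 eng mog cd1q0 cd1q1 pd2 true true true .pnp 0 1 2
    ndB1q0 ndB1q1 pcB2 Cut.none Ext.none :=
  certB0 (fam := true) (s1 := true) (s2 := true) (a := 0) (b := 1) (c := 2) (cn := .pnp) (n1 := ndB1q0) (n2 := ndB1q1) (pc := pcB2) (cut := Cut.none) (xt := Ext.none) (P1 := 0) (W1 := 536870912) (P2 := 536870912) (W2 := 536870912) (P3 := 1020054732) (W3 := 13421774) (N0 := 3) (En := eng) (mo := mog) (C1 := cd1q0) (C2 := cd1q1) (C3 := pd2)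
    rfl k0_pp_012

noncomputable def cut_pp_022_a : Cut := Cut.of [[⟨0, 0, 0, 38347922⟩, ⟨1, 1, 0, 38347922⟩, ⟨2, 1, 0, 38347922⟩]]

noncomputable def f_pp_022_a : ℕ → ℕ → ℕ → ℕ → Bool := onCell 0 536870912 0 536870912 1020054732 13421774
    (rowB 3 eng mog cd1q0 cd1q2a pd2 0 true true true .pp 0 2 2 (qsf 0 536870912 0 536870912 2) ndB1q0 ndB1q2a pcB2 cut_pp_022_a Ext.none)

def k0_pp_022_a : ∃ t, chk3 f_pp_022_a t 4 2 1 = true :=
  ⟨(a (b (b (a (b (a (l 15780016) (l 15663504)) (a (l 15735000) (l 15700616))) (b (a (b (l 15533816) (l 15553784)) (l 15506072)) (l 15635808))) (a (a (l 15900672) (l 15851608)) (a (l 15817144) (l 15796520)))) (b (a (a (b (l 16040096) (l 16134160)) (l 15991448)) (b (l 15973192) (l 16083744))) (a (a (b (l 16226800) (l 16316736)) (b (l 16202760) (l 16298288))) (a (b (l 16192016) (l 16292936)) (b (l 16194032) (l 16299856)))))) (b (a (b (a (l 15540464) (l 15529848)) (a (l 15789000) (l 15793880))) (b (a (l 15510840) (l 15482776))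 (a (l 15810480) (l 15817168)))) (b (a (a (l 16012360) (l 15945824)) (a (l 15911256) (l 15928960))) (a (b (a (l 16208016) (l 16233256)) (a (l 16318608) (l 16348352))) (b (a (l 16269032) (l 16314664)) (a (l 16388368) (l 16437952))))))), by decide +kernel⟩

def k1_pp_022_a : ∃ t, chk3 f_pp_022_a t 4 6 1 = true :=
  ⟨(a (b (a (b (a (l 16360456) (l 16389136)) (a (b (l 16462880) (l 16501272)) (l 16410904))) (b (a (l 16388576) (l 16400064)) (a (l 16456808) (l 16472584)))) (a (a (b (b (l 16516848) (a (l 16575680) (l 16570264))) (b (c (l 16579432) (l 16567496)) (a (l 16593792) (l 16631824)))) (b (b (l 16532344) (l 16547800)) (b (l 16581888) (l 16592488)))) (b (a (b (l 16539568) (l 16556984)) (b (l 16558344) (l 16577720))) (a (b (l 16613872) (l 16626168)) (b (l 16636576) (l 16671632)))))) (b (a (b (a (l 16423096) (l 16456896)) (a (l 16499408) (b (l 16533432) (l 16581832)))) (b (a (l 16479768) (l 16532912)) (a (l 16563208) (l 34594133991)))) (a (b (a (l 16567480)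 (l 16608144)) (a (b (l 16669784) (l 16666576)) (b (l 16638616) (a (l 16658560) (l 16657920))))) (b (a (b (l 16664536) (l 16610840)) (b (l 16626648) (l 16630352))) (a (b (l 104924432119) (l 4)) (l 4)))))), by decide +kernel⟩

def k2_pp_022_a : ∃ t, chk3 f_pp_022_a t 4 7 1 = true :=
  ⟨(a (b (a (b (a (b (a (l 16578232) (l 16614960)) (a (b (l 16606576) (l 16613200)) (l 16603000))) (b (a (l 16648760) (l 16659344)) (a (l 16635784) (l 16665800)))) (a (b (a (b (l 16620888) (a (l 16646472) (l 16654480))) (b (l 16634576) (l 16643480))) (a (b (a (l 16655976) (l 16664328)) (a (l 16666312) (l 16674992))) (b (l 16653520) (l 16659312)))) (b (a (b (l 16645072) (l 16653432)) (c (l 16682152) (l 16653072))) (a (b (l 16663288) (l 16674672)) (a (l 16673896) (l 16697384)))))) (b (a (b (l 16627440) (a (l 16672744) (l 16676584))) (b (l 16672432) (a (l 16677504) (l 16676136)))) (a (b (a (l 16662496) (l 16686888)) (a (b (l 16674488) (l 16705264)) (b (l 16676648) (l 16684992))))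 (b (a (l 16687624) (l 146800395879)) (a (l 158074704695) (l 4)))))) (a (b (a (b (a (b (a (l 16656488) (l 16665528)) (a (l 16668424) (l 16677856))) (b (a (l 16673312) (l 16679832)) (a (l 16686024) (l 16713904)))) (a (a (l 6) (b (l 16690968) (l 6))) (b (a (l 16699560) (l 16706880)) (a (c (l 16715240) (l 16712512)) (l 16721656))))) (b (a (b (l 16687232) (c (l 16724264) (l 16698592))) (b (l 16693496) (b (l 16724616) (l 16710448)))) (a (b (b (l 16711776) (l 16719280)) (a (l 16725960) (l 76470461223))) (b (a (l 16720112) (l 16719472)) (l 4))))) (a (b (l 6) (l 6)) (b (a (b (a (b (l 16730752) (l 92576609911)) (l 4)) (l 4)) (l 4)) (l 4)))) (b (a (b (a (b (l 16689936) (l 169885936183)) (l 4)) (l 4)) (l 4)) (l 4)))) (b (a (b (a (b (a (l 16667856) (l 16644280)) (a (l 16654128) (l 4))) (l 4)) (l 4)) (l 4)) (l 4))), by decide +kernel⟩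

def k3_pp_022_a : ∃ t, chk3 f_pp_022_a t 5 1 1 = true :=
  ⟨(b (b (a (a (b (a (l 15486928) (l 15459760)) (a (l 15855208) (l 15861048))) (b (a (l 15631304) (l 15707336)) (a (l 15959872) (l 16046168)))) (b (a (a (l 15771104) (l 15842960)) (a (l 15922280) (l 16008424))) (a (b (l 16073512) (l 16243632)) (b (l 16243904) (l 16336384))))) (a (b (a (a (l 16019232) (l 16034592)) (a (l 16079240) (l 16194448))) (a (b (a (l 16369440) (l 16432672)) (a (l 16475408) (l 16562912))) (b (a (l 16482672) (l 16581544)) (a (l 16570672) (l 82375691895))))) (b (a (b (l 16301992) (a (l 16519432) (l 16603232))) (b (a (l 16541136) (l 16622288)) (a (l 16664160) (l 16689744)))) (a (b (a (l 16587768) (l 16671920)) (a (l 16663152) (l 4))) (l 4))))) (b (a (b (a (b (a (l 16594584) (b (l 16654720) (l 16649752))) (a (b (l 16652792) (l 16645272)) (l 95260719255))) (b (a (l 94186890855) (l 4)) (l 4))) (l 4)) (l 4)) (l 4))), by decide +kernel⟩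

def k4_pp_022_a : ∃ t, chk3 f_pp_022_a t 3 1 1 = true :=
  ⟨(b (b (a (a (b (a (b (l 16050688) (l 16248024)) (b (l 16253944) (a (l 16402240) (l 16509936)))) (a (b (a (l 16387088) (l 16488448)) (a (l 16564544) (l 16637640))) (b (a (l 16584752) (l 16649160)) (l 67343273783)))) (b (a (b (a (l 16417632) (l 16529032)) (a (l 16601216) (l 16657224))) (b (a (l 16613920) (l 2)) (l 4))) (a (a (l 16648024) (l 4)) (l 4)))) (l 2)) (a (a (b (a (b (a (l 16673128) (l 4)) (l 4)) (l 4)) (l 4)) (l 4)) (l 4))) (l 4)), by decide +kernel⟩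

theorem s5_pp_022_a : ∃ t, chk3 f_pp_022_a t 4 3 1 = true := ex3_b k1_pp_022_a k2_pp_022_a

theorem s6_pp_022_a : ∃ t, chk3 f_pp_022_a t 4 1 1 = true := ex3_b k0_pp_022_a s5_pp_022_a

theorem s7_pp_022_a : ∃ t, chk3 f_pp_022_a t 2 1 1 = true := ex3_a s6_pp_022_a k3_pp_022_a

theorem s8_pp_022_a : ∃ t, chk3 f_pp_022_a t 1 1 1 = true := ex3_a s7_pp_022_a k4_pp_022_a

theorem c_pp_022_a : CertB 0 536870912 0 536870912 1020054732 13421774 3 eng mog cd1q0 cd1q2a pd2 true true true .pp 0 2 2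
    ndB1q0 ndB1q2a pcB2 cut_pp_022_a Ext.none :=
  certB0 (fam := true) (s1 := true) (s2 := true) (a := 0) (b := 2) (c := 2) (cn := .pp) (n1 := ndB1q0) (n2 := ndB1q2a) (pc := pcB2) (cut := cut_pp_022_a) (xt := Ext.none) (P1 := 0) (W1 := 536870912) (P2 := 0) (W2 := 536870912) (P3 := 1020054732) (W3 := 13421774) (N0 := 3) (En := eng) (mo := mog) (C1 := cd1q0) (C2 := cd1q2a) (C3 := pd2)
    rfl s8_pp_022_a

noncomputable def cut_pp_022_b : Cut := Cut.of [[⟨0, 0, 0, 38347922⟩, ⟨1, 1, 0, 38347922⟩, ⟨2, 1, 0, 38347922⟩]]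

noncomputable def f_pp_022_b : ℕ → ℕ → ℕ → ℕ → Bool := onCell 0 536870912 1073741824 536870912 1020054732 13421774
    (rowB 3 eng mog cd1q0 cd1q2b pd2 1 true true true .pp 0 2 2 (qsf 0 536870912 1239849684 370763052 2) ndB1q0 ndB1q2b pcB2 cut_pp_022_b Ext.none)

def k0_pp_022_b : ∃ t, chk3 f_pp_022_b t 1 1 1 = true :=
  ⟨(b (b (l 1) (a (a (b (a (a (b (l 372083145655) (a (l 15728232) (l 15723840))) (b (l 1) (l 316785314455))) (l 1)) (a (b (a (a (l 15496384) (l 15492712)) (a (l 133711925495) (b (l 15540264) (b (l 15464296) (l 15430192))))) (a (a (l 15298296) (l 15318768)) (b (l 15379936) (l 15337600)))) (b (a (b (l 1) (l 285109557687)) (l 1)) (a (b (l 266318981351) (l 15426688)) (b (l 1) (l 301752433239)))))) (l 1)) (l 1))) (b (a (a (b (a (b (a (l 15328232) (b (l 15306304) (l 15285824))) (b (l 15214504) (l 15211592))) (b (a (b (l 15359280) (l 15344528)) (b (l 283498782567) (l 15429864))) (a (b (l 15340128) (l 15345720)) (b (l 15388848) (l 15399688)))))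 (a (b (l 15246488) (l 15296448)) (b (a (l 15372112) (l 15433808)) (l 15473864)))) (b (a (b (a (b (l 1) (l 334501532055)) (l 1)) (a (b (l 299604936055) (l 277593259671)) (b (l 1) (l 490731032295)))) (l 1)) (a (b (a (b (l 15463408) (l 15497696)) (b (l 316784915559) (l 15530216))) (a (l 15565200) (l 15583728))) (b (a (b (l 1) (l 519722203575)) (l 1)) (a (l 331280432311) (l 455297593671)))))) (l 1)) (a (b (a (a (b (l 15378872) (l 15489248)) (b (l 15576240) (l 15705552))) (a (b (l 15706384) (l 15854144)) (b (a (l 15763200) (l 15737632)) (l 15937432)))) (a (b (a (l 15622128) (l 15856168)) (a (l 15770272) (l 16020184))) (b (a (l 16022744) (l 16124256)) (a (l 16204080) (l 16324384))))) (a (b (a (b (a (l 429528005063) (l 1)) (a (l 15958720) (l 381746773047))) (l 1)) (b (a (l 266856807559) (b (l 1) (l 386042231719))) (a (l 16317648) (l 283500117495)))) (l 1))))), by decide +kernel⟩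

theorem c_pp_022_b : CertB 0 536870912 1239849684 370763052 1020054732 13421774 3 eng mog cd1q0 cd1q2b pd2 true true true .pp 0 2 2
    ndB1q0 ndB1q2b pcB2 cut_pp_022_b Ext.none :=
  certB1 (fam := true) (s1 := true) (s2 := true) (a := 0) (b := 2) (c := 2) (cn := .pp) (n1 := ndB1q0) (n2 := ndB1q2b) (pc := pcB2) (cut := cut_pp_022_b) (xt := Ext.none) (P1 := 0) (W1 := 536870912) (P2 := 1239849684) (W2 := 370763052) (P3 := 1020054732) (W3 := 13421774) (N0 := 3) (En := eng) (mo := mog) (C1 := cd1q0) (C2 := cd1q2b) (C3 := pd2)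
    rfl (fun _ => rfl) k0_pp_022_b

noncomputable def f_pp_023_a : ℕ → ℕ → ℕ → ℕ → Bool := onCell 1610612736 536870912 0 536870912 1020054732 13421774
    (rowB 3 eng mog cd1q0 cd1q2a pd3 2 true true true .up 0 2 3 (qsf 0 536870912 0 536870912 3) ndB1q0 ndB1q2a pcB3 Cut.none Ext.none)

def k0_pp_023_a : ∃ t, chk3 f_pp_023_a t 1 1 1 = true :=
  ⟨(a (a (b (a (b (a (b (l 45868682727) (l 4)) (l 4)) (l 4)) (l 4)) (l 4)) (l 4)) (l 2)), by decide +kernel⟩

theorem c_pp_023_a : CertB 0 536870912 0 536870912 1020054732 13421774 3 eng mog cd1q0 cd1q2a pd3 true true true .up 0 2 3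
    ndB1q0 ndB1q2a pcB3 Cut.none Ext.none :=
  certB2 (fam := true) (s1 := true) (s2 := true) (a := 0) (b := 2) (c := 3) (cn := .up) (n1 := ndB1q0) (n2 := ndB1q2a) (pc := pcB3) (cut := Cut.none) (xt := Ext.none) (P1 := 0) (W1 := 536870912) (P2 := 0) (W2 := 536870912) (P3 := 1020054732) (W3 := 13421774) (N0 := 3) (En := eng) (mo := mog) (C1 := cd1q0) (C2 := cd1q2a) (C3 := pd3)
    rfl (fun _ => rfl) k0_pp_023_a

noncomputable def f_pp_023_b : ℕ → ℕ → ℕ → ℕ → Bool := onCell 1610612736 536870912 1239849684 370763052 1020054732 13421774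
    (rowB 3 eng mog cd1q0 cd1q2b pd3 2 true true true .up 0 2 3 (qsf 0 536870912 1239849684 370763052 3) ndB1q0 ndB1q2b pcB3 Cut.none Ext.none)

def k0_pp_023_b : ∃ t, chk3 f_pp_023_b t 1 1 1 = true :=
  ⟨(a (a (a (b (a (b (b (l 16655576) (l 16563872)) (l 16315088)) (l 4)) (a (b (l 15937032) (l 15511264)) (b (l 16023696) (l 15625288)))) (l 4)) (l 4)) (l 4)), by decide +kernel⟩

theorem c_pp_023_b : CertB 0 536870912 1239849684 370763052 1020054732 13421774 3 eng mog cd1q0 cd1q2b pd3 true true true .up 0 2 3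
    ndB1q0 ndB1q2b pcB3 Cut.none Ext.none :=
  certB2 (fam := true) (s1 := true) (s2 := true) (a := 0) (b := 2) (c := 3) (cn := .up) (n1 := ndB1q0) (n2 := ndB1q2b) (pc := pcB3) (cut := Cut.none) (xt := Ext.none) (P1 := 0) (W1 := 536870912) (P2 := 1239849684) (W2 := 370763052) (P3 := 1020054732) (W3 := 13421774) (N0 := 3) (En := eng) (mo := mog) (C1 := cd1q0) (C2 := cd1q2b) (C3 := pd3)
    rfl (fun _ => rfl) k0_pp_023_b

noncomputable def f_pp_033 : ℕ → ℕ → ℕ → ℕ → Bool := onCell 0 536870912 1610612736 536870912 1020054732 13421774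
    (rowB 3 eng mog cd1q0 cd1q3 pd3 0 true true true .pnn 0 3 3 (qsf 0 536870912 1610612736 536870912 3) ndB1q0 ndB1q3 pcB3 Cut.none Ext.none)

def k0_pp_033 : ∃ t, chk3 f_pp_033 t 1 1 1 = true :=
  ⟨(a (b (a (a (b (b (a (b (l 15464360) (l 15402608)) (b (l 15547888) (l 4))) (a (b (l 15329584) (l 4)) (l 4))) (l 4)) (l 4)) (l 4)) (l 4)) (l 4)), by decide +kernel⟩

theorem c_pp_033 : CertB 0 536870912 1610612736 536870912 1020054732 13421774 3 eng mog cd1q0 cd1q3 pd3 true true true .pnn 0 3 3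
    ndB1q0 ndB1q3 pcB3 Cut.none Ext.none :=
  certB0 (fam := true) (s1 := true) (s2 := true) (a := 0) (b := 3) (c := 3) (cn := .pnn) (n1 := ndB1q0) (n2 := ndB1q3) (pc := pcB3) (cut := Cut.none) (xt := Ext.none) (P1 := 0) (W1 := 536870912) (P2 := 1610612736) (W2 := 536870912) (P3 := 1020054732) (W3 := 13421774) (N0 := 3) (En := eng) (mo := mog) (C1 := cd1q0) (C2 := cd1q3) (C3 := pd3)
    rfl k0_pp_033

noncomputable def f_pp_101 : ℕ → ℕ → ℕ → ℕ → Bool := onCell 536870912 536870912 0 536870912 1020054732 13421774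
    (rowB 3 eng mog cd1q1 cd1q0 pd1 0 true true true .npn 1 0 1 (qsf 536870912 536870912 0 536870912 1) ndB1q1 ndB1q0 pcB1 Cut.none Ext.none)

def k0_pp_101 : ∃ t, chk3 f_pp_101 t 1 1 1 = true :=
  ⟨(l 4), by decide +kernel⟩

theorem c_pp_101 : CertB 536870912 536870912 0 536870912 1020054732 13421774 3 eng mog cd1q1 cd1q0 pd1 true true true .npn 1 0 1
    ndB1q1 ndB1q0 pcB1 Cut.none Ext.none :=
  certB0 (fam := true) (s1 := true) (s2 := true) (a := 1) (b := 0) (c := 1) (cn := .npn) (n1 := ndB1q1) (n2 := ndB1q0) (pc := pcB1) (cut := Cut.none) (xt := Ext.none) (P1 := 536870912) (W1 := 536870912) (P2 := 0) (W2 := 536870912) (P3 := 1020054732) (W3 := 13421774) (N0 := 3) (En := eng) (mo := mog) (C1 := cd1q1) (C2 := cd1q0) (C3 := pd1)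
    rfl k0_pp_101

noncomputable def f_pp_102 : ℕ → ℕ → ℕ → ℕ → Bool := onCell 536870912 536870912 0 536870912 1020054732 13421774
    (rowB 3 eng mog cd1q1 cd1q0 pd2 0 true true true .npp 1 0 2 (qsf 536870912 536870912 0 536870912 2) ndB1q1 ndB1q0 pcB2 Cut.none Ext.none)

def k0_pp_102 : ∃ t, chk3 f_pp_102 t 1 1 1 = true :=
  ⟨(l 4), by decide +kernel⟩

theorem c_pp_102 : CertB 536870912 536870912 0 536870912 1020054732 13421774 3 eng mog cd1q1 cd1q0 pd2 true true true .npp 1 0 2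
    ndB1q1 ndB1q0 pcB2 Cut.none Ext.none :=
  certB0 (fam := true) (s1 := true) (s2 := true) (a := 1) (b := 0) (c := 2) (cn := .npp) (n1 := ndB1q1) (n2 := ndB1q0) (pc := pcB2) (cut := Cut.none) (xt := Ext.none) (P1 := 536870912) (W1 := 536870912) (P2 := 0) (W2 := 536870912) (P3 := 1020054732) (W3 := 13421774) (N0 := 3) (En := eng) (mo := mog) (C1 := cd1q1) (C2 := cd1q0) (C3 := pd2)
    rfl k0_pp_102

noncomputable def f_pp_112 : ℕ → ℕ → ℕ → ℕ → Bool := onCell 536870912 536870912 536870912 536870912 1020054732 13421774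
    (rowB 3 eng mog cd1q1 cd1q1 pd2 0 true true true .dn 1 1 2 (qsf 536870912 536870912 536870912 536870912 2) ndB1q1 ndB1q1 pcB2 Cut.none Ext.none)

def k0_pp_112 : ∃ t, chk3 f_pp_112 t 1 1 1 = true :=
  ⟨(l 4), by decide +kernel⟩

theorem c_pp_112 : CertB 536870912 536870912 536870912 536870912 1020054732 13421774 3 eng mog cd1q1 cd1q1 pd2 true true true .dn 1 1 2
    ndB1q1 ndB1q1 pcB2 Cut.none Ext.none :=
  certB0 (fam := true) (s1 := true) (s2 := true) (a := 1) (b := 1) (c := 2) (cn := .dn) (n1 := ndB1q1) (n2 := ndB1q1) (pc := pcB2) (cut := Cut.none) (xt := Ext.none) (P1 := 536870912) (W1 := 536870912) (P2 := 536870912) (W2 := 536870912) (P3 := 1020054732) (W3 := 13421774) (N0 := 3) (En := eng) (mo := mog) (C1 := cd1q1) (C2 := cd1q1) (C3 := pd2)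
    rfl k0_pp_112

noncomputable def f_pp_113 : ℕ → ℕ → ℕ → ℕ → Bool := onCell 536870912 536870912 536870912 536870912 1020054732 13421774
    (rowB 3 eng mog cd1q1 cd1q1 pd3 0 true true true .nn 1 1 3 (qsf 536870912 536870912 536870912 536870912 3) ndB1q1 ndB1q1 pcB3 Cut.none Ext.none)

def k0_pp_113 : ∃ t, chk3 f_pp_113 t 1 1 1 = true :=
  ⟨(l 4), by decide +kernel⟩

theorem c_pp_113 : CertB 536870912 536870912 536870912 536870912 1020054732 13421774 3 eng mog cd1q1 cd1q1 pd3 true true true .nn 1 1 3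
    ndB1q1 ndB1q1 pcB3 Cut.none Ext.none :=
  certB0 (fam := true) (s1 := true) (s2 := true) (a := 1) (b := 1) (c := 3) (cn := .nn) (n1 := ndB1q1) (n2 := ndB1q1) (pc := pcB3) (cut := Cut.none) (xt := Ext.none) (P1 := 536870912) (W1 := 536870912) (P2 := 536870912) (W2 := 536870912) (P3 := 1020054732) (W3 := 13421774) (N0 := 3) (En := eng) (mo := mog) (C1 := cd1q1) (C2 := cd1q1) (C3 := pd3)
    rfl k0_pp_113

noncomputable def f_pp_123_a : ℕ → ℕ → ℕ → ℕ → Bool := onCell 536870912 536870912 0 536870912 1020054732 13421774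
    (rowB 3 eng mog cd1q1 cd1q2a pd3 0 true true true .npn 1 2 3 (qsf 536870912 536870912 0 536870912 3) ndB1q1 ndB1q2a pcB3 Cut.none Ext.none)

def k0_pp_123_a : ∃ t, chk3 f_pp_123_a t 1 1 1 = true :=
  ⟨(l 4), by decide +kernel⟩

theorem c_pp_123_a : CertB 536870912 536870912 0 536870912 1020054732 13421774 3 eng mog cd1q1 cd1q2a pd3 true true true .npn 1 2 3
    ndB1q1 ndB1q2a pcB3 Cut.none Ext.none :=
  certB0 (fam := true) (s1 := true) (s2 := true) (a := 1) (b := 2) (c := 3) (cn := .npn) (n1 := ndB1q1) (n2 := ndB1q2a) (pc := pcB3) (cut := Cut.none) (xt := Ext.none) (P1 := 536870912) (W1 := 536870912) (P2 := 0) (W2 := 536870912) (P3 := 1020054732) (W3 := 13421774) (N0 := 3) (En := eng) (mo := mog) (C1 := cd1q1) (C2 := cd1q2a) (C3 := pd3)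
    rfl k0_pp_123_a

noncomputable def f_pp_123_b : ℕ → ℕ → ℕ → ℕ → Bool := onCell 536870912 536870912 1239849684 370763052 1020054732 13421774
    (rowB 3 eng mog cd1q1 cd1q2b pd3 0 true true true .npn 1 2 3 (qsf 536870912 536870912 1239849684 370763052 3) ndB1q1 ndB1q2b pcB3 Cut.none Ext.none)

def k0_pp_123_b : ∃ t, chk3 f_pp_123_b t 1 1 1 = true :=
  ⟨(a (l 4) (l 4)), by decide +kernel⟩

theorem c_pp_123_b : CertB 536870912 536870912 1239849684 370763052 1020054732 13421774 3 eng mog cd1q1 cd1q2b pd3 true true true .npn 1 2 3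
    ndB1q1 ndB1q2b pcB3 Cut.none Ext.none :=
  certB0 (fam := true) (s1 := true) (s2 := true) (a := 1) (b := 2) (c := 3) (cn := .npn) (n1 := ndB1q1) (n2 := ndB1q2b) (pc := pcB3) (cut := Cut.none) (xt := Ext.none) (P1 := 536870912) (W1 := 536870912) (P2 := 1239849684) (W2 := 370763052) (P3 := 1020054732) (W3 := 13421774) (N0 := 3) (En := eng) (mo := mog) (C1 := cd1q1) (C2 := cd1q2b) (C3 := pd3)
    rfl k0_pp_123_b

noncomputable def f_pp_133 : ℕ → ℕ → ℕ → ℕ → Bool := onCell 536870912 536870912 1610612736 536870912 1020054732 13421774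
    (rowB 3 eng mog cd1q1 cd1q3 pd3 0 true true true .dn 1 3 3 (qsf 536870912 536870912 1610612736 536870912 3) ndB1q1 ndB1q3 pcB3 Cut.none Ext.none)

def k0_pp_133 : ∃ t, chk3 f_pp_133 t 1 1 1 = true :=
  ⟨(l 4), by decide +kernel⟩

theorem c_pp_133 : CertB 536870912 536870912 1610612736 536870912 1020054732 13421774 3 eng mog cd1q1 cd1q3 pd3 true true true .dn 1 3 3
    ndB1q1 ndB1q3 pcB3 Cut.none Ext.none :=
  certB0 (fam := true) (s1 := true) (s2 := true) (a := 1) (b := 3) (c := 3) (cn := .dn) (n1 := ndB1q1) (n2 := ndB1q3) (pc := pcB3) (cut := Cut.none) (xt := Ext.none) (P1 := 536870912) (W1 := 536870912) (P2 := 1610612736) (W2 := 536870912) (P3 := 1020054732) (W3 := 13421774) (N0 := 3) (En := eng) (mo := mog) (C1 := cd1q1) (C2 := cd1q3) (C3 := pd3)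
    rfl k0_pp_133

noncomputable def f_pp_202_a : ℕ → ℕ → ℕ → ℕ → Bool := onCell 0 536870912 0 536870912 1020054732 13421774
    (rowB 3 eng mog cd1q2a cd1q0 pd2 0 true true true .pp 2 0 2 (qsf 0 536870912 0 536870912 2) ndB1q2a ndB1q0 pcB2 Cut.none Ext.none)

def k0_pp_202_a : ∃ t, chk3 f_pp_202_a t 1 1 1 = true :=
  ⟨(l 5), by decide +kernel⟩

theorem c_pp_202_a : CertB 0 536870912 0 536870912 1020054732 13421774 3 eng mog cd1q2a cd1q0 pd2 true true true .pp 2 0 2
    ndB1q2a ndB1q0 pcB2 Cut.none Ext.none :=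
  certB0 (fam := true) (s1 := true) (s2 := true) (a := 2) (b := 0) (c := 2) (cn := .pp) (n1 := ndB1q2a) (n2 := ndB1q0) (pc := pcB2) (cut := Cut.none) (xt := Ext.none) (P1 := 0) (W1 := 536870912) (P2 := 0) (W2 := 536870912) (P3 := 1020054732) (W3 := 13421774) (N0 := 3) (En := eng) (mo := mog) (C1 := cd1q2a) (C2 := cd1q0) (C3 := pd2)
    rfl k0_pp_202_a

noncomputable def f_pp_202_b : ℕ → ℕ → ℕ → ℕ → Bool := onCell 1239849684 370763052 0 536870912 1020054732 13421774
    (rowB 3 eng mog cd1q2b cd1q0 pd2 0 true true true .pp 2 0 2 (qsf 1239849684 370763052 0 536870912 2) ndB1q2b ndB1q0 pcB2 Cut.none Ext.none)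

def k0_pp_202_b : ∃ t, chk3 f_pp_202_b t 1 1 1 = true :=
  ⟨(l 5), by decide +kernel⟩

theorem c_pp_202_b : CertB 1239849684 370763052 0 536870912 1020054732 13421774 3 eng mog cd1q2b cd1q0 pd2 true true true .pp 2 0 2
    ndB1q2b ndB1q0 pcB2 Cut.none Ext.none :=
  certB0 (fam := true) (s1 := true) (s2 := true) (a := 2) (b := 0) (c := 2) (cn := .pp) (n1 := ndB1q2b) (n2 := ndB1q0) (pc := pcB2) (cut := Cut.none) (xt := Ext.none) (P1 := 1239849684) (W1 := 370763052) (P2 := 0) (W2 := 536870912) (P3 := 1020054732) (W3 := 13421774) (N0 := 3) (En := eng) (mo := mog) (C1 := cd1q2b) (C2 := cd1q0) (C3 := pd2)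
    rfl k0_pp_202_b

noncomputable def f_pp_203_a : ℕ → ℕ → ℕ → ℕ → Bool := onCell 0 536870912 0 536870912 1020054732 13421774
    (rowB 3 eng mog cd1q2a cd1q0 pd3 0 true true true .up 2 0 3 (qsf 0 536870912 0 536870912 3) ndB1q2a ndB1q0 pcB3 Cut.none Ext.none)

def k0_pp_203_a : ∃ t, chk3 f_pp_203_a t 1 1 1 = true :=
  ⟨(l 5), by decide +kernel⟩

theorem c_pp_203_a : CertB 0 536870912 0 536870912 1020054732 13421774 3 eng mog cd1q2a cd1q0 pd3 true true true .up 2 0 3
    ndB1q2a ndB1q0 pcB3 Cut.none Ext.none :=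
  certB0 (fam := true) (s1 := true) (s2 := true) (a := 2) (b := 0) (c := 3) (cn := .up) (n1 := ndB1q2a) (n2 := ndB1q0) (pc := pcB3) (cut := Cut.none) (xt := Ext.none) (P1 := 0) (W1 := 536870912) (P2 := 0) (W2 := 536870912) (P3 := 1020054732) (W3 := 13421774) (N0 := 3) (En := eng) (mo := mog) (C1 := cd1q2a) (C2 := cd1q0) (C3 := pd3)
    rfl k0_pp_203_a

noncomputable def f_pp_203_b : ℕ → ℕ → ℕ → ℕ → Bool := onCell 1239849684 370763052 0 536870912 1020054732 13421774
    (rowB 3 eng mog cd1q2b cd1q0 pd3 0 true true true .up 2 0 3 (qsf 1239849684 370763052 0 536870912 3) ndB1q2b ndB1q0 pcB3 Cut.none Ext.none)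

def k0_pp_203_b : ∃ t, chk3 f_pp_203_b t 1 1 1 = true :=
  ⟨(l 5), by decide +kernel⟩

theorem c_pp_203_b : CertB 1239849684 370763052 0 536870912 1020054732 13421774 3 eng mog cd1q2b cd1q0 pd3 true true true .up 2 0 3
    ndB1q2b ndB1q0 pcB3 Cut.none Ext.none :=
  certB0 (fam := true) (s1 := true) (s2 := true) (a := 2) (b := 0) (c := 3) (cn := .up) (n1 := ndB1q2b) (n2 := ndB1q0) (pc := pcB3) (cut := Cut.none) (xt := Ext.none) (P1 := 1239849684) (W1 := 370763052) (P2 := 0) (W2 := 536870912) (P3 := 1020054732) (W3 := 13421774) (N0 := 3) (En := eng) (mo := mog) (C1 := cd1q2b) (C2 := cd1q0) (C3 := pd3)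
    rfl k0_pp_203_b

noncomputable def f_pp_213_a : ℕ → ℕ → ℕ → ℕ → Bool := onCell 0 536870912 536870912 536870912 1020054732 13421774
    (rowB 3 eng mog cd1q2a cd1q1 pd3 0 true true true .pnn 2 1 3 (qsf 0 536870912 536870912 536870912 3) ndB1q2a ndB1q1 pcB3 Cut.none Ext.none)

def k0_pp_213_a : ∃ t, chk3 f_pp_213_a t 1 1 1 = true :=
  ⟨(l 4), by decide +kernel⟩

theorem c_pp_213_a : CertB 0 536870912 536870912 536870912 1020054732 13421774 3 eng mog cd1q2a cd1q1 pd3 true true true .pnn 2 1 3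
    ndB1q2a ndB1q1 pcB3 Cut.none Ext.none :=
  certB0 (fam := true) (s1 := true) (s2 := true) (a := 2) (b := 1) (c := 3) (cn := .pnn) (n1 := ndB1q2a) (n2 := ndB1q1) (pc := pcB3) (cut := Cut.none) (xt := Ext.none) (P1 := 0) (W1 := 536870912) (P2 := 536870912) (W2 := 536870912) (P3 := 1020054732) (W3 := 13421774) (N0 := 3) (En := eng) (mo := mog) (C1 := cd1q2a) (C2 := cd1q1) (C3 := pd3)
    rfl k0_pp_213_a

noncomputable def f_pp_213_b : ℕ → ℕ → ℕ → ℕ → Bool := onCell 1239849684 370763052 536870912 536870912 1020054732 13421774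
    (rowB 3 eng mog cd1q2b cd1q1 pd3 0 true true true .pnn 2 1 3 (qsf 1239849684 370763052 536870912 536870912 3) ndB1q2b ndB1q1 pcB3 Cut.none Ext.none)

def k0_pp_213_b : ∃ t, chk3 f_pp_213_b t 1 1 1 = true :=
  ⟨(l 5), by decide +kernel⟩

theorem c_pp_213_b : CertB 1239849684 370763052 536870912 536870912 1020054732 13421774 3 eng mog cd1q2b cd1q1 pd3 true true true .pnn 2 1 3
    ndB1q2b ndB1q1 pcB3 Cut.none Ext.none :=
  certB0 (fam := true) (s1 := true) (s2 := true) (a := 2) (b := 1) (c := 3) (cn := .pnn) (n1 := ndB1q2b) (n2 := ndB1q1) (pc := pcB3) (cut := Cut.none) (xt := Ext.none) (P1 := 1239849684) (W1 := 370763052) (P2 := 536870912) (W2 := 536870912) (P3 := 1020054732) (W3 := 13421774) (N0 := 3) (En := eng) (mo := mog) (C1 := cd1q2b) (C2 := cd1q1) (C3 := pd3)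
    rfl k0_pp_213_b

noncomputable def f_pp_303 : ℕ → ℕ → ℕ → ℕ → Bool := onCell 1610612736 536870912 0 536870912 1020054732 13421774
    (rowB 3 eng mog cd1q3 cd1q0 pd3 0 true true true .npn 3 0 3 (qsf 1610612736 536870912 0 536870912 3) ndB1q3 ndB1q0 pcB3 Cut.none Ext.none)

def k0_pp_303 : ∃ t, chk3 f_pp_303 t 1 1 1 = true :=
  ⟨(l 5), by decide +kernel⟩

theorem c_pp_303 : CertB 1610612736 536870912 0 536870912 1020054732 13421774 3 eng mog cd1q3 cd1q0 pd3 true true true .npn 3 0 3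
    ndB1q3 ndB1q0 pcB3 Cut.none Ext.none :=
  certB0 (fam := true) (s1 := true) (s2 := true) (a := 3) (b := 0) (c := 3) (cn := .npn) (n1 := ndB1q3) (n2 := ndB1q0) (pc := pcB3) (cut := Cut.none) (xt := Ext.none) (P1 := 1610612736) (W1 := 536870912) (P2 := 0) (W2 := 536870912) (P3 := 1020054732) (W3 := 13421774) (N0 := 3) (En := eng) (mo := mog) (C1 := cd1q3) (C2 := cd1q0) (C3 := pd3)
    rfl k0_pp_303

noncomputable def f_pp_313 : ℕ → ℕ → ℕ → ℕ → Bool := onCell 1610612736 536870912 536870912 536870912 1020054732 13421774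
    (rowB 3 eng mog cd1q3 cd1q1 pd3 0 true true true .dn 3 1 3 (qsf 1610612736 536870912 536870912 536870912 3) ndB1q3 ndB1q1 pcB3 Cut.none Ext.none)

def k0_pp_313 : ∃ t, chk3 f_pp_313 t 1 1 1 = true :=
  ⟨(l 4), by decide +kernel⟩

theorem c_pp_313 : CertB 1610612736 536870912 536870912 536870912 1020054732 13421774 3 eng mog cd1q3 cd1q1 pd3 true true true .dn 3 1 3
    ndB1q3 ndB1q1 pcB3 Cut.none Ext.none :=
  certB0 (fam := true) (s1 := true) (s2 := true) (a := 3) (b := 1) (c := 3) (cn := .dn) (n1 := ndB1q3) (n2 := ndB1q1) (pc := pcB3) (cut := Cut.none) (xt := Ext.none) (P1 := 1610612736) (W1 := 536870912) (P2 := 536870912) (W2 := 536870912) (P3 := 1020054732) (W3 := 13421774) (N0 := 3) (En := eng) (mo := mog) (C1 := cd1q3) (C2 := cd1q1) (C3 := pd3)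
    rfl k0_pp_313

noncomputable def f_pm_001 : ℕ → ℕ → ℕ → ℕ → Bool := onCell 0 536870912 0 536870912 1020054732 13421774
    (rowB 3 eng mog cd1q0 cd1q0 pd1 0 true true false .up 0 0 1 (qsf 0 536870912 0 536870912 1) ndB1q0 ndB1q0 pcB1 Cut.none Ext.none)

def k0_pm_001 : ∃ t, chk3 f_pm_001 t 1 1 1 = true :=
  ⟨(l 3), by decide +kernel⟩

theorem c_pm_001 : CertB 0 536870912 0 536870912 1020054732 13421774 3 eng mog cd1q0 cd1q0 pd1 true true false .up 0 0 1
    ndB1q0 ndB1q0 pcB1 Cut.none Ext.none :=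
  certB0 (fam := true) (s1 := true) (s2 := false) (a := 0) (b := 0) (c := 1) (cn := .up) (n1 := ndB1q0) (n2 := ndB1q0) (pc := pcB1) (cut := Cut.none) (xt := Ext.none) (P1 := 0) (W1 := 536870912) (P2 := 0) (W2 := 536870912) (P3 := 1020054732) (W3 := 13421774) (N0 := 3) (En := eng) (mo := mog) (C1 := cd1q0) (C2 := cd1q0) (C3 := pd1)
    rfl k0_pm_001

noncomputable def f_pm_011 : ℕ → ℕ → ℕ → ℕ → Bool := onCell 0 536870912 536870912 536870912 1020054732 13421774
    (rowB 3 eng mog cd1q0 cd1q1 pd1 1 true true false .pnn 0 1 1 (qsf 0 536870912 536870912 536870912 1) ndB1q0 ndB1q1 pcB1 Cut.none Ext.none)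

def k0_pm_011 : ∃ t, chk3 f_pm_011 t 1 1 1 = true :=
  ⟨(l 3), by decide +kernel⟩

theorem c_pm_011 : CertB 0 536870912 536870912 536870912 1020054732 13421774 3 eng mog cd1q0 cd1q1 pd1 true true false .pnn 0 1 1
    ndB1q0 ndB1q1 pcB1 Cut.none Ext.none :=
  certB1 (fam := true) (s1 := true) (s2 := false) (a := 0) (b := 1) (c := 1) (cn := .pnn) (n1 := ndB1q0) (n2 := ndB1q1) (pc := pcB1) (cut := Cut.none) (xt := Ext.none) (P1 := 0) (W1 := 536870912) (P2 := 536870912) (W2 := 536870912) (P3 := 1020054732) (W3 := 13421774) (N0 := 3) (En := eng) (mo := mog) (C1 := cd1q0) (C2 := cd1q1) (C3 := pd1)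
    rfl (fun _ => rfl) k0_pm_011

noncomputable def f_pm_012 : ℕ → ℕ → ℕ → ℕ → Bool := onCell 1073741824 536870912 536870912 536870912 1020054732 13421774
    (rowB 3 eng mog cd1q0 cd1q1 pd2 2 true true false .pnp 0 1 2 (qsf 0 536870912 536870912 536870912 2) ndB1q0 ndB1q1 pcB2 Cut.none Ext.none)

def k0_pm_012 : ∃ t, chk3 f_pm_012 t 4 1 1 = true :=
  ⟨(a (l 3) (b (l 3) (b (l 3) (a (b (l 3) (b (l 3) (a (l 3) (b (l 3) (a (l 3) (l 255717539127)))))) (a (b (l 3) (b (a (l 3) (b (l 16462280) (l 16451912))) (b (a (l 16405144) (l 16443880)) (a (l 61370214135) (c (l 16405168) (l 16469728)))))) (b (b (l 213304722119) (a (l 16457392) (l 16433504))) (b (a (l 16411792) (b (l 16414192) (a (l 16409024) (l 16392656)))) (a (b (b (l 16421688) (l 16373952)) (a (c (l 16384136) (l 16447256)) (l 16267416))) (b (a (l 16330400) (l 16366760)) (c (l 16326728) (l 16375344))))))))))), by decide +kernel⟩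

def k1_pm_012 : ∃ t, chk3 f_pm_012 t 5 2 1 = true :=
  ⟨(a (a (a (l 3) (b (l 2) (a (b (l 3) (b (l 3) (l 16498888))) (a (b (c (l 16658248) (l 16593912)) (c (l 16629936) (l 16517520))) (b (c (l 16684168) (l 16635312)) (b (l 16612840) (c (l 16610128) (l 16402848)))))))) (b (l 2) (b (c (l 16661376) (c (l 16653408) (l 16555704))) (c (b (l 16701480) (l 16634568)) (l 16407928))))) (b (l 2) (b (c (b (l 2) (l 16690768)) (l 16387352)) (b (c (l 16618704) (l 16452288)) (l 16261872))))), by decide +kernel⟩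

def k2_pm_012 : ∃ t, chk3 f_pm_012 t 5 3 1 = true :=
  ⟨(b (a (a (a (b (b (l 3) (l 173576246839)) (b (l 181629277319) (a (l 16479744) (l 16457288)))) (a (b (b (c (l 16613632) (l 16513488)) (l 16483480)) (b (l 16414832) (c (l 16453816) (l 16405504)))) (a (b (b (l 16518224) (l 16467128)) (b (l 16414312) (l 16397616))) (a (b (b (l 16488480) (l 16453704)) (b (l 16435056) (l 16374472))) (b (b (l 16458184) (l 16460480)) (b (l 16420384) (l 16359664))))))) (b (b (l 16416528) (l 16373736)) (b (l 16330496) (l 16287752)))) (b (b (l 16234960) (l 16141632)) (b (a (l 16293832) (l 16222632)) (a (l 16224240) (l 16147240))))) (a (a (a (b (b (a (l 16441992) (b (l 16427504) (l 16407168))) (a (b (l 16417264) (l 16400096)) (b (l 16385440) (l 16359856)))) (b (a (b (c (l 16369576) (l 16392760)) (l 16271784)) (b (l 16329736) (l 16300944))) (a (b (l 16304632) (l 16233872)) (b (l 16272576) (l 16244784))))) (a (b (b (a (l 16391840) (l 16365784)) (c (l 16325152) (l 16313952)))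 (b (b (l 16276416) (l 16248368)) (b (l 16221088) (l 16194760)))) (b (a (b (l 16337816) (l 16279376)) (a (b (l 16314800) (l 16257136)) (b (l 16300272) (l 16243344)))) (a (b (l 16223464) (b (l 16183984) (l 16158768))) (a (b (l 16202736) (b (l 16164512) (l 16142112))) (b (b (l 16203120) (l 16114656)) (b (c (l 16154608) (l 16153752)) (l 16129168)))))))) (b (b (l 16225536) (l 16103096)) (b (b (l 16144832) (l 16097088)) (b (a (l 16119400) (l 16063872)) (a (l 16094232) (l 16036680)))))) (b (b (a (l 16156184) (l 16073368)) (a (l 16090888) (l 16002304))) (b (b (l 15976264) (a (l 16014736) (l 15918744))) (a (c (l 15881808) (l 15971768)) (c (l 15864264) (l 15868440))))))), by decide +kernel⟩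

def k3_pm_012 : ∃ t, chk3 f_pm_012 t 3 1 1 = true :=
  ⟨(b (a (b (l 2) (b (l 2) (a (b (l 2) (l 16310576)) (l 2)))) (l 2)) (b (a (b (a (b (l 16233656) (l 16213944)) (b (l 2) (l 16125984))) (a (b (l 16129848) (l 16045976)) (b (l 16031456) (l 15936840)))) (b (l 2) (a (b (l 2) (l 15856920)) (l 2)))) (a (b (a (b (l 15963536) (l 15758056)) (b (l 15843400) (l 15752632))) (a (a (b (l 15721840) (c (l 15769968) (l 15773056))) (b (l 15768440) (c (l 15683160) (l 15685784)))) (b (b (l 15687104) (l 15495608)) (c (l 15546992) (l 15570632))))) (b (a (b (l 15753256) (l 15651984)) (b (l 2) (l 15581344))) (b (a (b (l 15578440) (l 15527648)) (b (l 15500376) (l 15444832))) (a (c (l 15442160) (l 15446168)) (c (l 15349304) (l 15355264)))))))), by decide +kernel⟩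

theorem s4_pm_012 : ∃ t, chk3 f_pm_012 t 5 1 1 = true := ex3_b k1_pm_012 k2_pm_012

theorem s5_pm_012 : ∃ t, chk3 f_pm_012 t 2 1 1 = true := ex3_a k0_pm_012 s4_pm_012

theorem s6_pm_012 : ∃ t, chk3 f_pm_012 t 1 1 1 = true := ex3_a s5_pm_012 k3_pm_012

theorem c_pm_012 : CertB 0 536870912 536870912 536870912 1020054732 13421774 3 eng mog cd1q0 cd1q1 pd2 true true false .pnp 0 1 2
    ndB1q0 ndB1q1 pcB2 Cut.none Ext.none :=
  certB2 (fam := true) (s1 := true) (s2 := false) (a := 0) (b := 1) (c := 2) (cn := .pnp) (n1 := ndB1q0) (n2 := ndB1q1) (pc := pcB2) (cut := Cut.none) (xt := Ext.none) (P1 := 0) (W1 := 536870912) (P2 := 536870912) (W2 := 536870912) (P3 := 1020054732) (W3 := 13421774) (N0 := 3) (En := eng) (mo := mog) (C1 := cd1q0) (C2 := cd1q1) (C3 := pd2)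
    rfl (fun _ => rfl) s6_pm_012

noncomputable def cut_pm_022_a : Cut := Cut.of [[⟨0, 0, 0, 33554432⟩, ⟨1, 1, 0, 33554432⟩, ⟨2, 1, 0, 33554432⟩]]

noncomputable def f_pm_022_a : ℕ → ℕ → ℕ → ℕ → Bool := onCell 1073741824 536870912 0 536870912 1020054732 13421774
    (rowB 3 eng mog cd1q0 cd1q2a pd2 2 true true false .pp 0 2 2 (qsf 0 536870912 0 536870912 2) ndB1q0 ndB1q2a pcB2 cut_pm_022_a Ext.none)

def k0_pm_022_a : ∃ t, chk3 f_pm_022_a t 2 2 1 = true :=
  ⟨(a (a (l 1) (b (l 1) (a (l 1) (a (l 1) (b (l 1) (a (l 1) (l 16373408))))))) (a (b (a (b (l 16138288) (b (l 16234608) (l 16246328))) (b (l 15954184) (a (l 16251008) (l 16155672)))) (a (b (b (l 16275608) (l 16279800)) (b (l 16300064) (l 16335544))) (b (a (l 16275104) (l 16226648)) (c (l 16168008) (l 16245768))))) (b (a (b (l 15821320) (l 15849240)) (b (l 15636424) (l 15714936))) (a (b (a (l 16138264) (l 16052080)) (a (l 16195600) (l 16113936))) (b (a (l 15968256) (l 15886960)) (a (l 16034448)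 (l 15957304))))))), by decide +kernel⟩

def k1_pm_022_a : ∃ t, chk3 f_pm_022_a t 2 6 1 = true :=
  ⟨(a (a (l 1) (a (b (l 1) (a (b (l 1) (a (l 1) (l 16413040))) (b (a (l 16370400) (l 16407952)) (a (l 16405720) (l 16440320))))) (a (b (b (l 16354328) (l 16320400)) (b (l 16359328) (l 16408192))) (b (b (a (l 16418512) (l 16461128)) (l 16379656)) (a (l 16385624) (l 16442216)))))) (a (b (a (a (l 16377040) (l 16343784)) (a (l 16282472) (l 16243672))) (a (b (a (l 16478656) (l 16398736)) (b (l 16341024) (l 16328104))) (b (l 16176608) (l 16119584)))) (b (a (a (l 16227568) (l 16150432)) (a (l 16075336) (l 16002416))) (a (b (l 16130528) (l 16099248)) (b (l 16049984) (l 16044272)))))), by decide +kernel⟩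

def k2_pm_022_a : ∃ t, chk3 f_pm_022_a t 16 7 1 = true :=
  ⟨(b (l 1) (a (b (l 1) (l 6)) (a (b (b (l 1) (l 6)) (l 6)) (a (b (b (l 1) (l 6)) (l 6)) (a (b (b (l 1) (l 6)) (l 6)) (b (b (b (l 1) (b (l 1) (c (l 16579216) (l 16568944)))) (a (l 6) (b (b (l 16593576) (l 16611816)) (l 16618576)))) (b (b (l 16654952) (l 16693296)) (l 16656872)))))))), by decide +kernel⟩

def k3_pm_022_a : ∃ t, chk3 f_pm_022_a t 17 7 1 = true :=
  ⟨(b (b (a (l 1) (a (l 1) (b (l 1) (l 16466376)))) (b (a (l 1) (a (b (l 16477104) (l 16505624)) (l 16499400))) (a (a (b (l 1) (a (l 1) (b (l 1) (b (l 1) (a (l 1) (l 85932376935)))))) (b (c (l 16519312) (l 16494936)) (a (b (l 16523440) (a (l 16514816) (l 16542408))) (l 16523672)))) (a (c (l 16522376) (l 16514168)) (l 16514168))))) (b (a (b (a (a (a (b (l 1) (b (c (l 16568424) (l 16555488)) (c (l 16585536) (l 16573912)))) (b (b (l 1) (b (l 16546096) (l 45130244199))) (c (l 47814619143) (b (l 16560624) (l 16578920))))) (b (c (b (l 66605052359)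 (l 16547560)) (b (a (l 16529976) (l 16535400)) (l 16529472))) (c (l 16551384) (a (l 16553912) (l 16580008))))) (a (a (b (c (l 16549920) (l 16507664)) (l 16573328)) (b (b (l 16537360) (l 16574904)) (l 16579280))) (b (b (l 16547072) (l 16563224)) (l 16567296)))) (a (b (a (c (a (l 16590592) (l 16617664)) (a (l 16580944) (l 16606736))) (c (l 16605992) (l 16593048))) (a (c (l 16628720) (l 16621144)) (l 16635360))) (c (b (l 16604032) (l 16637288)) (a (l 16600352) (l 16610032))))) (b (a (b (a (l 16547016) (l 16580864)) (a (l 16600336) (l 16591512))) (b (l 16579304) (l 16588984))) (a (b (l 16597552) (l 16631296)) (l 16610800)))) (a (b (a (a (b (l 16662096) (l 16678952)) (a (l 16646176) (l 16650952))) (a (l 16658232) (l 16642728))) (a (a (c (l 16656656) (l 16654624)) (b (l 16675776) (l 16666456))) (a (l 16623512) (l 16607048)))) (b (a (a (l 16625544) (l 16608224)) (l 16561064)) (a (c (l 16599680) (l 16606240)) (c (l 16584216) (l 16595640))))))), by decide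 +kernel⟩

def k4_pm_022_a : ∃ t, chk3 f_pm_022_a t 9 7 1 = true :=
  ⟨(b (a (b (a (a (l 16346536) (l 16440944)) (l 16425224)) (a (a (l 16451216) (l 16500312)) (l 16500424))) (b (c (l 16447184) (l 16468976)) (b (l 16396400) (l 16366656)))) (a (b (a (b (b (l 16576232) (l 16547864)) (a (l 16553952) (l 16538920))) (b (l 16505032) (c (l 16461432) (l 16529944)))) (a (b (a (l 16546864) (l 16511536)) (a (l 16492488) (l 16478696))) (b (a (l 16497152) (l 16482872)) (a (l 16464792) (l 16429904))))) (b (a (b (l 16473784) (l 16371728)) (l 16340672)) (a (b (a (l 16447816) (l 16391936)) (c (l 16377600) (l 16420328))) (b (c (l 16350864) (l 16413776)) (l 16225320)))))), by decide +kernel⟩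

def k5_pm_022_a : ∃ t, chk3 f_pm_022_a t 5 7 1 = true :=
  ⟨(a (b (a (b (a (l 16402864) (l 16369880)) (a (l 16376008) (l 16345568))) (b (a (l 16338152) (l 16265912)) (a (l 16295416) (l 16225704)))) (a (b (a (l 16311752) (l 16304912)) (a (b (a (l 16331168) (l 16297472)) (l 16137224)) (a (b (l 16263896) (l 16213768)) (a (l 16109536) (a (l 16118368) (b (l 16217608) (l 16085760))))))) (b (l 15972112) (a (l 15989872) (l 15989496))))) (b (a (b (l 16076784) (l 16040336)) (b (l 16026528) (l 15994976))) (a (b (l 16008840) (a (l 15990008) (l 15970456))) (b (l 15947624) (l 15693440))))), by decide +kernel⟩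

def k6_pm_022_a : ∃ t, chk3 f_pm_022_a t 3 1 1 = true :=
  ⟨(b (a (b (a (a (b (l 15400848) (l 15570920)) (b (c (l 15401864) (l 15417224)) (c (l 15508928) (l 15537912)))) (b (a (c (l 15260688) (l 15269056)) (l 15135680)) (a (l 15384224) (l 15259712)))) (a (b (a (l 15644392) (c (l 15603472) (l 15646072))) (a (l 15636728) (c (l 15680048) (l 15736224)))) (b (a (l 15491424) (l 15371824)) (a (l 15580976) (l 15466704))))) (b (a (b (a (l 15023120) (c (l 14935688) (l 14920280))) (a (l 15150616) (l 15057792))) (b (a (l 14850960) (a (l 14805512) (a (l 14790784) (b (b (l 14828784) (l 14759432)) (l 14809608))))) (a (l 14982008) (l 14923992)))) (a (b (a (l 15266608) (l 15176600)) (a (l 15365872) (l 15279256))) (b (c (l 15047848) (l 15075632)) (a (l 15207560) (l 15151432)))))) (a (b (a (b (a (c (l 15862512) (l 15933344)) (c (l 15731920) (l 15801632))) (a (b (l 15915104) (l 15913760)) (b (l 15789792) (l 15792544)))) (b (a (l 15625264) (l 15537832)) (a (l 15511144)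 (l 15577072)))) (a (b (a (b (l 15900536) (l 15873712)) (b (l 15783616) (l 15761288))) (a (b (l 15831304) (l 15708152)) (b (l 15723616) (l 15668344)))) (b (a (b (l 15676576) (l 15658480)) (l 15574040)) (a (b (l 15625264) (l 15574664)) (b (l 15536896) (l 15490624)))))) (b (a (b (a (l 15442024) (l 15359520)) (a (l 15487072) (l 15409552))) (b (a (l 15290992) (l 15237032)) (a (l 15345128) (l 15294336)))) (a (b (a (l 15490728) (l 15419120)) (a (b (l 15459088) (l 15416744)) (b (l 15392368) (l 15353480)))) (b (a (l 15359744) (l 15313072)) (b (l 15146704) (a (l 15301240) (l 15260368)))))))), by decide +kernel⟩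

theorem s7_pm_022_a : ∃ t, chk3 f_pm_022_a t 8 7 1 = true := ex3_a k2_pm_022_a k3_pm_022_a

theorem s8_pm_022_a : ∃ t, chk3 f_pm_022_a t 4 7 1 = true := ex3_a s7_pm_022_a k4_pm_022_a

theorem s9_pm_022_a : ∃ t, chk3 f_pm_022_a t 2 7 1 = true := ex3_a s8_pm_022_a k5_pm_022_a

theorem s10_pm_022_a : ∃ t, chk3 f_pm_022_a t 2 3 1 = true := ex3_b k1_pm_022_a s9_pm_022_a

theorem s11_pm_022_a : ∃ t, chk3 f_pm_022_a t 2 1 1 = true := ex3_b k0_pm_022_a s10_pm_022_a

theorem s12_pm_022_a : ∃ t, chk3 f_pm_022_a t 1 1 1 = true := ex3_a s11_pm_022_a k6_pm_022_a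

theorem c_pm_022_a : CertB 0 536870912 0 536870912 1020054732 13421774 3 eng mog cd1q0 cd1q2a pd2 true true false .pp 0 2 2
    ndB1q0 ndB1q2a pcB2 cut_pm_022_a Ext.none :=
  certB2 (fam := true) (s1 := true) (s2 := false) (a := 0) (b := 2) (c := 2) (cn := .pp) (n1 := ndB1q0) (n2 := ndB1q2a) (pc := pcB2) (cut := cut_pm_022_a) (xt := Ext.none) (P1 := 0) (W1 := 536870912) (P2 := 0) (W2 := 536870912) (P3 := 1020054732) (W3 := 13421774) (N0 := 3) (En := eng) (mo := mog) (C1 := cd1q0) (C2 := cd1q2a) (C3 := pd2)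
    rfl (fun _ => rfl) s12_pm_022_a

noncomputable def cut_pm_022_b : Cut := Cut.of [[⟨0, 0, 0, 33554432⟩, ⟨1, 1, 0, 33554432⟩, ⟨2, 1, 0, 33554432⟩]]

noncomputable def f_pm_022_b : ℕ → ℕ → ℕ → ℕ → Bool := onCell 0 536870912 1073741824 536870912 1020054732 13421774
    (rowB 3 eng mog cd1q0 cd1q2b pd2 1 true true false .pp 0 2 2 (qsf 0 536870912 1239849684 370763052 2) ndB1q0 ndB1q2b pcB2 cut_pm_022_b Ext.none)

def k0_pm_022_b : ∃ t, chk3 f_pm_022_b t 1 1 1 = true :=
  ⟨(b (a (a (b (l 1) (a (b (a (b (l 255582692247) (l 265782916135)) (b (l 1) (l 275446502903))) (a (b (l 15917520) (l 15758672)) (b (l 15732976) (l 15728224)))) (b (l 1) (a (b (l 274909261175) (l 235717444071)) (b (l 1) (l 266319010071)))))) (l 1)) (l 1)) (b (a (a (b (b (a (a (l 15603800) (l 15580848)) (a (l 15551048) (l 208337009079))) (a (l 15446800) (a (l 15416016) (l 15387320)))) (a (b (l 15304240) (l 15166408)) (b (l 15276904) (l 15155808)))) (b (a (b (a (l 265245216327) (l 1))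 (a (l 277056092215) (l 295309598439))) (l 1)) (a (b (a (l 15238248) (l 295309614039)) (a (l 15130280) (l 15104928))) (b (a (l 338259194007) (l 1)) (a (l 301751798295) (l 347922612071)))))) (l 1)) (a (a (b (a (l 14969008) (l 14984072)) (a (b (l 14786488) (l 14691392)) (b (l 14827672) (b (l 14758064) (l 14747888))))) (b (a (b (l 15021160) (l 14929584)) (b (a (l 14988392) (l 308730890231)) (a (l 14910552) (l 14889576)))) (b (a (l 14844880) (l 14835128)) (a (b (l 14794408) (l 14851800)) (b (l 14798584) (l 14873080)))))) (a (b (a (b (a (l 357049194007) (l 1)) (a (l 14861944) (l 364565211431))) (l 1)) (a (b (a (l 14809368) (l 14784360)) (b (a (l 14779816) (l 14758136)) (a (l 14847016) (l 14808576)))) (b (a (l 311414832743) (l 1)) (b (l 264706968631) (a (b (l 14736696) (l 14789680)) (b (l 1) (l 304435449015))))))) (l 1))))), by decide +kernel⟩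

theorem c_pm_022_b : CertB 0 536870912 1239849684 370763052 1020054732 13421774 3 eng mog cd1q0 cd1q2b pd2 true true false .pp 0 2 2
    ndB1q0 ndB1q2b pcB2 cut_pm_022_b Ext.none :=
  certB1 (fam := true) (s1 := true) (s2 := false) (a := 0) (b := 2) (c := 2) (cn := .pp) (n1 := ndB1q0) (n2 := ndB1q2b) (pc := pcB2) (cut := cut_pm_022_b) (xt := Ext.none) (P1 := 0) (W1 := 536870912) (P2 := 1239849684) (W2 := 370763052) (P3 := 1020054732) (W3 := 13421774) (N0 := 3) (En := eng) (mo := mog) (C1 := cd1q0) (C2 := cd1q2b) (C3 := pd2)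
    rfl (fun _ => rfl) k0_pm_022_b

noncomputable def f_pm_023_a : ℕ → ℕ → ℕ → ℕ → Bool := onCell 1610612736 536870912 0 536870912 1020054732 13421774
    (rowB 3 eng mog cd1q0 cd1q2a pd3 2 true true false .up 0 2 3 (qsf 0 536870912 0 536870912 3) ndB1q0 ndB1q2a pcB3 Cut.none Ext.none)

def k0_pm_023_a : ∃ t, chk3 f_pm_023_a t 1 1 1 = true :=
  ⟨(a (a (b (a (b (a (l 16506896) (l 16448408)) (l 16397448)) (b (a (b (l 16652568) (l 16635096)) (l 16526912)) (l 16437808))) (b (a (b (l 16526216) (l 16419392)) (b (l 16452488) (l 16338312))) (a (b (l 16079368) (c (l 15977488) (l 16120128))) (b (l 236859377095) (l 2))))) (b (a (b (a (l 16621296) (l 16620688)) (b (l 134317716919) (l 16511480))) (l 2)) (b (l 2) (l 2)))) (l 2)), by decide +kernel⟩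

theorem c_pm_023_a : CertB 0 536870912 0 536870912 1020054732 13421774 3 eng mog cd1q0 cd1q2a pd3 true true false .up 0 2 3
    ndB1q0 ndB1q2a pcB3 Cut.none Ext.none :=
  certB2 (fam := true) (s1 := true) (s2 := false) (a := 0) (b := 2) (c := 3) (cn := .up) (n1 := ndB1q0) (n2 := ndB1q2a) (pc := pcB3) (cut := Cut.none) (xt := Ext.none) (P1 := 0) (W1 := 536870912) (P2 := 0) (W2 := 536870912) (P3 := 1020054732) (W3 := 13421774) (N0 := 3) (En := eng) (mo := mog) (C1 := cd1q0) (C2 := cd1q2a) (C3 := pd3)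
    rfl (fun _ => rfl) k0_pm_023_a

noncomputable def f_pm_023_b : ℕ → ℕ → ℕ → ℕ → Bool := onCell 1610612736 536870912 1239849684 370763052 1020054732 13421774
    (rowB 3 eng mog cd1q0 cd1q2b pd3 2 true true false .up 0 2 3 (qsf 0 536870912 1239849684 370763052 3) ndB1q0 ndB1q2b pcB3 Cut.none Ext.none)

def k0_pm_023_b : ∃ t, chk3 f_pm_023_b t 1 1 1 = true :=
  ⟨(a (a (b (a (b (a (l 16416928) (l 16509296)) (a (l 16096960) (l 16214720))) (b (a (l 16564520) (l 16647320)) (a (l 16316840) (l 16405592)))) (a (b (l 15531984) (a (l 15267496) (l 15431160))) (b (l 15888904) (l 15541816)))) (b (a (b (a (l 16665432) (l 16670560)) (a (l 16483120) (l 16551184))) (b (a (l 16684432) (l 16713072)) (a (l 16602008) (l 4)))) (a (a (l 15791760) (b (l 16284104) (l 15949368))) (b (l 4) (l 4))))) (a (l 4) (l 4))), by decide +kernel⟩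

theorem c_pm_023_b : CertB 0 536870912 1239849684 370763052 1020054732 13421774 3 eng mog cd1q0 cd1q2b pd3 true true false .up 0 2 3
    ndB1q0 ndB1q2b pcB3 Cut.none Ext.none :=
  certB2 (fam := true) (s1 := true) (s2 := false) (a := 0) (b := 2) (c := 3) (cn := .up) (n1 := ndB1q0) (n2 := ndB1q2b) (pc := pcB3) (cut := Cut.none) (xt := Ext.none) (P1 := 0) (W1 := 536870912) (P2 := 1239849684) (W2 := 370763052) (P3 := 1020054732) (W3 := 13421774) (N0 := 3) (En := eng) (mo := mog) (C1 := cd1q0) (C2 := cd1q2b) (C3 := pd3)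
    rfl (fun _ => rfl) k0_pm_023_b

noncomputable def f_pm_033 : ℕ → ℕ → ℕ → ℕ → Bool := onCell 0 536870912 1610612736 536870912 1020054732 13421774
    (rowB 3 eng mog cd1q0 cd1q3 pd3 1 true true false .pnn 0 3 3 (qsf 0 536870912 1610612736 536870912 3) ndB1q0 ndB1q3 pcB3 Cut.none Ext.none)

def k0_pm_033 : ∃ t, chk3 f_pm_033 t 1 1 1 = true :=
  ⟨(b (a (b (a (b (a (b (l 14918696) (l 14937032)) (b (l 1) (l 15295400))) (a (b (l 14947216) (l 14953616)) (b (l 15300672) (l 15302416)))) (b (l 1) (a (l 311952770023) (l 1)))) (b (a (a (b (l 14958184) (l 14960752)) (b (l 15302616) (l 15299960))) (a (b (l 15632392) (l 15626544)) (l 344165618391))) (l 4))) (b (l 1) (a (b (l 1) (l 4)) (l 1)))) (l 4)), by decide +kernel⟩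

theorem c_pm_033 : CertB 0 536870912 1610612736 536870912 1020054732 13421774 3 eng mog cd1q0 cd1q3 pd3 true true false .pnn 0 3 3
    ndB1q0 ndB1q3 pcB3 Cut.none Ext.none :=
  certB1 (fam := true) (s1 := true) (s2 := false) (a := 0) (b := 3) (c := 3) (cn := .pnn) (n1 := ndB1q0) (n2 := ndB1q3) (pc := pcB3) (cut := Cut.none) (xt := Ext.none) (P1 := 0) (W1 := 536870912) (P2 := 1610612736) (W2 := 536870912) (P3 := 1020054732) (W3 := 13421774) (N0 := 3) (En := eng) (mo := mog) (C1 := cd1q0) (C2 := cd1q3) (C3 := pd3)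
    rfl (fun _ => rfl) k0_pm_033

noncomputable def f_pm_101 : ℕ → ℕ → ℕ → ℕ → Bool := onCell 536870912 536870912 0 536870912 1020054732 13421774
    (rowB 3 eng mog cd1q1 cd1q0 pd1 2 true true false .npn 1 0 1 (qsf 536870912 536870912 0 536870912 1) ndB1q1 ndB1q0 pcB1 Cut.none Ext.none)

def k0_pm_101 : ∃ t, chk3 f_pm_101 t 1 1 1 = true :=
  ⟨(l 3), by decide +kernel⟩

theorem c_pm_101 : CertB 536870912 536870912 0 536870912 1020054732 13421774 3 eng mog cd1q1 cd1q0 pd1 true true false .npn 1 0 1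
    ndB1q1 ndB1q0 pcB1 Cut.none Ext.none :=
  certB2 (fam := true) (s1 := true) (s2 := false) (a := 1) (b := 0) (c := 1) (cn := .npn) (n1 := ndB1q1) (n2 := ndB1q0) (pc := pcB1) (cut := Cut.none) (xt := Ext.none) (P1 := 536870912) (W1 := 536870912) (P2 := 0) (W2 := 536870912) (P3 := 1020054732) (W3 := 13421774) (N0 := 3) (En := eng) (mo := mog) (C1 := cd1q1) (C2 := cd1q0) (C3 := pd1)
    rfl (fun _ => rfl) k0_pm_101

noncomputable def f_pm_102 : ℕ → ℕ → ℕ → ℕ → Bool := onCell 536870912 536870912 1073741824 536870912 1020054732 13421774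
    (rowB 3 eng mog cd1q1 cd1q0 pd2 1 true true false .npp 1 0 2 (qsf 536870912 536870912 0 536870912 2) ndB1q1 ndB1q0 pcB2 Cut.none Ext.none)

def k0_pm_102 : ∃ t, chk3 f_pm_102 t 1 4 1 = true :=
  ⟨(b (l 3) (a (l 3) (a (l 3) (b (a (l 3) (a (l 3) (b (l 3) (a (l 3) (b (l 3) (l 255717539127)))))) (b (a (l 3) (a (b (l 3) (a (l 16462280) (l 16451912))) (a (b (l 16405144) (l 16443880)) (b (l 61370214135) (c (l 16405168) (l 16469728)))))) (a (a (l 213304722119) (b (l 16457392) (l 16433504))) (a (b (l 16411792) (a (l 16414192) (c (l 16380376) (l 16418536)))) (c (b (a (l 16391800) (l 16289472)) (a (l 16357328) (l 16326728))) (b (a (l 16443552) (a (l 16439312) (l 16430952))) (a (l 16382696) (l 16375344))))))))))), by decide +kernel⟩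

def k1_pm_102 : ∃ t, chk3 f_pm_102 t 2 5 1 = true :=
  ⟨(b (b (b (l 3) (a (l 2) (b (a (l 3) (a (l 3) (l 16498888))) (b (a (c (l 16658248) (l 16593912)) (c (l 16629936) (l 16517520))) (a (c (l 16684168) (l 16635312)) (a (l 16612840) (c (l 16610128) (l 16402848)))))))) (a (l 2) (a (c (l 16661376) (c (l 16653408) (l 16555704))) (c (a (l 16701480) (l 16634568)) (l 16407928))))) (a (l 2) (a (c (a (l 2) (l 16690768)) (l 16387352)) (a (c (l 16618704) (l 16452288)) (l 16261872))))), by decide +kernel⟩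

def k2_pm_102 : ∃ t, chk3 f_pm_102 t 3 5 1 = true :=
  ⟨(a (b (b (b (a (a (l 3) (l 173576246839)) (a (l 181629277319) (b (l 16479744) (l 16457288)))) (b (a (a (c (l 16613632) (l 16513488)) (l 16483480)) (a (l 16414832) (c (l 16453816) (l 16405504)))) (b (a (a (l 16518224) (l 16467128)) (a (l 16414312) (l 16397616))) (b (a (a (l 16488480) (l 16453704)) (a (l 16435056) (l 16374472))) (a (a (l 16458184) (l 16460480)) (a (l 16420384) (l 16359664))))))) (a (a (l 16416528) (l 16373736)) (a (l 16330496) (l 16287752)))) (a (a (l 16234960) (l 16141632)) (a (b (l 16293832) (l 16222632)) (b (l 16224240) (l 16147240))))) (b (b (b (a (a (b (l 16441992) (a (l 16427504) (l 16407168))) (b (a (l 16417264) (l 16400096)) (a (l 16385440) (l 16359856)))) (a (b (a (c (l 16369576) (l 16392760)) (l 16271784)) (a (l 16329736) (l 16300944))) (b (a (l 16304632) (l 16233872)) (a (l 16272576) (l 16244784))))) (b (a (a (b (l 16391840) (l 16365784)) (c (l 16325152) (l 16313952)))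 (a (a (l 16276416) (l 16248368)) (a (l 16221088) (l 16194760)))) (a (b (a (l 16337816) (l 16279376)) (b (a (l 16314800) (l 16257136)) (a (l 16300272) (l 16243344)))) (b (a (l 16223464) (a (l 16183984) (l 16158768))) (b (a (l 16202736) (a (l 16164512) (l 16142112))) (a (a (l 16203120) (c (l 16183408) (l 16171632))) (a (c (l 16154608) (l 16153752)) (l 16129168)))))))) (a (a (l 16225536) (l 16103096)) (a (a (l 16144832) (l 16076112)) (c (a (l 16092032) (l 16055776)) (a (l 16090880) (l 16074944)))))) (a (a (b (l 16156184) (l 16073368)) (b (l 16090888) (l 16002304))) (a (a (l 15976264) (b (l 16014736) (l 15918744))) (b (c (l 15902784) (l 15971768)) (c (l 15864264) (l 15868440))))))), by decide +kernel⟩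

def k3_pm_102 : ∃ t, chk3 f_pm_102 t 1 3 1 = true :=
  ⟨(a (b (a (l 2) (a (l 2) (b (a (l 2) (l 16310576)) (l 2)))) (l 2)) (a (b (a (b (a (l 16233656) (l 16213944)) (a (l 2) (l 16125984))) (b (a (l 16129848) (l 16045976)) (a (l 16031456) (l 15936840)))) (a (l 2) (b (a (l 2) (l 15856920)) (l 2)))) (b (a (b (a (l 15963536) (l 15758056)) (a (l 15843400) (l 15752632))) (b (b (a (l 15721840) (c (l 15769968) (l 15773056))) (a (l 15768440) (c (l 15683160) (l 15685784)))) (a (a (l 15687104) (l 15516584)) (c (l 15546992) (l 15570632))))) (a (b (a (l 15753256) (l 15651984)) (a (l 2) (l 15581344))) (a (b (c (l 15573256) (l 15531696)) (l 15220408)) (b (c (l 15442160) (l 15446168)) (c (l 15349304) (l 15355264)))))))), by decide +kernel⟩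

theorem s4_pm_102 : ∃ t, chk3 f_pm_102 t 1 5 1 = true := ex3_a k1_pm_102 k2_pm_102

theorem s5_pm_102 : ∃ t, chk3 f_pm_102 t 1 2 1 = true := ex3_b k0_pm_102 s4_pm_102

theorem s6_pm_102 : ∃ t, chk3 f_pm_102 t 1 1 1 = true := ex3_b s5_pm_102 k3_pm_102

theorem c_pm_102 : CertB 536870912 536870912 0 536870912 1020054732 13421774 3 eng mog cd1q1 cd1q0 pd2 true true false .npp 1 0 2
    ndB1q1 ndB1q0 pcB2 Cut.none Ext.none :=
  certB1 (fam := true) (s1 := true) (s2 := false) (a := 1) (b := 0) (c := 2) (cn := .npp) (n1 := ndB1q1) (n2 := ndB1q0) (pc := pcB2) (cut := Cut.none) (xt := Ext.none) (P1 := 536870912) (W1 := 536870912) (P2 := 0) (W2 := 536870912) (P3 := 1020054732) (W3 := 13421774) (N0 := 3) (En := eng) (mo := mog) (C1 := cd1q1) (C2 := cd1q0) (C3 := pd2)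
    rfl (fun _ => rfl) s6_pm_102

noncomputable def f_pm_112 : ℕ → ℕ → ℕ → ℕ → Bool := onCell 536870912 536870912 1073741824 536870912 1020054732 13421774
    (rowB 3 eng mog cd1q1 cd1q1 pd2 1 true true false .dn 1 1 2 (qsf 536870912 536870912 536870912 536870912 2) ndB1q1 ndB1q1 pcB2 Cut.none Ext.none)

def k0_pm_112 : ∃ t, chk3 f_pm_112 t 2 2 1 = true :=
  ⟨(b (l 3) (b (b (b (l 3) (a (b (l 3) (b (l 3) (c (a (l 16113120) (l 16094528)) (a (l 16496640) (l 16481736))))) (a (b (l 3) (b (a (l 3) (l 1)) (c (l 16127408) (l 16523768)))) (l 1)))) (a (a (c (a (l 16244336) (l 16223072)) (c (l 16531680) (l 16596176))) (c (a (l 16216424) (l 16228392)) (c (l 16508048) (l 16641096)))) (a (c (a (l 16242024) (l 16271264)) (c (l 16573096) (l 16559416))) (a (c (l 16254120) (l 16499760)) (l 1))))) (a (a (c (b (a (l 16387568) (l 16375168)) (l 16202224)) (c (l 16454728) (a (l 16497448) (l 16553936)))) (c (a (l 16219976) (b (l 16372440) (l 16458560))) (c (l 16513296)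 (b (l 16623952) (l 16537448))))) (a (b (c (l 16675161239) (c (l 16659960) (l 16601184))) (c (c (l 16394376) (l 16536496)) (l 16396576))) (c (a (l 16199392) (l 227128722311)) (c (a (l 16657488) (l 16649696)) (a (l 16517768) (l 16467104)))))))), by decide +kernel⟩

def k1_pm_112 : ∃ t, chk3 f_pm_112 t 2 3 1 = true :=
  ⟨(b (a (a (b (c (c (l 16205632) (l 16393856)) (c (a (l 16511400) (l 16566960)) (b (l 16343368) (l 16278008)))) (c (a (l 16420160) (l 16413432)) (c (a (l 16254840) (l 16326608)) (l 15874856)))) (b (c (c (l 16374840) (l 16536056)) (c (l 16620112) (l 16313992))) (c (a (l 16474264) (l 16585768)) (a (l 16197472) (l 16312888))))) (a (c (b (a (l 16465768) (l 16457160)) (a (l 16678632) (l 16730080))) (b (c (l 16616032) (l 16410616)) (c (l 16440376) (l 16230872)))) (b (a (c (l 16395376) (l 16392112)) (c (l 16349672) (l 16336152))) (c (a (l 16657696) (l 16559320)) (l 16134648))))) (a (b (a (c (a (l 16201272) (l 16308536)) (a (l 15813544) (l 15916792)))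 (c (a (l 16380152) (l 16416112)) (a (l 15960968) (l 16029808)))) (a (c (a (b (l 15996184) (a (l 15801504) (l 15866664))) (b (l 16086712) (l 15937832))) (a (b (l 15690392) (l 15557560)) (l 15565312))) (c (a (l 16090200) (l 16155032)) (a (l 15790832) (l 15853296))))) (a (b (c (a (l 16478688) (l 16506528)) (a (l 16121120) (l 16135944))) (c (a (l 16206856) (l 16243768)) (a (l 15898416) (l 15924168)))) (b (c (l 16409408) (l 16014032)) (c (l 16273080) (l 15939400)))))), by decide +kernel⟩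

def k2_pm_112 : ∃ t, chk3 f_pm_112 t 3 1 1 = true :=
  ⟨(b (b (l 1) (a (a (a (b (l 1) (c (l 16196736) (l 198674738663))) (l 1)) (l 1)) (l 1))) (a (b (a (c (b (a (l 16350056) (l 16402696)) (a (l 16471296) (l 16472968))) (b (c (l 16267064) (l 16086456)) (a (l 16281976) (l 16233152)))) (a (b (c (l 16389832) (l 164851721399)) (c (l 16460840) (l 16079096))) (b (l 1) (c (l 16423064) (l 16013064))))) (a (b (c (a (l 16478312) (l 16437264)) (a (l 16120808) (l 16051864))) (c (l 16067664) (l 15700016))) (b (c (a (l 16380320) (l 16307888)) (a (l 16045976) (l 15979600))) (c (a (l 16207056) (l 16154288)) (a (l 15899592) (l 15853056)))))) (b (b (l 1) (a (a (b (l 1) (l 157871800967)) (l 1)) (l 1))) (b (a (c (a (l 16221368) (l 16121800)) (a (l 15897272) (l 15799800))) (a (c (l 170219587591) (l 15625976)) (l 1))) (a (c (a (l 16089184) (l 16013128)) (a (l 15790512) (l 15713136))) (c (a (l 15754928) (c (l 15828200) (l 15722600))) (a (l 15622432) (l 15524944)))))))),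 by decide +kernel⟩

theorem s3_pm_112 : ∃ t, chk3 f_pm_112 t 2 1 1 = true := ex3_b k0_pm_112 k1_pm_112

theorem s4_pm_112 : ∃ t, chk3 f_pm_112 t 1 1 1 = true := ex3_a s3_pm_112 k2_pm_112

theorem c_pm_112 : CertB 536870912 536870912 536870912 536870912 1020054732 13421774 3 eng mog cd1q1 cd1q1 pd2 true true false .dn 1 1 2
    ndB1q1 ndB1q1 pcB2 Cut.none Ext.none :=
  certB1 (fam := true) (s1 := true) (s2 := false) (a := 1) (b := 1) (c := 2) (cn := .dn) (n1 := ndB1q1) (n2 := ndB1q1) (pc := pcB2) (cut := Cut.none) (xt := Ext.none) (P1 := 536870912) (W1 := 536870912) (P2 := 536870912) (W2 := 536870912) (P3 := 1020054732) (W3 := 13421774) (N0 := 3) (En := eng) (mo := mog) (C1 := cd1q1) (C2 := cd1q1) (C3 := pd2)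
    rfl (fun _ => rfl) s4_pm_112

noncomputable def f_pm_113 : ℕ → ℕ → ℕ → ℕ → Bool := onCell 536870912 536870912 536870912 536870912 1020054732 13421774
    (rowB 3 eng mog cd1q1 cd1q1 pd3 0 true true false .nn 1 1 3 (qsf 536870912 536870912 536870912 536870912 3) ndB1q1 ndB1q1 pcB3 Cut.none Ext.none)

def k0_pm_113 : ∃ t, chk3 f_pm_113 t 2 1 1 = true :=
  ⟨(b (a (l 1) (b (l 1) (b (l 1) (a (l 1) (c (l 16144896) (l 175051495303)))))) (b (a (a (l 1) (a (l 1) (b (l 1) (b (l 1) (l 15892504))))) (b (a (b (l 1) (a (l 1) (l 16055128))) (c (l 62845692439) (a (l 15901880) (l 15793424)))) (a (b (a (l 16042640) (b (l 16041832) (l 15979240))) (c (l 16016936) (l 15741088))) (b (a (c (l 16024968) (l 15777328)) (l 15766272)) (a (l 15717000) (b (l 15712832) (l 15651856))))))) (a (b (a (b (l 1) (c (l 177198509527) (l 15512720))) (b (c (l 15746288) (l 15704776)) (a (l 133174837735) (l 15433936)))) (b (a (b (a (l 1) (l 15531856)) (a (l 15479728) (l 15431240))) (b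 (a (l 15485648) (l 15437912)) (a (l 15380632) (l 15329088)))) (a (c (a (l 15469208) (l 15423560)) (a (l 15465880) (l 15413624))) (c (a (l 15373616) (l 15320296)) (a (l 15357272) (l 15297824)))))) (b (a (b (a (l 15647080) (l 15637696)) (a (l 15439264) (l 15463032))) (b (a (l 15624088) (l 15543848)) (a (l 15442800) (l 15379288)))) (b (a (a (b (l 15388952) (l 15277920)) (b (l 15339168) (l 15228512))) (a (b (l 15289192) (l 15182296)) (b (l 15239992) (l 15140832)))) (a (c (b (l 15240064) (l 15235200)) (b (l 15202032) (l 15211128))) (a (c (l 15154528) (l 15115872)) (b (l 15084512) (l 15083504))))))))), by decide +kernel⟩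

def k1_pm_113 : ∃ t, chk3 f_pm_113 t 3 2 1 = true :=
  ⟨(a (b (a (l 1) (a (l 1) (b (l 1) (b (l 1) (l 15892504))))) (a (b (a (l 1) (b (l 1) (l 16055128))) (c (l 62845692439) (b (l 15901880) (l 15793424)))) (b (a (b (l 16042640) (a (l 16041832) (l 15979240))) (c (l 16016936) (l 15741088))) (a (b (c (l 16024968) (l 15777328)) (l 15766272)) (b (l 15717000) (a (l 15712832) (l 15651856))))))) (b (a (b (a (l 1) (c (l 213705731543) (l 15512720))) (a (c (l 15746288) (l 15704776)) (b (l 133174837735) (l 15433936)))) (a (b (a (b (l 1) (l 15531856)) (b (l 15479728) (l 15431240))) (a (b (l 15485648) (l 15437912)) (b (l 15380632) (l 15329088)))) (b (c (b (l 15469208) (l 15423560)) (b (l 15465880) (l 15413624))) (c (b (l 15373616) (l 15320296)) (b (l 15357272) (l 15297824)))))) (a (b (a (b (l 15647080) (l 15637696)) (b (l 15439264) (l 15463032))) (a (b (l 15624088) (l 15543848)) (b (l 15442800) (l 15379288)))) (a (b (b (a (l 15388952) (l 15277920)) (a (l 15339168)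 (l 15228512))) (b (a (l 15289192) (l 15182296)) (a (l 15239992) (l 15140832)))) (b (c (a (l 15240064) (l 15235200)) (a (l 15202032) (l 15211128))) (b (c (l 15154528) (l 15115872)) (a (l 15084512) (l 15083504)))))))), by decide +kernel⟩

def k2_pm_113 : ∃ t, chk3 f_pm_113 t 6 3 1 = true :=
  ⟨(b (b (a (c (l 15739488) (l 15386496)) (a (b (l 15671744) (l 15560464)) (b (l 15469704) (l 15465296)))) (a (b (a (l 15671744) (l 15560464)) (a (l 15469704) (l 15465296))) (c (l 15451376) (l 15103528)))) (b (a (b (a (l 15462496) (b (l 15399200) (l 15346048))) (a (l 15315648) (l 15253784))) (b (a (l 15282800) (l 15203968)) (a (l 14968016) (b (l 15161808) (l 15133144))))) (a (b (a (l 15149648) (l 15115152)) (b (a (l 15044200) (l 15019672)) (a (l 15040256) (l 15013104)))) (b (a (l 15091592) (l 15087344)) (b (a (l 15017784) (l 15050360)) (a (l 15012816) (l 15058304))))))), by decide +kernel⟩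

def k3_pm_113 : ∃ t, chk3 f_pm_113 t 7 3 1 = true :=
  ⟨(b (a (b (a (b (l 15462496) (a (l 15399200) (l 15346048))) (b (l 15315648) (l 15253784))) (a (b (l 15282800) (l 15203968)) (b (l 14988984) (a (l 15161808) (l 15133144))))) (b (a (b (l 15149648) (l 15115152)) (b (a (l 15044200) (l 15040256)) (a (l 15019672) (l 15013104)))) (a (b (l 15091592) (l 15087344)) (a (b (l 15017784) (l 15050360)) (b (l 15012816) (l 15058304)))))) (a (b (a (b (l 15146520) (l 15117344)) (b (l 15117344) (l 15132112))) (b (a (b (l 15115568) (l 15121712)) (b (l 15185120) (l 15247936))) (a (b (l 15140840) (l 15187208)) (b (l 15343168) (l 15489232))))) (b (a (b (a (l 15115568) (l 15121712)) (a (l 15185120) (l 15247936))) (b (a (l 15140840) (l 15187208)) (a (l 15343168) (l 15489232)))) (a (b (l 15446792) (b (l 15812728) (a (l 15981248) (l 16622400)))) (b (a (l 15812728) (b (l 15980984) (l 16621192))) (a (b (l 16654360) (b (l 16812864) (a (l 16788112) (l 16789144)))) (b (a (l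 16812864) (b (l 16788424) (l 16793672))) (a (b (l 16810592) (l 16792320)) (b (l 16792320) (b (l 16787584) (a (l 16784144) (b (l 16782280) (a (l 16780264) (a (l 16779656) (b (l 16778568) (b (l 16778400) (c (l 16777592) (l 16882744)))))))))))))))))), by decide +kernel⟩

theorem s4_pm_113 : ∃ t, chk3 f_pm_113 t 3 3 1 = true := ex3_a k2_pm_113 k3_pm_113

theorem s5_pm_113 : ∃ t, chk3 f_pm_113 t 3 1 1 = true := ex3_b k1_pm_113 s4_pm_113

theorem s6_pm_113 : ∃ t, chk3 f_pm_113 t 1 1 1 = true := ex3_a k0_pm_113 s5_pm_113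

theorem c_pm_113 : CertB 536870912 536870912 536870912 536870912 1020054732 13421774 3 eng mog cd1q1 cd1q1 pd3 true true false .nn 1 1 3
    ndB1q1 ndB1q1 pcB3 Cut.none Ext.none :=
  certB0 (fam := true) (s1 := true) (s2 := false) (a := 1) (b := 1) (c := 3) (cn := .nn) (n1 := ndB1q1) (n2 := ndB1q1) (pc := pcB3) (cut := Cut.none) (xt := Ext.none) (P1 := 536870912) (W1 := 536870912) (P2 := 536870912) (W2 := 536870912) (P3 := 1020054732) (W3 := 13421774) (N0 := 3) (En := eng) (mo := mog) (C1 := cd1q1) (C2 := cd1q1) (C3 := pd3)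
    rfl s6_pm_113

noncomputable def f_pm_123_a : ℕ → ℕ → ℕ → ℕ → Bool := onCell 1610612736 536870912 0 536870912 1020054732 13421774
    (rowB 3 eng mog cd1q1 cd1q2a pd3 2 true true false .npn 1 2 3 (qsf 536870912 536870912 0 536870912 3) ndB1q1 ndB1q2a pcB3 Cut.none Ext.none)

def k0_pm_123_a : ∃ t, chk3 f_pm_123_a t 2 1 1 = true :=
  ⟨(a (b (a (l 1) (b (l 1) (c (l 462277784055) (l 308733291447)))) (b (a (l 1) (c (b (l 16207736) (l 16207800)) (b (l 16408520) (l 16391392)))) (a (b (c (l 16167800) (l 16327424)) (c (l 15933728) (a (l 16296648) (l 16237384)))) (b (c (l 16209992) (l 16296040)) (c (a (l 16195120) (l 16195552)) (a (l 16164304) (l 16088080))))))) (b (a (a (b (c (l 16285528) (l 16493056)) (c (l 16102760) (l 16310736))) (b (c (l 16319664) (l 16549360)) (b (a (l 16270256) (l 16297968)) (l 16259048)))) (a (b (c (l 16363208) (l 16590152)) (c (b (l 16319496) (l 16312960)) (b (l 16552760) (l 16532064)))) (b (c (b (l 16409320) (l 16400512)) (l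 16509064)) (b (l 16321264) (b (l 16363520) (l 16315984)))))) (b (a (c (b (l 16264424) (l 16273112)) (b (l 16467832) (l 16393920))) (c (b (l 16240616) (l 16357744)) (b (l 16427808) (l 16329664)))) (a (b (c (l 16215400) (l 16203328)) (a (b (l 16132496) (l 15991584)) (b (l 16060736) (l 15906528)))) (b (c (l 16134936) (l 15980288)) (a (b (l 15993000) (l 15761696)) (b (l 15932792) (l 15749512)))))))), by decide +kernel⟩

def k1_pm_123_a : ∃ t, chk3 f_pm_123_a t 3 1 1 = true :=
  ⟨(a (b (b (a (a (a (l 66269081047) (l 77543427639)) (a (l 85596551127) (l 97944665223))) (l 4)) (b (a (a (l 16382360) (l 16387576)) (a (l 58753022791) (l 4))) (a (a (l 16312856) (l 16404680)) (a (l 16486784) (l 16442416))))) (a (a (b (b (c (l 16420800) (l 16465032)) (l 16331936)) (b (l 16008288) (b (l 15884520) (l 15686088)))) (b (b (b (l 16452368) (l 16438032)) (l 16334640)) (b (b (l 16168352) (l 16026816)) (b (l 15853992) (l 15641088))))) (b (a (b (l 16400104) (b (l 16405040)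 (l 16306424))) (b (l 16536744) (b (l 16441240) (l 16349960)))) (b (a (b (l 16182240) (l 16032112)) (b (l 16227488) (l 16070592))) (a (b (l 15849168) (l 15624504)) (b (l 15881560) (l 15652536))))))) (b (a (a (a (b (l 4) (l 92576043623)) (l 4)) (l 4)) (l 4)) (a (b (a (b (a (l 16574736) (l 16607632)) (a (l 16438144) (l 16472648))) (a (b (l 16598504) (l 16514392)) (b (l 4) (l 16524360)))) (a (b (b (l 16175928) (l 16154472)) (b (l 15968656) (l 15754520))) (b (a (b (l 16376544) (l 16249992)) (b (l 16435592) (l 16326576))) (b (a (l 16085592) (l 16194056)) (l 15991912))))) (b (a (a (b (l 4) (l 16534928)) (l 4)) (l 4)) (a (b (a (b (l 16499360) (l 16412680)) (c (l 16522648) (l 16498344))) (a (b (l 16327184) (l 16334688)) (b (l 16476728) (a (l 16605128) (l 16626112))))) (b (l 4) (b (a (a (l 16534536) (l 4)) (l 4)) (a (a (l 16594624) (l 16513648)) (l 4))))))))), by decide +kernel⟩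

theorem s2_pm_123_a : ∃ t, chk3 f_pm_123_a t 1 1 1 = true := ex3_a k0_pm_123_a k1_pm_123_a

theorem c_pm_123_a : CertB 536870912 536870912 0 536870912 1020054732 13421774 3 eng mog cd1q1 cd1q2a pd3 true true false .npn 1 2 3
    ndB1q1 ndB1q2a pcB3 Cut.none Ext.none :=
  certB2 (fam := true) (s1 := true) (s2 := false) (a := 1) (b := 2) (c := 3) (cn := .npn) (n1 := ndB1q1) (n2 := ndB1q2a) (pc := pcB3) (cut := Cut.none) (xt := Ext.none) (P1 := 536870912) (W1 := 536870912) (P2 := 0) (W2 := 536870912) (P3 := 1020054732) (W3 := 13421774) (N0 := 3) (En := eng) (mo := mog) (C1 := cd1q1) (C2 := cd1q2a) (C3 := pd3)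
    rfl (fun _ => rfl) s2_pm_123_a

noncomputable def f_pm_123_b : ℕ → ℕ → ℕ → ℕ → Bool := onCell 1610612736 536870912 1239849684 370763052 1020054732 13421774
    (rowB 3 eng mog cd1q1 cd1q2b pd3 2 true true false .npn 1 2 3 (qsf 536870912 536870912 1239849684 370763052 3) ndB1q1 ndB1q2b pcB3 Cut.none Ext.none)

def k0_pm_123_b : ∃ t, chk3 f_pm_123_b t 1 1 1 = true :=
  ⟨(a (a (l 1) (b (a (b (b (c (a (l 16291160) (l 16316600)) (a (l 16552464) (l 16580384))) (l 1)) (l 1)) (b (b (a (c (l 16289720) (l 16573256)) (c (l 16265000) (l 16521024))) (a (c (l 16273624) (l 16544600)) (l 4))) (a (l 1) (l 4)))) (l 1))) (a (l 4) (l 4))), by decide +kernel⟩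

theorem c_pm_123_b : CertB 536870912 536870912 1239849684 370763052 1020054732 13421774 3 eng mog cd1q1 cd1q2b pd3 true true false .npn 1 2 3
    ndB1q1 ndB1q2b pcB3 Cut.none Ext.none :=
  certB2 (fam := true) (s1 := true) (s2 := false) (a := 1) (b := 2) (c := 3) (cn := .npn) (n1 := ndB1q1) (n2 := ndB1q2b) (pc := pcB3) (cut := Cut.none) (xt := Ext.none) (P1 := 536870912) (W1 := 536870912) (P2 := 1239849684) (W2 := 370763052) (P3 := 1020054732) (W3 := 13421774) (N0 := 3) (En := eng) (mo := mog) (C1 := cd1q1) (C2 := cd1q2b) (C3 := pd3)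
    rfl (fun _ => rfl) k0_pm_123_b

noncomputable def f_pm_133 : ℕ → ℕ → ℕ → ℕ → Bool := onCell 536870912 536870912 1610612736 536870912 1020054732 13421774
    (rowB 3 eng mog cd1q1 cd1q3 pd3 0 true true false .dn 1 3 3 (qsf 536870912 536870912 1610612736 536870912 3) ndB1q1 ndB1q3 pcB3 Cut.none Ext.none)

def k0_pm_133 : ∃ t, chk3 f_pm_133 t 1 1 1 = true :=
  ⟨(l 4), by decide +kernel⟩

theorem c_pm_133 : CertB 536870912 536870912 1610612736 536870912 1020054732 13421774 3 eng mog cd1q1 cd1q3 pd3 true true false .dn 1 3 3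
    ndB1q1 ndB1q3 pcB3 Cut.none Ext.none :=
  certB0 (fam := true) (s1 := true) (s2 := false) (a := 1) (b := 3) (c := 3) (cn := .dn) (n1 := ndB1q1) (n2 := ndB1q3) (pc := pcB3) (cut := Cut.none) (xt := Ext.none) (P1 := 536870912) (W1 := 536870912) (P2 := 1610612736) (W2 := 536870912) (P3 := 1020054732) (W3 := 13421774) (N0 := 3) (En := eng) (mo := mog) (C1 := cd1q1) (C2 := cd1q3) (C3 := pd3)
    rfl k0_pm_133

noncomputable def cut_pm_202_a : Cut := Cut.of [[⟨0, 1, 0, 33554432⟩, ⟨1, 0, 0, 33554432⟩, ⟨2, 1, 0, 33554432⟩]]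

noncomputable def f_pm_202_a : ℕ → ℕ → ℕ → ℕ → Bool := onCell 0 536870912 1073741824 536870912 1020054732 13421774
    (rowB 3 eng mog cd1q2a cd1q0 pd2 1 true true false .pp 2 0 2 (qsf 0 536870912 0 536870912 2) ndB1q2a ndB1q0 pcB2 cut_pm_202_a Ext.none)

def k0_pm_202_a : ∃ t, chk3 f_pm_202_a t 2 1 1 = true :=
  ⟨(b (a (b (l 1) (b (b (a (b (l 1) (l 16232936)) (a (l 16213640) (l 16225360))) (a (l 15933208) (b (l 16251008) (l 16155672)))) (b (a (l 15800352) (l 15786320)) (a (l 15636424) (l 15693960))))) (b (b (l 1) (b (l 1) (a (l 1) (b (l 1) (b (l 1) (l 16352440)))))) (b (b (a (a (l 16254632) (l 16279800)) (a (l 16300064) (l 16335544))) (a (b (l 16275104) (l 16226648)) (c (l 16147040) (l 16245768)))) (b (a (b (l 16138264) (l 16052080)) (b (l 16195600) (l 16113936))) (a (b (l 15968256) (l 15886960)) (b (l 16034448) (l 15957304))))))) (b (a (b (b (a (c (l 15557968) (l 15579560)) (l 15549952)) (a (c (l 15401864) (l 15417224)) (c (l 15508928) (l 15537912))))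 (a (b (c (l 15260688) (l 15269056)) (l 15135680)) (b (l 15363248) (l 15259712)))) (b (a (b (l 15644392) (c (l 15603472) (l 15646072))) (b (c (l 15817424) (l 15876016)) (c (l 15680048) (l 15736224)))) (a (b (l 15491424) (l 15371824)) (b (l 15580976) (l 15466704))))) (a (b (a (b (l 15023120) (c (l 14935688) (l 14920280))) (b (l 15150616) (l 15057792))) (a (b (l 14850960) (a (a (b (l 14754792) (b (l 14739944) (l 14786848))) (l 14776240)) (l 14826560))) (b (l 14982008) (l 14923992)))) (b (a (b (l 15266608) (l 15176600)) (b (l 15365872) (l 15279256))) (a (c (l 15047848) (l 15075632)) (b (l 15207560) (l 15151432))))))), by decide +kernel⟩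

def k1_pm_202_a : ∃ t, chk3 f_pm_202_a t 6 1 1 = true :=
  ⟨(b (b (b (l 1) (a (b (l 1) (b (a (l 16333360) (l 16320400)) (a (b (l 16418512) (l 16461128)) (l 16379656)))) (b (b (a (l 1) (b (l 1) (l 16371104))) (a (b (l 16370400) (l 16407952)) (b (l 16405720) (l 16440320)))) (a (b (l 16359328) (l 16433920)) (c (l 16428104) (l 16393568)))))) (b (a (b (b (l 16377040) (l 16343784)) (b (l 16282472) (l 16243672))) (b (a (b (l 16478656) (l 16398736)) (a (l 16341024) (l 16328104))) (a (l 16155632) (l 16119584)))) (a (b (b (l 16227568) (l 16150432)) (b (l 16075336) (l 16002416))) (b (a (l 16130528) (l 16120224)) (a (l 16049984) (l 16044272)))))) (b (b (a (b (c (l 15862512) (l 15933344)) (c (l 15731920) (l 15801632))) (b (a (l 15915104) (l 15913760)) (a (l 15789792) (l 15792544)))) (a (b (l 15646240) (l 15537832)) (b (l 15636968) (l 15577072)))) (b (a (b (l 15442024) (l 15359520)) (b (l 15487072) (l 15409552))) (a (b (l 15290992) (l 15237032)) (b (l 15345128)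 (l 15294336)))))), by decide +kernel⟩

def k2_pm_202_a : ∃ t, chk3 f_pm_202_a t 7 16 1 = true :=
  ⟨(a (l 1) (b (a (l 1) (l 6)) (b (a (a (l 1) (l 6)) (l 6)) (b (a (a (l 1) (l 6)) (l 6)) (b (a (a (l 1) (l 6)) (l 6)) (a (a (a (l 1) (a (l 1) (c (l 16579216) (l 16568944)))) (a (a (b (l 6) (l 16593576)) (l 16589520)) (l 16617312))) (a (a (l 16654952) (l 16693296)) (l 16667360)))))))), by decide +kernel⟩

def k3_pm_202_a : ∃ t, chk3 f_pm_202_a t 7 17 1 = true :=
  ⟨(a (a (b (l 1) (b (l 1) (a (l 1) (l 16466376)))) (a (b (l 1) (b (a (l 16477104) (l 16484648)) (l 16499400))) (b (b (a (l 1) (b (l 1) (a (l 1) (a (l 1) (b (l 1) (l 87542989671)))))) (a (b (l 16500304) (l 16514096)) (b (a (l 16523440) (b (l 16514816) (l 16542408))) (l 16523672)))) (b (c (l 16522376) (l 16514168)) (l 16514168))))) (a (b (a (b (b (b (a (l 1) (a (c (l 16568424) (l 16555488)) (c (l 16585536) (l 16573912)))) (a (a (l 1) (c (l 16558272) (l 16542504))) (c (l 47277748231) (a (l 16560624)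 (l 16578920))))) (a (c (b (a (l 16548720) (l 16565096)) (l 16521944)) (a (b (l 16529976) (l 16535400)) (l 16529472))) (c (l 16551384) (b (l 16553912) (l 16580008))))) (b (b (a (c (l 16549920) (l 16507664)) (l 16573328)) (a (a (l 16537360) (l 16574904)) (l 16579280))) (a (a (l 16547072) (l 16563224)) (l 16567296)))) (b (a (b (c (b (l 16590592) (l 16617664)) (b (l 16580944) (l 16606736))) (c (l 16605992) (l 16593048))) (b (c (l 16628720) (l 16621144)) (l 16635360))) (b (a (l 16589824) (l 16645984)) (a (l 16622184) (l 16635808))))) (a (b (a (b (l 16547016) (l 16580864)) (b (l 16600336) (l 16591512))) (a (l 16579304) (l 16588984))) (b (a (l 16597552) (l 16631296)) (l 16610800)))) (b (a (b (b (a (l 16662096) (l 16678952)) (b (l 16646176) (l 16650952))) (b (l 16658232) (l 16642728))) (b (b (c (l 16656656) (l 16654624)) (a (l 16675776) (l 16666456))) (c (l 16614192) (l 16616456)))) (a (b (b (l 16625544) (l 16608224)) (l 16561064)) (b (c (l 16599680) (l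 16606240)) (c (l 16584216) (l 16595640))))))), by decide +kernel⟩

def k4_pm_202_a : ∃ t, chk3 f_pm_202_a t 7 9 1 = true :=
  ⟨(a (b (a (b (a (l 16400616) (l 16428496)) (l 16425224)) (b (b (l 16451216) (l 16500312)) (l 16500424))) (a (c (l 16447184) (l 16468976)) (a (l 16396400) (l 16366656)))) (b (a (b (a (a (l 16576232) (l 16547864)) (b (l 16553952) (l 16538920))) (a (l 16505032) (c (l 16461432) (l 16529944)))) (b (a (b (l 16546864) (l 16532504)) (b (l 16492488) (l 16478696))) (a (b (l 16497152) (l 16482872)) (b (l 16464792) (l 16429904))))) (a (b (a (l 16473784) (l 16371728)) (l 16340672)) (b (a (b (l 16447816) (l 16391936)) (c (l 16377600) (l 16420328))) (a (c (l 16350864) (l 16413776)) (l 16225320)))))), by decide +kernel⟩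

def k5_pm_202_a : ∃ t, chk3 f_pm_202_a t 7 5 1 = true :=
  ⟨(b (a (b (a (b (l 16402864) (l 16369880)) (b (l 16376008) (l 16366536))) (a (l 16113208) (l 16050768))) (b (a (b (l 16311752) (l 16304912)) (b (a (b (l 16331168) (l 16297472)) (l 16137224)) (b (a (l 16263896) (l 16213768)) (b (l 16109536) (b (l 16118368) (a (l 16217608) (l 16085760))))))) (a (l 15993080) (b (l 16010848) (l 15989496))))) (a (b (a (l 16097752) (l 16061304)) (a (l 16026528) (l 15994976))) (b (a (l 16008840) (b (l 16010976) (l 15970456))) (a (l 15947624) (l 15714408))))), by decide +kernel⟩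

def k6_pm_202_a : ∃ t, chk3 f_pm_202_a t 7 3 1 = true :=
  ⟨(b (b (a (b (a (l 15900536) (l 15873712)) (a (l 15783616) (l 15761288))) (b (a (l 15831304) (l 15708152)) (a (l 15723616) (l 15668344)))) (a (b (l 15542648) (l 15574040)) (b (a (l 15625264) (l 15574664)) (a (l 15536896) (l 15490624))))) (b (a (b (l 15490728) (l 15419120)) (b (a (l 15459088) (l 15416744)) (a (l 15392368) (l 15353480)))) (a (b (l 15359744) (l 15313072)) (b (a (l 15337184) (l 15301240)) (l 15215792))))), by decide +kernel⟩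

theorem s7_pm_202_a : ∃ t, chk3 f_pm_202_a t 7 8 1 = true := ex3_b k2_pm_202_a k3_pm_202_a

theorem s8_pm_202_a : ∃ t, chk3 f_pm_202_a t 7 4 1 = true := ex3_b s7_pm_202_a k4_pm_202_a

theorem s9_pm_202_a : ∃ t, chk3 f_pm_202_a t 7 2 1 = true := ex3_b s8_pm_202_a k5_pm_202_a

theorem s10_pm_202_a : ∃ t, chk3 f_pm_202_a t 7 1 1 = true := ex3_b s9_pm_202_a k6_pm_202_a

theorem s11_pm_202_a : ∃ t, chk3 f_pm_202_a t 3 1 1 = true := ex3_a k1_pm_202_a s10_pm_202_a

theorem s12_pm_202_a : ∃ t, chk3 f_pm_202_a t 1 1 1 = true := ex3_a k0_pm_202_a s11_pm_202_a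

theorem c_pm_202_a : CertB 0 536870912 0 536870912 1020054732 13421774 3 eng mog cd1q2a cd1q0 pd2 true true false .pp 2 0 2
    ndB1q2a ndB1q0 pcB2 cut_pm_202_a Ext.none :=
  certB1 (fam := true) (s1 := true) (s2 := false) (a := 2) (b := 0) (c := 2) (cn := .pp) (n1 := ndB1q2a) (n2 := ndB1q0) (pc := pcB2) (cut := cut_pm_202_a) (xt := Ext.none) (P1 := 0) (W1 := 536870912) (P2 := 0) (W2 := 536870912) (P3 := 1020054732) (W3 := 13421774) (N0 := 3) (En := eng) (mo := mog) (C1 := cd1q2a) (C2 := cd1q0) (C3 := pd2)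
    rfl (fun _ => rfl) s12_pm_202_a

noncomputable def cut_pm_202_b : Cut := Cut.of [[⟨0, 1, 0, 33554432⟩, ⟨1, 0, 0, 33554432⟩, ⟨2, 1, 0, 33554432⟩]]

noncomputable def f_pm_202_b : ℕ → ℕ → ℕ → ℕ → Bool := onCell 1073741824 536870912 0 536870912 1020054732 13421774
    (rowB 3 eng mog cd1q2b cd1q0 pd2 2 true true false .pp 2 0 2 (qsf 1239849684 370763052 0 536870912 2) ndB1q2b ndB1q0 pcB2 cut_pm_202_b Ext.none)

def k0_pm_202_b : ∃ t, chk3 f_pm_202_b t 1 1 1 = true :=
  ⟨(a (b (b (a (l 1) (b (a (b (a (l 255582692247) (l 265782916135)) (a (l 1) (l 275446502903))) (b (a (l 15917520) (l 15758672)) (a (l 226054098951) (l 15728224)))) (a (l 1) (b (a (l 274909261175) (l 235717444071)) (a (l 1) (l 266319010071)))))) (l 1)) (l 1)) (a (b (b (a (a (b (b (l 15603800) (l 15580848)) (b (l 15551048) (l 208337009079))) (b (l 15446800) (b (l 15416016) (l 15387320)))) (a (b (l 15304240) (l 15276904)) (b (l 15166408) (l 15155808)))) (a (b (a (b (l 265245216327) (l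 1)) (b (l 277056092215) (l 273297891047))) (l 1)) (b (a (b (l 15238248) (l 295309614039)) (b (l 15130280) (l 15104928))) (a (b (l 338259194007) (l 1)) (b (l 301751798295) (l 347922612071)))))) (l 1)) (b (b (a (b (l 14969008) (l 14984072)) (b (a (l 14786488) (l 14691392)) (a (l 14827672) (a (l 14758064) (l 14747888))))) (a (b (a (l 15021160) (l 14929584)) (a (b (l 14988392) (l 308730890231)) (b (l 14910552) (l 14889576)))) (a (b (l 14844880) (l 14835128)) (b (a (l 14794408) (l 14851800)) (a (l 14798584) (l 14873080)))))) (b (a (b (a (b (l 357049194007) (l 1)) (b (l 14861944) (l 364565211431))) (l 1)) (b (a (b (l 14809368) (l 14784360)) (a (b (l 14779816) (l 14758136)) (b (l 14847016) (l 14808576)))) (a (b (l 311414832743) (l 1)) (a (l 264706968631) (b (a (l 14736696) (l 14789680)) (a (l 1) (l 304435449015))))))) (l 1))))), by decide +kernel⟩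

theorem c_pm_202_b : CertB 1239849684 370763052 0 536870912 1020054732 13421774 3 eng mog cd1q2b cd1q0 pd2 true true false .pp 2 0 2
    ndB1q2b ndB1q0 pcB2 cut_pm_202_b Ext.none :=
  certB2 (fam := true) (s1 := true) (s2 := false) (a := 2) (b := 0) (c := 2) (cn := .pp) (n1 := ndB1q2b) (n2 := ndB1q0) (pc := pcB2) (cut := cut_pm_202_b) (xt := Ext.none) (P1 := 1239849684) (W1 := 370763052) (P2 := 0) (W2 := 536870912) (P3 := 1020054732) (W3 := 13421774) (N0 := 3) (En := eng) (mo := mog) (C1 := cd1q2b) (C2 := cd1q0) (C3 := pd2)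
    rfl (fun _ => rfl) k0_pm_202_b

noncomputable def f_pm_203_a : ℕ → ℕ → ℕ → ℕ → Bool := onCell 0 536870912 1610612736 536870912 1020054732 13421774
    (rowB 3 eng mog cd1q2a cd1q0 pd3 1 true true false .up 2 0 3 (qsf 0 536870912 0 536870912 3) ndB1q2a ndB1q0 pcB3 Cut.none Ext.none)

def k0_pm_203_a : ∃ t, chk3 f_pm_203_a t 1 1 1 = true :=
  ⟨(b (b (a (b (a (b (l 16506896) (l 16448408)) (l 16418424)) (a (b (a (l 16652568) (l 16635096)) (l 16484976)) (l 16458776))) (a (b (a (l 16526216) (l 16419392)) (a (l 16452488) (l 16338312))) (b (a (l 16121312) (c (l 15977488) (l 16120128))) (a (l 16138648) (l 2))))) (a (b (a (b (l 16621296) (l 16620688)) (a (l 134317716919) (l 16511480))) (l 2)) (a (l 2) (l 2)))) (l 2)), by decide +kernel⟩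

theorem c_pm_203_a : CertB 0 536870912 0 536870912 1020054732 13421774 3 eng mog cd1q2a cd1q0 pd3 true true false .up 2 0 3
    ndB1q2a ndB1q0 pcB3 Cut.none Ext.none :=
  certB1 (fam := true) (s1 := true) (s2 := false) (a := 2) (b := 0) (c := 3) (cn := .up) (n1 := ndB1q2a) (n2 := ndB1q0) (pc := pcB3) (cut := Cut.none) (xt := Ext.none) (P1 := 0) (W1 := 536870912) (P2 := 0) (W2 := 536870912) (P3 := 1020054732) (W3 := 13421774) (N0 := 3) (En := eng) (mo := mog) (C1 := cd1q2a) (C2 := cd1q0) (C3 := pd3)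
    rfl (fun _ => rfl) k0_pm_203_a

noncomputable def f_pm_203_b : ℕ → ℕ → ℕ → ℕ → Bool := onCell 1239849684 370763052 1610612736 536870912 1020054732 13421774
    (rowB 3 eng mog cd1q2b cd1q0 pd3 1 true true false .up 2 0 3 (qsf 1239849684 370763052 0 536870912 3) ndB1q2b ndB1q0 pcB3 Cut.none Ext.none)

def k0_pm_203_b : ∃ t, chk3 f_pm_203_b t 1 1 1 = true :=
  ⟨(b (b (a (b (a (b (l 16416928) (l 16509296)) (b (l 16096960) (l 16214720))) (a (b (l 16585488) (l 16647320)) (b (l 16316840) (l 16405592)))) (b (a (l 15531984) (b (l 15267496) (l 15431160))) (a (l 15867928) (l 15520848)))) (a (b (a (b (l 16665432) (l 16670560)) (b (l 16483120) (l 16551184))) (b (a (l 16684432) (l 16602008)) (a (l 16713072) (l 4)))) (b (b (l 15791760) (a (l 16284104) (l 15949368))) (a (l 4) (l 4))))) (b (l 4) (l 4))), by decide +kernel⟩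

theorem c_pm_203_b : CertB 1239849684 370763052 0 536870912 1020054732 13421774 3 eng mog cd1q2b cd1q0 pd3 true true false .up 2 0 3
    ndB1q2b ndB1q0 pcB3 Cut.none Ext.none :=
  certB1 (fam := true) (s1 := true) (s2 := false) (a := 2) (b := 0) (c := 3) (cn := .up) (n1 := ndB1q2b) (n2 := ndB1q0) (pc := pcB3) (cut := Cut.none) (xt := Ext.none) (P1 := 1239849684) (W1 := 370763052) (P2 := 0) (W2 := 536870912) (P3 := 1020054732) (W3 := 13421774) (N0 := 3) (En := eng) (mo := mog) (C1 := cd1q2b) (C2 := cd1q0) (C3 := pd3)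
    rfl (fun _ => rfl) k0_pm_203_b

noncomputable def f_pm_213_a : ℕ → ℕ → ℕ → ℕ → Bool := onCell 0 536870912 1610612736 536870912 1020054732 13421774
    (rowB 3 eng mog cd1q2a cd1q1 pd3 1 true true false .pnn 2 1 3 (qsf 0 536870912 536870912 536870912 3) ndB1q2a ndB1q1 pcB3 Cut.none Ext.none)

def k0_pm_213_a : ∃ t, chk3 f_pm_213_a t 2 1 1 = true :=
  ⟨(b (b (b (l 1) (a (l 1) (c (l 462277784055) (l 466036468663)))) (b (b (a (c (l 16285528) (l 16493056)) (c (l 16102760) (l 16310736))) (a (c (l 16319664) (l 16549360)) (a (c (l 16277056) (l 16512624)) (l 16259048)))) (b (a (c (l 16363208) (l 16590152)) (a (l 16257744) (c (l 16312960) (l 16532064)))) (a (c (a (l 16409320) (l 16400512)) (l 16509064)) (a (l 16342232) (a (l 16363520) (l 16315984))))))) (a (b (b (b (b (l 66805972935) (l 79154061351)) (a (l 4) (l 73248487799))) (l 4)) (l 4)) (b (b (b (a (l 16382360) (l 16312856)) (c (l 16446264) (l 16558328))) (b (a (l 58753064727) (l 16507760)) (a (l 4)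 (l 16463384)))) (b (b (b (l 103850374711) (l 4)) (l 4)) (l 4))))), by decide +kernel⟩

def k1_pm_213_a : ∃ t, chk3 f_pm_213_a t 3 1 1 = true :=
  ⟨(b (b (a (b (l 1) (c (a (l 16207736) (l 16207800)) (a (l 16408520) (l 16391392)))) (b (a (c (l 16167800) (l 16327424)) (c (l 15933728) (b (l 16296648) (l 16237392)))) (a (c (l 16209992) (l 16317016)) (c (b (l 16195120) (l 16195552)) (b (l 16164304) (l 16088080)))))) (a (b (c (a (l 16264424) (l 16273112)) (a (l 16467832) (l 16393920))) (c (a (l 16240616) (l 16357744)) (a (l 16427808) (l 16329664)))) (b (a (c (l 16215400) (l 16224296)) (b (a (l 16132496) (l 15991584)) (a (l 16060736) (l 15906528)))) (a (c (l 16134936) (l 15980288)) (b (a (l 15993000) (l 15761696)) (a (l 15932792) (l 15749512))))))) (a (b (b (a (b (c (l 16420800) (l 16465032)) (a (l 16452368) (l 16438032))) (b (l 16331936) (l 16334640))) (b (a (l 16400104) (a (l 16405040) (l 16306424))) (a (l 16536744) (a (l 16441240) (l 16349960))))) (a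 (b (b (b (l 16574736) (l 16607632)) (a (l 4) (l 16431344))) (l 4)) (b (b (b (l 16438144) (l 16472648)) (c (l 16537352) (l 16402696))) (b (b (l 16555896) (l 4)) (l 4))))) (b (b (a (b (l 16050224) (l 15963000)) (b (a (l 15884520) (l 15686088)) (a (l 15853992) (l 15641088)))) (a (b (a (l 16182240) (l 16032112)) (a (l 16227488) (l 16070592))) (b (a (l 15849168) (l 15624496)) (a (l 15881560) (l 15652520))))) (b (b (a (a (l 16175928) (l 16154472)) (a (l 15968656) (l 15754496))) (a (b (a (l 16376544) (l 16249992)) (a (l 16435592) (l 16326576))) (a (b (l 16085592) (l 16194056)) (l 15991848)))) (b (a (b (l 16351768) (a (l 4) (l 16489120))) (b (a (l 16327184) (l 16334632)) (a (l 16476728) (b (l 16605096) (l 16626112))))) (a (l 4) (a (b (b (l 16534536) (l 4)) (l 4)) (b (b (l 16594624) (l 16555592)) (l 4))))))))), by decide +kernel⟩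

theorem s2_pm_213_a : ∃ t, chk3 f_pm_213_a t 1 1 1 = true := ex3_a k0_pm_213_a k1_pm_213_a

theorem c_pm_213_a : CertB 0 536870912 536870912 536870912 1020054732 13421774 3 eng mog cd1q2a cd1q1 pd3 true true false .pnn 2 1 3
    ndB1q2a ndB1q1 pcB3 Cut.none Ext.none :=
  certB1 (fam := true) (s1 := true) (s2 := false) (a := 2) (b := 1) (c := 3) (cn := .pnn) (n1 := ndB1q2a) (n2 := ndB1q1) (pc := pcB3) (cut := Cut.none) (xt := Ext.none) (P1 := 0) (W1 := 536870912) (P2 := 536870912) (W2 := 536870912) (P3 := 1020054732) (W3 := 13421774) (N0 := 3) (En := eng) (mo := mog) (C1 := cd1q2a) (C2 := cd1q1) (C3 := pd3)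
    rfl (fun _ => rfl) s2_pm_213_a

noncomputable def f_pm_213_b : ℕ → ℕ → ℕ → ℕ → Bool := onCell 1239849684 370763052 1610612736 536870912 1020054732 13421774
    (rowB 3 eng mog cd1q2b cd1q1 pd3 1 true true false .pnn 2 1 3 (qsf 1239849684 370763052 536870912 536870912 3) ndB1q2b ndB1q1 pcB3 Cut.none Ext.none)

def k0_pm_213_b : ∃ t, chk3 f_pm_213_b t 1 1 1 = true :=
  ⟨(b (b (l 1) (a (b (a (a (c (b (l 16291160) (l 16316600)) (b (l 16552464) (l 16580384))) (l 1)) (l 1)) (a (a (b (c (l 16289720) (l 16573256)) (c (l 16265000) (l 16521024))) (b (c (l 16273624) (l 16544600)) (l 4))) (b (l 1) (l 4)))) (l 1))) (b (l 4) (l 4))), by decide +kernel⟩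

theorem c_pm_213_b : CertB 1239849684 370763052 536870912 536870912 1020054732 13421774 3 eng mog cd1q2b cd1q1 pd3 true true false .pnn 2 1 3
    ndB1q2b ndB1q1 pcB3 Cut.none Ext.none :=
  certB1 (fam := true) (s1 := true) (s2 := false) (a := 2) (b := 1) (c := 3) (cn := .pnn) (n1 := ndB1q2b) (n2 := ndB1q1) (pc := pcB3) (cut := Cut.none) (xt := Ext.none) (P1 := 1239849684) (W1 := 370763052) (P2 := 536870912) (W2 := 536870912) (P3 := 1020054732) (W3 := 13421774) (N0 := 3) (En := eng) (mo := mog) (C1 := cd1q2b) (C2 := cd1q1) (C3 := pd3)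
    rfl (fun _ => rfl) k0_pm_213_b

noncomputable def f_pm_303 : ℕ → ℕ → ℕ → ℕ → Bool := onCell 1610612736 536870912 0 536870912 1020054732 13421774
    (rowB 3 eng mog cd1q3 cd1q0 pd3 2 true true false .npn 3 0 3 (qsf 1610612736 536870912 0 536870912 3) ndB1q3 ndB1q0 pcB3 Cut.none Ext.none)

def k0_pm_303 : ∃ t, chk3 f_pm_303 t 1 1 1 = true :=
  ⟨(a (b (a (b (a (b (a (l 14918696) (l 14937032)) (a (l 1) (l 15295400))) (b (a (l 14947216) (l 14953616)) (a (l 15300672) (l 15302416)))) (a (l 1) (b (l 311952770023) (l 1)))) (a (b (b (a (l 14958184) (l 14960752)) (a (l 15302616) (l 15299960))) (a (l 315711171271) (b (l 15626544) (l 15930168)))) (l 4))) (a (l 1) (b (a (l 1) (l 4)) (l 1)))) (l 4)), by decide +kernel⟩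

theorem c_pm_303 : CertB 1610612736 536870912 0 536870912 1020054732 13421774 3 eng mog cd1q3 cd1q0 pd3 true true false .npn 3 0 3
    ndB1q3 ndB1q0 pcB3 Cut.none Ext.none :=
  certB2 (fam := true) (s1 := true) (s2 := false) (a := 3) (b := 0) (c := 3) (cn := .npn) (n1 := ndB1q3) (n2 := ndB1q0) (pc := pcB3) (cut := Cut.none) (xt := Ext.none) (P1 := 1610612736) (W1 := 536870912) (P2 := 0) (W2 := 536870912) (P3 := 1020054732) (W3 := 13421774) (N0 := 3) (En := eng) (mo := mog) (C1 := cd1q3) (C2 := cd1q0) (C3 := pd3)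
    rfl (fun _ => rfl) k0_pm_303

noncomputable def f_pm_313 : ℕ → ℕ → ℕ → ℕ → Bool := onCell 1610612736 536870912 536870912 536870912 1020054732 13421774
    (rowB 3 eng mog cd1q3 cd1q1 pd3 0 true true false .dn 3 1 3 (qsf 1610612736 536870912 536870912 536870912 3) ndB1q3 ndB1q1 pcB3 Cut.none Ext.none)

def k0_pm_313 : ∃ t, chk3 f_pm_313 t 1 1 1 = true :=
  ⟨(l 4), by decide +kernel⟩

theorem c_pm_313 : CertB 1610612736 536870912 536870912 536870912 1020054732 13421774 3 eng mog cd1q3 cd1q1 pd3 true true false .dn 3 1 3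
    ndB1q3 ndB1q1 pcB3 Cut.none Ext.none :=
  certB0 (fam := true) (s1 := true) (s2 := false) (a := 3) (b := 1) (c := 3) (cn := .dn) (n1 := ndB1q3) (n2 := ndB1q1) (pc := pcB3) (cut := Cut.none) (xt := Ext.none) (P1 := 1610612736) (W1 := 536870912) (P2 := 536870912) (W2 := 536870912) (P3 := 1020054732) (W3 := 13421774) (N0 := 3) (En := eng) (mo := mog) (C1 := cd1q3) (C2 := cd1q1) (C3 := pd3)
    rfl k0_pm_313

noncomputable def f_mm_001 : ℕ → ℕ → ℕ → ℕ → Bool := onCell 0 536870912 0 536870912 1020054732 13421774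
    (rowB 3 eng mog cd1q0 cd1q0 pd1 0 true false false .up 0 0 1 (qsf 0 536870912 0 536870912 1) ndB1q0 ndB1q0 pcB1 Cut.none Ext.none)

def k0_mm_001 : ∃ t, chk3 f_mm_001 t 1 1 1 = true :=
  ⟨(l 4), by decide +kernel⟩

theorem c_mm_001 : CertB 0 536870912 0 536870912 1020054732 13421774 3 eng mog cd1q0 cd1q0 pd1 true false false .up 0 0 1
    ndB1q0 ndB1q0 pcB1 Cut.none Ext.none :=
  certB0 (fam := true) (s1 := false) (s2 := false) (a := 0) (b := 0) (c := 1) (cn := .up) (n1 := ndB1q0) (n2 := ndB1q0) (pc := pcB1) (cut := Cut.none) (xt := Ext.none) (P1 := 0) (W1 := 536870912) (P2 := 0) (W2 := 536870912) (P3 := 1020054732) (W3 := 13421774) (N0 := 3) (En := eng) (mo := mog) (C1 := cd1q0) (C2 := cd1q0) (C3 := pd1)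
    rfl k0_mm_001

noncomputable def f_mm_011 : ℕ → ℕ → ℕ → ℕ → Bool := onCell 0 536870912 536870912 536870912 1020054732 13421774
    (rowB 3 eng mog cd1q0 cd1q1 pd1 0 true false false .pnn 0 1 1 (qsf 0 536870912 536870912 536870912 1) ndB1q0 ndB1q1 pcB1 Cut.none Ext.none)

def k0_mm_011 : ∃ t, chk3 f_mm_011 t 1 1 1 = true :=
  ⟨(l 4), by decide +kernel⟩

theorem c_mm_011 : CertB 0 536870912 536870912 536870912 1020054732 13421774 3 eng mog cd1q0 cd1q1 pd1 true false false .pnn 0 1 1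
    ndB1q0 ndB1q1 pcB1 Cut.none Ext.none :=
  certB0 (fam := true) (s1 := false) (s2 := false) (a := 0) (b := 1) (c := 1) (cn := .pnn) (n1 := ndB1q0) (n2 := ndB1q1) (pc := pcB1) (cut := Cut.none) (xt := Ext.none) (P1 := 0) (W1 := 536870912) (P2 := 536870912) (W2 := 536870912) (P3 := 1020054732) (W3 := 13421774) (N0 := 3) (En := eng) (mo := mog) (C1 := cd1q0) (C2 := cd1q1) (C3 := pd1)
    rfl k0_mm_011

noncomputable def f_mm_012 : ℕ → ℕ → ℕ → ℕ → Bool := onCell 0 536870912 536870912 536870912 1020054732 13421774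
    (rowB 3 eng mog cd1q0 cd1q1 pd2 0 true false false .pnp 0 1 2 (qsf 0 536870912 536870912 536870912 2) ndB1q0 ndB1q1 pcB2 Cut.none Ext.none)

def k0_mm_012 : ∃ t, chk3 f_mm_012 t 1 1 1 = true :=
  ⟨(l 4), by decide +kernel⟩

theorem c_mm_012 : CertB 0 536870912 536870912 536870912 1020054732 13421774 3 eng mog cd1q0 cd1q1 pd2 true false false .pnp 0 1 2
    ndB1q0 ndB1q1 pcB2 Cut.none Ext.none :=
  certB0 (fam := true) (s1 := false) (s2 := false) (a := 0) (b := 1) (c := 2) (cn := .pnp) (n1 := ndB1q0) (n2 := ndB1q1) (pc := pcB2) (cut := Cut.none) (xt := Ext.none) (P1 := 0) (W1 := 536870912) (P2 := 536870912) (W2 := 536870912) (P3 := 1020054732) (W3 := 13421774) (N0 := 3) (En := eng) (mo := mog) (C1 := cd1q0) (C2 := cd1q1) (C3 := pd2)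
    rfl k0_mm_012

noncomputable def f_mm_022_a : ℕ → ℕ → ℕ → ℕ → Bool := onCell 0 536870912 0 536870912 1020054732 13421774
    (rowB 3 eng mog cd1q0 cd1q2a pd2 0 true false false .pp 0 2 2 (qsf 0 536870912 0 536870912 2) ndB1q0 ndB1q2a pcB2 Cut.none Ext.none)

def k0_mm_022_a : ∃ t, chk3 f_mm_022_a t 1 1 1 = true :=
  ⟨(l 5), by decide +kernel⟩

theorem c_mm_022_a : CertB 0 536870912 0 536870912 1020054732 13421774 3 eng mog cd1q0 cd1q2a pd2 true false false .pp 0 2 2
    ndB1q0 ndB1q2a pcB2 Cut.none Ext.none :=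
  certB0 (fam := true) (s1 := false) (s2 := false) (a := 0) (b := 2) (c := 2) (cn := .pp) (n1 := ndB1q0) (n2 := ndB1q2a) (pc := pcB2) (cut := Cut.none) (xt := Ext.none) (P1 := 0) (W1 := 536870912) (P2 := 0) (W2 := 536870912) (P3 := 1020054732) (W3 := 13421774) (N0 := 3) (En := eng) (mo := mog) (C1 := cd1q0) (C2 := cd1q2a) (C3 := pd2)
    rfl k0_mm_022_a

noncomputable def f_mm_022_b : ℕ → ℕ → ℕ → ℕ → Bool := onCell 0 536870912 1239849684 370763052 1020054732 13421774
    (rowB 3 eng mog cd1q0 cd1q2b pd2 0 true false false .pp 0 2 2 (qsf 0 536870912 1239849684 370763052 2) ndB1q0 ndB1q2b pcB2 Cut.none Ext.none)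

def k0_mm_022_b : ∃ t, chk3 f_mm_022_b t 1 1 1 = true :=
  ⟨(l 5), by decide +kernel⟩

theorem c_mm_022_b : CertB 0 536870912 1239849684 370763052 1020054732 13421774 3 eng mog cd1q0 cd1q2b pd2 true false false .pp 0 2 2
    ndB1q0 ndB1q2b pcB2 Cut.none Ext.none :=
  certB0 (fam := true) (s1 := false) (s2 := false) (a := 0) (b := 2) (c := 2) (cn := .pp) (n1 := ndB1q0) (n2 := ndB1q2b) (pc := pcB2) (cut := Cut.none) (xt := Ext.none) (P1 := 0) (W1 := 536870912) (P2 := 1239849684) (W2 := 370763052) (P3 := 1020054732) (W3 := 13421774) (N0 := 3) (En := eng) (mo := mog) (C1 := cd1q0) (C2 := cd1q2b) (C3 := pd2)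
    rfl k0_mm_022_b

noncomputable def f_mm_023_a : ℕ → ℕ → ℕ → ℕ → Bool := onCell 0 536870912 0 536870912 1020054732 13421774
    (rowB 3 eng mog cd1q0 cd1q2a pd3 0 true false false .up 0 2 3 (qsf 0 536870912 0 536870912 3) ndB1q0 ndB1q2a pcB3 Cut.none Ext.none)

def k0_mm_023_a : ∃ t, chk3 f_mm_023_a t 1 1 1 = true :=
  ⟨(l 5), by decide +kernel⟩

theorem c_mm_023_a : CertB 0 536870912 0 536870912 1020054732 13421774 3 eng mog cd1q0 cd1q2a pd3 true false false .up 0 2 3
    ndB1q0 ndB1q2a pcB3 Cut.none Ext.none :=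
  certB0 (fam := true) (s1 := false) (s2 := false) (a := 0) (b := 2) (c := 3) (cn := .up) (n1 := ndB1q0) (n2 := ndB1q2a) (pc := pcB3) (cut := Cut.none) (xt := Ext.none) (P1 := 0) (W1 := 536870912) (P2 := 0) (W2 := 536870912) (P3 := 1020054732) (W3 := 13421774) (N0 := 3) (En := eng) (mo := mog) (C1 := cd1q0) (C2 := cd1q2a) (C3 := pd3)
    rfl k0_mm_023_a

noncomputable def f_mm_023_b : ℕ → ℕ → ℕ → ℕ → Bool := onCell 0 536870912 1239849684 370763052 1020054732 13421774
    (rowB 3 eng mog cd1q0 cd1q2b pd3 0 true false false .up 0 2 3 (qsf 0 536870912 1239849684 370763052 3) ndB1q0 ndB1q2b pcB3 Cut.none Ext.none)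

def k0_mm_023_b : ∃ t, chk3 f_mm_023_b t 1 1 1 = true :=
  ⟨(l 5), by decide +kernel⟩

theorem c_mm_023_b : CertB 0 536870912 1239849684 370763052 1020054732 13421774 3 eng mog cd1q0 cd1q2b pd3 true false false .up 0 2 3
    ndB1q0 ndB1q2b pcB3 Cut.none Ext.none :=
  certB0 (fam := true) (s1 := false) (s2 := false) (a := 0) (b := 2) (c := 3) (cn := .up) (n1 := ndB1q0) (n2 := ndB1q2b) (pc := pcB3) (cut := Cut.none) (xt := Ext.none) (P1 := 0) (W1 := 536870912) (P2 := 1239849684) (W2 := 370763052) (P3 := 1020054732) (W3 := 13421774) (N0 := 3) (En := eng) (mo := mog) (C1 := cd1q0) (C2 := cd1q2b) (C3 := pd3)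
    rfl k0_mm_023_b

noncomputable def f_mm_033 : ℕ → ℕ → ℕ → ℕ → Bool := onCell 0 536870912 1610612736 536870912 1020054732 13421774
    (rowB 3 eng mog cd1q0 cd1q3 pd3 0 true false false .pnn 0 3 3 (qsf 0 536870912 1610612736 536870912 3) ndB1q0 ndB1q3 pcB3 Cut.none Ext.none)

def k0_mm_033 : ∃ t, chk3 f_mm_033 t 1 1 1 = true :=
  ⟨(l 5), by decide +kernel⟩

theorem c_mm_033 : CertB 0 536870912 1610612736 536870912 1020054732 13421774 3 eng mog cd1q0 cd1q3 pd3 true false false .pnn 0 3 3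
    ndB1q0 ndB1q3 pcB3 Cut.none Ext.none :=
  certB0 (fam := true) (s1 := false) (s2 := false) (a := 0) (b := 3) (c := 3) (cn := .pnn) (n1 := ndB1q0) (n2 := ndB1q3) (pc := pcB3) (cut := Cut.none) (xt := Ext.none) (P1 := 0) (W1 := 536870912) (P2 := 1610612736) (W2 := 536870912) (P3 := 1020054732) (W3 := 13421774) (N0 := 3) (En := eng) (mo := mog) (C1 := cd1q0) (C2 := cd1q3) (C3 := pd3)
    rfl k0_mm_033

noncomputable def f_mm_101 : ℕ → ℕ → ℕ → ℕ → Bool := onCell 536870912 536870912 0 536870912 1020054732 13421774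
    (rowB 3 eng mog cd1q1 cd1q0 pd1 0 true false false .npn 1 0 1 (qsf 536870912 536870912 0 536870912 1) ndB1q1 ndB1q0 pcB1 Cut.none Ext.none)

def k0_mm_101 : ∃ t, chk3 f_mm_101 t 1 1 1 = true :=
  ⟨(l 4), by decide +kernel⟩

theorem c_mm_101 : CertB 536870912 536870912 0 536870912 1020054732 13421774 3 eng mog cd1q1 cd1q0 pd1 true false false .npn 1 0 1
    ndB1q1 ndB1q0 pcB1 Cut.none Ext.none :=
  certB0 (fam := true) (s1 := false) (s2 := false) (a := 1) (b := 0) (c := 1) (cn := .npn) (n1 := ndB1q1) (n2 := ndB1q0) (pc := pcB1) (cut := Cut.none) (xt := Ext.none) (P1 := 536870912) (W1 := 536870912) (P2 := 0) (W2 := 536870912) (P3 := 1020054732) (W3 := 13421774) (N0 := 3) (En := eng) (mo := mog) (C1 := cd1q1) (C2 := cd1q0) (C3 := pd1)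
    rfl k0_mm_101

noncomputable def f_mm_102 : ℕ → ℕ → ℕ → ℕ → Bool := onCell 536870912 536870912 0 536870912 1020054732 13421774
    (rowB 3 eng mog cd1q1 cd1q0 pd2 0 true false false .npp 1 0 2 (qsf 536870912 536870912 0 536870912 2) ndB1q1 ndB1q0 pcB2 Cut.none Ext.none)

def k0_mm_102 : ∃ t, chk3 f_mm_102 t 1 1 1 = true :=
  ⟨(l 4), by decide +kernel⟩

theorem c_mm_102 : CertB 536870912 536870912 0 536870912 1020054732 13421774 3 eng mog cd1q1 cd1q0 pd2 true false false .npp 1 0 2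
    ndB1q1 ndB1q0 pcB2 Cut.none Ext.none :=
  certB0 (fam := true) (s1 := false) (s2 := false) (a := 1) (b := 0) (c := 2) (cn := .npp) (n1 := ndB1q1) (n2 := ndB1q0) (pc := pcB2) (cut := Cut.none) (xt := Ext.none) (P1 := 536870912) (W1 := 536870912) (P2 := 0) (W2 := 536870912) (P3 := 1020054732) (W3 := 13421774) (N0 := 3) (En := eng) (mo := mog) (C1 := cd1q1) (C2 := cd1q0) (C3 := pd2)
    rfl k0_mm_102

noncomputable def f_mm_112 : ℕ → ℕ → ℕ → ℕ → Bool := onCell 536870912 536870912 536870912 536870912 1020054732 13421774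
    (rowB 3 eng mog cd1q1 cd1q1 pd2 0 true false false .dn 1 1 2 (qsf 536870912 536870912 536870912 536870912 2) ndB1q1 ndB1q1 pcB2 Cut.none Ext.none)

def k0_mm_112 : ∃ t, chk3 f_mm_112 t 1 1 1 = true :=
  ⟨(l 4), by decide +kernel⟩

theorem c_mm_112 : CertB 536870912 536870912 536870912 536870912 1020054732 13421774 3 eng mog cd1q1 cd1q1 pd2 true false false .dn 1 1 2
    ndB1q1 ndB1q1 pcB2 Cut.none Ext.none :=
  certB0 (fam := true) (s1 := false) (s2 := false) (a := 1) (b := 1) (c := 2) (cn := .dn) (n1 := ndB1q1) (n2 := ndB1q1) (pc := pcB2) (cut := Cut.none) (xt := Ext.none) (P1 := 536870912) (W1 := 536870912) (P2 := 536870912) (W2 := 536870912) (P3 := 1020054732) (W3 := 13421774) (N0 := 3) (En := eng) (mo := mog) (C1 := cd1q1) (C2 := cd1q1) (C3 := pd2)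
    rfl k0_mm_112

noncomputable def f_mm_113 : ℕ → ℕ → ℕ → ℕ → Bool := onCell 536870912 536870912 536870912 536870912 1020054732 13421774
    (rowB 3 eng mog cd1q1 cd1q1 pd3 0 true false false .nn 1 1 3 (qsf 536870912 536870912 536870912 536870912 3) ndB1q1 ndB1q1 pcB3 Cut.none Ext.none)

def k0_mm_113 : ∃ t, chk3 f_mm_113 t 1 1 1 = true :=
  ⟨(l 4), by decide +kernel⟩

theorem c_mm_113 : CertB 536870912 536870912 536870912 536870912 1020054732 13421774 3 eng mog cd1q1 cd1q1 pd3 true false false .nn 1 1 3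
    ndB1q1 ndB1q1 pcB3 Cut.none Ext.none :=
  certB0 (fam := true) (s1 := false) (s2 := false) (a := 1) (b := 1) (c := 3) (cn := .nn) (n1 := ndB1q1) (n2 := ndB1q1) (pc := pcB3) (cut := Cut.none) (xt := Ext.none) (P1 := 536870912) (W1 := 536870912) (P2 := 536870912) (W2 := 536870912) (P3 := 1020054732) (W3 := 13421774) (N0 := 3) (En := eng) (mo := mog) (C1 := cd1q1) (C2 := cd1q1) (C3 := pd3)
    rfl k0_mm_113

noncomputable def f_mm_123_a : ℕ → ℕ → ℕ → ℕ → Bool := onCell 536870912 536870912 0 536870912 1020054732 13421774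
    (rowB 3 eng mog cd1q1 cd1q2a pd3 0 true false false .npn 1 2 3 (qsf 536870912 536870912 0 536870912 3) ndB1q1 ndB1q2a pcB3 Cut.none Ext.none)

def k0_mm_123_a : ∃ t, chk3 f_mm_123_a t 1 1 1 = true :=
  ⟨(l 4), by decide +kernel⟩

theorem c_mm_123_a : CertB 536870912 536870912 0 536870912 1020054732 13421774 3 eng mog cd1q1 cd1q2a pd3 true false false .npn 1 2 3
    ndB1q1 ndB1q2a pcB3 Cut.none Ext.none :=
  certB0 (fam := true) (s1 := false) (s2 := false) (a := 1) (b := 2) (c := 3) (cn := .npn) (n1 := ndB1q1) (n2 := ndB1q2a) (pc := pcB3) (cut := Cut.none) (xt := Ext.none) (P1 := 536870912) (W1 := 536870912) (P2 := 0) (W2 := 536870912) (P3 := 1020054732) (W3 := 13421774) (N0 := 3) (En := eng) (mo := mog) (C1 := cd1q1) (C2 := cd1q2a) (C3 := pd3)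
    rfl k0_mm_123_a

noncomputable def f_mm_123_b : ℕ → ℕ → ℕ → ℕ → Bool := onCell 536870912 536870912 1239849684 370763052 1020054732 13421774
    (rowB 3 eng mog cd1q1 cd1q2b pd3 0 true false false .npn 1 2 3 (qsf 536870912 536870912 1239849684 370763052 3) ndB1q1 ndB1q2b pcB3 Cut.none Ext.none)

def k0_mm_123_b : ∃ t, chk3 f_mm_123_b t 1 1 1 = true :=
  ⟨(l 5), by decide +kernel⟩

theorem c_mm_123_b : CertB 536870912 536870912 1239849684 370763052 1020054732 13421774 3 eng mog cd1q1 cd1q2b pd3 true false false .npn 1 2 3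
    ndB1q1 ndB1q2b pcB3 Cut.none Ext.none :=
  certB0 (fam := true) (s1 := false) (s2 := false) (a := 1) (b := 2) (c := 3) (cn := .npn) (n1 := ndB1q1) (n2 := ndB1q2b) (pc := pcB3) (cut := Cut.none) (xt := Ext.none) (P1 := 536870912) (W1 := 536870912) (P2 := 1239849684) (W2 := 370763052) (P3 := 1020054732) (W3 := 13421774) (N0 := 3) (En := eng) (mo := mog) (C1 := cd1q1) (C2 := cd1q2b) (C3 := pd3)
    rfl k0_mm_123_b

noncomputable def f_mm_133 : ℕ → ℕ → ℕ → ℕ → Bool := onCell 536870912 536870912 1610612736 536870912 1020054732 13421774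
    (rowB 3 eng mog cd1q1 cd1q3 pd3 0 true false false .dn 1 3 3 (qsf 536870912 536870912 1610612736 536870912 3) ndB1q1 ndB1q3 pcB3 Cut.none Ext.none)

def k0_mm_133 : ∃ t, chk3 f_mm_133 t 1 1 1 = true :=
  ⟨(l 4), by decide +kernel⟩

theorem c_mm_133 : CertB 536870912 536870912 1610612736 536870912 1020054732 13421774 3 eng mog cd1q1 cd1q3 pd3 true false false .dn 1 3 3
    ndB1q1 ndB1q3 pcB3 Cut.none Ext.none :=
  certB0 (fam := true) (s1 := false) (s2 := false) (a := 1) (b := 3) (c := 3) (cn := .dn) (n1 := ndB1q1) (n2 := ndB1q3) (pc := pcB3) (cut := Cut.none) (xt := Ext.none) (P1 := 536870912) (W1 := 536870912) (P2 := 1610612736) (W2 := 536870912) (P3 := 1020054732) (W3 := 13421774) (N0 := 3) (En := eng) (mo := mog) (C1 := cd1q1) (C2 := cd1q3) (C3 := pd3)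
    rfl k0_mm_133

noncomputable def cut_mm_202_a : Cut := Cut.of [[⟨0, 1, 0, 38347922⟩, ⟨1, 0, 0, 38347922⟩, ⟨2, 1, 0, 38347922⟩]]

noncomputable def f_mm_202_a : ℕ → ℕ → ℕ → ℕ → Bool := onCell 0 536870912 0 536870912 1020054732 13421774
    (rowB 3 eng mog cd1q2a cd1q0 pd2 0 true false false .pp 2 0 2 (qsf 0 536870912 0 536870912 2) ndB1q2a ndB1q0 pcB2 cut_mm_202_a Ext.none)

def k0_mm_202_a : ∃ t, chk3 f_mm_202_a t 2 4 1 = true :=
  ⟨(b (a (a (b (a (b (l 15780016) (l 15663504)) (b (l 15714024) (l 15700616))) (a (b (a (l 15533816) (l 15553784)) (l 15506072)) (l 15635808))) (b (b (l 15900672) (l 15851608)) (b (l 15817144) (l 15796520)))) (a (b (b (a (l 16040096) (l 16134160)) (l 15928536)) (a (l 15973192) (l 16083744))) (b (b (a (l 16226800) (l 16316736)) (a (l 16202760) (l 16298288))) (b (a (l 16192016) (l 16292936)) (a (l 16194032) (l 16299856)))))) (a (b (a (b (l 15540464) (l 15529848)) (b (l 15789000) (l 15793880))) (a (b (l 15510840) (l 15482776))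 (b (l 15810480) (l 15817168)))) (a (b (b (l 16033336) (l 15966792)) (b (l 15932232) (l 15928960))) (b (a (b (l 16208016) (l 16233256)) (b (l 16318608) (l 16348352))) (a (b (l 16269032) (l 16314664)) (b (l 16388368) (l 16437952))))))), by decide +kernel⟩

def k1_mm_202_a : ∃ t, chk3 f_mm_202_a t 6 4 1 = true :=
  ⟨(b (a (b (a (b (l 16360456) (l 16389136)) (b (a (l 16462880) (l 16501272)) (l 16410904))) (a (b (l 16388576) (l 16400064)) (b (l 16435832) (l 16472584)))) (b (b (a (a (l 16495880) (b (l 16575680) (l 16570264))) (a (c (l 16579432) (l 16567496)) (b (l 16593792) (l 16631824)))) (a (a (l 16532344) (l 16547800)) (a (l 16581888) (l 16592488)))) (a (b (a (l 16539568) (l 16556984)) (a (l 16558344) (l 16577720))) (b (a (l 16613872) (l 16626168)) (a (l 16636576) (l 16671632)))))) (a (b (a (b (l 16423096) (l 16456896)) (b (l 16499408) (a (l 16533432) (l 16581832)))) (a (b (l 16479768) (l 16532912)) (b (l 16563208) (a (l 16635536) (l 16658048))))) (b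 (a (b (l 16562240) (l 16608144)) (b (a (l 16669784) (l 16666576)) (a (l 16638616) (b (l 16658560) (l 16657920))))) (a (b (a (l 16664536) (l 16610840)) (b (l 104924347639) (l 103850676279))) (b (a (l 104924432119) (l 4)) (l 4)))))), by decide +kernel⟩

def k2_mm_202_a : ∃ t, chk3 f_mm_202_a t 7 4 1 = true :=
  ⟨(b (a (b (a (b (a (b (l 16578232) (l 16614960)) (b (a (l 16606576) (l 16613200)) (l 16603000))) (a (b (l 16648760) (l 16659344)) (b (l 16635784) (l 16665800)))) (b (a (b (a (l 16620888) (b (l 16646472) (l 16654480))) (a (l 16634576) (l 16643480))) (b (a (b (l 16655976) (l 16664328)) (b (l 16666312) (l 16674992))) (a (l 16653520) (a (l 16661712) (l 16667608))))) (a (b (a (l 16645072) (l 16653432)) (c (l 16682152) (l 16653072))) (b (a (l 16663288) (l 16674672)) (b (l 16673896) (l 16697384)))))) (a (b (a (l 16627440) (b (l 16672744) (l 16676584))) (a (l 16672432) (b (l 16677504) (l 16676136)))) (b (a (b (l 16662496) (l 16686888)) (b (a (l 16674488)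 (l 16705264)) (a (l 16676648) (l 16684992)))) (a (b (l 16666656) (l 16656136)) (b (l 158074704695) (l 4)))))) (b (a (b (a (b (a (b (l 16656488) (l 16665528)) (b (l 16668424) (l 16677856))) (a (b (l 16673312) (l 16679832)) (b (l 16686024) (l 16713904)))) (b (b (l 6) (a (l 16690968) (l 6))) (a (b (l 16699560) (l 16706880)) (b (b (l 6) (l 16715936)) (l 16721656))))) (a (b (a (l 16687232) (c (l 16724264) (l 16698592))) (a (l 16693496) (b (l 16727096) (l 16728640)))) (b (a (c (l 16717480) (l 16713544)) (b (l 16725960) (l 76470461223))) (a (b (l 16741080) (l 16719472)) (l 4))))) (b (a (l 6) (l 6)) (a (b (a (b (a (l 16730752) (l 16741256)) (l 4)) (l 4)) (l 4)) (l 4)))) (a (b (a (b (a (l 44794993479) (l 169885936183)) (l 4)) (l 4)) (l 4)) (l 4)))) (a (b (a (b (a (b (l 16667856) (l 16644280)) (b (l 16654128) (l 4))) (l 4)) (l 4)) (l 4)) (l 4))), by decide +kernel⟩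

def k3_mm_202_a : ∃ t, chk3 f_mm_202_a t 1 5 1 = true :=
  ⟨(a (a (b (b (a (b (l 15486928) (l 15459760)) (b (l 15855208) (l 15861048))) (a (b (l 15631304) (l 15707336)) (a (l 15931352) (l 16072360)))) (a (b (b (l 15771104) (l 15842960)) (b (l 15922280) (l 16008424))) (b (a (l 16073512) (l 16243632)) (a (l 16243904) (l 16336384))))) (b (a (a (b (l 16038256) (l 16144664)) (b (l 16159288) (l 16210456))) (b (a (b (l 16369440) (l 16432672)) (b (l 16475408) (l 16562912))) (a (b (l 16482672) (l 16581544)) (b (l 16570672) (a (l 16666216) (l 16652928)))))) (a (b (a (l 16322968) (b (l 16519432) (l 16603232))) (a (b (l 16541136) (l 16622288)) (b (l 16664160) (l 16689744)))) (b (a (b (l 16608736) (l 16671920)) (b (l 16663152) (l 4))) (l 4))))) (a (b (a (b (a (b (l 16594584) (a (l 16654720) (l 16649752))) (b (a (l 16652792) (l 16645272)) (l 94723848999))) (a (b (l 94186890855) (l 4)) (l 4))) (l 4)) (l 4)) (l 4))), by decide +kernel⟩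

def k4_mm_202_a : ∃ t, chk3 f_mm_202_a t 1 3 1 = true :=
  ⟨(a (a (b (b (a (b (a (l 16050688) (l 16248024)) (a (l 16253944) (b (l 16402240) (l 16509936)))) (b (a (b (l 16387088) (l 16488448)) (b (l 16564544) (l 16637640))) (a (b (l 16584752) (l 16649160)) (l 67343273783)))) (a (b (a (b (l 16417632) (l 16529032)) (b (l 16601216) (l 16657224))) (a (b (l 16613920) (l 2)) (l 4))) (b (b (l 16648024) (l 4)) (l 4)))) (l 2)) (b (b (a (b (a (b (l 16673128) (l 4)) (l 4)) (l 4)) (l 4)) (l 4)) (l 4))) (l 4)), by decide +kernel⟩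

theorem s5_mm_202_a : ∃ t, chk3 f_mm_202_a t 3 4 1 = true := ex3_a k1_mm_202_a k2_mm_202_a

theorem s6_mm_202_a : ∃ t, chk3 f_mm_202_a t 1 4 1 = true := ex3_a k0_mm_202_a s5_mm_202_a

theorem s7_mm_202_a : ∃ t, chk3 f_mm_202_a t 1 2 1 = true := ex3_b s6_mm_202_a k3_mm_202_a

theorem s8_mm_202_a : ∃ t, chk3 f_mm_202_a t 1 1 1 = true := ex3_b s7_mm_202_a k4_mm_202_a

theorem c_mm_202_a : CertB 0 536870912 0 536870912 1020054732 13421774 3 eng mog cd1q2a cd1q0 pd2 true false false .pp 2 0 2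
    ndB1q2a ndB1q0 pcB2 cut_mm_202_a Ext.none :=
  certB0 (fam := true) (s1 := false) (s2 := false) (a := 2) (b := 0) (c := 2) (cn := .pp) (n1 := ndB1q2a) (n2 := ndB1q0) (pc := pcB2) (cut := cut_mm_202_a) (xt := Ext.none) (P1 := 0) (W1 := 536870912) (P2 := 0) (W2 := 536870912) (P3 := 1020054732) (W3 := 13421774) (N0 := 3) (En := eng) (mo := mog) (C1 := cd1q2a) (C2 := cd1q0) (C3 := pd2)
    rfl s8_mm_202_a

noncomputable def cut_mm_202_b : Cut := Cut.of [[⟨0, 1, 0, 38347922⟩, ⟨1, 0, 0, 38347922⟩, ⟨2, 1, 0, 38347922⟩]]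

noncomputable def f_mm_202_b : ℕ → ℕ → ℕ → ℕ → Bool := onCell 1073741824 536870912 0 536870912 1020054732 13421774
    (rowB 3 eng mog cd1q2b cd1q0 pd2 2 true false false .pp 2 0 2 (qsf 1239849684 370763052 0 536870912 2) ndB1q2b ndB1q0 pcB2 cut_mm_202_b Ext.none)

def k0_mm_202_b : ∃ t, chk3 f_mm_202_b t 1 1 1 = true :=
  ⟨(a (a (l 1) (b (b (a (b (b (a (l 372083145655) (b (l 15728232) (l 15723840))) (a (l 1) (l 316785293495))) (l 1)) (b (a (b (b (l 15496384) (l 15492712)) (b (l 133711925495) (a (l 15540264) (a (l 15464296) (l 15430192))))) (b (b (l 15298296) (l 15318768)) (a (l 15379936) (l 15337600)))) (a (b (a (l 1) (l 285109557687)) (l 1)) (b (a (l 266855852263) (l 236254138231)) (a (l 1) (l 302289304151)))))) (l 1)) (l 1))) (a (b (b (a (b (a (b (l 15307264) (a (l 15306304) (l 15285824))) (a (l 15214504) (l 15211592))) (a (b (a (l 15359280) (l 15344528)) (a (l 290478104743) (l 260413313655))) (b (a (l 15340128) (l 15345720)) (a (l 15388848)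 (l 15399688))))) (b (a (l 15246488) (l 15296448)) (a (b (l 15372112) (l 15433808)) (l 15473864)))) (a (b (a (b (a (l 1) (l 334501532711)) (l 1)) (b (a (l 299604936055) (l 277593259671)) (a (l 1) (l 490731032295)))) (l 1)) (b (a (b (a (l 15463408) (l 15497696)) (a (l 316784915559) (l 15530216))) (b (l 15565200) (l 15583728))) (a (b (a (l 1) (l 519722203575)) (l 1)) (b (l 331280432311) (l 455297593671)))))) (l 1)) (b (a (b (b (a (l 15378872) (l 15489248)) (a (l 15576240) (l 15705552))) (b (a (l 15706384) (l 15854144)) (a (b (l 15763200) (l 15779576)) (l 15937432)))) (b (a (b (l 15622128) (l 15856168)) (b (l 15770272) (l 16020184))) (a (b (l 16022744) (l 16124256)) (b (l 16204080) (l 16324384))))) (b (a (b (a (b (l 429528005063) (l 1)) (l 365103752631)) (l 1)) (a (b (l 266856807559) (l 483215947383)) (b (l 16338616) (l 283500117495)))) (l 1))))), by decide +kernel⟩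

theorem c_mm_202_b : CertB 1239849684 370763052 0 536870912 1020054732 13421774 3 eng mog cd1q2b cd1q0 pd2 true false false .pp 2 0 2
    ndB1q2b ndB1q0 pcB2 cut_mm_202_b Ext.none :=
  certB2 (fam := true) (s1 := false) (s2 := false) (a := 2) (b := 0) (c := 2) (cn := .pp) (n1 := ndB1q2b) (n2 := ndB1q0) (pc := pcB2) (cut := cut_mm_202_b) (xt := Ext.none) (P1 := 1239849684) (W1 := 370763052) (P2 := 0) (W2 := 536870912) (P3 := 1020054732) (W3 := 13421774) (N0 := 3) (En := eng) (mo := mog) (C1 := cd1q2b) (C2 := cd1q0) (C3 := pd2)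
    rfl (fun _ => rfl) k0_mm_202_b

noncomputable def f_mm_203_a : ℕ → ℕ → ℕ → ℕ → Bool := onCell 0 536870912 1610612736 536870912 1020054732 13421774
    (rowB 3 eng mog cd1q2a cd1q0 pd3 1 true false false .up 2 0 3 (qsf 0 536870912 0 536870912 3) ndB1q2a ndB1q0 pcB3 Cut.none Ext.none)

def k0_mm_203_a : ∃ t, chk3 f_mm_203_a t 1 1 1 = true :=
  ⟨(a (b (b (b (a (b (a (l 60364197351) (l 4)) (l 4)) (l 4)) (l 4)) (l 4)) (l 2)) (l 4)), by decide +kernel⟩

theorem c_mm_203_a : CertB 0 536870912 0 536870912 1020054732 13421774 3 eng mog cd1q2a cd1q0 pd3 true false false .up 2 0 3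
    ndB1q2a ndB1q0 pcB3 Cut.none Ext.none :=
  certB1 (fam := true) (s1 := false) (s2 := false) (a := 2) (b := 0) (c := 3) (cn := .up) (n1 := ndB1q2a) (n2 := ndB1q0) (pc := pcB3) (cut := Cut.none) (xt := Ext.none) (P1 := 0) (W1 := 536870912) (P2 := 0) (W2 := 536870912) (P3 := 1020054732) (W3 := 13421774) (N0 := 3) (En := eng) (mo := mog) (C1 := cd1q2a) (C2 := cd1q0) (C3 := pd3)
    rfl (fun _ => rfl) k0_mm_203_a

noncomputable def f_mm_203_b : ℕ → ℕ → ℕ → ℕ → Bool := onCell 1239849684 370763052 1610612736 536870912 1020054732 13421774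
    (rowB 3 eng mog cd1q2b cd1q0 pd3 1 true false false .up 2 0 3 (qsf 1239849684 370763052 0 536870912 3) ndB1q2b ndB1q0 pcB3 Cut.none Ext.none)

def k0_mm_203_b : ∃ t, chk3 f_mm_203_b t 1 1 1 = true :=
  ⟨(b (b (b (a (b (a (a (l 16655576) (l 16563872)) (l 16315088)) (l 4)) (b (a (l 15937032) (l 15511264)) (a (l 16023696) (l 15625288)))) (l 4)) (l 4)) (l 4)), by decide +kernel⟩

theorem c_mm_203_b : CertB 1239849684 370763052 0 536870912 1020054732 13421774 3 eng mog cd1q2b cd1q0 pd3 true false false .up 2 0 3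
    ndB1q2b ndB1q0 pcB3 Cut.none Ext.none :=
  certB1 (fam := true) (s1 := false) (s2 := false) (a := 2) (b := 0) (c := 3) (cn := .up) (n1 := ndB1q2b) (n2 := ndB1q0) (pc := pcB3) (cut := Cut.none) (xt := Ext.none) (P1 := 1239849684) (W1 := 370763052) (P2 := 0) (W2 := 536870912) (P3 := 1020054732) (W3 := 13421774) (N0 := 3) (En := eng) (mo := mog) (C1 := cd1q2b) (C2 := cd1q0) (C3 := pd3)
    rfl (fun _ => rfl) k0_mm_203_b

noncomputable def f_mm_213_a : ℕ → ℕ → ℕ → ℕ → Bool := onCell 0 536870912 536870912 536870912 1020054732 13421774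
    (rowB 3 eng mog cd1q2a cd1q1 pd3 0 true false false .pnn 2 1 3 (qsf 0 536870912 536870912 536870912 3) ndB1q2a ndB1q1 pcB3 Cut.none Ext.none)

def k0_mm_213_a : ∃ t, chk3 f_mm_213_a t 1 1 1 = true :=
  ⟨(l 4), by decide +kernel⟩

theorem c_mm_213_a : CertB 0 536870912 536870912 536870912 1020054732 13421774 3 eng mog cd1q2a cd1q1 pd3 true false false .pnn 2 1 3
    ndB1q2a ndB1q1 pcB3 Cut.none Ext.none :=
  certB0 (fam := true) (s1 := false) (s2 := false) (a := 2) (b := 1) (c := 3) (cn := .pnn) (n1 := ndB1q2a) (n2 := ndB1q1) (pc := pcB3) (cut := Cut.none) (xt := Ext.none) (P1 := 0) (W1 := 536870912) (P2 := 536870912) (W2 := 536870912) (P3 := 1020054732) (W3 := 13421774) (N0 := 3) (En := eng) (mo := mog) (C1 := cd1q2a) (C2 := cd1q1) (C3 := pd3)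
    rfl k0_mm_213_a

noncomputable def f_mm_213_b : ℕ → ℕ → ℕ → ℕ → Bool := onCell 1239849684 370763052 536870912 536870912 1020054732 13421774
    (rowB 3 eng mog cd1q2b cd1q1 pd3 0 true false false .pnn 2 1 3 (qsf 1239849684 370763052 536870912 536870912 3) ndB1q2b ndB1q1 pcB3 Cut.none Ext.none)

def k0_mm_213_b : ∃ t, chk3 f_mm_213_b t 1 1 1 = true :=
  ⟨(b (l 4) (l 4)), by decide +kernel⟩

theorem c_mm_213_b : CertB 1239849684 370763052 536870912 536870912 1020054732 13421774 3 eng mog cd1q2b cd1q1 pd3 true false false .pnn 2 1 3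
    ndB1q2b ndB1q1 pcB3 Cut.none Ext.none :=
  certB0 (fam := true) (s1 := false) (s2 := false) (a := 2) (b := 1) (c := 3) (cn := .pnn) (n1 := ndB1q2b) (n2 := ndB1q1) (pc := pcB3) (cut := Cut.none) (xt := Ext.none) (P1 := 1239849684) (W1 := 370763052) (P2 := 536870912) (W2 := 536870912) (P3 := 1020054732) (W3 := 13421774) (N0 := 3) (En := eng) (mo := mog) (C1 := cd1q2b) (C2 := cd1q1) (C3 := pd3)
    rfl k0_mm_213_b

noncomputable def f_mm_303 : ℕ → ℕ → ℕ → ℕ → Bool := onCell 1610612736 536870912 0 536870912 1020054732 13421774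
    (rowB 3 eng mog cd1q3 cd1q0 pd3 0 true false false .npn 3 0 3 (qsf 1610612736 536870912 0 536870912 3) ndB1q3 ndB1q0 pcB3 Cut.none Ext.none)

def k0_mm_303 : ∃ t, chk3 f_mm_303 t 1 1 1 = true :=
  ⟨(a (b (a (b (b (a (b (a (l 15464360) (l 15402608)) (a (l 15547888) (l 4))) (b (a (l 15329584) (l 4)) (l 4))) (l 4)) (l 4)) (l 4)) (l 4)) (l 4)), by decide +kernel⟩

theorem c_mm_303 : CertB 1610612736 536870912 0 536870912 1020054732 13421774 3 eng mog cd1q3 cd1q0 pd3 true false false .npn 3 0 3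
    ndB1q3 ndB1q0 pcB3 Cut.none Ext.none :=
  certB0 (fam := true) (s1 := false) (s2 := false) (a := 3) (b := 0) (c := 3) (cn := .npn) (n1 := ndB1q3) (n2 := ndB1q0) (pc := pcB3) (cut := Cut.none) (xt := Ext.none) (P1 := 1610612736) (W1 := 536870912) (P2 := 0) (W2 := 536870912) (P3 := 1020054732) (W3 := 13421774) (N0 := 3) (En := eng) (mo := mog) (C1 := cd1q3) (C2 := cd1q0) (C3 := pd3)
    rfl k0_mm_303

noncomputable def f_mm_313 : ℕ → ℕ → ℕ → ℕ → Bool := onCell 1610612736 536870912 536870912 536870912 1020054732 13421774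
    (rowB 3 eng mog cd1q3 cd1q1 pd3 0 true false false .dn 3 1 3 (qsf 1610612736 536870912 536870912 536870912 3) ndB1q3 ndB1q1 pcB3 Cut.none Ext.none)

def k0_mm_313 : ∃ t, chk3 f_mm_313 t 1 1 1 = true :=
  ⟨(l 4), by decide +kernel⟩

theorem c_mm_313 : CertB 1610612736 536870912 536870912 536870912 1020054732 13421774 3 eng mog cd1q3 cd1q1 pd3 true false false .dn 3 1 3
    ndB1q3 ndB1q1 pcB3 Cut.none Ext.none :=
  certB0 (fam := true) (s1 := false) (s2 := false) (a := 3) (b := 1) (c := 3) (cn := .dn) (n1 := ndB1q3) (n2 := ndB1q1) (pc := pcB3) (cut := Cut.none) (xt := Ext.none) (P1 := 1610612736) (W1 := 536870912) (P2 := 536870912) (W2 := 536870912) (P3 := 1020054732) (W3 := 13421774) (N0 := 3) (En := eng) (mo := mog) (C1 := cd1q3) (C2 := cd1q1) (C3 := pd3)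
    rfl k0_mm_313

end Pool.Agent.Strip051.G.I9500_9625.Tab.C.BA11

namespace Pool.Agent.Strip051.G.I9500_9625.Tab.C.BA12

open Pool.Agent.Strip051.PB Pool.Agent.Strip051.PB.T
open Pool.Agent.Strip051.G.I9500_9625.Tab

noncomputable def f_pp_001 : ℕ → ℕ → ℕ → ℕ → Bool := onCell 0 536870912 0 536870912 1020054732 13421774
    (rowB 3 eng mog cd1q0 cd2q0 pd1 0 true true true .up 0 0 1 (qsf 0 536870912 0 536870912 1) ndB1q0 ndB2q0 pcB1 Cut.none Ext.none)

def k0_pp_001 : ∃ t, chk3 f_pp_001 t 1 1 1 = true :=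
  ⟨(l 4), by decide +kernel⟩

theorem c_pp_001 : CertB 0 536870912 0 536870912 1020054732 13421774 3 eng mog cd1q0 cd2q0 pd1 true true true .up 0 0 1
    ndB1q0 ndB2q0 pcB1 Cut.none Ext.none :=
  certB0 (fam := true) (s1 := true) (s2 := true) (a := 0) (b := 0) (c := 1) (cn := .up) (n1 := ndB1q0) (n2 := ndB2q0) (pc := pcB1) (cut := Cut.none) (xt := Ext.none) (P1 := 0) (W1 := 536870912) (P2 := 0) (W2 := 536870912) (P3 := 1020054732) (W3 := 13421774) (N0 := 3) (En := eng) (mo := mog) (C1 := cd1q0) (C2 := cd2q0) (C3 := pd1)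
    rfl k0_pp_001

noncomputable def f_pp_011 : ℕ → ℕ → ℕ → ℕ → Bool := onCell 0 536870912 536870912 536870912 1020054732 13421774
    (rowB 3 eng mog cd1q0 cd2q1 pd1 0 true true true .pnn 0 1 1 (qsf 0 536870912 536870912 536870912 1) ndB1q0 ndB2q1 pcB1 Cut.none Ext.none)

def k0_pp_011 : ∃ t, chk3 f_pp_011 t 1 1 1 = true :=
  ⟨(l 4), by decide +kernel⟩

theorem c_pp_011 : CertB 0 536870912 536870912 536870912 1020054732 13421774 3 eng mog cd1q0 cd2q1 pd1 true true true .pnn 0 1 1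
    ndB1q0 ndB2q1 pcB1 Cut.none Ext.none :=
  certB0 (fam := true) (s1 := true) (s2 := true) (a := 0) (b := 1) (c := 1) (cn := .pnn) (n1 := ndB1q0) (n2 := ndB2q1) (pc := pcB1) (cut := Cut.none) (xt := Ext.none) (P1 := 0) (W1 := 536870912) (P2 := 536870912) (W2 := 536870912) (P3 := 1020054732) (W3 := 13421774) (N0 := 3) (En := eng) (mo := mog) (C1 := cd1q0) (C2 := cd2q1) (C3 := pd1)
    rfl k0_pp_011

noncomputable def f_pp_012 : ℕ → ℕ → ℕ → ℕ → Bool := onCell 0 536870912 536870912 536870912 1020054732 13421774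
    (rowB 3 eng mog cd1q0 cd2q1 pd2 0 true true true .pnp 0 1 2 (qsf 0 536870912 536870912 536870912 2) ndB1q0 ndB2q1 pcB2 Cut.none Ext.none)

def k0_pp_012 : ∃ t, chk3 f_pp_012 t 1 1 1 = true :=
  ⟨(l 4), by decide +kernel⟩

theorem c_pp_012 : CertB 0 536870912 536870912 536870912 1020054732 13421774 3 eng mog cd1q0 cd2q1 pd2 true true true .pnp 0 1 2
    ndB1q0 ndB2q1 pcB2 Cut.none Ext.none :=
  certB0 (fam := true) (s1 := true) (s2 := true) (a := 0) (b := 1) (c := 2) (cn := .pnp) (n1 := ndB1q0) (n2 := ndB2q1) (pc := pcB2) (cut := Cut.none) (xt := Ext.none) (P1 := 0) (W1 := 536870912) (P2 := 536870912) (W2 := 536870912) (P3 := 1020054732) (W3 := 13421774) (N0 := 3) (En := eng) (mo := mog) (C1 := cd1q0) (C2 := cd2q1) (C3 := pd2)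
    rfl k0_pp_012

noncomputable def cut_pp_022_a : Cut := Cut.of [[⟨0, 0, 0, 38347922⟩, ⟨1, 1, 0, 38347922⟩, ⟨2, 1, 0, 38347922⟩]]

noncomputable def f_pp_022_a : ℕ → ℕ → ℕ → ℕ → Bool := onCell 0 536870912 0 536870912 1020054732 13421774
    (rowB 3 eng mog cd1q0 cd2q2a pd2 0 true true true .pp 0 2 2 (qsf 0 536870912 0 536870912 2) ndB1q0 ndB2q2a pcB2 cut_pp_022_a Ext.none)

def k0_pp_022_a : ∃ t, chk3 f_pp_022_a t 4 1 1 = true :=
  ⟨(a (b (b (a (b (l 16282032) (a (l 16368576) (l 16400640))) (b (l 16296304) (b (l 16352960) (l 16294208)))) (a (b (a (l 16257128) (l 16284576)) (a (b (l 16344392) (l 16344136)) (b (l 16348504) (l 16347496)))) (b (a (l 16280224) (l 16223784)) (a (b (l 16342168) (l 16340400)) (b (l 16287136) (a (l 16333992) (l 4))))))) (b (a (b (a (b (l 16311840) (c (l 16407392) (l 16340128))) (b (l 16356712) (b (l 16370616) (l 16383840)))) (a (b (a (b (l 16393288) (l 16411456)) (l 16386592)) (b (a (l 16433224) (l 16438520)) (a (l 16458472)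 (l 16464016)))) (b (a (l 16388656) (l 218740388535)) (a (b (l 16441744) (l 16467216)) (l 4))))) (b (a (b (a (l 16352184) (l 16350808)) (a (l 16354960) (l 4))) (l 4)) (l 4))) (a (a (a (b (b (b (l 16425200) (c (l 16544488) (l 16499384))) (b (b (l 16528584) (l 16526856)) (b (l 16525800) (a (l 16605888) (l 16590416))))) (b (b (a (b (l 16605080) (l 16604584)) (b (l 16589840) (c (l 16664520) (l 16639456)))) (a (l 6) (a (l 6) (l 4)))) (l 6))) (b (b (b (l 16430472) (c (l 16548672) (l 16503384))) (a (b (b (l 16553656) (l 16573136)) (b (l 16592880) (l 16612704))) (l 4))) (l 4))) (b (b (b (a (l 16453232) (l 4)) (l 4)) (l 4)) (l 4))) (l 4)))) (b (b (a (b (a (l 16469168) (l 16404448)) (a (l 16307784) (b (l 16384808) (l 16345464)))) (b (a (l 16352192) (b (l 16429712) (l 16380224))) (a (b (l 16359520) (l 16342640)) (l 56605238311)))) (a (b (a (b (l 16338472) (l 16304320)) (b (l 16329960) (l 4))) (a (b (l 16310056) (l 4)) (l 4))) (l 4))) (l 4))), by decide +kernel⟩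

def k1_pp_022_a : ∃ t, chk3 f_pp_022_a t 5 1 1 = true :=
  ⟨(b (a (b (a (b (a (b (l 16406952) (l 4)) (l 4)) (l 4)) (l 4)) (l 4)) (l 4)) (l 4)), by decide +kernel⟩

def k2_pp_022_a : ∃ t, chk3 f_pp_022_a t 3 1 1 = true :=
  ⟨(l 4), by decide +kernel⟩

theorem s3_pp_022_a : ∃ t, chk3 f_pp_022_a t 2 1 1 = true := ex3_a k0_pp_022_a k1_pp_022_a

theorem s4_pp_022_a : ∃ t, chk3 f_pp_022_a t 1 1 1 = true := ex3_a s3_pp_022_a k2_pp_022_a

theorem c_pp_022_a : CertB 0 536870912 0 536870912 1020054732 13421774 3 eng mog cd1q0 cd2q2a pd2 true true true .pp 0 2 2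
    ndB1q0 ndB2q2a pcB2 cut_pp_022_a Ext.none :=
  certB0 (fam := true) (s1 := true) (s2 := true) (a := 0) (b := 2) (c := 2) (cn := .pp) (n1 := ndB1q0) (n2 := ndB2q2a) (pc := pcB2) (cut := cut_pp_022_a) (xt := Ext.none) (P1 := 0) (W1 := 536870912) (P2 := 0) (W2 := 536870912) (P3 := 1020054732) (W3 := 13421774) (N0 := 3) (En := eng) (mo := mog) (C1 := cd1q0) (C2 := cd2q2a) (C3 := pd2)
    rfl s4_pp_022_a

noncomputable def cut_pp_022_b : Cut := Cut.of [[⟨0, 0, 0, 38347922⟩, ⟨1, 1, 0, 38347922⟩, ⟨2, 1, 0, 38347922⟩]]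

noncomputable def f_pp_022_b : ℕ → ℕ → ℕ → ℕ → Bool := onCell 0 536870912 1073741824 536870912 1020054732 13421774
    (rowB 3 eng mog cd1q0 cd2q2b pd2 1 true true true .pp 0 2 2 (qsf 0 536870912 1239849684 370763052 2) ndB1q0 ndB2q2b pcB2 cut_pp_022_b Ext.none)

def k0_pp_022_b : ∃ t, chk3 f_pp_022_b t 1 1 1 = true :=
  ⟨(b (b (l 1) (a (a (b (a (a (b (l 438119234087) (a (l 16342920) (l 16329952))) (b (l 1) (l 379600362487))) (l 1)) (a (b (a (l 16234368) (l 262562447223)) (a (l 16202200) (l 16238368))) (b (a (l 390874719783) (l 1)) (a (b (l 16443888) (l 16489072)) (l 402149138391))))) (l 1)) (l 1))) (b (a (a (b (a (b (a (l 16082472) (l 16129760)) (a (l 15836808) (l 15895400))) (b (b (a (l 16398960) (l 16418944)) (c (l 16185416) (l 297458652439))) (b (a (l 16202816) (l 16299136)) (a (l 16099624) (l 16188272))))) (a (b (a (l 15700432) (b (l 15888984) (l 15808040))) (a (l 15474288) (l 4))) (b (b (l 374968827767) (l 4)) (l 4)))) (b (a (b (b (l 1) (a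 (l 230887461063) (l 1))) (b (a (l 380673954599) (l 1)) (l 4))) (l 1)) (l 4))) (l 1)) (a (b (l 4) (l 4)) (l 4)))), by decide +kernel⟩

theorem c_pp_022_b : CertB 0 536870912 1239849684 370763052 1020054732 13421774 3 eng mog cd1q0 cd2q2b pd2 true true true .pp 0 2 2
    ndB1q0 ndB2q2b pcB2 cut_pp_022_b Ext.none :=
  certB1 (fam := true) (s1 := true) (s2 := true) (a := 0) (b := 2) (c := 2) (cn := .pp) (n1 := ndB1q0) (n2 := ndB2q2b) (pc := pcB2) (cut := cut_pp_022_b) (xt := Ext.none) (P1 := 0) (W1 := 536870912) (P2 := 1239849684) (W2 := 370763052) (P3 := 1020054732) (W3 := 13421774) (N0 := 3) (En := eng) (mo := mog) (C1 := cd1q0) (C2 := cd2q2b) (C3 := pd2)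
    rfl (fun _ => rfl) k0_pp_022_b

noncomputable def f_pp_023_a : ℕ → ℕ → ℕ → ℕ → Bool := onCell 1610612736 536870912 0 536870912 1020054732 13421774
    (rowB 3 eng mog cd1q0 cd2q2a pd3 2 true true true .up 0 2 3 (qsf 0 536870912 0 536870912 3) ndB1q0 ndB2q2a pcB3 Cut.none Ext.none)

def k0_pp_023_a : ∃ t, chk3 f_pp_023_a t 1 1 1 = true :=
  ⟨(l 4), by decide +kernel⟩

theorem c_pp_023_a : CertB 0 536870912 0 536870912 1020054732 13421774 3 eng mog cd1q0 cd2q2a pd3 true true true .up 0 2 3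
    ndB1q0 ndB2q2a pcB3 Cut.none Ext.none :=
  certB2 (fam := true) (s1 := true) (s2 := true) (a := 0) (b := 2) (c := 3) (cn := .up) (n1 := ndB1q0) (n2 := ndB2q2a) (pc := pcB3) (cut := Cut.none) (xt := Ext.none) (P1 := 0) (W1 := 536870912) (P2 := 0) (W2 := 536870912) (P3 := 1020054732) (W3 := 13421774) (N0 := 3) (En := eng) (mo := mog) (C1 := cd1q0) (C2 := cd2q2a) (C3 := pd3)
    rfl (fun _ => rfl) k0_pp_023_a

noncomputable def f_pp_023_b : ℕ → ℕ → ℕ → ℕ → Bool := onCell 1610612736 536870912 1239849684 370763052 1020054732 13421774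
    (rowB 3 eng mog cd1q0 cd2q2b pd3 2 true true true .up 0 2 3 (qsf 0 536870912 1239849684 370763052 3) ndB1q0 ndB2q2b pcB3 Cut.none Ext.none)

def k0_pp_023_b : ∃ t, chk3 f_pp_023_b t 1 1 1 = true :=
  ⟨(l 4), by decide +kernel⟩

theorem c_pp_023_b : CertB 0 536870912 1239849684 370763052 1020054732 13421774 3 eng mog cd1q0 cd2q2b pd3 true true true .up 0 2 3
    ndB1q0 ndB2q2b pcB3 Cut.none Ext.none :=
  certB2 (fam := true) (s1 := true) (s2 := true) (a := 0) (b := 2) (c := 3) (cn := .up) (n1 := ndB1q0) (n2 := ndB2q2b) (pc := pcB3) (cut := Cut.none) (xt := Ext.none) (P1 := 0) (W1 := 536870912) (P2 := 1239849684) (W2 := 370763052) (P3 := 1020054732) (W3 := 13421774) (N0 := 3) (En := eng) (mo := mog) (C1 := cd1q0) (C2 := cd2q2b) (C3 := pd3)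
    rfl (fun _ => rfl) k0_pp_023_b

noncomputable def f_pp_033 : ℕ → ℕ → ℕ → ℕ → Bool := onCell 0 536870912 1610612736 536870912 1020054732 13421774
    (rowB 3 eng mog cd1q0 cd2q3 pd3 0 true true true .pnn 0 3 3 (qsf 0 536870912 1610612736 536870912 3) ndB1q0 ndB2q3 pcB3 Cut.none Ext.none)

def k0_pp_033 : ∃ t, chk3 f_pp_033 t 1 1 1 = true :=
  ⟨(a (l 4) (l 4)), by decide +kernel⟩

theorem c_pp_033 : CertB 0 536870912 1610612736 536870912 1020054732 13421774 3 eng mog cd1q0 cd2q3 pd3 true true true .pnn 0 3 3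
    ndB1q0 ndB2q3 pcB3 Cut.none Ext.none :=
  certB0 (fam := true) (s1 := true) (s2 := true) (a := 0) (b := 3) (c := 3) (cn := .pnn) (n1 := ndB1q0) (n2 := ndB2q3) (pc := pcB3) (cut := Cut.none) (xt := Ext.none) (P1 := 0) (W1 := 536870912) (P2 := 1610612736) (W2 := 536870912) (P3 := 1020054732) (W3 := 13421774) (N0 := 3) (En := eng) (mo := mog) (C1 := cd1q0) (C2 := cd2q3) (C3 := pd3)
    rfl k0_pp_033

noncomputable def f_pp_101 : ℕ → ℕ → ℕ → ℕ → Bool := onCell 536870912 536870912 0 536870912 1020054732 13421774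
    (rowB 3 eng mog cd1q1 cd2q0 pd1 0 true true true .npn 1 0 1 (qsf 536870912 536870912 0 536870912 1) ndB1q1 ndB2q0 pcB1 Cut.none Ext.none)

def k0_pp_101 : ∃ t, chk3 f_pp_101 t 1 1 1 = true :=
  ⟨(l 4), by decide +kernel⟩

theorem c_pp_101 : CertB 536870912 536870912 0 536870912 1020054732 13421774 3 eng mog cd1q1 cd2q0 pd1 true true true .npn 1 0 1
    ndB1q1 ndB2q0 pcB1 Cut.none Ext.none :=
  certB0 (fam := true) (s1 := true) (s2 := true) (a := 1) (b := 0) (c := 1) (cn := .npn) (n1 := ndB1q1) (n2 := ndB2q0) (pc := pcB1) (cut := Cut.none) (xt := Ext.none) (P1 := 536870912) (W1 := 536870912) (P2 := 0) (W2 := 536870912) (P3 := 1020054732) (W3 := 13421774) (N0 := 3) (En := eng) (mo := mog) (C1 := cd1q1) (C2 := cd2q0) (C3 := pd1)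
    rfl k0_pp_101

noncomputable def f_pp_102 : ℕ → ℕ → ℕ → ℕ → Bool := onCell 536870912 536870912 0 536870912 1020054732 13421774
    (rowB 3 eng mog cd1q1 cd2q0 pd2 0 true true true .npp 1 0 2 (qsf 536870912 536870912 0 536870912 2) ndB1q1 ndB2q0 pcB2 Cut.none Ext.none)

def k0_pp_102 : ∃ t, chk3 f_pp_102 t 1 1 1 = true :=
  ⟨(l 4), by decide +kernel⟩

theorem c_pp_102 : CertB 536870912 536870912 0 536870912 1020054732 13421774 3 eng mog cd1q1 cd2q0 pd2 true true true .npp 1 0 2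
    ndB1q1 ndB2q0 pcB2 Cut.none Ext.none :=
  certB0 (fam := true) (s1 := true) (s2 := true) (a := 1) (b := 0) (c := 2) (cn := .npp) (n1 := ndB1q1) (n2 := ndB2q0) (pc := pcB2) (cut := Cut.none) (xt := Ext.none) (P1 := 536870912) (W1 := 536870912) (P2 := 0) (W2 := 536870912) (P3 := 1020054732) (W3 := 13421774) (N0 := 3) (En := eng) (mo := mog) (C1 := cd1q1) (C2 := cd2q0) (C3 := pd2)
    rfl k0_pp_102

noncomputable def f_pp_112 : ℕ → ℕ → ℕ → ℕ → Bool := onCell 536870912 536870912 536870912 536870912 1020054732 13421774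
    (rowB 3 eng mog cd1q1 cd2q1 pd2 0 true true true .dn 1 1 2 (qsf 536870912 536870912 536870912 536870912 2) ndB1q1 ndB2q1 pcB2 Cut.none Ext.none)

def k0_pp_112 : ∃ t, chk3 f_pp_112 t 1 1 1 = true :=
  ⟨(l 4), by decide +kernel⟩

theorem c_pp_112 : CertB 536870912 536870912 536870912 536870912 1020054732 13421774 3 eng mog cd1q1 cd2q1 pd2 true true true .dn 1 1 2
    ndB1q1 ndB2q1 pcB2 Cut.none Ext.none :=
  certB0 (fam := true) (s1 := true) (s2 := true) (a := 1) (b := 1) (c := 2) (cn := .dn) (n1 := ndB1q1) (n2 := ndB2q1) (pc := pcB2) (cut := Cut.none) (xt := Ext.none) (P1 := 536870912) (W1 := 536870912) (P2 := 536870912) (W2 := 536870912) (P3 := 1020054732) (W3 := 13421774) (N0 := 3) (En := eng) (mo := mog) (C1 := cd1q1) (C2 := cd2q1) (C3 := pd2)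
    rfl k0_pp_112

noncomputable def f_pp_113 : ℕ → ℕ → ℕ → ℕ → Bool := onCell 536870912 536870912 536870912 536870912 1020054732 13421774
    (rowB 3 eng mog cd1q1 cd2q1 pd3 0 true true true .nn 1 1 3 (qsf 536870912 536870912 536870912 536870912 3) ndB1q1 ndB2q1 pcB3 Cut.none Ext.none)

def k0_pp_113 : ∃ t, chk3 f_pp_113 t 1 1 1 = true :=
  ⟨(l 4), by decide +kernel⟩

theorem c_pp_113 : CertB 536870912 536870912 536870912 536870912 1020054732 13421774 3 eng mog cd1q1 cd2q1 pd3 true true true .nn 1 1 3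
    ndB1q1 ndB2q1 pcB3 Cut.none Ext.none :=
  certB0 (fam := true) (s1 := true) (s2 := true) (a := 1) (b := 1) (c := 3) (cn := .nn) (n1 := ndB1q1) (n2 := ndB2q1) (pc := pcB3) (cut := Cut.none) (xt := Ext.none) (P1 := 536870912) (W1 := 536870912) (P2 := 536870912) (W2 := 536870912) (P3 := 1020054732) (W3 := 13421774) (N0 := 3) (En := eng) (mo := mog) (C1 := cd1q1) (C2 := cd2q1) (C3 := pd3)
    rfl k0_pp_113

noncomputable def f_pp_123_a : ℕ → ℕ → ℕ → ℕ → Bool := onCell 536870912 536870912 0 536870912 1020054732 13421774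
    (rowB 3 eng mog cd1q1 cd2q2a pd3 0 true true true .npn 1 2 3 (qsf 536870912 536870912 0 536870912 3) ndB1q1 ndB2q2a pcB3 Cut.none Ext.none)

def k0_pp_123_a : ∃ t, chk3 f_pp_123_a t 1 1 1 = true :=
  ⟨(l 4), by decide +kernel⟩

theorem c_pp_123_a : CertB 536870912 536870912 0 536870912 1020054732 13421774 3 eng mog cd1q1 cd2q2a pd3 true true true .npn 1 2 3
    ndB1q1 ndB2q2a pcB3 Cut.none Ext.none :=
  certB0 (fam := true) (s1 := true) (s2 := true) (a := 1) (b := 2) (c := 3) (cn := .npn) (n1 := ndB1q1) (n2 := ndB2q2a) (pc := pcB3) (cut := Cut.none) (xt := Ext.none) (P1 := 536870912) (W1 := 536870912) (P2 := 0) (W2 := 536870912) (P3 := 1020054732) (W3 := 13421774) (N0 := 3) (En := eng) (mo := mog) (C1 := cd1q1) (C2 := cd2q2a) (C3 := pd3)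
    rfl k0_pp_123_a

noncomputable def f_pp_123_b : ℕ → ℕ → ℕ → ℕ → Bool := onCell 536870912 536870912 1239849684 370763052 1020054732 13421774
    (rowB 3 eng mog cd1q1 cd2q2b pd3 0 true true true .npn 1 2 3 (qsf 536870912 536870912 1239849684 370763052 3) ndB1q1 ndB2q2b pcB3 Cut.none Ext.none)

def k0_pp_123_b : ∃ t, chk3 f_pp_123_b t 1 1 1 = true :=
  ⟨(l 4), by decide +kernel⟩

theorem c_pp_123_b : CertB 536870912 536870912 1239849684 370763052 1020054732 13421774 3 eng mog cd1q1 cd2q2b pd3 true true true .npn 1 2 3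
    ndB1q1 ndB2q2b pcB3 Cut.none Ext.none :=
  certB0 (fam := true) (s1 := true) (s2 := true) (a := 1) (b := 2) (c := 3) (cn := .npn) (n1 := ndB1q1) (n2 := ndB2q2b) (pc := pcB3) (cut := Cut.none) (xt := Ext.none) (P1 := 536870912) (W1 := 536870912) (P2 := 1239849684) (W2 := 370763052) (P3 := 1020054732) (W3 := 13421774) (N0 := 3) (En := eng) (mo := mog) (C1 := cd1q1) (C2 := cd2q2b) (C3 := pd3)
    rfl k0_pp_123_b

noncomputable def f_pp_133 : ℕ → ℕ → ℕ → ℕ → Bool := onCell 536870912 536870912 1610612736 536870912 1020054732 13421774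
    (rowB 3 eng mog cd1q1 cd2q3 pd3 0 true true true .dn 1 3 3 (qsf 536870912 536870912 1610612736 536870912 3) ndB1q1 ndB2q3 pcB3 Cut.none Ext.none)

def k0_pp_133 : ∃ t, chk3 f_pp_133 t 1 1 1 = true :=
  ⟨(l 4), by decide +kernel⟩

theorem c_pp_133 : CertB 536870912 536870912 1610612736 536870912 1020054732 13421774 3 eng mog cd1q1 cd2q3 pd3 true true true .dn 1 3 3
    ndB1q1 ndB2q3 pcB3 Cut.none Ext.none :=
  certB0 (fam := true) (s1 := true) (s2 := true) (a := 1) (b := 3) (c := 3) (cn := .dn) (n1 := ndB1q1) (n2 := ndB2q3) (pc := pcB3) (cut := Cut.none) (xt := Ext.none) (P1 := 536870912) (W1 := 536870912) (P2 := 1610612736) (W2 := 536870912) (P3 := 1020054732) (W3 := 13421774) (N0 := 3) (En := eng) (mo := mog) (C1 := cd1q1) (C2 := cd2q3) (C3 := pd3)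
    rfl k0_pp_133

noncomputable def f_pp_202_a : ℕ → ℕ → ℕ → ℕ → Bool := onCell 0 536870912 0 536870912 1020054732 13421774
    (rowB 3 eng mog cd1q2a cd2q0 pd2 0 true true true .pp 2 0 2 (qsf 0 536870912 0 536870912 2) ndB1q2a ndB2q0 pcB2 Cut.none Ext.none)

def k0_pp_202_a : ∃ t, chk3 f_pp_202_a t 1 1 1 = true :=
  ⟨(l 5), by decide +kernel⟩

theorem c_pp_202_a : CertB 0 536870912 0 536870912 1020054732 13421774 3 eng mog cd1q2a cd2q0 pd2 true true true .pp 2 0 2
    ndB1q2a ndB2q0 pcB2 Cut.none Ext.none :=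
  certB0 (fam := true) (s1 := true) (s2 := true) (a := 2) (b := 0) (c := 2) (cn := .pp) (n1 := ndB1q2a) (n2 := ndB2q0) (pc := pcB2) (cut := Cut.none) (xt := Ext.none) (P1 := 0) (W1 := 536870912) (P2 := 0) (W2 := 536870912) (P3 := 1020054732) (W3 := 13421774) (N0 := 3) (En := eng) (mo := mog) (C1 := cd1q2a) (C2 := cd2q0) (C3 := pd2)
    rfl k0_pp_202_a

noncomputable def f_pp_202_b : ℕ → ℕ → ℕ → ℕ → Bool := onCell 1239849684 370763052 0 536870912 1020054732 13421774
    (rowB 3 eng mog cd1q2b cd2q0 pd2 0 true true true .pp 2 0 2 (qsf 1239849684 370763052 0 536870912 2) ndB1q2b ndB2q0 pcB2 Cut.none Ext.none)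

def k0_pp_202_b : ∃ t, chk3 f_pp_202_b t 1 1 1 = true :=
  ⟨(l 5), by decide +kernel⟩

theorem c_pp_202_b : CertB 1239849684 370763052 0 536870912 1020054732 13421774 3 eng mog cd1q2b cd2q0 pd2 true true true .pp 2 0 2
    ndB1q2b ndB2q0 pcB2 Cut.none Ext.none :=
  certB0 (fam := true) (s1 := true) (s2 := true) (a := 2) (b := 0) (c := 2) (cn := .pp) (n1 := ndB1q2b) (n2 := ndB2q0) (pc := pcB2) (cut := Cut.none) (xt := Ext.none) (P1 := 1239849684) (W1 := 370763052) (P2 := 0) (W2 := 536870912) (P3 := 1020054732) (W3 := 13421774) (N0 := 3) (En := eng) (mo := mog) (C1 := cd1q2b) (C2 := cd2q0) (C3 := pd2)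
    rfl k0_pp_202_b

noncomputable def f_pp_203_a : ℕ → ℕ → ℕ → ℕ → Bool := onCell 0 536870912 0 536870912 1020054732 13421774
    (rowB 3 eng mog cd1q2a cd2q0 pd3 0 true true true .up 2 0 3 (qsf 0 536870912 0 536870912 3) ndB1q2a ndB2q0 pcB3 Cut.none Ext.none)

def k0_pp_203_a : ∃ t, chk3 f_pp_203_a t 1 1 1 = true :=
  ⟨(l 5), by decide +kernel⟩

theorem c_pp_203_a : CertB 0 536870912 0 536870912 1020054732 13421774 3 eng mog cd1q2a cd2q0 pd3 true true true .up 2 0 3
    ndB1q2a ndB2q0 pcB3 Cut.none Ext.none :=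
  certB0 (fam := true) (s1 := true) (s2 := true) (a := 2) (b := 0) (c := 3) (cn := .up) (n1 := ndB1q2a) (n2 := ndB2q0) (pc := pcB3) (cut := Cut.none) (xt := Ext.none) (P1 := 0) (W1 := 536870912) (P2 := 0) (W2 := 536870912) (P3 := 1020054732) (W3 := 13421774) (N0 := 3) (En := eng) (mo := mog) (C1 := cd1q2a) (C2 := cd2q0) (C3 := pd3)
    rfl k0_pp_203_a

noncomputable def f_pp_203_b : ℕ → ℕ → ℕ → ℕ → Bool := onCell 1239849684 370763052 0 536870912 1020054732 13421774
    (rowB 3 eng mog cd1q2b cd2q0 pd3 0 true true true .up 2 0 3 (qsf 1239849684 370763052 0 536870912 3) ndB1q2b ndB2q0 pcB3 Cut.none Ext.none)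

def k0_pp_203_b : ∃ t, chk3 f_pp_203_b t 1 1 1 = true :=
  ⟨(l 5), by decide +kernel⟩

theorem c_pp_203_b : CertB 1239849684 370763052 0 536870912 1020054732 13421774 3 eng mog cd1q2b cd2q0 pd3 true true true .up 2 0 3
    ndB1q2b ndB2q0 pcB3 Cut.none Ext.none :=
  certB0 (fam := true) (s1 := true) (s2 := true) (a := 2) (b := 0) (c := 3) (cn := .up) (n1 := ndB1q2b) (n2 := ndB2q0) (pc := pcB3) (cut := Cut.none) (xt := Ext.none) (P1 := 1239849684) (W1 := 370763052) (P2 := 0) (W2 := 536870912) (P3 := 1020054732) (W3 := 13421774) (N0 := 3) (En := eng) (mo := mog) (C1 := cd1q2b) (C2 := cd2q0) (C3 := pd3)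
    rfl k0_pp_203_b

noncomputable def f_pp_213_a : ℕ → ℕ → ℕ → ℕ → Bool := onCell 0 536870912 536870912 536870912 1020054732 13421774
    (rowB 3 eng mog cd1q2a cd2q1 pd3 0 true true true .pnn 2 1 3 (qsf 0 536870912 536870912 536870912 3) ndB1q2a ndB2q1 pcB3 Cut.none Ext.none)

def k0_pp_213_a : ∃ t, chk3 f_pp_213_a t 1 1 1 = true :=
  ⟨(l 4), by decide +kernel⟩

theorem c_pp_213_a : CertB 0 536870912 536870912 536870912 1020054732 13421774 3 eng mog cd1q2a cd2q1 pd3 true true true .pnn 2 1 3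
    ndB1q2a ndB2q1 pcB3 Cut.none Ext.none :=
  certB0 (fam := true) (s1 := true) (s2 := true) (a := 2) (b := 1) (c := 3) (cn := .pnn) (n1 := ndB1q2a) (n2 := ndB2q1) (pc := pcB3) (cut := Cut.none) (xt := Ext.none) (P1 := 0) (W1 := 536870912) (P2 := 536870912) (W2 := 536870912) (P3 := 1020054732) (W3 := 13421774) (N0 := 3) (En := eng) (mo := mog) (C1 := cd1q2a) (C2 := cd2q1) (C3 := pd3)
    rfl k0_pp_213_a

noncomputable def f_pp_213_b : ℕ → ℕ → ℕ → ℕ → Bool := onCell 1239849684 370763052 536870912 536870912 1020054732 13421774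
    (rowB 3 eng mog cd1q2b cd2q1 pd3 0 true true true .pnn 2 1 3 (qsf 1239849684 370763052 536870912 536870912 3) ndB1q2b ndB2q1 pcB3 Cut.none Ext.none)

def k0_pp_213_b : ∃ t, chk3 f_pp_213_b t 1 1 1 = true :=
  ⟨(l 4), by decide +kernel⟩

theorem c_pp_213_b : CertB 1239849684 370763052 536870912 536870912 1020054732 13421774 3 eng mog cd1q2b cd2q1 pd3 true true true .pnn 2 1 3
    ndB1q2b ndB2q1 pcB3 Cut.none Ext.none :=
  certB0 (fam := true) (s1 := true) (s2 := true) (a := 2) (b := 1) (c := 3) (cn := .pnn) (n1 := ndB1q2b) (n2 := ndB2q1) (pc := pcB3) (cut := Cut.none) (xt := Ext.none) (P1 := 1239849684) (W1 := 370763052) (P2 := 536870912) (W2 := 536870912) (P3 := 1020054732) (W3 := 13421774) (N0 := 3) (En := eng) (mo := mog) (C1 := cd1q2b) (C2 := cd2q1) (C3 := pd3)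
    rfl k0_pp_213_b

noncomputable def f_pp_303 : ℕ → ℕ → ℕ → ℕ → Bool := onCell 1610612736 536870912 0 536870912 1020054732 13421774
    (rowB 3 eng mog cd1q3 cd2q0 pd3 0 true true true .npn 3 0 3 (qsf 1610612736 536870912 0 536870912 3) ndB1q3 ndB2q0 pcB3 Cut.none Ext.none)

def k0_pp_303 : ∃ t, chk3 f_pp_303 t 1 1 1 = true :=
  ⟨(l 5), by decide +kernel⟩

theorem c_pp_303 : CertB 1610612736 536870912 0 536870912 1020054732 13421774 3 eng mog cd1q3 cd2q0 pd3 true true true .npn 3 0 3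
    ndB1q3 ndB2q0 pcB3 Cut.none Ext.none :=
  certB0 (fam := true) (s1 := true) (s2 := true) (a := 3) (b := 0) (c := 3) (cn := .npn) (n1 := ndB1q3) (n2 := ndB2q0) (pc := pcB3) (cut := Cut.none) (xt := Ext.none) (P1 := 1610612736) (W1 := 536870912) (P2 := 0) (W2 := 536870912) (P3 := 1020054732) (W3 := 13421774) (N0 := 3) (En := eng) (mo := mog) (C1 := cd1q3) (C2 := cd2q0) (C3 := pd3)
    rfl k0_pp_303

noncomputable def f_pp_313 : ℕ → ℕ → ℕ → ℕ → Bool := onCell 1610612736 536870912 536870912 536870912 1020054732 13421774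
    (rowB 3 eng mog cd1q3 cd2q1 pd3 0 true true true .dn 3 1 3 (qsf 1610612736 536870912 536870912 536870912 3) ndB1q3 ndB2q1 pcB3 Cut.none Ext.none)

def k0_pp_313 : ∃ t, chk3 f_pp_313 t 1 1 1 = true :=
  ⟨(l 4), by decide +kernel⟩

theorem c_pp_313 : CertB 1610612736 536870912 536870912 536870912 1020054732 13421774 3 eng mog cd1q3 cd2q1 pd3 true true true .dn 3 1 3
    ndB1q3 ndB2q1 pcB3 Cut.none Ext.none :=
  certB0 (fam := true) (s1 := true) (s2 := true) (a := 3) (b := 1) (c := 3) (cn := .dn) (n1 := ndB1q3) (n2 := ndB2q1) (pc := pcB3) (cut := Cut.none) (xt := Ext.none) (P1 := 1610612736) (W1 := 536870912) (P2 := 536870912) (W2 := 536870912) (P3 := 1020054732) (W3 := 13421774) (N0 := 3) (En := eng) (mo := mog) (C1 := cd1q3) (C2 := cd2q1) (C3 := pd3)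
    rfl k0_pp_313

noncomputable def f_pm_001 : ℕ → ℕ → ℕ → ℕ → Bool := onCell 0 536870912 0 536870912 1020054732 13421774
    (rowB 3 eng mog cd1q0 cd2q0 pd1 0 true true false .up 0 0 1 (qsf 0 536870912 0 536870912 1) ndB1q0 ndB2q0 pcB1 Cut.none Ext.none)

def k0_pm_001 : ∃ t, chk3 f_pm_001 t 1 1 1 = true :=
  ⟨(l 3), by decide +kernel⟩

theorem c_pm_001 : CertB 0 536870912 0 536870912 1020054732 13421774 3 eng mog cd1q0 cd2q0 pd1 true true false .up 0 0 1
    ndB1q0 ndB2q0 pcB1 Cut.none Ext.none :=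
  certB0 (fam := true) (s1 := true) (s2 := false) (a := 0) (b := 0) (c := 1) (cn := .up) (n1 := ndB1q0) (n2 := ndB2q0) (pc := pcB1) (cut := Cut.none) (xt := Ext.none) (P1 := 0) (W1 := 536870912) (P2 := 0) (W2 := 536870912) (P3 := 1020054732) (W3 := 13421774) (N0 := 3) (En := eng) (mo := mog) (C1 := cd1q0) (C2 := cd2q0) (C3 := pd1)
    rfl k0_pm_001

noncomputable def f_pm_011 : ℕ → ℕ → ℕ → ℕ → Bool := onCell 0 536870912 536870912 536870912 1020054732 13421774
    (rowB 3 eng mog cd1q0 cd2q1 pd1 1 true true false .pnn 0 1 1 (qsf 0 536870912 536870912 536870912 1) ndB1q0 ndB2q1 pcB1 Cut.none Ext.none)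

def k0_pm_011 : ∃ t, chk3 f_pm_011 t 1 1 1 = true :=
  ⟨(l 3), by decide +kernel⟩

theorem c_pm_011 : CertB 0 536870912 536870912 536870912 1020054732 13421774 3 eng mog cd1q0 cd2q1 pd1 true true false .pnn 0 1 1
    ndB1q0 ndB2q1 pcB1 Cut.none Ext.none :=
  certB1 (fam := true) (s1 := true) (s2 := false) (a := 0) (b := 1) (c := 1) (cn := .pnn) (n1 := ndB1q0) (n2 := ndB2q1) (pc := pcB1) (cut := Cut.none) (xt := Ext.none) (P1 := 0) (W1 := 536870912) (P2 := 536870912) (W2 := 536870912) (P3 := 1020054732) (W3 := 13421774) (N0 := 3) (En := eng) (mo := mog) (C1 := cd1q0) (C2 := cd2q1) (C3 := pd1)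
    rfl (fun _ => rfl) k0_pm_011

noncomputable def f_pm_012 : ℕ → ℕ → ℕ → ℕ → Bool := onCell 1073741824 536870912 536870912 536870912 1020054732 13421774
    (rowB 3 eng mog cd1q0 cd2q1 pd2 2 true true false .pnp 0 1 2 (qsf 0 536870912 536870912 536870912 2) ndB1q0 ndB2q1 pcB2 Cut.none Ext.none)

def k0_pm_012 : ∃ t, chk3 f_pm_012 t 2 1 1 = true :=
  ⟨(a (a (l 3) (b (a (l 3) (b (b (l 2) (l 3)) (l 3))) (l 3))) (b (a (a (a (b (b (l 2) (c (l 15860280) (l 16174040))) (c (b (l 15978048) (l 16053304)) (b (l 16291608) (l 16416416)))) (b (l 2) (a (c (b (l 15992928) (l 16144616)) (b (l 16306752) (l 16466088))) (a (c (b (l 15982584) (l 16130480)) (b (l 16339656) (l 16453320))) (c (b (l 15956448) (l 16043160)) (b (l 16210144) (l 16327664))))))) (b (l 2) (c (b (l 15941456) (l 16083560)) (b (l 16300280) (l 16412128))))) (b (l 2) (c (b (l 15834504) (l 15889296)) (b (l 16107128) (l 16281248))))) (a (b (a (a (b (b (l 139216195111) (l 153175051719)) (l 3)) (a (b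 (c (l 16252736) (l 16610952)) (l 210620128103)) (a (b (c (l 16275872) (l 16593072)) (l 16311968)) (b (c (b (l 16263264) (l 16364768)) (a (l 16591120) (l 16589920))) (a (c (l 16535312) (l 16490872)) (c (l 16534504) (l 16477824))))))) (b (b (l 16151920) (l 16279240)) (c (l 16412864) (l 16505064)))) (a (a (l 3) (a (b (c (l 16265512) (l 16261144)) (l 3)) (a (b (l 226189056071) (b (l 16208448) (l 16086648))) (b (a (b (l 16432992) (l 16330608)) (b (l 16389072) (l 16312744))) (b (a (l 16217920) (l 16223840)) (l 16100128)))))) (b (c (l 16348272) (l 16284840)) (b (l 16275800) (l 16159120))))) (b (b (c (l 15980176) (l 16391984)) (c (l 16126576) (l 16459600))) (b (a (l 16266040) (l 16347016)) (b (l 16281560) (l 16261032))))))), by decide +kernel⟩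

def k1_pm_012 : ∃ t, chk3 f_pm_012 t 3 1 1 = true :=
  ⟨(b (a (a (a (b (l 2) (b (l 2) (l 15815456))) (l 2)) (l 2)) (l 2)) (b (a (a (b (c (l 15979600) (l 16266920)) (c (l 16072144) (l 16366304))) (b (l 40900734215) (c (l 15993384) (l 16226728)))) (b (l 2) (a (l 15858504) (l 2)))) (a (b (a (c (l 16322456) (l 16482112)) (c (l 16148632) (l 16311400))) (a (b (l 16532224) (l 16463808)) (b (l 16332896) (l 16418680)))) (b (a (l 15970392) (l 16000712)) (a (l 16207408) (l 16039640)))))), by decide +kernel⟩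

theorem s2_pm_012 : ∃ t, chk3 f_pm_012 t 1 1 1 = true := ex3_a k0_pm_012 k1_pm_012

theorem c_pm_012 : CertB 0 536870912 536870912 536870912 1020054732 13421774 3 eng mog cd1q0 cd2q1 pd2 true true false .pnp 0 1 2
    ndB1q0 ndB2q1 pcB2 Cut.none Ext.none :=
  certB2 (fam := true) (s1 := true) (s2 := false) (a := 0) (b := 1) (c := 2) (cn := .pnp) (n1 := ndB1q0) (n2 := ndB2q1) (pc := pcB2) (cut := Cut.none) (xt := Ext.none) (P1 := 0) (W1 := 536870912) (P2 := 536870912) (W2 := 536870912) (P3 := 1020054732) (W3 := 13421774) (N0 := 3) (En := eng) (mo := mog) (C1 := cd1q0) (C2 := cd2q1) (C3 := pd2)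
    rfl (fun _ => rfl) s2_pm_012

noncomputable def cut_pm_022_a : Cut := Cut.of [[⟨0, 0, 0, 38347922⟩, ⟨1, 1, 0, 38347922⟩, ⟨2, 1, 0, 38347922⟩]]

noncomputable def f_pm_022_a : ℕ → ℕ → ℕ → ℕ → Bool := onCell 1073741824 536870912 0 536870912 1020054732 13421774
    (rowB 3 eng mog cd1q0 cd2q2a pd2 2 true true false .pp 0 2 2 (qsf 0 536870912 0 536870912 2) ndB1q0 ndB2q2a pcB2 cut_pm_022_a Ext.none)

def k0_pm_022_a : ∃ t, chk3 f_pm_022_a t 2 2 1 = true :=
  ⟨(a (a (l 1) (b (l 1) (a (l 1) (b (l 1) (a (l 1) (l 16413080)))))) (a (b (a (a (l 1) (l 16369096)) (b (l 16255880) (l 16280016))) (a (b (l 16347664) (a (l 16492200) (l 16451752))) (b (l 16273424) (l 16254640)))) (b (a (b (l 16136824) (l 16165664)) (b (l 15982880) (l 16016000))) (a (b (l 16184728) (l 16191616)) (b (l 16039432) (l 16050808)))))), by decide +kernel⟩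

def k1_pm_022_a : ∃ t, chk3 f_pm_022_a t 4 6 1 = true :=
  ⟨(a (l 1) (a (b (l 1) (b (a (l 1) (l 16370224)) (a (a (l 1) (b (l 16484336) (l 16521752))) (b (l 16484024) (l 16520192))))) (b (b (a (l 16420728) (l 16485128)) (a (l 16431784) (l 16535072))) (b (a (l 16470288) (l 16555848)) (a (l 16536056) (l 16529216)))))), by decide +kernel⟩

def k2_pm_022_a : ∃ t, chk3 f_pm_022_a t 4 7 1 = true :=
  ⟨(a (a (b (l 1) (b (b (b (l 1) (l 6)) (l 6)) (l 6))) (b (b (a (l 1) (a (l 1) (b (l 1) (c (l 16546088) (l 16559728))))) (a (b (l 1) (b (a (l 1) (a (l 16561680) (l 16572392))) (a (a (l 1) (l 16555232)) (c (l 16581624) (l 16601768))))) (a (b (c (l 16523576) (l 16562688)) (c (l 16572504) (l 16587536))) (b (c (l 16571104) (l 16582384)) (l 16581168))))) (b (a (b (a (a (b (l 16560512) (l 6)) (b (l 16580648) (l 16606472))) (c (l 16578928) (l 16617080))) (a (a (l 6) (a (l 16622840) (l 16627392))) (a (l 16634352) (l 16643848)))) (a (b (c (l 16623192) (l 16634784)) (a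 (l 16648672) (l 16652680))) (c (l 16581968) (l 16597448)))) (a (a (a (l 6) (b (l 16654216) (a (l 16632120) (l 16645168)))) (b (c (l 16644936) (l 16635720)) (c (l 16606008) (l 16623064)))) (a (b (c (l 16630416) (l 16646600)) (c (l 16612920) (l 16613096))) (b (l 16573080) (c (l 16576864) (l 16581736)))))))) (a (b (a (b (b (a (b (l 16524696) (l 16545328)) (l 16539816)) (a (l 16535336) (l 16559984))) (c (a (l 16558760) (l 16605368)) (c (l 16571736) (l 16571488)))) (b (c (l 16518552) (l 16531920)) (a (l 16528904) (l 16483000)))) (a (b (b (a (l 16622312) (l 16587224)) (a (l 16592288) (l 16578344))) (b (c (l 16517136) (l 16546504)) (a (l 16503096) (l 16489512)))) (b (b (l 16471600) (l 16441944)) (c (b (l 16483552) (l 16446440)) (b (l 16503664) (l 16470528)))))) (b (a (b (l 16504536) (c (l 16429752) (l 16472760))) (b (l 16453760) (a (l 16451048) (l 16436736)))) (b (a (c (l 16415272) (l 16463976)) (b (l 16353720) (l 16366456))) (a (c (b (l 16408056) (l 16371232))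 (l 16360824)) (b (l 16313408) (l 16236608))))))), by decide +kernel⟩

def k3_pm_022_a : ∃ t, chk3 f_pm_022_a t 5 3 1 = true :=
  ⟨(b (a (b (a (a (l 16509184) (l 16434832)) (l 16178392)) (a (a (b (l 16482504) (l 16456992)) (l 16355984)) (a (l 16326856) (l 16256920)))) (b (a (l 16183032) (l 16046904)) (a (l 16028840) (l 16023512)))) (a (b (a (b (l 16242656) (a (l 16384384) (l 16315360))) (b (l 16230080) (l 16130136))) (a (a (b (c (l 16268200) (l 16359072)) (c (l 16221584) (l 16299680))) (a (b (l 16263408) (l 16158768)) (a (b (l 16259288) (l 16176424)) (a (b (l 16246704) (l 16164360)) (b (l 16238200) (c (l 16141712) (l 16213832))))))) (a (b (l 16200968) (l 16015888)) (b (l 16135696) (l 15995968))))) (b (a (b (l 16117712) (l 16083440)) (b (l 15990560) (l 15959184))) (a (b (l 15956752) (a (l 15976800) (l 15957992))) (b (l 15919480) (c (l 15821816) (l 15920072))))))), by decide +kernel⟩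

def k4_pm_022_a : ∃ t, chk3 f_pm_022_a t 3 1 1 = true :=
  ⟨(b (a (a (b (a (l 15729696) (l 15679304)) (b (a (l 15901728) (l 15772744)) (a (l 15917336) (l 15792280)))) (b (a (l 15597376) (l 15484872)) (b (l 15598208) (l 15455264)))) (b (a (a (l 15384632) (l 15297456)) (b (l 15147440) (l 15197120))) (a (b (l 15404264) (l 15434704)) (b (l 15261000) (l 15295176))))) (a (b (a (b (a (l 15917952) (l 15797216)) (a (l 15899504) (l 15783600))) (b (a (l 15685624) (l 15584008)) (a (l 15676672) (l 15579496)))) (a (b (a (b (l 15870600) (l 15842192)) (l 15641584)) (a (b (l 15805696) (l 15676264)) (b (l 15700080) (l 15658088)))) (b (a (l 15644984) (l 15553120)) (a (b (l 15603344) (l 15564920)) (b (l 15516128) (l 15481224)))))) (b (a (b (l 15452472) (a (l 15492792) (l 15417216))) (b (l 15318072) (b (l 15326000) (l 15325952)))) (a (b (a (l 15471504) (l 15400712)) (a (b (l 15439000) (l 15407512)) (b (l 15372480) (l 15344264)))) (b (c (l 15271720) (l 15341200)) (a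 (l 15116352) (l 15262520))))))), by decide +kernel⟩

theorem s5_pm_022_a : ∃ t, chk3 f_pm_022_a t 4 3 1 = true := ex3_b k1_pm_022_a k2_pm_022_a

theorem s6_pm_022_a : ∃ t, chk3 f_pm_022_a t 2 3 1 = true := ex3_a s5_pm_022_a k3_pm_022_a

theorem s7_pm_022_a : ∃ t, chk3 f_pm_022_a t 2 1 1 = true := ex3_b k0_pm_022_a s6_pm_022_a

theorem s8_pm_022_a : ∃ t, chk3 f_pm_022_a t 1 1 1 = true := ex3_a s7_pm_022_a k4_pm_022_a

theorem c_pm_022_a : CertB 0 536870912 0 536870912 1020054732 13421774 3 eng mog cd1q0 cd2q2a pd2 true true false .pp 0 2 2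
    ndB1q0 ndB2q2a pcB2 cut_pm_022_a Ext.none :=
  certB2 (fam := true) (s1 := true) (s2 := false) (a := 0) (b := 2) (c := 2) (cn := .pp) (n1 := ndB1q0) (n2 := ndB2q2a) (pc := pcB2) (cut := cut_pm_022_a) (xt := Ext.none) (P1 := 0) (W1 := 536870912) (P2 := 0) (W2 := 536870912) (P3 := 1020054732) (W3 := 13421774) (N0 := 3) (En := eng) (mo := mog) (C1 := cd1q0) (C2 := cd2q2a) (C3 := pd2)
    rfl (fun _ => rfl) s8_pm_022_a

noncomputable def cut_pm_022_b : Cut := Cut.of [[⟨0, 0, 0, 38347922⟩, ⟨1, 1, 0, 38347922⟩, ⟨2, 1, 0, 38347922⟩]]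

noncomputable def f_pm_022_b : ℕ → ℕ → ℕ → ℕ → Bool := onCell 1073741824 536870912 1239849684 370763052 1020054732 13421774
    (rowB 3 eng mog cd1q0 cd2q2b pd2 2 true true false .pp 0 2 2 (qsf 0 536870912 1239849684 370763052 2) ndB1q0 ndB2q2b pcB2 cut_pm_022_b Ext.none)

def k0_pm_022_b : ∃ t, chk3 f_pm_022_b t 1 1 1 = true :=
  ⟨(a (b (a (l 1) (b (b (a (a (b (l 16368808) (l 1)) (b (l 16216672) (l 16290112))) (a (b (l 16137264) (l 16168872)) (l 15934664))) (a (l 1) (a (l 16021424) (l 15947976)))) (a (l 1) (a (l 1) (b (l 15989640) (l 1)))))) (l 1)) (b (a (b (a (b (a (l 15849352) (l 15710600)) (a (l 15903016) (l 15762008))) (b (a (l 15582440) (l 15465888)) (a (l 15631048) (l 15511240)))) (a (a (b (l 15921608) (l 1)) (b (l 15799160) (l 15823128))) (b (a (l 15665352) (l 15542360)) (a (l 15685976) (l 15559496))))) (b (a (b (c (l 15328088) (l 15303408)) (l 15355568)) (b (l 15163328) (l 15194848))) (a (b (l 15381536) (l 15288528)) (b (l 15213208) (l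 15217552))))) (a (b (a (l 1) (b (a (l 15694584) (l 15563664)) (a (l 1) (l 15557264)))) (l 1)) (a (b (b (a (l 15444792) (l 15338856)) (a (l 15432648) (l 15321800))) (b (a (l 1) (l 15293608)) (l 1))) (b (a (l 15239728) (l 15160552)) (b (a (l 15191280) (l 15104968)) (a (l 15147440) (l 15054280)))))))), by decide +kernel⟩

theorem c_pm_022_b : CertB 0 536870912 1239849684 370763052 1020054732 13421774 3 eng mog cd1q0 cd2q2b pd2 true true false .pp 0 2 2
    ndB1q0 ndB2q2b pcB2 cut_pm_022_b Ext.none :=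
  certB2 (fam := true) (s1 := true) (s2 := false) (a := 0) (b := 2) (c := 2) (cn := .pp) (n1 := ndB1q0) (n2 := ndB2q2b) (pc := pcB2) (cut := cut_pm_022_b) (xt := Ext.none) (P1 := 0) (W1 := 536870912) (P2 := 1239849684) (W2 := 370763052) (P3 := 1020054732) (W3 := 13421774) (N0 := 3) (En := eng) (mo := mog) (C1 := cd1q0) (C2 := cd2q2b) (C3 := pd2)
    rfl (fun _ => rfl) k0_pm_022_b

noncomputable def f_pm_023_a : ℕ → ℕ → ℕ → ℕ → Bool := onCell 1610612736 536870912 0 536870912 1020054732 13421774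
    (rowB 3 eng mog cd1q0 cd2q2a pd3 2 true true false .up 0 2 3 (qsf 0 536870912 0 536870912 3) ndB1q0 ndB2q2a pcB3 Cut.none Ext.none)

def k0_pm_023_a : ∃ t, chk3 f_pm_023_a t 1 1 1 = true :=
  ⟨(a (a (b (a (b (l 16463064) (l 16407888)) (b (l 16406560) (l 16326352))) (b (a (b (l 16323536) (l 16244000)) (c (l 16181584) (l 16210072))) (a (b (l 16098776) (c (l 15953792) (l 16020760))) (b (l 15984696) (l 2))))) (b (a (b (l 16375672) (l 16285824)) (l 2)) (b (l 2) (l 2)))) (l 2)), by decide +kernel⟩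

theorem c_pm_023_a : CertB 0 536870912 0 536870912 1020054732 13421774 3 eng mog cd1q0 cd2q2a pd3 true true false .up 0 2 3
    ndB1q0 ndB2q2a pcB3 Cut.none Ext.none :=
  certB2 (fam := true) (s1 := true) (s2 := false) (a := 0) (b := 2) (c := 3) (cn := .up) (n1 := ndB1q0) (n2 := ndB2q2a) (pc := pcB3) (cut := Cut.none) (xt := Ext.none) (P1 := 0) (W1 := 536870912) (P2 := 0) (W2 := 536870912) (P3 := 1020054732) (W3 := 13421774) (N0 := 3) (En := eng) (mo := mog) (C1 := cd1q0) (C2 := cd2q2a) (C3 := pd3)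
    rfl (fun _ => rfl) k0_pm_023_a

noncomputable def f_pm_023_b : ℕ → ℕ → ℕ → ℕ → Bool := onCell 1610612736 536870912 1239849684 370763052 1020054732 13421774
    (rowB 3 eng mog cd1q0 cd2q2b pd3 2 true true false .up 0 2 3 (qsf 0 536870912 1239849684 370763052 3) ndB1q0 ndB2q2b pcB3 Cut.none Ext.none)

def k0_pm_023_b : ∃ t, chk3 f_pm_023_b t 1 1 1 = true :=
  ⟨(a (a (b (b (a (l 16152240) (l 16349608)) (a (l 15879856) (l 16235696))) (b (a (l 15519688) (l 15817024)) (a (a (l 15286592) (l 15421744)) (l 15419664)))) (b (a (b (l 16335896) (l 16229088)) (b (a (l 16471272) (l 16445048)) (a (l 16437592) (l 16476368)))) (a (b (a (l 16093832) (l 16126176)) (a (l 15771448) (l 15870904))) (b (l 16148352) (l 15995552))))) (b (b (l 2) (a (a (a (l 16508440) (l 16535416)) (a (l 16552760) (l 2))) (l 2))) (a (a (b (a (l 16365056) (l 16416336)) (a (l 16145424) (l 16215960))) (b (a (l 16450632) (l 4)) (l 4))) (l 4)))), by decide +kernel⟩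

theorem c_pm_023_b : CertB 0 536870912 1239849684 370763052 1020054732 13421774 3 eng mog cd1q0 cd2q2b pd3 true true false .up 0 2 3
    ndB1q0 ndB2q2b pcB3 Cut.none Ext.none :=
  certB2 (fam := true) (s1 := true) (s2 := false) (a := 0) (b := 2) (c := 3) (cn := .up) (n1 := ndB1q0) (n2 := ndB2q2b) (pc := pcB3) (cut := Cut.none) (xt := Ext.none) (P1 := 0) (W1 := 536870912) (P2 := 1239849684) (W2 := 370763052) (P3 := 1020054732) (W3 := 13421774) (N0 := 3) (En := eng) (mo := mog) (C1 := cd1q0) (C2 := cd2q2b) (C3 := pd3)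
    rfl (fun _ => rfl) k0_pm_023_b

end Pool.Agent.Strip051.G.I9500_9625.Tab.C.BA12

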