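import Pool.Agent.Strip051.G.I9500_9625.Tab
import Pool.Agent.Strip051.PB.ExtD3

/-! # Certificates B12 (generated) -/

set_option linter.all false
set_option maxRecDepth 100000

namespace Pool.Agent.Strip051.G.I9500_9625.Tab.C.BA12

open Pool.Agent.Strip051.PB Pool.Agent.Strip051.PB.T
open Pool.Agent.Strip051.G.I9500_9625.Tab

noncomputable def f_pm_033 : ℕ → ℕ → ℕ → ℕ → Bool := onCell 0 536870912 1610612736 536870912 1020054732 13421774
    (rowB 3 eng mog cd1q0 cd2q3 pd3 1 true true false .pnn 0 3 3 (qsf 0 536870912 1610612736 536870912 3) ndB1q0 ndB2q3 pcB3 Cut.none Ext.none)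

def k0_pm_033 : ∃ t, chk3 f_pm_033 t 1 1 1 = true :=
  ⟨(b (a (b (a (b (a (c (a (l 15523984) (l 15629664)) (a (l 15229432) (l 15352936))) (c (l 15590968) (l 15364560))) (a (c (a (l 15430288) (l 15542808)) (a (l 15196248) (l 15322624))) (c (l 15470344) (a (l 15445456) (l 15564464))))) (b (l 1) (a (c (l 15768616) (l 15735280)) (l 1)))) (a (b (a (b (c (l 15397896) (l 15133696)) (a (l 15206152) (l 15330560))) (b (c (l 15619336) (l 15445560)) (l 15296968))) (a (b (l 15224752) (l 15179480)) (b (l 15465568) (l 15423264)))) (b (a (b (c (l 15817616) (l 15698840)) (l 15617232)) (b (l 1) (l 15726824))) (a (b (l 15682856) (l 15641984)) (b (l 15878304) (l 15837816)))))) (b (l 1) (a (b (l 1) (a (b (l 1) (l 16012712)) (l 1))) (l 1)))) (b (b (a (b (a (a (l 15123832) (l 15373448)) (a (l 15596632) (l 15795312))) (l 4)) (a (b (a (l 15971256) (l 1)) (a (l 15920032) (l 16078240))) (l 1))) (a (l 4) (a (l 4) (a (l 4) (l 1))))) (l 4))), by decide +kernel⟩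

theorem c_pm_033 : CertB 0 536870912 1610612736 536870912 1020054732 13421774 3 eng mog cd1q0 cd2q3 pd3 true true false .pnn 0 3 3
    ndB1q0 ndB2q3 pcB3 Cut.none Ext.none :=
  certB1 (fam := true) (s1 := true) (s2 := false) (a := 0) (b := 3) (c := 3) (cn := .pnn) (n1 := ndB1q0) (n2 := ndB2q3) (pc := pcB3) (cut := Cut.none) (xt := Ext.none) (P1 := 0) (W1 := 536870912) (P2 := 1610612736) (W2 := 536870912) (P3 := 1020054732) (W3 := 13421774) (N0 := 3) (En := eng) (mo := mog) (C1 := cd1q0) (C2 := cd2q3) (C3 := pd3)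
    rfl (fun _ => rfl) k0_pm_033

noncomputable def f_pm_101 : ℕ → ℕ → ℕ → ℕ → Bool := onCell 536870912 536870912 0 536870912 1020054732 13421774
    (rowB 3 eng mog cd1q1 cd2q0 pd1 2 true true false .npn 1 0 1 (qsf 536870912 536870912 0 536870912 1) ndB1q1 ndB2q0 pcB1 Cut.none Ext.none)

def k0_pm_101 : ∃ t, chk3 f_pm_101 t 1 1 1 = true :=
  ⟨(a (l 3) (l 3)), by decide +kernel⟩

theorem c_pm_101 : CertB 536870912 536870912 0 536870912 1020054732 13421774 3 eng mog cd1q1 cd2q0 pd1 true true false .npn 1 0 1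
    ndB1q1 ndB2q0 pcB1 Cut.none Ext.none :=
  certB2 (fam := true) (s1 := true) (s2 := false) (a := 1) (b := 0) (c := 1) (cn := .npn) (n1 := ndB1q1) (n2 := ndB2q0) (pc := pcB1) (cut := Cut.none) (xt := Ext.none) (P1 := 536870912) (W1 := 536870912) (P2 := 0) (W2 := 536870912) (P3 := 1020054732) (W3 := 13421774) (N0 := 3) (En := eng) (mo := mog) (C1 := cd1q1) (C2 := cd2q0) (C3 := pd1)
    rfl (fun _ => rfl) k0_pm_101

noncomputable def f_pm_102 : ℕ → ℕ → ℕ → ℕ → Bool := onCell 536870912 536870912 1073741824 536870912 1020054732 13421774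
    (rowB 3 eng mog cd1q1 cd2q0 pd2 1 true true false .npp 1 0 2 (qsf 536870912 536870912 0 536870912 2) ndB1q1 ndB2q0 pcB2 Cut.none Ext.none)

def k0_pm_102 : ∃ t, chk3 f_pm_102 t 1 4 1 = true :=
  ⟨(b (a (l 3) (l 3)) (b (a (l 3) (a (l 3) (a (b (l 3) (a (l 16478984) (l 16466064))) (a (b (l 3) (l 16396216)) (b (a (l 3) (l 384029655543)) (b (l 16368928) (a (l 16442216) (l 16293384)))))))) (a (a (a (l 2) (b (l 3) (l 200419543687))) (a (b (l 3) (l 203104055975)) (b (l 3) (a (l 16543216) (l 16508936))))) (a (a (b (l 206862069927) (a (l 16453616) (b (l 16457216) (l 16428608)))) (b (a (l 16466472) (l 16443504)) (a (b (l 16427200) (l 16390800)) (b (l 16397632) (l 16350488))))) (a (b (a (b (l 16438000) (l 16407624)) (b (l 16422880) (l 16342800))) (a (b (l 16364872) (l 16311952)) (b (l 16329256) (l 16275120)))) (b (b (a (a (l 16414056) (l 16406696)) (a (l 16395800) (l 16381424))) (a (l 16354728) (l 16199488))) (a (c (l 16253584) (l 16281976)) (b (l 16223632) (a (l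 16216576) (l 16201312)))))))))), by decide +kernel⟩

def k1_pm_102 : ∃ t, chk3 f_pm_102 t 1 5 1 = true :=
  ⟨(a (b (b (b (a (a (l 2) (c (l 16419616) (l 16556496))) (a (c (l 16472000) (l 16440880)) (b (l 16305616) (l 16380024)))) (a (l 2) (b (a (l 16403056) (l 16327064)) (b (a (l 16447544) (l 16387744)) (a (c (l 16474744) (l 16415400)) (b (l 16396576) (l 16326344))))))) (a (l 2) (a (l 16298856) (l 16161768)))) (a (l 2) (a (c (l 16462080) (l 16335992)) (b (l 16096760) (l 16088280))))) (a (b (b (b (a (a (l 16329624) (l 16366872)) (a (l 16322384) (l 16279056))) (a (b (a (l 16357544) (l 16308448)) (b (l 16284824) (b (l 16228672) (a (l 16309648) (l 16258128))))) (b (a (l 16260432) (l 16214192)) (b (l 16102088) (b (l 16046016) (l 16182176)))))) (a (a (l 16263344) (l 16205888)) (a (l 16149944) (l 16096384)))) (a (a (b (l 16184240) (l 16114032)) (l 15887496)) (a (b (l 16051544) (l 15962280)) (b (l 15988520) (l 15889560))))) (b (b (a (b (a (l 16237464) (b (l 16223632)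 (l 16174896))) (b (a (l 16170360) (l 16132144)) (b (a (l 16140464) (l 16099840)) (a (l 16118424) (l 16077288))))) (b (a (b (l 16188192) (l 16140992)) (b (l 16054400) (l 16009320))) (b (a (l 16097400) (l 16070216)) (a (c (l 16009424) (l 16074608)) (c (b (l 16003200) (l 15972400)) (l 16060808)))))) (a (a (l 16046024) (l 15999776)) (a (c (l 15928336) (l 15989752)) (c (l 15878024) (l 15971544))))) (a (a (b (l 15928704) (l 15820000)) (b (l 15873040) (l 15754528))) (a (b (l 15738744) (l 15694240)) (b (c (l 15724352) (l 15834264)) (c (l 15577376) (l 15704720)))))))), by decide +kernel⟩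

def k2_pm_102 : ∃ t, chk3 f_pm_102 t 1 3 1 = true :=
  ⟨(a (a (l 2) (b (a (l 2) (b (a (l 2) (l 16098168)) (l 2))) (l 2))) (a (b (a (b (c (l 15997744) (l 15945064)) (a (l 2) (l 15837912))) (b (c (l 15582680) (l 15793160)) (a (l 15729024) (l 15621704)))) (a (l 2) (b (a (l 2) (l 15527992)) (l 2)))) (b (a (b (a (b (l 15720600) (l 15631088)) (b (l 15645032) (l 15545232))) (a (l 15516840) (b (l 15455736) (l 15377088)))) (b (a (c (l 15464952) (l 15573232)) (b (l 15258672) (l 15221592))) (a (c (l 15251792) (l 15386576)) (c (l 14966360) (l 15322432))))) (a (a (b (l 15403000) (l 2)) (b (l 15175920) (l 15193576))) (b (a (c (l 15084976) (l 15241848)) (b (c (l 14981216) (l 15191144)) (c (l 14893656) (l 15107096)))) (a (b (l 15072352) (l 15023336)) (b (l 14914560) (l 14835352)))))))), by decide +kernel⟩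

theorem s3_pm_102 : ∃ t, chk3 f_pm_102 t 1 2 1 = true := ex3_b k0_pm_102 k1_pm_102

theorem s4_pm_102 : ∃ t, chk3 f_pm_102 t 1 1 1 = true := ex3_b s3_pm_102 k2_pm_102

theorem c_pm_102 : CertB 536870912 536870912 0 536870912 1020054732 13421774 3 eng mog cd1q1 cd2q0 pd2 true true false .npp 1 0 2
    ndB1q1 ndB2q0 pcB2 Cut.none Ext.none :=
  certB1 (fam := true) (s1 := true) (s2 := false) (a := 1) (b := 0) (c := 2) (cn := .npp) (n1 := ndB1q1) (n2 := ndB2q0) (pc := pcB2) (cut := Cut.none) (xt := Ext.none) (P1 := 536870912) (W1 := 536870912) (P2 := 0) (W2 := 536870912) (P3 := 1020054732) (W3 := 13421774) (N0 := 3) (En := eng) (mo := mog) (C1 := cd1q1) (C2 := cd2q0) (C3 := pd2)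
    rfl (fun _ => rfl) s4_pm_102

noncomputable def f_pm_112 : ℕ → ℕ → ℕ → ℕ → Bool := onCell 536870912 536870912 1073741824 536870912 1020054732 13421774
    (rowB 3 eng mog cd1q1 cd2q1 pd2 1 true true false .dn 1 1 2 (qsf 536870912 536870912 536870912 536870912 2) ndB1q1 ndB2q1 pcB2 Cut.none Ext.none)

def k0_pm_112 : ∃ t, chk3 f_pm_112 t 2 1 1 = true :=
  ⟨(b (b (b (l 3) (b (l 3) (b (a (l 3) (l 1)) (a (a (l 3) (c (l 16148552) (l 16314272))) (a (c (l 15937672) (l 16146776)) (l 1)))))) (b (a (b (b (a (c (l 16366440) (l 16461576)) (c (l 16058048) (l 16202384))) (b (a (c (l 16362592) (l 16455312)) (a (l 16258024) (l 16215520))) (b (a (l 16155504) (a (l 16295208) (l 16209136))) (a (c (l 16360544) (l 16452400)) (c (l 16106048) (l 16278008)))))) (a (c (l 16357200) (l 16444944)) (c (l 16121248) (l 16280696)))) (a (a (b (b (c (l 16063568) (l 16205688)) (b (l 16122240) (b (l 16114320) (l 15877936)))) (l 16037936)) (b (b (l 1) (b (l 1) (c (l 15936392) (l 15937928))))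 (l 15933344))) (b (l 1) (c (l 15704416) (l 15906560))))) (a (a (c (l 16330112) (l 16422984)) (c (a (l 16221592) (l 16125064)) (l 16199912))) (a (c (l 15798184) (l 16043208)) (c (a (l 15790200) (l 15664712)) (l 15641456)))))) (a (b (c (a (b (l 16350040) (l 16348936)) (b (l 16169648) (l 16173608))) (a (b (l 16391104) (l 16355432)) (b (l 16259048) (l 16232880)))) (a (c (b (l 16323272) (l 16305928)) (b (l 16314512) (l 16266344))) (b (c (l 16186048) (l 16204376)) (l 16023064)))) (b (a (c (b (l 15915104) (l 15958144)) (b (l 16086760) (l 16068040))) (c (b (a (l 15777592) (l 15647776)) (l 15521952)) (b (l 15835632) (l 15864384)))) (a (c (b (l 15968768) (l 15988736)) (b (l 16049400) (l 16030336))) (c (b (l 15656656) (l 15741008)) (b (l 15853064) (l 15843528))))))), by decide +kernel⟩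

def k1_pm_112 : ∃ t, chk3 f_pm_112 t 3 1 1 = true :=
  ⟨(b (b (l 1) (a (b (l 1) (a (c (a (l 15530720) (l 1)) (l 370471730551)) (l 1))) (l 1))) (a (b (a (c (b (a (l 15507968) (l 15361160)) (l 66602295719)) (b (l 15470560) (l 15628224))) (c (b (a (l 15208208) (l 1)) (a (l 15186792) (l 15020848))) (b (l 362418114663) (l 15157136)))) (a (c (b (l 15385856) (l 15448640)) (b (l 15621744) (l 15619088))) (c (b (a (l 15183256) (l 15010560)) (l 14902584)) (b (l 15362768) (l 15364304))))) (a (b (a (b (l 1) (c (l 14849720) (l 15158752))) (l 1)) (c (b (a (l 14831216) (l 14646584)) (a (l 14835616) (l 14642848))) (b (l 136394878583) (l 14857744)))) (b (l 1) (a (b (c (l 326982798519) (l 14870824)) (c (b (l 14441736) (l 14438688)) (l 116530205335))) (b (l 1) (c (b (l 14226880) (l 14204768)) (l 150889518775)))))))), by decide +kernel⟩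

theorem s2_pm_112 : ∃ t, chk3 f_pm_112 t 1 1 1 = true := ex3_a k0_pm_112 k1_pm_112

theorem c_pm_112 : CertB 536870912 536870912 536870912 536870912 1020054732 13421774 3 eng mog cd1q1 cd2q1 pd2 true true false .dn 1 1 2
    ndB1q1 ndB2q1 pcB2 Cut.none Ext.none :=
  certB1 (fam := true) (s1 := true) (s2 := false) (a := 1) (b := 1) (c := 2) (cn := .dn) (n1 := ndB1q1) (n2 := ndB2q1) (pc := pcB2) (cut := Cut.none) (xt := Ext.none) (P1 := 536870912) (W1 := 536870912) (P2 := 536870912) (W2 := 536870912) (P3 := 1020054732) (W3 := 13421774) (N0 := 3) (En := eng) (mo := mog) (C1 := cd1q1) (C2 := cd2q1) (C3 := pd2)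
    rfl (fun _ => rfl) s2_pm_112

noncomputable def f_pm_113 : ℕ → ℕ → ℕ → ℕ → Bool := onCell 536870912 536870912 1610612736 536870912 1020054732 13421774
    (rowB 3 eng mog cd1q1 cd2q1 pd3 1 true true false .nn 1 1 3 (qsf 536870912 536870912 536870912 536870912 3) ndB1q1 ndB2q1 pcB3 Cut.none Ext.none)

def k0_pm_113 : ∃ t, chk3 f_pm_113 t 2 1 1 = true :=
  ⟨(b (b (a (b (a (a (b (l 16199560) (c (l 16372688) (l 15992848))) (c (l 16280256) (l 16063752))) (c (b (l 16141200) (l 16178704)) (l 16028000))) (a (a (l 2) (b (l 172434375991) (l 2))) (c (b (l 16227128) (l 16285944)) (b (l 16052192) (l 15999272))))) (a (b (c (a (l 16053776) (l 15987152)) (a (l 16083048) (l 16020608))) (c (a (l 16135336) (l 16061512)) (a (l 16057968) (l 16027240)))) (b (a (c (l 15898032) (l 15912728)) (c (l 15714128) (l 15789456))) (a (c (l 16010368) (l 15932904)) (l 15597712))))) (a (b (a (l 2) (a (l 2) (b (l 16150888) (l 2)))) (l 2)) (b (a (c (b (l 16183184) (l 16249864)) (b (l 16021288)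 (l 15984968))) (a (c (l 16046032) (l 15956880)) (l 15700768))) (a (a (l 2) (b (l 16110472) (l 2))) (a (b (l 16084416) (l 16069616)) (b (l 15921344) (l 15951064))))))) (a (l 2) (b (b (a (l 2) (a (l 2) (b (l 15965336) (l 2)))) (l 2)) (l 2)))), by decide +kernel⟩

def k1_pm_113 : ∃ t, chk3 f_pm_113 t 3 1 1 = true :=
  ⟨(b (b (a (a (b (c (a (l 15547264) (l 15397296)) (l 15587456)) (c (a (l 15625704) (l 15464928)) (l 15622864))) (b (c (a (l 15266000) (l 15156688)) (l 15239872)) (c (a (l 15325416) (l 15209984)) (l 15327880)))) (a (b (a (c (l 15074008) (l 15406472)) (b (c (l 15009144) (l 15397920)) (c (l 15014800) (l 15378192)))) (a (b (l 14999208) (l 15144704)) (b (l 15097936) (l 15168344)))) (b (c (a (b (l 14934608) (l 14921744)) (l 14836592)) (b (l 15171672) (l 15304616))) (c (l 14738064) (l 15253328))))) (a (a (a (b (l 15700736) (l 15756728)) (b (l 15430176) (l 15494904))) (b (a (l 15307696) (b (l 15331208) (l 15339216))) (a (b (l 15456640) (l 15477968)) (b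 (l 15351192) (l 15371904))))) (b (a (a (b (l 15246792) (l 15247872)) (l 15010568)) (c (l 14877096) (l 15199712))) (a (c (l 15148776) (l 15287400)) (c (l 14929408) (l 15171904)))))) (a (b (b (a (a (l 15819392) (l 15439344)) (a (b (l 15512160) (l 15566520)) (l 15429504))) (a (b (a (l 2) (l 15772992)) (l 2)) (a (b (l 15657456) (l 15820432)) (l 15609256)))) (a (l 2) (b (b (l 16174472) (l 2)) (l 2)))) (a (b (b (c (l 15252240) (l 15303024)) (c (l 15445584) (l 15404480))) (b (b (l 15742576) (l 16190520)) (b (b (l 16200352) (l 2)) (l 2)))) (b (b (c (l 15030688) (l 15182080)) (c (l 15202504) (l 15252608))) (b (b (a (l 15473600) (l 15360088)) (a (l 15831096) (l 15586568))) (a (b (l 16092880) (l 4)) (b (l 16059360) (l 4)))))))), by decide +kernel⟩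

theorem s2_pm_113 : ∃ t, chk3 f_pm_113 t 1 1 1 = true := ex3_a k0_pm_113 k1_pm_113

theorem c_pm_113 : CertB 536870912 536870912 536870912 536870912 1020054732 13421774 3 eng mog cd1q1 cd2q1 pd3 true true false .nn 1 1 3
    ndB1q1 ndB2q1 pcB3 Cut.none Ext.none :=
  certB1 (fam := true) (s1 := true) (s2 := false) (a := 1) (b := 1) (c := 3) (cn := .nn) (n1 := ndB1q1) (n2 := ndB2q1) (pc := pcB3) (cut := Cut.none) (xt := Ext.none) (P1 := 536870912) (W1 := 536870912) (P2 := 536870912) (W2 := 536870912) (P3 := 1020054732) (W3 := 13421774) (N0 := 3) (En := eng) (mo := mog) (C1 := cd1q1) (C2 := cd2q1) (C3 := pd3)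
    rfl (fun _ => rfl) s2_pm_113

noncomputable def f_pm_123_a : ℕ → ℕ → ℕ → ℕ → Bool := onCell 1610612736 536870912 0 536870912 1020054732 13421774
    (rowB 3 eng mog cd1q1 cd2q2a pd3 2 true true false .npn 1 2 3 (qsf 536870912 536870912 0 536870912 3) ndB1q1 ndB2q2a pcB3 Cut.none Ext.none)

def k0_pm_123_a : ∃ t, chk3 f_pm_123_a t 2 1 1 = true :=
  ⟨(a (b (a (l 1) (b (l 1) (c (l 16141128) (l 16325296)))) (b (a (l 1) (c (l 15916592) (l 16115568))) (a (b (c (l 16139224) (l 16286704)) (c (l 16005144) (l 16025968))) (b (c (l 16167360) (l 16189152)) (c (a (l 16178128) (l 16148704)) (a (l 16105480) (l 16028136))))))) (b (a (b (c (l 16169032) (l 16368448)) (c (l 16167328) (l 16335160))) (b (a (l 16275656) (l 16133856)) (c (l 16220416) (l 16294904)))) (b (a (c (b (l 16180680) (l 16198416)) (b (l 16253264) (l 16175776))) (c (b (l 16242104) (l 16197056)) (b (l 16194048) (l 16097712)))) (a (b (c (l 16181704) (l 16068016)) (c (a (l 16067008) (l 15985592)) (a (l 15949520)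 (l 15872008)))) (b (c (l 16068152) (l 15962856)) (c (b (l 15930080) (l 15681648)) (a (l 15798432) (l 15732328)))))))), by decide +kernel⟩

def k1_pm_123_a : ∃ t, chk3 f_pm_123_a t 3 1 1 = true :=
  ⟨(b (a (a (b (a (b (l 16360656) (l 16345920)) (l 16296240)) (a (l 16181480) (b (l 16369840) (l 16309984)))) (a (b (l 16423784) (b (l 16393008) (l 16338968))) (b (l 16422024) (b (l 16430880) (l 16383088))))) (a (a (b (a (l 16535496) (l 16581984)) (a (l 16454856) (l 16498720))) (b (l 4) (c (l 16603088) (l 16579424)))) (l 4))) (a (b (a (c (b (l 16257264) (l 16152328)) (b (l 16180088) (l 16064472))) (b (a (l 16255392) (l 16307576)) (a (l 16132664) (l 16184656)))) (a (b (a (l 15961008) (l 15902680)) (a (b (l 15798584) (l 15655072)) (b (l 15766928) (l 15609664)))) (b (a (l 15743368) (b (l 16051880) (l 15937000))) (b (a (l 15761736) (l 15795168)) (a (l 15592888) (l 15621120)))))) (b (a (a (b (l 16383224) (a (l 16248192) (l 16300688))) (b (a (l 16461624) (l 16532112))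 (a (l 16361656) (l 16434808)))) (a (c (a (l 16595952) (l 16677416)) (a (l 16550656) (l 16646424))) (l 4))) (a (a (b (b (l 16143072) (l 16026800)) (b (l 15886088) (l 15724104))) (b (b (l 16054992) (a (l 16138960) (l 16237136))) (b (l 16065280) (l 15964352)))) (a (b (a (l 16578344) (l 16506480)) (a (b (l 16279544) (l 16312552)) (b (l 16460864) (a (l 16587872) (l 16657320))))) (b (a (c (l 16547056) (l 16571648)) (l 4)) (b (a (a (l 16595624) (l 16581856)) (l 4)) (a (a (l 16626624) (l 16544968)) (l 4))))))))), by decide +kernel⟩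

theorem s2_pm_123_a : ∃ t, chk3 f_pm_123_a t 1 1 1 = true := ex3_a k0_pm_123_a k1_pm_123_a

theorem c_pm_123_a : CertB 536870912 536870912 0 536870912 1020054732 13421774 3 eng mog cd1q1 cd2q2a pd3 true true false .npn 1 2 3
    ndB1q1 ndB2q2a pcB3 Cut.none Ext.none :=
  certB2 (fam := true) (s1 := true) (s2 := false) (a := 1) (b := 2) (c := 3) (cn := .npn) (n1 := ndB1q1) (n2 := ndB2q2a) (pc := pcB3) (cut := Cut.none) (xt := Ext.none) (P1 := 536870912) (W1 := 536870912) (P2 := 0) (W2 := 536870912) (P3 := 1020054732) (W3 := 13421774) (N0 := 3) (En := eng) (mo := mog) (C1 := cd1q1) (C2 := cd2q2a) (C3 := pd3)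
    rfl (fun _ => rfl) s2_pm_123_a

noncomputable def f_pm_123_b : ℕ → ℕ → ℕ → ℕ → Bool := onCell 1610612736 536870912 1239849684 370763052 1020054732 13421774
    (rowB 3 eng mog cd1q1 cd2q2b pd3 2 true true false .npn 1 2 3 (qsf 536870912 536870912 1239849684 370763052 3) ndB1q1 ndB2q2b pcB3 Cut.none Ext.none)

def k0_pm_123_b : ∃ t, chk3 f_pm_123_b t 1 1 1 = true :=
  ⟨(a (a (l 1) (b (a (b (b (a (l 16167880) (l 16133936)) (l 1)) (l 1)) (a (b (b (c (l 16167160) (l 16376096)) (l 16048040)) (l 1)) (b (b (c (l 16193240) (l 16395552)) (l 16084760)) (b (l 16184008) (l 1))))) (l 1))) (b (a (a (a (b (b (c (l 16238400) (l 16428944)) (l 16179912)) (b (l 16204936) (l 1))) (b (b (l 16177032) (l 16244096)) (b (l 16237960) (l 16182824)))) (b (a (b (l 16280248) (l 16277496)) (b (c (l 16446960) (l 16522944)) (l 16227760))) (a (c (l 16140616) (l 16344560)) (l 4)))) (a (l 4) (l 4))) (a (a (l 1) (b (a (b (l 16152384) (l 1)) (l 4)) (l 1))) (l 4)))), by decide +kernel⟩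

theorem c_pm_123_b : CertB 536870912 536870912 1239849684 370763052 1020054732 13421774 3 eng mog cd1q1 cd2q2b pd3 true true false .npn 1 2 3
    ndB1q1 ndB2q2b pcB3 Cut.none Ext.none :=
  certB2 (fam := true) (s1 := true) (s2 := false) (a := 1) (b := 2) (c := 3) (cn := .npn) (n1 := ndB1q1) (n2 := ndB2q2b) (pc := pcB3) (cut := Cut.none) (xt := Ext.none) (P1 := 536870912) (W1 := 536870912) (P2 := 1239849684) (W2 := 370763052) (P3 := 1020054732) (W3 := 13421774) (N0 := 3) (En := eng) (mo := mog) (C1 := cd1q1) (C2 := cd2q2b) (C3 := pd3)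
    rfl (fun _ => rfl) k0_pm_123_b

noncomputable def f_pm_133 : ℕ → ℕ → ℕ → ℕ → Bool := onCell 536870912 536870912 1610612736 536870912 1020054732 13421774
    (rowB 3 eng mog cd1q1 cd2q3 pd3 0 true true false .dn 1 3 3 (qsf 536870912 536870912 1610612736 536870912 3) ndB1q1 ndB2q3 pcB3 Cut.none Ext.none)

def k0_pm_133 : ∃ t, chk3 f_pm_133 t 1 1 1 = true :=
  ⟨(l 4), by decide +kernel⟩

theorem c_pm_133 : CertB 536870912 536870912 1610612736 536870912 1020054732 13421774 3 eng mog cd1q1 cd2q3 pd3 true true false .dn 1 3 3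
    ndB1q1 ndB2q3 pcB3 Cut.none Ext.none :=
  certB0 (fam := true) (s1 := true) (s2 := false) (a := 1) (b := 3) (c := 3) (cn := .dn) (n1 := ndB1q1) (n2 := ndB2q3) (pc := pcB3) (cut := Cut.none) (xt := Ext.none) (P1 := 536870912) (W1 := 536870912) (P2 := 1610612736) (W2 := 536870912) (P3 := 1020054732) (W3 := 13421774) (N0 := 3) (En := eng) (mo := mog) (C1 := cd1q1) (C2 := cd2q3) (C3 := pd3)
    rfl k0_pm_133

noncomputable def cut_pm_202_a : Cut := Cut.of [[⟨0, 1, 0, 33554432⟩, ⟨1, 0, 0, 33554432⟩, ⟨2, 1, 0, 33554432⟩]]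

noncomputable def f_pm_202_a : ℕ → ℕ → ℕ → ℕ → Bool := onCell 0 536870912 1073741824 536870912 1020054732 13421774
    (rowB 3 eng mog cd1q2a cd2q0 pd2 1 true true false .pp 2 0 2 (qsf 0 536870912 0 536870912 2) ndB1q2a ndB2q0 pcB2 cut_pm_202_a Ext.none)

def k0_pm_202_a : ∃ t, chk3 f_pm_202_a t 2 1 1 = true :=
  ⟨(b (a (b (l 1) (b (b (b (l 1) (a (l 16216152) (l 16244248))) (a (b (l 16163616) (l 16044600)) (b (l 16195896) (l 16122696)))) (b (a (b (l 15923992) (l 15804312)) (b (l 16006624) (l 15891272))) (a (b (l 15686008) (l 15569496)) (b (l 15777096) (l 15664496)))))) (b (b (l 1) (b (l 1) (b (l 1) (a (l 1) (b (l 1) (a (l 1) (l 16426840))))))) (b (b (a (b (l 16374064) (l 16277144)) (b (a (l 16432288) (l 16435808)) (l 16307144))) (b (a (l 16231224) (l 16241936)) (a (l 16182320) (l 16217696)))) (b (a (b (l 16070432) (l 15959128)) (b (l 16109632) (l 16002088))) (a (b (l 15848840) (l 15739968)) (b (l 15895456) (l 15790136))))))) (b (b (a (b (a (l 15168472) (l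 15415760)) (a (l 15181440) (l 15288376))) (b (a (l 15538464) (l 15614704)) (a (l 15375488) (l 15437024)))) (a (b (a (l 14977208) (l 15089624)) (a (b (l 14822560) (a (a (l 14785608) (l 14751144)) (l 14775952))) (l 14905712))) (b (a (l 15182248) (l 15249416)) (a (l 15002976) (l 15075048))))) (b (b (a (a (a (l 14880432) (b (a (l 14757304) (l 14710320)) (l 14712760))) (l 14751136)) (a (l 14839784) (l 14915984))) (a (a (l 14994984) (a (c (l 14694968) (l 14706600)) (l 14630840))) (l 14734856))) (a (b (a (l 15249888) (b (l 14759496) (l 14891728))) (a (l 15533200) (l 15100144))) (a (b (b (l 14613568) (l 14495936)) (a (l 14772048) (b (l 14557448) (l 14620464)))) (b (l 14651224) (b (l 14572288) (l 14545304)))))))), by decide +kernel⟩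

def k1_pm_202_a : ∃ t, chk3 f_pm_202_a t 6 1 1 = true :=
  ⟨(b (b (b (l 1) (b (a (l 1) (b (a (l 1) (b (l 1) (l 16329032))) (a (b (l 16369880) (l 16386864)) (b (l 16385216) (l 16422160))))) (a (b (a (l 16289704) (l 16257280)) (a (a (l 16367216) (l 16388584)) (l 16364608))) (a (b (c (l 16409472) (l 16399080)) (l 16428048)) (b (l 16398320) (l 16462376)))))) (b (b (a (b (b (l 16410040) (l 16423824)) (l 16283488)) (b (c (l 16328136) (l 16436480)) (a (l 16339888) (l 16326760)))) (b (a (l 16221160) (a (l 16300848) (l 16268168))) (a (l 16179432) (a (l 16198592) (l 16167408))))) (b (a (b (l 16116808) (l 16012736)) (b (l 15956432) (l 15981456))) (a (b (l 15909552) (l 15807616)) (b (l 15881576) (l 15782968)))))) (b (b (a (b (l 15637168) (l 15465792)) (b (l 15491680) (l 15452672))) (a (b (l 15284040) (l 15115016)) (b (l 15277264) (l 15114296)))) (b (a (b (l 14960696) (l 14822912)) (b (l 14965672) (l 14833152))) (a (l 14651736) (l 14668944))))), by decide +kernel⟩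

def k2_pm_202_a : ∃ t, chk3 f_pm_202_a t 7 8 1 = true :=
  ⟨(b (a (l 1) (b (a (l 1) (l 6)) (b (a (a (l 1) (l 6)) (l 6)) (b (a (a (l 1) (l 6)) (l 6)) (b (a (a (l 1) (l 6)) (l 6)) (a (a (a (l 1) (a (l 1) (c (l 184716743719) (l 173979308775)))) (a (a (b (l 6) (l 16592552)) (l 16608744)) (l 16614280))) (a (l 16627568) (l 16669952)))))))) (a (a (b (l 1) (b (l 1) (a (l 1) (l 16445424)))) (a (b (l 1) (b (b (l 16442440) (l 16498544)) (l 16478400))) (b (b (b (l 1) (a (l 1) (b (l 1) (a (l 1) (b (l 1) (l 387116951847)))))) (b (a (l 286721986119) (b (a (l 16520288) (l 16514736)) (l 16534448))) (b (l 16462968) (l 16511560)))) (b (b (l 16500704) (l 16535416)) (l 16536744))))) (a (b (a (b (b (b (a (l 1) (c (a (l 168073702967) (l 16564360)) (a (l 157336264023) (l 16551808)))) (a (a (l 1) (c (l 16537384) (l 143377598311))) (a (c (l 16574880) (l 16559720)) (l 16563184)))) (a (b (c (a (l 16548800) (l 16565032)) (a (l 16509704) (l 16547088))) (a (c (l 16534776) (l 111702187639))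 (l 16540664))) (b (a (l 16551672) (l 16589384)) (l 16544504)))) (b (a (b (a (l 16530432) (l 16546376)) (l 16565616)) (b (l 16571032) (l 16576816))) (l 16507448))) (b (a (b (c (l 16572128) (b (l 16598608) (l 16602344))) (l 16575608)) (b (l 16600336) (l 16631656))) (b (a (l 16586680) (l 16622552)) (l 16575624)))) (b (a (l 16528424) (l 16576288)) (l 16530200))) (b (b (a (b (b (l 16632552) (l 16637880)) (l 16625536)) (c (l 16618752) (l 16654432))) (a (l 16606840) (l 16566488))) (b (a (l 16566136) (l 16547016)) (a (l 16565248) (l 16504840))))))), by decide +kernel⟩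

def k3_pm_202_a : ∃ t, chk3 f_pm_202_a t 7 9 1 = true :=
  ⟨(b (a (b (a (b (l 16138825847) (l 16421616)) (c (l 16494736) (l 16471144))) (a (a (l 16429208) (l 16480072)) (l 16491112))) (a (b (l 16452552) (l 16404000)) (b (c (l 16422680) (l 16474816)) (l 16316328)))) (a (b (a (l 16465712) (l 16418816)) (a (l 16411640) (l 16344616))) (a (b (l 16353224) (l 16300784)) (b (l 16266088) (l 16214448))))), by decide +kernel⟩

def k4_pm_202_a : ∃ t, chk3 f_pm_202_a t 7 5 1 = true :=
  ⟨(b (a (b (b (a (l 16335040) (l 16310992)) (a (l 16320312) (l 16255512))) (a (b (l 16221136) (l 16121824)) (b (l 16157664) (l 16059800)))) (b (a (b (l 16247184) (l 16171920)) (b (l 16161872) (l 16066864))) (a (l 15838648) (l 15756736)))) (a (b (c (l 15729416) (l 15972392)) (a (l 15779016) (l 15722744))) (b (a (l 15835704) (l 15736208)) (a (l 15647992) (l 15552368))))), by decide +kernel⟩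

def k5_pm_202_a : ∃ t, chk3 f_pm_202_a t 7 3 1 = true :=
  ⟨(b (b (a (b (l 15334136) (l 15386176)) (b (a (l 15466736) (l 15375344)) (l 15147064))) (a (b (l 15218008) (l 15062288)) (b (l 15092440) (l 14945672)))) (b (a (b (l 14920800) (l 14795256)) (b (l 14813320) (l 14696992))) (a (l 14641064) (b (l 14598184) (l 14518304))))), by decide +kernel⟩

theorem s6_pm_202_a : ∃ t, chk3 f_pm_202_a t 7 4 1 = true := ex3_b k2_pm_202_a k3_pm_202_a

theorem s7_pm_202_a : ∃ t, chk3 f_pm_202_a t 7 2 1 = true := ex3_b s6_pm_202_a k4_pm_202_a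

theorem s8_pm_202_a : ∃ t, chk3 f_pm_202_a t 7 1 1 = true := ex3_b s7_pm_202_a k5_pm_202_a

theorem s9_pm_202_a : ∃ t, chk3 f_pm_202_a t 3 1 1 = true := ex3_a k1_pm_202_a s8_pm_202_a

theorem s10_pm_202_a : ∃ t, chk3 f_pm_202_a t 1 1 1 = true := ex3_a k0_pm_202_a s9_pm_202_a

theorem c_pm_202_a : CertB 0 536870912 0 536870912 1020054732 13421774 3 eng mog cd1q2a cd2q0 pd2 true true false .pp 2 0 2
    ndB1q2a ndB2q0 pcB2 cut_pm_202_a Ext.none :=
  certB1 (fam := true) (s1 := true) (s2 := false) (a := 2) (b := 0) (c := 2) (cn := .pp) (n1 := ndB1q2a) (n2 := ndB2q0) (pc := pcB2) (cut := cut_pm_202_a) (xt := Ext.none) (P1 := 0) (W1 := 536870912) (P2 := 0) (W2 := 536870912) (P3 := 1020054732) (W3 := 13421774) (N0 := 3) (En := eng) (mo := mog) (C1 := cd1q2a) (C2 := cd2q0) (C3 := pd2)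
    rfl (fun _ => rfl) s10_pm_202_a

noncomputable def cut_pm_202_b : Cut := Cut.of [[⟨0, 1, 0, 33554432⟩, ⟨1, 0, 0, 33554432⟩, ⟨2, 1, 0, 33554432⟩]]

noncomputable def f_pm_202_b : ℕ → ℕ → ℕ → ℕ → Bool := onCell 1073741824 536870912 0 536870912 1020054732 13421774
    (rowB 3 eng mog cd1q2b cd2q0 pd2 2 true true false .pp 2 0 2 (qsf 1239849684 370763052 0 536870912 2) ndB1q2b ndB2q0 pcB2 cut_pm_202_b Ext.none)

def k0_pm_202_b : ∃ t, chk3 f_pm_202_b t 1 1 1 = true :=
  ⟨(a (b (b (a (l 1) (b (a (b (a (l 249140153959) (b (l 16083304) (l 16046424))) (a (l 1) (l 281351905511))) (b (a (l 15878832) (l 15738504)) (a (l 127269649735) (l 15663312)))) (a (l 1) (b (a (l 284035780599) (l 268466260247)) (a (l 1) (l 278666625943)))))) (l 1)) (l 1)) (a (b (b (b (a (b (a (l 15581392) (l 15428568)) (a (l 15510384) (l 15362336))) (b (l 15207488) (l 15149560))) (b (a (a (l 15432776) (l 15290616)) (l 15087688)) (a (a (l 165386638279) (l 15212592)) (l 15020608)))) (a (b (a (b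 (l 269539409831) (l 1)) (b (l 15127168) (l 308730855271))) (l 1)) (b (a (b (l 15005552) (l 224442130647)) (a (l 14860400) (b (l 14863480) (b (l 14812304) (l 14795224))))) (a (b (l 376913350455) (l 1)) (b (a (b (l 14786128) (l 14769744)) (l 14814624)) (l 546564374167)))))) (l 1)) (b (b (a (b (b (l 14931336) (l 14886512)) (a (l 14879984) (b (l 14778672) (l 14824944)))) (b (a (b (l 14740936) (l 14742648)) (b (b (l 14627984) (l 14680960)) (l 14805776))) (a (b (l 14817840) (l 14971920)) (l 15089776)))) (a (b (a (b (a (l 14822264) (l 14818888)) (a (l 14824968) (l 14897776))) (l 14975536)) (a (l 177733805255) (l 15135456))) (b (a (l 15168008) (l 15388216)) (a (l 15351984) (l 15594256))))) (b (a (b (a (l 430599964887) (l 15208392)) (l 1)) (b (a (l 15448456) (l 15713064)) (a (l 15463296) (l 15748920)))) (l 1))))), by decide +kernel⟩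

theorem c_pm_202_b : CertB 1239849684 370763052 0 536870912 1020054732 13421774 3 eng mog cd1q2b cd2q0 pd2 true true false .pp 2 0 2
    ndB1q2b ndB2q0 pcB2 cut_pm_202_b Ext.none :=
  certB2 (fam := true) (s1 := true) (s2 := false) (a := 2) (b := 0) (c := 2) (cn := .pp) (n1 := ndB1q2b) (n2 := ndB2q0) (pc := pcB2) (cut := cut_pm_202_b) (xt := Ext.none) (P1 := 1239849684) (W1 := 370763052) (P2 := 0) (W2 := 536870912) (P3 := 1020054732) (W3 := 13421774) (N0 := 3) (En := eng) (mo := mog) (C1 := cd1q2b) (C2 := cd2q0) (C3 := pd2)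
    rfl (fun _ => rfl) k0_pm_202_b

noncomputable def f_pm_203_a : ℕ → ℕ → ℕ → ℕ → Bool := onCell 0 536870912 1610612736 536870912 1020054732 13421774
    (rowB 3 eng mog cd1q2a cd2q0 pd3 1 true true false .up 2 0 3 (qsf 0 536870912 0 536870912 3) ndB1q2a ndB2q0 pcB3 Cut.none Ext.none)

def k0_pm_203_a : ∃ t, chk3 f_pm_203_a t 1 1 1 = true :=
  ⟨(b (b (a (b (a (l 16481440) (b (l 16487352) (l 16430272))) (a (b (l 16443912) (l 16445960)) (l 16374400))) (a (b (a (l 16353696) (l 16230600)) (a (l 16282104) (l 16153960))) (b (a (l 16052472) (l 15786872)) (a (l 15975352) (l 2))))) (a (b (a (b (l 16463680) (l 4)) (b (l 16357720) (l 2))) (l 2)) (a (l 2) (l 2)))) (l 2)), by decide +kernel⟩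

theorem c_pm_203_a : CertB 0 536870912 0 536870912 1020054732 13421774 3 eng mog cd1q2a cd2q0 pd3 true true false .up 2 0 3
    ndB1q2a ndB2q0 pcB3 Cut.none Ext.none :=
  certB1 (fam := true) (s1 := true) (s2 := false) (a := 2) (b := 0) (c := 3) (cn := .up) (n1 := ndB1q2a) (n2 := ndB2q0) (pc := pcB3) (cut := Cut.none) (xt := Ext.none) (P1 := 0) (W1 := 536870912) (P2 := 0) (W2 := 536870912) (P3 := 1020054732) (W3 := 13421774) (N0 := 3) (En := eng) (mo := mog) (C1 := cd1q2a) (C2 := cd2q0) (C3 := pd3)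
    rfl (fun _ => rfl) k0_pm_203_a

noncomputable def f_pm_203_b : ℕ → ℕ → ℕ → ℕ → Bool := onCell 1239849684 370763052 1610612736 536870912 1020054732 13421774
    (rowB 3 eng mog cd1q2b cd2q0 pd3 1 true true false .up 2 0 3 (qsf 1239849684 370763052 0 536870912 3) ndB1q2b ndB2q0 pcB3 Cut.none Ext.none)

def k0_pm_203_b : ∃ t, chk3 f_pm_203_b t 1 1 1 = true :=
  ⟨(b (b (a (b (a (b (l 16562112) (l 16529584)) (b (l 16253328) (l 16380024))) (b (a (l 16530000) (l 16481240)) (l 4))) (b (a (b (l 15785816) (l 15939096)) (b (a (l 15409920) (l 15152176)) (l 15454688))) (a (b (l 16075536) (l 16182784)) (b (l 15612088) (l 15752376))))) (a (l 4) (b (a (l 4) (b (l 15866400) (l 4))) (l 4)))) (l 4)), by decide +kernel⟩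

theorem c_pm_203_b : CertB 1239849684 370763052 0 536870912 1020054732 13421774 3 eng mog cd1q2b cd2q0 pd3 true true false .up 2 0 3
    ndB1q2b ndB2q0 pcB3 Cut.none Ext.none :=
  certB1 (fam := true) (s1 := true) (s2 := false) (a := 2) (b := 0) (c := 3) (cn := .up) (n1 := ndB1q2b) (n2 := ndB2q0) (pc := pcB3) (cut := Cut.none) (xt := Ext.none) (P1 := 1239849684) (W1 := 370763052) (P2 := 0) (W2 := 536870912) (P3 := 1020054732) (W3 := 13421774) (N0 := 3) (En := eng) (mo := mog) (C1 := cd1q2b) (C2 := cd2q0) (C3 := pd3)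
    rfl (fun _ => rfl) k0_pm_203_b

noncomputable def f_pm_213_a : ℕ → ℕ → ℕ → ℕ → Bool := onCell 0 536870912 1610612736 536870912 1020054732 13421774
    (rowB 3 eng mog cd1q2a cd2q1 pd3 1 true true false .pnn 2 1 3 (qsf 0 536870912 536870912 536870912 3) ndB1q2a ndB2q1 pcB3 Cut.none Ext.none)

def k0_pm_213_a : ∃ t, chk3 f_pm_213_a t 1 1 1 = true :=
  ⟨(a (b (b (b (l 1) (a (l 1) (c (l 15987064) (l 16211552)))) (b (a (b (l 16088840) (l 4)) (b (l 16095280) (l 16050904))) (a (l 4) (b (l 16079896) (l 4))))) (l 4)) (b (b (a (b (l 1) (a (b (l 1) (l 16018120)) (c (l 15762696) (l 16017192)))) (c (a (b (l 15545568) (l 15567360)) (b (l 15278632) (l 15291216))) (b (a (l 15860816) (l 15631808)) (a (l 15846776) (l 15603312))))) (b (a (a (l 15964800) (a (l 15963856) (l 15767848))) (a (c (l 15628936) (l 15860920)) (c (l 15347000) (l 15604104)))) (a (b (l 15891160) (l 15853640)) (a (c (l 15716552) (l 15891632)) (c (b (l 15410960) (l 15462776)) (b (l 15619960) (l 15637320)))))))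 (b (b (b (a (a (l 4) (l 16065752)) (a (l 15866240) (l 15583736))) (a (l 4) (a (l 15924952) (l 15630248)))) (a (l 4) (a (l 4) (b (l 15484672) (a (l 4) (l 15684384)))))) (l 4)))), by decide +kernel⟩

theorem c_pm_213_a : CertB 0 536870912 536870912 536870912 1020054732 13421774 3 eng mog cd1q2a cd2q1 pd3 true true false .pnn 2 1 3
    ndB1q2a ndB2q1 pcB3 Cut.none Ext.none :=
  certB1 (fam := true) (s1 := true) (s2 := false) (a := 2) (b := 1) (c := 3) (cn := .pnn) (n1 := ndB1q2a) (n2 := ndB2q1) (pc := pcB3) (cut := Cut.none) (xt := Ext.none) (P1 := 0) (W1 := 536870912) (P2 := 536870912) (W2 := 536870912) (P3 := 1020054732) (W3 := 13421774) (N0 := 3) (En := eng) (mo := mog) (C1 := cd1q2a) (C2 := cd2q1) (C3 := pd3)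
    rfl (fun _ => rfl) k0_pm_213_a

noncomputable def f_pm_213_b : ℕ → ℕ → ℕ → ℕ → Bool := onCell 1239849684 370763052 536870912 536870912 1020054732 13421774
    (rowB 3 eng mog cd1q2b cd2q1 pd3 0 true true false .pnn 2 1 3 (qsf 1239849684 370763052 536870912 536870912 3) ndB1q2b ndB2q1 pcB3 Cut.none Ext.none)

def k0_pm_213_b : ∃ t, chk3 f_pm_213_b t 1 1 1 = true :=
  ⟨(l 4), by decide +kernel⟩

theorem c_pm_213_b : CertB 1239849684 370763052 536870912 536870912 1020054732 13421774 3 eng mog cd1q2b cd2q1 pd3 true true false .pnn 2 1 3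
    ndB1q2b ndB2q1 pcB3 Cut.none Ext.none :=
  certB0 (fam := true) (s1 := true) (s2 := false) (a := 2) (b := 1) (c := 3) (cn := .pnn) (n1 := ndB1q2b) (n2 := ndB2q1) (pc := pcB3) (cut := Cut.none) (xt := Ext.none) (P1 := 1239849684) (W1 := 370763052) (P2 := 536870912) (W2 := 536870912) (P3 := 1020054732) (W3 := 13421774) (N0 := 3) (En := eng) (mo := mog) (C1 := cd1q2b) (C2 := cd2q1) (C3 := pd3)
    rfl k0_pm_213_b

noncomputable def f_pm_303 : ℕ → ℕ → ℕ → ℕ → Bool := onCell 1610612736 536870912 0 536870912 1020054732 13421774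
    (rowB 3 eng mog cd1q3 cd2q0 pd3 2 true true false .npn 3 0 3 (qsf 1610612736 536870912 0 536870912 3) ndB1q3 ndB2q0 pcB3 Cut.none Ext.none)

def k0_pm_303 : ∃ t, chk3 f_pm_303 t 1 1 1 = true :=
  ⟨(a (b (a (b (a (b (a (b (l 14821240) (l 15019632)) (l 14872760)) (a (l 1) (l 15321504))) (b (a (l 14943176) (l 14947376)) (a (l 15319144) (l 15314624)))) (a (l 1) (b (l 352755062791) (l 1)))) (a (b (b (a (l 14949840) (l 14944024)) (a (l 15301968) (l 4))) (b (a (l 15651576) (l 4)) (l 4))) (l 4))) (a (l 1) (l 4))) (l 4)), by decide +kernel⟩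

theorem c_pm_303 : CertB 1610612736 536870912 0 536870912 1020054732 13421774 3 eng mog cd1q3 cd2q0 pd3 true true false .npn 3 0 3
    ndB1q3 ndB2q0 pcB3 Cut.none Ext.none :=
  certB2 (fam := true) (s1 := true) (s2 := false) (a := 3) (b := 0) (c := 3) (cn := .npn) (n1 := ndB1q3) (n2 := ndB2q0) (pc := pcB3) (cut := Cut.none) (xt := Ext.none) (P1 := 1610612736) (W1 := 536870912) (P2 := 0) (W2 := 536870912) (P3 := 1020054732) (W3 := 13421774) (N0 := 3) (En := eng) (mo := mog) (C1 := cd1q3) (C2 := cd2q0) (C3 := pd3)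
    rfl (fun _ => rfl) k0_pm_303

noncomputable def f_pm_313 : ℕ → ℕ → ℕ → ℕ → Bool := onCell 1610612736 536870912 536870912 536870912 1020054732 13421774
    (rowB 3 eng mog cd1q3 cd2q1 pd3 0 true true false .dn 3 1 3 (qsf 1610612736 536870912 536870912 536870912 3) ndB1q3 ndB2q1 pcB3 Cut.none Ext.none)

def k0_pm_313 : ∃ t, chk3 f_pm_313 t 1 1 1 = true :=
  ⟨(l 4), by decide +kernel⟩

theorem c_pm_313 : CertB 1610612736 536870912 536870912 536870912 1020054732 13421774 3 eng mog cd1q3 cd2q1 pd3 true true false .dn 3 1 3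
    ndB1q3 ndB2q1 pcB3 Cut.none Ext.none :=
  certB0 (fam := true) (s1 := true) (s2 := false) (a := 3) (b := 1) (c := 3) (cn := .dn) (n1 := ndB1q3) (n2 := ndB2q1) (pc := pcB3) (cut := Cut.none) (xt := Ext.none) (P1 := 1610612736) (W1 := 536870912) (P2 := 536870912) (W2 := 536870912) (P3 := 1020054732) (W3 := 13421774) (N0 := 3) (En := eng) (mo := mog) (C1 := cd1q3) (C2 := cd2q1) (C3 := pd3)
    rfl k0_pm_313

noncomputable def f_mm_001 : ℕ → ℕ → ℕ → ℕ → Bool := onCell 0 536870912 0 536870912 1020054732 13421774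
    (rowB 3 eng mog cd1q0 cd2q0 pd1 0 true false false .up 0 0 1 (qsf 0 536870912 0 536870912 1) ndB1q0 ndB2q0 pcB1 Cut.none Ext.none)

def k0_mm_001 : ∃ t, chk3 f_mm_001 t 1 1 1 = true :=
  ⟨(l 4), by decide +kernel⟩

theorem c_mm_001 : CertB 0 536870912 0 536870912 1020054732 13421774 3 eng mog cd1q0 cd2q0 pd1 true false false .up 0 0 1
    ndB1q0 ndB2q0 pcB1 Cut.none Ext.none :=
  certB0 (fam := true) (s1 := false) (s2 := false) (a := 0) (b := 0) (c := 1) (cn := .up) (n1 := ndB1q0) (n2 := ndB2q0) (pc := pcB1) (cut := Cut.none) (xt := Ext.none) (P1 := 0) (W1 := 536870912) (P2 := 0) (W2 := 536870912) (P3 := 1020054732) (W3 := 13421774) (N0 := 3) (En := eng) (mo := mog) (C1 := cd1q0) (C2 := cd2q0) (C3 := pd1)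
    rfl k0_mm_001

noncomputable def f_mm_011 : ℕ → ℕ → ℕ → ℕ → Bool := onCell 0 536870912 536870912 536870912 1020054732 13421774
    (rowB 3 eng mog cd1q0 cd2q1 pd1 0 true false false .pnn 0 1 1 (qsf 0 536870912 536870912 536870912 1) ndB1q0 ndB2q1 pcB1 Cut.none Ext.none)

def k0_mm_011 : ∃ t, chk3 f_mm_011 t 1 1 1 = true :=
  ⟨(l 4), by decide +kernel⟩

theorem c_mm_011 : CertB 0 536870912 536870912 536870912 1020054732 13421774 3 eng mog cd1q0 cd2q1 pd1 true false false .pnn 0 1 1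
    ndB1q0 ndB2q1 pcB1 Cut.none Ext.none :=
  certB0 (fam := true) (s1 := false) (s2 := false) (a := 0) (b := 1) (c := 1) (cn := .pnn) (n1 := ndB1q0) (n2 := ndB2q1) (pc := pcB1) (cut := Cut.none) (xt := Ext.none) (P1 := 0) (W1 := 536870912) (P2 := 536870912) (W2 := 536870912) (P3 := 1020054732) (W3 := 13421774) (N0 := 3) (En := eng) (mo := mog) (C1 := cd1q0) (C2 := cd2q1) (C3 := pd1)
    rfl k0_mm_011

noncomputable def f_mm_012 : ℕ → ℕ → ℕ → ℕ → Bool := onCell 0 536870912 536870912 536870912 1020054732 13421774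
    (rowB 3 eng mog cd1q0 cd2q1 pd2 0 true false false .pnp 0 1 2 (qsf 0 536870912 536870912 536870912 2) ndB1q0 ndB2q1 pcB2 Cut.none Ext.none)

def k0_mm_012 : ∃ t, chk3 f_mm_012 t 1 1 1 = true :=
  ⟨(l 4), by decide +kernel⟩

theorem c_mm_012 : CertB 0 536870912 536870912 536870912 1020054732 13421774 3 eng mog cd1q0 cd2q1 pd2 true false false .pnp 0 1 2
    ndB1q0 ndB2q1 pcB2 Cut.none Ext.none :=
  certB0 (fam := true) (s1 := false) (s2 := false) (a := 0) (b := 1) (c := 2) (cn := .pnp) (n1 := ndB1q0) (n2 := ndB2q1) (pc := pcB2) (cut := Cut.none) (xt := Ext.none) (P1 := 0) (W1 := 536870912) (P2 := 536870912) (W2 := 536870912) (P3 := 1020054732) (W3 := 13421774) (N0 := 3) (En := eng) (mo := mog) (C1 := cd1q0) (C2 := cd2q1) (C3 := pd2)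
    rfl k0_mm_012

noncomputable def f_mm_022_a : ℕ → ℕ → ℕ → ℕ → Bool := onCell 0 536870912 0 536870912 1020054732 13421774
    (rowB 3 eng mog cd1q0 cd2q2a pd2 0 true false false .pp 0 2 2 (qsf 0 536870912 0 536870912 2) ndB1q0 ndB2q2a pcB2 Cut.none Ext.none)

def k0_mm_022_a : ∃ t, chk3 f_mm_022_a t 1 1 1 = true :=
  ⟨(l 5), by decide +kernel⟩

theorem c_mm_022_a : CertB 0 536870912 0 536870912 1020054732 13421774 3 eng mog cd1q0 cd2q2a pd2 true false false .pp 0 2 2
    ndB1q0 ndB2q2a pcB2 Cut.none Ext.none :=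
  certB0 (fam := true) (s1 := false) (s2 := false) (a := 0) (b := 2) (c := 2) (cn := .pp) (n1 := ndB1q0) (n2 := ndB2q2a) (pc := pcB2) (cut := Cut.none) (xt := Ext.none) (P1 := 0) (W1 := 536870912) (P2 := 0) (W2 := 536870912) (P3 := 1020054732) (W3 := 13421774) (N0 := 3) (En := eng) (mo := mog) (C1 := cd1q0) (C2 := cd2q2a) (C3 := pd2)
    rfl k0_mm_022_a

noncomputable def f_mm_022_b : ℕ → ℕ → ℕ → ℕ → Bool := onCell 0 536870912 1239849684 370763052 1020054732 13421774
    (rowB 3 eng mog cd1q0 cd2q2b pd2 0 true false false .pp 0 2 2 (qsf 0 536870912 1239849684 370763052 2) ndB1q0 ndB2q2b pcB2 Cut.none Ext.none)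

def k0_mm_022_b : ∃ t, chk3 f_mm_022_b t 1 1 1 = true :=
  ⟨(l 5), by decide +kernel⟩

theorem c_mm_022_b : CertB 0 536870912 1239849684 370763052 1020054732 13421774 3 eng mog cd1q0 cd2q2b pd2 true false false .pp 0 2 2
    ndB1q0 ndB2q2b pcB2 Cut.none Ext.none :=
  certB0 (fam := true) (s1 := false) (s2 := false) (a := 0) (b := 2) (c := 2) (cn := .pp) (n1 := ndB1q0) (n2 := ndB2q2b) (pc := pcB2) (cut := Cut.none) (xt := Ext.none) (P1 := 0) (W1 := 536870912) (P2 := 1239849684) (W2 := 370763052) (P3 := 1020054732) (W3 := 13421774) (N0 := 3) (En := eng) (mo := mog) (C1 := cd1q0) (C2 := cd2q2b) (C3 := pd2)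
    rfl k0_mm_022_b

noncomputable def f_mm_023_a : ℕ → ℕ → ℕ → ℕ → Bool := onCell 0 536870912 0 536870912 1020054732 13421774
    (rowB 3 eng mog cd1q0 cd2q2a pd3 0 true false false .up 0 2 3 (qsf 0 536870912 0 536870912 3) ndB1q0 ndB2q2a pcB3 Cut.none Ext.none)

def k0_mm_023_a : ∃ t, chk3 f_mm_023_a t 1 1 1 = true :=
  ⟨(l 5), by decide +kernel⟩

theorem c_mm_023_a : CertB 0 536870912 0 536870912 1020054732 13421774 3 eng mog cd1q0 cd2q2a pd3 true false false .up 0 2 3
    ndB1q0 ndB2q2a pcB3 Cut.none Ext.none :=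
  certB0 (fam := true) (s1 := false) (s2 := false) (a := 0) (b := 2) (c := 3) (cn := .up) (n1 := ndB1q0) (n2 := ndB2q2a) (pc := pcB3) (cut := Cut.none) (xt := Ext.none) (P1 := 0) (W1 := 536870912) (P2 := 0) (W2 := 536870912) (P3 := 1020054732) (W3 := 13421774) (N0 := 3) (En := eng) (mo := mog) (C1 := cd1q0) (C2 := cd2q2a) (C3 := pd3)
    rfl k0_mm_023_a

noncomputable def f_mm_023_b : ℕ → ℕ → ℕ → ℕ → Bool := onCell 0 536870912 1239849684 370763052 1020054732 13421774
    (rowB 3 eng mog cd1q0 cd2q2b pd3 0 true false false .up 0 2 3 (qsf 0 536870912 1239849684 370763052 3) ndB1q0 ndB2q2b pcB3 Cut.none Ext.none)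

def k0_mm_023_b : ∃ t, chk3 f_mm_023_b t 1 1 1 = true :=
  ⟨(l 5), by decide +kernel⟩

theorem c_mm_023_b : CertB 0 536870912 1239849684 370763052 1020054732 13421774 3 eng mog cd1q0 cd2q2b pd3 true false false .up 0 2 3
    ndB1q0 ndB2q2b pcB3 Cut.none Ext.none :=
  certB0 (fam := true) (s1 := false) (s2 := false) (a := 0) (b := 2) (c := 3) (cn := .up) (n1 := ndB1q0) (n2 := ndB2q2b) (pc := pcB3) (cut := Cut.none) (xt := Ext.none) (P1 := 0) (W1 := 536870912) (P2 := 1239849684) (W2 := 370763052) (P3 := 1020054732) (W3 := 13421774) (N0 := 3) (En := eng) (mo := mog) (C1 := cd1q0) (C2 := cd2q2b) (C3 := pd3)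
    rfl k0_mm_023_b

noncomputable def f_mm_033 : ℕ → ℕ → ℕ → ℕ → Bool := onCell 0 536870912 1610612736 536870912 1020054732 13421774
    (rowB 3 eng mog cd1q0 cd2q3 pd3 0 true false false .pnn 0 3 3 (qsf 0 536870912 1610612736 536870912 3) ndB1q0 ndB2q3 pcB3 Cut.none Ext.none)

def k0_mm_033 : ∃ t, chk3 f_mm_033 t 1 1 1 = true :=
  ⟨(l 5), by decide +kernel⟩

theorem c_mm_033 : CertB 0 536870912 1610612736 536870912 1020054732 13421774 3 eng mog cd1q0 cd2q3 pd3 true false false .pnn 0 3 3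
    ndB1q0 ndB2q3 pcB3 Cut.none Ext.none :=
  certB0 (fam := true) (s1 := false) (s2 := false) (a := 0) (b := 3) (c := 3) (cn := .pnn) (n1 := ndB1q0) (n2 := ndB2q3) (pc := pcB3) (cut := Cut.none) (xt := Ext.none) (P1 := 0) (W1 := 536870912) (P2 := 1610612736) (W2 := 536870912) (P3 := 1020054732) (W3 := 13421774) (N0 := 3) (En := eng) (mo := mog) (C1 := cd1q0) (C2 := cd2q3) (C3 := pd3)
    rfl k0_mm_033

noncomputable def f_mm_101 : ℕ → ℕ → ℕ → ℕ → Bool := onCell 536870912 536870912 0 536870912 1020054732 13421774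
    (rowB 3 eng mog cd1q1 cd2q0 pd1 0 true false false .npn 1 0 1 (qsf 536870912 536870912 0 536870912 1) ndB1q1 ndB2q0 pcB1 Cut.none Ext.none)

def k0_mm_101 : ∃ t, chk3 f_mm_101 t 1 1 1 = true :=
  ⟨(l 4), by decide +kernel⟩

theorem c_mm_101 : CertB 536870912 536870912 0 536870912 1020054732 13421774 3 eng mog cd1q1 cd2q0 pd1 true false false .npn 1 0 1
    ndB1q1 ndB2q0 pcB1 Cut.none Ext.none :=
  certB0 (fam := true) (s1 := false) (s2 := false) (a := 1) (b := 0) (c := 1) (cn := .npn) (n1 := ndB1q1) (n2 := ndB2q0) (pc := pcB1) (cut := Cut.none) (xt := Ext.none) (P1 := 536870912) (W1 := 536870912) (P2 := 0) (W2 := 536870912) (P3 := 1020054732) (W3 := 13421774) (N0 := 3) (En := eng) (mo := mog) (C1 := cd1q1) (C2 := cd2q0) (C3 := pd1)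
    rfl k0_mm_101

noncomputable def f_mm_102 : ℕ → ℕ → ℕ → ℕ → Bool := onCell 536870912 536870912 0 536870912 1020054732 13421774
    (rowB 3 eng mog cd1q1 cd2q0 pd2 0 true false false .npp 1 0 2 (qsf 536870912 536870912 0 536870912 2) ndB1q1 ndB2q0 pcB2 Cut.none Ext.none)

def k0_mm_102 : ∃ t, chk3 f_mm_102 t 1 1 1 = true :=
  ⟨(l 4), by decide +kernel⟩

theorem c_mm_102 : CertB 536870912 536870912 0 536870912 1020054732 13421774 3 eng mog cd1q1 cd2q0 pd2 true false false .npp 1 0 2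
    ndB1q1 ndB2q0 pcB2 Cut.none Ext.none :=
  certB0 (fam := true) (s1 := false) (s2 := false) (a := 1) (b := 0) (c := 2) (cn := .npp) (n1 := ndB1q1) (n2 := ndB2q0) (pc := pcB2) (cut := Cut.none) (xt := Ext.none) (P1 := 536870912) (W1 := 536870912) (P2 := 0) (W2 := 536870912) (P3 := 1020054732) (W3 := 13421774) (N0 := 3) (En := eng) (mo := mog) (C1 := cd1q1) (C2 := cd2q0) (C3 := pd2)
    rfl k0_mm_102

noncomputable def f_mm_112 : ℕ → ℕ → ℕ → ℕ → Bool := onCell 536870912 536870912 536870912 536870912 1020054732 13421774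
    (rowB 3 eng mog cd1q1 cd2q1 pd2 0 true false false .dn 1 1 2 (qsf 536870912 536870912 536870912 536870912 2) ndB1q1 ndB2q1 pcB2 Cut.none Ext.none)

def k0_mm_112 : ∃ t, chk3 f_mm_112 t 1 1 1 = true :=
  ⟨(l 4), by decide +kernel⟩

theorem c_mm_112 : CertB 536870912 536870912 536870912 536870912 1020054732 13421774 3 eng mog cd1q1 cd2q1 pd2 true false false .dn 1 1 2
    ndB1q1 ndB2q1 pcB2 Cut.none Ext.none :=
  certB0 (fam := true) (s1 := false) (s2 := false) (a := 1) (b := 1) (c := 2) (cn := .dn) (n1 := ndB1q1) (n2 := ndB2q1) (pc := pcB2) (cut := Cut.none) (xt := Ext.none) (P1 := 536870912) (W1 := 536870912) (P2 := 536870912) (W2 := 536870912) (P3 := 1020054732) (W3 := 13421774) (N0 := 3) (En := eng) (mo := mog) (C1 := cd1q1) (C2 := cd2q1) (C3 := pd2)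
    rfl k0_mm_112

noncomputable def f_mm_113 : ℕ → ℕ → ℕ → ℕ → Bool := onCell 536870912 536870912 536870912 536870912 1020054732 13421774
    (rowB 3 eng mog cd1q1 cd2q1 pd3 0 true false false .nn 1 1 3 (qsf 536870912 536870912 536870912 536870912 3) ndB1q1 ndB2q1 pcB3 Cut.none Ext.none)

def k0_mm_113 : ∃ t, chk3 f_mm_113 t 1 1 1 = true :=
  ⟨(l 4), by decide +kernel⟩

theorem c_mm_113 : CertB 536870912 536870912 536870912 536870912 1020054732 13421774 3 eng mog cd1q1 cd2q1 pd3 true false false .nn 1 1 3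
    ndB1q1 ndB2q1 pcB3 Cut.none Ext.none :=
  certB0 (fam := true) (s1 := false) (s2 := false) (a := 1) (b := 1) (c := 3) (cn := .nn) (n1 := ndB1q1) (n2 := ndB2q1) (pc := pcB3) (cut := Cut.none) (xt := Ext.none) (P1 := 536870912) (W1 := 536870912) (P2 := 536870912) (W2 := 536870912) (P3 := 1020054732) (W3 := 13421774) (N0 := 3) (En := eng) (mo := mog) (C1 := cd1q1) (C2 := cd2q1) (C3 := pd3)
    rfl k0_mm_113

noncomputable def f_mm_123_a : ℕ → ℕ → ℕ → ℕ → Bool := onCell 536870912 536870912 0 536870912 1020054732 13421774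
    (rowB 3 eng mog cd1q1 cd2q2a pd3 0 true false false .npn 1 2 3 (qsf 536870912 536870912 0 536870912 3) ndB1q1 ndB2q2a pcB3 Cut.none Ext.none)

def k0_mm_123_a : ∃ t, chk3 f_mm_123_a t 1 1 1 = true :=
  ⟨(l 4), by decide +kernel⟩

theorem c_mm_123_a : CertB 536870912 536870912 0 536870912 1020054732 13421774 3 eng mog cd1q1 cd2q2a pd3 true false false .npn 1 2 3
    ndB1q1 ndB2q2a pcB3 Cut.none Ext.none :=
  certB0 (fam := true) (s1 := false) (s2 := false) (a := 1) (b := 2) (c := 3) (cn := .npn) (n1 := ndB1q1) (n2 := ndB2q2a) (pc := pcB3) (cut := Cut.none) (xt := Ext.none) (P1 := 536870912) (W1 := 536870912) (P2 := 0) (W2 := 536870912) (P3 := 1020054732) (W3 := 13421774) (N0 := 3) (En := eng) (mo := mog) (C1 := cd1q1) (C2 := cd2q2a) (C3 := pd3)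
    rfl k0_mm_123_a

noncomputable def f_mm_123_b : ℕ → ℕ → ℕ → ℕ → Bool := onCell 536870912 536870912 1239849684 370763052 1020054732 13421774
    (rowB 3 eng mog cd1q1 cd2q2b pd3 0 true false false .npn 1 2 3 (qsf 536870912 536870912 1239849684 370763052 3) ndB1q1 ndB2q2b pcB3 Cut.none Ext.none)

def k0_mm_123_b : ∃ t, chk3 f_mm_123_b t 1 1 1 = true :=
  ⟨(l 4), by decide +kernel⟩

theorem c_mm_123_b : CertB 536870912 536870912 1239849684 370763052 1020054732 13421774 3 eng mog cd1q1 cd2q2b pd3 true false false .npn 1 2 3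
    ndB1q1 ndB2q2b pcB3 Cut.none Ext.none :=
  certB0 (fam := true) (s1 := false) (s2 := false) (a := 1) (b := 2) (c := 3) (cn := .npn) (n1 := ndB1q1) (n2 := ndB2q2b) (pc := pcB3) (cut := Cut.none) (xt := Ext.none) (P1 := 536870912) (W1 := 536870912) (P2 := 1239849684) (W2 := 370763052) (P3 := 1020054732) (W3 := 13421774) (N0 := 3) (En := eng) (mo := mog) (C1 := cd1q1) (C2 := cd2q2b) (C3 := pd3)
    rfl k0_mm_123_b

noncomputable def f_mm_133 : ℕ → ℕ → ℕ → ℕ → Bool := onCell 536870912 536870912 1610612736 536870912 1020054732 13421774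
    (rowB 3 eng mog cd1q1 cd2q3 pd3 0 true false false .dn 1 3 3 (qsf 536870912 536870912 1610612736 536870912 3) ndB1q1 ndB2q3 pcB3 Cut.none Ext.none)

def k0_mm_133 : ∃ t, chk3 f_mm_133 t 1 1 1 = true :=
  ⟨(l 4), by decide +kernel⟩

theorem c_mm_133 : CertB 536870912 536870912 1610612736 536870912 1020054732 13421774 3 eng mog cd1q1 cd2q3 pd3 true false false .dn 1 3 3
    ndB1q1 ndB2q3 pcB3 Cut.none Ext.none :=
  certB0 (fam := true) (s1 := false) (s2 := false) (a := 1) (b := 3) (c := 3) (cn := .dn) (n1 := ndB1q1) (n2 := ndB2q3) (pc := pcB3) (cut := Cut.none) (xt := Ext.none) (P1 := 536870912) (W1 := 536870912) (P2 := 1610612736) (W2 := 536870912) (P3 := 1020054732) (W3 := 13421774) (N0 := 3) (En := eng) (mo := mog) (C1 := cd1q1) (C2 := cd2q3) (C3 := pd3)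
    rfl k0_mm_133

noncomputable def cut_mm_202_a : Cut := Cut.of [[⟨0, 1, 0, 38347922⟩, ⟨1, 0, 0, 38347922⟩, ⟨2, 1, 0, 38347922⟩]]

noncomputable def f_mm_202_a : ℕ → ℕ → ℕ → ℕ → Bool := onCell 0 536870912 0 536870912 1020054732 13421774
    (rowB 3 eng mog cd1q2a cd2q0 pd2 0 true false false .pp 2 0 2 (qsf 0 536870912 0 536870912 2) ndB1q2a ndB2q0 pcB2 cut_mm_202_a Ext.none)

def k0_mm_202_a : ∃ t, chk3 f_mm_202_a t 2 4 1 = true :=
  ⟨(b (a (b (a (b (a (l 15777840) (b (l 15802936) (l 15770752))) (a (b (l 15689000) (l 15651176)) (l 15750040))) (b (l 15915824) (l 15898624))) (a (b (l 15686008) (l 15687792)) (b (l 15898360) (l 15916376)))) (b (a (b (a (l 16054464) (l 16147808)) (l 16077080)) (b (a (l 16239568) (l 16328440)) (a (l 16242864) (l 16335336)))) (a (b (l 16110304) (l 16140376)) (b (l 16122544) (l 16223728))))) (a (b (a (b (l 15707280) (l 15743248)) (b (l 15951344) (l 16002016))) (a (b (l 15794520) (l 15859936)) (b (l 16067168) (l 16145624)))) (b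 (a (b (l 16165920) (l 16206592)) (a (b (l 16352152) (l 16420104)) (l 16278328))) (a (b (l 16240152) (l 16328240)) (b (a (l 16501544) (l 16601464)) (a (l 16586496) (l 16579504))))))), by decide +kernel⟩

def k1_mm_202_a : ∃ t, chk3 f_mm_202_a t 3 4 1 = true :=
  ⟨(a (b (b (a (b (a (b (l 16412912) (l 16414336)) (b (l 16470096) (l 16493400))) (a (l 16422592) (l 16440152))) (b (a (b (a (l 16545040) (l 16578880)) (l 16543984)) (b (a (l 16610056) (l 16590920)) (a (l 16613112) (l 16621616)))) (a (b (l 16571224) (l 16580896)) (b (l 16606976) (l 16631968))))) (a (b (a (l 16448048) (l 16530560)) (a (l 16490864) (l 16575464))) (b (a (l 16562208) (b (l 16631184) (l 16625920))) (a (l 16595016) (a (l 16613840) (l 16621216)))))) (b (a (b (a (l 16549832) (l 16606432)) (a (l 16601200) (l 16587312))) (a (b (l 86133683239) (l 4)) (l 4))) (a (a (b (l 16580536) (l 4)) (l 4)) (l 4)))) (b (a (b (b (a (b (a (b (l 16614816) (l 16620680)) (b (l 16605040) (l 16611032))) (a (l 16627584)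 (l 16596632))) (b (a (b (b (l 16618784) (l 16622584)) (l 16627576)) (b (a (l 16655936) (l 16645496)) (l 16627392))) (a (b (l 16632744) (l 16636280)) (a (l 16651000) (l 16663208))))) (a (b (a (l 16634400) (l 16645600)) (a (l 16639136) (l 16649880))) (a (b (l 16662384) (l 16666456)) (b (b (l 16683992) (l 16687056)) (l 16633528))))) (b (a (b (l 16623440) (l 16579064)) (a (b (l 16664816) (l 4)) (l 4))) (l 4))) (b (a (b (b (a (b (a (l 16656848) (a (l 16686832) (l 6))) (a (l 16666144) (l 16679080))) (b (l 6) (a (l 16692824) (l 6)))) (a (b (a (l 16673568) (l 16708272)) (l 16665384)) (b (a (l 16722840) (l 16716976)) (a (l 16728976) (l 16719616))))) (b (a (b (l 16674312) (l 16690336)) (a (l 16696240) (l 4))) (l 4))) (b (a (l 6) (l 6)) (l 4))) (l 4))) (l 4))), by decide +kernel⟩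

def k2_mm_202_a : ∃ t, chk3 f_mm_202_a t 1 5 1 = true :=
  ⟨(a (b (a (b (a (b (l 15938416) (l 16028848)) (a (l 16212000) (l 16253480))) (a (l 16016456) (b (l 16360664) (l 16424448)))) (b (a (b (l 16337040) (a (l 16545472) (l 16593992))) (b (l 66269377639) (l 4))) (a (b (l 16589368) (l 4)) (l 4)))) (a (b (a (b (l 16360296) (l 16420992)) (b (l 16584216) (l 4))) (a (b (l 16534936) (l 16573904)) (l 4))) (l 4))) (l 4)), by decide +kernel⟩

def k3_mm_202_a : ∃ t, chk3 f_mm_202_a t 1 3 1 = true :=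
  ⟨(a (b (l 4) (l 4)) (l 4)), by decide +kernel⟩

theorem s4_mm_202_a : ∃ t, chk3 f_mm_202_a t 1 4 1 = true := ex3_a k0_mm_202_a k1_mm_202_a

theorem s5_mm_202_a : ∃ t, chk3 f_mm_202_a t 1 2 1 = true := ex3_b s4_mm_202_a k2_mm_202_a

theorem s6_mm_202_a : ∃ t, chk3 f_mm_202_a t 1 1 1 = true := ex3_b s5_mm_202_a k3_mm_202_a

theorem c_mm_202_a : CertB 0 536870912 0 536870912 1020054732 13421774 3 eng mog cd1q2a cd2q0 pd2 true false false .pp 2 0 2
    ndB1q2a ndB2q0 pcB2 cut_mm_202_a Ext.none :=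
  certB0 (fam := true) (s1 := false) (s2 := false) (a := 2) (b := 0) (c := 2) (cn := .pp) (n1 := ndB1q2a) (n2 := ndB2q0) (pc := pcB2) (cut := cut_mm_202_a) (xt := Ext.none) (P1 := 0) (W1 := 536870912) (P2 := 0) (W2 := 536870912) (P3 := 1020054732) (W3 := 13421774) (N0 := 3) (En := eng) (mo := mog) (C1 := cd1q2a) (C2 := cd2q0) (C3 := pd2)
    rfl s6_mm_202_a

noncomputable def cut_mm_202_b : Cut := Cut.of [[⟨0, 1, 0, 38347922⟩, ⟨1, 0, 0, 38347922⟩, ⟨2, 1, 0, 38347922⟩]]

noncomputable def f_mm_202_b : ℕ → ℕ → ℕ → ℕ → Bool := onCell 1073741824 536870912 0 536870912 1020054732 13421774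
    (rowB 3 eng mog cd1q2b cd2q0 pd2 2 true false false .pp 2 0 2 (qsf 1239849684 370763052 0 536870912 2) ndB1q2b ndB2q0 pcB2 cut_mm_202_b Ext.none)

def k0_mm_202_b : ∃ t, chk3 f_mm_202_b t 1 1 1 = true :=
  ⟨(a (a (l 1) (b (b (a (b (b (a (b (l 15820032) (l 1)) (b (l 15721272) (l 15785056))) (a (l 1) (b (a (l 1) (l 15647720)) (l 1)))) (l 1)) (b (b (a (b (l 15491400) (a (l 15518280) (l 15458464))) (b (a (l 15324112) (l 15281368)) (l 15381984))) (a (a (l 15598968) (l 15543384)) (l 15481072))) (a (b (l 267929968663) (l 1)) (b (l 133175202391) (l 335575692487))))) (l 1)) (l 1))) (a (b (b (a (b (b (a (l 15273912) (l 15246600)) (a (l 15435312) (l 15429896))) (a (b (l 15570576) (l 15682584)) (b (l 15586104) (l 15718184)))) (b (a (b (l 15258552) (l 15461736)) (l 15289568)) (a (b (l 15637104) (l 15787648)) (l 15803176)))) (a (b (a (b (l 373693500647) (l 1)) (b (l 15827528) (l 15789176))) (l 1)) (b (a (l 176125091063) (l 16091480)) (a (l 461203879527) (l 16081072)))))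 (l 1)) (b (b (a (b (a (l 15397880) (l 15469296)) (a (l 15920728) (l 16059048))) (b (a (l 15602704) (l 15837768)) (a (l 16064800) (l 15844160)))) (a (a (b (l 16238136) (l 197064028679)) (b (l 16374072) (l 16504896))) (b (a (l 16182248) (l 4)) (l 4)))) (a (b (b (a (l 446172264183) (l 4)) (l 1)) (l 1)) (l 4))))), by decide +kernel⟩

theorem c_mm_202_b : CertB 1239849684 370763052 0 536870912 1020054732 13421774 3 eng mog cd1q2b cd2q0 pd2 true false false .pp 2 0 2
    ndB1q2b ndB2q0 pcB2 cut_mm_202_b Ext.none :=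
  certB2 (fam := true) (s1 := false) (s2 := false) (a := 2) (b := 0) (c := 2) (cn := .pp) (n1 := ndB1q2b) (n2 := ndB2q0) (pc := pcB2) (cut := cut_mm_202_b) (xt := Ext.none) (P1 := 1239849684) (W1 := 370763052) (P2 := 0) (W2 := 536870912) (P3 := 1020054732) (W3 := 13421774) (N0 := 3) (En := eng) (mo := mog) (C1 := cd1q2b) (C2 := cd2q0) (C3 := pd2)
    rfl (fun _ => rfl) k0_mm_202_b

noncomputable def f_mm_203_a : ℕ → ℕ → ℕ → ℕ → Bool := onCell 0 536870912 1610612736 536870912 1020054732 13421774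
    (rowB 3 eng mog cd1q2a cd2q0 pd3 1 true false false .up 2 0 3 (qsf 0 536870912 0 536870912 3) ndB1q2a ndB2q0 pcB3 Cut.none Ext.none)

def k0_mm_203_a : ∃ t, chk3 f_mm_203_a t 1 1 1 = true :=
  ⟨(l 4), by decide +kernel⟩

theorem c_mm_203_a : CertB 0 536870912 0 536870912 1020054732 13421774 3 eng mog cd1q2a cd2q0 pd3 true false false .up 2 0 3
    ndB1q2a ndB2q0 pcB3 Cut.none Ext.none :=
  certB1 (fam := true) (s1 := false) (s2 := false) (a := 2) (b := 0) (c := 3) (cn := .up) (n1 := ndB1q2a) (n2 := ndB2q0) (pc := pcB3) (cut := Cut.none) (xt := Ext.none) (P1 := 0) (W1 := 536870912) (P2 := 0) (W2 := 536870912) (P3 := 1020054732) (W3 := 13421774) (N0 := 3) (En := eng) (mo := mog) (C1 := cd1q2a) (C2 := cd2q0) (C3 := pd3)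
    rfl (fun _ => rfl) k0_mm_203_a

noncomputable def f_mm_203_b : ℕ → ℕ → ℕ → ℕ → Bool := onCell 1239849684 370763052 1610612736 536870912 1020054732 13421774
    (rowB 3 eng mog cd1q2b cd2q0 pd3 1 true false false .up 2 0 3 (qsf 1239849684 370763052 0 536870912 3) ndB1q2b ndB2q0 pcB3 Cut.none Ext.none)

def k0_mm_203_b : ∃ t, chk3 f_mm_203_b t 1 1 1 = true :=
  ⟨(b (b (a (l 4) (b (a (l 4) (b (a (l 15622104) (l 15396400)) (l 15500864))) (l 4))) (l 4)) (l 4)), by decide +kernel⟩

theorem c_mm_203_b : CertB 1239849684 370763052 0 536870912 1020054732 13421774 3 eng mog cd1q2b cd2q0 pd3 true false false .up 2 0 3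
    ndB1q2b ndB2q0 pcB3 Cut.none Ext.none :=
  certB1 (fam := true) (s1 := false) (s2 := false) (a := 2) (b := 0) (c := 3) (cn := .up) (n1 := ndB1q2b) (n2 := ndB2q0) (pc := pcB3) (cut := Cut.none) (xt := Ext.none) (P1 := 1239849684) (W1 := 370763052) (P2 := 0) (W2 := 536870912) (P3 := 1020054732) (W3 := 13421774) (N0 := 3) (En := eng) (mo := mog) (C1 := cd1q2b) (C2 := cd2q0) (C3 := pd3)
    rfl (fun _ => rfl) k0_mm_203_b

noncomputable def f_mm_213_a : ℕ → ℕ → ℕ → ℕ → Bool := onCell 0 536870912 536870912 536870912 1020054732 13421774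
    (rowB 3 eng mog cd1q2a cd2q1 pd3 0 true false false .pnn 2 1 3 (qsf 0 536870912 536870912 536870912 3) ndB1q2a ndB2q1 pcB3 Cut.none Ext.none)

def k0_mm_213_a : ∃ t, chk3 f_mm_213_a t 1 1 1 = true :=
  ⟨(l 4), by decide +kernel⟩

theorem c_mm_213_a : CertB 0 536870912 536870912 536870912 1020054732 13421774 3 eng mog cd1q2a cd2q1 pd3 true false false .pnn 2 1 3
    ndB1q2a ndB2q1 pcB3 Cut.none Ext.none :=
  certB0 (fam := true) (s1 := false) (s2 := false) (a := 2) (b := 1) (c := 3) (cn := .pnn) (n1 := ndB1q2a) (n2 := ndB2q1) (pc := pcB3) (cut := Cut.none) (xt := Ext.none) (P1 := 0) (W1 := 536870912) (P2 := 536870912) (W2 := 536870912) (P3 := 1020054732) (W3 := 13421774) (N0 := 3) (En := eng) (mo := mog) (C1 := cd1q2a) (C2 := cd2q1) (C3 := pd3)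
    rfl k0_mm_213_a

noncomputable def f_mm_213_b : ℕ → ℕ → ℕ → ℕ → Bool := onCell 1239849684 370763052 536870912 536870912 1020054732 13421774
    (rowB 3 eng mog cd1q2b cd2q1 pd3 0 true false false .pnn 2 1 3 (qsf 1239849684 370763052 536870912 536870912 3) ndB1q2b ndB2q1 pcB3 Cut.none Ext.none)

def k0_mm_213_b : ∃ t, chk3 f_mm_213_b t 1 1 1 = true :=
  ⟨(l 4), by decide +kernel⟩

theorem c_mm_213_b : CertB 1239849684 370763052 536870912 536870912 1020054732 13421774 3 eng mog cd1q2b cd2q1 pd3 true false false .pnn 2 1 3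
    ndB1q2b ndB2q1 pcB3 Cut.none Ext.none :=
  certB0 (fam := true) (s1 := false) (s2 := false) (a := 2) (b := 1) (c := 3) (cn := .pnn) (n1 := ndB1q2b) (n2 := ndB2q1) (pc := pcB3) (cut := Cut.none) (xt := Ext.none) (P1 := 1239849684) (W1 := 370763052) (P2 := 536870912) (W2 := 536870912) (P3 := 1020054732) (W3 := 13421774) (N0 := 3) (En := eng) (mo := mog) (C1 := cd1q2b) (C2 := cd2q1) (C3 := pd3)
    rfl k0_mm_213_b

noncomputable def f_mm_303 : ℕ → ℕ → ℕ → ℕ → Bool := onCell 1610612736 536870912 0 536870912 1020054732 13421774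
    (rowB 3 eng mog cd1q3 cd2q0 pd3 0 true false false .npn 3 0 3 (qsf 1610612736 536870912 0 536870912 3) ndB1q3 ndB2q0 pcB3 Cut.none Ext.none)

def k0_mm_303 : ∃ t, chk3 f_mm_303 t 1 1 1 = true :=
  ⟨(a (b (a (b (b (a (b (a (l 15457136) (b (l 15377632) (l 15406952))) (a (l 15527224) (l 4))) (b (a (l 15315824) (l 4)) (l 4))) (l 4)) (l 4)) (l 4)) (l 4)) (l 4)), by decide +kernel⟩

theorem c_mm_303 : CertB 1610612736 536870912 0 536870912 1020054732 13421774 3 eng mog cd1q3 cd2q0 pd3 true false false .npn 3 0 3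
    ndB1q3 ndB2q0 pcB3 Cut.none Ext.none :=
  certB0 (fam := true) (s1 := false) (s2 := false) (a := 3) (b := 0) (c := 3) (cn := .npn) (n1 := ndB1q3) (n2 := ndB2q0) (pc := pcB3) (cut := Cut.none) (xt := Ext.none) (P1 := 1610612736) (W1 := 536870912) (P2 := 0) (W2 := 536870912) (P3 := 1020054732) (W3 := 13421774) (N0 := 3) (En := eng) (mo := mog) (C1 := cd1q3) (C2 := cd2q0) (C3 := pd3)
    rfl k0_mm_303

noncomputable def f_mm_313 : ℕ → ℕ → ℕ → ℕ → Bool := onCell 1610612736 536870912 536870912 536870912 1020054732 13421774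
    (rowB 3 eng mog cd1q3 cd2q1 pd3 0 true false false .dn 3 1 3 (qsf 1610612736 536870912 536870912 536870912 3) ndB1q3 ndB2q1 pcB3 Cut.none Ext.none)

def k0_mm_313 : ∃ t, chk3 f_mm_313 t 1 1 1 = true :=
  ⟨(l 4), by decide +kernel⟩

theorem c_mm_313 : CertB 1610612736 536870912 536870912 536870912 1020054732 13421774 3 eng mog cd1q3 cd2q1 pd3 true false false .dn 3 1 3
    ndB1q3 ndB2q1 pcB3 Cut.none Ext.none :=
  certB0 (fam := true) (s1 := false) (s2 := false) (a := 3) (b := 1) (c := 3) (cn := .dn) (n1 := ndB1q3) (n2 := ndB2q1) (pc := pcB3) (cut := Cut.none) (xt := Ext.none) (P1 := 1610612736) (W1 := 536870912) (P2 := 536870912) (W2 := 536870912) (P3 := 1020054732) (W3 := 13421774) (N0 := 3) (En := eng) (mo := mog) (C1 := cd1q3) (C2 := cd2q1) (C3 := pd3)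
    rfl k0_mm_313

end Pool.Agent.Strip051.G.I9500_9625.Tab.C.BA12

namespace Pool.Agent.Strip051.G.I9500_9625.Tab.C.BA13

open Pool.Agent.Strip051.PB Pool.Agent.Strip051.PB.T
open Pool.Agent.Strip051.G.I9500_9625.Tab

noncomputable def f_pp_001 : ℕ → ℕ → ℕ → ℕ → Bool := onCell 0 536870912 0 536870912 1020054732 13421774
    (rowB 3 eng mog cd1q0 cd3q0 pd1 0 true true true .up 0 0 1 (qsf 0 536870912 0 536870912 1) ndB1q0 ndB3q0 pcB1 Cut.none Ext.none)

def k0_pp_001 : ∃ t, chk3 f_pp_001 t 1 1 1 = true :=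
  ⟨(l 4), by decide +kernel⟩

theorem c_pp_001 : CertB 0 536870912 0 536870912 1020054732 13421774 3 eng mog cd1q0 cd3q0 pd1 true true true .up 0 0 1
    ndB1q0 ndB3q0 pcB1 Cut.none Ext.none :=
  certB0 (fam := true) (s1 := true) (s2 := true) (a := 0) (b := 0) (c := 1) (cn := .up) (n1 := ndB1q0) (n2 := ndB3q0) (pc := pcB1) (cut := Cut.none) (xt := Ext.none) (P1 := 0) (W1 := 536870912) (P2 := 0) (W2 := 536870912) (P3 := 1020054732) (W3 := 13421774) (N0 := 3) (En := eng) (mo := mog) (C1 := cd1q0) (C2 := cd3q0) (C3 := pd1)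
    rfl k0_pp_001

noncomputable def f_pp_011 : ℕ → ℕ → ℕ → ℕ → Bool := onCell 0 536870912 536870912 536870912 1020054732 13421774
    (rowB 3 eng mog cd1q0 cd3q1 pd1 0 true true true .pnn 0 1 1 (qsf 0 536870912 536870912 536870912 1) ndB1q0 ndB3q1 pcB1 Cut.none Ext.none)

def k0_pp_011 : ∃ t, chk3 f_pp_011 t 1 1 1 = true :=
  ⟨(l 4), by decide +kernel⟩

theorem c_pp_011 : CertB 0 536870912 536870912 536870912 1020054732 13421774 3 eng mog cd1q0 cd3q1 pd1 true true true .pnn 0 1 1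
    ndB1q0 ndB3q1 pcB1 Cut.none Ext.none :=
  certB0 (fam := true) (s1 := true) (s2 := true) (a := 0) (b := 1) (c := 1) (cn := .pnn) (n1 := ndB1q0) (n2 := ndB3q1) (pc := pcB1) (cut := Cut.none) (xt := Ext.none) (P1 := 0) (W1 := 536870912) (P2 := 536870912) (W2 := 536870912) (P3 := 1020054732) (W3 := 13421774) (N0 := 3) (En := eng) (mo := mog) (C1 := cd1q0) (C2 := cd3q1) (C3 := pd1)
    rfl k0_pp_011

noncomputable def f_pp_012 : ℕ → ℕ → ℕ → ℕ → Bool := onCell 0 536870912 536870912 536870912 1020054732 13421774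
    (rowB 3 eng mog cd1q0 cd3q1 pd2 0 true true true .pnp 0 1 2 (qsf 0 536870912 536870912 536870912 2) ndB1q0 ndB3q1 pcB2 Cut.none Ext.none)

def k0_pp_012 : ∃ t, chk3 f_pp_012 t 1 1 1 = true :=
  ⟨(l 4), by decide +kernel⟩

theorem c_pp_012 : CertB 0 536870912 536870912 536870912 1020054732 13421774 3 eng mog cd1q0 cd3q1 pd2 true true true .pnp 0 1 2
    ndB1q0 ndB3q1 pcB2 Cut.none Ext.none :=
  certB0 (fam := true) (s1 := true) (s2 := true) (a := 0) (b := 1) (c := 2) (cn := .pnp) (n1 := ndB1q0) (n2 := ndB3q1) (pc := pcB2) (cut := Cut.none) (xt := Ext.none) (P1 := 0) (W1 := 536870912) (P2 := 536870912) (W2 := 536870912) (P3 := 1020054732) (W3 := 13421774) (N0 := 3) (En := eng) (mo := mog) (C1 := cd1q0) (C2 := cd3q1) (C3 := pd2)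
    rfl k0_pp_012

noncomputable def f_pp_022 : ℕ → ℕ → ℕ → ℕ → Bool := onCell 0 536870912 1073741824 536870912 1020054732 13421774
    (rowB 3 eng mog cd1q0 cd3q2 pd2 0 true true true .pp 0 2 2 (qsf 0 536870912 1073741824 536870912 2) ndB1q0 ndB3q2 pcB2 Cut.none Ext.none)

def k0_pp_022 : ∃ t, chk3 f_pp_022 t 1 1 1 = true :=
  ⟨(a (l 4) (l 4)), by decide +kernel⟩

theorem c_pp_022 : CertB 0 536870912 1073741824 536870912 1020054732 13421774 3 eng mog cd1q0 cd3q2 pd2 true true true .pp 0 2 2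
    ndB1q0 ndB3q2 pcB2 Cut.none Ext.none :=
  certB0 (fam := true) (s1 := true) (s2 := true) (a := 0) (b := 2) (c := 2) (cn := .pp) (n1 := ndB1q0) (n2 := ndB3q2) (pc := pcB2) (cut := Cut.none) (xt := Ext.none) (P1 := 0) (W1 := 536870912) (P2 := 1073741824) (W2 := 536870912) (P3 := 1020054732) (W3 := 13421774) (N0 := 3) (En := eng) (mo := mog) (C1 := cd1q0) (C2 := cd3q2) (C3 := pd2)
    rfl k0_pp_022

noncomputable def f_pp_023 : ℕ → ℕ → ℕ → ℕ → Bool := onCell 1610612736 536870912 1073741824 536870912 1020054732 13421774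
    (rowB 3 eng mog cd1q0 cd3q2 pd3 2 true true true .up 0 2 3 (qsf 0 536870912 1073741824 536870912 3) ndB1q0 ndB3q2 pcB3 Cut.none Ext.none)

def k0_pp_023 : ∃ t, chk3 f_pp_023 t 1 1 1 = true :=
  ⟨(l 4), by decide +kernel⟩

theorem c_pp_023 : CertB 0 536870912 1073741824 536870912 1020054732 13421774 3 eng mog cd1q0 cd3q2 pd3 true true true .up 0 2 3
    ndB1q0 ndB3q2 pcB3 Cut.none Ext.none :=
  certB2 (fam := true) (s1 := true) (s2 := true) (a := 0) (b := 2) (c := 3) (cn := .up) (n1 := ndB1q0) (n2 := ndB3q2) (pc := pcB3) (cut := Cut.none) (xt := Ext.none) (P1 := 0) (W1 := 536870912) (P2 := 1073741824) (W2 := 536870912) (P3 := 1020054732) (W3 := 13421774) (N0 := 3) (En := eng) (mo := mog) (C1 := cd1q0) (C2 := cd3q2) (C3 := pd3)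
    rfl (fun _ => rfl) k0_pp_023

noncomputable def f_pp_033 : ℕ → ℕ → ℕ → ℕ → Bool := onCell 0 536870912 0 1230186008 1020054732 13421774
    (rowB 3 eng mog cd1q0 cd3q3 pd3 0 true true true .pnn 0 3 3 (qsf 0 536870912 0 1230186008 3) ndB1q0 ndB3q3 pcB3 Cut.none Ext.none)

def k0_pp_033 : ∃ t, chk3 f_pp_033 t 1 1 1 = true :=
  ⟨(b (l 4) (l 4)), by decide +kernel⟩

theorem c_pp_033 : CertB 0 536870912 0 1230186008 1020054732 13421774 3 eng mog cd1q0 cd3q3 pd3 true true true .pnn 0 3 3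
    ndB1q0 ndB3q3 pcB3 Cut.none Ext.none :=
  certB0 (fam := true) (s1 := true) (s2 := true) (a := 0) (b := 3) (c := 3) (cn := .pnn) (n1 := ndB1q0) (n2 := ndB3q3) (pc := pcB3) (cut := Cut.none) (xt := Ext.none) (P1 := 0) (W1 := 536870912) (P2 := 0) (W2 := 1230186008) (P3 := 1020054732) (W3 := 13421774) (N0 := 3) (En := eng) (mo := mog) (C1 := cd1q0) (C2 := cd3q3) (C3 := pd3)
    rfl k0_pp_033

noncomputable def f_pp_101 : ℕ → ℕ → ℕ → ℕ → Bool := onCell 536870912 536870912 0 536870912 1020054732 13421774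
    (rowB 3 eng mog cd1q1 cd3q0 pd1 0 true true true .npn 1 0 1 (qsf 536870912 536870912 0 536870912 1) ndB1q1 ndB3q0 pcB1 Cut.none Ext.none)

def k0_pp_101 : ∃ t, chk3 f_pp_101 t 1 1 1 = true :=
  ⟨(l 4), by decide +kernel⟩

theorem c_pp_101 : CertB 536870912 536870912 0 536870912 1020054732 13421774 3 eng mog cd1q1 cd3q0 pd1 true true true .npn 1 0 1
    ndB1q1 ndB3q0 pcB1 Cut.none Ext.none :=
  certB0 (fam := true) (s1 := true) (s2 := true) (a := 1) (b := 0) (c := 1) (cn := .npn) (n1 := ndB1q1) (n2 := ndB3q0) (pc := pcB1) (cut := Cut.none) (xt := Ext.none) (P1 := 536870912) (W1 := 536870912) (P2 := 0) (W2 := 536870912) (P3 := 1020054732) (W3 := 13421774) (N0 := 3) (En := eng) (mo := mog) (C1 := cd1q1) (C2 := cd3q0) (C3 := pd1)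
    rfl k0_pp_101

noncomputable def f_pp_102 : ℕ → ℕ → ℕ → ℕ → Bool := onCell 536870912 536870912 0 536870912 1020054732 13421774
    (rowB 3 eng mog cd1q1 cd3q0 pd2 0 true true true .npp 1 0 2 (qsf 536870912 536870912 0 536870912 2) ndB1q1 ndB3q0 pcB2 Cut.none Ext.none)

def k0_pp_102 : ∃ t, chk3 f_pp_102 t 1 1 1 = true :=
  ⟨(l 4), by decide +kernel⟩

theorem c_pp_102 : CertB 536870912 536870912 0 536870912 1020054732 13421774 3 eng mog cd1q1 cd3q0 pd2 true true true .npp 1 0 2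
    ndB1q1 ndB3q0 pcB2 Cut.none Ext.none :=
  certB0 (fam := true) (s1 := true) (s2 := true) (a := 1) (b := 0) (c := 2) (cn := .npp) (n1 := ndB1q1) (n2 := ndB3q0) (pc := pcB2) (cut := Cut.none) (xt := Ext.none) (P1 := 536870912) (W1 := 536870912) (P2 := 0) (W2 := 536870912) (P3 := 1020054732) (W3 := 13421774) (N0 := 3) (En := eng) (mo := mog) (C1 := cd1q1) (C2 := cd3q0) (C3 := pd2)
    rfl k0_pp_102

noncomputable def f_pp_112 : ℕ → ℕ → ℕ → ℕ → Bool := onCell 536870912 536870912 536870912 536870912 1020054732 13421774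
    (rowB 3 eng mog cd1q1 cd3q1 pd2 0 true true true .dn 1 1 2 (qsf 536870912 536870912 536870912 536870912 2) ndB1q1 ndB3q1 pcB2 Cut.none Ext.none)

def k0_pp_112 : ∃ t, chk3 f_pp_112 t 1 1 1 = true :=
  ⟨(l 4), by decide +kernel⟩

theorem c_pp_112 : CertB 536870912 536870912 536870912 536870912 1020054732 13421774 3 eng mog cd1q1 cd3q1 pd2 true true true .dn 1 1 2
    ndB1q1 ndB3q1 pcB2 Cut.none Ext.none :=
  certB0 (fam := true) (s1 := true) (s2 := true) (a := 1) (b := 1) (c := 2) (cn := .dn) (n1 := ndB1q1) (n2 := ndB3q1) (pc := pcB2) (cut := Cut.none) (xt := Ext.none) (P1 := 536870912) (W1 := 536870912) (P2 := 536870912) (W2 := 536870912) (P3 := 1020054732) (W3 := 13421774) (N0 := 3) (En := eng) (mo := mog) (C1 := cd1q1) (C2 := cd3q1) (C3 := pd2)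
    rfl k0_pp_112

noncomputable def f_pp_113 : ℕ → ℕ → ℕ → ℕ → Bool := onCell 536870912 536870912 536870912 536870912 1020054732 13421774
    (rowB 3 eng mog cd1q1 cd3q1 pd3 0 true true true .nn 1 1 3 (qsf 536870912 536870912 536870912 536870912 3) ndB1q1 ndB3q1 pcB3 Cut.none Ext.none)

def k0_pp_113 : ∃ t, chk3 f_pp_113 t 1 1 1 = true :=
  ⟨(l 4), by decide +kernel⟩

theorem c_pp_113 : CertB 536870912 536870912 536870912 536870912 1020054732 13421774 3 eng mog cd1q1 cd3q1 pd3 true true true .nn 1 1 3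
    ndB1q1 ndB3q1 pcB3 Cut.none Ext.none :=
  certB0 (fam := true) (s1 := true) (s2 := true) (a := 1) (b := 1) (c := 3) (cn := .nn) (n1 := ndB1q1) (n2 := ndB3q1) (pc := pcB3) (cut := Cut.none) (xt := Ext.none) (P1 := 536870912) (W1 := 536870912) (P2 := 536870912) (W2 := 536870912) (P3 := 1020054732) (W3 := 13421774) (N0 := 3) (En := eng) (mo := mog) (C1 := cd1q1) (C2 := cd3q1) (C3 := pd3)
    rfl k0_pp_113

noncomputable def f_pp_123 : ℕ → ℕ → ℕ → ℕ → Bool := onCell 536870912 536870912 1073741824 536870912 1020054732 13421774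
    (rowB 3 eng mog cd1q1 cd3q2 pd3 0 true true true .npn 1 2 3 (qsf 536870912 536870912 1073741824 536870912 3) ndB1q1 ndB3q2 pcB3 Cut.none Ext.none)

def k0_pp_123 : ∃ t, chk3 f_pp_123 t 1 1 1 = true :=
  ⟨(l 4), by decide +kernel⟩

theorem c_pp_123 : CertB 536870912 536870912 1073741824 536870912 1020054732 13421774 3 eng mog cd1q1 cd3q2 pd3 true true true .npn 1 2 3
    ndB1q1 ndB3q2 pcB3 Cut.none Ext.none :=
  certB0 (fam := true) (s1 := true) (s2 := true) (a := 1) (b := 2) (c := 3) (cn := .npn) (n1 := ndB1q1) (n2 := ndB3q2) (pc := pcB3) (cut := Cut.none) (xt := Ext.none) (P1 := 536870912) (W1 := 536870912) (P2 := 1073741824) (W2 := 536870912) (P3 := 1020054732) (W3 := 13421774) (N0 := 3) (En := eng) (mo := mog) (C1 := cd1q1) (C2 := cd3q2) (C3 := pd3)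
    rfl k0_pp_123

noncomputable def f_pp_133 : ℕ → ℕ → ℕ → ℕ → Bool := onCell 536870912 536870912 0 1230186008 1020054732 13421774
    (rowB 3 eng mog cd1q1 cd3q3 pd3 0 true true true .dn 1 3 3 (qsf 536870912 536870912 0 1230186008 3) ndB1q1 ndB3q3 pcB3 Cut.none Ext.none)

def k0_pp_133 : ∃ t, chk3 f_pp_133 t 1 1 1 = true :=
  ⟨(b (l 2) (l 4)), by decide +kernel⟩

theorem c_pp_133 : CertB 536870912 536870912 0 1230186008 1020054732 13421774 3 eng mog cd1q1 cd3q3 pd3 true true true .dn 1 3 3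
    ndB1q1 ndB3q3 pcB3 Cut.none Ext.none :=
  certB0 (fam := true) (s1 := true) (s2 := true) (a := 1) (b := 3) (c := 3) (cn := .dn) (n1 := ndB1q1) (n2 := ndB3q3) (pc := pcB3) (cut := Cut.none) (xt := Ext.none) (P1 := 536870912) (W1 := 536870912) (P2 := 0) (W2 := 1230186008) (P3 := 1020054732) (W3 := 13421774) (N0 := 3) (En := eng) (mo := mog) (C1 := cd1q1) (C2 := cd3q3) (C3 := pd3)
    rfl k0_pp_133

noncomputable def f_pp_202_a : ℕ → ℕ → ℕ → ℕ → Bool := onCell 0 536870912 0 536870912 1020054732 13421774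
    (rowB 3 eng mog cd1q2a cd3q0 pd2 0 true true true .pp 2 0 2 (qsf 0 536870912 0 536870912 2) ndB1q2a ndB3q0 pcB2 Cut.none Ext.none)

def k0_pp_202_a : ∃ t, chk3 f_pp_202_a t 1 1 1 = true :=
  ⟨(l 5), by decide +kernel⟩

theorem c_pp_202_a : CertB 0 536870912 0 536870912 1020054732 13421774 3 eng mog cd1q2a cd3q0 pd2 true true true .pp 2 0 2
    ndB1q2a ndB3q0 pcB2 Cut.none Ext.none :=
  certB0 (fam := true) (s1 := true) (s2 := true) (a := 2) (b := 0) (c := 2) (cn := .pp) (n1 := ndB1q2a) (n2 := ndB3q0) (pc := pcB2) (cut := Cut.none) (xt := Ext.none) (P1 := 0) (W1 := 536870912) (P2 := 0) (W2 := 536870912) (P3 := 1020054732) (W3 := 13421774) (N0 := 3) (En := eng) (mo := mog) (C1 := cd1q2a) (C2 := cd3q0) (C3 := pd2)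
    rfl k0_pp_202_a

noncomputable def f_pp_202_b : ℕ → ℕ → ℕ → ℕ → Bool := onCell 1239849684 370763052 0 536870912 1020054732 13421774
    (rowB 3 eng mog cd1q2b cd3q0 pd2 0 true true true .pp 2 0 2 (qsf 1239849684 370763052 0 536870912 2) ndB1q2b ndB3q0 pcB2 Cut.none Ext.none)

def k0_pp_202_b : ∃ t, chk3 f_pp_202_b t 1 1 1 = true :=
  ⟨(l 5), by decide +kernel⟩

theorem c_pp_202_b : CertB 1239849684 370763052 0 536870912 1020054732 13421774 3 eng mog cd1q2b cd3q0 pd2 true true true .pp 2 0 2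
    ndB1q2b ndB3q0 pcB2 Cut.none Ext.none :=
  certB0 (fam := true) (s1 := true) (s2 := true) (a := 2) (b := 0) (c := 2) (cn := .pp) (n1 := ndB1q2b) (n2 := ndB3q0) (pc := pcB2) (cut := Cut.none) (xt := Ext.none) (P1 := 1239849684) (W1 := 370763052) (P2 := 0) (W2 := 536870912) (P3 := 1020054732) (W3 := 13421774) (N0 := 3) (En := eng) (mo := mog) (C1 := cd1q2b) (C2 := cd3q0) (C3 := pd2)
    rfl k0_pp_202_b

noncomputable def f_pp_203_a : ℕ → ℕ → ℕ → ℕ → Bool := onCell 0 536870912 0 536870912 1020054732 13421774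
    (rowB 3 eng mog cd1q2a cd3q0 pd3 0 true true true .up 2 0 3 (qsf 0 536870912 0 536870912 3) ndB1q2a ndB3q0 pcB3 Cut.none Ext.none)

def k0_pp_203_a : ∃ t, chk3 f_pp_203_a t 1 1 1 = true :=
  ⟨(l 5), by decide +kernel⟩

theorem c_pp_203_a : CertB 0 536870912 0 536870912 1020054732 13421774 3 eng mog cd1q2a cd3q0 pd3 true true true .up 2 0 3
    ndB1q2a ndB3q0 pcB3 Cut.none Ext.none :=
  certB0 (fam := true) (s1 := true) (s2 := true) (a := 2) (b := 0) (c := 3) (cn := .up) (n1 := ndB1q2a) (n2 := ndB3q0) (pc := pcB3) (cut := Cut.none) (xt := Ext.none) (P1 := 0) (W1 := 536870912) (P2 := 0) (W2 := 536870912) (P3 := 1020054732) (W3 := 13421774) (N0 := 3) (En := eng) (mo := mog) (C1 := cd1q2a) (C2 := cd3q0) (C3 := pd3)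
    rfl k0_pp_203_a

noncomputable def f_pp_203_b : ℕ → ℕ → ℕ → ℕ → Bool := onCell 1239849684 370763052 0 536870912 1020054732 13421774
    (rowB 3 eng mog cd1q2b cd3q0 pd3 0 true true true .up 2 0 3 (qsf 1239849684 370763052 0 536870912 3) ndB1q2b ndB3q0 pcB3 Cut.none Ext.none)

def k0_pp_203_b : ∃ t, chk3 f_pp_203_b t 1 1 1 = true :=
  ⟨(l 5), by decide +kernel⟩

theorem c_pp_203_b : CertB 1239849684 370763052 0 536870912 1020054732 13421774 3 eng mog cd1q2b cd3q0 pd3 true true true .up 2 0 3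
    ndB1q2b ndB3q0 pcB3 Cut.none Ext.none :=
  certB0 (fam := true) (s1 := true) (s2 := true) (a := 2) (b := 0) (c := 3) (cn := .up) (n1 := ndB1q2b) (n2 := ndB3q0) (pc := pcB3) (cut := Cut.none) (xt := Ext.none) (P1 := 1239849684) (W1 := 370763052) (P2 := 0) (W2 := 536870912) (P3 := 1020054732) (W3 := 13421774) (N0 := 3) (En := eng) (mo := mog) (C1 := cd1q2b) (C2 := cd3q0) (C3 := pd3)
    rfl k0_pp_203_b

noncomputable def f_pp_213_a : ℕ → ℕ → ℕ → ℕ → Bool := onCell 0 536870912 536870912 536870912 1020054732 13421774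
    (rowB 3 eng mog cd1q2a cd3q1 pd3 0 true true true .pnn 2 1 3 (qsf 0 536870912 536870912 536870912 3) ndB1q2a ndB3q1 pcB3 Cut.none Ext.none)

def k0_pp_213_a : ∃ t, chk3 f_pp_213_a t 1 1 1 = true :=
  ⟨(l 4), by decide +kernel⟩

theorem c_pp_213_a : CertB 0 536870912 536870912 536870912 1020054732 13421774 3 eng mog cd1q2a cd3q1 pd3 true true true .pnn 2 1 3
    ndB1q2a ndB3q1 pcB3 Cut.none Ext.none :=
  certB0 (fam := true) (s1 := true) (s2 := true) (a := 2) (b := 1) (c := 3) (cn := .pnn) (n1 := ndB1q2a) (n2 := ndB3q1) (pc := pcB3) (cut := Cut.none) (xt := Ext.none) (P1 := 0) (W1 := 536870912) (P2 := 536870912) (W2 := 536870912) (P3 := 1020054732) (W3 := 13421774) (N0 := 3) (En := eng) (mo := mog) (C1 := cd1q2a) (C2 := cd3q1) (C3 := pd3)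
    rfl k0_pp_213_a

noncomputable def f_pp_213_b : ℕ → ℕ → ℕ → ℕ → Bool := onCell 1239849684 370763052 536870912 536870912 1020054732 13421774
    (rowB 3 eng mog cd1q2b cd3q1 pd3 0 true true true .pnn 2 1 3 (qsf 1239849684 370763052 536870912 536870912 3) ndB1q2b ndB3q1 pcB3 Cut.none Ext.none)

def k0_pp_213_b : ∃ t, chk3 f_pp_213_b t 1 1 1 = true :=
  ⟨(l 4), by decide +kernel⟩

theorem c_pp_213_b : CertB 1239849684 370763052 536870912 536870912 1020054732 13421774 3 eng mog cd1q2b cd3q1 pd3 true true true .pnn 2 1 3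
    ndB1q2b ndB3q1 pcB3 Cut.none Ext.none :=
  certB0 (fam := true) (s1 := true) (s2 := true) (a := 2) (b := 1) (c := 3) (cn := .pnn) (n1 := ndB1q2b) (n2 := ndB3q1) (pc := pcB3) (cut := Cut.none) (xt := Ext.none) (P1 := 1239849684) (W1 := 370763052) (P2 := 536870912) (W2 := 536870912) (P3 := 1020054732) (W3 := 13421774) (N0 := 3) (En := eng) (mo := mog) (C1 := cd1q2b) (C2 := cd3q1) (C3 := pd3)
    rfl k0_pp_213_b

noncomputable def f_pp_303 : ℕ → ℕ → ℕ → ℕ → Bool := onCell 1610612736 536870912 0 536870912 1020054732 13421774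
    (rowB 3 eng mog cd1q3 cd3q0 pd3 0 true true true .npn 3 0 3 (qsf 1610612736 536870912 0 536870912 3) ndB1q3 ndB3q0 pcB3 Cut.none Ext.none)

def k0_pp_303 : ∃ t, chk3 f_pp_303 t 1 1 1 = true :=
  ⟨(l 5), by decide +kernel⟩

theorem c_pp_303 : CertB 1610612736 536870912 0 536870912 1020054732 13421774 3 eng mog cd1q3 cd3q0 pd3 true true true .npn 3 0 3
    ndB1q3 ndB3q0 pcB3 Cut.none Ext.none :=
  certB0 (fam := true) (s1 := true) (s2 := true) (a := 3) (b := 0) (c := 3) (cn := .npn) (n1 := ndB1q3) (n2 := ndB3q0) (pc := pcB3) (cut := Cut.none) (xt := Ext.none) (P1 := 1610612736) (W1 := 536870912) (P2 := 0) (W2 := 536870912) (P3 := 1020054732) (W3 := 13421774) (N0 := 3) (En := eng) (mo := mog) (C1 := cd1q3) (C2 := cd3q0) (C3 := pd3)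
    rfl k0_pp_303

noncomputable def f_pp_313 : ℕ → ℕ → ℕ → ℕ → Bool := onCell 1610612736 536870912 536870912 536870912 1020054732 13421774
    (rowB 3 eng mog cd1q3 cd3q1 pd3 0 true true true .dn 3 1 3 (qsf 1610612736 536870912 536870912 536870912 3) ndB1q3 ndB3q1 pcB3 Cut.none Ext.none)

def k0_pp_313 : ∃ t, chk3 f_pp_313 t 1 1 1 = true :=
  ⟨(l 4), by decide +kernel⟩

theorem c_pp_313 : CertB 1610612736 536870912 536870912 536870912 1020054732 13421774 3 eng mog cd1q3 cd3q1 pd3 true true true .dn 3 1 3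
    ndB1q3 ndB3q1 pcB3 Cut.none Ext.none :=
  certB0 (fam := true) (s1 := true) (s2 := true) (a := 3) (b := 1) (c := 3) (cn := .dn) (n1 := ndB1q3) (n2 := ndB3q1) (pc := pcB3) (cut := Cut.none) (xt := Ext.none) (P1 := 1610612736) (W1 := 536870912) (P2 := 536870912) (W2 := 536870912) (P3 := 1020054732) (W3 := 13421774) (N0 := 3) (En := eng) (mo := mog) (C1 := cd1q3) (C2 := cd3q1) (C3 := pd3)
    rfl k0_pp_313

noncomputable def f_pm_001 : ℕ → ℕ → ℕ → ℕ → Bool := onCell 0 536870912 0 536870912 1020054732 13421774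
    (rowB 3 eng mog cd1q0 cd3q0 pd1 0 true true false .up 0 0 1 (qsf 0 536870912 0 536870912 1) ndB1q0 ndB3q0 pcB1 Cut.none Ext.none)

def k0_pm_001 : ∃ t, chk3 f_pm_001 t 1 1 1 = true :=
  ⟨(b (l 3) (l 3)), by decide +kernel⟩

theorem c_pm_001 : CertB 0 536870912 0 536870912 1020054732 13421774 3 eng mog cd1q0 cd3q0 pd1 true true false .up 0 0 1
    ndB1q0 ndB3q0 pcB1 Cut.none Ext.none :=
  certB0 (fam := true) (s1 := true) (s2 := false) (a := 0) (b := 0) (c := 1) (cn := .up) (n1 := ndB1q0) (n2 := ndB3q0) (pc := pcB1) (cut := Cut.none) (xt := Ext.none) (P1 := 0) (W1 := 536870912) (P2 := 0) (W2 := 536870912) (P3 := 1020054732) (W3 := 13421774) (N0 := 3) (En := eng) (mo := mog) (C1 := cd1q0) (C2 := cd3q0) (C3 := pd1)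
    rfl k0_pm_001

noncomputable def cut_pm_011 : Cut := Cut.of [[⟨0, 0, 0, 38347922⟩, ⟨1, 1, 0, 38347922⟩, ⟨2, 1, 0, 38347922⟩]]

noncomputable def f_pm_011 : ℕ → ℕ → ℕ → ℕ → Bool := onCell 0 536870912 536870912 536870912 1020054732 13421774
    (rowB 3 eng mog cd1q0 cd3q1 pd1 1 true true false .pnn 0 1 1 (qsf 0 536870912 536870912 536870912 1) ndB1q0 ndB3q1 pcB1 cut_pm_011 Ext.none)

def k0_pm_011 : ∃ t, chk3 f_pm_011 t 1 1 1 = true :=
  ⟨(b (l 3) (b (l 3) (b (l 3) (a (a (b (l 3) (a (a (a (b (l 3) (l 6)) (l 3)) (l 3)) (l 3))) (l 3)) (l 3))))), by decide +kernel⟩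

theorem c_pm_011 : CertB 0 536870912 536870912 536870912 1020054732 13421774 3 eng mog cd1q0 cd3q1 pd1 true true false .pnn 0 1 1
    ndB1q0 ndB3q1 pcB1 cut_pm_011 Ext.none :=
  certB1 (fam := true) (s1 := true) (s2 := false) (a := 0) (b := 1) (c := 1) (cn := .pnn) (n1 := ndB1q0) (n2 := ndB3q1) (pc := pcB1) (cut := cut_pm_011) (xt := Ext.none) (P1 := 0) (W1 := 536870912) (P2 := 536870912) (W2 := 536870912) (P3 := 1020054732) (W3 := 13421774) (N0 := 3) (En := eng) (mo := mog) (C1 := cd1q0) (C2 := cd3q1) (C3 := pd1)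
    rfl (fun _ => rfl) k0_pm_011

noncomputable def cut_pm_012 : Cut := Cut.of [[⟨0, 0, 0, 38347922⟩, ⟨1, 1, 0, 38347922⟩, ⟨2, 1, 0, 38347922⟩]]

noncomputable def xt_pm_012 : Ext := extD3 3 ⟨4, 1, 1, 5, 99, 20, 33, 40, 51, 125, 1, 32⟩ eng cd1q0 cd3q1 pd2 true true false .pnp 0 1 2 rfl ndB1q0 ndB3q1 pcB2

noncomputable def f_pm_012 : ℕ → ℕ → ℕ → ℕ → Bool := onCell 1073741824 536870912 536870912 536870912 1020054732 13421774
    (rowB 3 eng mog cd1q0 cd3q1 pd2 2 true true false .pnp 0 1 2 (qsf 0 536870912 536870912 536870912 2) ndB1q0 ndB3q1 pcB2 cut_pm_012 xt_pm_012)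

def k0_pm_012 : ∃ t, chk3 f_pm_012 t 8 2 1 = true :=
  ⟨(a (b (l 3) (b (l 3) (a (l 3) (c (l 174112084919) (l 438253243511))))) (a (b (b (c (l 15978904) (l 16204216)) (b (l 16057472) (a (l 16108920) (l 16139640)))) (a (b (l 134383776135) (b (l 16130888) (l 16089928))) (b (c (l 16093936) (l 16315776)) (c (l 16132416) (l 16378080))))) (b (b (a (c (l 16029392) (l 16237384)) (l 16094000)) (b (c (l 16057808) (l 16260784)) (l 15946496))) (b (c (l 16114944) (l 16309320)) (c (l 16124400) (l 16362432)))))), by decide +kernel⟩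

def k1_pm_012 : ∃ t, chk3 f_pm_012 t 8 3 1 = true :=
  ⟨(b (a (a (l 3) (b (b (l 188607866855) (a (l 3) (l 16167576))) (b (a (l 16176872) (b (l 16232552) (l 16242616))) (a (l 16223832) (a (l 16265912) (l 16273080)))))) (b (b (a (a (l 16095952) (l 16250832)) (l 16144672)) (a (a (l 16125976) (l 16295304)) (c (l 16310976) (l 16445584)))) (a (a (b (l 16198504) (l 16293976)) (b (l 16344496) (l 16398464))) (b (c (l 16373552) (l 16488512)) (c (l 16443984) (l 16497368)))))) (a (b (a (a (l 3) (b (l 3) (b (l 16433112) (b (l 16485512) (a (l 16542184) (l 16535456)))))) (b (a (a (l 16332080) (a (l 16343312) (l 16327792))) (b (l 16337440) (l 16451920))) (b (a (a (l 16433056) (l 16461184)) (l 16504536)) (a (a (l 16471256) (l 16558008)) (l 16537504))))) (a (b (a (b (l 3) (a (l 3) (l 141628195464118335))) (b (l 139878459911635007) (b (l 141040643814948927) (l 141340466981666879)))) (b (a (a (l 6) (b (l 142071573596782847) (l 6))) (b (l 141645306564886783) (a (l 6) (l 142594116523180159))))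 (l 6))) (b (a (b (l 140687150787002431) (l 141003604059652159)) (b (l 140654234253623359) (l 141221857096171583))) (b (a (l 141666540902940799) (l 141593835708121215)) (a (b (l 142313397476262015) (l 6)) (b (l 142044360603582591) (a (l 6) (l 16554496)))))))) (b (a (b (a (l 16373560) (l 16374720)) (a (a (l 16437160) (l 16475624)) (l 16395936))) (b (b (l 16453584) (l 16497888)) (b (l 16456664) (l 16435216)))) (b (a (a (l 140379631010791487) (l 139981607819444287)) (l 139142130529288255)) (a (b (l 140502707681558655) (b (l 140771744437796991) (a (a (l 16525552) (l 16496960)) (l 16454704)))) (b (l 139890279525171327) (a (b (l 16412840) (l 16399520)) (l 16352464)))))))), by decide +kernel⟩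

def k2_pm_012 : ∃ t, chk3 f_pm_012 t 9 1 1 = true :=
  ⟨(b (b (a (a (b (l 15963616) (c (l 16082392) (l 16241008))) (b (l 2) (l 16155568))) (b (l 2) (l 16018680))) (a (b (a (c (l 16132744) (l 16289296)) (l 16208080)) (a (c (l 16165704) (l 16352664)) (l 16173888))) (b (c (l 16190504) (l 16325912)) (c (l 16258344) (l 16332256))))) (b (a (b (a (c (l 16306904) (l 16431544)) (l 16157792)) (c (b (l 16408248) (l 16475992)) (b (l 16392136) (l 16367640)))) (b (c (l 16348528) (l 16282688)) (c (l 16189392) (b (l 16237640) (l 16183088))))) (b (a (b (a (l 16330808) (l 16285064)) (c (b (l 16395496) (l 16300024)) (l 16183320))) (b (c (l 16281920) (l 16167608)) (a (l 16169896) (l 16128808)))) (a (b (a (l 138628521082503231) (l 16099232)) (b (l 137061579390320767) (a (a (l 16299928) (l 16248568)) (l 16173664)))) (b (a (l 16112768) (l 16067624)) (a (b (l 16109160) (l 16077552)) (l 15939616))))))), by decide +kernel⟩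

def k3_pm_012 : ∃ t, chk3 f_pm_012 t 5 1 1 = true :=
  ⟨(b (b (a (a (a (b (l 2) (l 16226456)) (l 2)) (l 2)) (l 2)) (a (a (a (b (l 16273368) (l 16252464)) (b (c (l 16204616) (l 16255840)) (c (l 16264416) (l 16196280)))) (b (l 16257744) (l 16107208))) (b (c (l 16219048) (l 16082600)) (c (l 16253552) (l 15987272))))) (b (a (a (a (b (l 16105064) (c (l 16279496) (l 16110576))) (b (c (a (l 16350960) (l 16335224)) (l 16124192)) (c (a (l 16234048) (l 16164944)) (l 15893680)))) (b (l 15923576) (c (l 16130824) (l 15940584)))) (b (c (l 16117648) (l 15814928)) (c (l 15913912) (l 15693000)))) (a (a (a (b (b (l 16090192) (l 16049880)) (b (l 15984704) (l 15915688))) (b (a (l 15879304) (c (l 15867320) (l 15926568))) (a (b (l 15925256) (l 15853352)) (b (a (l 15896832) (l 15878976)) (a (l 15823536) (l 15804816)))))) (b (b (l 15937096) (l 15865976)) (b (l 15791032) (l 15712360)))) (b (b (l 15570648) (l 15486928)) (b (l 15315528) (a (l 15552240) (l 15401496))))))), by decide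 +kernel⟩

def k4_pm_012 : ∃ t, chk3 f_pm_012 t 3 1 1 = true :=
  ⟨(b (a (b (l 2) (a (b (l 2) (c (l 16106632) (l 15835064))) (l 2))) (l 2)) (a (b (a (b (c (l 15945064) (l 15694992)) (c (l 15670920) (l 15540632))) (b (a (l 15709912) (l 2)) (c (l 15465664) (l 15365400)))) (a (b (b (l 15485352) (l 15406216)) (b (l 15302080) (l 15194136))) (b (a (l 15301664) (l 15149024)) (b (l 15076552) (l 14952464))))) (b (a (b (l 2) (c (l 15468592) (l 15248080))) (l 2)) (a (b (a (l 15140136) (l 15086296)) (a (l 14850544) (l 14804680))) (b (l 14812768) (l 14526504)))))), by decide +kernel⟩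

theorem s5_pm_012 : ∃ t, chk3 f_pm_012 t 8 1 1 = true := ex3_b k0_pm_012 k1_pm_012

theorem s6_pm_012 : ∃ t, chk3 f_pm_012 t 4 1 1 = true := ex3_a s5_pm_012 k2_pm_012

theorem s7_pm_012 : ∃ t, chk3 f_pm_012 t 2 1 1 = true := ex3_a s6_pm_012 k3_pm_012

theorem s8_pm_012 : ∃ t, chk3 f_pm_012 t 1 1 1 = true := ex3_a s7_pm_012 k4_pm_012

theorem c_pm_012 : CertB 0 536870912 536870912 536870912 1020054732 13421774 3 eng mog cd1q0 cd3q1 pd2 true true false .pnp 0 1 2
    ndB1q0 ndB3q1 pcB2 cut_pm_012 xt_pm_012 :=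
  certB2 (fam := true) (s1 := true) (s2 := false) (a := 0) (b := 1) (c := 2) (cn := .pnp) (n1 := ndB1q0) (n2 := ndB3q1) (pc := pcB2) (cut := cut_pm_012) (xt := xt_pm_012) (P1 := 0) (W1 := 536870912) (P2 := 536870912) (W2 := 536870912) (P3 := 1020054732) (W3 := 13421774) (N0 := 3) (En := eng) (mo := mog) (C1 := cd1q0) (C2 := cd3q1) (C3 := pd2)
    rfl (fun _ => rfl) s8_pm_012

noncomputable def f_pm_022 : ℕ → ℕ → ℕ → ℕ → Bool := onCell 0 536870912 1073741824 536870912 1020054732 13421774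
    (rowB 3 eng mog cd1q0 cd3q2 pd2 1 true true false .pp 0 2 2 (qsf 0 536870912 1073741824 536870912 2) ndB1q0 ndB3q2 pcB2 Cut.none Ext.none)

def k0_pm_022 : ∃ t, chk3 f_pm_022 t 4 16 1 = true :=
  ⟨(a (b (l 3) (a (b (l 3) (a (b (l 3) (b (l 3) (a (b (l 3) (a (a (l 3) (b (l 3) (c (l 316921205127) (l 360407717367)))) (c (a (l 268602840455) (l 16605520)) (a (l 266455329735) (l 209010162407))))) (a (c (b (l 346449163479) (l 16617064)) (b (l 394767525607) (l 16583512))) (c (l 176797985063) (b (l 16605592) (l 16622152))))))) (b (a (l 3) (a (l 3) (a (l 3) (l 1)))) (a (b (b (l 3) (a (l 340006773575) (l 16647592))) (a (c (l 16649656) (l 16641952)) (l 16641208))) (b (a (l 222968985383) (b (l 323229673911) (l 16701080))) (c (l 16666584) (l 16664656))))))) (b (l 1) (b (l 1) (a (a (b (l 1) (l 624951121399)) (l 1)) (l 1)))))) (l 1)), by decide +kernel⟩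

def k1_pm_022 : ∃ t, chk3 f_pm_022 t 8 68 1 = true :=
  ⟨(a (a (b (a (c (b (a (b (a (b (l 224042516679) (l 16577408)) (l 16586128)) (a (l 16574424) (l 16582144))) (b (l 16576712) (l 16593712))) (a (b (l 16553392) (l 16570488)) (l 16587856))) (b (a (b (a (b (a (c (l 236927405031) (l 236390516343)) (l 191293363991)) (c (l 16563640) (l 16533344))) (c (l 16573328) (l 16543680))) (a (c (l 16560448) (l 16530016)) (l 16564656))) (b (a (l 16577904) (l 16586792)) (l 16557040))) (a (c (l 16537504) (a (l 16544416) (l 16553648))) (l 16550616)))) (c (b (a (l 16611056) (l 16626384)) (l 16584712)) (b (a (l 16576944) (l 16615600)) (a (l 16589352) (l 16607040))))) (a (b (c (a (l 16564776) (l 16580232)) (a (a (l 16540888) (l 16549824)) (l 16563184))) (b (a (c (l 16538368) (a (l 16534680) (l 16543872))) (c (b (l 16575840) (l 16574752)) (b (l 16537456) (l 16557456)))) (b (a (a (c (l 16552856) (l 16532088)) (l 16530752)) (l 16545208)) (c (l 16544536) (l 16516136))))) (b (c (b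 (l 16584384) (a (l 16594152) (l 16610424))) (b (a (l 16583040) (l 16600944)) (a (b (l 16579968) (l 16578464)) (l 16598416)))) (c (a (l 16592088) (l 16609592)) (a (l 16557320) (l 16599096)))))) (b (a (b (c (l 16628304) (l 16621016)) (a (l 16629304) (b (l 16647712) (l 16623104)))) (b (a (l 16670144) (l 16686384)) (c (b (l 16653328) (l 16650976)) (b (l 16650280) (l 16648096))))) (b (a (b (a (c (l 16628864) (l 16619336)) (l 16621168)) (c (l 16636352) (l 16629144))) (c (l 16671064) (l 16669696))) (a (c (l 16635592) (l 16629912)) (l 16649312))))) (a (b (a (a (b (b (l 16704616) (l 16700800)) (a (l 16672744) (l 16703112))) (b (l 1) (l 543346753399))) (l 1)) (a (c (l 16673160) (l 16676376)) (b (l 1) (l 562137240615)))) (l 1))), by decide +kernel⟩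

def k2_pm_022 : ∃ t, chk3 f_pm_022 t 8 69 1 = true :=
  ⟨(a (a (b (c (a (b (a (l 16556168) (l 16573728)) (l 16543064)) (b (l 16599912) (l 16598904))) (a (b (a (l 16516936) (l 16558768)) (l 16507536)) (b (l 16568864) (l 16590856)))) (c (a (l 16528504) (l 16597336)) (a (b (l 16550552) (l 16551560)) (l 16571312)))) (c (b (a (l 16613048) (l 16668272)) (l 16596408)) (b (a (l 16610384) (l 16650896)) (a (l 16633024) (l 16652344))))) (a (b (a (b (l 16665200) (l 16664904)) (b (l 16688920) (l 16681656))) (a (l 16664384) (l 16649856))) (a (b (l 1) (l 575558879511)) (l 1)))), by decide +kernel⟩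

def k3_pm_022 : ∃ t, chk3 f_pm_022 t 8 35 1 = true :=
  ⟨(a (b (a (c (b (a (l 16560488) (l 16595072)) (l 16533512)) (b (a (l 16552968) (l 16593928)) (l 16522552))) (c (b (l 16604400) (l 16601728)) (b (l 16612576) (l 16613632)))) (a (c (b (l 16551944) (l 16570192)) (b (l 16534264) (l 16556168))) (b (a (l 16609224) (l 16624864)) (c (l 16595664) (l 16593152))))) (b (a (c (l 16643960) (b (l 16657264) (l 16641320))) (b (c (l 321618930551) (l 338261846855)) (a (l 16621104) (l 556231402327)))) (a (b (a (l 16649320) (l 16608344)) (l 16588352)) (b (a (l 16610384) (l 16570600)) (l 16563456))))), by decide +kernel⟩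

def k4_pm_022 : ∃ t, chk3 f_pm_022 t 9 17 1 = true :=
  ⟨(a (b (l 1) (a (b (l 1) (a (l 641056938871) (l 1))) (l 1))) (l 1)), by decide +kernel⟩

def k5_pm_022 : ∃ t, chk3 f_pm_022 t 4 9 1 = true :=
  ⟨(a (c (b (a (b (a (b (b (l 16525008) (l 16560848)) (l 16529992)) (b (l 16585768) (l 16603968))) (a (b (l 16538784) (l 16528072)) (l 16534120))) (b (b (a (l 16651848) (l 16620744)) (l 16556344)) (c (l 16549920) (l 16547208)))) (b (a (b (l 16466792) (l 16458512)) (a (l 16582832) (l 16533656))) (a (c (l 16479440) (l 16437664)) (a (l 16535576) (l 16508928))))) (b (a (b (b (a (b (l 16513728) (l 16548960)) (l 16581416)) (a (l 16534088) (l 16603560))) (b (a (l 16514352) (l 16594472)) (l 16446520))) (b (b (a (l 16629984) (l 16613384)) (l 16548992)) (a (l 16602592) (l 16566848)))) (b (a (a (l 16426112) (a (l 16520576) (l 16576216))) (l 16497992)) (a (b (l 16414288) (l 16397544)) (l 16492896))))) (b (a (b (a (b (c (l 277058491719) (l 293164549943)) (c (l 16592464) (l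 16564680))) (b (l 1) (c (l 444562116887) (l 386579991143)))) (b (a (l 16522936) (c (l 16541344) (l 16493704))) (a (l 16550152) (l 100964627303)))) (b (l 1) (a (b (l 1) (l 649646610583)) (l 1)))) (a (b (c (a (l 16524784) (l 16493320)) (l 16425504)) (b (l 16400920) (l 16404768))) (b (b (a (l 303364866631) (l 1)) (a (l 16447592) (l 438656240279))) (c (a (l 16419368) (l 16365432)) (a (l 16429504) (l 16388936))))))), by decide +kernel⟩

def k6_pm_022 : ∃ t, chk3 f_pm_022 t 5 4 1 = true :=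
  ⟨(b (l 1) (a (a (b (l 1) (b (l 1) (b (l 1) (l 658773087639)))) (l 1)) (l 1))), by decide +kernel⟩

def k7_pm_022 : ∃ t, chk3 f_pm_022 t 3 4 1 = true :=
  ⟨(l 1), by decide +kernel⟩

def k8_pm_022 : ∃ t, chk3 f_pm_022 t 2 10 1 = true :=
  ⟨(a (b (b (a (a (b (c (l 16439392) (l 16381208)) (a (l 16324848) (l 16412608))) (b (l 16405344) (l 16343376))) (a (b (l 16366104) (l 16347840)) (c (l 16338936) (l 16388880)))) (a (b (a (a (l 16294544) (l 16381208)) (a (l 16419448) (l 16371984))) (b (a (a (l 16288312) (l 16384832)) (l 16348208)) (c (b (a (l 16420120) (l 16399144)) (a (l 16369192) (l 16348752))) (a (b (l 16311544) (l 16286848)) (l 16398768))))) (b (a (l 16286904) (l 16265016)) (b (c (l 16188728) (l 16274368)) (a (b (l 16305712) (a (l 16335200) (l 16348312))) (b (l 16327872) (l 16175920))))))) (c (a (b (a (l 16342312) (l 16323600)) (a (l 16275816) (l 16302024))) (a (l 16215856) (l 16207056))) (a (a (b (b (l 16277528) (l 16262616)) (l 16198368)) (l 16328008))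 (a (a (l 16401784) (l 16382040)) (l 16291032))))) (b (a (b (a (b (a (l 16327472) (l 1)) (a (l 16312296) (l 412349267655))) (l 1)) (b (a (a (l 16296448) (l 16259440)) (l 1)) (a (b (l 16224072) (b (l 16259232) (c (l 16228568) (l 16281024)))) (b (l 1) (b (l 1) (l 582000176807)))))) (l 1)) (a (c (a (l 16150232) (b (l 205116781175) (l 16114720))) (a (l 16239752) (b (l 190084476039) (l 16173352)))) (a (b (l 1) (l 427381099623)) (l 1))))), by decide +kernel⟩

def k9_pm_022 : ∃ t, chk3 f_pm_022 t 2 11 1 = true :=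
  ⟨(b (c (a (a (a (b (l 16209208) (l 16142488)) (l 16133192)) (a (l 16220816) (l 16176472))) (a (a (l 16126112) (l 16069992)) (a (b (l 211558978663) (l 15995400)) (l 458519643719)))) (a (a (a (b (l 16168736) (l 16118272)) (l 16288176)) (b (l 16182376) (l 16178520))) (a (a (l 16222456) (l 16150216)) (a (l 151966358391) (l 419327916951))))) (c (a (a (a (c (l 16032840) (l 16135464)) (l 16047688)) (a (l 16141768) (l 16104000))) (a (a (l 16060280) (l 16010784)) (a (l 15955864) (l 173440834647)))) (a (a (a (a (c (l 16164936) (l 16101720)) (l 16130048)) (l 16185016)) (a (l 16248560) (l 16241208))) (a (a (l 16184072) (l 16119352)) (a (l 16047448) (l 155724245399)))))), by decide +kernel⟩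

def k10_pm_022 : ∃ t, chk3 f_pm_022 t 3 5 1 = true :=
  ⟨(b (l 1) (a (a (b (l 1) (a (b (l 1) (l 435970548487)) (l 1))) (l 1)) (l 1))), by decide +kernel⟩

def k11_pm_022 : ∃ t, chk3 f_pm_022 t 2 3 2 = true :=
  ⟨(b (a (b (a (b (a (a (b (l 16029624) (l 15961488)) (l 15934816)) (a (l 16009040) (l 16060864))) (a (b (a (l 15872216) (l 15971272)) (a (a (l 15846512) (l 15886720)) (l 15904488))) (a (l 15879064) (l 15955224)))) (a (b (l 16041504) (l 15920008)) (b (l 16031440) (l 15958760)))) (a (a (a (c (b (b (l 15825328) (b (l 15829240) (l 15802368))) (b (a (l 15737896) (l 15780864)) (l 15701592))) (b (b (l 15959936) (b (l 15947176) (l 15921688))) (b (l 15836800) (l 15820504)))) (b (b (l 15816608) (b (l 15823976) (l 15798728))) (b (l 15694328) (l 15680200)))) (b (b (l 15810512) (a (l 15809384) (l 15889976))) (b (l 15694168) (l 15683016)))) (b (a (b (l 15923192) (l 15861376)) (l 15864280)) (a (l 15664832) (l 15782568))))) (b (a (b (l 15827240) (l 15764952)) (b (a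 (l 15903616) (l 15850360)) (l 15766280))) (a (b (a (l 15862928) (l 15834272)) (a (l 15790744) (l 15771520))) (b (l 15780944) (l 15520624))))) (a (b (a (b (a (b (a (a (l 15595568) (l 15661352)) (l 15665192)) (a (l 15537264) (l 15649376))) (b (l 15671016) (l 15658256))) (a (b (a (l 15518688) (l 15611872)) (l 15358608)) (b (l 15623848) (l 15567896)))) (b (a (l 15627968) (l 15712112)) (a (l 15609376) (l 15617912)))) (a (b (a (b (l 15381880) (l 15383816)) (l 15357032)) (a (b (l 15364560) (l 15303288)) (l 15369016))) (b (a (l 15504976) (l 15521896)) (a (l 15399640) (l 15425008))))) (b (a (b (l 15597656) (l 15599736)) (b (l 15670592) (l 15605144))) (a (b (l 15537184) (l 15452832)) (b (l 15538048) (l 15470120)))))), by decide +kernel⟩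

def k12_pm_022 : ∃ t, chk3 f_pm_022 t 2 3 3 = true :=
  ⟨(b (a (b (a (a (b (a (b (l 16037456) (l 15987592)) (l 16050928)) (a (c (l 16039816) (b (l 16011296) (l 15958832))) (a (l 15976024) (l 16031600)))) (b (l 16102384) (a (l 16066416) (l 16097400)))) (b (a (l 16152632) (l 16194936)) (a (l 16056320) (l 16127384)))) (a (b (a (b (a (b (l 15908896) (l 15873744)) (l 15971568)) (a (c (l 15970680) (b (l 15904168) (l 15894672))) (l 15903952))) (b (l 16014336) (l 15938560))) (a (b (c (l 15905696) (b (l 15863696) (l 15881336))) (c (l 15858664) (l 15856504))) (a (l 15843704) (l 15910256)))) (b (a (l 15937392) (l 16016984)) (a (l 15878544) (l 15927768))))) (b (a (b (l 16013208) (l 15978280)) (b (l 15905504) (l 15969688))) (a (b (l 15859376) (a (l 16012584) (l 15984192))) (b (l 15949968) (l 15840608))))) (a (b (a (b (a (b (a (l 15815080) (l 15862040)) (l 15714592)) (b (l 15845928) (l 15810480))) (a (b (l 15672600) (l 15650072)) (b (l 15773416) (l 15734880)))) (a (b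 (c (l 15887440) (l 16006464)) (l 15756784)) (b (l 15901472) (l 15847344)))) (a (b (a (b (l 15605208) (l 15580112)) (l 15579872)) (a (l 15351464) (l 15537720))) (b (a (l 15708072) (l 15745808)) (l 15459736)))) (b (a (b (l 15841576) (l 15802504)) (b (l 15876944) (l 15815896))) (a (b (l 15758016) (l 15667288)) (b (l 15749488) (l 15678720)))))), by decide +kernel⟩

def k13_pm_022 : ∃ t, chk3 f_pm_022 t 3 3 1 = true :=
  ⟨(b (a (b (a (b (a (c (l 179346202631) (l 15875192)) (b (l 1) (l 289941449655))) (a (c (l 15753928) (l 15866320)) (c (l 15635856) (l 15790048)))) (b (l 1) (a (c (l 448318243159) (l 269003471319)) (l 1)))) (a (b (c (l 15629144) (l 15824024)) (a (l 15573344) (l 15647880))) (b (a (c (l 15614648) (l 15713632)) (c (l 447244338439) (l 422011516423))) (a (l 15548904) (c (l 15519632) (l 15646072)))))) (b (l 1) (a (b (l 1) (a (l 432748549831) (l 1))) (l 1)))) (a (b (c (a (b (l 15555256) (l 15568952)) (b (a (l 15563840) (l 15521776)) (l 15515272))) (a (b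 (l 15799800) (l 15760256)) (b (l 15605336) (l 15679464)))) (a (b (l 15384168) (l 15458400)) (b (c (l 15479128) (l 15652272)) (l 15446488)))) (b (a (b (a (c (l 15455856) (l 15587448)) (l 432211520439)) (a (c (l 15462856) (l 15600552)) (b (l 15456224) (l 15480912)))) (b (l 1) (a (l 431674552663) (l 1)))) (a (b (a (l 15515128) (l 15225872)) (c (l 15403408) (l 15555232))) (b (a (b (l 221221176775) (l 15435496)) (b (l 1) (l 427379516839))) (a (l 15429784) (b (l 15247240) (l 15394080)))))))), by decide +kernel⟩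

theorem s14_pm_022 : ∃ t, chk3 f_pm_022 t 2 3 1 = true := ex3_c k11_pm_022 k12_pm_022

theorem s15_pm_022 : ∃ t, chk3 f_pm_022 t 1 3 1 = true := ex3_a s14_pm_022 k13_pm_022

theorem s16_pm_022 : ∃ t, chk3 f_pm_022 t 2 5 1 = true := ex3_b k8_pm_022 k9_pm_022

theorem s17_pm_022 : ∃ t, chk3 f_pm_022 t 1 5 1 = true := ex3_a s16_pm_022 k10_pm_022

theorem s18_pm_022 : ∃ t, chk3 f_pm_022 t 8 34 1 = true := ex3_b k1_pm_022 k2_pm_022

theorem s19_pm_022 : ∃ t, chk3 f_pm_022 t 8 17 1 = true := ex3_b s18_pm_022 k3_pm_022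

theorem s20_pm_022 : ∃ t, chk3 f_pm_022 t 4 17 1 = true := ex3_a s19_pm_022 k4_pm_022

theorem s21_pm_022 : ∃ t, chk3 f_pm_022 t 4 8 1 = true := ex3_b k0_pm_022 s20_pm_022

theorem s22_pm_022 : ∃ t, chk3 f_pm_022 t 4 4 1 = true := ex3_b s21_pm_022 k5_pm_022

theorem s23_pm_022 : ∃ t, chk3 f_pm_022 t 2 4 1 = true := ex3_a s22_pm_022 k6_pm_022

theorem s24_pm_022 : ∃ t, chk3 f_pm_022 t 1 4 1 = true := ex3_a s23_pm_022 k7_pm_022

theorem s25_pm_022 : ∃ t, chk3 f_pm_022 t 1 2 1 = true := ex3_b s24_pm_022 s17_pm_022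

theorem s26_pm_022 : ∃ t, chk3 f_pm_022 t 1 1 1 = true := ex3_b s25_pm_022 s15_pm_022

theorem c_pm_022 : CertB 0 536870912 1073741824 536870912 1020054732 13421774 3 eng mog cd1q0 cd3q2 pd2 true true false .pp 0 2 2
    ndB1q0 ndB3q2 pcB2 Cut.none Ext.none :=
  certB1 (fam := true) (s1 := true) (s2 := false) (a := 0) (b := 2) (c := 2) (cn := .pp) (n1 := ndB1q0) (n2 := ndB3q2) (pc := pcB2) (cut := Cut.none) (xt := Ext.none) (P1 := 0) (W1 := 536870912) (P2 := 1073741824) (W2 := 536870912) (P3 := 1020054732) (W3 := 13421774) (N0 := 3) (En := eng) (mo := mog) (C1 := cd1q0) (C2 := cd3q2) (C3 := pd2)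
    rfl (fun _ => rfl) s26_pm_022

noncomputable def f_pm_023 : ℕ → ℕ → ℕ → ℕ → Bool := onCell 1610612736 536870912 1073741824 536870912 1020054732 13421774
    (rowB 3 eng mog cd1q0 cd3q2 pd3 2 true true false .up 0 2 3 (qsf 0 536870912 1073741824 536870912 3) ndB1q0 ndB3q2 pcB3 Cut.none Ext.none)

def k0_pm_023 : ∃ t, chk3 f_pm_023 t 1 1 1 = true :=
  ⟨(a (b (a (b (a (b (c (l 15892208) (l 16063976)) (c (l 15990360) (l 16212832))) (c (b (l 15841328) (l 15936664)) (b (l 15926008) (l 16093816)))) (a (b (c (l 16111536) (l 16263672)) (c (l 16168184) (l 16140248))) (b (l 15999984) (l 16066152)))) (b (a (b (l 2) (l 312020985655)) (l 2)) (a (b (l 16033520) (l 16102576)) (b (l 16001432) (l 16074792))))) (a (b (a (b (c (l 16141464) (l 15849632)) (c (l 15733256) (l 15536104))) (b (l 15949312) (c (l 16086672) (l 15960224)))) (a (b (c (a (l 15587544) (l 15796896)) (a (l 15425192) (l 15616920))) (c (a (b (l 15535720) (l 15347440)) (l 15421296)) (a (b (l 15318808) (l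 15101288)) (l 15246496)))) (b (a (l 15545288) (l 15834248)) (c (a (l 15592072) (l 15733496)) (a (l 15485592) (l 15591272)))))) (b (a (b (l 16145176) (l 16049440)) (b (l 16123232) (l 16142304))) (a (b (l 15745624) (c (l 15833608) (l 15649040))) (b (l 16069576) (l 15886856)))))) (b (a (b (l 2) (a (b (l 2) (l 16089376)) (l 2))) (l 2)) (a (a (b (b (l 16144936) (l 16171120)) (b (l 16117064) (l 15984336))) (b (a (l 16205064) (l 16081744)) (a (b (l 16129064) (l 16028504)) (l 16049048)))) (b (a (a (b (l 2) (l 16192192)) (l 2)) (l 2)) (a (a (l 16110496) (l 16147368)) (l 4)))))), by decide +kernel⟩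

theorem c_pm_023 : CertB 0 536870912 1073741824 536870912 1020054732 13421774 3 eng mog cd1q0 cd3q2 pd3 true true false .up 0 2 3
    ndB1q0 ndB3q2 pcB3 Cut.none Ext.none :=
  certB2 (fam := true) (s1 := true) (s2 := false) (a := 0) (b := 2) (c := 3) (cn := .up) (n1 := ndB1q0) (n2 := ndB3q2) (pc := pcB3) (cut := Cut.none) (xt := Ext.none) (P1 := 0) (W1 := 536870912) (P2 := 1073741824) (W2 := 536870912) (P3 := 1020054732) (W3 := 13421774) (N0 := 3) (En := eng) (mo := mog) (C1 := cd1q0) (C2 := cd3q2) (C3 := pd3)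
    rfl (fun _ => rfl) k0_pm_023

noncomputable def f_pm_033 : ℕ → ℕ → ℕ → ℕ → Bool := onCell 1610612736 536870912 0 1230186008 1020054732 13421774
    (rowB 3 eng mog cd1q0 cd3q3 pd3 2 true true false .pnn 0 3 3 (qsf 0 536870912 0 1230186008 3) ndB1q0 ndB3q3 pcB3 Cut.none Ext.none)

def k0_pm_033 : ∃ t, chk3 f_pm_033 t 2 1 1 = true :=
  ⟨(b (l 1) (b (b (l 1) (a (l 1) (a (l 1) (b (l 1) (a (l 1) (a (l 1) (l 14653184))))))) (b (a (l 1) (a (b (a (l 1) (b (l 1) (l 198134025495))) (a (b (l 1) (c (l 14757152) (l 14584368))) (b (l 179343788567) (l 14842712)))) (b (a (b (l 14617320) (l 14735168)) (b (l 14771120) (l 14896600))) (a (b (l 14868248) (l 15012856)) (b (l 15031688) (l 15172496)))))) (a (a (b (l 1) (a (b (l 1) (a (b (l 1) (c (l 162701058391) (a (l 215850764743) (l 14438864)))) (c (b (l 280812663287) (l 14798984)) (b (l 313561354935) (l 14536968))))) (b (c (a (l 278665054167) (l 128341221607)) (a (b (l 1) (l 14395088)) (l 164848273511))) (c (a (l 14760432)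 (l 14934416)) (a (b (l 14544976) (l 14641816)) (l 14698000)))))) (b (a (b (l 1) (c (l 237325889847) (a (l 298528962039) (l 14547704)))) (b (c (l 14571808) (l 234641169687)) (c (l 14894616) (l 14695496)))) (b (a (c (l 14721456) (a (l 14614984) (l 14717632))) (c (l 15062816) (l 14869720))) (a (c (l 15067152) (l 14852184)) (l 14999320))))) (a (b (a (b (c (l 14904096) (l 14729392)) (l 14896208)) (b (l 14995664) (l 15155160))) (b (a (l 15148640) (l 15319896)) (a (l 15322304) (l 15488424)))) (b (b (a (l 15163792) (l 15320968)) (l 15230848)) (b (l 15451456) (l 15674128)))))))), by decide +kernel⟩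

def k1_pm_033 : ∃ t, chk3 f_pm_033 t 3 1 1 = true :=
  ⟨(a (b (l 1) (b (a (b (l 1) (a (b (l 14589264) (l 14781096)) (b (l 14752816) (l 14956520)))) (b (l 4) (a (b (l 4) (l 15126576)) (l 4)))) (b (a (b (a (l 15010464) (l 15188224)) (a (l 15035760) (l 15437744))) (a (b (l 15359024) (l 15604440)) (b (l 4) (l 15754776)))) (a (b (a (l 15419864) (l 15698664)) (a (l 15838544) (l 15965680))) (a (b (l 15854368) (l 16101280)) (b (l 15998248) (l 16233864))))))) (b (b (l 4) (l 4)) (b (l 4) (a (b (l 4) (a (b (l 4) (l 16325976)) (l 4))) (l 4))))), by decide +kernel⟩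

theorem s2_pm_033 : ∃ t, chk3 f_pm_033 t 1 1 1 = true := ex3_a k0_pm_033 k1_pm_033

theorem c_pm_033 : CertB 0 536870912 0 1230186008 1020054732 13421774 3 eng mog cd1q0 cd3q3 pd3 true true false .pnn 0 3 3
    ndB1q0 ndB3q3 pcB3 Cut.none Ext.none :=
  certB2 (fam := true) (s1 := true) (s2 := false) (a := 0) (b := 3) (c := 3) (cn := .pnn) (n1 := ndB1q0) (n2 := ndB3q3) (pc := pcB3) (cut := Cut.none) (xt := Ext.none) (P1 := 0) (W1 := 536870912) (P2 := 0) (W2 := 1230186008) (P3 := 1020054732) (W3 := 13421774) (N0 := 3) (En := eng) (mo := mog) (C1 := cd1q0) (C2 := cd3q3) (C3 := pd3)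
    rfl (fun _ => rfl) s2_pm_033

noncomputable def f_pm_101 : ℕ → ℕ → ℕ → ℕ → Bool := onCell 536870912 536870912 0 536870912 1020054732 13421774
    (rowB 3 eng mog cd1q1 cd3q0 pd1 2 true true false .npn 1 0 1 (qsf 536870912 536870912 0 536870912 1) ndB1q1 ndB3q0 pcB1 Cut.none Ext.none)

def k0_pm_101 : ∃ t, chk3 f_pm_101 t 1 1 1 = true :=
  ⟨(a (l 3) (b (l 3) (l 3))), by decide +kernel⟩

theorem c_pm_101 : CertB 536870912 536870912 0 536870912 1020054732 13421774 3 eng mog cd1q1 cd3q0 pd1 true true false .npn 1 0 1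
    ndB1q1 ndB3q0 pcB1 Cut.none Ext.none :=
  certB2 (fam := true) (s1 := true) (s2 := false) (a := 1) (b := 0) (c := 1) (cn := .npn) (n1 := ndB1q1) (n2 := ndB3q0) (pc := pcB1) (cut := Cut.none) (xt := Ext.none) (P1 := 536870912) (W1 := 536870912) (P2 := 0) (W2 := 536870912) (P3 := 1020054732) (W3 := 13421774) (N0 := 3) (En := eng) (mo := mog) (C1 := cd1q1) (C2 := cd3q0) (C3 := pd1)
    rfl (fun _ => rfl) k0_pm_101

noncomputable def xt_pm_102 : Ext := extD3 3 ⟨4, 1, 1, 5, 99, 20, 33, 40, 51, 125, 1, 32⟩ eng cd1q1 cd3q0 pd2 true true false .npp 1 0 2 rfl ndB1q1 ndB3q0 pcB2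

noncomputable def f_pm_102 : ℕ → ℕ → ℕ → ℕ → Bool := onCell 536870912 536870912 1073741824 536870912 1020054732 13421774
    (rowB 3 eng mog cd1q1 cd3q0 pd2 1 true true false .npp 1 0 2 (qsf 536870912 536870912 0 536870912 2) ndB1q1 ndB3q0 pcB2 Cut.none xt_pm_102)

def k0_pm_102 : ∃ t, chk3 f_pm_102 t 2 1 1 = true :=
  ⟨(b (b (b (b (l 3) (a (a (a (b (l 15390096) (l 2)) (b (l 15360952) (b (l 15334088) (l 15316096)))) (b (a (l 15345800) (l 15344408)) (b (a (l 15311824) (l 15303656)) (a (l 15287936) (l 15274688))))) (a (b (l 3) (b (a (l 15309520) (l 15328600)) (a (l 15275824) (l 15290880)))) (b (l 3) (b (a (l 15360960) (l 15406336)) (a (l 15319512) (l 15361408))))))) (a (b (a (b (a (l 2) (l 15291344)) (l 2)) (b (a (l 15252344) (l 15228192)) (a (l 15212912) (l 15175272)))) (a (l 2) (c (l 15180744) (l 15097232)))) (b (a (b (a (l 15218688) (l 15223624)) (a (l 15152264) (l 15143752))) (b (a (l 15242744) (l 15275792)) (a (l 15149584) (l 15169584)))) (a (c (a (l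 15108552) (l 15078832)) (l 15023704)) (c (b (l 15103872) (l 14999568)) (l 15010936)))))) (a (b (b (a (l 2) (b (l 15098768) (l 2))) (l 2)) (l 2)) (b (b (a (b (l 14981408) (c (l 33919434839) (l 14912080))) (b (l 14925112) (b (l 14873200) (b (l 14827160) (l 14831568))))) (a (a (l 14921144) (l 14847016)) (c (l 14769424) (l 14762168)))) (a (c (l 14686744) (l 14800496)) (a (l 14669208) (l 14444440)))))) (b (a (l 2) (a (l 2) (b (b (l 35529174151) (l 2)) (l 2)))) (l 2))), by decide +kernel⟩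

def k1_pm_102 : ∃ t, chk3 f_pm_102 t 3 4 1 = true :=
  ⟨(b (b (l 3) (b (a (l 3) (l 3)) (a (a (b (a (l 15464432) (l 15534944)) (a (l 15416280) (l 15483824))) (b (a (l 15617504) (l 15711704)) (a (l 15563696) (l 15655480)))) (a (b (a (l 15816888) (l 15931968)) (a (l 15758520) (l 15871720))) (a (b (l 16055240) (l 137925520122036271)) (a (b (l 16152064) (l 16089680)) (b (a (l 16200896) (b (l 3) (l 16217448))) (b (a (l 16156840) (l 16190144)) (l 16141456))))))))) (a (b (a (b (a (l 15322480) (l 15298568)) (a (l 15203560) (l 15251256))) (b (a (c (l 15469696) (l 15440808)) (b (l 15581976) (l 15499704))) (a (l 15312400) (b (l 15420288) (l 15351952))))) (a (c (b (l 15142192) (l 15036008)) (a (l 15040104) (l 15078248))) (c (b (l 15235984) (l 15108704)) (a (l 15130824) (l 15197480))))) (b (a (b (a (b (l 15681568) (l 15593472)) (c (l 15743632) (l 15744504))) (a (b (l 15508328) (l 15436200)) (b (l 15607216) (l 15532328)))) (b (a (l 135351425687568431) (a (l 138021658580828271)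 (b (l 16065616) (l 15960512)))) (a (l 134601558388588591) (b (a (l 15802416) (l 15863272)) (l 15755216))))) (a (a (b (l 15338600) (l 15208432)) (c (l 15350376) (l 15370760))) (a (b (l 15531176) (l 15386200)) (b (a (l 15614096) (l 15672704)) (a (l 15464392) (l 15520096)))))))), by decide +kernel⟩

def k2_pm_102 : ∃ t, chk3 f_pm_102 t 3 5 1 = true :=
  ⟨(a (b (b (a (b (c (l 14911936) (l 14926072)) (b (l 14860784) (b (l 14806136) (l 14804672)))) (b (a (l 14971856) (l 15018704)) (b (l 14909616) (c (l 14829888) (l 14878216))))) (a (a (l 14720408) (l 14710280)) (a (l 14716192) (l 14738000)))) (a (b (a (l 14587432) (l 14554792)) (a (l 14477448) (l 14421264))) (b (a (l 14538888) (l 14539712)) (a (l 14381456) (l 14357992))))) (b (b (a (b (a (l 15079776) (l 15154400)) (b (a (l 14984904) (l 15053064)) (a (l 14921984) (c (l 14940120) (l 15032264))))) (b (a (l 15241696) (c (l 15295224) (l 15387392))) (b (a (l 15134472) (l 15228400)) (a (b (l 15081248) (l 15045680)) (b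 (l 15172544) (l 15135272)))))) (a (a (l 14775456) (l 14828096)) (a (c (l 14828216) (l 14963552)) (c (l 14898024) (l 15055512))))) (a (b (a (l 14557088) (l 14588880)) (a (l 14349208) (l 14353632))) (b (a (c (l 14551880) (l 14719248)) (c (l 14599160) (l 14785216))) (a (l 14371200) (l 14400872)))))), by decide +kernel⟩

def k3_pm_102 : ∃ t, chk3 f_pm_102 t 3 3 1 = true :=
  ⟨(b (a (b (a (b (a (l 14388936) (l 14305312)) (l 14176368)) (b (a (l 14236952) (l 14184344)) (a (l 14109264) (l 14028960)))) (a (a (l 2) (l 14103680)) (a (l 13964024) (l 13840392)))) (a (b (b (a (l 14147336) (l 14125312)) (a (l 13964416) (l 13915088))) (a (b (l 13803360) (l 13666456)) (b (l 13725648) (l 13559512)))) (b (a (b (l 14117224) (l 13880000)) (b (l 14121424) (l 13857480))) (a (b (l 13662520) (l 13467592)) (b (l 13612416) (l 13389368)))))) (a (a (l 2) (b (a (l 2) (l 13679848)) (l 2))) (a (b (a (l 13511864) (l 13360048)) (a (l 2) (l 13195120))) (b (a (l 12972520) (b (l 13191256) (l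 13020832))) (a (l 13000120) (l 12823752)))))), by decide +kernel⟩

theorem s4_pm_102 : ∃ t, chk3 f_pm_102 t 3 2 1 = true := ex3_b k1_pm_102 k2_pm_102

theorem s5_pm_102 : ∃ t, chk3 f_pm_102 t 3 1 1 = true := ex3_b s4_pm_102 k3_pm_102

theorem s6_pm_102 : ∃ t, chk3 f_pm_102 t 1 1 1 = true := ex3_a k0_pm_102 s5_pm_102

theorem c_pm_102 : CertB 536870912 536870912 0 536870912 1020054732 13421774 3 eng mog cd1q1 cd3q0 pd2 true true false .npp 1 0 2
    ndB1q1 ndB3q0 pcB2 Cut.none xt_pm_102 :=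
  certB1 (fam := true) (s1 := true) (s2 := false) (a := 1) (b := 0) (c := 2) (cn := .npp) (n1 := ndB1q1) (n2 := ndB3q0) (pc := pcB2) (cut := Cut.none) (xt := xt_pm_102) (P1 := 536870912) (W1 := 536870912) (P2 := 0) (W2 := 536870912) (P3 := 1020054732) (W3 := 13421774) (N0 := 3) (En := eng) (mo := mog) (C1 := cd1q1) (C2 := cd3q0) (C3 := pd2)
    rfl (fun _ => rfl) s6_pm_102

noncomputable def f_pm_112 : ℕ → ℕ → ℕ → ℕ → Bool := onCell 536870912 536870912 1073741824 536870912 1020054732 13421774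
    (rowB 3 eng mog cd1q1 cd3q1 pd2 1 true true false .dn 1 1 2 (qsf 536870912 536870912 536870912 536870912 2) ndB1q1 ndB3q1 pcB2 Cut.none Ext.none)

def k0_pm_112 : ∃ t, chk3 f_pm_112 t 2 1 1 = true :=
  ⟨(b (b (b (b (l 3) (a (a (c (b (l 15396720) (b (l 15532328) (l 15611168))) (b (l 15860456) (b (l 15921616) (l 16066352)))) (b (l 1) (b (l 1) (c (l 15693624) (l 16087792))))) (l 1))) (a (b (c (a (b (l 15582904) (l 15655144)) (b (l 15681760) (l 15725240))) (a (b (l 15964392) (l 16053944)) (b (l 16085552) (l 16079632)))) (c (a (l 15678728) (l 15700896)) (a (l 16097928) (l 16118984)))) (a (a (b (l 1) (l 565893419527)) (l 1)) (l 1)))) (a (b (c (b (b (a (l 15730944) (l 15790024)) (a (b (l 15741120) (l 15743088)) (l 15586880))) (a (l 15764840) (l 15817496))) (b (a (b (l 16133392) (l 16152296)) (b (l 16151656) (l 16168832))) (a (l 16174376) (l 16188560)))) (a (c (l 15620952) (l 15990712)) (c (c (l 15765056) (l 15946392)) (l 16127344)))) (a (b (b (b (c (l 15931928)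 (l 16229368)) (c (b (l 15937720) (l 15937224)) (l 16244472))) (c (l 15952832) (l 16261208))) (c (l 15984176) (l 16124416))) (b (a (b (l 1) (l 16142224)) (l 1)) (c (l 16179712) (l 16042864)))))) (b (a (c (b (a (l 15821728) (l 15860656)) (a (l 15647232) (l 15801592))) (b (a (l 15806648) (l 15982592)) (a (b (l 15702656) (l 15542056)) (l 15719048)))) (c (b (a (l 15978128) (l 16139000)) (a (l 15902800) (l 16063568))) (b (a (l 16004880) (l 15874096)) (a (l 15778280) (l 15739040))))) (a (b (a (c (l 15651208) (l 15257152)) (c (l 15667880) (l 15453840))) (a (c (l 15372416) (l 14757176)) (c (l 15480840) (l 15154792)))) (b (a (c (l 15758984) (l 15523184)) (c (l 15906320) (l 15510120))) (a (c (l 15564096) (l 15252240)) (c (l 15664984) (l 15262640))))))), by decide +kernel⟩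

def k1_pm_112 : ∃ t, chk3 f_pm_112 t 3 1 1 = true :=
  ⟨(b (b (l 1) (a (b (l 1) (a (c (l 16086616) (l 15810760)) (l 1))) (l 1))) (b (a (b (a (c (l 16036624) (l 184715067287)) (c (l 383357392119) (l 15448784))) (a (c (l 16034448) (l 15599368)) (c (l 15783656) (l 15419200)))) (a (b (l 1) (c (l 15425088) (l 15137192))) (l 1))) (a (a (b (c (l 15824392) (l 15414144)) (c (l 15582448) (l 15187216))) (b (c (l 15605640) (l 15230224)) (c (l 15397536) (l 15020688)))) (a (b (c (l 15268376) (l 14954952)) (c (l 15087096) (l 14754632))) (b (c (l 14827384) (l 14589096)) (c (l 14655336) (l 14384360))))))), by decide +kernel⟩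

theorem s2_pm_112 : ∃ t, chk3 f_pm_112 t 1 1 1 = true := ex3_a k0_pm_112 k1_pm_112

theorem c_pm_112 : CertB 536870912 536870912 536870912 536870912 1020054732 13421774 3 eng mog cd1q1 cd3q1 pd2 true true false .dn 1 1 2
    ndB1q1 ndB3q1 pcB2 Cut.none Ext.none :=
  certB1 (fam := true) (s1 := true) (s2 := false) (a := 1) (b := 1) (c := 2) (cn := .dn) (n1 := ndB1q1) (n2 := ndB3q1) (pc := pcB2) (cut := Cut.none) (xt := Ext.none) (P1 := 536870912) (W1 := 536870912) (P2 := 536870912) (W2 := 536870912) (P3 := 1020054732) (W3 := 13421774) (N0 := 3) (En := eng) (mo := mog) (C1 := cd1q1) (C2 := cd3q1) (C3 := pd2)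
    rfl (fun _ => rfl) s2_pm_112

noncomputable def f_pm_113 : ℕ → ℕ → ℕ → ℕ → Bool := onCell 536870912 536870912 1610612736 536870912 1020054732 13421774
    (rowB 3 eng mog cd1q1 cd3q1 pd3 1 true true false .nn 1 1 3 (qsf 536870912 536870912 536870912 536870912 3) ndB1q1 ndB3q1 pcB3 Cut.none Ext.none)

def k0_pm_113 : ∃ t, chk3 f_pm_113 t 1 1 1 = true :=
  ⟨(a (b (b (a (a (b (c (l 13983584) (l 13858552)) (c (l 190146146999) (l 13347784))) (b (c (l 14631872) (l 14264352)) (c (l 14096848) (l 13767720)))) (b (a (c (l 15033864) (l 14614368)) (c (l 15310408) (l 14893328))) (a (c (l 14506520) (l 14148432)) (c (l 14844680) (l 14476464))))) (a (b (a (l 2) (c (l 13473280) (l 13252640))) (l 2)) (b (a (c (l 13926040) (l 13652544)) (c (l 14322256) (l 14018424))) (a (c (l 13291344) (l 13127016)) (c (l 13737744) (l 13520320)))))) (a (l 2) (b (b (a (l 2) (a (l 2) (l 13150456))) (l 2)) (l 2)))) (b (b (a (a (b (c (l 15497008) (l 15099376)) (c (l 15102704) (l 14736696)))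 (b (c (l 15585184) (l 15232568)) (l 14950688))) (a (b (l 15196208) (l 15107136)) (b (l 15187152) (l 15080960)))) (a (b (a (l 14289520) (l 14751688)) (a (l 13813224) (l 14306600))) (b (a (l 14918064) (b (l 15065688) (l 14957320))) (a (b (l 14705976) (l 14561816)) (b (l 14852352) (l 14745560)))))) (a (a (b (b (b (l 13621064) (l 13346488)) (b (l 13081672) (l 2))) (l 2)) (b (b (b (l 14052216) (l 13827416)) (b (l 13599608) (l 13373312))) (l 4))) (b (b (a (b (l 14413400) (l 14266432)) (b (l 14650008) (l 14578376))) (a (b (l 14125560) (l 4)) (b (l 14546592) (l 4)))) (l 4))))), by decide +kernel⟩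

theorem c_pm_113 : CertB 536870912 536870912 536870912 536870912 1020054732 13421774 3 eng mog cd1q1 cd3q1 pd3 true true false .nn 1 1 3
    ndB1q1 ndB3q1 pcB3 Cut.none Ext.none :=
  certB1 (fam := true) (s1 := true) (s2 := false) (a := 1) (b := 1) (c := 3) (cn := .nn) (n1 := ndB1q1) (n2 := ndB3q1) (pc := pcB3) (cut := Cut.none) (xt := Ext.none) (P1 := 536870912) (W1 := 536870912) (P2 := 536870912) (W2 := 536870912) (P3 := 1020054732) (W3 := 13421774) (N0 := 3) (En := eng) (mo := mog) (C1 := cd1q1) (C2 := cd3q1) (C3 := pd3)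
    rfl (fun _ => rfl) k0_pm_113

noncomputable def f_pm_123 : ℕ → ℕ → ℕ → ℕ → Bool := onCell 1610612736 536870912 1073741824 536870912 1020054732 13421774
    (rowB 3 eng mog cd1q1 cd3q2 pd3 2 true true false .npn 1 2 3 (qsf 536870912 536870912 1073741824 536870912 3) ndB1q1 ndB3q2 pcB3 Cut.none Ext.none)

def k0_pm_123 : ∃ t, chk3 f_pm_123 t 2 1 1 = true :=
  ⟨(b (a (b (a (b (c (b (l 16116800) (l 16087464)) (b (l 16203000) (l 16221440))) (c (b (l 16069416) (l 1)) (l 16081400))) (b (c (b (l 16134848) (l 16107760)) (b (l 16041896) (l 16114464))) (c (b (l 16067968) (l 16038328)) (l 16042144)))) (a (l 1) (b (c (l 16015128) (l 16190128)) (l 1)))) (a (b (b (a (b (l 15916504) (l 16030416)) (b (l 15828776) (l 15958720))) (c (b (l 16048976) (l 16047616)) (l 15991760))) (b (c (l 15991056) (l 16157336)) (c (l 15952536) (l 16168384)))) (b (b (a (c (l 15873560) (l 15622872)) (b (l 15520184) (l 15832344))) (c (b (l 15937608) (l 15970952)) (l 15769808))) (b (c (l 15989688)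 (l 16087232)) (c (l 15913176) (l 16143752)))))) (a (l 1) (b (a (l 1) (b (c (l 15872280) (l 16133160)) (l 1))) (l 1)))), by decide +kernel⟩

def k1_pm_123 : ∃ t, chk3 f_pm_123 t 3 2 1 = true :=
  ⟨(a (b (b (a (b (a (l 15434104) (l 15388136)) (a (l 15786008) (l 15758424))) (b (a (b (l 15526800) (l 15630184)) (c (l 15647384) (l 15569512))) (a (l 15757584) (l 15794648)))) (b (a (a (l 15885352) (l 15870720)) (a (l 15881408) (l 15926608))) (a (l 15883464) (l 15836400)))) (a (b (c (l 15950632) (l 16060168)) (c (l 15902832) (l 16123424))) (b (c (l 15983744) (l 16109608)) (c (l 15922096) (l 16165680))))) (b (a (b (a (b (l 15710352) (l 15885824)) (b (l 15937472) (l 16055136))) (a (b (l 16018888) (l 16103120)) (b (l 16175696) (l 16248784)))) (a (b (a (b (l 16242776) (l 16252304)) (b (l 16559264) (l 16421152))) (a (b (l 16349320) (l 16398952)) (b (l 16489536) (l 16515504)))) (b (b (a (a (l 16651800) (b (l 16602944) (l 16647048))) (a (l 16461008) (l 4))) (a (a (l 16554880)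 (l 16632408)) (a (l 16658816) (l 4)))) (a (b (l 16580520) (l 16578792)) (l 4))))) (a (b (a (l 16008832) (a (l 16154144) (l 16131776))) (a (c (l 15964368) (l 16237704)) (a (l 16014744) (l 16095600)))) (b (a (a (c (l 16267480) (l 16453640)) (c (l 16346160) (l 16522560))) (a (c (l 16422064) (l 16593208)) (l 4))) (a (c (l 15907456) (l 16162160)) (l 4)))))), by decide +kernel⟩

def k2_pm_123 : ∃ t, chk3 f_pm_123 t 3 3 1 = true :=
  ⟨(a (b (a (b (c (l 15815888) (l 16112056)) (c (l 15772048) (l 16077216))) (a (b (l 15783000) (l 15711000)) (b (c (l 15790888) (l 16111592)) (c (l 15652616) (l 16037728))))) (a (l 1) (a (l 1) (b (l 314637507783) (l 1))))) (b (b (a (a (c (l 15812744) (l 16134672)) (c (l 15865536) (l 16182512))) (a (a (l 15985224) (l 4)) (l 4))) (a (a (c (l 15709952) (l 16059120)) (c (l 15738160) (l 16086696))) (l 4))) (a (a (b (l 15603328) (l 1)) (b (c (l 15654776) (l 16019064)) (l 4))) (l 4)))), by decide +kernel⟩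

theorem s3_pm_123 : ∃ t, chk3 f_pm_123 t 3 1 1 = true := ex3_b k1_pm_123 k2_pm_123

theorem s4_pm_123 : ∃ t, chk3 f_pm_123 t 1 1 1 = true := ex3_a k0_pm_123 s3_pm_123

theorem c_pm_123 : CertB 536870912 536870912 1073741824 536870912 1020054732 13421774 3 eng mog cd1q1 cd3q2 pd3 true true false .npn 1 2 3
    ndB1q1 ndB3q2 pcB3 Cut.none Ext.none :=
  certB2 (fam := true) (s1 := true) (s2 := false) (a := 1) (b := 2) (c := 3) (cn := .npn) (n1 := ndB1q1) (n2 := ndB3q2) (pc := pcB3) (cut := Cut.none) (xt := Ext.none) (P1 := 536870912) (W1 := 536870912) (P2 := 1073741824) (W2 := 536870912) (P3 := 1020054732) (W3 := 13421774) (N0 := 3) (En := eng) (mo := mog) (C1 := cd1q1) (C2 := cd3q2) (C3 := pd3)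
    rfl (fun _ => rfl) s4_pm_123

noncomputable def f_pm_133 : ℕ → ℕ → ℕ → ℕ → Bool := onCell 536870912 536870912 0 1230186008 1020054732 13421774
    (rowB 3 eng mog cd1q1 cd3q3 pd3 0 true true false .dn 1 3 3 (qsf 536870912 536870912 0 1230186008 3) ndB1q1 ndB3q3 pcB3 Cut.none Ext.none)

def k0_pm_133 : ∃ t, chk3 f_pm_133 t 1 1 1 = true :=
  ⟨(b (l 2) (b (l 2) (l 4))), by decide +kernel⟩

theorem c_pm_133 : CertB 536870912 536870912 0 1230186008 1020054732 13421774 3 eng mog cd1q1 cd3q3 pd3 true true false .dn 1 3 3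
    ndB1q1 ndB3q3 pcB3 Cut.none Ext.none :=
  certB0 (fam := true) (s1 := true) (s2 := false) (a := 1) (b := 3) (c := 3) (cn := .dn) (n1 := ndB1q1) (n2 := ndB3q3) (pc := pcB3) (cut := Cut.none) (xt := Ext.none) (P1 := 536870912) (W1 := 536870912) (P2 := 0) (W2 := 1230186008) (P3 := 1020054732) (W3 := 13421774) (N0 := 3) (En := eng) (mo := mog) (C1 := cd1q1) (C2 := cd3q3) (C3 := pd3)
    rfl k0_pm_133

noncomputable def f_pm_202_a : ℕ → ℕ → ℕ → ℕ → Bool := onCell 0 536870912 0 536870912 1020054732 13421774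
    (rowB 3 eng mog cd1q2a cd3q0 pd2 0 true true false .pp 2 0 2 (qsf 0 536870912 0 536870912 2) ndB1q2a ndB3q0 pcB2 Cut.none Ext.none)

def k0_pm_202_a : ∃ t, chk3 f_pm_202_a t 2 2 1 = true :=
  ⟨(a (b (b (b (b (a (l 16018824) (l 16062816)) (b (l 15721096) (b (l 15827296) (a (l 15714424) (l 15826776))))) (b (b (a (l 15651632) (l 15765600)) (a (l 15576368) (l 15692512))) (b (a (l 15502144) (l 15620392)) (a (l 15420632) (l 15540784))))) (b (a (b (l 15284032) (l 15102984)) (b (l 15406664) (l 15228600))) (a (b (l 14924264) (c (l 14773128) (l 14754240))) (l 14965688)))) (b (b (a (a (b (b (a (l 14665728) (l 14623288)) (l 14645408)) (l 14684456)) (b (b (l 14650528) (l 14580816)) (b (a (l 14545984) (l 14513352)) (l 14527592)))) (b (l 14708768) (l 14551672))) (a (l 14697344) (b (a (b (a (l 14428480) (l 14410256)) (l 14410568)) (l 14418192)) (b (a (l 14438000) (l 14323872)) (l 14338968))))) (b (a (l 14882648) (b (l 14432224) (l 14523616))) (a (l 15121496) (l 14685768)))))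 (b (b (b (b (a (b (l 16256384) (l 16191752)) (b (l 16316352) (l 16252920))) (b (a (l 16084520) (l 16209616)) (a (b (l 16003752) (l 15950152)) (b (l 16129488) (l 16076280))))) (b (b (a (l 15890416) (a (l 15985584) (l 16048544))) (a (l 15819392) (l 15907032))) (a (b (l 15749248) (l 15671272)) (b (l 15880792) (l 15804312))))) (b (a (b (l 15538944) (l 15362840)) (b (l 15673256) (l 15498352))) (a (b (l 15188224) (l 15015752)) (b (l 15324344) (l 15151936))))) (b (b (a (l 14762712) (b (l 14981768) (l 14814432))) (a (l 14438056) (l 14570224))) (b (a (a (b (a (b (l 14211448) (l 14194920)) (l 14198776)) (b (l 14180752) (l 14217968))) (c (l 14186304) (l 14187144))) (l 14259312)) (a (b (c (l 13942712) (l 14176920)) (l 14267072)) (a (b (l 14019712) (a (l 13962456) (l 13912648))) (l 13997272))))))), by decide +kernel⟩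

def k1_pm_202_a : ∃ t, chk3 f_pm_202_a t 2 3 1 = true :=
  ⟨(b (b (a (b (a (l 15403104) (l 14944512)) (a (l 15429648) (l 15241896))) (a (b (l 14440720) (l 14712328)) (b (a (l 14046520) (b (a (l 13830624) (l 13810688)) (l 13821368))) (l 14132528)))) (a (b (a (l 15672816) (b (l 15458592) (l 15544944))) (a (l 4) (l 15569672))) (a (b (l 15020272) (a (l 15429768) (l 15203552))) (b (l 14411608) (l 14601168))))) (b (a (l 2) (a (l 2) (b (a (l 2) (l 14899392)) (l 2)))) (l 2))), by decide +kernel⟩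

def k2_pm_202_a : ∃ t, chk3 f_pm_202_a t 6 2 1 = true :=
  ⟨(b (b (b (b (a (a (l 16310792) (l 16345584)) (a (l 16375352) (l 16398328))) (b (a (l 16202808) (a (l 16406760) (l 16451056))) (a (b (l 16248872) (l 16070024)) (b (l 16266816) (a (l 16274208) (l 16318552)))))) (b (a (b (a (l 16109272) (l 16166392)) (a (l 16041976) (l 16100272))) (b (a (l 16197424) (l 16242592)) (a (l 16153528) (l 16200064)))) (a (b (a (l 15975360) (l 16034768)) (a (l 15899984) (l 15960152))) (b (a (l 16089216) (l 16137048)) (a (l 16015400) (l 16064088)))))) (b (a (b (a (l 15769720) (l 15830312)) (l 15584808)) (b (a (l 15885960) (l 15935056)) (a (l 15712080) (l 15761360)))) (a (b (l 15452752) (l 15279728)) (b (a (l 15537912) (l 15586984)) (l 15389512))))) (b (b (a (b (l 15108328) (l 14939168)) (b (l 15216424) (l 15044944))) (a (b (l 14772848) (l 14609904)) (b (l 14875688) (l 14709224)))) (a (b (l 14499016) (l 14073864)) (b (b (l 14546112) (l 14386864)) (a (l 14138808) (l 14173168)))))),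 by decide +kernel⟩

def k3_pm_202_a : ∃ t, chk3 f_pm_202_a t 7 2 1 = true :=
  ⟨(b (b (b (b (a (a (b (l 16535680) (l 16549408)) (a (l 16515584) (l 16545424))) (a (b (a (l 16661400) (l 16676104)) (l 16563368)) (a (b (b (l 16717232) (l 16700416)) (l 16623632)) (b (a (b (l 16722856) (l 16694568)) (b (l 16712408) (l 16646016))) (a (l 16618432) (l 16549704)))))) (b (a (a (l 16486544) (l 16511000)) (a (l 16521872) (a (l 16519424) (l 16512008)))) (a (b (a (l 16407016) (l 16431496)) (a (l 16354064) (l 16378536))) (a (b (l 16442416) (l 16389440)) (b (l 16436920) (a (l 16387056) (l 16379712))))))) (b (a (b (a (l 16258024) (l 16283472)) (a (l 16237960) (l 16265056))) (b (a (b (l 16353032) (l 16323616)) (b (l 16348288) (l 16319904))) (a (l 16278880) (b (l 16291456) (l 16263048))))) (a (b (a (l 16176368) (l 16205032)) (a (l 16104344) (l 16134048))) (b (a (l 16220608) (l 16220336)) (a (l 16150792) (l 16151848)))))) (a (b (b (a (l 15975760) (l 16005968)) (a (l 15802264)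 (l 15832736))) (b (a (l 15627680) (l 15657992)) (a (l 15452816) (l 15482576)))) (b (a (b (l 16023320) (l 15850464)) (b (l 15983200) (l 15852848))) (a (b (l 15675656) (l 15499760)) (b (l 15678120) (l 15501896)))))) (b (a (b (b (l 15294112) (l 15120120)) (b (l 14947736) (l 14777560))) (b (a (b (l 15323584) (l 15147864)) (b (l 15325008) (l 15148240))) (a (l 14886816) (b (l 14972296) (l 14797864))))) (a (b (a (l 14516504) (l 14537432)) (a (l 14199008) (l 14214736))) (b (a (l 14546184) (l 14540608)) (a (l 14218504) (l 14208296)))))), by decide +kernel⟩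

def k4_pm_202_a : ∃ t, chk3 f_pm_202_a t 3 3 1 = true :=
  ⟨(b (a (b (a (b (a (l 13788904) (l 13817416)) (a (b (l 13652776) (l 13728168)) (a (l 13592240) (l 13571856)))) (b (l 13867000) (l 13601232))) (a (b (a (l 13920288) (b (l 13534160) (l 13639520))) (l 13861816)) (b (a (b (l 13420328) (l 13348000)) (l 13368752)) (a (b (l 13405024) (l 13538200)) (b (l 13226440) (l 13201880)))))) (b (a (b (a (l 13900280) (l 13909920)) (l 13625528)) (b (a (l 13907936) (l 13892416)) (a (l 13618248) (l 13596904)))) (a (b (l 13370712) (l 13123256)) (b (a (l 13352896) (l 13325360)) (a (l 13115088) (l 13081120)))))) (a (b (a (b (l 14140320) (l 2)) (b (a (l 13762552) (l 13352984)) (a (l 14094168) (l 13662104)))) (l 2)) (b (a (b (a (b (a (l 13045488) (l 13001160)) (l 13034768)) (l 12938528)) (a (l 13219624) (b (a (l 12864688) (l 12802808)) (l 12864208)))) (a (l 12817072) (b (l 12867296) (l 12686784)))) (a (b (a (l 13545208) (l 13069296)) (l 2)) (b (a (b (a (l 12685272) (l 12614952))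 (a (l 12772592) (l 12597496))) (l 12542304)) (a (l 12897976) (b (l 12491048) (a (l 12594784) (l 12432064))))))))), by decide +kernel⟩

theorem s5_pm_202_a : ∃ t, chk3 f_pm_202_a t 3 2 1 = true := ex3_a k2_pm_202_a k3_pm_202_a

theorem s6_pm_202_a : ∃ t, chk3 f_pm_202_a t 3 1 1 = true := ex3_b s5_pm_202_a k4_pm_202_a

theorem s7_pm_202_a : ∃ t, chk3 f_pm_202_a t 2 1 1 = true := ex3_b k0_pm_202_a k1_pm_202_a

theorem s8_pm_202_a : ∃ t, chk3 f_pm_202_a t 1 1 1 = true := ex3_a s7_pm_202_a s6_pm_202_a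

theorem c_pm_202_a : CertB 0 536870912 0 536870912 1020054732 13421774 3 eng mog cd1q2a cd3q0 pd2 true true false .pp 2 0 2
    ndB1q2a ndB3q0 pcB2 Cut.none Ext.none :=
  certB0 (fam := true) (s1 := true) (s2 := false) (a := 2) (b := 0) (c := 2) (cn := .pp) (n1 := ndB1q2a) (n2 := ndB3q0) (pc := pcB2) (cut := Cut.none) (xt := Ext.none) (P1 := 0) (W1 := 536870912) (P2 := 0) (W2 := 536870912) (P3 := 1020054732) (W3 := 13421774) (N0 := 3) (En := eng) (mo := mog) (C1 := cd1q2a) (C2 := cd3q0) (C3 := pd2)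
    rfl s8_pm_202_a

noncomputable def f_pm_202_b : ℕ → ℕ → ℕ → ℕ → Bool := onCell 1073741824 536870912 0 536870912 1020054732 13421774
    (rowB 3 eng mog cd1q2b cd3q0 pd2 2 true true false .pp 2 0 2 (qsf 1239849684 370763052 0 536870912 2) ndB1q2b ndB3q0 pcB2 Cut.none Ext.none)

def k0_pm_202_b : ∃ t, chk3 f_pm_202_b t 2 1 1 = true :=
  ⟨(b (a (l 1) (b (b (b (b (a (a (l 16030424) (l 15919456)) (a (l 15750608) (l 15586696))) (b (a (l 258803074855) (l 15572312)) (a (b (l 253971168135) (l 251286739143)) (b (l 15522824) (l 15489480))))) (b (a (b (a (l 1) (l 15691112)) (l 1)) (b (a (l 15533440) (l 15381488)) (a (l 15496256) (l 15345056)))) (a (l 1) (b (l 214242477399) (a (l 15414472) (l 15265640)))))) (a (l 1) (b (a (l 270076106775) (b (l 15184600) (l 15071256))) (a (l 1) (l 259874841191))))) (l 1))) (l 1)), by decide +kernel⟩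

def k1_pm_202_b : ∃ t, chk3 f_pm_202_b t 3 1 1 = true :=
  ⟨(b (a (b (a (b (b (b (l 15349832) (b (l 15266528) (l 15040592))) (b (b (l 15164088) (l 15129224)) (a (l 15143872) (l 15007040)))) (a (b (l 14994232) (a (l 14802960) (a (l 14744992) (l 14705792)))) (b (l 14869392) (a (b (l 14750192) (l 14710136)) (b (l 14731168) (l 14749160)))))) (b (b (b (l 15052736) (b (l 14983024) (l 14934512))) (b (l 14878584) (a (l 14876920) (l 14773840)))) (b (a (a (l 14796024) (l 14751240)) (l 14803232)) (a (l 14806752) (l 14937104))))) (a (b (a (a (l 1) (b (l 14678936) (l 1))) (b (a (l 14719616) (l 14771064)) (l 505225210999))) (l 1)) (b (a (b (l 14868024) (l 14886312)) (l 15058416)) (a (b (l 14862936) (l 1)) (l 112772539287))))) (b (b (a (b (b (l 14782096) (b (l 14748232) (a (l 14746464) (l 14684984)))) (b (a (l 14734384) (l 14796752)) (a (l 14784232) (l 14934272)))) (b (b (a (l 14689264) (l 14837744)) (b (l 14874808) (l 14956448))) (b (l 15075632) (l 15227888)))) (a (a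 (l 15022640) (l 15209904)) (a (l 15426592) (l 15666720)))) (a (b (a (l 15271112) (l 15513776)) (a (l 15347424) (l 15645736))) (b (a (l 15781552) (l 16068640)) (a (l 15956816) (l 16202040)))))) (a (l 1) (b (a (b (a (l 540122152599) (b (l 15634176) (l 15537504))) (l 1)) (b (a (l 15575608) (l 4)) (l 4))) (l 1)))), by decide +kernel⟩

theorem s2_pm_202_b : ∃ t, chk3 f_pm_202_b t 1 1 1 = true := ex3_a k0_pm_202_b k1_pm_202_b

theorem c_pm_202_b : CertB 1239849684 370763052 0 536870912 1020054732 13421774 3 eng mog cd1q2b cd3q0 pd2 true true false .pp 2 0 2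
    ndB1q2b ndB3q0 pcB2 Cut.none Ext.none :=
  certB2 (fam := true) (s1 := true) (s2 := false) (a := 2) (b := 0) (c := 2) (cn := .pp) (n1 := ndB1q2b) (n2 := ndB3q0) (pc := pcB2) (cut := Cut.none) (xt := Ext.none) (P1 := 1239849684) (W1 := 370763052) (P2 := 0) (W2 := 536870912) (P3 := 1020054732) (W3 := 13421774) (N0 := 3) (En := eng) (mo := mog) (C1 := cd1q2b) (C2 := cd3q0) (C3 := pd2)
    rfl (fun _ => rfl) s2_pm_202_b

noncomputable def f_pm_203_a : ℕ → ℕ → ℕ → ℕ → Bool := onCell 0 536870912 1610612736 536870912 1020054732 13421774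
    (rowB 3 eng mog cd1q2a cd3q0 pd3 1 true true false .up 2 0 3 (qsf 0 536870912 0 536870912 3) ndB1q2a ndB3q0 pcB3 Cut.none Ext.none)

def k0_pm_203_a : ∃ t, chk3 f_pm_203_a t 1 1 1 = true :=
  ⟨(b (b (a (b (a (l 4) (b (l 15439848) (l 15388248))) (l 4)) (b (a (b (l 15163184) (l 15090840)) (a (l 14760248) (b (l 14427408) (l 14367880)))) (a (b (l 15060688) (l 15068104)) (a (l 14703784) (l 2))))) (a (l 4) (a (l 2) (l 2)))) (l 2)), by decide +kernel⟩

theorem c_pm_203_a : CertB 0 536870912 0 536870912 1020054732 13421774 3 eng mog cd1q2a cd3q0 pd3 true true false .up 2 0 3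
    ndB1q2a ndB3q0 pcB3 Cut.none Ext.none :=
  certB1 (fam := true) (s1 := true) (s2 := false) (a := 2) (b := 0) (c := 3) (cn := .up) (n1 := ndB1q2a) (n2 := ndB3q0) (pc := pcB3) (cut := Cut.none) (xt := Ext.none) (P1 := 0) (W1 := 536870912) (P2 := 0) (W2 := 536870912) (P3 := 1020054732) (W3 := 13421774) (N0 := 3) (En := eng) (mo := mog) (C1 := cd1q2a) (C2 := cd3q0) (C3 := pd3)
    rfl (fun _ => rfl) k0_pm_203_a

noncomputable def f_pm_203_b : ℕ → ℕ → ℕ → ℕ → Bool := onCell 1610612736 536870912 0 536870912 1020054732 13421774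
    (rowB 3 eng mog cd1q2b cd3q0 pd3 2 true true false .up 2 0 3 (qsf 1239849684 370763052 0 536870912 3) ndB1q2b ndB3q0 pcB3 Cut.none Ext.none)

def k0_pm_203_b : ∃ t, chk3 f_pm_203_b t 1 1 1 = true :=
  ⟨(a (b (a (a (b (b (b (b (l 15114200) (b (l 15272600) (l 15380352))) (b (l 15485632) (l 15593200))) (l 15979584)) (b (l 16327408) (l 16375392))) (b (b (b (l 2) (b (l 2) (l 15539880))) (a (l 15921296) (l 15869800))) (l 4))) (b (b (l 2) (l 4)) (l 4))) (l 4)) (l 4)), by decide +kernel⟩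

theorem c_pm_203_b : CertB 1239849684 370763052 0 536870912 1020054732 13421774 3 eng mog cd1q2b cd3q0 pd3 true true false .up 2 0 3
    ndB1q2b ndB3q0 pcB3 Cut.none Ext.none :=
  certB2 (fam := true) (s1 := true) (s2 := false) (a := 2) (b := 0) (c := 3) (cn := .up) (n1 := ndB1q2b) (n2 := ndB3q0) (pc := pcB3) (cut := Cut.none) (xt := Ext.none) (P1 := 1239849684) (W1 := 370763052) (P2 := 0) (W2 := 536870912) (P3 := 1020054732) (W3 := 13421774) (N0 := 3) (En := eng) (mo := mog) (C1 := cd1q2b) (C2 := cd3q0) (C3 := pd3)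
    rfl (fun _ => rfl) k0_pm_203_b

noncomputable def f_pm_213_a : ℕ → ℕ → ℕ → ℕ → Bool := onCell 0 536870912 1610612736 536870912 1020054732 13421774
    (rowB 3 eng mog cd1q2a cd3q1 pd3 1 true true false .pnn 2 1 3 (qsf 0 536870912 536870912 536870912 3) ndB1q2a ndB3q1 pcB3 Cut.none Ext.none)

def k0_pm_213_a : ∃ t, chk3 f_pm_213_a t 1 1 1 = true :=
  ⟨(b (b (a (b (l 1) (l 4)) (b (a (l 1) (a (l 16030816) (b (l 15865760) (l 15779672)))) (a (b (l 16176184) (l 16173888)) (a (l 15927872) (l 15645440))))) (a (l 4) (b (a (l 4) (a (b (l 15875608) (l 4)) (b (l 15561536) (l 15507368)))) (l 4)))) (l 4)), by decide +kernel⟩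

theorem c_pm_213_a : CertB 0 536870912 536870912 536870912 1020054732 13421774 3 eng mog cd1q2a cd3q1 pd3 true true false .pnn 2 1 3
    ndB1q2a ndB3q1 pcB3 Cut.none Ext.none :=
  certB1 (fam := true) (s1 := true) (s2 := false) (a := 2) (b := 1) (c := 3) (cn := .pnn) (n1 := ndB1q2a) (n2 := ndB3q1) (pc := pcB3) (cut := Cut.none) (xt := Ext.none) (P1 := 0) (W1 := 536870912) (P2 := 536870912) (W2 := 536870912) (P3 := 1020054732) (W3 := 13421774) (N0 := 3) (En := eng) (mo := mog) (C1 := cd1q2a) (C2 := cd3q1) (C3 := pd3)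
    rfl (fun _ => rfl) k0_pm_213_a

noncomputable def f_pm_213_b : ℕ → ℕ → ℕ → ℕ → Bool := onCell 1239849684 370763052 536870912 536870912 1020054732 13421774
    (rowB 3 eng mog cd1q2b cd3q1 pd3 0 true true false .pnn 2 1 3 (qsf 1239849684 370763052 536870912 536870912 3) ndB1q2b ndB3q1 pcB3 Cut.none Ext.none)

def k0_pm_213_b : ∃ t, chk3 f_pm_213_b t 1 1 1 = true :=
  ⟨(l 4), by decide +kernel⟩

theorem c_pm_213_b : CertB 1239849684 370763052 536870912 536870912 1020054732 13421774 3 eng mog cd1q2b cd3q1 pd3 true true false .pnn 2 1 3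
    ndB1q2b ndB3q1 pcB3 Cut.none Ext.none :=
  certB0 (fam := true) (s1 := true) (s2 := false) (a := 2) (b := 1) (c := 3) (cn := .pnn) (n1 := ndB1q2b) (n2 := ndB3q1) (pc := pcB3) (cut := Cut.none) (xt := Ext.none) (P1 := 1239849684) (W1 := 370763052) (P2 := 536870912) (W2 := 536870912) (P3 := 1020054732) (W3 := 13421774) (N0 := 3) (En := eng) (mo := mog) (C1 := cd1q2b) (C2 := cd3q1) (C3 := pd3)
    rfl k0_pm_213_b

noncomputable def f_pm_303 : ℕ → ℕ → ℕ → ℕ → Bool := onCell 1610612736 536870912 0 536870912 1020054732 13421774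
    (rowB 3 eng mog cd1q3 cd3q0 pd3 0 true true false .npn 3 0 3 (qsf 1610612736 536870912 0 536870912 3) ndB1q3 ndB3q0 pcB3 Cut.none Ext.none)

def k0_pm_303 : ∃ t, chk3 f_pm_303 t 1 1 1 = true :=
  ⟨(a (b (b (a (a (b (b (b (l 14916664) (b (l 15080096) (l 15189880))) (b (l 15296432) (l 15251088))) (b (a (l 15614392) (l 15583440)) (l 4))) (b (b (b (l 14925744) (b (l 15079520) (l 15180392))) (b (a (l 15282720) (l 15260752)) (a (l 15366696) (l 4)))) (l 4))) (a (b (a (b (b (l 14920624) (l 4)) (l 4)) (l 4)) (l 4)) (l 4))) (l 4)) (l 4)) (l 4)), by decide +kernel⟩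

theorem c_pm_303 : CertB 1610612736 536870912 0 536870912 1020054732 13421774 3 eng mog cd1q3 cd3q0 pd3 true true false .npn 3 0 3
    ndB1q3 ndB3q0 pcB3 Cut.none Ext.none :=
  certB0 (fam := true) (s1 := true) (s2 := false) (a := 3) (b := 0) (c := 3) (cn := .npn) (n1 := ndB1q3) (n2 := ndB3q0) (pc := pcB3) (cut := Cut.none) (xt := Ext.none) (P1 := 1610612736) (W1 := 536870912) (P2 := 0) (W2 := 536870912) (P3 := 1020054732) (W3 := 13421774) (N0 := 3) (En := eng) (mo := mog) (C1 := cd1q3) (C2 := cd3q0) (C3 := pd3)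
    rfl k0_pm_303

noncomputable def f_pm_313 : ℕ → ℕ → ℕ → ℕ → Bool := onCell 1610612736 536870912 536870912 536870912 1020054732 13421774
    (rowB 3 eng mog cd1q3 cd3q1 pd3 0 true true false .dn 3 1 3 (qsf 1610612736 536870912 536870912 536870912 3) ndB1q3 ndB3q1 pcB3 Cut.none Ext.none)

def k0_pm_313 : ∃ t, chk3 f_pm_313 t 1 1 1 = true :=
  ⟨(l 4), by decide +kernel⟩

theorem c_pm_313 : CertB 1610612736 536870912 536870912 536870912 1020054732 13421774 3 eng mog cd1q3 cd3q1 pd3 true true false .dn 3 1 3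
    ndB1q3 ndB3q1 pcB3 Cut.none Ext.none :=
  certB0 (fam := true) (s1 := true) (s2 := false) (a := 3) (b := 1) (c := 3) (cn := .dn) (n1 := ndB1q3) (n2 := ndB3q1) (pc := pcB3) (cut := Cut.none) (xt := Ext.none) (P1 := 1610612736) (W1 := 536870912) (P2 := 536870912) (W2 := 536870912) (P3 := 1020054732) (W3 := 13421774) (N0 := 3) (En := eng) (mo := mog) (C1 := cd1q3) (C2 := cd3q1) (C3 := pd3)
    rfl k0_pm_313

noncomputable def f_mm_001 : ℕ → ℕ → ℕ → ℕ → Bool := onCell 0 536870912 0 536870912 1020054732 13421774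
    (rowB 3 eng mog cd1q0 cd3q0 pd1 0 true false false .up 0 0 1 (qsf 0 536870912 0 536870912 1) ndB1q0 ndB3q0 pcB1 Cut.none Ext.none)

def k0_mm_001 : ∃ t, chk3 f_mm_001 t 1 1 1 = true :=
  ⟨(l 4), by decide +kernel⟩

theorem c_mm_001 : CertB 0 536870912 0 536870912 1020054732 13421774 3 eng mog cd1q0 cd3q0 pd1 true false false .up 0 0 1
    ndB1q0 ndB3q0 pcB1 Cut.none Ext.none :=
  certB0 (fam := true) (s1 := false) (s2 := false) (a := 0) (b := 0) (c := 1) (cn := .up) (n1 := ndB1q0) (n2 := ndB3q0) (pc := pcB1) (cut := Cut.none) (xt := Ext.none) (P1 := 0) (W1 := 536870912) (P2 := 0) (W2 := 536870912) (P3 := 1020054732) (W3 := 13421774) (N0 := 3) (En := eng) (mo := mog) (C1 := cd1q0) (C2 := cd3q0) (C3 := pd1)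
    rfl k0_mm_001

noncomputable def f_mm_011 : ℕ → ℕ → ℕ → ℕ → Bool := onCell 0 536870912 536870912 536870912 1020054732 13421774
    (rowB 3 eng mog cd1q0 cd3q1 pd1 0 true false false .pnn 0 1 1 (qsf 0 536870912 536870912 536870912 1) ndB1q0 ndB3q1 pcB1 Cut.none Ext.none)

def k0_mm_011 : ∃ t, chk3 f_mm_011 t 1 1 1 = true :=
  ⟨(l 4), by decide +kernel⟩

theorem c_mm_011 : CertB 0 536870912 536870912 536870912 1020054732 13421774 3 eng mog cd1q0 cd3q1 pd1 true false false .pnn 0 1 1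
    ndB1q0 ndB3q1 pcB1 Cut.none Ext.none :=
  certB0 (fam := true) (s1 := false) (s2 := false) (a := 0) (b := 1) (c := 1) (cn := .pnn) (n1 := ndB1q0) (n2 := ndB3q1) (pc := pcB1) (cut := Cut.none) (xt := Ext.none) (P1 := 0) (W1 := 536870912) (P2 := 536870912) (W2 := 536870912) (P3 := 1020054732) (W3 := 13421774) (N0 := 3) (En := eng) (mo := mog) (C1 := cd1q0) (C2 := cd3q1) (C3 := pd1)
    rfl k0_mm_011

noncomputable def f_mm_012 : ℕ → ℕ → ℕ → ℕ → Bool := onCell 0 536870912 536870912 536870912 1020054732 13421774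
    (rowB 3 eng mog cd1q0 cd3q1 pd2 0 true false false .pnp 0 1 2 (qsf 0 536870912 536870912 536870912 2) ndB1q0 ndB3q1 pcB2 Cut.none Ext.none)

def k0_mm_012 : ∃ t, chk3 f_mm_012 t 1 1 1 = true :=
  ⟨(l 4), by decide +kernel⟩

theorem c_mm_012 : CertB 0 536870912 536870912 536870912 1020054732 13421774 3 eng mog cd1q0 cd3q1 pd2 true false false .pnp 0 1 2
    ndB1q0 ndB3q1 pcB2 Cut.none Ext.none :=
  certB0 (fam := true) (s1 := false) (s2 := false) (a := 0) (b := 1) (c := 2) (cn := .pnp) (n1 := ndB1q0) (n2 := ndB3q1) (pc := pcB2) (cut := Cut.none) (xt := Ext.none) (P1 := 0) (W1 := 536870912) (P2 := 536870912) (W2 := 536870912) (P3 := 1020054732) (W3 := 13421774) (N0 := 3) (En := eng) (mo := mog) (C1 := cd1q0) (C2 := cd3q1) (C3 := pd2)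
    rfl k0_mm_012

noncomputable def f_mm_022 : ℕ → ℕ → ℕ → ℕ → Bool := onCell 0 536870912 1073741824 536870912 1020054732 13421774
    (rowB 3 eng mog cd1q0 cd3q2 pd2 0 true false false .pp 0 2 2 (qsf 0 536870912 1073741824 536870912 2) ndB1q0 ndB3q2 pcB2 Cut.none Ext.none)

def k0_mm_022 : ∃ t, chk3 f_mm_022 t 1 1 1 = true :=
  ⟨(l 5), by decide +kernel⟩

theorem c_mm_022 : CertB 0 536870912 1073741824 536870912 1020054732 13421774 3 eng mog cd1q0 cd3q2 pd2 true false false .pp 0 2 2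
    ndB1q0 ndB3q2 pcB2 Cut.none Ext.none :=
  certB0 (fam := true) (s1 := false) (s2 := false) (a := 0) (b := 2) (c := 2) (cn := .pp) (n1 := ndB1q0) (n2 := ndB3q2) (pc := pcB2) (cut := Cut.none) (xt := Ext.none) (P1 := 0) (W1 := 536870912) (P2 := 1073741824) (W2 := 536870912) (P3 := 1020054732) (W3 := 13421774) (N0 := 3) (En := eng) (mo := mog) (C1 := cd1q0) (C2 := cd3q2) (C3 := pd2)
    rfl k0_mm_022

noncomputable def f_mm_023 : ℕ → ℕ → ℕ → ℕ → Bool := onCell 0 536870912 1073741824 536870912 1020054732 13421774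
    (rowB 3 eng mog cd1q0 cd3q2 pd3 0 true false false .up 0 2 3 (qsf 0 536870912 1073741824 536870912 3) ndB1q0 ndB3q2 pcB3 Cut.none Ext.none)

def k0_mm_023 : ∃ t, chk3 f_mm_023 t 1 1 1 = true :=
  ⟨(l 5), by decide +kernel⟩

theorem c_mm_023 : CertB 0 536870912 1073741824 536870912 1020054732 13421774 3 eng mog cd1q0 cd3q2 pd3 true false false .up 0 2 3
    ndB1q0 ndB3q2 pcB3 Cut.none Ext.none :=
  certB0 (fam := true) (s1 := false) (s2 := false) (a := 0) (b := 2) (c := 3) (cn := .up) (n1 := ndB1q0) (n2 := ndB3q2) (pc := pcB3) (cut := Cut.none) (xt := Ext.none) (P1 := 0) (W1 := 536870912) (P2 := 1073741824) (W2 := 536870912) (P3 := 1020054732) (W3 := 13421774) (N0 := 3) (En := eng) (mo := mog) (C1 := cd1q0) (C2 := cd3q2) (C3 := pd3)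
    rfl k0_mm_023

noncomputable def f_mm_033 : ℕ → ℕ → ℕ → ℕ → Bool := onCell 0 536870912 0 1230186008 1020054732 13421774
    (rowB 3 eng mog cd1q0 cd3q3 pd3 0 true false false .pnn 0 3 3 (qsf 0 536870912 0 1230186008 3) ndB1q0 ndB3q3 pcB3 Cut.none Ext.none)

def k0_mm_033 : ∃ t, chk3 f_mm_033 t 1 1 1 = true :=
  ⟨(l 5), by decide +kernel⟩

theorem c_mm_033 : CertB 0 536870912 0 1230186008 1020054732 13421774 3 eng mog cd1q0 cd3q3 pd3 true false false .pnn 0 3 3
    ndB1q0 ndB3q3 pcB3 Cut.none Ext.none :=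
  certB0 (fam := true) (s1 := false) (s2 := false) (a := 0) (b := 3) (c := 3) (cn := .pnn) (n1 := ndB1q0) (n2 := ndB3q3) (pc := pcB3) (cut := Cut.none) (xt := Ext.none) (P1 := 0) (W1 := 536870912) (P2 := 0) (W2 := 1230186008) (P3 := 1020054732) (W3 := 13421774) (N0 := 3) (En := eng) (mo := mog) (C1 := cd1q0) (C2 := cd3q3) (C3 := pd3)
    rfl k0_mm_033

noncomputable def f_mm_101 : ℕ → ℕ → ℕ → ℕ → Bool := onCell 536870912 536870912 0 536870912 1020054732 13421774
    (rowB 3 eng mog cd1q1 cd3q0 pd1 0 true false false .npn 1 0 1 (qsf 536870912 536870912 0 536870912 1) ndB1q1 ndB3q0 pcB1 Cut.none Ext.none)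

def k0_mm_101 : ∃ t, chk3 f_mm_101 t 1 1 1 = true :=
  ⟨(l 4), by decide +kernel⟩

theorem c_mm_101 : CertB 536870912 536870912 0 536870912 1020054732 13421774 3 eng mog cd1q1 cd3q0 pd1 true false false .npn 1 0 1
    ndB1q1 ndB3q0 pcB1 Cut.none Ext.none :=
  certB0 (fam := true) (s1 := false) (s2 := false) (a := 1) (b := 0) (c := 1) (cn := .npn) (n1 := ndB1q1) (n2 := ndB3q0) (pc := pcB1) (cut := Cut.none) (xt := Ext.none) (P1 := 536870912) (W1 := 536870912) (P2 := 0) (W2 := 536870912) (P3 := 1020054732) (W3 := 13421774) (N0 := 3) (En := eng) (mo := mog) (C1 := cd1q1) (C2 := cd3q0) (C3 := pd1)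
    rfl k0_mm_101

noncomputable def f_mm_102 : ℕ → ℕ → ℕ → ℕ → Bool := onCell 536870912 536870912 0 536870912 1020054732 13421774
    (rowB 3 eng mog cd1q1 cd3q0 pd2 0 true false false .npp 1 0 2 (qsf 536870912 536870912 0 536870912 2) ndB1q1 ndB3q0 pcB2 Cut.none Ext.none)

def k0_mm_102 : ∃ t, chk3 f_mm_102 t 1 1 1 = true :=
  ⟨(l 4), by decide +kernel⟩

theorem c_mm_102 : CertB 536870912 536870912 0 536870912 1020054732 13421774 3 eng mog cd1q1 cd3q0 pd2 true false false .npp 1 0 2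
    ndB1q1 ndB3q0 pcB2 Cut.none Ext.none :=
  certB0 (fam := true) (s1 := false) (s2 := false) (a := 1) (b := 0) (c := 2) (cn := .npp) (n1 := ndB1q1) (n2 := ndB3q0) (pc := pcB2) (cut := Cut.none) (xt := Ext.none) (P1 := 536870912) (W1 := 536870912) (P2 := 0) (W2 := 536870912) (P3 := 1020054732) (W3 := 13421774) (N0 := 3) (En := eng) (mo := mog) (C1 := cd1q1) (C2 := cd3q0) (C3 := pd2)
    rfl k0_mm_102

noncomputable def f_mm_112 : ℕ → ℕ → ℕ → ℕ → Bool := onCell 536870912 536870912 536870912 536870912 1020054732 13421774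
    (rowB 3 eng mog cd1q1 cd3q1 pd2 0 true false false .dn 1 1 2 (qsf 536870912 536870912 536870912 536870912 2) ndB1q1 ndB3q1 pcB2 Cut.none Ext.none)

def k0_mm_112 : ∃ t, chk3 f_mm_112 t 1 1 1 = true :=
  ⟨(l 4), by decide +kernel⟩

theorem c_mm_112 : CertB 536870912 536870912 536870912 536870912 1020054732 13421774 3 eng mog cd1q1 cd3q1 pd2 true false false .dn 1 1 2
    ndB1q1 ndB3q1 pcB2 Cut.none Ext.none :=
  certB0 (fam := true) (s1 := false) (s2 := false) (a := 1) (b := 1) (c := 2) (cn := .dn) (n1 := ndB1q1) (n2 := ndB3q1) (pc := pcB2) (cut := Cut.none) (xt := Ext.none) (P1 := 536870912) (W1 := 536870912) (P2 := 536870912) (W2 := 536870912) (P3 := 1020054732) (W3 := 13421774) (N0 := 3) (En := eng) (mo := mog) (C1 := cd1q1) (C2 := cd3q1) (C3 := pd2)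
    rfl k0_mm_112

noncomputable def f_mm_113 : ℕ → ℕ → ℕ → ℕ → Bool := onCell 536870912 536870912 536870912 536870912 1020054732 13421774
    (rowB 3 eng mog cd1q1 cd3q1 pd3 0 true false false .nn 1 1 3 (qsf 536870912 536870912 536870912 536870912 3) ndB1q1 ndB3q1 pcB3 Cut.none Ext.none)

def k0_mm_113 : ∃ t, chk3 f_mm_113 t 1 1 1 = true :=
  ⟨(l 4), by decide +kernel⟩

theorem c_mm_113 : CertB 536870912 536870912 536870912 536870912 1020054732 13421774 3 eng mog cd1q1 cd3q1 pd3 true false false .nn 1 1 3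
    ndB1q1 ndB3q1 pcB3 Cut.none Ext.none :=
  certB0 (fam := true) (s1 := false) (s2 := false) (a := 1) (b := 1) (c := 3) (cn := .nn) (n1 := ndB1q1) (n2 := ndB3q1) (pc := pcB3) (cut := Cut.none) (xt := Ext.none) (P1 := 536870912) (W1 := 536870912) (P2 := 536870912) (W2 := 536870912) (P3 := 1020054732) (W3 := 13421774) (N0 := 3) (En := eng) (mo := mog) (C1 := cd1q1) (C2 := cd3q1) (C3 := pd3)
    rfl k0_mm_113

noncomputable def f_mm_123 : ℕ → ℕ → ℕ → ℕ → Bool := onCell 536870912 536870912 1073741824 536870912 1020054732 13421774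
    (rowB 3 eng mog cd1q1 cd3q2 pd3 0 true false false .npn 1 2 3 (qsf 536870912 536870912 1073741824 536870912 3) ndB1q1 ndB3q2 pcB3 Cut.none Ext.none)

def k0_mm_123 : ∃ t, chk3 f_mm_123 t 1 1 1 = true :=
  ⟨(l 4), by decide +kernel⟩

theorem c_mm_123 : CertB 536870912 536870912 1073741824 536870912 1020054732 13421774 3 eng mog cd1q1 cd3q2 pd3 true false false .npn 1 2 3
    ndB1q1 ndB3q2 pcB3 Cut.none Ext.none :=
  certB0 (fam := true) (s1 := false) (s2 := false) (a := 1) (b := 2) (c := 3) (cn := .npn) (n1 := ndB1q1) (n2 := ndB3q2) (pc := pcB3) (cut := Cut.none) (xt := Ext.none) (P1 := 536870912) (W1 := 536870912) (P2 := 1073741824) (W2 := 536870912) (P3 := 1020054732) (W3 := 13421774) (N0 := 3) (En := eng) (mo := mog) (C1 := cd1q1) (C2 := cd3q2) (C3 := pd3)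
    rfl k0_mm_123

noncomputable def f_mm_133 : ℕ → ℕ → ℕ → ℕ → Bool := onCell 536870912 536870912 0 1230186008 1020054732 13421774
    (rowB 3 eng mog cd1q1 cd3q3 pd3 0 true false false .dn 1 3 3 (qsf 536870912 536870912 0 1230186008 3) ndB1q1 ndB3q3 pcB3 Cut.none Ext.none)

def k0_mm_133 : ∃ t, chk3 f_mm_133 t 1 1 1 = true :=
  ⟨(l 5), by decide +kernel⟩

theorem c_mm_133 : CertB 536870912 536870912 0 1230186008 1020054732 13421774 3 eng mog cd1q1 cd3q3 pd3 true false false .dn 1 3 3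
    ndB1q1 ndB3q3 pcB3 Cut.none Ext.none :=
  certB0 (fam := true) (s1 := false) (s2 := false) (a := 1) (b := 3) (c := 3) (cn := .dn) (n1 := ndB1q1) (n2 := ndB3q3) (pc := pcB3) (cut := Cut.none) (xt := Ext.none) (P1 := 536870912) (W1 := 536870912) (P2 := 0) (W2 := 1230186008) (P3 := 1020054732) (W3 := 13421774) (N0 := 3) (En := eng) (mo := mog) (C1 := cd1q1) (C2 := cd3q3) (C3 := pd3)
    rfl k0_mm_133

noncomputable def f_mm_202_a : ℕ → ℕ → ℕ → ℕ → Bool := onCell 0 536870912 0 536870912 1020054732 13421774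
    (rowB 3 eng mog cd1q2a cd3q0 pd2 0 true false false .pp 2 0 2 (qsf 0 536870912 0 536870912 2) ndB1q2a ndB3q0 pcB2 Cut.none Ext.none)

def k0_mm_202_a : ∃ t, chk3 f_mm_202_a t 1 1 1 = true :=
  ⟨(b (b (b (a (a (b (b (a (l 15733856) (l 15948864)) (b (a (l 15721000) (l 15904200)) (a (l 15690336) (l 15881344)))) (b (b (a (l 15688160) (l 15887112)) (a (l 15706040) (l 15912944))) (a (l 15635576) (l 15812120)))) (b (b (a (l 16121992) (l 16158504)) (b (a (l 16084320) (l 16249240)) (a (l 16003120) (b (l 16236792) (l 16230712))))) (b (a (b (l 16076904) (l 16108160)) (b (l 16245976) (l 16280216))) (a (b (l 16145768) (l 16180776)) (b (l 16320336) (l 16265408)))))) (a (b (b (a (a (l 16391544) (l 16432376)) (a (b (l 16523624) (l 16489864)) (b (l 16564872) (l 16529120)))) (b (a (l 16386560) (a (l 16463536) (l 16498712))) (a (b (l 16373256) (l 16366504)) (a (b (l 16446840) (l 16435360)) (l 4))))) (b (a (b (a (l 16352184) (l 16405968)) (a (l 16384960) (l 16425632))) (b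 (a (l 16439064) (l 4)) (l 4))) (a (b (a (l 16410856) (l 4)) (l 4)) (l 4)))) (b (b (a (a (b (a (l 16586120) (l 16595320)) (a (l 16550232) (l 16563744))) (b (a (l 16584504) (l 16598824)) (l 4))) (l 4)) (l 4)) (l 4)))) (a (a (b (a (l 15637496) (b (l 16014088) (l 16082576))) (a (l 15887648) (b (l 16158368) (l 16204600)))) (b (a (b (l 16225632) (a (l 16246320) (l 16311176))) (b (a (l 16343264) (l 16380120)) (l 4))) (a (b (l 16286744) (l 4)) (l 4)))) (l 4))) (a (b (a (b (a (b (l 16081200) (l 16126704)) (b (l 16210232) (l 4))) (a (l 4) (l 4))) (l 4)) (l 4)) (l 4))) (l 4)), by decide +kernel⟩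

theorem c_mm_202_a : CertB 0 536870912 0 536870912 1020054732 13421774 3 eng mog cd1q2a cd3q0 pd2 true false false .pp 2 0 2
    ndB1q2a ndB3q0 pcB2 Cut.none Ext.none :=
  certB0 (fam := true) (s1 := false) (s2 := false) (a := 2) (b := 0) (c := 2) (cn := .pp) (n1 := ndB1q2a) (n2 := ndB3q0) (pc := pcB2) (cut := Cut.none) (xt := Ext.none) (P1 := 0) (W1 := 536870912) (P2 := 0) (W2 := 536870912) (P3 := 1020054732) (W3 := 13421774) (N0 := 3) (En := eng) (mo := mog) (C1 := cd1q2a) (C2 := cd3q0) (C3 := pd2)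
    rfl k0_mm_202_a

noncomputable def f_mm_202_b : ℕ → ℕ → ℕ → ℕ → Bool := onCell 1073741824 536870912 0 536870912 1020054732 13421774
    (rowB 3 eng mog cd1q2b cd3q0 pd2 2 true false false .pp 2 0 2 (qsf 1239849684 370763052 0 536870912 2) ndB1q2b ndB3q0 pcB2 Cut.none Ext.none)

def k0_mm_202_b : ∃ t, chk3 f_mm_202_b t 1 1 1 = true :=
  ⟨(a (b (a (l 1) (b (a (b (a (b (b (a (l 1) (l 15776984)) (l 1)) (l 1)) (b (b (l 15648392) (b (l 15640856) (l 242696979479))) (b (b (l 15639168) (l 1)) (l 1)))) (l 1)) (b (b (b (a (l 15522040) (l 15439680)) (b (a (l 15535808) (l 15473904)) (a (l 15518344) (l 15470040)))) (b (a (b (l 15539440) (l 15592752)) (c (l 15557040) (l 15526944))) (a (l 293162821399) (l 15621680)))) (a (b (a (l 1) (l 15664080)) (l 1)) (b (l 15682072) (l 15719192))))) (l 1))) (l 1)) (b (a (b (a (b (b (b (a (l 15399320) (l 15398288)) (b (l 15457464) (a (l 15461768) (l 15511776)))) (b (a (l 15548960) (l 15591992)) (a (l 15646144) (l 15705216)))) (a (b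 (l 15736856) (l 15814744)) (b (l 15824208) (l 15940368)))) (b (b (b (l 15464448) (b (l 15560576) (l 15619032))) (b (a (l 15667944) (l 15773072)) (a (l 15795608) (l 15913384)))) (a (l 15891992) (b (l 16082176) (l 16242904))))) (a (b (a (b (l 15849576) (l 1)) (b (l 16012928) (l 466572306871))) (l 1)) (b (b (a (l 16162776) (l 16259072)) (l 4)) (l 4)))) (b (a (b (b (b (l 15655880) (b (l 15779920) (l 15857272))) (b (l 15808072) (l 15962416))) (a (b (l 16233736) (l 16337048)) (b (l 16238936) (l 4)))) (b (b (b (l 15792016) (b (l 15813752) (l 15846424))) (b (a (l 15949320) (l 15771960)) (a (l 15949608) (l 4)))) (l 4))) (l 4))) (l 4))), by decide +kernel⟩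

theorem c_mm_202_b : CertB 1239849684 370763052 0 536870912 1020054732 13421774 3 eng mog cd1q2b cd3q0 pd2 true false false .pp 2 0 2
    ndB1q2b ndB3q0 pcB2 Cut.none Ext.none :=
  certB2 (fam := true) (s1 := false) (s2 := false) (a := 2) (b := 0) (c := 2) (cn := .pp) (n1 := ndB1q2b) (n2 := ndB3q0) (pc := pcB2) (cut := Cut.none) (xt := Ext.none) (P1 := 1239849684) (W1 := 370763052) (P2 := 0) (W2 := 536870912) (P3 := 1020054732) (W3 := 13421774) (N0 := 3) (En := eng) (mo := mog) (C1 := cd1q2b) (C2 := cd3q0) (C3 := pd2)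
    rfl (fun _ => rfl) k0_mm_202_b

noncomputable def f_mm_203_a : ℕ → ℕ → ℕ → ℕ → Bool := onCell 0 536870912 1610612736 536870912 1020054732 13421774
    (rowB 3 eng mog cd1q2a cd3q0 pd3 1 true false false .up 2 0 3 (qsf 0 536870912 0 536870912 3) ndB1q2a ndB3q0 pcB3 Cut.none Ext.none)

def k0_mm_203_a : ∃ t, chk3 f_mm_203_a t 1 1 1 = true :=
  ⟨(l 4), by decide +kernel⟩

theorem c_mm_203_a : CertB 0 536870912 0 536870912 1020054732 13421774 3 eng mog cd1q2a cd3q0 pd3 true false false .up 2 0 3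
    ndB1q2a ndB3q0 pcB3 Cut.none Ext.none :=
  certB1 (fam := true) (s1 := false) (s2 := false) (a := 2) (b := 0) (c := 3) (cn := .up) (n1 := ndB1q2a) (n2 := ndB3q0) (pc := pcB3) (cut := Cut.none) (xt := Ext.none) (P1 := 0) (W1 := 536870912) (P2 := 0) (W2 := 536870912) (P3 := 1020054732) (W3 := 13421774) (N0 := 3) (En := eng) (mo := mog) (C1 := cd1q2a) (C2 := cd3q0) (C3 := pd3)
    rfl (fun _ => rfl) k0_mm_203_a

noncomputable def f_mm_203_b : ℕ → ℕ → ℕ → ℕ → Bool := onCell 1610612736 536870912 0 536870912 1020054732 13421774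
    (rowB 3 eng mog cd1q2b cd3q0 pd3 2 true false false .up 2 0 3 (qsf 1239849684 370763052 0 536870912 3) ndB1q2b ndB3q0 pcB3 Cut.none Ext.none)

def k0_mm_203_b : ∃ t, chk3 f_mm_203_b t 1 1 1 = true :=
  ⟨(a (b (a (b (b (a (b (b (l 15328192) (b (l 15471120) (l 4))) (l 4)) (l 4)) (l 4)) (l 4)) (l 4)) (l 4)) (l 4)), by decide +kernel⟩

theorem c_mm_203_b : CertB 1239849684 370763052 0 536870912 1020054732 13421774 3 eng mog cd1q2b cd3q0 pd3 true false false .up 2 0 3
    ndB1q2b ndB3q0 pcB3 Cut.none Ext.none :=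
  certB2 (fam := true) (s1 := false) (s2 := false) (a := 2) (b := 0) (c := 3) (cn := .up) (n1 := ndB1q2b) (n2 := ndB3q0) (pc := pcB3) (cut := Cut.none) (xt := Ext.none) (P1 := 1239849684) (W1 := 370763052) (P2 := 0) (W2 := 536870912) (P3 := 1020054732) (W3 := 13421774) (N0 := 3) (En := eng) (mo := mog) (C1 := cd1q2b) (C2 := cd3q0) (C3 := pd3)
    rfl (fun _ => rfl) k0_mm_203_b

noncomputable def f_mm_213_a : ℕ → ℕ → ℕ → ℕ → Bool := onCell 0 536870912 536870912 536870912 1020054732 13421774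
    (rowB 3 eng mog cd1q2a cd3q1 pd3 0 true false false .pnn 2 1 3 (qsf 0 536870912 536870912 536870912 3) ndB1q2a ndB3q1 pcB3 Cut.none Ext.none)

def k0_mm_213_a : ∃ t, chk3 f_mm_213_a t 1 1 1 = true :=
  ⟨(l 4), by decide +kernel⟩

theorem c_mm_213_a : CertB 0 536870912 536870912 536870912 1020054732 13421774 3 eng mog cd1q2a cd3q1 pd3 true false false .pnn 2 1 3
    ndB1q2a ndB3q1 pcB3 Cut.none Ext.none :=
  certB0 (fam := true) (s1 := false) (s2 := false) (a := 2) (b := 1) (c := 3) (cn := .pnn) (n1 := ndB1q2a) (n2 := ndB3q1) (pc := pcB3) (cut := Cut.none) (xt := Ext.none) (P1 := 0) (W1 := 536870912) (P2 := 536870912) (W2 := 536870912) (P3 := 1020054732) (W3 := 13421774) (N0 := 3) (En := eng) (mo := mog) (C1 := cd1q2a) (C2 := cd3q1) (C3 := pd3)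
    rfl k0_mm_213_a

noncomputable def f_mm_213_b : ℕ → ℕ → ℕ → ℕ → Bool := onCell 1239849684 370763052 536870912 536870912 1020054732 13421774
    (rowB 3 eng mog cd1q2b cd3q1 pd3 0 true false false .pnn 2 1 3 (qsf 1239849684 370763052 536870912 536870912 3) ndB1q2b ndB3q1 pcB3 Cut.none Ext.none)

def k0_mm_213_b : ∃ t, chk3 f_mm_213_b t 1 1 1 = true :=
  ⟨(l 4), by decide +kernel⟩

theorem c_mm_213_b : CertB 1239849684 370763052 536870912 536870912 1020054732 13421774 3 eng mog cd1q2b cd3q1 pd3 true false false .pnn 2 1 3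
    ndB1q2b ndB3q1 pcB3 Cut.none Ext.none :=
  certB0 (fam := true) (s1 := false) (s2 := false) (a := 2) (b := 1) (c := 3) (cn := .pnn) (n1 := ndB1q2b) (n2 := ndB3q1) (pc := pcB3) (cut := Cut.none) (xt := Ext.none) (P1 := 1239849684) (W1 := 370763052) (P2 := 536870912) (W2 := 536870912) (P3 := 1020054732) (W3 := 13421774) (N0 := 3) (En := eng) (mo := mog) (C1 := cd1q2b) (C2 := cd3q1) (C3 := pd3)
    rfl k0_mm_213_b

noncomputable def f_mm_303 : ℕ → ℕ → ℕ → ℕ → Bool := onCell 1610612736 536870912 0 536870912 1020054732 13421774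
    (rowB 3 eng mog cd1q3 cd3q0 pd3 0 true false false .npn 3 0 3 (qsf 1610612736 536870912 0 536870912 3) ndB1q3 ndB3q0 pcB3 Cut.none Ext.none)

def k0_mm_303 : ∃ t, chk3 f_mm_303 t 1 1 1 = true :=
  ⟨(a (b (a (b (a (b (b (b (a (l 15549144) (l 4)) (l 4)) (l 4)) (l 4)) (l 4)) (l 4)) (l 4)) (l 4)) (l 4)), by decide +kernel⟩

theorem c_mm_303 : CertB 1610612736 536870912 0 536870912 1020054732 13421774 3 eng mog cd1q3 cd3q0 pd3 true false false .npn 3 0 3
    ndB1q3 ndB3q0 pcB3 Cut.none Ext.none :=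
  certB0 (fam := true) (s1 := false) (s2 := false) (a := 3) (b := 0) (c := 3) (cn := .npn) (n1 := ndB1q3) (n2 := ndB3q0) (pc := pcB3) (cut := Cut.none) (xt := Ext.none) (P1 := 1610612736) (W1 := 536870912) (P2 := 0) (W2 := 536870912) (P3 := 1020054732) (W3 := 13421774) (N0 := 3) (En := eng) (mo := mog) (C1 := cd1q3) (C2 := cd3q0) (C3 := pd3)
    rfl k0_mm_303

noncomputable def f_mm_313 : ℕ → ℕ → ℕ → ℕ → Bool := onCell 1610612736 536870912 536870912 536870912 1020054732 13421774
    (rowB 3 eng mog cd1q3 cd3q1 pd3 0 true false false .dn 3 1 3 (qsf 1610612736 536870912 536870912 536870912 3) ndB1q3 ndB3q1 pcB3 Cut.none Ext.none)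

def k0_mm_313 : ∃ t, chk3 f_mm_313 t 1 1 1 = true :=
  ⟨(l 4), by decide +kernel⟩

theorem c_mm_313 : CertB 1610612736 536870912 536870912 536870912 1020054732 13421774 3 eng mog cd1q3 cd3q1 pd3 true false false .dn 3 1 3
    ndB1q3 ndB3q1 pcB3 Cut.none Ext.none :=
  certB0 (fam := true) (s1 := false) (s2 := false) (a := 3) (b := 1) (c := 3) (cn := .dn) (n1 := ndB1q3) (n2 := ndB3q1) (pc := pcB3) (cut := Cut.none) (xt := Ext.none) (P1 := 1610612736) (W1 := 536870912) (P2 := 536870912) (W2 := 536870912) (P3 := 1020054732) (W3 := 13421774) (N0 := 3) (En := eng) (mo := mog) (C1 := cd1q3) (C2 := cd3q1) (C3 := pd3)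
    rfl k0_mm_313

end Pool.Agent.Strip051.G.I9500_9625.Tab.C.BA13

namespace Pool.Agent.Strip051.G.I9500_9625.Tab.C.BA14

open Pool.Agent.Strip051.PB Pool.Agent.Strip051.PB.T
open Pool.Agent.Strip051.G.I9500_9625.Tab

noncomputable def f_pp_001 : ℕ → ℕ → ℕ → ℕ → Bool := onCell 0 536870912 0 536870912 1020054732 13421774
    (rowB 3 eng mog cd1q0 cd4q0 pd1 0 true true true .up 0 0 1 (qsf 0 536870912 0 536870912 1) ndB1q0 ndB4q0 pcB1 Cut.none Ext.none)

def k0_pp_001 : ∃ t, chk3 f_pp_001 t 1 1 1 = true :=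
  ⟨(l 4), by decide +kernel⟩

theorem c_pp_001 : CertB 0 536870912 0 536870912 1020054732 13421774 3 eng mog cd1q0 cd4q0 pd1 true true true .up 0 0 1
    ndB1q0 ndB4q0 pcB1 Cut.none Ext.none :=
  certB0 (fam := true) (s1 := true) (s2 := true) (a := 0) (b := 0) (c := 1) (cn := .up) (n1 := ndB1q0) (n2 := ndB4q0) (pc := pcB1) (cut := Cut.none) (xt := Ext.none) (P1 := 0) (W1 := 536870912) (P2 := 0) (W2 := 536870912) (P3 := 1020054732) (W3 := 13421774) (N0 := 3) (En := eng) (mo := mog) (C1 := cd1q0) (C2 := cd4q0) (C3 := pd1)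
    rfl k0_pp_001

noncomputable def f_pp_011 : ℕ → ℕ → ℕ → ℕ → Bool := onCell 0 536870912 536870912 536870912 1020054732 13421774
    (rowB 3 eng mog cd1q0 cd4q1 pd1 0 true true true .pnn 0 1 1 (qsf 0 536870912 536870912 536870912 1) ndB1q0 ndB4q1 pcB1 Cut.none Ext.none)

def k0_pp_011 : ∃ t, chk3 f_pp_011 t 1 1 1 = true :=
  ⟨(l 4), by decide +kernel⟩

theorem c_pp_011 : CertB 0 536870912 536870912 536870912 1020054732 13421774 3 eng mog cd1q0 cd4q1 pd1 true true true .pnn 0 1 1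
    ndB1q0 ndB4q1 pcB1 Cut.none Ext.none :=
  certB0 (fam := true) (s1 := true) (s2 := true) (a := 0) (b := 1) (c := 1) (cn := .pnn) (n1 := ndB1q0) (n2 := ndB4q1) (pc := pcB1) (cut := Cut.none) (xt := Ext.none) (P1 := 0) (W1 := 536870912) (P2 := 536870912) (W2 := 536870912) (P3 := 1020054732) (W3 := 13421774) (N0 := 3) (En := eng) (mo := mog) (C1 := cd1q0) (C2 := cd4q1) (C3 := pd1)
    rfl k0_pp_011

noncomputable def f_pp_012 : ℕ → ℕ → ℕ → ℕ → Bool := onCell 0 536870912 536870912 536870912 1020054732 13421774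
    (rowB 3 eng mog cd1q0 cd4q1 pd2 0 true true true .pnp 0 1 2 (qsf 0 536870912 536870912 536870912 2) ndB1q0 ndB4q1 pcB2 Cut.none Ext.none)

def k0_pp_012 : ∃ t, chk3 f_pp_012 t 1 1 1 = true :=
  ⟨(l 4), by decide +kernel⟩

theorem c_pp_012 : CertB 0 536870912 536870912 536870912 1020054732 13421774 3 eng mog cd1q0 cd4q1 pd2 true true true .pnp 0 1 2
    ndB1q0 ndB4q1 pcB2 Cut.none Ext.none :=
  certB0 (fam := true) (s1 := true) (s2 := true) (a := 0) (b := 1) (c := 2) (cn := .pnp) (n1 := ndB1q0) (n2 := ndB4q1) (pc := pcB2) (cut := Cut.none) (xt := Ext.none) (P1 := 0) (W1 := 536870912) (P2 := 536870912) (W2 := 536870912) (P3 := 1020054732) (W3 := 13421774) (N0 := 3) (En := eng) (mo := mog) (C1 := cd1q0) (C2 := cd4q1) (C3 := pd2)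
    rfl k0_pp_012

noncomputable def f_pp_022 : ℕ → ℕ → ℕ → ℕ → Bool := onCell 0 536870912 1073741824 536870912 1020054732 13421774
    (rowB 3 eng mog cd1q0 cd4q2 pd2 0 true true true .pp 0 2 2 (qsf 0 536870912 1073741824 536870912 2) ndB1q0 ndB4q2 pcB2 Cut.none Ext.none)

def k0_pp_022 : ∃ t, chk3 f_pp_022 t 1 1 1 = true :=
  ⟨(l 4), by decide +kernel⟩

theorem c_pp_022 : CertB 0 536870912 1073741824 536870912 1020054732 13421774 3 eng mog cd1q0 cd4q2 pd2 true true true .pp 0 2 2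
    ndB1q0 ndB4q2 pcB2 Cut.none Ext.none :=
  certB0 (fam := true) (s1 := true) (s2 := true) (a := 0) (b := 2) (c := 2) (cn := .pp) (n1 := ndB1q0) (n2 := ndB4q2) (pc := pcB2) (cut := Cut.none) (xt := Ext.none) (P1 := 0) (W1 := 536870912) (P2 := 1073741824) (W2 := 536870912) (P3 := 1020054732) (W3 := 13421774) (N0 := 3) (En := eng) (mo := mog) (C1 := cd1q0) (C2 := cd4q2) (C3 := pd2)
    rfl k0_pp_022

noncomputable def f_pp_023 : ℕ → ℕ → ℕ → ℕ → Bool := onCell 0 536870912 1073741824 536870912 1020054732 13421774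
    (rowB 3 eng mog cd1q0 cd4q2 pd3 0 true true true .up 0 2 3 (qsf 0 536870912 1073741824 536870912 3) ndB1q0 ndB4q2 pcB3 Cut.none Ext.none)

def k0_pp_023 : ∃ t, chk3 f_pp_023 t 1 1 1 = true :=
  ⟨(l 4), by decide +kernel⟩

theorem c_pp_023 : CertB 0 536870912 1073741824 536870912 1020054732 13421774 3 eng mog cd1q0 cd4q2 pd3 true true true .up 0 2 3
    ndB1q0 ndB4q2 pcB3 Cut.none Ext.none :=
  certB0 (fam := true) (s1 := true) (s2 := true) (a := 0) (b := 2) (c := 3) (cn := .up) (n1 := ndB1q0) (n2 := ndB4q2) (pc := pcB3) (cut := Cut.none) (xt := Ext.none) (P1 := 0) (W1 := 536870912) (P2 := 1073741824) (W2 := 536870912) (P3 := 1020054732) (W3 := 13421774) (N0 := 3) (En := eng) (mo := mog) (C1 := cd1q0) (C2 := cd4q2) (C3 := pd3)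
    rfl k0_pp_023

noncomputable def f_pp_033 : ℕ → ℕ → ℕ → ℕ → Bool := onCell 0 536870912 0 1230186008 1020054732 13421774
    (rowB 3 eng mog cd1q0 cd4q3 pd3 0 true true true .pnn 0 3 3 (qsf 0 536870912 0 1230186008 3) ndB1q0 ndB4q3 pcB3 Cut.none Ext.none)

def k0_pp_033 : ∃ t, chk3 f_pp_033 t 1 1 1 = true :=
  ⟨(b (l 4) (l 4)), by decide +kernel⟩

theorem c_pp_033 : CertB 0 536870912 0 1230186008 1020054732 13421774 3 eng mog cd1q0 cd4q3 pd3 true true true .pnn 0 3 3
    ndB1q0 ndB4q3 pcB3 Cut.none Ext.none :=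
  certB0 (fam := true) (s1 := true) (s2 := true) (a := 0) (b := 3) (c := 3) (cn := .pnn) (n1 := ndB1q0) (n2 := ndB4q3) (pc := pcB3) (cut := Cut.none) (xt := Ext.none) (P1 := 0) (W1 := 536870912) (P2 := 0) (W2 := 1230186008) (P3 := 1020054732) (W3 := 13421774) (N0 := 3) (En := eng) (mo := mog) (C1 := cd1q0) (C2 := cd4q3) (C3 := pd3)
    rfl k0_pp_033

noncomputable def f_pp_101 : ℕ → ℕ → ℕ → ℕ → Bool := onCell 536870912 536870912 0 536870912 1020054732 13421774
    (rowB 3 eng mog cd1q1 cd4q0 pd1 0 true true true .npn 1 0 1 (qsf 536870912 536870912 0 536870912 1) ndB1q1 ndB4q0 pcB1 Cut.none Ext.none)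

def k0_pp_101 : ∃ t, chk3 f_pp_101 t 1 1 1 = true :=
  ⟨(l 4), by decide +kernel⟩

theorem c_pp_101 : CertB 536870912 536870912 0 536870912 1020054732 13421774 3 eng mog cd1q1 cd4q0 pd1 true true true .npn 1 0 1
    ndB1q1 ndB4q0 pcB1 Cut.none Ext.none :=
  certB0 (fam := true) (s1 := true) (s2 := true) (a := 1) (b := 0) (c := 1) (cn := .npn) (n1 := ndB1q1) (n2 := ndB4q0) (pc := pcB1) (cut := Cut.none) (xt := Ext.none) (P1 := 536870912) (W1 := 536870912) (P2 := 0) (W2 := 536870912) (P3 := 1020054732) (W3 := 13421774) (N0 := 3) (En := eng) (mo := mog) (C1 := cd1q1) (C2 := cd4q0) (C3 := pd1)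
    rfl k0_pp_101

noncomputable def f_pp_102 : ℕ → ℕ → ℕ → ℕ → Bool := onCell 536870912 536870912 0 536870912 1020054732 13421774
    (rowB 3 eng mog cd1q1 cd4q0 pd2 0 true true true .npp 1 0 2 (qsf 536870912 536870912 0 536870912 2) ndB1q1 ndB4q0 pcB2 Cut.none Ext.none)

def k0_pp_102 : ∃ t, chk3 f_pp_102 t 1 1 1 = true :=
  ⟨(l 4), by decide +kernel⟩

theorem c_pp_102 : CertB 536870912 536870912 0 536870912 1020054732 13421774 3 eng mog cd1q1 cd4q0 pd2 true true true .npp 1 0 2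
    ndB1q1 ndB4q0 pcB2 Cut.none Ext.none :=
  certB0 (fam := true) (s1 := true) (s2 := true) (a := 1) (b := 0) (c := 2) (cn := .npp) (n1 := ndB1q1) (n2 := ndB4q0) (pc := pcB2) (cut := Cut.none) (xt := Ext.none) (P1 := 536870912) (W1 := 536870912) (P2 := 0) (W2 := 536870912) (P3 := 1020054732) (W3 := 13421774) (N0 := 3) (En := eng) (mo := mog) (C1 := cd1q1) (C2 := cd4q0) (C3 := pd2)
    rfl k0_pp_102

noncomputable def f_pp_112 : ℕ → ℕ → ℕ → ℕ → Bool := onCell 536870912 536870912 536870912 536870912 1020054732 13421774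
    (rowB 3 eng mog cd1q1 cd4q1 pd2 0 true true true .dn 1 1 2 (qsf 536870912 536870912 536870912 536870912 2) ndB1q1 ndB4q1 pcB2 Cut.none Ext.none)

def k0_pp_112 : ∃ t, chk3 f_pp_112 t 1 1 1 = true :=
  ⟨(l 4), by decide +kernel⟩

theorem c_pp_112 : CertB 536870912 536870912 536870912 536870912 1020054732 13421774 3 eng mog cd1q1 cd4q1 pd2 true true true .dn 1 1 2
    ndB1q1 ndB4q1 pcB2 Cut.none Ext.none :=
  certB0 (fam := true) (s1 := true) (s2 := true) (a := 1) (b := 1) (c := 2) (cn := .dn) (n1 := ndB1q1) (n2 := ndB4q1) (pc := pcB2) (cut := Cut.none) (xt := Ext.none) (P1 := 536870912) (W1 := 536870912) (P2 := 536870912) (W2 := 536870912) (P3 := 1020054732) (W3 := 13421774) (N0 := 3) (En := eng) (mo := mog) (C1 := cd1q1) (C2 := cd4q1) (C3 := pd2)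
    rfl k0_pp_112

noncomputable def f_pp_113 : ℕ → ℕ → ℕ → ℕ → Bool := onCell 536870912 536870912 536870912 536870912 1020054732 13421774
    (rowB 3 eng mog cd1q1 cd4q1 pd3 0 true true true .nn 1 1 3 (qsf 536870912 536870912 536870912 536870912 3) ndB1q1 ndB4q1 pcB3 Cut.none Ext.none)

def k0_pp_113 : ∃ t, chk3 f_pp_113 t 1 1 1 = true :=
  ⟨(l 4), by decide +kernel⟩

theorem c_pp_113 : CertB 536870912 536870912 536870912 536870912 1020054732 13421774 3 eng mog cd1q1 cd4q1 pd3 true true true .nn 1 1 3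
    ndB1q1 ndB4q1 pcB3 Cut.none Ext.none :=
  certB0 (fam := true) (s1 := true) (s2 := true) (a := 1) (b := 1) (c := 3) (cn := .nn) (n1 := ndB1q1) (n2 := ndB4q1) (pc := pcB3) (cut := Cut.none) (xt := Ext.none) (P1 := 536870912) (W1 := 536870912) (P2 := 536870912) (W2 := 536870912) (P3 := 1020054732) (W3 := 13421774) (N0 := 3) (En := eng) (mo := mog) (C1 := cd1q1) (C2 := cd4q1) (C3 := pd3)
    rfl k0_pp_113

noncomputable def f_pp_123 : ℕ → ℕ → ℕ → ℕ → Bool := onCell 536870912 536870912 1073741824 536870912 1020054732 13421774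
    (rowB 3 eng mog cd1q1 cd4q2 pd3 0 true true true .npn 1 2 3 (qsf 536870912 536870912 1073741824 536870912 3) ndB1q1 ndB4q2 pcB3 Cut.none Ext.none)

def k0_pp_123 : ∃ t, chk3 f_pp_123 t 1 1 1 = true :=
  ⟨(l 4), by decide +kernel⟩

theorem c_pp_123 : CertB 536870912 536870912 1073741824 536870912 1020054732 13421774 3 eng mog cd1q1 cd4q2 pd3 true true true .npn 1 2 3
    ndB1q1 ndB4q2 pcB3 Cut.none Ext.none :=
  certB0 (fam := true) (s1 := true) (s2 := true) (a := 1) (b := 2) (c := 3) (cn := .npn) (n1 := ndB1q1) (n2 := ndB4q2) (pc := pcB3) (cut := Cut.none) (xt := Ext.none) (P1 := 536870912) (W1 := 536870912) (P2 := 1073741824) (W2 := 536870912) (P3 := 1020054732) (W3 := 13421774) (N0 := 3) (En := eng) (mo := mog) (C1 := cd1q1) (C2 := cd4q2) (C3 := pd3)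
    rfl k0_pp_123

noncomputable def f_pp_133 : ℕ → ℕ → ℕ → ℕ → Bool := onCell 536870912 536870912 0 1230186008 1020054732 13421774
    (rowB 3 eng mog cd1q1 cd4q3 pd3 0 true true true .dn 1 3 3 (qsf 536870912 536870912 0 1230186008 3) ndB1q1 ndB4q3 pcB3 Cut.none Ext.none)

def k0_pp_133 : ∃ t, chk3 f_pp_133 t 1 1 1 = true :=
  ⟨(l 4), by decide +kernel⟩

theorem c_pp_133 : CertB 536870912 536870912 0 1230186008 1020054732 13421774 3 eng mog cd1q1 cd4q3 pd3 true true true .dn 1 3 3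
    ndB1q1 ndB4q3 pcB3 Cut.none Ext.none :=
  certB0 (fam := true) (s1 := true) (s2 := true) (a := 1) (b := 3) (c := 3) (cn := .dn) (n1 := ndB1q1) (n2 := ndB4q3) (pc := pcB3) (cut := Cut.none) (xt := Ext.none) (P1 := 536870912) (W1 := 536870912) (P2 := 0) (W2 := 1230186008) (P3 := 1020054732) (W3 := 13421774) (N0 := 3) (En := eng) (mo := mog) (C1 := cd1q1) (C2 := cd4q3) (C3 := pd3)
    rfl k0_pp_133

noncomputable def f_pp_202_a : ℕ → ℕ → ℕ → ℕ → Bool := onCell 0 536870912 0 536870912 1020054732 13421774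
    (rowB 3 eng mog cd1q2a cd4q0 pd2 0 true true true .pp 2 0 2 (qsf 0 536870912 0 536870912 2) ndB1q2a ndB4q0 pcB2 Cut.none Ext.none)

def k0_pp_202_a : ∃ t, chk3 f_pp_202_a t 1 1 1 = true :=
  ⟨(l 4), by decide +kernel⟩

theorem c_pp_202_a : CertB 0 536870912 0 536870912 1020054732 13421774 3 eng mog cd1q2a cd4q0 pd2 true true true .pp 2 0 2
    ndB1q2a ndB4q0 pcB2 Cut.none Ext.none :=
  certB0 (fam := true) (s1 := true) (s2 := true) (a := 2) (b := 0) (c := 2) (cn := .pp) (n1 := ndB1q2a) (n2 := ndB4q0) (pc := pcB2) (cut := Cut.none) (xt := Ext.none) (P1 := 0) (W1 := 536870912) (P2 := 0) (W2 := 536870912) (P3 := 1020054732) (W3 := 13421774) (N0 := 3) (En := eng) (mo := mog) (C1 := cd1q2a) (C2 := cd4q0) (C3 := pd2)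
    rfl k0_pp_202_a

noncomputable def f_pp_202_b : ℕ → ℕ → ℕ → ℕ → Bool := onCell 1239849684 370763052 0 536870912 1020054732 13421774
    (rowB 3 eng mog cd1q2b cd4q0 pd2 0 true true true .pp 2 0 2 (qsf 1239849684 370763052 0 536870912 2) ndB1q2b ndB4q0 pcB2 Cut.none Ext.none)

def k0_pp_202_b : ∃ t, chk3 f_pp_202_b t 1 1 1 = true :=
  ⟨(l 4), by decide +kernel⟩

theorem c_pp_202_b : CertB 1239849684 370763052 0 536870912 1020054732 13421774 3 eng mog cd1q2b cd4q0 pd2 true true true .pp 2 0 2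
    ndB1q2b ndB4q0 pcB2 Cut.none Ext.none :=
  certB0 (fam := true) (s1 := true) (s2 := true) (a := 2) (b := 0) (c := 2) (cn := .pp) (n1 := ndB1q2b) (n2 := ndB4q0) (pc := pcB2) (cut := Cut.none) (xt := Ext.none) (P1 := 1239849684) (W1 := 370763052) (P2 := 0) (W2 := 536870912) (P3 := 1020054732) (W3 := 13421774) (N0 := 3) (En := eng) (mo := mog) (C1 := cd1q2b) (C2 := cd4q0) (C3 := pd2)
    rfl k0_pp_202_b

noncomputable def f_pp_203_a : ℕ → ℕ → ℕ → ℕ → Bool := onCell 0 536870912 0 536870912 1020054732 13421774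
    (rowB 3 eng mog cd1q2a cd4q0 pd3 0 true true true .up 2 0 3 (qsf 0 536870912 0 536870912 3) ndB1q2a ndB4q0 pcB3 Cut.none Ext.none)

def k0_pp_203_a : ∃ t, chk3 f_pp_203_a t 1 1 1 = true :=
  ⟨(l 4), by decide +kernel⟩

theorem c_pp_203_a : CertB 0 536870912 0 536870912 1020054732 13421774 3 eng mog cd1q2a cd4q0 pd3 true true true .up 2 0 3
    ndB1q2a ndB4q0 pcB3 Cut.none Ext.none :=
  certB0 (fam := true) (s1 := true) (s2 := true) (a := 2) (b := 0) (c := 3) (cn := .up) (n1 := ndB1q2a) (n2 := ndB4q0) (pc := pcB3) (cut := Cut.none) (xt := Ext.none) (P1 := 0) (W1 := 536870912) (P2 := 0) (W2 := 536870912) (P3 := 1020054732) (W3 := 13421774) (N0 := 3) (En := eng) (mo := mog) (C1 := cd1q2a) (C2 := cd4q0) (C3 := pd3)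
    rfl k0_pp_203_a

noncomputable def f_pp_203_b : ℕ → ℕ → ℕ → ℕ → Bool := onCell 1239849684 370763052 0 536870912 1020054732 13421774
    (rowB 3 eng mog cd1q2b cd4q0 pd3 0 true true true .up 2 0 3 (qsf 1239849684 370763052 0 536870912 3) ndB1q2b ndB4q0 pcB3 Cut.none Ext.none)

def k0_pp_203_b : ∃ t, chk3 f_pp_203_b t 1 1 1 = true :=
  ⟨(l 4), by decide +kernel⟩

theorem c_pp_203_b : CertB 1239849684 370763052 0 536870912 1020054732 13421774 3 eng mog cd1q2b cd4q0 pd3 true true true .up 2 0 3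
    ndB1q2b ndB4q0 pcB3 Cut.none Ext.none :=
  certB0 (fam := true) (s1 := true) (s2 := true) (a := 2) (b := 0) (c := 3) (cn := .up) (n1 := ndB1q2b) (n2 := ndB4q0) (pc := pcB3) (cut := Cut.none) (xt := Ext.none) (P1 := 1239849684) (W1 := 370763052) (P2 := 0) (W2 := 536870912) (P3 := 1020054732) (W3 := 13421774) (N0 := 3) (En := eng) (mo := mog) (C1 := cd1q2b) (C2 := cd4q0) (C3 := pd3)
    rfl k0_pp_203_b

noncomputable def f_pp_213_a : ℕ → ℕ → ℕ → ℕ → Bool := onCell 0 536870912 536870912 536870912 1020054732 13421774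
    (rowB 3 eng mog cd1q2a cd4q1 pd3 0 true true true .pnn 2 1 3 (qsf 0 536870912 536870912 536870912 3) ndB1q2a ndB4q1 pcB3 Cut.none Ext.none)

def k0_pp_213_a : ∃ t, chk3 f_pp_213_a t 1 1 1 = true :=
  ⟨(l 4), by decide +kernel⟩

theorem c_pp_213_a : CertB 0 536870912 536870912 536870912 1020054732 13421774 3 eng mog cd1q2a cd4q1 pd3 true true true .pnn 2 1 3
    ndB1q2a ndB4q1 pcB3 Cut.none Ext.none :=
  certB0 (fam := true) (s1 := true) (s2 := true) (a := 2) (b := 1) (c := 3) (cn := .pnn) (n1 := ndB1q2a) (n2 := ndB4q1) (pc := pcB3) (cut := Cut.none) (xt := Ext.none) (P1 := 0) (W1 := 536870912) (P2 := 536870912) (W2 := 536870912) (P3 := 1020054732) (W3 := 13421774) (N0 := 3) (En := eng) (mo := mog) (C1 := cd1q2a) (C2 := cd4q1) (C3 := pd3)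
    rfl k0_pp_213_a

noncomputable def f_pp_213_b : ℕ → ℕ → ℕ → ℕ → Bool := onCell 1239849684 370763052 536870912 536870912 1020054732 13421774
    (rowB 3 eng mog cd1q2b cd4q1 pd3 0 true true true .pnn 2 1 3 (qsf 1239849684 370763052 536870912 536870912 3) ndB1q2b ndB4q1 pcB3 Cut.none Ext.none)

def k0_pp_213_b : ∃ t, chk3 f_pp_213_b t 1 1 1 = true :=
  ⟨(l 4), by decide +kernel⟩

theorem c_pp_213_b : CertB 1239849684 370763052 536870912 536870912 1020054732 13421774 3 eng mog cd1q2b cd4q1 pd3 true true true .pnn 2 1 3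
    ndB1q2b ndB4q1 pcB3 Cut.none Ext.none :=
  certB0 (fam := true) (s1 := true) (s2 := true) (a := 2) (b := 1) (c := 3) (cn := .pnn) (n1 := ndB1q2b) (n2 := ndB4q1) (pc := pcB3) (cut := Cut.none) (xt := Ext.none) (P1 := 1239849684) (W1 := 370763052) (P2 := 536870912) (W2 := 536870912) (P3 := 1020054732) (W3 := 13421774) (N0 := 3) (En := eng) (mo := mog) (C1 := cd1q2b) (C2 := cd4q1) (C3 := pd3)
    rfl k0_pp_213_b

noncomputable def f_pp_303 : ℕ → ℕ → ℕ → ℕ → Bool := onCell 1610612736 536870912 0 536870912 1020054732 13421774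
    (rowB 3 eng mog cd1q3 cd4q0 pd3 0 true true true .npn 3 0 3 (qsf 1610612736 536870912 0 536870912 3) ndB1q3 ndB4q0 pcB3 Cut.none Ext.none)

def k0_pp_303 : ∃ t, chk3 f_pp_303 t 1 1 1 = true :=
  ⟨(l 4), by decide +kernel⟩

theorem c_pp_303 : CertB 1610612736 536870912 0 536870912 1020054732 13421774 3 eng mog cd1q3 cd4q0 pd3 true true true .npn 3 0 3
    ndB1q3 ndB4q0 pcB3 Cut.none Ext.none :=
  certB0 (fam := true) (s1 := true) (s2 := true) (a := 3) (b := 0) (c := 3) (cn := .npn) (n1 := ndB1q3) (n2 := ndB4q0) (pc := pcB3) (cut := Cut.none) (xt := Ext.none) (P1 := 1610612736) (W1 := 536870912) (P2 := 0) (W2 := 536870912) (P3 := 1020054732) (W3 := 13421774) (N0 := 3) (En := eng) (mo := mog) (C1 := cd1q3) (C2 := cd4q0) (C3 := pd3)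
    rfl k0_pp_303

noncomputable def f_pp_313 : ℕ → ℕ → ℕ → ℕ → Bool := onCell 1610612736 536870912 536870912 536870912 1020054732 13421774
    (rowB 3 eng mog cd1q3 cd4q1 pd3 0 true true true .dn 3 1 3 (qsf 1610612736 536870912 536870912 536870912 3) ndB1q3 ndB4q1 pcB3 Cut.none Ext.none)

def k0_pp_313 : ∃ t, chk3 f_pp_313 t 1 1 1 = true :=
  ⟨(l 4), by decide +kernel⟩

theorem c_pp_313 : CertB 1610612736 536870912 536870912 536870912 1020054732 13421774 3 eng mog cd1q3 cd4q1 pd3 true true true .dn 3 1 3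
    ndB1q3 ndB4q1 pcB3 Cut.none Ext.none :=
  certB0 (fam := true) (s1 := true) (s2 := true) (a := 3) (b := 1) (c := 3) (cn := .dn) (n1 := ndB1q3) (n2 := ndB4q1) (pc := pcB3) (cut := Cut.none) (xt := Ext.none) (P1 := 1610612736) (W1 := 536870912) (P2 := 536870912) (W2 := 536870912) (P3 := 1020054732) (W3 := 13421774) (N0 := 3) (En := eng) (mo := mog) (C1 := cd1q3) (C2 := cd4q1) (C3 := pd3)
    rfl k0_pp_313

noncomputable def f_pm_001 : ℕ → ℕ → ℕ → ℕ → Bool := onCell 0 536870912 536870912 536870912 1020054732 13421774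
    (rowB 3 eng mog cd1q0 cd4q0 pd1 1 true true false .up 0 0 1 (qsf 0 536870912 0 536870912 1) ndB1q0 ndB4q0 pcB1 Cut.none Ext.none)

def k0_pm_001 : ∃ t, chk3 f_pm_001 t 1 1 1 = true :=
  ⟨(b (l 3) (b (l 3) (a (l 2) (a (b (l 3) (l 2)) (b (a (l 3) (b (l 3) (l 16326696))) (b (a (l 229880146967) (l 16312568)) (b (l 147201617927) (l 145053940039)))))))), by decide +kernel⟩

theorem c_pm_001 : CertB 0 536870912 0 536870912 1020054732 13421774 3 eng mog cd1q0 cd4q0 pd1 true true false .up 0 0 1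
    ndB1q0 ndB4q0 pcB1 Cut.none Ext.none :=
  certB1 (fam := true) (s1 := true) (s2 := false) (a := 0) (b := 0) (c := 1) (cn := .up) (n1 := ndB1q0) (n2 := ndB4q0) (pc := pcB1) (cut := Cut.none) (xt := Ext.none) (P1 := 0) (W1 := 536870912) (P2 := 0) (W2 := 536870912) (P3 := 1020054732) (W3 := 13421774) (N0 := 3) (En := eng) (mo := mog) (C1 := cd1q0) (C2 := cd4q0) (C3 := pd1)
    rfl (fun _ => rfl) k0_pm_001

noncomputable def cut_pm_011 : Cut := Cut.of [[⟨0, 0, 0, 38347922⟩, ⟨1, 1, 0, 38347922⟩, ⟨2, 1, 0, 38347922⟩]]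

noncomputable def xt_pm_011 : Ext := extD3 3 ⟨4, 1, 1, 5, 99, 20, 33, 40, 51, 125, 1, 32⟩ eng cd1q0 cd4q1 pd1 true true false .pnn 0 1 1 rfl ndB1q0 ndB4q1 pcB1

noncomputable def f_pm_011 : ℕ → ℕ → ℕ → ℕ → Bool := onCell 0 536870912 536870912 536870912 1020054732 13421774
    (rowB 3 eng mog cd1q0 cd4q1 pd1 1 true true false .pnn 0 1 1 (qsf 0 536870912 536870912 536870912 1) ndB1q0 ndB4q1 pcB1 cut_pm_011 xt_pm_011)

def k0_pm_011 : ∃ t, chk3 f_pm_011 t 1 1 1 = true :=
  ⟨(b (l 3) (b (l 3) (b (a (l 3) (a (l 3) (b (l 3) (a (l 3) (l 16304392))))) (a (a (b (l 3) (b (l 3) (b (a (l 3) (a (l 3) (l 16602608))) (a (a (b (l 3) (l 6)) (b (l 2626540068151) (a (l 143098723817160767) (l 16695704)))) (a (a (l 16653208) (l 16650952)) (l 16616448)))))) (b (l 3) (b (a (a (l 3) (l 1088941398615)) (a (l 16505080) (l 16464784))) (a (a (b (l 16579184) (l 16571104)) (l 16510576)) (a (l 16488304) (l 16445864)))))) (b (a (a (b (l 3) (l 16429176)) (b (l 16386216) (l 16356512))) (a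 (l 16218016) (l 16232720))) (a (b (a (l 16343088) (l 16329736)) (a (l 16362744) (l 16303128))) (b (a (l 16254880) (l 16180096)) (a (l 16224424) (l 16146304))))))))), by decide +kernel⟩

theorem c_pm_011 : CertB 0 536870912 536870912 536870912 1020054732 13421774 3 eng mog cd1q0 cd4q1 pd1 true true false .pnn 0 1 1
    ndB1q0 ndB4q1 pcB1 cut_pm_011 xt_pm_011 :=
  certB1 (fam := true) (s1 := true) (s2 := false) (a := 0) (b := 1) (c := 1) (cn := .pnn) (n1 := ndB1q0) (n2 := ndB4q1) (pc := pcB1) (cut := cut_pm_011) (xt := xt_pm_011) (P1 := 0) (W1 := 536870912) (P2 := 536870912) (W2 := 536870912) (P3 := 1020054732) (W3 := 13421774) (N0 := 3) (En := eng) (mo := mog) (C1 := cd1q0) (C2 := cd4q1) (C3 := pd1)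
    rfl (fun _ => rfl) k0_pm_011

noncomputable def cut_pm_012 : Cut := Cut.of [[⟨0, 0, 0, 38347922⟩, ⟨1, 1, 0, 38347922⟩, ⟨2, 1, 0, 38347922⟩]]

noncomputable def xt_pm_012 : Ext := extD3 3 ⟨4, 1, 1, 5, 99, 20, 33, 40, 51, 125, 1, 32⟩ eng cd1q0 cd4q1 pd2 true true false .pnp 0 1 2 rfl ndB1q0 ndB4q1 pcB2

noncomputable def f_pm_012 : ℕ → ℕ → ℕ → ℕ → Bool := onCell 1073741824 536870912 536870912 536870912 1020054732 13421774
    (rowB 3 eng mog cd1q0 cd4q1 pd2 2 true true false .pnp 0 1 2 (qsf 0 536870912 536870912 536870912 2) ndB1q0 ndB4q1 pcB2 cut_pm_012 xt_pm_012)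

def k0_pm_012 : ∃ t, chk3 f_pm_012 t 4 1 1 = true :=
  ⟨(a (b (b (b (l 16033896) (l 16045296)) (a (b (l 16182528) (l 16124400)) (b (l 16082840) (l 16112144)))) (b (a (b (a (l 16367056) (l 16305360)) (a (b (l 16452904) (l 16477080)) (b (l 16361560) (l 16400856)))) (b (a (l 16226400) (l 16150744)) (a (l 16249480) (l 16205864)))) (a (b (a (b (a (l 16571328) (l 16518320)) (a (b (l 16608136) (l 16611952)) (l 16522544))) (b (l 16420536) (a (l 16510088) (l 16457136)))) (a (b (b (b (l 141969799969095743) (l 141918947538239551)) (a (a (l 16656096) (l 16646912)) (l 142337243099070527))) (b (a (a (l 6) (b (l 16686448) (l 6))) (a (l 142716437251195007) (l 16590368))) (l 6))) (b (a (l 141078920619147327) (l 140854070377300031)) (b (a (l 141755189058781311) (l 16467624)) (a (b (l 142072535637065855) (l 6)) (b (l 16525600) (a (l 6) (l 16542760)))))))) (b (b (a (l 16343696) (l 16250448)) (a (l 16317256) (l 16281824))) (b (a (l 139101723554824255) (l 138919754168680511))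 (a (b (l 140072180064567423) (a (b (l 16489488) (l 16499616)) (l 16396568))) (b (l 16297736) (a (l 16383768) (l 16330240))))))))) (b (b (b (l 15855160) (l 15888480)) (b (l 15917496) (a (l 16005304) (l 15886520)))) (b (a (b (l 16042856) (a (l 16123928) (l 16045288))) (b (l 15908128) (a (l 15969720) (l 15897000)))) (a (b (a (b (l 16161288) (l 16187832)) (l 16023896)) (b (a (l 16215656) (l 16121096)) (b (l 136855352108843135) (a (l 16252168) (l 16151968))))) (b (a (l 16002696) (l 15921928)) (b (a (l 16030488) (l 15943616)) (a (l 16050768) (l 15959864)))))))), by decide +kernel⟩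

def k1_pm_012 : ∃ t, chk3 f_pm_012 t 5 1 1 = true :=
  ⟨(b (b (a (b (l 2) (l 15712472)) (l 2)) (a (a (a (l 15757064) (l 15749728)) (l 15679280)) (b (l 15553512) (l 15540088)))) (b (a (a (a (b (l 15813504) (l 15827000)) (a (b (l 15767976) (l 15776160)) (b (a (l 15745672) (l 15730736)) (a (l 15751360) (l 15735016))))) (b (l 15667328) (l 15662056))) (b (l 15512784) (a (l 15538864) (l 15425920)))) (a (a (a (b (l 15844424) (b (l 15860448) (l 15872960))) (a (b (l 15788352) (l 15805464)) (b (a (l 15761192) (l 15743728)) (a (l 15776032) (b (l 15753288) (l 15761592)))))) (b (l 15662112) (b (l 15665096) (l 15669072)))) (b (a (l 15522544) (l 15392208)) (a (l 15511256) (l 15364712)))))), by decide +kernel⟩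

def k2_pm_012 : ∃ t, chk3 f_pm_012 t 3 1 1 = true :=
  ⟨(b (a (b (l 2) (a (b (l 2) (l 15380216)) (l 2))) (l 2)) (a (b (a (b (l 15339912) (l 15112400)) (b (l 15194992) (l 15125112))) (a (b (a (l 15272104) (l 15163800)) (a (l 15227832) (l 15100824))) (b (a (l 15069024) (l 14991976)) (a (l 14984752) (l 14882640))))) (b (a (b (l 2) (l 15000824)) (l 2)) (a (b (l 14898472) (a (l 14796392) (l 14732976))) (b (l 14801384) (l 14663568)))))), by decide +kernel⟩

theorem s3_pm_012 : ∃ t, chk3 f_pm_012 t 2 1 1 = true := ex3_a k0_pm_012 k1_pm_012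

theorem s4_pm_012 : ∃ t, chk3 f_pm_012 t 1 1 1 = true := ex3_a s3_pm_012 k2_pm_012

theorem c_pm_012 : CertB 0 536870912 536870912 536870912 1020054732 13421774 3 eng mog cd1q0 cd4q1 pd2 true true false .pnp 0 1 2
    ndB1q0 ndB4q1 pcB2 cut_pm_012 xt_pm_012 :=
  certB2 (fam := true) (s1 := true) (s2 := false) (a := 0) (b := 1) (c := 2) (cn := .pnp) (n1 := ndB1q0) (n2 := ndB4q1) (pc := pcB2) (cut := cut_pm_012) (xt := xt_pm_012) (P1 := 0) (W1 := 536870912) (P2 := 536870912) (W2 := 536870912) (P3 := 1020054732) (W3 := 13421774) (N0 := 3) (En := eng) (mo := mog) (C1 := cd1q0) (C2 := cd4q1) (C3 := pd2)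
    rfl (fun _ => rfl) s4_pm_012

noncomputable def f_pm_022 : ℕ → ℕ → ℕ → ℕ → Bool := onCell 1073741824 536870912 1073741824 536870912 1020054732 13421774
    (rowB 3 eng mog cd1q0 cd4q2 pd2 2 true true false .pp 0 2 2 (qsf 0 536870912 1073741824 536870912 2) ndB1q0 ndB4q2 pcB2 Cut.none Ext.none)

def k0_pm_022 : ∃ t, chk3 f_pm_022 t 1 1 1 = true :=
  ⟨(a (b (b (a (l 3) (a (a (a (a (l 3) (b (l 16165728) (l 2886383980551))) (a (b (l 16079016) (b (l 16063640) (l 15969304))) (a (b (l 16030168) (b (l 16032432) (l 15937584))) (b (a (l 16096400) (l 16060920)) (a (b (l 16029928) (l 15931536)) (b (l 16038224) (l 15939632))))))) (b (b (l 16145424) (l 16066168)) (b (l 15956696) (l 15858696)))) (b (b (l 15847680) (l 15747728)) (b (l 15638688) (l 15457392))))) (b (a (a (l 1) (l 3)) (a (a (a (l 3) (a (b (l 15885624) (l 1)) (a (b (l 15854112) (l 1)) (a (b (l 15845192) (l 1)) (b (l 15852272) (l 15713064)))))) (b (l 15771952) (l 352755288151))) (a (b (l 15614312) (l 15539240))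 (b (l 15465808) (l 15391120))))) (a (l 1) (a (a (l 1) (b (l 321617068263) (l 1))) (a (b (l 15475136) (l 490194039895)) (b (l 15327424) (l 15275464))))))) (a (l 1) (b (a (l 1) (b (a (l 1) (b (l 15237584) (l 1))) (l 1))) (l 1)))) (b (b (a (b (a (b (l 15674664) (l 15553384)) (l 15271320)) (a (b (l 15444232) (l 15346920)) (l 15156392))) (b (a (l 15181312) (l 15027808)) (a (l 14959296) (l 14803128)))) (a (b (a (b (l 15261184) (l 15186768)) (l 14984376)) (a (b (l 15125224) (l 15080744)) (b (l 14890864) (l 14852984)))) (b (a (l 14785864) (l 14628272)) (a (l 14675552) (l 14515328))))) (a (b (a (b (b (l 15048264) (l 15026376)) (b (l 495025059367) (l 1))) (b (l 14816632) (l 308193517831))) (a (l 1) (b (l 512204540631) (l 1)))) (b (b (a (l 14629128) (l 14473208)) (a (l 14622632) (l 14473560))) (b (a (l 454758967639) (l 14510096)) (a (l 500930026663) (l 14578832))))))), by decide +kernel⟩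

theorem c_pm_022 : CertB 0 536870912 1073741824 536870912 1020054732 13421774 3 eng mog cd1q0 cd4q2 pd2 true true false .pp 0 2 2
    ndB1q0 ndB4q2 pcB2 Cut.none Ext.none :=
  certB2 (fam := true) (s1 := true) (s2 := false) (a := 0) (b := 2) (c := 2) (cn := .pp) (n1 := ndB1q0) (n2 := ndB4q2) (pc := pcB2) (cut := Cut.none) (xt := Ext.none) (P1 := 0) (W1 := 536870912) (P2 := 1073741824) (W2 := 536870912) (P3 := 1020054732) (W3 := 13421774) (N0 := 3) (En := eng) (mo := mog) (C1 := cd1q0) (C2 := cd4q2) (C3 := pd2)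
    rfl (fun _ => rfl) k0_pm_022

noncomputable def f_pm_023 : ℕ → ℕ → ℕ → ℕ → Bool := onCell 1610612736 536870912 1073741824 536870912 1020054732 13421774
    (rowB 3 eng mog cd1q0 cd4q2 pd3 2 true true false .up 0 2 3 (qsf 0 536870912 1073741824 536870912 3) ndB1q0 ndB4q2 pcB3 Cut.none Ext.none)

def k0_pm_023 : ∃ t, chk3 f_pm_023 t 1 1 1 = true :=
  ⟨(a (b (a (b (a (b (b (l 15135096) (l 15004224)) (a (l 14738928) (l 14737544))) (b (a (b (l 2) (l 15015776)) (l 2)) (a (l 14746448) (l 14763448)))) (b (a (a (l 14428496) (l 14421880)) (a (l 14427800) (l 14444384))) (a (b (l 14225928) (l 14187776)) (b (l 14225544) (l 14131120))))) (b (a (b (l 2) (a (l 14779736) (l 2))) (l 2)) (a (b (a (l 14469368) (l 14500064)) (a (l 14195280) (l 14231784))) (b (a (l 14529368) (l 2)) (l 14297280))))) (a (b (b (a (l 14237032) (l 14151296)) (a (l 14343592) (l 14259352))) (b (a (l 14487144) (l 14405584)) (a (b (l 14616976) (a (l 14719984) (l 14647816))) (b (l 14515096) (l 14363376)))))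 (b (b (a (l 13963096) (a (l 14108232) (l 14131576))) (l 14044848)) (b (a (l 14332976) (l 14276136)) (a (b (l 14401864) (l 14351064)) (l 14279984)))))) (b (a (b (l 2) (a (b (l 2) (a (l 14358560) (l 2))) (l 2))) (l 2)) (a (b (a (b (a (l 14170768) (l 14222136)) (l 14164984)) (b (l 14416088) (l 14121264))) (a (b (l 14246520) (l 14233184)) (b (l 14246416) (l 14267568)))) (b (a (b (l 2) (l 14298112)) (l 2)) (b (a (l 14309736) (a (l 14378624) (l 2))) (a (l 14344544) (a (l 14428856) (a (l 14469312) (a (l 14490136) (a (l 14499712) (a (l 14504376) (l 14508712)))))))))))), by decide +kernel⟩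

theorem c_pm_023 : CertB 0 536870912 1073741824 536870912 1020054732 13421774 3 eng mog cd1q0 cd4q2 pd3 true true false .up 0 2 3
    ndB1q0 ndB4q2 pcB3 Cut.none Ext.none :=
  certB2 (fam := true) (s1 := true) (s2 := false) (a := 0) (b := 2) (c := 3) (cn := .up) (n1 := ndB1q0) (n2 := ndB4q2) (pc := pcB3) (cut := Cut.none) (xt := Ext.none) (P1 := 0) (W1 := 536870912) (P2 := 1073741824) (W2 := 536870912) (P3 := 1020054732) (W3 := 13421774) (N0 := 3) (En := eng) (mo := mog) (C1 := cd1q0) (C2 := cd4q2) (C3 := pd3)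
    rfl (fun _ => rfl) k0_pm_023

noncomputable def f_pm_033 : ℕ → ℕ → ℕ → ℕ → Bool := onCell 1610612736 536870912 0 1230186008 1020054732 13421774
    (rowB 3 eng mog cd1q0 cd4q3 pd3 2 true true false .pnn 0 3 3 (qsf 0 536870912 0 1230186008 3) ndB1q0 ndB4q3 pcB3 Cut.none Ext.none)

def k0_pm_033 : ∃ t, chk3 f_pm_033 t 2 1 1 = true :=
  ⟨(b (l 1) (b (b (l 1) (a (l 1) (a (l 1) (a (l 1) (a (l 1) (b (l 1) (l 412882467927))))))) (b (a (l 1) (a (b (a (l 1) (b (l 1) (l 479454647271))) (a (b (l 1) (a (l 643738266871) (l 15129680))) (b (l 316783287319) (c (l 15276008) (l 15117264))))) (b (a (b (a (l 1) (l 504687932135)) (l 311414340231)) (b (a (l 414493329223) (l 14826648)) (a (l 14937904) (l 14996672)))) (a (b (l 15003960) (l 15281408)) (b (l 15168144) (l 15370592)))))) (a (b (a (l 1) (a (b (l 1) (l 499856271127)) (b (l 568039534839) (l 15081680)))) (a (a (b (l 1) (a (l 14706208) (l 14815008))) (b (l 14657056) (l 14970992))) (a (b (l 15079248) (l 15170248)) (b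 (l 15277352) (l 15359760))))) (a (b (a (b (a (l 15240104) (l 15325496)) (l 15379392)) (b (l 15223576) (l 15554256))) (a (l 15502552) (l 15671168))) (a (b (a (l 15381416) (l 15617576)) (l 15824848)) (b (l 15613920) (l 15955536)))))))), by decide +kernel⟩

def k1_pm_033 : ∃ t, chk3 f_pm_033 t 3 1 1 = true :=
  ⟨(a (b (l 1) (b (b (a (l 1) (a (b (l 1) (l 361880437511)) (b (l 678097597639) (l 14858400)))) (a (b (a (l 411808512967) (l 347384345735)) (a (l 326983396199) (l 14941024))) (b (a (l 14868088) (l 15061984)) (l 15024008)))) (b (a (a (b (b (l 14964512) (l 15115792)) (b (l 15280208) (l 15466272))) (b (l 15215504) (l 15334520))) (b (l 15461504) (a (l 15642680) (l 15776368)))) (a (b (a (l 15751728) (l 15830472)) (b (l 16045752) (l 16154120))) (b (a (l 15915088) (l 16030544)) (l 16020264)))))) (a (b (b (l 1) (a (b (l 1) (b (l 1) (l 14751320))) (l 4))) (b (b (a (a (b (l 14828872) (l 15008304)) (l 15049352)) (l 15244936)) (a (b (a (l 15206144) (l 15308264)) (l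 15465848)) (b (l 15469760) (l 15636128)))) (b (a (l 15796712) (l 15880576)) (a (l 16066792) (l 16253392))))) (b (l 4) (b (a (b (l 4) (l 15642736)) (l 4)) (b (a (a (l 16010744) (l 16086008)) (a (a (l 16146144) (l 16182680)) (a (l 16238464) (l 4)))) (a (a (l 16273048) (l 16379800)) (a (a (l 16403576) (l 16424616)) (a (l 16452856) (a (l 16481000) (a (l 16496752) (l 16537280))))))))))), by decide +kernel⟩

theorem s2_pm_033 : ∃ t, chk3 f_pm_033 t 1 1 1 = true := ex3_a k0_pm_033 k1_pm_033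

theorem c_pm_033 : CertB 0 536870912 0 1230186008 1020054732 13421774 3 eng mog cd1q0 cd4q3 pd3 true true false .pnn 0 3 3
    ndB1q0 ndB4q3 pcB3 Cut.none Ext.none :=
  certB2 (fam := true) (s1 := true) (s2 := false) (a := 0) (b := 3) (c := 3) (cn := .pnn) (n1 := ndB1q0) (n2 := ndB4q3) (pc := pcB3) (cut := Cut.none) (xt := Ext.none) (P1 := 0) (W1 := 536870912) (P2 := 0) (W2 := 1230186008) (P3 := 1020054732) (W3 := 13421774) (N0 := 3) (En := eng) (mo := mog) (C1 := cd1q0) (C2 := cd4q3) (C3 := pd3)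
    rfl (fun _ => rfl) s2_pm_033

noncomputable def f_pm_101 : ℕ → ℕ → ℕ → ℕ → Bool := onCell 536870912 536870912 0 536870912 1020054732 13421774
    (rowB 3 eng mog cd1q1 cd4q0 pd1 2 true true false .npn 1 0 1 (qsf 536870912 536870912 0 536870912 1) ndB1q1 ndB4q0 pcB1 Cut.none Ext.none)

def k0_pm_101 : ∃ t, chk3 f_pm_101 t 1 1 1 = true :=
  ⟨(a (l 3) (b (a (a (l 3) (a (l 3) (a (b (b (b (l 91433836055) (l 15509064)) (l 3)) (l 3)) (b (b (b (l 15590472) (l 15667632)) (b (l 15818568) (l 15970472))) (b (l 115593238775) (l 3)))))) (a (b (b (a (b (a (l 15568560) (l 15511528)) (a (l 15575120) (l 15470280))) (b (a (l 15350104) (l 15186216)) (a (l 15351760) (l 15217144)))) (a (b (a (l 15722296) (l 15615848)) (a (l 15884832) (l 15788392))) (b (l 15280888) (l 15417744)))) (b (a (c (a (l 16105152) (l 16020024)) (a (l 16010648) (l 15893744))) (b (l 15494112) (a (l 15898760) (l 15769168)))) (a (c (l 15979072) (a (l 16155840) (l 16057872))) (c (l 15882128) (l 15703216)))))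 (b (a (a (b (b (l 15027120) (l 15063784)) (l 15334120)) (b (b (l 14919216) (l 15000704)) (l 15108792))) (b (c (a (l 14862816) (l 14819344)) (a (l 14905312) (l 14879032))) (a (b (l 15025872) (l 15122488)) (l 15010056)))) (a (b (a (l 15577112) (l 15438456)) (a (l 15681352) (l 15681744))) (b (a (l 15301992) (b (l 15132600) (l 15242032))) (a (l 15554944) (l 15432296))))))) (a (l 3) (a (a (b (b (c (l 16215152) (l 15994168)) (l 3)) (l 3)) (b (b (c (l 16081776) (l 15837752)) (c (l 15953104) (l 15981496))) (b (c (a (l 16256208) (l 16169696)) (l 147805983271)) (c (l 539050299463) (l 16147632))))) (b (a (b (c (l 15995888) (l 15846064)) (c (l 16022424) (l 16003408))) (b (a (l 15719184) (l 15691192)) (a (l 15757512) (l 15818272)))) (a (b (c (b (l 16022768) (l 15996472)) (l 16115656)) (c (l 211558604503) (l 204042898215))) (b (a (c (l 15869888) (l 16100680)) (l 15650616)) (c (a (l 15840408) (l 15734808)) (a (l 16091160) (l 16009088)))))))))), by decide +kernel⟩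

theorem c_pm_101 : CertB 536870912 536870912 0 536870912 1020054732 13421774 3 eng mog cd1q1 cd4q0 pd1 true true false .npn 1 0 1
    ndB1q1 ndB4q0 pcB1 Cut.none Ext.none :=
  certB2 (fam := true) (s1 := true) (s2 := false) (a := 1) (b := 0) (c := 1) (cn := .npn) (n1 := ndB1q1) (n2 := ndB4q0) (pc := pcB1) (cut := Cut.none) (xt := Ext.none) (P1 := 536870912) (W1 := 536870912) (P2 := 0) (W2 := 536870912) (P3 := 1020054732) (W3 := 13421774) (N0 := 3) (En := eng) (mo := mog) (C1 := cd1q1) (C2 := cd4q0) (C3 := pd1)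
    rfl (fun _ => rfl) k0_pm_101

noncomputable def f_pm_102 : ℕ → ℕ → ℕ → ℕ → Bool := onCell 536870912 536870912 1073741824 536870912 1020054732 13421774
    (rowB 3 eng mog cd1q1 cd4q0 pd2 1 true true false .npp 1 0 2 (qsf 536870912 536870912 0 536870912 2) ndB1q1 ndB4q0 pcB2 Cut.none Ext.none)

def k0_pm_102 : ∃ t, chk3 f_pm_102 t 1 1 1 = true :=
  ⟨(b (a (a (b (a (b (c (l 15751160) (l 16043296)) (c (l 15678656) (l 15977616))) (b (c (l 15838856) (l 16052136)) (l 15627936))) (a (l 2) (b (l 15803736) (l 2)))) (b (a (b (c (l 15902656) (l 15816112)) (l 15736776)) (b (a (l 15732064) (l 15601360)) (l 15523768))) (a (b (l 15841000) (l 15768768)) (b (l 15542920) (l 15538672))))) (a (b (a (b (a (l 15469032) (l 15336088)) (l 15274872)) (b (b (l 15188232) (l 15089096)) (l 14955504))) (a (b (l 15184024) (l 15134448)) (b (l 14809384) (l 14705752)))) (b (a (b (b (l 14948528) (l 14818160)) (l 14552728)) (b (b (c (l 14722696) (l 14745912)) (a (l 14625704) (l 14505016)))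 (a (l 14402440) (l 14251352)))) (a (b (l 14425736) (l 14258352)) (b (l 13851240) (l 13797616)))))) (a (a (l 2) (b (a (l 2) (b (l 15575976) (l 2))) (l 2))) (a (b (a (b (l 15129256) (l 15171128)) (b (l 14648976) (l 14642816))) (a (l 2) (l 14716016))) (b (a (b (l 14140240) (l 14076424)) (b (l 13607448) (l 13475992))) (a (l 83846550615) (b (l 13409248) (l 13412856))))))), by decide +kernel⟩

theorem c_pm_102 : CertB 536870912 536870912 0 536870912 1020054732 13421774 3 eng mog cd1q1 cd4q0 pd2 true true false .npp 1 0 2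
    ndB1q1 ndB4q0 pcB2 Cut.none Ext.none :=
  certB1 (fam := true) (s1 := true) (s2 := false) (a := 1) (b := 0) (c := 2) (cn := .npp) (n1 := ndB1q1) (n2 := ndB4q0) (pc := pcB2) (cut := Cut.none) (xt := Ext.none) (P1 := 536870912) (W1 := 536870912) (P2 := 0) (W2 := 536870912) (P3 := 1020054732) (W3 := 13421774) (N0 := 3) (En := eng) (mo := mog) (C1 := cd1q1) (C2 := cd4q0) (C3 := pd2)
    rfl (fun _ => rfl) k0_pm_102

noncomputable def f_pm_112 : ℕ → ℕ → ℕ → ℕ → Bool := onCell 536870912 536870912 1073741824 536870912 1020054732 13421774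
    (rowB 3 eng mog cd1q1 cd4q1 pd2 1 true true false .dn 1 1 2 (qsf 536870912 536870912 536870912 536870912 2) ndB1q1 ndB4q1 pcB2 Cut.none Ext.none)

def k0_pm_112 : ∃ t, chk3 f_pm_112 t 1 1 1 = true :=
  ⟨(b (a (a (b (a (b (c (l 15869016) (l 16136664)) (l 15768240)) (b (l 405368953095) (l 15857312))) (a (c (l 15565400) (l 15735608)) (b (l 15902608) (l 15777424)))) (b (a (b (l 1) (l 15885776)) (l 1)) (a (b (l 15767576) (l 15634416)) (b (l 15545264) (l 15421056))))) (a (b (l 1) (a (l 401609337431) (l 1))) (l 1))) (a (a (b (a (b (l 15575584) (l 15353560)) (b (l 15614824) (l 15440512))) (a (b (l 15099448) (l 14817040)) (b (l 15257824) (l 15070656)))) (b (a (b (l 15488976) (l 15334224)) (b (l 15286448) (l 15144528))) (a (b (l 15173576) (l 15010984)) (b (l 14998824) (l 14853376))))) (a (b (a (l 82170631447) (b (l 14651440) (l 14520088))) (a (l 14671456) (b (l 14389872) (l 14265224)))) (b (a (l 358120690679) (l 1)) (a (l 13701544) (b (l 13411616) (l 13296040))))))),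 by decide +kernel⟩

theorem c_pm_112 : CertB 536870912 536870912 536870912 536870912 1020054732 13421774 3 eng mog cd1q1 cd4q1 pd2 true true false .dn 1 1 2
    ndB1q1 ndB4q1 pcB2 Cut.none Ext.none :=
  certB1 (fam := true) (s1 := true) (s2 := false) (a := 1) (b := 1) (c := 2) (cn := .dn) (n1 := ndB1q1) (n2 := ndB4q1) (pc := pcB2) (cut := Cut.none) (xt := Ext.none) (P1 := 536870912) (W1 := 536870912) (P2 := 536870912) (W2 := 536870912) (P3 := 1020054732) (W3 := 13421774) (N0 := 3) (En := eng) (mo := mog) (C1 := cd1q1) (C2 := cd4q1) (C3 := pd2)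
    rfl (fun _ => rfl) k0_pm_112

noncomputable def f_pm_113 : ℕ → ℕ → ℕ → ℕ → Bool := onCell 536870912 536870912 1610612736 536870912 1020054732 13421774
    (rowB 3 eng mog cd1q1 cd4q1 pd3 1 true true false .nn 1 1 3 (qsf 536870912 536870912 536870912 536870912 3) ndB1q1 ndB4q1 pcB3 Cut.none Ext.none)

def k0_pm_113 : ∃ t, chk3 f_pm_113 t 1 1 1 = true :=
  ⟨(a (b (b (a (a (b (c (l 14235176) (l 13858496)) (l 244907151143)) (b (l 14263168) (l 13809280))) (a (b (l 14475816) (l 14139888)) (b (l 14615872) (l 14308384)))) (a (b (a (l 2) (l 13462064)) (l 2)) (b (a (l 13792048) (l 13979944)) (a (l 13438000) (l 13631576))))) (a (l 2) (b (b (a (l 2) (l 13272408)) (l 2)) (l 2)))) (b (b (a (a (l 14466944) (l 14630400)) (a (l 14650224) (b (l 14696816) (l 14547912)))) (a (b (a (l 14142984) (l 14271808)) (a (l 13828120) (l 14019144))) (b (a (l 14360992) (l 14405408)) (a (l 14178296) (l 14286504))))) (a (a (b (b (l 13492272) (b (l 13245792) (l 2))) (l 2)) (b (b (l 13750680)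 (b (l 13548504) (l 13427072))) (l 4))) (b (b (a (l 14011416) (l 14249624)) (a (l 13878280) (l 4))) (l 4))))), by decide +kernel⟩

theorem c_pm_113 : CertB 536870912 536870912 536870912 536870912 1020054732 13421774 3 eng mog cd1q1 cd4q1 pd3 true true false .nn 1 1 3
    ndB1q1 ndB4q1 pcB3 Cut.none Ext.none :=
  certB1 (fam := true) (s1 := true) (s2 := false) (a := 1) (b := 1) (c := 3) (cn := .nn) (n1 := ndB1q1) (n2 := ndB4q1) (pc := pcB3) (cut := Cut.none) (xt := Ext.none) (P1 := 536870912) (W1 := 536870912) (P2 := 536870912) (W2 := 536870912) (P3 := 1020054732) (W3 := 13421774) (N0 := 3) (En := eng) (mo := mog) (C1 := cd1q1) (C2 := cd4q1) (C3 := pd3)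
    rfl (fun _ => rfl) k0_pm_113

noncomputable def f_pm_123 : ℕ → ℕ → ℕ → ℕ → Bool := onCell 1610612736 536870912 1073741824 536870912 1020054732 13421774
    (rowB 3 eng mog cd1q1 cd4q2 pd3 2 true true false .npn 1 2 3 (qsf 536870912 536870912 1073741824 536870912 3) ndB1q1 ndB4q2 pcB3 Cut.none Ext.none)

def k0_pm_123 : ∃ t, chk3 f_pm_123 t 2 1 1 = true :=
  ⟨(b (a (b (a (b (c (b (l 15669072) (l 15427456)) (b (l 15269384) (l 15054592))) (c (l 313025398023) (l 336110177031))) (b (a (b (l 15308920) (l 15236496)) (b (l 15251248) (l 15214672))) (c (l 177197046439) (b (l 14869816) (l 14681256))))) (b (a (l 1) (c (l 299602806231) (l 14310248))) (l 1))) (b (a (b (a (b (l 15174568) (l 15128664)) (c (l 15117616) (l 14869696))) (a (b (l 15012168) (l 14833992)) (b (l 14939624) (l 14827856)))) (b (a (b (l 14849552) (l 14838000)) (b (l 14709488) (l 14706760))) (a (b (l 14813096) (l 14768536)) (l 14674632)))) (a (b (c (l 14674024) (l 14384376)) (a (l 1) (l 14266856)))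 (b (a (l 14584288) (l 14557808)) (a (l 14289864) (l 14311248)))))) (a (l 1) (b (b (a (l 1) (a (l 1) (l 14094240))) (l 1)) (l 1)))), by decide +kernel⟩

def k1_pm_123 : ∃ t, chk3 f_pm_123 t 3 1 1 = true :=
  ⟨(b (a (b (a (b (a (b (l 14622008) (l 14604064)) (b (l 14584600) (l 14567512))) (a (l 14572888) (l 14508992))) (b (b (l 14593328) (l 14589984)) (a (b (l 14533168) (l 14476520)) (l 14552392)))) (a (b (a (l 14501176) (l 14431976)) (a (l 14327784) (l 14320632))) (b (a (b (l 14414624) (l 14364680)) (l 14420088)) (a (l 14283768) (l 14259616))))) (b (a (b (a (b (l 14747720) (l 14728048)) (b (l 15067112) (l 14961752))) (a (l 14647264) (l 14927288))) (b (a (a (l 15387304) (l 15808000)) (l 4)) (a (a (l 15051512) (l 15275304)) (a (l 15577216) (l 4))))) (a (b (l 14527968) (a (l 14307616) (l 14388592))) (a (a (b (l 14752176) (l 14486200)) (b (l 14904312) (l 14586520))) (a (b (l 15118560) (a (l 14694560) (l 14785320))) (a (l 14941984) (l 4))))))) (a (b (a (b (a (l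 14107088) (l 14130984)) (l 238936095479)) (b (a (l 14170016) (l 14155328)) (a (l 14056936) (l 14065472)))) (a (l 1) (b (l 206186093527) (l 1)))) (b (a (b (a (l 14179184) (l 14215264)) (a (l 14077872) (l 14108616))) (a (a (b (l 14278520) (l 14143040)) (b (l 14342376) (l 14177472))) (a (a (b (l 14415536) (l 14218432)) (l 14092552)) (a (l 14125512) (a (l 14393496) (b (l 4) (a (l 14308056) (l 14304896)))))))) (a (b (l 14063784) (l 14114952)) (a (b (a (l 14085232) (l 14102888)) (l 14120264)) (a (a (b (l 14120712) (l 14126096)) (l 14133872)) (a (l 14153008) (a (l 14146480) (a (l 13965136) (b (l 14197296) (l 14184600))))))))))), by decide +kernel⟩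

theorem s2_pm_123 : ∃ t, chk3 f_pm_123 t 1 1 1 = true := ex3_a k0_pm_123 k1_pm_123

theorem c_pm_123 : CertB 536870912 536870912 1073741824 536870912 1020054732 13421774 3 eng mog cd1q1 cd4q2 pd3 true true false .npn 1 2 3
    ndB1q1 ndB4q2 pcB3 Cut.none Ext.none :=
  certB2 (fam := true) (s1 := true) (s2 := false) (a := 1) (b := 2) (c := 3) (cn := .npn) (n1 := ndB1q1) (n2 := ndB4q2) (pc := pcB3) (cut := Cut.none) (xt := Ext.none) (P1 := 536870912) (W1 := 536870912) (P2 := 1073741824) (W2 := 536870912) (P3 := 1020054732) (W3 := 13421774) (N0 := 3) (En := eng) (mo := mog) (C1 := cd1q1) (C2 := cd4q2) (C3 := pd3)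
    rfl (fun _ => rfl) s2_pm_123

noncomputable def f_pm_133 : ℕ → ℕ → ℕ → ℕ → Bool := onCell 536870912 536870912 0 1230186008 1020054732 13421774
    (rowB 3 eng mog cd1q1 cd4q3 pd3 0 true true false .dn 1 3 3 (qsf 536870912 536870912 0 1230186008 3) ndB1q1 ndB4q3 pcB3 Cut.none Ext.none)

def k0_pm_133 : ∃ t, chk3 f_pm_133 t 1 1 1 = true :=
  ⟨(b (l 2) (b (l 2) (a (b (l 2) (a (b (l 2) (a (l 4) (l 2))) (l 2))) (l 2)))), by decide +kernel⟩

theorem c_pm_133 : CertB 536870912 536870912 0 1230186008 1020054732 13421774 3 eng mog cd1q1 cd4q3 pd3 true true false .dn 1 3 3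
    ndB1q1 ndB4q3 pcB3 Cut.none Ext.none :=
  certB0 (fam := true) (s1 := true) (s2 := false) (a := 1) (b := 3) (c := 3) (cn := .dn) (n1 := ndB1q1) (n2 := ndB4q3) (pc := pcB3) (cut := Cut.none) (xt := Ext.none) (P1 := 536870912) (W1 := 536870912) (P2 := 0) (W2 := 1230186008) (P3 := 1020054732) (W3 := 13421774) (N0 := 3) (En := eng) (mo := mog) (C1 := cd1q1) (C2 := cd4q3) (C3 := pd3)
    rfl k0_pm_133

noncomputable def f_pm_202_a : ℕ → ℕ → ℕ → ℕ → Bool := onCell 0 536870912 0 536870912 1020054732 13421774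
    (rowB 3 eng mog cd1q2a cd4q0 pd2 0 true true false .pp 2 0 2 (qsf 0 536870912 0 536870912 2) ndB1q2a ndB4q0 pcB2 Cut.none Ext.none)

def k0_pm_202_a : ∃ t, chk3 f_pm_202_a t 2 4 1 = true :=
  ⟨(b (a (b (a (b (l 15199296) (l 15264872)) (l 15051904)) (a (l 15348816) (l 15165816))) (b (a (c (l 14865384) (l 14843504)) (b (a (l 14719816) (l 14647872)) (a (l 14717128) (l 14624936)))) (a (l 14932720) (b (a (l 14730376) (l 14618832)) (l 14691936))))) (a (a (l 4) (b (b (l 15303936) (l 15372112)) (l 15449128))) (a (b (l 15065400) (l 15003312)) (b (l 14579840) (l 14868208))))), by decide +kernel⟩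

def k1_pm_202_a : ∃ t, chk3 f_pm_202_a t 6 4 1 = true :=
  ⟨(b (a (b (a (b (a (l 14602648) (l 14577680)) (l 14544616)) (b (a (l 14557576) (l 14542968)) (a (l 14494688) (l 14467440)))) (a (b (l 14517280) (l 14506632)) (b (l 14429944) (l 14397072)))) (b (b (a (a (b (l 14571192) (l 14514512)) (l 14567160)) (b (a (l 14630360) (l 14659520)) (l 14579936))) (a (a (b (l 14466896) (l 14426704)) (b (l 14471384) (l 14415272))) (a (l 14468288) (l 14497704)))) (a (b (a (l 14376544) (b (l 14367992) (l 14330288))) (l 14304288)) (b (a (b (l 14373944) (l 14317752)) (l 14371688)) (a (b (l 14269760) (l 14233328)) (l 14251776)))))) (a (b (b (a (l 14511848) (l 14380848)) (l 14454096)) (b (l 14478672) (l 14517040))) (b (a (b (l 14264664) (l 14241768)) (b (a (l 14190168) (b (l 14172984) (l 14133824))) (l 14120672))) (b (a (l 14234848) (l 14089960)) (l 14135496))))), by decide +kernel⟩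

def k2_pm_202_a : ∃ t, chk3 f_pm_202_a t 7 4 1 = true :=
  ⟨(b (a (b (a (a (b (b (l 14687288) (l 14622112)) (l 14525704)) (b (b (l 14713464) (l 14648392)) (l 14552112))) (a (b (b (l 14737832) (l 14672864)) (l 14576712)) (b (b (l 14802112) (l 14695312)) (b (l 14631104) (l 14567576))))) (a (b (a (l 14399776) (l 14426272)) (l 14290696)) (b (a (l 14450960) (l 14473648)) (a (l 14328296) (l 14351008))))) (b (b (b (a (a (b (l 14796520) (l 14763992)) (b (a (l 14809880) (l 14817976)) (l 14781592))) (a (b (a (l 14825360) (b (l 14840112) (l 14823888))) (a (l 14792952) (l 14799632))) (b (a (b (a (l 14844568) (l 14847288)) (l 14829760)) (a (b (b (l 14853856) (l 14845760)) (l 14833640)) (a (b (b (l 14855600) (l 14847520)) (l 14835424)) (c (l 14843000) (l 14846536))))) (a (l 14805552) (a (l 14809488) (l 14811960)))))) (a (a (l 14715504) (a (l 14728976) (l 14737160))) (a (a (l 14744640) (l 14751392)) (a (b (l 14773424) (l 14741456)) (a (l 14761504) (l 14764112)))))) (a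 (a (b (l 14651392) (l 14587952)) (b (l 14669208) (l 14605872))) (a (b (l 14684328) (l 14621152)) (a (b (l 14693816) (l 14630848)) (b (l 14699440) (l 14636656)))))) (a (b (a (l 14494120) (l 14512176)) (a (l 14371552) (l 14389736))) (a (b (l 14569624) (l 14405472)) (b (a (l 14537632) (l 14543664)) (l 14418896)))))) (a (b (a (b (l 14192320) (a (b (l 14078544) (l 14036184)) (l 14068560))) (b (l 14220600) (l 14104648))) (a (b (a (l 13995696) (l 13966792)) (a (l 13961584) (l 13895456))) (b (l 13992344) (l 13928968)))) (a (b (b (l 14366480) (l 14145504)) (b (l 14032896) (l 13923960))) (b (a (b (l 14286240) (l 14170208)) (b (l 14299928) (l 14184072))) (a (l 14002680) (l 14016640)))))), by decide +kernel⟩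

def k3_pm_202_a : ∃ t, chk3 f_pm_202_a t 1 5 1 = true :=
  ⟨(a (a (l 4) (b (a (b (l 15157496) (l 15504048)) (b (l 15035648) (a (l 15344384) (l 15122992)))) (a (l 4) (b (a (l 15482752) (l 15331784)) (l 15514200))))) (a (b (a (b (l 14389056) (l 14664976)) (b (b (l 14168192) (l 14194024)) (a (l 14380192) (l 14140216)))) (a (b (l 14940584) (l 14924104)) (b (a (l 14525416) (l 14249480)) (l 14493144)))) (a (b (b (a (b (l 13902968) (l 13895152)) (a (b (l 13798584) (l 13760968)) (b (l 13790168) (l 13706248)))) (b (a (l 13902192) (l 13703800)) (l 13808048))) (b (a (l 13980232) (l 13723128)) (a (l 14098784) (l 13801016)))) (b (a (b (l 13767920) (a (b (l 13619064) (l 13557512)) (l 13581080))) (b (a (l 13792040) (l 13805872)) (l 13604256))) (a (b (a (l 13542544) (b (l 13466744) (l 13431744))) (l 13517712)) (b (b (l 13469120) (l 13389672)) (a (b (l 13334152) (l 13328664)) (l 13284608)))))))), by decide +kernel⟩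

def k4_pm_202_a : ∃ t, chk3 f_pm_202_a t 1 3 1 = true :=
  ⟨(a (l 4) (b (a (b (a (b (a (l 15458048) (l 15252352)) (l 15474600)) (b (l 14764736) (l 14958608))) (a (l 4) (b (a (l 15370808) (l 15082864)) (a (l 4) (l 15296248))))) (b (a (b (a (l 14261264) (l 13927072)) (l 14276512)) (a (b (l 13602544) (l 13734296)) (b (a (l 13371216) (l 13232928)) (l 13386960)))) (a (b (l 14496288) (l 14745000)) (a (l 14008544) (l 13606320))))) (a (b (a (l 4) (b (l 15480928) (l 4))) (l 2)) (a (b (b (a (l 15195416) (l 14799960)) (a (l 15350504) (l 15063112))) (a (l 4) (b (l 15249080) (l 2)))) (b (a (l 14484144) (l 14024192)) (a (b (l 14893600) (l 15113576)) (l 14543792))))))), by decide +kernel⟩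

theorem s5_pm_202_a : ∃ t, chk3 f_pm_202_a t 3 4 1 = true := ex3_a k1_pm_202_a k2_pm_202_a

theorem s6_pm_202_a : ∃ t, chk3 f_pm_202_a t 1 4 1 = true := ex3_a k0_pm_202_a s5_pm_202_a

theorem s7_pm_202_a : ∃ t, chk3 f_pm_202_a t 1 2 1 = true := ex3_b s6_pm_202_a k3_pm_202_a

theorem s8_pm_202_a : ∃ t, chk3 f_pm_202_a t 1 1 1 = true := ex3_b s7_pm_202_a k4_pm_202_a

theorem c_pm_202_a : CertB 0 536870912 0 536870912 1020054732 13421774 3 eng mog cd1q2a cd4q0 pd2 true true false .pp 2 0 2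
    ndB1q2a ndB4q0 pcB2 Cut.none Ext.none :=
  certB0 (fam := true) (s1 := true) (s2 := false) (a := 2) (b := 0) (c := 2) (cn := .pp) (n1 := ndB1q2a) (n2 := ndB4q0) (pc := pcB2) (cut := Cut.none) (xt := Ext.none) (P1 := 0) (W1 := 536870912) (P2 := 0) (W2 := 536870912) (P3 := 1020054732) (W3 := 13421774) (N0 := 3) (En := eng) (mo := mog) (C1 := cd1q2a) (C2 := cd4q0) (C3 := pd2)
    rfl s8_pm_202_a

end Pool.Agent.Strip051.G.I9500_9625.Tab.C.BA14

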