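import Pool.Agent.Strip051.G.I9500_9625.Tab

/-! # Certificates B3 (generated) -/

set_option linter.all false
set_option maxRecDepth 100000

namespace Pool.Agent.Strip051.G.I9500_9625.Tab.C.BA00

open Pool.Agent.Strip051.PB Pool.Agent.Strip051.PB.T
open Pool.Agent.Strip051.G.I9500_9625.Tab

noncomputable def cut_pm_202 : Cut := Cut.of [[⟨3, 0, 0, 1449551462⟩], [⟨4, 0, 0, 2845415833⟩], [⟨0, 1, 0, 33554432⟩, ⟨1, 0, 0, 33554432⟩, ⟨2, 1, 0, 33554432⟩]]

noncomputable def f_pm_202 : ℕ → ℕ → ℕ → ℕ → Bool := onCell 0 536870912 1073741824 536870912 1020054732 13421774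
    (rowB 3 eng mog cd0q2 cd0q0 pd2 1 true true false .pp 2 0 2 (qsf 0 536870912 0 536870912 2) ndB0q2 ndB0q0 pcB2 cut_pm_202 Ext.none)

def k0_pm_202 : ∃ t, chk3 f_pm_202 t 1 4 1 = true :=
  ⟨(a (b (l 1) (a (l 1) (b (l 1) (a (l 1) (b (l 1) (a (l 1) (l 16450592))))))) (a (b (l 1) (a (b (l 1) (b (a (l 16327440) (a (l 16391904) (l 16390248))) (a (l 16406488) (l 16416728)))) (b (a (a (b (l 1) (l 16321088)) (l 6)) (l 6)) (a (b (a (l 16392088) (l 16418600)) (c (l 16468424) (l 16437168))) (b (a (l 16428040) (l 6)) (b (l 16477072) (l 16434904))))))) (l 6))), by decide +kernel⟩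

def k1_pm_202 : ∃ t, chk3 f_pm_202 t 2 5 1 = true :=
  ⟨(b (a (b (b (l 1) (a (l 16120240) (l 16136336))) (a (b (l 16020208) (l 15918008)) (b (l 16125176) (l 15964408)))) (b (a (b (a (l 16379368) (l 16377976)) (a (l 16289976) (l 16331800))) (a (b (l 16371776) (l 16326376)) (b (l 16401104) (l 16334960)))) (a (b (l 16114568) (a (l 16102480) (l 16146936))) (b (a (l 16256512) (l 16244800)) (a (l 16187304) (l 16220400)))))) (a (b (a (b (l 15814224) (l 15714368)) (b (l 15866400) (l 15710184))) (a (b (l 15622352) (l 15472624)) (b (l 15750096) (l 15647944)))) (b (a (b (a (l 16008536) (l 16056792)) (a (l 15920656) (l 15973912))) (b (a (l 16100680) (l 16140256)) (a (l 16021760) (l 16064344)))) (a (a (l 15738296) (b (l 15895488) (l 15821936))) (a (b (l 15946840) (l 15876448)) (b (l 15993048) (l 15926080))))))), by decide +kernel⟩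

def k2_pm_202 : ∃ t, chk3 f_pm_202 t 3 5 1 = true :=
  ⟨(a (b (a (b (b (a (l 16422072) (a (l 16452056) (l 16411896))) (a (l 16313424) (b (l 16408648) (l 16386832)))) (b (a (b (l 16352208) (l 16309264)) (b (l 16366256) (l 16326512))) (a (b (l 16268504) (l 16229656)) (l 16249352)))) (b (a (b (a (l 16410720) (l 16406440)) (a (l 16368248) (l 16346024))) (b (a (l 16399264) (l 16389600)) (a (l 16320944) (l 16378728)))) (a (b (l 16249920) (l 16220048)) (b (c (l 16321608) (l 16384200)) (c (l 16252808) (l 16318736)))))) (a (b (a (b (l 16172832) (l 16100888)) (b (l 16198200) (l 16130224))) (a (b (l 16033144) (l 15969568)) (b (l 16066352) (l 16005960)))) (b (a (b (l 16173104) (l 16151312)) (b (l 16138424) (l 16120520))) (a (b (l 16090992) (l 16034080)) (b (l 16105920) (l 16052608)))))) (a (b (b (a (b (a (b (l 16459032) (l 16464600)) (l 6)) (a (l 16369416) (l 16356872))) (b (l 6) (a (l 16362080) (l 6)))) (a (b (c (l 16305976) (l 16372960)) (c (l 16241568) (l 16312616))) (b (a (l 16320776) (l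 16303800)) (a (l 16262176) (l 16247344))))) (b (a (b (c (l 16180944) (l 16255776)) (l 16099360)) (b (l 16038032) (l 16044184))) (a (b (l 16067696) (l 16060072)) (b (l 16037560) (l 16054784))))) (b (b (l 6) (a (a (b (l 6) (l 16164960)) (l 6)) (l 6))) (a (b (a (b (l 16134816) (l 16107544)) (b (a (l 16075800) (l 16097264)) (c (l 16059912) (l 16147360)))) (a (b (l 16083088) (l 16040400)) (c (b (l 16014752) (l 15972576)) (l 15982088)))) (b (a (b (c (l 16069264) (l 16139600)) (c (l 16022424) (l 16096960))) (b (l 6) (c (l 15985152) (l 16046368)))) (a (c (b (l 15978584) (l 15937688)) (l 16037944)) (c (l 15922456) (l 15987904)))))))), by decide +kernel⟩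

def k3_pm_202 : ∃ t, chk3 f_pm_202 t 2 6 1 = true :=
  ⟨(b (a (b (a (b (c (l 15454528) (l 15454136)) (c (l 15380160) (l 15376560))) (b (a (l 15558920) (l 15626376)) (c (l 15515544) (l 15527896)))) (b (a (a (l 15227688) (l 15302736)) (a (l 15397672) (l 15490872))) (a (c (a (l 15209664) (l 15282328)) (l 15235984)) (c (l 15368168) (l 15396528))))) (a (b (a (b (l 15691368) (l 15623888)) (b (l 15752960) (l 15688104))) (a (b (l 15560688) (l 15501744)) (b (l 15627360) (l 15570696)))) (b (a (b (l 15810440) (l 15748296)) (b (l 15862944) (l 15803608))) (a (b (l 15690096) (l 15635808)) (c (l 15698512) (l 15745648)))))) (c (a (a (a (b (b (l 15149104) (l 15093472)) (b (l 15042768) (l 14996960))) (b (b (l 15223376) (l 15169200)) (b (l 15119768) (l 15075072)))) (b (b (l 15311784) (l 15259928)) (c (a (l 15175672) (l 15248736)) (l 15211072)))) (a (b (a (l 15391920) (l 15459376)) (b (l 15357760) (l 15317600))) (b (a (l 15544112) (l 15603352)) (a (l 15460488) (l 15502352))))) (a (a (b (b (l 15172936)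 (l 15093712)) (b (l 15040232) (a (l 14968400) (l 15056360)))) (b (b (l 15337520) (l 15282912)) (b (l 15232680) (l 15186784)))) (a (b (a (l 15430152) (l 15506848)) (l 15333576)) (b (a (l 15579840) (l 15648264)) (a (l 15492304) (l 15564856))))))), by decide +kernel⟩

def k4_pm_202 : ∃ t, chk3 f_pm_202 t 4 14 2 = true :=
  ⟨(a (b (a (b (l 14956032) (l 14919936)) (b (l 15035096) (l 14999768))) (a (b (a (l 14868464) (l 14908720)) (a (l 14841784) (l 14882232))) (b (l 14969048) (l 14942896)))) (b (a (b (l 15113504) (l 15079016)) (l 15204912)) (a (b (l 15048960) (l 15023296)) (l 15114816)))), by decide +kernel⟩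

def k5_pm_202 : ∃ t, chk3 f_pm_202 t 16 30 2 = true :=
  ⟨(a (b (a (b (a (a (b (l 14811624) (b (l 14812600) (l 14819600))) (c (l 14826448) (l 14801616))) (l 14819800)) (a (c (b (l 14836864) (l 14854528)) (l 14820480)) (b (c (l 14826824) (l 14801848)) (a (c (l 14830592) (l 14805352)) (c (l 14825280) (l 14800072)))))) (l 14829992)) (a (b (c (b (l 14855608) (l 14874712)) (l 14839728)) (l 14890912)) (b (a (b (c (l 14828496) (l 14803344)) (a (c (l 14833944) (l 14808568)) (c (l 14827680) (l 14802304)))) (l 14821696)) (a (c (b (l 14844016) (l 14863576)) (l 14828392)) (b (c (a (b (l 14827736) (l 14829072)) (l 14831112)) (l 14806112)) (a (l 14826040) (c (b (l 14829528) (l 14831248)) (l 14805848)))))))) (b (l 14860424) (c (l 14854976) (l 14831480)))), by decide +kernel⟩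

def k6_pm_202 : ∃ t, chk3 f_pm_202 t 16 31 2 = true :=
  ⟨(a (b (b (a (l 14930544) (c (b (l 14866128) (l 14886680)) (l 14850888))) (l 14938456)) (b (c (l 14993136) (l 14969224)) (c (l 15037176) (l 15013712)))) (b (a (b (a (b (a (a (b (l 14817728) (l 14821792)) (l 14819504)) (l 14822120)) (a (l 14832312) (b (l 14821264) (a (l 14825048) (l 14821520))))) (l 14828272)) (b (a (l 14844264) (a (b (l 14844936) (a (l 14828728) (l 14824488))) (l 14826832))) (a (l 14865408) (a (l 14840152) (b (a (b (l 14824840) (l 14826360)) (l 14826360)) (a (l 14832856) (b (l 14826440) (l 14828192)))))))) (b (l 14843488) (l 14838328))) (a (b (b (l 14869760) (l 14891448)) (l 14924600)) (b (a (b (a (b (a (b (l 14828120) (l 14830120)) (l 14829384)) (a (l 14837400) (b (l 14829888) (l 14832168)))) (l 14832800)) (a (l 14849384) (b (a (b (l 14831760) (l 14834328)) (l 14832856)) (a (l 14842184) (b (a (l 14833688) (l 14832960)) (l 14836616)))))) (b (l 14840256) (l 14838888))) (a (l 14874008) (b (a (b (a (b (a (l 14835928)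 (l 14834896)) (l 14839024)) (l 14836632)) (a (l 14847304) (b (a (l 14838312) (l 14836920)) (l 14841560)))) (c (l 14852992) (l 14827320))) (a (l 14859832) (b (a (b (a (l 14840840) (l 14839048)) (l 14844224)) (c (b (l 14852976) (l 14853568)) (l 14827768))) (a (l 14852760) (b (a (l 14843528) (c (l 14854232) (l 14828296))) (l 14847040))))))))))), by decide +kernel⟩

def k7_pm_202 : ∃ t, chk3 f_pm_202 t 17 15 2 = true :=
  ⟨(b (b (l 14921280) (c (l 14913936) (l 14894384))) (b (a (l 14871224) (l 14911744)) (a (b (l 14864664) (a (b (l 14852224) (a (a (b (l 14843728) (a (b (l 14842072) (a (c (l 14855392) (l 14829456)) (l 14842456))) (l 14844472))) (l 14848504)) (l 14856072))) (l 14871784))) (l 14903472)))), by decide +kernel⟩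

def k8_pm_202 : ∃ t, chk3 f_pm_202 t 9 15 2 = true :=
  ⟨(b (a (b (l 15002000) (l 14985024)) (l 15072968)) (a (b (l 14972336) (l 14963904)) (l 15047616))), by decide +kernel⟩

def k9_pm_202 : ∃ t, chk3 f_pm_202 t 5 7 2 = true :=
  ⟨(b (a (b (a (l 15249224) (l 15322400)) (a (l 15192200) (l 15267168))) (b (b (l 15419752) (l 15390032)) (a (l 15338976) (l 15406816)))) (a (b (a (l 15151248) (l 15227280)) (a (l 15126072) (l 15202424))) (b (a (l 15300320) (l 15369552)) (a (l 15275928) (l 15345784))))), by decide +kernel⟩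

def k10_pm_202 : ∃ t, chk3 f_pm_202 t 2 7 3 = true :=
  ⟨(a (b (a (b (b (l 14926496) (l 14887192)) (a (b (l 14849064) (l 14818936)) (b (l 14939880) (l 14910304)))) (b (c (l 15128344) (l 15124152)) (l 14997480))) (a (b (a (a (b (a (b (a (b (l 14764176) (l 14764912)) (l 14770800)) (a (l 14782712) (b (l 14764104) (a (l 14767208) (l 14761968))))) (l 14782112)) (a (b (l 14802048) (l 14841360)) (b (a (b (l 14765344) (a (l 14770208) (l 14763968))) (l 14771944)) (a (l 14790224) (b (l 14767864) (a (l 14774736) (l 14767288))))))) (b (l 14816504) (l 14795984))) (b (l 14885320) (l 14864912))) (a (a (b (b (b (l 14836712) (l 14857896)) (l 14889512)) (b (l 14933080) (l 14978240))) (b (a (b (a (b (a (l 14769456) (l 14771152)) (a (l 14780832) (l 14771960))) (l 14777904)) (a (l 14803760) (b (a (b (l 14772312) (l 14775232)) (l 14775608)) (a (l 14788536) (b (l 14775232) (l 14778720)))))) (l 14791632)) (a (b (l 14829704) (l 14874680)) (b (a (b (a (b (l 14778480) (l 14782600)) (l 14781336)) (a (l 14797688)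 (b (l 14782072) (l 14786872)))) (l 14788832)) (a (l 14822736) (b (a (b (l 14786008) (l 14791544)) (l 14788528)) (a (l 14808104) (b (a (l 14790320) (l 14788688)) (l 14796648))))))))) (b (a (l 14826072) (l 14871960)) (a (b (l 14817168) (a (l 14802112) (l 14824104))) (l 14860576))))) (b (a (l 14966184) (l 15056800)) (a (b (l 14940640) (l 14929104)) (l 15025200))))) (b (a (b (l 15297960) (l 15236088)) (b (a (l 15419360) (l 15495256)) (b (l 15413408) (l 15388264)))) (a (b (l 15189696) (l 15137616)) (b (a (l 15316584) (l 15396608)) (b (l 15312264) (l 15300624)))))), by decide +kernel⟩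

def k11_pm_202 : ∃ t, chk3 f_pm_202 t 6 3 1 = true :=
  ⟨(b (b (a (b (a (c (l 15853296) (l 15909264)) (c (l 15890624) (l 15954240))) (a (c (l 15747840) (l 15803464)) (c (l 15790488) (l 15854536)))) (b (a (c (l 15919872) (l 15991112)) (b (l 16002480) (l 15955488))) (a (c (l 15825320) (l 15897688)) (c (l 15850864) (l 15931784))))) (a (b (a (c (l 15657168) (l 15711176)) (c (l 15704504) (l 15767552))) (a (c (l 15559920) (l 15632120)) (c (l 15611256) (l 15693000)))) (b (a (c (l 15744216) (l 15816232)) (c (l 15774888) (l 15856008))) (a (c (l 15676088) (l 15746392)) (c (l 15711056) (l 15791080)))))) (b (a (a (b (b (l 15556672) (l 15527888)) (a (l 15453464) (l 15486144))) (b (c (l 15552152) (l 15630656)) (b (l 15563960) (l 15542768)))) (b (a (c (l 15599408) (l 15687920)) (c (l 15637888) (l 15736584))) (a (b (l 15618320) (l 15598304)) (b (l 15664056) (l 15645232))))) (a (b (a (c (l 15496960) (l 15471856)) (b (l 15503568) (l 15488248))) (a (b (l 15432008) (l 15443104)) (b (l 15475792) (c (l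 15466704) (l 15508064))))) (b (a (b (l 15581024) (l 15566424)) (b (l 15628912) (l 15594056))) (a (b (l 15533480) (l 15524088)) (c (b (l 15571032) (l 15563328)) (l 15610440))))))), by decide +kernel⟩

def k12_pm_202 : ∃ t, chk3 f_pm_202 t 7 3 1 = true :=
  ⟨(b (a (b (a (b (c (l 15948432) (l 16035488)) (c (l 15865728) (l 15955272))) (b (c (l 15944816) (l 16039576)) (b (l 15934352) (l 15899520)))) (a (b (c (l 15795008) (l 15885400)) (c (l 15735608) (l 15825488))) (b (c (l 15803008) (l 15902504)) (c (l 15748128) (l 15847680))))) (b (a (b (a (b (l 16000368) (l 15962928)) (c (a (l 15922080) (l 15908336)) (l 16014816))) (a (l 15890672) (c (l 15846976) (l 15951664)))) (b (a (c (l 15881768) (l 15967576)) (c (l 15848304) (l 15918168))) (a (c (l 15816168) (l 15906456)) (l 15673736)))) (a (b (a (l 15851376) (c (l 15789200) (l 15896880))) (a (l 15800088) (l 15710672))) (b (a (l 15764664) (l 15767160)) (c (l 15657264) (l 15784824)))))) (a (b (a (b (c (l 15666040) (l 15775040)) (a (l 15682648) (l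 15697800))) (b (a (l 15747696) (l 15754624)) (a (l 15709848) (l 15718128)))) (a (b (a (l 15609424) (l 15667408)) (a (b (l 15633600) (l 15624528)) (l 15624360))) (b (a (l 15680296) (l 15689344)) (a (l 15658472) (l 15667688))))) (b (a (b (a (l 15757160) (l 15754328)) (a (l 15721960) (l 15720992))) (b (c (l 15661264) (l 15746984)) (a (l 15691696) (l 15652888)))) (a (b (a (l 15693872) (l 15693816)) (a (l 15672264) (l 15672080))) (b (a (l 15666760) (l 15627472)) (a (l 15646848) (l 15607080))))))), by decide +kernel⟩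

theorem s13_pm_202 : ∃ t, chk3 f_pm_202 t 3 3 1 = true := ex3_a k11_pm_202 k12_pm_202

theorem s14_pm_202 : ∃ t, chk3 f_pm_202 t 16 15 2 = true := ex3_b k5_pm_202 k6_pm_202

theorem s15_pm_202 : ∃ t, chk3 f_pm_202 t 8 15 2 = true := ex3_a s14_pm_202 k7_pm_202

theorem s16_pm_202 : ∃ t, chk3 f_pm_202 t 4 15 2 = true := ex3_a s15_pm_202 k8_pm_202

theorem s17_pm_202 : ∃ t, chk3 f_pm_202 t 4 7 2 = true := ex3_b k4_pm_202 s16_pm_202

theorem s18_pm_202 : ∃ t, chk3 f_pm_202 t 2 7 2 = true := ex3_a s17_pm_202 k9_pm_202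

theorem s19_pm_202 : ∃ t, chk3 f_pm_202 t 2 7 1 = true := ex3_c s18_pm_202 k10_pm_202

theorem s20_pm_202 : ∃ t, chk3 f_pm_202 t 2 3 1 = true := ex3_b k3_pm_202 s19_pm_202

theorem s21_pm_202 : ∃ t, chk3 f_pm_202 t 1 3 1 = true := ex3_a s20_pm_202 s13_pm_202

theorem s22_pm_202 : ∃ t, chk3 f_pm_202 t 1 5 1 = true := ex3_a k1_pm_202 k2_pm_202

theorem s23_pm_202 : ∃ t, chk3 f_pm_202 t 1 2 1 = true := ex3_b k0_pm_202 s22_pm_202

theorem s24_pm_202 : ∃ t, chk3 f_pm_202 t 1 1 1 = true := ex3_b s23_pm_202 s21_pm_202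

theorem c_pm_202 : CertB 0 536870912 0 536870912 1020054732 13421774 3 eng mog cd0q2 cd0q0 pd2 true true false .pp 2 0 2
    ndB0q2 ndB0q0 pcB2 cut_pm_202 Ext.none :=
  certB1 (fam := true) (s1 := true) (s2 := false) (a := 2) (b := 0) (c := 2) (cn := .pp) (n1 := ndB0q2) (n2 := ndB0q0) (pc := pcB2) (cut := cut_pm_202) (xt := Ext.none) (P1 := 0) (W1 := 536870912) (P2 := 0) (W2 := 536870912) (P3 := 1020054732) (W3 := 13421774) (N0 := 3) (En := eng) (mo := mog) (C1 := cd0q2) (C2 := cd0q0) (C3 := pd2)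
    rfl (fun _ => rfl) s24_pm_202

noncomputable def cut_pm_203 : Cut := Cut.of [[⟨3, 0, 0, 1449551462⟩], [⟨4, 0, 0, 2845415833⟩]]

noncomputable def f_pm_203 : ℕ → ℕ → ℕ → ℕ → Bool := onCell 0 536870912 1610612736 536870912 1020054732 13421774
    (rowB 3 eng mog cd0q2 cd0q0 pd3 1 true true false .up 2 0 3 (qsf 0 536870912 0 536870912 3) ndB0q2 ndB0q0 pcB3 cut_pm_203 Ext.none)

def k0_pm_203 : ∃ t, chk3 f_pm_203 t 1 1 1 = true :=
  ⟨(b (a (b (a (b (a (b (a (l 16490584) (l 16400648)) (a (l 16510480) (a (l 16528344) (l 16450824)))) (b (l 16443528) (a (l 16482944) (l 16492072)))) (a (b (b (l 16555384) (l 16557592)) (b (l 16557584) (l 14))) (b (a (b (l 16539448) (l 16497056)) (l 16536648)) (a (b (a (l 16586488) (l 16574304)) (l 16578664)) (b (l 16564640) (l 16540424)))))) (b (b (a (l 16428896) (l 16400608)) (a (l 16480128) (l 16468472))) (a (b (l 16523208) (l 16432840)) (b (l 16508200) (l 16541224))))) (b (a (a (l 14) (b (a (b (l 16618016) (l 14)) (b (a (l 16578616) (l 16592888)) (a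 (l 14) (l 191226259063)))) (l 2))) (b (a (a (l 185320694375) (l 16582152)) (l 16568032)) (l 2))) (l 2))) (a (b (b (a (b (l 16271848) (l 16354328)) (a (b (l 16353512) (l 16408696)) (b (l 16308880) (l 16337928)))) (a (b (l 16409664) (l 16438120)) (b (a (l 16458360) (l 16351048)) (a (l 16461664) (l 2))))) (l 2)) (b (a (b (a (b (l 16282872) (l 16282368)) (b (l 16273344) (l 16218672))) (a (b (l 16235112) (l 2)) (l 2))) (b (a (b (l 16111256) (l 45733221687)) (b (a (l 4930777495) (c (l 15970496) (l 16110560))) (l 2))) (l 2))) (l 2)))) (l 2)), by decide +kernel⟩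

theorem c_pm_203 : CertB 0 536870912 0 536870912 1020054732 13421774 3 eng mog cd0q2 cd0q0 pd3 true true false .up 2 0 3
    ndB0q2 ndB0q0 pcB3 cut_pm_203 Ext.none :=
  certB1 (fam := true) (s1 := true) (s2 := false) (a := 2) (b := 0) (c := 3) (cn := .up) (n1 := ndB0q2) (n2 := ndB0q0) (pc := pcB3) (cut := cut_pm_203) (xt := Ext.none) (P1 := 0) (W1 := 536870912) (P2 := 0) (W2 := 536870912) (P3 := 1020054732) (W3 := 13421774) (N0 := 3) (En := eng) (mo := mog) (C1 := cd0q2) (C2 := cd0q0) (C3 := pd3)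
    rfl (fun _ => rfl) k0_pm_203

end Pool.Agent.Strip051.G.I9500_9625.Tab.C.BA00

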