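import Pool.Agent.Strip051.G.I9500_9625.Tab

/-! # Certificates B7 (generated) -/

set_option linter.all false
set_option maxRecDepth 100000

namespace Pool.Agent.Strip051.G.I9500_9625.Tab.C.BA01

open Pool.Agent.Strip051.PB Pool.Agent.Strip051.PB.T
open Pool.Agent.Strip051.G.I9500_9625.Tab

noncomputable def cut_pm_202 : Cut := Cut.of [[⟨0, 1, 0, 33554432⟩, ⟨1, 0, 0, 33554432⟩, ⟨2, 1, 0, 33554432⟩]]

noncomputable def f_pm_202 : ℕ → ℕ → ℕ → ℕ → Bool := onCell 0 536870912 1073741824 536870912 1020054732 13421774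
    (rowB 3 eng mog cd0q2 cd1q0 pd2 1 true true false .pp 2 0 2 (qsf 0 536870912 0 536870912 2) ndB0q2 ndB1q0 pcB2 cut_pm_202 Ext.none)

def k0_pm_202 : ∃ t, chk3 f_pm_202 t 2 2 1 = true :=
  ⟨(a (b (l 1) (b (b (b (l 1) (a (l 16125088) (l 16158056))) (a (b (l 16012680) (l 15902928)) (b (l 16115128) (l 16011680)))) (b (a (b (l 15796080) (l 15692344)) (b (l 15910864) (l 15812856))) (a (b (l 15591904) (l 15494920)) (b (l 15717832) (l 15625968)))))) (b (b (l 1) (b (l 1) (a (l 1) (b (l 1) (a (l 1) (l 16425024)))))) (b (b (a (b (l 16259800) (l 16200408)) (a (b (l 16391000) (l 16336520)) (a (l 16278848) (l 16290088)))) (a (a (l 16051488) (l 16052536)) (a (b (l 16262856) (l 16170224)) (b (l 16293400) (l 16203808))))) (a (b (b (l 16013776) (l 15921448)) (b (l 15831840) (l 15745112))) (b (a (l 15951664) (l 15905720)) (a (l 15864496) (l 15844952))))))), by decide +kernel⟩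

def k1_pm_202 : ∃ t, chk3 f_pm_202 t 2 6 1 = true :=
  ⟨(a (b (a (b (a (l 15257936) (l 15391960)) (c (a (l 15133608) (l 15225592)) (l 15180424))) (a (b (l 15461160) (l 15296176)) (b (l 15527760) (l 15366984)))) (b (a (c (c (l 15023576) (l 15035232)) (l 15021352)) (c (l 15184280) (l 15184112))) (a (a (a (b (a (b (l 14876176) (a (l 14866312) (l 14852648))) (l 14875312)) (a (l 14886408) (b (c (l 14856040) (l 14821680)) (l 14839632)))) (b (l 14906008) (b (l 14857392) (l 14831400)))) (c (l 14945752) (l 14922952))) (c (l 15035992) (l 15048776))))) (b (a (b (c (l 15606232) (l 15635920)) (c (l 15433536) (l 15478888))) (b (a (l 15704472) (l 15752792)) (a (l 15556616) (l 15609368)))) (a (b (c (l 15317248) (l 15335456)) (c (l 15195360) (l 15206696))) (b (c (l 15432616) (l 15469176)) (c (l 15316568) (l 15347424)))))), by decide +kernel⟩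

def k2_pm_202 : ∃ t, chk3 f_pm_202 t 2 7 1 = true :=
  ⟨(a (b (a (b (a (b (a (l 14910872) (a (b (a (l 14820104) (l 14803032)) (l 14833504)) (b (l 14808048) (c (l 14811464) (l 14775192))))) (c (l 14905752) (l 14892512))) (b (l 14844488) (a (a (b (l 14779200) (l 14777240)) (l 14781704)) (l 14811344)))) (a (l 15022072) (a (b (a (l 14823080) (b (l 14760144) (l 14776184))) (l 14867208)) (b (b (l 14774176) (l 14758352)) (a (b (l 14753792) (l 14788992)) (b (l 14742216) (l 14739064))))))) (b (c (l 15030920) (l 14930536)) (a (l 14802128) (l 14883176)))) (a (b (b (a (l 15150112) (l 14883656)) (l 15110408)) (a (l 15398352) (l 15126488))) (b (a (a (b (a (b (l 14730592) (l 14742608)) (l 14735536)) (a (l 14807792) (b (l 14729960) (l 14762896)))) (b (l 14762784) (b (l 14737000) (l 14732064)))) (l 14806544)) (a (b (a (l 14870160) (a (l 14767488) (b (l 14722968) (l 14732672)))) (l 14904136)) (b (l 14762896) (a (a (b (l 14728720) (l 14756656)) (l 14734736)) (l 14757968)))))))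 (b (a (b (c (l 15089656) (l 15093584)) (l 14998880)) (b (b (l 15252056) (l 15203768)) (l 15138872))) (a (b (l 14902792) (a (l 14828544) (l 14904616))) (b (l 15066352) (a (l 14976648) (l 15043832)))))), by decide +kernel⟩

def k3_pm_202 : ∃ t, chk3 f_pm_202 t 6 8 1 = true :=
  ⟨(l 1), by decide +kernel⟩

def k4_pm_202 : ∃ t, chk3 f_pm_202 t 7 16 1 = true :=
  ⟨(a (l 1) (a (b (l 1) (a (b (l 1) (a (l 1) (a (l 1) (b (l 1) (b (l 1) (a (b (l 1) (c (b (l 16575392) (l 16577128)) (c (l 16552472) (b (l 16548096) (l 16544088))))) (b (l 6) (b (l 6) (c (l 16585968) (l 16547880)))))))))) (b (l 6) (b (l 6) (b (l 6) (b (l 6) (a (b (l 6) (a (c (l 16599304) (l 16562528)) (l 16589480))) (a (l 16608424) (l 16649520))))))))) (b (l 6) (b (l 6) (b (l 6) (b (l 6) (a (a (c (l 16661376) (l 16654456)) (l 16698072)) (a (l 16699160) (l 16691720))))))))), by decide +kernel⟩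

def k5_pm_202 : ∃ t, chk3 f_pm_202 t 14 17 1 = true :=
  ⟨(a (b (l 1) (b (l 1) (a (l 1) (l 16451792)))) (b (a (l 1) (b (a (l 1) (b (l 1) (l 16518056))) (a (l 16487360) (b (l 16532064) (l 16546088))))) (a (b (l 16452688) (l 16483312)) (b (l 16489384) (l 16538984))))), by decide +kernel⟩

def k6_pm_202 : ∃ t, chk3 f_pm_202 t 15 17 1 = true :=
  ⟨(a (b (a (b (a (b (c (l 91301090071) (l 85395480071)) (c (l 16561696) (l 16539152))) (b (a (b (a (l 79489967431) (a (b (l 16538528) (l 16541784)) (c (l 198675355351) (c (l 16550096) (l 207265266455))))) (c (l 16575768) (l 16555176))) (b (a (c (b (b (l 16557888) (l 16580592)) (l 16583224)) (c (b (b (l 16554616) (l 16545568)) (l 16547768)) (a (b (b (l 16546768) (l 16544096)) (l 16546080)) (l 16539152)))) (c (l 16569272) (b (l 16549856) (l 16573472)))) (a (b (a (l 16553584) (l 16557976)) (l 16548496)) (c (l 16597128) (l 16577440))))) (a (b (l 16551104) (l 16578624)) (b (a (l 16563784) (l 16551520)) (a (l 16591176) (l 16578736))))))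 (a (b (l 16563992) (l 16577496)) (b (b (l 16551616) (l 16579016)) (l 16588760)))) (c (b (a (b (a (b (l 16582496) (l 16610176)) (l 16603688)) (l 16587072)) (b (l 16610568) (l 16643888))) (a (a (l 16598960) (l 16636680)) (l 16641856))) (b (a (b (a (b (a (l 16581856) (l 16591616)) (l 16591904)) (l 16577576)) (a (l 16578752) (l 16619136))) (b (a (l 16608440) (l 16650288)) (l 16628496))) (a (b (l 16577744) (l 16609256)) (l 16622160))))) (a (b (c (l 16586944) (l 16556048)) (l 16556192)) (b (a (b (l 16592576) (l 16604888)) (l 16612952)) (a (l 16623456) (l 16596200))))) (b (a (b (a (b (a (l 16655352) (l 16675424)) (l 16654648)) (c (l 16683968) (l 16685792))) (a (c (l 16674176) (l 16662800)) (l 16637192))) (b (a (c (l 16657336) (l 16658904)) (c (l 16652376) (l 16650104))) (c (a (l 16664280) (l 16639432)) (b (l 16641768) (l 16626232))))) (a (b (a (l 16625360) (l 16618376)) (a (l 16589768) (l 16583352))) (b (c (l 16574024) (l 16581728)) (a (l 16577736) (l 16572920)))))),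 by decide +kernel⟩

def k7_pm_202 : ∃ t, chk3 f_pm_202 t 3 9 1 = true :=
  ⟨(a (a (b (l 1) (a (b (l 16316424) (l 16409488)) (b (a (l 16388808) (l 16391600)) (l 16445696)))) (b (b (a (l 1) (b (l 1) (a (l 16408520) (l 16448872)))) (a (b (l 16310360) (l 16329928)) (a (b (l 16446552) (l 16484528)) (l 16398384)))) (a (b (b (l 16412328) (l 16431680)) (l 16449872)) (b (c (l 16499800) (l 16469928)) (l 16447424))))) (a (b (a (b (a (b (l 16436576) (l 16471040)) (b (l 16463408) (l 16495984))) (a (l 16438760) (l 16481816))) (b (a (l 16466360) (l 16518992)) (a (l 16548416) (l 16555632)))) (a (b (c (l 16535184) (l 16520912)) (l 16398120)) (b (l 16430752) (l 16375480)))) (b (a (a (b (l 16553976) (l 16520816)) (b (b (c (l 16573640) (l 16591272)) (l 16514200)) (b (l 16498520) (l 16503768)))) (a (b (c (a (l 16539472) (l 16536704)) (a (l 16574912) (l 16566152))) (a (b (l 16503352) (l 16488640)) (l 16417560))) (b (b (c (l 16542112) (l 16560072)) (l 16432272)) (c (l 16405776)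 (l 16459024))))) (a (a (b (l 16467224) (l 16435400)) (b (l 16407232) (l 16377080))) (a (b (a (l 16351584) (l 16326328)) (a (l 16385728) (l 16278128))) (b (c (l 16372232) (l 16416328)) (c (l 16297824) (l 16353568)))))))), by decide +kernel⟩

def k8_pm_202 : ∃ t, chk3 f_pm_202 t 3 5 1 = true :=
  ⟨(a (b (a (b (a (a (l 16278544) (l 16285992)) (b (l 16420336) (l 16354496))) (a (b (l 16316904) (l 16230344)) (b (l 16311168) (l 16248592)))) (b (a (b (l 16398664) (l 16356952)) (b (l 16386672) (l 16327160))) (a (b (l 16295752) (l 16257168)) (b (l 16248088) (l 16233528))))) (a (b (a (b (l 16145760) (l 16063344)) (b (l 16166952) (l 16087368))) (a (l 15839352) (l 15804544))) (b (a (b (l 16178472) (l 16101760)) (b (l 16178784) (l 16104968))) (a (b (l 16027176) (l 15954848)) (c (l 15959512) (l 16037704)))))) (a (b (b (a (b (l 16340584) (l 16284248)) (b (l 16321200) (l 16268088))) (a (b (l 16187344) (l 16196848)) (b (l 16216320) (l 16207992)))) (b (a (b (l 16166096) (l 16095248))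 (b (l 16138400) (l 16070584))) (a (c (l 15950488) (l 16035952)) (l 15825808)))) (b (a (b (a (l 16200888) (l 16145096)) (a (l 16102288) (l 16070784))) (a (b (b (a (l 16315904) (l 16231120)) (l 16236712)) (l 16032048)) (b (b (b (l 16274952) (l 16241600)) (b (l 16187784) (b (l 16184512) (b (l 16172496) (c (l 16124800) (l 16205248)))))) (b (l 16128568) (l 16066304))))) (a (b (a (l 16072752) (l 16044488)) (a (l 15945552) (l 15920416))) (b (a (l 16009056) (l 15827688)) (a (l 15888168) (l 15856552))))))), by decide +kernel⟩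

def k9_pm_202 : ∃ t, chk3 f_pm_202 t 3 3 1 = true :=
  ⟨(a (b (b (a (a (b (l 15794136) (l 15655240)) (b (l 15785384) (l 15693056))) (b (a (l 15788112) (l 15800824)) (a (l 15721512) (l 15739144)))) (a (b (c (l 15522928) (l 15577784)) (c (l 15413280) (l 15463592))) (a (b (l 15603224) (l 15496968)) (b (l 15625344) (l 15523128))))) (b (a (b (a (l 15314816) (l 15363560)) (l 15171880)) (b (a (l 15403496) (l 15433208)) (a (l 15323512) (l 15356240)))) (a (b (l 15186688) (l 15112216)) (b (a (l 15257616) (l 15292816)) (l 15225864))))) (a (b (b (b (a (l 15779880) (l 15849184)) (a (l 15744272) (l 15734960))) (a (b (l 15635160) (l 15537184)) (b (l 15630736) (l 15537200)))) (b (a (b (l 15451024) (l 15377296)) (b (l 15454984) (l 15384664))) (a (b (l 15316552) (l 15269280)) (l 15240088)))) (b (b (a (b (l 15648752) (l 15644872)) (b (a (l 15775080) (l 15746552)) (a (l 15670568) (l 15644920)))) (a (b (l 15608632) (l 15519696)) (b (l 15438032) (l 15479648)))) (b (a (b (l 15441568)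 (l 15374760)) (b (l 15405688) (l 15342424))) (a (b (l 15319736) (l 15276904)) (b (l 15290272) (l 15249568))))))), by decide +kernel⟩

theorem s10_pm_202 : ∃ t, chk3 f_pm_202 t 7 17 1 = true := ex3_a k5_pm_202 k6_pm_202

theorem s11_pm_202 : ∃ t, chk3 f_pm_202 t 7 8 1 = true := ex3_b k4_pm_202 s10_pm_202

theorem s12_pm_202 : ∃ t, chk3 f_pm_202 t 3 8 1 = true := ex3_a k3_pm_202 s11_pm_202

theorem s13_pm_202 : ∃ t, chk3 f_pm_202 t 3 4 1 = true := ex3_b s12_pm_202 k7_pm_202

theorem s14_pm_202 : ∃ t, chk3 f_pm_202 t 3 2 1 = true := ex3_b s13_pm_202 k8_pm_202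

theorem s15_pm_202 : ∃ t, chk3 f_pm_202 t 3 1 1 = true := ex3_b s14_pm_202 k9_pm_202

theorem s16_pm_202 : ∃ t, chk3 f_pm_202 t 2 3 1 = true := ex3_b k1_pm_202 k2_pm_202

theorem s17_pm_202 : ∃ t, chk3 f_pm_202 t 2 1 1 = true := ex3_b k0_pm_202 s16_pm_202

theorem s18_pm_202 : ∃ t, chk3 f_pm_202 t 1 1 1 = true := ex3_a s17_pm_202 s15_pm_202

theorem c_pm_202 : CertB 0 536870912 0 536870912 1020054732 13421774 3 eng mog cd0q2 cd1q0 pd2 true true false .pp 2 0 2
    ndB0q2 ndB1q0 pcB2 cut_pm_202 Ext.none :=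
  certB1 (fam := true) (s1 := true) (s2 := false) (a := 2) (b := 0) (c := 2) (cn := .pp) (n1 := ndB0q2) (n2 := ndB1q0) (pc := pcB2) (cut := cut_pm_202) (xt := Ext.none) (P1 := 0) (W1 := 536870912) (P2 := 0) (W2 := 536870912) (P3 := 1020054732) (W3 := 13421774) (N0 := 3) (En := eng) (mo := mog) (C1 := cd0q2) (C2 := cd1q0) (C3 := pd2)
    rfl (fun _ => rfl) s18_pm_202

noncomputable def f_pm_203 : ℕ → ℕ → ℕ → ℕ → Bool := onCell 0 536870912 1610612736 536870912 1020054732 13421774
    (rowB 3 eng mog cd0q2 cd1q0 pd3 1 true true false .up 2 0 3 (qsf 0 536870912 0 536870912 3) ndB0q2 ndB1q0 pcB3 Cut.none Ext.none)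

def k0_pm_203 : ∃ t, chk3 f_pm_203 t 1 1 1 = true :=
  ⟨(b (b (a (b (a (b (a (l 16631672) (l 16526136)) (a (l 16670976) (l 16646080))) (b (l 16444792) (a (l 16614648) (l 16603384)))) (a (b (l 16651888) (l 16640920)) (a (a (l 16508072) (l 16487632)) (l 16461752)))) (a (b (a (l 16552264) (l 16379832)) (a (l 16484832) (l 16366192))) (a (b (c (l 16232680) (l 16341416)) (l 220216395783)) (b (a (l 39290725991) (c (l 15933072) (l 16056928))) (l 2))))) (a (b (a (a (b (l 16649008) (l 2)) (l 16631416)) (a (l 16602888) (b (l 16551680) (l 2)))) (l 2)) (a (l 2) (l 2)))) (l 2)), by decide +kernel⟩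

theorem c_pm_203 : CertB 0 536870912 0 536870912 1020054732 13421774 3 eng mog cd0q2 cd1q0 pd3 true true false .up 2 0 3
    ndB0q2 ndB1q0 pcB3 Cut.none Ext.none :=
  certB1 (fam := true) (s1 := true) (s2 := false) (a := 2) (b := 0) (c := 3) (cn := .up) (n1 := ndB0q2) (n2 := ndB1q0) (pc := pcB3) (cut := Cut.none) (xt := Ext.none) (P1 := 0) (W1 := 536870912) (P2 := 0) (W2 := 536870912) (P3 := 1020054732) (W3 := 13421774) (N0 := 3) (En := eng) (mo := mog) (C1 := cd0q2) (C2 := cd1q0) (C3 := pd3)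
    rfl (fun _ => rfl) k0_pm_203

noncomputable def f_pm_213 : ℕ → ℕ → ℕ → ℕ → Bool := onCell 0 536870912 1610612736 536870912 1020054732 13421774
    (rowB 3 eng mog cd0q2 cd1q1 pd3 1 true true false .pnn 2 1 3 (qsf 0 536870912 536870912 536870912 3) ndB0q2 ndB1q1 pcB3 Cut.none Ext.none)

def k0_pm_213 : ∃ t, chk3 f_pm_213 t 2 1 1 = true :=
  ⟨(b (b (b (l 1) (a (l 1) (a (l 1) (c (l 617970397591) (l 597569935095))))) (b (a (b (b (l 1) (c (l 16299984) (l 16500568))) (c (a (l 16168528) (l 16368864)) (a (l 16455688) (l 16626928)))) (a (c (b (l 16296800) (l 16333280)) (b (l 16543064) (l 16579360))) (c (b (l 16231808) (l 16159160)) (b (l 16443208) (l 16369248))))) (a (a (b (c (l 108144778615) (l 108145319047)) (l 4)) (b (b (l 16360392) (l 48552419319)) (b (l 71101030823) (l 16342160)))) (a (b (c (l 16379616) (l 16621552)) (l 5065765671)) (b (c (l 16308936) (l 16514352)) (l 16268336)))))) (b (a (l 4) (a (b (b (c (l 16438480) (l 16636792)) (b (l 16450408) (l 16500272)))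 (l 4)) (b (b (l 16350816) (l 16360840)) (b (c (l 16505048) (l 16563712)) (a (l 4) (l 16465120)))))) (l 4))), by decide +kernel⟩

def k1_pm_213 : ∃ t, chk3 f_pm_213 t 3 2 1 = true :=
  ⟨(a (b (b (l 1) (a (c (l 16188344) (l 16440000)) (c (l 16225888) (l 16415872)))) (b (a (b (l 16208632) (l 16158840)) (c (l 16208040) (l 16383272))) (a (a (b (l 16240544) (l 16264728)) (b (l 16384680) (l 16342376))) (b (l 16179184) (a (l 16429664) (l 16341680)))))) (b (a (b (b (l 1) (l 16038288)) (b (l 16081880) (l 16089424))) (b (a (c (l 16171096) (l 16317784)) (c (l 16164448) (l 16213640))) (a (c (l 16216312) (l 16199760)) (c (l 16173352) (l 16037160))))) (a (b (c (l 16082568) (l 15996216)) (c (b (l 16249416) (l 16205320)) (a (l 16216496) (l 16088392)))) (b (a (b (l 16144456) (l 16073576)) (b (l 15969296) (l 15842592))) (a (b (l 16006744) (l 15947432)) (b (l 15635144) (l 15581312))))))), by decide +kernel⟩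

def k2_pm_213 : ∃ t, chk3 f_pm_213 t 3 3 1 = true :=
  ⟨(b (a (b (a (b (a (l 16422968) (l 16308320)) (l 16336752)) (b (a (l 16401384) (l 16326896)) (a (l 16364424) (l 16328584)))) (b (a (l 16434608) (a (l 16442456) (l 16347680))) (a (b (l 16560640) (l 16581824)) (a (l 16470288) (l 16382680))))) (a (b (b (a (l 16211360) (l 16071544)) (a (l 16204184) (l 16054040))) (b (a (l 16219552) (l 16060272)) (a (l 16135152) (l 16099128)))) (b (a (b (l 15879032) (l 15870200)) (b (l 15476240) (a (l 15701608) (l 15579248)))) (a (b (l 15865888) (l 15898432)) (b (a (l 15688304) (l 15559368)) (l 15652920)))))) (b (a (b (a (b (l 16586688) (l 16507752)) (b (l 16463800) (l 16496008))) (a (l 4) (b (a (l 16570488) (l 16492256)) (l 16449200)))) (a (a (b (b (l 16310104) (l 16347920)) (b (l 16394256) (l 16448696))) (b (b (l 16156200) (l 16207464)) (b (l 16268568) (l 16339624)))) (b (a (l 15985024) (l 15754816)) (a (b (l 16100344) (l 16205448)) (l 15991816))))) (a (l 4) (a (b (b (a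 (l 16503544) (l 16420264)) (c (l 16404120) (l 16361920))) (l 4)) (b (b (a (l 16334656) (l 16334152)) (a (b (l 16443672) (l 16509328)) (b (l 16604664) (l 16627248)))) (b (a (b (l 16519208) (l 4)) (b (l 16532184) (l 16409256))) (a (l 4) (l 4)))))))), by decide +kernel⟩

theorem s3_pm_213 : ∃ t, chk3 f_pm_213 t 3 1 1 = true := ex3_b k1_pm_213 k2_pm_213

theorem s4_pm_213 : ∃ t, chk3 f_pm_213 t 1 1 1 = true := ex3_a k0_pm_213 s3_pm_213

theorem c_pm_213 : CertB 0 536870912 536870912 536870912 1020054732 13421774 3 eng mog cd0q2 cd1q1 pd3 true true false .pnn 2 1 3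
    ndB0q2 ndB1q1 pcB3 Cut.none Ext.none :=
  certB1 (fam := true) (s1 := true) (s2 := false) (a := 2) (b := 1) (c := 3) (cn := .pnn) (n1 := ndB0q2) (n2 := ndB1q1) (pc := pcB3) (cut := Cut.none) (xt := Ext.none) (P1 := 0) (W1 := 536870912) (P2 := 536870912) (W2 := 536870912) (P3 := 1020054732) (W3 := 13421774) (N0 := 3) (En := eng) (mo := mog) (C1 := cd0q2) (C2 := cd1q1) (C3 := pd3)
    rfl (fun _ => rfl) s4_pm_213

noncomputable def f_mm_001 : ℕ → ℕ → ℕ → ℕ → Bool := onCell 0 536870912 0 536870912 1020054732 13421774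
    (rowB 3 eng mog cd0q0 cd1q0 pd1 0 true false false .up 0 0 1 (qsf 0 536870912 0 536870912 1) ndB0q0 ndB1q0 pcB1 Cut.none Ext.none)

def k0_mm_001 : ∃ t, chk3 f_mm_001 t 1 1 1 = true :=
  ⟨(l 4), by decide +kernel⟩

theorem c_mm_001 : CertB 0 536870912 0 536870912 1020054732 13421774 3 eng mog cd0q0 cd1q0 pd1 true false false .up 0 0 1
    ndB0q0 ndB1q0 pcB1 Cut.none Ext.none :=
  certB0 (fam := true) (s1 := false) (s2 := false) (a := 0) (b := 0) (c := 1) (cn := .up) (n1 := ndB0q0) (n2 := ndB1q0) (pc := pcB1) (cut := Cut.none) (xt := Ext.none) (P1 := 0) (W1 := 536870912) (P2 := 0) (W2 := 536870912) (P3 := 1020054732) (W3 := 13421774) (N0 := 3) (En := eng) (mo := mog) (C1 := cd0q0) (C2 := cd1q0) (C3 := pd1)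
    rfl k0_mm_001

noncomputable def f_mm_011 : ℕ → ℕ → ℕ → ℕ → Bool := onCell 0 536870912 536870912 536870912 1020054732 13421774
    (rowB 3 eng mog cd0q0 cd1q1 pd1 0 true false false .pnn 0 1 1 (qsf 0 536870912 536870912 536870912 1) ndB0q0 ndB1q1 pcB1 Cut.none Ext.none)

def k0_mm_011 : ∃ t, chk3 f_mm_011 t 1 1 1 = true :=
  ⟨(l 4), by decide +kernel⟩

theorem c_mm_011 : CertB 0 536870912 536870912 536870912 1020054732 13421774 3 eng mog cd0q0 cd1q1 pd1 true false false .pnn 0 1 1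
    ndB0q0 ndB1q1 pcB1 Cut.none Ext.none :=
  certB0 (fam := true) (s1 := false) (s2 := false) (a := 0) (b := 1) (c := 1) (cn := .pnn) (n1 := ndB0q0) (n2 := ndB1q1) (pc := pcB1) (cut := Cut.none) (xt := Ext.none) (P1 := 0) (W1 := 536870912) (P2 := 536870912) (W2 := 536870912) (P3 := 1020054732) (W3 := 13421774) (N0 := 3) (En := eng) (mo := mog) (C1 := cd0q0) (C2 := cd1q1) (C3 := pd1)
    rfl k0_mm_011

noncomputable def f_mm_012 : ℕ → ℕ → ℕ → ℕ → Bool := onCell 0 536870912 536870912 536870912 1020054732 13421774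
    (rowB 3 eng mog cd0q0 cd1q1 pd2 0 true false false .pnp 0 1 2 (qsf 0 536870912 536870912 536870912 2) ndB0q0 ndB1q1 pcB2 Cut.none Ext.none)

def k0_mm_012 : ∃ t, chk3 f_mm_012 t 1 1 1 = true :=
  ⟨(l 4), by decide +kernel⟩

theorem c_mm_012 : CertB 0 536870912 536870912 536870912 1020054732 13421774 3 eng mog cd0q0 cd1q1 pd2 true false false .pnp 0 1 2
    ndB0q0 ndB1q1 pcB2 Cut.none Ext.none :=
  certB0 (fam := true) (s1 := false) (s2 := false) (a := 0) (b := 1) (c := 2) (cn := .pnp) (n1 := ndB0q0) (n2 := ndB1q1) (pc := pcB2) (cut := Cut.none) (xt := Ext.none) (P1 := 0) (W1 := 536870912) (P2 := 536870912) (W2 := 536870912) (P3 := 1020054732) (W3 := 13421774) (N0 := 3) (En := eng) (mo := mog) (C1 := cd0q0) (C2 := cd1q1) (C3 := pd2)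
    rfl k0_mm_012

noncomputable def f_mm_022_a : ℕ → ℕ → ℕ → ℕ → Bool := onCell 0 536870912 0 536870912 1020054732 13421774
    (rowB 3 eng mog cd0q0 cd1q2a pd2 0 true false false .pp 0 2 2 (qsf 0 536870912 0 536870912 2) ndB0q0 ndB1q2a pcB2 Cut.none Ext.none)

def k0_mm_022_a : ∃ t, chk3 f_mm_022_a t 1 1 1 = true :=
  ⟨(l 5), by decide +kernel⟩

theorem c_mm_022_a : CertB 0 536870912 0 536870912 1020054732 13421774 3 eng mog cd0q0 cd1q2a pd2 true false false .pp 0 2 2
    ndB0q0 ndB1q2a pcB2 Cut.none Ext.none :=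
  certB0 (fam := true) (s1 := false) (s2 := false) (a := 0) (b := 2) (c := 2) (cn := .pp) (n1 := ndB0q0) (n2 := ndB1q2a) (pc := pcB2) (cut := Cut.none) (xt := Ext.none) (P1 := 0) (W1 := 536870912) (P2 := 0) (W2 := 536870912) (P3 := 1020054732) (W3 := 13421774) (N0 := 3) (En := eng) (mo := mog) (C1 := cd0q0) (C2 := cd1q2a) (C3 := pd2)
    rfl k0_mm_022_a

noncomputable def f_mm_022_b : ℕ → ℕ → ℕ → ℕ → Bool := onCell 0 536870912 1239849684 370763052 1020054732 13421774
    (rowB 3 eng mog cd0q0 cd1q2b pd2 0 true false false .pp 0 2 2 (qsf 0 536870912 1239849684 370763052 2) ndB0q0 ndB1q2b pcB2 Cut.none Ext.none)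

def k0_mm_022_b : ∃ t, chk3 f_mm_022_b t 1 1 1 = true :=
  ⟨(l 5), by decide +kernel⟩

theorem c_mm_022_b : CertB 0 536870912 1239849684 370763052 1020054732 13421774 3 eng mog cd0q0 cd1q2b pd2 true false false .pp 0 2 2
    ndB0q0 ndB1q2b pcB2 Cut.none Ext.none :=
  certB0 (fam := true) (s1 := false) (s2 := false) (a := 0) (b := 2) (c := 2) (cn := .pp) (n1 := ndB0q0) (n2 := ndB1q2b) (pc := pcB2) (cut := Cut.none) (xt := Ext.none) (P1 := 0) (W1 := 536870912) (P2 := 1239849684) (W2 := 370763052) (P3 := 1020054732) (W3 := 13421774) (N0 := 3) (En := eng) (mo := mog) (C1 := cd0q0) (C2 := cd1q2b) (C3 := pd2)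
    rfl k0_mm_022_b

noncomputable def f_mm_023_a : ℕ → ℕ → ℕ → ℕ → Bool := onCell 0 536870912 0 536870912 1020054732 13421774
    (rowB 3 eng mog cd0q0 cd1q2a pd3 0 true false false .up 0 2 3 (qsf 0 536870912 0 536870912 3) ndB0q0 ndB1q2a pcB3 Cut.none Ext.none)

def k0_mm_023_a : ∃ t, chk3 f_mm_023_a t 1 1 1 = true :=
  ⟨(l 5), by decide +kernel⟩

theorem c_mm_023_a : CertB 0 536870912 0 536870912 1020054732 13421774 3 eng mog cd0q0 cd1q2a pd3 true false false .up 0 2 3
    ndB0q0 ndB1q2a pcB3 Cut.none Ext.none :=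
  certB0 (fam := true) (s1 := false) (s2 := false) (a := 0) (b := 2) (c := 3) (cn := .up) (n1 := ndB0q0) (n2 := ndB1q2a) (pc := pcB3) (cut := Cut.none) (xt := Ext.none) (P1 := 0) (W1 := 536870912) (P2 := 0) (W2 := 536870912) (P3 := 1020054732) (W3 := 13421774) (N0 := 3) (En := eng) (mo := mog) (C1 := cd0q0) (C2 := cd1q2a) (C3 := pd3)
    rfl k0_mm_023_a

noncomputable def f_mm_023_b : ℕ → ℕ → ℕ → ℕ → Bool := onCell 0 536870912 1239849684 370763052 1020054732 13421774
    (rowB 3 eng mog cd0q0 cd1q2b pd3 0 true false false .up 0 2 3 (qsf 0 536870912 1239849684 370763052 3) ndB0q0 ndB1q2b pcB3 Cut.none Ext.none)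

def k0_mm_023_b : ∃ t, chk3 f_mm_023_b t 1 1 1 = true :=
  ⟨(l 5), by decide +kernel⟩

theorem c_mm_023_b : CertB 0 536870912 1239849684 370763052 1020054732 13421774 3 eng mog cd0q0 cd1q2b pd3 true false false .up 0 2 3
    ndB0q0 ndB1q2b pcB3 Cut.none Ext.none :=
  certB0 (fam := true) (s1 := false) (s2 := false) (a := 0) (b := 2) (c := 3) (cn := .up) (n1 := ndB0q0) (n2 := ndB1q2b) (pc := pcB3) (cut := Cut.none) (xt := Ext.none) (P1 := 0) (W1 := 536870912) (P2 := 1239849684) (W2 := 370763052) (P3 := 1020054732) (W3 := 13421774) (N0 := 3) (En := eng) (mo := mog) (C1 := cd0q0) (C2 := cd1q2b) (C3 := pd3)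
    rfl k0_mm_023_b

noncomputable def f_mm_033 : ℕ → ℕ → ℕ → ℕ → Bool := onCell 0 536870912 1610612736 536870912 1020054732 13421774
    (rowB 3 eng mog cd0q0 cd1q3 pd3 0 true false false .pnn 0 3 3 (qsf 0 536870912 1610612736 536870912 3) ndB0q0 ndB1q3 pcB3 Cut.none Ext.none)

def k0_mm_033 : ∃ t, chk3 f_mm_033 t 1 1 1 = true :=
  ⟨(l 5), by decide +kernel⟩

theorem c_mm_033 : CertB 0 536870912 1610612736 536870912 1020054732 13421774 3 eng mog cd0q0 cd1q3 pd3 true false false .pnn 0 3 3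
    ndB0q0 ndB1q3 pcB3 Cut.none Ext.none :=
  certB0 (fam := true) (s1 := false) (s2 := false) (a := 0) (b := 3) (c := 3) (cn := .pnn) (n1 := ndB0q0) (n2 := ndB1q3) (pc := pcB3) (cut := Cut.none) (xt := Ext.none) (P1 := 0) (W1 := 536870912) (P2 := 1610612736) (W2 := 536870912) (P3 := 1020054732) (W3 := 13421774) (N0 := 3) (En := eng) (mo := mog) (C1 := cd0q0) (C2 := cd1q3) (C3 := pd3)
    rfl k0_mm_033

noncomputable def cut_mm_101 : Cut := Cut.of [[⟨0, 1, 0, 38347922⟩, ⟨1, 0, 0, 38347922⟩, ⟨2, 1, 0, 38347922⟩]]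

noncomputable def f_mm_101 : ℕ → ℕ → ℕ → ℕ → Bool := onCell 536870912 536870912 0 536870912 1020054732 13421774
    (rowB 3 eng mog cd0q1 cd1q0 pd1 0 true false false .npn 1 0 1 (qsf 536870912 536870912 0 536870912 1) ndB0q1 ndB1q0 pcB1 cut_mm_101 Ext.none)

def k0_mm_101 : ∃ t, chk3 f_mm_101 t 1 1 1 = true :=
  ⟨(a (l 4) (b (a (l 4) (b (a (l 4) (b (a (l 4) (b (l 6) (l 4))) (l 4))) (l 4))) (l 4))), by decide +kernel⟩

theorem c_mm_101 : CertB 536870912 536870912 0 536870912 1020054732 13421774 3 eng mog cd0q1 cd1q0 pd1 true false false .npn 1 0 1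
    ndB0q1 ndB1q0 pcB1 cut_mm_101 Ext.none :=
  certB0 (fam := true) (s1 := false) (s2 := false) (a := 1) (b := 0) (c := 1) (cn := .npn) (n1 := ndB0q1) (n2 := ndB1q0) (pc := pcB1) (cut := cut_mm_101) (xt := Ext.none) (P1 := 536870912) (W1 := 536870912) (P2 := 0) (W2 := 536870912) (P3 := 1020054732) (W3 := 13421774) (N0 := 3) (En := eng) (mo := mog) (C1 := cd0q1) (C2 := cd1q0) (C3 := pd1)
    rfl k0_mm_101

noncomputable def cut_mm_102 : Cut := Cut.of [[⟨0, 1, 0, 38347922⟩, ⟨1, 0, 0, 38347922⟩, ⟨2, 1, 0, 38347922⟩]]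

noncomputable def f_mm_102 : ℕ → ℕ → ℕ → ℕ → Bool := onCell 536870912 536870912 0 536870912 1020054732 13421774
    (rowB 3 eng mog cd0q1 cd1q0 pd2 0 true false false .npp 1 0 2 (qsf 536870912 536870912 0 536870912 2) ndB0q1 ndB1q0 pcB2 cut_mm_102 Ext.none)

def k0_mm_102 : ∃ t, chk3 f_mm_102 t 1 1 1 = true :=
  ⟨(a (l 4) (b (a (l 4) (a (l 4) (b (b (a (l 4) (b (l 6) (l 4))) (l 4)) (l 4)))) (l 4))), by decide +kernel⟩

theorem c_mm_102 : CertB 536870912 536870912 0 536870912 1020054732 13421774 3 eng mog cd0q1 cd1q0 pd2 true false false .npp 1 0 2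
    ndB0q1 ndB1q0 pcB2 cut_mm_102 Ext.none :=
  certB0 (fam := true) (s1 := false) (s2 := false) (a := 1) (b := 0) (c := 2) (cn := .npp) (n1 := ndB0q1) (n2 := ndB1q0) (pc := pcB2) (cut := cut_mm_102) (xt := Ext.none) (P1 := 536870912) (W1 := 536870912) (P2 := 0) (W2 := 536870912) (P3 := 1020054732) (W3 := 13421774) (N0 := 3) (En := eng) (mo := mog) (C1 := cd0q1) (C2 := cd1q0) (C3 := pd2)
    rfl k0_mm_102

noncomputable def f_mm_112 : ℕ → ℕ → ℕ → ℕ → Bool := onCell 536870912 536870912 536870912 536870912 1020054732 13421774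
    (rowB 3 eng mog cd0q1 cd1q1 pd2 0 true false false .dn 1 1 2 (qsf 536870912 536870912 536870912 536870912 2) ndB0q1 ndB1q1 pcB2 Cut.none Ext.none)

def k0_mm_112 : ∃ t, chk3 f_mm_112 t 1 1 1 = true :=
  ⟨(l 4), by decide +kernel⟩

theorem c_mm_112 : CertB 536870912 536870912 536870912 536870912 1020054732 13421774 3 eng mog cd0q1 cd1q1 pd2 true false false .dn 1 1 2
    ndB0q1 ndB1q1 pcB2 Cut.none Ext.none :=
  certB0 (fam := true) (s1 := false) (s2 := false) (a := 1) (b := 1) (c := 2) (cn := .dn) (n1 := ndB0q1) (n2 := ndB1q1) (pc := pcB2) (cut := Cut.none) (xt := Ext.none) (P1 := 536870912) (W1 := 536870912) (P2 := 536870912) (W2 := 536870912) (P3 := 1020054732) (W3 := 13421774) (N0 := 3) (En := eng) (mo := mog) (C1 := cd0q1) (C2 := cd1q1) (C3 := pd2)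
    rfl k0_mm_112

noncomputable def f_mm_113 : ℕ → ℕ → ℕ → ℕ → Bool := onCell 536870912 536870912 536870912 536870912 1020054732 13421774
    (rowB 3 eng mog cd0q1 cd1q1 pd3 0 true false false .nn 1 1 3 (qsf 536870912 536870912 536870912 536870912 3) ndB0q1 ndB1q1 pcB3 Cut.none Ext.none)

def k0_mm_113 : ∃ t, chk3 f_mm_113 t 1 1 1 = true :=
  ⟨(l 4), by decide +kernel⟩

theorem c_mm_113 : CertB 536870912 536870912 536870912 536870912 1020054732 13421774 3 eng mog cd0q1 cd1q1 pd3 true false false .nn 1 1 3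
    ndB0q1 ndB1q1 pcB3 Cut.none Ext.none :=
  certB0 (fam := true) (s1 := false) (s2 := false) (a := 1) (b := 1) (c := 3) (cn := .nn) (n1 := ndB0q1) (n2 := ndB1q1) (pc := pcB3) (cut := Cut.none) (xt := Ext.none) (P1 := 536870912) (W1 := 536870912) (P2 := 536870912) (W2 := 536870912) (P3 := 1020054732) (W3 := 13421774) (N0 := 3) (En := eng) (mo := mog) (C1 := cd0q1) (C2 := cd1q1) (C3 := pd3)
    rfl k0_mm_113

noncomputable def f_mm_123_a : ℕ → ℕ → ℕ → ℕ → Bool := onCell 536870912 536870912 0 536870912 1020054732 13421774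
    (rowB 3 eng mog cd0q1 cd1q2a pd3 0 true false false .npn 1 2 3 (qsf 536870912 536870912 0 536870912 3) ndB0q1 ndB1q2a pcB3 Cut.none Ext.none)

def k0_mm_123_a : ∃ t, chk3 f_mm_123_a t 1 1 1 = true :=
  ⟨(a (l 5) (l 4)), by decide +kernel⟩

theorem c_mm_123_a : CertB 536870912 536870912 0 536870912 1020054732 13421774 3 eng mog cd0q1 cd1q2a pd3 true false false .npn 1 2 3
    ndB0q1 ndB1q2a pcB3 Cut.none Ext.none :=
  certB0 (fam := true) (s1 := false) (s2 := false) (a := 1) (b := 2) (c := 3) (cn := .npn) (n1 := ndB0q1) (n2 := ndB1q2a) (pc := pcB3) (cut := Cut.none) (xt := Ext.none) (P1 := 536870912) (W1 := 536870912) (P2 := 0) (W2 := 536870912) (P3 := 1020054732) (W3 := 13421774) (N0 := 3) (En := eng) (mo := mog) (C1 := cd0q1) (C2 := cd1q2a) (C3 := pd3)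
    rfl k0_mm_123_a

noncomputable def f_mm_123_b : ℕ → ℕ → ℕ → ℕ → Bool := onCell 536870912 536870912 1239849684 370763052 1020054732 13421774
    (rowB 3 eng mog cd0q1 cd1q2b pd3 0 true false false .npn 1 2 3 (qsf 536870912 536870912 1239849684 370763052 3) ndB0q1 ndB1q2b pcB3 Cut.none Ext.none)

def k0_mm_123_b : ∃ t, chk3 f_mm_123_b t 1 1 1 = true :=
  ⟨(l 5), by decide +kernel⟩

theorem c_mm_123_b : CertB 536870912 536870912 1239849684 370763052 1020054732 13421774 3 eng mog cd0q1 cd1q2b pd3 true false false .npn 1 2 3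
    ndB0q1 ndB1q2b pcB3 Cut.none Ext.none :=
  certB0 (fam := true) (s1 := false) (s2 := false) (a := 1) (b := 2) (c := 3) (cn := .npn) (n1 := ndB0q1) (n2 := ndB1q2b) (pc := pcB3) (cut := Cut.none) (xt := Ext.none) (P1 := 536870912) (W1 := 536870912) (P2 := 1239849684) (W2 := 370763052) (P3 := 1020054732) (W3 := 13421774) (N0 := 3) (En := eng) (mo := mog) (C1 := cd0q1) (C2 := cd1q2b) (C3 := pd3)
    rfl k0_mm_123_b

noncomputable def f_mm_133 : ℕ → ℕ → ℕ → ℕ → Bool := onCell 536870912 536870912 1610612736 536870912 1020054732 13421774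
    (rowB 3 eng mog cd0q1 cd1q3 pd3 0 true false false .dn 1 3 3 (qsf 536870912 536870912 1610612736 536870912 3) ndB0q1 ndB1q3 pcB3 Cut.none Ext.none)

def k0_mm_133 : ∃ t, chk3 f_mm_133 t 1 1 1 = true :=
  ⟨(l 4), by decide +kernel⟩

theorem c_mm_133 : CertB 536870912 536870912 1610612736 536870912 1020054732 13421774 3 eng mog cd0q1 cd1q3 pd3 true false false .dn 1 3 3
    ndB0q1 ndB1q3 pcB3 Cut.none Ext.none :=
  certB0 (fam := true) (s1 := false) (s2 := false) (a := 1) (b := 3) (c := 3) (cn := .dn) (n1 := ndB0q1) (n2 := ndB1q3) (pc := pcB3) (cut := Cut.none) (xt := Ext.none) (P1 := 536870912) (W1 := 536870912) (P2 := 1610612736) (W2 := 536870912) (P3 := 1020054732) (W3 := 13421774) (N0 := 3) (En := eng) (mo := mog) (C1 := cd0q1) (C2 := cd1q3) (C3 := pd3)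
    rfl k0_mm_133

noncomputable def cut_mm_202 : Cut := Cut.of [[⟨0, 1, 0, 38347922⟩, ⟨1, 0, 0, 38347922⟩, ⟨2, 1, 0, 38347922⟩]]

noncomputable def f_mm_202 : ℕ → ℕ → ℕ → ℕ → Bool := onCell 0 536870912 0 536870912 1020054732 13421774
    (rowB 3 eng mog cd0q2 cd1q0 pd2 0 true false false .pp 2 0 2 (qsf 0 536870912 0 536870912 2) ndB0q2 ndB1q0 pcB2 cut_mm_202 Ext.none)

def k0_mm_202 : ∃ t, chk3 f_mm_202 t 2 4 1 = true :=
  ⟨(a (b (b (a (b (l 15922080) (l 15805432)) (b (l 15849376) (a (l 15739896) (l 15715168)))) (a (b (l 15691984) (l 15581944)) (a (b (l 15621168) (l 15506568)) (b (a (l 15576304) (l 15615136)) (a (c (l 15486872) (l 15496904)) (l 15562640)))))) (a (b (b (l 15475488) (l 15372800)) (a (c (l 15265184) (l 15252792)) (a (l 15187616) (b (b (l 15250896) (a (l 15209008) (l 15198672))) (a (b (l 15162376) (a (l 15122480) (l 15129496))) (b (b (l 15213592) (l 15163552)) (l 15162776))))))) (b (a (a (b (l 15406312) (a (l 15306344) (b (l 15321632) (a (l 15276248)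 (l 15285272))))) (b (b (a (l 15416168) (l 15413912)) (a (l 15366040) (l 15382576))) (b (a (l 15330440) (l 15369176)) (l 15337792)))) (b (l 15490280) (l 15468800))) (b (a (a (a (b (a (l 15234824) (l 15237784)) (l 15214224)) (l 15263264)) (l 15327976)) (l 15460360)) (a (l 15237728) (l 15443328)))))) (b (a (b (a (b (a (l 15833552) (l 15869712)) (l 15706256)) (b (l 15961344) (l 15900240))) (a (b (l 15715096) (l 15674736)) (b (l 15854112) (l 15822232)))) (b (a (b (l 16080808) (l 16028376)) (b (l 16134216) (l 16152752))) (a (b (l 15990456) (l 15966408)) (b (l 16122552) (l 16105712))))) (a (b (a (b (l 15648304) (l 15635112)) (b (l 15803856) (l 15798280))) (a (b (l 15634488) (l 15645752)) (b (l 15804832) (l 15822832)))) (b (a (b (l 15955472) (l 15956936)) (b (l 16101688) (l 16109704))) (a (b (l 15970120) (l 15994344)) (b (l 16129072) (l 16159104))))))), by decide +kernel⟩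

def k1_mm_202 : ∃ t, chk3 f_mm_202 t 2 5 1 = true :=
  ⟨(a (b (a (b (a (a (c (l 15108888) (l 15089056)) (b (l 15105280) (b (l 15041088) (a (l 15008440) (a (l 14997016) (c (l 15077320) (l 14985840))))))) (b (a (a (b (l 15101192) (c (l 15073160) (l 15047440))) (b (a (l 15089344) (b (l 15094352) (l 15082056))) (a (b (l 15063000) (l 15058552)) (l 15082528)))) (b (l 15139408) (l 15144304))) (b (a (a (a (c (l 15040024) (l 15012568)) (l 15059032)) (l 15075696)) (l 15151360)) (l 15109880)))) (b (a (c (a (l 14992240) (a (b (l 14987904) (a (l 14960608) (l 14977192))) (b (l 15005016) (l 15017216)))) (a (l 14965168) (a (b (l 14958920) (l 14939544)) (l 14981872)))) (l 15107664)) (a (a (a (b (l 14930168) (a (l 14898688) (l 14960184))) (b (a (l 14919448) (b (l 14924128) (l 14925016))) (l 14923088))) (l 14998424)) (l 15142152)))) (b (a (b (l 15266856) (l 15286624)) (b (l 15479968) (l 15506720))) (a (b (l 15338336) (l 15379432)) (b (l 15543936) (l 15590984))))) (a (b (b (a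 (b (a (a (a (l 14962528) (l 14899480)) (l 14942216)) (l 15027296)) (l 14992080)) (l 15207904)) (a (l 15029248) (l 15262360))) (a (b (l 15087160) (l 15154112)) (l 15339912))) (a (b (b (l 15430264) (l 15490200)) (l 15595888)) (b (b (l 15647240) (l 15712080)) (l 15803144))))) (b (a (b (a (b (l 15668272) (l 15701400)) (b (l 15851640) (l 15890600))) (a (b (l 15744496) (l 15796936)) (b (l 15939080) (l 15996456)))) (b (a (b (l 16028968) (l 16073328)) (b (l 16199152) (l 16248544))) (a (b (l 16126784) (l 16188696)) (b (l 16306632) (l 16372784))))) (a (a (b (b (l 15858096) (l 15927352)) (l 16003120)) (b (l 15909008) (l 16132344))) (b (a (b (l 16258448) (l 16335384)) (b (l 16446320) (l 16484608))) (a (b (l 16418848) (l 16487184)) (b (l 16497832) (a (l 16648152) (l 16700480)))))))), by decide +kernel⟩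

def k2_mm_202 : ∃ t, chk3 f_mm_202 t 6 4 1 = true :=
  ⟨(b (a (b (a (b (a (l 16280832) (l 16334824)) (l 16187704)) (b (a (l 16386936) (l 16394960)) (a (l 16355696) (l 16409160)))) (a (b (l 16248576) (l 16238584)) (b (a (l 16337976) (l 16394888)) (l 16300536)))) (b (a (a (b (b (l 16492856) (l 16477128)) (l 16439144)) (b (b (a (l 16526144) (l 16526632)) (l 16501896)) (b (l 16512344) (l 16505240)))) (b (a (b (a (l 16547168) (l 16545896)) (a (l 16555216) (l 16555032))) (b (a (b (l 16588824) (l 16582688)) (b (l 16595664) (l 16600632))) (a (l 16574704) (b (l 16595704) (l 16591528))))) (a (b (l 16535744) (l 16551200)) (b (a (l 16587840) (l 16586552)) (l 16551896))))) (a (b (a (l 16449192) (l 16500640)) (a (l 16450600) (l 16505248))) (b (a (l 16507040) (b (l 16572176) (l 16595616))) (a (l 16535832) (l 16562920)))))) (a (b (a (b (l 16241032) (l 16255200)) (b (l 16371968) (l 16391952))) (a (b (l 16280376) (l 16315872)) (b (l 16422640) (l 16400424)))) (b (a (b (a (l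 16463624) (l 16521328)) (a (l 16487848) (l 16548216))) (b (a (l 16575824) (l 16584992)) (a (l 16584504) (l 16617544)))) (a (b (a (l 16522568) (l 16585544)) (a (l 16567064) (l 16632496))) (b (a (l 16645368) (l 16680824)) (a (l 16673632) (a (l 16686480) (l 16662264)))))))), by decide +kernel⟩

def k3_mm_202 : ∃ t, chk3 f_mm_202 t 28 16 1 = true :=
  ⟨(b (a (b (a (b (a (l 16605904) (l 16605840)) (l 16606936)) (b (a (b (l 16603168) (l 16609088)) (b (l 16603920) (l 16609736))) (a (l 16617592) (l 16618072)))) (a (b (l 16613200) (l 16609552)) (b (l 16628360) (l 16626464)))) (b (b (a (a (c (l 16612248) (l 16614064)) (b (c (l 16631696) (l 16623328)) (l 16612192))) (a (b (c (l 16612472) (l 16625392)) (a (l 16613512) (l 16614512))) (b (c (l 16625048) (l 16617328)) (c (l 16641024) (l 16633280))))) (c (a (l 16623792) (a (l 16625920) (l 16627832))) (a (l 16621784) (a (l 16617800) (l 16620032))))) (a (b (a (l 16629152) (l 16630192)) (l 16638984)) (b (a (l 16631656) (l 16633528))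 (l 16641432))))) (a (b (a (l 16605408) (l 16602144)) (a (l 16623448) (l 16621040))) (b (a (c (l 16635392) (l 16643784)) (b (l 16649584) (l 16654784))) (a (l 16638704) (l 16655112))))), by decide +kernel⟩

def k4_mm_202 : ∃ t, chk3 f_mm_202 t 29 16 1 = true :=
  ⟨(b (a (b (a (b (a (b (c (l 16630096) (b (l 16629176) (l 16631976))) (c (l 16643424) (l 16636024))) (b (c (b (l 16639264) (l 16642080)) (b (l 16632248) (l 16635056))) (c (l 16646160) (l 16639112)))) (c (b (l 16628960) (l 16633896)) (a (l 16622704) (l 16625720)))) (b (a (b (c (b (l 16642288) (l 16645112)) (b (l 16635632) (l 16638440))) (c (l 16649200) (l 16642512))) (b (a (c (l 16635688) (l 16639784)) (c (l 16637432) (l 16641704))) (c (l 16652544) (l 16646224)))) (a (b (l 16640552) (l 16634904)) (b (l 16644096) (l 16638472))))) (a (b (a (l 16635824) (l 16638528)) (l 16645592)) (b (a (l 16641672) (l 16645184)) (l 16651488)))) (b (b (a (c (b (a (a (l 16644480) (l 16645040)) (b (a (l 16652080) (l 16654064))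 (l 16655912))) (a (l 16656176) (l 16660048))) (b (a (a (l 16643696) (l 16645744)) (b (l 16642256) (l 16650344))) (a (l 16650216) (l 16654456)))) (a (b (a (c (l 16652304) (l 16652240)) (c (l 16654408) (l 16654528))) (c (l 16664160) (l 16658936))) (b (a (c (l 16656584) (l 16656880)) (c (l 16658816) (l 16659296))) (c (l 16668536) (l 16663672))))) (b (a (a (l 16647928) (l 16652000)) (a (l 16656328) (l 16660912))) (a (c (l 16647256) (l 16662376)) (c (l 16655600) (l 16671464))))) (a (b (a (l 16649040) (l 16653200)) (a (l 16657008) (l 16661128))) (b (a (l 16657592) (l 16662248)) (a (l 16665544) (l 16670296)))))) (a (b (a (b (l 16653264) (l 16660248)) (b (l 16658744) (l 16665240))) (a (l 16669800) (l 16673752))) (b (a (b (l 16665936) (l 16672016)) (b (l 16674696) (l 16680432))) (a (l 16679776) (l 16687544))))), by decide +kernel⟩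

def k5_mm_202 : ∃ t, chk3 f_mm_202 t 14 17 1 = true :=
  ⟨(a (b (a (b (l 16591728) (l 16616672)) (b (l 16628304) (l 16654712))) (a (b (l 16623680) (l 16633560)) (a (l 16637824) (l 16656896)))) (b (a (b (a (l 16674040) (l 16683280)) (l 16667424)) (b (a (l 16688216) (l 16694632)) (c (l 16700704) (l 16714000)))) (a (a (l 16673648) (l 16675080)) (b (a (l 16719136) (l 16723544)) (a (l 16720032) (l 16724512)))))), by decide +kernel⟩

def k6_mm_202 : ∃ t, chk3 f_mm_202 t 15 16 1 = true :=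
  ⟨(a (b (a (b (a (a (b (b (c (a (l 16655880) (l 16658248)) (b (l 16661576) (l 16664472))) (c (l 16673176) (l 16668664))) (c (l 16670560) (l 16655536))) (b (a (b (c (l 16671168) (l 16666928)) (l 16664232)) (b (c (l 16673680) (l 16669608)) (l 16666848))) (c (l 16675528) (l 16660864)))) (b (a (a (b (b (l 6) (l 16675768)) (l 16669536)) (b (l 6) (l 16672296))) (l 6)) (a (c (l 16680792) (l 16666480)) (c (l 16686352) (l 16672392))))) (b (a (a (l 16667192) (l 16672416)) (a (l 16677936) (l 16683768))) (a (a (l 16675304) (l 16680608)) (a (l 16686216) (l 16692144))))) (b (a (b (l 6) (a (b (l 6) (l 16682752)) (l 6))) (l 6)) (a (b (a (a (l 16688344) (l 16691504)) (l 16704088)) (a (l 16698400) (l 16704800))) (b (a (c (l 16703672) (l 16722048)) (l 6)) (a (l 16711088) (l 16717392)))))) (a (b (a (b (l 16684760) (l 16690496)) (b (l 16696224) (l 16702048))) (a (a (l 16694512) (l 16699880)) (c (l 16710944) (l 16706096)))) (b (a (b (c (l 16710520) (l 16707200)) (l 16714896))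 (b (a (l 16718528) (l 16724968)) (b (l 16726560) (l 16729376)))) (a (b (l 16719664) (l 16723176)) (b (b (l 16731880) (l 16734000)) (a (l 16754152) (l 16759048))))))) (b (a (l 6) (l 6)) (a (a (b (b (a (l 16731600) (l 16738816)) (a (l 16738048) (l 39426404823))) (a (b (l 16741368) (l 4)) (l 4))) (b (b (l 6) (a (l 141968760151) (l 4))) (l 4))) (l 4)))), by decide +kernel⟩

def k7_mm_202 : ∃ t, chk3 f_mm_202 t 15 17 1 = true :=
  ⟨(a (b (a (b (a (l 16703224) (l 16711216)) (a (l 16727952) (a (l 16734512) (l 16717848)))) (a (b (b (l 16725440) (l 67343644247)) (a (l 102777117767) (l 4))) (b (b (l 97945308279) (l 4)) (l 4)))) (a (b (a (l 16708568) (l 4)) (l 4)) (l 4))) (l 4)), by decide +kernel⟩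

def k8_mm_202 : ∃ t, chk3 f_mm_202 t 7 9 1 = true :=
  ⟨(a (b (a (b (a (l 16611448) (b (l 16709680) (l 16715304))) (a (l 16667728) (b (l 16711168) (l 16687576)))) (b (a (b (l 16715808) (l 68954168023)) (b (l 136599918839) (l 4))) (a (b (l 128009965655) (l 4)) (l 4)))) (a (b (a (c (l 95797690615) (l 97408277591)) (b (l 136599889543) (l 4))) (a (l 4) (l 4))) (l 4))) (l 4)), by decide +kernel⟩

def k9_mm_202 : ∃ t, chk3 f_mm_202 t 3 5 1 = true :=
  ⟨(a (b (a (b (a (b (l 16361024) (l 16394184)) (b (l 16429464) (a (l 16533896) (l 16609640)))) (a (b (l 16435664) (a (l 16505048) (l 16590000))) (b (a (l 16578480) (l 16654360)) (a (l 16669440) (l 16694040))))) (b (a (a (b (l 16620624) (l 16660488)) (b (l 16666888) (l 89892058583))) (b (a (b (l 16707192) (l 16703704)) (l 4)) (l 4))) (a (b (a (l 16648376) (l 4)) (l 4)) (l 4)))) (a (b (a (b (a (l 16581208) (l 16663776)) (a (l 16658336) (l 16711528))) (b (a (l 16717176) (l 4)) (l 4))) (a (b (l 16611344) (l 4)) (l 4)))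 (l 4))) (l 4)), by decide +kernel⟩

def k10_mm_202 : ∃ t, chk3 f_mm_202 t 1 3 1 = true :=
  ⟨(a (a (b (b (a (b (a (l 15270216) (l 15520240)) (a (l 15450712) (l 15707136))) (b (a (l 15762864) (l 15997760)) (a (l 15955152) (l 16194616)))) (b (a (a (l 15656128) (l 15916584)) (a (l 16167784) (l 16283792))) (b (a (l 15953768) (a (l 16337448) (l 16504320))) (l 2)))) (l 2)) (b (b (a (b (a (l 16161656) (b (l 16394672) (l 16492080))) (a (b (l 16373320) (l 16477976)) (b (l 16501000) (l 16566160)))) (b (a (b (l 16511792) (l 46405285799)) (b (l 16704432) (l 4))) (a (b (l 16693856) (l 4)) (l 4)))) (a (b (a (b (l 16512536) (l 16579680)) (b (l 16684800) (l 4))) (a (b (l 16677440) (l 4)) (l 4))) (l 4))) (l 4))) (l 4)), by decide +kernel⟩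

theorem s11_mm_202 : ∃ t, chk3 f_mm_202 t 15 8 1 = true := ex3_b k6_mm_202 k7_mm_202

theorem s12_mm_202 : ∃ t, chk3 f_mm_202 t 14 16 1 = true := ex3_a k3_mm_202 k4_mm_202

theorem s13_mm_202 : ∃ t, chk3 f_mm_202 t 14 8 1 = true := ex3_b s12_mm_202 k5_mm_202

theorem s14_mm_202 : ∃ t, chk3 f_mm_202 t 7 8 1 = true := ex3_a s13_mm_202 s11_mm_202

theorem s15_mm_202 : ∃ t, chk3 f_mm_202 t 7 4 1 = true := ex3_b s14_mm_202 k8_mm_202

theorem s16_mm_202 : ∃ t, chk3 f_mm_202 t 3 4 1 = true := ex3_a k2_mm_202 s15_mm_202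

theorem s17_mm_202 : ∃ t, chk3 f_mm_202 t 3 2 1 = true := ex3_b s16_mm_202 k9_mm_202

theorem s18_mm_202 : ∃ t, chk3 f_mm_202 t 2 2 1 = true := ex3_b k0_mm_202 k1_mm_202

theorem s19_mm_202 : ∃ t, chk3 f_mm_202 t 1 2 1 = true := ex3_a s18_mm_202 s17_mm_202

theorem s20_mm_202 : ∃ t, chk3 f_mm_202 t 1 1 1 = true := ex3_b s19_mm_202 k10_mm_202

theorem c_mm_202 : CertB 0 536870912 0 536870912 1020054732 13421774 3 eng mog cd0q2 cd1q0 pd2 true false false .pp 2 0 2
    ndB0q2 ndB1q0 pcB2 cut_mm_202 Ext.none :=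
  certB0 (fam := true) (s1 := false) (s2 := false) (a := 2) (b := 0) (c := 2) (cn := .pp) (n1 := ndB0q2) (n2 := ndB1q0) (pc := pcB2) (cut := cut_mm_202) (xt := Ext.none) (P1 := 0) (W1 := 536870912) (P2 := 0) (W2 := 536870912) (P3 := 1020054732) (W3 := 13421774) (N0 := 3) (En := eng) (mo := mog) (C1 := cd0q2) (C2 := cd1q0) (C3 := pd2)
    rfl s20_mm_202

noncomputable def f_mm_203 : ℕ → ℕ → ℕ → ℕ → Bool := onCell 0 536870912 1610612736 536870912 1020054732 13421774
    (rowB 3 eng mog cd0q2 cd1q0 pd3 1 true false false .up 2 0 3 (qsf 0 536870912 0 536870912 3) ndB0q2 ndB1q0 pcB3 Cut.none Ext.none)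

def k0_mm_203 : ∃ t, chk3 f_mm_203 t 1 1 1 = true :=
  ⟨(a (b (a (a (b (b (b (l 16681208) (l 16661712)) (b (l 16656624) (l 68954101399))) (b (b (l 103850569575) (l 2)) (l 2))) (b (b (b (l 59827243335) (l 70564685991)) (l 4)) (l 4))) (b (l 4) (l 4))) (l 2)) (l 4)), by decide +kernel⟩

theorem c_mm_203 : CertB 0 536870912 0 536870912 1020054732 13421774 3 eng mog cd0q2 cd1q0 pd3 true false false .up 2 0 3
    ndB0q2 ndB1q0 pcB3 Cut.none Ext.none :=
  certB1 (fam := true) (s1 := false) (s2 := false) (a := 2) (b := 0) (c := 3) (cn := .up) (n1 := ndB0q2) (n2 := ndB1q0) (pc := pcB3) (cut := Cut.none) (xt := Ext.none) (P1 := 0) (W1 := 536870912) (P2 := 0) (W2 := 536870912) (P3 := 1020054732) (W3 := 13421774) (N0 := 3) (En := eng) (mo := mog) (C1 := cd0q2) (C2 := cd1q0) (C3 := pd3)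
    rfl (fun _ => rfl) k0_mm_203

noncomputable def f_mm_213 : ℕ → ℕ → ℕ → ℕ → Bool := onCell 0 536870912 536870912 536870912 1020054732 13421774
    (rowB 3 eng mog cd0q2 cd1q1 pd3 0 true false false .pnn 2 1 3 (qsf 0 536870912 536870912 536870912 3) ndB0q2 ndB1q1 pcB3 Cut.none Ext.none)

def k0_mm_213 : ∃ t, chk3 f_mm_213 t 1 1 1 = true :=
  ⟨(a (b (l 4) (l 4)) (l 4)), by decide +kernel⟩

theorem c_mm_213 : CertB 0 536870912 536870912 536870912 1020054732 13421774 3 eng mog cd0q2 cd1q1 pd3 true false false .pnn 2 1 3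
    ndB0q2 ndB1q1 pcB3 Cut.none Ext.none :=
  certB0 (fam := true) (s1 := false) (s2 := false) (a := 2) (b := 1) (c := 3) (cn := .pnn) (n1 := ndB0q2) (n2 := ndB1q1) (pc := pcB3) (cut := Cut.none) (xt := Ext.none) (P1 := 0) (W1 := 536870912) (P2 := 536870912) (W2 := 536870912) (P3 := 1020054732) (W3 := 13421774) (N0 := 3) (En := eng) (mo := mog) (C1 := cd0q2) (C2 := cd1q1) (C3 := pd3)
    rfl k0_mm_213

end Pool.Agent.Strip051.G.I9500_9625.Tab.C.BA01

namespace Pool.Agent.Strip051.G.I9500_9625.Tab.C.BA02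

open Pool.Agent.Strip051.PB Pool.Agent.Strip051.PB.T
open Pool.Agent.Strip051.G.I9500_9625.Tab

noncomputable def f_pp_001 : ℕ → ℕ → ℕ → ℕ → Bool := onCell 0 536870912 0 536870912 1020054732 13421774
    (rowB 3 eng mog cd0q0 cd2q0 pd1 0 true true true .up 0 0 1 (qsf 0 536870912 0 536870912 1) ndB0q0 ndB2q0 pcB1 Cut.none Ext.none)

def k0_pp_001 : ∃ t, chk3 f_pp_001 t 1 1 1 = true :=
  ⟨(l 4), by decide +kernel⟩

theorem c_pp_001 : CertB 0 536870912 0 536870912 1020054732 13421774 3 eng mog cd0q0 cd2q0 pd1 true true true .up 0 0 1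
    ndB0q0 ndB2q0 pcB1 Cut.none Ext.none :=
  certB0 (fam := true) (s1 := true) (s2 := true) (a := 0) (b := 0) (c := 1) (cn := .up) (n1 := ndB0q0) (n2 := ndB2q0) (pc := pcB1) (cut := Cut.none) (xt := Ext.none) (P1 := 0) (W1 := 536870912) (P2 := 0) (W2 := 536870912) (P3 := 1020054732) (W3 := 13421774) (N0 := 3) (En := eng) (mo := mog) (C1 := cd0q0) (C2 := cd2q0) (C3 := pd1)
    rfl k0_pp_001

noncomputable def f_pp_011 : ℕ → ℕ → ℕ → ℕ → Bool := onCell 0 536870912 536870912 536870912 1020054732 13421774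
    (rowB 3 eng mog cd0q0 cd2q1 pd1 0 true true true .pnn 0 1 1 (qsf 0 536870912 536870912 536870912 1) ndB0q0 ndB2q1 pcB1 Cut.none Ext.none)

def k0_pp_011 : ∃ t, chk3 f_pp_011 t 1 1 1 = true :=
  ⟨(l 4), by decide +kernel⟩

theorem c_pp_011 : CertB 0 536870912 536870912 536870912 1020054732 13421774 3 eng mog cd0q0 cd2q1 pd1 true true true .pnn 0 1 1
    ndB0q0 ndB2q1 pcB1 Cut.none Ext.none :=
  certB0 (fam := true) (s1 := true) (s2 := true) (a := 0) (b := 1) (c := 1) (cn := .pnn) (n1 := ndB0q0) (n2 := ndB2q1) (pc := pcB1) (cut := Cut.none) (xt := Ext.none) (P1 := 0) (W1 := 536870912) (P2 := 536870912) (W2 := 536870912) (P3 := 1020054732) (W3 := 13421774) (N0 := 3) (En := eng) (mo := mog) (C1 := cd0q0) (C2 := cd2q1) (C3 := pd1)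
    rfl k0_pp_011

noncomputable def f_pp_012 : ℕ → ℕ → ℕ → ℕ → Bool := onCell 0 536870912 536870912 536870912 1020054732 13421774
    (rowB 3 eng mog cd0q0 cd2q1 pd2 0 true true true .pnp 0 1 2 (qsf 0 536870912 536870912 536870912 2) ndB0q0 ndB2q1 pcB2 Cut.none Ext.none)

def k0_pp_012 : ∃ t, chk3 f_pp_012 t 1 1 1 = true :=
  ⟨(l 4), by decide +kernel⟩

theorem c_pp_012 : CertB 0 536870912 536870912 536870912 1020054732 13421774 3 eng mog cd0q0 cd2q1 pd2 true true true .pnp 0 1 2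
    ndB0q0 ndB2q1 pcB2 Cut.none Ext.none :=
  certB0 (fam := true) (s1 := true) (s2 := true) (a := 0) (b := 1) (c := 2) (cn := .pnp) (n1 := ndB0q0) (n2 := ndB2q1) (pc := pcB2) (cut := Cut.none) (xt := Ext.none) (P1 := 0) (W1 := 536870912) (P2 := 536870912) (W2 := 536870912) (P3 := 1020054732) (W3 := 13421774) (N0 := 3) (En := eng) (mo := mog) (C1 := cd0q0) (C2 := cd2q1) (C3 := pd2)
    rfl k0_pp_012

noncomputable def cut_pp_022_a : Cut := Cut.of [[⟨0, 0, 0, 38347922⟩, ⟨1, 1, 0, 38347922⟩, ⟨2, 1, 0, 38347922⟩]]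

noncomputable def f_pp_022_a : ℕ → ℕ → ℕ → ℕ → Bool := onCell 0 536870912 0 536870912 1020054732 13421774
    (rowB 3 eng mog cd0q0 cd2q2a pd2 0 true true true .pp 0 2 2 (qsf 0 536870912 0 536870912 2) ndB0q0 ndB2q2a pcB2 cut_pp_022_a Ext.none)

def k0_pp_022_a : ∃ t, chk3 f_pp_022_a t 4 2 1 = true :=
  ⟨(a (b (a (b (l 16269832) (a (l 16373376) (l 16402824))) (b (a (l 16399376) (l 16389544)) (a (l 16411128) (l 16433928)))) (a (b (a (l 16261296) (b (l 16399912) (l 16379808))) (a (b (l 16347864) (l 16347016)) (b (l 16367960) (l 16365280)))) (b (a (l 16287936) (l 16284712)) (a (b (l 16388824) (l 16363384)) (b (l 16403656) (l 16355944)))))) (b (a (a (b (l 16413000) (l 16442928)) (b (l 16424712) (l 16400600))) (b (b (l 16369288) (l 16444072)) (a (l 16370120) (a (l 16399240) (l 16388976))))) (a (b (a (b (l 16448880) (l 16422320)) (b (l 16444888) (l 16416440))) (a (b (l 16405104) (a (l 16399328) (l 16381288))) (b (a (l 16402424) (l 16405192)) (b (l 16388936) (l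 4))))) (b (a (b (l 16432240) (a (l 16410576) (l 16412848))) (b (l 90428295415) (l 4))) (l 4))))), by decide +kernel⟩

def k1_pp_022_a : ∃ t, chk3 f_pp_022_a t 4 3 1 = true :=
  ⟨(b (a (a (b (a (b (l 16314024) (c (l 16408424) (l 16341824))) (b (l 16351560) (c (l 16422112) (l 16358808)))) (a (b (a (b (l 16393240) (l 16411152)) (l 16367528)) (b (a (l 16432640) (l 16439264)) (a (l 16457600) (l 16463896)))) (b (b (l 16411576) (l 16366592)) (b (a (l 16446872) (l 16454200)) (a (l 16471112) (l 16457624)))))) (b (a (b (a (l 16385824) (l 16394528)) (a (l 16402944) (l 16369304))) (b (a (l 16400960) (l 16363432)) (a (b (l 16412472) (l 16426448)) (l 194044383367)))) (a (b (a (b (l 16423240) (l 16441304)) (b (l 16432544) (l 16452288))) (b (a (l 16442144) (l 4)) (l 4))) (l 4)))) (b (a (b (a (b (l 154315913175) (l 4)) (l 4)) (l 4)) (l 4)) (l 4))) (a (a (a (b (b (b (a (l 16424000) (l 16429488)) (a (c (l 16542824) (l 16497960)) (c (l 16546768) (l 16502416)))) (b (a (b (l 16526768)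 (l 16503880)) (b (l 16531080) (c (l 16590160) (l 16552792)))) (a (b (c (l 16603736) (l 16569048)) (c (l 16622136) (l 16590632))) (b (c (l 16608656) (l 16574328)) (a (l 16590512) (l 16570752)))))) (b (a (b (b (a (l 16603672) (l 16607904)) (a (c (l 16657384) (l 16632480)) (c (l 16662040) (l 16637384)))) (b (a (l 6) (b (l 16644576) (l 6))) (l 6))) (a (b (b (l 34594235015) (c (l 16664752) (l 16640224))) (l 4)) (l 4))) (b (l 6) (l 6)))) (b (b (b (a (c (l 16522376) (l 16474288)) (l 306250599719)) (a (a (l 16486560) (l 16468296)) (l 4))) (b (a (b (l 19024796375) (l 376580866983)) (l 4)) (l 4))) (l 4))) (l 4)) (l 4))), by decide +kernel⟩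

def k2_pp_022_a : ∃ t, chk3 f_pp_022_a t 5 1 1 = true :=
  ⟨(b (a (b (a (b (a (l 16470160) (l 16380208)) (a (b (l 16458080) (l 16359512)) (b (l 79154071527) (l 4)))) (b (a (b (l 16529592) (l 16408048)) (b (l 16439984) (l 16495304))) (l 4))) (l 4)) (b (a (b (a (b (l 16520368) (l 4)) (l 4)) (l 4)) (l 4)) (l 4))) (l 4)), by decide +kernel⟩

def k3_pp_022_a : ∃ t, chk3 f_pp_022_a t 3 1 1 = true :=
  ⟨(l 4), by decide +kernel⟩

theorem s4_pp_022_a : ∃ t, chk3 f_pp_022_a t 4 1 1 = true := ex3_b k0_pp_022_a k1_pp_022_a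

theorem s5_pp_022_a : ∃ t, chk3 f_pp_022_a t 2 1 1 = true := ex3_a s4_pp_022_a k2_pp_022_a

theorem s6_pp_022_a : ∃ t, chk3 f_pp_022_a t 1 1 1 = true := ex3_a s5_pp_022_a k3_pp_022_a

theorem c_pp_022_a : CertB 0 536870912 0 536870912 1020054732 13421774 3 eng mog cd0q0 cd2q2a pd2 true true true .pp 0 2 2
    ndB0q0 ndB2q2a pcB2 cut_pp_022_a Ext.none :=
  certB0 (fam := true) (s1 := true) (s2 := true) (a := 0) (b := 2) (c := 2) (cn := .pp) (n1 := ndB0q0) (n2 := ndB2q2a) (pc := pcB2) (cut := cut_pp_022_a) (xt := Ext.none) (P1 := 0) (W1 := 536870912) (P2 := 0) (W2 := 536870912) (P3 := 1020054732) (W3 := 13421774) (N0 := 3) (En := eng) (mo := mog) (C1 := cd0q0) (C2 := cd2q2a) (C3 := pd2)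
    rfl s6_pp_022_a

noncomputable def cut_pp_022_b : Cut := Cut.of [[⟨0, 0, 0, 38347922⟩, ⟨1, 1, 0, 38347922⟩, ⟨2, 1, 0, 38347922⟩]]

noncomputable def f_pp_022_b : ℕ → ℕ → ℕ → ℕ → Bool := onCell 0 536870912 1073741824 536870912 1020054732 13421774
    (rowB 3 eng mog cd0q0 cd2q2b pd2 1 true true true .pp 0 2 2 (qsf 0 536870912 1239849684 370763052 2) ndB0q0 ndB2q2b pcB2 cut_pp_022_b Ext.none)

def k0_pp_022_b : ∃ t, chk3 f_pp_022_b t 1 1 1 = true :=
  ⟨(b (a (a (b (l 1) (a (b (a (b (l 503080623783) (a (l 16337160) (l 16288032))) (b (l 1) (a (l 452614943751) (l 1)))) (a (b (a (l 16354880) (l 16373696)) (l 16201704)) (b (a (l 16321200) (l 282963524775)) (a (l 16377448) (l 16346928))))) (b (l 1) (b (a (l 431139904711) (l 1)) (a (b (l 397317092359) (l 16352792)) (b (l 1) (l 439729970231))))))) (l 1)) (l 1)) (a (a (b (a (b (a (b (l 16106032) (l 15842088)) (b (a (l 16278200) (l 16369568)) (a (l 16010784) (l 16184016)))) (a (b (l 15769752) (l 15521776)) (b (l 15725760)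 (b (l 15787448) (l 4))))) (a (b (b (b (l 16442304) (l 16452352)) (b (l 16358232) (l 16196160))) (b (l 15934312) (l 15812272))) (b (b (b (l 406980884055) (l 16437744)) (b (l 16519576) (l 16418880))) (b (b (l 16271400) (l 16203488)) (l 15869664))))) (l 4)) (b (b (a (b (a (b (l 1) (l 461741831447)) (l 1)) (a (b (l 419329100455) (l 224981762871)) (b (l 1) (l 505228583399)))) (l 1)) (b (a (a (b (c (l 16486768) (l 16403896)) (l 16250208)) (b (a (l 16558648) (l 416644906167)) (c (l 16519712) (l 16402448)))) (a (b (l 1) (a (l 275447873719) (l 1))) (l 1))) (b (a (a (l 16275016) (a (l 16382816) (l 16452312))) (a (a (l 370473713255) (l 518650208951)) (l 1))) (l 4)))) (l 4))) (a (b (l 1) (a (l 4) (b (l 1) (l 4)))) (l 1)))), by decide +kernel⟩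

theorem c_pp_022_b : CertB 0 536870912 1239849684 370763052 1020054732 13421774 3 eng mog cd0q0 cd2q2b pd2 true true true .pp 0 2 2
    ndB0q0 ndB2q2b pcB2 cut_pp_022_b Ext.none :=
  certB1 (fam := true) (s1 := true) (s2 := true) (a := 0) (b := 2) (c := 2) (cn := .pp) (n1 := ndB0q0) (n2 := ndB2q2b) (pc := pcB2) (cut := cut_pp_022_b) (xt := Ext.none) (P1 := 0) (W1 := 536870912) (P2 := 1239849684) (W2 := 370763052) (P3 := 1020054732) (W3 := 13421774) (N0 := 3) (En := eng) (mo := mog) (C1 := cd0q0) (C2 := cd2q2b) (C3 := pd2)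
    rfl (fun _ => rfl) k0_pp_022_b

noncomputable def f_pp_023_a : ℕ → ℕ → ℕ → ℕ → Bool := onCell 0 536870912 0 536870912 1020054732 13421774
    (rowB 3 eng mog cd0q0 cd2q2a pd3 0 true true true .up 0 2 3 (qsf 0 536870912 0 536870912 3) ndB0q0 ndB2q2a pcB3 Cut.none Ext.none)

def k0_pp_023_a : ∃ t, chk3 f_pp_023_a t 1 1 1 = true :=
  ⟨(a (l 1) (l 4)), by decide +kernel⟩

theorem c_pp_023_a : CertB 0 536870912 0 536870912 1020054732 13421774 3 eng mog cd0q0 cd2q2a pd3 true true true .up 0 2 3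
    ndB0q0 ndB2q2a pcB3 Cut.none Ext.none :=
  certB0 (fam := true) (s1 := true) (s2 := true) (a := 0) (b := 2) (c := 3) (cn := .up) (n1 := ndB0q0) (n2 := ndB2q2a) (pc := pcB3) (cut := Cut.none) (xt := Ext.none) (P1 := 0) (W1 := 536870912) (P2 := 0) (W2 := 536870912) (P3 := 1020054732) (W3 := 13421774) (N0 := 3) (En := eng) (mo := mog) (C1 := cd0q0) (C2 := cd2q2a) (C3 := pd3)
    rfl k0_pp_023_a

noncomputable def f_pp_023_b : ℕ → ℕ → ℕ → ℕ → Bool := onCell 1610612736 536870912 1239849684 370763052 1020054732 13421774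
    (rowB 3 eng mog cd0q0 cd2q2b pd3 2 true true true .up 0 2 3 (qsf 0 536870912 1239849684 370763052 3) ndB0q0 ndB2q2b pcB3 Cut.none Ext.none)

def k0_pp_023_b : ∃ t, chk3 f_pp_023_b t 1 1 1 = true :=
  ⟨(a (l 4) (l 4)), by decide +kernel⟩

theorem c_pp_023_b : CertB 0 536870912 1239849684 370763052 1020054732 13421774 3 eng mog cd0q0 cd2q2b pd3 true true true .up 0 2 3
    ndB0q0 ndB2q2b pcB3 Cut.none Ext.none :=
  certB2 (fam := true) (s1 := true) (s2 := true) (a := 0) (b := 2) (c := 3) (cn := .up) (n1 := ndB0q0) (n2 := ndB2q2b) (pc := pcB3) (cut := Cut.none) (xt := Ext.none) (P1 := 0) (W1 := 536870912) (P2 := 1239849684) (W2 := 370763052) (P3 := 1020054732) (W3 := 13421774) (N0 := 3) (En := eng) (mo := mog) (C1 := cd0q0) (C2 := cd2q2b) (C3 := pd3)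
    rfl (fun _ => rfl) k0_pp_023_b

noncomputable def f_pp_033 : ℕ → ℕ → ℕ → ℕ → Bool := onCell 0 536870912 1610612736 536870912 1020054732 13421774
    (rowB 3 eng mog cd0q0 cd2q3 pd3 0 true true true .pnn 0 3 3 (qsf 0 536870912 1610612736 536870912 3) ndB0q0 ndB2q3 pcB3 Cut.none Ext.none)

def k0_pp_033 : ∃ t, chk3 f_pp_033 t 1 1 1 = true :=
  ⟨(a (l 4) (l 4)), by decide +kernel⟩

theorem c_pp_033 : CertB 0 536870912 1610612736 536870912 1020054732 13421774 3 eng mog cd0q0 cd2q3 pd3 true true true .pnn 0 3 3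
    ndB0q0 ndB2q3 pcB3 Cut.none Ext.none :=
  certB0 (fam := true) (s1 := true) (s2 := true) (a := 0) (b := 3) (c := 3) (cn := .pnn) (n1 := ndB0q0) (n2 := ndB2q3) (pc := pcB3) (cut := Cut.none) (xt := Ext.none) (P1 := 0) (W1 := 536870912) (P2 := 1610612736) (W2 := 536870912) (P3 := 1020054732) (W3 := 13421774) (N0 := 3) (En := eng) (mo := mog) (C1 := cd0q0) (C2 := cd2q3) (C3 := pd3)
    rfl k0_pp_033

noncomputable def f_pp_101 : ℕ → ℕ → ℕ → ℕ → Bool := onCell 536870912 536870912 0 536870912 1020054732 13421774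
    (rowB 3 eng mog cd0q1 cd2q0 pd1 0 true true true .npn 1 0 1 (qsf 536870912 536870912 0 536870912 1) ndB0q1 ndB2q0 pcB1 Cut.none Ext.none)

def k0_pp_101 : ∃ t, chk3 f_pp_101 t 1 1 1 = true :=
  ⟨(l 5), by decide +kernel⟩

theorem c_pp_101 : CertB 536870912 536870912 0 536870912 1020054732 13421774 3 eng mog cd0q1 cd2q0 pd1 true true true .npn 1 0 1
    ndB0q1 ndB2q0 pcB1 Cut.none Ext.none :=
  certB0 (fam := true) (s1 := true) (s2 := true) (a := 1) (b := 0) (c := 1) (cn := .npn) (n1 := ndB0q1) (n2 := ndB2q0) (pc := pcB1) (cut := Cut.none) (xt := Ext.none) (P1 := 536870912) (W1 := 536870912) (P2 := 0) (W2 := 536870912) (P3 := 1020054732) (W3 := 13421774) (N0 := 3) (En := eng) (mo := mog) (C1 := cd0q1) (C2 := cd2q0) (C3 := pd1)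
    rfl k0_pp_101

noncomputable def f_pp_102 : ℕ → ℕ → ℕ → ℕ → Bool := onCell 536870912 536870912 0 536870912 1020054732 13421774
    (rowB 3 eng mog cd0q1 cd2q0 pd2 0 true true true .npp 1 0 2 (qsf 536870912 536870912 0 536870912 2) ndB0q1 ndB2q0 pcB2 Cut.none Ext.none)

def k0_pp_102 : ∃ t, chk3 f_pp_102 t 1 1 1 = true :=
  ⟨(l 5), by decide +kernel⟩

theorem c_pp_102 : CertB 536870912 536870912 0 536870912 1020054732 13421774 3 eng mog cd0q1 cd2q0 pd2 true true true .npp 1 0 2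
    ndB0q1 ndB2q0 pcB2 Cut.none Ext.none :=
  certB0 (fam := true) (s1 := true) (s2 := true) (a := 1) (b := 0) (c := 2) (cn := .npp) (n1 := ndB0q1) (n2 := ndB2q0) (pc := pcB2) (cut := Cut.none) (xt := Ext.none) (P1 := 536870912) (W1 := 536870912) (P2 := 0) (W2 := 536870912) (P3 := 1020054732) (W3 := 13421774) (N0 := 3) (En := eng) (mo := mog) (C1 := cd0q1) (C2 := cd2q0) (C3 := pd2)
    rfl k0_pp_102

noncomputable def f_pp_112 : ℕ → ℕ → ℕ → ℕ → Bool := onCell 536870912 536870912 536870912 536870912 1020054732 13421774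
    (rowB 3 eng mog cd0q1 cd2q1 pd2 0 true true true .dn 1 1 2 (qsf 536870912 536870912 536870912 536870912 2) ndB0q1 ndB2q1 pcB2 Cut.none Ext.none)

def k0_pp_112 : ∃ t, chk3 f_pp_112 t 1 1 1 = true :=
  ⟨(l 4), by decide +kernel⟩

theorem c_pp_112 : CertB 536870912 536870912 536870912 536870912 1020054732 13421774 3 eng mog cd0q1 cd2q1 pd2 true true true .dn 1 1 2
    ndB0q1 ndB2q1 pcB2 Cut.none Ext.none :=
  certB0 (fam := true) (s1 := true) (s2 := true) (a := 1) (b := 1) (c := 2) (cn := .dn) (n1 := ndB0q1) (n2 := ndB2q1) (pc := pcB2) (cut := Cut.none) (xt := Ext.none) (P1 := 536870912) (W1 := 536870912) (P2 := 536870912) (W2 := 536870912) (P3 := 1020054732) (W3 := 13421774) (N0 := 3) (En := eng) (mo := mog) (C1 := cd0q1) (C2 := cd2q1) (C3 := pd2)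
    rfl k0_pp_112

noncomputable def f_pp_113 : ℕ → ℕ → ℕ → ℕ → Bool := onCell 536870912 536870912 536870912 536870912 1020054732 13421774
    (rowB 3 eng mog cd0q1 cd2q1 pd3 0 true true true .nn 1 1 3 (qsf 536870912 536870912 536870912 536870912 3) ndB0q1 ndB2q1 pcB3 Cut.none Ext.none)

def k0_pp_113 : ∃ t, chk3 f_pp_113 t 1 1 1 = true :=
  ⟨(l 4), by decide +kernel⟩

theorem c_pp_113 : CertB 536870912 536870912 536870912 536870912 1020054732 13421774 3 eng mog cd0q1 cd2q1 pd3 true true true .nn 1 1 3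
    ndB0q1 ndB2q1 pcB3 Cut.none Ext.none :=
  certB0 (fam := true) (s1 := true) (s2 := true) (a := 1) (b := 1) (c := 3) (cn := .nn) (n1 := ndB0q1) (n2 := ndB2q1) (pc := pcB3) (cut := Cut.none) (xt := Ext.none) (P1 := 536870912) (W1 := 536870912) (P2 := 536870912) (W2 := 536870912) (P3 := 1020054732) (W3 := 13421774) (N0 := 3) (En := eng) (mo := mog) (C1 := cd0q1) (C2 := cd2q1) (C3 := pd3)
    rfl k0_pp_113

noncomputable def f_pp_123_a : ℕ → ℕ → ℕ → ℕ → Bool := onCell 536870912 536870912 0 536870912 1020054732 13421774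
    (rowB 3 eng mog cd0q1 cd2q2a pd3 0 true true true .npn 1 2 3 (qsf 536870912 536870912 0 536870912 3) ndB0q1 ndB2q2a pcB3 Cut.none Ext.none)

def k0_pp_123_a : ∃ t, chk3 f_pp_123_a t 1 1 1 = true :=
  ⟨(l 4), by decide +kernel⟩

theorem c_pp_123_a : CertB 536870912 536870912 0 536870912 1020054732 13421774 3 eng mog cd0q1 cd2q2a pd3 true true true .npn 1 2 3
    ndB0q1 ndB2q2a pcB3 Cut.none Ext.none :=
  certB0 (fam := true) (s1 := true) (s2 := true) (a := 1) (b := 2) (c := 3) (cn := .npn) (n1 := ndB0q1) (n2 := ndB2q2a) (pc := pcB3) (cut := Cut.none) (xt := Ext.none) (P1 := 536870912) (W1 := 536870912) (P2 := 0) (W2 := 536870912) (P3 := 1020054732) (W3 := 13421774) (N0 := 3) (En := eng) (mo := mog) (C1 := cd0q1) (C2 := cd2q2a) (C3 := pd3)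
    rfl k0_pp_123_a

noncomputable def f_pp_123_b : ℕ → ℕ → ℕ → ℕ → Bool := onCell 536870912 536870912 1239849684 370763052 1020054732 13421774
    (rowB 3 eng mog cd0q1 cd2q2b pd3 0 true true true .npn 1 2 3 (qsf 536870912 536870912 1239849684 370763052 3) ndB0q1 ndB2q2b pcB3 Cut.none Ext.none)

def k0_pp_123_b : ∃ t, chk3 f_pp_123_b t 1 1 1 = true :=
  ⟨(l 4), by decide +kernel⟩

theorem c_pp_123_b : CertB 536870912 536870912 1239849684 370763052 1020054732 13421774 3 eng mog cd0q1 cd2q2b pd3 true true true .npn 1 2 3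
    ndB0q1 ndB2q2b pcB3 Cut.none Ext.none :=
  certB0 (fam := true) (s1 := true) (s2 := true) (a := 1) (b := 2) (c := 3) (cn := .npn) (n1 := ndB0q1) (n2 := ndB2q2b) (pc := pcB3) (cut := Cut.none) (xt := Ext.none) (P1 := 536870912) (W1 := 536870912) (P2 := 1239849684) (W2 := 370763052) (P3 := 1020054732) (W3 := 13421774) (N0 := 3) (En := eng) (mo := mog) (C1 := cd0q1) (C2 := cd2q2b) (C3 := pd3)
    rfl k0_pp_123_b

noncomputable def f_pp_133 : ℕ → ℕ → ℕ → ℕ → Bool := onCell 536870912 536870912 1610612736 536870912 1020054732 13421774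
    (rowB 3 eng mog cd0q1 cd2q3 pd3 0 true true true .dn 1 3 3 (qsf 536870912 536870912 1610612736 536870912 3) ndB0q1 ndB2q3 pcB3 Cut.none Ext.none)

def k0_pp_133 : ∃ t, chk3 f_pp_133 t 1 1 1 = true :=
  ⟨(l 4), by decide +kernel⟩

theorem c_pp_133 : CertB 536870912 536870912 1610612736 536870912 1020054732 13421774 3 eng mog cd0q1 cd2q3 pd3 true true true .dn 1 3 3
    ndB0q1 ndB2q3 pcB3 Cut.none Ext.none :=
  certB0 (fam := true) (s1 := true) (s2 := true) (a := 1) (b := 3) (c := 3) (cn := .dn) (n1 := ndB0q1) (n2 := ndB2q3) (pc := pcB3) (cut := Cut.none) (xt := Ext.none) (P1 := 536870912) (W1 := 536870912) (P2 := 1610612736) (W2 := 536870912) (P3 := 1020054732) (W3 := 13421774) (N0 := 3) (En := eng) (mo := mog) (C1 := cd0q1) (C2 := cd2q3) (C3 := pd3)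
    rfl k0_pp_133

noncomputable def f_pp_202 : ℕ → ℕ → ℕ → ℕ → Bool := onCell 0 536870912 0 536870912 1020054732 13421774
    (rowB 3 eng mog cd0q2 cd2q0 pd2 0 true true true .pp 2 0 2 (qsf 0 536870912 0 536870912 2) ndB0q2 ndB2q0 pcB2 Cut.none Ext.none)

def k0_pp_202 : ∃ t, chk3 f_pp_202 t 1 1 1 = true :=
  ⟨(l 5), by decide +kernel⟩

theorem c_pp_202 : CertB 0 536870912 0 536870912 1020054732 13421774 3 eng mog cd0q2 cd2q0 pd2 true true true .pp 2 0 2
    ndB0q2 ndB2q0 pcB2 Cut.none Ext.none :=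
  certB0 (fam := true) (s1 := true) (s2 := true) (a := 2) (b := 0) (c := 2) (cn := .pp) (n1 := ndB0q2) (n2 := ndB2q0) (pc := pcB2) (cut := Cut.none) (xt := Ext.none) (P1 := 0) (W1 := 536870912) (P2 := 0) (W2 := 536870912) (P3 := 1020054732) (W3 := 13421774) (N0 := 3) (En := eng) (mo := mog) (C1 := cd0q2) (C2 := cd2q0) (C3 := pd2)
    rfl k0_pp_202

noncomputable def f_pp_203 : ℕ → ℕ → ℕ → ℕ → Bool := onCell 0 536870912 0 536870912 1020054732 13421774
    (rowB 3 eng mog cd0q2 cd2q0 pd3 0 true true true .up 2 0 3 (qsf 0 536870912 0 536870912 3) ndB0q2 ndB2q0 pcB3 Cut.none Ext.none)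

def k0_pp_203 : ∃ t, chk3 f_pp_203 t 1 1 1 = true :=
  ⟨(l 5), by decide +kernel⟩

theorem c_pp_203 : CertB 0 536870912 0 536870912 1020054732 13421774 3 eng mog cd0q2 cd2q0 pd3 true true true .up 2 0 3
    ndB0q2 ndB2q0 pcB3 Cut.none Ext.none :=
  certB0 (fam := true) (s1 := true) (s2 := true) (a := 2) (b := 0) (c := 3) (cn := .up) (n1 := ndB0q2) (n2 := ndB2q0) (pc := pcB3) (cut := Cut.none) (xt := Ext.none) (P1 := 0) (W1 := 536870912) (P2 := 0) (W2 := 536870912) (P3 := 1020054732) (W3 := 13421774) (N0 := 3) (En := eng) (mo := mog) (C1 := cd0q2) (C2 := cd2q0) (C3 := pd3)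
    rfl k0_pp_203

noncomputable def f_pp_213 : ℕ → ℕ → ℕ → ℕ → Bool := onCell 0 536870912 536870912 536870912 1020054732 13421774
    (rowB 3 eng mog cd0q2 cd2q1 pd3 0 true true true .pnn 2 1 3 (qsf 0 536870912 536870912 536870912 3) ndB0q2 ndB2q1 pcB3 Cut.none Ext.none)

def k0_pp_213 : ∃ t, chk3 f_pp_213 t 1 1 1 = true :=
  ⟨(l 4), by decide +kernel⟩

theorem c_pp_213 : CertB 0 536870912 536870912 536870912 1020054732 13421774 3 eng mog cd0q2 cd2q1 pd3 true true true .pnn 2 1 3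
    ndB0q2 ndB2q1 pcB3 Cut.none Ext.none :=
  certB0 (fam := true) (s1 := true) (s2 := true) (a := 2) (b := 1) (c := 3) (cn := .pnn) (n1 := ndB0q2) (n2 := ndB2q1) (pc := pcB3) (cut := Cut.none) (xt := Ext.none) (P1 := 0) (W1 := 536870912) (P2 := 536870912) (W2 := 536870912) (P3 := 1020054732) (W3 := 13421774) (N0 := 3) (En := eng) (mo := mog) (C1 := cd0q2) (C2 := cd2q1) (C3 := pd3)
    rfl k0_pp_213

noncomputable def f_pm_001 : ℕ → ℕ → ℕ → ℕ → Bool := onCell 0 536870912 0 536870912 1020054732 13421774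
    (rowB 3 eng mog cd0q0 cd2q0 pd1 0 true true false .up 0 0 1 (qsf 0 536870912 0 536870912 1) ndB0q0 ndB2q0 pcB1 Cut.none Ext.none)

def k0_pm_001 : ∃ t, chk3 f_pm_001 t 1 1 1 = true :=
  ⟨(l 3), by decide +kernel⟩

theorem c_pm_001 : CertB 0 536870912 0 536870912 1020054732 13421774 3 eng mog cd0q0 cd2q0 pd1 true true false .up 0 0 1
    ndB0q0 ndB2q0 pcB1 Cut.none Ext.none :=
  certB0 (fam := true) (s1 := true) (s2 := false) (a := 0) (b := 0) (c := 1) (cn := .up) (n1 := ndB0q0) (n2 := ndB2q0) (pc := pcB1) (cut := Cut.none) (xt := Ext.none) (P1 := 0) (W1 := 536870912) (P2 := 0) (W2 := 536870912) (P3 := 1020054732) (W3 := 13421774) (N0 := 3) (En := eng) (mo := mog) (C1 := cd0q0) (C2 := cd2q0) (C3 := pd1)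
    rfl k0_pm_001

noncomputable def f_pm_011 : ℕ → ℕ → ℕ → ℕ → Bool := onCell 0 536870912 536870912 536870912 1020054732 13421774
    (rowB 3 eng mog cd0q0 cd2q1 pd1 1 true true false .pnn 0 1 1 (qsf 0 536870912 536870912 536870912 1) ndB0q0 ndB2q1 pcB1 Cut.none Ext.none)

def k0_pm_011 : ∃ t, chk3 f_pm_011 t 1 1 1 = true :=
  ⟨(l 3), by decide +kernel⟩

theorem c_pm_011 : CertB 0 536870912 536870912 536870912 1020054732 13421774 3 eng mog cd0q0 cd2q1 pd1 true true false .pnn 0 1 1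
    ndB0q0 ndB2q1 pcB1 Cut.none Ext.none :=
  certB1 (fam := true) (s1 := true) (s2 := false) (a := 0) (b := 1) (c := 1) (cn := .pnn) (n1 := ndB0q0) (n2 := ndB2q1) (pc := pcB1) (cut := Cut.none) (xt := Ext.none) (P1 := 0) (W1 := 536870912) (P2 := 536870912) (W2 := 536870912) (P3 := 1020054732) (W3 := 13421774) (N0 := 3) (En := eng) (mo := mog) (C1 := cd0q0) (C2 := cd2q1) (C3 := pd1)
    rfl (fun _ => rfl) k0_pm_011

noncomputable def f_pm_012 : ℕ → ℕ → ℕ → ℕ → Bool := onCell 0 536870912 1073741824 536870912 1020054732 13421774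
    (rowB 3 eng mog cd0q0 cd2q1 pd2 1 true true false .pnp 0 1 2 (qsf 0 536870912 536870912 536870912 2) ndB0q0 ndB2q1 pcB2 Cut.none Ext.none)

def k0_pm_012 : ∃ t, chk3 f_pm_012 t 2 1 1 = true :=
  ⟨(a (b (b (l 3) (b (b (b (l 3) (l 2)) (l 2)) (l 2))) (l 2)) (b (b (l 3) (b (b (b (b (l 3) (a (l 3) (a (a (l 3) (l 16241704)) (c (l 16356736) (l 16258576))))) (b (a (a (a (l 3) (b (l 3) (l 295445265591))) (a (b (l 3) (l 16086600)) (b (l 16141608) (l 16140560)))) (a (a (b (l 16192544) (l 16191632)) (l 16198312)) (a (l 16285576) (l 16328120)))) (b (a (a (a (l 2) (b (l 16007648) (l 16006912))) (a (c (l 16100296) (l 16049272)) (l 16139464))) (a (a (l 16190672) (l 16238320)) (c (l 16343840) (l 16257440)))) (a (a (a (l 2) (b (l 16006152) (c (c (l 16012744) (l 16006512)) (a (l 2) (l 16009760))))) (b (a (c (l 16076536) (l 16070000)) (b (l 16138736) (l 16135928))) (a (a (c (l 16056264) (l 16032376)) (c (l 16085056) (l 16074112))) (c (l 16146408) (l 16102032))))) (a (b (c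 (l 16194584) (l 16110608)) (c (l 16222032) (l 16153976))) (b (l 16135296) (c (l 16312296) (l 16215592)))))))) (a (a (a (l 2) (b (c (l 16001744) (l 15997048)) (l 2))) (b (a (c (l 16060704) (l 16039352)) (l 16116992)) (a (l 16070312) (l 16117096)))) (a (c (a (l 16183120) (l 16231200)) (l 16153976)) (c (l 16297872) (l 16215136))))) (a (a (l 2) (b (b (a (l 2) (l 16117096)) (l 2)) (l 2))) (a (b (c (l 16192184) (l 16169760)) (b (l 16179232) (l 2))) (b (c (l 16281192) (l 16228456)) (l 16255200)))))) (b (a (l 2) (b (a (l 2) (b (l 16253248) (l 2))) (l 2))) (l 2)))), by decide +kernel⟩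

def k1_pm_012 : ∃ t, chk3 f_pm_012 t 3 4 1 = true :=
  ⟨(b (l 3) (b (l 3) (b (a (l 3) (a (l 3) (c (a (l 197734635127) (b (l 15975056) (l 16099192))) (a (l 16329168) (l 197735181879))))) (a (a (l 3) (c (a (l 16467000) (l 16329496)) (l 16259640))) (a (a (a (l 167670437719) (l 169280912743)) (c (l 16180096) (l 16468960))) (c (a (a (l 16143840) (l 16044616)) (b (l 16097600) (l 16034040))) (a (b (l 16516448) (l 16449120)) (b (l 16375144) (l 16330200))))))))), by decide +kernel⟩

def k2_pm_012 : ∃ t, chk3 f_pm_012 t 3 5 1 = true :=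
  ⟨(b (a (b (b (a (a (b (l 16240768) (l 16261416)) (a (l 159617482471) (l 16345192))) (c (a (l 16443912) (l 16265360)) (b (l 16414672) (l 16266848)))) (b (a (c (a (l 16397072) (l 16511712)) (a (l 16328816) (l 16383416))) (a (c (l 16531648) (l 16424152)) (l 16278184))) (b (a (a (a (l 16335408) (l 16375928)) (l 16339880)) (c (l 16329408) (l 16381152))) (a (c (b (l 16291464) (l 16257440)) (b (l 16246536) (l 16208008))) (b (c (l 16357960) (l 16358440)) (c (l 16341768) (l 16302528))))))) (a (a (c (l 16376320) (l 16267904)) (c (l 16443192) (l 16312416))) (a (l 16236408) (l 16252664)))) (b (b (a (c (a (c (l 16275808) (l 16374264)) (b (l 16220984) (l 16246488))) (b (a (l 16511416) (l 16533784)) (a (l 16500992) (l 16507824)))) (c (a (b (l 16146760) (l 16193000)) (l 15953040)) (a (b (l 16447480) (l 16507880)) (l 16267288)))) (c (a (b (l 16084008) (b (l 16132680) (a (l 16180704) (c (l 16188768) (l 16254552))))) (b (a (l 16176752) (l 16103576)) (b (c (l 16083232) (l 16203272))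 (a (b (l 16203976) (l 16163368)) (b (l 16149168) (l 16045176)))))) (a (b (l 16321008) (b (l 16354896) (b (l 16357888) (l 16284416)))) (b (a (l 16474880) (l 16410008)) (b (l 16262600) (b (l 16270272) (a (l 16428208) (l 16328520)))))))) (a (c (b (l 16120352) (l 16143256)) (l 16241680)) (a (c (a (l 16227152) (l 16208696)) (l 16426832)) (c (l 16004888) (l 16369120)))))) (a (a (a (b (l 16256536) (l 16317928)) (c (l 16417728) (l 16327880))) (a (c (l 16472704) (l 16362040)) (c (l 16430000) (l 16389096)))) (a (c (b (l 16104896) (l 16173656)) (a (l 16409464) (l 16423624))) (c (c (a (l 16164664) (l 16082992)) (a (l 16306536) (l 16233904))) (c (l 16208264) (l 16265832)))))), by decide +kernel⟩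

def k3_pm_012 : ∃ t, chk3 f_pm_012 t 3 3 1 = true :=
  ⟨(a (b (b (a (a (b (l 16318296) (l 16319280)) (b (l 16370288) (l 16370912))) (c (a (l 16445192) (l 16488832)) (l 16269368))) (a (a (l 2) (b (l 16373736) (l 2))) (a (l 16416392) (l 16405656)))) (a (l 2) (b (a (l 2) (b (l 16450592) (l 2))) (l 2)))) (b (a (b (c (a (l 16415984) (l 16331072)) (l 16283184)) (c (l 16181496) (l 16445136))) (a (c (b (l 16229024) (l 16269896)) (b (l 16440704) (l 16451680))) (b (c (c (l 16106488) (l 16239184)) (l 16377728)) (c (l 16150760) (l 16414432))))) (a (b (a (l 16464384) (l 16410384)) (a (l 2) (l 16385104))) (b (c (a (l 16294136) (l 16218512)) (l 16399896)) (a (l 16340832) (l 16293024)))))), by decide +kernel⟩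

theorem s4_pm_012 : ∃ t, chk3 f_pm_012 t 3 2 1 = true := ex3_b k1_pm_012 k2_pm_012

theorem s5_pm_012 : ∃ t, chk3 f_pm_012 t 3 1 1 = true := ex3_b s4_pm_012 k3_pm_012

theorem s6_pm_012 : ∃ t, chk3 f_pm_012 t 1 1 1 = true := ex3_a k0_pm_012 s5_pm_012

theorem c_pm_012 : CertB 0 536870912 536870912 536870912 1020054732 13421774 3 eng mog cd0q0 cd2q1 pd2 true true false .pnp 0 1 2
    ndB0q0 ndB2q1 pcB2 Cut.none Ext.none :=
  certB1 (fam := true) (s1 := true) (s2 := false) (a := 0) (b := 1) (c := 2) (cn := .pnp) (n1 := ndB0q0) (n2 := ndB2q1) (pc := pcB2) (cut := Cut.none) (xt := Ext.none) (P1 := 0) (W1 := 536870912) (P2 := 536870912) (W2 := 536870912) (P3 := 1020054732) (W3 := 13421774) (N0 := 3) (En := eng) (mo := mog) (C1 := cd0q0) (C2 := cd2q1) (C3 := pd2)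
    rfl (fun _ => rfl) s6_pm_012

noncomputable def cut_pm_022_a : Cut := Cut.of [[⟨0, 0, 0, 38347922⟩, ⟨1, 1, 0, 38347922⟩, ⟨2, 1, 0, 38347922⟩]]

noncomputable def f_pm_022_a : ℕ → ℕ → ℕ → ℕ → Bool := onCell 1073741824 536870912 0 536870912 1020054732 13421774
    (rowB 3 eng mog cd0q0 cd2q2a pd2 2 true true false .pp 0 2 2 (qsf 0 536870912 0 536870912 2) ndB0q0 ndB2q2a pcB2 cut_pm_022_a Ext.none)

def k0_pm_022_a : ∃ t, chk3 f_pm_022_a t 8 1 1 = true :=
  ⟨(b (l 1) (b (l 1) (a (b (l 1) (b (b (b (l 1) (l 6)) (l 6)) (l 6))) (b (b (a (l 1) (b (l 1) (a (l 1) (b (l 16543312) (l 16562952))))) (a (b (l 1) (a (b (l 1) (a (l 1) (l 16578072))) (b (a (l 16563864) (l 16572320)) (c (l 16580064) (l 16600896))))) (b (a (b (l 16522248) (l 16543200)) (c (l 16566392) (l 16580088))) (a (c (l 16567784) (l 16585312)) (c (l 16590144) (l 16603984)))))) (b (a (b (a (b (c (l 16564816) (l 16608800)) (a (l 6) (l 16604248))) (c (b (l 16603792) (l 16628552)) (a (l 16610880) (l 16619216))))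 (a (a (l 6) (b (l 16629392) (l 16655640))) (c (b (l 16633408) (l 16660344)) (b (l 16652200) (l 16660248))))) (b (a (c (l 16594848) (l 16611808)) (a (l 16619224) (l 16632120))) (a (c (l 16631608) (l 16614192)) (b (l 16616552) (a (l 16628752) (l 16609800)))))) (a (a (a (l 6) (b (b (l 16676944) (l 16653080)) (b (a (l 16642336) (l 16633792)) (c (l 16623648) (b (l 16655856) (l 16644680)))))) (b (c (b (l 16660976) (l 16641272)) (b (l 16642832) (l 16623912))) (b (a (c (l 16649856) (l 16654256)) (c (l 16652608) (l 16636192))) (c (a (l 16626904) (l 16608672)) (a (l 16611344) (l 16593136)))))) (c (b (a (b (l 16624656) (l 16604344)) (b (l 16607464) (l 16586896))) (b (a (a (l 16633944) (l 16614992)) (l 16565968)) (a (a (l 16611088) (l 16592768)) (a (l 16574912) (l 16557184))))) (b (a (b (l 16607736) (l 16587880)) (b (l 16592152) (l 16592784))) (a (b (a (l 16617832) (l 16599336)) (a (l 16595736) (l 16577832))) (b (l 16551336) (a (l 16560624) (l 16543728)))))))))))), by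 decide +kernel⟩

def k1_pm_022_a : ∃ t, chk3 f_pm_022_a t 9 2 1 = true :=
  ⟨(b (l 1) (a (l 1) (b (l 1) (a (l 1) (l 16432264))))), by decide +kernel⟩

def k2_pm_022_a : ∃ t, chk3 f_pm_022_a t 9 6 1 = true :=
  ⟨(a (b (l 1) (b (a (l 1) (b (l 16465160) (l 16492560))) (a (b (l 16458656) (a (l 1) (l 16521584))) (b (l 16480816) (l 16513992))))) (b (b (a (l 16431736) (l 16482136)) (a (l 16432472) (l 16527080))) (b (a (a (l 16493272) (l 16540120)) (l 16481976)) (a (a (l 16556136) (l 16550984)) (b (l 16525104) (l 16466368)))))), by decide +kernel⟩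

def k3_pm_022_a : ∃ t, chk3 f_pm_022_a t 9 14 1 = true :=
  ⟨(a (b (a (b (a (b (l 16526128) (l 16544360)) (l 16514800)) (a (l 16531720) (l 16554216))) (b (b (l 16540880) (l 16539168)) (a (l 16599528) (l 16597424)))) (a (b (c (l 16539744) (l 16568016)) (a (l 16598672) (b (l 16626224) (l 16611400)))) (a (b (l 16588128) (l 16538904)) (b (l 16550552) (l 16521400))))) (b (a (b (a (l 16603752) (l 16545280)) (c (l 16495544) (l 16502632))) (a (b (l 16528512) (l 16506776)) (b (l 16492592) (l 16472368)))) (a (b (a (l 16533824) (l 16517808)) (a (l 16505808) (l 16470776))) (b (a (l 16483040) (l 16450056)) (c (l 16436632) (l 16447368)))))), by decide +kernel⟩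

def k4_pm_022_a : ∃ t, chk3 f_pm_022_a t 9 15 1 = true :=
  ⟨(a (b (a (a (b (b (l 16612608) (l 16596176)) (b (l 16578672) (l 16539320))) (b (c (l 16571264) (l 16582360)) (c (l 16537280) (l 16526704)))) (b (a (b (l 16578016) (l 16561680)) (c (l 16535152) (l 16531536))) (a (c (l 16540920) (l 16533312)) (b (l 16510232) (l 16494752))))) (a (b (a (b (c (l 16589488) (l 16576192)) (c (l 16570376) (l 16557320))) (c (b (l 16552080) (l 16533984)) (b (l 16541392) (l 16523552)))) (a (c (b (l 16550824) (a (l 16539680) (l 16522528))) (b (l 16538240) (a (l 16527232) (l 16511264)))) (c (b (l 16515696) (l 16496480)) (b (l 16505760) (l 16487184))))) (b (c (a (l 16507416) (l 16471960)) (a (l 16499968) (l 16467944))) (c (a (b (l 16480592) (l 16461832)) (b (l 16445744) (l 16427448))) (a (b (l 16473696) (l 16455528)) (b (l 16442248) (l 16424528))))))) (b (a (b (a (b (l 16505656) (l 16491448)) (l 16464824)) (c (a (l 16469016) (l 16433792)) (l 16431896))) (a (b (l 16431640) (l 16360968))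 (b (l 16399224) (l 16329272)))) (a (b (c (a (l 16436904) (l 16402376)) (a (l 16436600) (l 16406032))) (c (a (b (l 16411304) (l 16393488)) (b (l 16377456) (l 16360080))) (a (l 16381944) (l 16373320)))) (b (c (a (l 16368536) (l 16335280)) (a (l 16376400) (l 16347576))) (c (a (b (l 16344136) (l 16327136)) (l 16281976)) (a (l 16344456) (l 16316360))))))), by decide +kernel⟩

def k5_pm_022_a : ∃ t, chk3 f_pm_022_a t 5 2 1 = true :=
  ⟨(a (b (a (a (l 1) (l 16345664)) (b (l 16267720) (a (l 16371792) (l 16297816)))) (a (b (a (l 16443640) (l 16459160)) (a (l 16487520) (l 16463888))) (b (a (l 16388448) (l 16314072)) (a (b (l 16391984) (l 16388624)) (l 16277600))))) (b (a (b (l 16073920) (a (l 16222464) (l 16150584))) (b (l 16018152) (l 16053528))) (a (b (a (l 16241024) (l 16172456)) (a (l 16206992) (l 16187272))) (b (l 16081136) (b (l 16096248) (l 16102840)))))), by decide +kernel⟩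

def k6_pm_022_a : ∃ t, chk3 f_pm_022_a t 5 6 1 = true :=
  ⟨(a (b (a (a (b (l 16526832) (l 16513544)) (b (l 16454208) (a (l 16458184) (l 16421752)))) (a (b (l 16382240) (l 16369424)) (b (l 16312096) (l 16305280)))) (a (a (b (l 16408768) (a (l 16461600) (l 16447504))) (b (l 16399704) (b (l 16403592) (l 16392176)))) (b (a (l 16355296) (l 16293432)) (a (l 16335752) (l 16276744))))) (b (a (b (l 16219456) (l 16215240)) (b (l 16106440) (l 16106920))) (a (b (a (l 16234912) (l 16180024)) (a (l 16221240) (l 16168624))) (b (a (l 16127992) (l 16078800)) (a (l 16118832) (l 16071808)))))), by decide +kernel⟩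

def k7_pm_022_a : ∃ t, chk3 f_pm_022_a t 10 7 1 = true :=
  ⟨(b (b (b (a (a (l 16378352) (l 16378208)) (a (l 16317896) (l 16261088))) (a (a (a (l 16439776) (l 16407752)) (a (l 16376664) (a (l 16353968) (a (l 16342864) (b (l 16319736) (l 16331136)))))) (a (l 16303200) (l 16248536)))) (a (a (c (b (l 16391896) (l 16368432)) (b (l 16411576) (l 16387240))) (a (b (l 16355184) (l 16331952)) (a (l 16237400) (a (l 16247264) (b (l 16251632) (l 16270288)))))) (a (b (l 16282752) (l 16260136)) (c (l 16198392) (l 16238960))))) (a (a (a (b (b (l 16367744) (l 16298312)) (b (c (l 16302600) (l 16319560)) (c (b (l 16278816) (l 16262144)) (l 16288792)))) (b (b (l 16337016) (l 16268112)) (b (c (l 16270224) (l 16292136)) (c (b (l 16246584) (l 16230016)) (l 16261816))))) (a (b (b (l 16286008) (c (l 16267440) (l 16293456))) (b (c (l 16238000) (l 16265344)) (c (a (l 16214304) (l 16198184)) (l 16235432)))) (a (b (b (l 16284920) (l 16258200)) (b (c (l 16213672) (l 16245624)) (c (l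 16181720) (l 16216008)))) (b (a (b (l 16273752) (l 16246976)) (c (b (l 16249952) (l 16222232)) (l 16249136))) (a (b (c (l 16200880) (l 16235888)) (c (l 16168712) (l 16206400))) (c (c (b (l 16162216) (c (l 16124288) (l 16134024))) (b (l 16180440) (l 16148816))) (b (l 16229440) (l 16200032)))))))) (b (a (b (l 16172648) (c (l 16190248) (l 16228352))) (b (l 16141544) (c (l 16136608) (l 16179448)))) (a (b (c (l 16160728) (l 16201080)) (c (a (l 16142184) (l 16115632)) (l 16172056))) (b (c (l 16108104) (l 16152784)) (c (l 16077312) (l 16124400))))))), by decide +kernel⟩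

def k8_pm_022_a : ∃ t, chk3 f_pm_022_a t 11 7 1 = true :=
  ⟨(b (a (b (a (c (l 16181680) (l 16223656)) (c (l 16129320) (l 16175864))) (a (c (l 16145600) (l 16191552)) (c (l 16095896) (l 16146944)))) (b (a (l 16020928) (l 16060040)) (c (a (l 16048928) (l 16004976)) (a (l 16104760) (l 16065112))))) (a (b (c (a (l 16035984) (l 16050960)) (a (l 16145688) (l 16102048))) (a (c (b (l 16058576) (l 16028832)) (b (l 16107264) (l 16079480))) (c (l 15913984) (l 16050920)))) (b (c (a (l 16006024) (l 15964032)) (l 15978728)) (c (a (l 15954848) (l 15914664)) (a (l 16010880) (l 15973320)))))), by decide +kernel⟩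

def k9_pm_022_a : ∃ t, chk3 f_pm_022_a t 3 2 1 = true :=
  ⟨(a (a (b (a (b (l 15896408) (l 15936104)) (b (l 15789352) (l 15832904))) (b (a (l 15969560) (l 15870728)) (a (b (l 15989304) (l 15999248)) (l 15859024)))) (b (a (b (l 15695480) (l 15742264)) (b (l 15614672) (l 15664088))) (a (b (l 15784048) (l 15819024)) (b (l 15709208) (l 15748256))))) (a (b (a (b (l 15546664) (l 15598080)) (c (l 15520984) (l 15514616))) (b (a (l 15645888) (l 15593784)) (a (l 15688328) (l 15638872)))) (b (a (c (l 15459712) (l 15469240)) (l 15422800)) (b (a (l 15552584) (l 15522000)) (c (l 15560472) (l 15587168)))))), by decide +kernel⟩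

def k10_pm_022_a : ∃ t, chk3 f_pm_022_a t 3 3 1 = true :=
  ⟨(a (b (a (b (a (b (l 16006336) (l 16010184)) (b (l 15917384) (l 15924576))) (a (b (l 15968456) (a (l 16027488) (l 15985816))) (b (l 15928376) (l 15928344)))) (b (a (l 15761008) (l 15779000)) (a (b (l 15856712) (l 15860144)) (b (l 15794952) (l 15801424))))) (a (b (b (a (c (l 15969112) (l 16027704)) (c (l 15893080) (l 15955648))) (a (c (a (l 15963984) (l 15925816)) (l 16010064)) (c (l 15873736) (l 15944608)))) (a (b (c (l 15906560) (l 15969552)) (c (a (l 15877240) (l 15842432)) (l 15921648))) (b (c (l 15839016) (l 15906744)) (c (l 15795192) (l 15860432))))) (b (b (a (l 15859496) (l 15804016)) (a (c (l 15813176) (l 15887488)) (c (l 15761992) (l 15838056)))) (b (a (c (l 15781432) (l 15852688)) (l 15769392)) (a (c (l 15740192) (l 15807624)) (c (l 15694008) (l 15762472))))))) (b (a (b (a (l 15723176) (l 15677024)) (a (l 15747656) (l 15705416))) (b (a (l 15640136) (l 15612144)) (a (l 15671448) (l 15645312))))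 (b (a (a (b (l 15757040) (l 15756944)) (b (l 15718008) (l 15721280))) (a (b (l 15686400) (l 15691816)) (b (l 15661704) (l 15667840)))) (a (b (a (l 15730088) (l 15697960)) (a (b (l 15700328) (l 15678264)) (l 15553128))) (b (a (l 15672288) (l 15651488)) (a (l 15506536) (l 15486056))))))), by decide +kernel⟩

theorem s11_pm_022_a : ∃ t, chk3 f_pm_022_a t 3 1 1 = true := ex3_b k9_pm_022_a k10_pm_022_a

theorem s12_pm_022_a : ∃ t, chk3 f_pm_022_a t 5 7 1 = true := ex3_a k7_pm_022_a k8_pm_022_a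

theorem s13_pm_022_a : ∃ t, chk3 f_pm_022_a t 5 3 1 = true := ex3_b k6_pm_022_a s12_pm_022_a

theorem s14_pm_022_a : ∃ t, chk3 f_pm_022_a t 5 1 1 = true := ex3_b k5_pm_022_a s13_pm_022_a

theorem s15_pm_022_a : ∃ t, chk3 f_pm_022_a t 9 7 1 = true := ex3_b k3_pm_022_a k4_pm_022_a

theorem s16_pm_022_a : ∃ t, chk3 f_pm_022_a t 9 3 1 = true := ex3_b k2_pm_022_a s15_pm_022_a

theorem s17_pm_022_a : ∃ t, chk3 f_pm_022_a t 9 1 1 = true := ex3_b k1_pm_022_a s16_pm_022_a

theorem s18_pm_022_a : ∃ t, chk3 f_pm_022_a t 4 1 1 = true := ex3_a k0_pm_022_a s17_pm_022_a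

theorem s19_pm_022_a : ∃ t, chk3 f_pm_022_a t 2 1 1 = true := ex3_a s18_pm_022_a s14_pm_022_a

theorem s20_pm_022_a : ∃ t, chk3 f_pm_022_a t 1 1 1 = true := ex3_a s19_pm_022_a s11_pm_022_a

theorem c_pm_022_a : CertB 0 536870912 0 536870912 1020054732 13421774 3 eng mog cd0q0 cd2q2a pd2 true true false .pp 0 2 2
    ndB0q0 ndB2q2a pcB2 cut_pm_022_a Ext.none :=
  certB2 (fam := true) (s1 := true) (s2 := false) (a := 0) (b := 2) (c := 2) (cn := .pp) (n1 := ndB0q0) (n2 := ndB2q2a) (pc := pcB2) (cut := cut_pm_022_a) (xt := Ext.none) (P1 := 0) (W1 := 536870912) (P2 := 0) (W2 := 536870912) (P3 := 1020054732) (W3 := 13421774) (N0 := 3) (En := eng) (mo := mog) (C1 := cd0q0) (C2 := cd2q2a) (C3 := pd2)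
    rfl (fun _ => rfl) s20_pm_022_a

noncomputable def cut_pm_022_b : Cut := Cut.of [[⟨0, 0, 0, 38347922⟩, ⟨1, 1, 0, 38347922⟩, ⟨2, 1, 0, 38347922⟩]]

noncomputable def f_pm_022_b : ℕ → ℕ → ℕ → ℕ → Bool := onCell 0 536870912 1239849684 370763052 1020054732 13421774
    (rowB 3 eng mog cd0q0 cd2q2b pd2 0 true true false .pp 0 2 2 (qsf 0 536870912 1239849684 370763052 2) ndB0q0 ndB2q2b pcB2 cut_pm_022_b Ext.none)

def k0_pm_022_b : ∃ t, chk3 f_pm_022_b t 1 1 1 = true :=
  ⟨(a (a (b (a (b (c (a (b (l 16098552) (l 16066640)) (b (l 15909016) (l 15933512))) (a (b (l 16115056) (l 16054536)) (b (l 15946768) (l 15919528)))) (a (b (l 15727864) (l 15685344)) (b (a (l 15804472) (l 15745536)) (l 15473912)))) (b (b (a (b (l 15972064) (l 15905584)) (b (l 15850664) (l 15790448))) (a (b (l 15838296) (l 15770224)) (l 15572576))) (b (a (l 15666416) (l 15573960)) (a (l 15526536) (l 15448096))))) (a (b (a (b (l 15556216) (l 15383696)) (b (l 15443480) (l 15307920))) (a (b (l 15211640)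 (l 15042608)) (b (l 15153416) (l 15003896)))) (b (b (a (l 15385760) (l 15322560)) (a (l 15246112) (l 15199744))) (b (a (l 15110264) (l 2)) (l 2))))) (b (b (a (b (a (b (l 15744168) (l 15689992)) (b (l 15651144) (l 15602912))) (a (l 15523304) (l 15529304))) (b (a (a (l 15567952) (l 15511864)) (l 15486176)) (a (l 15464672) (l 15413168)))) (a (b (a (l 15495736) (l 15430944)) (a (l 15383920) (l 15333472))) (b (a (l 15379576) (l 15341608)) (a (l 15296824) (l 2))))) (b (a (b (a (l 15273848) (l 15239368)) (a (l 15168304) (l 2))) (l 2)) (l 2)))) (b (a (b (a (b (a (l 15414304) (b (l 15409864) (l 15385216))) (a (l 15353704) (l 15328120))) (b (c (a (l 15388176) (l 15377936)) (l 15323008)) (l 2))) (a (b (a (l 15317024) (l 2)) (l 2)) (l 2))) (l 2)) (l 2))), by decide +kernel⟩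

theorem c_pm_022_b : CertB 0 536870912 1239849684 370763052 1020054732 13421774 3 eng mog cd0q0 cd2q2b pd2 true true false .pp 0 2 2
    ndB0q0 ndB2q2b pcB2 cut_pm_022_b Ext.none :=
  certB0 (fam := true) (s1 := true) (s2 := false) (a := 0) (b := 2) (c := 2) (cn := .pp) (n1 := ndB0q0) (n2 := ndB2q2b) (pc := pcB2) (cut := cut_pm_022_b) (xt := Ext.none) (P1 := 0) (W1 := 536870912) (P2 := 1239849684) (W2 := 370763052) (P3 := 1020054732) (W3 := 13421774) (N0 := 3) (En := eng) (mo := mog) (C1 := cd0q0) (C2 := cd2q2b) (C3 := pd2)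
    rfl k0_pm_022_b

noncomputable def f_pm_023_a : ℕ → ℕ → ℕ → ℕ → Bool := onCell 1610612736 536870912 0 536870912 1020054732 13421774
    (rowB 3 eng mog cd0q0 cd2q2a pd3 2 true true false .up 0 2 3 (qsf 0 536870912 0 536870912 3) ndB0q0 ndB2q2a pcB3 Cut.none Ext.none)

def k0_pm_023_a : ∃ t, chk3 f_pm_023_a t 1 1 1 = true :=
  ⟨(a (b (a (a (b (l 16306784) (a (l 16330848) (l 16363512))) (b (l 16414080) (a (l 16389944) (l 16388312)))) (a (b (l 16428184) (a (l 16358176) (l 2))) (l 2))) (a (b (a (b (l 16271992) (a (l 16352936) (l 16328600))) (b (l 16286072) (a (l 16279240) (l 16234352)))) (a (b (a (l 16298048) (l 16241144)) (b (a (l 30700586471) (l 236322080103)) (a (c (l 15982592) (l 16094016)) (l 2)))) (b (a (l 16187680) (l 2)) (l 2)))) (b (l 2) (l 2)))) (l 2)), by decide +kernel⟩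

theorem c_pm_023_a : CertB 0 536870912 0 536870912 1020054732 13421774 3 eng mog cd0q0 cd2q2a pd3 true true false .up 0 2 3
    ndB0q0 ndB2q2a pcB3 Cut.none Ext.none :=
  certB2 (fam := true) (s1 := true) (s2 := false) (a := 0) (b := 2) (c := 3) (cn := .up) (n1 := ndB0q0) (n2 := ndB2q2a) (pc := pcB3) (cut := Cut.none) (xt := Ext.none) (P1 := 0) (W1 := 536870912) (P2 := 0) (W2 := 536870912) (P3 := 1020054732) (W3 := 13421774) (N0 := 3) (En := eng) (mo := mog) (C1 := cd0q0) (C2 := cd2q2a) (C3 := pd3)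
    rfl (fun _ => rfl) k0_pm_023_a

noncomputable def f_pm_023_b : ℕ → ℕ → ℕ → ℕ → Bool := onCell 1610612736 536870912 1239849684 370763052 1020054732 13421774
    (rowB 3 eng mog cd0q0 cd2q2b pd3 2 true true false .up 0 2 3 (qsf 0 536870912 1239849684 370763052 3) ndB0q0 ndB2q2b pcB3 Cut.none Ext.none)

def k0_pm_023_b : ∃ t, chk3 f_pm_023_b t 1 1 1 = true :=
  ⟨(a (b (a (b (a (b (a (l 16293488) (l 16340512)) (l 16081552)) (b (l 16375024) (l 16327472))) (a (b (l 15954080) (a (l 15953328) (l 16037928))) (b (l 16159856) (l 16080536)))) (b (a (b (l 16403720) (l 16393208)) (b (l 113379420407) (l 16388040))) (a (b (l 16327488) (l 16184640)) (b (l 16376768) (l 16248888))))) (a (b (a (b (a (l 15800032) (l 15899416)) (a (l 15625384) (l 15739688))) (b (l 15899296) (a (l 15841720) (l 15930680)))) (a (b (a (b (l 15476904) (l 15372904)) (l 15557920)) (a (b (l 15248992) (l 15128192)) (b (l 15411568) (l 15286800)))) (b (a (l 15675320) (l 15779184)) (a (l 15485864) (l 15607112)))))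 (a (b (b (l 16110112) (l 15913656)) (b (a (l 15869096) (l 15945272)) (a (l 15710808) (l 15801048)))) (b (b (l 16150224) (a (l 16121328) (l 16164944))) (a (b (l 16009832) (l 15881408)) (b (l 16070080) (l 15960576))))))) (b (b (l 2) (a (a (b (a (l 16394048) (l 16402536)) (a (l 16339152) (l 16360512))) (a (l 227732963543) (l 2))) (l 2))) (a (a (b (a (b (l 16278216) (l 16211304)) (l 16285600)) (a (l 16019368) (l 16121944))) (b (a (l 16324240) (l 16251552)) (a (l 16195824) (l 16235048)))) (b (b (l 2) (l 4)) (l 4))))), by decide +kernel⟩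

theorem c_pm_023_b : CertB 0 536870912 1239849684 370763052 1020054732 13421774 3 eng mog cd0q0 cd2q2b pd3 true true false .up 0 2 3
    ndB0q0 ndB2q2b pcB3 Cut.none Ext.none :=
  certB2 (fam := true) (s1 := true) (s2 := false) (a := 0) (b := 2) (c := 3) (cn := .up) (n1 := ndB0q0) (n2 := ndB2q2b) (pc := pcB3) (cut := Cut.none) (xt := Ext.none) (P1 := 0) (W1 := 536870912) (P2 := 1239849684) (W2 := 370763052) (P3 := 1020054732) (W3 := 13421774) (N0 := 3) (En := eng) (mo := mog) (C1 := cd0q0) (C2 := cd2q2b) (C3 := pd3)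
    rfl (fun _ => rfl) k0_pm_023_b

noncomputable def f_pm_033 : ℕ → ℕ → ℕ → ℕ → Bool := onCell 0 536870912 1610612736 536870912 1020054732 13421774
    (rowB 3 eng mog cd0q0 cd2q3 pd3 0 true true false .pnn 0 3 3 (qsf 0 536870912 1610612736 536870912 3) ndB0q0 ndB2q3 pcB3 Cut.none Ext.none)

def k0_pm_033 : ∃ t, chk3 f_pm_033 t 1 1 1 = true :=
  ⟨(a (b (a (b (a (b (a (c (l 15504024) (l 15224392)) (c (l 15586880) (l 15251016))) (a (b (l 15316344) (l 15169072)) (b (l 15185128) (b (l 15380576) (l 15358600))))) (b (b (c (l 15712416) (l 15412272)) (a (l 15549048) (c (l 15680152) (l 15558016)))) (b (a (b (l 15515960) (l 15492520)) (l 15451840)) (a (l 15463896) (l 15539344))))) (a (b (a (b (l 15036760) (l 15183688)) (b (l 15328888) (l 15285360))) (a (b (l 15137704) (l 15086352)) (b (l 15238672) (l 15183504)))) (b (b (a (l 15422344) (l 15498720)) (a (l 15379240) (l 15450528))) (b (a (l 15327592) (l 4)) (l 4))))) (b (b (a (b (a (l 15494608) (b (l 15783544) (l 15761880)))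 (a (b (l 15689784) (l 15671384)) (l 15734504))) (b (a (l 15796320) (l 15853848)) (a (l 15779048) (l 15815888)))) (a (b (a (l 15642272) (l 15695888)) (a (l 15603016) (l 15507432))) (b (a (l 15697720) (b (l 15784368) (l 4))) (a (b (l 15706376) (l 4)) (l 4))))) (a (b (b (a (l 15453408) (b (l 15619048) (l 4))) (l 4)) (l 4)) (l 4)))) (a (b (a (b (l 4) (l 4)) (l 4)) (l 4)) (l 4))) (b (a (b (b (a (b (a (l 15884136) (b (l 15917368) (l 15894936))) (a (b (l 15854304) (l 15830712)) (l 4))) (b (a (b (l 15929936) (l 4)) (l 4)) (l 4))) (l 4)) (l 4)) (l 4)) (l 4))), by decide +kernel⟩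

theorem c_pm_033 : CertB 0 536870912 1610612736 536870912 1020054732 13421774 3 eng mog cd0q0 cd2q3 pd3 true true false .pnn 0 3 3
    ndB0q0 ndB2q3 pcB3 Cut.none Ext.none :=
  certB0 (fam := true) (s1 := true) (s2 := false) (a := 0) (b := 3) (c := 3) (cn := .pnn) (n1 := ndB0q0) (n2 := ndB2q3) (pc := pcB3) (cut := Cut.none) (xt := Ext.none) (P1 := 0) (W1 := 536870912) (P2 := 1610612736) (W2 := 536870912) (P3 := 1020054732) (W3 := 13421774) (N0 := 3) (En := eng) (mo := mog) (C1 := cd0q0) (C2 := cd2q3) (C3 := pd3)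
    rfl k0_pm_033

noncomputable def cut_pm_101 : Cut := Cut.of [[⟨0, 1, 0, 38347922⟩, ⟨1, 0, 0, 38347922⟩, ⟨2, 1, 0, 38347922⟩]]

noncomputable def f_pm_101 : ℕ → ℕ → ℕ → ℕ → Bool := onCell 536870912 536870912 0 536870912 1020054732 13421774
    (rowB 3 eng mog cd0q1 cd2q0 pd1 2 true true false .npn 1 0 1 (qsf 536870912 536870912 0 536870912 1) ndB0q1 ndB2q0 pcB1 cut_pm_101 Ext.none)

def k0_pm_101 : ∃ t, chk3 f_pm_101 t 1 1 1 = true :=
  ⟨(a (l 3) (b (a (l 3) (b (a (l 3) (b (a (l 3) (a (l 3) (b (b (l 6) (l 3)) (l 3)))) (l 3))) (l 3))) (l 3))), by decide +kernel⟩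

theorem c_pm_101 : CertB 536870912 536870912 0 536870912 1020054732 13421774 3 eng mog cd0q1 cd2q0 pd1 true true false .npn 1 0 1
    ndB0q1 ndB2q0 pcB1 cut_pm_101 Ext.none :=
  certB2 (fam := true) (s1 := true) (s2 := false) (a := 1) (b := 0) (c := 1) (cn := .npn) (n1 := ndB0q1) (n2 := ndB2q0) (pc := pcB1) (cut := cut_pm_101) (xt := Ext.none) (P1 := 536870912) (W1 := 536870912) (P2 := 0) (W2 := 536870912) (P3 := 1020054732) (W3 := 13421774) (N0 := 3) (En := eng) (mo := mog) (C1 := cd0q1) (C2 := cd2q0) (C3 := pd1)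
    rfl (fun _ => rfl) k0_pm_101

end Pool.Agent.Strip051.G.I9500_9625.Tab.C.BA02

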