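import Pool.Agent.Strip051.G.I9500_9625.Tab
import Pool.Agent.Strip051.PB.ExtD3

/-! # Certificates B9 (generated) -/

set_option linter.all false
set_option maxRecDepth 100000

namespace Pool.Agent.Strip051.G.I9500_9625.Tab.C.BA02

open Pool.Agent.Strip051.PB Pool.Agent.Strip051.PB.T
open Pool.Agent.Strip051.G.I9500_9625.Tab

noncomputable def f_pm_113 : ℕ → ℕ → ℕ → ℕ → Bool := onCell 536870912 536870912 1610612736 536870912 1020054732 13421774
    (rowB 3 eng mog cd0q1 cd2q1 pd3 1 true true false .nn 1 1 3 (qsf 536870912 536870912 536870912 536870912 3) ndB0q1 ndB2q1 pcB3 Cut.none Ext.none)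

def k0_pm_113 : ∃ t, chk3 f_pm_113 t 2 2 1 = true :=
  ⟨(b (a (b (a (a (b (c (l 16162280) (l 16362576)) (c (l 16232768) (l 16300504))) (b (c (l 15897656) (l 16272624)) (a (l 16187464) (c (l 16070216) (l 16302024))))) (c (a (b (l 16143584) (l 16134192)) (b (l 16132192) (l 16192048))) (a (b (l 16263488) (l 16289320)) (b (l 16145424) (l 16152392))))) (a (b (a (l 2) (c (l 16163488) (l 16325200))) (l 2)) (a (b (a (l 15998176) (l 16263144)) (c (l 16010800) (l 16214248))) (b (c (l 16249752) (l 16166136)) (c (l 16252832) (l 16181272)))))) (a (b (a (c (b (l 15977008) (l 16018520)) (b (l 16054360) (l 16047288))) (c (b (l 15852928) (l 15880304)) (b (l 15986696) (l 15969304)))) (a (b (c (l 16065288) (l 16043936)) (c (l 16118232) (l 16045800))) (b (c (l 15910960) (l 15953520)) (c (l 15945328) (l 15940272))))) (b (a (c (b (l 15757104) (l 15773504)) (b (l 15939704) (l 15914840))) (b (c (l 15687496) (l 15911408)) (c (a (l 15712328) (l 15680264)) (l 15776432)))) (a (b (c (l 15791848) (l 15890088)) (c (l 15812344)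 (l 15866104))) (b (a (l 15791384) (c (l 15689544) (l 15846680))) (a (l 15614800) (l 15762616))))))) (a (b (a (l 2) (a (l 2) (b (c (l 16254176) (l 16190696)) (l 2)))) (l 2)) (b (a (a (b (c (l 16168256) (l 16051128)) (c (l 16206816) (l 16057016))) (b (c (l 15984208) (l 15930936)) (c (l 16023736) (l 15928128)))) (a (b (c (l 15835528) (l 15843832)) (c (l 15862360) (l 15824624))) (b (a (l 15757672) (l 15761168)) (a (l 15780888) (l 15764808))))) (a (a (l 2) (b (c (l 16061224) (l 15933608)) (l 2))) (a (b (a (l 15889064) (l 15822968)) (a (l 2) (l 15848616))) (b (l 15719344) (l 15801176))))))), by decide +kernel⟩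

def k1_pm_113 : ∃ t, chk3 f_pm_113 t 2 3 1 = true :=
  ⟨(a (l 2) (b (b (a (l 2) (a (l 2) (b (l 15837072) (l 2)))) (l 2)) (l 2))), by decide +kernel⟩

def k2_pm_113 : ∃ t, chk3 f_pm_113 t 3 2 1 = true :=
  ⟨(a (b (a (b (a (b (c (a (l 15651168) (l 15629368)) (a (l 15901976) (l 15898120))) (c (l 15644056) (l 15870216))) (c (b (l 15594040) (l 15595440)) (b (l 15888144) (l 15858632)))) (c (a (l 15532880) (l 15607112)) (a (l 15829768) (l 15818936)))) (c (b (a (b (l 15542616) (l 15542096)) (l 15483656)) (a (l 15551344) (l 15490424))) (b (a (l 15746640) (l 15818368)) (a (l 15798344) (l 15766760))))) (a (b (c (a (l 15695240) (l 15640048)) (a (l 15786416) (l 15776120))) (c (b (l 15706456) (l 15738584)) (a (l 15757992) (l 15747416)))) (b (c (a (l 15582040) (l 15520288)) (a (l 15756976) (l 15727760))) (c (a (l 15633816) (l 15573376)) (a (l 15730000) (l 15704320)))))) (a (b (c (b (a (l 15418096) (l 15343792)) (a (l 15423040) (l 15347800))) (b (a (l 15772672) (l 15712976)) (a (l 15723008) (l 15665768)))) (b (c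 (a (l 15453536) (l 15380432)) (a (l 15687384) (l 15634648))) (c (a (l 15510320) (l 15443288)) (a (l 15669248) (l 15623728))))) (b (a (b (c (l 15259024) (l 15636536)) (c (l 15263032) (l 15592432))) (b (c (l 15156472) (l 15533928)) (c (l 15161560) (l 15493768)))) (a (b (c (l 15299416) (l 15567216)) (c (l 15370752) (l 15565816))) (b (c (l 15203432) (l 15476168)) (a (l 15406224) (l 15258200))))))), by decide +kernel⟩

def k3_pm_113 : ∃ t, chk3 f_pm_113 t 3 3 1 = true :=
  ⟨(a (a (b (b (b (a (l 15783768) (l 15740712)) (a (l 15823456) (l 15768040))) (b (a (l 2) (l 15820120)) (l 2))) (l 2)) (b (b (a (b (l 15703000) (l 15724008)) (b (l 15662984) (l 15686968))) (a (b (l 15764008) (l 15851368)) (b (l 15721000) (l 15793616)))) (b (b (a (l 2) (l 15982008)) (l 2)) (l 2)))) (b (a (b (a (c (l 15594088) (l 15672032)) (b (l 15569816) (l 15604608))) (b (a (l 15687016) (l 15650232)) (a (l 15750840) (l 15720408)))) (b (a (b (l 15512992) (l 15553280)) (b (a (l 15459432) (l 15415944)) (l 15474568))) (a (b (l 15602632)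 (l 15675480)) (b (l 15526208) (l 15603368))))) (a (a (b (b (l 15910104) (l 16449328)) (l 2)) (b (b (l 15855264) (l 16273248)) (l 4))) (b (b (a (l 15801200) (l 15769168)) (l 4)) (l 4))))), by decide +kernel⟩

theorem s4_pm_113 : ∃ t, chk3 f_pm_113 t 3 1 1 = true := ex3_b k2_pm_113 k3_pm_113

theorem s5_pm_113 : ∃ t, chk3 f_pm_113 t 2 1 1 = true := ex3_b k0_pm_113 k1_pm_113

theorem s6_pm_113 : ∃ t, chk3 f_pm_113 t 1 1 1 = true := ex3_a s5_pm_113 s4_pm_113

theorem c_pm_113 : CertB 536870912 536870912 536870912 536870912 1020054732 13421774 3 eng mog cd0q1 cd2q1 pd3 true true false .nn 1 1 3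
    ndB0q1 ndB2q1 pcB3 Cut.none Ext.none :=
  certB1 (fam := true) (s1 := true) (s2 := false) (a := 1) (b := 1) (c := 3) (cn := .nn) (n1 := ndB0q1) (n2 := ndB2q1) (pc := pcB3) (cut := Cut.none) (xt := Ext.none) (P1 := 536870912) (W1 := 536870912) (P2 := 536870912) (W2 := 536870912) (P3 := 1020054732) (W3 := 13421774) (N0 := 3) (En := eng) (mo := mog) (C1 := cd0q1) (C2 := cd2q1) (C3 := pd3)
    rfl (fun _ => rfl) s6_pm_113

noncomputable def cut_pm_123_a : Cut := Cut.of [[⟨0, 1, 0, 26738688⟩, ⟨1, 1, 0, 26738688⟩, ⟨2, 2, 0, 2621440⟩], [⟨0, 0, 1, 46137344⟩, ⟨1, 1, 0, 2097152⟩, ⟨2, 1, 1, 46137344⟩, ⟨0, 0, 0, 1041207446⟩, ⟨0, 1, 0, 59055800⟩, ⟨2, 1, 0, 1041207446⟩, ⟨2, 2, 0, 59055800⟩]]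

noncomputable def xt_pm_123_a : Ext := extD3 3 ⟨4, 1, 1, 5, 99, 20, 33, 40, 51, 125, 1, 32⟩ eng cd0q1 cd2q2a pd3 true true false .npn 1 2 3 rfl ndB0q1 ndB2q2a pcB3

noncomputable def f_pm_123_a : ℕ → ℕ → ℕ → ℕ → Bool := onCell 1610612736 536870912 0 536870912 1020054732 13421774
    (rowB 3 eng mog cd0q1 cd2q2a pd3 2 true true false .npn 1 2 3 (qsf 536870912 536870912 0 536870912 3) ndB0q1 ndB2q2a pcB3 cut_pm_123_a xt_pm_123_a)

def k0_pm_123_a : ∃ t, chk3 f_pm_123_a t 2 1 1 = true :=
  ⟨(b (a (a (l 1) (b (l 1) (a (l 1) (l 16388424)))) (a (b (l 16428232) (a (l 16358216) (l 16334440))) (b (a (l 16410352) (l 16408096)) (a (l 16317608) (l 16308464))))) (a (b (a (l 1) (b (l 16181448) (a (l 16279336) (l 16234368)))) (a (b (a (l 1) (l 16199360)) (b (a (b (l 16222800) (l 16156584)) (b (l 16167400) (l 16104208))) (c (a (l 15961688) (l 15934088)) (a (l 16052144) (b (l 16091016) (l 16020768)))))) (a (b (l 16124800) (b (b (l 16113328) (l 16054240)) (c (l 15888792) (l 15935440)))) (b (l 16074776) (b (b (l 16061016)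 (l 16006560)) (c (l 15846440) (l 15900512))))))) (b (a (b (l 16172960) (a (l 16194144) (l 16159088))) (b (l 16063416) (a (l 16129904) (l 16107688)))) (b (a (a (b (l 16120560) (l 16061624)) (b (l 16080592) (l 16017552))) (a (l 15865624) (b (l 16017656) (l 15944824)))) (a (b (a (b (l 16011096) (l 15939832)) (b (l 15963784) (l 15894704))) (a (b (l 15885960) (l 15744184)) (b (l 15841840) (l 15699072)))) (b (a (b (l 15920256) (l 15872448)) (b (l 15882248) (l 15832960))) (a (b (l 15800576) (l 15593888)) (b (l 15763264) (a (l 15690696) (l 15672816)))))))))), by decide +kernel⟩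

def k1_pm_123_a : ∃ t, chk3 f_pm_123_a t 3 2 1 = true :=
  ⟨(a (a (b (a (l 16414384) (l 16430056)) (a (l 16308080) (l 16317936))) (b (a (b (l 16479688) (l 16432256)) (b (a (l 16494112) (l 16500344)) (l 16467992))) (a (l 16340032) (b (l 16411736) (l 16341120))))) (a (a (b (b (a (l 16512600) (l 16532216)) (a (l 16487800) (l 16500592))) (b (l 16461480) (l 16396368))) (b (a (l 16517104) (b (l 16576352) (l 16545880))) (b (a (l 16493824) (l 16516920)) (a (l 16449776) (l 16485320))))) (b (a (a (a (l 16514760) (l 178475362071)) (a (l 221425066087) (l 4))) (l 4)) (b (a (a (l 16544640) (a (l 16563072) (l 16533688))) (l 4)) (a (a (l 16500112) (a (l 16545184) (l 16559624))) (a (a (a (l 16569552) (l 16556768)) (l 4)) (l 4))))))), by decide +kernel⟩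

def k2_pm_123_a : ∃ t, chk3 f_pm_123_a t 6 3 1 = true :=
  ⟨(b (a (b (a (l 16196152) (l 16199640)) (a (l 16094072) (l 16091464))) (b (a (l 16216744) (l 16251576)) (a (l 16061528) (b (l 16168352) (l 16101776))))) (a (b (a (b (l 15997744) (l 15919464)) (b (l 15988960) (l 15905208))) (b (a (b (l 15851888) (l 15799904)) (a (l 15809136) (l 15802560))) (a (b (l 15731896) (a (l 15656584) (l 15642448))) (b (a (l 15714648) (l 15706944)) (a (l 15630992) (l 15623032)))))) (b (a (b (l 15995552) (l 15906920)) (b (l 16024144) (a (l 15923264) (l 15943824)))) (a (b (a (l 15800040) (l 15803240)) (b (a (l 15703336) (l 15705296)) (a (l 15619672) (c (l 15639576) (l 15606680))))) (b (a (l 15813648) (l 15833288)) (b (a (l 15735784) (b (l 15752808) (l 15716376))) (a (c (l 15656544) (l 15611640)) (c (l 15685440) (l 15627496))))))))), by decide +kernel⟩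

def k3_pm_123_a : ∃ t, chk3 f_pm_123_a t 7 6 1 = true :=
  ⟨(a (b (a (l 16267920) (l 16398480)) (a (b (l 16227992) (l 16162136)) (b (l 16325336) (l 16286440)))) (a (a (b (b (l 16493848) (l 16468744)) (b (l 16430664) (l 16424672))) (b (a (l 16520168) (l 16503352)) (b (a (l 16493336) (l 16534176)) (a (l 16457200) (l 16511936))))) (b (b (a (a (l 16566648) (a (l 16577616) (l 4))) (l 4)) (a (a (l 16564632) (a (l 16577144) (l 16585640))) (l 4))) (b (a (a (l 16538640) (a (l 16578192) (l 16589032))) (a (a (a (l 16594640) (l 16600312)) (a (l 16608584) (l 4))) (l 4))) (a (a (l 16504328) (a (l 16582264) (l 16593520))) (a (a (l 16605904) (a (l 16612544) (b (l 16617704) (l 16619856)))) (b (l 4) (l 4)))))))), by decide +kernel⟩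

def k4_pm_123_a : ∃ t, chk3 f_pm_123_a t 14 7 1 = true :=
  ⟨(b (a (b (l 16085192) (a (l 15974480) (l 16017888))) (b (a (l 16162104) (l 16233848)) (a (l 16077584) (l 16158216)))) (b (a (a (b (l 15894600) (l 15834616)) (b (l 15940640) (l 15883424))) (a (b (l 16006160) (l 15955032)) (b (l 16097656) (l 16058232)))) (a (b (a (b (l 15785960) (l 15751112)) (b (l 15837800) (l 15806000))) (a (b (l 15713648) (c (l 15713240) (l 15638104))) (c (b (l 15816488) (l 15787176)) (b (l 15730520) (l 15693984))))) (b (a (b (l 15916048) (a (l 15865824) (l 15917600))) (b (l 16032400) (c (l 16119704) (l 15960680)))) (a (b (c (l 15918792) (l 15813536)) (c (a (l 15868168) (l 15939608)) (l 15891088))) (b (c (a (l 16030048) (l 16148872)) (a (l 15906824) (l 15990240))) (c (a (c (l 16127504) (l 15995400)) (b (l 16139584) (l 575385501747467997897231))) (a (l 15892424) (c (l 16133544) (l 15951216)))))))))), by decide +kernel⟩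

def k5_pm_123_a : ∃ t, chk3 f_pm_123_a t 30 7 1 = true :=
  ⟨(b (a (a (b (l 16301160) (l 16235944)) (b (l 16353736) (l 16339752))) (b (a (l 16412984) (l 16478776)) (a (b (l 16379056) (l 16359688)) (b (l 16454800) (l 16444784))))) (b (a (a (b (l 16188544) (c (l 16216264) (l 16111576))) (b (l 16262456) (c (l 16307496) (l 16196328)))) (a (b (l 16432496) (c (l 16415392) (l 16298048))) (b (a (l 16421784) (l 16474736)) (c (l 16636264) (l 587738482430078956102159))))) (a (c (b (a (a (l 16194048) (l 16247960)) (b (l 16326880) (l 582897076112052420141583))) (b (b (a (l 138232146940526607) (l 139936733869326351)) (l 141070948846878735)) (b (a (l 138578355742457871) (l 140911725959102479)) (b (a (l 138956862662803471) (l 142768870198427663)) (a (a (l 138581860461936655) (c (b (l 140018510080901135) (l 140852489759326223)) (l 138940576180043791))) (a (a (c (c (l 141878265665175567) (l 140739171362439183)) (l 139839358375034895)) (l 14)) (l 14))))))) (b (a (b (l 16095136) (l 16091208)) (a (l 16170296) (l 16229896)))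 (b (a (a (l 16067648) (l 16128056)) (b (l 137963247589834767) (l 138156280639963151))) (a (a (l 570212630413922567905807) (l 138516370730450959)) (b (l 138427241591635983) (a (c (l 138825677193756687) (l 137619787604426767)) (b (l 139304377155289103) (l 14)))))))) (b (a (c (b (l 16461624) (l 591986134591253624217615)) (b (l 16318192) (l 583114978155957860360719))) (c (a (l 598094602054404110557199) (l 598408773903212731457551)) (b (l 590123012848821355504143) (l 593395581278451123937295)))) (b (a (b (c (l 594466069523987019522063) (l 585822326547542930612751)) (l 142067312869883919)) (a (c (l 598205283373029644984335) (l 595332201730861791076367)) (b (l 598545683357311012020239) (c (l 600020846736984543469647) (l 600241919269535341895695))))) (b (c (a (l 143393392902619151) (a (l 143469671540178959) (l 600743728548479306342479))) (a (l 141438735795798031) (a (l 600447427555631621644303) (l 600525538035603661971471)))) (b (b (a (c (l 143388307663699983) (l 141726601726885903)) (c (l 143508085736374351)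 (l 599720798848615268589583))) (l 14)) (l 14)))))))), by decide +kernel⟩

def k6_pm_123_a : ∃ t, chk3 f_pm_123_a t 31 14 1 = true :=
  ⟨(b (a (a (a (l 16531984) (l 16568808)) (b (l 16599288) (l 16613848))) (a (a (b (l 16613344) (l 16622856)) (a (l 16605584) (b (l 16627040) (l 16635528)))) (a (a (b (l 16632992) (l 16640976)) (b (l 4) (a (l 16644816) (l 16651568)))) (l 4)))) (a (a (a (l 16514656) (l 16560904)) (b (l 16628192) (l 16641632))) (a (b (a (l 16638896) (a (l 16643088) (l 16646904))) (a (l 16656920) (l 16662520))) (a (a (b (l 16652536) (l 16608440)) (b (a (l 16655456) (l 16657840)) (a (l 16669400) (l 16671592)))) (a (a (b (a (l 16661384) (l 16666096)) (a (l 16672960) (l 16674248))) (b (l 4) (a (b (l 16674376) (l 16679088)) (b (l 4) (l 16683328))))) (l 4)))))), by decide +kernel⟩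

def k7_pm_123_a : ∃ t, chk3 f_pm_123_a t 31 30 1 = true :=
  ⟨(a (a (a (b (l 16530824) (c (l 16649416) (l 16524176))) (b (l 16589640) (l 16664320))) (b (l 16668320) (c (l 16701688) (l 16680936)))) (a (b (a (l 16677776) (l 16683376)) (a (l 16659608) (b (l 16700952) (l 16713376)))) (a (b (a (l 16687192) (b (l 16640528) (l 16693736))) (b (l 16662424) (l 143036670125441231))) (a (b (a (b (l 16686144) (l 16673912)) (a (l 16671544) (b (l 16688856) (l 16697864)))) (b (a (l 16706112) (a (l 16706536) (l 16686944))) (l 16719128))) (b (a (a (b (c (l 24510970992829794713667453007) (l 24762427563309604871473987599)) (l 16678520)) (a (b (l 4) (l 16702560)) (l 4))) (l 4)) (b (a (a (l 16688392) (a (l 16710000) (b (l 16709680) (l 16713456)))) (b (l 4) (a (a (l 1735401484887) (l 4)) (l 4)))) (b (a (a (l 16717736) (l 16719016)) (a (a (l 16699864) (l 4)) (l 4))) (l 6)))))))), by decide +kernel⟩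

def k8_pm_123_a : ∃ t, chk3 f_pm_123_a t 124 62 1 = true :=
  ⟨(c (a (a (l 599576106942157773938703) (l 16707216)) (l 16691912)) (a (b (l 16606120) (l 597353274203004266799119)) (l 16674856))), by decide +kernel⟩

def k9_pm_123_a : ∃ t, chk3 f_pm_123_a t 248 126 1 = true :=
  ⟨(a (b (l 600198108127909320794127) (c (l 601634648637796998702159) (l 601081246156087778582543))) (c (l 599700910926409984812623) (l 599693416782011189944335))), by decide +kernel⟩

def k10_pm_123_a : ∃ t, chk3 f_pm_123_a t 248 254 1 = true :=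
  ⟨(a (c (l 600517179513643439842511) (l 601061070117992981012559)) (c (l 599741263258579668133071) (l 599618477002959021367375))), by decide +kernel⟩

def k11_pm_123_a : ∃ t, chk3 f_pm_123_a t 248 510 1 = true :=
  ⟨(a (c (a (l 143576118032646351) (l 143612882956550351)) (a (l 143496265990389839) (l 143532618597875791))) (c (l 143502931800424655) (l 143424729027330255))), by decide +kernel⟩

def k12_pm_123_a : ∃ t, chk3 f_pm_123_a t 496 1022 1 = true :=
  ⟨(c (c (l 143541071104262351) (l 143508979105595599)) (c (l 143477849179603151) (l 143357590092234959))), by decide +kernel⟩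

def k13_pm_123_a : ∃ t, chk3 f_pm_123_a t 992 1023 1 = true :=
  ⟨(a (l 14) (a (l 14) (a (l 14) (a (l 14) (a (l 14) (c (b (c (l 143630818740781263) (l 143603330947956943)) (b (c (l 143635697823727823) (l 143610340335190223)) (c (b (l 143638171724923087) (c (c (l 143648960683262159) (l 143642844649537743)) (c (l 143636797335273679) (l 143630818740502735)))) (c (b (l 143619823623618767) (c (l 143624908865192143) (c (l 143620579537944783) (l 143617624600281295)))) (c (c (l 143613570150908111) (l 143610683932721359)) (c (l 143607797714534607) (l 143604911496347855))))))) (b (c (l 143576805227806927) (l 143551310299791567)) (b (c (l 143586013638787279) (l 143562855173505231)) (c (c (c (c (l 143602025278177487) (l 143599207779467471)) (c (l 143596390280757455) (l 143593572782047439))) (b (l 143585051566325967) (b (l 143587525467799759) (c (c (l 143593160465301711) (l 143590480405577935)) (c (l 143587800345837775) (l 143585189005574351)))))) (b (c (l 143573987729883343) (l 143563267490824399)) (c (c (c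 (c (l 143582302787322063) (l 143580997117182159)) (c (l 143579622727581903) (l 143578317057441999))) (c (c (l 143577011387318479) (l 143575705717178575)) (c (l 143574400047038671) (l 143573094376915151)))) (b (l 143566359867703503) (c (c (c (l 143572819499073743) (l 143571513828933839)) (c (l 143570276878287055) (l 143568971208147151))) (b (l 143565329075617999) (b (l 143566084989976783) (c (c (l 143568490171842767) (l 143567253221195983)) (c (l 143566016270549199) (l 143564779319886031)))))))))))))))))), by decide +kernel⟩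

def k14_pm_123_a : ∃ t, chk3 f_pm_123_a t 993 1023 2 = true :=
  ⟨(b (c (l 143655145437757647) (l 143627795084083407)) (a (b (c (l 143648823244914895) (l 143623465756475599)) (c (b (c (l 143655076717674703) (l 143642844650176719)) (a (a (c (b (l 143649991475593423) (b (l 143648136049721551) (a (c (l 143652190498848975) (l 143646143184617679)) (c (l 143654389522366671) (l 143648410927612111))))) (b (l 143637828127604943) (a (c (a (l 143639065078153423) (l 143639477395161295)) (c (l 143635491665215695) (l 143632536727584975))) (b (l 143639683553640655) (c (l 143642432332873935) (l 143636522457596111)))))) (c (c (l 143656725984985295) (l 143650678670753999)) (c (l 143644700075983055) (l 143638790200705231)))) (c (c (l 143659474764841167) (l 143653702328533199)) (c (l 143647929892208847) (b (l 143642638492205263) (l 143641882578010319)))))) (b (c (l 143630818741108943) (l 143619136429424847)) (c (a (b (l 143628001242104015) (a (a (c (c (l 143629581789937871) (l 143626695571767503)) (c (l 143623809353597135)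 (l 143620923135443151))) (b (l 143627932522545359) (c (l 143630750021271759) (l 143623534475854031)))) (c (l 143632674167029967) (c (l 143628413559259343) (l 143625596060582095))))) (c (a (l 143635422946623695) (l 143637828128882895)) (c (l 143632468009205967) (l 143629719230005455)))) (a (b (l 143616387649929423) (c (a (a (c (l 143618036917272783) (l 143615219418579151)) (c (l 143620648257683663) (l 143617830758990031))) (c (l 143622778561888463) (l 143620029782687951))) (a (a (c (l 143612401919885519) (l 143609584421208271)) (c (l 143615013260296399) (l 143612195761619151))) (c (l 143617212284010703) (l 143614463504793807))))) (c (c (l 143626970450804943) (l 143624221671604431)) (c (l 143621541611864271) (l 143618792832663759)))))))) (b (c (l 143661742508703951) (l 143637965568393423)) (c (c (a (c (l 143664422568247503) (l 143658718851399887)) (c (l 143668133421056207) (l 143662773301608655))) (c (a (l 143653083853701327) (l 143657413182177487)) (c (l 143651228428533967) (l 143648548368810191))))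 (c (c (c (l 143645868309086415) (l 143643188249362639)) (c (l 143640508188967119) (l 143637896848720079))) (b (l 143631574657089743) (c (c (l 143635010631352527) (l 143632468010598607)) (c (l 143629994108633295) (l 143627451487879375))))))))), by decide +kernel⟩

def k15_pm_123_a : ∃ t, chk3 f_pm_123_a t 993 2046 3 = true :=
  ⟨(c (l 143601475522543823) (l 143576186753138895)), by decide +kernel⟩

def k16_pm_123_a : ∃ t, chk3 f_pm_123_a t 993 4094 3 = true :=
  ⟨(c (c (l 143612676798709967) (l 143601200645357775)) (c (l 143589999369928911) (l 143579072972406991))), by decide +kernel⟩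

def k17_pm_123_a : ∃ t, chk3 f_pm_123_a t 1986 4095 6 = true :=
  ⟨(b (c (l 143607660276154575) (l 143596527720284367)) (c (a (b (l 143605117655154895) (c (a (a (c (l 143606766922514639) (l 143604018143297743)) (c (l 143609446982402255) (l 143605255094190287))) (c (l 143611714725593295) (l 143609034665853135))) (a (b (l 143600994486223055) (c (a (l 143601612961513679) (l 143604086862987471)) (a (l 143598864182296783) (l 143601338083770575)))) (c (l 143606354606129359) (l 143603674546405583))))) (c (c (l 143616181492416719) (l 143613501432692943)) (c (l 143610821372952783) (l 143608210032705743)))) (b (c (l 143600444730917071) (l 143595153330913487)) (c (a (b (l 143597489792925903) (c (a (a (l 143596184122573007) (l 143598658024046799)) (l 143601063206191311)) (a (a (l 143593504062832847) (l 143595977964306639)) (l 143598451865944271)))) (c (l 143605736131510479) (l 143603193510396111))) (b (a (l 143592198392938703) (l 143599276500320463)) (a (c (a (a (l 143590824003092687) (l 143593297904582863))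 (l 143595840525697231)) (a (a (l 143588212662845647) (l 143590686564319439)) (l 143593229185450191))) (c (l 143600788328644815) (a (l 143596596440449231) (l 143599963695448271))))))))), by decide +kernel⟩

def k18_pm_123_a : ∃ t, chk3 f_pm_123_a t 1986 4095 7 = true :=
  ⟨(b (c (l 143585601322844367) (l 143575018522771663)) (a (a (a (c (c (c (c (l 143584914127683791) (l 143583608457543887)) (c (l 143582234067943631) (l 143580928397803727))) (c (c (l 143579622727680207) (l 143578317057540303)) (c (l 143577011387416783) (l 143575705717276879)))) (c (c (c (l 143574400047136975) (l 143573094377013455)) (c (l 143571857426350287) (l 143569864561459407))) (b (l 143566359867801807) (b (l 143567940415996111) (c (c (l 143570826634281167) (l 143569520964141263)) (c (l 143568284013494479) (l 143567047062929615))))))) (c (b (l 143582715104362703) (c (b (l 143586357236957391) (c (l 143588075224072399) (a (l 143585051566866639) (l 143585944920228047)))) (c (c (l 143583264860389583) (l 143581959190266063)) (c (l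 143580722239619279) (l 143579416569479375))))) (b (l 143572201023815887) (c (b (l 143575980595396815) (c (c (l 143578454496805071) (l 143577148826681551)) (c (l 143575911876034767) (l 143574674925387983)))) (b (l 143570895353839823) (c (c (l 143573369255248079) (l 143572132304601295)) (c (l 143570895353954511) (a (l 143569177366872271) (l 143570139439726799))))))))) (c (c (c (c (l 143590892722962639) (l 143589587052839119)) (c (l 143588281382699215) (l 143586975712575695))) (c (c (l 143585670042452175) (l 143584364372312271)) (c (l 143583127421665487) (l 143581821751541967)))) (b (l 143575636998160591) (c (c (c (l 143580997117886671) (l 143579691447746767)) (c (l 143578454497099983) (l 143577217546453199))) (c (a (c (l 143575018522951887) (l 143573781572305103)) (c (l 143576942668644559) (l 143575705717997775))) (c (c (l 143573850291896527) (l 143573231816573135)) (c (l 143572613341249743) (l 143571994866008271)))))))) (c (c (c (c (l 143596046684684495) (l 143594741014560975)) (c (l 143593504063914191)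 (l 143592267113103567))) (b (l 143588762419658959) (b (l 143589312175669455) (c (c (l 143591511199137999) (l 143590274248491215)) (c (l 143589106017337551) (l 143587869066510543)))))) (b (l 143581271996268751) (c (c (a (c (l 143584639250809039) (l 143583402300162255)) (c (l 143588281383747791) (l 143587113152577743))) (a (c (l 143582165349515471) (l 143580997118345423)) (c (l 143585876201930959) (l 143584707970777295)))) (b (l 143579622728909007) (c (a (c (l 143580035045605583) (a (l 143577836022186191) (l 143579760167878863))) (c (l 143583814617579727) (l 143582646386245839))) (c (c (a (l 143577904741793999) (l 143581753033179343)) (a (l 143577354985947343) (l 143581203277332687))) (c (a (l 143576736510623951) (l 143580584802009295)) (a (l 143576118035300559) (l 143580035046162639))))))))))), by decide +kernel⟩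

def k19_pm_123_a : ∃ t, chk3 f_pm_123_a t 1987 4095 3 = true :=
  ⟨(c (c (b (l 143621060576592079) (b (l 143621266735268047) (c (c (l 143624977586667727) (l 143622572404867279)) (c (l 143620167223066831) (b (l 143617693322428623) (l 143617830760759503)))))) (b (l 143610821374001359) (a (b (l 143608141314064591) (c (c (l 143612195763585231) (l 143609721862308047)) (c (l 143607316680491215) (l 143604911498690767)))) (c (c (l 143618449237131471) (l 143616112774824143)) (c (l 143613776312500431) (l 143611508569653455)))))) (c (b (l 143600857049317583) (b (l 143601887841829071) (c (a (c (l 143602575035859151) (a (l 143598451867304143) (l 143601956561289423))) (c (l 143609515704828111) (l 143607247961981135))) (c (a (c (l 143598451867549903) (l 143597283636396239)) (l 143605048938627279)) (a (c (l 143596115405226191) (l 143594947174056143)) (l 143602849914585295)))))) (b (l 143591098883047631) (b (l 143592610711978191) (c (b (l 143595565649805519) (b (l 143595909247303887) (c (a (c (l 143594122540384463)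 (l 143593023028691151)) (l 143600994488713423)) (a (c (l 143591854797537487) (l 143590755285516495)) (c (l 143599345221861583) (l 143598314429661391)))))) (b (l 143591098883588303) (b (l 143591511199891663) (c (a (c (l 143589587054346447) (a (l 143586563397304527) (l 143590411688689871))) (c (l 143597214917984463) (l 143596184125767887))) (a (c (a (l 143585463885627599) (l 143589312177012943)) (a (l 143584295654129871) (l 143588212665336015))) (c (l 143595084614090959) (l 143594053821890767))))))))))), by decide +kernel⟩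

def k20_pm_123_a : ∃ t, chk3 f_pm_123_a t 497 511 1 = true :=
  ⟨(c (b (c (l 143697751519625423) (l 143669370373374159)) (b (c (l 143688062073667791) (l 143666415437086927)) (c (b (l 143682701954662607) (a (a (b (l 143667308788596943) (c (c (l 143672668908126415) (l 143667858544558287)) (c (l 143663116899795151) (l 143658443975180495)))) (c (c (l 143681396283850959) (l 143677066956636367)) (c (l 143672737629421775) (l 143668477021700303)))) (c (c (l 143693009877401807) (l 143689505183973583)) (c (l 143686000490528975) (l 143682633236054223))))) (b (l 143653358737146063) (a (a (b (l 143641951300731087) (c (b (l 143651709466788047) (c (l 143653496172691663) (l 143649029406507215))) (a (c (l 143641951300239567) (l 143637278375608527)) (c (l 143647380140097743) (l 143643050812883151))))) (c (c (l 143664216413962447) (l 143660024525701327)) (c (l 143655901356916943) (l 143651778188132559)))) (c (c (l 143679197262102735) (l 143675830007627983)) (c (l 143672531471958223) (l 143669232936960207)))))))) (b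 (c (l 143641745141350607) (l 143614944543031503)) (b (c (l 143645524714733775) (l 143625321187147983)) (c (c (b (l 143651434591092943) (b (l 143651846908461263) (c (a (a (a (l 143632742889259215) (l 143638790205128911)) (l 143647792458465487)) (l 143666071841751247)) (a (a (c (l 143632468012499151) (l 143630268989145295)) (l 143643944167620815)) (l 143662979465199823))))) (b (l 143642913375502543) (b (l 143644150326706383) (b (a (l 143631368501739727) (l 143658169102926031)) (a (c (a (c (l 143628276124319951) (l 143626145820459215)) (l 143640302035288271)) (a (c (l 143624084236058831) (l 143622022651658447)) (l 143636659901546703))) (c (l 143660093247176911) (l 143657207028728015))))))) (c (b (l 143634529598865615) (a (b (l 143622228810580175) (b (l 143623328322584783) (c (a (c (l 143619892347125967) (l 143617899482202319)) (c (l 143633911123706063) (l 143632055697768655))) (a (c (l 143615837897801935) (b (l 143613570155593935) (l 143613982471569615))) (c (l 143630268991291599) (l 143628482284830927))))))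 (a (c (l 143646143192858831) (l 143642844657844431)) (c (l 143660368127246543) (l 143657550628618447))))) (b (l 143626283261198543) (b (l 143618036923515087) (a (a (a (b (l 143604018147180751) (c (c (l 143608072596734159) (l 143606011012333775)) (c (l 143603949427933391) (b (l 143601681685037263) (l 143602231440326863))))) (c (c (l 143615081984590031) (l 143613089119682767)) (c (l 143611096254759119) (l 143609172109312207)))) (c (c (l 143626283261362383) (l 143624496554885327)) (c (l 143622709848424655) (l 143620923141947599)))) (a (c (l 143640508195782863) (l 143637415819215055)) (c (l 143655695202926799) (l 143653015143268559))))))))))), by decide +kernel⟩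

def k21_pm_123_a : ∃ t, chk3 f_pm_123_a t 249 63 1 = true :=
  ⟨(b (b (l 597250664367352637562895) (c (b (l 16731288) (l 598596700551498183238863)) (a (l 600273336620366884036687) (l 143662292256604239)))) (c (b (l 143588281401147599) (b (l 143574125192069327) (a (b (l 143721940783546575) (c (c (a (c (l 143714656515670223) (l 143711495419592911)) (l 143728950174040271)) (a (c (l 143708334323515599) (l 143705173227421903)) (l 143724964444242127))) (b (l 143709227680891087) (b (l 143707784572567759) (a (b (l 143696170978853071) (c (l 143697820243853519) (l 143693628355739855))) (c (l 143718848411254991) (l 143716580668604623))))))) (b (l 143759736505401551) (a (c (c (l 143744824377819343) (l 143743175110377679)) (c (l 143741525842952399) (l 143739739136557263))) (b (l 143763378641125583) (c (l 143758018522333391) (l 143761317057806543)))))))) (b (b (l 143658306531541199) (l 143502107167588559)) (b (l 143519287043489999) (c (b (l 143719398165758159) (a (b (l 143696995613278415) (c (a (a (l 143682701959774415)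 (l 143695140187652303)) (l 143713900608733391)) (a (c (l 143685244581593295) (l 143682839399841999)) (l 143711014390726863)))) (a (c (l 143737952430178511) (l 143736028284829903)) (c (l 143762554008142031) (l 143762760166736079))))) (b (l 143704898354856143) (a (b (l 143684900984619215) (b (l 143645043684360399) (c (a (a (l 143673424830529743) (l 143687924642889935)) (l 143709708721176783)) (a (c (l 143677548000477391) (l 143675486416142543)) (l 143707372259066063))))) (a (b (l 143729706091937999) (c (l 143737059077996751) (l 143736165724963023))) (c (l 143762828886376655) (l 143762760161706191)))))))))), by decide +kernel⟩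

def k22_pm_123_a : ∃ t, chk3 f_pm_123_a t 125 31 1 = true :=
  ⟨(b (c (b (l 16717912) (a (l 16725360) (l 16732688))) (b (l 16702408) (a (l 16691496) (l 16721848)))) (b (b (a (c (l 16734416) (l 16724432)) (l 143722627984818383)) (a (b (l 143465342257217743) (l 143464311471784143)) (c (l 599321600114095781258959) (l 143692185267011791)))) (c (b (a (l 143850995979157711) (b (l 600131815868996335281743) (l 601202303473448131159631))) (b (a (l 143826188252037327) (b (l 601781934753154716755535) (a (l 602170181040968888886863) (l 143927686943637583)))) (c (b (a (l 143812856675663951) (a (l 602757018076986889807439) (l 143920883716030543))) (a (a (a (l 143777534858330319) (l 143793752659640527)) (a (l 143809420705120463) (b (l 602992214025100175943247) (a (b (l 602992502247642306471503) (l 603041501408976757581391)) (b (l 603126241150560479241807) (l 603150740731433863341647)))))) (a (b (l 603183599031561120065103) (l 603195416477189499135567)) (l 143920746277797967)))) (b (a (l 143817186002665679) (l 143730324603666511))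 (a (a (a (l 143783169855996111) (l 143803854423572687)) (a (l 143823989235302607) (l 143844192766459983))) (a (a (l 143869893855641679) (l 143899649393770575)) (l 143941705720184911))))))) (b (b (a (l 143780627222462671) (l 143888104507129935)) (l 143672050424758351)) (c (b (l 143688817983832143) (a (b (l 143820415818055887) (b (l 143734997489385679) (a (c (l 143799731253690575) (l 143804060581232847)) (a (l 143838489046761679) (l 143862678307799119))))) (a (a (a (l 143877865313878095) (l 143891884089671759)) (l 143914355362299983)) (a (l 143943286266740815) (l 143970567903494223))))) (b (l 143596459006263375) (a (b (l 143822546121818319) (b (l 143743037668950223) (a (b (l 143808321189052623) (c (l 143809489420894415) (l 143791278760149199))) (a (l 143852301662994639) (l 143880064337051855))))) (a (b (l 143907964447932495) (c (l 143872505201082447) (l 143880957697589327))) (a (l 143914217929637967) (l 143986785701724239)))))))))), by decide +kernel⟩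

def k23_pm_123_a : ∃ t, chk3 f_pm_123_a t 63 31 1 = true :=
  ⟨(b (a (b (a (l 143357452649889871) (l 16706200)) (a (c (l 16719128) (l 16709192)) (c (l 16726296) (l 16716376)))) (a (b (a (l 16710392) (l 16711456)) (c (b (l 16727696) (l 143868038432489551)) (l 143595703119069263))) (a (b (l 16712648) (l 143628757157281871)) (l 6)))) (c (a (b (b (a (l 16749968) (l 16757312)) (a (l 600156027110848083404367) (l 16763864))) (b (b (a (l 601560573741325806839375) (l 16757896)) (a (l 144004446609309775) (l 143911194294190159))) (a (b (l 143825088776929359) (a (b (l 143981494303359055) (c (l 143972492051808335) (l 143991939665723471))) (c (l 143975034679672911) (l 143989740649119823)))) (b (l 143907689601957967) (a (c (l 144015510458105935) (l 144027261489774671)) (c (l 144054474407133263) (l 144057704223424591))))))) (a (b (b (l 143896213430730831) (l 143921502166941775)) (b (b (l 143938956922208335) (l 143947546861322319)) (b (l 143946928409313359) (b (l 144033721108922447) (a (a (l 144092751159640143) (l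 144099485669851215)) (a (l 144100585182085199) (l 144112267493769295))))))) (a (b (l 143898618575437903) (b (l 143932497293197391) (b (l 143937788719038543) (b (l 144031041072283727) (b (l 144077289280880719) (a (l 144112198775160911) (a (l 144111717739446351) (l 144116734261657679)))))))) (l 6)))) (a (a (a (b (l 143748260365598799) (b (l 143791072624279631) (b (l 143997574659915855) (b (l 144010425205702735) (c (l 144010219048583247) (l 143982318943109199)))))) (b (l 143784406818504783) (b (l 143838489071583311) (b (l 144040867937812559) (c (l 144003415826432079) (l 144015922772656207)))))) (b (b (l 16750744) (l 16759560)) (b (l 143897038033158223) (b (l 143913736915484751) (a (c (l 144038119168278607) (l 144048014768750671)) (c (l 144088284386099279) (l 144084367376826447))))))) (a (b (l 143686000502931535) (b (b (l 143916554409836623) (l 143933528084414543)) (b (l 143942873958727759) (b (l 144038119155630159) (a (a (l 144107732007469135) (l 144111511577133135)) (b (l 144039424848642127) (a (l 144121338465484879)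 (l 144119139442540623)))))))) (a (b (l 143845567127076943) (b (l 143908170592845903) (b (l 143926106405535823) (b (l 144027261478715471) (b (l 144077564158689359) (a (a (l 144117215297486927) (l 144115772188688463)) (c (l 144112954690437199) (l 144113710602141775)))))))) (l 6)))))), by decide +kernel⟩

theorem s24_pm_123_a : ∃ t, chk3 f_pm_123_a t 1986 4095 3 = true := ex3_c k17_pm_123_a k18_pm_123_a

theorem s25_pm_123_a : ∃ t, chk3 f_pm_123_a t 993 4095 3 = true := ex3_a s24_pm_123_a k19_pm_123_a

theorem s26_pm_123_a : ∃ t, chk3 f_pm_123_a t 993 2047 3 = true := ex3_b k16_pm_123_a s25_pm_123_a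

theorem s27_pm_123_a : ∃ t, chk3 f_pm_123_a t 993 1023 3 = true := ex3_b k15_pm_123_a s26_pm_123_a

theorem s28_pm_123_a : ∃ t, chk3 f_pm_123_a t 993 1023 1 = true := ex3_c k14_pm_123_a s27_pm_123_a

theorem s29_pm_123_a : ∃ t, chk3 f_pm_123_a t 496 1023 1 = true := ex3_a k13_pm_123_a s28_pm_123_a

theorem s30_pm_123_a : ∃ t, chk3 f_pm_123_a t 496 511 1 = true := ex3_b k12_pm_123_a s29_pm_123_a

theorem s31_pm_123_a : ∃ t, chk3 f_pm_123_a t 248 511 1 = true := ex3_a s30_pm_123_a k20_pm_123_a

theorem s32_pm_123_a : ∃ t, chk3 f_pm_123_a t 248 255 1 = true := ex3_b k11_pm_123_a s31_pm_123_a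

theorem s33_pm_123_a : ∃ t, chk3 f_pm_123_a t 248 127 1 = true := ex3_b k10_pm_123_a s32_pm_123_a

theorem s34_pm_123_a : ∃ t, chk3 f_pm_123_a t 248 63 1 = true := ex3_b k9_pm_123_a s33_pm_123_a

theorem s35_pm_123_a : ∃ t, chk3 f_pm_123_a t 124 63 1 = true := ex3_a s34_pm_123_a k21_pm_123_a

theorem s36_pm_123_a : ∃ t, chk3 f_pm_123_a t 124 31 1 = true := ex3_b k8_pm_123_a s35_pm_123_a

theorem s37_pm_123_a : ∃ t, chk3 f_pm_123_a t 62 31 1 = true := ex3_a s36_pm_123_a k22_pm_123_a

theorem s38_pm_123_a : ∃ t, chk3 f_pm_123_a t 31 31 1 = true := ex3_a s37_pm_123_a k23_pm_123_a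

theorem s39_pm_123_a : ∃ t, chk3 f_pm_123_a t 31 15 1 = true := ex3_b k7_pm_123_a s38_pm_123_a

theorem s40_pm_123_a : ∃ t, chk3 f_pm_123_a t 31 7 1 = true := ex3_b k6_pm_123_a s39_pm_123_a

theorem s41_pm_123_a : ∃ t, chk3 f_pm_123_a t 15 7 1 = true := ex3_a k5_pm_123_a s40_pm_123_a

theorem s42_pm_123_a : ∃ t, chk3 f_pm_123_a t 7 7 1 = true := ex3_a k4_pm_123_a s41_pm_123_a

theorem s43_pm_123_a : ∃ t, chk3 f_pm_123_a t 7 3 1 = true := ex3_b k3_pm_123_a s42_pm_123_a

theorem s44_pm_123_a : ∃ t, chk3 f_pm_123_a t 3 3 1 = true := ex3_a k2_pm_123_a s43_pm_123_a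

theorem s45_pm_123_a : ∃ t, chk3 f_pm_123_a t 3 1 1 = true := ex3_b k1_pm_123_a s44_pm_123_a

theorem s46_pm_123_a : ∃ t, chk3 f_pm_123_a t 1 1 1 = true := ex3_a k0_pm_123_a s45_pm_123_a

theorem c_pm_123_a : CertB 536870912 536870912 0 536870912 1020054732 13421774 3 eng mog cd0q1 cd2q2a pd3 true true false .npn 1 2 3
    ndB0q1 ndB2q2a pcB3 cut_pm_123_a xt_pm_123_a :=
  certB2 (fam := true) (s1 := true) (s2 := false) (a := 1) (b := 2) (c := 3) (cn := .npn) (n1 := ndB0q1) (n2 := ndB2q2a) (pc := pcB3) (cut := cut_pm_123_a) (xt := xt_pm_123_a) (P1 := 536870912) (W1 := 536870912) (P2 := 0) (W2 := 536870912) (P3 := 1020054732) (W3 := 13421774) (N0 := 3) (En := eng) (mo := mog) (C1 := cd0q1) (C2 := cd2q2a) (C3 := pd3)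
    rfl (fun _ => rfl) s46_pm_123_a

noncomputable def cut_pm_123_b : Cut := Cut.of [[⟨0, 1, 0, 26738688⟩, ⟨1, 1, 0, 26738688⟩, ⟨2, 2, 0, 2621440⟩], [⟨0, 0, 1, 46137344⟩, ⟨1, 1, 0, 2097152⟩, ⟨2, 1, 1, 46137344⟩, ⟨0, 0, 0, 1041207446⟩, ⟨0, 1, 0, 59055800⟩, ⟨2, 1, 0, 1041207446⟩, ⟨2, 2, 0, 59055800⟩]]

noncomputable def f_pm_123_b : ℕ → ℕ → ℕ → ℕ → Bool := onCell 1610612736 536870912 1239849684 370763052 1020054732 13421774
    (rowB 3 eng mog cd0q1 cd2q2b pd3 2 true true false .npn 1 2 3 (qsf 536870912 536870912 1239849684 370763052 3) ndB0q1 ndB2q2b pcB3 cut_pm_123_b Ext.none)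

def k0_pm_123_b : ∃ t, chk3 f_pm_123_b t 1 1 1 = true :=
  ⟨(a (b (a (l 1) (b (a (b (a (l 16435440) (l 16453968)) (l 1)) (b (a (l 16466624) (l 16470632)) (a (l 16423008) (l 16435336)))) (a (l 1) (b (a (l 1) (l 16383976)) (l 1))))) (l 1)) (b (a (a (b (b (a (l 16479440) (l 16461592)) (a (l 16442256) (l 16444184))) (b (a (l 16393832) (l 16402512)) (a (l 1) (l 16360184)))) (b (a (b (b (l 16492304) (l 16475248)) (l 16388640)) (b (b (a (l 16496296) (l 16507824)) (l 16490296)) (l 16474344))) (a (b (l 16422352) (l 16389328)) (b (l 16449080) (l 16419248))))) (b (a (a (b (a (l 16498736) (l 16516824)) (l 16420224)) (b (a (l 16493648) (b (l 16561504) (l 16562800))) (a (l 16524000) (l 4)))) (l 4)) (a (a (b (l 16475392) (l 16441488)) (l 4)) (l 4)))) (a (b (a (l 1) (a (b (l 16348272) (l 1)) (b (l 16381008) (l 16331672)))) (l 1)) (a (b (a (b (l 4) (l 4)) (l 4)) (l 4)) (l 4))))), by decide +kernel⟩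

theorem c_pm_123_b : CertB 536870912 536870912 1239849684 370763052 1020054732 13421774 3 eng mog cd0q1 cd2q2b pd3 true true false .npn 1 2 3
    ndB0q1 ndB2q2b pcB3 cut_pm_123_b Ext.none :=
  certB2 (fam := true) (s1 := true) (s2 := false) (a := 1) (b := 2) (c := 3) (cn := .npn) (n1 := ndB0q1) (n2 := ndB2q2b) (pc := pcB3) (cut := cut_pm_123_b) (xt := Ext.none) (P1 := 536870912) (W1 := 536870912) (P2 := 1239849684) (W2 := 370763052) (P3 := 1020054732) (W3 := 13421774) (N0 := 3) (En := eng) (mo := mog) (C1 := cd0q1) (C2 := cd2q2b) (C3 := pd3)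
    rfl (fun _ => rfl) k0_pm_123_b

noncomputable def f_pm_133 : ℕ → ℕ → ℕ → ℕ → Bool := onCell 536870912 536870912 1610612736 536870912 1020054732 13421774
    (rowB 3 eng mog cd0q1 cd2q3 pd3 0 true true false .dn 1 3 3 (qsf 536870912 536870912 1610612736 536870912 3) ndB0q1 ndB2q3 pcB3 Cut.none Ext.none)

def k0_pm_133 : ∃ t, chk3 f_pm_133 t 1 1 1 = true :=
  ⟨(l 4), by decide +kernel⟩

theorem c_pm_133 : CertB 536870912 536870912 1610612736 536870912 1020054732 13421774 3 eng mog cd0q1 cd2q3 pd3 true true false .dn 1 3 3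
    ndB0q1 ndB2q3 pcB3 Cut.none Ext.none :=
  certB0 (fam := true) (s1 := true) (s2 := false) (a := 1) (b := 3) (c := 3) (cn := .dn) (n1 := ndB0q1) (n2 := ndB2q3) (pc := pcB3) (cut := Cut.none) (xt := Ext.none) (P1 := 536870912) (W1 := 536870912) (P2 := 1610612736) (W2 := 536870912) (P3 := 1020054732) (W3 := 13421774) (N0 := 3) (En := eng) (mo := mog) (C1 := cd0q1) (C2 := cd2q3) (C3 := pd3)
    rfl k0_pm_133

noncomputable def cut_pm_202 : Cut := Cut.of [[⟨0, 1, 0, 33554432⟩, ⟨1, 0, 0, 33554432⟩, ⟨2, 1, 0, 33554432⟩]]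

noncomputable def f_pm_202 : ℕ → ℕ → ℕ → ℕ → Bool := onCell 0 536870912 1073741824 536870912 1020054732 13421774
    (rowB 3 eng mog cd0q2 cd2q0 pd2 1 true true false .pp 2 0 2 (qsf 0 536870912 0 536870912 2) ndB0q2 ndB2q0 pcB2 cut_pm_202 Ext.none)

def k0_pm_202 : ∃ t, chk3 f_pm_202 t 2 2 1 = true :=
  ⟨(a (b (l 1) (b (b (b (l 1) (a (l 16108296) (l 16116872))) (a (b (l 16003960) (l 15875520)) (b (l 16101944) (l 15978656)))) (b (a (b (l 15745936) (l 15617752)) (b (l 15854832) (l 15732144))) (a (b (l 15491424) (l 15367368)) (c (l 15541112) (l 15562152)))))) (b (b (l 1) (b (l 1) (a (l 1) (b (l 1) (a (l 1) (l 16402760)))))) (b (b (a (b (l 16243816) (l 16120712)) (b (a (l 16368640) (l 16387224)) (a (l 16321784) (l 16319912)))) (a (b (l 16099048) (l 16064248)) (b (c (l 16214600) (l 16264672)) (l 15957912)))) (b (a (b (l 15945824) (l 15828336)) (b (l 15907448) (l 15836792))) (a (b (l 15712216) (l 15597848)) (b (l 15788320) (l 15678520))))))), by decide +kernel⟩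

def k1_pm_202 : ∃ t, chk3 f_pm_202 t 2 3 1 = true :=
  ⟨(b (b (a (a (b (b (l 15246728) (a (a (b (a (l 15115664) (l 15114632)) (a (l 15118120) (l 15080280))) (l 15112936)) (l 15163032))) (a (b (a (l 15124896) (b (c (l 15156736) (l 15042408)) (l 15038240))) (l 15126888)) (b (l 15034320) (a (b (a (l 14987264) (l 14967696)) (l 14985528)) (b (l 14984064) (l 14941704)))))) (b (b (l 15375200) (l 15261216)) (b (l 15150312) (l 15042824)))) (b (a (b (l 15485624) (l 15375896)) (b (l 15570664) (l 15465096))) (a (b (l 15268984) (l 15165208)) (b (l 15362136) (l 15262088))))) (a (b (a (a (l 15228480) (b (c (l 14963336) (l 14975216)) (l 15047472))) (b (c (l 14932280) (l 14950696)) (a (a (b (l 14870376) (l 14900040)) (b (l 14850424) (l 14823128))) (l 14874152)))) (a (l 15164584) (a (b (l 14898640) (l 14987032)) (b (a (b (l 14792488) (l 14773216)) (l 14796568)) (a (l 14811672) (b (l 14739984) (l 14729656))))))) (b (a (l 15016360) (l 15118408)) (a (l 14831224) (l 14939240))))) (b (a (b (a (l 15503568) (b (l 14962088)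 (l 15067848))) (a (l 15751936) (l 15241800))) (a (b (a (b (a (b (l 14692984) (l 14692472)) (l 14690240)) (l 14710880)) (l 14698416)) (a (l 14858040) (b (a (l 14631576) (l 14606144)) (l 14661720)))) (b (l 14776584) (l 14644304)))) (a (b (a (l 16007128) (l 15502408)) (a (a (l 16405440) (l 16191016)) (l 15788896))) (a (b (l 14972592) (l 15246960)) (b (a (b (a (l 14584792) (l 14540464)) (l 14631872)) (b (l 14563064) (l 14524792))) (a (l 14833984) (b (l 14513128) (l 14619736)))))))), by decide +kernel⟩

def k2_pm_202 : ∃ t, chk3 f_pm_202 t 6 8 1 = true :=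
  ⟨(l 1), by decide +kernel⟩

def k3_pm_202 : ∃ t, chk3 f_pm_202 t 14 8 1 = true :=
  ⟨(b (l 1) (a (b (l 1) (b (l 1) (a (l 1) (l 16388896)))) (a (b (l 1) (b (l 99353937639) (l 16462312))) (b (b (b (l 1) (a (l 1) (l 296922564391))) (b (a (l 16501600) (l 16532000)) (l 16488696))) (b (l 16489048) (l 16519616)))))), by decide +kernel⟩

def k4_pm_202 : ∃ t, chk3 f_pm_202 t 15 8 1 = true :=
  ⟨(a (b (b (l 1) (a (b (l 1) (b (l 1) (a (l 1) (b (l 1) (a (l 1) (a (b (l 1) (c (c (l 16559672) (l 159483782151)) (c (l 153578185143) (b (l 99354216951) (l 104722916775))))) (b (l 6) (c (l 198138502775) (b (l 6) (l 16547160)))))))))) (b (l 6) (b (l 6) (b (l 6) (b (l 6) (a (a (c (l 16577152) (a (l 16576640) (l 16585704))) (l 16586872)) (l 16594344)))))))) (b (a (b (b (a (b (l 1) (a (l 1) (l 16527872))) (a (b (b (a (l 1) (a (l 355441624695) (c (l 427919238471) (c (l 436509157895) (l 431140430279))))) (c (l 16570408) (l 16550768))) (l 16533856)) (b (b (a (c (b (l 116534112407) (l 16580504)) (b (c (l 127808385511) (b (l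 16544768) (l 151967558775))) (a (l 16538168) (l 16542456)))) (c (l 16588304) (l 16569632))) (c (l 16566432) (a (l 16563200) (l 16571704)))) (l 16561088)))) (a (c (l 16561664) (l 16538904)) (l 16541144))) (b (l 16516784) (l 16551080))) (b (a (b (b (a (c (l 16603032) (l 16563160)) (l 16590728)) (a (b (l 16576688) (l 16579584)) (l 16596024))) (b (l 16550928) (l 16598912))) (b (b (l 16598080) (l 16603200)) (b (l 16608576) (l 16614376)))) (a (l 16573616) (l 16589792)))) (a (c (l 16544272) (l 16548888)) (b (l 16579704) (l 16616216))))) (b (b (l 6) (b (l 6) (b (l 6) (b (l 6) (a (a (l 16653320) (l 16693184)) (l 16666376)))))) (b (a (b (a (b (l 16640104) (l 16651720)) (l 16644336)) (a (l 16624024) (l 16607360))) (b (b (l 16631688) (l 16612832)) (c (l 16592096) (l 16617080)))) (b (a (l 16559912) (b (l 16574168) (l 16553448))) (a (l 16558560) (l 16500360)))))), by decide +kernel⟩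

def k5_pm_202 : ∃ t, chk3 f_pm_202 t 3 9 1 = true :=
  ⟨(a (a (b (l 1) (a (b (l 16293744) (l 16368616)) (b (b (l 16378224) (l 16402200)) (l 16388704)))) (b (a (b (l 1) (b (a (l 1) (l 16410312)) (a (l 16418488) (l 16450712)))) (b (b (l 1) (a (l 16408344) (l 16406944))) (b (a (l 16446648) (l 16444120)) (a (l 16464960) (l 16462320))))) (a (b (c (l 16418592) (l 16389528)) (l 16422560)) (b (c (l 16470872) (l 16437136)) (l 16373856))))) (a (b (a (b (a (b (l 16394632) (l 16450632)) (b (l 16442696) (l 16477488))) (b (c (l 16494384) (l 16466768)) (l 16467952))) (b (b (c (l 16503696) (l 16481760)) (l 16475776)) (a (l 16522768) (l 16528152)))) (a (b (b (l 16495760) (l 16467872)) (a (l 16406320) (l 16401696))) (b (l 16367664) (l 16291584)))) (b (a (b (a (l 16556784) (l 16507424)) (b (l 16401672) (l 16376184))) (a (b (l 16471024) (l 16422016)) (b (l 16434288) (l 16406784)))) (a (c (b (l 16334688) (l 16298024)) (b (l 16402944) (l 16374496))) (a (b (l 16371040) (l 16276688)) (l 16058288)))))), by decide +kernel⟩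

def k6_pm_202 : ∃ t, chk3 f_pm_202 t 3 5 1 = true :=
  ⟨(a (b (a (a (b (b (l 16396672) (l 16329920)) (b (l 16261912) (l 16151784))) (b (b (l 16374264) (l 16309160)) (b (l 16243408) (l 16156528)))) (b (b (a (l 16340080) (l 16292936)) (a (l 16256120) (l 16210984))) (a (b (l 16171552) (l 16149776)) (b (l 16086544) (l 16024944))))) (a (b (b (a (l 16041960) (l 16048968)) (a (l 15932864) (l 15942120))) (b (l 15684328) (l 15725736))) (b (a (b (l 16044416) (l 15939752)) (b (l 16026584) (l 15924096))) (a (l 15722232) (l 15688848))))) (a (b (b (a (b (a (l 16347736) (l 16344008)) (c (l 16259360) (l 16336408))) (b (l 16214224) (l 16094120))) (a (b (c (l 16155624) (l 16237288)) (l 15989776)) (b (l 16036592) (l 16042040)))) (b (a (b (l 15993544) (l 15893216)) (l 15726360)) (a (l 15745144) (l 15700248)))) (b (a (a (b (l 16003136) (l 15996024)) (b (l 15998976) (l 15951928))) (b (a (l 15986832) (l 16016360)) (a (l 15941840) (l 15889584)))) (a (b (c (l 15771104) (l 15877168)) (l 15592472)) (b (l 15496200) (l 15542552)))))),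 by decide +kernel⟩

def k7_pm_202 : ∃ t, chk3 f_pm_202 t 3 3 1 = true :=
  ⟨(a (b (b (a (b (b (l 15622152) (l 15520704)) (b (l 15421712) (l 15325456))) (b (a (l 15584440) (l 15576336)) (a (l 15392600) (l 15388704)))) (a (b (l 15187136) (l 15014384)) (b (c (l 15176920) (l 15249376)) (l 15047208)))) (b (a (b (l 14857280) (l 14717672)) (b (l 14896656) (l 14762888))) (a (b (l 14597288) (a (b (l 14501528) (l 14482008)) (l 14515848))) (a (l 14589568) (l 14604832))))) (b (a (b (b (a (l 15553160) (l 15512848)) (a (l 15369920) (l 15334248))) (b (a (l 15197584) (l 15166536)) (l 15026408))) (b (a (b (l 15451856) (l 15278192)) (b (l 15365112) (l 15196736))) (a (b (l 15115480) (l 14965592)) (b (l 15039408) (l 14894952))))) (a (b (b (l 14883896) (l 14757736)) (a (l 14607528) (l 14595952))) (b (a (l 14769256) (b (l 14765072) (l 14651352))) (a (l 14566784) (l 14514856)))))), by decide +kernel⟩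

theorem s8_pm_202 : ∃ t, chk3 f_pm_202 t 7 8 1 = true := ex3_a k3_pm_202 k4_pm_202

theorem s9_pm_202 : ∃ t, chk3 f_pm_202 t 3 8 1 = true := ex3_a k2_pm_202 s8_pm_202

theorem s10_pm_202 : ∃ t, chk3 f_pm_202 t 3 4 1 = true := ex3_b s9_pm_202 k5_pm_202

theorem s11_pm_202 : ∃ t, chk3 f_pm_202 t 3 2 1 = true := ex3_b s10_pm_202 k6_pm_202

theorem s12_pm_202 : ∃ t, chk3 f_pm_202 t 3 1 1 = true := ex3_b s11_pm_202 k7_pm_202

theorem s13_pm_202 : ∃ t, chk3 f_pm_202 t 2 1 1 = true := ex3_b k0_pm_202 k1_pm_202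

theorem s14_pm_202 : ∃ t, chk3 f_pm_202 t 1 1 1 = true := ex3_a s13_pm_202 s12_pm_202

theorem c_pm_202 : CertB 0 536870912 0 536870912 1020054732 13421774 3 eng mog cd0q2 cd2q0 pd2 true true false .pp 2 0 2
    ndB0q2 ndB2q0 pcB2 cut_pm_202 Ext.none :=
  certB1 (fam := true) (s1 := true) (s2 := false) (a := 2) (b := 0) (c := 2) (cn := .pp) (n1 := ndB0q2) (n2 := ndB2q0) (pc := pcB2) (cut := cut_pm_202) (xt := Ext.none) (P1 := 0) (W1 := 536870912) (P2 := 0) (W2 := 536870912) (P3 := 1020054732) (W3 := 13421774) (N0 := 3) (En := eng) (mo := mog) (C1 := cd0q2) (C2 := cd2q0) (C3 := pd2)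
    rfl (fun _ => rfl) s14_pm_202

noncomputable def f_pm_203 : ℕ → ℕ → ℕ → ℕ → Bool := onCell 0 536870912 1610612736 536870912 1020054732 13421774
    (rowB 3 eng mog cd0q2 cd2q0 pd3 1 true true false .up 2 0 3 (qsf 0 536870912 0 536870912 3) ndB0q2 ndB2q0 pcB3 Cut.none Ext.none)

def k0_pm_203 : ∃ t, chk3 f_pm_203 t 1 1 1 = true :=
  ⟨(b (a (b (b (a (b (l 16493472) (l 16485432)) (b (l 16472504) (l 16423848))) (a (b (l 16493472) (l 4)) (b (l 16393984) (l 16385808)))) (b (a (l 4) (b (l 16395040) (l 2))) (l 2))) (a (b (b (a (l 16271496) (l 16251504)) (a (l 16288728) (l 16053576))) (l 2)) (b (a (b (l 16049528) (l 15994808)) (b (a (l 15887104) (l 15733544)) (l 2))) (l 2)))) (l 2)), by decide +kernel⟩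

theorem c_pm_203 : CertB 0 536870912 0 536870912 1020054732 13421774 3 eng mog cd0q2 cd2q0 pd3 true true false .up 2 0 3
    ndB0q2 ndB2q0 pcB3 Cut.none Ext.none :=
  certB1 (fam := true) (s1 := true) (s2 := false) (a := 2) (b := 0) (c := 3) (cn := .up) (n1 := ndB0q2) (n2 := ndB2q0) (pc := pcB3) (cut := Cut.none) (xt := Ext.none) (P1 := 0) (W1 := 536870912) (P2 := 0) (W2 := 536870912) (P3 := 1020054732) (W3 := 13421774) (N0 := 3) (En := eng) (mo := mog) (C1 := cd0q2) (C2 := cd2q0) (C3 := pd3)
    rfl (fun _ => rfl) k0_pm_203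

noncomputable def f_pm_213 : ℕ → ℕ → ℕ → ℕ → Bool := onCell 0 536870912 1610612736 536870912 1020054732 13421774
    (rowB 3 eng mog cd0q2 cd2q1 pd3 1 true true false .pnn 2 1 3 (qsf 0 536870912 536870912 536870912 3) ndB0q2 ndB2q1 pcB3 Cut.none Ext.none)

def k0_pm_213 : ∃ t, chk3 f_pm_213 t 1 1 1 = true :=
  ⟨(a (b (b (b (l 1) (a (l 1) (b (l 1) (l 249676707175)))) (b (a (l 4) (b (a (l 4) (l 16122520)) (l 50162230167))) (l 4))) (l 4)) (b (a (b (b (l 1) (a (l 15830688) (b (l 15906216) (l 15918272)))) (b (a (b (l 16047792) (l 16078472)) (b (l 15932656) (l 15958304))) (b (a (l 16124368) (l 15991304)) (a (l 4) (l 16036904))))) (b (b (a (c (l 15563528) (l 15877360)) (a (l 41369498023) (c (l 15197224) (l 15560800)))) (a (c (l 15586664) (l 15864560)) (a (l 15278528) (c (l 15207184) (l 15528392))))) (a (b (b (l 15520920) (l 15650952)) (b (l 15804248) (l 15840672))) (b (a (c (l 15438368) (l 15688280)) (c (l 15257824) (l 15522536))) (a (b (l 15606560) (l 15637240)) (b (l 15426416) (l 15460464))))))) (b (a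 (a (l 4) (b (b (l 16097232) (l 4)) (l 4))) (a (b (b (l 15886712) (l 15949112)) (l 4)) (b (a (b (l 15676832) (l 15726112)) (b (l 15494344) (l 15538272))) (b (a (l 15795664) (l 15597448)) (a (l 4) (l 15683944)))))) (l 4)))), by decide +kernel⟩

theorem c_pm_213 : CertB 0 536870912 536870912 536870912 1020054732 13421774 3 eng mog cd0q2 cd2q1 pd3 true true false .pnn 2 1 3
    ndB0q2 ndB2q1 pcB3 Cut.none Ext.none :=
  certB1 (fam := true) (s1 := true) (s2 := false) (a := 2) (b := 1) (c := 3) (cn := .pnn) (n1 := ndB0q2) (n2 := ndB2q1) (pc := pcB3) (cut := Cut.none) (xt := Ext.none) (P1 := 0) (W1 := 536870912) (P2 := 536870912) (W2 := 536870912) (P3 := 1020054732) (W3 := 13421774) (N0 := 3) (En := eng) (mo := mog) (C1 := cd0q2) (C2 := cd2q1) (C3 := pd3)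
    rfl (fun _ => rfl) k0_pm_213

noncomputable def f_mm_001 : ℕ → ℕ → ℕ → ℕ → Bool := onCell 0 536870912 0 536870912 1020054732 13421774
    (rowB 3 eng mog cd0q0 cd2q0 pd1 0 true false false .up 0 0 1 (qsf 0 536870912 0 536870912 1) ndB0q0 ndB2q0 pcB1 Cut.none Ext.none)

def k0_mm_001 : ∃ t, chk3 f_mm_001 t 1 1 1 = true :=
  ⟨(l 4), by decide +kernel⟩

theorem c_mm_001 : CertB 0 536870912 0 536870912 1020054732 13421774 3 eng mog cd0q0 cd2q0 pd1 true false false .up 0 0 1
    ndB0q0 ndB2q0 pcB1 Cut.none Ext.none :=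
  certB0 (fam := true) (s1 := false) (s2 := false) (a := 0) (b := 0) (c := 1) (cn := .up) (n1 := ndB0q0) (n2 := ndB2q0) (pc := pcB1) (cut := Cut.none) (xt := Ext.none) (P1 := 0) (W1 := 536870912) (P2 := 0) (W2 := 536870912) (P3 := 1020054732) (W3 := 13421774) (N0 := 3) (En := eng) (mo := mog) (C1 := cd0q0) (C2 := cd2q0) (C3 := pd1)
    rfl k0_mm_001

noncomputable def f_mm_011 : ℕ → ℕ → ℕ → ℕ → Bool := onCell 0 536870912 536870912 536870912 1020054732 13421774
    (rowB 3 eng mog cd0q0 cd2q1 pd1 0 true false false .pnn 0 1 1 (qsf 0 536870912 536870912 536870912 1) ndB0q0 ndB2q1 pcB1 Cut.none Ext.none)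

def k0_mm_011 : ∃ t, chk3 f_mm_011 t 1 1 1 = true :=
  ⟨(l 4), by decide +kernel⟩

theorem c_mm_011 : CertB 0 536870912 536870912 536870912 1020054732 13421774 3 eng mog cd0q0 cd2q1 pd1 true false false .pnn 0 1 1
    ndB0q0 ndB2q1 pcB1 Cut.none Ext.none :=
  certB0 (fam := true) (s1 := false) (s2 := false) (a := 0) (b := 1) (c := 1) (cn := .pnn) (n1 := ndB0q0) (n2 := ndB2q1) (pc := pcB1) (cut := Cut.none) (xt := Ext.none) (P1 := 0) (W1 := 536870912) (P2 := 536870912) (W2 := 536870912) (P3 := 1020054732) (W3 := 13421774) (N0 := 3) (En := eng) (mo := mog) (C1 := cd0q0) (C2 := cd2q1) (C3 := pd1)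
    rfl k0_mm_011

noncomputable def f_mm_012 : ℕ → ℕ → ℕ → ℕ → Bool := onCell 0 536870912 536870912 536870912 1020054732 13421774
    (rowB 3 eng mog cd0q0 cd2q1 pd2 0 true false false .pnp 0 1 2 (qsf 0 536870912 536870912 536870912 2) ndB0q0 ndB2q1 pcB2 Cut.none Ext.none)

def k0_mm_012 : ∃ t, chk3 f_mm_012 t 1 1 1 = true :=
  ⟨(l 4), by decide +kernel⟩

theorem c_mm_012 : CertB 0 536870912 536870912 536870912 1020054732 13421774 3 eng mog cd0q0 cd2q1 pd2 true false false .pnp 0 1 2
    ndB0q0 ndB2q1 pcB2 Cut.none Ext.none :=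
  certB0 (fam := true) (s1 := false) (s2 := false) (a := 0) (b := 1) (c := 2) (cn := .pnp) (n1 := ndB0q0) (n2 := ndB2q1) (pc := pcB2) (cut := Cut.none) (xt := Ext.none) (P1 := 0) (W1 := 536870912) (P2 := 536870912) (W2 := 536870912) (P3 := 1020054732) (W3 := 13421774) (N0 := 3) (En := eng) (mo := mog) (C1 := cd0q0) (C2 := cd2q1) (C3 := pd2)
    rfl k0_mm_012

noncomputable def f_mm_022_a : ℕ → ℕ → ℕ → ℕ → Bool := onCell 0 536870912 0 536870912 1020054732 13421774
    (rowB 3 eng mog cd0q0 cd2q2a pd2 0 true false false .pp 0 2 2 (qsf 0 536870912 0 536870912 2) ndB0q0 ndB2q2a pcB2 Cut.none Ext.none)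

def k0_mm_022_a : ∃ t, chk3 f_mm_022_a t 1 1 1 = true :=
  ⟨(l 5), by decide +kernel⟩

theorem c_mm_022_a : CertB 0 536870912 0 536870912 1020054732 13421774 3 eng mog cd0q0 cd2q2a pd2 true false false .pp 0 2 2
    ndB0q0 ndB2q2a pcB2 Cut.none Ext.none :=
  certB0 (fam := true) (s1 := false) (s2 := false) (a := 0) (b := 2) (c := 2) (cn := .pp) (n1 := ndB0q0) (n2 := ndB2q2a) (pc := pcB2) (cut := Cut.none) (xt := Ext.none) (P1 := 0) (W1 := 536870912) (P2 := 0) (W2 := 536870912) (P3 := 1020054732) (W3 := 13421774) (N0 := 3) (En := eng) (mo := mog) (C1 := cd0q0) (C2 := cd2q2a) (C3 := pd2)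
    rfl k0_mm_022_a

noncomputable def f_mm_022_b : ℕ → ℕ → ℕ → ℕ → Bool := onCell 0 536870912 1239849684 370763052 1020054732 13421774
    (rowB 3 eng mog cd0q0 cd2q2b pd2 0 true false false .pp 0 2 2 (qsf 0 536870912 1239849684 370763052 2) ndB0q0 ndB2q2b pcB2 Cut.none Ext.none)

def k0_mm_022_b : ∃ t, chk3 f_mm_022_b t 1 1 1 = true :=
  ⟨(l 5), by decide +kernel⟩

theorem c_mm_022_b : CertB 0 536870912 1239849684 370763052 1020054732 13421774 3 eng mog cd0q0 cd2q2b pd2 true false false .pp 0 2 2
    ndB0q0 ndB2q2b pcB2 Cut.none Ext.none :=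
  certB0 (fam := true) (s1 := false) (s2 := false) (a := 0) (b := 2) (c := 2) (cn := .pp) (n1 := ndB0q0) (n2 := ndB2q2b) (pc := pcB2) (cut := Cut.none) (xt := Ext.none) (P1 := 0) (W1 := 536870912) (P2 := 1239849684) (W2 := 370763052) (P3 := 1020054732) (W3 := 13421774) (N0 := 3) (En := eng) (mo := mog) (C1 := cd0q0) (C2 := cd2q2b) (C3 := pd2)
    rfl k0_mm_022_b

noncomputable def f_mm_023_a : ℕ → ℕ → ℕ → ℕ → Bool := onCell 0 536870912 0 536870912 1020054732 13421774
    (rowB 3 eng mog cd0q0 cd2q2a pd3 0 true false false .up 0 2 3 (qsf 0 536870912 0 536870912 3) ndB0q0 ndB2q2a pcB3 Cut.none Ext.none)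

def k0_mm_023_a : ∃ t, chk3 f_mm_023_a t 1 1 1 = true :=
  ⟨(l 5), by decide +kernel⟩

theorem c_mm_023_a : CertB 0 536870912 0 536870912 1020054732 13421774 3 eng mog cd0q0 cd2q2a pd3 true false false .up 0 2 3
    ndB0q0 ndB2q2a pcB3 Cut.none Ext.none :=
  certB0 (fam := true) (s1 := false) (s2 := false) (a := 0) (b := 2) (c := 3) (cn := .up) (n1 := ndB0q0) (n2 := ndB2q2a) (pc := pcB3) (cut := Cut.none) (xt := Ext.none) (P1 := 0) (W1 := 536870912) (P2 := 0) (W2 := 536870912) (P3 := 1020054732) (W3 := 13421774) (N0 := 3) (En := eng) (mo := mog) (C1 := cd0q0) (C2 := cd2q2a) (C3 := pd3)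
    rfl k0_mm_023_a

noncomputable def f_mm_023_b : ℕ → ℕ → ℕ → ℕ → Bool := onCell 0 536870912 1239849684 370763052 1020054732 13421774
    (rowB 3 eng mog cd0q0 cd2q2b pd3 0 true false false .up 0 2 3 (qsf 0 536870912 1239849684 370763052 3) ndB0q0 ndB2q2b pcB3 Cut.none Ext.none)

def k0_mm_023_b : ∃ t, chk3 f_mm_023_b t 1 1 1 = true :=
  ⟨(l 5), by decide +kernel⟩

theorem c_mm_023_b : CertB 0 536870912 1239849684 370763052 1020054732 13421774 3 eng mog cd0q0 cd2q2b pd3 true false false .up 0 2 3
    ndB0q0 ndB2q2b pcB3 Cut.none Ext.none :=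
  certB0 (fam := true) (s1 := false) (s2 := false) (a := 0) (b := 2) (c := 3) (cn := .up) (n1 := ndB0q0) (n2 := ndB2q2b) (pc := pcB3) (cut := Cut.none) (xt := Ext.none) (P1 := 0) (W1 := 536870912) (P2 := 1239849684) (W2 := 370763052) (P3 := 1020054732) (W3 := 13421774) (N0 := 3) (En := eng) (mo := mog) (C1 := cd0q0) (C2 := cd2q2b) (C3 := pd3)
    rfl k0_mm_023_b

noncomputable def f_mm_033 : ℕ → ℕ → ℕ → ℕ → Bool := onCell 0 536870912 1610612736 536870912 1020054732 13421774
    (rowB 3 eng mog cd0q0 cd2q3 pd3 0 true false false .pnn 0 3 3 (qsf 0 536870912 1610612736 536870912 3) ndB0q0 ndB2q3 pcB3 Cut.none Ext.none)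

def k0_mm_033 : ∃ t, chk3 f_mm_033 t 1 1 1 = true :=
  ⟨(l 5), by decide +kernel⟩

theorem c_mm_033 : CertB 0 536870912 1610612736 536870912 1020054732 13421774 3 eng mog cd0q0 cd2q3 pd3 true false false .pnn 0 3 3
    ndB0q0 ndB2q3 pcB3 Cut.none Ext.none :=
  certB0 (fam := true) (s1 := false) (s2 := false) (a := 0) (b := 3) (c := 3) (cn := .pnn) (n1 := ndB0q0) (n2 := ndB2q3) (pc := pcB3) (cut := Cut.none) (xt := Ext.none) (P1 := 0) (W1 := 536870912) (P2 := 1610612736) (W2 := 536870912) (P3 := 1020054732) (W3 := 13421774) (N0 := 3) (En := eng) (mo := mog) (C1 := cd0q0) (C2 := cd2q3) (C3 := pd3)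
    rfl k0_mm_033

noncomputable def cut_mm_101 : Cut := Cut.of [[⟨0, 1, 0, 38347922⟩, ⟨1, 0, 0, 38347922⟩, ⟨2, 1, 0, 38347922⟩]]

noncomputable def f_mm_101 : ℕ → ℕ → ℕ → ℕ → Bool := onCell 536870912 536870912 0 536870912 1020054732 13421774
    (rowB 3 eng mog cd0q1 cd2q0 pd1 0 true false false .npn 1 0 1 (qsf 536870912 536870912 0 536870912 1) ndB0q1 ndB2q0 pcB1 cut_mm_101 Ext.none)

def k0_mm_101 : ∃ t, chk3 f_mm_101 t 1 1 1 = true :=
  ⟨(a (l 4) (b (a (l 4) (b (a (l 4) (b (a (l 4) (b (l 6) (l 4))) (l 4))) (l 4))) (l 4))), by decide +kernel⟩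

theorem c_mm_101 : CertB 536870912 536870912 0 536870912 1020054732 13421774 3 eng mog cd0q1 cd2q0 pd1 true false false .npn 1 0 1
    ndB0q1 ndB2q0 pcB1 cut_mm_101 Ext.none :=
  certB0 (fam := true) (s1 := false) (s2 := false) (a := 1) (b := 0) (c := 1) (cn := .npn) (n1 := ndB0q1) (n2 := ndB2q0) (pc := pcB1) (cut := cut_mm_101) (xt := Ext.none) (P1 := 536870912) (W1 := 536870912) (P2 := 0) (W2 := 536870912) (P3 := 1020054732) (W3 := 13421774) (N0 := 3) (En := eng) (mo := mog) (C1 := cd0q1) (C2 := cd2q0) (C3 := pd1)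
    rfl k0_mm_101

noncomputable def cut_mm_102 : Cut := Cut.of [[⟨0, 1, 0, 38347922⟩, ⟨1, 0, 0, 38347922⟩, ⟨2, 1, 0, 38347922⟩]]

noncomputable def f_mm_102 : ℕ → ℕ → ℕ → ℕ → Bool := onCell 536870912 536870912 0 536870912 1020054732 13421774
    (rowB 3 eng mog cd0q1 cd2q0 pd2 0 true false false .npp 1 0 2 (qsf 536870912 536870912 0 536870912 2) ndB0q1 ndB2q0 pcB2 cut_mm_102 Ext.none)

def k0_mm_102 : ∃ t, chk3 f_mm_102 t 1 1 1 = true :=
  ⟨(a (l 4) (b (a (l 4) (b (a (l 4) (b (a (l 4) (b (l 6) (l 4))) (l 4))) (l 4))) (l 4))), by decide +kernel⟩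

theorem c_mm_102 : CertB 536870912 536870912 0 536870912 1020054732 13421774 3 eng mog cd0q1 cd2q0 pd2 true false false .npp 1 0 2
    ndB0q1 ndB2q0 pcB2 cut_mm_102 Ext.none :=
  certB0 (fam := true) (s1 := false) (s2 := false) (a := 1) (b := 0) (c := 2) (cn := .npp) (n1 := ndB0q1) (n2 := ndB2q0) (pc := pcB2) (cut := cut_mm_102) (xt := Ext.none) (P1 := 536870912) (W1 := 536870912) (P2 := 0) (W2 := 536870912) (P3 := 1020054732) (W3 := 13421774) (N0 := 3) (En := eng) (mo := mog) (C1 := cd0q1) (C2 := cd2q0) (C3 := pd2)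
    rfl k0_mm_102

noncomputable def f_mm_112 : ℕ → ℕ → ℕ → ℕ → Bool := onCell 536870912 536870912 536870912 536870912 1020054732 13421774
    (rowB 3 eng mog cd0q1 cd2q1 pd2 0 true false false .dn 1 1 2 (qsf 536870912 536870912 536870912 536870912 2) ndB0q1 ndB2q1 pcB2 Cut.none Ext.none)

def k0_mm_112 : ∃ t, chk3 f_mm_112 t 1 1 1 = true :=
  ⟨(l 4), by decide +kernel⟩

theorem c_mm_112 : CertB 536870912 536870912 536870912 536870912 1020054732 13421774 3 eng mog cd0q1 cd2q1 pd2 true false false .dn 1 1 2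
    ndB0q1 ndB2q1 pcB2 Cut.none Ext.none :=
  certB0 (fam := true) (s1 := false) (s2 := false) (a := 1) (b := 1) (c := 2) (cn := .dn) (n1 := ndB0q1) (n2 := ndB2q1) (pc := pcB2) (cut := Cut.none) (xt := Ext.none) (P1 := 536870912) (W1 := 536870912) (P2 := 536870912) (W2 := 536870912) (P3 := 1020054732) (W3 := 13421774) (N0 := 3) (En := eng) (mo := mog) (C1 := cd0q1) (C2 := cd2q1) (C3 := pd2)
    rfl k0_mm_112

noncomputable def f_mm_113 : ℕ → ℕ → ℕ → ℕ → Bool := onCell 536870912 536870912 536870912 536870912 1020054732 13421774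
    (rowB 3 eng mog cd0q1 cd2q1 pd3 0 true false false .nn 1 1 3 (qsf 536870912 536870912 536870912 536870912 3) ndB0q1 ndB2q1 pcB3 Cut.none Ext.none)

def k0_mm_113 : ∃ t, chk3 f_mm_113 t 1 1 1 = true :=
  ⟨(l 4), by decide +kernel⟩

theorem c_mm_113 : CertB 536870912 536870912 536870912 536870912 1020054732 13421774 3 eng mog cd0q1 cd2q1 pd3 true false false .nn 1 1 3
    ndB0q1 ndB2q1 pcB3 Cut.none Ext.none :=
  certB0 (fam := true) (s1 := false) (s2 := false) (a := 1) (b := 1) (c := 3) (cn := .nn) (n1 := ndB0q1) (n2 := ndB2q1) (pc := pcB3) (cut := Cut.none) (xt := Ext.none) (P1 := 536870912) (W1 := 536870912) (P2 := 536870912) (W2 := 536870912) (P3 := 1020054732) (W3 := 13421774) (N0 := 3) (En := eng) (mo := mog) (C1 := cd0q1) (C2 := cd2q1) (C3 := pd3)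
    rfl k0_mm_113

noncomputable def f_mm_123_a : ℕ → ℕ → ℕ → ℕ → Bool := onCell 536870912 536870912 0 536870912 1020054732 13421774
    (rowB 3 eng mog cd0q1 cd2q2a pd3 0 true false false .npn 1 2 3 (qsf 536870912 536870912 0 536870912 3) ndB0q1 ndB2q2a pcB3 Cut.none Ext.none)

def k0_mm_123_a : ∃ t, chk3 f_mm_123_a t 1 1 1 = true :=
  ⟨(l 4), by decide +kernel⟩

theorem c_mm_123_a : CertB 536870912 536870912 0 536870912 1020054732 13421774 3 eng mog cd0q1 cd2q2a pd3 true false false .npn 1 2 3
    ndB0q1 ndB2q2a pcB3 Cut.none Ext.none :=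
  certB0 (fam := true) (s1 := false) (s2 := false) (a := 1) (b := 2) (c := 3) (cn := .npn) (n1 := ndB0q1) (n2 := ndB2q2a) (pc := pcB3) (cut := Cut.none) (xt := Ext.none) (P1 := 536870912) (W1 := 536870912) (P2 := 0) (W2 := 536870912) (P3 := 1020054732) (W3 := 13421774) (N0 := 3) (En := eng) (mo := mog) (C1 := cd0q1) (C2 := cd2q2a) (C3 := pd3)
    rfl k0_mm_123_a

noncomputable def f_mm_123_b : ℕ → ℕ → ℕ → ℕ → Bool := onCell 536870912 536870912 1239849684 370763052 1020054732 13421774
    (rowB 3 eng mog cd0q1 cd2q2b pd3 0 true false false .npn 1 2 3 (qsf 536870912 536870912 1239849684 370763052 3) ndB0q1 ndB2q2b pcB3 Cut.none Ext.none)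

def k0_mm_123_b : ∃ t, chk3 f_mm_123_b t 1 1 1 = true :=
  ⟨(l 4), by decide +kernel⟩

theorem c_mm_123_b : CertB 536870912 536870912 1239849684 370763052 1020054732 13421774 3 eng mog cd0q1 cd2q2b pd3 true false false .npn 1 2 3
    ndB0q1 ndB2q2b pcB3 Cut.none Ext.none :=
  certB0 (fam := true) (s1 := false) (s2 := false) (a := 1) (b := 2) (c := 3) (cn := .npn) (n1 := ndB0q1) (n2 := ndB2q2b) (pc := pcB3) (cut := Cut.none) (xt := Ext.none) (P1 := 536870912) (W1 := 536870912) (P2 := 1239849684) (W2 := 370763052) (P3 := 1020054732) (W3 := 13421774) (N0 := 3) (En := eng) (mo := mog) (C1 := cd0q1) (C2 := cd2q2b) (C3 := pd3)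
    rfl k0_mm_123_b

noncomputable def f_mm_133 : ℕ → ℕ → ℕ → ℕ → Bool := onCell 536870912 536870912 1610612736 536870912 1020054732 13421774
    (rowB 3 eng mog cd0q1 cd2q3 pd3 0 true false false .dn 1 3 3 (qsf 536870912 536870912 1610612736 536870912 3) ndB0q1 ndB2q3 pcB3 Cut.none Ext.none)

def k0_mm_133 : ∃ t, chk3 f_mm_133 t 1 1 1 = true :=
  ⟨(l 4), by decide +kernel⟩

theorem c_mm_133 : CertB 536870912 536870912 1610612736 536870912 1020054732 13421774 3 eng mog cd0q1 cd2q3 pd3 true false false .dn 1 3 3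
    ndB0q1 ndB2q3 pcB3 Cut.none Ext.none :=
  certB0 (fam := true) (s1 := false) (s2 := false) (a := 1) (b := 3) (c := 3) (cn := .dn) (n1 := ndB0q1) (n2 := ndB2q3) (pc := pcB3) (cut := Cut.none) (xt := Ext.none) (P1 := 536870912) (W1 := 536870912) (P2 := 1610612736) (W2 := 536870912) (P3 := 1020054732) (W3 := 13421774) (N0 := 3) (En := eng) (mo := mog) (C1 := cd0q1) (C2 := cd2q3) (C3 := pd3)
    rfl k0_mm_133

noncomputable def cut_mm_202 : Cut := Cut.of [[⟨0, 1, 0, 38347922⟩, ⟨1, 0, 0, 38347922⟩, ⟨2, 1, 0, 38347922⟩]]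

noncomputable def f_mm_202 : ℕ → ℕ → ℕ → ℕ → Bool := onCell 0 536870912 0 536870912 1020054732 13421774
    (rowB 3 eng mog cd0q2 cd2q0 pd2 0 true false false .pp 2 0 2 (qsf 0 536870912 0 536870912 2) ndB0q2 ndB2q0 pcB2 cut_mm_202 Ext.none)

def k0_mm_202 : ∃ t, chk3 f_mm_202 t 2 2 1 = true :=
  ⟨(b (b (a (b (a (b (l 15915608) (l 15781312)) (b (a (l 15855704) (l 15832824)) (a (l 15716120) (a (l 15701624) (l 15725624))))) (a (b (l 15645400) (a (l 15538664) (l 15486848))) (b (a (b (l 15614240) (l 15537552)) (b (l 15660632) (l 15651056))) (a (a (a (l 15448632) (l 15463720)) (l 15534168)) (l 15644440))))) (b (a (b (a (b (l 15881576) (l 15843760)) (l 15975024)) (a (l 15815000) (l 15943016))) (b (a (l 16093600) (b (l 16216216) (l 16203032))) (a (l 16068584) (l 16189880)))) (a (b (a (l 15792928) (l 15928568)) (a (l 15790144) (l 15933136))) (b (a (l 16060776) (l 16187968)) (a (l 16071792) (l 16204520)))))) (a (a (b (a (b (l 15408008) (c (c (l 15276848) (l 15274240)) (l 15291544))) (b (a (l 15351024) (a (l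 15352760) (l 15399224))) (b (l 15260312) (l 15350280)))) (b (a (a (b (l 15208480) (a (l 15159792) (l 15177632))) (b (l 15232280) (l 15243728))) (l 15369088)) (a (l 15220968) (l 15407960)))) (b (b (l 15490592) (l 15510560)) (b (l 15567648) (l 15681688)))) (a (b (b (l 15713488) (l 15769624)) (b (l 15841112) (l 15947760))) (b (b (a (l 16100248) (l 16238416)) (a (l 16144832) (l 16288248))) (a (l 16050112) (b (l 16352728) (l 16430600))))))) (b (a (a (b (b (l 15364416) (l 15427320)) (b (l 15503128) (l 15590856))) (b (b (l 15746744) (l 15824656)) (b (l 15914392) (l 16014904)))) (a (b (b (l 16088448) (l 16136232)) (a (l 16196744) (l 16190888))) (b (a (l 16242088) (b (l 16520344) (l 16596232))) (a (b (l 16552464) (l 16607856)) (b (l 16636384) (l 4)))))) (a (a (b (l 15637592) (l 15872568)) (b (a (l 16077008) (l 16247760)) (a (l 16283544) (l 16284824)))) (a (b (a (b (l 16432008) (l 16527376)) (l 16329944)) (b (l 16592104) (l 4))) (l 4))))), by decide +kernel⟩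

def k1_mm_202 : ∃ t, chk3 f_mm_202 t 6 4 1 = true :=
  ⟨(b (a (b (a (b (b (l 16324824) (l 16314296)) (l 16305104)) (b (b (a (l 16401520) (l 16450216)) (l 16397112)) (a (l 16386136) (l 16437328)))) (b (a (l 16308192) (l 16398760)) (a (l 16329672) (l 16445592)))) (b (b (a (b (a (l 16496520) (a (l 16529464) (l 16529720))) (a (l 16489600) (l 16534008))) (b (a (a (l 16550008) (b (l 16571632) (l 16567712))) (b (a (l 16589912) (b (l 16602888) (l 16606192))) (a (l 16607352) (l 16603920)))) (a (b (l 16555440) (l 16574904)) (b (l 16593112) (l 16613144))))) (a (a (l 16485848) (l 16489496)) (a (c (l 16546592) (l 16559200)) (b (l 16612224) (l 16614680))))) (a (b (a (l 16496408) (l 16543688)) (l 16518704)) (b (a (l 16587560) (l 16606760)) (l 16515408))))) (a (b (a (b (l 16368312) (l 16422744)) (b (l 16467304) (l 16546728))) (a (a (l 16391624) (l 16373600)) (b (l 16551512) (l 16584336)))) (b (a (b (l 16575696) (l 16525832)) (b (a (l 16662992) (l 16658312)) (a (l 16650208) (l 4)))) (a (b (l 16542704) (l 4)) (l 4))))),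 by decide +kernel⟩

def k2_mm_202 : ∃ t, chk3 f_mm_202 t 14 16 1 = true :=
  ⟨(b (a (b (a (b (a (c (l 16609608) (l 16599728)) (b (a (l 16602688) (l 16610032)) (l 16607872))) (a (l 16613808) (l 16614472))) (b (a (b (a (c (l 16630008) (l 16621184)) (c (l 16610448) (l 16622896))) (a (l 16609464) (l 16611016))) (b (a (c (l 16622720) (l 16614520)) (c (l 16624856) (b (l 16626240) (l 16628688)))) (a (l 16612960) (l 16615304)))) (a (l 16616736) (b (l 16618528) (l 16622592))))) (a (b (l 16600760) (l 16626176)) (b (a (l 16645208) (l 16649008)) (l 16632120)))) (b (c (a (b (a (b (b (a (l 16636472) (l 16639224)) (l 16640488)) (l 16644272)) (b (a (a (l 16632376) (l 16636608)) (b (b (l 16644896) (l 16646328)) (l 16648424))) (l 16629688))) (a (l 16630184) (l 16636792))) (b (a (b (a (b (b (l 16648512) (l 16649976)) (l 16652112)) (b (b (l 16652368) (l 16653856)) (l 16656040))) (l 16637208)) (b (a (b (b (l 16656464) (l 16657984)) (l 16660208)) (b (b (l 16660808) (l 16662360)) (l 16664632))) (l 16645736))) (a (l 16644688)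 (l 16653584)))) (a (b (a (b (b (a (l 16629032) (l 16632136)) (l 16633072)) (l 16636608)) (b (a (b (l 16635536) (l 16638136)) (c (l 16636984) (l 16638960))) (l 16643728))) (a (l 16642976) (l 16629344))) (b (a (b (a (b (b (l 16642552) (l 16643936)) (l 16645968)) (c (l 16645088) (l 16636952))) (l 16651992)) (b (b (a (l 16646704) (l 16656664)) (l 16646680)) (l 16640288))) (a (l 16658984) (l 16647672))))) (a (b (a (l 16633520) (l 16640728)) (l 16643008)) (b (a (l 16649336) (l 16659160)) (l 16639608))))) (a (a (b (l 16626160) (l 16650016)) (b (l 16620648) (l 16672096))) (a (b (b (l 16669712) (l 16675160)) (l 16660640)) (b (a (l 16685080) (l 16674680)) (l 16677208))))), by decide +kernel⟩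

def k3_mm_202 : ∃ t, chk3 f_mm_202 t 14 17 1 = true :=
  ⟨(a (b (a (l 16621944) (l 16636520)) (a (l 16669848) (l 16653384))) (b (a (b (l 16685872) (l 16686288)) (b (l 16679344) (l 16697808))) (a (l 122104263527) (l 4)))), by decide +kernel⟩

def k4_mm_202 : ∃ t, chk3 f_mm_202 t 15 8 1 = true :=
  ⟨(b (a (b (a (b (b (a (b (b (a (c (b (l 16665408) (l 16666992)) (l 16661640)) (c (b (l 16670288) (l 16671904)) (l 16666872))) (a (l 16656496) (l 16661632))) (c (l 16655312) (l 16650584))) (a (b (b (l 6) (l 16667048)) (l 16661136)) (l 6))) (a (c (l 16663552) (l 16658384)) (c (l 16674680) (l 16670248)))) (b (a (l 16670040) (l 16682112)) (a (l 16677232) (l 16710848)))) (b (b (l 6) (a (b (l 6) (l 16687880)) (l 6))) (a (b (l 16695392) (l 16724744)) (b (l 16708856) (l 16717848))))) (a (b (a (l 16686696) (l 16679240)) (a (l 16714768) (l 16703848))) (b (a (b (l 16732336) (l 16736280)) (b (l 16722736) (l 4))) (l 4)))) (b (a (l 6) (l 6)) (l 4))) (a (b (l 4) (l 4)) (l 4))), by decide +kernel⟩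

def k5_mm_202 : ∃ t, chk3 f_mm_202 t 7 9 1 = true :=
  ⟨(a (b (a (b (a (l 16663104) (l 4)) (l 4)) (l 4)) (l 4)) (l 4)), by decide +kernel⟩

def k6_mm_202 : ∃ t, chk3 f_mm_202 t 3 5 1 = true :=
  ⟨(a (b (a (b (a (b (l 16611792) (l 4)) (l 4)) (l 4)) (l 4)) (l 4)) (l 4)), by decide +kernel⟩

def k7_mm_202 : ∃ t, chk3 f_mm_202 t 1 3 1 = true :=
  ⟨(a (a (b (b (b (a (a (l 16119736) (l 16293568)) (a (l 16466280) (l 4))) (a (a (l 16337600) (l 16513456)) (l 4))) (b (a (l 16525688) (l 4)) (l 4))) (l 2)) (l 4)) (l 4)), by decide +kernel⟩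

theorem s8_mm_202 : ∃ t, chk3 f_mm_202 t 14 8 1 = true := ex3_b k2_mm_202 k3_mm_202

theorem s9_mm_202 : ∃ t, chk3 f_mm_202 t 7 8 1 = true := ex3_a s8_mm_202 k4_mm_202

theorem s10_mm_202 : ∃ t, chk3 f_mm_202 t 7 4 1 = true := ex3_b s9_mm_202 k5_mm_202

theorem s11_mm_202 : ∃ t, chk3 f_mm_202 t 3 4 1 = true := ex3_a k1_mm_202 s10_mm_202

theorem s12_mm_202 : ∃ t, chk3 f_mm_202 t 3 2 1 = true := ex3_b s11_mm_202 k6_mm_202

theorem s13_mm_202 : ∃ t, chk3 f_mm_202 t 1 2 1 = true := ex3_a k0_mm_202 s12_mm_202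

theorem s14_mm_202 : ∃ t, chk3 f_mm_202 t 1 1 1 = true := ex3_b s13_mm_202 k7_mm_202

theorem c_mm_202 : CertB 0 536870912 0 536870912 1020054732 13421774 3 eng mog cd0q2 cd2q0 pd2 true false false .pp 2 0 2
    ndB0q2 ndB2q0 pcB2 cut_mm_202 Ext.none :=
  certB0 (fam := true) (s1 := false) (s2 := false) (a := 2) (b := 0) (c := 2) (cn := .pp) (n1 := ndB0q2) (n2 := ndB2q0) (pc := pcB2) (cut := cut_mm_202) (xt := Ext.none) (P1 := 0) (W1 := 536870912) (P2 := 0) (W2 := 536870912) (P3 := 1020054732) (W3 := 13421774) (N0 := 3) (En := eng) (mo := mog) (C1 := cd0q2) (C2 := cd2q0) (C3 := pd2)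
    rfl s14_mm_202

noncomputable def f_mm_203 : ℕ → ℕ → ℕ → ℕ → Bool := onCell 0 536870912 1610612736 536870912 1020054732 13421774
    (rowB 3 eng mog cd0q2 cd2q0 pd3 1 true false false .up 2 0 3 (qsf 0 536870912 0 536870912 3) ndB0q2 ndB2q0 pcB3 Cut.none Ext.none)

def k0_mm_203 : ∃ t, chk3 f_mm_203 t 1 1 1 = true :=
  ⟨(a (b (l 4) (l 2)) (l 4)), by decide +kernel⟩

theorem c_mm_203 : CertB 0 536870912 0 536870912 1020054732 13421774 3 eng mog cd0q2 cd2q0 pd3 true false false .up 2 0 3
    ndB0q2 ndB2q0 pcB3 Cut.none Ext.none :=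
  certB1 (fam := true) (s1 := false) (s2 := false) (a := 2) (b := 0) (c := 3) (cn := .up) (n1 := ndB0q2) (n2 := ndB2q0) (pc := pcB3) (cut := Cut.none) (xt := Ext.none) (P1 := 0) (W1 := 536870912) (P2 := 0) (W2 := 536870912) (P3 := 1020054732) (W3 := 13421774) (N0 := 3) (En := eng) (mo := mog) (C1 := cd0q2) (C2 := cd2q0) (C3 := pd3)
    rfl (fun _ => rfl) k0_mm_203

noncomputable def f_mm_213 : ℕ → ℕ → ℕ → ℕ → Bool := onCell 0 536870912 536870912 536870912 1020054732 13421774
    (rowB 3 eng mog cd0q2 cd2q1 pd3 0 true false false .pnn 2 1 3 (qsf 0 536870912 536870912 536870912 3) ndB0q2 ndB2q1 pcB3 Cut.none Ext.none)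

def k0_mm_213 : ∃ t, chk3 f_mm_213 t 1 1 1 = true :=
  ⟨(l 4), by decide +kernel⟩

theorem c_mm_213 : CertB 0 536870912 536870912 536870912 1020054732 13421774 3 eng mog cd0q2 cd2q1 pd3 true false false .pnn 2 1 3
    ndB0q2 ndB2q1 pcB3 Cut.none Ext.none :=
  certB0 (fam := true) (s1 := false) (s2 := false) (a := 2) (b := 1) (c := 3) (cn := .pnn) (n1 := ndB0q2) (n2 := ndB2q1) (pc := pcB3) (cut := Cut.none) (xt := Ext.none) (P1 := 0) (W1 := 536870912) (P2 := 536870912) (W2 := 536870912) (P3 := 1020054732) (W3 := 13421774) (N0 := 3) (En := eng) (mo := mog) (C1 := cd0q2) (C2 := cd2q1) (C3 := pd3)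
    rfl k0_mm_213

end Pool.Agent.Strip051.G.I9500_9625.Tab.C.BA02

namespace Pool.Agent.Strip051.G.I9500_9625.Tab.C.BA03

open Pool.Agent.Strip051.PB Pool.Agent.Strip051.PB.T
open Pool.Agent.Strip051.G.I9500_9625.Tab

noncomputable def f_pp_001 : ℕ → ℕ → ℕ → ℕ → Bool := onCell 0 536870912 0 536870912 1020054732 13421774
    (rowB 3 eng mog cd0q0 cd3q0 pd1 0 true true true .up 0 0 1 (qsf 0 536870912 0 536870912 1) ndB0q0 ndB3q0 pcB1 Cut.none Ext.none)

def k0_pp_001 : ∃ t, chk3 f_pp_001 t 1 1 1 = true :=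
  ⟨(l 4), by decide +kernel⟩

theorem c_pp_001 : CertB 0 536870912 0 536870912 1020054732 13421774 3 eng mog cd0q0 cd3q0 pd1 true true true .up 0 0 1
    ndB0q0 ndB3q0 pcB1 Cut.none Ext.none :=
  certB0 (fam := true) (s1 := true) (s2 := true) (a := 0) (b := 0) (c := 1) (cn := .up) (n1 := ndB0q0) (n2 := ndB3q0) (pc := pcB1) (cut := Cut.none) (xt := Ext.none) (P1 := 0) (W1 := 536870912) (P2 := 0) (W2 := 536870912) (P3 := 1020054732) (W3 := 13421774) (N0 := 3) (En := eng) (mo := mog) (C1 := cd0q0) (C2 := cd3q0) (C3 := pd1)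
    rfl k0_pp_001

noncomputable def f_pp_011 : ℕ → ℕ → ℕ → ℕ → Bool := onCell 0 536870912 536870912 536870912 1020054732 13421774
    (rowB 3 eng mog cd0q0 cd3q1 pd1 0 true true true .pnn 0 1 1 (qsf 0 536870912 536870912 536870912 1) ndB0q0 ndB3q1 pcB1 Cut.none Ext.none)

def k0_pp_011 : ∃ t, chk3 f_pp_011 t 1 1 1 = true :=
  ⟨(l 4), by decide +kernel⟩

theorem c_pp_011 : CertB 0 536870912 536870912 536870912 1020054732 13421774 3 eng mog cd0q0 cd3q1 pd1 true true true .pnn 0 1 1
    ndB0q0 ndB3q1 pcB1 Cut.none Ext.none :=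
  certB0 (fam := true) (s1 := true) (s2 := true) (a := 0) (b := 1) (c := 1) (cn := .pnn) (n1 := ndB0q0) (n2 := ndB3q1) (pc := pcB1) (cut := Cut.none) (xt := Ext.none) (P1 := 0) (W1 := 536870912) (P2 := 536870912) (W2 := 536870912) (P3 := 1020054732) (W3 := 13421774) (N0 := 3) (En := eng) (mo := mog) (C1 := cd0q0) (C2 := cd3q1) (C3 := pd1)
    rfl k0_pp_011

noncomputable def f_pp_012 : ℕ → ℕ → ℕ → ℕ → Bool := onCell 0 536870912 536870912 536870912 1020054732 13421774
    (rowB 3 eng mog cd0q0 cd3q1 pd2 0 true true true .pnp 0 1 2 (qsf 0 536870912 536870912 536870912 2) ndB0q0 ndB3q1 pcB2 Cut.none Ext.none)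

def k0_pp_012 : ∃ t, chk3 f_pp_012 t 1 1 1 = true :=
  ⟨(l 4), by decide +kernel⟩

theorem c_pp_012 : CertB 0 536870912 536870912 536870912 1020054732 13421774 3 eng mog cd0q0 cd3q1 pd2 true true true .pnp 0 1 2
    ndB0q0 ndB3q1 pcB2 Cut.none Ext.none :=
  certB0 (fam := true) (s1 := true) (s2 := true) (a := 0) (b := 1) (c := 2) (cn := .pnp) (n1 := ndB0q0) (n2 := ndB3q1) (pc := pcB2) (cut := Cut.none) (xt := Ext.none) (P1 := 0) (W1 := 536870912) (P2 := 536870912) (W2 := 536870912) (P3 := 1020054732) (W3 := 13421774) (N0 := 3) (En := eng) (mo := mog) (C1 := cd0q0) (C2 := cd3q1) (C3 := pd2)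
    rfl k0_pp_012

noncomputable def f_pp_022 : ℕ → ℕ → ℕ → ℕ → Bool := onCell 0 536870912 1073741824 536870912 1020054732 13421774
    (rowB 3 eng mog cd0q0 cd3q2 pd2 0 true true true .pp 0 2 2 (qsf 0 536870912 1073741824 536870912 2) ndB0q0 ndB3q2 pcB2 Cut.none Ext.none)

def k0_pp_022 : ∃ t, chk3 f_pp_022 t 1 1 1 = true :=
  ⟨(a (l 4) (l 4)), by decide +kernel⟩

theorem c_pp_022 : CertB 0 536870912 1073741824 536870912 1020054732 13421774 3 eng mog cd0q0 cd3q2 pd2 true true true .pp 0 2 2
    ndB0q0 ndB3q2 pcB2 Cut.none Ext.none :=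
  certB0 (fam := true) (s1 := true) (s2 := true) (a := 0) (b := 2) (c := 2) (cn := .pp) (n1 := ndB0q0) (n2 := ndB3q2) (pc := pcB2) (cut := Cut.none) (xt := Ext.none) (P1 := 0) (W1 := 536870912) (P2 := 1073741824) (W2 := 536870912) (P3 := 1020054732) (W3 := 13421774) (N0 := 3) (En := eng) (mo := mog) (C1 := cd0q0) (C2 := cd3q2) (C3 := pd2)
    rfl k0_pp_022

noncomputable def f_pp_023 : ℕ → ℕ → ℕ → ℕ → Bool := onCell 1610612736 536870912 1073741824 536870912 1020054732 13421774
    (rowB 3 eng mog cd0q0 cd3q2 pd3 2 true true true .up 0 2 3 (qsf 0 536870912 1073741824 536870912 3) ndB0q0 ndB3q2 pcB3 Cut.none Ext.none)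

def k0_pp_023 : ∃ t, chk3 f_pp_023 t 1 1 1 = true :=
  ⟨(l 4), by decide +kernel⟩

theorem c_pp_023 : CertB 0 536870912 1073741824 536870912 1020054732 13421774 3 eng mog cd0q0 cd3q2 pd3 true true true .up 0 2 3
    ndB0q0 ndB3q2 pcB3 Cut.none Ext.none :=
  certB2 (fam := true) (s1 := true) (s2 := true) (a := 0) (b := 2) (c := 3) (cn := .up) (n1 := ndB0q0) (n2 := ndB3q2) (pc := pcB3) (cut := Cut.none) (xt := Ext.none) (P1 := 0) (W1 := 536870912) (P2 := 1073741824) (W2 := 536870912) (P3 := 1020054732) (W3 := 13421774) (N0 := 3) (En := eng) (mo := mog) (C1 := cd0q0) (C2 := cd3q2) (C3 := pd3)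
    rfl (fun _ => rfl) k0_pp_023

noncomputable def f_pp_033 : ℕ → ℕ → ℕ → ℕ → Bool := onCell 0 536870912 0 1230186008 1020054732 13421774
    (rowB 3 eng mog cd0q0 cd3q3 pd3 0 true true true .pnn 0 3 3 (qsf 0 536870912 0 1230186008 3) ndB0q0 ndB3q3 pcB3 Cut.none Ext.none)

def k0_pp_033 : ∃ t, chk3 f_pp_033 t 1 1 1 = true :=
  ⟨(b (l 4) (l 4)), by decide +kernel⟩

theorem c_pp_033 : CertB 0 536870912 0 1230186008 1020054732 13421774 3 eng mog cd0q0 cd3q3 pd3 true true true .pnn 0 3 3
    ndB0q0 ndB3q3 pcB3 Cut.none Ext.none :=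
  certB0 (fam := true) (s1 := true) (s2 := true) (a := 0) (b := 3) (c := 3) (cn := .pnn) (n1 := ndB0q0) (n2 := ndB3q3) (pc := pcB3) (cut := Cut.none) (xt := Ext.none) (P1 := 0) (W1 := 536870912) (P2 := 0) (W2 := 1230186008) (P3 := 1020054732) (W3 := 13421774) (N0 := 3) (En := eng) (mo := mog) (C1 := cd0q0) (C2 := cd3q3) (C3 := pd3)
    rfl k0_pp_033

noncomputable def f_pp_101 : ℕ → ℕ → ℕ → ℕ → Bool := onCell 536870912 536870912 0 536870912 1020054732 13421774
    (rowB 3 eng mog cd0q1 cd3q0 pd1 0 true true true .npn 1 0 1 (qsf 536870912 536870912 0 536870912 1) ndB0q1 ndB3q0 pcB1 Cut.none Ext.none)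

def k0_pp_101 : ∃ t, chk3 f_pp_101 t 1 1 1 = true :=
  ⟨(l 5), by decide +kernel⟩

theorem c_pp_101 : CertB 536870912 536870912 0 536870912 1020054732 13421774 3 eng mog cd0q1 cd3q0 pd1 true true true .npn 1 0 1
    ndB0q1 ndB3q0 pcB1 Cut.none Ext.none :=
  certB0 (fam := true) (s1 := true) (s2 := true) (a := 1) (b := 0) (c := 1) (cn := .npn) (n1 := ndB0q1) (n2 := ndB3q0) (pc := pcB1) (cut := Cut.none) (xt := Ext.none) (P1 := 536870912) (W1 := 536870912) (P2 := 0) (W2 := 536870912) (P3 := 1020054732) (W3 := 13421774) (N0 := 3) (En := eng) (mo := mog) (C1 := cd0q1) (C2 := cd3q0) (C3 := pd1)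
    rfl k0_pp_101

noncomputable def f_pp_102 : ℕ → ℕ → ℕ → ℕ → Bool := onCell 536870912 536870912 0 536870912 1020054732 13421774
    (rowB 3 eng mog cd0q1 cd3q0 pd2 0 true true true .npp 1 0 2 (qsf 536870912 536870912 0 536870912 2) ndB0q1 ndB3q0 pcB2 Cut.none Ext.none)

def k0_pp_102 : ∃ t, chk3 f_pp_102 t 1 1 1 = true :=
  ⟨(l 5), by decide +kernel⟩

theorem c_pp_102 : CertB 536870912 536870912 0 536870912 1020054732 13421774 3 eng mog cd0q1 cd3q0 pd2 true true true .npp 1 0 2
    ndB0q1 ndB3q0 pcB2 Cut.none Ext.none :=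
  certB0 (fam := true) (s1 := true) (s2 := true) (a := 1) (b := 0) (c := 2) (cn := .npp) (n1 := ndB0q1) (n2 := ndB3q0) (pc := pcB2) (cut := Cut.none) (xt := Ext.none) (P1 := 536870912) (W1 := 536870912) (P2 := 0) (W2 := 536870912) (P3 := 1020054732) (W3 := 13421774) (N0 := 3) (En := eng) (mo := mog) (C1 := cd0q1) (C2 := cd3q0) (C3 := pd2)
    rfl k0_pp_102

noncomputable def f_pp_112 : ℕ → ℕ → ℕ → ℕ → Bool := onCell 536870912 536870912 536870912 536870912 1020054732 13421774
    (rowB 3 eng mog cd0q1 cd3q1 pd2 0 true true true .dn 1 1 2 (qsf 536870912 536870912 536870912 536870912 2) ndB0q1 ndB3q1 pcB2 Cut.none Ext.none)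

def k0_pp_112 : ∃ t, chk3 f_pp_112 t 1 1 1 = true :=
  ⟨(l 4), by decide +kernel⟩

theorem c_pp_112 : CertB 536870912 536870912 536870912 536870912 1020054732 13421774 3 eng mog cd0q1 cd3q1 pd2 true true true .dn 1 1 2
    ndB0q1 ndB3q1 pcB2 Cut.none Ext.none :=
  certB0 (fam := true) (s1 := true) (s2 := true) (a := 1) (b := 1) (c := 2) (cn := .dn) (n1 := ndB0q1) (n2 := ndB3q1) (pc := pcB2) (cut := Cut.none) (xt := Ext.none) (P1 := 536870912) (W1 := 536870912) (P2 := 536870912) (W2 := 536870912) (P3 := 1020054732) (W3 := 13421774) (N0 := 3) (En := eng) (mo := mog) (C1 := cd0q1) (C2 := cd3q1) (C3 := pd2)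
    rfl k0_pp_112

noncomputable def f_pp_113 : ℕ → ℕ → ℕ → ℕ → Bool := onCell 536870912 536870912 536870912 536870912 1020054732 13421774
    (rowB 3 eng mog cd0q1 cd3q1 pd3 0 true true true .nn 1 1 3 (qsf 536870912 536870912 536870912 536870912 3) ndB0q1 ndB3q1 pcB3 Cut.none Ext.none)

def k0_pp_113 : ∃ t, chk3 f_pp_113 t 1 1 1 = true :=
  ⟨(l 4), by decide +kernel⟩

theorem c_pp_113 : CertB 536870912 536870912 536870912 536870912 1020054732 13421774 3 eng mog cd0q1 cd3q1 pd3 true true true .nn 1 1 3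
    ndB0q1 ndB3q1 pcB3 Cut.none Ext.none :=
  certB0 (fam := true) (s1 := true) (s2 := true) (a := 1) (b := 1) (c := 3) (cn := .nn) (n1 := ndB0q1) (n2 := ndB3q1) (pc := pcB3) (cut := Cut.none) (xt := Ext.none) (P1 := 536870912) (W1 := 536870912) (P2 := 536870912) (W2 := 536870912) (P3 := 1020054732) (W3 := 13421774) (N0 := 3) (En := eng) (mo := mog) (C1 := cd0q1) (C2 := cd3q1) (C3 := pd3)
    rfl k0_pp_113

noncomputable def f_pp_123 : ℕ → ℕ → ℕ → ℕ → Bool := onCell 536870912 536870912 1073741824 536870912 1020054732 13421774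
    (rowB 3 eng mog cd0q1 cd3q2 pd3 0 true true true .npn 1 2 3 (qsf 536870912 536870912 1073741824 536870912 3) ndB0q1 ndB3q2 pcB3 Cut.none Ext.none)

def k0_pp_123 : ∃ t, chk3 f_pp_123 t 1 1 1 = true :=
  ⟨(l 4), by decide +kernel⟩

theorem c_pp_123 : CertB 536870912 536870912 1073741824 536870912 1020054732 13421774 3 eng mog cd0q1 cd3q2 pd3 true true true .npn 1 2 3
    ndB0q1 ndB3q2 pcB3 Cut.none Ext.none :=
  certB0 (fam := true) (s1 := true) (s2 := true) (a := 1) (b := 2) (c := 3) (cn := .npn) (n1 := ndB0q1) (n2 := ndB3q2) (pc := pcB3) (cut := Cut.none) (xt := Ext.none) (P1 := 536870912) (W1 := 536870912) (P2 := 1073741824) (W2 := 536870912) (P3 := 1020054732) (W3 := 13421774) (N0 := 3) (En := eng) (mo := mog) (C1 := cd0q1) (C2 := cd3q2) (C3 := pd3)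
    rfl k0_pp_123

noncomputable def f_pp_133 : ℕ → ℕ → ℕ → ℕ → Bool := onCell 536870912 536870912 0 1230186008 1020054732 13421774
    (rowB 3 eng mog cd0q1 cd3q3 pd3 0 true true true .dn 1 3 3 (qsf 536870912 536870912 0 1230186008 3) ndB0q1 ndB3q3 pcB3 Cut.none Ext.none)

def k0_pp_133 : ∃ t, chk3 f_pp_133 t 1 1 1 = true :=
  ⟨(b (l 2) (l 4)), by decide +kernel⟩

theorem c_pp_133 : CertB 536870912 536870912 0 1230186008 1020054732 13421774 3 eng mog cd0q1 cd3q3 pd3 true true true .dn 1 3 3
    ndB0q1 ndB3q3 pcB3 Cut.none Ext.none :=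
  certB0 (fam := true) (s1 := true) (s2 := true) (a := 1) (b := 3) (c := 3) (cn := .dn) (n1 := ndB0q1) (n2 := ndB3q3) (pc := pcB3) (cut := Cut.none) (xt := Ext.none) (P1 := 536870912) (W1 := 536870912) (P2 := 0) (W2 := 1230186008) (P3 := 1020054732) (W3 := 13421774) (N0 := 3) (En := eng) (mo := mog) (C1 := cd0q1) (C2 := cd3q3) (C3 := pd3)
    rfl k0_pp_133

noncomputable def f_pp_202 : ℕ → ℕ → ℕ → ℕ → Bool := onCell 0 536870912 0 536870912 1020054732 13421774
    (rowB 3 eng mog cd0q2 cd3q0 pd2 0 true true true .pp 2 0 2 (qsf 0 536870912 0 536870912 2) ndB0q2 ndB3q0 pcB2 Cut.none Ext.none)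

def k0_pp_202 : ∃ t, chk3 f_pp_202 t 1 1 1 = true :=
  ⟨(l 5), by decide +kernel⟩

theorem c_pp_202 : CertB 0 536870912 0 536870912 1020054732 13421774 3 eng mog cd0q2 cd3q0 pd2 true true true .pp 2 0 2
    ndB0q2 ndB3q0 pcB2 Cut.none Ext.none :=
  certB0 (fam := true) (s1 := true) (s2 := true) (a := 2) (b := 0) (c := 2) (cn := .pp) (n1 := ndB0q2) (n2 := ndB3q0) (pc := pcB2) (cut := Cut.none) (xt := Ext.none) (P1 := 0) (W1 := 536870912) (P2 := 0) (W2 := 536870912) (P3 := 1020054732) (W3 := 13421774) (N0 := 3) (En := eng) (mo := mog) (C1 := cd0q2) (C2 := cd3q0) (C3 := pd2)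
    rfl k0_pp_202

noncomputable def f_pp_203 : ℕ → ℕ → ℕ → ℕ → Bool := onCell 0 536870912 0 536870912 1020054732 13421774
    (rowB 3 eng mog cd0q2 cd3q0 pd3 0 true true true .up 2 0 3 (qsf 0 536870912 0 536870912 3) ndB0q2 ndB3q0 pcB3 Cut.none Ext.none)

def k0_pp_203 : ∃ t, chk3 f_pp_203 t 1 1 1 = true :=
  ⟨(l 5), by decide +kernel⟩

theorem c_pp_203 : CertB 0 536870912 0 536870912 1020054732 13421774 3 eng mog cd0q2 cd3q0 pd3 true true true .up 2 0 3
    ndB0q2 ndB3q0 pcB3 Cut.none Ext.none :=
  certB0 (fam := true) (s1 := true) (s2 := true) (a := 2) (b := 0) (c := 3) (cn := .up) (n1 := ndB0q2) (n2 := ndB3q0) (pc := pcB3) (cut := Cut.none) (xt := Ext.none) (P1 := 0) (W1 := 536870912) (P2 := 0) (W2 := 536870912) (P3 := 1020054732) (W3 := 13421774) (N0 := 3) (En := eng) (mo := mog) (C1 := cd0q2) (C2 := cd3q0) (C3 := pd3)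
    rfl k0_pp_203

noncomputable def f_pp_213 : ℕ → ℕ → ℕ → ℕ → Bool := onCell 0 536870912 536870912 536870912 1020054732 13421774
    (rowB 3 eng mog cd0q2 cd3q1 pd3 0 true true true .pnn 2 1 3 (qsf 0 536870912 536870912 536870912 3) ndB0q2 ndB3q1 pcB3 Cut.none Ext.none)

def k0_pp_213 : ∃ t, chk3 f_pp_213 t 1 1 1 = true :=
  ⟨(l 4), by decide +kernel⟩

theorem c_pp_213 : CertB 0 536870912 536870912 536870912 1020054732 13421774 3 eng mog cd0q2 cd3q1 pd3 true true true .pnn 2 1 3
    ndB0q2 ndB3q1 pcB3 Cut.none Ext.none :=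
  certB0 (fam := true) (s1 := true) (s2 := true) (a := 2) (b := 1) (c := 3) (cn := .pnn) (n1 := ndB0q2) (n2 := ndB3q1) (pc := pcB3) (cut := Cut.none) (xt := Ext.none) (P1 := 0) (W1 := 536870912) (P2 := 536870912) (W2 := 536870912) (P3 := 1020054732) (W3 := 13421774) (N0 := 3) (En := eng) (mo := mog) (C1 := cd0q2) (C2 := cd3q1) (C3 := pd3)
    rfl k0_pp_213

noncomputable def f_pm_001 : ℕ → ℕ → ℕ → ℕ → Bool := onCell 0 536870912 536870912 536870912 1020054732 13421774
    (rowB 3 eng mog cd0q0 cd3q0 pd1 1 true true false .up 0 0 1 (qsf 0 536870912 0 536870912 1) ndB0q0 ndB3q0 pcB1 Cut.none Ext.none)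

def k0_pm_001 : ∃ t, chk3 f_pm_001 t 1 1 1 = true :=
  ⟨(b (l 3) (b (l 3) (a (l 2) (b (l 3) (a (l 2) (b (l 3) (a (l 2) (b (l 3) (a (l 2) (b (l 3) (a (l 2) (a (a (l 2) (b (a (l 2) (c (c (l 15155288) (l 15234576)) (l 141361969175))) (l 2))) (c (b (b (c (l 148877704919) (l 15233120)) (l 15146928)) (l 15140216)) (b (b (a (l 15344888) (l 15341832)) (l 15338936)) (l 15332608))))))))))))))), by decide +kernel⟩

theorem c_pm_001 : CertB 0 536870912 0 536870912 1020054732 13421774 3 eng mog cd0q0 cd3q0 pd1 true true false .up 0 0 1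
    ndB0q0 ndB3q0 pcB1 Cut.none Ext.none :=
  certB1 (fam := true) (s1 := true) (s2 := false) (a := 0) (b := 0) (c := 1) (cn := .up) (n1 := ndB0q0) (n2 := ndB3q0) (pc := pcB1) (cut := Cut.none) (xt := Ext.none) (P1 := 0) (W1 := 536870912) (P2 := 0) (W2 := 536870912) (P3 := 1020054732) (W3 := 13421774) (N0 := 3) (En := eng) (mo := mog) (C1 := cd0q0) (C2 := cd3q0) (C3 := pd1)
    rfl (fun _ => rfl) k0_pm_001

noncomputable def cut_pm_011 : Cut := Cut.of [[⟨0, 0, 0, 38347922⟩, ⟨1, 1, 0, 38347922⟩, ⟨2, 1, 0, 38347922⟩]]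

noncomputable def xt_pm_011 : Ext := extD3 3 ⟨4, 1, 1, 5, 99, 20, 33, 40, 51, 125, 1, 32⟩ eng cd0q0 cd3q1 pd1 true true false .pnn 0 1 1 rfl ndB0q0 ndB3q1 pcB1

noncomputable def f_pm_011 : ℕ → ℕ → ℕ → ℕ → Bool := onCell 536870912 536870912 536870912 536870912 1020054732 13421774
    (rowB 3 eng mog cd0q0 cd3q1 pd1 2 true true false .pnn 0 1 1 (qsf 0 536870912 536870912 536870912 1) ndB0q0 ndB3q1 pcB1 cut_pm_011 xt_pm_011)

def k0_pm_011 : ∃ t, chk3 f_pm_011 t 1 1 1 = true :=
  ⟨(a (l 3) (a (l 3) (a (l 3) (a (l 3) (a (b (l 3) (l 3)) (a (b (b (b (b (l 3) (l 3)) (l 3)) (l 3)) (l 3)) (b (b (b (b (c (b (c (l 15429112) (l 15568136)) (c (l 15441048) (l 15581616))) (c (b (l 15711528) (l 15726432)) (b (l 15859312) (l 15875520)))) (c (b (c (l 15455800) (l 15597544)) (c (l 15473296) (l 15615848))) (b (c (l 15743416) (l 15893440)) (c (l 15762408) (l 15913000))))) (c (b (b (c (l 15493488) (l 15636480)) (c (l 15516320) (l 15659360))) (b (c (l 15541712) (l 15684424)) (c (l 15569608) (l 15711600)))) (b (b (c (l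 15783352) (l 15934120)) (l 158005566439)) (b (l 15716560) (l 15805336))))) (b (c (b (b (l 154247383207) (l 15659928)) (b (l 15735872) (l 15771856))) (b (b (l 15895552) (l 15966160)) (c (l 15961504) (l 16103984)))) (c (b (b (l 15809744) (l 15849440)) (l 240683707095)) (b (l 198808145431) (l 16018248))))) (b (b (c (b (b (l 15978520) (l 16024536)) (b (l 15967000) (l 256790397847))) (b (l 16110584) (l 277191809399))) (a (l 3) (c (b (b (l 15993176) (b (l 16177984) (l 16161656))) (b (b (l 16166528) (l 16150640)) (b (l 215451817735) (l 205251331175)))) (b (b (l 16337384) (l 16333672)) (b (l 16351104) (l 16368568)))))) (a (l 3) (b (b (b (c (b (l 203103908663) (c (l 16348640) (l 16416904))) (l 16406928)) (a (l 3) (c (b (l 16342592) (l 16348680)) (l 16462160)))) (a (l 3) (b (c (b (l 16375584) (l 227263420887)) (l 16499200)) (c (b (a (l 16452072) (l 16448160)) (l 140466217691758655)) (c (l 16574456) (l 16621360)))))) (a (l 3) (b (b (c (b (l 4238493923709585489880039487) (l 4306193769608367768712052799)) (l 141773056169771071))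 (a (l 3) (c (b (b (l 16567288) (l 16579344)) (b (l 4664035812215000111445819519) (l 6))) (l 5940661477728412595733495871)))) (l 6))))))))))))), by decide +kernel⟩

theorem c_pm_011 : CertB 0 536870912 536870912 536870912 1020054732 13421774 3 eng mog cd0q0 cd3q1 pd1 true true false .pnn 0 1 1
    ndB0q0 ndB3q1 pcB1 cut_pm_011 xt_pm_011 :=
  certB2 (fam := true) (s1 := true) (s2 := false) (a := 0) (b := 1) (c := 1) (cn := .pnn) (n1 := ndB0q0) (n2 := ndB3q1) (pc := pcB1) (cut := cut_pm_011) (xt := xt_pm_011) (P1 := 0) (W1 := 536870912) (P2 := 536870912) (W2 := 536870912) (P3 := 1020054732) (W3 := 13421774) (N0 := 3) (En := eng) (mo := mog) (C1 := cd0q0) (C2 := cd3q1) (C3 := pd1)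
    rfl (fun _ => rfl) k0_pm_011

noncomputable def cut_pm_012 : Cut := Cut.of [[⟨0, 0, 0, 38347922⟩, ⟨1, 1, 0, 38347922⟩, ⟨2, 1, 0, 38347922⟩]]

noncomputable def xt_pm_012 : Ext := extD3 3 ⟨4, 1, 1, 5, 99, 20, 33, 40, 51, 125, 1, 32⟩ eng cd0q0 cd3q1 pd2 true true false .pnp 0 1 2 rfl ndB0q0 ndB3q1 pcB2

noncomputable def f_pm_012 : ℕ → ℕ → ℕ → ℕ → Bool := onCell 1073741824 536870912 536870912 536870912 1020054732 13421774
    (rowB 3 eng mog cd0q0 cd3q1 pd2 2 true true false .pnp 0 1 2 (qsf 0 536870912 536870912 536870912 2) ndB0q0 ndB3q1 pcB2 cut_pm_012 xt_pm_012)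

def k0_pm_012 : ∃ t, chk3 f_pm_012 t 8 4 1 = true :=
  ⟨(b (b (b (a (a (c (a (c (l 15454536) (l 15588664)) (l 15552784)) (c (l 15739592) (l 15879584))) (a (c (l 15580160) (l 15838688)) (l 2))) (l 2)) (a (a (c (a (c (l 15465024) (l 15600824)) (l 15563392)) (c (l 15752960) (l 15894416))) (c (a (l 15590064) (l 15613224)) (c (l 15794432) (l 15927288)))) (a (c (l 15642680) (l 15827720)) (l 2)))) (a (c (a (c (b (a (l 15478360) (l 15511008)) (l 15448208)) (b (l 15629920) (l 15646656))) (c (b (l 15551216) (l 15565632)) (b (l 15678192) (l 15693616)))) (c (a (b (l 15768472) (l 15786048)) (b (l 15808656) (l 15825008))) (a (b (l 15911016) (l 15929320)) (l 15825176)))) (b (c (a (l 15653568) (l 15684160)) (a (l 15841304) (l 15928136))) (c (a (l 15667152) (l 15696344)) (a (l 15877848) (l 15942440)))))) (a (c (c (b (a (b (l 15508680) (l 15529904)) (b (l 15582824) (l 15602744))) (a (b (l 15574712) (l 15601104)) (l 15595504))) (b (a (b (l 15665768) (l 15687192)) (b (l 15711456) (l 15731656))) (a (b (l 15710856) (l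 15736688)) (l 15766080)))) (c (b (a (b (l 15805624) (l 15827136)) (l 15832272)) (a (b (l 15850504) (l 15875648)) (l 15897808))) (b (a (b (l 15949248) (l 15970728)) (l 15925792)) (a (b (l 15993680) (l 16018016)) (l 16032704))))) (c (b (a (c (l 15630600) (l 15754784)) (b (l 15711200) (l 15728664))) (a (c (l 15673192) (l 15797328)) (c (l 15699072) (l 15820488)))) (b (a (c (l 15881912) (l 16012112)) (c (l 15904440) (l 16031248))) (a (c (l 15924272) (l 16054152)) (c (l 15944480) (l 16071200))))))), by decide +kernel⟩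

def k1_pm_012 : ∃ t, chk3 f_pm_012 t 8 5 1 = true :=
  ⟨(b (a (c (b (a (b (c (l 15629968) (l 15764600)) (c (l 15661232) (l 15794528))) (c (l 15692776) (l 15819712))) (a (b (l 15571480) (l 15732080)) (c (l 15757696) (l 15881416)))) (b (a (b (l 15804896) (l 15874512)) (c (l 15949552) (l 16082352))) (a (a (l 15868040) (l 15947152)) (c (l 16007824) (l 16136976))))) (c (b (a (c (l 15726128) (l 15848752)) (l 15641456)) (a (b (l 15832368) (l 15865120)) (l 15826224))) (b (a (c (l 15974040) (l 16102096)) (l 15886616)) (a (l 15924816) (l 15981704))))) (b (a (c (a (a (l 15691232) (l 15820256)) (c (l 15831576) (l 15950512))) (a (c (l 16041872) (l 16172728)) (l 15944832))) (c (a (l 15833992) (l 15935648)) (c (l 15975112) (l 16093720)))) (a (c (a (c (l 15872224) (l 15991048)) (l 15822928)) (a (c (l 16112280) (l 16235936)) (l 16073608))) (a (c (l 15974144) (l 16112696)) (b (l 15849920) (l 15907136)))))), by decide +kernel⟩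

def k2_pm_012 : ∃ t, chk3 f_pm_012 t 9 2 1 = true :=
  ⟨(b (b (b (l 2) (a (a (a (c (l 15708312) (l 15949928)) (l 2)) (l 2)) (l 2))) (b (a (c (a (b (l 15732912) (l 15748952)) (b (l 15750536) (l 15764792))) (a (l 15816616) (l 15788112))) (a (c (l 15772408) (l 15941832)) (l 2))) (a (c (a (l 15756704) (l 15791472)) (a (l 15875240) (l 15928512))) (c (a (l 15802936) (l 15812256)) (a (l 15935168) (l 16019160)))))) (b (a (c (b (a (l 15824808) (l 15835704)) (a (l 15881280) (l 15889464))) (b (c (l 15947392) (l 16028384)) (a (l 16013208) (l 16020160)))) (c (b (a (l 15843296) (l 15849424)) (a (l 15894152) (l 15896832))) (b (a (l 15976712) (l 16038936)) (a (l 16024184) (l 16065688))))) (a (c (b (a (l 15946472) (l 15952120)) (a (l 16019712) (l 16023024))) (b (b (l 16037728) (l 16067192)) (a (l 16132472) (l 16177992)))) (c (b (a (l 15953968) (l 15952984)) (a (l 16022256) (l 16018512))) (b (b (l 16000576) (l 16070464)) (a (l 16199224) (l 16238600))))))), by decide +kernel⟩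

def k3_pm_012 : ∃ t, chk3 f_pm_012 t 8 6 1 = true :=
  ⟨(a (b (b (c (a (a (l 15880968) (l 15987416)) (l 15950608)) (a (l 16076152) (l 16164016))) (c (a (b (l 15983104) (a (l 16103264) (l 16146064))) (l 16000400)) (a (a (l 16204304) (l 16260768)) (l 16236272)))) (c (b (a (b (a (l 16068360) (l 16194800)) (a (c (l 16179256) (l 16267592)) (l 16223624))) (b (l 16219544) (l 16227088))) (a (a (b (b (l 16198480) (l 16203208)) (b (l 16208152) (c (l 16302552) (l 16375992)))) (b (l 16253416) (l 16263120))) (b (l 16235624) (l 16266056)))) (b (a (a (b (l 16323312) (l 16340080)) (l 16272520)) (l 16247816)) (a (b (a (l 16357032) (l 16413392)) (a (l 16374064) (l 16430496))) (b (l 16388736) (l 16405936)))))) (b (c (b (b (l 15961064) (l 16025360)) (a (l 16127792) (l 16182408))) (b (a (l 16181336) (l 16192648)) (a (l 16253032) (l 16305664)))) (b (a (b (l 16137856) (l 16181224)) (a (l 16126240) (l 16129952))) (a (b (l 16225320) (l 16249056)) (c (l 16271440) (l 16414096)))))), by decide +kernel⟩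

def k4_pm_012 : ∃ t, chk3 f_pm_012 t 8 14 1 = true :=
  ⟨(a (a (b (c (a (a (b (b (l 16317520) (l 16344016)) (b (l 16349752) (l 16376488))) (b (l 16300352) (l 16332696))) (b (l 16315560) (l 16347952))) (b (a (l 16391040) (l 16468568)) (a (a (l 16466672) (l 16495736)) (l 16485768)))) (c (a (a (b (b (l 16403168) (l 16408720)) (b (a (l 16473968) (l 16501152)) (l 140713195502846015))) (b (b (l 16456760) (l 16483376)) (c (l 16501680) (l 16565656)))) (b (a (l 16438520) (l 16468864)) (c (l 16497168) (l 16559304)))) (a (b (b (l 16519664) (l 16537744)) (b (l 16534512) (a (l 16589440) (l 16598240)))) (b (l 16523080) (l 16559360))))) (b (a (c (b (l 16395200) (l 16427256)) (l 16415864)) (b (l 16323320) (l 16368968))) (b (a (b (l 16433728) (l 16456584)) (l 16436048)) (a (b (l 16479352) (l 16522784)) (l 16481736))))) (b (a (b (l 16294280) (l 16339920)) (a (l 16325200) (l 16302288))) (a (b (a (l 16466032) (l 16456064)) (b (l 16399152) (l 16408952))) (b (l 16305336) (l 16300336))))), by decide +kernel⟩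

def k5_pm_012 : ∃ t, chk3 f_pm_012 t 8 15 1 = true :=
  ⟨(a (b (b (a (a (a (a (b (l 140884306997821503) (l 141114929604902975)) (l 140701307021606975)) (l 140789817723945023)) (l 140781159014121535)) (l 140483191274487871)) (a (a (a (a (c (b (l 141524841393487935) (a (b (l 16614376) (l 16605792)) (l 141986567653326975))) (l 142101397891530815)) (b (l 141572120378720319) (l 141774774153904191))) (b (l 141669221017239615) (l 141872768145801279))) (a (l 141707703878369343) (l 141648880027091007))) (a (l 141311329841627199) (l 141013362156437567)))) (a (b (a (a (l 6) (b (l 142084630332588287) (l 6))) (a (b (l 142384453430968575) (l 6)) (l 142248045189709951))) (l 6)) (b (a (a (l 142116516087824511) (l 141922383544041599)) (l 141043804896493695)) (a (b (l 141849884510077055) (l 6)) (b (l 141672588217565311) (b (l 141984505911984255) (l 6))))))) (b (a (b (l 140028611847831615) (l 140163302063767615)) (l 138374602536484927)) (a (b (a (l 140775042988179583) (l 140554384676683903)) (b (l 140166050857336959)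 (b (l 140646881109622911) (a (a (l 16518440) (l 16487864)) (l 16442456))))) (b (l 139415496629862527) (b (l 139931511140548735) (a (a (l 16401352) (l 16373416)) (l 16333048))))))), by decide +kernel⟩

def k6_pm_012 : ∃ t, chk3 f_pm_012 t 9 3 1 = true :=
  ⟨(b (b (b (a (c (a (l 16100320) (l 16101496)) (l 16095576)) (c (l 15885224) (l 16135176))) (a (c (l 15998664) (l 16207296)) (a (l 16024712) (l 16017392)))) (b (a (c (l 16091048) (l 16214232)) (c (l 16118424) (l 16105296))) (a (c (l 16188536) (l 16174640)) (c (l 16233600) (c (l 16293488) (l 16175176)))))) (b (a (b (a (b (l 16319992) (l 16291960)) (a (l 16207856) (l 16171648))) (c (a (l 16343904) (l 16309488)) (a (l 16279120) (l 16236840)))) (b (a (l 16077352) (l 16010496)) (c (b (a (l 16322480) (l 16256648)) (l 16160896)) (a (l 16177624) (l 16101064))))) (a (b (a (l 137840652055838783) (l 137575326108991551)) (b (l 136758938587037823) (a (c (l 16177648) (l 16234080)) (a (l 16191024) (l 16144832))))) (b (a (l 137006947193143359) (c (l 16140192) (l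 16043216))) (a (b (l 16114792) (l 15994400)) (b (l 16033496) (l 15994168))))))), by decide +kernel⟩

def k7_pm_012 : ∃ t, chk3 f_pm_012 t 5 2 1 = true :=
  ⟨(b (a (a (b (l 2) (b (l 2) (c (l 15820848) (l 16031928)))) (l 2)) (l 2)) (a (b (c (a (b (l 15853192) (l 15895656)) (b (l 15848280) (l 15884320))) (a (b (l 16049104) (l 16073640)) (b (l 16042536) (l 16084352)))) (a (a (c (b (l 15950752) (l 16012872)) (a (l 15952968) (l 16010992))) (c (l 15763304) (l 15999920))) (b (c (l 15930240) (l 16133336)) (c (l 15985456) (l 16188896))))) (b (a (b (l 2) (l 15823400)) (l 2)) (a (b (l 15823848) (l 15853584)) (c (l 15837608) (l 15791120)))))), by decide +kernel⟩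

def k8_pm_012 : ∃ t, chk3 f_pm_012 t 5 3 1 = true :=
  ⟨(b (a (a (a (b (b (a (l 16001080) (l 15996480)) (l 16007312)) (b (c (l 16245384) (l 16161512)) (c (l 16336120) (l 16106072)))) (b (a (b (l 15991128) (l 16061424)) (a (c (l 15939408) (l 16031800)) (b (l 16086768) (a (l 16074768) (l 15989176))))) (a (b (l 16047192) (l 15997768)) (c (a (l 16164552) (c (l 15992528) (l 16097336))) (a (l 15963256) (b (l 16020088) (l 16022288))))))) (b (b (c (l 16049352) (l 16119368)) (c (l 16121048) (l 16023216))) (b (c (l 16200128) (c (l 16127968) (l 16004640))) (c (l 16158080) (l 15916448))))) (b (b (a (l 15849112) (l 15829312)) (c (l 15835712) (a (l 16018864) (l 15959488)))) (b (c (a (l 16149264) (l 16085024)) (a (l 15926152) (l 15890456))) (a (c (l 16126032) (l 15857104)) (c (l 16041504) (l 15791208)))))) (a (a (b (b (a (l 15946784) (a (l 15963616) (a (l 15962128) (a (l 15951112) (l 15922864))))) (a (c (l 16128856) (l 16027784)) (a (l 15966760) (a (l 15963824) (c (l 16005072) (l 15931816)))))) (a (b (c (l 16072368)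 (l 15964664)) (b (l 15956400) (l 15914320))) (a (b (l 15924336) (l 15858288)) (b (a (l 15940784) (c (l 15985616) (l 15861896))) (a (l 15852040) (c (l 15877800) (l 15790568))))))) (b (b (c (l 16041864) (l 15909104)) (b (l 15858432) (l 15834464))) (b (c (l 15915232) (l 15782432)) (b (l 15777904) (l 15729616))))) (b (c (b (a (l 15960672) (l 15934728)) (a (l 15850624) (l 15796728))) (a (b (l 15776712) (l 15734664)) (b (l 15725720) (l 15632136)))) (b (a (c (l 15796728) (l 15648680)) (c (l 15691672) (l 15533160))) (a (b (l 15644696) (l 15591584)) (b (l 15525088) (l 15466320))))))), by decide +kernel⟩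

def k9_pm_012 : ∃ t, chk3 f_pm_012 t 3 1 1 = true :=
  ⟨(b (a (b (l 2) (a (b (l 2) (a (c (l 15825008) (l 15816904)) (l 2))) (l 2))) (l 2)) (a (b (a (b (a (b (l 15838880) (c (l 15945328) (l 15884888))) (c (l 15838240) (l 15633280))) (b (a (c (l 16008800) (l 15815472)) (l 15638712)) (a (c (l 15964680) (l 15735240)) (c (l 15893976) (l 15666528))))) (b (a (b (l 2) (l 15829520)) (l 2)) (b (a (l 15697072) (l 15734984)) (a (l 15570376) (l 15613904))))) (b (a (b (c (a (l 15855472) (l 15784288)) (a (l 15645296) (l 15575224))) (a (l 15410864) (l 15358744))) (b (a (l 15429032) (l 15455360)) (c (a (l 15596648) (l 15538688)) (l 15154528)))) (a (b (a (l 15291976) (l 15256808)) (a (c (l 15462616) (l 15327960)) (l 15124504))) (a (b (l 15254240) (l 15160272)) (b (l 15219800) (l 15145288)))))) (b (a (b (l 2) (a (b (l 2) (l 15595168)) (l 2))) (l 2)) (a (b (b (a (l 15505944) (l 15452472)) (a (l 15357656) (l 15353336))) (b (a (l 15193584) (l 15236408)) (a (l 15140824) (l 15103040)))) (b (a (b (l 2) (l 15308048)) (l 2))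 (b (a (l 15199136) (l 15163032)) (a (l 15050752) (l 15044448)))))))), by decide +kernel⟩

theorem s10_pm_012 : ∃ t, chk3 f_pm_012 t 5 1 1 = true := ex3_b k7_pm_012 k8_pm_012

theorem s11_pm_012 : ∃ t, chk3 f_pm_012 t 8 7 1 = true := ex3_b k4_pm_012 k5_pm_012

theorem s12_pm_012 : ∃ t, chk3 f_pm_012 t 8 3 1 = true := ex3_b k3_pm_012 s11_pm_012

theorem s13_pm_012 : ∃ t, chk3 f_pm_012 t 4 3 1 = true := ex3_a s12_pm_012 k6_pm_012

theorem s14_pm_012 : ∃ t, chk3 f_pm_012 t 8 2 1 = true := ex3_b k0_pm_012 k1_pm_012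

theorem s15_pm_012 : ∃ t, chk3 f_pm_012 t 4 2 1 = true := ex3_a s14_pm_012 k2_pm_012

theorem s16_pm_012 : ∃ t, chk3 f_pm_012 t 4 1 1 = true := ex3_b s15_pm_012 s13_pm_012

theorem s17_pm_012 : ∃ t, chk3 f_pm_012 t 2 1 1 = true := ex3_a s16_pm_012 s10_pm_012

theorem s18_pm_012 : ∃ t, chk3 f_pm_012 t 1 1 1 = true := ex3_a s17_pm_012 k9_pm_012

theorem c_pm_012 : CertB 0 536870912 536870912 536870912 1020054732 13421774 3 eng mog cd0q0 cd3q1 pd2 true true false .pnp 0 1 2
    ndB0q0 ndB3q1 pcB2 cut_pm_012 xt_pm_012 :=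
  certB2 (fam := true) (s1 := true) (s2 := false) (a := 0) (b := 1) (c := 2) (cn := .pnp) (n1 := ndB0q0) (n2 := ndB3q1) (pc := pcB2) (cut := cut_pm_012) (xt := xt_pm_012) (P1 := 0) (W1 := 536870912) (P2 := 536870912) (W2 := 536870912) (P3 := 1020054732) (W3 := 13421774) (N0 := 3) (En := eng) (mo := mog) (C1 := cd0q0) (C2 := cd3q1) (C3 := pd2)
    rfl (fun _ => rfl) s18_pm_012

noncomputable def f_pm_022 : ℕ → ℕ → ℕ → ℕ → Bool := onCell 0 536870912 1073741824 536870912 1020054732 13421774
    (rowB 3 eng mog cd0q0 cd3q2 pd2 1 true true false .pp 0 2 2 (qsf 0 536870912 1073741824 536870912 2) ndB0q0 ndB3q2 pcB2 Cut.none Ext.none)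

def k0_pm_022 : ∃ t, chk3 f_pm_022 t 4 16 1 = true :=
  ⟨(a (l 3) (l 1)), by decide +kernel⟩

def k1_pm_022 : ∃ t, chk3 f_pm_022 t 32 136 1 = true :=
  ⟨(b (b (b (b (l 3) (a (a (a (c (l 16573104) (c (l 16559464) (l 224042490791))) (c (l 268602841175) (c (l 274508389303) (l 272897760871)))) (a (c (l 626695753063) (c (l 676087847639) (l 544554459655))) (l 3))) (l 3))) (a (a (c (a (l 16555880) (l 16562576)) (c (a (l 16563104) (l 16570760)) (a (l 16548552) (l 16556848)))) (a (c (l 16579872) (c (l 16578520) (l 16565272))) (c (l 16595960) (c (l 16586408) (l 16576096))))) (a (a (c (l 145659441511) (c (l 16589160) (l 149954372839))) (c (l 173039872295) (c (l 16598584) (l 176797936487)))) (a (c (l 200420303287) (c (l 16608120) (l 203104629607))) (c (l 228337605415) (c (l 16616784) (l 229411322967))))))) (a (a (c (c (l 16571144) (l 16572736)) (c (a (l 16559912) (l 16567568)) (a (l 16539984) (l 16548280)))) (c (c (l 16594616) (l 16586984)) (c (c (l 16575952) (l 16577312)) (a (l 16561936) (l 16570472))))) (a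 (c (c (l 16608032) (l 16602992)) (c (c (l 16596872) (l 16593632)) (a (l 16579128) (l 16582664)))) (c (a (l 16615704) (l 16623056)) (a (b (l 16605888) (l 16603728)) (a (l 16600816) (l 16605184))))))) (a (c (a (c (l 16575888) (l 16566720)) (c (l 16588872) (l 16580968))) (a (a (c (l 16553624) (l 16533408)) (b (l 16558880) (l 16554624))) (c (b (l 16575048) (l 16570888)) (b (l 16567040) (l 16562688))))) (a (c (c (l 16602288) (l 16598288)) (c (b (l 16591040) (l 16586880)) (b (l 16584344) (l 16580000)))) (a (c (l 16611128) (b (l 16600504) (l 16596248))) (c (l 16617176) (b (l 16609176) (l 16604920))))))), by decide +kernel⟩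

def k2_pm_022 : ∃ t, chk3 f_pm_022 t 32 137 1 = true :=
  ⟨(b (a (a (c (l 16568912) (a (l 16540360) (l 16548328))) (c (l 16582520) (c (l 16564736) (l 16556240)))) (c (a (l 16593952) (l 16608448)) (a (c (l 16580728) (l 16573552)) (c (l 16597184) (l 16591336))))) (a (a (b (c (l 16558048) (l 16538112)) (c (b (l 16555336) (l 16554256)) (b (l 16535128) (l 16534176)))) (b (c (l 16571664) (l 16554288)) (b (l 16539136) (c (l 16567496) (l 16549800))))) (c (a (b (l 16585720) (l 16582224)) (b (l 16600208) (l 16596616))) (b (a (l 16570936) (l 16588056)) (a (b (l 16567864) (l 16566136)) (l 16584112)))))), by decide +kernel⟩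

def k3_pm_022 : ∃ t, chk3 f_pm_022 t 33 68 1 = true :=
  ⟨(b (a (b (b (b (l 3) (a (c (a (l 256791778647) (l 284172209959)) (a (l 255181151159) (l 282561585239))) (c (a (l 312089512711) (l 339469944759)) (a (l 304573312871) (l 331416876727))))) (a (c (a (l 16630520) (l 16638096)) (a (l 16622272) (l 16631176))) (c (a (l 16645776) (l 16653560)) (a (l 16640192) (l 16649328))))) (c (a (a (l 16624640) (l 16632208)) (a (l 16639888) (l 16647672))) (a (b (a (l 16617968) (l 16626872)) (l 16618144)) (a (l 16633752) (l 16642880))))) (b (b (l 3) (a (c (a (l 16661456) (l 16669448)) (a (l 16658568) (l 16667920))) (c (a (l 16678200) (b (l 16686736) (l 16684768))) (a (l 16677384) (l 16686960))))) (a (c (a (l 16655568) (l 16663560)) (a (l 16652128) (l 16661480))) (a (c (l 16671664) (l 16670944)) (c (l 16679872) (l 16680520)))))) (a (c (a (b (l 16620752) (l 16613280)) (b (l 16636112) (l 16628640))) (b (a (a (l 16607408) (l 16616312)) (l 16629880)) (a (l 16603576) (l 16621608)))) (c (b (a (l 16651888) (l 16668088))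 (a (l 16644416) (l 16660616))) (a (b (l 16648360) (l 16640088)) (b (l 16667288) (l 16659016)))))), by decide +kernel⟩

def k4_pm_022 : ∃ t, chk3 f_pm_022 t 16 69 1 = true :=
  ⟨(a (b (c (a (b (a (l 16553752) (l 16566880)) (a (l 16552872) (l 16566000))) (b (a (l 16580456) (b (l 16594664) (l 16594240))) (a (l 16579568) (l 16593576)))) (a (b (c (l 16552352) (a (l 16530232) (l 16546296))) (a (l 16536184) (l 16551648))) (b (a (l 16555928) (b (l 16582504) (l 16583120))) (a (l 16567592) (l 16583992))))) (c (a (b (l 16558456) (l 16557488)) (b (l 16585584) (l 16584616))) (a (b (l 16544976) (l 16546040)) (b (l 16576840) (l 16577888))))) (b (b (a (c (b (a (l 16609088) (l 16624056)) (l 16616056)) (b (a (l 16599336) (b (l 16616912) (l 16616872))) (l 16587616))) (b (c (a (l 16639544) (l 16655536)) (b (a (l 16635176) (l 16653960)) (a (l 16634648) (l 16652848)))) (c (l 16646648) (l 16623168)))) (a (c (a (l 16608016) (l 16622880)) (a (l 16600856) (l 16618176))) (c (a (l 16638168) (l 16653880)) (a (l 16635944) (l 16654160)))))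 (c (a (b (l 16614456) (l 16613480)) (b (l 16645032) (l 16644048))) (a (b (l 16610552) (l 16611584)) (b (l 16646072) (l 16647096)))))), by decide +kernel⟩

def k5_pm_022 : ∃ t, chk3 f_pm_022 t 16 35 1 = true :=
  ⟨(c (a (b (b (a (l 16555968) (l 16583096)) (a (l 16553776) (l 16580896))) (a (l 16550176) (l 16577296))) (b (b (a (l 16611952) (l 16642520)) (a (l 16609752) (l 16640312))) (a (l 16585184) (l 16615736)))) (a (b (b (a (l 16547528) (l 16579352)) (a (l 16549240) (l 16581048))) (a (l 16530384) (l 16562168))) (b (b (a (l 16613032) (l 16627552)) (a (l 16614704) (l 16629200))) (b (l 16591656) (l 16592768))))), by decide +kernel⟩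

def k6_pm_022 : ∃ t, chk3 f_pm_022 t 17 17 1 = true :=
  ⟨(b (b (a (a (b (a (b (b (l 3) (a (a (c (l 16691968) (l 16694216)) (c (b (l 322290160583) (l 16695168)) (l 205789181911))) (b (l 1) (l 440804403287)))) (a (c (b (l 16690128) (l 16686240)) (l 16690200)) (b (c (l 214781750727) (l 226056039383)) (a (l 16693960) (l 185253843703))))) (b (l 1) (c (l 360273758855) (l 353294468951)))) (a (b (c (a (l 16680512) (l 16688920)) (l 16665680)) (c (l 16677224) (l 16678384))) (b (a (c (l 186864450791) (l 183106359015)) (l 433825079975)) (c (a (l 16689960) (l 16698568)) (l 105796929047))))) (a (b (l 1) (b (l 1) (l 516503205255))) (l 1))) (l 1)) (a (b (b (a (c (b (a (l 16672000) (l 16688928)) (a (l 16670680) (l 16687240))) (b (a (l 16672664) (l 16671360)) (a (l 16671968) (l 16691088)))) (a (b (a (l 347388857815) (l 1)) (c (l 171832069111) (l 164315886503))) (l 1))) (a (c (c (l 16656344) (l 16658360)) (c (l 16660408) (l 16662488))) (a (c (l 16682408) (l 16690336)) (l 426845770503)))) (a (c (b (l 16656400) (l 16655416))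 (b (l 16662504) (l 16663512))) (a (c (l 16680976) (l 16691912)) (b (c (l 16698136) (l 16709944)) (l 16693824))))) (b (l 1) (a (a (b (l 1) (l 426845743607)) (l 1)) (l 1))))) (a (b (b (a (c (l 16653872) (l 16643944)) (c (l 16666312) (l 16674144))) (a (b (l 16638152) (l 16637952)) (c (l 16685064) (l 16657584)))) (c (a (l 16627080) (l 16637112)) (b (b (l 16636432) (l 16628264)) (l 16616128)))) (b (b (a (c (a (l 16689176) (l 412350219127)) (b (l 278669327623) (l 178274449399))) (l 1)) (a (c (l 133177312775) (a (l 16660456) (l 16638256))) (c (l 449931149191) (l 469795312215)))) (c (b (a (l 16646136) (l 249141365415)) (a (l 16654712) (l 16616992))) (a (b (l 16638560) (l 16622840)) (b (a (l 16621768) (l 432751146247)) (l 165389394343))))))), by decide +kernel⟩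

def k7_pm_022 : ∃ t, chk3 f_pm_022 t 9 17 1 = true :=
  ⟨(b (l 1) (a (a (a (a (b (l 1) (b (l 1) (l 464963358503))) (l 1)) (l 1)) (l 1)) (l 1))), by decide +kernel⟩

def k8_pm_022 : ∃ t, chk3 f_pm_022 t 5 8 1 = true :=
  ⟨(l 1), by decide +kernel⟩

def k9_pm_022 : ∃ t, chk3 f_pm_022 t 8 9 1 = true :=
  ⟨(b (a (b (b (a (b (a (l 16549344) (l 16578768)) (a (l 16546136) (l 16555440))) (b (a (l 16589024) (l 16601024)) (a (l 16566376) (l 16578824)))) (a (c (l 16524744) (l 16510536)) (b (l 16534240) (l 16546840)))) (a (c (b (l 16533400) (l 16522592)) (a (l 16464552) (l 16519024))) (b (c (l 16550368) (l 16561400)) (a (l 16545024) (l 16579120))))) (b (b (a (b (a (l 16635816) (l 16603568)) (a (l 16609560) (l 16589712))) (c (a (l 16615456) (l 16599040)) (a (l 16557768) (c (l 16588824) (l 16567648))))) (a (c (c (l 16620656) (l 16614424)) (b (l 16574224) (l 16589744))) (b (a (l 16558104) (c (l 16603136) (l 16557896))) (c (l 16581872) (l 16542424))))) (a (c (a (l 16593472) (l 16563736)) (a (l 16587744) (l 16564792)))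 (c (b (l 16547976) (l 16550408)) (b (b (l 16558848) (l 16554096)) (l 16525680)))))) (a (a (b (c (l 16445984) (b (l 16495168) (l 16477360))) (b (l 16395048) (l 16362560))) (b (b (l 16495440) (l 16471888)) (b (l 16459616) (l 16427112)))) (b (a (c (l 16530424) (b (l 16580120) (l 16588760))) (b (c (l 16551480) (l 16536128)) (c (l 16551352) (l 16545984)))) (a (b (l 16483488) (l 16464656)) (c (b (l 16529152) (l 16505936)) (c (l 16525608) (l 16510144))))))), by decide +kernel⟩

def k10_pm_022 : ∃ t, chk3 f_pm_022 t 9 9 1 = true :=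
  ⟨(b (b (a (b (a (c (a (b (l 251288760839) (l 16598688)) (l 438656670455)) (a (b (l 315713172839) (l 16550552)) (b (l 1) (l 471405762615)))) (l 1)) (b (a (a (c (l 16587432) (l 16536864)) (c (l 334503663303) (a (l 16500112) (l 566431786119)))) (l 1)) (a (c (l 131566440839) (a (l 16551496) (l 16508696))) (a (c (l 439730312631) (l 449930739927)) (l 1))))) (l 1)) (a (c (a (b (b (l 16563048) (l 16575624)) (l 16520368)) (b (a (b (l 16518568) (l 16552480)) (l 440804079831)) (b (l 185253424951) (l 16485920)))) (a (b (c (l 16546000) (l 16523016)) (l 16483840)) (b (a (c (l 213707591687) (l 216928764423)) (l 471405580343)) (a (l 16494288) (b (l 222297424791) (l 16471312)))))) (a (b (l 1) (a (c (l 440267167447) (l 470331823799)) (l 1))) (l 1)))) (a (b (c (a (b (l 16543400) (l 16523264)) (b (l 16451336) (l 16474080))) (a (b (l 16495384) (l 16506328)) (b (c (l 16485240) (l 16465544)) (l 16445480)))) (c (a (b (l 16502024) (l 16479744)) (b (l 16474728) (l 16453352))) (a (b (l 16495776) (l 16484744)) (b (l 16456944)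 (l 16446960))))) (b (a (b (a (c (l 208338804887) (c (l 16456856) (l 175589586695))) (c (l 418255300071) (l 470331768135))) (c (a (l 16474016) (l 178273982631)) (a (l 16436568) (c (l 16427816) (l 166462731815))))) (b (l 1) (a (c (l 421476478871) (l 470868584119)) (l 1)))) (c (a (b (c (l 16454928) (l 16440408)) (l 16427176)) (b (a (l 169147107383) (l 428455765735)) (a (l 16407744) (l 158409622295)))) (a (b (c (l 16425680) (l 16410744)) (l 16388272)) (b (a (c (l 16399016) (l 156262136919)) (l 456909855383)) (a (l 16381064) (c (l 16349392) (l 151430252791))))))))), by decide +kernel⟩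

def k11_pm_022 : ∃ t, chk3 f_pm_022 t 5 9 1 = true :=
  ⟨(a (b (l 1) (a (b (l 1) (a (a (b (l 1) (c (l 433287549735) (l 461204778279))) (l 1)) (l 1))) (l 1))) (l 1)), by decide +kernel⟩

def k12_pm_022 : ∃ t, chk3 f_pm_022 t 3 4 1 = true :=
  ⟨(l 1), by decide +kernel⟩

def k13_pm_022 : ∃ t, chk3 f_pm_022 t 8 10 1 = true :=
  ⟨(b (b (a (b (a (l 16351728) (l 16416272)) (a (l 16320616) (l 16385176))) (a (b (l 16445120) (l 16403888)) (c (b (l 16481720) (l 16456424)) (b (l 16488680) (l 16475728))))) (a (b (a (b (l 16334440) (l 16309072)) (l 16354968)) (b (a (l 16284208) (l 16369832)) (b (a (l 16282008) (l 16362072)) (c (a (l 16425352) (l 16390792)) (a (l 16311568) (l 16361176)))))) (b (a (c (l 16439776) (l 16478176)) (c (l 16429624) (l 16441440))) (b (a (l 16365984) (c (l 16408056) (l 16431192))) (b (a (l 16335720) (c (l 16395456) (l 16425976))) (a (c (l 16369536) (l 16436576)) (c (l 16344752) (l 16401480)))))))) (a (a (c (l 16291032) (c (l 16309928) (l 16249712))) (b (c (l 16385424) (l 16344440)) (l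 16252368))) (b (a (b (l 16296248) (l 16298984)) (c (l 16341664) (l 16364680))) (a (c (l 16322944) (l 16388824)) (c (l 16322440) (l 16378440)))))), by decide +kernel⟩

def k14_pm_022 : ∃ t, chk3 f_pm_022 t 9 10 2 = true :=
  ⟨(b (b (a (b (a (l 16456440) (l 16430928)) (a (l 16432016) (l 16407360))) (b (a (l 16405584) (c (l 16384736) (l 16376184))) (a (l 16382832) (b (l 16343232) (l 16331920))))) (b (a (a (l 16406056) (l 16382200)) (a (l 16316488) (b (l 16341160) (l 16328840)))) (a (a (b (l 16385064) (b (l 16372704) (l 16301176))) (b (l 16361760) (b (l 16349624) (c (l 16327096) (l 16355304))))) (b (a (l 16338528) (c (l 16288952) (l 16320936))) (b (a (l 16284656) (c (l 16275264) (l 16311200))) (a (a (c (l 16311768) (l 16336120)) (c (a (l 16283256) (l 16288728)) (l 16323456))) (b (b (b (l 16298296) (b (l 16296752) (a (l 16301208) (l 16268696)))) (l 16294352)) (l 16292816)))))))) (a (b (a (l 16341080) (b (l 16328256) (l 16310080))) (a (l 16302840) (l 16282800))) (b (a (b (l 16305880) (l 16288608)) (b (a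 (l 16289168) (l 16277912)) (l 16267168))) (a (l 16241704) (c (l 16228400) (l 16256792)))))), by decide +kernel⟩

def k15_pm_022 : ∃ t, chk3 f_pm_022 t 9 10 3 = true :=
  ⟨(b (b (a (a (b (l 16473280) (l 16461416)) (b (l 16436536) (l 16425720))) (a (b (l 16399824) (l 16390008)) (b (c (l 16367536) (l 16358768)) (c (l 16355344) (l 16353232))))) (b (a (a (l 16449184) (l 16414536)) (a (l 16337864) (c (l 16342440) (l 16347656)))) (a (a (b (l 16439752) (b (l 16434936) (l 16389744))) (b (l 16405880) (b (l 16401456) (a (l 16406784) (l 16390072))))) (a (b (l 16371896) (b (l 16325904) (a (l 16331432) (c (l 16345552) (l 16368008))))) (a (b (l 16346384) (b (l 16342592) (c (l 16309208) (a (l 16333496) (l 16324400))))) (b (l 16329184) (b (l 16325568) (b (b (b (l 16324184) (b (l 16323944) (l 16323784))) (l 16323400)) (l 16322480))))))))) (a (b (a (l 16375128) (c (l 16368352) (l 16401792))) (a (l 16370072) (l 16340088))) (b (c (a (l 16338704) (b (l 16314768) (l 16303128))) (a (l 16345936) (b (l 16294048) (l 16327592))))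 (a (l 16267872) (c (l 16285648) (l 16314968)))))), by decide +kernel⟩

def k16_pm_022 : ∃ t, chk3 f_pm_022 t 4 11 1 = true :=
  ⟨(c (a (a (c (b (l 16161152) (a (l 16127488) (l 16145856))) (b (l 16229440) (c (l 16165520) (l 16184632)))) (a (b (l 16175312) (l 16068960)) (b (l 16157080) (l 16097040)))) (b (a (a (l 16140432) (b (l 16246384) (l 16209888))) (a (b (l 16228080) (l 16193416)) (b (l 16209680) (l 16176776)))) (a (a (l 16126312) (l 16091992)) (a (b (l 16158664) (l 16123816)) (b (l 16143784) (l 16110712)))))) (a (a (b (a (c (l 16235432) (l 16184840)) (l 16207568)) (a (c (l 16161512) (l 16099536)) (b (l 16184576) (l 16155464)))) (b (a (l 16279848) (l 16252096)) (a (l 16197040) (l 16216072)))) (b (a (a (l 16246992) (c (l 16300496) (l 16349696))) (a (b (l 16308752) (l 16286640)) (b (l 16238168) (l 16259912)))) (a (b (l 16195920) (l 16191544)) (a (l 16148464) (b (l 16239632) (l 16219272))))))), by decide +kernel⟩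

def k17_pm_022 : ∃ t, chk3 f_pm_022 t 10 40 1 = true :=
  ⟨(a (a (b (c (a (b (l 184179396439) (l 16335280)) (l 442951160039)) (a (b (l 177736879575) (l 16312296)) (b (l 1) (l 297995920615)))) (c (a (l 16319016) (b (l 174515686679) (l 16301248))) (a (l 16306120) (b (l 157872614007) (l 16285848))))) (b (l 1) (a (b (l 1) (c (l 295311596727) (l 279742269463))) (l 1)))) (l 1)), by decide +kernel⟩

def k18_pm_022 : ∃ t, chk3 f_pm_022 t 10 82 1 = true :=
  ⟨(a (b (a (c (l 16296056) (a (l 16320696) (l 16281784))) (a (c (l 155725128519) (l 141766450487)) (l 1))) (a (c (c (l 16283488) (l 16284664)) (a (l 16295344) (l 16277624))) (c (a (c (l 16288544) (l 16285424)) (l 275447287207)) (a (b (l 16260768) (l 16279744)) (l 269541689607))))) (l 1)), by decide +kernel⟩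

def k19_pm_022 : ∃ t, chk3 f_pm_022 t 20 166 1 = true :=
  ⟨(a (c (a (l 16276824) (c (l 16262976) (l 16267048))) (a (l 16290864) (b (l 16295408) (l 16272280)))) (b (a (c (l 16277664) (l 16277720)) (a (c (l 16268680) (l 16264360)) (l 1))) (c (a (c (l 16269680) (l 16272016)) (c (l 136934597719) (l 131029015127))) (a (l 16254696) (b (l 134250241303) (l 103111688103)))))), by decide +kernel⟩

def k20_pm_022 : ∃ t, chk3 f_pm_022 t 20 334 1 = true :=
  ⟨(a (c (b (c (l 16257744) (l 16266264)) (a (l 16263264) (a (l 16254472) (l 16248600)))) (a (c (l 16281792) (l 16293088)) (b (l 16291608) (a (l 16273856) (l 16265168))))) (c (b (a (c (l 16263104) (l 16267416)) (a (l 16256352) (l 167536230615))) (a (b (l 16262080) (c (l 16256400) (l 16262840))) (b (a (l 16253200) (l 144987646039)) (a (l 16250728) (c (l 127807765111) (l 16246264)))))) (a (b (l 16253136) (c (l 16248944) (l 16255248))) (b (a (l 16260888) (l 155188201911)) (a (c (l 16257824) (l 16261944)) (b (l 132102751047) (a (l 16253008) (l 281352863271)))))))),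 by decide +kernel⟩

def k21_pm_022 : ∃ t, chk3 f_pm_022 t 40 335 1 = true :=
  ⟨(c (b (b (a (b (l 16280856) (b (l 16279312) (a (l 16259968) (a (l 16255584) (l 16255288))))) (b (l 16248176) (b (a (l 16270528) (l 16264656)) (b (b (a (l 16269544) (l 16263672)) (a (l 16248016) (c (l 16257752) (l 16268528)))) (a (l 16268688) (l 16262808)))))) (a (l 16276920) (a (l 16268144) (l 16262272)))) (a (l 16275440) (a (l 16266688) (l 16260840)))) (b (b (a (b (l 16307064) (b (l 16285864) (a (l 16289992) (l 16294512)))) (b (l 16279304) (b (a (l 16293896) (l 16264256)) (c (a (l 16287536) (c (l 16276840) (l 16282320))) (a (l 16279048) (c (l 16287856) (l 16272480))))))) (a (l 16306312) (c (l 16283024) (l 16274208)))) (a (l 16305440) (a (l 16292544) (l 16283912))))), by decide +kernel⟩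

def k22_pm_022 : ∃ t, chk3 f_pm_022 t 41 335 2 = true :=
  ⟨(b (b (b (a (a (l 16260320) (l 16254416)) (a (c (l 16245912) (l 16251136)) (a (l 16244064) (l 184179214519)))) (b (a (a (c (l 16254440) (l 16263136)) (c (l 16249240) (l 16256536))) (a (c (l 16244024) (l 16249912)) (a (c (l 16240112) (l 16244936)) (c (l 175589267975) (l 168609953687))))) (a (b (b (a (l 16268264) (c (l 16248032) (l 16255768))) (c (a (a (l 16253848) (l 16251248)) (a (c (l 16246584) (l 16250704)) (c (a (l 16244752) (l 16243536)) (l 16247928)))) (a (a (l 16263584) (l 16260288)) (a (l 16256984) (c (l 16251752) (l 16255616)))))) (a (l 16256920) (a (l 16252488) (l 16249528)))) (b (b (a (c (l 16242808) (l 16249144)) (a (c (l 16238896) (l 16244168)) (c (l 171294296935) (l 164851855447)))) (b (b (b (a (c (l 16242328) (l 16248840)) (a (l 16241120) (l 167536202487))) (b (a (c (l 16242168) (l 16248744)) (a (l 16240984) (l 166999330247))) (a (c (a (l 16243280) (l 16240672)) (a (l 16250288) (l 16246968))) (a (c (c (l 16236688) (l 16239440))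 (l 16243648)) (a (a (b (l 16239024) (l 16238928)) (l 1)) (l 1)))))) (a (a (l 16246664) (l 16243704)) (a (l 16240736) (a (l 16238512) (l 1))))) (a (a (l 16246640) (l 16243680)) (a (l 16240712) (a (l 16238488) (l 1)))))) (a (a (l 16246568) (l 16243608)) (a (l 16240640) (a (l 16238416) (l 1)))))))) (a (a (l 16256384) (c (l 16246392) (l 16254624))) (a (c (l 16241184) (l 16248008)) (a (c (l 16237264) (l 16243032)) (a (l 85931826663) (l 488048125879)))))) (a (a (l 16254976) (c (l 16244848) (l 16253384))) (a (c (l 16239656) (l 16246784)) (a (l 16238768) (c (l 16233152) (l 16238512)))))), by decide +kernel⟩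

def k23_pm_022 : ∃ t, chk3 f_pm_022 t 41 335 3 = true :=
  ⟨(b (b (b (a (c (l 16268568) (l 16255264)) (a (c (l 16256496) (l 16261992)) (a (l 16252624) (l 170757455287)))) (b (a (c (l 16247048) (a (l 16281088) (l 16271632))) (a (c (l 16255952) (l 16262136)) (a (c (l 16249896) (l 16254992)) (c (l 161093768583) (l 153577584551))))) (b (b (a (a (l 16260712) (c (l 16263680) (l 16271768))) (a (c (l 16255632) (l 16262280)) (a (c (l 16249576) (l 16255136)) (c (l 157335671239) (l 149282617063))))) (a (a (c (l 16271528) (l 16260344)) (a (c (l 16265520) (l 16274232)) (c (l 16261496) (c (l 16267480) (l 16271520))))) (a (c (c (a (l 16255680) (l 16251832)) (a (l 16259280) (l 16255072))) (c (a (l 16262920) (l 16258344)) (a (l 16266600) (a (l 16262896) (l 16260424))))) (a (c (c (a (l 16248936) (l 16247008)) (l 16250848)) (c (l 16253768) (c (l 16255976) (l 16257456)))) (a (a (c (c (l 16245560) (l 16248208)) (c (l 16250896) (c (l 16252936) (l 16254304)))) (l 1)) (l 1)))))) (a (a (l 16260616) (c (l 16263400) (l 16271880)))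 (a (c (l 16255352) (l 16262392)) (a (c (l 16249296) (l 16255256)) (a (l 109554173783) (l 1)))))))) (a (a (c (l 16271056) (l 16281088)) (c (l 16263048) (l 16271648))) (a (c (l 16255008) (l 16262168)) (a (c (l 16248960) (l 16255032)) (c (l 121902190471) (l 114386007735)))))) (a (a (l 16259512) (c (l 16262104) (l 16271016))) (a (c (l 16254088) (l 16261560)) (c (a (l 16248056) (l 16244024)) (a (l 16254440) (l 16249680)))))), by decide +kernel⟩

def k24_pm_022 : ∃ t, chk3 f_pm_022 t 21 83 1 = true :=
  ⟨(b (l 1) (b (l 1) (b (l 1) (a (a (a (a (c (l 490732479287) (l 502543653015)) (l 1)) (l 1)) (l 1)) (l 1))))), by decide +kernel⟩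

def k25_pm_022 : ∃ t, chk3 f_pm_022 t 11 20 1 = true :=
  ⟨(l 1), by decide +kernel⟩

def k26_pm_022 : ∃ t, chk3 f_pm_022 t 20 21 1 = true :=
  ⟨(b (a (b (c (a (b (l 16249536) (l 16262616)) (c (l 16229904) (b (l 16265496) (l 16258608)))) (a (c (l 16270696) (l 16287808)) (b (a (l 16268760) (l 16273304)) (l 16281016)))) (c (a (l 16250776) (l 16218776)) (a (l 16290840) (l 16274344)))) (b (c (a (b (b (c (l 16244336) (l 16254176)) (l 16224512)) (l 16218896)) (b (a (c (l 16234560) (l 16242696)) (b (a (l 16236040) (l 16233104)) (l 16230952))) (l 16207432))) (a (b (b (a (l 16252664) (l 16249240)) (l 16256712)) (l 16243056)) (b (c (b (a (l 16252248) (l 16244240)) (l 16245832)) (c (l 16231896) (l 16235832))) (l 16225928)))) (c (a (l 16218152) (a (l 16199288) (l 16193688))) (c (b (l 16224176) (l 16219224)) (b (l 16236712) (l 16254392)))))) (a (c (c (l 16210416) (l 16241400)) (b (a (l 16281488) (l 16265432)) (c (l 16251664) (l 16277192)))) (c (b (a (l 16192704) (l 16181928)) (b (l 16176280) (l 16189872))) (b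 (c (l 16211800) (l 16249448)) (a (l 16240736) (l 16224784)))))), by decide +kernel⟩

def k27_pm_022 : ∃ t, chk3 f_pm_022 t 21 21 1 = true :=
  ⟨(b (a (c (b (a (a (b (a (b (b (l 203506531223) (l 16229264)) (l 16226576)) (b (l 491806208535) (l 16223656))) (l 16219760)) (b (l 493953681127) (b (l 191695344727) (l 16212232)))) (c (l 493416783207) (l 501469851927))) (a (c (l 16201944) (l 16210584)) (b (a (l 143913812103) (l 503617314471)) (a (l 16194312) (l 16188712))))) (b (a (a (b (a (b (b (l 194916624071) (l 16240488)) (l 16239032)) (b (l 504154254471) (l 16234664))) (l 16233952)) (b (l 508449211767) (c (l 16222408) (l 16228216)))) (b (l 1) (l 501469817143))) (a (a (l 16207192) (l 16198680)) (b (b (l 180957876615) (l 16186768)) (l 16184064))))) (b (l 1) (a (b (l 1) (c (l 510596607863) (l 376378885143))) (l 1)))) (c (a (b (a (l 16171088) (l 16160200)) (b (l 16155192) (l 16148208))) (b (a (b (l 157335531639) (l 16166896)) (l 360272728071)) (b (a (l 16160184) (l 16149512)) (l 16127304)))) (a (b (a (l 16195328)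 (l 16178656)) (b (l 16202448) (l 16198744))) (b (a (b (l 16163552) (l 16181120)) (l 512207140151)) (b (l 16148480) (l 16145176)))))), by decide +kernel⟩

def k28_pm_022 : ∃ t, chk3 f_pm_022 t 11 21 1 = true :=
  ⟨(a (b (l 1) (a (b (l 1) (c (l 358662067639) (l 507912099607))) (l 1))) (l 1)), by decide +kernel⟩

def k29_pm_022 : ∃ t, chk3 f_pm_022 t 5 11 1 = true :=
  ⟨(a (b (a (c (a (b (c (l 16176096) (l 16205552)) (l 16159552)) (b (b (l 16178800) (l 16164032)) (b (l 16149256) (l 16134464)))) (a (b (c (l 16235488) (l 16265928)) (l 16211320)) (b (c (l 16208000) (l 16232928)) (l 16203840)))) (c (b (a (c (l 16121496) (l 16140040)) (c (l 16104400) (l 16117200))) (a (l 16102760) (l 16105312))) (a (b (c (l 16179896) (l 16199136)) (l 16174616)) (b (b (l 16161200) (l 16154592)) (l 16144696))))) (a (c (a (b (l 16128280) (l 16096928)) (b (l 16112240) (l 16082552))) (a (b (l 16213872) (l 16195376)) (b (l 16187208) (l 16170520)))) (c (a (b (l 16095736) (l 16067672)) (b (l 16078864) (l 16052368))) (a (b (l 16159720)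 (l 16144768)) (b (l 16131464) (l 16118192)))))) (b (a (b (a (c (b (a (l 16122976) (l 358662021527)) (l 16084424)) (c (l 16101176) (l 16108440))) (b (l 1) (c (l 356514493735) (l 16069568)))) (c (a (l 16065704) (l 100963834183)) (a (l 16114128) (l 16062000)))) (b (l 1) (a (c (l 345240171943) (l 503616968823)) (l 1)))) (a (c (b (a (l 16061720) (l 16044384)) (a (l 16036728) (l 16020848))) (a (b (l 16102496) (l 16090848)) (l 16067840))) (b (a (a (l 16040624) (l 199211087031)) (l 490195076663)) (c (l 15975880) (l 16019584)))))), by decide +kernel⟩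

def k30_pm_022 : ∃ t, chk3 f_pm_022 t 3 5 1 = true :=
  ⟨(b (l 1) (a (a (b (l 1) (a (b (l 1) (c (l 338797591959) (l 485363107703))) (l 1))) (l 1)) (l 1))), by decide +kernel⟩

def k31_pm_022 : ∃ t, chk3 f_pm_022 t 8 12 1 = true :=
  ⟨(a (b (c (c (a (l 15985992) (l 16028936)) (a (l 16078624) (l 16097024))) (a (c (l 16088208) (l 15993832)) (b (l 16105528) (l 16055752)))) (c (c (a (b (l 15994824) (l 15902568)) (b (l 15998568) (l 15950096))) (a (b (l 16053968) (l 16009344)) (l 15990952))) (a (c (l 16015520) (a (l 15934272) (l 15990480))) (b (l 16027104) (l 15977640))))) (c (b (a (a (l 15985104) (l 16001568)) (c (l 16059104) (l 16139936))) (a (b (l 15960144) (l 15853808)) (b (l 15995960) (l 15912824)))) (a (b (a (l 16138896) (l 16151128)) (c (l 16085152) (l 16086232))) (b (l 16116672) (a (l 16061872) (l 16076448)))))), by decide +kernel⟩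

def k32_pm_022 : ∃ t, chk3 f_pm_022 t 8 13 1 = true :=
  ⟨(a (a (b (c (c (b (c (l 15866160) (l 15922016)) (b (l 15793144) (a (l 15784960) (l 15812128)))) (b (l 15943608) (b (l 15930880) (l 15864984)))) (c (b (l 16015632) (a (l 15973008) (l 15997768))) (b (l 15904664) (b (l 15881352) (a (l 15894216) (l 15926864)))))) (c (b (b (a (l 15710936) (l 15718800)) (b (l 15693464) (l 15700000))) (b (b (l 15706480) (l 15691920)) (l 15628008))) (b (b (l 15849904) (l 15857048)) (l 15832040)))) (b (c (b (a (l 15787096) (l 15830816)) (c (a (l 15808784) (l 15854424)) (l 15904832))) (b (b (l 15977336) (l 15942232)) (c (l 16000448) (l 15947872)))) (c (c (b (b (a (l 15812976) (l 15817704)) (l 15788512)) (l 15683664)) (b (b (l 15892024) (l 15907880)) (l 15823856))) (b (b (b (l 15904632) (l 15899888)) (l 15917464)) (l 15858696))))) (b (c (a (b (a (l 15852328) (l 15893736)) (a (l 15745184) (l 15808704))) (b (l 15808592) (c (l 15860288) (l 15968024)))) (a (c (l 15994848) (l 16003080)) (b (l 16014944) (l 15985608)))) (c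 (c (a (b (b (l 15822840) (a (l 15797056) (l 15800312))) (b (l 15773024) (l 15746072))) (b (l 15773840) (b (l 15718680) (l 15757264)))) (a (b (b (l 15938744) (l 15895848)) (l 15815400)) (b (l 15929512) (b (l 15899168) (l 15875712))))) (a (b (c (l 15940752) (l 15969608)) (c (l 15935832) (l 15986368))) (b (l 15935192) (b (l 15910640) (l 15909480))))))), by decide +kernel⟩

def k33_pm_022 : ∃ t, chk3 f_pm_022 t 9 6 1 = true :=
  ⟨(b (c (c (a (b (l 16028104) (a (l 15968464) (l 15965016))) (b (l 16033608) (l 15916824))) (a (b (l 16102496) (l 15969608)) (b (l 16098880) (l 16036560)))) (a (b (c (l 16157056) (l 16191792)) (a (l 16045872) (l 16052704))) (b (a (l 16145640) (l 16125656)) (b (l 16082448) (l 16039776))))) (c (a (b (a (b (l 15911904) (l 15809608)) (c (l 15884248) (l 15981032))) (a (b (c (l 15820224) (l 15930176)) (b (l 15761512) (c (l 15766272) (l 15883240)))) (b (l 15750512) (c (l 15782928) (l 15895072))))) (b (a (c (l 15883904) (l 15976432)) (c (l 15882888) (l 15970992))) (a (b (l 15813800) (c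 (l 15787224) (l 15895304))) (b (l 15855240) (l 15758496))))) (b (a (c (a (l 16066032) (l 16079224)) (l 16080192)) (a (l 15950032) (l 16000784))) (a (a (b (l 15972104) (b (l 15972608) (l 15935784))) (b (l 15986464) (l 15940352))) (a (b (l 16020448) (l 15976400)) (c (l 16011968) (l 16115632))))))), by decide +kernel⟩

def k34_pm_022 : ∃ t, chk3 f_pm_022 t 8 7 1 = true :=
  ⟨(b (a (c (b (b (a (a (l 15578472) (l 15609696)) (b (l 15658792) (l 15651216))) (a (c (l 15612448) (l 15729376)) (c (l 15633288) (l 15750776)))) (b (a (l 15484392) (l 15507768)) (a (l 15486160) (l 15511800)))) (b (b (a (l 15802224) (l 15821744)) (a (l 15739760) (l 15762032))) (a (b (l 15696592) (l 15651904)) (b (l 15742592) (l 15700640))))) (a (c (b (b (b (l 15652440) (l 15646128)) (c (l 15650920) (l 15768688))) (b (l 15507088) (l 15513632))) (b (b (l 15837056) (l 15801368)) (c (l 15716776) (l 15856312)))) (c (b (b (b (l 15643504) (l 15659448)) (c (l 15666160) (l 15783960))) (b (l 15503936) (l 15513056))) (b (b (l 15849320) (a (l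 15854936) (l 15862352))) (b (l 15782456) (l 15767576)))))) (a (c (b (b (a (l 15487408) (l 15515304)) (a (l 15425344) (l 15455504))) (a (l 15121872) (l 15155408))) (b (b (c (l 15669528) (l 15762272)) (l 15512456)) (a (l 15411952) (l 15449208)))) (c (b (a (b (l 15519648) (l 15483328)) (b (l 15521632) (l 15508832))) (a (b (l 15425768) (l 15368096)) (b (l 15453816) (l 15398680)))) (b (a (l 15527456) (b (l 15730312) (l 15712744))) (a (l 15484096) (l 15516296)))))), by decide +kernel⟩

def k35_pm_022 : ∃ t, chk3 f_pm_022 t 9 7 1 = true :=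
  ⟨(b (c (b (c (a (b (a (l 15646784) (b (l 15751712) (l 15729904))) (a (l 15680584) (l 15693664))) (b (a (b (l 15758184) (l 15738040)) (l 15753672)) (a (b (l 15717464) (l 15694176)) (b (l 15725256) (l 15705848))))) (a (b (a (l 15848568) (l 15794448)) (a (l 15798272) (l 15811040))) (b (a (l 15861616) (l 15863792)) (a (l 15822712) (l 15830360))))) (a (b (a (l 15541656) (c (l 15645456) (l 15762288))) (a (l 15553136) (l 15549680))) (b (a (c (l 15659480) (l 15776056)) (c (l 15672392) (l 15788520))) (a (l 15544808) (l 15559616))))) (b (b (a (b (a (l 15915144) (l 15940496)) (a (l 15911096) (l 15921408))) (a (b (l 15980016) (l 15924856)) (l 15948000))) (a (c (l 15861040) (c (l 16014280) (l 16074952))) (a (b (l 15907352) (l 15926360)) (b (l 15930776) (l 15914872))))) (a (c (b (l 15852344) (l 15821336)) (c (l 15852680) (l 15912744))) (b (a (l 15849032) (l 15881816)) (a (l 15842496) (l 15856912)))))) (c (b (a (b (a (l 15564080) (l 15562904)) (a (l 15532664) (l 15554736))) (b (a (l 15560232) (l 15577152)) (a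 (l 15575216) (l 15594232)))) (a (b (a (l 15479992) (l 15504320)) (l 15335824)) (b (a (l 15526976) (l 15548080)) (a (l 15478568) (l 15501744))))) (b (a (b (l 15658776) (l 15645416)) (b (a (l 15813512) (l 15851496)) (l 15667352))) (a (b (l 15630920) (l 15615488)) (b (l 15658136) (l 15668896)))))), by decide +kernel⟩

def k36_pm_022 : ∃ t, chk3 f_pm_022 t 5 3 2 = true :=
  ⟨(b (a (b (a (b (b (a (l 16065480) (l 16052784)) (l 15923728)) (c (l 15948240) (l 16016528))) (b (a (b (l 16039528) (l 16011296)) (l 15949520)) (a (l 15968712) (l 15958960)))) (a (b (a (c (l 15881008) (l 15964496)) (l 15875592)) (a (c (l 15810616) (l 15906864)) (c (l 15811304) (l 15902880)))) (b (a (l 15911688) (l 15905136)) (a (l 15791464) (l 15851032))))) (b (b (a (b (l 16004616) (l 15980248)) (b (l 15975352) (l 15953824))) (a (b (l 15955800) (l 15931264)) (l 15921344))) (a (b (l 15894240) (l 15844736)) (b (l 15877896) (l 15834192))))) (b (a (a (b (a (b (l 15705664) (c (l 15700824) (l 15833856))) (b (l 15790464) (l 15676216))) (b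 (a (b (c (l 15694848) (l 15809960)) (l 15710136)) (b (l 15673880) (l 15594520))) (a (l 15552120) (l 15585328)))) (b (a (c (l 15747296) (l 15846960)) (l 15733880)) (a (b (l 15606816) (b (l 15689056) (l 15712536))) (b (l 15756256) (l 15643944))))) (a (b (l 15690248) (a (l 15723808) (l 15746040))) (b (l 15790344) (l 15746560)))) (a (a (b (b (a (l 15592680) (l 15627880)) (c (l 15563680) (l 15676872))) (b (a (l 15567672) (l 15585848)) (l 15365808))) (b (a (b (l 15661872) (l 15642960)) (b (l 15694960) (l 15656728))) (b (a (l 15602704) (l 15618320)) (l 15466240)))) (b (a (b (a (l 15704248) (l 15709264)) (l 15529344)) (a (l 15699528) (l 15703856))) (a (b (l 15639664) (l 15603640)) (b (l 15664904) (l 15631912))))))), by decide +kernel⟩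

def k37_pm_022 : ∃ t, chk3 f_pm_022 t 5 3 3 = true :=
  ⟨(b (a (c (b (a (b (l 16086176) (l 16085896)) (b (l 16066344) (l 16052040))) (a (b (l 16043320) (l 15916544)) (b (l 16016464) (l 15980608)))) (b (a (b (l 16143456) (l 16156352)) (b (l 16133776) (l 16111944))) (a (b (l 16126960) (l 16055272)) (b (l 16089832) (l 16067432))))) (b (b (a (a (l 16073320) (l 16047616)) (l 16007800)) (a (l 16017768) (l 15992016))) (a (b (l 16016568) (l 15994168)) (b (l 15976112) (l 15960048))))) (b (a (a (b (a (b (l 15983136) (l 15858112)) (c (l 15954520) (l 16061992))) (b (a (b (l 15922728) (l 15944264)) (c (l 15920384) (l 16036632))) (a (l 15869592) (l 15901584)))) (b (a (l 15915392) (l 15989112)) (a (b (l 15933568) (l 15867632)) (b (l 15968232) (l 15951944))))) (a (b (l 15971552) (l 15864872)) (b (l 15943816) (l 15927456)))) (a (b (a (b (c (l 15836088) (l 15953536)) (l 15723816)) (a (l 15724472) (l 15714680))) (a (b (l 15719576) (l 15714280)) (a (l 15723192) (l 15802224)))) (b (a (a (l 15765224) (l 15872512)) (l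 15866200)) (a (l 15760416) (l 15782760)))))), by decide +kernel⟩

def k38_pm_022 : ∃ t, chk3 f_pm_022 t 3 3 1 = true :=
  ⟨(b (a (b (a (b (a (b (a (l 15939880) (l 486436847319)) (a (l 15948152) (l 15906512))) (b (l 1) (l 476236151943))) (a (c (l 15897992) (l 15942280)) (b (l 122975041431) (l 15876984)))) (b (l 1) (a (b (l 1) (l 470330460855)) (l 1)))) (a (c (b (a (l 15859920) (l 15840592)) (a (l 15821624) (l 15807344))) (a (a (l 15937592) (l 15916288)) (l 15862088))) (b (a (b (l 15810424) (l 15824304)) (l 457982297783)) (a (l 15813640) (b (l 15762992) (l 15779168)))))) (b (l 1) (a (b (l 1) (a (l 483752532151) (l 1))) (l 1)))) (a (a (b (c (a (b (l 15783192) (l 15744792)) (l 15652128)) (a (l 15885712) (l 15873704))) (b (a (c (l 15706680) (l 15891088)) (l 15702480)) (a (c (l 15644048) (l 15872080)) (c (l 15674104) (l 15861616))))) (b (c (b (l 15757336) (l 15730920)) (a (l 15837072) (l 15797008))) (c (a (l 15691552) (l 15689968)) (a (l 15838360) (l 15808312))))) (a (b (b (a (l 146597017687) (l 467646245287))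 (a (l 15737016) (l 235717524791))) (c (b (l 15692880) (l 15675392)) (l 15672448))) (a (b (b (l 1) (l 503079654999)) (b (l 230885630087) (l 15684224))) (b (l 1) (b (l 500932119943) (l 226053741559))))))), by decide +kernel⟩

theorem s39_pm_022 : ∃ t, chk3 f_pm_022 t 5 3 1 = true := ex3_c k36_pm_022 k37_pm_022

theorem s40_pm_022 : ∃ t, chk3 f_pm_022 t 4 7 1 = true := ex3_a k34_pm_022 k35_pm_022

theorem s41_pm_022 : ∃ t, chk3 f_pm_022 t 8 6 1 = true := ex3_b k31_pm_022 k32_pm_022

theorem s42_pm_022 : ∃ t, chk3 f_pm_022 t 4 6 1 = true := ex3_a s41_pm_022 k33_pm_022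

theorem s43_pm_022 : ∃ t, chk3 f_pm_022 t 4 3 1 = true := ex3_b s42_pm_022 s40_pm_022

theorem s44_pm_022 : ∃ t, chk3 f_pm_022 t 2 3 1 = true := ex3_a s43_pm_022 s39_pm_022

theorem s45_pm_022 : ∃ t, chk3 f_pm_022 t 1 3 1 = true := ex3_a s44_pm_022 k38_pm_022

theorem s46_pm_022 : ∃ t, chk3 f_pm_022 t 10 21 1 = true := ex3_a k26_pm_022 k27_pm_022

theorem s47_pm_022 : ∃ t, chk3 f_pm_022 t 5 21 1 = true := ex3_a s46_pm_022 k28_pm_022

theorem s48_pm_022 : ∃ t, chk3 f_pm_022 t 41 335 1 = true := ex3_c k22_pm_022 k23_pm_022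

theorem s49_pm_022 : ∃ t, chk3 f_pm_022 t 20 335 1 = true := ex3_a k21_pm_022 s48_pm_022

theorem s50_pm_022 : ∃ t, chk3 f_pm_022 t 20 167 1 = true := ex3_b k20_pm_022 s49_pm_022

theorem s51_pm_022 : ∃ t, chk3 f_pm_022 t 20 83 1 = true := ex3_b k19_pm_022 s50_pm_022

theorem s52_pm_022 : ∃ t, chk3 f_pm_022 t 10 83 1 = true := ex3_a s51_pm_022 k24_pm_022

theorem s53_pm_022 : ∃ t, chk3 f_pm_022 t 10 41 1 = true := ex3_b k18_pm_022 s52_pm_022

theorem s54_pm_022 : ∃ t, chk3 f_pm_022 t 10 20 1 = true := ex3_b k17_pm_022 s53_pm_022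

theorem s55_pm_022 : ∃ t, chk3 f_pm_022 t 5 20 1 = true := ex3_a s54_pm_022 k25_pm_022

theorem s56_pm_022 : ∃ t, chk3 f_pm_022 t 5 10 1 = true := ex3_b s55_pm_022 s47_pm_022

theorem s57_pm_022 : ∃ t, chk3 f_pm_022 t 5 5 1 = true := ex3_b s56_pm_022 k29_pm_022

theorem s58_pm_022 : ∃ t, chk3 f_pm_022 t 9 10 1 = true := ex3_c k14_pm_022 k15_pm_022

theorem s59_pm_022 : ∃ t, chk3 f_pm_022 t 4 10 1 = true := ex3_a k13_pm_022 s58_pm_022

theorem s60_pm_022 : ∃ t, chk3 f_pm_022 t 4 5 1 = true := ex3_b s59_pm_022 k16_pm_022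

theorem s61_pm_022 : ∃ t, chk3 f_pm_022 t 2 5 1 = true := ex3_a s60_pm_022 s57_pm_022

theorem s62_pm_022 : ∃ t, chk3 f_pm_022 t 1 5 1 = true := ex3_a s61_pm_022 k30_pm_022

theorem s63_pm_022 : ∃ t, chk3 f_pm_022 t 4 9 1 = true := ex3_a k9_pm_022 k10_pm_022

theorem s64_pm_022 : ∃ t, chk3 f_pm_022 t 2 9 1 = true := ex3_a s63_pm_022 k11_pm_022

theorem s65_pm_022 : ∃ t, chk3 f_pm_022 t 32 68 1 = true := ex3_b k1_pm_022 k2_pm_022

theorem s66_pm_022 : ∃ t, chk3 f_pm_022 t 16 68 1 = true := ex3_a s65_pm_022 k3_pm_022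

theorem s67_pm_022 : ∃ t, chk3 f_pm_022 t 16 34 1 = true := ex3_b s66_pm_022 k4_pm_022

theorem s68_pm_022 : ∃ t, chk3 f_pm_022 t 16 17 1 = true := ex3_b s67_pm_022 k5_pm_022

theorem s69_pm_022 : ∃ t, chk3 f_pm_022 t 8 17 1 = true := ex3_a s68_pm_022 k6_pm_022

theorem s70_pm_022 : ∃ t, chk3 f_pm_022 t 4 17 1 = true := ex3_a s69_pm_022 k7_pm_022

theorem s71_pm_022 : ∃ t, chk3 f_pm_022 t 4 8 1 = true := ex3_b k0_pm_022 s70_pm_022

theorem s72_pm_022 : ∃ t, chk3 f_pm_022 t 2 8 1 = true := ex3_a s71_pm_022 k8_pm_022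

theorem s73_pm_022 : ∃ t, chk3 f_pm_022 t 2 4 1 = true := ex3_b s72_pm_022 s64_pm_022

theorem s74_pm_022 : ∃ t, chk3 f_pm_022 t 1 4 1 = true := ex3_a s73_pm_022 k12_pm_022

theorem s75_pm_022 : ∃ t, chk3 f_pm_022 t 1 2 1 = true := ex3_b s74_pm_022 s62_pm_022

theorem s76_pm_022 : ∃ t, chk3 f_pm_022 t 1 1 1 = true := ex3_b s75_pm_022 s45_pm_022

theorem c_pm_022 : CertB 0 536870912 1073741824 536870912 1020054732 13421774 3 eng mog cd0q0 cd3q2 pd2 true true false .pp 0 2 2
    ndB0q0 ndB3q2 pcB2 Cut.none Ext.none :=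
  certB1 (fam := true) (s1 := true) (s2 := false) (a := 0) (b := 2) (c := 2) (cn := .pp) (n1 := ndB0q0) (n2 := ndB3q2) (pc := pcB2) (cut := Cut.none) (xt := Ext.none) (P1 := 0) (W1 := 536870912) (P2 := 1073741824) (W2 := 536870912) (P3 := 1020054732) (W3 := 13421774) (N0 := 3) (En := eng) (mo := mog) (C1 := cd0q0) (C2 := cd3q2) (C3 := pd2)
    rfl (fun _ => rfl) s76_pm_022

noncomputable def f_pm_023 : ℕ → ℕ → ℕ → ℕ → Bool := onCell 0 536870912 1610612736 536870912 1020054732 13421774
    (rowB 3 eng mog cd0q0 cd3q2 pd3 1 true true false .up 0 2 3 (qsf 0 536870912 1073741824 536870912 3) ndB0q0 ndB3q2 pcB3 Cut.none Ext.none)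

def k0_pm_023 : ∃ t, chk3 f_pm_023 t 2 1 1 = true :=
  ⟨(b (a (b (a (b (a (b (c (l 15155512) (b (l 15118888) (l 15112808))) (c (l 15313424) (l 15103472))) (b (c (a (l 15453680) (l 15527944)) (a (l 15233784) (l 15313944))) (c (l 15251120) (a (l 15222208) (l 15302912))))) (a (l 2) (b (a (l 2) (l 15129200)) (l 2)))) (b (c (b (a (l 15500592) (l 15597288)) (a (l 15557112) (l 15655280))) (b (a (c (l 15472864) (l 15366104)) (c (l 15597288) (l 15494944))) (a (l 15409640) (l 15495280)))) (c (b (a (l 15568592) (l 15668408)) (a (l 15534224) (l 15656816))) (b (a (l 15398376) (l 15527152)) (a (l 15384760) (l 15514968)))))) (a (l 2) (a (l 2) (a (l 2) (b (b (l 15548848) (l 2)) (l 2)))))) (b (b (b (a (a (c (l 15742728) (c (l 15706960) (l 15608632))) (c (l 15834552) (l 15673936))) (a (c (l 15999088) (l 15845992)) (l 15757304))) (a (a (c (l 15739120) (l 15628808)) (b (l 15608304) (l 15642232))) (c (l 15845384) (a (l 15839088) (l 15917352))))) (a (c (a (b (l 15790424) (l 15764760)) (b (l 15889992) (l 15860576))) (b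 (a (l 15640816) (l 15742240)) (a (l 15629984) (l 15732688)))) (c (b (l 15905000) (l 15982432)) (a (l 15660752) (l 15866328))))) (b (b (a (a (c (l 15729536) (l 15615920)) (l 15586808)) (c (l 15951104) (l 15833664))) (a (c (l 80092218311) (l 15483776)) (a (l 15838848) (l 15918808)))) (b (a (a (l 2) (l 15714816)) (a (l 15807640) (l 15889376))) (a (l 2) (l 121968123735)))))) (a (l 2) (b (b (a (l 2) (b (l 127336838247) (l 2))) (l 2)) (l 2)))), by decide +kernel⟩

def k1_pm_023 : ∃ t, chk3 f_pm_023 t 3 1 1 = true :=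
  ⟨(b (b (a (b (a (b (a (l 15926280) (c (l 16191472) (l 16058008))) (c (l 16157016) (l 15994712))) (b (a (c (l 16190368) (l 16131888)) (l 16044320)) (a (l 16061432) (c (l 16150616) (l 16154416))))) (a (c (l 15933808) (a (l 15977824) (l 16037760))) (a (l 15913632) (l 15975312)))) (b (a (b (c (l 15927360) (l 16220936)) (a (l 16007944) (l 16054920))) (c (b (l 15679392) (l 15812208)) (b (a (l 16082296) (l 15982408)) (l 16083472)))) (a (b (a (l 16044656) (l 15974832)) (a (l 16192888) (l 16169608))) (b (c (l 15951200) (l 16136184)) (a (l 16023288) (l 16056312)))))) (a (b (a (c (l 16001768) (l 15951000)) (c (l 16072376) (l 16100168))) (a (c (l 15989432) (l 15960736)) (c (l 16043920) (l 16074792)))) (b (a (c (l 16057432) (l 16175608)) (b (a (l 16131032) (l 16092832)) (l 16106600))) (a (c (l 16039736) (l 16156576)) (l 15972992))))) (a (b (b (a (b (l 15922376) (l 15878688)) (c (l 16003840) (l 16026400))) (a (b (a (l 2) (l 15868144)) (l 2)) (b (l 15951480) (l 15921856)))) (b (b (a (l 2) (l 15912112)) (l 2))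 (l 2))) (b (b (a (l 15996688) (l 16112232)) (a (b (l 16043328) (l 16001304)) (l 16049104))) (a (b (b (b (l 15983096) (l 15985368)) (l 15977136)) (l 4)) (b (b (b (l 16038256) (l 16028560)) (l 16027592)) (l 4)))))), by decide +kernel⟩

theorem s2_pm_023 : ∃ t, chk3 f_pm_023 t 1 1 1 = true := ex3_a k0_pm_023 k1_pm_023

theorem c_pm_023 : CertB 0 536870912 1073741824 536870912 1020054732 13421774 3 eng mog cd0q0 cd3q2 pd3 true true false .up 0 2 3
    ndB0q0 ndB3q2 pcB3 Cut.none Ext.none :=
  certB1 (fam := true) (s1 := true) (s2 := false) (a := 0) (b := 2) (c := 3) (cn := .up) (n1 := ndB0q0) (n2 := ndB3q2) (pc := pcB3) (cut := Cut.none) (xt := Ext.none) (P1 := 0) (W1 := 536870912) (P2 := 1073741824) (W2 := 536870912) (P3 := 1020054732) (W3 := 13421774) (N0 := 3) (En := eng) (mo := mog) (C1 := cd0q0) (C2 := cd3q2) (C3 := pd3)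
    rfl (fun _ => rfl) s2_pm_023

end Pool.Agent.Strip051.G.I9500_9625.Tab.C.BA03

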