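import Pool.Agent.Strip051.G.I9500_9625.Gn
import Pool.Agent.Strip051.PB.Corns
import Pool.Agent.Strip051.PB.CornW

/-! # Certificates of the aligned corners (generated) -/

set_option linter.all false

namespace Pool.Agent.Strip051.G.I9500_9625.Tab.CG

open Pool.Agent.Strip051.PB

def B022E_002_2_4_1 :
    ∃ t, chk3 (onCell 0 33554432 0 1073741824 1020054732 13421774 (corT true 1 c0B cB022E gB0q0 gB0q2 gB2q2 gB3q2 true false)) t 2 4 1 = true :=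
  ⟨(T.a (T.a (T.c (T.c (T.b (T.b (T.l 204) (T.l 204)) (T.l 204)) (T.l 204)) (T.l 204)) (T.c (T.a (T.b (T.b (T.l 204) (T.l 204)) (T.l 204)) (T.c (T.b (T.l 204) (T.l 204)) (T.l 204))) (T.b (T.l 204) (T.l 204)))) (T.a (T.a (T.a (T.c (T.b (T.b (T.l 204) (T.l 204)) (T.l 204)) (T.l 204)) (T.c (T.c (T.b (T.a (T.l 204) (T.l 204)) (T.a (T.l 204) (T.l 204))) (T.b (T.l 204) (T.l 204))) (T.l 204))) (T.c (T.a (T.b (T.c (T.a (T.l 204) (T.l 204)) (T.l 204)) (T.c (T.a (T.l 204) (T.l 204)) (T.l 204))) (T.b (T.c (T.a (T.l 204) (T.l 220)) (T.l 204)) (T.c (T.a (T.l 204) (T.l 220)) (T.l 204)))) (T.a (T.b (T.l 204) (T.l 204)) (T.b (T.l 204) (T.l 204))))) (T.a (T.c (T.a (T.b (T.c (T.c (T.b (T.l 204) (T.l 204)) (T.l 204)) (T.l 204)) (T.c (T.a (T.l 220) (T.b (T.l 204) (T.l 204))) (T.l 204))) (T.b (T.c (T.b (T.l 220) (T.b (T.l 204) (T.l 204))) (T.l 204))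 (T.c (T.c (T.b (T.l 204) (T.l 220)) (T.l 220)) (T.l 204)))) (T.a (T.b (T.l 204) (T.l 204)) (T.b (T.l 204) (T.l 204)))) (T.b (T.c (T.a (T.c (T.b (T.l 204) (T.l 220)) (T.l 204)) (T.c (T.b (T.l 204) (T.l 204)) (T.l 204))) (T.a (T.l 204) (T.b (T.l 204) (T.l 204)))) (T.c (T.a (T.c (T.c (T.b (T.l 204) (T.l 204)) (T.l 220)) (T.l 220)) (T.b (T.b (T.l 220) (T.l 220)) (T.c (T.l 220) (T.l 204)))) (T.a (T.l 220) (T.b (T.l 204) (T.l 204)))))))), by decide +kernel⟩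

def B022E_002_6_4_1 :
    ∃ t, chk3 (onCell 0 33554432 0 1073741824 1020054732 13421774 (corT true 1 c0B cB022E gB0q0 gB0q2 gB2q2 gB3q2 true false)) t 6 4 1 = true :=
  ⟨(T.a (T.a (T.b (T.c (T.a (T.b (T.l 204) (T.b (T.l 204) (T.l 204))) (T.b (T.l 204) (T.l 204))) (T.a (T.b (T.l 204) (T.l 204)) (T.b (T.l 204) (T.l 204)))) (T.c (T.a (T.b (T.b (T.l 204) (T.l 204)) (T.b (T.l 220) (T.l 220))) (T.b (T.b (T.l 204) (T.l 204)) (T.b (T.l 204) (T.l 204)))) (T.a (T.b (T.l 204) (T.l 204)) (T.b (T.l 204) (T.l 204))))) (T.b (T.c (T.a (T.b (T.l 204) (T.l 204)) (T.b (T.l 204) (T.l 204))) (T.a (T.b (T.l 204) (T.l 204)) (T.b (T.l 204) (T.l 220)))) (T.b (T.a (T.c (T.l 204) (T.l 204)) (T.c (T.l 220) (T.l 220))) (T.a (T.c (T.l 220) (T.l 204)) (T.c (T.l 220) (T.l 220)))))) (T.a (T.b (T.c (T.a (T.b (T.l 204) (T.l 220)) (T.b (T.l 204) (T.l 220))) (T.b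 (T.a (T.b (T.l 204) (T.l 204)) (T.b (T.l 204) (T.l 204))) (T.a (T.b (T.l 204) (T.l 204)) (T.b (T.l 204) (T.l 204))))) (T.c (T.a (T.b (T.b (T.l 204) (T.l 204)) (T.b (T.l 204) (T.l 204))) (T.b (T.b (T.l 204) (T.l 204)) (T.b (T.l 204) (T.l 204)))) (T.a (T.b (T.b (T.l 204) (T.l 204)) (T.l 220)) (T.b (T.b (T.l 204) (T.l 204)) (T.b (T.l 204) (T.l 204)))))) (T.b (T.c (T.b (T.a (T.l 204) (T.l 204)) (T.a (T.l 204) (T.l 204))) (T.b (T.a (T.b (T.l 204) (T.l 220)) (T.b (T.l 204) (T.l 220))) (T.a (T.b (T.l 220) (T.l 220)) (T.b (T.l 220) (T.l 220))))) (T.c (T.b (T.a (T.l 220) (T.l 204)) (T.a (T.l 220) (T.l 204))) (T.b (T.a (T.b (T.l 204) (T.l 204)) (T.b (T.l 204) (T.l 204))) (T.a (T.b (T.l 204) (T.l 204)) (T.b (T.l 204) (T.l 204)))))))), by decide +kernel⟩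

def B022E_002_7_4_1 :
    ∃ t, chk3 (onCell 0 33554432 0 1073741824 1020054732 13421774 (corT true 1 c0B cB022E gB0q0 gB0q2 gB2q2 gB3q2 true false)) t 7 4 1 = true :=
  ⟨(T.a (T.b (T.a (T.c (T.b (T.b (T.l 204) (T.l 204)) (T.b (T.l 204) (T.l 204))) (T.b (T.a (T.b (T.l 204) (T.l 204)) (T.b (T.l 204) (T.l 204))) (T.a (T.b (T.l 204) (T.l 204)) (T.b (T.l 204) (T.l 204))))) (T.c (T.b (T.l 204) (T.l 204)) (T.b (T.a (T.l 204) (T.l 204)) (T.c (T.l 204) (T.l 220))))) (T.a (T.c (T.b (T.b (T.l 204) (T.l 220)) (T.b (T.l 220) (T.l 220))) (T.b (T.a (T.b (T.l 204) (T.l 204)) (T.l 220)) (T.a (T.b (T.l 204) (T.l 204)) (T.l 204)))) (T.c (T.b (T.l 204) (T.l 204)) (T.b (T.c (T.l 204) (T.l 204)) (T.b (T.l 220) (T.l 204)))))) (T.b (T.a (T.c (T.b (T.l 204) (T.l 204)) (T.c (T.l 204) (T.b (T.l 204) (T.l 204)))) (T.b (T.c (T.l 204) (T.b (T.l 204) (T.l 204)))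 (T.c (T.l 204) (T.l 204)))) (T.c (T.a (T.b (T.l 204) (T.l 204)) (T.l 204)) (T.a (T.b (T.b (T.l 204) (T.l 204)) (T.l 220)) (T.b (T.l 204) (T.l 204)))))), by decide +kernel⟩

def B022E_002_2_5_1 :
    ∃ t, chk3 (onCell 0 33554432 0 1073741824 1020054732 13421774 (corT true 1 c0B cB022E gB0q0 gB0q2 gB2q2 gB3q2 true false)) t 2 5 1 = true :=
  ⟨(T.a (T.a (T.c (T.a (T.l 204) (T.l 204)) (T.l 204)) (T.c (T.b (T.a (T.l 204) (T.l 220)) (T.b (T.l 204) (T.l 204))) (T.b (T.l 204) (T.l 204)))) (T.a (T.a (T.a (T.c (T.b (T.l 204) (T.l 204)) (T.l 204)) (T.c (T.c (T.a (T.l 204) (T.b (T.l 204) (T.l 204))) (T.l 204)) (T.l 204))) (T.c (T.a (T.b (T.c (T.a (T.l 204) (T.l 204)) (T.l 204)) (T.a (T.l 204) (T.l 220))) (T.b (T.c (T.a (T.l 204) (T.l 204)) (T.l 204)) (T.c (T.b (T.l 220) (T.l 204)) (T.l 204)))) (T.a (T.l 220) (T.b (T.l 204) (T.l 204))))) (T.a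 (T.c (T.a (T.b (T.c (T.a (T.l 220) (T.l 220)) (T.l 204)) (T.c (T.a (T.l 204) (T.l 220)) (T.l 204))) (T.b (T.c (T.c (T.b (T.l 220) (T.l 220)) (T.l 220)) (T.l 204)) (T.c (T.a (T.l 220) (T.l 220)) (T.l 204)))) (T.a (T.b (T.l 204) (T.l 204)) (T.b (T.l 204) (T.l 204)))) (T.b (T.c (T.a (T.c (T.c (T.b (T.l 220) (T.l 220)) (T.l 220)) (T.l 220)) (T.c (T.b (T.l 220) (T.l 220)) (T.l 220))) (T.a (T.l 204) (T.b (T.l 204) (T.l 204)))) (T.c (T.a (T.c (T.a (T.l 220) (T.l 220)) (T.l 204)) (T.c (T.b (T.l 220) (T.l 220)) (T.l 220))) (T.a (T.l 204) (T.l 220))))))), by decide +kernel⟩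

def B022E_002_6_5_1 :
    ∃ t, chk3 (onCell 0 33554432 0 1073741824 1020054732 13421774 (corT true 1 c0B cB022E gB0q0 gB0q2 gB2q2 gB3q2 true false)) t 6 5 1 = true :=
  ⟨(T.a (T.a (T.b (T.c (T.a (T.b (T.b (T.l 220) (T.l 220)) (T.b (T.l 220) (T.l 220))) (T.b (T.b (T.l 204) (T.l 220)) (T.b (T.l 220) (T.l 220)))) (T.a (T.b (T.l 204) (T.l 204)) (T.b (T.l 204) (T.l 204)))) (T.c (T.a (T.b (T.b (T.l 220) (T.l 220)) (T.b (T.l 220) (T.l 220))) (T.b (T.b (T.l 220) (T.l 220)) (T.b (T.l 220) (T.l 220)))) (T.a (T.b (T.l 204) (T.l 204)) (T.b (T.l 204) (T.l 204))))) (T.b (T.c (T.a (T.b (T.b (T.l 204) (T.l 204)) (T.b (T.l 204) (T.l 204))) (T.b (T.l 220) (T.b (T.l 204) (T.l 204)))) (T.a (T.b (T.l 204) (T.l 204)) (T.b (T.l 220) (T.l 220)))) (T.c (T.a (T.b (T.b (T.l 204) (T.l 204)) (T.b (T.l 204) (T.l 204))) (T.b (T.b (T.l 204) (T.l 204)) (T.b (T.l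 204) (T.l 204)))) (T.a (T.b (T.l 204) (T.l 204)) (T.b (T.l 204) (T.l 204)))))) (T.a (T.b (T.b (T.a (T.c (T.l 220) (T.l 220)) (T.c (T.l 220) (T.l 220))) (T.a (T.c (T.l 220) (T.l 220)) (T.c (T.l 220) (T.l 204)))) (T.b (T.a (T.c (T.l 220) (T.l 204)) (T.b (T.l 220) (T.l 220))) (T.a (T.c (T.l 220) (T.l 204)) (T.b (T.l 220) (T.l 220))))) (T.b (T.c (T.b (T.a (T.l 220) (T.l 204)) (T.a (T.l 204) (T.l 204))) (T.b (T.a (T.b (T.l 204) (T.l 204)) (T.l 220)) (T.a (T.l 204) (T.l 204)))) (T.b (T.a (T.b (T.l 220) (T.l 204)) (T.b (T.l 220) (T.l 204))) (T.a (T.b (T.l 204) (T.l 204)) (T.b (T.l 204) (T.l 204))))))), by decide +kernel⟩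

def B022E_002_7_5_1 :
    ∃ t, chk3 (onCell 0 33554432 0 1073741824 1020054732 13421774 (corT true 1 c0B cB022E gB0q0 gB0q2 gB2q2 gB3q2 true false)) t 7 5 1 = true :=
  ⟨(T.a (T.b (T.a (T.c (T.b (T.b (T.l 220) (T.l 220)) (T.b (T.l 204) (T.l 204))) (T.b (T.a (T.l 220) (T.l 204)) (T.c (T.l 220) (T.l 220)))) (T.c (T.b (T.l 204) (T.l 204)) (T.b (T.b (T.l 204) (T.l 204)) (T.l 220)))) (T.a (T.b (T.c (T.b (T.l 204) (T.l 204)) (T.b (T.l 204) (T.l 204))) (T.c (T.l 220) (T.l 220))) (T.c (T.b (T.l 204) (T.l 204)) (T.b (T.l 204) (T.l 204))))) (T.b (T.a (T.c (T.l 220) (T.b (T.l 204) (T.l 204))) (T.c (T.l 204) (T.b (T.l 204) (T.l 204)))) (T.a (T.b (T.b (T.l 204) (T.l 204)) (T.l 220)) (T.b (T.l 220) (T.l 204))))), by decide +kernel⟩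

def B022E_002_2_6_1 :
    ∃ t, chk3 (onCell 0 33554432 0 1073741824 1020054732 13421774 (corT true 1 c0B cB022E gB0q0 gB0q2 gB2q2 gB3q2 true false)) t 2 6 1 = true :=
  ⟨(T.a (T.a (T.b (T.l 220) (T.l 204)) (T.c (T.b (T.b (T.l 204) (T.l 204)) (T.l 204)) (T.l 204))) (T.a (T.a (T.a (T.b (T.l 204) (T.l 204)) (T.c (T.b (T.b (T.l 204) (T.l 204)) (T.l 204)) (T.l 204))) (T.a (T.c (T.b (T.b (T.l 220) (T.l 204)) (T.l 220)) (T.l 204)) (T.c (T.b (T.b (T.l 220) (T.l 204)) (T.b (T.l 204) (T.l 204))) (T.l 220)))) (T.a (T.b (T.a (T.c (T.b (T.b (T.l 204) (T.l 204)) (T.l 220)) (T.l 204)) (T.c (T.b (T.b (T.l 220) (T.l 204)) (T.l 220)) (T.l 204))) (T.a (T.c (T.b (T.l 204) (T.l 204)) (T.l 204)) (T.c (T.b (T.l 204) (T.l 204)) (T.l 204)))) (T.b (T.c (T.a (T.b (T.b (T.l 220) (T.l 204)) (T.l 220)) (T.c (T.b (T.l 220) (T.l 204)) (T.l 204))) (T.a (T.l 204)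 (T.l 204))) (T.c (T.a (T.b (T.l 220) (T.l 204)) (T.b (T.l 220) (T.l 204))) (T.b (T.l 220) (T.l 204))))))), by decide +kernel⟩

def B022E_002_3_6_1 :
    ∃ t, chk3 (onCell 0 33554432 0 1073741824 1020054732 13421774 (corT true 1 c0B cB022E gB0q0 gB0q2 gB2q2 gB3q2 true false)) t 3 6 1 = true :=
  ⟨(T.a (T.a (T.a (T.b (T.c (T.a (T.c (T.b (T.l 220) (T.l 204)) (T.l 220)) (T.b (T.b (T.l 204) (T.l 204)) (T.l 220))) (T.a (T.l 220) (T.b (T.l 204) (T.l 204)))) (T.c (T.a (T.b (T.l 220) (T.l 204)) (T.b (T.l 220) (T.l 204))) (T.b (T.l 220) (T.l 204)))) (T.b (T.c (T.a (T.b (T.b (T.l 204) (T.l 204)) (T.l 220)) (T.b (T.l 220) (T.l 220))) (T.a (T.b (T.l 204) (T.l 204)) (T.b (T.l 204) (T.l 204)))) (T.c (T.b (T.a (T.l 220) (T.l 220)) (T.a (T.l 204) (T.l 204))) (T.a (T.l 204) (T.l 204))))) (T.b (T.a (T.b (T.a (T.c (T.l 220) (T.l 204)) (T.b (T.l 220)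 (T.l 220))) (T.c (T.a (T.l 220) (T.l 204)) (T.b (T.l 204) (T.l 204)))) (T.b (T.a (T.b (T.l 204) (T.l 204)) (T.l 220)) (T.a (T.b (T.l 204) (T.l 204)) (T.l 220)))) (T.a (T.b (T.c (T.a (T.l 204) (T.l 204)) (T.l 220)) (T.c (T.b (T.l 220) (T.l 220)) (T.l 204))) (T.b (T.a (T.b (T.l 204) (T.l 204)) (T.l 220)) (T.c (T.l 220) (T.l 204)))))) (T.a (T.b (T.a (T.b (T.b (T.l 220) (T.l 220)) (T.b (T.l 220) (T.l 204))) (T.b (T.l 220) (T.l 204))) (T.a (T.b (T.b (T.l 204) (T.l 204)) (T.b (T.l 204) (T.l 204))) (T.b (T.l 204) (T.l 220)))) (T.b (T.a (T.b (T.l 204) (T.l 204)) (T.b (T.l 204) (T.l 204))) (T.a (T.b (T.l 204) (T.l 204)) (T.b (T.l 204) (T.l 204)))))), by decide +kernel⟩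

def B022E_002_1_7_1 :
    ∃ t, chk3 (onCell 0 33554432 0 1073741824 1020054732 13421774 (corT true 1 c0B cB022E gB0q0 gB0q2 gB2q2 gB3q2 true false)) t 1 7 1 = true :=
  ⟨(T.a (T.a (T.a (T.l 220) (T.b (T.l 204) (T.l 204))) (T.a (T.a (T.a (T.b (T.l 204) (T.l 204)) (T.b (T.b (T.l 204) (T.l 204)) (T.l 204))) (T.a (T.b (T.b (T.l 204) (T.l 204)) (T.l 204)) (T.b (T.b (T.l 204) (T.l 204)) (T.l 204)))) (T.a (T.b (T.a (T.b (T.l 204) (T.l 204)) (T.b (T.l 220) (T.l 204))) (T.a (T.l 220) (T.b (T.l 204) (T.l 204)))) (T.b (T.c (T.a (T.l 220) (T.l 220)) (T.b (T.l 204) (T.l 204))) (T.c (T.b (T.l 220) (T.l 204)) (T.l 204)))))) (T.a (T.a (T.a (T.b (T.c (T.a (T.b (T.l 204) (T.l 204)) (T.b (T.l 204) (T.l 204))) (T.b (T.l 204) (T.l 204))) (T.c (T.b (T.l 204) (T.l 204)) (T.l 204))) (T.b (T.c (T.b (T.b (T.l 220) (T.l 220)) (T.b (T.l 204) (T.l 204))) (T.b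 (T.l 204) (T.l 204))) (T.b (T.b (T.l 220) (T.l 220)) (T.b (T.l 204) (T.l 220))))) (T.b (T.a (T.c (T.b (T.b (T.l 220) (T.l 204)) (T.l 220)) (T.b (T.l 204) (T.l 204))) (T.b (T.b (T.l 220) (T.l 220)) (T.a (T.l 220) (T.l 204)))) (T.a (T.b (T.a (T.l 204) (T.l 204)) (T.b (T.l 220) (T.l 204))) (T.b (T.b (T.l 220) (T.l 204)) (T.b (T.l 204) (T.l 204)))))) (T.a (T.b (T.a (T.b (T.b (T.l 204) (T.l 204)) (T.b (T.l 204) (T.l 204))) (T.b (T.l 204) (T.l 204))) (T.a (T.b (T.l 220) (T.l 204)) (T.b (T.l 204) (T.l 204)))) (T.b (T.a (T.b (T.l 204) (T.l 204)) (T.b (T.l 204) (T.l 204))) (T.a (T.b (T.l 204) (T.l 204)) (T.l 220)))))), by decide +kernel⟩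

theorem B022E_002_1_6_1 :
    ∃ t, chk3 (onCell 0 33554432 0 1073741824 1020054732 13421774 (corT true 1 c0B cB022E gB0q0 gB0q2 gB2q2 gB3q2 true false)) t 1 6 1 = true :=
  ex3_a B022E_002_2_6_1 B022E_002_3_6_1
theorem B022E_002_1_3_1 :
    ∃ t, chk3 (onCell 0 33554432 0 1073741824 1020054732 13421774 (corT true 1 c0B cB022E gB0q0 gB0q2 gB2q2 gB3q2 true false)) t 1 3 1 = true :=
  ex3_b B022E_002_1_6_1 B022E_002_1_7_1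
theorem B022E_002_3_5_1 :
    ∃ t, chk3 (onCell 0 33554432 0 1073741824 1020054732 13421774 (corT true 1 c0B cB022E gB0q0 gB0q2 gB2q2 gB3q2 true false)) t 3 5 1 = true :=
  ex3_a B022E_002_6_5_1 B022E_002_7_5_1
theorem B022E_002_1_5_1 :
    ∃ t, chk3 (onCell 0 33554432 0 1073741824 1020054732 13421774 (corT true 1 c0B cB022E gB0q0 gB0q2 gB2q2 gB3q2 true false)) t 1 5 1 = true :=
  ex3_a B022E_002_2_5_1 B022E_002_3_5_1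
theorem B022E_002_3_4_1 :
    ∃ t, chk3 (onCell 0 33554432 0 1073741824 1020054732 13421774 (corT true 1 c0B cB022E gB0q0 gB0q2 gB2q2 gB3q2 true false)) t 3 4 1 = true :=
  ex3_a B022E_002_6_4_1 B022E_002_7_4_1
theorem B022E_002_1_4_1 :
    ∃ t, chk3 (onCell 0 33554432 0 1073741824 1020054732 13421774 (corT true 1 c0B cB022E gB0q0 gB0q2 gB2q2 gB3q2 true false)) t 1 4 1 = true :=
  ex3_a B022E_002_2_4_1 B022E_002_3_4_1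
theorem B022E_002_1_2_1 :
    ∃ t, chk3 (onCell 0 33554432 0 1073741824 1020054732 13421774 (corT true 1 c0B cB022E gB0q0 gB0q2 gB2q2 gB3q2 true false)) t 1 2 1 = true :=
  ex3_b B022E_002_1_4_1 B022E_002_1_5_1
theorem B022E_002 :
    ∃ t, chk3 (onCell 0 33554432 0 1073741824 1020054732 13421774 (corT true 1 c0B cB022E gB0q0 gB0q2 gB2q2 gB3q2 true false)) t 1 1 1 = true :=
  ex3_b B022E_002_1_2_1 B022E_002_1_3_1

def B022E_010 :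
    ∃ t, chk3 (onCell 0 33554432 0 1073741824 1020054732 13421774 (corT true 1 c0B cB022E gB0q0 gB1q2 gB0q2 gB1q2 true true)) t 1 1 1 = true :=
  ⟨(T.l 2), by decide +kernel⟩

def B022E_011 :
    ∃ t, chk3 (onCell 0 33554432 0 1073741824 1020054732 13421774 (corT true 1 c0B cB022E gB0q0 gB1q2 gB1q2 gB2q2 true true)) t 1 1 1 = true :=
  ⟨(T.l 2), by decide +kernel⟩

def B022E_012 :
    ∃ t, chk3 (onCell 0 33554432 0 1073741824 1020054732 13421774 (corT true 1 c0B cB022E gB0q0 gB1q2 gB2q2 gB3q2 true false)) t 1 1 1 = true :=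
  ⟨(T.a (T.b (T.a (T.b (T.l 204) (T.l 204)) (T.b (T.l 204) (T.l 204))) (T.b (T.b (T.l 204) (T.l 204)) (T.l 204))) (T.b (T.a (T.b (T.b (T.l 204) (T.l 204)) (T.l 204)) (T.b (T.a (T.l 204) (T.b (T.b (T.l 204) (T.l 204)) (T.l 204))) (T.a (T.l 204) (T.l 204)))) (T.b (T.a (T.l 204) (T.b (T.b (T.l 204) (T.l 220)) (T.b (T.l 220) (T.l 204)))) (T.a (T.b (T.b (T.l 204) (T.l 204)) (T.l 16)) (T.a (T.b (T.l 204) (T.l 204)) (T.b (T.l 204) (T.l 204))))))), by decide +kernel⟩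

def B022E_020 :
    ∃ t, chk3 (onCell 0 38347922 0 1073741824 1020054732 13421774 (corT true 1 c0B cB022E gB0q0 gB2q2 gB0q2 gB1q2 true true)) t 1 1 1 = true :=
  ⟨(T.l 2), by decide +kernel⟩

def B022E_021 :
    ∃ t, chk3 (onCell 0 38347922 0 1073741824 1020054732 13421774 (corT true 1 c0B cB022E gB0q0 gB2q2 gB1q2 gB2q2 true true)) t 1 1 1 = true :=
  ⟨(T.l 2), by decide +kernel⟩

def B022E_022 :
    ∃ t, chk3 (onCell 0 38347922 0 1073741824 1020054732 13421774 (corT true 1 c0B cB022E gB0q0 gB2q2 gB2q2 gB3q2 true false)) t 1 1 1 = true :=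
  ⟨(T.a (T.b (T.l 0) (T.l 0)) (T.b (T.b (T.a (T.l 204) (T.l 0)) (T.l 0)) (T.b (T.a (T.l 0) (T.l 0)) (T.a (T.l 0) (T.l 0))))), by decide +kernel⟩

def B022E_100 :
    ∃ t, chk3 (onCell 0 26843545 0 1073741824 1020054732 13421774 (corT true 1 c0B cB022E gB1q0 gB0q2 gB0q2 gB1q2 true true)) t 1 1 1 = true :=
  ⟨(T.l 2), by decide +kernel⟩

def B022E_101 :
    ∃ t, chk3 (onCell 0 26843545 0 1073741824 1020054732 13421774 (corT true 1 c0B cB022E gB1q0 gB0q2 gB1q2 gB2q2 true true)) t 1 1 1 = true :=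
  ⟨(T.l 2), by decide +kernel⟩

def B022E_102_1_2_1 :
    ∃ t, chk3 (onCell 0 26843545 0 1073741824 1020054732 13421774 (corT true 1 c0B cB022E gB1q0 gB0q2 gB2q2 gB3q2 true false)) t 1 2 1 = true :=
  ⟨(T.b (T.a (T.a (T.b (T.c (T.a (T.b (T.l 204) (T.l 204)) (T.a (T.l 204) (T.l 204))) (T.l 204)) (T.c (T.l 204) (T.l 204))) (T.a (T.b (T.c (T.b (T.a (T.l 204) (T.b (T.l 204) (T.l 204))) (T.l 204)) (T.l 204)) (T.l 204)) (T.a (T.b (T.c (T.b (T.a (T.b (T.l 204) (T.l 204)) (T.b (T.l 204) (T.l 204))) (T.l 204)) (T.b (T.l 204) (T.l 204))) (T.l 204)) (T.b (T.c (T.b (T.c (T.a (T.l 204) (T.l 204)) (T.l 204)) (T.l 204)) (T.b (T.l 204) (T.l 204))) (T.l 204))))) (T.a (T.a (T.b (T.a (T.b (T.c (T.a (T.b (T.l 204) (T.l 204)) (T.l 204)) (T.l 204)) (T.b (T.l 204) (T.l 204))) (T.b (T.c (T.a (T.l 204) (T.l 204)) (T.l 204)) (T.l 204))) (T.a (T.l 204) (T.l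 204))) (T.b (T.a (T.b (T.b (T.c (T.l 204) (T.l 204)) (T.l 204)) (T.l 204)) (T.b (T.b (T.c (T.l 204) (T.l 204)) (T.l 204)) (T.l 204))) (T.c (T.l 204) (T.l 204)))) (T.a (T.b (T.a (T.b (T.b (T.c (T.l 204) (T.c (T.l 204) (T.l 204))) (T.l 220)) (T.l 204)) (T.b (T.c (T.b (T.l 204) (T.l 204)) (T.a (T.l 204) (T.b (T.l 204) (T.l 204)))) (T.l 204))) (T.c (T.l 204) (T.l 204))) (T.b (T.a (T.b (T.c (T.l 204) (T.c (T.l 204) (T.b (T.l 204) (T.l 204)))) (T.b (T.l 204) (T.l 204))) (T.b (T.c (T.l 204) (T.a (T.b (T.l 204) (T.l 204)) (T.l 204))) (T.l 220))) (T.c (T.l 204) (T.l 204)))))) (T.a (T.a (T.l 204) (T.a (T.l 204) (T.a (T.l 204) (T.l 204)))) (T.a (T.b (T.a (T.l 204) (T.b (T.l 204) (T.l 204))) (T.a (T.b (T.l 204) (T.l 204)) (T.l 204))) (T.b (T.a (T.b (T.l 204) (T.l 204)) (T.b (T.l 204) (T.l 204))) (T.a (T.l 204) (T.l 204)))))), by decide +kernel⟩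

def B022E_102_1_3_1 :
    ∃ t, chk3 (onCell 0 26843545 0 1073741824 1020054732 13421774 (corT true 1 c0B cB022E gB1q0 gB0q2 gB2q2 gB3q2 true false)) t 1 3 1 = true :=
  ⟨(T.b (T.a (T.a (T.l 204) (T.a (T.b (T.l 204) (T.l 204)) (T.b (T.b (T.l 204) (T.l 204)) (T.l 204)))) (T.a (T.a (T.b (T.l 204) (T.l 204)) (T.b (T.l 204) (T.l 204))) (T.b (T.a (T.l 204) (T.l 204)) (T.b (T.l 204) (T.l 204))))) (T.a (T.a (T.l 204) (T.a (T.b (T.l 204) (T.l 0)) (T.b (T.l 204) (T.l 204)))) (T.a (T.a (T.l 0) (T.l 204)) (T.b (T.l 204) (T.l 204))))), by decide +kernel⟩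

theorem B022E_102 :
    ∃ t, chk3 (onCell 0 26843545 0 1073741824 1020054732 13421774 (corT true 1 c0B cB022E gB1q0 gB0q2 gB2q2 gB3q2 true false)) t 1 1 1 = true :=
  ex3_b B022E_102_1_2_1 B022E_102_1_3_1

def B022E_110 :
    ∃ t, chk3 (onCell 0 33554432 0 1073741824 1020054732 13421774 (corT true 1 c0B cB022E gB1q0 gB1q2 gB0q2 gB1q2 true true)) t 1 1 1 = true :=
  ⟨(T.l 2), by decide +kernel⟩

def B022E_111 :
    ∃ t, chk3 (onCell 0 33554432 0 1073741824 1020054732 13421774 (corT true 1 c0B cB022E gB1q0 gB1q2 gB1q2 gB2q2 true true)) t 1 1 1 = true :=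
  ⟨(T.l 2), by decide +kernel⟩

def B022E_112 :
    ∃ t, chk3 (onCell 0 33554432 0 1073741824 1020054732 13421774 (corT true 1 c0B cB022E gB1q0 gB1q2 gB2q2 gB3q2 true false)) t 1 1 1 = true :=
  ⟨(T.b (T.b (T.a (T.a (T.l 204) (T.l 204)) (T.b (T.a (T.l 204) (T.a (T.l 204) (T.b (T.l 204) (T.l 204)))) (T.a (T.l 204) (T.b (T.l 204) (T.l 204))))) (T.a (T.a (T.l 204) (T.b (T.l 204) (T.b (T.l 204) (T.l 204)))) (T.a (T.b (T.b (T.l 204) (T.l 204)) (T.l 204)) (T.b (T.b (T.l 204) (T.l 204)) (T.l 204))))) (T.b (T.a (T.a (T.l 204) (T.a (T.b (T.l 204) (T.l 204)) (T.b (T.l 204) (T.l 204)))) (T.a (T.b (T.l 204) (T.l 204)) (T.b (T.l 204) (T.l 204)))) (T.a (T.a (T.a (T.l 204) (T.b (T.l 0) (T.l 0))) (T.a (T.l 0) (T.l 0))) (T.a (T.b (T.l 204) (T.l 204)) (T.b (T.l 204) (T.l 204)))))), by decide +kernel⟩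

def B022E_120 :
    ∃ t, chk3 (onCell 0 38347922 0 1073741824 1020054732 13421774 (corT true 1 c0B cB022E gB1q0 gB2q2 gB0q2 gB1q2 true true)) t 1 1 1 = true :=
  ⟨(T.l 2), by decide +kernel⟩

def B022E_121 :
    ∃ t, chk3 (onCell 0 38347922 0 1073741824 1020054732 13421774 (corT true 1 c0B cB022E gB1q0 gB2q2 gB1q2 gB2q2 true true)) t 1 1 1 = true :=
  ⟨(T.l 2), by decide +kernel⟩

def B022E_122 :
    ∃ t, chk3 (onCell 0 38347922 0 1073741824 1020054732 13421774 (corT true 1 c0B cB022E gB1q0 gB2q2 gB2q2 gB3q2 true false)) t 1 1 1 = true :=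
  ⟨(T.b (T.b (T.a (T.l 0) (T.b (T.a (T.l 204) (T.l 0)) (T.a (T.l 204) (T.l 0)))) (T.a (T.a (T.l 0) (T.b (T.l 0) (T.l 0))) (T.a (T.b (T.l 0) (T.l 0)) (T.l 16)))) (T.b (T.a (T.a (T.l 0) (T.b (T.l 0) (T.l 0))) (T.b (T.l 0) (T.l 0))) (T.a (T.a (T.a (T.l 0) (T.b (T.l 0) (T.l 0))) (T.b (T.l 0) (T.l 0))) (T.b (T.l 0) (T.l 0))))), by decide +kernel⟩

def B022E_200 :
    ∃ t, chk3 (onCell 0 22369621 0 1073741824 1020054732 13421774 (corT true 1 c0B cB022E gB2q0 gB0q2 gB0q2 gB1q2 true true)) t 1 1 1 = true :=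
  ⟨(T.l 2), by decide +kernel⟩

def B022E_201 :
    ∃ t, chk3 (onCell 0 22369621 0 1073741824 1020054732 13421774 (corT true 1 c0B cB022E gB2q0 gB0q2 gB1q2 gB2q2 true true)) t 1 1 1 = true :=
  ⟨(T.l 2), by decide +kernel⟩

def B022E_202 :
    ∃ t, chk3 (onCell 0 22369621 0 1073741824 1020054732 13421774 (corT true 1 c0B cB022E gB2q0 gB0q2 gB2q2 gB3q2 true false)) t 1 1 1 = true :=
  ⟨(T.b (T.b (T.a (T.a (T.b (T.c (T.b (T.a (T.l 204) (T.l 204)) (T.l 204)) (T.l 204)) (T.l 204)) (T.a (T.b (T.c (T.b (T.c (T.l 204) (T.l 204)) (T.l 204)) (T.l 204)) (T.l 204)) (T.b (T.a (T.c (T.b (T.l 204) (T.l 204)) (T.l 204)) (T.c (T.b (T.a (T.l 204) (T.b (T.l 204) (T.l 204))) (T.l 204)) (T.l 204))) (T.l 204)))) (T.a (T.a (T.b (T.b (T.a (T.c (T.c (T.a (T.l 204) (T.l 204)) (T.l 204)) (T.l 204)) (T.c (T.a (T.l 204) (T.l 204)) (T.l 204))) (T.b (T.l 204)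 (T.l 204))) (T.l 204)) (T.b (T.b (T.a (T.c (T.a (T.l 204) (T.l 204)) (T.l 204)) (T.c (T.c (T.l 204) (T.l 204)) (T.l 204))) (T.l 204)) (T.l 204))) (T.b (T.a (T.b (T.b (T.a (T.c (T.l 204) (T.l 204)) (T.b (T.l 204) (T.l 204))) (T.l 204)) (T.l 204)) (T.b (T.b (T.a (T.c (T.l 204) (T.l 204)) (T.c (T.l 204) (T.b (T.l 204) (T.l 204)))) (T.l 204)) (T.l 204))) (T.b (T.l 204) (T.l 204))))) (T.a (T.a (T.l 204) (T.a (T.l 204) (T.l 204))) (T.a (T.b (T.l 204) (T.b (T.l 204) (T.l 204))) (T.b (T.b (T.l 204) (T.l 204)) (T.l 204))))) (T.b (T.a (T.a (T.l 204) (T.a (T.l 204) (T.b (T.l 204) (T.l 204)))) (T.a (T.b (T.b (T.l 204) (T.l 204)) (T.l 204)) (T.b (T.l 204) (T.l 204)))) (T.a (T.a (T.l 204) (T.a (T.l 0) (T.l 204))) (T.a (T.b (T.l 204) (T.l 204)) (T.l 0))))), by decide +kernel⟩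

def B022E_210 :
    ∃ t, chk3 (onCell 0 22369621 0 1073741824 1020054732 13421774 (corT true 1 c0B cB022E gB2q0 gB1q2 gB0q2 gB1q2 true true)) t 1 1 1 = true :=
  ⟨(T.l 2), by decide +kernel⟩

def B022E_211 :
    ∃ t, chk3 (onCell 0 22369621 0 1073741824 1020054732 13421774 (corT true 1 c0B cB022E gB2q0 gB1q2 gB1q2 gB2q2 true true)) t 1 1 1 = true :=
  ⟨(T.l 2), by decide +kernel⟩

def B022E_212 :
    ∃ t, chk3 (onCell 0 22369621 0 1073741824 1020054732 13421774 (corT true 1 c0B cB022E gB2q0 gB1q2 gB2q2 gB3q2 true false)) t 1 1 1 = true :=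
  ⟨(T.b (T.a (T.b (T.b (T.l 204) (T.l 204)) (T.l 204)) (T.b (T.b (T.l 204) (T.l 204)) (T.b (T.b (T.l 204) (T.l 204)) (T.b (T.l 204) (T.l 204))))) (T.b (T.a (T.a (T.l 204) (T.a (T.l 204) (T.l 204))) (T.a (T.b (T.l 204) (T.l 204)) (T.b (T.l 204) (T.l 204)))) (T.a (T.a (T.l 204) (T.b (T.l 204) (T.l 0))) (T.b (T.l 16) (T.l 0))))), by decide +kernel⟩

def B022E_220 :
    ∃ t, chk3 (onCell 0 33554432 0 1073741824 1020054732 13421774 (corT true 1 c0B cB022E gB2q0 gB2q2 gB0q2 gB1q2 true true)) t 1 1 1 = true :=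
  ⟨(T.l 2), by decide +kernel⟩

def B022E_221 :
    ∃ t, chk3 (onCell 0 33554432 0 1073741824 1020054732 13421774 (corT true 1 c0B cB022E gB2q0 gB2q2 gB1q2 gB2q2 true true)) t 1 1 1 = true :=
  ⟨(T.l 2), by decide +kernel⟩

def B022E_222 :
    ∃ t, chk3 (onCell 0 33554432 0 1073741824 1020054732 13421774 (corT true 1 c0B cB022E gB2q0 gB2q2 gB2q2 gB3q2 true false)) t 1 1 1 = true :=
  ⟨(T.b (T.b (T.a (T.l 0) (T.b (T.a (T.l 204) (T.l 0)) (T.b (T.l 0) (T.l 0)))) (T.b (T.a (T.l 204) (T.b (T.l 0) (T.l 0))) (T.a (T.a (T.l 204) (T.l 0)) (T.b (T.l 0) (T.l 0))))) (T.b (T.a (T.a (T.l 0) (T.b (T.l 0) (T.l 0))) (T.a (T.l 0) (T.l 0))) (T.a (T.a (T.a (T.l 0) (T.b (T.l 0) (T.l 0))) (T.b (T.l 0) (T.l 0))) (T.b (T.l 0) (T.l 0))))), by decide +kernel⟩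

def B022L_050 :
    ∃ t, chk3 (onCell 0 26843545 0 1073741824 1020054732 13421774 (corX 1 c0B cB022L tB022L gB0q0 gB5q2 gB0q2 gB1q2 gB0q2 true true)) t 1 1 1 = true :=
  ⟨(T.b (T.l 2) (T.b (T.b (T.a (T.l 819) (T.b (T.l 2) (T.a (T.l 819) (T.a (T.l 819) (T.b (T.l 0) (T.b (T.l 816) (T.l 816))))))) (T.b (T.a (T.l 819) (T.l 819)) (T.l 1))) (T.l 1))), by decide +kernel⟩

def B022L_051 :
    ∃ t, chk3 (onCell 0 26843545 0 1073741824 1020054732 13421774 (corT true 1 c0B cB022L gB0q0 gB5q2 gB1q2 gB2q2 true true)) t 1 1 1 = true :=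
  ⟨(T.b (T.b (T.l 0) (T.l 0)) (T.b (T.b (T.b (T.l 0) (T.b (T.l 0) (T.l 1))) (T.l 1)) (T.l 1))), by decide +kernel⟩

def B022L_052 :
    ∃ t, chk3 (onCell 0 26843545 0 1073741824 1020054732 13421774 (corT true 1 c0B cB022L gB0q0 gB5q2 gB2q2 gB3q2 true false)) t 1 1 1 = true :=
  ⟨(T.b (T.b (T.l 204) (T.l 1)) (T.l 1)), by decide +kernel⟩

def B022L_150 :
    ∃ t, chk3 (onCell 0 38347922 0 1073741824 1020054732 13421774 (corT true 1 c0B cB022L gB1q0 gB5q2 gB0q2 gB1q2 true true)) t 1 1 1 = true :=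
  ⟨(T.b (T.b (T.l 2) (T.b (T.l 2) (T.b (T.l 2) (T.b (T.a (T.a (T.l 816) (T.l 2)) (T.l 2)) (T.b (T.b (T.a (T.a (T.l 816) (T.l 816)) (T.a (T.l 0) (T.l 2))) (T.a (T.a (T.l 816) (T.l 0)) (T.a (T.l 0) (T.l 0)))) (T.b (T.a (T.a (T.l 816) (T.l 0)) (T.a (T.l 0) (T.l 0))) (T.a (T.a (T.l 816) (T.l 0)) (T.a (T.l 0) (T.l 0))))))))) (T.b (T.b (T.b (T.b (T.b (T.b (T.a (T.a (T.l 816) (T.l 0)) (T.a (T.l 0) (T.l 0))) (T.a (T.a (T.l 816) (T.l 0)) (T.a (T.l 0) (T.l 0)))) (T.b (T.a (T.a (T.l 816) (T.l 0)) (T.a (T.l 0) (T.l 0))) (T.a (T.a (T.l 816) (T.l 0)) (T.a (T.l 0) (T.l 0))))) (T.b (T.b (T.a (T.a (T.l 816) (T.l 0)) (T.a (T.l 0) (T.l 0))) (T.a (T.a (T.l 816) (T.l 0)) (T.a (T.l 0) (T.l 0)))) (T.b (T.a (T.a (T.l 816) (T.l 0)) (T.a (T.l 0) (T.l 0))) (T.a (T.a (T.l 816) (T.l 0)) (T.a (T.l 0) (T.l 0)))))) (T.a (T.l 1) (T.b (T.a (T.l 0) (T.l 0)) (T.l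 1)))) (T.l 1)) (T.l 1))), by decide +kernel⟩

def B022L_151 :
    ∃ t, chk3 (onCell 0 38347922 0 1073741824 1020054732 13421774 (corT true 1 c0B cB022L gB1q0 gB5q2 gB1q2 gB2q2 true true)) t 1 1 1 = true :=
  ⟨(T.b (T.b (T.a (T.l 0) (T.a (T.l 0) (T.b (T.l 2) (T.b (T.l 0) (T.l 0))))) (T.b (T.a (T.l 0) (T.b (T.l 0) (T.l 0))) (T.b (T.a (T.a (T.l 0) (T.l 0)) (T.l 0)) (T.a (T.a (T.l 816) (T.l 0)) (T.b (T.l 0) (T.l 0)))))) (T.l 1)), by decide +kernel⟩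

def B022L_152 :
    ∃ t, chk3 (onCell 0 38347922 0 1073741824 1020054732 13421774 (corT true 1 c0B cB022L gB1q0 gB5q2 gB2q2 gB3q2 true false)) t 1 1 1 = true :=
  ⟨(T.b (T.b (T.a (T.l 204) (T.b (T.b (T.l 0) (T.l 0)) (T.b (T.l 0) (T.l 1)))) (T.l 1)) (T.l 1)), by decide +kernel⟩

def B022L_250 :
    ∃ t, chk3 (onCell 0 38347922 0 1073741824 1020054732 13421774 (corT true 1 c0B cB022L gB2q0 gB5q2 gB0q2 gB1q2 true true)) t 1 1 1 = true :=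
  ⟨(T.b (T.b (T.l 2) (T.b (T.b (T.l 2) (T.b (T.b (T.l 2) (T.a (T.a (T.l 816) (T.a (T.l 816) (T.l 0))) (T.a (T.l 0) (T.l 2)))) (T.b (T.a (T.a (T.l 816) (T.a (T.l 816) (T.l 0))) (T.a (T.l 0) (T.l 0))) (T.a (T.a (T.l 816) (T.l 0)) (T.a (T.l 0) (T.l 0)))))) (T.b (T.b (T.b (T.a (T.a (T.l 0) (T.a (T.l 0) (T.l 0))) (T.a (T.l 0) (T.l 0))) (T.a (T.a (T.l 0) (T.l 0)) (T.a (T.l 0) (T.l 0)))) (T.b (T.a (T.a (T.l 0) (T.l 0)) (T.a (T.l 0) (T.l 0))) (T.a (T.a (T.l 1) (T.l 0)) (T.a (T.l 0) (T.l 0))))) (T.l 1)))) (T.l 1)), by decide +kernel⟩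

def B022L_251 :
    ∃ t, chk3 (onCell 0 38347922 0 1073741824 1020054732 13421774 (corT true 1 c0B cB022L gB2q0 gB5q2 gB1q2 gB2q2 true true)) t 1 1 1 = true :=
  ⟨(T.b (T.b (T.a (T.l 0) (T.a (T.l 0) (T.b (T.l 0) (T.b (T.l 0) (T.l 0))))) (T.b (T.a (T.l 0) (T.b (T.l 0) (T.l 0))) (T.l 1))) (T.l 1)), by decide +kernel⟩

def B022L_252 :
    ∃ t, chk3 (onCell 0 38347922 0 1073741824 1020054732 13421774 (corT true 1 c0B cB022L gB2q0 gB5q2 gB2q2 gB3q2 true false)) t 1 1 1 = true :=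
  ⟨(T.b (T.b (T.b (T.a (T.l 204) (T.b (T.l 0) (T.l 0))) (T.l 1)) (T.l 1)) (T.l 1)), by decide +kernel⟩

def B022R_004 :
    ∃ t, chk3 (onCell 0 38347922 0 1073741824 1020054732 13421774 (corT true 1 c0B cB022R gB0q0 gB0q2 gB4q2 gB5q2 false true)) t 1 1 1 = true :=
  ⟨(T.b (T.b (T.a (T.a (T.b (T.l 204) (T.l 204)) (T.a (T.a (T.l 204) (T.l 204)) (T.a (T.l 204) (T.l 204)))) (T.a (T.a (T.l 0) (T.l 0)) (T.a (T.b (T.a (T.l 204) (T.l 204)) (T.l 0)) (T.b (T.b (T.l 204) (T.l 204)) (T.l 0))))) (T.a (T.a (T.l 0) (T.a (T.l 0) (T.l 0))) (T.a (T.a (T.l 0) (T.l 0)) (T.l 0)))) (T.b (T.a (T.a (T.l 0) (T.a (T.l 0) (T.l 0))) (T.a (T.a (T.l 816) (T.l 0)) (T.a (T.l 0) (T.l 816)))) (T.a (T.a (T.l 816) (T.a (T.l 816) (T.l 816))) (T.a (T.a (T.l 816) (T.l 816)) (T.b (T.l 816) (T.l 816)))))), by decide +kernel⟩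

def B022R_014 :
    ∃ t, chk3 (onCell 0 38347922 0 1073741824 1020054732 13421774 (corT true 1 c0B cB022R gB0q0 gB1q2 gB4q2 gB5q2 false true)) t 1 1 1 = true :=
  ⟨(T.a (T.l 0) (T.b (T.a (T.l 0) (T.b (T.l 0) (T.l 0))) (T.a (T.b (T.l 0) (T.l 816)) (T.b (T.l 0) (T.l 816))))), by decide +kernel⟩

def B022R_024 :
    ∃ t, chk3 (onCell 0 38347922 0 1073741824 1020054732 13421774 (corT true 1 c0B cB022R gB0q0 gB2q2 gB4q2 gB5q2 false true)) t 1 1 1 = true :=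
  ⟨(T.a (T.l 0) (T.b (T.a (T.l 0) (T.b (T.l 0) (T.l 0))) (T.a (T.b (T.l 0) (T.l 0)) (T.b (T.l 0) (T.l 0))))), by decide +kernel⟩

def B022R_104 :
    ∃ t, chk3 (onCell 0 38347922 0 1073741824 1020054732 13421774 (corT true 1 c0B cB022R gB1q0 gB0q2 gB4q2 gB5q2 false true)) t 1 1 1 = true :=
  ⟨(T.b (T.a (T.a (T.b (T.l 204) (T.l 0)) (T.a (T.a (T.l 0) (T.l 0)) (T.b (T.c (T.l 0) (T.l 0)) (T.b (T.l 0) (T.l 0))))) (T.b (T.a (T.a (T.l 0) (T.l 0)) (T.b (T.a (T.a (T.l 204) (T.l 204)) (T.b (T.l 204) (T.l 204))) (T.b (T.l 0) (T.l 0)))) (T.a (T.a (T.b (T.l 0) (T.l 0)) (T.l 0)) (T.b (T.l 0) (T.l 0))))) (T.a (T.b (T.a (T.l 0) (T.a (T.l 0) (T.l 0))) (T.a (T.a (T.l 816) (T.b (T.l 0) (T.l 816))) (T.a (T.l 0) (T.l 816)))) (T.a (T.b (T.b (T.l 0) (T.l 816)) (T.l 0)) (T.b (T.l 0) (T.l 816))))), by decide +kernel⟩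

def B022R_114 :
    ∃ t, chk3 (onCell 0 38347922 0 1073741824 1020054732 13421774 (corT true 1 c0B cB022R gB1q0 gB1q2 gB4q2 gB5q2 false true)) t 1 1 1 = true :=
  ⟨(T.b (T.b (T.a (T.l 0) (T.a (T.l 0) (T.b (T.l 0) (T.l 0)))) (T.a (T.a (T.l 816) (T.b (T.l 816) (T.l 0))) (T.a (T.b (T.l 0) (T.l 816)) (T.l 0)))) (T.b (T.a (T.a (T.l 816) (T.b (T.l 0) (T.l 816))) (T.a (T.l 0) (T.l 816))) (T.a (T.a (T.a (T.l 816) (T.l 0)) (T.l 0)) (T.b (T.l 816) (T.l 816))))), by decide +kernel⟩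

def B022R_124 :
    ∃ t, chk3 (onCell 0 38347922 0 1073741824 1020054732 13421774 (corT true 1 c0B cB022R gB1q0 gB2q2 gB4q2 gB5q2 false true)) t 1 1 1 = true :=
  ⟨(T.b (T.b (T.a (T.l 0) (T.a (T.l 0) (T.b (T.l 0) (T.l 0)))) (T.b (T.a (T.l 0) (T.l 0)) (T.a (T.a (T.l 0) (T.l 0)) (T.l 0)))) (T.b (T.a (T.a (T.l 816) (T.l 0)) (T.b (T.l 0) (T.l 0))) (T.a (T.a (T.a (T.l 816) (T.l 0)) (T.l 0)) (T.l 0)))), by decide +kernel⟩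

def B022R_204 :
    ∃ t, chk3 (onCell 0 38347922 0 1073741824 1020054732 13421774 (corT true 1 c0B cB022R gB2q0 gB0q2 gB4q2 gB5q2 false true)) t 1 1 1 = true :=
  ⟨(T.b (T.b (T.a (T.a (T.b (T.l 204) (T.l 204)) (T.a (T.a (T.l 0) (T.l 0)) (T.a (T.l 0) (T.l 0)))) (T.a (T.a (T.l 0) (T.l 0)) (T.b (T.a (T.a (T.l 204) (T.l 204)) (T.a (T.l 204) (T.l 204))) (T.b (T.l 0) (T.l 0))))) (T.a (T.a (T.l 0) (T.a (T.l 0) (T.b (T.l 0) (T.l 0)))) (T.a (T.b (T.l 0) (T.l 0)) (T.b (T.l 0) (T.l 0))))) (T.b (T.a (T.a (T.l 816) (T.a (T.l 0) (T.l 0))) (T.a (T.l 0) (T.l 0))) (T.a (T.a (T.a (T.l 816) (T.l 0)) (T.b (T.l 0) (T.l 0))) (T.a (T.l 816) (T.l 816))))), by decide +kernel⟩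

def B022R_214 :
    ∃ t, chk3 (onCell 0 38347922 0 1073741824 1020054732 13421774 (corT true 1 c0B cB022R gB2q0 gB1q2 gB4q2 gB5q2 false true)) t 1 1 1 = true :=
  ⟨(T.b (T.b (T.a (T.l 0) (T.a (T.l 0) (T.b (T.l 0) (T.l 0)))) (T.a (T.b (T.l 816) (T.a (T.l 816) (T.l 0))) (T.a (T.b (T.l 0) (T.l 816)) (T.b (T.l 0) (T.l 816))))) (T.b (T.a (T.a (T.l 816) (T.b (T.l 816) (T.l 816))) (T.b (T.l 0) (T.l 0))) (T.a (T.a (T.a (T.l 816) (T.l 0)) (T.l 0)) (T.b (T.l 816) (T.l 816))))), by decide +kernel⟩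

def B022R_224 :
    ∃ t, chk3 (onCell 0 38347922 0 1073741824 1020054732 13421774 (corT true 1 c0B cB022R gB2q0 gB2q2 gB4q2 gB5q2 false true)) t 1 1 1 = true :=
  ⟨(T.b (T.b (T.a (T.l 0) (T.b (T.b (T.l 0) (T.l 0)) (T.b (T.l 0) (T.l 0)))) (T.b (T.a (T.l 0) (T.l 0)) (T.a (T.l 2) (T.l 0)))) (T.b (T.l 2) (T.l 2))), by decide +kernel⟩

def B101E_000 :
    ∃ t, chk3 (onCell 0 13421772 0 1073741824 1020054732 13421774 (corT true 1 c0B cB101E gB0q1 gB0q1 gB0q0 gB1q0 true true)) t 1 1 1 = true :=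
  ⟨(T.l 2), by decide +kernel⟩

def B101E_001 :
    ∃ t, chk3 (onCell 0 13421772 0 1073741824 1020054732 13421774 (corT true 1 c0B cB101E gB0q1 gB0q1 gB1q0 gB2q0 true true)) t 1 1 1 = true :=
  ⟨(T.l 2), by decide +kernel⟩

def B101E_002_2_2_1 :
    ∃ t, chk3 (onCell 0 13421772 0 1073741824 1020054732 13421774 (corT true 1 c0B cB101E gB0q1 gB0q1 gB2q0 gB3q0 true false)) t 2 2 1 = true :=
  ⟨(T.b (T.b (T.c (T.b (T.b (T.c (T.l 816) (T.b (T.l 816) (T.l 816))) (T.a (T.b (T.l 816) (T.l 816)) (T.l 816))) (T.a (T.b (T.l 816) (T.l 816)) (T.b (T.l 816) (T.l 816)))) (T.b (T.a (T.c (T.b (T.b (T.l 816) (T.l 816)) (T.l 816)) (T.b (T.c (T.b (T.l 816) (T.l 816)) (T.a (T.a (T.b (T.l 816) (T.l 816)) (T.l 816)) (T.b (T.l 816) (T.l 816)))) (T.a (T.c (T.l 816) (T.b (T.l 816) (T.l 816))) (T.b (T.l 816) (T.l 816))))) (T.c (T.b (T.l 816) (T.l 816)) (T.b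 (T.a (T.c (T.l 816) (T.l 816)) (T.b (T.l 816) (T.l 816))) (T.b (T.l 816) (T.l 816))))) (T.a (T.c (T.b (T.l 816) (T.l 816)) (T.a (T.c (T.l 816) (T.b (T.b (T.l 816) (T.l 816)) (T.l 816))) (T.b (T.l 816) (T.l 816)))) (T.c (T.b (T.l 816) (T.l 816)) (T.b (T.l 824) (T.l 816)))))) (T.c (T.a (T.b (T.b (T.l 816) (T.l 816)) (T.l 816)) (T.b (T.l 816) (T.l 816))) (T.a (T.b (T.c (T.b (T.l 816) (T.l 816)) (T.a (T.b (T.b (T.l 816) (T.l 816)) (T.l 816)) (T.l 816))) (T.c (T.l 816) (T.a (T.b (T.l 816) (T.l 816)) (T.l 816)))) (T.b (T.c (T.l 816) (T.b (T.l 816) (T.l 816))) (T.b (T.l 816) (T.l 816)))))) (T.b (T.c (T.a (T.b (T.l 816) (T.l 816)) (T.l 0)) (T.a (T.a (T.c (T.l 816) (T.b (T.l 816) (T.l 816))) (T.c (T.l 816) (T.l 816))) (T.b (T.b (T.l 816) (T.l 816)) (T.l 0)))) (T.c (T.a (T.b (T.l 816) (T.l 0)) (T.l 0)) (T.a (T.a (T.c (T.l 816) (T.b (T.l 816)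 (T.l 816))) (T.b (T.l 816) (T.l 0))) (T.b (T.l 0) (T.l 0)))))), by decide +kernel⟩

def B101E_002_2_3_1 :
    ∃ t, chk3 (onCell 0 13421772 0 1073741824 1020054732 13421774 (corT true 1 c0B cB101E gB0q1 gB0q1 gB2q0 gB3q0 true false)) t 2 3 1 = true :=
  ⟨(T.b (T.b (T.c (T.b (T.l 0) (T.l 0)) (T.a (T.a (T.b (T.l 0) (T.l 0)) (T.l 0)) (T.b (T.l 0) (T.l 0)))) (T.c (T.b (T.l 0) (T.l 0)) (T.a (T.b (T.l 0) (T.l 0)) (T.b (T.l 204) (T.l 204))))) (T.b (T.c (T.a (T.l 0) (T.l 236)) (T.a (T.b (T.l 32) (T.b (T.l 204) (T.l 204))) (T.b (T.l 204) (T.b (T.l 204) (T.l 204))))) (T.c (T.a (T.b (T.l 204) (T.l 204)) (T.b (T.l 204) (T.l 204))) (T.a (T.b (T.b (T.l 204) (T.l 204)) (T.c (T.l 204) (T.l 204))) (T.b (T.b (T.l 204) (T.l 204)) (T.c (T.l 204) (T.l 204))))))), by decide +kernel⟩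

def B101E_002_3_2_1 :
    ∃ t, chk3 (onCell 0 13421772 0 1073741824 1020054732 13421774 (corT true 1 c0B cB101E gB0q1 gB0q1 gB2q0 gB3q0 true false)) t 3 2 1 = true :=
  ⟨(T.a (T.b (T.b (T.c (T.b (T.b (T.b (T.l 816) (T.l 816)) (T.l 816)) (T.l 816)) (T.b (T.c (T.b (T.l 816) (T.l 816)) (T.b (T.b (T.l 816) (T.l 816)) (T.l 816))) (T.c (T.l 816) (T.l 824)))) (T.c (T.b (T.l 816) (T.l 816)) (T.b (T.b (T.l 816) (T.l 816)) (T.l 816)))) (T.c (T.b (T.l 0) (T.l 0)) (T.b (T.b (T.l 0) (T.l 0)) (T.l 32)))) (T.b (T.b (T.a (T.c (T.b (T.a (T.c (T.l 816) (T.l 816)) (T.b (T.l 816) (T.l 816))) (T.b (T.l 824) (T.l 816))) (T.b (T.a (T.b (T.c (T.l 816) (T.l 816)) (T.l 816)) (T.c (T.l 816) (T.b (T.l 816) (T.l 816)))) (T.a (T.l 816) (T.l 816)))) (T.c (T.b (T.a (T.b (T.l 816) (T.l 816)) (T.b (T.l 816) (T.l 816))) (T.b (T.l 816) (T.l 816))) (T.b (T.a (T.c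 (T.l 816) (T.b (T.l 816) (T.l 816))) (T.c (T.l 816) (T.l 816))) (T.a (T.l 816) (T.l 816))))) (T.a (T.c (T.l 816) (T.l 824)) (T.c (T.b (T.l 816) (T.l 816)) (T.b (T.l 816) (T.l 0))))) (T.a (T.c (T.l 0) (T.b (T.l 0) (T.l 0))) (T.c (T.l 512) (T.b (T.l 0) (T.l 0)))))), by decide +kernel⟩

def B101E_002_3_6_1 :
    ∃ t, chk3 (onCell 0 13421772 0 1073741824 1020054732 13421774 (corT true 1 c0B cB101E gB0q1 gB0q1 gB2q0 gB3q0 true false)) t 3 6 1 = true :=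
  ⟨(T.a (T.b (T.c (T.l 0) (T.b (T.l 204) (T.l 204))) (T.a (T.c (T.l 204) (T.l 204)) (T.b (T.c (T.l 204) (T.l 204)) (T.c (T.l 236) (T.b (T.l 204) (T.l 236)))))) (T.b (T.a (T.b (T.c (T.l 204) (T.l 204)) (T.c (T.l 204) (T.b (T.l 204) (T.l 204)))) (T.c (T.b (T.l 204) (T.l 204)) (T.b (T.l 204) (T.l 716)))) (T.a (T.c (T.b (T.l 204) (T.l 236)) (T.b (T.b (T.l 204) (T.l 204)) (T.a (T.l 204) (T.l 204)))) (T.c (T.b (T.l 204) (T.l 204)) (T.b (T.b (T.l 204) (T.l 204)) (T.b (T.l 204) (T.l 204))))))), by decide +kernel⟩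

def B101E_002_3_7_1 :
    ∃ t, chk3 (onCell 0 13421772 0 1073741824 1020054732 13421774 (corT true 1 c0B cB101E gB0q1 gB0q1 gB2q0 gB3q0 true false)) t 3 7 1 = true :=
  ⟨(T.a (T.b (T.a (T.b (T.c (T.l 204) (T.l 204)) (T.a (T.c (T.l 204) (T.l 204)) (T.c (T.l 204) (T.b (T.l 204) (T.l 204))))) (T.b (T.c (T.b (T.l 204) (T.l 204)) (T.a (T.l 236) (T.l 204))) (T.c (T.b (T.l 204) (T.l 204)) (T.a (T.b (T.l 204) (T.l 204)) (T.b (T.l 204) (T.l 204)))))) (T.a (T.a (T.b (T.c (T.l 204) (T.l 204)) (T.c (T.b (T.l 204) (T.l 204)) (T.a (T.l 204) (T.b (T.l 204) (T.l 204))))) (T.c (T.b (T.l 204) (T.b (T.l 204) (T.l 204))) (T.b (T.c (T.l 204) (T.l 236)) (T.c (T.l 204) (T.b (T.l 204) (T.l 204)))))) (T.b (T.c (T.a (T.l 204) (T.l 204)) (T.a (T.b (T.l 204) (T.l 204)) (T.b (T.l 204) (T.l 204)))) (T.c (T.a (T.b (T.l 204) (T.l 204)) (T.b (T.l 204) (T.l 204)))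 (T.a (T.c (T.l 204) (T.b (T.l 204) (T.l 204))) (T.c (T.l 204) (T.b (T.l 204) (T.l 204)))))))) (T.b (T.a (T.c (T.b (T.b (T.l 204) (T.l 204)) (T.b (T.l 204) (T.l 236))) (T.b (T.a (T.l 204) (T.l 204)) (T.a (T.b (T.l 204) (T.l 204)) (T.l 236)))) (T.c (T.b (T.b (T.l 204) (T.l 204)) (T.b (T.l 204) (T.l 204))) (T.b (T.b (T.l 716) (T.l 748)) (T.a (T.l 204) (T.l 204))))) (T.a (T.c (T.b (T.a (T.l 204) (T.l 204)) (T.a (T.b (T.l 204) (T.l 204)) (T.b (T.l 204) (T.l 204)))) (T.a (T.b (T.b (T.l 204) (T.l 204)) (T.c (T.l 204) (T.b (T.l 204) (T.l 204)))) (T.b (T.b (T.l 204) (T.l 204)) (T.c (T.l 204) (T.l 204))))) (T.c (T.b (T.a (T.l 204) (T.l 204)) (T.a (T.l 236) (T.l 236))) (T.b (T.a (T.b (T.l 204) (T.l 204)) (T.b (T.l 204) (T.l 204))) (T.a (T.c (T.l 204) (T.l 204)) (T.b (T.l 204) (T.l 236)))))))), by decide +kernel⟩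

theorem B101E_002_3_3_1 :
    ∃ t, chk3 (onCell 0 13421772 0 1073741824 1020054732 13421774 (corT true 1 c0B cB101E gB0q1 gB0q1 gB2q0 gB3q0 true false)) t 3 3 1 = true :=
  ex3_b B101E_002_3_6_1 B101E_002_3_7_1
theorem B101E_002_3_1_1 :
    ∃ t, chk3 (onCell 0 13421772 0 1073741824 1020054732 13421774 (corT true 1 c0B cB101E gB0q1 gB0q1 gB2q0 gB3q0 true false)) t 3 1 1 = true :=
  ex3_b B101E_002_3_2_1 B101E_002_3_3_1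
theorem B101E_002_2_1_1 :
    ∃ t, chk3 (onCell 0 13421772 0 1073741824 1020054732 13421774 (corT true 1 c0B cB101E gB0q1 gB0q1 gB2q0 gB3q0 true false)) t 2 1 1 = true :=
  ex3_b B101E_002_2_2_1 B101E_002_2_3_1
theorem B101E_002 :
    ∃ t, chk3 (onCell 0 13421772 0 1073741824 1020054732 13421774 (corT true 1 c0B cB101E gB0q1 gB0q1 gB2q0 gB3q0 true false)) t 1 1 1 = true :=
  ex3_a B101E_002_2_1_1 B101E_002_3_1_1

def B101L_300 :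
    ∃ t, chk3 (onCell 0 38347922 0 1073741824 1020054732 13421774 (corT true 1 c0B cB101L gB3q1 gB0q1 gB0q0 gB1q0 true true)) t 1 1 1 = true :=
  ⟨(T.b (T.l 1) (T.b (T.l 1) (T.b (T.l 1) (T.b (T.l 1) (T.b (T.l 1) (T.b (T.b (T.l 1) (T.b (T.l 1) (T.b (T.l 1) (T.b (T.a (T.a (T.a (T.l 816) (T.l 816)) (T.l 816)) (T.a (T.l 816) (T.l 816))) (T.a (T.a (T.a (T.l 816) (T.l 816)) (T.l 816)) (T.a (T.l 816) (T.l 816))))))) (T.b (T.b (T.b (T.b (T.a (T.a (T.a (T.l 816) (T.l 816)) (T.l 816)) (T.a (T.l 816) (T.l 816))) (T.a (T.a (T.a (T.l 816) (T.l 816)) (T.l 816)) (T.a (T.l 816) (T.l 816)))) (T.a (T.a (T.a (T.l 816) (T.l 816)) (T.l 816)) (T.a (T.l 816) (T.l 816)))) (T.a (T.a (T.a (T.l 816) (T.l 816)) (T.l 816)) (T.a (T.l 816) (T.l 816)))) (T.a (T.a (T.a (T.l 816) (T.l 816)) (T.l 816)) (T.a (T.l 816) (T.l 816)))))))))), by decide +kernel⟩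

def B101L_301 :
    ∃ t, chk3 (onCell 0 38347922 0 1073741824 1020054732 13421774 (corT true 1 c0B cB101L gB3q1 gB0q1 gB1q0 gB2q0 true true)) t 1 1 1 = true :=
  ⟨(T.l 1), by decide +kernel⟩

def B101L_302 :
    ∃ t, chk3 (onCell 0 38347922 0 1073741824 1020054732 13421774 (corT true 1 c0B cB101L gB3q1 gB0q1 gB2q0 gB3q0 true false)) t 1 1 1 = true :=
  ⟨(T.l 1), by decide +kernel⟩

def B101L_400 :
    ∃ t, chk3 (onCell 0 38347922 0 1073741824 1020054732 13421774 (corT true 1 c0B cB101L gB4q1 gB0q1 gB0q0 gB1q0 true true)) t 1 1 1 = true :=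
  ⟨(T.b (T.l 1) (T.b (T.l 1) (T.b (T.b (T.b (T.b (T.a (T.l 1) (T.l 1)) (T.b (T.b (T.b (T.b (T.a (T.a (T.a (T.l 204) (T.l 204)) (T.l 204)) (T.a (T.l 204) (T.l 204))) (T.a (T.a (T.a (T.l 204) (T.l 204)) (T.l 204)) (T.a (T.l 204) (T.l 204)))) (T.b (T.a (T.a (T.a (T.l 204) (T.l 204)) (T.l 204)) (T.a (T.l 204) (T.l 204))) (T.a (T.a (T.a (T.l 204) (T.l 204)) (T.l 204)) (T.a (T.l 204) (T.l 204))))) (T.b (T.b (T.a (T.a (T.a (T.l 204) (T.l 204)) (T.l 204)) (T.a (T.l 204) (T.l 204))) (T.a (T.a (T.a (T.l 204) (T.l 204)) (T.l 204)) (T.a (T.l 204) (T.l 204)))) (T.a (T.a (T.a (T.l 204) (T.l 204)) (T.l 204)) (T.a (T.l 204) (T.l 204))))) (T.b (T.a (T.a (T.a (T.l 204) (T.l 204)) (T.l 204)) (T.a (T.l 204) (T.l 204))) (T.a (T.a (T.a (T.l 204) (T.l 204)) (T.l 204)) (T.a (T.l 204) (T.l 204)))))) (T.b (T.a (T.a (T.a (T.l 204) (T.l 0)) (T.l 0)) (T.a (T.l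 0) (T.l 204))) (T.a (T.a (T.a (T.l 204) (T.l 0)) (T.l 0)) (T.a (T.l 0) (T.l 204))))) (T.b (T.a (T.a (T.a (T.l 204) (T.l 0)) (T.l 0)) (T.a (T.l 0) (T.l 0))) (T.a (T.a (T.a (T.l 204) (T.l 0)) (T.l 0)) (T.a (T.l 0) (T.l 0))))) (T.b (T.b (T.a (T.a (T.a (T.l 204) (T.l 0)) (T.l 0)) (T.a (T.l 0) (T.l 0))) (T.a (T.a (T.a (T.l 204) (T.l 0)) (T.l 0)) (T.a (T.l 0) (T.l 0)))) (T.b (T.b (T.a (T.a (T.a (T.l 204) (T.l 0)) (T.l 0)) (T.l 0)) (T.a (T.a (T.a (T.l 204) (T.l 0)) (T.l 0)) (T.l 2))) (T.l 2)))))), by decide +kernel⟩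

def B101L_401 :
    ∃ t, chk3 (onCell 0 38347922 0 1073741824 1020054732 13421774 (corT true 1 c0B cB101L gB4q1 gB0q1 gB1q0 gB2q0 true true)) t 1 1 1 = true :=
  ⟨(T.b (T.l 1) (T.b (T.l 1) (T.b (T.l 1) (T.b (T.l 1) (T.a (T.a (T.a (T.l 204) (T.l 0)) (T.l 0)) (T.l 0)))))), by decide +kernel⟩

def B101L_402 :
    ∃ t, chk3 (onCell 0 38347922 0 1073741824 1020054732 13421774 (corT true 1 c0B cB101L gB4q1 gB0q1 gB2q0 gB3q0 true false)) t 1 1 1 = true :=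
  ⟨(T.l 1), by decide +kernel⟩

def B101L_500 :
    ∃ t, chk3 (onCell 0 26843545 0 1073741824 1020054732 13421774 (corX 1 c0B cB101L tB101L gB5q1 gB0q1 gB0q0 gB1q0 gB0q0 true true)) t 1 1 1 = true :=
  ⟨(T.b (T.l 1) (T.b (T.b (T.l 1) (T.a (T.a (T.l 207) (T.l 3)) (T.l 19))) (T.b (T.b (T.b (T.a (T.a (T.l 207) (T.l 3)) (T.a (T.l 3) (T.l 0))) (T.b (T.a (T.a (T.l 207) (T.l 3)) (T.a (T.l 3) (T.l 0))) (T.a (T.a (T.l 207) (T.l 3)) (T.a (T.l 3) (T.l 0))))) (T.b (T.b (T.a (T.a (T.l 207) (T.l 3)) (T.a (T.l 3) (T.l 0))) (T.a (T.a (T.l 207) (T.l 3)) (T.l 16))) (T.l 2))) (T.l 2)))), by decide +kernel⟩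

def B101L_501 :
    ∃ t, chk3 (onCell 0 26843545 0 1073741824 1020054732 13421774 (corT true 1 c0B cB101L gB5q1 gB0q1 gB1q0 gB2q0 true true)) t 1 1 1 = true :=
  ⟨(T.b (T.l 1) (T.b (T.l 1) (T.b (T.b (T.l 1) (T.a (T.a (T.l 204) (T.l 0)) (T.l 0))) (T.b (T.a (T.a (T.l 204) (T.l 0)) (T.l 0)) (T.a (T.a (T.l 0) (T.l 0)) (T.l 0)))))), by decide +kernel⟩

def B101L_502 :
    ∃ t, chk3 (onCell 0 26843545 0 1073741824 1020054732 13421774 (corT true 1 c0B cB101L gB5q1 gB0q1 gB2q0 gB3q0 true false)) t 1 1 1 = true :=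
  ⟨(T.l 1), by decide +kernel⟩

def B101R_030 :
    ∃ t, chk3 (onCell 0 38347922 0 1073741824 1020054732 13421774 (corT true 1 c0B cB101R gB0q1 gB3q1 gB0q0 gB1q0 true true)) t 1 1 1 = true :=
  ⟨(T.l 1), by decide +kernel⟩

def B101R_031 :
    ∃ t, chk3 (onCell 0 38347922 0 1073741824 1020054732 13421774 (corT true 1 c0B cB101R gB0q1 gB3q1 gB1q0 gB2q0 true true)) t 1 1 1 = true :=
  ⟨(T.l 1), by decide +kernel⟩

def B101R_032 :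
    ∃ t, chk3 (onCell 0 38347922 0 1073741824 1020054732 13421774 (corT true 1 c0B cB101R gB0q1 gB3q1 gB2q0 gB3q0 true false)) t 1 1 1 = true :=
  ⟨(T.l 1), by decide +kernel⟩

def B101R_040 :
    ∃ t, chk3 (onCell 0 38347922 0 1073741824 1020054732 13421774 (corT true 1 c0B cB101R gB0q1 gB4q1 gB0q0 gB1q0 true true)) t 1 1 1 = true :=
  ⟨(T.l 1), by decide +kernel⟩

def B101R_041 :
    ∃ t, chk3 (onCell 0 38347922 0 1073741824 1020054732 13421774 (corT true 1 c0B cB101R gB0q1 gB4q1 gB1q0 gB2q0 true true)) t 1 1 1 = true :=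
  ⟨(T.l 1), by decide +kernel⟩

def B101R_042 :
    ∃ t, chk3 (onCell 0 38347922 0 1073741824 1020054732 13421774 (corT true 1 c0B cB101R gB0q1 gB4q1 gB2q0 gB3q0 true false)) t 1 1 1 = true :=
  ⟨(T.l 1), by decide +kernel⟩

def B101R_050 :
    ∃ t, chk3 (onCell 0 38347922 0 1073741824 1020054732 13421774 (corT true 1 c0B cB101R gB0q1 gB5q1 gB0q0 gB1q0 true true)) t 1 1 1 = true :=
  ⟨(T.l 1), by decide +kernel⟩

def B101R_051 :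
    ∃ t, chk3 (onCell 0 38347922 0 1073741824 1020054732 13421774 (corT true 1 c0B cB101R gB0q1 gB5q1 gB1q0 gB2q0 true true)) t 1 1 1 = true :=
  ⟨(T.l 1), by decide +kernel⟩

def B101R_052 :
    ∃ t, chk3 (onCell 0 38347922 0 1073741824 1020054732 13421774 (corT true 1 c0B cB101R gB0q1 gB5q1 gB2q0 gB3q0 true false)) t 1 1 1 = true :=
  ⟨(T.l 1), by decide +kernel⟩

def B102E_000 :
    ∃ t, chk3 (onCell 0 11184810 0 1073741824 1020054732 13421774 (corX 1 c0B cB102E tB102E gB0q1 gB0q2 gB0q0 gB1q0 gB0q0 true true)) t 1 1 1 = true :=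
  ⟨(T.b (T.b (T.l 1) (T.b (T.l 1) (T.b (T.l 1) (T.b (T.l 1) (T.b (T.l 1) (T.a (T.b (T.l 1) (T.a (T.c (T.l 207) (T.l 207)) (T.l 1))) (T.l 1))))))) (T.b (T.a (T.b (T.c (T.a (T.c (T.l 719) (T.l 207)) (T.c (T.b (T.l 207) (T.l 207)) (T.l 207))) (T.a (T.c (T.l 207) (T.l 207)) (T.b (T.l 207) (T.l 207)))) (T.l 2)) (T.a (T.b (T.a (T.c (T.c (T.l 719) (T.l 207)) (T.l 207)) (T.c (T.a (T.a (T.c (T.l 207) (T.l 207)) (T.l 719)) (T.b (T.l 719) (T.l 719))) (T.a (T.c (T.l 207) (T.l 207)) (T.l 207)))) (T.l 2)) (T.b (T.a (T.c (T.a (T.l 207) (T.l 207)) (T.c (T.l 207) (T.l 207))) (T.c (T.l 719) (T.l 207))) (T.l 2)))) (T.l 2))), by decide +kernel⟩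

def B102E_001_1_2_1 :
    ∃ t, chk3 (onCell 0 11184810 0 1073741824 1020054732 13421774 (corT true 1 c0B cB102E gB0q1 gB0q2 gB1q0 gB2q0 true true)) t 1 2 1 = true :=
  ⟨(T.l 1), by decide +kernel⟩

def B102E_001_1_6_1 :
    ∃ t, chk3 (onCell 0 11184810 0 1073741824 1020054732 13421774 (corT true 1 c0B cB102E gB0q1 gB0q2 gB1q0 gB2q0 true true)) t 1 6 1 = true :=
  ⟨(T.a (T.b (T.b (T.l 1) (T.b (T.l 1) (T.c (T.c (T.b (T.a (T.b (T.l 204) (T.l 204)) (T.l 716)) (T.l 204)) (T.b (T.a (T.l 204) (T.l 204)) (T.l 204))) (T.b (T.b (T.b (T.l 1) (T.a (T.l 204) (T.l 204))) (T.l 204)) (T.l 204))))) (T.c (T.b (T.b (T.b (T.l 204) (T.l 204)) (T.l 204)) (T.l 0)) (T.b (T.b (T.l 0) (T.l 0)) (T.l 0)))) (T.a (T.a (T.b (T.b (T.l 1) (T.b (T.l 1) (T.c (T.c (T.b (T.l 716) (T.l 204)) (T.l 716)) (T.c (T.l 204) (T.l 204))))) (T.c (T.c (T.l 512) (T.l 0)) (T.b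 (T.l 0) (T.l 0)))) (T.b (T.b (T.l 1) (T.b (T.l 1) (T.c (T.a (T.c (T.b (T.a (T.c (T.l 716) (T.l 716)) (T.l 716)) (T.l 716)) (T.a (T.l 716) (T.l 204))) (T.c (T.b (T.l 716) (T.l 204)) (T.l 716))) (T.a (T.b (T.c (T.l 716) (T.l 204)) (T.l 716)) (T.c (T.l 204) (T.l 204)))))) (T.c (T.a (T.b (T.b (T.c (T.l 204) (T.l 204)) (T.l 0)) (T.l 0)) (T.b (T.b (T.l 716) (T.l 0)) (T.l 0))) (T.a (T.b (T.b (T.l 0) (T.l 0)) (T.l 128)) (T.c (T.l 512) (T.l 0)))))) (T.a (T.b (T.b (T.l 1) (T.b (T.l 1) (T.c (T.a (T.b (T.l 716) (T.l 204)) (T.l 716)) (T.a (T.b (T.l 204) (T.l 204)) (T.l 204))))) (T.c (T.a (T.b (T.b (T.l 204) (T.l 0)) (T.l 0)) (T.b (T.l 512) (T.l 0))) (T.a (T.b (T.l 0) (T.l 128)) (T.b (T.l 0) (T.l 128))))) (T.b (T.b (T.l 1) (T.b (T.l 1) (T.c (T.b (T.l 716) (T.l 204)) (T.b (T.l 204) (T.l 0))))) (T.c (T.b (T.b (T.l 716) (T.l 0)) (T.b (T.l 0) (T.l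 0))) (T.a (T.b (T.l 0) (T.l 128)) (T.b (T.l 0) (T.l 128)))))))), by decide +kernel⟩

def B102E_001_1_7_1 :
    ∃ t, chk3 (onCell 0 11184810 0 1073741824 1020054732 13421774 (corT true 1 c0B cB102E gB0q1 gB0q2 gB1q0 gB2q0 true true)) t 1 7 1 = true :=
  ⟨(T.b (T.b (T.a (T.c (T.l 0) (T.l 0)) (T.a (T.a (T.c (T.l 0) (T.l 816)) (T.c (T.a (T.l 0) (T.l 0)) (T.a (T.c (T.l 816) (T.l 816)) (T.c (T.l 816) (T.l 816))))) (T.a (T.c (T.a (T.l 0) (T.l 0)) (T.a (T.c (T.l 816) (T.l 816)) (T.c (T.l 816) (T.l 944)))) (T.c (T.a (T.l 0) (T.l 0)) (T.a (T.c (T.l 816) (T.l 944)) (T.c (T.l 816) (T.l 944))))))) (T.l 2)) (T.l 2)), by decide +kernel⟩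

theorem B102E_001_1_3_1 :
    ∃ t, chk3 (onCell 0 11184810 0 1073741824 1020054732 13421774 (corT true 1 c0B cB102E gB0q1 gB0q2 gB1q0 gB2q0 true true)) t 1 3 1 = true :=
  ex3_b B102E_001_1_6_1 B102E_001_1_7_1
theorem B102E_001 :
    ∃ t, chk3 (onCell 0 11184810 0 1073741824 1020054732 13421774 (corT true 1 c0B cB102E gB0q1 gB0q2 gB1q0 gB2q0 true true)) t 1 1 1 = true :=
  ex3_b B102E_001_1_2_1 B102E_001_1_3_1

def B102E_002 :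
    ∃ t, chk3 (onCell 0 11184810 0 1073741824 1020054732 13421774 (corT true 1 c0B cB102E gB0q1 gB0q2 gB2q0 gB3q0 true false)) t 1 1 1 = true :=
  ⟨(T.b (T.l 1) (T.b (T.l 1) (T.a (T.b (T.b (T.b (T.l 1) (T.c (T.l 0) (T.b (T.l 1) (T.l 816)))) (T.c (T.l 0) (T.l 0))) (T.c (T.b (T.l 204) (T.l 204)) (T.c (T.l 0) (T.b (T.l 0) (T.l 204))))) (T.a (T.a (T.c (T.b (T.b (T.b (T.l 1) (T.l 0)) (T.l 0)) (T.l 204)) (T.b (T.b (T.b (T.l 1) (T.b (T.l 1) (T.l 816))) (T.l 0)) (T.b (T.l 0) (T.l 204)))) (T.c (T.b (T.b (T.b (T.l 1) (T.b (T.l 1) (T.l 0))) (T.l 0)) (T.c (T.l 204) (T.l 204))) (T.b (T.b (T.b (T.l 1) (T.b (T.l 1) (T.c (T.l 816) (T.l 944)))) (T.b (T.l 128) (T.l 0))) (T.c (T.l 236) (T.a (T.l 204) (T.l 204)))))) (T.b (T.b (T.b (T.l 1) (T.b (T.l 1) (T.c (T.a (T.l 0) (T.l 0)) (T.a (T.c (T.l 816) (T.l 944)) (T.c (T.l 816) (T.l 944)))))) (T.c (T.a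 (T.l 0) (T.l 0)) (T.a (T.b (T.l 128) (T.l 0)) (T.c (T.l 0) (T.l 0))))) (T.a (T.c (T.b (T.l 204) (T.l 204)) (T.c (T.l 204) (T.l 32))) (T.b (T.c (T.l 204) (T.l 204)) (T.c (T.a (T.l 204) (T.l 204)) (T.a (T.l 204) (T.b (T.l 204) (T.l 204))))))))))), by decide +kernel⟩

def B102E_010_1_2_1 :
    ∃ t, chk3 (onCell 0 16777216 0 1073741824 1020054732 13421774 (corT true 1 c0B cB102E gB0q1 gB1q2 gB0q0 gB1q0 true true)) t 1 2 1 = true :=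
  ⟨(T.b (T.l 1) (T.b (T.l 1) (T.b (T.l 1) (T.b (T.b (T.b (T.a (T.a (T.b (T.l 1) (T.b (T.l 1) (T.b (T.l 1) (T.a (T.b (T.a (T.l 816) (T.b (T.l 1) (T.l 816))) (T.l 816)) (T.b (T.l 1) (T.a (T.c (T.l 816) (T.l 816)) (T.l 1))))))) (T.l 1)) (T.l 1)) (T.a (T.a (T.c (T.l 816) (T.a (T.l 816) (T.l 816))) (T.a (T.b (T.c (T.l 816) (T.b (T.a (T.l 816) (T.c (T.l 816) (T.b (T.b (T.l 1) (T.l 816)) (T.l 816)))) (T.l 816))) (T.l 816)) (T.b (T.b (T.b (T.l 1) (T.c (T.l 816) (T.l 820))) (T.l 816)) (T.l 816)))) (T.a (T.b (T.b (T.l 1) (T.a (T.l 816) (T.c (T.l 816) (T.l 820)))) (T.c (T.l 816) (T.l 816))) (T.b (T.a (T.b (T.l 1) (T.b (T.l 1) (T.l 816))) (T.l 1)) (T.c (T.l 816) (T.l 816)))))) (T.a (T.a (T.l 816) (T.a (T.l 816) (T.l 816))) (T.a (T.b (T.l 816) (T.l 816)) (T.l 816)))) (T.a (T.a (T.l 816) (T.a (T.l 816) (T.l 816))) (T.a (T.l 0) (T.l 816))))))),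 by decide +kernel⟩

def B102E_010_1_3_1 :
    ∃ t, chk3 (onCell 0 16777216 0 1073741824 1020054732 13421774 (corT true 1 c0B cB102E gB0q1 gB1q2 gB0q0 gB1q0 true true)) t 1 3 1 = true :=
  ⟨(T.b (T.b (T.b (T.b (T.a (T.a (T.l 816) (T.a (T.l 816) (T.l 0))) (T.a (T.l 0) (T.l 0))) (T.b (T.a (T.a (T.l 0) (T.a (T.l 0) (T.l 0))) (T.a (T.l 0) (T.l 0))) (T.b (T.b (T.b (T.a (T.a (T.l 0) (T.a (T.l 0) (T.l 0))) (T.a (T.l 0) (T.l 0))) (T.a (T.a (T.l 0) (T.a (T.l 0) (T.l 0))) (T.a (T.l 0) (T.l 0)))) (T.b (T.a (T.a (T.l 0) (T.a (T.l 0) (T.l 0))) (T.a (T.l 0) (T.l 0))) (T.a (T.a (T.l 0) (T.a (T.l 0) (T.l 0))) (T.a (T.l 0) (T.l 0))))) (T.b (T.b (T.a (T.a (T.l 0) (T.a (T.l 0) (T.l 0))) (T.a (T.l 0) (T.l 0))) (T.a (T.a (T.l 2) (T.a (T.l 0) (T.l 0))) (T.a (T.l 0) (T.l 0)))) (T.a (T.l 2) (T.a (T.l 2) (T.l 0))))))) (T.l 2)) (T.l 2)) (T.l 2)), by decide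 +kernel⟩

theorem B102E_010 :
    ∃ t, chk3 (onCell 0 16777216 0 1073741824 1020054732 13421774 (corT true 1 c0B cB102E gB0q1 gB1q2 gB0q0 gB1q0 true true)) t 1 1 1 = true :=
  ex3_b B102E_010_1_2_1 B102E_010_1_3_1

end Pool.Agent.Strip051.G.I9500_9625.Tab.CG
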