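import Pool.Agent.Strip051.G.I9500_9625.Tab

/-! # Certificates B15 (generated) -/

set_option linter.all false
set_option maxRecDepth 100000

namespace Pool.Agent.Strip051.G.I9500_9625.Tab.C.BA45

open Pool.Agent.Strip051.PB Pool.Agent.Strip051.PB.T
open Pool.Agent.Strip051.G.I9500_9625.Tab

noncomputable def f_pm_102 : ℕ → ℕ → ℕ → ℕ → Bool := onCell 536870912 536870912 1073741824 536870912 1020054732 13421774
    (rowB 3 eng mog cd4q1 cd5q0 pd2 1 true true false .npp 1 0 2 (qsf 536870912 536870912 0 536870912 2) ndB4q1 ndB5q0 pcB2 Cut.none Ext.none)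

def k0_pm_102 : ∃ t, chk3 f_pm_102 t 1 1 1 = true :=
  ⟨(a (b (b (l 3) (b (b (b (l 3) (a (l 2) (b (l 14837544) (b (l 14826232) (l 14816528))))) (a (l 2) (l 14772024))) (a (l 2) (a (l 14707864) (l 14612248))))) (a (l 2) (b (b (a (l 2) (l 14455000)) (l 2)) (l 2)))) (b (b (b (l 3) (a (l 3) (b (l 3) (a (l 3) (l 13777544))))) (b (a (b (b (l 14489672) (b (l 14479352) (b (l 14470504) (l 14455496)))) (l 14421336)) (b (b (a (l 14103536) (l 13787688)) (b (l 13934208) (b (l 13916768) (l 13891376)))) (l 13869672))) (a (l 14349024) (a (l 13994432) (l 13690952))))) (a (b (b (l 14239440) (a (l 14186064) (l 14040656))) (a (l 2) (b (l 13899632) (l 2)))) (b (a (l 13874136) (l 13609624)) (a (l 13522616) (l 13441792)))))), by decide +kernel⟩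

theorem c_pm_102 : CertB 536870912 536870912 0 536870912 1020054732 13421774 3 eng mog cd4q1 cd5q0 pd2 true true false .npp 1 0 2
    ndB4q1 ndB5q0 pcB2 Cut.none Ext.none :=
  certB1 (fam := true) (s1 := true) (s2 := false) (a := 1) (b := 0) (c := 2) (cn := .npp) (n1 := ndB4q1) (n2 := ndB5q0) (pc := pcB2) (cut := Cut.none) (xt := Ext.none) (P1 := 536870912) (W1 := 536870912) (P2 := 0) (W2 := 536870912) (P3 := 1020054732) (W3 := 13421774) (N0 := 3) (En := eng) (mo := mog) (C1 := cd4q1) (C2 := cd5q0) (C3 := pd2)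
    rfl (fun _ => rfl) k0_pm_102

noncomputable def f_pm_112 : ℕ → ℕ → ℕ → ℕ → Bool := onCell 1073741824 536870912 536870912 536870912 1020054732 13421774
    (rowB 3 eng mog cd4q1 cd5q1 pd2 2 true true false .dn 1 1 2 (qsf 536870912 536870912 536870912 536870912 2) ndB4q1 ndB5q1 pcB2 Cut.none Ext.none)

def k0_pm_112 : ∃ t, chk3 f_pm_112 t 1 1 1 = true :=
  ⟨(a (a (l 3) (b (a (a (a (l 3) (a (l 3) (a (b (l 14979792) (l 3)) (b (l 14965704) (l 14952568))))) (b (l 14901536) (l 14902224))) (b (l 14723080) (l 14759592))) (b (a (l 1) (l 14566616)) (l 1)))) (b (b (a (l 14336952) (l 13766080)) (a (l 14441560) (l 13961936))) (b (a (l 14327544) (l 13940712)) (b (l 491264255031) (a (l 1) (l 13573232)))))), by decide +kernel⟩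

theorem c_pm_112 : CertB 536870912 536870912 536870912 536870912 1020054732 13421774 3 eng mog cd4q1 cd5q1 pd2 true true false .dn 1 1 2
    ndB4q1 ndB5q1 pcB2 Cut.none Ext.none :=
  certB2 (fam := true) (s1 := true) (s2 := false) (a := 1) (b := 1) (c := 2) (cn := .dn) (n1 := ndB4q1) (n2 := ndB5q1) (pc := pcB2) (cut := Cut.none) (xt := Ext.none) (P1 := 536870912) (W1 := 536870912) (P2 := 536870912) (W2 := 536870912) (P3 := 1020054732) (W3 := 13421774) (N0 := 3) (En := eng) (mo := mog) (C1 := cd4q1) (C2 := cd5q1) (C3 := pd2)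
    rfl (fun _ => rfl) k0_pm_112

noncomputable def f_pm_113 : ℕ → ℕ → ℕ → ℕ → Bool := onCell 536870912 536870912 536870912 536870912 1020054732 13421774
    (rowB 3 eng mog cd4q1 cd5q1 pd3 0 true true false .nn 1 1 3 (qsf 536870912 536870912 536870912 536870912 3) ndB4q1 ndB5q1 pcB3 Cut.none Ext.none)

def k0_pm_113 : ∃ t, chk3 f_pm_113 t 1 1 1 = true :=
  ⟨(a (b (b (l 1) (a (l 1) (l 486969825655))) (b (a (l 541193679431) (l 448314152871)) (b (a (l 13770600) (l 13352584)) (a (b (l 13569752) (l 13407968)) (a (l 13180504) (l 12994656)))))) (b (a (b (a (l 1) (l 13907184)) (a (l 13863872) (b (l 13734488) (l 13522304)))) (b (a (l 459588297319) (b (l 13303568) (l 13185648))) (a (b (l 13428936) (l 13273696)) (b (l 13066632) (l 12957392))))) (a (b (b (l 13403224) (l 13188288)) (b (l 13001232) (b (l 12881104) (l 12827824)))) (b (a (b (l 13106384) (l 12977648)) (b (l 12885680) (l 12928848))) (a (b (l 12974008) (l 13276104)) (b (l 13299456) (b (l 14348912) (a (l 15107880)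 (b (l 16873192) (a (l 16834912) (a (l 16828112) (b (l 16804312) (b (l 16801960) (a (l 16790960) (a (l 16790216) (b (l 16783512) (l 16783120))))))))))))))))), by decide +kernel⟩

theorem c_pm_113 : CertB 536870912 536870912 536870912 536870912 1020054732 13421774 3 eng mog cd4q1 cd5q1 pd3 true true false .nn 1 1 3
    ndB4q1 ndB5q1 pcB3 Cut.none Ext.none :=
  certB0 (fam := true) (s1 := true) (s2 := false) (a := 1) (b := 1) (c := 3) (cn := .nn) (n1 := ndB4q1) (n2 := ndB5q1) (pc := pcB3) (cut := Cut.none) (xt := Ext.none) (P1 := 536870912) (W1 := 536870912) (P2 := 536870912) (W2 := 536870912) (P3 := 1020054732) (W3 := 13421774) (N0 := 3) (En := eng) (mo := mog) (C1 := cd4q1) (C2 := cd5q1) (C3 := pd3)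
    rfl k0_pm_113

noncomputable def f_pm_123 : ℕ → ℕ → ℕ → ℕ → Bool := onCell 1610612736 536870912 1073741824 536870912 1020054732 13421774
    (rowB 3 eng mog cd4q1 cd5q2 pd3 2 true true false .npn 1 2 3 (qsf 536870912 536870912 1073741824 536870912 3) ndB4q1 ndB5q2 pcB3 Cut.none Ext.none)

def k0_pm_123 : ∃ t, chk3 f_pm_123 t 1 1 1 = true :=
  ⟨(a (b (b (a (b (a (l 13695632) (l 13534584)) (l 14110080)) (b (a (l 13396088) (l 13306800)) (l 14011152))) (a (b (l 14522072) (l 1)) (a (b (l 14467192) (l 14926416)) (b (l 14554592) (l 15096656))))) (a (l 1) (b (b (l 15465312) (l 1)) (l 1)))) (b (a (b (a (b (l 13315216) (l 14114320)) (b (l 13526184) (l 14404672))) (a (b (l 14751816) (l 15291392)) (l 15338664))) (b (a (b (l 14932840) (l 14931744)) (a (b (l 15560728) (l 15687888)) (a (b (l 16253488) (l 16214624)) (a (l 15691944) (a (l 15804472) (a (l 15865520) (a (l 15894832) (l 15910608)))))))) (a (l 15751760) (a (l 16276544) (a (l 16621576) (a (l 16655400) (a (l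 16616336) (b (l 16639152) (l 4))))))))) (a (b (a (l 15845792) (l 16028832)) (l 16399064)) (b (a (l 16387800) (a (l 16700800) (a (l 16654944) (a (l 16601352) (l 4))))) (a (l 16690808) (a (l 16706232) (l 4))))))), by decide +kernel⟩

theorem c_pm_123 : CertB 536870912 536870912 1073741824 536870912 1020054732 13421774 3 eng mog cd4q1 cd5q2 pd3 true true false .npn 1 2 3
    ndB4q1 ndB5q2 pcB3 Cut.none Ext.none :=
  certB2 (fam := true) (s1 := true) (s2 := false) (a := 1) (b := 2) (c := 3) (cn := .npn) (n1 := ndB4q1) (n2 := ndB5q2) (pc := pcB3) (cut := Cut.none) (xt := Ext.none) (P1 := 536870912) (W1 := 536870912) (P2 := 1073741824) (W2 := 536870912) (P3 := 1020054732) (W3 := 13421774) (N0 := 3) (En := eng) (mo := mog) (C1 := cd4q1) (C2 := cd5q2) (C3 := pd3)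
    rfl (fun _ => rfl) k0_pm_123

noncomputable def f_pm_133 : ℕ → ℕ → ℕ → ℕ → Bool := onCell 536870912 536870912 0 1230186008 1020054732 13421774
    (rowB 3 eng mog cd4q1 cd5q3 pd3 0 true true false .dn 1 3 3 (qsf 536870912 536870912 0 1230186008 3) ndB4q1 ndB5q3 pcB3 Cut.none Ext.none)

def k0_pm_133 : ∃ t, chk3 f_pm_133 t 1 1 1 = true :=
  ⟨(b (l 2) (b (l 2) (l 4))), by decide +kernel⟩

theorem c_pm_133 : CertB 536870912 536870912 0 1230186008 1020054732 13421774 3 eng mog cd4q1 cd5q3 pd3 true true false .dn 1 3 3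
    ndB4q1 ndB5q3 pcB3 Cut.none Ext.none :=
  certB0 (fam := true) (s1 := true) (s2 := false) (a := 1) (b := 3) (c := 3) (cn := .dn) (n1 := ndB4q1) (n2 := ndB5q3) (pc := pcB3) (cut := Cut.none) (xt := Ext.none) (P1 := 536870912) (W1 := 536870912) (P2 := 0) (W2 := 1230186008) (P3 := 1020054732) (W3 := 13421774) (N0 := 3) (En := eng) (mo := mog) (C1 := cd4q1) (C2 := cd5q3) (C3 := pd3)
    rfl k0_pm_133

noncomputable def f_pm_202 : ℕ → ℕ → ℕ → ℕ → Bool := onCell 1073741824 536870912 0 536870912 1020054732 13421774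
    (rowB 3 eng mog cd4q2 cd5q0 pd2 2 true true false .pp 2 0 2 (qsf 1073741824 536870912 0 536870912 2) ndB4q2 ndB5q0 pcB2 Cut.none Ext.none)

def k0_pm_202 : ∃ t, chk3 f_pm_202 t 1 1 1 = true :=
  ⟨(b (b (a (a (a (a (b (b (l 497170649975) (a (l 1) (l 14183688))) (l 1)) (b (b (l 13900768) (l 471937813319)) (b (l 656084987367) (l 1)))) (a (b (b (l 13754288) (l 13919296)) (b (l 14098984) (l 630315243639))) (b (l 13689600) (l 180953025447)))) (a (b (l 13490176) (a (a (l 13893936) (a (l 13835680) (l 13798664))) (l 13702104))) (b (l 13260072) (l 13492072)))) (a (a (b (l 13069232) (l 13249496)) (l 12975416)) (b (l 12783336) (l 12845504)))) (a (a (a (l 1) (a (l 1) (b (a (l 1) (l 14343848)) (l 1)))) (a (a (b (a (l 14246336) (a (l 14176208) (l 14131016))) (l 1)) (b (l 14021040) (l 14375112))) (b (l 13772944) (l 14094672)))) (a (a (b (l 13481752) (l 13756304)) (l 13337760)) (a (l 13117336) (l 12956472))))) (a (a (l 1) (b (a (l 1) (b (l 14441360) (l 1))) (l 1))) (a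 (b (a (b (l 14068064) (l 14387792)) (b (l 13733064) (l 14025104))) (a (l 1) (b (l 14310096) (l 1)))) (b (a (l 13559360) (l 13306128)) (a (b (l 13965256) (l 14209528)) (b (l 13653288) (l 13888536))))))), by decide +kernel⟩

theorem c_pm_202 : CertB 1073741824 536870912 0 536870912 1020054732 13421774 3 eng mog cd4q2 cd5q0 pd2 true true false .pp 2 0 2
    ndB4q2 ndB5q0 pcB2 Cut.none Ext.none :=
  certB2 (fam := true) (s1 := true) (s2 := false) (a := 2) (b := 0) (c := 2) (cn := .pp) (n1 := ndB4q2) (n2 := ndB5q0) (pc := pcB2) (cut := Cut.none) (xt := Ext.none) (P1 := 1073741824) (W1 := 536870912) (P2 := 0) (W2 := 536870912) (P3 := 1020054732) (W3 := 13421774) (N0 := 3) (En := eng) (mo := mog) (C1 := cd4q2) (C2 := cd5q0) (C3 := pd2)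
    rfl (fun _ => rfl) k0_pm_202

noncomputable def f_pm_203 : ℕ → ℕ → ℕ → ℕ → Bool := onCell 1610612736 536870912 0 536870912 1020054732 13421774
    (rowB 3 eng mog cd4q2 cd5q0 pd3 2 true true false .up 2 0 3 (qsf 1073741824 536870912 0 536870912 3) ndB4q2 ndB5q0 pcB3 Cut.none Ext.none)

def k0_pm_203 : ∃ t, chk3 f_pm_203 t 1 1 1 = true :=
  ⟨(a (b (a (b (a (l 14455584) (l 14636208)) (l 14291888)) (a (b (l 14953872) (l 14511840)) (b (l 2) (l 14796144)))) (a (b (a (l 14244232) (l 14226088)) (a (l 14372480) (l 14262496))) (b (a (l 14289944) (l 14461832)) (a (l 14246328) (l 14322080))))) (b (a (b (l 2) (a (l 15106256) (l 2))) (l 2)) (a (b (a (l 14700032) (l 15007576)) (a (l 14506856) (l 14741864))) (a (l 4) (l 4))))), by decide +kernel⟩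

theorem c_pm_203 : CertB 1073741824 536870912 0 536870912 1020054732 13421774 3 eng mog cd4q2 cd5q0 pd3 true true false .up 2 0 3
    ndB4q2 ndB5q0 pcB3 Cut.none Ext.none :=
  certB2 (fam := true) (s1 := true) (s2 := false) (a := 2) (b := 0) (c := 3) (cn := .up) (n1 := ndB4q2) (n2 := ndB5q0) (pc := pcB3) (cut := Cut.none) (xt := Ext.none) (P1 := 1073741824) (W1 := 536870912) (P2 := 0) (W2 := 536870912) (P3 := 1020054732) (W3 := 13421774) (N0 := 3) (En := eng) (mo := mog) (C1 := cd4q2) (C2 := cd5q0) (C3 := pd3)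
    rfl (fun _ => rfl) k0_pm_203

noncomputable def f_pm_213 : ℕ → ℕ → ℕ → ℕ → Bool := onCell 1073741824 536870912 1610612736 536870912 1020054732 13421774
    (rowB 3 eng mog cd4q2 cd5q1 pd3 1 true true false .pnn 2 1 3 (qsf 1073741824 536870912 536870912 536870912 3) ndB4q2 ndB5q1 pcB3 Cut.none Ext.none)

def k0_pm_213 : ∃ t, chk3 f_pm_213 t 1 1 1 = true :=
  ⟨(a (b (b (a (b (l 14416464) (l 14323344)) (l 14253672)) (a (a (l 14179840) (l 14254752)) (l 14270112))) (b (a (a (b (l 14159664) (l 14348696)) (l 14455248)) (b (l 14444920) (l 14688544))) (b (a (a (b (l 14691800) (l 15136296)) (l 15114208)) (l 15108384)) (b (a (a (l 15978432) (l 15800744)) (l 15598840)) (a (l 4) (l 4)))))) (b (b (l 1) (a (b (l 1) (l 14325592)) (l 1))) (a (b (b (l 14472624) (l 14680752)) (b (l 14958304) (l 4))) (b (l 14697952) (l 4))))), by decide +kernel⟩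

theorem c_pm_213 : CertB 1073741824 536870912 536870912 536870912 1020054732 13421774 3 eng mog cd4q2 cd5q1 pd3 true true false .pnn 2 1 3
    ndB4q2 ndB5q1 pcB3 Cut.none Ext.none :=
  certB1 (fam := true) (s1 := true) (s2 := false) (a := 2) (b := 1) (c := 3) (cn := .pnn) (n1 := ndB4q2) (n2 := ndB5q1) (pc := pcB3) (cut := Cut.none) (xt := Ext.none) (P1 := 1073741824) (W1 := 536870912) (P2 := 536870912) (W2 := 536870912) (P3 := 1020054732) (W3 := 13421774) (N0 := 3) (En := eng) (mo := mog) (C1 := cd4q2) (C2 := cd5q1) (C3 := pd3)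
    rfl (fun _ => rfl) k0_pm_213

noncomputable def f_pm_303 : ℕ → ℕ → ℕ → ℕ → Bool := onCell 0 1230186008 1610612736 536870912 1020054732 13421774
    (rowB 3 eng mog cd4q3 cd5q0 pd3 1 true true false .npn 3 0 3 (qsf 0 1230186008 0 536870912 3) ndB4q3 ndB5q0 pcB3 Cut.none Ext.none)

def k0_pm_303 : ∃ t, chk3 f_pm_303 t 1 1 1 = true :=
  ⟨(a (l 4) (a (b (b (l 1) (l 4)) (l 4)) (b (b (a (l 1) (b (l 16620704) (l 16649976))) (a (l 16684576) (b (l 16715024) (l 16725568)))) (b (a (l 4) (l 16574384)) (l 4))))), by decide +kernel⟩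

theorem c_pm_303 : CertB 0 1230186008 0 536870912 1020054732 13421774 3 eng mog cd4q3 cd5q0 pd3 true true false .npn 3 0 3
    ndB4q3 ndB5q0 pcB3 Cut.none Ext.none :=
  certB1 (fam := true) (s1 := true) (s2 := false) (a := 3) (b := 0) (c := 3) (cn := .npn) (n1 := ndB4q3) (n2 := ndB5q0) (pc := pcB3) (cut := Cut.none) (xt := Ext.none) (P1 := 0) (W1 := 1230186008) (P2 := 0) (W2 := 536870912) (P3 := 1020054732) (W3 := 13421774) (N0 := 3) (En := eng) (mo := mog) (C1 := cd4q3) (C2 := cd5q0) (C3 := pd3)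
    rfl (fun _ => rfl) k0_pm_303

noncomputable def f_pm_313 : ℕ → ℕ → ℕ → ℕ → Bool := onCell 0 1230186008 536870912 536870912 1020054732 13421774
    (rowB 3 eng mog cd4q3 cd5q1 pd3 0 true true false .dn 3 1 3 (qsf 0 1230186008 536870912 536870912 3) ndB4q3 ndB5q1 pcB3 Cut.none Ext.none)

def k0_pm_313 : ∃ t, chk3 f_pm_313 t 1 1 1 = true :=
  ⟨(a (l 2) (l 4)), by decide +kernel⟩

theorem c_pm_313 : CertB 0 1230186008 536870912 536870912 1020054732 13421774 3 eng mog cd4q3 cd5q1 pd3 true true false .dn 3 1 3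
    ndB4q3 ndB5q1 pcB3 Cut.none Ext.none :=
  certB0 (fam := true) (s1 := true) (s2 := false) (a := 3) (b := 1) (c := 3) (cn := .dn) (n1 := ndB4q3) (n2 := ndB5q1) (pc := pcB3) (cut := Cut.none) (xt := Ext.none) (P1 := 0) (W1 := 1230186008) (P2 := 536870912) (W2 := 536870912) (P3 := 1020054732) (W3 := 13421774) (N0 := 3) (En := eng) (mo := mog) (C1 := cd4q3) (C2 := cd5q1) (C3 := pd3)
    rfl k0_pm_313

noncomputable def f_mm_001 : ℕ → ℕ → ℕ → ℕ → Bool := onCell 0 536870912 0 536870912 1020054732 13421774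
    (rowB 3 eng mog cd4q0 cd5q0 pd1 0 true false false .up 0 0 1 (qsf 0 536870912 0 536870912 1) ndB4q0 ndB5q0 pcB1 Cut.none Ext.none)

def k0_mm_001 : ∃ t, chk3 f_mm_001 t 1 1 1 = true :=
  ⟨(l 4), by decide +kernel⟩

theorem c_mm_001 : CertB 0 536870912 0 536870912 1020054732 13421774 3 eng mog cd4q0 cd5q0 pd1 true false false .up 0 0 1
    ndB4q0 ndB5q0 pcB1 Cut.none Ext.none :=
  certB0 (fam := true) (s1 := false) (s2 := false) (a := 0) (b := 0) (c := 1) (cn := .up) (n1 := ndB4q0) (n2 := ndB5q0) (pc := pcB1) (cut := Cut.none) (xt := Ext.none) (P1 := 0) (W1 := 536870912) (P2 := 0) (W2 := 536870912) (P3 := 1020054732) (W3 := 13421774) (N0 := 3) (En := eng) (mo := mog) (C1 := cd4q0) (C2 := cd5q0) (C3 := pd1)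
    rfl k0_mm_001

noncomputable def f_mm_011 : ℕ → ℕ → ℕ → ℕ → Bool := onCell 0 536870912 536870912 536870912 1020054732 13421774
    (rowB 3 eng mog cd4q0 cd5q1 pd1 0 true false false .pnn 0 1 1 (qsf 0 536870912 536870912 536870912 1) ndB4q0 ndB5q1 pcB1 Cut.none Ext.none)

def k0_mm_011 : ∃ t, chk3 f_mm_011 t 1 1 1 = true :=
  ⟨(l 4), by decide +kernel⟩

theorem c_mm_011 : CertB 0 536870912 536870912 536870912 1020054732 13421774 3 eng mog cd4q0 cd5q1 pd1 true false false .pnn 0 1 1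
    ndB4q0 ndB5q1 pcB1 Cut.none Ext.none :=
  certB0 (fam := true) (s1 := false) (s2 := false) (a := 0) (b := 1) (c := 1) (cn := .pnn) (n1 := ndB4q0) (n2 := ndB5q1) (pc := pcB1) (cut := Cut.none) (xt := Ext.none) (P1 := 0) (W1 := 536870912) (P2 := 536870912) (W2 := 536870912) (P3 := 1020054732) (W3 := 13421774) (N0 := 3) (En := eng) (mo := mog) (C1 := cd4q0) (C2 := cd5q1) (C3 := pd1)
    rfl k0_mm_011

noncomputable def f_mm_012 : ℕ → ℕ → ℕ → ℕ → Bool := onCell 0 536870912 536870912 536870912 1020054732 13421774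
    (rowB 3 eng mog cd4q0 cd5q1 pd2 0 true false false .pnp 0 1 2 (qsf 0 536870912 536870912 536870912 2) ndB4q0 ndB5q1 pcB2 Cut.none Ext.none)

def k0_mm_012 : ∃ t, chk3 f_mm_012 t 1 1 1 = true :=
  ⟨(l 4), by decide +kernel⟩

theorem c_mm_012 : CertB 0 536870912 536870912 536870912 1020054732 13421774 3 eng mog cd4q0 cd5q1 pd2 true false false .pnp 0 1 2
    ndB4q0 ndB5q1 pcB2 Cut.none Ext.none :=
  certB0 (fam := true) (s1 := false) (s2 := false) (a := 0) (b := 1) (c := 2) (cn := .pnp) (n1 := ndB4q0) (n2 := ndB5q1) (pc := pcB2) (cut := Cut.none) (xt := Ext.none) (P1 := 0) (W1 := 536870912) (P2 := 536870912) (W2 := 536870912) (P3 := 1020054732) (W3 := 13421774) (N0 := 3) (En := eng) (mo := mog) (C1 := cd4q0) (C2 := cd5q1) (C3 := pd2)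
    rfl k0_mm_012

noncomputable def f_mm_022 : ℕ → ℕ → ℕ → ℕ → Bool := onCell 0 536870912 1073741824 536870912 1020054732 13421774
    (rowB 3 eng mog cd4q0 cd5q2 pd2 0 true false false .pp 0 2 2 (qsf 0 536870912 1073741824 536870912 2) ndB4q0 ndB5q2 pcB2 Cut.none Ext.none)

def k0_mm_022 : ∃ t, chk3 f_mm_022 t 1 1 1 = true :=
  ⟨(l 4), by decide +kernel⟩

theorem c_mm_022 : CertB 0 536870912 1073741824 536870912 1020054732 13421774 3 eng mog cd4q0 cd5q2 pd2 true false false .pp 0 2 2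
    ndB4q0 ndB5q2 pcB2 Cut.none Ext.none :=
  certB0 (fam := true) (s1 := false) (s2 := false) (a := 0) (b := 2) (c := 2) (cn := .pp) (n1 := ndB4q0) (n2 := ndB5q2) (pc := pcB2) (cut := Cut.none) (xt := Ext.none) (P1 := 0) (W1 := 536870912) (P2 := 1073741824) (W2 := 536870912) (P3 := 1020054732) (W3 := 13421774) (N0 := 3) (En := eng) (mo := mog) (C1 := cd4q0) (C2 := cd5q2) (C3 := pd2)
    rfl k0_mm_022

noncomputable def f_mm_023 : ℕ → ℕ → ℕ → ℕ → Bool := onCell 0 536870912 1073741824 536870912 1020054732 13421774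
    (rowB 3 eng mog cd4q0 cd5q2 pd3 0 true false false .up 0 2 3 (qsf 0 536870912 1073741824 536870912 3) ndB4q0 ndB5q2 pcB3 Cut.none Ext.none)

def k0_mm_023 : ∃ t, chk3 f_mm_023 t 1 1 1 = true :=
  ⟨(l 4), by decide +kernel⟩

theorem c_mm_023 : CertB 0 536870912 1073741824 536870912 1020054732 13421774 3 eng mog cd4q0 cd5q2 pd3 true false false .up 0 2 3
    ndB4q0 ndB5q2 pcB3 Cut.none Ext.none :=
  certB0 (fam := true) (s1 := false) (s2 := false) (a := 0) (b := 2) (c := 3) (cn := .up) (n1 := ndB4q0) (n2 := ndB5q2) (pc := pcB3) (cut := Cut.none) (xt := Ext.none) (P1 := 0) (W1 := 536870912) (P2 := 1073741824) (W2 := 536870912) (P3 := 1020054732) (W3 := 13421774) (N0 := 3) (En := eng) (mo := mog) (C1 := cd4q0) (C2 := cd5q2) (C3 := pd3)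
    rfl k0_mm_023

noncomputable def f_mm_033 : ℕ → ℕ → ℕ → ℕ → Bool := onCell 0 536870912 0 1230186008 1020054732 13421774
    (rowB 3 eng mog cd4q0 cd5q3 pd3 0 true false false .pnn 0 3 3 (qsf 0 536870912 0 1230186008 3) ndB4q0 ndB5q3 pcB3 Cut.none Ext.none)

def k0_mm_033 : ∃ t, chk3 f_mm_033 t 1 1 1 = true :=
  ⟨(l 4), by decide +kernel⟩

theorem c_mm_033 : CertB 0 536870912 0 1230186008 1020054732 13421774 3 eng mog cd4q0 cd5q3 pd3 true false false .pnn 0 3 3
    ndB4q0 ndB5q3 pcB3 Cut.none Ext.none :=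
  certB0 (fam := true) (s1 := false) (s2 := false) (a := 0) (b := 3) (c := 3) (cn := .pnn) (n1 := ndB4q0) (n2 := ndB5q3) (pc := pcB3) (cut := Cut.none) (xt := Ext.none) (P1 := 0) (W1 := 536870912) (P2 := 0) (W2 := 1230186008) (P3 := 1020054732) (W3 := 13421774) (N0 := 3) (En := eng) (mo := mog) (C1 := cd4q0) (C2 := cd5q3) (C3 := pd3)
    rfl k0_mm_033

noncomputable def f_mm_101 : ℕ → ℕ → ℕ → ℕ → Bool := onCell 536870912 536870912 0 536870912 1020054732 13421774
    (rowB 3 eng mog cd4q1 cd5q0 pd1 0 true false false .npn 1 0 1 (qsf 536870912 536870912 0 536870912 1) ndB4q1 ndB5q0 pcB1 Cut.none Ext.none)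

def k0_mm_101 : ∃ t, chk3 f_mm_101 t 1 1 1 = true :=
  ⟨(l 4), by decide +kernel⟩

theorem c_mm_101 : CertB 536870912 536870912 0 536870912 1020054732 13421774 3 eng mog cd4q1 cd5q0 pd1 true false false .npn 1 0 1
    ndB4q1 ndB5q0 pcB1 Cut.none Ext.none :=
  certB0 (fam := true) (s1 := false) (s2 := false) (a := 1) (b := 0) (c := 1) (cn := .npn) (n1 := ndB4q1) (n2 := ndB5q0) (pc := pcB1) (cut := Cut.none) (xt := Ext.none) (P1 := 536870912) (W1 := 536870912) (P2 := 0) (W2 := 536870912) (P3 := 1020054732) (W3 := 13421774) (N0 := 3) (En := eng) (mo := mog) (C1 := cd4q1) (C2 := cd5q0) (C3 := pd1)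
    rfl k0_mm_101

noncomputable def f_mm_102 : ℕ → ℕ → ℕ → ℕ → Bool := onCell 536870912 536870912 0 536870912 1020054732 13421774
    (rowB 3 eng mog cd4q1 cd5q0 pd2 0 true false false .npp 1 0 2 (qsf 536870912 536870912 0 536870912 2) ndB4q1 ndB5q0 pcB2 Cut.none Ext.none)

def k0_mm_102 : ∃ t, chk3 f_mm_102 t 1 1 1 = true :=
  ⟨(l 4), by decide +kernel⟩

theorem c_mm_102 : CertB 536870912 536870912 0 536870912 1020054732 13421774 3 eng mog cd4q1 cd5q0 pd2 true false false .npp 1 0 2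
    ndB4q1 ndB5q0 pcB2 Cut.none Ext.none :=
  certB0 (fam := true) (s1 := false) (s2 := false) (a := 1) (b := 0) (c := 2) (cn := .npp) (n1 := ndB4q1) (n2 := ndB5q0) (pc := pcB2) (cut := Cut.none) (xt := Ext.none) (P1 := 536870912) (W1 := 536870912) (P2 := 0) (W2 := 536870912) (P3 := 1020054732) (W3 := 13421774) (N0 := 3) (En := eng) (mo := mog) (C1 := cd4q1) (C2 := cd5q0) (C3 := pd2)
    rfl k0_mm_102

noncomputable def f_mm_112 : ℕ → ℕ → ℕ → ℕ → Bool := onCell 536870912 536870912 536870912 536870912 1020054732 13421774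
    (rowB 3 eng mog cd4q1 cd5q1 pd2 0 true false false .dn 1 1 2 (qsf 536870912 536870912 536870912 536870912 2) ndB4q1 ndB5q1 pcB2 Cut.none Ext.none)

def k0_mm_112 : ∃ t, chk3 f_mm_112 t 1 1 1 = true :=
  ⟨(l 4), by decide +kernel⟩

theorem c_mm_112 : CertB 536870912 536870912 536870912 536870912 1020054732 13421774 3 eng mog cd4q1 cd5q1 pd2 true false false .dn 1 1 2
    ndB4q1 ndB5q1 pcB2 Cut.none Ext.none :=
  certB0 (fam := true) (s1 := false) (s2 := false) (a := 1) (b := 1) (c := 2) (cn := .dn) (n1 := ndB4q1) (n2 := ndB5q1) (pc := pcB2) (cut := Cut.none) (xt := Ext.none) (P1 := 536870912) (W1 := 536870912) (P2 := 536870912) (W2 := 536870912) (P3 := 1020054732) (W3 := 13421774) (N0 := 3) (En := eng) (mo := mog) (C1 := cd4q1) (C2 := cd5q1) (C3 := pd2)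
    rfl k0_mm_112

noncomputable def f_mm_113 : ℕ → ℕ → ℕ → ℕ → Bool := onCell 536870912 536870912 536870912 536870912 1020054732 13421774
    (rowB 3 eng mog cd4q1 cd5q1 pd3 0 true false false .nn 1 1 3 (qsf 536870912 536870912 536870912 536870912 3) ndB4q1 ndB5q1 pcB3 Cut.none Ext.none)

def k0_mm_113 : ∃ t, chk3 f_mm_113 t 1 1 1 = true :=
  ⟨(l 4), by decide +kernel⟩

theorem c_mm_113 : CertB 536870912 536870912 536870912 536870912 1020054732 13421774 3 eng mog cd4q1 cd5q1 pd3 true false false .nn 1 1 3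
    ndB4q1 ndB5q1 pcB3 Cut.none Ext.none :=
  certB0 (fam := true) (s1 := false) (s2 := false) (a := 1) (b := 1) (c := 3) (cn := .nn) (n1 := ndB4q1) (n2 := ndB5q1) (pc := pcB3) (cut := Cut.none) (xt := Ext.none) (P1 := 536870912) (W1 := 536870912) (P2 := 536870912) (W2 := 536870912) (P3 := 1020054732) (W3 := 13421774) (N0 := 3) (En := eng) (mo := mog) (C1 := cd4q1) (C2 := cd5q1) (C3 := pd3)
    rfl k0_mm_113

noncomputable def f_mm_123 : ℕ → ℕ → ℕ → ℕ → Bool := onCell 536870912 536870912 1073741824 536870912 1020054732 13421774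
    (rowB 3 eng mog cd4q1 cd5q2 pd3 0 true false false .npn 1 2 3 (qsf 536870912 536870912 1073741824 536870912 3) ndB4q1 ndB5q2 pcB3 Cut.none Ext.none)

def k0_mm_123 : ∃ t, chk3 f_mm_123 t 1 1 1 = true :=
  ⟨(l 4), by decide +kernel⟩

theorem c_mm_123 : CertB 536870912 536870912 1073741824 536870912 1020054732 13421774 3 eng mog cd4q1 cd5q2 pd3 true false false .npn 1 2 3
    ndB4q1 ndB5q2 pcB3 Cut.none Ext.none :=
  certB0 (fam := true) (s1 := false) (s2 := false) (a := 1) (b := 2) (c := 3) (cn := .npn) (n1 := ndB4q1) (n2 := ndB5q2) (pc := pcB3) (cut := Cut.none) (xt := Ext.none) (P1 := 536870912) (W1 := 536870912) (P2 := 1073741824) (W2 := 536870912) (P3 := 1020054732) (W3 := 13421774) (N0 := 3) (En := eng) (mo := mog) (C1 := cd4q1) (C2 := cd5q2) (C3 := pd3)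
    rfl k0_mm_123

noncomputable def f_mm_133 : ℕ → ℕ → ℕ → ℕ → Bool := onCell 536870912 536870912 0 1230186008 1020054732 13421774
    (rowB 3 eng mog cd4q1 cd5q3 pd3 0 true false false .dn 1 3 3 (qsf 536870912 536870912 0 1230186008 3) ndB4q1 ndB5q3 pcB3 Cut.none Ext.none)

def k0_mm_133 : ∃ t, chk3 f_mm_133 t 1 1 1 = true :=
  ⟨(l 4), by decide +kernel⟩

theorem c_mm_133 : CertB 536870912 536870912 0 1230186008 1020054732 13421774 3 eng mog cd4q1 cd5q3 pd3 true false false .dn 1 3 3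
    ndB4q1 ndB5q3 pcB3 Cut.none Ext.none :=
  certB0 (fam := true) (s1 := false) (s2 := false) (a := 1) (b := 3) (c := 3) (cn := .dn) (n1 := ndB4q1) (n2 := ndB5q3) (pc := pcB3) (cut := Cut.none) (xt := Ext.none) (P1 := 536870912) (W1 := 536870912) (P2 := 0) (W2 := 1230186008) (P3 := 1020054732) (W3 := 13421774) (N0 := 3) (En := eng) (mo := mog) (C1 := cd4q1) (C2 := cd5q3) (C3 := pd3)
    rfl k0_mm_133

noncomputable def f_mm_202 : ℕ → ℕ → ℕ → ℕ → Bool := onCell 1073741824 536870912 0 536870912 1020054732 13421774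
    (rowB 3 eng mog cd4q2 cd5q0 pd2 0 true false false .pp 2 0 2 (qsf 1073741824 536870912 0 536870912 2) ndB4q2 ndB5q0 pcB2 Cut.none Ext.none)

def k0_mm_202 : ∃ t, chk3 f_mm_202 t 1 1 1 = true :=
  ⟨(l 4), by decide +kernel⟩

theorem c_mm_202 : CertB 1073741824 536870912 0 536870912 1020054732 13421774 3 eng mog cd4q2 cd5q0 pd2 true false false .pp 2 0 2
    ndB4q2 ndB5q0 pcB2 Cut.none Ext.none :=
  certB0 (fam := true) (s1 := false) (s2 := false) (a := 2) (b := 0) (c := 2) (cn := .pp) (n1 := ndB4q2) (n2 := ndB5q0) (pc := pcB2) (cut := Cut.none) (xt := Ext.none) (P1 := 1073741824) (W1 := 536870912) (P2 := 0) (W2 := 536870912) (P3 := 1020054732) (W3 := 13421774) (N0 := 3) (En := eng) (mo := mog) (C1 := cd4q2) (C2 := cd5q0) (C3 := pd2)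
    rfl k0_mm_202

noncomputable def f_mm_203 : ℕ → ℕ → ℕ → ℕ → Bool := onCell 1073741824 536870912 0 536870912 1020054732 13421774
    (rowB 3 eng mog cd4q2 cd5q0 pd3 0 true false false .up 2 0 3 (qsf 1073741824 536870912 0 536870912 3) ndB4q2 ndB5q0 pcB3 Cut.none Ext.none)

def k0_mm_203 : ∃ t, chk3 f_mm_203 t 1 1 1 = true :=
  ⟨(l 4), by decide +kernel⟩

theorem c_mm_203 : CertB 1073741824 536870912 0 536870912 1020054732 13421774 3 eng mog cd4q2 cd5q0 pd3 true false false .up 2 0 3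
    ndB4q2 ndB5q0 pcB3 Cut.none Ext.none :=
  certB0 (fam := true) (s1 := false) (s2 := false) (a := 2) (b := 0) (c := 3) (cn := .up) (n1 := ndB4q2) (n2 := ndB5q0) (pc := pcB3) (cut := Cut.none) (xt := Ext.none) (P1 := 1073741824) (W1 := 536870912) (P2 := 0) (W2 := 536870912) (P3 := 1020054732) (W3 := 13421774) (N0 := 3) (En := eng) (mo := mog) (C1 := cd4q2) (C2 := cd5q0) (C3 := pd3)
    rfl k0_mm_203

noncomputable def f_mm_213 : ℕ → ℕ → ℕ → ℕ → Bool := onCell 1073741824 536870912 536870912 536870912 1020054732 13421774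
    (rowB 3 eng mog cd4q2 cd5q1 pd3 0 true false false .pnn 2 1 3 (qsf 1073741824 536870912 536870912 536870912 3) ndB4q2 ndB5q1 pcB3 Cut.none Ext.none)

def k0_mm_213 : ∃ t, chk3 f_mm_213 t 1 1 1 = true :=
  ⟨(l 4), by decide +kernel⟩

theorem c_mm_213 : CertB 1073741824 536870912 536870912 536870912 1020054732 13421774 3 eng mog cd4q2 cd5q1 pd3 true false false .pnn 2 1 3
    ndB4q2 ndB5q1 pcB3 Cut.none Ext.none :=
  certB0 (fam := true) (s1 := false) (s2 := false) (a := 2) (b := 1) (c := 3) (cn := .pnn) (n1 := ndB4q2) (n2 := ndB5q1) (pc := pcB3) (cut := Cut.none) (xt := Ext.none) (P1 := 1073741824) (W1 := 536870912) (P2 := 536870912) (W2 := 536870912) (P3 := 1020054732) (W3 := 13421774) (N0 := 3) (En := eng) (mo := mog) (C1 := cd4q2) (C2 := cd5q1) (C3 := pd3)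
    rfl k0_mm_213

noncomputable def f_mm_303 : ℕ → ℕ → ℕ → ℕ → Bool := onCell 0 1230186008 0 536870912 1020054732 13421774
    (rowB 3 eng mog cd4q3 cd5q0 pd3 0 true false false .npn 3 0 3 (qsf 0 1230186008 0 536870912 3) ndB4q3 ndB5q0 pcB3 Cut.none Ext.none)

def k0_mm_303 : ∃ t, chk3 f_mm_303 t 1 1 1 = true :=
  ⟨(l 4), by decide +kernel⟩

theorem c_mm_303 : CertB 0 1230186008 0 536870912 1020054732 13421774 3 eng mog cd4q3 cd5q0 pd3 true false false .npn 3 0 3
    ndB4q3 ndB5q0 pcB3 Cut.none Ext.none :=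
  certB0 (fam := true) (s1 := false) (s2 := false) (a := 3) (b := 0) (c := 3) (cn := .npn) (n1 := ndB4q3) (n2 := ndB5q0) (pc := pcB3) (cut := Cut.none) (xt := Ext.none) (P1 := 0) (W1 := 1230186008) (P2 := 0) (W2 := 536870912) (P3 := 1020054732) (W3 := 13421774) (N0 := 3) (En := eng) (mo := mog) (C1 := cd4q3) (C2 := cd5q0) (C3 := pd3)
    rfl k0_mm_303

noncomputable def f_mm_313 : ℕ → ℕ → ℕ → ℕ → Bool := onCell 0 1230186008 536870912 536870912 1020054732 13421774
    (rowB 3 eng mog cd4q3 cd5q1 pd3 0 true false false .dn 3 1 3 (qsf 0 1230186008 536870912 536870912 3) ndB4q3 ndB5q1 pcB3 Cut.none Ext.none)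

def k0_mm_313 : ∃ t, chk3 f_mm_313 t 1 1 1 = true :=
  ⟨(l 4), by decide +kernel⟩

theorem c_mm_313 : CertB 0 1230186008 536870912 536870912 1020054732 13421774 3 eng mog cd4q3 cd5q1 pd3 true false false .dn 3 1 3
    ndB4q3 ndB5q1 pcB3 Cut.none Ext.none :=
  certB0 (fam := true) (s1 := false) (s2 := false) (a := 3) (b := 1) (c := 3) (cn := .dn) (n1 := ndB4q3) (n2 := ndB5q1) (pc := pcB3) (cut := Cut.none) (xt := Ext.none) (P1 := 0) (W1 := 1230186008) (P2 := 536870912) (W2 := 536870912) (P3 := 1020054732) (W3 := 13421774) (N0 := 3) (En := eng) (mo := mog) (C1 := cd4q3) (C2 := cd5q1) (C3 := pd3)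
    rfl k0_mm_313

end Pool.Agent.Strip051.G.I9500_9625.Tab.C.BA45

namespace Pool.Agent.Strip051.G.I9500_9625.Tab.C.BA55

open Pool.Agent.Strip051.PB Pool.Agent.Strip051.PB.T
open Pool.Agent.Strip051.G.I9500_9625.Tab

noncomputable def f_pp_001 : ℕ → ℕ → ℕ → ℕ → Bool := onCell 0 536870912 0 536870912 1020054732 13421774
    (rowB 3 eng mog cd5q0 cd5q0 pd1 0 true true true .up 0 0 1 (qsf 0 536870912 0 536870912 1) ndB5q0 ndB5q0 pcB1 Cut.none Ext.none)

def k0_pp_001 : ∃ t, chk3 f_pp_001 t 1 1 1 = true :=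
  ⟨(l 4), by decide +kernel⟩

theorem c_pp_001 : CertB 0 536870912 0 536870912 1020054732 13421774 3 eng mog cd5q0 cd5q0 pd1 true true true .up 0 0 1
    ndB5q0 ndB5q0 pcB1 Cut.none Ext.none :=
  certB0 (fam := true) (s1 := true) (s2 := true) (a := 0) (b := 0) (c := 1) (cn := .up) (n1 := ndB5q0) (n2 := ndB5q0) (pc := pcB1) (cut := Cut.none) (xt := Ext.none) (P1 := 0) (W1 := 536870912) (P2 := 0) (W2 := 536870912) (P3 := 1020054732) (W3 := 13421774) (N0 := 3) (En := eng) (mo := mog) (C1 := cd5q0) (C2 := cd5q0) (C3 := pd1)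
    rfl k0_pp_001

noncomputable def f_pp_011 : ℕ → ℕ → ℕ → ℕ → Bool := onCell 0 536870912 536870912 536870912 1020054732 13421774
    (rowB 3 eng mog cd5q0 cd5q1 pd1 0 true true true .pnn 0 1 1 (qsf 0 536870912 536870912 536870912 1) ndB5q0 ndB5q1 pcB1 Cut.none Ext.none)

def k0_pp_011 : ∃ t, chk3 f_pp_011 t 1 1 1 = true :=
  ⟨(l 4), by decide +kernel⟩

theorem c_pp_011 : CertB 0 536870912 536870912 536870912 1020054732 13421774 3 eng mog cd5q0 cd5q1 pd1 true true true .pnn 0 1 1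
    ndB5q0 ndB5q1 pcB1 Cut.none Ext.none :=
  certB0 (fam := true) (s1 := true) (s2 := true) (a := 0) (b := 1) (c := 1) (cn := .pnn) (n1 := ndB5q0) (n2 := ndB5q1) (pc := pcB1) (cut := Cut.none) (xt := Ext.none) (P1 := 0) (W1 := 536870912) (P2 := 536870912) (W2 := 536870912) (P3 := 1020054732) (W3 := 13421774) (N0 := 3) (En := eng) (mo := mog) (C1 := cd5q0) (C2 := cd5q1) (C3 := pd1)
    rfl k0_pp_011

noncomputable def f_pp_012 : ℕ → ℕ → ℕ → ℕ → Bool := onCell 0 536870912 536870912 536870912 1020054732 13421774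
    (rowB 3 eng mog cd5q0 cd5q1 pd2 0 true true true .pnp 0 1 2 (qsf 0 536870912 536870912 536870912 2) ndB5q0 ndB5q1 pcB2 Cut.none Ext.none)

def k0_pp_012 : ∃ t, chk3 f_pp_012 t 1 1 1 = true :=
  ⟨(l 4), by decide +kernel⟩

theorem c_pp_012 : CertB 0 536870912 536870912 536870912 1020054732 13421774 3 eng mog cd5q0 cd5q1 pd2 true true true .pnp 0 1 2
    ndB5q0 ndB5q1 pcB2 Cut.none Ext.none :=
  certB0 (fam := true) (s1 := true) (s2 := true) (a := 0) (b := 1) (c := 2) (cn := .pnp) (n1 := ndB5q0) (n2 := ndB5q1) (pc := pcB2) (cut := Cut.none) (xt := Ext.none) (P1 := 0) (W1 := 536870912) (P2 := 536870912) (W2 := 536870912) (P3 := 1020054732) (W3 := 13421774) (N0 := 3) (En := eng) (mo := mog) (C1 := cd5q0) (C2 := cd5q1) (C3 := pd2)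
    rfl k0_pp_012

noncomputable def f_pp_022 : ℕ → ℕ → ℕ → ℕ → Bool := onCell 0 536870912 1073741824 536870912 1020054732 13421774
    (rowB 3 eng mog cd5q0 cd5q2 pd2 0 true true true .pp 0 2 2 (qsf 0 536870912 1073741824 536870912 2) ndB5q0 ndB5q2 pcB2 Cut.none Ext.none)

def k0_pp_022 : ∃ t, chk3 f_pp_022 t 1 1 1 = true :=
  ⟨(l 4), by decide +kernel⟩

theorem c_pp_022 : CertB 0 536870912 1073741824 536870912 1020054732 13421774 3 eng mog cd5q0 cd5q2 pd2 true true true .pp 0 2 2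
    ndB5q0 ndB5q2 pcB2 Cut.none Ext.none :=
  certB0 (fam := true) (s1 := true) (s2 := true) (a := 0) (b := 2) (c := 2) (cn := .pp) (n1 := ndB5q0) (n2 := ndB5q2) (pc := pcB2) (cut := Cut.none) (xt := Ext.none) (P1 := 0) (W1 := 536870912) (P2 := 1073741824) (W2 := 536870912) (P3 := 1020054732) (W3 := 13421774) (N0 := 3) (En := eng) (mo := mog) (C1 := cd5q0) (C2 := cd5q2) (C3 := pd2)
    rfl k0_pp_022

noncomputable def f_pp_023 : ℕ → ℕ → ℕ → ℕ → Bool := onCell 0 536870912 1073741824 536870912 1020054732 13421774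
    (rowB 3 eng mog cd5q0 cd5q2 pd3 0 true true true .up 0 2 3 (qsf 0 536870912 1073741824 536870912 3) ndB5q0 ndB5q2 pcB3 Cut.none Ext.none)

def k0_pp_023 : ∃ t, chk3 f_pp_023 t 1 1 1 = true :=
  ⟨(l 4), by decide +kernel⟩

theorem c_pp_023 : CertB 0 536870912 1073741824 536870912 1020054732 13421774 3 eng mog cd5q0 cd5q2 pd3 true true true .up 0 2 3
    ndB5q0 ndB5q2 pcB3 Cut.none Ext.none :=
  certB0 (fam := true) (s1 := true) (s2 := true) (a := 0) (b := 2) (c := 3) (cn := .up) (n1 := ndB5q0) (n2 := ndB5q2) (pc := pcB3) (cut := Cut.none) (xt := Ext.none) (P1 := 0) (W1 := 536870912) (P2 := 1073741824) (W2 := 536870912) (P3 := 1020054732) (W3 := 13421774) (N0 := 3) (En := eng) (mo := mog) (C1 := cd5q0) (C2 := cd5q2) (C3 := pd3)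
    rfl k0_pp_023

noncomputable def f_pp_033 : ℕ → ℕ → ℕ → ℕ → Bool := onCell 0 536870912 0 1230186008 1020054732 13421774
    (rowB 3 eng mog cd5q0 cd5q3 pd3 0 true true true .pnn 0 3 3 (qsf 0 536870912 0 1230186008 3) ndB5q0 ndB5q3 pcB3 Cut.none Ext.none)

def k0_pp_033 : ∃ t, chk3 f_pp_033 t 1 1 1 = true :=
  ⟨(l 4), by decide +kernel⟩

theorem c_pp_033 : CertB 0 536870912 0 1230186008 1020054732 13421774 3 eng mog cd5q0 cd5q3 pd3 true true true .pnn 0 3 3
    ndB5q0 ndB5q3 pcB3 Cut.none Ext.none :=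
  certB0 (fam := true) (s1 := true) (s2 := true) (a := 0) (b := 3) (c := 3) (cn := .pnn) (n1 := ndB5q0) (n2 := ndB5q3) (pc := pcB3) (cut := Cut.none) (xt := Ext.none) (P1 := 0) (W1 := 536870912) (P2 := 0) (W2 := 1230186008) (P3 := 1020054732) (W3 := 13421774) (N0 := 3) (En := eng) (mo := mog) (C1 := cd5q0) (C2 := cd5q3) (C3 := pd3)
    rfl k0_pp_033

noncomputable def f_pp_101 : ℕ → ℕ → ℕ → ℕ → Bool := onCell 536870912 536870912 0 536870912 1020054732 13421774
    (rowB 3 eng mog cd5q1 cd5q0 pd1 0 true true true .npn 1 0 1 (qsf 536870912 536870912 0 536870912 1) ndB5q1 ndB5q0 pcB1 Cut.none Ext.none)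

def k0_pp_101 : ∃ t, chk3 f_pp_101 t 1 1 1 = true :=
  ⟨(l 4), by decide +kernel⟩

theorem c_pp_101 : CertB 536870912 536870912 0 536870912 1020054732 13421774 3 eng mog cd5q1 cd5q0 pd1 true true true .npn 1 0 1
    ndB5q1 ndB5q0 pcB1 Cut.none Ext.none :=
  certB0 (fam := true) (s1 := true) (s2 := true) (a := 1) (b := 0) (c := 1) (cn := .npn) (n1 := ndB5q1) (n2 := ndB5q0) (pc := pcB1) (cut := Cut.none) (xt := Ext.none) (P1 := 536870912) (W1 := 536870912) (P2 := 0) (W2 := 536870912) (P3 := 1020054732) (W3 := 13421774) (N0 := 3) (En := eng) (mo := mog) (C1 := cd5q1) (C2 := cd5q0) (C3 := pd1)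
    rfl k0_pp_101

noncomputable def f_pp_102 : ℕ → ℕ → ℕ → ℕ → Bool := onCell 536870912 536870912 0 536870912 1020054732 13421774
    (rowB 3 eng mog cd5q1 cd5q0 pd2 0 true true true .npp 1 0 2 (qsf 536870912 536870912 0 536870912 2) ndB5q1 ndB5q0 pcB2 Cut.none Ext.none)

def k0_pp_102 : ∃ t, chk3 f_pp_102 t 1 1 1 = true :=
  ⟨(l 4), by decide +kernel⟩

theorem c_pp_102 : CertB 536870912 536870912 0 536870912 1020054732 13421774 3 eng mog cd5q1 cd5q0 pd2 true true true .npp 1 0 2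
    ndB5q1 ndB5q0 pcB2 Cut.none Ext.none :=
  certB0 (fam := true) (s1 := true) (s2 := true) (a := 1) (b := 0) (c := 2) (cn := .npp) (n1 := ndB5q1) (n2 := ndB5q0) (pc := pcB2) (cut := Cut.none) (xt := Ext.none) (P1 := 536870912) (W1 := 536870912) (P2 := 0) (W2 := 536870912) (P3 := 1020054732) (W3 := 13421774) (N0 := 3) (En := eng) (mo := mog) (C1 := cd5q1) (C2 := cd5q0) (C3 := pd2)
    rfl k0_pp_102

noncomputable def f_pp_112 : ℕ → ℕ → ℕ → ℕ → Bool := onCell 536870912 536870912 536870912 536870912 1020054732 13421774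
    (rowB 3 eng mog cd5q1 cd5q1 pd2 0 true true true .dn 1 1 2 (qsf 536870912 536870912 536870912 536870912 2) ndB5q1 ndB5q1 pcB2 Cut.none Ext.none)

def k0_pp_112 : ∃ t, chk3 f_pp_112 t 1 1 1 = true :=
  ⟨(l 4), by decide +kernel⟩

theorem c_pp_112 : CertB 536870912 536870912 536870912 536870912 1020054732 13421774 3 eng mog cd5q1 cd5q1 pd2 true true true .dn 1 1 2
    ndB5q1 ndB5q1 pcB2 Cut.none Ext.none :=
  certB0 (fam := true) (s1 := true) (s2 := true) (a := 1) (b := 1) (c := 2) (cn := .dn) (n1 := ndB5q1) (n2 := ndB5q1) (pc := pcB2) (cut := Cut.none) (xt := Ext.none) (P1 := 536870912) (W1 := 536870912) (P2 := 536870912) (W2 := 536870912) (P3 := 1020054732) (W3 := 13421774) (N0 := 3) (En := eng) (mo := mog) (C1 := cd5q1) (C2 := cd5q1) (C3 := pd2)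
    rfl k0_pp_112

noncomputable def f_pp_113 : ℕ → ℕ → ℕ → ℕ → Bool := onCell 536870912 536870912 536870912 536870912 1020054732 13421774
    (rowB 3 eng mog cd5q1 cd5q1 pd3 0 true true true .nn 1 1 3 (qsf 536870912 536870912 536870912 536870912 3) ndB5q1 ndB5q1 pcB3 Cut.none Ext.none)

def k0_pp_113 : ∃ t, chk3 f_pp_113 t 1 1 1 = true :=
  ⟨(l 4), by decide +kernel⟩

theorem c_pp_113 : CertB 536870912 536870912 536870912 536870912 1020054732 13421774 3 eng mog cd5q1 cd5q1 pd3 true true true .nn 1 1 3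
    ndB5q1 ndB5q1 pcB3 Cut.none Ext.none :=
  certB0 (fam := true) (s1 := true) (s2 := true) (a := 1) (b := 1) (c := 3) (cn := .nn) (n1 := ndB5q1) (n2 := ndB5q1) (pc := pcB3) (cut := Cut.none) (xt := Ext.none) (P1 := 536870912) (W1 := 536870912) (P2 := 536870912) (W2 := 536870912) (P3 := 1020054732) (W3 := 13421774) (N0 := 3) (En := eng) (mo := mog) (C1 := cd5q1) (C2 := cd5q1) (C3 := pd3)
    rfl k0_pp_113

noncomputable def f_pp_123 : ℕ → ℕ → ℕ → ℕ → Bool := onCell 536870912 536870912 1073741824 536870912 1020054732 13421774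
    (rowB 3 eng mog cd5q1 cd5q2 pd3 0 true true true .npn 1 2 3 (qsf 536870912 536870912 1073741824 536870912 3) ndB5q1 ndB5q2 pcB3 Cut.none Ext.none)

def k0_pp_123 : ∃ t, chk3 f_pp_123 t 1 1 1 = true :=
  ⟨(l 4), by decide +kernel⟩

theorem c_pp_123 : CertB 536870912 536870912 1073741824 536870912 1020054732 13421774 3 eng mog cd5q1 cd5q2 pd3 true true true .npn 1 2 3
    ndB5q1 ndB5q2 pcB3 Cut.none Ext.none :=
  certB0 (fam := true) (s1 := true) (s2 := true) (a := 1) (b := 2) (c := 3) (cn := .npn) (n1 := ndB5q1) (n2 := ndB5q2) (pc := pcB3) (cut := Cut.none) (xt := Ext.none) (P1 := 536870912) (W1 := 536870912) (P2 := 1073741824) (W2 := 536870912) (P3 := 1020054732) (W3 := 13421774) (N0 := 3) (En := eng) (mo := mog) (C1 := cd5q1) (C2 := cd5q2) (C3 := pd3)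
    rfl k0_pp_123

noncomputable def f_pp_133 : ℕ → ℕ → ℕ → ℕ → Bool := onCell 536870912 536870912 0 1230186008 1020054732 13421774
    (rowB 3 eng mog cd5q1 cd5q3 pd3 0 true true true .dn 1 3 3 (qsf 536870912 536870912 0 1230186008 3) ndB5q1 ndB5q3 pcB3 Cut.none Ext.none)

def k0_pp_133 : ∃ t, chk3 f_pp_133 t 1 1 1 = true :=
  ⟨(l 4), by decide +kernel⟩

theorem c_pp_133 : CertB 536870912 536870912 0 1230186008 1020054732 13421774 3 eng mog cd5q1 cd5q3 pd3 true true true .dn 1 3 3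
    ndB5q1 ndB5q3 pcB3 Cut.none Ext.none :=
  certB0 (fam := true) (s1 := true) (s2 := true) (a := 1) (b := 3) (c := 3) (cn := .dn) (n1 := ndB5q1) (n2 := ndB5q3) (pc := pcB3) (cut := Cut.none) (xt := Ext.none) (P1 := 536870912) (W1 := 536870912) (P2 := 0) (W2 := 1230186008) (P3 := 1020054732) (W3 := 13421774) (N0 := 3) (En := eng) (mo := mog) (C1 := cd5q1) (C2 := cd5q3) (C3 := pd3)
    rfl k0_pp_133

noncomputable def f_pp_202 : ℕ → ℕ → ℕ → ℕ → Bool := onCell 1073741824 536870912 0 536870912 1020054732 13421774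
    (rowB 3 eng mog cd5q2 cd5q0 pd2 0 true true true .pp 2 0 2 (qsf 1073741824 536870912 0 536870912 2) ndB5q2 ndB5q0 pcB2 Cut.none Ext.none)

def k0_pp_202 : ∃ t, chk3 f_pp_202 t 1 1 1 = true :=
  ⟨(l 4), by decide +kernel⟩

theorem c_pp_202 : CertB 1073741824 536870912 0 536870912 1020054732 13421774 3 eng mog cd5q2 cd5q0 pd2 true true true .pp 2 0 2
    ndB5q2 ndB5q0 pcB2 Cut.none Ext.none :=
  certB0 (fam := true) (s1 := true) (s2 := true) (a := 2) (b := 0) (c := 2) (cn := .pp) (n1 := ndB5q2) (n2 := ndB5q0) (pc := pcB2) (cut := Cut.none) (xt := Ext.none) (P1 := 1073741824) (W1 := 536870912) (P2 := 0) (W2 := 536870912) (P3 := 1020054732) (W3 := 13421774) (N0 := 3) (En := eng) (mo := mog) (C1 := cd5q2) (C2 := cd5q0) (C3 := pd2)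
    rfl k0_pp_202

noncomputable def f_pp_203 : ℕ → ℕ → ℕ → ℕ → Bool := onCell 1073741824 536870912 0 536870912 1020054732 13421774
    (rowB 3 eng mog cd5q2 cd5q0 pd3 0 true true true .up 2 0 3 (qsf 1073741824 536870912 0 536870912 3) ndB5q2 ndB5q0 pcB3 Cut.none Ext.none)

def k0_pp_203 : ∃ t, chk3 f_pp_203 t 1 1 1 = true :=
  ⟨(l 4), by decide +kernel⟩

theorem c_pp_203 : CertB 1073741824 536870912 0 536870912 1020054732 13421774 3 eng mog cd5q2 cd5q0 pd3 true true true .up 2 0 3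
    ndB5q2 ndB5q0 pcB3 Cut.none Ext.none :=
  certB0 (fam := true) (s1 := true) (s2 := true) (a := 2) (b := 0) (c := 3) (cn := .up) (n1 := ndB5q2) (n2 := ndB5q0) (pc := pcB3) (cut := Cut.none) (xt := Ext.none) (P1 := 1073741824) (W1 := 536870912) (P2 := 0) (W2 := 536870912) (P3 := 1020054732) (W3 := 13421774) (N0 := 3) (En := eng) (mo := mog) (C1 := cd5q2) (C2 := cd5q0) (C3 := pd3)
    rfl k0_pp_203

noncomputable def f_pp_213 : ℕ → ℕ → ℕ → ℕ → Bool := onCell 1073741824 536870912 536870912 536870912 1020054732 13421774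
    (rowB 3 eng mog cd5q2 cd5q1 pd3 0 true true true .pnn 2 1 3 (qsf 1073741824 536870912 536870912 536870912 3) ndB5q2 ndB5q1 pcB3 Cut.none Ext.none)

def k0_pp_213 : ∃ t, chk3 f_pp_213 t 1 1 1 = true :=
  ⟨(l 4), by decide +kernel⟩

theorem c_pp_213 : CertB 1073741824 536870912 536870912 536870912 1020054732 13421774 3 eng mog cd5q2 cd5q1 pd3 true true true .pnn 2 1 3
    ndB5q2 ndB5q1 pcB3 Cut.none Ext.none :=
  certB0 (fam := true) (s1 := true) (s2 := true) (a := 2) (b := 1) (c := 3) (cn := .pnn) (n1 := ndB5q2) (n2 := ndB5q1) (pc := pcB3) (cut := Cut.none) (xt := Ext.none) (P1 := 1073741824) (W1 := 536870912) (P2 := 536870912) (W2 := 536870912) (P3 := 1020054732) (W3 := 13421774) (N0 := 3) (En := eng) (mo := mog) (C1 := cd5q2) (C2 := cd5q1) (C3 := pd3)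
    rfl k0_pp_213

noncomputable def f_pp_303 : ℕ → ℕ → ℕ → ℕ → Bool := onCell 0 1230186008 0 536870912 1020054732 13421774
    (rowB 3 eng mog cd5q3 cd5q0 pd3 0 true true true .npn 3 0 3 (qsf 0 1230186008 0 536870912 3) ndB5q3 ndB5q0 pcB3 Cut.none Ext.none)

def k0_pp_303 : ∃ t, chk3 f_pp_303 t 1 1 1 = true :=
  ⟨(l 4), by decide +kernel⟩

theorem c_pp_303 : CertB 0 1230186008 0 536870912 1020054732 13421774 3 eng mog cd5q3 cd5q0 pd3 true true true .npn 3 0 3
    ndB5q3 ndB5q0 pcB3 Cut.none Ext.none :=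
  certB0 (fam := true) (s1 := true) (s2 := true) (a := 3) (b := 0) (c := 3) (cn := .npn) (n1 := ndB5q3) (n2 := ndB5q0) (pc := pcB3) (cut := Cut.none) (xt := Ext.none) (P1 := 0) (W1 := 1230186008) (P2 := 0) (W2 := 536870912) (P3 := 1020054732) (W3 := 13421774) (N0 := 3) (En := eng) (mo := mog) (C1 := cd5q3) (C2 := cd5q0) (C3 := pd3)
    rfl k0_pp_303

noncomputable def f_pp_313 : ℕ → ℕ → ℕ → ℕ → Bool := onCell 0 1230186008 536870912 536870912 1020054732 13421774
    (rowB 3 eng mog cd5q3 cd5q1 pd3 0 true true true .dn 3 1 3 (qsf 0 1230186008 536870912 536870912 3) ndB5q3 ndB5q1 pcB3 Cut.none Ext.none)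

def k0_pp_313 : ∃ t, chk3 f_pp_313 t 1 1 1 = true :=
  ⟨(l 4), by decide +kernel⟩

theorem c_pp_313 : CertB 0 1230186008 536870912 536870912 1020054732 13421774 3 eng mog cd5q3 cd5q1 pd3 true true true .dn 3 1 3
    ndB5q3 ndB5q1 pcB3 Cut.none Ext.none :=
  certB0 (fam := true) (s1 := true) (s2 := true) (a := 3) (b := 1) (c := 3) (cn := .dn) (n1 := ndB5q3) (n2 := ndB5q1) (pc := pcB3) (cut := Cut.none) (xt := Ext.none) (P1 := 0) (W1 := 1230186008) (P2 := 536870912) (W2 := 536870912) (P3 := 1020054732) (W3 := 13421774) (N0 := 3) (En := eng) (mo := mog) (C1 := cd5q3) (C2 := cd5q1) (C3 := pd3)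
    rfl k0_pp_313

noncomputable def f_pm_001 : ℕ → ℕ → ℕ → ℕ → Bool := onCell 0 536870912 0 536870912 1020054732 13421774
    (rowB 3 eng mog cd5q0 cd5q0 pd1 0 true true false .up 0 0 1 (qsf 0 536870912 0 536870912 1) ndB5q0 ndB5q0 pcB1 Cut.none Ext.none)

def k0_pm_001 : ∃ t, chk3 f_pm_001 t 1 1 1 = true :=
  ⟨(l 3), by decide +kernel⟩

theorem c_pm_001 : CertB 0 536870912 0 536870912 1020054732 13421774 3 eng mog cd5q0 cd5q0 pd1 true true false .up 0 0 1
    ndB5q0 ndB5q0 pcB1 Cut.none Ext.none :=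
  certB0 (fam := true) (s1 := true) (s2 := false) (a := 0) (b := 0) (c := 1) (cn := .up) (n1 := ndB5q0) (n2 := ndB5q0) (pc := pcB1) (cut := Cut.none) (xt := Ext.none) (P1 := 0) (W1 := 536870912) (P2 := 0) (W2 := 536870912) (P3 := 1020054732) (W3 := 13421774) (N0 := 3) (En := eng) (mo := mog) (C1 := cd5q0) (C2 := cd5q0) (C3 := pd1)
    rfl k0_pm_001

noncomputable def f_pm_011 : ℕ → ℕ → ℕ → ℕ → Bool := onCell 0 536870912 536870912 536870912 1020054732 13421774
    (rowB 3 eng mog cd5q0 cd5q1 pd1 1 true true false .pnn 0 1 1 (qsf 0 536870912 536870912 536870912 1) ndB5q0 ndB5q1 pcB1 Cut.none Ext.none)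

def k0_pm_011 : ∃ t, chk3 f_pm_011 t 1 1 1 = true :=
  ⟨(l 3), by decide +kernel⟩

theorem c_pm_011 : CertB 0 536870912 536870912 536870912 1020054732 13421774 3 eng mog cd5q0 cd5q1 pd1 true true false .pnn 0 1 1
    ndB5q0 ndB5q1 pcB1 Cut.none Ext.none :=
  certB1 (fam := true) (s1 := true) (s2 := false) (a := 0) (b := 1) (c := 1) (cn := .pnn) (n1 := ndB5q0) (n2 := ndB5q1) (pc := pcB1) (cut := Cut.none) (xt := Ext.none) (P1 := 0) (W1 := 536870912) (P2 := 536870912) (W2 := 536870912) (P3 := 1020054732) (W3 := 13421774) (N0 := 3) (En := eng) (mo := mog) (C1 := cd5q0) (C2 := cd5q1) (C3 := pd1)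
    rfl (fun _ => rfl) k0_pm_011

noncomputable def f_pm_012 : ℕ → ℕ → ℕ → ℕ → Bool := onCell 1073741824 536870912 536870912 536870912 1020054732 13421774
    (rowB 3 eng mog cd5q0 cd5q1 pd2 2 true true false .pnp 0 1 2 (qsf 0 536870912 536870912 536870912 2) ndB5q0 ndB5q1 pcB2 Cut.none Ext.none)

def k0_pm_012 : ∃ t, chk3 f_pm_012 t 1 1 1 = true :=
  ⟨(a (a (b (l 3) (a (l 3) (b (l 3) (b (l 3) (a (l 3) (l 242290085815)))))) (a (a (a (b (l 3) (b (l 14601944) (b (l 14184680) (l 13804448)))) (b (b (l 2) (a (l 3) (a (l 14909480) (l 14900864)))) (b (a (l 14590304) (a (l 14583024) (l 14572112))) (a (b (l 14180016) (l 13797832)) (b (a (l 14170112) (l 14145760)) (l 13729168)))))) (b (b (l 2) (l 14854768)) (b (l 14541784) (b (l 14121416) (l 13731608))))) (b (b (l 2) (b (l 14772384) (l 14703432))) (b (b (l 14572192) (l 14365664)) (b (l 14080472) (l 13709880)))))) (b (a (b (l 2) (b (l 2) (a (l 14540136) (l 2)))) (l 2)) (b (a (b (a (l 14441632) (l 14284632)) (l 13945928))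 (b (l 2) (a (l 14001920) (l 2)))) (a (b (a (l 14012104) (l 13921776)) (a (l 13667856) (l 13604904))) (b (a (l 13809552) (l 13676016)) (a (l 13521368) (l 13418096))))))), by decide +kernel⟩

theorem c_pm_012 : CertB 0 536870912 536870912 536870912 1020054732 13421774 3 eng mog cd5q0 cd5q1 pd2 true true false .pnp 0 1 2
    ndB5q0 ndB5q1 pcB2 Cut.none Ext.none :=
  certB2 (fam := true) (s1 := true) (s2 := false) (a := 0) (b := 1) (c := 2) (cn := .pnp) (n1 := ndB5q0) (n2 := ndB5q1) (pc := pcB2) (cut := Cut.none) (xt := Ext.none) (P1 := 0) (W1 := 536870912) (P2 := 536870912) (W2 := 536870912) (P3 := 1020054732) (W3 := 13421774) (N0 := 3) (En := eng) (mo := mog) (C1 := cd5q0) (C2 := cd5q1) (C3 := pd2)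
    rfl (fun _ => rfl) k0_pm_012

noncomputable def f_pm_022 : ℕ → ℕ → ℕ → ℕ → Bool := onCell 1073741824 536870912 1073741824 536870912 1020054732 13421774
    (rowB 3 eng mog cd5q0 cd5q2 pd2 2 true true false .pp 0 2 2 (qsf 0 536870912 1073741824 536870912 2) ndB5q0 ndB5q2 pcB2 Cut.none Ext.none)

def k0_pm_022 : ∃ t, chk3 f_pm_022 t 1 1 1 = true :=
  ⟨(a (a (b (a (l 3) (a (b (l 3) (l 1)) (b (b (a (l 3) (l 13817248)) (a (l 14209816) (l 14102520))) (b (a (l 1) (l 14542184)) (l 1))))) (l 1)) (b (b (a (a (a (b (l 13631120) (a (l 14232208) (l 14211440))) (b (b (l 13663680) (l 13877192)) (a (l 14189096) (a (l 14172888) (l 14145712))))) (b (l 13745568) (l 14162472))) (b (l 13744392) (l 14179320))) (a (a (b (a (l 14515240) (a (l 14496680) (a (l 14489712) (l 14498944)))) (l 1)) (b (l 14492240) (l 14751120))) (b (l 14520944) (l 14789512)))) (b (a (l 1) (b (l 14999032) (l 1))) (l 1)))) (b (b (a (b (l 13707832) (a (l 14191976) (l 14189896))) (b (l 13612688) (l 14030520)))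 (a (b (l 14550576) (l 14837480)) (b (l 14563112) (l 14877664)))) (b (a (b (l 15062880) (l 15233688)) (b (l 15122544) (l 15295656))) (a (a (l 1) (l 15370848)) (b (l 15382344) (l 15366592)))))), by decide +kernel⟩

theorem c_pm_022 : CertB 0 536870912 1073741824 536870912 1020054732 13421774 3 eng mog cd5q0 cd5q2 pd2 true true false .pp 0 2 2
    ndB5q0 ndB5q2 pcB2 Cut.none Ext.none :=
  certB2 (fam := true) (s1 := true) (s2 := false) (a := 0) (b := 2) (c := 2) (cn := .pp) (n1 := ndB5q0) (n2 := ndB5q2) (pc := pcB2) (cut := Cut.none) (xt := Ext.none) (P1 := 0) (W1 := 536870912) (P2 := 1073741824) (W2 := 536870912) (P3 := 1020054732) (W3 := 13421774) (N0 := 3) (En := eng) (mo := mog) (C1 := cd5q0) (C2 := cd5q2) (C3 := pd2)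
    rfl (fun _ => rfl) k0_pm_022

noncomputable def f_pm_023 : ℕ → ℕ → ℕ → ℕ → Bool := onCell 1610612736 536870912 1073741824 536870912 1020054732 13421774
    (rowB 3 eng mog cd5q0 cd5q2 pd3 2 true true false .up 0 2 3 (qsf 0 536870912 1073741824 536870912 3) ndB5q0 ndB5q2 pcB3 Cut.none Ext.none)

def k0_pm_023 : ∃ t, chk3 f_pm_023 t 1 1 1 = true :=
  ⟨(a (b (b (a (b (a (l 13311688) (l 13243448)) (a (l 13829968) (l 13838720))) (b (l 2) (a (l 13882488) (l 2)))) (a (b (a (l 14476664) (l 14522248)) (a (l 15066376) (l 15125184))) (b (a (l 14596256) (l 14708008)) (a (l 15205968) (l 15295672))))) (b (a (b (a (l 15591832) (l 15640040)) (l 15808280)) (b (a (l 15661168) (l 15695080)) (l 15966064))) (a (l 16271064) (l 16285336)))) (b (a (b (l 2) (a (b (l 2) (l 15400200)) (l 2))) (l 2)) (a (b (b (l 15856984) (l 16142704)) (a (l 16395344) (l 16532240))) (b (a (l 16403736) (l 2)) (a (l 16728688) (a (l 16686360) (l 4))))))), by decide +kernel⟩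

theorem c_pm_023 : CertB 0 536870912 1073741824 536870912 1020054732 13421774 3 eng mog cd5q0 cd5q2 pd3 true true false .up 0 2 3
    ndB5q0 ndB5q2 pcB3 Cut.none Ext.none :=
  certB2 (fam := true) (s1 := true) (s2 := false) (a := 0) (b := 2) (c := 3) (cn := .up) (n1 := ndB5q0) (n2 := ndB5q2) (pc := pcB3) (cut := Cut.none) (xt := Ext.none) (P1 := 0) (W1 := 536870912) (P2 := 1073741824) (W2 := 536870912) (P3 := 1020054732) (W3 := 13421774) (N0 := 3) (En := eng) (mo := mog) (C1 := cd5q0) (C2 := cd5q2) (C3 := pd3)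
    rfl (fun _ => rfl) k0_pm_023

noncomputable def f_pm_033 : ℕ → ℕ → ℕ → ℕ → Bool := onCell 1610612736 536870912 0 1230186008 1020054732 13421774
    (rowB 3 eng mog cd5q0 cd5q3 pd3 2 true true false .pnn 0 3 3 (qsf 0 536870912 0 1230186008 3) ndB5q0 ndB5q3 pcB3 Cut.none Ext.none)

def k0_pm_033 : ∃ t, chk3 f_pm_033 t 1 1 1 = true :=
  ⟨(a (b (l 1) (b (a (l 1) (a (l 1) (l 16555776))) (a (b (l 1) (l 16543096)) (b (l 16757560) (b (l 16629088) (l 16522200)))))) (b (l 4) (b (l 4) (b (a (l 16663136) (l 4)) (a (a (l 16684608) (l 16761728)) (a (l 16672520) (l 4))))))), by decide +kernel⟩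

theorem c_pm_033 : CertB 0 536870912 0 1230186008 1020054732 13421774 3 eng mog cd5q0 cd5q3 pd3 true true false .pnn 0 3 3
    ndB5q0 ndB5q3 pcB3 Cut.none Ext.none :=
  certB2 (fam := true) (s1 := true) (s2 := false) (a := 0) (b := 3) (c := 3) (cn := .pnn) (n1 := ndB5q0) (n2 := ndB5q3) (pc := pcB3) (cut := Cut.none) (xt := Ext.none) (P1 := 0) (W1 := 536870912) (P2 := 0) (W2 := 1230186008) (P3 := 1020054732) (W3 := 13421774) (N0 := 3) (En := eng) (mo := mog) (C1 := cd5q0) (C2 := cd5q3) (C3 := pd3)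
    rfl (fun _ => rfl) k0_pm_033

noncomputable def f_pm_101 : ℕ → ℕ → ℕ → ℕ → Bool := onCell 536870912 536870912 536870912 536870912 1020054732 13421774
    (rowB 3 eng mog cd5q1 cd5q0 pd1 1 true true false .npn 1 0 1 (qsf 536870912 536870912 0 536870912 1) ndB5q1 ndB5q0 pcB1 Cut.none Ext.none)

def k0_pm_101 : ∃ t, chk3 f_pm_101 t 1 1 1 = true :=
  ⟨(l 3), by decide +kernel⟩

theorem c_pm_101 : CertB 536870912 536870912 0 536870912 1020054732 13421774 3 eng mog cd5q1 cd5q0 pd1 true true false .npn 1 0 1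
    ndB5q1 ndB5q0 pcB1 Cut.none Ext.none :=
  certB1 (fam := true) (s1 := true) (s2 := false) (a := 1) (b := 0) (c := 1) (cn := .npn) (n1 := ndB5q1) (n2 := ndB5q0) (pc := pcB1) (cut := Cut.none) (xt := Ext.none) (P1 := 536870912) (W1 := 536870912) (P2 := 0) (W2 := 536870912) (P3 := 1020054732) (W3 := 13421774) (N0 := 3) (En := eng) (mo := mog) (C1 := cd5q1) (C2 := cd5q0) (C3 := pd1)
    rfl (fun _ => rfl) k0_pm_101

noncomputable def f_pm_102 : ℕ → ℕ → ℕ → ℕ → Bool := onCell 536870912 536870912 1073741824 536870912 1020054732 13421774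
    (rowB 3 eng mog cd5q1 cd5q0 pd2 1 true true false .npp 1 0 2 (qsf 536870912 536870912 0 536870912 2) ndB5q1 ndB5q0 pcB2 Cut.none Ext.none)

def k0_pm_102 : ∃ t, chk3 f_pm_102 t 1 1 1 = true :=
  ⟨(a (b (b (l 3) (b (b (b (l 3) (a (l 2) (b (l 3) (b (l 14909480) (l 14900864))))) (a (l 2) (l 14854768))) (a (l 2) (a (l 14772384) (l 14703432))))) (a (l 2) (b (a (l 2) (b (l 14540136) (l 2))) (l 2)))) (b (b (b (l 3) (a (l 3) (a (l 3) (b (l 3) (l 242290085815))))) (a (b (b (b (l 14601944) (b (l 14590304) (b (l 14583024) (l 14572112)))) (l 14541784)) (a (l 14572192) (l 14365664))) (b (b (b (a (l 14184680) (l 13804448)) (b (a (l 14180016) (l 13797832)) (a (b (l 14170112) (l 14145760)) (l 13729168)))) (a (l 14121416) (l 13731608))) (a (l 14080472) (l 13709880))))) (a (b (a (b (l 14441632) (l 14284632)) (b (l 14269104) (l 14148552))) (a (l 2) (b (l 14001920) (l 2)))) (b (a (b (l 14012104) (l 13921776)) (b (l 13667856) (l 13604904))) (a (b (l 13809552) (l 13676016))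 (b (l 13521368) (l 13418096))))))), by decide +kernel⟩

theorem c_pm_102 : CertB 536870912 536870912 0 536870912 1020054732 13421774 3 eng mog cd5q1 cd5q0 pd2 true true false .npp 1 0 2
    ndB5q1 ndB5q0 pcB2 Cut.none Ext.none :=
  certB1 (fam := true) (s1 := true) (s2 := false) (a := 1) (b := 0) (c := 2) (cn := .npp) (n1 := ndB5q1) (n2 := ndB5q0) (pc := pcB2) (cut := Cut.none) (xt := Ext.none) (P1 := 536870912) (W1 := 536870912) (P2 := 0) (W2 := 536870912) (P3 := 1020054732) (W3 := 13421774) (N0 := 3) (En := eng) (mo := mog) (C1 := cd5q1) (C2 := cd5q0) (C3 := pd2)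
    rfl (fun _ => rfl) k0_pm_102

noncomputable def f_pm_112 : ℕ → ℕ → ℕ → ℕ → Bool := onCell 1073741824 536870912 536870912 536870912 1020054732 13421774
    (rowB 3 eng mog cd5q1 cd5q1 pd2 2 true true false .dn 1 1 2 (qsf 536870912 536870912 536870912 536870912 2) ndB5q1 ndB5q1 pcB2 Cut.none Ext.none)

def k0_pm_112 : ∃ t, chk3 f_pm_112 t 1 1 1 = true :=
  ⟨(a (a (b (l 3) (l 1)) (b (a (a (a (l 3) (a (l 3) (b (l 15006856) (a (l 14920416) (l 14911904))))) (b (l 14944384) (l 14872016))) (b (l 14785064) (l 14756400))) (b (a (l 1) (l 14486848)) (l 1)))) (b (b (a (b (l 14379952) (l 14464360)) (b (a (l 13946128) (l 13557632)) (a (l 14078528) (l 13798144)))) (a (l 14483736) (b (l 14028464) (l 14053464)))) (b (a (l 490728121911) (b (l 14024504) (l 13933544))) (a (b (l 13978416) (l 1)) (b (l 13756680) (l 13481320)))))), by decide +kernel⟩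

theorem c_pm_112 : CertB 536870912 536870912 536870912 536870912 1020054732 13421774 3 eng mog cd5q1 cd5q1 pd2 true true false .dn 1 1 2
    ndB5q1 ndB5q1 pcB2 Cut.none Ext.none :=
  certB2 (fam := true) (s1 := true) (s2 := false) (a := 1) (b := 1) (c := 2) (cn := .dn) (n1 := ndB5q1) (n2 := ndB5q1) (pc := pcB2) (cut := Cut.none) (xt := Ext.none) (P1 := 536870912) (W1 := 536870912) (P2 := 536870912) (W2 := 536870912) (P3 := 1020054732) (W3 := 13421774) (N0 := 3) (En := eng) (mo := mog) (C1 := cd5q1) (C2 := cd5q1) (C3 := pd2)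
    rfl (fun _ => rfl) k0_pm_112

noncomputable def f_pm_113 : ℕ → ℕ → ℕ → ℕ → Bool := onCell 536870912 536870912 536870912 536870912 1020054732 13421774
    (rowB 3 eng mog cd5q1 cd5q1 pd3 0 true true false .nn 1 1 3 (qsf 536870912 536870912 536870912 536870912 3) ndB5q1 ndB5q1 pcB3 Cut.none Ext.none)

def k0_pm_113 : ∃ t, chk3 f_pm_113 t 1 1 1 = true :=
  ⟨(a (b (a (l 1) (b (l 1) (l 601860343415))) (b (a (b (l 1) (l 569110898263)) (b (l 13940144) (a (l 13822464) (l 13601048)))) (a (b (l 466567840071) (a (l 13334272) (l 13214904))) (b (a (l 13534656) (l 13351704)) (a (l 13093672) (l 12981472)))))) (b (a (b (a (l 1) (l 569110877287)) (a (l 13940144) (b (l 13822464) (l 13601048)))) (b (a (l 466567819095) (b (l 13334272) (l 13214904))) (a (b (l 13534656) (l 13351704)) (b (l 13093672) (l 12981472))))) (a (b (a (l 13491312) (l 13282224)) (b (a (l 13170672) (l 13038288)) (a (l 12905848) (l 12940864)))) (b (a (b (l 13170672) (l 13038288)) (b (l 12905848) (l 12940864)))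 (a (b (l 13031232) (l 13310752)) (b (l 13310752) (b (l 14356136) (a (l 15106624) (b (l 16874496) (a (l 16830424) (a (l 16827160) (b (l 16804760) (b (l 16802376) (a (l 16790744) (b (l 16789816) (a (l 16783832) (l 16783320))))))))))))))))), by decide +kernel⟩

theorem c_pm_113 : CertB 536870912 536870912 536870912 536870912 1020054732 13421774 3 eng mog cd5q1 cd5q1 pd3 true true false .nn 1 1 3
    ndB5q1 ndB5q1 pcB3 Cut.none Ext.none :=
  certB0 (fam := true) (s1 := true) (s2 := false) (a := 1) (b := 1) (c := 3) (cn := .nn) (n1 := ndB5q1) (n2 := ndB5q1) (pc := pcB3) (cut := Cut.none) (xt := Ext.none) (P1 := 536870912) (W1 := 536870912) (P2 := 536870912) (W2 := 536870912) (P3 := 1020054732) (W3 := 13421774) (N0 := 3) (En := eng) (mo := mog) (C1 := cd5q1) (C2 := cd5q1) (C3 := pd3)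
    rfl k0_pm_113

noncomputable def f_pm_123 : ℕ → ℕ → ℕ → ℕ → Bool := onCell 1610612736 536870912 1073741824 536870912 1020054732 13421774
    (rowB 3 eng mog cd5q1 cd5q2 pd3 2 true true false .npn 1 2 3 (qsf 536870912 536870912 1073741824 536870912 3) ndB5q1 ndB5q2 pcB3 Cut.none Ext.none)

def k0_pm_123 : ∃ t, chk3 f_pm_123 t 1 1 1 = true :=
  ⟨(a (b (b (a (b (a (l 13321032) (l 13255120)) (a (l 13835984) (l 13845080))) (b (a (l 13209456) (l 13204464)) (a (l 13889704) (l 13982968)))) (a (b (l 14312048) (l 1)) (b (l 14441408) (a (l 15207760) (l 15296624))))) (b (a (l 1) (b (a (l 1) (l 15694784)) (l 1))) (l 1))) (b (a (b (a (b (l 13279496) (l 14150424)) (b (l 13534824) (l 14445368))) (a (b (l 14880496) (l 15399720)) (l 15349920))) (b (a (b (a (l 13940928) (l 14476544)) (l 14971624)) (b (a (l 15553264) (a (l 16257512) (a (l 16788672) (a (l 16786888) (a (l 16782672) (l 16766880)))))) (a (l 15686400) (a (l 16213504) (a (l 16533368) (a (l 16688728) (a (l 16759056)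 (l 16725504)))))))) (a (l 15756072) (a (l 16269384) (a (l 16587240) (a (l 16752536) (a (l 16718712) (b (l 4) (l 4))))))))) (a (b (l 15998544) (l 16458768)) (b (a (l 16383008) (a (l 16681464) (a (l 16722576) (l 4)))) (a (l 16713864) (a (l 16705320) (l 4))))))), by decide +kernel⟩

theorem c_pm_123 : CertB 536870912 536870912 1073741824 536870912 1020054732 13421774 3 eng mog cd5q1 cd5q2 pd3 true true false .npn 1 2 3
    ndB5q1 ndB5q2 pcB3 Cut.none Ext.none :=
  certB2 (fam := true) (s1 := true) (s2 := false) (a := 1) (b := 2) (c := 3) (cn := .npn) (n1 := ndB5q1) (n2 := ndB5q2) (pc := pcB3) (cut := Cut.none) (xt := Ext.none) (P1 := 536870912) (W1 := 536870912) (P2 := 1073741824) (W2 := 536870912) (P3 := 1020054732) (W3 := 13421774) (N0 := 3) (En := eng) (mo := mog) (C1 := cd5q1) (C2 := cd5q2) (C3 := pd3)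
    rfl (fun _ => rfl) k0_pm_123

noncomputable def f_pm_133 : ℕ → ℕ → ℕ → ℕ → Bool := onCell 536870912 536870912 0 1230186008 1020054732 13421774
    (rowB 3 eng mog cd5q1 cd5q3 pd3 0 true true false .dn 1 3 3 (qsf 536870912 536870912 0 1230186008 3) ndB5q1 ndB5q3 pcB3 Cut.none Ext.none)

def k0_pm_133 : ∃ t, chk3 f_pm_133 t 1 1 1 = true :=
  ⟨(b (l 2) (b (l 2) (l 4))), by decide +kernel⟩

theorem c_pm_133 : CertB 536870912 536870912 0 1230186008 1020054732 13421774 3 eng mog cd5q1 cd5q3 pd3 true true false .dn 1 3 3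
    ndB5q1 ndB5q3 pcB3 Cut.none Ext.none :=
  certB0 (fam := true) (s1 := true) (s2 := false) (a := 1) (b := 3) (c := 3) (cn := .dn) (n1 := ndB5q1) (n2 := ndB5q3) (pc := pcB3) (cut := Cut.none) (xt := Ext.none) (P1 := 536870912) (W1 := 536870912) (P2 := 0) (W2 := 1230186008) (P3 := 1020054732) (W3 := 13421774) (N0 := 3) (En := eng) (mo := mog) (C1 := cd5q1) (C2 := cd5q3) (C3 := pd3)
    rfl k0_pm_133

noncomputable def f_pm_202 : ℕ → ℕ → ℕ → ℕ → Bool := onCell 1073741824 536870912 1073741824 536870912 1020054732 13421774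
    (rowB 3 eng mog cd5q2 cd5q0 pd2 1 true true false .pp 2 0 2 (qsf 1073741824 536870912 0 536870912 2) ndB5q2 ndB5q0 pcB2 Cut.none Ext.none)

def k0_pm_202 : ∃ t, chk3 f_pm_202 t 1 1 1 = true :=
  ⟨(b (b (a (b (l 3) (b (a (l 3) (l 1)) (a (a (b (l 3) (l 13817248)) (b (l 14209816) (l 14060576))) (a (b (l 1) (l 14542184)) (l 1))))) (l 1)) (a (a (b (b (b (a (l 13673056) (b (l 14232208) (l 14211440))) (a (a (l 13663680) (l 13877192)) (b (l 14189096) (b (l 14172888) (l 14145712))))) (a (l 13745568) (l 14162472))) (a (l 13744392) (l 14179320))) (b (b (a (b (l 14515240) (b (l 14496680) (b (l 14489712) (l 14498944)))) (l 1)) (a (l 14492240) (l 14751120))) (a (l 14520944) (l 14789512)))) (a (b (l 1) (a (l 14999032) (l 1))) (l 1)))) (a (a (b (a (l 13686864) (b (l 14191976) (l 14189896))) (a (l 13612688) (l 14030520))) (b (a (l 14550576) (l 14837480)) (a (l 14563112) (l 14877664)))) (a (b (a (l 15062880) (l 15233688)) (a (l 15122544) (l 15295656))) (b (b (l 1) (l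 15161136)) (a (l 15382344) (l 15366592)))))), by decide +kernel⟩

theorem c_pm_202 : CertB 1073741824 536870912 0 536870912 1020054732 13421774 3 eng mog cd5q2 cd5q0 pd2 true true false .pp 2 0 2
    ndB5q2 ndB5q0 pcB2 Cut.none Ext.none :=
  certB1 (fam := true) (s1 := true) (s2 := false) (a := 2) (b := 0) (c := 2) (cn := .pp) (n1 := ndB5q2) (n2 := ndB5q0) (pc := pcB2) (cut := Cut.none) (xt := Ext.none) (P1 := 1073741824) (W1 := 536870912) (P2 := 0) (W2 := 536870912) (P3 := 1020054732) (W3 := 13421774) (N0 := 3) (En := eng) (mo := mog) (C1 := cd5q2) (C2 := cd5q0) (C3 := pd2)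
    rfl (fun _ => rfl) k0_pm_202

noncomputable def f_pm_203 : ℕ → ℕ → ℕ → ℕ → Bool := onCell 1073741824 536870912 1610612736 536870912 1020054732 13421774
    (rowB 3 eng mog cd5q2 cd5q0 pd3 1 true true false .up 2 0 3 (qsf 1073741824 536870912 0 536870912 3) ndB5q2 ndB5q0 pcB3 Cut.none Ext.none)

def k0_pm_203 : ∃ t, chk3 f_pm_203 t 1 1 1 = true :=
  ⟨(a (b (a (b (a (b (l 13311688) (l 13243448)) (b (l 13829968) (l 13838720))) (a (l 2) (b (l 13882488) (l 2)))) (b (a (b (l 14476664) (l 14522248)) (b (l 15066376) (l 15125184))) (a (b (l 14596256) (l 14708008)) (b (l 15205968) (l 15295672))))) (a (l 2) (b (b (a (l 2) (l 15400200)) (l 2)) (l 2)))) (b (a (b (a (b (l 15591832) (l 15640040)) (l 15787304)) (a (b (l 15661168) (l 15695080)) (l 15966064))) (b (l 16271064) (l 16285336))) (a (b (a (l 15856984) (l 16142704)) (b (l 16403736) (l 2))) (b (b (l 16395344) (l 16532240)) (b (l 16728688) (b (l 16686360) (l 4))))))), by decide +kernel⟩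

theorem c_pm_203 : CertB 1073741824 536870912 0 536870912 1020054732 13421774 3 eng mog cd5q2 cd5q0 pd3 true true false .up 2 0 3
    ndB5q2 ndB5q0 pcB3 Cut.none Ext.none :=
  certB1 (fam := true) (s1 := true) (s2 := false) (a := 2) (b := 0) (c := 3) (cn := .up) (n1 := ndB5q2) (n2 := ndB5q0) (pc := pcB3) (cut := Cut.none) (xt := Ext.none) (P1 := 1073741824) (W1 := 536870912) (P2 := 0) (W2 := 536870912) (P3 := 1020054732) (W3 := 13421774) (N0 := 3) (En := eng) (mo := mog) (C1 := cd5q2) (C2 := cd5q0) (C3 := pd3)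
    rfl (fun _ => rfl) k0_pm_203

noncomputable def f_pm_213 : ℕ → ℕ → ℕ → ℕ → Bool := onCell 1073741824 536870912 1610612736 536870912 1020054732 13421774
    (rowB 3 eng mog cd5q2 cd5q1 pd3 1 true true false .pnn 2 1 3 (qsf 1073741824 536870912 536870912 536870912 3) ndB5q2 ndB5q1 pcB3 Cut.none Ext.none)

def k0_pm_213 : ∃ t, chk3 f_pm_213 t 1 1 1 = true :=
  ⟨(a (b (a (b (a (b (l 13321032) (l 13255120)) (b (l 13835984) (l 13845080))) (a (b (l 13209456) (l 13204464)) (b (l 13889704) (l 13982968)))) (b (a (l 14312048) (l 1)) (a (l 14441408) (b (l 15207760) (l 15296624))))) (a (b (a (b (l 13279496) (l 13450936)) (b (l 14150424) (l 14445368))) (a (b (b (l 13940928) (l 14476544)) (b (l 15553264) (b (l 16257512) (b (l 16788672) (b (l 16786888) (b (l 16782672) (l 16766880))))))) (b (l 14971624) (b (l 15686400) (b (l 16213504) (b (l 16533368) (b (l 16688728) (b (l 16759056) (l 16725504))))))))) (b (b (a (l 14880496) (l 15399720)) (l 15349920)) (b (l 15756072)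 (b (l 16269384) (b (l 16587240) (b (l 16752536) (b (l 16718712) (a (l 4) (l 4)))))))))) (b (a (b (l 1) (a (b (l 1) (l 15694784)) (l 1))) (l 1)) (a (b (l 15998544) (b (l 16383008) (b (l 16681464) (b (l 16722576) (l 4))))) (b (l 16458768) (b (l 16713864) (b (l 16705320) (l 4))))))), by decide +kernel⟩

theorem c_pm_213 : CertB 1073741824 536870912 536870912 536870912 1020054732 13421774 3 eng mog cd5q2 cd5q1 pd3 true true false .pnn 2 1 3
    ndB5q2 ndB5q1 pcB3 Cut.none Ext.none :=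
  certB1 (fam := true) (s1 := true) (s2 := false) (a := 2) (b := 1) (c := 3) (cn := .pnn) (n1 := ndB5q2) (n2 := ndB5q1) (pc := pcB3) (cut := Cut.none) (xt := Ext.none) (P1 := 1073741824) (W1 := 536870912) (P2 := 536870912) (W2 := 536870912) (P3 := 1020054732) (W3 := 13421774) (N0 := 3) (En := eng) (mo := mog) (C1 := cd5q2) (C2 := cd5q1) (C3 := pd3)
    rfl (fun _ => rfl) k0_pm_213

noncomputable def f_pm_303 : ℕ → ℕ → ℕ → ℕ → Bool := onCell 0 1230186008 1610612736 536870912 1020054732 13421774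
    (rowB 3 eng mog cd5q3 cd5q0 pd3 1 true true false .npn 3 0 3 (qsf 0 1230186008 0 536870912 3) ndB5q3 ndB5q0 pcB3 Cut.none Ext.none)

def k0_pm_303 : ∃ t, chk3 f_pm_303 t 1 1 1 = true :=
  ⟨(b (a (l 1) (a (b (l 1) (b (l 1) (l 16555776))) (b (a (l 1) (l 16543096)) (a (l 16757560) (a (l 16629088) (l 16522200)))))) (a (l 4) (a (l 4) (a (b (l 16663136) (l 4)) (b (b (l 16684608) (l 16761728)) (b (l 16672520) (l 4))))))), by decide +kernel⟩

theorem c_pm_303 : CertB 0 1230186008 0 536870912 1020054732 13421774 3 eng mog cd5q3 cd5q0 pd3 true true false .npn 3 0 3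
    ndB5q3 ndB5q0 pcB3 Cut.none Ext.none :=
  certB1 (fam := true) (s1 := true) (s2 := false) (a := 3) (b := 0) (c := 3) (cn := .npn) (n1 := ndB5q3) (n2 := ndB5q0) (pc := pcB3) (cut := Cut.none) (xt := Ext.none) (P1 := 0) (W1 := 1230186008) (P2 := 0) (W2 := 536870912) (P3 := 1020054732) (W3 := 13421774) (N0 := 3) (En := eng) (mo := mog) (C1 := cd5q3) (C2 := cd5q0) (C3 := pd3)
    rfl (fun _ => rfl) k0_pm_303

noncomputable def f_pm_313 : ℕ → ℕ → ℕ → ℕ → Bool := onCell 0 1230186008 536870912 536870912 1020054732 13421774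
    (rowB 3 eng mog cd5q3 cd5q1 pd3 0 true true false .dn 3 1 3 (qsf 0 1230186008 536870912 536870912 3) ndB5q3 ndB5q1 pcB3 Cut.none Ext.none)

def k0_pm_313 : ∃ t, chk3 f_pm_313 t 1 1 1 = true :=
  ⟨(a (l 2) (a (l 2) (l 4))), by decide +kernel⟩

theorem c_pm_313 : CertB 0 1230186008 536870912 536870912 1020054732 13421774 3 eng mog cd5q3 cd5q1 pd3 true true false .dn 3 1 3
    ndB5q3 ndB5q1 pcB3 Cut.none Ext.none :=
  certB0 (fam := true) (s1 := true) (s2 := false) (a := 3) (b := 1) (c := 3) (cn := .dn) (n1 := ndB5q3) (n2 := ndB5q1) (pc := pcB3) (cut := Cut.none) (xt := Ext.none) (P1 := 0) (W1 := 1230186008) (P2 := 536870912) (W2 := 536870912) (P3 := 1020054732) (W3 := 13421774) (N0 := 3) (En := eng) (mo := mog) (C1 := cd5q3) (C2 := cd5q1) (C3 := pd3)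
    rfl k0_pm_313

noncomputable def f_mm_001 : ℕ → ℕ → ℕ → ℕ → Bool := onCell 0 536870912 0 536870912 1020054732 13421774
    (rowB 3 eng mog cd5q0 cd5q0 pd1 0 true false false .up 0 0 1 (qsf 0 536870912 0 536870912 1) ndB5q0 ndB5q0 pcB1 Cut.none Ext.none)

def k0_mm_001 : ∃ t, chk3 f_mm_001 t 1 1 1 = true :=
  ⟨(l 4), by decide +kernel⟩

theorem c_mm_001 : CertB 0 536870912 0 536870912 1020054732 13421774 3 eng mog cd5q0 cd5q0 pd1 true false false .up 0 0 1
    ndB5q0 ndB5q0 pcB1 Cut.none Ext.none :=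
  certB0 (fam := true) (s1 := false) (s2 := false) (a := 0) (b := 0) (c := 1) (cn := .up) (n1 := ndB5q0) (n2 := ndB5q0) (pc := pcB1) (cut := Cut.none) (xt := Ext.none) (P1 := 0) (W1 := 536870912) (P2 := 0) (W2 := 536870912) (P3 := 1020054732) (W3 := 13421774) (N0 := 3) (En := eng) (mo := mog) (C1 := cd5q0) (C2 := cd5q0) (C3 := pd1)
    rfl k0_mm_001

noncomputable def f_mm_011 : ℕ → ℕ → ℕ → ℕ → Bool := onCell 0 536870912 536870912 536870912 1020054732 13421774
    (rowB 3 eng mog cd5q0 cd5q1 pd1 0 true false false .pnn 0 1 1 (qsf 0 536870912 536870912 536870912 1) ndB5q0 ndB5q1 pcB1 Cut.none Ext.none)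

def k0_mm_011 : ∃ t, chk3 f_mm_011 t 1 1 1 = true :=
  ⟨(l 4), by decide +kernel⟩

theorem c_mm_011 : CertB 0 536870912 536870912 536870912 1020054732 13421774 3 eng mog cd5q0 cd5q1 pd1 true false false .pnn 0 1 1
    ndB5q0 ndB5q1 pcB1 Cut.none Ext.none :=
  certB0 (fam := true) (s1 := false) (s2 := false) (a := 0) (b := 1) (c := 1) (cn := .pnn) (n1 := ndB5q0) (n2 := ndB5q1) (pc := pcB1) (cut := Cut.none) (xt := Ext.none) (P1 := 0) (W1 := 536870912) (P2 := 536870912) (W2 := 536870912) (P3 := 1020054732) (W3 := 13421774) (N0 := 3) (En := eng) (mo := mog) (C1 := cd5q0) (C2 := cd5q1) (C3 := pd1)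
    rfl k0_mm_011

noncomputable def f_mm_012 : ℕ → ℕ → ℕ → ℕ → Bool := onCell 0 536870912 536870912 536870912 1020054732 13421774
    (rowB 3 eng mog cd5q0 cd5q1 pd2 0 true false false .pnp 0 1 2 (qsf 0 536870912 536870912 536870912 2) ndB5q0 ndB5q1 pcB2 Cut.none Ext.none)

def k0_mm_012 : ∃ t, chk3 f_mm_012 t 1 1 1 = true :=
  ⟨(l 4), by decide +kernel⟩

theorem c_mm_012 : CertB 0 536870912 536870912 536870912 1020054732 13421774 3 eng mog cd5q0 cd5q1 pd2 true false false .pnp 0 1 2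
    ndB5q0 ndB5q1 pcB2 Cut.none Ext.none :=
  certB0 (fam := true) (s1 := false) (s2 := false) (a := 0) (b := 1) (c := 2) (cn := .pnp) (n1 := ndB5q0) (n2 := ndB5q1) (pc := pcB2) (cut := Cut.none) (xt := Ext.none) (P1 := 0) (W1 := 536870912) (P2 := 536870912) (W2 := 536870912) (P3 := 1020054732) (W3 := 13421774) (N0 := 3) (En := eng) (mo := mog) (C1 := cd5q0) (C2 := cd5q1) (C3 := pd2)
    rfl k0_mm_012

noncomputable def f_mm_022 : ℕ → ℕ → ℕ → ℕ → Bool := onCell 0 536870912 1073741824 536870912 1020054732 13421774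
    (rowB 3 eng mog cd5q0 cd5q2 pd2 0 true false false .pp 0 2 2 (qsf 0 536870912 1073741824 536870912 2) ndB5q0 ndB5q2 pcB2 Cut.none Ext.none)

def k0_mm_022 : ∃ t, chk3 f_mm_022 t 1 1 1 = true :=
  ⟨(l 4), by decide +kernel⟩

theorem c_mm_022 : CertB 0 536870912 1073741824 536870912 1020054732 13421774 3 eng mog cd5q0 cd5q2 pd2 true false false .pp 0 2 2
    ndB5q0 ndB5q2 pcB2 Cut.none Ext.none :=
  certB0 (fam := true) (s1 := false) (s2 := false) (a := 0) (b := 2) (c := 2) (cn := .pp) (n1 := ndB5q0) (n2 := ndB5q2) (pc := pcB2) (cut := Cut.none) (xt := Ext.none) (P1 := 0) (W1 := 536870912) (P2 := 1073741824) (W2 := 536870912) (P3 := 1020054732) (W3 := 13421774) (N0 := 3) (En := eng) (mo := mog) (C1 := cd5q0) (C2 := cd5q2) (C3 := pd2)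
    rfl k0_mm_022

noncomputable def f_mm_023 : ℕ → ℕ → ℕ → ℕ → Bool := onCell 0 536870912 1073741824 536870912 1020054732 13421774
    (rowB 3 eng mog cd5q0 cd5q2 pd3 0 true false false .up 0 2 3 (qsf 0 536870912 1073741824 536870912 3) ndB5q0 ndB5q2 pcB3 Cut.none Ext.none)

def k0_mm_023 : ∃ t, chk3 f_mm_023 t 1 1 1 = true :=
  ⟨(l 4), by decide +kernel⟩

theorem c_mm_023 : CertB 0 536870912 1073741824 536870912 1020054732 13421774 3 eng mog cd5q0 cd5q2 pd3 true false false .up 0 2 3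
    ndB5q0 ndB5q2 pcB3 Cut.none Ext.none :=
  certB0 (fam := true) (s1 := false) (s2 := false) (a := 0) (b := 2) (c := 3) (cn := .up) (n1 := ndB5q0) (n2 := ndB5q2) (pc := pcB3) (cut := Cut.none) (xt := Ext.none) (P1 := 0) (W1 := 536870912) (P2 := 1073741824) (W2 := 536870912) (P3 := 1020054732) (W3 := 13421774) (N0 := 3) (En := eng) (mo := mog) (C1 := cd5q0) (C2 := cd5q2) (C3 := pd3)
    rfl k0_mm_023

noncomputable def f_mm_033 : ℕ → ℕ → ℕ → ℕ → Bool := onCell 0 536870912 0 1230186008 1020054732 13421774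
    (rowB 3 eng mog cd5q0 cd5q3 pd3 0 true false false .pnn 0 3 3 (qsf 0 536870912 0 1230186008 3) ndB5q0 ndB5q3 pcB3 Cut.none Ext.none)

def k0_mm_033 : ∃ t, chk3 f_mm_033 t 1 1 1 = true :=
  ⟨(l 4), by decide +kernel⟩

theorem c_mm_033 : CertB 0 536870912 0 1230186008 1020054732 13421774 3 eng mog cd5q0 cd5q3 pd3 true false false .pnn 0 3 3
    ndB5q0 ndB5q3 pcB3 Cut.none Ext.none :=
  certB0 (fam := true) (s1 := false) (s2 := false) (a := 0) (b := 3) (c := 3) (cn := .pnn) (n1 := ndB5q0) (n2 := ndB5q3) (pc := pcB3) (cut := Cut.none) (xt := Ext.none) (P1 := 0) (W1 := 536870912) (P2 := 0) (W2 := 1230186008) (P3 := 1020054732) (W3 := 13421774) (N0 := 3) (En := eng) (mo := mog) (C1 := cd5q0) (C2 := cd5q3) (C3 := pd3)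
    rfl k0_mm_033

noncomputable def f_mm_101 : ℕ → ℕ → ℕ → ℕ → Bool := onCell 536870912 536870912 0 536870912 1020054732 13421774
    (rowB 3 eng mog cd5q1 cd5q0 pd1 0 true false false .npn 1 0 1 (qsf 536870912 536870912 0 536870912 1) ndB5q1 ndB5q0 pcB1 Cut.none Ext.none)

def k0_mm_101 : ∃ t, chk3 f_mm_101 t 1 1 1 = true :=
  ⟨(l 4), by decide +kernel⟩

theorem c_mm_101 : CertB 536870912 536870912 0 536870912 1020054732 13421774 3 eng mog cd5q1 cd5q0 pd1 true false false .npn 1 0 1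
    ndB5q1 ndB5q0 pcB1 Cut.none Ext.none :=
  certB0 (fam := true) (s1 := false) (s2 := false) (a := 1) (b := 0) (c := 1) (cn := .npn) (n1 := ndB5q1) (n2 := ndB5q0) (pc := pcB1) (cut := Cut.none) (xt := Ext.none) (P1 := 536870912) (W1 := 536870912) (P2 := 0) (W2 := 536870912) (P3 := 1020054732) (W3 := 13421774) (N0 := 3) (En := eng) (mo := mog) (C1 := cd5q1) (C2 := cd5q0) (C3 := pd1)
    rfl k0_mm_101

noncomputable def f_mm_102 : ℕ → ℕ → ℕ → ℕ → Bool := onCell 536870912 536870912 0 536870912 1020054732 13421774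
    (rowB 3 eng mog cd5q1 cd5q0 pd2 0 true false false .npp 1 0 2 (qsf 536870912 536870912 0 536870912 2) ndB5q1 ndB5q0 pcB2 Cut.none Ext.none)

def k0_mm_102 : ∃ t, chk3 f_mm_102 t 1 1 1 = true :=
  ⟨(l 4), by decide +kernel⟩

theorem c_mm_102 : CertB 536870912 536870912 0 536870912 1020054732 13421774 3 eng mog cd5q1 cd5q0 pd2 true false false .npp 1 0 2
    ndB5q1 ndB5q0 pcB2 Cut.none Ext.none :=
  certB0 (fam := true) (s1 := false) (s2 := false) (a := 1) (b := 0) (c := 2) (cn := .npp) (n1 := ndB5q1) (n2 := ndB5q0) (pc := pcB2) (cut := Cut.none) (xt := Ext.none) (P1 := 536870912) (W1 := 536870912) (P2 := 0) (W2 := 536870912) (P3 := 1020054732) (W3 := 13421774) (N0 := 3) (En := eng) (mo := mog) (C1 := cd5q1) (C2 := cd5q0) (C3 := pd2)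
    rfl k0_mm_102

noncomputable def f_mm_112 : ℕ → ℕ → ℕ → ℕ → Bool := onCell 536870912 536870912 536870912 536870912 1020054732 13421774
    (rowB 3 eng mog cd5q1 cd5q1 pd2 0 true false false .dn 1 1 2 (qsf 536870912 536870912 536870912 536870912 2) ndB5q1 ndB5q1 pcB2 Cut.none Ext.none)

def k0_mm_112 : ∃ t, chk3 f_mm_112 t 1 1 1 = true :=
  ⟨(l 4), by decide +kernel⟩

theorem c_mm_112 : CertB 536870912 536870912 536870912 536870912 1020054732 13421774 3 eng mog cd5q1 cd5q1 pd2 true false false .dn 1 1 2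
    ndB5q1 ndB5q1 pcB2 Cut.none Ext.none :=
  certB0 (fam := true) (s1 := false) (s2 := false) (a := 1) (b := 1) (c := 2) (cn := .dn) (n1 := ndB5q1) (n2 := ndB5q1) (pc := pcB2) (cut := Cut.none) (xt := Ext.none) (P1 := 536870912) (W1 := 536870912) (P2 := 536870912) (W2 := 536870912) (P3 := 1020054732) (W3 := 13421774) (N0 := 3) (En := eng) (mo := mog) (C1 := cd5q1) (C2 := cd5q1) (C3 := pd2)
    rfl k0_mm_112

noncomputable def f_mm_113 : ℕ → ℕ → ℕ → ℕ → Bool := onCell 536870912 536870912 536870912 536870912 1020054732 13421774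
    (rowB 3 eng mog cd5q1 cd5q1 pd3 0 true false false .nn 1 1 3 (qsf 536870912 536870912 536870912 536870912 3) ndB5q1 ndB5q1 pcB3 Cut.none Ext.none)

def k0_mm_113 : ∃ t, chk3 f_mm_113 t 1 1 1 = true :=
  ⟨(l 4), by decide +kernel⟩

theorem c_mm_113 : CertB 536870912 536870912 536870912 536870912 1020054732 13421774 3 eng mog cd5q1 cd5q1 pd3 true false false .nn 1 1 3
    ndB5q1 ndB5q1 pcB3 Cut.none Ext.none :=
  certB0 (fam := true) (s1 := false) (s2 := false) (a := 1) (b := 1) (c := 3) (cn := .nn) (n1 := ndB5q1) (n2 := ndB5q1) (pc := pcB3) (cut := Cut.none) (xt := Ext.none) (P1 := 536870912) (W1 := 536870912) (P2 := 536870912) (W2 := 536870912) (P3 := 1020054732) (W3 := 13421774) (N0 := 3) (En := eng) (mo := mog) (C1 := cd5q1) (C2 := cd5q1) (C3 := pd3)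
    rfl k0_mm_113

noncomputable def f_mm_123 : ℕ → ℕ → ℕ → ℕ → Bool := onCell 536870912 536870912 1073741824 536870912 1020054732 13421774
    (rowB 3 eng mog cd5q1 cd5q2 pd3 0 true false false .npn 1 2 3 (qsf 536870912 536870912 1073741824 536870912 3) ndB5q1 ndB5q2 pcB3 Cut.none Ext.none)

def k0_mm_123 : ∃ t, chk3 f_mm_123 t 1 1 1 = true :=
  ⟨(l 4), by decide +kernel⟩

theorem c_mm_123 : CertB 536870912 536870912 1073741824 536870912 1020054732 13421774 3 eng mog cd5q1 cd5q2 pd3 true false false .npn 1 2 3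
    ndB5q1 ndB5q2 pcB3 Cut.none Ext.none :=
  certB0 (fam := true) (s1 := false) (s2 := false) (a := 1) (b := 2) (c := 3) (cn := .npn) (n1 := ndB5q1) (n2 := ndB5q2) (pc := pcB3) (cut := Cut.none) (xt := Ext.none) (P1 := 536870912) (W1 := 536870912) (P2 := 1073741824) (W2 := 536870912) (P3 := 1020054732) (W3 := 13421774) (N0 := 3) (En := eng) (mo := mog) (C1 := cd5q1) (C2 := cd5q2) (C3 := pd3)
    rfl k0_mm_123

noncomputable def f_mm_133 : ℕ → ℕ → ℕ → ℕ → Bool := onCell 536870912 536870912 0 1230186008 1020054732 13421774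
    (rowB 3 eng mog cd5q1 cd5q3 pd3 0 true false false .dn 1 3 3 (qsf 536870912 536870912 0 1230186008 3) ndB5q1 ndB5q3 pcB3 Cut.none Ext.none)

def k0_mm_133 : ∃ t, chk3 f_mm_133 t 1 1 1 = true :=
  ⟨(l 4), by decide +kernel⟩

theorem c_mm_133 : CertB 536870912 536870912 0 1230186008 1020054732 13421774 3 eng mog cd5q1 cd5q3 pd3 true false false .dn 1 3 3
    ndB5q1 ndB5q3 pcB3 Cut.none Ext.none :=
  certB0 (fam := true) (s1 := false) (s2 := false) (a := 1) (b := 3) (c := 3) (cn := .dn) (n1 := ndB5q1) (n2 := ndB5q3) (pc := pcB3) (cut := Cut.none) (xt := Ext.none) (P1 := 536870912) (W1 := 536870912) (P2 := 0) (W2 := 1230186008) (P3 := 1020054732) (W3 := 13421774) (N0 := 3) (En := eng) (mo := mog) (C1 := cd5q1) (C2 := cd5q3) (C3 := pd3)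
    rfl k0_mm_133

noncomputable def f_mm_202 : ℕ → ℕ → ℕ → ℕ → Bool := onCell 1073741824 536870912 0 536870912 1020054732 13421774
    (rowB 3 eng mog cd5q2 cd5q0 pd2 0 true false false .pp 2 0 2 (qsf 1073741824 536870912 0 536870912 2) ndB5q2 ndB5q0 pcB2 Cut.none Ext.none)

def k0_mm_202 : ∃ t, chk3 f_mm_202 t 1 1 1 = true :=
  ⟨(l 4), by decide +kernel⟩

theorem c_mm_202 : CertB 1073741824 536870912 0 536870912 1020054732 13421774 3 eng mog cd5q2 cd5q0 pd2 true false false .pp 2 0 2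
    ndB5q2 ndB5q0 pcB2 Cut.none Ext.none :=
  certB0 (fam := true) (s1 := false) (s2 := false) (a := 2) (b := 0) (c := 2) (cn := .pp) (n1 := ndB5q2) (n2 := ndB5q0) (pc := pcB2) (cut := Cut.none) (xt := Ext.none) (P1 := 1073741824) (W1 := 536870912) (P2 := 0) (W2 := 536870912) (P3 := 1020054732) (W3 := 13421774) (N0 := 3) (En := eng) (mo := mog) (C1 := cd5q2) (C2 := cd5q0) (C3 := pd2)
    rfl k0_mm_202

noncomputable def f_mm_203 : ℕ → ℕ → ℕ → ℕ → Bool := onCell 1073741824 536870912 0 536870912 1020054732 13421774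
    (rowB 3 eng mog cd5q2 cd5q0 pd3 0 true false false .up 2 0 3 (qsf 1073741824 536870912 0 536870912 3) ndB5q2 ndB5q0 pcB3 Cut.none Ext.none)

def k0_mm_203 : ∃ t, chk3 f_mm_203 t 1 1 1 = true :=
  ⟨(l 4), by decide +kernel⟩

theorem c_mm_203 : CertB 1073741824 536870912 0 536870912 1020054732 13421774 3 eng mog cd5q2 cd5q0 pd3 true false false .up 2 0 3
    ndB5q2 ndB5q0 pcB3 Cut.none Ext.none :=
  certB0 (fam := true) (s1 := false) (s2 := false) (a := 2) (b := 0) (c := 3) (cn := .up) (n1 := ndB5q2) (n2 := ndB5q0) (pc := pcB3) (cut := Cut.none) (xt := Ext.none) (P1 := 1073741824) (W1 := 536870912) (P2 := 0) (W2 := 536870912) (P3 := 1020054732) (W3 := 13421774) (N0 := 3) (En := eng) (mo := mog) (C1 := cd5q2) (C2 := cd5q0) (C3 := pd3)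
    rfl k0_mm_203

noncomputable def f_mm_213 : ℕ → ℕ → ℕ → ℕ → Bool := onCell 1073741824 536870912 536870912 536870912 1020054732 13421774
    (rowB 3 eng mog cd5q2 cd5q1 pd3 0 true false false .pnn 2 1 3 (qsf 1073741824 536870912 536870912 536870912 3) ndB5q2 ndB5q1 pcB3 Cut.none Ext.none)

def k0_mm_213 : ∃ t, chk3 f_mm_213 t 1 1 1 = true :=
  ⟨(l 4), by decide +kernel⟩

theorem c_mm_213 : CertB 1073741824 536870912 536870912 536870912 1020054732 13421774 3 eng mog cd5q2 cd5q1 pd3 true false false .pnn 2 1 3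
    ndB5q2 ndB5q1 pcB3 Cut.none Ext.none :=
  certB0 (fam := true) (s1 := false) (s2 := false) (a := 2) (b := 1) (c := 3) (cn := .pnn) (n1 := ndB5q2) (n2 := ndB5q1) (pc := pcB3) (cut := Cut.none) (xt := Ext.none) (P1 := 1073741824) (W1 := 536870912) (P2 := 536870912) (W2 := 536870912) (P3 := 1020054732) (W3 := 13421774) (N0 := 3) (En := eng) (mo := mog) (C1 := cd5q2) (C2 := cd5q1) (C3 := pd3)
    rfl k0_mm_213

noncomputable def f_mm_303 : ℕ → ℕ → ℕ → ℕ → Bool := onCell 0 1230186008 0 536870912 1020054732 13421774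
    (rowB 3 eng mog cd5q3 cd5q0 pd3 0 true false false .npn 3 0 3 (qsf 0 1230186008 0 536870912 3) ndB5q3 ndB5q0 pcB3 Cut.none Ext.none)

def k0_mm_303 : ∃ t, chk3 f_mm_303 t 1 1 1 = true :=
  ⟨(l 4), by decide +kernel⟩

theorem c_mm_303 : CertB 0 1230186008 0 536870912 1020054732 13421774 3 eng mog cd5q3 cd5q0 pd3 true false false .npn 3 0 3
    ndB5q3 ndB5q0 pcB3 Cut.none Ext.none :=
  certB0 (fam := true) (s1 := false) (s2 := false) (a := 3) (b := 0) (c := 3) (cn := .npn) (n1 := ndB5q3) (n2 := ndB5q0) (pc := pcB3) (cut := Cut.none) (xt := Ext.none) (P1 := 0) (W1 := 1230186008) (P2 := 0) (W2 := 536870912) (P3 := 1020054732) (W3 := 13421774) (N0 := 3) (En := eng) (mo := mog) (C1 := cd5q3) (C2 := cd5q0) (C3 := pd3)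
    rfl k0_mm_303

noncomputable def f_mm_313 : ℕ → ℕ → ℕ → ℕ → Bool := onCell 0 1230186008 536870912 536870912 1020054732 13421774
    (rowB 3 eng mog cd5q3 cd5q1 pd3 0 true false false .dn 3 1 3 (qsf 0 1230186008 536870912 536870912 3) ndB5q3 ndB5q1 pcB3 Cut.none Ext.none)

def k0_mm_313 : ∃ t, chk3 f_mm_313 t 1 1 1 = true :=
  ⟨(l 4), by decide +kernel⟩

theorem c_mm_313 : CertB 0 1230186008 536870912 536870912 1020054732 13421774 3 eng mog cd5q3 cd5q1 pd3 true false false .dn 3 1 3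
    ndB5q3 ndB5q1 pcB3 Cut.none Ext.none :=
  certB0 (fam := true) (s1 := false) (s2 := false) (a := 3) (b := 1) (c := 3) (cn := .dn) (n1 := ndB5q3) (n2 := ndB5q1) (pc := pcB3) (cut := Cut.none) (xt := Ext.none) (P1 := 0) (W1 := 1230186008) (P2 := 536870912) (W2 := 536870912) (P3 := 1020054732) (W3 := 13421774) (N0 := 3) (En := eng) (mo := mog) (C1 := cd5q3) (C2 := cd5q1) (C3 := pd3)
    rfl k0_mm_313

end Pool.Agent.Strip051.G.I9500_9625.Tab.C.BA55

namespace Pool.Agent.Strip051.G.I9500_9625.Tab.C.BB00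

open Pool.Agent.Strip051.PB Pool.Agent.Strip051.PB.T
open Pool.Agent.Strip051.G.I9500_9625.Tab

noncomputable def cut_pp_001 : Cut := Cut.of [[⟨3, 0, 0, 1449551462⟩], [⟨4, 0, 0, 2845415833⟩]]

noncomputable def f_pp_001 : ℕ → ℕ → ℕ → ℕ → Bool := onCell 0 536870912 536870912 536870912 1020054732 13421774
    (rowB 3 eng mog cd0q0 cd0q1 pd0 0 false true true .up 0 0 1 (qsf 0 536870912 536870912 536870912 0) ndB0q0 ndB0q1 pcB0 cut_pp_001 Ext.none)

def k0_pp_001 : ∃ t, chk3 f_pp_001 t 1 1 1 = true :=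
  ⟨(l 6), by decide +kernel⟩

theorem c_pp_001 : CertB 0 536870912 536870912 536870912 1020054732 13421774 3 eng mog cd0q0 cd0q1 pd0 false true true .up 0 0 1
    ndB0q0 ndB0q1 pcB0 cut_pp_001 Ext.none :=
  certB0 (fam := false) (s1 := true) (s2 := true) (a := 0) (b := 0) (c := 1) (cn := .up) (n1 := ndB0q0) (n2 := ndB0q1) (pc := pcB0) (cut := cut_pp_001) (xt := Ext.none) (P1 := 0) (W1 := 536870912) (P2 := 536870912) (W2 := 536870912) (P3 := 1020054732) (W3 := 13421774) (N0 := 3) (En := eng) (mo := mog) (C1 := cd0q0) (C2 := cd0q1) (C3 := pd0)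
    rfl k0_pp_001

noncomputable def cut_pp_011 : Cut := Cut.of [[⟨3, 0, 0, 1449551462⟩], [⟨4, 0, 0, 2845415833⟩], [⟨0, 0, 0, 38347922⟩, ⟨1, 1, 0, 38347922⟩, ⟨2, 1, 0, 38347922⟩]]

noncomputable def f_pp_011 : ℕ → ℕ → ℕ → ℕ → Bool := onCell 0 536870912 536870912 536870912 1020054732 13421774
    (rowB 3 eng mog cd0q0 cd0q1 pd1 0 false true true .pnn 0 1 1 (qsf 0 536870912 536870912 536870912 1) ndB0q0 ndB0q1 pcB1 cut_pp_011 Ext.none)

def k0_pp_011 : ∃ t, chk3 f_pp_011 t 1 1 1 = true :=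
  ⟨(l 6), by decide +kernel⟩

theorem c_pp_011 : CertB 0 536870912 536870912 536870912 1020054732 13421774 3 eng mog cd0q0 cd0q1 pd1 false true true .pnn 0 1 1
    ndB0q0 ndB0q1 pcB1 cut_pp_011 Ext.none :=
  certB0 (fam := false) (s1 := true) (s2 := true) (a := 0) (b := 1) (c := 1) (cn := .pnn) (n1 := ndB0q0) (n2 := ndB0q1) (pc := pcB1) (cut := cut_pp_011) (xt := Ext.none) (P1 := 0) (W1 := 536870912) (P2 := 536870912) (W2 := 536870912) (P3 := 1020054732) (W3 := 13421774) (N0 := 3) (En := eng) (mo := mog) (C1 := cd0q0) (C2 := cd0q1) (C3 := pd1)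
    rfl k0_pp_011

noncomputable def cut_pp_012 : Cut := Cut.of [[⟨3, 0, 0, 1449551462⟩], [⟨4, 0, 0, 2845415833⟩], [⟨0, 0, 0, 16777216⟩, ⟨1, 1, 0, 16777216⟩, ⟨2, 1, 0, 16777216⟩]]

noncomputable def f_pp_012 : ℕ → ℕ → ℕ → ℕ → Bool := onCell 536870912 536870912 0 536870912 1020054732 13421774
    (rowB 3 eng mog cd0q0 cd0q2 pd1 2 false true true .pnp 0 1 2 (qsf 0 536870912 0 536870912 1) ndB0q0 ndB0q2 pcB1 cut_pp_012 Ext.none)

def k0_pp_012 : ∃ t, chk3 f_pp_012 t 1 1 1 = true :=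
  ⟨(a (l 6) (b (b (a (a (b (b (a (a (l 6) (c (l 16641640) (l 16537576))) (c (a (l 16625456) (l 16595776)) (a (l 16567352) (l 16560432)))) (l 6)) (l 6)) (a (b (c (a (l 16557664) (l 16560432)) (b (l 16560360) (l 16472400))) (l 6)) (b (a (c (l 16550496) (l 16556440)) (l 16454280)) (b (a (l 16483688) (l 16500696)) (l 6))))) (a (a (b (a (l 16446336) (l 16445872)) (a (c (l 16514288) (l 16488744)) (a (l 16454776) (l 16461128)))) (a (b (l 16478864) (a (l 16469536) (l 16459040))) (b (l 16483184) (c (l 16483064) (l 16537672))))) (a (a (b (l 16418536) (b (l 16555056) (l 16487688))) (b (a (l 16465608) (l 16439024)) (b (l 16509008) (l 16518056)))) (b (a (l 16270184) (c (l 16346888) (l 16339696))) (a (b (l 16435144) (l 16488248)) (a (l 16396880) (l 16365488))))))) (a (l 6) (b (b (a (a (l 6) (a (c (l 16478952) (l 16484312)) (c (l 16489272) (l 16508944)))) (a (a (c (l 16510128) (l 16499088)) (l 16435320)) (a (l 16478888) (b (l 16471456) (l 16478280))))) (a (l 6) (a (a (c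 (l 16427640) (l 16452080)) (a (l 16462232) (l 16459360))) (a (c (l 16469992) (l 16491992)) (a (l 16507792) (l 16526576)))))) (a (l 6) (a (l 6) (a (b (b (a (l 16463792) (l 16485512)) (l 6)) (l 6)) (b (a (l 16434192) (l 16460856)) (a (l 6) (a (l 6) (l 16415120)))))))))) (l 6))), by decide +kernel⟩

theorem c_pp_012 : CertB 0 536870912 0 536870912 1020054732 13421774 3 eng mog cd0q0 cd0q2 pd1 false true true .pnp 0 1 2
    ndB0q0 ndB0q2 pcB1 cut_pp_012 Ext.none :=
  certB2 (fam := false) (s1 := true) (s2 := true) (a := 0) (b := 1) (c := 2) (cn := .pnp) (n1 := ndB0q0) (n2 := ndB0q2) (pc := pcB1) (cut := cut_pp_012) (xt := Ext.none) (P1 := 0) (W1 := 536870912) (P2 := 0) (W2 := 536870912) (P3 := 1020054732) (W3 := 13421774) (N0 := 3) (En := eng) (mo := mog) (C1 := cd0q0) (C2 := cd0q2) (C3 := pd1)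
    rfl (fun _ => rfl) k0_pp_012

noncomputable def cut_pp_022 : Cut := Cut.of [[⟨3, 0, 0, 1449551462⟩], [⟨4, 0, 0, 2845415833⟩], [⟨0, 0, 0, 33554432⟩, ⟨1, 1, 0, 33554432⟩, ⟨2, 1, 0, 33554432⟩]]

noncomputable def f_pp_022 : ℕ → ℕ → ℕ → ℕ → Bool := onCell 0 536870912 0 536870912 1020054732 13421774
    (rowB 3 eng mog cd0q0 cd0q2 pd2 0 false true true .pp 0 2 2 (qsf 0 536870912 0 536870912 2) ndB0q0 ndB0q2 pcB2 cut_pp_022 Ext.none)

def k0_pp_022 : ∃ t, chk3 f_pp_022 t 1 1 1 = true :=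
  ⟨(a (b (a (a (b (a (b (l 16119184) (l 16115512)) (b (a (l 16157664) (l 16179936)) (a (l 16268752) (l 16283168)))) (a (b (c (l 16275168) (b (l 16359824) (l 16431088))) (b (l 16397680) (a (l 16506592) (l 16526512)))) (b (a (b (l 16360448) (l 16403256)) (l 16315456)) (a (a (l 16415680) (l 16392992)) (b (l 16487120) (l 16523144)))))) (b (a (b (l 16220168) (l 16248136)) (b (l 16278736) (l 16289144))) (b (a (b (l 16386912) (l 16397672)) (a (l 16388840) (l 16401168))) (a (b (a (l 16468952) (l 16493208)) (b (l 16487008) (l 16489968))) (a (b (l 16497288) (l 16497320)) (b (l 16502128) (b (l 16529848) (l 6)))))))) (a (b (a (b (l 16342440) (l 16281640)) (b (l 1) (l 1))) (a (a (b (l 16392840) (b (l 16486096) (l 604549645751))) (b (l 718902923383) (l 1))) (l 1))) (l 1))) (a (b (a (a (b (b (a (l 16458232) (l 16484840)) (a (l 16398680) (b (l 16475536) (l 16472856)))) (b (a (a (l 16405312) (l 16423144)) (l 6)) (l 6))) (b (a (b (l 16499328) (a (l 16483720) (l 16527280)))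 (b (l 16515816) (c (l 16569672) (l 16559520)))) (l 6))) (b (a (b (a (l 16516752) (b (l 16572768) (l 6))) (l 6)) (l 6)) (l 6))) (l 6)) (l 6))) (l 1)), by decide +kernel⟩

theorem c_pp_022 : CertB 0 536870912 0 536870912 1020054732 13421774 3 eng mog cd0q0 cd0q2 pd2 false true true .pp 0 2 2
    ndB0q0 ndB0q2 pcB2 cut_pp_022 Ext.none :=
  certB0 (fam := false) (s1 := true) (s2 := true) (a := 0) (b := 2) (c := 2) (cn := .pp) (n1 := ndB0q0) (n2 := ndB0q2) (pc := pcB2) (cut := cut_pp_022) (xt := Ext.none) (P1 := 0) (W1 := 536870912) (P2 := 0) (W2 := 536870912) (P3 := 1020054732) (W3 := 13421774) (N0 := 3) (En := eng) (mo := mog) (C1 := cd0q0) (C2 := cd0q2) (C3 := pd2)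
    rfl k0_pp_022

noncomputable def cut_pp_101 : Cut := Cut.of [[⟨3, 0, 0, 1449551462⟩], [⟨4, 0, 0, 2845415833⟩]]

noncomputable def f_pp_101 : ℕ → ℕ → ℕ → ℕ → Bool := onCell 536870912 536870912 536870912 536870912 1020054732 13421774
    (rowB 3 eng mog cd0q1 cd0q1 pd0 0 false true true .npn 1 0 1 (qsf 536870912 536870912 536870912 536870912 0) ndB0q1 ndB0q1 pcB0 cut_pp_101 Ext.none)

def k0_pp_101 : ∃ t, chk3 f_pp_101 t 1 1 1 = true :=
  ⟨(l 3), by decide +kernel⟩

theorem c_pp_101 : CertB 536870912 536870912 536870912 536870912 1020054732 13421774 3 eng mog cd0q1 cd0q1 pd0 false true true .npn 1 0 1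
    ndB0q1 ndB0q1 pcB0 cut_pp_101 Ext.none :=
  certB0 (fam := false) (s1 := true) (s2 := true) (a := 1) (b := 0) (c := 1) (cn := .npn) (n1 := ndB0q1) (n2 := ndB0q1) (pc := pcB0) (cut := cut_pp_101) (xt := Ext.none) (P1 := 536870912) (W1 := 536870912) (P2 := 536870912) (W2 := 536870912) (P3 := 1020054732) (W3 := 13421774) (N0 := 3) (En := eng) (mo := mog) (C1 := cd0q1) (C2 := cd0q1) (C3 := pd0)
    rfl k0_pp_101

noncomputable def cut_pp_102 : Cut := Cut.of [[⟨3, 0, 0, 1449551462⟩], [⟨4, 0, 0, 2845415833⟩]]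

noncomputable def f_pp_102 : ℕ → ℕ → ℕ → ℕ → Bool := onCell 536870912 536870912 0 536870912 1020054732 13421774
    (rowB 3 eng mog cd0q1 cd0q2 pd0 0 false true true .npp 1 0 2 (qsf 536870912 536870912 0 536870912 0) ndB0q1 ndB0q2 pcB0 cut_pp_102 Ext.none)

def k0_pp_102 : ∃ t, chk3 f_pp_102 t 1 1 1 = true :=
  ⟨(a (l 6) (l 3)), by decide +kernel⟩

theorem c_pp_102 : CertB 536870912 536870912 0 536870912 1020054732 13421774 3 eng mog cd0q1 cd0q2 pd0 false true true .npp 1 0 2
    ndB0q1 ndB0q2 pcB0 cut_pp_102 Ext.none :=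
  certB0 (fam := false) (s1 := true) (s2 := true) (a := 1) (b := 0) (c := 2) (cn := .npp) (n1 := ndB0q1) (n2 := ndB0q2) (pc := pcB0) (cut := cut_pp_102) (xt := Ext.none) (P1 := 536870912) (W1 := 536870912) (P2 := 0) (W2 := 536870912) (P3 := 1020054732) (W3 := 13421774) (N0 := 3) (En := eng) (mo := mog) (C1 := cd0q1) (C2 := cd0q2) (C3 := pd0)
    rfl k0_pp_102

noncomputable def cut_pp_112 : Cut := Cut.of [[⟨3, 0, 0, 1449551462⟩], [⟨4, 0, 0, 2845415833⟩]]

noncomputable def f_pp_112 : ℕ → ℕ → ℕ → ℕ → Bool := onCell 536870912 536870912 0 536870912 1020054732 13421774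
    (rowB 3 eng mog cd0q1 cd0q2 pd1 0 false true true .dn 1 1 2 (qsf 536870912 536870912 0 536870912 1) ndB0q1 ndB0q2 pcB1 cut_pp_112 Ext.none)

def k0_pp_112 : ∃ t, chk3 f_pp_112 t 1 1 1 = true :=
  ⟨(a (l 6) (l 1)), by decide +kernel⟩

theorem c_pp_112 : CertB 536870912 536870912 0 536870912 1020054732 13421774 3 eng mog cd0q1 cd0q2 pd1 false true true .dn 1 1 2
    ndB0q1 ndB0q2 pcB1 cut_pp_112 Ext.none :=
  certB0 (fam := false) (s1 := true) (s2 := true) (a := 1) (b := 1) (c := 2) (cn := .dn) (n1 := ndB0q1) (n2 := ndB0q2) (pc := pcB1) (cut := cut_pp_112) (xt := Ext.none) (P1 := 536870912) (W1 := 536870912) (P2 := 0) (W2 := 536870912) (P3 := 1020054732) (W3 := 13421774) (N0 := 3) (En := eng) (mo := mog) (C1 := cd0q1) (C2 := cd0q2) (C3 := pd1)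
    rfl k0_pp_112

noncomputable def cut_pp_202 : Cut := Cut.of [[⟨3, 0, 0, 1449551462⟩], [⟨4, 0, 0, 2845415833⟩]]

noncomputable def f_pp_202 : ℕ → ℕ → ℕ → ℕ → Bool := onCell 0 536870912 0 536870912 1020054732 13421774
    (rowB 3 eng mog cd0q2 cd0q2 pd0 0 false true true .pp 2 0 2 (qsf 0 536870912 0 536870912 0) ndB0q2 ndB0q2 pcB0 cut_pp_202 Ext.none)

def k0_pp_202 : ∃ t, chk3 f_pp_202 t 1 1 1 = true :=
  ⟨(l 3), by decide +kernel⟩

theorem c_pp_202 : CertB 0 536870912 0 536870912 1020054732 13421774 3 eng mog cd0q2 cd0q2 pd0 false true true .pp 2 0 2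
    ndB0q2 ndB0q2 pcB0 cut_pp_202 Ext.none :=
  certB0 (fam := false) (s1 := true) (s2 := true) (a := 2) (b := 0) (c := 2) (cn := .pp) (n1 := ndB0q2) (n2 := ndB0q2) (pc := pcB0) (cut := cut_pp_202) (xt := Ext.none) (P1 := 0) (W1 := 536870912) (P2 := 0) (W2 := 536870912) (P3 := 1020054732) (W3 := 13421774) (N0 := 3) (En := eng) (mo := mog) (C1 := cd0q2) (C2 := cd0q2) (C3 := pd0)
    rfl k0_pp_202

noncomputable def cut_pm_001 : Cut := Cut.of [[⟨3, 0, 0, 1449551462⟩], [⟨4, 0, 0, 2845415833⟩]]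

noncomputable def f_pm_001 : ℕ → ℕ → ℕ → ℕ → Bool := onCell 0 536870912 536870912 536870912 1020054732 13421774
    (rowB 3 eng mog cd0q0 cd0q1 pd0 0 false true false .up 0 0 1 (qsf 0 536870912 536870912 536870912 0) ndB0q0 ndB0q1 pcB0 cut_pm_001 Ext.none)

def k0_pm_001 : ∃ t, chk3 f_pm_001 t 2 1 1 = true :=
  ⟨(b (l 4) (b (l 14) (l 2))), by decide +kernel⟩

def k1_pm_001 : ∃ t, chk3 f_pm_001 t 3 2 1 = true :=
  ⟨(l 14), by decide +kernel⟩

def k2_pm_001 : ∃ t, chk3 f_pm_001 t 6 6 1 = true :=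
  ⟨(l 14), by decide +kernel⟩

def k3_pm_001 : ∃ t, chk3 f_pm_001 t 7 12 1 = true :=
  ⟨(l 14), by decide +kernel⟩

def k4_pm_001 : ∃ t, chk3 f_pm_001 t 14 13 1 = true :=
  ⟨(b (l 14) (a (l 14) (b (l 14) (b (l 14) (a (l 14) (b (a (l 14) (c (l 16485144) (l 16468112))) (c (a (l 16492232) (l 16484824)) (a (l 16476768) (l 16470848))))))))), by decide +kernel⟩

def k5_pm_001 : ∃ t, chk3 f_pm_001 t 15 13 1 = true :=
  ⟨(b (a (l 14) (b (a (l 14) (a (l 16462400) (l 16473192))) (a (b (a (l 14) (l 16493920)) (a (l 16472144) (a (l 16462296) (b (l 16480808) (l 16431320))))) (b (l 16455952) (a (b (l 16471528) (b (l 16423544) (l 16459280))) (b (c (l 16470696) (l 16447072)) (l 16446400))))))) (b (a (a (b (l 14) (b (l 14) (a (l 14) (c (l 16491592) (l 16469328))))) (b (a (b (l 14) (b (l 14) (a (l 14) (c (l 16512544) (l 16488272))))) (b (c (l 16509064) (l 16485096)) (b (a (l 16454544) (l 16446144)) (a (l 16469992) (l 16480288))))) (a (b (a (b (l 14) (l 16475760)) (l 16447656))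 (c (l 16488648) (l 16467816))) (c (l 16454240) (b (l 16462304) (l 16446760)))))) (a (b (b (a (b (a (l 16488896) (l 16460656)) (a (l 16463912) (l 16475920))) (a (l 16417872) (l 16460976))) (a (l 16427144) (l 16429128))) (c (a (l 16454128) (l 16434480)) (a (l 16434976) (l 16416784)))) (b (a (c (l 16450536) (l 16429736)) (l 16382160)) (c (l 16386784) (a (l 16400024) (l 16384672)))))) (a (a (a (b (b (c (l 16498208) (l 16477072)) (c (l 16499656) (l 16460240))) (c (l 16426712) (b (l 16463672) (l 16445424)))) (b (c (l 16442192) (b (l 16474120) (l 16457264))) (c (l 16422240) (b (l 16439728) (l 16421496))))) (b (c (b (l 16416504) (l 16417880)) (a (b (l 16451624) (l 16434784)) (l 16380312))) (c (a (l 16419272) (l 16396864)) (a (b (l 16417264) (l 16399072)) (l 16387296))))) (a (b (c (a (l 16416648) (l 16397120)) (a (l 16402688) (l 16384584))) (c (a (l 16375992) (l 16356656)) (a (l 16367840) (l 16349856)))) (b (c (l 16370656) (a (l 16367936) (l 16352712))) (c (l 16330520)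 (l 16336144))))))), by decide +kernel⟩

def k6_pm_001 : ∃ t, chk3 f_pm_001 t 6 28 1 = true :=
  ⟨(l 14), by decide +kernel⟩

def k7_pm_001 : ∃ t, chk3 f_pm_001 t 14 28 1 = true :=
  ⟨(a (b (a (l 14) (a (l 14) (b (l 14) (b (l 14) (l 16462992))))) (a (b (l 14) (l 2)) (b (a (b (l 14) (l 16473848)) (c (l 16431744) (l 16431552))) (c (c (l 16369520) (l 16373272)) (b (l 16412384) (l 16408496)))))) (b (b (a (a (l 14) (b (l 14) (c (l 16497848) (l 16487464)))) (c (a (b (l 16491040) (l 16467880)) (l 16409160)) (a (b (l 16478784) (l 16459048)) (b (l 16451864) (l 16432128))))) (b (a (c (l 16426416) (a (l 16496888) (l 16466952))) (c (l 16408352) (a (l 16438520) (l 16411624)))) (a (a (l 16435952) (l 16405176)) (a (l 16417888) (l 16390232))))) (a (a (b (c (l 16419552) (l 16400040)) (c (l 16383928) (l 16394128))) (b (c (l 16408952) (l 16370080)) (c (l 16352456) (l 16364248)))) (a (b (c (l 16379000) (l 16341704)) (c (l 16322672) (l 16335992))) (b (c (l 16350688) (l 16356864))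 (c (l 16294584) (l 16309352))))))), by decide +kernel⟩

def k8_pm_001 : ∃ t, chk3 f_pm_001 t 15 28 1 = true :=
  ⟨(a (b (a (b (a (c (l 16424160) (a (l 16422872) (l 16410552))) (c (l 16398776) (l 16413768))) (c (a (l 16375984) (l 16350752)) (a (l 16396704) (l 16351960)))) (b (c (a (l 16374968) (l 16352728)) (a (l 16370448) (l 16349616))) (c (a (l 16327136) (l 16305128)) (a (l 16329744) (l 16309072))))) (a (b (b (c (l 16324672) (l 16330984)) (c (l 16297800) (l 16308192))) (c (b (l 16269944) (l 16241104)) (b (l 16284584) (l 16260136)))) (b (c (a (l 16275664) (l 16253944)) (a (l 16286016) (l 16265544))) (c (a (l 16220416) (l 16199032)) (a (l 16239112) (l 16218880)))))) (b (a (b (c (a (l 16332064) (l 16312960)) (a (l 16330296) (l 16312480))) (c (l 16296120) (a (l 16289936) (l 16272320)))) (b (c (l 16287232) (l 16299040)) (c (l 16240656) (l 16269688)))) (a (b (c (l 16245408) (a (l 16246624) (l 16229240))) (c (l 16191040) (a (l 16200208) (l 16183096)))) (b (c (l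 16190640) (l 16206016)) (c (l 16137056) (l 16160304)))))), by decide +kernel⟩

def k9_pm_001 : ∃ t, chk3 f_pm_001 t 3 29 1 = true :=
  ⟨(a (l 2) (a (a (b (a (l 2) (a (l 2) (b (b (l 16379408) (l 2)) (l 2)))) (l 2)) (b (b (a (c (b (l 16322800) (l 16291280)) (b (l 16340816) (l 16314184))) (b (c (l 16263592) (l 16284544)) (c (l 16232360) (l 16258120)))) (a (c (b (l 16258648) (l 16224880)) (b (l 16286616) (l 16258080))) (c (b (l 16200048) (l 16166632)) (b (l 16230776) (l 16202488))))) (b (b (a (c (l 16189952) (l 16228560)) (c (l 16132088) (l 16173248))) (a (l 2) (c (l 16096392) (l 16143016)))) (a (l 2) (c (b (l 16059520) (l 16021440)) (b (l 16111784) (l 16079512))))))) (b (a (a (b (c (a (l 16208296) (l 16183912)) (b (l 16234832) (l 16208648))) (c (b (l 16148416) (l 16115400)) (b (l 16181576) (l 16153584)))) (b (c (b (l 16165688) (l 16135184)) (a (l 16188880) (l 16168920))) (c (b (l 16103656) (l 16071064)) (b (l 16138904) (l 16111232))))) (a (b (c (l 16111880)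 (b (l 16154672) (l 16129080))) (c (l 16070672) (a (l 16097480) (l 16081008)))) (b (c (l 16079736) (l 16111440)) (c (l 16018504) (l 16059256))))) (a (b (a (c (b (l 16081272) (l 16046032)) (b (l 16124648) (l 16094752))) (c (b (l 16037408) (l 16002640)) (b (l 16082640) (l 16053112)))) (a (c (b (l 16009632) (l 15972056)) (b (l 16063872) (l 16031984))) (c (b (l 15966752) (l 15929704)) (b (l 16022608) (l 15991128))))) (a (b (c (b (l 16000336) (l 15966088)) (b (l 16047088) (l 16017944))) (c (b (l 15930728) (l 15894248)) (b (l 15987856) (l 15956800)))) (b (c (b (l 15969912) (l 15936208)) (a (l 16010232) (l 15997256))) (c (b (l 15901416) (l 15865512)) (b (l 15959456) (l 15928848))))))))), by decide +kernel⟩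

def k10_pm_001 : ∃ t, chk3 f_pm_001 t 6 15 1 = true :=
  ⟨(l 2), by decide +kernel⟩

def k11_pm_001 : ∃ t, chk3 f_pm_001 t 7 30 1 = true :=
  ⟨(a (b (a (l 2) (a (l 2) (b (b (c (l 15982136) (l 16046192)) (l 2)) (l 2)))) (l 2)) (b (a (b (a (c (b (l 15933272) (l 15893248)) (b (l 15999056) (a (l 15976080) (l 15954416)))) (c (b (l 15891472) (l 15852040)) (b (l 15958624) (l 15956544)))) (b (a (c (l 15851968) (a (l 15940888) (l 15919456))) (c (l 15811360) (a (l 15899704) (l 15881608)))) (a (a (l 2) (c (l 15798696) (l 15883392))) (c (a (l 15778704) (l 15760480)) (a (l 15863880) (l 15846040)))))) (b (a (c (b (l 15856600) (l 15817768)) (b (l 15924752) (l 15891688))) (c (b (l 15828480) (l 15790288)) (b (l 15897272) (l 15864704)))) (a (c (b (l 15777728) (l 15741672)) (b (a (l 15865160) (l 15850336)) (a (l 15829840) (l 15815272)))) (c (b (l 15750896) (l 15710280)) (b (l 15852080) (a (l 15802312) (l 15790936))))))) (a (a (a (l 2) (a (l 2) (b (c (l 126800133767) (l 133242808167))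 (l 2)))) (a (b (c (b (l 15735288) (l 15690528)) (b (l 15826936) (l 15788832))) (b (c (l 15644392) (l 15749544)) (l 2))) (b (c (b (l 15717392) (l 15672976)) (b (l 15809352) (l 15771520))) (c (b (l 15627192) (l 15580016)) (b (l 15732512) (l 15692304)))))) (b (a (c (b (b (l 15683632) (l 15662024)) (a (l 15636200) (l 15622136))) (b (a (l 15793416) (l 15779120)) (a (l 15755864) (l 15741848)))) (c (b (b (l 15658016) (l 15636752)) (a (l 15609784) (l 15599112))) (b (a (l 15766440) (l 15755336)) (a (l 15729448) (l 15718640))))) (c (a (b (a (l 15590784) (l 15577088)) (a (l 15543984) (l 15530672))) (b (a (l 15565112) (l 15554824)) (a (l 15519088) (l 15509200)))) (a (b (a (l 15717144) (l 15703424)) (a (l 15698208) (l 15674304))) (b (a (l 15691320) (l 15680816)) (a (l 15662512) (l 15652328))))))))), by decide +kernel⟩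

def k12_pm_001 : ∃ t, chk3 f_pm_001 t 14 31 1 = true :=
  ⟨(l 2), by decide +kernel⟩

def k13_pm_001 : ∃ t, chk3 f_pm_001 t 30 31 1 = true :=
  ⟨(a (l 2) (a (l 2) (b (b (b (c (l 15531408) (l 125189377495)) (l 2)) (l 2)) (l 2)))), by decide +kernel⟩

def k14_pm_001 : ∃ t, chk3 f_pm_001 t 62 31 1 = true :=
  ⟨(a (b (b (c (b (l 15511496) (b (l 15458648) (l 15433432))) (b (b (l 15646504) (l 15625624)) (b (l 15604432) (l 15582912)))) (a (l 2) (b (c (l 15391696) (l 119283578903)) (l 2)))) (l 2)) (b (b (c (b (l 15498576) (b (l 15446032) (l 15421024))) (b (b (l 15633320) (l 15612600)) (b (l 15591568) (l 15570208)))) (c (b (b (l 15395640) (l 15369880)) (b (l 15343736) (l 15317208))) (b (b (l 15548528) (l 15526528)) (b (l 15514680) (a (l 2) (l 15478776)))))) (b (b (a (l 2) (b (c (l 15266744) (l 15455816)) (l 2))) (l 2)) (l 2)))), by decide +kernel⟩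

def k15_pm_001 : ∃ t, chk3 f_pm_001 t 63 31 1 = true :=
  ⟨(a (b (b (c (b (l 15484776) (a (l 15425312) (l 15420352))) (b (b (l 15621776) (l 15601216)) (b (l 15580336) (l 15559144)))) (c (b (a (l 15385336) (l 15377960)) (b (l 15323208) (l 15305424))) (b (b (l 15537624) (l 15515792)) (b (l 15501496) (a (l 15473576) (l 15468792)))))) (b (b (c (b (a (l 15261952) (l 15257592)) (a (l 15234816) (l 15230576))) (c (b (l 15411232) (l 15387096)) (l 15453712))) (a (b (c (l 15217760) (l 15403976)) (l 2)) (c (b (l 15213648) (b (l 15182336) (l 15168320))) (b (l 15404728) (c (l 15335632) (l 15416080)))))) (b (a (l 2) (b (b (b (b (c (l 15201456) (l 15362160)) (l 2)) (l 2)) (l 2)) (l 2))) (l 2)))) (b (b (c (b (l 15472672) (a (l 15415816) (l 15411712))) (b (b (l 15611832) (l 15591440)) (b (l 15570728) (l 15549696)))) (c (b (a (l 15373640) (l 15369744)) (b (l 15314888) (a (l 15280176) (l 15276560)))) (b (b (l 15528344) (l 15506680)) (c (a (l 15440104) (l 15436168)) (l 15488352)))))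 (b (c (b (b (a (l 15253672) (l 15250168)) (a (l 15226776) (l 15233880))) (b (a (l 15209968) (l 15208032)) (a (b (l 15178760) (l 15164816)) (b (l 15175608) (l 15161728))))) (b (b (a (l 15441744) (l 15437864)) (a (l 15418744) (l 15414968))) (b (a (l 15400648) (c (l 15352896) (l 15430880))) (a (c (l 15331768) (l 15412000)) (c (l 15328312) (l 15408320)))))) (b (c (b (b (b (c (b (a (l 15158808) (l 15156264)) (l 15158064)) (a (l 15237896) (l 15235544))) (l 15159336)) (l 15167288)) (l 15183256)) (b (b (b (b (a (l 15337392) (l 15344704)) (l 15350848)) (l 15350712)) (l 15358304)) (l 15384048))) (c (l 15236416) (l 15414776)))))), by decide +kernel⟩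

theorem s16_pm_001 : ∃ t, chk3 f_pm_001 t 31 31 1 = true := ex3_a k14_pm_001 k15_pm_001

theorem s17_pm_001 : ∃ t, chk3 f_pm_001 t 15 31 1 = true := ex3_a k13_pm_001 s16_pm_001

theorem s18_pm_001 : ∃ t, chk3 f_pm_001 t 7 31 1 = true := ex3_a k12_pm_001 s17_pm_001

theorem s19_pm_001 : ∃ t, chk3 f_pm_001 t 7 15 1 = true := ex3_b k11_pm_001 s18_pm_001

theorem s20_pm_001 : ∃ t, chk3 f_pm_001 t 3 15 1 = true := ex3_a k10_pm_001 s19_pm_001

theorem s21_pm_001 : ∃ t, chk3 f_pm_001 t 7 28 1 = true := ex3_a k7_pm_001 k8_pm_001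

theorem s22_pm_001 : ∃ t, chk3 f_pm_001 t 3 28 1 = true := ex3_a k6_pm_001 s21_pm_001

theorem s23_pm_001 : ∃ t, chk3 f_pm_001 t 3 14 1 = true := ex3_b s22_pm_001 k9_pm_001

theorem s24_pm_001 : ∃ t, chk3 f_pm_001 t 3 7 1 = true := ex3_b s23_pm_001 s20_pm_001

theorem s25_pm_001 : ∃ t, chk3 f_pm_001 t 7 13 1 = true := ex3_a k4_pm_001 k5_pm_001

theorem s26_pm_001 : ∃ t, chk3 f_pm_001 t 7 6 1 = true := ex3_b k3_pm_001 s25_pm_001

theorem s27_pm_001 : ∃ t, chk3 f_pm_001 t 3 6 1 = true := ex3_a k2_pm_001 s26_pm_001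

theorem s28_pm_001 : ∃ t, chk3 f_pm_001 t 3 3 1 = true := ex3_b s27_pm_001 s24_pm_001

theorem s29_pm_001 : ∃ t, chk3 f_pm_001 t 3 1 1 = true := ex3_b k1_pm_001 s28_pm_001

theorem s30_pm_001 : ∃ t, chk3 f_pm_001 t 1 1 1 = true := ex3_a k0_pm_001 s29_pm_001

theorem c_pm_001 : CertB 0 536870912 536870912 536870912 1020054732 13421774 3 eng mog cd0q0 cd0q1 pd0 false true false .up 0 0 1
    ndB0q0 ndB0q1 pcB0 cut_pm_001 Ext.none :=
  certB0 (fam := false) (s1 := true) (s2 := false) (a := 0) (b := 0) (c := 1) (cn := .up) (n1 := ndB0q0) (n2 := ndB0q1) (pc := pcB0) (cut := cut_pm_001) (xt := Ext.none) (P1 := 0) (W1 := 536870912) (P2 := 536870912) (W2 := 536870912) (P3 := 1020054732) (W3 := 13421774) (N0 := 3) (En := eng) (mo := mog) (C1 := cd0q0) (C2 := cd0q1) (C3 := pd0)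
    rfl s30_pm_001

noncomputable def cut_pm_011 : Cut := Cut.of [[⟨3, 0, 0, 1449551462⟩], [⟨4, 0, 0, 2845415833⟩], [⟨0, 0, 0, 26843545⟩, ⟨1, 1, 0, 26843545⟩, ⟨2, 1, 0, 26843545⟩]]

noncomputable def f_pm_011 : ℕ → ℕ → ℕ → ℕ → Bool := onCell 536870912 536870912 536870912 536870912 1020054732 13421774
    (rowB 3 eng mog cd0q0 cd0q1 pd1 2 false true false .pnn 0 1 1 (qsf 0 536870912 536870912 536870912 1) ndB0q0 ndB0q1 pcB1 cut_pm_011 Ext.none)

def k0_pm_011 : ∃ t, chk3 f_pm_011 t 1 2 1 = true :=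
  ⟨(l 4), by decide +kernel⟩

def k1_pm_011 : ∃ t, chk3 f_pm_011 t 2 6 1 = true :=
  ⟨(l 14), by decide +kernel⟩

def k2_pm_011 : ∃ t, chk3 f_pm_011 t 8 14 1 = true :=
  ⟨(b (a (b (l 14) (a (b (a (b (l 14) (b (l 14) (l 16368720))) (l 14)) (c (b (a (l 16420200) (l 16440720)) (l 16311680)) (c (l 16398600) (a (l 16465808) (l 16503128))))) (b (l 14) (b (l 14) (c (l 16352920) (c (l 16483832) (l 16516080))))))) (l 14)) (a (b (c (a (b (a (l 16249224) (l 16247592)) (a (l 16220096) (l 16217464))) (b (a (l 16267512) (l 16287992)) (a (l 16236392) (l 16234928)))) (c (a (b (l 16383440) (l 16346280)) (b (l 16397808) (l 16380128))) (a (b (l 16404824) (l 16397832)) (b (b (l 16470504) (l 16466648)) (l 16407944))))) (c (a (b (c (l 16169216) (l 16227512)) (c (l 16090520) (l 16157936))) (b (c (l 16206120) (l 16262136)) (c (l 16125080) (l 16190576)))) (a (b (c (l 16287112) (l 16348056)) (c (l 16226888) (l 16297400))) (b (a (l 16277696) (l 16293640)) (c (l 16257520) (l 16325960))))))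 (a (b (c (b (a (l 16309024) (l 16330608)) (a (l 16255000) (l 16275632))) (b (c (l 16413888) (l 16486400)) (c (l 16394752) (l 16419440)))) (c (b (a (l 16199496) (l 16219136)) (a (l 16100600) (l 16119192))) (b (b (l 16332752) (l 16324816)) (c (l 16289992) (l 16355984))))) (b (b (l 14) (b (c (l 16348136) (l 16425616)) (c (l 16330032) (l 16396608)))) (c (b (a (l 16239344) (l 16260104)) (a (l 16138360) (l 16179072))) (b (b (l 16367320) (l 16337744)) (b (l 16307872) (l 16298680)))))))), by decide +kernel⟩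

def k3_pm_011 : ∃ t, chk3 f_pm_011 t 9 14 1 = true :=
  ⟨(b (l 14) (a (b (a (a (b (l 14) (c (l 16340840) (l 16417760))) (l 14)) (l 14)) (c (a (b (a (l 16281424) (l 16303280)) (a (l 16199376) (l 16220240))) (b (c (l 16336448) (l 16379712)) (a (l 16241656) (l 16263600)))) (a (b (c (l 16405768) (l 16433800)) (b (l 16342584) (l 16311736))) (c (b (l 16423880) (l 16397816)) (b (l 16479448) (l 16412232)))))) (a (b (l 14) (b (l 14) (b (a (l 16251976) (l 14)) (c (l 16317624) (l 16384112))))) (l 14)))), by decide +kernel⟩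

def k4_pm_011 : ∃ t, chk3 f_pm_011 t 5 14 1 = true :=
  ⟨(l 14), by decide +kernel⟩

def k5_pm_011 : ∃ t, chk3 f_pm_011 t 8 30 1 = true :=
  ⟨(a (c (b (a (b (c (l 16010504) (l 16087184)) (c (l 15929000) (l 16015048))) (b (c (l 16042616) (l 16117744)) (c (l 15958552) (l 16043432)))) (a (b (c (l 15845752) (l 15941248)) (c (l 15760952) (l 15865944))) (b (c (l 15872648) (l 15967360)) (c (l 15785064) (l 15889704))))) (c (b (a (b (l 16165632) (l 16103120)) (b (l 16194552) (l 16130248))) (a (b (l 16039056) (l 15973584)) (b (l 16064320) (l 15996896)))) (b (a (b (l 16245896) (l 16193280)) (b (l 16273104) (l 16219072))) (a (b (l 16139240) (l 16083936)) (b (l 16163560) (l 16106704)))))) (c (b (a (b (c (l 16077352) (l 16150552)) (c (l 15990792) (l 16074112))) (b (c (l 16114664) (l 16185552)) (c (l 16025640) (l 16107032)))) (b (a (c (l 15902272) (l 15995824)) (c (l 15934560) (l 16026584))) (a (c (l 15811960) (l 15915848)) (c (l 15841576) (l 15944336))))) (c (b (a (b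 (l 16225352) (l 16159304)) (b (l 16257968) (l 16190208))) (a (b (l 16091536) (l 16022208)) (b (l 16120664) (l 16049472)))) (b (a (b (l 16301808) (l 16246408)) (b (l 16331952) (l 16275216))) (a (b (l 16189456) (l 16131088)) (b (l 16216864) (l 16157040))))))), by decide +kernel⟩

def k6_pm_011 : ∃ t, chk3 f_pm_011 t 9 30 1 = true :=
  ⟨(c (c (a (b (a (b (l 16154480) (l 16063064)) (b (l 16196744) (l 16102976))) (b (a (l 15969472) (l 16006928)) (a (l 15873856) (l 15908744)))) (b (a (b (l 16241392) (l 16145328)) (b (l 16288336) (l 16190032))) (a (b (l 16046872) (l 15946168)) (b (l 16089224) (l 15986056))))) (b (a (a (b (l 16222688) (l 16142144)) (b (l 16261896) (l 16179368))) (a (b (l 16303104) (l 16218632)) (b (l 16346240) (l 16259880)))) (a (a (b (l 16059560) (l 15975096)) (b (l 16094712) (l 16008072))) (a (b (l 16131952) (l 16043192)) (b (l 16171216) (l 16080376)))))) (a (b (a (b (a (l 16235504) (l 16252368)) (c (l 16222920) (l 16305432))) (b (b (l 16315368)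 (l 16283184)) (a (l 16204744) (l 16221624)))) (b (a (c (l 16151632) (l 16245728)) (c (l 16184376) (l 16275960))) (a (c (l 16078624) (l 16184472)) (c (l 16109584) (l 16213328))))) (b (b (a (a (l 16305120) (l 16323400)) (a (l 16342016) (l 16360952))) (a (a (l 16238864) (l 16256456)) (c (l 16331144) (l 16382872)))) (b (a (c (l 16218824) (l 16307512)) (c (l 16254896) (l 16340288))) (a (c (l 16142296) (l 16243528)) (c (l 16176680) (l 16275000))))))), by decide +kernel⟩

def k7_pm_011 : ∃ t, chk3 f_pm_011 t 8 31 1 = true :=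
  ⟨(b (c (a (a (b (c (l 15653440) (l 15788920)) (c (b (l 15607536) (l 15562408)) (l 15708720))) (b (c (a (l 15690112) (l 15701432)) (l 15810208)) (c (b (l 15626496) (l 15579816)) (l 15727424)))) (b (a (c (a (l 15713456) (l 15726176)) (l 15833936)) (c (a (l 15739584) (l 15753680)) (l 15860048))) (a (c (a (l 15618584) (l 15629824)) (l 15748624)) (c (a (l 15641776) (l 15654424)) (l 15772264))))) (c (a (b (a (l 15906448) (l 15927712)) (a (l 15836056) (l 15855192))) (b (a (l 15951032) (l 15976344)) (a (l 15876424) (l 15899696)))) (a (b (a (l 16027048) (l 16048192)) (a (l 15966888) (l 15986344))) (b (a (l 16071008) (l 16095416)) (a (l 16007504) (l 16030312)))))) (c (a (b (a (c (b (l 15517976) (l 15474376)) (l 15629288)) (c (b (l 15533792) (l 15488576)) (l 15645296))) (b (a (b (b (a (l 15517504) (l 15522632)) (l 15503408)) (a (l 15531176) (l 15535096))) (b (b (a (l 15528616) (l 15535464)) (l 15513336)) (a (l 15539712) (l 15545024)))) (a (c (l 15489824) (l 15613168))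 (c (l 15496432) (l 15622224))))) (b (a (c (b (l 15552536) (l 15505720)) (l 15663848)) (c (b (l 15574152) (l 15525768)) (l 15684896))) (b (a (b (b (a (l 15543168) (l 15551728)) (l 15526040)) (l 15491360)) (b (a (b (l 15561160) (l 15558368)) (l 15506432)) (l 15527056))) (a (c (l 15505960) (l 15633832)) (c (l 15518376) (l 15647952)))))) (c (a (b (a (l 15766576) (l 15783480)) (b (a (l 15733656) (l 15746952)) (a (l 15740496) (l 15751912)))) (b (a (l 15802528) (l 15823672)) (b (a (l 15762528) (l 15780328)) (l 15773080)))) (a (b (a (l 15907848) (l 15925520)) (b (a (l 15876096) (l 15891296)) (l 15878392))) (b (a (l 15944944) (l 15966064)) (b (a (l 15908344) (l 15927152)) (l 15909392))))))), by decide +kernel⟩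

def k8_pm_011 : ∃ t, chk3 f_pm_011 t 9 31 1 = true :=
  ⟨(b (c (c (a (b (a (b (l 15801088) (l 15751272)) (l 15808224)) (a (a (l 15667760) (l 15681776)) (b (l 15730472) (l 15677856)))) (b (a (l 15843008) (l 15880312)) (a (l 15736024) (l 15770624)))) (a (b (a (l 15888496) (l 15919192)) (a (l 15798272) (l 15826600))) (b (a (l 15952088) (l 15987104)) (a (l 15857168) (l 15889904))))) (c (a (b (a (l 16003592) (l 16032696)) (a (l 15924952) (l 15952112))) (b (a (l 16063592) (l 16096208)) (a (l 15981112) (l 16011872)))) (a (b (a (l 16121360) (l 16148768)) (a (l 16054688) (l 16080576))) (b (a (l 16177552) (l 16207656)) (a (l 16107880) (l 16136544)))))) (c (b (a (a (c (a (l 15567248) (l 15579776)) (l 15708368)) (c (a (l 15592992) (l 15606888)) (l 15734200))) (a (c (l 15628920) (l 15762336)) (c (l 15660680) (l 15792680)))) (a (b (a (b (a (l 15537488) (l 15548320)) (l 15565424)) (b (c (l 15495864) (l 15679312)) (l 15606424))) (a (c (l 15533624) (l 15664536)) (l 15575224)))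 (b (a (b (a (l 15627184) (l 15640960)) (l 15629016)) (b (l 15600072) (l 15654280))) (a (l 15638256) (l 15661840))))) (c (b (a (a (l 15846840) (l 15871960)) (a (l 15898968) (l 15927784))) (a (b (a (l 15800280) (l 15822296)) (l 15808688)) (b (a (l 15846320) (l 15872280)) (l 15852240)))) (b (a (a (l 15988808) (l 16013096)) (a (l 16038848) (l 16066000))) (a (a (b (l 15947656) (l 15937264)) (l 15901680)) (a (l 15987632) (l 16012128))))))), by decide +kernel⟩

def k9_pm_011 : ∃ t, chk3 f_pm_011 t 5 30 1 = true :=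
  ⟨(a (a (a (b (b (b (l 14) (a (l 16198824) (l 14))) (c (c (l 16237016) (l 16303016)) (l 16247200))) (c (b (c (l 16133912) (l 16212424)) (c (l 16028336) (l 16119560))) (b (l 16165392) (c (l 16212656) (l 16307656))))) (b (a (b (l 14) (b (l 14) (l 16158744))) (l 14)) (c (b (c (l 16180864) (l 16255496)) (c (l 16072936) (l 16160656))) (b (l 16223416) (l 16127784))))) (b (l 14) (b (a (c (c (l 16229984) (l 16300352)) (l 16282640)) (l 14)) (c (a (c (l 16119760) (l 16203584)) (c (l 16168736) (l 16248264))) (a (l 16185632) (l 16244616)))))) (a (a (b (l 14) (b (l 14) (c (c (l 16219776) (l 16294600)) (l 16283680)))) (l 14)) (l 14))), by decide +kernel⟩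

def k10_pm_011 : ∃ t, chk3 f_pm_011 t 10 31 1 = true :=
  ⟨(b (c (c (a (b (a (l 15920072) (l 15962192)) (a (l 15807728) (l 15847256))) (b (a (l 16006608) (l 16053224)) (a (l 15889128) (l 15933272)))) (a (b (a (l 16024160) (l 16063184)) (a (l 15924736) (l 15961584))) (b (a (l 16104088) (l 16146792)) (a (l 16000360) (l 16040992))))) (a (b (a (c (l 16130456) (l 16238984)) (c (l 16166264) (l 16271456))) (a (c (l 16044312) (l 16166472)) (c (l 16078352) (l 16197584)))) (b (a (l 16065272) (l 16122856)) (a (c (l 16113912) (l 16229808)) (l 16038920))))) (c (b (a (a (c (l 15695000) (l 15825176)) (c (l 15731800) (l 15859736))) (a (c (l 15771008) (l 15896280)) (c (l 15812544) (l 15934728)))) (a (b (b (a (l 15694840) (l 15728912)) (a (l 15682280) (l 15712856))) (a (l 15687856) (l 15716240))) (b (b (a (l 15765216) (l 15803672)) (a (l 15745936) (l 15781432))) (a (l 15746920) (l 15779816))))) (b (a (a (c (l 15958320) (l 16094464)) (c (l 15990512) (l 16124144))) (a (l 15879560)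 (l 15955080))) (a (c (b (a (l 15900104) (l 15929712)) (l 15903176)) (a (l 16038000) (l 16065160))) (b (a (l 15842440) (l 15916032)) (l 15839576)))))), by decide +kernel⟩

def k11_pm_011 : ∃ t, chk3 f_pm_011 t 11 31 1 = true :=
  ⟨(a (b (c (b (a (c (l 16101968) (l 16191208)) (c (l 16152736) (l 16237248))) (a (c (l 15979584) (l 16083384)) (c (l 16027992) (l 16127448)))) (b (a (l 16181528) (l 16241208)) (a (l 16096160) (l 16154440)))) (c (b (a (c (l 15856304) (l 15974992)) (c (l 15902224) (l 16016984))) (b (b (l 15655352) (a (l 15819296) (l 15859512))) (l 15707240))) (b (a (l 16010800) (l 16067616)) (b (b (l 16018328) (l 15894264)) (l 16006112))))) (b (a (b (l 14) (c (l 15936784) (l 16192712))) (l 14)) (c (b (a (l 15795416) (l 15801048)) (b (a (l 15768944) (l 15856488)) (l 15806352))) (b (a (l 16125424) (l 16163168)) (b (a (l 16123592) (l 16160200)) (l 16093328)))))), by decide +kernel⟩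

def k12_pm_011 : ∃ t, chk3 f_pm_011 t 3 3 1 = true :=
  ⟨(b (l 4) (a (b (l 14) (b (l 14) (a (a (b (l 14) (b (a (c (c (l 16051968) (l 16152400)) (l 16201720)) (l 14)) (c (b (a (l 15925152) (l 16016864)) (a (l 15975672) (l 16020840))) (b (a (l 16197880) (l 16278536)) (l 16122936))))) (l 14)) (l 14)))) (l 14))), by decide +kernel⟩

theorem s13_pm_011 : ∃ t, chk3 f_pm_011 t 5 31 1 = true := ex3_a k10_pm_011 k11_pm_011

theorem s14_pm_011 : ∃ t, chk3 f_pm_011 t 5 15 1 = true := ex3_b k9_pm_011 s13_pm_011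

theorem s15_pm_011 : ∃ t, chk3 f_pm_011 t 4 31 1 = true := ex3_a k7_pm_011 k8_pm_011

theorem s16_pm_011 : ∃ t, chk3 f_pm_011 t 4 30 1 = true := ex3_a k5_pm_011 k6_pm_011

theorem s17_pm_011 : ∃ t, chk3 f_pm_011 t 4 15 1 = true := ex3_b s16_pm_011 s15_pm_011

theorem s18_pm_011 : ∃ t, chk3 f_pm_011 t 2 15 1 = true := ex3_a s17_pm_011 s14_pm_011

theorem s19_pm_011 : ∃ t, chk3 f_pm_011 t 4 14 1 = true := ex3_a k2_pm_011 k3_pm_011

theorem s20_pm_011 : ∃ t, chk3 f_pm_011 t 2 14 1 = true := ex3_a s19_pm_011 k4_pm_011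

theorem s21_pm_011 : ∃ t, chk3 f_pm_011 t 2 7 1 = true := ex3_b s20_pm_011 s18_pm_011

theorem s22_pm_011 : ∃ t, chk3 f_pm_011 t 2 3 1 = true := ex3_b k1_pm_011 s21_pm_011

theorem s23_pm_011 : ∃ t, chk3 f_pm_011 t 1 3 1 = true := ex3_a s22_pm_011 k12_pm_011

theorem s24_pm_011 : ∃ t, chk3 f_pm_011 t 1 1 1 = true := ex3_b k0_pm_011 s23_pm_011

theorem c_pm_011 : CertB 0 536870912 536870912 536870912 1020054732 13421774 3 eng mog cd0q0 cd0q1 pd1 false true false .pnn 0 1 1
    ndB0q0 ndB0q1 pcB1 cut_pm_011 Ext.none :=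
  certB2 (fam := false) (s1 := true) (s2 := false) (a := 0) (b := 1) (c := 1) (cn := .pnn) (n1 := ndB0q0) (n2 := ndB0q1) (pc := pcB1) (cut := cut_pm_011) (xt := Ext.none) (P1 := 0) (W1 := 536870912) (P2 := 536870912) (W2 := 536870912) (P3 := 1020054732) (W3 := 13421774) (N0 := 3) (En := eng) (mo := mog) (C1 := cd0q0) (C2 := cd0q1) (C3 := pd1)
    rfl (fun _ => rfl) s24_pm_011

noncomputable def cut_pm_012 : Cut := Cut.of [[⟨3, 0, 0, 1449551462⟩], [⟨4, 0, 0, 2845415833⟩], [⟨0, 0, 0, 38347922⟩, ⟨1, 1, 0, 38347922⟩, ⟨2, 1, 0, 38347922⟩]]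

noncomputable def f_pm_012 : ℕ → ℕ → ℕ → ℕ → Bool := onCell 536870912 536870912 0 536870912 1020054732 13421774
    (rowB 3 eng mog cd0q0 cd0q2 pd1 2 false true false .pnp 0 1 2 (qsf 0 536870912 0 536870912 1) ndB0q0 ndB0q2 pcB1 cut_pm_012 Ext.none)

def k0_pm_012 : ∃ t, chk3 f_pm_012 t 4 2 1 = true :=
  ⟨(a (l 2) (a (l 2) (a (l 2) (b (l 2) (a (l 2) (b (l 2) (b (l 2) (c (l 16295096) (l 16557520))))))))), by decide +kernel⟩

def k1_pm_012 : ∃ t, chk3 f_pm_012 t 5 2 1 = true :=
  ⟨(b (a (b (l 6) (b (b (l 6) (a (l 6) (a (l 6) (c (l 16634352) (l 16623664))))) (a (a (l 2) (c (c (l 16544648) (l 16606520)) (c (l 16647480) (l 16602920)))) (c (a (c (l 16626136) (l 16639088)) (l 16603576)) (a (c (l 16652328) (l 16651976)) (l 16606752)))))) (b (b (a (l 6) (a (l 6) (c (l 16603600) (c (l 16638272) (l 16591504))))) (a (a (l 6) (b (l 6) (a (l 16541928) (l 16566264)))) (c (a (l 16617864) (l 16656128)) (a (l 16564968) (l 16613440))))) (a (c (a (b (l 16571200) (l 16639720))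 (b (l 16656480) (l 16607688))) (a (b (c (l 16667512) (l 16634696)) (l 16635096)) (b (l 16634776) (l 16625464)))) (c (a (b (l 16637592) (l 16581800)) (l 16585280)) (a (b (l 16622496) (l 16619976)) (l 16616768)))))) (a (c (b (b (a (a (l 706622313335) (l 107474397287)) (a (l 16626704) (l 16593240))) (a (a (l 84925699447) (l 16540480)) (a (l 16532896) (l 16510104)))) (c (a (b (a (l 16431776) (l 16424776)) (l 16185392)) (b (l 16331792) (l 16293696))) (a (b (l 16462632) (l 16348160)) (b (l 16432120) (l 16386800))))) (b (a (b (a (l 694274341223) (c (l 16641752) (l 16644720))) (a (l 16585736) (l 16620392))) (b (a (l 16638600) (l 16628280)) (a (l 16613768) (l 16610800)))) (a (b (c (l 16561008) (l 16593136)) (c (l 16511600) (l 16561520))) (b (c (l 16554000) (l 16578208)) (l 16429016))))) (a (c (b (b (a (l 16565504) (l 16543848)) (a (l 16493296) (l 16482616))) (c (b (l 16377208) (l 16301984)) (b (l 16449312) (l 16404880)))) (b (c (b (l 16603400) (l 16581856)) (l 16505024))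 (b (l 16541848) (l 16489408)))) (b (a (b (l 16448520) (l 16362664)) (b (l 16467848) (l 16391016))) (b (a (l 16280800) (l 16318496)) (c (c (l 16233624) (l 16445200)) (l 16414248))))))), by decide +kernel⟩

def k2_pm_012 : ∃ t, chk3 f_pm_012 t 2 6 1 = true :=
  ⟨(a (a (l 2) (b (a (l 2) (c (b (a (l 178340287751) (l 16050344)) (b (a (l 16127040) (l 15918696)) (a (b (l 16000744) (l 16010776)) (c (l 16093808) (l 16252352))))) (b (a (l 16364488) (l 16392616)) (a (b (l 16415032) (l 16277536)) (a (l 16255584) (l 16308704)))))) (a (a (b (l 2) (c (l 16029552) (l 16319272))) (c (b (c (l 16018952) (l 16182824)) (l 16112896)) (b (l 379130391383) (l 16394184)))) (c (b (c (l 119284309399) (a (l 16246264) (l 16328464))) (b (l 16178128) (l 16372600))) (b (c (l 16332256) (l 16456288)) (c (l 16452888) (l 16395376))))))) (a (b (c (a (b (a (l 16109120) (l 16152568)) (b (a (l 15978392) (l 16031544)) (c (l 16151840) (l 16294536)))) (b (b (l 16185160) (a (l 16142920) (l 16172000)))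 (c (a (l 16176784) (l 16268344)) (l 16208384)))) (a (a (b (l 16445016) (a (l 16320424) (l 16353432))) (b (l 16479832) (l 16316968))) (b (c (l 16371472) (l 16501656)) (a (l 16367576) (l 16501856))))) (c (a (b (a (l 16141912) (l 16203400)) (l 16218600)) (b (l 16176024) (l 16418448))) (a (b (c (l 16493952) (l 16439816)) (l 16391520)) (b (l 16418104) (l 16404856))))) (b (c (a (b (c (a (l 16202944) (l 16241424)) (a (l 16367464) (l 16421472))) (l 16142256)) (b (a (c (l 16306224) (l 16457240)) (l 16391536)) (l 16321744))) (a (b (b (l 16442784) (l 16404192)) (l 16421304)) (b (a (l 16472952) (l 16479808)) (l 16463672)))) (b (a (c (l 16348096) (l 16446040)) (c (l 16440616) (l 16435856))) (a (c (l 16461240) (l 16401568)) (c (l 16446336) (l 16381632))))))), by decide +kernel⟩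

def k3_pm_012 : ∃ t, chk3 f_pm_012 t 8 7 1 = true :=
  ⟨(a (b (l 2) (a (b (l 2) (b (a (l 2) (c (l 15610672) (l 15824504))) (c (b (l 15682520) (c (l 15548784) (l 15658696))) (c (l 15757776) (l 15908408))))) (b (b (c (l 16079160) (l 16128752)) (c (l 15882664) (l 15983208))) (b (c (b (l 15836536) (l 15761376)) (c (l 15915136) (l 15995424))) (c (c (b (l 15637216) (l 15552984)) (l 15553216)) (c (l 15808152) (l 15919584))))))) (b (b (a (l 2) (b (l 2) (l 16209248))) (c (b (l 16273416) (l 16145232)) (b (l 16246608) (l 16181128)))) (b (c (b (a (l 16072560) (l 16067928)) (a (l 15942864) (l 15942360))) (b (c (l 16115256) (l 16146640)) (c (l 16024824) (l 16081864)))) (b (c (a (b (l 15837136) (l 15764368)) (b (l 15840104) (l 15769824))) (c (a (l 15921472) (l 15929808)) (l 15905200))) (c (c (b (l 15644536) (a (l 15560024) (l 15569888))) (a (l 15687152) (l 15718672))) (c (a (l 15818720) (l 15831384)) (a (l 15932560) (l 15947280)))))))), by decide +kernel⟩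

def k4_pm_012 : ∃ t, chk3 f_pm_012 t 9 7 1 = true :=
  ⟨(b (b (a (c (c (l 16342656) (l 16373856)) (b (l 16370424) (l 16298152))) (c (l 16199576) (b (l 16361496) (l 16315480)))) (a (b (c (l 16275008) (l 16263992)) (c (l 16174296) (l 16204320))) (c (b (l 16261920) (l 16168704)) (b (l 16266080) (l 16212624))))) (b (c (a (b (l 15980848) (a (l 15944088) (l 15948032))) (b (l 16067600) (a (l 15954192) (l 15962560)))) (a (b (l 16076480) (c (l 16037280) (l 16100392))) (b (l 16154392) (c (l 16057000) (l 16125072))))) (c (c (a (b (a (l 15770144) (l 15778056)) (a (l 15578296) (l 15634056))) (b (l 15731704) (a (l 15650552) (l 15669672)))) (a (b (l 15732848) (a (l 15731608) (l 15746896))) (b (l 15883200) (a (l 15764488) (l 15784328))))) (c (a (b (l 15903960) (a (l 15846088) (l 15862776))) (b (l 15974032) (a (l 15881392) (l 15901872)))) (a (b (l 16035472) (a (l 15963688) (l 15981704))) (b (l 16067144) (l 15885680))))))), by decide +kernel⟩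

def k5_pm_012 : ∃ t, chk3 f_pm_012 t 5 7 1 = true :=
  ⟨(b (a (b (a (c (l 16287192) (l 16295408)) (c (l 16359648) (l 16341032))) (c (a (l 16045840) (l 16113656)) (a (l 16145600) (l 16224912)))) (a (b (c (l 16312448) (l 16349584)) (c (l 16146832) (l 16246512))) (b (c (l 16292600) (l 16362792)) (c (l 16103344) (l 16272984))))) (a (b (c (a (b (l 16078648) (l 15853280)) (b (l 16097800) (l 15987736))) (a (b (l 16175528) (l 16035456)) (b (l 16202448) (l 16111824)))) (c (a (b (a (l 15861792) (l 15880024)) (a (c (l 15691376) (l 15806360)) (c (l 15715600) (l 15830520)))) (b (a (l 15900464) (l 15923056)) (a (l 15652392) (l 15785920)))) (a (b (c (l 16009336) (l 16104584)) (a (l 15816336) (l 15903160))) (b (l 15910280) (c (l 15987160) (l 16106392)))))) (b (c (a (b (l 16124864) (l 16025584)) (b (l 16159608) (l 16050336))) (a (b (l 16234720) (l 16193592)) (b (l 16271904) (l 16238288)))) (c (a (b (l 15792976) (c (l 15819312) (l 15930784))) (b (l 15871312) (a (l 15926392)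 (l 15963152)))) (b (a (l 16041904) (l 16136392)) (a (c (l 16044648) (l 16160920)) (l 15974456))))))), by decide +kernel⟩

def k6_pm_012 : ∃ t, chk3 f_pm_012 t 6 2 1 = true :=
  ⟨(a (c (b (a (b (a (b (l 16664200) (l 16623504)) (l 16613496)) (a (l 16567408) (l 16556376))) (b (a (l 16548192) (l 16553184)) (l 16469184))) (b (a (c (l 16407784) (l 16543648)) (l 16414040)) (a (b (l 16413880) (l 16218152)) (a (l 16337264) (l 16335608))))) (b (a (b (a (b (l 16598896) (l 16603568)) (l 16572208)) (a (l 16616640) (l 16621056))) (b (a (l 16589888) (l 16591640)) (l 16530944))) (b (a (l 16451296) (l 16494296)) (a (b (l 16517600) (c (l 16518432) (l 16394416))) (b (l 16403688) (a (l 16444856) (l 16426616))))))) (a (c (b (b (l 16564512) (l 16531736)) (b (l 16459168) (b (a (l 16559112) (l 16524192)) (l 16462248)))) (b (b (l 16562200) (l 16573680)) (b (l 16397584) (b (a (l 16400992) (l 16371824)) (l 16361816))))) (b (b (a (l 16495200) (l 16488360)) (b (l 16383416) (l 16322520)))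 (b (a (l 16273816) (c (l 16411168) (l 16330040))) (b (c (c (l 16395216) (l 16359768)) (a (l 16344992) (l 16343720))) (c (a (l 16485592) (l 16460632)) (l 16313376))))))), by decide +kernel⟩

def k7_pm_012 : ∃ t, chk3 f_pm_012 t 7 2 1 = true :=
  ⟨(b (b (a (a (a (l 16502304) (l 16490112)) (c (l 16369784) (l 16363856))) (a (a (l 16336536) (l 16280728)) (a (l 16155968) (c (l 16227096) (l 16221320))))) (a (a (c (l 16368168) (l 16340496)) (a (l 16287672) (l 16215152))) (a (a (l 16116168) (c (l 16265912) (l 16218288))) (b (a (l 16208688) (l 16073528)) (a (a (l 16157696) (c (l 16141480) (l 16106568))) (b (a (l 16102048) (l 16063728)) (a (b (l 16076712) (l 16056928)) (a (l 16039560) (l 16030984))))))))) (a (b (a (b (c (l 16384992) (l 16358256)) (a (a (l 16281480) (l 16176272)) (c (l 16278208) (b (l 16288072) (l 16282344))))) (b (a (l 16326864) (c (l 16246064) (l 16214592))) (a (b (a (l 16301144) (l 16281120)) (l 16241608)) (c (l 16303824) (l 16233312))))) (a (c (a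 (l 16325328) (b (l 16394552) (l 16414960))) (a (l 16279192) (b (l 16310736) (l 16347480)))) (a (c (b (l 16366872) (l 16394464)) (b (l 16295928) (l 16337792))) (c (b (l 16340896) (l 16375664)) (b (l 16282328) (l 16329288)))))) (a (b (b (a (b (a (l 16239720) (l 16207904)) (a (l 16156600) (l 16200520))) (b (a (l 16115408) (c (l 16176152) (l 16128024))) (c (l 16204112) (l 16155216)))) (a (c (l 16272736) (l 16216200)) (c (l 16243656) (l 16200392)))) (a (c (b (l 16316784) (l 16358728)) (b (l 16270032) (l 16322008))) (b (c (l 16294736) (l 16259104)) (c (a (l 16347368) (l 16340448)) (l 16315992))))) (b (a (a (b (c (l 16165464) (l 16125688)) (l 16206576)) (b (l 16132552) (l 16196816))) (a (b (l 16120472) (l 16187600)) (b (l 16109000) (l 16178960)))) (a (b (c (l 16233016) (l 16249616)) (c (a (l 16334088) (l 16328312)) (l 16311304))) (b (a (l 16252688) (l 16246896)) (c (a (l 16323152) (l 16318640)) (l 16266072)))))))), by decide +kernel⟩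

def k8_pm_012 : ∃ t, chk3 f_pm_012 t 6 6 1 = true :=
  ⟨(a (b (a (c (b (l 16347352) (l 16428880)) (b (l 16459504) (l 16446560))) (c (b (l 16427784) (l 16457560)) (b (l 16435432) (l 16391096)))) (b (a (c (l 16458248) (l 16387608)) (c (l 16418048) (l 16406144))) (a (c (a (l 16438968) (l 16435800)) (l 16386864)) (c (a (l 16434128) (l 16433968)) (l 16375176))))) (b (a (c (b (l 16447680) (l 16386736)) (a (l 16359400) (l 16352664))) (c (a (b (l 16481536) (l 16473616)) (b (l 16463768) (l 16463384))) (a (l 16304920) (b (l 16394352) (l 16416264))))) (a (b (c (a (l 16470312) (l 16464936)) (l 16365576)) (c (a (l 16435360) (l 16438328)) (a (l 16426776) (l 16434248)))) (b (a (c (l 16461088) (l 16432104)) (c (l 16458752) (l 16435584))) (c (a (l 16421856) (b (l 16452136) (l 16445704))) (a (l 16442648) (b (l 16448392) (l 16455736)))))))), by decide +kernel⟩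

def k9_pm_012 : ∃ t, chk3 f_pm_012 t 6 7 1 = true :=
  ⟨(b (a (a (b (c (l 16258272) (l 16359440)) (c (a (l 16269520) (l 16284520)) (l 16240992))) (b (c (a (l 16373272) (l 16381968)) (a (l 16396504) (l 16408336))) (c (a (l 16280256) (l 16277688)) (a (l 16371904) (l 16390280))))) (a (a (b (c (l 16392312) (l 16421056)) (c (l 16255736) (l 16388600))) (b (c (l 16341288) (l 16434712)) (c (b (l 16373224) (l 16349008)) (l 16387768)))) (b (c (a (b (l 16424928) (l 16410424)) (b (l 16437616) (l 16406744))) (a (l 16386296) (b (l 16462088) (l 16467304)))) (c (a (b (l 16393824) (l 16353608)) (b (a (l 16410288) (l 16421688)) (a (l 16394752) (l 16408608)))) (a (b (l 16451208) (l 16450144)) (b (l 16450304) (l 16431480))))))) (a (b (a (c (b (l 16159760) (l 15977696)) (b (l 16313480) (l 16245360))) (c (b (a (l 16238016) (l 16264248)) (a (l 16190112) (l 16221848))) (b (l 16296000) (l 16214200)))) (c (a (b (a (l 16066208) (l 16100424)) (a (l 16001736) (l 15979152))) (b (a (l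 16094384) (l 16068952)) (a (l 15958192) (c (l 16082000) (l 16173392))))) (a (b (l 16172144) (l 16060120)) (b (a (l 16301072) (l 16311032)) (a (l 16257864) (l 16271672)))))) (a (b (c (b (a (l 16292056) (l 16321352)) (a (l 16192200) (c (l 16260288) (l 16319624)))) (b (a (l 16395408) (l 16420632)) (a (l 16360920) (l 16368672)))) (b (c (a (c (l 16175856) (l 16249984)) (a (l 16180024) (l 16158592))) (a (l 16321744) (l 16291144))) (l 14))) (b (a (c (b (a (l 16344320) (l 16360048)) (b (l 16312320) (l 16255792))) (b (l 16425592) (l 16356088))) (b (c (a (l 16376112) (l 16371552)) (l 16410200)) (b (a (l 16285968) (a (l 16340304) (l 14))) (l 14)))) (l 14))))), by decide +kernel⟩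

def k10_pm_012 : ∃ t, chk3 f_pm_012 t 14 6 1 = true :=
  ⟨(b (a (c (a (b (l 16447480) (l 16454664)) (b (l 16432720) (l 16447512))) (a (b (l 16387784) (l 16415112)) (b (l 16382248) (l 16414960)))) (a (b (c (l 16419584) (l 16377784)) (c (a (l 16443248) (l 16440896)) (b (l 16406728) (l 16425240)))) (b (c (l 16366208) (l 16374448)) (c (a (l 16438976) (l 16437496)) (b (l 16407312) (l 16428472)))))) (a (a (b (c (l 16437008) (l 16440008)) (c (b (l 16457584) (l 16455464)) (b (l 16457136) (l 16467416)))) (b (c (b (l 16456528) (l 16461144)) (b (l 16438232) (l 16452840))) (c (b (a (l 16462728) (l 16466624)) (a (l 16463824) (l 16469864))) (b (l 16466776) (a (l 16476760) (l 16483216)))))) (b (a (a (c (l 16439472) (l 16450104)) (b (l 16451000) (a (l 16463968) (l 16465720)))) (c (b (a (l 16458328) (l 16459792)) (a (l 16470024) (l 16473496))) (b (a (l 16447552) (l 16450728)) (a (l 16466936) (l 16471440))))) (a (c (b (a (l 16470920) (l 16475616)) (a (l 16455320) (b (l 16481416)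 (l 16484872)))) (b (a (l 16474600) (l 16480048)) (a (l 16489872) (b (l 16492680) (l 16500808))))) (c (b (a (l 16480728) (b (l 16483224) (l 16489352))) (a (b (l 16488112) (l 16492632)) (b (l 16495208) (a (l 16498720) (l 16502904))))) (b (a (l 16485696) (l 16470568)) (a (b (l 16499352) (l 16508168)) (b (l 16506208) (l 16515704))))))))), by decide +kernel⟩

def k11_pm_012 : ∃ t, chk3 f_pm_012 t 15 12 2 = true :=
  ⟨(a (a (b (a (l 16400808) (l 16396496)) (a (l 16436480) (b (l 16426488) (l 16445608)))) (b (a (l 16392680) (l 16389384)) (a (b (l 16425480) (l 16446504)) (b (l 16424968) (l 16447888))))) (a (b (a (l 16386632) (l 16384440)) (a (b (l 16424984) (l 16449776)) (b (l 16425536) (l 16452192)))) (b (a (l 16382832) (l 16381832)) (a (b (l 16426648) (l 16455136)) (b (l 16428336) (l 16458656)))))), by decide +kernel⟩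

def k12_pm_012 : ∃ t, chk3 f_pm_012 t 15 13 2 = true :=
  ⟨(a (b (a (b (a (l 16461696) (l 16464064)) (a (l 16477408) (b (l 16477472) (l 16486112)))) (b (a (l 16466896) (l 16470200)) (a (b (l 16481776) (l 16491408)) (b (l 16486552) (l 16497168))))) (a (b (a (b (l 16488656) (l 16495816)) (b (l 16494520) (l 16502704))) (a (b (a (l 16500808) (l 16504672)) (a (l 16507184) (l 16511568))) (b (a (l 16508632) (l 16512704)) (a (l 16516056) (l 16520640))))) (b (a (b (l 16500832) (l 16491680)) (a (l 16510808) (l 16493576))) (a (b (a (l 16516872) (l 16521152)) (a (l 16525336) (l 16530128))) (b (a (l 16525544) (l 16530040)) (a (l 16535032) (l 16540048))))))) (a (b (a (b (l 16474000) (a (l 16496088) (l 16499080))) (b (l 16478296) (a (l 16502184) (l 16505432)))) (b (b (a (l 16493824) (a (l 16520520) (l 16524448))) (a (a (l 16523904) (l 16528136)) (a (l 16532440) (l 16536808)))) (a (b (a (l 16534656) (l 16539344)) (a (l 16524168) (l 16529328))) (b (a (l 16544104) (l 16548888))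 (a (c (l 16553928) (l 16557032)) (c (l 16559432) (l 16561944))))))) (b (a (b (l 16483144) (a (l 16508760) (l 16512136))) (a (b (l 16487048) (l 16515632)) (b (l 16489768) (l 16519144)))) (a (b (a (b (l 16528440) (l 16541200)) (b (l 16532464) (l 16545640))) (b (a (l 16532736) (a (l 16557360) (l 16559808))) (a (a (l 16564624) (l 16567264)) (a (l 16569920) (l 16572600))))) (b (a (b (l 16536536) (l 16550144)) (b (l 16540672) (l 16554712))) (a (b (a (l 16562272) (l 16564760)) (c (l 16555416) (l 16576896))) (b (a (l 16567272) (l 16569792)) (a (l 16580736) (l 16573008))))))))), by decide +kernel⟩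

def k13_pm_012 : ∃ t, chk3 f_pm_012 t 15 6 3 = true :=
  ⟨(b (a (a (b (a (l 16372712) (l 16371896)) (b (l 16408952) (l 16411720))) (b (a (l 16371360) (l 16371128)) (a (l 16402592) (b (l 16412504) (l 16439376))))) (a (b (a (l 16371192) (l 16371560)) (b (l 16394456) (a (l 16442480) (l 16445832)))) (b (a (l 16372248) (l 16373256)) (a (b (l 16418992) (l 16449448)) (b (l 16421720) (l 16453336)))))) (a (b (a (b (a (l 16454136) (l 16457776)) (a (l 16476160) (l 16481088))) (b (a (l 16461648) (l 16465736)) (a (l 16486224) (l 16470592)))) (a (b (a (b (l 16492344) (l 16502888)) (b (l 16498248) (l 16509432))) (a (b (l 16513240) (l 16502424)) (b (l 16499472) (a (l 16529280) (l 16533248))))) (b (a (b (l 16504336) (l 16516160)) (b (l 16510608) (l 16523064))) (a (b (a (l 16525960) (l 16529680)) (a (l 16537248) (l 16541288))) (b (a (l 16533448) (l 16537248)) (a (l 16545368) (l 16549496))))))) (b (a (b (a (l 16470064) (l 16474608)) (a (l 16470888) (b (l 16495904) (l 16509912))))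 (a (b (l 16479424) (b (l 16501544) (l 16516024))) (b (l 16484296) (a (l 16513160) (l 16516040))))) (a (b (a (a (l 16521864) (l 16504352)) (a (l 16507792) (l 16511232))) (a (b (a (l 16541104) (l 16544960)) (c (l 16532672) (l 16536728))) (b (a (l 16548808) (l 16552600)) (a (l 16540824) (l 16544832))))) (a (b (b (l 16509368) (a (l 16542648) (l 16546136))) (b (a (l 16556344) (l 16560064)) (a (l 16554056) (a (l 16572752) (l 16574728))))) (b (a (b (l 16535216) (l 16549608)) (b (l 16538432) (l 16553056))) (b (a (l 16542792) (a (l 16566536) (l 16568384))) (a (a (l 16576696) (l 16578664)) (c (l 16571256) (l 16560520)))))))))), by decide +kernel⟩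

def k14_pm_012 : ∃ t, chk3 f_pm_012 t 14 14 1 = true :=
  ⟨(a (b (a (c (b (a (l 16448168) (l 16455640)) (a (l 16441704) (l 16451472))) (b (l 16434808) (a (l 16480544) (l 16489568)))) (c (b (a (l 16463504) (l 16450768)) (a (l 16440632) (c (l 16463312) (l 16480992)))) (b (a (l 16488296) (l 16496192)) (a (l 16498768) (l 16487152))))) (c (a (b (a (l 16433448) (l 16445568)) (a (l 16422824) (l 16416416))) (b (a (l 16416112) (c (l 16459144) (l 16482736))) (a (l 16410344) (c (l 16452744) (l 16482448))))) (a (b (a (l 16486840) (l 16497384)) (a (l 16491344) (l 16482456))) (b (a (l 16487112) (l 16497944)) (a (l 16494672) (l 16486032)))))) (b (a (c (b (a (c (l 16474528) (l 16486256)) (b (l 16488000) (l 16469816))) (a (c (l 16474520) (l 16491528)) (a (l 16470432) (l 16476144)))) (b (a (l 16462320) (c (l 16506640) (l 16518416))) (a (l 16475688) (b (l 16523768) (l 16509904))))) (c (c (b (a (b (l 16491976) (l 16494768)) (b (l 16501464) (l 16505440))) (a (b (l 16497200)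 (l 16499256)) (b (l 16509080) (l 16512360)))) (b (a (l 16483248) (b (l 16510736) (l 16516712))) (a (l 16492576) (b (l 16522384) (l 16527728))))) (b (a (a (l 16497832) (l 16502072)) (b (l 16504000) (l 16513032))) (a (c (l 16508192) (l 16524080)) (c (l 16518632) (l 16533472)))))) (a (c (b (a (c (l 16472880) (l 16495384)) (b (l 16475984) (l 16477256))) (a (c (l 16469088) (l 16497256)) (b (l 16478008) (l 14)))) (b (a (l 16487936) (b (l 16516712) (l 16523200))) (a (l 16498464) (l 16510984)))) (b (a (c (b (l 16468328) (l 16470760)) (b (l 16527552) (l 16534744))) (c (b (l 16482008) (l 16485576)) (c (l 16532936) (l 16552096)))) (a (c (b (l 16493656) (l 14)) (l 16523592)) (l 14)))))), by decide +kernel⟩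

def k15_pm_012 : ∃ t, chk3 f_pm_012 t 14 15 1 = true :=
  ⟨(b (b (a (a (c (a (l 16367328) (l 16384400)) (a (l 16493432) (l 16486112))) (a (c (l 16370344) (l 16499864)) (l 14))) (l 14)) (l 14)) (l 14)), by decide +kernel⟩

def k16_pm_012 : ∃ t, chk3 f_pm_012 t 30 14 1 = true :=
  ⟨(b (a (b (a (c (a (b (l 16513272) (l 16519064)) (b (l 16518184) (l 16524512))) (a (b (l 16531240) (l 16540776)) (b (l 16535456) (l 16545328)))) (c (a (b (l 16523200) (l 16530064)) (b (l 16528320) (l 16535712))) (b (a (l 16539712) (l 16544000)) (a (l 16549904) (l 16554520))))) (a (c (b (a (l 16524528) (l 16530528)) (a (l 16529664) (l 16536216))) (b (l 16510544) (l 16519712))) (c (a (b (l 16536616) (l 16542848)) (b (l 16542800) (l 16528632))) (b (c (l 16556576) (l 16568080)) (a (l 16548544) (l 16553832)))))) (b (a (c (a (b (l 16533536) (l 16541456)) (b (l 16538848) (l 16526344))) (a (b (l 16548320) (l 16559168)) (b (l 16552680) (l 16542888)))) (c (a (b (l 16523312) (l 16532264))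 (b (l 16528808) (l 16538248))) (a (b (l 16557088) (l 16547568)) (b (l 16540520) (l 16552240))))) (a (c (a (b (l 16528128) (l 16535424)) (b (l 16534480) (l 16542288))) (a (b (l 16548800) (l 16559088)) (b (l 16553768) (l 16564344)))) (c (a (b (l 16540904) (l 16549152)) (b (l 16547328) (l 16556032))) (a (b (l 16558728) (l 16569520)) (b (l 16563624) (l 16574648))))))) (b (b (a (a (c (a (l 16534448) (l 16541552)) (l 16549552)) (c (a (l 16548760) (l 16556016)) (l 16539728))) (a (a (a (l 16533024) (l 14)) (l 14)) (l 14))) (a (a (c (a (l 16538872) (l 14)) (l 16558160)) (l 14)) (l 14))) (l 14))), by decide +kernel⟩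

def k17_pm_012 : ∃ t, chk3 f_pm_012 t 31 14 1 = true :=
  ⟨(b (b (a (a (c (a (b (c (l 16552776) (l 16557952)) (c (l 16562136) (l 16568328))) (b (c (l 16558664) (l 16563224)) (c (l 16568520) (l 16573992)))) (a (b (l 16544912) (l 16556848)) (b (l 16549240) (l 16561408)))) (c (a (b (c (l 16564600) (l 16568504)) (c (l 16574960) (l 16579672))) (b (b (l 16569360) (l 16554072)) (a (l 16581880) (l 16563976)))) (a (b (l 16553520) (l 16565920)) (b (c (l 16577080) (l 16580400)) (a (l 16569280) (l 16571520)))))) (a (a (c (b (b (l 16553984) (l 16570376)) (a (l 16567064) (l 16570160))) (b (b (l 16579704) (l 16565240)) (a (l 16573744) (l 16575976)))) (c (b (a (l 16561256) (l 16564152)) (a (l 16573280) (l 16576416))) (b (c (l 16565296) (l 16567056)) (a (l 16578200) (l 16580424))))) (a (c (b (a (l 16577560) (l 16580504)) (a (l 16590064) (l 16593248))) (b (a (l 16569320) (l 16581904)) (a (l 16582648) (l 16595360)))) (b (c (a (b (l 16590696) (l 16597248)) (c (l 16576064)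 (l 16575888))) (a (l 16584000) (b (l 16593136) (l 16600064)))) (l 14))))) (b (a (a (c (a (l 16553776) (l 16560248)) (a (l 16568456) (l 16573248))) (b (a (c (l 16564216) (l 16575032)) (c (l 16570672) (l 16579696))) (l 14))) (l 14)) (l 14))) (l 14)), by decide +kernel⟩

def k18_pm_012 : ∃ t, chk3 f_pm_012 t 15 15 1 = true :=
  ⟨(l 14), by decide +kernel⟩

theorem s19_pm_012 : ∃ t, chk3 f_pm_012 t 15 14 1 = true := ex3_a k16_pm_012 k17_pm_012

theorem s20_pm_012 : ∃ t, chk3 f_pm_012 t 15 7 1 = true := ex3_b s19_pm_012 k18_pm_012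

theorem s21_pm_012 : ∃ t, chk3 f_pm_012 t 14 7 1 = true := ex3_b k14_pm_012 k15_pm_012

theorem s22_pm_012 : ∃ t, chk3 f_pm_012 t 7 7 1 = true := ex3_a s21_pm_012 s20_pm_012

theorem s23_pm_012 : ∃ t, chk3 f_pm_012 t 15 6 2 = true := ex3_b k11_pm_012 k12_pm_012

theorem s24_pm_012 : ∃ t, chk3 f_pm_012 t 15 6 1 = true := ex3_c s23_pm_012 k13_pm_012

theorem s25_pm_012 : ∃ t, chk3 f_pm_012 t 7 6 1 = true := ex3_a k10_pm_012 s24_pm_012

theorem s26_pm_012 : ∃ t, chk3 f_pm_012 t 7 3 1 = true := ex3_b s25_pm_012 s22_pm_012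

theorem s27_pm_012 : ∃ t, chk3 f_pm_012 t 6 3 1 = true := ex3_b k8_pm_012 k9_pm_012

theorem s28_pm_012 : ∃ t, chk3 f_pm_012 t 3 3 1 = true := ex3_a s27_pm_012 s26_pm_012

theorem s29_pm_012 : ∃ t, chk3 f_pm_012 t 3 2 1 = true := ex3_a k6_pm_012 k7_pm_012

theorem s30_pm_012 : ∃ t, chk3 f_pm_012 t 3 1 1 = true := ex3_b s29_pm_012 s28_pm_012

theorem s31_pm_012 : ∃ t, chk3 f_pm_012 t 4 7 1 = true := ex3_a k3_pm_012 k4_pm_012

theorem s32_pm_012 : ∃ t, chk3 f_pm_012 t 2 7 1 = true := ex3_a s31_pm_012 k5_pm_012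

theorem s33_pm_012 : ∃ t, chk3 f_pm_012 t 2 3 1 = true := ex3_b k2_pm_012 s32_pm_012

theorem s34_pm_012 : ∃ t, chk3 f_pm_012 t 2 2 1 = true := ex3_a k0_pm_012 k1_pm_012

theorem s35_pm_012 : ∃ t, chk3 f_pm_012 t 2 1 1 = true := ex3_b s34_pm_012 s33_pm_012

theorem s36_pm_012 : ∃ t, chk3 f_pm_012 t 1 1 1 = true := ex3_a s35_pm_012 s30_pm_012

theorem c_pm_012 : CertB 0 536870912 0 536870912 1020054732 13421774 3 eng mog cd0q0 cd0q2 pd1 false true false .pnp 0 1 2
    ndB0q0 ndB0q2 pcB1 cut_pm_012 Ext.none :=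
  certB2 (fam := false) (s1 := true) (s2 := false) (a := 0) (b := 1) (c := 2) (cn := .pnp) (n1 := ndB0q0) (n2 := ndB0q2) (pc := pcB1) (cut := cut_pm_012) (xt := Ext.none) (P1 := 0) (W1 := 536870912) (P2 := 0) (W2 := 536870912) (P3 := 1020054732) (W3 := 13421774) (N0 := 3) (En := eng) (mo := mog) (C1 := cd0q0) (C2 := cd0q2) (C3 := pd1)
    rfl (fun _ => rfl) s36_pm_012

noncomputable def cut_pm_022 : Cut := Cut.of [[⟨3, 0, 0, 1449551462⟩], [⟨4, 0, 0, 2845415833⟩], [⟨0, 0, 0, 38347922⟩, ⟨1, 1, 0, 38347922⟩, ⟨2, 1, 0, 38347922⟩]]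

noncomputable def f_pm_022 : ℕ → ℕ → ℕ → ℕ → Bool := onCell 1073741824 536870912 0 536870912 1020054732 13421774
    (rowB 3 eng mog cd0q0 cd0q2 pd2 2 false true false .pp 0 2 2 (qsf 0 536870912 0 536870912 2) ndB0q0 ndB0q2 pcB2 cut_pm_022 Ext.none)

def k0_pm_022 : ∃ t, chk3 f_pm_022 t 2 2 1 = true :=
  ⟨(a (a (b (a (b (l 16305024) (l 16294504)) (b (l 16223144) (l 16194800))) (a (b (l 16249024) (b (a (l 16286256) (l 16261784)) (a (l 16354616) (l 16299376)))) (b (b (l 16190808) (l 16092496)) (a (b (l 16243528) (l 16257696)) (b (l 16193080) (l 16228216)))))) (b (a (b (l 16147824) (a (l 16125152) (l 16080896))) (b (a (l 16096232) (l 16066504)) (a (l 16041896) (l 16003568)))) (a (b (b (l 16044480) (a (l 16117272) (l 16075320))) (a (b (l 16156896) (l 16214608)) (b (l 16135472) (l 16212848)))) (b (b (a (l 16018640) (l 15976288)) (a (l 16043808) (l 16020328))) (a (b (l 16123960) (l 16216752)) (b (l 16117048) (l 16222504))))))) (a (a (b (b (l 16015928) (l 15918800))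 (b (b (a (l 15933656) (b (l 15879096) (l 15900952))) (a (l 16002464) (l 15987832))) (a (b (l 16112256) (l 16230264)) (l 1)))) (b (b (l 1) (l 1)) (l 1))) (l 1))), by decide +kernel⟩

def k1_pm_022 : ∃ t, chk3 f_pm_022 t 2 3 1 = true :=
  ⟨(a (b (a (a (b (b (a (l 16341392) (l 16307096)) (a (l 16342072) (l 16328560))) (b (a (b (l 16352256) (l 16364880)) (b (l 16354656) (a (l 16373280) (l 16382768)))) (a (b (a (l 16378344) (l 16386736)) (a (c (l 16391456) (l 16404504)) (b (l 16404712) (l 16418232)))) (b (a (l 16377144) (l 16361336)) (a (b (l 16420336) (l 16437280)) (b (l 16440472) (l 14))))))) (b (b (a (l 16286072) (l 16236304)) (a (a (l 16326072) (l 16330256)) (b (l 16325064) (l 16340832)))) (b (a (b (a (l 16364904) (l 16376696)) (a (l 16396640) (l 16414856))) (b (a (l 16393312) (l 16412648)) (a (l 16436304) (l 16459720)))) (a (b (a (b (l 16423552) (l 16443880)) (b (l 16446192) (l 16468696))) (a (b (l 16444160) (l 14)) (l 14))) (b (a (b (l 16471064) (l 16495288))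 (b (l 16496848) (l 14))) (l 14)))))) (b (a (a (b (b (l 16266368) (l 16305528)) (a (l 16342784) (l 16379144))) (b (b (l 16277792) (l 16325336)) (a (l 16394072) (l 16408680)))) (b (a (l 16297792) (l 528850320615)) (a (a (l 16381424) (l 16375344)) (l 1)))) (b (a (a (b (a (l 16433176) (l 16453416)) (a (l 16462448) (l 16464928))) (b (a (l 16473152) (l 16492352)) (b (l 99354045143) (l 14)))) (a (b (a (l 16490528) (l 1)) (l 1)) (l 1))) (l 14)))) (a (b (a (b (a (b (b (a (l 16415872) (l 16391488)) (l 14)) (l 14)) (l 14)) (l 14)) (l 14)) (l 14)) (l 14))) (b (l 1) (l 1))), by decide +kernel⟩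

def k2_pm_022 : ∃ t, chk3 f_pm_022 t 3 1 1 = true :=
  ⟨(l 1), by decide +kernel⟩

theorem s3_pm_022 : ∃ t, chk3 f_pm_022 t 2 1 1 = true := ex3_b k0_pm_022 k1_pm_022

theorem s4_pm_022 : ∃ t, chk3 f_pm_022 t 1 1 1 = true := ex3_a s3_pm_022 k2_pm_022

theorem c_pm_022 : CertB 0 536870912 0 536870912 1020054732 13421774 3 eng mog cd0q0 cd0q2 pd2 false true false .pp 0 2 2
    ndB0q0 ndB0q2 pcB2 cut_pm_022 Ext.none :=
  certB2 (fam := false) (s1 := true) (s2 := false) (a := 0) (b := 2) (c := 2) (cn := .pp) (n1 := ndB0q0) (n2 := ndB0q2) (pc := pcB2) (cut := cut_pm_022) (xt := Ext.none) (P1 := 0) (W1 := 536870912) (P2 := 0) (W2 := 536870912) (P3 := 1020054732) (W3 := 13421774) (N0 := 3) (En := eng) (mo := mog) (C1 := cd0q0) (C2 := cd0q2) (C3 := pd2)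
    rfl (fun _ => rfl) s4_pm_022

end Pool.Agent.Strip051.G.I9500_9625.Tab.C.BB00

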