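import Pool.Agent.Strip051.G.I9500_9625.StH
import Pool.Agent.Strip051.G.I9500_9625.StF

/-! # Unit strips 13 (generated) -/

set_option linter.all false
set_option maxRecDepth 100000

namespace Pool.Agent.Strip051.G.I9500_9625.Tab.St.C

open Pool.Agent.Strip051.PB Pool.Agent.Strip051.PB.T Pool.Agent.StripNear Pool.Agent.Strip051.LC
open Pool.Agent.Strip051.G.I9500_9625.Tab Pool.Agent.Strip051.G.I9500_9625.Tab.St

noncomputable def cut_B05pp_123_s1 : Cut := Cut.of [[⟨4, 0, 0, 1449551462⟩], [⟨0, 1, 0, 26738688⟩, ⟨1, 1, 0, 26738688⟩, ⟨2, 2, 0, 2621440⟩]]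

noncomputable def xt_B05pp_123_s1 : Ext := strExt dd false true true .u0 .s2 .u2 .npn 1 2 3 rfl rfl gf2 vv ndB0q1 ndB5q3

noncomputable def f_B05pp_123_s1 : ℕ → ℕ → ℕ → ℕ → Bool := onCell 1073741824 536870912 0 1230186008 1020054732 13421774
    (rowF 2 false true true .npn 1 2 3 (qsf 536870912 536870912 0 1230186008 2) ndB0q1 ndB5q3 pcB2 cut_B05pp_123_s1 xt_B05pp_123_s1)

def k0_B05pp_123_s1 : ∃ t, chk3 f_B05pp_123_s1 t 16 16 1 = true :=
  ⟨(a (l 14) (b (a (l 14) (b (l 16701880) (l 16662496))) (a (b (l 14) (a (l 14) (b (l 14) (a (l 14) (b (b (l 14) (b (l 14) (l 534976655))) (l 534968463)))))) (b (a (a (b (l 16716136) (b (l 16716728) (a (b (l 16719968) (l 16641272)) (l 16633072)))) (l 16710160)) (l 16700568)) (a (b (a (b (a (l 16695120) (l 16684816)) (a (c (l 16673032) (l 16664632)) (l 16700552))) (b (a (b (l 16714864) (l 16720736)) (l 16627968)) (a (l 16648504) (l 16638544)))) (a (b (a (b (l 16743504) (a (b (l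 16762056) (l 16774216)) (b (l 16767728) (l 16750560)))) (b (l 16712232) (l 16719992))) (b (a (a (l 16775160) (b (l 16773592) (l 16774568))) (a (b (l 16770384) (l 16772912)) (l 16725184))) (a (l 534183055) (a (l 16774416) (b (l 16772152) (l 16773608)))))) (a (b (l 16705936) (a (b (l 16762000) (b (l 16767784) (l 16771304))) (l 16718832))) (c (l 16708760) (l 16698352))))) (b (a (b (l 16706016) (a (l 16671336) (l 16707160))) (l 16700760)) (a (b (l 16681200) (a (l 16701360) (l 16649664))) (b (a (l 16625208) (l 16702760)) (l 16635240))))))))), by decide +kernel⟩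

def k1_B05pp_123_s1 : ∃ t, chk3 f_B05pp_123_s1 t 16 17 1 = true :=
  ⟨(a (l 3) (b (a (a (l 3) (b (a (l 3) (l 534945823)) (l 3))) (b (a (b (a (l 533951631) (b (a (b (a (l 16773320) (b (l 16770328) (l 16772448))) (l 16774280)) (b (a (l 16746352) (l 16678320)) (a (b (l 16771800) (l 16773136)) (b (l 16767928) (l 16771088))))) (a (l 533411727) (b (a (l 16774040) (l 16772912)) (l 16764272))))) (l 533566751)) (b (a (b (c (l 16757400) (l 16718344)) (a (b (a (b (l 16770280) (l 16772096)) (b (l 16765576) (l 16769352))) (a (l 16773368) (b (l 16771552) (l 16772736)))) (b (l 16718136) (a (b (l 16768272) (l 16770960)) (l 16765160))))) (b (a (l 16655136) (l 16645512)) (a (l 16712120) (l 16660488)))) (a (b (a (l 532989583) (b (a (l 16772664) (b (l 16770272) (l 16771864))) (l 16773520))) (l 532910879)) (a (b (b (c (l 16767176) (l 16763640)) (a (l 16771688) (b (l 16768488) (l 16770808)))) (l 16773520)) (b (c (l 16762064) (l 16756568))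 (b (a (b (l 16770168) (l 16771616)) (b (l 16766104) (l 16769424))) (a (l 16772712) (l 16750456)))))))) (a (l 3) (a (l 532842271) (l 532685711))))) (l 3))), by decide +kernel⟩

def k2_B05pp_123_s1 : ∃ t, chk3 f_B05pp_123_s1 t 17 16 1 = true :=
  ⟨(a (b (b (a (l 16669504) (l 16633664)) (a (l 16674736) (l 16642632))) (b (a (l 16596512) (l 16650712)) (a (a (b (l 16691296) (a (b (l 16696728) (b (l 16615568) (l 16620120))) (l 16691496))) (l 16679800)) (l 16659080)))) (b (b (l 16576232) (l 16506736)) (a (l 16624120) (l 16592072)))), by decide +kernel⟩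

def k3_B05pp_123_s1 : ∃ t, chk3 f_B05pp_123_s1 t 34 34 1 = true :=
  ⟨(a (b (a (b (a (c (l 16647400) (l 16629840)) (b (a (l 16617160) (l 16694192)) (l 16627264))) (a (b (a (l 16665704) (l 16656120)) (a (b (l 16760664) (a (b (l 16768544) (l 16728624)) (l 16765688))) (l 16712736))) (b (l 16641912) (l 16698424)))) (b (a (b (l 16687816) (l 16651952)) (l 16682576)) (a (b (l 16623280) (l 16637704)) (b (l 16605944) (l 16703184))))) (a (b (a (b (a (b (a (l 16772032) (b (l 16769976) (l 16771336))) (l 16772856)) (b (a (b (l 16766232) (l 16769288)) (l 16763224)) (a (l 16771144) (b (l 16768480) (l 16770288))))) (l 532535439)) (b (a (c (l 16762328) (l 16757296)) (l 16666216)) (b (a (a (l 16770096) (b (l 16766352) (l 16727136))) (l 16760904)) (a (l 16729384) (a (b (l 16768328) (l 16769984)) (l 16765760)))))) (a (l 532498319) (b (a (l 16773520) (b (a (l 16771288) (l 16748816)) (l 16772144))) (l 532348559)))) (b (a (c (l 16706312)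 (l 16695920)) (c (l 16648736) (l 16632344))) (a (b (a (b (a (l 16757008) (l 16763304)) (a (l 16770536) (l 16768640))) (c (l 16762288) (l 16757592))) (a (l 16772128) (b (a (l 16769464) (l 16767264)) (l 16770720)))) (b (a (l 16666448) (l 16657128)) (a (b (l 16760936) (a (l 16768328) (l 16765504))) (l 16755016))))))) (b (a (b (l 16672168) (a (b (l 16679216) (l 16601936)) (l 16673976))) (l 16660936)) (a (b (a (l 16622344) (b (l 16598000) (l 16695304))) (a (b (l 16643328) (l 16699176)) (l 16632128))) (b (a (l 16612312) (l 16665736)) (a (l 16614352) (l 16607184)))))), by decide +kernel⟩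

def k4_B05pp_123_s1 : ∃ t, chk3 f_B05pp_123_s1 t 34 35 1 = true :=
  ⟨(a (b (a (l 532360847) (b (a (l 532199055) (b (a (b (l 16748656) (l 16771400)) (b (a (l 16766992) (l 16679320)) (a (l 16769792) (l 16726056)))) (l 532099471))) (l 532105359))) (l 3)) (b (a (b (a (b (a (c (l 16762016) (l 16757560)) (l 16666448)) (a (b (a (l 16768768) (l 16766696)) (l 16769944)) (b (l 16760760) (a (l 16725720) (l 16723096))))) (c (l 16748256) (l 16654664))) (a (b (a (l 16772080) (l 16759136)) (l 531986831)) (b (c (a (b (l 16723952) (l 16768752)) (l 16761568)) (a (b (l 16742184) (l 16724992)) (l 16757280))) (a (l 16770616) (b (a (l 16768048) (l 16724104)) (l 16769168)))))) (b (a (l 16683456) (l 16623848)) (a (a (b (l 16666256) (b (l 16760352) (a (l 16766952) (l 16722504)))) (l 16705864)) (b (l 16643888) (l 16657160))))) (a (l 531907215) (b (a (b (a (l 16747928) (b (a (l 16723760) (l 16762304)) (l 16746160))) (l 16749960)) (b (a (b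 (l 16755440) (l 16741088)) (l 16665904)) (a (b (a (l 16767328) (l 16723416)) (l 16768432)) (b (l 16717816) (a (l 16766248) (l 16721824)))))) (a (l 531853967) (b (a (l 16770552) (l 16726216)) (l 531859087))))))), by decide +kernel⟩

def k5_B05pp_123_s1 : ∃ t, chk3 f_B05pp_123_s1 t 35 17 1 = true :=
  ⟨(b (a (b (l 16640096) (a (b (l 16654768) (a (l 16583544) (l 16657912))) (l 16643992))) (l 16532976)) (a (b (a (b (a (l 16606560) (l 16589320)) (a (l 16632984) (l 16615824))) (b (a (l 16576136) (l 16650504)) (a (l 16682912) (l 16582192)))) (a (b (a (b (l 16652656) (l 16707632)) (l 16641768)) (a (b (a (b (a (l 16723072) (l 16761608)) (l 16745456)) (a (l 16739440) (l 16755896))) (a (l 16769128) (b (a (l 16766624) (l 16764664)) (l 16767752)))) (a (b (l 16665432) (b (l 16675152) (a (l 16765568) (l 16763032)))) (l 16705048)))) (b (a (l 16624720) (l 16691880)) (a (l 16692104) (l 16633200))))) (b (a (b (l 16639200) (l 16565160))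 (l 16628672)) (a (b (a (l 16675496) (l 16575176)) (l 16608368)) (b (l 16558152) (l 16554880)))))), by decide +kernel⟩

def k6_B05pp_123_s1 : ∃ t, chk3 f_B05pp_123_s1 t 8 9 1 = true :=
  ⟨(a (l 3) (b (a (a (l 3) (a (l 3) (b (l 530404639) (l 3)))) (b (a (b (a (b (a (l 531867535) (b (a (l 16767448) (b (l 16746784) (l 16744768))) (l 16769480))) (l 531843983)) (b (c (a (b (l 16756016) (a (l 16755800) (l 16741264))) (l 16662704)) (a (b (l 16750456) (a (b (l 16721680) (l 16766416)) (b (l 16756080) (l 16720200)))) (l 16653520))) (a (b (a (l 16769112) (l 16745704)) (l 16770768)) (b (a (b (l 16740632) (l 16744000)) (l 16735488)) (a (l 16767728) (b (l 16742808) (l 16766248))))))) (l 531803167)) (b (a (b (a (l 16641264) (l 16624704)) (a (b (l 16659632) (a (b (l 16756896) (l 16741352)) (l 16751432))) (l 16690856))) (c (l 16624296) (l 16600328))) (a (b (a (b (a (l 16744864) (b (l 16718536) (l 16743120))) (l 16767960)) (b (a (l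 16713168) (l 16746608)) (a (b (l 16741824) (l 16765344)) (b (l 16755528) (l 16719224))))) (a (l 531974543) (b (a (l 16767560) (l 16754432)) (l 16769112)))) (b (a (l 16698112) (l 16639792)) (a (b (a (b (l 16675176) (l 16742120)) (l 16753528)) (a (l 16766048) (b (l 16719688) (l 16764384)))) (b (l 16657264) (a (l 16736016) (l 16748592)))))))) (a (b (l 530377103) (l 3)) (b (a (l 531934495) (b (a (l 16768944) (b (a (b (l 16721312) (l 16765432)) (b (l 16757272) (l 16719968))) (a (l 16767272) (l 16765008)))) (l 532029839))) (a (l 3) (l 531958415)))))) (l 3))), by decide +kernel⟩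

def k7_B05pp_123_s1 : ∃ t, chk3 f_B05pp_123_s1 t 8 5 1 = true :=
  ⟨(l 3), by decide +kernel⟩

def k8_B05pp_123_s1 : ∃ t, chk3 f_B05pp_123_s1 t 9 8 1 = true :=
  ⟨(a (b (a (b (l 16509488) (b (l 16534312) (l 16465304))) (b (l 16432936) (l 16472520))) (a (b (a (l 16586752) (l 16555568)) (a (b (l 16607584) (a (b (l 16624856) (l 16551328)) (l 16614512))) (l 16501824))) (b (a (l 16523784) (l 16491424)) (a (l 16555952) (l 16525600))))) (b (l 16340488) (a (b (l 16358696) (l 16479792)) (b (l 16377072) (l 16418424))))), by decide +kernel⟩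

def k9_B05pp_123_s1 : ∃ t, chk3 f_B05pp_123_s1 t 18 18 1 = true :=
  ⟨(a (b (a (b (a (b (l 16568776) (l 16592664)) (b (l 16544600) (l 16561912))) (a (b (l 16615808) (a (l 16646752) (l 16630768))) (b (l 16584936) (l 16607384)))) (b (a (l 16534360) (l 16601360)) (a (a (l 16573632) (l 16558520)) (b (l 16615680) (l 16548064))))) (a (b (a (b (a (b (l 16747752) (a (b (l 16718248) (l 16763320)) (l 16671248))) (l 16653336)) (a (b (a (l 16765888) (b (l 16720120) (l 16764384))) (l 16767344)) (b (a (b (l 16755256) (l 16718520)) (l 16749944)) (a (l 16721960) (b (l 16758360) (l 16720160)))))) (b (a (l 16637448) (l 16705752)) (a (l 16701488) (l 16643752)))) (a (b (a (l 532072847) (b (l 16765776) (l 16768296))) (l 532054671)) (b (a (b (a (b (l 16718656) (l 16763240)) (l 16714048)) (a (l 16765496) (l 16741744))) (b (l 16660016) (a (b (l 16755952) (l 16760616)) (l 16750696)))) (a (l 16768024) (b (a (l 16763672) (b (l 16758704) (l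 16761960))) (l 16765480)))))) (b (a (b (l 16599064) (l 16620624)) (l 16580288)) (a (b (a (l 16649696) (l 16634296)) (a (b (l 16749584) (a (b (l 16760544) (l 16762928)) (l 16714256))) (l 16655280))) (b (l 16611752) (l 16653400)))))) (a (b (b (l 16580136) (a (l 16521752) (l 16589096))) (b (a (a (l 16642808) (l 16544512)) (l 16506464)) (a (l 16592856) (l 16564824)))) (b (l 16559440) (b (l 16502776) (a (l 16537240) (l 16515336)))))), by decide +kernel⟩

def k10_B05pp_123_s1 : ∃ t, chk3 f_B05pp_123_s1 t 18 19 1 = true :=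
  ⟨(a (b (a (b (l 532041103) (l 531948687)) (b (a (b (a (b (a (l 16764992) (l 16762384)) (l 16766312)) (b (a (l 16716304) (l 16750864)) (a (l 16763240) (l 16738808)))) (l 532195983)) (b (c (l 16741456) (l 16732472)) (a (b (a (l 16718992) (l 16672000)) (a (l 16764400) (l 16761848))) (b (l 16744304) (a (l 16715816) (l 16750472)))))) (a (l 532127631) (a (l 532214671) (b (b (a (l 16762616) (l 16717232)) (l 16764192)) (l 16767384)))))) (a (l 3) (a (l 531998239) (b (l 532154655) (l 532066591))))) (b (a (b (a (b (l 16623024) (l 16663808)) (l 16604048)) (a (b (a (b (l 16665120) (a (l 16760256) (l 16755072))) (l 16654944)) (a (a (l 16764744) (l 16741184)) (a (b (l 16756864) (l 16761824)) (l 16775080)))) (a (l 16691680) (l 16635192)))) (b (a (l 16576336) (l 16633672)) (a (l 16613904) (l 16586512)))) (a (b (b (a (a (l 16767984) (l 16764264)) (a (b (l 16772112) (l 16719112)) (l 16747424))) (a (l 532240783) (a (l 16765064) (b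 (l 16758456) (l 16762240))))) (l 532222095)) (b (a (a (b (l 16732608) (b (l 16746296) (l 16754944))) (l 16643480)) (l 16622464)) (a (b (a (b (l 16717976) (l 16763168)) (a (l 16756424) (l 16666880))) (a (l 16766008) (l 16740960))) (a (b (l 16739848) (b (l 16669080) (l 16674632))) (l 16650504))))))), by decide +kernel⟩

def k11_B05pp_123_s1 : ∃ t, chk3 f_B05pp_123_s1 t 19 9 1 = true :=
  ⟨(b (a (b (l 16431720) (a (b (l 16556520) (l 16491544)) (l 16536872))) (b (l 16456704) (l 16494056))) (a (b (a (b (a (l 16523752) (l 16587800)) (l 16547568)) (b (l 16564704) (a (l 16594864) (l 16577064)))) (a (a (b (l 16595416) (l 16629768)) (b (l 16653376) (l 16603072))) (b (l 16532728) (l 16565048)))) (a (b (l 16377776) (b (l 16491768) (l 16518072))) (b (l 16517072) (b (l 16544776) (l 16565456)))))), by decide +kernel⟩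

def k12_B05pp_123_s1 : ∃ t, chk3 f_B05pp_123_s1 t 18 5 1 = true :=
  ⟨(a (l 3) (b (b (a (b (l 532094351) (l 3)) (b (a (l 532263311) (b (b (a (l 16762816) (a (l 16675352) (l 16671576))) (l 16765080)) (l 532323983))) (l 532154399))) (l 3)) (l 3))), by decide +kernel⟩

def k13_B05pp_123_s1 : ∃ t, chk3 f_B05pp_123_s1 t 19 5 1 = true :=
  ⟨(b (a (b (b (a (a (b (b (b (l 16650824) (l 16701368)) (a (b (l 16672824) (l 16760440)) (l 16748608))) (a (l 16765472) (b (l 16769376) (l 16763984)))) (b (l 16635856) (b (a (l 16750616) (l 16736992)) (a (l 16717648) (l 16720712))))) (a (b (l 16609520) (l 16640776)) (b (l 16668136) (l 16614800)))) (a (a (l 532300943) (b (a (l 16765832) (b (l 16718200) (l 16764320))) (l 532357775))) (a (b (a (b (c (l 16754480) (l 16668344)) (l 16760568)) (b (l 16740864) (c (l 16755232) (l 16669408)))) (a (l 16765992) (b (l 16760896) (l 16764448)))) (b (l 16665528) (a (b (l 16733976) (l 16761128)) (b (l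 16743616) (l 16755424))))))) (a (b (l 532171663) (l 3)) (b (a (l 532331151) (b (a (l 16765952) (l 16720792)) (l 532383375))) (l 532195983)))) (b (a (b (b (l 16548352) (l 16577728)) (a (b (l 16618936) (l 16668200)) (c (l 16619320) (l 16596832)))) (b (b (l 16504072) (l 16616072)) (a (l 16584248) (l 16561384)))) (a (b (a (b (a (b (l 16755744) (l 16761344)) (b (l 16661440) (l 16755912))) (l 16764208)) (b (a (l 16697248) (l 16642528)) (a (b (l 16714008) (l 16761128)) (b (l 16662184) (l 16713920))))) (b (l 532411279) (l 532328847))) (b (a (b (l 16623912) (b (l 16643096) (l 16697808))) (b (l 16683848) (l 16624792))) (a (b (a (b (l 16713704) (l 16760688)) (b (l 16745592) (l 16713352))) (b (l 16719768) (l 16764544))) (b (l 16648880) (a (b (l 16670904) (l 16759856)) (b (l 16744096) (l 16670224))))))))) (a (l 3) (b (a (b (l 532205967) (l 3)) (b (a (l 532359823) (a (l 532430735) (b (l 16718592) (l 16765904)))) (l 532196239)))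 (b (a (l 3) (l 532086303)) (l 3))))), by decide +kernel⟩

def k14_B05pp_123_s1 : ∃ t, chk3 f_B05pp_123_s1 t 5 4 1 = true :=
  ⟨(b (a (a (b (l 16189096) (b (l 16273328) (a (l 16358368) (a (l 16313144) (a (l 16288768) (l 16272080)))))) (l 15764336)) (l 6)) (a (a (b (a (b (l 16399040) (l 16437080)) (a (l 16376168) (a (l 16355024) (b (l 16323400) (l 16360424))))) (a (b (l 16475000) (a (l 16526424) (l 16498712))) (a (l 16451688) (a (l 16430272) (b (l 16396992) (l 16433496)))))) (b (b (l 16260072) (l 16306312)) (b (l 16344344) (l 16381888)))) (b (a (l 16174496) (l 6)) (a (l 16109448) (l 16023792))))), by decide +kernel⟩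

def k15_B05pp_123_s1 : ∃ t, chk3 f_B05pp_123_s1 t 40 5 1 = true :=
  ⟨(b (b (a (b (b (l 16555672) (l 16491736)) (l 16445144)) (b (l 16452840) (b (l 16564784) (l 16501152)))) (a (b (a (l 16589088) (l 16566784)) (a (b (l 16624616) (l 16647360)) (l 16612328))) (b (l 16535096) (b (l 16567672) (l 16588688))))) (b (a (b (a (b (a (b (l 16669328) (l 16758688)) (b (l 16741672) (l 16668152))) (a (l 16762968) (l 16743416))) (b (l 16644808) (a (b (l 16666608) (l 16757008)) (l 16659552)))) (a (l 532351375) (b (a (l 16761832) (b (l 16671944) (l 16759944))) (l 16764856)))) (b (a (b (l 16621040) (l 16641184)) (l 16607824)) (a (b (a (b (l 16745872) (l 16670400)) (l 16738456)) (a (l 16676064) (b (l 16668312) (l 16757616)))) (a (b (l 16726384) (l 16744832)) (l 16639608))))) (a (b (l 532240415) (a (l 3) (l 532082063))) (a (b (l 532319631) (l 532144783)) (b (b (a (b (l 16672032) (l 16759744)) (b (l 16745560) (l 16669632))) (a (l 16763016)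 (l 16738288))) (l 532200079)))))), by decide +kernel⟩

def k16_B05pp_123_s1 : ∃ t, chk3 f_B05pp_123_s1 t 41 5 1 = true :=
  ⟨(b (a (b (b (l 16507624) (l 16377944)) (b (a (l 16589376) (l 16572952)) (a (l 16630600) (l 16610632)))) (b (a (l 16503704) (b (l 16469640) (l 16421272))) (b (a (l 16558064) (l 16455920)) (a (l 16506896) (a (l 16578184) (c (l 16592760) (l 16546288))))))) (a (b (b (a (l 16585216) (l 16647168)) (a (l 16621584) (l 16597944))) (a (b (a (b (l 16737488) (b (l 16749992) (l 16672208))) (l 16691360)) (b (a (l 16676784) (b (l 16668944) (l 16673824))) (a (l 16764744) (l 16761656)))) (b (a (l 16636976) (l 16624472)) (b (l 16695360) (a (b (l 16670552) (l 16674784)) (l 16661464)))))) (a (b (b (l 16625512) (l 16574032)) (b (b (l 16681104) (l 16612056)) (a (l 16640976) (l 16626896)))) (b (b (a (l 16524704) (a (b (l 16510256) (l 16608840)) (l 16596920))) (a (l 16639056) (b (l 16621128) (l 16634744)))) (b (a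 (l 16583568) (b (l 16564216) (l 16598176))) (a (a (l 16699568) (l 16606680)) (a (c (l 16652736) (b (l 16659592) (l 16673768))) (l 16675328)))))))), by decide +kernel⟩

def k17_B05pp_123_s1 : ∃ t, chk3 f_B05pp_123_s1 t 21 5 1 = true :=
  ⟨(b (b (a (l 16458064) (l 16416952)) (a (b (l 16511328) (l 16545576)) (l 16406832))) (b (a (b (l 16494576) (l 16607168)) (b (l 16543520) (l 16574392))) (a (b (l 16549800) (l 16574896)) (l 16489552)))), by decide +kernel⟩

def k18_B05pp_123_s1 : ∃ t, chk3 f_B05pp_123_s1 t 11 5 1 = true :=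
  ⟨(b (b (a (l 16358656) (l 16285320)) (a (l 16269056) (l 16368408))) (b (a (b (l 16492672) (l 16444256)) (l 16447320)) (a (b (l 16473616) (l 16584712)) (b (l 16501352) (l 16529984))))), by decide +kernel⟩

def k19_B05pp_123_s1 : ∃ t, chk3 f_B05pp_123_s1 t 3 2 1 = true :=
  ⟨(a (b (l 6) (a (b (b (l 6) (a (l 16304104) (l 6))) (b (a (l 16386880) (l 16328856)) (a (l 16378144) (l 16407280)))) (l 6))) (l 6)), by decide +kernel⟩

def k20_B05pp_123_s1 : ∃ t, chk3 f_B05pp_123_s1 t 4 6 1 = true :=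
  ⟨(l 3), by decide +kernel⟩

def k21_B05pp_123_s1 : ∃ t, chk3 f_B05pp_123_s1 t 40 6 1 = true :=
  ⟨(a (l 3) (b (b (b (l 531766303) (a (l 3) (l 531833231))) (l 3)) (l 3))), by decide +kernel⟩

def k22_B05pp_123_s1 : ∃ t, chk3 f_B05pp_123_s1 t 82 6 1 = true :=
  ⟨(b (a (b (b (l 530711695) (b (l 531919503) (l 531822991))) (b (l 531749663) (l 3))) (b (b (b (a (l 16762280) (a (l 16675184) (l 16713192))) (a (l 16765672) (l 16720616))) (b (l 532052255) (l 531955231))) (b (b (l 531856159) (l 531754783)) (b (l 531650847) (l 531544095))))) (l 3)), by decide +kernel⟩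

def k23_B05pp_123_s1 : ∃ t, chk3 f_B05pp_123_s1 t 83 12 1 = true :=
  ⟨(a (b (b (a (b (l 16745224) (a (l 16717128) (l 16712416))) (b (l 16730640) (l 16743120))) (a (b (b (l 16719664) (l 16763616)) (l 16765776)) (b (a (b (l 16756136) (l 16760280)) (l 16751192)) (a (l 16763440) (b (l 16759072) (l 16762160)))))) (b (a (b (l 16768536) (l 531718799)) (b (l 16765504) (l 16768056))) (a (b (l 531611279) (l 531500431)) (b (l 531715871) (l 530264351))))) (b (a (b (a (l 16641112) (l 16673288)) (a (b (l 16742712) (l 16753912)) (a (l 16657288) (l 16693520)))) (b (a (a (a (l 16708008) (b (l 16613568) (l 16666800))) (l 16699856)) (l 16698424)) (a (a (a (l 16688280) (a (l 16684480) (b (l 16718048) (l 16728424)))) (l 16637424)) (l 16636032)))) (a (b (b (a (b (l 16718672) (l 16763344)) (a (l 16673008) (l 16751048))) (a (l 16765760) (a (l 16742872) (a (l 16719952) (l 16759112))))) (a (l 531680399) (a (l 16757536) (a (l 16746464) (b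 (l 16744520) (l 16768136)))))) (a (b (a (a (b (l 16745648) (l 16755184)) (a (b (l 16741680) (l 16751176)) (b (l 16738336) (l 16705824)))) (l 16720064)) (b (a (a (b (l 16761952) (l 16765232)) (a (l 16760048) (l 16714696))) (l 16754568)) (a (a (l 16746696) (a (b (l 16765768) (l 16767824)) (b (l 16762864) (a (a (l 16767080) (l 16765976)) (l 16765256))))) (l 16762792)))) (b (l 16697720) (b (l 16753184) (l 16761400))))))), by decide +kernel⟩

def k24_B05pp_123_s1 : ∃ t, chk3 f_B05pp_123_s1 t 83 13 1 = true :=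
  ⟨(b (b (a (a (b (l 531385999) (l 3)) (b (l 531493663) (l 530840095))) (b (a (l 16771512) (a (a (b (a (l 16769248) (a (l 16768952) (a (a (l 16768824) (l 16768600)) (l 16768472)))) (l 16769984)) (l 16768544)) (l 16767296))) (b (l 16760800) (a (l 16773744) (l 16770504))))) (a (l 531183439) (a (l 531214671) (b (l 16750672) (b (l 16772688) (l 16773312)))))) (a (l 3) (b (a (l 530950479) (a (a (l 530961967) (b (b (l 16774288) (l 16774800)) (b (l 16775256) (l 16775648)))) (l 530973279))) (b (a (l 530737999) (a (a (l 530748207) (b (b (l 16775896) (l 16776048)) (b (l 16776176) (l 16776296)))) (l 530758495))) (a (l 3) (a (a (l 530597423) (b (b (a (l 16776608) (l 16776168)) (b (l 16776448) (l 16776488))) (a (a (l 530561071) (b (l 16776640) (l 16776688))) (l 530563423)))) (l 530606943))))))), by decide +kernel⟩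

def k25_B05pp_123_s1 : ∃ t, chk3 f_B05pp_123_s1 t 21 6 1 = true :=
  ⟨(b (a (b (b (a (l 16605976) (l 16674600)) (b (l 16614968) (l 16667376))) (b (a (a (l 16693120) (l 16727656)) (l 16716640)) (a (b (l 16744912) (l 16711192)) (l 16734448)))) (b (b (l 16652272) (l 16674632)) (b (l 16694952) (l 16629056)))) (b (a (b (a (b (a (l 16742096) (l 16756344)) (l 16762128)) (b (l 16745936) (l 16749528))) (a (b (l 16763552) (l 16743792)) (l 16751248))) (b (l 16643504) (l 16732336))) (a (a (a (a (l 530842207) (b (b (l 16767400) (l 16768176)) (b (l 16768704) (l 16768952)))) (b (l 16720792) (l 16753088))) (b (l 16752720) (l 16753152))) (l 531014767)))), by decide +kernel⟩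

def k26_B05pp_123_s1 : ∃ t, chk3 f_B05pp_123_s1 t 11 6 1 = true :=
  ⟨(b (b (a (a (l 16551024) (l 16607104)) (l 16567320)) (a (a (l 16592096) (l 16648400)) (l 16608328))) (b (a (b (l 16602608) (l 16610400)) (l 16553336)) (a (a (l 16622120) (l 16679520)) (l 16555632)))), by decide +kernel⟩

def k27_B05pp_123_s1 : ∃ t, chk3 f_B05pp_123_s1 t 3 6 1 = true :=
  ⟨(a (b (a (b (a (l 16515984) (l 16464616)) (a (l 16555568) (l 16503224))) (b (a (l 16414160) (l 6)) (l 16423016))) (a (b (a (l 16582040) (l 16525688)) (a (l 16584176) (l 16525528))) (b (l 16436280) (l 1)))) (l 6)), by decide +kernel⟩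

def k28_B05pp_123_s1 : ∃ t, chk3 f_B05pp_123_s1 t 1 7 1 = true :=
  ⟨(a (a (b (l 3) (l 3)) (a (b (a (a (l 3) (a (l 3) (b (a (l 3) (b (a (l 3) (a (a (l 530357295) (b (b (a (a (l 530482223) (b (l 16776712) (l 16776720))) (l 530484575)) (a (a (l 530401327) (b (l 16776704) (l 16776680))) (l 530403679))) (b (a (a (l 530318895) (b (l 16776624) (l 16776552))) (l 530320991)) (b (a (l 16776576) (l 16776120)) (l 16776232))))) (l 530365791))) (a (l 530004287) (a (a (l 530011183) (b (b (b (l 16776096) (l 16775944)) (b (l 16775768) (l 16775560))) (b (l 16775216) (l 16774664)))) (l 530018143))))) (b (a (l 529613119) (a (l 529626943) (b (b (a (l 16769264) (l 16772560)) (l 16762296)) (b (l 16771912) (l 16770936))))) (b (a (a (l 3) (a (l 529323135) (l 529317503))) (a (a (l 529321087) (l 529324607)) (b (l 16769832) (l 1)))) (l 1)))))) (b (a (b (a (b (b (l 16756696) (l 16756576)) (b (l 16756384) (l 16756096))) (l 16668504)) (a (b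 (b (l 16745248) (l 16744784)) (b (l 16744232) (l 16743576))) (l 16708296))) (l 530321519)) (a (b (a (b (a (l 16756784) (l 16759432)) (a (l 16744424) (l 16757376))) (l 16704488)) (a (b (l 16737968) (l 1)) (l 1))) (b (l 16638608) (l 1))))) (a (b (a (l 3) (l 1)) (l 1)) (l 1))) (b (b (a (l 530411631) (l 16539840)) (l 1)) (l 1)))) (l 1)), by decide +kernel⟩

theorem t29_B05pp_123_s1 : ∃ t, chk3 f_B05pp_123_s1 t 83 6 1 = true := ex3_b k23_B05pp_123_s1 k24_B05pp_123_s1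

theorem t30_B05pp_123_s1 : ∃ t, chk3 f_B05pp_123_s1 t 41 6 1 = true := ex3_a k22_B05pp_123_s1 t29_B05pp_123_s1

theorem t31_B05pp_123_s1 : ∃ t, chk3 f_B05pp_123_s1 t 20 6 1 = true := ex3_a k21_B05pp_123_s1 t30_B05pp_123_s1

theorem t32_B05pp_123_s1 : ∃ t, chk3 f_B05pp_123_s1 t 10 6 1 = true := ex3_a t31_B05pp_123_s1 k25_B05pp_123_s1

theorem t33_B05pp_123_s1 : ∃ t, chk3 f_B05pp_123_s1 t 5 6 1 = true := ex3_a t32_B05pp_123_s1 k26_B05pp_123_s1

theorem t34_B05pp_123_s1 : ∃ t, chk3 f_B05pp_123_s1 t 2 6 1 = true := ex3_a k20_B05pp_123_s1 t33_B05pp_123_s1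

theorem t35_B05pp_123_s1 : ∃ t, chk3 f_B05pp_123_s1 t 1 6 1 = true := ex3_a t34_B05pp_123_s1 k27_B05pp_123_s1

theorem t36_B05pp_123_s1 : ∃ t, chk3 f_B05pp_123_s1 t 1 3 1 = true := ex3_b t35_B05pp_123_s1 k28_B05pp_123_s1

theorem t37_B05pp_123_s1 : ∃ t, chk3 f_B05pp_123_s1 t 20 5 1 = true := ex3_a k15_B05pp_123_s1 k16_B05pp_123_s1

theorem t38_B05pp_123_s1 : ∃ t, chk3 f_B05pp_123_s1 t 10 5 1 = true := ex3_a t37_B05pp_123_s1 k17_B05pp_123_s1

theorem t39_B05pp_123_s1 : ∃ t, chk3 f_B05pp_123_s1 t 5 5 1 = true := ex3_a t38_B05pp_123_s1 k18_B05pp_123_s1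

theorem t40_B05pp_123_s1 : ∃ t, chk3 f_B05pp_123_s1 t 5 2 1 = true := ex3_b k14_B05pp_123_s1 t39_B05pp_123_s1

theorem t41_B05pp_123_s1 : ∃ t, chk3 f_B05pp_123_s1 t 9 5 1 = true := ex3_a k12_B05pp_123_s1 k13_B05pp_123_s1

theorem t42_B05pp_123_s1 : ∃ t, chk3 f_B05pp_123_s1 t 18 9 1 = true := ex3_b k9_B05pp_123_s1 k10_B05pp_123_s1

theorem t43_B05pp_123_s1 : ∃ t, chk3 f_B05pp_123_s1 t 9 9 1 = true := ex3_a t42_B05pp_123_s1 k11_B05pp_123_s1

theorem t44_B05pp_123_s1 : ∃ t, chk3 f_B05pp_123_s1 t 9 4 1 = true := ex3_b k8_B05pp_123_s1 t43_B05pp_123_s1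

theorem t45_B05pp_123_s1 : ∃ t, chk3 f_B05pp_123_s1 t 9 2 1 = true := ex3_b t44_B05pp_123_s1 t41_B05pp_123_s1

theorem t46_B05pp_123_s1 : ∃ t, chk3 f_B05pp_123_s1 t 34 17 1 = true := ex3_b k3_B05pp_123_s1 k4_B05pp_123_s1

theorem t47_B05pp_123_s1 : ∃ t, chk3 f_B05pp_123_s1 t 17 17 1 = true := ex3_a t46_B05pp_123_s1 k5_B05pp_123_s1

theorem t48_B05pp_123_s1 : ∃ t, chk3 f_B05pp_123_s1 t 17 8 1 = true := ex3_b k2_B05pp_123_s1 t47_B05pp_123_s1

theorem t49_B05pp_123_s1 : ∃ t, chk3 f_B05pp_123_s1 t 16 8 1 = true := ex3_b k0_B05pp_123_s1 k1_B05pp_123_s1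

theorem t50_B05pp_123_s1 : ∃ t, chk3 f_B05pp_123_s1 t 8 8 1 = true := ex3_a t49_B05pp_123_s1 t48_B05pp_123_s1

theorem t51_B05pp_123_s1 : ∃ t, chk3 f_B05pp_123_s1 t 8 4 1 = true := ex3_b t50_B05pp_123_s1 k6_B05pp_123_s1

theorem t52_B05pp_123_s1 : ∃ t, chk3 f_B05pp_123_s1 t 8 2 1 = true := ex3_b t51_B05pp_123_s1 k7_B05pp_123_s1

theorem t53_B05pp_123_s1 : ∃ t, chk3 f_B05pp_123_s1 t 4 2 1 = true := ex3_a t52_B05pp_123_s1 t45_B05pp_123_s1

theorem t54_B05pp_123_s1 : ∃ t, chk3 f_B05pp_123_s1 t 2 2 1 = true := ex3_a t53_B05pp_123_s1 t40_B05pp_123_s1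

theorem t55_B05pp_123_s1 : ∃ t, chk3 f_B05pp_123_s1 t 1 2 1 = true := ex3_a t54_B05pp_123_s1 k19_B05pp_123_s1

theorem t56_B05pp_123_s1 : ∃ t, chk3 f_B05pp_123_s1 t 1 1 1 = true := ex3_b t55_B05pp_123_s1 t36_B05pp_123_s1

theorem c_B05pp_123_s1 : CertF 536870912 536870912 0 1230186008 1020054732 13421774 false true true .npn 1 2 3
    ndB0q1 ndB5q3 pcB2 cut_B05pp_123_s1 xt_B05pp_123_s1 :=
  certF2 (fam := false) (s1 := true) (s2 := true) (a := 1) (b := 2) (c := 3) (cn := .npn) (n1 := ndB0q1) (n2 := ndB5q3) (pc := pcB2) (cut := cut_B05pp_123_s1) (xt := xt_B05pp_123_s1) (P1 := 536870912) (W1 := 536870912) (P2 := 0) (W2 := 1230186008) (P3 := 1020054732) (W3 := 13421774)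
    rfl (fun _ => rfl) t56_B05pp_123_s1

theorem s_B05pp_123_s1 {κ x : ℝ} (hκ : κ * h0 = ken x) (hx : ((1020054732 : ℕ) : ℝ) / S ≤ x)
    (hx' : x ≤ (((1020054732 : ℕ) : ℝ) + (13421774 : ℕ)) / S)
    (H : CutB (VFD κ) PP tK tL pcB (Cut.of [[⟨0, 1, 0, 26738688⟩, ⟨1, 1, 0, 26738688⟩, ⟨2, 2, 0, 2621440⟩]]) 1 2 3 0 5 (sgb true) (sgb true) x) :
    AltB (VFD κ) PP tK tL pcB [⟨3, 0, 0, 1449551462⟩] 1 2 3 0 5 (sgb true) (sgb true) x :=
  strip_altBD (m := 1449551462) true rfl hκ (SH.κ0 hκ (SH.hx1 hx).le (SH.hx2 hx').le) (SH.hx1 hx).le (SH.hx2 hx') (covB01).cov (covB53).cov hx hx' c_B05pp_123_s1 H ((okx hx hx').extB (T := tt) (sideB hx hx') hκ rfl rfl (.O 1 true) (.N 3 true) rfl)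

noncomputable def cut_B05pp_133_s1 : Cut := Cut.of [[⟨4, 0, 0, 1449551462⟩]]

noncomputable def f_B05pp_133_s1 : ℕ → ℕ → ℕ → ℕ → Bool := onCell 1610612736 536870912 0 1230186008 1020054732 13421774
    (rowF 2 false true true .dn 1 3 3 (qsf 536870912 536870912 0 1230186008 3) ndB0q1 ndB5q3 pcB3 cut_B05pp_133_s1 Ext.none)

def k0_B05pp_133_s1 : ∃ t, chk3 f_B05pp_133_s1 t 1 1 1 = true :=
  ⟨(b (l 6) (l 1)), by decide +kernel⟩

theorem c_B05pp_133_s1 : CertF 536870912 536870912 0 1230186008 1020054732 13421774 false true true .dn 1 3 3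
    ndB0q1 ndB5q3 pcB3 cut_B05pp_133_s1 Ext.none :=
  certF2 (fam := false) (s1 := true) (s2 := true) (a := 1) (b := 3) (c := 3) (cn := .dn) (n1 := ndB0q1) (n2 := ndB5q3) (pc := pcB3) (cut := cut_B05pp_133_s1) (xt := Ext.none) (P1 := 536870912) (W1 := 536870912) (P2 := 0) (W2 := 1230186008) (P3 := 1020054732) (W3 := 13421774)
    rfl (fun _ => rfl) k0_B05pp_133_s1

theorem s_B05pp_133_s1 {κ x : ℝ} (hκ : κ * h0 = ken x) (hx : ((1020054732 : ℕ) : ℝ) / S ≤ x)
    (hx' : x ≤ (((1020054732 : ℕ) : ℝ) + (13421774 : ℕ)) / S) :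
    AltB (VFD κ) PP tK tL pcB [⟨3, 0, 0, 1449551462⟩] 1 3 3 0 5 (sgb true) (sgb true) x :=
  strip_altBD (m := 1449551462) true rfl hκ (SH.κ0 hκ (SH.hx1 hx).le (SH.hx2 hx').le) (SH.hx1 hx).le (SH.hx2 hx') (covB01).cov (covB53).cov hx hx' c_B05pp_133_s1 cutB_nil (noExt_B)

noncomputable def cut_B05pp_202_s1 : Cut := Cut.of [[⟨4, 0, 0, 1449551462⟩]]

noncomputable def f_B05pp_202_s1 : ℕ → ℕ → ℕ → ℕ → Bool := onCell 0 536870912 1073741824 536870912 1020054732 13421774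
    (rowF 0 false true true .pp 2 0 2 (qsf 0 536870912 1073741824 536870912 0) ndB0q2 ndB5q2 pcB0 cut_B05pp_202_s1 Ext.none)

def k0_B05pp_202_s1 : ∃ t, chk3 f_B05pp_202_s1 t 1 1 1 = true :=
  ⟨(l 5), by decide +kernel⟩

theorem c_B05pp_202_s1 : CertF 0 536870912 1073741824 536870912 1020054732 13421774 false true true .pp 2 0 2
    ndB0q2 ndB5q2 pcB0 cut_B05pp_202_s1 Ext.none :=
  certF0 (fam := false) (s1 := true) (s2 := true) (a := 2) (b := 0) (c := 2) (cn := .pp) (n1 := ndB0q2) (n2 := ndB5q2) (pc := pcB0) (cut := cut_B05pp_202_s1) (xt := Ext.none) (P1 := 0) (W1 := 536870912) (P2 := 1073741824) (W2 := 536870912) (P3 := 1020054732) (W3 := 13421774)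
    rfl k0_B05pp_202_s1

theorem s_B05pp_202_s1 {κ x : ℝ} (hκ : κ * h0 = ken x) (hx : ((1020054732 : ℕ) : ℝ) / S ≤ x)
    (hx' : x ≤ (((1020054732 : ℕ) : ℝ) + (13421774 : ℕ)) / S) :
    AltB (VFD κ) PP tK tL pcB [⟨3, 0, 0, 1449551462⟩] 2 0 2 0 5 (sgb true) (sgb true) x :=
  strip_altBD (m := 1449551462) true rfl hκ (SH.κ0 hκ (SH.hx1 hx).le (SH.hx2 hx').le) (SH.hx1 hx).le (SH.hx2 hx') (covB02).cov (covB52).cov hx hx' c_B05pp_202_s1 cutB_nil (noExt_B)

noncomputable def cut_B05pp_203_s1 : Cut := Cut.of [[⟨4, 0, 0, 1449551462⟩]]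

noncomputable def f_B05pp_203_s1 : ℕ → ℕ → ℕ → ℕ → Bool := onCell 0 536870912 0 1230186008 1020054732 13421774
    (rowF 0 false true true .up 2 0 3 (qsf 0 536870912 0 1230186008 0) ndB0q2 ndB5q3 pcB0 cut_B05pp_203_s1 Ext.none)

def k0_B05pp_203_s1 : ∃ t, chk3 f_B05pp_203_s1 t 1 1 1 = true :=
  ⟨(b (l 2) (a (l 5) (b (l 2) (l 3)))), by decide +kernel⟩

theorem c_B05pp_203_s1 : CertF 0 536870912 0 1230186008 1020054732 13421774 false true true .up 2 0 3
    ndB0q2 ndB5q3 pcB0 cut_B05pp_203_s1 Ext.none :=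
  certF0 (fam := false) (s1 := true) (s2 := true) (a := 2) (b := 0) (c := 3) (cn := .up) (n1 := ndB0q2) (n2 := ndB5q3) (pc := pcB0) (cut := cut_B05pp_203_s1) (xt := Ext.none) (P1 := 0) (W1 := 536870912) (P2 := 0) (W2 := 1230186008) (P3 := 1020054732) (W3 := 13421774)
    rfl k0_B05pp_203_s1

theorem s_B05pp_203_s1 {κ x : ℝ} (hκ : κ * h0 = ken x) (hx : ((1020054732 : ℕ) : ℝ) / S ≤ x)
    (hx' : x ≤ (((1020054732 : ℕ) : ℝ) + (13421774 : ℕ)) / S) :
    AltB (VFD κ) PP tK tL pcB [⟨3, 0, 0, 1449551462⟩] 2 0 3 0 5 (sgb true) (sgb true) x :=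
  strip_altBD (m := 1449551462) true rfl hκ (SH.κ0 hκ (SH.hx1 hx).le (SH.hx2 hx').le) (SH.hx1 hx).le (SH.hx2 hx') (covB02).cov (covB53).cov hx hx' c_B05pp_203_s1 cutB_nil (noExt_B)

noncomputable def cut_B05pp_213_s1 : Cut := Cut.of [[⟨4, 0, 0, 1449551462⟩], [⟨0, 1, 0, 26738688⟩, ⟨1, 1, 0, 26738688⟩, ⟨2, 2, 0, 2621440⟩]]

noncomputable def f_B05pp_213_s1 : ℕ → ℕ → ℕ → ℕ → Bool := onCell 0 536870912 0 1230186008 1020054732 13421774
    (rowF 0 false true true .pnn 2 1 3 (qsf 0 536870912 0 1230186008 1) ndB0q2 ndB5q3 pcB1 cut_B05pp_213_s1 Ext.none)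

def k0_B05pp_213_s1 : ∃ t, chk3 f_B05pp_213_s1 t 1 1 1 = true :=
  ⟨(b (a (l 3) (a (l 3) (b (a (l 3) (b (a (l 3) (b (l 14) (l 3))) (l 3))) (l 3)))) (a (l 5) (b (l 3) (l 3)))), by decide +kernel⟩

theorem c_B05pp_213_s1 : CertF 0 536870912 0 1230186008 1020054732 13421774 false true true .pnn 2 1 3
    ndB0q2 ndB5q3 pcB1 cut_B05pp_213_s1 Ext.none :=
  certF0 (fam := false) (s1 := true) (s2 := true) (a := 2) (b := 1) (c := 3) (cn := .pnn) (n1 := ndB0q2) (n2 := ndB5q3) (pc := pcB1) (cut := cut_B05pp_213_s1) (xt := Ext.none) (P1 := 0) (W1 := 536870912) (P2 := 0) (W2 := 1230186008) (P3 := 1020054732) (W3 := 13421774)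
    rfl k0_B05pp_213_s1

theorem s_B05pp_213_s1 {κ x : ℝ} (hκ : κ * h0 = ken x) (hx : ((1020054732 : ℕ) : ℝ) / S ≤ x)
    (hx' : x ≤ (((1020054732 : ℕ) : ℝ) + (13421774 : ℕ)) / S)
    (H : CutB (VFD κ) PP tK tL pcB (Cut.of [[⟨0, 1, 0, 26738688⟩, ⟨1, 1, 0, 26738688⟩, ⟨2, 2, 0, 2621440⟩]]) 2 1 3 0 5 (sgb true) (sgb true) x) :
    AltB (VFD κ) PP tK tL pcB [⟨3, 0, 0, 1449551462⟩] 2 1 3 0 5 (sgb true) (sgb true) x :=
  strip_altBD (m := 1449551462) true rfl hκ (SH.κ0 hκ (SH.hx1 hx).le (SH.hx2 hx').le) (SH.hx1 hx).le (SH.hx2 hx') (covB02).cov (covB53).cov hx hx' c_B05pp_213_s1 H (noExt_B)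

noncomputable def cut_B05pm_001_s1 : Cut := Cut.of [[⟨4, 0, 0, 1449551462⟩]]

noncomputable def f_B05pm_001_s1 : ℕ → ℕ → ℕ → ℕ → Bool := onCell 0 536870912 536870912 536870912 1020054732 13421774
    (rowF 0 false true false .up 0 0 1 (qsf 0 536870912 536870912 536870912 0) ndB0q0 ndB5q1 pcB0 cut_B05pm_001_s1 Ext.none)

def k0_B05pm_001_s1 : ∃ t, chk3 f_B05pm_001_s1 t 1 1 1 = true :=
  ⟨(l 4), by decide +kernel⟩

theorem c_B05pm_001_s1 : CertF 0 536870912 536870912 536870912 1020054732 13421774 false true false .up 0 0 1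
    ndB0q0 ndB5q1 pcB0 cut_B05pm_001_s1 Ext.none :=
  certF0 (fam := false) (s1 := true) (s2 := false) (a := 0) (b := 0) (c := 1) (cn := .up) (n1 := ndB0q0) (n2 := ndB5q1) (pc := pcB0) (cut := cut_B05pm_001_s1) (xt := Ext.none) (P1 := 0) (W1 := 536870912) (P2 := 536870912) (W2 := 536870912) (P3 := 1020054732) (W3 := 13421774)
    rfl k0_B05pm_001_s1

theorem s_B05pm_001_s1 {κ x : ℝ} (hκ : κ * h0 = ken x) (hx : ((1020054732 : ℕ) : ℝ) / S ≤ x)
    (hx' : x ≤ (((1020054732 : ℕ) : ℝ) + (13421774 : ℕ)) / S) :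
    AltB (VFD κ) PP tK tL pcB [⟨3, 0, 0, 1449551462⟩] 0 0 1 0 5 (sgb true) (sgb false) x :=
  strip_altBD (m := 1449551462) true rfl hκ (SH.κ0 hκ (SH.hx1 hx).le (SH.hx2 hx').le) (SH.hx1 hx).le (SH.hx2 hx') (covB00).cov (covB51).cov hx hx' c_B05pm_001_s1 cutB_nil (noExt_B)

noncomputable def cut_B05pm_011_s1 : Cut := Cut.of [[⟨4, 0, 0, 1449551462⟩]]

noncomputable def f_B05pm_011_s1 : ℕ → ℕ → ℕ → ℕ → Bool := onCell 0 536870912 536870912 536870912 1020054732 13421774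
    (rowF 0 false true false .pnn 0 1 1 (qsf 0 536870912 536870912 536870912 1) ndB0q0 ndB5q1 pcB1 cut_B05pm_011_s1 Ext.none)

def k0_B05pm_011_s1 : ∃ t, chk3 f_B05pm_011_s1 t 1 1 1 = true :=
  ⟨(l 4), by decide +kernel⟩

theorem c_B05pm_011_s1 : CertF 0 536870912 536870912 536870912 1020054732 13421774 false true false .pnn 0 1 1
    ndB0q0 ndB5q1 pcB1 cut_B05pm_011_s1 Ext.none :=
  certF0 (fam := false) (s1 := true) (s2 := false) (a := 0) (b := 1) (c := 1) (cn := .pnn) (n1 := ndB0q0) (n2 := ndB5q1) (pc := pcB1) (cut := cut_B05pm_011_s1) (xt := Ext.none) (P1 := 0) (W1 := 536870912) (P2 := 536870912) (W2 := 536870912) (P3 := 1020054732) (W3 := 13421774)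
    rfl k0_B05pm_011_s1

theorem s_B05pm_011_s1 {κ x : ℝ} (hκ : κ * h0 = ken x) (hx : ((1020054732 : ℕ) : ℝ) / S ≤ x)
    (hx' : x ≤ (((1020054732 : ℕ) : ℝ) + (13421774 : ℕ)) / S) :
    AltB (VFD κ) PP tK tL pcB [⟨3, 0, 0, 1449551462⟩] 0 1 1 0 5 (sgb true) (sgb false) x :=
  strip_altBD (m := 1449551462) true rfl hκ (SH.κ0 hκ (SH.hx1 hx).le (SH.hx2 hx').le) (SH.hx1 hx).le (SH.hx2 hx') (covB00).cov (covB51).cov hx hx' c_B05pm_011_s1 cutB_nil (noExt_B)

noncomputable def cut_B05pm_012_s1 : Cut := Cut.of [[⟨4, 0, 0, 1449551462⟩]]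

noncomputable def f_B05pm_012_s1 : ℕ → ℕ → ℕ → ℕ → Bool := onCell 0 536870912 1073741824 536870912 1020054732 13421774
    (rowF 0 false true false .pnp 0 1 2 (qsf 0 536870912 1073741824 536870912 1) ndB0q0 ndB5q2 pcB1 cut_B05pm_012_s1 Ext.none)

def k0_B05pm_012_s1 : ∃ t, chk3 f_B05pm_012_s1 t 1 1 1 = true :=
  ⟨(l 4), by decide +kernel⟩

theorem c_B05pm_012_s1 : CertF 0 536870912 1073741824 536870912 1020054732 13421774 false true false .pnp 0 1 2
    ndB0q0 ndB5q2 pcB1 cut_B05pm_012_s1 Ext.none :=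
  certF0 (fam := false) (s1 := true) (s2 := false) (a := 0) (b := 1) (c := 2) (cn := .pnp) (n1 := ndB0q0) (n2 := ndB5q2) (pc := pcB1) (cut := cut_B05pm_012_s1) (xt := Ext.none) (P1 := 0) (W1 := 536870912) (P2 := 1073741824) (W2 := 536870912) (P3 := 1020054732) (W3 := 13421774)
    rfl k0_B05pm_012_s1

theorem s_B05pm_012_s1 {κ x : ℝ} (hκ : κ * h0 = ken x) (hx : ((1020054732 : ℕ) : ℝ) / S ≤ x)
    (hx' : x ≤ (((1020054732 : ℕ) : ℝ) + (13421774 : ℕ)) / S) :
    AltB (VFD κ) PP tK tL pcB [⟨3, 0, 0, 1449551462⟩] 0 1 2 0 5 (sgb true) (sgb false) x :=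
  strip_altBD (m := 1449551462) true rfl hκ (SH.κ0 hκ (SH.hx1 hx).le (SH.hx2 hx').le) (SH.hx1 hx).le (SH.hx2 hx') (covB00).cov (covB52).cov hx hx' c_B05pm_012_s1 cutB_nil (noExt_B)

noncomputable def cut_B05pm_022_s1 : Cut := Cut.of [[⟨4, 0, 0, 1449551462⟩]]

noncomputable def f_B05pm_022_s1 : ℕ → ℕ → ℕ → ℕ → Bool := onCell 0 536870912 1073741824 536870912 1020054732 13421774
    (rowF 0 false true false .pp 0 2 2 (qsf 0 536870912 1073741824 536870912 2) ndB0q0 ndB5q2 pcB2 cut_B05pm_022_s1 Ext.none)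

def k0_B05pm_022_s1 : ∃ t, chk3 f_B05pm_022_s1 t 1 1 1 = true :=
  ⟨(l 4), by decide +kernel⟩

theorem c_B05pm_022_s1 : CertF 0 536870912 1073741824 536870912 1020054732 13421774 false true false .pp 0 2 2
    ndB0q0 ndB5q2 pcB2 cut_B05pm_022_s1 Ext.none :=
  certF0 (fam := false) (s1 := true) (s2 := false) (a := 0) (b := 2) (c := 2) (cn := .pp) (n1 := ndB0q0) (n2 := ndB5q2) (pc := pcB2) (cut := cut_B05pm_022_s1) (xt := Ext.none) (P1 := 0) (W1 := 536870912) (P2 := 1073741824) (W2 := 536870912) (P3 := 1020054732) (W3 := 13421774)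
    rfl k0_B05pm_022_s1

theorem s_B05pm_022_s1 {κ x : ℝ} (hκ : κ * h0 = ken x) (hx : ((1020054732 : ℕ) : ℝ) / S ≤ x)
    (hx' : x ≤ (((1020054732 : ℕ) : ℝ) + (13421774 : ℕ)) / S) :
    AltB (VFD κ) PP tK tL pcB [⟨3, 0, 0, 1449551462⟩] 0 2 2 0 5 (sgb true) (sgb false) x :=
  strip_altBD (m := 1449551462) true rfl hκ (SH.κ0 hκ (SH.hx1 hx).le (SH.hx2 hx').le) (SH.hx1 hx).le (SH.hx2 hx') (covB00).cov (covB52).cov hx hx' c_B05pm_022_s1 cutB_nil (noExt_B)

noncomputable def cut_B05pm_023_s1 : Cut := Cut.of [[⟨4, 0, 0, 1449551462⟩]]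

noncomputable def f_B05pm_023_s1 : ℕ → ℕ → ℕ → ℕ → Bool := onCell 0 536870912 0 1230186008 1020054732 13421774
    (rowF 0 false true false .up 0 2 3 (qsf 0 536870912 0 1230186008 2) ndB0q0 ndB5q3 pcB2 cut_B05pm_023_s1 Ext.none)

def k0_B05pm_023_s1 : ∃ t, chk3 f_B05pm_023_s1 t 1 1 1 = true :=
  ⟨(l 6), by decide +kernel⟩

theorem c_B05pm_023_s1 : CertF 0 536870912 0 1230186008 1020054732 13421774 false true false .up 0 2 3
    ndB0q0 ndB5q3 pcB2 cut_B05pm_023_s1 Ext.none :=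
  certF0 (fam := false) (s1 := true) (s2 := false) (a := 0) (b := 2) (c := 3) (cn := .up) (n1 := ndB0q0) (n2 := ndB5q3) (pc := pcB2) (cut := cut_B05pm_023_s1) (xt := Ext.none) (P1 := 0) (W1 := 536870912) (P2 := 0) (W2 := 1230186008) (P3 := 1020054732) (W3 := 13421774)
    rfl k0_B05pm_023_s1

theorem s_B05pm_023_s1 {κ x : ℝ} (hκ : κ * h0 = ken x) (hx : ((1020054732 : ℕ) : ℝ) / S ≤ x)
    (hx' : x ≤ (((1020054732 : ℕ) : ℝ) + (13421774 : ℕ)) / S) :
    AltB (VFD κ) PP tK tL pcB [⟨3, 0, 0, 1449551462⟩] 0 2 3 0 5 (sgb true) (sgb false) x :=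
  strip_altBD (m := 1449551462) true rfl hκ (SH.κ0 hκ (SH.hx1 hx).le (SH.hx2 hx').le) (SH.hx1 hx).le (SH.hx2 hx') (covB00).cov (covB53).cov hx hx' c_B05pm_023_s1 cutB_nil (noExt_B)

noncomputable def cut_B05pm_033_s1 : Cut := Cut.of [[⟨4, 0, 0, 1449551462⟩]]

noncomputable def f_B05pm_033_s1 : ℕ → ℕ → ℕ → ℕ → Bool := onCell 0 536870912 0 1230186008 1020054732 13421774
    (rowF 0 false true false .pnn 0 3 3 (qsf 0 536870912 0 1230186008 3) ndB0q0 ndB5q3 pcB3 cut_B05pm_033_s1 Ext.none)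

def k0_B05pm_033_s1 : ∃ t, chk3 f_B05pm_033_s1 t 1 1 1 = true :=
  ⟨(l 6), by decide +kernel⟩

theorem c_B05pm_033_s1 : CertF 0 536870912 0 1230186008 1020054732 13421774 false true false .pnn 0 3 3
    ndB0q0 ndB5q3 pcB3 cut_B05pm_033_s1 Ext.none :=
  certF0 (fam := false) (s1 := true) (s2 := false) (a := 0) (b := 3) (c := 3) (cn := .pnn) (n1 := ndB0q0) (n2 := ndB5q3) (pc := pcB3) (cut := cut_B05pm_033_s1) (xt := Ext.none) (P1 := 0) (W1 := 536870912) (P2 := 0) (W2 := 1230186008) (P3 := 1020054732) (W3 := 13421774)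
    rfl k0_B05pm_033_s1

theorem s_B05pm_033_s1 {κ x : ℝ} (hκ : κ * h0 = ken x) (hx : ((1020054732 : ℕ) : ℝ) / S ≤ x)
    (hx' : x ≤ (((1020054732 : ℕ) : ℝ) + (13421774 : ℕ)) / S) :
    AltB (VFD κ) PP tK tL pcB [⟨3, 0, 0, 1449551462⟩] 0 3 3 0 5 (sgb true) (sgb false) x :=
  strip_altBD (m := 1449551462) true rfl hκ (SH.κ0 hκ (SH.hx1 hx).le (SH.hx2 hx').le) (SH.hx1 hx).le (SH.hx2 hx') (covB00).cov (covB53).cov hx hx' c_B05pm_033_s1 cutB_nil (noExt_B)

noncomputable def cut_B05pm_101_s1 : Cut := Cut.of [[⟨4, 0, 0, 1449551462⟩]]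

noncomputable def f_B05pm_101_s1 : ℕ → ℕ → ℕ → ℕ → Bool := onCell 536870912 536870912 536870912 536870912 1020054732 13421774
    (rowF 0 false true false .npn 1 0 1 (qsf 536870912 536870912 536870912 536870912 0) ndB0q1 ndB5q1 pcB0 cut_B05pm_101_s1 Ext.none)

def k0_B05pm_101_s1 : ∃ t, chk3 f_B05pm_101_s1 t 1 1 1 = true :=
  ⟨(l 4), by decide +kernel⟩

theorem c_B05pm_101_s1 : CertF 536870912 536870912 536870912 536870912 1020054732 13421774 false true false .npn 1 0 1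
    ndB0q1 ndB5q1 pcB0 cut_B05pm_101_s1 Ext.none :=
  certF0 (fam := false) (s1 := true) (s2 := false) (a := 1) (b := 0) (c := 1) (cn := .npn) (n1 := ndB0q1) (n2 := ndB5q1) (pc := pcB0) (cut := cut_B05pm_101_s1) (xt := Ext.none) (P1 := 536870912) (W1 := 536870912) (P2 := 536870912) (W2 := 536870912) (P3 := 1020054732) (W3 := 13421774)
    rfl k0_B05pm_101_s1

theorem s_B05pm_101_s1 {κ x : ℝ} (hκ : κ * h0 = ken x) (hx : ((1020054732 : ℕ) : ℝ) / S ≤ x)
    (hx' : x ≤ (((1020054732 : ℕ) : ℝ) + (13421774 : ℕ)) / S) :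
    AltB (VFD κ) PP tK tL pcB [⟨3, 0, 0, 1449551462⟩] 1 0 1 0 5 (sgb true) (sgb false) x :=
  strip_altBD (m := 1449551462) true rfl hκ (SH.κ0 hκ (SH.hx1 hx).le (SH.hx2 hx').le) (SH.hx1 hx).le (SH.hx2 hx') (covB01).cov (covB51).cov hx hx' c_B05pm_101_s1 cutB_nil (noExt_B)

noncomputable def cut_B05pm_102_s1 : Cut := Cut.of [[⟨4, 0, 0, 1449551462⟩]]

noncomputable def f_B05pm_102_s1 : ℕ → ℕ → ℕ → ℕ → Bool := onCell 536870912 536870912 1073741824 536870912 1020054732 13421774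
    (rowF 0 false true false .npp 1 0 2 (qsf 536870912 536870912 1073741824 536870912 0) ndB0q1 ndB5q2 pcB0 cut_B05pm_102_s1 Ext.none)

def k0_B05pm_102_s1 : ∃ t, chk3 f_B05pm_102_s1 t 1 1 1 = true :=
  ⟨(l 6), by decide +kernel⟩

theorem c_B05pm_102_s1 : CertF 536870912 536870912 1073741824 536870912 1020054732 13421774 false true false .npp 1 0 2
    ndB0q1 ndB5q2 pcB0 cut_B05pm_102_s1 Ext.none :=
  certF0 (fam := false) (s1 := true) (s2 := false) (a := 1) (b := 0) (c := 2) (cn := .npp) (n1 := ndB0q1) (n2 := ndB5q2) (pc := pcB0) (cut := cut_B05pm_102_s1) (xt := Ext.none) (P1 := 536870912) (W1 := 536870912) (P2 := 1073741824) (W2 := 536870912) (P3 := 1020054732) (W3 := 13421774)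
    rfl k0_B05pm_102_s1

theorem s_B05pm_102_s1 {κ x : ℝ} (hκ : κ * h0 = ken x) (hx : ((1020054732 : ℕ) : ℝ) / S ≤ x)
    (hx' : x ≤ (((1020054732 : ℕ) : ℝ) + (13421774 : ℕ)) / S) :
    AltB (VFD κ) PP tK tL pcB [⟨3, 0, 0, 1449551462⟩] 1 0 2 0 5 (sgb true) (sgb false) x :=
  strip_altBD (m := 1449551462) true rfl hκ (SH.κ0 hκ (SH.hx1 hx).le (SH.hx2 hx').le) (SH.hx1 hx).le (SH.hx2 hx') (covB01).cov (covB52).cov hx hx' c_B05pm_102_s1 cutB_nil (noExt_B)

noncomputable def cut_B05pm_112_s1 : Cut := Cut.of [[⟨4, 0, 0, 1449551462⟩]]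

noncomputable def f_B05pm_112_s1 : ℕ → ℕ → ℕ → ℕ → Bool := onCell 536870912 536870912 1073741824 536870912 1020054732 13421774
    (rowF 0 false true false .dn 1 1 2 (qsf 536870912 536870912 1073741824 536870912 1) ndB0q1 ndB5q2 pcB1 cut_B05pm_112_s1 Ext.none)

def k0_B05pm_112_s1 : ∃ t, chk3 f_B05pm_112_s1 t 1 1 1 = true :=
  ⟨(l 6), by decide +kernel⟩

theorem c_B05pm_112_s1 : CertF 536870912 536870912 1073741824 536870912 1020054732 13421774 false true false .dn 1 1 2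
    ndB0q1 ndB5q2 pcB1 cut_B05pm_112_s1 Ext.none :=
  certF0 (fam := false) (s1 := true) (s2 := false) (a := 1) (b := 1) (c := 2) (cn := .dn) (n1 := ndB0q1) (n2 := ndB5q2) (pc := pcB1) (cut := cut_B05pm_112_s1) (xt := Ext.none) (P1 := 536870912) (W1 := 536870912) (P2 := 1073741824) (W2 := 536870912) (P3 := 1020054732) (W3 := 13421774)
    rfl k0_B05pm_112_s1

theorem s_B05pm_112_s1 {κ x : ℝ} (hκ : κ * h0 = ken x) (hx : ((1020054732 : ℕ) : ℝ) / S ≤ x)
    (hx' : x ≤ (((1020054732 : ℕ) : ℝ) + (13421774 : ℕ)) / S) :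
    AltB (VFD κ) PP tK tL pcB [⟨3, 0, 0, 1449551462⟩] 1 1 2 0 5 (sgb true) (sgb false) x :=
  strip_altBD (m := 1449551462) true rfl hκ (SH.κ0 hκ (SH.hx1 hx).le (SH.hx2 hx').le) (SH.hx1 hx).le (SH.hx2 hx') (covB01).cov (covB52).cov hx hx' c_B05pm_112_s1 cutB_nil (noExt_B)

noncomputable def cut_B05pm_113_s1 : Cut := Cut.of [[⟨4, 0, 0, 1449551462⟩], [⟨0, 1, 0, 26738688⟩, ⟨1, 1, 0, 26738688⟩, ⟨2, 2, 0, 2621440⟩]]

noncomputable def f_B05pm_113_s1 : ℕ → ℕ → ℕ → ℕ → Bool := onCell 536870912 536870912 0 1230186008 1020054732 13421774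
    (rowF 0 false true false .nn 1 1 3 (qsf 536870912 536870912 0 1230186008 1) ndB0q1 ndB5q3 pcB1 cut_B05pm_113_s1 Ext.none)

def k0_B05pm_113_s1 : ∃ t, chk3 f_B05pm_113_s1 t 1 1 1 = true :=
  ⟨(b (a (l 2) (a (l 2) (b (a (l 2) (a (l 2) (a (b (l 2) (b (l 2) (l 16577096))) (b (b (l 14) (b (a (l 2) (l 16579712)) (l 16515800))) (b (b (a (l 16540872) (l 16602568)) (c (l 16464168) (l 16518560))) (l 16485504)))))) (a (l 6) (b (a (l 6) (b (a (l 6) (l 16795256)) (l 6))) (l 6)))))) (b (l 6) (l 6))), by decide +kernel⟩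

theorem c_B05pm_113_s1 : CertF 536870912 536870912 0 1230186008 1020054732 13421774 false true false .nn 1 1 3
    ndB0q1 ndB5q3 pcB1 cut_B05pm_113_s1 Ext.none :=
  certF0 (fam := false) (s1 := true) (s2 := false) (a := 1) (b := 1) (c := 3) (cn := .nn) (n1 := ndB0q1) (n2 := ndB5q3) (pc := pcB1) (cut := cut_B05pm_113_s1) (xt := Ext.none) (P1 := 536870912) (W1 := 536870912) (P2 := 0) (W2 := 1230186008) (P3 := 1020054732) (W3 := 13421774)
    rfl k0_B05pm_113_s1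

theorem s_B05pm_113_s1 {κ x : ℝ} (hκ : κ * h0 = ken x) (hx : ((1020054732 : ℕ) : ℝ) / S ≤ x)
    (hx' : x ≤ (((1020054732 : ℕ) : ℝ) + (13421774 : ℕ)) / S)
    (H : CutB (VFD κ) PP tK tL pcB (Cut.of [[⟨0, 1, 0, 26738688⟩, ⟨1, 1, 0, 26738688⟩, ⟨2, 2, 0, 2621440⟩]]) 1 1 3 0 5 (sgb true) (sgb false) x) :
    AltB (VFD κ) PP tK tL pcB [⟨3, 0, 0, 1449551462⟩] 1 1 3 0 5 (sgb true) (sgb false) x :=
  strip_altBD (m := 1449551462) true rfl hκ (SH.κ0 hκ (SH.hx1 hx).le (SH.hx2 hx').le) (SH.hx1 hx).le (SH.hx2 hx') (covB01).cov (covB53).cov hx hx' c_B05pm_113_s1 H (noExt_B)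

noncomputable def cut_B05pm_123_s1 : Cut := Cut.of [[⟨4, 0, 0, 1449551462⟩], [⟨0, 1, 0, 26738688⟩, ⟨1, 1, 0, 26738688⟩, ⟨2, 2, 0, 2621440⟩]]

noncomputable def f_B05pm_123_s1 : ℕ → ℕ → ℕ → ℕ → Bool := onCell 1073741824 536870912 0 1230186008 1020054732 13421774
    (rowF 2 false true false .npn 1 2 3 (qsf 536870912 536870912 0 1230186008 2) ndB0q1 ndB5q3 pcB2 cut_B05pm_123_s1 Ext.none)

def k0_B05pm_123_s1 : ∃ t, chk3 f_B05pm_123_s1 t 1 1 1 = true :=
  ⟨(b (a (b (a (a (b (a (b (a (l 14) (b (a (l 14) (b (l 16613816) (l 16687160))) (l 16688656))) (a (b (l 16747408) (l 16714480)) (l 16467496))) (b (a (b (l 16548224) (l 16599568)) (l 16531632)) (a (l 16536184) (l 16439352)))) (a (b (a (b (l 16675832) (l 16547448)) (l 16373152)) (a (b (l 16579960) (l 6)) (l 16428416))) (b (a (l 16432432) (l 16323232)) (l 6)))) (b (b (a (l 16404616) (l 16231776)) (a (l 16294584) (l 6))) (l 6))) (b (l 6) (l 6))) (b (l 6) (l 6))) (l 6))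 (l 6)), by decide +kernel⟩

theorem c_B05pm_123_s1 : CertF 536870912 536870912 0 1230186008 1020054732 13421774 false true false .npn 1 2 3
    ndB0q1 ndB5q3 pcB2 cut_B05pm_123_s1 Ext.none :=
  certF2 (fam := false) (s1 := true) (s2 := false) (a := 1) (b := 2) (c := 3) (cn := .npn) (n1 := ndB0q1) (n2 := ndB5q3) (pc := pcB2) (cut := cut_B05pm_123_s1) (xt := Ext.none) (P1 := 536870912) (W1 := 536870912) (P2 := 0) (W2 := 1230186008) (P3 := 1020054732) (W3 := 13421774)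
    rfl (fun _ => rfl) k0_B05pm_123_s1

theorem s_B05pm_123_s1 {κ x : ℝ} (hκ : κ * h0 = ken x) (hx : ((1020054732 : ℕ) : ℝ) / S ≤ x)
    (hx' : x ≤ (((1020054732 : ℕ) : ℝ) + (13421774 : ℕ)) / S)
    (H : CutB (VFD κ) PP tK tL pcB (Cut.of [[⟨0, 1, 0, 26738688⟩, ⟨1, 1, 0, 26738688⟩, ⟨2, 2, 0, 2621440⟩]]) 1 2 3 0 5 (sgb true) (sgb false) x) :
    AltB (VFD κ) PP tK tL pcB [⟨3, 0, 0, 1449551462⟩] 1 2 3 0 5 (sgb true) (sgb false) x :=
  strip_altBD (m := 1449551462) true rfl hκ (SH.κ0 hκ (SH.hx1 hx).le (SH.hx2 hx').le) (SH.hx1 hx).le (SH.hx2 hx') (covB01).cov (covB53).cov hx hx' c_B05pm_123_s1 H (noExt_B)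

noncomputable def cut_B05pm_133_s1 : Cut := Cut.of [[⟨4, 0, 0, 1449551462⟩]]

noncomputable def f_B05pm_133_s1 : ℕ → ℕ → ℕ → ℕ → Bool := onCell 1610612736 536870912 0 1230186008 1020054732 13421774
    (rowF 2 false true false .dn 1 3 3 (qsf 536870912 536870912 0 1230186008 3) ndB0q1 ndB5q3 pcB3 cut_B05pm_133_s1 Ext.none)

def k0_B05pm_133_s1 : ∃ t, chk3 f_B05pm_133_s1 t 1 1 1 = true :=
  ⟨(l 6), by decide +kernel⟩

theorem c_B05pm_133_s1 : CertF 536870912 536870912 0 1230186008 1020054732 13421774 false true false .dn 1 3 3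
    ndB0q1 ndB5q3 pcB3 cut_B05pm_133_s1 Ext.none :=
  certF2 (fam := false) (s1 := true) (s2 := false) (a := 1) (b := 3) (c := 3) (cn := .dn) (n1 := ndB0q1) (n2 := ndB5q3) (pc := pcB3) (cut := cut_B05pm_133_s1) (xt := Ext.none) (P1 := 536870912) (W1 := 536870912) (P2 := 0) (W2 := 1230186008) (P3 := 1020054732) (W3 := 13421774)
    rfl (fun _ => rfl) k0_B05pm_133_s1

theorem s_B05pm_133_s1 {κ x : ℝ} (hκ : κ * h0 = ken x) (hx : ((1020054732 : ℕ) : ℝ) / S ≤ x)
    (hx' : x ≤ (((1020054732 : ℕ) : ℝ) + (13421774 : ℕ)) / S) :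
    AltB (VFD κ) PP tK tL pcB [⟨3, 0, 0, 1449551462⟩] 1 3 3 0 5 (sgb true) (sgb false) x :=
  strip_altBD (m := 1449551462) true rfl hκ (SH.κ0 hκ (SH.hx1 hx).le (SH.hx2 hx').le) (SH.hx1 hx).le (SH.hx2 hx') (covB01).cov (covB53).cov hx hx' c_B05pm_133_s1 cutB_nil (noExt_B)

noncomputable def cut_B05pm_202_s1 : Cut := Cut.of [[⟨4, 0, 0, 1449551462⟩]]

noncomputable def f_B05pm_202_s1 : ℕ → ℕ → ℕ → ℕ → Bool := onCell 0 536870912 1073741824 536870912 1020054732 13421774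
    (rowF 0 false true false .pp 2 0 2 (qsf 0 536870912 1073741824 536870912 0) ndB0q2 ndB5q2 pcB0 cut_B05pm_202_s1 Ext.none)

def k0_B05pm_202_s1 : ∃ t, chk3 f_B05pm_202_s1 t 1 1 1 = true :=
  ⟨(a (b (l 6) (b (l 6) (l 6))) (l 6)), by decide +kernel⟩

theorem c_B05pm_202_s1 : CertF 0 536870912 1073741824 536870912 1020054732 13421774 false true false .pp 2 0 2
    ndB0q2 ndB5q2 pcB0 cut_B05pm_202_s1 Ext.none :=
  certF0 (fam := false) (s1 := true) (s2 := false) (a := 2) (b := 0) (c := 2) (cn := .pp) (n1 := ndB0q2) (n2 := ndB5q2) (pc := pcB0) (cut := cut_B05pm_202_s1) (xt := Ext.none) (P1 := 0) (W1 := 536870912) (P2 := 1073741824) (W2 := 536870912) (P3 := 1020054732) (W3 := 13421774)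
    rfl k0_B05pm_202_s1

theorem s_B05pm_202_s1 {κ x : ℝ} (hκ : κ * h0 = ken x) (hx : ((1020054732 : ℕ) : ℝ) / S ≤ x)
    (hx' : x ≤ (((1020054732 : ℕ) : ℝ) + (13421774 : ℕ)) / S) :
    AltB (VFD κ) PP tK tL pcB [⟨3, 0, 0, 1449551462⟩] 2 0 2 0 5 (sgb true) (sgb false) x :=
  strip_altBD (m := 1449551462) true rfl hκ (SH.κ0 hκ (SH.hx1 hx).le (SH.hx2 hx').le) (SH.hx1 hx).le (SH.hx2 hx') (covB02).cov (covB52).cov hx hx' c_B05pm_202_s1 cutB_nil (noExt_B)

noncomputable def cut_B05pm_203_s1 : Cut := Cut.of [[⟨4, 0, 0, 1449551462⟩]]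

noncomputable def f_B05pm_203_s1 : ℕ → ℕ → ℕ → ℕ → Bool := onCell 0 536870912 0 1230186008 1020054732 13421774
    (rowF 0 false true false .up 2 0 3 (qsf 0 536870912 0 1230186008 0) ndB0q2 ndB5q3 pcB0 cut_B05pm_203_s1 Ext.none)

def k0_B05pm_203_s1 : ∃ t, chk3 f_B05pm_203_s1 t 1 1 1 = true :=
  ⟨(b (l 2) (b (l 2) (a (b (b (l 2) (a (a (b (l 2) (a (l 16568656) (l 16614464))) (l 16570608)) (a (l 16478192) (l 6)))) (a (b (a (b (a (l 16618552) (l 16578912)) (l 16563720)) (b (l 16516464) (l 6))) (a (b (l 16529936) (a (l 16513528) (l 6))) (l 6))) (l 6))) (l 6)))), by decide +kernel⟩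

theorem c_B05pm_203_s1 : CertF 0 536870912 0 1230186008 1020054732 13421774 false true false .up 2 0 3
    ndB0q2 ndB5q3 pcB0 cut_B05pm_203_s1 Ext.none :=
  certF0 (fam := false) (s1 := true) (s2 := false) (a := 2) (b := 0) (c := 3) (cn := .up) (n1 := ndB0q2) (n2 := ndB5q3) (pc := pcB0) (cut := cut_B05pm_203_s1) (xt := Ext.none) (P1 := 0) (W1 := 536870912) (P2 := 0) (W2 := 1230186008) (P3 := 1020054732) (W3 := 13421774)
    rfl k0_B05pm_203_s1

theorem s_B05pm_203_s1 {κ x : ℝ} (hκ : κ * h0 = ken x) (hx : ((1020054732 : ℕ) : ℝ) / S ≤ x)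
    (hx' : x ≤ (((1020054732 : ℕ) : ℝ) + (13421774 : ℕ)) / S) :
    AltB (VFD κ) PP tK tL pcB [⟨3, 0, 0, 1449551462⟩] 2 0 3 0 5 (sgb true) (sgb false) x :=
  strip_altBD (m := 1449551462) true rfl hκ (SH.κ0 hκ (SH.hx1 hx).le (SH.hx2 hx').le) (SH.hx1 hx).le (SH.hx2 hx') (covB02).cov (covB53).cov hx hx' c_B05pm_203_s1 cutB_nil (noExt_B)

noncomputable def cut_B05pm_213_s1 : Cut := Cut.of [[⟨4, 0, 0, 1449551462⟩], [⟨0, 1, 0, 26738688⟩, ⟨1, 1, 0, 26738688⟩, ⟨2, 2, 0, 2621440⟩]]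

noncomputable def xt_B05pm_213_s1 : Ext := strExt dd false true false .u2 .s2m .u0m .pnn 2 1 3 rfl rfl gf1 vv ndB0q2 ndB5q3

noncomputable def f_B05pm_213_s1 : ℕ → ℕ → ℕ → ℕ → Bool := onCell 0 536870912 0 1230186008 1020054732 13421774
    (rowF 0 false true false .pnn 2 1 3 (qsf 0 536870912 0 1230186008 1) ndB0q2 ndB5q3 pcB1 cut_B05pm_213_s1 xt_B05pm_213_s1)

def k0_B05pm_213_s1 : ∃ t, chk3 f_B05pm_213_s1 t 2 2 1 = true :=
  ⟨(b (l 3) (a (l 3) (b (l 3) (a (b (l 3) (a (l 3) (l 532846607))) (b (a (l 3) (l 532432911)) (a (l 532359439) (l 531808783))))))), by decide +kernel⟩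

def k1_B05pm_213_s1 : ∃ t, chk3 f_B05pm_213_s1 t 6 2 1 = true :=
  ⟨(b (b (l 3) (a (l 3) (b (l 3) (a (l 3) (a (b (l 3) (l 531146255)) (b (l 530885903) (l 530953999))))))) (b (a (b (a (l 3) (b (l 3) (l 531980559))) (a (l 532280847) (b (l 531848207) (l 531692047)))) (a (b (a (l 531643407) (l 531343631)) (b (l 531219983) (l 531080719))) (b (a (l 530968591) (b (l 530695951) (l 16596952))) (b (l 529156367) (l 16524216))))) (a (b (a (l 532038159) (b (l 531586831) (l 531531023))) (a (l 530914063) (b (l 531524623) (a (l 16622096) (l 16584880))))) (b (a (b (l 530991119) (l 16520560)) (b (l 16475168) (a (l 16536408) (l 16487704)))) (a (b (a (l 16583576) (l 16539832)) (a (l 16543984) (l 16499888))) (b (l 16470304) (l 16427728))))))), by decide +kernel⟩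

def k2_B05pm_213_s1 : ∃ t, chk3 f_B05pm_213_s1 t 7 4 1 = true :=
  ⟨(b (a (b (l 3) (a (l 3) (a (l 3) (b (l 3) (a (l 530470671) (l 530540815)))))) (a (b (a (l 3) (a (l 3) (a (b (l 3) (l 530782479)) (l 14)))) (a (a (b (l 530503183) (l 530361359)) (b (b (l 3) (l 530627343)) (l 530504463))) (a (b (a (l 530624783) (l 530586895)) (a (l 530645007) (l 530763791))) (a (b (l 529955343) (l 16640864)) (b (b (l 530862095) (l 16660648)) (l 16634632)))))) (b (l 14) (b (a (a (b (a (l 531015695) (l 16705976)) (l 16650408)) (c (l 16681320) (l 16651600))) (a (l 16632280) (l 16619440))) (a (a (l 16625312) (l 16696816)) (l 16594248)))))) (a (a (b (b (l 3) (a (l 530664207) (l 530650127))) (a (l 530641423) (b (l 530394895) (l 530192911)))) (b (a (b (l 530548239) (a (l 530363663) (l 530264079))) (b (a (l 530352911) (l 530363407)) (a (l 530325007) (l 16620672)))) (a (b (l 530184719) (l 16654128)) (b (l 16668512) (l 16619464))))) (a (b (a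 (b (a (l 530530575) (l 530714639)) (l 16598848)) (b (c (l 16602064) (l 16615288)) (l 16657040))) (c (a (l 16625368) (l 16515000)) (a (l 16619688) (l 16531512)))) (b (b (a (l 16585944) (l 16563656)) (a (l 16637384) (l 16616544))) (a (b (l 16604264) (l 16597664)) (b (l 16607568) (l 16649704))))))), by decide +kernel⟩

def k3_B05pm_213_s1 : ∃ t, chk3 f_B05pm_213_s1 t 7 5 1 = true :=
  ⟨(b (a (b (a (a (b (l 530313999) (l 16639056)) (b (l 16645312) (l 16592872))) (b (l 16580912) (a (l 16544336) (l 16500968)))) (a (b (l 16562352) (a (l 16533816) (l 16481352))) (b (a (l 16485224) (l 16444512)) (l 16411608)))) (b (a (a (b (l 16544488) (l 16482616)) (b (l 16587032) (l 16506152))) (a (l 16677112) (l 16755408))) (a (b (l 16408392) (l 16317744)) (l 16426888)))) (b (a (a (b (a (l 16483128) (l 16432848)) (l 16411608)) (l 16405440)) (l 6)) (a (a (b (l 16362904) (l 16314480)) (l 6)) (l 6)))), by decide +kernel⟩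

def k4_B05pm_213_s1 : ∃ t, chk3 f_B05pm_213_s1 t 1 6 1 = true :=
  ⟨(a (b (a (b (l 3) (a (l 3) (c (b (l 532455183) (l 531685647)) (l 533184783)))) (a (b (b (l 532906511) (l 532129295)) (c (b (l 532644367) (l 532414991)) (a (l 533021455) (l 532857359)))) (a (a (b (l 532721423) (l 532377615)) (b (l 532619279) (b (l 16590176) (l 16480496)))) (a (b (l 532501007) (b (l 16649248) (c (l 16622304) (l 16611520)))) (b (l 532365583) (b (l 16538200) (l 16510696))))))) (a (a (b (c (b (l 3) (l 529195535)) (l 533434383)) (c (b (l 528251407) (l 527338255)) (b (l 533647119) (l 533830671)))) (b (c (b (l 530798607) (l 529878031)) (b (l 533335567) (l 533478671))) (a (c (l 527203087) (l 533759503)) (b (c (l 529146639) (l 533635855)) (b (l 530484751) (a (l 16370152) (b (l 16356400) (l 16348376)))))))) (a (b (a (c (l 529300239) (l 533288463)) (b (l 533227023) (b (a (l 16588840) (l 16485608)) (a (l 16410752) (l 16392472))))) (b (a (a (c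 (l 16477832) (l 16681864)) (b (l 16398856) (l 16300400))) (b (a (l 16316440) (l 16634104)) (l 16466760))) (a (b (a (l 16284880) (l 16309568)) (a (l 16290512) (l 16646312))) (c (l 16623264) (l 16597920))))) (b (a (b (c (b (l 16546872) (l 16453144)) (l 16542584)) (c (l 16366384) (l 16600696))) (b (l 16497984) (l 16550480))) (b (a (l 16500552) (l 16511736)) (a (l 16544440) (l 6))))))) (a (b (a (b (a (b (l 16553520) (c (l 16611088) (l 16592336))) (b (c (l 16577840) (l 16553384)) (a (l 16552920) (l 16513376)))) (a (b (a (l 16507912) (l 16557576)) (l 16543848)) (b (l 16499080) (l 16463616)))) (b (a (b (l 16484480) (l 16446728)) (b (l 16385624) (l 6))) (a (b (l 16408664) (l 6)) (l 6)))) (a (a (b (b (l 16510496) (l 6)) (l 6)) (l 6)) (l 6))) (b (l 6) (l 6)))), by decide +kernel⟩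

def k5_B05pm_213_s1 : ∃ t, chk3 f_B05pm_213_s1 t 1 7 1 = true :=
  ⟨(a (b (a (b (a (b (c (l 526486031) (l 534009615)) (b (c (l 525916175) (l 533724687)) (a (c (l 525396751) (l 533466895)) (c (a (l 16428392) (l 16376712)) (l 16442120))))) (c (b (a (b (l 16372560) (a (l 16514256) (l 16388440))) (b (a (l 16398664) (l 16331176)) (a (l 16311264) (l 16550680)))) (a (b (a (l 16381168) (l 16294720)) (a (l 16281560) (l 16512688))) (l 16354280))) (b (a (b (l 16623472) (l 16531384)) (b (l 16507424) (l 16495976))) (a (b (a (l 16691088) (l 16598944)) (l 16427664)) (l 16638000))))) (b (a (a (c (l 524948751) (l 533287183)) (b (a (c (l 16458584) (l 16683320)) (b (l 16219824) (l 16223064))) (a (b (l 16215408) (l 16216720)) (b (l 16243696) (l 16442120))))) (a (b (l 16217128) (l 16408968)) (c (l 16617296) (l 16589808)))) (b (a (a (b (a (l 16329832) (l 16213696)) (l 1)) (c (l 16186048) (l 16504544))) (a (l 16629624) (l 16543800)))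 (l 1)))) (a (b (b (a (c (l 16468344) (l 16620272)) (l 16570760)) (a (l 16423040) (l 16508304))) (b (a (l 16518648) (l 6)) (l 6))) (l 6))) (a (l 1) (l 6))) (l 6)), by decide +kernel⟩

theorem t6_B05pm_213_s1 : ∃ t, chk3 f_B05pm_213_s1 t 1 3 1 = true := ex3_b k4_B05pm_213_s1 k5_B05pm_213_s1

theorem t7_B05pm_213_s1 : ∃ t, chk3 f_B05pm_213_s1 t 7 2 1 = true := ex3_b k2_B05pm_213_s1 k3_B05pm_213_s1

theorem t8_B05pm_213_s1 : ∃ t, chk3 f_B05pm_213_s1 t 3 2 1 = true := ex3_a k1_B05pm_213_s1 t7_B05pm_213_s1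

theorem t9_B05pm_213_s1 : ∃ t, chk3 f_B05pm_213_s1 t 1 2 1 = true := ex3_a k0_B05pm_213_s1 t8_B05pm_213_s1

theorem t10_B05pm_213_s1 : ∃ t, chk3 f_B05pm_213_s1 t 1 1 1 = true := ex3_b t9_B05pm_213_s1 t6_B05pm_213_s1

theorem c_B05pm_213_s1 : CertF 0 536870912 0 1230186008 1020054732 13421774 false true false .pnn 2 1 3
    ndB0q2 ndB5q3 pcB1 cut_B05pm_213_s1 xt_B05pm_213_s1 :=
  certF0 (fam := false) (s1 := true) (s2 := false) (a := 2) (b := 1) (c := 3) (cn := .pnn) (n1 := ndB0q2) (n2 := ndB5q3) (pc := pcB1) (cut := cut_B05pm_213_s1) (xt := xt_B05pm_213_s1) (P1 := 0) (W1 := 536870912) (P2 := 0) (W2 := 1230186008) (P3 := 1020054732) (W3 := 13421774)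
    rfl t10_B05pm_213_s1

theorem s_B05pm_213_s1 {κ x : ℝ} (hκ : κ * h0 = ken x) (hx : ((1020054732 : ℕ) : ℝ) / S ≤ x)
    (hx' : x ≤ (((1020054732 : ℕ) : ℝ) + (13421774 : ℕ)) / S)
    (H : CutB (VFD κ) PP tK tL pcB (Cut.of [[⟨0, 1, 0, 26738688⟩, ⟨1, 1, 0, 26738688⟩, ⟨2, 2, 0, 2621440⟩]]) 2 1 3 0 5 (sgb true) (sgb false) x) :
    AltB (VFD κ) PP tK tL pcB [⟨3, 0, 0, 1449551462⟩] 2 1 3 0 5 (sgb true) (sgb false) x :=
  strip_altBD (m := 1449551462) true rfl hκ (SH.κ0 hκ (SH.hx1 hx).le (SH.hx2 hx').le) (SH.hx1 hx).le (SH.hx2 hx') (covB02).cov (covB53).cov hx hx' c_B05pm_213_s1 H ((okx hx hx').extB (T := tt) (sideB hx hx') hκ rfl rfl (.O 2 true) (.N 3 false) (Or.inr rfl))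

noncomputable def cut_B05mm_001_s1 : Cut := Cut.of [[⟨4, 0, 0, 1449551462⟩]]

noncomputable def f_B05mm_001_s1 : ℕ → ℕ → ℕ → ℕ → Bool := onCell 0 536870912 0 536870912 1020054732 13421774
    (rowF 1 false false false .up 0 0 1 (qsf 0 536870912 536870912 536870912 0) ndB0q0 ndB5q1 pcB0 cut_B05mm_001_s1 Ext.none)

def k0_B05mm_001_s1 : ∃ t, chk3 f_B05mm_001_s1 t 1 1 1 = true :=
  ⟨(l 3), by decide +kernel⟩

theorem c_B05mm_001_s1 : CertF 0 536870912 536870912 536870912 1020054732 13421774 false false false .up 0 0 1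
    ndB0q0 ndB5q1 pcB0 cut_B05mm_001_s1 Ext.none :=
  certF1 (fam := false) (s1 := false) (s2 := false) (a := 0) (b := 0) (c := 1) (cn := .up) (n1 := ndB0q0) (n2 := ndB5q1) (pc := pcB0) (cut := cut_B05mm_001_s1) (xt := Ext.none) (P1 := 0) (W1 := 536870912) (P2 := 536870912) (W2 := 536870912) (P3 := 1020054732) (W3 := 13421774)
    rfl (fun _ => rfl) k0_B05mm_001_s1

theorem s_B05mm_001_s1 {κ x : ℝ} (hκ : κ * h0 = ken x) (hx : ((1020054732 : ℕ) : ℝ) / S ≤ x)
    (hx' : x ≤ (((1020054732 : ℕ) : ℝ) + (13421774 : ℕ)) / S) :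
    AltB (VFD κ) PP tK tL pcB [⟨3, 0, 0, 1449551462⟩] 0 0 1 0 5 (sgb false) (sgb false) x :=
  strip_altBD (m := 1449551462) true rfl hκ (SH.κ0 hκ (SH.hx1 hx).le (SH.hx2 hx').le) (SH.hx1 hx).le (SH.hx2 hx') (covB00).cov (covB51).cov hx hx' c_B05mm_001_s1 cutB_nil (noExt_B)

noncomputable def cut_B05mm_011_s1 : Cut := Cut.of [[⟨4, 0, 0, 1449551462⟩]]

noncomputable def f_B05mm_011_s1 : ℕ → ℕ → ℕ → ℕ → Bool := onCell 0 536870912 536870912 536870912 1020054732 13421774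
    (rowF 1 false false false .pnn 0 1 1 (qsf 0 536870912 536870912 536870912 1) ndB0q0 ndB5q1 pcB1 cut_B05mm_011_s1 Ext.none)

def k0_B05mm_011_s1 : ∃ t, chk3 f_B05mm_011_s1 t 1 1 1 = true :=
  ⟨(l 5), by decide +kernel⟩

theorem c_B05mm_011_s1 : CertF 0 536870912 536870912 536870912 1020054732 13421774 false false false .pnn 0 1 1
    ndB0q0 ndB5q1 pcB1 cut_B05mm_011_s1 Ext.none :=
  certF1 (fam := false) (s1 := false) (s2 := false) (a := 0) (b := 1) (c := 1) (cn := .pnn) (n1 := ndB0q0) (n2 := ndB5q1) (pc := pcB1) (cut := cut_B05mm_011_s1) (xt := Ext.none) (P1 := 0) (W1 := 536870912) (P2 := 536870912) (W2 := 536870912) (P3 := 1020054732) (W3 := 13421774)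
    rfl (fun _ => rfl) k0_B05mm_011_s1

theorem s_B05mm_011_s1 {κ x : ℝ} (hκ : κ * h0 = ken x) (hx : ((1020054732 : ℕ) : ℝ) / S ≤ x)
    (hx' : x ≤ (((1020054732 : ℕ) : ℝ) + (13421774 : ℕ)) / S) :
    AltB (VFD κ) PP tK tL pcB [⟨3, 0, 0, 1449551462⟩] 0 1 1 0 5 (sgb false) (sgb false) x :=
  strip_altBD (m := 1449551462) true rfl hκ (SH.κ0 hκ (SH.hx1 hx).le (SH.hx2 hx').le) (SH.hx1 hx).le (SH.hx2 hx') (covB00).cov (covB51).cov hx hx' c_B05mm_011_s1 cutB_nil (noExt_B)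

noncomputable def cut_B05mm_012_s1 : Cut := Cut.of [[⟨4, 0, 0, 1449551462⟩]]

noncomputable def f_B05mm_012_s1 : ℕ → ℕ → ℕ → ℕ → Bool := onCell 0 536870912 1073741824 536870912 1020054732 13421774
    (rowF 0 false false false .pnp 0 1 2 (qsf 0 536870912 1073741824 536870912 1) ndB0q0 ndB5q2 pcB1 cut_B05mm_012_s1 Ext.none)

def k0_B05mm_012_s1 : ∃ t, chk3 f_B05mm_012_s1 t 1 1 1 = true :=
  ⟨(l 5), by decide +kernel⟩

theorem c_B05mm_012_s1 : CertF 0 536870912 1073741824 536870912 1020054732 13421774 false false false .pnp 0 1 2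
    ndB0q0 ndB5q2 pcB1 cut_B05mm_012_s1 Ext.none :=
  certF0 (fam := false) (s1 := false) (s2 := false) (a := 0) (b := 1) (c := 2) (cn := .pnp) (n1 := ndB0q0) (n2 := ndB5q2) (pc := pcB1) (cut := cut_B05mm_012_s1) (xt := Ext.none) (P1 := 0) (W1 := 536870912) (P2 := 1073741824) (W2 := 536870912) (P3 := 1020054732) (W3 := 13421774)
    rfl k0_B05mm_012_s1

theorem s_B05mm_012_s1 {κ x : ℝ} (hκ : κ * h0 = ken x) (hx : ((1020054732 : ℕ) : ℝ) / S ≤ x)
    (hx' : x ≤ (((1020054732 : ℕ) : ℝ) + (13421774 : ℕ)) / S) :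
    AltB (VFD κ) PP tK tL pcB [⟨3, 0, 0, 1449551462⟩] 0 1 2 0 5 (sgb false) (sgb false) x :=
  strip_altBD (m := 1449551462) true rfl hκ (SH.κ0 hκ (SH.hx1 hx).le (SH.hx2 hx').le) (SH.hx1 hx).le (SH.hx2 hx') (covB00).cov (covB52).cov hx hx' c_B05mm_012_s1 cutB_nil (noExt_B)

noncomputable def cut_B05mm_022_s1 : Cut := Cut.of [[⟨4, 0, 0, 1449551462⟩]]

noncomputable def f_B05mm_022_s1 : ℕ → ℕ → ℕ → ℕ → Bool := onCell 0 536870912 1073741824 536870912 1020054732 13421774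
    (rowF 0 false false false .pp 0 2 2 (qsf 0 536870912 1073741824 536870912 2) ndB0q0 ndB5q2 pcB2 cut_B05mm_022_s1 Ext.none)

def k0_B05mm_022_s1 : ∃ t, chk3 f_B05mm_022_s1 t 1 1 1 = true :=
  ⟨(l 5), by decide +kernel⟩

theorem c_B05mm_022_s1 : CertF 0 536870912 1073741824 536870912 1020054732 13421774 false false false .pp 0 2 2
    ndB0q0 ndB5q2 pcB2 cut_B05mm_022_s1 Ext.none :=
  certF0 (fam := false) (s1 := false) (s2 := false) (a := 0) (b := 2) (c := 2) (cn := .pp) (n1 := ndB0q0) (n2 := ndB5q2) (pc := pcB2) (cut := cut_B05mm_022_s1) (xt := Ext.none) (P1 := 0) (W1 := 536870912) (P2 := 1073741824) (W2 := 536870912) (P3 := 1020054732) (W3 := 13421774)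
    rfl k0_B05mm_022_s1

theorem s_B05mm_022_s1 {κ x : ℝ} (hκ : κ * h0 = ken x) (hx : ((1020054732 : ℕ) : ℝ) / S ≤ x)
    (hx' : x ≤ (((1020054732 : ℕ) : ℝ) + (13421774 : ℕ)) / S) :
    AltB (VFD κ) PP tK tL pcB [⟨3, 0, 0, 1449551462⟩] 0 2 2 0 5 (sgb false) (sgb false) x :=
  strip_altBD (m := 1449551462) true rfl hκ (SH.κ0 hκ (SH.hx1 hx).le (SH.hx2 hx').le) (SH.hx1 hx).le (SH.hx2 hx') (covB00).cov (covB52).cov hx hx' c_B05mm_022_s1 cutB_nil (noExt_B)

noncomputable def cut_B05mm_023_s1 : Cut := Cut.of [[⟨4, 0, 0, 1449551462⟩]]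

noncomputable def f_B05mm_023_s1 : ℕ → ℕ → ℕ → ℕ → Bool := onCell 0 536870912 0 1230186008 1020054732 13421774
    (rowF 0 false false false .up 0 2 3 (qsf 0 536870912 0 1230186008 2) ndB0q0 ndB5q3 pcB2 cut_B05mm_023_s1 Ext.none)

def k0_B05mm_023_s1 : ∃ t, chk3 f_B05mm_023_s1 t 1 1 1 = true :=
  ⟨(l 5), by decide +kernel⟩

theorem c_B05mm_023_s1 : CertF 0 536870912 0 1230186008 1020054732 13421774 false false false .up 0 2 3
    ndB0q0 ndB5q3 pcB2 cut_B05mm_023_s1 Ext.none :=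
  certF0 (fam := false) (s1 := false) (s2 := false) (a := 0) (b := 2) (c := 3) (cn := .up) (n1 := ndB0q0) (n2 := ndB5q3) (pc := pcB2) (cut := cut_B05mm_023_s1) (xt := Ext.none) (P1 := 0) (W1 := 536870912) (P2 := 0) (W2 := 1230186008) (P3 := 1020054732) (W3 := 13421774)
    rfl k0_B05mm_023_s1

theorem s_B05mm_023_s1 {κ x : ℝ} (hκ : κ * h0 = ken x) (hx : ((1020054732 : ℕ) : ℝ) / S ≤ x)
    (hx' : x ≤ (((1020054732 : ℕ) : ℝ) + (13421774 : ℕ)) / S) :
    AltB (VFD κ) PP tK tL pcB [⟨3, 0, 0, 1449551462⟩] 0 2 3 0 5 (sgb false) (sgb false) x :=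
  strip_altBD (m := 1449551462) true rfl hκ (SH.κ0 hκ (SH.hx1 hx).le (SH.hx2 hx').le) (SH.hx1 hx).le (SH.hx2 hx') (covB00).cov (covB53).cov hx hx' c_B05mm_023_s1 cutB_nil (noExt_B)

noncomputable def cut_B05mm_033_s1 : Cut := Cut.of [[⟨4, 0, 0, 1449551462⟩]]

noncomputable def f_B05mm_033_s1 : ℕ → ℕ → ℕ → ℕ → Bool := onCell 0 536870912 0 1230186008 1020054732 13421774
    (rowF 0 false false false .pnn 0 3 3 (qsf 0 536870912 0 1230186008 3) ndB0q0 ndB5q3 pcB3 cut_B05mm_033_s1 Ext.none)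

def k0_B05mm_033_s1 : ∃ t, chk3 f_B05mm_033_s1 t 1 1 1 = true :=
  ⟨(l 5), by decide +kernel⟩

theorem c_B05mm_033_s1 : CertF 0 536870912 0 1230186008 1020054732 13421774 false false false .pnn 0 3 3
    ndB0q0 ndB5q3 pcB3 cut_B05mm_033_s1 Ext.none :=
  certF0 (fam := false) (s1 := false) (s2 := false) (a := 0) (b := 3) (c := 3) (cn := .pnn) (n1 := ndB0q0) (n2 := ndB5q3) (pc := pcB3) (cut := cut_B05mm_033_s1) (xt := Ext.none) (P1 := 0) (W1 := 536870912) (P2 := 0) (W2 := 1230186008) (P3 := 1020054732) (W3 := 13421774)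
    rfl k0_B05mm_033_s1

theorem s_B05mm_033_s1 {κ x : ℝ} (hκ : κ * h0 = ken x) (hx : ((1020054732 : ℕ) : ℝ) / S ≤ x)
    (hx' : x ≤ (((1020054732 : ℕ) : ℝ) + (13421774 : ℕ)) / S) :
    AltB (VFD κ) PP tK tL pcB [⟨3, 0, 0, 1449551462⟩] 0 3 3 0 5 (sgb false) (sgb false) x :=
  strip_altBD (m := 1449551462) true rfl hκ (SH.κ0 hκ (SH.hx1 hx).le (SH.hx2 hx').le) (SH.hx1 hx).le (SH.hx2 hx') (covB00).cov (covB53).cov hx hx' c_B05mm_033_s1 cutB_nil (noExt_B)

noncomputable def cut_B05mm_101_s1 : Cut := Cut.of [[⟨4, 0, 0, 1449551462⟩], [⟨0, 1, 0, 38347922⟩, ⟨1, 0, 0, 38347922⟩, ⟨2, 1, 0, 38347922⟩]]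

noncomputable def f_B05mm_101_s1 : ℕ → ℕ → ℕ → ℕ → Bool := onCell 536870912 536870912 0 536870912 1020054732 13421774
    (rowF 1 false false false .npn 1 0 1 (qsf 536870912 536870912 536870912 536870912 0) ndB0q1 ndB5q1 pcB0 cut_B05mm_101_s1 Ext.none)

def k0_B05mm_101_s1 : ∃ t, chk3 f_B05mm_101_s1 t 1 1 1 = true :=
  ⟨(a (l 3) (b (a (l 3) (b (a (l 3) (a (l 3) (b (b (l 14) (l 3)) (l 2)))) (l 3))) (l 3))), by decide +kernel⟩

theorem c_B05mm_101_s1 : CertF 536870912 536870912 536870912 536870912 1020054732 13421774 false false false .npn 1 0 1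
    ndB0q1 ndB5q1 pcB0 cut_B05mm_101_s1 Ext.none :=
  certF1 (fam := false) (s1 := false) (s2 := false) (a := 1) (b := 0) (c := 1) (cn := .npn) (n1 := ndB0q1) (n2 := ndB5q1) (pc := pcB0) (cut := cut_B05mm_101_s1) (xt := Ext.none) (P1 := 536870912) (W1 := 536870912) (P2 := 536870912) (W2 := 536870912) (P3 := 1020054732) (W3 := 13421774)
    rfl (fun _ => rfl) k0_B05mm_101_s1

theorem s_B05mm_101_s1 {κ x : ℝ} (hκ : κ * h0 = ken x) (hx : ((1020054732 : ℕ) : ℝ) / S ≤ x)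
    (hx' : x ≤ (((1020054732 : ℕ) : ℝ) + (13421774 : ℕ)) / S)
    (H : CutB (VFD κ) PP tK tL pcB (Cut.of [[⟨0, 1, 0, 38347922⟩, ⟨1, 0, 0, 38347922⟩, ⟨2, 1, 0, 38347922⟩]]) 1 0 1 0 5 (sgb false) (sgb false) x) :
    AltB (VFD κ) PP tK tL pcB [⟨3, 0, 0, 1449551462⟩] 1 0 1 0 5 (sgb false) (sgb false) x :=
  strip_altBD (m := 1449551462) true rfl hκ (SH.κ0 hκ (SH.hx1 hx).le (SH.hx2 hx').le) (SH.hx1 hx).le (SH.hx2 hx') (covB01).cov (covB51).cov hx hx' c_B05mm_101_s1 H (noExt_B)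

noncomputable def cut_B05mm_102_s1 : Cut := Cut.of [[⟨4, 0, 0, 1449551462⟩], [⟨0, 1, 0, 38347922⟩, ⟨1, 0, 0, 38347922⟩, ⟨2, 1, 0, 38347922⟩]]

noncomputable def f_B05mm_102_s1 : ℕ → ℕ → ℕ → ℕ → Bool := onCell 536870912 536870912 0 536870912 1020054732 13421774
    (rowF 1 false false false .npp 1 0 2 (qsf 536870912 536870912 1073741824 536870912 0) ndB0q1 ndB5q2 pcB0 cut_B05mm_102_s1 Ext.none)

def k0_B05mm_102_s1 : ∃ t, chk3 f_B05mm_102_s1 t 1 1 1 = true :=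
  ⟨(a (l 3) (b (a (l 3) (b (a (l 3) (b (a (l 3) (b (l 14) (l 3))) (l 3))) (l 3))) (l 3))), by decide +kernel⟩

theorem c_B05mm_102_s1 : CertF 536870912 536870912 1073741824 536870912 1020054732 13421774 false false false .npp 1 0 2
    ndB0q1 ndB5q2 pcB0 cut_B05mm_102_s1 Ext.none :=
  certF1 (fam := false) (s1 := false) (s2 := false) (a := 1) (b := 0) (c := 2) (cn := .npp) (n1 := ndB0q1) (n2 := ndB5q2) (pc := pcB0) (cut := cut_B05mm_102_s1) (xt := Ext.none) (P1 := 536870912) (W1 := 536870912) (P2 := 1073741824) (W2 := 536870912) (P3 := 1020054732) (W3 := 13421774)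
    rfl (fun _ => rfl) k0_B05mm_102_s1

theorem s_B05mm_102_s1 {κ x : ℝ} (hκ : κ * h0 = ken x) (hx : ((1020054732 : ℕ) : ℝ) / S ≤ x)
    (hx' : x ≤ (((1020054732 : ℕ) : ℝ) + (13421774 : ℕ)) / S)
    (H : CutB (VFD κ) PP tK tL pcB (Cut.of [[⟨0, 1, 0, 38347922⟩, ⟨1, 0, 0, 38347922⟩, ⟨2, 1, 0, 38347922⟩]]) 1 0 2 0 5 (sgb false) (sgb false) x) :
    AltB (VFD κ) PP tK tL pcB [⟨3, 0, 0, 1449551462⟩] 1 0 2 0 5 (sgb false) (sgb false) x :=
  strip_altBD (m := 1449551462) true rfl hκ (SH.κ0 hκ (SH.hx1 hx).le (SH.hx2 hx').le) (SH.hx1 hx).le (SH.hx2 hx') (covB01).cov (covB52).cov hx hx' c_B05mm_102_s1 H (noExt_B)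

noncomputable def cut_B05mm_112_s1 : Cut := Cut.of [[⟨4, 0, 0, 1449551462⟩]]

noncomputable def f_B05mm_112_s1 : ℕ → ℕ → ℕ → ℕ → Bool := onCell 536870912 536870912 1073741824 536870912 1020054732 13421774
    (rowF 2 false false false .dn 1 1 2 (qsf 536870912 536870912 1073741824 536870912 1) ndB0q1 ndB5q2 pcB1 cut_B05mm_112_s1 Ext.none)

def k0_B05mm_112_s1 : ∃ t, chk3 f_B05mm_112_s1 t 1 1 1 = true :=
  ⟨(a (l 3) (l 5)), by decide +kernel⟩

theorem c_B05mm_112_s1 : CertF 536870912 536870912 1073741824 536870912 1020054732 13421774 false false false .dn 1 1 2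
    ndB0q1 ndB5q2 pcB1 cut_B05mm_112_s1 Ext.none :=
  certF2 (fam := false) (s1 := false) (s2 := false) (a := 1) (b := 1) (c := 2) (cn := .dn) (n1 := ndB0q1) (n2 := ndB5q2) (pc := pcB1) (cut := cut_B05mm_112_s1) (xt := Ext.none) (P1 := 536870912) (W1 := 536870912) (P2 := 1073741824) (W2 := 536870912) (P3 := 1020054732) (W3 := 13421774)
    rfl (fun _ => rfl) k0_B05mm_112_s1

theorem s_B05mm_112_s1 {κ x : ℝ} (hκ : κ * h0 = ken x) (hx : ((1020054732 : ℕ) : ℝ) / S ≤ x)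
    (hx' : x ≤ (((1020054732 : ℕ) : ℝ) + (13421774 : ℕ)) / S) :
    AltB (VFD κ) PP tK tL pcB [⟨3, 0, 0, 1449551462⟩] 1 1 2 0 5 (sgb false) (sgb false) x :=
  strip_altBD (m := 1449551462) true rfl hκ (SH.κ0 hκ (SH.hx1 hx).le (SH.hx2 hx').le) (SH.hx1 hx).le (SH.hx2 hx') (covB01).cov (covB52).cov hx hx' c_B05mm_112_s1 cutB_nil (noExt_B)

noncomputable def cut_B05mm_113_s1 : Cut := Cut.of [[⟨4, 0, 0, 1449551462⟩]]

noncomputable def f_B05mm_113_s1 : ℕ → ℕ → ℕ → ℕ → Bool := onCell 536870912 536870912 0 1230186008 1020054732 13421774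
    (rowF 0 false false false .nn 1 1 3 (qsf 536870912 536870912 0 1230186008 1) ndB0q1 ndB5q3 pcB1 cut_B05mm_113_s1 Ext.none)

def k0_B05mm_113_s1 : ∃ t, chk3 f_B05mm_113_s1 t 1 1 1 = true :=
  ⟨(a (l 5) (b (l 5) (a (b (l 5) (l 3)) (l 3)))), by decide +kernel⟩

theorem c_B05mm_113_s1 : CertF 536870912 536870912 0 1230186008 1020054732 13421774 false false false .nn 1 1 3
    ndB0q1 ndB5q3 pcB1 cut_B05mm_113_s1 Ext.none :=
  certF0 (fam := false) (s1 := false) (s2 := false) (a := 1) (b := 1) (c := 3) (cn := .nn) (n1 := ndB0q1) (n2 := ndB5q3) (pc := pcB1) (cut := cut_B05mm_113_s1) (xt := Ext.none) (P1 := 536870912) (W1 := 536870912) (P2 := 0) (W2 := 1230186008) (P3 := 1020054732) (W3 := 13421774)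
    rfl k0_B05mm_113_s1

theorem s_B05mm_113_s1 {κ x : ℝ} (hκ : κ * h0 = ken x) (hx : ((1020054732 : ℕ) : ℝ) / S ≤ x)
    (hx' : x ≤ (((1020054732 : ℕ) : ℝ) + (13421774 : ℕ)) / S) :
    AltB (VFD κ) PP tK tL pcB [⟨3, 0, 0, 1449551462⟩] 1 1 3 0 5 (sgb false) (sgb false) x :=
  strip_altBD (m := 1449551462) true rfl hκ (SH.κ0 hκ (SH.hx1 hx).le (SH.hx2 hx').le) (SH.hx1 hx).le (SH.hx2 hx') (covB01).cov (covB53).cov hx hx' c_B05mm_113_s1 cutB_nil (noExt_B)

noncomputable def cut_B05mm_123_s1 : Cut := Cut.of [[⟨4, 0, 0, 1449551462⟩]]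

noncomputable def f_B05mm_123_s1 : ℕ → ℕ → ℕ → ℕ → Bool := onCell 1073741824 536870912 0 1230186008 1020054732 13421774
    (rowF 2 false false false .npn 1 2 3 (qsf 536870912 536870912 0 1230186008 2) ndB0q1 ndB5q3 pcB2 cut_B05mm_123_s1 Ext.none)

def k0_B05mm_123_s1 : ∃ t, chk3 f_B05mm_123_s1 t 1 1 1 = true :=
  ⟨(b (l 5) (l 5)), by decide +kernel⟩

theorem c_B05mm_123_s1 : CertF 536870912 536870912 0 1230186008 1020054732 13421774 false false false .npn 1 2 3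
    ndB0q1 ndB5q3 pcB2 cut_B05mm_123_s1 Ext.none :=
  certF2 (fam := false) (s1 := false) (s2 := false) (a := 1) (b := 2) (c := 3) (cn := .npn) (n1 := ndB0q1) (n2 := ndB5q3) (pc := pcB2) (cut := cut_B05mm_123_s1) (xt := Ext.none) (P1 := 536870912) (W1 := 536870912) (P2 := 0) (W2 := 1230186008) (P3 := 1020054732) (W3 := 13421774)
    rfl (fun _ => rfl) k0_B05mm_123_s1

theorem s_B05mm_123_s1 {κ x : ℝ} (hκ : κ * h0 = ken x) (hx : ((1020054732 : ℕ) : ℝ) / S ≤ x)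
    (hx' : x ≤ (((1020054732 : ℕ) : ℝ) + (13421774 : ℕ)) / S) :
    AltB (VFD κ) PP tK tL pcB [⟨3, 0, 0, 1449551462⟩] 1 2 3 0 5 (sgb false) (sgb false) x :=
  strip_altBD (m := 1449551462) true rfl hκ (SH.κ0 hκ (SH.hx1 hx).le (SH.hx2 hx').le) (SH.hx1 hx).le (SH.hx2 hx') (covB01).cov (covB53).cov hx hx' c_B05mm_123_s1 cutB_nil (noExt_B)

noncomputable def cut_B05mm_133_s1 : Cut := Cut.of [[⟨4, 0, 0, 1449551462⟩]]

noncomputable def f_B05mm_133_s1 : ℕ → ℕ → ℕ → ℕ → Bool := onCell 1610612736 536870912 0 1230186008 1020054732 13421774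
    (rowF 2 false false false .dn 1 3 3 (qsf 536870912 536870912 0 1230186008 3) ndB0q1 ndB5q3 pcB3 cut_B05mm_133_s1 Ext.none)

def k0_B05mm_133_s1 : ∃ t, chk3 f_B05mm_133_s1 t 1 1 1 = true :=
  ⟨(l 5), by decide +kernel⟩

theorem c_B05mm_133_s1 : CertF 536870912 536870912 0 1230186008 1020054732 13421774 false false false .dn 1 3 3
    ndB0q1 ndB5q3 pcB3 cut_B05mm_133_s1 Ext.none :=
  certF2 (fam := false) (s1 := false) (s2 := false) (a := 1) (b := 3) (c := 3) (cn := .dn) (n1 := ndB0q1) (n2 := ndB5q3) (pc := pcB3) (cut := cut_B05mm_133_s1) (xt := Ext.none) (P1 := 536870912) (W1 := 536870912) (P2 := 0) (W2 := 1230186008) (P3 := 1020054732) (W3 := 13421774)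
    rfl (fun _ => rfl) k0_B05mm_133_s1

theorem s_B05mm_133_s1 {κ x : ℝ} (hκ : κ * h0 = ken x) (hx : ((1020054732 : ℕ) : ℝ) / S ≤ x)
    (hx' : x ≤ (((1020054732 : ℕ) : ℝ) + (13421774 : ℕ)) / S) :
    AltB (VFD κ) PP tK tL pcB [⟨3, 0, 0, 1449551462⟩] 1 3 3 0 5 (sgb false) (sgb false) x :=
  strip_altBD (m := 1449551462) true rfl hκ (SH.κ0 hκ (SH.hx1 hx).le (SH.hx2 hx').le) (SH.hx1 hx).le (SH.hx2 hx') (covB01).cov (covB53).cov hx hx' c_B05mm_133_s1 cutB_nil (noExt_B)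

noncomputable def cut_B05mm_202_s1 : Cut := Cut.of [[⟨4, 0, 0, 1449551462⟩], [⟨0, 1, 0, 26843545⟩, ⟨1, 0, 0, 26843545⟩, ⟨2, 1, 0, 26843545⟩]]

noncomputable def xt_B05mm_202_s1 : Ext := strExt dd false false false .u2 .s2m .u0m .pp 2 0 2 rfl rfl gf0 vv ndB0q2 ndB5q2

noncomputable def f_B05mm_202_s1 : ℕ → ℕ → ℕ → ℕ → Bool := onCell 0 536870912 0 536870912 1020054732 13421774
    (rowF 1 false false false .pp 2 0 2 (qsf 0 536870912 1073741824 536870912 0) ndB0q2 ndB5q2 pcB0 cut_B05mm_202_s1 xt_B05mm_202_s1)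

def k0_B05mm_202_s1 : ∃ t, chk3 f_B05mm_202_s1 t 2 1 1 = true :=
  ⟨(b (a (a (l 6) (b (l 6) (b (l 6) (b (l 16312840) (a (l 6) (b (l 16507840) (l 16547712))))))) (b (a (a (l 6) (b (l 6) (l 6))) (b (b (l 6) (b (l 16136224) (l 16205224))) (b (b (l 16243368) (a (l 16237840) (b (l 16302400) (l 16315192)))) (b (a (l 16102256) (l 16368032)) (a (l 16322944) (l 16448336)))))) (b (a (b (a (l 6) (l 16153616)) (b (l 16376680) (l 16214712))) (b (a (l 16195264) (b (l 16537056) (a (l 16588392) (l 16623712)))) (a (b (l 16569520) (l 16604080)) (b (l 16630768) (l 16646704))))) (a (b (a (b (l 16481064) (l 16546272)) (b (l 16576936) (l 16603648))) (a (l 16578424) (l 16619224))) (b (a (l 16629864) (l 16663472)) (a (l 16652704) (b (l 16682944) (l 16693912)))))))) (b (a (b (a (b (l 6) (a (l 6) (l 16519576))) (b (a (l 16523176) (l 16577320)) (l 16584040))) (a (b (l 16530704) (l 16568264)) (b (l 16609736) (a (l 16620928) (l 423691404007)))))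 (b (a (b (l 16625776) (a (l 16634328) (b (l 16663472) (l 16675672)))) (b (a (b (l 16672592) (l 16684080)) (b (l 16705520) (l 531803663))) (a (b (l 16697016) (l 16712448)) (l 531451663)))) (a (b (a (b (l 16655768) (l 16668792)) (b (l 16689920) (l 16706456))) (a (b (l 16684272) (l 16701760)) (l 531592719))) (a (b (l 531482639) (l 531219727)) (b (l 531074831) (l 530790927)))))) (a (l 2) (a (l 2) (a (l 2) (l 3)))))), by decide +kernel⟩

def k1_B05mm_202_s1 : ∃ t, chk3 f_B05mm_202_s1 t 6 4 1 = true :=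
  ⟨(b (b (b (a (l 16202288) (a (l 16319000) (l 16399112))) (a (b (l 16221184) (l 16227784)) (b (l 16370336) (a (l 16335800) (b (l 16416848) (a (l 16394256) (l 16439352))))))) (b (a (b (l 16253144) (l 16290688)) (b (a (l 16361400) (a (l 16423400) (l 16475528))) (a (l 16321960) (l 16425232)))) (a (a (l 16306696) (b (l 16366440) (a (l 16283808) (l 16413936)))) (a (b (l 16368336) (l 16500472)) (b (l 16566168) (l 16615296)))))) (a (b (b (a (b (l 16343280) (l 16357208)) (b (l 16422032) (l 16464704))) (a (l 16322648) (l 16525976))) (a (b (l 16488408) (a (l 16543224) (l 16525992))) (b (a (l 16582368) (b (l 16625488) (l 16650088))) (a (b (l 16644120) (l 16646560)) (l 16651768))))) (b (a (b (l 16561168) (b (l 16546384) (a (l 16643792) (l 16653280)))) (b (a (b (l 16629792) (l 16666992)) (b (l 16586736) (l 16664016))) (a (b (l 16657824) (l 16659264)) (l 16670800)))) (a (b (a (b (l 16650576) (l 16647944)) (l 16657312)) (l 16667328))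 (b (a (l 16671440) (b (l 16682216) (l 16689320))) (a (l 16602072) (b (l 16697696) (l 16666840)))))))), by decide +kernel⟩

def k2_B05mm_202_s1 : ∃ t, chk3 f_B05mm_202_s1 t 6 5 1 = true :=
  ⟨(b (a (b (a (b (a (l 16620928) (l 16649352)) (l 16658120)) (b (l 16660520) (l 16676584))) (a (l 16674776) (b (l 16607056) (a (l 16700696) (l 16714152))))) (b (b (a (a (l 16676632) (l 16687776)) (a (b (l 16698480) (l 16709688)) (l 529689615))) (a (a (l 16690912) (b (l 16700640) (l 16711736))) (a (l 529068815) (l 530296847)))) (a (a (b (l 16668048) (l 16730968)) (b (l 16645112) (l 531681551))) (a (b (l 530999567) (l 531569423)) (b (l 530886927) (l 531457551)))))) (a (a (b (b (l 16694160) (l 16704888)) (b (l 16673320) (l 531962639))) (b (a (b (l 16719176) (l 16729288)) (l 532326671)) (l 531696143))) (a (b (a (l 532122639) (l 531906831)) (a (l 531366159) (l 3))) (b (a (l 531677967) (l 3)) (l 3))))), by decide +kernel⟩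

def k3_B05mm_202_s1 : ∃ t, chk3 f_B05mm_202_s1 t 14 4 1 = true :=
  ⟨(b (b (b (a (b (l 16476704) (l 16367288)) (b (a (l 16543224) (b (l 16590216) (l 16589784))) (a (b (l 16553272) (l 16554040)) (b (l 16593136) (l 16603600))))) (b (a (a (l 16479400) (b (l 16516984) (l 16524544))) (a (l 16573856) (l 16544288))) (b (a (a (l 16478752) (l 16540512)) (l 16631912)) (a (l 16443312) (a (l 16624472) (a (l 16674600) (l 16708608))))))) (b (a (b (b (l 16471512) (l 16503056)) (l 16547752)) (b (a (l 16670600) (b (l 16634344) (l 16666576))) (a (b (l 16704072) (l 16693688)) (a (l 16701696) (l 16713952))))) (a (b (a (l 16655896) (l 16604456)) (a (b (l 16681568) (l 16671528)) (a (l 16674728) (l 16684824)))) (a (b (l 16609648) (l 16700200)) (b (a (l 16709440) (l 16719704)) (a (l 16631688) (b (l 16641672) (l 16647304)))))))) (b (b (a (a (b (l 16672240) (l 16675864)) (l 16606624)) (a (b (a (l 16701328) (l 16627576)) (a (l 16624096) (l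 16637632))) (a (b (a (l 16636776) (l 16644656)) (l 16738424)) (l 526958095)))) (a (a (l 16687032) (b (l 16616992) (a (l 16619800) (l 16633080)))) (a (a (b (l 16634920) (l 16733144)) (l 527410191)) (a (l 527397391) (l 527374607))))) (a (a (b (b (l 16698408) (a (l 16618184) (l 16631120))) (a (l 16637784) (l 528922639))) (b (a (b (l 16631944) (l 16730192)) (l 528163343)) (a (l 528866063) (l 528809743)))) (a (b (a (l 528096527) (l 528036623)) (l 528723471)) (a (b (l 528016143) (l 3)) (l 3)))))), by decide +kernel⟩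

def k4_B05mm_202_s1 : ∃ t, chk3 f_B05mm_202_s1 t 15 16 1 = true :=
  ⟨(b (a (b (a (b (l 16546368) (l 16632576)) (b (l 16589128) (l 16594000))) (a (a (l 16633656) (l 16575000)) (b (a (l 16677024) (l 16704376)) (a (l 16695232) (a (l 16717432) (l 16702824)))))) (a (b (a (b (l 14) (l 16632928)) (l 14)) (a (a (b (l 16726352) (b (l 16743416) (l 16751016))) (b (b (l 16736112) (l 16747168)) (b (l 16754280) (l 16757520)))) (b (a (b (l 14) (a (l 16756224) (l 16759816))) (l 14)) (a (l 16761200) (a (b (l 16763640) (l 16765024)) (b (l 16765784) (b (l 16766816) (l 16768112)))))))) (b (l 14) (a (b (l 14) (a (a (b (l 14) (l 16765648)) (l 14)) (l 14))) (l 14))))) (a (b (a (b (l 16590408) (a (l 16683368) (l 16631736))) (a (b (a (l 16710896) (l 16727392)) (a (l 16735248) (l 16742552))) (b (a (a (l 16737888) (l 16742960)) (l 16727080)) (l 16751016)))) (b (a (a (l 16711824) (a (l 16731920) (l 16734632))) (a (l 16742696) (a (l 16752416)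 (l 16758016)))) (a (a (b (l 16724192) (l 16677576)) (l 16731128)) (a (l 16745168) (a (l 16754672) (l 16750472)))))) (a (b (a (a (b (l 16754824) (b (l 16757216) (l 16759376))) (b (l 16759440) (b (l 16762288) (l 16764560)))) (b (a (b (l 16763352) (a (l 16763816) (l 16766504))) (a (b (l 16766920) (l 16769864)) (l 528696591))) (a (a (a (l 16766800) (l 16768504)) (l 530148367)) (a (l 530217999) (l 530287375))))) (a (a (b (b (l 16761784) (l 16764352)) (l 530107663)) (a (l 530405903) (l 530298127))) (a (a (l 530189327) (l 530079759)) (a (l 529432079) (l 3))))) (b (a (a (a (a (l 529894415) (l 529929743)) (a (l 528891151) (b (l 529669135) (l 3)))) (l 3)) (l 3)) (l 3))))), by decide +kernel⟩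

def k5_B05mm_202_s1 : ∃ t, chk3 f_B05mm_202_s1 t 15 17 1 = true :=
  ⟨(a (b (a (b (a (l 16720840) (l 16734104)) (a (b (l 16724240) (l 16726536)) (b (l 16736816) (a (l 16736024) (l 16660440))))) (b (a (b (l 16746760) (a (l 16744984) (l 16752744))) (a (b (l 16757184) (l 16739264)) (b (l 16742688) (l 528325647)))) (a (a (b (l 16748296) (l 16753104)) (l 527334927)) (a (l 527427087) (l 527464719))))) (b (a (a (b (l 16646016) (l 16693016)) (b (l 16703632) (c (l 16733408) (l 16729528)))) (a (a (c (l 527334671) (l 525175311)) (l 526679567)) (a (l 526780687) (l 3)))) (a (a (l 526736655) (a (l 526662159) (l 526639119))) (a (a (b (l 526561551) (l 525913615)) (b (l 526701327) (l 3))) (l 3))))) (b (a (a (a (b (a (l 528899343) (l 528797711)) (a (l 527459599) (l 3))) (b (a (l 528689935) (l 528581135)) (l 3))) (l 3)) (l 3)) (l 3))), by decide +kernel⟩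

def k6_B05mm_202_s1 : ∃ t, chk3 f_B05mm_202_s1 t 15 9 1 = true :=
  ⟨(b (a (a (a (b (l 526920719) (l 527339791)) (b (l 526869775) (l 3))) (l 3)) (l 3)) (l 3)), by decide +kernel⟩

def k7_B05mm_202_s1 : ∃ t, chk3 f_B05mm_202_s1 t 7 5 1 = true :=
  ⟨(b (a (a (b (a (b (l 529575439) (l 530183951)) (a (b (l 529491215) (l 530100495)) (b (l 529435407) (l 3)))) (a (b (l 530774799) (l 3)) (l 3))) (l 3)) (l 3)) (l 3)), by decide +kernel⟩

def k8_B05mm_202_s1 : ∃ t, chk3 f_B05mm_202_s1 t 3 3 1 = true :=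
  ⟨(b (a (a (b (a (b (l 531517199) (l 531016719)) (b (l 531063823) (l 3))) (l 3)) (l 3)) (l 3)) (l 3)), by decide +kernel⟩

theorem t9_B05mm_202_s1 : ∃ t, chk3 f_B05mm_202_s1 t 15 8 1 = true := ex3_b k4_B05mm_202_s1 k5_B05mm_202_s1

theorem t10_B05mm_202_s1 : ∃ t, chk3 f_B05mm_202_s1 t 15 4 1 = true := ex3_b t9_B05mm_202_s1 k6_B05mm_202_s1

theorem t11_B05mm_202_s1 : ∃ t, chk3 f_B05mm_202_s1 t 7 4 1 = true := ex3_a k3_B05mm_202_s1 t10_B05mm_202_s1

theorem t12_B05mm_202_s1 : ∃ t, chk3 f_B05mm_202_s1 t 7 2 1 = true := ex3_b t11_B05mm_202_s1 k7_B05mm_202_s1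

theorem t13_B05mm_202_s1 : ∃ t, chk3 f_B05mm_202_s1 t 6 2 1 = true := ex3_b k1_B05mm_202_s1 k2_B05mm_202_s1

theorem t14_B05mm_202_s1 : ∃ t, chk3 f_B05mm_202_s1 t 3 2 1 = true := ex3_a t13_B05mm_202_s1 t12_B05mm_202_s1

theorem t15_B05mm_202_s1 : ∃ t, chk3 f_B05mm_202_s1 t 3 1 1 = true := ex3_b t14_B05mm_202_s1 k8_B05mm_202_s1

theorem t16_B05mm_202_s1 : ∃ t, chk3 f_B05mm_202_s1 t 1 1 1 = true := ex3_a k0_B05mm_202_s1 t15_B05mm_202_s1

theorem c_B05mm_202_s1 : CertF 0 536870912 1073741824 536870912 1020054732 13421774 false false false .pp 2 0 2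
    ndB0q2 ndB5q2 pcB0 cut_B05mm_202_s1 xt_B05mm_202_s1 :=
  certF1 (fam := false) (s1 := false) (s2 := false) (a := 2) (b := 0) (c := 2) (cn := .pp) (n1 := ndB0q2) (n2 := ndB5q2) (pc := pcB0) (cut := cut_B05mm_202_s1) (xt := xt_B05mm_202_s1) (P1 := 0) (W1 := 536870912) (P2 := 1073741824) (W2 := 536870912) (P3 := 1020054732) (W3 := 13421774)
    rfl (fun _ => rfl) t16_B05mm_202_s1

theorem s_B05mm_202_s1 {κ x : ℝ} (hκ : κ * h0 = ken x) (hx : ((1020054732 : ℕ) : ℝ) / S ≤ x)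
    (hx' : x ≤ (((1020054732 : ℕ) : ℝ) + (13421774 : ℕ)) / S)
    (H : CutB (VFD κ) PP tK tL pcB (Cut.of [[⟨0, 1, 0, 26843545⟩, ⟨1, 0, 0, 26843545⟩, ⟨2, 1, 0, 26843545⟩]]) 2 0 2 0 5 (sgb false) (sgb false) x) :
    AltB (VFD κ) PP tK tL pcB [⟨3, 0, 0, 1449551462⟩] 2 0 2 0 5 (sgb false) (sgb false) x :=
  strip_altBD (m := 1449551462) true rfl hκ (SH.κ0 hκ (SH.hx1 hx).le (SH.hx2 hx').le) (SH.hx1 hx).le (SH.hx2 hx') (covB02).cov (covB52).cov hx hx' c_B05mm_202_s1 H ((okx hx hx').extB (T := tt) (sideB hx hx') hκ rfl rfl (.O 2 false) (.N 2 false) (Or.inl rfl))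

noncomputable def cut_B05mm_203_s1 : Cut := Cut.of [[⟨4, 0, 0, 1449551462⟩]]

noncomputable def xt_B05mm_203_s1 : Ext := strExt dd false false false .u2 .s2m .u0m .up 2 0 3 rfl rfl gf0 vv ndB0q2 ndB5q3

noncomputable def f_B05mm_203_s1 : ℕ → ℕ → ℕ → ℕ → Bool := onCell 0 536870912 0 1230186008 1020054732 13421774
    (rowF 0 false false false .up 2 0 3 (qsf 0 536870912 0 1230186008 0) ndB0q2 ndB5q3 pcB0 cut_B05mm_203_s1 xt_B05mm_203_s1)

def k0_B05mm_203_s1 : ∃ t, chk3 f_B05mm_203_s1 t 1 1 1 = true :=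
  ⟨(b (l 2) (b (l 2) (a (a (b (b (l 2) (a (l 532622095) (b (l 2) (l 532241167)))) (b (a (b (a (b (l 16664296) (l 16647320)) (l 16738856)) (a (l 16622256) (b (l 16667792) (l 16650608)))) (b (l 532138767) (l 532097295))) (a (b (a (l 16587120) (l 16625824)) (l 16572424)) (b (a (b (l 16671440) (l 16654168)) (l 532007183)) (a (l 16545872) (b (l 16591448) (l 16658200))))))) (b (l 3) (b (a (b (l 3) (l 530999823)) (l 3)) (a (b (l 529936143) (l 531655695)) (b (l 3) (a (l 531062799) (l 3))))))) (l 3)))), by decide +kernel⟩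

theorem c_B05mm_203_s1 : CertF 0 536870912 0 1230186008 1020054732 13421774 false false false .up 2 0 3
    ndB0q2 ndB5q3 pcB0 cut_B05mm_203_s1 xt_B05mm_203_s1 :=
  certF0 (fam := false) (s1 := false) (s2 := false) (a := 2) (b := 0) (c := 3) (cn := .up) (n1 := ndB0q2) (n2 := ndB5q3) (pc := pcB0) (cut := cut_B05mm_203_s1) (xt := xt_B05mm_203_s1) (P1 := 0) (W1 := 536870912) (P2 := 0) (W2 := 1230186008) (P3 := 1020054732) (W3 := 13421774)
    rfl k0_B05mm_203_s1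

theorem s_B05mm_203_s1 {κ x : ℝ} (hκ : κ * h0 = ken x) (hx : ((1020054732 : ℕ) : ℝ) / S ≤ x)
    (hx' : x ≤ (((1020054732 : ℕ) : ℝ) + (13421774 : ℕ)) / S) :
    AltB (VFD κ) PP tK tL pcB [⟨3, 0, 0, 1449551462⟩] 2 0 3 0 5 (sgb false) (sgb false) x :=
  strip_altBD (m := 1449551462) true rfl hκ (SH.κ0 hκ (SH.hx1 hx).le (SH.hx2 hx').le) (SH.hx1 hx).le (SH.hx2 hx') (covB02).cov (covB53).cov hx hx' c_B05mm_203_s1 cutB_nil ((okx hx hx').extB (T := tt) (sideB hx hx') hκ rfl rfl (.O 2 false) (.N 3 false) (Or.inl rfl))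

noncomputable def cut_B05mm_213_s1 : Cut := Cut.of [[⟨4, 0, 0, 1449551462⟩]]

noncomputable def xt_B05mm_213_s1 : Ext := strExt dd false false false .u2 .s2m .u0m .pnn 2 1 3 rfl rfl gf1 vv ndB0q2 ndB5q3

noncomputable def f_B05mm_213_s1 : ℕ → ℕ → ℕ → ℕ → Bool := onCell 0 536870912 0 1230186008 1020054732 13421774
    (rowF 0 false false false .pnn 2 1 3 (qsf 0 536870912 0 1230186008 1) ndB0q2 ndB5q3 pcB1 cut_B05mm_213_s1 xt_B05mm_213_s1)

def k0_B05mm_213_s1 : ∃ t, chk3 f_B05mm_213_s1 t 1 1 1 = true :=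
  ⟨(b (a (l 3) (a (l 3) (l 5))) (a (b (a (b (l 3) (l 3)) (l 3)) (b (a (b (a (c (b (l 525871119) (l 525093647)) (b (l 533680655) (l 533280271))) (l 3)) (b (a (c (l 524466959) (l 533009935)) (a (c (l 524009999) (l 532718863)) (l 3))) (a (c (l 524055567) (l 532944399)) (a (c (l 523565327) (l 532625679)) (l 3))))) (l 3)) (a (l 1) (b (a (l 1) (l 3)) (l 1))))) (b (l 3) (l 3)))), by decide +kernel⟩

theorem c_B05mm_213_s1 : CertF 0 536870912 0 1230186008 1020054732 13421774 false false false .pnn 2 1 3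
    ndB0q2 ndB5q3 pcB1 cut_B05mm_213_s1 xt_B05mm_213_s1 :=
  certF0 (fam := false) (s1 := false) (s2 := false) (a := 2) (b := 1) (c := 3) (cn := .pnn) (n1 := ndB0q2) (n2 := ndB5q3) (pc := pcB1) (cut := cut_B05mm_213_s1) (xt := xt_B05mm_213_s1) (P1 := 0) (W1 := 536870912) (P2 := 0) (W2 := 1230186008) (P3 := 1020054732) (W3 := 13421774)
    rfl k0_B05mm_213_s1

theorem s_B05mm_213_s1 {κ x : ℝ} (hκ : κ * h0 = ken x) (hx : ((1020054732 : ℕ) : ℝ) / S ≤ x)
    (hx' : x ≤ (((1020054732 : ℕ) : ℝ) + (13421774 : ℕ)) / S) :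
    AltB (VFD κ) PP tK tL pcB [⟨3, 0, 0, 1449551462⟩] 2 1 3 0 5 (sgb false) (sgb false) x :=
  strip_altBD (m := 1449551462) true rfl hκ (SH.κ0 hκ (SH.hx1 hx).le (SH.hx2 hx').le) (SH.hx1 hx).le (SH.hx2 hx') (covB02).cov (covB53).cov hx hx' c_B05mm_213_s1 cutB_nil ((okx hx hx').extB (T := tt) (sideB hx hx') hκ rfl rfl (.O 2 false) (.N 3 false) (Or.inr rfl))

noncomputable def cut_B50pp_001_s1 : Cut := Cut.of [[⟨4, 0, 0, 1449551462⟩]]

noncomputable def xt_B50pp_001_s1 : Ext := strExt dd false true true .s0 .u0 .u0m .up 0 0 1 rfl rfl gf0 vv ndB5q0 ndB0q1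

noncomputable def f_B50pp_001_s1 : ℕ → ℕ → ℕ → ℕ → Bool := onCell 0 536870912 536870912 536870912 1020054732 13421774
    (rowF 2 false true true .up 0 0 1 (qsf 0 536870912 536870912 536870912 0) ndB5q0 ndB0q1 pcB0 cut_B50pp_001_s1 xt_B50pp_001_s1)

def k0_B50pp_001_s1 : ∃ t, chk3 f_B50pp_001_s1 t 1 1 1 = true :=
  ⟨(a (b (l 3) (b (b (l 3) (l 2)) (l 2))) (b (a (l 3) (b (l 3) (a (b (l 3) (l 523655439)) (b (l 523411215) (a (l 524332559) (l 524340495)))))) (b (a (a (b (a (l 3) (l 526264335)) (a (l 2) (l 526971663))) (b (a (l 525845519) (l 525511183)) (a (l 526540559) (l 526198287)))) (b (a (a (l 525265423) (l 525111567)) (b (l 524863503) (l 525213967))) (a (b (l 525658639) (a (b (l 16533144) (l 16411216)) (b (l 16388400) (l 16436560)))) (b (a (b (l 16488472) (l 16450456)) (b (l 16430232) (l 16395664))) (a (l 16312888) (l 16340952)))))) (b (a (a (l 2) (b (a (l 2) (b (l 16434736) (l 2))) (l 2))) (a (b (a (a (l 16371320)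 (l 16425112)) (l 16296080)) (a (l 16279800) (l 16220648))) (b (a (l 16322832) (l 16267888)) (a (l 16247032) (l 16191808))))) (a (l 2) (b (a (a (l 2) (l 16226168)) (a (l 16168120) (l 6))) (a (l 2) (l 6)))))))), by decide +kernel⟩

theorem c_B50pp_001_s1 : CertF 0 536870912 536870912 536870912 1020054732 13421774 false true true .up 0 0 1
    ndB5q0 ndB0q1 pcB0 cut_B50pp_001_s1 xt_B50pp_001_s1 :=
  certF2 (fam := false) (s1 := true) (s2 := true) (a := 0) (b := 0) (c := 1) (cn := .up) (n1 := ndB5q0) (n2 := ndB0q1) (pc := pcB0) (cut := cut_B50pp_001_s1) (xt := xt_B50pp_001_s1) (P1 := 0) (W1 := 536870912) (P2 := 536870912) (W2 := 536870912) (P3 := 1020054732) (W3 := 13421774)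
    rfl (fun _ => rfl) k0_B50pp_001_s1

theorem s_B50pp_001_s1 {κ x : ℝ} (hκ : κ * h0 = ken x) (hx : ((1020054732 : ℕ) : ℝ) / S ≤ x)
    (hx' : x ≤ (((1020054732 : ℕ) : ℝ) + (13421774 : ℕ)) / S) :
    AltB (VFD κ) PP tK tL pcB [⟨3, 0, 0, 1449551462⟩] 0 0 1 5 0 (sgb true) (sgb true) x :=
  strip_altBD (m := 1449551462) true rfl hκ (SH.κ0 hκ (SH.hx1 hx).le (SH.hx2 hx').le) (SH.hx1 hx).le (SH.hx2 hx') (covB50).cov (covB01).cov hx hx' c_B50pp_001_s1 cutB_nil ((okx hx hx').extB (T := tt) (sideB hx hx') hκ rfl rfl (.N 0 true) (.O 1 true) (Or.inl rfl))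

noncomputable def cut_B50pp_011_s1 : Cut := Cut.of [[⟨4, 0, 0, 1449551462⟩]]

noncomputable def xt_B50pp_011_s1 : Ext := strExt dd false true true .s0 .u0 .u0m .pnn 0 1 1 rfl rfl gf1 vv ndB5q0 ndB0q1

noncomputable def f_B50pp_011_s1 : ℕ → ℕ → ℕ → ℕ → Bool := onCell 536870912 536870912 536870912 536870912 1020054732 13421774
    (rowF 2 false true true .pnn 0 1 1 (qsf 0 536870912 536870912 536870912 1) ndB5q0 ndB0q1 pcB1 cut_B50pp_011_s1 xt_B50pp_011_s1)

def k0_B50pp_011_s1 : ∃ t, chk3 f_B50pp_011_s1 t 2 2 1 = true :=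
  ⟨(a (b (b (a (l 3) (a (a (l 3) (l 1)) (l 1))) (a (c (a (l 534837263) (l 534973199)) (a (l 528099855) (l 527473167))) (c (a (c (l 536120079) (l 532722447)) (c (l 534821135) (l 531419151))) (a (l 526056975) (l 524885263))))) (a (c (b (a (l 533423631) (l 533794319)) (a (l 531760911) (l 532321551))) (b (a (l 529084175) (l 528735503)) (a (l 528883471) (l 528498959)))) (b (c (a (l 533285903) (c (l 534657295) (l 531855631))) (a (l 527669519) (l 526535439))) (a (c (l 532667919) (l 527960335)) (b (c (l 532875023) (l 527767311)) (a (c (l 16641288) (l 16517504)) (b (l 16407336) (l 16218432)))))))) (b (a (a (a (b (l 1) (c (l 531895311) (l 525688079))) (l 1)) (l 1)) (l 1)) (a (b (c (a (c (l 533648399) (l 530508047)) (a (l 530813711) (l 156798958599))) (a (l 524389903) (a (l 525069839) (l 524665359)))) (b (a (c (l 16463464) (l 16284416)) (c (a (l 16399536) (l 16342136)) (a (l 16289776) (l 16231224)))) (a (a (c (l 16345816) (l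 16258904)) (b (l 16155728) (l 16282864))) (a (b (l 16175744) (l 16299104)) (l 16083000))))) (b (b (l 1) (a (a (l 418254543351) (l 1)) (l 1))) (a (b (a (b (l 16040536) (l 16245168)) (l 201895206247)) (a (l 16096272) (l 16109600))) (b (a (l 15983168) (l 1)) (a (l 16133760) (l 16081960)))))))), by decide +kernel⟩

def k1_B50pp_011_s1 : ∃ t, chk3 f_B50pp_011_s1 t 2 3 1 = true :=
  ⟨(b (a (a (b (a (b (c (l 530396175) (l 529948175)) (b (c (l 16573592) (l 16499240)) (a (b (l 16479424) (l 16379304)) (c (l 16532760) (l 16467376))))) (b (a (l 529563151) (b (l 16440928) (l 16331048))) (b (a (b (l 16404904) (l 16389704)) (b (l 16309048) (l 16377112))) (c (l 16444696) (l 16263240))))) (a (b (a (b (c (l 16506080) (l 16460736)) (l 16340720)) (b (l 16352392) (l 16332192))) (c (l 16217512) (b (l 16423904) (l 16362016)))) (c (b (l 16320248) (l 16335216)) (b (c (l 16473112) (l 16387520)) (l 16318336))))) (c (b (b (a (b (l 16531464)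 (a (l 16586504) (l 16575328))) (a (b (l 16597496) (l 16554536)) (l 16463960))) (a (l 16273880) (l 16310648))) (a (b (l 16294400) (l 16308696)) (b (l 16352200) (l 16195728)))) (b (b (a (b (l 16287560) (a (l 16450600) (l 16491872))) (a (l 16209240) (l 16325224))) (a (c (l 16491688) (l 16395448)) (l 16263760))) (b (a (l 16261536) (l 16256096)) (a (l 16240504) (l 16159592)))))) (a (b (a (c (b (l 16230408) (l 16362464)) (b (l 16158768) (l 16247352))) (b (a (l 16145600) (l 16164160)) (c (l 16226080) (l 16145008)))) (a (b (c (l 16227384) (l 16164216)) (l 6)) (l 6))) (b (a (b (a (l 16182584) (l 16117264)) (c (l 16090192) (l 16041712))) (b (a (l 16052304) (l 15988024)) (l 6))) (l 6)))) (b (a (a (a (b (c (l 16157600) (l 16264104)) (c (l 15936016) (l 16043824))) (b (c (l 16227616) (l 16114784)) (l 6))) (b (l 6) (l 6))) (l 6)) (l 6))), by decide +kernel⟩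

def k2_B50pp_011_s1 : ∃ t, chk3 f_B50pp_011_s1 t 3 1 1 = true :=
  ⟨(b (a (b (l 1) (b (l 1) (a (b (l 1) (a (l 522406595383) (l 1))) (l 1)))) (l 1)) (b (a (a (l 6) (l 6)) (l 6)) (l 6))), by decide +kernel⟩

theorem t3_B50pp_011_s1 : ∃ t, chk3 f_B50pp_011_s1 t 2 1 1 = true := ex3_b k0_B50pp_011_s1 k1_B50pp_011_s1

theorem t4_B50pp_011_s1 : ∃ t, chk3 f_B50pp_011_s1 t 1 1 1 = true := ex3_a t3_B50pp_011_s1 k2_B50pp_011_s1

theorem c_B50pp_011_s1 : CertF 0 536870912 536870912 536870912 1020054732 13421774 false true true .pnn 0 1 1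
    ndB5q0 ndB0q1 pcB1 cut_B50pp_011_s1 xt_B50pp_011_s1 :=
  certF2 (fam := false) (s1 := true) (s2 := true) (a := 0) (b := 1) (c := 1) (cn := .pnn) (n1 := ndB5q0) (n2 := ndB0q1) (pc := pcB1) (cut := cut_B50pp_011_s1) (xt := xt_B50pp_011_s1) (P1 := 0) (W1 := 536870912) (P2 := 536870912) (W2 := 536870912) (P3 := 1020054732) (W3 := 13421774)
    rfl (fun _ => rfl) t4_B50pp_011_s1

theorem s_B50pp_011_s1 {κ x : ℝ} (hκ : κ * h0 = ken x) (hx : ((1020054732 : ℕ) : ℝ) / S ≤ x)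
    (hx' : x ≤ (((1020054732 : ℕ) : ℝ) + (13421774 : ℕ)) / S) :
    AltB (VFD κ) PP tK tL pcB [⟨3, 0, 0, 1449551462⟩] 0 1 1 5 0 (sgb true) (sgb true) x :=
  strip_altBD (m := 1449551462) true rfl hκ (SH.κ0 hκ (SH.hx1 hx).le (SH.hx2 hx').le) (SH.hx1 hx).le (SH.hx2 hx') (covB50).cov (covB01).cov hx hx' c_B50pp_011_s1 cutB_nil ((okx hx hx').extB (T := tt) (sideB hx hx') hκ rfl rfl (.N 0 true) (.O 1 true) (Or.inr rfl))

noncomputable def cut_B50pp_012_s1 : Cut := Cut.of [[⟨4, 0, 0, 1449551462⟩]]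

noncomputable def f_B50pp_012_s1 : ℕ → ℕ → ℕ → ℕ → Bool := onCell 0 536870912 0 536870912 1020054732 13421774
    (rowF 0 false true true .pnp 0 1 2 (qsf 0 536870912 0 536870912 1) ndB5q0 ndB0q2 pcB1 cut_B50pp_012_s1 Ext.none)

def k0_B50pp_012_s1 : ∃ t, chk3 f_B50pp_012_s1 t 1 1 1 = true :=
  ⟨(b (l 6) (l 6)), by decide +kernel⟩

theorem c_B50pp_012_s1 : CertF 0 536870912 0 536870912 1020054732 13421774 false true true .pnp 0 1 2
    ndB5q0 ndB0q2 pcB1 cut_B50pp_012_s1 Ext.none :=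
  certF0 (fam := false) (s1 := true) (s2 := true) (a := 0) (b := 1) (c := 2) (cn := .pnp) (n1 := ndB5q0) (n2 := ndB0q2) (pc := pcB1) (cut := cut_B50pp_012_s1) (xt := Ext.none) (P1 := 0) (W1 := 536870912) (P2 := 0) (W2 := 536870912) (P3 := 1020054732) (W3 := 13421774)
    rfl k0_B50pp_012_s1

theorem s_B50pp_012_s1 {κ x : ℝ} (hκ : κ * h0 = ken x) (hx : ((1020054732 : ℕ) : ℝ) / S ≤ x)
    (hx' : x ≤ (((1020054732 : ℕ) : ℝ) + (13421774 : ℕ)) / S) :
    AltB (VFD κ) PP tK tL pcB [⟨3, 0, 0, 1449551462⟩] 0 1 2 5 0 (sgb true) (sgb true) x :=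
  strip_altBD (m := 1449551462) true rfl hκ (SH.κ0 hκ (SH.hx1 hx).le (SH.hx2 hx').le) (SH.hx1 hx).le (SH.hx2 hx') (covB50).cov (covB02).cov hx hx' c_B50pp_012_s1 cutB_nil (noExt_B)

noncomputable def cut_B50pp_022_s1 : Cut := Cut.of [[⟨4, 0, 0, 1449551462⟩]]

noncomputable def f_B50pp_022_s1 : ℕ → ℕ → ℕ → ℕ → Bool := onCell 1073741824 536870912 0 536870912 1020054732 13421774
    (rowF 2 false true true .pp 0 2 2 (qsf 0 536870912 0 536870912 2) ndB5q0 ndB0q2 pcB2 cut_B50pp_022_s1 Ext.none)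

def k0_B50pp_022_s1 : ∃ t, chk3 f_B50pp_022_s1 t 1 1 1 = true :=
  ⟨(l 6), by decide +kernel⟩

theorem c_B50pp_022_s1 : CertF 0 536870912 0 536870912 1020054732 13421774 false true true .pp 0 2 2
    ndB5q0 ndB0q2 pcB2 cut_B50pp_022_s1 Ext.none :=
  certF2 (fam := false) (s1 := true) (s2 := true) (a := 0) (b := 2) (c := 2) (cn := .pp) (n1 := ndB5q0) (n2 := ndB0q2) (pc := pcB2) (cut := cut_B50pp_022_s1) (xt := Ext.none) (P1 := 0) (W1 := 536870912) (P2 := 0) (W2 := 536870912) (P3 := 1020054732) (W3 := 13421774)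
    rfl (fun _ => rfl) k0_B50pp_022_s1

theorem s_B50pp_022_s1 {κ x : ℝ} (hκ : κ * h0 = ken x) (hx : ((1020054732 : ℕ) : ℝ) / S ≤ x)
    (hx' : x ≤ (((1020054732 : ℕ) : ℝ) + (13421774 : ℕ)) / S) :
    AltB (VFD κ) PP tK tL pcB [⟨3, 0, 0, 1449551462⟩] 0 2 2 5 0 (sgb true) (sgb true) x :=
  strip_altBD (m := 1449551462) true rfl hκ (SH.κ0 hκ (SH.hx1 hx).le (SH.hx2 hx').le) (SH.hx1 hx).le (SH.hx2 hx') (covB50).cov (covB02).cov hx hx' c_B50pp_022_s1 cutB_nil (noExt_B)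

noncomputable def cut_B50pp_101_s1 : Cut := Cut.of [[⟨4, 0, 0, 1449551462⟩], [⟨0, 1, 0, 26843545⟩, ⟨1, 0, 0, 26843545⟩, ⟨2, 1, 0, 26843545⟩]]

noncomputable def xt_B50pp_101_s1 : Ext := strExt dd false true true .s0 .u0 .u0m .npn 1 0 1 rfl rfl gf0 vv ndB5q1 ndB0q1

noncomputable def f_B50pp_101_s1 : ℕ → ℕ → ℕ → ℕ → Bool := onCell 0 536870912 536870912 536870912 1020054732 13421774
    (rowF 2 false true true .npn 1 0 1 (qsf 536870912 536870912 536870912 536870912 0) ndB5q1 ndB0q1 pcB0 cut_B50pp_101_s1 xt_B50pp_101_s1)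

def k0_B50pp_101_s1 : ∃ t, chk3 f_B50pp_101_s1 t 2 2 1 = true :=
  ⟨(l 3), by decide +kernel⟩

def k1_B50pp_101_s1 : ∃ t, chk3 f_B50pp_101_s1 t 4 3 1 = true :=
  ⟨(b (l 3) (a (b (l 3) (b (b (l 3) (a (l 3) (a (l 3) (a (l 3) (a (l 3) (l 526238479)))))) (a (a (b (l 3) (b (b (l 3) (b (l 3) (b (l 3) (l 14)))) (l 14))) (b (b (l 3) (a (l 3) (b (l 3) (l 527793423)))) (a (a (b (b (l 3) (a (l 529269519) (l 529540879))) (b (b (a (l 529142543) (l 529411599)) (a (l 14) (l 16766056))) (l 14))) (b (b (l 530121231) (a (l 529811471) (l 530081551))) (b (b (l 529774095) (l 16742328)) (l 16757480)))) (a (b (b (l 530004495) (l 530350607)) (b (b (l 16764408) (l 16760224)) (l 16754000))) (b (b (l 529498127) (l 529839887)) (b (l 16757504) (l 16750288))))))) (b (a (b (a (l 3) (l 527247119)) (a (a (l 528493327) (l 527983119)) (a (l 527461135) (l 526802703)))) (b (a (l 526394639) (l 525954319)) (a (l 525272335) (l 523892495)))) (b (b (a (a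 (l 528687887) (l 527675663)) (a (l 16705304) (l 16636856))) (a (a (a (l 16759784) (l 16753456)) (a (l 16746464) (l 16739080))) (a (l 16727896) (l 16713520)))) (a (a (b (l 16727704) (l 16742432)) (l 16691600)) (a (l 16720536) (l 16707144)))))))) (b (a (l 3) (b (l 3) (a (l 3) (l 527717903)))) (b (b (a (a (l 3) (l 526789391)) (a (l 527184399) (l 527734543))) (a (a (l 526339087) (l 526639375)) (a (l 527039247) (b (l 16680808) (l 16700432))))) (b (b (a (a (a (l 526138127) (l 526378511)) (l 526770703)) (a (a (l 16619184) (l 16608776)) (l 16679696))) (a (a (b (l 525854223) (a (l 16633832) (l 16705072))) (a (l 16616712) (l 16606336))) (a (l 16676992) (l 16662016)))) (a (b (a (b (l 16617640) (l 16695120)) (l 16677664)) (a (l 16687760) (l 16667192))) (a (l 16655832) (l 16641336)))))))), by decide +kernel⟩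

def k2_B50pp_101_s1 : ∃ t, chk3 f_B50pp_101_s1 t 5 3 1 = true :=
  ⟨(b (a (l 3) (b (l 3) (a (b (l 3) (l 528993807)) (l 527814671)))) (b (a (a (b (l 3) (a (l 528203023) (l 528668943))) (b (a (l 529031951) (l 529422095)) (a (l 529115151) (l 529540879)))) (b (a (l 529444623) (l 528742159)) (a (l 529924879) (b (l 16593344) (l 16645688))))) (b (a (a (b (a (l 528279055) (l 528701967)) (a (b (l 16703536) (l 16683048)) (b (l 16686976) (l 16669432)))) (b (a (l 16699224) (l 16685736)) (a (l 16666112) (l 16656488)))) (a (b (a (l 16673912) (l 16653616)) (l 16631256)) (b (l 16611680) (l 16575072)))) (a (a (b (b (l 16660416) (l 16643880)) (l 16623808)) (b (l 16632712) (l 16606384))) (b (a (l 16597024) (l 16539864)) (l 16448112)))))), by decide +kernel⟩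

def k3_B50pp_101_s1 : ∃ t, chk3 f_B50pp_101_s1 t 3 1 1 = true :=
  ⟨(b (a (l 3) (l 1)) (b (a (a (b (a (l 3) (l 526264335)) (a (l 527487503) (l 526971663))) (b (a (l 525845519) (l 1)) (a (l 526540559) (l 526198287)))) (b (l 1) (a (b (l 1) (a (l 479458501047) (l 1))) (l 1)))) (b (a (a (b (a (l 528118799) (b (l 16637824) (l 16601904))) (a (b (l 16624104) (l 16590992)) (b (l 16568144) (l 16530344)))) (b (a (b (l 16495632) (l 16460376)) (b (l 16436296) (l 16483104))) (a (l 16488112) (l 16343248)))) (a (b (a (l 16357928) (l 16382360)) (a (l 16366584) (l 16307144))) (b (l 1) (l 16053416)))) (a (a (b (a (l 16534568) (l 16474032)) (b (l 16365024) (l 16410760))) (b (a (l 16328560) (l 16350600)) (b (l 16323688) (l 16284016)))) (b (a (l 16027984) (l 15974416)) (a (b (l 16199128) (l 6)) (l 6))))))), by decide +kernel⟩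

theorem t4_B50pp_101_s1 : ∃ t, chk3 f_B50pp_101_s1 t 2 3 1 = true := ex3_a k1_B50pp_101_s1 k2_B50pp_101_s1

theorem t5_B50pp_101_s1 : ∃ t, chk3 f_B50pp_101_s1 t 2 1 1 = true := ex3_b k0_B50pp_101_s1 t4_B50pp_101_s1

theorem t6_B50pp_101_s1 : ∃ t, chk3 f_B50pp_101_s1 t 1 1 1 = true := ex3_a t5_B50pp_101_s1 k3_B50pp_101_s1

theorem c_B50pp_101_s1 : CertF 536870912 536870912 536870912 536870912 1020054732 13421774 false true true .npn 1 0 1
    ndB5q1 ndB0q1 pcB0 cut_B50pp_101_s1 xt_B50pp_101_s1 :=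
  certF2 (fam := false) (s1 := true) (s2 := true) (a := 1) (b := 0) (c := 1) (cn := .npn) (n1 := ndB5q1) (n2 := ndB0q1) (pc := pcB0) (cut := cut_B50pp_101_s1) (xt := xt_B50pp_101_s1) (P1 := 536870912) (W1 := 536870912) (P2 := 536870912) (W2 := 536870912) (P3 := 1020054732) (W3 := 13421774)
    rfl (fun _ => rfl) t6_B50pp_101_s1

theorem s_B50pp_101_s1 {κ x : ℝ} (hκ : κ * h0 = ken x) (hx : ((1020054732 : ℕ) : ℝ) / S ≤ x)
    (hx' : x ≤ (((1020054732 : ℕ) : ℝ) + (13421774 : ℕ)) / S)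
    (H : CutB (VFD κ) PP tK tL pcB (Cut.of [[⟨0, 1, 0, 26843545⟩, ⟨1, 0, 0, 26843545⟩, ⟨2, 1, 0, 26843545⟩]]) 1 0 1 5 0 (sgb true) (sgb true) x) :
    AltB (VFD κ) PP tK tL pcB [⟨3, 0, 0, 1449551462⟩] 1 0 1 5 0 (sgb true) (sgb true) x :=
  strip_altBD (m := 1449551462) true rfl hκ (SH.κ0 hκ (SH.hx1 hx).le (SH.hx2 hx').le) (SH.hx1 hx).le (SH.hx2 hx') (covB51).cov (covB01).cov hx hx' c_B50pp_101_s1 H ((okx hx hx').extB (T := tt) (sideB hx hx') hκ rfl rfl (.N 1 true) (.O 1 true) (Or.inl rfl))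

noncomputable def cut_B50pp_102_s1 : Cut := Cut.of [[⟨4, 0, 0, 1449551462⟩], [⟨0, 1, 0, 38347922⟩, ⟨1, 0, 0, 38347922⟩, ⟨2, 1, 0, 38347922⟩]]

noncomputable def f_B50pp_102_s1 : ℕ → ℕ → ℕ → ℕ → Bool := onCell 0 536870912 0 536870912 1020054732 13421774
    (rowF 2 false true true .npp 1 0 2 (qsf 536870912 536870912 0 536870912 0) ndB5q1 ndB0q2 pcB0 cut_B50pp_102_s1 Ext.none)

def k0_B50pp_102_s1 : ∃ t, chk3 f_B50pp_102_s1 t 1 1 1 = true :=
  ⟨(a (b (a (l 6) (l 6)) (a (b (a (l 2) (b (l 6) (a (b (l 15394400) (a (l 15611336) (l 15567280))) (b (l 6) (a (l 15530536) (l 15516456)))))) (a (b (a (l 2) (a (b (l 2) (b (l 2) (a (l 16149096) (l 16158968)))) (b (b (l 2) (l 110694033495)) (b (l 16036576) (l 16169104))))) (b (b (a (b (l 2) (l 14)) (a (a (l 16289376) (l 16297560)) (l 16306448))) (a (l 14) (a (a (l 16350976) (l 16441344)) (a (l 16447152) (l 16450744))))) (a (l 14) (a (b (a (b (l 16548608) (l 16538112)) (b (l 16553776)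 (l 16620560))) (b (l 16587992) (l 16632392))) (b (a (l 16502264) (b (l 16558072) (l 16611464))) (b (l 16660440) (l 16706608))))))) (b (a (b (a (b (l 15762008) (l 15895000)) (l 15814736)) (a (l 16096728) (l 16092712))) (b (l 15636288) (a (l 16094384) (l 16097288)))) (b (a (a (b (l 16307544) (l 16372640)) (b (l 16312144) (l 16378768))) (b (l 16150848) (a (l 16378896) (l 16456136)))) (a (a (b (l 16410448) (l 16676384)) (b (l 16574736) (l 16667112))) (b (l 16558584) (l 16478320))))))) (b (a (b (l 6) (a (b (l 6) (l 15509872)) (l 6))) (l 6)) (b (b (a (a (l 15797200) (l 15789040)) (l 6)) (a (a (l 15928288) (l 16079296)) (a (l 16053336) (l 16017968)))) (a (b (a (b (l 16240376) (l 16350960)) (b (l 16303192) (l 16403928))) (b (l 16503136) (l 16329944))) (b (b (a (l 16272680) (l 16233392)) (l 16338296)) (a (l 16470696) (l 16417152)))))))) (b (l 6) (b (l 6) (a (b (l 6) (a (b (b (l 15910168) (l 16240584)) (l 16247824)) (b (l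 6) (l 16214136)))) (l 6))))), by decide +kernel⟩

theorem c_B50pp_102_s1 : CertF 536870912 536870912 0 536870912 1020054732 13421774 false true true .npp 1 0 2
    ndB5q1 ndB0q2 pcB0 cut_B50pp_102_s1 Ext.none :=
  certF2 (fam := false) (s1 := true) (s2 := true) (a := 1) (b := 0) (c := 2) (cn := .npp) (n1 := ndB5q1) (n2 := ndB0q2) (pc := pcB0) (cut := cut_B50pp_102_s1) (xt := Ext.none) (P1 := 536870912) (W1 := 536870912) (P2 := 0) (W2 := 536870912) (P3 := 1020054732) (W3 := 13421774)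
    rfl (fun _ => rfl) k0_B50pp_102_s1

theorem s_B50pp_102_s1 {κ x : ℝ} (hκ : κ * h0 = ken x) (hx : ((1020054732 : ℕ) : ℝ) / S ≤ x)
    (hx' : x ≤ (((1020054732 : ℕ) : ℝ) + (13421774 : ℕ)) / S)
    (H : CutB (VFD κ) PP tK tL pcB (Cut.of [[⟨0, 1, 0, 38347922⟩, ⟨1, 0, 0, 38347922⟩, ⟨2, 1, 0, 38347922⟩]]) 1 0 2 5 0 (sgb true) (sgb true) x) :
    AltB (VFD κ) PP tK tL pcB [⟨3, 0, 0, 1449551462⟩] 1 0 2 5 0 (sgb true) (sgb true) x :=
  strip_altBD (m := 1449551462) true rfl hκ (SH.κ0 hκ (SH.hx1 hx).le (SH.hx2 hx').le) (SH.hx1 hx).le (SH.hx2 hx') (covB51).cov (covB02).cov hx hx' c_B50pp_102_s1 H (noExt_B)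

noncomputable def cut_B50pp_112_s1 : Cut := Cut.of [[⟨4, 0, 0, 1449551462⟩]]

noncomputable def f_B50pp_112_s1 : ℕ → ℕ → ℕ → ℕ → Bool := onCell 536870912 536870912 0 536870912 1020054732 13421774
    (rowF 2 false true true .dn 1 1 2 (qsf 536870912 536870912 0 536870912 1) ndB5q1 ndB0q2 pcB1 cut_B50pp_112_s1 Ext.none)

def k0_B50pp_112_s1 : ∃ t, chk3 f_B50pp_112_s1 t 1 1 1 = true :=
  ⟨(b (l 6) (l 6)), by decide +kernel⟩

theorem c_B50pp_112_s1 : CertF 536870912 536870912 0 536870912 1020054732 13421774 false true true .dn 1 1 2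
    ndB5q1 ndB0q2 pcB1 cut_B50pp_112_s1 Ext.none :=
  certF2 (fam := false) (s1 := true) (s2 := true) (a := 1) (b := 1) (c := 2) (cn := .dn) (n1 := ndB5q1) (n2 := ndB0q2) (pc := pcB1) (cut := cut_B50pp_112_s1) (xt := Ext.none) (P1 := 536870912) (W1 := 536870912) (P2 := 0) (W2 := 536870912) (P3 := 1020054732) (W3 := 13421774)
    rfl (fun _ => rfl) k0_B50pp_112_s1

theorem s_B50pp_112_s1 {κ x : ℝ} (hκ : κ * h0 = ken x) (hx : ((1020054732 : ℕ) : ℝ) / S ≤ x)
    (hx' : x ≤ (((1020054732 : ℕ) : ℝ) + (13421774 : ℕ)) / S) :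
    AltB (VFD κ) PP tK tL pcB [⟨3, 0, 0, 1449551462⟩] 1 1 2 5 0 (sgb true) (sgb true) x :=
  strip_altBD (m := 1449551462) true rfl hκ (SH.κ0 hκ (SH.hx1 hx).le (SH.hx2 hx').le) (SH.hx1 hx).le (SH.hx2 hx') (covB51).cov (covB02).cov hx hx' c_B50pp_112_s1 cutB_nil (noExt_B)

noncomputable def cut_B50pp_202_s1 : Cut := Cut.of [[⟨4, 0, 0, 1449551462⟩], [⟨0, 1, 0, 33554432⟩, ⟨1, 0, 0, 33554432⟩, ⟨2, 1, 0, 33554432⟩]]

noncomputable def f_B50pp_202_s1 : ℕ → ℕ → ℕ → ℕ → Bool := onCell 0 536870912 0 536870912 1020054732 13421774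
    (rowF 2 false true true .pp 2 0 2 (qsf 1073741824 536870912 0 536870912 0) ndB5q2 ndB0q2 pcB0 cut_B50pp_202_s1 Ext.none)

def k0_B50pp_202_s1 : ∃ t, chk3 f_B50pp_202_s1 t 1 1 1 = true :=
  ⟨(a (b (a (l 6) (l 6)) (a (b (a (a (a (b (l 16109280) (b (l 16219824) (l 16295888))) (a (b (l 15983000) (l 16118368)) (b (l 15892864) (b (l 15987656) (l 16053576))))) (a (b (l 15700672) (b (l 15877208) (l 15859320))) (b (l 15658192) (a (l 15820968) (l 15750824))))) (b (l 6) (a (b (l 15501648) (a (l 15669776) (l 15496000))) (b (l 6) (l 1))))) (a (b (a (a (b (l 16376648) (b (l 16442368) (a (l 16541016) (l 16359032)))) (b (a (l 16230392) (l 16127360)) (a (b (l 16299064) (l 16345784)) (b (a (l 16221248) (l 16171936)) (a (l 16283232) (l 16242080)))))) (a (b (a (l 16053936) (l 15998704)) (a (b (l 16129688) (l 16202744)) (l 16119936))) (b (a (l 15944392) (b (l 15850864) (l 15913144))) (a (l 16072792) (l 16017360))))) (a (a (b (b (a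 (b (l 16491336) (l 16597000)) (l 16494592)) (l 14)) (l 14)) (b (a (b (l 16412056) (l 14)) (b (a (l 16354472) (l 16318232)) (a (l 14) (l 16400592)))) (a (l 14) (l 1)))) (a (b (b (a (l 16280344) (l 1)) (l 1)) (l 1)) (l 1)))) (b (a (b (a (l 534217628711) (l 1)) (l 1)) (l 1)) (l 1)))) (b (l 1) (l 1)))) (l 1)), by decide +kernel⟩

theorem c_B50pp_202_s1 : CertF 1073741824 536870912 0 536870912 1020054732 13421774 false true true .pp 2 0 2
    ndB5q2 ndB0q2 pcB0 cut_B50pp_202_s1 Ext.none :=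
  certF2 (fam := false) (s1 := true) (s2 := true) (a := 2) (b := 0) (c := 2) (cn := .pp) (n1 := ndB5q2) (n2 := ndB0q2) (pc := pcB0) (cut := cut_B50pp_202_s1) (xt := Ext.none) (P1 := 1073741824) (W1 := 536870912) (P2 := 0) (W2 := 536870912) (P3 := 1020054732) (W3 := 13421774)
    rfl (fun _ => rfl) k0_B50pp_202_s1

theorem s_B50pp_202_s1 {κ x : ℝ} (hκ : κ * h0 = ken x) (hx : ((1020054732 : ℕ) : ℝ) / S ≤ x)
    (hx' : x ≤ (((1020054732 : ℕ) : ℝ) + (13421774 : ℕ)) / S)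
    (H : CutB (VFD κ) PP tK tL pcB (Cut.of [[⟨0, 1, 0, 33554432⟩, ⟨1, 0, 0, 33554432⟩, ⟨2, 1, 0, 33554432⟩]]) 2 0 2 5 0 (sgb true) (sgb true) x) :
    AltB (VFD κ) PP tK tL pcB [⟨3, 0, 0, 1449551462⟩] 2 0 2 5 0 (sgb true) (sgb true) x :=
  strip_altBD (m := 1449551462) true rfl hκ (SH.κ0 hκ (SH.hx1 hx).le (SH.hx2 hx').le) (SH.hx1 hx).le (SH.hx2 hx') (covB52).cov (covB02).cov hx hx' c_B50pp_202_s1 H (noExt_B)

noncomputable def cut_B50pm_001_s1 : Cut := Cut.of [[⟨4, 0, 0, 1449551462⟩]]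

noncomputable def f_B50pm_001_s1 : ℕ → ℕ → ℕ → ℕ → Bool := onCell 0 536870912 536870912 536870912 1020054732 13421774
    (rowF 0 false true false .up 0 0 1 (qsf 0 536870912 536870912 536870912 0) ndB5q0 ndB0q1 pcB0 cut_B50pm_001_s1 Ext.none)

def k0_B50pm_001_s1 : ∃ t, chk3 f_B50pm_001_s1 t 1 1 1 = true :=
  ⟨(l 4), by decide +kernel⟩

theorem c_B50pm_001_s1 : CertF 0 536870912 536870912 536870912 1020054732 13421774 false true false .up 0 0 1
    ndB5q0 ndB0q1 pcB0 cut_B50pm_001_s1 Ext.none :=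
  certF0 (fam := false) (s1 := true) (s2 := false) (a := 0) (b := 0) (c := 1) (cn := .up) (n1 := ndB5q0) (n2 := ndB0q1) (pc := pcB0) (cut := cut_B50pm_001_s1) (xt := Ext.none) (P1 := 0) (W1 := 536870912) (P2 := 536870912) (W2 := 536870912) (P3 := 1020054732) (W3 := 13421774)
    rfl k0_B50pm_001_s1

theorem s_B50pm_001_s1 {κ x : ℝ} (hκ : κ * h0 = ken x) (hx : ((1020054732 : ℕ) : ℝ) / S ≤ x)
    (hx' : x ≤ (((1020054732 : ℕ) : ℝ) + (13421774 : ℕ)) / S) :
    AltB (VFD κ) PP tK tL pcB [⟨3, 0, 0, 1449551462⟩] 0 0 1 5 0 (sgb true) (sgb false) x :=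
  strip_altBD (m := 1449551462) true rfl hκ (SH.κ0 hκ (SH.hx1 hx).le (SH.hx2 hx').le) (SH.hx1 hx).le (SH.hx2 hx') (covB50).cov (covB01).cov hx hx' c_B50pm_001_s1 cutB_nil (noExt_B)

noncomputable def cut_B50pm_011_s1 : Cut := Cut.of [[⟨4, 0, 0, 1449551462⟩]]

noncomputable def f_B50pm_011_s1 : ℕ → ℕ → ℕ → ℕ → Bool := onCell 0 536870912 536870912 536870912 1020054732 13421774
    (rowF 0 false true false .pnn 0 1 1 (qsf 0 536870912 536870912 536870912 1) ndB5q0 ndB0q1 pcB1 cut_B50pm_011_s1 Ext.none)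

def k0_B50pm_011_s1 : ∃ t, chk3 f_B50pm_011_s1 t 1 1 1 = true :=
  ⟨(l 4), by decide +kernel⟩

theorem c_B50pm_011_s1 : CertF 0 536870912 536870912 536870912 1020054732 13421774 false true false .pnn 0 1 1
    ndB5q0 ndB0q1 pcB1 cut_B50pm_011_s1 Ext.none :=
  certF0 (fam := false) (s1 := true) (s2 := false) (a := 0) (b := 1) (c := 1) (cn := .pnn) (n1 := ndB5q0) (n2 := ndB0q1) (pc := pcB1) (cut := cut_B50pm_011_s1) (xt := Ext.none) (P1 := 0) (W1 := 536870912) (P2 := 536870912) (W2 := 536870912) (P3 := 1020054732) (W3 := 13421774)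
    rfl k0_B50pm_011_s1

theorem s_B50pm_011_s1 {κ x : ℝ} (hκ : κ * h0 = ken x) (hx : ((1020054732 : ℕ) : ℝ) / S ≤ x)
    (hx' : x ≤ (((1020054732 : ℕ) : ℝ) + (13421774 : ℕ)) / S) :
    AltB (VFD κ) PP tK tL pcB [⟨3, 0, 0, 1449551462⟩] 0 1 1 5 0 (sgb true) (sgb false) x :=
  strip_altBD (m := 1449551462) true rfl hκ (SH.κ0 hκ (SH.hx1 hx).le (SH.hx2 hx').le) (SH.hx1 hx).le (SH.hx2 hx') (covB50).cov (covB01).cov hx hx' c_B50pm_011_s1 cutB_nil (noExt_B)

noncomputable def cut_B50pm_012_s1 : Cut := Cut.of [[⟨4, 0, 0, 1449551462⟩]]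

noncomputable def f_B50pm_012_s1 : ℕ → ℕ → ℕ → ℕ → Bool := onCell 0 536870912 0 536870912 1020054732 13421774
    (rowF 0 false true false .pnp 0 1 2 (qsf 0 536870912 0 536870912 1) ndB5q0 ndB0q2 pcB1 cut_B50pm_012_s1 Ext.none)

def k0_B50pm_012_s1 : ∃ t, chk3 f_B50pm_012_s1 t 1 1 1 = true :=
  ⟨(l 6), by decide +kernel⟩

theorem c_B50pm_012_s1 : CertF 0 536870912 0 536870912 1020054732 13421774 false true false .pnp 0 1 2
    ndB5q0 ndB0q2 pcB1 cut_B50pm_012_s1 Ext.none :=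
  certF0 (fam := false) (s1 := true) (s2 := false) (a := 0) (b := 1) (c := 2) (cn := .pnp) (n1 := ndB5q0) (n2 := ndB0q2) (pc := pcB1) (cut := cut_B50pm_012_s1) (xt := Ext.none) (P1 := 0) (W1 := 536870912) (P2 := 0) (W2 := 536870912) (P3 := 1020054732) (W3 := 13421774)
    rfl k0_B50pm_012_s1

theorem s_B50pm_012_s1 {κ x : ℝ} (hκ : κ * h0 = ken x) (hx : ((1020054732 : ℕ) : ℝ) / S ≤ x)
    (hx' : x ≤ (((1020054732 : ℕ) : ℝ) + (13421774 : ℕ)) / S) :
    AltB (VFD κ) PP tK tL pcB [⟨3, 0, 0, 1449551462⟩] 0 1 2 5 0 (sgb true) (sgb false) x :=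
  strip_altBD (m := 1449551462) true rfl hκ (SH.κ0 hκ (SH.hx1 hx).le (SH.hx2 hx').le) (SH.hx1 hx).le (SH.hx2 hx') (covB50).cov (covB02).cov hx hx' c_B50pm_012_s1 cutB_nil (noExt_B)

noncomputable def cut_B50pm_022_s1 : Cut := Cut.of [[⟨4, 0, 0, 1449551462⟩]]

noncomputable def f_B50pm_022_s1 : ℕ → ℕ → ℕ → ℕ → Bool := onCell 0 536870912 0 536870912 1020054732 13421774
    (rowF 0 false true false .pp 0 2 2 (qsf 0 536870912 0 536870912 2) ndB5q0 ndB0q2 pcB2 cut_B50pm_022_s1 Ext.none)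

def k0_B50pm_022_s1 : ∃ t, chk3 f_B50pm_022_s1 t 1 1 1 = true :=
  ⟨(l 6), by decide +kernel⟩

theorem c_B50pm_022_s1 : CertF 0 536870912 0 536870912 1020054732 13421774 false true false .pp 0 2 2
    ndB5q0 ndB0q2 pcB2 cut_B50pm_022_s1 Ext.none :=
  certF0 (fam := false) (s1 := true) (s2 := false) (a := 0) (b := 2) (c := 2) (cn := .pp) (n1 := ndB5q0) (n2 := ndB0q2) (pc := pcB2) (cut := cut_B50pm_022_s1) (xt := Ext.none) (P1 := 0) (W1 := 536870912) (P2 := 0) (W2 := 536870912) (P3 := 1020054732) (W3 := 13421774)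
    rfl k0_B50pm_022_s1

theorem s_B50pm_022_s1 {κ x : ℝ} (hκ : κ * h0 = ken x) (hx : ((1020054732 : ℕ) : ℝ) / S ≤ x)
    (hx' : x ≤ (((1020054732 : ℕ) : ℝ) + (13421774 : ℕ)) / S) :
    AltB (VFD κ) PP tK tL pcB [⟨3, 0, 0, 1449551462⟩] 0 2 2 5 0 (sgb true) (sgb false) x :=
  strip_altBD (m := 1449551462) true rfl hκ (SH.κ0 hκ (SH.hx1 hx).le (SH.hx2 hx').le) (SH.hx1 hx).le (SH.hx2 hx') (covB50).cov (covB02).cov hx hx' c_B50pm_022_s1 cutB_nil (noExt_B)

noncomputable def cut_B50pm_101_s1 : Cut := Cut.of [[⟨4, 0, 0, 1449551462⟩]]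

noncomputable def f_B50pm_101_s1 : ℕ → ℕ → ℕ → ℕ → Bool := onCell 536870912 536870912 536870912 536870912 1020054732 13421774
    (rowF 0 false true false .npn 1 0 1 (qsf 536870912 536870912 536870912 536870912 0) ndB5q1 ndB0q1 pcB0 cut_B50pm_101_s1 Ext.none)

def k0_B50pm_101_s1 : ∃ t, chk3 f_B50pm_101_s1 t 1 1 1 = true :=
  ⟨(l 4), by decide +kernel⟩

theorem c_B50pm_101_s1 : CertF 536870912 536870912 536870912 536870912 1020054732 13421774 false true false .npn 1 0 1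
    ndB5q1 ndB0q1 pcB0 cut_B50pm_101_s1 Ext.none :=
  certF0 (fam := false) (s1 := true) (s2 := false) (a := 1) (b := 0) (c := 1) (cn := .npn) (n1 := ndB5q1) (n2 := ndB0q1) (pc := pcB0) (cut := cut_B50pm_101_s1) (xt := Ext.none) (P1 := 536870912) (W1 := 536870912) (P2 := 536870912) (W2 := 536870912) (P3 := 1020054732) (W3 := 13421774)
    rfl k0_B50pm_101_s1

theorem s_B50pm_101_s1 {κ x : ℝ} (hκ : κ * h0 = ken x) (hx : ((1020054732 : ℕ) : ℝ) / S ≤ x)
    (hx' : x ≤ (((1020054732 : ℕ) : ℝ) + (13421774 : ℕ)) / S) :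
    AltB (VFD κ) PP tK tL pcB [⟨3, 0, 0, 1449551462⟩] 1 0 1 5 0 (sgb true) (sgb false) x :=
  strip_altBD (m := 1449551462) true rfl hκ (SH.κ0 hκ (SH.hx1 hx).le (SH.hx2 hx').le) (SH.hx1 hx).le (SH.hx2 hx') (covB51).cov (covB01).cov hx hx' c_B50pm_101_s1 cutB_nil (noExt_B)

noncomputable def cut_B50pm_102_s1 : Cut := Cut.of [[⟨4, 0, 0, 1449551462⟩]]

noncomputable def f_B50pm_102_s1 : ℕ → ℕ → ℕ → ℕ → Bool := onCell 536870912 536870912 0 536870912 1020054732 13421774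
    (rowF 0 false true false .npp 1 0 2 (qsf 536870912 536870912 0 536870912 0) ndB5q1 ndB0q2 pcB0 cut_B50pm_102_s1 Ext.none)

def k0_B50pm_102_s1 : ∃ t, chk3 f_B50pm_102_s1 t 1 1 1 = true :=
  ⟨(l 6), by decide +kernel⟩

theorem c_B50pm_102_s1 : CertF 536870912 536870912 0 536870912 1020054732 13421774 false true false .npp 1 0 2
    ndB5q1 ndB0q2 pcB0 cut_B50pm_102_s1 Ext.none :=
  certF0 (fam := false) (s1 := true) (s2 := false) (a := 1) (b := 0) (c := 2) (cn := .npp) (n1 := ndB5q1) (n2 := ndB0q2) (pc := pcB0) (cut := cut_B50pm_102_s1) (xt := Ext.none) (P1 := 536870912) (W1 := 536870912) (P2 := 0) (W2 := 536870912) (P3 := 1020054732) (W3 := 13421774)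
    rfl k0_B50pm_102_s1

theorem s_B50pm_102_s1 {κ x : ℝ} (hκ : κ * h0 = ken x) (hx : ((1020054732 : ℕ) : ℝ) / S ≤ x)
    (hx' : x ≤ (((1020054732 : ℕ) : ℝ) + (13421774 : ℕ)) / S) :
    AltB (VFD κ) PP tK tL pcB [⟨3, 0, 0, 1449551462⟩] 1 0 2 5 0 (sgb true) (sgb false) x :=
  strip_altBD (m := 1449551462) true rfl hκ (SH.κ0 hκ (SH.hx1 hx).le (SH.hx2 hx').le) (SH.hx1 hx).le (SH.hx2 hx') (covB51).cov (covB02).cov hx hx' c_B50pm_102_s1 cutB_nil (noExt_B)

noncomputable def cut_B50pm_112_s1 : Cut := Cut.of [[⟨4, 0, 0, 1449551462⟩]]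

noncomputable def f_B50pm_112_s1 : ℕ → ℕ → ℕ → ℕ → Bool := onCell 536870912 536870912 0 536870912 1020054732 13421774
    (rowF 0 false true false .dn 1 1 2 (qsf 536870912 536870912 0 536870912 1) ndB5q1 ndB0q2 pcB1 cut_B50pm_112_s1 Ext.none)

def k0_B50pm_112_s1 : ∃ t, chk3 f_B50pm_112_s1 t 1 1 1 = true :=
  ⟨(l 6), by decide +kernel⟩

theorem c_B50pm_112_s1 : CertF 536870912 536870912 0 536870912 1020054732 13421774 false true false .dn 1 1 2
    ndB5q1 ndB0q2 pcB1 cut_B50pm_112_s1 Ext.none :=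
  certF0 (fam := false) (s1 := true) (s2 := false) (a := 1) (b := 1) (c := 2) (cn := .dn) (n1 := ndB5q1) (n2 := ndB0q2) (pc := pcB1) (cut := cut_B50pm_112_s1) (xt := Ext.none) (P1 := 536870912) (W1 := 536870912) (P2 := 0) (W2 := 536870912) (P3 := 1020054732) (W3 := 13421774)
    rfl k0_B50pm_112_s1

theorem s_B50pm_112_s1 {κ x : ℝ} (hκ : κ * h0 = ken x) (hx : ((1020054732 : ℕ) : ℝ) / S ≤ x)
    (hx' : x ≤ (((1020054732 : ℕ) : ℝ) + (13421774 : ℕ)) / S) :
    AltB (VFD κ) PP tK tL pcB [⟨3, 0, 0, 1449551462⟩] 1 1 2 5 0 (sgb true) (sgb false) x :=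
  strip_altBD (m := 1449551462) true rfl hκ (SH.κ0 hκ (SH.hx1 hx).le (SH.hx2 hx').le) (SH.hx1 hx).le (SH.hx2 hx') (covB51).cov (covB02).cov hx hx' c_B50pm_112_s1 cutB_nil (noExt_B)

noncomputable def cut_B50pm_202_s1 : Cut := Cut.of [[⟨4, 0, 0, 1449551462⟩]]

noncomputable def f_B50pm_202_s1 : ℕ → ℕ → ℕ → ℕ → Bool := onCell 0 536870912 0 536870912 1020054732 13421774
    (rowF 2 false true false .pp 2 0 2 (qsf 1073741824 536870912 0 536870912 0) ndB5q2 ndB0q2 pcB0 cut_B50pm_202_s1 Ext.none)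

def k0_B50pm_202_s1 : ∃ t, chk3 f_B50pm_202_s1 t 1 1 1 = true :=
  ⟨(l 6), by decide +kernel⟩

theorem c_B50pm_202_s1 : CertF 1073741824 536870912 0 536870912 1020054732 13421774 false true false .pp 2 0 2
    ndB5q2 ndB0q2 pcB0 cut_B50pm_202_s1 Ext.none :=
  certF2 (fam := false) (s1 := true) (s2 := false) (a := 2) (b := 0) (c := 2) (cn := .pp) (n1 := ndB5q2) (n2 := ndB0q2) (pc := pcB0) (cut := cut_B50pm_202_s1) (xt := Ext.none) (P1 := 1073741824) (W1 := 536870912) (P2 := 0) (W2 := 536870912) (P3 := 1020054732) (W3 := 13421774)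
    rfl (fun _ => rfl) k0_B50pm_202_s1

theorem s_B50pm_202_s1 {κ x : ℝ} (hκ : κ * h0 = ken x) (hx : ((1020054732 : ℕ) : ℝ) / S ≤ x)
    (hx' : x ≤ (((1020054732 : ℕ) : ℝ) + (13421774 : ℕ)) / S) :
    AltB (VFD κ) PP tK tL pcB [⟨3, 0, 0, 1449551462⟩] 2 0 2 5 0 (sgb true) (sgb false) x :=
  strip_altBD (m := 1449551462) true rfl hκ (SH.κ0 hκ (SH.hx1 hx).le (SH.hx2 hx').le) (SH.hx1 hx).le (SH.hx2 hx') (covB52).cov (covB02).cov hx hx' c_B50pm_202_s1 cutB_nil (noExt_B)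

noncomputable def cut_B50mm_001_s1 : Cut := Cut.of [[⟨4, 0, 0, 1449551462⟩]]

noncomputable def f_B50mm_001_s1 : ℕ → ℕ → ℕ → ℕ → Bool := onCell 0 536870912 536870912 536870912 1020054732 13421774
    (rowF 0 false false false .up 0 0 1 (qsf 0 536870912 536870912 536870912 0) ndB5q0 ndB0q1 pcB0 cut_B50mm_001_s1 Ext.none)

def k0_B50mm_001_s1 : ∃ t, chk3 f_B50mm_001_s1 t 1 1 1 = true :=
  ⟨(l 5), by decide +kernel⟩

theorem c_B50mm_001_s1 : CertF 0 536870912 536870912 536870912 1020054732 13421774 false false false .up 0 0 1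
    ndB5q0 ndB0q1 pcB0 cut_B50mm_001_s1 Ext.none :=
  certF0 (fam := false) (s1 := false) (s2 := false) (a := 0) (b := 0) (c := 1) (cn := .up) (n1 := ndB5q0) (n2 := ndB0q1) (pc := pcB0) (cut := cut_B50mm_001_s1) (xt := Ext.none) (P1 := 0) (W1 := 536870912) (P2 := 536870912) (W2 := 536870912) (P3 := 1020054732) (W3 := 13421774)
    rfl k0_B50mm_001_s1

theorem s_B50mm_001_s1 {κ x : ℝ} (hκ : κ * h0 = ken x) (hx : ((1020054732 : ℕ) : ℝ) / S ≤ x)
    (hx' : x ≤ (((1020054732 : ℕ) : ℝ) + (13421774 : ℕ)) / S) :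
    AltB (VFD κ) PP tK tL pcB [⟨3, 0, 0, 1449551462⟩] 0 0 1 5 0 (sgb false) (sgb false) x :=
  strip_altBD (m := 1449551462) true rfl hκ (SH.κ0 hκ (SH.hx1 hx).le (SH.hx2 hx').le) (SH.hx1 hx).le (SH.hx2 hx') (covB50).cov (covB01).cov hx hx' c_B50mm_001_s1 cutB_nil (noExt_B)

noncomputable def cut_B50mm_011_s1 : Cut := Cut.of [[⟨4, 0, 0, 1449551462⟩]]

noncomputable def f_B50mm_011_s1 : ℕ → ℕ → ℕ → ℕ → Bool := onCell 0 536870912 536870912 536870912 1020054732 13421774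
    (rowF 0 false false false .pnn 0 1 1 (qsf 0 536870912 536870912 536870912 1) ndB5q0 ndB0q1 pcB1 cut_B50mm_011_s1 Ext.none)

def k0_B50mm_011_s1 : ∃ t, chk3 f_B50mm_011_s1 t 1 1 1 = true :=
  ⟨(l 5), by decide +kernel⟩

theorem c_B50mm_011_s1 : CertF 0 536870912 536870912 536870912 1020054732 13421774 false false false .pnn 0 1 1
    ndB5q0 ndB0q1 pcB1 cut_B50mm_011_s1 Ext.none :=
  certF0 (fam := false) (s1 := false) (s2 := false) (a := 0) (b := 1) (c := 1) (cn := .pnn) (n1 := ndB5q0) (n2 := ndB0q1) (pc := pcB1) (cut := cut_B50mm_011_s1) (xt := Ext.none) (P1 := 0) (W1 := 536870912) (P2 := 536870912) (W2 := 536870912) (P3 := 1020054732) (W3 := 13421774)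
    rfl k0_B50mm_011_s1

theorem s_B50mm_011_s1 {κ x : ℝ} (hκ : κ * h0 = ken x) (hx : ((1020054732 : ℕ) : ℝ) / S ≤ x)
    (hx' : x ≤ (((1020054732 : ℕ) : ℝ) + (13421774 : ℕ)) / S) :
    AltB (VFD κ) PP tK tL pcB [⟨3, 0, 0, 1449551462⟩] 0 1 1 5 0 (sgb false) (sgb false) x :=
  strip_altBD (m := 1449551462) true rfl hκ (SH.κ0 hκ (SH.hx1 hx).le (SH.hx2 hx').le) (SH.hx1 hx).le (SH.hx2 hx') (covB50).cov (covB01).cov hx hx' c_B50mm_011_s1 cutB_nil (noExt_B)

noncomputable def cut_B50mm_012_s1 : Cut := Cut.of [[⟨4, 0, 0, 1449551462⟩]]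

noncomputable def f_B50mm_012_s1 : ℕ → ℕ → ℕ → ℕ → Bool := onCell 0 536870912 0 536870912 1020054732 13421774
    (rowF 0 false false false .pnp 0 1 2 (qsf 0 536870912 0 536870912 1) ndB5q0 ndB0q2 pcB1 cut_B50mm_012_s1 Ext.none)

def k0_B50mm_012_s1 : ∃ t, chk3 f_B50mm_012_s1 t 1 1 1 = true :=
  ⟨(l 5), by decide +kernel⟩

theorem c_B50mm_012_s1 : CertF 0 536870912 0 536870912 1020054732 13421774 false false false .pnp 0 1 2
    ndB5q0 ndB0q2 pcB1 cut_B50mm_012_s1 Ext.none :=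
  certF0 (fam := false) (s1 := false) (s2 := false) (a := 0) (b := 1) (c := 2) (cn := .pnp) (n1 := ndB5q0) (n2 := ndB0q2) (pc := pcB1) (cut := cut_B50mm_012_s1) (xt := Ext.none) (P1 := 0) (W1 := 536870912) (P2 := 0) (W2 := 536870912) (P3 := 1020054732) (W3 := 13421774)
    rfl k0_B50mm_012_s1

theorem s_B50mm_012_s1 {κ x : ℝ} (hκ : κ * h0 = ken x) (hx : ((1020054732 : ℕ) : ℝ) / S ≤ x)
    (hx' : x ≤ (((1020054732 : ℕ) : ℝ) + (13421774 : ℕ)) / S) :
    AltB (VFD κ) PP tK tL pcB [⟨3, 0, 0, 1449551462⟩] 0 1 2 5 0 (sgb false) (sgb false) x :=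
  strip_altBD (m := 1449551462) true rfl hκ (SH.κ0 hκ (SH.hx1 hx).le (SH.hx2 hx').le) (SH.hx1 hx).le (SH.hx2 hx') (covB50).cov (covB02).cov hx hx' c_B50mm_012_s1 cutB_nil (noExt_B)

noncomputable def cut_B50mm_022_s1 : Cut := Cut.of [[⟨4, 0, 0, 1449551462⟩]]

noncomputable def f_B50mm_022_s1 : ℕ → ℕ → ℕ → ℕ → Bool := onCell 0 536870912 0 536870912 1020054732 13421774
    (rowF 0 false false false .pp 0 2 2 (qsf 0 536870912 0 536870912 2) ndB5q0 ndB0q2 pcB2 cut_B50mm_022_s1 Ext.none)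

def k0_B50mm_022_s1 : ∃ t, chk3 f_B50mm_022_s1 t 1 1 1 = true :=
  ⟨(l 5), by decide +kernel⟩

theorem c_B50mm_022_s1 : CertF 0 536870912 0 536870912 1020054732 13421774 false false false .pp 0 2 2
    ndB5q0 ndB0q2 pcB2 cut_B50mm_022_s1 Ext.none :=
  certF0 (fam := false) (s1 := false) (s2 := false) (a := 0) (b := 2) (c := 2) (cn := .pp) (n1 := ndB5q0) (n2 := ndB0q2) (pc := pcB2) (cut := cut_B50mm_022_s1) (xt := Ext.none) (P1 := 0) (W1 := 536870912) (P2 := 0) (W2 := 536870912) (P3 := 1020054732) (W3 := 13421774)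
    rfl k0_B50mm_022_s1

theorem s_B50mm_022_s1 {κ x : ℝ} (hκ : κ * h0 = ken x) (hx : ((1020054732 : ℕ) : ℝ) / S ≤ x)
    (hx' : x ≤ (((1020054732 : ℕ) : ℝ) + (13421774 : ℕ)) / S) :
    AltB (VFD κ) PP tK tL pcB [⟨3, 0, 0, 1449551462⟩] 0 2 2 5 0 (sgb false) (sgb false) x :=
  strip_altBD (m := 1449551462) true rfl hκ (SH.κ0 hκ (SH.hx1 hx).le (SH.hx2 hx').le) (SH.hx1 hx).le (SH.hx2 hx') (covB50).cov (covB02).cov hx hx' c_B50mm_022_s1 cutB_nil (noExt_B)

noncomputable def cut_B50mm_101_s1 : Cut := Cut.of [[⟨4, 0, 0, 1449551462⟩]]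

noncomputable def f_B50mm_101_s1 : ℕ → ℕ → ℕ → ℕ → Bool := onCell 0 536870912 536870912 536870912 1020054732 13421774
    (rowF 2 false false false .npn 1 0 1 (qsf 536870912 536870912 536870912 536870912 0) ndB5q1 ndB0q1 pcB0 cut_B50mm_101_s1 Ext.none)

def k0_B50mm_101_s1 : ∃ t, chk3 f_B50mm_101_s1 t 1 1 1 = true :=
  ⟨(l 5), by decide +kernel⟩

theorem c_B50mm_101_s1 : CertF 536870912 536870912 536870912 536870912 1020054732 13421774 false false false .npn 1 0 1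
    ndB5q1 ndB0q1 pcB0 cut_B50mm_101_s1 Ext.none :=
  certF2 (fam := false) (s1 := false) (s2 := false) (a := 1) (b := 0) (c := 1) (cn := .npn) (n1 := ndB5q1) (n2 := ndB0q1) (pc := pcB0) (cut := cut_B50mm_101_s1) (xt := Ext.none) (P1 := 536870912) (W1 := 536870912) (P2 := 536870912) (W2 := 536870912) (P3 := 1020054732) (W3 := 13421774)
    rfl (fun _ => rfl) k0_B50mm_101_s1

theorem s_B50mm_101_s1 {κ x : ℝ} (hκ : κ * h0 = ken x) (hx : ((1020054732 : ℕ) : ℝ) / S ≤ x)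
    (hx' : x ≤ (((1020054732 : ℕ) : ℝ) + (13421774 : ℕ)) / S) :
    AltB (VFD κ) PP tK tL pcB [⟨3, 0, 0, 1449551462⟩] 1 0 1 5 0 (sgb false) (sgb false) x :=
  strip_altBD (m := 1449551462) true rfl hκ (SH.κ0 hκ (SH.hx1 hx).le (SH.hx2 hx').le) (SH.hx1 hx).le (SH.hx2 hx') (covB51).cov (covB01).cov hx hx' c_B50mm_101_s1 cutB_nil (noExt_B)

noncomputable def cut_B50mm_102_s1 : Cut := Cut.of [[⟨4, 0, 0, 1449551462⟩]]

noncomputable def f_B50mm_102_s1 : ℕ → ℕ → ℕ → ℕ → Bool := onCell 536870912 536870912 0 536870912 1020054732 13421774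
    (rowF 0 false false false .npp 1 0 2 (qsf 536870912 536870912 0 536870912 0) ndB5q1 ndB0q2 pcB0 cut_B50mm_102_s1 Ext.none)

def k0_B50mm_102_s1 : ∃ t, chk3 f_B50mm_102_s1 t 1 1 1 = true :=
  ⟨(l 5), by decide +kernel⟩

theorem c_B50mm_102_s1 : CertF 536870912 536870912 0 536870912 1020054732 13421774 false false false .npp 1 0 2
    ndB5q1 ndB0q2 pcB0 cut_B50mm_102_s1 Ext.none :=
  certF0 (fam := false) (s1 := false) (s2 := false) (a := 1) (b := 0) (c := 2) (cn := .npp) (n1 := ndB5q1) (n2 := ndB0q2) (pc := pcB0) (cut := cut_B50mm_102_s1) (xt := Ext.none) (P1 := 536870912) (W1 := 536870912) (P2 := 0) (W2 := 536870912) (P3 := 1020054732) (W3 := 13421774)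
    rfl k0_B50mm_102_s1

theorem s_B50mm_102_s1 {κ x : ℝ} (hκ : κ * h0 = ken x) (hx : ((1020054732 : ℕ) : ℝ) / S ≤ x)
    (hx' : x ≤ (((1020054732 : ℕ) : ℝ) + (13421774 : ℕ)) / S) :
    AltB (VFD κ) PP tK tL pcB [⟨3, 0, 0, 1449551462⟩] 1 0 2 5 0 (sgb false) (sgb false) x :=
  strip_altBD (m := 1449551462) true rfl hκ (SH.κ0 hκ (SH.hx1 hx).le (SH.hx2 hx').le) (SH.hx1 hx).le (SH.hx2 hx') (covB51).cov (covB02).cov hx hx' c_B50mm_102_s1 cutB_nil (noExt_B)

noncomputable def cut_B50mm_112_s1 : Cut := Cut.of [[⟨4, 0, 0, 1449551462⟩]]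

noncomputable def f_B50mm_112_s1 : ℕ → ℕ → ℕ → ℕ → Bool := onCell 536870912 536870912 0 536870912 1020054732 13421774
    (rowF 0 false false false .dn 1 1 2 (qsf 536870912 536870912 0 536870912 1) ndB5q1 ndB0q2 pcB1 cut_B50mm_112_s1 Ext.none)

def k0_B50mm_112_s1 : ∃ t, chk3 f_B50mm_112_s1 t 1 1 1 = true :=
  ⟨(l 5), by decide +kernel⟩

theorem c_B50mm_112_s1 : CertF 536870912 536870912 0 536870912 1020054732 13421774 false false false .dn 1 1 2
    ndB5q1 ndB0q2 pcB1 cut_B50mm_112_s1 Ext.none :=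
  certF0 (fam := false) (s1 := false) (s2 := false) (a := 1) (b := 1) (c := 2) (cn := .dn) (n1 := ndB5q1) (n2 := ndB0q2) (pc := pcB1) (cut := cut_B50mm_112_s1) (xt := Ext.none) (P1 := 536870912) (W1 := 536870912) (P2 := 0) (W2 := 536870912) (P3 := 1020054732) (W3 := 13421774)
    rfl k0_B50mm_112_s1

theorem s_B50mm_112_s1 {κ x : ℝ} (hκ : κ * h0 = ken x) (hx : ((1020054732 : ℕ) : ℝ) / S ≤ x)
    (hx' : x ≤ (((1020054732 : ℕ) : ℝ) + (13421774 : ℕ)) / S) :
    AltB (VFD κ) PP tK tL pcB [⟨3, 0, 0, 1449551462⟩] 1 1 2 5 0 (sgb false) (sgb false) x :=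
  strip_altBD (m := 1449551462) true rfl hκ (SH.κ0 hκ (SH.hx1 hx).le (SH.hx2 hx').le) (SH.hx1 hx).le (SH.hx2 hx') (covB51).cov (covB02).cov hx hx' c_B50mm_112_s1 cutB_nil (noExt_B)

noncomputable def cut_B50mm_202_s1 : Cut := Cut.of [[⟨4, 0, 0, 1449551462⟩]]

noncomputable def f_B50mm_202_s1 : ℕ → ℕ → ℕ → ℕ → Bool := onCell 1073741824 536870912 0 536870912 1020054732 13421774
    (rowF 0 false false false .pp 2 0 2 (qsf 1073741824 536870912 0 536870912 0) ndB5q2 ndB0q2 pcB0 cut_B50mm_202_s1 Ext.none)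

def k0_B50mm_202_s1 : ∃ t, chk3 f_B50mm_202_s1 t 1 1 1 = true :=
  ⟨(l 5), by decide +kernel⟩

theorem c_B50mm_202_s1 : CertF 1073741824 536870912 0 536870912 1020054732 13421774 false false false .pp 2 0 2
    ndB5q2 ndB0q2 pcB0 cut_B50mm_202_s1 Ext.none :=
  certF0 (fam := false) (s1 := false) (s2 := false) (a := 2) (b := 0) (c := 2) (cn := .pp) (n1 := ndB5q2) (n2 := ndB0q2) (pc := pcB0) (cut := cut_B50mm_202_s1) (xt := Ext.none) (P1 := 1073741824) (W1 := 536870912) (P2 := 0) (W2 := 536870912) (P3 := 1020054732) (W3 := 13421774)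
    rfl k0_B50mm_202_s1

theorem s_B50mm_202_s1 {κ x : ℝ} (hκ : κ * h0 = ken x) (hx : ((1020054732 : ℕ) : ℝ) / S ≤ x)
    (hx' : x ≤ (((1020054732 : ℕ) : ℝ) + (13421774 : ℕ)) / S) :
    AltB (VFD κ) PP tK tL pcB [⟨3, 0, 0, 1449551462⟩] 2 0 2 5 0 (sgb false) (sgb false) x :=
  strip_altBD (m := 1449551462) true rfl hκ (SH.κ0 hκ (SH.hx1 hx).le (SH.hx2 hx').le) (SH.hx1 hx).le (SH.hx2 hx') (covB52).cov (covB02).cov hx hx' c_B50mm_202_s1 cutB_nil (noExt_B)

end Pool.Agent.Strip051.G.I9500_9625.Tab.St.C
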