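import Pool.Agent.Strip051.G.I9500_9625.Tab
import Pool.Agent.Strip051.PB.StripB

/-! # Strips, near vertex: certificates 7 (generated) -/

set_option linter.all false
set_option maxRecDepth 100000

namespace Pool.Agent.Strip051.G.I9500_9625.Tab.CS.BB05

open Pool.Agent.Strip051.PB Pool.Agent.Strip051.PB.T
open Pool.Agent.Strip051.G.I9500_9625.Tab

noncomputable def cut_pm_213_s : Cut := Cut.of [[⟨4, 0, 0, 1449551462⟩], [⟨0, 1, 0, 26738688⟩, ⟨1, 1, 0, 26738688⟩, ⟨2, 2, 0, 2621440⟩]]

noncomputable def f_pm_213_s : ℕ → ℕ → ℕ → ℕ → Bool := onCell 0 536870912 0 1230186008 1020054732 13421774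
    (rowNE 3 eng mog cd0q2 cd5q3 pd1 0 false true false .pnn 2 1 3 (qsf 0 536870912 0 1230186008 1) ndB0q2 ndB5q3 pcB1 cut_pm_213_s Ext.none)

def k0_pm_213_s : ∃ t, chk3 f_pm_213_s t 2 2 1 = true :=
  ⟨(b (l 3) (b (l 3) (a (l 3) (b (a (l 3) (a (l 3) (c (b (a (l 3) (l 336248956519)) (a (l 324437795895) (b (l 262697606327) (l 16765208)))) (b (l 342691356423) (a (l 322290314359) (b (l 260550108439) (l 16764136))))))) (b (a (l 3) (a (a (l 3) (b (l 338396440375) (a (l 309942244439) (l 248738943591)))) (b (a (a (l 287393655143) (l 16745864)) (l 16729144)) (c (l 16726296) (l 16723944))))) (b (a (l 3) (a (a (l 308331611111) (c (l 16765080) (l 16764416))) (a (l 16743496) (l 16719720)))) (a (a (l 3) (l 349133850087)) (a (a (c (l 16750512) (l 238001528103)) (l 16751160)) (l 16656744))))))))), by decide +kernel⟩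

def k1_pm_213_s : ∃ t, chk3 f_pm_213_s t 6 4 1 = true :=
  ⟨(b (l 3) (a (l 3) (b (l 3) (a (l 3) (b (a (l 3) (b (l 3) (a (l 3) (c (b (l 372756176215) (a (l 352355086567) (l 238538441479))) (b (l 375440530247) (a (l 353965699079) (l 236927827863))))))) (b (a (l 3) (a (c (b (l 314774100727) (a (l 287393709143) (l 16771664))) (b (l 313163487671) (a (l 283098741671) (l 16771184)))) (b (a (b (l 260550145767) (l 16771024)) (l 16765920)) (l 16760424)))) (a (c (a (l 349133855703) (b (l 290078043079) (l 198809989591))) (a (l 351818209287) (b (l 285783075831) (l 189146311607)))) (a (b (a (l 16769840) (l 16762520)) (l 16756976)) (l 16724952))))))))), by decide +kernel⟩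

def k2_pm_213_s : ∃ t, chk3 f_pm_213_s t 6 10 1 = true :=
  ⟨(a (b (a (l 3) (b (l 3) (a (l 3) (b (l 3) (a (l 3) (l 315310970263)))))) (b (a (l 3) (a (b (l 3) (c (l 306184189415) (l 307257909799))) (a (b (b (l 3) (l 294372998679)) (b (l 234243448503) (l 16764232))) (b (b (l 244444002375) (l 16767720)) (l 16755240))))) (a (a (l 3) (b (l 326585278487) (c (l 260013268471) (l 259476364535)))) (c (a (b (a (l 283098709815) (l 16765288)) (l 16755912)) (l 16738096)) (a (b (a (l 279340606151) (l 16764152)) (l 16753808)) (l 16734128)))))) (b (a (b (a (l 3) (b (a (l 3) (c (l 330343356647) (l 331953968791))) (a (c (l 292762375815) (l 295446730455)) (b (a (l 274508784903) (l 16769976)) (l 16764776))))) (a (b (a (l 328195889847) (c (l 283635589479) (l 282561825607))) (a (b (l 268603193783) (l 232095962679)) (b (l 16766408) (l 16757880)))) (a (b (c (l 185388212439) (l 16764832)) (l 16747992)) (b (l 16751376) (l 16732728))))) (b (a (c (b (a (b (l 265381977767) (l 16768496)) (l 16758792))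 (l 16748232)) (b (a (b (l 264308233095) (l 16767632)) (l 16757464)) (l 16746160))) (b (a (l 16721632) (l 16725800)) (l 16713704))) (a (c (l 16699208) (l 16694400)) (l 16659872)))) (a (b (a (b (a (l 16758680) (l 16744624)) (l 16733864)) (c (l 16714608) (l 16687568))) (a (l 16642632) (l 16670496))) (b (a (l 16675440) (l 16634272)) (l 16587128))))), by decide +kernel⟩

def k3_pm_213_s : ∃ t, chk3 f_pm_213_s t 6 11 1 = true :=
  ⟨(a (b (a (a (b (a (c (l 305647317639) (l 302962899783)) (b (l 297057337383) (l 226727222471))) (b (c (l 16757640) (l 16755808)) (l 16741472))) (b (b (c (l 215452963991) (l 186461930183)) (l 16727136)) (c (l 16725752) (l 16720376)))) (a (b (b (l 16738336) (l 16721208)) (l 16694608)) (b (l 16678944) (l 16661960)))) (a (b (c (l 16706608) (l 16699240)) (c (l 16674296) (l 16663200))) (b (l 16599184) (c (l 16612360) (l 16590800))))) (b (a (b (c (l 16654120) (l 16639560)) (l 16583472)) (b (a (l 16583544) (l 16534232)) (a (l 16536408) (l 16487704)))) (a (b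 (a (l 16583576) (l 16539832)) (c (l 16535416) (l 16507760))) (b (a (l 16493584) (l 16445208)) (l 16427728))))), by decide +kernel⟩

def k4_pm_213_s : ∃ t, chk3 f_pm_213_s t 14 8 1 = true :=
  ⟨(b (l 3) (a (l 3) (b (l 3) (a (l 3) (b (a (l 3) (b (l 3) (a (l 3) (b (l 3) (a (l 3) (b (a (l 3) (l 399599728775)) (a (l 383493596727) (b (l 253033966471) (l 16775824))))))))) (a (b (l 3) (a (l 3) (b (a (l 3) (c (l 399062845799) (l 400136598167))) (a (b (l 3) (a (l 402820953799) (l 339470182215))) (b (a (l 346986370647) (l 16775656)) (l 271287566711)))))) (b (a (b (l 3) (a (a (l 3) (l 408726532839)) (b (a (l 407652791943) (l 330880245639)) (a (l 249812739303) (l 16774864))))) (b (a (b (c (l 388862299895) (l 390472912663)) (a (l 348596988615) (l 268066347207))) (a (b (l 264845122615) (l 16773656)) (l 16772848))) (a (a (l 272361308007) (l 16772064)) (l 16748048)))) (a (a (b (b (a (l 381346118311) (l 258939543495)) (a (l 262697639191) (l 16774080))) (l 16771488)) (c (l 16769640) (l 16769944)))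 (c (l 16742304) (l 16742992)))))))))), by decide +kernel⟩

def k5_pm_213_s : ∃ t, chk3 f_pm_213_s t 28 18 1 = true :=
  ⟨(b (l 3) (a (b (l 3) (a (l 3) (b (l 3) (a (l 3) (b (l 3) (a (l 3) (l 311552879575))))))) (b (a (b (l 3) (a (l 3) (b (l 3) (l 389399177495)))) (b (a (l 3) (a (c (l 371145555191) (l 371682418183)) (b (l 366313721031) (b (l 261623895671) (l 16774016))))) (a (b (a (l 3) (b (l 366850602919) (l 258939542439))) (a (b (l 345912638455) (l 263771379031)) (l 16773512))) (b (a (l 182167005175) (l 16770472)) (l 16746696))))) (a (b (c (a (l 367924340743) (b (a (l 369534956647) (l 233169739879)) (l 191293808391))) (a (l 368461211511) (b (l 324437789671) (l 190220066423)))) (a (b (a (l 329806490359) (l 200957485975)) (a (l 16773952) (l 16770160))) (l 16766704))) (b (a (b (l 16773368) (l 16766008)) (l 16760400)) (l 16733496)))))), by decide +kernel⟩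

def k6_pm_213_s : ∃ t, chk3 f_pm_213_s t 29 18 1 = true :=
  ⟨(b (a (b (a (l 3) (b (l 3) (a (a (l 3) (c (l 397452241175) (l 397452241223))) (b (a (l 396378501015) (c (b (l 353428810519) (l 199883746103)) (l 317995340295))) (a (b (a (l 370071829335) (l 261087027399)) (l 266992601511)) (l 16772272)))))) (b (a (a (l 3) (a (l 3) (b (l 3) (a (l 378124891831) (l 327659017575))))) (a (b (a (a (l 401747210951) (l 351281337255)) (b (a (l 335175215303) (l 16775600)) (l 16774224))) (a (b (l 263234506791) (l 16773408)) (l 16770648))) (c (l 16766872) (l 16767176)))) (a (a (b (l 3) (a (l 382419857831) (b (l 339470177655) (l 204178712839)))) (a (b (b (l 362018744295) (l 256255186775)) (l 16772952)) (c (l 138680462391) (l 16771448)))) (c (l 16771568) (l 16771824))))) (b (a (b (a (b (a (l 3) (b (l 396378502215) (a (l 376514280167) (l 259476414727)))) (a (b (a (l 3) (l 359871282455)) (a (l 342154521991) (l 16775648))) (a (l 266992600855) (l 16772896)))) (a (b (a (b (l 255718318999) (l 16774488))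 (l 16773696)) (l 16748920)) (b (l 16770696) (l 16765808)))) (a (a (c (l 16770544) (l 16770800)) (l 16766640)) (l 16739240))) (a (b (l 16740872) (l 16751720)) (l 16727656))) (a (a (l 16732256) (l 16745024)) (l 16733120)))) (a (b (a (b (a (b (a (b (l 328195890343) (l 16774824)) (l 16772128)) (l 16769328)) (l 16742768)) (a (l 16741104) (l 16753432))) (b (l 16729704) (l 16740488))) (a (l 16721272) (l 16724928))) (b (a (l 16728992) (l 16713888)) (l 16700976)))), by decide +kernel⟩

def k7_pm_213_s : ∃ t, chk3 f_pm_213_s t 14 19 1 = true :=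
  ⟨(a (b (a (a (a (b (l 3) (b (c (l 284172460519) (l 279877492919)) (l 16767616))) (b (b (l 3) (c (b (l 337322702023) (l 242833412359)) (l 302426073543))) (c (l 125258685463) (l 16772224)))) (b (b (a (b (l 375440534711) (a (l 338933315447) (l 268603213399))) (b (a (l 313163501015) (l 16773128)) (l 16770384))) (a (c (l 176261422119) (l 170892712775)) (l 16742376))) (c (l 16731976) (l 16731448)))) (a (b (c (l 16777016) (l 16776928)) (l 16735592)) (b (l 16738904) (l 16717672)))) (a (b (c (l 16741672) (l 16740200)) (l 16699096)) (b (l 16704832) (l 16681928)))) (b (a (b (l 16712160) (l 16689888)) (l 16668512)) (a (l 16654128) (l 16619464)))), by decide +kernel⟩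

def k8_pm_213_s : ∃ t, chk3 f_pm_213_s t 30 16 1 = true :=
  ⟨(a (l 3) (b (l 3) (a (l 3) (a (a (l 3) (a (a (l 3) (a (l 3) (l 14))) (l 14))) (l 14))))), by decide +kernel⟩

def k9_pm_213_s : ∃ t, chk3 f_pm_213_s t 60 34 1 = true :=
  ⟨(b (l 3) (b (a (l 3) (a (l 3) (a (b (l 3) (a (c (l 421074563223) (l 418927079751)) (b (l 428053886231) (b (a (l 409263406055) (l 262160773431)) (a (l 268603224055) (l 16775848)))))) (b (a (l 3) (b (l 3) (a (l 395304759559) (b (l 386714828135) (l 16774592))))) (c (b (a (b (l 383493592039) (l 224042938951)) (l 16775184)) (l 16773752)) (b (a (l 342691403335) (l 16775392)) (l 16774096))))))) (a (l 3) (a (a (b (l 3) (a (b (l 3) (a (l 380272366535) (l 262160771559))) (a (b (l 402284083847) (l 16773328)) (b (l 342691408615) (l 16774960))))) (a (b (a (l 426980143687) (b (l 3) (l 365776857527))) (b (a (l 273971930375) (l 16775336)) (l 16773464))) (c (b (b (l 405505308967) (l 271824445463)) (l 16772408)) (b (b (l 405505309031) (l 215453004231)) (l 16772832)))))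 (a (b (b (a (b (a (l 376514280967) (l 16774016)) (l 282024993063)) (l 16774576)) (a (l 16774208) (l 16772176))) (l 16758984)) (c (l 16767432) (l 16768536))))))), by decide +kernel⟩

def k10_pm_213_s : ∃ t, chk3 f_pm_213_s t 60 35 1 = true :=
  ⟨(b (a (b (a (b (l 3) (a (l 3) (b (l 3) (a (l 3) (b (l 409263405447) (l 345375763863)))))) (b (a (c (l 416779595111) (l 415705853463)) (b (a (l 416242726583) (b (l 363629373911) (l 270213834279))) (a (b (l 345375763799) (l 274508800727)) (l 16774712)))) (a (b (a (b (l 3) (l 364703110439)) (a (l 261623900423) (l 16775824))) (a (a (l 266992608727) (l 16775456)) (l 16773960))) (c (l 16771904) (l 16772280))))) (a (b (a (b (l 3) (a (l 411947759239) (b (l 365776852199) (l 263771383511)))) (a (b (a (l 382956731447) (l 341617667031)) (l 16775192)) (c (l 146196657159) (l 16774456)))) (a (b (a (b (l 344838893015) (l 16770944)) (l 16774808)) (l 16768184)) (l 16770584))) (a (c (l 16768608) (l 16769200)) (l 16743664)))) (a (b (a (b (a (c (l 16773736)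 (l 16774000)) (l 16771872)) (l 16746936)) (b (l 16747720) (l 16763824))) (l 16737624)) (b (l 16744512) (l 16750712)))) (a (a (b (c (l 16764880) (l 16765648)) (l 16755208)) (b (l 16735944) (l 16747248))) (l 16708920))), by decide +kernel⟩

def k11_pm_213_s : ∃ t, chk3 f_pm_213_s t 61 68 1 = true :=
  ⟨(a (b (a (l 3) (b (l 3) (a (l 3) (b (a (l 3) (b (l 429127628695) (a (l 422685178727) (c (l 241759679799) (l 242833422071))))) (a (b (a (l 3) (l 406042180711)) (a (l 389936048391) (l 272898190823))) (a (c (l 193978168759) (l 275045673303)) (l 16775312))))))) (a (b (a (l 3) (a (l 3) (c (l 429664497383) (l 426443272135)))) (a (b (l 3) (a (l 3) (b (l 3) (a (l 429664500295) (l 348060119799))))) (b (a (c (l 420000820599) (l 418390210583)) (b (a (l 398525988055) (l 262697644023)) (a (l 275045674343) (l 16775664)))) (a (a (b (l 362018761367) (l 16776296)) (b (l 280951254039) (l 16775304))) (l 16770456))))) (b (a (b (a (l 3) (a (c (l 394767886279) (l 394767891559)) (b (l 373293053015)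 (l 16773744)))) (c (a (a (l 367387470375) (a (l 222432326839) (l 16775616))) (l 16774976)) (a (b (l 376514270471) (l 231022260967)) (l 16775264)))) (a (b (a (b (l 278266899607) (l 16775376)) (l 16774960)) (l 16773088)) (b (l 16773456) (l 16771120)))) (a (a (c (l 16773352) (l 16773840)) (l 16761056)) (l 16758112))))) (a (b (b (a (b (a (l 3) (c (l 432885724855) (l 427517015863))) (a (a (l 3) (c (l 400673466199) (l 400136600567))) (b (a (l 379198632951) (l 277730028807)) (a (l 283098737591) (l 16775424))))) (a (b (b (a (l 411410889751) (c (l 225116681959) (l 238001583975))) (a (c (l 213305522071) (l 16774168)) (l 16775776))) (b (l 16769864) (l 16773952))) (l 14))) (a (b (a (b (a (b (l 355576313047) (l 268603224967)) (l 16776248)) (a (l 16776080) (l 16775072))) (l 16768936)) (a (l 16773816) (l 16771864))) (c (l 16748528) (l 16749840)))) (a (c (l 16755648) (l 16768024)) (l 16742312))) (b (l 14) (l 16736768)))), by decide +kernel⟩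

def k12_pm_213_s : ∃ t, chk3 f_pm_213_s t 61 69 1 = true :=
  ⟨(a (b (a (b (a (b (a (b (l 421611436183) (a (l 402820955223) (l 263234515095))) (a (b (l 346449506775) (l 16775936)) (l 16775528))) (a (c (l 175724557559) (l 192904426967)) (l 16773664))) (a (b (l 16774024) (l 16771584)) (l 16749792))) (a (a (l 16766824) (l 16749024)) (l 16746032))) (a (b (l 16746840) (l 16763096)) (l 16740672))) (a (c (l 16739688) (l 16742080)) (l 16733240))) (a (b (l 16735088) (l 16747008)) (l 16723560))), by decide +kernel⟩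

def k13_pm_213_s : ∃ t, chk3 f_pm_213_s t 61 35 1 = true :=
  ⟨(a (b (a (l 16726768) (l 16740384)) (l 16725656)) (b (l 16709264) (l 16712520))), by decide +kernel⟩

def k14_pm_213_s : ∃ t, chk3 f_pm_213_s t 31 8 1 = true :=
  ⟨(b (l 14) (b (b (b (l 14) (a (a (l 16726040) (l 16733232)) (l 16671424))) (a (a (l 16713320) (l 16720920)) (l 16659544))) (a (a (l 16667256) (l 16675840)) (l 16615216)))), by decide +kernel⟩

def k15_pm_213_s : ∃ t, chk3 f_pm_213_s t 15 9 1 = true :=
  ⟨(a (b (a (b (a (b (l 16715808) (l 16717784)) (l 16670576)) (l 16661768)) (b (a (l 16698416) (l 16686448)) (l 16657040))) (a (b (l 16646512) (l 16606872)) (b (l 16622304) (l 16589344)))) (b (a (b (l 16606912) (l 16637384)) (b (l 16626576) (l 16616544))) (a (b (l 16604264) (l 16597664)) (b (l 16586600) (l 16649704))))), by decide +kernel⟩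

def k16_pm_213_s : ∃ t, chk3 f_pm_213_s t 7 5 1 = true :=
  ⟨(b (a (b (a (b (a (l 16665784) (l 16645312)) (a (l 16639056) (l 16592872))) (b (l 16580912) (a (l 16544336) (l 16500968)))) (a (b (l 16562352) (a (l 16533816) (l 16481352))) (b (a (l 16485224) (l 16444512)) (l 16411608)))) (a (b (a (b (l 16544488) (l 16482616)) (b (l 16587032) (l 16506152))) (a (l 16378944) (l 16346384))) (b (a (l 16656144) (l 16755408)) (l 16489800)))) (b (a (a (b (a (l 16483128) (l 16432848)) (l 16411608)) (b (l 16352976) (l 16292160))) (l 6)) (a (a (b (l 16362904) (l 16314480)) (l 6)) (l 6)))), by decide +kernel⟩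

def k17_pm_213_s : ∃ t, chk3 f_pm_213_s t 2 12 1 = true :=
  ⟨(a (b (l 3) (a (l 3) (a (l 3) (c (b (l 353428802743) (a (b (l 358260651511) (l 265918784375)) (b (l 247665161559) (l 16755608)))) (b (l 344302005303) (b (l 271824362567) (l 236927739687))))))) (b (a (a (b (l 3) (b (l 347523234327) (c (l 288467383191) (l 283635604535)))) (b (b (c (l 292762411479) (l 286856830231)) (a (l 301889148599) (c (l 16764032) (l 16764032)))) (b (a (c (l 16748960) (l 16770160)) (l 16730384)) (a (l 16715672) (l 16738104))))) (b (a (b (a (l 16716208) (l 16737064)) (c (l 16733040) (l 16731560))) (c (l 16694864) (l 16688648))) (a (b (l 16656976) (l 16664104)) (l 16580328)))) (a (b (a (b (a (l 291688585447) (c (l 16762056) (l 16763088))) (a (c (l 16767440) (l 16768656)) (l 16708856))) (b (c (l 16731928) (l 16733288)) (l 16617056))) (a (c (b (l 16742008) (l 16722288)) (b (l 16746888) (l 16734384))) (a (l 16566120) (l 16587888)))) (b (a (c (l 16682248) (l 16680408)) (b (l 16642832) (l 16545168)))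 (a (c (l 16549880) (l 16652416)) (a (l 16455360) (l 16489728))))))), by decide +kernel⟩

def k18_pm_213_s : ∃ t, chk3 f_pm_213_s t 2 13 1 = true :=
  ⟨(a (a (b (a (l 3) (b (l 3) (b (l 3) (c (l 317458424055) (l 312626627607))))) (c (b (a (l 363092458887) (b (a (l 294372927671) (l 16734080)) (a (l 236390800647) (l 16724856)))) (a (a (b (l 3) (l 271824325319)) (b (l 251960084775) (l 16739832))) (b (a (l 16731768) (l 16689976)) (l 16631264)))) (b (a (l 352891922167) (b (l 251423238679) (l 213305378439))) (a (a (l 286319833175) (b (l 16733816) (l 16765800))) (b (l 16733872) (l 16744904)))))) (a (b (b (a (b (l 3) (l 312626545527)) (b (l 295446668471) (c (l 16723016) (l 16771360)))) (c (b (a (l 251423238871) (l 16742616)) (a (l 16748536) (l 16714928))) (b (l 226190310327) (l 16735656)))) (b (c (b (l 16701232) (l 16666872)) (b (l 16745744) (l 16735280))) (c (c (b (l 16599544) (l 16550032)) (l 16640624)) (l 16636696)))) (b (c (b (b (a (l 16760096) (l 16734896)) (l 16724240)) (b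 (l 16697208) (l 16666336))) (b (b (l 16737264) (l 16746472)) (l 16687408))) (b (b (l 16462448) (l 16437768)) (a (c (l 16509952) (l 16697448)) (b (l 16482872) (a (l 16415544) (l 16372144)))))))) (c (b (a (b (a (b (l 16698960) (l 16671864)) (l 16641280)) (a (l 16547752) (b (l 16581200) (l 16452896)))) (a (b (c (l 16486808) (l 16636600)) (l 16408328)) (b (l 16589840) (l 16560760)))) (a (b (a (a (l 16540752) (b (l 16553040) (l 16531536))) (b (a (l 16553816) (l 16604032)) (l 16608840))) (a (c (a (l 16386896) (l 16531072)) (l 16409352)) (l 16602296))) (b (l 16517240) (l 16507056)))) (b (a (b (a (l 16716072) (l 16674896)) (a (l 16693104) (l 16630344))) (a (b (l 16626464) (l 16600696)) (l 16553408))) (a (b (a (l 16567008) (l 16585920)) (a (c (l 16636872) (l 16639808)) (l 16597920))) (b (l 16538200) (l 16500752)))))), by decide +kernel⟩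

def k19_pm_213_s : ∃ t, chk3 f_pm_213_s t 3 6 1 = true :=
  ⟨(a (b (a (b (a (b (l 16595464) (c (l 16611088) (l 16592336))) (b (c (l 16577840) (l 16553384)) (c (l 16544424) (l 16519640)))) (b (a (a (l 16549856) (l 16557576)) (l 16499080)) (a (l 16543848) (l 16463616)))) (a (b (b (l 16484480) (l 16446728)) (b (l 16408664) (l 6))) (b (b (l 16385624) (l 6)) (l 6)))) (a (a (b (b (l 16510496) (l 6)) (l 6)) (l 6)) (l 6))) (b (l 6) (l 6))), by decide +kernel⟩

def k20_pm_213_s : ∃ t, chk3 f_pm_213_s t 1 7 1 = true :=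
  ⟨(a (a (b (b (a (b (c (b (a (a (l 16716648) (l 16701832)) (l 16610744)) (a (c (l 16668224) (l 16701352)) (l 16583704))) (a (b (l 199346688791) (l 16730088)) (l 16584264))) (c (c (a (c (l 16469824) (l 16518800)) (b (l 16495120) (l 16436104))) (a (l 16645016) (b (l 16580640) (l 16538816)))) (a (c (l 16701888) (l 16734792)) (b (l 16709352) (l 16609896))))) (b (b (a (c (c (l 16496216) (l 16584696)) (l 16707360)) (c (a (l 16440608) (l 16457000)) (l 16633248))) (a (c (a (l 16514256) (l 16430384)) (l 16636248)) (a (a (l 16329768) (l 16350328)) (l 16496344)))) (a (c (b (a (l 16423112) (c (l 16404480) (l 16520808))) (a (l 16344480) (l 16512688))) (b (l 16564584) (l 16511552))) (c (l 16375256) (l 16638000))))) (b (c (b (a (a (c (l 16500952) (l 16582832)) (a (l 16458584) (l 16334696))) (a (l 16437512) (l 16634520))) (a (a (l 16383608) (a (l 16307296) (l 16420392))) (l 16410176))) (a (a (l 16509760) (b (l 16518592) (l 16460592))) (a (l 16630064) (l 16589808)))) (b (a (a (c (a (l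 16462856) (l 16283200)) (l 16494920)) (c (c (l 16387496) (l 16530056)) (l 16567464))) (a (l 16587688) (l 16543800))) (l 1)))) (l 1)) (b (a (b (c (b (b (l 16459816) (l 16605800)) (l 16472664)) (b (l 16590864) (l 16544960))) (b (c (l 16456912) (l 16483216)) (l 6))) (l 6)) (l 6))) (l 6)), by decide +kernel⟩

theorem s21_pm_213_s : ∃ t, chk3 f_pm_213_s t 2 6 1 = true := ex3_b k17_pm_213_s k18_pm_213_s

theorem s22_pm_213_s : ∃ t, chk3 f_pm_213_s t 1 6 1 = true := ex3_a s21_pm_213_s k19_pm_213_s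

theorem s23_pm_213_s : ∃ t, chk3 f_pm_213_s t 1 3 1 = true := ex3_b s22_pm_213_s k20_pm_213_s

theorem s24_pm_213_s : ∃ t, chk3 f_pm_213_s t 61 34 1 = true := ex3_b k11_pm_213_s k12_pm_213_s

theorem s25_pm_213_s : ∃ t, chk3 f_pm_213_s t 61 17 1 = true := ex3_b s24_pm_213_s k13_pm_213_s

theorem s26_pm_213_s : ∃ t, chk3 f_pm_213_s t 60 17 1 = true := ex3_b k9_pm_213_s k10_pm_213_s

theorem s27_pm_213_s : ∃ t, chk3 f_pm_213_s t 30 17 1 = true := ex3_a s26_pm_213_s s25_pm_213_s

theorem s28_pm_213_s : ∃ t, chk3 f_pm_213_s t 30 8 1 = true := ex3_b k8_pm_213_s s27_pm_213_s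

theorem s29_pm_213_s : ∃ t, chk3 f_pm_213_s t 15 8 1 = true := ex3_a s28_pm_213_s k14_pm_213_s

theorem s30_pm_213_s : ∃ t, chk3 f_pm_213_s t 15 4 1 = true := ex3_b s29_pm_213_s k15_pm_213_s

theorem s31_pm_213_s : ∃ t, chk3 f_pm_213_s t 14 18 1 = true := ex3_a k5_pm_213_s k6_pm_213_s

theorem s32_pm_213_s : ∃ t, chk3 f_pm_213_s t 14 9 1 = true := ex3_b s31_pm_213_s k7_pm_213_s

theorem s33_pm_213_s : ∃ t, chk3 f_pm_213_s t 14 4 1 = true := ex3_b k4_pm_213_s s32_pm_213_s

theorem s34_pm_213_s : ∃ t, chk3 f_pm_213_s t 7 4 1 = true := ex3_a s33_pm_213_s s30_pm_213_s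

theorem s35_pm_213_s : ∃ t, chk3 f_pm_213_s t 7 2 1 = true := ex3_b s34_pm_213_s k16_pm_213_s

theorem s36_pm_213_s : ∃ t, chk3 f_pm_213_s t 6 5 1 = true := ex3_b k2_pm_213_s k3_pm_213_s

theorem s37_pm_213_s : ∃ t, chk3 f_pm_213_s t 6 2 1 = true := ex3_b k1_pm_213_s s36_pm_213_s

theorem s38_pm_213_s : ∃ t, chk3 f_pm_213_s t 3 2 1 = true := ex3_a s37_pm_213_s s35_pm_213_s

theorem s39_pm_213_s : ∃ t, chk3 f_pm_213_s t 1 2 1 = true := ex3_a k0_pm_213_s s38_pm_213_s

theorem s40_pm_213_s : ∃ t, chk3 f_pm_213_s t 1 1 1 = true := ex3_b s39_pm_213_s s23_pm_213_s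

theorem c_pm_213_s : CertNE 0 536870912 0 1230186008 1020054732 13421774 3 eng mog cd0q2 cd5q3 pd1 false true false .pnn 2 1 3
    ndB0q2 ndB5q3 pcB1 cut_pm_213_s Ext.none :=
  certNE0 (fam := false) (s1 := true) (s2 := false) (a := 2) (b := 1) (c := 3) (cn := .pnn) (n1 := ndB0q2) (n2 := ndB5q3) (pc := pcB1) (cut := cut_pm_213_s) (xt := Ext.none) (P1 := 0) (W1 := 536870912) (P2 := 0) (W2 := 1230186008) (P3 := 1020054732) (W3 := 13421774) (N0 := 3) (En := eng) (mo := mog) (C1 := cd0q2) (C2 := cd5q3) (C3 := pd1)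
    rfl s40_pm_213_s

noncomputable def cut_mm_001_s : Cut := Cut.of [[⟨4, 0, 0, 1449551462⟩]]

noncomputable def f_mm_001_s : ℕ → ℕ → ℕ → ℕ → Bool := onCell 0 536870912 0 536870912 1020054732 13421774
    (rowNE 3 eng mog cd0q0 cd5q1 pd0 1 false false false .up 0 0 1 (qsf 0 536870912 536870912 536870912 0) ndB0q0 ndB5q1 pcB0 cut_mm_001_s Ext.none)

def k0_mm_001_s : ∃ t, chk3 f_mm_001_s t 1 1 1 = true :=
  ⟨(l 3), by decide +kernel⟩

theorem c_mm_001_s : CertNE 0 536870912 536870912 536870912 1020054732 13421774 3 eng mog cd0q0 cd5q1 pd0 false false false .up 0 0 1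
    ndB0q0 ndB5q1 pcB0 cut_mm_001_s Ext.none :=
  certNE1 (fam := false) (s1 := false) (s2 := false) (a := 0) (b := 0) (c := 1) (cn := .up) (n1 := ndB0q0) (n2 := ndB5q1) (pc := pcB0) (cut := cut_mm_001_s) (xt := Ext.none) (P1 := 0) (W1 := 536870912) (P2 := 536870912) (W2 := 536870912) (P3 := 1020054732) (W3 := 13421774) (N0 := 3) (En := eng) (mo := mog) (C1 := cd0q0) (C2 := cd5q1) (C3 := pd0)
    rfl (fun _ => rfl) k0_mm_001_s

noncomputable def cut_mm_011_s : Cut := Cut.of [[⟨4, 0, 0, 1449551462⟩]]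

noncomputable def f_mm_011_s : ℕ → ℕ → ℕ → ℕ → Bool := onCell 0 536870912 536870912 536870912 1020054732 13421774
    (rowNE 3 eng mog cd0q0 cd5q1 pd1 1 false false false .pnn 0 1 1 (qsf 0 536870912 536870912 536870912 1) ndB0q0 ndB5q1 pcB1 cut_mm_011_s Ext.none)

def k0_mm_011_s : ∃ t, chk3 f_mm_011_s t 1 1 1 = true :=
  ⟨(l 5), by decide +kernel⟩

theorem c_mm_011_s : CertNE 0 536870912 536870912 536870912 1020054732 13421774 3 eng mog cd0q0 cd5q1 pd1 false false false .pnn 0 1 1
    ndB0q0 ndB5q1 pcB1 cut_mm_011_s Ext.none :=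
  certNE1 (fam := false) (s1 := false) (s2 := false) (a := 0) (b := 1) (c := 1) (cn := .pnn) (n1 := ndB0q0) (n2 := ndB5q1) (pc := pcB1) (cut := cut_mm_011_s) (xt := Ext.none) (P1 := 0) (W1 := 536870912) (P2 := 536870912) (W2 := 536870912) (P3 := 1020054732) (W3 := 13421774) (N0 := 3) (En := eng) (mo := mog) (C1 := cd0q0) (C2 := cd5q1) (C3 := pd1)
    rfl (fun _ => rfl) k0_mm_011_s

noncomputable def cut_mm_012_s : Cut := Cut.of [[⟨4, 0, 0, 1449551462⟩]]

noncomputable def f_mm_012_s : ℕ → ℕ → ℕ → ℕ → Bool := onCell 0 536870912 1073741824 536870912 1020054732 13421774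
    (rowNE 3 eng mog cd0q0 cd5q2 pd1 0 false false false .pnp 0 1 2 (qsf 0 536870912 1073741824 536870912 1) ndB0q0 ndB5q2 pcB1 cut_mm_012_s Ext.none)

def k0_mm_012_s : ∃ t, chk3 f_mm_012_s t 1 1 1 = true :=
  ⟨(l 5), by decide +kernel⟩

theorem c_mm_012_s : CertNE 0 536870912 1073741824 536870912 1020054732 13421774 3 eng mog cd0q0 cd5q2 pd1 false false false .pnp 0 1 2
    ndB0q0 ndB5q2 pcB1 cut_mm_012_s Ext.none :=
  certNE0 (fam := false) (s1 := false) (s2 := false) (a := 0) (b := 1) (c := 2) (cn := .pnp) (n1 := ndB0q0) (n2 := ndB5q2) (pc := pcB1) (cut := cut_mm_012_s) (xt := Ext.none) (P1 := 0) (W1 := 536870912) (P2 := 1073741824) (W2 := 536870912) (P3 := 1020054732) (W3 := 13421774) (N0 := 3) (En := eng) (mo := mog) (C1 := cd0q0) (C2 := cd5q2) (C3 := pd1)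
    rfl k0_mm_012_s

noncomputable def cut_mm_022_s : Cut := Cut.of [[⟨4, 0, 0, 1449551462⟩]]

noncomputable def f_mm_022_s : ℕ → ℕ → ℕ → ℕ → Bool := onCell 0 536870912 1073741824 536870912 1020054732 13421774
    (rowNE 3 eng mog cd0q0 cd5q2 pd2 0 false false false .pp 0 2 2 (qsf 0 536870912 1073741824 536870912 2) ndB0q0 ndB5q2 pcB2 cut_mm_022_s Ext.none)

def k0_mm_022_s : ∃ t, chk3 f_mm_022_s t 1 1 1 = true :=
  ⟨(l 5), by decide +kernel⟩

theorem c_mm_022_s : CertNE 0 536870912 1073741824 536870912 1020054732 13421774 3 eng mog cd0q0 cd5q2 pd2 false false false .pp 0 2 2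
    ndB0q0 ndB5q2 pcB2 cut_mm_022_s Ext.none :=
  certNE0 (fam := false) (s1 := false) (s2 := false) (a := 0) (b := 2) (c := 2) (cn := .pp) (n1 := ndB0q0) (n2 := ndB5q2) (pc := pcB2) (cut := cut_mm_022_s) (xt := Ext.none) (P1 := 0) (W1 := 536870912) (P2 := 1073741824) (W2 := 536870912) (P3 := 1020054732) (W3 := 13421774) (N0 := 3) (En := eng) (mo := mog) (C1 := cd0q0) (C2 := cd5q2) (C3 := pd2)
    rfl k0_mm_022_s

noncomputable def cut_mm_023_s : Cut := Cut.of [[⟨4, 0, 0, 1449551462⟩]]

noncomputable def f_mm_023_s : ℕ → ℕ → ℕ → ℕ → Bool := onCell 0 536870912 0 1230186008 1020054732 13421774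
    (rowNE 3 eng mog cd0q0 cd5q3 pd2 0 false false false .up 0 2 3 (qsf 0 536870912 0 1230186008 2) ndB0q0 ndB5q3 pcB2 cut_mm_023_s Ext.none)

def k0_mm_023_s : ∃ t, chk3 f_mm_023_s t 1 1 1 = true :=
  ⟨(l 5), by decide +kernel⟩

theorem c_mm_023_s : CertNE 0 536870912 0 1230186008 1020054732 13421774 3 eng mog cd0q0 cd5q3 pd2 false false false .up 0 2 3
    ndB0q0 ndB5q3 pcB2 cut_mm_023_s Ext.none :=
  certNE0 (fam := false) (s1 := false) (s2 := false) (a := 0) (b := 2) (c := 3) (cn := .up) (n1 := ndB0q0) (n2 := ndB5q3) (pc := pcB2) (cut := cut_mm_023_s) (xt := Ext.none) (P1 := 0) (W1 := 536870912) (P2 := 0) (W2 := 1230186008) (P3 := 1020054732) (W3 := 13421774) (N0 := 3) (En := eng) (mo := mog) (C1 := cd0q0) (C2 := cd5q3) (C3 := pd2)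
    rfl k0_mm_023_s

noncomputable def cut_mm_033_s : Cut := Cut.of [[⟨4, 0, 0, 1449551462⟩]]

noncomputable def f_mm_033_s : ℕ → ℕ → ℕ → ℕ → Bool := onCell 0 536870912 0 1230186008 1020054732 13421774
    (rowNE 3 eng mog cd0q0 cd5q3 pd3 0 false false false .pnn 0 3 3 (qsf 0 536870912 0 1230186008 3) ndB0q0 ndB5q3 pcB3 cut_mm_033_s Ext.none)

def k0_mm_033_s : ∃ t, chk3 f_mm_033_s t 1 1 1 = true :=
  ⟨(l 5), by decide +kernel⟩

theorem c_mm_033_s : CertNE 0 536870912 0 1230186008 1020054732 13421774 3 eng mog cd0q0 cd5q3 pd3 false false false .pnn 0 3 3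
    ndB0q0 ndB5q3 pcB3 cut_mm_033_s Ext.none :=
  certNE0 (fam := false) (s1 := false) (s2 := false) (a := 0) (b := 3) (c := 3) (cn := .pnn) (n1 := ndB0q0) (n2 := ndB5q3) (pc := pcB3) (cut := cut_mm_033_s) (xt := Ext.none) (P1 := 0) (W1 := 536870912) (P2 := 0) (W2 := 1230186008) (P3 := 1020054732) (W3 := 13421774) (N0 := 3) (En := eng) (mo := mog) (C1 := cd0q0) (C2 := cd5q3) (C3 := pd3)
    rfl k0_mm_033_s

noncomputable def cut_mm_101_s : Cut := Cut.of [[⟨4, 0, 0, 1449551462⟩], [⟨0, 1, 0, 38347922⟩, ⟨1, 0, 0, 38347922⟩, ⟨2, 1, 0, 38347922⟩]]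

noncomputable def f_mm_101_s : ℕ → ℕ → ℕ → ℕ → Bool := onCell 536870912 536870912 0 536870912 1020054732 13421774
    (rowNE 3 eng mog cd0q1 cd5q1 pd0 1 false false false .npn 1 0 1 (qsf 536870912 536870912 536870912 536870912 0) ndB0q1 ndB5q1 pcB0 cut_mm_101_s Ext.none)

def k0_mm_101_s : ∃ t, chk3 f_mm_101_s t 1 1 1 = true :=
  ⟨(a (l 3) (b (a (l 3) (b (a (l 3) (a (l 3) (b (b (l 14) (l 3)) (l 2)))) (l 3))) (l 3))), by decide +kernel⟩

theorem c_mm_101_s : CertNE 536870912 536870912 536870912 536870912 1020054732 13421774 3 eng mog cd0q1 cd5q1 pd0 false false false .npn 1 0 1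
    ndB0q1 ndB5q1 pcB0 cut_mm_101_s Ext.none :=
  certNE1 (fam := false) (s1 := false) (s2 := false) (a := 1) (b := 0) (c := 1) (cn := .npn) (n1 := ndB0q1) (n2 := ndB5q1) (pc := pcB0) (cut := cut_mm_101_s) (xt := Ext.none) (P1 := 536870912) (W1 := 536870912) (P2 := 536870912) (W2 := 536870912) (P3 := 1020054732) (W3 := 13421774) (N0 := 3) (En := eng) (mo := mog) (C1 := cd0q1) (C2 := cd5q1) (C3 := pd0)
    rfl (fun _ => rfl) k0_mm_101_s

noncomputable def cut_mm_102_s : Cut := Cut.of [[⟨4, 0, 0, 1449551462⟩], [⟨0, 1, 0, 38347922⟩, ⟨1, 0, 0, 38347922⟩, ⟨2, 1, 0, 38347922⟩]]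

noncomputable def f_mm_102_s : ℕ → ℕ → ℕ → ℕ → Bool := onCell 536870912 536870912 0 536870912 1020054732 13421774
    (rowNE 3 eng mog cd0q1 cd5q2 pd0 1 false false false .npp 1 0 2 (qsf 536870912 536870912 1073741824 536870912 0) ndB0q1 ndB5q2 pcB0 cut_mm_102_s Ext.none)

def k0_mm_102_s : ∃ t, chk3 f_mm_102_s t 1 1 1 = true :=
  ⟨(a (l 3) (b (a (l 3) (b (a (l 3) (b (a (l 3) (b (l 14) (l 3))) (l 3))) (l 3))) (l 3))), by decide +kernel⟩

theorem c_mm_102_s : CertNE 536870912 536870912 1073741824 536870912 1020054732 13421774 3 eng mog cd0q1 cd5q2 pd0 false false false .npp 1 0 2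
    ndB0q1 ndB5q2 pcB0 cut_mm_102_s Ext.none :=
  certNE1 (fam := false) (s1 := false) (s2 := false) (a := 1) (b := 0) (c := 2) (cn := .npp) (n1 := ndB0q1) (n2 := ndB5q2) (pc := pcB0) (cut := cut_mm_102_s) (xt := Ext.none) (P1 := 536870912) (W1 := 536870912) (P2 := 1073741824) (W2 := 536870912) (P3 := 1020054732) (W3 := 13421774) (N0 := 3) (En := eng) (mo := mog) (C1 := cd0q1) (C2 := cd5q2) (C3 := pd0)
    rfl (fun _ => rfl) k0_mm_102_s

noncomputable def cut_mm_112_s : Cut := Cut.of [[⟨4, 0, 0, 1449551462⟩]]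

noncomputable def f_mm_112_s : ℕ → ℕ → ℕ → ℕ → Bool := onCell 536870912 536870912 1073741824 536870912 1020054732 13421774
    (rowNE 3 eng mog cd0q1 cd5q2 pd1 2 false false false .dn 1 1 2 (qsf 536870912 536870912 1073741824 536870912 1) ndB0q1 ndB5q2 pcB1 cut_mm_112_s Ext.none)

def k0_mm_112_s : ∃ t, chk3 f_mm_112_s t 1 1 1 = true :=
  ⟨(a (l 3) (l 5)), by decide +kernel⟩

theorem c_mm_112_s : CertNE 536870912 536870912 1073741824 536870912 1020054732 13421774 3 eng mog cd0q1 cd5q2 pd1 false false false .dn 1 1 2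
    ndB0q1 ndB5q2 pcB1 cut_mm_112_s Ext.none :=
  certNE2 (fam := false) (s1 := false) (s2 := false) (a := 1) (b := 1) (c := 2) (cn := .dn) (n1 := ndB0q1) (n2 := ndB5q2) (pc := pcB1) (cut := cut_mm_112_s) (xt := Ext.none) (P1 := 536870912) (W1 := 536870912) (P2 := 1073741824) (W2 := 536870912) (P3 := 1020054732) (W3 := 13421774) (N0 := 3) (En := eng) (mo := mog) (C1 := cd0q1) (C2 := cd5q2) (C3 := pd1)
    rfl (fun _ => rfl) k0_mm_112_s

noncomputable def cut_mm_113_s : Cut := Cut.of [[⟨4, 0, 0, 1449551462⟩]]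

noncomputable def f_mm_113_s : ℕ → ℕ → ℕ → ℕ → Bool := onCell 536870912 536870912 0 1230186008 1020054732 13421774
    (rowNE 3 eng mog cd0q1 cd5q3 pd1 0 false false false .nn 1 1 3 (qsf 536870912 536870912 0 1230186008 1) ndB0q1 ndB5q3 pcB1 cut_mm_113_s Ext.none)

def k0_mm_113_s : ∃ t, chk3 f_mm_113_s t 1 1 1 = true :=
  ⟨(a (l 5) (b (l 5) (a (b (l 5) (l 3)) (l 3)))), by decide +kernel⟩

theorem c_mm_113_s : CertNE 536870912 536870912 0 1230186008 1020054732 13421774 3 eng mog cd0q1 cd5q3 pd1 false false false .nn 1 1 3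
    ndB0q1 ndB5q3 pcB1 cut_mm_113_s Ext.none :=
  certNE0 (fam := false) (s1 := false) (s2 := false) (a := 1) (b := 1) (c := 3) (cn := .nn) (n1 := ndB0q1) (n2 := ndB5q3) (pc := pcB1) (cut := cut_mm_113_s) (xt := Ext.none) (P1 := 536870912) (W1 := 536870912) (P2 := 0) (W2 := 1230186008) (P3 := 1020054732) (W3 := 13421774) (N0 := 3) (En := eng) (mo := mog) (C1 := cd0q1) (C2 := cd5q3) (C3 := pd1)
    rfl k0_mm_113_s

noncomputable def cut_mm_123_s : Cut := Cut.of [[⟨4, 0, 0, 1449551462⟩]]

noncomputable def f_mm_123_s : ℕ → ℕ → ℕ → ℕ → Bool := onCell 1073741824 536870912 0 1230186008 1020054732 13421774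
    (rowNE 3 eng mog cd0q1 cd5q3 pd2 2 false false false .npn 1 2 3 (qsf 536870912 536870912 0 1230186008 2) ndB0q1 ndB5q3 pcB2 cut_mm_123_s Ext.none)

def k0_mm_123_s : ∃ t, chk3 f_mm_123_s t 1 1 1 = true :=
  ⟨(b (l 5) (l 5)), by decide +kernel⟩

theorem c_mm_123_s : CertNE 536870912 536870912 0 1230186008 1020054732 13421774 3 eng mog cd0q1 cd5q3 pd2 false false false .npn 1 2 3
    ndB0q1 ndB5q3 pcB2 cut_mm_123_s Ext.none :=
  certNE2 (fam := false) (s1 := false) (s2 := false) (a := 1) (b := 2) (c := 3) (cn := .npn) (n1 := ndB0q1) (n2 := ndB5q3) (pc := pcB2) (cut := cut_mm_123_s) (xt := Ext.none) (P1 := 536870912) (W1 := 536870912) (P2 := 0) (W2 := 1230186008) (P3 := 1020054732) (W3 := 13421774) (N0 := 3) (En := eng) (mo := mog) (C1 := cd0q1) (C2 := cd5q3) (C3 := pd2)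
    rfl (fun _ => rfl) k0_mm_123_s

noncomputable def cut_mm_133_s : Cut := Cut.of [[⟨4, 0, 0, 1449551462⟩]]

noncomputable def f_mm_133_s : ℕ → ℕ → ℕ → ℕ → Bool := onCell 1610612736 536870912 0 1230186008 1020054732 13421774
    (rowNE 3 eng mog cd0q1 cd5q3 pd3 2 false false false .dn 1 3 3 (qsf 536870912 536870912 0 1230186008 3) ndB0q1 ndB5q3 pcB3 cut_mm_133_s Ext.none)

def k0_mm_133_s : ∃ t, chk3 f_mm_133_s t 1 1 1 = true :=
  ⟨(l 5), by decide +kernel⟩

theorem c_mm_133_s : CertNE 536870912 536870912 0 1230186008 1020054732 13421774 3 eng mog cd0q1 cd5q3 pd3 false false false .dn 1 3 3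
    ndB0q1 ndB5q3 pcB3 cut_mm_133_s Ext.none :=
  certNE2 (fam := false) (s1 := false) (s2 := false) (a := 1) (b := 3) (c := 3) (cn := .dn) (n1 := ndB0q1) (n2 := ndB5q3) (pc := pcB3) (cut := cut_mm_133_s) (xt := Ext.none) (P1 := 536870912) (W1 := 536870912) (P2 := 0) (W2 := 1230186008) (P3 := 1020054732) (W3 := 13421774) (N0 := 3) (En := eng) (mo := mog) (C1 := cd0q1) (C2 := cd5q3) (C3 := pd3)
    rfl (fun _ => rfl) k0_mm_133_s

noncomputable def cut_mm_202_s : Cut := Cut.of [[⟨4, 0, 0, 1449551462⟩], [⟨0, 1, 0, 26843545⟩, ⟨1, 0, 0, 26843545⟩, ⟨2, 1, 0, 26843545⟩]]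

noncomputable def f_mm_202_s : ℕ → ℕ → ℕ → ℕ → Bool := onCell 0 536870912 0 536870912 1020054732 13421774
    (rowNE 3 eng mog cd0q2 cd5q2 pd0 1 false false false .pp 2 0 2 (qsf 0 536870912 1073741824 536870912 0) ndB0q2 ndB5q2 pcB0 cut_mm_202_s Ext.none)

def k0_mm_202_s : ∃ t, chk3 f_mm_202_s t 2 1 1 = true :=
  ⟨(b (a (a (l 6) (b (l 6) (b (l 6) (a (l 6) (b (l 16383416) (b (l 16507840) (l 16547712))))))) (a (a (b (l 6) (b (b (l 6) (l 16352416)) (b (b (l 16481064) (l 16546272)) (l 16578424)))) (b (b (l 6) (l 6)) (b (b (b (l 16277168) (l 16360272)) (b (l 16443536) (l 16530664))) (b (b (l 16576936) (l 16603648)) (l 16619224))))) (b (b (b (l 6) (b (l 16136224) (l 16205224))) (b (b (l 16243368) (a (l 16237840) (b (l 16302400) (l 16315192)))) (b (a (b (l 16260240) (l 16272368)) (l 16368032)) (a (l 16322944) (l 16448336))))) (b (b (a (b (l 16405688) (l 16489880)) (b (l 16537056) (a (l 16588392) (l 16623712)))) (b (a (a (l 16546848) (l 16595944)) (l 16630768)) (a (l 16604080)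 (l 16646704)))) (b (a (l 16629864) (l 16663472)) (a (l 16652704) (b (l 16682944) (l 16693912)))))))) (b (a (b (b (a (l 6) (a (b (l 16516000) (l 16544624)) (l 16577320))) (a (a (l 6) (l 16519576)) (l 16584040))) (a (b (l 16467792) (l 16568264)) (b (l 16609736) (a (l 16620928) (l 16656672))))) (b (a (b (l 16625776) (a (l 16634328) (b (l 16663472) (l 16675672)))) (b (a (b (l 16672592) (l 16684080)) (b (l 16705520) (l 16719696))) (a (b (l 16697016) (l 16712448)) (b (l 16734752) (a (l 16741384) (l 16761504)))))) (a (b (a (l 16662432) (b (l 16689920) (l 16706456))) (a (l 16692952) (b (l 16723448) (l 16741368)))) (b (a (b (l 16728560) (l 16745888)) (b (a (l 16758792) (l 265381883783)) (a (l 261086933559) (l 3)))) (a (b (a (l 16753824) (l 227264079191)) (a (l 224042864743) (l 370071777111))) (b (l 387788465559) (l 3))))))) (a (l 2) (a (l 2) (a (l 2) (l 3)))))), by decide +kernel⟩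

def k1_mm_202_s : ∃ t, chk3 f_mm_202_s t 6 4 1 = true :=
  ⟨(a (b (b (b (l 16202288) (b (l 16221184) (l 16227784))) (b (b (l 16253144) (l 16290688)) (a (l 16306696) (b (l 16366440) (a (l 16325752) (l 16413936)))))) (b (b (a (b (l 16343280) (l 16357208)) (b (l 16422032) (l 16464704))) (a (l 16322648) (l 16525976))) (b (a (l 16488408) (a (l 16582368) (b (l 16625488) (l 16650088)))) (a (b (l 16553200) (l 16599176)) (a (b (l 16644120) (l 16646560)) (l 16651768)))))) (b (b (b (a (l 16319000) (l 16399112)) (b (l 16370336) (a (l 16335800) (b (l 16416848) (a (l 16394256) (l 16418376)))))) (b (b (a (l 16319456) (a (l 16423400) (l 16475528))) (a (l 16342936) (l 16446208))) (b (a (l 16410280) (l 16566168)) (a (l 16500472) (l 16615296))))) (b (b (a (l 16498256) (a (b (l 16629792) (l 16646024)) (b (l 16586736) (l 16664016)))) (a (b (a (l 16596504) (l 16660080)) (a (l 16643792) (l 16653280))) (b (a (l 16657824) (l 16666784)) (l 16667240)))) (a (b (b (a (l 16650576) (l 16652976)) (l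 16654880)) (l 16667328)) (b (a (l 16671440) (b (l 16682216) (l 16689320))) (a (l 16685960) (b (l 16697696) (l 16708784)))))))), by decide +kernel⟩

def k2_mm_202_s : ∃ t, chk3 f_mm_202_s t 6 5 1 = true :=
  ⟨(b (a (b (a (b (a (l 16599960) (l 16649352)) (l 16658120)) (b (l 16660520) (l 16676584))) (a (l 16674776) (b (l 16690944) (a (l 16700696) (l 16714152))))) (b (a (b (a (l 16676632) (l 16687776)) (a (l 16690912) (b (l 16700640) (l 16711736)))) (b (a (b (l 16698480) (l 16709688)) (b (l 16721304) (l 16733992))) (a (l 16685984) (b (a (l 16739648) (l 16751664)) (a (l 16750712) (l 16741184)))))) (a (b (a (l 16709984) (l 16728992)) (a (l 16730968) (b (l 16744608) (l 16753920)))) (a (b (b (l 16744688) (l 16733768)) (b (c (l 16746144) (l 213305451111)) (a (l 16767512) (a (l 236927796247) (l 422685161639))))) (b (a (b (l 16760848) (b (l 16767848) (l 16756520))) (b (b (l 16769408) (a (l 16771264) (l 258402624631))) (a (b (l 16754712) (l 446844343719)) (l 466708535207)))) (a (b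 (b (l 291151727655) (l 437180661927)) (l 3)) (l 3))))))) (a (b (b (a (l 16694160) (a (l 16719176) (l 16733768))) (a (l 16704888) (a (l 16729288) (l 16745288)))) (a (b (l 16715264) (l 16728016)) (b (a (l 16740976) (b (l 16755080) (l 16762248))) (a (l 16754880) (b (l 234780289431) (l 266455623335)))))) (b (a (b (a (l 16749640) (b (l 16741376) (a (l 16765000) (l 235317170407)))) (a (b (l 16758904) (l 16744792)) (a (b (l 16750920) (l 400136581927)) (b (l 415168952647) (l 3))))) (a (b (a (b (c (l 240685864439) (l 236927767207)) (l 429127579575)) (b (l 445233688007) (l 3))) (l 3)) (l 3))) (a (a (b (a (b (l 16768592) (l 238538381543)) (b (l 269676879111) (l 417853275447))) (a (l 410337069079) (l 3))) (l 3)) (l 3))))), by decide +kernel⟩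

def k3_mm_202_s : ∃ t, chk3 f_mm_202_s t 14 8 1 = true :=
  ⟨(a (b (b (b (l 16476704) (a (l 16467616) (l 16514408))) (b (a (l 16458432) (b (l 16516984) (l 16524544))) (b (a (l 16478752) (l 16540512)) (l 16443312)))) (b (b (b (l 16513456) (l 16545000)) (a (l 16600432) (l 16663720))) (b (a (l 16655896) (b (l 16691744) (l 16681080))) (a (b (l 16681568) (l 16671528)) (a (l 16653760) (l 16684824)))))) (b (a (b (b (l 16543224) (b (l 16553272) (l 16554040))) (b (l 16573856) (b (l 16601328) (l 16624472)))) (b (b (b (l 16590216) (l 16568808)) (b (l 16593136) (l 16603600))) (b (l 16544288) (b (l 16663224) (a (l 16674600) (l 16708608)))))) (b (b (a (l 16565744) (b (a (l 16705960) (l 16713240)) (a (l 16704456) (l 16709328)))) (a (b (l 16683104) (l 16693688)) (b (l 16685672) (l 16709952)))) (b (a (b (l 16691832) (l 16695200)) (a (l 16709440) (l 16698728))) (a (l 16700200) (a (l 16694600) (b (l 16704584) (l 16710216)))))))), by decide +kernel⟩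

def k4_mm_202_s : ∃ t, chk3 f_mm_202_s t 14 18 1 = true :=
  ⟨(b (a (a (b (l 16672240) (l 16675864)) (b (l 16687008) (l 16693728))) (a (b (b (l 16683832) (l 16687144)) (a (l 16687016) (l 16700552))) (b (a (l 16682984) (b (l 16717184) (l 16724304))) (a (l 16717448) (b (l 16731352) (a (l 16733976) (l 16742584))))))) (a (a (l 16666056) (b (a (l 16695840) (l 16684392)) (a (l 16682712) (l 16695992)))) (a (a (b (l 16697832) (l 16733144)) (b (l 16735480) (a (l 16745480) (l 16753736)))) (a (b (b (l 16749048) (l 16735016)) (b (a (l 16758608) (a (l 16764824) (l 16768952))) (a (l 16765296) (a (b (l 16769760) (l 16772992)) (b (l 16773832) (a (l 297057362407) (l 480667229303))))))) (b (a (b (l 16761832) (b (l 16766896) (l 16759744))) (b (b (l 16747664) (a (l 16769864) (l 289541176327))) (a (b (l 16773192) (a (l 293836142999) (b (l 304036685255) (l 507510771383)))) (b (a (c (l 301889194151) (l 304036677111)) (b (l 316921572743) (l 3))) (l 546702321175))))) (a (b (c (a (l 290078039271)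 (b (l 298131093911) (l 490330897639))) (a (l 291688651383) (b (l 300278576647) (l 492478379927)))) (a (b (a (l 306721025671) (l 506973893879)) (l 3)) (l 3))) (b (a (b (a (l 502142058295) (l 3)) (l 3)) (l 3)) (l 3)))))))), by decide +kernel⟩

def k5_mm_202_s : ∃ t, chk3 f_mm_202_s t 14 19 1 = true :=
  ⟨(a (b (a (b (l 16698408) (a (l 16681104) (l 16694032))) (b (a (l 16694856) (l 16731496)) (a (l 16730192) (l 16745352)))) (a (b (l 16721936) (c (l 16738696) (l 16710984))) (a (b (l 16743632) (a (l 16752608) (l 16759560))) (b (b (l 16755024) (l 16740216)) (b (a (l 16763584) (l 16760120)) (a (l 16769344) (a (l 279340616999) (b (l 290078029767) (l 490330893015))))))))) (b (a (a (b (l 16726336) (a (l 16756696) (b (l 16761088) (l 16767336)))) (b (a (b (l 16734800) (l 16762392)) (b (l 16763776) (b (l 16768616) (l 16763912)))) (a (b (a (l 16766824) (l 16770648)) (a (b (l 16771440) (l 16774440)) (b (l 286856816103) (a (l 301889189799) (l 510195118167))))) (b (a (b (l 16772936) (l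 293836126903)) (b (a (l 16765312) (l 463487363591)) (l 512879465047))) (a (b (l 480667219415) (l 3)) (l 3)))))) (a (b (a (a (b (l 16769776) (b (l 16769264) (a (l 299204840327) (l 487646545415)))) (b (b (l 16772168) (l 293299261367)) (b (a (l 308868505079) (l 526838112487)) (l 3)))) (b (a (b (b (l 16764880) (l 305647281671)) (a (l 484425322791) (l 3))) (b (l 528985587431) (l 3))) (l 3))) (a (b (b (l 535428012615) (l 3)) (l 3)) (l 3))) (l 3))) (a (a (b (a (b (l 16766008) (c (l 16761856) (l 276119391495))) (b (c (l 284172441703) (a (l 16771064) (l 289541152279))) (a (b (l 288467422615) (l 468319191303)) (b (l 500531437735) (l 3))))) (a (b (a (b (l 16774456) (l 311552857175)) (b (l 452749942871) (l 3))) (a (l 509121352775) (l 3))) (l 3))) (b (a (b (a (b (l 302426046087) (l 518248169287)) (l 3)) (l 3)) (l 3)) (l 3))) (l 3)))), by decide +kernel⟩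

def k6_mm_202_s : ∃ t, chk3 f_mm_202_s t 15 32 1 = true :=
  ⟨(a (b (a (b (a (l 16622512) (l 16642952)) (l 16632576)) (b (a (l 16662320) (l 16683888)) (a (l 16665704) (l 16690280)))) (a (b (l 16639792) (l 16654176)) (b (a (l 16677024) (l 16683408)) (a (l 16695232) (b (l 16698432) (a (l 16723432) (l 16739912))))))) (a (a (b (b (l 14) (l 16674872)) (a (b (l 16726352) (b (l 16743416) (l 16751016))) (b (b (l 16736112) (l 16747168)) (b (l 16733312) (l 16757520))))) (b (l 14) (a (b (b (l 14) (a (l 16756224) (l 16759816))) (l 16750712)) (b (l 14) (a (b (l 16763640) (l 16765024)) (b (l 16765784) (b (l 16766816) (l 16768112)))))))) (b (l 14) (a (b (l 14) (a (b (l 14) (a (l 16765648) (l 14))) (l 14))) (l 14))))), by decide +kernel⟩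

def k7_mm_202_s : ∃ t, chk3 f_mm_202_s t 30 33 1 = true :=
  ⟨(b (a (b (l 16632352) (a (l 16683368) (b (l 16707272) (l 16721704)))) (a (a (b (l 16710896) (l 16693312)) (b (l 16727392) (l 16742552))) (b (b (a (l 16736480) (l 16747520)) (a (l 16744168) (l 16750800))) (l 16751016)))) (b (a (a (l 16711824) (b (l 16733392) (l 16731920))) (a (l 16742696) (a (l 16752416) (l 16758016)))) (a (a (a (l 16678152) (b (l 16722752) (l 16721096))) (l 16731128)) (a (l 16745168) (a (l 16754672) (l 16750472)))))), by decide +kernel⟩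

def k8_mm_202_s : ∃ t, chk3 f_mm_202_s t 62 66 1 = true :=
  ⟨(a (a (b (l 16754824) (b (l 16757216) (l 16759376))) (b (l 16759440) (b (l 16762288) (l 16743592)))) (b (a (b (l 16763352) (a (l 16763816) (l 16766504))) (a (b (l 16766920) (l 16769864)) (b (l 16770344) (b (l 16772400) (l 16769752))))) (a (b (a (l 16766216) (l 16769448)) (a (l 16769104) (l 16772040))) (a (b (a (l 16771752) (l 16773264)) (a (b (l 16773608) (l 16774768)) (b (l 16775048) (a (l 16775808) (b (l 16776232) (c (l 303499835127) (l 314774123991))))))) (b (a (b (l 16774160) (l 16773376)) (b (c (l 16775536) (l 16775784)) (b (a (l 16776152) (b (l 16775432) (a (l 16776840) (a (l 353428831383) (b (l 214379266391) (l 469929820519)))))) (a (c (l 287393707847) (l 314774124007)) (a (a (b (l 16777024) (b (l 219211104615) (l 473687916919))) (b (l 469392948535) (l 3))) (a (c (l 527911878983) (l 532743717191)) (l 3))))))) (a (b (a (b (l 16775840) (l 16776384)) (b (l 16775240) (b (c (l 324437801431) (l 344302024903))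 (a (l 344302025415) (c (l 465097982135) (l 468856078519)))))) (a (a (b (l 16776752) (b (a (l 16777056) (l 323900930839)) (c (l 474224787655) (l 478519754951)))) (b (b (l 16776960) (a (l 367924345975) (a (l 272898195911) (l 404431569383)))) (c (l 558513521095) (l 566029713847)))) (b (a (b (a (b (l 16777152) (l 342154543431)) (l 524153782471)) (l 3)) (l 3)) (l 3)))) (b (a (a (b (b (l 16776944) (a (l 362018765927) (b (l 224042942839) (l 485499076983)))) (c (l 552071070135) (l 556366036119))) (b (b (a (b (l 16777136) (l 295983645063)) (l 511805751479)) (l 3)) (l 3))) (l 3)) (l 3)))))))), by decide +kernel⟩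

def k9_mm_202_s : ∃ t, chk3 f_mm_202_s t 124 67 1 = true :=
  ⟨(b (a (b (l 16761784) (l 16764352)) (b (l 16767392) (l 16758984))) (a (a (l 16765024) (l 16746856)) (a (c (l 16766056) (l 16764200)) (b (l 16767392) (a (l 16770040) (b (l 16774960) (a (l 16775712) (c (l 325511540903) (l 322827185783))))))))), by decide +kernel⟩

def k10_mm_202_s : ∃ t, chk3 f_mm_202_s t 125 134 1 = true :=
  ⟨(a (a (b (l 16771632) (b (l 16773048) (l 16768768))) (a (b (l 16773680) (b (l 16775112) (a (l 16775784) (b (l 16776240) (c (l 329269638775) (l 327659025575)))))) (b (b (l 16774496) (l 16772872)) (b (a (b (l 16775904) (l 16776424)) (b (l 16776600) (a (c (l 340007057799) (l 340007057511)) (b (l 454360562631) (l 504826429687))))) (a (a (b (l 16776776) (b (l 458118659047) (l 509658267927))) (b (a (l 355039443367) (b (l 16777096) (l 369534960199))) (l 3))) (a (a (b (b (l 266992615959) (l 3)) (l 3)) (l 3)) (l 3))))))) (a (b (a (b (b (l 16775592) (l 16773480)) (b (a (l 16776264) (a (l 16776776)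 (a (l 345912637911) (b (l 16777080) (l 350207607319))))) (a (c (l 318532220599) (l 323900929335)) (a (b (l 447381240743) (l 493552140519)) (l 574619648471))))) (b (a (b (l 16776608) (b (c (l 345912637831) (l 350744475815)) (a (l 351281347335) (c (l 483888464087) (l 488183431383))))) (b (a (b (l 16776976) (a (l 374366796951) (a (l 287930581463) (l 445770629543)))) (a (b (l 309405416311) (l 3)) (l 557439779175))) (c (l 569787810455) (a (l 572472164807) (l 3))))) (b (b (a (a (a (l 322290319527) (l 561197875431)) (l 3)) (l 3)) (l 3)) (l 3)))) (a (b (a (b (a (a (l 351281346967) (b (l 16777088) (l 363629380135))) (a (c (l 443086274743) (l 446844371127)) (l 575693390215))) (l 3)) (l 3)) (l 3)) (l 3))) (l 3))), by decide +kernel⟩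

def k11_mm_202_s : ∃ t, chk3 f_mm_202_s t 125 135 1 = true :=
  ⟨(a (a (b (a (b (l 16774304) (l 16772752)) (b (a (l 16775400) (l 16774824)) (a (b (l 16776224) (c (l 334638347783) (l 332490863815))) (b (b (l 16775528) (b (l 404431567127) (l 465634851479))) (c (a (l 396915376247) (l 3)) (l 568177196119)))))) (a (b (a (l 16773496) (b (l 16776600) (a (l 355039442935) (c (l 403357827223) (l 542407392423))))) (a (a (b (l 16776808) (l 473687914887)) (b (l 467782334903) (l 3))) (l 651392187671))) (b (a (b (b (a (l 16777040) (l 465097982167)) (c (l 458118660407) (l 584283323127))) (l 3)) (l 3)) (l 3)))) (b (a (b (a (b (l 16776600) (a (l 347523250119) (b (l 313163513831) (l 534354329895)))) (b (a (a (l 359334410695) (b (l 16777112) (l 396915376679))) (b (l 444160016551) (l 3))) (l 3))) (a (b (c (a (l 485499076951) (l 3)) (l 625085513031)) (l 3)) (l 3))) (l 3)) (l 3))) (l 3)), by decide +kernel⟩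

def k12_mm_202_s : ∃ t, chk3 f_mm_202_s t 504 132 1 = true :=
  ⟨(b (b (l 16767744) (a (l 16773496) (a (l 16774712) (l 16775512)))) (b (a (l 16774776) (b (c (l 16775952) (l 16776128)) (a (l 16776256) (a (c (l 271824452151) (l 313163512087)) (b (b (l 16777000) (b (l 351818218727) (l 453286821207))) (a (b (l 316921610151) (l 402820956535)) (l 3))))))) (a (a (l 16775616) (b (l 16776080) (a (l 16776480) (b (l 16776712) (l 333027736183))))) (a (b (a (l 16776656) (b (l 16776888) (a (l 340543929447) (b (l 315310997447) (l 412484632951))))) (b (b (a (l 16777016) (b (l 480130367623) (l 573545906391))) (a (b (l 397989117175) (l 461876755831)) (l 3))) (a (a (b (l 313700384743) (l 415168987527)) (l 3)) (l 3)))) (a (b (b (a (b (l 16777104) (c (l 249275875655) (l 272361324807))) (c (l 474761658519) (l 479056625815))) (l 3)) (l 3)) (l 3)))))), by decide +kernel⟩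

def k13_mm_202_s : ∃ t, chk3 f_mm_202_s t 505 132 1 = true :=
  ⟨(b (a (b (a (l 16775056) (b (l 14) (l 16776192))) (b (a (l 16776008) (b (l 16776000) (a (l 16776760) (a (l 317458480263) (b (l 433959468551) (a (l 342154543367) (l 3))))))) (b (a (l 16776464) (b (a (l 16776984) (a (a (l 239075328247) (l 462413627671)) (l 3))) (a (a (l 16777032) (a (l 16777176) (l 348060123399))) (l 3)))) (a (c (l 254644582919) (l 295446771943)) (a (a (b (l 438254435863) (c (l 384030474599) (l 385104216423))) (l 576767131879)) (l 3)))))) (b (l 14) (b (a (a (a (b (b (l 16777072) (a (l 16777168) (l 319605965095))) (l 569787810023)) (b (b (l 14) (l 3)) (l 3))) (l 3)) (l 3)) (l 3)))) (a (b (a (b (a (b (l 16776872) (a (l 325511543959) (b (l 447381241367) (c (l 393157280103) (l 394231021927))))) (a (b (b (l 16777088) (c (l 236927844663) (l 260013293815))) (l 578914615543)) (b (a (b (l 250886488311) (l 3)) (l 572472164551)) (l 3)))) (a (a (b (c (l 472614174855) (l 476909142151)) (l 3)) (l 3)) (l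 3))) (l 3)) (l 3)) (l 3))), by decide +kernel⟩

def k14_mm_202_s : ∃ t, chk3 f_mm_202_s t 252 133 1 = true :=
  ⟨(a (b (a (b (a (a (b (l 16776304) (c (l 292225546727) (l 320679704855))) (b (l 16776680) (b (a (l 16777008) (l 461339884823)) (a (b (l 193441299543) (l 445233758599)) (l 3))))) (b (b (a (l 16776904) (a (l 456508046615) (c (l 484962205863) (l 488720302247)))) (a (a (l 348596993143) (b (l 199883750439) (l 434496340359))) (l 3))) (a (a (b (l 491941527719) (l 3)) (l 3)) (l 3)))) (b (b (a (a (a (l 465634852135) (l 499994591399)) (l 3)) (l 3)) (l 3)) (l 3))) (l 3)) (l 3)) (l 3)), by decide +kernel⟩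

def k15_mm_202_s : ∃ t, chk3 f_mm_202_s t 253 66 1 = true :=
  ⟨(l 3), by decide +kernel⟩

def k16_mm_202_s : ∃ t, chk3 f_mm_202_s t 126 67 1 = true :=
  ⟨(l 3), by decide +kernel⟩

def k17_mm_202_s : ∃ t, chk3 f_mm_202_s t 127 33 1 = true :=
  ⟨(l 3), by decide +kernel⟩

def k18_mm_202_s : ∃ t, chk3 f_mm_202_s t 30 34 1 = true :=
  ⟨(a (b (a (l 16720840) (l 16713136)) (b (a (l 16724240) (l 16736816)) (a (l 16705568) (b (l 16718032) (l 16720232))))) (b (a (b (l 16724480) (a (l 16744984) (l 16752744))) (b (a (l 16736216) (l 16753176)) (a (l 16739264) (b (l 16745568) (a (l 16766944) (l 16760240)))))) (a (b (b (l 16730336) (l 16732576)) (a (l 16753104) (a (l 16759840) (l 16743256)))) (b (b (a (l 16763576) (a (l 16769512) (a (l 16772456) (b (l 16773688) (l 16775136))))) (a (l 16755752) (a (a (l 16771336) (l 16768120)) (a (b (l 16774632) (c (l 333027731207) (l 329806504871))) (b (a (l 16770888) (b (l 16775432) (l 524690649863))) (a (b (l 479593494087) (l 619716795015)) (l 3)))))))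 (a (a (b (l 16767024) (l 16759600)) (b (a (l 16770184) (l 16772280)) (a (l 16768056) (b (l 16774624) (c (l 340543923959) (l 337322697479)))))) (a (b (b (c (l 16769584) (l 291688663895)) (a (l 16775144) (a (b (l 16776304) (l 442549400759)) (b (l 493015267047) (l 3))))) (a (b (a (l 286856826999) (b (l 270213823127) (l 540259904295))) (b (l 542407389767) (l 3))) (b (l 604147539479) (l 3)))) (b (a (b (a (b (l 273435049959) (l 532743712567)) (l 582135829191)) (l 3)) (l 3)) (l 3)))))))), by decide +kernel⟩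

def k19_mm_202_s : ∃ t, chk3 f_mm_202_s t 60 35 1 = true :=
  ⟨(b (a (b (l 16708936) (l 16713984)) (b (l 16724600) (a (l 16726976) (l 16735968)))) (a (b (l 16720816) (l 16727896)) (b (a (l 16734192) (b (l 16762280) (l 16765848))) (a (l 16741200) (a (b (l 16746112) (l 16770536)) (b (l 16771520) (b (l 16763616) (a (l 16774704) (a (l 16776352) (l 319069059559)))))))))), by decide +kernel⟩

def k20_mm_202_s : ∃ t, chk3 f_mm_202_s t 61 35 1 = true :=
  ⟨(b (a (b (a (c (l 16739672) (l 16736832)) (b (a (l 16743480) (l 16768912)) (a (l 16767728) (a (l 16771096) (l 16768072))))) (a (b (l 16743296) (a (l 16744472) (l 16770016))) (a (b (l 16763248) (a (l 16768176) (b (l 16774808) (c (l 392620402583) (l 353428810663))))) (b (b (c (l 295446755431) (l 290078045527)) (a (l 16775328) (a (b (l 16776560) (l 322290291015)) (l 548849833463)))) (a (b (a (l 278803757607) (l 506437037623)) (l 574082768855)) (l 3)))))) (a (b (a (a (b (l 16772208) (b (l 16774688) (c (l 348596987687) (a (l 16775704)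 (l 422685175367))))) (b (b (l 16773568) (l 16775208)) (b (a (l 282561856327) (b (l 310479138999) (l 554755416743))) (a (l 544554867319) (l 3))))) (b (a (b (a (l 16775184) (l 316921603911)) (a (b (l 16776416) (l 470466688375)) (l 540259906423))) (b (a (b (l 308331656599) (l 547776095991)) (l 599852566551)) (l 3))) (a (b (l 605221267783) (l 3)) (l 3)))) (a (a (b (b (b (l 509121393047) (l 584820179959)) (l 3)) (l 3)) (l 3)) (l 3))) (l 3))) (a (a (b (a (b (l 16769000) (a (l 16771392) (l 16768376))) (b (c (l 290078047879) (a (l 16751024) (l 16774424))) (a (b (l 16774992) (c (l 307794772439) (l 309405384119))) (b (a (l 305110429351) (l 515563840839)) (l 576230239687))))) (a (b (a (b (l 16773992) (l 16770456)) (b (l 301352330759) (a (l 317458447735) (l 574619632567)))) (a (b (a (l 308331652247) (l 525764385783)) (l 580525204631)) (l 3))) (b (a (b (l 535964927511) (l 3)) (l 3)) (l 3)))) (b (a (b (a (b (a (l 16775448) (l 277193143239)) (c (l 500531456439) (l 502142068103))) (b (a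 (l 510732003783) (l 3)) (l 3))) (l 3)) (l 3)) (l 3))) (l 3))), by decide +kernel⟩

def k21_mm_202_s : ∃ t, chk3 f_mm_202_s t 31 17 1 = true :=
  ⟨(b (a (a (b (b (a (b (a (l 16767552) (l 16770672)) (a (l 16769576) (a (l 16772072) (l 16768512)))) (a (a (b (l 16773056) (b (l 16774824) (c (l 321216571575) (a (l 16775528) (l 330880249351))))) (b (b (l 16774088) (l 16770024)) (b (a (l 16776096) (b (l 16776624) (a (l 415168985031) (l 563345357095)))) (a (b (c (l 309942287831) (l 435570079335)) (l 589652029655)) (l 650855310055))))) (b (a (b (a (l 16775296) (l 16773480)) (a (b (l 16776200) (l 344838894615)) (b (c (l 307257933127) (l 425906402935)) (l 585357063927)))) (b (a (b (l 16776608) (a (l 363092506679) (l 536501812455))) (a (b (l 474224785879) (l 3)) (l 648707831735))) (l 656760896791))) (a (a (b (c (l 561734744919) (l 566566581079)) (l 3)) (l 3)) (l 3))))) (a (a (b (l 16766640) (a (l 16769272) (b (l 16774712) (c (l 326585280359) (a (l 16775496) (l 338933312631)))))) (b (a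 (b (l 16773896) (l 16775192)) (b (a (l 16775208) (l 16776096)) (a (b (l 16776208) (l 357186925543)) (b (l 444696884807) (l 593410124535))))) (a (b (a (l 16776096) (b (l 16771432) (l 490867784135))) (a (b (l 455434302967) (l 610589992263)) (l 3))) (b (c (l 593410122119) (l 585357064423)) (l 3))))) (a (b (a (b (a (b (l 16776648) (l 496236492807)) (b (l 544554874407) (l 3))) (l 3)) (l 3)) (l 3)) (l 3)))) (a (b (a (b (a (b (a (l 16775144) (l 16770864)) (a (b (l 16776232) (l 308331653047)) (b (l 467245463111) (l 615421829079)))) (b (a (b (l 16774080) (l 516637587095)) (b (l 556902903207) (l 3))) (l 3))) (a (b (a (l 579451481319) (l 3)) (l 3)) (l 3))) (l 3)) (l 3)) (l 3))) (l 3)) (l 3)) (l 3)), by decide +kernel⟩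

def k22_mm_202_s : ∃ t, chk3 f_mm_202_s t 15 9 1 = true :=
  ⟨(b (a (a (b (a (b (a (b (l 16730472) (l 16758440)) (b (l 16760280) (b (l 16765464) (l 16758408)))) (a (b (a (l 16763168) (l 16767496)) (a (b (l 16768288) (l 16771664)) (b (l 16772584) (a (l 16764368) (b (l 16765656) (l 491404649559)))))) (b (a (b (l 16770128) (a (l 16772432) (l 16774592))) (b (c (l 293836136903) (l 295446748775)) (a (b (l 16775896) (l 483351588663)) (b (l 505900161143) (l 3))))) (a (c (b (a (l 16765392) (l 486035939415)) (l 543481101575)) (b (a (l 300278585879) (l 489257164071)) (l 540796743511))) (l 3))))) (b (a (b (b (l 16746392) (c (l 16771288) (l 16776856))) (a (b (l 16772024) (a (l 16774328) (b (l 16775656) (a (l 16766280) (l 512342614023))))) (b (a (b (l 16774448) (l 299204850935)) (b (l 306184163879) (l 522006285095))) (a (b (l 497847100071) (l 3)) (l 3))))) (b (a (b (c (l 16768968) (l 295446755607)) (a (b (l 16775424) (a (l 16766072) (l 322827154215))) (b (l 490330910551) (l 3)))) (b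 (a (b (l 303499811847) (l 515563836631)) (b (l 541333634247) (l 3))) (l 3))) (a (b (a (l 563345334199) (l 3)) (l 3)) (l 3)))) (a (b (a (b (a (b (l 308331645319) (l 528448733543)) (l 566029681319)) (l 3)) (l 3)) (l 3)) (l 3)))) (a (b (a (b (a (b (c (l 295983614967) (l 297594226983)) (a (b (l 16765904) (l 499457710471)) (l 538649271927))) (b (a (b (l 313700349543) (l 553681661463)) (l 3)) (l 3))) (l 3)) (l 3)) (l 3)) (l 3))) (l 3)) (l 3)) (l 3)), by decide +kernel⟩

def k23_mm_202_s : ∃ t, chk3 f_mm_202_s t 7 5 1 = true :=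
  ⟨(a (a (b (b (b (a (b (a (l 16741088) (l 16733376)) (a (l 16752872) (b (l 16762808) (a (l 16765016) (l 16771280))))) (a (b (b (a (l 16761440) (l 16768160)) (a (l 16767040) (c (l 273435032199) (l 273435030951)))) (a (b (l 263234491239) (a (l 275045639175) (l 466171704279))) (b (a (b (l 16754928) (l 466708581495)) (l 488720268695)) (l 3)))) (b (a (b (c (l 283635562487) (l 283635560903)) (a (b (l 308331635831) (l 497847080359)) (l 3))) (b (b (l 488183399047) (l 3)) (l 3))) (l 3)))) (a (a (b (a (l 16760672) (l 16745736)) (a (b (l 16768296) (l 16773096)) (b (l 256255164087) (l 445233742359)))) (b (a (b (l 16770216) (l 265381955319)) (b (a (l 16764304) (l 389399155895)) (l 477445972295))) (a (b (l 460802986807) (l 3)) (l 3)))) (a (b (a (b (l 494625827831) (l 3)) (l 3)) (l 3)) (l 3)))) (a (b (a (b (a (b (l 300815413383) (l 476909092439)) (l 3)) (l 3)) (l 3)) (l 3)) (l 3))) (l 3)) (l 3)) (l 3)), by decide +kernel⟩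

def k24_mm_202_s : ∃ t, chk3 f_mm_202_s t 3 3 1 = true :=
  ⟨(a (b (b (a (b (a (b (a (l 16732736) (l 16751288)) (a (l 16747816) (b (l 16763416) (l 16729600)))) (a (b (b (l 16766600) (l 261623812759)) (a (l 270213711591) (l 3))) (b (a (l 379198582295) (l 3)) (l 3)))) (a (a (b (l 211694825111) (l 269139959287)) (b (a (l 238538350887) (l 385641020183)) (l 3))) (l 3))) (l 3)) (l 3)) (l 3)) (l 3)), by decide +kernel⟩

theorem s25_mm_202_s : ∃ t, chk3 f_mm_202_s t 30 35 1 = true := ex3_a k19_mm_202_s k20_mm_202_s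

theorem s26_mm_202_s : ∃ t, chk3 f_mm_202_s t 30 17 1 = true := ex3_b k18_mm_202_s s25_mm_202_s

theorem s27_mm_202_s : ∃ t, chk3 f_mm_202_s t 15 17 1 = true := ex3_a s26_mm_202_s k21_mm_202_s

theorem s28_mm_202_s : ∃ t, chk3 f_mm_202_s t 252 132 1 = true := ex3_a k12_mm_202_s k13_mm_202_s

theorem s29_mm_202_s : ∃ t, chk3 f_mm_202_s t 252 66 1 = true := ex3_b s28_mm_202_s k14_mm_202_s

theorem s30_mm_202_s : ∃ t, chk3 f_mm_202_s t 126 66 1 = true := ex3_a s29_mm_202_s k15_mm_202_s

theorem s31_mm_202_s : ∃ t, chk3 f_mm_202_s t 126 33 1 = true := ex3_b s30_mm_202_s k16_mm_202_s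

theorem s32_mm_202_s : ∃ t, chk3 f_mm_202_s t 63 33 1 = true := ex3_a s31_mm_202_s k17_mm_202_s

theorem s33_mm_202_s : ∃ t, chk3 f_mm_202_s t 125 67 1 = true := ex3_b k10_mm_202_s k11_mm_202_s

theorem s34_mm_202_s : ∃ t, chk3 f_mm_202_s t 62 67 1 = true := ex3_a k9_mm_202_s s33_mm_202_s

theorem s35_mm_202_s : ∃ t, chk3 f_mm_202_s t 62 33 1 = true := ex3_b k8_mm_202_s s34_mm_202_s

theorem s36_mm_202_s : ∃ t, chk3 f_mm_202_s t 31 33 1 = true := ex3_a s35_mm_202_s s32_mm_202_s

theorem s37_mm_202_s : ∃ t, chk3 f_mm_202_s t 15 33 1 = true := ex3_a k7_mm_202_s s36_mm_202_s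

theorem s38_mm_202_s : ∃ t, chk3 f_mm_202_s t 15 16 1 = true := ex3_b k6_mm_202_s s37_mm_202_s

theorem s39_mm_202_s : ∃ t, chk3 f_mm_202_s t 15 8 1 = true := ex3_b s38_mm_202_s s27_mm_202_s

theorem s40_mm_202_s : ∃ t, chk3 f_mm_202_s t 15 4 1 = true := ex3_b s39_mm_202_s k22_mm_202_s

theorem s41_mm_202_s : ∃ t, chk3 f_mm_202_s t 14 9 1 = true := ex3_b k4_mm_202_s k5_mm_202_s

theorem s42_mm_202_s : ∃ t, chk3 f_mm_202_s t 14 4 1 = true := ex3_b k3_mm_202_s s41_mm_202_s

theorem s43_mm_202_s : ∃ t, chk3 f_mm_202_s t 7 4 1 = true := ex3_a s42_mm_202_s s40_mm_202_s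

theorem s44_mm_202_s : ∃ t, chk3 f_mm_202_s t 7 2 1 = true := ex3_b s43_mm_202_s k23_mm_202_s

theorem s45_mm_202_s : ∃ t, chk3 f_mm_202_s t 6 2 1 = true := ex3_b k1_mm_202_s k2_mm_202_s

theorem s46_mm_202_s : ∃ t, chk3 f_mm_202_s t 3 2 1 = true := ex3_a s45_mm_202_s s44_mm_202_s

theorem s47_mm_202_s : ∃ t, chk3 f_mm_202_s t 3 1 1 = true := ex3_b s46_mm_202_s k24_mm_202_s

theorem s48_mm_202_s : ∃ t, chk3 f_mm_202_s t 1 1 1 = true := ex3_a k0_mm_202_s s47_mm_202_s

theorem c_mm_202_s : CertNE 0 536870912 1073741824 536870912 1020054732 13421774 3 eng mog cd0q2 cd5q2 pd0 false false false .pp 2 0 2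
    ndB0q2 ndB5q2 pcB0 cut_mm_202_s Ext.none :=
  certNE1 (fam := false) (s1 := false) (s2 := false) (a := 2) (b := 0) (c := 2) (cn := .pp) (n1 := ndB0q2) (n2 := ndB5q2) (pc := pcB0) (cut := cut_mm_202_s) (xt := Ext.none) (P1 := 0) (W1 := 536870912) (P2 := 1073741824) (W2 := 536870912) (P3 := 1020054732) (W3 := 13421774) (N0 := 3) (En := eng) (mo := mog) (C1 := cd0q2) (C2 := cd5q2) (C3 := pd0)
    rfl (fun _ => rfl) s48_mm_202_s

noncomputable def cut_mm_203_s : Cut := Cut.of [[⟨4, 0, 0, 1449551462⟩]]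

noncomputable def f_mm_203_s : ℕ → ℕ → ℕ → ℕ → Bool := onCell 0 536870912 0 1230186008 1020054732 13421774
    (rowNE 3 eng mog cd0q2 cd5q3 pd0 0 false false false .up 2 0 3 (qsf 0 536870912 0 1230186008 0) ndB0q2 ndB5q3 pcB0 cut_mm_203_s Ext.none)

def k0_mm_203_s : ∃ t, chk3 f_mm_203_s t 1 1 1 = true :=
  ⟨(b (l 2) (b (l 2) (a (b (a (b (l 2) (b (l 2) (a (a (l 16692712) (l 16732912)) (a (b (l 266992525559) (l 213842326167)) (l 3))))) (l 3)) (a (b (a (b (a (l 16655768) (l 16696912)) (a (l 16622256) (l 16617072))) (b (a (b (l 16747688) (l 16729520)) (b (l 309942257911) (l 246054554215))) (a (l 16701160) (b (l 16753920) (l 16735040))))) (b (a (b (l 16615712) (l 16597368)) (a (b (l 16671440) (l 16654168)) (l 16705520))) (a (l 16572424) (a (l 16608784) (b (l 16675336) (l 16658200)))))) (b (a (b (l 3) (a (b (l 345912588535) (a (l 16768232) (l 344838861639))) (l 3))) (l 3)) (a (b (a (b (a (l 16749296) (l 16739920)) (l 16740728)) (b (l 371145492903) (a (l 253033882199) (l 3))))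 (a (b (l 16720384) (l 16700256)) (b (a (l 16755544) (l 261623803015)) (a (l 16734536) (l 16758568))))) (b (l 3) (a (b (l 3) (a (l 269139977511) (l 3))) (l 3))))))) (l 3)))), by decide +kernel⟩

theorem c_mm_203_s : CertNE 0 536870912 0 1230186008 1020054732 13421774 3 eng mog cd0q2 cd5q3 pd0 false false false .up 2 0 3
    ndB0q2 ndB5q3 pcB0 cut_mm_203_s Ext.none :=
  certNE0 (fam := false) (s1 := false) (s2 := false) (a := 2) (b := 0) (c := 3) (cn := .up) (n1 := ndB0q2) (n2 := ndB5q3) (pc := pcB0) (cut := cut_mm_203_s) (xt := Ext.none) (P1 := 0) (W1 := 536870912) (P2 := 0) (W2 := 1230186008) (P3 := 1020054732) (W3 := 13421774) (N0 := 3) (En := eng) (mo := mog) (C1 := cd0q2) (C2 := cd5q3) (C3 := pd0)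
    rfl k0_mm_203_s

noncomputable def cut_mm_213_s : Cut := Cut.of [[⟨4, 0, 0, 1449551462⟩]]

noncomputable def f_mm_213_s : ℕ → ℕ → ℕ → ℕ → Bool := onCell 0 536870912 0 1230186008 1020054732 13421774
    (rowNE 3 eng mog cd0q2 cd5q3 pd1 0 false false false .pnn 2 1 3 (qsf 0 536870912 0 1230186008 1) ndB0q2 ndB5q3 pcB1 cut_mm_213_s Ext.none)

def k0_mm_213_s : ∃ t, chk3 f_mm_213_s t 1 1 1 = true :=
  ⟨(b (a (l 3) (a (l 3) (l 5))) (a (b (b (l 3) (a (l 3) (l 3))) (b (a (b (a (b (a (b (c (l 337322673767) (l 330343355815)) (a (b (a (l 16763984) (l 16776192)) (l 207399739479)) (l 301889090007))) (l 3)) (a (c (b (a (l 16718176) (b (l 16730064) (l 16757936))) (a (l 16673544) (l 16727760))) (b (a (l 16759720) (l 241759577575)) (l 16670152))) (b (l 368998036567) (a (b (l 280951138423) (c (l 16724032) (l 16774336))) (l 3))))) (l 3)) (b (a (c (a (b (c (l 16632576) (l 16675080)) (c (l 16532320) (l 16591872))) (b (a (b (l 16748760) (l 16726632)) (l 291688601015)) (a (l 16690976) (b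 (l 16736936) (l 16737280))))) (b (a (l 16697448) (a (l 16743912) (l 276119311591))) (a (l 16703032) (a (l 16750216) (l 16704912))))) (a (b (l 3) (c (l 350207497735) (l 344838856711))) (l 3))) (b (a (c (a (c (l 16513104) (l 16590800)) (c (l 16652952) (l 16689184))) (a (l 16687560) (c (l 16725792) (l 16752616)))) (a (a (c (b (l 222432248407) (l 16747568)) (l 226727163671)) (l 304573419255)) (l 3))) (l 1)))) (l 3)) (a (l 1) (b (a (l 1) (l 3)) (l 1))))) (b (l 3) (l 3)))), by decide +kernel⟩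

theorem c_mm_213_s : CertNE 0 536870912 0 1230186008 1020054732 13421774 3 eng mog cd0q2 cd5q3 pd1 false false false .pnn 2 1 3
    ndB0q2 ndB5q3 pcB1 cut_mm_213_s Ext.none :=
  certNE0 (fam := false) (s1 := false) (s2 := false) (a := 2) (b := 1) (c := 3) (cn := .pnn) (n1 := ndB0q2) (n2 := ndB5q3) (pc := pcB1) (cut := cut_mm_213_s) (xt := Ext.none) (P1 := 0) (W1 := 536870912) (P2 := 0) (W2 := 1230186008) (P3 := 1020054732) (W3 := 13421774) (N0 := 3) (En := eng) (mo := mog) (C1 := cd0q2) (C2 := cd5q3) (C3 := pd1)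
    rfl k0_mm_213_s

end Pool.Agent.Strip051.G.I9500_9625.Tab.CS.BB05

namespace Pool.Agent.Strip051.G.I9500_9625.Tab.CS.BB50

open Pool.Agent.Strip051.PB Pool.Agent.Strip051.PB.T
open Pool.Agent.Strip051.G.I9500_9625.Tab

noncomputable def cut_pp_001_s : Cut := Cut.of [[⟨4, 0, 0, 1449551462⟩]]

noncomputable def f_pp_001_s : ℕ → ℕ → ℕ → ℕ → Bool := onCell 0 536870912 536870912 536870912 1020054732 13421774
    (rowNE 3 eng mog cd5q0 cd0q1 pd0 2 false true true .up 0 0 1 (qsf 0 536870912 536870912 536870912 0) ndB5q0 ndB0q1 pcB0 cut_pp_001_s Ext.none)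

def k0_pp_001_s : ∃ t, chk3 f_pp_001_s t 2 1 1 = true :=
  ⟨(b (l 3) (b (b (l 3) (l 2)) (l 2))), by decide +kernel⟩

def k1_pp_001_s : ∃ t, chk3 f_pp_001_s t 3 2 1 = true :=
  ⟨(a (l 3) (b (l 3) (a (b (l 3) (a (b (l 3) (b (l 525227425079) (a (l 341080644583) (l 16747960)))) (b (b (l 3) (l 326048221799)) (a (b (l 16731976) (l 16742472)) (l 16730184))))) (b (a (b (l 3) (b (l 3) (l 491404601271))) (b (b (l 3) (l 517711266215)) (b (l 300815337911) (l 236390772119)))) (a (b (b (l 291688527479) (l 16674768)) (a (l 16701136) (l 16671736))) (b (a (l 16710320) (l 16680504)) (l 16626464))))))), by decide +kernel⟩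

def k2_pp_001_s : ∃ t, chk3 f_pp_001_s t 3 3 1 = true :=
  ⟨(b (a (a (b (b (l 3) (a (l 3) (b (l 3) (a (l 3) (l 496773307319))))) (b (a (l 2) (a (l 2) (b (l 306653827463) (l 2)))) (l 2))) (b (b (a (l 3) (b (a (l 3) (l 330343230583)) (a (l 317995207511) (l 16756936)))) (a (b (a (l 512879410023) (l 263771257607)) (a (l 250349502647) (l 16742288))) (b (a (l 16749928) (l 16722920)) (a (l 16715592) (l 16687960))))) (a (b (b (a (l 16734328) (l 16707984)) (l 154182379207)) (b (l 16650736) (l 2))) (b (b (l 16665840) (l 16629864)) (a (l 16547528) (l 16538648)))))) (b (a (a (b (a (b (l 16742296) (l 16729880)) (l 16718384)) (b (l 16680128) (l 16602448))) (b (a (l 16689784) (l 16639728)) (b (l 16600968) (l 16585504)))) (a (b (l 16615624) (l 16501424)) (b (l 16535728) (l 16484640)))) (a (b (a (b (l 16587032) (l 16570928)) (l 16486536)) (a (b (l 16533144) (l 16474128)) (l 16307728))) (b (a (l 16383464) (l 16392072)) (a (l 16375808) (l 16340952)))))) (b (a (a (l 2) (b (a (l 2) (b (l 16476680)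 (l 2))) (l 2))) (a (b (a (l 16334360) (l 16358992)) (a (l 16321744) (l 16304536))) (b (a (l 16322832) (l 16267888)) (a (l 16247032) (l 16191808))))) (a (l 2) (b (a (a (l 2) (l 16226168)) (a (l 16168120) (l 6))) (a (l 2) (l 6)))))), by decide +kernel⟩

theorem s3_pp_001_s : ∃ t, chk3 f_pp_001_s t 3 1 1 = true := ex3_b k1_pp_001_s k2_pp_001_s

theorem s4_pp_001_s : ∃ t, chk3 f_pp_001_s t 1 1 1 = true := ex3_a k0_pp_001_s s3_pp_001_s

theorem c_pp_001_s : CertNE 0 536870912 536870912 536870912 1020054732 13421774 3 eng mog cd5q0 cd0q1 pd0 false true true .up 0 0 1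
    ndB5q0 ndB0q1 pcB0 cut_pp_001_s Ext.none :=
  certNE2 (fam := false) (s1 := true) (s2 := true) (a := 0) (b := 0) (c := 1) (cn := .up) (n1 := ndB5q0) (n2 := ndB0q1) (pc := pcB0) (cut := cut_pp_001_s) (xt := Ext.none) (P1 := 0) (W1 := 536870912) (P2 := 536870912) (W2 := 536870912) (P3 := 1020054732) (W3 := 13421774) (N0 := 3) (En := eng) (mo := mog) (C1 := cd5q0) (C2 := cd0q1) (C3 := pd0)
    rfl (fun _ => rfl) s4_pp_001_s

noncomputable def cut_pp_011_s : Cut := Cut.of [[⟨4, 0, 0, 1449551462⟩]]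

noncomputable def f_pp_011_s : ℕ → ℕ → ℕ → ℕ → Bool := onCell 536870912 536870912 536870912 536870912 1020054732 13421774
    (rowNE 3 eng mog cd5q0 cd0q1 pd1 2 false true true .pnn 0 1 1 (qsf 0 536870912 536870912 536870912 1) ndB5q0 ndB0q1 pcB1 cut_pp_011_s Ext.none)

def k0_pp_011_s : ∃ t, chk3 f_pp_011_s t 4 2 1 = true :=
  ⟨(b (a (b (l 3) (a (b (l 3) (a (l 3) (b (l 3) (l 344301883303)))) (b (a (l 3) (b (l 3) (l 348059981319))) (a (b (l 345912497607) (c (l 278266809543) (l 16732560))) (b (c (l 282561776855) (l 16733000)) (c (l 16771848) (l 16753304))))))) (b (a (a (l 3) (l 1)) (l 1)) (a (b (a (b (l 349670593255) (c (l 286319873703) (l 16733056))) (b (c (l 260415852519) (l 16732680)) (c (l 16770464) (l 16751376)))) (a (c (l 16707056) (b (l 16752192) (l 16730136))) (b (c (l 16765160) (l 16727832)) (l 16627368)))) (a (b (b (l 1) (l 317323997927)) (b (l 16623136) (l 16607560))) (b (l 1) (b (l 16601896) (l 16584376))))))) (a (b (a (b (a (b (l 341080656743) (c (l 16726968)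 (l 16730592))) (b (c (l 272898100151) (l 16731752)) (c (l 16768632) (l 16754104)))) (c (a (l 16718872) (l 16753376)) (a (l 16660272) (l 16684048)))) (c (b (a (l 16725560) (l 16740520)) (a (l 16746576) (l 16739880))) (b (a (b (l 16754032) (l 16734688)) (l 16680776)) (b (l 16621472) (l 16644872))))) (a (b (c (a (l 16730872) (l 16722968)) (a (l 16706056) (l 16688208))) (a (c (l 16688544) (l 16666704)) (l 16511616))) (b (c (l 16650512) (c (l 16676000) (l 16629080))) (a (l 16488888) (l 16475976))))) (b (c (a (b (a (l 16754824) (l 16746488)) (l 16624656)) (b (a (l 16735104) (l 16718384)) (l 16621608))) (a (b (a (l 16677768) (l 16671632)) (c (l 16649600) (l 16617120))) (b (c (l 16608024) (l 16577504)) (l 16475560)))) (a (b (a (l 16500048) (l 16461240)) (a (l 16440656) (l 16423888))) (b (a (l 16439344) (l 16411712)) (c (a (l 16641288) (l 16624736)) (l 16284976))))))), by decide +kernel⟩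

def k1_pp_011_s : ∃ t, chk3 f_pp_011_s t 5 2 1 = true :=
  ⟨(b (a (a (a (b (l 1) (b (l 1) (l 343630331319))) (l 1)) (l 1)) (l 1)) (a (b (a (c (b (c (l 16710784) (l 16607352)) (l 16594776)) (b (l 16387696) (l 16414888))) (c (c (b (l 16627416) (l 16624016)) (l 194916757655)) (b (l 16334192) (l 16326784)))) (a (b (a (l 16397176) (l 16353928)) (c (c (l 16504200) (l 16433304)) (a (l 16426672) (l 16373064)))) (c (b (a (l 16552888) (l 16426024)) (a (l 16445944) (l 16412000))) (b (l 16113200) (l 16157520))))) (b (a (a (b (l 1) (l 424697245959)) (l 1)) (l 1)) (a (a (b (a (l 16159024) (l 16148728)) (l 16222104)) (b (l 16081376) (l 16193488))) (b (c (l 16249112) (l 16147008)) (c (l 16155616) (l 16060584))))))), by decide +kernel⟩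

def k2_pp_011_s : ∃ t, chk3 f_pp_011_s t 2 3 1 = true :=
  ⟨(b (a (a (b (a (b (b (l 16471648) (l 16444712)) (b (l 16414952) (a (l 16408912) (l 16336016)))) (b (b (l 16426848) (c (l 16596736) (l 16529056))) (c (b (l 16561944) (l 16528576)) (c (l 16458368) (l 16455000))))) (a (b (c (b (l 16506312) (l 16487056)) (c (l 16480976) (l 16459544))) (c (l 16385288) (l 16371040))) (b (c (l 16459184) (l 16368120)) (c (l 16419096) (l 16318336))))) (b (b (a (c (b (l 16615352) (l 16560920)) (c (l 16514040) (l 16467304))) (c (b (l 16502296) (l 16541096)) (b (l 16393192) (l 16414416)))) (c (a (l 16483600) (l 16415504)) (a (l 16360720) (l 16347648)))) (a (b (c (l 16441200) (l 16345416)) (c (l 16308696) (l 16240504))) (b (c (l 16352200) (l 16256096)) (c (l 16195728) (l 16159592)))))) (a (b (a (c (b (a (l 16506784) (l 16450960)) (l 16362464)) (b (l 16326536) (l 16247352))) (b (c (l 16342152) (l 16215552)) (c (l 16226080) (l 16145008)))) (a (b (c (l 16227384) (l 16164216)) (l 6)) (l 6))) (b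 (a (b (c (l 16194088) (l 16103096)) (l 16066136)) (b (l 15956480) (l 6))) (l 6)))) (b (a (a (b (a (c (l 16325368) (l 16264104)) (c (l 16227616) (l 16198672))) (a (c (l 16019904) (l 16127712)) (l 6))) (b (l 6) (l 6))) (l 6)) (l 6))), by decide +kernel⟩

def k3_pp_011_s : ∃ t, chk3 f_pp_011_s t 3 1 1 = true :=
  ⟨(b (a (b (l 1) (a (b (l 1) (a (b (l 1) (l 539586800119)) (l 1))) (l 1))) (l 1)) (b (a (a (l 6) (l 6)) (l 6)) (l 6))), by decide +kernel⟩

theorem s4_pp_011_s : ∃ t, chk3 f_pp_011_s t 2 2 1 = true := ex3_a k0_pp_011_s k1_pp_011_s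

theorem s5_pp_011_s : ∃ t, chk3 f_pp_011_s t 2 1 1 = true := ex3_b s4_pp_011_s k2_pp_011_s

theorem s6_pp_011_s : ∃ t, chk3 f_pp_011_s t 1 1 1 = true := ex3_a s5_pp_011_s k3_pp_011_s

theorem c_pp_011_s : CertNE 0 536870912 536870912 536870912 1020054732 13421774 3 eng mog cd5q0 cd0q1 pd1 false true true .pnn 0 1 1
    ndB5q0 ndB0q1 pcB1 cut_pp_011_s Ext.none :=
  certNE2 (fam := false) (s1 := true) (s2 := true) (a := 0) (b := 1) (c := 1) (cn := .pnn) (n1 := ndB5q0) (n2 := ndB0q1) (pc := pcB1) (cut := cut_pp_011_s) (xt := Ext.none) (P1 := 0) (W1 := 536870912) (P2 := 536870912) (W2 := 536870912) (P3 := 1020054732) (W3 := 13421774) (N0 := 3) (En := eng) (mo := mog) (C1 := cd5q0) (C2 := cd0q1) (C3 := pd1)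
    rfl (fun _ => rfl) s6_pp_011_s

noncomputable def cut_pp_012_s : Cut := Cut.of [[⟨4, 0, 0, 1449551462⟩]]

noncomputable def f_pp_012_s : ℕ → ℕ → ℕ → ℕ → Bool := onCell 0 536870912 0 536870912 1020054732 13421774
    (rowNE 3 eng mog cd5q0 cd0q2 pd1 0 false true true .pnp 0 1 2 (qsf 0 536870912 0 536870912 1) ndB5q0 ndB0q2 pcB1 cut_pp_012_s Ext.none)

def k0_pp_012_s : ∃ t, chk3 f_pp_012_s t 1 1 1 = true :=
  ⟨(b (l 6) (l 6)), by decide +kernel⟩

theorem c_pp_012_s : CertNE 0 536870912 0 536870912 1020054732 13421774 3 eng mog cd5q0 cd0q2 pd1 false true true .pnp 0 1 2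
    ndB5q0 ndB0q2 pcB1 cut_pp_012_s Ext.none :=
  certNE0 (fam := false) (s1 := true) (s2 := true) (a := 0) (b := 1) (c := 2) (cn := .pnp) (n1 := ndB5q0) (n2 := ndB0q2) (pc := pcB1) (cut := cut_pp_012_s) (xt := Ext.none) (P1 := 0) (W1 := 536870912) (P2 := 0) (W2 := 536870912) (P3 := 1020054732) (W3 := 13421774) (N0 := 3) (En := eng) (mo := mog) (C1 := cd5q0) (C2 := cd0q2) (C3 := pd1)
    rfl k0_pp_012_s

noncomputable def cut_pp_022_s : Cut := Cut.of [[⟨4, 0, 0, 1449551462⟩]]

noncomputable def f_pp_022_s : ℕ → ℕ → ℕ → ℕ → Bool := onCell 1073741824 536870912 0 536870912 1020054732 13421774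
    (rowNE 3 eng mog cd5q0 cd0q2 pd2 2 false true true .pp 0 2 2 (qsf 0 536870912 0 536870912 2) ndB5q0 ndB0q2 pcB2 cut_pp_022_s Ext.none)

def k0_pp_022_s : ∃ t, chk3 f_pp_022_s t 1 1 1 = true :=
  ⟨(l 6), by decide +kernel⟩

theorem c_pp_022_s : CertNE 0 536870912 0 536870912 1020054732 13421774 3 eng mog cd5q0 cd0q2 pd2 false true true .pp 0 2 2
    ndB5q0 ndB0q2 pcB2 cut_pp_022_s Ext.none :=
  certNE2 (fam := false) (s1 := true) (s2 := true) (a := 0) (b := 2) (c := 2) (cn := .pp) (n1 := ndB5q0) (n2 := ndB0q2) (pc := pcB2) (cut := cut_pp_022_s) (xt := Ext.none) (P1 := 0) (W1 := 536870912) (P2 := 0) (W2 := 536870912) (P3 := 1020054732) (W3 := 13421774) (N0 := 3) (En := eng) (mo := mog) (C1 := cd5q0) (C2 := cd0q2) (C3 := pd2)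
    rfl (fun _ => rfl) k0_pp_022_s

noncomputable def cut_pp_101_s : Cut := Cut.of [[⟨4, 0, 0, 1449551462⟩], [⟨0, 1, 0, 26843545⟩, ⟨1, 0, 0, 26843545⟩, ⟨2, 1, 0, 26843545⟩]]

noncomputable def f_pp_101_s : ℕ → ℕ → ℕ → ℕ → Bool := onCell 0 536870912 536870912 536870912 1020054732 13421774
    (rowNE 3 eng mog cd5q1 cd0q1 pd0 2 false true true .npn 1 0 1 (qsf 536870912 536870912 536870912 536870912 0) ndB5q1 ndB0q1 pcB0 cut_pp_101_s Ext.none)

def k0_pp_101_s : ∃ t, chk3 f_pp_101_s t 2 2 1 = true :=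
  ⟨(l 3), by decide +kernel⟩

def k1_pp_101_s : ∃ t, chk3 f_pp_101_s t 4 6 1 = true :=
  ⟨(l 3), by decide +kernel⟩

def k2_pp_101_s : ∃ t, chk3 f_pp_101_s t 8 14 1 = true :=
  ⟨(l 3), by decide +kernel⟩

def k3_pp_101_s : ∃ t, chk3 f_pp_101_s t 8 30 1 = true :=
  ⟨(a (l 3) (a (l 3) (b (l 3) (b (l 3) (a (l 3) (b (l 3) (a (l 3) (b (l 3) (a (a (l 3) (b (l 3) (b (l 3) (b (l 555829156567) (l 467245462151))))) (b (a (l 3) (b (l 611126849367) (a (l 534354323287) (l 312626625479)))) (a (b (a (l 547776094247) (l 316384718855)) (l 16775888)) (l 16774976)))))))))))), by decide +kernel⟩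

def k4_pp_101_s : ∃ t, chk3 f_pp_101_s t 32 31 1 = true :=
  ⟨(b (l 3) (b (b (l 3) (b (l 3) (b (l 3) (l 14)))) (l 14))), by decide +kernel⟩

def k5_pp_101_s : ∃ t, chk3 f_pp_101_s t 33 62 1 = true :=
  ⟨(b (l 3) (a (l 3) (b (l 3) (a (l 3) (b (l 3) (a (l 3) (b (l 3) (a (l 3) (b (l 3) (a (l 633675447303) (b (l 596631354327) (c (l 340543928727) (l 16776584))))))))))))), by decide +kernel⟩

def k6_pp_101_s : ∃ t, chk3 f_pp_101_s t 66 252 1 = true :=
  ⟨(a (l 3) (b (l 3) (a (l 3) (b (l 3) (a (l 3) (a (l 3) (b (l 3) (b (l 3) (b (a (l 3) (a (l 417853342199) (l 242296553879))) (a (a (l 454360564151) (l 250886488487)) (l 16777040))))))))))), by decide +kernel⟩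

def k7_pp_101_s : ∃ t, chk3 f_pp_101_s t 132 253 1 = true :=
  ⟨(b (a (l 3) (b (l 3) (a (l 3) (b (l 3) (b (l 3) (a (l 3) (b (a (l 3) (l 544018006263)) (a (l 549923586311) (a (a (l 307257934199) (l 190220075367)) (l 16777096)))))))))) (a (b (a (l 3) (b (l 3) (b (l 3) (b (l 3) (a (l 3) (a (l 3) (b (a (l 3) (l 227801039175)) (a (l 235854102855) (l 16777088))))))))) (a (b (b (l 3) (b (l 3) (b (a (l 3) (a (l 3) (b (l 553144811687) (l 14)))) (l 14)))) (l 14)) (b (b (a (b (l 3) (a (l 3) (b (a (l 3) (l 250886488407)) (a (a (l 387251699959) (l 16777200)) (l 16777096))))) (a (b (b (a (l 3) (l 243370295623)) (a (l 243907166551) (l 16777096))) (l 16776944)) (l 16776792))) (a (a (b (b (a (l 3) (l 279877517623)) (a (l 287393710391) (l 16777104))) (l 16776960)) (l 16776152)) (l 16776352))) (a (c (l 16775976) (l 16776144)) (l 16775456))))) (a (b (b (a (l 3) (b (l 3) (b (c (l 586967679399) (l 592873259431)) (a (l 590725775655) (a (b (l 470466691415) (l 174650818887)) (l 378661764359))))))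 (b (a (a (l 3) (b (l 600389452071) (b (a (l 3) (l 210621169959)) (l 429664501031)))) (a (b (b (a (l 503752687927) (l 181630140743)) (l 422685179159)) (l 16776920)) (l 16776776))) (a (b (a (b (a (l 3) (l 219747975479)) (l 436643822903)) (l 16776928)) (l 16776128)) (l 16776344)))) (a (b (l 16774744) (l 16774872)) (l 16772264))) (b (b (b (a (a (c (l 583209583015) (l 592336388503)) (b (l 569250939143) (b (a (l 433959469383) (l 16777176)) (l 370608700615)))) (a (a (b (a (l 314774126983) (l 198273139063)) (l 16776968)) (l 341080799799)) (l 16776752))) (a (a (a (b (b (l 443086274903) (l 16777184)) (l 16776984)) (l 346986379847)) (l 16776760)) (l 16776328))) (a (l 16773424) (l 16775480))) (l 16774032))))), by decide +kernel⟩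

def k8_pp_101_s : ∃ t, chk3 f_pp_101_s t 133 253 1 = true :=
  ⟨(b (a (b (a (l 3) (a (l 3) (b (l 3) (b (l 3) (b (a (l 3) (l 481204108823)) (a (l 488183431351) (l 379198634983))))))) (a (b (a (l 3) (b (l 3) (b (a (l 3) (l 511268880599)) (a (l 521469427927) (l 438254435431))))) (b (b (a (a (l 3) (l 527911878887)) (a (l 444696886391) (l 16776864))) (a (a (l 537575555303) (a (a (l 267529486743) (l 167671497047)) (l 16777080))) (l 16776728))) (a (b (a (a (a (l 280951259543) (l 176261431655)) (l 16777088)) (l 16776880)) (l 16776744)) (l 16776320)))) (b (b (b (a (a (l 3) (l 498383978679)) (a (l 382956731383) (l 16776840))) (a (a (l 504826429639) (l 431811984391)) (l 16776712))) (a (b (a (l 429127629927) (l 16776856)) (l 16776720)) (l 16776304))) (a (l 16776040) (l 16775496))))) (b (b (a (a (l 3) (b (l 3) (b (a (l 3) (a (l 590725775575) (l 281488130503))) (a (l 457044917751) (l 16776664))))) (a (a (b (c (c (l 489257172599) (l 491404656903)) (l 493015269639)) (l 338396445015))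 (b (b (a (l 554218553543) (l 264845132199)) (l 16777056)) (l 16776672))) (c (l 320142832103) (l 16776496)))) (a (b (a (b (a (l 3) (l 464024239623)) (a (l 474761657863) (l 371145571271))) (c (l 330343380791) (l 16776816))) (a (c (l 339470186231) (l 324974671943)) (l 16776296))) (l 16773800))) (b (a (a (l 16776032) (l 16775504)) (l 16774720)) (l 16768928)))) (b (a (b (a (a (l 16776040) (l 16775488)) (l 16774664)) (l 16771472)) (l 16772560)) (a (l 16772400) (l 16770368)))), by decide +kernel⟩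

def k9_pp_101_s : ∃ t, chk3 f_pp_101_s t 134 252 1 = true :=
  ⟨(b (a (l 3) (b (l 3) (a (l 3) (b (l 3) (b (a (l 3) (c (l 547776102919) (l 592336388327))) (b (a (l 3) (a (l 519858815207) (l 16776816))) (a (l 557976650119) (l 346986379767)))))))) (a (b (a (l 3) (a (l 3) (b (l 3) (b (l 3) (b (c (a (l 3) (l 215453008407)) (l 425906404215)) (a (a (l 317458481655) (l 16777160)) (l 16776968))))))) (a (a (b (l 3) (b (b (a (l 3) (a (l 394767892967) (l 200420622791))) (a (a (l 408726536679) (l 210621170135)) (l 16777032))) (l 321216575031))) (b (b (l 3) (b (a (l 3) (a (l 360408154615) (l 16777184))) (a (a (l 374903669239) (l 186998849991)) (l 16777008)))) (c (l 16776456) (l 16776440)))) (b (a (b (b (a (l 3) (a (l 341617672663) (l 16777168))) (a (a (l 351281349095) (l 16777176)) (l 16776984))) (l 16776736)) (l 16775136)) (l 16773072)))) (b (a (b (b (a (l 3) (c (l 577840874039) (l 583746454071))) (a (l 589652034119) (b (a (l 571935293719) (l 176261430567)) (b (l 426980146039) (l 16776992)))))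 (a (b (a (a (l 486572818647) (b (l 502142075351) (l 16777144))) (l 365776861895)) (l 16776680)) (l 16773768))) (b (a (b (b (a (l 542944264439) (l 442012531895)) (l 352891959863)) (l 16776632)) (l 16776328)) (l 16775536))) (a (b (l 16775616) (l 16774576)) (l 16773944))))), by decide +kernel⟩

def k10_pp_101_s : ∃ t, chk3 f_pp_101_s t 135 252 1 = true :=
  ⟨(b (a (b (a (l 3) (b (l 3) (b (a (l 3) (c (l 505900171671) (l 628843608247))) (a (c (l 516100719031) (l 638507285047)) (a (b (l 327122158183) (l 16777056)) (l 16776896)))))) (b (b (a (a (l 3) (c (l 525764395479) (l 648707832839))) (a (a (b (l 344838898311) (l 16777080)) (l 16776928)) (l 16776480))) (a (b (a (l 3) (a (l 366313734807) (l 16777096))) (a (l 519858815319) (l 331417123223))) (l 16776208))) (a (b (a (b (a (l 382956733111) (l 16777120)) (l 339470186951)) (l 16776544)) (l 16774968)) (l 16775368)))) (b (a (a (a (b (l 3) (c (l 350207604727) (l 313163512167))) (b (l 605221289623) (l 16776576))) (b (b (l 581062098439)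 (a (l 435570080679) (l 16776840))) (l 16776120))) (a (b (c (l 327122154871) (l 282024998807)) (l 16775496)) (l 16772832))) (a (l 16772088) (l 16773440)))) (a (a (b (b (l 16775456) (l 16774360)) (l 16772744)) (l 16768664)) (l 16765440))), by decide +kernel⟩

def k11_pp_101_s : ∃ t, chk3 f_pp_101_s t 67 253 1 = true :=
  ⟨(a (b (b (a (b (a (l 16773144) (l 16774672)) (l 16768984)) (l 16772448)) (a (l 16772720) (l 16770408))) (a (l 16769576) (l 16767440))) (b (a (l 16768944) (l 16766296)) (l 16763480))), by decide +kernel⟩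

def k12_pp_101_s : ∃ t, chk3 f_pp_101_s t 33 127 1 = true :=
  ⟨(b (a (a (b (a (b (a (l 14) (l 16768704)) (l 14)) (b (l 16772232) (l 16769824))) (b (l 16757952) (l 14))) (b (b (l 16758600) (l 16766768)) (l 16752816))) (a (b (l 16764408) (l 16760224)) (l 16736536))) (a (a (l 14) (l 16744376)) (a (l 16754000) (l 16750288)))), by decide +kernel⟩

def k13_pp_101_s : ∃ t, chk3 f_pp_101_s t 34 124 1 = true :=
  ⟨(a (l 3) (b (l 3) (a (l 3) (b (l 3) (a (l 3) (b (l 3) (a (b (l 3) (c (l 557439775927) (l 553681678711))) (b (a (l 610053116391) (c (l 465634851527) (l 510195126327))) (a (l 354502569463) (l 16775816)))))))))), by decide +kernel⟩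

def k14_pp_101_s : ∃ t, chk3 f_pp_101_s t 68 125 1 = true :=
  ⟨(b (a (l 3) (b (l 3) (a (l 3) (b (l 3) (a (b (l 3) (l 651929056471)) (b (a (l 3) (l 622938020855)) (a (c (l 491941526183) (l 525764392743)) (c (l 288467449895) (l 253033970007))))))))) (a (b (a (l 3) (b (l 3) (a (l 3) (b (l 3) (a (c (l 578377742327) (l 573545901047)) (a (b (l 588578289559) (l 16776824)) (l 305110448215))))))) (a (b (a (l 3) (b (l 3) (a (c (l 600926321703) (l 599315704487)) (b (l 556902906567) (l 342691411239))))) (a (b (b (a (l 3) (l 577304001239)) (a (l 586967677751) (l 312089770199))) (a (c (l 315310994759) (l 340543926503)) (l 16775960))) (a (c (l 289541188903) (l 320142828663)) (l 16775264)))) (a (b (b (a (c (l 592873257351) (l 586430802663)) (b (l 514490104743) (l 16776728))) (a (l 324437798551) (l 16775792))) (l 16774264)) (b (c (l 253570836839) (l 16775256)) (l 16772888))))) (a (b (b (a (l 676625120279) (b (l 663740216679) (a (c (l 550997325767) (l 549386711143)) (c (l 327122155559)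 (l 288467450311))))) (a (b (a (c (l 564955969399) (l 561197870551)) (c (l 385104211495) (l 300815481383))) (a (l 16776296) (l 16775600))) (b (l 16775200) (l 16774536)))) (b (a (l 16774016) (l 16772584)) (l 16770744))) (b (b (a (b (a (c (l 538112424151) (l 537575551879)) (c (l 308331673639) (l 269140097463))) (l 16775752)) (b (l 16775648) (l 16774288))) (a (l 16773752) (l 16772264))) (l 16769048))))), by decide +kernel⟩

def k15_pp_101_s : ∃ t, chk3 f_pp_101_s t 69 125 1 = true :=
  ⟨(b (a (b (a (l 3) (b (l 3) (a (b (l 3) (a (l 3) (l 581598967911))) (a (b (l 3) (c (l 397989116487) (l 373293054743))) (b (l 568177193431) (l 16776264)))))) (a (b (a (b (l 3) (a (l 3) (l 608979377671))) (b (a (l 3) (l 595020739895)) (a (a (l 535964940103) (l 391009791943)) (l 334638345559)))) (a (b (a (a (l 550997324791) (l 416242724903)) (l 345375764151)) (l 16775536)) (b (l 16775424) (l 16774000)))) (a (b (b (a (b (l 557976646439) (l 16776776)) (l 16773744)) (l 16775312)) (l 16773144)) (c (l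 16773296) (l 16772664))))) (a (b (b (a (a (l 3) (c (l 591799515383) (l 584820191831))) (b (c (l 568177194567) (l 563345353767)) (a (c (l 355039443319) (l 272898194119)) (l 16776048)))) (a (b (a (c (l 371682441767) (l 346449509111)) (l 16776152)) (l 16775072)) (l 16774200))) (b (l 16766784) (l 16769024))) (b (b (a (b (a (c (l 289004321111) (l 251960228503)) (l 16775928)) (l 16774824)) (l 16773936)) (l 16771712)) (l 16767088)))) (b (a (a (c (l 16771752) (l 16770848)) (l 16768040)) (l 16752312)) (a (l 16753712) (l 16757048)))), by decide +kernel⟩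

def k16_pp_101_s : ∃ t, chk3 f_pp_101_s t 70 124 1 = true :=
  ⟨(b (a (l 3) (b (l 3) (a (a (l 3) (b (l 3) (c (l 613811219991) (l 614348064663)))) (b (a (l 3) (b (l 3) (a (l 3) (l 571935283927)))) (a (b (a (l 3) (l 586430796935)) (a (c (l 511268878679) (l 511805749207)) (l 341080796263))) (b (a (c (l 428590758695) (l 487646557111)) (l 16771144)) (l 16775240))))))) (a (b (a (l 3) (b (l 3) (a (b (l 3) (a (l 568177189143) (c (l 380272376439) (l 351818218359)))) (b (a (l 554755420391) (c (l 351281347143) (l 322827168359))) (l 16773288))))) (a (b (a (b (l 3) (a (l 596094473895) (a (l 531669972263) (l 448454980631)))) (b (a (l 582135831479) (c (l 408726534823) (l 382419860375))) (a (l 329269635991) (l 16775576)))) (a (b (a (l 341617667191) (l 16775696)) (l 16774576)) (l 16773664))) (b (a (c (l 16775240) (l 16774944)) (l 16773400)) (l 16771096)))) (a (b (b (a (b (l 624548633655) (a (l 541333649079) (c (l 326585285063) (l 275045677191)))) (b (c (a (l 527375004615) (l 16776384))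 (l 466708590103)) (l 16775496))) (c (l 160155298503) (l 16773760))) (b (l 16770800) (l 16746608))) (b (b (c (l 16773968) (l 16773472)) (l 16770512)) (l 16765624))))), by decide +kernel⟩

def k17_pp_101_s : ∃ t, chk3 f_pp_101_s t 71 124 1 = true :=
  ⟨(b (a (b (a (b (l 3) (a (l 3) (b (l 3) (a (l 3) (l 544017999863))))) (b (a (l 3) (b (l 3) (a (l 590188890903) (l 509658264951)))) (a (b (a (l 618643047479) (l 529522486951)) (c (l 382956726983) (l 285783077911))) (b (c (l 364703115735) (l 321216566023)) (l 16774720))))) (a (b (a (b (a (l 3) (l 557976641879)) (c (a (l 402284083847) (l 16776328)) (l 320142810231))) (b (a (c (l 323900910647) (l 323364039447)) (l 16776128)) (l 16774984))) (c (l 16773720) (l 16773192))) (b (c (l 16773472) (l 16772912)) (l 16769976)))) (b (a (b (a (b (a (l 575693378055) (l 484425331543)) (l 302962952695)) (b (l 303499827031) (l 16774472))) (c (l 16773256) (l 16772672))) (b (l 16772728) (l 16769616))) (a (l 16768152) (l 16764768)))) (a (b (c (l 16767528)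 (l 16765592)) (l 16760136)) (c (l 16736840) (l 16733944)))), by decide +kernel⟩

def k18_pp_101_s : ∃ t, chk3 f_pp_101_s t 35 125 1 = true :=
  ⟨(a (b (a (b (a (b (l 16771400) (l 16768272)) (l 16766312)) (l 16751224)) (b (l 16760848) (l 16733232))) (a (l 16731336) (l 16723456))) (b (a (l 16728904) (l 16721360)) (l 16711504))), by decide +kernel⟩

def k19_pp_101_s : ∃ t, chk3 f_pp_101_s t 17 63 1 = true :=
  ⟨(b (b (a (a (a (b (a (a (b (l 16774488) (l 16772136)) (l 16771976)) (l 16759408)) (a (l 16767984) (l 16765120))) (b (a (l 16766976) (l 16763880)) (l 16760504))) (a (l 16735288) (l 16748720))) (a (a (l 16719728) (l 16711392)) (l 16699768))) (a (a (a (l 16738816) (l 16753456)) (a (l 16746464) (l 16739080))) (a (l 16727896) (l 16692552)))) (a (b (a (a (l 16751656) (l 16745640)) (l 16736208)) (a (l 16742432) (l 16731088))) (b (l 16673976) (l 16712152)))), by decide +kernel⟩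

def k20_pp_101_s : ∃ t, chk3 f_pp_101_s t 9 14 1 = true :=
  ⟨(b (l 3) (a (l 3) (b (l 3) (a (l 3) (b (l 3) (a (b (l 3) (a (l 3) (b (l 3) (a (l 561734706887) (b (l 544554855879) (l 301889194807)))))) (b (a (l 3) (b (l 562808434279) (a (l 504289539367) (l 297057349047)))) (a (b (a (l 542407364231) (l 305110401559)) (c (l 16763432) (l 16763008))) (b (l 279340623095) (l 16768224)))))))))), by decide +kernel⟩

def k21_pp_101_s : ∃ t, chk3 f_pp_101_s t 18 60 1 = true :=
  ⟨(a (l 3) (b (l 3) (a (l 3) (b (l 3) (a (b (l 3) (a (l 3) (b (l 575156487255) (a (l 510732001255) (l 304573557767))))) (b (a (b (l 3) (l 562271590231)) (b (l 535428049431) (c (l 306721030775) (l 307794772295)))) (a (b (a (l 321216539719) (l 16775944)) (l 16773976)) (l 16772248)))))))), by decide +kernel⟩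

def k22_pp_101_s : ∃ t, chk3 f_pp_101_s t 36 61 1 = true :=
  ⟨(b (a (l 3) (b (l 3) (a (b (l 3) (a (l 3) (b (l 3) (a (l 3) (l 568714043543))))) (b (a (l 3) (b (l 3) (a (l 3) (l 538112410375)))) (a (b (a (l 3) (l 553144791511)) (a (b (l 550997314823) (l 311552880375)) (l 302426076551))) (b (a (b (l 528985611719) (l 16765952)) (l 16770312)) (l 16773448))))))) (a (b (a (l 3) (b (l 3) (a (b (l 3) (a (b (l 3) (l 542944253351)) (b (l 532743708023) (l 305647305015)))) (b (a (b (l 3) (l 522006291783)) (b (l 511805746455) (l 16776088))) (a (l 301889210807) (l 16773840)))))) (a (b (a (b (l 3) (a (l 604147540583) (b (l 575156502135) (c (l 443086270471) (l 382419842535))))) (b (a (b (l 3) (l 564419085863)) (b (l 553681669607) (c (l 310479137975) (l 312089750439)))) (a (c (l 306184166599) (l 307794778983)) (l 16774416)))) (a (b (a (b (a (l 520395681447) (l 385641082679)) (l 16775608)) (l 16774704)) (l 16772464)) (b (l 16772200) (l 16748152)))) (b (a (b (c (l 299741720455) (l 300815461815))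 (l 16771920)) (l 16770128)) (l 16765680)))) (a (b (b (a (c (b (l 600926285399) (a (l 527911867063) (l 359871261863))) (b (l 596094443207) (a (l 527374994839) (l 312089741591)))) (b (a (b (l 586430790727) (l 317995325527)) (c (l 306184167959) (l 307794780391))) (l 16774064))) (a (c (l 16773152) (l 16772576)) (l 16769576))) (b (l 16765184) (l 16738112))) (b (b (c (l 16772384) (l 16770208)) (l 16764680)) (l 16755608))))), by decide +kernel⟩

def k23_pp_101_s : ∃ t, chk3 f_pp_101_s t 37 61 1 = true :=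
  ⟨(b (a (b (a (b (l 3) (a (l 3) (b (l 3) (a (l 588041394279) (l 508047648071))))) (b (a (l 3) (b (l 3) (a (l 541870505079) (l 315310964247)))) (c (a (b (l 513416352343) (l 299741719543)) (l 16768576)) (a (b (l 513416351319) (l 16764728)) (l 16773352))))) (c (a (b (a (b (l 536501792983) (l 306721029511)) (b (l 303499810311) (l 16752120))) (l 16770512)) (b (l 16769944) (l 16743544))) (a (b (a (b (l 534891178407) (l 308331641879)) (l 299741710775)) (l 16769584)) (l 16771112)))) (b (a (b (a (b (a (l 526301253191) (l 309942261015)) (l 16774672)) (l 16772928)) (c (l 16769376) (l 16747344))) (b (l 16768240) (l 16762600))) (a (l 16760232) (l 16733040)))) (b (a (a (c (l 16741256) (l 16739168)) (l 16733832)) (l 16745416)) (a (l 16745968) (l 16712512)))), by decide +kernel⟩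

def k24_pp_101_s : ∃ t, chk3 f_pp_101_s t 19 30 1 = true :=
  ⟨(b (a (b (a (l 3) (b (a (l 3) (b (l 3) (a (l 3) (b (l 3) (l 508584512391))))) (a (b (a (l 3) (l 558513483223)) (a (b (l 563345330871) (l 311015991127)) (c (l 297594223495) (l 298131094071)))) (b (a (b (l 521469409495) (l 300815455415)) (l 290614911367)) (l 16771016))))) (b (a (a (b (l 3) (a (b (l 3) (l 523080023191)) (b (l 510731996919) (l 298131106567)))) (c (b (a (l 517174438103) (l 305110404231)) (l 206326190647)) (b (a (l 516100694823) (l 306184145655)) (l 190756932647)))) (a (c (l 16768296) (l 16768576)) (l 16763248))) (a (a (b (a (a (l 300278583383) (l 16773864)) (l 16771568)) (l 16767632)) (l 16761680)) (l 16734512)))) (b (a (b (a (b (a (l 3) (b (l 3) (l 312626601863))) (a (b (l 496236486135) (l 16775496)) (l 16773864))) (b (c (l 292225510071) (l 292225509847)) (l 16769616))) (a (b (l 16770320) (l 16765280)) (l 16762192))) (a (b (l 16766504) (l 16756712)) (l 16756272))) (a (b (l 16754816) (l 16744288))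 (l 16738952)))) (a (b (a (b (a (l 16759280) (l 16732280)) (l 16723936)) (l 16738896)) (a (l 16706440) (l 16695000))) (b (a (l 16727944) (l 16696712)) (l 16700432)))), by decide +kernel⟩

def k25_pp_101_s : ∃ t, chk3 f_pp_101_s t 9 31 1 = true :=
  ⟨(b (a (a (a (b (b (a (b (c (l 16745936) (l 16744424)) (l 16738792)) (l 16735352)) (a (l 16728544) (l 16721952))) (b (l 16710840) (l 16696744))) (b (b (l 16725512) (l 16712152)) (a (l 16672864) (l 16687936)))) (b (a (b (l 16712680) (l 16720368)) (l 16693656)) (a (l 16658656) (l 16669248)))) (b (a (b (l 16682768) (l 16671000)) (l 16669216)) (a (l 16676992) (l 16662016)))) (a (b (a (a (l 16661624) (l 16671448)) (l 16656688)) (a (l 16666792) (l 16667192))) (b (l 16591336) (l 16643928)))), by decide +kernel⟩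

def k26_pp_101_s : ∃ t, chk3 f_pp_101_s t 5 6 1 = true :=
  ⟨(a (l 3) (b (l 3) (b (l 3) (a (b (l 3) (a (l 3) (b (l 3) (a (l 3) (l 519321890855))))) (b (a (l 3) (b (l 520932457127) (l 312626493079))) (a (b (a (l 3) (l 315310881319)) (a (l 282024911655) (l 16765040))) (b (l 284172403799) (l 16749240)))))))), by decide +kernel⟩

def k27_pp_101_s : ∃ t, chk3 f_pp_101_s t 10 14 1 = true :=
  ⟨(b (a (l 3) (b (l 3) (a (b (l 3) (a (l 3) (b (l 3) (a (l 544554834503) (l 286856772471))))) (b (a (b (l 3) (l 557976581911)) (b (l 537038636919) (l 282024928039))) (a (b (a (l 526301243207) (l 16754128)) (l 16749160)) (l 16743984)))))) (a (b (a (l 3) (b (a (l 3) (b (l 3) (a (l 3) (l 532743681287)))) (a (b (a (l 3) (l 552607884311)) (a (b (l 559587216375) (l 328195837767)) (c (l 283635561863) (l 283098690583)))) (b (a (b (l 531133078311) (l 284709316023)) (l 16759752)) (a (l 16769632) (l 16764800)))))) (a (b (a (b (l 3) (a (b (l 3) (l 546702317495)) (b (a (l 3) (l 501068314327)) (c (l 293836114231)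 (l 293299242871))))) (b (a (c (l 534354306167) (l 533817412487)) (b (a (l 541870495879) (l 298131086215)) (l 16763680))) (a (c (l 280414349111) (l 279877478151)) (l 16767664)))) (a (b (a (b (a (l 486035937975) (l 16764880)) (l 16772160)) (l 16758632)) (a (l 16765200) (l 16759960))) (b (l 16761360) (l 16752344)))) (b (a (b (a (l 16760728) (l 16766224)) (l 16760168)) (l 16754800)) (a (l 16747080) (l 16737808))))) (b (a (b (a (b (a (l 3) (l 513953218983)) (a (l 285783035783) (l 16771184))) (b (l 272361278711) (l 16764272))) (a (b (l 16765728) (l 16757792)) (l 16752744))) (a (b (l 16759152) (l 16744176)) (l 16722408))) (a (b (a (l 16745656) (l 16736984)) (l 16724856)) (l 16675152))))), by decide +kernel⟩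

def k28_pp_101_s : ∃ t, chk3 f_pp_101_s t 11 14 1 = true :=
  ⟨(b (a (b (a (b (l 3) (a (b (l 3) (l 521469400023)) (l 281488031319))) (a (b (l 448454943847) (l 16765768)) (b (l 16749280) (l 16756128)))) (a (b (a (l 277729973527) (l 16761352)) (l 16731560)) (b (l 16746952) (l 16732904)))) (b (a (a (l 16732304) (l 16742856)) (l 16726376)) (a (l 16718720) (l 16695720)))) (b (a (a (b (l 16738776) (l 16724672)) (l 16711872)) (l 16656256)) (a (a (l 16702872) (l 16683928)) (l 16582776)))), by decide +kernel⟩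

def k29_pp_101_s : ∃ t, chk3 f_pp_101_s t 5 15 1 = true :=
  ⟨(a (b (a (b (a (b (a (l 16727496) (l 16738536)) (l 16724072)) (b (l 16724672) (l 16706160))) (a (b (l 16703536) (l 16683048)) (b (l 16686976) (l 16669432)))) (b (a (l 16699224) (l 16685736)) (a (l 16666112) (l 16656488)))) (b (a (b (a (l 16666104) (l 16655128)) (l 16643880)) (l 16538336)) (a (l 16602832) (l 16606384)))) (b (a (b (a (l 16673912) (l 16653616)) (l 16631256)) (b (l 16611680) (l 16575072))) (b (a (l 16597024) (l 16539864)) (a (l 16561056) (l 16502992))))), by decide +kernel⟩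

def k30_pp_101_s : ∃ t, chk3 f_pp_101_s t 3 1 1 = true :=
  ⟨(b (a (l 3) (l 1)) (b (a (a (b (b (l 3) (a (l 3) (b (l 3) (a (l 3) (l 496773307063))))) (b (a (b (l 3) (a (l 512342522423) (a (l 280414240151) (l 16726768)))) (b (a (l 314237070423) (l 237464598183)) (a (l 16730624) (l 16726864)))) (a (a (b (b (l 283635504167) (l 16758064)) (l 16734552)) (b (l 16743032) (l 16710688))) (b (a (l 16718720) (l 16672080)) (l 16672160))))) (b (b (l 1) (a (b (l 1) (a (l 343093952599) (l 1))) (l 1))) (b (a (b (a (l 16734952) (l 16687616)) (l 16687384)) (l 322692683655)) (a (b (l 16652280) (l 16595632)) (l 16513096))))) (b (l 1) (a (b (l 1) (a (l 431676979399) (l 1))) (l 1)))) (b (a (a (b (a (b (a (l 16702944) (l 16677960)) (l 16658080)) (b (l 16637824) (l 16601904))) (a (b (l 16624104) (l 16590992)) (b (l 16568144) (l 16530344)))) (b (a (b (l 16558552) (l 16502320)) (b (l 16520176) (l 16483104))) (a (l 16488112) (l 16406160)))) (a (b (a (l 16399872) (l 16382360)) (a (l 16366584) (l 16307144)))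 (b (l 1) (l 16137304)))) (a (b (a (a (l 16513600) (l 16474032)) (a (l 16370496) (l 16350600))) (a (b (a (l 16479968) (l 16418224)) (l 16410760)) (b (l 16323688) (l 16284016)))) (b (a (l 16111864) (l 16100248)) (a (b (l 16199128) (l 6)) (l 6))))))), by decide +kernel⟩

theorem s31_pp_101_s : ∃ t, chk3 f_pp_101_s t 5 14 1 = true := ex3_a k27_pp_101_s k28_pp_101_s

theorem s32_pp_101_s : ∃ t, chk3 f_pp_101_s t 5 7 1 = true := ex3_b s31_pp_101_s k29_pp_101_s

theorem s33_pp_101_s : ∃ t, chk3 f_pp_101_s t 5 3 1 = true := ex3_b k26_pp_101_s s32_pp_101_s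

theorem s34_pp_101_s : ∃ t, chk3 f_pp_101_s t 18 61 1 = true := ex3_a k22_pp_101_s k23_pp_101_s

theorem s35_pp_101_s : ∃ t, chk3 f_pp_101_s t 18 30 1 = true := ex3_b k21_pp_101_s s34_pp_101_s

theorem s36_pp_101_s : ∃ t, chk3 f_pp_101_s t 9 30 1 = true := ex3_a s35_pp_101_s k24_pp_101_s

theorem s37_pp_101_s : ∃ t, chk3 f_pp_101_s t 9 15 1 = true := ex3_b s36_pp_101_s k25_pp_101_s

theorem s38_pp_101_s : ∃ t, chk3 f_pp_101_s t 9 7 1 = true := ex3_b k20_pp_101_s s37_pp_101_s

theorem s39_pp_101_s : ∃ t, chk3 f_pp_101_s t 35 124 1 = true := ex3_a k16_pp_101_s k17_pp_101_s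

theorem s40_pp_101_s : ∃ t, chk3 f_pp_101_s t 35 62 1 = true := ex3_b s39_pp_101_s k18_pp_101_s

theorem s41_pp_101_s : ∃ t, chk3 f_pp_101_s t 34 125 1 = true := ex3_a k14_pp_101_s k15_pp_101_s

theorem s42_pp_101_s : ∃ t, chk3 f_pp_101_s t 34 62 1 = true := ex3_b k13_pp_101_s s41_pp_101_s

theorem s43_pp_101_s : ∃ t, chk3 f_pp_101_s t 17 62 1 = true := ex3_a s42_pp_101_s s40_pp_101_s

theorem s44_pp_101_s : ∃ t, chk3 f_pp_101_s t 17 31 1 = true := ex3_b s43_pp_101_s k19_pp_101_s

theorem s45_pp_101_s : ∃ t, chk3 f_pp_101_s t 67 252 1 = true := ex3_a k9_pp_101_s k10_pp_101_s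

theorem s46_pp_101_s : ∃ t, chk3 f_pp_101_s t 67 126 1 = true := ex3_b s45_pp_101_s k11_pp_101_s

theorem s47_pp_101_s : ∃ t, chk3 f_pp_101_s t 66 253 1 = true := ex3_a k7_pp_101_s k8_pp_101_s

theorem s48_pp_101_s : ∃ t, chk3 f_pp_101_s t 66 126 1 = true := ex3_b k6_pp_101_s s47_pp_101_s

theorem s49_pp_101_s : ∃ t, chk3 f_pp_101_s t 33 126 1 = true := ex3_a s48_pp_101_s s46_pp_101_s

theorem s50_pp_101_s : ∃ t, chk3 f_pp_101_s t 33 63 1 = true := ex3_b s49_pp_101_s k12_pp_101_s

theorem s51_pp_101_s : ∃ t, chk3 f_pp_101_s t 33 31 1 = true := ex3_b k5_pp_101_s s50_pp_101_s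

theorem s52_pp_101_s : ∃ t, chk3 f_pp_101_s t 16 31 1 = true := ex3_a k4_pp_101_s s51_pp_101_s

theorem s53_pp_101_s : ∃ t, chk3 f_pp_101_s t 8 31 1 = true := ex3_a s52_pp_101_s s44_pp_101_s

theorem s54_pp_101_s : ∃ t, chk3 f_pp_101_s t 8 15 1 = true := ex3_b k3_pp_101_s s53_pp_101_s

theorem s55_pp_101_s : ∃ t, chk3 f_pp_101_s t 8 7 1 = true := ex3_b k2_pp_101_s s54_pp_101_s

theorem s56_pp_101_s : ∃ t, chk3 f_pp_101_s t 4 7 1 = true := ex3_a s55_pp_101_s s38_pp_101_s

theorem s57_pp_101_s : ∃ t, chk3 f_pp_101_s t 4 3 1 = true := ex3_b k1_pp_101_s s56_pp_101_s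

theorem s58_pp_101_s : ∃ t, chk3 f_pp_101_s t 2 3 1 = true := ex3_a s57_pp_101_s s33_pp_101_s

theorem s59_pp_101_s : ∃ t, chk3 f_pp_101_s t 2 1 1 = true := ex3_b k0_pp_101_s s58_pp_101_s

theorem s60_pp_101_s : ∃ t, chk3 f_pp_101_s t 1 1 1 = true := ex3_a s59_pp_101_s k30_pp_101_s

theorem c_pp_101_s : CertNE 536870912 536870912 536870912 536870912 1020054732 13421774 3 eng mog cd5q1 cd0q1 pd0 false true true .npn 1 0 1
    ndB5q1 ndB0q1 pcB0 cut_pp_101_s Ext.none :=
  certNE2 (fam := false) (s1 := true) (s2 := true) (a := 1) (b := 0) (c := 1) (cn := .npn) (n1 := ndB5q1) (n2 := ndB0q1) (pc := pcB0) (cut := cut_pp_101_s) (xt := Ext.none) (P1 := 536870912) (W1 := 536870912) (P2 := 536870912) (W2 := 536870912) (P3 := 1020054732) (W3 := 13421774) (N0 := 3) (En := eng) (mo := mog) (C1 := cd5q1) (C2 := cd0q1) (C3 := pd0)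
    rfl (fun _ => rfl) s60_pp_101_s

noncomputable def cut_pp_102_s : Cut := Cut.of [[⟨4, 0, 0, 1449551462⟩], [⟨0, 1, 0, 38347922⟩, ⟨1, 0, 0, 38347922⟩, ⟨2, 1, 0, 38347922⟩]]

noncomputable def f_pp_102_s : ℕ → ℕ → ℕ → ℕ → Bool := onCell 0 536870912 0 536870912 1020054732 13421774
    (rowNE 3 eng mog cd5q1 cd0q2 pd0 2 false true true .npp 1 0 2 (qsf 536870912 536870912 0 536870912 0) ndB5q1 ndB0q2 pcB0 cut_pp_102_s Ext.none)

def k0_pp_102_s : ∃ t, chk3 f_pp_102_s t 2 2 1 = true :=
  ⟨(a (l 6) (l 6)), by decide +kernel⟩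

def k1_pp_102_s : ∃ t, chk3 f_pp_102_s t 4 3 1 = true :=
  ⟨(b (a (l 2) (b (l 6) (a (b (l 15394400) (a (b (l 15554288) (l 15656704)) (b (l 15513376) (l 15614184)))) (b (l 6) (a (l 15530536) (l 15516456)))))) (a (b (a (l 2) (a (b (l 2) (b (l 2) (a (l 16149096) (l 16158968)))) (b (a (l 2) (b (l 2) (l 15909592))) (a (b (l 16035976) (l 16168088)) (l 16104192))))) (b (b (a (b (l 2) (l 14)) (a (a (l 16226456) (l 16297560)) (a (l 16305032) (l 16308136)))) (a (l 14) (a (a (b (l 16397504) (l 16472128)) (l 16420368)) (a (l 16447152) (l 16450744))))) (a (l 14) (a (b (a (b (l 16548608) (l 16559080)) (b (l 16553776) (l 16599584))) (b (l 16629936) (a (l 16719496) (l 16713416)))) (b (a (b (l 16557616) (l 16616584)) (b (l 16558072) (l 16611464))) (b (l 16660440) (l 16706608))))))) (b (a (b (a (b (l 15762008) (l 15895000)) (l 15814736)) (a (b (l 16028136) (l 16165488)) (l 16092712))) (b (a (l 15805872) (l 15803000)) (a (l 16094384) (l 16097288)))) (b (a (a (b (l 16307544) (a (l 16453040)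 (l 16458152))) (b (l 16312144) (b (l 16425184) (l 16497088)))) (b (a (l 16318968) (l 16323328)) (a (l 16357928) (l 16414200)))) (a (a (b (a (l 16517656) (l 16558216)) (l 16634440)) (b (l 16574736) (l 16667112))) (b (l 16495672) (a (l 16653080) (l 16634752)))))))), by decide +kernel⟩

def k2_pp_102_s : ∃ t, chk3 f_pp_102_s t 5 3 1 = true :=
  ⟨(b (a (b (l 6) (a (b (l 6) (l 15509872)) (l 6))) (l 6)) (b (b (a (a (a (l 15801936) (l 15798992)) (l 15684176)) (l 6)) (a (a (a (l 16097920) (l 16094064)) (l 16058328)) (a (l 16053336) (l 16017968)))) (a (b (a (b (a (l 16322368) (l 16317880)) (l 16350960)) (b (l 16261248) (l 16403928))) (a (b (l 16523720) (l 16604696)) (l 16499752))) (b (b (a (l 16251712) (l 16233392)) (l 16317320)) (a (l 16470696) (l 16417152)))))), by decide +kernel⟩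

def k3_pp_102_s : ∃ t, chk3 f_pp_102_s t 3 1 1 = true :=
  ⟨(b (l 6) (b (l 6) (a (b (l 6) (a (a (b (l 16011960) (l 16360928)) (b (l 6) (l 16302936))) (b (l 6) (l 16193160)))) (l 6)))), by decide +kernel⟩

theorem s4_pp_102_s : ∃ t, chk3 f_pp_102_s t 2 3 1 = true := ex3_a k1_pp_102_s k2_pp_102_s

theorem s5_pp_102_s : ∃ t, chk3 f_pp_102_s t 2 1 1 = true := ex3_b k0_pp_102_s s4_pp_102_s

theorem s6_pp_102_s : ∃ t, chk3 f_pp_102_s t 1 1 1 = true := ex3_a s5_pp_102_s k3_pp_102_s

theorem c_pp_102_s : CertNE 536870912 536870912 0 536870912 1020054732 13421774 3 eng mog cd5q1 cd0q2 pd0 false true true .npp 1 0 2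
    ndB5q1 ndB0q2 pcB0 cut_pp_102_s Ext.none :=
  certNE2 (fam := false) (s1 := true) (s2 := true) (a := 1) (b := 0) (c := 2) (cn := .npp) (n1 := ndB5q1) (n2 := ndB0q2) (pc := pcB0) (cut := cut_pp_102_s) (xt := Ext.none) (P1 := 536870912) (W1 := 536870912) (P2 := 0) (W2 := 536870912) (P3 := 1020054732) (W3 := 13421774) (N0 := 3) (En := eng) (mo := mog) (C1 := cd5q1) (C2 := cd0q2) (C3 := pd0)
    rfl (fun _ => rfl) s6_pp_102_s

noncomputable def cut_pp_112_s : Cut := Cut.of [[⟨4, 0, 0, 1449551462⟩]]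

noncomputable def f_pp_112_s : ℕ → ℕ → ℕ → ℕ → Bool := onCell 536870912 536870912 0 536870912 1020054732 13421774
    (rowNE 3 eng mog cd5q1 cd0q2 pd1 2 false true true .dn 1 1 2 (qsf 536870912 536870912 0 536870912 1) ndB5q1 ndB0q2 pcB1 cut_pp_112_s Ext.none)

def k0_pp_112_s : ∃ t, chk3 f_pp_112_s t 1 1 1 = true :=
  ⟨(b (l 6) (l 6)), by decide +kernel⟩

theorem c_pp_112_s : CertNE 536870912 536870912 0 536870912 1020054732 13421774 3 eng mog cd5q1 cd0q2 pd1 false true true .dn 1 1 2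
    ndB5q1 ndB0q2 pcB1 cut_pp_112_s Ext.none :=
  certNE2 (fam := false) (s1 := true) (s2 := true) (a := 1) (b := 1) (c := 2) (cn := .dn) (n1 := ndB5q1) (n2 := ndB0q2) (pc := pcB1) (cut := cut_pp_112_s) (xt := Ext.none) (P1 := 536870912) (W1 := 536870912) (P2 := 0) (W2 := 536870912) (P3 := 1020054732) (W3 := 13421774) (N0 := 3) (En := eng) (mo := mog) (C1 := cd5q1) (C2 := cd0q2) (C3 := pd1)
    rfl (fun _ => rfl) k0_pp_112_s

noncomputable def cut_pp_202_s : Cut := Cut.of [[⟨4, 0, 0, 1449551462⟩], [⟨0, 1, 0, 33554432⟩, ⟨1, 0, 0, 33554432⟩, ⟨2, 1, 0, 33554432⟩]]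

noncomputable def f_pp_202_s : ℕ → ℕ → ℕ → ℕ → Bool := onCell 0 536870912 0 536870912 1020054732 13421774
    (rowNE 3 eng mog cd5q2 cd0q2 pd0 2 false true true .pp 2 0 2 (qsf 1073741824 536870912 0 536870912 0) ndB5q2 ndB0q2 pcB0 cut_pp_202_s Ext.none)

def k0_pp_202_s : ∃ t, chk3 f_pp_202_s t 1 1 1 = true :=
  ⟨(a (b (a (l 6) (l 6)) (a (b (a (a (a (b (l 16109280) (b (l 16219824) (l 16295888))) (a (b (l 15983000) (l 16118368)) (b (l 15892864) (a (l 16045016) (l 15995048))))) (a (b (a (l 15819160) (l 15757608)) (a (l 15942472) (l 15882176))) (b (l 15658192) (a (l 15820968) (l 15750824))))) (b (l 6) (a (b (l 15501648) (a (l 15543952) (l 521332228135))) (b (l 6) (l 1))))) (a (b (a (a (b (l 16355680) (b (l 16442368) (a (l 16499072) (b (l 16432520) (l 16454512))))) (a (b (l 16230392) (b (l 16299064) (a (l 16369080) (l 16326456)))) (b (a (l 16154264) (l 16102824)) (a (b (l 16221248) (l 16283232)) (b (l 16171936) (l 16242080)))))) (a (b (a (b (l 16031904) (l 16074480)) (b (l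 15973936) (l 16020408))) (a (b (l 16129688) (l 16202744)) (b (l 16084848) (l 16156592)))) (b (a (l 15944392) (b (l 15850864) (l 15913144))) (a (l 16072792) (l 16017360))))) (a (a (b (b (a (b (l 16533280) (l 16597000)) (l 16473624)) (l 14)) (l 14)) (a (b (b (l 16412056) (l 14)) (l 14)) (b (b (a (l 16354472) (l 16318232)) (a (l 14) (l 16400592))) (l 1)))) (a (b (b (a (l 16280344) (l 1)) (l 1)) (l 1)) (l 1)))) (b (a (b (a (b (l 15733272) (l 15807504)) (l 1)) (l 1)) (l 1)) (l 1)))) (b (l 1) (l 1)))) (l 1)), by decide +kernel⟩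

theorem c_pp_202_s : CertNE 1073741824 536870912 0 536870912 1020054732 13421774 3 eng mog cd5q2 cd0q2 pd0 false true true .pp 2 0 2
    ndB5q2 ndB0q2 pcB0 cut_pp_202_s Ext.none :=
  certNE2 (fam := false) (s1 := true) (s2 := true) (a := 2) (b := 0) (c := 2) (cn := .pp) (n1 := ndB5q2) (n2 := ndB0q2) (pc := pcB0) (cut := cut_pp_202_s) (xt := Ext.none) (P1 := 1073741824) (W1 := 536870912) (P2 := 0) (W2 := 536870912) (P3 := 1020054732) (W3 := 13421774) (N0 := 3) (En := eng) (mo := mog) (C1 := cd5q2) (C2 := cd0q2) (C3 := pd0)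
    rfl (fun _ => rfl) k0_pp_202_s

noncomputable def cut_pm_001_s : Cut := Cut.of [[⟨4, 0, 0, 1449551462⟩]]

noncomputable def f_pm_001_s : ℕ → ℕ → ℕ → ℕ → Bool := onCell 0 536870912 536870912 536870912 1020054732 13421774
    (rowNE 3 eng mog cd5q0 cd0q1 pd0 0 false true false .up 0 0 1 (qsf 0 536870912 536870912 536870912 0) ndB5q0 ndB0q1 pcB0 cut_pm_001_s Ext.none)

def k0_pm_001_s : ∃ t, chk3 f_pm_001_s t 1 1 1 = true :=
  ⟨(l 4), by decide +kernel⟩

theorem c_pm_001_s : CertNE 0 536870912 536870912 536870912 1020054732 13421774 3 eng mog cd5q0 cd0q1 pd0 false true false .up 0 0 1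
    ndB5q0 ndB0q1 pcB0 cut_pm_001_s Ext.none :=
  certNE0 (fam := false) (s1 := true) (s2 := false) (a := 0) (b := 0) (c := 1) (cn := .up) (n1 := ndB5q0) (n2 := ndB0q1) (pc := pcB0) (cut := cut_pm_001_s) (xt := Ext.none) (P1 := 0) (W1 := 536870912) (P2 := 536870912) (W2 := 536870912) (P3 := 1020054732) (W3 := 13421774) (N0 := 3) (En := eng) (mo := mog) (C1 := cd5q0) (C2 := cd0q1) (C3 := pd0)
    rfl k0_pm_001_s

noncomputable def cut_pm_011_s : Cut := Cut.of [[⟨4, 0, 0, 1449551462⟩]]

noncomputable def f_pm_011_s : ℕ → ℕ → ℕ → ℕ → Bool := onCell 0 536870912 536870912 536870912 1020054732 13421774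
    (rowNE 3 eng mog cd5q0 cd0q1 pd1 0 false true false .pnn 0 1 1 (qsf 0 536870912 536870912 536870912 1) ndB5q0 ndB0q1 pcB1 cut_pm_011_s Ext.none)

def k0_pm_011_s : ∃ t, chk3 f_pm_011_s t 1 1 1 = true :=
  ⟨(l 4), by decide +kernel⟩

theorem c_pm_011_s : CertNE 0 536870912 536870912 536870912 1020054732 13421774 3 eng mog cd5q0 cd0q1 pd1 false true false .pnn 0 1 1
    ndB5q0 ndB0q1 pcB1 cut_pm_011_s Ext.none :=
  certNE0 (fam := false) (s1 := true) (s2 := false) (a := 0) (b := 1) (c := 1) (cn := .pnn) (n1 := ndB5q0) (n2 := ndB0q1) (pc := pcB1) (cut := cut_pm_011_s) (xt := Ext.none) (P1 := 0) (W1 := 536870912) (P2 := 536870912) (W2 := 536870912) (P3 := 1020054732) (W3 := 13421774) (N0 := 3) (En := eng) (mo := mog) (C1 := cd5q0) (C2 := cd0q1) (C3 := pd1)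
    rfl k0_pm_011_s

noncomputable def cut_pm_012_s : Cut := Cut.of [[⟨4, 0, 0, 1449551462⟩]]

noncomputable def f_pm_012_s : ℕ → ℕ → ℕ → ℕ → Bool := onCell 0 536870912 0 536870912 1020054732 13421774
    (rowNE 3 eng mog cd5q0 cd0q2 pd1 0 false true false .pnp 0 1 2 (qsf 0 536870912 0 536870912 1) ndB5q0 ndB0q2 pcB1 cut_pm_012_s Ext.none)

def k0_pm_012_s : ∃ t, chk3 f_pm_012_s t 1 1 1 = true :=
  ⟨(l 6), by decide +kernel⟩

theorem c_pm_012_s : CertNE 0 536870912 0 536870912 1020054732 13421774 3 eng mog cd5q0 cd0q2 pd1 false true false .pnp 0 1 2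
    ndB5q0 ndB0q2 pcB1 cut_pm_012_s Ext.none :=
  certNE0 (fam := false) (s1 := true) (s2 := false) (a := 0) (b := 1) (c := 2) (cn := .pnp) (n1 := ndB5q0) (n2 := ndB0q2) (pc := pcB1) (cut := cut_pm_012_s) (xt := Ext.none) (P1 := 0) (W1 := 536870912) (P2 := 0) (W2 := 536870912) (P3 := 1020054732) (W3 := 13421774) (N0 := 3) (En := eng) (mo := mog) (C1 := cd5q0) (C2 := cd0q2) (C3 := pd1)
    rfl k0_pm_012_s

noncomputable def cut_pm_022_s : Cut := Cut.of [[⟨4, 0, 0, 1449551462⟩]]

noncomputable def f_pm_022_s : ℕ → ℕ → ℕ → ℕ → Bool := onCell 0 536870912 0 536870912 1020054732 13421774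
    (rowNE 3 eng mog cd5q0 cd0q2 pd2 0 false true false .pp 0 2 2 (qsf 0 536870912 0 536870912 2) ndB5q0 ndB0q2 pcB2 cut_pm_022_s Ext.none)

def k0_pm_022_s : ∃ t, chk3 f_pm_022_s t 1 1 1 = true :=
  ⟨(l 6), by decide +kernel⟩

theorem c_pm_022_s : CertNE 0 536870912 0 536870912 1020054732 13421774 3 eng mog cd5q0 cd0q2 pd2 false true false .pp 0 2 2
    ndB5q0 ndB0q2 pcB2 cut_pm_022_s Ext.none :=
  certNE0 (fam := false) (s1 := true) (s2 := false) (a := 0) (b := 2) (c := 2) (cn := .pp) (n1 := ndB5q0) (n2 := ndB0q2) (pc := pcB2) (cut := cut_pm_022_s) (xt := Ext.none) (P1 := 0) (W1 := 536870912) (P2 := 0) (W2 := 536870912) (P3 := 1020054732) (W3 := 13421774) (N0 := 3) (En := eng) (mo := mog) (C1 := cd5q0) (C2 := cd0q2) (C3 := pd2)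
    rfl k0_pm_022_s

noncomputable def cut_pm_101_s : Cut := Cut.of [[⟨4, 0, 0, 1449551462⟩]]

noncomputable def f_pm_101_s : ℕ → ℕ → ℕ → ℕ → Bool := onCell 536870912 536870912 536870912 536870912 1020054732 13421774
    (rowNE 3 eng mog cd5q1 cd0q1 pd0 0 false true false .npn 1 0 1 (qsf 536870912 536870912 536870912 536870912 0) ndB5q1 ndB0q1 pcB0 cut_pm_101_s Ext.none)

def k0_pm_101_s : ∃ t, chk3 f_pm_101_s t 1 1 1 = true :=
  ⟨(l 4), by decide +kernel⟩

theorem c_pm_101_s : CertNE 536870912 536870912 536870912 536870912 1020054732 13421774 3 eng mog cd5q1 cd0q1 pd0 false true false .npn 1 0 1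
    ndB5q1 ndB0q1 pcB0 cut_pm_101_s Ext.none :=
  certNE0 (fam := false) (s1 := true) (s2 := false) (a := 1) (b := 0) (c := 1) (cn := .npn) (n1 := ndB5q1) (n2 := ndB0q1) (pc := pcB0) (cut := cut_pm_101_s) (xt := Ext.none) (P1 := 536870912) (W1 := 536870912) (P2 := 536870912) (W2 := 536870912) (P3 := 1020054732) (W3 := 13421774) (N0 := 3) (En := eng) (mo := mog) (C1 := cd5q1) (C2 := cd0q1) (C3 := pd0)
    rfl k0_pm_101_s

noncomputable def cut_pm_102_s : Cut := Cut.of [[⟨4, 0, 0, 1449551462⟩]]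

noncomputable def f_pm_102_s : ℕ → ℕ → ℕ → ℕ → Bool := onCell 536870912 536870912 0 536870912 1020054732 13421774
    (rowNE 3 eng mog cd5q1 cd0q2 pd0 0 false true false .npp 1 0 2 (qsf 536870912 536870912 0 536870912 0) ndB5q1 ndB0q2 pcB0 cut_pm_102_s Ext.none)

def k0_pm_102_s : ∃ t, chk3 f_pm_102_s t 1 1 1 = true :=
  ⟨(l 6), by decide +kernel⟩

theorem c_pm_102_s : CertNE 536870912 536870912 0 536870912 1020054732 13421774 3 eng mog cd5q1 cd0q2 pd0 false true false .npp 1 0 2
    ndB5q1 ndB0q2 pcB0 cut_pm_102_s Ext.none :=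
  certNE0 (fam := false) (s1 := true) (s2 := false) (a := 1) (b := 0) (c := 2) (cn := .npp) (n1 := ndB5q1) (n2 := ndB0q2) (pc := pcB0) (cut := cut_pm_102_s) (xt := Ext.none) (P1 := 536870912) (W1 := 536870912) (P2 := 0) (W2 := 536870912) (P3 := 1020054732) (W3 := 13421774) (N0 := 3) (En := eng) (mo := mog) (C1 := cd5q1) (C2 := cd0q2) (C3 := pd0)
    rfl k0_pm_102_s

noncomputable def cut_pm_112_s : Cut := Cut.of [[⟨4, 0, 0, 1449551462⟩]]

noncomputable def f_pm_112_s : ℕ → ℕ → ℕ → ℕ → Bool := onCell 536870912 536870912 0 536870912 1020054732 13421774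
    (rowNE 3 eng mog cd5q1 cd0q2 pd1 0 false true false .dn 1 1 2 (qsf 536870912 536870912 0 536870912 1) ndB5q1 ndB0q2 pcB1 cut_pm_112_s Ext.none)

def k0_pm_112_s : ∃ t, chk3 f_pm_112_s t 1 1 1 = true :=
  ⟨(l 6), by decide +kernel⟩

theorem c_pm_112_s : CertNE 536870912 536870912 0 536870912 1020054732 13421774 3 eng mog cd5q1 cd0q2 pd1 false true false .dn 1 1 2
    ndB5q1 ndB0q2 pcB1 cut_pm_112_s Ext.none :=
  certNE0 (fam := false) (s1 := true) (s2 := false) (a := 1) (b := 1) (c := 2) (cn := .dn) (n1 := ndB5q1) (n2 := ndB0q2) (pc := pcB1) (cut := cut_pm_112_s) (xt := Ext.none) (P1 := 536870912) (W1 := 536870912) (P2 := 0) (W2 := 536870912) (P3 := 1020054732) (W3 := 13421774) (N0 := 3) (En := eng) (mo := mog) (C1 := cd5q1) (C2 := cd0q2) (C3 := pd1)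
    rfl k0_pm_112_s

noncomputable def cut_pm_202_s : Cut := Cut.of [[⟨4, 0, 0, 1449551462⟩]]

noncomputable def f_pm_202_s : ℕ → ℕ → ℕ → ℕ → Bool := onCell 0 536870912 0 536870912 1020054732 13421774
    (rowNE 3 eng mog cd5q2 cd0q2 pd0 2 false true false .pp 2 0 2 (qsf 1073741824 536870912 0 536870912 0) ndB5q2 ndB0q2 pcB0 cut_pm_202_s Ext.none)

def k0_pm_202_s : ∃ t, chk3 f_pm_202_s t 1 1 1 = true :=
  ⟨(l 6), by decide +kernel⟩

theorem c_pm_202_s : CertNE 1073741824 536870912 0 536870912 1020054732 13421774 3 eng mog cd5q2 cd0q2 pd0 false true false .pp 2 0 2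
    ndB5q2 ndB0q2 pcB0 cut_pm_202_s Ext.none :=
  certNE2 (fam := false) (s1 := true) (s2 := false) (a := 2) (b := 0) (c := 2) (cn := .pp) (n1 := ndB5q2) (n2 := ndB0q2) (pc := pcB0) (cut := cut_pm_202_s) (xt := Ext.none) (P1 := 1073741824) (W1 := 536870912) (P2 := 0) (W2 := 536870912) (P3 := 1020054732) (W3 := 13421774) (N0 := 3) (En := eng) (mo := mog) (C1 := cd5q2) (C2 := cd0q2) (C3 := pd0)
    rfl (fun _ => rfl) k0_pm_202_s

noncomputable def cut_mm_001_s : Cut := Cut.of [[⟨4, 0, 0, 1449551462⟩]]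

noncomputable def f_mm_001_s : ℕ → ℕ → ℕ → ℕ → Bool := onCell 0 536870912 536870912 536870912 1020054732 13421774
    (rowNE 3 eng mog cd5q0 cd0q1 pd0 0 false false false .up 0 0 1 (qsf 0 536870912 536870912 536870912 0) ndB5q0 ndB0q1 pcB0 cut_mm_001_s Ext.none)

def k0_mm_001_s : ∃ t, chk3 f_mm_001_s t 1 1 1 = true :=
  ⟨(l 5), by decide +kernel⟩

theorem c_mm_001_s : CertNE 0 536870912 536870912 536870912 1020054732 13421774 3 eng mog cd5q0 cd0q1 pd0 false false false .up 0 0 1
    ndB5q0 ndB0q1 pcB0 cut_mm_001_s Ext.none :=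
  certNE0 (fam := false) (s1 := false) (s2 := false) (a := 0) (b := 0) (c := 1) (cn := .up) (n1 := ndB5q0) (n2 := ndB0q1) (pc := pcB0) (cut := cut_mm_001_s) (xt := Ext.none) (P1 := 0) (W1 := 536870912) (P2 := 536870912) (W2 := 536870912) (P3 := 1020054732) (W3 := 13421774) (N0 := 3) (En := eng) (mo := mog) (C1 := cd5q0) (C2 := cd0q1) (C3 := pd0)
    rfl k0_mm_001_s

noncomputable def cut_mm_011_s : Cut := Cut.of [[⟨4, 0, 0, 1449551462⟩]]

noncomputable def f_mm_011_s : ℕ → ℕ → ℕ → ℕ → Bool := onCell 0 536870912 536870912 536870912 1020054732 13421774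
    (rowNE 3 eng mog cd5q0 cd0q1 pd1 0 false false false .pnn 0 1 1 (qsf 0 536870912 536870912 536870912 1) ndB5q0 ndB0q1 pcB1 cut_mm_011_s Ext.none)

def k0_mm_011_s : ∃ t, chk3 f_mm_011_s t 1 1 1 = true :=
  ⟨(l 5), by decide +kernel⟩

theorem c_mm_011_s : CertNE 0 536870912 536870912 536870912 1020054732 13421774 3 eng mog cd5q0 cd0q1 pd1 false false false .pnn 0 1 1
    ndB5q0 ndB0q1 pcB1 cut_mm_011_s Ext.none :=
  certNE0 (fam := false) (s1 := false) (s2 := false) (a := 0) (b := 1) (c := 1) (cn := .pnn) (n1 := ndB5q0) (n2 := ndB0q1) (pc := pcB1) (cut := cut_mm_011_s) (xt := Ext.none) (P1 := 0) (W1 := 536870912) (P2 := 536870912) (W2 := 536870912) (P3 := 1020054732) (W3 := 13421774) (N0 := 3) (En := eng) (mo := mog) (C1 := cd5q0) (C2 := cd0q1) (C3 := pd1)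
    rfl k0_mm_011_s

noncomputable def cut_mm_012_s : Cut := Cut.of [[⟨4, 0, 0, 1449551462⟩]]

noncomputable def f_mm_012_s : ℕ → ℕ → ℕ → ℕ → Bool := onCell 0 536870912 0 536870912 1020054732 13421774
    (rowNE 3 eng mog cd5q0 cd0q2 pd1 0 false false false .pnp 0 1 2 (qsf 0 536870912 0 536870912 1) ndB5q0 ndB0q2 pcB1 cut_mm_012_s Ext.none)

def k0_mm_012_s : ∃ t, chk3 f_mm_012_s t 1 1 1 = true :=
  ⟨(l 5), by decide +kernel⟩

theorem c_mm_012_s : CertNE 0 536870912 0 536870912 1020054732 13421774 3 eng mog cd5q0 cd0q2 pd1 false false false .pnp 0 1 2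
    ndB5q0 ndB0q2 pcB1 cut_mm_012_s Ext.none :=
  certNE0 (fam := false) (s1 := false) (s2 := false) (a := 0) (b := 1) (c := 2) (cn := .pnp) (n1 := ndB5q0) (n2 := ndB0q2) (pc := pcB1) (cut := cut_mm_012_s) (xt := Ext.none) (P1 := 0) (W1 := 536870912) (P2 := 0) (W2 := 536870912) (P3 := 1020054732) (W3 := 13421774) (N0 := 3) (En := eng) (mo := mog) (C1 := cd5q0) (C2 := cd0q2) (C3 := pd1)
    rfl k0_mm_012_s

noncomputable def cut_mm_022_s : Cut := Cut.of [[⟨4, 0, 0, 1449551462⟩]]

noncomputable def f_mm_022_s : ℕ → ℕ → ℕ → ℕ → Bool := onCell 0 536870912 0 536870912 1020054732 13421774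
    (rowNE 3 eng mog cd5q0 cd0q2 pd2 0 false false false .pp 0 2 2 (qsf 0 536870912 0 536870912 2) ndB5q0 ndB0q2 pcB2 cut_mm_022_s Ext.none)

def k0_mm_022_s : ∃ t, chk3 f_mm_022_s t 1 1 1 = true :=
  ⟨(l 5), by decide +kernel⟩

theorem c_mm_022_s : CertNE 0 536870912 0 536870912 1020054732 13421774 3 eng mog cd5q0 cd0q2 pd2 false false false .pp 0 2 2
    ndB5q0 ndB0q2 pcB2 cut_mm_022_s Ext.none :=
  certNE0 (fam := false) (s1 := false) (s2 := false) (a := 0) (b := 2) (c := 2) (cn := .pp) (n1 := ndB5q0) (n2 := ndB0q2) (pc := pcB2) (cut := cut_mm_022_s) (xt := Ext.none) (P1 := 0) (W1 := 536870912) (P2 := 0) (W2 := 536870912) (P3 := 1020054732) (W3 := 13421774) (N0 := 3) (En := eng) (mo := mog) (C1 := cd5q0) (C2 := cd0q2) (C3 := pd2)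
    rfl k0_mm_022_s

noncomputable def cut_mm_101_s : Cut := Cut.of [[⟨4, 0, 0, 1449551462⟩]]

noncomputable def f_mm_101_s : ℕ → ℕ → ℕ → ℕ → Bool := onCell 0 536870912 536870912 536870912 1020054732 13421774
    (rowNE 3 eng mog cd5q1 cd0q1 pd0 2 false false false .npn 1 0 1 (qsf 536870912 536870912 536870912 536870912 0) ndB5q1 ndB0q1 pcB0 cut_mm_101_s Ext.none)

def k0_mm_101_s : ∃ t, chk3 f_mm_101_s t 1 1 1 = true :=
  ⟨(l 5), by decide +kernel⟩

theorem c_mm_101_s : CertNE 536870912 536870912 536870912 536870912 1020054732 13421774 3 eng mog cd5q1 cd0q1 pd0 false false false .npn 1 0 1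
    ndB5q1 ndB0q1 pcB0 cut_mm_101_s Ext.none :=
  certNE2 (fam := false) (s1 := false) (s2 := false) (a := 1) (b := 0) (c := 1) (cn := .npn) (n1 := ndB5q1) (n2 := ndB0q1) (pc := pcB0) (cut := cut_mm_101_s) (xt := Ext.none) (P1 := 536870912) (W1 := 536870912) (P2 := 536870912) (W2 := 536870912) (P3 := 1020054732) (W3 := 13421774) (N0 := 3) (En := eng) (mo := mog) (C1 := cd5q1) (C2 := cd0q1) (C3 := pd0)
    rfl (fun _ => rfl) k0_mm_101_s

noncomputable def cut_mm_102_s : Cut := Cut.of [[⟨4, 0, 0, 1449551462⟩]]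

noncomputable def f_mm_102_s : ℕ → ℕ → ℕ → ℕ → Bool := onCell 536870912 536870912 0 536870912 1020054732 13421774
    (rowNE 3 eng mog cd5q1 cd0q2 pd0 0 false false false .npp 1 0 2 (qsf 536870912 536870912 0 536870912 0) ndB5q1 ndB0q2 pcB0 cut_mm_102_s Ext.none)

def k0_mm_102_s : ∃ t, chk3 f_mm_102_s t 1 1 1 = true :=
  ⟨(l 5), by decide +kernel⟩

theorem c_mm_102_s : CertNE 536870912 536870912 0 536870912 1020054732 13421774 3 eng mog cd5q1 cd0q2 pd0 false false false .npp 1 0 2
    ndB5q1 ndB0q2 pcB0 cut_mm_102_s Ext.none :=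
  certNE0 (fam := false) (s1 := false) (s2 := false) (a := 1) (b := 0) (c := 2) (cn := .npp) (n1 := ndB5q1) (n2 := ndB0q2) (pc := pcB0) (cut := cut_mm_102_s) (xt := Ext.none) (P1 := 536870912) (W1 := 536870912) (P2 := 0) (W2 := 536870912) (P3 := 1020054732) (W3 := 13421774) (N0 := 3) (En := eng) (mo := mog) (C1 := cd5q1) (C2 := cd0q2) (C3 := pd0)
    rfl k0_mm_102_s

noncomputable def cut_mm_112_s : Cut := Cut.of [[⟨4, 0, 0, 1449551462⟩]]

noncomputable def f_mm_112_s : ℕ → ℕ → ℕ → ℕ → Bool := onCell 536870912 536870912 0 536870912 1020054732 13421774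
    (rowNE 3 eng mog cd5q1 cd0q2 pd1 0 false false false .dn 1 1 2 (qsf 536870912 536870912 0 536870912 1) ndB5q1 ndB0q2 pcB1 cut_mm_112_s Ext.none)

def k0_mm_112_s : ∃ t, chk3 f_mm_112_s t 1 1 1 = true :=
  ⟨(l 5), by decide +kernel⟩

theorem c_mm_112_s : CertNE 536870912 536870912 0 536870912 1020054732 13421774 3 eng mog cd5q1 cd0q2 pd1 false false false .dn 1 1 2
    ndB5q1 ndB0q2 pcB1 cut_mm_112_s Ext.none :=
  certNE0 (fam := false) (s1 := false) (s2 := false) (a := 1) (b := 1) (c := 2) (cn := .dn) (n1 := ndB5q1) (n2 := ndB0q2) (pc := pcB1) (cut := cut_mm_112_s) (xt := Ext.none) (P1 := 536870912) (W1 := 536870912) (P2 := 0) (W2 := 536870912) (P3 := 1020054732) (W3 := 13421774) (N0 := 3) (En := eng) (mo := mog) (C1 := cd5q1) (C2 := cd0q2) (C3 := pd1)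
    rfl k0_mm_112_s

noncomputable def cut_mm_202_s : Cut := Cut.of [[⟨4, 0, 0, 1449551462⟩]]

noncomputable def f_mm_202_s : ℕ → ℕ → ℕ → ℕ → Bool := onCell 1073741824 536870912 0 536870912 1020054732 13421774
    (rowNE 3 eng mog cd5q2 cd0q2 pd0 0 false false false .pp 2 0 2 (qsf 1073741824 536870912 0 536870912 0) ndB5q2 ndB0q2 pcB0 cut_mm_202_s Ext.none)

def k0_mm_202_s : ∃ t, chk3 f_mm_202_s t 1 1 1 = true :=
  ⟨(l 5), by decide +kernel⟩

theorem c_mm_202_s : CertNE 1073741824 536870912 0 536870912 1020054732 13421774 3 eng mog cd5q2 cd0q2 pd0 false false false .pp 2 0 2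
    ndB5q2 ndB0q2 pcB0 cut_mm_202_s Ext.none :=
  certNE0 (fam := false) (s1 := false) (s2 := false) (a := 2) (b := 0) (c := 2) (cn := .pp) (n1 := ndB5q2) (n2 := ndB0q2) (pc := pcB0) (cut := cut_mm_202_s) (xt := Ext.none) (P1 := 1073741824) (W1 := 536870912) (P2 := 0) (W2 := 536870912) (P3 := 1020054732) (W3 := 13421774) (N0 := 3) (En := eng) (mo := mog) (C1 := cd5q2) (C2 := cd0q2) (C3 := pd0)
    rfl k0_mm_202_s

end Pool.Agent.Strip051.G.I9500_9625.Tab.CS.BB50

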