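import Pool.Agent.Strip051.G.I9500_9625.Tab
import Pool.Agent.Strip051.PB.ExtD3

/-! # Certificates B18 (generated) -/

set_option linter.all false
set_option maxRecDepth 100000

namespace Pool.Agent.Strip051.G.I9500_9625.Tab.C.BB00

open Pool.Agent.Strip051.PB Pool.Agent.Strip051.PB.T
open Pool.Agent.Strip051.G.I9500_9625.Tab

noncomputable def cut_pm_112 : Cut := Cut.of [[⟨3, 0, 0, 1449551462⟩], [⟨4, 0, 0, 2845415833⟩]]

noncomputable def f_pm_112 : ℕ → ℕ → ℕ → ℕ → Bool := onCell 536870912 536870912 0 536870912 1020054732 13421774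
    (rowB 3 eng mog cd0q1 cd0q2 pd1 0 false true false .dn 1 1 2 (qsf 536870912 536870912 0 536870912 1) ndB0q1 ndB0q2 pcB1 cut_pm_112 Ext.none)

def k0_pm_112 : ∃ t, chk3 f_pm_112 t 8 2 1 = true :=
  ⟨(a (a (b (b (l 6) (b (l 6) (b (l 6) (c (c (l 16603384) (l 16623208)) (c (l 16643072) (l 16663128)))))) (b (b (c (b (l 16622248) (l 16630624)) (c (l 16638424) (l 16646792))) (c (b (l 16627936) (l 16577232)) (c (l 16625352) (l 16623720)))) (c (b (c (l 16431880) (l 16522808)) (c (l 16344432) (l 16429216))) (b (l 16554920) (l 16473352))))) (b (l 6) (b (b (c (c (l 16541384) (l 16576856)) (c (l 16633504) (l 16627528))) (c (b (l 16625608) (l 16615280)) (c (l 16627952) (l 16626520)))) (c (b (b (l 16558944) (l 16500680)) (c (l 16330680) (l 16404936))) (b (c (l 16586112) (l 16602944)) (l 16454104)))))) (b (l 6) (a (b (b (b (l 6) (a (c (l 16604776) (l 16636280)) (c (l 16596488) (l 16635160)))) (c (b (l 16569264) (l 16621024)) (b (l 16587424) (l 16622704)))) (c (b (b (l 16597856) (l 16535536)) (c (l 16322760)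 (l 16469304))) (b (c (l 16603696) (l 16605928)) (c (l 16532344) (l 16581784))))) (b (b (l 6) (b (c (c (l 16587624) (l 16603456)) (c (l 16619384) (l 16635536))) (c (l 16543632) (c (l 16617392) (l 16624976))))) (b (c (b (l 16616808) (l 16575176)) (c (l 16613904) (l 16608280))) (c (b (l 16485528) (l 16351408)) (c (l 16546616) (l 16584832)))))))), by decide +kernel⟩

def k1_pm_112 : ∃ t, chk3 f_pm_112 t 9 2 1 = true :=
  ⟨(b (l 6) (b (a (a (b (l 6) (b (l 6) (c (c (l 16584152) (l 16598096)) (c (l 16612200) (l 16626576))))) (l 6)) (l 6)) (a (c (b (c (a (l 16544208) (b (l 16581456) (l 16597112))) (a (l 16566144) (b (l 16593288) (l 16600136)))) (a (b (l 16525752) (c (l 16447920) (l 16473840))) (b (l 16548992) (l 16450352)))) (b (a (c (l 16609136) (l 16610272)) (c (b (l 16605344) (l 16603344)) (b (l 16617712) (l 16606744)))) (a (c (l 16564248) (l 16587304)) (c (l 16563992) (l 16589480))))) (a (b (b (l 6) (c (c (l 16579368) (l 16588912)) (c (l 16598736) (l 16608896)))) (c (b (c (l 16594616) (l 16595504))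 (c (l 16547952) (l 16565424))) (c (b (l 16596488) (l 16583056)) (b (l 16597552) (l 16585832))))) (b (l 6) (c (b (c (l 16577664) (l 16584816)) (c (l 16592104) (l 16590872))) (c (b (l 16592272) (l 16589576)) (b (l 16600072) (l 16588200))))))))), by decide +kernel⟩

def k2_pm_112 : ∃ t, chk3 f_pm_112 t 5 2 1 = true :=
  ⟨(b (l 6) (b (l 6) (b (l 6) (b (l 6) (l 1))))), by decide +kernel⟩

def k3_pm_112 : ∃ t, chk3 f_pm_112 t 8 6 1 = true :=
  ⟨(b (a (c (b (a (c (l 16205648) (l 16327952)) (b (l 16271696) (l 16183584))) (b (a (l 16106832) (l 16092632)) (a (b (l 16035080) (l 15855280)) (a (l 15893456) (l 16062816))))) (b (a (l 16365816) (c (l 16450992) (l 16551600))) (b (c (l 16353424) (l 16528032)) (a (l 16241888) (c (l 16330424) (l 16515840)))))) (c (b (c (a (l 16185248) (l 16152208)) (a (l 16309072) (l 16285688))) (a (b (l 16083720) (l 15942976)) (b (l 16038024) (c (l 16050368) (l 16196496))))) (b (c (a (l 16454568) (l 16440744)) (a (l 16556432) (l 16553472))) (c (a (l 16305872) (l 16305624)) (a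 (l 16514216) (l 16483048)))))) (b (c (a (b (a (l 15991048) (b (a (l 16043952) (l 15981648)) (l 16016152))) (a (l 16108384) (l 15996848))) (b (a (b (b (l 16060408) (l 15814792)) (a (l 16060200) (l 15890472))) (b (l 15975200) (a (l 15813008) (l 15892352)))) (a (c (l 16016064) (l 16169728)) (a (l 15906184) (c (l 15797856) (l 16089784)))))) (a (a (c (l 16361960) (l 16473080)) (b (c (l 16297608) (l 16497408)) (l 16327144))) (a (b (b (l 16209488) (l 16183592)) (l 16233824)) (b (c (l 16189248) (l 16420312)) (b (l 16135680) (l 16247264)))))) (c (a (b (c (l 16127800) (l 16243360)) (l 16037664)) (c (b (a (l 16092000) (l 16037224)) (l 16040856)) (b (l 16073248) (l 16170624)))) (a (b (l 16249104) (l 16303032)) (c (b (l 16228984) (l 16342584)) (c (l 16439360) (l 16412600))))))), by decide +kernel⟩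

def k4_pm_112 : ∃ t, chk3 f_pm_112 t 9 6 1 = true :=
  ⟨(a (a (b (c (b (b (l 16267280) (l 16165280)) (c (b (l 16171944) (l 16073256)) (l 16047656))) (b (c (l 16440840) (l 16551672)) (c (l 16266864) (l 16454224)))) (c (b (c (b (l 15949776) (b (a (l 15864632) (l 15857448)) (l 15834256))) (b (l 16129560) (b (a (l 16080760) (l 16072464)) (l 16085872)))) (b (c (l 15938104) (l 16128480)) (l 98815998055))) (c (b (b (l 16289680) (b (l 16211328) (l 16254928))) (l 16147264)) (b (b (l 16449440) (l 16342720)) (l 16366064))))) (b (c (b (b (b (l 16408440) (l 16366416)) (c (l 16305432) (l 16382520))) (b (c (l 16205288) (l 16305368)) (c (l 16101560) (l 16225152)))) (b (b (l 16497184) (l 16414984)) (c (l 16252400) (l 16427640)))) (b (c (b (a (l 15853056) (l 15821144)) (b (c (l 15910616) (l 16076664)) (a (b (l 15730064) (l 15904744)) (b (l 15875272) (c (l 15859216) (l 16034304)))))) (b (c (l 16290480) (l 16439104)) (b (l 16181224) (c (l 16161024) (l 16355608))))) (a (b (c (c (l 15935592) (l 16091296)) (l 16158776))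 (l 1)) (l 1))))) (a (b (b (c (b (c (l 16408472) (l 16490320)) (a (l 16307936) (l 16327312))) (c (b (l 16530448) (l 16475336)) (l 16533800))) (c (b (c (l 16243872) (l 16330504)) (a (l 16057352) (l 16051136))) (c (b (l 16417736) (l 16357520)) (l 16418936)))) (b (b (c (b (l 15905800) (l 67140531399)) (c (l 16294472) (l 16430896))) (l 1)) (l 1))) (b (b (a (c (b (l 16503752) (l 16347784)) (b (l 16560704) (l 16514832))) (b (c (l 16527176) (l 16568192)) (l 1))) (l 1)) (l 1)))), by decide +kernel⟩

def k5_pm_112 : ∃ t, chk3 f_pm_112 t 5 6 1 = true :=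
  ⟨(l 1), by decide +kernel⟩

def k6_pm_112 : ∃ t, chk3 f_pm_112 t 2 7 1 = true :=
  ⟨(a (b (a (b (c (a (b (l 16206744) (l 16311208)) (c (c (l 16065640) (l 16121320)) (b (l 16290904) (l 16370176)))) (a (a (l 16227064) (l 16191912)) (c (l 16229000) (l 16220832)))) (a (c (b (l 16218840) (l 16072880)) (b (l 16207336) (l 16098960))) (c (b (l 65530553943) (b (l 16229704) (l 16193808))) (c (b (l 16293880) (l 16214424)) (b (l 16268880) (l 16208856)))))) (a (a (b (c (b (c (l 16154312) (l 16249208)) (l 16215048)) (c (l 16340456) (l 16358664))) (l 1)) (l 1)) (l 1))) (a (b (a (b (c (a (l 16077768) (l 16085968)) (c (l 16116592) (l 16141008))) (c (a (l 15758464) (b (l 15988232) (l 15917296))) (c (l 15956704) (l 16026200)))) (a (b (c (l 16096048) (l 16131224)) (l 1)) (l 1))) (a (a (b (c (b (l 15837880) (l 15760952)) (c (l 15910632) (l 15987568))) (b (c (b (l 15701944) (l 15661864)) (l 15726744)) (a (c (l 15580240) (l 15824896)) (l 1)))) (b (b (c (l 15841720) (l 15970104)) (l 1)) (l 1))) (l 1))) (l 1)))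 (l 1)), by decide +kernel⟩

def k7_pm_112 : ∃ t, chk3 f_pm_112 t 3 1 1 = true :=
  ⟨(l 1), by decide +kernel⟩

theorem s8_pm_112 : ∃ t, chk3 f_pm_112 t 4 6 1 = true := ex3_a k3_pm_112 k4_pm_112

theorem s9_pm_112 : ∃ t, chk3 f_pm_112 t 2 6 1 = true := ex3_a s8_pm_112 k5_pm_112

theorem s10_pm_112 : ∃ t, chk3 f_pm_112 t 2 3 1 = true := ex3_b s9_pm_112 k6_pm_112

theorem s11_pm_112 : ∃ t, chk3 f_pm_112 t 4 2 1 = true := ex3_a k0_pm_112 k1_pm_112

theorem s12_pm_112 : ∃ t, chk3 f_pm_112 t 2 2 1 = true := ex3_a s11_pm_112 k2_pm_112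

theorem s13_pm_112 : ∃ t, chk3 f_pm_112 t 2 1 1 = true := ex3_b s12_pm_112 s10_pm_112

theorem s14_pm_112 : ∃ t, chk3 f_pm_112 t 1 1 1 = true := ex3_a s13_pm_112 k7_pm_112

theorem c_pm_112 : CertB 536870912 536870912 0 536870912 1020054732 13421774 3 eng mog cd0q1 cd0q2 pd1 false true false .dn 1 1 2
    ndB0q1 ndB0q2 pcB1 cut_pm_112 Ext.none :=
  certB0 (fam := false) (s1 := true) (s2 := false) (a := 1) (b := 1) (c := 2) (cn := .dn) (n1 := ndB0q1) (n2 := ndB0q2) (pc := pcB1) (cut := cut_pm_112) (xt := Ext.none) (P1 := 536870912) (W1 := 536870912) (P2 := 0) (W2 := 536870912) (P3 := 1020054732) (W3 := 13421774) (N0 := 3) (En := eng) (mo := mog) (C1 := cd0q1) (C2 := cd0q2) (C3 := pd1)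
    rfl s14_pm_112

noncomputable def cut_pm_202 : Cut := Cut.of [[⟨3, 0, 0, 1449551462⟩], [⟨4, 0, 0, 2845415833⟩], [⟨0, 1, 0, 38347922⟩, ⟨1, 0, 0, 38347922⟩, ⟨2, 1, 0, 38347922⟩], [⟨0, 0, 1, 46137344⟩, ⟨1, 1, 2, 46137344⟩, ⟨2, 1, 0, 2097152⟩, ⟨0, 0, 0, 1041207446⟩, ⟨0, 1, 0, 59055800⟩, ⟨1, 0, 0, 59055800⟩, ⟨1, 1, 0, 1041207446⟩]]

noncomputable def f_pm_202 : ℕ → ℕ → ℕ → ℕ → Bool := onCell 0 536870912 0 536870912 1020054732 13421774
    (rowB 3 eng mog cd0q2 cd0q2 pd0 0 false true false .pp 2 0 2 (qsf 0 536870912 0 536870912 0) ndB0q2 ndB0q2 pcB0 cut_pm_202 Ext.none)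

def k0_pm_202 : ∃ t, chk3 f_pm_202 t 1 1 1 = true :=
  ⟨(l 6), by decide +kernel⟩

theorem c_pm_202 : CertB 0 536870912 0 536870912 1020054732 13421774 3 eng mog cd0q2 cd0q2 pd0 false true false .pp 2 0 2
    ndB0q2 ndB0q2 pcB0 cut_pm_202 Ext.none :=
  certB0 (fam := false) (s1 := true) (s2 := false) (a := 2) (b := 0) (c := 2) (cn := .pp) (n1 := ndB0q2) (n2 := ndB0q2) (pc := pcB0) (cut := cut_pm_202) (xt := Ext.none) (P1 := 0) (W1 := 536870912) (P2 := 0) (W2 := 536870912) (P3 := 1020054732) (W3 := 13421774) (N0 := 3) (En := eng) (mo := mog) (C1 := cd0q2) (C2 := cd0q2) (C3 := pd0)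
    rfl k0_pm_202

noncomputable def cut_mm_001 : Cut := Cut.of [[⟨3, 0, 0, 1449551462⟩], [⟨4, 0, 0, 2845415833⟩]]

noncomputable def f_mm_001 : ℕ → ℕ → ℕ → ℕ → Bool := onCell 0 536870912 536870912 536870912 1020054732 13421774
    (rowB 3 eng mog cd0q0 cd0q1 pd0 0 false false false .up 0 0 1 (qsf 0 536870912 536870912 536870912 0) ndB0q0 ndB0q1 pcB0 cut_mm_001 Ext.none)

def k0_mm_001 : ∃ t, chk3 f_mm_001 t 1 1 1 = true :=
  ⟨(l 6), by decide +kernel⟩

theorem c_mm_001 : CertB 0 536870912 536870912 536870912 1020054732 13421774 3 eng mog cd0q0 cd0q1 pd0 false false false .up 0 0 1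
    ndB0q0 ndB0q1 pcB0 cut_mm_001 Ext.none :=
  certB0 (fam := false) (s1 := false) (s2 := false) (a := 0) (b := 0) (c := 1) (cn := .up) (n1 := ndB0q0) (n2 := ndB0q1) (pc := pcB0) (cut := cut_mm_001) (xt := Ext.none) (P1 := 0) (W1 := 536870912) (P2 := 536870912) (W2 := 536870912) (P3 := 1020054732) (W3 := 13421774) (N0 := 3) (En := eng) (mo := mog) (C1 := cd0q0) (C2 := cd0q1) (C3 := pd0)
    rfl k0_mm_001

noncomputable def cut_mm_011 : Cut := Cut.of [[⟨3, 0, 0, 1449551462⟩], [⟨4, 0, 0, 2845415833⟩]]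

noncomputable def f_mm_011 : ℕ → ℕ → ℕ → ℕ → Bool := onCell 0 536870912 536870912 536870912 1020054732 13421774
    (rowB 3 eng mog cd0q0 cd0q1 pd1 0 false false false .pnn 0 1 1 (qsf 0 536870912 536870912 536870912 1) ndB0q0 ndB0q1 pcB1 cut_mm_011 Ext.none)

def k0_mm_011 : ∃ t, chk3 f_mm_011 t 1 1 1 = true :=
  ⟨(l 6), by decide +kernel⟩

theorem c_mm_011 : CertB 0 536870912 536870912 536870912 1020054732 13421774 3 eng mog cd0q0 cd0q1 pd1 false false false .pnn 0 1 1
    ndB0q0 ndB0q1 pcB1 cut_mm_011 Ext.none :=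
  certB0 (fam := false) (s1 := false) (s2 := false) (a := 0) (b := 1) (c := 1) (cn := .pnn) (n1 := ndB0q0) (n2 := ndB0q1) (pc := pcB1) (cut := cut_mm_011) (xt := Ext.none) (P1 := 0) (W1 := 536870912) (P2 := 536870912) (W2 := 536870912) (P3 := 1020054732) (W3 := 13421774) (N0 := 3) (En := eng) (mo := mog) (C1 := cd0q0) (C2 := cd0q1) (C3 := pd1)
    rfl k0_mm_011

noncomputable def cut_mm_012 : Cut := Cut.of [[⟨3, 0, 0, 1449551462⟩], [⟨4, 0, 0, 2845415833⟩]]

noncomputable def f_mm_012 : ℕ → ℕ → ℕ → ℕ → Bool := onCell 0 536870912 0 536870912 1020054732 13421774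
    (rowB 3 eng mog cd0q0 cd0q2 pd1 0 false false false .pnp 0 1 2 (qsf 0 536870912 0 536870912 1) ndB0q0 ndB0q2 pcB1 cut_mm_012 Ext.none)

def k0_mm_012 : ∃ t, chk3 f_mm_012 t 1 1 1 = true :=
  ⟨(l 5), by decide +kernel⟩

theorem c_mm_012 : CertB 0 536870912 0 536870912 1020054732 13421774 3 eng mog cd0q0 cd0q2 pd1 false false false .pnp 0 1 2
    ndB0q0 ndB0q2 pcB1 cut_mm_012 Ext.none :=
  certB0 (fam := false) (s1 := false) (s2 := false) (a := 0) (b := 1) (c := 2) (cn := .pnp) (n1 := ndB0q0) (n2 := ndB0q2) (pc := pcB1) (cut := cut_mm_012) (xt := Ext.none) (P1 := 0) (W1 := 536870912) (P2 := 0) (W2 := 536870912) (P3 := 1020054732) (W3 := 13421774) (N0 := 3) (En := eng) (mo := mog) (C1 := cd0q0) (C2 := cd0q2) (C3 := pd1)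
    rfl k0_mm_012

noncomputable def cut_mm_022 : Cut := Cut.of [[⟨3, 0, 0, 1449551462⟩], [⟨4, 0, 0, 2845415833⟩]]

noncomputable def f_mm_022 : ℕ → ℕ → ℕ → ℕ → Bool := onCell 0 536870912 0 536870912 1020054732 13421774
    (rowB 3 eng mog cd0q0 cd0q2 pd2 0 false false false .pp 0 2 2 (qsf 0 536870912 0 536870912 2) ndB0q0 ndB0q2 pcB2 cut_mm_022 Ext.none)

def k0_mm_022 : ∃ t, chk3 f_mm_022 t 1 1 1 = true :=
  ⟨(l 5), by decide +kernel⟩

theorem c_mm_022 : CertB 0 536870912 0 536870912 1020054732 13421774 3 eng mog cd0q0 cd0q2 pd2 false false false .pp 0 2 2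
    ndB0q0 ndB0q2 pcB2 cut_mm_022 Ext.none :=
  certB0 (fam := false) (s1 := false) (s2 := false) (a := 0) (b := 2) (c := 2) (cn := .pp) (n1 := ndB0q0) (n2 := ndB0q2) (pc := pcB2) (cut := cut_mm_022) (xt := Ext.none) (P1 := 0) (W1 := 536870912) (P2 := 0) (W2 := 536870912) (P3 := 1020054732) (W3 := 13421774) (N0 := 3) (En := eng) (mo := mog) (C1 := cd0q0) (C2 := cd0q2) (C3 := pd2)
    rfl k0_mm_022

noncomputable def cut_mm_101 : Cut := Cut.of [[⟨3, 0, 0, 1449551462⟩], [⟨4, 0, 0, 2845415833⟩]]

noncomputable def f_mm_101 : ℕ → ℕ → ℕ → ℕ → Bool := onCell 536870912 536870912 536870912 536870912 1020054732 13421774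
    (rowB 3 eng mog cd0q1 cd0q1 pd0 0 false false false .npn 1 0 1 (qsf 536870912 536870912 536870912 536870912 0) ndB0q1 ndB0q1 pcB0 cut_mm_101 Ext.none)

def k0_mm_101 : ∃ t, chk3 f_mm_101 t 1 1 1 = true :=
  ⟨(l 3), by decide +kernel⟩

theorem c_mm_101 : CertB 536870912 536870912 536870912 536870912 1020054732 13421774 3 eng mog cd0q1 cd0q1 pd0 false false false .npn 1 0 1
    ndB0q1 ndB0q1 pcB0 cut_mm_101 Ext.none :=
  certB0 (fam := false) (s1 := false) (s2 := false) (a := 1) (b := 0) (c := 1) (cn := .npn) (n1 := ndB0q1) (n2 := ndB0q1) (pc := pcB0) (cut := cut_mm_101) (xt := Ext.none) (P1 := 536870912) (W1 := 536870912) (P2 := 536870912) (W2 := 536870912) (P3 := 1020054732) (W3 := 13421774) (N0 := 3) (En := eng) (mo := mog) (C1 := cd0q1) (C2 := cd0q1) (C3 := pd0)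
    rfl k0_mm_101

noncomputable def cut_mm_102 : Cut := Cut.of [[⟨3, 0, 0, 1449551462⟩], [⟨4, 0, 0, 2845415833⟩]]

noncomputable def f_mm_102 : ℕ → ℕ → ℕ → ℕ → Bool := onCell 536870912 536870912 0 536870912 1020054732 13421774
    (rowB 3 eng mog cd0q1 cd0q2 pd0 0 false false false .npp 1 0 2 (qsf 536870912 536870912 0 536870912 0) ndB0q1 ndB0q2 pcB0 cut_mm_102 Ext.none)

def k0_mm_102 : ∃ t, chk3 f_mm_102 t 1 1 1 = true :=
  ⟨(a (l 5) (l 3)), by decide +kernel⟩

theorem c_mm_102 : CertB 536870912 536870912 0 536870912 1020054732 13421774 3 eng mog cd0q1 cd0q2 pd0 false false false .npp 1 0 2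
    ndB0q1 ndB0q2 pcB0 cut_mm_102 Ext.none :=
  certB0 (fam := false) (s1 := false) (s2 := false) (a := 1) (b := 0) (c := 2) (cn := .npp) (n1 := ndB0q1) (n2 := ndB0q2) (pc := pcB0) (cut := cut_mm_102) (xt := Ext.none) (P1 := 536870912) (W1 := 536870912) (P2 := 0) (W2 := 536870912) (P3 := 1020054732) (W3 := 13421774) (N0 := 3) (En := eng) (mo := mog) (C1 := cd0q1) (C2 := cd0q2) (C3 := pd0)
    rfl k0_mm_102

noncomputable def cut_mm_112 : Cut := Cut.of [[⟨3, 0, 0, 1449551462⟩], [⟨4, 0, 0, 2845415833⟩]]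

noncomputable def f_mm_112 : ℕ → ℕ → ℕ → ℕ → Bool := onCell 536870912 536870912 0 536870912 1020054732 13421774
    (rowB 3 eng mog cd0q1 cd0q2 pd1 2 false false false .dn 1 1 2 (qsf 536870912 536870912 0 536870912 1) ndB0q1 ndB0q2 pcB1 cut_mm_112 Ext.none)

def k0_mm_112 : ∃ t, chk3 f_mm_112 t 1 1 1 = true :=
  ⟨(l 5), by decide +kernel⟩

theorem c_mm_112 : CertB 536870912 536870912 0 536870912 1020054732 13421774 3 eng mog cd0q1 cd0q2 pd1 false false false .dn 1 1 2
    ndB0q1 ndB0q2 pcB1 cut_mm_112 Ext.none :=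
  certB2 (fam := false) (s1 := false) (s2 := false) (a := 1) (b := 1) (c := 2) (cn := .dn) (n1 := ndB0q1) (n2 := ndB0q2) (pc := pcB1) (cut := cut_mm_112) (xt := Ext.none) (P1 := 536870912) (W1 := 536870912) (P2 := 0) (W2 := 536870912) (P3 := 1020054732) (W3 := 13421774) (N0 := 3) (En := eng) (mo := mog) (C1 := cd0q1) (C2 := cd0q2) (C3 := pd1)
    rfl (fun _ => rfl) k0_mm_112

noncomputable def cut_mm_202 : Cut := Cut.of [[⟨3, 0, 0, 1449551462⟩], [⟨4, 0, 0, 2845415833⟩]]

noncomputable def f_mm_202 : ℕ → ℕ → ℕ → ℕ → Bool := onCell 0 536870912 0 536870912 1020054732 13421774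
    (rowB 3 eng mog cd0q2 cd0q2 pd0 0 false false false .pp 2 0 2 (qsf 0 536870912 0 536870912 0) ndB0q2 ndB0q2 pcB0 cut_mm_202 Ext.none)

def k0_mm_202 : ∃ t, chk3 f_mm_202 t 1 1 1 = true :=
  ⟨(l 3), by decide +kernel⟩

theorem c_mm_202 : CertB 0 536870912 0 536870912 1020054732 13421774 3 eng mog cd0q2 cd0q2 pd0 false false false .pp 2 0 2
    ndB0q2 ndB0q2 pcB0 cut_mm_202 Ext.none :=
  certB0 (fam := false) (s1 := false) (s2 := false) (a := 2) (b := 0) (c := 2) (cn := .pp) (n1 := ndB0q2) (n2 := ndB0q2) (pc := pcB0) (cut := cut_mm_202) (xt := Ext.none) (P1 := 0) (W1 := 536870912) (P2 := 0) (W2 := 536870912) (P3 := 1020054732) (W3 := 13421774) (N0 := 3) (En := eng) (mo := mog) (C1 := cd0q2) (C2 := cd0q2) (C3 := pd0)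
    rfl k0_mm_202

end Pool.Agent.Strip051.G.I9500_9625.Tab.C.BB00

namespace Pool.Agent.Strip051.G.I9500_9625.Tab.C.BB01

open Pool.Agent.Strip051.PB Pool.Agent.Strip051.PB.T
open Pool.Agent.Strip051.G.I9500_9625.Tab

noncomputable def f_pp_001 : ℕ → ℕ → ℕ → ℕ → Bool := onCell 0 536870912 536870912 536870912 1020054732 13421774
    (rowB 3 eng mog cd0q0 cd1q1 pd0 0 false true true .up 0 0 1 (qsf 0 536870912 536870912 536870912 0) ndB0q0 ndB1q1 pcB0 Cut.none Ext.none)

def k0_pp_001 : ∃ t, chk3 f_pp_001 t 1 1 1 = true :=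
  ⟨(l 3), by decide +kernel⟩

theorem c_pp_001 : CertB 0 536870912 536870912 536870912 1020054732 13421774 3 eng mog cd0q0 cd1q1 pd0 false true true .up 0 0 1
    ndB0q0 ndB1q1 pcB0 Cut.none Ext.none :=
  certB0 (fam := false) (s1 := true) (s2 := true) (a := 0) (b := 0) (c := 1) (cn := .up) (n1 := ndB0q0) (n2 := ndB1q1) (pc := pcB0) (cut := Cut.none) (xt := Ext.none) (P1 := 0) (W1 := 536870912) (P2 := 536870912) (W2 := 536870912) (P3 := 1020054732) (W3 := 13421774) (N0 := 3) (En := eng) (mo := mog) (C1 := cd0q0) (C2 := cd1q1) (C3 := pd0)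
    rfl k0_pp_001

noncomputable def f_pp_011 : ℕ → ℕ → ℕ → ℕ → Bool := onCell 0 536870912 536870912 536870912 1020054732 13421774
    (rowB 3 eng mog cd0q0 cd1q1 pd1 0 false true true .pnn 0 1 1 (qsf 0 536870912 536870912 536870912 1) ndB0q0 ndB1q1 pcB1 Cut.none Ext.none)

def k0_pp_011 : ∃ t, chk3 f_pp_011 t 1 1 1 = true :=
  ⟨(l 3), by decide +kernel⟩

theorem c_pp_011 : CertB 0 536870912 536870912 536870912 1020054732 13421774 3 eng mog cd0q0 cd1q1 pd1 false true true .pnn 0 1 1
    ndB0q0 ndB1q1 pcB1 Cut.none Ext.none :=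
  certB0 (fam := false) (s1 := true) (s2 := true) (a := 0) (b := 1) (c := 1) (cn := .pnn) (n1 := ndB0q0) (n2 := ndB1q1) (pc := pcB1) (cut := Cut.none) (xt := Ext.none) (P1 := 0) (W1 := 536870912) (P2 := 536870912) (W2 := 536870912) (P3 := 1020054732) (W3 := 13421774) (N0 := 3) (En := eng) (mo := mog) (C1 := cd0q0) (C2 := cd1q1) (C3 := pd1)
    rfl k0_pp_011

noncomputable def cut_pp_012_a : Cut := Cut.of [[⟨0, 0, 0, 38347922⟩, ⟨1, 1, 0, 38347922⟩, ⟨2, 1, 0, 38347922⟩]]

noncomputable def xt_pp_012_a : Ext := extD3 3 ⟨4, 1, 1, 5, 99, 20, 33, 40, 51, 125, 1, 32⟩ eng cd0q0 cd1q2a pd1 false true true .pnp 0 1 2 rfl ndB0q0 ndB1q2a pcB1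

noncomputable def f_pp_012_a : ℕ → ℕ → ℕ → ℕ → Bool := onCell 536870912 536870912 0 536870912 1020054732 13421774
    (rowB 3 eng mog cd0q0 cd1q2a pd1 2 false true true .pnp 0 1 2 (qsf 0 536870912 0 536870912 1) ndB0q0 ndB1q2a pcB1 cut_pp_012_a xt_pp_012_a)

def k0_pp_012_a : ∃ t, chk3 f_pp_012_a t 4 1 1 = true :=
  ⟨(l 3), by decide +kernel⟩

def k1_pp_012_a : ∃ t, chk3 f_pp_012_a t 20 8 1 = true :=
  ⟨(l 3), by decide +kernel⟩

def k2_pp_012_a : ∃ t, chk3 f_pp_012_a t 42 8 1 = true :=
  ⟨(l 3), by decide +kernel⟩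

def k3_pp_012_a : ∃ t, chk3 f_pp_012_a t 86 32 1 = true :=
  ⟨(b (a (b (a (l 3) (b (a (l 3) (b (c (a (l 122574318887) (l 16767984)) (l 95193900823)) (l 151565347111))) (l 3))) (l 3)) (b (c (a (b (a (c (l 67813483271) (l 65129129495)) (l 16763912)) (a (l 144049156887) (b (a (l 16767632) (l 16768024)) (l 122574317031)))) (c (b (l 16750736) (l 16764136)) (a (l 16763216) (l 16748008)))) (a (b (a (c (l 16767392) (l 59760418279)) (l 16761296)) (a (l 141364802375) (b (l 60834160615) (l 120426833751)))) (c (c (l 16767336) (l 16766400)) (a (l 16760240) (l 16764488))))) (a (l 3) (b (a (b (c (l 108078801591) (l 104857576423)) (l 3)) (c (c (l 74792804247) (l 72108450455)) (c (l 16766776) (l 66739739223)))) (c (l 151565348503) (l 149954736119)))))) (l 3)), by decide +kernel⟩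

def k4_pp_012_a : ∃ t, chk3 f_pp_012_a t 87 32 1 = true :=
  ⟨(b (a (a (c (b (c (l 16751960) (l 16759216)) (a (b (l 16757864) (b (l 75866545527) (l 130627379959))) (c (l 48486127447) (l 16762464)))) (b (c (l 16755880) (l 16752472)) (a (b (l 16760704) (b (l 70497836055) (l 129016767463))) (c (l 16766336) (l 16761008))))) (c (c (c (l 16751024) (l 16751160)) (b (l 16749552) (l 16757920))) (c (b (l 16744784) (l 16755440)) (b (l 16750368) (l 16758160))))) (c (c (c (l 16767464) (l 16758352)) (c (l 16759704) (l 16758656))) (c (c (l 16755784) (l 16752856)) (c (l 16755136) (b (l 16755792) (l 16748504)))))) (a (b (a (a (l 3) (a (l 152639089655) (c (l 138143569639) (l 134385478519)))) (b (c (a (c (l 80698383143) (l 78014029319)) (l 16757080)) (a (c (l 16766176) (l 73719060183)) (l 16760120))) (a (l 153712831031) (c (b (l 83919608343) (l 138680442839)) (b (l 82308995335) (l 137069830279)))))) (l 3)) (b (c (a (a (c (l 52244222519) (l 16763704)) (a (l 16762952) (l 16758096))) (c (l 16750048) (l 16757512)))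 (c (a (b (l 16765488) (l 16762992)) (l 16764896)) (a (a (l 42580541031) (l 16763360)) (l 16751264)))) (b (c (a (a (l 133848603367) (b (l 16761168) (l 109152541031))) (c (l 16757400) (l 16766528))) (a (a (l 132237990967) (c (l 81772125079) (l 79624639319))) (c (l 16765144) (l 16763744)))) (a (l 3) (b (a (c (l 94120154695) (l 89825186999)) (c (l 16766440) (l 16764664))) (a (l 144586020759) (c (l 76940284583) (l 71571574791))))))))), by decide +kernel⟩

def k5_pp_012_a : ∃ t, chk3 f_pp_012_a t 43 33 1 = true :=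
  ⟨(a (l 3) (b (a (l 3) (a (l 3) (a (l 3) (c (l 151028468983) (l 148880991511))))) (l 3))), by decide +kernel⟩

def k6_pp_012_a : ∃ t, chk3 f_pp_012_a t 43 17 1 = true :=
  ⟨(l 3), by decide +kernel⟩

def k7_pp_012_a : ∃ t, chk3 f_pp_012_a t 10 9 1 = true :=
  ⟨(l 3), by decide +kernel⟩

def k8_pp_012_a : ∃ t, chk3 f_pp_012_a t 10 5 1 = true :=
  ⟨(l 3), by decide +kernel⟩

def k9_pp_012_a : ∃ t, chk3 f_pp_012_a t 88 16 1 = true :=
  ⟨(b (c (c (a (b (b (l 16760304) (l 16764880)) (c (l 16761920) (l 16760584))) (b (l 16736280) (a (l 16746512) (l 16764808)))) (a (b (l 16758888) (c (l 16761224) (l 16761816))) (b (l 16762832) (a (l 16747848) (l 16747448))))) (c (a (b (a (l 16742600) (l 16741664)) (c (l 16759760) (a (l 16763504) (l 16762336)))) (b (l 16740088) (a (l 16752176) (l 16740704)))) (a (b (c (l 16735584) (l 16731152)) (c (b (l 16759752) (l 16751424)) (c (l 16748768) (l 16747704)))) (b (a (l 16729800) (l 16727344)) (c (l 16746432) (l 16742888)))))) (b (a (b (a (b (c (a (b (l 16760488) (l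 115594991079)) (l 16760848)) (a (c (l 87140833143) (l 84993347223)) (l 16758984))) (a (l 3) (c (b (l 100562604375) (l 151565343159)) (l 115058118919)))) (c (c (c (l 56002316951) (l 54928575975)) (b (l 16766176) (l 59223543143))) (c (a (l 53317962359) (l 16764096)) (c (l 16760528) (l 45264890759))))) (a (l 3) (b (c (a (l 142975407063) (b (l 16762456) (l 121500569927))) (a (l 141364794375) (b (l 16761560) (l 118816215239)))) (l 3)))) (c (a (b (c (l 16748240) (l 16755896)) (b (a (l 16761464) (l 16755592)) (a (l 122037439527) (b (l 16765048) (l 91435797191))))) (c (b (l 16750064) (l 16756912)) (c (l 16745936) (l 16765328)))) (b (c (a (l 16763488) (l 16762608)) (a (l 16750064) (l 16758240))) (a (b (c (l 16763912) (l 16762672)) (a (l 118816214055) (c (l 16764000) (l 16760840)))) (c (l 16763248) (l 16750632)))))) (b (a (l 3) (a (c (l 151565343351) (l 149417860247)) (b (c (a (b (l 74255927559) (l 126869278215)) (l 53317960279)) (a (b (l 16761016) (l 124184923527)) (l 46875506759))) (a (l 3) (c (l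 125258664343) (l 122574309543)))))) (l 3)))), by decide +kernel⟩

def k10_pp_012_a : ∃ t, chk3 f_pp_012_a t 89 16 1 = true :=
  ⟨(a (b (c (b (a (l 16735776) (l 16733640)) (c (l 16739912) (l 16744560))) (c (b (l 16737680) (l 16749536)) (b (l 16723528) (a (l 16730536) (l 16728032))))) (b (c (c (c (l 16747808) (l 16749024)) (c (l 16747032) (l 16754936))) (c (c (l 16752312) (l 16749664)) (c (l 16746984) (b (l 16753008) (l 16746024))))) (b (c (a (c (c (l 60834153111) (l 59760411767)) (b (l 16764736) (l 65665992023))) (c (l 16746528) (l 16764840))) (a (c (b (l 16762880) (l 62981636231)) (b (l 16760984) (a (l 72108441559) (l 16761880)))) (c (l 16762128) (l 16748880)))) (a (b (a (l 149417854679) (c (b (l 80161506695) (l 131164244727)) (b (l 75866538279) (l 128479889927)))) (l 3)) (c (b (c (l 16759672) (l 16763832)) (a (l 128479888871) (c (l 82845860855) (l 16763344)))) (b (c (l 16762728) (l 16757672)) (a (l 125795533959) (c (l 16762880) (l 75866536903))))))))) (b (c (c (b (l 16747336) (l 16755864))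 (b (l 16755608) (l 16761864))) (c (b (l 16734928) (l 16736544)) (b (l 16718232) (l 16729400)))) (c (c (b (l 16758992) (c (l 16758720) (l 16759560))) (b (l 16756592) (c (l 16760368) (l 16758544)))) (c (b (a (l 16738848) (l 16737632)) (c (l 16756696) (a (l 16760776) (l 16759344)))) (b (c (l 16732208) (l 16728128)) (c (b (l 16756920) (l 16748960)) (c (l 16746280) (l 16745328)))))))), by decide +kernel⟩

def k11_pp_012_a : ∃ t, chk3 f_pp_012_a t 44 17 1 = true :=
  ⟨(b (b (a (l 3) (a (a (l 3) (c (l 155323437607) (l 153712826055))) (a (b (a (c (c (l 127943021047) (l 124721784887)) (c (l 122037440599) (l 119889951495))) (c (b (c (l 16763808) (l 16763104)) (l 131164242663)) (b (c (l 16762392) (l 16761664)) (l 128479887799)))) (l 3)) (b (c (c (c (l 65129118247) (l 63518506247)) (a (l 66739731815) (l 16763168))) (a (b (l 16761192) (c (l 16762336) (l 78550890423))) (c (l 16761616) (l 16760048)))) (a (l 153712823959) (b (b (a (l 105394437687) (l 56539183015)) (l 137069821159)) (l 3))))))) (l 3)) (l 3)),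 by decide +kernel⟩

def k12_pp_012_a : ∃ t, chk3 f_pp_012_a t 90 16 1 = true :=
  ⟨(a (b (c (c (l 16725968) (l 16734392)) (c (l 16732776) (b (l 16712680) (l 16718768)))) (c (c (c (l 16751808) (l 16753848)) (c (l 16755872) (l 16753456))) (c (b (l 16735640) (a (l 16748792) (l 16737032))) (b (a (l 16726272) (l 16723600)) (c (l 16743320) (l 16740056)))))) (b (c (b (l 16722960) (l 16729936)) (c (l 16729456) (b (l 16706880) (l 16713128)))) (c (c (b (l 16754576) (l 16762456)) (b (l 16760992) (l 16743800))) (c (b (l 16732680) (l 16745448)) (b (l 16719464) (a (l 16727240) (l 16724520))))))), by decide +kernel⟩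

def k13_pp_012_a : ∃ t, chk3 f_pp_012_a t 90 17 1 = true :=
  ⟨(b (b (a (c (b (c (c (l 16746456) (l 16744880)) (a (l 16763368) (l 16763528))) (a (b (c (l 16760968) (l 16762584)) (a (l 133311725255) (c (l 86603955367) (l 16759584)))) (c (l 16753896) (l 16762568)))) (b (c (a (l 16760800) (l 16759624)) (a (l 16747704) (l 16755656))) (a (b (c (l 16758944) (a (l 16761144) (l 16759944))) (a (l 130627370407) (c (l 16761792) (l 80161502119)))) (c (l 16760736) (l 16753624))))) (c (c (c (l 16748032) (l 16745720)) (c (l 16743360) (l 16751456))) (c (c (l 16749032) (l 16746592)) (c (l 16746744) (b (l 16750224) (l 16743536)))))) (b (c (a (a (l 155860306599) (b (a (b (l 91972663815) (l 140827918583)) (c (l 16762576) (l 16761936))) (l 140291044263))) (a (c (c (l 66202858071) (l 65129117063)) (b (l 16762064) (l 73182181031))) (c (l 16743400) (l 16761952)))) (a (a (l 153712823511) (a (c (l 124184922183) (l 121500567447)) (b (c (l 16761280) (l 16760616)) (l 131701111383)))) (a (a (b (l 16760064) (a (l 95193888087)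 (l 16758288))) (a (l 16754680) (l 16754208))) (c (l 16759496) (l 16746520))))) (a (l 3) (a (b (a (l 3) (c (l 112910628199) (b (l 88751436119) (l 139217305239)))) (l 3)) (c (a (b (l 65665986471) (l 135996078071)) (c (l 72108436935) (l 69424083671))) (b (c (l 16757816) (a (l 16760096) (l 16758856))) (a (l 132774852343) (c (l 85530211751) (l 83919596599))))))))) (l 3)), by decide +kernel⟩

def k14_pp_012_a : ∃ t, chk3 f_pp_012_a t 91 16 1 = true :=
  ⟨(c (b (c (b (l 16732616) (l 16719376)) (l 16726936)) (c (b (l 16727032) (a (l 16757808) (l 16753424))) (a (l 16750104) (l 16736552)))) (c (b (a (l 16725800) (l 16721800)) (a (b (l 16729376) (l 16731896)) (l 16727112))) (b (a (l 16704040) (l 16697832)) (a (b (l 16713728) (l 16725560)) (b (l 16707752) (l 16714496)))))), by decide +kernel⟩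

def k15_pp_012_a : ∃ t, chk3 f_pp_012_a t 91 17 1 = true :=
  ⟨(b (c (c (a (b (l 16744400) (c (l 16755264) (l 16758856))) (b (l 16760808) (l 16756432))) (a (b (l 16752352) (c (l 16757184) (l 16755496))) (c (l 16753072) (l 16749208)))) (a (a (b (c (l 16735248) (l 16738848)) (c (b (l 16758184) (l 16759520)) (b (l 16754360) (l 16752488)))) (b (c (l 16733752) (l 16725592)) (c (l 16750928) (b (l 16751648) (l 16755064))))) (c (b (l 16731336) (a (l 16745528) (l 16733488))) (b (a (l 16722768) (l 16719872)) (c (l 16740240) (l 16737200)))))) (b (a (a (b (c (b (a (l 113984369143) (l 66739727319)) (l 141364789335)) (a (c (l 125258661975) (l 122574307271)) (b (c (l 16760192) (l 16759568)) (l 133848593159)))) (l 3)) (b (c (c (b (l 16762352) (l 76940274375)) (b (l 16760800) (l 74792791703))) (a (b (l 16758936) (c (l 86603952599) (l 84993337399))) (c (l 16759256) (l 16757832)))) (b (a (l 3) (c (l 114521239191) (b (l 91435788695) (l 140291045703)))) (l 3)))) (c (c (a (b (l 16762920) (b (l 16755920) (l 111836883847)))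 (c (l 16742520) (l 16762192))) (a (b (l 16760592) (b (l 16760248) (l 109689400839))) (b (l 16760400) (l 16760016)))) (a (b (c (l 16758216) (l 16745328)) (b (c (l 56539176823) (a (l 16759048) (l 16757752))) (a (l 133848592167) (c (l 87140822567) (l 84993336359))))) (c (b (l 16756760) (l 16758320)) (c (l 16745024) (l 16743656)))))) (a (l 3) (a (l 3) (b (c (b (a (l 115058109255) (l 68350338199)) (l 140827916487)) (a (c (l 124721789079) (l 123111176183)) (b (c (l 16759128) (l 16758520)) (l 133311720263)))) (l 3)))))), by decide +kernel⟩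

def k16_pp_012_a : ∃ t, chk3 f_pp_012_a t 22 9 1 = true :=
  ⟨(l 3), by decide +kernel⟩

def k17_pp_012_a : ∃ t, chk3 f_pp_012_a t 23 8 2 = true :=
  ⟨(c (a (b (b (a (l 16708384) (l 16723336)) (a (c (l 16720360) (l 16725200)) (l 16736816))) (a (b (b (l 16738680) (a (l 16763576) (l 16759312))) (b (a (a (l 16742824) (l 16743616)) (l 16744536)) (a (b (a (b (l 16761088) (l 78014014663)) (l 16761536)) (a (l 135459196391) (b (l 16760032) (l 111836882183)))) (a (l 16753552) (l 16741184))))) (b (a (l 16751944) (l 16748304)) (a (c (l 16743352) (l 16741888)) (l 16750696))))) (b (a (l 16682736) (l 16720392)) (a (b (l 16743336) (a (l 16757384) (l 16753848))) (b (l 16737680) (l 16749040))))) (a (b (a (b (l 16742960) (l 16740232)) (b (l 16738928) (l 16748544))) (a (b (a (b (l 16760848) (l 16739312)) (l 16738112)) (b (a (a (l 16749456) (l 16738592)) (l 16748280)) (a (b (a (b (l 16759584) (l 75329660615)) (l 16759264)) (a (l 132774831271) (b (l 16759136) (l 109152527927)))) (c (l 16754192) (l 16752600)))))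 (b (b (l 16734704) (l 16735152)) (a (c (l 16748760) (l 16745096)) (b (l 16755408) (l 16734960)))))) (b (a (l 16719248) (l 16716656)) (a (b (l 16729496) (a (l 16732528) (l 16729912))) (b (l 16743224) (l 16725192)))))), by decide +kernel⟩

def k18_pp_012_a : ∃ t, chk3 f_pp_012_a t 23 8 3 = true :=
  ⟨(a (b (a (c (b (l 16715160) (a (l 16723240) (l 16719016))) (b (a (l 16691376) (l 16684680)) (a (b (l 16722504) (l 16708424)) (l 16698592)))) (c (b (l 16705144) (l 16712056)) (b (l 16674184) (a (l 16691960) (l 16685088))))) (a (b (c (a (b (l 16727808) (l 16741472)) (b (l 16723944) (l 16727352))) (a (b (l 16715408) (a (l 16723944) (l 16721008))) (b (l 16709248) (l 16716480)))) (c (b (a (a (l 16748160) (l 16743928)) (b (l 16729968) (l 16731744))) (a (b (a (a (l 68887206967) (l 16758096)) (l 16756952)) (a (l 130090497639) (b (l 56539174535) (l 107005043095)))) (a (a (l 16751400) (l 16745344)) (l 16749328)))) (b (a (c (a (l 16753032) (l 16750488)) (b (l 16747392) (l 16740992))) (a (l 16735760) (l 16722288)))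 (a (b (a (b (l 16756504) (a (l 85530206247) (l 16757616))) (l 16744120)) (c (a (l 128479884855) (b (l 16757536) (l 104857559543))) (a (l 127943013927) (b (l 16757072) (l 103783816231))))) (a (c (l 16743768) (l 16747680)) (a (l 16740928) (l 16739456))))))) (c (b (a (l 16721560) (l 16717128)) (a (b (l 16727112) (b (l 16729968) (l 16742384))) (b (l 16723016) (l 16737560)))) (b (a (b (l 16702848) (l 16710224)) (l 16697352)) (a (b (a (l 16719232) (l 16737096)) (c (l 16737152) (l 16734272))) (b (l 16711344) (b (l 16717104) (l 16720968)))))))) (b (c (a (a (l 16700592) (l 16694816)) (l 16664576)) (a (b (l 16659384) (l 16653368)) (b (l 16664648) (l 16659200)))) (c (a (b (a (l 16712352) (l 16707248)) (a (b (l 16739560) (l 16722872)) (l 16716080))) (b (l 16698968) (a (l 16711088) (l 16705768)))) (a (b (a (l 16693160) (l 16686112)) (a (b (l 16704760) (l 16712600)) (b (l 16718904) (l 16705920)))) (b (l 16664616) (a (l 16694944) (l 16687720))))))), by decide +kernel⟩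

def k19_pp_012_a : ∃ t, chk3 f_pp_012_a t 46 9 1 = true :=
  ⟨(b (b (a (a (l 3) (b (a (b (c (b (a (l 113984365783) (l 67276594599)) (l 139754172759)) (a (c (l 123648045303) (l 121500561479)) (b (c (l 16758064) (l 16757456)) (l 131701105559)))) (l 3)) (a (b (c (b (l 16759088) (l 88751431383)) (b (l 16756688) (c (l 16758144) (l 83919591431)))) (l 3)) (b (c (l 16753728) (c (l 16756944) (l 16755576))) (b (c (l 112910622999) (b (l 88751429959) (l 134922332631))) (l 3))))) (l 3))) (b (a (c (a (b (c (l 16760200) (l 16757968)) (c (b (l 16758952) (l 110763138743)) (b (l 16758048) (l 107541913207)))) (c (l 16749552) (l 16752264))) (b (c (a (l 16755688) (l 16753936)) (a (l 16742896) (l 16750408))) (a (b (c (l 16754504) (a (l 16756912) (l 16755504))) (a (l 130090491687) (c (l 16757632) (l 82308977479)))) (c (l 16755936) (l 16749008))))) (c (c (a (l 16739592) (l 16760952)) (b (l 16735392) (l 16746192))) (c (a (l 16747888) (l 16730256)) (c (a (l 16750272) (l 16747488)) (b (l 16744480) (l 16738360))))))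 (b (c (a (a (l 153175944647) (b (a (l 111300009303) (l 16757944)) (l 137069816359))) (a (c (l 66739720439) (l 64055365719)) (c (l 16758904) (l 16756680)))) (a (a (l 150491590487) (b (a (b (l 86603945127) (l 132237977095)) (c (l 16757008) (l 16756368))) (a (l 3) (l 127943006887)))) (a (c (a (l 66739718679) (l 16755792)) (a (b (l 16754928) (l 80698363687)) (l 16754408))) (c (l 16754424) (l 16741648))))) (a (l 3) (a (b (a (l 148344104967) (c (l 109689395607) (c (l 102710075671) (l 102173201831)))) (l 3)) (c (c (b (l 16757904) (l 108078782791)) (b (l 16756968) (l 104857557047))) (b (c (l 16756032) (a (l 16755824) (l 16754344))) (a (l 125258651351) (c (l 16756608) (l 78550878983)))))))))) (a (l 3) (a (l 3) (a (l 3) (a (l 3) (a (l 3) (b (l 149417841623) (l 3)))))))) (l 3)), by decide +kernel⟩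

def k20_pp_012_a : ∃ t, chk3 f_pp_012_a t 94 18 1 = true :=
  ⟨(b (c (c (a (b (l 16740288) (a (l 16748208) (l 16738040))) (b (l 16761184) (l 16738248))) (a (b (l 16733840) (a (l 16750944) (l 16755376))) (b (l 16731680) (l 16743464)))) (a (c (b (c (l 16749880) (l 16746544)) (a (b (l 16752528) (l 16754744)) (l 16741192))) (b (a (l 16732608) (l 16718912)) (a (c (l 16751704) (l 16739912)) (a (l 16738224) (l 16736640))))) (c (b (l 16722928) (a (l 16728664) (l 16747504))) (b (b (l 16732936) (l 16716016)) (c (l 16734000) (l 16731248)))))) (b (a (b (a (c (b (a (l 103783814647) (l 16756944)) (l 134922326647)) (b (a (c (l 98951978983) (l 100025716919)) (c (l 16755944) (l 16755264))) (a (l 3) (l 122574295495)))) (c (c (l 65129106535) (l 62444750551)) (c (a (l 64592232695) (l 16754624)) (a (b (l 16753752) (l 75866523175)) (l 16753216))))) (a (l 3) (b (a (l 145659744311) (c (l 100562587575) (c (l 95730752615) (l 97341361079)))) (l 3)))) (a (b (c (c (l 16757640) (l 16755408)) (c (l 16753152) (l 16740368)))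 (c (c (l 84456459063) (b (l 16755904) (l 101099458823))) (b (c (l 16754920) (a (l 16754696) (l 16753152))) (a (b (l 105931296231) (l 3)) (c (l 16755576) (l 73182167367)))))) (c (c (l 16757376) (l 16749624)) (c (b (l 16751104) (l 16753536)) (c (l 16750384) (l 16741216)))))) (b (a (l 3) (c (a (l 146733490247) (c (l 103246941303) (l 105394424375))) (a (b (l 140291038951) (l 3)) (b (a (c (l 92509526231) (l 93583263639)) (c (l 16754864) (l 16754120))) (a (l 3) (b (l 101636327607) (l 146196616423))))))) (l 3)))), by decide +kernel⟩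

def k21_pp_012_a : ∃ t, chk3 f_pp_012_a t 95 18 1 = true :=
  ⟨(b (c (c (c (l 16738080) (l 16735984)) (a (b (l 16750064) (l 16730688)) (l 16727024))) (c (a (c (l 16723040) (l 16718408)) (b (l 16734240) (l 16718400))) (a (b (l 16707224) (a (l 16717200) (l 16734800))) (c (l 16707312) (l 16701560))))) (c (a (b (c (l 16746984) (c (l 16754384) (l 16752296))) (b (a (c (l 16756288) (l 16755120)) (l 16750024)) (a (a (l 142975392647) (l 114521229399)) (c (l 81235232055) (l 79087746711))))) (c (c (l 16747248) (l 16750200)) (b (l 16729944) (c (l 16753744) (l 16752208))))) (b (a (a (c (l 16739736) (b (l 16744408) (l 16748584))) (c (l 16748032) (b (l 16741088) (l 16745304)))) (c (l 16734096) (a (l 16718872) (l 16715448)))) (a (b (a (c (a (l 60834133943) (l 16753448)) (a (b (l 16752536) (l 69960940791)) (l 16751984))) (c (l 16751856) (l 16739056))) (a (b (a (l 132237973959) (c (l 88214558055) (l 90362036791))) (l 3)) (c (b (l 16753784) (a (l 110226264711) (l 16754520))) (b (l 16747488) (a (l 103783815031)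 (l 66202843127)))))) (c (a (b (l 16749664) (l 16752304)) (l 16738256)) (c (b (l 16745560) (l 16738968)) (a (l 16739864) (l 16744104)))))))), by decide +kernel⟩

def k22_pp_012_a : ∃ t, chk3 f_pp_012_a t 47 19 1 = true :=
  ⟨(a (l 3) (b (b (a (a (l 3) (a (l 3) (a (l 3) (c (l 144586005079) (l 140291038135))))) (b (a (c (c (l 99488843111) (l 97878229367)) (b (a (c (l 16754704) (l 86603939159)) (l 16748104)) (a (l 3) (c (l 106468167351) (l 98951975959))))) (c (c (l 16755248) (l 16754016)) (c (a (l 16753320) (l 16752240)) (c (l 16746592) (b (l 16750040) (l 16749104)))))) (a (l 3) (c (a (l 137606681831) (l 108615647255)) (b (a (l 126869259815) (c (l 16754192) (l 82308970615))) (l 144586003639)))))) (l 3)) (l 3))), by decide +kernel⟩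

def k23_pp_012_a : ∃ t, chk3 f_pp_012_a t 11 5 1 = true :=
  ⟨(l 3), by decide +kernel⟩

def k24_pp_012_a : ∃ t, chk3 f_pp_012_a t 5 3 1 = true :=
  ⟨(l 3), by decide +kernel⟩

def k25_pp_012_a : ∃ t, chk3 f_pp_012_a t 24 8 1 = true :=
  ⟨(c (a (b (a (l 16684648) (l 16683192)) (a (b (l 16698056) (a (l 16728888) (l 16725544))) (b (l 16695360) (l 16698512)))) (b (a (l 16680968) (l 16687496)) (a (b (l 16706296) (l 16688856)) (l 16654136)))) (b (a (c (a (l 16672088) (l 16657400)) (a (l 16614200) (l 16618040))) (a (l 16558008) (l 16561144))) (a (c (a (b (l 16686800) (l 16697160)) (b (l 16694344) (l 16684576))) (a (b (l 16659640) (b (l 16672200) (l 16680688))) (b (l 16664272) (l 16660656)))) (c (a (l 16664776) (l 16649352)) (a (l 16604968) (l 16617416)))))), by decide +kernel⟩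

def k26_pp_012_a : ∃ t, chk3 f_pp_012_a t 48 18 1 = true :=
  ⟨(c (a (b (c (l 16733048) (c (l 16746328) (l 16718432))) (c (a (b (l 16756224) (l 16755528)) (l 16733688)) (a (b (l 16748056) (l 16739928)) (l 16735616)))) (b (b (l 16700480) (l 16712416)) (c (l 16736112) (a (l 16721560) (l 16717560))))) (a (c (b (a (l 16710632) (l 16705088)) (a (b (l 16718720) (b (l 16743816) (l 16736104))) (b (l 16734472) (l 16719232)))) (b (a (b (l 16713944) (l 16701552)) (l 16689872)) (a (b (l 16715456) (c (l 16720272) (l 16728088))) (b (l 16703024) (b (l 16730632) (l 16714112)))))) (c (b (l 16696160) (a (l 16710936) (l 16705168))) (b (b (l 16673880) (l 16682800)) (a (c (l 16702840) (l 16697384)) (a (l 16694456) (l 16690608))))))), by decide +kernel⟩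

def k27_pp_012_a : ∃ t, chk3 f_pp_012_a t 96 19 1 = true :=
  ⟨(b (a (b (a (c (b (l 16748752) (c (l 77477133991) (l 75329647911))) (b (c (l 16750544) (l 16737704)) (c (a (l 80698356615) (l 16752752)) (b (l 16751488) (a (l 93046395127) (l 16752816)))))) (c (c (l 16754768) (l 16752216)) (c (b (l 16748208) (l 16751048)) (c (l 16747656) (l 16738472))))) (b (a (c (l 137606681383) (b (a (l 3) (l 122574290903)) (l 3))) (c (c (l 94657003095) (l 93046388759)) (b (c (l 68887194823) (a (l 76403389463) (l 16751696))) (a (l 137606680295) (c (l 93583264375) (l 95730743799)))))) (l 3))) (b (c (c (l 16733248) (l 16742288)) (c (c (l 16747048) (l 16734472)) (c (l 16732368) (b (l 16738288) (l 16732680))))) (c (c (a (b (l 16754200) (l 118816194759)) (l 64592228071)) (b (a (l 16752904) (l 16751552)) (a (l 115594968343) (l 70497807287)))) (c (b (a (l 16746344) (l 16749192)) (a (b (l 97878225863) (l 137069809095)) (b (l 16751432) (l 78550870775)))) (b (a (c (l 16750584) (l 16744672)) (l 16736312)) (a (b (a (l 109152521303)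 (l 71571549783)) (l 134922325383)) (b (l 16750200) (a (l 90362033255) (l 16751600))))))))) (a (l 3) (b (a (l 3) (b (c (l 132237970599) (b (a (l 3) (c (l 109689390183) (l 102710069575))) (l 3))) (l 3))) (l 3)))), by decide +kernel⟩

def k28_pp_012_a : ∃ t, chk3 f_pp_012_a t 97 19 1 = true :=
  ⟨(a (b (c (c (b (l 16732048) (l 16742712)) (b (l 16747008) (a (l 16750864) (l 16749336)))) (c (b (l 16730400) (c (l 16747768) (l 16738320))) (b (c (l 16736216) (l 16712104)) (c (b (l 16742488) (l 16736208)) (a (l 16734408) (l 16741072)))))) (b (a (b (c (c (l 90362033991) (l 87677677191)) (b (c (l 16752008) (a (l 66202839479) (l 16750408))) (a (l 125258647847) (c (l 16752840) (l 84456451783))))) (l 3)) (b (c (l 16747208) (c (l 16750352) (c (l 16749280) (l 16748568)))) (c (a (l 126869256903) (l 95193870151)) (b (c (l 90362030535) (a (l 95730746839) (l 16751472))) (a (l 3) (l 123648030631)))))) (l 3))) (b (c (c (l 16741096) (b (l 16743448) (l 16725864))) (c (b (l 16735432) (c (l 16743016) (l 16740448)))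 (b (l 16706312) (a (l 16727904) (l 16713744))))) (b (c (c (a (l 16752760) (l 16752120)) (a (b (l 16750224) (l 16751920)) (l 16749488))) (c (a (b (l 16747808) (a (l 67813449703) (l 16750352))) (l 16736320)) (a (b (l 16745360) (a (b (l 16749744) (l 78550870439)) (l 16749136))) (b (l 16741736) (l 16741192))))) (b (a (c (l 129016737879) (b (a (l 137606677751) (c (l 16752536) (l 88214553399))) (l 3))) (c (c (l 16752744) (l 81772094679)) (c (b (l 16750848) (l 98951964855)) (b (a (l 16750848) (l 16749072)) (a (l 109152518679) (l 72108418151)))))) (a (l 3) (a (l 3) (c (l 141364773431) (l 135459193959)))))))), by decide +kernel⟩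

def k29_pp_012_a : ∃ t, chk3 f_pp_012_a t 49 9 1 = true :=
  ⟨(b (a (c (b (l 16692800) (a (l 16720080) (l 16716040))) (b (a (l 16655504) (l 16647968)) (c (b (l 16692672) (l 16699128)) (a (l 16684744) (l 16676728))))) (c (c (l 16716376) (l 16675328)) (b (a (l 16661144) (l 16653104)) (c (l 16682488) (l 16643336))))) (a (b (c (c (a (l 16749520) (l 16746944)) (a (l 16720336) (l 16716072))) (c (a (b (l 16729656) (l 16715200)) (l 16705960)) (a (b (l 16719680) (c (l 16730872) (l 16727304))) (b (l 16711864) (l 16700432))))) (c (a (b (c (l 16750936) (l 16736392)) (a (b (l 16740840) (c (l 102173192583) (l 101636319543))) (c (l 16751608) (l 16744600)))) (c (b (l 16748888) (l 16750288)) (b (l 16743032) (l 16736648)))) (c (b (a (b (l 16741096) (l 16733920)) (l 16716096)) (a (b (a (l 16749064) (l 16746384)) (a (b (l 78013996999) (l 116131841015)) (l 57612895447))) (a (l 16734848) (l 16742512)))) (b (a (c (l 16729136) (b (l 16734944) (l 16740064))) (b (l 16728600) (l 16712448))) (a (b (c (l 16735728) (a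 (l 16747152) (l 16743232))) (a (b (a (b (l 16751352) (l 107541903847)) (l 16750200)) (a (l 3) (l 101099454327))) (a (b (l 16748384) (l 65665965815)) (l 16747744)))) (a (b (l 16740136) (l 16734480)) (b (l 16736352) (l 16741216)))))))) (b (c (a (l 16717176) (l 16712856)) (c (b (l 16692856) (l 16699872)) (a (l 16687704) (l 16679520)))) (c (c (a (l 16726248) (l 16723360)) (a (b (l 16738768) (l 16743152)) (l 16715464))) (c (a (b (l 16731064) (l 16727648)) (b (l 16724744) (l 16732008))) (a (b (l 16702264) (c (l 16734312) (l 16710768))) (b (l 16715240) (l 16704192)))))))), by decide +kernel⟩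

def k30_pp_012_a : ∃ t, chk3 f_pp_012_a t 25 4 1 = true :=
  ⟨(b (c (a (b (c (l 16705072) (l 16641072)) (a (l 16661368) (l 16666952))) (c (l 16652600) (l 16570792))) (a (b (a (l 16563408) (l 16564864)) (a (b (l 16607824) (l 16624024)) (l 16576616))) (b (l 16492264) (b (l 16538720) (l 16556312))))) (c (a (b (c (a (l 16727216) (l 16715200)) (a (l 16683736) (l 16669664))) (a (c (b (l 16734016) (l 16718080)) (b (l 16697936) (a (l 16731488) (l 16726136)))) (c (l 16706208) (b (l 16706392) (l 16696408))))) (b (c (l 16693752) (l 16624864)) (a (c (l 16694912) (l 16677448)) (b (l 16666648) (l 16677568))))) (a (b (a (b (l 16619616) (a (l 16661576) (l 16653368))) (b (l 16623104) (l 16619640))) (c (a (b (l 16682536) (b (l 16693712) (l 16701272))) (b (l 16688488) (l 16683240))) (a (b (b (l 16682832) (l 16671832)) (a (a (l 16693152) (l 16689032)) (l 16682752))) (b (l 16649304) (a (l 16674200) (l 16686432)))))) (b (a (b (l 16625720) (l 16622832)) (l 16573992)) (a (b (l 16620264) (a (l 16664192) (l 16655648)))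 (b (l 16623160) (l 16621448))))))), by decide +kernel⟩

def k31_pp_012_a : ∃ t, chk3 f_pp_012_a t 24 5 1 = true :=
  ⟨(b (a (l 3) (b (a (b (b (a (a (l 3) (b (c (l 122574284599) (b (a (l 122037419927) (c (l 16751496) (l 82845836439))) (l 141364773239))) (l 3))) (c (b (a (c (l 16751808) (l 75329641175)) (l 16750152)) (a (l 134385451127) (c (l 16751792) (l 92509511543)))) (b (a (c (b (l 16749616) (l 89288285831)) (b (l 16748600) (a (l 91972648071) (l 16750072)))) (c (l 16747736) (l 16740856))) (a (b (a (l 3) (l 119889931543)) (l 3)) (c (b (l 16750296) (l 111836866711)) (b (a (l 75866513143) (l 16748832)) (a (l 130627353335) (l 83382712695)))))))) (l 3)) (l 3)) (b (b (c (a (c (l 16749912) (a (l 16748568) (l 16746608))) (a (l 16725400) (l 16723656))) (a (c (c (l 16735360) (a (l 16746216) (l 16743104))) (a (b (l 16742320) (c (l 16747544) (l 16741688))) (c (l 16741688) (l 16729768)))) (c (a (l 16740856) (l 16737816)) (a (b (l 16734600) (l 16739592)) (l 16712208))))) (a (a (b (c (l 114521218199) (b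 (c (l 95193865559) (a (l 103246936263) (l 54391682135))) (a (l 3) (l 123111160087)))) (l 3)) (c (b (c (l 16750840) (l 16750000)) (l 129553605383)) (b (c (a (l 16747216) (l 16748520)) (a (b (l 16748120) (l 73719035431)) (l 16747472))) (b (a (l 3) (c (l 16750936) (l 93046388311))) (l 3))))) (c (c (l 69424053319) (a (l 71571536279) (l 16747240))) (a (b (c (l 16746352) (l 16739352)) (c (b (l 16749088) (l 100562574375)) (b (a (l 16749264) (l 16747400)) (a (l 112373740855) (l 64592228951))))) (c (l 16734768) (b (l 16740720) (c (l 16746104) (l 16745424)))))))) (a (l 3) (b (b (a (c (l 140291029879) (b (l 133848578103) (l 3))) (c (l 98951959319) (c (b (l 80698347831) (l 114521225207)) (b (a (l 82845840215) (l 16748584)) (a (l 3) (l 101636321975)))))) (l 3)) (l 3))))) (l 3))) (l 3)), by decide +kernel⟩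

def k32_pp_012_a : ∃ t, chk3 f_pp_012_a t 25 20 2 = true :=
  ⟨(b (a (a (a (c (l 16735480) (b (l 16738928) (l 16743992))) (c (l 16721776) (l 16715688))) (a (b (l 16712056) (l 16716472)) (l 16709368))) (a (c (l 16706640) (l 16695696)) (l 16667840))) (a (a (b (a (a (b (l 16744112) (l 119889926631)) (b (l 16747664) (l 76940247879))) (c (l 16747184) (l 16734224))) (a (l 135459182199) (c (l 95730729559) (a (l 106468150567) (l 84456437399))))) (a (b (c (l 16743968) (l 16739880)) (c (l 16747352) (a (l 16746752) (l 16744400)))) (c (l 16721160) (b (l 16734648) (l 16740632))))) (a (a (b (l 16711576) (l 16716720)) (a (l 16710304) (l 16707592))) (a (l 16703328) (l 16697272))))), by decide +kernel⟩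

def k33_pp_012_a : ∃ t, chk3 f_pp_012_a t 25 20 3 = true :=
  ⟨(a (a (b (a (c (b (l 16733104) (b (l 16738784) (l 16732112))) (b (a (l 16729200) (l 16725168)) (a (b (l 16736784) (l 16741864)) (l 16724872)))) (c (b (l 16726560) (l 16713376)) (b (l 16698048) (b (l 16726720) (l 16721392))))) (b (b (a (c (a (l 16742656) (l 16744904)) (a (a (b (l 16746656) (l 54928551431)) (l 16745984)) (l 16743032))) (c (l 16740216) (a (l 16739056) (l 16735024)))) (a (a (b (c (l 104857541543) (a (l 119889932663) (l 72645292007))) (l 3)) (c (b (l 16747800) (l 88751411159)) (b (l 16746888) (a (l 90898903127) (l 16748432))))) (c (l 16736296) (a (l 16738984) (l 16740224))))) (a (a (l 3) (a (l 3) (c (l 128479869159) (l 125795509415)))) (b (a (c (b (l 16748584) (l 108078767063)) (b (a (l 62444743671) (l 16747120)) (a (l 125258641207) (l 80161484135)))) (c (l 16746560) (c (l 16745712) (l 16739904)))) (a (l 3) (c (l 105931279799) (b (a (l 97341353287) (l 52244195191)) (l 120963673767)))))))) (c (b (a (l 16702744) (l 16695688))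 (a (b (l 16714752) (b (l 16731304) (a (l 66739695703) (l 16744248)))) (b (l 16728952) (a (l 16738912) (l 16735544))))) (b (a (b (l 16710648) (l 16700080)) (b (l 16702072) (l 16712592))) (b (a (a (l 16723072) (l 16729440)) (l 16707432)) (a (b (c (l 16739984) (l 16728280)) (a (a (b (l 16746352) (l 69424064983)) (l 16745656)) (l 16737376))) (c (l 16713688) (b (l 16730104) (l 16735728)))))))) (a (b (c (b (l 16701296) (l 16688760)) (b (l 16667888) (l 16675944))) (c (a (b (l 16721880) (l 16730352)) (l 16697888)) (a (b (l 16714624) (b (l 16722664) (l 16707080))) (b (l 16705896) (l 16695768))))) (b (c (l 16668752) (l 16655104)) (c (b (l 16702944) (l 16690888)) (a (l 16681496) (l 16672456)))))), by decide +kernel⟩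

def k34_pp_012_a : ∃ t, chk3 f_pp_012_a t 25 42 1 = true :=
  ⟨(a (a (l 3) (a (b (c (b (a (l 123111151079) (l 82308955559)) (l 133311706615)) (b (a (b (c (l 102173192407) (a (l 130090478887) (l 86067063495))) (l 3)) (c (b (l 16747304) (l 95193861575)) (b (a (l 16747560) (l 16745568)) (a (l 103246932535) (l 57612903943))))) (a (l 3) (c (l 127406125271) (l 125258641607))))) (l 3)) (b (c (c (l 75329627399) (a (l 79087725383) (l 16745424))) (b (c (l 16735616) (a (c (l 16744160) (l 16743520)) (l 16739720))) (a (c (l 95730729335) (b (a (c (l 16748608) (l 74792773159)) (l 16746816)) (a (l 3) (l 91435771927)))) (c (l 16746008) (a (b (l 16744768) (l 16748696)) (l 16744056)))))) (a (l 3) (c (l 117742448311) (b (b (a (l 108078770487) (a (l 78013997911) (l 51170451559))) (l 125795505799)) (l 3))))))) (a (c (a (b (c (l 16744208) (l 16741560)) (c (l 86603918055) (b (l 67276561143) (l 103246919799)))) (c (l 16721448) (b (l 16736048) (l 16721688)))) (b (a (c (b (l 16736736) (l 16730520)) (c (b (l 16734272)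 (l 16739392)) (a (l 16727176) (l 16733256)))) (c (l 16710904) (a (l 16708816) (l 16725480)))) (a (b (c (a (l 71571532695) (l 16743616)) (a (a (b (l 16746024) (c (l 16748392) (l 79624610791))) (l 53854790279)) (c (l 16742536) (l 16741816)))) (a (c (l 115594963431) (b (a (l 3) (l 95730738535)) (l 3))) (c (l 83919565895) (b (a (l 51170451399) (l 16745216)) (a (l 111836865687) (c (l 16747768) (l 68350320583))))))) (c (a (l 16731880) (l 16738888)) (c (b (l 16736488) (l 16731216)) (a (b (l 16737408) (l 16743152)) (l 16725352))))))) (c (a (c (l 16738048) (l 16712624)) (c (l 16733200) (l 16706464))) (a (c (b (l 16724584) (l 16723032)) (b (l 16697960) (a (b (l 16729384) (l 16734912)) (l 16706840)))) (c (b (l 16717008) (l 16726120)) (b (l 16710048) (a (l 16723416) (l 16718976)))))))), by decide +kernel⟩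

def k35_pp_012_a : ∃ t, chk3 f_pp_012_a t 25 43 1 = true :=
  ⟨(a (l 3) (b (a (a (l 3) (c (b (a (l 102173179815) (l 16746688)) (l 119889919223)) (b (a (c (l 97341341095) (b (a (c (l 16748168) (l 83382706599)) (l 16746456)) (a (l 3) (l 98951963383)))) (c (l 16740224) (c (l 61907851975) (b (l 16743056) (a (l 54391675783) (l 16744840)))))) (a (l 3) (c (l 109152503991) (b (a (l 113984348615) (c (l 16747552) (l 71571545655))) (l 3))))))) (c (a (a (c (l 16746288) (l 16734736)) (l 16722416)) (c (l 16740920) (l 16738120))) (a (c (b (l 16729768) (a (l 74792757127) (l 16742992))) (b (a (c (l 16740840) (l 16740048)) (l 16736144)) (a (b (c (l 16744800) (l 16744408)) (a (c (l 16748272) (l 86603931399)) (l 42580515095))) (c (l 16742032) (l 16741392))))) (c (a (l 16737120) (l 16733432)) (a (c (l 16735224) (l 16723464)) (l 16719720)))))) (a (l 3) (a (b (c (a (l 123648020295) (l 87140791303)) (a (a (l 3) (c (l 109689382791) (l 110226252375))) (c (l 86067048471) (b (a (c (l 16746880) (l 57076029943)) (l 16744824))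 (a (l 116131831799) (c (l 16747328) (l 73719028871))))))) (l 3)) (c (c (l 76940235127) (b (l 16743520) (l 87677657127))) (c (b (a (l 16743976) (l 16740360)) (a (l 97878211239) (l 65665948199))) (b (a (c (l 16743240) (b (l 16741272) (l 16744200))) (l 16733400)) (a (b (c (l 83919567911) (a (l 88214543703) (l 16746600))) (a (l 3) (l 102173187623))) (b (l 16737632) (a (c (l 16746664) (l 61370996823)) (l 16744616))))))))))), by decide +kernel⟩

def k36_pp_012_a : ∃ t, chk3 f_pp_012_a t 25 11 1 = true :=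
  ⟨(a (l 3) (b (a (l 3) (b (a (l 3) (a (l 3) (b (c (l 113447479287) (b (a (l 117742445303) (b (c (l 16747288) (a (l 91435767895) (l 66739705255))) (l 3))) (l 3))) (l 3)))) (l 3))) (l 3))), by decide +kernel⟩

def k37_pp_012_a : ∃ t, chk3 f_pp_012_a t 13 4 1 = true :=
  ⟨(a (a (b (a (c (l 16580848) (l 16478216)) (b (l 16399320) (l 16511856))) (c (b (l 16581880) (a (l 16635560) (l 16639384))) (b (a (l 16575344) (l 16576032)) (a (b (l 16625272) (l 16624064)) (l 16573920))))) (b (b (a (l 16400504) (l 16404744)) (l 16415480)) (c (b (l 16582736) (l 16548112)) (b (l 16502600) (a (l 16574888) (l 16575272)))))) (b (b (a (c (l 16521616) (l 16463088)) (l 16459608)) (a (a (l 16443568) (l 16422952)) (c (l 16490000) (l 16439072)))) (a (b (l 16424808) (a (l 16514728) (l 16534800))) (b (a (l 16494488) (l 16470656)) (l 16437896))))), by decide +kernel⟩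

def k38_pp_012_a : ∃ t, chk3 f_pp_012_a t 13 10 1 = true :=
  ⟨(a (a (c (b (a (b (l 16674792) (b (l 16684208) (l 16690592))) (b (l 16659216) (l 16672880))) (a (b (a (l 16703432) (l 16697096)) (a (c (l 16717880) (b (l 16731944) (l 16739392))) (b (l 16707104) (l 16713864)))) (b (a (l 16690352) (l 16704184)) (a (a (l 16705880) (l 16702664)) (l 16697664))))) (b (a (b (a (l 16648656) (l 16660512)) (c (l 16670248) (a (l 16684216) (l 16674848)))) (b (l 16625496) (a (l 16650912) (l 16662624)))) (a (b (a (c (l 16692848) (b (l 16700984) (l 16712232))) (b (l 16675440) (l 16685832))) (a (b (c (l 16727776) (c (l 16724600) (l 16701496))) (c (c (l 16737720) (l 16715616)) (c (b (l 16732728) (l 16738160)) (a (b (l 16733640) (l 16739560)) (l 16721512))))) (c (b (l 16719984) (l 16708560)) (b (l 16693520) (a (l 16717704) (l 16723672)))))) (b (a (b (l 16687536) (l 16677080)) (l 16662816)) (a (c (l 16695832) (b (l 16705280) (a (l 16719112) (l 16714512)))) (c (l 16687600) (b (l 16695912) (l 16707528)))))))) (c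 (b (a (l 16628576) (l 16631560)) (a (b (l 16671776) (a (l 16690640) (l 16704208))) (b (l 16655240) (l 16671424)))) (b (a (b (l 16627120) (l 16627416)) (l 16555136)) (a (b (a (l 16653600) (l 16665176)) (a (c (l 16700088) (l 16671288)) (c (l 16691368) (l 16682640)))) (b (l 16608816) (a (l 16656688) (l 16668136))))))) (a (c (b (a (l 16633216) (l 16612656)) (a (b (l 16658280) (l 16654416)) (l 16627144))) (b (a (l 16576744) (l 16576912)) (a (b (l 16630984) (l 16611600)) (b (l 16610680) (l 16633584))))) (b (a (l 16531536) (l 16551400)) (a (b (l 16583392) (l 16583424)) (c (l 16606944) (l 16580672)))))), by decide +kernel⟩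

def k39_pp_012_a : ∃ t, chk3 f_pp_012_a t 104 22 1 = true :=
  ⟨(b (a (b (c (c (l 86067042631) (a (l 93583240087) (l 75329622023))) (c (b (a (l 76403368663) (l 16742368)) (a (l 112910607127) (l 87140789319))) (b (a (b (c (l 16744336) (l 16746608)) (c (l 84456438375) (a (l 89288284999) (l 46338610087)))) (c (l 16741496) (l 16740912))) (a (a (l 3) (l 109689380599)) (b (a (a (l 75866510759) (l 16745976)) (l 16744392)) (a (l 115058089063) (a (l 91972638311) (l 67813446631)))))))) (l 3)) (c (b (c (l 16742480) (l 16719840)) (b (a (l 101099435959) (l 16745368)) (l 115058079047))) (b (c (a (l 56002256903) (l 16737224)) (b (a (l 16731528) (l 16732288)) (a (a (b (l 16742176) (l 35064320023)) (l 16741400)) (c (l 16738448) (l 16737656))))) (b (c (a (l 96804468327) (l 66739688759)) (a (b (c (l 83919566919) (a (l 89288284551) (b (l 16744872) (l 61370994839)))) (a (l 3) (l 103246927991))) (a (b (l 16743488) (a (l 76403381207) (l 52781059927))) (a (l 16743264) (l 16742152))))) (a (l 3) (c (l 105931276775)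 (b (a (l 116668701367) (c (l 78013994423) (b (l 61370994599) (l 98951959095)))) (l 3)))))))) (l 3)), by decide +kernel⟩

def k40_pp_012_a : ∃ t, chk3 f_pp_012_a t 105 22 1 = true :=
  ⟨(b (c (a (b (l 16722720) (c (l 16743472) (a (l 16733352) (l 16740760)))) (b (l 16708624) (c (l 16738176) (l 16735784)))) (a (b (c (l 16720912) (a (b (l 16727760) (l 16733552)) (l 16715624))) (c (b (l 16728248) (a (l 76403367463) (l 16741720))) (b (a (c (l 16739680) (l 16739016)) (l 16724336)) (a (b (c (l 16743840) (a (l 16744672) (l 16742376))) (c (l 83382695543) (a (b (l 81235218871) (l 116131829559)) (b (l 16744640) (l 61370994375))))) (c (l 16740920) (b (l 16738864) (l 16741896))))))) (b (c (l 16723400) (b (l 16716272) (l 16711624))) (c (a (l 16735344) (l 16731360)) (c (b (l 16728688) (l 16734336)) (a (b (l 16729608) (l 16735680)) (l 16727904))))))) (b (c (a (a (l 115594963159) (l 97341335607)) (c (l 75866488711) (a (l 80161460391) (l 16742376)))) (a (b (a (c (l 109689380871) (b (c (l 105931283159) (l 105931283079))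 (l 3))) (c (l 86067046375) (b (c (l 69960919335) (a (b (l 16745296) (l 80698347735)) (l 16743760))) (c (l 82845834951) (a (l 115594959063) (b (l 61370994183) (l 97878216823))))))) (l 3)) (c (b (a (l 16742792) (l 16738880)) (a (l 94656983463) (l 66739687383))) (b (a (c (l 16742168) (c (l 54928523815) (a (l 16745616) (l 16740456)))) (c (l 16737776) (l 16737040))) (a (b (c (l 83382694903) (a (b (l 80161476583) (l 115058087287)) (b (l 16744392) (l 60834123031)))) (c (l 103783799111) (a (l 3) (l 99488830663)))) (c (b (l 16742032) (l 69960918823)) (b (l 16741616) (a (b (l 16745048) (l 79087734535)) (l 16743496))))))))) (a (l 3) (c (l 107541883879) (a (l 3) (b (c (l 102710050151) (a (l 115058089079) (b (b (a (l 80161475031) (l 16745264)) (l 95730732791)) (l 3)))) (l 3))))))), by decide +kernel⟩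

def k41_pp_012_a : ∃ t, chk3 f_pp_012_a t 52 23 1 = true :=
  ⟨(l 3), by decide +kernel⟩

def k42_pp_012_a : ∃ t, chk3 f_pp_012_a t 53 22 1 = true :=
  ⟨(c (b (a (a (c (l 16728960) (l 16703648)) (l 16698920)) (a (l 16691624) (l 16704928))) (a (a (b (c (l 16739240) (l 16737336)) (c (l 83382684231) (a (l 89825140839) (l 73719005815)))) (c (l 16715912) (b (l 16730256) (l 16718048)))) (a (c (l 16730592) (l 16706360)) (c (l 16723872) (l 16719672))))) (a (b (a (c (b (l 16715144) (l 16725256)) (b (l 16688872) (a (l 16713480) (l 16719296)))) (c (l 16690824) (b (l 16700344) (l 16691240)))) (a (b (b (c (l 16732864) (a (l 16732808) (l 16728168))) (c (l 16727464) (c (l 16726312) (a (b (l 16736880) (l 16739944)) (l 16733640))))) (c (b (a (l 75866495255) (l 16741048)) (a (l 104857541927) (l 82845819591))) (b (a (a (c (l 79624596663) (b (l 35064318055) (a (l 101099442983) (l 80161476455)))) (b (l 16742016) (a (a (l 64592218951) (l 52244187271)) (l 16744400)))) (a (a (l 16741776) (l 16740624)) (l 16738888)))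 (a (b (c (l 101099444135) (a (l 3) (l 96804475671))) (l 3)) (c (b (l 69424047383) (l 78013996023)) (b (a (b (l 16744792) (a (l 98415085879) (l 16745000))) (l 16743216)) (a (l 112373732775) (c (l 71571542231) (b (l 59223509447) (l 91972635847)))))))))) (b (c (l 16706240) (b (l 16710648) (c (l 16727768) (l 16715936)))) (c (a (l 57612866311) (l 16735504)) (b (a (c (l 16735808) (l 16735000)) (l 16730728)) (a (c (l 16741560) (a (b (l 16740824) (l 35064317511)) (l 16739976))) (c (l 16737064) (l 16736368)))))))) (b (a (b (l 16673344) (c (l 16708304) (l 16702648))) (c (l 16694224) (l 16665984))) (a (b (c (l 16718760) (a (l 16717016) (l 16712240))) (c (l 16718760) (a (b (l 16726016) (l 16732024)) (l 16713144)))) (c (b (l 16710064) (l 16720696)) (b (l 16705000) (c (l 16718008) (l 16695224)))))))), by decide +kernel⟩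

def k43_pp_012_a : ∃ t, chk3 f_pp_012_a t 106 46 1 = true :=
  ⟨(b (a (l 3) (a (c (l 102710045415) (b (c (l 91435756775) (a (a (l 101636314887) (b (b (l 65665959511) (l 105394407751)) (l 3))) (a (b (b (l 16744528) (l 74255894615)) (l 3)) (b (l 16744120) (l 91972635895))))) (l 3))) (c (b (l 16744112) (l 101636306759)) (c (b (l 65665943959) (l 98951952647)) (b (c (b (l 16741408) (l 68887175591)) (b (l 16746256) (a (b (l 16744520) (a (l 93583247559) (l 16744744))) (l 16742920)))) (b (c (l 74792770263) (a (l 101636314135) (c (l 67813445527) (b (l 57612896215) (l 88214539015))))) (l 3))))))) (l 3)), by decide +kernel⟩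

def k44_pp_012_a : ∃ t, chk3 f_pp_012_a t 107 46 1 = true :=
  ⟨(c (a (b (c (l 16741784) (l 66202799879)) (c (l 99488818119) (l 97878203671))) (b (l 16721408) (a (l 76403359287) (l 16730848)))) (a (b (a (c (b (l 16739208) (l 72645268279)) (a (b (c (l 16739472) (l 16738960)) (c (l 77477111671) (b (l 16744912) (c (l 78013993271) (b (l 71034669751) (l 98415087719)))))) (b (l 16736864) (a (b (l 16741976) (b (l 16744232) (l 71034668631))) (l 22179414663))))) (c (l 16737696) (c (l 16726208) (b (l 16732896) (a (l 16740344) (l 16737920)))))) (b (c (a (l 91435771847) (l 79624592695)) (a (b (c (l 90898897815) (a (l 3) (b (l 87140796999) (l 3)))) (l 3)) (c (b (l 67813433191) (l 71571544583)) (b (a (b (l 16744224) (a (l 88214538135) (l 16743816))) (l 16742600)) (a (l 97878217351) (c (l 64592219639) (b (l 54391670279) (l 84993313079)))))))) (l 3))) (a (b (c (l 16733488) (b (l 16728576) (c (l 16735024) (l 16734264)))) (c (b (l 16741480) (l 88214529895)) (b (c (l 16740904) (a (b (l 16740176) (l 16743296))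 (l 16739304))) (a (b (a (l 91972635607) (b (l 16744720) (l 95730730647))) (l 3)) (c (l 78550854279) (b (a (l 50096702759) (l 16743392)) (b (l 80161475447) (l 3)))))))) (b (c (l 16729224) (b (l 16723792) (l 16729880))) (a (c (l 61907839159) (b (l 16737160) (b (l 16741728) (a (b (l 16744592) (l 83382699703)) (l 42043638743))))) (c (l 16738912) (b (l 16734776) (c (l 16741056) (l 16740696))))))))), by decide +kernel⟩

def k45_pp_012_a : ∃ t, chk3 f_pp_012_a t 53 47 1 = true :=
  ⟨(b (b (a (l 3) (a (l 3) (a (l 3) (c (l 95730725479) (c (l 94120112807) (b (c (l 68887189639) (a (l 96267604215) (b (l 49559831799) (l 78013991639)))) (l 3))))))) (l 3)) (l 3)), by decide +kernel⟩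

def k46_pp_012_a : ∃ t, chk3 f_pp_012_a t 54 22 1 = true :=
  ⟨(c (a (b (l 16650792) (a (l 16693240) (l 16685312))) (b (l 16654304) (a (l 16698000) (l 16689368)))) (a (b (a (l 16660144) (l 16650488)) (a (c (l 16685584) (b (l 16695248) (l 16707408))) (b (l 16688696) (l 16679288)))) (b (a (l 16661656) (l 16651720)) (a (b (l 16679032) (l 16690688)) (l 16654144))))), by decide +kernel⟩

def k47_pp_012_a : ∃ t, chk3 f_pp_012_a t 108 23 1 = true :=
  ⟨(b (c (a (b (l 16706328) (c (l 16736920) (l 16735256))) (b (l 16719712) (l 16707768))) (a (b (c (l 16722720) (a (l 16711544) (l 16717192))) (a (c (l 16735712) (b (l 16731184) (a (l 16733256) (l 16736104)))) (c (l 16731400) (b (l 16726368) (l 16727256))))) (c (b (l 16713848) (l 16724824)) (b (l 16688896) (a (b (l 16721520) (l 16727672)) (l 16719728)))))) (c (a (b (a (l 83382685399) (l 71034646375)) (l 106468159271)) (b (c (l 16738448) (l 16737144)) (c (l 86067038535) (l 84993294135)))) (a (b (c (b (a (l 69960912215) (l 16739568)) (a (l 99488825175)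 (l 75329623927))) (b (b (a (a (l 16744640) (l 16740696)) (l 16737104)) (a (c (l 76403369687) (a (c (l 71034670775) (b (l 63518476183) (l 90898893447))) (a (l 16744880) (l 16743056)))) (c (l 16740368) (l 16739984)))) (a (a (l 3) (a (l 97878218023) (a (l 89288282535) (b (l 72645282055) (l 3))))) (c (b (l 16743264) (l 84456436423)) (b (a (a (l 56002283351) (l 16743744)) (l 16741912)) (a (l 90362023767) (b (l 16744240) (l 72645282231)))))))) (a (l 3) (a (l 3) (a (l 3) (l 100025694311))))) (a (b (c (l 16738008) (c (l 16726704) (b (l 16733464) (a (l 16741032) (l 16738560))))) (b (c (l 83919561159) (c (b (l 74792756055) (l 77477124711)) (b (a (a (l 79624604551) (l 58149767175)) (l 16744608)) (a (l 3) (a (l 91435764519) (l 68350315111)))))) (l 3))) (b (c (l 16733640) (b (l 16728976) (c (l 16735472) (l 16734848)))) (c (b (l 16741896) (l 88751402039)) (b (c (l 60297231303) (a (b (l 16740848) (b (l 16743224) (l 56002282919))) (l 16739960))) (c (l 88214531207) (b (a (l 83382702311) (b (l 16743904) (l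 67276572823))) (l 94120121655)))))))))), by decide +kernel⟩

def k48_pp_012_a : ∃ t, chk3 f_pp_012_a t 109 23 1 = true :=
  ⟨(b (c (a (l 16695440) (l 16687248)) (a (c (l 16689360) (b (l 16700000) (l 16701872))) (b (l 16692752) (c (l 16706680) (l 16702440))))) (c (a (b (l 16709328) (c (l 16740048) (l 16728592))) (b (l 16722440) (l 16711016))) (a (b (c (l 16706024) (c (l 16704344) (b (l 16721000) (l 16716880)))) (c (a (b (l 16737568) (l 16737744)) (l 16735952)) (a (b (c (l 16736768) (l 16736224)) (a (b (l 16742368) (a (l 70497798967) (l 52781057831))) (a (l 16744064) (l 16740888)))) (b (l 16731616) (c (l 16738072) (l 16732376)))))) (b (c (l 16717944) (a (l 16717368) (l 16712416))) (c (l 16708264) (a (c (l 16730256) (l 16718936)) (l 16714424))))))), by decide +kernel⟩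

def k49_pp_012_a : ∃ t, chk3 f_pp_012_a t 55 11 1 = true :=
  ⟨(b (a (c (b (l 16656512) (l 16654832)) (b (l 16636576) (a (l 16665216) (l 16655184)))) (c (l 16604744) (b (l 16616024) (l 16639936)))) (c (a (b (a (l 16699688) (l 16690832)) (a (b (l 16714232) (l 16723992)) (l 16689720))) (b (l 16655968) (a (l 16701920) (l 16692824)))) (a (b (a (b (l 16682968) (l 16694872)) (l 16658104)) (a (c (b (l 16708688) (l 16720096)) (b (l 16704928) (a (l 16719952) (l 16714968)))) (c (l 16684056) (b (l 16694864) (l 16707448))))) (b (a (l 16669072) (l 16658976)) (a (c (l 16695448) (l 16670088)) (l 16662328)))))), by decide +kernel⟩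

def k50_pp_012_a : ∃ t, chk3 f_pp_012_a t 12 6 1 = true :=
  ⟨(l 3), by decide +kernel⟩

def k51_pp_012_a : ∃ t, chk3 f_pp_012_a t 26 6 1 = true :=
  ⟨(l 3), by decide +kernel⟩

def k52_pp_012_a : ∃ t, chk3 f_pp_012_a t 54 12 1 = true :=
  ⟨(b (a (l 3) (b (a (b (c (a (l 97878209223) (l 81235202343)) (c (b (a (l 93583243447) (l 71034654999)) (l 92509512519)) (b (a (a (l 3) (a (l 89288282711) (b (l 61907864055) (l 3)))) (a (c (l 73719015111) (b (l 16744984) (l 77477122167))) (a (b (l 16741904) (l 54928541559)) (l 16744528)))) (a (l 3) (c (l 91972639255) (l 92509510103)))))) (l 3)) (c (b (a (l 71034646407) (l 16739648)) (l 91972622887)) (a (b (c (b (l 16739952) (l 75329624887)) (b (a (l 16740416) (l 16737976)) (c (l 74255882919) (b (a (b (l 16744192) (l 72108411223)) (l 16742552)) (a (l 3) (l 64055348839)))))) (l 3)) (b (c (l 16727832) (b (l 16734288) (c (l 16740696) (a (l 56539137927) (l 16739144))))) (c (l 89288271015) (b (c (l 83382691239) (b (a (l 71571542071) (l 16745168)) (l 86067057239)))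 (l 3))))))) (l 3))) (l 3)), by decide +kernel⟩

def k53_pp_012_a : ∃ t, chk3 f_pp_012_a t 110 12 1 = true :=
  ⟨(b (b (b (c (a (l 16712808) (l 16725656)) (a (c (l 16721056) (a (b (l 16729352) (l 16730392)) (l 16717056))) (a (c (l 16724648) (l 16722560)) (l 16697800)))) (c (a (c (l 16722360) (l 71034641815)) (l 16719960)) (a (a (a (b (b (l 16741824) (a (l 56539155127) (l 16744192))) (l 88751413047)) (c (l 69960908775) (b (l 16740688) (c (l 56539159399) (b (l 52244188455) (l 3)))))) (c (l 63518447863) (b (l 16731736) (a (b (l 16742936) (l 65665962103)) (c (l 16742128) (l 16741904)))))) (c (a (l 16736200) (l 16731600)) (a (b (l 16732016) (c (l 16738520) (l 16738144))) (b (l 16727032) (l 16733360))))))) (b (c (a (l 94120111415) (a (l 78013977623) (l 69960904743))) (a (a (l 3) (a (l 3) (c (l 91972631815) (l 84993308215)))) (c (a (l 75329622823) (l 67276549207)) (b (a (c (l 68350301127) (b (l 60297237463) (l 80698338551))) (c (l 16739848) (l 16739536))) (a (l 98951961959) (c (l 71571529319) (b (l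 73719012807) (l 66739707031)))))))) (l 3))) (l 3)), by decide +kernel⟩

def k54_pp_012_a : ∃ t, chk3 f_pp_012_a t 111 12 1 = true :=
  ⟨(b (c (b (a (c (l 16723504) (l 16700184)) (l 16692664)) (c (a (l 71571501383) (l 16714080)) (a (b (l 16737224) (l 79624585751)) (b (l 16728512) (l 16718352))))) (b (a (b (c (l 16712904) (l 16710000)) (a (c (l 16726944) (l 16725192)) (l 16700240))) (b (l 16680632) (c (l 16715112) (l 16712600)))) (a (a (b (c (l 16738616) (b (l 16734704) (a (l 16737008) (l 16739808)))) (c (l 85530175287) (b (c (l 82308950471) (l 82308949975)) (l 3)))) (b (c (l 16733992) (b (l 16729696) (l 16736056))) (c (l 69424037911) (b (a (l 61907850231) (l 16741176)) (l 84993307111))))) (b (a (c (l 16729304) (l 16727864)) (l 16702728)) (a (c (l 62444706391) (b (l 16737424) (a (l 65129078471) (l 16742488)))) (c (l 16736440) (b (l 16732392) (l 16738792)))))))) (b (a (l 3) (b (b (c (l 77477105463) (a (l 86603921639) (a (l 68350306231) (l 61907850007)))) (l 3)) (l 3))) (l 3))), by decide +kernel⟩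

def k55_pp_012_a : ∃ t, chk3 f_pp_012_a t 27 13 1 = true :=
  ⟨(l 3), by decide +kernel⟩

def k56_pp_012_a : ∃ t, chk3 f_pp_012_a t 6 7 1 = true :=
  ⟨(l 3), by decide +kernel⟩

def k57_pp_012_a : ∃ t, chk3 f_pp_012_a t 14 2 1 = true :=
  ⟨(a (b (a (b (c (l 16475536) (l 16452432)) (b (c (l 16421552) (l 16402800)) (l 16474864))) (c (b (l 16468416) (b (l 16413576) (l 16401976))) (b (l 16463936) (b (l 16411672) (l 16396096))))) (b (a (b (l 16454440) (a (l 16551256) (l 16550048))) (b (l 16470896) (l 16474176))) (a (a (b (c (l 16625992) (l 16565392)) (c (b (l 16657368) (l 16657632)) (b (l 16643648) (a (l 16673232) (l 16663072))))) (b (b (l 16583848) (l 16606768)) (b (l 16587952) (a (l 16637352) (l 16648056))))) (b (a (l 16552616) (l 16551432)) (a (b (l 16608664) (l 16590432)) (b (l 16586992) (l 16611056))))))) (b (b (a (c (l 16471104) (l 16482408)) (a (l 16469192) (l 16459976))) (a (b (l 16383664) (a (b (l 16401856) (l 16404552)) (b (l 16403928) (l 16392216)))) (c (b (l 16431888) (l 16401160))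 (l 16384024)))) (b (a (a (l 16459200) (b (l 16413144) (l 16459056))) (b (a (c (l 16397352) (l 16393352)) (b (l 16382192) (a (l 16385456) (l 16377960)))) (l 16404456))) (a (b (l 16475912) (a (l 16577320) (l 16555328))) (b (l 16452344) (a (l 16533320) (l 16511480))))))), by decide +kernel⟩

def k58_pp_012_a : ∃ t, chk3 f_pp_012_a t 15 4 1 = true :=
  ⟨(a (a (b (a (l 16452984) (l 16469216)) (c (l 16366656) (l 16411240))) (b (l 16414072) (a (l 16399480) (l 16416680)))) (a (b (l 16437200) (c (l 16405048) (l 16447912))) (b (l 16381392) (a (l 16420464) (l 16447872))))), by decide +kernel⟩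

def k59_pp_012_a : ∃ t, chk3 f_pp_012_a t 30 5 1 = true :=
  ⟨(b (a (b (a (b (l 16389728) (a (l 16374000) (l 16374752))) (l 16328024)) (a (a (l 16398248) (l 16367864)) (b (a (b (l 16367872) (l 16371872)) (b (l 16371416) (l 16345440))) (l 16383976)))) (b (a (l 16361072) (l 16375712)) (b (a (c (l 16363304) (l 16387680)) (l 16326000)) (a (a (a (l 16372384) (l 16327224)) (b (l 16323440) (c (l 16354848) (l 16379128)))) (a (b (l 16371560) (c (l 16329240) (l 16378360))) (l 16353096)))))) (a (b (a (l 16440856) (l 16399048)) (a (l 16489992) (l 16469000))) (a (b (c (l 16389952) (l 16410336)) (l 16406728)) (a (b (c (l 16331496) (l 16399440)) (l 16434056)) (b (b (b (c (a (l 16327728) (l 16326336)) (l 16380000)) (l 16370728)) (l 16388504)) (l 16382760)))))), by decide +kernel⟩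

def k60_pp_012_a : ∃ t, chk3 f_pp_012_a t 62 5 1 = true :=
  ⟨(b (b (a (l 16392952) (l 16412832)) (a (c (l 16334856) (l 16393536)) (c (l 16371336) (l 16435840)))) (b (a (b (a (b (c (l 16350280) (l 16385344)) (a (c (l 16348792) (l 16382272)) (b (l 16341976) (l 16321776)))) (a (b (l 16373752) (c (l 16346240) (l 16383544))) (l 16331360))) (a (l 16337824) (b (a (l 16325944) (b (c (l 16323208) (l 16382984)) (l 16366448))) (l 16356256)))) (c (b (a (l 16359192) (l 16367024)) (a (b (b (l 16347552) (a (l 16344304) (l 16344608))) (a (l 16351648) (l 16305744))) (b (l 16352672) (a (b (l 16323088) (l 16345560)) (b (l 16347552) (a (l 16343520) (l 16343904))))))) (b (l 16385328) (a (b (b (l 16388992) (l 16365168)) (l 16390608)) (b (l 16397392) (a (l 16368072) (l 16391088))))))) (a (c (b (l 16383096) (l 16408264)) (l 16385056)) (a (b (c (l 16367680) (l 16406128)) (l 16389320)) (b (c (b (l 16310040) (l 16364040)) (l 16400856)) (l 16360400)))))), by decide +kernel⟩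

def k61_pp_012_a : ∃ t, chk3 f_pp_012_a t 63 5 1 = true :=
  ⟨(a (c (b (b (l 16453632) (l 16411032)) (b (b (l 16359392) (a (l 16314256) (l 16365232))) (b (a (b (a (b (a (l 16344120) (l 16343848)) (l 16347856)) (b (l 16346216) (a (l 16345096) (l 16323336)))) (l 16354760)) (b (a (b (l 16350672) (l 16324864)) (l 16352840)) (c (l 140681171841728639) (l 140247483275133055)))) (l 140515695364636799)))) (b (l 16397000) (b (a (l 16371848) (l 16404848)) (b (a (b (a (l 16393480) (b (l 16394952) (l 16393624))) (l 16401064)) (b (l 16380400) (c (l 140047784527577215) (l 16412520)))) (l 16393832))))) (b (b (l 16439760) (l 16354248)) (a (b (a (l 16324944) (l 16351792)) (b (a (b (l 16342104) (b (l 16313888) (c (l 140188315774894207) (l 16400016)))) (c (l 16357696) (l 16412520))) (b (c (c (l 140826513539022975) (l 140371315779240063)) (a (l 16404632) (l 16383632))) (l 16324856)))) (b (b (l 16412936) (l 16350680)) (b (c (l 16323592) (l 16422368)) (b (a (b (c (l 16350344) (l 16407080)) (c (l 140149832872493183)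 (l 16405360))) (c (l 16311024) (l 16411192))) (a (l 16341496) (b (c (a (l 16350272) (l 16328584)) (l 16408472)) (l 16341584))))))))), by decide +kernel⟩

def k62_pp_012_a : ∃ t, chk3 f_pp_012_a t 56 12 1 = true :=
  ⟨(b (a (b (c (a (l 16704616) (l 16695288)) (a (c (l 16699536) (l 16675120)) (l 16666808))) (c (a (b (l 16720568) (l 16710280)) (l 16696008)) (a (b (c (l 16717384) (l 16715224)) (a (c (l 16731712) (l 16730560)) (l 16705256))) (c (l 16692744) (b (l 16705056) (l 16717888)))))) (c (b (l 16659776) (a (l 16686752) (l 16698184))) (b (a (l 16677656) (l 16667448)) (a (b (l 16696320) (l 16708816)) (l 16671520))))) (a (a (b (c (b (a (l 16733168) (l 16739800)) (l 79087722231)) (c (b (a (l 64055324183) (l 16738912)) (l 81235207447)) (b (a (b (l 16740160) (l 77477109223)) (b (l 16735120) (l 16741488))) (a (l 3) (l 80698337079))))) (l 3)) (b (c (b (l 16712320) (a (l 16735056) (l 16741880))) (b (a (c (l 16734176) (l 16733280)) (l 16707824)) (a (b (c (l 16743056) (l 16737512)) (l 78013984791))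 (b (l 16738152) (c (l 16744184) (l 16738712)))))) (c (l 81235214183) (b (c (l 79087729223) (l 71034660359)) (l 3))))) (b (c (a (c (l 16709488) (l 16708368)) (l 16699744)) (a (b (a (l 16723824) (l 16718832)) (a (c (l 16736680) (l 16736016)) (l 16731384))) (c (l 16697432) (b (l 16710352) (l 16723264))))) (b (a (c (l 66739677575) (c (l 61370968823) (a (l 60834108663) (l 57612872519)))) (c (l 16716656) (c (l 16715784) (a (l 16717744) (l 16733640))))) (a (l 3) (c (l 64055327847) (a (l 69424047559) (b (l 16743304) (l 16742960))))))))), by decide +kernel⟩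

def k63_pp_012_a : ∃ t, chk3 f_pp_012_a t 57 12 1 = true :=
  ⟨(b (a (b (a (l 16640456) (l 16651072)) (a (c (l 16688368) (l 16682304)) (l 16654224))) (b (l 16593352) (c (l 16662768) (l 16635600)))) (a (c (b (a (l 16690272) (l 16701512)) (a (b (l 16728432) (l 59223470183)) (b (l 16718952) (l 16730632)))) (b (a (b (l 16701176) (l 16713808)) (l 16676368)) (a (b (a (l 16728968) (l 16723928)) (a (l 57612866551) (l 16736600))) (a (b (l 16718872) (l 16731568)) (l 16699208))))) (b (a (c (l 16691528) (l 16687104)) (l 16658104)) (a (c (l 16694184) (c (l 16692232) (l 16690912))) (a (l 16685344) (l 16680272)))))), by decide +kernel⟩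

def k64_pp_012_a : ∃ t, chk3 f_pp_012_a t 28 13 1 = true :=
  ⟨(b (a (l 3) (b (a (a (b (c (l 61907849671) (a (l 64592215335) (l 56002269975))) (l 3)) (c (b (l 56002249079) (l 89288271335)) (b (a (l 56539130263) (l 16718240)) (a (l 3) (l 56002275639))))) (a (c (b (l 16732904) (l 56002254103)) (b (a (l 16734168) (l 16729088)) (a (l 54391651943) (l 16731232)))) (c (b (l 16723224) (l 16714288)) (a (b (l 16723992) (l 16736784)) (l 16704344))))) (b (a (l 3) (c (a (l 135996045831) (b (l 16723080) (l 86603914935))) (a (l 55465408535) (a (l 16737720) (l 16723144))))) (l 3)))) (l 3)), by decide +kernel⟩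

def k65_pp_012_a : ∃ t, chk3 f_pp_012_a t 29 12 1 = true :=
  ⟨(a (b (a (b (l 16613920) (l 16617648)) (l 16562928)) (a (b (a (l 16668696) (l 16658208)) (a (c (l 16695096) (l 16692024)) (l 16662264))) (b (l 16621344) (a (l 16672800) (l 16662280))))) (b (a (l 16583208) (l 16561568)) (a (b (l 16620936) (l 16646368)) (l 16570472)))), by decide +kernel⟩

def k66_pp_012_a : ∃ t, chk3 f_pp_012_a t 58 13 1 = true :=
  ⟨(b (a (b (a (c (l 16698448) (c (l 16697120) (l 16696216))) (a (l 16689944) (l 16705792))) (a (b (a (l 16718784) (l 16734768)) (a (l 122574267863) (b (l 16744120) (l 193978102023)))) (b (a (l 16729736) (l 16724672)) (c (l 111299949207) (l 16718424))))) (b (a (l 16677088) (l 16687664)) (a (c (l 16703032) (l 16701824)) (b (l 16706720) (l 16719472))))) (a (b (a (l 3) (b (a (l 183240682711) (a (l 191830617495) (l 185925032263))) (l 3))) (l 3)) (b (b (c (a (a (l 122037384359) (l 16740224)) (l 16711704)) (a (a (l 116668673623) (l 16739520)) (l 16731800))) (a (b (a (l 198273078039) (c (l 181630071735)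 (l 185925037719))) (l 3)) (a (a (b (l 16745608) (l 190756884359)) (b (l 16743080) (l 180556331687))) (b (l 16739264) (c (l 125258618327) (l 16734816)))))) (b (a (l 3) (a (l 3) (b (a (l 181093219207) (a (l 185925047271) (l 180019464631))) (l 3)))) (l 3))))), by decide +kernel⟩

def k67_pp_012_a : ∃ t, chk3 f_pp_012_a t 59 13 1 = true :=
  ⟨(b (a (b (a (l 16677184) (l 16666648)) (a (l 16681800) (l 16692336))) (b (l 16629792) (a (l 16681840) (l 16671304)))) (a (a (b (b (l 16701000) (a (b (l 16734152) (l 16732704)) (l 16711272))) (b (a (b (a (c (l 169818913255) (l 173040137095)) (c (l 16746040) (l 16745376))) (a (l 3) (a (l 177335122375) (l 182703821783)))) (c (b (l 16742232) (b (l 126869236871) (a (l 146733482343) (l 16748936)))) (b (l 16741512) (a (l 174650752455) (l 16741424))))) (a (l 3) (a (l 3) (b (c (l 173040156935) (l 177335122887)) (l 3)))))) (b (b (l 16711608) (a (l 16727088) (l 16721912))) (b (a (b (l 16736744) (c (l 16738312) (l 16742824))) (b (l 16731592) (l 16727568))) (b (a (a (a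 (a (l 168208315863) (l 177335113159)) (b (l 16748664) (l 154249675335))) (b (l 16746744) (c (a (l 140827900583) (l 16749672)) (l 138680405943)))) (a (c (l 16746168) (l 16745424)) (l 16737984))) (a (a (l 3) (c (l 176798255527) (l 180556350455))) (c (b (a (b (l 16751472) (l 131701096599)) (l 16748456)) (a (l 178408867159) (b (l 113447484391) (l 151565321335)))) (b (a (l 143512245335) (l 16747696)) (a (l 181630091111) (b (l 111836870359) (l 154249674679)))))))))) (b (a (b (l 16701176) (l 16714120)) (l 16676256)) (a (b (a (l 16708688) (l 16724480)) (b (a (a (l 16740656) (l 16738072)) (l 16734200)) (a (a (b (l 16745512) (c (l 16751096) (l 16749656))) (c (l 16744944) (l 16744160))) (a (l 16741976) (l 16739392))))) (b (l 16700936) (a (b (l 16729008) (l 16735512)) (l 16727072))))))), by decide +kernel⟩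

def k68_pp_012_a : ∃ t, chk3 f_pp_012_a t 14 7 1 = true :=
  ⟨(b (a (l 3) (b (a (l 3) (a (l 3) (b (b (a (a (b (a (b (a (a (l 175724510791) (l 153712804775)) (a (l 142438514951) (l 132237966727))) (l 3)) (a (a (b (l 122574289239) (l 3)) (b (l 16749736) (l 172503285495))) (b (l 16748776) (c (l 141364774391) (l 144049127527))))) (l 3)) (b (a (a (b (l 16747488) (c (l 123648032439) (l 126332385495))) (a (l 16751256) (l 16752744))) (c (b (l 16744664) (l 16747928)) (l 16745480))) (a (a (c (l 177335128311) (l 179482610215)) (b (c (l 161765867783) (l 164450220615)) (l 3))) (b (a (c (l 127406130103) (l 130627354007)) (c (l 16750536) (l 16749672))) (a (l 3) (c (l 166060836247) (l 168745189015))))))) (a (b (c (l 16734536) (l 16731136)) (b (a (c (l 16748608) (l 16747744)) (l 16745600)) (c (a (a (b (l 16751680) (l 159081514711)) (l 113984356439)) (l 16749296)) (a (a (l 134385451575) (l 116668709367)) (l 16748408))))) (b (l 16726344) (a (a (l 16745288) (l 16743992)) (l 16742056))))) (a (l 3) (b (b (a (a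 (a (l 3) (a (l 3) (l 174650770615))) (a (b (c (l 132774838967) (l 134922320919)) (l 170355804647)) (c (l 117205583303) (l 120426806983)))) (a (c (l 16751288) (l 16750376)) (l 16743008))) (a (l 3) (a (a (c (l 153175937479) (l 155323419271)) (c (l 120963681047) (l 124721775511))) (a (a (l 16752472) (l 16750520)) (l 16749552))))) (a (l 3) (a (l 3) (a (a (l 185388192455) (l 180556345479)) (b (b (l 124184904151) (l 169818933863)) (l 3)))))))) (l 3)))) (l 3))) (l 3)), by decide +kernel⟩

def k69_pp_012_a : ∃ t, chk3 f_pp_012_a t 15 6 1 = true :=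
  ⟨(a (b (a (b (a (l 16540152) (l 16498088)) (a (l 16549176) (l 16507064))) (b (a (l 16456480) (l 16415688)) (a (l 141522573550108735) (c (l 16520944) (l 16536856))))) (a (b (a (c (l 142444995233071167) (l 142718567474020415)) (b (l 16608448) (l 16613408))) (a (b (c (l 16660080) (l 16660984)) (a (a (b (l 16708840) (l 16721864)) (l 16689200)) (b (l 16695752) (l 16708816)))) (b (l 142633080522145855) (a (l 16670856) (l 16660272))))) (b (a (b (l 16587416) (l 16592288)) (b (l 16566856) (l 16571544))) (a (b (l 142607722991829055) (l 142695958810394687)) (b (l 142306181885100095) (l 142495916413288511)))))) (b (a (a (b (c (l 16425784) (l 16473064)) (c (l 16498744) (l 16520168))) (b (b (l 16356544) (l 16432952)) (c (l 16476888) (l 16504424)))) (b (a (b (c (l 16393544) (l 16436288)) (l 16396272)) (b (c (a (l 16380592) (l 16372552)) (l 16427984)) (c (l 16401528) (l 16449272)))) (a (c (l 16457016) (l 16491456)) (c (l 16418736) (l 16481880))))) (a (b (a (b (l 16546928) (l 16551328)) (b (l 16527328) (l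 16531184))) (a (b (l 141861223231127807) (b (l 16575056) (l 142138712544035071))) (b (l 141503881910141055) (b (l 16575256) (l 141952826316701823))))) (b (a (c (l 16508728) (l 16536552)) (b (l 16475480) (l 16499904))) (a (b (l 16517520) (b (l 16557344) (l 16570056))) (b (l 16503800) (c (l 16558168) (l 16583960)))))))), by decide +kernel⟩

def k70_pp_012_a : ∃ t, chk3 f_pp_012_a t 60 28 1 = true :=
  ⟨(a (a (b (b (a (a (l 16725720) (l 16733608)) (l 16708736)) (a (a (a (b (l 16746632) (b (c (l 16753296) (l 16750992)) (l 183240707159))) (b (l 16745336) (b (l 16750224) (b (l 134922323495) (l 180019482151))))) (b (l 16743392) (a (b (l 16748936) (c (l 114521230631) (l 118279324967))) (a (l 16744352) (l 16748952))))) (a (b (l 16740800) (a (l 16747976) (l 16746680))) (a (l 16731640) (l 16740832))))) (b (b (a (a (l 3) (b (a (l 3) (l 186461925639)) (l 3))) (c (a (b (a (l 120963682871) (l 16752096)) (l 182166967735)) (b (l 16750136) (l 161765861671))) (a (b (l 156397149143) (l 183777578263)) (b (l 16749128)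 (l 161228988583))))) (a (l 3) (a (l 3) (a (l 3) (l 188609409703))))) (l 3))) (b (b (a (l 16724496) (l 16719280)) (a (c (l 16727424) (l 16716272)) (l 16721888))) (b (a (b (a (c (l 16749176) (l 16748184)) (l 16735600)) (a (b (a (l 173577023751) (l 158007764423)) (l 193441250199)) (b (c (l 16751528) (l 16750456)) (a (l 189683152327) (l 163913345735))))) (b (a (l 16743488) (l 16740888)) (a (c (l 144049111975) (l 16744264)) (l 16742200)))) (a (l 3) (b (a (b (a (l 196125604615) (l 170355797927)) (l 3)) (b (a (l 153175926423) (l 16751712)) (a (l 202568056743) (l 176798250119)))) (l 3)))))) (b (a (a (a (l 16700984) (l 16719328)) (l 16694408)) (c (l 16706992) (l 16707896))) (a (b (a (c (l 16730136) (l 16729416)) (l 16723216)) (c (a (b (a (l 151028436407) (l 16749304)) (a (l 186461929159) (b (l 161228992135) (l 201494317031)))) (b (l 16745296) (a (b (l 16751656) (l 166060831479)) (l 16750656)))) (a (b (a (l 149954692647) (l 16748264)) (a (l 189146291607) (l 175187633111))) (b (l 16744400) (a (l 156934017015)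 (l 16749536)))))) (b (a (l 16729728) (l 16724416)) (a (c (b (l 16739888) (l 16746608)) (l 16731968)) (b (l 16734248) (l 16740816))))))), by decide +kernel⟩

def k71_pp_012_a : ∃ t, chk3 f_pp_012_a t 60 29 1 = true :=
  ⟨(a (l 3) (b (a (b (a (l 3) (b (a (b (l 207936765863) (l 3)) (b (c (l 170892670935) (l 170892668647)) (l 200420583063))) (l 3))) (l 3)) (a (b (a (b (c (l 164987084999) (l 164987083079)) (l 3)) (a (b (l 16746800) (l 193978111783)) (b (l 16750712) (l 189146281319)))) (l 3)) (b (c (b (l 16747896) (a (l 173040151175) (l 16748040))) (b (l 16746880) (a (l 172503278183) (l 16752008)))) (b (a (l 3) (b (l 203104926823) (l 3))) (l 3))))) (l 3))), by decide +kernel⟩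

def k72_pp_012_a : ∃ t, chk3 f_pp_012_a t 61 14 1 = true :=
  ⟨(b (a (b (a (c (l 16695896) (l 16697696)) (c (l 16684656) (l 16687528))) (a (b (l 16695416) (a (l 16732208) (l 16726880))) (c (l 16690800) (l 16691992)))) (c (b (l 143009938147836031) (a (l 16679696) (l 16668704))) (b (l 143003753404809279) (a (l 16681952) (l 16672192))))) (a (b (a (b (a (b (l 16742072) (a (l 16739528) (l 16747368))) (b (l 16736768) (l 16732912))) (a (b (a (b (l 162302732407) (l 208473637351)) (c (l 160155246343) (l 159618373719))) (a (l 3) (l 200957447959))) (b (a (l 16740896) (l 16748752)) (a (b (l 173040153175) (l 220284800151)) (c (l 167671441943) (l 167134569015)))))) (b (c (l 16711216) (l 16711184)) (a (b (l 16734320) (c (l 16741616) (l 16740416))) (b (l 16739560) (l 16735792))))) (b (b (a (a (l 3) (a (l 3) (l 209010503799))) (a (a (b (l 185388186935) (l 3)) (c (l 177335121287) (l 176798248071))) (c (l 153175918535) (l 16741888)))) (a (l 3) (a (l 3) (c (a (l 192367505847) (l 187535671639)) (l 200420569927)))))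 (l 3))) (a (b (b (c (l 16721256) (l 16722136)) (a (l 16716744) (l 16711552))) (b (a (b (l 16737328) (a (c (l 16746064) (l 16755152)) (l 16742792))) (c (l 16725400) (l 16724712))) (b (a (a (b (l 213305480359) (l 3)) (b (l 177335124183) (l 220821674631))) (a (c (l 171429542183) (l 16746224)) (l 16744416))) (a (l 3) (a (l 207399906295) (b (l 185925061623) (l 235317192647))))))) (b (c (b (l 16710376) (l 16703344)) (b (l 16712360) (l 16704336))) (b (c (c (l 16717336) (l 16717344)) (a (l 16740768) (l 16735904))) (a (b (c (l 16751504) (l 16750568)) (a (c (l 177335125479) (l 151565319399)) (l 16748696))) (c (b (l 16746160) (l 16753192)) (l 16738496)))))))), by decide +kernel⟩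

def k73_pp_012_a : ∃ t, chk3 f_pp_012_a t 30 15 1 = true :=
  ⟨(b (a (l 3) (b (a (l 3) (a (l 3) (b (b (a (a (l 217600446247) (b (l 204715547095) (l 3))) (a (b (l 16748616) (l 212231741479)) (c (l 16748416) (l 16757584)))) (a (l 3) (b (a (l 3) (l 219211064983)) (l 3)))) (l 3)))) (l 3))) (l 3)), by decide +kernel⟩

def k74_pp_012_a : ∃ t, chk3 f_pp_012_a t 31 14 1 = true :=
  ⟨(a (b (a (b (b (l 142251412512440575) (l 142476949861892351)) (a (c (b (l 16671792) (l 16685632)) (l 16662704)) (l 142800000109183231))) (b (b (l 142061265677418623) (l 142215334770884735)) (b (c (l 16622208) (l 16631944)) (c (l 142849134550007935) (l 142668814660206719))))) (a (b (a (c (b (l 16699552) (l 16692560)) (b (l 16702816) (l 16694744))) (c (b (l 16688280) (l 16702264)) (l 143141123650535679))) (a (b (c (a (l 16730288) (l 16724832)) (a (l 16731120) (l 16726248))) (a (c (l 16723384) (l 16723184)) (a (l 16719424) (l 16716768)))) (c (b (a (l 16719176) (l 16713384)) (c (l 16709080) (l 16709656))) (b (l 16697640)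 (c (l 16710248) (l 16710848)))))) (b (b (c (l 142948983978131583) (l 142790929196040319)) (c (l 143050070313959551) (l 142914349359071359))) (a (b (l 143182561509245055) (a (c (l 16721528) (l 16723608)) (l 143429814250995839))) (b (l 142997706137927807) (b (l 143265231081095295) (l 143322886735806591))))))) (b (c (a (b (l 16560192) (b (l 16622632) (l 16615424))) (b (l 16564480) (a (l 16616744) (l 16609144)))) (a (b (l 16597656) (b (l 16636776) (l 16648984))) (b (l 16607704) (a (l 16634064) (l 16629416))))) (a (a (b (b (l 16638952) (l 142698707648266367)) (b (c (l 16661680) (l 16689656)) (c (l 143167511967596671) (l 143049451918082175)))) (b (b (l 16630792) (c (l 16659456) (l 16670120))) (b (c (l 16673664) (l 16682832)) (c (l 16667288) (l 16675024))))) (b (a (b (l 16623688) (c (l 16651448) (l 16664648))) (b (l 16618016) (c (l 16644696) (l 16660744)))) (a (b (c (l 16665976) (l 16677632)) (c (l 16660160) (l 16691352))) (b (a (l 16647080) (l 16645048)) (a (l 16661744) (l 16659880)))))))), by decide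 +kernel⟩

def k75_pp_012_a : ∃ t, chk3 f_pp_012_a t 124 30 1 = true :=
  ⟨(b (a (b (b (a (c (l 16744424) (l 16753952)) (l 16738744)) (a (a (b (l 164987097831) (l 226727259399)) (c (l 148880968455) (l 16748784))) (c (l 16746024) (l 16745040)))) (a (b (b (a (l 3) (l 234243453783)) (l 3)) (l 3)) (b (b (a (c (l 16757896) (l 16761664)) (l 16749280)) (a (l 241759648055) (c (l 179482620711) (l 16757112)))) (a (l 3) (b (a (l 3) (l 244980875703)) (l 3)))))) (a (b (c (l 16736832) (l 16736616)) (b (a (c (l 16748816) (l 16758144)) (l 16750696)) (b (a (c (l 184851330951) (l 185925070391)) (c (l 16761704) (l 16760384))) (a (a (l 3) (l 231022233271)) (c (l 177335139559) (l 178408878951)))))) (b (b (l 16727760) (a (l 16746392) (l 16743552))) (a (b (l 16753144) (c (l 16755384) (l 16748936))) (b (l 16750352) (c (l 16757776) (l 16756832))))))) (a (l 3) (b (b (a (a (l 3) (b (l 212231752727) (l 3))) (a (b (c (l 176798269959) (l 170355816599)) (l 245517750423)) (b (c (l 16763328) (l 16762000)) (c (l 173577046711)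 (l 173577044007))))) (l 3)) (l 3)))), by decide +kernel⟩

def k76_pp_012_a : ∃ t, chk3 f_pp_012_a t 125 30 1 = true :=
  ⟨(a (b (b (a (c (b (l 16731984) (l 16739040)) (l 16723288)) (c (l 16713928) (l 16720664))) (a (c (b (l 16746184) (l 16732568)) (b (l 16746192) (l 16742520))) (b (c (l 16740496) (l 16741112)) (c (l 16747976) (l 16748048))))) (b (a (b (c (a (l 16751960) (l 16738720)) (a (l 16750776) (l 16737824))) (a (b (c (l 176261403367) (l 62444767415)) (l 3)) (b (c (l 16744472) (l 16764184)) (c (l 178408889463) (l 57076060695))))) (a (b (a (l 16746824) (l 16745544)) (c (l 16756832) (c (l 16753392) (l 16752840)))) (b (l 602379436151874436116095) (c (l 16751552) (l 16756008))))) (a (l 3) (b (a (a (l 197199373335) (b (l 59760417751) (l 3))) (b (c (l 16757424) (l 16761528)) (a (l 198273118903) (c (l 16760592) (l 16759360))))) (l 3))))) (b (b (b (l 143379923915423871) (l 143434899468255359)) (b (l 143488294516441215) (a (c (l 16742640) (l 16743384)) (l 143671775572754559)))) (b (b (a (b (l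 601413576188671670955647) (l 601869844882091297648255)) (l 143542445532921983)) (a (b (l 602421806060530731626111) (a (l 602774456263852186705471) (l 16753512))) (a (l 601934120284904033726079) (l 601212391372854925078143)))) (b (b (a (a (c (l 16754840) (l 16754016)) (l 602903150815985735741055)) (a (l 602430453021980509630079) (l 16752920))) (a (c (a (l 16764008) (l 16756280)) (a (l 16762952) (l 16760792))) (a (l 603028242830228022914687) (l 602349460269789207604863)))) (a (a (b (a (l 3) (c (l 16767200) (l 16760824))) (l 3)) (b (c (l 16766112) (c (l 16759504) (l 16759016))) (a (l 3) (b (l 16767240) (l 3))))) (b (a (c (l 16763048) (l 16763728)) (l 603152470123448925630079)) (c (a (c (l 16761888) (l 16761472)) (l 16764544)) (a (c (l 16761056) (l 16765872)) (c (l 16758920) (l 16758656)))))))))), by decide +kernel⟩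

def k77_pp_012_a : ∃ t, chk3 f_pp_012_a t 62 31 1 = true :=
  ⟨(b (a (l 3) (b (a (l 3) (b (a (l 3) (a (b (a (l 3) (c (l 16770288) (l 16767616))) (l 3)) (b (c (c (l 16766648) (l 16767024)) (c (l 16767408) (l 16767392))) (l 6)))) (l 3))) (l 3))) (l 3)), by decide +kernel⟩

def k78_pp_012_a : ∃ t, chk3 f_pp_012_a t 63 15 1 = true :=
  ⟨(b (a (a (b (b (c (l 143262138717126783) (l 143168267920736383)) (a (l 143409885587783807) (b (l 16701960) (l 143283785390751871)))) (b (b (c (l 143415314443403391) (l 143361850695155839)) (c (l 143549867194826879) (l 143507879598030975))) (b (c (c (l 143694315571724415) (l 143676448508936319)) (b (l 143640233321349247) (l 143624290410037375))) (a (b (a (l 603022189942575934762623) (l 143734172904980607)) (a (l 603281020847229494881919) (l 602932262041164787003007))) (c (l 143682633250832511) (l 143658993752932479)))))) (a (b (b (c (l 16705416) (l 16711272)) (c (l 16699968) (l 16704592))) (b (b (c (l 16732680) (l 16736408)) (c (l 16740432) (l 16743568))) (b (c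 (l 16737504) (l 16740032)) (l 6)))) (b (b (c (l 16701672) (l 16708672)) (c (l 16696328) (l 16702064))) (b (b (c (l 16728904) (l 16733704)) (a (l 16718448) (l 16716784))) (l 6))))) (b (b (a (c (a (l 16698240) (l 16695136)) (a (l 16706456) (l 16704664))) (a (l 16676640) (l 16674616))) (b (a (a (l 16692568) (l 16690000)) (a (l 16687632) (l 16685384))) (a (c (l 16695016) (l 16702208)) (l 6)))) (a (a (b (b (l 16707296) (l 6)) (l 6)) (l 6)) (l 6)))) (b (l 6) (l 6))), by decide +kernel⟩

theorem s79_pp_012_a : ∃ t, chk3 f_pp_012_a t 62 30 1 = true := ex3_a k75_pp_012_a k76_pp_012_a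

theorem s80_pp_012_a : ∃ t, chk3 f_pp_012_a t 62 15 1 = true := ex3_b s79_pp_012_a k77_pp_012_a

theorem s81_pp_012_a : ∃ t, chk3 f_pp_012_a t 31 15 1 = true := ex3_a s80_pp_012_a k78_pp_012_a

theorem s82_pp_012_a : ∃ t, chk3 f_pp_012_a t 31 7 1 = true := ex3_b k74_pp_012_a s81_pp_012_a

theorem s83_pp_012_a : ∃ t, chk3 f_pp_012_a t 60 14 1 = true := ex3_b k70_pp_012_a k71_pp_012_a

theorem s84_pp_012_a : ∃ t, chk3 f_pp_012_a t 30 14 1 = true := ex3_a s83_pp_012_a k72_pp_012_a

theorem s85_pp_012_a : ∃ t, chk3 f_pp_012_a t 30 7 1 = true := ex3_b s84_pp_012_a k73_pp_012_a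

theorem s86_pp_012_a : ∃ t, chk3 f_pp_012_a t 15 7 1 = true := ex3_a s85_pp_012_a s82_pp_012_a

theorem s87_pp_012_a : ∃ t, chk3 f_pp_012_a t 15 3 1 = true := ex3_b k69_pp_012_a s86_pp_012_a

theorem s88_pp_012_a : ∃ t, chk3 f_pp_012_a t 29 13 1 = true := ex3_a k66_pp_012_a k67_pp_012_a

theorem s89_pp_012_a : ∃ t, chk3 f_pp_012_a t 29 6 1 = true := ex3_b k65_pp_012_a s88_pp_012_a

theorem s90_pp_012_a : ∃ t, chk3 f_pp_012_a t 28 12 1 = true := ex3_a k62_pp_012_a k63_pp_012_a

theorem s91_pp_012_a : ∃ t, chk3 f_pp_012_a t 28 6 1 = true := ex3_b s90_pp_012_a k64_pp_012_a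

theorem s92_pp_012_a : ∃ t, chk3 f_pp_012_a t 14 6 1 = true := ex3_a s91_pp_012_a s89_pp_012_a

theorem s93_pp_012_a : ∃ t, chk3 f_pp_012_a t 14 3 1 = true := ex3_b s92_pp_012_a k68_pp_012_a

theorem s94_pp_012_a : ∃ t, chk3 f_pp_012_a t 7 3 1 = true := ex3_a s93_pp_012_a s87_pp_012_a

theorem s95_pp_012_a : ∃ t, chk3 f_pp_012_a t 31 5 1 = true := ex3_a k60_pp_012_a k61_pp_012_a

theorem s96_pp_012_a : ∃ t, chk3 f_pp_012_a t 15 5 1 = true := ex3_a k59_pp_012_a s95_pp_012_a

theorem s97_pp_012_a : ∃ t, chk3 f_pp_012_a t 15 2 1 = true := ex3_b k58_pp_012_a s96_pp_012_a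

theorem s98_pp_012_a : ∃ t, chk3 f_pp_012_a t 7 2 1 = true := ex3_a k57_pp_012_a s97_pp_012_a

theorem s99_pp_012_a : ∃ t, chk3 f_pp_012_a t 7 1 1 = true := ex3_b s98_pp_012_a s94_pp_012_a

theorem s100_pp_012_a : ∃ t, chk3 f_pp_012_a t 55 12 1 = true := ex3_a k53_pp_012_a k54_pp_012_a

theorem s101_pp_012_a : ∃ t, chk3 f_pp_012_a t 27 12 1 = true := ex3_a k52_pp_012_a s100_pp_012_a

theorem s102_pp_012_a : ∃ t, chk3 f_pp_012_a t 27 6 1 = true := ex3_b s101_pp_012_a k55_pp_012_a

theorem s103_pp_012_a : ∃ t, chk3 f_pp_012_a t 13 6 1 = true := ex3_a k51_pp_012_a s102_pp_012_a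

theorem s104_pp_012_a : ∃ t, chk3 f_pp_012_a t 6 6 1 = true := ex3_a k50_pp_012_a s103_pp_012_a

theorem s105_pp_012_a : ∃ t, chk3 f_pp_012_a t 6 3 1 = true := ex3_b s104_pp_012_a k56_pp_012_a

theorem s106_pp_012_a : ∃ t, chk3 f_pp_012_a t 54 23 1 = true := ex3_a k47_pp_012_a k48_pp_012_a

theorem s107_pp_012_a : ∃ t, chk3 f_pp_012_a t 54 11 1 = true := ex3_b k46_pp_012_a s106_pp_012_a

theorem s108_pp_012_a : ∃ t, chk3 f_pp_012_a t 27 11 1 = true := ex3_a s107_pp_012_a k49_pp_012_a

theorem s109_pp_012_a : ∃ t, chk3 f_pp_012_a t 53 46 1 = true := ex3_a k43_pp_012_a k44_pp_012_a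

theorem s110_pp_012_a : ∃ t, chk3 f_pp_012_a t 53 23 1 = true := ex3_b s109_pp_012_a k45_pp_012_a

theorem s111_pp_012_a : ∃ t, chk3 f_pp_012_a t 53 11 1 = true := ex3_b k42_pp_012_a s110_pp_012_a

theorem s112_pp_012_a : ∃ t, chk3 f_pp_012_a t 52 22 1 = true := ex3_a k39_pp_012_a k40_pp_012_a

theorem s113_pp_012_a : ∃ t, chk3 f_pp_012_a t 52 11 1 = true := ex3_b s112_pp_012_a k41_pp_012_a

theorem s114_pp_012_a : ∃ t, chk3 f_pp_012_a t 26 11 1 = true := ex3_a s113_pp_012_a s111_pp_012_a

theorem s115_pp_012_a : ∃ t, chk3 f_pp_012_a t 13 11 1 = true := ex3_a s114_pp_012_a s108_pp_012_a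

theorem s116_pp_012_a : ∃ t, chk3 f_pp_012_a t 13 5 1 = true := ex3_b k38_pp_012_a s115_pp_012_a

theorem s117_pp_012_a : ∃ t, chk3 f_pp_012_a t 13 2 1 = true := ex3_b k37_pp_012_a s116_pp_012_a

theorem s118_pp_012_a : ∃ t, chk3 f_pp_012_a t 25 21 1 = true := ex3_b k34_pp_012_a k35_pp_012_a

theorem s119_pp_012_a : ∃ t, chk3 f_pp_012_a t 25 20 1 = true := ex3_c k32_pp_012_a k33_pp_012_a

theorem s120_pp_012_a : ∃ t, chk3 f_pp_012_a t 25 10 1 = true := ex3_b s119_pp_012_a s118_pp_012_a

theorem s121_pp_012_a : ∃ t, chk3 f_pp_012_a t 25 5 1 = true := ex3_b s120_pp_012_a k36_pp_012_a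

theorem s122_pp_012_a : ∃ t, chk3 f_pp_012_a t 12 5 1 = true := ex3_a k31_pp_012_a s121_pp_012_a

theorem s123_pp_012_a : ∃ t, chk3 f_pp_012_a t 48 19 1 = true := ex3_a k27_pp_012_a k28_pp_012_a

theorem s124_pp_012_a : ∃ t, chk3 f_pp_012_a t 48 9 1 = true := ex3_b k26_pp_012_a s123_pp_012_a

theorem s125_pp_012_a : ∃ t, chk3 f_pp_012_a t 24 9 1 = true := ex3_a s124_pp_012_a k29_pp_012_a

theorem s126_pp_012_a : ∃ t, chk3 f_pp_012_a t 24 4 1 = true := ex3_b k25_pp_012_a s125_pp_012_a

theorem s127_pp_012_a : ∃ t, chk3 f_pp_012_a t 12 4 1 = true := ex3_a s126_pp_012_a k30_pp_012_a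

theorem s128_pp_012_a : ∃ t, chk3 f_pp_012_a t 12 2 1 = true := ex3_b s127_pp_012_a s122_pp_012_a

theorem s129_pp_012_a : ∃ t, chk3 f_pp_012_a t 6 2 1 = true := ex3_a s128_pp_012_a s117_pp_012_a

theorem s130_pp_012_a : ∃ t, chk3 f_pp_012_a t 6 1 1 = true := ex3_b s129_pp_012_a s105_pp_012_a

theorem s131_pp_012_a : ∃ t, chk3 f_pp_012_a t 3 1 1 = true := ex3_a s130_pp_012_a s99_pp_012_a

theorem s132_pp_012_a : ∃ t, chk3 f_pp_012_a t 47 18 1 = true := ex3_a k20_pp_012_a k21_pp_012_a

theorem s133_pp_012_a : ∃ t, chk3 f_pp_012_a t 47 9 1 = true := ex3_b s132_pp_012_a k22_pp_012_a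

theorem s134_pp_012_a : ∃ t, chk3 f_pp_012_a t 23 9 1 = true := ex3_a k19_pp_012_a s133_pp_012_a

theorem s135_pp_012_a : ∃ t, chk3 f_pp_012_a t 23 8 1 = true := ex3_c k17_pp_012_a k18_pp_012_a

theorem s136_pp_012_a : ∃ t, chk3 f_pp_012_a t 23 4 1 = true := ex3_b s135_pp_012_a s134_pp_012_a

theorem s137_pp_012_a : ∃ t, chk3 f_pp_012_a t 91 8 1 = true := ex3_b k14_pp_012_a k15_pp_012_a

theorem s138_pp_012_a : ∃ t, chk3 f_pp_012_a t 90 8 1 = true := ex3_b k12_pp_012_a k13_pp_012_a

theorem s139_pp_012_a : ∃ t, chk3 f_pp_012_a t 45 8 1 = true := ex3_a s138_pp_012_a s137_pp_012_a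

theorem s140_pp_012_a : ∃ t, chk3 f_pp_012_a t 44 16 1 = true := ex3_a k9_pp_012_a k10_pp_012_a

theorem s141_pp_012_a : ∃ t, chk3 f_pp_012_a t 44 8 1 = true := ex3_b s140_pp_012_a k11_pp_012_a

theorem s142_pp_012_a : ∃ t, chk3 f_pp_012_a t 22 8 1 = true := ex3_a s141_pp_012_a s139_pp_012_a

theorem s143_pp_012_a : ∃ t, chk3 f_pp_012_a t 22 4 1 = true := ex3_b s142_pp_012_a k16_pp_012_a

theorem s144_pp_012_a : ∃ t, chk3 f_pp_012_a t 11 4 1 = true := ex3_a s143_pp_012_a s136_pp_012_a

theorem s145_pp_012_a : ∃ t, chk3 f_pp_012_a t 11 2 1 = true := ex3_b s144_pp_012_a k23_pp_012_a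

theorem s146_pp_012_a : ∃ t, chk3 f_pp_012_a t 43 32 1 = true := ex3_a k3_pp_012_a k4_pp_012_a

theorem s147_pp_012_a : ∃ t, chk3 f_pp_012_a t 43 16 1 = true := ex3_b s146_pp_012_a k5_pp_012_a

theorem s148_pp_012_a : ∃ t, chk3 f_pp_012_a t 43 8 1 = true := ex3_b s147_pp_012_a k6_pp_012_a

theorem s149_pp_012_a : ∃ t, chk3 f_pp_012_a t 21 8 1 = true := ex3_a k2_pp_012_a s148_pp_012_a

theorem s150_pp_012_a : ∃ t, chk3 f_pp_012_a t 10 8 1 = true := ex3_a k1_pp_012_a s149_pp_012_a

theorem s151_pp_012_a : ∃ t, chk3 f_pp_012_a t 10 4 1 = true := ex3_b s150_pp_012_a k7_pp_012_a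

theorem s152_pp_012_a : ∃ t, chk3 f_pp_012_a t 10 2 1 = true := ex3_b s151_pp_012_a k8_pp_012_a

theorem s153_pp_012_a : ∃ t, chk3 f_pp_012_a t 5 2 1 = true := ex3_a s152_pp_012_a s145_pp_012_a

theorem s154_pp_012_a : ∃ t, chk3 f_pp_012_a t 5 1 1 = true := ex3_b s153_pp_012_a k24_pp_012_a

theorem s155_pp_012_a : ∃ t, chk3 f_pp_012_a t 2 1 1 = true := ex3_a k0_pp_012_a s154_pp_012_a

theorem s156_pp_012_a : ∃ t, chk3 f_pp_012_a t 1 1 1 = true := ex3_a s155_pp_012_a s131_pp_012_a

theorem c_pp_012_a : CertB 0 536870912 0 536870912 1020054732 13421774 3 eng mog cd0q0 cd1q2a pd1 false true true .pnp 0 1 2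
    ndB0q0 ndB1q2a pcB1 cut_pp_012_a xt_pp_012_a :=
  certB2 (fam := false) (s1 := true) (s2 := true) (a := 0) (b := 1) (c := 2) (cn := .pnp) (n1 := ndB0q0) (n2 := ndB1q2a) (pc := pcB1) (cut := cut_pp_012_a) (xt := xt_pp_012_a) (P1 := 0) (W1 := 536870912) (P2 := 0) (W2 := 536870912) (P3 := 1020054732) (W3 := 13421774) (N0 := 3) (En := eng) (mo := mog) (C1 := cd0q0) (C2 := cd1q2a) (C3 := pd1)
    rfl (fun _ => rfl) s156_pp_012_a

noncomputable def cut_pp_012_b : Cut := Cut.of [[⟨0, 0, 0, 38347922⟩, ⟨1, 1, 0, 38347922⟩, ⟨2, 1, 0, 38347922⟩]]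

noncomputable def f_pp_012_b : ℕ → ℕ → ℕ → ℕ → Bool := onCell 536870912 536870912 1239849684 370763052 1020054732 13421774
    (rowB 3 eng mog cd0q0 cd1q2b pd1 2 false true true .pnp 0 1 2 (qsf 0 536870912 1239849684 370763052 1) ndB0q0 ndB1q2b pcB1 cut_pp_012_b Ext.none)

def k0_pp_012_b : ∃ t, chk3 f_pp_012_b t 4 2 1 = true :=
  ⟨(l 2), by decide +kernel⟩

def k1_pp_012_b : ∃ t, chk3 f_pp_012_b t 10 2 1 = true :=
  ⟨(b (b (a (l 3) (a (l 3) (b (a (a (b (a (l 3) (a (l 3) (b (b (c (a (l 16765552) (l 16760504)) (b (l 83382736535) (l 16764232))) (l 3)) (l 3)))) (l 3)) (c (b (b (a (b (c (l 16756920) (l 16755776)) (a (l 16761144) (l 16761784))) (c (l 16756576) (l 16754296))) (a (l 130627342583) (b (l 16757688) (l 16752424)))) (a (l 3) (l 16730360))) (b (b (a (b (a (l 16759560) (l 16753728)) (a (l 16760664) (l 16760176))) (c (l 16751976) (l 16749616))) (a (l 129016730999) (l 16742712))) (l 140827851079)))) (b (c (a (b (a (b (l 16759832) (l 16743936)) (l 16753416)) (b (l 16739320) (l 16733896)))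 (b (c (l 16745168) (l 16746592)) (l 16739616))) (a (b (c (a (l 16740960) (l 16740336)) (a (l 16747560) (l 16734952))) (a (l 16751984) (l 16729656))) (b (c (l 16749704) (a (l 16732768) (l 16730512))) (a (l 16728224) (l 16726704))))) (a (c (a (b (l 16746016) (l 16736280)) (l 16721312)) (a (l 16729352) (l 16717776))) (c (l 16723568) (b (l 16740544) (l 16732736)))))) (a (l 3) (b (a (l 139217196375) (c (l 16702888) (l 16720928))) (l 241155514999)))))) (l 2)) (l 2)), by decide +kernel⟩

def k2_pp_012_b : ∃ t, chk3 f_pp_012_b t 22 4 1 = true :=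
  ⟨(b (a (b (a (b (c (a (c (l 16742288) (l 16742600)) (c (l 16737096) (l 16742704))) (a (b (c (l 16737416) (l 16727016)) (l 16724288)) (b (c (l 16735256) (l 16722128)) (l 16720784)))) (c (a (l 16726248) (l 16728368)) (a (l 16712512) (l 16709032)))) (c (b (a (b (l 16733296) (l 16737864)) (l 16731528)) (b (l 16714600) (l 16725408))) (c (b (a (l 16728472) (l 16725624)) (l 16710152)) (b (a (l 16713328) (l 16707928)) (l 16696232))))) (c (a (b (l 16695960) (l 16675576)) (b (l 16710112) (l 16710776))) (a (b (a (l 16718072) (l 16714640)) (l 16680184)) (b (l 16687896) (l 16693912))))) (b (a (c (b (c (l 16720752) (l 16730792)) (l 16710520)) (b (c (l 16710208) (a (l 16702264) (l 16696352))) (c (l 16703832) (l 16684824)))) (c (b (a (l 16720656) (l 16717512)) (l 16706344)) (b (c (l 16712904) (l 16666056)) (a (l 16686904) (l 16681552))))) (c (a (b (l 16690624) (l 16691736)) (l 16659280)) (a (b (l 16679064) (l 16685136)) (b (l 16668952) (l 16675040)))))) (b (a (a (l 2) (c (l 96200277591) (l 16630040))) (c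 (a (l 16662272) (l 16662664)) (a (l 16642560) (l 16632544)))) (l 2))), by decide +kernel⟩

def k3_pp_012_b : ∃ t, chk3 f_pp_012_b t 23 4 1 = true :=
  ⟨(c (b (a (b (a (a (l 16697752) (l 16695016)) (a (l 16692512) (l 16690256))) (a (l 16656736) (l 16673120))) (b (a (l 16666328) (l 16684232)) (b (l 16650832) (l 16632208)))) (a (b (a (l 16660832) (l 16656832)) (l 16601568)) (b (a (l 16650704) (l 16642496)) (l 16590584)))) (b (b (b (a (c (a (l 16703736) (l 16714192)) (a (l 16673720) (l 16659440))) (a (l 16620952) (l 16627296))) (a (a (l 16651984) (l 16639472)) (a (l 16625784) (l 16631936)))) (a (a (b (l 16657584) (l 16663640)) (l 16595552)) (a (l 16602664) (l 16587616)))) (a (b (a (l 16621176) (l 16629456)) (l 16566720)) (b (a (l 16615464) (l 16600216)) (l 16538736))))), by decide +kernel⟩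

def k4_pp_012_b : ∃ t, chk3 f_pp_012_b t 11 5 1 = true :=
  ⟨(a (l 2) (b (a (l 2) (b (a (l 16582176) (l 16550072)) (l 2))) (l 2))), by decide +kernel⟩

def k5_pp_012_b : ∃ t, chk3 f_pp_012_b t 2 3 1 = true :=
  ⟨(l 2), by decide +kernel⟩

def k6_pp_012_b : ∃ t, chk3 f_pp_012_b t 6 1 1 = true :=
  ⟨(b (a (b (a (b (a (c (b (b (l 16657392) (l 16648688)) (c (l 16702568) (l 16664128))) (a (b (l 16582344) (l 16592392)) (b (l 16565488) (l 16575088)))) (c (b (l 16609216) (l 16613104)) (b (a (l 16568616) (l 16570808)) (l 16484312)))) (c (a (b (a (l 16632248) (l 16620016)) (l 16591920)) (b (l 16577128) (l 16564048))) (a (b (l 16512192) (l 16526480)) (b (l 16495656) (l 16509344))))) (b (b (c (a (l 16616216) (l 16616976)) (a (l 16499128) (l 16498664))) (a (c (l 16598608) (l 16485672)) (l 16405184))) (a (c (l 16461528) (b (l 16495936) (l 16466808))) (b (l 16391264) (l 16379944))))) (a (b (a (b (a (l 16537128) (l 16522424)) (l 16439128)) (b (l 16392376) (l 16427744))) (l 2)) (b (a (b (l 16395112) (l 16409584))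 (b (l 16391984) (l 16385240))) (a (b (l 16425816) (l 2)) (l 16221704))))) (b (a (a (b (a (l 16389304) (b (l 16428784) (l 16429152))) (b (l 16384728) (l 16393376))) (b (b (l 16386752) (a (l 16429032) (l 16436008))) (a (l 16307848) (l 16285424)))) (b (c (b (l 16424416) (l 16414456)) (a (l 16420440) (l 16419832))) (a (a (l 16311120) (l 16342296)) (l 16309024)))) (a (b (a (l 16222744) (l 16251488)) (a (l 16254328) (l 16260744))) (b (a (a (l 16272944) (l 16252352)) (l 16234656)) (a (l 16116048) (l 16089048)))))) (a (l 2) (b (a (b (a (l 16272464) (l 16215432)) (l 2)) (b (a (l 16153400) (l 16089560)) (l 204646670071))) (l 2)))), by decide +kernel⟩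

def k7_pp_012_b : ∃ t, chk3 f_pp_012_b t 7 1 1 = true :=
  ⟨(a (b (b (a (b (a (l 16326512) (l 16309576)) (a (l 16320376) (l 16318824))) (b (a (b (l 16459048) (l 16415824)) (a (l 16420256) (l 16411728))) (a (l 16325496) (l 16340576)))) (a (b (a (l 16219816) (l 16213096)) (a (l 16127904) (l 16116424))) (b (a (l 16214640) (l 16224616)) (l 16094264)))) (b (a (b (a (l 16045272) (l 16027040)) (a (l 15982608) (l 15944528))) (b (l 16019440) (l 15929792))) (a (l 2) (b (l 15848776) (l 2))))) (b (b (a (b (a (b (l 16511824) (l 16420888)) (b (l 16530328) (l 16499400))) (a (l 16343264) (l 16333744))) (b (a (b (l 16490200) (l 16544952)) (b (l 16413800) (l 16525368))) (b (l 16309360) (l 16344080)))) (a (b (l 16151344) (l 16122264)) (b (a (l 16306752) (l 16352104)) (l 16122744)))) (b (a (b (l 16039112) (l 15942048)) (b (l 16094256) (l 15989936))) (a (b (l 15850288) (l 15762144)) (b (l 15891912) (l 15798448)))))), by decide +kernel⟩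

theorem s8_pp_012_b : ∃ t, chk3 f_pp_012_b t 3 1 1 = true := ex3_a k6_pp_012_b k7_pp_012_b

theorem s9_pp_012_b : ∃ t, chk3 f_pp_012_b t 11 4 1 = true := ex3_a k2_pp_012_b k3_pp_012_b

theorem s10_pp_012_b : ∃ t, chk3 f_pp_012_b t 11 2 1 = true := ex3_b s9_pp_012_b k4_pp_012_b

theorem s11_pp_012_b : ∃ t, chk3 f_pp_012_b t 5 2 1 = true := ex3_a k1_pp_012_b s10_pp_012_b

theorem s12_pp_012_b : ∃ t, chk3 f_pp_012_b t 2 2 1 = true := ex3_a k0_pp_012_b s11_pp_012_b

theorem s13_pp_012_b : ∃ t, chk3 f_pp_012_b t 2 1 1 = true := ex3_b s12_pp_012_b k5_pp_012_b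

theorem s14_pp_012_b : ∃ t, chk3 f_pp_012_b t 1 1 1 = true := ex3_a s13_pp_012_b s8_pp_012_b

theorem c_pp_012_b : CertB 0 536870912 1239849684 370763052 1020054732 13421774 3 eng mog cd0q0 cd1q2b pd1 false true true .pnp 0 1 2
    ndB0q0 ndB1q2b pcB1 cut_pp_012_b Ext.none :=
  certB2 (fam := false) (s1 := true) (s2 := true) (a := 0) (b := 1) (c := 2) (cn := .pnp) (n1 := ndB0q0) (n2 := ndB1q2b) (pc := pcB1) (cut := cut_pp_012_b) (xt := Ext.none) (P1 := 0) (W1 := 536870912) (P2 := 1239849684) (W2 := 370763052) (P3 := 1020054732) (W3 := 13421774) (N0 := 3) (En := eng) (mo := mog) (C1 := cd0q0) (C2 := cd1q2b) (C3 := pd1)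
    rfl (fun _ => rfl) s14_pp_012_b

noncomputable def cut_pp_022_a : Cut := Cut.of [[⟨0, 0, 0, 33554432⟩, ⟨1, 1, 0, 33554432⟩, ⟨2, 1, 0, 33554432⟩]]

noncomputable def f_pp_022_a : ℕ → ℕ → ℕ → ℕ → Bool := onCell 1073741824 536870912 0 536870912 1020054732 13421774
    (rowB 3 eng mog cd0q0 cd1q2a pd2 2 false true true .pp 0 2 2 (qsf 0 536870912 0 536870912 2) ndB0q0 ndB1q2a pcB2 cut_pp_022_a Ext.none)

def k0_pp_022_a : ∃ t, chk3 f_pp_022_a t 8 2 1 = true :=
  ⟨(b (a (b (l 16385208) (a (l 16431304) (l 16420752))) (b (l 16349000) (l 16342480))) (a (b (a (l 16458912) (l 16456552)) (a (b (l 16521616) (l 16531280)) (b (l 16525536) (l 16560672)))) (b (a (l 16454184) (l 16473384)) (b (l 16448736) (a (l 16569512) (l 16535456)))))), by decide +kernel⟩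

def k1_pp_022_a : ∃ t, chk3 f_pp_022_a t 8 6 1 = true :=
  ⟨(a (b (b (a (a (l 16581048) (l 16587640)) (l 16576920)) (a (a (l 16592616) (l 16601704)) (l 16573704))) (a (b (a (b (l 16617776) (l 16635232)) (l 16617528)) (a (a (l 16637672) (l 16660920)) (b (l 16662928) (l 16661712)))) (b (a (l 16641576) (l 16576040)) (a (a (l 16642184) (l 16607200)) (c (l 16590624) (l 16578984)))))) (b (a (b (l 16607400) (a (l 16585448) (l 16583272))) (b (l 16526560) (a (l 16538368) (l 16512928)))) (a (b (a (l 16550448) (l 16522208)) (a (b (l 16579944) (l 16570936)) (l 16481544))) (b (a (l 16494736) (l 16487616)) (a (l 16514328) (l 16486448)))))), by decide +kernel⟩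

def k2_pp_022_a : ∃ t, chk3 f_pp_022_a t 16 14 1 = true :=
  ⟨(b (a (b (a (l 16668144) (l 16638528)) (a (l 16667720) (l 16656296))) (b (a (l 16628248) (l 16594976)) (a (l 16621816) (l 16588032)))) (a (b (a (b (l 16666920) (l 16665704)) (a (l 16660544) (l 16642680))) (a (b (a (l 16694272) (l 16675968)) (b (a (l 16693472) (l 16674864)) (a (b (a (l 16697928) (l 16688504)) (l 16673112)) (b (l 16674584) (l 16675216))))) (b (a (l 16657752) (l 16639744)) (b (a (l 16656656) (l 16638896)) (a (b (l 16656408) (l 16656872)) (b (l 16638672) (l 16639000))))))) (b (a (a (l 16625144) (l 16607664)) (l 16561664)) (a (b (a (l 16622296) (l 16605304)) (b (a (l 16621592) (l 16604736)) (a (b (l 16621400) (c (l 16625224) (l 16618000))) (b (l 16604616) (c (l 16609744) (l 16599784)))))) (b (a (l 16588768) (l 16572704)) (b (a (l 16588344) (l 16572424)) (a (b (l 16588304) (c (l 16594752) (l 16582088))) (c (l 16580200) (b (l 16564688) (l 16564896)))))))))), by decide +kernel⟩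

def k3_pp_022_a : ∃ t, chk3 f_pp_022_a t 16 15 1 = true :=
  ⟨(b (b (a (a (a (a (b (l 16680864) (b (l 16705928) (l 16698480))) (b (l 16692160) (c (l 16696304) (l 16698776)))) (a (b (l 16682624) (c (l 16686992) (l 16688616))) (b (l 16673224) (c (l 16677848) (l 16678592))))) (a (b (c (a (l 16664328) (l 16655776)) (l 16658688)) (c (a (l 16668864) (l 16660032)) (a (l 16668704) (l 16658960)))) (a (b (c (l 16647368) (l 16644224)) (c (l 16651360) (l 16649344))) (b (c (l 16639088) (l 16634736)) (c (c (l 16633088) (l 16621128)) (l 16639864)))))) (a (b (c (a (a (l 16609976) (l 16601968)) (b (l 16610560) (l 16611848))) (a (b (l 16619616) (l 16621944)) (b (l 16601384) (l 16603744)))) (b (a (c (l 16629400) (l 16624520)) (c (l 16613352) (l 16606360))) (b (a (a (l 16633120) (l 16624400)) (a (l 16615816) (l 16607384))) (l 6)))) (b (c (a (b (l 16595424) (l 16596544)) (b (l 16580792) (l 16581776))) (a (b (l 16583656) (l 16586064)) (b (l 16566424) (l 16568896)))) (b (a (c (l 16597888) (c (l 16591032) (l 16586400)))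 (c (l 16584624) (c (l 16574488) (l 16568744)))) (a (b (c (l 16599048) (l 16590896)) (l 6)) (a (c (l 16567160) (l 16557856)) (c (l 16570272) (l 16565208)))))))) (a (l 6) (a (l 6) (a (l 6) (a (l 6) (a (l 6) (l 1))))))) (a (l 6) (a (l 6) (l 1)))), by decide +kernel⟩

def k4_pp_022_a : ∃ t, chk3 f_pp_022_a t 17 7 1 = true :=
  ⟨(b (b (a (a (a (l 16545928) (l 16550472)) (l 16464648)) (b (l 16467080) (a (l 16496272) (l 16469712)))) (a (b (a (l 16529936) (l 16500120)) (a (b (a (l 16557112) (l 16541992)) (a (b (l 16556968) (c (l 16566136) (l 16538320))) (b (l 16542000) (a (l 16525008) (l 16517680))))) (a (a (b (l 16530968) (l 390338178983)) (l 290480172439)) (l 226592506343)))) (b (a (l 16451280) (l 16467352)) (a (l 143914301015) (l 1))))) (b (a (b (a (b (c (a (a (l 16549608) (l 16542648)) (a (l 16535816) (l 16529120))) (a (b (l 16549704) (a (l 16556368) (l 16548168))) (a (a (l 16540776) (l 16536768)) (l 16520320)))) (a (b (a (c (l 16551208) (l 16538176)) (c (l 16565144) (l 16530032))) (a (c (l 16552560)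 (l 16541232)) (l 1))) (l 1))) (l 1)) (l 1)) (l 1)) (l 1))), by decide +kernel⟩

def k5_pp_022_a : ∃ t, chk3 f_pp_022_a t 9 1 1 = true :=
  ⟨(b (b (a (a (l 16233200) (b (l 16308456) (l 16361488))) (b (a (l 16294320) (l 16283352)) (a (l 16335400) (b (l 16347152) (l 16394880))))) (a (b (a (b (l 16450120) (l 16492400)) (l 16408752)) (a (b (l 16539072) (l 16529648)) (b (l 16519560) (l 16488536)))) (a (b (l 16411024) (c (l 16445968) (l 16363720))) (b (l 16431248) (l 16375392))))) (b (b (a (a (b (l 16465896) (a (l 16486952) (l 16482696))) (a (b (l 16489224) (l 16459696)) (l 16368696))) (b (a (l 16419080) (l 16411000)) (a (l 16411440) (l 1)))) (a (a (b (l 16385080) (a (l 16460560) (l 16436712))) (b (l 16360992) (a (l 16414952) (l 1)))) (b (a (l 16366424) (l 1)) (l 1)))) (b (a (b (a (a (l 16426072) (l 16424272)) (l 1)) (l 1)) (l 1)) (l 1)))), by decide +kernel⟩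

def k6_pp_022_a : ∃ t, chk3 f_pp_022_a t 5 1 1 = true :=
  ⟨(b (a (b (b (a (l 16238352) (l 1)) (a (a (l 16340304) (l 16322960)) (l 1))) (a (b (l 16290384) (a (l 16377104) (l 1))) (l 1))) (l 1)) (b (l 1) (l 1))), by decide +kernel⟩

def k7_pp_022_a : ∃ t, chk3 f_pp_022_a t 3 1 1 = true :=
  ⟨(l 1), by decide +kernel⟩

theorem s8_pp_022_a : ∃ t, chk3 f_pp_022_a t 16 7 1 = true := ex3_b k2_pp_022_a k3_pp_022_a

theorem s9_pp_022_a : ∃ t, chk3 f_pp_022_a t 8 7 1 = true := ex3_a s8_pp_022_a k4_pp_022_a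

theorem s10_pp_022_a : ∃ t, chk3 f_pp_022_a t 8 3 1 = true := ex3_b k1_pp_022_a s9_pp_022_a

theorem s11_pp_022_a : ∃ t, chk3 f_pp_022_a t 8 1 1 = true := ex3_b k0_pp_022_a s10_pp_022_a

theorem s12_pp_022_a : ∃ t, chk3 f_pp_022_a t 4 1 1 = true := ex3_a s11_pp_022_a k5_pp_022_a

theorem s13_pp_022_a : ∃ t, chk3 f_pp_022_a t 2 1 1 = true := ex3_a s12_pp_022_a k6_pp_022_a

theorem s14_pp_022_a : ∃ t, chk3 f_pp_022_a t 1 1 1 = true := ex3_a s13_pp_022_a k7_pp_022_a

theorem c_pp_022_a : CertB 0 536870912 0 536870912 1020054732 13421774 3 eng mog cd0q0 cd1q2a pd2 false true true .pp 0 2 2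
    ndB0q0 ndB1q2a pcB2 cut_pp_022_a Ext.none :=
  certB2 (fam := false) (s1 := true) (s2 := true) (a := 0) (b := 2) (c := 2) (cn := .pp) (n1 := ndB0q0) (n2 := ndB1q2a) (pc := pcB2) (cut := cut_pp_022_a) (xt := Ext.none) (P1 := 0) (W1 := 536870912) (P2 := 0) (W2 := 536870912) (P3 := 1020054732) (W3 := 13421774) (N0 := 3) (En := eng) (mo := mog) (C1 := cd0q0) (C2 := cd1q2a) (C3 := pd2)
    rfl (fun _ => rfl) s14_pp_022_a

noncomputable def cut_pp_022_b : Cut := Cut.of [[⟨0, 0, 0, 33554432⟩, ⟨1, 1, 0, 33554432⟩, ⟨2, 1, 0, 33554432⟩]]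

noncomputable def f_pp_022_b : ℕ → ℕ → ℕ → ℕ → Bool := onCell 0 536870912 1073741824 536870912 1020054732 13421774
    (rowB 3 eng mog cd0q0 cd1q2b pd2 1 false true true .pp 0 2 2 (qsf 0 536870912 1239849684 370763052 2) ndB0q0 ndB1q2b pcB2 cut_pp_022_b Ext.none)

def k0_pp_022_b : ∃ t, chk3 f_pp_022_b t 1 1 1 = true :=
  ⟨(b (a (a (a (b (b (l 1) (a (b (l 1) (c (l 16261760) (l 16293336))) (b (a (l 1) (l 16314592)) (l 223907200375)))) (b (a (b (l 16105600) (l 16042800)) (b (l 15934048) (l 15919960))) (a (l 15609624) (l 15433736)))) (b (b (b (a (l 1) (b (l 1) (l 16400216))) (a (b (l 1) (l 16361584)) (l 16214520))) (a (b (l 16174296) (l 16117256)) (b (l 16159808) (l 16004528)))) (b (b (l 15737504) (l 15754424)) (b (l 15607104) (l 15463248))))) (b (b (a (b (a (l 16258464) (l 16253328)) (a (l 16205720) (l 16102296))) (b (l 15939400) (l 15965712))) (a (b (l 15814536) (l 15857352)) (b (l 15828200) (l 15694192)))) (a (b (b (l 15715024) (l 15576048)) (l 15373200)) (b (l 15498792) (l 15248760)))))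 (a (b (b (a (b (l 15942904) (l 15813856)) (b (l 15809704) (l 15692992))) (a (l 15626440) (l 15523128))) (b (a (l 15386776) (l 15305344)) (a (l 15157400) (l 15096240)))) (b (a (b (b (l 15702752) (l 15598752)) (l 15446968)) (b (b (l 15617488) (l 15527232)) (l 15395040))) (a (b (l 15251672) (l 2)) (l 2))))) (a (a (b (a (b (a (l 15486112) (l 15385872)) (a (l 15190120) (l 15102288))) (b (l 15253664) (l 14988336))) (a (b (a (l 14913264) (l 14837680)) (a (l 14660408) (l 14599656))) (b (l 14741688) (l 14525816)))) (b (b (a (l 15114520) (l 15010560)) (a (l 14870480) (l 14786128))) (b (a (l 14644664) (l 2)) (l 2)))) (b (a (b (a (l 14938600) (l 2)) (l 2)) (l 2)) (l 2)))), by decide +kernel⟩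

theorem c_pp_022_b : CertB 0 536870912 1239849684 370763052 1020054732 13421774 3 eng mog cd0q0 cd1q2b pd2 false true true .pp 0 2 2
    ndB0q0 ndB1q2b pcB2 cut_pp_022_b Ext.none :=
  certB1 (fam := false) (s1 := true) (s2 := true) (a := 0) (b := 2) (c := 2) (cn := .pp) (n1 := ndB0q0) (n2 := ndB1q2b) (pc := pcB2) (cut := cut_pp_022_b) (xt := Ext.none) (P1 := 0) (W1 := 536870912) (P2 := 1239849684) (W2 := 370763052) (P3 := 1020054732) (W3 := 13421774) (N0 := 3) (En := eng) (mo := mog) (C1 := cd0q0) (C2 := cd1q2b) (C3 := pd2)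
    rfl (fun _ => rfl) k0_pp_022_b

noncomputable def f_pp_023 : ℕ → ℕ → ℕ → ℕ → Bool := onCell 0 536870912 1073741824 536870912 1020054732 13421774
    (rowB 3 eng mog cd0q0 cd1q3 pd2 1 false true true .up 0 2 3 (qsf 0 536870912 1610612736 536870912 2) ndB0q0 ndB1q3 pcB2 Cut.none Ext.none)

def k0_pp_023 : ∃ t, chk3 f_pp_023 t 1 1 1 = true :=
  ⟨(b (a (a (l 1) (b (l 1) (a (l 1) (b (l 1) (l 328595514871))))) (a (b (b (l 1) (a (l 1) (c (l 15550632) (l 150355473335)))) (b (a (c (l 15499024) (l 15584544)) (b (l 15511544) (l 15472760))) (a (l 309267917895) (l 15079536)))) (b (b (a (c (l 287257088807) (b (l 1) (l 15926672))) (b (a (l 144449968071) (l 15716272)) (l 17747678599))) (a (c (l 15490256) (l 15562792)) (b (l 15489184) (l 15488552)))) (b (a (b (l 15500104) (l 15385488)) (b (l 15425440) (l 15320968))) (a (l 15130328) (l 15165200)))))) (a (a (b (a (l 1) (b (l 1) (l 235179463255))) (a (b (a (l 1) (l 14972232)) (a (l 14907408) (l 14662072))) (b (l 232494558855) (b (l 14784088) (l 14668000)))))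 (b (b (a (l 337185185143) (l 315710079847)) (a (l 190618881463) (l 14983920))) (b (a (l 14718688) (l 14737112)) (a (b (l 14661624) (l 14554648)) (l 14519376))))) (b (a (b (a (l 15008264) (l 15049696)) (a (l 14888232) (l 14819432))) (b (a (l 14991856) (l 14964784)) (a (l 14780536) (l 14777728)))) (a (b (a (l 14656848) (l 14605864)) (a (l 14454064) (l 14419448))) (b (a (l 14588768) (l 14613944)) (a (l 14428504) (b (l 14516224) (l 14467224)))))))), by decide +kernel⟩

theorem c_pp_023 : CertB 0 536870912 1610612736 536870912 1020054732 13421774 3 eng mog cd0q0 cd1q3 pd2 false true true .up 0 2 3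
    ndB0q0 ndB1q3 pcB2 Cut.none Ext.none :=
  certB1 (fam := false) (s1 := true) (s2 := true) (a := 0) (b := 2) (c := 3) (cn := .up) (n1 := ndB0q0) (n2 := ndB1q3) (pc := pcB2) (cut := Cut.none) (xt := Ext.none) (P1 := 0) (W1 := 536870912) (P2 := 1610612736) (W2 := 536870912) (P3 := 1020054732) (W3 := 13421774) (N0 := 3) (En := eng) (mo := mog) (C1 := cd0q0) (C2 := cd1q3) (C3 := pd2)
    rfl (fun _ => rfl) k0_pp_023

noncomputable def f_pp_033 : ℕ → ℕ → ℕ → ℕ → Bool := onCell 0 536870912 1610612736 536870912 1020054732 13421774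
    (rowB 3 eng mog cd0q0 cd1q3 pd3 1 false true true .pnn 0 3 3 (qsf 0 536870912 1610612736 536870912 3) ndB0q0 ndB1q3 pcB3 Cut.none Ext.none)

def k0_pp_033 : ∃ t, chk3 f_pp_033 t 1 1 1 = true :=
  ⟨(a (b (b (a (a (b (a (b (l 14813992) (l 14835032)) (l 14942576)) (a (l 14854880) (l 15039112))) (b (l 15077160) (l 15214088))) (b (a (l 15561168) (l 15816288)) (a (l 15591888) (l 15839800)))) (b (a (a (a (l 14871400) (l 15059384)) (l 15321984)) (a (l 15616640) (l 15857952))) (l 4))) (a (l 4) (b (l 4) (a (b (l 4) (l 2)) (l 2))))) (b (a (b (b (l 15897512) (a (l 16040392) (b (l 16194832) (l 16181320)))) (b (a (b (l 16039512) (l 16041448)) (b (l 16190376) (l 16218192))) (l 4))) (b (b (a (b (l 16354424) (l 16325336)) (l 16467832)) (a (l 16096352) (l 16371208))) (a (b (l 16114920) (l 2)) (l 2)))) (a (b (a (b (l 4) (l 2)) (l 2)) (l 2)) (l 2)))), by decide +kernel⟩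

theorem c_pp_033 : CertB 0 536870912 1610612736 536870912 1020054732 13421774 3 eng mog cd0q0 cd1q3 pd3 false true true .pnn 0 3 3
    ndB0q0 ndB1q3 pcB3 Cut.none Ext.none :=
  certB1 (fam := false) (s1 := true) (s2 := true) (a := 0) (b := 3) (c := 3) (cn := .pnn) (n1 := ndB0q0) (n2 := ndB1q3) (pc := pcB3) (cut := Cut.none) (xt := Ext.none) (P1 := 0) (W1 := 536870912) (P2 := 1610612736) (W2 := 536870912) (P3 := 1020054732) (W3 := 13421774) (N0 := 3) (En := eng) (mo := mog) (C1 := cd0q0) (C2 := cd1q3) (C3 := pd3)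
    rfl (fun _ => rfl) k0_pp_033

noncomputable def f_pp_101 : ℕ → ℕ → ℕ → ℕ → Bool := onCell 536870912 536870912 536870912 536870912 1020054732 13421774
    (rowB 3 eng mog cd0q1 cd1q1 pd0 0 false true true .npn 1 0 1 (qsf 536870912 536870912 536870912 536870912 0) ndB0q1 ndB1q1 pcB0 Cut.none Ext.none)

def k0_pp_101 : ∃ t, chk3 f_pp_101 t 1 1 1 = true :=
  ⟨(l 3), by decide +kernel⟩

theorem c_pp_101 : CertB 536870912 536870912 536870912 536870912 1020054732 13421774 3 eng mog cd0q1 cd1q1 pd0 false true true .npn 1 0 1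
    ndB0q1 ndB1q1 pcB0 Cut.none Ext.none :=
  certB0 (fam := false) (s1 := true) (s2 := true) (a := 1) (b := 0) (c := 1) (cn := .npn) (n1 := ndB0q1) (n2 := ndB1q1) (pc := pcB0) (cut := Cut.none) (xt := Ext.none) (P1 := 536870912) (W1 := 536870912) (P2 := 536870912) (W2 := 536870912) (P3 := 1020054732) (W3 := 13421774) (N0 := 3) (En := eng) (mo := mog) (C1 := cd0q1) (C2 := cd1q1) (C3 := pd0)
    rfl k0_pp_101

noncomputable def f_pp_102_a : ℕ → ℕ → ℕ → ℕ → Bool := onCell 0 536870912 0 536870912 1020054732 13421774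
    (rowB 3 eng mog cd0q1 cd1q2a pd0 2 false true true .npp 1 0 2 (qsf 536870912 536870912 0 536870912 0) ndB0q1 ndB1q2a pcB0 Cut.none Ext.none)

def k0_pp_102_a : ∃ t, chk3 f_pp_102_a t 1 1 1 = true :=
  ⟨(a (b (l 3) (l 3)) (l 3)), by decide +kernel⟩

theorem c_pp_102_a : CertB 536870912 536870912 0 536870912 1020054732 13421774 3 eng mog cd0q1 cd1q2a pd0 false true true .npp 1 0 2
    ndB0q1 ndB1q2a pcB0 Cut.none Ext.none :=
  certB2 (fam := false) (s1 := true) (s2 := true) (a := 1) (b := 0) (c := 2) (cn := .npp) (n1 := ndB0q1) (n2 := ndB1q2a) (pc := pcB0) (cut := Cut.none) (xt := Ext.none) (P1 := 536870912) (W1 := 536870912) (P2 := 0) (W2 := 536870912) (P3 := 1020054732) (W3 := 13421774) (N0 := 3) (En := eng) (mo := mog) (C1 := cd0q1) (C2 := cd1q2a) (C3 := pd0)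
    rfl (fun _ => rfl) k0_pp_102_a

noncomputable def f_pp_102_b : ℕ → ℕ → ℕ → ℕ → Bool := onCell 536870912 536870912 0 536870912 1020054732 13421774
    (rowB 3 eng mog cd0q1 cd1q2b pd0 1 false true true .npp 1 0 2 (qsf 536870912 536870912 1239849684 370763052 0) ndB0q1 ndB1q2b pcB0 Cut.none Ext.none)

def k0_pp_102_b : ∃ t, chk3 f_pp_102_b t 1 1 1 = true :=
  ⟨(l 3), by decide +kernel⟩

theorem c_pp_102_b : CertB 536870912 536870912 1239849684 370763052 1020054732 13421774 3 eng mog cd0q1 cd1q2b pd0 false true true .npp 1 0 2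
    ndB0q1 ndB1q2b pcB0 Cut.none Ext.none :=
  certB1 (fam := false) (s1 := true) (s2 := true) (a := 1) (b := 0) (c := 2) (cn := .npp) (n1 := ndB0q1) (n2 := ndB1q2b) (pc := pcB0) (cut := Cut.none) (xt := Ext.none) (P1 := 536870912) (W1 := 536870912) (P2 := 1239849684) (W2 := 370763052) (P3 := 1020054732) (W3 := 13421774) (N0 := 3) (En := eng) (mo := mog) (C1 := cd0q1) (C2 := cd1q2b) (C3 := pd0)
    rfl (fun _ => rfl) k0_pp_102_b

noncomputable def f_pp_112_a : ℕ → ℕ → ℕ → ℕ → Bool := onCell 536870912 536870912 0 536870912 1020054732 13421774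
    (rowB 3 eng mog cd0q1 cd1q2a pd1 0 false true true .dn 1 1 2 (qsf 536870912 536870912 0 536870912 1) ndB0q1 ndB1q2a pcB1 Cut.none Ext.none)

def k0_pp_112_a : ∃ t, chk3 f_pp_112_a t 1 1 1 = true :=
  ⟨(a (b (a (l 3) (l 3)) (l 3)) (l 1)), by decide +kernel⟩

theorem c_pp_112_a : CertB 536870912 536870912 0 536870912 1020054732 13421774 3 eng mog cd0q1 cd1q2a pd1 false true true .dn 1 1 2
    ndB0q1 ndB1q2a pcB1 Cut.none Ext.none :=
  certB0 (fam := false) (s1 := true) (s2 := true) (a := 1) (b := 1) (c := 2) (cn := .dn) (n1 := ndB0q1) (n2 := ndB1q2a) (pc := pcB1) (cut := Cut.none) (xt := Ext.none) (P1 := 536870912) (W1 := 536870912) (P2 := 0) (W2 := 536870912) (P3 := 1020054732) (W3 := 13421774) (N0 := 3) (En := eng) (mo := mog) (C1 := cd0q1) (C2 := cd1q2a) (C3 := pd1)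
    rfl k0_pp_112_a

end Pool.Agent.Strip051.G.I9500_9625.Tab.C.BB01

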