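import Pool.Agent.Strip051.G.I9500_9625.Tab
import Pool.Agent.Strip051.PB.ExtD3

/-! # Certificates B19 (generated) -/

set_option linter.all false
set_option maxRecDepth 100000

namespace Pool.Agent.Strip051.G.I9500_9625.Tab.C.BB01

open Pool.Agent.Strip051.PB Pool.Agent.Strip051.PB.T
open Pool.Agent.Strip051.G.I9500_9625.Tab

noncomputable def f_pp_112_b : ℕ → ℕ → ℕ → ℕ → Bool := onCell 536870912 536870912 536870912 536870912 1020054732 13421774
    (rowB 3 eng mog cd0q1 cd1q2b pd1 1 false true true .dn 1 1 2 (qsf 536870912 536870912 1239849684 370763052 1) ndB0q1 ndB1q2b pcB1 Cut.none Ext.none)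

def k0_pp_112_b : ∃ t, chk3 f_pp_112_b t 1 1 1 = true :=
  ⟨(b (a (b (l 3) (a (b (a (b (l 3) (b (l 3) (a (b (l 3) (a (l 255181251719) (l 3))) (l 3)))) (l 3)) (a (b (a (b (b (a (c (b (l 16697544) (l 16691720)) (l 16670584)) (l 3)) (a (c (l 16683632) (l 16674272)) (l 16633624))) (c (b (l 16616168) (l 16624512)) (a (l 16624560) (l 16625840)))) (b (l 3) (b (l 16584144) (l 16548064)))) (a (b (c (l 16560744) (l 16531216)) (a (l 16495344) (l 16516312))) (b (c (l 16572816) (l 16557880)) (l 16422976)))) (b (l 3) (b (a (l 16480784) (l 3)) (a (l 16488552) (l 16448720)))))) (l 3))) (l 3)) (a (b (a (b (a (b (a (b (c (l 16547992) (l 16497544)) (l 16408672)) (b (l 16442664) (l 16435656))) (a (b (l 16393744) (l 16352432)) (b (l 16381016) (l 16320784)))) (b (a (b (l 16448272) (l 16401960)) (b (l 16412768) (l 16369848))) (a (b (l 16349768) (l 16291784)) (l 16230200)))) (a (b (a (l 16102376) (l 16157296)) (a (l 16095672) (l 16069520))) (b (b (l 16215656) (l 16147752)) (b (l 16074776) (l 15997248))))) (b (a (a (b (b (l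 16375016) (l 16337480)) (l 16245352)) (b (l 16318040) (l 16133624))) (b (l 3) (b (l 3) (l 16168560)))) (a (b (b (l 16169632) (l 16106272)) (b (l 16037296) (l 15963168))) (b (b (l 16123264) (l 2)) (l 2))))) (b (a (a (b (b (l 15959920) (l 15886456)) (l 15646136)) (b (l 15873576) (b (l 15749536) (l 15682296)))) (a (b (l 15801408) (l 2)) (l 2))) (a (a (b (l 15750408) (l 15720568)) (b (l 15631032) (l 2))) (l 2)))) (b (b (l 3) (l 2)) (l 2)))), by decide +kernel⟩

theorem c_pp_112_b : CertB 536870912 536870912 1239849684 370763052 1020054732 13421774 3 eng mog cd0q1 cd1q2b pd1 false true true .dn 1 1 2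
    ndB0q1 ndB1q2b pcB1 Cut.none Ext.none :=
  certB1 (fam := false) (s1 := true) (s2 := true) (a := 1) (b := 1) (c := 2) (cn := .dn) (n1 := ndB0q1) (n2 := ndB1q2b) (pc := pcB1) (cut := Cut.none) (xt := Ext.none) (P1 := 536870912) (W1 := 536870912) (P2 := 1239849684) (W2 := 370763052) (P3 := 1020054732) (W3 := 13421774) (N0 := 3) (En := eng) (mo := mog) (C1 := cd0q1) (C2 := cd1q2b) (C3 := pd1)
    rfl (fun _ => rfl) k0_pp_112_b

noncomputable def cut_pp_113 : Cut := Cut.of [[⟨0, 1, 0, 26738688⟩, ⟨1, 1, 0, 26738688⟩, ⟨2, 2, 0, 2621440⟩]]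

noncomputable def xt_pp_113 : Ext := extD3 3 ⟨4, 1, 1, 5, 99, 20, 33, 40, 51, 125, 1, 32⟩ eng cd0q1 cd1q3 pd1 false true true .nn 1 1 3 rfl ndB0q1 ndB1q3 pcB1

noncomputable def f_pp_113 : ℕ → ℕ → ℕ → ℕ → Bool := onCell 536870912 536870912 536870912 536870912 1020054732 13421774
    (rowB 3 eng mog cd0q1 cd1q3 pd1 1 false true true .nn 1 1 3 (qsf 536870912 536870912 1610612736 536870912 1) ndB0q1 ndB1q3 pcB1 cut_pp_113 xt_pp_113)

def k0_pp_113 : ∃ t, chk3 f_pp_113 t 1 2 1 = true :=
  ⟨(a (a (l 1) (l 3)) (l 3)), by decide +kernel⟩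

def k1_pp_113 : ∃ t, chk3 f_pp_113 t 2 3 1 = true :=
  ⟨(b (a (b (l 1) (a (l 1) (b (l 1) (c (l 211022100839) (l 180420718263))))) (b (a (b (l 1) (a (l 1) (b (l 1) (l 16258656)))) (b (l 3) (a (b (l 3) (l 16217720)) (l 3)))) (a (b (c (a (l 16217336) (l 16182736)) (a (l 16216728) (l 16182656))) (a (b (l 16124800) (l 16056720)) (b (l 16093144) (l 16026392)))) (b (a (b (l 16175176) (l 16122600)) (b (l 16135672) (l 16091288))) (a (b (l 16063408) (l 15998344)) (b (l 16035744) (l 15972856))))))) (b (a (a (b (l 1) (c (l 15750176) (l 186326084151))) (a (b (l 16010928) (b (l 15898968) (l 15850112))) (b (l 15977256) (b (l 15858816) (l 15787472))))) (a (b (a (l 15840968) (l 15770008)) (a (l 15765680) (l 15737080))) (b (a (b (l 15927912) (l 15852776)) (b (l 15904224) (l 15830488))) (a (l 15669888) (b (l 15752432) (l 15671056)))))) (a (a (b (c (l 15869864) (l 15997496)) (c (l 15840048) (l 15995968))) (b (c (l 15706448) (l 15746456)) (c (l 15682120) (l 15776624)))) (b (a (b (a (l 15677560) (l 15634944)) (a (l 15641968)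 (l 15570104))) (a (b (l 15608344) (l 15526816)) (l 15482088))) (a (c (l 15524456) (l 15636472)) (b (a (l 15466680) (l 15423880)) (a (l 15448072) (l 15370024)))))))), by decide +kernel⟩

def k2_pp_113 : ∃ t, chk3 f_pp_113 t 3 6 1 = true :=
  ⟨(a (b (l 3) (a (b (a (b (l 3) (l 16053448)) (l 3)) (a (b (l 16007808) (l 15950256)) (c (l 15955216) (l 15942616)))) (l 3))) (l 3)), by decide +kernel⟩

def k3_pp_113 : ∃ t, chk3 f_pp_113 t 6 7 1 = true :=
  ⟨(b (a (b (a (b (l 15884160) (l 15812536)) (b (l 15868184) (l 15799936))) (a (b (l 15736168) (l 15656008)) (b (l 15726440) (l 15648712)))) (b (a (b (l 15933840) (l 15876888)) (b (l 3) (c (l 15800400) (l 15768576)))) (a (b (l 15725024) (l 15651856)) (b (c (l 15749280) (l 15715176)) (c (l 15686960) (l 15651488)))))) (b (a (a (b (l 15573216) (l 15488936)) (b (l 15567880) (l 15484952))) (a (b (l 15575232) (l 15496008)) (b (c (l 15618472) (l 15583824)) (l 15592792)))) (a (b (a (l 15404888) (l 15401416)) (a (l 15330128) (l 15321256))) (b (a (l 15415440) (b (l 15476152)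 (l 15439704))) (a (l 15338184) (l 15388656)))))), by decide +kernel⟩

def k4_pp_113 : ∃ t, chk3 f_pp_113 t 7 14 1 = true :=
  ⟨(a (b (l 3) (a (b (a (l 15739512) (l 3)) (a (l 15692608) (l 15711696))) (a (l 3) (l 3)))) (l 3)), by decide +kernel⟩

def k5_pp_113 : ∃ t, chk3 f_pp_113 t 14 15 1 = true :=
  ⟨(b (a (b (c (l 15680128) (l 15625128)) (c (l 15628720) (l 15571416))) (b (a (c (l 15749144) (l 15677440)) (l 6047046949845661468451274783)) (a (c (l 15729320) (l 15649064)) (c (b (l 15819728) (l 15829288)) (l 29157022967))))) (b (a (b (l 15560672) (l 15534384)) (b (a (l 15673496) (c (l 15842472) (l 15733064))) (a (l 15664688) (l 15800840)))) (a (c (l 15528288) (l 15473112)) (a (l 15660384) (c (l 15900448) (l 15772920)))))), by decide +kernel⟩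

def k6_pp_113 : ∃ t, chk3 f_pp_113 t 15 30 1 = true :=
  ⟨(b (l 3) (a (a (b (l 5930990071166211857638162447) (a (l 134576957208838159) (l 3493795618823839690783490063))) (a (l 3) (l 3))) (l 3))), by decide +kernel⟩

def k7_pp_113 : ∃ t, chk3 f_pp_113 t 30 31 1 = true :=
  ⟨(b (a (b (a (l 134792598993272847) (l 136956506795638799)) (l 136039857699930127)) (b (a (c (l 1878670723821060438178316303) (l 136379400786673679)) (a (b (l 3) (c (l 2758768720501570200696209487) (l 137561650839207951))) (l 3))) (c (a (l 139372134496321551) (a (l 141080157412229199) (b (b (l 2188155733645510734598176975) (l 2159141513974000765346939087)) (l 143068006087344335)))) (a (l 137159916711280655) (b (l 1337071956634698739975012367) (l 139678348562235407)))))) (a (l 137164727043588111) (b (a (l 139875161152749583) (l 142950908061188111)) (l 142871330904932367)))), by decide +kernel⟩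

def k8_pp_113 : ∃ t, chk3 f_pp_113 t 31 62 1 = true :=
  ⟨(a (b (l 3) (a (b (a (a (b (l 3) (c (b (l 2526654963138139136120586447) (l 2004399009064711348028162255)) (l 2555669182807233477969658063))) (l 3)) (l 3)) (a (c (a (b (l 143714862685176015) (l 16778368)) (c (l 2410598084455272586577739983) (l 2217169953317009983949127887))) (c (l 2130127294304414460219605199) (l 1849656504151433863992049871))) (b (b (l 3) (a (a (c (b (l 2662054654935212143276753103) (l 2023741822178725940894941391)) (l 1830313691040478250339958991)) (l 3)) (l 3))) (a (c (c (l 2497640743467660646070157519) (l 2381583864784746473969909967)) (l 2371912458227849506655355087)) (a (c (b (l 2826468566402818341145067727) (l 2497640743467720500751433935)) (l 1965713382837301187342778575)) (b (l 3) (c (c (l 97341445735) (l 97878314967)) (l 1762613845142097774389297359)))))))) (b (l 3) (a (l 3) (l 3))))) (l 3)), by decide +kernel⟩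

def k9_pp_113 : ∃ t, chk3 f_pp_113 t 62 63 1 = true :=
  ⟨(b (a (b (a (l 143833747382894799) (b (c (c (l 143819522506703055) (l 144062995606290639)) (c (l 144125667767943375) (l 144065606936871119))) (l 143902810482802895))) (a (l 143766608443375823) (l 143852439060283599))) (b (a (b (a (c (c (b (a (l 118279405639) (l 78014096423)) (l 2652383248378467320858427599)) (b (a (l 117205662439) (l 77477224215)) (l 143960053871329487))) (c (l 2188155733646433018935836879) (l 2197827140203390734263173327))) (b (l 3) (a (c (c (l 100025797639) (l 99488926359)) (b (l 2903839818858349496760565967) (l 2101113074634271115279270095))) (l 3)))) (c (a (l 144068836760223951) (b (a (l 144003347141148879) (c (l 123111241335) (l 122574370311))) (l 144020801856749647))) (c (l 2729754500833842002195972175) (l 2662054654935453967055372495)))) (b (l 3) (a (b (a (c (c (l 114521307271) (l 118279402951)) (l 3058582323768995917718454351)) (l 3)) (a (c (b (c (l 133848662135) (l 134385532487)) (l 143962527793168463)) (c (l 145122942839)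 (l 145659813943))) (c (b (c (l 76940353543) (l 75329740311)) (c (l 119353148215) (l 119353147863))) (c (l 3416424366374952472986419279) (l 3406752959818060453478547535))))) (l 3)))) (a (c (l 143898618538704975) (l 143908445468852303)) (b (c (a (a (l 144072891210711119) (c (l 144016335109980239) (l 144035232944963663))) (b (a (c (b (l 109689470919) (l 16788528)) (l 127943073911)) (b (l 3) (c (l 95193954999) (l 93583342679)))) (a (l 144025818418544719) (b (c (l 138680490887) (l 139217362759)) (l 144093781984084047))))) (c (a (l 144081824746815567) (b (a (l 127406203831) (b (l 3) (l 92509601303))) (l 2836139972960008465710727247))) (a (l 144104845771882575) (b (a (l 2275198392658803898549633103) (b (l 3) (l 91435859911))) (l 2836139972960022072168251471))))) (c (l 143996818729533519) (l 144016678661685327)))))) (a (b (l 143338142427758799) (l 143391812330586319)) (b (a (l 143788873522200655) (l 143675761271259215)) (l 143324329819684943)))), by decide +kernel⟩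

def k10_pp_113 : ∃ t, chk3 f_pp_113 t 63 126 1 = true :=
  ⟨(a (b (l 3) (b (a (a (b (l 3) (a (c (b (c (l 80161567847) (l 179482687687)) (c (l 124721846039) (l 124721846999))) (c (b (l 178945817575) (l 124721848295)) (b (l 152102259991) (l 125795590775)))) (l 3))) (l 3)) (l 3)) (a (a (b (c (c (a (l 144112954691190863) (b (l 113984426711) (l 159618446743))) (a (l 144027467642028111) (b (l 112910686135) (l 160155319111)))) (b (a (l 144129859689513039) (c (l 111836945575) (l 111300075959))) (c (l 3029568104098389128389705807) (l 144125667798532175)))) (c (l 144086360242552911) (l 144089796198875215))) (b (a (b (l 3) (c (c (l 98952040119) (l 98415170727)) (c (l 195588807335) (l 144049188887)))) (l 3)) (c (c (a (b (l 145122930871) (l 16784152)) (b (l 184851385031) (l 130627415399))) (a (l 2874825599187712951900586063) (b (l 130627422711) (l 134385513687)))) (c (a (l 2865154192630796949296988239) (b (l 156934099191) (l 133848645031))) (a (l 2855482786073879915903959119) (b (l 285246248967) (l 133311776071)))))))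 (a (a (l 3) (l 3)) (l 3))))) (l 3)), by decide +kernel⟩

def k11_pp_113 : ∃ t, chk3 f_pp_113 t 63 254 1 = true :=
  ⟨(b (a (b (a (a (l 144162363949908047) (c (a (l 144100516471603279) (l 144148001620754511)) (c (l 144070211167879247) (l 144066431599099983)))) (a (a (c (b (c (l 3793609222094838752543834191) (l 3783937815537912304580329551)) (a (l 144045128581611599) (l 2961868258199995183377612879))) (c (b (l 3774266408980987574603448399) (l 166597763431)) (b (l 162302803079) (l 170892733047)))) (a (b (l 3) (c (l 3822623441765591227125465167) (c (l 116668774679) (l 213305541751)))) (l 3))) (l 3))) (a (a (l 144129859666214991) (l 144143603553747023)) (a (c (a (l 144089864930279503) (c (l 3000553884427665997017366607) (l 3000553884427655208062730319))) (c (c (l 3116610763110655279503786063) (l 3116610763110651499934236751)) (c (l 3116610763110646689572208719) (l 3116610763110642360246534223)))) (a (b (a (c (l 3532481245058073353247719503) (b (l 3) (l 204715604007))) (l 3)) (c (a (l 3029568104098418815203360847)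 (l 3832294848322512658565316687)) (c (l 4093422825359267475062669391) (l 4093422825359255792754163791)))) (a (l 3) (l 3)))))) (l 3)) (a (a (l 143850995972800591) (a (c (l 144065675645812815) (l 144101066172448847)) (b (c (a (b (l 144148482657550415) (l 16771456)) (b (c (l 3899994694220944124411756623) (a (l 145659794071) (l 176261441175))) (l 3213324828679844305178280015))) (c (a (l 144142229175140431) (b (a (l 145659796567) (l 297057393575)) (l 3222996235236753573279760463))) (a (l 144128897599537231) (b (a (l 145659799751) (l 292762428759)) (l 3222996235236742097119150159))))) (c (l 144061071458418767) (l 144083267855761487))))) (a (a (b (a (b (l 3) (a (c (l 3880651881107103116949356623) (c (l 3948351727005512798730764367) (b (l 305647318391) (l 144586057671)))) (l 3))) (l 3)) (a (c (c (l 3126282169667598426296025167) (l 3164967795895250273373339727)) (b (a (l 144140717349306447) (c (l 4228822517156116387982590031) (l 4238493923713019402609590351))) (l 144125599059607631))) (b (a (a (b (l 3) (c (l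 3899994694220956974954692687) (l 231559142471))) (l 3)) (l 3)) (a (c (l 3203653422122928302573322319) (c (l 3222996235236753641997271119) (l 3222996235236739004751364175))) (c (b (l 6259817894108697387220418639) (l 2729754500833992978897797199)) (b (b (l 3) (l 303499844871)) (c (l 239612203111) (l 240685947399)))))))) (b (l 3) (a (b (l 3) (a (l 3) (l 3))) (l 3)))) (l 3)))), by decide +kernel⟩

def k12_pp_113 : ∃ t, chk3 f_pp_113 t 126 255 1 = true :=
  ⟨(a (l 143623190867640399) (b (a (l 143932703424561231) (l 143877934015021135)) (l 143627039173476431))), by decide +kernel⟩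

def k13_pp_113 : ∃ t, chk3 f_pp_113 t 254 255 1 = true :=
  ⟨(b (b (a (a (l 144029804096438351) (b (c (a (l 16770624) (l 144138449608654927)) (c (l 144121132292096079) (l 144104364742508623))) (l 144073509692325967))) (a (a (c (c (l 3087596543439907683998449743) (l 3193982015566000686372339791)) (b (c (l 4286850956497616251906883663) (b (l 237464721799) (l 190756949415))) (l 144108968944451663))) (b (a (b (l 3) (c (l 3948351727005538431087886415) (c (l 225116688615) (l 235854109175)))) (l 3)) (c (l 3222996235236755085101449295) (c (l 3329381707362836680046493775) (l 3358395927033574311219069007))))) (b (l 3) (a (c (b (l 6279160707222527330844147791) (l 2845811379516991950828060751)) (c (b (l 303499835991) (l 4267508143383783765659631695)) (b (l 296520521559) (l 4344879395839107044862001231)))) (a (a (l 3) (l 3)) (l 3)))))) (a (l 143965963693097039) (c (a (l 144061071455993935) (b (a (b (l 144149101131825231) (l 16772816)) (b (a (l 2942525445086166407973797967) (l 6259817894108699929837338703)) (l 3387410146704334207502106703)))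 (l 144062926896414799))) (a (l 144010425207193679) (b (a (b (l 144133433090359375) (l 16772536)) (a (c (l 3300367487692084549060673615) (l 3319710300805903085251084367)) (b (c (l 308868548087) (l 304573582839)) (l 4693050031888122995952648271)))) (l 144098592309641295)))))) (a (l 143862540840583247) (b (a (l 143922807837786191) (l 143985411309174863)) (l 143865701943967823)))), by decide +kernel⟩

def k14_pp_113 : ∃ t, chk3 f_pp_113 t 255 510 1 = true :=
  ⟨(a (b (l 3) (b (b (l 3) (a (a (c (a (l 3987037353233198868094713935) (l 6366203366234780150386344015)) (c (a (l 4064408605688524827358904399) (l 309942289975)) (c (l 301352356071) (l 296520518855)))) (l 3)) (l 3))) (b (a (a (c (l 3261681861464406038824435791) (c (l 3271353268021329669296521295) (l 4615678779432782605603799119))) (a (b (l 3) (c (l 3803280628651772828358443087) (c (l 354502575943) (l 357186932327)))) (l 3))) (l 3)) (a (a (c (l 144114466507669583) (l 144085604331569231)) (c (a (l 3290696081135151297862565967) (c (l 3977365946676270358544269391)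 (l 4006380166347028399406104655))) (b (a (l 4567321746648198950442352719) (c (l 314774126055) (l 311016031415))) (c (l 3348724520476663531294736463) (l 4654364405660452113585143887))))) (b (l 3) (a (a (c (l 6375874772791695671955144783) (c (l 316384738871) (l 309405418679))) (l 3)) (l 3))))))) (l 3)), by decide +kernel⟩

def k15_pp_113 : ∃ t, chk3 f_pp_113 t 510 511 1 = true :=
  ⟨(b (a (b (a (l 144060178118557775) (b (c (a (l 144059697095000143) (l 144121269742551119)) (l 144129722241056847)) (l 144083267867213903))) (l 144031590806536271)) (a (b (b (a (c (c (l 3058582323769140640894238799) (l 3068253730326073960809529423)) (c (l 4373893615509866872424104015) (c (l 250886488951) (l 263234520775)))) (b (l 3) (c (c (l 3793609222094843494174261327) (l 3899994694220939657642967119)) (c (l 311016030999) (l 307257936167))))) (c (a (l 144098248716582991) (c (l 3310038894248973751066214479) (l 3319710300805905559152934991))) (c (l 3696895156525673709951762511) (l 3716237969639498018582380623)))) (c (l 144075983597109327)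 (l 144058460134047823))) (b (b (l 3) (b (a (c (l 6298503520336347928620499023) (c (l 312626643831) (l 306184194343))) (l 3)) (c (a (c (l 3029568104098386998081503311) (l 3048910917212234327737253967)) (l 6375874772791683989643870287)) (a (c (l 4335207989282196814688632911) (a (l 272361325575) (l 355576317655))) (c (a (l 319069091879) (l 3)) (l 387251702231)))))) (c (b (a (c (l 144108350480826447) (l 144121544620507215)) (c (b (l 4025722979460839101577576527) (l 3455109992602726159655469135)) (b (l 4064408605688520979064897615) (l 144122575416328271)))) (a (l 144031178510237775) (l 144081893480513615))) (b (a (l 144124843157651535) (c (b (l 4180465484371519607402037327) (l 144131646391304271)) (b (a (l 265382003895) (l 311016031479)) (l 2903839818858468725013676111)))) (l 144102990356561999)))))) (a (l 143893602083078223) (b (a (l 143923288904974415) (l 144045265990271055)) (l 143897106780274767)))), by decide +kernel⟩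

def k16_pp_113 : ∃ t, chk3 f_pp_113 t 511 511 1 = true :=
  ⟨(b (a (b (l 3) (b (b (l 3) (a (a (c (a (l 4122437045030007580128395343) (l 6375874772791680347511406671)) (c (l 6308174926893262213241225295) (a (c (l 355576317127) (l 356650059591)) (l 309942289671)))) (l 3)) (l 3))) (b (a (a (c (c (l 3406752959818140442911850575) (l 3426095772931987154092212303)) (c (l 3435767179488908516818141263) (l 4693050031888115849127182415))) (a (b (l 3) (c (l 3948351727005500841532407887) (c (l 357186928887) (l 359334413655)))) (l 3))) (l 3)) (a (c (a (l 144106151459586127) (c (a (l 3339053113919720865531510863) (l 3977365946676248093434282063)) (a (l 144126836024016975) (l 4151451264700764658917146703)))) (a (l 144104502191980623) (c (l 4441593461408274973652025423) (a (l 3242339048350561938993578063) (c (l 6288832113779427665410523215) (l 357186929783)))))) (b (l 3) (c (l 7903957008784560972821069903) (a (c (l 6733716815397605772863275087) (l 443623146935)) (l 3)))))))) (l 3)) (a (a (b (b (a (l 144082580674789455)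 (b (c (c (a (l 16775728) (l 144100585184952399)) (l 144109037678526543)) (l 144122369258700879)) (c (l 144073853307125839) (l 144092682446028879)))) (l 144069592689672271)) (l 144001903998156879)) (a (a (a (a (b (b (c (c (l 3638866717184139623728300111) (l 144113779322699855)) (l 3967694540119335183205564495)) (l 6)) (l 6)) (l 6)) (l 6)) (l 6)) (l 6))) (l 6))), by decide +kernel⟩

theorem s17_pp_113 : ∃ t, chk3 f_pp_113 t 255 511 1 = true := ex3_a k15_pp_113 k16_pp_113

theorem s18_pp_113 : ∃ t, chk3 f_pp_113 t 255 255 1 = true := ex3_b k14_pp_113 s17_pp_113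

theorem s19_pp_113 : ∃ t, chk3 f_pp_113 t 127 255 1 = true := ex3_a k13_pp_113 s18_pp_113

theorem s20_pp_113 : ∃ t, chk3 f_pp_113 t 63 255 1 = true := ex3_a k12_pp_113 s19_pp_113

theorem s21_pp_113 : ∃ t, chk3 f_pp_113 t 63 127 1 = true := ex3_b k11_pp_113 s20_pp_113

theorem s22_pp_113 : ∃ t, chk3 f_pp_113 t 63 63 1 = true := ex3_b k10_pp_113 s21_pp_113

theorem s23_pp_113 : ∃ t, chk3 f_pp_113 t 31 63 1 = true := ex3_a k9_pp_113 s22_pp_113

theorem s24_pp_113 : ∃ t, chk3 f_pp_113 t 31 31 1 = true := ex3_b k8_pp_113 s23_pp_113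

theorem s25_pp_113 : ∃ t, chk3 f_pp_113 t 15 31 1 = true := ex3_a k7_pp_113 s24_pp_113

theorem s26_pp_113 : ∃ t, chk3 f_pp_113 t 15 15 1 = true := ex3_b k6_pp_113 s25_pp_113

theorem s27_pp_113 : ∃ t, chk3 f_pp_113 t 7 15 1 = true := ex3_a k5_pp_113 s26_pp_113

theorem s28_pp_113 : ∃ t, chk3 f_pp_113 t 7 7 1 = true := ex3_b k4_pp_113 s27_pp_113

theorem s29_pp_113 : ∃ t, chk3 f_pp_113 t 3 7 1 = true := ex3_a k3_pp_113 s28_pp_113

theorem s30_pp_113 : ∃ t, chk3 f_pp_113 t 3 3 1 = true := ex3_b k2_pp_113 s29_pp_113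

theorem s31_pp_113 : ∃ t, chk3 f_pp_113 t 1 3 1 = true := ex3_a k1_pp_113 s30_pp_113

theorem s32_pp_113 : ∃ t, chk3 f_pp_113 t 1 1 1 = true := ex3_b k0_pp_113 s31_pp_113

theorem c_pp_113 : CertB 536870912 536870912 1610612736 536870912 1020054732 13421774 3 eng mog cd0q1 cd1q3 pd1 false true true .nn 1 1 3
    ndB0q1 ndB1q3 pcB1 cut_pp_113 xt_pp_113 :=
  certB1 (fam := false) (s1 := true) (s2 := true) (a := 1) (b := 1) (c := 3) (cn := .nn) (n1 := ndB0q1) (n2 := ndB1q3) (pc := pcB1) (cut := cut_pp_113) (xt := xt_pp_113) (P1 := 536870912) (W1 := 536870912) (P2 := 1610612736) (W2 := 536870912) (P3 := 1020054732) (W3 := 13421774) (N0 := 3) (En := eng) (mo := mog) (C1 := cd0q1) (C2 := cd1q3) (C3 := pd1)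
    rfl (fun _ => rfl) s32_pp_113

noncomputable def cut_pp_123 : Cut := Cut.of [[⟨0, 1, 0, 26738688⟩, ⟨1, 1, 0, 26738688⟩, ⟨2, 2, 0, 2621440⟩]]

noncomputable def xt_pp_123 : Ext := extD3 3 ⟨4, 1, 1, 5, 99, 20, 33, 40, 51, 125, 1, 32⟩ eng cd0q1 cd1q3 pd2 false true true .npn 1 2 3 rfl ndB0q1 ndB1q3 pcB2

noncomputable def f_pp_123 : ℕ → ℕ → ℕ → ℕ → Bool := onCell 1073741824 536870912 1610612736 536870912 1020054732 13421774
    (rowB 3 eng mog cd0q1 cd1q3 pd2 2 false true true .npn 1 2 3 (qsf 536870912 536870912 1610612736 536870912 2) ndB0q1 ndB1q3 pcB2 cut_pp_123 xt_pp_123)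

def k0_pp_123 : ∃ t, chk3 f_pp_123 t 4 1 1 = true :=
  ⟨(b (b (a (b (b (a (l 15711512) (l 15721704)) (a (l 15702360) (l 15695200))) (a (b (l 15695728) (l 15649808)) (b (l 15651248) (l 15611008)))) (b (a (b (l 1) (l 15636784)) (l 1)) (a (l 15346360) (l 15388016)))) (a (b (a (b (l 15606872) (l 15567552)) (b (l 15574896) (l 15543640))) (a (b (l 15532912) (l 15504672)) (b (l 15518352) (l 15500752)))) (b (a (l 15387312) (l 15454312)) (a (l 15348576) (l 15421760))))) (b (a (b (a (b (l 15485512) (a (l 15466752) (l 15488800))) (b (l 15493392) (l 15500128))) (a (b (a (l 15477040) (l 15507024)) (a (l 15521352) (l 15556896))) (b (l 15526872) (l 15582952)))) (b (a (b (l 15469120) (l 15482736)) (l 15428520)) (a (b (l 15515536) (l 15575088)) (l 15499888)))) (a (b (a (b (a (l 15626624) (l 15658720)) (a (l 16001760) (l 15852256))) (b (l 15683704) (l 15939440))) (a (b (a (a (b (l 16244944) (l 142855319338270735)) (b (l 16163768) (l 16518264))) (l 16243504)) (b (a (a (b (l 142991040397443087) (a (l 16719136) (l 16728320)))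 (b (l 16691640) (l 16706376))) (a (l 16601224) (l 16625768))) (a (a (b (a (l 143773549110247503) (l 16724472)) (a (b (l 143962115375906895) (b (l 143964245711437903) (l 6))) (l 143614738371199055))) (b (a (l 16732568) (l 16718488)) (b (l 16741952) (l 143581821722443855)))) (a (b (l 16693792) (b (l 16712032) (l 16703912))) (b (l 16658872) (l 16641376)))))) (b (a (l 16164024) (l 16126968)) (b (a (l 16529488) (l 16441144)) (a (a (l 16526592) (l 16592432)) (l 16491240)))))) (b (a (b (l 15673088) (l 15828224)) (b (l 15624688) (l 15765248))) (b (a (l 16071208) (l 15976120)) (a (b (l 16339384) (l 16289336)) (b (l 16200512) (l 16254808)))))))), by decide +kernel⟩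

def k1_pp_123 : ∃ t, chk3 f_pp_123 t 5 1 1 = true :=
  ⟨(b (b (a (b (l 1) (a (l 15401960) (l 1))) (l 1)) (a (b (a (l 15385760) (l 15310248)) (a (l 15355648) (l 15279872))) (b (a (l 15229992) (l 1)) (a (l 15197400) (l 15110592))))) (b (a (b (a (l 15364536) (l 15287712)) (a (l 15434264) (l 15352552))) (b (l 14990472) (a (l 15260008) (l 15160552)))) (b (a (a (l 15504008) (l 15510904)) (a (l 15401784) (l 15286088))) (a (b (a (l 15860560) (l 15731688)) (a (b (l 16041224) (l 16092808)) (l 15905784))) (b (l 15527920) (a (l 15745608) (l 15587760))))))), by decide +kernel⟩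

def k2_pp_123 : ∃ t, chk3 f_pp_123 t 3 1 1 = true :=
  ⟨(b (a (b (l 1) (a (b (l 1) (l 14872400)) (l 1))) (l 1)) (a (b (a (b (l 14968824) (l 14985336)) (b (l 14776592) (l 14796840))) (b (a (l 15109536) (l 14872880)) (a (b (l 15248312) (l 15359864)) (b (l 14979184) (l 15070488))))) (b (a (b (l 1) (l 14597192)) (l 1)) (b (a (l 14650480) (l 14451968)) (a (b (l 14731944) (l 14808120)) (l 14545904)))))), by decide +kernel⟩

theorem s3_pp_123 : ∃ t, chk3 f_pp_123 t 2 1 1 = true := ex3_a k0_pp_123 k1_pp_123

theorem s4_pp_123 : ∃ t, chk3 f_pp_123 t 1 1 1 = true := ex3_a s3_pp_123 k2_pp_123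

theorem c_pp_123 : CertB 536870912 536870912 1610612736 536870912 1020054732 13421774 3 eng mog cd0q1 cd1q3 pd2 false true true .npn 1 2 3
    ndB0q1 ndB1q3 pcB2 cut_pp_123 xt_pp_123 :=
  certB2 (fam := false) (s1 := true) (s2 := true) (a := 1) (b := 2) (c := 3) (cn := .npn) (n1 := ndB0q1) (n2 := ndB1q3) (pc := pcB2) (cut := cut_pp_123) (xt := xt_pp_123) (P1 := 536870912) (W1 := 536870912) (P2 := 1610612736) (W2 := 536870912) (P3 := 1020054732) (W3 := 13421774) (N0 := 3) (En := eng) (mo := mog) (C1 := cd0q1) (C2 := cd1q3) (C3 := pd2)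
    rfl (fun _ => rfl) s4_pp_123

noncomputable def f_pp_133 : ℕ → ℕ → ℕ → ℕ → Bool := onCell 536870912 536870912 1610612736 536870912 1020054732 13421774
    (rowB 3 eng mog cd0q1 cd1q3 pd3 0 false true true .dn 1 3 3 (qsf 536870912 536870912 1610612736 536870912 3) ndB0q1 ndB1q3 pcB3 Cut.none Ext.none)

def k0_pp_133 : ∃ t, chk3 f_pp_133 t 1 1 1 = true :=
  ⟨(a (b (l 1) (b (l 1) (a (b (l 1) (a (l 16596992) (l 1))) (l 1)))) (l 1)), by decide +kernel⟩

theorem c_pp_133 : CertB 536870912 536870912 1610612736 536870912 1020054732 13421774 3 eng mog cd0q1 cd1q3 pd3 false true true .dn 1 3 3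
    ndB0q1 ndB1q3 pcB3 Cut.none Ext.none :=
  certB0 (fam := false) (s1 := true) (s2 := true) (a := 1) (b := 3) (c := 3) (cn := .dn) (n1 := ndB0q1) (n2 := ndB1q3) (pc := pcB3) (cut := Cut.none) (xt := Ext.none) (P1 := 536870912) (W1 := 536870912) (P2 := 1610612736) (W2 := 536870912) (P3 := 1020054732) (W3 := 13421774) (N0 := 3) (En := eng) (mo := mog) (C1 := cd0q1) (C2 := cd1q3) (C3 := pd3)
    rfl k0_pp_133

noncomputable def f_pp_202_a : ℕ → ℕ → ℕ → ℕ → Bool := onCell 0 536870912 0 536870912 1020054732 13421774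
    (rowB 3 eng mog cd0q2 cd1q2a pd0 0 false true true .pp 2 0 2 (qsf 0 536870912 0 536870912 0) ndB0q2 ndB1q2a pcB0 Cut.none Ext.none)

def k0_pp_202_a : ∃ t, chk3 f_pp_202_a t 1 1 1 = true :=
  ⟨(l 3), by decide +kernel⟩

theorem c_pp_202_a : CertB 0 536870912 0 536870912 1020054732 13421774 3 eng mog cd0q2 cd1q2a pd0 false true true .pp 2 0 2
    ndB0q2 ndB1q2a pcB0 Cut.none Ext.none :=
  certB0 (fam := false) (s1 := true) (s2 := true) (a := 2) (b := 0) (c := 2) (cn := .pp) (n1 := ndB0q2) (n2 := ndB1q2a) (pc := pcB0) (cut := Cut.none) (xt := Ext.none) (P1 := 0) (W1 := 536870912) (P2 := 0) (W2 := 536870912) (P3 := 1020054732) (W3 := 13421774) (N0 := 3) (En := eng) (mo := mog) (C1 := cd0q2) (C2 := cd1q2a) (C3 := pd0)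
    rfl k0_pp_202_a

noncomputable def f_pp_202_b : ℕ → ℕ → ℕ → ℕ → Bool := onCell 0 536870912 1239849684 370763052 1020054732 13421774
    (rowB 3 eng mog cd0q2 cd1q2b pd0 0 false true true .pp 2 0 2 (qsf 0 536870912 1239849684 370763052 0) ndB0q2 ndB1q2b pcB0 Cut.none Ext.none)

def k0_pp_202_b : ∃ t, chk3 f_pp_202_b t 1 1 1 = true :=
  ⟨(l 3), by decide +kernel⟩

theorem c_pp_202_b : CertB 0 536870912 1239849684 370763052 1020054732 13421774 3 eng mog cd0q2 cd1q2b pd0 false true true .pp 2 0 2
    ndB0q2 ndB1q2b pcB0 Cut.none Ext.none :=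
  certB0 (fam := false) (s1 := true) (s2 := true) (a := 2) (b := 0) (c := 2) (cn := .pp) (n1 := ndB0q2) (n2 := ndB1q2b) (pc := pcB0) (cut := Cut.none) (xt := Ext.none) (P1 := 0) (W1 := 536870912) (P2 := 1239849684) (W2 := 370763052) (P3 := 1020054732) (W3 := 13421774) (N0 := 3) (En := eng) (mo := mog) (C1 := cd0q2) (C2 := cd1q2b) (C3 := pd0)
    rfl k0_pp_202_b

noncomputable def f_pp_203 : ℕ → ℕ → ℕ → ℕ → Bool := onCell 0 536870912 0 536870912 1020054732 13421774
    (rowB 3 eng mog cd0q2 cd1q3 pd0 1 false true true .up 2 0 3 (qsf 0 536870912 1610612736 536870912 0) ndB0q2 ndB1q3 pcB0 Cut.none Ext.none)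

def k0_pp_203 : ∃ t, chk3 f_pp_203 t 1 1 1 = true :=
  ⟨(l 3), by decide +kernel⟩

theorem c_pp_203 : CertB 0 536870912 1610612736 536870912 1020054732 13421774 3 eng mog cd0q2 cd1q3 pd0 false true true .up 2 0 3
    ndB0q2 ndB1q3 pcB0 Cut.none Ext.none :=
  certB1 (fam := false) (s1 := true) (s2 := true) (a := 2) (b := 0) (c := 3) (cn := .up) (n1 := ndB0q2) (n2 := ndB1q3) (pc := pcB0) (cut := Cut.none) (xt := Ext.none) (P1 := 0) (W1 := 536870912) (P2 := 1610612736) (W2 := 536870912) (P3 := 1020054732) (W3 := 13421774) (N0 := 3) (En := eng) (mo := mog) (C1 := cd0q2) (C2 := cd1q3) (C3 := pd0)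
    rfl (fun _ => rfl) k0_pp_203

noncomputable def cut_pp_213 : Cut := Cut.of [[⟨0, 1, 0, 26738688⟩, ⟨1, 1, 0, 26738688⟩, ⟨2, 2, 0, 2621440⟩]]

noncomputable def f_pp_213 : ℕ → ℕ → ℕ → ℕ → Bool := onCell 0 536870912 1610612736 536870912 1020054732 13421774
    (rowB 3 eng mog cd0q2 cd1q3 pd1 0 false true true .pnn 2 1 3 (qsf 0 536870912 1610612736 536870912 1) ndB0q2 ndB1q3 pcB1 cut_pp_213 Ext.none)

def k0_pp_213 : ∃ t, chk3 f_pp_213 t 1 1 1 = true :=
  ⟨(a (l 3) (b (l 3) (b (l 3) (a (l 3) (b (l 3) (a (l 3) (b (l 3) (a (l 3) (b (l 3) (b (l 3) (b (l 3) (b (l 3) (l 6))))))))))))), by decide +kernel⟩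

theorem c_pp_213 : CertB 0 536870912 1610612736 536870912 1020054732 13421774 3 eng mog cd0q2 cd1q3 pd1 false true true .pnn 2 1 3
    ndB0q2 ndB1q3 pcB1 cut_pp_213 Ext.none :=
  certB0 (fam := false) (s1 := true) (s2 := true) (a := 2) (b := 1) (c := 3) (cn := .pnn) (n1 := ndB0q2) (n2 := ndB1q3) (pc := pcB1) (cut := cut_pp_213) (xt := Ext.none) (P1 := 0) (W1 := 536870912) (P2 := 1610612736) (W2 := 536870912) (P3 := 1020054732) (W3 := 13421774) (N0 := 3) (En := eng) (mo := mog) (C1 := cd0q2) (C2 := cd1q3) (C3 := pd1)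
    rfl k0_pp_213

noncomputable def f_pm_001 : ℕ → ℕ → ℕ → ℕ → Bool := onCell 0 536870912 0 536870912 1020054732 13421774
    (rowB 3 eng mog cd0q0 cd1q1 pd0 1 false true false .up 0 0 1 (qsf 0 536870912 536870912 536870912 0) ndB0q0 ndB1q1 pcB0 Cut.none Ext.none)

def k0_pm_001 : ∃ t, chk3 f_pm_001 t 1 1 1 = true :=
  ⟨(a (l 4) (b (l 4) (b (l 4) (a (l 4) (a (l 4) (b (b (l 75395598567) (a (l 4) (l 34592849751))) (b (a (b (l 4) (l 16114552)) (c (l 15999632) (l 16030472))) (a (b (l 16077680) (l 15976296)) (b (l 15961944) (l 15869792)))))))))), by decide +kernel⟩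

theorem c_pm_001 : CertB 0 536870912 536870912 536870912 1020054732 13421774 3 eng mog cd0q0 cd1q1 pd0 false true false .up 0 0 1
    ndB0q0 ndB1q1 pcB0 Cut.none Ext.none :=
  certB1 (fam := false) (s1 := true) (s2 := false) (a := 0) (b := 0) (c := 1) (cn := .up) (n1 := ndB0q0) (n2 := ndB1q1) (pc := pcB0) (cut := Cut.none) (xt := Ext.none) (P1 := 0) (W1 := 536870912) (P2 := 536870912) (W2 := 536870912) (P3 := 1020054732) (W3 := 13421774) (N0 := 3) (En := eng) (mo := mog) (C1 := cd0q0) (C2 := cd1q1) (C3 := pd0)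
    rfl (fun _ => rfl) k0_pm_001

noncomputable def f_pm_011 : ℕ → ℕ → ℕ → ℕ → Bool := onCell 536870912 536870912 536870912 536870912 1020054732 13421774
    (rowB 3 eng mog cd0q0 cd1q1 pd1 2 false true false .pnn 0 1 1 (qsf 0 536870912 536870912 536870912 1) ndB0q0 ndB1q1 pcB1 Cut.none Ext.none)

def k0_pm_011 : ∃ t, chk3 f_pm_011 t 1 1 1 = true :=
  ⟨(a (b (l 4) (b (l 4) (b (l 4) (a (a (b (a (l 15985672) (l 88816873671)) (a (l 15929032) (l 15921984))) (b (l 4) (a (b (l 16052400) (l 16022960)) (b (l 4) (l 16031352))))) (a (a (b (l 4) (l 4)) (l 4)) (l 4)))))) (l 4)), by decide +kernel⟩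

theorem c_pm_011 : CertB 0 536870912 536870912 536870912 1020054732 13421774 3 eng mog cd0q0 cd1q1 pd1 false true false .pnn 0 1 1
    ndB0q0 ndB1q1 pcB1 Cut.none Ext.none :=
  certB2 (fam := false) (s1 := true) (s2 := false) (a := 0) (b := 1) (c := 1) (cn := .pnn) (n1 := ndB0q0) (n2 := ndB1q1) (pc := pcB1) (cut := Cut.none) (xt := Ext.none) (P1 := 0) (W1 := 536870912) (P2 := 536870912) (W2 := 536870912) (P3 := 1020054732) (W3 := 13421774) (N0 := 3) (En := eng) (mo := mog) (C1 := cd0q0) (C2 := cd1q1) (C3 := pd1)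
    rfl (fun _ => rfl) k0_pm_011

noncomputable def cut_pm_012_a : Cut := Cut.of [[⟨0, 0, 0, 38347922⟩, ⟨1, 1, 0, 38347922⟩, ⟨2, 1, 0, 38347922⟩]]

noncomputable def xt_pm_012_a : Ext := extD3 3 ⟨4, 1, 1, 5, 99, 20, 33, 40, 51, 125, 1, 32⟩ eng cd0q0 cd1q2a pd1 false true false .pnp 0 1 2 rfl ndB0q0 ndB1q2a pcB1

noncomputable def f_pm_012_a : ℕ → ℕ → ℕ → ℕ → Bool := onCell 536870912 536870912 0 536870912 1020054732 13421774
    (rowB 3 eng mog cd0q0 cd1q2a pd1 2 false true false .pnp 0 1 2 (qsf 0 536870912 0 536870912 1) ndB0q0 ndB1q2a pcB1 cut_pm_012_a xt_pm_012_a)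

def k0_pm_012_a : ∃ t, chk3 f_pm_012_a t 2 2 1 = true :=
  ⟨(a (a (l 2) (b (l 2) (b (l 2) (a (l 2) (a (l 2) (a (l 2) (c (l 120894996695) (l 16329808)))))))) (b (a (a (a (l 2) (b (c (c (l 123580489175) (l 124117396007)) (c (l 115527513575) (l 125728043543))) (c (b (l 16592160) (l 16506296)) (b (l 16614768) (l 16586592))))) (c (b (a (b (l 16598560) (l 16634728)) (b (l 16652448) (l 16597248))) (a (b (l 16556768) (l 16437320)) (c (l 16427400) (l 16516200)))) (b (a (b (l 16570536) (l 16627968)) (b (l 16636072) (l 16614816))) (a (l 16529304) (l 16587376))))) (c (a (b (a (l 16597240) (l 16567752)) (c (l 16331296) (l 16496208))) (b (a (l 16544560) (l 16527864)) (c (l 16394760) (l 16468464)))) (a (b (a (l 16613648) (l 16605728)) (c (l 16556872) (l 16611480))) (b (a (l 16601936) (l 16602392)) (l 16517320))))) (a (b (b (c (a (a (l 16382016) (l 16379096)) (l 16249416)) (a (l 105326716263) (l 16499472))) (c (a (a (l 16309640) (l 16316096)) (l 16200504)) (a (l 105326602583) (l 16464280)))) (b (a (c (a (l 16217672)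 (l 16233944)) (l 16343344)) (c (l 16091136) (l 16432360))) (c (a (b (l 16087784) (a (l 16048472) (l 16075408))) (c (a (l 16099856) (l 16180808)) (l 16165576))) (a (b (l 16390176) (l 16258504)) (c (l 16418424) (l 16508240)))))) (c (a (b (c (l 16241568) (l 16370968)) (c (b (l 16076384) (l 16167192)) (b (l 16300864) (l 16338736)))) (b (c (l 16154440) (a (l 16429896) (l 16448064))) (b (c (l 16210320) (l 16425200)) (l 16227384)))) (a (b (l 16388200) (b (l 16384824) (l 16359008))) (b (c (l 16554768) (l 16525392)) (b (l 16373728) (l 16503544)))))))), by decide +kernel⟩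

def k1_pm_012_a : ∃ t, chk3 f_pm_012_a t 4 6 1 = true :=
  ⟨(a (l 2) (a (b (l 2) (c (b (c (l 16064712) (l 400068395335)) (l 16139656)) (b (l 162771413671) (l 16247232)))) (b (c (a (b (b (l 2) (l 15951888)) (l 16036576)) (b (b (l 15896296) (l 16126624)) (c (l 16189160) (l 16307096)))) (b (a (l 285177936951) (l 16210032)) (l 113916185639))) (c (b (l 16087960) (l 16342616)) (b (l 16349440) (l 16385200)))))), by decide +kernel⟩

def k2_pm_012_a : ∃ t, chk3 f_pm_012_a t 4 7 1 = true :=
  ⟨(a (b (a (l 2) (b (a (l 2) (c (l 16345464) (l 16309616))) (c (a (l 16072992) (l 16107480)) (b (l 16229816) (l 16169944))))) (b (a (a (l 2) (c (b (l 16027064) (l 15908784)) (b (l 16101240) (l 16027688)))) (c (b (a (l 16022152) (l 16019368)) (a (l 15907400) (l 15908328))) (b (c (l 16083816) (l 16127656)) (c (l 16003488) (l 16069784))))) (c (a (b (a (c (l 15742072) (l 15820120)) (c (l 15740584) (l 15821888))) (c (b (l 15606512) (a (l 15546272) (l 15550624))) (a (l 15691000) (l 15696920)))) (b (a (c (l 15741728) (l 15826016))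 (l 15641880)) (a (c (l 15574912) (l 15705328)) (c (l 15604600) (l 15716184))))) (c (a (b (l 15777128) (a (l 15798536) (l 15807224))) (b (l 15917088) (a (l 15818056) (l 15831000)))) (a (b (l 15924816) (a (l 15909472) (l 15920880))) (b (l 16007760) (a (l 15934088) (l 15949048)))))))) (b (a (b (c (l 16162240) (b (l 16329240) (l 16281840))) (c (b (l 16207288) (l 16116848)) (b (l 16230896) (l 16176184)))) (b (c (b (l 16349984) (l 16278096)) (l 16284552)) (c (b (l 16200440) (l 16116736)) (b (l 16238160) (l 16188904))))) (c (b (a (b (l 15956312) (a (l 15911584) (l 15917160))) (b (l 16026632) (l 15741048))) (a (b (a (l 15754328) (l 15806304)) (a (c (l 15616072) (l 15729448)) (c (l 15630280) (l 15745088)))) (b (a (l 15818752) (l 15833584)) (a (c (l 15647176) (l 15763040)) (c (l 15666720) (l 15783248)))))) (c (b (a (b (l 16092360) (l 16018576)) (l 15991024)) (a (b (l 15939296) (a (l 15845992) (l 15862984))) (b (l 15969232) (l 15766168)))) (b (a (l 15991024) (l 16099120)) (a (b (l 16034616) (a (l 15965704) (l 15983984)))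 (b (l 16067832) (l 15951264)))))))), by decide +kernel⟩

def k3_pm_012_a : ∃ t, chk3 f_pm_012_a t 5 3 1 = true :=
  ⟨(c (b (a (b (b (a (c (a (l 16118504) (l 16169392)) (l 16138264)) (c (l 16199048) (l 16360344))) (a (c (l 16194120) (l 16360712)) (l 16213136))) (a (b (l 16282184) (l 16427928)) (b (l 16445656) (l 16413752)))) (b (a (b (l 16208680) (l 16401112)) (l 16217176)) (a (b (l 16489616) (l 16405496)) (b (l 16475488) (l 16403512))))) (a (b (b (a (l 16263560) (l 16303288)) (a (l 16037528) (l 16112600))) (b (a (b (l 16042696) (l 15912664)) (b (l 16067272) (l 15988256))) (a (b (a (l 15850752) (l 15870208)) (a (c (l 15688856) (l 15805672)) (l 15645712))) (b (l 15714768) (a (l 15756512) (l 15827576)))))) (b (b (a (l 16308104) (l 16320032)) (a (l 16153576) (l 16181280))) (b (a (c (l 16030424) (l 16101008)) (a (l 16099024) (l 16123704))) (b (a (l 15871640) (l 15952768)) (a (c (l 15818952) (l 15931984)) (a (l 15927520) (l 15964768)))))))) (b (a (b (a (a (b (l 16296296) (l 16499776)) (l 16324848)) (a (l 16420216)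 (l 16495464))) (a (b (l 16442312) (l 16381304)) (c (l 16422440) (l 16394752)))) (b (a (b (l 16499840) (l 16468304)) (l 16430408)) (a (b (l 16431496) (l 16388480)) (b (l 16432816) (l 16399360))))) (a (b (b (a (l 16310952) (l 16321888)) (a (l 16145856) (l 16209712))) (b (a (b (l 16160992) (l 16068648)) (b (l 16191968) (l 16148016))) (a (b (c (l 16006456) (l 16106888)) (a (l 15881384) (l 15968520))) (b (l 15995728) (c (l 15989216) (l 16110208)))))) (b (a (b (l 16338120) (l 16258112)) (b (l 16359384) (l 16290632))) (b (a (b (l 16228504) (l 16190968)) (l 16128640)) (a (b (l 16087344) (c (l 16047440) (l 16165328))) (a (l 16024632) (l 16075656)))))))), by decide +kernel⟩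

def k4_pm_012_a : ∃ t, chk3 f_pm_012_a t 12 1 1 = true :=
  ⟨(b (b (b (a (c (l 16494464) (l 16611376)) (c (l 16522792) (l 16592848))) (a (a (l 16288784) (l 16325872)) (c (l 16461704) (l 16536112)))) (c (b (a (c (l 16203808) (l 16444944)) (b (l 16435088) (l 16334192))) (a (l 16199008) (l 16390152))) (b (a (b (l 16535560) (l 16443696)) (b (l 16486768) (l 16403408))) (a (l 16403560) (l 16466856))))) (b (b (a (c (l 16371104) (l 16464600)) (c (l 16372104) (l 16460864))) (a (c (b (l 16467040) (l 16408040)) (b (l 16438560) (l 16414864))) (c (b (l 16464640) (l 16398216)) (b (l 16448600) (l 16434728))))) (b (a (c (b (l 16318088) (l 16153544)) (b (l 16385336) (l 16285856))) (c (b (l 16302176) (a (l 16289680) (l 16312632))) (b (l 16373680) (l 16285192)))) (a (c (b (a (l 16150272) (l 16157680)) (b (l 15873728) (a (l 16003856) (l 16023720)))) (b (l 16156864) (b (l 16200656) (l 16107048)))) (c (b (a (l 16145904) (l 16135776)) (a (b (l 16139024) (l 16003264)) (b (l 16157032) (c (l 16085104) (l 16177584))))) (b (a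 (l 16322352) (l 16328800)) (a (l 16150440) (b (l 16342152) (l 16277544))))))))), by decide +kernel⟩

def k5_pm_012_a : ∃ t, chk3 f_pm_012_a t 26 1 1 = true :=
  ⟨(c (b (b (b (l 16558320) (l 16548584)) (b (b (l 16455568) (l 16550656)) (l 16409784))) (b (b (a (l 16507256) (l 16501184)) (b (l 16447576) (l 16395104))) (b (b (a (l 16389304) (l 16407400)) (a (l 16316256) (l 16321480))) (b (a (b (l 16291336) (l 16256632)) (b (l 16324008) (l 16251872))) (b (a (l 16134576) (c (l 16224152) (l 16296832))) (a (b (l 16145552) (l 16018728)) (a (l 16064696) (c (l 16194648) (l 16276064))))))))) (b (b (b (l 16547488) (l 16480672)) (b (a (l 16380864) (l 16392152)) (l 16449912))) (b (b (l 16445416) (b (l 16462760) (l 16437640))) (a (b (b (l 16441088) (l 16402776)) (b (l 16336056) (b (l 16353912) (l 16271400)))) (b (b (l 16459128) (l 16426160)) (b (l 16302136) (b (l 16345336) (l 16265800)))))))), by decide +kernel⟩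

def k6_pm_012_a : ∃ t, chk3 f_pm_012_a t 27 1 1 = true :=
  ⟨(b (b (b (c (l 16567632) (l 16487488)) (a (l 16317360) (c (l 16499128) (l 16374720)))) (b (a (c (l 16512536) (l 16364688)) (c (l 16486680) (l 16392960))) (c (a (l 16510832) (l 16495912)) (a (l 16439888) (l 16434328))))) (b (b (c (a (l 16496640) (l 16493680)) (a (l 16443208) (l 16446304))) (b (a (l 16455008) (l 16463400)) (c (a (l 16454872) (l 16468704)) (a (l 16479272) (l 16494048))))) (b (b (a (c (l 16427128) (l 16457064)) (c (l 16427416) (l 16497800))) (a (b (l 16332400) (c (l 16381024) (l 16468920))) (c (b (l 16428488) (l 16412312)) (l 16433312)))) (c (b (a (b (l 16337168) (l 16248520)) (b (l 16351736) (c (l 16344792) (l 16400120)))) (b (a (a (l 16250720) (l 16251680)) (a (l 16273920) (l 16275488))) (a (a (c (l 16199040) (l 16298680)) (b (l 16270720) (l 16191352))) (a (b (l 16273744) (l 16216536)) (b (l 16298024) (l 16221024)))))) (a (b (c (l 16408208) (l 16465360)) (b (l 16358256) (b (l 16369296) (l 16340752)))) (b (b (l 16449088) (l 16421968))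 (b (l 16371600) (a (l 16393320) (l 16411904))))))))), by decide +kernel⟩

def k7_pm_012_a : ∃ t, chk3 f_pm_012_a t 7 2 1 = true :=
  ⟨(a (b (a (a (b (l 16451616) (c (b (l 16466656) (l 16445680)) (l 16255608))) (b (l 16387280) (b (l 16289000) (c (l 16409584) (l 16320480))))) (b (a (l 16338792) (l 16327008)) (a (b (c (l 16368184) (l 16286080)) (l 16341680)) (b (a (l 16294584) (l 16276616)) (l 16319552))))) (a (b (c (a (l 16461920) (l 16438616)) (l 16216672)) (c (a (l 16482480) (l 16470640)) (a (l 16429784) (l 16426272)))) (b (c (a (l 16416896) (l 16396888)) (a (l 16357584) (l 16348088))) (c (a (l 16439456) (l 16430992)) (a (l 16423880) (l 16422600)))))) (b (a (a (c (b (l 16237184) (l 16261912)) (b (l 16220336) (l 16249456))) (b (b (l 16227472) (a (b (l 16209328) (l 16203248)) (b (l 16179112) (l 16187888)))) (c (l 16276528) (l 16234904)))) (b (a (b (a (l 16176632) (l 16142296)) (a (b (l 16153496) (l 16175280)) (l 16148616))) (b (a (b (l 16116384) (l 16101328)) (b (l 16078936) (l 16057848))) (c (l 16141936)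 (l 16119496)))) (a (c (l 16251352) (l 16221704)) (a (l 16223576) (l 16215584))))) (a (b (a (c (l 16378712) (l 16339888)) (c (l 16362544) (l 16333048))) (a (a (l 16350904) (l 16349592)) (a (l 16348688) (l 16348184)))) (b (a (c (l 16327600) (l 16327616)) (a (l 16332168) (l 16328792))) (a (a (l 16348112) (l 16348472)) (b (l 16367232) (l 16396224))))))), by decide +kernel⟩

def k8_pm_012_a : ∃ t, chk3 f_pm_012_a t 14 6 1 = true :=
  ⟨(a (b (a (c (l 16492312) (l 16471400)) (c (l 16492560) (l 16476544))) (a (b (l 16452104) (c (l 16484104) (l 16509736))) (b (c (l 16501184) (l 16508920)) (c (l 16480104) (l 16526272))))) (b (a (c (l 16494504) (l 16482672)) (b (l 16481392) (l 16549392))) (a (b (c (l 16491880) (l 16521728)) (a (l 16464056) (l 16473320))) (b (c (l 16526176) (l 16535392)) (a (l 16482872) (l 16492720)))))), by decide +kernel⟩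

def k9_pm_012_a : ∃ t, chk3 f_pm_012_a t 14 14 1 = true :=
  ⟨(a (b (a (a (l 16405216) (l 16416344)) (c (b (l 16497728) (l 16493368)) (l 16476736))) (a (c (b (l 16457136) (l 16424048)) (c (l 16482904) (l 16539880))) (c (b (l 16466256) (l 16437160)) (b (l 16546720) (l 16507424))))) (b (a (a (a (l 16469368) (l 16475400)) (a (l 16481504) (l 16487664))) (a (a (l 16493896) (l 16500184)) (a (l 16506544) (l 16512952)))) (a (c (b (l 16476776) (l 16472584)) (a (l 16525984) (l 16539384))) (a (b (l 16504312) (l 16486000)) (b (l 16519224) (l 16502496)))))), by decide +kernel⟩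

def k10_pm_012_a : ∃ t, chk3 f_pm_012_a t 14 15 1 = true :=
  ⟨(a (b (a (c (b (l 16367656) (a (l 16382216) (l 16403136))) (a (l 16427064) (l 16442512))) (b (c (l 16384888) (l 16487360)) (c (a (l 16424360) (l 16445880)) (l 16486280)))) (c (b (a (a (l 16298328) (l 16321456)) (a (l 16323896) (l 16368536))) (a (b (a (l 16322584) (l 16347408)) (c (a (l 16317496) (l 16345184)) (l 16356112))) (a (b (l 16372488) (c (l 16373232) (l 16434736))) (b (l 16376872) (c (l 16401432) (l 16459248)))))) (a (b (a (l 16460512) (l 16477880)) (a (l 16430528) (l 16449176))) (a (b (l 16495280) (l 16446976)) (b (l 16512704) (l 16465496)))))) (b (a (b (a (l 16430440) (l 16448048)) (c (a (l 16467680) (l 16489808)) (l 16497952))) (b (a (l 16465888) (l 16504688)) (a (c (l 16512040) (l 16564160)) (b (l 16504952) (l 16504192))))) (c (b (a (a (b (l 16479840) (l 16451968)) (b (l 16503400) (l 16476512))) (a (b (l 16527024) (l 16500976)) (b (l 16529624) (l 16525448)))) (a (a (b (l 16402304) (c (l 16408776) (l 16483744))) (b (l 16427760)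 (b (l 16443072) (l 16397048)))) (b (a (l 16453136) (l 16478552)) (a (a (l 16460784) (l 16473960)) (a (l 16487168) (l 16500408)))))) (a (b (a (l 16530168) (l 16547416)) (a (l 16483848) (b (l 16545240) (l 16542664)))) (b (a (l 16564456) (l 16581136)) (a (b (l 16562808) (l 16560648)) (b (l 16580120) (l 16578440)))))))), by decide +kernel⟩

def k11_pm_012_a : ∃ t, chk3 f_pm_012_a t 15 6 1 = true :=
  ⟨(a (b (b (a (l 16485600) (a (l 16489768) (l 16492992))) (a (a (l 16493464) (l 16519488)) (a (l 16524888) (l 16530640)))) (a (a (b (l 16541752) (l 16502840)) (b (l 16549448) (l 16513248))) (a (b (l 16557464) (l 16526984)) (b (l 16543504) (l 16519040))))) (b (a (b (c (l 16480072) (l 16474992)) (a (l 16536752) (l 16543224))) (b (a (l 16505016) (l 16509832)) (a (l 16550056) (l 16555032)))) (a (a (b (l 16536152) (c (l 16559560) (l 16546400))) (b (l 16528256) (b (l 16522680) (l 16524920)))) (b (a (l 16520160) (l 16511808)) (a (b (l 16535216) (l 16537520)) (b (l 16526720) (l 16529040))))))), by decide +kernel⟩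

def k12_pm_012_a : ∃ t, chk3 f_pm_012_a t 15 14 1 = true :=
  ⟨(a (a (b (a (a (l 16519432) (l 16525968)) (c (l 16564048) (l 16575232))) (a (b (l 16534440) (l 16519000)) (b (l 16549664) (l 16556512)))) (b (a (b (l 16556824) (l 16548264)) (b (l 16548736) (l 16540112))) (a (c (l 16573016) (l 16537712)) (b (l 16558088) (l 16561048))))) (b (a (a (b (l 16540464) (l 16532016)) (b (l 16532224) (l 16544872))) (a (b (l 16544896) (l 16536656)) (b (l 16536440) (a (l 16551320) (l 16546872))))) (b (a (a (l 16550176) (l 16542200)) (a (a (l 16578040) (l 16573752)) (a (l 16569824) (l 16566304)))) (a (a (l 16553328) (a (l 16567888) (l 16585272))) (a (a (l 16581552) (l 16578328)) (a (l 16574968) (b (l 16585488) (l 16601200)))))))), by decide +kernel⟩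

def k13_pm_012_a : ∃ t, chk3 f_pm_012_a t 30 15 1 = true :=
  ⟨(b (a (b (a (l 16522520) (l 16540184)) (c (a (l 16535680) (l 16558024)) (a (l 16595768) (l 16632152)))) (a (b (l 16557768) (a (l 16556656) (l 16587096))) (c (b (l 16621176) (b (l 16624016) (l 16603720))) (b (l 16614464) (b (l 16639664) (l 16659272)))))) (a (b (a (c (b (l 16553232) (l 16529032)) (l 16597592)) (a (a (l 16534632) (l 16539704)) (b (l 16568600) (l 16547216)))) (c (b (a (c (l 16549288) (l 16584856)) (b (l 16551720) (l 16528968))) (a (c (a (l 16536496) (l 16551000)) (l 141074797505462335)) (c (a (l 16544256) (l 16558264)) (a (l 16599152) (l 16610824))))) (b (a (l 16597280) (l 16614392)) (a (l 141605243220295743) (l 141786525233954879))))) (a (b (a (b (l 16578592) (l 16578376)) (b (l 16588656) (l 16577712))) (c (a (b (l 16590664) (b (l 16587600) (l 16564128))) (b (l 16602680) (b (l 16599664) (c (l 16604808) (l 16631792))))) (b (l 16630200) (b (l 16628864) (l 142195131272527935))))) (b (c (b (l 16603280) (a (l 16617272) (l 16628640)))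 (b (l 16644560) (l 16645128))) (c (b (a (l 16593440) (a (l 16623032) (l 16628888))) (b (a (l 16611544) (l 16602648)) (a (c (l 16597264) (l 16642672)) (a (l 16618776) (l 16625208))))) (b (a (l 16661720) (l 16668352)) (b (l 142218702084128831) (l 142171354362642495)))))))), by decide +kernel⟩

def k14_pm_012_a : ∃ t, chk3 f_pm_012_a t 31 15 1 = true :=
  ⟨(b (b (a (a (a (l 16585216) (l 16581704)) (a (l 16578240) (l 16595912))) (a (a (l 16593192) (b (l 16623280) (l 16621304))) (a (b (l 16620952) (l 16639832)) (b (l 16618416) (l 16637040))))) (b (a (c (a (l 16645840) (l 16658904)) (a (l 16637136) (l 16635944))) (a (c (l 16629000) (l 16636144)) (a (l 16639096) (l 6)))) (a (c (a (l 16625936) (l 16646744)) (a (l 16657712) (l 16637112))) (a (a (l 16645504) (l 16642760)) (l 6))))) (a (a (a (b (b (l 16616512) (a (l 16634584) (l 16638928))) (b (c (a (l 16634760) (l 16640760)) (l 16675184)) (b (c (l 16625640) (l 16674608)) (l 6)))) (b (b (l 16624904) (a (l 16643376) (l 16647888))) (b (b (l 16639944) (l 6)) (l 6))))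 (b (a (b (l 16654512) (c (l 16662664) (l 16689128))) (b (l 16663384) (l 6))) (l 6))) (b (l 6) (l 6)))), by decide +kernel⟩

theorem s15_pm_012_a : ∃ t, chk3 f_pm_012_a t 15 15 1 = true := ex3_a k13_pm_012_a k14_pm_012_a

theorem s16_pm_012_a : ∃ t, chk3 f_pm_012_a t 15 7 1 = true := ex3_b k12_pm_012_a s15_pm_012_a

theorem s17_pm_012_a : ∃ t, chk3 f_pm_012_a t 15 3 1 = true := ex3_b k11_pm_012_a s16_pm_012_a

theorem s18_pm_012_a : ∃ t, chk3 f_pm_012_a t 14 7 1 = true := ex3_b k9_pm_012_a k10_pm_012_a

theorem s19_pm_012_a : ∃ t, chk3 f_pm_012_a t 14 3 1 = true := ex3_b k8_pm_012_a s18_pm_012_a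

theorem s20_pm_012_a : ∃ t, chk3 f_pm_012_a t 7 3 1 = true := ex3_a s19_pm_012_a s17_pm_012_a

theorem s21_pm_012_a : ∃ t, chk3 f_pm_012_a t 7 1 1 = true := ex3_b k7_pm_012_a s20_pm_012_a

theorem s22_pm_012_a : ∃ t, chk3 f_pm_012_a t 13 1 1 = true := ex3_a k5_pm_012_a k6_pm_012_a

theorem s23_pm_012_a : ∃ t, chk3 f_pm_012_a t 6 1 1 = true := ex3_a k4_pm_012_a s22_pm_012_a

theorem s24_pm_012_a : ∃ t, chk3 f_pm_012_a t 3 1 1 = true := ex3_a s23_pm_012_a s21_pm_012_a

theorem s25_pm_012_a : ∃ t, chk3 f_pm_012_a t 4 3 1 = true := ex3_b k1_pm_012_a k2_pm_012_a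

theorem s26_pm_012_a : ∃ t, chk3 f_pm_012_a t 2 3 1 = true := ex3_a s25_pm_012_a k3_pm_012_a

theorem s27_pm_012_a : ∃ t, chk3 f_pm_012_a t 2 1 1 = true := ex3_b k0_pm_012_a s26_pm_012_a

theorem s28_pm_012_a : ∃ t, chk3 f_pm_012_a t 1 1 1 = true := ex3_a s27_pm_012_a s24_pm_012_a

theorem c_pm_012_a : CertB 0 536870912 0 536870912 1020054732 13421774 3 eng mog cd0q0 cd1q2a pd1 false true false .pnp 0 1 2
    ndB0q0 ndB1q2a pcB1 cut_pm_012_a xt_pm_012_a :=
  certB2 (fam := false) (s1 := true) (s2 := false) (a := 0) (b := 1) (c := 2) (cn := .pnp) (n1 := ndB0q0) (n2 := ndB1q2a) (pc := pcB1) (cut := cut_pm_012_a) (xt := xt_pm_012_a) (P1 := 0) (W1 := 536870912) (P2 := 0) (W2 := 536870912) (P3 := 1020054732) (W3 := 13421774) (N0 := 3) (En := eng) (mo := mog) (C1 := cd0q0) (C2 := cd1q2a) (C3 := pd1)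
    rfl (fun _ => rfl) s28_pm_012_a

noncomputable def cut_pm_012_b : Cut := Cut.of [[⟨0, 0, 0, 38347922⟩, ⟨1, 1, 0, 38347922⟩, ⟨2, 1, 0, 38347922⟩]]

noncomputable def f_pm_012_b : ℕ → ℕ → ℕ → ℕ → Bool := onCell 0 536870912 536870912 536870912 1020054732 13421774
    (rowB 3 eng mog cd0q0 cd1q2b pd1 1 false true false .pnp 0 1 2 (qsf 0 536870912 1239849684 370763052 1) ndB0q0 ndB1q2b pcB1 cut_pm_012_b Ext.none)

def k0_pm_012_b : ∃ t, chk3 f_pm_012_b t 1 1 1 = true :=
  ⟨(b (a (l 1) (b (l 1) (a (l 1) (b (a (l 1) (a (b (l 1) (b (l 1) (c (l 261489229127) (l 264710500839)))) (b (b (l 1) (c (l 262562838631) (l 265247309335))) (c (b (l 107407244487) (l 16633736)) (b (l 105796676487) (l 16569648)))))) (a (b (a (l 1) (b (l 1) (l 241088176983))) (a (b (l 1) (l 16568992)) (b (l 16612040) (l 16567440)))) (b (a (b (b (l 16568640) (l 16621368)) (l 44056491415)) (c (l 16514512) (b (l 16587376) (l 16542360)))) (a (b (l 16557544) (l 16510232)) (b (l 16488992) (l 16459816))))))))) (a (a (l 1) (b (l 1) (a (b (l 1) (b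 (a (l 1) (b (l 1) (l 388726644903))) (a (b (l 1) (a (l 1) (l 395706009575))) (b (l 401074665879) (l 331818302983))))) (b (a (b (l 1) (b (l 1) (l 390874347223))) (b (l 375842103671) (l 288869010919))) (b (a (b (l 403222371687) (l 16276704)) (l 16304272)) (a (b (l 16257296) (l 16236680)) (l 16330888))))))) (b (a (b (a (l 1) (b (a (l 1) (l 262562715959)) (b (l 251825199879) (l 236255903351)))) (a (b (a (l 1) (l 339335186503)) (a (l 357588676055) (l 282963763431))) (b (a (l 234108422503) (l 16428528)) (a (l 16470448) (l 16459184))))) (b (a (b (c (a (l 16541104) (l 16459984)) (a (l 16601336) (l 16525080))) (c (l 16299704) (l 16471128))) (b (a (l 16295008) (l 16303432)) (a (l 16314936) (l 16297168)))) (a (c (b (l 16309384) (l 16290080)) (a (l 16441640) (l 16294288))) (b (l 16059304) (l 16117504))))) (a (b (a (b (b (l 309807162487) (l 300680338983)) (a (l 16445368) (l 16523888))) (b (l 16277096) (l 16438480))) (a (b (l 16384312) (l 16435360)) (b (l 16425152) (l 16426888)))) (b (a (b (l 16178432) (l 16207800))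 (b (l 16125416) (l 16084672))) (a (b (l 16231008) (l 16228280)) (l 15908136))))))), by decide +kernel⟩

theorem c_pm_012_b : CertB 0 536870912 1239849684 370763052 1020054732 13421774 3 eng mog cd0q0 cd1q2b pd1 false true false .pnp 0 1 2
    ndB0q0 ndB1q2b pcB1 cut_pm_012_b Ext.none :=
  certB1 (fam := false) (s1 := true) (s2 := false) (a := 0) (b := 1) (c := 2) (cn := .pnp) (n1 := ndB0q0) (n2 := ndB1q2b) (pc := pcB1) (cut := cut_pm_012_b) (xt := Ext.none) (P1 := 0) (W1 := 536870912) (P2 := 1239849684) (W2 := 370763052) (P3 := 1020054732) (W3 := 13421774) (N0 := 3) (En := eng) (mo := mog) (C1 := cd0q0) (C2 := cd1q2b) (C3 := pd1)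
    rfl (fun _ => rfl) k0_pm_012_b

noncomputable def cut_pm_022_a : Cut := Cut.of [[⟨0, 0, 0, 38347922⟩, ⟨1, 1, 0, 38347922⟩, ⟨2, 1, 0, 38347922⟩]]

noncomputable def f_pm_022_a : ℕ → ℕ → ℕ → ℕ → Bool := onCell 1073741824 536870912 0 536870912 1020054732 13421774
    (rowB 3 eng mog cd0q0 cd1q2a pd2 2 false true false .pp 0 2 2 (qsf 0 536870912 0 536870912 2) ndB0q0 ndB1q2a pcB2 cut_pm_022_a Ext.none)

def k0_pm_022_a : ∃ t, chk3 f_pm_022_a t 2 2 1 = true :=
  ⟨(a (a (b (a (b (l 16257288) (l 16188968)) (b (l 16148208) (b (l 16132336) (l 16025624)))) (a (b (b (a (l 16291536) (l 16220720)) (l 16213488)) (a (l 16220160) (l 16209368))) (b (a (l 16162288) (l 16124448)) (a (l 16191376) (b (l 16165640) (l 16206208)))))) (b (a (b (l 16047528) (a (l 16051560) (l 15924184))) (b (l 15874872) (b (a (l 15955120) (l 15924432)) (l 15966976)))) (a (b (a (l 16035144) (l 16087008)) (a (b (l 16165128) (l 16224536)) (b (l 16177704) (l 16253192)))) (b (a (l 16087400) (l 16095160)) (a (b (l 16198488) (l 16285984)) (b (l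 16222744) (l 16319592))))))) (a (b (b (a (a (l 15895768) (l 15852928)) (l 1)) (a (a (l 15939856) (l 15931328)) (l 1))) (a (b (a (l 16105088) (l 16117160)) (a (l 499322225687) (l 1))) (l 1))) (l 1))), by decide +kernel⟩

def k1_pm_022_a : ∃ t, chk3 f_pm_022_a t 2 6 1 = true :=
  ⟨(a (a (a (b (a (b (l 16240216) (l 16256952)) (b (l 16233792) (l 16267624))) (b (a (l 16226056) (b (l 16302672) (l 16288920))) (a (a (l 16329272) (b (l 16332864) (l 16364168))) (b (a (l 16353112) (l 16377664)) (a (l 16389656) (l 16419336)))))) (b (a (b (l 16240904) (a (l 16283432) (l 16299880))) (b (l 16261472) (a (l 16319784) (l 16343728)))) (a (b (a (l 16347064) (l 16310680)) (a (b (l 16406880) (l 16453336)) (b (l 16439288) (l 16489384)))) (b (a (l 16360136) (l 16349864)) (b (l 16407952) (a (l 16526304) (l 16522184))))))) (a (b (a (b (l 16255440) (a (l 16370280) (l 16397656))) (b (l 16255552) (l 16353376))) (a (b (a (l 16424568) (l 16435592)) (b (l 16479440) (a (l 16560240) (l 16562568)))) (b (b (l 16453592) (l 16478544)) (a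 (l 355441570839) (l 1))))) (b (b (a (l 16382496) (l 16362440)) (a (a (l 16433888) (l 16480592)) (l 1))) (b (a (l 497175420711) (l 1)) (l 1))))) (l 1)), by decide +kernel⟩

def k2_pm_022_a : ∃ t, chk3 f_pm_022_a t 2 7 1 = true :=
  ⟨(a (a (b (a (b (a (b (a (l 16374952) (l 16401456)) (a (l 16413344) (l 16445064))) (b (a (l 16432128) (l 16467240)) (a (l 16460328) (l 16477392)))) (a (b (a (b (l 16446240) (l 16470824)) (b (l 16482448) (l 16509192))) (a (b (l 16497304) (l 16504112)) (a (l 16520256) (l 16561880)))) (b (a (b (l 16521080) (l 16549176)) (l 16512624)) (a (c (l 16548472) (l 16553320)) (a (l 16582232) (l 16603392)))))) (b (a (a (b (l 16483160) (l 16516960)) (b (l 16521632) (l 16536056))) (a (b (l 16539656) (l 16598000)) (b (l 16579576) (b (l 16587784) (l 192232945511))))) (a (b (a (b (l 16580720) (l 16589392)) (b (l 16622184) (l 16625960))) (a (b (l 16619840) (l 16642272)) (b (l 163242003351) (a (l 16638272) (l 1))))) (a (b (b (l 16601672) (l 207265364695)) (b (l 533146043543) (l 1))) (b (b (l 378527130791)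 (l 1)) (l 1)))))) (a (b (b (b (a (a (l 16533160) (l 16553784)) (a (l 16596096) (l 16628704))) (l 6)) (l 6)) (l 6)) (b (a (b (a (a (b (l 16663840) (l 6)) (b (l 303902227927) (l 1))) (l 1)) (l 1)) (l 1)) (l 1)))) (a (b (b (a (b (a (l 16560248) (l 387653856695)) (a (l 529924727319) (l 1))) (l 1)) (l 1)) (l 1)) (l 1))) (l 1)), by decide +kernel⟩

def k3_pm_022_a : ∃ t, chk3 f_pm_022_a t 3 1 1 = true :=
  ⟨(l 1), by decide +kernel⟩

theorem s4_pm_022_a : ∃ t, chk3 f_pm_022_a t 2 3 1 = true := ex3_b k1_pm_022_a k2_pm_022_a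

theorem s5_pm_022_a : ∃ t, chk3 f_pm_022_a t 2 1 1 = true := ex3_b k0_pm_022_a s4_pm_022_a

theorem s6_pm_022_a : ∃ t, chk3 f_pm_022_a t 1 1 1 = true := ex3_a s5_pm_022_a k3_pm_022_a

theorem c_pm_022_a : CertB 0 536870912 0 536870912 1020054732 13421774 3 eng mog cd0q0 cd1q2a pd2 false true false .pp 0 2 2
    ndB0q0 ndB1q2a pcB2 cut_pm_022_a Ext.none :=
  certB2 (fam := false) (s1 := true) (s2 := false) (a := 0) (b := 2) (c := 2) (cn := .pp) (n1 := ndB0q0) (n2 := ndB1q2a) (pc := pcB2) (cut := cut_pm_022_a) (xt := Ext.none) (P1 := 0) (W1 := 536870912) (P2 := 0) (W2 := 536870912) (P3 := 1020054732) (W3 := 13421774) (N0 := 3) (En := eng) (mo := mog) (C1 := cd0q0) (C2 := cd1q2a) (C3 := pd2)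
    rfl (fun _ => rfl) s6_pm_022_a

noncomputable def cut_pm_022_b : Cut := Cut.of [[⟨0, 0, 0, 38347922⟩, ⟨1, 1, 0, 38347922⟩, ⟨2, 1, 0, 38347922⟩]]

noncomputable def f_pm_022_b : ℕ → ℕ → ℕ → ℕ → Bool := onCell 0 536870912 1073741824 536870912 1020054732 13421774
    (rowB 3 eng mog cd0q0 cd1q2b pd2 1 false true false .pp 0 2 2 (qsf 0 536870912 1239849684 370763052 2) ndB0q0 ndB1q2b pcB2 cut_pm_022_b Ext.none)

def k0_pm_022_b : ∃ t, chk3 f_pm_022_b t 1 1 1 = true :=
  ⟨(b (a (a (b (a (b (l 1) (a (b (l 1) (l 314101281735)) (b (l 298532190695) (l 277593716519)))) (b (a (b (l 1) (l 16108712)) (b (b (l 1) (l 16307256)) (l 16072880))) (a (b (l 15999584) (l 15818872)) (b (l 15911088) (l 15677664))))) (a (b (a (b (l 15793408) (l 15657896)) (b (l 15632176) (l 15507056))) (a (b (l 15429712) (l 15222512)) (b (l 15289280) (l 15089032)))) (b (a (b (l 15587416) (l 15368104)) (l 15350360)) (a (l 15061896) (l 14956472))))) (b (b (a (a (b (l 16132928) (l 16010720)) (b (l 16115968) (l 15878072))) (b (l 15884608) (l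 15703944))) (a (a (l 15536128) (l 15544432)) (b (l 15493592) (l 15295320)))) (a (b (a (l 15239472) (l 15141904)) (l 14825680)) (b (l 15020448) (l 14695544))))) (b (a (b (a (b (l 15715784) (l 15513640)) (l 15457320)) (a (l 15233112) (l 15118280))) (a (b (l 15341264) (l 15044704)) (b (l 15260656) (l 15008976)))) (a (b (a (l 14900208) (l 14825416)) (a (l 14614024) (l 14577928))) (a (b (l 14792872) (l 2)) (l 2))))) (a (a (b (a (b (a (b (l 15116672) (l 15081552)) (b (l 14979592) (l 14952016))) (a (l 15104552) (l 14986456))) (b (b (l 14790712) (l 14766808)) (l 14816112))) (a (b (a (l 15254368) (l 15152120)) (b (l 15389976) (l 15539280))) (b (l 15002896) (l 15256648)))) (b (b (a (b (l 14600792) (l 14546232)) (b (l 14483232) (l 14384880))) (a (l 14606864) (l 14419136))) (b (a (l 14814656) (l 2)) (l 2)))) (b (a (b (a (l 14374736) (l 2)) (l 2)) (l 2)) (l 2)))), by decide +kernel⟩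

theorem c_pm_022_b : CertB 0 536870912 1239849684 370763052 1020054732 13421774 3 eng mog cd0q0 cd1q2b pd2 false true false .pp 0 2 2
    ndB0q0 ndB1q2b pcB2 cut_pm_022_b Ext.none :=
  certB1 (fam := false) (s1 := true) (s2 := false) (a := 0) (b := 2) (c := 2) (cn := .pp) (n1 := ndB0q0) (n2 := ndB1q2b) (pc := pcB2) (cut := cut_pm_022_b) (xt := Ext.none) (P1 := 0) (W1 := 536870912) (P2 := 1239849684) (W2 := 370763052) (P3 := 1020054732) (W3 := 13421774) (N0 := 3) (En := eng) (mo := mog) (C1 := cd0q0) (C2 := cd1q2b) (C3 := pd2)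
    rfl (fun _ => rfl) k0_pm_022_b

noncomputable def f_pm_023 : ℕ → ℕ → ℕ → ℕ → Bool := onCell 0 536870912 1073741824 536870912 1020054732 13421774
    (rowB 3 eng mog cd0q0 cd1q3 pd2 1 false true false .up 0 2 3 (qsf 0 536870912 1610612736 536870912 2) ndB0q0 ndB1q3 pcB2 Cut.none Ext.none)

def k0_pm_023 : ∃ t, chk3 f_pm_023 t 1 1 1 = true :=
  ⟨(b (a (a (l 1) (b (l 1) (a (l 1) (b (l 1) (l 384964801943))))) (a (b (b (l 1) (a (l 1) (a (l 1) (l 14842968)))) (b (a (l 345236747879) (b (l 14654808) (l 14535552))) (a (l 251283822183) (l 14381400)))) (b (a (b (b (l 1) (l 14992096)) (b (l 14878504) (l 14757072))) (b (b (a (l 15110008) (l 15088728)) (l 14977128)) (b (l 14868160) (l 14771488)))) (a (b (b (l 14648400) (l 14552112)) (l 14430632)) (b (b (l 14686624) (l 14613072)) (l 14523472)))))) (a (a (b (a (l 1) (b (l 1) (l 430599002135))) (a (b (a (l 1) (l 389260691271)) (b (l 357048925671) (a (l 15349656) (l 15286328)))) (b (b (l 14697400) (l 14838176)) (b (l 15006072) (l 15195672))))) (b (b (a (b (l 1) (l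 375301679367)) (b (l 14238616) (l 162699695783))) (a (b (l 14329296) (l 14415912)) (b (l 14167528) (l 14259584)))) (b (a (b (l 14538664) (l 14693432)) (l 14471368)) (a (b (l 14875640) (l 15080136)) (l 14854008))))) (b (a (b (a (l 14175760) (l 14219216)) (a (b (l 14084968) (l 14115040)) (l 13951360))) (b (a (l 14307968) (l 14438296)) (a (l 14228296) (l 14389264)))) (a (b (a (l 14331216) (b (l 14134720) (l 14270608))) (a (l 14723376) (l 14575552))) (b (a (l 14014016) (l 14371592)) (a (b (l 14315912) (l 14507024)) (a (l 14375240) (l 14427368)))))))), by decide +kernel⟩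

theorem c_pm_023 : CertB 0 536870912 1610612736 536870912 1020054732 13421774 3 eng mog cd0q0 cd1q3 pd2 false true false .up 0 2 3
    ndB0q0 ndB1q3 pcB2 Cut.none Ext.none :=
  certB1 (fam := false) (s1 := true) (s2 := false) (a := 0) (b := 2) (c := 3) (cn := .up) (n1 := ndB0q0) (n2 := ndB1q3) (pc := pcB2) (cut := Cut.none) (xt := Ext.none) (P1 := 0) (W1 := 536870912) (P2 := 1610612736) (W2 := 536870912) (P3 := 1020054732) (W3 := 13421774) (N0 := 3) (En := eng) (mo := mog) (C1 := cd0q0) (C2 := cd1q3) (C3 := pd2)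
    rfl (fun _ => rfl) k0_pm_023

noncomputable def f_pm_033 : ℕ → ℕ → ℕ → ℕ → Bool := onCell 1610612736 536870912 1610612736 536870912 1020054732 13421774
    (rowB 3 eng mog cd0q0 cd1q3 pd3 2 false true false .pnn 0 3 3 (qsf 0 536870912 1610612736 536870912 3) ndB0q0 ndB1q3 pcB3 Cut.none Ext.none)

def k0_pm_033 : ∃ t, chk3 f_pm_033 t 1 1 1 = true :=
  ⟨(a (b (a (b (a (b (a (b (l 15399512) (l 15515816)) (l 15120720)) (a (b (l 15627920) (l 15729792)) (b (l 15464936) (l 15577016)))) (a (b (l 14896928) (b (l 15286488) (l 15404616))) (l 4))) (a (b (l 15619800) (l 15919512)) (b (a (b (l 15520408) (l 15626328)) (l 4)) (a (l 15752496) (l 15616912))))) (l 4)) (a (b (a (b (l 16027792) (l 16127072)) (b (l 15835760) (l 15964240))) (a (b (l 16236152) (l 16382824)) (b (l 16090032) (l 16212328)))) (a (b (b (l 4) (l 15783288)) (b (l 15949080) (l 15860792))) (l 4)))) (l 4)), by decide +kernel⟩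

theorem c_pm_033 : CertB 0 536870912 1610612736 536870912 1020054732 13421774 3 eng mog cd0q0 cd1q3 pd3 false true false .pnn 0 3 3
    ndB0q0 ndB1q3 pcB3 Cut.none Ext.none :=
  certB2 (fam := false) (s1 := true) (s2 := false) (a := 0) (b := 3) (c := 3) (cn := .pnn) (n1 := ndB0q0) (n2 := ndB1q3) (pc := pcB3) (cut := Cut.none) (xt := Ext.none) (P1 := 0) (W1 := 536870912) (P2 := 1610612736) (W2 := 536870912) (P3 := 1020054732) (W3 := 13421774) (N0 := 3) (En := eng) (mo := mog) (C1 := cd0q0) (C2 := cd1q3) (C3 := pd3)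
    rfl (fun _ => rfl) k0_pm_033

noncomputable def f_pm_101 : ℕ → ℕ → ℕ → ℕ → Bool := onCell 0 536870912 536870912 536870912 1020054732 13421774
    (rowB 3 eng mog cd0q1 cd1q1 pd0 2 false true false .npn 1 0 1 (qsf 536870912 536870912 536870912 536870912 0) ndB0q1 ndB1q1 pcB0 Cut.none Ext.none)

def k0_pm_101 : ∃ t, chk3 f_pm_101 t 2 1 1 = true :=
  ⟨(b (a (b (l 4) (b (l 4) (a (b (a (c (l 16217552) (l 62510399559)) (a (l 16155656) (l 4))) (a (l 16009792) (b (l 16238368) (l 16225776)))) (b (l 4) (a (c (l 16305328) (l 16122304)) (l 79690502183)))))) (l 4)) (a (b (b (a (b (a (l 16025368) (l 16092152)) (a (l 15837488) (l 15907256))) (b (a (l 16166856) (l 45867334119)) (a (l 15990736) (l 16075264)))) (a (b (a (l 15692832) (l 15729440)) (a (a (b (l 15580368) (l 15552464)) (b (l 15572728) (l 15522200))) (b (l 15608312) (a (l 15525728) (l 15550784))))) (a (b (l 15815992) (l 15502608)) (b (l 15908208) (l 15749160))))) (a (b (a (a (b (l 15568296) (l 15804976)) (a (b (l 15487104) (l 15567040)) (b (l 15459840)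 (l 15477128)))) (a (b (l 15442520) (l 15400112)) (b (l 15451592) (l 15365416)))) (a (b (a (l 15847024) (a (l 15798000) (l 15684016))) (a (b (l 15858496) (b (l 15867456) (l 15878272))) (a (b (l 15803168) (l 15811688)) (b (l 15762960) (l 15770912))))) (b (a (l 15480184) (l 15365440)) (a (a (l 15742552) (l 15643232)) (b (l 15446736) (l 15542048)))))) (b (b (a (b (l 15541912) (l 15472352)) (l 15604848)) (a (l 15390232) (l 15478984))) (b (a (l 15336368) (l 15399088)) (a (l 15607648) (l 15394280)))))) (b (a (b (b (a (l 77005978503) (l 81301100199)) (a (l 16153432) (l 16114792))) (b (a (l 15995056) (l 16071224)) (l 15741200))) (b (b (l 4) (a (l 75932314423) (l 4))) (b (a (l 16134704) (l 16185216)) (a (l 16000472) (l 16058720))))) (b (a (b (a (l 15704600) (l 15797576)) (a (l 15584328) (l 15687528))) (b (l 15913128) (a (l 15775136) (l 15845240)))) (a (b (a (l 15497256) (l 15600600)) (a (l 15470920) (l 15565688))) (b (a (l 15684920) (l 15721176)) (a (l 15589128) (l 15600408)))))))), by decide +kernel⟩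

def k1_pm_101 : ∃ t, chk3 f_pm_101 t 3 1 1 = true :=
  ⟨(b (l 4) (b (b (l 4) (a (a (b (a (l 16142552) (l 4)) (a (l 16104880) (l 16142152))) (b (l 4) (a (l 16175408) (l 4)))) (l 4))) (a (a (b (b (l 16017272) (a (l 15902848) (l 15944200))) (b (a (l 15769896) (b (l 15872832) (l 15793328))) (a (l 15623936) (b (l 15708328) (l 15621896))))) (b (b (a (l 16067096) (l 16095648)) (l 15948472)) (b (a (b (l 15923000) (l 15873728)) (b (l 15942640) (l 15917960))) (a (b (l 15776432) (l 15676216)) (b (l 15866880) (l 15752880)))))) (b (a (b (a (l 16125000) (l 4)) (a (l 16023736) (l 16006800))) (b (l 1) (a (l 153040010871) (l 1)))) (a (b (a (l 15942752) (l 15953784)) (a (b (a (l 15913792) (l 15907440)) (l 15853216)) (b (b (l 15903632) (l 15895712)) (a (l 15933064) (l 15908880))))) (b (a (l 15950368) (b (l 1) (l 15969072))) (a (b (l 15897312) (b (a (l 15875512) (l 15865600)) (a (l 15900064) (l 15866840)))) (a (b (l 15903360) (l 15774512)) (l 15776104))))))))), by decide +kernel⟩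

theorem s2_pm_101 : ∃ t, chk3 f_pm_101 t 1 1 1 = true := ex3_a k0_pm_101 k1_pm_101

theorem c_pm_101 : CertB 536870912 536870912 536870912 536870912 1020054732 13421774 3 eng mog cd0q1 cd1q1 pd0 false true false .npn 1 0 1
    ndB0q1 ndB1q1 pcB0 Cut.none Ext.none :=
  certB2 (fam := false) (s1 := true) (s2 := false) (a := 1) (b := 0) (c := 1) (cn := .npn) (n1 := ndB0q1) (n2 := ndB1q1) (pc := pcB0) (cut := Cut.none) (xt := Ext.none) (P1 := 536870912) (W1 := 536870912) (P2 := 536870912) (W2 := 536870912) (P3 := 1020054732) (W3 := 13421774) (N0 := 3) (En := eng) (mo := mog) (C1 := cd0q1) (C2 := cd1q1) (C3 := pd0)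
    rfl (fun _ => rfl) s2_pm_101

end Pool.Agent.Strip051.G.I9500_9625.Tab.C.BB01

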