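import Pool.Agent.Strip051.G.I9500_9625.Tab
import Pool.Agent.Strip051.PB.ExtD3

/-! # Certificates B21 (generated) -/

set_option linter.all false
set_option maxRecDepth 100000

namespace Pool.Agent.Strip051.G.I9500_9625.Tab.C.BB01

open Pool.Agent.Strip051.PB Pool.Agent.Strip051.PB.T
open Pool.Agent.Strip051.G.I9500_9625.Tab

noncomputable def f_pm_112_a : ℕ → ℕ → ℕ → ℕ → Bool := onCell 536870912 536870912 0 536870912 1020054732 13421774
    (rowB 3 eng mog cd0q1 cd1q2a pd1 0 false true false .dn 1 1 2 (qsf 536870912 536870912 0 536870912 1) ndB0q1 ndB1q2a pcB1 Cut.none Ext.none)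

def k0_pm_112_a : ∃ t, chk3 f_pm_112_a t 8 4 1 = true :=
  ⟨(b (b (a (a (c (c (l 16614640) (l 16635208)) (c (l 16655704) (l 16655984))) (c (c (l 16531224) (l 16580864)) (c (l 16629568) (l 16590136)))) (a (a (c (b (l 16524344) (l 16601328)) (c (l 16646096) (l 16636568))) (c (c (l 16520512) (l 16562360)) (c (l 16621880) (l 16616040)))) (b (a (c (c (l 16513048) (l 16568184)) (c (l 16638000) (l 16639984))) (a (c (c (l 16498408) (l 16581160)) (c (l 16634848) (l 16661160))) (b (b (c (a (c (l 16477584) (l 16570424)) (c (b (l 16473816) (l 16474048)) (l 16527080))) (c (a (l 16631472) (l 16631200)) (l 16663112))) (c (l 16477280) (l 16595416))) (c (l 16486504) (l 16595248))))) (c (c (a (l 16559072) (l 16543304)) (a (l 16601664) (l 16592920))) (c (a (l 16640624) (l 16637208)) (c (l 16667840) (l 16665288))))))) (a (a (c (l 16620800) (l 16627304)) (c (c (l 16621912) (l 16636048)) (c (l 16650360) (l 16652248)))) (c (a (c (l 16561856) (l 16625104)) (c (b (l 16552368) (l 16591368)) (a (l 16615968) (l 16609328)))) (a (c (l 16646080)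 (l 16645984)) (c (c (l 16634240) (l 16648200)) (c (l 16661928) (l 16671424))))))) (b (a (c (a (l 16604984) (l 16644728)) (a (l 16619296) (l 16635344))) (c (a (l 16570048) (c (l 16613024) (l 16627248))) (a (c (l 16645096) (l 16644448)) (c (l 16641560) (l 16656088))))) (a (c (a (l 16523448) (l 16559224)) (a (l 16591200) (l 16602344))) (c (a (l 16600216) (l 16573664)) (a (l 16616824) (l 16613480)))))), by decide +kernel⟩

def k1_pm_112_a : ∃ t, chk3 f_pm_112_a t 36 8 2 = true :=
  ⟨(b (a (b (b (a (b (c (l 16454800) (l 16549608)) (a (c (l 16453760) (l 16568640)) (b (l 16468576) (c (l 16471232) (l 16566768))))) (c (b (l 16502008) (l 16452512)) (l 16572080))) (b (a (l 16475064) (a (c (l 16450944) (l 16566912)) (b (l 16466712) (c (l 16468480) (l 16565104))))) (c (l 16462736) (l 16572880)))) (c (l 16462232) (l 16562120))) (c (b (b (l 16465256) (a (b (l 16471272) (a (l 16448168) (b (l 16487584) (l 16465792)))) (l 16452208))) (b (a (l 16479712) (b (a (b (l 16443504) (l 16489032)) (b (l 16485360) (l 16442208))) (l 16472288)))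 (l 16470768))) (b (b (l 16579120) (a (b (l 16567920) (a (l 16565248) (l 16564408))) (l 16569688))) (b (a (l 16570408) (b (a (l 16563640) (l 16563016)) (l 16566432))) (l 16576256))))) (a (c (l 16542768) (l 16581144)) (b (c (l 16514960) (l 16587752)) (l 16560208)))), by decide +kernel⟩

def k2_pm_112_a : ∃ t, chk3 f_pm_112_a t 37 8 2 = true :=
  ⟨(b (b (c (a (b (l 16468048) (l 16461816)) (c (l 16466760) (l 16545136))) (c (a (l 16566984) (l 16579192)) (a (l 16599272) (l 16609920)))) (a (b (a (b (c (l 16467096) (l 16565576)) (a (b (c (l 16440928) (l 16561272)) (l 16463296)) (b (l 16461672) (c (l 16439680) (l 16560568))))) (c (l 16447312) (l 16567624))) (a (c (l 16474464) (l 16567264)) (b (a (b (c (l 16438448) (l 16559888)) (l 16461072)) (b (l 16460184) (c (l 16436456) (l 16559232)))) (c (l 16445688) (l 16563144))))) (b (c (l 16455024) (l 16575992)) (a (b (l 16441976) (a (b (c (l 16444696) (l 16558600)) (l 16437944)) (b (l 16458848) (c (l 16442488) (l 16557992))))) (c (l 16461032) (l 16565968)))))) (c (a (c (l 16433920)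 (l 16504336)) (b (b (a (b (l 16442976) (l 16495312)) (b (a (b (l 16440320) (l 16454648)) (b (l 16472160) (l 16443456))) (a (l 16485736) (l 16446032)))) (l 16461840)) (l 16508272))) (b (a (l 16556728) (b (a (l 16543272) (b (a (l 16536992) (l 16558288)) (l 16539168))) (l 16570872))) (a (l 16592240) (l 16562360))))), by decide +kernel⟩

def k3_pm_112_a : ∃ t, chk3 f_pm_112_a t 38 8 2 = true :=
  ⟨(a (c (b (c (b (b (l 16522504) (l 16502752)) (l 16457208)) (b (l 16538272) (l 16526424))) (b (b (a (b (l 16474072) (a (b (l 16441392) (l 16449760)) (b (l 16468648) (l 16444624)))) (l 16454448)) (a (b (a (l 16483144) (l 16435960)) (l 16490528)) (b (a (b (l 16442672) (l 16445056)) (c (l 16412640) (l 16493664))) (a (l 16479024) (b (l 16437536) (l 16472152)))))) (c (l 16449176) (l 16526128)))) (b (b (c (l 16592456) (l 16600504)) (c (l 16564376) (l 16597712))) (b (b (a (b (l 16561976) (a (l 16535784) (l 16557344))) (l 16564696)) (a (l 16519512) (b (a (l 16534680) (l 16556512)) (l 16536456)))) (l 16552120)))) (b (c (b (c (b (l 16539336)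 (l 16518912)) (l 16551672)) (c (c (l 16433408) (l 16500880)) (l 16538728))) (b (c (l 16606760) (l 16633920)) (c (l 16578184) (l 16609784)))) (b (b (c (c (l 16457160) (l 16513016)) (l 16553304)) (a (b (l 16437768) (a (c (b (l 16438952) (l 16432688)) (l 16533672)) (c (l 16439416) (l 16555800)))) (c (l 16448600) (l 16563824)))) (b (a (b (c (c (c (l 16382112) (l 16454048)) (l 16475760)) (l 16535224)) (l 16441808)) (c (b (a (b (l 16435480) (c (l 16405592) (l 16487568))) (l 16436192)) (a (l 16469736) (c (l 16386720) (l 16489304)))) (b (a (l 16532784) (l 16555200)) (l 16513112)))) (c (l 16443048) (l 16545352)))))), by decide +kernel⟩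

def k4_pm_112_a : ∃ t, chk3 f_pm_112_a t 39 8 2 = true :=
  ⟨(c (b (b (a (c (b (l 16558208) (l 16537144)) (l 16556344)) (c (b (l 16537128) (l 16515440)) (b (l 16613648) (l 16595696)))) (a (c (c (l 16451544) (l 16517344)) (l 16531840)) (c (a (l 16477792) (l 16487968)) (l 16547680)))) (b (a (c (l 16456960) (l 16517440)) (c (c (l 16447192) (l 16472968)) (l 16532328))) (a (b (a (b (l 16462048) (a (b (l 16453256) (c (l 16401344) (l 16483848))) (l 16454192))) (l 16454040)) (a (b (a (l 16465216) (b (c (l 16399328) (l 16482080)) (l 16458208))) (l 16457200)) (b (a (b (l 16450344) (c (l 16397392) (l 16480376))) (l 16451480)) (a (l 16460800) (b (c (l 16395536) (l 16478744)) (l 16453688)))))) (b (c (l 16427080) (l 16504832)) (a (b (l 16457280) (a (b (l 16447736) (c (l 16393760) (l 16477176))) (l 16449128))) (l 16449880)))))) (b (c (b (a (l 16622064) (l 16617352)) (a (l 16593024) (l 16608864))) (a (b (l 16647216) (l 16622744)) (b (l 16661312) (l 16636552)))) (b (a (l 16539016) (c (l 16578760) (l 16611136))) (a (b (a (b (l 16560024)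 (a (l 16532008) (l 16554720))) (l 16563376)) (a (c (l 16517184) (l 16574360)) (b (l 16522368) (a (l 16554232) (l 16530656))))) (b (l 16553216) (a (b (l 16559704) (l 16511480)) (l 16563384))))))), by decide +kernel⟩

def k5_pm_112_a : ∃ t, chk3 f_pm_112_a t 9 9 2 = true :=
  ⟨(c (a (a (b (l 16553024) (l 16621280)) (b (b (l 16563328) (l 16583224)) (l 16605896))) (a (b (a (l 16491344) (b (l 16481464) (l 16552648))) (b (l 16580304) (l 16596456))) (b (b (a (c (l 16441128) (l 16499200)) (b (a (b (a (l 16435472) (b (c (l 16392072) (l 16475688)) (l 16438896))) (l 16449056)) (b (a (c (l 16392544) (l 16476000)) (l 16447040)) (a (l 16427384) (b (c (l 16409928) (l 16472928)) (l 16434904))))) (a (l 16473448) (l 16433864)))) (c (l 16408528) (l 16500632))) (b (l 16535928) (l 16578280))))) (a (a (b (l 16595744) (l 16628824)) (b (b (l 16600096) (l 16609512)) (l 16619840))) (a (b (a (l 16552888) (b (l 16579800) (l 16593680))) (l 16547528)) (b (b (a (l 16527472) (b (a (b (a (l 16553128) (l 16529912)) (l 16557472)) (b (l 16532192) (a (l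 16552120) (l 16529312)))) (l 16541776))) (a (l 16586072) (l 16577288))) (b (l 16574152) (l 16604648)))))), by decide +kernel⟩

def k6_pm_112_a : ∃ t, chk3 f_pm_112_a t 9 8 6 = true :=
  ⟨(a (b (a (b (a (b (a (b (l 16632664) (a (l 16630296) (l 16630144))) (l 16633792)) (a (l 16631480) (b (a (l 16629184) (l 16629152)) (l 16629768)))) (b (l 16638848) (a (b (l 16630936) (a (l 16628128) (l 16628224))) (l 16632280)))) (a (l 16633496) (b (a (l 16629312) (b (a (l 16627136) (l 16627368)) (l 16627664))) (l 16630536)))) (b (a (c (l 16628544) (l 16655104)) (c (l 16637624) (l 16662600))) (a (b (a (b (l 16629496) (a (l 16626208) (l 16626584))) (l 16631064)) (a (l 16627336) (b (a (l 16625352) (l 16625880)) (l 16625680)))) (b (l 16637168) (a (b (l 16628328) (a (l 16624568) (l 16625248))) (l 16630192)))))) (a (c (l 16605832) (l 16623824)) (b (a (l 16608752) (b (a (l 16625536) (b (a (l 16623856) (l 16624704)) (l 16623976))) (l 16627064))) (a (l 16632864) (l 16629960))))) (b (a (c (a (b (l 16647488) (l 16627608)) (b (l 16658120) (l 16637960)))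 (a (b (l 16670792) (l 16654408)) (b (l 16679648) (l 16663040)))) (c (a (b (l 16669480) (l 16649072)) (b (l 16660552) (l 16660920))) (b (a (l 16689136) (l 16699216)) (a (l 16672344) (l 16682272))))) (a (b (a (b (a (b (l 16627544) (a (l 16623232) (l 16624240))) (l 16629656)) (a (l 16602992) (b (a (l 16622688) (l 16623856)) (l 16622552)))) (a (b (l 16634312) (c (l 16610152) (l 16639888))) (l 16634296))) (a (l 16605784) (b (a (b (l 16621952) (l 16623424)) (b (l 16580952) (l 16621432))) (l 16624464)))) (b (a (l 16599936) (l 16610656)) (a (b (a (b (l 16626984) (l 16601728)) (l 16629584)) (a (b (l 16600024) (l 16622368)) (b (l 16601624) (l 16599680)))) (a (b (l 16634896) (l 16583160)) (l 16614264))))))), by decide +kernel⟩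

def k7_pm_112_a : ∃ t, chk3 f_pm_112_a t 9 9 6 = true :=
  ⟨(a (a (b (l 16637808) (l 16636640)) (b (b (l 16612544) (l 16634344)) (l 16633768))) (a (b (c (b (l 16618328) (l 16622728)) (l 16607440)) (l 16610232)) (b (b (a (l 16603720) (b (a (b (l 16599424) (l 16621568)) (b (l 16622688) (l 16578296))) (l 16622824))) (a (l 16628032) (l 16625984))) (c (l 16622040) (l 16635840))))), by decide +kernel⟩

def k8_pm_112_a : ∃ t, chk3 f_pm_112_a t 9 4 7 = true :=
  ⟨(b (a (b (a (b (a (a (b (c (l 16651024) (l 16675336)) (l 16681336)) (b (l 16664840) (b (l 16640352) (l 16680984)))) (b (l 16667768) (a (b (l 16662784) (l 16639544)) (l 16663456)))) (a (l 16656984) (b (a (l 16679560) (b (l 16638784) (l 16679304))) (l 16656464)))) (b (c (a (l 16679256) (l 16685160)) (a (l 16701304) (l 16705592))) (a (b (a (b (l 16682432) (l 16638088)) (l 16662304)) (a (l 16677976) (b (l 16637448) (l 16677768)))) (a (b (l 16685728) (b (l 16681336) (l 16636864))) (l 16664392))))) (a (c (l 16662104) (l 16626416)) (b (a (l 16653688) (b (a (l 16655576) (b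 (l 16636344) (l 16655488))) (l 16674512))) (c (l 16660816) (l 16679136))))) (b (c (b (a (a (l 16691680) (l 16698792)) (a (l 16706456) (l 16714656))) (a (l 16660872) (a (l 16692872) (l 16700936)))) (a (a (l 16684256) (l 16689552)) (b (a (l 16721736) (l 16728112)) (l 16693096)))) (a (b (a (b (a (a (l 16636728) (l 16658832)) (l 16681784)) (a (l 16654360) (b (l 16656456) (l 16654416)))) (a (c (b (l 16673184) (l 16666464)) (l 16661656)) (l 16663664))) (a (l 16651096) (b (a (l 16632400) (a (l 16633256) (l 16634272))) (l 16672360)))) (b (c (l 16661648) (l 16681768)) (a (b (a (l 16636344) (l 16681328)) (a (l 16642128) (a (l 16632736) (l 16633920)))) (c (l 16650992) (l 16652128))))))) (a (a (b (l 16616632) (l 16644592)) (b (c (l 16654568) (l 16667936)) (l 16647856))) (a (b (c (l 16635200) (b (l 16676448) (l 16668848))) (l 16588464)) (b (b (a (l 16649272) (b (a (b (l 16652832) (l 16672456)) (c (l 16663160) (l 16686552))) (l 16671032))) (c (l 16656480) (l 16674376))) (c (l 16649128) (l 16661992)))))), by decide +kernel⟩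

def k9_pm_112_a : ∃ t, chk3 f_pm_112_a t 4 5 1 = true :=
  ⟨(a (b (c (a (b (c (l 16321776) (l 16418984)) (a (l 16313176) (l 16292584))) (b (a (l 16482376) (l 16500792)) (c (a (l 16369712) (l 16408080)) (l 16323792)))) (a (c (b (l 16537688) (l 16491560)) (b (l 16593752) (l 16576232))) (b (a (l 16578728) (l 16591464)) (c (l 16511672) (l 16573936))))) (c (a (b (a (l 16202616) (l 16174688)) (a (l 16044328) (l 16030008))) (b (a (l 16173256) (l 16156248)) (a (l 15979224) (c (l 16146256) (l 16266960))))) (c (a (b (l 16400808) (l 16348024)) (b (l 16388544) (l 16324176))) (a (l 16399696) (b (l 16545544) (l 16493192)))))) (b (a (c (b (a (l 16503072) (b (l 16625264) (l 16605944))) (a (c (l 16410224) (l 16473192)) (b (l 16546064) (l 16442592)))) (b (a (l 16607240) (c (l 16628208) (l 16623472))) (a (l 16536864) (l 16519120)))) (c (b (a (b (l 16614304) (l 16621624)) (c (l 16558880) (l 16613984))) (a (b (l 16594424) (l 16529952)) (b (l 16618040) (l 16579512)))) (b (a (c (l 16628672) (l 16636152)) (c (l 16627096) (l 16640320))) (a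 (c (l 16581608) (l 16594552)) (c (l 16608664) (l 16605616)))))) (c (a (b (a (c (l 16316720) (l 16391912)) (b (l 16379608) (l 16315104))) (a (b (l 16219176) (l 16133912)) (c (l 16145648) (l 16284880)))) (b (a (b (l 16400640) (l 16332544)) (b (l 16510152) (l 16375696))) (a (a (l 16092568) (l 16089248)) (c (l 16167064) (l 16299616))))) (a (c (b (a (l 16467768) (l 16462048)) (a (l 16394632) (l 16383048))) (b (l 16523432) (l 16440592))) (b (a (c (l 16501632) (l 16549880)) (c (l 16523448) (l 16556288))) (c (a (l 16395808) (l 16390848)) (a (l 16501760) (l 16503320)))))))), by decide +kernel⟩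

def k10_pm_112_a : ∃ t, chk3 f_pm_112_a t 40 8 1 = true :=
  ⟨(b (c (c (b (a (c (b (a (l 16575000) (l 16586848)) (l 16537616)) (b (l 16632440) (l 16613976))) (c (b (a (l 16599152) (l 16611888)) (l 16561656)) (b (l 16652800) (l 16633864)))) (a (c (a (l 16498624) (l 16509768)) (l 16575720)) (c (b (l 16538800) (l 16536896)) (l 16589680)))) (c (b (a (l 16634056) (l 16639752)) (a (l 16625448) (l 16619936))) (a (b (l 16676168) (l 16651160)) (b (l 16670752) (l 16666512))))) (c (c (b (a (l 16673232) (l 16707480)) (a (l 16673440) (l 16665624))) (b (a (l 16709848) (l 16700024)) (a (l 16692792) (l 16703864)))) (c (b (a (l 16723344) (l 16732496)) (a (l 16709528) (l 16718608))) (b (a (l 16734952) (l 16742216)) (c (l 16703360) (l 16730560)))))) (c (c (c (b (a (b (l 16491544) (l 16469088)) (b (l 16513984) (l 16491024))) (a (l 16393288) (l 16414520))) (b (a (l 16548976) (l 16567312)) (a (l 16511400) (l 16528952)))) (b (a (c (l 16595216) (l 16625520)) (c (l 16610352) (l 16640704))) (a (l 16540176) (l 16556264)))) (c (c (b (l 16616568)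 (l 16594352)) (b (l 16659608) (l 16662160))) (c (a (l 16666640) (l 16675624)) (b (l 16694984) (l 16703824)))))), by decide +kernel⟩

def k11_pm_112_a : ∃ t, chk3 f_pm_112_a t 40 9 1 = true :=
  ⟨(b (b (a (a (b (c (c (c (b (l 16422984) (a (l 16389880) (l 16414024))) (l 16479928)) (l 16514712)) (c (l 16604536) (l 16657312))) (c (a (c (c (l 16385872) (l 16488336)) (l 16533392)) (b (c (c (b (l 16407184) (l 16410104)) (l 16472704)) (l 16528848)) (l 16440712))) (b (c (l 16578240) (l 16652672)) (l 16606208)))) (b (c (c (l 16457144) (l 16563880)) (l 16595344)) (c (b (c (c (l 16389928) (l 16473520)) (l 16532080)) (c (a (c (l 16392392) (l 16475904)) (c (b (l 16404816) (l 16385616)) (l 16470168))) (a (l 16529528) (l 16528544)))) (a (b (l 16587632) (l 16585232)) (c (l 16580664) (l 16655008)))))) (c (c (c (a (b (l 16437376) (l 16393760)) (l 16415504)) (b (l 16499960) (l 16476104))) (c (l 16506512) (l 16586920))) (c (c (l 16598960) (l 16648584)) (c (l 16673336) (l 16694648))))) (a (c (c (b (c (l 16430576) (l 16505456)) (l 16485920))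 (l 16503920)) (c (l 16602656) (l 16648248))) (b (c (a (b (c (c (a (l 16367888) (b (l 16402856) (l 16382496))) (a (l 16472824) (l 16446968))) (a (l 16528944) (l 16528408))) (c (l 16434232) (l 16554368))) (b (c (a (l 16394728) (l 16420248)) (l 16553560)) (c (a (c (l 16364680) (l 16470040)) (b (l 16412392) (l 16370024))) (a (l 16528520) (l 16528440))))) (a (b (c (l 16578440) (l 16652800)) (l 16606144)) (b (l 16589656) (c (l 16578712) (l 16652968))))) (c (c (c (l 16423728) (l 16502616)) (l 16539368)) (c (l 16622280) (l 16670560)))))) (c (b (a (c (l 16513184) (l 16584528)) (c (l 16452208) (l 16575960))) (c (l 16513472) (l 16573088))) (c (c (b (l 16615568) (l 16619664)) (l 16604520)) (c (l 16631864) (l 16624680))))), by decide +kernel⟩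

def k12_pm_112_a : ∃ t, chk3 f_pm_112_a t 40 5 1 = true :=
  ⟨(b (c (b (c (b (l 16577248) (l 16593008)) (b (l 16603344) (l 16609520))) (b (l 16587984) (l 16593448))) (b (c (b (l 16627248) (l 16625504)) (c (l 16640696) (l 16650080))) (c (l 16621008) (l 16618736)))) (b (c (b (l 16539848) (a (l 16473960) (l 1))) (c (l 16548280) (l 16564808))) (b (c (l 16304424) (l 16478232)) (l 1)))), by decide +kernel⟩

def k13_pm_112_a : ∃ t, chk3 f_pm_112_a t 82 2 1 = true :=
  ⟨(b (b (b (c (c (b (c (b (a (l 16625048) (l 16638608)) (l 16587440)) (b (l 16669400) (l 16655264))) (c (a (l 16545960) (l 16558904)) (b (l 16635880) (l 16616464)))) (b (c (b (l 16696312) (l 16680872)) (l 16686928)) (a (l 16626232) (l 16634824)))) (c (b (c (l 16721288) (l 16711624)) (c (l 16700328) (l 16715432))) (b (c (l 16742056) (l 16728904)) (c (l 16728144) (l 16738728))))) (c (c (b (c (b (l 16538272) (l 16514848)) (l 16587272)) (c (l 16437680) (l 16548176))) (b (c (l 16626472) (l 16656608)) (l 16573192))) (c (c (l 16662384) (l 16646496)) (c (l 16685112)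 (l 16720944))))) (b (b (c (c (c (l 16411472) (l 16508800)) (l 16543264)) (c (l 16647160) (l 16671736))) (c (b (c (c (l 16376512) (l 16479584)) (l 16520480)) (a (b (c (a (b (l 16368912) (l 16438800)) (b (l 16411312) (l 16367904))) (a (l 16528264) (l 16528648))) (c (c (l 16396272) (l 16479320)) (l 16553176))) (b (c (l 16416320) (l 16554688)) (c (a (b (l 16387976) (l 16435512)) (b (l 16410696) (l 16387192))) (a (l 16528184) (l 16550016)))))) (b (c (l 16630856) (l 16660560)) (a (b (a (l 16585712) (l 16587232)) (l 16585328)) (b (l 16611800) (a (l 16586072) (l 16608760))))))) (c (b (c (b (a (l 16458848) (c (l 16383680) (l 16486584))) (l 16482336)) (c (l 16506712) (l 16581432))) (c (l 16511688) (l 16584192))) (a (c (l 16604752) (l 16633248)) (b (c (l 16623136) (l 16648880)) (l 16603656)))))) (b (b (c (b (l 16558664) (l 16593256)) (c (l 16626512) (l 16629008))) (b (l 1) (l 1))) (l 1))), by decide +kernel⟩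

def k14_pm_112_a : ∃ t, chk3 f_pm_112_a t 83 2 1 = true :=
  ⟨(b (b (b (c (b (c (c (b (a (l 16652568) (l 16666896)) (l 50499092503)) (b (a (l 16691920) (l 16703832)) (l 16678064))) (c (a (l 16681376) (l 16690872)) (l 34393135175))) (c (c (a (l 16572264) (l 16586024)) (b (l 16658280) (l 16638488))) (a (l 16642776) (l 36540502967)))) (c (b (c (l 16714584) (l 16723648)) (c (l 16714576) (l 16706488))) (b (c (l 16731024) (l 16736904)) (b (l 16724848) (l 16718480))))) (c (c (b (c (b (l 16564304) (l 16540440)) (l 16608752)) (c (l 16462656) (l 16568984))) (b (c (l 16643816) (l 16673176)) (l 16569792))) (c (b (l 16680760) (l 16660472)) (c (l 16695064) (l 16707896))))) (b (c (c (b (c (l 16435688) (l 16529016)) (c (l 16387512) (l 16488752))) (b (l 16560944) (l 16530008))) (c (b (l 16660344) (l 16638304)) (c (l 16684280) (l 16702992)))) (b (a (a (c (b (b (c (b (l 16386512) (l 16390760)) (l 16528304)) (l 16442056)) (l 16465080)) (b (b (l 16586536) (l 16627704)) (l 16627192))) (l 1)) (l 1)) (l 1)))) (l 1)), by decide +kernel⟩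

def k15_pm_112_a : ∃ t, chk3 f_pm_112_a t 21 2 1 = true :=
  ⟨(b (b (l 1) (l 1)) (l 1)), by decide +kernel⟩

def k16_pm_112_a : ∃ t, chk3 f_pm_112_a t 11 2 1 = true :=
  ⟨(l 1), by decide +kernel⟩

def k17_pm_112_a : ∃ t, chk3 f_pm_112_a t 8 6 1 = true :=
  ⟨(b (b (b (c (a (a (c (l 16024968) (l 16191008)) (l 15927104)) (a (l 16038544) (l 16029464))) (a (a (l 16316440) (l 16278304)) (l 16181128))) (c (a (a (l 16060928) (b (l 15924096) (l 16041032))) (a (a (l 15884984) (l 15856584)) (a (l 15940696) (l 16009408)))) (a (a (l 16378032) (l 16226232)) (c (a (l 16307160) (l 16296056)) (l 16344824))))) (c (a (c (a (l 16118800) (l 16066416)) (l 16083480)) (a (b (l 15896288) (l 16006688)) (b (b (a (l 15933040) (l 15921128)) (l 15770104)) (l 15871760)))) (a (a (l 16345464) (l 16235104)) (a (l 16143680) (b (c (l 16256816) (l 16448968)) (l 16202592)))))) (c (a (b (c (l 16077112) (a (l 16322520) (l 16284792))) (c (l 16238800) (l 16385864))) (b (c (a (l 16129856) (l 16015008)) (a (l 16244648) (l 16181096))) (a (l 16106512) (c (l 16169560)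 (l 16294248))))) (a (b (c (l 16405624) (l 16439744)) (c (l 16422440) (l 16377984))) (b (a (l 16270760) (l 16158600)) (c (l 16350680) (l 16390016)))))), by decide +kernel⟩

def k18_pm_112_a : ∃ t, chk3 f_pm_112_a t 9 6 1 = true :=
  ⟨(a (b (c (b (a (b (l 16025616) (l 15915016)) (b (l 16026872) (l 15891512))) (b (a (b (l 15924824) (a (l 15841600) (l 15831992))) (c (l 15924232) (l 16086712))) (c (a (a (l 15939904) (l 15910712)) (b (a (l 15873640) (l 15866816)) (l 15754536))) (a (l 16048288) (b (l 15962992) (l 16050216)))))) (b (c (a (l 16294776) (l 16298160)) (l 16332368)) (a (c (b (l 16214568) (l 16234896)) (l 16279752)) (c (b (l 16250744) (l 16140480)) (b (l 16415088) (l 16354528)))))) (c (b (c (a (l 15876544) (b (l 15910328) (l 16001240))) (a (l 16094120) (l 15941784))) (c (a (l 16099448) (l 15984688)) (a (l 16221904) (l 16126088)))) (b (a (b (l 16204896) (l 16282384)) (c (l 16170168) (l 16377296))) (c (l 84857881639) (l 16322640))))) (a (b (c (b (b (l 16033112) (c (l 16038192) (l 16169504))) (b (c (l 15928616) (l 16100496))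 (b (l 15754184) (a (b (l 15806104) (l 15784008)) (l 1))))) (b (c (l 16283920) (l 16448992)) (c (b (l 16252864) (b (l 16214576) (l 16152888))) (c (l 16265960) (l 16409176))))) (a (a (b (b (c (l 15868520) (l 16191928)) (l 1)) (l 1)) (l 1)) (l 1))) (b (b (c (b (l 16023232) (c (l 16072992) (l 16191184))) (c (l 16272928) (l 16424560))) (l 1)) (l 1)))), by decide +kernel⟩

def k19_pm_112_a : ∃ t, chk3 f_pm_112_a t 4 7 1 = true :=
  ⟨(b (a (b (a (c (b (l 16387576) (l 16312280)) (c (l 16321464) (l 16301128))) (c (c (l 16225144) (l 16258904)) (b (l 16285248) (l 16233240)))) (a (b (c (l 16207080) (l 16230920)) (c (l 16050056) (l 16106424))) (c (b (a (l 16244880) (l 16257904)) (l 44592290503)) (c (l 49424244631) (l 16123576))))) (b (a (a (c (l 68214806215) (l 67141218263)) (l 1)) (l 1)) (l 1))) (a (a (a (b (c (b (l 16025944) (l 15909888)) (b (l 16101488) (l 16004960))) (c (b (c (l 15741936) (l 15819944)) (b (l 15674368) (a (l 15599160) (l 1)))) (b (c (l 15900488) (l 15983600)) (c (l 15793816) (l 15902832))))) (b (c (b (l 16032584)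 (l 15872592)) (b (l 16100480) (l 15981232))) (a (b (c (l 15635440) (l 15854200)) (l 1)) (l 1)))) (a (b (b (c (l 16041288) (l 16101240)) (l 1)) (l 1)) (l 1))) (l 1))), by decide +kernel⟩

def k20_pm_112_a : ∃ t, chk3 f_pm_112_a t 5 3 1 = true :=
  ⟨(b (l 1) (l 1)), by decide +kernel⟩

def k21_pm_112_a : ∃ t, chk3 f_pm_112_a t 3 1 1 = true :=
  ⟨(l 1), by decide +kernel⟩

theorem s22_pm_112_a : ∃ t, chk3 f_pm_112_a t 4 6 1 = true := ex3_a k17_pm_112_a k18_pm_112_a

theorem s23_pm_112_a : ∃ t, chk3 f_pm_112_a t 4 3 1 = true := ex3_b s22_pm_112_a k19_pm_112_a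

theorem s24_pm_112_a : ∃ t, chk3 f_pm_112_a t 2 3 1 = true := ex3_a s23_pm_112_a k20_pm_112_a

theorem s25_pm_112_a : ∃ t, chk3 f_pm_112_a t 41 2 1 = true := ex3_a k13_pm_112_a k14_pm_112_a

theorem s26_pm_112_a : ∃ t, chk3 f_pm_112_a t 40 4 1 = true := ex3_b k10_pm_112_a k11_pm_112_a

theorem s27_pm_112_a : ∃ t, chk3 f_pm_112_a t 40 2 1 = true := ex3_b s26_pm_112_a k12_pm_112_a

theorem s28_pm_112_a : ∃ t, chk3 f_pm_112_a t 20 2 1 = true := ex3_a s27_pm_112_a s25_pm_112_a

theorem s29_pm_112_a : ∃ t, chk3 f_pm_112_a t 10 2 1 = true := ex3_a s28_pm_112_a k15_pm_112_a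

theorem s30_pm_112_a : ∃ t, chk3 f_pm_112_a t 5 2 1 = true := ex3_a s29_pm_112_a k16_pm_112_a

theorem s31_pm_112_a : ∃ t, chk3 f_pm_112_a t 9 4 6 = true := ex3_b k6_pm_112_a k7_pm_112_a

theorem s32_pm_112_a : ∃ t, chk3 f_pm_112_a t 9 4 3 = true := ex3_c s31_pm_112_a k8_pm_112_a

theorem s33_pm_112_a : ∃ t, chk3 f_pm_112_a t 19 8 2 = true := ex3_a k3_pm_112_a k4_pm_112_a

theorem s34_pm_112_a : ∃ t, chk3 f_pm_112_a t 18 8 2 = true := ex3_a k1_pm_112_a k2_pm_112_a

theorem s35_pm_112_a : ∃ t, chk3 f_pm_112_a t 9 8 2 = true := ex3_a s34_pm_112_a s33_pm_112_a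

theorem s36_pm_112_a : ∃ t, chk3 f_pm_112_a t 9 4 2 = true := ex3_b s35_pm_112_a k5_pm_112_a

theorem s37_pm_112_a : ∃ t, chk3 f_pm_112_a t 9 4 1 = true := ex3_c s36_pm_112_a s32_pm_112_a

theorem s38_pm_112_a : ∃ t, chk3 f_pm_112_a t 4 4 1 = true := ex3_a k0_pm_112_a s37_pm_112_a

theorem s39_pm_112_a : ∃ t, chk3 f_pm_112_a t 4 2 1 = true := ex3_b s38_pm_112_a k9_pm_112_a

theorem s40_pm_112_a : ∃ t, chk3 f_pm_112_a t 2 2 1 = true := ex3_a s39_pm_112_a s30_pm_112_a

theorem s41_pm_112_a : ∃ t, chk3 f_pm_112_a t 2 1 1 = true := ex3_b s40_pm_112_a s24_pm_112_a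

theorem s42_pm_112_a : ∃ t, chk3 f_pm_112_a t 1 1 1 = true := ex3_a s41_pm_112_a k21_pm_112_a

theorem c_pm_112_a : CertB 536870912 536870912 0 536870912 1020054732 13421774 3 eng mog cd0q1 cd1q2a pd1 false true false .dn 1 1 2
    ndB0q1 ndB1q2a pcB1 Cut.none Ext.none :=
  certB0 (fam := false) (s1 := true) (s2 := false) (a := 1) (b := 1) (c := 2) (cn := .dn) (n1 := ndB0q1) (n2 := ndB1q2a) (pc := pcB1) (cut := Cut.none) (xt := Ext.none) (P1 := 536870912) (W1 := 536870912) (P2 := 0) (W2 := 536870912) (P3 := 1020054732) (W3 := 13421774) (N0 := 3) (En := eng) (mo := mog) (C1 := cd0q1) (C2 := cd1q2a) (C3 := pd1)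
    rfl s42_pm_112_a

noncomputable def f_pm_112_b : ℕ → ℕ → ℕ → ℕ → Bool := onCell 536870912 536870912 536870912 536870912 1020054732 13421774
    (rowB 3 eng mog cd0q1 cd1q2b pd1 1 false true false .dn 1 1 2 (qsf 536870912 536870912 1239849684 370763052 1) ndB0q1 ndB1q2b pcB1 Cut.none Ext.none)

def k0_pm_112_b : ∃ t, chk3 f_pm_112_b t 2 32 1 = true :=
  ⟨(a (l 1) (a (a (a (a (l 1) (a (l 1) (a (l 1) (b (l 1) (b (l 1) (c (l 236256455271) (l 231424772119))))))) (b (b (a (l 1) (c (c (l 182032572327) (l 190085711383)) (a (l 244309707847) (l 176664000119)))) (a (a (l 1) (a (l 1) (c (l 242162095399) (l 237330382791)))) (c (a (l 166463309335) (l 16677928)) (a (l 176663983095) (l 16725128))))) (c (c (a (b (l 180958768999) (l 153041478647)) (l 16675616)) (a (b (l 188475057063) (l 16694016)) (l 16710632))) (a (c (l 180422037319) (l 185253909479)) (b (l 16704208) (l 16708776)))))) (c (a (a (b (c (l 16701184) (l 16726216)) (l 16690064)) (b (l 16709992) (l 16727280))) (b (c (l 16703056) (l 16694840)) (l 16696320))) (a (b (a (b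 (l 16728880) (l 16723600)) (l 16708712)) (a (l 16694592) (l 16719072))) (b (a (l 16711976) (l 16694176)) (l 16671632))))) (a (a (a (b (c (l 16679176) (l 16698504)) (c (l 16693304) (l 16687240))) (l 224579538695)) (l 3)) (l 3)))), by decide +kernel⟩

def k1_pm_112_b : ∃ t, chk3 f_pm_112_b t 2 33 1 = true :=
  ⟨(a (b (l 1) (a (l 1) (a (l 1) (a (l 1) (a (l 1) (c (c (a (l 1) (l 251825656935)) (l 265784368007)) (c (l 246993936055) (l 294775524807)))))))) (a (a (a (b (a (c (c (a (l 1) (l 252362572391)) (l 268468756071)) (c (l 267931988343) (l 296923023991))) (c (c (b (l 179348098647) (l 16605400)) (l 175053240279)) (c (l 180422006727) (l 183643273623)))) (a (c (c (a (l 219076488935) (l 150893908631)) (l 172368844423)) (c (l 176663880055) (l 181495768919))) (c (c (l 16607728) (l 16681776)) (c (l 16716960) (l 16714728))))) (c (b (a (c (l 16651376) (l 16695736)) (l 16670768)) (c (l 16638872) (l 16704832))) (b (a (c (l 16729416) (l 16715224)) (l 16700856)) (c (l 16729440) (l 16695840))))) (a (c (a (l 16665368) (l 16701224)) (c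 (l 16727192) (l 16674672))) (b (c (l 16714416) (l 16682112)) (l 16607832)))) (a (a (c (b (l 16613912) (l 16651256)) (b (l 16647360) (l 16657584))) (l 231558738023)) (l 3)))), by decide +kernel⟩

def k2_pm_112_b : ∃ t, chk3 f_pm_112_b t 2 34 1 = true :=
  ⟨(a (a (l 1) (a (l 1) (a (b (l 1) (a (l 1) (c (c (a (l 1) (l 252362428103)) (l 260952488679)) (c (l 241625182711) (l 288869916407))))) (c (a (b (c (a (l 1) (l 251825615783)) (l 263636873431)) (c (b (l 174516109975) (l 168610608615)) (l 168073798391))) (c (b (a (l 216392151015) (l 148746375687)) (a (l 16604216) (l 16593744))) (b (l 170221320599) (l 16656080)))) (b (a (c (l 244309558791) (l 292091155591)) (c (l 174516367831) (l 179348267047))) (a (c (l 172368856759) (l 176663893191)) (c (l 16693584) (l 16698848)))))))) (a (a (c (c (a (a (b (l 16586744) (l 16609000)) (l 16628376)) (l 16636016)) (a (b (l 16656368) (l 16681416)) (l 16685736))) (b (a (c (l 16695760) (l 16687808)) (l 16665536)) (a (c (l 16707048) (l 16695504)) (l 16653584)))) (c (a (l 16668464) (l 16705776))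 (c (a (l 16708272) (l 16689152)) (l 16613800)))) (a (a (c (l 16625904) (l 16641872)) (c (l 16551856) (l 16608616))) (l 3)))), by decide +kernel⟩

def k3_pm_112_b : ∃ t, chk3 f_pm_112_b t 2 35 1 = true :=
  ⟨(a (a (l 1) (a (b (l 1) (a (l 1) (a (l 1) (c (c (l 259341631911) (l 259341821047)) (c (l 237867068231) (l 281353699287)))))) (c (a (c (a (b (l 259341662183) (b (l 180958522487) (l 16526176))) (b (c (l 160557423191) (l 169147460071)) (l 16561216))) (a (b (l 259878718455) (l 163241888247)) (b (l 165926277543) (l 16628256)))) (c (b (a (l 16578488) (l 16591480)) (l 16590840)) (b (l 16612696) (l 16662952)))) (a (b (a (c (l 239477699831) (l 285648678215)) (c (l 170221347591) (l 173979520327))) (a (c (l 167536968183) (l 171295149175)) (c (l 16672584) (l 16684720)))) (c (c (l 16670624) (l 16686784)) (b (l 16679256) (l 16671032))))))) (a (a (c (c (a (a (l 16611704) (l 16650536)) (l 16676096)) (a (l 16666848) (l 16731488))) (a (b (l 16652120) (l 16639080)) (l 16613888))) (a (c (l 16686800) (l 16623344)) (l 16539480))) (a (c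 (a (l 16660992) (l 16603280)) (l 16519464)) (l 239074680055)))), by decide +kernel⟩

def k4_pm_112_b : ∃ t, chk3 f_pm_112_b t 2 18 1 = true :=
  ⟨(a (b (a (l 1) (a (b (a (l 1) (c (a (c (l 260415341767) (l 259341817479)) (c (b (l 177737264039) (l 16502944)) (l 161094380903))) (a (c (l 237330179911) (l 278132463303)) (c (l 164852591463) (l 168610778455))))) (a (a (l 1) (c (c (l 263636558919) (l 259878665863)) (c (l 236793314055) (l 278132453959)))) (c (a (c (l 161094224487) (l 158409998679)) (c (l 16531400) (l 16603856))) (a (c (l 162168216199) (l 165926409543)) (c (l 16654256) (l 16672688)))))) (c (a (b (c (a (l 16542672) (l 16583432)) (l 16607528)) (a (l 16555240) (l 16593136))) (c (l 16595336) (l 16653504))) (a (c (b (l 16653112) (l 16665392)) (b (l 16665712) (l 16664072))) (a (l 16620584) (l 16640720)))))) (a (b (l 1) (a (l 1) (a (l 1) (a (l 1) (a (l 1) (a (l 1) (c (l 224981794183) (l 215855245415)))))))) (a (a (b (a (a (l 1) (b (l 1) (c (l 222297470295) (l 212634042679)))) (c (c (l 155725477879) (l 185790453735))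 (c (l 159483842439) (l 162705170903)))) (c (a (c (l 150356733527) (l 202433473879)) (c (l 16514456) (l 16604152))) (a (c (l 156262599335) (l 159483930231)) (c (l 16659800) (l 16662976))))) (c (c (b (l 16490280) (l 16543960)) (b (l 16584784) (l 16620448))) (c (b (l 16635752) (l 16648536)) (c (l 16671720) (l 16636096))))) (c (c (a (l 16573376) (l 16604976)) (a (l 16640456) (l 16691656))) (a (a (l 16604944) (l 16617264)) (l 16596296)))))) (a (c (a (c (b (a (l 16625656) (l 16677024)) (l 16626608)) (b (l 16665992) (l 16718312))) (a (l 16645376) (l 16658104))) (a (a (b (l 16618152) (l 16608920)) (c (l 16710648) (l 16602752))) (c (b (l 16667616) (l 16643720)) (l 16544056)))) (a (c (a (l 16646552) (l 16549576)) (b (l 16580864) (l 16556800))) (b (a (l 89287697095) (l 3)) (a (l 16520816) (l 16482248)))))), by decide +kernel⟩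

def k5_pm_112_b : ∃ t, chk3 f_pm_112_b t 2 19 1 = true :=
  ⟨(a (a (a (a (l 1) (b (l 1) (b (l 1) (c (l 257730980135) (l 258268030583))))) (b (a (a (l 1) (b (l 1) (c (l 268468383239) (l 255583677703)))) (b (b (a (l 1) (c (a (l 258804680839) (c (l 16458136) (l 16531288))) (a (l 248067504135) (c (l 16634880) (l 16666328))))) (c (a (l 265784022407) (c (l 16469392) (l 16539016))) (a (l 252899332023) (c (l 16639824) (l 16648152))))) (c (c (l 90227205703) (l 89153614167)) (c (l 88616862663) (l 87543216103))))) (c (a (b (c (l 114386437975) (l 113849683655)) (a (l 16541928) (l 16553512))) (c (l 16510736) (l 16563504))) (a (b (c (l 113312914247) (l 112776134647)) (l 84858770855)) (c (l 16608136) (l 16581632)))))) (a (b (b (c (a (a (b (l 16494416) (l 16482464)) (l 16525184)) (l 16542480)) (a (a (c (l 16632408) (l 16638152)) (l 16632560)) (l 16615752))) (c (a (a (c (l 16484056) (l 16593088)) (l 16562648)) (l 16578632)) (a (c (l 16614456) (l 16596144)) (l 16604296)))) (c (a (b (a (l 16542880) (l 16559320)) (a (l 16609584) (l 16579576)))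 (b (l 16593800) (l 16588136))) (a (b (a (l 16598472) (l 16591256)) (b (l 16571360) (l 16581464))) (b (l 16588144) (l 16567520))))) (c (b (b (l 16524056) (l 16555984)) (l 16553296)) (b (a (l 16568984) (l 16583160)) (c (l 16693264) (l 16550440)))))) (a (c (a (c (b (l 16657496) (l 16692424)) (b (l 16751856) (l 16731680))) (c (l 16715744) (l 16661368))) (a (c (c (l 16688360) (l 16606504)) (l 16503920)) (l 16426088))) (a (c (l 16591952) (l 16474680)) (b (a (l 16504296) (l 16463248)) (l 16402184))))), by decide +kernel⟩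

def k6_pm_112_b : ∃ t, chk3 f_pm_112_b t 2 10 1 = true :=
  ⟨(a (b (b (c (a (a (a (l 260952214055) (b (l 111702151687) (l 16610384))) (c (l 16508888) (l 16568920))) (a (a (l 16586016) (a (l 16541800) (l 16621704))) (l 16644344))) (a (a (a (l 259878629399) (c (l 16589744) (l 16587080))) (c (l 16602896) (b (l 16578256) (l 16597512)))) (a (a (l 16507208) (b (l 16545080) (l 16542192))) (c (l 16653192) (l 16570600))))) (a (a (c (b (l 90227357495) (l 16574024)) (a (l 94522414711) (l 16567232))) (a (b (l 16533408) (l 16524824)) (b (l 16513664) (l 16519312)))) (c (a (c (l 16617776) (l 16669168)) (c (l 16691680) (l 16732072))) (a (c (l 16592472) (l 16480608)) (a (l 16483800) (l 16544720)))))) (a (c (a (c (l 16581360) (l 16598792)) (b (l 16636432) (l 16650216))) (a (b (l 16508352) (l 16565344)) (c (l 16552024) (l 16430848)))) (c (a (b (l 16657120) (l 16647976)) (c (b (l 16736752) (l 16714072)) (b (l 16679520) (l 16577248)))) (a (a (l 16354320) (l 16358432)) (b (l 16380040) (l 16369240)))))) (a (b (c (a (c (l 16678736) (l 16681048))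 (l 16575008)) (a (l 16383688) (l 16439904))) (c (a (c (l 16685600) (l 16576576)) (l 16568368)) (a (l 16376928) (l 16419528)))) (a (b (c (l 16550864) (l 16453832)) (c (l 16492920) (l 16378488))) (b (c (l 16460360) (l 16403664)) (l 16250456))))), by decide +kernel⟩

def k7_pm_112_b : ∃ t, chk3 f_pm_112_b t 2 11 1 = true :=
  ⟨(a (a (b (c (b (a (l 16617416) (l 16603728)) (a (l 16554744) (l 16536752))) (a (l 16367840) (l 16343480))) (c (b (l 16418848) (l 16419488)) (a (l 16421088) (l 16370840)))) (b (c (b (a (l 16596560) (l 16511232)) (l 16416944)) (a (l 16302360) (b (l 16397728) (l 16362960)))) (c (a (l 16420384) (l 16407440)) (a (l 16324560) (l 16281512))))) (a (c (b (a (b (l 16544624) (l 16483216)) (l 16478936)) (a (l 16271672) (l 16345272))) (b (a (l 16208104) (l 16321800)) (a (l 16221208) (l 16208888)))) (b (a (l 16206392) (l 16241288)) (a (l 16189328) (l 16214688))))), by decide +kernel⟩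

def k8_pm_112_b : ∃ t, chk3 f_pm_112_b t 3 2 1 = true :=
  ⟨(a (b (b (l 3) (a (b (l 3) (a (b (l 16413536) (l 113446562711)) (l 3))) (l 3))) (b (a (b (a (b (l 145121865111) (l 16223672)) (l 3)) (a (b (l 16326240) (l 16300072)) (b (l 16262704) (l 16196944)))) (l 3)) (a (b (a (l 16253248) (b (l 16213320) (l 16184960))) (a (l 16175928) (l 16113952))) (b (a (l 248737480279) (l 2)) (l 2))))) (l 3)), by decide +kernel⟩

def k9_pm_112_b : ∃ t, chk3 f_pm_112_b t 1 3 1 = true :=
  ⟨(a (b (a (b (a (b (a (l 16275848) (l 16211520)) (a (l 16243000) (l 16193640))) (b (a (l 16151768) (l 16095864)) (c (l 16148760) (l 16105184)))) (a (b (l 16002864) (l 16051008)) (b (l 15983672) (l 15936400)))) (b (a (b (a (l 16001128) (c (l 16230184) (l 16090544))) (c (l 16094776) (l 16002240))) (b (a (l 15965256) (l 16107136)) (a (l 15790600) (l 15981856)))) (a (b (c (l 15962096) (l 15904816)) (l 15831496)) (b (a (l 15786128) (l 2)) (l 2))))) (b (a (a (b (l 15986720) (l 15937648)) (b (l 15861504) (l 15802960))) (a (b (l 15744760) (l 2)) (l 2))) (a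 (a (l 15792984) (b (l 15762768) (l 2))) (l 2)))) (b (a (b (a (b (a (l 16080704) (l 2)) (l 2)) (l 2)) (l 2)) (l 2)) (l 2))), by decide +kernel⟩

theorem s10_pm_112_b : ∃ t, chk3 f_pm_112_b t 2 5 1 = true := ex3_b k6_pm_112_b k7_pm_112_b

theorem s11_pm_112_b : ∃ t, chk3 f_pm_112_b t 2 9 1 = true := ex3_b k4_pm_112_b k5_pm_112_b

theorem s12_pm_112_b : ∃ t, chk3 f_pm_112_b t 2 17 1 = true := ex3_b k2_pm_112_b k3_pm_112_b

theorem s13_pm_112_b : ∃ t, chk3 f_pm_112_b t 2 16 1 = true := ex3_b k0_pm_112_b k1_pm_112_b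

theorem s14_pm_112_b : ∃ t, chk3 f_pm_112_b t 2 8 1 = true := ex3_b s13_pm_112_b s12_pm_112_b

theorem s15_pm_112_b : ∃ t, chk3 f_pm_112_b t 2 4 1 = true := ex3_b s14_pm_112_b s11_pm_112_b

theorem s16_pm_112_b : ∃ t, chk3 f_pm_112_b t 2 2 1 = true := ex3_b s15_pm_112_b s10_pm_112_b

theorem s17_pm_112_b : ∃ t, chk3 f_pm_112_b t 1 2 1 = true := ex3_a s16_pm_112_b k8_pm_112_b

theorem s18_pm_112_b : ∃ t, chk3 f_pm_112_b t 1 1 1 = true := ex3_b s17_pm_112_b k9_pm_112_b

theorem c_pm_112_b : CertB 536870912 536870912 1239849684 370763052 1020054732 13421774 3 eng mog cd0q1 cd1q2b pd1 false true false .dn 1 1 2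
    ndB0q1 ndB1q2b pcB1 Cut.none Ext.none :=
  certB1 (fam := false) (s1 := true) (s2 := false) (a := 1) (b := 1) (c := 2) (cn := .dn) (n1 := ndB0q1) (n2 := ndB1q2b) (pc := pcB1) (cut := Cut.none) (xt := Ext.none) (P1 := 536870912) (W1 := 536870912) (P2 := 1239849684) (W2 := 370763052) (P3 := 1020054732) (W3 := 13421774) (N0 := 3) (En := eng) (mo := mog) (C1 := cd0q1) (C2 := cd1q2b) (C3 := pd1)
    rfl (fun _ => rfl) s18_pm_112_b

noncomputable def cut_pm_113 : Cut := Cut.of [[⟨0, 1, 0, 26738688⟩, ⟨1, 1, 0, 26738688⟩, ⟨2, 2, 0, 2621440⟩]]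

noncomputable def xt_pm_113 : Ext := extD3 3 ⟨4, 1, 1, 5, 99, 20, 33, 40, 51, 125, 1, 32⟩ eng cd0q1 cd1q3 pd1 false true false .nn 1 1 3 rfl ndB0q1 ndB1q3 pcB1

noncomputable def f_pm_113 : ℕ → ℕ → ℕ → ℕ → Bool := onCell 536870912 536870912 536870912 536870912 1020054732 13421774
    (rowB 3 eng mog cd0q1 cd1q3 pd1 1 false true false .nn 1 1 3 (qsf 536870912 536870912 1610612736 536870912 1) ndB0q1 ndB1q3 pcB1 cut_pm_113 xt_pm_113)

def k0_pm_113 : ∃ t, chk3 f_pm_113 t 1 2 1 = true :=
  ⟨(a (b (l 1) (a (l 1) (b (l 1) (a (l 1) (b (l 1) (a (l 1) (l 121901607511))))))) (a (a (b (l 1) (b (b (l 1) (a (l 1) (c (l 276118114503) (l 281486875031)))) (b (a (l 183105379191) (c (l 221894055879) (l 185923937271))) (a (l 15991696) (c (l 16169344) (l 16133368)))))) (a (b (l 1) (b (l 3) (b (b (l 3) (l 253569320631)) (b (l 240684342071) (l 265917219479))))) (l 3))) (l 3))), by decide +kernel⟩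

def k1_pm_113 : ∃ t, chk3 f_pm_113 t 2 3 1 = true :=
  ⟨(b (a (b (l 1) (a (l 1) (b (l 1) (c (l 15853480) (l 15791152))))) (b (a (b (l 1) (c (l 175588390871) (l 178272487335))) (b (a (c (l 16178456) (l 16027544)) (l 15922424)) (a (c (l 16033024) (l 15887904)) (l 15913888)))) (a (b (a (l 15730680) (l 15596392)) (c (l 15788400) (l 15707304))) (b (a (b (l 15853576) (l 15787752)) (b (l 15844424) (l 15769568))) (a (l 15676536) (b (l 15698368) (l 15634088))))))) (b (a (a (b (l 1) (l 15536112)) (b (c (l 15762152) (l 15706336)) (c (l 15691488) (l 15635488)))) (a (b (c (l 15683104) (l 15617512)) (c (l 15600000) (l 15543328))) (b (c (l 15609632) (l 15532784)) (c (l 15512856) (l 15454760))))) (a (a (b (l 15699784) (l 15694888)) (b (l 15571328) (l 15584648))) (a (b (l 15305824) (l 15420528)) (b (c (l 15443648) (l 15397144)) (a (l 15410440) (l 15361832))))))), by decide +kernel⟩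

def k2_pm_113 : ∃ t, chk3 f_pm_113 t 3 6 1 = true :=
  ⟨(a (b (a (b (a (l 15991912) (l 15996400)) (a (l 15953768) (l 15950480))) (c (b (a (l 16051520) (l 284170634647)) (a (l 15967168) (l 266990656263))) (b (a (l 16026728) (l 290613072679)) (a (l 15921304) (l 270748686391))))) (a (b (a (l 15815304) (l 15825368)) (a (b (l 15702120) (l 15625024)) (l 15685768))) (b (a (l 15834008) (b (l 15885288) (l 15813864))) (a (l 15709440) (b (l 15760352) (l 15704072)))))) (a (b (a (b (l 3) (a (l 321214522135) (l 3))) (l 3)) (b (a (b (a (l 358796034503) (l 3)) (a (l 15817368) (l 384028848167))) (l 3)) (a (b (a (l 15771504) (l 258401023687)) (a (l 15723376) (l 15734904))) (a (b (l 378123153431) (l 386176231543)) (l 3))))) (l 3))), by decide +kernel⟩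

def k3_pm_113 : ∃ t, chk3 f_pm_113 t 6 7 1 = true :=
  ⟨(b (a (b (a (b (l 15553072) (l 15489880)) (b (l 15573656) (l 15496912))) (a (l 15419472) (b (l 15425744) (l 15364896)))) (b (a (l 15573480) (b (l 15645416) (l 15584880))) (a (l 15430944) (l 15491896)))) (a (b (a (l 15351752) (l 15389808)) (a (l 15314112) (l 15269144))) (b (a (b (l 15328480) (l 15273912)) (l 15369032)) (a (b (l 15237672) (l 15228264)) (b (l 15285160) (l 15246720)))))), by decide +kernel⟩

def k4_pm_113 : ∃ t, chk3 f_pm_113 t 7 14 1 = true :=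
  ⟨(a (b (a (b (l 15683064) (l 15635888)) (b (a (l 261085255671) (l 384565557847)) (a (l 15675624) (a (l 15695184) (l 285781253479))))) (a (b (l 15588624) (l 15542064)) (b (a (l 15644136) (l 15683944)) (a (l 15616152) (l 15673360))))) (a (b (b (l 3) (l 7903957008771871850563813391)) (a (b (l 7323672615357266561622835215) (a (l 15720384) (l 133276784467361807))) (a (b (l 3) (l 7758885910419776200027062287)) (l 3)))) (l 3))), by decide +kernel⟩

def k5_pm_113 : ∃ t, chk3 f_pm_113 t 14 15 1 = true :=
  ⟨(b (a (b (l 15497240) (l 15455032)) (b (a (l 15593088) (l 15672440)) (a (l 15576240) (l 15683752)))) (b (a (l 15416688) (a (l 15567208) (l 15710560))) (a (l 15386272) (a (l 15571736) (l 15761624))))), by decide +kernel⟩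

def k6_pm_113 : ∃ t, chk3 f_pm_113 t 15 30 1 = true :=
  ⟨(a (b (b (a (l 15757816) (a (l 134012564064763919) (l 8184427798927072223389433871))) (a (l 15778720) (a (l 15872032) (l 4219151110592342455109550095)))) (a (c (l 15882840) (l 15762696)) (a (l 135242368074481679) (b (l 135884208113106959) (l 136913419911610383))))) (a (a (c (b (l 8619641093988343880574582991) (a (b (l 4518964713857913364189839567) (l 16311920)) (b (l 8281141864498256313636192463) (a (l 139636223557566671) (c (l 5283005831856921827372531935) (l 5002535041704774661019893967)))))) (b (l 8813069225125248311183065295) (b (l 7768557316981170788831297743) (l 4431922054846647425268727839)))) (b (l 3) (a (b (l 3) (b (c (l 8368184523512590577821974607) (l 486571731719)) (a (c (b (a (l 5466762556439003794535727311) (l 7952314041565939825909432527)) (l 5698876313805962918094913743)) (l 4992863635148163360438714575)) (c (c (l 7807242943213496042573709391) (l 8049028107135226020949377103)) (l 8397198743182426471841644623))))) (l 3)))) (l 3))), by decide +kernel⟩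

def k7_pm_113 : ∃ t, chk3 f_pm_113 t 30 31 1 = true :=
  ⟨(b (a (l 136623766906404879) (b (l 137432458197270543) (l 138916180682899471))) (a (l 16052384) (l 141864659101433871))), by decide +kernel⟩

def k8_pm_113 : ∃ t, chk3 f_pm_113 t 62 31 1 = true :=
  ⟨(b (b (b (a (l 585383353251124326624479) (a (a (c (l 142498871347478735) (l 16468304)) (c (b (a (l 5437748336769840527145156815) (c (l 6646674156384920776475181279) (l 6230803674436049560442388559))) (l 143357040383131727)) (c (l 5428076930211199596468699215) (l 5176620359730084043238588623)))) (a (b (a (c (l 7884614195670320361490432223) (l 8435884369411452983585210447)) (l 3)) (c (a (b (a (l 6627331343271178106684375263) (l 7488086526836825896172486879)) (l 6279160707222157001630220511)) (b (l 3) (c (l 7710528877646042115314925791) (l 413021533655)))) (c (a (l 5979347103956471124602683471) (l 7903957008782821132827951183)) (l 7787900130098217698248491087)))) (l 3)))) (a (l 140984225045053647) (c (a (l 143658993809211471) (b (a (c (l 6269489300665217222081151199)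 (l 6279160707221827010696314959)) (a (a (b (b (l 3) (l 440938825815)) (l 6714374002283512771120971999)) (c (l 7961985448125935561183215839) (l 7787900130100973006295121999))) (l 3))) (b (a (l 16796304) (a (l 6346860553120656912076751071) (a (c (l 7594471998963087604883308767) (l 7497757933393564877428146255)) (l 3)))) (c (a (l 16816688) (l 6375874772791402720866009311)) (l 6201789454766853032593342687))))) (a (l 141650185640443983) (c (a (b (l 5940661477729747952729243727) (l 16783480)) (b (a (l 7062544638332228418020130895) (l 3)) (a (l 6250146487551220496284090447) (b (l 7816914349771823199973834831) (a (l 348597036343) (l 7391372461267546504408498255)))))) (a (l 5611833654793475077879316559) (b (l 7894285602225869258645536847) (a (l 6095403982640077095972995151) (b (l 428053897911) (l 6898130726864702415791931471)))))))))) (a (l 143118102616703183) (a (l 143636866064072783) (b (b (c (c (l 143720910108377311) (l 143629650645549135)) (l 143852026876723423)) (l 143823164667199567)) (l 143872986249855055))))) (a (b (l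 143318076336881871) (l 143015985437851855)) (b (l 143067456410353743) (l 142982450384388175)))), by decide +kernel⟩

def k9_pm_113 : ∃ t, chk3 f_pm_113 t 126 124 1 = true :=
  ⟨(a (b (l 3) (a (b (l 3) (a (a (c (c (l 8194099205491996383366234335) (l 8194099205492053420530122975)) (c (l 8194099205491581936198418511) (l 7961985448125584954365231183))) (l 3)) (l 3))) (l 3))) (l 3)), by decide +kernel⟩

def k10_pm_113 : ∃ t, chk3 f_pm_113 t 252 125 1 = true :=
  ⟨(b (a (a (c (b (b (b (c (l 431275148231) (l 430738265287)) (a (l 5843947412161066558034198751) (l 7749214503873745364555284703))) (c (l 5930990071173310512762503391) (l 5882633038388502076192833615))) (l 143779184221339727)) (a (c (l 5776247566262344133910167631) (l 5766576159705439332578066511)) (b (b (c (l 439328197063) (l 439328195559)) (l 6598317123600680306476744927)) (l 143779940128800847)))) (b (b (l 3) (a (c (b (l 451676245399) (a (l 5998689917071778193777246431) (l 7855599975999862075145797855))) (c (l 7671843251418212009912303695) (l 428053918967))) (l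 3))) (c (c (b (a (l 349670779143) (b (l 434496383575) (l 398526036807))) (l 16785480)) (l 6453246025246864469807988831)) (c (l 6617659936714487022915813471) (l 6627331343271437728856178911))))) (b (l 3) (a (c (c (b (l 462950512743) (a (a (l 363629421191) (l 7488086526837032054625353823)) (l 447918142583))) (b (l 462950511735) (a (b (l 418927127719) (l 357186970695)) (l 447381260327)))) (b (c (l 462950510711) (l 462950509671)) (b (c (l 438254455223) (l 437717583399)) (a (l 6462917431803875236577869919) (l 7913628415341447288655839327))))) (l 3)))) (b (a (c (l 16784064) (l 16785464)) (b (a (c (c (l 5950332884287186360997183583) (l 5940661477730298395937652831)) (a (l 16793656) (l 6482260244917690817830895711))) (a (c (b (l 460803043447) (c (l 423758965495) (l 422685223015))) (c (l 436643856103) (l 436106981895))) (l 3))) (c (a (l 16786688) (c (a (l 6037375543299458421982888031) (b (l 444696927959) (l 409263440759))) (a (l 6018032730185650743466016863) (b (l 444160056551) (l 407652817127))))) (c (l 6482260244917637147913437279)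 (l 6588645717043756057527304287))))) (a (l 144068699340619855) (a (l 143944866860466255) (c (b (c (l 16793416) (l 16793192)) (l 16783896)) (c (l 143866389224718415) (l 143880889033900111))))))), by decide +kernel⟩

def k11_pm_113 : ∃ t, chk3 f_pm_113 t 253 125 1 = true :=
  ⟨(b (l 3) (a (b (a (b (l 3) (c (c (l 474224807959) (l 474224797223)) (c (l 473687926071) (l 473687925815)))) (l 3)) (a (c (c (b (a (b (l 427517057639) (l 356650094039)) (l 456508072967)) (a (l 16780248) (b (l 409800305815) (l 16798040)))) (b (a (b (l 426443315735) (l 358260706759)) (l 456508070471)) (l 6182446641653257834695999583))) (c (a (l 6124418202311762300099805279) (b (l 455971199687) (l 6182446641653298860223987807))) (a (l 6095403982641029273129238623) (b (l 455971199815) (l 6056718356413210575165358159))))) (b (l 3) (a (b (c (l 469392974871) (a (l 465634881207) (l 3))) (c (c (l 430201396007) (l 429664536135)) (c (l 429127665815) (l 429127666391)))) (l 3))))) (l 3))), by decide +kernel⟩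

def k12_pm_113 : ∃ t, chk3 f_pm_113 t 127 62 1 = true :=
  ⟨(l 3), by decide +kernel⟩

def k13_pm_113 : ∃ t, chk3 f_pm_113 t 126 63 1 = true :=
  ⟨(b (a (c (l 143672668910813263) (l 143673837144096847)) (b (b (a (c (a (l 143904253651763279) (c (b (a (l 351281378247) (b (l 450602496775) (l 411947783863))) (l 16787552)) (b (a (l 352355121367) (b (l 450602497591) (l 411410913847))) (l 16787944)))) (a (l 143921639678804047) (c (b (a (l 353965734759) (b (l 450602498423) (l 411410914759))) (l 16788344)) (b (a (l 355039477239) (b (l 451139370183) (l 411410905175))) (l 16788752))))) (a (b (b (l 3) (a (a (c (l 469929847687) (l 470466715431)) (l 3)) (l 3))) (a (b (c (c (l 432348874183) (l 431812004407)) (c (l 431812005559) (l 432348867159))) (b (c (l 364166275303) (l 366850632247)) (c (l 16783248) (l 16789688)))) (a (c (c (l 454360582839) (l 454360578887)) (c (l 454897451111) (l 455434323335))) (l 3)))) (l 3))) (b (c (a (l 16777056) (a (a (l 16785360) (c (l 6443574618690092984247369823) (l 6404888992462424507060830303))) (a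 (b (a (l 473151062935) (l 3)) (c (l 433422613431) (l 433422612423))) (l 3)))) (a (l 16776520) (a (c (l 6327517740007068860988964959) (l 6288832113779405194166370399)) (a (b (a (l 474224807847) (l 3)) (c (l 433959484967) (l 434496357543))) (l 3))))) (a (l 144004652786090063) (c (a (l 16776320) (c (a (l 6462917431803937084085354591) (b (l 454897443223) (l 6588645717043878446899101791))) (a (l 352355110967) (b (l 454897455495) (l 6617659936714624874169499743))))) (a (l 16788048) (c (a (l 353428854423) (b (l 455971199143) (l 414632131687))) (a (l 6337189146564012420104159327) (b (l 456508071895) (l 415705875383))))))))) (a (l 143755407218163791) (b (a (l 143880133094883407) (c (a (l 16786160) (c (l 144116115777208415) (l 144110274623422559))) (c (l 144099073354055775) (l 144096599454548063)))) (l 143849140595392591))))) (a (l 143426653150789711) (b (l 143687649784660047) (l 143645043670335567)))), by decide +kernel⟩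

def k14_pm_113 : ∃ t, chk3 f_pm_113 t 127 126 1 = true :=
  ⟨(a (a (b (b (l 3) (a (b (l 3) (a (a (b (l 3) (c (l 476372283687) (l 477982900327))) (l 3)) (l 3))) (l 3))) (b (a (b (a (b (c (a (l 6559631497373127552863961183) (b (l 3) (l 453823700599))) (c (l 436106964487) (l 437180708359))) (b (c (l 6559631497373126315913396319) (l 365776882375)) (c (l 16783640) (l 16785624)))) (b (l 3) (c (c (l 457044927415) (l 457581795207)) (c (l 458118668263) (l 459192401767))))) (c (c (l 6578974310486940522774462559) (l 6540288684259268472176377951)) (a (l 144154392526405727) (c (l 6530617277702362296458625119) (l 6482260244917770876000845919))))) (a (b (l 3) (b (b (l 3) (c (l 481204111335) (l 482814728599))) (c (a (l 6656345562942305033661513823) (b (l 3) (l 456508056039))) (c (l 438254444151) (l 434496350071))))) (l 3))) (c (a (l 143978401948172383) (b (b (a (l 6617659936714626385990516831) (a (b (l 479593508695) (l 408726544311)) (l 3))) (c (l 6637002749828465950339940447) (l 6646674156385373706610819167))) (c (l 144097286653050975)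 (l 144129722226688095)))) (a (l 143959297930068047) (c (b (a (l 6540288684259280841684320351) (b (l 460803018935) (l 6695031189169963890123423839))) (l 16783640)) (b (a (l 6491931651474687428359782495) (b (l 456508054039) (l 408726546007))) (l 144108075595808863))))))) (b (l 3) (b (l 3) (a (b (b (l 3) (b (l 3) (a (c (l 483888464455) (l 479593499415)) (l 3)))) (a (b (c (a (l 6695031189169975916026331231) (b (l 3) (l 459192406615))) (c (l 431811994615) (l 411410897175))) (c (l 6666016969499216363337334879) (c (l 359334423319) (l 386177967367)))) (a (b (l 3) (c (b (l 482277848871) (l 6753059628511488355612983391)) (c (l 449528738183) (l 443086279239)))) (l 3)))) (l 3))))) (l 3)), by decide +kernel⟩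

def k15_pm_113 : ∃ t, chk3 f_pm_113 t 254 254 1 = true :=
  ⟨(a (c (l 602139628703010437033567) (l 143868725634252879)) (b (a (a (c (l 144090827001266271) (l 144065675675877471)) (b (c (b (l 6724045408840720831462375519) (l 144150612958855263)) (c (l 6617659936714618826844962911) (b (l 6714374002283788267471831135) (l 16776528)))) (b (l 144084092489449567) (l 16777944)))) (b (a (a (b (b (l 3) (c (l 483888465047) (l 476909142887))) (c (l 6753059628511480177992761439) (c (l 403357834279) (l 384567349575)))) (a (b (l 3) (b (l 3) (c (l 420537698519) (l 368461225095)))) (l 3))) (l 3)) (b (a (c (l 6704702595726887039545540703) (c (l 6656345562942296856041062495) (l 6462917431803943612426223711))) (a (c (b (l 485499076103) (l 7284986989141926085833523295)) (c (l 440938794823) (l 411410897127))) (l 3))) (a (c (l 16778864) (l 16781024)) (c (a (l 6704702595726894186370760799) (c (l 7845928569443131752525906015) (l 7845928569443113129550102623))) (c (l 6762731035068382917741789279) (a (l 345912649175) (l 6791745254739126390075342943))))))))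 (a (l 143980119910957135) (b (a (l 603825488203358382796383) (c (l 144140854791405663) (c (l 144123125169586271) (l 144108968959541343)))) (l 603350196305387620937311))))), by decide +kernel⟩

def k16_pm_113 : ∃ t, chk3 f_pm_113 t 255 254 1 = true :=
  ⟨(a (b (a (b (l 3) (a (b (l 3) (c (c (l 8793726412021005354817716319) (l 8803397818577908232005566559)) (c (l 476372270247) (l 477446014487)))) (l 3))) (l 3)) (a (b (a (b (c (a (l 6869116507194482448458154079) (c (l 8464898589085823401800810591) (l 8474569995642724354843246687))) (c (a (l 6743388221954553180273541215) (l 457581789879)) (a (l 6704702595726870753034158175) (l 458118663127)))) (c (l 6453246025247040872668577887) (a (l 144117284011933791) (c (l 347523256327) (l 6530617277702362846206296159))))) (a (b (l 3) (c (b (l 8803397818577902390849814623) (l 7352686835040340234372776031)) (b (c (l 473151050791) (l 473687923991)) (c (l 407652795831) (l 410337152631))))) (l 3))) (a (c (l 603726913521504577236575) (l 144066294141665375)) (b (c (a (l 6327517740007124248863031391)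 (b (c (l 8348841710402808005912264799) (l 448991852359)) (l 6820759474409899411772768351))) (c (a (l 344302030855) (b (l 448454983607) (l 362555640551))) (a (l 6337189146564021147455307871) (b (l 414632118359) (l 362555642679))))) (c (l 144143191259758687) (c (l 144120170227220575) (l 16780168)))))) (b (l 3) (a (a (b (a (b (l 3) (c (l 8803397818577899367192313951) (l 8561612654654944189038854239))) (l 3)) (c (b (l 7362358241597252113808638047) (l 6298503520336375485131505759)) (c (l 6782073848182214235754905695) (a (l 6453246025247025685670363231) (l 6782073848182204340152582239))))) (a (b (l 3) (b (l 3) (c (l 7623486218634013870971486303) (c (l 409263411607) (l 410874026359))))) (l 3))) (l 3))))) (l 3)), by decide +kernel⟩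

def k17_pm_113 : ∃ t, chk3 f_pm_113 t 127 510 1 = true :=
  ⟨(a (l 143869481528590415) (a (a (c (l 603350484540299252297311) (l 144021145433948239)) (b (a (b (c (a (l 144094744016568415) (l 6472588838360873496352702559)) (a (l 144110618219364447) (c (l 6462917431803950140767715423) (a (l 292762424279) (l 6637002749828445815530782815))))) (c (l 603739307420532271017567) (l 144044716242649167))) (a (b (c (a (b (c (l 474761657575) (l 472614175831)) (l 6801416661296055861689040991)) (c (l 8629312500553368920373428319) (l 8629312500553385756647129183))) (b (c (l 473151042663) (l 473151044615)) (c (l 6888459320308304008309866591) (l 6869116507194455785304277087)))) (c (l 5640847874466002714280198239) (b (c (l 345912641255) (l 6240475080994849920126926943)) (l 16778456)))) (b (l 3) (a (c (b (l 7633157625190912831145721951) (l 6124418202311856170870128735)) (c (l 6811088067852963549240344671) (a (l 6627331343271527064145707103) (l 6801416661296033390424735839)))) (b (l 3) (c (l 7314001208812646124818710623) (c (l 6898130726865218773964996703)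 (l 6878787913751374193091526751)))))))) (a (l 144008294893944911) (b (c (l 604062701942981551894111) (c (l 144109862313574495) (l 144120651262197855))) (l 603926368910946512465503))))) (a (a (a (b (b (l 3) (b (l 3) (a (b (l 3) (c (l 8851754851362451686269026399) (l 8087713733366004398587347039))) (l 3)))) (b (b (a (c (l 6772402441625287787784749151) (c (l 351818220039) (l 352891963495))) (a (c (l 7884614195670745322843586655) (l 6946487759649789097545564255)) (l 3))) (c (l 6230803674437931374896087135) (c (l 5515119589226079355969273951) (l 6201789454767176770014986335)))) (c (l 604084895623258799517279) (l 604054919694650461056607)))) (b (l 3) (a (b (b (l 3) (c (a (l 7246301362914217064150171743) (a (l 8068370920252165521425268831) (l 3))) (c (l 7410715274381817627029012575) (l 6927144946535956680018837599)))) (c (l 5476433962998395966651301983) (c (l 3967694540119346934237413471) (l 5505448182669147273005727839)))) (b (l 3) (c (b (c (l 7333344021926468096985989215) (l 7333344021926482596796989535)) (l 144127454498816095))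 (b (c (l 7072216044889720633477759071) (l 6840102287523700493221970015)) (c (l 16777704) (l 16778352)))))))) (a (b (l 3) (b (l 3) (b (a (a (b (l 3) (c (l 8319827490732004404034879583) (l 8068370920252166758379143263))) (l 3)) (l 3)) (c (a (c (l 6743388221954527135584370783) (l 6733716815397622196816019551)) (b (l 3) (l 7865271382556897512153022559))) (c (a (l 6724045408840701108970651743) (l 8571284061211859848042086495)) (a (b (l 6849773694080618488692605023) (l 343228286807)) (l 8609969687439517536273547359))))))) (l 3))) (l 3)))), by decide +kernel⟩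

def k18_pm_113 : ∃ t, chk3 f_pm_113 t 127 511 1 = true :=
  ⟨(a (l 143706959946039375) (b (a (l 144008432320413775) (a (a (b (c (l 604256392691640220692063) (l 144076395915657295)) (l 144037088370638927)) (a (b (c (b (c (a (l 16775312) (l 6404888992462427736851611743)) (l 5292677238416981677946028127)) (l 604094695484978855931487)) (b (c (l 5312020051530810590781751391) (c (l 5524790995782986493762715743) (l 5505448182669147754043605087))) (l 604072213511309697445471))) (l 604151765053139958034015)) (b (a (c (b (c (b (l 8851754851362432994569764959) (l 7410715274381796598866706527)) (b (l 8851754851362445776393650271) (l 7410715274381808899654369375))) (c (l 5795590379376654357922365535) (l 5428076930213817053137043551))) (b (c (b (l 471003561159) (l 7410715274381812610507292767)) (l 6878787913751365259556946015)) (c (l 5447419743327651394811150431) (l 5650519281022901743178858591)))) (b (l 3) (c (c (b (l 7874942789113810284943360095) (l 6820759474409856324660101215)) (b (l 7874942789113821967255502943) (l 6840102287523701592731140191)))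 (c (b (l 7874942789113829457679564895) (l 6627331343271530431396692063)) (b (l 6975501979320537792556859487) (l 6617659936714606251174527071)))))) (c (c (l 604229010851604272033375) (l 604221516869658348695135)) (c (l 604214022878366576537183) (l 604111701099024602328671)))))) (a (b (a (a (a (b (l 3) (b (l 3) (c (l 8339170303845826170043646047) (l 8049028107138327400183283807)))) (l 3)) (l 3)) (l 3)) (b (b (b (a (a (a (c (l 7014187605548193762797961311) (l 6878787913751363610289389663)) (l 3)) (l 3)) (l 3)) (l 6)) (l 6)) (l 6))) (l 3)))) (a (l 143924182231449679) (a (b (l 144055436467404879) (l 144023962941653071)) (l 6))))), by decide +kernel⟩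

theorem s19_pm_113 : ∃ t, chk3 f_pm_113 t 127 255 1 = true := ex3_b k17_pm_113 k18_pm_113

theorem s20_pm_113 : ∃ t, chk3 f_pm_113 t 127 254 1 = true := ex3_a k15_pm_113 k16_pm_113

theorem s21_pm_113 : ∃ t, chk3 f_pm_113 t 127 127 1 = true := ex3_b s20_pm_113 s19_pm_113

theorem s22_pm_113 : ∃ t, chk3 f_pm_113 t 127 63 1 = true := ex3_b k14_pm_113 s21_pm_113

theorem s23_pm_113 : ∃ t, chk3 f_pm_113 t 63 63 1 = true := ex3_a k13_pm_113 s22_pm_113

theorem s24_pm_113 : ∃ t, chk3 f_pm_113 t 126 125 1 = true := ex3_a k10_pm_113 k11_pm_113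

theorem s25_pm_113 : ∃ t, chk3 f_pm_113 t 126 62 1 = true := ex3_b k9_pm_113 s24_pm_113

theorem s26_pm_113 : ∃ t, chk3 f_pm_113 t 63 62 1 = true := ex3_a s25_pm_113 k12_pm_113

theorem s27_pm_113 : ∃ t, chk3 f_pm_113 t 63 31 1 = true := ex3_b s26_pm_113 s23_pm_113

theorem s28_pm_113 : ∃ t, chk3 f_pm_113 t 31 31 1 = true := ex3_a k8_pm_113 s27_pm_113

theorem s29_pm_113 : ∃ t, chk3 f_pm_113 t 15 31 1 = true := ex3_a k7_pm_113 s28_pm_113

theorem s30_pm_113 : ∃ t, chk3 f_pm_113 t 15 15 1 = true := ex3_b k6_pm_113 s29_pm_113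

theorem s31_pm_113 : ∃ t, chk3 f_pm_113 t 7 15 1 = true := ex3_a k5_pm_113 s30_pm_113

theorem s32_pm_113 : ∃ t, chk3 f_pm_113 t 7 7 1 = true := ex3_b k4_pm_113 s31_pm_113

theorem s33_pm_113 : ∃ t, chk3 f_pm_113 t 3 7 1 = true := ex3_a k3_pm_113 s32_pm_113

theorem s34_pm_113 : ∃ t, chk3 f_pm_113 t 3 3 1 = true := ex3_b k2_pm_113 s33_pm_113

theorem s35_pm_113 : ∃ t, chk3 f_pm_113 t 1 3 1 = true := ex3_a k1_pm_113 s34_pm_113

theorem s36_pm_113 : ∃ t, chk3 f_pm_113 t 1 1 1 = true := ex3_b k0_pm_113 s35_pm_113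

theorem c_pm_113 : CertB 536870912 536870912 1610612736 536870912 1020054732 13421774 3 eng mog cd0q1 cd1q3 pd1 false true false .nn 1 1 3
    ndB0q1 ndB1q3 pcB1 cut_pm_113 xt_pm_113 :=
  certB1 (fam := false) (s1 := true) (s2 := false) (a := 1) (b := 1) (c := 3) (cn := .nn) (n1 := ndB0q1) (n2 := ndB1q3) (pc := pcB1) (cut := cut_pm_113) (xt := xt_pm_113) (P1 := 536870912) (W1 := 536870912) (P2 := 1610612736) (W2 := 536870912) (P3 := 1020054732) (W3 := 13421774) (N0 := 3) (En := eng) (mo := mog) (C1 := cd0q1) (C2 := cd1q3) (C3 := pd1)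
    rfl (fun _ => rfl) s36_pm_113

noncomputable def cut_pm_123 : Cut := Cut.of [[⟨0, 1, 0, 26738688⟩, ⟨1, 1, 0, 26738688⟩, ⟨2, 2, 0, 2621440⟩]]

noncomputable def xt_pm_123 : Ext := extD3 3 ⟨4, 1, 1, 5, 99, 20, 33, 40, 51, 125, 1, 32⟩ eng cd0q1 cd1q3 pd2 false true false .npn 1 2 3 rfl ndB0q1 ndB1q3 pcB2

noncomputable def f_pm_123 : ℕ → ℕ → ℕ → ℕ → Bool := onCell 1073741824 536870912 1610612736 536870912 1020054732 13421774
    (rowB 3 eng mog cd0q1 cd1q3 pd2 2 false true false .npn 1 2 3 (qsf 536870912 536870912 1610612736 536870912 2) ndB0q1 ndB1q3 pcB2 cut_pm_123 xt_pm_123)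

def k0_pm_123 : ∃ t, chk3 f_pm_123 t 4 1 1 = true :=
  ⟨(b (b (a (b (a (b (l 15081800) (l 15073472)) (b (l 14976928) (l 14973520))) (a (b (l 15073032) (l 15079800)) (b (l 14979152) (l 14993240)))) (b (a (b (l 1) (l 14867864)) (l 1)) (a (l 14845088) (l 14782296)))) (a (b (a (b (l 15093224) (l 15112904)) (b (l 15015312) (l 15045080))) (a (b (l 15138784) (l 15171296)) (b (l 15082568) (l 15128256)))) (b (a (l 14942928) (l 14846120)) (a (l 15034056) (l 14947912))))) (b (a (b (a (b (l 15211696) (l 15262720)) (b (l 15183336) (l 15250184))) (a (b (l 15392648) (a (l 15409048) (l 15431672))) (b (l 15333152) (l 15439976)))) (b (a (b (l 15126592) (l 15203576)) (l 15090528)) (a (b (l 15296248) (l 15410672)) (l 15057376)))) (a (b (a (b (a (l 15549944) (l 15572984)) (a (l 15803168) (l 15797456))) (b (l 15584632) (l 15834872))) (a (b (a (a (l 16419776) (l 16287016)) (l 16192112)) (a (b (b (a (l 142581540992319503) (l 16661152)) (a (a (l 16734584) (l 16721056)) (a (l 16704928) (l 16686456)))) (a (b (l 143372021157265487) (a (b (l 143792721872830543)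 (b (l 143743862333472847) (l 6))) (l 143375663319171151))) (b (a (l 16732416) (l 16717448)) (l 143060378283573327)))) (b (b (l 16599856) (l 16636368)) (b (a (a (l 16700400) (l 16682000)) (l 16652784)) (a (b (l 16713480) (l 16705600)) (b (l 16677560) (l 16692608))))))) (b (a (l 16133008) (l 16092648)) (a (b (l 16518776) (b (l 16592752) (l 16544008))) (b (l 16426600) (l 16469168)))))) (b (a (b (l 15557160) (l 15753496)) (b (l 15493256) (l 15678696))) (b (a (l 15799680) (l 15926248)) (a (b (l 16319000) (l 16265888)) (b (l 16167232) (l 16250568)))))))), by decide +kernel⟩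

def k1_pm_123 : ∃ t, chk3 f_pm_123 t 5 1 1 = true :=
  ⟨(b (b (a (b (l 1) (a (l 14674168) (l 1))) (l 1)) (a (b (a (l 14742728) (l 14635448)) (a (l 14851160) (l 14747488))) (b (a (l 14526504) (l 1)) (a (l 14639816) (l 14530512))))) (b (a (b (a (l 15001112) (l 14901184)) (a (l 15203248) (l 15104176))) (b (a (l 14794656) (l 14684576)) (a (l 14996000) (l 14882624)))) (b (a (a (b (l 15404600) (l 15579144)) (l 15254224)) (a (l 15261080) (l 15136736))) (a (b (a (l 15802480) (l 15666504)) (a (b (l 16003040) (l 16086936)) (l 15881664))) (b (l 15454184) (a (l 15719704) (l 15560264))))))), by decide +kernel⟩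

def k2_pm_123 : ∃ t, chk3 f_pm_123 t 3 1 1 = true :=
  ⟨(b (a (b (l 1) (a (b (l 1) (a (l 14421552) (l 1))) (l 1))) (l 1)) (a (b (a (b (a (l 14573416) (l 14463176)) (l 14480064)) (b (l 14303696) (l 14483976))) (b (a (l 14760720) (l 14702648)) (a (b (l 15166600) (l 15330376)) (b (l 14892928) (l 15039096))))) (b (a (b (l 1) (a (l 14324256) (l 1))) (l 1)) (b (a (l 14474888) (a (l 14367088) (l 1))) (a (b (l 14644224) (l 14775712)) (b (l 14471064) (l 14548608))))))), by decide +kernel⟩

theorem s3_pm_123 : ∃ t, chk3 f_pm_123 t 2 1 1 = true := ex3_a k0_pm_123 k1_pm_123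

theorem s4_pm_123 : ∃ t, chk3 f_pm_123 t 1 1 1 = true := ex3_a s3_pm_123 k2_pm_123

theorem c_pm_123 : CertB 536870912 536870912 1610612736 536870912 1020054732 13421774 3 eng mog cd0q1 cd1q3 pd2 false true false .npn 1 2 3
    ndB0q1 ndB1q3 pcB2 cut_pm_123 xt_pm_123 :=
  certB2 (fam := false) (s1 := true) (s2 := false) (a := 1) (b := 2) (c := 3) (cn := .npn) (n1 := ndB0q1) (n2 := ndB1q3) (pc := pcB2) (cut := cut_pm_123) (xt := xt_pm_123) (P1 := 536870912) (W1 := 536870912) (P2 := 1610612736) (W2 := 536870912) (P3 := 1020054732) (W3 := 13421774) (N0 := 3) (En := eng) (mo := mog) (C1 := cd0q1) (C2 := cd1q3) (C3 := pd2)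
    rfl (fun _ => rfl) s4_pm_123

noncomputable def f_pm_133 : ℕ → ℕ → ℕ → ℕ → Bool := onCell 536870912 536870912 1610612736 536870912 1020054732 13421774
    (rowB 3 eng mog cd0q1 cd1q3 pd3 0 false true false .dn 1 3 3 (qsf 536870912 536870912 1610612736 536870912 3) ndB0q1 ndB1q3 pcB3 Cut.none Ext.none)

def k0_pm_133 : ∃ t, chk3 f_pm_133 t 1 1 1 = true :=
  ⟨(a (b (l 1) (b (l 1) (a (b (l 1) (a (l 16583480) (l 1))) (l 1)))) (l 1)), by decide +kernel⟩

theorem c_pm_133 : CertB 536870912 536870912 1610612736 536870912 1020054732 13421774 3 eng mog cd0q1 cd1q3 pd3 false true false .dn 1 3 3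
    ndB0q1 ndB1q3 pcB3 Cut.none Ext.none :=
  certB0 (fam := false) (s1 := true) (s2 := false) (a := 1) (b := 3) (c := 3) (cn := .dn) (n1 := ndB0q1) (n2 := ndB1q3) (pc := pcB3) (cut := Cut.none) (xt := Ext.none) (P1 := 536870912) (W1 := 536870912) (P2 := 1610612736) (W2 := 536870912) (P3 := 1020054732) (W3 := 13421774) (N0 := 3) (En := eng) (mo := mog) (C1 := cd0q1) (C2 := cd1q3) (C3 := pd3)
    rfl k0_pm_133

noncomputable def cut_pm_202_a : Cut := Cut.of [[⟨0, 1, 0, 38347922⟩, ⟨1, 0, 0, 38347922⟩, ⟨2, 1, 0, 38347922⟩], [⟨0, 0, 1, 46137344⟩, ⟨1, 1, 2, 46137344⟩, ⟨2, 1, 0, 2097152⟩, ⟨0, 0, 0, 1041207446⟩, ⟨0, 1, 0, 59055800⟩, ⟨1, 0, 0, 59055800⟩, ⟨1, 1, 0, 1041207446⟩]]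

noncomputable def f_pm_202_a : ℕ → ℕ → ℕ → ℕ → Bool := onCell 0 536870912 0 536870912 1020054732 13421774
    (rowB 3 eng mog cd0q2 cd1q2a pd0 0 false true false .pp 2 0 2 (qsf 0 536870912 0 536870912 0) ndB0q2 ndB1q2a pcB0 cut_pm_202_a Ext.none)

def k0_pm_202_a : ∃ t, chk3 f_pm_202_a t 1 1 1 = true :=
  ⟨(a (l 3) (b (l 3) (a (l 3) (b (l 3) (a (l 3) (b (l 3) (b (l 3) (a (l 3) (l 6))))))))), by decide +kernel⟩

theorem c_pm_202_a : CertB 0 536870912 0 536870912 1020054732 13421774 3 eng mog cd0q2 cd1q2a pd0 false true false .pp 2 0 2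
    ndB0q2 ndB1q2a pcB0 cut_pm_202_a Ext.none :=
  certB0 (fam := false) (s1 := true) (s2 := false) (a := 2) (b := 0) (c := 2) (cn := .pp) (n1 := ndB0q2) (n2 := ndB1q2a) (pc := pcB0) (cut := cut_pm_202_a) (xt := Ext.none) (P1 := 0) (W1 := 536870912) (P2 := 0) (W2 := 536870912) (P3 := 1020054732) (W3 := 13421774) (N0 := 3) (En := eng) (mo := mog) (C1 := cd0q2) (C2 := cd1q2a) (C3 := pd0)
    rfl k0_pm_202_a

noncomputable def cut_pm_202_b : Cut := Cut.of [[⟨0, 1, 0, 38347922⟩, ⟨1, 0, 0, 38347922⟩, ⟨2, 1, 0, 38347922⟩], [⟨0, 0, 1, 46137344⟩, ⟨1, 1, 2, 46137344⟩, ⟨2, 1, 0, 2097152⟩, ⟨0, 0, 0, 1041207446⟩, ⟨0, 1, 0, 59055800⟩, ⟨1, 0, 0, 59055800⟩, ⟨1, 1, 0, 1041207446⟩]]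

noncomputable def f_pm_202_b : ℕ → ℕ → ℕ → ℕ → Bool := onCell 0 536870912 1239849684 370763052 1020054732 13421774
    (rowB 3 eng mog cd0q2 cd1q2b pd0 0 false true false .pp 2 0 2 (qsf 0 536870912 1239849684 370763052 0) ndB0q2 ndB1q2b pcB0 cut_pm_202_b Ext.none)

def k0_pm_202_b : ∃ t, chk3 f_pm_202_b t 1 1 1 = true :=
  ⟨(l 3), by decide +kernel⟩

theorem c_pm_202_b : CertB 0 536870912 1239849684 370763052 1020054732 13421774 3 eng mog cd0q2 cd1q2b pd0 false true false .pp 2 0 2
    ndB0q2 ndB1q2b pcB0 cut_pm_202_b Ext.none :=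
  certB0 (fam := false) (s1 := true) (s2 := false) (a := 2) (b := 0) (c := 2) (cn := .pp) (n1 := ndB0q2) (n2 := ndB1q2b) (pc := pcB0) (cut := cut_pm_202_b) (xt := Ext.none) (P1 := 0) (W1 := 536870912) (P2 := 1239849684) (W2 := 370763052) (P3 := 1020054732) (W3 := 13421774) (N0 := 3) (En := eng) (mo := mog) (C1 := cd0q2) (C2 := cd1q2b) (C3 := pd0)
    rfl k0_pm_202_b

noncomputable def f_pm_203 : ℕ → ℕ → ℕ → ℕ → Bool := onCell 0 536870912 0 536870912 1020054732 13421774
    (rowB 3 eng mog cd0q2 cd1q3 pd0 1 false true false .up 2 0 3 (qsf 0 536870912 1610612736 536870912 0) ndB0q2 ndB1q3 pcB0 Cut.none Ext.none)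

def k0_pm_203 : ∃ t, chk3 f_pm_203 t 1 1 1 = true :=
  ⟨(l 3), by decide +kernel⟩

theorem c_pm_203 : CertB 0 536870912 1610612736 536870912 1020054732 13421774 3 eng mog cd0q2 cd1q3 pd0 false true false .up 2 0 3
    ndB0q2 ndB1q3 pcB0 Cut.none Ext.none :=
  certB1 (fam := false) (s1 := true) (s2 := false) (a := 2) (b := 0) (c := 3) (cn := .up) (n1 := ndB0q2) (n2 := ndB1q3) (pc := pcB0) (cut := Cut.none) (xt := Ext.none) (P1 := 0) (W1 := 536870912) (P2 := 1610612736) (W2 := 536870912) (P3 := 1020054732) (W3 := 13421774) (N0 := 3) (En := eng) (mo := mog) (C1 := cd0q2) (C2 := cd1q3) (C3 := pd0)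
    rfl (fun _ => rfl) k0_pm_203

noncomputable def cut_pm_213 : Cut := Cut.of [[⟨0, 1, 0, 26738688⟩, ⟨1, 1, 0, 26738688⟩, ⟨2, 2, 0, 2621440⟩]]

noncomputable def f_pm_213 : ℕ → ℕ → ℕ → ℕ → Bool := onCell 0 536870912 1610612736 536870912 1020054732 13421774
    (rowB 3 eng mog cd0q2 cd1q3 pd1 0 false true false .pnn 2 1 3 (qsf 0 536870912 1610612736 536870912 1) ndB0q2 ndB1q3 pcB1 cut_pm_213 Ext.none)

def k0_pm_213 : ∃ t, chk3 f_pm_213 t 1 1 1 = true :=
  ⟨(a (l 3) (b (l 3) (b (l 3) (a (l 3) (b (l 3) (a (l 3) (b (l 3) (a (l 3) (b (l 3) (b (l 3) (b (l 3) (b (l 3) (l 6))))))))))))), by decide +kernel⟩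

theorem c_pm_213 : CertB 0 536870912 1610612736 536870912 1020054732 13421774 3 eng mog cd0q2 cd1q3 pd1 false true false .pnn 2 1 3
    ndB0q2 ndB1q3 pcB1 cut_pm_213 Ext.none :=
  certB0 (fam := false) (s1 := true) (s2 := false) (a := 2) (b := 1) (c := 3) (cn := .pnn) (n1 := ndB0q2) (n2 := ndB1q3) (pc := pcB1) (cut := cut_pm_213) (xt := Ext.none) (P1 := 0) (W1 := 536870912) (P2 := 1610612736) (W2 := 536870912) (P3 := 1020054732) (W3 := 13421774) (N0 := 3) (En := eng) (mo := mog) (C1 := cd0q2) (C2 := cd1q3) (C3 := pd1)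
    rfl k0_pm_213

noncomputable def f_mm_001 : ℕ → ℕ → ℕ → ℕ → Bool := onCell 0 536870912 536870912 536870912 1020054732 13421774
    (rowB 3 eng mog cd0q0 cd1q1 pd0 0 false false false .up 0 0 1 (qsf 0 536870912 536870912 536870912 0) ndB0q0 ndB1q1 pcB0 Cut.none Ext.none)

def k0_mm_001 : ∃ t, chk3 f_mm_001 t 1 1 1 = true :=
  ⟨(l 3), by decide +kernel⟩

theorem c_mm_001 : CertB 0 536870912 536870912 536870912 1020054732 13421774 3 eng mog cd0q0 cd1q1 pd0 false false false .up 0 0 1
    ndB0q0 ndB1q1 pcB0 Cut.none Ext.none :=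
  certB0 (fam := false) (s1 := false) (s2 := false) (a := 0) (b := 0) (c := 1) (cn := .up) (n1 := ndB0q0) (n2 := ndB1q1) (pc := pcB0) (cut := Cut.none) (xt := Ext.none) (P1 := 0) (W1 := 536870912) (P2 := 536870912) (W2 := 536870912) (P3 := 1020054732) (W3 := 13421774) (N0 := 3) (En := eng) (mo := mog) (C1 := cd0q0) (C2 := cd1q1) (C3 := pd0)
    rfl k0_mm_001

noncomputable def f_mm_011 : ℕ → ℕ → ℕ → ℕ → Bool := onCell 0 536870912 536870912 536870912 1020054732 13421774
    (rowB 3 eng mog cd0q0 cd1q1 pd1 0 false false false .pnn 0 1 1 (qsf 0 536870912 536870912 536870912 1) ndB0q0 ndB1q1 pcB1 Cut.none Ext.none)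

def k0_mm_011 : ∃ t, chk3 f_mm_011 t 1 1 1 = true :=
  ⟨(l 3), by decide +kernel⟩

theorem c_mm_011 : CertB 0 536870912 536870912 536870912 1020054732 13421774 3 eng mog cd0q0 cd1q1 pd1 false false false .pnn 0 1 1
    ndB0q0 ndB1q1 pcB1 Cut.none Ext.none :=
  certB0 (fam := false) (s1 := false) (s2 := false) (a := 0) (b := 1) (c := 1) (cn := .pnn) (n1 := ndB0q0) (n2 := ndB1q1) (pc := pcB1) (cut := Cut.none) (xt := Ext.none) (P1 := 0) (W1 := 536870912) (P2 := 536870912) (W2 := 536870912) (P3 := 1020054732) (W3 := 13421774) (N0 := 3) (En := eng) (mo := mog) (C1 := cd0q0) (C2 := cd1q1) (C3 := pd1)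
    rfl k0_mm_011

noncomputable def f_mm_012_a : ℕ → ℕ → ℕ → ℕ → Bool := onCell 0 536870912 0 536870912 1020054732 13421774
    (rowB 3 eng mog cd0q0 cd1q2a pd1 0 false false false .pnp 0 1 2 (qsf 0 536870912 0 536870912 1) ndB0q0 ndB1q2a pcB1 Cut.none Ext.none)

def k0_mm_012_a : ∃ t, chk3 f_mm_012_a t 1 1 1 = true :=
  ⟨(l 5), by decide +kernel⟩

theorem c_mm_012_a : CertB 0 536870912 0 536870912 1020054732 13421774 3 eng mog cd0q0 cd1q2a pd1 false false false .pnp 0 1 2
    ndB0q0 ndB1q2a pcB1 Cut.none Ext.none :=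
  certB0 (fam := false) (s1 := false) (s2 := false) (a := 0) (b := 1) (c := 2) (cn := .pnp) (n1 := ndB0q0) (n2 := ndB1q2a) (pc := pcB1) (cut := Cut.none) (xt := Ext.none) (P1 := 0) (W1 := 536870912) (P2 := 0) (W2 := 536870912) (P3 := 1020054732) (W3 := 13421774) (N0 := 3) (En := eng) (mo := mog) (C1 := cd0q0) (C2 := cd1q2a) (C3 := pd1)
    rfl k0_mm_012_a

noncomputable def f_mm_012_b : ℕ → ℕ → ℕ → ℕ → Bool := onCell 0 536870912 1239849684 370763052 1020054732 13421774
    (rowB 3 eng mog cd0q0 cd1q2b pd1 0 false false false .pnp 0 1 2 (qsf 0 536870912 1239849684 370763052 1) ndB0q0 ndB1q2b pcB1 Cut.none Ext.none)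

def k0_mm_012_b : ∃ t, chk3 f_mm_012_b t 1 1 1 = true :=
  ⟨(l 5), by decide +kernel⟩

theorem c_mm_012_b : CertB 0 536870912 1239849684 370763052 1020054732 13421774 3 eng mog cd0q0 cd1q2b pd1 false false false .pnp 0 1 2
    ndB0q0 ndB1q2b pcB1 Cut.none Ext.none :=
  certB0 (fam := false) (s1 := false) (s2 := false) (a := 0) (b := 1) (c := 2) (cn := .pnp) (n1 := ndB0q0) (n2 := ndB1q2b) (pc := pcB1) (cut := Cut.none) (xt := Ext.none) (P1 := 0) (W1 := 536870912) (P2 := 1239849684) (W2 := 370763052) (P3 := 1020054732) (W3 := 13421774) (N0 := 3) (En := eng) (mo := mog) (C1 := cd0q0) (C2 := cd1q2b) (C3 := pd1)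
    rfl k0_mm_012_b

noncomputable def f_mm_022_a : ℕ → ℕ → ℕ → ℕ → Bool := onCell 0 536870912 0 536870912 1020054732 13421774
    (rowB 3 eng mog cd0q0 cd1q2a pd2 0 false false false .pp 0 2 2 (qsf 0 536870912 0 536870912 2) ndB0q0 ndB1q2a pcB2 Cut.none Ext.none)

def k0_mm_022_a : ∃ t, chk3 f_mm_022_a t 1 1 1 = true :=
  ⟨(l 5), by decide +kernel⟩

theorem c_mm_022_a : CertB 0 536870912 0 536870912 1020054732 13421774 3 eng mog cd0q0 cd1q2a pd2 false false false .pp 0 2 2
    ndB0q0 ndB1q2a pcB2 Cut.none Ext.none :=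
  certB0 (fam := false) (s1 := false) (s2 := false) (a := 0) (b := 2) (c := 2) (cn := .pp) (n1 := ndB0q0) (n2 := ndB1q2a) (pc := pcB2) (cut := Cut.none) (xt := Ext.none) (P1 := 0) (W1 := 536870912) (P2 := 0) (W2 := 536870912) (P3 := 1020054732) (W3 := 13421774) (N0 := 3) (En := eng) (mo := mog) (C1 := cd0q0) (C2 := cd1q2a) (C3 := pd2)
    rfl k0_mm_022_a

noncomputable def f_mm_022_b : ℕ → ℕ → ℕ → ℕ → Bool := onCell 0 536870912 1239849684 370763052 1020054732 13421774
    (rowB 3 eng mog cd0q0 cd1q2b pd2 0 false false false .pp 0 2 2 (qsf 0 536870912 1239849684 370763052 2) ndB0q0 ndB1q2b pcB2 Cut.none Ext.none)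

def k0_mm_022_b : ∃ t, chk3 f_mm_022_b t 1 1 1 = true :=
  ⟨(l 5), by decide +kernel⟩

theorem c_mm_022_b : CertB 0 536870912 1239849684 370763052 1020054732 13421774 3 eng mog cd0q0 cd1q2b pd2 false false false .pp 0 2 2
    ndB0q0 ndB1q2b pcB2 Cut.none Ext.none :=
  certB0 (fam := false) (s1 := false) (s2 := false) (a := 0) (b := 2) (c := 2) (cn := .pp) (n1 := ndB0q0) (n2 := ndB1q2b) (pc := pcB2) (cut := Cut.none) (xt := Ext.none) (P1 := 0) (W1 := 536870912) (P2 := 1239849684) (W2 := 370763052) (P3 := 1020054732) (W3 := 13421774) (N0 := 3) (En := eng) (mo := mog) (C1 := cd0q0) (C2 := cd1q2b) (C3 := pd2)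
    rfl k0_mm_022_b

noncomputable def f_mm_023 : ℕ → ℕ → ℕ → ℕ → Bool := onCell 0 536870912 1610612736 536870912 1020054732 13421774
    (rowB 3 eng mog cd0q0 cd1q3 pd2 0 false false false .up 0 2 3 (qsf 0 536870912 1610612736 536870912 2) ndB0q0 ndB1q3 pcB2 Cut.none Ext.none)

def k0_mm_023 : ∃ t, chk3 f_mm_023 t 1 1 1 = true :=
  ⟨(l 5), by decide +kernel⟩

theorem c_mm_023 : CertB 0 536870912 1610612736 536870912 1020054732 13421774 3 eng mog cd0q0 cd1q3 pd2 false false false .up 0 2 3
    ndB0q0 ndB1q3 pcB2 Cut.none Ext.none :=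
  certB0 (fam := false) (s1 := false) (s2 := false) (a := 0) (b := 2) (c := 3) (cn := .up) (n1 := ndB0q0) (n2 := ndB1q3) (pc := pcB2) (cut := Cut.none) (xt := Ext.none) (P1 := 0) (W1 := 536870912) (P2 := 1610612736) (W2 := 536870912) (P3 := 1020054732) (W3 := 13421774) (N0 := 3) (En := eng) (mo := mog) (C1 := cd0q0) (C2 := cd1q3) (C3 := pd2)
    rfl k0_mm_023

noncomputable def f_mm_033 : ℕ → ℕ → ℕ → ℕ → Bool := onCell 0 536870912 1610612736 536870912 1020054732 13421774
    (rowB 3 eng mog cd0q0 cd1q3 pd3 0 false false false .pnn 0 3 3 (qsf 0 536870912 1610612736 536870912 3) ndB0q0 ndB1q3 pcB3 Cut.none Ext.none)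

def k0_mm_033 : ∃ t, chk3 f_mm_033 t 1 1 1 = true :=
  ⟨(l 5), by decide +kernel⟩

theorem c_mm_033 : CertB 0 536870912 1610612736 536870912 1020054732 13421774 3 eng mog cd0q0 cd1q3 pd3 false false false .pnn 0 3 3
    ndB0q0 ndB1q3 pcB3 Cut.none Ext.none :=
  certB0 (fam := false) (s1 := false) (s2 := false) (a := 0) (b := 3) (c := 3) (cn := .pnn) (n1 := ndB0q0) (n2 := ndB1q3) (pc := pcB3) (cut := Cut.none) (xt := Ext.none) (P1 := 0) (W1 := 536870912) (P2 := 1610612736) (W2 := 536870912) (P3 := 1020054732) (W3 := 13421774) (N0 := 3) (En := eng) (mo := mog) (C1 := cd0q0) (C2 := cd1q3) (C3 := pd3)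
    rfl k0_mm_033

noncomputable def f_mm_101 : ℕ → ℕ → ℕ → ℕ → Bool := onCell 536870912 536870912 536870912 536870912 1020054732 13421774
    (rowB 3 eng mog cd0q1 cd1q1 pd0 0 false false false .npn 1 0 1 (qsf 536870912 536870912 536870912 536870912 0) ndB0q1 ndB1q1 pcB0 Cut.none Ext.none)

def k0_mm_101 : ∃ t, chk3 f_mm_101 t 1 1 1 = true :=
  ⟨(l 3), by decide +kernel⟩

theorem c_mm_101 : CertB 536870912 536870912 536870912 536870912 1020054732 13421774 3 eng mog cd0q1 cd1q1 pd0 false false false .npn 1 0 1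
    ndB0q1 ndB1q1 pcB0 Cut.none Ext.none :=
  certB0 (fam := false) (s1 := false) (s2 := false) (a := 1) (b := 0) (c := 1) (cn := .npn) (n1 := ndB0q1) (n2 := ndB1q1) (pc := pcB0) (cut := Cut.none) (xt := Ext.none) (P1 := 536870912) (W1 := 536870912) (P2 := 536870912) (W2 := 536870912) (P3 := 1020054732) (W3 := 13421774) (N0 := 3) (En := eng) (mo := mog) (C1 := cd0q1) (C2 := cd1q1) (C3 := pd0)
    rfl k0_mm_101

noncomputable def f_mm_102_a : ℕ → ℕ → ℕ → ℕ → Bool := onCell 536870912 536870912 0 536870912 1020054732 13421774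
    (rowB 3 eng mog cd0q1 cd1q2a pd0 0 false false false .npp 1 0 2 (qsf 536870912 536870912 0 536870912 0) ndB0q1 ndB1q2a pcB0 Cut.none Ext.none)

def k0_mm_102_a : ∃ t, chk3 f_mm_102_a t 1 1 1 = true :=
  ⟨(a (l 5) (l 3)), by decide +kernel⟩

theorem c_mm_102_a : CertB 536870912 536870912 0 536870912 1020054732 13421774 3 eng mog cd0q1 cd1q2a pd0 false false false .npp 1 0 2
    ndB0q1 ndB1q2a pcB0 Cut.none Ext.none :=
  certB0 (fam := false) (s1 := false) (s2 := false) (a := 1) (b := 0) (c := 2) (cn := .npp) (n1 := ndB0q1) (n2 := ndB1q2a) (pc := pcB0) (cut := Cut.none) (xt := Ext.none) (P1 := 536870912) (W1 := 536870912) (P2 := 0) (W2 := 536870912) (P3 := 1020054732) (W3 := 13421774) (N0 := 3) (En := eng) (mo := mog) (C1 := cd0q1) (C2 := cd1q2a) (C3 := pd0)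
    rfl k0_mm_102_a

noncomputable def f_mm_102_b : ℕ → ℕ → ℕ → ℕ → Bool := onCell 536870912 536870912 1239849684 370763052 1020054732 13421774
    (rowB 3 eng mog cd0q1 cd1q2b pd0 0 false false false .npp 1 0 2 (qsf 536870912 536870912 1239849684 370763052 0) ndB0q1 ndB1q2b pcB0 Cut.none Ext.none)

def k0_mm_102_b : ∃ t, chk3 f_mm_102_b t 1 1 1 = true :=
  ⟨(l 5), by decide +kernel⟩

theorem c_mm_102_b : CertB 536870912 536870912 1239849684 370763052 1020054732 13421774 3 eng mog cd0q1 cd1q2b pd0 false false false .npp 1 0 2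
    ndB0q1 ndB1q2b pcB0 Cut.none Ext.none :=
  certB0 (fam := false) (s1 := false) (s2 := false) (a := 1) (b := 0) (c := 2) (cn := .npp) (n1 := ndB0q1) (n2 := ndB1q2b) (pc := pcB0) (cut := Cut.none) (xt := Ext.none) (P1 := 536870912) (W1 := 536870912) (P2 := 1239849684) (W2 := 370763052) (P3 := 1020054732) (W3 := 13421774) (N0 := 3) (En := eng) (mo := mog) (C1 := cd0q1) (C2 := cd1q2b) (C3 := pd0)
    rfl k0_mm_102_b

noncomputable def f_mm_112_a : ℕ → ℕ → ℕ → ℕ → Bool := onCell 536870912 536870912 0 536870912 1020054732 13421774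
    (rowB 3 eng mog cd0q1 cd1q2a pd1 2 false false false .dn 1 1 2 (qsf 536870912 536870912 0 536870912 1) ndB0q1 ndB1q2a pcB1 Cut.none Ext.none)

def k0_mm_112_a : ∃ t, chk3 f_mm_112_a t 1 1 1 = true :=
  ⟨(l 5), by decide +kernel⟩

theorem c_mm_112_a : CertB 536870912 536870912 0 536870912 1020054732 13421774 3 eng mog cd0q1 cd1q2a pd1 false false false .dn 1 1 2
    ndB0q1 ndB1q2a pcB1 Cut.none Ext.none :=
  certB2 (fam := false) (s1 := false) (s2 := false) (a := 1) (b := 1) (c := 2) (cn := .dn) (n1 := ndB0q1) (n2 := ndB1q2a) (pc := pcB1) (cut := Cut.none) (xt := Ext.none) (P1 := 536870912) (W1 := 536870912) (P2 := 0) (W2 := 536870912) (P3 := 1020054732) (W3 := 13421774) (N0 := 3) (En := eng) (mo := mog) (C1 := cd0q1) (C2 := cd1q2a) (C3 := pd1)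
    rfl (fun _ => rfl) k0_mm_112_a

noncomputable def f_mm_112_b : ℕ → ℕ → ℕ → ℕ → Bool := onCell 536870912 536870912 1239849684 370763052 1020054732 13421774
    (rowB 3 eng mog cd0q1 cd1q2b pd1 0 false false false .dn 1 1 2 (qsf 536870912 536870912 1239849684 370763052 1) ndB0q1 ndB1q2b pcB1 Cut.none Ext.none)

def k0_mm_112_b : ∃ t, chk3 f_mm_112_b t 1 1 1 = true :=
  ⟨(l 5), by decide +kernel⟩

theorem c_mm_112_b : CertB 536870912 536870912 1239849684 370763052 1020054732 13421774 3 eng mog cd0q1 cd1q2b pd1 false false false .dn 1 1 2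
    ndB0q1 ndB1q2b pcB1 Cut.none Ext.none :=
  certB0 (fam := false) (s1 := false) (s2 := false) (a := 1) (b := 1) (c := 2) (cn := .dn) (n1 := ndB0q1) (n2 := ndB1q2b) (pc := pcB1) (cut := Cut.none) (xt := Ext.none) (P1 := 536870912) (W1 := 536870912) (P2 := 1239849684) (W2 := 370763052) (P3 := 1020054732) (W3 := 13421774) (N0 := 3) (En := eng) (mo := mog) (C1 := cd0q1) (C2 := cd1q2b) (C3 := pd1)
    rfl k0_mm_112_b

noncomputable def f_mm_113 : ℕ → ℕ → ℕ → ℕ → Bool := onCell 536870912 536870912 1610612736 536870912 1020054732 13421774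
    (rowB 3 eng mog cd0q1 cd1q3 pd1 0 false false false .nn 1 1 3 (qsf 536870912 536870912 1610612736 536870912 1) ndB0q1 ndB1q3 pcB1 Cut.none Ext.none)

def k0_mm_113 : ∃ t, chk3 f_mm_113 t 1 1 1 = true :=
  ⟨(l 5), by decide +kernel⟩

theorem c_mm_113 : CertB 536870912 536870912 1610612736 536870912 1020054732 13421774 3 eng mog cd0q1 cd1q3 pd1 false false false .nn 1 1 3
    ndB0q1 ndB1q3 pcB1 Cut.none Ext.none :=
  certB0 (fam := false) (s1 := false) (s2 := false) (a := 1) (b := 1) (c := 3) (cn := .nn) (n1 := ndB0q1) (n2 := ndB1q3) (pc := pcB1) (cut := Cut.none) (xt := Ext.none) (P1 := 536870912) (W1 := 536870912) (P2 := 1610612736) (W2 := 536870912) (P3 := 1020054732) (W3 := 13421774) (N0 := 3) (En := eng) (mo := mog) (C1 := cd0q1) (C2 := cd1q3) (C3 := pd1)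
    rfl k0_mm_113

noncomputable def f_mm_123 : ℕ → ℕ → ℕ → ℕ → Bool := onCell 536870912 536870912 1610612736 536870912 1020054732 13421774
    (rowB 3 eng mog cd0q1 cd1q3 pd2 0 false false false .npn 1 2 3 (qsf 536870912 536870912 1610612736 536870912 2) ndB0q1 ndB1q3 pcB2 Cut.none Ext.none)

def k0_mm_123 : ∃ t, chk3 f_mm_123 t 1 1 1 = true :=
  ⟨(l 5), by decide +kernel⟩

theorem c_mm_123 : CertB 536870912 536870912 1610612736 536870912 1020054732 13421774 3 eng mog cd0q1 cd1q3 pd2 false false false .npn 1 2 3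
    ndB0q1 ndB1q3 pcB2 Cut.none Ext.none :=
  certB0 (fam := false) (s1 := false) (s2 := false) (a := 1) (b := 2) (c := 3) (cn := .npn) (n1 := ndB0q1) (n2 := ndB1q3) (pc := pcB2) (cut := Cut.none) (xt := Ext.none) (P1 := 536870912) (W1 := 536870912) (P2 := 1610612736) (W2 := 536870912) (P3 := 1020054732) (W3 := 13421774) (N0 := 3) (En := eng) (mo := mog) (C1 := cd0q1) (C2 := cd1q3) (C3 := pd2)
    rfl k0_mm_123

noncomputable def f_mm_133 : ℕ → ℕ → ℕ → ℕ → Bool := onCell 536870912 536870912 1610612736 536870912 1020054732 13421774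
    (rowB 3 eng mog cd0q1 cd1q3 pd3 0 false false false .dn 1 3 3 (qsf 536870912 536870912 1610612736 536870912 3) ndB0q1 ndB1q3 pcB3 Cut.none Ext.none)

def k0_mm_133 : ∃ t, chk3 f_mm_133 t 1 1 1 = true :=
  ⟨(l 5), by decide +kernel⟩

theorem c_mm_133 : CertB 536870912 536870912 1610612736 536870912 1020054732 13421774 3 eng mog cd0q1 cd1q3 pd3 false false false .dn 1 3 3
    ndB0q1 ndB1q3 pcB3 Cut.none Ext.none :=
  certB0 (fam := false) (s1 := false) (s2 := false) (a := 1) (b := 3) (c := 3) (cn := .dn) (n1 := ndB0q1) (n2 := ndB1q3) (pc := pcB3) (cut := Cut.none) (xt := Ext.none) (P1 := 536870912) (W1 := 536870912) (P2 := 1610612736) (W2 := 536870912) (P3 := 1020054732) (W3 := 13421774) (N0 := 3) (En := eng) (mo := mog) (C1 := cd0q1) (C2 := cd1q3) (C3 := pd3)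
    rfl k0_mm_133

noncomputable def f_mm_202_a : ℕ → ℕ → ℕ → ℕ → Bool := onCell 0 536870912 0 536870912 1020054732 13421774
    (rowB 3 eng mog cd0q2 cd1q2a pd0 0 false false false .pp 2 0 2 (qsf 0 536870912 0 536870912 0) ndB0q2 ndB1q2a pcB0 Cut.none Ext.none)

def k0_mm_202_a : ∃ t, chk3 f_mm_202_a t 1 1 1 = true :=
  ⟨(l 3), by decide +kernel⟩

theorem c_mm_202_a : CertB 0 536870912 0 536870912 1020054732 13421774 3 eng mog cd0q2 cd1q2a pd0 false false false .pp 2 0 2
    ndB0q2 ndB1q2a pcB0 Cut.none Ext.none :=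
  certB0 (fam := false) (s1 := false) (s2 := false) (a := 2) (b := 0) (c := 2) (cn := .pp) (n1 := ndB0q2) (n2 := ndB1q2a) (pc := pcB0) (cut := Cut.none) (xt := Ext.none) (P1 := 0) (W1 := 536870912) (P2 := 0) (W2 := 536870912) (P3 := 1020054732) (W3 := 13421774) (N0 := 3) (En := eng) (mo := mog) (C1 := cd0q2) (C2 := cd1q2a) (C3 := pd0)
    rfl k0_mm_202_a

noncomputable def f_mm_202_b : ℕ → ℕ → ℕ → ℕ → Bool := onCell 0 536870912 1239849684 370763052 1020054732 13421774
    (rowB 3 eng mog cd0q2 cd1q2b pd0 0 false false false .pp 2 0 2 (qsf 0 536870912 1239849684 370763052 0) ndB0q2 ndB1q2b pcB0 Cut.none Ext.none)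

def k0_mm_202_b : ∃ t, chk3 f_mm_202_b t 1 1 1 = true :=
  ⟨(l 3), by decide +kernel⟩

theorem c_mm_202_b : CertB 0 536870912 1239849684 370763052 1020054732 13421774 3 eng mog cd0q2 cd1q2b pd0 false false false .pp 2 0 2
    ndB0q2 ndB1q2b pcB0 Cut.none Ext.none :=
  certB0 (fam := false) (s1 := false) (s2 := false) (a := 2) (b := 0) (c := 2) (cn := .pp) (n1 := ndB0q2) (n2 := ndB1q2b) (pc := pcB0) (cut := Cut.none) (xt := Ext.none) (P1 := 0) (W1 := 536870912) (P2 := 1239849684) (W2 := 370763052) (P3 := 1020054732) (W3 := 13421774) (N0 := 3) (En := eng) (mo := mog) (C1 := cd0q2) (C2 := cd1q2b) (C3 := pd0)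
    rfl k0_mm_202_b

noncomputable def f_mm_203 : ℕ → ℕ → ℕ → ℕ → Bool := onCell 0 536870912 0 536870912 1020054732 13421774
    (rowB 3 eng mog cd0q2 cd1q3 pd0 1 false false false .up 2 0 3 (qsf 0 536870912 1610612736 536870912 0) ndB0q2 ndB1q3 pcB0 Cut.none Ext.none)

def k0_mm_203 : ∃ t, chk3 f_mm_203 t 1 1 1 = true :=
  ⟨(l 3), by decide +kernel⟩

theorem c_mm_203 : CertB 0 536870912 1610612736 536870912 1020054732 13421774 3 eng mog cd0q2 cd1q3 pd0 false false false .up 2 0 3
    ndB0q2 ndB1q3 pcB0 Cut.none Ext.none :=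
  certB1 (fam := false) (s1 := false) (s2 := false) (a := 2) (b := 0) (c := 3) (cn := .up) (n1 := ndB0q2) (n2 := ndB1q3) (pc := pcB0) (cut := Cut.none) (xt := Ext.none) (P1 := 0) (W1 := 536870912) (P2 := 1610612736) (W2 := 536870912) (P3 := 1020054732) (W3 := 13421774) (N0 := 3) (En := eng) (mo := mog) (C1 := cd0q2) (C2 := cd1q3) (C3 := pd0)
    rfl (fun _ => rfl) k0_mm_203

noncomputable def f_mm_213 : ℕ → ℕ → ℕ → ℕ → Bool := onCell 0 536870912 1610612736 536870912 1020054732 13421774
    (rowB 3 eng mog cd0q2 cd1q3 pd1 0 false false false .pnn 2 1 3 (qsf 0 536870912 1610612736 536870912 1) ndB0q2 ndB1q3 pcB1 Cut.none Ext.none)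

def k0_mm_213 : ∃ t, chk3 f_mm_213 t 1 1 1 = true :=
  ⟨(a (l 3) (l 5)), by decide +kernel⟩

theorem c_mm_213 : CertB 0 536870912 1610612736 536870912 1020054732 13421774 3 eng mog cd0q2 cd1q3 pd1 false false false .pnn 2 1 3
    ndB0q2 ndB1q3 pcB1 Cut.none Ext.none :=
  certB0 (fam := false) (s1 := false) (s2 := false) (a := 2) (b := 1) (c := 3) (cn := .pnn) (n1 := ndB0q2) (n2 := ndB1q3) (pc := pcB1) (cut := Cut.none) (xt := Ext.none) (P1 := 0) (W1 := 536870912) (P2 := 1610612736) (W2 := 536870912) (P3 := 1020054732) (W3 := 13421774) (N0 := 3) (En := eng) (mo := mog) (C1 := cd0q2) (C2 := cd1q3) (C3 := pd1)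
    rfl k0_mm_213

end Pool.Agent.Strip051.G.I9500_9625.Tab.C.BB01

namespace Pool.Agent.Strip051.G.I9500_9625.Tab.C.BB02

open Pool.Agent.Strip051.PB Pool.Agent.Strip051.PB.T
open Pool.Agent.Strip051.G.I9500_9625.Tab

noncomputable def f_pp_001 : ℕ → ℕ → ℕ → ℕ → Bool := onCell 0 536870912 536870912 536870912 1020054732 13421774
    (rowB 3 eng mog cd0q0 cd2q1 pd0 0 false true true .up 0 0 1 (qsf 0 536870912 536870912 536870912 0) ndB0q0 ndB2q1 pcB0 Cut.none Ext.none)

def k0_pp_001 : ∃ t, chk3 f_pp_001 t 1 1 1 = true :=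
  ⟨(l 3), by decide +kernel⟩

theorem c_pp_001 : CertB 0 536870912 536870912 536870912 1020054732 13421774 3 eng mog cd0q0 cd2q1 pd0 false true true .up 0 0 1
    ndB0q0 ndB2q1 pcB0 Cut.none Ext.none :=
  certB0 (fam := false) (s1 := true) (s2 := true) (a := 0) (b := 0) (c := 1) (cn := .up) (n1 := ndB0q0) (n2 := ndB2q1) (pc := pcB0) (cut := Cut.none) (xt := Ext.none) (P1 := 0) (W1 := 536870912) (P2 := 536870912) (W2 := 536870912) (P3 := 1020054732) (W3 := 13421774) (N0 := 3) (En := eng) (mo := mog) (C1 := cd0q0) (C2 := cd2q1) (C3 := pd0)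
    rfl k0_pp_001

noncomputable def f_pp_011 : ℕ → ℕ → ℕ → ℕ → Bool := onCell 0 536870912 536870912 536870912 1020054732 13421774
    (rowB 3 eng mog cd0q0 cd2q1 pd1 0 false true true .pnn 0 1 1 (qsf 0 536870912 536870912 536870912 1) ndB0q0 ndB2q1 pcB1 Cut.none Ext.none)

def k0_pp_011 : ∃ t, chk3 f_pp_011 t 1 1 1 = true :=
  ⟨(l 3), by decide +kernel⟩

theorem c_pp_011 : CertB 0 536870912 536870912 536870912 1020054732 13421774 3 eng mog cd0q0 cd2q1 pd1 false true true .pnn 0 1 1
    ndB0q0 ndB2q1 pcB1 Cut.none Ext.none :=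
  certB0 (fam := false) (s1 := true) (s2 := true) (a := 0) (b := 1) (c := 1) (cn := .pnn) (n1 := ndB0q0) (n2 := ndB2q1) (pc := pcB1) (cut := Cut.none) (xt := Ext.none) (P1 := 0) (W1 := 536870912) (P2 := 536870912) (W2 := 536870912) (P3 := 1020054732) (W3 := 13421774) (N0 := 3) (En := eng) (mo := mog) (C1 := cd0q0) (C2 := cd2q1) (C3 := pd1)
    rfl k0_pp_011

noncomputable def cut_pp_012_a : Cut := Cut.of [[⟨0, 0, 0, 38347922⟩, ⟨1, 1, 0, 38347922⟩, ⟨2, 1, 0, 38347922⟩]]

noncomputable def xt_pp_012_a : Ext := extD3 3 ⟨4, 1, 1, 5, 99, 20, 33, 40, 51, 125, 1, 32⟩ eng cd0q0 cd2q2a pd1 false true true .pnp 0 1 2 rfl ndB0q0 ndB2q2a pcB1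

noncomputable def f_pp_012_a : ℕ → ℕ → ℕ → ℕ → Bool := onCell 536870912 536870912 0 536870912 1020054732 13421774
    (rowB 3 eng mog cd0q0 cd2q2a pd1 2 false true true .pnp 0 1 2 (qsf 0 536870912 0 536870912 1) ndB0q0 ndB2q2a pcB1 cut_pp_012_a xt_pp_012_a)

def k0_pp_012_a : ∃ t, chk3 f_pp_012_a t 2 1 1 = true :=
  ⟨(l 3), by decide +kernel⟩

def k1_pp_012_a : ∃ t, chk3 f_pp_012_a t 6 1 1 = true :=
  ⟨(b (a (l 3) (b (a (l 3) (b (a (a (l 3) (c (l 117205199895) (l 116131368791))) (a (b (a (l 104857055751) (l 70497290423)) (c (l 115057708535) (l 114520745543))) (b (c (l 16573704) (l 16525152)) (c (l 102709629607) (b (l 16514768) (l 104857035351)))))) (l 3))) (l 3))) (l 3)), by decide +kernel⟩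

def k2_pp_012_a : ∃ t, chk3 f_pp_012_a t 7 4 1 = true :=
  ⟨(a (a (a (b (a (b (c (l 16551728) (l 16500080)) (c (l 16565656) (l 68886609815))) (b (l 16438800) (c (l 16542928) (l 16490120)))) (b (a (c (l 98951517447) (b (l 71571002695) (l 99488310855))) (c (l 68349825927) (a (l 66739140583) (l 16501600)))) (a (l 3) (c (l 91435312871) (a (l 91972113479) (l 88750859127)))))) (b (a (b (l 16455496) (c (l 16518880) (l 16464032))) (b (l 16450568) (l 16403016))) (a (b (a (c (l 16541976) (l 16488560)) (l 16419040)) (c (b (l 16550024) (l 62444256887)) (b (l 65665353959) (a (l 16491464) (l 16500984))))) (b (a (l 16427208) (l 16435200)) (a (c (l 16537096) (l 16461544)) (a (l 16416568) (l 16431064))))))) (b (a (a (b (l 16424152) (l 16418584)) (l 16363304)) (a (l 16378248) (l 16351184))) (a (a (b (c (l 16485504) (l 16428736)) (a (c (l 16512056) (l 16455784)) (l 16408096))) (b (l 16388688) (c (l 16479376) (l 16422064)))) (c (b (l 16417632) (l 16375648)) (a (l 16364264) (l 16358456)))))) (a (a (a (b (l 16324280) (a (l 16366216) (l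 16352608))) (b (l 16297640) (l 16248352))) (b (c (l 16278600) (l 16238080)) (c (l 16273424) (l 16268024)))) (a (b (a (b (l 16214840) (l 16227528)) (b (b (l 16168240) (l 16194272)) (l 16203568))) (a (c (l 16273504) (l 16232304)) (c (l 16245984) (l 16209624)))) (b (a (b (c (l 16158824) (l 16141064)) (l 16181904)) (b (c (b (a (l 16160096) (b (l 16148216) (l 16150880))) (l 16160560)) (b (a (l 16149432) (l 16142896)) (l 16148792))) (c (l 16149968) (l 16133760)))) (c (b (l 16156576) (l 16218240)) (a (l 16189680) (l 16173144))))))), by decide +kernel⟩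

def k3_pp_012_a : ∃ t, chk3 f_pp_012_a t 7 10 1 = true :=
  ⟨(a (a (a (l 3) (b (a (a (l 3) (b (c (l 16562936) (l 80160918023)) (l 3))) (c (a (l 82308478599) (l 73181646999)) (b (a (l 16478024) (l 16485968)) (a (l 73181592311) (l 72644693527))))) (a (l 3) (a (l 3) (a (l 3) (b (l 67812878375) (l 3))))))) (c (a (b (a (b (l 16522040) (l 16491800)) (l 16460208)) (a (b (a (l 16551512) (l 16539760)) (l 74792278903)) (a (l 16491680) (l 16520760)))) (a (b (l 16475504) (a (l 16507672) (l 16494392))) (b (l 16448208) (l 16474152)))) (a (a (b (a (b (l 16472576) (l 16484680)) (l 16444264)) (a (b (l 71034088215) (l 70497248535)) (b (l 16484032) (l 61370432311)))) (b (a (l 16451728) (l 16438184)) (a (b (l 16470552) (l 16484072)) (l 16442872)))) (a (b (l 16417824) (a (l 16450280) (l 16436696))) (b (l 16390736) (l 16416328)))))) (a (a (a (b (l 16392424) (a (l 16425080) (l 16411448))) (b (l 16365056) (l 16348992))) (c (b (l 16349592) (l 16376264)) (b (l 16298224) (l 16322928)))) (a (a (b (l 16284400) (l 16309688)) (b (l 16258296) (l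 16283064))) (c (b (l 16241072) (l 16267056)) (b (l 16206656) (l 16228904)))))), by decide +kernel⟩

def k4_pp_012_a : ∃ t, chk3 f_pp_012_a t 7 11 1 = true :=
  ⟨(a (a (l 3) (a (b (a (l 3) (c (a (l 81234752343) (b (l 16541032) (l 16553832))) (a (b (l 87677125303) (l 3)) (b (l 16484792) (l 16498136))))) (l 3)) (c (b (a (b (l 16521664) (l 68886669895)) (l 16481664)) (a (a (l 87677206615) (l 43653764103)) (a (l 16540080) (l 16527216)))) (b (a (a (b (l 16471312) (l 16486256)) (l 16465360)) (a (l 16451800) (l 16438248))) (a (a (l 86066518439) (b (l 16488552) (l 16503192))) (a (l 16483512) (l 16470256))))))) (a (c (a (b (a (l 16475632) (l 16448056)) (a (l 16507288) (l 16480136))) (b (a (l 16419960) (l 16391736)) (a (l 16452360) (l 16424352)))) (a (b (a (l 16418000) (l 16391104)) (a (l 16450064) (l 16423168))) (b (a (l 16364352) (l 16338152)) (a (l 16396320) (l 16369928))))) (a (a (b (c (l 16363536) (l 16312624)) (c (l 16396256) (l 16344104))) (b (c (l 16334896) (l 16287224)) (c (l 16367528) (l 16318184)))) (b (a (l 16286704)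 (l 16265912)) (a (c (l 16340904) (l 16295224)) (c (l 16317760) (l 16276736))))))), by decide +kernel⟩

def k5_pp_012_a : ∃ t, chk3 f_pp_012_a t 14 3 1 = true :=
  ⟨(b (a (l 3) (b (a (l 3) (b (a (l 3) (c (b (l 16557032) (l 16571800)) (b (l 16501344) (l 16496160)))) (l 3))) (l 3))) (l 3)), by decide +kernel⟩

def k6_pp_012_a : ∃ t, chk3 f_pp_012_a t 30 6 1 = true :=
  ⟨(b (c (a (b (a (b (l 16532768) (l 16550392)) (b (l 16505992) (l 16524336))) (a (b (l 123647557335) (l 270213345991)) (b (l 16543512) (a (l 16569192) (l 16556968))))) (b (a (l 16487880) (l 16460200)) (a (b (l 16516528) (l 16536864)) (b (l 16489152) (l 16509728))))) (a (b (a (b (l 16476320) (l 16494760)) (l 16396136)) (a (b (l 117205004247) (l 273971353927)) (b (l 16488456) (a (l 16494424) (l 16502952))))) (b (a (l 16432224) (l 16405768)) (a (b (l 16461736) (l 16462008)) (b (l 16435304) (l 16456624)))))) (a (b (a (l 3) (b (a (l 3) (c (l 16535024) (l 227800430327))) (l 3))) (l 3)) (b (a (b (c (a (l 16564800) (l 16551472)) (a (l 16512064) (l 16498872))) (a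 (c (l 215452537319) (l 213841832375)) (c (l 16552800) (l 129553074823)))) (c (b (l 16510304) (a (l 16560528) (l 16547200))) (b (l 16437264) (a (l 16509624) (l 16496704))))) (a (a (l 3) (b (c (l 156933626839) (l 218136818823)) (l 3))) (c (b (a (l 16542072) (l 16570928)) (a (l 163912971047) (b (l 16589416) (l 16601976)))) (b (a (b (l 16528400) (l 16541328)) (l 16522088)) (a (b (l 151028022711) (l 235316762119)) (b (l 16542056) (l 16534800))))))))), by decide +kernel⟩

def k7_pp_012_a : ∃ t, chk3 f_pp_012_a t 31 6 1 = true :=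
  ⟨(a (b (a (b (c (l 16432312) (l 16379760)) (c (b (l 16461488) (l 16482248)) (b (l 16409256) (l 16430584)))) (b (c (l 16403592) (l 16353456)) (c (l 141600569939607679) (l 141270304032227455)))) (b (a (c (b (l 16462064) (a (l 16533840) (l 16519952))) (b (l 16453216) (a (l 16483936) (l 16470736)))) (c (b (l 16475552) (l 142073085174530175)) (b (l 16426568) (l 141751065608355967)))) (a (c (b (a (l 16557712) (l 16543904)) (a (c (l 16594104) (l 16571280)) (c (l 16580368) (l 16557816)))) (b (a (l 16509384) (l 16496200)) (a (b (l 16529408) (l 16543328)) (b (l 16516312) (l 16530312))))) (c (b (a (l 16529656) (l 16515776)) (a (b (l 16548504) (l 16561576)) (l 16541384))) (b (l 141639671388962943) (a (l 16509928) (l 16497136))))))) (b (b (a (l 140883756894322815) (c (l 16354096) (l 16311576))) (a (c (l 141704405014806655) (l 16369944)) (c (l 16415256) (l 16351344)))) (b (a (c (l 141793396827357311) (l 141326585328009343)) (a (l 141353660817539199) (b (l 16401688) (l 16446824)))) (a (c (b (l 142240485816778879) (l 142134382997913727))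 (b (l 141782539133517951) (l 141868644694605951))) (c (a (l 142224336733585535) (b (l 16471160) (l 16497776))) (b (l 16456304) (a (l 16467232) (l 16460000)))))))), by decide +kernel⟩

def k8_pp_012_a : ∃ t, chk3 f_pp_012_a t 30 7 1 = true :=
  ⟨(b (a (l 3) (b (a (l 3) (a (l 3) (b (c (b (l 16582952) (l 184314127831)) (b (l 158544248455) (l 179482241927))) (l 3)))) (l 3))) (l 3)), by decide +kernel⟩

def k9_pp_012_a : ∃ t, chk3 f_pp_012_a t 62 14 1 = true :=
  ⟨(b (b (a (a (c (b (l 16602328) (c (l 16626312) (l 16605024))) (b (l 16557712) (a (l 16575504) (l 16569512)))) (c (c (l 16606464) (l 16585064)) (b (l 16544824) (l 16559856)))) (c (a (b (l 16575048) (l 16588904)) (l 142492823881973887)) (a (b (l 16531584) (l 16546704)) (l 142218014608474239)))) (b (a (a (a (l 3) (c (l 16626400) (l 16584760))) (c (c (l 16626960) (l 16606568)) (c (l 16585864) (l 16564864)))) (a (c (c (l 16613176) (l 16593072)) (c (l 16572664) (l 16551960))) (c (l 16589872) (l 16549856)))) (a (a (l 3) (c (c (l 16640872) (l 16621280)) (c (l 16601400)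 (l 16581224)))) (c (a (c (l 16627472) (l 16608112)) (a (l 16607848) (l 16601496))) (a (c (l 16588464) (l 16568528)) (c (l 16575840) (l 16556304))))))) (a (b (b (a (l 3) (c (c (l 16654728) (l 112910356535)) (c (l 108615356311) (l 104857225959)))) (l 3)) (l 3)) (b (b (c (a (c (a (l 16645560) (l 16638784)) (l 16634064)) (c (l 16628848) (l 16610664))) (a (c (l 16604752) (l 16585656)) (a (l 16585872) (l 16580016)))) (a (c (a (c (l 16660136) (l 16642496)) (c (l 16653816) (l 16636232))) (c (a (l 16624592) (l 16618384)) (a (l 16606424) (l 16600280)))) (c (c (a (l 16647200) (l 16640832)) (a (l 16629784) (l 16623624))) (c (l 16619576) (l 16601760))))) (a (a (l 3) (b (c (c (l 16668808) (l 16652272)) (c (l 16635488) (l 16618472))) (l 3))) (c (b (a (c (l 16662640) (l 16646176)) (c (l 16656344) (l 16640080))) (a (l 2092041659237060203249507903) (b (c (l 16668192) (l 16652672)) (c (l 16676280) (l 16661312))))) (b (c (a (l 16629464) (l 16623576)) (a (l 16612520) (l 16606848))) (a (b (c (l 16642704) (l 16626600)) (c (l 16651592) (l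 16636136))) (c (b (l 16636936) (l 16646136)) (b (l 16620976) (l 16630744)))))))))), by decide +kernel⟩

def k10_pp_012_a : ∃ t, chk3 f_pp_012_a t 63 14 1 = true :=
  ⟨(b (a (a (c (b (l 142547936877019263) (l 142470971122319487)) (b (l 142109094214860927) (l 142055424368279679))) (b (c (l 142442315018338431) (l 142205095303872639)) (c (l 142547799474798719) (l 142152318810833023)))) (b (c (a (l 142535429888639103) (l 16546816)) (a (l 16518160) (l 16490152))) (a (c (l 142643319527227519) (l 142273127634157695)) (b (c (l 16547808) (l 16513984)) (c (l 16562912) (l 16530512)))))) (a (b (a (c (b (l 142739801761710207) (l 142625246426022015)) (b (l 142525465640370303) (l 142426921946333311))) (c (b (l 142818210662432895) (l 142704205082656895)) (b (l 142442864809902207) (l 142524434864455807)))) (c (a (b (a (c (l 16650248) (l 16634232)) (l 142894626802024575)) (a (b (c (l 16662264) (l 16647000)) (c (l 16670520) (l 16655800))) (b (l 143134526521000063) (l 142998874291814527)))) (b (l 142780621110198399) (b (l 142843774400004223)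 (l 142890915936452735)))) (a (b (c (c (l 16619408) (l 16611296)) (l 142601194559225983)) (a (b (c (l 16631520) (l 16615824)) (c (l 16640864) (l 16625728))) (l 142459220192493695))) (b (l 142438329397887103) (c (l 142807971517890687) (l 142639952367501439)))))) (b (a (c (b (l 142734716478144639) (l 142806459644969087)) (b (l 142563879791804543) (l 142650947405545599))) (a (c (l 142859923368657023) (l 142538522313638015)) (b (c (l 16576776) (l 16546520)) (c (l 16593640) (l 16565208))))) (a (c (b (l 142887892259586175) (b (l 142957505116930175) (l 143007464195358847))) (b (l 142569858461712511) (l 142594460075704447))) (a (c (b (l 16619904) (l 143082918160613503)) (l 142567315810844799)) (b (c (l 16611368) (l 16584984)) (a (l 142830923809685631) (c (l 16629120) (l 16605272))))))))), by decide +kernel⟩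

def k11_pp_012_a : ∃ t, chk3 f_pp_012_a t 62 15 1 = true :=
  ⟨(b (a (l 3) (b (a (l 3) (a (l 3) (b (b (c (l 1473071776792029114050354751) (c (l 16655520) (l 16640768))) (l 3)) (l 3)))) (l 3))) (l 3)), by decide +kernel⟩

def k12_pp_012_a : ∃ t, chk3 f_pp_012_a t 126 30 1 = true :=
  ⟨(b (b (c (a (a (b (c (l 16679080) (l 16664928)) (c (l 979830348345004251411787391) (l 1037858089592380381184618111))) (b (c (l 16673864) (l 16660032)) (c (l 599422192111439509548671) (l 16674808)))) (b (c (l 143193968904175743) (l 143046840477302911)) (c (l 143244202860265599) (l 143102434553839743)))) (a (b (a (c (l 16650576) (l 16636024)) (l 142906446556561535)) (a (c (b (l 16658048) (l 16663096)) (l 16651896)) (c (l 16661392) (l 16642552)))) (b (c (l 143074190801469567) (l 142915448782258303)) (c (l 142955581005758591) (l 142803436057624703))))) (a (b (c (a (c (l 601022880267978102332991) (l 600427684541224791334463)) (a (c (l 16693136) (l 16680464)) (c (l 16690736) (l 16678232)))) (a (c (l 1047529510417656509689355839) (l 1018514626375888379773836863))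 (c (a (l 16667608) (l 16665552)) (a (l 16654568) (l 16652696))))) (a (l 3) (c (c (a (l 601285601592628729278079) (l 600853256045649745735295)) (a (l 600722975759017464606335) (l 600270454087425848438399))) (c (a (l 600149973629665714728575) (l 6610033063)) (a (l 16665880) (l 16669280)))))) (c (a (b (c (l 143451323386642559) (l 143312097701740671)) (c (l 143505817950879871) (l 143372433422860415))) (b (l 143257946758152319) (c (l 143378893068533887) (l 143432013201227903)))) (a (b (l 142915517574037631) (b (l 142968019260440703) (l 143003890838700159))) (b (l 142982175448973439) (l 143053093982421119)))))) (a (b (a (l 3) (a (l 3) (b (c (c (l 601358235727477165583999) (l 600836538616281697234559)) (c (l 600305329900542918291071) (l 599764609580329548246655))) (l 3)))) (l 3)) (a (a (b (c (b (c (l 600934537092538647817855) (l 600204449421103479058047)) (c (l 601437787393964583349887) (l 600958460157271828344447))) (b (b (l 143204757882486911) (a (l 599884513517070391570047) (l 143249700430954623))) (c (l 600470486007439095836287)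 (l 599973576714021514620543)))) (l 3)) (b (c (b (c (l 143575224639570047) (l 143449467975073919)) (c (l 143632811580473471) (l 143513377109295231))) (b (c (l 143320756372783231) (l 16677512)) (b (l 143310792054669439) (l 143168474035208319)))) (l 6))) (b (b (c (c (l 143434762022420607) (l 143493792031506559)) (a (l 143108275746750591) (l 143142910349033599))) (b (c (a (l 143405075214942335) (l 143433387635081343)) (l 143179881451618431)) (l 6))) (l 6))))), by decide +kernel⟩

def k13_pp_012_a : ∃ t, chk3 f_pp_012_a t 127 30 1 = true :=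
  ⟨(b (a (c (b (b (l 143059828455817343) (l 143114941452812415)) (b (a (l 143318969645645951) (l 143384046982709375)) (a (l 143376419148038271) (l 143440671851217023)))) (a (b (l 142773199480799359) (b (l 143055361685733503) (l 143125593013551231))) (b (l 142852501751709823) (l 142988016561389695)))) (b (a (b (l 142857312123535487) (l 143007670316482687)) (a (l 142948502832644223) (c (l 16653184) (l 16626504)))) (a (c (l 143300346662764671) (l 143070823568867455)) (a (l 143158234673938559) (l 6))))) (b (b (a (a (c (c (l 143490837106851967) (l 16692792)) (l 143196511536169087)) (l 6)) (l 6)) (l 6)) (l 6))), by decide +kernel⟩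

def k14_pp_012_a : ∃ t, chk3 f_pp_012_a t 63 31 1 = true :=
  ⟨(b (l 6) (l 6)), by decide +kernel⟩

theorem s15_pp_012_a : ∃ t, chk3 f_pp_012_a t 63 30 1 = true := ex3_a k12_pp_012_a k13_pp_012_a

theorem s16_pp_012_a : ∃ t, chk3 f_pp_012_a t 63 15 1 = true := ex3_b s15_pp_012_a k14_pp_012_a

theorem s17_pp_012_a : ∃ t, chk3 f_pp_012_a t 31 15 1 = true := ex3_a k11_pp_012_a s16_pp_012_a

theorem s18_pp_012_a : ∃ t, chk3 f_pp_012_a t 31 14 1 = true := ex3_a k9_pp_012_a k10_pp_012_a

theorem s19_pp_012_a : ∃ t, chk3 f_pp_012_a t 31 7 1 = true := ex3_b s18_pp_012_a s17_pp_012_a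

theorem s20_pp_012_a : ∃ t, chk3 f_pp_012_a t 15 7 1 = true := ex3_a k8_pp_012_a s19_pp_012_a

theorem s21_pp_012_a : ∃ t, chk3 f_pp_012_a t 15 6 1 = true := ex3_a k6_pp_012_a k7_pp_012_a

theorem s22_pp_012_a : ∃ t, chk3 f_pp_012_a t 15 3 1 = true := ex3_b s21_pp_012_a s20_pp_012_a

theorem s23_pp_012_a : ∃ t, chk3 f_pp_012_a t 7 3 1 = true := ex3_a k5_pp_012_a s22_pp_012_a

theorem s24_pp_012_a : ∃ t, chk3 f_pp_012_a t 7 5 1 = true := ex3_b k3_pp_012_a k4_pp_012_a

theorem s25_pp_012_a : ∃ t, chk3 f_pp_012_a t 7 2 1 = true := ex3_b k2_pp_012_a s24_pp_012_a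

theorem s26_pp_012_a : ∃ t, chk3 f_pp_012_a t 7 1 1 = true := ex3_b s25_pp_012_a s23_pp_012_a

theorem s27_pp_012_a : ∃ t, chk3 f_pp_012_a t 3 1 1 = true := ex3_a k1_pp_012_a s26_pp_012_a

theorem s28_pp_012_a : ∃ t, chk3 f_pp_012_a t 1 1 1 = true := ex3_a k0_pp_012_a s27_pp_012_a

theorem c_pp_012_a : CertB 0 536870912 0 536870912 1020054732 13421774 3 eng mog cd0q0 cd2q2a pd1 false true true .pnp 0 1 2
    ndB0q0 ndB2q2a pcB1 cut_pp_012_a xt_pp_012_a :=
  certB2 (fam := false) (s1 := true) (s2 := true) (a := 0) (b := 1) (c := 2) (cn := .pnp) (n1 := ndB0q0) (n2 := ndB2q2a) (pc := pcB1) (cut := cut_pp_012_a) (xt := xt_pp_012_a) (P1 := 0) (W1 := 536870912) (P2 := 0) (W2 := 536870912) (P3 := 1020054732) (W3 := 13421774) (N0 := 3) (En := eng) (mo := mog) (C1 := cd0q0) (C2 := cd2q2a) (C3 := pd1)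
    rfl (fun _ => rfl) s28_pp_012_a

noncomputable def cut_pp_012_b : Cut := Cut.of [[⟨0, 0, 0, 38347922⟩, ⟨1, 1, 0, 38347922⟩, ⟨2, 1, 0, 38347922⟩]]

noncomputable def f_pp_012_b : ℕ → ℕ → ℕ → ℕ → Bool := onCell 536870912 536870912 1239849684 370763052 1020054732 13421774
    (rowB 3 eng mog cd0q0 cd2q2b pd1 2 false true true .pnp 0 1 2 (qsf 0 536870912 1239849684 370763052 1) ndB0q0 ndB2q2b pcB1 cut_pp_012_b Ext.none)

def k0_pp_012_b : ∃ t, chk3 f_pp_012_b t 2 1 1 = true :=
  ⟨(l 3), by decide +kernel⟩

def k1_pp_012_b : ∃ t, chk3 f_pp_012_b t 6 1 1 = true :=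
  ⟨(a (l 3) (a (b (l 3) (l 3)) (b (a (a (l 3) (b (b (a (l 3) (b (b (l 16508952) (l 16510256)) (l 94119493431))) (l 3)) (l 3))) (b (b (c (b (a (l 16527520) (l 16527112)) (a (l 16533360) (l 16511200))) (b (a (b (l 16532120) (l 16512040)) (l 16433952)) (a (l 16420504) (l 16457184)))) (b (a (c (l 16499528) (l 16447328)) (c (l 16477456) (l 16421216))) (a (l 86066225335) (l 16334120)))) (b (a (l 3) (b (l 16346648) (l 16360864))) (b (l 83381623367) (l 3))))) (l 3)))), by decide +kernel⟩

def k2_pp_012_b : ∃ t, chk3 f_pp_012_b t 14 1 1 = true :=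
  ⟨(b (b (a (b (a (b (a (b (l 16445880) (l 16425200)) (c (l 16501104) (l 16444704))) (a (c (l 16487288) (l 16429920)) (c (l 16461992) (l 16402112)))) (b (a (c (l 16475776) (l 16417992)) (l 16357576)) (a (l 16321096) (l 16334968)))) (a (b (a (l 16318056) (l 16332240)) (a (l 16348272) (l 16340352))) (b (a (l 16324560) (l 16337112)) (a (l 16331496) (l 16300864))))) (b (a (b (a (l 16372360) (l 16365832)) (a (l 16348296) (l 16319296))) (b (c (l 16351368) (l 16296840)) (l 16254512))) (a (b (a (l 16307128) (l 16276704)) (l 16127960)) (b (l 16230680) (l 16189712))))) (a (b (a (b (a (l 16360584) (l 16330656)) (a (l 16333792) (l 16302904))) (b (a (l 16299728) (l 16267944)) (a (l 16270968) (l 16238120)))) (a (b (a (l 16309272) (l 16277856)) (a (l 16286024) (l 16255272))) (b (l 16123344) (l 16141424)))) (b (a (b (l 16156128) (l 16145568)) (b (l 16152352) (l 16118376))) (a (b (l 16158976) (l 16133192)) (b (l 16087544) (l 16059640)))))) (b (a (b (a (b (l 16144208) (l 16186752)) (b (l 16161864) (l 16163480))) (a (b (l 16209264) (l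 2)) (b (l 16146048) (l 16129920)))) (b (a (b (l 16109952) (l 16089016)) (l 15876304)) (a (b (l 16070176) (l 16053200)) (l 15898136)))) (a (l 2) (b (a (l 189077333527) (l 15927656)) (l 2))))), by decide +kernel⟩

def k3_pp_012_b : ∃ t, chk3 f_pp_012_b t 15 1 1 = true :=
  ⟨(b (a (b (b (a (b (c (l 16293448) (l 16245040)) (l 16217336)) (b (c (b (l 16249680) (l 16222240)) (l 16133408)) (c (l 16183264) (l 16137872)))) (a (b (l 16169432) (l 16125520)) (b (l 16109608) (l 16062584)))) (b (a (l 15888760) (l 15999680)) (a (l 16000328) (l 15927648)))) (b (b (a (b (b (a (l 16193976) (b (l 16178904) (l 16163016))) (a (l 16163728) (l 16139776))) (a (l 16120608) (l 16095304))) (b (b (a (c (l 16147832) (l 16120856)) (c (b (a (l 16149392) (b (l 16142864) (l 16134728))) (l 16128040)) (a (l 16109696) (b (b (l 16137384) (l 16128416)) (l 16115128))))) (a (l 16118048) (a (l 16082336) (l 16073168)))) (a (b (l 16087144) (l 16057408)) (c (l 16059704) (l 16043112))))) (a (b (a (l 16066904) (l 16039848)) (l 16002776)) (b (a (l 16015008) (l 15992544))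 (l 15949920)))) (b (a (b (l 15956528) (l 15914088)) (b (l 15900448) (l 15854928))) (a (l 15857472) (l 15793936))))) (b (a (b (a (l 15945472) (l 15868040)) (a (l 15900648) (l 15819048))) (a (b (l 15792704) (l 15739104)) (b (l 15723832) (l 15665432)))) (a (b (a (l 15864104) (l 15778904)) (a (l 2) (l 15745928))) (a (b (l 15694896) (l 15658368)) (b (l 15616952) (l 15576664)))))), by decide +kernel⟩

theorem s4_pp_012_b : ∃ t, chk3 f_pp_012_b t 7 1 1 = true := ex3_a k2_pp_012_b k3_pp_012_b

theorem s5_pp_012_b : ∃ t, chk3 f_pp_012_b t 3 1 1 = true := ex3_a k1_pp_012_b s4_pp_012_b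

theorem s6_pp_012_b : ∃ t, chk3 f_pp_012_b t 1 1 1 = true := ex3_a k0_pp_012_b s5_pp_012_b

theorem c_pp_012_b : CertB 0 536870912 1239849684 370763052 1020054732 13421774 3 eng mog cd0q0 cd2q2b pd1 false true true .pnp 0 1 2
    ndB0q0 ndB2q2b pcB1 cut_pp_012_b Ext.none :=
  certB2 (fam := false) (s1 := true) (s2 := true) (a := 0) (b := 1) (c := 2) (cn := .pnp) (n1 := ndB0q0) (n2 := ndB2q2b) (pc := pcB1) (cut := cut_pp_012_b) (xt := Ext.none) (P1 := 0) (W1 := 536870912) (P2 := 1239849684) (W2 := 370763052) (P3 := 1020054732) (W3 := 13421774) (N0 := 3) (En := eng) (mo := mog) (C1 := cd0q0) (C2 := cd2q2b) (C3 := pd1)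
    rfl (fun _ => rfl) s6_pp_012_b

noncomputable def cut_pp_022_a : Cut := Cut.of [[⟨0, 0, 0, 38347922⟩, ⟨1, 1, 0, 38347922⟩, ⟨2, 1, 0, 38347922⟩]]

noncomputable def f_pp_022_a : ℕ → ℕ → ℕ → ℕ → Bool := onCell 1073741824 536870912 0 536870912 1020054732 13421774
    (rowB 3 eng mog cd0q0 cd2q2a pd2 2 false true true .pp 0 2 2 (qsf 0 536870912 0 536870912 2) ndB0q0 ndB2q2a pcB2 cut_pp_022_a Ext.none)

def k0_pp_022_a : ∃ t, chk3 f_pp_022_a t 8 2 1 = true :=
  ⟨(a (b (b (a (l 16324344) (l 16333896)) (a (l 16274648) (l 16351240))) (b (a (c (l 16397888) (l 16331584)) (l 16299232)) (a (b (l 16352472) (l 16335544)) (b (l 16416024) (l 16422712))))) (b (b (l 16305392) (a (l 16364208) (l 16377048))) (b (a (l 16379608) (l 16417960)) (a (b (l 16437488) (l 16467864)) (b (l 16458664) (a (l 16485872) (l 16497200))))))), by decide +kernel⟩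

def k1_pp_022_a : ∃ t, chk3 f_pp_022_a t 8 6 1 = true :=
  ⟨(a (b (a (b (c (l 16480848) (l 16415872)) (c (l 16513672) (l 16451344))) (b (l 16413176) (l 16429360))) (b (a (b (l 16427632) (a (l 16482080) (l 16520536))) (b (l 16502656) (a (l 16537872) (l 16533824)))) (a (b (c (l 16540720) (l 16486328)) (a (b (l 16522312) (l 16492080)) (b (l 16541200) (l 16532520)))) (b (a (l 16519672) (l 16538304)) (a (b (l 16559936) (l 16552624)) (l 16545040)))))) (b (b (a (l 16461184) (l 16466688)) (a (a (l 16471808) (l 16508640)) (b (l 16541552) (l 16544856)))) (b (a (a (l 16497304) (l 16516200)) (b (l 16549696) (l 16542680))) (a (a (b (l 16558112) (l 16587184)) (a (l 16566624) (l 16562968))) (b (l 16527104) (a (l 16571056) (l 16559216))))))), by decide +kernel⟩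

def k2_pp_022_a : ∃ t, chk3 f_pp_022_a t 8 7 1 = true :=
  ⟨(a (b (b (b (a (a (a (l 16523048) (l 16512744)) (c (l 16593664) (l 16548232))) (a (c (l 16613360) (l 16573112)) (l 16574352))) (a (a (c (a (l 16609648) (l 16621312)) (a (l 16563016) (l 16576424))) (b (l 16568872) (l 16561640))) (a (b (l 16593608) (l 16608224)) (b (l 16616856) (l 16625848))))) (a (a (a (c (b (l 16631704) (b (l 16650536) (l 16663632))) (b (l 16569448) (b (l 16634784) (l 16630160)))) (b (c (l 16624384) (l 16605320)) (b (l 16605488) (l 16620528)))) (b (c (l 16623360) (b (l 16619536) (l 16614504))) (b (a (l 16619936) (l 16633632)) (a (l 16634904) (l 16648272))))) (b (a (b (l 16601904) (l 16637752)) (a (l 16625472) (l 16606688))) (a (c (b (l 16650584) (l 16645704)) (a (l 16658808) (l 16668552))) (c (b (l 16634760) (l 16629952)) (b (l 16642344) (l 16636048))))))) (b (b (b (a (a (a (a (l 16637056) (l 16644976)) (l 16645848)) (a (l 16649536) (l 16662672))) (a (a (l 16643840) (l 16645312)) (c (l 16604632) (l 16630168)))) (l 6)) (l 6)) (l 6))) (b (b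 (a (b (a (c (l 16612072) (l 16622760)) (l 16559424)) (a (b (l 16595448) (l 16588880)) (b (l 16581176) (l 16575000)))) (b (a (b (l 16581304) (l 16574944)) (b (l 16570168) (l 16564232))) (a (b (l 16568928) (l 16563224)) (c (l 16549376) (l 16562864))))) (a (a (b (c (l 16608256) (l 16613944)) (c (b (l 16621536) (l 16595944)) (b (l 16625728) (l 16620056)))) (b (b (l 16569144) (l 16563656)) (c (a (l 16595256) (l 16580112)) (a (l 16617304) (l 16600352))))) (b (a (b (l 16536896) (l 16531920)) (c (l 16539760) (l 16553304))) (a (b (l 16527376) (l 1)) (l 1))))) (b (b (a (a (b (a (l 16590792) (l 16573912)) (a (l 6) (l 1))) (l 1)) (l 1)) (l 1)) (l 1)))), by decide +kernel⟩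

def k3_pp_022_a : ∃ t, chk3 f_pp_022_a t 9 1 1 = true :=
  ⟨(b (b (a (a (l 16271368) (b (l 16369240) (l 16401840))) (a (b (l 16378328) (l 16395824)) (l 16285224))) (a (b (a (l 16328584) (l 16431424)) (a (b (l 16479152) (l 16515952)) (l 16396536))) (b (a (l 16471632) (l 16487064)) (a (l 16415776) (l 16469008))))) (b (b (a (a (b (l 16516728) (l 16491576)) (b (l 16519696) (l 16492416))) (a (b (l 16504680) (l 16459744)) (l 98280087047))) (a (a (b (l 16483568) (b (l 16505296) (a (l 16549280) (l 16520320)))) (b (a (l 16501840) (l 16495504)) (a (l 16477760) (l 1)))) (b (a (l 16458320) (l 1)) (l 1)))) (b (a (b (a (b (a (b (l 16540000) (l 16534544)) (l 16509288)) (a (l 16506264) (l 1))) (l 1)) (l 1)) (l 1)) (l 1)))), by decide +kernel⟩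

def k4_pp_022_a : ∃ t, chk3 f_pp_022_a t 5 1 1 = true :=
  ⟨(b (a (b (a (b (l 16396800) (l 16439176)) (b (l 1) (l 1))) (a (b (l 16470512) (b (l 16440536) (l 16399304))) (l 1))) (l 1)) (b (l 1) (l 1))), by decide +kernel⟩

def k5_pp_022_a : ∃ t, chk3 f_pp_022_a t 3 1 1 = true :=
  ⟨(l 1), by decide +kernel⟩

theorem s6_pp_022_a : ∃ t, chk3 f_pp_022_a t 8 3 1 = true := ex3_b k1_pp_022_a k2_pp_022_a

theorem s7_pp_022_a : ∃ t, chk3 f_pp_022_a t 8 1 1 = true := ex3_b k0_pp_022_a s6_pp_022_a

theorem s8_pp_022_a : ∃ t, chk3 f_pp_022_a t 4 1 1 = true := ex3_a s7_pp_022_a k3_pp_022_a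

theorem s9_pp_022_a : ∃ t, chk3 f_pp_022_a t 2 1 1 = true := ex3_a s8_pp_022_a k4_pp_022_a

theorem s10_pp_022_a : ∃ t, chk3 f_pp_022_a t 1 1 1 = true := ex3_a s9_pp_022_a k5_pp_022_a

theorem c_pp_022_a : CertB 0 536870912 0 536870912 1020054732 13421774 3 eng mog cd0q0 cd2q2a pd2 false true true .pp 0 2 2
    ndB0q0 ndB2q2a pcB2 cut_pp_022_a Ext.none :=
  certB2 (fam := false) (s1 := true) (s2 := true) (a := 0) (b := 2) (c := 2) (cn := .pp) (n1 := ndB0q0) (n2 := ndB2q2a) (pc := pcB2) (cut := cut_pp_022_a) (xt := Ext.none) (P1 := 0) (W1 := 536870912) (P2 := 0) (W2 := 536870912) (P3 := 1020054732) (W3 := 13421774) (N0 := 3) (En := eng) (mo := mog) (C1 := cd0q0) (C2 := cd2q2a) (C3 := pd2)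
    rfl (fun _ => rfl) s10_pp_022_a

noncomputable def cut_pp_022_b : Cut := Cut.of [[⟨0, 0, 0, 38347922⟩, ⟨1, 1, 0, 38347922⟩, ⟨2, 1, 0, 38347922⟩]]

noncomputable def f_pp_022_b : ℕ → ℕ → ℕ → ℕ → Bool := onCell 0 536870912 1239849684 370763052 1020054732 13421774
    (rowB 3 eng mog cd0q0 cd2q2b pd2 0 false true true .pp 0 2 2 (qsf 0 536870912 1239849684 370763052 2) ndB0q0 ndB2q2b pcB2 cut_pp_022_b Ext.none)

def k0_pp_022_b : ∃ t, chk3 f_pp_022_b t 2 1 1 = true :=
  ⟨(a (b (a (b (a (b (b (l 16319288) (l 16259544)) (l 16052920)) (b (a (l 16150304) (b (l 16327280) (l 16253296))) (b (l 16180968) (l 16103968)))) (a (b (l 15970272) (l 15799960)) (b (l 15881560) (l 15826320)))) (b (b (a (b (l 16255776) (l 16248536)) (b (c (l 16326368) (l 16287448)) (l 16241720))) (a (b (l 16177776) (l 16106248)) (b (l 16175912) (l 16109424)))) (b (a (l 15996960) (l 16007856)) (a (l 15847648) (l 15868768))))) (a (b (a (b (l 15626184) (l 15449848)) (b (l 15662064) (l 15494224))) (a (b (l 15272512) (l 15096344)) (b (l 15323976) (l 15153136))))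 (b (b (a (l 15693672) (l 15724696)) (a (l 15535256) (l 15575520))) (b (a (l 15373224) (l 15421704)) (l 15026992))))) (b (b (a (c (b (a (b (l 16320264) (l 16258144)) (b (l 404833117719) (l 16254424))) (a (l 16164480) (l 16166712))) (b (a (b (l 16269296) (l 16209648)) (b (l 427381558135) (l 16193552))) (a (l 16119352) (l 16110840)))) (b (a (b (l 1) (b (l 1) (l 462814888311))) (l 1)) (a (b (c (l 335039687655) (l 369399271815)) (l 16065056)) (b (a (l 489658276839) (l 1)) (a (l 16060512) (l 468183333607)))))) (a (b (a (l 16017128) (l 15918704)) (a (l 15888040) (l 15904376))) (b (a (b (l 16053936) (l 16000192)) (b (l 236255038071) (l 16002936))) (a (l 15917656) (l 15927648))))) (b (a (b (a (l 15753824) (l 15780104)) (a (l 15614024) (l 15649960))) (b (a (l 15803352) (l 15823264)) (l 15593856))) (a (b (a (l 15468768) (l 15513720)) (l 15240608)) (b (l 15576632) (l 15447664)))))), by decide +kernel⟩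

def k1_pp_022_b : ∃ t, chk3 f_pp_022_b t 3 1 1 = true :=
  ⟨(b (a (b (l 1) (a (b (a (b (l 458519506791) (l 350071514071)) (b (l 1) (l 469793686967))) (a (b (l 15956968) (l 15910848)) (b (l 365103793239) (l 15915488)))) (b (l 1) (a (b (l 1) (l 438118138663)) (l 1))))) (l 1)) (a (b (a (b (c (l 15859472) (l 15685976)) (a (l 15739296) (l 15761488))) (b (a (b (l 15815000) (l 15839336)) (b (l 446707975815) (l 360808594023))) (a (l 15778952) (l 331280578119)))) (a (b (l 15649304) (l 15539552)) (b (a (l 15692696) (l 15715408)) (l 15616392)))) (b (a (b (l 1) (a (b (l 418253697095) (l 15781008)) (l 431138470487))) (l 1)) (a (b (a (l 15731928) (l 340407284007)) (a (l 15659960) (l 15680816))) (b (a (l 408052915127) (l 1)) (a (l 328596059895) (l 386577987367))))))), by decide +kernel⟩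

theorem s2_pp_022_b : ∃ t, chk3 f_pp_022_b t 1 1 1 = true := ex3_a k0_pp_022_b k1_pp_022_b

theorem c_pp_022_b : CertB 0 536870912 1239849684 370763052 1020054732 13421774 3 eng mog cd0q0 cd2q2b pd2 false true true .pp 0 2 2
    ndB0q0 ndB2q2b pcB2 cut_pp_022_b Ext.none :=
  certB0 (fam := false) (s1 := true) (s2 := true) (a := 0) (b := 2) (c := 2) (cn := .pp) (n1 := ndB0q0) (n2 := ndB2q2b) (pc := pcB2) (cut := cut_pp_022_b) (xt := Ext.none) (P1 := 0) (W1 := 536870912) (P2 := 1239849684) (W2 := 370763052) (P3 := 1020054732) (W3 := 13421774) (N0 := 3) (En := eng) (mo := mog) (C1 := cd0q0) (C2 := cd2q2b) (C3 := pd2)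
    rfl s2_pp_022_b

noncomputable def f_pp_023 : ℕ → ℕ → ℕ → ℕ → Bool := onCell 1073741824 536870912 1610612736 536870912 1020054732 13421774
    (rowB 3 eng mog cd0q0 cd2q3 pd2 2 false true true .up 0 2 3 (qsf 0 536870912 1610612736 536870912 2) ndB0q0 ndB2q3 pcB2 Cut.none Ext.none)

def k0_pp_023 : ∃ t, chk3 f_pp_023 t 1 1 1 = true :=
  ⟨(a (b (a (b (b (a (b (a (c (l 15202712) (l 15430800)) (l 15280808)) (a (l 316851042903) (l 15287640))) (b (c (l 15132016) (l 15402696)) (a (l 15265080) (l 15233688)))) (a (b (a (l 2) (l 15283040)) (l 2)) (b (a (l 15260992) (l 15228864)) (l 269606307623)))) (b (a (l 2) (b (l 305039816327) (l 2))) (l 2))) (b (b (a (b (a (l 15212464) (l 15170304)) (l 15048168)) (b (l 15078568) (l 15074496))) (a (b (l 15166352) (l 15169104)) (b (l 15061056) (l 15058408)))) (a (b (b (l 15181504) (l 15202888)) (a (l 2) (l 15221568))) (b (a (l 15104704) (l 15039848)) (l 14914016))))) (a (l 2) (b (a (l 2) (b (l 15099080) (l 2))) (l 2)))) (b (a (b (b (a (b (l 14782904) (l 14960320)) (b (c (l 14730144) (l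 15026216)) (c (l 14699800) (l 14977080)))) (a (b (l 14939912) (l 14930520)) (b (l 14809744) (l 14793320)))) (b (a (l 14915256) (l 14683688)) (a (l 14972592) (l 14810800)))) (b (b (a (b (c (l 14615320) (l 14900680)) (a (l 14741712) (l 14677992))) (b (a (b (l 14680072) (l 14651344)) (b (l 14620064) (l 14589808))) (a (l 14614496) (b (l 14563120) (l 14540224))))) (b (a (l 14424408) (a (l 14575936) (l 14510624))) (a (l 14653080) (a (l 14548656) (l 14481208))))) (b (a (c (l 14548704) (l 14730032)) (b (l 14497088) (l 14488424))) (a (l 14647768) (l 14365256))))) (b (a (a (b (l 15037336) (l 15125208)) (b (l 14859736) (l 14927176))) (b (a (l 14682552) (l 14514712)) (a (l 14732704) (l 14551808)))) (a (b (a (l 2) (l 15005864)) (l 2)) (b (a (l 14787112) (l 14588784)) (a (l 14833136) (l 14607872))))))), by decide +kernel⟩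

theorem c_pp_023 : CertB 0 536870912 1610612736 536870912 1020054732 13421774 3 eng mog cd0q0 cd2q3 pd2 false true true .up 0 2 3
    ndB0q0 ndB2q3 pcB2 Cut.none Ext.none :=
  certB2 (fam := false) (s1 := true) (s2 := true) (a := 0) (b := 2) (c := 3) (cn := .up) (n1 := ndB0q0) (n2 := ndB2q3) (pc := pcB2) (cut := Cut.none) (xt := Ext.none) (P1 := 0) (W1 := 536870912) (P2 := 1610612736) (W2 := 536870912) (P3 := 1020054732) (W3 := 13421774) (N0 := 3) (En := eng) (mo := mog) (C1 := cd0q0) (C2 := cd2q3) (C3 := pd2)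
    rfl (fun _ => rfl) k0_pp_023

noncomputable def f_pp_033 : ℕ → ℕ → ℕ → ℕ → Bool := onCell 0 536870912 1610612736 536870912 1020054732 13421774
    (rowB 3 eng mog cd0q0 cd2q3 pd3 1 false true true .pnn 0 3 3 (qsf 0 536870912 1610612736 536870912 3) ndB0q0 ndB2q3 pcB3 Cut.none Ext.none)

def k0_pp_033 : ∃ t, chk3 f_pp_033 t 1 1 1 = true :=
  ⟨(a (b (a (b (a (b (a (c (l 15532360) (l 15245024)) (c (l 15670248) (l 15375280))) (a (c (l 15430304) (l 15206600)) (c (l 15560552) (l 15372304)))) (b (c (l 15846888) (l 15646632)) (b (l 15644712) (l 15493608)))) (a (b (a (b (l 15166848) (l 15207768)) (b (l 15398928) (l 15354808))) (a (b (l 15161112) (l 15113672)) (b (l 15308616) (l 15262384)))) (b (b (l 15594904) (l 15549504)) (b (l 15505544) (l 15465360))))) (b (b (a (c (l 15949856) (l 15886104)) (l 16104184)) (a (b (l 15885792) (l 15839464)) (l 15928104))) (b (a (l 15603880) (l 15927680)) (a (b (l 15714864) (l 15696240)) (b (l 15895328) (l 4)))))) (a (b (a (b (l 4) (l 4)) (l 4)) (l 4)) (b (l 4) (a (b (l 4) (l 2)) (l 2)))))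 (b (a (b (b (a (l 16194152) (l 16280864)) (a (l 16127352) (b (l 16233032) (l 16197136)))) (b (a (b (l 16069800) (l 16050200)) (b (l 16195312) (l 16222480))) (a (b (l 16080976) (l 4)) (l 4)))) (b (b (a (b (l 16384248) (l 16349960)) (b (l 16469952) (l 16454120))) (a (b (l 16328544) (l 16324832)) (l 16579200))) (a (b (l 16427912) (l 2)) (l 2)))) (a (b (a (b (l 4) (l 2)) (l 2)) (l 2)) (l 2)))), by decide +kernel⟩

theorem c_pp_033 : CertB 0 536870912 1610612736 536870912 1020054732 13421774 3 eng mog cd0q0 cd2q3 pd3 false true true .pnn 0 3 3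
    ndB0q0 ndB2q3 pcB3 Cut.none Ext.none :=
  certB1 (fam := false) (s1 := true) (s2 := true) (a := 0) (b := 3) (c := 3) (cn := .pnn) (n1 := ndB0q0) (n2 := ndB2q3) (pc := pcB3) (cut := Cut.none) (xt := Ext.none) (P1 := 0) (W1 := 536870912) (P2 := 1610612736) (W2 := 536870912) (P3 := 1020054732) (W3 := 13421774) (N0 := 3) (En := eng) (mo := mog) (C1 := cd0q0) (C2 := cd2q3) (C3 := pd3)
    rfl (fun _ => rfl) k0_pp_033

noncomputable def f_pp_101 : ℕ → ℕ → ℕ → ℕ → Bool := onCell 536870912 536870912 536870912 536870912 1020054732 13421774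
    (rowB 3 eng mog cd0q1 cd2q1 pd0 0 false true true .npn 1 0 1 (qsf 536870912 536870912 536870912 536870912 0) ndB0q1 ndB2q1 pcB0 Cut.none Ext.none)

def k0_pp_101 : ∃ t, chk3 f_pp_101 t 1 1 1 = true :=
  ⟨(l 3), by decide +kernel⟩

theorem c_pp_101 : CertB 536870912 536870912 536870912 536870912 1020054732 13421774 3 eng mog cd0q1 cd2q1 pd0 false true true .npn 1 0 1
    ndB0q1 ndB2q1 pcB0 Cut.none Ext.none :=
  certB0 (fam := false) (s1 := true) (s2 := true) (a := 1) (b := 0) (c := 1) (cn := .npn) (n1 := ndB0q1) (n2 := ndB2q1) (pc := pcB0) (cut := Cut.none) (xt := Ext.none) (P1 := 536870912) (W1 := 536870912) (P2 := 536870912) (W2 := 536870912) (P3 := 1020054732) (W3 := 13421774) (N0 := 3) (En := eng) (mo := mog) (C1 := cd0q1) (C2 := cd2q1) (C3 := pd0)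
    rfl k0_pp_101

noncomputable def f_pp_102_a : ℕ → ℕ → ℕ → ℕ → Bool := onCell 536870912 536870912 0 536870912 1020054732 13421774
    (rowB 3 eng mog cd0q1 cd2q2a pd0 0 false true true .npp 1 0 2 (qsf 536870912 536870912 0 536870912 0) ndB0q1 ndB2q2a pcB0 Cut.none Ext.none)

def k0_pp_102_a : ∃ t, chk3 f_pp_102_a t 1 1 1 = true :=
  ⟨(l 3), by decide +kernel⟩

theorem c_pp_102_a : CertB 536870912 536870912 0 536870912 1020054732 13421774 3 eng mog cd0q1 cd2q2a pd0 false true true .npp 1 0 2
    ndB0q1 ndB2q2a pcB0 Cut.none Ext.none :=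
  certB0 (fam := false) (s1 := true) (s2 := true) (a := 1) (b := 0) (c := 2) (cn := .npp) (n1 := ndB0q1) (n2 := ndB2q2a) (pc := pcB0) (cut := Cut.none) (xt := Ext.none) (P1 := 536870912) (W1 := 536870912) (P2 := 0) (W2 := 536870912) (P3 := 1020054732) (W3 := 13421774) (N0 := 3) (En := eng) (mo := mog) (C1 := cd0q1) (C2 := cd2q2a) (C3 := pd0)
    rfl k0_pp_102_a

noncomputable def f_pp_102_b : ℕ → ℕ → ℕ → ℕ → Bool := onCell 536870912 536870912 0 536870912 1020054732 13421774
    (rowB 3 eng mog cd0q1 cd2q2b pd0 1 false true true .npp 1 0 2 (qsf 536870912 536870912 1239849684 370763052 0) ndB0q1 ndB2q2b pcB0 Cut.none Ext.none)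

def k0_pp_102_b : ∃ t, chk3 f_pp_102_b t 1 1 1 = true :=
  ⟨(l 3), by decide +kernel⟩

theorem c_pp_102_b : CertB 536870912 536870912 1239849684 370763052 1020054732 13421774 3 eng mog cd0q1 cd2q2b pd0 false true true .npp 1 0 2
    ndB0q1 ndB2q2b pcB0 Cut.none Ext.none :=
  certB1 (fam := false) (s1 := true) (s2 := true) (a := 1) (b := 0) (c := 2) (cn := .npp) (n1 := ndB0q1) (n2 := ndB2q2b) (pc := pcB0) (cut := Cut.none) (xt := Ext.none) (P1 := 536870912) (W1 := 536870912) (P2 := 1239849684) (W2 := 370763052) (P3 := 1020054732) (W3 := 13421774) (N0 := 3) (En := eng) (mo := mog) (C1 := cd0q1) (C2 := cd2q2b) (C3 := pd0)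
    rfl (fun _ => rfl) k0_pp_102_b

noncomputable def f_pp_112_a : ℕ → ℕ → ℕ → ℕ → Bool := onCell 536870912 536870912 0 536870912 1020054732 13421774
    (rowB 3 eng mog cd0q1 cd2q2a pd1 0 false true true .dn 1 1 2 (qsf 536870912 536870912 0 536870912 1) ndB0q1 ndB2q2a pcB1 Cut.none Ext.none)

def k0_pp_112_a : ∃ t, chk3 f_pp_112_a t 1 1 1 = true :=
  ⟨(l 3), by decide +kernel⟩

theorem c_pp_112_a : CertB 536870912 536870912 0 536870912 1020054732 13421774 3 eng mog cd0q1 cd2q2a pd1 false true true .dn 1 1 2
    ndB0q1 ndB2q2a pcB1 Cut.none Ext.none :=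
  certB0 (fam := false) (s1 := true) (s2 := true) (a := 1) (b := 1) (c := 2) (cn := .dn) (n1 := ndB0q1) (n2 := ndB2q2a) (pc := pcB1) (cut := Cut.none) (xt := Ext.none) (P1 := 536870912) (W1 := 536870912) (P2 := 0) (W2 := 536870912) (P3 := 1020054732) (W3 := 13421774) (N0 := 3) (En := eng) (mo := mog) (C1 := cd0q1) (C2 := cd2q2a) (C3 := pd1)
    rfl k0_pp_112_a

noncomputable def f_pp_112_b : ℕ → ℕ → ℕ → ℕ → Bool := onCell 536870912 536870912 536870912 536870912 1020054732 13421774
    (rowB 3 eng mog cd0q1 cd2q2b pd1 1 false true true .dn 1 1 2 (qsf 536870912 536870912 1239849684 370763052 1) ndB0q1 ndB2q2b pcB1 Cut.none Ext.none)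

def k0_pp_112_b : ∃ t, chk3 f_pp_112_b t 1 1 1 = true :=
  ⟨(b (l 3) (a (b (a (l 3) (l 3)) (b (b (a (a (b (a (l 16173320) (l 3)) (a (l 16079896) (l 16100040))) (a (b (l 3) (l 16078616)) (l 3))) (l 3)) (a (a (b (a (l 16034272) (l 16015080)) (a (l 15941360) (l 15921984))) (b (a (l 15998184) (l 15981656)) (a (l 15905056) (l 2)))) (l 2))) (a (b (b (a (a (l 15845208) (l 15825424)) (a (l 15808144) (l 2))) (a (l 15715512) (l 2))) (a (b (l 15636888) (l 15541448)) (l 2))) (l 2)))) (b (l 3) (l 2)))), by decide +kernel⟩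

theorem c_pp_112_b : CertB 536870912 536870912 1239849684 370763052 1020054732 13421774 3 eng mog cd0q1 cd2q2b pd1 false true true .dn 1 1 2
    ndB0q1 ndB2q2b pcB1 Cut.none Ext.none :=
  certB1 (fam := false) (s1 := true) (s2 := true) (a := 1) (b := 1) (c := 2) (cn := .dn) (n1 := ndB0q1) (n2 := ndB2q2b) (pc := pcB1) (cut := Cut.none) (xt := Ext.none) (P1 := 536870912) (W1 := 536870912) (P2 := 1239849684) (W2 := 370763052) (P3 := 1020054732) (W3 := 13421774) (N0 := 3) (En := eng) (mo := mog) (C1 := cd0q1) (C2 := cd2q2b) (C3 := pd1)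
    rfl (fun _ => rfl) k0_pp_112_b

noncomputable def cut_pp_113 : Cut := Cut.of [[⟨0, 1, 0, 26738688⟩, ⟨1, 1, 0, 26738688⟩, ⟨2, 2, 0, 2621440⟩]]

noncomputable def xt_pp_113 : Ext := extD3 3 ⟨4, 1, 1, 5, 99, 20, 33, 40, 51, 125, 1, 32⟩ eng cd0q1 cd2q3 pd1 false true true .nn 1 1 3 rfl ndB0q1 ndB2q3 pcB1

noncomputable def f_pp_113 : ℕ → ℕ → ℕ → ℕ → Bool := onCell 536870912 536870912 536870912 536870912 1020054732 13421774
    (rowB 3 eng mog cd0q1 cd2q3 pd1 1 false true true .nn 1 1 3 (qsf 536870912 536870912 1610612736 536870912 1) ndB0q1 ndB2q3 pcB1 cut_pp_113 xt_pp_113)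

def k0_pp_113 : ∃ t, chk3 f_pp_113 t 1 2 1 = true :=
  ⟨(l 3), by decide +kernel⟩

def k1_pp_113 : ∃ t, chk3 f_pp_113 t 2 3 1 = true :=
  ⟨(a (b (l 3) (b (a (a (l 1) (a (l 1) (b (l 1) (b (l 1) (l 281351189783))))) (a (b (a (l 1) (a (l 1) (l 3))) (b (c (l 25800796791) (l 15844984)) (c (l 15584552) (l 15738864)))) (b (l 3) (b (c (l 15697824) (l 15830808)) (c (l 15590984) (l 15727136)))))) (b (a (c (a (l 340406480311) (b (l 15466816) (l 15342904))) (a (l 346849338535) (b (l 15647608) (l 15537096)))) (c (a (b (l 15467392) (l 15345640)) (b (l 15476352) (l 15356824))) (a (b (l 15630128) (l 15519912)) (b (l 15618952) (l 15509088))))) (a (b (c (a (l 15221328) (l 15216312)) (a (l 15451008) (l 15426744))) (a (l 14988136) (l 15058368))) (a (b (c (l 15220936) (l 15409632)) (l 15095080)) (b (c (l 15234048) (l 15398912)) (l 15139248))))))) (b (l 3) (b (b (l 3) (b (a (a (c (l 15704880) (l 15819768)) (c (l 15715480) (l 15810848))) (l 3)) (a (a (c (l 15583488) (l 15720824)) (c (l 15643968) (l 15718384))) (a (c (l 15644168) (l 15717800))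 (c (l 15666696) (l 15718304)))))) (b (a (c (a (b (l 15492504) (l 15375312)) (b (l 15514696) (l 15400024))) (a (b (l 15613320) (l 15503888)) (b (l 15612512) (l 15503664)))) (c (a (b (l 15541856) (l 15429992)) (b (l 15572792) (l 15464512))) (a (b (l 15615928) (l 15507928)) (b (l 15622928) (l 15516472))))) (a (b (a (c (l 15254528) (l 15393856)) (c (l 15281344) (l 15393888))) (a (l 15190000) (l 15204640))) (b (a (c (l 15313648) (l 15398624)) (c (l 15350928) (l 15408040))) (a (l 15161680) (c (l 15239304) (l 15305096))))))))), by decide +kernel⟩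

def k2_pp_113 : ∃ t, chk3 f_pp_113 t 3 6 1 = true :=
  ⟨(l 3), by decide +kernel⟩

def k3_pp_113 : ∃ t, chk3 f_pp_113 t 6 7 1 = true :=
  ⟨(b (a (l 3) (l 3)) (b (b (a (a (c (l 15605328) (l 15631952)) (c (l 15639000) (l 15643024))) (l 3)) (a (a (c (l 15503320) (l 15529528)) (c (l 15546880) (l 15548008))) (a (c (a (l 15583280) (l 15609664)) (l 15615024)) (b (l 3) (a (l 15599232) (l 15629248)))))) (a (b (a (c (l 15393296) (l 15422688)) (c (l 15441976) (l 15444176))) (a (c (l 15284952) (l 15321240)) (c (l 15338328) (l 15345552)))) (b (a (c (b (l 15526008) (l 15475944)) (b (l 15501752) (l 15451912))) (b (a (l 15555824) (l 15591592)) (a (l 15509984) (l 15550024)))) (a (c (l 15404200) (l 15382816)) (c (a (l 15467856) (l 15521720)) (l 15443192))))))), by decide +kernel⟩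

def k4_pp_113 : ∃ t, chk3 f_pp_113 t 7 14 1 = true :=
  ⟨(l 3), by decide +kernel⟩

def k5_pp_113 : ∃ t, chk3 f_pp_113 t 14 15 1 = true :=
  ⟨(b (a (l 3) (l 3)) (b (a (b (a (l 15635472) (l 7275315582574230743881662687)) (a (l 15600592) (l 132602577503780959))) (b (l 3) (a (c (l 2826468566394953188845617247) (l 227262322983)) (c (a (l 3261681861456431897923534943) (l 11260514186562587396028062223)) (l 8145742172699276615032258655))))) (a (b (a (l 15567656) (l 15643448)) (a (l 15539448) (l 15625824))) (a (b (l 132902400748290143) (c (l 15804504) (l 15691344))) (a (b (l 133922953918759007) (l 15877544)) (c (l 578699149404650535703055) (b (l 15877136) (l 15915008)))))))), by decide +kernel⟩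

def k6_pp_113 : ∃ t, chk3 f_pp_113 t 15 30 1 = true :=
  ⟨(l 3), by decide +kernel⟩

def k7_pp_113 : ∃ t, chk3 f_pp_113 t 60 31 1 = true :=
  ⟨(a (b (l 3) (b (b (c (l 4770999452716608879098763791) (l 4693619643566095795720706575)) (l 574380881909145671293455)) (l 578414089562636687643151))) (b (l 3) (b (b (a (c (l 5418993082575705139436706319) (l 5322267156326556162165250575)) (c (a (l 5902560352009035463633491983) (l 9906524561110949735553931279)) (l 10863983876385821972747934223))) (c (l 585709200383037086996495) (l 576473434440007228217871))) (l 585880697456847174176783)))), by decide +kernel⟩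

def k8_pp_113 : ∃ t, chk3 f_pp_113 t 61 62 1 = true :=
  ⟨(l 3), by decide +kernel⟩

def k9_pp_113 : ∃ t, chk3 f_pp_113 t 61 126 1 = true :=
  ⟨(b (a (l 3) (l 3)) (a (b (a (c (a (l 5109511210718465235061921807) (b (c (l 8136669549048469248618715151) (l 491403988487)) (l 593668393990090786248719))) (l 5293263641820205713413855247)) (b (l 3) (c (c (a (b (l 7237228807565784290760890383) (l 279877419527)) (b (l 3) (l 6637605330449765247278636047))) (a (l 5486699187684972884381423631) (a (l 6154028426051420923502745615) (l 8107657157334763702707984399)))) (a (l 5486691119252053269446760463) (c (l 8736293007141283466113226767) (l 527374169223)))))) (c (a (l 593618530135016412977167) (c (l 602384480564918819461135) (l 596847286808668090750991))) (c (l 588432112746542474106895) (l 582971011809595588384783)))) (b (l 3) (a (c (c (b (a (b (a (l 5863894485703034787690830863) (l 6734321004056204131721845775)) (l 603887025515797755501583)) (b (l 3) (a (l 5902579637935693346579836175) (l 6753059628511322535452016911)))) (l 5061166795938905555839511759))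 (b (a (b (a (l 5883233124088100673082465295) (l 7150189129720311527493557263)) (l 601599341020281536863247)) (b (l 3) (a (l 5921922785973284425041243343) (b (l 3) (l 6540288684259191575009018063))))) (l 603653414590661699382351))) (c (b (a (b (a (l 5757499005641826680336799759) (l 8088309605425315325562640399)) (l 595649113135005344520207)) (b (l 3) (a (l 5921916896848827395167529039) (b (l 3) (l 7072816284070581315047042127))))) (l 598325186577839352539215)) (b (a (l 5506037535245589232542898191) (b (l 3) (a (l 5757496757733123073061984271) (l 8407463838023563780120045647)))) (l 592079521054524918671375)))) (b (l 3) (b (a (a (c (c (l 5930990071173364594871337231) (l 5969675697401087223018963215)) (c (b (l 6695031189169536111275573455) (l 143819247573270735)) (c (l 5853618818716616485820858447) (l 320142407735)))) (b (l 3) (c (c (l 6617659936714507363775758543) (l 6578974310486890769804542159)) (b (c (l 6801416661296043492150739151) (l 7787900130100139095127933007)) (c (l 6317846333450177940890370255) (l 6327517740005716186705608783))))))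 (l 3)) (a (c (c (l 143960809681322191) (l 144013723668988111)) (c (l 144068905421045967) (l 142616587926061135))) (a (c (c (a (l 5689204907250466453881094351) (l 6134089608868674316870254799)) (b (l 6598317123600742153908764879) (l 144068355701227727))) (b (a (c (l 6105075389198013857693024463) (l 6114746795754005308429058127)) (c (l 6811088067852978530052145359) (l 7304329802255067872481263823))) (c (l 144119139406495951) (l 143450498837594191)))) (b (l 3) (c (a (c (l 6047046949856432148850180303) (l 6085732576084146461940433103)) (c (l 6849773694080570316281561295) (l 6840102287523698019274817743))) (b (c (l 6820759474409907108322427087) (l 6985173385877304673848541391)) (c (l 6230803674437954464597377231) (l 6337189146563920954384236751))))))))))))), by decide +kernel⟩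

def k10_pp_113 : ∃ t, chk3 f_pp_113 t 61 127 1 = true :=
  ⟨(b (a (l 594026517549238520965135) (b (a (l 601352759231789154232335) (b (c (a (l 143902879177572559) (a (l 143974141282435279) (c (l 5215305985961510583066886351) (l 144045609527738575)))) (a (l 143736784188260431) (c (l 144071379341148367) (l 5283005831859935658024304719)))) (l 143533992984936527))) (l 600016234859032590641167))) (a (l 598675098238544457719823) (l 595824500231064559067151))), by decide +kernel⟩

def k11_pp_113 : ∃ t, chk3 f_pp_113 t 31 62 1 = true :=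
  ⟨(l 3), by decide +kernel⟩

def k12_pp_113 : ∃ t, chk3 f_pp_113 t 62 126 1 = true :=
  ⟨(a (a (a (l 3) (l 3)) (l 3)) (l 3)), by decide +kernel⟩

def k13_pp_113 : ∃ t, chk3 f_pp_113 t 248 508 1 = true :=
  ⟨(b (a (b (b (a (c (a (c (l 6056718356413371790956855503) (l 6095403982641082874231406799)) (c (l 6849773694080593406026793167) (l 6840102287523717810485018831))) (c (a (l 6134089608868796362688299215) (l 6830430880966844688844570831)) (c (l 6443574618690187542202040527) (a (l 343228239479) (l 380809210247))))) (l 3)) (a (c (c (l 144065057156595919) (l 144107044768399567)) (c (l 144151575001006287) (l 144198716530950351))) (c (c (c (l 6482260244917727994971291855) (l 6482260244917748198503055567)) (a (l 6114746795754929791570116815) (l 6859445100637546585881592015))) (c (c (l 6462917431803978178277146831) (l 6462917431804000786990776527)) (c (l 6453246025247106912062603471) (a (l 6201789454767284041089433807) (l 381346092279))))))) (c (a (l 144044784910565583) (c (l 5283005831859985823235358927) (l 144097630177575119)))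 (c (l 144125942611165391) (l 5360377084315438363800649935)))) (b (l 3) (b (a (c (a (c (l 6085732576084119936215154895) (l 6124418202311831363086598351)) (b (l 3) (c (l 6753059628511393316513857743) (l 6772402441625271982256799951)))) (c (c (l 6501603058031632774131859663) (l 6501603058031656413637542095)) (c (l 6491931651474763500781961423) (a (l 6211460861324190079371542735) (l 6888459320308390732272795855))))) (l 3)) (a (c (c (l 5331362864644567141938544847) (l 144096324510679247)) (c (l 144142297851986127) (l 144190401497235663))) (a (c (c (b (l 6772402441625219136972374223) (l 144053512279392463)) (l 6143761015425651204951703759)) (c (l 6172775235096450065191993551) (b (l 6724045408840777181403300047) (l 144196448813859023)))) (b (l 3) (c (c (l 6801416661295962265706496207) (l 6820759474409843474070749391)) (c (l 6782073848182224200038858959) (l 6743388221954606575274754255))))))))) (c (a (l 143980944507076815) (a (l 144008157384818895) (b (c (c (l 5302348644973775428533682383) (l 144034614433087695)) (l 5350705677758418319891022031))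 (l 16726176)))) (a (l 144069523936624847) (a (l 144100104067940559) (c (l 5350705677758440310126428367) (l 5389391303986158402788786383)))))), by decide +kernel⟩

def k14_pp_113 : ∃ t, chk3 f_pp_113 t 249 1016 1 = true :=
  ⟨(l 3), by decide +kernel⟩

def k15_pp_113 : ∃ t, chk3 f_pp_113 t 249 2034 1 = true :=
  ⟨(a (b (a (b (a (c (c (a (l 6163103828539429265368760527) (l 7226958549800305413013291215)) (l 6840102287523671149955645647)) (c (l 6801416661296052975435301071) (l 6772402441625353346141257935))) (l 3)) (c (a (c (l 5408734117099889046757392591) (l 144086428932030671)) (c (a (l 6172775235096338877063643343) (l 7246301362914132126825136335)) (l 6859445100637499169438138575))) (c (a (l 144136250563690703) (l 6830430880966799127826661583)) (c (l 6385546179348650294879207631) (l 6366203366234842547649118415))))) (l 3)) (a (c (c (c (l 144009394388795599) (l 144033514925179087)) (l 5399062710543004242799755471)) (c (l 144120719949627599) (l 5466762556441525662467277007))) (a (c (c (a (c (l 5505448182669037527948280015)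 (l 5515119589225979575241375951)) (b (c (l 386714778263) (l 388325396167)) (l 5457091149884461500645703887))) (c (l 6095403982641028448417202383) (l 6085732576084137184829980879))) (c (b (l 6849773694080628452978835663) (l 144126698557931727)) (c (l 6230803674437971713204240591) (l 6250146487551832786759450831)))) (b (l 3) (c (c (c (a (l 5921318664616469208133845199) (l 6917473539978926259433291983)) (l 6414560399019264986895089871)) (a (l 6163103828539459639393730767) (l 7159258703901917584046702799))) (c (l 6869116507194458053008949455) (a (l 6308174926893322067880607951) (l 7236629956357361946980696271)))))))) (l 3)), by decide +kernel⟩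

def k16_pp_113 : ∃ t, chk3 f_pp_113 t 249 2035 1 = true :=
  ⟨(b (a (a (c (l 144019839747997903) (l 144120513803681999)) (c (a (l 144029804055003343) (c (c (l 143997918236967119) (l 144023688043348175)) (l 5437748336770664817252925647))) (c (l 5447419743327630710205939919) (l 5486105369555352513718894799)))) (a (b (a (c (a (c (c (l 5930990071173379300865245391) (l 5930990071173405620430651599)) (l 6172775235096371381392589007)) (c (c (l 6927144946535836420884234447) (l 388862268999)) (l 7188272923572663392840548559))) (c (a (l 6279160707222512693561622735) (l 7294658395698805392204284111)) (c (l 371145554199) (l 6840102287523771824019603663)))) (l 3)) (c (c (c (a (l 143997505920827599) (a (b (l 6666016969499070265674793167) (l 294372981831)) (b (l 3) (l 6675688376055984069257494735)))) (a (l 284172439959) (a (l 5930990071173399573117632719) (l 6907802133422023038658166991)))) (a (l 5476433962998334119078232271) (c (l 6830430880966712541282107599) (l 6772402441625237828693246159)))) (c (c (l 6317846333450160761069207759)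 (l 6491931651474694987456200911)) (c (l 6472588838360888683334729935) (l 6462917431803999687488848079))))) (l 3))) (a (c (l 144000941847838927) (l 144103814926696655)) (a (c (a (l 144018190476099791) (b (c (c (l 5099249107278496767762448591) (l 144017984329810127)) (l 5476433962998329171277201615)) (l 144019015111835855))) (a (l 144126561101693135) (c (l 5495776776112212166347129039) (l 5524790995783019272924315855)))) (a (c (c (b (a (c (b (a (l 6114746795754792215183229135) (l 6956159166206575838766448847)) (l 5118591920392332896142704847)) (l 6008361323628730480180740303)) (c (b (l 3) (l 6588645717043728019901251791)) (l 6869116507194352156289892559))) (c (l 143987885196624079) (l 144015372991086799))) (b (c (l 6617659936714534233122209999) (l 6598317123600728135160135887)) (l 5370048490872239673600213199))) (c (c (l 6192118048210235135013241039) (l 6172775235096429174489923791)) (c (l 6317846333450212919158440143) (l 6327517740007158402424783055)))) (b (l 3) (c (c (c (b (l 6849773694080492525845774543) (l 5273334425303011065506234575))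 (b (l 385104171191) (l 295983605319))) (c (l 6395217585905444732725330127) (l 365239962055))) (c (c (l 366313708823) (l 366850584727)) (c (l 367387455415) (l 6743388221954598054071992527))))))))), by decide +kernel⟩

def k17_pp_113 : ∃ t, chk3 f_pp_113 t 124 509 1 = true :=
  ⟨(a (b (l 143670332430647503) (l 143664491302682831)) (b (c (a (l 143938544595927247) (b (a (l 143985479968604367) (c (c (l 3774266408980840446141923535) (l 143995306906583247)) (c (l 144022519808327887) (l 144049938895388879)))) (l 143953388012011727))) (a (l 144041555114229967) (a (l 143891059425493199) (c (c (l 5341034271201486992853876943) (l 144082649359581391)) (c (l 144110068433322191) (l 144137624951439567)))))) (l 143560175116533967))), by decide +kernel⟩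

def k18_pp_113 : ∃ t, chk3 f_pp_113 t 125 508 1 = true :=
  ⟨(a (b (l 3) (l 3)) (l 3)), by decide +kernel⟩

def k19_pp_113 : ∃ t, chk3 f_pp_113 t 125 1018 1 = true :=
  ⟨(a (a (b (b (a (a (c (c (b (c (l 6424231805576143399948681423) (l 6404888992462336889668878543)) (l 144007401533341903)) (c (l 5930990071173424518299795663) (l 5901975851502701043341885647))) (c (c (l 5882633038388894601781493967) (l 6124418202311848130674196687)) (c (l 6356531959677884626164760783) (l 6356531959677912457557704911)))) (b (l 3) (c (c (l 6607988530157583595899781327) (l 6559631497373053541942870223)) (c (l 6762731035068366425034981583) (c (l 367387463063) (l 6753059628511518317287473359)))))) (l 3)) (c (c (a (l 4973520822038582686580310223) (a (b (l 6569302903929918211091136719) (l 16758088)) (l 6888459320308187803640021199))) (a (l 144052756385972431) (c (l 6530617277702292408706515151) (l 6540288684259236929899380943)))) (a (c (l 144107319660183759) (a (l 16769152) (l 5592490841681443317076148431))) (a (c (b (l 6762731035068368692779352271)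 (l 144122094362443983)) (c (l 6366203366234805714014191823) (l 6366203366234832926931534031))) (b (l 3) (c (l 6424231805576274860335186127) (a (l 6414560399019408816788537551) (l 7197944330129695050349953231)))))))) (c (a (l 143993726355931343) (c (l 143993520189735119) (l 144047533707411663))) (a (l 144101134917468367) (c (l 5534462402339873634150187215) (c (l 144141473258881231) (l 144168136420507855)))))) (b (l 3) (b (a (c (c (b (l 6820759474409772280712413391) (l 5505448182669045843025477839)) (b (l 6907802133422080694318858447) (l 5515119589226017577136373967))) (a (c (l 6375874772791686532240801999) (c (l 5814933192490538864809509071) (l 6385546179348670567141982415))) (b (l 3) (c (l 6337189146564026095245377743) (a (l 6424231805576329629760078031) (l 7255972769471200961590264015)))))) (l 3)) (a (c (c (l 144009188247011535) (l 144063407922577615)) (a (l 144137006471971023) (c (l 144123674913849551) (l 144176657630871759)))) (c (c (a (l 5998689917071818051002728527) (l 381882964711)) (l 6762731035068235789307658319))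 (a (c (l 6395217585905524997085921487) (c (l 5785918972819791750348587215) (l 6395217585905591105235288271))) (b (l 3) (c (l 6230803674437944775188709455) (a (l 6433903212133250786328985807) (l 7236629956357372392355807439)))))))))) (a (l 3) (l 3))), by decide +kernel⟩

def k20_pp_113 : ∃ t, chk3 f_pp_113 t 125 1019 1 = true :=
  ⟨(b (a (a (a (l 143824813841547471) (l 143851751895318735)) (a (c (l 144005271235526863) (l 144111030527361231)) (c (c (l 144005408677888079) (l 144059078597115983)) (c (l 144111855152513103) (c (l 144150819112648911) (l 144176520190296271)))))) (a (b (a (c (c (b (l 6366203366234695762851545167) (l 4992863635152467262217830479)) (l 6811088067852835593548070991)) (a (c (l 6433903212133203507320553551) (c (l 5814933192490551096881053775) (l 6491931651474768311161815119))) (c (l 6965830572763566883081519183) (b (l 3) (l 6878787913751446967006969935))))) (l 3)) (c (c (b (l 6695031189169795939675242575) (l 6240475080994764364338528335)) (a (l 266455726759) (l 6849773694080519189024342095))) (c (a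 (l 144134188997754959) (l 6820759474409848559345598543)) (a (l 144183048542552143) (b (a (l 6878787913751450952737800271) (l 3)) (l 6317846333450259510978871375)))))) (l 3))) (c (a (l 143772793234866255) (a (c (l 144023481882558543) (l 144071860401307727)) (a (c (l 6366203366234649102314913871) (l 6404888992462361559974182991)) (b (l 3) (c (l 5795590379376594571971117135) (l 6946487759649761747177029711)))))) (a (l 143876353461157967) (a (a (l 144126973451026511) (c (l 144135700826964047) (l 144180643361062991))) (a (c (b (l 6840102287523696026441531471) (l 144156935149420623)) (b (a (l 6501603058031688505655279695) (l 7014187605548261520207364175)) (l 144198510439383119))) (b (l 3) (c (l 6878787913751376323381968975) (l 6888459320308333420240568399)))))))), by decide +kernel⟩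

def k21_pp_113 : ∃ t, chk3 f_pp_113 t 62 255 1 = true :=
  ⟨(a (a (l 143274164594933967) (l 143188059071529167)) (a (c (l 143424935168213071) (l 143523341477265487)) (b (b (a (l 143810245329911887) (b (c (c (l 144059971931357263) (l 144101134904049743)) (c (l 144141473243119695) (l 144000804491280463))) (l 143901504798425167))) (l 143812581778554959)) (l 143706891201822799)))), by decide +kernel⟩

def k22_pp_113 : ∃ t, chk3 f_pp_113 t 63 126 1 = true :=
  ⟨(l 3), by decide +kernel⟩

def k23_pp_113 : ∃ t, chk3 f_pp_113 t 126 127 1 = true :=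
  ⟨(b (a (a (a (a (l 3) (l 3)) (l 3)) (l 3)) (l 3)) (b (b (a (a (b (a (c (c (l 6395217585905436348958982223) (l 6433903212133142415706177615)) (c (l 6472588838360847657819734095) (b (l 6898130726865257944062918735) (l 144209574278152271)))) (b (l 3) (c (a (l 6433903212133111766820569167) (l 7468743713723280588580077647)) (c (l 6985173385877483756847611983) (l 6917473539979097714576343119))))) (c (a (l 144091926514729039) (l 5650519281022720392452653135)) (c (l 143978470648102991) (l 144011249843830863)))) (b (a (l 3) (l 3)) (a (c (c (l 6424231805576219266275246159) (l 6453246025247001496395907151)) (c (l 6491931651474700072719188047) (l 6520945871145482371559293007))) (b (l 3) (c (a (l 6462917431803928425399779407) (l 7575129185849393863201996879)) (c (l 7101230264560502932310016079) (l 7043201825219027532524453967))))))) (a (a (l 3) (l 3)) (l 3))) (b (a (a (l 143922876559966287) (c (a (l 144115222421913679) (l 144053718485188687)) (c (l 143990427840020559) (l 144016816134209615)))) (a (a (c (c (l 6453246025246994418289672271)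 (l 6482260244917770326217424975)) (b (c (l 7159258703902009393305190479) (l 7110901671117449377649066063)) (l 144116253219831887))) (b (l 3) (c (a (l 6482260244917776717130760271) (l 7691186064532419223418306639)) (c (l 7226958549800432887697309775) (l 7188272923572785576111521871))))) (c (l 8484241402199620291354493007) (l 8387527336630451331773431887)))) (a (l 143912912244719695) (a (a (l 144065057189707855) (b (c (l 144076945673404495) (l 144116390662094927)) (l 144077770295803983))) (a (c (b (a (l 6501603058031618205631184975) (l 7681514657975510161481809999)) (l 144081206282190927)) (b (c (l 7246301362914269634553004111) (l 7197944330129703915179769935)) (l 144115016272969807))) (b (a (l 3) (l 3)) (c (a (l 6511274464588540874027647055) (l 7671843251418597801009856591)) (c (l 7226958549800436667270234191) (l 7178601517015865450338287695))))))))) (a (l 143733416942501967) (b (a (l 143930298265632847) (b (a (l 144069798835454031) (b (c (l 144083542745366607) (l 144112130055143503)) (l 144079075967254607))) (l 143952151064510543)))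 (l 143880270476394575))))), by decide +kernel⟩

def k24_pp_113 : ∃ t, chk3 f_pp_113 t 127 254 1 = true :=
  ⟨(l 3), by decide +kernel⟩

def k25_pp_113 : ∃ t, chk3 f_pp_113 t 127 510 1 = true :=
  ⟨(a (b (l 3) (a (a (a (a (l 3) (l 3)) (l 3)) (l 3)) (l 3))) (l 3)), by decide +kernel⟩

def k26_pp_113 : ∃ t, chk3 f_pp_113 t 254 511 1 = true :=
  ⟨(b (a (a (b (c (b (a (l 6520945871145463061387509839) (l 7662171844861684959501467727)) (l 144084023787798607)) (c (b (l 7217287143243519084117114959) (l 144101822140645455)) (a (l 6240475080994890258457477199) (a (l 6569302903930078327511318607) (l 6830430880966839947235442767))))) (l 144067737252053071)) (b (a (b (l 3) (c (l 6530617277702383255881973839) (c (l 6549960090816241580656574543) (l 6569302903930084580985569359)))) (b (l 3) (b (l 3) (c (l 7265644176028089682575441999) (l 7168930110458929725243097167))))) (b (a (l 144133501806821455) (c (l 144086497685094479) (l 144149238575808591))) (l 144073166092681295)))) (b (a (c (l 8455227182528848712762310735) (b (l 3) (l 8155413579264426518594027599)))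 (l 3)) (a (a (b (c (l 6540288684259299876963434575) (c (l 6559631497373152772898635855) (l 6578974310486982991404777551))) (l 144128072968077391)) (b (b (a (l 3) (l 3)) (c (l 7265644176028086796358058063) (l 7168930110458912201776676943))) (c (l 144127110901317711) (l 144140648640692303)))) (b (c (l 8445555775971929342903533647) (a (l 8165084985821343964308422735) (l 3))) (b (a (c (l 7265644176028083772701048911) (l 7168930110458905535987073103)) (a (a (l 3) (l 3)) (l 3))) (a (c (l 144128897614020687) (l 144135906997370959)) (c (l 7265644176028074495571902543) (l 7168930110458896602454704207)))))))) (a (l 143930504426225743) (b (b (a (l 144067256217534543) (a (l 144120445105832015) (c (l 144120307672957007) (l 144130065840521295)))) (l 144054199514873935)) (l 143936551743553615)))), by decide +kernel⟩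

def k27_pp_113 : ∃ t, chk3 f_pp_113 t 255 511 1 = true :=
  ⟨(b (a (a (a (b (l 3) (c (b (l 3) (l 8126399359593666209989099599)) (a (c (l 509121400983) (l 643339129751)) (l 3)))) (l 3)) (l 3)) (l 3)) (a (b (b (a (a (c (c (l 6549960090816208320427245647) (l 6559631497373123841997307983)) (c (l 6569302903930037164544294991) (l 6578974310486950761968861263))) (c (c (l 7333344021926473800707096655) (l 7352686835040304775126515791)) (b (a (l 453286826135) (l 3)) (c (l 6965830572763626737756389455) (l 6985173385877460941991247951))))) (b (l 3) (b (l 3) (a (a (c (l 415168989079) (l 8174756392378252682648649807)) (l 3)) (l 3))))) (a (a (l 144110549500575823) (c (l 144133364374405199) (l 144136388032708687))) (b (a (c (a (l 6559631497373113602796224591) (l 7352686835040304156651356239)) (a (l 6366203366234771079418363983) (c (l 7362358241597220983891886159) (l 6559631497373105425181032527)))) (b (l 3) (a (c (l 409800279575) (l 453823696295)) (l 3)))) (a (c (l 144130340719411279) (l 144125805234978895)) (c (a (l 6569302903930023901684744271)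 (c (l 7343015428483382931365363791) (l 7352686835040298452935180367))) (b (a (l 6443574618690101711603138639) (l 453823696055)) (c (l 6375874772791680416234307663) (l 6356531959677846349439369295)))))))) (b (a (l 144048427079794767) (a (l 144097973835432015) (b (c (l 144122437979160655) (l 144124774442172495)) (l 144095362495725647)))) (l 144077907743686735))) (a (a (a (a (b (b (l 3) (b (l 3) (b (l 3) (c (l 409800278919) (l 453823695703))))) (b (b (c (l 6250146487551760425172451407) (l 6095403982641085554348769359)) (l 6)) (l 6))) (b (l 3) (l 6))) (b (l 3) (l 6))) (b (l 3) (l 6))) (l 6)))), by decide +kernel⟩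

theorem s28_pp_113 : ∃ t, chk3 f_pp_113 t 127 511 1 = true := ex3_a k26_pp_113 k27_pp_113

theorem s29_pp_113 : ∃ t, chk3 f_pp_113 t 127 255 1 = true := ex3_b k25_pp_113 s28_pp_113

theorem s30_pp_113 : ∃ t, chk3 f_pp_113 t 127 127 1 = true := ex3_b k24_pp_113 s29_pp_113

theorem s31_pp_113 : ∃ t, chk3 f_pp_113 t 63 127 1 = true := ex3_a k23_pp_113 s30_pp_113

theorem s32_pp_113 : ∃ t, chk3 f_pp_113 t 63 63 1 = true := ex3_b k22_pp_113 s31_pp_113

theorem s33_pp_113 : ∃ t, chk3 f_pp_113 t 125 509 1 = true := ex3_b k19_pp_113 k20_pp_113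

theorem s34_pp_113 : ∃ t, chk3 f_pp_113 t 125 254 1 = true := ex3_b k18_pp_113 s33_pp_113

theorem s35_pp_113 : ∃ t, chk3 f_pp_113 t 249 1017 1 = true := ex3_b k15_pp_113 k16_pp_113

theorem s36_pp_113 : ∃ t, chk3 f_pp_113 t 249 508 1 = true := ex3_b k14_pp_113 s35_pp_113

theorem s37_pp_113 : ∃ t, chk3 f_pp_113 t 124 508 1 = true := ex3_a k13_pp_113 s36_pp_113

theorem s38_pp_113 : ∃ t, chk3 f_pp_113 t 124 254 1 = true := ex3_b s37_pp_113 k17_pp_113

theorem s39_pp_113 : ∃ t, chk3 f_pp_113 t 62 254 1 = true := ex3_a s38_pp_113 s34_pp_113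

theorem s40_pp_113 : ∃ t, chk3 f_pp_113 t 62 127 1 = true := ex3_b s39_pp_113 k21_pp_113

theorem s41_pp_113 : ∃ t, chk3 f_pp_113 t 62 63 1 = true := ex3_b k12_pp_113 s40_pp_113

theorem s42_pp_113 : ∃ t, chk3 f_pp_113 t 31 63 1 = true := ex3_a s41_pp_113 s32_pp_113

theorem s43_pp_113 : ∃ t, chk3 f_pp_113 t 31 31 1 = true := ex3_b k11_pp_113 s42_pp_113

theorem s44_pp_113 : ∃ t, chk3 f_pp_113 t 61 63 1 = true := ex3_b k9_pp_113 k10_pp_113

theorem s45_pp_113 : ∃ t, chk3 f_pp_113 t 61 31 1 = true := ex3_b k8_pp_113 s44_pp_113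

theorem s46_pp_113 : ∃ t, chk3 f_pp_113 t 30 31 1 = true := ex3_a k7_pp_113 s45_pp_113

theorem s47_pp_113 : ∃ t, chk3 f_pp_113 t 15 31 1 = true := ex3_a s46_pp_113 s43_pp_113

theorem s48_pp_113 : ∃ t, chk3 f_pp_113 t 15 15 1 = true := ex3_b k6_pp_113 s47_pp_113

theorem s49_pp_113 : ∃ t, chk3 f_pp_113 t 7 15 1 = true := ex3_a k5_pp_113 s48_pp_113

theorem s50_pp_113 : ∃ t, chk3 f_pp_113 t 7 7 1 = true := ex3_b k4_pp_113 s49_pp_113

theorem s51_pp_113 : ∃ t, chk3 f_pp_113 t 3 7 1 = true := ex3_a k3_pp_113 s50_pp_113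

theorem s52_pp_113 : ∃ t, chk3 f_pp_113 t 3 3 1 = true := ex3_b k2_pp_113 s51_pp_113

theorem s53_pp_113 : ∃ t, chk3 f_pp_113 t 1 3 1 = true := ex3_a k1_pp_113 s52_pp_113

theorem s54_pp_113 : ∃ t, chk3 f_pp_113 t 1 1 1 = true := ex3_b k0_pp_113 s53_pp_113

theorem c_pp_113 : CertB 536870912 536870912 1610612736 536870912 1020054732 13421774 3 eng mog cd0q1 cd2q3 pd1 false true true .nn 1 1 3
    ndB0q1 ndB2q3 pcB1 cut_pp_113 xt_pp_113 :=
  certB1 (fam := false) (s1 := true) (s2 := true) (a := 1) (b := 1) (c := 3) (cn := .nn) (n1 := ndB0q1) (n2 := ndB2q3) (pc := pcB1) (cut := cut_pp_113) (xt := xt_pp_113) (P1 := 536870912) (W1 := 536870912) (P2 := 1610612736) (W2 := 536870912) (P3 := 1020054732) (W3 := 13421774) (N0 := 3) (En := eng) (mo := mog) (C1 := cd0q1) (C2 := cd2q3) (C3 := pd1)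
    rfl (fun _ => rfl) s54_pp_113

end Pool.Agent.Strip051.G.I9500_9625.Tab.C.BB02

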