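import Pool.Agent.Strip051.G.I9500_9625.Tab
import Pool.Agent.Strip051.PB.ExtD3

/-! # Certificates B24 (generated) -/

set_option linter.all false
set_option maxRecDepth 100000

namespace Pool.Agent.Strip051.G.I9500_9625.Tab.C.BB03

open Pool.Agent.Strip051.PB Pool.Agent.Strip051.PB.T
open Pool.Agent.Strip051.G.I9500_9625.Tab

noncomputable def xt_pm_102 : Ext := extD3 3 ⟨4, 1, 1, 5, 99, 20, 33, 40, 51, 125, 1, 32⟩ eng cd0q1 cd3q2 pd0 false true false .npp 1 0 2 rfl ndB0q1 ndB3q2 pcB0

noncomputable def f_pm_102 : ℕ → ℕ → ℕ → ℕ → Bool := onCell 536870912 536870912 1073741824 536870912 1020054732 13421774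
    (rowB 3 eng mog cd0q1 cd3q2 pd0 0 false true false .npp 1 0 2 (qsf 536870912 536870912 1073741824 536870912 0) ndB0q1 ndB3q2 pcB0 Cut.none xt_pm_102)

def k0_pm_102 : ∃ t, chk3 f_pm_102 t 8 4 1 = true :=
  ⟨(a (b (a (b (b (c (b (a (l 15380672) (l 15365880)) (l 15352896)) (b (a (l 15523528) (l 15508712)) (a (l 15497152) (l 15481192)))) (b (c (l 15332864) (l 15483208)) (l 2))) (l 2)) (b (b (c (b (a (l 15352872) (l 15341616)) (l 15324288)) (b (a (l 15495576) (l 15484088)) (a (l 15466944) (l 15454360)))) (c (b (l 15280672) (l 15247696)) (b (l 15452408) (l 15402496)))) (b (b (c (l 15214864) (l 15373680)) (l 2)) (l 2)))) (l 2)) (a (b (b (b (c (b (a (l 15332088) (c (l 15315680) (l 15375064))) (l 15302784)) (b (a (l 15474224) (l 15465968)) (a (l 15443440) (l 15434152)))) (c (b (l 15256664) (l 15221136)) (b (l 15417896) (l 15376256)))) (b (c (b (l 15185696) (l 15150360)) (b (l 15345168) (l 15314144))) (b (c (l 15115120) (l 15283200)) (l 2)))) (l 2)) (b (b (b (c (b (a (c (l 15309688) (l 15368800)) (c (l 15305376)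 (l 15364168))) (l 15277704)) (b (a (l 15459296) (l 15454176)) (l 15436376))) (c (b (l 15239688) (l 15201720)) (b (l 15400472) (l 15356712)))) (b (c (b (l 15163800) (l 15125920)) (b (l 15323472) (l 15290240))) (c (b (l 15088080) (l 15050288)) (b (l 15257040) (l 15223848))))) (b (b (b (c (l 15012528) (l 15190680)) (l 2)) (l 2)) (l 2))))), by decide +kernel⟩

def k1_pm_102 : ∃ t, chk3 f_pm_102 t 18 4 1 = true :=
  ⟨(b (b (b (c (a (b (l 15310072) (l 15269816)) (b (l 15310768) (l 15268448))) (a (b (a (l 15450584) (l 15448504)) (l 15424680)) (b (l 15448176) (l 15411200)))) (c (a (b (l 15229552) (l 15189272)) (b (l 15226048) (l 15183584))) (a (b (l 15378960) (l 15343696)) (b (l 15374152) (l 15337008))))) (b (c (a (b (l 15148984) (l 15108688)) (b (l 15141056) (l 15098456))) (a (b (l 15308408) (l 15273088)) (b (l 15299784) (l 15262488)))) (c (a (b (l 15068368) (l 15028048)) (b (l 15055792) (l 15013064))) (a (b (l 15237736) (l 15202352)) (b (l 15225104) (l 15187640)))))) (b (b (c (a (b (l 14987704) (b (a (l 14984304)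 (l 14973768)) (a (l 2) (l 14967712)))) (b (a (l 14994864) (b (l 14998776) (l 14977760))) (b (a (l 14969000) (l 14969648)) (l 14970872)))) (a (b (l 15166944) (b (l 15141008) (l 15112184))) (b (a (l 15153632) (l 15147264)) (b (l 15110760) (l 15132952))))) (c (a (b (l 14974616) (l 2)) (b (l 14976992) (l 14986112))) (a (l 15148288) (l 15143448)))) (a (l 2) (a (l 2) (a (l 2) (c (l 14992528) (l 15174528))))))), by decide +kernel⟩

def k2_pm_102 : ∃ t, chk3 f_pm_102 t 19 4 1 = true :=
  ⟨(c (a (b (b (b (b (l 15317624) (l 15273368)) (b (l 15228976) (l 15184456))) (b (a (l 15138424) (l 15138912)) (a (l 15052352) (l 15048064)))) (b (b (a (b (b (l 14993952) (l 14976480)) (l 14976408)) (b (b (l 14991192) (l 14980312)) (l 14983408))) (b (l 14986008) (l 14993352))) (a (l 15009376) (l 15007200)))) (b (b (b (b (l 15330408) (l 15284352)) (b (l 15238104) (l 15191664))) (b (b (l 15145048) (l 15098240)) (b (l 15051256) (l 15003880)))) (b (b (b (b (a (l 14992984) (l 14999544)) (l 14994032)) (l 15017752)) (b (l 15001424) (l 15007072)))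 (a (l 15001432) (l 15007768))))) (b (b (b (a (b (l 15452704) (l 15414088)) (b (l 15462760) (l 15422632))) (a (b (l 15375336) (l 15336440)) (b (l 15382304) (l 15341784)))) (b (a (b (l 15297408) (l 15258248)) (b (l 15301064) (l 15260160))) (a (b (l 15218944) (l 15179520)) (b (l 15219072) (l 15192064))))) (b (b (a (b (b (l 15150080) (l 15117624)) (l 15118880)) (b (a (l 15127864) (l 15134936)) (l 15154744))) (a (l 15150152) (l 15162936))) (b (a (l 15166968) (l 15176920)) (a (l 15187080) (l 15194160)))))), by decide +kernel⟩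

def k3_pm_102 : ∃ t, chk3 f_pm_102 t 10 8 1 = true :=
  ⟨(b (a (b (c (a (b (l 15348864) (l 15301160)) (b (l 15393720) (l 15323552))) (a (b (l 15478088) (l 15436592)) (b (l 15498448) (l 15455720)))) (c (a (b (l 15253200) (l 15204984)) (b (l 15274024) (l 15224176))) (a (b (l 15394832) (l 15352808)) (b (l 15412664) (l 15369288))))) (b (c (a (b (l 15422744) (l 15372216)) (b (l 15456616) (l 15404936))) (a (b (l 15523552) (l 15479760)) (b (l 15553120) (l 15508424)))) (c (a (b (l 15321288) (l 15269968)) (b (l 15352776) (l 15300136))) (a (b (l 15435560) (l 15390968)) (b (l 15463240) (l 15417592)))))) (a (b (c (a (b (l 15156528) (l 15107824)) (b (l 15174024) (l 15123560))) (a (b (l 15310536) (l 15268016)) (b (l 15325592) (l 15281592)))) (b (c (a (l 15058872) (l 15072784)) (a (l 15225256) (l 15237288))) (a (c (b (l 15042920) (a (l 15018376) (l 15027280))) (b (l 15192976) (l 15176344))) (b (c (a (l 15052504) (l 15063488)) (l 15206888)) (a (l 15136368) (l 15131688)))))) (b (c (a (b (l 15197288) (l 15145216)) (b (l 15247048)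 (l 15193512))) (a (b (l 15345992) (l 15300648)) (b (l 15371488) (l 15324944)))) (a (b (c (l 15114928) (a (l 15249968) (l 15261440))) (c (l 15066176) (b (l 15233104) (l 15232232)))) (b (c (a (l 15115128) (l 15132800)) (b (l 15290128) (l 15274536))) (c (l 15129440) (l 15270832))))))), by decide +kernel⟩

def k4_pm_102 : ∃ t, chk3 f_pm_102 t 11 8 1 = true :=
  ⟨(b (a (b (a (c (b (l 15495024) (l 15442384)) (b (l 15586824) (l 15541424))) (c (b (l 15537608) (l 15484224)) (b (l 15624320) (l 15578424)))) (c (a (b (l 15389168) (l 15335392)) (b (l 15430152) (l 15375432))) (a (b (l 15495432) (l 15448888)) (b (l 15531824) (l 15484568))))) (b (a (c (b (l 15583984) (l 15530104)) (b (l 15665208) (l 15619072))) (c (b (l 15633688) (l 15579632)) (b (l 15709008) (l 15662960)))) (c (a (b (l 15475408) (l 15419944)) (b (l 15524568) (l 15468600))) (a (b (l 15572088) (l 15524328)) (b (l 15615864) (l 15567832)))))) (a (b (a (c (l 15300360) (b (l 15401816) (l 15354224))) (b (c (l 15320080) (l 15436696)) (c (l 15266120) (a (l 15379832)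 (l 15399400))))) (a (b (b (a (l 15245296) (l 15265248)) (l 15290200)) (c (l 15177008) (l 15313944))) (b (c (l 15235928) (l 15364944)) (c (l 15229120) (l 15361312))))) (b (b (c (a (l 15363752) (l 15411776)) (a (l 15475840) (l 15518936))) (a (c (b (l 15321744) (l 15302032)) (b (l 15439648) (l 15422904))) (b (c (l 15373320) (l 15507048)) (a (l 15404664) (l 15435064))))) (a (c (l 15289216) (l 15414728)) (c (l 15349928) (l 15490992)))))), by decide +kernel⟩

def k5_pm_102 : ∃ t, chk3 f_pm_102 t 5 9 1 = true :=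
  ⟨(a (b (a (b (a (c (b (a (l 15011280) (l 15025160)) (l 15019992)) (b (l 15172232) (l 15175376))) (b (c (l 15048584) (l 15199608)) (c (l 15049032) (l 15201512)))) (c (a (l 15003800) (l 15030528)) (a (l 15181568) (l 15205824)))) (b (c (a (l 15062936) (l 15103560)) (a (l 15232304) (l 15269224))) (c (a (l 15062944) (l 15100800)) (a (l 15235456) (l 15270208))))) (a (b (c (a (l 15013832) (l 15037448)) (a (l 15192872) (l 15214608))) (c (b (l 15054800) (l 15061896)) (a (l 15207400) (l 15226568)))) (c (b (a (l 15066928) (l 15102008)) (b (l 15109264) (l 15113400))) (b (a (l 15241872) (l 15274424)) (a (l 15251432) (l 15281760)))))) (b (a (b (c (a (l 15149160) (l 15220416)) (a (l 15310840) (l 15356840))) (c (a (l 15143808) (l 15212640)) (a (l 15309816) (l 15354000)))) (b (a (c (l 15275048) (l 15406944)) (c (l 15333720) (l 15460832))) (a (c (l 15265056) (l 15402480)) (c (l 15321712) (l 15454952))))) (a (b (c (a (l 15163384) (l 15208840)) (a (l 15312008) (l 15354360))) (c (a (l 15165816) (l 15208856)) (a (l 15317296)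 (l 15357776)))) (b (a (c (l 15259048) (l 15401192)) (c (l 15313704) (l 15452232))) (a (c (l 15256856) (l 15402952)) (c (l 15309520) (l 15452536))))))), by decide +kernel⟩

def k6_pm_102 : ∃ t, chk3 f_pm_102 t 2 5 1 = true :=
  ⟨(a (a (l 2) (b (b (a (l 2) (b (c (l 15052352) (l 15211552)) (l 2))) (l 2)) (l 2))) (a (b (a (a (b (c (l 15076336) (l 15234792)) (l 2)) (b (c (l 15092080) (l 15250032)) (c (l 15135264) (l 15291824)))) (a (b (c (l 15114104) (l 15271216)) (c (l 15151208) (l 15307960))) (b (c (l 15142168) (l 15298112)) (c (l 15173560) (l 15330168))))) (a (l 2) (a (l 2) (b (b (l 15283200) (l 2)) (l 2))))) (b (a (a (b (c (l 15176032) (l 15330496)) (c (l 15202080) (l 15358216))) (b (c (l 15215416) (l 15368112)) (c (l 15236536) (l 15391888)))) (b (c (a (l 15260064) (l 15309704)) (a (l 15410704) (l 15458032))) (c (a (l 15276672) (l 15322248)) (a (l 15430936) (l 15475136))))) (a (a (b (c (l 15240944) (l 15396288)) (l 2)) (b (c (l 15270328) (l 15425808)) (c (l 15315768) (l 15469016)))) (b (c (a (l 15305824) (l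 15347200)) (a (l 15461120) (l 15501992))) (c (a (l 15346448) (l 15383456)) (a (l 15500352) (l 15537664)))))))), by decide +kernel⟩

def k7_pm_102 : ∃ t, chk3 f_pm_102 t 2 3 1 = true :=
  ⟨(a (l 2) (b (a (l 2) (b (a (l 2) (a (l 2) (a (l 2) (b (l 15430896) (l 2))))) (l 2))) (l 2))), by decide +kernel⟩

def k8_pm_102 : ∃ t, chk3 f_pm_102 t 12 8 1 = true :=
  ⟨(b (a (b (a (c (b (l 15686160) (l 15632328)) (b (l 15755120) (l 15709608))) (b (c (l 15740656) (l 15802672)) (c (l 15687624) (l 15758392)))) (a (c (b (l 15577232) (l 15521032)) (b (l 15662744) (l 15614720))) (c (b (l 15632928) (l 15576840)) (b (l 15712240) (l 15664592))))) (b (c (a (b (l 15796008) (l 15744752)) (b (l 15850016) (l 15802512))) (a (b (l 15850248) (l 15808432)) (b (l 15894808) (l 15858256)))) (a (c (b (l 15691096) (l 15635576)) (b (l 15763752) (l 15716976))) (a (c (l 15708864) (l 15780728)) (b (l 15713800) (c (l 15712776) (l 15785656))))))) (a (b (b (a (c (a (l 15450792) (l 15479088)) (a (l 15554048) (l 15579544))) (b (c (l 15533944) (l 15627992))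 (c (l 15511568) (a (l 15594224) (l 15623312))))) (a (a (c (l 15392840) (l 15523336)) (l 15521472)) (c (l 15499208) (l 15600840)))) (a (c (l 15414104) (b (l 15531864) (l 15525824))) (c (l 15481360) (b (l 15593488) (l 15587000))))) (c (b (b (a (b (l 15595616) (l 15580152)) (b (l 15683032) (l 15653680))) (a (l 15570112) (l 15642960))) (a (l 15572248) (b (l 15629808) (l 15617776)))) (b (b (a (b (a (l 15668544) (l 15696976)) (l 15671144)) (a (l 15723032) (l 15755776))) (a (l 15665136) (l 15731176))) (a (b (l 15657512) (l 15650728)) (b (l 15723496) (l 15716624))))))), by decide +kernel⟩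

def k9_pm_102 : ∃ t, chk3 f_pm_102 t 13 8 1 = true :=
  ⟨(b (a (b (a (b (c (l 15897096) (l 15900448)) (c (l 15858592) (l 15904656))) (c (b (l 15878888) (l 15906896)) (b (l 15849480) (l 15911904)))) (b (a (c (l 15811400) (l 15868832)) (c (l 15870184) (l 15917960))) (a (b (l 15679240) (a (l 15704312) (l 15693792))) (b (a (l 15849144) (l 15878712)) (a (l 15788984) (l 15864368)))))) (b (a (b (c (l 15838024) (l 15807472)) (c (l 15895048) (l 15877344))) (b (c (l 15811752) (l 15777800)) (c (l 15875000) (l 15855376)))) (b (a (l 15833864) (a (l 15927336) (l 15923664))) (a (b (a (l 15907528) (l 15934480)) (l 15914480)) (a (l 15895560) (l 15971016)))))) (c (a (a (b (b (l 15731584) (l 15717184)) (l 15697344)) (b (b (l 15806064) (l 15792128)) (l 15772568))) (b (a (b (l 15879400) (l 15867008)) (l 15945080)) (a (l 15848640) (l 15904256)))) (a (b (a (b (l 15806488) (l 15798400)) (b (l 15873120) (l 15866144))) (a (l 15745368) (l 15835104))) (b (a (l 15872704) (l 15998904)) (a (l 15904656) (l 15995664)))))), by decide +kernel⟩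

def k10_pm_102 : ∃ t, chk3 f_pm_102 t 6 9 1 = true :=
  ⟨(a (a (b (b (a (c (l 15396072) (l 15518176)) (c (l 15461752) (l 15578656))) (a (c (l 15382272) (l 15511112)) (c (l 15446400) (l 15570648)))) (b (a (c (l 15372488) (l 15507184)) (c (l 15435088) (l 15565752))) (a (c (l 15366536) (l 15506256)) (c (l 15427616) (l 15563824))))) (b (b (a (c (l 15530376) (l 15641912)) (c (l 15601568) (l 15707592))) (a (c (l 15513752) (l 15633240)) (c (l 15583976) (l 15698568)))) (b (a (c (l 15501176) (l 15627640)) (c (l 15570424) (l 15692552))) (a (c (l 15492440) (l 15624968)) (c (l 15560704) (l 15689400)))))) (a (b (b (a (c (l 15674952) (l 15775360)) (c (l 15750152) (l 15844896))) (a (c (l 15656728) (l 15766336)) (c (l 15731688) (l 15836264)))) (a (b (c (l 15642504) (l 15760200)) (c (l 15632096) (l 15756840))) (b (c (l 15717120) (l 15830304)) (l 15556568)))) (b (a (b (c (l 15826864) (l 15915944)) (c (l 15808568) (l 15908104))) (b (c (l 15904896) (l 15988376)) (c (l 15887112) (l 15981648)))) (a (b (c (l 15793960) (l 15902608))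 (l 15694136)) (b (c (l 15872688) (l 15976784)) (l 15812776)))))), by decide +kernel⟩

def k11_pm_102 : ∃ t, chk3 f_pm_102 t 6 5 1 = true :=
  ⟨(a (b (a (b (a (c (l 15364048) (l 15509816)) (c (l 15422824) (l 15565808))) (c (a (l 15372992) (l 15428656)) (a (l 15524232) (l 15577992)))) (b (a (b (l 15450920) (l 15556328)) (b (l 15537496) (l 15621128))) (a (c (l 15488976) (l 15636160)) (c (l 15553664) (l 15698472))))) (a (b (c (a (l 15394232) (l 15446664)) (a (l 15548200) (l 15599520))) (c (a (l 15426584) (l 15475616)) (a (l 15580744) (l 15629376)))) (b (a (c (l 15504264) (l 15655704)) (c (l 15566752) (l 15716488))) (a (c (l 15530304) (l 15683312)) (c (l 15590408) (l 15742296)))))) (b (a (b (a (b (l 15606432) (l 15689528)) (b (l 15699368) (l 15761200))) (a (c (l 15622432) (l 15764632)) (c (l 15694944) (l 15834312)))) (b (a (b (l 15794984) (l 15835752)) (b (l 15871808) (l 15891680))) (a (c (l 15770744) (l 15907056)) (c (l 15849240) (l 15982280))))) (a (b (a (c (l 15633840) (l 15781568)) (c (l 15705160) (l 15850576)))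 (a (c (l 15655592) (l 15805992)) (c (l 15725472) (l 15873984)))) (b (a (c (l 15780200) (l 15923000)) (b (l 15882448) (l 15827880))) (a (c (l 15799496) (l 15945744)) (b (a (l 15923720) (l 15880328)) (a (l 15810936) (l 15827112)))))))), by decide +kernel⟩

def k12_pm_102 : ∃ t, chk3 f_pm_102 t 14 4 1 = true :=
  ⟨(b (b (a (b (a (b (c (l 15805712) (l 15765232)) (l 15883760)) (b (c (l 15828320) (l 15776904)) (l 15883832))) (b (a (b (l 15912488) (a (l 15938712) (l 15945792))) (b (l 15936752) (a (l 15958920) (l 15979032)))) (a (l 15978952) (l 16010408)))) (b (a (b (l 15858568) (l 15938064)) (b (l 15973840) (l 16038680))) (a (b (b (l 15991800) (l 16024704)) (l 16070680)) (b (b (l 16087424) (l 16120120)) (l 16060616))))) (a (b (a (b (l 16021880) (l 16037136)) (b (l 16059528) (l 16100240))) (a (c (l 16002304) (l 16066408)) (b (l 16110056) (l 16108568)))) (b (a (b (l 16123664) (l 16167040)) (b (l 16216888) (l 16256608))) (a (b (l 16188000) (l 16187432)) (b (l 16270880) (l 16266128)))))) (a (b (b (a (c (l 15984120)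 (l 16062296)) (c (l 16064424) (l 16137696))) (a (c (l 15966952) (l 16056688)) (l 15942952))) (a (b (l 15855456) (l 15911840)) (b (l 15975744) (l 16011304)))) (b (a (b (c (l 16144976) (l 16213616)) (l 16083432)) (b (l 16108200) (l 16137120))) (a (b (l 16095024) (l 16088728)) (b (l 16148520) (l 16142552)))))), by decide +kernel⟩

def k13_pm_102 : ∃ t, chk3 f_pm_102 t 15 8 1 = true :=
  ⟨(a (b (b (a (a (b (l 583863661284537067672111) (l 16156432)) (b (b (l 585758199546982573363247) (l 582552213073047054653487)) (l 579820791632622618650671))) (b (a (b (l 589531563796244232495151) (l 589294925999709455493167)) (b (l 579591651156770125062191) (l 590861459029228781611055))) (a (l 585379604184891871356975) (l 583114978133555541960751)))) (a (b (l 581914071020247149895215) (l 16296488)) (b (l 584536530201332441966639) (l 585856049587864409532463)))) (b (a (b (l 16331264) (l 16355040)) (b (l 16416264) (l 16424432))) (a (l 139759712391413807) (l 139945942301933615)))) (b (a (b (b (a (b (a (c (l 574286483539210867336431)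 (l 576516810024396253340911)) (b (l 16522232) (l 16483544))) (a (l 16481032) (l 583854866313842105315055))) (b (l 16554232) (a (l 579103099946813879348847) (l 16534408)))) (a (b (l 584181431399153757171439) (l 586457874933708190740207)) (b (a (l 579335989783774522928751) (b (l 16509520) (l 16493488))) (a (l 16476680) (l 16447552))))) (a (b (l 589652332726685398314735) (l 16491840)) (b (l 585487980032143180934767) (l 16500816)))) (b (b (a (b (l 16608304) (l 16576824)) (b (l 16644224) (l 16615624))) (a (b (l 16488136) (a (l 140520231189479535) (l 16540128))) (b (a (l 16594168) (l 16621800)) (l 16580224)))) (b (a (b (a (l 16502416) (l 140862729075097711)) (a (l 16502736) (l 16509872))) (b (l 16557896) (a (l 16485736) (l 16551680)))) (a (l 141372009091432559) (b (a (l 16518648) (l 16536744)) (a (l 16518592) (l 16528952))))))) (a (b (b (a (l 16481472) (l 16497760)) (a (l 16464928) (l 16487800))) (a (l 140809402609320175) (l 141065245265854575))) (b (a (b (l 16509560) (l 16505056)) (a (l 140931311113240687) (b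 (l 16529200) (l 16528760)))) (b (a (l 16496480) (a (l 16512648) (l 16524008))) (a (l 16484888) (a (l 16503112) (l 16475240)))))))), by decide +kernel⟩

def k14_pm_102 : ∃ t, chk3 f_pm_102 t 15 9 1 = true :=
  ⟨(a (b (a (b (c (l 16295320) (l 16355504)) (c (l 16275016) (l 16348744))) (b (a (l 16372600) (l 16401400)) (c (l 16338656) (l 16410456)))) (a (b (c (l 16260088) (l 16345560)) (a (l 16282288) (b (l 16316424) (l 16300960)))) (b (a (b (l 16353056) (l 16349496)) (b (l 16359264) (l 16356440))) (a (l 16186832) (l 16311784))))) (b (a (b (a (l 16364992) (b (l 16454400) (l 16447776))) (a (b (l 16418928) (l 16366992)) (b (l 16350520) (l 16406824)))) (b (a (b (l 16435504) (a (l 16462376) (l 16463216))) (b (a (l 16429360) (l 16473136)) (l 16461720))) (a (l 16287728) (l 16387552)))) (a (b (a (l 16260464) (l 16357544)) (l 16171608)) (b (a (l 16347144) (l 16340320)) (c (l 16240080) (l 16316312)))))), by decide +kernel⟩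

def k15_pm_102 : ∃ t, chk3 f_pm_102 t 7 5 1 = true :=
  ⟨(a (b (a (b (a (b (l 15950096) (l 15970128)) (b (l 16028776) (l 16028072))) (a (c (l 15929488) (l 16059232)) (b (l 16050928) (a (l 16056376) (l 15989600))))) (b (a (b (l 16106488) (l 16106136)) (a (b (l 16205304) (l 16030800)) (b (l 16117160) (l 16206736)))) (a (b (a (l 16111904) (l 16068712)) (a (l 16086624) (l 16111800))) (b (l 16156560) (l 16107072))))) (a (b (a (b (l 15940160) (a (l 15993416) (l 15809040))) (b (a (l 15867120) (l 16065192)) (l 15961464))) (a (b (a (l 15753512) (l 15990400)) (l 15955408)) (l 15924872))) (b (c (l 15976056) (l 16102672)) (c (l 15888816) (l 16019352))))) (b (a (b (a (b (a (l 16068544) (l 16262152)) (l 16206088)) (c (l 16174416) (l 16273336))) (a (l 16040144) (l 15922368))) (a (b (a (l 16106560) (l 16032032)) (c (l 16041200) (l 16142656))) (b (b (l 16068544) (l 16050672)) (c (l 16023920) (l 16118520))))) (a (b (a (l 15961416) (l 15862880)) (a (l 15914584) (l 15814176))) (a (b (c (l 15934712) (l 16043688)) (c (l 15839720)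 (l 15954424))) (b (b (l 15824664) (c (l 15891904) (l 15995832))) (a (l 15836352) (c (l 15814856) (l 15922760)))))))), by decide +kernel⟩

def k16_pm_102 : ∃ t, chk3 f_pm_102 t 6 3 1 = true :=
  ⟨(b (a (b (a (a (b (c (l 15468960) (l 15620952)) (l 2)) (b (c (l 15514360) (l 15666608)) (c (l 15561816) (l 15710304)))) (b (a (c (l 15565920) (l 15718000)) (c (l 15623368) (l 15774856))) (a (c (l 15609960) (l 15758816)) (c (l 15664472) (l 15813184))))) (a (l 2) (b (a (l 2) (c (l 15712584) (l 15856344))) (l 2)))) (b (a (b (a (c (l 15686392) (l 15836816)) (c (l 15754536) (l 15903440))) (a (c (l 15724992) (l 15873032)) (b (a (l 15838272) (l 15767024)) (a (l 15773600) (l 15825552))))) (b (a (b (a (l 15874816) (l 15765128)) (a (l 15743472) (l 15838960))) (b (a (l 15820552) (l 15927744)) (l 15900552))) (a (b (a (l 15840568) (l 15882240)) (l 15863152)) (l 15820312)))) (a (b (a (b (a (l 15815864) (l 15804904)) (a (l 2) (l 15829880))) (b (a (l 15835944) (l 15854872)) (l 15844120))) (a (l 2) (l 15827640))) (b (c (l 15758088)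 (l 15898464)) (c (l 15731424) (l 15866816)))))) (a (l 2) (b (a (l 2) (b (c (l 15715920) (l 15844824)) (l 2))) (l 2)))), by decide +kernel⟩

def k17_pm_102 : ∃ t, chk3 f_pm_102 t 7 3 1 = true :=
  ⟨(a (b (b (a (b (c (l 15832232) (l 15971544)) (c (l 15774968) (l 15913632))) (b (c (l 15813392) (l 15946096)) (c (l 15749616) (l 15882784)))) (a (b (c (l 15729288) (l 15865664)) (c (l 15694992) (l 15827488))) (b (c (l 15697320) (l 15829272)) (c (l 15656272) (l 15785392))))) (b (a (b (c (l 15671808) (l 15798880)) (l 90829228119)) (b (c (l 15626216) (l 15750936)) (c (l 15606832) (l 15725680)))) (a (l 2) (b (l 15548176) (l 2))))) (b (a (b (b (a (l 15857568) (l 15797080)) (a (l 15790224) (l 15769528))) (c (b (l 15659264) (l 15612408)) (b (l 15786040) (l 15737352)))) (b (a (b (c (l 15756080) (l 15874744)) (c (l 15684448) (l 15805128))) (a (b (l 15649096) (l 15701128)) (b (l 15742272) (l 15712624)))) (a (b (a (l 15690840) (l 15675672)) (a (l 15640544) (l 15623448))) (b (b (l 15670384) (l 15642592)) (l 15605904))))) (a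 (b (b (c (l 15576344) (l 15697880)) (c (l 15550752) (l 15667392))) (a (b (l 15606384) (l 2)) (b (l 15574384) (l 15563520)))) (b (a (b (a (l 15600392) (l 15583488)) (a (l 15568776) (l 15553496))) (b (l 15565664) (l 15534592))) (a (b (l 15538616) (l 15526840)) (b (l 15511808) (l 15496392))))))), by decide +kernel⟩

theorem s18_pm_102 : ∃ t, chk3 f_pm_102 t 3 3 1 = true := ex3_a k16_pm_102 k17_pm_102

theorem s19_pm_102 : ∃ t, chk3 f_pm_102 t 15 4 1 = true := ex3_b k13_pm_102 k14_pm_102

theorem s20_pm_102 : ∃ t, chk3 f_pm_102 t 7 4 1 = true := ex3_a k12_pm_102 s19_pm_102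

theorem s21_pm_102 : ∃ t, chk3 f_pm_102 t 7 2 1 = true := ex3_b s20_pm_102 k15_pm_102

theorem s22_pm_102 : ∃ t, chk3 f_pm_102 t 6 8 1 = true := ex3_a k8_pm_102 k9_pm_102

theorem s23_pm_102 : ∃ t, chk3 f_pm_102 t 6 4 1 = true := ex3_b s22_pm_102 k10_pm_102

theorem s24_pm_102 : ∃ t, chk3 f_pm_102 t 6 2 1 = true := ex3_b s23_pm_102 k11_pm_102

theorem s25_pm_102 : ∃ t, chk3 f_pm_102 t 3 2 1 = true := ex3_a s24_pm_102 s21_pm_102

theorem s26_pm_102 : ∃ t, chk3 f_pm_102 t 3 1 1 = true := ex3_b s25_pm_102 s18_pm_102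

theorem s27_pm_102 : ∃ t, chk3 f_pm_102 t 5 8 1 = true := ex3_a k3_pm_102 k4_pm_102

theorem s28_pm_102 : ∃ t, chk3 f_pm_102 t 5 4 1 = true := ex3_b s27_pm_102 k5_pm_102

theorem s29_pm_102 : ∃ t, chk3 f_pm_102 t 9 4 1 = true := ex3_a k1_pm_102 k2_pm_102

theorem s30_pm_102 : ∃ t, chk3 f_pm_102 t 4 4 1 = true := ex3_a k0_pm_102 s29_pm_102

theorem s31_pm_102 : ∃ t, chk3 f_pm_102 t 2 4 1 = true := ex3_a s30_pm_102 s28_pm_102

theorem s32_pm_102 : ∃ t, chk3 f_pm_102 t 2 2 1 = true := ex3_b s31_pm_102 k6_pm_102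

theorem s33_pm_102 : ∃ t, chk3 f_pm_102 t 2 1 1 = true := ex3_b s32_pm_102 k7_pm_102

theorem s34_pm_102 : ∃ t, chk3 f_pm_102 t 1 1 1 = true := ex3_a s33_pm_102 s26_pm_102

theorem c_pm_102 : CertB 536870912 536870912 1073741824 536870912 1020054732 13421774 3 eng mog cd0q1 cd3q2 pd0 false true false .npp 1 0 2
    ndB0q1 ndB3q2 pcB0 Cut.none xt_pm_102 :=
  certB0 (fam := false) (s1 := true) (s2 := false) (a := 1) (b := 0) (c := 2) (cn := .npp) (n1 := ndB0q1) (n2 := ndB3q2) (pc := pcB0) (cut := Cut.none) (xt := xt_pm_102) (P1 := 536870912) (W1 := 536870912) (P2 := 1073741824) (W2 := 536870912) (P3 := 1020054732) (W3 := 13421774) (N0 := 3) (En := eng) (mo := mog) (C1 := cd0q1) (C2 := cd3q2) (C3 := pd0)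
    rfl s34_pm_102

noncomputable def f_pm_112 : ℕ → ℕ → ℕ → ℕ → Bool := onCell 536870912 536870912 536870912 536870912 1020054732 13421774
    (rowB 3 eng mog cd0q1 cd3q2 pd1 1 false true false .dn 1 1 2 (qsf 536870912 536870912 1073741824 536870912 1) ndB0q1 ndB3q2 pcB1 Cut.none Ext.none)

def k0_pm_112 : ∃ t, chk3 f_pm_112 t 4 4 1 = true :=
  ⟨(b (a (b (b (a (c (a (c (l 15613704) (l 15723832)) (l 15652016)) (a (c (l 15837384) (l 15954400)) (l 15735488))) (c (a (l 15680680) (b (l 15686576) (l 15697208))) (c (l 15795944) (l 15915072)))) (a (c (a (l 15668608) (l 15693936)) (a (l 15773848) (l 15864680))) (c (a (l 15701528) (c (a (l 15655688) (l 15675952)) (l 15780168))) (a (l 15936368) (c (l 15894464) (l 16011288)))))) (b (a (c (a (l 15710480) (l 15714608)) (c (l 15887512) (l 16008256))) (c (a (c (l 15671480) (l 15785832)) (c (l 15717776) (l 15823984))) (a (c (l 15902520) (l 16021736)) (l 15819352)))) (c (a (a (l 15731016) (a (l 15733744) (l 15740232))) (a (b (l 15756928) (l 15782120)) (l 15822176))) (a (a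 (l 15968088) (c (l 15914136) (l 16035016))) (a (l 15805656) (l 16022400)))))) (b (a (a (c (b (c (a (l 15654104) (l 15680528)) (l 15778624)) (l 15774768)) (b (c (l 15889840) (l 16003576)) (l 15919784))) (c (b (l 15782656) (l 15834600)) (c (l 15951656) (l 16048864)))) (c (c (l 15712640) (l 15851688)) (c (l 15950320) (l 16071592)))) (c (a (b (l 15602704) (l 15834320)) (c (l 15936552) (l 16003272))) (a (c (l 15964232) (l 16073624)) (c (l 16071312) (l 16140760)))))) (a (a (b (c (b (a (b (l 15746160) (l 15756616)) (c (l 15718984) (l 15831632))) (a (c (l 15726728) (l 15841456)) (l 15822248))) (b (a (l 15822320) (l 15815784)) (a (l 15849752) (l 16016312)))) (c (b (a (l 15827432) (l 15868328)) (l 15891448)) (c (l 15876688) (l 16032456)))) (b (c (b (l 15635384) (l 15867392)) (c (l 15988224) (l 16084784))) (c (c (l 15902696) (l 15984584)) (l 15900352)))) (c (b (a (c (l 15914272) (l 15988912)) (l 15980000)) (a (l 15964416) (l 16057296))) (b (a (c (l 16064896) (l 16142328)) (l 16125016)) (a (l 16143704) (l 16174920)))))),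 by decide +kernel⟩

def k1_pm_112 : ∃ t, chk3 f_pm_112 t 5 4 1 = true :=
  ⟨(b (a (a (b (c (a (l 15952704) (l 16017968)) (c (l 16086288) (l 16147544))) (c (l 16023904) (l 16114048))) (c (b (l 16009376) (l 16075864)) (b (l 16067400) (l 16113432)))) (c (a (b (l 15846192) (c (l 15965584) (l 15995936))) (b (c (l 15726368) (l 15846112)) (c (l 15671352) (l 15829744)))) (a (b (l 15996304) (l 15990336)) (b (c (l 15944944) (l 16001880)) (c (l 15904552) (l 15979656)))))) (a (c (a (b (l 16075864) (l 16093376)) (b (l 16077792) (l 16007744))) (b (a (l 16172784) (l 16088720)) (a (l 16120336) (l 16045056)))) (c (a (b (a (l 15955808) (l 15870224)) (l 15664920)) (b (c (l 15628264) (l 15780560)) (c (l 15619240) (l 15741408)))) (a (b (l 15898248) (l 15885976)) (b (c (l 15870392) (l 15960688)) (c (l 15843144) (l 15945424))))))), by decide +kernel⟩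

def k2_pm_112 : ∃ t, chk3 f_pm_112 t 2 5 1 = true :=
  ⟨(a (b (a (a (b (c (c (l 15902864) (l 15991040)) (l 15979256)) (c (l 15982904) (l 16165168))) (c (b (l 15958008) (l 16039792)) (b (l 16149968) (l 16178416)))) (c (b (a (l 16044544) (l 16078920)) (a (l 16068784) (l 16089568))) (b (a (l 16172664) (l 16135800)) (a (l 16135552) (l 16075760))))) (a (c (b (a (l 16044440) (l 16065504)) (a (l 16070736) (l 16079360))) (b (a (l 16158528) (l 16119880)) (a (l 16089144) (l 16039536)))) (c (b (a (l 16081584) (l 16052360)) (a (l 16070488) (l 15982736))) (b (a (l 16065792) (l 16016864)) (a (l 15996448) (l 15959584)))))) (b (a (c (a (b (l 16078848) (l 16010688)) (b (l 15944824) (l 15806472))) (a (b (l 16069016) (l 16019640)) (b (l 15983264) (l 15966800)))) (c (a (b (l 15636784) (l 15640400)) (b (c (l 15603176) (l 15712952)) (c (l 15580640) (l 15695680)))) (a (b (l 15878056) (l 15874880)) (b (c (l 15823312) (l 15934232)) (l 15659536))))) (a (c (a (b (l 15949416) (l 15895840)) (b (l 15803168) (l 15809528))) (a (b (l 15972752)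 (l 15928664)) (b (l 15933136) (l 15903464)))) (c (a (b (l 15655280) (l 15702656)) (b (c (l 15572992) (l 15689880)) (c (l 15580408) (l 15695736)))) (a (b (l 15897704) (l 15883776)) (b (l 15740264) (l 15806440))))))), by decide +kernel⟩

def k3_pm_112 : ∃ t, chk3 f_pm_112 t 12 4 1 = true :=
  ⟨(b (c (a (b (c (a (l 15654560) (l 15530336)) (l 15552032)) (c (a (l 15587272) (l 15469872)) (l 15505256))) (b (c (a (l 15317776) (b (l 15282552) (l 15255824))) (a (l 15548856) (l 15360472))) (a (c (l 15243816) (l 15512200)) (c (a (l 15255608) (b (l 15201736) (l 15072384))) (b (l 15421600) (l 15312008)))))) (a (b (c (l 15785520) (l 15915040)) (c (l 15776992) (l 15902968))) (b (c (a (l 15697504) (l 15621896)) (l 15782448)) (a (c (l 15677296) (l 15843944)) (c (b (l 15611256) (l 15611152)) (l 15805984)))))) (b (a (c (c (a (l 15534008) (l 15424688)) (l 15490816)) (c (l 15755480) (l 15895440))) (b (c (a (l 15217480) (c (a (l 15233864) (l 15216768)) (l 15317656))) (a (l 15756240) (l 15547304))) (c (a (l 15185248) (a (c (l 15239608)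 (l 15433096)) (l 15346160))) (a (l 15755864) (l 15577848))))) (a (c (c (a (l 15495688) (l 15395632)) (l 15509416)) (c (l 15742496) (l 15892840))) (c (a (b (a (l 15411096) (l 15157904)) (a (l 15406408) (l 15274328))) (b (a (l 15253112) (l 15379016)) (l 15379080))) (c (a (l 15670064) (l 15653656)) (l 15697904)))))), by decide +kernel⟩

def k4_pm_112 : ∃ t, chk3 f_pm_112 t 13 4 1 = true :=
  ⟨(b (b (a (c (c (a (b (a (l 15178776) (a (l 15070600) (l 15086136))) (a (a (l 15172104) (l 15128640)) (l 15097032))) (b (l 15136208) (l 15219632))) (a (b (a (l 15372104) (l 15336400)) (a (l 15363160) (l 15357480))) (b (l 15364208) (l 15397176)))) (a (c (b (l 15556072) (l 15563112)) (l 15699344)) (c (l 15564624) (l 15749768)))) (c (a (b (c (l 15265456) (l 15422952)) (l 15147280)) (c (l 15353936) (l 15498392))) (a (c (l 15593024) (l 15748952)) (l 15496672)))) (a (c (a (b (a (b (c (l 15143472) (l 15365576)) (l 15108288)) (l 15232720)) (c (l 15223840) (l 15410304))) (b (c (l 15258912) (l 15427976)) (l 15208336))) (a (b (a (l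 15633288) (l 15677104)) (l 15693136)) (c (l 15608880) (l 15776288)))) (c (a (c (l 15356088) (l 15493400)) (b (l 15478944) (l 15504152))) (c (l 15560240) (l 15768448))))) (c (a (b (a (c (b (l 15262448) (l 15298952)) (l 15454376)) (c (l 15347456) (l 15495576))) (a (c (l 15349928) (l 15505688)) (b (l 15461240) (l 15485120)))) (b (a (b (l 15465480) (l 15489848)) (b (l 15526800) (l 15546896))) (a (l 15375296) (l 15572480)))) (a (b (c (l 15490384) (l 15799968)) (c (l 15667576) (l 15812752))) (b (c (l 15670640) (l 15779432)) (c (l 15667288) (l 15782224)))))), by decide +kernel⟩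

def k5_pm_112 : ∃ t, chk3 f_pm_112 t 6 5 1 = true :=
  ⟨(a (b (c (a (b (c (a (l 15473000) (l 15383336)) (l 15540640)) (a (l 15413800) (b (l 15304392) (l 15380096)))) (b (a (c (b (l 15298264) (l 15343432)) (l 15384856)) (c (l 15364320) (l 15524400))) (a (b (l 15457280) (l 15485376)) (l 15412144)))) (a (b (c (l 15738480) (l 15895488)) (a (l 15834784) (l 15603792))) (b (a (c (l 15687888) (l 15866304)) (l 15766320)) (a (l 15711472) (l 15781136))))) (a (c (b (a (l 15465640) (b (l 15503408) (l 15526096))) (a (l 15347176) (l 15543592))) (b (a (l 15844472) (l 15786152)) (c (l 15780008) (l 15918840)))) (c (b (c (l 15465952) (l 15598912)) (a (l 15569632) (l 2))) (b (l 15673192) (l 15802968))))) (a (a (b (c (b (c (l 15410128) (l 15548744)) (l 15522664)) (b (l 15757776) (l 15766944))) (b (c (l 15557760) (l 15768984)) (l 2))) (b (c (b (l 15454008) (l 15551368)) (b (l 15749472) (l 15752816))) (l 2))) (b (c (b (a (l 15556552) (l 15576688)) (a (l 15581760) (l 2))) (b (a (l 15741168) (l 15732624)) (l 15605664))) (l 2)))),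 by decide +kernel⟩

def k6_pm_112 : ∃ t, chk3 f_pm_112 t 7 2 1 = true :=
  ⟨(a (a (a (b (b (c (b (b (l 15500672) (l 15527072)) (b (l 15550728) (l 15571664))) (b (l 15700488) (l 15719656))) (b (c (l 15598184) (l 15729632)) (c (l 15602984) (l 15730792)))) (b (b (c (l 15639440) (l 15723632)) (l 2)) (l 2))) (b (b (b (c (l 15426480) (l 15715776)) (c (l 15632664) (l 15728912))) (b (c (l 15638672) (l 15732656)) (c (l 15738472) (l 15727464)))) (l 2))) (b (a (b (b (c (l 15675080) (l 15710000)) (c (l 15682920) (l 15737784))) (b (c (l 15867616) (l 15735040)) (c (l 15726360) (l 15723296)))) (b (b (c (l 15735136) (l 15829720)) (b (l 15737904) (l 15739840))) (b (b (l 15739072) (l 15735680)) (l 2)))) (l 2))) (b (a (b (a (c (b (l 15837016) (l 15844712)) (b (l 15739272) (l 15753528))) (b (c (a (l 15896688) (l 15876224)) (a (l 15769840) (l 15768432))) (c (a (l 15896032) (l 15889104)) (a (l 15757936) (l 15743792))))) (a (b (b (l 15624656) (l 2)) (l 2)) (l 2))) (b (a (b (c (l 15821624) (l 15711896)) (c (l 15783656) (l 15684632)))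 (b (c (l 15662552) (l 15625712)) (l 2))) (l 2))) (l 2))), by decide +kernel⟩

def k7_pm_112 : ∃ t, chk3 f_pm_112 t 1 3 1 = true :=
  ⟨(a (b (a (b (a (c (b (a (l 16084800) (l 16065352)) (a (l 16037128) (l 15974400))) (b (a (l 15997440) (l 15958904)) (a (l 15904792) (l 15878296)))) (c (b (a (l 15990944) (l 15919344)) (l 15805184)) (a (b (l 15927912) (l 15860360)) (b (l 15904192) (l 15850792))))) (a (c (b (l 15773848) (a (l 15832048) (l 15803176))) (b (a (l 15811392) (l 15797816)) (l 15549800))) (c (b (l 15829224) (l 15691096)) (b (l 15691832) (l 15655280))))) (a (b (c (a (b (l 15850336) (l 15813040)) (b (l 15783800) (l 15767904))) (b (a (l 15887560) (l 15877896)) (a (l 15849488) (l 15856424)))) (c (b (a (l 15783784) (l 15761576)) (l 15637384)) (b (a (l 15814352) (l 15838904)) (a (l 15781904) (l 15825032))))) (b (c (a (b (l 15719680) (l 15727216)) (b (l 15532208) (l 52711338743))) (a (b (l 15875104) (l 15871640)) (b (l 15879056) (l 43048068519)))) (a (b (c (l 15745888) (l 15873184)) (l 2)) (l 2))))) (a (b (a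 (c (a (l 15516352) (l 15557904)) (a (l 15364928) (l 15470896))) (c (a (l 15588384) (l 15628944)) (b (l 15598784) (l 15563736)))) (a (b (a (l 15421168) (l 15479904)) (a (l 15364064) (l 15420464))) (b (a (l 15530856) (l 2)) (l 2)))) (a (a (b (b (l 15687416) (l 2)) (l 2)) (l 2)) (l 2)))) (b (a (a (b (a (a (b (b (l 15509208) (l 2)) (l 2)) (l 2)) (l 2)) (l 2)) (l 2)) (l 2)) (l 2))), by decide +kernel⟩

theorem s8_pm_112 : ∃ t, chk3 f_pm_112 t 6 4 1 = true := ex3_a k3_pm_112 k4_pm_112

theorem s9_pm_112 : ∃ t, chk3 f_pm_112 t 6 2 1 = true := ex3_b s8_pm_112 k5_pm_112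

theorem s10_pm_112 : ∃ t, chk3 f_pm_112 t 3 2 1 = true := ex3_a s9_pm_112 k6_pm_112

theorem s11_pm_112 : ∃ t, chk3 f_pm_112 t 2 4 1 = true := ex3_a k0_pm_112 k1_pm_112

theorem s12_pm_112 : ∃ t, chk3 f_pm_112 t 2 2 1 = true := ex3_b s11_pm_112 k2_pm_112

theorem s13_pm_112 : ∃ t, chk3 f_pm_112 t 1 2 1 = true := ex3_a s12_pm_112 s10_pm_112

theorem s14_pm_112 : ∃ t, chk3 f_pm_112 t 1 1 1 = true := ex3_b s13_pm_112 k7_pm_112

theorem c_pm_112 : CertB 536870912 536870912 1073741824 536870912 1020054732 13421774 3 eng mog cd0q1 cd3q2 pd1 false true false .dn 1 1 2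
    ndB0q1 ndB3q2 pcB1 Cut.none Ext.none :=
  certB1 (fam := false) (s1 := true) (s2 := false) (a := 1) (b := 1) (c := 2) (cn := .dn) (n1 := ndB0q1) (n2 := ndB3q2) (pc := pcB1) (cut := Cut.none) (xt := Ext.none) (P1 := 536870912) (W1 := 536870912) (P2 := 1073741824) (W2 := 536870912) (P3 := 1020054732) (W3 := 13421774) (N0 := 3) (En := eng) (mo := mog) (C1 := cd0q1) (C2 := cd3q2) (C3 := pd1)
    rfl (fun _ => rfl) s14_pm_112

noncomputable def cut_pm_113 : Cut := Cut.of [[⟨0, 1, 0, 26738688⟩, ⟨1, 1, 0, 26738688⟩, ⟨2, 2, 0, 2621440⟩]]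

noncomputable def xt_pm_113 : Ext := extD3 3 ⟨4, 1, 1, 5, 99, 20, 33, 40, 51, 125, 1, 32⟩ eng cd0q1 cd3q3 pd1 false true false .nn 1 1 3 rfl ndB0q1 ndB3q3 pcB1

noncomputable def f_pm_113 : ℕ → ℕ → ℕ → ℕ → Bool := onCell 536870912 536870912 0 1230186008 1020054732 13421774
    (rowB 3 eng mog cd0q1 cd3q3 pd1 0 false true false .nn 1 1 3 (qsf 536870912 536870912 0 1230186008 1) ndB0q1 ndB3q3 pcB1 cut_pm_113 xt_pm_113)

def k0_pm_113 : ∃ t, chk3 f_pm_113 t 2 2 1 = true :=
  ⟨(l 2), by decide +kernel⟩

def k1_pm_113 : ∃ t, chk3 f_pm_113 t 6 2 1 = true :=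
  ⟨(l 2), by decide +kernel⟩

def k2_pm_113 : ∃ t, chk3 f_pm_113 t 7 4 1 = true :=
  ⟨(a (l 2) (a (l 2) (b (a (l 2) (a (l 2) (b (l 6) (a (l 143254648237949007) (a (l 143473726027153487) (a (l 143593160505180239) (a (l 143773411706454095) (b (b (l 16765088) (l 16755360)) (b (l 16777136) (l 16777920)))))))))) (a (b (l 2) (a (l 142114248249524431) (l 141857031358726223))) (a (b (l 142512821389279311) (l 142101260411682895)) (a (b (l 142994270157193295) (l 142234507602313295)) (a (b (l 143247913803808847) (l 142149639112065103)) (a (b (l 143301721183436879) (b (l 143292512803799119) (l 142907546269810767))) (b (b (b (l 16757216) (l 16762008)) (b (l 16768032) (l 16766792))) (b (b (l 16763088) (l 16757848)) (b (l 16751312) (l 16743936)))))))))))), by decide +kernel⟩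

def k3_pm_113 : ∃ t, chk3 f_pm_113 t 7 5 1 = true :=
  ⟨(b (a (b (l 2) (a (l 2) (a (l 2) (b (l 2) (a (l 2) (l 15795888)))))) (a (a (b (l 2) (l 137163489955332111)) (b (b (l 140699245335560207) (l 140794834153717775)) (b (l 140200341850734607) (l 138782383704965135)))) (b (a (a (b (l 141479623931871439) (l 16509648)) (b (a (l 142333463551934543) (l 142635554457174095)) (l 142367479694868559))) (b (a (l 141657882378240079) (a (l 141455572370718799) (a (b (l 142852845574717519) (l 142995438520680527)) (b (b (l 16743320) (c (l 16766488) (l 16754448))) (c (l 16742200) (l 16729864)))))) (a (l 141959904528302159) (a (l 142336281222398031) (a (l 142658438150570063) (b (l 597126582043159335145503) (l 598193610895673005330463))))))) (a (b (a (l 141950283681005775) (l 142018453529722959)) (a (l 139499540410892495) (l 139345333977808975))) (b (a (l 141754295868194895) (a (l 141753058847408207) (b (l 593579330803860127846431) (l 594638577436217309630495)))) (a (l 138895290112098383) (a (l 138455073084751951) (b (l 591129084376193760333855)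 (l 585722170749963535438367))))))))) (a (a (b (l 2) (a (l 15482152) (l 15474480))) (b (a (l 15577112) (a (l 15608992) (l 15656720))) (a (l 15483176) (b (l 15536616) (l 15491024))))) (a (b (a (l 135447083053629455) (a (l 135914375743701007) (l 136265669839224847))) (a (b (l 15654080) (l 15586752)) (a (l 15695888) (l 15943000)))) (b (a (a (l 136206433733492943) (l 135856239310979151)) (a (b (l 136386547692191823) (l 134614340746231887)) (a (l 137189946855096399) (b (c (l 582437209152962325533215) (l 15986096)) (b (l 15945528) (l 15875440)))))) (a (a (l 132964523171512527) (b (l 15816920) (l 15718864))) (a (b (l 133416353840726095) (l 15798360)) (b (c (l 15854160) (l 15733768)) (c (l 15755184) (l 15655552))))))))), by decide +kernel⟩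

def k4_pm_113 : ∃ t, chk3 f_pm_113 t 2 6 1 = true :=
  ⟨(a (l 2) (b (l 2) (a (l 2) (b (l 2) (a (l 2) (b (l 2) (l 15771000))))))), by decide +kernel⟩

def k5_pm_113 : ∃ t, chk3 f_pm_113 t 3 12 1 = true :=
  ⟨(a (a (l 2) (a (b (l 2) (a (l 15546544) (l 15503384))) (b (a (l 15491488) (l 15459288)) (c (l 15621736) (l 15442600))))) (a (a (b (c (l 15520632) (l 15412456)) (c (a (l 15453336) (l 15453296)) (l 15514224))) (b (a (c (l 15467456) (l 15401632)) (b (l 15459080) (l 15440544))) (a (c (l 15462408) (l 15397664)) (b (l 15435048) (l 15526048))))) (a (b (a (b (l 15537280) (l 15504224)) (b (l 15613016) (l 15569512))) (a (b (l 15486680) (l 15504616)) (b (l 15544176) (l 15535176)))) (b (b (a (a (l 15643280) (l 15648912)) (a (l 15647352) (c (l 15684848) (l 15602680)))) (a (a (l 15596264) (l 15602200)) (c (l 15639536) (l 15567600)))) (a (b (c (l 15609992) (l 15533976)) (a (l 15557968) (l 15564672))) (b (c (l 15609456) (l 15550352)) (c (l 15595776) (l 15547904)))))))), by decide +kernel⟩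

def k6_pm_113 : ∃ t, chk3 f_pm_113 t 3 13 1 = true :=
  ⟨(a (a (b (a (b (l 2) (l 15694416)) (b (l 15600264) (l 15591744))) (a (b (l 15678200) (l 15671856)) (b (l 15593448) (l 15687776)))) (b (a (b (l 15516568) (l 15545384)) (c (b (l 15481616) (l 15496232)) (b (l 15456152) (l 15476816)))) (a (b (a (l 15550200) (l 15529816)) (c (l 15558568) (l 15562304))) (c (b (l 15517472) (l 15544680)) (b (l 15505152) (l 15540752)))))) (a (b (b (a (a (l 15452976) (l 15450544)) (a (l 15453528) (c (l 15502384) (l 15419872)))) (a (c (l 15494560) (l 15456728)) (a (l 15481752) (l 15595432)))) (a (c (b (l 15525328) (l 15562976)) (b (l 15491184) (l 15533600))) (c (a (l 15612992) (b (l 15570808) (l 15620000))) (a (l 15512384) (l 15725264))))) (a (b (a (a (b (l 15480016) (l 15506352)) (l 15623224)) (b (l 15541024) (l 15560496))) (a (c (b (l 15600064) (l 15649752)) (b (l 15511512) (l 15559696))) (b (l 15592552) (l 15636312)))) (b (a (b (c (l 15594856) (l 15535808)) (c (l 15609016) (l 15556112))) (b (c (l 15596104) (l 15558136)) (c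 (l 15608600) (l 15579424)))) (a (b (c (l 15635680) (l 15587576)) (c (l 15673688) (l 15629144))) (b (c (l 15631808) (l 15610456)) (c (l 15664624) (l 15650200)))))))), by decide +kernel⟩

def k7_pm_113 : ∃ t, chk3 f_pm_113 t 2 7 1 = true :=
  ⟨(a (b (l 2) (a (b (l 2) (b (a (l 2) (c (l 14927192) (l 14787232))) (a (c (l 14823160) (l 14674656)) (c (l 15043128) (l 14907872))))) (b (a (b (l 2) (c (l 15057096) (l 14926248))) (b (c (l 15208456) (l 15087824)) (c (l 15258992) (l 15153080)))) (b (a (c (l 15139384) (l 15018032)) (c (l 15321496) (l 15236072))) (a (c (l 15235360) (l 15129208)) (c (l 15393936) (l 15326968))))))) (b (a (b (a (l 2) (b (l 2) (c (l 15572664) (l 15459712)))) (a (b (l 2) (c (l 15376944) (l 15268344))) (b (c (l 15558336) (l 15464392)) (c (l 15550072) (l 15482152))))) (b (a (b (a (l 2) (l 15783424)) (a (l 15665792) (l 15753216))) (b (l 15756040) (a (l 15771192) (l 15733256)))) (a (b (c (l 15712440) (l 15668440)) (c (l 15682984) (l 15673992))) (b (a (l 15744696) (l 15738240)) (a (c (l 15738624) (l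 15778096)) (l 15746008)))))) (a (b (a (b (c (l 15397392) (l 15309056)) (c (l 15427976) (l 15365272))) (b (c (l 15550096) (l 15512712)) (c (l 15557488) (l 15549256)))) (a (b (c (l 15467144) (l 15428416)) (c (l 15517616) (l 15499728))) (b (c (l 15574960) (l 15593248)) (c (l 15605232) (l 15520304))))) (b (a (b (c (l 15660016) (l 15684968)) (c (l 15646096) (l 15702856))) (b (c (a (l 15710952) (l 15705024)) (a (l 15788784) (l 15804864))) (c (a (l 15685216) (l 15688920)) (a (l 15797360) (l 15830496))))) (a (b (c (l 15476008) (l 15498352)) (c (a (l 15646760) (l 15662520)) (c (l 15737904) (l 15791464)))) (b (c (a (l 15669320) (l 15672936)) (a (l 15811192) (l 15852536))) (c (c (l 15600008) (l 15715144)) (c (l 15808400) (l 15900440))))))))), by decide +kernel⟩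

def k8_pm_113 : ∃ t, chk3 f_pm_113 t 6 7 1 = true :=
  ⟨(b (a (b (a (b (l 15675864) (l 15685280)) (b (c (l 15613432) (l 15625168)) (c (l 15623224) (l 15657024)))) (a (b (c (l 15675848) (l 15719984)) (c (l 15675392) (l 15752648))) (b (a (l 15671344) (l 15660624)) (c (l 15649584) (l 15734888))))) (b (a (b (c (l 15578320) (l 15596736)) (c (l 15601968) (l 15636992))) (c (b (l 15577080) (l 15613736)) (b (l 15583080) (l 15631448)))) (a (c (b (l 15628424) (l 15782264)) (b (l 15682280) (l 15731632))) (c (b (l 15821328) (l 15590336)) (b (l 15664048) (l 15742752)))))) (a (b (a (b (c (l 15674936) (l 15788456)) (c (l 15672936) (l 15826144))) (b (c (l 15642536) (l 15778880)) (c (l 15591920) (l 15824544)))) (a (c (b (a (l 15669416) (l 15668936)) (a (b (l 15659480) (l 15654872)) (l 15661728))) (b (a (l 15865120) (l 15864440)) (a (l 15727792) (l 15903008)))) (c (b (a (l 15677448) (l 15694008)) (a (l 15677144) (l 15700536))) (b (l 15765464) (c (l 15858032) (l 15970248)))))) (b (a (c (b (l 15642576) (a (l 15699264) (l 15724792)))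 (b (l 15783888) (l 15795696))) (c (b (a (l 15721192) (l 15755000)) (a (l 15758056) (l 15798768))) (b (l 15803376) (a (l 15857152) (l 15874664))))) (a (c (b (a (l 15718560) (l 15750992)) (a (l 15731872) (l 15771040))) (b (c (l 15851960) (l 15930336)) (c (l 15894592) (l 15990312)))) (c (b (a (l 15791120) (l 15838704)) (a (l 15817864) (l 15872160))) (b (a (l 15916640) (l 15938176)) (a (l 15973520) (l 15998824)))))))), by decide +kernel⟩

def k9_pm_113 : ∃ t, chk3 f_pm_113 t 14 7 1 = true :=
  ⟨(b (b (a (c (b (l 15627656) (a (l 15642536) (l 15669952))) (c (l 15826208) (l 15585904))) (a (c (b (l 15645376) (l 15703136)) (l 15622944)) (c (b (l 15677376) (l 15741632)) (b (l 15600600) (l 15667640))))) (a (c (b (a (l 15691984) (l 15725776)) (a (l 15743648) (l 15784184))) (b (l 15701608) (l 15746984))) (c (b (a (l 15765560) (l 15811192)) (a (l 15831008) (l 15884256))) (b (a (l 15722848) (l 15741080)) (a (l 15796152) (l 15819432)))))) (b (a (c (b (a (l 15795848) (l 15843384)) (a (l 15846576) (l 15901240))) (b (a (l 15827512)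 (l 15848144)) (a (l 15895904) (l 15920984)))) (c (b (a (l 15897536) (l 15958664)) (a (l 15962840) (l 16031912))) (b (a (l 15872536) (l 15900896)) (a (l 15950064) (l 15983384))))) (a (c (b (a (l 15893456) (l 15955224)) (a (l 15933688) (l 16002376))) (b (a (l 15963544) (l 15992904)) (a (l 16028032) (l 16061336)))) (c (b (a (l 16024224) (l 16059152)) (a (l 16078504) (l 16162792))) (b (a (l 16026432) (l 16064432)) (a (l 16098944) (l 16099216))))))), by decide +kernel⟩

def k10_pm_113 : ∃ t, chk3 f_pm_113 t 15 7 1 = true :=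
  ⟨(b (a (b (a (b (a (l 15657928) (l 15672656)) (c (l 15781312) (l 15687240))) (b (l 15690976) (l 15671904))) (a (b (c (a (l 15849584) (l 15869496)) (l 15764160)) (c (a (l 15928920) (l 15956728)) (l 15847480))) (b (c (l 15868304) (l 15790336)) (c (l 15953768) (l 15870272))))) (b (a (b (c (l 15722104) (l 15679904)) (c (l 15780120) (l 15739048))) (b (c (l 15706144) (l 15697776)) (c (l 15755680) (l 15752456)))) (a (b (c (l 15847008) (l 15805792)) (c (l 15922064) (l 15879344))) (b (c (l 15812664) (l 15813600)) (c (l 15876600) (l 15880592)))))) (a (b (c (a (b (a (l 16009744) (l 16045880)) (l 16109608)) (b (l 16045616) (a (l 16153552) (l 16137304)))) (b (a (l 15829816) (l 15955824)) (a (l 16000360) (l 16046864)))) (a (b (c (l 16187072) (l 16107304)) (c (l 16214552) (l 16188400))) (a (b (c (l 16228696) (l 16139688)) (c (l 16173864) (l 16227288))) (b (l 16130200) (c (l 16205888) (l 16236512)))))) (b (a (b (c (l 16004536) (l 15958824)) (c (l 16093552) (l 16043184))) (b (c (l 15947032) (l 15952800)) (c (l 16002512)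 (l 16029544)))) (b (a (c (l 16187984) (l 16131064)) (c (l 16105336) (l 16109928))) (a (c (l 16233640) (l 16220648)) (c (l 16191704) (l 16192760))))))), by decide +kernel⟩

theorem s11_pm_113 : ∃ t, chk3 f_pm_113 t 7 7 1 = true := ex3_a k9_pm_113 k10_pm_113

theorem s12_pm_113 : ∃ t, chk3 f_pm_113 t 3 7 1 = true := ex3_a k8_pm_113 s11_pm_113

theorem s13_pm_113 : ∃ t, chk3 f_pm_113 t 1 7 1 = true := ex3_a k7_pm_113 s12_pm_113

theorem s14_pm_113 : ∃ t, chk3 f_pm_113 t 3 6 1 = true := ex3_b k5_pm_113 k6_pm_113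

theorem s15_pm_113 : ∃ t, chk3 f_pm_113 t 1 6 1 = true := ex3_a k4_pm_113 s14_pm_113

theorem s16_pm_113 : ∃ t, chk3 f_pm_113 t 1 3 1 = true := ex3_b s15_pm_113 s13_pm_113

theorem s17_pm_113 : ∃ t, chk3 f_pm_113 t 7 2 1 = true := ex3_b k2_pm_113 k3_pm_113

theorem s18_pm_113 : ∃ t, chk3 f_pm_113 t 3 2 1 = true := ex3_a k1_pm_113 s17_pm_113

theorem s19_pm_113 : ∃ t, chk3 f_pm_113 t 1 2 1 = true := ex3_a k0_pm_113 s18_pm_113

theorem s20_pm_113 : ∃ t, chk3 f_pm_113 t 1 1 1 = true := ex3_b s19_pm_113 s16_pm_113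

theorem c_pm_113 : CertB 536870912 536870912 0 1230186008 1020054732 13421774 3 eng mog cd0q1 cd3q3 pd1 false true false .nn 1 1 3
    ndB0q1 ndB3q3 pcB1 cut_pm_113 xt_pm_113 :=
  certB0 (fam := false) (s1 := true) (s2 := false) (a := 1) (b := 1) (c := 3) (cn := .nn) (n1 := ndB0q1) (n2 := ndB3q3) (pc := pcB1) (cut := cut_pm_113) (xt := xt_pm_113) (P1 := 536870912) (W1 := 536870912) (P2 := 0) (W2 := 1230186008) (P3 := 1020054732) (W3 := 13421774) (N0 := 3) (En := eng) (mo := mog) (C1 := cd0q1) (C2 := cd3q3) (C3 := pd1)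
    rfl s20_pm_113

noncomputable def cut_pm_123 : Cut := Cut.of [[⟨0, 1, 0, 26738688⟩, ⟨1, 1, 0, 26738688⟩, ⟨2, 2, 0, 2621440⟩]]

noncomputable def xt_pm_123 : Ext := extD3 3 ⟨4, 1, 1, 5, 99, 20, 33, 40, 51, 125, 1, 32⟩ eng cd0q1 cd3q3 pd2 false true false .npn 1 2 3 rfl ndB0q1 ndB3q3 pcB2

noncomputable def f_pm_123 : ℕ → ℕ → ℕ → ℕ → Bool := onCell 1073741824 536870912 0 1230186008 1020054732 13421774
    (rowB 3 eng mog cd0q1 cd3q3 pd2 2 false true false .npn 1 2 3 (qsf 536870912 536870912 0 1230186008 2) ndB0q1 ndB3q3 pcB2 cut_pm_123 xt_pm_123)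

def k0_pm_123 : ∃ t, chk3 f_pm_123 t 1 4 1 = true :=
  ⟨(a (a (a (a (b (b (a (l 6) (a (l 16708880) (l 16674872))) (b (a (a (l 143695002732511311) (l 16748400)) (a (l 16717112) (l 16680248))) (a (a (l 143573781555724367) (l 16713320)) (a (l 16678784) (l 16658712))))) (b (a (a (b (l 16746984) (l 142986298689273935)) (a (l 142829618244304975) (l 16628616))) (a (l 16638552) (l 16616512))) (a (b (a (l 16703096) (l 16659016)) (l 16606240)) (l 16577576)))) (a (b (b (l 16577040) (l 16610248)) (b (l 16555680) (l 16489600))) (b (l 16524400) (b (l 16472224) (l 16402552))))) (b (a (l 16320880) (l 16262584)) (a (b (l 16348128) (l 16272592)) (l 15949248)))) (a (b (a (l 16097416) (l 15931928)) (a (l 15967464) (l 15797912))) (b (l 15687984) (a (l 15630440) (l 15466160))))) (a (a (b (l 15371768) (l 15230040)) (b (l 15076672) (l 14933224))) (a (l 14566312) (b (l 14580776) (a (l 14502224) (l 14511688)))))), by decide +kernel⟩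

def k1_pm_123 : ∃ t, chk3 f_pm_123 t 1 5 1 = true :=
  ⟨(a (b (a (a (b (a (a (b (b (l 16579896) (l 16602920)) (l 16530216)) (b (l 16467576) (l 16276904))) (b (l 16278408) (l 16139312))) (a (b (a (l 16245248) (l 16095496)) (a (l 16114760) (l 15927936))) (b (l 16000392) (l 15864960)))) (b (b (a (l 16131224) (l 15983096)) (a (l 16013512) (l 15877104))) (a (b (l 15894080) (l 15774728)) (b (l 15768504) (l 15658488))))) (b (a (b (l 15492904) (l 15629248)) (b (l 15413128) (l 15328760))) (a (a (l 15573640) (l 15424408)) (a (l 15270312) (l 15115376))))) (a (a (b (a (a (b (l 15815312) (l 15653000)) (l 15703600)) (a (l 15683264) (l 15655744))) (a (a (b (l 15516896) (l 15401944)) (l 15458736)) (a (l 15449776) (l 15428112)))) (b (a (l 15597552) (l 15491640)) (a (l 15375440) (l 15275384)))) (a (b (a (l 15364080) (l 15223768)) (a (l 15153120) (l 15017632))) (b (l 15004296) (a (l 14875192) (l 14730312)))))) (b (a (b (a (b (l 15091432) (l 15013664)) (l 14756808)) (a (l 14889024) (l 14603384))) (b (a (l 14493984) (a (l 14424048)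 (l 14654848))) (a (a (l 14408344) (l 14377800)) (l 14567160)))) (a (a (b (l 14709352) (l 14516848)) (b (l 14428440) (a (l 14327320) (l 14119944)))) (a (a (b (l 14338304) (l 14484256)) (l 14628416)) (a (l 14945872) (l 1)))))), by decide +kernel⟩

def k2_pm_123 : ∃ t, chk3 f_pm_123 t 1 6 1 = true :=
  ⟨(a (a (a (b (b (a (a (b (l 15304024) (l 15219816)) (l 15263016)) (a (l 15251472) (l 15226960))) (a (b (l 15230376) (l 15120232)) (b (l 15109544) (l 15028984)))) (b (a (b (l 15037792) (l 14960984)) (b (l 14953720) (l 14883232))) (a (b (l 14951872) (a (l 14885448) (l 14838480))) (b (l 14817112) (l 14755088))))) (b (b (a (b (l 15220896) (l 15123144)) (l 15068744)) (a (b (l 15029912) (l 14941048)) (b (l 14921760) (l 14827400)))) (b (a (b (l 14856328) (l 14775592)) (b (l 14736208) (l 14648232))) (a (b (l 14698696) (l 14625608)) (b (l 14563560) (l 14482352)))))) (b (a (b (a (l 14946064) (l 14811176)) (a (l 14746016) (l 14607960))) (b (a (l 14669928) (l 14526624)) (a (l 14465000) (l 14185560)))) (a (b (a (l 14554912)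 (b (l 14459376) (l 14359592))) (a (b (l 14418392) (a (l 14377976) (l 14331776))) (b (a (l 14319264) (l 14284136)) (a (l 14321120) (l 14340568))))) (b (a (b (l 14314880) (a (l 14272512) (l 14253408))) (b (a (l 14239080) (l 14244168)) (l 14316528))) (a (l 14354432) (l 14471208)))))) (a (b (a (b (a (l 14384512) (b (l 14296984) (l 14222992))) (a (b (l 14254392) (a (l 14222888) (l 14265280))) (a (l 14286960) (l 14378304)))) (b (a (a (l 14241136) (l 14322592)) (l 14499736)) (a (l 14536344) (l 14783088)))) (a (b (a (l 14400664) (l 14586288)) (a (l 14640368) (l 14854608))) (b (a (l 14815384) (l 1)) (l 1)))) (b (a (a (l 138542016423) (l 1)) (l 1)) (l 1)))), by decide +kernel⟩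

def k3_pm_123 : ∃ t, chk3 f_pm_123 t 1 7 1 = true :=
  ⟨(a (a (b (a (b (a (b (a (l 14846920) (l 14791248)) (a (l 14811896) (l 14747808))) (b (l 14697032) (a (l 14678888) (l 14605464)))) (a (b (a (l 14780472) (l 14705528)) (a (b (l 14755384) (l 14730944)) (b (l 14673992) (l 14637152)))) (b (a (b (l 14642312) (l 14619392)) (l 14558320)) (a (l 14576784) (l 14517488))))) (b (a (b (l 14556432) (a (l 14532128) (l 14470040))) (b (a (l 14448680) (l 14394088)) (a (l 14426056) (l 14405496)))) (a (b (a (l 14497496) (l 14457696)) (a (l 14477712) (l 14455664))) (b (l 14431152) (l 14495640))))) (a (b (a (b (a (l 14642128) (l 14584192)) (a (l 14557952) (l 14519400))) (b (a (l 14524536) (l 14484528)) (a (l 14479128) (l 14458416)))) (a (b (b (l 14475128) (l 14444448)) (a (l 14374680) (l 14396120))) (b (a (l 14442128) (l 14440688)) (b (l 14404272) (l 1))))) (b (a (b (a (l 14463648) (l 14459336)) (a (l 14456416) (l 14469760))) (b (l 14481864) (l 14516688))) (a (b (b (l 14467520) (l 1)) (l 1)) (l 1))))) (b (a (b (a (b (a (l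 14365976) (l 14365432)) (l 14406840)) (b (l 14394776) (l 14464448))) (a (b (l 14454336) (l 14506560)) (b (l 14538200) (l 14616464)))) (b (a (b (l 14487240) (l 14580032)) (l 14542872)) (l 1))) (a (b (a (b (l 14564216) (l 1)) (l 1)) (l 1)) (l 1)))) (l 1)), by decide +kernel⟩

theorem s4_pm_123 : ∃ t, chk3 f_pm_123 t 1 3 1 = true := ex3_b k2_pm_123 k3_pm_123

theorem s5_pm_123 : ∃ t, chk3 f_pm_123 t 1 2 1 = true := ex3_b k0_pm_123 k1_pm_123

theorem s6_pm_123 : ∃ t, chk3 f_pm_123 t 1 1 1 = true := ex3_b s5_pm_123 s4_pm_123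

theorem c_pm_123 : CertB 536870912 536870912 0 1230186008 1020054732 13421774 3 eng mog cd0q1 cd3q3 pd2 false true false .npn 1 2 3
    ndB0q1 ndB3q3 pcB2 cut_pm_123 xt_pm_123 :=
  certB2 (fam := false) (s1 := true) (s2 := false) (a := 1) (b := 2) (c := 3) (cn := .npn) (n1 := ndB0q1) (n2 := ndB3q3) (pc := pcB2) (cut := cut_pm_123) (xt := xt_pm_123) (P1 := 536870912) (W1 := 536870912) (P2 := 0) (W2 := 1230186008) (P3 := 1020054732) (W3 := 13421774) (N0 := 3) (En := eng) (mo := mog) (C1 := cd0q1) (C2 := cd3q3) (C3 := pd2)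
    rfl (fun _ => rfl) s6_pm_123

noncomputable def f_pm_133 : ℕ → ℕ → ℕ → ℕ → Bool := onCell 536870912 536870912 0 1230186008 1020054732 13421774
    (rowB 3 eng mog cd0q1 cd3q3 pd3 0 false true false .dn 1 3 3 (qsf 536870912 536870912 0 1230186008 3) ndB0q1 ndB3q3 pcB3 Cut.none Ext.none)

def k0_pm_133 : ∃ t, chk3 f_pm_133 t 1 1 1 = true :=
  ⟨(b (b (a (a (a (l 16568568) (l 1)) (l 1)) (l 1)) (l 1)) (l 1)), by decide +kernel⟩

theorem c_pm_133 : CertB 536870912 536870912 0 1230186008 1020054732 13421774 3 eng mog cd0q1 cd3q3 pd3 false true false .dn 1 3 3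
    ndB0q1 ndB3q3 pcB3 Cut.none Ext.none :=
  certB0 (fam := false) (s1 := true) (s2 := false) (a := 1) (b := 3) (c := 3) (cn := .dn) (n1 := ndB0q1) (n2 := ndB3q3) (pc := pcB3) (cut := Cut.none) (xt := Ext.none) (P1 := 536870912) (W1 := 536870912) (P2 := 0) (W2 := 1230186008) (P3 := 1020054732) (W3 := 13421774) (N0 := 3) (En := eng) (mo := mog) (C1 := cd0q1) (C2 := cd3q3) (C3 := pd3)
    rfl k0_pm_133

noncomputable def f_pm_202 : ℕ → ℕ → ℕ → ℕ → Bool := onCell 0 536870912 0 536870912 1020054732 13421774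
    (rowB 3 eng mog cd0q2 cd3q2 pd0 1 false true false .pp 2 0 2 (qsf 0 536870912 1073741824 536870912 0) ndB0q2 ndB3q2 pcB0 Cut.none Ext.none)

def k0_pm_202 : ∃ t, chk3 f_pm_202 t 2 1 1 = true :=
  ⟨(l 3), by decide +kernel⟩

def k1_pm_202 : ∃ t, chk3 f_pm_202 t 6 1 1 = true :=
  ⟨(l 3), by decide +kernel⟩

def k2_pm_202 : ∃ t, chk3 f_pm_202 t 14 1 1 = true :=
  ⟨(b (l 3) (l 3)), by decide +kernel⟩

def k3_pm_202 : ∃ t, chk3 f_pm_202 t 60 2 1 = true :=
  ⟨(b (a (l 3) (a (b (b (b (l 3) (l 3)) (l 3)) (l 3)) (b (b (b (b (b (b (a (b (a (b (a (c (b (l 16565656) (l 16555904)) (b (a (c (l 16551104) (b (l 16541360) (l 16552120))) (l 16547296)) (a (l 16546976) (l 16547704)))) (c (l 16578424) (l 16549184))) (a (c (l 16557152) (c (l 16553208) (b (l 16543088) (l 16543768)))) (c (l 16558568) (b (a (l 16538544) (l 16560528)) (l 16539576))))) (c (l 16582120) (l 16542536))) (a (c (b (b (l 16558968) (l 16559824)) (a (l 16560320) (l 16561592))) (b (b (a (a (l 16559192) (l 16549704)) (l 16561160)) (a (l 16550144) (l 16551248)))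 (a (l 16550968) (b (l 16551976) (l 16552704))))) (b (a (c (l 16561440) (b (l 16541752) (l 16563192))) (l 16574888)) (c (l 16563784) (a (l 16564192) (l 16544728)))))) (c (l 16589616) (l 16550368))) (a (a (b (a (b (l 16546280) (l 16552856)) (a (l 16553664) (b (l 16553888) (l 16576344)))) (a (l 16554904) (l 16556824))) (b (b (a (l 16575760) (l 16555920)) (a (l 16556376) (l 16578488))) (a (c (l 16589912) (l 16569264)) (l 16559992)))) (b (a (b (a (l 16557400) (l 16580688)) (l 16559560)) (l 16584648)) (a (l 16561736) (b (l 16585216) (l 16565144)))))) (b (b (a (a (l 52780669239) (a (l 16561568) (l 16563152))) (a (l 16585872) (l 16567264))) (a (a (l 16561336) (l 16565248)) (a (l 16589064) (l 16591328)))) (a (a (l 16555056) (l 16569272)) (a (b (l 16592240) (l 16595336)) (l 16596240))))) (b (a (b (l 16557320) (l 16578760)) (b (a (l 16578664) (l 16581584)) (l 16586024))) (a (l 16566664) (l 16594432)))) (b (b (l 16582056) (l 16594448)) (l 16593024))) (b (b (l 16620704) (l 16587840)) (b (l 16569552) (l 16532680)))) (b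 (b (l 16438648) (l 16393344)) (l 3))))) (b (l 3) (l 3))), by decide +kernel⟩

def k4_pm_202 : ∃ t, chk3 f_pm_202 t 61 2 1 = true :=
  ⟨(b (b (b (b (b (a (b (b (a (c (l 16603072) (l 16586448)) (l 16593280)) (a (c (l 16607016) (l 16588552)) (l 16597704))) (a (b (a (b (a (l 16570472) (l 16596576)) (b (l 16574000) (l 16575144))) (l 16605056)) (a (b (l 16577272) (l 16601152)) (b (l 16584720) (l 16586072)))) (b (l 16600768) (l 16602576)))) (b (a (l 16616520) (l 16637912)) (b (l 16635288) (l 16618024)))) (a (b (a (b (a (l 16606032) (l 16590064)) (a (b (l 16610896) (l 16614064)) (l 16616928))) (b (b (l 16581936) (l 16582304)) (a (l 16601328) (l 16609448)))) (a (a (l 16579712) (l 16605608)) (b (l 16589448) (l 16636672)))) (b (b (l 16620496) (l 16621816)) (a (b (l 16607680) (a (l 16624432) (l 16655720))) (l 16657200))))) (b (a (a (b (a (l 16612832) (l 16618216)) (l 16606640)) (c (l 16625528) (l 16617744))) (b (a (b (l 16613160) (l 16660328)) (b (l 16656152) (l 16635344))) (a (l 16649336) (l 16621376)))) (a (a (l 16603792)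 (a (l 16612024) (l 16617280))) (l 16611144)))) (b (b (a (a (l 16626696) (l 16624912)) (a (l 16622064) (l 16638616))) (a (l 16566728) (l 16563000))) (a (b (l 16549280) (l 16533160)) (b (l 16548000) (l 16512024))))) (c (b (b (a (l 16496920) (l 16495336)) (a (l 16425928) (l 16422920))) (b (l 16272752) (l 16272048))) (b (b (a (l 16526320) (l 16547000)) (l 16397760)) (b (l 16378072) (l 16362376))))) (b (b (b (a (l 16149240) (l 16244560)) (a (l 16117688) (l 16189752))) (b (c (l 16123912) (l 16209440)) (c (l 16074528) (l 16164696)))) (b (b (c (l 16028504) (l 16122856)) (l 82307168887)) (c (l 15864616) (l 16030216))))), by decide +kernel⟩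

def k5_pm_202 : ∃ t, chk3 f_pm_202 t 30 3 1 = true :=
  ⟨(b (a (l 3) (b (b (c (l 15860224) (l 15967496)) (l 69958691671)) (b (l 15749800) (l 15775448)))) (b (b (l 175722049367) (l 198807455271)) (b (l 203639261815) (l 420535088663)))), by decide +kernel⟩

def k6_pm_202 : ∃ t, chk3 f_pm_202 t 31 2 1 = true :=
  ⟨(b (b (b (b (a (b (b (a (l 16649616) (l 16713640)) (a (l 16665048) (l 16714976))) (a (b (l 16653880) (l 16658864)) (a (l 16672008) (l 16654424)))) (b (b (a (b (l 16728016) (l 16731272)) (l 16709504)) (a (l 16687472) (a (l 16688416) (l 16674504)))) (a (b (l 16681968) (l 16660480)) (b (l 16585760) (l 16624704))))) (b (a (a (b (l 16660584) (b (l 16679360) (l 16635672))) (b (l 16663352) (l 16632256))) (a (a (l 16625488) (l 16625200)) (l 16551864))) (a (a (a (b (l 16647528) (l 16683256)) (b (l 16662632) (b (l 16679096) (l 16631112)))) (b (l 16625192) (l 16600120))) (b (a (l 16618832) (l 16571408)) (a (l 16611544) (l 16560896)))))) (b (b (a (a (b (l 16620328) (l 16643512)) (b (l 16575504) (l 16587512)))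 (b (l 16479664) (l 16500560))) (a (b (a (l 16625152) (l 16594400)) (l 16560312)) (a (b (l 16586800) (l 16558888)) (l 16537416)))) (a (b (l 16491320) (l 16456064)) (b (a (a (l 16584088) (l 16535608)) (b (l 16555104) (l 16550376))) (a (l 16545200) (b (a (l 16503832) (l 16535472)) (l 16524880))))))) (b (a (b (a (b (l 16511520) (l 16477392)) (l 16440152)) (a (c (l 16417688) (l 16476416)) (l 16373416))) (b (c (l 16460792) (l 16512872)) (l 16270392))) (a (b (a (l 16358944) (l 16287432)) (a (l 16315584) (l 16265344))) (b (l 16245872) (l 16203128))))) (b (b (a (b (c (l 16211888) (l 16288336)) (l 16086816)) (b (c (l 16187536) (l 16264928)) (c (l 16125256) (l 16208168)))) (a (b (l 16031928) (l 15980448)) (b (l 15982928) (l 15990664)))) (b (a (c (l 15966200) (l 16063416)) (b (l 16001424) (l 15952720))) (a (c (l 15879328) (l 15983040)) (c (l 15832592) (l 15938144)))))), by decide +kernel⟩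

def k7_pm_202 : ∃ t, chk3 f_pm_202 t 31 3 1 = true :=
  ⟨(b (b (b (a (c (l 15805240) (l 15913680)) (l 15658360)) (a (l 15672368) (l 15716296))) (b (a (l 15747728) (l 15680360)) (c (l 15613672) (l 15728040)))) (b (b (a (l 15673896) (l 15596104)) (a (l 15648680) (l 15566976))) (b (a (l 15629992) (l 15545280)) (a (l 15616816) (l 15530080))))), by decide +kernel⟩

theorem s8_pm_202 : ∃ t, chk3 f_pm_202 t 31 1 1 = true := ex3_b k6_pm_202 k7_pm_202

theorem s9_pm_202 : ∃ t, chk3 f_pm_202 t 30 2 1 = true := ex3_a k3_pm_202 k4_pm_202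

theorem s10_pm_202 : ∃ t, chk3 f_pm_202 t 30 1 1 = true := ex3_b s9_pm_202 k5_pm_202

theorem s11_pm_202 : ∃ t, chk3 f_pm_202 t 15 1 1 = true := ex3_a s10_pm_202 s8_pm_202

theorem s12_pm_202 : ∃ t, chk3 f_pm_202 t 7 1 1 = true := ex3_a k2_pm_202 s11_pm_202

theorem s13_pm_202 : ∃ t, chk3 f_pm_202 t 3 1 1 = true := ex3_a k1_pm_202 s12_pm_202

theorem s14_pm_202 : ∃ t, chk3 f_pm_202 t 1 1 1 = true := ex3_a k0_pm_202 s13_pm_202

theorem c_pm_202 : CertB 0 536870912 1073741824 536870912 1020054732 13421774 3 eng mog cd0q2 cd3q2 pd0 false true false .pp 2 0 2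
    ndB0q2 ndB3q2 pcB0 Cut.none Ext.none :=
  certB1 (fam := false) (s1 := true) (s2 := false) (a := 2) (b := 0) (c := 2) (cn := .pp) (n1 := ndB0q2) (n2 := ndB3q2) (pc := pcB0) (cut := Cut.none) (xt := Ext.none) (P1 := 0) (W1 := 536870912) (P2 := 1073741824) (W2 := 536870912) (P3 := 1020054732) (W3 := 13421774) (N0 := 3) (En := eng) (mo := mog) (C1 := cd0q2) (C2 := cd3q2) (C3 := pd0)
    rfl (fun _ => rfl) s14_pm_202

noncomputable def f_pm_203 : ℕ → ℕ → ℕ → ℕ → Bool := onCell 0 536870912 0 1230186008 1020054732 13421774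
    (rowB 3 eng mog cd0q2 cd3q3 pd0 0 false true false .up 2 0 3 (qsf 0 536870912 0 1230186008 0) ndB0q2 ndB3q3 pcB0 Cut.none Ext.none)

def k0_pm_203 : ∃ t, chk3 f_pm_203 t 1 1 1 = true :=
  ⟨(b (l 2) (a (l 3) (b (l 2) (a (l 3) (b (l 2) (a (l 3) (b (l 2) (a (b (l 3) (l 3)) (b (l 2) (a (l 16128856) (l 16099216))))))))))), by decide +kernel⟩

theorem c_pm_203 : CertB 0 536870912 0 1230186008 1020054732 13421774 3 eng mog cd0q2 cd3q3 pd0 false true false .up 2 0 3
    ndB0q2 ndB3q3 pcB0 Cut.none Ext.none :=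
  certB0 (fam := false) (s1 := true) (s2 := false) (a := 2) (b := 0) (c := 3) (cn := .up) (n1 := ndB0q2) (n2 := ndB3q3) (pc := pcB0) (cut := Cut.none) (xt := Ext.none) (P1 := 0) (W1 := 536870912) (P2 := 0) (W2 := 1230186008) (P3 := 1020054732) (W3 := 13421774) (N0 := 3) (En := eng) (mo := mog) (C1 := cd0q2) (C2 := cd3q3) (C3 := pd0)
    rfl k0_pm_203

noncomputable def cut_pm_213 : Cut := Cut.of [[⟨0, 1, 0, 26738688⟩, ⟨1, 1, 0, 26738688⟩, ⟨2, 2, 0, 2621440⟩]]

noncomputable def xt_pm_213 : Ext := extD3 3 ⟨4, 1, 1, 5, 99, 20, 33, 40, 51, 125, 1, 32⟩ eng cd0q2 cd3q3 pd1 false true false .pnn 2 1 3 rfl ndB0q2 ndB3q3 pcB1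

noncomputable def f_pm_213 : ℕ → ℕ → ℕ → ℕ → Bool := onCell 0 536870912 0 1230186008 1020054732 13421774
    (rowB 3 eng mog cd0q2 cd3q3 pd1 0 false true false .pnn 2 1 3 (qsf 0 536870912 0 1230186008 1) ndB0q2 ndB3q3 pcB1 cut_pm_213 xt_pm_213)

def k0_pm_213 : ∃ t, chk3 f_pm_213 t 2 4 1 = true :=
  ⟨(l 3), by decide +kernel⟩

def k1_pm_213 : ∃ t, chk3 f_pm_213 t 6 4 1 = true :=
  ⟨(l 3), by decide +kernel⟩

def k2_pm_213 : ∃ t, chk3 f_pm_213 t 14 4 1 = true :=
  ⟨(l 3), by decide +kernel⟩

def k3_pm_213 : ∃ t, chk3 f_pm_213 t 30 4 1 = true :=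
  ⟨(l 3), by decide +kernel⟩

def k4_pm_213 : ∃ t, chk3 f_pm_213 t 62 8 1 = true :=
  ⟨(l 3), by decide +kernel⟩

def k5_pm_213 : ∃ t, chk3 f_pm_213 t 126 8 1 = true :=
  ⟨(l 3), by decide +kernel⟩

def k6_pm_213 : ∃ t, chk3 f_pm_213 t 127 16 1 = true :=
  ⟨(l 6), by decide +kernel⟩

def k7_pm_213 : ∃ t, chk3 f_pm_213 t 254 17 1 = true :=
  ⟨(b (l 3) (l 3)), by decide +kernel⟩

def k8_pm_213 : ∃ t, chk3 f_pm_213 t 255 34 1 = true :=
  ⟨(b (b (l 6) (b (l 6) (a (a (l 3) (a (l 3) (a (a (l 3) (b (l 3) (c (l 4760749877786535770104397919) (l 4606007372875870520007245919)))) (c (c (l 2769044235159832434645493343) (l 3793609222094827001501270111)) (l 3880651881107079065129762911))))) (a (a (c (l 604141100505995180828255) (l 603964127057649370031711)) (l 16774032)) (l 16779000))))) (a (a (l 3) (b (b (a (l 3) (a (a (b (l 3) (c (l 4606007372875864197814812767) (l 6675688376056118896919855199))) (c (l 3416424366375059812774445151) (l 3503467025387320603777138783))) (c (l 604019179112339623454303) (l 603960956582198133696095))))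 (a (b (l 3) (a (l 3) (c (l 6714374002283778852892999775) (l 6685359782613036823671898207)))) (a (c (l 3677552343411820676583604319) (l 3648538123741077479131381855)) (l 604093542551379620144735)))) (a (a (l 3) (b (a (l 3) (c (l 3126282169667557125901992031) (l 3164967795895234674061819999))) (c (l 3387410146704312835750297695) (l 3406752959818156935590166623)))) (c (b (l 604001597061455948899935) (l 604008802775298734810719)) (b (l 603945103914602161661535) (l 603773606795230886274655)))))) (a (b (a (c (l 603847105520739866486367) (l 603843070207787690255967)) (l 16777176)) (a (c (l 16774328) (l 16774328)) (l 16770096))) (b (l 16774072) (l 16769256))))), by decide +kernel⟩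

def k9_pm_213 : ∃ t, chk3 f_pm_213 t 255 35 1 = true :=
  ⟨(a (b (a (b (l 3) (a (l 3) (a (l 3) (b (a (l 3) (c (l 2507312150024877021496672351) (l 4335207989282210352426926175))) (c (l 2952196851643057396692631647) (l 2942525445086155275423121503)))))) (b (a (a (b (a (l 3) (c (l 2855482786073883489302855775) (l 2816797159846226969304989791))) (c (l 3174639202452144698072170591) (l 3164967795895240034181578847))) (c (b (l 604032725952525696820831) (l 604043678661602049762911)) (a (l 3987037353233178939449540703) (l 603970468154030975034975)))) (c (l 603855175984397535438431) (l 603888322484733088966239))) (c (c (l 2817401143428879504773621343) (l 2749701228643405455973344863)) (c (l 2720686936626832003285476959) (l 2711015457435862035082782303))))) (a (a (a (l 3) (b (l 3) (b (l 3) (c (l 2594354809037140355120726111) (l 2555669182809493043533906015))))) (b (c (b (a (l 4470607681079039542863282271) (l 3484124212273473274123960415)) (a (l 2729754500833970713788711007) (l 604002749964475024352863))) (b (a (c (l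 4344879395839139274294804575) (l 6617659936714644665365954655)) (l 3474452805716594380037652575)) (l 3261681861464414560048054367))) (c (b (l 2740029817186594980302415455) (l 603930115914838750029407)) (c (l 2701344057508264131580192351) (l 2701343990927066963025847903))))) (a (c (l 603965280004923774592607) (l 603845952642528545646175)) (b (l 603734839877189688907295) (l 603562478112250967676447))))) (b (b (a (c (l 16770536) (l 16770392)) (l 16780176)) (c (l 16776192) (l 16776600))) (b (c (l 16771408) (l 16771784)) (a (l 16779680) (l 16781464))))), by decide +kernel⟩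

def k10_pm_213 : ∃ t, chk3 f_pm_213 t 62 9 1 = true :=
  ⟨(l 3), by decide +kernel⟩

def k11_pm_213 : ∃ t, chk3 f_pm_213 t 126 9 1 = true :=
  ⟨(b (l 3) (l 3)), by decide +kernel⟩

def k12_pm_213 : ∃ t, chk3 f_pm_213 t 127 18 1 = true :=
  ⟨(b (a (a (l 3) (a (l 3) (b (b (l 3) (b (l 3) (a (l 3) (a (l 3) (c (l 3958023133562421723220574303) (l 3890323287664029839791112287)))))) (a (l 3) (b (a (l 3) (c (b (l 2662054654935526122514628703) (l 3242942856689150996896491103)) (l 2923182631972294682905985119))) (c (c (l 3146228783337743258231580255) (l 3136557229495118236242191967)) (b (l 3010225290984539599706931295) (l 2769043555512589182388905567)))))))) (b (a (a (b (a (c (c (b (l 3271353268021327538994757727) (l 2972143575705526798280320607)) (l 3455109992602750417636180063)) (b (a (l 3) (l 3097267949996841003927470175)) (l 2952196851643072652418826335))) (c (l 603883999045720938751583) (l 603765824610190436361823))) (c (c (l 2788386813942344439258293855) (l 2740029667595002063613142623)) (c (l 2730358146322405629756827231)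 (l 2740029430957880422929376863)))) (b (a (l 603777930170333898122847) (l 16777648)) (a (l 603674311498197872268831) (l 16782520)))) (c (l 16774416) (l 16774752))) (c (a (a (b (l 603812806114636477195871) (l 603809059007939925419615)) (l 602886866110551394752031)) (l 16763856)) (a (a (b (l 603672726172786187413087) (l 603297450111504956941919)) (l 602866113523468472145439)) (l 16763416))))) (a (a (l 3) (b (a (l 3) (b (a (a (l 3) (c (b (l 2749097313947743620239933535) (l 2788386629474868723940157023)) (b (l 3967694540119321989060919391) (l 2758768720504677558629236831)))) (c (b (l 603758330553477714536031) (l 603660620532721943946847)) (b (l 2827072071235082720141502047) (l 603408707210972104271455)))) (a (c (c (l 2885100687261790932988585567) (l 2875429108919586755602064991)) (c (l 3252613790548219186920941151) (l 3155296389338257030073483359))) (c (l 603799547552449151297119) (l 603548786972158889240159))))) (a (a (l 3) (b (a (l 3) (b (l 3) (c (l 2691672439101896862877705823) (c (l 2468626523797147727557689439)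 (l 2458955117240245331410042975))))) (c (c (l 2943129023128527209443649119) (b (l 3049514354886468188905612895) (l 2943128892271963786923796063))) (a (b (l 3) (c (l 2236512766431108277122007135) (l 2217169953317289397332312159))) (c (l 3030171472309149066232489567) (l 3019896697541318163341672543)))))) (c (b (c (l 3155900194794448730530326111) (l 2856086353739976038082930271)) (l 603730372110852433618527)) (c (b (l 2865757519912773860763821663) (l 603699243342790563538527)) (b (l 2904442997990086995211429471) (l 603549651791036843370079))))))) (c (a (b (a (l 603726625081946345088607) (l 16768496)) (a (l 603178843481593063134751) (l 16776160))) (b (l 16762160) (l 16759544))) (a (b (a (l 603486240970019849938527) (l 16768656)) (a (l 603316041140641278744095) (l 16776120))) (b (l 16782576) (l 16779800)))))), by decide +kernel⟩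

def k13_pm_213 : ∃ t, chk3 f_pm_213 t 127 38 1 = true :=
  ⟨(b (a (a (l 3) (a (b (b (a (l 3) (c (c (l 3252614143053897339881563743) (l 3068857208640777733941732959)) (c (l 3039842775391334123126629983) (l 3029568104098252926360174687)))) (a (c (c (l 5061166899413748033333175903) (l 4916095581428464459023328863)) (c (l 6308174926893119895176937567) (l 6201789454767068124492300511))) (c (c (l 2778715196977132281124775519) (l 3320313935917925300164388447)) (c (l 3339656150377282393502049887) (l 3329984519288914913585145439))))) (a (a (l 3) (c (c (a (l 2517586841205653236950640223) (l 3001157282037809815684032095)) (l 2865757267422961122036115167)) (b (c (l 2516983556581649400366137567) (l 2497640743467824267103273183)) (c (l 3010225290984400923773485279) (l 3000553884427488700739420383))))) (c (c (l 603398618981574354085471) (l 603207522252150093112927)) (b (c (l 603031989970872046511839) (l 602821581805489706837727)) (l 602903150976583150921439))))) (b (c (l 603734407206651069883999) (l 603422253735804484757087))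 (c (l 603435080285991917999647) (l 603134599954545488635487))))) (a (a (c (l 603029540146746468259359) (l 603193831461152943003167)) (c (l 16751320) (l 16760936))) (c (l 16776912) (l 16775424)))) (a (a (a (l 3) (b (l 3) (a (l 3) (a (l 3) (c (c (l 2497640743467739398535200991) (b (l 2072098854963409857685160159) (l 2565340589366164198591627487))) (c (b (l 2052756041849567475832111327) (l 2555669182809234108491989215)) (c (b (l 3532481245057866782443618527) (l 2526654963138472631656415455)) (l 2720083094276780520414560479)))))))) (c (a (c (a (b (b (l 2894771379295530788200474335) (l 3184913583497022018064852703)) (l 3329984158136168108441741023)) (l 603134599926164333815519)) (a (b (b (l 2884497005744461485097844959) (l 3068253730325870688557613279)) (b (l 3329381707362615197127491807) (l 143910094751301855))) (l 603016713697439199225567))) (l 603239948321337201202719)) (a (c (a (b (b (l 2768440127061431932994175199) (l 3039239510655116495986065631)) (b (l 3310038894248773227589959903) (l 143897175487414495)))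 (l 602896809855393807853279)) (b (b (l 3097870317759787885466084575) (l 3242941387290482406633120991)) (b (l 3388012581624973094761899231) (l 602420076776405227922655)))) (l 603078683014250648970975)))) (a (c (a (l 603303935464842887665183) (l 16767472)) (l 601934552947746103498271)) (c (l 16772240) (l 16769016))))), by decide +kernel⟩

def k14_pm_213 : ∃ t, chk3 f_pm_213 t 127 78 1 = true :=
  ⟨(a (a (a (l 3) (a (a (l 3) (a (l 3) (b (l 3) (b (l 3) (b (l 3) (c (c (l 2342898238557050783797313759) (c (l 2333226832000106812362260703) (l 2323555425443171843179020511))) (c (c (l 2313884018886236873995796703) (l 2294541205772384940134318303)) (c (l 2284869799215450039670931679) (l 2284869799215432241324900575))))))))) (c (b (c (b (l 2516983556581552368442294495) (l 2768440127061415783901102303)) (b (l 2487969336910781958073041119) (l 2758768720504430443340775647))) (b (c (l 3029568104098164621798605023) (b (l 2990882477870472092791947487) (l 3135953576224219141259575519))) (a (c (l 3097267949996576708754456799)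 (c (l 2710411687719869534324719839) (l 2642711841821433120670122207))) (l 143870787197731039)))) (c (b (b (l 2487969336910767801859326175) (b (l 2700740281162955318427910367) (l 2845811379516700099152527583))) (c (b (l 3106939356553450586321584351) (l 3029568104098092947376619743)) (b (l 3029568104098099888046080223) (b (l 3281024674577924889318228191) (l 143809008378560735))))) (c (b (b (l 2565340589366092455450853599) (l 2758768720504434154189308127)) (b (l 3029568104098085456954769631) (b (l 3290696081134825567478989023) (l 143791347470696671)))) (b (b (l 2700740281162919584298303711) (l 2758768720504422196999373023)) (b (b (l 3000553884427327209935995103) (l 3145624982781068348527984863)) (b (l 3290696081134809212242084063) (l 143773686562832607))))))))) (c (b (b (l 602261549890713703491295) (l 602378859638964029531871)) (l 601895785505718889899231)) (b (c (l 602364448276768127804639) (l 602330725302142531085535)) (l 601927779014936996881631)))) (a (a (l 603031845989755655722527) (l 601710309715100063503903))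 (c (l 16766624) (l 16761288)))), by decide +kernel⟩

def k15_pm_213 : ∃ t, chk3 f_pm_213 t 127 79 1 = true :=
  ⟨(c (a (a (a (l 3) (c (b (c (a (b (l 2323555425443209364017168607) (l 2575011995923041718273409247)) (l 143885218286665951)) (a (b (l 2313884018886273501480763615) (l 2536326369695341492683735263)) (l 143863434209870047))) (b (b (l 3000553884427309480303886559) (l 3058582323768854630361088223)) (l 3126883818872112558237885663))) (a (c (b (b (b (l 2178484327089420327943307487) (l 2304212612329334615285072095)) (a (l 2633040435264514369278640351) (l 3019896697541190688664109279))) (b (l 2739425907390568270262239455) (l 2971539664756528487132102879))) (b (b (c (l 2294541205772419918349926623) (l 2284869799215494226297176287)) (a (l 2468626523796901711772057823) (l 3019896697541167667637059807))) (b (l 2729754500833626360410554591) (l 2961868258199586027524243679)))) (b (b (a (l 143844605067428063) (l 143835602820137183)) (l 143822065079222495)) (l 601619949150709384881375))))) (b (l 602141069524694089082079)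 (l 601434905062234300687583))) (l 599453754100208308000287)) (a (a (a (l 3) (b (b (a (a (l 3) (c (c (b (l 2391255271341563864045240543) (l 2652383248378313526577840351)) (b (b (l 2275198392658543108036149471) (l 2420269491012292905283289311)) (b (l 2565340589366042633810870495) (l 2710411687719792293618876639)))) (b (c (c (l 2381583864784613089381040351) (l 2381583864784603537373003999)) (c (l 2381583864784593916645458143) (l 2371912458227667331239641311))) (b (c (l 2565340589366022430282891487) (l 2565340589366002295474553055)) (c (l 2710411687719771402896064735) (l 2710411687719750580892795103)))))) (c (b (l 143806190879228127) (l 143794371127263455)) (c (l 143770662904889567) (l 143751077851431135)))) (c (a (c (c (l 2536326369695293870080606431) (l 2536326369695269818262585567)) (a (b (l 3) (l 2304212612329260535678058719)) (b (l 2913511225415040923997716703) (l 3145624982781037630910677215)))) (l 143776572779839711)) (a (c (a (b (l 3) (l 2255855579544651935345246431)) (c (l 2981211071313437068034932959)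 (l 2981211071313425798039568607))) (b (b (l 2362241051670731674859110623) (l 2439612304126060863932907743)) (a (l 2014070415621702804499300575) (l 3145624982780991245259161823)))) (l 143731767675175135)))) (c (c (b (b (l 2990882477870322421752168671) (l 3048910917211848536513069279)) (l 3107540999128889267672589535)) (a (b (b (l 2671726061492087463820640479) (l 2797454346731984571292565727)) (a (l 2700740281162777403671707871) (l 602272502640952987198687))) (l 601648772124484153648351))) (a (b (c (b (a (l 2110784481190876986766000351) (l 143731836390834399)) (l 2797454346731959969717715167)) (b (a (l 2110784481190853003666440415) (l 143707715851370719)) (l 2797454346731935574301278431))) (c (b (l 2923182631971855565361021151) (l 3049513194758846149715666143)) (b (l 2923182631971830826347102431) (l 3049513180059071883366802655)))) (l 601666642370216000840927))))) (a (b (l 602349748430071453115615) (l 601755993792458036012255)) (l 602211686016466707375327))) (l 598936092344639818470431))), by decide +kernel⟩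

def k16_pm_213 : ∃ t, chk3 f_pm_213 t 2 5 1 = true :=
  ⟨(l 3), by decide +kernel⟩

def k17_pm_213 : ∃ t, chk3 f_pm_213 t 6 5 1 = true :=
  ⟨(l 3), by decide +kernel⟩

def k18_pm_213 : ∃ t, chk3 f_pm_213 t 14 5 1 = true :=
  ⟨(l 3), by decide +kernel⟩

def k19_pm_213 : ∃ t, chk3 f_pm_213 t 30 5 1 = true :=
  ⟨(l 3), by decide +kernel⟩

def k20_pm_213 : ∃ t, chk3 f_pm_213 t 62 5 1 = true :=
  ⟨(b (l 3) (b (l 3) (l 3))), by decide +kernel⟩

def k21_pm_213 : ∃ t, chk3 f_pm_213 t 126 5 1 = true :=
  ⟨(a (b (b (l 3) (l 3)) (b (b (l 3) (c (l 1176987489191) (l 796345863399))) (b (a (l 3) (b (l 311014517223) (l 309403813303))) (b (l 303498178359) (l 299203144087))))) (b (b (a (l 3) (b (l 3) (a (l 3) (b (b (b (l 3) (c (c (l 5582819435123970824065892447) (l 5563476622010074566134480991)) (c (l 5534462402339261068646875167) (l 5312617268903739400786993695)))) (a (l 3) (c (c (l 2478297930353537407588384863) (b (l 1965713382836935187261341791) (l 2159141513975269807897427999))) (c (b (l 1936699163166120177930616863)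 (l 2130127294304029287565721631)) (b (l 1878670723823215069359472671) (l 2033413228733479478672932895)))))) (b (a (l 3) (c (c (l 2439612304125919714086486111) (b (l 2352569645113603535180644383) (l 2516983556581185268892532767))) (c (b (l 2323555425441944032196771871) (l 2478297930352203287579328543)) (l 2265526986098897636242047007)))) (c (c (l 2313884018885906951724646431) (l 2284869799215086925865533471)) (c (l 2197827140201985420651495455) (l 2072098854959783049384394783)))))))) (b (a (l 3) (b (a (b (l 3) (c (c (l 4306193769609619356611444767) (l 6337189146561969595642757151)) (l 6520945871142313028706762783))) (c (c (b (l 2439612304125598038171959327) (l 2575011995921634411998265375)) (b (l 2400926677896704704978190367) (l 141299922428985375))) (b (c (l 2275198392655563431158841375) (l 139616844669190175)) (l 139547781750980639)))) (b (c (c (a (l 2981211071312157510972620831) (l 141719248702947359)) (l 2043084635290143555446652959)) (l 1946370569719159989172305951)) (c (l 2130127294302838997211021343)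 (l 138299354616299551))))) (b (a (l 3) (c (b (l 2101113074630009201441849375) (l 139169686934601759)) (l 137471009895071775))) (c (l 2662054654931388453284380703) (b (l 136709804114427935) (l 142437368327)))))) (b (b (c (b (b (l 137483173239898143) (l 88750392775)) (a (l 75328543687) (l 16085912))) (b (a (l 242832156263) (l 16021960)) (l 15958200))) (c (b (l 16018352) (l 15958848)) (b (l 15901160) (l 15851568)))) (b (c (l 15966840) (l 15789376)) (c (l 15804336) (l 15727064)))))), by decide +kernel⟩

def k22_pm_213 : ∃ t, chk3 f_pm_213 t 127 40 1 = true :=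
  ⟨(b (a (a (b (b (a (a (l 3) (a (l 3) (c (c (l 3542754471163650983067690207) (l 3349326271138199287556842719)) (c (c (l 3088198997383518919245718751) (l 3001156303207134301947143391)) (c (l 2846413762844100143434097887) (l 2643314189696480817933460575)))))) (a (c (c (l 602032118573694195197151) (l 3184912596595976786201060575)) (c (c (l 3175241912056113048894579935) (l 3175241133834071600745473247)) (c (l 3165569704506929081555330271) (a (l 3097870463892276470461523039) (l 16729192))))) (c (l 603161405155708213470431) (l 602400188625501460128991)))) (a (a (l 3) (c (c (l 2246786764129389327365285087) (l 2208101028085891461270316255)) (c (c (l 2198429606540974045978617119) (l 2188758149976615477908345887)) (c (l 2179086692979382617956652063) (l 2169415235982149758005858335))))) (c (c (l 602802270086201178793183) (l 602758027132411488621599)) (c (l 602713351424107964732447) (l 602668387485428278284319))))) (a (a (l 3) (c (c (b (l 2459558182665099506710746143) (l 2672329377965931869595997215)) (b (l 2440215261464874383013991455)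 (a (l 2295144419636153657068885023) (l 603045969278187038331935)))) (c (b (a (l 2972142604513258274621215775) (l 2875428287607199936352916511)) (b (l 2594958042212016894552609823) (l 2720685861671650467555365919))) (c (b (l 2411200869432358344083690527) (l 2633643422290943794575495199)) (b (l 2401529398888297805001035807) (l 2623971945405814980155265055)))))) (b (c (l 603358987466687787160607) (c (l 603259836217291605791775) (l 603192678539648247484447))) (c (l 603609747893939752113183) (b (l 603512902487552779227167) (l 603407410169881273045023)))))) (c (b (l 602181710066555340416223) (l 603170484800684596843551)) (b (l 602366177391431380755551) (l 603282894647383744221215)))) (b (a (l 602039180574289137308703) (l 16729968)) (a (a (l 602598923964775751111711) (l 601690710049521713271839)) (c (l 16752792) (l 16741600))))) (b (a (a (a (b (a (l 3) (c (c (l 602833831721339374474271) (l 2875428306053944010064974879)) (c (l 2865756770946279212994154527) (b (l 2827071071219865160709132319) (l 2952799992295996385553518623)))))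 (c (c (l 2933456623473997098283652127) (a (l 3175241758285654941893858335) (l 603210548822969660593183))) (b (c (l 2449886146324810581796360223) (l 2430543160560981200114520095)) (c (l 2507914437227669064048168991) (l 2488571452328530810822463519))))) (c (l 602487378809204983354399) (a (l 602878507429642856304671) (l 603367057917220031909919)))) (c (l 603695064085280707630111) (l 603075657006930658185247))) (a (l 602518219459453269905439) (l 600687380110137608820255))) (a (a (c (c (b (l 2846413578376591442771698911) (l 2885098950096904779485750495)) (a (b (l 2594956940162579667324560479) (l 2701342147981452716787425375)) (l 602741598000970826616863))) (a (c (b (l 2575613972125512430131466271) (l 2681999182681918881544183903)) (b (b (l 2546599753031222082231439391) (l 2594956656688598733246582815)) (a (l 2353170975247360097824956447) (l 602540124968040754597919)))) (l 602683951925740469080095))) (a (l 602866113523468323901471) (l 603763374684428651352095))) (l 600318156998287255736351)))), by decide +kernel⟩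

def k23_pm_213 : ∃ t, chk3 f_pm_213 t 127 41 1 = true :=
  ⟨(c (b (a (b (a (c (b (l 2923784293858800504825308255) (l 601799804742494128940127)) (b (l 2914112823026445336875950175) (l 2952798597404520902568992863))) (l 602775609185356738170911)) (b (c (l 600844609263008076947551) (l 600887267288515955777631)) (c (l 601376970762125289005151) (l 600675129724796324323359)))) (l 601250870495514199494687)) (a (a (b (b (l 601103728331517311590431) (l 600887843772083095560223)) (l 599813320917282565513247)) (l 601713047318733254549535)) (l 601973752278902682652703))) (b (a (a (b (a (b (c (l 2788384380989142239000502303) (l 2759369390013527561759219743)) (c (l 2875426812875851779044040735) (l 2856081418369947218714959903))) (l 602263423806935116861471)) (b (c (l 601479580655776190242847) (l 597543505493838218895903)) (c (l 601441822340641929175071) (l 595597661789924640449055)))) (l 602048692176702097543199)) (l 601162672000411752697887)) (a (a (b (c (l 598407620495792598409247) (l 592785973843774232355359)) (l 591908312226758900654623))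 (l 597071960164490413383711)) (l 601477131340793117872159)))), by decide +kernel⟩

def k24_pm_213 : ∃ t, chk3 f_pm_213 t 127 21 1 = true :=
  ⟨(b (a (b (b (c (l 599508949249464831434783) (l 589895022398084473987615)) (c (l 596357437451168768303135) (l 586535984845713591443999))) (c (a (l 592648775882703847334431) (l 592279553020717580427807)) (l 587170955328566952895007))) (b (l 599942158467843797180447) (l 598072406229460378279967))) (b (b (c (l 588518722045471128543775) (l 580034658557708378268191)) (c (l 585592894763505838875167) (l 577603434703817624085023))) (c (l 582070142064735768289823) (l 574748223701556638097951)))), by decide +kernel⟩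

def k25_pm_213 : ∃ t, chk3 f_pm_213 t 127 11 1 = true :=
  ⟨(b (b (b (c (l 578037509633740705997343) (l 16123176)) (c (a (l 16087104) (l 16092752)) (l 15942544))) (c (b (l 16010920) (l 15942800)) (b (l 15877152) (l 15820928)))) (b (c (b (l 15883824) (l 15832952)) (l 15751432)) (c (l 15769864) (l 15682640)))), by decide +kernel⟩

def k26_pm_213 : ∃ t, chk3 f_pm_213 t 1 3 1 = true :=
  ⟨(a (l 3) (a (b (l 3) (l 3)) (a (b (l 3) (l 3)) (a (b (b (l 3) (l 3)) (b (l 3) (b (l 3) (b (l 3) (l 3))))) (a (b (b (a (l 3) (b (b (l 3) (l 3)) (b (b (l 1021294429175) (l 266453915239)) (b (l 264306425239) (l 262695811095))))) (b (a (l 3) (b (b (l 261622077751) (l 261085219671)) (b (l 15825376) (l 15749248)))) (b (c (l 237463118215) (l 264843239511)) (b (l 298665640359) (l 298665647399))))) (b (c (b (b (l 295444536711) (l 296518314119)) (b (l 297055226375) (l 297055299703))) (b (b (l 301887029847) (l 301887093591)) (b (l 302424059655) (l 15822288)))) (b (b (c (l 296518523959) (l 242831958151)) (c (l 294907997463) (l 263769913895)))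 (b (c (l 15905616) (l 16114520)) (b (l 294908239063) (l 15981904)))))) (b (b (a (b (b (c (b (l 15772376) (l 15748872)) (b (l 15708840) (l 15692192))) (c (l 297055567671) (l 301350441303))) (b (c (l 15696488) (l 15662088)) (c (l 15684304) (l 15661680)))) (b (b (c (l 15707184) (l 15636112)) (c (l 15664616) (l 15607912))) (b (l 15616312) (l 15610368)))) (b (b (c (l 15717904) (l 15680984)) (c (l 15664160) (l 15658864))) (b (c (l 15682096) (l 15686968)) (c (l 15707920) (l 15722496))))) (b (b (b (c (l 15740968) (l 15764760)) (c (l 15780752) (l 15813192))) (b (c (l 15826952) (l 15867336)) (c (l 15879328) (l 15926824)))) (b (b (c (l 15937776) (l 15991312)) (c (l 16002224) (l 16060480))) (b (c (l 16051632) (l 16133960)) (c (l 16148752) (l 16211232))))))))))), by decide +kernel⟩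

theorem s27_pm_213 : ∃ t, chk3 f_pm_213 t 127 20 1 = true := ex3_b k22_pm_213 k23_pm_213

theorem s28_pm_213 : ∃ t, chk3 f_pm_213 t 127 10 1 = true := ex3_b s27_pm_213 k24_pm_213

theorem s29_pm_213 : ∃ t, chk3 f_pm_213 t 127 5 1 = true := ex3_b s28_pm_213 k25_pm_213

theorem s30_pm_213 : ∃ t, chk3 f_pm_213 t 63 5 1 = true := ex3_a k21_pm_213 s29_pm_213

theorem s31_pm_213 : ∃ t, chk3 f_pm_213 t 31 5 1 = true := ex3_a k20_pm_213 s30_pm_213

theorem s32_pm_213 : ∃ t, chk3 f_pm_213 t 15 5 1 = true := ex3_a k19_pm_213 s31_pm_213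

theorem s33_pm_213 : ∃ t, chk3 f_pm_213 t 7 5 1 = true := ex3_a k18_pm_213 s32_pm_213

theorem s34_pm_213 : ∃ t, chk3 f_pm_213 t 3 5 1 = true := ex3_a k17_pm_213 s33_pm_213

theorem s35_pm_213 : ∃ t, chk3 f_pm_213 t 1 5 1 = true := ex3_a k16_pm_213 s34_pm_213

theorem s36_pm_213 : ∃ t, chk3 f_pm_213 t 127 39 1 = true := ex3_b k14_pm_213 k15_pm_213

theorem s37_pm_213 : ∃ t, chk3 f_pm_213 t 127 19 1 = true := ex3_b k13_pm_213 s36_pm_213

theorem s38_pm_213 : ∃ t, chk3 f_pm_213 t 127 9 1 = true := ex3_b k12_pm_213 s37_pm_213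

theorem s39_pm_213 : ∃ t, chk3 f_pm_213 t 63 9 1 = true := ex3_a k11_pm_213 s38_pm_213

theorem s40_pm_213 : ∃ t, chk3 f_pm_213 t 31 9 1 = true := ex3_a k10_pm_213 s39_pm_213

theorem s41_pm_213 : ∃ t, chk3 f_pm_213 t 255 17 1 = true := ex3_b k8_pm_213 k9_pm_213

theorem s42_pm_213 : ∃ t, chk3 f_pm_213 t 127 17 1 = true := ex3_a k7_pm_213 s41_pm_213

theorem s43_pm_213 : ∃ t, chk3 f_pm_213 t 127 8 1 = true := ex3_b k6_pm_213 s42_pm_213

theorem s44_pm_213 : ∃ t, chk3 f_pm_213 t 63 8 1 = true := ex3_a k5_pm_213 s43_pm_213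

theorem s45_pm_213 : ∃ t, chk3 f_pm_213 t 31 8 1 = true := ex3_a k4_pm_213 s44_pm_213

theorem s46_pm_213 : ∃ t, chk3 f_pm_213 t 31 4 1 = true := ex3_b s45_pm_213 s40_pm_213

theorem s47_pm_213 : ∃ t, chk3 f_pm_213 t 15 4 1 = true := ex3_a k3_pm_213 s46_pm_213

theorem s48_pm_213 : ∃ t, chk3 f_pm_213 t 7 4 1 = true := ex3_a k2_pm_213 s47_pm_213

theorem s49_pm_213 : ∃ t, chk3 f_pm_213 t 3 4 1 = true := ex3_a k1_pm_213 s48_pm_213

theorem s50_pm_213 : ∃ t, chk3 f_pm_213 t 1 4 1 = true := ex3_a k0_pm_213 s49_pm_213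

theorem s51_pm_213 : ∃ t, chk3 f_pm_213 t 1 2 1 = true := ex3_b s50_pm_213 s35_pm_213

theorem s52_pm_213 : ∃ t, chk3 f_pm_213 t 1 1 1 = true := ex3_b s51_pm_213 k26_pm_213

theorem c_pm_213 : CertB 0 536870912 0 1230186008 1020054732 13421774 3 eng mog cd0q2 cd3q3 pd1 false true false .pnn 2 1 3
    ndB0q2 ndB3q3 pcB1 cut_pm_213 xt_pm_213 :=
  certB0 (fam := false) (s1 := true) (s2 := false) (a := 2) (b := 1) (c := 3) (cn := .pnn) (n1 := ndB0q2) (n2 := ndB3q3) (pc := pcB1) (cut := cut_pm_213) (xt := xt_pm_213) (P1 := 0) (W1 := 536870912) (P2 := 0) (W2 := 1230186008) (P3 := 1020054732) (W3 := 13421774) (N0 := 3) (En := eng) (mo := mog) (C1 := cd0q2) (C2 := cd3q3) (C3 := pd1)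
    rfl s52_pm_213

noncomputable def f_mm_001 : ℕ → ℕ → ℕ → ℕ → Bool := onCell 0 536870912 0 536870912 1020054732 13421774
    (rowB 3 eng mog cd0q0 cd3q1 pd0 1 false false false .up 0 0 1 (qsf 0 536870912 536870912 536870912 0) ndB0q0 ndB3q1 pcB0 Cut.none Ext.none)

def k0_mm_001 : ∃ t, chk3 f_mm_001 t 1 1 1 = true :=
  ⟨(l 3), by decide +kernel⟩

theorem c_mm_001 : CertB 0 536870912 536870912 536870912 1020054732 13421774 3 eng mog cd0q0 cd3q1 pd0 false false false .up 0 0 1
    ndB0q0 ndB3q1 pcB0 Cut.none Ext.none :=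
  certB1 (fam := false) (s1 := false) (s2 := false) (a := 0) (b := 0) (c := 1) (cn := .up) (n1 := ndB0q0) (n2 := ndB3q1) (pc := pcB0) (cut := Cut.none) (xt := Ext.none) (P1 := 0) (W1 := 536870912) (P2 := 536870912) (W2 := 536870912) (P3 := 1020054732) (W3 := 13421774) (N0 := 3) (En := eng) (mo := mog) (C1 := cd0q0) (C2 := cd3q1) (C3 := pd0)
    rfl (fun _ => rfl) k0_mm_001

noncomputable def f_mm_011 : ℕ → ℕ → ℕ → ℕ → Bool := onCell 0 536870912 536870912 536870912 1020054732 13421774
    (rowB 3 eng mog cd0q0 cd3q1 pd1 1 false false false .pnn 0 1 1 (qsf 0 536870912 536870912 536870912 1) ndB0q0 ndB3q1 pcB1 Cut.none Ext.none)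

def k0_mm_011 : ∃ t, chk3 f_mm_011 t 1 1 1 = true :=
  ⟨(l 5), by decide +kernel⟩

theorem c_mm_011 : CertB 0 536870912 536870912 536870912 1020054732 13421774 3 eng mog cd0q0 cd3q1 pd1 false false false .pnn 0 1 1
    ndB0q0 ndB3q1 pcB1 Cut.none Ext.none :=
  certB1 (fam := false) (s1 := false) (s2 := false) (a := 0) (b := 1) (c := 1) (cn := .pnn) (n1 := ndB0q0) (n2 := ndB3q1) (pc := pcB1) (cut := Cut.none) (xt := Ext.none) (P1 := 0) (W1 := 536870912) (P2 := 536870912) (W2 := 536870912) (P3 := 1020054732) (W3 := 13421774) (N0 := 3) (En := eng) (mo := mog) (C1 := cd0q0) (C2 := cd3q1) (C3 := pd1)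
    rfl (fun _ => rfl) k0_mm_011

noncomputable def f_mm_012 : ℕ → ℕ → ℕ → ℕ → Bool := onCell 0 536870912 1073741824 536870912 1020054732 13421774
    (rowB 3 eng mog cd0q0 cd3q2 pd1 0 false false false .pnp 0 1 2 (qsf 0 536870912 1073741824 536870912 1) ndB0q0 ndB3q2 pcB1 Cut.none Ext.none)

def k0_mm_012 : ∃ t, chk3 f_mm_012 t 1 1 1 = true :=
  ⟨(l 5), by decide +kernel⟩

theorem c_mm_012 : CertB 0 536870912 1073741824 536870912 1020054732 13421774 3 eng mog cd0q0 cd3q2 pd1 false false false .pnp 0 1 2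
    ndB0q0 ndB3q2 pcB1 Cut.none Ext.none :=
  certB0 (fam := false) (s1 := false) (s2 := false) (a := 0) (b := 1) (c := 2) (cn := .pnp) (n1 := ndB0q0) (n2 := ndB3q2) (pc := pcB1) (cut := Cut.none) (xt := Ext.none) (P1 := 0) (W1 := 536870912) (P2 := 1073741824) (W2 := 536870912) (P3 := 1020054732) (W3 := 13421774) (N0 := 3) (En := eng) (mo := mog) (C1 := cd0q0) (C2 := cd3q2) (C3 := pd1)
    rfl k0_mm_012

noncomputable def f_mm_022 : ℕ → ℕ → ℕ → ℕ → Bool := onCell 0 536870912 1073741824 536870912 1020054732 13421774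
    (rowB 3 eng mog cd0q0 cd3q2 pd2 0 false false false .pp 0 2 2 (qsf 0 536870912 1073741824 536870912 2) ndB0q0 ndB3q2 pcB2 Cut.none Ext.none)

def k0_mm_022 : ∃ t, chk3 f_mm_022 t 1 1 1 = true :=
  ⟨(l 5), by decide +kernel⟩

theorem c_mm_022 : CertB 0 536870912 1073741824 536870912 1020054732 13421774 3 eng mog cd0q0 cd3q2 pd2 false false false .pp 0 2 2
    ndB0q0 ndB3q2 pcB2 Cut.none Ext.none :=
  certB0 (fam := false) (s1 := false) (s2 := false) (a := 0) (b := 2) (c := 2) (cn := .pp) (n1 := ndB0q0) (n2 := ndB3q2) (pc := pcB2) (cut := Cut.none) (xt := Ext.none) (P1 := 0) (W1 := 536870912) (P2 := 1073741824) (W2 := 536870912) (P3 := 1020054732) (W3 := 13421774) (N0 := 3) (En := eng) (mo := mog) (C1 := cd0q0) (C2 := cd3q2) (C3 := pd2)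
    rfl k0_mm_022

noncomputable def f_mm_023 : ℕ → ℕ → ℕ → ℕ → Bool := onCell 0 536870912 0 1230186008 1020054732 13421774
    (rowB 3 eng mog cd0q0 cd3q3 pd2 0 false false false .up 0 2 3 (qsf 0 536870912 0 1230186008 2) ndB0q0 ndB3q3 pcB2 Cut.none Ext.none)

def k0_mm_023 : ∃ t, chk3 f_mm_023 t 1 1 1 = true :=
  ⟨(l 5), by decide +kernel⟩

theorem c_mm_023 : CertB 0 536870912 0 1230186008 1020054732 13421774 3 eng mog cd0q0 cd3q3 pd2 false false false .up 0 2 3
    ndB0q0 ndB3q3 pcB2 Cut.none Ext.none :=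
  certB0 (fam := false) (s1 := false) (s2 := false) (a := 0) (b := 2) (c := 3) (cn := .up) (n1 := ndB0q0) (n2 := ndB3q3) (pc := pcB2) (cut := Cut.none) (xt := Ext.none) (P1 := 0) (W1 := 536870912) (P2 := 0) (W2 := 1230186008) (P3 := 1020054732) (W3 := 13421774) (N0 := 3) (En := eng) (mo := mog) (C1 := cd0q0) (C2 := cd3q3) (C3 := pd2)
    rfl k0_mm_023

noncomputable def f_mm_033 : ℕ → ℕ → ℕ → ℕ → Bool := onCell 0 536870912 0 1230186008 1020054732 13421774
    (rowB 3 eng mog cd0q0 cd3q3 pd3 0 false false false .pnn 0 3 3 (qsf 0 536870912 0 1230186008 3) ndB0q0 ndB3q3 pcB3 Cut.none Ext.none)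

def k0_mm_033 : ∃ t, chk3 f_mm_033 t 1 1 1 = true :=
  ⟨(l 5), by decide +kernel⟩

theorem c_mm_033 : CertB 0 536870912 0 1230186008 1020054732 13421774 3 eng mog cd0q0 cd3q3 pd3 false false false .pnn 0 3 3
    ndB0q0 ndB3q3 pcB3 Cut.none Ext.none :=
  certB0 (fam := false) (s1 := false) (s2 := false) (a := 0) (b := 3) (c := 3) (cn := .pnn) (n1 := ndB0q0) (n2 := ndB3q3) (pc := pcB3) (cut := Cut.none) (xt := Ext.none) (P1 := 0) (W1 := 536870912) (P2 := 0) (W2 := 1230186008) (P3 := 1020054732) (W3 := 13421774) (N0 := 3) (En := eng) (mo := mog) (C1 := cd0q0) (C2 := cd3q3) (C3 := pd3)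
    rfl k0_mm_033

noncomputable def cut_mm_101 : Cut := Cut.of [[⟨0, 1, 0, 38347922⟩, ⟨1, 0, 0, 38347922⟩, ⟨2, 1, 0, 38347922⟩]]

noncomputable def f_mm_101 : ℕ → ℕ → ℕ → ℕ → Bool := onCell 536870912 536870912 0 536870912 1020054732 13421774
    (rowB 3 eng mog cd0q1 cd3q1 pd0 1 false false false .npn 1 0 1 (qsf 536870912 536870912 536870912 536870912 0) ndB0q1 ndB3q1 pcB0 cut_mm_101 Ext.none)

def k0_mm_101 : ∃ t, chk3 f_mm_101 t 1 1 1 = true :=
  ⟨(a (l 3) (a (l 3) (a (l 3) (b (b (b (a (l 3) (b (l 6) (l 3))) (l 3)) (l 2)) (l 2))))), by decide +kernel⟩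

theorem c_mm_101 : CertB 536870912 536870912 536870912 536870912 1020054732 13421774 3 eng mog cd0q1 cd3q1 pd0 false false false .npn 1 0 1
    ndB0q1 ndB3q1 pcB0 cut_mm_101 Ext.none :=
  certB1 (fam := false) (s1 := false) (s2 := false) (a := 1) (b := 0) (c := 1) (cn := .npn) (n1 := ndB0q1) (n2 := ndB3q1) (pc := pcB0) (cut := cut_mm_101) (xt := Ext.none) (P1 := 536870912) (W1 := 536870912) (P2 := 536870912) (W2 := 536870912) (P3 := 1020054732) (W3 := 13421774) (N0 := 3) (En := eng) (mo := mog) (C1 := cd0q1) (C2 := cd3q1) (C3 := pd0)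
    rfl (fun _ => rfl) k0_mm_101

noncomputable def f_mm_102 : ℕ → ℕ → ℕ → ℕ → Bool := onCell 536870912 536870912 0 536870912 1020054732 13421774
    (rowB 3 eng mog cd0q1 cd3q2 pd0 1 false false false .npp 1 0 2 (qsf 536870912 536870912 1073741824 536870912 0) ndB0q1 ndB3q2 pcB0 Cut.none Ext.none)

def k0_mm_102 : ∃ t, chk3 f_mm_102 t 1 1 1 = true :=
  ⟨(l 3), by decide +kernel⟩

theorem c_mm_102 : CertB 536870912 536870912 1073741824 536870912 1020054732 13421774 3 eng mog cd0q1 cd3q2 pd0 false false false .npp 1 0 2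
    ndB0q1 ndB3q2 pcB0 Cut.none Ext.none :=
  certB1 (fam := false) (s1 := false) (s2 := false) (a := 1) (b := 0) (c := 2) (cn := .npp) (n1 := ndB0q1) (n2 := ndB3q2) (pc := pcB0) (cut := Cut.none) (xt := Ext.none) (P1 := 536870912) (W1 := 536870912) (P2 := 1073741824) (W2 := 536870912) (P3 := 1020054732) (W3 := 13421774) (N0 := 3) (En := eng) (mo := mog) (C1 := cd0q1) (C2 := cd3q2) (C3 := pd0)
    rfl (fun _ => rfl) k0_mm_102

noncomputable def f_mm_112 : ℕ → ℕ → ℕ → ℕ → Bool := onCell 536870912 536870912 536870912 536870912 1020054732 13421774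
    (rowB 3 eng mog cd0q1 cd3q2 pd1 1 false false false .dn 1 1 2 (qsf 536870912 536870912 1073741824 536870912 1) ndB0q1 ndB3q2 pcB1 Cut.none Ext.none)

def k0_mm_112 : ∃ t, chk3 f_mm_112 t 1 1 1 = true :=
  ⟨(l 5), by decide +kernel⟩

theorem c_mm_112 : CertB 536870912 536870912 1073741824 536870912 1020054732 13421774 3 eng mog cd0q1 cd3q2 pd1 false false false .dn 1 1 2
    ndB0q1 ndB3q2 pcB1 Cut.none Ext.none :=
  certB1 (fam := false) (s1 := false) (s2 := false) (a := 1) (b := 1) (c := 2) (cn := .dn) (n1 := ndB0q1) (n2 := ndB3q2) (pc := pcB1) (cut := Cut.none) (xt := Ext.none) (P1 := 536870912) (W1 := 536870912) (P2 := 1073741824) (W2 := 536870912) (P3 := 1020054732) (W3 := 13421774) (N0 := 3) (En := eng) (mo := mog) (C1 := cd0q1) (C2 := cd3q2) (C3 := pd1)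
    rfl (fun _ => rfl) k0_mm_112

noncomputable def f_mm_113 : ℕ → ℕ → ℕ → ℕ → Bool := onCell 536870912 536870912 0 1230186008 1020054732 13421774
    (rowB 3 eng mog cd0q1 cd3q3 pd1 0 false false false .nn 1 1 3 (qsf 536870912 536870912 0 1230186008 1) ndB0q1 ndB3q3 pcB1 Cut.none Ext.none)

def k0_mm_113 : ∃ t, chk3 f_mm_113 t 1 1 1 = true :=
  ⟨(b (l 5) (l 5)), by decide +kernel⟩

theorem c_mm_113 : CertB 536870912 536870912 0 1230186008 1020054732 13421774 3 eng mog cd0q1 cd3q3 pd1 false false false .nn 1 1 3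
    ndB0q1 ndB3q3 pcB1 Cut.none Ext.none :=
  certB0 (fam := false) (s1 := false) (s2 := false) (a := 1) (b := 1) (c := 3) (cn := .nn) (n1 := ndB0q1) (n2 := ndB3q3) (pc := pcB1) (cut := Cut.none) (xt := Ext.none) (P1 := 536870912) (W1 := 536870912) (P2 := 0) (W2 := 1230186008) (P3 := 1020054732) (W3 := 13421774) (N0 := 3) (En := eng) (mo := mog) (C1 := cd0q1) (C2 := cd3q3) (C3 := pd1)
    rfl k0_mm_113

noncomputable def f_mm_123 : ℕ → ℕ → ℕ → ℕ → Bool := onCell 536870912 536870912 0 1230186008 1020054732 13421774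
    (rowB 3 eng mog cd0q1 cd3q3 pd2 0 false false false .npn 1 2 3 (qsf 536870912 536870912 0 1230186008 2) ndB0q1 ndB3q3 pcB2 Cut.none Ext.none)

def k0_mm_123 : ∃ t, chk3 f_mm_123 t 1 1 1 = true :=
  ⟨(b (l 5) (l 5)), by decide +kernel⟩

theorem c_mm_123 : CertB 536870912 536870912 0 1230186008 1020054732 13421774 3 eng mog cd0q1 cd3q3 pd2 false false false .npn 1 2 3
    ndB0q1 ndB3q3 pcB2 Cut.none Ext.none :=
  certB0 (fam := false) (s1 := false) (s2 := false) (a := 1) (b := 2) (c := 3) (cn := .npn) (n1 := ndB0q1) (n2 := ndB3q3) (pc := pcB2) (cut := Cut.none) (xt := Ext.none) (P1 := 536870912) (W1 := 536870912) (P2 := 0) (W2 := 1230186008) (P3 := 1020054732) (W3 := 13421774) (N0 := 3) (En := eng) (mo := mog) (C1 := cd0q1) (C2 := cd3q3) (C3 := pd2)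
    rfl k0_mm_123

noncomputable def f_mm_133 : ℕ → ℕ → ℕ → ℕ → Bool := onCell 1610612736 536870912 0 1230186008 1020054732 13421774
    (rowB 3 eng mog cd0q1 cd3q3 pd3 2 false false false .dn 1 3 3 (qsf 536870912 536870912 0 1230186008 3) ndB0q1 ndB3q3 pcB3 Cut.none Ext.none)

def k0_mm_133 : ∃ t, chk3 f_mm_133 t 1 1 1 = true :=
  ⟨(l 5), by decide +kernel⟩

theorem c_mm_133 : CertB 536870912 536870912 0 1230186008 1020054732 13421774 3 eng mog cd0q1 cd3q3 pd3 false false false .dn 1 3 3
    ndB0q1 ndB3q3 pcB3 Cut.none Ext.none :=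
  certB2 (fam := false) (s1 := false) (s2 := false) (a := 1) (b := 3) (c := 3) (cn := .dn) (n1 := ndB0q1) (n2 := ndB3q3) (pc := pcB3) (cut := Cut.none) (xt := Ext.none) (P1 := 536870912) (W1 := 536870912) (P2 := 0) (W2 := 1230186008) (P3 := 1020054732) (W3 := 13421774) (N0 := 3) (En := eng) (mo := mog) (C1 := cd0q1) (C2 := cd3q3) (C3 := pd3)
    rfl (fun _ => rfl) k0_mm_133

noncomputable def f_mm_202 : ℕ → ℕ → ℕ → ℕ → Bool := onCell 0 536870912 1073741824 536870912 1020054732 13421774
    (rowB 3 eng mog cd0q2 cd3q2 pd0 0 false false false .pp 2 0 2 (qsf 0 536870912 1073741824 536870912 0) ndB0q2 ndB3q2 pcB0 Cut.none Ext.none)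

def k0_mm_202 : ∃ t, chk3 f_mm_202 t 1 1 1 = true :=
  ⟨(l 3), by decide +kernel⟩

theorem c_mm_202 : CertB 0 536870912 1073741824 536870912 1020054732 13421774 3 eng mog cd0q2 cd3q2 pd0 false false false .pp 2 0 2
    ndB0q2 ndB3q2 pcB0 Cut.none Ext.none :=
  certB0 (fam := false) (s1 := false) (s2 := false) (a := 2) (b := 0) (c := 2) (cn := .pp) (n1 := ndB0q2) (n2 := ndB3q2) (pc := pcB0) (cut := Cut.none) (xt := Ext.none) (P1 := 0) (W1 := 536870912) (P2 := 1073741824) (W2 := 536870912) (P3 := 1020054732) (W3 := 13421774) (N0 := 3) (En := eng) (mo := mog) (C1 := cd0q2) (C2 := cd3q2) (C3 := pd0)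
    rfl k0_mm_202

noncomputable def f_mm_203 : ℕ → ℕ → ℕ → ℕ → Bool := onCell 0 536870912 0 1230186008 1020054732 13421774
    (rowB 3 eng mog cd0q2 cd3q3 pd0 0 false false false .up 2 0 3 (qsf 0 536870912 0 1230186008 0) ndB0q2 ndB3q3 pcB0 Cut.none Ext.none)

def k0_mm_203 : ∃ t, chk3 f_mm_203 t 1 1 1 = true :=
  ⟨(b (l 2) (l 3)), by decide +kernel⟩

theorem c_mm_203 : CertB 0 536870912 0 1230186008 1020054732 13421774 3 eng mog cd0q2 cd3q3 pd0 false false false .up 2 0 3
    ndB0q2 ndB3q3 pcB0 Cut.none Ext.none :=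
  certB0 (fam := false) (s1 := false) (s2 := false) (a := 2) (b := 0) (c := 3) (cn := .up) (n1 := ndB0q2) (n2 := ndB3q3) (pc := pcB0) (cut := Cut.none) (xt := Ext.none) (P1 := 0) (W1 := 536870912) (P2 := 0) (W2 := 1230186008) (P3 := 1020054732) (W3 := 13421774) (N0 := 3) (En := eng) (mo := mog) (C1 := cd0q2) (C2 := cd3q3) (C3 := pd0)
    rfl k0_mm_203

noncomputable def f_mm_213 : ℕ → ℕ → ℕ → ℕ → Bool := onCell 0 536870912 0 1230186008 1020054732 13421774
    (rowB 3 eng mog cd0q2 cd3q3 pd1 0 false false false .pnn 2 1 3 (qsf 0 536870912 0 1230186008 1) ndB0q2 ndB3q3 pcB1 Cut.none Ext.none)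

def k0_mm_213 : ∃ t, chk3 f_mm_213 t 1 1 1 = true :=
  ⟨(b (a (l 3) (l 5)) (l 3)), by decide +kernel⟩

theorem c_mm_213 : CertB 0 536870912 0 1230186008 1020054732 13421774 3 eng mog cd0q2 cd3q3 pd1 false false false .pnn 2 1 3
    ndB0q2 ndB3q3 pcB1 Cut.none Ext.none :=
  certB0 (fam := false) (s1 := false) (s2 := false) (a := 2) (b := 1) (c := 3) (cn := .pnn) (n1 := ndB0q2) (n2 := ndB3q3) (pc := pcB1) (cut := Cut.none) (xt := Ext.none) (P1 := 0) (W1 := 536870912) (P2 := 0) (W2 := 1230186008) (P3 := 1020054732) (W3 := 13421774) (N0 := 3) (En := eng) (mo := mog) (C1 := cd0q2) (C2 := cd3q3) (C3 := pd1)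
    rfl k0_mm_213

end Pool.Agent.Strip051.G.I9500_9625.Tab.C.BB03

namespace Pool.Agent.Strip051.G.I9500_9625.Tab.C.BB04

open Pool.Agent.Strip051.PB Pool.Agent.Strip051.PB.T
open Pool.Agent.Strip051.G.I9500_9625.Tab

noncomputable def f_pp_001 : ℕ → ℕ → ℕ → ℕ → Bool := onCell 0 536870912 0 536870912 1020054732 13421774
    (rowB 3 eng mog cd0q0 cd4q1 pd0 1 false true true .up 0 0 1 (qsf 0 536870912 536870912 536870912 0) ndB0q0 ndB4q1 pcB0 Cut.none Ext.none)

def k0_pp_001 : ∃ t, chk3 f_pp_001 t 1 1 1 = true :=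
  ⟨(l 3), by decide +kernel⟩

theorem c_pp_001 : CertB 0 536870912 536870912 536870912 1020054732 13421774 3 eng mog cd0q0 cd4q1 pd0 false true true .up 0 0 1
    ndB0q0 ndB4q1 pcB0 Cut.none Ext.none :=
  certB1 (fam := false) (s1 := true) (s2 := true) (a := 0) (b := 0) (c := 1) (cn := .up) (n1 := ndB0q0) (n2 := ndB4q1) (pc := pcB0) (cut := Cut.none) (xt := Ext.none) (P1 := 0) (W1 := 536870912) (P2 := 536870912) (W2 := 536870912) (P3 := 1020054732) (W3 := 13421774) (N0 := 3) (En := eng) (mo := mog) (C1 := cd0q0) (C2 := cd4q1) (C3 := pd0)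
    rfl (fun _ => rfl) k0_pp_001

noncomputable def cut_pp_011 : Cut := Cut.of [[⟨0, 0, 0, 38347922⟩, ⟨1, 1, 0, 38347922⟩, ⟨2, 1, 0, 38347922⟩]]

noncomputable def f_pp_011 : ℕ → ℕ → ℕ → ℕ → Bool := onCell 0 536870912 536870912 536870912 1020054732 13421774
    (rowB 3 eng mog cd0q0 cd4q1 pd1 1 false true true .pnn 0 1 1 (qsf 0 536870912 536870912 536870912 1) ndB0q0 ndB4q1 pcB1 cut_pp_011 Ext.none)

def k0_pp_011 : ∃ t, chk3 f_pp_011 t 1 1 1 = true :=
  ⟨(b (l 3) (a (b (l 3) (a (b (l 3) (a (b (l 3) (a (l 6) (l 3))) (l 3))) (l 3))) (l 3))), by decide +kernel⟩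

theorem c_pp_011 : CertB 0 536870912 536870912 536870912 1020054732 13421774 3 eng mog cd0q0 cd4q1 pd1 false true true .pnn 0 1 1
    ndB0q0 ndB4q1 pcB1 cut_pp_011 Ext.none :=
  certB1 (fam := false) (s1 := true) (s2 := true) (a := 0) (b := 1) (c := 1) (cn := .pnn) (n1 := ndB0q0) (n2 := ndB4q1) (pc := pcB1) (cut := cut_pp_011) (xt := Ext.none) (P1 := 0) (W1 := 536870912) (P2 := 536870912) (W2 := 536870912) (P3 := 1020054732) (W3 := 13421774) (N0 := 3) (En := eng) (mo := mog) (C1 := cd0q0) (C2 := cd4q1) (C3 := pd1)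
    rfl (fun _ => rfl) k0_pp_011

noncomputable def f_pp_012 : ℕ → ℕ → ℕ → ℕ → Bool := onCell 0 536870912 536870912 536870912 1020054732 13421774
    (rowB 3 eng mog cd0q0 cd4q2 pd1 1 false true true .pnp 0 1 2 (qsf 0 536870912 1073741824 536870912 1) ndB0q0 ndB4q2 pcB1 Cut.none Ext.none)

def k0_pp_012 : ∃ t, chk3 f_pp_012 t 1 1 1 = true :=
  ⟨(l 3), by decide +kernel⟩

theorem c_pp_012 : CertB 0 536870912 1073741824 536870912 1020054732 13421774 3 eng mog cd0q0 cd4q2 pd1 false true true .pnp 0 1 2
    ndB0q0 ndB4q2 pcB1 Cut.none Ext.none :=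
  certB1 (fam := false) (s1 := true) (s2 := true) (a := 0) (b := 1) (c := 2) (cn := .pnp) (n1 := ndB0q0) (n2 := ndB4q2) (pc := pcB1) (cut := Cut.none) (xt := Ext.none) (P1 := 0) (W1 := 536870912) (P2 := 1073741824) (W2 := 536870912) (P3 := 1020054732) (W3 := 13421774) (N0 := 3) (En := eng) (mo := mog) (C1 := cd0q0) (C2 := cd4q2) (C3 := pd1)
    rfl (fun _ => rfl) k0_pp_012

noncomputable def f_pp_022 : ℕ → ℕ → ℕ → ℕ → Bool := onCell 0 536870912 1073741824 536870912 1020054732 13421774
    (rowB 3 eng mog cd0q0 cd4q2 pd2 1 false true true .pp 0 2 2 (qsf 0 536870912 1073741824 536870912 2) ndB0q0 ndB4q2 pcB2 Cut.none Ext.none)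

def k0_pp_022 : ∃ t, chk3 f_pp_022 t 1 4 1 = true :=
  ⟨(a (l 3) (l 3)), by decide +kernel⟩

def k1_pp_022 : ∃ t, chk3 f_pp_022 t 4 5 1 = true :=
  ⟨(b (b (b (l 3) (a (b (a (a (l 15820952) (l 15710984)) (a (l 15601312) (b (l 3) (l 15484432)))) (b (a (l 15660088) (a (l 15541384) (b (l 15466368) (l 15454456)))) (b (a (a (l 15759016) (l 15650848)) (a (l 15522992) (l 15442640))) (c (a (l 15703896) (b (b (b (l 15391064) (b (l 15413712) (l 15416776))) (l 15500528)) (l 15495888))) (a (l 15704800) (a (l 15533472) (l 15405616))))))) (b (a (b (l 3) (c (l 15337280) (l 15335640))) (l 3)) (b (a (c (b (l 15300536) (l 15290144)) (l 15229992)) (a (b (l 15211888) (l 15202600)) (b (l 1660706271239) (c (l 15149088) (l 15117488))))) (a (b (l 15288848) (b (b (b (l 15262008) (b (a (l 15345520) (l 15262504)) (c (a (l 15357648) (l 15275112)) (l 15271448)))) (a (l 15347296) (l 15260704))) (a (l 15342992) (l 15256936)))) (a (l 15188848) (c (l 15136856) (l 15104768)))))))) (a (a (a (l 15518312) (l 15393672)) (a (b (l 15487880) (l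 15388296)) (b (l 15365552) (l 15273744)))) (a (a (b (l 15274960) (l 15214288)) (b (a (l 15234616) (l 15197032)) (l 15142688))) (b (c (a (l 15160008) (l 15097608)) (l 15074784)) (a (l 15078584) (c (l 15039480) (l 15003448))))))) (a (a (b (a (l 15429152) (l 15338792)) (a (l 15239216) (l 15167752))) (b (a (l 15252896) (l 15174264)) (a (l 15099104) (l 15036088)))) (a (b (c (l 15069992) (l 15058168)) (l 14936632)) (b (a (b (l 15018520) (l 14964296)) (b (l 14968096) (l 14920472))) (a (l 14893888) (l 14859856)))))), by decide +kernel⟩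

def k2_pp_022 : ∃ t, chk3 f_pp_022 t 5 5 1 = true :=
  ⟨(b (b (b (l 3) (b (l 3) (b (b (l 3) (a (a (a (c (a (l 15102472) (l 15073424)) (l 15053528)) (b (l 3) (c (a (l 15044264) (l 15018480)) (l 14994480)))) (a (a (c (l 241756204039) (l 14957440)) (l 3)) (l 3))) (l 3))) (a (a (a (c (l 15076784) (l 15042072)) (c (a (l 15035872) (l 15010600)) (l 14986000))) (a (c (c (l 14985384) (l 14965864)) (l 14936400)) (c (l 250346037607) (l 14893152)))) (a (c (a (l 14899112) (l 14869792)) (l 14840024)) (c (a (l 14846280) (l 14828416)) (l 14789856))))))) (a (a (a (b (c (b (l 15055400) (l 15028152)) (l 15005464)) (c (l 14990032) (l 14951672))) (b (c (a (l 15024720) (l 14980480)) (l 14953544)) (l 14968576))) (b (a (c (b (l 14959080) (l 14938232)) (l 14908040)) (c (b (l 14920152) (l 14902432)) (l 14868824))) (a (l 14888568) (l 14856584)))) (c (a (b (a (b (l 14887224) (l 14872576)) (l 14854240)) (a (l 14853248) (l 14833712))) (b (a (l 14834448) (l 14820224)) (a (l 14819800) (l 14811344)))) (a (a (l 14863096) (l 14797160)) (a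 (l 14778960) (l 14766424)))))) (a (b (a (a (b (l 14924040) (l 14882912)) (l 14931208)) (a (l 14902640) (b (l 14828760) (l 14806472)))) (a (a (l 14831928) (l 14809968)) (a (l 14793824) (l 14783368)))) (a (b (a (b (l 14808848) (l 14792616)) (b (l 14794640) (l 14784344))) (a (l 14778464) (l 14778944))) (b (a (b (l 14785984) (l 14781504)) (b (l 14782744) (l 14783952))) (a (l 14784672) (l 14795496)))))), by decide +kernel⟩

def k3_pp_022 : ∃ t, chk3 f_pp_022 t 3 5 1 = true :=
  ⟨(b (b (b (l 3) (a (b (l 3) (b (l 3) (a (a (c (a (l 14816040) (l 14809000)) (l 14762624)) (c (a (l 14807168) (l 14810384)) (l 79083859847))) (a (c (a (l 94653209319) (a (l 14827672) (l 106464391111))) (a (l 14766640) (l 14779200))) (a (a (c (a (l 110222493143) (l 112369986087)) (l 14791704)) (l 2)) (l 2)))))) (l 2))) (a (a (c (a (b (a (l 14811416) (l 14807872)) (a (l 14808176) (l 14810160))) (b (a (c (l 14822136) (l 14796744)) (c (l 14828824) (l 14803160))) (a (l 14817136) (l 14828952)))) (a (a (l 14759432) (l 14757840)) (b (a (l 14758360)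 (l 14764368)) (l 14770944)))) (b (a (c (a (b (l 14823584) (l 14831392)) (b (a (l 14834176) (l 14842704)) (l 14848688))) (a (l 14775376) (l 14791216))) (a (a (a (c (l 35530348199) (l 14803384)) (l 2)) (l 2)) (l 2))) (a (c (a (l 14845456) (l 14866480)) (l 29624764167)) (l 2)))) (l 2))) (a (a (a (b (c (b (l 14813416) (l 14823088)) (l 14766576)) (c (l 14847000) (l 14795368))) (b (b (c (l 14837944) (l 14786048)) (l 14832168)) (c (l 14897216) (l 14845648)))) (a (a (a (b (l 14849272) (l 2)) (l 2)) (l 2)) (l 2))) (l 2))), by decide +kernel⟩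

def k4_pp_022 : ∃ t, chk3 f_pp_022 t 1 3 1 = true :=
  ⟨(a (a (b (a (a (b (a (l 15011832) (l 14962328)) (l 14778560)) (b (a (l 14915240) (l 14873312)) (a (l 14746912) (l 14732160)))) (b (a (b (l 14863432) (l 14791288)) (b (l 14808312) (l 14761808))) (a (b (l 14740288) (l 14709424)) (b (l 14735808) (l 14729248))))) (a (b (a (b (l 14676480) (l 14633376)) (a (l 14660280) (l 14671376))) (a (b (l 14608464) (l 14593144)) (b (a (l 14641544) (l 14665360)) (a (l 14629888) (l 2))))) (b (a (b (l 14697584) (l 14699984)) (b (l 14781056) (l 162232124679))) (a (b (l 14699512) (l 2)) (l 2))))) (b (a (b (a (b (a (l 14782896) (l 14773288)) (l 14755736)) (b (a (l 14769272) (l 14770696)) (l 14771264))) (b (a (l 14753616) (l 14791976)) (a (l 14895704) (c (l 14847248) (l 14792432))))) (b (a (b (l 14804008) (l 14807200)) (b (l 14816680) (c (l 14885336) (l 14833104)))) (b (a (c (l 14869896) (l 14816552)) (l 2)) (l 2)))) (b (a (b (a (b (l 14786560) (l 2)) (l 2)) (l 2)) (l 2)) (l 2)))) (b (a (b (a (b (a (c (l 14894416) (l 14842904))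 (l 2)) (l 2)) (l 2)) (l 2)) (l 2)) (l 2))), by decide +kernel⟩

theorem s5_pp_022 : ∃ t, chk3 f_pp_022 t 2 5 1 = true := ex3_a k1_pp_022 k2_pp_022

theorem s6_pp_022 : ∃ t, chk3 f_pp_022 t 1 5 1 = true := ex3_a s5_pp_022 k3_pp_022

theorem s7_pp_022 : ∃ t, chk3 f_pp_022 t 1 2 1 = true := ex3_b k0_pp_022 s6_pp_022

theorem s8_pp_022 : ∃ t, chk3 f_pp_022 t 1 1 1 = true := ex3_b s7_pp_022 k4_pp_022

theorem c_pp_022 : CertB 0 536870912 1073741824 536870912 1020054732 13421774 3 eng mog cd0q0 cd4q2 pd2 false true true .pp 0 2 2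
    ndB0q0 ndB4q2 pcB2 Cut.none Ext.none :=
  certB1 (fam := false) (s1 := true) (s2 := true) (a := 0) (b := 2) (c := 2) (cn := .pp) (n1 := ndB0q0) (n2 := ndB4q2) (pc := pcB2) (cut := Cut.none) (xt := Ext.none) (P1 := 0) (W1 := 536870912) (P2 := 1073741824) (W2 := 536870912) (P3 := 1020054732) (W3 := 13421774) (N0 := 3) (En := eng) (mo := mog) (C1 := cd0q0) (C2 := cd4q2) (C3 := pd2)
    rfl (fun _ => rfl) s8_pp_022

noncomputable def f_pp_023 : ℕ → ℕ → ℕ → ℕ → Bool := onCell 1073741824 536870912 0 1230186008 1020054732 13421774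
    (rowB 3 eng mog cd0q0 cd4q3 pd2 2 false true true .up 0 2 3 (qsf 0 536870912 0 1230186008 2) ndB0q0 ndB4q3 pcB2 Cut.none Ext.none)

def k0_pp_023 : ∃ t, chk3 f_pp_023 t 2 1 1 = true :=
  ⟨(b (l 2) (b (a (l 2) (a (l 2) (b (l 2) (b (l 2) (a (l 2) (l 16349648)))))) (a (l 3) (a (b (b (a (l 2) (b (l 2) (l 258335139143))) (b (a (l 2) (a (l 296452878663) (l 16551136))) (a (a (l 3) (a (a (l 3) (l 16583656)) (a (l 50029187127) (c (a (l 16608240) (b (l 16605960) (l 16601336))) (a (l 16577072) (b (l 16553992) (l 16568912))))))) (a (l 16529016) (l 16542528))))) (a (a (l 3) (a (b (b (a (l 3) (l 16588976)) (l 3)) (l 3)) (b (a (b (l 16539888) (l 16536560)) (b (a (l 16576432) (b (l 16556600) (l 16567456))) (l 16549624))) (a (b (l 16522712) (l 3)) (b (l 16514032) (l 16464840)))))) (b (b (a (l 16534720) (l 16525096)) (l 16408016)) (b (l 16473608) (l 16420288))))) (b (b (a (b (l 16512472) (l 16514104)) (b (l 16461624) (l 16460152))) (b (a (l 16509880) (l 16452040)) (a (l 16498144) (l 16435512)))) (b (b (a (l 16476864) (l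 16408440)) (a (l 16443616) (l 16368320))) (b (a (l 16397232) (l 16313728)) (l 16143600)))))))), by decide +kernel⟩

def k1_pp_023 : ∃ t, chk3 f_pp_023 t 3 1 1 = true :=
  ⟨(b (a (l 2) (b (a (l 2) (b (l 14791032) (l 15128224))) (a (b (l 237394846199) (b (l 15871280) (a (l 16033568) (l 15962736)))) (b (l 15452664) (b (l 15691488) (l 15834136)))))) (b (a (b (a (l 2) (b (a (l 2) (l 16150824)) (a (l 16248264) (l 16196464)))) (a (b (a (l 271756375943) (b (l 16327632) (l 16343064))) (a (l 16384456) (l 16269448))) (b (a (l 16283248) (l 16228256)) (a (l 16193560) (l 16092208))))) (b (a (b (a (l 16099472) (l 16043616)) (a (l 16142824) (l 16086816))) (b (a (l 15982016) (l 15910192)) (a (l 16027936) (b (l 15958240) (l 15970152))))) (a (b (a (l 16170208) (l 16108608)) (a (l 16089896) (l 16103560))) (b (a (l 16042952) (l 15972776)) (a (l 16028184) (l 15947056)))))) (b (a (a (b (a (l 16385160) (l 16347216)) (a (l 16337896) (l 16310120))) (b (a (l 16283880) (l 16215344)) (b (l 16212688) (l 16173312)))) (a (b (a (l 16119568)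 (l 15954512)) (b (l 16041808) (l 15985400))) (b (b (a (l 15990840) (l 15899088)) (a (l 15949216) (l 15848888))) (a (l 15754176) (b (l 15783496) (l 15701904)))))) (a (b (a (b (l 16252680) (l 16200560)) (b (l 16119696) (l 16048880))) (a (b (a (l 16222496) (l 16123064)) (l 16088264)) (b (a (l 16015128) (l 15898384)) (a (l 15911616) (l 15780552))))) (b (a (b (l 15849616) (l 15819992)) (b (a (l 15733472) (l 15602088)) (a (l 15623784) (l 15477368)))) (a (b (a (l 15771768) (l 15635648)) (a (l 15639600) (l 15485080))) (b (a (l 15486288) (b (l 15372144) (l 15276064))) (a (b (l 15368064) (l 15267056)) (b (l 15181680) (l 15081728)))))))))), by decide +kernel⟩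

theorem s2_pp_023 : ∃ t, chk3 f_pp_023 t 1 1 1 = true := ex3_a k0_pp_023 k1_pp_023

theorem c_pp_023 : CertB 0 536870912 0 1230186008 1020054732 13421774 3 eng mog cd0q0 cd4q3 pd2 false true true .up 0 2 3
    ndB0q0 ndB4q3 pcB2 Cut.none Ext.none :=
  certB2 (fam := false) (s1 := true) (s2 := true) (a := 0) (b := 2) (c := 3) (cn := .up) (n1 := ndB0q0) (n2 := ndB4q3) (pc := pcB2) (cut := Cut.none) (xt := Ext.none) (P1 := 0) (W1 := 536870912) (P2 := 0) (W2 := 1230186008) (P3 := 1020054732) (W3 := 13421774) (N0 := 3) (En := eng) (mo := mog) (C1 := cd0q0) (C2 := cd4q3) (C3 := pd2)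
    rfl (fun _ => rfl) s2_pp_023

noncomputable def f_pp_033 : ℕ → ℕ → ℕ → ℕ → Bool := onCell 1610612736 536870912 0 1230186008 1020054732 13421774
    (rowB 3 eng mog cd0q0 cd4q3 pd3 2 false true true .pnn 0 3 3 (qsf 0 536870912 0 1230186008 3) ndB0q0 ndB4q3 pcB3 Cut.none Ext.none)

def k0_pp_033 : ∃ t, chk3 f_pp_033 t 1 2 1 = true :=
  ⟨(b (a (a (a (b (l 16473216) (l 16445360)) (b (l 16377144) (l 16325416))) (a (b (l 16265152) (a (l 16248648) (l 16192816))) (b (l 16171728) (l 16104952)))) (a (a (b (l 4) (l 16008088)) (l 4)) (l 4))) (a (a (b (a (l 16381680) (l 16245544)) (a (b (l 16315232) (l 16257928)) (b (l 16159440) (l 16086768)))) (b (a (b (l 16145912) (l 16075224)) (b (l 16010856) (l 15923168))) (a (b (l 15994240) (l 15899792)) (b (l 15817184) (l 15671856))))) (b (a (a (a (l 15838736) (l 15753912)) (a (l 15665624) (l 15565984))) (l 4)) (a (a (a (b (l 15670368) (l 15519504)) (b (l 15557032) (l 15389184))) (a (b (l 15424440) (a (l 15278680) (l 15199408))) (b (l 15284664) (a (l 15107128) (l 15015624)))))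 (a (a (b (l 4) (a (l 14923832) (l 14841432))) (l 4)) (l 4)))))), by decide +kernel⟩

def k1_pp_033 : ∃ t, chk3 f_pp_033 t 2 6 1 = true :=
  ⟨(a (b (a (b (l 16061592) (a (b (l 16166392) (l 16102128)) (b (l 16075776) (l 15955888)))) (b (l 15956760) (a (l 15945352) (l 15834344)))) (a (b (a (b (l 16026768) (l 15958176)) (b (l 15947384) (l 15872424))) (a (b (l 15897040) (l 15844576)) (b (l 15805216) (a (l 15772960) (l 15720024))))) (b (a (b (b (l 15846608) (l 15809600)) (l 15770784)) (b (l 15731312) (a (l 15662192) (l 15597896)))) (a (b (a (l 15725824) (l 15667312)) (a (l 15662744) (l 15600896))) (b (a (l 15604152) (l 15536144)) (a (l 15534256) (l 15462616))))))) (b (a (b (a (l 15843520) (l 15731904)) (a (l 15716240) (l 15590264))) (b (a (l 15612936) (l 15485144)) (a (l 15456480) (l 15309576)))) (a (b (a (b (l 15603208) (a (l 15551312) (l 15481184))) (b (l 15466112) (l 15372144))) (a (b (a (l 15462960) (b (l 15409408) (l 15363664))) (a (l 15386056) (l 15303368))) (b (a (l 15308080) (l 15226976)) (a (l 15214168)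 (b (l 15143416) (l 15098808)))))) (b (a (b (l 15319328) (l 15215560)) (b (a (l 15199888) (l 15117992)) (a (l 15090608) (l 14995816)))) (a (b (a (l 15148664) (l 15057896)) (a (b (l 15053032) (l 14992120)) (b (l 14958200) (l 14890736)))) (b (a (l 14962408) (l 14868072)) (a (l 14830216) (l 14743272)))))))), by decide +kernel⟩

def k2_pp_033 : ∃ t, chk3 f_pp_033 t 3 6 1 = true :=
  ⟨(b (a (a (b (a (l 15346440) (b (l 15243664) (l 15140680))) (a (b (l 15211544) (l 15096872)) (b (l 15021152) (l 14836792)))) (b (a (b (l 15068760) (l 14944216)) (b (l 14876040) (l 14751880))) (a (b (l 14822248) (l 14709608)) (b (l 14646112) (l 1))))) (b (a (a (l 470865717159) (l 1)) (l 1)) (l 1))) (a (a (b (a (b (l 14953776) (a (l 14900368) (l 14803648))) (b (l 14783176) (l 14677160))) (a (b (l 14734760) (l 14636176)) (b (l 14590952) (l 1)))) (b (a (l 36536880375) (l 1)) (l 1))) (l 1))), by decide +kernel⟩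

def k3_pp_033 : ∃ t, chk3 f_pp_033 t 1 7 1 = true :=
  ⟨(a (b (a (a (b (a (b (l 15718256) (c (l 15794064) (l 15742424))) (b (c (l 15719760) (l 15673512)) (c (l 15695240) (l 15625328)))) (b (a (c (b (l 15786896) (l 15770976)) (l 15507704)) (b (l 15644624) (a (l 15657760) (l 15602944)))) (a (c (l 15717328) (l 15602592)) (c (l 15624080) (l 15491592))))) (b (a (b (c (l 15607200) (l 15545328)) (c (l 15577928) (l 15491952))) (b (a (l 15475296) (l 15400320)) (c (l 15437664) (l 15337656)))) (a (b (c (l 15564272) (l 15384768)) (b (a (l 15511704) (l 15451056)) (l 15306496))) (b (a (b (l 15402392) (l 15389856)) (b (l 15320768) (l 15301288))) (b (a (l 15374008) (l 15287960)) (a (l 15323944) (l 15257728))))))) (a (b (a (b (a (l 15319104) (b (l 15249040) (l 15218192))) (a (l 15056232) (l 14979232))) (b (a (l 15138720) (b (l 15054112) (l 15015096))) (a (l 15006040) (l 14925352)))) (a (b (a (l 14985592) (l 14975792)) (c (b (l 15235568) (l 15229904)) (l 14819120))) (b (a (l 15026168) (l 14930320)) (a (l 15007048) (l 1)))))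 (b (a (b (a (l 14925976) (l 14817152)) (a (l 14865768) (l 14770496))) (b (a (b (l 14739632) (l 14706224)) (l 14646528)) (l 1))) (l 1)))) (a (b (a (b (a (c (l 15599880) (l 15456824)) (b (a (l 15482768) (l 15425112)) (l 15147936))) (a (b (l 15172856) (l 15178480)) (a (l 15021968) (l 15011032)))) (b (a (b (l 15325504) (l 15078016)) (c (l 15241192) (l 15047448))) (a (b (l 15111464) (l 14991768)) (l 14676544)))) (a (b (a (b (l 15159696) (l 15019736)) (l 14681448)) (a (c (l 14891896) (l 14697152)) (b (l 14735016) (l 1)))) (b (a (l 14746248) (l 1)) (l 1)))) (a (b (b (a (b (l 15077536) (l 1)) (l 1)) (l 1)) (l 1)) (l 1)))) (l 1)), by decide +kernel⟩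

theorem s4_pp_033 : ∃ t, chk3 f_pp_033 t 1 6 1 = true := ex3_a k1_pp_033 k2_pp_033

theorem s5_pp_033 : ∃ t, chk3 f_pp_033 t 1 3 1 = true := ex3_b s4_pp_033 k3_pp_033

theorem s6_pp_033 : ∃ t, chk3 f_pp_033 t 1 1 1 = true := ex3_b k0_pp_033 s5_pp_033

theorem c_pp_033 : CertB 0 536870912 0 1230186008 1020054732 13421774 3 eng mog cd0q0 cd4q3 pd3 false true true .pnn 0 3 3
    ndB0q0 ndB4q3 pcB3 Cut.none Ext.none :=
  certB2 (fam := false) (s1 := true) (s2 := true) (a := 0) (b := 3) (c := 3) (cn := .pnn) (n1 := ndB0q0) (n2 := ndB4q3) (pc := pcB3) (cut := Cut.none) (xt := Ext.none) (P1 := 0) (W1 := 536870912) (P2 := 0) (W2 := 1230186008) (P3 := 1020054732) (W3 := 13421774) (N0 := 3) (En := eng) (mo := mog) (C1 := cd0q0) (C2 := cd4q3) (C3 := pd3)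
    rfl (fun _ => rfl) s6_pp_033

noncomputable def f_pp_101 : ℕ → ℕ → ℕ → ℕ → Bool := onCell 536870912 536870912 536870912 536870912 1020054732 13421774
    (rowB 3 eng mog cd0q1 cd4q1 pd0 0 false true true .npn 1 0 1 (qsf 536870912 536870912 536870912 536870912 0) ndB0q1 ndB4q1 pcB0 Cut.none Ext.none)

def k0_pp_101 : ∃ t, chk3 f_pp_101 t 1 1 1 = true :=
  ⟨(a (l 3) (l 5)), by decide +kernel⟩

theorem c_pp_101 : CertB 536870912 536870912 536870912 536870912 1020054732 13421774 3 eng mog cd0q1 cd4q1 pd0 false true true .npn 1 0 1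
    ndB0q1 ndB4q1 pcB0 Cut.none Ext.none :=
  certB0 (fam := false) (s1 := true) (s2 := true) (a := 1) (b := 0) (c := 1) (cn := .npn) (n1 := ndB0q1) (n2 := ndB4q1) (pc := pcB0) (cut := Cut.none) (xt := Ext.none) (P1 := 536870912) (W1 := 536870912) (P2 := 536870912) (W2 := 536870912) (P3 := 1020054732) (W3 := 13421774) (N0 := 3) (En := eng) (mo := mog) (C1 := cd0q1) (C2 := cd4q1) (C3 := pd0)
    rfl k0_pp_101

noncomputable def f_pp_102 : ℕ → ℕ → ℕ → ℕ → Bool := onCell 536870912 536870912 1073741824 536870912 1020054732 13421774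
    (rowB 3 eng mog cd0q1 cd4q2 pd0 0 false true true .npp 1 0 2 (qsf 536870912 536870912 1073741824 536870912 0) ndB0q1 ndB4q2 pcB0 Cut.none Ext.none)

def k0_pp_102 : ∃ t, chk3 f_pp_102 t 1 1 1 = true :=
  ⟨(l 3), by decide +kernel⟩

theorem c_pp_102 : CertB 536870912 536870912 1073741824 536870912 1020054732 13421774 3 eng mog cd0q1 cd4q2 pd0 false true true .npp 1 0 2
    ndB0q1 ndB4q2 pcB0 Cut.none Ext.none :=
  certB0 (fam := false) (s1 := true) (s2 := true) (a := 1) (b := 0) (c := 2) (cn := .npp) (n1 := ndB0q1) (n2 := ndB4q2) (pc := pcB0) (cut := Cut.none) (xt := Ext.none) (P1 := 536870912) (W1 := 536870912) (P2 := 1073741824) (W2 := 536870912) (P3 := 1020054732) (W3 := 13421774) (N0 := 3) (En := eng) (mo := mog) (C1 := cd0q1) (C2 := cd4q2) (C3 := pd0)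
    rfl k0_pp_102

noncomputable def f_pp_112 : ℕ → ℕ → ℕ → ℕ → Bool := onCell 536870912 536870912 1073741824 536870912 1020054732 13421774
    (rowB 3 eng mog cd0q1 cd4q2 pd1 0 false true true .dn 1 1 2 (qsf 536870912 536870912 1073741824 536870912 1) ndB0q1 ndB4q2 pcB1 Cut.none Ext.none)

def k0_pp_112 : ∃ t, chk3 f_pp_112 t 1 1 1 = true :=
  ⟨(l 3), by decide +kernel⟩

theorem c_pp_112 : CertB 536870912 536870912 1073741824 536870912 1020054732 13421774 3 eng mog cd0q1 cd4q2 pd1 false true true .dn 1 1 2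
    ndB0q1 ndB4q2 pcB1 Cut.none Ext.none :=
  certB0 (fam := false) (s1 := true) (s2 := true) (a := 1) (b := 1) (c := 2) (cn := .dn) (n1 := ndB0q1) (n2 := ndB4q2) (pc := pcB1) (cut := Cut.none) (xt := Ext.none) (P1 := 536870912) (W1 := 536870912) (P2 := 1073741824) (W2 := 536870912) (P3 := 1020054732) (W3 := 13421774) (N0 := 3) (En := eng) (mo := mog) (C1 := cd0q1) (C2 := cd4q2) (C3 := pd1)
    rfl k0_pp_112

noncomputable def cut_pp_113 : Cut := Cut.of [[⟨0, 1, 0, 26738688⟩, ⟨1, 1, 0, 26738688⟩, ⟨2, 2, 0, 2621440⟩]]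

noncomputable def f_pp_113 : ℕ → ℕ → ℕ → ℕ → Bool := onCell 536870912 536870912 0 1230186008 1020054732 13421774
    (rowB 3 eng mog cd0q1 cd4q3 pd1 2 false true true .nn 1 1 3 (qsf 536870912 536870912 0 1230186008 1) ndB0q1 ndB4q3 pcB1 cut_pp_113 Ext.none)

def k0_pp_113 : ∃ t, chk3 f_pp_113 t 1 1 1 = true :=
  ⟨(b (a (l 2) (a (l 2) (b (a (l 2) (a (l 2) (a (l 3) (b (b (l 6) (l 3)) (l 3))))) (l 3)))) (b (a (a (l 2) (a (l 2) (b (l 2) (l 3)))) (l 3)) (a (b (a (l 2) (l 3)) (l 3)) (l 3)))), by decide +kernel⟩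

theorem c_pp_113 : CertB 536870912 536870912 0 1230186008 1020054732 13421774 3 eng mog cd0q1 cd4q3 pd1 false true true .nn 1 1 3
    ndB0q1 ndB4q3 pcB1 cut_pp_113 Ext.none :=
  certB2 (fam := false) (s1 := true) (s2 := true) (a := 1) (b := 1) (c := 3) (cn := .nn) (n1 := ndB0q1) (n2 := ndB4q3) (pc := pcB1) (cut := cut_pp_113) (xt := Ext.none) (P1 := 536870912) (W1 := 536870912) (P2 := 0) (W2 := 1230186008) (P3 := 1020054732) (W3 := 13421774) (N0 := 3) (En := eng) (mo := mog) (C1 := cd0q1) (C2 := cd4q3) (C3 := pd1)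
    rfl (fun _ => rfl) k0_pp_113

end Pool.Agent.Strip051.G.I9500_9625.Tab.C.BB04

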