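import Pool.Agent.Strip051.G.I9500_9625.Tab

/-! # Certificates B26 (generated) -/

set_option linter.all false
set_option maxRecDepth 100000

namespace Pool.Agent.Strip051.G.I9500_9625.Tab.C.BB04

open Pool.Agent.Strip051.PB Pool.Agent.Strip051.PB.T
open Pool.Agent.Strip051.G.I9500_9625.Tab

noncomputable def f_pp_133 : ℕ → ℕ → ℕ → ℕ → Bool := onCell 536870912 536870912 0 1230186008 1020054732 13421774
    (rowB 3 eng mog cd0q1 cd4q3 pd3 0 false true true .dn 1 3 3 (qsf 536870912 536870912 0 1230186008 3) ndB0q1 ndB4q3 pcB3 Cut.none Ext.none)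

def k0_pp_133 : ∃ t, chk3 f_pp_133 t 1 1 1 = true :=
  ⟨(b (b (a (a (a (l 16590464) (l 1)) (l 1)) (l 1)) (l 1)) (l 1)), by decide +kernel⟩

theorem c_pp_133 : CertB 536870912 536870912 0 1230186008 1020054732 13421774 3 eng mog cd0q1 cd4q3 pd3 false true true .dn 1 3 3
    ndB0q1 ndB4q3 pcB3 Cut.none Ext.none :=
  certB0 (fam := false) (s1 := true) (s2 := true) (a := 1) (b := 3) (c := 3) (cn := .dn) (n1 := ndB0q1) (n2 := ndB4q3) (pc := pcB3) (cut := Cut.none) (xt := Ext.none) (P1 := 536870912) (W1 := 536870912) (P2 := 0) (W2 := 1230186008) (P3 := 1020054732) (W3 := 13421774) (N0 := 3) (En := eng) (mo := mog) (C1 := cd0q1) (C2 := cd4q3) (C3 := pd3)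
    rfl k0_pp_133

noncomputable def f_pp_202 : ℕ → ℕ → ℕ → ℕ → Bool := onCell 0 536870912 1073741824 536870912 1020054732 13421774
    (rowB 3 eng mog cd0q2 cd4q2 pd0 0 false true true .pp 2 0 2 (qsf 0 536870912 1073741824 536870912 0) ndB0q2 ndB4q2 pcB0 Cut.none Ext.none)

def k0_pp_202 : ∃ t, chk3 f_pp_202 t 1 1 1 = true :=
  ⟨(l 5), by decide +kernel⟩

theorem c_pp_202 : CertB 0 536870912 1073741824 536870912 1020054732 13421774 3 eng mog cd0q2 cd4q2 pd0 false true true .pp 2 0 2
    ndB0q2 ndB4q2 pcB0 Cut.none Ext.none :=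
  certB0 (fam := false) (s1 := true) (s2 := true) (a := 2) (b := 0) (c := 2) (cn := .pp) (n1 := ndB0q2) (n2 := ndB4q2) (pc := pcB0) (cut := Cut.none) (xt := Ext.none) (P1 := 0) (W1 := 536870912) (P2 := 1073741824) (W2 := 536870912) (P3 := 1020054732) (W3 := 13421774) (N0 := 3) (En := eng) (mo := mog) (C1 := cd0q2) (C2 := cd4q2) (C3 := pd0)
    rfl k0_pp_202

noncomputable def f_pp_203 : ℕ → ℕ → ℕ → ℕ → Bool := onCell 0 536870912 0 1230186008 1020054732 13421774
    (rowB 3 eng mog cd0q2 cd4q3 pd0 0 false true true .up 2 0 3 (qsf 0 536870912 0 1230186008 0) ndB0q2 ndB4q3 pcB0 Cut.none Ext.none)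

def k0_pp_203 : ∃ t, chk3 f_pp_203 t 1 1 1 = true :=
  ⟨(b (l 2) (a (b (l 2) (l 3)) (l 3))), by decide +kernel⟩

theorem c_pp_203 : CertB 0 536870912 0 1230186008 1020054732 13421774 3 eng mog cd0q2 cd4q3 pd0 false true true .up 2 0 3
    ndB0q2 ndB4q3 pcB0 Cut.none Ext.none :=
  certB0 (fam := false) (s1 := true) (s2 := true) (a := 2) (b := 0) (c := 3) (cn := .up) (n1 := ndB0q2) (n2 := ndB4q3) (pc := pcB0) (cut := Cut.none) (xt := Ext.none) (P1 := 0) (W1 := 536870912) (P2 := 0) (W2 := 1230186008) (P3 := 1020054732) (W3 := 13421774) (N0 := 3) (En := eng) (mo := mog) (C1 := cd0q2) (C2 := cd4q3) (C3 := pd0)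
    rfl k0_pp_203

noncomputable def cut_pp_213 : Cut := Cut.of [[⟨0, 1, 0, 26738688⟩, ⟨1, 1, 0, 26738688⟩, ⟨2, 2, 0, 2621440⟩]]

noncomputable def f_pp_213 : ℕ → ℕ → ℕ → ℕ → Bool := onCell 0 536870912 0 1230186008 1020054732 13421774
    (rowB 3 eng mog cd0q2 cd4q3 pd1 0 false true true .pnn 2 1 3 (qsf 0 536870912 0 1230186008 1) ndB0q2 ndB4q3 pcB1 cut_pp_213 Ext.none)

def k0_pp_213 : ∃ t, chk3 f_pp_213 t 1 1 1 = true :=
  ⟨(b (a (l 3) (a (l 3) (b (a (l 3) (b (a (l 3) (b (l 6) (l 3))) (l 3))) (l 3)))) (a (b (l 3) (l 3)) (l 3))), by decide +kernel⟩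

theorem c_pp_213 : CertB 0 536870912 0 1230186008 1020054732 13421774 3 eng mog cd0q2 cd4q3 pd1 false true true .pnn 2 1 3
    ndB0q2 ndB4q3 pcB1 cut_pp_213 Ext.none :=
  certB0 (fam := false) (s1 := true) (s2 := true) (a := 2) (b := 1) (c := 3) (cn := .pnn) (n1 := ndB0q2) (n2 := ndB4q3) (pc := pcB1) (cut := cut_pp_213) (xt := Ext.none) (P1 := 0) (W1 := 536870912) (P2 := 0) (W2 := 1230186008) (P3 := 1020054732) (W3 := 13421774) (N0 := 3) (En := eng) (mo := mog) (C1 := cd0q2) (C2 := cd4q3) (C3 := pd1)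
    rfl k0_pp_213

noncomputable def f_pm_001 : ℕ → ℕ → ℕ → ℕ → Bool := onCell 0 536870912 536870912 536870912 1020054732 13421774
    (rowB 3 eng mog cd0q0 cd4q1 pd0 0 false true false .up 0 0 1 (qsf 0 536870912 536870912 536870912 0) ndB0q0 ndB4q1 pcB0 Cut.none Ext.none)

def k0_pm_001 : ∃ t, chk3 f_pm_001 t 1 1 1 = true :=
  ⟨(l 4), by decide +kernel⟩

theorem c_pm_001 : CertB 0 536870912 536870912 536870912 1020054732 13421774 3 eng mog cd0q0 cd4q1 pd0 false true false .up 0 0 1
    ndB0q0 ndB4q1 pcB0 Cut.none Ext.none :=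
  certB0 (fam := false) (s1 := true) (s2 := false) (a := 0) (b := 0) (c := 1) (cn := .up) (n1 := ndB0q0) (n2 := ndB4q1) (pc := pcB0) (cut := Cut.none) (xt := Ext.none) (P1 := 0) (W1 := 536870912) (P2 := 536870912) (W2 := 536870912) (P3 := 1020054732) (W3 := 13421774) (N0 := 3) (En := eng) (mo := mog) (C1 := cd0q0) (C2 := cd4q1) (C3 := pd0)
    rfl k0_pm_001

noncomputable def f_pm_011 : ℕ → ℕ → ℕ → ℕ → Bool := onCell 0 536870912 536870912 536870912 1020054732 13421774
    (rowB 3 eng mog cd0q0 cd4q1 pd1 0 false true false .pnn 0 1 1 (qsf 0 536870912 536870912 536870912 1) ndB0q0 ndB4q1 pcB1 Cut.none Ext.none)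

def k0_pm_011 : ∃ t, chk3 f_pm_011 t 1 1 1 = true :=
  ⟨(l 4), by decide +kernel⟩

theorem c_pm_011 : CertB 0 536870912 536870912 536870912 1020054732 13421774 3 eng mog cd0q0 cd4q1 pd1 false true false .pnn 0 1 1
    ndB0q0 ndB4q1 pcB1 Cut.none Ext.none :=
  certB0 (fam := false) (s1 := true) (s2 := false) (a := 0) (b := 1) (c := 1) (cn := .pnn) (n1 := ndB0q0) (n2 := ndB4q1) (pc := pcB1) (cut := Cut.none) (xt := Ext.none) (P1 := 0) (W1 := 536870912) (P2 := 536870912) (W2 := 536870912) (P3 := 1020054732) (W3 := 13421774) (N0 := 3) (En := eng) (mo := mog) (C1 := cd0q0) (C2 := cd4q1) (C3 := pd1)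
    rfl k0_pm_011

noncomputable def f_pm_012 : ℕ → ℕ → ℕ → ℕ → Bool := onCell 0 536870912 1073741824 536870912 1020054732 13421774
    (rowB 3 eng mog cd0q0 cd4q2 pd1 0 false true false .pnp 0 1 2 (qsf 0 536870912 1073741824 536870912 1) ndB0q0 ndB4q2 pcB1 Cut.none Ext.none)

def k0_pm_012 : ∃ t, chk3 f_pm_012 t 1 1 1 = true :=
  ⟨(l 4), by decide +kernel⟩

theorem c_pm_012 : CertB 0 536870912 1073741824 536870912 1020054732 13421774 3 eng mog cd0q0 cd4q2 pd1 false true false .pnp 0 1 2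
    ndB0q0 ndB4q2 pcB1 Cut.none Ext.none :=
  certB0 (fam := false) (s1 := true) (s2 := false) (a := 0) (b := 1) (c := 2) (cn := .pnp) (n1 := ndB0q0) (n2 := ndB4q2) (pc := pcB1) (cut := Cut.none) (xt := Ext.none) (P1 := 0) (W1 := 536870912) (P2 := 1073741824) (W2 := 536870912) (P3 := 1020054732) (W3 := 13421774) (N0 := 3) (En := eng) (mo := mog) (C1 := cd0q0) (C2 := cd4q2) (C3 := pd1)
    rfl k0_pm_012

noncomputable def f_pm_022 : ℕ → ℕ → ℕ → ℕ → Bool := onCell 0 536870912 1073741824 536870912 1020054732 13421774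
    (rowB 3 eng mog cd0q0 cd4q2 pd2 0 false true false .pp 0 2 2 (qsf 0 536870912 1073741824 536870912 2) ndB0q0 ndB4q2 pcB2 Cut.none Ext.none)

def k0_pm_022 : ∃ t, chk3 f_pm_022 t 1 1 1 = true :=
  ⟨(l 4), by decide +kernel⟩

theorem c_pm_022 : CertB 0 536870912 1073741824 536870912 1020054732 13421774 3 eng mog cd0q0 cd4q2 pd2 false true false .pp 0 2 2
    ndB0q0 ndB4q2 pcB2 Cut.none Ext.none :=
  certB0 (fam := false) (s1 := true) (s2 := false) (a := 0) (b := 2) (c := 2) (cn := .pp) (n1 := ndB0q0) (n2 := ndB4q2) (pc := pcB2) (cut := Cut.none) (xt := Ext.none) (P1 := 0) (W1 := 536870912) (P2 := 1073741824) (W2 := 536870912) (P3 := 1020054732) (W3 := 13421774) (N0 := 3) (En := eng) (mo := mog) (C1 := cd0q0) (C2 := cd4q2) (C3 := pd2)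
    rfl k0_pm_022

noncomputable def f_pm_023 : ℕ → ℕ → ℕ → ℕ → Bool := onCell 0 536870912 0 1230186008 1020054732 13421774
    (rowB 3 eng mog cd0q0 cd4q3 pd2 0 false true false .up 0 2 3 (qsf 0 536870912 0 1230186008 2) ndB0q0 ndB4q3 pcB2 Cut.none Ext.none)

def k0_pm_023 : ∃ t, chk3 f_pm_023 t 1 1 1 = true :=
  ⟨(a (b (l 2) (l 4)) (b (a (l 2) (b (a (l 2) (a (l 2) (b (l 14596104) (l 15489368)))) (a (l 4) (b (a (b (l 16022832) (l 4)) (b (l 15858952) (l 15934456))) (l 4))))) (l 4))), by decide +kernel⟩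

theorem c_pm_023 : CertB 0 536870912 0 1230186008 1020054732 13421774 3 eng mog cd0q0 cd4q3 pd2 false true false .up 0 2 3
    ndB0q0 ndB4q3 pcB2 Cut.none Ext.none :=
  certB0 (fam := false) (s1 := true) (s2 := false) (a := 0) (b := 2) (c := 3) (cn := .up) (n1 := ndB0q0) (n2 := ndB4q3) (pc := pcB2) (cut := Cut.none) (xt := Ext.none) (P1 := 0) (W1 := 536870912) (P2 := 0) (W2 := 1230186008) (P3 := 1020054732) (W3 := 13421774) (N0 := 3) (En := eng) (mo := mog) (C1 := cd0q0) (C2 := cd4q3) (C3 := pd2)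
    rfl k0_pm_023

noncomputable def f_pm_033 : ℕ → ℕ → ℕ → ℕ → Bool := onCell 1610612736 536870912 0 1230186008 1020054732 13421774
    (rowB 3 eng mog cd0q0 cd4q3 pd3 2 false true false .pnn 0 3 3 (qsf 0 536870912 0 1230186008 3) ndB0q0 ndB4q3 pcB3 Cut.none Ext.none)

def k0_pm_033 : ∃ t, chk3 f_pm_033 t 1 1 1 = true :=
  ⟨(b (a (a (b (a (b (l 16386136) (l 16173152)) (b (l 16262152) (l 16207808))) (a (b (a (l 16017424) (l 4)) (l 4)) (l 4))) (b (a (l 16032448) (l 4)) (l 4))) (l 4)) (l 4)), by decide +kernel⟩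

theorem c_pm_033 : CertB 0 536870912 0 1230186008 1020054732 13421774 3 eng mog cd0q0 cd4q3 pd3 false true false .pnn 0 3 3
    ndB0q0 ndB4q3 pcB3 Cut.none Ext.none :=
  certB2 (fam := false) (s1 := true) (s2 := false) (a := 0) (b := 3) (c := 3) (cn := .pnn) (n1 := ndB0q0) (n2 := ndB4q3) (pc := pcB3) (cut := Cut.none) (xt := Ext.none) (P1 := 0) (W1 := 536870912) (P2 := 0) (W2 := 1230186008) (P3 := 1020054732) (W3 := 13421774) (N0 := 3) (En := eng) (mo := mog) (C1 := cd0q0) (C2 := cd4q3) (C3 := pd3)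
    rfl (fun _ => rfl) k0_pm_033

noncomputable def f_pm_101 : ℕ → ℕ → ℕ → ℕ → Bool := onCell 536870912 536870912 536870912 536870912 1020054732 13421774
    (rowB 3 eng mog cd0q1 cd4q1 pd0 0 false true false .npn 1 0 1 (qsf 536870912 536870912 536870912 536870912 0) ndB0q1 ndB4q1 pcB0 Cut.none Ext.none)

def k0_pm_101 : ∃ t, chk3 f_pm_101 t 1 1 1 = true :=
  ⟨(l 4), by decide +kernel⟩

theorem c_pm_101 : CertB 536870912 536870912 536870912 536870912 1020054732 13421774 3 eng mog cd0q1 cd4q1 pd0 false true false .npn 1 0 1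
    ndB0q1 ndB4q1 pcB0 Cut.none Ext.none :=
  certB0 (fam := false) (s1 := true) (s2 := false) (a := 1) (b := 0) (c := 1) (cn := .npn) (n1 := ndB0q1) (n2 := ndB4q1) (pc := pcB0) (cut := Cut.none) (xt := Ext.none) (P1 := 536870912) (W1 := 536870912) (P2 := 536870912) (W2 := 536870912) (P3 := 1020054732) (W3 := 13421774) (N0 := 3) (En := eng) (mo := mog) (C1 := cd0q1) (C2 := cd4q1) (C3 := pd0)
    rfl k0_pm_101

noncomputable def f_pm_102 : ℕ → ℕ → ℕ → ℕ → Bool := onCell 536870912 536870912 0 536870912 1020054732 13421774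
    (rowB 3 eng mog cd0q1 cd4q2 pd0 1 false true false .npp 1 0 2 (qsf 536870912 536870912 1073741824 536870912 0) ndB0q1 ndB4q2 pcB0 Cut.none Ext.none)

def k0_pm_102 : ∃ t, chk3 f_pm_102 t 1 1 1 = true :=
  ⟨(a (l 4) (b (a (l 4) (b (a (l 4) (a (b (l 4) (b (l 14191448) (l 14055112))) (b (a (b (l 14241888) (l 14091136)) (b (l 14104008) (l 13961944))) (a (l 13892944) (l 13761592))))) (a (b (l 4) (a (l 4) (l 13965640))) (a (b (b (l 13933800) (l 13825720)) (l 13684672)) (b (a (l 13642480) (b (l 13581312) (l 13471568))) (a (l 13469912) (l 13326480))))))) (a (b (l 4) (b (l 4) (a (l 4) (a (l 4) (l 14017304))))) (b (a (b (a (l 4) (l 13806224)) (a (l 13939048) (l 13695248))) (b (a (l 13535240) (b (a (l 13354160) (l 13208632)) (a (l 13293464) (l 13143728)))) (a (b (l 13457704) (l 13418600)) (b (a (l 13243616) (l 13071560)) (a (l 13193184) (l 12992384)))))) (a (b (a (l 13859336) (l 13645168)) (a (l 13859496) (b (l 13650656) (l 13477320)))) (b (a (b (l 13393544) (a (l 13466480)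 (l 13264048))) (b (l 13007776) (l 12916352))) (a (b (l 13309464) (l 13214944)) (b (l 12811072) (a (l 12821384) (l 12567904)))))))))), by decide +kernel⟩

theorem c_pm_102 : CertB 536870912 536870912 1073741824 536870912 1020054732 13421774 3 eng mog cd0q1 cd4q2 pd0 false true false .npp 1 0 2
    ndB0q1 ndB4q2 pcB0 Cut.none Ext.none :=
  certB1 (fam := false) (s1 := true) (s2 := false) (a := 1) (b := 0) (c := 2) (cn := .npp) (n1 := ndB0q1) (n2 := ndB4q2) (pc := pcB0) (cut := Cut.none) (xt := Ext.none) (P1 := 536870912) (W1 := 536870912) (P2 := 1073741824) (W2 := 536870912) (P3 := 1020054732) (W3 := 13421774) (N0 := 3) (En := eng) (mo := mog) (C1 := cd0q1) (C2 := cd4q2) (C3 := pd0)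
    rfl (fun _ => rfl) k0_pm_102

noncomputable def f_pm_112 : ℕ → ℕ → ℕ → ℕ → Bool := onCell 536870912 536870912 1073741824 536870912 1020054732 13421774
    (rowB 3 eng mog cd0q1 cd4q2 pd1 0 false true false .dn 1 1 2 (qsf 536870912 536870912 1073741824 536870912 1) ndB0q1 ndB4q2 pcB1 Cut.none Ext.none)

def k0_pm_112 : ∃ t, chk3 f_pm_112 t 1 1 1 = true :=
  ⟨(a (l 4) (a (b (l 4) (b (a (l 4) (b (l 4) (l 14101232))) (a (l 4) (b (l 14077104) (a (l 14163976) (b (l 13994608) (l 14003376))))))) (b (l 1) (a (b (b (l 1) (l 644809417927)) (b (a (l 237861178663) (b (l 13667512) (l 13699520))) (a (b (l 13845968) (l 13916056)) (b (l 13792168) (l 13919200))))) (b (l 1) (b (a (b (l 1) (l 13646344)) (l 1)) (a (b (l 13761288) (l 13901816)) (b (l 13676264) (l 13826712))))))))), by decide +kernel⟩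

theorem c_pm_112 : CertB 536870912 536870912 1073741824 536870912 1020054732 13421774 3 eng mog cd0q1 cd4q2 pd1 false true false .dn 1 1 2
    ndB0q1 ndB4q2 pcB1 Cut.none Ext.none :=
  certB0 (fam := false) (s1 := true) (s2 := false) (a := 1) (b := 1) (c := 2) (cn := .dn) (n1 := ndB0q1) (n2 := ndB4q2) (pc := pcB1) (cut := Cut.none) (xt := Ext.none) (P1 := 536870912) (W1 := 536870912) (P2 := 1073741824) (W2 := 536870912) (P3 := 1020054732) (W3 := 13421774) (N0 := 3) (En := eng) (mo := mog) (C1 := cd0q1) (C2 := cd4q2) (C3 := pd1)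
    rfl k0_pm_112

noncomputable def cut_pm_113 : Cut := Cut.of [[⟨0, 1, 0, 26738688⟩, ⟨1, 1, 0, 26738688⟩, ⟨2, 2, 0, 2621440⟩]]

noncomputable def f_pm_113 : ℕ → ℕ → ℕ → ℕ → Bool := onCell 536870912 536870912 0 1230186008 1020054732 13421774
    (rowB 3 eng mog cd0q1 cd4q3 pd1 0 false true false .nn 1 1 3 (qsf 536870912 536870912 0 1230186008 1) ndB0q1 ndB4q3 pcB1 cut_pm_113 Ext.none)

def k0_pm_113 : ∃ t, chk3 f_pm_113 t 2 1 1 = true :=
  ⟨(b (l 2) (a (b (l 2) (l 4)) (b (b (l 2) (a (l 2) (b (l 2) (a (l 2) (b (l 2) (l 13846344)))))) (b (a (l 4) (b (b (a (a (l 2) (b (l 2) (l 264772265063))) (l 13894744)) (a (a (l 4) (b (l 13713824) (l 4))) (a (a (b (l 13803160) (l 13858488)) (b (l 13885056) (c (b (l 13965920) (l 13969056)) (l 13893024)))) (b (l 14035384) (c (c (l 13945720) (l 14080776)) (l 13998736)))))) (a (l 4) (b (b (c (a (l 13871696) (c (b (l 14149296) (l 14144384)) (l 14085496))) (l 23851060983)) (a (l 4) (a (l 14087960) (l 14124448)))) (l 14195424))))) (l 4))))),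 by decide +kernel⟩

def k1_pm_113 : ∃ t, chk3 f_pm_113 t 6 1 1 = true :=
  ⟨(b (l 2) (b (b (a (l 2) (b (a (l 2) (a (l 15475232) (l 15620848))) (a (b (l 15038536) (l 14944256)) (b (l 15342128) (l 15246768))))) (a (b (a (b (l 2) (l 14311344)) (b (l 14557592) (l 14519696))) (a (b (l 14175528) (l 14193480)) (b (l 14508632) (l 14518792)))) (b (a (b (l 14878288) (l 14837528)) (b (l 15172048) (l 15113576))) (a (b (l 14813360) (l 14806280)) (b (l 15071920) (l 15048424)))))) (b (a (b (a (b (l 14236856) (a (b (l 14202040) (a (b (l 14190440) (l 14204736)) (l 14280584))) (l 14377808))) (b (l 14546976) (l 14595888))) (a (a (b (b (b (l 14259000) (l 14254952)) (a (l 14191864) (l 14278720))) (b (l 14260664) (l 14312304))) (b (b (b (l 14426312) (l 14436896)) (l 14396264)) (b (l 14401016) (l 14409920)))) (b (b (l 14647552) (a (l 14605392) (l 14748280))) (b (a (l 14597352) (l 14775328)) (l 14511264))))) (b (a (b (l 14818432) (l 14852200)) (b (l 15044944) (l 15063672))) (a (b (l 14910192)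 (b (l 14953208) (a (l 14927872) (l 15055080)))) (b (l 15107040) (l 15177624))))) (a (b (a (b (a (l 14443104) (l 14487160)) (l 14616584)) (b (a (b (l 14558272) (l 14579952)) (b (l 14715760) (l 14706384))) (a (l 14685584) (l 14732968)))) (l 50159557511)) (b (b (a (a (l 14872416) (b (l 15060160) (l 15017832))) (b (l 15163584) (a (l 15171600) (l 15306336)))) (a (a (l 14833992) (l 14967568)) (l 14996776))) (a (b (a (l 14882976) (l 14952352)) (l 15017144)) (b (l 15121344) (a (l 15062400) (l 15133336))))))))), by decide +kernel⟩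

def k2_pm_113 : ∃ t, chk3 f_pm_113 t 7 2 1 = true :=
  ⟨(b (a (l 2) (a (l 2) (b (a (l 2) (b (l 6) (a (l 2) (c (l 16585288) (l 16683616))))) (a (b (l 2) (a (l 16527928) (l 16410688))) (b (a (l 16581632) (l 16587584)) (a (l 16451144) (l 16590040))))))) (a (b (a (l 2) (b (l 2) (l 16564608))) (a (b (l 2) (a (l 15962328) (l 15891048))) (b (l 16136208) (l 15971096)))) (b (a (b (a (l 2) (l 16653224)) (a (l 16407280) (l 16429728))) (b (a (l 16610064) (b (a (l 16624240) (l 16640832)) (l 16690824))) (a (l 16465408) (l 16491424)))) (a (b (a (l 16007352) (l 16004624)) (a (l 15790648) (l 15774408))) (b (a (l 16000072) (l 15989144)) (a (l 15755784) (l 15777768))))))), by decide +kernel⟩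

def k3_pm_113 : ∃ t, chk3 f_pm_113 t 7 6 1 = true :=
  ⟨(a (b (b (a (a (b (l 15794760) (l 15665448)) (b (l 15787472) (l 15730080))) (a (l 15732944) (l 15703752))) (a (b (a (l 15541720) (l 15641944)) (a (l 15438008) (l 15537808))) (b (a (l 15679048) (l 15661008)) (a (l 15610760) (l 15631016))))) (b (a (b (a (l 15351808) (l 15447640)) (c (l 15331472) (l 15328760))) (b (a (l 15522496) (l 15636592)) (c (l 15452976) (l 15496792)))) (a (b (c (l 15278056) (l 15270560)) (l 15383216)) (b (c (l 15390160) (l 15431296)) (c (l 15347544) (l 15378072)))))) (b (a (b (a (l 15679088) (l 15656544)) (c (l 15603056) (l 15615048))) (b (a (b (l 15656520) (l 15613248)) (b (l 15635264) (l 15591536))) (a (b (l 15581448) (l 15555832)) (b (l 15559472) (l 15533696))))) (a (b (c (b (l 15543320) (l 15634640)) (b (l 15600784) (a (l 15573672) (l 15578080)))) (c (b (l 15656456) (l 15378520)) (b (l 15524864) (l 15469752)))) (a (b (b (l 15531848) (l 15505392)) (b (c (l 15412528) (l 15533744)) (c (l 15358704)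 (l 15498104)))) (b (b (l 15509616) (l 15483192)) (b (l 15450736) (l 15155544))))))), by decide +kernel⟩

def k4_pm_113 : ∃ t, chk3 f_pm_113 t 7 7 1 = true :=
  ⟨(a (a (b (b (b (l 15218800) (l 15223392)) (b (l 15252600) (l 15308992))) (b (b (b (l 15370400) (l 15406624)) (b (l 15396912) (l 15424984))) (b (l 15362240) (l 15298792)))) (b (b (b (l 15312160) (l 15472272)) (b (l 15341848) (l 15384960))) (b (b (l 15457528) (b (l 15532560) (l 15568504))) (b (a (l 15516704) (l 15518864)) (l 15485688))))) (b (b (a (c (b (l 15348840) (l 15343928)) (b (l 15423848) (l 15392584))) (b (a (l 15380976) (c (l 15286360) (l 15451704))) (a (l 15356480) (l 15333672)))) (a (b (l 15372472) (l 15403584)) (c (a (l 15338960) (l 15286496)) (b (l 15386680) (l 15382640))))) (b (a (b (l 15463648) (l 15492640)) (b (a (l 15427832) (l 15388392)) (a (l 15510680) (l 15465168)))) (a (b (c (l 15614616) (l 15518144)) (c (l 15747896) (l 15518496))) (b (c (l 15689856) (l 15509536)) (c (a (l 15820176) (l 15811552))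 (l 15561088))))))), by decide +kernel⟩

theorem s5_pm_113 : ∃ t, chk3 f_pm_113 t 7 3 1 = true := ex3_b k3_pm_113 k4_pm_113

theorem s6_pm_113 : ∃ t, chk3 f_pm_113 t 7 1 1 = true := ex3_b k2_pm_113 s5_pm_113

theorem s7_pm_113 : ∃ t, chk3 f_pm_113 t 3 1 1 = true := ex3_a k1_pm_113 s6_pm_113

theorem s8_pm_113 : ∃ t, chk3 f_pm_113 t 1 1 1 = true := ex3_a k0_pm_113 s7_pm_113

theorem c_pm_113 : CertB 536870912 536870912 0 1230186008 1020054732 13421774 3 eng mog cd0q1 cd4q3 pd1 false true false .nn 1 1 3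
    ndB0q1 ndB4q3 pcB1 cut_pm_113 Ext.none :=
  certB0 (fam := false) (s1 := true) (s2 := false) (a := 1) (b := 1) (c := 3) (cn := .nn) (n1 := ndB0q1) (n2 := ndB4q3) (pc := pcB1) (cut := cut_pm_113) (xt := Ext.none) (P1 := 536870912) (W1 := 536870912) (P2 := 0) (W2 := 1230186008) (P3 := 1020054732) (W3 := 13421774) (N0 := 3) (En := eng) (mo := mog) (C1 := cd0q1) (C2 := cd4q3) (C3 := pd1)
    rfl s8_pm_113

noncomputable def cut_pm_123 : Cut := Cut.of [[⟨0, 1, 0, 26738688⟩, ⟨1, 1, 0, 26738688⟩, ⟨2, 2, 0, 2621440⟩]]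

noncomputable def f_pm_123 : ℕ → ℕ → ℕ → ℕ → Bool := onCell 1073741824 536870912 0 1230186008 1020054732 13421774
    (rowB 3 eng mog cd0q1 cd4q3 pd2 2 false true false .npn 1 2 3 (qsf 536870912 536870912 0 1230186008 2) ndB0q1 ndB4q3 pcB2 cut_pm_123 Ext.none)

def k0_pm_123 : ∃ t, chk3 f_pm_123 t 2 2 1 = true :=
  ⟨(a (a (b (a (b (a (b (l 6) (b (l 16760144) (l 16733480))) (b (b (a (l 6) (b (l 16699000) (l 16691392))) (a (l 16718488) (l 16675080))) (a (l 16678928) (l 16631008)))) (a (b (a (l 16710840) (l 16661176)) (a (l 16617432) (l 16580904))) (b (l 16519328) (l 16498808)))) (b (b (b (a (l 16594152) (l 16556408)) (l 16528016)) (l 16328360)) (b (l 16347576) (l 16206096)))) (b (a (b (a (b (l 16499424) (l 16452696)) (l 16227440)) (b (l 15962768) (l 15711464))) (b (l 15970984) (l 15588328))) (a (b (a (l 15432904) (l 15343320)) (a (l 15067704) (l 15012704))) (b (l 15336784) (l 14981696))))) (b (b (a (b (l 16417136) (l 16333352)) (l 16113280)) (a (b (l 16229408) (l 16083208))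 (b (l 16027296) (l 15863240)))) (b (b (a (l 15749448) (l 15543608)) (a (l 15404048) (l 15213056))) (b (a (l 15070376) (l 14888728)) (a (b (l 14837984) (l 14691896)) (b (l 14658424) (a (l 14569848) (l 14510528)))))))) (b (a (b (a (l 16018640) (l 15840784)) (a (l 15520040) (l 15545968))) (b (a (l 15665080) (l 15492880)) (a (l 15346064) (l 15152240)))) (a (b (a (b (l 15336824) (l 15013672)) (b (l 15129752) (l 14810576))) (b (a (l 14758080) (b (l 14569168) (a (l 14486328) (l 14437712)))) (a (b (a (l 14528864) (l 14473504)) (l 14483088)) (l 14494688)))) (b (b (a (l 14925088) (l 14725376)) (a (l 14611200) (b (l 14491352) (a (l 14411976) (l 14387976))))) (a (b (b (a (l 14446224) (l 14407816)) (l 14459240)) (l 14587024)) (b (l 14511232) (l 14744952))))))), by decide +kernel⟩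

def k1_pm_123 : ∃ t, chk3 f_pm_123 t 3 2 1 = true :=
  ⟨(a (b (a (b (l 15182376) (a (l 14965640) (l 14787344))) (b (l 14935776) (b (l 14647104) (a (l 14508552) (b (l 14441136) (l 14452448)))))) (a (b (b (a (l 14542448) (b (l 14442840) (a (l 14373720) (l 14395704)))) (a (b (a (l 14386728) (l 14382344)) (l 14469296)) (l 14569552))) (a (b (l 14668056) (l 14959920)) (b (l 14881416) (l 15222744)))) (b (a (b (b (a (l 14376776) (l 14434016)) (l 14541176)) (l 14787632)) (l 14867848)) (a (b (l 15142032) (l 15412472)) (b (l 15436936) (l 15660968)))))) (b (a (b (l 14682112) (b (a (l 14486400) (l 14538968)) (a (l 14594544) (l 14881224)))) (b (b (l 14586728) (a (l 14517072) (l 14709664))) (a (l 15002024) (l 15326552)))) (a (b (a (l 15153288) (l 15372280)) (a (b (l 15685056) (l 4)) (l 15822696))) (b (a (b (l 15592152) (l 15873016)) (l 15644416)) (l 4))))), by decide +kernel⟩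

def k2_pm_123 : ∃ t, chk3 f_pm_123 t 1 3 1 = true :=
  ⟨(b (b (a (a (a (a (b (a (l 14803208) (b (l 14811600) (l 14690448))) (b (a (l 14633368) (l 14566136)) (l 14442752))) (b (b (l 14712904) (a (l 14627504) (l 14564360))) (a (l 14442944) (l 14416168)))) (a (b (b (a (l 14604584) (l 14543296)) (l 14496448)) (a (l 14409512) (l 14420672))) (b (a (l 14488040) (l 14485368)) (l 14469248)))) (a (a (b (l 14516432) (l 14593240)) (b (l 14619368) (l 14778176))) (a (b (l 14786536) (b (l 14957816) (l 15043096))) (b (l 15010272) (b (l 15185832) (l 4)))))) (a (b (a (a (b (l 15198984) (l 15317184)) (l 15236264)) (l 4)) (a (a (l 15346696) (l 4)) (l 4))) (l 4))) (a (b (a (a (a (b (l 14295880) (l 14159576)) (a (l 14230680) (l 14258920))) (a (a (l 14306952) (l 14370104)) (a (l 14447360) (l 14539376)))) (a (a (b (l 14673528) (l 14713928)) (b (l 14886656) (l 4))) (l 4))) (a (a (a (b (l 14032992) (l 13915400)) (a (l 14058160) (l 14145040))) (a (a (l 14250280) (l 14361712)) (b (l 14521184)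 (l 4)))) (l 4))) (l 4))) (b (a (a (a (b (a (b (a (l 13777336) (l 13876936)) (l 13829960)) (b (l 14067120) (l 4))) (l 4)) (l 4)) (l 4)) (l 1)) (l 4))), by decide +kernel⟩

theorem s3_pm_123 : ∃ t, chk3 f_pm_123 t 1 2 1 = true := ex3_a k0_pm_123 k1_pm_123

theorem s4_pm_123 : ∃ t, chk3 f_pm_123 t 1 1 1 = true := ex3_b s3_pm_123 k2_pm_123

theorem c_pm_123 : CertB 536870912 536870912 0 1230186008 1020054732 13421774 3 eng mog cd0q1 cd4q3 pd2 false true false .npn 1 2 3
    ndB0q1 ndB4q3 pcB2 cut_pm_123 Ext.none :=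
  certB2 (fam := false) (s1 := true) (s2 := false) (a := 1) (b := 2) (c := 3) (cn := .npn) (n1 := ndB0q1) (n2 := ndB4q3) (pc := pcB2) (cut := cut_pm_123) (xt := Ext.none) (P1 := 536870912) (W1 := 536870912) (P2 := 0) (W2 := 1230186008) (P3 := 1020054732) (W3 := 13421774) (N0 := 3) (En := eng) (mo := mog) (C1 := cd0q1) (C2 := cd4q3) (C3 := pd2)
    rfl (fun _ => rfl) s4_pm_123

noncomputable def f_pm_133 : ℕ → ℕ → ℕ → ℕ → Bool := onCell 536870912 536870912 0 1230186008 1020054732 13421774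
    (rowB 3 eng mog cd0q1 cd4q3 pd3 0 false true false .dn 1 3 3 (qsf 536870912 536870912 0 1230186008 3) ndB0q1 ndB4q3 pcB3 Cut.none Ext.none)

def k0_pm_133 : ∃ t, chk3 f_pm_133 t 1 1 1 = true :=
  ⟨(b (b (a (a (a (b (l 16515752) (l 1)) (l 1)) (l 1)) (l 1)) (l 1)) (l 1)), by decide +kernel⟩

theorem c_pm_133 : CertB 536870912 536870912 0 1230186008 1020054732 13421774 3 eng mog cd0q1 cd4q3 pd3 false true false .dn 1 3 3
    ndB0q1 ndB4q3 pcB3 Cut.none Ext.none :=
  certB0 (fam := false) (s1 := true) (s2 := false) (a := 1) (b := 3) (c := 3) (cn := .dn) (n1 := ndB0q1) (n2 := ndB4q3) (pc := pcB3) (cut := Cut.none) (xt := Ext.none) (P1 := 536870912) (W1 := 536870912) (P2 := 0) (W2 := 1230186008) (P3 := 1020054732) (W3 := 13421774) (N0 := 3) (En := eng) (mo := mog) (C1 := cd0q1) (C2 := cd4q3) (C3 := pd3)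
    rfl k0_pm_133

noncomputable def f_pm_202 : ℕ → ℕ → ℕ → ℕ → Bool := onCell 0 536870912 0 536870912 1020054732 13421774
    (rowB 3 eng mog cd0q2 cd4q2 pd0 1 false true false .pp 2 0 2 (qsf 0 536870912 1073741824 536870912 0) ndB0q2 ndB4q2 pcB0 Cut.none Ext.none)

def k0_pm_202 : ∃ t, chk3 f_pm_202 t 4 4 1 = true :=
  ⟨(b (b (b (a (l 15346352) (l 15194528)) (b (l 15198600) (a (l 15216632) (l 15053224)))) (b (a (b (l 15181120) (l 15158040)) (c (l 15021200) (l 15009896))) (b (a (l 15136520) (l 14994184)) (a (a (b (b (b (l 15161432) (l 15158192)) (l 15153952)) (a (a (l 15166560) (l 15146960)) (l 15117008))) (l 15071880)) (l 14966944))))) (b (a (b (a (b (a (b (l 15182816) (l 15133288)) (b (l 15100096) (l 15083408))) (a (l 15120608) (a (l 15076040) (b (l 15054200) (l 15039976))))) (b (l 15035424) (b (l 15007792) (l 14994248)))) (b (a (l 15076056) (a (a (l 14997080) (l 15079072)) (l 14946400))) (a (l 15064880) (a (l 14969592) (b (l 14921160) (l 15009304)))))) (c (l 14895312)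 (l 14862232))) (b (a (b (c (l 14999056) (l 14978808)) (l 14985520)) (a (b (a (a (l 14850936) (l 14831464)) (l 14805384)) (a (a (l 14834560) (l 14801224)) (l 14774384))) (l 14739472))) (a (a (a (b (a (b (l 15100696) (l 15091592)) (l 15066584)) (a (l 15071128) (b (l 15065392) (l 15055504)))) (b (l 15015584) (l 15016416))) (b (l 14913424) (l 14911160))) (b (a (a (l 14810280) (a (l 14756568) (l 14730808))) (l 14688528)) (a (l 14770400) (a (a (l 14682328) (l 14662208)) (l 14635160)))))))), by decide +kernel⟩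

def k1_pm_202 : ∃ t, chk3 f_pm_202 t 4 5 1 = true :=
  ⟨(a (a (b (b (a (b (l 15024120) (l 14970128)) (b (b (a (c (l 15030096) (l 15018600)) (l 15001464)) (a (l 15001760) (c (l 14996720) (l 14984896)))) (l 14958616))) (c (b (l 14928120) (l 14889704)) (l 14883696))) (a (b (b (c (l 14865984) (l 14833208)) (c (l 14837936) (l 14801928))) (b (l 14797304) (l 14802240))) (b (b (l 14835472) (l 14850128)) (b (c (l 14803912) (l 14767448)) (l 14768512))))) (b (b (b (b (l 14911544) (c (l 14923584) (l 14910584))) (a (b (a (c (l 14964608) (l 14952480)) (l 14938944)) (c (l 14936568) (l 14923296))) (b (l 14882920) (c (l 14897640) (l 14885496))))) (b (a (l 14898784) (b (a (l 14897728) (l 14879928)) (l 14871768))) (l 14850568))) (b (c (l 14812280) (l 14787016)) (b (l 14763400) (c (l 14765648) (l 14730600)))))) (b (b (b (a (l 14893760) (a (b (l 14655304) (l 14656232)) (b (l 14606312) (a (l 14598880) (l 14564912))))) (b (l 14695520) (l 14699704))) (b (b (l 14706272) (c (l 14726592) (l 14713816)))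 (a (a (b (a (l 14841784) (l 14824600)) (l 14818376)) (b (l 14766496) (a (l 14798304) (l 14759760)))) (l 14650648)))) (b (b (a (a (l 14794552) (b (a (l 14790288) (l 14772888)) (l 14769288))) (b (l 14671208) (a (l 14730016) (l 14644712)))) (a (l 14756712) (a (b (a (l 14742840) (l 14724408)) (l 14724080)) (b (l 14662352) (l 14682312))))) (b (a (l 14732184) (a (l 14708264) (b (l 14728320) (l 14682376)))) (c (l 14708640) (l 14685600)))))), by decide +kernel⟩

def k2_pm_202 : ∃ t, chk3 f_pm_202 t 5 2 1 = true :=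
  ⟨(b (b (b (b (a (l 15050632) (a (l 14942496) (b (l 14890080) (l 14848736)))) (b (a (l 14983888) (a (l 14878496) (l 14806960))) (a (b (l 14949808) (l 14927032)) (b (l 14811464) (a (l 14824224) (l 14754192)))))) (b (b (a (a (l 14937360) (l 14869560)) (a (l 14800792) (l 14730200))) (a (l 14879152) (a (l 14774288) (l 14702368)))) (a (b (l 14855696) (l 14828264)) (b (a (l 14749288) (l 14676024)) (a (l 14721240) (l 14647288)))))) (b (a (c (l 14739984) (l 14726744)) (c (b (l 14652824) (l 14587320)) (l 14585392))) (a (b (l 14642368) (l 14574320)) (b (a (l 14540096) (l 14468152)) (l 14502744))))) (b (b (a (a (b (b (l 14553952) (l 14523280)) (a (b (a (l 14519664) (l 14496464)) (l 14498096)) (b (l 14469072) (l 14441872)))) (b (l 14474216) (l 14406312))) (b (l 14374856) (l 14309704))) (a (a (b (b (a (l 14503936) (a (l 14440560) (l 14402328))) (l 14467248)) (l 14480080)) (a (b (b (l 14373624) (a (l 14358312) (l 14333072))) (l 14343920)) (b (l 14322808) (b (l 14279136) (l 14258824)))))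 (b (a (l 14276488) (l 14210968)) (a (b (l 14226232) (l 14195312)) (l 14146008))))) (a (b (b (l 14413320) (l 14444848)) (a (b (b (l 14567976) (a (l 14636992) (l 14543472))) (a (b (l 14644864) (l 14643800)) (l 14602872))) (l 14409264))) (b (b (a (a (b (l 14185832) (l 14175912)) (l 14133024)) (l 14080392)) (a (a (l 14198424) (b (l 14095432) (l 14098824))) (b (l 14030576) (l 14007672)))) (a (l 14201000) (b (a (b (l 14008336) (l 14023112)) (b (l 13951024) (l 13929376))) (b (l 13981440) (l 14006088)))))))), by decide +kernel⟩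

def k3_pm_202 : ∃ t, chk3 f_pm_202 t 4 6 1 = true :=
  ⟨(b (a (b (a (b (c (l 14787584) (l 14743792)) (c (c (l 14797968) (l 14774944)) (l 14740184))) (b (c (l 14756064) (l 14718064)) (a (l 14740488) (l 14724392)))) (a (a (b (c (a (c (l 205785485079) (l 224039044167)) (l 14796520)) (l 211154106791)) (b (c (a (l 242829492999) (l 193437441751)) (l 225112742407)) (c (a (l 3) (l 210080455367)) (l 240145040887)))) (b (c (l 14783216) (l 14735968)) (c (c (l 14806848) (l 14782352)) (l 14745328)))) (b (a (l 14742904) (l 14725040)) (c (l 14765376) (l 14719944))))) (b (c (l 14694576) (l 14666192)) (a (b (a (l 14708056) (l 14687768)) (a (l 14713584) (l 14694344))) (l 14658544)))) (a (b (a (a (b (b (c (l 324433890871) (l 325507529255)) (l 3)) (l 3)) (b (b (c (a (l 198269297847) (l 14802208)) (l 14756392)) (c (a (a (l 312085863719) (l 217059788615)) (l 14812320)) (l 209006641863))) (c (a (b (l 314233362967) (l 3)) (b (a (b (l 14823384) (l 226723472807)) (l 14821264)) (a (l 308327795751)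 (b (l 203638026871) (a (l 298127314775) (l 212227968951)))))) (a (l 316380752407) (b (l 201490445447) (l 229944534567)))))) (b (c (a (l 14791752) (l 14770664)) (l 14733840)) (b (c (l 14859896) (l 14748328)) (a (a (c (l 14847016) (l 14774808)) (l 14790112)) (l 14774112))))) (b (b (b (a (a (l 3) (a (l 3) (c (l 309938422727) (l 311012060055)))) (a (c (a (a (c (l 206859267799) (l 14826176)) (l 14833720)) (l 14825336)) (l 14779696)) (l 14783832))) (l 2)) (l 2)) (l 2))) (b (a (b (a (l 14727088) (l 14705880)) (a (l 14746320) (l 14722840))) (c (l 14804560) (l 14662464))) (b (a (c (l 14782408) (l 14736648)) (a (l 14722208) (l 14697696))) (l 2))))), by decide +kernel⟩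

def k4_pm_202 : ∃ t, chk3 f_pm_202 t 5 6 1 = true :=
  ⟨(b (b (b (a (a (a (l 14636872) (b (l 14605864) (l 14607992))) (b (l 14471184) (l 14501736))) (l 14159680)) (a (a (l 14616656) (a (b (l 14568800) (l 14574560)) (l 14493984))) (l 14215896))) (a (a (l 14613344) (b (a (l 14577392) (b (l 14533008) (l 14543064))) (l 14563184))) (a (b (l 14393792) (a (b (l 14497648) (l 14512920)) (l 14406360))) (l 14193752)))) (a (b (a (l 14629968) (l 14575496)) (a (l 14795464) (l 14610584))) (b (a (b (a (l 14523656) (l 14679872)) (l 14514280)) (b (l 14302392) (l 14361760))) (a (l 14545056) (b (a (l 14474472) (l 14403184)) (l 14616816)))))), by decide +kernel⟩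

def k5_pm_202 : ∃ t, chk3 f_pm_202 t 2 7 1 = true :=
  ⟨(a (l 2) (b (a (l 2) (c (l 1322409341607) (l 14560424))) (l 2))), by decide +kernel⟩

def k6_pm_202 : ∃ t, chk3 f_pm_202 t 6 4 1 = true :=
  ⟨(b (b (b (a (a (b (l 14814384) (l 14773848)) (b (a (l 14755496) (l 14715224)) (l 14695808))) (a (b (a (l 14673920) (l 14631480)) (a (l 14634560) (l 14592408))) (a (b (a (b (a (l 14614064) (l 14603360)) (a (l 14594000) (l 14584296))) (l 14577328)) (a (b (l 14568336) (l 14550240)) (a (b (l 14554152) (l 14533352)) (l 14532728)))) (b (l 14544496) (l 14505360))))) (a (b (a (l 14733032) (l 14655872)) (a (b (l 14702200) (l 14681648)) (b (l 14625800) (l 14605760)))) (a (b (a (l 14595224) (l 14553456)) (b (l 14545272) (l 14525736))) (b (a (a (l 14521256) (a (l 14504880) (b (l 14503824) (l 14483488)))) (c (l 14474400) (l 14462520))) (a (l 14471944) (a (b (l 14470200) (l 14428592)) (l 14417104))))))) (a (b (b (a (l 14656936) (l 14580176)) (a (l 14627528) (l 14548928))) (b (a (l 14599600)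 (l 14519152)) (a (l 14569968) (l 14488416)))) (b (a (b (a (l 14519696) (l 14477944)) (a (l 14486896) (l 14444016))) (a (b (l 14434856) (l 14399736)) (b (a (l 14400720) (a (l 14384720) (l 14374168))) (a (l 14365512) (a (l 14348080) (l 14335664)))))) (a (b (l 14433848) (l 14401784)) (b (a (l 14366072) (l 14319016)) (a (l 14332888) (l 14285008))))))) (a (b (b (a (l 14520752) (l 14439072)) (a (l 14455984) (l 14374472))) (c (b (l 14370408) (l 14307448)) (l 14282040))) (b (a (b (a (l 14374288) (l 14329352)) (l 14287448)) (b (a (l 14282832) (l 14234648)) (a (l 14218016) (l 14169648)))) (a (b (l 14224400) (l 14162656)) (b (l 14131248) (l 14070080)))))), by decide +kernel⟩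

def k7_pm_202 : ∃ t, chk3 f_pm_202 t 6 5 1 = true :=
  ⟨(b (a (b (b (a (l 14265952) (l 14186944)) (a (l 14203264) (l 14125656))) (b (a (l 14140536) (l 14064568)) (a (l 14077536) (l 14003440)))) (a (b (b (l 14101944) (l 14041984)) (b (l 13982496) (l 13923216))) (b (b (l 14010312) (l 13951640)) (b (l 13893768) (l 13836408))))) (a (b (b (a (l 14014048) (l 13942032)) (a (l 13949864) (l 13880096))) (b (l 13851272) (a (a (b (l 13856208) (l 13837672)) (l 13802944)) (l 13753688)))) (b (a (b (l 13863896) (l 13804256)) (b (l 13779264) (l 13722064))) (a (b (l 13744056) (l 13683024)) (b (l 13664528) (l 13606368)))))), by decide +kernel⟩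

def k8_pm_202 : ∃ t, chk3 f_pm_202 t 7 2 1 = true :=
  ⟨(b (a (b (b (b (a (a (b (l 14499416) (l 14460408)) (b (l 14452840) (l 14413944))) (a (l 14385248) (l 14335152))) (a (a (l 14402576) (l 14356288)) (a (l 14308440) (l 14258552)))) (a (b (a (b (l 14345648) (a (l 14320936) (l 14296848))) (l 14280872)) (a (a (b (l 14282576) (l 14247176)) (b (l 14259904) (l 14224816))) (l 14207216))) (b (a (l 14233296) (l 14183680)) (a (l 14159936) (l 14110640))))) (b (a (a (b (b (a (l 14214008) (l 14187408)) (l 14168112)) (l 14119472)) (b (a (b (l 14165992) (l 14129880)) (l 14123808)) (a (l 14078928) (l 14055080)))) (b (l 14064336) (a (l 14019856) (l 13970408)))) (a (b (l 14072880) (l 13970288)) (a (b (a (l 13964048) (l 13941008)) (l 13888536)) (b (l 13903488) (l 13841136)))))) (b (a (b (a (b (l 14282552) (l 14206168)) (b (b (l 14246560) (l 14207992)) (l 14151008))) (a (l 14094872) (l 14040248))) (b (a (b (l 14166960) (l 14091960)) (b (l 14112648) (l 14037608))) (a (l 13981952) (l 13928800))))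 (a (b (a (l 13953448) (l 13899704)) (a (l 13820384) (l 13767456))) (b (a (l 13842544) (l 13790784)) (a (l 13711320) (l 13660768)))))) (a (b (b (a (b (l 13911464) (l 13854136)) (a (l 13804192) (b (l 13778184) (l 13720200)))) (a (b (l 13797976) (l 13742664)) (b (l 13694880) (l 13641864)))) (b (a (b (l 13687888) (l 13633360)) (l 13564128)) (a (b (l 13578760) (l 13523808)) (l 13461552)))) (b (a (b (a (l 13928496) (l 13644384)) (a (b (l 13611832) (l 13560376)) (l 13532360))) (b (a (l 13589024) (l 13539400)) (l 13451832))) (a (b (a (l 13486616) (l 13429448)) (l 13365456)) (b (a (l 13375792) (l 13326936)) (a (l 13284128) (l 13237608))))))), by decide +kernel⟩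

def k9_pm_202 : ∃ t, chk3 f_pm_202 t 3 3 1 = true :=
  ⟨(a (b (b (b (a (a (b (a (l 13854200) (b (l 13760960) (l 13746736))) (l 13840584)) (b (l 13688712) (a (b (l 13665488) (l 13655920)) (l 13604704)))) (a (l 13589536) (l 13517568))) (a (a (l 13935368) (b (a (l 13693248) (b (l 13569696) (l 13564480))) (l 13683088))) (a (b (l 13494792) (a (b (l 13473352) (l 13471760)) (l 13409528))) (l 13394128)))) (a (b (a (l 14082688) (l 13794864)) (a (b (l 14207384) (l 14300664)) (l 13965048))) (b (a (b (a (l 13520008) (b (l 13376280) (l 13377256))) (l 13514872)) (b (l 13299312) (a (l 13516504) (l 13216232)))) (a (l 13644904) (b (a (l 13336768) (l 13208816)) (l 13335096)))))) (b (a (b (a (b (l 14354568) (a (l 2) (l 14401232))) (l 14155352)) (l 2)) (b (a (l 13837920) (l 13482912)) (a (l 14049528) (l 13698896)))) (l 2))) (b (a (a (b (b (l 13440248) (l 13324560)) (b (l 13202040) (b (l 13105440) (a (l 13088976) (l 13023120))))) (b (b (l 13358128) (l 13251344)) (b (l 13138720) (l 13017704))))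 (a (b (b (l 13271176) (l 13174784)) (b (l 13073688) (l 12965304))) (b (b (a (l 13200520) (l 13157040)) (l 13095224)) (b (l 13007584) (l 12913888))))) (a (b (b (a (b (a (l 13139736) (l 12989832)) (l 13140328)) (b (l 12919688) (a (l 12891448) (l 12841792)))) (a (l 13307256) (b (a (l 12931560) (l 12794888)) (l 12936912)))) (b (a (l 13546424) (l 13117760)) (l 2))) (b (b (a (l 12847064) (l 12811552)) (a (b (l 12750240) (a (l 12701752) (l 12676864))) (l 12698064))) (a (b (b (a (l 12722096) (l 12614384)) (l 12711744)) (l 12915416)) (b (b (l 12604152) (l 12539144)) (b (a (l 12524416) (l 12474944)) (a (l 12610512) (l 12443824))))))))), by decide +kernel⟩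

theorem s10_pm_202 : ∃ t, chk3 f_pm_202 t 6 2 1 = true := ex3_b k6_pm_202 k7_pm_202

theorem s11_pm_202 : ∃ t, chk3 f_pm_202 t 3 2 1 = true := ex3_a s10_pm_202 k8_pm_202

theorem s12_pm_202 : ∃ t, chk3 f_pm_202 t 3 1 1 = true := ex3_b s11_pm_202 k9_pm_202

theorem s13_pm_202 : ∃ t, chk3 f_pm_202 t 2 6 1 = true := ex3_a k3_pm_202 k4_pm_202

theorem s14_pm_202 : ∃ t, chk3 f_pm_202 t 2 3 1 = true := ex3_b s13_pm_202 k5_pm_202

theorem s15_pm_202 : ∃ t, chk3 f_pm_202 t 4 2 1 = true := ex3_b k0_pm_202 k1_pm_202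

theorem s16_pm_202 : ∃ t, chk3 f_pm_202 t 2 2 1 = true := ex3_a s15_pm_202 k2_pm_202

theorem s17_pm_202 : ∃ t, chk3 f_pm_202 t 2 1 1 = true := ex3_b s16_pm_202 s14_pm_202

theorem s18_pm_202 : ∃ t, chk3 f_pm_202 t 1 1 1 = true := ex3_a s17_pm_202 s12_pm_202

theorem c_pm_202 : CertB 0 536870912 1073741824 536870912 1020054732 13421774 3 eng mog cd0q2 cd4q2 pd0 false true false .pp 2 0 2
    ndB0q2 ndB4q2 pcB0 Cut.none Ext.none :=
  certB1 (fam := false) (s1 := true) (s2 := false) (a := 2) (b := 0) (c := 2) (cn := .pp) (n1 := ndB0q2) (n2 := ndB4q2) (pc := pcB0) (cut := Cut.none) (xt := Ext.none) (P1 := 0) (W1 := 536870912) (P2 := 1073741824) (W2 := 536870912) (P3 := 1020054732) (W3 := 13421774) (N0 := 3) (En := eng) (mo := mog) (C1 := cd0q2) (C2 := cd4q2) (C3 := pd0)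
    rfl (fun _ => rfl) s18_pm_202

noncomputable def f_pm_203 : ℕ → ℕ → ℕ → ℕ → Bool := onCell 0 536870912 0 1230186008 1020054732 13421774
    (rowB 3 eng mog cd0q2 cd4q3 pd0 0 false true false .up 2 0 3 (qsf 0 536870912 0 1230186008 0) ndB0q2 ndB4q3 pcB0 Cut.none Ext.none)

def k0_pm_203 : ∃ t, chk3 f_pm_203 t 1 1 1 = true :=
  ⟨(b (l 2) (b (l 2) (b (a (b (l 2) (b (a (l 2) (l 2)) (a (a (l 3) (a (l 3) (a (l 345375381127) (b (l 235316794151) (l 16566688))))) (a (a (l 266925028503) (l 16634464)) (a (l 16579352) (l 2)))))) (l 2)) (a (a (b (a (l 3) (a (b (a (l 3) (l 342154117159)) (b (l 240685362695) (l 212231158503))) (b (b (a (l 223505586583) (l 16609064)) (l 16536432)) (l 16510648)))) (a (b (a (l 3) (l 363091774327)) (b (l 250348933351) (l 234779473367))) (b (a (b (l 16503592) (l 16532928)) (l 16578256)) (a (l 16464688) (b (l 16557336) (l 16532552)))))) (b (a (a (b (l 16595784) (l 16594312)) (b (l 16600392) (l 16616864))) (b (a (l 16568088) (l 16505616)) (l 16530752)))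 (a (a (b (l 16555184) (l 16578472)) (l 16416232)) (b (l 16534200) (l 16550200))))) (a (b (a (l 16390856) (b (l 2) (a (l 16245208) (l 327590075735)))) (a (b (a (l 16430584) (l 16337144)) (a (l 16409496) (b (l 16326592) (l 16278496)))) (b (a (b (l 16229136) (l 16189968)) (l 15985104)) (a (l 16084632) (l 15832544))))) (b (a (b (l 2) (l 327589217111)) (l 2)) (b (a (a (l 15720056) (l 15423000)) (a (l 15090128) (l 2))) (a (a (l 15550800) (l 15237352)) (a (l 14887968) (l 14507672)))))))))), by decide +kernel⟩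

theorem c_pm_203 : CertB 0 536870912 0 1230186008 1020054732 13421774 3 eng mog cd0q2 cd4q3 pd0 false true false .up 2 0 3
    ndB0q2 ndB4q3 pcB0 Cut.none Ext.none :=
  certB0 (fam := false) (s1 := true) (s2 := false) (a := 2) (b := 0) (c := 3) (cn := .up) (n1 := ndB0q2) (n2 := ndB4q3) (pc := pcB0) (cut := Cut.none) (xt := Ext.none) (P1 := 0) (W1 := 536870912) (P2 := 0) (W2 := 1230186008) (P3 := 1020054732) (W3 := 13421774) (N0 := 3) (En := eng) (mo := mog) (C1 := cd0q2) (C2 := cd4q3) (C3 := pd0)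
    rfl k0_pm_203

end Pool.Agent.Strip051.G.I9500_9625.Tab.C.BB04

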