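import Pool.Agent.Strip051.G.I9500_9625.Tab
import Pool.Agent.Strip051.PB.ExtD3

/-! # Certificates B28 (generated) -/

set_option linter.all false
set_option maxRecDepth 100000

namespace Pool.Agent.Strip051.G.I9500_9625.Tab.C.BB04

open Pool.Agent.Strip051.PB Pool.Agent.Strip051.PB.T
open Pool.Agent.Strip051.G.I9500_9625.Tab

noncomputable def f_mm_001 : ℕ → ℕ → ℕ → ℕ → Bool := onCell 0 536870912 0 536870912 1020054732 13421774
    (rowB 3 eng mog cd0q0 cd4q1 pd0 1 false false false .up 0 0 1 (qsf 0 536870912 536870912 536870912 0) ndB0q0 ndB4q1 pcB0 Cut.none Ext.none)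

def k0_mm_001 : ∃ t, chk3 f_mm_001 t 1 1 1 = true :=
  ⟨(l 3), by decide +kernel⟩

theorem c_mm_001 : CertB 0 536870912 536870912 536870912 1020054732 13421774 3 eng mog cd0q0 cd4q1 pd0 false false false .up 0 0 1
    ndB0q0 ndB4q1 pcB0 Cut.none Ext.none :=
  certB1 (fam := false) (s1 := false) (s2 := false) (a := 0) (b := 0) (c := 1) (cn := .up) (n1 := ndB0q0) (n2 := ndB4q1) (pc := pcB0) (cut := Cut.none) (xt := Ext.none) (P1 := 0) (W1 := 536870912) (P2 := 536870912) (W2 := 536870912) (P3 := 1020054732) (W3 := 13421774) (N0 := 3) (En := eng) (mo := mog) (C1 := cd0q0) (C2 := cd4q1) (C3 := pd0)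
    rfl (fun _ => rfl) k0_mm_001

noncomputable def f_mm_011 : ℕ → ℕ → ℕ → ℕ → Bool := onCell 0 536870912 536870912 536870912 1020054732 13421774
    (rowB 3 eng mog cd0q0 cd4q1 pd1 1 false false false .pnn 0 1 1 (qsf 0 536870912 536870912 536870912 1) ndB0q0 ndB4q1 pcB1 Cut.none Ext.none)

def k0_mm_011 : ∃ t, chk3 f_mm_011 t 1 1 1 = true :=
  ⟨(l 5), by decide +kernel⟩

theorem c_mm_011 : CertB 0 536870912 536870912 536870912 1020054732 13421774 3 eng mog cd0q0 cd4q1 pd1 false false false .pnn 0 1 1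
    ndB0q0 ndB4q1 pcB1 Cut.none Ext.none :=
  certB1 (fam := false) (s1 := false) (s2 := false) (a := 0) (b := 1) (c := 1) (cn := .pnn) (n1 := ndB0q0) (n2 := ndB4q1) (pc := pcB1) (cut := Cut.none) (xt := Ext.none) (P1 := 0) (W1 := 536870912) (P2 := 536870912) (W2 := 536870912) (P3 := 1020054732) (W3 := 13421774) (N0 := 3) (En := eng) (mo := mog) (C1 := cd0q0) (C2 := cd4q1) (C3 := pd1)
    rfl (fun _ => rfl) k0_mm_011

noncomputable def f_mm_012 : ℕ → ℕ → ℕ → ℕ → Bool := onCell 0 536870912 1073741824 536870912 1020054732 13421774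
    (rowB 3 eng mog cd0q0 cd4q2 pd1 0 false false false .pnp 0 1 2 (qsf 0 536870912 1073741824 536870912 1) ndB0q0 ndB4q2 pcB1 Cut.none Ext.none)

def k0_mm_012 : ∃ t, chk3 f_mm_012 t 1 1 1 = true :=
  ⟨(l 5), by decide +kernel⟩

theorem c_mm_012 : CertB 0 536870912 1073741824 536870912 1020054732 13421774 3 eng mog cd0q0 cd4q2 pd1 false false false .pnp 0 1 2
    ndB0q0 ndB4q2 pcB1 Cut.none Ext.none :=
  certB0 (fam := false) (s1 := false) (s2 := false) (a := 0) (b := 1) (c := 2) (cn := .pnp) (n1 := ndB0q0) (n2 := ndB4q2) (pc := pcB1) (cut := Cut.none) (xt := Ext.none) (P1 := 0) (W1 := 536870912) (P2 := 1073741824) (W2 := 536870912) (P3 := 1020054732) (W3 := 13421774) (N0 := 3) (En := eng) (mo := mog) (C1 := cd0q0) (C2 := cd4q2) (C3 := pd1)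
    rfl k0_mm_012

noncomputable def f_mm_022 : ℕ → ℕ → ℕ → ℕ → Bool := onCell 0 536870912 1073741824 536870912 1020054732 13421774
    (rowB 3 eng mog cd0q0 cd4q2 pd2 0 false false false .pp 0 2 2 (qsf 0 536870912 1073741824 536870912 2) ndB0q0 ndB4q2 pcB2 Cut.none Ext.none)

def k0_mm_022 : ∃ t, chk3 f_mm_022 t 1 1 1 = true :=
  ⟨(l 5), by decide +kernel⟩

theorem c_mm_022 : CertB 0 536870912 1073741824 536870912 1020054732 13421774 3 eng mog cd0q0 cd4q2 pd2 false false false .pp 0 2 2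
    ndB0q0 ndB4q2 pcB2 Cut.none Ext.none :=
  certB0 (fam := false) (s1 := false) (s2 := false) (a := 0) (b := 2) (c := 2) (cn := .pp) (n1 := ndB0q0) (n2 := ndB4q2) (pc := pcB2) (cut := Cut.none) (xt := Ext.none) (P1 := 0) (W1 := 536870912) (P2 := 1073741824) (W2 := 536870912) (P3 := 1020054732) (W3 := 13421774) (N0 := 3) (En := eng) (mo := mog) (C1 := cd0q0) (C2 := cd4q2) (C3 := pd2)
    rfl k0_mm_022

noncomputable def f_mm_023 : ℕ → ℕ → ℕ → ℕ → Bool := onCell 0 536870912 0 1230186008 1020054732 13421774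
    (rowB 3 eng mog cd0q0 cd4q3 pd2 0 false false false .up 0 2 3 (qsf 0 536870912 0 1230186008 2) ndB0q0 ndB4q3 pcB2 Cut.none Ext.none)

def k0_mm_023 : ∃ t, chk3 f_mm_023 t 1 1 1 = true :=
  ⟨(l 5), by decide +kernel⟩

theorem c_mm_023 : CertB 0 536870912 0 1230186008 1020054732 13421774 3 eng mog cd0q0 cd4q3 pd2 false false false .up 0 2 3
    ndB0q0 ndB4q3 pcB2 Cut.none Ext.none :=
  certB0 (fam := false) (s1 := false) (s2 := false) (a := 0) (b := 2) (c := 3) (cn := .up) (n1 := ndB0q0) (n2 := ndB4q3) (pc := pcB2) (cut := Cut.none) (xt := Ext.none) (P1 := 0) (W1 := 536870912) (P2 := 0) (W2 := 1230186008) (P3 := 1020054732) (W3 := 13421774) (N0 := 3) (En := eng) (mo := mog) (C1 := cd0q0) (C2 := cd4q3) (C3 := pd2)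
    rfl k0_mm_023

noncomputable def f_mm_033 : ℕ → ℕ → ℕ → ℕ → Bool := onCell 0 536870912 0 1230186008 1020054732 13421774
    (rowB 3 eng mog cd0q0 cd4q3 pd3 0 false false false .pnn 0 3 3 (qsf 0 536870912 0 1230186008 3) ndB0q0 ndB4q3 pcB3 Cut.none Ext.none)

def k0_mm_033 : ∃ t, chk3 f_mm_033 t 1 1 1 = true :=
  ⟨(l 5), by decide +kernel⟩

theorem c_mm_033 : CertB 0 536870912 0 1230186008 1020054732 13421774 3 eng mog cd0q0 cd4q3 pd3 false false false .pnn 0 3 3
    ndB0q0 ndB4q3 pcB3 Cut.none Ext.none :=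
  certB0 (fam := false) (s1 := false) (s2 := false) (a := 0) (b := 3) (c := 3) (cn := .pnn) (n1 := ndB0q0) (n2 := ndB4q3) (pc := pcB3) (cut := Cut.none) (xt := Ext.none) (P1 := 0) (W1 := 536870912) (P2 := 0) (W2 := 1230186008) (P3 := 1020054732) (W3 := 13421774) (N0 := 3) (En := eng) (mo := mog) (C1 := cd0q0) (C2 := cd4q3) (C3 := pd3)
    rfl k0_mm_033

noncomputable def cut_mm_101 : Cut := Cut.of [[⟨0, 1, 0, 38347922⟩, ⟨1, 0, 0, 38347922⟩, ⟨2, 1, 0, 38347922⟩]]

noncomputable def f_mm_101 : ℕ → ℕ → ℕ → ℕ → Bool := onCell 536870912 536870912 0 536870912 1020054732 13421774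
    (rowB 3 eng mog cd0q1 cd4q1 pd0 1 false false false .npn 1 0 1 (qsf 536870912 536870912 536870912 536870912 0) ndB0q1 ndB4q1 pcB0 cut_mm_101 Ext.none)

def k0_mm_101 : ∃ t, chk3 f_mm_101 t 1 1 1 = true :=
  ⟨(a (l 3) (b (a (l 3) (b (a (l 3) (b (a (l 3) (b (l 6) (l 3))) (l 3))) (l 3))) (l 3))), by decide +kernel⟩

theorem c_mm_101 : CertB 536870912 536870912 536870912 536870912 1020054732 13421774 3 eng mog cd0q1 cd4q1 pd0 false false false .npn 1 0 1
    ndB0q1 ndB4q1 pcB0 cut_mm_101 Ext.none :=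
  certB1 (fam := false) (s1 := false) (s2 := false) (a := 1) (b := 0) (c := 1) (cn := .npn) (n1 := ndB0q1) (n2 := ndB4q1) (pc := pcB0) (cut := cut_mm_101) (xt := Ext.none) (P1 := 536870912) (W1 := 536870912) (P2 := 536870912) (W2 := 536870912) (P3 := 1020054732) (W3 := 13421774) (N0 := 3) (En := eng) (mo := mog) (C1 := cd0q1) (C2 := cd4q1) (C3 := pd0)
    rfl (fun _ => rfl) k0_mm_101

noncomputable def f_mm_102 : ℕ → ℕ → ℕ → ℕ → Bool := onCell 536870912 536870912 1073741824 536870912 1020054732 13421774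
    (rowB 3 eng mog cd0q1 cd4q2 pd0 0 false false false .npp 1 0 2 (qsf 536870912 536870912 1073741824 536870912 0) ndB0q1 ndB4q2 pcB0 Cut.none Ext.none)

def k0_mm_102 : ∃ t, chk3 f_mm_102 t 1 1 1 = true :=
  ⟨(l 3), by decide +kernel⟩

theorem c_mm_102 : CertB 536870912 536870912 1073741824 536870912 1020054732 13421774 3 eng mog cd0q1 cd4q2 pd0 false false false .npp 1 0 2
    ndB0q1 ndB4q2 pcB0 Cut.none Ext.none :=
  certB0 (fam := false) (s1 := false) (s2 := false) (a := 1) (b := 0) (c := 2) (cn := .npp) (n1 := ndB0q1) (n2 := ndB4q2) (pc := pcB0) (cut := Cut.none) (xt := Ext.none) (P1 := 536870912) (W1 := 536870912) (P2 := 1073741824) (W2 := 536870912) (P3 := 1020054732) (W3 := 13421774) (N0 := 3) (En := eng) (mo := mog) (C1 := cd0q1) (C2 := cd4q2) (C3 := pd0)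
    rfl k0_mm_102

noncomputable def f_mm_112 : ℕ → ℕ → ℕ → ℕ → Bool := onCell 536870912 536870912 1073741824 536870912 1020054732 13421774
    (rowB 3 eng mog cd0q1 cd4q2 pd1 0 false false false .dn 1 1 2 (qsf 536870912 536870912 1073741824 536870912 1) ndB0q1 ndB4q2 pcB1 Cut.none Ext.none)

def k0_mm_112 : ∃ t, chk3 f_mm_112 t 1 1 1 = true :=
  ⟨(l 3), by decide +kernel⟩

theorem c_mm_112 : CertB 536870912 536870912 1073741824 536870912 1020054732 13421774 3 eng mog cd0q1 cd4q2 pd1 false false false .dn 1 1 2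
    ndB0q1 ndB4q2 pcB1 Cut.none Ext.none :=
  certB0 (fam := false) (s1 := false) (s2 := false) (a := 1) (b := 1) (c := 2) (cn := .dn) (n1 := ndB0q1) (n2 := ndB4q2) (pc := pcB1) (cut := Cut.none) (xt := Ext.none) (P1 := 536870912) (W1 := 536870912) (P2 := 1073741824) (W2 := 536870912) (P3 := 1020054732) (W3 := 13421774) (N0 := 3) (En := eng) (mo := mog) (C1 := cd0q1) (C2 := cd4q2) (C3 := pd1)
    rfl k0_mm_112

noncomputable def f_mm_113 : ℕ → ℕ → ℕ → ℕ → Bool := onCell 536870912 536870912 0 1230186008 1020054732 13421774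
    (rowB 3 eng mog cd0q1 cd4q3 pd1 0 false false false .nn 1 1 3 (qsf 536870912 536870912 0 1230186008 1) ndB0q1 ndB4q3 pcB1 Cut.none Ext.none)

def k0_mm_113 : ∃ t, chk3 f_mm_113 t 1 1 1 = true :=
  ⟨(b (l 5) (b (l 5) (a (l 5) (l 3)))), by decide +kernel⟩

theorem c_mm_113 : CertB 536870912 536870912 0 1230186008 1020054732 13421774 3 eng mog cd0q1 cd4q3 pd1 false false false .nn 1 1 3
    ndB0q1 ndB4q3 pcB1 Cut.none Ext.none :=
  certB0 (fam := false) (s1 := false) (s2 := false) (a := 1) (b := 1) (c := 3) (cn := .nn) (n1 := ndB0q1) (n2 := ndB4q3) (pc := pcB1) (cut := Cut.none) (xt := Ext.none) (P1 := 536870912) (W1 := 536870912) (P2 := 0) (W2 := 1230186008) (P3 := 1020054732) (W3 := 13421774) (N0 := 3) (En := eng) (mo := mog) (C1 := cd0q1) (C2 := cd4q3) (C3 := pd1)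
    rfl k0_mm_113

noncomputable def f_mm_123 : ℕ → ℕ → ℕ → ℕ → Bool := onCell 1073741824 536870912 0 1230186008 1020054732 13421774
    (rowB 3 eng mog cd0q1 cd4q3 pd2 2 false false false .npn 1 2 3 (qsf 536870912 536870912 0 1230186008 2) ndB0q1 ndB4q3 pcB2 Cut.none Ext.none)

def k0_mm_123 : ∃ t, chk3 f_mm_123 t 1 1 1 = true :=
  ⟨(b (l 5) (l 5)), by decide +kernel⟩

theorem c_mm_123 : CertB 536870912 536870912 0 1230186008 1020054732 13421774 3 eng mog cd0q1 cd4q3 pd2 false false false .npn 1 2 3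
    ndB0q1 ndB4q3 pcB2 Cut.none Ext.none :=
  certB2 (fam := false) (s1 := false) (s2 := false) (a := 1) (b := 2) (c := 3) (cn := .npn) (n1 := ndB0q1) (n2 := ndB4q3) (pc := pcB2) (cut := Cut.none) (xt := Ext.none) (P1 := 536870912) (W1 := 536870912) (P2 := 0) (W2 := 1230186008) (P3 := 1020054732) (W3 := 13421774) (N0 := 3) (En := eng) (mo := mog) (C1 := cd0q1) (C2 := cd4q3) (C3 := pd2)
    rfl (fun _ => rfl) k0_mm_123

noncomputable def f_mm_133 : ℕ → ℕ → ℕ → ℕ → Bool := onCell 1610612736 536870912 0 1230186008 1020054732 13421774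
    (rowB 3 eng mog cd0q1 cd4q3 pd3 2 false false false .dn 1 3 3 (qsf 536870912 536870912 0 1230186008 3) ndB0q1 ndB4q3 pcB3 Cut.none Ext.none)

def k0_mm_133 : ∃ t, chk3 f_mm_133 t 1 1 1 = true :=
  ⟨(l 5), by decide +kernel⟩

theorem c_mm_133 : CertB 536870912 536870912 0 1230186008 1020054732 13421774 3 eng mog cd0q1 cd4q3 pd3 false false false .dn 1 3 3
    ndB0q1 ndB4q3 pcB3 Cut.none Ext.none :=
  certB2 (fam := false) (s1 := false) (s2 := false) (a := 1) (b := 3) (c := 3) (cn := .dn) (n1 := ndB0q1) (n2 := ndB4q3) (pc := pcB3) (cut := Cut.none) (xt := Ext.none) (P1 := 536870912) (W1 := 536870912) (P2 := 0) (W2 := 1230186008) (P3 := 1020054732) (W3 := 13421774) (N0 := 3) (En := eng) (mo := mog) (C1 := cd0q1) (C2 := cd4q3) (C3 := pd3)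
    rfl (fun _ => rfl) k0_mm_133

noncomputable def f_mm_202 : ℕ → ℕ → ℕ → ℕ → Bool := onCell 0 536870912 0 536870912 1020054732 13421774
    (rowB 3 eng mog cd0q2 cd4q2 pd0 1 false false false .pp 2 0 2 (qsf 0 536870912 1073741824 536870912 0) ndB0q2 ndB4q2 pcB0 Cut.none Ext.none)

def k0_mm_202 : ∃ t, chk3 f_mm_202 t 4 8 1 = true :=
  ⟨(a (b (b (l 15514648) (b (a (l 15388256) (b (l 15488824) (l 15444040))) (a (l 15310488) (b (c (l 15428080) (l 15425120)) (b (l 15393280) (a (a (l 15362320) (l 15385632)) (l 15430152))))))) (b (b (a (b (l 15301248) (l 15353088)) (b (l 15374480) (l 15369104))) (a (c (a (l 15267848) (l 15332544)) (l 15239936)) (l 15364080))) (a (b (a (b (l 15237600) (l 15229248)) (l 15286536)) (l 15220840)) (b (a (l 15345184) (l 15405152)) (b (l 15365352) (a (l 15327208) (a (l 15372104) (l 15400800)))))))) (b (b (b (a (b (l 15699368) (l 15674464)) (a (l 15753256) (l 15798040))) (a (a (l 15606048) (c (l 15653952) (l 15642312))) (b (l 15738904) (a (l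 15691624) (l 15726352))))) (b (a (a (a (l 15512168) (l 15561592)) (l 15605248)) (a (l 15646112) (a (l 15687904) (l 15703040)))) (a (b (l 15548584) (l 15534864)) (a (b (l 15626824) (a (b (l 15623712) (l 15618848)) (b (l 15646584) (l 15635520)))) (a (b (l 15675760) (l 15649536)) (l 15670704)))))) (b (a (b (b (l 15529448) (c (l 15506992) (l 15517208))) (a (b (l 15482912) (l 15476800)) (c (a (l 15525960) (l 15541768)) (l 15505728)))) (b (a (b (a (l 15605400) (l 15616104)) (l 15587144)) (b (l 15627352) (l 15601112))) (a (c (l 15554112) (l 15545352)) (c (l 15567136) (l 15557456))))) (a (a (b (b (l 15468144) (l 15475864)) (a (b (b (l 15437992) (l 15429112)) (l 15413968)) (l 15432136))) (b (l 15488128) (a (l 15439048) (l 15446408)))) (a (b (c (l 15506536) (l 15495112)) (a (l 15452088) (l 15454256))) (b (a (l 15506824) (l 15510664)) (a (l 15456272) (l 3)))))))), by decide +kernel⟩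

def k1_mm_202 : ∃ t, chk3 f_mm_202 t 4 9 1 = true :=
  ⟨(a (b (b (b (a (l 15226208) (a (l 15316160) (a (b (l 15366048) (l 15353824)) (b (l 15383728) (l 15364808))))) (a (l 15211760) (a (a (l 15290160) (b (l 15322264) (l 15307864))) (l 15328696)))) (a (a (b (l 15169224) (l 15160592)) (b (b (l 15234448) (l 15231512)) (a (b (l 15210512) (l 15206832)) (b (l 15236056) (l 15220816))))) (b (a (a (b (l 15278768) (l 15263416)) (l 15281152)) (l 15290320)) (l 15246024)))) (b (b (a (a (b (l 15156760) (a (l 15137456) (l 15167456))) (c (l 15193144) (l 15182080))) (c (l 15217584) (l 15201568))) (a (a (a (b (l 15136648) (l 15128968)) (l 15145488)) (l 15156416)) (a (l 15168312) (c (l 15191600) (l 15171008))))) (a (b (c (l 15122424) (l 15108200)) (l 15085816)) (a (c (l 15129960) (l 15109256)) (c (b (l 15158720) (a (l 15125232) (l 15128304))) (b (l 15135712) (l 15101080))))))) (b (a (b (b (a (l 15385176) (a (l 15395664) (l 15401976))) (a (l 15343496) (a (l 15353712) (l 15357080))))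 (a (a (b (l 15300208) (l 15262328)) (b (l 15307200) (l 15267504))) (b (c (l 15321360) (l 15302192)) (l 15269336)))) (a (b (b (a (l 15404656) (l 15405688)) (l 125255933239)) (b (c (l 15326328) (l 15303200)) (l 141898760935))) (a (b (l 306181441959) (l 3)) (l 3)))) (a (b (a (b (c (l 15236608) (l 15215504)) (c (l 15200072) (l 15176264))) (c (b (l 15241344) (l 15204504)) (l 126329300551))) (a (c (b (l 15164928) (l 15131576)) (l 15120032)) (c (b (l 135456062823) (l 144582802743)) (b (l 15139952) (l 15105624))))) (b (a (b (l 300812463495) (l 3)) (l 3)) (l 3))))), by decide +kernel⟩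

def k2_mm_202 : ∃ t, chk3 f_mm_202 t 5 4 1 = true :=
  ⟨(a (a (b (b (b (b (a (b (l 15832976) (l 15808968)) (l 15864384)) (b (l 151026456135) (l 15763976))) (b (l 153173846487) (l 148342049975))) (b (l 253031461319) (l 3))) (l 3)) (l 3)) (l 3)), by decide +kernel⟩

def k3_mm_202 : ∃ t, chk3 f_mm_202 t 4 10 1 = true :=
  ⟨(a (c (a (b (b (b (l 15065480) (l 15038544)) (a (l 14993976) (b (l 15020688) (l 14997120)))) (b (a (l 14950360) (b (l 14994712) (l 14951384))) (a (b (l 14921296) (l 14902608)) (l 14921160)))) (b (b (a (b (l 15086992) (a (l 15056832) (l 15061464))) (b (l 15095224) (l 15065560))) (c (a (b (l 15038728) (l 15013696)) (b (l 15045896) (l 15020728))) (a (l 15010480) (l 15016328)))) (c (a (b (l 14978632) (l 14938856)) (b (b (l 64051873543) (a (l 14974208) (l 149951175863))) (b (a (l 14954856) (l 162836037927)) (l 160688529335)))) (b (b (l 14976256) (l 138676864439)) (a (l 14919808) (l 158004147719)))))) (a (b (b (l 15031488) (a (l 14970736) (l 14981672)))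 (b (a (l 14922440) (l 14930936)) (a (l 14879456) (l 14885968)))) (b (b (a (b (l 15062352) (l 15032064)) (l 15050912)) (a (l 14988016) (l 14991072))) (b (b (l 14949944) (l 140287449911)) (a (l 14891088) (l 159077856151)))))) (a (b (b (a (c (b (c (l 15108224) (l 15092488)) (a (l 15069680) (l 137066474823))) (b (l 15068784) (l 15037600))) (c (b (l 278800435111) (l 3)) (l 280947846567))) (a (b (c (c (a (l 125255249863) (l 276115976327)) (l 140287612423)) (l 140824458711)) (a (c (b (l 142971966151) (l 151025006279)) (l 14980384)) (l 3))) (l 3))) (b (a (b (c (b (l 165520461527) (l 169815406359)) (l 166057285335)) (l 3)) (l 3)) (l 3))) (l 3))), by decide +kernel⟩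

def k4_mm_202 : ∃ t, chk3 f_mm_202 t 4 11 1 = true :=
  ⟨(a (b (a (b (c (a (l 14876848) (l 14886840)) (l 14844392)) (c (a (l 14849528) (c (l 14870768) (l 14849840))) (l 14814320))) (a (c (b (c (b (l 14914136) (l 152098525095)) (l 14886048)) (c (a (l 111833162679) (l 167667737207)) (l 163909609783))) (b (l 14854824) (l 166057054583))) (b (b (c (l 168204637783) (l 14869904)) (l 3)) (l 3)))) (a (b (c (a (l 14829080) (b (l 14845336) (l 161225247431))) (a (l 14786744) (l 14796104))) (a (c (l 14816016) (l 14770792)) (c (b (l 165520203735) (l 222965378359)) (l 220280943559)))) (b (b (c (l 228334072247) (l 228333980711)) (l 3)) (l 3)))) (l 3)), by decide +kernel⟩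

def k5_mm_202 : ∃ t, chk3 f_mm_202 t 5 5 1 = true :=
  ⟨(l 3), by decide +kernel⟩

def k6_mm_202 : ∃ t, chk3 f_mm_202 t 2 3 1 = true :=
  ⟨(b (a (b (a (a (b (a (b (c (b (l 14810816) (a (l 14805792) (l 215986024471))) (l 205785403479)) (c (a (b (l 14805976) (l 212764792503)) (l 255714395239)) (l 232092077495))) (b (c (l 266451830599) (l 256251185591)) (l 3))) (b (b (c (l 260009369495) (l 343224259847)) (l 3)) (l 3))) (l 3)) (l 3)) (l 3)) (l 3)) (l 3)), by decide +kernel⟩

def k7_mm_202 : ∃ t, chk3 f_mm_202 t 3 1 1 = true :=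
  ⟨(l 3), by decide +kernel⟩

theorem s8_mm_202 : ∃ t, chk3 f_mm_202 t 4 5 1 = true := ex3_b k3_mm_202 k4_mm_202

theorem s9_mm_202 : ∃ t, chk3 f_mm_202 t 2 5 1 = true := ex3_a s8_mm_202 k5_mm_202

theorem s10_mm_202 : ∃ t, chk3 f_mm_202 t 4 4 1 = true := ex3_b k0_mm_202 k1_mm_202

theorem s11_mm_202 : ∃ t, chk3 f_mm_202 t 2 4 1 = true := ex3_a s10_mm_202 k2_mm_202

theorem s12_mm_202 : ∃ t, chk3 f_mm_202 t 2 2 1 = true := ex3_b s11_mm_202 s9_mm_202

theorem s13_mm_202 : ∃ t, chk3 f_mm_202 t 2 1 1 = true := ex3_b s12_mm_202 k6_mm_202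

theorem s14_mm_202 : ∃ t, chk3 f_mm_202 t 1 1 1 = true := ex3_a s13_mm_202 k7_mm_202

theorem c_mm_202 : CertB 0 536870912 1073741824 536870912 1020054732 13421774 3 eng mog cd0q2 cd4q2 pd0 false false false .pp 2 0 2
    ndB0q2 ndB4q2 pcB0 Cut.none Ext.none :=
  certB1 (fam := false) (s1 := false) (s2 := false) (a := 2) (b := 0) (c := 2) (cn := .pp) (n1 := ndB0q2) (n2 := ndB4q2) (pc := pcB0) (cut := Cut.none) (xt := Ext.none) (P1 := 0) (W1 := 536870912) (P2 := 1073741824) (W2 := 536870912) (P3 := 1020054732) (W3 := 13421774) (N0 := 3) (En := eng) (mo := mog) (C1 := cd0q2) (C2 := cd4q2) (C3 := pd0)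
    rfl (fun _ => rfl) s14_mm_202

noncomputable def f_mm_203 : ℕ → ℕ → ℕ → ℕ → Bool := onCell 0 536870912 0 1230186008 1020054732 13421774
    (rowB 3 eng mog cd0q2 cd4q3 pd0 0 false false false .up 2 0 3 (qsf 0 536870912 0 1230186008 0) ndB0q2 ndB4q3 pcB0 Cut.none Ext.none)

def k0_mm_203 : ∃ t, chk3 f_mm_203 t 1 1 1 = true :=
  ⟨(b (l 2) (a (b (l 2) (l 3)) (l 3))), by decide +kernel⟩

theorem c_mm_203 : CertB 0 536870912 0 1230186008 1020054732 13421774 3 eng mog cd0q2 cd4q3 pd0 false false false .up 2 0 3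
    ndB0q2 ndB4q3 pcB0 Cut.none Ext.none :=
  certB0 (fam := false) (s1 := false) (s2 := false) (a := 2) (b := 0) (c := 3) (cn := .up) (n1 := ndB0q2) (n2 := ndB4q3) (pc := pcB0) (cut := Cut.none) (xt := Ext.none) (P1 := 0) (W1 := 536870912) (P2 := 0) (W2 := 1230186008) (P3 := 1020054732) (W3 := 13421774) (N0 := 3) (En := eng) (mo := mog) (C1 := cd0q2) (C2 := cd4q3) (C3 := pd0)
    rfl k0_mm_203

noncomputable def f_mm_213 : ℕ → ℕ → ℕ → ℕ → Bool := onCell 0 536870912 0 1230186008 1020054732 13421774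
    (rowB 3 eng mog cd0q2 cd4q3 pd1 0 false false false .pnn 2 1 3 (qsf 0 536870912 0 1230186008 1) ndB0q2 ndB4q3 pcB1 Cut.none Ext.none)

def k0_mm_213 : ∃ t, chk3 f_mm_213 t 1 1 1 = true :=
  ⟨(b (a (l 3) (a (l 3) (l 5))) (a (b (l 3) (l 3)) (l 3))), by decide +kernel⟩

theorem c_mm_213 : CertB 0 536870912 0 1230186008 1020054732 13421774 3 eng mog cd0q2 cd4q3 pd1 false false false .pnn 2 1 3
    ndB0q2 ndB4q3 pcB1 Cut.none Ext.none :=
  certB0 (fam := false) (s1 := false) (s2 := false) (a := 2) (b := 1) (c := 3) (cn := .pnn) (n1 := ndB0q2) (n2 := ndB4q3) (pc := pcB1) (cut := Cut.none) (xt := Ext.none) (P1 := 0) (W1 := 536870912) (P2 := 0) (W2 := 1230186008) (P3 := 1020054732) (W3 := 13421774) (N0 := 3) (En := eng) (mo := mog) (C1 := cd0q2) (C2 := cd4q3) (C3 := pd1)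
    rfl k0_mm_213

end Pool.Agent.Strip051.G.I9500_9625.Tab.C.BB04

namespace Pool.Agent.Strip051.G.I9500_9625.Tab.C.BB05

open Pool.Agent.Strip051.PB Pool.Agent.Strip051.PB.T
open Pool.Agent.Strip051.G.I9500_9625.Tab

noncomputable def cut_pp_001 : Cut := Cut.of [[⟨3, 0, 0, 1449551462⟩]]

noncomputable def f_pp_001 : ℕ → ℕ → ℕ → ℕ → Bool := onCell 0 536870912 536870912 536870912 1020054732 13421774
    (rowB 3 eng mog cd0q0 cd5q1 pd0 0 false true true .up 0 0 1 (qsf 0 536870912 536870912 536870912 0) ndB0q0 ndB5q1 pcB0 cut_pp_001 Ext.none)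

def k0_pp_001 : ∃ t, chk3 f_pp_001 t 1 1 1 = true :=
  ⟨(l 6), by decide +kernel⟩

theorem c_pp_001 : CertB 0 536870912 536870912 536870912 1020054732 13421774 3 eng mog cd0q0 cd5q1 pd0 false true true .up 0 0 1
    ndB0q0 ndB5q1 pcB0 cut_pp_001 Ext.none :=
  certB0 (fam := false) (s1 := true) (s2 := true) (a := 0) (b := 0) (c := 1) (cn := .up) (n1 := ndB0q0) (n2 := ndB5q1) (pc := pcB0) (cut := cut_pp_001) (xt := Ext.none) (P1 := 0) (W1 := 536870912) (P2 := 536870912) (W2 := 536870912) (P3 := 1020054732) (W3 := 13421774) (N0 := 3) (En := eng) (mo := mog) (C1 := cd0q0) (C2 := cd5q1) (C3 := pd0)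
    rfl k0_pp_001

noncomputable def cut_pp_011 : Cut := Cut.of [[⟨3, 0, 0, 1449551462⟩], [⟨0, 0, 0, 38347922⟩, ⟨1, 1, 0, 38347922⟩, ⟨2, 1, 0, 38347922⟩]]

noncomputable def f_pp_011 : ℕ → ℕ → ℕ → ℕ → Bool := onCell 0 536870912 536870912 536870912 1020054732 13421774
    (rowB 3 eng mog cd0q0 cd5q1 pd1 0 false true true .pnn 0 1 1 (qsf 0 536870912 536870912 536870912 1) ndB0q0 ndB5q1 pcB1 cut_pp_011 Ext.none)

def k0_pp_011 : ∃ t, chk3 f_pp_011 t 1 1 1 = true :=
  ⟨(l 6), by decide +kernel⟩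

theorem c_pp_011 : CertB 0 536870912 536870912 536870912 1020054732 13421774 3 eng mog cd0q0 cd5q1 pd1 false true true .pnn 0 1 1
    ndB0q0 ndB5q1 pcB1 cut_pp_011 Ext.none :=
  certB0 (fam := false) (s1 := true) (s2 := true) (a := 0) (b := 1) (c := 1) (cn := .pnn) (n1 := ndB0q0) (n2 := ndB5q1) (pc := pcB1) (cut := cut_pp_011) (xt := Ext.none) (P1 := 0) (W1 := 536870912) (P2 := 536870912) (W2 := 536870912) (P3 := 1020054732) (W3 := 13421774) (N0 := 3) (En := eng) (mo := mog) (C1 := cd0q0) (C2 := cd5q1) (C3 := pd1)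
    rfl k0_pp_011

noncomputable def cut_pp_012 : Cut := Cut.of [[⟨3, 0, 0, 1449551462⟩], [⟨0, 0, 0, 38347922⟩, ⟨1, 1, 0, 38347922⟩, ⟨2, 1, 0, 38347922⟩]]

noncomputable def f_pp_012 : ℕ → ℕ → ℕ → ℕ → Bool := onCell 0 536870912 536870912 536870912 1020054732 13421774
    (rowB 3 eng mog cd0q0 cd5q2 pd1 1 false true true .pnp 0 1 2 (qsf 0 536870912 1073741824 536870912 1) ndB0q0 ndB5q2 pcB1 cut_pp_012 Ext.none)

def k0_pp_012 : ∃ t, chk3 f_pp_012 t 1 1 1 = true :=
  ⟨(l 6), by decide +kernel⟩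

theorem c_pp_012 : CertB 0 536870912 1073741824 536870912 1020054732 13421774 3 eng mog cd0q0 cd5q2 pd1 false true true .pnp 0 1 2
    ndB0q0 ndB5q2 pcB1 cut_pp_012 Ext.none :=
  certB1 (fam := false) (s1 := true) (s2 := true) (a := 0) (b := 1) (c := 2) (cn := .pnp) (n1 := ndB0q0) (n2 := ndB5q2) (pc := pcB1) (cut := cut_pp_012) (xt := Ext.none) (P1 := 0) (W1 := 536870912) (P2 := 1073741824) (W2 := 536870912) (P3 := 1020054732) (W3 := 13421774) (N0 := 3) (En := eng) (mo := mog) (C1 := cd0q0) (C2 := cd5q2) (C3 := pd1)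
    rfl (fun _ => rfl) k0_pp_012

noncomputable def cut_pp_022 : Cut := Cut.of [[⟨3, 0, 0, 1449551462⟩], [⟨0, 0, 0, 26843545⟩, ⟨1, 1, 0, 26843545⟩, ⟨2, 1, 0, 26843545⟩]]

noncomputable def f_pp_022 : ℕ → ℕ → ℕ → ℕ → Bool := onCell 0 536870912 1073741824 536870912 1020054732 13421774
    (rowB 3 eng mog cd0q0 cd5q2 pd2 0 false true true .pp 0 2 2 (qsf 0 536870912 1073741824 536870912 2) ndB0q0 ndB5q2 pcB2 cut_pp_022 Ext.none)

def k0_pp_022 : ∃ t, chk3 f_pp_022 t 1 1 1 = true :=
  ⟨(a (b (l 6) (a (b (a (b (a (b (l 6) (l 15497400)) (l 6)) (a (b (l 15636400) (l 15571832)) (b (a (l 15782728) (l 6)) (l 15721040)))) (b (l 6) (b (l 6) (a (l 15945968) (l 6))))) (a (b (a (l 15478352) (l 15457128)) (a (l 15368528) (l 15553912))) (b (b (a (l 15878392) (l 6)) (l 15855736)) (b (l 15838984) (l 15784464))))) (b (l 6) (b (l 6) (a (b (l 15987024) (l 16076088)) (l 6)))))) (l 6)), by decide +kernel⟩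

theorem c_pp_022 : CertB 0 536870912 1073741824 536870912 1020054732 13421774 3 eng mog cd0q0 cd5q2 pd2 false true true .pp 0 2 2
    ndB0q0 ndB5q2 pcB2 cut_pp_022 Ext.none :=
  certB0 (fam := false) (s1 := true) (s2 := true) (a := 0) (b := 2) (c := 2) (cn := .pp) (n1 := ndB0q0) (n2 := ndB5q2) (pc := pcB2) (cut := cut_pp_022) (xt := Ext.none) (P1 := 0) (W1 := 536870912) (P2 := 1073741824) (W2 := 536870912) (P3 := 1020054732) (W3 := 13421774) (N0 := 3) (En := eng) (mo := mog) (C1 := cd0q0) (C2 := cd5q2) (C3 := pd2)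
    rfl k0_pp_022

noncomputable def cut_pp_023 : Cut := Cut.of [[⟨3, 0, 0, 1449551462⟩]]

noncomputable def f_pp_023 : ℕ → ℕ → ℕ → ℕ → Bool := onCell 1073741824 536870912 0 1230186008 1020054732 13421774
    (rowB 3 eng mog cd0q0 cd5q3 pd2 2 false true true .up 0 2 3 (qsf 0 536870912 0 1230186008 2) ndB0q0 ndB5q3 pcB2 cut_pp_023 Ext.none)

def k0_pp_023 : ∃ t, chk3 f_pp_023 t 1 1 1 = true :=
  ⟨(a (b (l 2) (l 6)) (a (b (l 2) (a (b (b (l 2) (l 6)) (l 6)) (b (b (b (a (l 2) (l 16361904)) (l 16423552)) (b (l 16416888) (l 16387736))) (b (b (l 16387568) (l 16324904)) (b (b (l 16268656) (l 16223928)) (b (l 16104288) (l 16007848))))))) (a (b (b (l 2) (b (b (l 2) (a (l 2) (l 15984232))) (b (a (l 2) (l 16106936)) (l 16213224)))) (b (b (b (a (l 16304928) (l 16244616)) (l 16286520)) (b (l 16309464) (l 16283176))) (b (b (l 16220944) (l 16131184)) (b (b (l 16052688) (l 15992392)) (b (l 15794336) (l 15733264)))))) (b (b (b (l 14864304) (l 15326328)) (b (b (l 15641656) (l 15844576))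 (b (a (l 16044312) (l 15974856)) (l 16097032)))) (b (b (b (l 16149616) (l 16051064)) (b (l 16162072) (l 16112072))) (b (b (l 16022912) (l 15902288)) (b (b (l 15802048) (l 15723216)) (a (b (l 15704264) (l 15550648)) (b (l 15537832) (l 15393712)))))))))), by decide +kernel⟩

theorem c_pp_023 : CertB 0 536870912 0 1230186008 1020054732 13421774 3 eng mog cd0q0 cd5q3 pd2 false true true .up 0 2 3
    ndB0q0 ndB5q3 pcB2 cut_pp_023 Ext.none :=
  certB2 (fam := false) (s1 := true) (s2 := true) (a := 0) (b := 2) (c := 3) (cn := .up) (n1 := ndB0q0) (n2 := ndB5q3) (pc := pcB2) (cut := cut_pp_023) (xt := Ext.none) (P1 := 0) (W1 := 536870912) (P2 := 0) (W2 := 1230186008) (P3 := 1020054732) (W3 := 13421774) (N0 := 3) (En := eng) (mo := mog) (C1 := cd0q0) (C2 := cd5q3) (C3 := pd2)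
    rfl (fun _ => rfl) k0_pp_023

noncomputable def cut_pp_033 : Cut := Cut.of [[⟨3, 0, 0, 1449551462⟩]]

noncomputable def f_pp_033 : ℕ → ℕ → ℕ → ℕ → Bool := onCell 1610612736 536870912 0 1230186008 1020054732 13421774
    (rowB 3 eng mog cd0q0 cd5q3 pd3 2 false true true .pnn 0 3 3 (qsf 0 536870912 0 1230186008 3) ndB0q0 ndB5q3 pcB3 cut_pp_033 Ext.none)

def k0_pp_033 : ∃ t, chk3 f_pp_033 t 1 2 1 = true :=
  ⟨(b (a (a (b (a (b (l 16484776) (l 16470536)) (b (l 16373880) (l 16365504))) (a (l 16446512) (l 16326848))) (b (a (b (l 16235552) (l 16268432)) (l 16180632)) (a (b (l 16236496) (l 16198736)) (b (l 16122904) (l 16078840))))) (a (b (a (l 16045856) (l 4)) (a (a (l 16017512) (l 15969424)) (a (l 15920520) (l 4)))) (l 4))) (a (a (b (a (l 16414032) (l 16267512)) (a (b (a (l 16412256) (l 16335256)) (a (b (l 16357696) (l 16269280)) (b (l 16296496) (l 16236656)))) (b (l 16207464) (a (l 16104248) (l 16100760))))) (a (b (l 16118928) (b (l 16027008) (l 15945856))) (b (b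 (l 16012544) (l 15929032)) (b (l 15833080) (l 15721304))))) (b (a (a (a (b (l 15904992) (l 15801872)) (b (l 15817552) (l 15709184))) (a (b (l 15724096) (l 15601904)) (l 15564888))) (a (a (b (l 4) (l 15357048)) (l 4)) (l 4))) (a (a (b (l 15623800) (l 15470472)) (a (b (l 15442736) (l 15255736)) (b (l 15301920) (l 15009880)))) (a (a (b (l 15127920) (a (l 14931336) (l 14845264))) (l 374229408023)) (b (l 4) (l 1))))))), by decide +kernel⟩

def k1_pp_033 : ∃ t, chk3 f_pp_033 t 1 6 1 = true :=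
  ⟨(a (a (b (a (b (a (l 16139880) (l 16102424)) (a (l 15991056) (l 15947984))) (b (a (l 16052952) (b (l 16027888) (l 15945184))) (a (l 15892200) (l 15821720)))) (b (b (a (a (l 15932496) (l 15863136)) (a (l 15798728) (l 15724032))) (a (l 15743432) (a (l 15769728) (l 15679192)))) (a (a (l 15959288) (l 15851024)) (a (l 15740488) (l 15627912))))) (b (a (b (a (b (l 15928624) (l 15861928)) (l 15780032)) (a (l 15734648) (l 15440864))) (b (l 15589360) (a (b (l 15545744) (l 15463264)) (b (l 15401720) (l 15313128))))) (a (b (a (b (l 15632008) (l 15581576)) (l 15491720)) (a (b (l 15543352) (l 15473280)) (b (l 15425904) (l 15352592)))) (b (a (l 15355608) (b (l 15237528) (l 15160664))) (a (b (l 15290616) (l 15207096)) (b (l 15112312) (l 15060664))))))) (b (a (a (b (a (l 15376968) (l 15140752)) (a (b (l 15253408) (l 15147504)) (l 14840072))) (b (a (l 15034688) (l 14845992)) (a (l 14825256) (l 14667240)))) (a (a (b (b (l 14728256) (l 1)) (l 1)) (l 1)) (l 1))) (a (a (b (a (b (l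 15042944) (l 14970704)) (b (l 14855016) (l 14778704))) (a (b (l 14925832) (l 14897528)) (b (l 14748200) (l 1)))) (b (b (l 14633248) (l 1)) (l 1))) (l 1)))), by decide +kernel⟩

def k2_pp_033 : ∃ t, chk3 f_pp_033 t 1 7 1 = true :=
  ⟨(a (b (a (b (a (b (l 15817544) (a (l 15787312) (l 15644888))) (b (l 15539576) (a (l 15496096) (l 15339888)))) (a (b (l 15640384) (l 15581576)) (b (a (l 15394920) (l 15208744)) (a (l 15324720) (l 15141184))))) (a (b (a (b (l 15364416) (l 15172528)) (b (l 15200800) (l 15005376))) (b (a (l 15016832) (l 14840848)) (l 14886952))) (b (a (b (l 15050672) (l 14855016)) (l 14823784)) (l 1)))) (a (b (a (b (a (l 15616848) (l 15450344)) (a (l 15586336) (l 15425624))) (b (a (l 15278200) (l 15105600)) (b (l 15181136) (l 14929448)))) (a (b (a (b (l 15553176) (l 15444992)) (l 15321288)) (a (l 15091872) (l 15090688))) (b (a (l 15152240) (l 1)) (l 1)))) (a (b (b (l 14894048) (l 1)) (l 1)) (l 1)))) (l 1)), by decide +kernel⟩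

theorem s3_pp_033 : ∃ t, chk3 f_pp_033 t 1 3 1 = true := ex3_b k1_pp_033 k2_pp_033

theorem s4_pp_033 : ∃ t, chk3 f_pp_033 t 1 1 1 = true := ex3_b k0_pp_033 s3_pp_033

theorem c_pp_033 : CertB 0 536870912 0 1230186008 1020054732 13421774 3 eng mog cd0q0 cd5q3 pd3 false true true .pnn 0 3 3
    ndB0q0 ndB5q3 pcB3 cut_pp_033 Ext.none :=
  certB2 (fam := false) (s1 := true) (s2 := true) (a := 0) (b := 3) (c := 3) (cn := .pnn) (n1 := ndB0q0) (n2 := ndB5q3) (pc := pcB3) (cut := cut_pp_033) (xt := Ext.none) (P1 := 0) (W1 := 536870912) (P2 := 0) (W2 := 1230186008) (P3 := 1020054732) (W3 := 13421774) (N0 := 3) (En := eng) (mo := mog) (C1 := cd0q0) (C2 := cd5q3) (C3 := pd3)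
    rfl (fun _ => rfl) s4_pp_033

noncomputable def cut_pp_101 : Cut := Cut.of [[⟨3, 0, 0, 1449551462⟩]]

noncomputable def f_pp_101 : ℕ → ℕ → ℕ → ℕ → Bool := onCell 536870912 536870912 0 536870912 1020054732 13421774
    (rowB 3 eng mog cd0q1 cd5q1 pd0 1 false true true .npn 1 0 1 (qsf 536870912 536870912 536870912 536870912 0) ndB0q1 ndB5q1 pcB0 cut_pp_101 Ext.none)

def k0_pp_101 : ∃ t, chk3 f_pp_101 t 1 1 1 = true :=
  ⟨(l 6), by decide +kernel⟩

theorem c_pp_101 : CertB 536870912 536870912 536870912 536870912 1020054732 13421774 3 eng mog cd0q1 cd5q1 pd0 false true true .npn 1 0 1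
    ndB0q1 ndB5q1 pcB0 cut_pp_101 Ext.none :=
  certB1 (fam := false) (s1 := true) (s2 := true) (a := 1) (b := 0) (c := 1) (cn := .npn) (n1 := ndB0q1) (n2 := ndB5q1) (pc := pcB0) (cut := cut_pp_101) (xt := Ext.none) (P1 := 536870912) (W1 := 536870912) (P2 := 536870912) (W2 := 536870912) (P3 := 1020054732) (W3 := 13421774) (N0 := 3) (En := eng) (mo := mog) (C1 := cd0q1) (C2 := cd5q1) (C3 := pd0)
    rfl (fun _ => rfl) k0_pp_101

noncomputable def cut_pp_102 : Cut := Cut.of [[⟨3, 0, 0, 1449551462⟩]]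

noncomputable def f_pp_102 : ℕ → ℕ → ℕ → ℕ → Bool := onCell 536870912 536870912 1073741824 536870912 1020054732 13421774
    (rowB 3 eng mog cd0q1 cd5q2 pd0 0 false true true .npp 1 0 2 (qsf 536870912 536870912 1073741824 536870912 0) ndB0q1 ndB5q2 pcB0 cut_pp_102 Ext.none)

def k0_pp_102 : ∃ t, chk3 f_pp_102 t 1 1 1 = true :=
  ⟨(l 6), by decide +kernel⟩

theorem c_pp_102 : CertB 536870912 536870912 1073741824 536870912 1020054732 13421774 3 eng mog cd0q1 cd5q2 pd0 false true true .npp 1 0 2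
    ndB0q1 ndB5q2 pcB0 cut_pp_102 Ext.none :=
  certB0 (fam := false) (s1 := true) (s2 := true) (a := 1) (b := 0) (c := 2) (cn := .npp) (n1 := ndB0q1) (n2 := ndB5q2) (pc := pcB0) (cut := cut_pp_102) (xt := Ext.none) (P1 := 536870912) (W1 := 536870912) (P2 := 1073741824) (W2 := 536870912) (P3 := 1020054732) (W3 := 13421774) (N0 := 3) (En := eng) (mo := mog) (C1 := cd0q1) (C2 := cd5q2) (C3 := pd0)
    rfl k0_pp_102

noncomputable def cut_pp_112 : Cut := Cut.of [[⟨3, 0, 0, 1449551462⟩]]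

noncomputable def f_pp_112 : ℕ → ℕ → ℕ → ℕ → Bool := onCell 536870912 536870912 1073741824 536870912 1020054732 13421774
    (rowB 3 eng mog cd0q1 cd5q2 pd1 0 false true true .dn 1 1 2 (qsf 536870912 536870912 1073741824 536870912 1) ndB0q1 ndB5q2 pcB1 cut_pp_112 Ext.none)

def k0_pp_112 : ∃ t, chk3 f_pp_112 t 1 1 1 = true :=
  ⟨(l 6), by decide +kernel⟩

theorem c_pp_112 : CertB 536870912 536870912 1073741824 536870912 1020054732 13421774 3 eng mog cd0q1 cd5q2 pd1 false true true .dn 1 1 2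
    ndB0q1 ndB5q2 pcB1 cut_pp_112 Ext.none :=
  certB0 (fam := false) (s1 := true) (s2 := true) (a := 1) (b := 1) (c := 2) (cn := .dn) (n1 := ndB0q1) (n2 := ndB5q2) (pc := pcB1) (cut := cut_pp_112) (xt := Ext.none) (P1 := 536870912) (W1 := 536870912) (P2 := 1073741824) (W2 := 536870912) (P3 := 1020054732) (W3 := 13421774) (N0 := 3) (En := eng) (mo := mog) (C1 := cd0q1) (C2 := cd5q2) (C3 := pd1)
    rfl k0_pp_112

noncomputable def cut_pp_113 : Cut := Cut.of [[⟨3, 0, 0, 1449551462⟩], [⟨0, 1, 0, 26738688⟩, ⟨1, 1, 0, 26738688⟩, ⟨2, 2, 0, 2621440⟩]]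

noncomputable def f_pp_113 : ℕ → ℕ → ℕ → ℕ → Bool := onCell 536870912 536870912 0 1230186008 1020054732 13421774
    (rowB 3 eng mog cd0q1 cd5q3 pd1 0 false true true .nn 1 1 3 (qsf 536870912 536870912 0 1230186008 1) ndB0q1 ndB5q3 pcB1 cut_pp_113 Ext.none)

def k0_pp_113 : ∃ t, chk3 f_pp_113 t 1 1 1 = true :=
  ⟨(b (a (l 2) (a (l 2) (b (a (l 2) (l 6)) (l 6)))) (b (a (a (l 2) (l 6)) (l 6)) (l 6))), by decide +kernel⟩

theorem c_pp_113 : CertB 536870912 536870912 0 1230186008 1020054732 13421774 3 eng mog cd0q1 cd5q3 pd1 false true true .nn 1 1 3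
    ndB0q1 ndB5q3 pcB1 cut_pp_113 Ext.none :=
  certB0 (fam := false) (s1 := true) (s2 := true) (a := 1) (b := 1) (c := 3) (cn := .nn) (n1 := ndB0q1) (n2 := ndB5q3) (pc := pcB1) (cut := cut_pp_113) (xt := Ext.none) (P1 := 536870912) (W1 := 536870912) (P2 := 0) (W2 := 1230186008) (P3 := 1020054732) (W3 := 13421774) (N0 := 3) (En := eng) (mo := mog) (C1 := cd0q1) (C2 := cd5q3) (C3 := pd1)
    rfl k0_pp_113

noncomputable def cut_pp_123 : Cut := Cut.of [[⟨3, 0, 0, 1449551462⟩], [⟨0, 1, 0, 26738688⟩, ⟨1, 1, 0, 26738688⟩, ⟨2, 2, 0, 2621440⟩]]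

noncomputable def f_pp_123 : ℕ → ℕ → ℕ → ℕ → Bool := onCell 1073741824 536870912 0 1230186008 1020054732 13421774
    (rowB 3 eng mog cd0q1 cd5q3 pd2 2 false true true .npn 1 2 3 (qsf 536870912 536870912 0 1230186008 2) ndB0q1 ndB5q3 pcB2 cut_pp_123 Ext.none)

def k0_pp_123 : ∃ t, chk3 f_pp_123 t 1 1 1 = true :=
  ⟨(a (b (a (a (l 6) (b (b (a (l 6) (b (l 16340488) (l 6))) (l 6)) (l 6))) (b (b (a (a (b (l 16189096) (b (l 16273328) (l 6))) (b (l 16034936) (l 16166240))) (a (l 15894120) (l 15816144))) (a (a (l 6) (b (b (l 16260072) (l 16306312)) (l 6))) (b (a (l 16174496) (l 16055088)) (a (l 16130424) (l 16065736))))) (a (l 6) (b (a (l 6) (b (l 16285320) (l 16368408))) (l 6))))) (l 6)) (b (b (a (b (a (b (l 15506680) (l 15700480)) (l 15272184)) (a (b (l 15876224) (a (l 16102856) (l 15998824))) (b (l 15642592) (l 15838488)))) (b (a (l 15085576) (l 14864304)) (a (b (l 15423344) (l 15629136)) (l 15305192)))) (a (b (a (b (a (l 16216936) (l 16124264)) (a (l 16304104) (l 16243304)))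 (b (a (l 16071072) (l 15983352)) (a (l 16185400) (l 16124072)))) (a (b (a (l 16386880) (l 16328856)) (a (l 6) (l 16407280))) (b (l 16140888) (l 16198792)))) (b (a (b (l 15834992) (a (l 16059376) (l 15984208))) (b (l 15641336) (l 15843992))) (a (b (a (l 16163264) (l 16106832)) (l 16212784)) (b (a (l 16044024) (l 1)) (l 1)))))) (b (a (b (a (b (a (l 6) (l 16464616)) (l 6)) (b (a (l 16414160) (l 16361808)) (l 16423016))) (a (l 6) (b (l 16436280) (l 1)))) (b (a (b (a (l 16304632) (l 1)) (l 1)) (l 1)) (l 1))) (l 1)))), by decide +kernel⟩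

theorem c_pp_123 : CertB 536870912 536870912 0 1230186008 1020054732 13421774 3 eng mog cd0q1 cd5q3 pd2 false true true .npn 1 2 3
    ndB0q1 ndB5q3 pcB2 cut_pp_123 Ext.none :=
  certB2 (fam := false) (s1 := true) (s2 := true) (a := 1) (b := 2) (c := 3) (cn := .npn) (n1 := ndB0q1) (n2 := ndB5q3) (pc := pcB2) (cut := cut_pp_123) (xt := Ext.none) (P1 := 536870912) (W1 := 536870912) (P2 := 0) (W2 := 1230186008) (P3 := 1020054732) (W3 := 13421774) (N0 := 3) (En := eng) (mo := mog) (C1 := cd0q1) (C2 := cd5q3) (C3 := pd2)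
    rfl (fun _ => rfl) k0_pp_123

noncomputable def cut_pp_133 : Cut := Cut.of [[⟨3, 0, 0, 1449551462⟩]]

noncomputable def f_pp_133 : ℕ → ℕ → ℕ → ℕ → Bool := onCell 536870912 536870912 0 1230186008 1020054732 13421774
    (rowB 3 eng mog cd0q1 cd5q3 pd3 0 false true true .dn 1 3 3 (qsf 536870912 536870912 0 1230186008 3) ndB0q1 ndB5q3 pcB3 cut_pp_133 Ext.none)

def k0_pp_133 : ∃ t, chk3 f_pp_133 t 1 1 1 = true :=
  ⟨(b (b (a (a (b (l 5563626067031) (l 1)) (l 1)) (l 1)) (l 1)) (l 1)), by decide +kernel⟩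

theorem c_pp_133 : CertB 536870912 536870912 0 1230186008 1020054732 13421774 3 eng mog cd0q1 cd5q3 pd3 false true true .dn 1 3 3
    ndB0q1 ndB5q3 pcB3 cut_pp_133 Ext.none :=
  certB0 (fam := false) (s1 := true) (s2 := true) (a := 1) (b := 3) (c := 3) (cn := .dn) (n1 := ndB0q1) (n2 := ndB5q3) (pc := pcB3) (cut := cut_pp_133) (xt := Ext.none) (P1 := 536870912) (W1 := 536870912) (P2 := 0) (W2 := 1230186008) (P3 := 1020054732) (W3 := 13421774) (N0 := 3) (En := eng) (mo := mog) (C1 := cd0q1) (C2 := cd5q3) (C3 := pd3)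
    rfl k0_pp_133

noncomputable def cut_pp_202 : Cut := Cut.of [[⟨3, 0, 0, 1449551462⟩]]

noncomputable def f_pp_202 : ℕ → ℕ → ℕ → ℕ → Bool := onCell 0 536870912 1073741824 536870912 1020054732 13421774
    (rowB 3 eng mog cd0q2 cd5q2 pd0 0 false true true .pp 2 0 2 (qsf 0 536870912 1073741824 536870912 0) ndB0q2 ndB5q2 pcB0 cut_pp_202 Ext.none)

def k0_pp_202 : ∃ t, chk3 f_pp_202 t 1 1 1 = true :=
  ⟨(l 5), by decide +kernel⟩

theorem c_pp_202 : CertB 0 536870912 1073741824 536870912 1020054732 13421774 3 eng mog cd0q2 cd5q2 pd0 false true true .pp 2 0 2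
    ndB0q2 ndB5q2 pcB0 cut_pp_202 Ext.none :=
  certB0 (fam := false) (s1 := true) (s2 := true) (a := 2) (b := 0) (c := 2) (cn := .pp) (n1 := ndB0q2) (n2 := ndB5q2) (pc := pcB0) (cut := cut_pp_202) (xt := Ext.none) (P1 := 0) (W1 := 536870912) (P2 := 1073741824) (W2 := 536870912) (P3 := 1020054732) (W3 := 13421774) (N0 := 3) (En := eng) (mo := mog) (C1 := cd0q2) (C2 := cd5q2) (C3 := pd0)
    rfl k0_pp_202

noncomputable def cut_pp_203 : Cut := Cut.of [[⟨3, 0, 0, 1449551462⟩]]

noncomputable def f_pp_203 : ℕ → ℕ → ℕ → ℕ → Bool := onCell 0 536870912 0 1230186008 1020054732 13421774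
    (rowB 3 eng mog cd0q2 cd5q3 pd0 0 false true true .up 2 0 3 (qsf 0 536870912 0 1230186008 0) ndB0q2 ndB5q3 pcB0 cut_pp_203 Ext.none)

def k0_pp_203 : ∃ t, chk3 f_pp_203 t 1 1 1 = true :=
  ⟨(b (l 2) (a (l 5) (l 6))), by decide +kernel⟩

theorem c_pp_203 : CertB 0 536870912 0 1230186008 1020054732 13421774 3 eng mog cd0q2 cd5q3 pd0 false true true .up 2 0 3
    ndB0q2 ndB5q3 pcB0 cut_pp_203 Ext.none :=
  certB0 (fam := false) (s1 := true) (s2 := true) (a := 2) (b := 0) (c := 3) (cn := .up) (n1 := ndB0q2) (n2 := ndB5q3) (pc := pcB0) (cut := cut_pp_203) (xt := Ext.none) (P1 := 0) (W1 := 536870912) (P2 := 0) (W2 := 1230186008) (P3 := 1020054732) (W3 := 13421774) (N0 := 3) (En := eng) (mo := mog) (C1 := cd0q2) (C2 := cd5q3) (C3 := pd0)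
    rfl k0_pp_203

noncomputable def cut_pp_213 : Cut := Cut.of [[⟨3, 0, 0, 1449551462⟩], [⟨0, 1, 0, 26738688⟩, ⟨1, 1, 0, 26738688⟩, ⟨2, 2, 0, 2621440⟩]]

noncomputable def f_pp_213 : ℕ → ℕ → ℕ → ℕ → Bool := onCell 0 536870912 0 1230186008 1020054732 13421774
    (rowB 3 eng mog cd0q2 cd5q3 pd1 0 false true true .pnn 2 1 3 (qsf 0 536870912 0 1230186008 1) ndB0q2 ndB5q3 pcB1 cut_pp_213 Ext.none)

def k0_pp_213 : ∃ t, chk3 f_pp_213 t 1 1 1 = true :=
  ⟨(b (l 6) (a (l 5) (l 6))), by decide +kernel⟩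

theorem c_pp_213 : CertB 0 536870912 0 1230186008 1020054732 13421774 3 eng mog cd0q2 cd5q3 pd1 false true true .pnn 2 1 3
    ndB0q2 ndB5q3 pcB1 cut_pp_213 Ext.none :=
  certB0 (fam := false) (s1 := true) (s2 := true) (a := 2) (b := 1) (c := 3) (cn := .pnn) (n1 := ndB0q2) (n2 := ndB5q3) (pc := pcB1) (cut := cut_pp_213) (xt := Ext.none) (P1 := 0) (W1 := 536870912) (P2 := 0) (W2 := 1230186008) (P3 := 1020054732) (W3 := 13421774) (N0 := 3) (En := eng) (mo := mog) (C1 := cd0q2) (C2 := cd5q3) (C3 := pd1)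
    rfl k0_pp_213

noncomputable def cut_pm_001 : Cut := Cut.of [[⟨3, 0, 0, 1449551462⟩]]

noncomputable def f_pm_001 : ℕ → ℕ → ℕ → ℕ → Bool := onCell 0 536870912 536870912 536870912 1020054732 13421774
    (rowB 3 eng mog cd0q0 cd5q1 pd0 0 false true false .up 0 0 1 (qsf 0 536870912 536870912 536870912 0) ndB0q0 ndB5q1 pcB0 cut_pm_001 Ext.none)

def k0_pm_001 : ∃ t, chk3 f_pm_001 t 1 1 1 = true :=
  ⟨(l 4), by decide +kernel⟩

theorem c_pm_001 : CertB 0 536870912 536870912 536870912 1020054732 13421774 3 eng mog cd0q0 cd5q1 pd0 false true false .up 0 0 1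
    ndB0q0 ndB5q1 pcB0 cut_pm_001 Ext.none :=
  certB0 (fam := false) (s1 := true) (s2 := false) (a := 0) (b := 0) (c := 1) (cn := .up) (n1 := ndB0q0) (n2 := ndB5q1) (pc := pcB0) (cut := cut_pm_001) (xt := Ext.none) (P1 := 0) (W1 := 536870912) (P2 := 536870912) (W2 := 536870912) (P3 := 1020054732) (W3 := 13421774) (N0 := 3) (En := eng) (mo := mog) (C1 := cd0q0) (C2 := cd5q1) (C3 := pd0)
    rfl k0_pm_001

noncomputable def cut_pm_011 : Cut := Cut.of [[⟨3, 0, 0, 1449551462⟩]]

noncomputable def f_pm_011 : ℕ → ℕ → ℕ → ℕ → Bool := onCell 0 536870912 536870912 536870912 1020054732 13421774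
    (rowB 3 eng mog cd0q0 cd5q1 pd1 0 false true false .pnn 0 1 1 (qsf 0 536870912 536870912 536870912 1) ndB0q0 ndB5q1 pcB1 cut_pm_011 Ext.none)

def k0_pm_011 : ∃ t, chk3 f_pm_011 t 1 1 1 = true :=
  ⟨(l 4), by decide +kernel⟩

theorem c_pm_011 : CertB 0 536870912 536870912 536870912 1020054732 13421774 3 eng mog cd0q0 cd5q1 pd1 false true false .pnn 0 1 1
    ndB0q0 ndB5q1 pcB1 cut_pm_011 Ext.none :=
  certB0 (fam := false) (s1 := true) (s2 := false) (a := 0) (b := 1) (c := 1) (cn := .pnn) (n1 := ndB0q0) (n2 := ndB5q1) (pc := pcB1) (cut := cut_pm_011) (xt := Ext.none) (P1 := 0) (W1 := 536870912) (P2 := 536870912) (W2 := 536870912) (P3 := 1020054732) (W3 := 13421774) (N0 := 3) (En := eng) (mo := mog) (C1 := cd0q0) (C2 := cd5q1) (C3 := pd1)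
    rfl k0_pm_011

noncomputable def cut_pm_012 : Cut := Cut.of [[⟨3, 0, 0, 1449551462⟩]]

noncomputable def f_pm_012 : ℕ → ℕ → ℕ → ℕ → Bool := onCell 0 536870912 1073741824 536870912 1020054732 13421774
    (rowB 3 eng mog cd0q0 cd5q2 pd1 0 false true false .pnp 0 1 2 (qsf 0 536870912 1073741824 536870912 1) ndB0q0 ndB5q2 pcB1 cut_pm_012 Ext.none)

def k0_pm_012 : ∃ t, chk3 f_pm_012 t 1 1 1 = true :=
  ⟨(l 4), by decide +kernel⟩

theorem c_pm_012 : CertB 0 536870912 1073741824 536870912 1020054732 13421774 3 eng mog cd0q0 cd5q2 pd1 false true false .pnp 0 1 2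
    ndB0q0 ndB5q2 pcB1 cut_pm_012 Ext.none :=
  certB0 (fam := false) (s1 := true) (s2 := false) (a := 0) (b := 1) (c := 2) (cn := .pnp) (n1 := ndB0q0) (n2 := ndB5q2) (pc := pcB1) (cut := cut_pm_012) (xt := Ext.none) (P1 := 0) (W1 := 536870912) (P2 := 1073741824) (W2 := 536870912) (P3 := 1020054732) (W3 := 13421774) (N0 := 3) (En := eng) (mo := mog) (C1 := cd0q0) (C2 := cd5q2) (C3 := pd1)
    rfl k0_pm_012

noncomputable def cut_pm_022 : Cut := Cut.of [[⟨3, 0, 0, 1449551462⟩]]

noncomputable def f_pm_022 : ℕ → ℕ → ℕ → ℕ → Bool := onCell 0 536870912 1073741824 536870912 1020054732 13421774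
    (rowB 3 eng mog cd0q0 cd5q2 pd2 0 false true false .pp 0 2 2 (qsf 0 536870912 1073741824 536870912 2) ndB0q0 ndB5q2 pcB2 cut_pm_022 Ext.none)

def k0_pm_022 : ∃ t, chk3 f_pm_022 t 1 1 1 = true :=
  ⟨(l 4), by decide +kernel⟩

theorem c_pm_022 : CertB 0 536870912 1073741824 536870912 1020054732 13421774 3 eng mog cd0q0 cd5q2 pd2 false true false .pp 0 2 2
    ndB0q0 ndB5q2 pcB2 cut_pm_022 Ext.none :=
  certB0 (fam := false) (s1 := true) (s2 := false) (a := 0) (b := 2) (c := 2) (cn := .pp) (n1 := ndB0q0) (n2 := ndB5q2) (pc := pcB2) (cut := cut_pm_022) (xt := Ext.none) (P1 := 0) (W1 := 536870912) (P2 := 1073741824) (W2 := 536870912) (P3 := 1020054732) (W3 := 13421774) (N0 := 3) (En := eng) (mo := mog) (C1 := cd0q0) (C2 := cd5q2) (C3 := pd2)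
    rfl k0_pm_022

noncomputable def cut_pm_023 : Cut := Cut.of [[⟨3, 0, 0, 1449551462⟩]]

noncomputable def f_pm_023 : ℕ → ℕ → ℕ → ℕ → Bool := onCell 0 536870912 0 1230186008 1020054732 13421774
    (rowB 3 eng mog cd0q0 cd5q3 pd2 0 false true false .up 0 2 3 (qsf 0 536870912 0 1230186008 2) ndB0q0 ndB5q3 pcB2 cut_pm_023 Ext.none)

def k0_pm_023 : ∃ t, chk3 f_pm_023 t 1 1 1 = true :=
  ⟨(b (a (l 2) (a (l 2) (b (a (l 2) (a (l 2) (a (b (l 2) (l 6674979383)) (b (l 14767880) (l 15582280))))) (a (l 4) (l 4))))) (l 4)), by decide +kernel⟩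

theorem c_pm_023 : CertB 0 536870912 0 1230186008 1020054732 13421774 3 eng mog cd0q0 cd5q3 pd2 false true false .up 0 2 3
    ndB0q0 ndB5q3 pcB2 cut_pm_023 Ext.none :=
  certB0 (fam := false) (s1 := true) (s2 := false) (a := 0) (b := 2) (c := 3) (cn := .up) (n1 := ndB0q0) (n2 := ndB5q3) (pc := pcB2) (cut := cut_pm_023) (xt := Ext.none) (P1 := 0) (W1 := 536870912) (P2 := 0) (W2 := 1230186008) (P3 := 1020054732) (W3 := 13421774) (N0 := 3) (En := eng) (mo := mog) (C1 := cd0q0) (C2 := cd5q3) (C3 := pd2)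
    rfl k0_pm_023

noncomputable def cut_pm_033 : Cut := Cut.of [[⟨3, 0, 0, 1449551462⟩]]

noncomputable def f_pm_033 : ℕ → ℕ → ℕ → ℕ → Bool := onCell 1610612736 536870912 0 1230186008 1020054732 13421774
    (rowB 3 eng mog cd0q0 cd5q3 pd3 2 false true false .pnn 0 3 3 (qsf 0 536870912 0 1230186008 3) ndB0q0 ndB5q3 pcB3 cut_pm_033 Ext.none)

def k0_pm_033 : ∃ t, chk3 f_pm_033 t 1 1 1 = true :=
  ⟨(b (b (a (a (b (a (a (l 16379312) (l 16309832)) (l 16197280)) (a (a (l 16115928) (l 16102152)) (l 16179816))) (b (a (l 16215456) (l 4)) (l 4))) (l 4)) (l 4)) (l 4)), by decide +kernel⟩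

theorem c_pm_033 : CertB 0 536870912 0 1230186008 1020054732 13421774 3 eng mog cd0q0 cd5q3 pd3 false true false .pnn 0 3 3
    ndB0q0 ndB5q3 pcB3 cut_pm_033 Ext.none :=
  certB2 (fam := false) (s1 := true) (s2 := false) (a := 0) (b := 3) (c := 3) (cn := .pnn) (n1 := ndB0q0) (n2 := ndB5q3) (pc := pcB3) (cut := cut_pm_033) (xt := Ext.none) (P1 := 0) (W1 := 536870912) (P2 := 0) (W2 := 1230186008) (P3 := 1020054732) (W3 := 13421774) (N0 := 3) (En := eng) (mo := mog) (C1 := cd0q0) (C2 := cd5q3) (C3 := pd3)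
    rfl (fun _ => rfl) k0_pm_033

noncomputable def cut_pm_101 : Cut := Cut.of [[⟨3, 0, 0, 1449551462⟩]]

noncomputable def f_pm_101 : ℕ → ℕ → ℕ → ℕ → Bool := onCell 536870912 536870912 536870912 536870912 1020054732 13421774
    (rowB 3 eng mog cd0q1 cd5q1 pd0 0 false true false .npn 1 0 1 (qsf 536870912 536870912 536870912 536870912 0) ndB0q1 ndB5q1 pcB0 cut_pm_101 Ext.none)

def k0_pm_101 : ∃ t, chk3 f_pm_101 t 1 1 1 = true :=
  ⟨(l 4), by decide +kernel⟩

theorem c_pm_101 : CertB 536870912 536870912 536870912 536870912 1020054732 13421774 3 eng mog cd0q1 cd5q1 pd0 false true false .npn 1 0 1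
    ndB0q1 ndB5q1 pcB0 cut_pm_101 Ext.none :=
  certB0 (fam := false) (s1 := true) (s2 := false) (a := 1) (b := 0) (c := 1) (cn := .npn) (n1 := ndB0q1) (n2 := ndB5q1) (pc := pcB0) (cut := cut_pm_101) (xt := Ext.none) (P1 := 536870912) (W1 := 536870912) (P2 := 536870912) (W2 := 536870912) (P3 := 1020054732) (W3 := 13421774) (N0 := 3) (En := eng) (mo := mog) (C1 := cd0q1) (C2 := cd5q1) (C3 := pd0)
    rfl k0_pm_101

noncomputable def cut_pm_102 : Cut := Cut.of [[⟨3, 0, 0, 1449551462⟩]]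

noncomputable def f_pm_102 : ℕ → ℕ → ℕ → ℕ → Bool := onCell 536870912 536870912 0 536870912 1020054732 13421774
    (rowB 3 eng mog cd0q1 cd5q2 pd0 1 false true false .npp 1 0 2 (qsf 536870912 536870912 1073741824 536870912 0) ndB0q1 ndB5q2 pcB0 cut_pm_102 Ext.none)

def k0_pm_102 : ∃ t, chk3 f_pm_102 t 1 1 1 = true :=
  ⟨(a (l 4) (b (l 4) (a (l 4) (a (l 4) (b (l 4) (b (l 4) (a (l 4) (l 14851992)))))))), by decide +kernel⟩

theorem c_pm_102 : CertB 536870912 536870912 1073741824 536870912 1020054732 13421774 3 eng mog cd0q1 cd5q2 pd0 false true false .npp 1 0 2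
    ndB0q1 ndB5q2 pcB0 cut_pm_102 Ext.none :=
  certB1 (fam := false) (s1 := true) (s2 := false) (a := 1) (b := 0) (c := 2) (cn := .npp) (n1 := ndB0q1) (n2 := ndB5q2) (pc := pcB0) (cut := cut_pm_102) (xt := Ext.none) (P1 := 536870912) (W1 := 536870912) (P2 := 1073741824) (W2 := 536870912) (P3 := 1020054732) (W3 := 13421774) (N0 := 3) (En := eng) (mo := mog) (C1 := cd0q1) (C2 := cd5q2) (C3 := pd0)
    rfl (fun _ => rfl) k0_pm_102

noncomputable def cut_pm_112 : Cut := Cut.of [[⟨3, 0, 0, 1449551462⟩]]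

noncomputable def f_pm_112 : ℕ → ℕ → ℕ → ℕ → Bool := onCell 536870912 536870912 1073741824 536870912 1020054732 13421774
    (rowB 3 eng mog cd0q1 cd5q2 pd1 0 false true false .dn 1 1 2 (qsf 536870912 536870912 1073741824 536870912 1) ndB0q1 ndB5q2 pcB1 cut_pm_112 Ext.none)

def k0_pm_112 : ∃ t, chk3 f_pm_112 t 1 1 1 = true :=
  ⟨(a (l 4) (b (l 4) (a (l 4) (a (l 4) (b (l 1) (a (l 4) (b (l 1) (l 14836216)))))))), by decide +kernel⟩

theorem c_pm_112 : CertB 536870912 536870912 1073741824 536870912 1020054732 13421774 3 eng mog cd0q1 cd5q2 pd1 false true false .dn 1 1 2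
    ndB0q1 ndB5q2 pcB1 cut_pm_112 Ext.none :=
  certB0 (fam := false) (s1 := true) (s2 := false) (a := 1) (b := 1) (c := 2) (cn := .dn) (n1 := ndB0q1) (n2 := ndB5q2) (pc := pcB1) (cut := cut_pm_112) (xt := Ext.none) (P1 := 536870912) (W1 := 536870912) (P2 := 1073741824) (W2 := 536870912) (P3 := 1020054732) (W3 := 13421774) (N0 := 3) (En := eng) (mo := mog) (C1 := cd0q1) (C2 := cd5q2) (C3 := pd1)
    rfl k0_pm_112

noncomputable def cut_pm_113 : Cut := Cut.of [[⟨3, 0, 0, 1449551462⟩], [⟨0, 1, 0, 26738688⟩, ⟨1, 1, 0, 26738688⟩, ⟨2, 2, 0, 2621440⟩]]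

noncomputable def f_pm_113 : ℕ → ℕ → ℕ → ℕ → Bool := onCell 536870912 536870912 0 1230186008 1020054732 13421774
    (rowB 3 eng mog cd0q1 cd5q3 pd1 0 false true false .nn 1 1 3 (qsf 536870912 536870912 0 1230186008 1) ndB0q1 ndB5q3 pcB1 cut_pm_113 Ext.none)

def k0_pm_113 : ∃ t, chk3 f_pm_113 t 2 1 1 = true :=
  ⟨(b (l 2) (b (b (l 2) (l 4)) (l 4))), by decide +kernel⟩

def k1_pm_113 : ∃ t, chk3 f_pm_113 t 6 1 1 = true :=
  ⟨(b (l 2) (b (b (a (l 2) (b (a (l 2) (l 14792608)) (a (l 14197624) (l 14575192)))) (a (b (b (a (l 2) (l 13721648)) (a (a (l 2) (l 458582351911)) (l 98878287415))) (a (l 4) (b (a (l 4) (l 13857528)) (l 4)))) (b (a (l 14099256) (l 14460752)) (a (b (a (b (l 13965688) (l 13965888)) (c (l 14207240) (l 14081232))) (c (a (l 14091232) (l 14121920)) (l 14060600))) (a (b (b (l 14351552) (b (l 14352784) (l 14342904))) (c (b (l 14357808) (l 14312160)) (b (l 14244528) (l 14209128)))) (b (l 14513384) (b (b (l 14509240) (l 14506384)) (l 14466968)))))))) (b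 (a (l 4) (b (a (b (l 14182568) (l 4)) (a (b (b (l 14250968) (l 14301832)) (l 14380712)) (b (b (l 14395888) (l 14369888)) (l 14414928)))) (l 14514664))) (l 4)))), by decide +kernel⟩

def k2_pm_113 : ∃ t, chk3 f_pm_113 t 7 1 1 = true :=
  ⟨(b (b (a (l 2) (a (l 2) (b (l 6) (b (a (l 2) (l 6)) (a (l 16619040) (l 16485504)))))) (a (b (b (l 2) (a (l 2) (l 16698120))) (a (b (l 2) (l 15524984)) (b (a (l 16241904) (l 16180456)) (b (l 15913744) (l 15723120))))) (b (a (b (l 16618848) (l 16559504)) (b (a (l 16794176) (l 16795256)) (a (l 16472488) (l 16434496)))) (a (b (l 16085656) (a (l 15860416) (l 15831488))) (b (a (l 16021184) (l 15981248)) (a (l 15790744) (l 15751128))))))) (b (a (b (b (a (l 15160528) (l 15594544)) (a (l 14925912) (l 15318432))) (b (a (l 14780968) (l 15127064)) (a (b (l 14733400) (b (l 14731784) (a (l 14650808) (l 14796008)))) (l 14967072)))) (b (a (b (b (a (l 15686600) (l 15714728)) (l 15581056)) (b (l 15460760) (l 15354072))) (b (a (b (l 15689480) (l 15619816))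 (l 15661176)) (a (l 15535352) (b (l 15531736) (l 15444736))))) (a (b (b (l 15264080) (l 15193584)) (b (l 15145248) (l 15121592))) (b (c (l 15466632) (l 15306928)) (b (l 15226024) (l 15194752)))))) (b (a (a (b (b (a (b (l 14594872) (l 14513416)) (b (l 14785256) (l 14716480))) (a (l 14496712) (l 14619392))) (b (a (l 14568176) (l 14600376)) (l 14667608))) (a (b (b (l 14897384) (l 14784240)) (b (l 14680680) (l 14689728))) (b (b (l 15006976) (l 14961912)) (b (l 14818920) (l 14742568))))) (b (a (b (l 15125040) (a (l 15084416) (l 15158736))) (b (l 15188288) (l 15209440))) (b (a (a (l 14956120) (l 15096080)) (a (l 15151208) (l 15238456))) (a (a (l 14826880) (l 14944944)) (a (l 15059912) (l 15163000)))))) (a (b (l 14797312) (l 4)) (b (a (b (a (l 14794048) (l 14838712)) (l 14836448)) (b (l 14970456) (a (l 14837560) (l 14883704)))) (a (l 14886024) (b (l 14804448) (l 14841584)))))))), by decide +kernel⟩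

theorem s3_pm_113 : ∃ t, chk3 f_pm_113 t 3 1 1 = true := ex3_a k1_pm_113 k2_pm_113

theorem s4_pm_113 : ∃ t, chk3 f_pm_113 t 1 1 1 = true := ex3_a k0_pm_113 s3_pm_113

theorem c_pm_113 : CertB 536870912 536870912 0 1230186008 1020054732 13421774 3 eng mog cd0q1 cd5q3 pd1 false true false .nn 1 1 3
    ndB0q1 ndB5q3 pcB1 cut_pm_113 Ext.none :=
  certB0 (fam := false) (s1 := true) (s2 := false) (a := 1) (b := 1) (c := 3) (cn := .nn) (n1 := ndB0q1) (n2 := ndB5q3) (pc := pcB1) (cut := cut_pm_113) (xt := Ext.none) (P1 := 536870912) (W1 := 536870912) (P2 := 0) (W2 := 1230186008) (P3 := 1020054732) (W3 := 13421774) (N0 := 3) (En := eng) (mo := mog) (C1 := cd0q1) (C2 := cd5q3) (C3 := pd1)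
    rfl s4_pm_113

noncomputable def cut_pm_123 : Cut := Cut.of [[⟨3, 0, 0, 1449551462⟩], [⟨0, 1, 0, 26738688⟩, ⟨1, 1, 0, 26738688⟩, ⟨2, 2, 0, 2621440⟩]]

noncomputable def f_pm_123 : ℕ → ℕ → ℕ → ℕ → Bool := onCell 1073741824 536870912 0 1230186008 1020054732 13421774
    (rowB 3 eng mog cd0q1 cd5q3 pd2 2 false true false .npn 1 2 3 (qsf 536870912 536870912 0 1230186008 2) ndB0q1 ndB5q3 pcB2 cut_pm_123 Ext.none)

def k0_pm_123 : ∃ t, chk3 f_pm_123 t 2 2 1 = true :=
  ⟨(a (a (b (b (a (l 6) (b (l 6) (a (l 6) (l 16439352)))) (a (a (b (l 6) (b (l 16579960) (l 16521416))) (b (l 16415096) (l 16428416))) (b (a (l 16432432) (l 16323232)) (l 16078064)))) (b (a (b (a (b (l 16458496) (l 16368384)) (l 16146248)) (l 15713632)) (b (l 15863712) (l 15443208))) (b (a (l 15241312) (l 15059000)) (a (b (l 14957896) (l 14783456)) (b (l 14806464) (l 14650160)))))) (b (b (a (b (l 16404616) (l 16294584)) (b (l 16231776) (l 16099496))) (a (b (l 16160872) (l 15985640)) (b (l 15944072) (l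 15738568)))) (b (a (b (l 15609504) (l 15228376)) (b (l 15375456) (l 15008592))) (a (b (b (l 14956160) (l 14795768)) (l 14633416)) (b (b (l 14762432) (l 14673960)) (l 14621760)))))) (b (b (a (b (a (l 16057464) (l 15883440)) (a (l 15904688) (l 15711824))) (b (l 15627736) (l 15347216))) (a (b (a (l 15729584) (l 15518872)) (a (l 15503152) (l 15274088))) (b (l 14963056) (a (l 15051504) (l 14836624))))) (a (b (b (a (l 15144080) (l 14915360)) (a (b (l 14874032) (l 14717616)) (b (l 14669840) (l 14609976)))) (a (b (a (l 14652816) (l 14651576)) (l 14688304)) (b (l 14687640) (l 14826024)))) (b (b (a (b (l 14783264) (l 14625312)) (b (l 14588360) (a (l 14527560) (l 14545344)))) (a (a (l 14596688) (l 14625440)) (l 14707536))) (a (b (l 14801224) (l 15024840)) (b (l 14981208) (l 15173440))))))), by decide +kernel⟩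

def k1_pm_123 : ∃ t, chk3 f_pm_123 t 3 2 1 = true :=
  ⟨(b (a (b (a (b (l 15298416) (l 15073992)) (b (l 14993080) (l 14747640))) (a (b (l 14832080) (a (b (l 14723184) (l 14561824)) (b (l 14547424) (a (l 14476240) (l 14507680))))) (b (a (l 14587032) (b (l 14493976) (a (l 14461600) (l 14517624)))) (a (b (a (l 14469904) (l 14508584)) (l 14649960)) (l 14774664))))) (a (b (b (l 14719736) (a (l 14547360) (l 14520336))) (a (b (l 14515840) (l 15038448)) (l 15095184))) (b (b (a (l 14564744) (l 14574552)) (a (l 14638984) (l 14956056))) (a (l 15382992) (b (l 15482848) (l 15904464)))))) (b (a (a (a (b (b (a (l 14495984) (l 14520600)) (l 14639008)) (l 14875136)) (b (l 14727192) (l 15099672))) (a (b (l 14946584) (l 15370504)) (b (l 15211704) (l 15624216)))) (a (a (b (l 15511528) (l 15805912)) (b (l 15772456) (l 4))) (a (l 15932224) (l 4)))) (a (a (a (b (l 15216856) (l 15419544)) (b (l 15325376) (l 4))) (a (b (l 15635800) (l 4)) (l 15730432))) (l 4)))), by decide +kernel⟩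

def k2_pm_123 : ∃ t, chk3 f_pm_123 t 1 3 1 = true :=
  ⟨(b (a (b (a (a (a (b (l 14477128) (l 14110248)) (b (l 14439208) (l 14202192))) (a (b (l 14479944) (l 14374008)) (b (l 14588744) (l 14581144)))) (a (a (b (l 14759240) (l 14789080)) (b (l 14955968) (l 4))) (a (b (l 15142496) (l 4)) (l 4)))) (b (a (a (a (b (l 13871680) (l 13790408)) (l 14078048)) (a (l 4) (l 4))) (l 4)) (l 4))) (l 4)) (l 4)), by decide +kernel⟩

theorem s3_pm_123 : ∃ t, chk3 f_pm_123 t 1 2 1 = true := ex3_a k0_pm_123 k1_pm_123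

theorem s4_pm_123 : ∃ t, chk3 f_pm_123 t 1 1 1 = true := ex3_b s3_pm_123 k2_pm_123

theorem c_pm_123 : CertB 536870912 536870912 0 1230186008 1020054732 13421774 3 eng mog cd0q1 cd5q3 pd2 false true false .npn 1 2 3
    ndB0q1 ndB5q3 pcB2 cut_pm_123 Ext.none :=
  certB2 (fam := false) (s1 := true) (s2 := false) (a := 1) (b := 2) (c := 3) (cn := .npn) (n1 := ndB0q1) (n2 := ndB5q3) (pc := pcB2) (cut := cut_pm_123) (xt := Ext.none) (P1 := 536870912) (W1 := 536870912) (P2 := 0) (W2 := 1230186008) (P3 := 1020054732) (W3 := 13421774) (N0 := 3) (En := eng) (mo := mog) (C1 := cd0q1) (C2 := cd5q3) (C3 := pd2)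
    rfl (fun _ => rfl) s4_pm_123

noncomputable def cut_pm_133 : Cut := Cut.of [[⟨3, 0, 0, 1449551462⟩]]

noncomputable def f_pm_133 : ℕ → ℕ → ℕ → ℕ → Bool := onCell 536870912 536870912 0 1230186008 1020054732 13421774
    (rowB 3 eng mog cd0q1 cd5q3 pd3 0 false true false .dn 1 3 3 (qsf 536870912 536870912 0 1230186008 3) ndB0q1 ndB5q3 pcB3 cut_pm_133 Ext.none)

def k0_pm_133 : ∃ t, chk3 f_pm_133 t 1 1 1 = true :=
  ⟨(b (b (a (a (a (b (l 628708288503) (l 1)) (l 1)) (l 1)) (l 1)) (l 1)) (l 1)), by decide +kernel⟩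

theorem c_pm_133 : CertB 536870912 536870912 0 1230186008 1020054732 13421774 3 eng mog cd0q1 cd5q3 pd3 false true false .dn 1 3 3
    ndB0q1 ndB5q3 pcB3 cut_pm_133 Ext.none :=
  certB0 (fam := false) (s1 := true) (s2 := false) (a := 1) (b := 3) (c := 3) (cn := .dn) (n1 := ndB0q1) (n2 := ndB5q3) (pc := pcB3) (cut := cut_pm_133) (xt := Ext.none) (P1 := 536870912) (W1 := 536870912) (P2 := 0) (W2 := 1230186008) (P3 := 1020054732) (W3 := 13421774) (N0 := 3) (En := eng) (mo := mog) (C1 := cd0q1) (C2 := cd5q3) (C3 := pd3)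
    rfl k0_pm_133

noncomputable def cut_pm_202 : Cut := Cut.of [[⟨3, 0, 0, 1449551462⟩]]

noncomputable def f_pm_202 : ℕ → ℕ → ℕ → ℕ → Bool := onCell 0 536870912 1073741824 536870912 1020054732 13421774
    (rowB 3 eng mog cd0q2 cd5q2 pd0 0 false true false .pp 2 0 2 (qsf 0 536870912 1073741824 536870912 0) ndB0q2 ndB5q2 pcB0 cut_pm_202 Ext.none)

def k0_pm_202 : ∃ t, chk3 f_pm_202 t 2 1 1 = true :=
  ⟨(b (a (b (l 1) (b (b (a (l 15361440) (b (l 1) (l 15220160))) (b (a (l 15471256) (l 15290712)) (a (b (l 15518472) (l 15547808)) (b (l 15345920) (l 15384672))))) (b (a (b (l 15597576) (l 15664400)) (b (l 15437168) (l 15503264))) (l 15665880)))) (b (b (l 1) (b (l 1) (a (l 1) (l 14572856)))) (a (b (b (l 14986312) (b (l 15115072) (l 15199160))) (b (b (l 15268432) (l 15329400)) (l 15417304))) (b (b (l 14783136) (l 14962776)) (b (l 15117360) (l 15256576)))))) (b (a (b (b (l 15753936) (l 15816936)) (b (l 15853536) (a (b (l 15913760) (l 15914504)) (l 15816488)))) (b (a (b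 (l 15529288) (l 15613024)) (b (l 15363296) (l 15454920))) (b (l 15599344) (l 15638856)))) (b (a (b (a (b (l 15879072) (a (l 15999976) (l 15877968))) (l 15804624)) (a (b (l 16000176) (l 16093368)) (b (l 15793264) (l 15797896)))) (a (l 15699280) (l 15595048))) (a (a (b (l 16226344) (a (b (l 16433984) (l 16479152)) (l 16321336))) (b (a (l 15971432) (l 15795008)) (l 16069976))) (b (a (a (l 15678408) (l 15601232)) (l 15543824)) (a (a (l 15790752) (l 15614840)) (a (l 15505680) (l 15447840)))))))), by decide +kernel⟩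

def k1_pm_202 : ∃ t, chk3 f_pm_202 t 3 1 1 = true :=
  ⟨(b (a (b (b (l 1) (a (b (l 1) (l 14356088)) (l 4))) (b (a (b (l 14565752) (l 14755080)) (b (l 14383080) (l 14557416))) (a (l 14973888) (b (l 14719136) (l 14865984))))) (b (l 4) (a (b (l 4) (l 4)) (l 4)))) (a (b (b (a (b (l 15187768) (l 15293872)) (l 14862992)) (a (b (l 15375016) (l 15440104)) (b (l 15199896) (l 15276232)))) (b (a (l 15478576) (b (l 15335024) (l 15372832))) (a (b (l 15452168) (l 15391168)) (b (l 15355712) (l 15310928))))) (b (a (b (b (l 14788944) (l 14899288)) (l 15033608)) (b (l 4) (a (l 14845152) (l 4)))) (a (b (a (l 15221464) (l 15114048)) (b (l 15026624) (a (l 15256552) (l 15223272)))) (b (a (l 14976816) (l 14808552)) (a (b (l 15060992) (l 15111176)) (l 14912240))))))), by decide +kernel⟩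

theorem s2_pm_202 : ∃ t, chk3 f_pm_202 t 1 1 1 = true := ex3_a k0_pm_202 k1_pm_202

theorem c_pm_202 : CertB 0 536870912 1073741824 536870912 1020054732 13421774 3 eng mog cd0q2 cd5q2 pd0 false true false .pp 2 0 2
    ndB0q2 ndB5q2 pcB0 cut_pm_202 Ext.none :=
  certB0 (fam := false) (s1 := true) (s2 := false) (a := 2) (b := 0) (c := 2) (cn := .pp) (n1 := ndB0q2) (n2 := ndB5q2) (pc := pcB0) (cut := cut_pm_202) (xt := Ext.none) (P1 := 0) (W1 := 536870912) (P2 := 1073741824) (W2 := 536870912) (P3 := 1020054732) (W3 := 13421774) (N0 := 3) (En := eng) (mo := mog) (C1 := cd0q2) (C2 := cd5q2) (C3 := pd0)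
    rfl s2_pm_202

noncomputable def cut_pm_203 : Cut := Cut.of [[⟨3, 0, 0, 1449551462⟩]]

noncomputable def f_pm_203 : ℕ → ℕ → ℕ → ℕ → Bool := onCell 0 536870912 0 1230186008 1020054732 13421774
    (rowB 3 eng mog cd0q2 cd5q3 pd0 0 false true false .up 2 0 3 (qsf 0 536870912 0 1230186008 0) ndB0q2 ndB5q3 pcB0 cut_pm_203 Ext.none)

def k0_pm_203 : ∃ t, chk3 f_pm_203 t 1 1 1 = true :=
  ⟨(b (l 2) (b (l 2) (b (a (b (l 2) (a (a (l 6) (l 16570608)) (a (l 16478192) (b (l 2) (a (l 16362496) (l 2)))))) (l 2)) (a (b (a (a (b (a (l 6) (l 16578912)) (l 16563720)) (b (l 16516464) (l 16473224))) (a (b (a (l 16446800) (l 16374128)) (a (l 16379144) (l 16250248))) (b (a (l 16263360) (l 16083280)) (l 15970768)))) (a (a (b (l 16529936) (a (l 16513528) (b (l 16478392) (l 16440384)))) (b (a (l 16454424) (b (l 16408792) (l 16338256))) (b (l 16322960) (l 16216848)))) (a (b (l 16132008) (l 15909960)) (b (l 15741152) (b (l 15554616) (l 15477320)))))) (a (b (a (b (l 15782680) (l 15545328))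 (b (l 2) (a (l 15192440) (l 15001072)))) (a (b (a (l 15411616) (l 15225768)) (a (l 15319856) (l 15269216))) (b (a (l 15109624) (l 15071672)) (l 15222128)))) (a (b (b (l 2) (a (l 14885032) (l 2))) (b (l 15038696) (l 15164536))) (b (l 2) (b (a (l 15019232) (l 2)) (a (l 15125416) (l 15003008)))))))))), by decide +kernel⟩

theorem c_pm_203 : CertB 0 536870912 0 1230186008 1020054732 13421774 3 eng mog cd0q2 cd5q3 pd0 false true false .up 2 0 3
    ndB0q2 ndB5q3 pcB0 cut_pm_203 Ext.none :=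
  certB0 (fam := false) (s1 := true) (s2 := false) (a := 2) (b := 0) (c := 3) (cn := .up) (n1 := ndB0q2) (n2 := ndB5q3) (pc := pcB0) (cut := cut_pm_203) (xt := Ext.none) (P1 := 0) (W1 := 536870912) (P2 := 0) (W2 := 1230186008) (P3 := 1020054732) (W3 := 13421774) (N0 := 3) (En := eng) (mo := mog) (C1 := cd0q2) (C2 := cd5q3) (C3 := pd0)
    rfl k0_pm_203

noncomputable def cut_pm_213 : Cut := Cut.of [[⟨3, 0, 0, 1449551462⟩], [⟨0, 1, 0, 26738688⟩, ⟨1, 1, 0, 26738688⟩, ⟨2, 2, 0, 2621440⟩]]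

noncomputable def f_pm_213 : ℕ → ℕ → ℕ → ℕ → Bool := onCell 0 536870912 0 1230186008 1020054732 13421774
    (rowB 3 eng mog cd0q2 cd5q3 pd1 0 false true false .pnn 2 1 3 (qsf 0 536870912 0 1230186008 1) ndB0q2 ndB5q3 pcB1 cut_pm_213 Ext.none)

def k0_pm_213 : ∃ t, chk3 f_pm_213 t 1 2 1 = true :=
  ⟨(a (l 6) (a (b (l 6) (b (l 6) (a (l 6) (b (l 6) (a (l 6) (b (c (l 16484360) (l 16455328)) (l 16427728))))))) (b (l 6) (b (a (b (l 6) (a (l 6) (b (l 6) (l 16411608)))) (a (b (l 6) (a (l 16378944) (l 16346384))) (b (a (l 16656144) (l 16755408)) (l 16489800)))) (a (b (a (b (l 6) (l 16411608)) (b (l 16352976) (l 16292160))) (a (b (l 16362904) (l 16314480)) (b (l 16233184) (l 16178008)))) (a (b (c (l 16218816) (l 16153208)) (c (l 16066088) (l 16018968))) (b (l 16182248) (b (l 15883632) (l 15809072))))))))), by decide +kernel⟩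

def k1_pm_213 : ∃ t, chk3 f_pm_213 t 1 6 1 = true :=
  ⟨(a (b (l 6) (a (l 6) (b (a (l 6) (a (l 6) (b (l 16477008) (l 16550480)))) (a (b (l 6) (a (l 6) (c (l 16602296) (l 16597920)))) (c (b (l 16517240) (l 16507056)) (b (l 16538200) (l 16500752))))))) (a (b (a (b (a (l 6) (l 6)) (b (a (l 6) (l 16499080)) (a (l 16543848) (l 16463616)))) (b (c (a (l 16455880) (l 16374576)) (a (l 16452632) (l 16354136))) (c (a (l 16395496) (l 16281600)) (a (l 16382352) (l 16279480))))) (b (a (c (b (l 16476248) (l 16428000)) (b (l 16460712) (l 16426216))) (c (b (l 16259992) (l 16193448)) (l 16320736))) (a (b (a (l 16425544) (l 16326904)) (c (l 16284152) (l 16340736))) (b (a (l 16215504) (l 16090144)) (a (l 16054072) (l 15979432)))))) (b (a (b (a (b (l 16267736) (l 16222464)) (b (l 16126744) (l 16078264))) (a (b (l 16177392) (l 16130424)) (b (l 16030568) (l 15981064)))) (b (a (b (l 15956448) (l 15905488)) (c (l 15737400) (l 15712008))) (a (b (l 15856288) (l 15806304)) (b (l 15645912)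 (a (l 15645200) (l 15522864)))))) (a (a (b (b (l 16078864) (l 15958608)) (b (l 15850192) (c (l 15853968) (l 15956616)))) (b (b (l 15928240) (l 15865376)) (b (l 15552576) (l 15762560)))) (b (a (b (c (l 15711984) (l 15781624)) (l 15679976)) (b (l 15508776) (l 15439400))) (a (b (l 15623584) (l 15582880)) (b (l 15384480) (l 15347976)))))))), by decide +kernel⟩

def k2_pm_213 : ∃ t, chk3 f_pm_213 t 1 7 1 = true :=
  ⟨(a (b (a (b (l 6) (a (l 6) (b (a (l 6) (c (l 16617296) (l 16589808))) (c (b (l 16599800) (l 1)) (l 16558304))))) (b (a (b (a (a (l 6) (l 16538368)) (l 16549792)) (c (l 16472664) (l 16544960))) (b (c (l 16430936) (l 16454088)) (c (l 16325072) (l 16394416)))) (a (b (c (l 16456912) (l 16483216)) (c (a (l 16385816) (l 16240072)) (l 16401032))) (b (c (a (l 16257208) (l 16028920)) (a (l 16362192) (l 16272024))) (c (a (b (l 16132792) (l 16060880)) (l 16005432)) (a (l 16271984) (l 16212544))))))) (b (a (l 1) (b (a (l 1) (c (a (l 15954544) (l 16086920)) (l 16054144)))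 (l 1))) (l 1))) (a (b (b (a (b (a (l 16290864) (c (l 16104496) (l 16233288))) (c (a (l 16115224) (l 16020288)) (l 16053272))) (b (a (l 15838264) (l 15974424)) (c (l 15945712) (l 16041768)))) (a (b (c (a (l 16036128) (l 16011768)) (l 16126384)) (c (l 16052744) (l 16136984))) (b (c (l 15969424) (l 16012224)) (c (l 16017000) (l 15996248))))) (b (a (b (c (l 16111336) (l 16123600)) (l 811781002199)) (b (c (l 16089928) (l 15995080)) (a (l 15973920) (l 16045168)))) (l 1))) (b (a (b (b (a (l 15870040) (l 15735440)) (a (l 15856248) (l 15728200))) (b (a (l 15862792) (l 15743376)) (a (l 15891656) (l 15783096)))) (b (a (b (l 15561336) (l 15562024)) (b (l 15333392) (l 15343840))) (b (a (l 15587568) (l 15358664)) (a (b (l 15624216) (l 15636584)) (b (l 15399240) (l 15361808)))))) (b (a (b (a (l 15896048) (l 15799904)) (a (l 15910512) (l 15701440))) (b (a (l 15577752) (l 15252240)) (a (l 15438936) (l 15114160)))) (a (b (l 15467368) (l 1)) (b (a (l 15304024) (l 14986912)) (a (l 15178016)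 (l 14934640)))))))), by decide +kernel⟩

theorem s3_pm_213 : ∃ t, chk3 f_pm_213 t 1 3 1 = true := ex3_b k1_pm_213 k2_pm_213

theorem s4_pm_213 : ∃ t, chk3 f_pm_213 t 1 1 1 = true := ex3_b k0_pm_213 s3_pm_213

theorem c_pm_213 : CertB 0 536870912 0 1230186008 1020054732 13421774 3 eng mog cd0q2 cd5q3 pd1 false true false .pnn 2 1 3
    ndB0q2 ndB5q3 pcB1 cut_pm_213 Ext.none :=
  certB0 (fam := false) (s1 := true) (s2 := false) (a := 2) (b := 1) (c := 3) (cn := .pnn) (n1 := ndB0q2) (n2 := ndB5q3) (pc := pcB1) (cut := cut_pm_213) (xt := Ext.none) (P1 := 0) (W1 := 536870912) (P2 := 0) (W2 := 1230186008) (P3 := 1020054732) (W3 := 13421774) (N0 := 3) (En := eng) (mo := mog) (C1 := cd0q2) (C2 := cd5q3) (C3 := pd1)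
    rfl s4_pm_213

noncomputable def cut_mm_001 : Cut := Cut.of [[⟨3, 0, 0, 1449551462⟩]]

noncomputable def f_mm_001 : ℕ → ℕ → ℕ → ℕ → Bool := onCell 0 536870912 536870912 536870912 1020054732 13421774
    (rowB 3 eng mog cd0q0 cd5q1 pd0 0 false false false .up 0 0 1 (qsf 0 536870912 536870912 536870912 0) ndB0q0 ndB5q1 pcB0 cut_mm_001 Ext.none)

def k0_mm_001 : ∃ t, chk3 f_mm_001 t 1 1 1 = true :=
  ⟨(l 6), by decide +kernel⟩

theorem c_mm_001 : CertB 0 536870912 536870912 536870912 1020054732 13421774 3 eng mog cd0q0 cd5q1 pd0 false false false .up 0 0 1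
    ndB0q0 ndB5q1 pcB0 cut_mm_001 Ext.none :=
  certB0 (fam := false) (s1 := false) (s2 := false) (a := 0) (b := 0) (c := 1) (cn := .up) (n1 := ndB0q0) (n2 := ndB5q1) (pc := pcB0) (cut := cut_mm_001) (xt := Ext.none) (P1 := 0) (W1 := 536870912) (P2 := 536870912) (W2 := 536870912) (P3 := 1020054732) (W3 := 13421774) (N0 := 3) (En := eng) (mo := mog) (C1 := cd0q0) (C2 := cd5q1) (C3 := pd0)
    rfl k0_mm_001

noncomputable def cut_mm_011 : Cut := Cut.of [[⟨3, 0, 0, 1449551462⟩]]

noncomputable def f_mm_011 : ℕ → ℕ → ℕ → ℕ → Bool := onCell 0 536870912 536870912 536870912 1020054732 13421774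
    (rowB 3 eng mog cd0q0 cd5q1 pd1 0 false false false .pnn 0 1 1 (qsf 0 536870912 536870912 536870912 1) ndB0q0 ndB5q1 pcB1 cut_mm_011 Ext.none)

def k0_mm_011 : ∃ t, chk3 f_mm_011 t 1 1 1 = true :=
  ⟨(l 6), by decide +kernel⟩

theorem c_mm_011 : CertB 0 536870912 536870912 536870912 1020054732 13421774 3 eng mog cd0q0 cd5q1 pd1 false false false .pnn 0 1 1
    ndB0q0 ndB5q1 pcB1 cut_mm_011 Ext.none :=
  certB0 (fam := false) (s1 := false) (s2 := false) (a := 0) (b := 1) (c := 1) (cn := .pnn) (n1 := ndB0q0) (n2 := ndB5q1) (pc := pcB1) (cut := cut_mm_011) (xt := Ext.none) (P1 := 0) (W1 := 536870912) (P2 := 536870912) (W2 := 536870912) (P3 := 1020054732) (W3 := 13421774) (N0 := 3) (En := eng) (mo := mog) (C1 := cd0q0) (C2 := cd5q1) (C3 := pd1)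
    rfl k0_mm_011

noncomputable def cut_mm_012 : Cut := Cut.of [[⟨3, 0, 0, 1449551462⟩]]

noncomputable def f_mm_012 : ℕ → ℕ → ℕ → ℕ → Bool := onCell 0 536870912 1073741824 536870912 1020054732 13421774
    (rowB 3 eng mog cd0q0 cd5q2 pd1 0 false false false .pnp 0 1 2 (qsf 0 536870912 1073741824 536870912 1) ndB0q0 ndB5q2 pcB1 cut_mm_012 Ext.none)

def k0_mm_012 : ∃ t, chk3 f_mm_012 t 1 1 1 = true :=
  ⟨(l 5), by decide +kernel⟩

theorem c_mm_012 : CertB 0 536870912 1073741824 536870912 1020054732 13421774 3 eng mog cd0q0 cd5q2 pd1 false false false .pnp 0 1 2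
    ndB0q0 ndB5q2 pcB1 cut_mm_012 Ext.none :=
  certB0 (fam := false) (s1 := false) (s2 := false) (a := 0) (b := 1) (c := 2) (cn := .pnp) (n1 := ndB0q0) (n2 := ndB5q2) (pc := pcB1) (cut := cut_mm_012) (xt := Ext.none) (P1 := 0) (W1 := 536870912) (P2 := 1073741824) (W2 := 536870912) (P3 := 1020054732) (W3 := 13421774) (N0 := 3) (En := eng) (mo := mog) (C1 := cd0q0) (C2 := cd5q2) (C3 := pd1)
    rfl k0_mm_012

noncomputable def cut_mm_022 : Cut := Cut.of [[⟨3, 0, 0, 1449551462⟩]]

noncomputable def f_mm_022 : ℕ → ℕ → ℕ → ℕ → Bool := onCell 0 536870912 1073741824 536870912 1020054732 13421774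
    (rowB 3 eng mog cd0q0 cd5q2 pd2 0 false false false .pp 0 2 2 (qsf 0 536870912 1073741824 536870912 2) ndB0q0 ndB5q2 pcB2 cut_mm_022 Ext.none)

def k0_mm_022 : ∃ t, chk3 f_mm_022 t 1 1 1 = true :=
  ⟨(l 5), by decide +kernel⟩

theorem c_mm_022 : CertB 0 536870912 1073741824 536870912 1020054732 13421774 3 eng mog cd0q0 cd5q2 pd2 false false false .pp 0 2 2
    ndB0q0 ndB5q2 pcB2 cut_mm_022 Ext.none :=
  certB0 (fam := false) (s1 := false) (s2 := false) (a := 0) (b := 2) (c := 2) (cn := .pp) (n1 := ndB0q0) (n2 := ndB5q2) (pc := pcB2) (cut := cut_mm_022) (xt := Ext.none) (P1 := 0) (W1 := 536870912) (P2 := 1073741824) (W2 := 536870912) (P3 := 1020054732) (W3 := 13421774) (N0 := 3) (En := eng) (mo := mog) (C1 := cd0q0) (C2 := cd5q2) (C3 := pd2)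
    rfl k0_mm_022

noncomputable def cut_mm_023 : Cut := Cut.of [[⟨3, 0, 0, 1449551462⟩]]

noncomputable def f_mm_023 : ℕ → ℕ → ℕ → ℕ → Bool := onCell 0 536870912 0 1230186008 1020054732 13421774
    (rowB 3 eng mog cd0q0 cd5q3 pd2 0 false false false .up 0 2 3 (qsf 0 536870912 0 1230186008 2) ndB0q0 ndB5q3 pcB2 cut_mm_023 Ext.none)

def k0_mm_023 : ∃ t, chk3 f_mm_023 t 1 1 1 = true :=
  ⟨(l 5), by decide +kernel⟩

theorem c_mm_023 : CertB 0 536870912 0 1230186008 1020054732 13421774 3 eng mog cd0q0 cd5q3 pd2 false false false .up 0 2 3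
    ndB0q0 ndB5q3 pcB2 cut_mm_023 Ext.none :=
  certB0 (fam := false) (s1 := false) (s2 := false) (a := 0) (b := 2) (c := 3) (cn := .up) (n1 := ndB0q0) (n2 := ndB5q3) (pc := pcB2) (cut := cut_mm_023) (xt := Ext.none) (P1 := 0) (W1 := 536870912) (P2 := 0) (W2 := 1230186008) (P3 := 1020054732) (W3 := 13421774) (N0 := 3) (En := eng) (mo := mog) (C1 := cd0q0) (C2 := cd5q3) (C3 := pd2)
    rfl k0_mm_023

noncomputable def cut_mm_033 : Cut := Cut.of [[⟨3, 0, 0, 1449551462⟩]]

noncomputable def f_mm_033 : ℕ → ℕ → ℕ → ℕ → Bool := onCell 0 536870912 0 1230186008 1020054732 13421774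
    (rowB 3 eng mog cd0q0 cd5q3 pd3 0 false false false .pnn 0 3 3 (qsf 0 536870912 0 1230186008 3) ndB0q0 ndB5q3 pcB3 cut_mm_033 Ext.none)

def k0_mm_033 : ∃ t, chk3 f_mm_033 t 1 1 1 = true :=
  ⟨(l 5), by decide +kernel⟩

theorem c_mm_033 : CertB 0 536870912 0 1230186008 1020054732 13421774 3 eng mog cd0q0 cd5q3 pd3 false false false .pnn 0 3 3
    ndB0q0 ndB5q3 pcB3 cut_mm_033 Ext.none :=
  certB0 (fam := false) (s1 := false) (s2 := false) (a := 0) (b := 3) (c := 3) (cn := .pnn) (n1 := ndB0q0) (n2 := ndB5q3) (pc := pcB3) (cut := cut_mm_033) (xt := Ext.none) (P1 := 0) (W1 := 536870912) (P2 := 0) (W2 := 1230186008) (P3 := 1020054732) (W3 := 13421774) (N0 := 3) (En := eng) (mo := mog) (C1 := cd0q0) (C2 := cd5q3) (C3 := pd3)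
    rfl k0_mm_033

noncomputable def cut_mm_101 : Cut := Cut.of [[⟨3, 0, 0, 1449551462⟩], [⟨0, 1, 0, 38347922⟩, ⟨1, 0, 0, 38347922⟩, ⟨2, 1, 0, 38347922⟩]]

noncomputable def f_mm_101 : ℕ → ℕ → ℕ → ℕ → Bool := onCell 536870912 536870912 0 536870912 1020054732 13421774
    (rowB 3 eng mog cd0q1 cd5q1 pd0 1 false false false .npn 1 0 1 (qsf 536870912 536870912 536870912 536870912 0) ndB0q1 ndB5q1 pcB0 cut_mm_101 Ext.none)

def k0_mm_101 : ∃ t, chk3 f_mm_101 t 1 1 1 = true :=
  ⟨(l 6), by decide +kernel⟩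

theorem c_mm_101 : CertB 536870912 536870912 536870912 536870912 1020054732 13421774 3 eng mog cd0q1 cd5q1 pd0 false false false .npn 1 0 1
    ndB0q1 ndB5q1 pcB0 cut_mm_101 Ext.none :=
  certB1 (fam := false) (s1 := false) (s2 := false) (a := 1) (b := 0) (c := 1) (cn := .npn) (n1 := ndB0q1) (n2 := ndB5q1) (pc := pcB0) (cut := cut_mm_101) (xt := Ext.none) (P1 := 536870912) (W1 := 536870912) (P2 := 536870912) (W2 := 536870912) (P3 := 1020054732) (W3 := 13421774) (N0 := 3) (En := eng) (mo := mog) (C1 := cd0q1) (C2 := cd5q1) (C3 := pd0)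
    rfl (fun _ => rfl) k0_mm_101

noncomputable def cut_mm_102 : Cut := Cut.of [[⟨3, 0, 0, 1449551462⟩], [⟨0, 1, 0, 38347922⟩, ⟨1, 0, 0, 38347922⟩, ⟨2, 1, 0, 38347922⟩]]

noncomputable def f_mm_102 : ℕ → ℕ → ℕ → ℕ → Bool := onCell 536870912 536870912 1073741824 536870912 1020054732 13421774
    (rowB 3 eng mog cd0q1 cd5q2 pd0 0 false false false .npp 1 0 2 (qsf 536870912 536870912 1073741824 536870912 0) ndB0q1 ndB5q2 pcB0 cut_mm_102 Ext.none)

def k0_mm_102 : ∃ t, chk3 f_mm_102 t 1 1 1 = true :=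
  ⟨(l 6), by decide +kernel⟩

theorem c_mm_102 : CertB 536870912 536870912 1073741824 536870912 1020054732 13421774 3 eng mog cd0q1 cd5q2 pd0 false false false .npp 1 0 2
    ndB0q1 ndB5q2 pcB0 cut_mm_102 Ext.none :=
  certB0 (fam := false) (s1 := false) (s2 := false) (a := 1) (b := 0) (c := 2) (cn := .npp) (n1 := ndB0q1) (n2 := ndB5q2) (pc := pcB0) (cut := cut_mm_102) (xt := Ext.none) (P1 := 536870912) (W1 := 536870912) (P2 := 1073741824) (W2 := 536870912) (P3 := 1020054732) (W3 := 13421774) (N0 := 3) (En := eng) (mo := mog) (C1 := cd0q1) (C2 := cd5q2) (C3 := pd0)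
    rfl k0_mm_102

noncomputable def cut_mm_112 : Cut := Cut.of [[⟨3, 0, 0, 1449551462⟩]]

noncomputable def f_mm_112 : ℕ → ℕ → ℕ → ℕ → Bool := onCell 536870912 536870912 1073741824 536870912 1020054732 13421774
    (rowB 3 eng mog cd0q1 cd5q2 pd1 0 false false false .dn 1 1 2 (qsf 536870912 536870912 1073741824 536870912 1) ndB0q1 ndB5q2 pcB1 cut_mm_112 Ext.none)

def k0_mm_112 : ∃ t, chk3 f_mm_112 t 1 1 1 = true :=
  ⟨(l 6), by decide +kernel⟩

theorem c_mm_112 : CertB 536870912 536870912 1073741824 536870912 1020054732 13421774 3 eng mog cd0q1 cd5q2 pd1 false false false .dn 1 1 2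
    ndB0q1 ndB5q2 pcB1 cut_mm_112 Ext.none :=
  certB0 (fam := false) (s1 := false) (s2 := false) (a := 1) (b := 1) (c := 2) (cn := .dn) (n1 := ndB0q1) (n2 := ndB5q2) (pc := pcB1) (cut := cut_mm_112) (xt := Ext.none) (P1 := 536870912) (W1 := 536870912) (P2 := 1073741824) (W2 := 536870912) (P3 := 1020054732) (W3 := 13421774) (N0 := 3) (En := eng) (mo := mog) (C1 := cd0q1) (C2 := cd5q2) (C3 := pd1)
    rfl k0_mm_112

noncomputable def cut_mm_113 : Cut := Cut.of [[⟨3, 0, 0, 1449551462⟩]]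

noncomputable def f_mm_113 : ℕ → ℕ → ℕ → ℕ → Bool := onCell 536870912 536870912 0 1230186008 1020054732 13421774
    (rowB 3 eng mog cd0q1 cd5q3 pd1 0 false false false .nn 1 1 3 (qsf 536870912 536870912 0 1230186008 1) ndB0q1 ndB5q3 pcB1 cut_mm_113 Ext.none)

def k0_mm_113 : ∃ t, chk3 f_mm_113 t 1 1 1 = true :=
  ⟨(a (l 5) (b (l 5) (l 6))), by decide +kernel⟩

theorem c_mm_113 : CertB 536870912 536870912 0 1230186008 1020054732 13421774 3 eng mog cd0q1 cd5q3 pd1 false false false .nn 1 1 3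
    ndB0q1 ndB5q3 pcB1 cut_mm_113 Ext.none :=
  certB0 (fam := false) (s1 := false) (s2 := false) (a := 1) (b := 1) (c := 3) (cn := .nn) (n1 := ndB0q1) (n2 := ndB5q3) (pc := pcB1) (cut := cut_mm_113) (xt := Ext.none) (P1 := 536870912) (W1 := 536870912) (P2 := 0) (W2 := 1230186008) (P3 := 1020054732) (W3 := 13421774) (N0 := 3) (En := eng) (mo := mog) (C1 := cd0q1) (C2 := cd5q3) (C3 := pd1)
    rfl k0_mm_113

noncomputable def cut_mm_123 : Cut := Cut.of [[⟨3, 0, 0, 1449551462⟩]]

noncomputable def f_mm_123 : ℕ → ℕ → ℕ → ℕ → Bool := onCell 1073741824 536870912 0 1230186008 1020054732 13421774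
    (rowB 3 eng mog cd0q1 cd5q3 pd2 2 false false false .npn 1 2 3 (qsf 536870912 536870912 0 1230186008 2) ndB0q1 ndB5q3 pcB2 cut_mm_123 Ext.none)

def k0_mm_123 : ∃ t, chk3 f_mm_123 t 1 1 1 = true :=
  ⟨(b (l 5) (l 5)), by decide +kernel⟩

theorem c_mm_123 : CertB 536870912 536870912 0 1230186008 1020054732 13421774 3 eng mog cd0q1 cd5q3 pd2 false false false .npn 1 2 3
    ndB0q1 ndB5q3 pcB2 cut_mm_123 Ext.none :=
  certB2 (fam := false) (s1 := false) (s2 := false) (a := 1) (b := 2) (c := 3) (cn := .npn) (n1 := ndB0q1) (n2 := ndB5q3) (pc := pcB2) (cut := cut_mm_123) (xt := Ext.none) (P1 := 536870912) (W1 := 536870912) (P2 := 0) (W2 := 1230186008) (P3 := 1020054732) (W3 := 13421774) (N0 := 3) (En := eng) (mo := mog) (C1 := cd0q1) (C2 := cd5q3) (C3 := pd2)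
    rfl (fun _ => rfl) k0_mm_123

noncomputable def cut_mm_133 : Cut := Cut.of [[⟨3, 0, 0, 1449551462⟩]]

noncomputable def f_mm_133 : ℕ → ℕ → ℕ → ℕ → Bool := onCell 1610612736 536870912 0 1230186008 1020054732 13421774
    (rowB 3 eng mog cd0q1 cd5q3 pd3 2 false false false .dn 1 3 3 (qsf 536870912 536870912 0 1230186008 3) ndB0q1 ndB5q3 pcB3 cut_mm_133 Ext.none)

def k0_mm_133 : ∃ t, chk3 f_mm_133 t 1 1 1 = true :=
  ⟨(l 5), by decide +kernel⟩

theorem c_mm_133 : CertB 536870912 536870912 0 1230186008 1020054732 13421774 3 eng mog cd0q1 cd5q3 pd3 false false false .dn 1 3 3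
    ndB0q1 ndB5q3 pcB3 cut_mm_133 Ext.none :=
  certB2 (fam := false) (s1 := false) (s2 := false) (a := 1) (b := 3) (c := 3) (cn := .dn) (n1 := ndB0q1) (n2 := ndB5q3) (pc := pcB3) (cut := cut_mm_133) (xt := Ext.none) (P1 := 536870912) (W1 := 536870912) (P2 := 0) (W2 := 1230186008) (P3 := 1020054732) (W3 := 13421774) (N0 := 3) (En := eng) (mo := mog) (C1 := cd0q1) (C2 := cd5q3) (C3 := pd3)
    rfl (fun _ => rfl) k0_mm_133

noncomputable def cut_mm_202 : Cut := Cut.of [[⟨3, 0, 0, 1449551462⟩], [⟨0, 1, 0, 26843545⟩, ⟨1, 0, 0, 26843545⟩, ⟨2, 1, 0, 26843545⟩]]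

noncomputable def f_mm_202 : ℕ → ℕ → ℕ → ℕ → Bool := onCell 0 536870912 0 536870912 1020054732 13421774
    (rowB 3 eng mog cd0q2 cd5q2 pd0 1 false false false .pp 2 0 2 (qsf 0 536870912 1073741824 536870912 0) ndB0q2 ndB5q2 pcB0 cut_mm_202 Ext.none)

def k0_mm_202 : ∃ t, chk3 f_mm_202 t 1 1 1 = true :=
  ⟨(a (a (b (b (b (b (b (l 15703736) (b (l 15741896) (l 15763840))) (b (l 15809256) (l 15876448))) (b (l 15944464) (l 16007424))) (b (b (b (l 16036168) (a (l 15999088) (l 16115448))) (b (a (l 16005720) (a (l 16088832) (l 16174768))) (a (l 16020200) (l 16078832)))) (b (a (b (a (l 15987656) (l 16061264)) (a (l 16001632) (l 16139800))) (l 16228952)) (a (l 16167744) (a (l 16419464) (b (l 16507840) (l 16547712))))))) (b (b (b (a (b (l 16316736) (l 16363544)) (a (b (l 16516000) (l 16544624)) (l 16577320))) (a (a (b (l 16413224) (l 16478456)) (l 16519576)) (l 16584040))) (a (b (l 16467792) (l 16568264)) (l 6))) (l 2))) (b (b (b (b (b (l 15903320) (b (l 16014040) (a (l 15965816)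 (l 16094376)))) (b (a (l 16008536) (l 16136224)) (a (l 16076328) (l 16205224)))) (b (a (l 16133552) (b (l 16243368) (a (l 16237840) (b (l 16302400) (l 6))))) (a (b (l 16169568) (a (l 16157568) (l 16226192))) (a (b (b (l 16260240) (l 16272368)) (l 16322944)) (l 6))))) (b (b (a (b (a (l 16181824) (l 16277168)) (l 16185376)) (a (b (l 16405688) (l 6)) (l 6))) (a (b (l 16376680) (a (l 16394408) (l 6))) (l 6))) (a (b (a (b (l 16481064) (l 16546272)) (l 6)) (l 6)) (l 6)))) (l 6))) (b (a (b (a (b (b (b (l 16202288) (b (l 16221184) (l 16227784))) (b (b (l 16253144) (l 16290688)) (l 6))) (l 6)) (l 6)) (l 6)) (l 6)) (l 6))), by decide +kernel⟩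

theorem c_mm_202 : CertB 0 536870912 1073741824 536870912 1020054732 13421774 3 eng mog cd0q2 cd5q2 pd0 false false false .pp 2 0 2
    ndB0q2 ndB5q2 pcB0 cut_mm_202 Ext.none :=
  certB1 (fam := false) (s1 := false) (s2 := false) (a := 2) (b := 0) (c := 2) (cn := .pp) (n1 := ndB0q2) (n2 := ndB5q2) (pc := pcB0) (cut := cut_mm_202) (xt := Ext.none) (P1 := 0) (W1 := 536870912) (P2 := 1073741824) (W2 := 536870912) (P3 := 1020054732) (W3 := 13421774) (N0 := 3) (En := eng) (mo := mog) (C1 := cd0q2) (C2 := cd5q2) (C3 := pd0)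
    rfl (fun _ => rfl) k0_mm_202

noncomputable def cut_mm_203 : Cut := Cut.of [[⟨3, 0, 0, 1449551462⟩]]

noncomputable def f_mm_203 : ℕ → ℕ → ℕ → ℕ → Bool := onCell 0 536870912 0 1230186008 1020054732 13421774
    (rowB 3 eng mog cd0q2 cd5q3 pd0 0 false false false .up 2 0 3 (qsf 0 536870912 0 1230186008 0) ndB0q2 ndB5q3 pcB0 cut_mm_203 Ext.none)

def k0_mm_203 : ∃ t, chk3 f_mm_203 t 1 1 1 = true :=
  ⟨(b (l 2) (a (b (l 2) (b (l 6) (a (b (l 6) (b (l 6) (a (l 16572424) (l 6)))) (l 6)))) (l 6))), by decide +kernel⟩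

theorem c_mm_203 : CertB 0 536870912 0 1230186008 1020054732 13421774 3 eng mog cd0q2 cd5q3 pd0 false false false .up 2 0 3
    ndB0q2 ndB5q3 pcB0 cut_mm_203 Ext.none :=
  certB0 (fam := false) (s1 := false) (s2 := false) (a := 2) (b := 0) (c := 3) (cn := .up) (n1 := ndB0q2) (n2 := ndB5q3) (pc := pcB0) (cut := cut_mm_203) (xt := Ext.none) (P1 := 0) (W1 := 536870912) (P2 := 0) (W2 := 1230186008) (P3 := 1020054732) (W3 := 13421774) (N0 := 3) (En := eng) (mo := mog) (C1 := cd0q2) (C2 := cd5q3) (C3 := pd0)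
    rfl k0_mm_203

noncomputable def cut_mm_213 : Cut := Cut.of [[⟨3, 0, 0, 1449551462⟩]]

noncomputable def f_mm_213 : ℕ → ℕ → ℕ → ℕ → Bool := onCell 0 536870912 0 1230186008 1020054732 13421774
    (rowB 3 eng mog cd0q2 cd5q3 pd1 0 false false false .pnn 2 1 3 (qsf 0 536870912 0 1230186008 1) ndB0q2 ndB5q3 pcB1 cut_mm_213 Ext.none)

def k0_mm_213 : ∃ t, chk3 f_mm_213 t 1 1 1 = true :=
  ⟨(b (l 6) (a (b (l 6) (b (l 6) (a (l 1) (l 6)))) (l 6))), by decide +kernel⟩

theorem c_mm_213 : CertB 0 536870912 0 1230186008 1020054732 13421774 3 eng mog cd0q2 cd5q3 pd1 false false false .pnn 2 1 3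
    ndB0q2 ndB5q3 pcB1 cut_mm_213 Ext.none :=
  certB0 (fam := false) (s1 := false) (s2 := false) (a := 2) (b := 1) (c := 3) (cn := .pnn) (n1 := ndB0q2) (n2 := ndB5q3) (pc := pcB1) (cut := cut_mm_213) (xt := Ext.none) (P1 := 0) (W1 := 536870912) (P2 := 0) (W2 := 1230186008) (P3 := 1020054732) (W3 := 13421774) (N0 := 3) (En := eng) (mo := mog) (C1 := cd0q2) (C2 := cd5q3) (C3 := pd1)
    rfl k0_mm_213

end Pool.Agent.Strip051.G.I9500_9625.Tab.C.BB05

namespace Pool.Agent.Strip051.G.I9500_9625.Tab.C.BB10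

open Pool.Agent.Strip051.PB Pool.Agent.Strip051.PB.T
open Pool.Agent.Strip051.G.I9500_9625.Tab

noncomputable def f_pp_001 : ℕ → ℕ → ℕ → ℕ → Bool := onCell 0 536870912 0 536870912 1020054732 13421774
    (rowB 3 eng mog cd1q0 cd0q1 pd0 1 false true true .up 0 0 1 (qsf 0 536870912 536870912 536870912 0) ndB1q0 ndB0q1 pcB0 Cut.none Ext.none)

def k0_pp_001 : ∃ t, chk3 f_pp_001 t 1 1 1 = true :=
  ⟨(l 3), by decide +kernel⟩

theorem c_pp_001 : CertB 0 536870912 536870912 536870912 1020054732 13421774 3 eng mog cd1q0 cd0q1 pd0 false true true .up 0 0 1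
    ndB1q0 ndB0q1 pcB0 Cut.none Ext.none :=
  certB1 (fam := false) (s1 := true) (s2 := true) (a := 0) (b := 0) (c := 1) (cn := .up) (n1 := ndB1q0) (n2 := ndB0q1) (pc := pcB0) (cut := Cut.none) (xt := Ext.none) (P1 := 0) (W1 := 536870912) (P2 := 536870912) (W2 := 536870912) (P3 := 1020054732) (W3 := 13421774) (N0 := 3) (En := eng) (mo := mog) (C1 := cd1q0) (C2 := cd0q1) (C3 := pd0)
    rfl (fun _ => rfl) k0_pp_001

noncomputable def cut_pp_011 : Cut := Cut.of [[⟨0, 0, 0, 38347922⟩, ⟨1, 1, 0, 38347922⟩, ⟨2, 1, 0, 38347922⟩]]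

noncomputable def f_pp_011 : ℕ → ℕ → ℕ → ℕ → Bool := onCell 0 536870912 536870912 536870912 1020054732 13421774
    (rowB 3 eng mog cd1q0 cd0q1 pd1 0 false true true .pnn 0 1 1 (qsf 0 536870912 536870912 536870912 1) ndB1q0 ndB0q1 pcB1 cut_pp_011 Ext.none)

def k0_pp_011 : ∃ t, chk3 f_pp_011 t 1 1 1 = true :=
  ⟨(a (b (l 3) (b (l 3) (a (b (l 3) (a (b (l 3) (a (b (l 3) (a (l 6) (l 3))) (l 3))) (l 3))) (l 3)))) (l 3)), by decide +kernel⟩

theorem c_pp_011 : CertB 0 536870912 536870912 536870912 1020054732 13421774 3 eng mog cd1q0 cd0q1 pd1 false true true .pnn 0 1 1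
    ndB1q0 ndB0q1 pcB1 cut_pp_011 Ext.none :=
  certB0 (fam := false) (s1 := true) (s2 := true) (a := 0) (b := 1) (c := 1) (cn := .pnn) (n1 := ndB1q0) (n2 := ndB0q1) (pc := pcB1) (cut := cut_pp_011) (xt := Ext.none) (P1 := 0) (W1 := 536870912) (P2 := 536870912) (W2 := 536870912) (P3 := 1020054732) (W3 := 13421774) (N0 := 3) (En := eng) (mo := mog) (C1 := cd1q0) (C2 := cd0q1) (C3 := pd1)
    rfl k0_pp_011

noncomputable def cut_pp_012 : Cut := Cut.of [[⟨0, 0, 0, 38347922⟩, ⟨1, 1, 0, 38347922⟩, ⟨2, 1, 0, 38347922⟩]]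

noncomputable def xt_pp_012 : Ext := extD3 3 ⟨4, 1, 1, 5, 99, 20, 33, 40, 51, 125, 1, 32⟩ eng cd1q0 cd0q2 pd1 false true true .pnp 0 1 2 rfl ndB1q0 ndB0q2 pcB1

noncomputable def f_pp_012 : ℕ → ℕ → ℕ → ℕ → Bool := onCell 536870912 536870912 0 536870912 1020054732 13421774
    (rowB 3 eng mog cd1q0 cd0q2 pd1 2 false true true .pnp 0 1 2 (qsf 0 536870912 0 536870912 1) ndB1q0 ndB0q2 pcB1 cut_pp_012 xt_pp_012)

def k0_pp_012 : ∃ t, chk3 f_pp_012 t 2 4 1 = true :=
  ⟨(a (l 2) (a (a (a (l 2) (b (a (l 2) (b (l 16635624) (c (l 16703216) (l 16614024)))) (a (b (l 2) (l 16579944)) (c (l 16646704) (l 16591376))))) (b (a (b (l 16558808) (c (l 16644992) (l 16572112))) (c (l 16653704) (l 16570496))) (c (a (b (l 16703560) (l 16703760)) (b (l 16740752) (l 16725784))) (b (l 16496264) (l 16534440))))) (b (a (c (a (l 16627936) (l 16566224)) (l 16498608)) (c (l 16474624) (l 16515696))) (a (c (b (a (l 16696728) (l 16698200)) (l 16581776)) (a (l 16471456) (l 16490712))) (c (b (l 16629016)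 (a (l 16694472) (l 16661192))) (c (l 16486704) (l 16473512))))))), by decide +kernel⟩

def k1_pp_012 : ∃ t, chk3 f_pp_012 t 2 10 1 = true :=
  ⟨(a (l 2) (b (a (b (a (a (l 2) (c (l 16691552) (l 16667824))) (c (l 16645416) (l 16567072))) (a (a (a (l 2) (c (l 16681680) (l 211627548855))) (c (l 16649624) (a (l 16673448) (l 16670216)))) (a (c (l 16697616) (l 16664024)) (l 16576784)))) (a (c (a (l 16693136) (l 16707928)) (l 16498552)) (c (l 16686544) (l 16539592)))) (a (a (b (a (a (l 2) (a (l 2) (b (c (l 16667056) (l 16677184)) (c (l 105394177383) (c (l 16673024) (l 113447316407)))))) (c (a (c (l 16644984) (l 16649232)) (l 16654576)) (a (b (l 16675856) (c (l 16673688) (a (l 135459034999) (l 16680024)))) (c (l 16674960) (l 16674304))))) (a (l 3) (c (c (a (l 65665722663) (l 100562327239)) (a (l 69960754535) (b (l 16644624) (l 16662000)))) (a (b (c (l 83919410455) (a (l 61370823415) (l 101099275495))) (l 3)) (c (b (l 134922163639) (l 75866335239)) (c (l 110226065303) (b (l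 138680246775) (l 79087549559)))))))) (a (a (c (b (l 16682016) (c (l 131163984391) (l 134385239383))) (b (l 16672048) (b (c (l 16674248) (l 16677688)) (c (l 127405958519) (a (b (l 16682440) (l 103783630247)) (l 16660888)))))) (c (c (l 16660256) (l 16657088)) (b (l 16668736) (b (l 16673720) (c (l 16674536) (l 16678952)))))) (c (c (l 16668200) (l 16640616)) (b (l 16662328) (a (l 16651728) (l 16669328)))))) (a (a (c (l 16630520) (b (l 16650992) (l 16662696))) (c (l 16674000) (l 16622760))) (c (l 16602224) (a (l 16627168) (l 16607480))))))), by decide +kernel⟩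

def k2_pp_012 : ∃ t, chk3 f_pp_012 t 4 11 1 = true :=
  ⟨(l 3), by decide +kernel⟩

def k3_pp_012 : ∃ t, chk3 f_pp_012 t 10 11 1 = true :=
  ⟨(a (l 3) (b (a (b (a (a (l 3) (c (l 59223315607) (c (l 60833920679) (b (l 76940063655) (l 3))))) (c (c (l 88214303959) (l 93046187671)) (b (c (l 121500365591) (a (b (l 16657656) (l 85530008151)) (l 149954525703))) (c (l 58149572631) (a (l 3) (l 65128892263)))))) (l 3)) (b (c (a (c (l 120963440023) (l 125258437495)) (b (l 16673544) (l 16667432))) (a (b (c (l 16675288) (l 16659624)) (c (l 115057902135) (c (l 117205382135) (a (l 104320476727) (l 141901450663))))) (c (l 16654968) (c (l 16678656) (l 16659496))))) (b (c (a (l 51170243927) (c (l 16657720) (l 103246738551))) (a (c (l 51707109239) (c (l 53317718263) (l 65128887335))) (c (l 107004825463) (c (l 110762917671) (a (l 94119916647) (l 131700889671)))))) (l 3)))) (l 3))), by decide +kernel⟩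

def k4_pp_012 : ∃ t, chk3 f_pp_012 t 22 11 1 = true :=
  ⟨(a (a (b (b (c (l 16675976) (b (l 16672840) (l 16677480))) (c (c (l 111836642535) (l 116131623767)) (b (c (l 16677552) (a (l 16654152) (l 16681952))) (c (l 103246714999) (c (l 105394194503) (a (l 85529968647) (l 122037199143))))))) (l 3)) (b (c (b (l 16680440) (b (l 16673504) (l 146196408135))) (b (l 16671872) (b (l 16679512) (c (l 16651400) (a (b (l 16674120) (l 152101982967)) (l 16676216)))))) (b (b (c (a (l 16638376) (l 16641584)) (c (l 97877991031) (a (b (l 90898680775) (l 3)) (b (l 144048911943) (l 84456223799))))) (l 3)) (l 3)))) (b (c (b (l 16685144) (a (l 16676176) (l 16680192))) (b (l 16644064) (a (b (l 16676720) (l 16660848)) (l 16676192)))) (a (b (c (b (l 138143330391) (l 89824913047)) (b (c (l 145659522327) (a (b (l 16667936) (l 136532711687)) (l 16649160))) (c (l 93046137895) (b (a (l 78550636919) (l 129016511127)) (c (l 66739465543) (l 67276330311)))))) (l 3)) (b (c (b (l 16673512) (l 131700864711))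 (b (c (l 16678576) (l 16681904)) (c (l 139217055959) (a (b (l 16661408) (l 122037181991)) (l 16642744))))) (b (c (l 85529931159) (c (l 88751154487) (a (l 73181934135) (b (l 115057852727) (l 79087488471))))) (l 3)))))), by decide +kernel⟩

def k5_pp_012 : ∃ t, chk3 f_pp_012 t 23 11 1 = true :=
  ⟨(b (a (c (l 16622896) (b (l 16652680) (l 16648248))) (c (l 16684040) (l 16625744))) (a (b (a (c (l 16675712) (c (l 16682648) (l 16644416))) (c (l 16681768) (l 16681976))) (c (a (b (l 125795268791) (l 81234948503)) (b (l 16665120) (l 119889673111))) (a (b (c (l 132237718327) (a (b (l 16654528) (l 110226006647)) (l 161765627031))) (c (l 84993041623) (a (l 3) (b (l 110762870231) (l 3))))) (b (c (l 16668144) (l 16649048)) (c (l 126332121207) (a (b (l 16626376) (l 105394153639)) (b (l 16656144) (l 146733226999)))))))) (c (b (l 16685224) (a (l 16647064) (l 16679952))) (b (l 16654120) (a (b (l 16685664) (c (l 16662464) (l 16642664))) (l 16646688)))))), by decide +kernel⟩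

def k6_pp_012 : ∃ t, chk3 f_pp_012 t 2 3 1 = true :=
  ⟨(b (a (l 3) (a (l 3) (b (a (l 3) (b (b (a (a (l 3) (c (l 73718697239) (c (l 87677371719) (b (a (l 3) (b (l 100025436935) (l 3))) (l 3))))) (c (a (b (l 114520947271) (l 75329335287)) (b (l 16655352) (l 110225963223))) (a (b (c (l 120426524103) (c (l 123110875591) (a (l 113447197831) (l 144585725831)))) (c (l 78550556711) (a (l 3) (l 84456141495)))) (b (c (l 16635504) (l 16636008)) (c (l 114520926391) (c (l 116668406983) (a (l 104320375607) (l 135458902711)))))))) (a (l 3) (a (l 3) (a (l 3) (b (c (l 16621600) (l 78550540247)) (l 3)))))) (l 3))) (l 3)))) (l 3)), by decide +kernel⟩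

def k7_pp_012 : ∃ t, chk3 f_pp_012 t 6 2 1 = true :=
  ⟨(b (b (a (a (c (l 16493168) (l 16508448)) (c (l 16474200) (l 16519104))) (a (c (l 16481072) (l 16547928)) (l 16344688))) (a (a (a (b (l 16542344) (c (l 16623168) (l 16518104))) (l 16387536)) (c (l 16504824) (l 16497304))) (a (c (l 16498224) (l 16505040)) (c (l 16498352) (l 16532432))))) (a (b (b (a (c (c (l 16618552) (l 16608944)) (l 16467424)) (c (l 16466024) (l 16428576))) (a (a (l 16561672) (l 16559152)) (c (l 16536416) (l 16476568)))) (b (a (a (c (l 16675904) (l 16628792)) (l 16551056)) (a (l 16571304) (l 16567008))) (a (a (c (b (l 16684392) (l 16688096)) (b (l 16661680) (l 16640480))) (c (l 16681640) (l 16635664))) (a (c (l 16669688) (l 16637176)) (l 16570536))))) (a (b (c (b (l 16517616) (l 16474992)) (b (l 16479416) (l 16372552))) (a (b (l 16559616) (l 16588696)) (c (l 16537232) (l 16490856)))) (b (a (b (l 16491888) (l 16483544)) (l 16467408)) (b (a (l 16436432) (l 16393656)) (l 16391024)))))), by decide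 +kernel⟩

def k8_pp_012 : ∃ t, chk3 f_pp_012 t 12 6 1 = true :=
  ⟨(b (a (b (a (b (c (a (l 16617192) (l 16673496)) (a (b (l 16675448) (c (l 16650192) (l 16608112))) (l 16619856))) (c (c (l 109152159047) (a (l 102172840455) (l 120963346983))) (a (b (c (l 112373424487) (a (b (l 114520930791) (l 3)) (l 126332077127))) (l 3)) (b (c (l 16643648) (a (l 16637424) (l 16648408))) (c (l 114520889991) (a (l 102709725975) (l 122037091559))))))) (c (a (c (l 16636328) (l 143511939991)) (l 16603304)) (b (l 16627960) (a (c (l 16608216) (c (l 16608592) (l 153175615095))) (l 16609872))))) (a (l 3) (b (c (a (l 93045983319) (b (l 16611144) (l 103783437447))) (a (b (c (l 109689032455) (a (l 94656644615) (l 115057751335))) (l 3)) (b (a (c (l 16624560) (l 142438186439)) (l 16634592)) (c (l 109689012631) (a (l 93582884967) (l 108615281943)))))) (l 3)))) (c (b (a (b (l 16689520) (l 16674120)) (l 16686592)) (b (a (a (l 139753815447) (l 16658248)) (l 16670944)) (a (a (l 97340904423) (b (l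 16577024) (l 105930880983))) (a (l 134385066119) (l 16649808))))) (b (a (b (l 16676728) (l 16618600)) (l 16651120)) (a (b (a (b (l 16631584) (a (b (l 16623160) (l 124721428327)) (l 16627368))) (b (l 16677736) (l 16625448))) (a (b (c (l 110225863575) (a (l 93045996455) (l 112373359191))) (l 3)) (b (a (b (l 16615432) (l 133848216679)) (l 16619968)) (a (l 3) (l 119352656935))))) (b (a (l 16688768) (l 16707304)) (a (b (l 16619192) (a (l 121500158615) (l 16612448))) (b (l 16668544) (l 16612840)))))))) (a (l 3) (b (a (l 3) (b (a (a (l 3) (c (l 106467687207) (l 133311362311))) (c (b (l 16552664) (l 110762676391)) (b (a (l 116131429463) (l 16604840)) (l 116668231495)))) (l 3))) (l 3)))), by decide +kernel⟩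

def k9_pp_012 : ∃ t, chk3 f_pp_012 t 13 6 1 = true :=
  ⟨(b (a (a (b (c (l 16670632) (l 16650856)) (b (l 16635584) (c (l 16667912) (l 16591856)))) (b (l 16596232) (b (l 16680024) (l 16665448)))) (a (b (l 16612360) (l 16609432)) (b (l 16584048) (l 16605208)))) (a (b (c (a (b (a (l 130090054615) (l 16620168)) (a (l 112910058391) (l 115594446231))) (b (l 16644360) (a (l 129553138967) (l 16611592)))) (a (b (a (b (l 16627408) (a (l 111836442903) (l 16597184))) (l 16577400)) (a (l 141364343047) (a (l 101635789687) (l 111836358791)))) (b (l 16586792) (a (b (l 16614592) (l 124721289287)) (l 16587616))))) (a (l 3) (b (a (l 3) (b (a (l 145122368695) (l 16516216)) (l 3))) (l 3)))) (a (b (b (l 16674760) (a (l 16604336) (l 16705152))) (b (a (c (l 136532413671) (l 129016196055)) (c (l 16603600) (l 16577640))) (a (l 3) (a (l 150490925095) (l 142974759271))))) (c (b (l 16668144) (b (l 16642304) (a (l 88750847495) (l 16575888)))) (b (l 16669432) (b (l 16622168) (a (l 142974786663)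 (l 16569024)))))))), by decide +kernel⟩

def k10_pp_012 : ∃ t, chk3 f_pp_012 t 6 7 1 = true :=
  ⟨(b (a (l 3) (a (l 3) (b (a (l 3) (b (a (l 3) (b (a (l 16510936) (l 16552192)) (l 3))) (l 3))) (l 3)))) (l 3)), by decide +kernel⟩

def k11_pp_012 : ∃ t, chk3 f_pp_012 t 7 2 1 = true :=
  ⟨(a (b (a (c (b (l 16573912) (l 16526872)) (l 16391256)) (b (l 16413736) (l 16364560))) (b (a (c (l 16470936) (a (l 16500968) (l 16521224))) (a (l 16465768) (l 16492792))) (a (a (b (l 16445864) (l 16470032)) (b (l 16470472) (c (l 16473072) (l 16463440)))) (a (b (l 16482136) (b (l 16460496) (l 16454624))) (c (l 16471696) (l 16497624)))))) (b (a (b (l 16284720) (l 16320672)) (b (l 16136888) (a (l 16444728) (l 16380968)))) (a (b (b (l 16478256) (l 16398008)) (a (l 16382432) (l 16392936))) (a (b (l 16508432) (l 16411448)) (b (l 16427776) (l 16418280)))))), by decide +kernel⟩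

def k12_pp_012 : ∃ t, chk3 f_pp_012 t 7 6 1 = true :=
  ⟨(b (b (a (a (a (l 16553936) (l 16522776)) (a (l 16491664) (b (l 16433856) (l 16477784)))) (a (a (a (l 16416152) (l 16437968)) (a (l 16466736) (l 16481168))) (a (l 16422440) (l 16421664)))) (a (a (a (l 16598480) (l 16590032)) (a (l 16559720) (l 16529464))) (a (a (l 16500352) (a (l 16481544) (l 16369176))) (a (b (a (l 16463296) (l 16478800)) (a (l 16473112) (l 16427072))) (a (b (l 16497656) (l 16410888)) (l 16421640)))))) (a (a (b (a (a (l 16671304) (l 16658032)) (b (l 16640776) (l 16653888))) (a (b (c (l 16710744) (l 16717264)) (a (c (l 16662600) (l 16659456)) (b (l 16733656) (l 16686488)))) (b (c (l 16705936) (l 16691088)) (a (l 16686112) (l 16694312))))) (b (a (b (l 16611216) (l 16624816)) (b (l 16581120) (l 16615784))) (a (a (b (l 16687752) (l 16701256)) (b (l 16673048) (l 16686680))) (b (l 16587536) (a (l 16671728) (l 16656512)))))) (a (b (a (b (l 16551528) (l 16585864)) (c (l 16524296) (l 16556744))) (a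 (b (l 16557256) (a (l 16641184) (l 16625768))) (b (l 16548360) (a (l 16610312) (l 16595104))))) (a (b (b (l 16477400) (l 16488232)) (a (b (l 16569080) (l 16580256)) (b (l 16555448) (l 16565520)))) (b (a (l 16436344) (b (b (l 16434488) (l 16483016)) (l 16504632))) (b (l 16454648) (a (l 16552600) (l 16542272)))))))), by decide +kernel⟩

def k13_pp_012 : ∃ t, chk3 f_pp_012 t 28 14 1 = true :=
  ⟨(b (a (b (b (a (c (l 16590904) (l 16580728)) (l 16572464)) (a (a (l 183240239111) (l 16546376)) (c (l 16587856) (l 16576616)))) (a (l 3) (b (a (l 3) (l 93045985607)) (l 3)))) (b (a (b (l 16667696) (c (l 16638776) (l 16631160))) (b (l 16723272) (a (l 16677400) (l 16706776)))) (b (a (c (l 25400345287) (l 16573296)) (a (l 16621288) (l 16650672))) (a (a (l 3) (l 83919211943)) (c (a (l 16570872) (l 16598568)) (a (l 16556216) (l 16585688))))))) (a (l 3) (b (a (l 3) (b (a (l 3) (c (l 77476693847) (l 16524688))) (l 3))) (l 3)))), by decide +kernel⟩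

def k14_pp_012 : ∃ t, chk3 f_pp_012 t 29 14 1 = true :=
  ⟨(a (b (a (a (b (l 16717056) (c (l 16540584) (l 16563760))) (b (l 16711024) (b (l 16712496) (l 16590944)))) (b (l 16700176) (b (l 16718224) (a (l 16644408) (l 16719920))))) (b (a (b (a (c (l 87140433591) (l 16554224)) (c (l 16600064) (l 16585744))) (a (l 3) (c (l 77476692855) (l 67276101991)))) (c (b (a (l 16631304) (l 16663672)) (a (b (l 16586552) (l 82308568247)) (b (l 16618768) (l 69423729095)))) (a (b (l 16619120) (b (l 16569920) (l 16537448))) (b (l 16653784) (b (l 16604368) (l 16570840)))))) (a (l 3) (b (a (l 3) (b (c (l 82308571159) (l 71034237831)) (l 3))) (l 3))))) (b (a (b (l 16685248) (b (l 16710912) (l 16685600))) (b (l 16669936) (a (l 16708000) (l 16700184)))) (a (a (b (b (c (l 16697064) (l 16689688)) (c (l 16636936) (l 16623360))) (b (c (b (a (l 16582552) (l 16599336)) (l 81771767543)) (b (l 68886823623) (l 70497368039))) (l 3))) (b (b (l 16729336) (c (l 16671400) (l 16660440))) (c (b (b (l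 16625312) (a (l 98951626279) (l 16602936))) (l 2711005926231263987633941055)) (b (a (l 91972287223) (l 16601288)) (b (l 71034242199) (l 3)))))) (b (a (b (l 16766016) (b (l 16719040) (l 16686896))) (l 16646728)) (b (a (a (b (l 16644976) (l 16611968)) (l 16668216)) (l 142492342936682559)) (c (a (l 1821240917068308114906032703) (b (l 16635064) (l 596829847142753485023807))) (a (b (l 86603575927) (l 74792344615)) (b (l 16617072) (l 142270585120833599))))))))), by decide +kernel⟩

def k15_pp_012 : ∃ t, chk3 f_pp_012 t 14 15 1 = true :=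
  ⟨(a (l 3) (b (a (l 3) (b (b (a (l 3) (a (l 3) (a (l 3) (c (l 3262278419942256741796473407) (l 168207890711))))) (l 3)) (l 3))) (l 3))), by decide +kernel⟩

def k16_pp_012 : ∃ t, chk3 f_pp_012 t 15 14 1 = true :=
  ⟨(a (b (a (b (a (l 16654400) (l 16638648)) (a (c (l 16701936) (l 16716776)) (c (l 16684816) (l 16701696)))) (b (a (l 16622696) (l 16606840)) (a (c (l 16667080) (l 16686512)) (c (l 16670000) (l 16671544))))) (a (b (a (a (l 16726000) (l 16717888)) (a (l 16709672) (l 16701288))) (a (b (l 142279931283865663) (c (a (l 598878876988108621179455) (l 16737256)) (a (l 142926031610118207) (l 16598488)))) (b (l 142356278612131903) (a (l 142774711506190399) (l 16749360))))) (a (b (b (l 16680232) (l 16696448)) (c (l 16713160) (l 16725832))) (b (a (l 16675568) (l 16666984)) (c (l 16694320) (l 16710664)))))) (a (b (a (b (l 16591184) (b (l 16635800) (l 16630488))) (b (l 16575312) (b (l 16619064) (l 16613168)))) (a (b (c (l 16642728) (l 16665176)) (a (l 16688952) (l 16679472)))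 (b (a (l 16640208) (l 16631248)) (a (l 16659088) (l 16638976))))) (b (a (b (l 16561304) (l 16569584)) (b (l 16550152) (l 16536624))) (a (a (b (l 16623112) (l 16630240)) (b (l 16615848) (l 16643416))) (c (b (l 16610336) (a (l 16664752) (l 16657584))) (b (l 16644808) (l 16647848))))))), by decide +kernel⟩

def k17_pp_012 : ∃ t, chk3 f_pp_012 t 30 60 1 = true :=
  ⟨(b (a (b (c (a (a (l 1937296336728634551516572223) (l 598741391466333439273535)) (l 598066932821270280972351)) (a (c (l 2063025026068252810284771903) (l 141742201106235455)) (l 142875660344999999))) (a (a (b (l 1801897341872375233938188863) (l 3)) (c (l 2024339406469214756394510911) (l 596005219912888357825087))) (a (a (l 598087108371800260405823) (l 16658360)) (l 600192343066081786357823)))) (a (b (l 142827075746005055) (l 599549301114204711381055)) (l 142623116330074175))) (a (a (b (a (l 3) (b (l 2720681432577968945545226815) (l 3))) (l 3)) (c (b (a (l 2111384290331811940806863423) (l 599746450920396931508287))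 (a (l 5302945571668156046194268735) (l 2498241229950347618087331903))) (b (a (l 1859925127219517747017165375) (l 598298093104106514278975)) (a (l 5090172736766687026851310143) (l 2314483019252892683091110463))))) (a (a (b (l 601574119207259662821439) (c (l 600364705185612995225663) (l 598947476222046852278335))) (c (l 601032823597617562232959) (l 598411944550119105357887))) (c (l 600075610403450041134207) (l 143073366380183615))))), by decide +kernel⟩

def k18_pp_012 : ∃ t, chk3 f_pp_012 t 30 61 1 = true :=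
  ⟨(a (b (a (l 3) (b (a (l 3) (b (a (l 3) (l 2962467815427392127318419519)) (l 3))) (l 3))) (l 3)) (a (b (c (b (a (b (l 2536925992639665108765960255) (a (l 3890922836101770646190757951) (l 2401526267265260916554684479))) (l 601052711237110870009983)) (a (c (l 5757503786519075908838643775) (l 5699474340677100186632394815)) (b (l 2914111495582012157014628415) (a (l 3890922951970381859222788159) (l 2769040432392362546568419391))))) (b (a (b (l 598027444536121254438975) (l 2991481289157758978926438463)) (l 599693128318469776861247)) (a (l 5583415860874356263036573759) (b (l 2440211124060530614088869951) (a (l 5873560237468202100420778047) (l 2652982015712071000179759167)))))) (b (a (l 3) (a (l 3) (b (c (l 5941261687945125370892867647) (l 5844545641080349369962190911)) (l 3)))) (l 3))) (a (b (b (l 600687235103795322710079) (c (a (l 600662592297788486507583) (l 16726536)) (l 600525249566977041950783))) (b (c (c (b (a (l 2836740227850465953829313599) (l 16724776)) (a (l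 5960604857311704361256868927) (b (l 3165568059144325997781490751) (a (l 186461857175) (l 154249635095))))) (b (l 2991482769366396259430931519) (a (l 6047647284874965611965160511) (l 3475053069830362194917481535)))) (b (l 2943125727501336397063301183) (a (l 5970274483181357529263462463) (l 3581438602196598177956337727)))) (b (a (l 3) (a (l 3) (a (l 3) (b (c (l 133311655095) (l 181629968535)) (l 3))))) (l 3)))) (c (b (l 600901390597700758629631) (b (a (a (b (l 16729720) (l 600210647067982637636671)) (l 16735856)) (l 16747600)) (b (c (a (a (b (l 155860265959) (b (l 133311642471) (l 3))) (c (l 170892671175) (l 168208293911))) (a (l 16750520) (l 16757744))) (a (b (l 3213925103169895834676927551) (a (l 229411519527) (l 156933981367))) (l 16735544))) (a (b (a (l 3) (b (a (l 3) (l 140827911175)) (l 3))) (l 3)) (b (a (c (a (l 152102210167) (l 16765032)) (l 163376451751)) (l 16749744)) (a (b (a (l 3) (l 140827929639)) (l 3)) (c (l 162302774199) (l 165523938999)))))))) (b (l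 600734504939016715495551) (b (a (l 600963648038716644468863) (l 16720904)) (b (a (c (l 3523410106650172628011801663) (l 3600781502067775466397014079)) (l 600535194471529427442751)) (a (l 6096004101774999041312790591) (b (l 3126882367488362477735795775) (a (l 6037976184995168804013890623) (l 3687823960471686965478300735))))))))))), by decide +kernel⟩

def k19_pp_012 : ∃ t, chk3 f_pp_012 t 30 31 1 = true :=
  ⟨(b (a (l 3) (b (a (l 3) (b (a (l 3) (b (a (l 3) (a (l 3) (a (l 3) (a (l 3) (b (c (l 230485352375) (l 350207464775)) (l 3)))))) (l 3))) (l 3))) (l 3))) (l 3)), by decide +kernel⟩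

def k20_pp_012 : ∃ t, chk3 f_pp_012 t 31 30 1 = true :=
  ⟨(a (a (b (a (a (l 16720560) (l 16715728)) (b (l 16701016) (l 16715024))) (b (a (c (l 16754736) (l 16744568)) (l 16728752)) (a (b (a (l 16751112) (l 16744008)) (a (c (a (c (l 16765952) (l 16747616)) (l 16763560)) (a (l 600244946482744679439423) (l 16729832))) (c (l 16750904) (l 16743960)))) (c (a (l 16755336) (l 16754720)) (l 600729316911886593436927))))) (a (b (b (l 16690616) (l 16704288)) (b (l 142737602963505279) (b (l 16747840) (l 599896042743592714448511)))) (b (b (l 16701456) (l 16693800)) (b (l 16714688) (l 142873117816340607))))) (b (a (b (c (l 16677792) (l 16698328)) (a (l 16684264) (l 16675760))) (c (a (l 16672296) (l 16643888)) (a (l 16694024) (l 16688584)))) (a (b (c (a (l 16710848) (l 16701408)) (a (l 16725120) (l 16716984))) (c (a (l 16723704) (l 16714040)) (a (l 16734968) (l 16726448)))) (a (b (c (l 16713856) (l 16710000)) (l 6)) (l 6))))), by decide +kernel⟩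

def k21_pp_012 : ∃ t, chk3 f_pp_012 t 248 124 1 = true :=
  ⟨(b (a (b (a (b (a (c (b (l 173577056935) (l 202568062887)) (b (l 16710968) (l 235853987191))) (c (l 181630121159) (l 182703806823))) (a (l 3) (b (c (l 232632855415) (l 235853988231)) (l 3)))) (b (c (l 16758896) (l 16724192)) (a (b (c (l 174113929287) (l 16720544)) (c (a (l 3) (l 221895400295)) (l 353428718055))) (c (l 182166993319) (l 184314384535))))) (a (l 3) (a (l 3) (a (l 3) (b (c (l 368998071575) (l 361481795159)) (l 3)))))) (c (b (a (b (l 16773256) (l 16762600)) (l 16774072)) (a (b (a (c (l 243370284855) (l 249812712103)) (l 182703859671)) (c (l 375977395367) (l 377051140583))) (b (l 16763320) (a (b (l 176261415255) (a (l 3) (l 366850576727))) (b (l 16773896) (l 175187674151)))))) (a (b (l 16754912) (b (c (a (l 253033905703) (l 184314409783)) (l 4945107086401528275152346175)) (a (l 3) (l 370071771223)))) (b (l 16743584) (b (l 16743736) (a (b (a (l 234243382711) (l 16743280)) (l 367387407079)) (c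 (l 184314434471) (l 248202026583)))))))) (a (l 3) (b (a (l 3) (b (a (l 3) (b (c (l 373829912279) (l 395304707015)) (l 3))) (l 3))) (l 3)))), by decide +kernel⟩

def k22_pp_012 : ∃ t, chk3 f_pp_012 t 249 124 1 = true :=
  ⟨(b (a (c (a (c (l 16766272) (l 16751976)) (l 16754904)) (a (c (l 16762944) (l 16742128)) (l 16760624))) (c (l 16756496) (l 16748624))) (a (b (a (b (c (a (b (a (l 247665248775) (l 16753320)) (l 375977394055)) (c (l 183777617655) (l 183240740007))) (c (a (b (l 268066308551) (l 393157263607)) (l 259476387287)) (a (l 6695632535300566389935397951) (l 4896750772463501230550588479)))) (a (l 3) (a (l 3) (c (l 394767866471) (l 398525963623))))) (b (c (l 16764896) (l 601175065906586348756031)) (a (c (b (a (l 256792056135) (l 16754096)) (l 392083522935)) (b (a (l 337322645527) (l 261086960279)) (a (l 3) (l 389936016055)))) (c (b (l 16775464) (a (l 256255186023) (l 16754504))) (b (l 16747896) (c (l 265918855687) (l 330343313527))))))) (b (a (l 3) (c (c (l 386714827943)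 (l 400673465431)) (c (l 401747179991) (l 7914229960927532895062989887)))) (l 3))) (b (c (a (a (l 16755096) (l 16755640)) (l 16756472)) (c (l 601428420407223714831423) (l 601884544689274305031423))) (a (a (b (c (b (a (l 255718315911) (l 16754904)) (l 393157266343)) (c (b (l 336248946855) (l 394767880359)) (b (l 337322661639) (l 396378486855)))) (l 3)) (b (c (b (l 16755320) (a (l 255181445815) (l 16765800))) (b (l 16749024) (c (l 337859560631) (l 6066991469100699032609545279)))) (a (l 3) (c (l 398525966007) (c (l 400136590823) (l 401210326647)))))) (b (c (l 16771816) (l 601853560212047444614207)) (a (b (c (c (l 254644582199) (l 262697639975)) (c (l 337322689463) (l 6047648784537612729492347967))) (c (l 397452235255) (c (l 399062849719) (l 400673446055)))) (b (c (l 16756152) (l 16750168)) (c (c (l 260550162983) (l 262160769975)) (c (l 337859561431) (l 6066991726202194559959030847)))))))))), by decide +kernel⟩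

def k23_pp_012 : ∃ t, chk3 f_pp_012 t 124 125 1 = true :=
  ⟨(a (l 3) (b (a (l 3) (b (b (a (l 3) (b (a (l 3) (c (l 397989106983) (c (l 399599721671) (l 7217889256931577885477116991)))) (l 3))) (l 3)) (l 3))) (l 3))), by decide +kernel⟩

def k24_pp_012 : ∃ t, chk3 f_pp_012 t 125 62 1 = true :=
  ⟨(a (b (b (a (l 16762560) (l 16756008)) (a (b (l 602102446718611200519935) (a (b (l 602172054777695094791743) (a (c (l 16756648) (l 602150149269107557817407)) (l 16764752))) (l 602579179811687264890623))) (b (l 16756944) (l 602629043610342824078975)))) (b (b (a (a (b (b (a (c (c (l 260550163735) (l 336248956743)) (c (a (l 364166242167) (l 317458470055)) (l 6086334667578546014267317311))) (c (l 16756992) (l 602196842590044136332351))) (a (a (l 3) (c (l 394767872023) (c (l 396378497463) (l 7159860974675630687775595583)))) (c (a (l 364166246199) (l 277193157671)) (c (a (l 364703093159) (l 319069083863)) (b (l 5747835609583523655619271743) (a (l 389399165319) (l 5912249594549859142066822207)))))))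 (a (l 3) (a (l 3) (a (l 3) (c (l 400673452983) (c (l 402284078759) (l 7266246561805638139684232255))))))) (b (c (a (l 16767984) (l 16758080)) (b (l 16752152) (l 602455673467828375232063))) (a (a (b (c (l 364703117943) (c (l 365239975623) (b (l 5931592465597998815356804159) (l 7034132790604571282858777663)))) (l 3)) (b (c (l 319069089639) (c (l 320679697655) (l 5786521410190569360997719103))) (c (l 396378486391) (c (l 397452241399) (c (l 398525979287) (l 398525971383)))))) (b (c (l 16757832) (l 602440973718644638539327)) (c (c (l 259476424487) (l 344302021815)) (c (a (b (l 330343374599) (l 390472920039)) (l 321753440551)) (b (l 5805864274609410382798298175) (a (b (l 6927747444146927917628808255) (l 3)) (l 5979949654603447856574700607))))))))) (b (l 602596473629102409985663) (b (c (l 16773728) (l 602737418437040938593919)) (l 6)))) (a (a (l 3) (a (l 3) (a (l 3) (l 6)))) (l 6))) (a (l 3) (l 6)))) (b (b (l 143438679126163583) (a (l 602225520989928339385983) (l 6))) (l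 6))), by decide +kernel⟩

def k25_pp_012 : ∃ t, chk3 f_pp_012 t 62 63 1 = true :=
  ⟨(a (l 3) (l 6)), by decide +kernel⟩

def k26_pp_012 : ∃ t, chk3 f_pp_012 t 63 31 1 = true :=
  ⟨(b (l 6) (l 6)), by decide +kernel⟩

theorem s27_pp_012 : ∃ t, chk3 f_pp_012 t 124 124 1 = true := ex3_a k21_pp_012 k22_pp_012

theorem s28_pp_012 : ∃ t, chk3 f_pp_012 t 124 62 1 = true := ex3_b s27_pp_012 k23_pp_012

theorem s29_pp_012 : ∃ t, chk3 f_pp_012 t 62 62 1 = true := ex3_a s28_pp_012 k24_pp_012

theorem s30_pp_012 : ∃ t, chk3 f_pp_012 t 62 31 1 = true := ex3_b s29_pp_012 k25_pp_012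

theorem s31_pp_012 : ∃ t, chk3 f_pp_012 t 31 31 1 = true := ex3_a s30_pp_012 k26_pp_012

theorem s32_pp_012 : ∃ t, chk3 f_pp_012 t 31 15 1 = true := ex3_b k20_pp_012 s31_pp_012

theorem s33_pp_012 : ∃ t, chk3 f_pp_012 t 30 30 1 = true := ex3_b k17_pp_012 k18_pp_012

theorem s34_pp_012 : ∃ t, chk3 f_pp_012 t 30 15 1 = true := ex3_b s33_pp_012 k19_pp_012

theorem s35_pp_012 : ∃ t, chk3 f_pp_012 t 15 15 1 = true := ex3_a s34_pp_012 s32_pp_012

theorem s36_pp_012 : ∃ t, chk3 f_pp_012 t 15 7 1 = true := ex3_b k16_pp_012 s35_pp_012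

theorem s37_pp_012 : ∃ t, chk3 f_pp_012 t 14 14 1 = true := ex3_a k13_pp_012 k14_pp_012

theorem s38_pp_012 : ∃ t, chk3 f_pp_012 t 14 7 1 = true := ex3_b s37_pp_012 k15_pp_012

theorem s39_pp_012 : ∃ t, chk3 f_pp_012 t 7 7 1 = true := ex3_a s38_pp_012 s36_pp_012

theorem s40_pp_012 : ∃ t, chk3 f_pp_012 t 7 3 1 = true := ex3_b k12_pp_012 s39_pp_012

theorem s41_pp_012 : ∃ t, chk3 f_pp_012 t 7 1 1 = true := ex3_b k11_pp_012 s40_pp_012

theorem s42_pp_012 : ∃ t, chk3 f_pp_012 t 6 6 1 = true := ex3_a k8_pp_012 k9_pp_012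

theorem s43_pp_012 : ∃ t, chk3 f_pp_012 t 6 3 1 = true := ex3_b s42_pp_012 k10_pp_012

theorem s44_pp_012 : ∃ t, chk3 f_pp_012 t 6 1 1 = true := ex3_b k7_pp_012 s43_pp_012

theorem s45_pp_012 : ∃ t, chk3 f_pp_012 t 3 1 1 = true := ex3_a s44_pp_012 s41_pp_012

theorem s46_pp_012 : ∃ t, chk3 f_pp_012 t 11 11 1 = true := ex3_a k4_pp_012 k5_pp_012

theorem s47_pp_012 : ∃ t, chk3 f_pp_012 t 5 11 1 = true := ex3_a k3_pp_012 s46_pp_012

theorem s48_pp_012 : ∃ t, chk3 f_pp_012 t 2 11 1 = true := ex3_a k2_pp_012 s47_pp_012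

theorem s49_pp_012 : ∃ t, chk3 f_pp_012 t 2 5 1 = true := ex3_b k1_pp_012 s48_pp_012

theorem s50_pp_012 : ∃ t, chk3 f_pp_012 t 2 2 1 = true := ex3_b k0_pp_012 s49_pp_012

theorem s51_pp_012 : ∃ t, chk3 f_pp_012 t 2 1 1 = true := ex3_b s50_pp_012 k6_pp_012

theorem s52_pp_012 : ∃ t, chk3 f_pp_012 t 1 1 1 = true := ex3_a s51_pp_012 s45_pp_012

theorem c_pp_012 : CertB 0 536870912 0 536870912 1020054732 13421774 3 eng mog cd1q0 cd0q2 pd1 false true true .pnp 0 1 2
    ndB1q0 ndB0q2 pcB1 cut_pp_012 xt_pp_012 :=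
  certB2 (fam := false) (s1 := true) (s2 := true) (a := 0) (b := 1) (c := 2) (cn := .pnp) (n1 := ndB1q0) (n2 := ndB0q2) (pc := pcB1) (cut := cut_pp_012) (xt := xt_pp_012) (P1 := 0) (W1 := 536870912) (P2 := 0) (W2 := 536870912) (P3 := 1020054732) (W3 := 13421774) (N0 := 3) (En := eng) (mo := mog) (C1 := cd1q0) (C2 := cd0q2) (C3 := pd1)
    rfl (fun _ => rfl) s52_pp_012

noncomputable def cut_pp_022 : Cut := Cut.of [[⟨0, 0, 0, 26843545⟩, ⟨1, 1, 0, 26843545⟩, ⟨2, 1, 0, 26843545⟩]]

noncomputable def f_pp_022 : ℕ → ℕ → ℕ → ℕ → Bool := onCell 1073741824 536870912 0 536870912 1020054732 13421774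
    (rowB 3 eng mog cd1q0 cd0q2 pd2 2 false true true .pp 0 2 2 (qsf 0 536870912 0 536870912 2) ndB1q0 ndB0q2 pcB2 cut_pp_022 Ext.none)

def k0_pp_022 : ∃ t, chk3 f_pp_022 t 2 2 1 = true :=
  ⟨(a (b (a (a (b (l 16335552) (l 16387016)) (b (l 16272136) (l 16342216))) (a (b (l 16212344) (l 16299824)) (b (l 16156704) (l 16239352)))) (a (b (a (l 16369256) (l 16364176)) (a (b (l 16467112) (a (l 16528904) (l 16548728))) (b (l 16497104) (l 16462952)))) (b (a (l 16318376) (b (l 16347272) (l 16367800))) (a (b (l 16464544) (l 16481216)) (a (l 16426472) (l 16402376)))))) (a (a (b (b (l 16105856) (l 16182368)) (b (b (l 16322528) (l 16371632)) (a (l 16378576) (l 1)))) (b (b (l 1) (l 1)) (l 1))) (l 1))), by decide +kernel⟩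

def k1_pp_022 : ∃ t, chk3 f_pp_022 t 8 6 1 = true :=
  ⟨(b (b (a (a (b (l 16557968) (l 16556800)) (l 16529824)) (a (l 16554264) (l 16553128))) (a (a (b (l 16576744) (a (l 16594224) (l 16618952))) (b (l 16598728) (l 16594880))) (a (b (l 16589792) (l 16561928)) (l 16511984)))) (a (b (b (a (a (a (l 16612000) (l 16630536)) (l 16617600)) (c (l 16622360) (l 16580968))) (a (a (c (b (l 16641568) (l 16641992)) (b (l 16649320) (l 16628992))) (b (l 16595848) (l 16595448))) (c (l 16582008) (l 16556984)))) (a (a (b (a (b (a (l 16643416) (l 16638496)) (c (l 16647352) (l 16636112))) (c (l 16637664) (l 16624784))) (a (b (c (l 16658520) (b (l 16637024) (l 16637680))) (c (l 16659344) (a (l 16641680) (l 16656760)))) (b (a (l 16634736) (l 16629376)) (a (l 16635536) (l 16629968))))) (b (c (l 16623432) (l 16608480)) (c (b (l 16622976) (l 16622832)) (b (l 16608680) (l 16608976))))) (b (a (a (l 16600552) (l 16590144)) (l 16553400)) (a (c (l 16602072) (l 16605952)) (c (l 16601896) (l 16581712))))))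 (b (a (a (c (l 16573272) (l 16570216)) (l 16500256)) (b (l 16496952) (l 16466008))) (a (b (a (l 16553032) (l 16552304)) (a (l 16547824) (l 16545320))) (b (a (l 16530232) (l 16507784)) (a (l 16521440) (l 16497144))))))), by decide +kernel⟩

def k2_pp_022 : ∃ t, chk3 f_pp_022 t 8 14 1 = true :=
  ⟨(a (b (a (b (a (a (b (c (l 16660320) (a (l 16643344) (l 16658208))) (c (l 16650976) (a (l 16666168) (l 16659840)))) (b (c (l 16660072) (l 16649000)) (c (l 16660816) (l 16650288)))) (a (b (l 16622008) (l 16622592)) (c (l 16638272) (l 16624296)))) (a (a (b (b (l 16647736) (l 16648592)) (l 16649968)) (b (l 16635800) (l 16658144))) (a (b (l 16644312) (l 16645240)) (l 16610992)))) (b (a (a (l 16598352) (l 16607208)) (c (l 16598616) (l 16578904))) (a (c (l 16620328) (l 16604672)) (l 16544336)))) (a (a (b (b (l 16640136) (l 16647376)) (l 16651000)) (b (a (l 16646912) (l 16633200)) (l 16642896))) (b (a (l 16612400) (l 16584224)) (a (l 16613288) (l 16541208))))) (b (a (b (a (l 16542976)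 (l 16538632)) (a (l 16559536) (l 16532312))) (b (a (l 16512880) (l 16486672)) (a (l 16504616) (l 16476432)))) (a (b (a (l 16555544) (l 16526352)) (a (b (l 16553120) (l 16530944)) (b (l 16522400) (l 452078261047)))) (b (a (l 16496640) (l 16466400)) (a (l 390874893991) (l 1)))))), by decide +kernel⟩

def k3_pp_022 : ∃ t, chk3 f_pp_022 t 16 60 1 = true :=
  ⟨(a (b (a (l 16676616) (l 16646072)) (a (a (l 16687976) (l 16672344)) (b (l 16627000) (a (l 16657328) (c (l 16645744) (l 16626600)))))) (b (a (l 16594008) (a (l 16591280) (l 16575304))) (a (b (a (l 16624128) (l 16608048)) (a (b (l 16603872) (a (a (l 16631584) (l 16617048)) (b (l 16621200) (l 16600776)))) (b (a (l 16612656) (b (l 16604400) (l 16583632))) (c (a (a (l 16600328) (l 16596528)) (l 16590832)) (b (a (l 16606856) (l 16598256)) (l 16582544)))))) (b (a (c (l 16599544) (l 16584008)) (a (a (l 16581608) (l 16556536)) (b (l 16571320) (c (l 16559440) (l 16549096))))) (c (b (a (b (l 16599720) (a (l 16582712) (l 16585512)))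 (b (a (l 16577696) (b (a (l 16582352) (l 16557496)) (l 16559480))) (a (l 16567344) (c (l 16584848) (l 16576272))))) (a (a (l 16583208) (l 16575488)) (a (a (l 16569648) (l 16565736)) (c (l 16574360) (l 16571504))))) (b (a (b (a (l 16588768) (l 16579992)) (a (b (l 16588920) (l 16568136)) (b (a (l 16582352) (l 16557024)) (l 16580568)))) (b (a (b (l 16571144) (a (l 16552472) (b (l 16548024) (l 16548152)))) (b (a (l 16554048) (b (l 16549592) (a (l 16550752) (l 16538112)))) (a (c (l 16569184) (l 16549768)) (l 16549968)))) (a (a (l 16552960) (l 16548680)) (c (l 16557096) (a (l 16560992) (l 16546096)))))) (a (a (l 16569272) (a (l 16562848) (l 16569040))) (a (c (l 16566512) (a (l 16560824) (l 16559024))) (a (c (l 16560176) (b (l 16551480) (l 16555088))) (c (l 16555936) (b (l 16547056) (l 1)))))))))))), by decide +kernel⟩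

def k4_pp_022 : ∃ t, chk3 f_pp_022 t 16 244 1 = true :=
  ⟨(a (a (a (b (l 16690560) (l 16681728)) (b (l 16659064) (l 16676808))) (a (b (a (l 16662784) (l 16654824)) (l 16640120)) (c (a (l 16651608) (l 16644136)) (b (l 16617904) (l 16641376))))) (a (a (c (a (l 16636520) (l 16628832)) (c (l 16604608) (l 16599800))) (c (a (b (l 16620520) (l 16600672)) (b (l 16591800) (l 16592760))) (a (b (l 16609312) (l 16611400)) (b (l 16600744) (a (l 16583936) (l 16590080)))))) (b (a (c (a (l 16583992) (a (l 16578088) (l 16574128))) (a (a (l 16573312) (l 16579480)) (c (l 16576424) (b (l 16558520) (l 16570064))))) (a (c (c (l 16582184) (b (l 16574896) (l 16580528))) (c (a (l 16570040) (l 16568400)) (a (b (l 16572840) (l 16563384)) (b (l 16560528) (a (l 16560040) (l 1)))))) (a (c (l 16572648) (c (l 16561496) (b (l 16553456) (l 1)))) (l 1)))) (a (c (a (a (l 16586784) (l 16593264)) (c (l 16590288) (b (l 16573432) (l 16584392)))) (a (c (l 16586512) (a (l 16593288) (l 16578352))) (c (a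 (l 16580088) (b (l 16585904) (l 16576176))) (a (l 16579136) (b (l 16568888) (b (l 16569688) (l 16572848))))))) (a (a (c (c (l 16594832) (l 16577960)) (c (b (l 16571120) (l 16571856)) (b (a (l 16565536) (l 16565920)) (a (l 16569216) (l 1))))) (l 1)) (l 1)))))), by decide +kernel⟩

def k5_pp_022 : ∃ t, chk3 f_pp_022 t 16 245 1 = true :=
  ⟨(a (a (a (l 16676048) (c (l 16682728) (l 16679424))) (a (c (l 16667328) (l 16662432)) (c (a (l 16655576) (l 16647656)) (a (l 16649560) (l 16640928))))) (a (a (c (a (l 16639672) (b (l 16609904) (l 16611440))) (a (b (l 16630992) (l 16633552)) (b (l 16622320) (l 16624784)))) (c (a (b (l 16601888) (b (l 16602896) (l 16614088))) (b (a (l 16595832) (l 16602264)) (c (l 16607656) (a (l 16615880) (l 16601184))))) (a (b (l 16605736) (c (l 16607568) (l 16603400))) (b (c (l 16596872) (l 16591848)) (c (b (l 16598360) (l 16599392)) (a (l 16596656) (l 16597392))))))) (b (a (a (c (c (l 16598760) (a (l 16606096) (l 16591448))) (c (a (l 16590400)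 (l 16588696)) (a (l 16585128) (c (l 16582008) (l 16581896))))) (c (c (a (l 16592736) (l 16588696)) (a (l 16590544) (a (l 16584128) (l 16592520)))) (c (a (b (l 16581312) (l 16585784)) (b (l 16580416) (l 16580440))) (a (b (l 16578184) (a (l 16580488) (c (l 16587472) (l 16584720)))) (b (a (c (l 16584152) (l 16581200)) (l 16572568)) (a (l 16575976) (l 1))))))) (l 1)) (a (a (c (c (a (l 16601544) (l 16600072)) (a (l 16599584) (b (l 16592392) (l 16596016)))) (c (a (c (l 16593488) (l 16593776)) (b (l 16590088) (a (l 16590840) (c (l 16598992) (l 16596648))))) (a (b (l 16586992) (b (l 16587952) (l 16591232))) (b (c (l 16583728) (l 16583840)) (a (c (l 16596536) (l 24192376823)) (c (l 16594288) (b (l 16591576) (l 16592256)))))))) (b (a (c (a (l 16594336) (l 16589632)) (c (a (l 16584184) (l 16592480)) (a (c (l 16590848) (a (l 16588856) (l 16587720))) (l 16579440)))) (l 1)) (l 1))) (l 1))))), by decide +kernel⟩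

def k6_pp_022 : ∃ t, chk3 f_pp_022 t 16 123 1 = true :=
  ⟨(a (l 6) (a (l 6) (a (a (a (l 6) (a (l 6) (l 1))) (l 1)) (l 1)))), by decide +kernel⟩

def k7_pp_022 : ∃ t, chk3 f_pp_022 t 16 31 1 = true :=
  ⟨(a (l 6) (a (l 6) (l 1))), by decide +kernel⟩

def k8_pp_022 : ∃ t, chk3 f_pp_022 t 17 15 1 = true :=
  ⟨(b (b (a (a (a (a (b (l 16563224) (b (a (c (l 16553672) (a (l 16546160) (l 678637917767))) (a (l 633540761319) (l 592201696007))) (a (a (b (c (l 16565144) (b (b (b (l 16546280) (l 16546448)) (l 16546736)) (l 1))) (l 1)) (l 1)) (l 1)))) (b (l 16555128) (b (b (l 16533864) (l 1)) (l 1)))) (b (l 464963277271) (l 1))) (l 1)) (l 1)) (l 1)) (l 1)), by decide +kernel⟩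

def k9_pp_022 : ∃ t, chk3 f_pp_022 t 9 3 1 = true :=
  ⟨(b (b (b (a (a (l 16547208) (l 16498576)) (a (l 16470072) (l 16440664))) (a (a (l 16457656) (l 16444208)) (a (l 16387696) (l 1)))) (a (b (a (c (l 16490824) (l 16475192)) (a (l 16441608) (l 16420480))) (a (b (l 16431464) (c (l 16479008) (l 16440576))) (b (l 16384240) (l 1)))) (b (a (l 16304200) (l 1)) (l 1)))) (b (b (a (a (b (a (l 16460016) (l 16432880)) (a (l 16447744) (l 1))) (l 1)) (l 1)) (l 1)) (l 1))), by decide +kernel⟩

def k10_pp_022 : ∃ t, chk3 f_pp_022 t 5 3 1 = true :=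
  ⟨(b (l 1) (l 1)), by decide +kernel⟩

def k11_pp_022 : ∃ t, chk3 f_pp_022 t 3 1 1 = true :=
  ⟨(l 1), by decide +kernel⟩

theorem s12_pp_022 : ∃ t, chk3 f_pp_022 t 16 122 1 = true := ex3_b k4_pp_022 k5_pp_022

theorem s13_pp_022 : ∃ t, chk3 f_pp_022 t 16 61 1 = true := ex3_b s12_pp_022 k6_pp_022

theorem s14_pp_022 : ∃ t, chk3 f_pp_022 t 16 30 1 = true := ex3_b k3_pp_022 s13_pp_022

theorem s15_pp_022 : ∃ t, chk3 f_pp_022 t 16 15 1 = true := ex3_b s14_pp_022 k7_pp_022

theorem s16_pp_022 : ∃ t, chk3 f_pp_022 t 8 15 1 = true := ex3_a s15_pp_022 k8_pp_022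

theorem s17_pp_022 : ∃ t, chk3 f_pp_022 t 8 7 1 = true := ex3_b k2_pp_022 s16_pp_022

theorem s18_pp_022 : ∃ t, chk3 f_pp_022 t 8 3 1 = true := ex3_b k1_pp_022 s17_pp_022

theorem s19_pp_022 : ∃ t, chk3 f_pp_022 t 4 3 1 = true := ex3_a s18_pp_022 k9_pp_022

theorem s20_pp_022 : ∃ t, chk3 f_pp_022 t 2 3 1 = true := ex3_a s19_pp_022 k10_pp_022

theorem s21_pp_022 : ∃ t, chk3 f_pp_022 t 2 1 1 = true := ex3_b k0_pp_022 s20_pp_022

theorem s22_pp_022 : ∃ t, chk3 f_pp_022 t 1 1 1 = true := ex3_a s21_pp_022 k11_pp_022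

theorem c_pp_022 : CertB 0 536870912 0 536870912 1020054732 13421774 3 eng mog cd1q0 cd0q2 pd2 false true true .pp 0 2 2
    ndB1q0 ndB0q2 pcB2 cut_pp_022 Ext.none :=
  certB2 (fam := false) (s1 := true) (s2 := true) (a := 0) (b := 2) (c := 2) (cn := .pp) (n1 := ndB1q0) (n2 := ndB0q2) (pc := pcB2) (cut := cut_pp_022) (xt := Ext.none) (P1 := 0) (W1 := 536870912) (P2 := 0) (W2 := 536870912) (P3 := 1020054732) (W3 := 13421774) (N0 := 3) (En := eng) (mo := mog) (C1 := cd1q0) (C2 := cd0q2) (C3 := pd2)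
    rfl (fun _ => rfl) s22_pp_022

noncomputable def f_pp_101 : ℕ → ℕ → ℕ → ℕ → Bool := onCell 536870912 536870912 536870912 536870912 1020054732 13421774
    (rowB 3 eng mog cd1q1 cd0q1 pd0 0 false true true .npn 1 0 1 (qsf 536870912 536870912 536870912 536870912 0) ndB1q1 ndB0q1 pcB0 Cut.none Ext.none)

def k0_pp_101 : ∃ t, chk3 f_pp_101 t 1 1 1 = true :=
  ⟨(l 3), by decide +kernel⟩

theorem c_pp_101 : CertB 536870912 536870912 536870912 536870912 1020054732 13421774 3 eng mog cd1q1 cd0q1 pd0 false true true .npn 1 0 1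
    ndB1q1 ndB0q1 pcB0 Cut.none Ext.none :=
  certB0 (fam := false) (s1 := true) (s2 := true) (a := 1) (b := 0) (c := 1) (cn := .npn) (n1 := ndB1q1) (n2 := ndB0q1) (pc := pcB0) (cut := Cut.none) (xt := Ext.none) (P1 := 536870912) (W1 := 536870912) (P2 := 536870912) (W2 := 536870912) (P3 := 1020054732) (W3 := 13421774) (N0 := 3) (En := eng) (mo := mog) (C1 := cd1q1) (C2 := cd0q1) (C3 := pd0)
    rfl k0_pp_101

noncomputable def f_pp_102 : ℕ → ℕ → ℕ → ℕ → Bool := onCell 0 536870912 0 536870912 1020054732 13421774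
    (rowB 3 eng mog cd1q1 cd0q2 pd0 2 false true true .npp 1 0 2 (qsf 536870912 536870912 0 536870912 0) ndB1q1 ndB0q2 pcB0 Cut.none Ext.none)

def k0_pp_102 : ∃ t, chk3 f_pp_102 t 1 1 1 = true :=
  ⟨(b (a (l 3) (a (l 3) (a (l 3) (b (b (b (c (a (a (l 71034218455) (b (l 16544408) (l 72644825863))) (a (a (l 127942517911) (l 16563872)) (l 16573016))) (a (a (l 73181742807) (b (l 100562184775) (l 74792403703))) (a (a (l 134921935991) (l 16556344)) (l 16561640)))) (a (l 3) (a (a (l 3) (c (l 60296724535) (l 60833812871))) (c (b (a (l 100562065527) (l 109152070199)) (l 54928005271)) (b (a (l 104857242839) (l 111836572439)) (c (l 55465121399) (l 57612634071))))))) (l 3)) (l 3))))) (l 3)), by decide +kernel⟩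

theorem c_pp_102 : CertB 536870912 536870912 0 536870912 1020054732 13421774 3 eng mog cd1q1 cd0q2 pd0 false true true .npp 1 0 2
    ndB1q1 ndB0q2 pcB0 Cut.none Ext.none :=
  certB2 (fam := false) (s1 := true) (s2 := true) (a := 1) (b := 0) (c := 2) (cn := .npp) (n1 := ndB1q1) (n2 := ndB0q2) (pc := pcB0) (cut := Cut.none) (xt := Ext.none) (P1 := 536870912) (W1 := 536870912) (P2 := 0) (W2 := 536870912) (P3 := 1020054732) (W3 := 13421774) (N0 := 3) (En := eng) (mo := mog) (C1 := cd1q1) (C2 := cd0q2) (C3 := pd0)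
    rfl (fun _ => rfl) k0_pp_102

noncomputable def f_pp_112 : ℕ → ℕ → ℕ → ℕ → Bool := onCell 536870912 536870912 0 536870912 1020054732 13421774
    (rowB 3 eng mog cd1q1 cd0q2 pd1 2 false true true .dn 1 1 2 (qsf 536870912 536870912 0 536870912 1) ndB1q1 ndB0q2 pcB1 Cut.none Ext.none)

def k0_pp_112 : ∃ t, chk3 f_pp_112 t 8 8 1 = true :=
  ⟨(b (c (a (a (b (l 16279552) (c (l 16406608) (l 16492024))) (c (l 16287200) (l 16486072))) (a (c (l 16305728) (l 16458872)) (l 16164584))) (a (a (c (l 16546464) (l 16598776)) (c (l 16575344) (l 16636128))) (a (l 16511536) (l 16536312)))) (b (a (a (c (c (a (b (l 16480464) (l 16484920)) (l 16464392)) (a (l 16531040) (l 16554832))) (c (a (l 16604896) (l 16639000)) (a (l 16615632) (l 16645136)))) (c (c (l 16339968) (l 16524224)) (c (l 16607648) (l 16634768)))) (c (a (c (l 16375328) (l 16499720)) (l 16279264)) (a (l 16526520) (l 16570632)))) (a (a (c (a (c (b (b (l 16461304) (l 70497246199)) (l 16533328)) (c (l 89287860599) (l 90898547815)))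 (b (c (l 16501432) (l 16576152)) (c (a (l 87677113975) (l 122036817959)) (a (l 16568672) (l 16521168))))) (c (a (b (l 91435471991) (l 16648376)) (b (l 16644288) (l 108615332279))) (a (l 93583003447) (b (l 16643432) (l 110762894119))))) (c (c (a (b (l 16473168) (l 16479776)) (l 16415880)) (a (b (l 16558504) (l 16529992)) (l 16506456))) (a (b (l 16589416) (c (l 16618864) (l 16638304))) (c (l 16610592) (l 16643624))))) (c (a (a (c (l 16432200) (l 16532696)) (l 16338216)) (a (l 16341432) (l 16346248))) (a (c (l 16581104) (l 16647856)) (l 16522512)))))), by decide +kernel⟩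

def k1_pp_112 : ∃ t, chk3 f_pp_112 t 8 18 1 = true :=
  ⟨(a (a (l 3) (b (b (a (c (c (a (l 76402815351) (b (l 16507128) (l 16513920))) (a (l 16541096) (l 113983904135))) (c (b (l 97877910119) (l 16597904)) (l 101636106599))) (c (c (a (l 16477744) (l 16485248)) (a (l 16550792) (l 16563496))) (c (l 136532592583) (l 140827690007)))) (a (l 3) (c (c (a (l 65128605943) (b (l 16480272) (l 16505752))) (a (l 16534224) (l 102172735223))) (c (b (l 87140482519) (l 16591920)) (l 96804287719))))) (l 3))) (a (a (b (c (c (b (l 16465432) (a (b (l 16488384) (l 16477080)) (l 16459576))) (b (l 16530408) (a (l 119889453495) (l 16559360)))) (c (c (l 134921973399) (l 137069533335)) (c (l 16637328) (l 140827704023)))) (b (c (a (a (l 3) (l 57075524519)) (b (c (l 83919020935) (l 98414632567)) (l 53854287463))) (c (a (l 16629280) (l 91972312487)) (l 85529978263))) (l 3))) (b (c (b (l 16384472) (c (l 16419472) (l 16505864))) (c (l 16582504) (l 16634768))) (a (b (c (c (b (l 16483376) (l 99488267799))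 (b (l 16560096) (l 107004562087))) (c (l 130090141527) (l 138680211447))) (l 3)) (b (c (c (l 16433800) (l 16513248)) (c (l 16625168) (l 16644904))) (b (c (c (l 91972065207) (l 97340881079)) (c (l 99488503783) (l 16638928))) (l 3)))))) (b (c (a (c (l 16385240) (l 16527952)) (c (l 16405232) (l 16515216))) (c (l 16534112) (l 16640592))) (c (a (b (c (c (l 16434032) (l 16479984)) (l 16540312)) (c (a (b (l 16436248) (l 83918991447)) (b (l 16466032) (l 115594346503))) (a (b (l 16534688) (l 88214070823)) (b (l 16548488) (l 132237465847))))) (a (b (l 16404264) (c (l 16417016) (l 16544040))) (c (l 16375200) (l 16511560)))) (c (a (b (l 16621456) (c (l 110762838791) (l 115594745159))) (b (l 16617424) (l 16565280))) (a (b (l 16647416) (c (l 117205353367) (l 118816013639))) (b (l 16672456) (l 16627224)))))))), by decide +kernel⟩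

def k2_pp_112 : ∃ t, chk3 f_pp_112 t 8 19 1 = true :=
  ⟨(b (a (l 3) (a (l 3) (a (a (l 3) (b (c (c (b (l 75865919143) (l 3)) (l 65665480455)) (c (l 66739359847) (l 67276338487))) (l 3))) (b (c (a (c (b (a (l 118278707143) (l 16449152)) (l 67275975095)) (b (l 123647527079) (l 68886705815))) (c (b (l 16440392) (a (l 108078151127) (l 16425568))) (c (l 127942480999) (l 16564848)))) (c (c (a (l 106467864423) (l 16599864)) (l 108078542855)) (c (l 109689150887) (l 110762941527)))) (a (l 3) (c (c (l 54927932247) (l 52780565335)) (c (l 53317576695) (l 53854555879)))))))) (l 3)), by decide +kernel⟩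

def k3_pp_112 : ∃ t, chk3 f_pp_112 t 8 5 1 = true :=
  ⟨(l 3), by decide +kernel⟩

def k4_pp_112 : ∃ t, chk3 f_pp_112 t 9 8 1 = true :=
  ⟨(b (c (b (a (a (l 16252232) (l 16156712)) (a (l 16198128) (l 16317968))) (a (l 16086352) (a (l 16237064) (l 16168184)))) (a (a (l 16481792) (l 16496376)) (c (l 16471736) (l 16645232)))) (a (c (a (b (l 16294816) (l 16262208)) (l 16161664)) (c (l 16506320) (l 16601008))) (c (a (l 16215040) (l 16148824)) (a (l 16535376) (l 16512640))))), by decide +kernel⟩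

def k5_pp_112 : ∃ t, chk3 f_pp_112 t 9 18 1 = true :=
  ⟨(c (a (a (b (a (l 16319592) (l 16347400)) (a (b (l 16362144) (a (l 16380272) (l 16392984))) (b (l 16368032) (l 16339416)))) (b (l 16224512) (a (l 16298048) (l 16327952)))) (a (c (l 16253288) (l 16457784)) (b (l 16315112) (l 16278512)))) (c (a (a (b (l 16613352) (a (l 16593520) (l 16612608))) (l 16550024)) (a (l 16596520) (l 16605400))) (a (a (c (l 16642144) (l 16656416)) (l 16636152)) (l 16603448)))), by decide +kernel⟩

def k6_pp_112 : ∃ t, chk3 f_pp_112 t 36 19 1 = true :=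
  ⟨(a (b (b (c (c (a (b (l 16450080) (l 16417088)) (l 16401672)) (c (l 16495248) (l 16557400))) (a (c (l 16614816) (l 16637368)) (c (l 16613272) (l 16660720)))) (c (c (a (b (c (l 94119470167) (l 96803927975)) (l 50096087223)) (b (l 16414760) (c (a (l 84992669687) (l 16418584)) (l 95730182439)))) (a (c (l 89824656455) (l 92509139495)) (b (l 16540552) (a (l 90361527335) (l 128479355367))))) (c (c (a (l 95193564727) (l 131700782791)) (l 104857308167)) (c (l 102709819367) (l 103246738471))))) (a (l 3) (c (c (l 52243551927) (l 55464889799)) (c (l 55465029399) (l 54928267959))))) (b (c (c (b (l 16365168) (a (c (l 16405560) (l 16472968)) (l 16376872))) (b (l 16525552) (c (l 16512672) (l 16553944)))) (c (a (c (l 16592808) (l 16629520)) (l 16547552)) (a (c (l 16663528) (l 16653008)) (l 16619416)))) (b (c (a (b (c (c (a (l 73181501863) (l 107541227319)) (l 95193304423)) (c (l 97877713319) (l 16558760))) (l 3)) (b (c (c (l 16397264) (l 16474456)) (l 142974909623)) (c (a (l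 62980961495) (b (l 118278654295) (l 66739055095))) (c (l 88214030631) (l 16556160))))) (c (c (a (l 83919265047) (l 120426484999)) (l 106467911671)) (c (l 102172938839) (a (l 81235026167) (l 122037217719))))) (l 3)))), by decide +kernel⟩

def k7_pp_112 : ∃ t, chk3 f_pp_112 t 37 19 1 = true :=
  ⟨(b (c (c (a (c (l 16343824) (l 16443672)) (l 16333136)) (a (b (l 16515416) (l 16502088)) (l 16489424))) (a (c (l 16546592) (l 16624072)) (a (l 16547792) (l 16550008)))) (c (a (b (c (c (a (b (l 16415552) (a (l 16402392) (l 16421600))) (l 16386344)) (a (l 135458580247) (l 16460248))) (a (c (l 133848096807) (l 16552544)) (l 16506768))) (a (b (a (c (l 51169793463) (l 61907440647)) (c (c (l 84455762951) (l 16458888)) (l 94119682119))) (l 3)) (b (c (c (a (a (l 112373052071) (l 16406856)) (l 16407424)) (l 122036816439)) (c (l 132237426439) (l 16551664))) (c (a (l 39358625655) (c (l 71570859591) (l 16450616))) (l 74255431591))))) (b (c (a (l 16384760) (l 16394576)) (l 16478752)) (c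 (c (a (b (l 16408464) (a (b (l 16407896) (l 81771409079)) (l 130089776311))) (b (l 16396240) (l 16394680))) (a (b (l 16461800) (l 115057489175)) (l 16456912))) (a (c (l 129016240983) (l 134921910919)) (c (l 16503008) (l 16545560)))))) (a (c (c (b (l 151028119991) (a (l 72108094615) (l 108615316263))) (b (l 155860033655) (a (l 74255646135) (l 112373482951)))) (c (b (l 156933776407) (l 91972381991)) (c (l 120963463399) (a (l 112373555799) (l 135995879623))))) (c (c (c (l 149417475191) (l 151564999271)) (c (l 153712523415) (l 154249395927))) (c (a (l 153175668135) (l 16658280)) (c (l 156396952775) (l 157470719239))))))), by decide +kernel⟩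

def k8_pp_112 : ∃ t, chk3 f_pp_112 t 19 19 1 = true :=
  ⟨(b (c (a (a (c (l 16375128) (l 16503088)) (l 16304824)) (c (l 16330160) (l 16487808))) (a (a (l 16553960) (l 16560384)) (l 16530664))) (c (c (a (a (c (c (l 16357576) (l 16390960)) (l 16397608)) (b (l 16379632) (l 16353384))) (a (l 16348056) (l 16352360))) (a (a (b (l 16512672) (l 16476544)) (l 16466976)) (l 16438968))) (c (a (a (b (l 16606544) (l 16561408)) (l 16606728)) (l 16591112)) (a (a (b (l 16664976) (l 16611776)) (l 16646976)) (l 16641168))))), by decide +kernel⟩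

def k9_pp_112 : ∃ t, chk3 f_pp_112 t 18 10 1 = true :=
  ⟨(b (b (b (a (l 3) (a (l 3) (a (a (l 3) (c (c (c (l 50632873847) (l 57075439271)) (l 61370521479)) (c (l 56001899783) (l 56538885335)))) (c (c (c (b (a (b (l 116131137223) (l 63517793031)) (c (l 135995299383) (l 16426056))) (l 45264171127)) (b (l 107541291111) (l 16449888))) (b (c (l 110225767319) (l 115057685511)) (l 57075553527))) (c (c (l 97341018567) (l 100562314231)) (c (l 95193609495) (l 95730523975))))))) (l 3)) (l 3)) (l 3)), by decide +kernel⟩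

def k10_pp_112 : ∃ t, chk3 f_pp_112 t 19 40 2 = true :=
  ⟨(c (c (a (a (b (a (b (c (l 16365456) (l 16417592)) (a (b (c (l 115594212711) (l 16426320)) (l 45801048311)) (b (l 16405680) (c (l 107004276055) (l 16424576))))) (b (l 16390472) (c (l 16362480) (l 16414720)))) (a (l 49559115175) (b (c (b (a (l 98414338103) (l 16387216)) (a (l 3) (l 89824401095))) (a (l 78550172407) (l 104320002311))) (l 3)))) (b (c (l 16319776) (l 16394576)) (a (b (c (a (l 148343310983) (l 16377800)) (l 16412024)) (c (b (a (l 81234464615) (l 16371536)) (l 62443975031)) (a (l 67812747543) (l 91435098583)))) (b (l 16385488) (c (a (b (l 16378736) (l 123647266407)) (l 16375328)) (l 124184213543)))))) (a (b (l 16336632) (c (b (l 16353288) (l 16340888)) (l 16348608))) (l 16283968))) (a (a (b (a (b (l 16458304) (a (l 88750812423) (l 16440840))) (l 16432800)) (a (l 58686037543) (c (l 74792144631) (l 80160908535)))) (b (l 16422264) (a (b (l 16434056) (a (l 65128480711) (l 100025083879))) (b (l 16448280)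 (l 139753515143))))) (a (b (l 16425936) (l 16413232)) (l 16416808)))) (a (a (b (a (b (l 16503648) (c (l 104857050663) (l 111299585175))) (c (l 16500096) (l 16542656))) (a (l 63517994519) (c (l 81771573799) (l 82845420903)))) (b (b (l 16494320) (l 16475672)) (a (b (c (l 16500384) (l 16541808)) (c (l 92508992487) (l 94119708215))) (c (l 16480952) (l 16513648))))) (a (b (l 16489744) (a (l 16474096) (l 16492392))) (l 16466456)))), by decide +kernel⟩

def k11_pp_112 : ∃ t, chk3 f_pp_112 t 19 40 3 = true :=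
  ⟨(c (a (c (a (b (a (l 133848239415) (l 16581656)) (a (l 16575728) (l 85529850151))) (b (l 16581104) (a (l 122573943735) (l 16578656)))) (a (b (a (l 138680150487) (l 16617320)) (l 79624339111)) (c (l 144048797335) (l 144585695607)))) (a (c (l 16559352) (l 16620616)) (l 16583792))) (a (c (a (c (l 107004750807) (l 107541647079)) (c (l 145659464967) (l 146196361143))) (a (b (a (l 135995846135) (l 16658608)) (a (l 41506552807) (l 82308742551))) (b (l 16665664) (a (l 123110935111) (l 163376260007))))) (a (c (l 16636152) (l 16647960)) (l 16621200)))), by decide +kernel⟩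

def k12_pp_112 : ∃ t, chk3 f_pp_112 t 38 41 1 = true :=
  ⟨(a (l 3) (a (l 3) (b (b (c (c (c (c (b (a (l 62443988567) (l 114520457431)) (l 51706553159)) (a (l 16395416) (l 79087067191))) (l 77476500023)) (c (l 84992796471) (l 85529769783))) (c (c (l 16575256) (l 16608120)) (c (l 16643288) (l 86066842967)))) (l 3)) (l 3)))), by decide +kernel⟩

def k13_pp_112 : ∃ t, chk3 f_pp_112 t 39 41 1 = true :=
  ⟨(a (b (c (a (b (c (c (c (a (b (l 16376336) (l 105930519415)) (l 16373072)) (b (l 16384352) (l 124184167063))) (l 130626706423)) (c (l 16476360) (l 16538744))) (b (c (c (c (a (l 16360976) (l 96803710535)) (l 85529467399)) (l 81234593415)) (l 88750913431)) (l 3))) (c (b (c (l 16339408) (l 16445208)) (c (c (b (l 16350568) (a (l 94119352647) (l 16373136))) (b (l 16382328) (l 118815453175))) (a (l 111299358535) (l 16428256)))) (c (l 138679870263) (l 141364283543)))) (c (c (a (l 111299648119) (l 147806870455)) (a (l 115057816503) (l 153175654775))) (c (a (l 108615368263)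 (l 148343819143)) (a (l 109689153527) (l 149954477463))))) (a (l 3) (a (l 3) (b (c (b (c (c (c (l 82845073015) (l 16386424)) (l 16430424)) (l 16495816)) (l 3)) (c (l 81234914023) (l 76403098183))) (l 3))))) (c (b (c (a (c (c (l 16338256) (l 16370968)) (l 16419392)) (c (l 16345312) (l 16432648))) (c (l 16468824) (l 16535384))) (c (a (b (c (c (a (b (l 16351168) (l 74792006455)) (b (l 16367184) (l 122573508999))) (a (l 102172453383) (l 16380000))) (a (l 99488194695) (l 16426888))) (c (c (l 57612113223) (l 44190442119)) (l 56001649735))) (b (c (a (l 16338520) (l 16354864)) (l 16442168)) (c (c (a (b (l 113983572183) (l 16361888)) (b (l 16365672) (l 105393635767))) (a (l 90361289751) (l 126331634439))) (a (l 89287643655) (l 16425264))))) (a (b (c (l 119889394215) (l 123110726615)) (l 63517971799)) (c (l 127405575783) (l 129016243767))))) (c (c (b (l 16576920) (a (l 99488481847) (l 136532576775))) (b (l 16614576) (a (l 103246649959) (l 141364489799)))) (c (c (l 132237673815)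 (l 133311440279)) (b (l 16637144) (a (l 96804243543) (l 137069567335))))))), by decide +kernel⟩

def k14_pp_112 : ∃ t, chk3 f_pp_112 t 19 21 1 = true :=
  ⟨(a (l 3) (a (l 3) (b (b (a (l 3) (c (c (c (c (l 49559037367) (l 50095968807)) (l 49022320103)) (l 55464901527)) (c (l 50096279719) (c (l 59760157495) (l 50096464487))))) (l 3)) (l 3)))), by decide +kernel⟩

def k15_pp_112 : ∃ t, chk3 f_pp_112 t 9 11 1 = true :=
  ⟨(l 3), by decide +kernel⟩

def k16_pp_112 : ∃ t, chk3 f_pp_112 t 5 4 1 = true :=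
  ⟨(a (a (b (b (c (l 16076288) (l 16536592)) (c (a (c (l 16207144) (l 16402328)) (c (l 16186784) (l 16402016))) (c (l 16513944) (l 16674384)))) (c (b (a (l 16222936) (l 16271120)) (a (b (l 16280792) (c (l 16330744) (l 16488344))) (c (l 16232008) (l 16465408)))) (b (c (l 16575728) (l 16654368)) (a (b (l 16551656) (l 16533488)) (l 16526144))))) (b (l 1) (l 1))) (l 1)), by decide +kernel⟩

def k17_pp_112 : ∃ t, chk3 f_pp_112 t 40 10 1 = true :=
  ⟨(b (c (b (c (c (l 16259184) (l 16396056)) (l 16421064)) (a (c (c (b (l 16332216) (a (a (c (l 16337920) (l 16391488)) (l 16328864)) (l 16343448))) (b (l 16421824) (a (l 16422152) (l 16430872)))) (b (l 16488888) (c (l 16467664) (l 16533976)))) (c (c (b (l 16337424) (l 16331488)) (l 16414984)) (b (l 16508280) (l 16488960))))) (c (b (l 16571416) (a (a (c (l 16576640) (l 16614928)) (l 16572672)) (l 16582600))) (b (l 16638792) (a (b (l 16633016) (c (l 16624576) (l 16633440))) (l 16616776))))) (b (a (b (a (b (c (c (c (a (b (a (l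 85529389911) (l 120962866471)) (l 47948427239)) (b (l 16338528) (a (l 73181357751) (l 109688575815)))) (l 93582601351)) (c (l 103246390887) (l 105930852487))) (c (c (l 16570032) (l 16603592)) (a (l 86603640039) (l 126868960407)))) (l 3)) (c (c (c (c (b (l 145122058999) (a (l 74791990119) (b (l 16363344) (l 82845051207)))) (b (l 16371096) (a (l 79623866279) (l 102709309607)))) (b (l 16429496) (l 95730083047))) (c (l 116131282743) (l 116668204999))) (c (c (l 124721412615) (l 130090195463)) (c (l 122573999735) (l 123647786487))))) (l 3)) (c (b (c (c (a (c (c (l 125794714999) (l 16368384)) (l 146195822263)) (l 16321632)) (a (b (l 16433336) (l 16423456)) (l 16430032))) (a (b (l 16490144) (l 148343556615)) (l 16489632))) (c (a (b (c (c (a (l 65128310823) (l 86603140919)) (l 93045627047)) (l 88750758919)) (l 3)) (c (a (b (c (l 121499742311) (l 16371512)) (l 59222701239)) (b (l 16351776) (l 1))) (b (l 128479206791) (l 81771434871)))) (a (a (l 67812926935) (l 76402858599))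 (c (l 105393861863) (l 103783296743))))) (c (c (b (l 157470474999) (a (l 87677310183) (l 113983990615))) (b (l 160154904199) (l 104857183351))) (c (c (l 119352753783) (l 119889648631)) (b (b (l 16675800) (l 162839369911)) (a (l 81771842631) (l 110762876759))))))) (l 3))), by decide +kernel⟩

def k18_pp_112 : ∃ t, chk3 f_pp_112 t 41 10 1 = true :=
  ⟨(a (b (c (a (b (l 16357192) (b (l 16373768) (l 1351336798023))) (l 1452268431607)) (c (l 16576488) (l 16623600))) (b (l 1) (l 1))) (l 1)), by decide +kernel⟩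

def k19_pp_112 : ∃ t, chk3 f_pp_112 t 20 11 1 = true :=
  ⟨(l 3), by decide +kernel⟩

def k20_pp_112 : ∃ t, chk3 f_pp_112 t 21 5 1 = true :=
  ⟨(l 1), by decide +kernel⟩

def k21_pp_112 : ∃ t, chk3 f_pp_112 t 11 5 1 = true :=
  ⟨(l 1), by decide +kernel⟩

def k22_pp_112 : ∃ t, chk3 f_pp_112 t 2 3 1 = true :=
  ⟨(b (a (l 3) (l 1)) (l 3)), by decide +kernel⟩

def k23_pp_112 : ∃ t, chk3 f_pp_112 t 3 1 1 = true :=
  ⟨(l 1), by decide +kernel⟩

theorem s24_pp_112 : ∃ t, chk3 f_pp_112 t 20 10 1 = true := ex3_a k17_pp_112 k18_pp_112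

theorem s25_pp_112 : ∃ t, chk3 f_pp_112 t 20 5 1 = true := ex3_b s24_pp_112 k19_pp_112

theorem s26_pp_112 : ∃ t, chk3 f_pp_112 t 10 5 1 = true := ex3_a s25_pp_112 k20_pp_112

theorem s27_pp_112 : ∃ t, chk3 f_pp_112 t 5 5 1 = true := ex3_a s26_pp_112 k21_pp_112

theorem s28_pp_112 : ∃ t, chk3 f_pp_112 t 5 2 1 = true := ex3_b k16_pp_112 s27_pp_112

theorem s29_pp_112 : ∃ t, chk3 f_pp_112 t 19 41 1 = true := ex3_a k12_pp_112 k13_pp_112

theorem s30_pp_112 : ∃ t, chk3 f_pp_112 t 19 40 1 = true := ex3_c k10_pp_112 k11_pp_112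

theorem s31_pp_112 : ∃ t, chk3 f_pp_112 t 19 20 1 = true := ex3_b s30_pp_112 s29_pp_112

theorem s32_pp_112 : ∃ t, chk3 f_pp_112 t 19 10 1 = true := ex3_b s31_pp_112 k14_pp_112

theorem s33_pp_112 : ∃ t, chk3 f_pp_112 t 9 10 1 = true := ex3_a k9_pp_112 s32_pp_112

theorem s34_pp_112 : ∃ t, chk3 f_pp_112 t 9 5 1 = true := ex3_b s33_pp_112 k15_pp_112

theorem s35_pp_112 : ∃ t, chk3 f_pp_112 t 18 19 1 = true := ex3_a k6_pp_112 k7_pp_112

theorem s36_pp_112 : ∃ t, chk3 f_pp_112 t 9 19 1 = true := ex3_a s35_pp_112 k8_pp_112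

theorem s37_pp_112 : ∃ t, chk3 f_pp_112 t 9 9 1 = true := ex3_b k5_pp_112 s36_pp_112

theorem s38_pp_112 : ∃ t, chk3 f_pp_112 t 9 4 1 = true := ex3_b k4_pp_112 s37_pp_112

theorem s39_pp_112 : ∃ t, chk3 f_pp_112 t 9 2 1 = true := ex3_b s38_pp_112 s34_pp_112

theorem s40_pp_112 : ∃ t, chk3 f_pp_112 t 8 9 1 = true := ex3_b k1_pp_112 k2_pp_112

theorem s41_pp_112 : ∃ t, chk3 f_pp_112 t 8 4 1 = true := ex3_b k0_pp_112 s40_pp_112

theorem s42_pp_112 : ∃ t, chk3 f_pp_112 t 8 2 1 = true := ex3_b s41_pp_112 k3_pp_112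

theorem s43_pp_112 : ∃ t, chk3 f_pp_112 t 4 2 1 = true := ex3_a s42_pp_112 s39_pp_112

theorem s44_pp_112 : ∃ t, chk3 f_pp_112 t 2 2 1 = true := ex3_a s43_pp_112 s28_pp_112

theorem s45_pp_112 : ∃ t, chk3 f_pp_112 t 2 1 1 = true := ex3_b s44_pp_112 k22_pp_112

theorem s46_pp_112 : ∃ t, chk3 f_pp_112 t 1 1 1 = true := ex3_a s45_pp_112 k23_pp_112

theorem c_pp_112 : CertB 536870912 536870912 0 536870912 1020054732 13421774 3 eng mog cd1q1 cd0q2 pd1 false true true .dn 1 1 2
    ndB1q1 ndB0q2 pcB1 Cut.none Ext.none :=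
  certB2 (fam := false) (s1 := true) (s2 := true) (a := 1) (b := 1) (c := 2) (cn := .dn) (n1 := ndB1q1) (n2 := ndB0q2) (pc := pcB1) (cut := Cut.none) (xt := Ext.none) (P1 := 536870912) (W1 := 536870912) (P2 := 0) (W2 := 536870912) (P3 := 1020054732) (W3 := 13421774) (N0 := 3) (En := eng) (mo := mog) (C1 := cd1q1) (C2 := cd0q2) (C3 := pd1)
    rfl (fun _ => rfl) s46_pp_112

noncomputable def f_pp_202_a : ℕ → ℕ → ℕ → ℕ → Bool := onCell 0 536870912 0 536870912 1020054732 13421774
    (rowB 3 eng mog cd1q2a cd0q2 pd0 0 false true true .pp 2 0 2 (qsf 0 536870912 0 536870912 0) ndB1q2a ndB0q2 pcB0 Cut.none Ext.none)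

def k0_pp_202_a : ∃ t, chk3 f_pp_202_a t 1 1 1 = true :=
  ⟨(l 3), by decide +kernel⟩

theorem c_pp_202_a : CertB 0 536870912 0 536870912 1020054732 13421774 3 eng mog cd1q2a cd0q2 pd0 false true true .pp 2 0 2
    ndB1q2a ndB0q2 pcB0 Cut.none Ext.none :=
  certB0 (fam := false) (s1 := true) (s2 := true) (a := 2) (b := 0) (c := 2) (cn := .pp) (n1 := ndB1q2a) (n2 := ndB0q2) (pc := pcB0) (cut := Cut.none) (xt := Ext.none) (P1 := 0) (W1 := 536870912) (P2 := 0) (W2 := 536870912) (P3 := 1020054732) (W3 := 13421774) (N0 := 3) (En := eng) (mo := mog) (C1 := cd1q2a) (C2 := cd0q2) (C3 := pd0)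
    rfl k0_pp_202_a

noncomputable def f_pp_202_b : ℕ → ℕ → ℕ → ℕ → Bool := onCell 1239849684 370763052 0 536870912 1020054732 13421774
    (rowB 3 eng mog cd1q2b cd0q2 pd0 0 false true true .pp 2 0 2 (qsf 1239849684 370763052 0 536870912 0) ndB1q2b ndB0q2 pcB0 Cut.none Ext.none)

def k0_pp_202_b : ∃ t, chk3 f_pp_202_b t 1 1 1 = true :=
  ⟨(l 3), by decide +kernel⟩

theorem c_pp_202_b : CertB 1239849684 370763052 0 536870912 1020054732 13421774 3 eng mog cd1q2b cd0q2 pd0 false true true .pp 2 0 2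
    ndB1q2b ndB0q2 pcB0 Cut.none Ext.none :=
  certB0 (fam := false) (s1 := true) (s2 := true) (a := 2) (b := 0) (c := 2) (cn := .pp) (n1 := ndB1q2b) (n2 := ndB0q2) (pc := pcB0) (cut := Cut.none) (xt := Ext.none) (P1 := 1239849684) (W1 := 370763052) (P2 := 0) (W2 := 536870912) (P3 := 1020054732) (W3 := 13421774) (N0 := 3) (En := eng) (mo := mog) (C1 := cd1q2b) (C2 := cd0q2) (C3 := pd0)
    rfl k0_pp_202_b

noncomputable def f_pm_001 : ℕ → ℕ → ℕ → ℕ → Bool := onCell 0 536870912 536870912 536870912 1020054732 13421774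
    (rowB 3 eng mog cd1q0 cd0q1 pd0 0 false true false .up 0 0 1 (qsf 0 536870912 536870912 536870912 0) ndB1q0 ndB0q1 pcB0 Cut.none Ext.none)

def k0_pm_001 : ∃ t, chk3 f_pm_001 t 1 1 1 = true :=
  ⟨(b (l 4) (b (a (l 4) (a (b (l 4) (a (l 4) (a (l 4) (b (l 4) (l 4))))) (b (a (l 4) (l 4)) (a (b (l 4) (a (b (l 4) (l 82375327895)) (b (l 16428896) (l 16447424)))) (b (a (b (l 4) (l 16447944)) (l 16307864)) (a (l 16323592) (l 16357400))))))) (a (l 2) (b (a (a (l 2) (b (a (l 2) (b (a (l 2) (l 16493072)) (l 2))) (l 2))) (a (b (a (b (l 16459752) (l 16478944)) (l 16424336)) (a (b (l 16491112) (l 2)) (l 16429816))) (b (a (l 16345456) (l 16308896)) (b (l 16318168) (a (l 16354496) (l 16267176)))))) (a (l 2) (b (a (b (a (l 2) (b (l 16399728) (l 2))) (l 2)) (b (a (l 16212920) (l 16197504)) (a (l 16201008) (l 16083736)))) (a (l 2) (b (a (l 15977696) (l 15950016)) (a (l 2) (l 15773432)))))))))), by decide +kernel⟩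

theorem c_pm_001 : CertB 0 536870912 536870912 536870912 1020054732 13421774 3 eng mog cd1q0 cd0q1 pd0 false true false .up 0 0 1
    ndB1q0 ndB0q1 pcB0 Cut.none Ext.none :=
  certB0 (fam := false) (s1 := true) (s2 := false) (a := 0) (b := 0) (c := 1) (cn := .up) (n1 := ndB1q0) (n2 := ndB0q1) (pc := pcB0) (cut := Cut.none) (xt := Ext.none) (P1 := 0) (W1 := 536870912) (P2 := 536870912) (W2 := 536870912) (P3 := 1020054732) (W3 := 13421774) (N0 := 3) (En := eng) (mo := mog) (C1 := cd1q0) (C2 := cd0q1) (C3 := pd0)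
    rfl k0_pm_001

noncomputable def cut_pm_011 : Cut := Cut.of [[⟨0, 0, 0, 38347922⟩, ⟨1, 1, 0, 38347922⟩, ⟨2, 1, 0, 38347922⟩]]

noncomputable def xt_pm_011 : Ext := extD3 3 ⟨4, 1, 1, 5, 99, 20, 33, 40, 51, 125, 1, 32⟩ eng cd1q0 cd0q1 pd1 false true false .pnn 0 1 1 rfl ndB1q0 ndB0q1 pcB1

noncomputable def f_pm_011 : ℕ → ℕ → ℕ → ℕ → Bool := onCell 536870912 536870912 536870912 536870912 1020054732 13421774
    (rowB 3 eng mog cd1q0 cd0q1 pd1 2 false true false .pnn 0 1 1 (qsf 0 536870912 536870912 536870912 1) ndB1q0 ndB0q1 pcB1 cut_pm_011 xt_pm_011)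

def k0_pm_011 : ∃ t, chk3 f_pm_011 t 2 1 1 = true :=
  ⟨(b (a (l 4) (b (a (b (l 1) (l 4)) (l 1)) (l 4))) (b (a (b (l 4) (a (b (l 4) (a (l 4) (l 4))) (l 4))) (l 4)) (b (b (a (a (a (l 81301514167) (c (l 16459120) (l 16414352))) (b (l 4) (a (l 16494208) (l 16593240)))) (l 4)) (a (a (a (l 16370976) (l 16413888)) (a (l 16419992) (c (l 16445376) (l 16438208)))) (a (a (b (l 41036638551) (l 16516192)) (b (l 71638326391) (l 16597680))) (a (b (l 4) (l 101703068231)) (l 4))))) (a (b (a (b (a (l 16355312) (b (l 16341728) (l 16327392))) (a (l 16344704) (l 16355808))) (b (a (l 16308528) (l 16410992)) (b (a (l 16351080) (l 16350368)) (l 16235928)))) (a (b (a (l 16268512) (l 16319080)) (c (l 16069640) (l 16215744))) (a (b (l 16329760) (l 16119712)) (b (l 16321304) (l 16104016))))) (b (a (b (a (l 16460648) (l 16516040)) (a (b (l 16406328) (l 16395616)) (a (l 16344976) (l 16407992)))) (a (b (l 16577432) (a (l 16473432) (l 16500328))) (b (b (l 16664384) (l 16620360)) (l 16503448))))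 (a (b (a (l 16277344) (b (l 16435608) (l 16474096))) (a (c (l 16273328) (l 16369168)) (c (l 16328112) (l 16415000)))) (b (a (b (b (l 16421416) (l 16453120)) (l 16484744)) (b (a (l 16446808) (l 16489032)) (l 16494552))) (a (c (l 16342768) (l 16461408)) (c (l 16316928) (l 16508184)))))))))), by decide +kernel⟩

def k1_pm_011 : ∃ t, chk3 f_pm_011 t 3 2 1 = true :=
  ⟨(a (b (l 1) (a (b (l 1) (l 4)) (l 1))) (l 1)), by decide +kernel⟩

def k2_pm_011 : ∃ t, chk3 f_pm_011 t 6 3 1 = true :=
  ⟨(b (l 4) (b (l 4) (b (a (a (b (a (l 125325452423) (l 270817506519)) (l 16610840)) (b (l 4) (a (l 16662368) (b (l 16682168) (l 16671568))))) (b (l 4) (b (a (l 4) (l 4)) (a (a (l 16683224) (l 158611554951)) (a (l 256322064791) (l 4)))))) (a (b (a (b (a (l 16514656) (l 16544888)) (b (a (l 16492200) (l 16509448)) (l 16515800))) (b (l 16593856) (b (l 16488216) (a (l 16525720) (l 16543296))))) (b (a (l 16468480) (c (l 16576176) (l 16552336))) (a (l 16320280) (c (l 16506648) (l 16562744)))))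 (b (a (a (b (l 16646336) (l 16543120)) (b (l 16682896) (l 16618000))) (b (a (l 144115993703) (b (l 280481243511) (l 16692320))) (a (l 16653384) (l 16689472)))) (a (b (b (a (l 16540560) (l 16536432)) (l 16547824)) (c (l 16480552) (l 16607688))) (b (a (b (l 16582840) (l 16600264)) (b (l 16636000) (a (l 16587720) (l 16597136)))) (a (l 16519416) (b (l 16635008) (l 16624096)))))))))), by decide +kernel⟩

def k3_pm_011 : ∃ t, chk3 f_pm_011 t 7 3 1 = true :=
  ⟨(b (a (b (l 1) (l 4)) (l 1)) (b (l 4) (b (l 4) (a (b (a (b (a (a (l 291755543863) (l 4)) (l 4)) (a (b (l 16677184) (l 16707024)) (b (a (l 16701656) (l 4)) (l 143579193879)))) (a (b (l 4) (b (l 4) (a (l 160222212407) (l 234310456823)))) (l 4))) (a (a (b (b (l 16671192) (b (l 16642672) (l 16609432))) (b (l 16643120) (l 16627448))) (b (a (l 16658016) (l 16696088)) (b (b (a (l 16643256) (l 16652544)) (l 16658920)) (l 16609328)))) (b (a (a (l 16692688) (b (l 16716336) (l 16711088))) (b (a (b (l 16698552) (l 16720800))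 (b (l 4) (l 310546114519))) (a (l 16727200) (l 16733232)))) (a (b (b (a (l 16665336) (l 16680720)) (a (l 16665920) (l 16651480))) (c (l 16687120) (l 16681992))) (b (b (l 16705368) (a (l 16661568) (l 16674328))) (b (a (l 16690592) (l 16696120)) (l 16662704))))))) (b (l 4) (a (b (b (l 4) (a (a (b (l 160759167015) (l 16739776)) (a (l 160759185351) (l 163980422695))) (a (a (l 245584810887) (l 4)) (l 4)))) (a (a (b (l 16718584) (l 142181318654279743)) (b (l 16711576) (l 142305082447822911))) (b (a (a (l 16742464) (l 137673719015)) (b (a (l 16737416) (l 6)) (l 143281380207329343))) (b (a (l 142874354692587583) (l 142946441449685055)) (l 142391325421518911))))) (l 6))))))), by decide +kernel⟩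

theorem s4_pm_011 : ∃ t, chk3 f_pm_011 t 3 3 1 = true := ex3_a k2_pm_011 k3_pm_011

theorem s5_pm_011 : ∃ t, chk3 f_pm_011 t 3 1 1 = true := ex3_b k1_pm_011 s4_pm_011

theorem s6_pm_011 : ∃ t, chk3 f_pm_011 t 1 1 1 = true := ex3_a k0_pm_011 s5_pm_011

theorem c_pm_011 : CertB 0 536870912 536870912 536870912 1020054732 13421774 3 eng mog cd1q0 cd0q1 pd1 false true false .pnn 0 1 1
    ndB1q0 ndB0q1 pcB1 cut_pm_011 xt_pm_011 :=
  certB2 (fam := false) (s1 := true) (s2 := false) (a := 0) (b := 1) (c := 1) (cn := .pnn) (n1 := ndB1q0) (n2 := ndB0q1) (pc := pcB1) (cut := cut_pm_011) (xt := xt_pm_011) (P1 := 0) (W1 := 536870912) (P2 := 536870912) (W2 := 536870912) (P3 := 1020054732) (W3 := 13421774) (N0 := 3) (En := eng) (mo := mog) (C1 := cd1q0) (C2 := cd0q1) (C3 := pd1)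
    rfl (fun _ => rfl) s6_pm_011

noncomputable def cut_pm_012 : Cut := Cut.of [[⟨0, 0, 0, 38347922⟩, ⟨1, 1, 0, 38347922⟩, ⟨2, 1, 0, 38347922⟩]]

noncomputable def xt_pm_012 : Ext := extD3 3 ⟨4, 1, 1, 5, 99, 20, 33, 40, 51, 125, 1, 32⟩ eng cd1q0 cd0q2 pd1 false true false .pnp 0 1 2 rfl ndB1q0 ndB0q2 pcB1

noncomputable def f_pm_012 : ℕ → ℕ → ℕ → ℕ → Bool := onCell 536870912 536870912 0 536870912 1020054732 13421774
    (rowB 3 eng mog cd1q0 cd0q2 pd1 2 false true false .pnp 0 1 2 (qsf 0 536870912 0 536870912 1) ndB1q0 ndB0q2 pcB1 cut_pm_012 xt_pm_012)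

def k0_pm_012 : ∃ t, chk3 f_pm_012 t 2 2 1 = true :=
  ⟨(a (b (l 2) (a (l 2) (a (l 2) (b (l 2) (b (l 2) (c (l 16029016) (l 16304264))))))) (b (a (c (b (a (b (l 16642944) (l 16527912)) (l 16381896)) (a (l 16169120) (l 16217048))) (a (b (l 16489160) (l 16427488)) (b (l 16518976) (l 16443112)))) (c (b (a (l 16390456) (l 16422872)) (a (l 16267104) (l 16319432))) (a (b (l 16502344) (l 16432768)) (b (l 16502408) (l 16501344))))) (a (c (b (a (l 15948144) (b (l 16188096) (l 16060704))) (b (a (l 15792288) (l 15922168)) (a (l 16097816) (l 16166384)))) (b (a (l 16312056) (c (l 16350440) (l 16489288))) (b (c (l 16237544) (l 16462192)) (a (l 16365088) (l 16405184))))) (b (c (b (l 16037696) (a (l 16087800) (l 16181352))) (a (l 16290408) (l 16342312))) (c (a (l 16055136) (c (l 16223544) (l 16330256))) (a (l 16448264) (l 16492536))))))), by decide +kernel⟩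

def k1_pm_012 : ∃ t, chk3 f_pm_012 t 2 3 1 = true :=
  ⟨(b (a (a (l 2) (a (b (l 2) (c (l 16312424) (l 16421168))) (b (c (b (l 16146016) (l 16267704)) (l 16365224)) (b (l 16404352) (l 16488312))))) (a (b (b (c (l 15995552) (l 16376848)) (a (l 16229240) (l 16323200))) (c (b (l 16430920) (l 16475136)) (b (l 16441184) (l 16473728)))) (b (c (a (l 16301080) (l 16386072)) (a (l 16448544) (l 16476080))) (c (b (l 16476464) (l 16486112)) (b (l 16475392) (l 16496328)))))) (a (b (a (a (l 2) (b (l 16082136) (c (b (l 16122440) (l 16022976)) (l 16269456)))) (a (b (l 16117312) (c (b (l 16145752) (l 16046296)) (l 16293464))) (b (l 16153856) (c (l 15917400) (l 16319000))))) (a (b (c (a (l 15993784) (l 16011504)) (l 16177992)) (c (a (l 15995024) (l 16027496)) (l 16147968))) (b (c (a (l 16032264) (l 16055920)) (a (l 16237056) (l 16263760))) (c (a (l 16062960) (l 16080256)) (a (l 16221448) (l 16257688)))))) (b (b (a (a (l 16170712) (l 16209776)) (a (l 16229056) (l 16249464))) (a (c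 (b (l 16154728) (a (l 16112056) (l 16152208))) (a (l 16345432) (l 16372456))) (c (a (l 16212248) (l 16233344)) (l 16228184)))) (b (a (c (b (a (l 16068376) (l 16057512)) (l 15965448)) (a (l 16143176) (b (l 16318048) (l 16323552)))) (b (c (a (l 16013744) (l 16041288)) (a (l 16351592) (l 16388760))) (c (a (l 16163984) (l 16200776)) (l 16161536)))) (a (c (a (l 16058200) (l 16038504)) (a (l 16294944) (l 16333056))) (a (c (l 15978936) (l 16329928)) (c (b (l 16250368) (l 16307600)) (b (l 16402056) (l 16422096))))))))), by decide +kernel⟩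

def k2_pm_012 : ∃ t, chk3 f_pm_012 t 3 2 1 = true :=
  ⟨(a (a (b (c (a (b (l 16416552) (l 16353096)) (b (l 16434624) (l 16367984))) (a (l 16343552) (l 16389736))) (b (c (a (c (l 16250192) (l 16377824)) (c (l 16346024) (l 16462392))) (a (l 16382888) (l 16378456))) (c (a (l 16307816) (l 16420408)) (a (l 16536160) (l 16578848))))) (b (a (c (l 16326920) (l 16455096)) (b (l 16398088) (c (l 16570880) (l 16499296)))) (b (a (c (l 16271096) (b (l 16522816) (l 16525448))) (c (l 16348232) (l 16249320))) (a (c (l 16488144) (l 16542464)) (c (l 16552416) (l 16502216)))))) (a (b (b (a (l 16423072) (l 16298904)) (a (a (l 16380240) (l 16244104)) (b (l 16325528) (a (l 16292872) (l 16283472))))) (a (b (b (l 16246616) (l 16335960)) (c (l 16527744) (l 16462528))) (b (a (l 16333072) (l 16298968)) (c (l 16475488) (l 16424280))))) (b (a (b (l 16220376) (b (a (l 16271224) (l 16205552)) (a (l 16256488) (l 16214008)))) (b (l 16040848) (b (a (l 16120448) (b (l 16074400) (l 16083624))) (a (l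 16174384) (l 16136496))))) (a (b (a (l 16307656) (l 16296440)) (a (l 16396952) (l 16313744))) (b (a (l 16265568) (l 16236288)) (a (l 16294624) (l 16255920))))))), by decide +kernel⟩

def k3_pm_012 : ∃ t, chk3 f_pm_012 t 3 6 1 = true :=
  ⟨(a (a (b (a (c (l 16427472) (l 16503192)) (c (l 16466912) (l 16529696))) (a (b (l 16503616) (l 16517992)) (b (l 16520832) (l 16504848)))) (a (b (c (l 16504072) (l 16555320)) (b (l 16536800) (l 16471680))) (b (c (l 16538552) (l 16535640)) (b (l 16551288) (l 16439624))))) (a (b (a (c (l 16545384) (l 16516376)) (a (l 16515432) (l 16505752))) (b (a (l 16549408) (a (l 16548568) (l 16548640))) (a (c (l 16544280) (l 16551896)) (a (l 16565192) (l 16571384))))) (b (a (a (l 16496800) (b (l 16467728) (l 16510696))) (a (b (l 16457600) (l 16506664)) (b (l 16448688) (l 16503704)))) (a (a (b (l 16549336) (l 16571888)) (b (l 16550728) (l 16571848))) (b (a (l 16552912) (l 16556000)) (a (l 16529272) (a (l 16570240) (l 16569392)))))))), by decide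 +kernel⟩

def k4_pm_012 : ∃ t, chk3 f_pm_012 t 6 7 1 = true :=
  ⟨(b (b (a (a (l 16270976) (l 16293560)) (a (l 16317224) (c (l 16501088) (l 16554344)))) (a (a (c (l 16277632) (l 16462728)) (c (l 16365872) (l 16493672))) (a (c (l 16392992) (l 16524864)) (c (l 16421720) (l 16556224))))) (a (b (a (b (c (l 16158984) (l 16427536)) (c (a (l 16229696) (l 16247704)) (l 16335088))) (b (l 16171488) (b (a (l 16160424) (l 16185672)) (l 16125136)))) (b (a (c (l 16253608) (l 16439456)) (c (l 16236976) (l 16476976))) (a (c (l 16317448) (l 16463944)) (b (l 16298528) (l 16346888))))) (b (a (b (l 16224144) (b (a (l 16233968) (l 16344616)) (a (l 16216040) (b (l 16275560) (l 16326096))))) (b (l 16277416) (b (l 16305616) (a (a (l 16276504) (l 16311856)) (l 16293344))))) (a (b (a (l 16230952) (c (l 16379824) (l 16523808))) (a (l 16326480) (c (l 16478536) (l 16557816)))) (b (a (b (l 16322704) (l 16370712)) (b (a (l 16379928) (l 16347080)) (l 16392168))) (a (a (l 16409712) (l 16421376))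 (a (l 16412008) (l 16402560)))))))), by decide +kernel⟩

def k5_pm_012 : ∃ t, chk3 f_pm_012 t 7 14 1 = true :=
  ⟨(a (a (b (c (l 16533288) (l 16559608)) (b (l 16427632) (l 16380760))) (a (b (l 16576896) (l 16498664)) (b (l 16583944) (l 16498912)))) (a (b (a (l 16560544) (b (l 16574488) (l 16583104))) (a (c (l 16607440) (l 16591472)) (b (l 16597208) (l 16575544)))) (b (a (a (l 16576464) (l 16574848)) (a (l 16552168) (b (l 16568112) (l 16574576)))) (a (b (l 16571752) (a (l 16613536) (l 16589968))) (a (b (l 16589224) (l 16608352)) (b (l 16586872) (l 16584792))))))), by decide +kernel⟩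

def k6_pm_012 : ∃ t, chk3 f_pm_012 t 7 15 1 = true :=
  ⟨(a (b (a (b (b (l 16396304) (l 16370800)) (a (l 16388544) (l 16419576))) (b (a (l 16518336) (l 16545272)) (a (l 16450528) (l 16481352)))) (b (a (b (a (b (l 16318872) (l 16391168)) (a (a (l 16380784) (l 16409464)) (l 16400920))) (a (l 16392400) (a (l 16450104) (l 16460432)))) (a (b (a (l 16458456) (l 16535840)) (b (a (l 16461888) (l 16453040)) (l 16441968))) (b (l 16498232) (a (b (l 16489968) (l 16498944)) (c (l 140850840682184767) (l 16588048)))))) (a (a (b (l 16445016) (l 16520920)) (b (c (l 16517376) (l 16626776)) (l 16522928))) (a (b (a (l 16504144) (l 16514712)) (b (l 16578152) (l 16617688))) (a (b (l 16504144) (l 16582776)) (a (b (l 16553808) (l 16632776)) (l 140900456098578495))))))) (a (a (b (b (l 16572176) (l 16522504)) (b (b (l 16552736) (l 139917355181359167)) (b (a (l 141116510154407999) (l 140861354711351359)) (l 141331808362201151)))) (b (b (l 16581760) (a (l 16618832) (l 16634008))) (b (a (l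 16578048) (l 140748861098524735)) (b (a (l 140845480539603007) (l 141036933035769919)) (a (l 141904860152627263) (l 142044910465941567)))))) (a (a (b (b (l 16640312) (l 16632832)) (b (c (l 16660088) (l 16681968)) (b (b (l 16658240) (l 141839164328673535)) (b (l 142041543208616191) (l 6))))) (b (b (l 16637504) (b (l 16661920) (l 16660696))) (b (b (l 16662088) (l 16672360)) (l 6)))) (b (b (a (l 16613768) (a (l 16632672) (l 16631336))) (a (b (l 16638120) (l 16636904)) (a (b (l 16657016) (l 6)) (l 6)))) (b (l 6) (l 6)))))), by decide +kernel⟩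

theorem s7_pm_012 : ∃ t, chk3 f_pm_012 t 7 7 1 = true := ex3_b k5_pm_012 k6_pm_012

theorem s8_pm_012 : ∃ t, chk3 f_pm_012 t 3 7 1 = true := ex3_a k4_pm_012 s7_pm_012

theorem s9_pm_012 : ∃ t, chk3 f_pm_012 t 3 3 1 = true := ex3_b k3_pm_012 s8_pm_012

theorem s10_pm_012 : ∃ t, chk3 f_pm_012 t 3 1 1 = true := ex3_b k2_pm_012 s9_pm_012

theorem s11_pm_012 : ∃ t, chk3 f_pm_012 t 2 1 1 = true := ex3_b k0_pm_012 k1_pm_012

theorem s12_pm_012 : ∃ t, chk3 f_pm_012 t 1 1 1 = true := ex3_a s11_pm_012 s10_pm_012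

theorem c_pm_012 : CertB 0 536870912 0 536870912 1020054732 13421774 3 eng mog cd1q0 cd0q2 pd1 false true false .pnp 0 1 2
    ndB1q0 ndB0q2 pcB1 cut_pm_012 xt_pm_012 :=
  certB2 (fam := false) (s1 := true) (s2 := false) (a := 0) (b := 1) (c := 2) (cn := .pnp) (n1 := ndB1q0) (n2 := ndB0q2) (pc := pcB1) (cut := cut_pm_012) (xt := xt_pm_012) (P1 := 0) (W1 := 536870912) (P2 := 0) (W2 := 536870912) (P3 := 1020054732) (W3 := 13421774) (N0 := 3) (En := eng) (mo := mog) (C1 := cd1q0) (C2 := cd0q2) (C3 := pd1)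
    rfl (fun _ => rfl) s12_pm_012

noncomputable def cut_pm_022 : Cut := Cut.of [[⟨0, 0, 0, 38347922⟩, ⟨1, 1, 0, 38347922⟩, ⟨2, 1, 0, 38347922⟩]]

noncomputable def f_pm_022 : ℕ → ℕ → ℕ → ℕ → Bool := onCell 0 536870912 0 536870912 1020054732 13421774
    (rowB 3 eng mog cd1q0 cd0q2 pd2 0 false true false .pp 0 2 2 (qsf 0 536870912 0 536870912 2) ndB1q0 ndB0q2 pcB2 cut_pm_022 Ext.none)

def k0_pm_022 : ∃ t, chk3 f_pm_022 t 2 2 1 = true :=
  ⟨(a (b (a (a (b (l 16012032) (l 15950456)) (b (l 16077936) (l 16031832))) (a (a (l 16115728) (l 16157472)) (l 16118008))) (a (b (a (b (b (l 15933336) (l 15947152)) (l 16020616)) (b (l 16028928) (l 16080328))) (a (b (l 16038888) (a (l 16223128) (l 16221984))) (b (l 16155128) (a (l 16224424) (l 16230048))))) (b (b (l 16056880) (a (l 16162192) (l 16226584))) (a (b (l 16206232) (l 16247936)) (b (l 16283240) (l 16295520)))))) (a (a (b (l 16209912) (b (b (l 16355848) (l 16295128)) (b (l 16390192) (l 16331632)))) (b (b (l 1) (l 1)) (l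 1))) (l 1))), by decide +kernel⟩

def k1_pm_022 : ∃ t, chk3 f_pm_022 t 2 6 1 = true :=
  ⟨(a (a (b (a (b (a (l 16303016) (l 16309792)) (a (b (l 16394936) (l 16419112)) (b (l 16370392) (l 16407832)))) (b (a (l 16297488) (l 16288344)) (a (l 16320520) (l 16338824)))) (a (b (a (b (a (l 16492336) (l 16472592)) (a (l 16491800) (l 16489192))) (b (l 16442832) (l 16411120))) (a (b (a (b (l 16541688) (l 16538768)) (l 16481088)) (b (a (b (l 16551632) (l 16559888)) (l 16545816)) (a (a (l 16580016) (l 16584528)) (l 16538752)))) (b (a (l 16495000) (l 16488672)) (a (b (l 16535976) (l 16548312)) (l 16490832))))) (b (a (b (l 16404040) (l 16428608)) (l 16317104)) (a (b (l 16429104) (a (l 16482920) (l 16455656))) (b (l 16404496) (l 16417856)))))) (b (a (b (l 16284464) (a (l 16321072) (l 16310648))) (b (l 16304560) (l 16245936))) (a (b (a (l 16350104) (l 16327360)) (a (b (l 16365816) (l 16373616)) (l 107943566935))) (b (a (l 16312112) (l 1)) (l 1))))) (l 1)), by decide +kernel⟩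

def k2_pm_022 : ∃ t, chk3 f_pm_022 t 16 14 1 = true :=
  ⟨(b (a (b (a (b (a (b (l 16606744) (l 16607000)) (l 16577952)) (a (b (l 16607632) (a (l 16604792) (l 16612440))) (l 16601752))) (b (c (l 16567640) (l 16577936)) (a (l 16593920) (l 16575864)))) (a (b (a (c (b (l 16614360) (l 16615920)) (b (l 16605624) (l 16612736))) (c (l 16620248) (l 16622016))) (a (b (a (c (l 16613728) (l 16605664)) (l 16617856)) (a (c (l 16615904) (l 16608176)) (l 16620288))) (b (l 16629744) (l 16632328)))) (b (a (l 16605520) (l 16586832)) (a (l 16616352) (l 16597008))))) (b (a (b (l 16538752) (l 16549488)) (l 16490128)) (a (b (l 16559464) (l 16568672)) (b (l 16545288) (l 16553208))))) (a (b (a (a (a (b (b (c (l 16628856) (l 16621472)) (a (c (l 16639976) (l 16632952)) (l 16627624))) (c (b (b (l 16633888) (l 16635496)) (c (l 16639608) (l 16636488))) (b (a (l 16636352) (l 16640624)) (a (l 16640056) (l 16644376))))) (b (c (l 16628112) (l 16620856)) (c (l 16634432) (l 16627880)))) (b (c (l 16640400)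 (l 16633048)) (c (l 16646968) (l 16640328)))) (a (b (l 16626384) (l 16635616)) (b (l 16606408) (l 16615024)))) (a (a (b (c (a (b (c (l 16643160) (l 16640224)) (c (l 16646944) (l 16644184))) (l 16652336)) (a (b (a (l 16644040) (l 16648400)) (a (l 16637776) (l 16652656))) (l 16636024))) (c (a (b (c (l 16650976) (l 16648392)) (c (l 16655248) (l 16652840))) (l 16660704)) (a (b (a (l 16652712) (l 16657144)) (a (l 16657408) (l 16661872))) (l 16645104)))) (b (c (l 16654616) (l 16648688)) (c (l 16663200) (l 16657984)))) (b (a (l 16644152) (l 16622952)) (a (l 16652152) (l 16630352))))) (b (a (b (l 16577120) (l 16584808)) (b (l 16560400) (l 16566856))) (a (b (l 16591824) (l 16598344)) (b (l 16572680) (l 16578032)))))), by decide +kernel⟩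

def k3_pm_022 : ∃ t, chk3 f_pm_022 t 17 14 1 = true :=
  ⟨(b (a (b (a (l 16500464) (l 16470488)) (a (l 16515168) (l 16482600))) (b (l 16428656) (a (l 16451728) (l 16422608)))) (a (b (a (l 16526984) (l 16491928)) (a (l 16494416) (l 16498952))) (b (a (l 16458600) (l 16427040)) (a (l 16463288) (l 1))))), by decide +kernel⟩

def k4_pm_022 : ∃ t, chk3 f_pm_022 t 9 14 1 = true :=
  ⟨(a (b (a (b (l 16379088) (l 16382240)) (l 1)) (l 1)) (l 1)), by decide +kernel⟩

def k5_pm_022 : ∃ t, chk3 f_pm_022 t 4 15 1 = true :=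
  ⟨(a (b (a (b (b (a (a (a (c (a (b (a (l 16661640) (l 16671408)) (a (l 16661272) (l 16676312))) (l 16659592)) (a (b (a (l 16662360) (l 16666856)) (l 16659360)) (l 16655168))) (c (l 16672752) (l 16668224))) (a (l 16659576) (l 16637200))) (a (l 16583360) (l 16582872))) (l 6)) (l 6)) (a (b (a (b (l 16542080) (l 16545256)) (l 1)) (l 1)) (l 1))) (a (l 6) (l 1))) (l 1)), by decide +kernel⟩

def k6_pm_022 : ∃ t, chk3 f_pm_022 t 5 7 1 = true :=
  ⟨(l 1), by decide +kernel⟩

def k7_pm_022 : ∃ t, chk3 f_pm_022 t 3 1 1 = true :=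
  ⟨(l 1), by decide +kernel⟩

theorem s8_pm_022 : ∃ t, chk3 f_pm_022 t 8 14 1 = true := ex3_a k2_pm_022 k3_pm_022

theorem s9_pm_022 : ∃ t, chk3 f_pm_022 t 4 14 1 = true := ex3_a s8_pm_022 k4_pm_022

theorem s10_pm_022 : ∃ t, chk3 f_pm_022 t 4 7 1 = true := ex3_b s9_pm_022 k5_pm_022

theorem s11_pm_022 : ∃ t, chk3 f_pm_022 t 2 7 1 = true := ex3_a s10_pm_022 k6_pm_022

theorem s12_pm_022 : ∃ t, chk3 f_pm_022 t 2 3 1 = true := ex3_b k1_pm_022 s11_pm_022

theorem s13_pm_022 : ∃ t, chk3 f_pm_022 t 2 1 1 = true := ex3_b k0_pm_022 s12_pm_022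

theorem s14_pm_022 : ∃ t, chk3 f_pm_022 t 1 1 1 = true := ex3_a s13_pm_022 k7_pm_022

theorem c_pm_022 : CertB 0 536870912 0 536870912 1020054732 13421774 3 eng mog cd1q0 cd0q2 pd2 false true false .pp 0 2 2
    ndB1q0 ndB0q2 pcB2 cut_pm_022 Ext.none :=
  certB0 (fam := false) (s1 := true) (s2 := false) (a := 0) (b := 2) (c := 2) (cn := .pp) (n1 := ndB1q0) (n2 := ndB0q2) (pc := pcB2) (cut := cut_pm_022) (xt := Ext.none) (P1 := 0) (W1 := 536870912) (P2 := 0) (W2 := 536870912) (P3 := 1020054732) (W3 := 13421774) (N0 := 3) (En := eng) (mo := mog) (C1 := cd1q0) (C2 := cd0q2) (C3 := pd2)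
    rfl s14_pm_022

end Pool.Agent.Strip051.G.I9500_9625.Tab.C.BB10

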