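import Pool.Agent.Strip051.G.I9500_9625.Tab
import Pool.Agent.Strip051.PB.ExtD3

/-! # Certificates B29 (generated) -/

set_option linter.all false
set_option maxRecDepth 100000

namespace Pool.Agent.Strip051.G.I9500_9625.Tab.C.BB10

open Pool.Agent.Strip051.PB Pool.Agent.Strip051.PB.T
open Pool.Agent.Strip051.G.I9500_9625.Tab

noncomputable def xt_pm_101 : Ext := extD3 3 ⟨4, 1, 1, 5, 99, 20, 33, 40, 51, 125, 1, 32⟩ eng cd1q1 cd0q1 pd0 false true false .npn 1 0 1 rfl ndB1q1 ndB0q1 pcB0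

noncomputable def f_pm_101 : ℕ → ℕ → ℕ → ℕ → Bool := onCell 0 536870912 536870912 536870912 1020054732 13421774
    (rowB 3 eng mog cd1q1 cd0q1 pd0 2 false true false .npn 1 0 1 (qsf 536870912 536870912 536870912 536870912 0) ndB1q1 ndB0q1 pcB0 Cut.none xt_pm_101)

def k0_pm_101 : ∃ t, chk3 f_pm_101 t 2 2 1 = true :=
  ⟨(b (l 4) (a (b (l 4) (a (a (b (b (a (l 16264112) (l 16294464)) (l 56068090199)) (b (l 16125648) (l 16136880))) (b (b (l 4) (l 75932464919)) (c (l 16335976) (l 16218992)))) (b (l 4) (a (a (l 16205040) (l 58752724983)) (c (l 16385976) (l 63584509783)))))) (b (l 4) (a (a (b (l 4) (a (l 66269060903) (l 4))) (l 4)) (l 4))))), by decide +kernel⟩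

def k1_pm_101 : ∃ t, chk3 f_pm_101 t 4 3 1 = true :=
  ⟨(b (b (a (a (b (a (l 16026400) (l 16087824)) (a (l 15843360) (l 15907752))) (b (c (l 16257248) (l 16106896)) (l 15949344))) (b (a (c (l 16375984) (l 16231272)) (c (l 16452000) (l 16341872))) (a (l 16064272) (l 16121016)))) (a (b (a (a (l 15689368) (l 15746016)) (l 15829472)) (a (a (b (l 15606256) (l 15579408)) (b (l 15644672) (l 15596888))) (b (l 15740456) (a (l 15647272) (l 15713320))))) (b (a (l 15995632) (l 16107208)) (a (b (l 15889192) (l 15823016)) (b (l 16029528) (l 15966480)))))) (a (b (a (a (b (l 15598560) (l 15837008)) (a (b (l 15558256) (l 15642080)) (b (l 15556880) (l 15580416)))) (a (b (l 15575448) (l 15544168)) (b (l 15626480) (l 15558784)))) (a (a (b (l 15849328) (b (b (l 15853112) (l 15856280)) (b (l 15864048) (l 15875784)))) (b (a (l 15804376) (l 15764936)) (a (b (l 15796464) (l 15800632)) (b (l 15756472) (l 15752760))))) (b (a (a (l 15648112) (l 15591032)) (l 15566040)) (a (b (l 15716384)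 (l 135507968363003951)) (b (l 15625808) (l 15689336)))))) (b (a (b (l 15731408) (l 15643312)) (b (l 15754312) (l 15787312))) (b (a (b (l 15614936) (l 15620096)) (l 15744736)) (b (a (l 15649952) (l 15734616)) (a (l 15719080) (l 15714168))))))), by decide +kernel⟩

def k2_pm_101 : ∃ t, chk3 f_pm_101 t 5 3 1 = true :=
  ⟨(b (a (b (a (b (a (l 16287568) (l 16281072)) (l 16134888)) (b (c (l 16501680) (l 62510953591)) (c (l 16470544) (l 16386928)))) (b (a (l 16155672) (l 16180832)) (a (l 16079440) (l 16137456)))) (b (b (b (l 4) (a (c (l 16585952) (l 16477048)) (l 69490363047))) (a (a (l 16314520) (l 16315736)) (b (l 16322424) (l 16361440)))) (c (b (a (l 16405248) (l 16439784)) (l 16263592)) (b (a (l 16338808) (l 16405384)) (l 16055992))))) (b (a (b (a (b (l 16041152) (l 15989280)) (b (l 16138312) (l 16075016))) (a (l 15921352) (l 15918088))) (b (a (c (l 16207048) (l 16079408)) (c (l 16258512) (l 16140672))) (a (l 15887848) (l 15882792)))) (b (a (a (l 15822320) (l 15811272))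 (a (l 15758824) (l 15733488))) (a (b (a (l 15746256) (l 15752712)) (a (l 15697856) (l 15686992))) (b (a (l 15764608) (l 15784240)) (a (l 15684088) (l 15689896))))))), by decide +kernel⟩

def k3_pm_101 : ∃ t, chk3 f_pm_101 t 3 1 1 = true :=
  ⟨(b (l 4) (b (a (b (a (b (l 4) (a (b (l 69490364231) (l 16345808)) (b (l 4) (l 70564126263)))) (l 4)) (a (b (a (c (l 16460112) (l 16426584)) (c (l 16471704) (l 16408232))) (a (l 16161936) (l 16166984))) (b (a (b (l 16344272) (l 16389032)) (c (l 320544696823) (l 358125616343))) (a (l 81636727751) (l 160019932247))))) (b (l 1) (a (b (l 1) (a (l 302827630103) (l 1))) (l 1)))) (b (a (a (b (c (a (l 16290976) (l 16307728)) (a (l 16205056) (l 16272144))) (a (c (l 16234552) (l 16049960)) (c (l 16254712) (l 16114368)))) (b (c (l 16314400) (l 16120368)) (b (a (l 16090152) (l 16114504)) (c (l 16256384) (l 16109064))))) (a (b (a (l 154114149431) (l 244308526807)) (a (b (l 16174344) (c (l 16223968) (l 16296832))) (b (l 16296384) (c (l 16196792)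 (l 16356200))))) (b (l 1) (a (b (l 1) (c (l 16069160) (l 16367040))) (l 1))))) (a (b (a (a (c (l 16053816) (l 15876912)) (c (l 16115216) (l 15921664))) (a (c (l 16183504) (l 15975568)) (c (l 16216168) (l 16038536)))) (a (b (a (l 15812336) (l 15828192)) (a (l 15704704) (l 15728576))) (b (a (l 15789880) (l 15781176)) (a (l 15698568) (l 15677480))))) (b (a (c (a (l 16246152) (l 16205544)) (a (l 16047432) (l 16064816))) (b (a (l 16052616) (l 1)) (a (l 16076072) (l 130491740519)))) (a (b (a (l 15780896) (c (l 16186624) (l 15973416))) (c (a (l 15943280) (l 16006808)) (l 15619872))) (b (a (c (l 16268032) (l 16048160)) (c (l 16280192) (l 16131344))) (a (c (l 16077680) (l 15879752)) (c (l 16155480) (l 15952088)))))))))), by decide +kernel⟩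

theorem s4_pm_101 : ∃ t, chk3 f_pm_101 t 2 3 1 = true := ex3_a k1_pm_101 k2_pm_101

theorem s5_pm_101 : ∃ t, chk3 f_pm_101 t 2 1 1 = true := ex3_b k0_pm_101 s4_pm_101

theorem s6_pm_101 : ∃ t, chk3 f_pm_101 t 1 1 1 = true := ex3_a s5_pm_101 k3_pm_101

theorem c_pm_101 : CertB 536870912 536870912 536870912 536870912 1020054732 13421774 3 eng mog cd1q1 cd0q1 pd0 false true false .npn 1 0 1
    ndB1q1 ndB0q1 pcB0 Cut.none xt_pm_101 :=
  certB2 (fam := false) (s1 := true) (s2 := false) (a := 1) (b := 0) (c := 1) (cn := .npn) (n1 := ndB1q1) (n2 := ndB0q1) (pc := pcB0) (cut := Cut.none) (xt := xt_pm_101) (P1 := 536870912) (W1 := 536870912) (P2 := 536870912) (W2 := 536870912) (P3 := 1020054732) (W3 := 13421774) (N0 := 3) (En := eng) (mo := mog) (C1 := cd1q1) (C2 := cd0q1) (C3 := pd0)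
    rfl (fun _ => rfl) s6_pm_101

noncomputable def xt_pm_102 : Ext := extD3 3 ⟨4, 1, 1, 5, 99, 20, 33, 40, 51, 125, 1, 32⟩ eng cd1q1 cd0q2 pd0 false true false .npp 1 0 2 rfl ndB1q1 ndB0q2 pcB0

noncomputable def f_pm_102 : ℕ → ℕ → ℕ → ℕ → Bool := onCell 536870912 536870912 0 536870912 1020054732 13421774
    (rowB 3 eng mog cd1q1 cd0q2 pd0 0 false true false .npp 1 0 2 (qsf 536870912 536870912 0 536870912 0) ndB1q1 ndB0q2 pcB0 Cut.none xt_pm_102)

def k0_pm_102 : ∃ t, chk3 f_pm_102 t 2 2 1 = true :=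
  ⟨(a (b (l 2) (a (l 2) (b (l 2) (b (l 2) (a (l 2) (b (l 16508944) (l 16421584))))))) (b (a (a (b (a (l 2) (c (l 16589088) (l 16537488))) (c (l 16618280) (l 16623976))) (b (b (c (l 16588104) (l 16543632)) (b (l 16550416) (l 16509688))) (b (l 16470480) (l 16568208)))) (b (b (c (a (a (l 16611824) (l 16557528)) (a (l 105930886935) (l 78013623063))) (a (a (l 16553080) (l 107541421431)) (a (b (l 87140350919) (l 16548680)) (l 80697847031)))) (a (b (l 16485168) (l 16487992)) (a (l 16479088) (a (l 16511616) (l 16484112))))) (a (a (l 16437632) (l 16401056)) (b (l 16417024) (c (l 16646552) (l 16545824)))))) (a (b (c (a (l 16568768) (l 16638992)) (l 16513416)) (a (b (l 16605320) (b (l 16576120) (l 16414160))) (a (l 16513712) (l 16591600)))) (b (c (a (l 16677976) (l 16646680)) (l 16362944)) (c (l 16465864) (l 16422240)))))), by decide +kernel⟩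

def k1_pm_102 : ∃ t, chk3 f_pm_102 t 2 3 1 = true :=
  ⟨(b (a (a (l 2) (b (a (l 2) (b (l 16356632) (l 16144536))) (b (a (l 15890032) (l 15883624)) (a (l 15672336) (l 15658776))))) (b (a (a (b (l 16354632) (l 16155528)) (b (b (l 16391808) (l 16431048)) (l 16154808))) (b (a (b (l 16433408) (l 16446408)) (a (l 16339176) (l 16420208))) (a (l 16142200) (c (l 16363648) (l 16289176))))) (a (b (a (l 15887416) (l 15880352)) (a (l 15614360) (c (l 15832784) (l 15747704)))) (b (a (l 15862352) (a (l 16075648) (l 16094992))) (a (c (l 15846832) (l 15773120)) (a (l 15832496) (l 15850568))))))) (a (b (a (a (l 2) (b (l 15416560) (b (l 15437256) (b (l 15368848) (l 15409208))))) (b (a (l 15322000) (c (l 15601544) (l 15505488))) (a (b (l 15401104) (c (l 15425136) (l 15324000))) (b (l 15378552) (c (l 15419744) (l 15323256)))))) (a (b (a (b (l 15532016) (l 15663392)) (b (l 15503712) (l 15623136))) (b (a (l 15765792) (l 15734576)) (a (c (l 15992016) (l 15809256)) (l 15775360)))) (b (a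 (b (l 15483808) (l 15591224)) (b (l 15472568) (l 15567920))) (a (b (l 15690656) (l 15782920)) (b (l 15655296) (l 15736032)))))) (b (a (b (a (c (l 15589584) (l 15502248)) (c (l 15589272) (l 15511552))) (b (a (a (l 15369520) (l 15368712)) (b (l 15399720) (l 15354072))) (a (l 15379944) (l 15398760)))) (b (a (c (l 15600696) (l 15533416)) (c (l 15623968) (l 15567832))) (b (a (b (l 15415144) (l 15381808)) (b (l 15443320) (l 15423496))) (a (l 15426784) (l 15464176))))) (a (b (a (b (l 15470184) (l 15553456)) (b (l 15476864) (l 15548016))) (a (c (l 15736688) (l 15591104)) (b (l 15611128) (l 15668608)))) (b (a (b (l 15492760) (l 15551784)) (b (l 15518016) (l 15564904))) (a (b (l 15602704) (l 15648448)) (b (l 15603592) (l 15637504)))))))), by decide +kernel⟩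

def k2_pm_102 : ∃ t, chk3 f_pm_102 t 3 4 1 = true :=
  ⟨(a (b (a (b (l 3) (a (a (b (l 97340787351) (l 16486376)) (b (l 3) (l 101098843959))) (c (l 146733023607) (l 146195947975)))) (l 3)) (a (a (b (a (l 16482392) (l 16469256)) (c (l 16588912) (l 16484448))) (b (a (a (l 16479216) (l 16469944)) (l 89287609175)) (c (a (l 16629464) (l 16611608)) (l 16449552)))) (a (b (c (l 254107279415) (l 140290299319)) (a (c (l 16569920) (l 16496624)) (l 126331657191))) (a (b (l 3) (l 198272351159)) (l 3))))) (l 3)), by decide +kernel⟩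

def k3_pm_102 : ∃ t, chk3 f_pm_102 t 3 5 1 = true :=
  ⟨(b (a (a (a (b (a (l 16532936) (l 16498904)) (l 16485088)) (b (c (l 16505976) (l 16448536)) (a (l 16529584) (l 16520168)))) (a (a (b (l 16524408) (l 16486744)) (b (l 16490064) (l 16473488))) (b (a (b (l 115594242567) (l 16492800)) (b (l 195051123543) (l 120962940839))) (a (l 16484376) (l 16450128))))) (a (a (a (b (l 207936137815) (a (l 16459952) (l 127942272103))) (b (l 3) (b (l 197198589959) (a (l 16443480) (l 137605964631))))) (a (b (l 3) (b (l 3) (l 204177996455))) (l 3))) (l 3))) (a (a (a (l 16399424) (c (l 16539760) (l 16466392))) (b (a (l 16384560) (a (l 16476992) (l 16444488))) (a (l 16478472) (l 16421152)))) (a (b (a (a (b (l 16455016) (l 16454736)) (a (l 16445752) (l 16438704))) (a (b (a (l 142974684279) (l 143511541495)) (a (l 16433280) (l 16404760))) (c (b (l 201493616199) (a (l 157470194583) (l 200419834663))) (b (l 203104226183) (a (l 147806516775) (l 204177943719)))))) (a (a (l 16455488) (b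 (l 16446552) (l 16448944))) (b (a (l 16435792) (a (l 16425224) (a (l 16419504) (l 171965688023)))) (a (l 16441648) (l 16431328))))) (a (b (l 3) (b (a (a (b (a (l 155859554711) (l 197735472103)) (a (l 16413952) (l 174650028647))) (b (l 3) (a (b (l 196661727063) (l 169281313783)) (l 188071796487)))) (l 3)) (b (a (a (l 16417536) (a (l 16411496) (c (l 182703088311) (l 176797560999)))) (a (a (c (l 3116610763107278541073612847) (l 199883003399)) (l 3)) (l 3))) (a (a (l 16423640) (a (l 16417968) (l 16414008))) (c (a (a (l 211157268551) (b (l 200419829959) (l 2594354809033586870194274415))) (c (l 3126282169664504124891414767) (l 2855482786070539598776975471))) (a (a (l 206862360519) (a (l 190756227639) (l 173039486599))) (a (c (l 178945027383) (l 178945055831)) (l 3)))))))) (l 3))))), by decide +kernel⟩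

def k4_pm_102 : ∃ t, chk3 f_pm_102 t 6 3 1 = true :=
  ⟨(b (b (a (b (a (a (l 16500544) (l 16498080)) (l 16487640)) (a (a (l 16361344) (b (l 16449248) (l 16325328))) (b (a (l 16462136) (l 16465616)) (l 16366416)))) (b (a (l 16471120) (l 16457696)) (a (b (l 16460944) (a (l 16413960) (l 16434400))) (b (l 16455688) (a (l 16442984) (l 16446760)))))) (a (a (b (a (l 16116744) (l 16140856)) (a (l 15871368) (l 15894880))) (b (a (l 16167248) (l 16195864)) (a (l 15921064) (l 15949904)))) (b (a (a (l 16226592) (l 16259312)) (a (l 16293880) (b (l 16393680) (l 16270240)))) (a (a (l 15981344) (l 16015312)) (a (l 16051720) (l 16090464)))))) (b (a (b (a (b (l 15698824) (l 15576376)) (a (l 15676152) (l 15705848))) (a (b (b (l 15484896) (l 15476792)) (l 15511056)) (b (b (l 15543048) (l 15541032)) (l 15567584)))) (b (a (a (l 15738592) (l 15774376)) (a (l 15813168) (l 15854912))) (a (b (b (l 15616240) (l 15616376)) (l 15633904)) (b (b (l 15702904) (l 15701592)) (l 15710184))))) (a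 (b (a (b (l 15552784) (l 15587520)) (b (l 15597224) (l 15619784))) (a (l 15416288) (l 15513928))) (b (a (b (l 15651496) (l 15661872)) (b (l 15715808) (l 15714032))) (a (l 15537280) (b (l 15703016) (l 15687560))))))), by decide +kernel⟩

def k5_pm_102 : ∃ t, chk3 f_pm_102 t 14 12 1 = true :=
  ⟨(a (b (a (l 16450072) (l 16446424)) (l 16448304)) (b (b (a (l 16444360) (l 16418992)) (a (l 16443912) (l 16443096))) (a (l 16445688) (l 16445648)))), by decide +kernel⟩

def k6_pm_102 : ∃ t, chk3 f_pm_102 t 30 12 1 = true :=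
  ⟨(b (b (a (a (l 16433392) (l 16426896)) (b (c (a (l 16402104) (a (b (a (l 16394104) (l 198809226343)) (l 16396240)) (b (l 2855482786070504002078540015) (a (l 225115905463) (l 2555669182805980446678270191))))) (a (l 16428848) (a (b (a (l 16422448) (l 196124944487)) (l 16426384)) (c (b (l 173039452071) (a (l 16415880) (l 188071864983))) (b (l 173039483911) (a (l 16431848) (l 186461264263))))))) (a (l 16423472) (a (l 16417608) (b (c (l 16373784) (l 16428016)) (l 16415752)))))) (a (a (l 16443360) (l 16440648)) (a (l 16435944) (b (l 16382784) (l 16434432))))) (a (l 16405120) (b (a (l 16447576) (l 16425312)) (l 16451704)))), by decide +kernel⟩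

def k7_pm_102 : ∃ t, chk3 f_pm_102 t 31 24 1 = true :=
  ⟨(a (b (a (a (b (a (c (l 2865154192627413338890273007) (c (l 157470194855) (l 156933368743))) (l 3)) (c (c (b (l 3010225290981360498466947311) (l 16363632)) (b (a (l 213304745079) (l 178945025623)) (l 16381520))) (c (b (a (l 212767915911) (l 177871298503)) (l 16399688)) (b (a (l 212231087287) (b (l 158544000407) (l 195051215287))) (l 16428616))))) (b (l 3) (c (c (b (l 2594354809034132640238239983) (l 2855482786070673670449299695)) (b (l 142437775959) (a (l 202030456919) (l 166596993815)))) (c (b (l 141364077319) (a (l 202030502439) (l 165523269911))) (b (l 2671726061488857579070898415) (a (b (l 191293117671) (l 16438208)) (b (l 3) (l 178408223895)))))))) (l 3)) (a (a (c (l 16403936) (l 16401928)) (b (c (a (l 16395896) (a (l 16393992) (c (l 226726483831) (l 227263404647)))) (a (l 16435600) (b (c (l 226189701735) (l 226726620887)) (l 16436752)))) (l 16424864))) (a (b (b (c (c (l 2681397468046157860878172271)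 (a (l 191829909799) (l 152638349863))) (c (a (l 191293087543) (l 151564650167)) (a (b (l 168207679591) (l 210083619239)) (l 150490940599)))) (c (a (l 16392984) (c (l 205788510983) (l 206325432919))) (a (l 16434984) (b (c (l 195588059015) (l 195588108999)) (l 16434664))))) (c (l 16398592) (b (l 16440120) (l 16446304)))) (b (b (l 3) (a (c (c (l 177871243895) (l 177871287191)) (c (l 177334439239) (b (l 146732860199) (l 181629469847)))) (l 3))) (b (c (a (b (l 16391264) (l 16393616)) (b (l 182703103015) (l 217062846311))) (c (a (l 16426048) (l 200419909751)) (a (l 16448872) (l 202030576743)))) (c (l 16395952) (l 16442808))))))) (b (l 3) (a (b (l 3) (c (c (a (b (l 155322639591) (l 187534903111)) (l 142437731703)) (a (b (l 154785815879) (l 185387479415)) (l 141900911191))) (c (a (b (l 154249003383) (a (l 210083596311) (l 183240046695))) (l 141364112375)) (a (b (l 153712191575) (a (l 210083652999) (l 183776971879))) (l 140290422439))))) (l 3)))), by decide +kernel⟩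

def k8_pm_102 : ∃ t, chk3 f_pm_102 t 31 25 1 = true :=
  ⟨(b (a (a (c (l 16418800) (l 16465968)) (a (l 16395808) (c (l 16408640) (l 16459360)))) (a (b (c (c (a (l 16365088) (b (l 175186870695) (l 217062817655))) (a (l 16410984) (b (l 174650050631) (l 16406464)))) (c (a (l 16436280) (b (l 170355155911) (l 217062937735))) (a (l 16461944) (b (a (l 191293179911) (l 164986497975)) (l 217062996951))))) (a (l 16435848) (c (l 16404304) (l 16459416)))) (a (c (b (c (l 162301963447) (l 162302038247)) (c (l 207936017207) (l 207936081687))) (b (b (l 3) (c (l 173039515799) (l 173039571287))) (b (c (l 202030556615) (l 201493747895)) (l 16459360)))) (b (l 3) (b (a (c (l 165523237351) (l 168744590199)) (l 3)) (c (a (l 214915371367) (l 186998078551)) (c (l 185924433975) (l 185387628055)))))))) (a (a (l 16455336) (l 16371544)) (b (a (l 16404872) (a (l 16377752) (b (c (l 16403032) (l 16463080)) (l 16397880)))) (a (l 16437536) (c (l 16421072) (l 16484792)))))), by decide +kernel⟩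

def k9_pm_102 : ∃ t, chk3 f_pm_102 t 7 13 1 = true :=
  ⟨(a (b (a (b (a (l 16357944) (l 16392400)) (a (l 16308840) (l 16349064))) (b (a (l 16442312) (l 16450176)) (a (l 16352248) (b (l 16443272) (l 16406664))))) (a (a (l 16131408) (l 16069544)) (a (l 15988616) (b (l 16321840) (l 16211296))))) (a (b (a (b (l 16452416) (b (l 16454824) (l 16380304))) (b (l 16456208) (l 16372008))) (a (b (l 16368968) (l 16261184)) (b (b (l 16317624) (l 16391360)) (l 16270936)))) (b (b (a (l 16419712) (a (l 16425008) (a (l 16426944) (l 16384832)))) (a (l 16467920) (a (l 16473544) (l 16456896)))) (b (a (b (a (l 16464560) (l 16472744)) (a (l 16429360) (l 16435360))) (a (c (l 16433720) (l 16488816)) (l 16333592))) (a (l 16177576) (a (l 16386432) (l 16290936))))))), by decide +kernel⟩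

def k10_pm_102 : ∃ t, chk3 f_pm_102 t 7 7 1 = true :=
  ⟨(a (b (b (a (a (l 15899536) (l 15863056)) (a (b (l 16052064) (l 15943328)) (b (l 16103016) (l 15997608)))) (a (b (a (l 15778040) (l 15828912)) (l 15796480)) (b (a (l 15882232) (l 15937928)) (l 15892552)))) (b (a (b (l 15790328) (l 15776552)) (c (l 15867408) (l 15860096))) (a (b (l 15752952) (l 15723944)) (b (l 15813944) (l 15770864))))) (b (a (b (a (b (l 16156120) (l 16054480)) (b (l 16211320) (l 16113848))) (b (a (l 15995896) (l 16014208)) (l 15997528))) (b (a (b (l 16163720) (l 16175712)) (b (a (l 16312824) (l 16342920)) (a (l 16223824) (l 16256680)))) (b (a (l 138622816909099119) (b (a (l 16172640) (b (l 16208256) (l 16195912))) (a (l 16152320) (l 16175496)))) (a (a (l 16067256) (l 16094928)) (a (b (l 16131680) (l 16104712)) (b (l 16143816) (l 16110064))))))) (a (b (a (l 15929216) (b (l 15993344) (a (l 15943440) (l 15963424)))) (a (b (l 15867216) (l 134627672057036847)) (b (a (l 15892616) (l 15901224))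 (a (l 15823016) (l 137071061794963503))))) (b (a (b (a (l 16029776) (l 16004888)) (a (l 15975984) (l 137876523102290031))) (b (a (b (l 16071048) (l 16036152)) (b (l 16075608) (a (l 16040680) (l 16044192)))) (a (b (l 16000576) (a (l 15964040) (l 15968272))) (b (a (l 16006592) (l 16018200)) (a (l 15980712) (l 16003344)))))) (a (b (a (l 137642120808399087) (b (l 15922232) (a (l 15885560) (l 15892296)))) (a (b (l 15804088) (l 136539997659185391)) (b (a (l 15856480) (l 15874184)) (l 15846192)))) (b (a (b (a (l 15929528) (l 15942896)) (a (l 15906640) (l 15928736))) (l 15967872)) (l 15914456))))))), by decide +kernel⟩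

theorem s11_pm_102 : ∃ t, chk3 f_pm_102 t 31 12 1 = true := ex3_b k7_pm_102 k8_pm_102

theorem s12_pm_102 : ∃ t, chk3 f_pm_102 t 15 12 1 = true := ex3_a k6_pm_102 s11_pm_102

theorem s13_pm_102 : ∃ t, chk3 f_pm_102 t 7 12 1 = true := ex3_a k5_pm_102 s12_pm_102

theorem s14_pm_102 : ∃ t, chk3 f_pm_102 t 7 6 1 = true := ex3_b s13_pm_102 k9_pm_102

theorem s15_pm_102 : ∃ t, chk3 f_pm_102 t 7 3 1 = true := ex3_b s14_pm_102 k10_pm_102

theorem s16_pm_102 : ∃ t, chk3 f_pm_102 t 3 3 1 = true := ex3_a k4_pm_102 s15_pm_102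

theorem s17_pm_102 : ∃ t, chk3 f_pm_102 t 3 2 1 = true := ex3_b k2_pm_102 k3_pm_102

theorem s18_pm_102 : ∃ t, chk3 f_pm_102 t 3 1 1 = true := ex3_b s17_pm_102 s16_pm_102

theorem s19_pm_102 : ∃ t, chk3 f_pm_102 t 2 1 1 = true := ex3_b k0_pm_102 k1_pm_102

theorem s20_pm_102 : ∃ t, chk3 f_pm_102 t 1 1 1 = true := ex3_a s19_pm_102 s18_pm_102

theorem c_pm_102 : CertB 536870912 536870912 0 536870912 1020054732 13421774 3 eng mog cd1q1 cd0q2 pd0 false true false .npp 1 0 2
    ndB1q1 ndB0q2 pcB0 Cut.none xt_pm_102 :=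
  certB0 (fam := false) (s1 := true) (s2 := false) (a := 1) (b := 0) (c := 2) (cn := .npp) (n1 := ndB1q1) (n2 := ndB0q2) (pc := pcB0) (cut := Cut.none) (xt := xt_pm_102) (P1 := 536870912) (W1 := 536870912) (P2 := 0) (W2 := 536870912) (P3 := 1020054732) (W3 := 13421774) (N0 := 3) (En := eng) (mo := mog) (C1 := cd1q1) (C2 := cd0q2) (C3 := pd0)
    rfl s20_pm_102

noncomputable def f_pm_112 : ℕ → ℕ → ℕ → ℕ → Bool := onCell 536870912 536870912 0 536870912 1020054732 13421774
    (rowB 3 eng mog cd1q1 cd0q2 pd1 2 false true false .dn 1 1 2 (qsf 536870912 536870912 0 536870912 1) ndB1q1 ndB0q2 pcB1 Cut.none Ext.none)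

def k0_pm_112 : ∃ t, chk3 f_pm_112 t 2 2 1 = true :=
  ⟨(a (b (a (c (b (b (a (c (a (l 16294008) (l 16248616)) (a (l 16453880) (l 16425208))) (a (b (l 16324912) (l 16096536)) (b (l 16201256) (l 16142344)))) (a (a (b (l 16127040) (a (l 16251080) (l 16361416))) (b (a (l 16224624) (l 16238184)) (l 16359648))) (a (l 16249752) (l 16316984)))) (a (c (b (l 16322824) (l 16482520)) (l 16354176)) (a (l 16306408) (l 16335072)))) (b (a (b (a (l 16518392) (l 16453576)) (c (a (l 16524640) (l 16554752)) (l 16487792))) (b (a (l 16461128) (l 16455544)) (c (l 16615432) (l 16690816)))) (a (c (l 16589328) (l 16584832)) (c (l 16672904) (l 16607296))))) (b (b (a (c (a (b (l 16105416) (l 16349400)) (l 16277856)) (c (l 16448840) (l 16617648))) (c (l 16164808) (l 16563336))) (c (a (l 16232856) (l 16315496)) (c (l 16476592) (l 16540096)))) (c (a (c (l 16364824) (l 16524256)) (c (l 16395648) (l 16506464))) (a (c (l 16640664) (l 16607672)) (c (l 16617296) (l 16606976)))))) (a (b (c (a (b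 (l 16530488) (l 16533496)) (b (l 16536984) (l 16528168))) (a (b (l 16511568) (l 16466536)) (l 16358552))) (b (a (c (l 16351632) (l 16381784)) (c (l 16367344) (l 16418296))) (a (c (b (l 16156464) (l 16137152)) (l 16218608)) (c (b (l 16219816) (l 16332992)) (l 16368840))))) (b (c (a (l 16272328) (l 16380152)) (a (l 16500592) (l 16558712))) (c (a (b (b (l 16423032) (l 16359320)) (l 16253824)) (b (l 16328800) (l 16484920))) (a (b (l 16455080) (l 16450872)) (b (l 16495976) (l 16502288))))))) (a (a (b (c (b (a (l 16257912) (l 16305496)) (l 16255672)) (b (c (l 16602832) (l 16651336)) (l 16563536))) (b (c (l 16451800) (l 16574688)) (a (b (l 16391952) (l 16513928)) (l 1)))) (b (b (l 1) (l 1)) (l 1))) (l 1))), by decide +kernel⟩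

def k1_pm_112 : ∃ t, chk3 f_pm_112 t 2 3 1 = true :=
  ⟨(b (a (a (b (c (a (b (l 16346304) (l 16410024)) (b (l 16446368) (l 16356336))) (a (l 16228400) (l 16353928))) (c (b (a (l 16255280) (l 16209080)) (a (l 15966376) (l 15995848))) (b (l 16214416) (c (l 16266968) (l 16412016))))) (b (c (a (b (l 16431128) (l 16313784)) (l 15064478023)) (c (l 16393240) (l 16498424))) (c (b (a (l 16135976) (l 16163480)) (a (l 16022296) (l 1))) (b (l 16247352) (l 5937663623))))) (l 1)) (a (b (b (a (c (a (l 15731496) (l 15757448)) (c (l 16104008) (l 16313040))) (a (c (l 15782680) (l 16212176)) (l 1))) (a (c (b (a (l 15676976) (l 15676968)) (a (l 15512360) (l 15429512))) (c (b (l 16006056) (l 15935992)) (l 16040760))) (l 1))) (a (c (b (a (l 15538424) (l 15442832)) (a (l 15475480) (l 1))) (b (c (l 15909416) (l 16148024)) (c (l 15850224) (l 16111928)))) (l 1))) (l 1))), by decide +kernel⟩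

def k2_pm_112 : ∃ t, chk3 f_pm_112 t 3 1 1 = true :=
  ⟨(l 1), by decide +kernel⟩

theorem s3_pm_112 : ∃ t, chk3 f_pm_112 t 2 1 1 = true := ex3_b k0_pm_112 k1_pm_112

theorem s4_pm_112 : ∃ t, chk3 f_pm_112 t 1 1 1 = true := ex3_a s3_pm_112 k2_pm_112

theorem c_pm_112 : CertB 536870912 536870912 0 536870912 1020054732 13421774 3 eng mog cd1q1 cd0q2 pd1 false true false .dn 1 1 2
    ndB1q1 ndB0q2 pcB1 Cut.none Ext.none :=
  certB2 (fam := false) (s1 := true) (s2 := false) (a := 1) (b := 1) (c := 2) (cn := .dn) (n1 := ndB1q1) (n2 := ndB0q2) (pc := pcB1) (cut := Cut.none) (xt := Ext.none) (P1 := 536870912) (W1 := 536870912) (P2 := 0) (W2 := 536870912) (P3 := 1020054732) (W3 := 13421774) (N0 := 3) (En := eng) (mo := mog) (C1 := cd1q1) (C2 := cd0q2) (C3 := pd1)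
    rfl (fun _ => rfl) s4_pm_112

noncomputable def cut_pm_202_a : Cut := Cut.of [[⟨0, 1, 0, 38347922⟩, ⟨1, 0, 0, 38347922⟩, ⟨2, 1, 0, 38347922⟩]]

noncomputable def f_pm_202_a : ℕ → ℕ → ℕ → ℕ → Bool := onCell 0 536870912 0 536870912 1020054732 13421774
    (rowB 3 eng mog cd1q2a cd0q2 pd0 0 false true false .pp 2 0 2 (qsf 0 536870912 0 536870912 0) ndB1q2a ndB0q2 pcB0 cut_pm_202_a Ext.none)

def k0_pm_202_a : ∃ t, chk3 f_pm_202_a t 1 1 1 = true :=
  ⟨(a (l 3) (b (l 3) (a (l 3) (b (l 3) (a (l 3) (b (l 3) (b (l 3) (a (l 3) (l 6))))))))), by decide +kernel⟩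

theorem c_pm_202_a : CertB 0 536870912 0 536870912 1020054732 13421774 3 eng mog cd1q2a cd0q2 pd0 false true false .pp 2 0 2
    ndB1q2a ndB0q2 pcB0 cut_pm_202_a Ext.none :=
  certB0 (fam := false) (s1 := true) (s2 := false) (a := 2) (b := 0) (c := 2) (cn := .pp) (n1 := ndB1q2a) (n2 := ndB0q2) (pc := pcB0) (cut := cut_pm_202_a) (xt := Ext.none) (P1 := 0) (W1 := 536870912) (P2 := 0) (W2 := 536870912) (P3 := 1020054732) (W3 := 13421774) (N0 := 3) (En := eng) (mo := mog) (C1 := cd1q2a) (C2 := cd0q2) (C3 := pd0)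
    rfl k0_pm_202_a

noncomputable def cut_pm_202_b : Cut := Cut.of [[⟨0, 1, 0, 38347922⟩, ⟨1, 0, 0, 38347922⟩, ⟨2, 1, 0, 38347922⟩]]

noncomputable def f_pm_202_b : ℕ → ℕ → ℕ → ℕ → Bool := onCell 1239849684 370763052 0 536870912 1020054732 13421774
    (rowB 3 eng mog cd1q2b cd0q2 pd0 0 false true false .pp 2 0 2 (qsf 1239849684 370763052 0 536870912 0) ndB1q2b ndB0q2 pcB0 cut_pm_202_b Ext.none)

def k0_pm_202_b : ∃ t, chk3 f_pm_202_b t 1 1 1 = true :=
  ⟨(l 3), by decide +kernel⟩

theorem c_pm_202_b : CertB 1239849684 370763052 0 536870912 1020054732 13421774 3 eng mog cd1q2b cd0q2 pd0 false true false .pp 2 0 2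
    ndB1q2b ndB0q2 pcB0 cut_pm_202_b Ext.none :=
  certB0 (fam := false) (s1 := true) (s2 := false) (a := 2) (b := 0) (c := 2) (cn := .pp) (n1 := ndB1q2b) (n2 := ndB0q2) (pc := pcB0) (cut := cut_pm_202_b) (xt := Ext.none) (P1 := 1239849684) (W1 := 370763052) (P2 := 0) (W2 := 536870912) (P3 := 1020054732) (W3 := 13421774) (N0 := 3) (En := eng) (mo := mog) (C1 := cd1q2b) (C2 := cd0q2) (C3 := pd0)
    rfl k0_pm_202_b

noncomputable def f_mm_001 : ℕ → ℕ → ℕ → ℕ → Bool := onCell 0 536870912 0 536870912 1020054732 13421774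
    (rowB 3 eng mog cd1q0 cd0q1 pd0 1 false false false .up 0 0 1 (qsf 0 536870912 536870912 536870912 0) ndB1q0 ndB0q1 pcB0 Cut.none Ext.none)

def k0_mm_001 : ∃ t, chk3 f_mm_001 t 1 1 1 = true :=
  ⟨(l 3), by decide +kernel⟩

theorem c_mm_001 : CertB 0 536870912 536870912 536870912 1020054732 13421774 3 eng mog cd1q0 cd0q1 pd0 false false false .up 0 0 1
    ndB1q0 ndB0q1 pcB0 Cut.none Ext.none :=
  certB1 (fam := false) (s1 := false) (s2 := false) (a := 0) (b := 0) (c := 1) (cn := .up) (n1 := ndB1q0) (n2 := ndB0q1) (pc := pcB0) (cut := Cut.none) (xt := Ext.none) (P1 := 0) (W1 := 536870912) (P2 := 536870912) (W2 := 536870912) (P3 := 1020054732) (W3 := 13421774) (N0 := 3) (En := eng) (mo := mog) (C1 := cd1q0) (C2 := cd0q1) (C3 := pd0)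
    rfl (fun _ => rfl) k0_mm_001

noncomputable def f_mm_011 : ℕ → ℕ → ℕ → ℕ → Bool := onCell 0 536870912 536870912 536870912 1020054732 13421774
    (rowB 3 eng mog cd1q0 cd0q1 pd1 1 false false false .pnn 0 1 1 (qsf 0 536870912 536870912 536870912 1) ndB1q0 ndB0q1 pcB1 Cut.none Ext.none)

def k0_mm_011 : ∃ t, chk3 f_mm_011 t 1 1 1 = true :=
  ⟨(l 5), by decide +kernel⟩

theorem c_mm_011 : CertB 0 536870912 536870912 536870912 1020054732 13421774 3 eng mog cd1q0 cd0q1 pd1 false false false .pnn 0 1 1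
    ndB1q0 ndB0q1 pcB1 Cut.none Ext.none :=
  certB1 (fam := false) (s1 := false) (s2 := false) (a := 0) (b := 1) (c := 1) (cn := .pnn) (n1 := ndB1q0) (n2 := ndB0q1) (pc := pcB1) (cut := Cut.none) (xt := Ext.none) (P1 := 0) (W1 := 536870912) (P2 := 536870912) (W2 := 536870912) (P3 := 1020054732) (W3 := 13421774) (N0 := 3) (En := eng) (mo := mog) (C1 := cd1q0) (C2 := cd0q1) (C3 := pd1)
    rfl (fun _ => rfl) k0_mm_011

noncomputable def f_mm_012 : ℕ → ℕ → ℕ → ℕ → Bool := onCell 0 536870912 0 536870912 1020054732 13421774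
    (rowB 3 eng mog cd1q0 cd0q2 pd1 0 false false false .pnp 0 1 2 (qsf 0 536870912 0 536870912 1) ndB1q0 ndB0q2 pcB1 Cut.none Ext.none)

def k0_mm_012 : ∃ t, chk3 f_mm_012 t 1 1 1 = true :=
  ⟨(l 5), by decide +kernel⟩

theorem c_mm_012 : CertB 0 536870912 0 536870912 1020054732 13421774 3 eng mog cd1q0 cd0q2 pd1 false false false .pnp 0 1 2
    ndB1q0 ndB0q2 pcB1 Cut.none Ext.none :=
  certB0 (fam := false) (s1 := false) (s2 := false) (a := 0) (b := 1) (c := 2) (cn := .pnp) (n1 := ndB1q0) (n2 := ndB0q2) (pc := pcB1) (cut := Cut.none) (xt := Ext.none) (P1 := 0) (W1 := 536870912) (P2 := 0) (W2 := 536870912) (P3 := 1020054732) (W3 := 13421774) (N0 := 3) (En := eng) (mo := mog) (C1 := cd1q0) (C2 := cd0q2) (C3 := pd1)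
    rfl k0_mm_012

noncomputable def f_mm_022 : ℕ → ℕ → ℕ → ℕ → Bool := onCell 0 536870912 0 536870912 1020054732 13421774
    (rowB 3 eng mog cd1q0 cd0q2 pd2 0 false false false .pp 0 2 2 (qsf 0 536870912 0 536870912 2) ndB1q0 ndB0q2 pcB2 Cut.none Ext.none)

def k0_mm_022 : ∃ t, chk3 f_mm_022 t 1 1 1 = true :=
  ⟨(l 5), by decide +kernel⟩

theorem c_mm_022 : CertB 0 536870912 0 536870912 1020054732 13421774 3 eng mog cd1q0 cd0q2 pd2 false false false .pp 0 2 2
    ndB1q0 ndB0q2 pcB2 Cut.none Ext.none :=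
  certB0 (fam := false) (s1 := false) (s2 := false) (a := 0) (b := 2) (c := 2) (cn := .pp) (n1 := ndB1q0) (n2 := ndB0q2) (pc := pcB2) (cut := Cut.none) (xt := Ext.none) (P1 := 0) (W1 := 536870912) (P2 := 0) (W2 := 536870912) (P3 := 1020054732) (W3 := 13421774) (N0 := 3) (En := eng) (mo := mog) (C1 := cd1q0) (C2 := cd0q2) (C3 := pd2)
    rfl k0_mm_022

noncomputable def f_mm_101 : ℕ → ℕ → ℕ → ℕ → Bool := onCell 536870912 536870912 536870912 536870912 1020054732 13421774
    (rowB 3 eng mog cd1q1 cd0q1 pd0 0 false false false .npn 1 0 1 (qsf 536870912 536870912 536870912 536870912 0) ndB1q1 ndB0q1 pcB0 Cut.none Ext.none)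

def k0_mm_101 : ∃ t, chk3 f_mm_101 t 1 1 1 = true :=
  ⟨(l 3), by decide +kernel⟩

theorem c_mm_101 : CertB 536870912 536870912 536870912 536870912 1020054732 13421774 3 eng mog cd1q1 cd0q1 pd0 false false false .npn 1 0 1
    ndB1q1 ndB0q1 pcB0 Cut.none Ext.none :=
  certB0 (fam := false) (s1 := false) (s2 := false) (a := 1) (b := 0) (c := 1) (cn := .npn) (n1 := ndB1q1) (n2 := ndB0q1) (pc := pcB0) (cut := Cut.none) (xt := Ext.none) (P1 := 536870912) (W1 := 536870912) (P2 := 536870912) (W2 := 536870912) (P3 := 1020054732) (W3 := 13421774) (N0 := 3) (En := eng) (mo := mog) (C1 := cd1q1) (C2 := cd0q1) (C3 := pd0)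
    rfl k0_mm_101

noncomputable def f_mm_102 : ℕ → ℕ → ℕ → ℕ → Bool := onCell 536870912 536870912 0 536870912 1020054732 13421774
    (rowB 3 eng mog cd1q1 cd0q2 pd0 0 false false false .npp 1 0 2 (qsf 536870912 536870912 0 536870912 0) ndB1q1 ndB0q2 pcB0 Cut.none Ext.none)

def k0_mm_102 : ∃ t, chk3 f_mm_102 t 1 1 1 = true :=
  ⟨(l 5), by decide +kernel⟩

theorem c_mm_102 : CertB 536870912 536870912 0 536870912 1020054732 13421774 3 eng mog cd1q1 cd0q2 pd0 false false false .npp 1 0 2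
    ndB1q1 ndB0q2 pcB0 Cut.none Ext.none :=
  certB0 (fam := false) (s1 := false) (s2 := false) (a := 1) (b := 0) (c := 2) (cn := .npp) (n1 := ndB1q1) (n2 := ndB0q2) (pc := pcB0) (cut := Cut.none) (xt := Ext.none) (P1 := 536870912) (W1 := 536870912) (P2 := 0) (W2 := 536870912) (P3 := 1020054732) (W3 := 13421774) (N0 := 3) (En := eng) (mo := mog) (C1 := cd1q1) (C2 := cd0q2) (C3 := pd0)
    rfl k0_mm_102

noncomputable def f_mm_112 : ℕ → ℕ → ℕ → ℕ → Bool := onCell 536870912 536870912 0 536870912 1020054732 13421774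
    (rowB 3 eng mog cd1q1 cd0q2 pd1 0 false false false .dn 1 1 2 (qsf 536870912 536870912 0 536870912 1) ndB1q1 ndB0q2 pcB1 Cut.none Ext.none)

def k0_mm_112 : ∃ t, chk3 f_mm_112 t 1 1 1 = true :=
  ⟨(l 5), by decide +kernel⟩

theorem c_mm_112 : CertB 536870912 536870912 0 536870912 1020054732 13421774 3 eng mog cd1q1 cd0q2 pd1 false false false .dn 1 1 2
    ndB1q1 ndB0q2 pcB1 Cut.none Ext.none :=
  certB0 (fam := false) (s1 := false) (s2 := false) (a := 1) (b := 1) (c := 2) (cn := .dn) (n1 := ndB1q1) (n2 := ndB0q2) (pc := pcB1) (cut := Cut.none) (xt := Ext.none) (P1 := 536870912) (W1 := 536870912) (P2 := 0) (W2 := 536870912) (P3 := 1020054732) (W3 := 13421774) (N0 := 3) (En := eng) (mo := mog) (C1 := cd1q1) (C2 := cd0q2) (C3 := pd1)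
    rfl k0_mm_112

noncomputable def f_mm_202_a : ℕ → ℕ → ℕ → ℕ → Bool := onCell 0 536870912 0 536870912 1020054732 13421774
    (rowB 3 eng mog cd1q2a cd0q2 pd0 0 false false false .pp 2 0 2 (qsf 0 536870912 0 536870912 0) ndB1q2a ndB0q2 pcB0 Cut.none Ext.none)

def k0_mm_202_a : ∃ t, chk3 f_mm_202_a t 1 1 1 = true :=
  ⟨(l 3), by decide +kernel⟩

theorem c_mm_202_a : CertB 0 536870912 0 536870912 1020054732 13421774 3 eng mog cd1q2a cd0q2 pd0 false false false .pp 2 0 2
    ndB1q2a ndB0q2 pcB0 Cut.none Ext.none :=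
  certB0 (fam := false) (s1 := false) (s2 := false) (a := 2) (b := 0) (c := 2) (cn := .pp) (n1 := ndB1q2a) (n2 := ndB0q2) (pc := pcB0) (cut := Cut.none) (xt := Ext.none) (P1 := 0) (W1 := 536870912) (P2 := 0) (W2 := 536870912) (P3 := 1020054732) (W3 := 13421774) (N0 := 3) (En := eng) (mo := mog) (C1 := cd1q2a) (C2 := cd0q2) (C3 := pd0)
    rfl k0_mm_202_a

noncomputable def f_mm_202_b : ℕ → ℕ → ℕ → ℕ → Bool := onCell 1239849684 370763052 0 536870912 1020054732 13421774
    (rowB 3 eng mog cd1q2b cd0q2 pd0 0 false false false .pp 2 0 2 (qsf 1239849684 370763052 0 536870912 0) ndB1q2b ndB0q2 pcB0 Cut.none Ext.none)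

def k0_mm_202_b : ∃ t, chk3 f_mm_202_b t 1 1 1 = true :=
  ⟨(l 3), by decide +kernel⟩

theorem c_mm_202_b : CertB 1239849684 370763052 0 536870912 1020054732 13421774 3 eng mog cd1q2b cd0q2 pd0 false false false .pp 2 0 2
    ndB1q2b ndB0q2 pcB0 Cut.none Ext.none :=
  certB0 (fam := false) (s1 := false) (s2 := false) (a := 2) (b := 0) (c := 2) (cn := .pp) (n1 := ndB1q2b) (n2 := ndB0q2) (pc := pcB0) (cut := Cut.none) (xt := Ext.none) (P1 := 1239849684) (W1 := 370763052) (P2 := 0) (W2 := 536870912) (P3 := 1020054732) (W3 := 13421774) (N0 := 3) (En := eng) (mo := mog) (C1 := cd1q2b) (C2 := cd0q2) (C3 := pd0)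
    rfl k0_mm_202_b

end Pool.Agent.Strip051.G.I9500_9625.Tab.C.BB10

namespace Pool.Agent.Strip051.G.I9500_9625.Tab.C.BB11

open Pool.Agent.Strip051.PB Pool.Agent.Strip051.PB.T
open Pool.Agent.Strip051.G.I9500_9625.Tab

noncomputable def f_pp_001 : ℕ → ℕ → ℕ → ℕ → Bool := onCell 0 536870912 536870912 536870912 1020054732 13421774
    (rowB 3 eng mog cd1q0 cd1q1 pd0 0 false true true .up 0 0 1 (qsf 0 536870912 536870912 536870912 0) ndB1q0 ndB1q1 pcB0 Cut.none Ext.none)

def k0_pp_001 : ∃ t, chk3 f_pp_001 t 1 1 1 = true :=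
  ⟨(l 3), by decide +kernel⟩

theorem c_pp_001 : CertB 0 536870912 536870912 536870912 1020054732 13421774 3 eng mog cd1q0 cd1q1 pd0 false true true .up 0 0 1
    ndB1q0 ndB1q1 pcB0 Cut.none Ext.none :=
  certB0 (fam := false) (s1 := true) (s2 := true) (a := 0) (b := 0) (c := 1) (cn := .up) (n1 := ndB1q0) (n2 := ndB1q1) (pc := pcB0) (cut := Cut.none) (xt := Ext.none) (P1 := 0) (W1 := 536870912) (P2 := 536870912) (W2 := 536870912) (P3 := 1020054732) (W3 := 13421774) (N0 := 3) (En := eng) (mo := mog) (C1 := cd1q0) (C2 := cd1q1) (C3 := pd0)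
    rfl k0_pp_001

noncomputable def f_pp_011 : ℕ → ℕ → ℕ → ℕ → Bool := onCell 0 536870912 536870912 536870912 1020054732 13421774
    (rowB 3 eng mog cd1q0 cd1q1 pd1 0 false true true .pnn 0 1 1 (qsf 0 536870912 536870912 536870912 1) ndB1q0 ndB1q1 pcB1 Cut.none Ext.none)

def k0_pp_011 : ∃ t, chk3 f_pp_011 t 1 1 1 = true :=
  ⟨(l 3), by decide +kernel⟩

theorem c_pp_011 : CertB 0 536870912 536870912 536870912 1020054732 13421774 3 eng mog cd1q0 cd1q1 pd1 false true true .pnn 0 1 1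
    ndB1q0 ndB1q1 pcB1 Cut.none Ext.none :=
  certB0 (fam := false) (s1 := true) (s2 := true) (a := 0) (b := 1) (c := 1) (cn := .pnn) (n1 := ndB1q0) (n2 := ndB1q1) (pc := pcB1) (cut := Cut.none) (xt := Ext.none) (P1 := 0) (W1 := 536870912) (P2 := 536870912) (W2 := 536870912) (P3 := 1020054732) (W3 := 13421774) (N0 := 3) (En := eng) (mo := mog) (C1 := cd1q0) (C2 := cd1q1) (C3 := pd1)
    rfl k0_pp_011

noncomputable def cut_pp_012_a : Cut := Cut.of [[⟨0, 0, 0, 38347922⟩, ⟨1, 1, 0, 38347922⟩, ⟨2, 1, 0, 38347922⟩]]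

noncomputable def xt_pp_012_a : Ext := extD3 3 ⟨4, 1, 1, 5, 99, 20, 33, 40, 51, 125, 1, 32⟩ eng cd1q0 cd1q2a pd1 false true true .pnp 0 1 2 rfl ndB1q0 ndB1q2a pcB1

noncomputable def f_pp_012_a : ℕ → ℕ → ℕ → ℕ → Bool := onCell 536870912 536870912 0 536870912 1020054732 13421774
    (rowB 3 eng mog cd1q0 cd1q2a pd1 2 false true true .pnp 0 1 2 (qsf 0 536870912 0 536870912 1) ndB1q0 ndB1q2a pcB1 cut_pp_012_a xt_pp_012_a)

def k0_pp_012_a : ∃ t, chk3 f_pp_012_a t 2 4 1 = true :=
  ⟨(a (l 2) (a (b (a (a (l 2) (a (l 2) (b (l 16628088) (l 16568904)))) (c (c (l 16639000) (l 16633576)) (a (l 16556056) (l 16603208)))) (a (a (l 2) (b (a (l 2) (c (l 225586135751) (b (l 16655384) (l 16658136)))) (b (a (l 43117233687) (c (l 84456159223) (l 78550728007))) (l 3)))) (c (a (b (b (l 16675800) (l 16660792)) (b (a (l 124184612295) (l 16649600)) (a (l 16636936) (l 93046096119)))) (b (l 16676160) (c (l 138143256135) (l 141364511319)))) (a (b (b (l 16649112) (l 16653328)) (b (a (l 115057953911)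 (l 16656216)) (a (l 16661360) (l 86066915735)))) (b (l 16641336) (b (l 16650768) (a (l 119352920775) (l 16655520)))))))) (a (c (b (a (l 16689000) (l 16698144)) (a (b (l 16679000) (l 16639904)) (l 16607568))) (b (l 16468880) (a (b (l 16628232) (b (l 16640768) (l 16649344))) (b (l 16611904) (l 16632896))))) (b (c (a (l 16677248) (l 16649472)) (l 16377824)) (c (a (l 16665072) (l 16653720)) (b (l 16560504) (l 16524256))))))), by decide +kernel⟩

def k1_pp_012_a : ∃ t, chk3 f_pp_012_a t 2 5 1 = true :=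
  ⟨(a (l 3) (a (a (l 3) (b (a (l 3) (b (c (a (l 61907689063) (l 83919331655)) (b (a (l 16662360) (l 98414901159)) (l 3))) (l 3))) (l 3))) (b (a (b (a (c (c (a (l 104320391191) (l 16623896)) (l 115057866663)) (b (a (l 121500406775) (l 16655968)) (a (l 72645112791) (l 107541702279)))) (c (a (l 16630688) (l 16654936)) (a (b (l 16651552) (l 16661472)) (l 16651984)))) (b (a (l 3) (a (c (l 16646008) (l 87140615271)) (c (l 16628184) (l 116131637335)))) (l 3))) (a (b (c (l 16657336) (l 16622200)) (c (a (l 116131602039) (l 135458969335)) (c (l 120426588071) (a (l 116668497783) (l 133848365943))))) (a (b (l 16644640) (c (l 16657464) (l 16661536))) (b (l 16639272) (c (l 16658368) (l 16655552)))))) (a (l 3) (b (a (c (l 70497503575) (a (l 3) (l 74792479127))) (c (b (l 115057864871) (l 82308706455)) (b (a (l 105931073527) (l 16677136)) (l 88751135159)))) (l 3)))))), by decide +kernel⟩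

def k2_pp_012_a : ∃ t, chk3 f_pp_012_a t 2 3 1 = true :=
  ⟨(l 3), by decide +kernel⟩

def k3_pp_012_a : ∃ t, chk3 f_pp_012_a t 6 2 1 = true :=
  ⟨(a (b (a (a (b (c (l 16554440) (l 16509296)) (l 16473144)) (b (b (l 16528184) (l 16479240)) (l 16490744))) (c (b (l 16365448) (l 16444152)) (b (l 16385832) (a (l 16505840) (l 16478616))))) (b (b (a (a (l 16587064) (l 16611432)) (l 16409584)) (a (a (c (l 16656856) (l 16644624)) (l 16575328)) (a (l 16600040) (l 16599608)))) (a (b (a (c (b (l 16663488) (l 121500329575)) (a (b (l 16673008) (l 115594741095)) (l 144585768199))) (c (l 16665304) (a (l 16669440) (l 16661928)))) (a (a (l 3) (c (l 93582944743) (l 99488497735))) (c (a (l 107541611079) (l 125795252071)) (a (l 109689065671) (l 128479578903))))) (a (b (c (l 16658352) (l 16648640)) (c (b (l 16674672) (l 16641144)) (b (l 16680464) (l 142975129671)))) (b (l 16594600) (a (l 16656696) (l 16670600))))))) (b (a (b (c (l 16486536) (l 16464424)) (c (a (l 16522232) (l 16492352))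 (a (l 16456096) (l 16439856)))) (b (c (l 16469424) (l 16481048)) (a (c (l 16467632) (l 16431984)) (l 16443504)))) (a (b (c (l 16520968) (l 16497360)) (a (b (l 16615280) (l 16615504)) (b (l 16590400) (l 16636128)))) (b (a (l 16430520) (b (l 16441296) (l 16482800))) (c (l 16476888) (l 16459104)))))), by decide +kernel⟩

def k4_pp_012_a : ∃ t, chk3 f_pp_012_a t 6 3 1 = true :=
  ⟨(b (a (a (l 3) (b (b (a (a (l 110225837319) (b (l 123110864695) (l 3))) (c (a (l 125258317735) (l 16609096)) (b (l 147270094727) (l 132237610679)))) (l 3)) (l 3))) (b (b (a (a (c (l 144585727111) (b (l 16691768) (l 16649688))) (a (l 16687720) (l 16678056))) (a (l 16661416) (l 16636192))) (a (b (a (a (l 127405774007) (l 137069498055)) (a (l 16684952) (l 16712840))) (a (l 3) (a (l 143511890615) (l 16599344)))) (a (a (l 16674552) (l 16686304)) (l 16648328)))) (a (a (l 3) (a (l 3) (b (l 141364191559) (l 3)))) (b (a (b (a (l 136532561895) (l 16672504)) (a (l 3) (l 164986649703))) (b (l 16667376)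 (a (l 219210802583) (l 16686696)))) (a (l 3) (b (a (l 3) (l 183777117431)) (l 3))))))) (l 3)), by decide +kernel⟩

def k5_pp_012_a : ∃ t, chk3 f_pp_012_a t 14 1 1 = true :=
  ⟨(b (b (a (c (b (l 16481792) (l 16445296)) (b (l 16518672) (l 16454496))) (a (l 16336960) (l 16343752))) (a (b (a (b (l 16422904) (l 16449016)) (b (l 16420776) (l 16422400))) (c (l 16452856) (l 16443384))) (b (a (b (l 16430168) (l 16410064)) (l 16412136)) (b (a (l 16434864) (l 16350616)) (l 16431624))))) (b (a (b (a (b (l 16608176) (l 16643448)) (b (l 16578152) (l 16614944))) (a (b (a (l 16685856) (l 16694304)) (b (a (l 16593568) (l 16726624)) (a (l 194514468263) (l 238538184647)))) (a (b (l 16680856) (a (l 117742293063) (l 16739728))) (b (l 16666720) (l 16684592))))) (b (a (b (l 16546944) (l 16605632)) (b (l 16515464) (l 16574464))) (a (b (a (l 16673000) (l 16657864)) (b (l 16668632) (l 16678024))) (b (l 16550648) (a (l 16661224) (l 16645504)))))) (b (a (b (a (l 3) (b (a (l 197735672343)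 (b (l 16682136) (l 16550136))) (l 3))) (l 3)) (b (a (a (b (l 16718968) (a (l 140290494919) (l 76939779431))) (b (l 16743008) (b (l 16707528) (l 16549088)))) (b (c (l 16692800) (l 16726040)) (a (l 16730008) (l 16742424)))) (a (l 3) (b (a (b (a (l 16649456) (l 16684984)) (l 240148845255)) (b (l 16741744) (l 175187622647))) (b (a (l 3) (l 259476264167)) (l 3)))))) (l 3)))), by decide +kernel⟩

def k6_pp_012_a : ∃ t, chk3 f_pp_012_a t 15 2 1 = true :=
  ⟨(b (a (b (l 16440072) (l 16333952)) (a (l 16443536) (l 16321416))) (b (a (a (l 16413480) (l 16401768)) (c (l 16349480) (l 16429968))) (a (a (b (l 16347560) (l 16408976)) (b (l 16432528) (a (l 16415560) (l 16414120)))) (a (a (l 16333080) (l 16393536)) (a (l 16392520) (l 16393816)))))), by decide +kernel⟩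

def k7_pp_012_a : ∃ t, chk3 f_pp_012_a t 30 3 1 = true :=
  ⟨(b (b (a (b (l 16484816) (l 16543432)) (b (l 16456104) (l 16492488))) (a (b (l 16519200) (a (l 16629552) (l 16613368))) (b (l 16466944) (a (l 16596976) (l 16580672))))) (b (b (a (a (b (l 16716808) (l 16726112)) (b (l 16679288) (l 16714544))) (b (a (l 16662328) (l 16645272)) (a (l 16670968) (l 16653400)))) (a (a (b (b (l 16748696) (l 16741176)) (b (a (l 16618888) (l 16722304)) (a (l 3) (l 268603103863)))) (b (l 16718200) (a (b (l 16763304) (l 16702856)) (l 16748168)))) (a (b (l 16700424) (c (l 16744968) (l 16744216))) (b (l 141785494540894271) (a (l 16736616) (l 16727224)))))) (b (a (b (a (l 3) (b (a (l 326048234071) (l 218137290407)) (l 3))) (l 3)) (b (a (b (a (l 16727368) (l 16745096)) (a (l 319605750807) (b (l 16726560) (l 294372967159)))) (a (b (l 16768520) (l 16732608)) (l 16726832))) (a (l 3) (b (a (b (l 224579756263) (l 355576152551)) (b (l 16754848) (l 226190371431))) (a (l 3) (b (l 360944910567)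 (l 3))))))) (l 3)))), by decide +kernel⟩

def k8_pp_012_a : ∃ t, chk3 f_pp_012_a t 31 3 1 = true :=
  ⟨(b (b (a (b (a (l 16437816) (l 16368816)) (l 16422928)) (b (a (b (l 16427088) (l 16431480)) (b (l 16447216) (l 16390904))) (l 16379800))) (a (b (a (l 16549336) (l 16534720)) (a (l 16543584) (l 16527232))) (b (b (l 16482048) (l 16487584)) (a (l 16512776) (l 16501248))))) (b (a (b (a (c (l 16610416) (l 16633040)) (c (l 16590528) (l 16616624))) (a (a (b (l 16689672) (l 16696816)) (b (l 16680120) (l 16686832))) (b (c (l 16655120) (l 16675480)) (a (l 16676352) (l 16666136))))) (b (a (b (l 16594720) (l 16600336)) (b (l 16582224) (l 16587152))) (a (b (l 16605672) (a (l 16656856) (l 16648576))) (b (a (l 16636880) (l 16630800)) (a (l 16641256) (l 16634856)))))) (a (b (b (a (a (l 16724528) (l 16714096)) (b (l 142235538411847807) (c (l 16719400) (l 16709816)))) (a (a (a (b (l 16744664) (l 304573530535)) (b (l 16746768) (a (l 256792022135) (l 250886443047)))) (b (l 16748784)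 (a (a (l 16744568) (l 16745520)) (l 16747232)))) (a (b (l 16743688) (l 600225201870335199997567)) (b (l 16732488) (l 16739880))))) (b (a (b (a (l 3) (b (a (l 386177933303) (l 239075287623)) (l 3))) (l 3)) (b (a (b (a (l 16758056) (l 16749864)) (a (l 381882951239) (l 5815534705650181793775562367))) (b (l 16752888) (a (l 16761600) (l 6)))) (a (l 3) (l 6)))) (l 3))) (b (a (a (b (b (l 16697080) (l 16709776)) (b (l 16722312) (l 143036395283202175))) (b (b (l 16688464) (l 16700928)) (b (l 16713232) (b (l 16722344) (l 6))))) (b (a (c (l 16678656) (l 16695576)) (b (l 16674216) (l 16686312))) (a (b (l 16705224) (l 6)) (l 6)))) (b (l 6) (l 6)))))), by decide +kernel⟩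

theorem s9_pp_012_a : ∃ t, chk3 f_pp_012_a t 15 3 1 = true := ex3_a k7_pp_012_a k8_pp_012_a

theorem s10_pp_012_a : ∃ t, chk3 f_pp_012_a t 15 1 1 = true := ex3_b k6_pp_012_a s9_pp_012_a

theorem s11_pp_012_a : ∃ t, chk3 f_pp_012_a t 7 1 1 = true := ex3_a k5_pp_012_a s10_pp_012_a

theorem s12_pp_012_a : ∃ t, chk3 f_pp_012_a t 6 1 1 = true := ex3_b k3_pp_012_a k4_pp_012_a

theorem s13_pp_012_a : ∃ t, chk3 f_pp_012_a t 3 1 1 = true := ex3_a s12_pp_012_a s11_pp_012_a

theorem s14_pp_012_a : ∃ t, chk3 f_pp_012_a t 2 2 1 = true := ex3_b k0_pp_012_a k1_pp_012_a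

theorem s15_pp_012_a : ∃ t, chk3 f_pp_012_a t 2 1 1 = true := ex3_b s14_pp_012_a k2_pp_012_a

theorem s16_pp_012_a : ∃ t, chk3 f_pp_012_a t 1 1 1 = true := ex3_a s15_pp_012_a s13_pp_012_a

theorem c_pp_012_a : CertB 0 536870912 0 536870912 1020054732 13421774 3 eng mog cd1q0 cd1q2a pd1 false true true .pnp 0 1 2
    ndB1q0 ndB1q2a pcB1 cut_pp_012_a xt_pp_012_a :=
  certB2 (fam := false) (s1 := true) (s2 := true) (a := 0) (b := 1) (c := 2) (cn := .pnp) (n1 := ndB1q0) (n2 := ndB1q2a) (pc := pcB1) (cut := cut_pp_012_a) (xt := xt_pp_012_a) (P1 := 0) (W1 := 536870912) (P2 := 0) (W2 := 536870912) (P3 := 1020054732) (W3 := 13421774) (N0 := 3) (En := eng) (mo := mog) (C1 := cd1q0) (C2 := cd1q2a) (C3 := pd1)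
    rfl (fun _ => rfl) s16_pp_012_a

noncomputable def cut_pp_012_b : Cut := Cut.of [[⟨0, 0, 0, 38347922⟩, ⟨1, 1, 0, 38347922⟩, ⟨2, 1, 0, 38347922⟩]]

noncomputable def f_pp_012_b : ℕ → ℕ → ℕ → ℕ → Bool := onCell 536870912 536870912 1239849684 370763052 1020054732 13421774
    (rowB 3 eng mog cd1q0 cd1q2b pd1 2 false true true .pnp 0 1 2 (qsf 0 536870912 1239849684 370763052 1) ndB1q0 ndB1q2b pcB1 cut_pp_012_b Ext.none)

def k0_pp_012_b : ∃ t, chk3 f_pp_012_b t 1 1 1 = true :=
  ⟨(a (a (l 2) (b (a (b (b (a (c (l 215922563639) (l 16498424)) (c (l 16663936) (l 16545936))) (l 2)) (l 2)) (b (b (a (c (l 16679040) (l 16518136)) (c (a (l 16638216) (l 16592704)) (l 16399440))) (a (l 16367320) (a (l 16425864) (l 16389536)))) (a (l 2) (a (l 2) (l 16231288))))) (l 2))) (a (b (a (b (a (b (a (l 16456296) (l 16470736)) (l 16205752)) (a (l 16209064) (l 16274160))) (a (a (l 16165760) (l 16142176)) (c (l 16241976) (l 16181912)))) (b (a (b (l 16379472) (l 16307248)) (b (l 16343008)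 (l 16302264))) (a (l 16035968) (l 16076448)))) (a (l 2) (b (a (l 16017360) (l 15969520)) (l 2)))) (b (a (b (a (c (l 16217160) (l 16392888)) (b (l 16367464) (l 16372400))) (a (l 16061392) (l 16054168))) (b (a (b (l 16429288) (l 16448768)) (b (l 16277352) (l 16528888))) (a (b (l 16310072) (l 16182288)) (l 16253992)))) (a (b (a (l 15952424) (l 15966368)) (a (l 2) (l 15802912))) (b (a (l 16011616) (l 16088432)) (a (l 15827288) (l 15885000))))))), by decide +kernel⟩

theorem c_pp_012_b : CertB 0 536870912 1239849684 370763052 1020054732 13421774 3 eng mog cd1q0 cd1q2b pd1 false true true .pnp 0 1 2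
    ndB1q0 ndB1q2b pcB1 cut_pp_012_b Ext.none :=
  certB2 (fam := false) (s1 := true) (s2 := true) (a := 0) (b := 1) (c := 2) (cn := .pnp) (n1 := ndB1q0) (n2 := ndB1q2b) (pc := pcB1) (cut := cut_pp_012_b) (xt := Ext.none) (P1 := 0) (W1 := 536870912) (P2 := 1239849684) (W2 := 370763052) (P3 := 1020054732) (W3 := 13421774) (N0 := 3) (En := eng) (mo := mog) (C1 := cd1q0) (C2 := cd1q2b) (C3 := pd1)
    rfl (fun _ => rfl) k0_pp_012_b

noncomputable def cut_pp_022_a : Cut := Cut.of [[⟨0, 0, 0, 33554432⟩, ⟨1, 1, 0, 33554432⟩, ⟨2, 1, 0, 33554432⟩]]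

noncomputable def f_pp_022_a : ℕ → ℕ → ℕ → ℕ → Bool := onCell 1073741824 536870912 0 536870912 1020054732 13421774
    (rowB 3 eng mog cd1q0 cd1q2a pd2 2 false true true .pp 0 2 2 (qsf 0 536870912 0 536870912 2) ndB1q0 ndB1q2a pcB2 cut_pp_022_a Ext.none)

def k0_pp_022_a : ∃ t, chk3 f_pp_022_a t 2 2 1 = true :=
  ⟨(a (a (b (a (b (l 16383296) (l 16426240)) (b (l 16347056) (l 16404952))) (a (b (a (l 16484176) (l 16460200)) (b (l 16468320) (b (l 16515488) (l 16512632)))) (b (c (l 16439224) (l 16493096)) (b (l 16515456) (l 16516552))))) (b (a (b (l 16312560) (l 16363440)) (b (l 16280256) (l 16323104))) (a (b (l 16407224) (a (l 16510872) (l 16482464))) (b (l 16401032) (b (l 16476648) (l 16400088)))))) (a (b (b (a (l 16250704) (l 1)) (a (c (l 16327112) (l 16367992)) (l 1))) (a (b (l 16353608) (c (l 16382240) (l 452077989479))) (l 1))) (l 1))), by decide +kernel⟩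

def k1_pp_022_a : ∃ t, chk3 f_pp_022_a t 16 3 1 = true :=
  ⟨(b (b (a (b (l 16556168) (a (l 16609376) (l 16637832))) (a (l 16542424) (l 16569168))) (b (a (a (l 16621808) (l 16621960)) (l 16548136)) (a (b (l 16611776) (l 16612480)) (a (l 16597288) (l 16593920))))) (b (b (a (a (l 16648536) (l 16622112)) (c (l 16589520) (l 16594536))) (a (b (l 16617632) (a (l 16677656) (l 16647280))) (b (l 16538120) (a (b (l 16616160) (l 16616560)) (b (l 16585096) (a (l 16592664) (l 16576560))))))) (b (a (b (a (b (a (l 16688824) (l 16673368)) (a (b (l 16691808) (l 16696536)) (l 16657416))) (b (b (l 16648984) (a (l 16658056) (b (l 16641632) (l 16642432)))) (a (l 16641544) (c (l 16649136) (l 16643456))))) (l 6)) (b (a (b (b (a (l 16625032) (l 16608976)) (a (b (l 16625552) (l 16626632)) (c (l 16615424) (l 16604424)))) (a (c (l 16633440) (l 16626280)) (c (b (l 16616800) (l 16618192)) (b (l 16607432) (l 16610448))))) (b (b (a (a (l 16596800) (l 16567672)) (b (l 16555296) (c (l 16584248)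 (l 16568472)))) (c (a (l 16600096) (l 16584456)) (a (l 16587440) (l 16570216)))) (c (a (b (l 16600888) (l 16580768)) (b (l 16584744) (a (l 16568296) (l 16559920)))) (a (b (l 16590080) (l 16582312)) (b (l 16562080) (a (l 16558488) (l 16560040))))))) (a (l 6) (a (l 6) (a (l 6) (a (l 6) (l 1))))))) (a (l 6) (a (l 6) (l 1)))))), by decide +kernel⟩

def k2_pp_022_a : ∃ t, chk3 f_pp_022_a t 17 3 1 = true :=
  ⟨(b (b (a (b (l 16590088) (l 16557560)) (l 16442352)) (a (b (l 16525352) (l 16514688)) (b (l 16480136) (l 16442472)))) (b (b (a (a (l 16560952) (l 16532600)) (b (l 16493176) (l 17212681047))) (a (b (a (l 16555728) (l 16524848)) (a (b (l 16553472) (a (l 16539336) (b (l 16544288) (a (l 16547672) (l 16518456))))) (b (c (l 16533440) (l 16508960)) (a (b (l 16527856) (c (l 16538344) (l 413960473927))) (l 1))))) (b (a (l 16451480) (l 16461432)) (b (a (l 16488504) (l 1)) (l 1))))) (a (b (b (a (a (b (b (b (c (l 16568904) (l 16529600)) (c (l 16568744) (l 16551312))) (c (l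 16568568) (l 16542344))) (a (c (b (l 16551520) (l 16551496)) (b (l 16538360) (l 16540592))) (c (l 16558880) (b (l 16529496) (l 1))))) (b (c (b (a (l 16557064) (l 16549184)) (l 16552456)) (b (a (b (l 16537416) (l 16538312)) (l 16529176)) (l 16535280))) (l 1))) (l 1)) (l 1)) (l 1)) (l 1)))), by decide +kernel⟩

def k3_pp_022_a : ∃ t, chk3 f_pp_022_a t 9 3 1 = true :=
  ⟨(b (b (a (a (l 16404256) (b (l 16463008) (l 16434896))) (a (b (l 16425408) (l 16391296)) (l 58014528967))) (a (b (a (l 16454360) (l 16385064)) (a (a (l 16465784) (l 16438824)) (l 16292632))) (b (a (l 16377016) (l 1)) (l 1)))) (a (b (b (a (b (l 16435168) (l 16381776)) (l 1)) (l 1)) (l 1)) (l 1))), by decide +kernel⟩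

def k4_pp_022_a : ∃ t, chk3 f_pp_022_a t 5 3 1 = true :=
  ⟨(b (l 1) (l 1)), by decide +kernel⟩

def k5_pp_022_a : ∃ t, chk3 f_pp_022_a t 3 1 1 = true :=
  ⟨(l 1), by decide +kernel⟩

theorem s6_pp_022_a : ∃ t, chk3 f_pp_022_a t 8 3 1 = true := ex3_a k1_pp_022_a k2_pp_022_a

theorem s7_pp_022_a : ∃ t, chk3 f_pp_022_a t 4 3 1 = true := ex3_a s6_pp_022_a k3_pp_022_a

theorem s8_pp_022_a : ∃ t, chk3 f_pp_022_a t 2 3 1 = true := ex3_a s7_pp_022_a k4_pp_022_a

theorem s9_pp_022_a : ∃ t, chk3 f_pp_022_a t 2 1 1 = true := ex3_b k0_pp_022_a s8_pp_022_a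

theorem s10_pp_022_a : ∃ t, chk3 f_pp_022_a t 1 1 1 = true := ex3_a s9_pp_022_a k5_pp_022_a

theorem c_pp_022_a : CertB 0 536870912 0 536870912 1020054732 13421774 3 eng mog cd1q0 cd1q2a pd2 false true true .pp 0 2 2
    ndB1q0 ndB1q2a pcB2 cut_pp_022_a Ext.none :=
  certB2 (fam := false) (s1 := true) (s2 := true) (a := 0) (b := 2) (c := 2) (cn := .pp) (n1 := ndB1q0) (n2 := ndB1q2a) (pc := pcB2) (cut := cut_pp_022_a) (xt := Ext.none) (P1 := 0) (W1 := 536870912) (P2 := 0) (W2 := 536870912) (P3 := 1020054732) (W3 := 13421774) (N0 := 3) (En := eng) (mo := mog) (C1 := cd1q0) (C2 := cd1q2a) (C3 := pd2)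
    rfl (fun _ => rfl) s10_pp_022_a

noncomputable def cut_pp_022_b : Cut := Cut.of [[⟨0, 0, 0, 33554432⟩, ⟨1, 1, 0, 33554432⟩, ⟨2, 1, 0, 33554432⟩]]

noncomputable def f_pp_022_b : ℕ → ℕ → ℕ → ℕ → Bool := onCell 1073741824 536870912 1239849684 370763052 1020054732 13421774
    (rowB 3 eng mog cd1q0 cd1q2b pd2 2 false true true .pp 0 2 2 (qsf 0 536870912 1239849684 370763052 2) ndB1q0 ndB1q2b pcB2 cut_pp_022_b Ext.none)

def k0_pp_022_b : ∃ t, chk3 f_pp_022_b t 1 1 1 = true :=
  ⟨(a (b (a (b (a (b (a (l 16278392) (l 16233976)) (l 15982744)) (b (a (l 16191552) (l 16151592)) (l 15851544))) (a (b (l 15932000) (l 15790256)) (b (l 15837768) (l 15690896)))) (b (a (b (a (l 16093688) (l 16039504)) (a (l 15936336) (l 15898976))) (b (a (l 304437556455) (l 1)) (a (l 15865376) (l 15836480)))) (a (b (l 15750368) (l 15596432)) (b (l 15674376) (l 15511232))))) (a (b (a (l 15605912) (l 15499048)) (a (l 15413568) (l 15296344))) (b (a (l 15394328) (l 15296232)) (a (l 15177544) (l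 15061952))))) (b (a (b (l 1) (a (a (l 313563192519) (l 322153074567)) (b (l 1) (l 462813136567)))) (l 1)) (a (b (a (b (l 15281192) (l 15137536)) (b (l 15092848) (l 15061848))) (a (l 14954792) (l 14861856))) (b (a (b (l 1) (l 400535809431)) (l 1)) (a (b (l 14856168) (l 14720616)) (b (l 434895126519) (l 14668576))))))), by decide +kernel⟩

theorem c_pp_022_b : CertB 0 536870912 1239849684 370763052 1020054732 13421774 3 eng mog cd1q0 cd1q2b pd2 false true true .pp 0 2 2
    ndB1q0 ndB1q2b pcB2 cut_pp_022_b Ext.none :=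
  certB2 (fam := false) (s1 := true) (s2 := true) (a := 0) (b := 2) (c := 2) (cn := .pp) (n1 := ndB1q0) (n2 := ndB1q2b) (pc := pcB2) (cut := cut_pp_022_b) (xt := Ext.none) (P1 := 0) (W1 := 536870912) (P2 := 1239849684) (W2 := 370763052) (P3 := 1020054732) (W3 := 13421774) (N0 := 3) (En := eng) (mo := mog) (C1 := cd1q0) (C2 := cd1q2b) (C3 := pd2)
    rfl (fun _ => rfl) k0_pp_022_b

noncomputable def f_pp_023 : ℕ → ℕ → ℕ → ℕ → Bool := onCell 1073741824 536870912 1610612736 536870912 1020054732 13421774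
    (rowB 3 eng mog cd1q0 cd1q3 pd2 2 false true true .up 0 2 3 (qsf 0 536870912 1610612736 536870912 2) ndB1q0 ndB1q3 pcB2 Cut.none Ext.none)

def k0_pp_023 : ∃ t, chk3 f_pp_023 t 1 1 1 = true :=
  ⟨(a (b (a (b (a (b (l 15504272) (l 15405968)) (b (l 15382032) (l 15277672))) (a (l 2) (l 183169852983))) (b (a (b (l 15254184) (l 15140704)) (b (l 15126248) (l 15001080))) (a (b (l 15060328) (l 15016416)) (l 14670024)))) (b (a (l 2) (a (l 2) (l 14832080))) (l 2))) (b (a (b (a (b (l 15003936) (l 14864992)) (b (l 14893248) (l 14738840))) (a (l 14618928) (l 14575376))) (b (a (b (l 14800616) (l 14629272)) (b (a (l 14745176) (b (l 14789664) (l 14730840))) (a (l 14595016) (l 14714632)))) (a (b (l 14494376) (l 14408120)) (b (a (l 14512560) (l 14711312)) (l 14609136))))) (a (b (a (l 14671472) (l 14494152)) (b (l 14658816) (l 2))) (b (a (b (l 14360424) (l 14355024)) (l 14612768)) (a (b (l 14401272) (l 14503464)) (b (l 14697712) (l 14803776))))))), by decide +kernel⟩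

theorem c_pp_023 : CertB 0 536870912 1610612736 536870912 1020054732 13421774 3 eng mog cd1q0 cd1q3 pd2 false true true .up 0 2 3
    ndB1q0 ndB1q3 pcB2 Cut.none Ext.none :=
  certB2 (fam := false) (s1 := true) (s2 := true) (a := 0) (b := 2) (c := 3) (cn := .up) (n1 := ndB1q0) (n2 := ndB1q3) (pc := pcB2) (cut := Cut.none) (xt := Ext.none) (P1 := 0) (W1 := 536870912) (P2 := 1610612736) (W2 := 536870912) (P3 := 1020054732) (W3 := 13421774) (N0 := 3) (En := eng) (mo := mog) (C1 := cd1q0) (C2 := cd1q3) (C3 := pd2)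
    rfl (fun _ => rfl) k0_pp_023

noncomputable def f_pp_033 : ℕ → ℕ → ℕ → ℕ → Bool := onCell 0 536870912 1610612736 536870912 1020054732 13421774
    (rowB 3 eng mog cd1q0 cd1q3 pd3 1 false true true .pnn 0 3 3 (qsf 0 536870912 1610612736 536870912 3) ndB1q0 ndB1q3 pcB3 Cut.none Ext.none)

def k0_pp_033 : ∃ t, chk3 f_pp_033 t 1 1 1 = true :=
  ⟨(a (b (b (a (b (a (b (l 14899216) (l 14920312)) (l 15168600)) (a (b (l 14933584) (l 14943696)) (l 15257696))) (b (a (l 15526720) (l 15792120)) (a (l 15549896) (l 15807784)))) (b (a (a (b (l 14952360) (l 14957336)) (l 15275288)) (b (l 15698656) (l 4))) (l 4))) (a (l 4) (b (l 4) (a (b (l 4) (l 2)) (l 2))))) (b (a (b (b (l 16118968) (a (l 16021128) (b (l 16182168) (l 16167992)))) (b (a (b (l 16028488) (l 4)) (l 4)) (l 4))) (b (b (a (b (l 16333640) (l 16315200)) (l 16457800)) (a (l 16340048) (l 16441456))) (a (b (l 4) (l 2)) (l 2)))) (a (b (a (b (l 4) (l 2)) (l 2)) (l 2)) (l 2)))), by decide +kernel⟩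

theorem c_pp_033 : CertB 0 536870912 1610612736 536870912 1020054732 13421774 3 eng mog cd1q0 cd1q3 pd3 false true true .pnn 0 3 3
    ndB1q0 ndB1q3 pcB3 Cut.none Ext.none :=
  certB1 (fam := false) (s1 := true) (s2 := true) (a := 0) (b := 3) (c := 3) (cn := .pnn) (n1 := ndB1q0) (n2 := ndB1q3) (pc := pcB3) (cut := Cut.none) (xt := Ext.none) (P1 := 0) (W1 := 536870912) (P2 := 1610612736) (W2 := 536870912) (P3 := 1020054732) (W3 := 13421774) (N0 := 3) (En := eng) (mo := mog) (C1 := cd1q0) (C2 := cd1q3) (C3 := pd3)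
    rfl (fun _ => rfl) k0_pp_033

noncomputable def f_pp_101 : ℕ → ℕ → ℕ → ℕ → Bool := onCell 536870912 536870912 536870912 536870912 1020054732 13421774
    (rowB 3 eng mog cd1q1 cd1q1 pd0 0 false true true .npn 1 0 1 (qsf 536870912 536870912 536870912 536870912 0) ndB1q1 ndB1q1 pcB0 Cut.none Ext.none)

def k0_pp_101 : ∃ t, chk3 f_pp_101 t 1 1 1 = true :=
  ⟨(l 3), by decide +kernel⟩

theorem c_pp_101 : CertB 536870912 536870912 536870912 536870912 1020054732 13421774 3 eng mog cd1q1 cd1q1 pd0 false true true .npn 1 0 1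
    ndB1q1 ndB1q1 pcB0 Cut.none Ext.none :=
  certB0 (fam := false) (s1 := true) (s2 := true) (a := 1) (b := 0) (c := 1) (cn := .npn) (n1 := ndB1q1) (n2 := ndB1q1) (pc := pcB0) (cut := Cut.none) (xt := Ext.none) (P1 := 536870912) (W1 := 536870912) (P2 := 536870912) (W2 := 536870912) (P3 := 1020054732) (W3 := 13421774) (N0 := 3) (En := eng) (mo := mog) (C1 := cd1q1) (C2 := cd1q1) (C3 := pd0)
    rfl k0_pp_101

noncomputable def f_pp_102_a : ℕ → ℕ → ℕ → ℕ → Bool := onCell 0 536870912 0 536870912 1020054732 13421774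
    (rowB 3 eng mog cd1q1 cd1q2a pd0 2 false true true .npp 1 0 2 (qsf 536870912 536870912 0 536870912 0) ndB1q1 ndB1q2a pcB0 Cut.none Ext.none)

def k0_pp_102_a : ∃ t, chk3 f_pp_102_a t 1 1 1 = true :=
  ⟨(a (a (l 3) (l 3)) (l 3)), by decide +kernel⟩

theorem c_pp_102_a : CertB 536870912 536870912 0 536870912 1020054732 13421774 3 eng mog cd1q1 cd1q2a pd0 false true true .npp 1 0 2
    ndB1q1 ndB1q2a pcB0 Cut.none Ext.none :=
  certB2 (fam := false) (s1 := true) (s2 := true) (a := 1) (b := 0) (c := 2) (cn := .npp) (n1 := ndB1q1) (n2 := ndB1q2a) (pc := pcB0) (cut := Cut.none) (xt := Ext.none) (P1 := 536870912) (W1 := 536870912) (P2 := 0) (W2 := 536870912) (P3 := 1020054732) (W3 := 13421774) (N0 := 3) (En := eng) (mo := mog) (C1 := cd1q1) (C2 := cd1q2a) (C3 := pd0)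
    rfl (fun _ => rfl) k0_pp_102_a

noncomputable def f_pp_102_b : ℕ → ℕ → ℕ → ℕ → Bool := onCell 536870912 536870912 0 536870912 1020054732 13421774
    (rowB 3 eng mog cd1q1 cd1q2b pd0 1 false true true .npp 1 0 2 (qsf 536870912 536870912 1239849684 370763052 0) ndB1q1 ndB1q2b pcB0 Cut.none Ext.none)

def k0_pp_102_b : ∃ t, chk3 f_pp_102_b t 1 1 1 = true :=
  ⟨(a (a (l 1) (l 3)) (l 3)), by decide +kernel⟩

theorem c_pp_102_b : CertB 536870912 536870912 1239849684 370763052 1020054732 13421774 3 eng mog cd1q1 cd1q2b pd0 false true true .npp 1 0 2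
    ndB1q1 ndB1q2b pcB0 Cut.none Ext.none :=
  certB1 (fam := false) (s1 := true) (s2 := true) (a := 1) (b := 0) (c := 2) (cn := .npp) (n1 := ndB1q1) (n2 := ndB1q2b) (pc := pcB0) (cut := Cut.none) (xt := Ext.none) (P1 := 536870912) (W1 := 536870912) (P2 := 1239849684) (W2 := 370763052) (P3 := 1020054732) (W3 := 13421774) (N0 := 3) (En := eng) (mo := mog) (C1 := cd1q1) (C2 := cd1q2b) (C3 := pd0)
    rfl (fun _ => rfl) k0_pp_102_b

noncomputable def f_pp_112_a : ℕ → ℕ → ℕ → ℕ → Bool := onCell 536870912 536870912 0 536870912 1020054732 13421774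
    (rowB 3 eng mog cd1q1 cd1q2a pd1 2 false true true .dn 1 1 2 (qsf 536870912 536870912 0 536870912 1) ndB1q1 ndB1q2a pcB1 Cut.none Ext.none)

def k0_pp_112_a : ∃ t, chk3 f_pp_112_a t 8 8 1 = true :=
  ⟨(b (b (a (l 3) (a (l 3) (a (l 3) (c (c (l 44190547783) (l 46875013607)) (c (l 46875144759) (l 46875246887)))))) (l 3)) (l 3)), by decide +kernel⟩

def k1_pp_112_a : ∃ t, chk3 f_pp_112_a t 18 8 1 = true :=
  ⟨(a (b (a (b (c (c (b (a (l 95193258199) (l 16455384)) (l 52243593815)) (a (l 74255489143) (l 97340929511))) (c (b (l 118815848327) (l 59223180359)) (a (l 78013764071) (l 104320438439)))) (l 3)) (c (c (b (b (l 16418328) (a (l 99488206695) (l 16450136))) (a (l 3) (l 50632963191))) (b (b (l 16549088) (l 115057659879)) (l 55465000583))) (c (b (b (l 16625512) (l 122037070183)) (l 54928194615)) (c (l 94656752087) (l 95193665191))))) (l 3)) (a (b (c (c (b (b (l 16439512) (l 16413384)) (b (a (l 103783156215) (l 16443720)) (a (l 3) (l 69960294503)))) (b (l 16521648)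 (b (l 118278872151) (l 68349897287)))) (c (b (l 16603272) (b (l 125258291927) (l 69423715783))) (c (l 120426560583) (l 122037216839)))) (l 3)) (c (b (b (c (l 16402800) (l 16533248)) (c (b (l 16404688) (a (l 107004365015) (l 16434664))) (a (l 126331920263) (l 16525176)))) (b (a (l 36674307671) (c (l 59759722503) (l 61907432695))) (l 3))) (c (b (c (l 142438144135) (l 144585702055)) (l 55465025751)) (b (c (l 16634784) (l 148343898807)) (l 55465130775)))))), by decide +kernel⟩

def k2_pp_112_a : ∃ t, chk3 f_pp_112_a t 19 8 1 = true :=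
  ⟨(c (a (a (b (b (l 16344920) (c (c (l 16398288) (l 16463720)) (l 16518776))) (b (c (b (a (l 109688732247) (l 16426112)) (a (l 16444384) (l 78013354967))) (b (l 125795042871) (l 78550420423))) (l 3))) (c (c (b (l 16360048) (b (b (l 16397976) (l 129552818295)) (b (l 83918819927) (l 3)))) (b (l 16430760) (b (l 129016123575) (l 64591634855)))) (b (l 16504824) (b (b (l 16541904) (l 16505440)) (l 72107952119))))) (c (b (b (l 16353736) (l 16359952)) (b (a (c (l 16362384) (l 16450632)) (l 16398240)) (a (b (c (l 133310900183) (l 16468640)) (c (l 89824384119) (l 16456008))) (c (l 140827050055) (l 16456616))))) (b (l 16453408) (b (a (l 16517360) (l 16533400)) (a (b (l 16503920) (l 89824688695)) (l 141901128135)))))) (a (a (b (c (l 16582360) (l 16637480)) (c (c (l 73718649127) (l 74792453639)) (c (l 75329377767) (l 75866289847)))) (b (b (l 16591048) (l 16560832)) (b (c (l 142975011303) (l 146733223367)) (c (l 73181784327) (l 73718763287))))) (c (b (l 16589840) (b (l 16584616)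 (a (l 105930910391) (l 16602152)))) (b (l 16661928) (b (l 16615352) (a (l 108078506135) (l 16623352))))))), by decide +kernel⟩

def k3_pp_112_a : ∃ t, chk3 f_pp_112_a t 4 9 1 = true :=
  ⟨(a (l 3) (a (l 3) (a (l 3) (a (l 3) (b (b (c (b (c (c (l 95729950183) (l 82845254055)) (l 95730260103)) (l 3)) (c (l 83382324167) (l 84456175911))) (l 3)) (l 3)))))), by decide +kernel⟩

def k4_pp_112_a : ∃ t, chk3 f_pp_112_a t 4 5 1 = true :=
  ⟨(l 3), by decide +kernel⟩

def k5_pp_112_a : ∃ t, chk3 f_pp_112_a t 5 2 1 = true :=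
  ⟨(a (a (b (a (b (c (b (c (l 16335864) (l 16495088)) (b (c (l 16373344) (l 16520696)) (c (c (l 16299664) (l 16390672)) (l 16457752)))) (b (l 16533912) (b (l 16557240) (c (l 16588512) (l 16639960))))) (b (a (b (c (c (c (b (l 16370120) (l 102172390167)) (l 98414494039)) (b (l 16523144) (l 102172703959))) (c (l 116668373367) (l 115057824695))) (l 3)) (c (b (c (b (l 16365472) (l 146732631271)) (l 16500616)) (c (c (l 90898083863) (l 80697745991)) (l 91435261847))) (a (c (l 102709663271) (l 104857255367)) (b (l 16577952) (l 84992927383))))) (l 3))) (b (c (b (c (l 16311776) (l 16478880)) (c (l 16252904) (l 16489896))) (c (l 16549648) (l 16600552))) (a (b (b (c (c (l 16356208) (l 16536960)) (l 16585768)) (c (c (b (l 16352032) (a (l 16364264) (l 16358824))) (l 113983835847)) (c (l 119352680407) (l 121500275303)))) (a (l 3) (c (l 56538430455) (l 59759953319)))) (b (c (c (b (l 16363976) (l 16301664)) (l 16465648)) (c (l 16593328) (l 16640872))) (a (a (c (a (l 60833401767)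 (l 46874758439)) (l 49022542247)) (l 1)) (l 1)))))) (l 3)) (b (b (l 1) (l 1)) (l 1))) (l 1)), by decide +kernel⟩

def k6_pp_112_a : ∃ t, chk3 f_pp_112_a t 2 3 1 = true :=
  ⟨(l 3), by decide +kernel⟩

def k7_pp_112_a : ∃ t, chk3 f_pp_112_a t 3 1 1 = true :=
  ⟨(l 1), by decide +kernel⟩

theorem s8_pp_112_a : ∃ t, chk3 f_pp_112_a t 9 8 1 = true := ex3_a k1_pp_112_a k2_pp_112_a

theorem s9_pp_112_a : ∃ t, chk3 f_pp_112_a t 4 8 1 = true := ex3_a k0_pp_112_a s8_pp_112_a

theorem s10_pp_112_a : ∃ t, chk3 f_pp_112_a t 4 4 1 = true := ex3_b s9_pp_112_a k3_pp_112_a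

theorem s11_pp_112_a : ∃ t, chk3 f_pp_112_a t 4 2 1 = true := ex3_b s10_pp_112_a k4_pp_112_a

theorem s12_pp_112_a : ∃ t, chk3 f_pp_112_a t 2 2 1 = true := ex3_a s11_pp_112_a k5_pp_112_a

theorem s13_pp_112_a : ∃ t, chk3 f_pp_112_a t 2 1 1 = true := ex3_b s12_pp_112_a k6_pp_112_a

theorem s14_pp_112_a : ∃ t, chk3 f_pp_112_a t 1 1 1 = true := ex3_a s13_pp_112_a k7_pp_112_a

theorem c_pp_112_a : CertB 536870912 536870912 0 536870912 1020054732 13421774 3 eng mog cd1q1 cd1q2a pd1 false true true .dn 1 1 2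
    ndB1q1 ndB1q2a pcB1 Cut.none Ext.none :=
  certB2 (fam := false) (s1 := true) (s2 := true) (a := 1) (b := 1) (c := 2) (cn := .dn) (n1 := ndB1q1) (n2 := ndB1q2a) (pc := pcB1) (cut := Cut.none) (xt := Ext.none) (P1 := 536870912) (W1 := 536870912) (P2 := 0) (W2 := 536870912) (P3 := 1020054732) (W3 := 13421774) (N0 := 3) (En := eng) (mo := mog) (C1 := cd1q1) (C2 := cd1q2a) (C3 := pd1)
    rfl (fun _ => rfl) s14_pp_112_a

noncomputable def f_pp_112_b : ℕ → ℕ → ℕ → ℕ → Bool := onCell 536870912 536870912 536870912 536870912 1020054732 13421774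
    (rowB 3 eng mog cd1q1 cd1q2b pd1 1 false true true .dn 1 1 2 (qsf 536870912 536870912 1239849684 370763052 1) ndB1q1 ndB1q2b pcB1 Cut.none Ext.none)

def k0_pp_112_b : ∃ t, chk3 f_pp_112_b t 2 4 1 = true :=
  ⟨(b (a (a (l 1) (b (l 3) (a (a (l 1) (a (l 1) (b (l 1) (a (l 1) (b (l 1) (b (l 1) (c (l 337724679719) (l 340409289303)))))))) (b (l 3) (a (a (b (l 3) (b (l 3) (c (c (l 16460984) (l 16534304)) (c (l 16637864) (l 16648096))))) (l 3)) (l 3)))))) (l 3)) (b (a (b (a (l 1) (c (a (a (c (l 374231730951) (l 389801289239)) (a (b (l 351146332199) (l 98280141463)) (b (c (l 16416928) (l 16540584)) (l 16449840)))) (a (b (c (a (l 16490464) (l 16519536)) (l 16514312)) (l 16470496)) (b (l 16526744) (l 16542488)))) (a (a (b (l 1) (l 363494610215)) (c (c (l 93448624455) (l 91838085623)) (c (l 90764413415) (l 89153840055)))) (a (b (c (l 16594880) (l 16622656)) (l 16593616)) (b (l 16581424) (l 16553376)))))) (a (a (l 1) (a (l 1) (c (l 367252202055) (l 372084469655)))) (c (c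 (a (a (l 113312404327) (l 16437504)) (l 16456120)) (a (a (l 106870160183) (l 16562264)) (l 16568856))) (a (a (a (l 352220340855) (l 84858672407)) (b (l 16604160) (l 16621424))) (a (l 16553248) (l 16517728)))))) (a (a (b (l 3) (a (c (l 16583760) (l 16493832)) (l 206862362199))) (l 3)) (l 3))) (a (b (a (a (l 1) (a (c (l 373694568343) (l 380674394151)) (c (l 124049733319) (l 16511080)))) (c (a (c (l 16393728) (l 16526952)) (l 16474592)) (a (b (l 16563840) (l 16582808)) (l 16493576)))) (a (c (a (l 380673693783) (a (l 16276088) (l 16381064))) (a (l 389801115207) (l 16520640))) (c (a (l 16404184) (l 16495392)) (a (l 16545704) (l 16486632))))) (a (c (a (b (l 16574296) (l 16654560)) (a (l 16562344) (l 205788917095))) (a (c (b (l 16610984) (l 16651480)) (l 16411200)) (b (l 16412256) (l 16407248)))) (a (b (l 3) (l 16234328)) (l 3)))))), by decide +kernel⟩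

def k1_pp_112_b : ∃ t, chk3 f_pp_112_b t 2 5 1 = true :=
  ⟨(a (b (c (a (b (a (b (l 162704141367) (l 16267856)) (b (l 16327464) (l 16418976))) (c (a (l 16327448) (l 16392912)) (l 16436288))) (a (b (l 16346072) (l 16454288)) (b (l 16451768) (l 16551752)))) (c (a (b (a (l 16496472) (l 16609632)) (l 16617144)) (b (l 16582488) (l 16656328))) (a (b (a (l 16550584) (l 16619936)) (l 16539688)) (b (a (l 16597784) (l 16526744)) (l 16438040))))) (c (a (b (l 16242832) (l 16229440)) (b (l 16444072) (a (l 16528608) (l 16586112)))) (a (b (c (l 16680576) (l 16521344)) (l 16255640)) (c (b (l 16587840) (l 16480552)) (l 16161024))))) (b (a (a (c (c (l 16479744) (l 16474536)) (b (c (l 16612192) (l 16470328)) (l 16385976))) (c (b (c (l 16747208) (l 16631216)) (l 16651096)) (b (l 16323136) (l 16381904)))) (c (b (b (l 16245048) (l 16268880)) (a (l 16468240) (l 16361120))) (b (a (l 16224624) (l 16225808)) (a (l 16288456) (l 16190264))))) (a (c (b (l 16540992) (l 16557184)) (c (l 16205336)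 (l 16128912))) (c (b (a (l 16468312) (l 16338216)) (l 16332616)) (b (l 16124312) (l 16075952)))))), by decide +kernel⟩

def k2_pp_112_b : ∃ t, chk3 f_pp_112_b t 2 3 1 = true :=
  ⟨(b (a (b (c (a (b (l 16332128) (l 16443328)) (b (l 16490080) (l 16475240))) (a (b (l 16220640) (l 16279120)) (b (l 16261576) (l 16058016)))) (c (a (l 16311992) (l 16266920)) (a (l 16124088) (l 15893088)))) (b (a (c (b (l 16443800) (l 16303600)) (b (l 16123200) (l 15990944))) (c (b (l 16235664) (l 16112976)) (l 15760728))) (b (a (c (l 16158496) (l 15873448)) (c (l 15966848) (l 15708808))) (a (l 15905824) (l 2))))) (a (b (a (c (l 16238104) (l 15998152)) (c (l 16071960) (l 15866448))) (a (l 15941168) (l 15900920))) (b (a (c (l 15876200) (l 15688320)) (l 2)) (l 2)))), by decide +kernel⟩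

def k3_pp_112_b : ∃ t, chk3 f_pp_112_b t 3 1 1 = true :=
  ⟨(b (b (l 3) (a (b (a (b (l 3) (c (l 237463007927) (l 239073337959))) (l 3)) (a (b (c (l 89823423303) (l 15743776)) (c (l 16079928) (l 15898472))) (b (a (l 15790008) (l 2)) (l 2)))) (b (l 3) (l 2)))) (b (a (a (b (b (l 85460890935) (l 2)) (l 2)) (l 2)) (l 2)) (l 2))), by decide +kernel⟩

theorem s4_pp_112_b : ∃ t, chk3 f_pp_112_b t 2 2 1 = true := ex3_b k0_pp_112_b k1_pp_112_b

theorem s5_pp_112_b : ∃ t, chk3 f_pp_112_b t 2 1 1 = true := ex3_b s4_pp_112_b k2_pp_112_b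

theorem s6_pp_112_b : ∃ t, chk3 f_pp_112_b t 1 1 1 = true := ex3_a s5_pp_112_b k3_pp_112_b

theorem c_pp_112_b : CertB 536870912 536870912 1239849684 370763052 1020054732 13421774 3 eng mog cd1q1 cd1q2b pd1 false true true .dn 1 1 2
    ndB1q1 ndB1q2b pcB1 Cut.none Ext.none :=
  certB1 (fam := false) (s1 := true) (s2 := true) (a := 1) (b := 1) (c := 2) (cn := .dn) (n1 := ndB1q1) (n2 := ndB1q2b) (pc := pcB1) (cut := Cut.none) (xt := Ext.none) (P1 := 536870912) (W1 := 536870912) (P2 := 1239849684) (W2 := 370763052) (P3 := 1020054732) (W3 := 13421774) (N0 := 3) (En := eng) (mo := mog) (C1 := cd1q1) (C2 := cd1q2b) (C3 := pd1)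
    rfl (fun _ => rfl) s6_pp_112_b

noncomputable def f_pp_113 : ℕ → ℕ → ℕ → ℕ → Bool := onCell 536870912 536870912 536870912 536870912 1020054732 13421774
    (rowB 3 eng mog cd1q1 cd1q3 pd1 1 false true true .nn 1 1 3 (qsf 536870912 536870912 1610612736 536870912 1) ndB1q1 ndB1q3 pcB1 Cut.none Ext.none)

def k0_pp_113 : ∃ t, chk3 f_pp_113 t 1 2 1 = true :=
  ⟨(a (b (l 1) (a (l 1) (a (l 1) (a (l 1) (b (l 1) (b (l 1) (l 15957112))))))) (b (l 3) (a (b (a (a (l 1) (l 3)) (l 3)) (a (b (a (l 375304433271) (a (l 344165726391) (l 261084822471))) (c (l 15918768) (l 15724072))) (b (a (l 226188017847) (l 3)) (a (c (l 15857520) (l 15713392)) (l 246051898711))))) (b (l 3) (l 3))))), by decide +kernel⟩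

def k1_pp_113 : ∃ t, chk3 f_pp_113 t 1 3 1 = true :=
  ⟨(b (a (a (b (l 1) (a (l 1) (c (l 16089976) (l 16059792)))) (b (b (a (l 1) (c (l 16240128) (l 15984256))) (a (c (l 16329000) (l 16053728)) (c (l 16125952) (l 15876176)))) (a (b (c (l 16195656) (l 15955128)) (l 15789848)) (b (c (l 15987976) (l 15757144)) (c (l 15853344) (l 15660064)))))) (a (b (a (b (c (l 15998080) (l 15792952)) (c (l 15904360) (l 15697440))) (b (c (l 15534728) (l 165521162087)) (c (l 15677456) (l 15526448)))) (a (b (c (l 15784968) (l 15585376)) (c (l 15645288) (l 15465352))) (b (a (l 15552672) (l 15469680)) (l 15297784)))) (b (a (b (c (l 247125327527) (l 254641359367)) (a (l 15419528) (b (l 15383008) (l 15363288)))) (b (l 3) (a (l 248736530455) (l 3)))) (a (b (a (l 15393024) (l 15324496)) (c (l 15341072) (l 15237880))) (b (a (b (l 15272000) (l 15257632)) (l 271821824167)) (a (l 15235880) (b (l 15214136) (l 15222928)))))))) (a (a (b (a (c (l 16126064) (l 16221496)) (c (l 16156736) (l 16032560)))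 (a (c (l 16071432) (l 16190584)) (c (l 16090504) (l 16011288)))) (b (a (c (l 15936888) (l 15814064)) (b (l 15462496) (l 15552160))) (a (b (l 15823648) (l 15819216)) (b (l 15582360) (l 15575272))))) (b (a (a (b (c (l 15516952) (l 15372872)) (l 15384040)) (b (a (l 15312264) (l 15258544)) (a (l 15236720) (l 15169576)))) (a (b (l 15431232) (a (l 15152960) (l 15190920))) (b (a (l 15229824) (l 15265240)) (a (l 15284920) (l 15445208))))) (a (a (b (l 15354504) (l 15354152)) (b (l 15184120) (l 15217800))) (b (a (a (l 15149968) (l 15235464)) (a (l 15477136) (l 15986528))) (a (l 15334280) (a (l 16024384) (b (l 16767136) (l 16801832))))))))), by decide +kernel⟩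

theorem s2_pp_113 : ∃ t, chk3 f_pp_113 t 1 1 1 = true := ex3_b k0_pp_113 k1_pp_113

theorem c_pp_113 : CertB 536870912 536870912 1610612736 536870912 1020054732 13421774 3 eng mog cd1q1 cd1q3 pd1 false true true .nn 1 1 3
    ndB1q1 ndB1q3 pcB1 Cut.none Ext.none :=
  certB1 (fam := false) (s1 := true) (s2 := true) (a := 1) (b := 1) (c := 3) (cn := .nn) (n1 := ndB1q1) (n2 := ndB1q3) (pc := pcB1) (cut := Cut.none) (xt := Ext.none) (P1 := 536870912) (W1 := 536870912) (P2 := 1610612736) (W2 := 536870912) (P3 := 1020054732) (W3 := 13421774) (N0 := 3) (En := eng) (mo := mog) (C1 := cd1q1) (C2 := cd1q3) (C3 := pd1)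
    rfl (fun _ => rfl) s2_pp_113

noncomputable def f_pp_123 : ℕ → ℕ → ℕ → ℕ → Bool := onCell 1073741824 536870912 1610612736 536870912 1020054732 13421774
    (rowB 3 eng mog cd1q1 cd1q3 pd2 2 false true true .npn 1 2 3 (qsf 536870912 536870912 1610612736 536870912 2) ndB1q1 ndB1q3 pcB2 Cut.none Ext.none)

def k0_pp_123 : ∃ t, chk3 f_pp_123 t 1 1 1 = true :=
  ⟨(a (b (a (b (a (b (c (l 15795504) (l 15727512)) (c (l 15651712) (l 15586632))) (b (a (l 15609384) (l 1)) (a (l 15495640) (l 15398696)))) (a (b (a (l 15481248) (l 15439888)) (a (l 15317840) (l 15309200))) (b (l 15333856) (l 15232640)))) (b (a (b (l 1) (l 15245392)) (l 1)) (a (b (l 15146200) (l 15059232)) (b (l 14798944) (l 14730344))))) (b (a (a (b (a (l 15198656) (l 15225168)) (a (l 15194712) (l 15248216))) (b (l 15177880) (l 15221576))) (a (b (l 15013016) (l 15050400)) (b (l 14799280) (l 14810368)))) (a (b (a (a (b (l 15354952) (l 15640144)) (l 15416768)) (c (l 15449192) (l 15462320))) (a (b (a (l 16394112)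 (l 16004904)) (a (l 16537392) (l 16412144))) (b (l 15865560) (a (l 16413144) (l 16182168))))) (b (a (l 15241016) (l 14943088)) (a (b (l 15555832) (a (l 15947808) (l 15712864))) (b (l 15172296) (l 15366856))))))) (b (a (b (l 1) (a (b (l 1) (l 14660744)) (l 1))) (l 1)) (a (b (a (b (l 14499568) (l 14559744)) (b (l 14396760) (l 14335576))) (b (a (l 14632064) (l 14349800)) (a (b (l 14785872) (l 14930152)) (b (l 14437976) (l 14542416))))) (b (a (b (l 1) (l 14190424)) (l 1)) (a (b (l 14154904) (b (l 14184016) (l 14250744))) (b (l 14465568) (b (l 14464856) (l 14504736)))))))), by decide +kernel⟩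

theorem c_pp_123 : CertB 536870912 536870912 1610612736 536870912 1020054732 13421774 3 eng mog cd1q1 cd1q3 pd2 false true true .npn 1 2 3
    ndB1q1 ndB1q3 pcB2 Cut.none Ext.none :=
  certB2 (fam := false) (s1 := true) (s2 := true) (a := 1) (b := 2) (c := 3) (cn := .npn) (n1 := ndB1q1) (n2 := ndB1q3) (pc := pcB2) (cut := Cut.none) (xt := Ext.none) (P1 := 536870912) (W1 := 536870912) (P2 := 1610612736) (W2 := 536870912) (P3 := 1020054732) (W3 := 13421774) (N0 := 3) (En := eng) (mo := mog) (C1 := cd1q1) (C2 := cd1q3) (C3 := pd2)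
    rfl (fun _ => rfl) k0_pp_123

noncomputable def f_pp_133 : ℕ → ℕ → ℕ → ℕ → Bool := onCell 536870912 536870912 1610612736 536870912 1020054732 13421774
    (rowB 3 eng mog cd1q1 cd1q3 pd3 1 false true true .dn 1 3 3 (qsf 536870912 536870912 1610612736 536870912 3) ndB1q1 ndB1q3 pcB3 Cut.none Ext.none)

def k0_pp_133 : ∃ t, chk3 f_pp_133 t 1 1 1 = true :=
  ⟨(a (b (a (b (a (b (l 16228120) (l 2)) (l 2)) (l 2)) (l 2)) (l 2)) (l 2)), by decide +kernel⟩

theorem c_pp_133 : CertB 536870912 536870912 1610612736 536870912 1020054732 13421774 3 eng mog cd1q1 cd1q3 pd3 false true true .dn 1 3 3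
    ndB1q1 ndB1q3 pcB3 Cut.none Ext.none :=
  certB1 (fam := false) (s1 := true) (s2 := true) (a := 1) (b := 3) (c := 3) (cn := .dn) (n1 := ndB1q1) (n2 := ndB1q3) (pc := pcB3) (cut := Cut.none) (xt := Ext.none) (P1 := 536870912) (W1 := 536870912) (P2 := 1610612736) (W2 := 536870912) (P3 := 1020054732) (W3 := 13421774) (N0 := 3) (En := eng) (mo := mog) (C1 := cd1q1) (C2 := cd1q3) (C3 := pd3)
    rfl (fun _ => rfl) k0_pp_133

noncomputable def f_pp_202_aa : ℕ → ℕ → ℕ → ℕ → Bool := onCell 0 536870912 0 536870912 1020054732 13421774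
    (rowB 3 eng mog cd1q2a cd1q2a pd0 0 false true true .pp 2 0 2 (qsf 0 536870912 0 536870912 0) ndB1q2a ndB1q2a pcB0 Cut.none Ext.none)

def k0_pp_202_aa : ∃ t, chk3 f_pp_202_aa t 1 1 1 = true :=
  ⟨(l 3), by decide +kernel⟩

theorem c_pp_202_aa : CertB 0 536870912 0 536870912 1020054732 13421774 3 eng mog cd1q2a cd1q2a pd0 false true true .pp 2 0 2
    ndB1q2a ndB1q2a pcB0 Cut.none Ext.none :=
  certB0 (fam := false) (s1 := true) (s2 := true) (a := 2) (b := 0) (c := 2) (cn := .pp) (n1 := ndB1q2a) (n2 := ndB1q2a) (pc := pcB0) (cut := Cut.none) (xt := Ext.none) (P1 := 0) (W1 := 536870912) (P2 := 0) (W2 := 536870912) (P3 := 1020054732) (W3 := 13421774) (N0 := 3) (En := eng) (mo := mog) (C1 := cd1q2a) (C2 := cd1q2a) (C3 := pd0)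
    rfl k0_pp_202_aa

noncomputable def f_pp_202_ab : ℕ → ℕ → ℕ → ℕ → Bool := onCell 0 536870912 1239849684 370763052 1020054732 13421774
    (rowB 3 eng mog cd1q2a cd1q2b pd0 0 false true true .pp 2 0 2 (qsf 0 536870912 1239849684 370763052 0) ndB1q2a ndB1q2b pcB0 Cut.none Ext.none)

def k0_pp_202_ab : ∃ t, chk3 f_pp_202_ab t 1 1 1 = true :=
  ⟨(l 3), by decide +kernel⟩

theorem c_pp_202_ab : CertB 0 536870912 1239849684 370763052 1020054732 13421774 3 eng mog cd1q2a cd1q2b pd0 false true true .pp 2 0 2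
    ndB1q2a ndB1q2b pcB0 Cut.none Ext.none :=
  certB0 (fam := false) (s1 := true) (s2 := true) (a := 2) (b := 0) (c := 2) (cn := .pp) (n1 := ndB1q2a) (n2 := ndB1q2b) (pc := pcB0) (cut := Cut.none) (xt := Ext.none) (P1 := 0) (W1 := 536870912) (P2 := 1239849684) (W2 := 370763052) (P3 := 1020054732) (W3 := 13421774) (N0 := 3) (En := eng) (mo := mog) (C1 := cd1q2a) (C2 := cd1q2b) (C3 := pd0)
    rfl k0_pp_202_ab

noncomputable def f_pp_202_ba : ℕ → ℕ → ℕ → ℕ → Bool := onCell 1239849684 370763052 0 536870912 1020054732 13421774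
    (rowB 3 eng mog cd1q2b cd1q2a pd0 0 false true true .pp 2 0 2 (qsf 1239849684 370763052 0 536870912 0) ndB1q2b ndB1q2a pcB0 Cut.none Ext.none)

def k0_pp_202_ba : ∃ t, chk3 f_pp_202_ba t 1 1 1 = true :=
  ⟨(l 3), by decide +kernel⟩

theorem c_pp_202_ba : CertB 1239849684 370763052 0 536870912 1020054732 13421774 3 eng mog cd1q2b cd1q2a pd0 false true true .pp 2 0 2
    ndB1q2b ndB1q2a pcB0 Cut.none Ext.none :=
  certB0 (fam := false) (s1 := true) (s2 := true) (a := 2) (b := 0) (c := 2) (cn := .pp) (n1 := ndB1q2b) (n2 := ndB1q2a) (pc := pcB0) (cut := Cut.none) (xt := Ext.none) (P1 := 1239849684) (W1 := 370763052) (P2 := 0) (W2 := 536870912) (P3 := 1020054732) (W3 := 13421774) (N0 := 3) (En := eng) (mo := mog) (C1 := cd1q2b) (C2 := cd1q2a) (C3 := pd0)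
    rfl k0_pp_202_ba

noncomputable def f_pp_202_bb : ℕ → ℕ → ℕ → ℕ → Bool := onCell 1239849684 370763052 1239849684 370763052 1020054732 13421774
    (rowB 3 eng mog cd1q2b cd1q2b pd0 0 false true true .pp 2 0 2 (qsf 1239849684 370763052 1239849684 370763052 0) ndB1q2b ndB1q2b pcB0 Cut.none Ext.none)

def k0_pp_202_bb : ∃ t, chk3 f_pp_202_bb t 1 1 1 = true :=
  ⟨(l 3), by decide +kernel⟩

theorem c_pp_202_bb : CertB 1239849684 370763052 1239849684 370763052 1020054732 13421774 3 eng mog cd1q2b cd1q2b pd0 false true true .pp 2 0 2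
    ndB1q2b ndB1q2b pcB0 Cut.none Ext.none :=
  certB0 (fam := false) (s1 := true) (s2 := true) (a := 2) (b := 0) (c := 2) (cn := .pp) (n1 := ndB1q2b) (n2 := ndB1q2b) (pc := pcB0) (cut := Cut.none) (xt := Ext.none) (P1 := 1239849684) (W1 := 370763052) (P2 := 1239849684) (W2 := 370763052) (P3 := 1020054732) (W3 := 13421774) (N0 := 3) (En := eng) (mo := mog) (C1 := cd1q2b) (C2 := cd1q2b) (C3 := pd0)
    rfl k0_pp_202_bb

noncomputable def f_pp_203_a : ℕ → ℕ → ℕ → ℕ → Bool := onCell 0 536870912 0 536870912 1020054732 13421774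
    (rowB 3 eng mog cd1q2a cd1q3 pd0 1 false true true .up 2 0 3 (qsf 0 536870912 1610612736 536870912 0) ndB1q2a ndB1q3 pcB0 Cut.none Ext.none)

def k0_pp_203_a : ∃ t, chk3 f_pp_203_a t 1 1 1 = true :=
  ⟨(l 3), by decide +kernel⟩

theorem c_pp_203_a : CertB 0 536870912 1610612736 536870912 1020054732 13421774 3 eng mog cd1q2a cd1q3 pd0 false true true .up 2 0 3
    ndB1q2a ndB1q3 pcB0 Cut.none Ext.none :=
  certB1 (fam := false) (s1 := true) (s2 := true) (a := 2) (b := 0) (c := 3) (cn := .up) (n1 := ndB1q2a) (n2 := ndB1q3) (pc := pcB0) (cut := Cut.none) (xt := Ext.none) (P1 := 0) (W1 := 536870912) (P2 := 1610612736) (W2 := 536870912) (P3 := 1020054732) (W3 := 13421774) (N0 := 3) (En := eng) (mo := mog) (C1 := cd1q2a) (C2 := cd1q3) (C3 := pd0)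
    rfl (fun _ => rfl) k0_pp_203_a

noncomputable def f_pp_203_b : ℕ → ℕ → ℕ → ℕ → Bool := onCell 1239849684 370763052 1610612736 536870912 1020054732 13421774
    (rowB 3 eng mog cd1q2b cd1q3 pd0 0 false true true .up 2 0 3 (qsf 1239849684 370763052 1610612736 536870912 0) ndB1q2b ndB1q3 pcB0 Cut.none Ext.none)

def k0_pp_203_b : ∃ t, chk3 f_pp_203_b t 1 1 1 = true :=
  ⟨(l 3), by decide +kernel⟩

theorem c_pp_203_b : CertB 1239849684 370763052 1610612736 536870912 1020054732 13421774 3 eng mog cd1q2b cd1q3 pd0 false true true .up 2 0 3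
    ndB1q2b ndB1q3 pcB0 Cut.none Ext.none :=
  certB0 (fam := false) (s1 := true) (s2 := true) (a := 2) (b := 0) (c := 3) (cn := .up) (n1 := ndB1q2b) (n2 := ndB1q3) (pc := pcB0) (cut := Cut.none) (xt := Ext.none) (P1 := 1239849684) (W1 := 370763052) (P2 := 1610612736) (W2 := 536870912) (P3 := 1020054732) (W3 := 13421774) (N0 := 3) (En := eng) (mo := mog) (C1 := cd1q2b) (C2 := cd1q3) (C3 := pd0)
    rfl k0_pp_203_b

noncomputable def cut_pp_213_a : Cut := Cut.of [[⟨0, 1, 0, 26738688⟩, ⟨1, 1, 0, 26738688⟩, ⟨2, 2, 0, 2621440⟩]]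

noncomputable def f_pp_213_a : ℕ → ℕ → ℕ → ℕ → Bool := onCell 0 536870912 1610612736 536870912 1020054732 13421774
    (rowB 3 eng mog cd1q2a cd1q3 pd1 0 false true true .pnn 2 1 3 (qsf 0 536870912 1610612736 536870912 1) ndB1q2a ndB1q3 pcB1 cut_pp_213_a Ext.none)

def k0_pp_213_a : ∃ t, chk3 f_pp_213_a t 1 1 1 = true :=
  ⟨(a (l 3) (b (l 3) (b (l 3) (a (l 3) (b (l 3) (a (l 3) (b (l 3) (a (l 3) (b (l 3) (b (l 3) (b (l 3) (b (l 3) (l 6))))))))))))), by decide +kernel⟩

theorem c_pp_213_a : CertB 0 536870912 1610612736 536870912 1020054732 13421774 3 eng mog cd1q2a cd1q3 pd1 false true true .pnn 2 1 3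
    ndB1q2a ndB1q3 pcB1 cut_pp_213_a Ext.none :=
  certB0 (fam := false) (s1 := true) (s2 := true) (a := 2) (b := 1) (c := 3) (cn := .pnn) (n1 := ndB1q2a) (n2 := ndB1q3) (pc := pcB1) (cut := cut_pp_213_a) (xt := Ext.none) (P1 := 0) (W1 := 536870912) (P2 := 1610612736) (W2 := 536870912) (P3 := 1020054732) (W3 := 13421774) (N0 := 3) (En := eng) (mo := mog) (C1 := cd1q2a) (C2 := cd1q3) (C3 := pd1)
    rfl k0_pp_213_a

noncomputable def cut_pp_213_b : Cut := Cut.of [[⟨0, 1, 0, 26738688⟩, ⟨1, 1, 0, 26738688⟩, ⟨2, 2, 0, 2621440⟩]]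

noncomputable def f_pp_213_b : ℕ → ℕ → ℕ → ℕ → Bool := onCell 1239849684 370763052 1610612736 536870912 1020054732 13421774
    (rowB 3 eng mog cd1q2b cd1q3 pd1 0 false true true .pnn 2 1 3 (qsf 1239849684 370763052 1610612736 536870912 1) ndB1q2b ndB1q3 pcB1 cut_pp_213_b Ext.none)

def k0_pp_213_b : ∃ t, chk3 f_pp_213_b t 1 1 1 = true :=
  ⟨(l 3), by decide +kernel⟩

theorem c_pp_213_b : CertB 1239849684 370763052 1610612736 536870912 1020054732 13421774 3 eng mog cd1q2b cd1q3 pd1 false true true .pnn 2 1 3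
    ndB1q2b ndB1q3 pcB1 cut_pp_213_b Ext.none :=
  certB0 (fam := false) (s1 := true) (s2 := true) (a := 2) (b := 1) (c := 3) (cn := .pnn) (n1 := ndB1q2b) (n2 := ndB1q3) (pc := pcB1) (cut := cut_pp_213_b) (xt := Ext.none) (P1 := 1239849684) (W1 := 370763052) (P2 := 1610612736) (W2 := 536870912) (P3 := 1020054732) (W3 := 13421774) (N0 := 3) (En := eng) (mo := mog) (C1 := cd1q2b) (C2 := cd1q3) (C3 := pd1)
    rfl k0_pp_213_b

noncomputable def f_pp_303 : ℕ → ℕ → ℕ → ℕ → Bool := onCell 1610612736 536870912 1610612736 536870912 1020054732 13421774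
    (rowB 3 eng mog cd1q3 cd1q3 pd0 0 false true true .npn 3 0 3 (qsf 1610612736 536870912 1610612736 536870912 0) ndB1q3 ndB1q3 pcB0 Cut.none Ext.none)

def k0_pp_303 : ∃ t, chk3 f_pp_303 t 1 1 1 = true :=
  ⟨(l 3), by decide +kernel⟩

theorem c_pp_303 : CertB 1610612736 536870912 1610612736 536870912 1020054732 13421774 3 eng mog cd1q3 cd1q3 pd0 false true true .npn 3 0 3
    ndB1q3 ndB1q3 pcB0 Cut.none Ext.none :=
  certB0 (fam := false) (s1 := true) (s2 := true) (a := 3) (b := 0) (c := 3) (cn := .npn) (n1 := ndB1q3) (n2 := ndB1q3) (pc := pcB0) (cut := Cut.none) (xt := Ext.none) (P1 := 1610612736) (W1 := 536870912) (P2 := 1610612736) (W2 := 536870912) (P3 := 1020054732) (W3 := 13421774) (N0 := 3) (En := eng) (mo := mog) (C1 := cd1q3) (C2 := cd1q3) (C3 := pd0)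
    rfl k0_pp_303

noncomputable def f_pp_313 : ℕ → ℕ → ℕ → ℕ → Bool := onCell 1610612736 536870912 1610612736 536870912 1020054732 13421774
    (rowB 3 eng mog cd1q3 cd1q3 pd1 0 false true true .dn 3 1 3 (qsf 1610612736 536870912 1610612736 536870912 1) ndB1q3 ndB1q3 pcB1 Cut.none Ext.none)

def k0_pp_313 : ∃ t, chk3 f_pp_313 t 1 1 1 = true :=
  ⟨(l 3), by decide +kernel⟩

theorem c_pp_313 : CertB 1610612736 536870912 1610612736 536870912 1020054732 13421774 3 eng mog cd1q3 cd1q3 pd1 false true true .dn 3 1 3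
    ndB1q3 ndB1q3 pcB1 Cut.none Ext.none :=
  certB0 (fam := false) (s1 := true) (s2 := true) (a := 3) (b := 1) (c := 3) (cn := .dn) (n1 := ndB1q3) (n2 := ndB1q3) (pc := pcB1) (cut := Cut.none) (xt := Ext.none) (P1 := 1610612736) (W1 := 536870912) (P2 := 1610612736) (W2 := 536870912) (P3 := 1020054732) (W3 := 13421774) (N0 := 3) (En := eng) (mo := mog) (C1 := cd1q3) (C2 := cd1q3) (C3 := pd1)
    rfl k0_pp_313

noncomputable def f_pm_001 : ℕ → ℕ → ℕ → ℕ → Bool := onCell 0 536870912 536870912 536870912 1020054732 13421774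
    (rowB 3 eng mog cd1q0 cd1q1 pd0 0 false true false .up 0 0 1 (qsf 0 536870912 536870912 536870912 0) ndB1q0 ndB1q1 pcB0 Cut.none Ext.none)

def k0_pm_001 : ∃ t, chk3 f_pm_001 t 1 1 1 = true :=
  ⟨(a (l 4) (b (l 4) (l 4))), by decide +kernel⟩

theorem c_pm_001 : CertB 0 536870912 536870912 536870912 1020054732 13421774 3 eng mog cd1q0 cd1q1 pd0 false true false .up 0 0 1
    ndB1q0 ndB1q1 pcB0 Cut.none Ext.none :=
  certB0 (fam := false) (s1 := true) (s2 := false) (a := 0) (b := 0) (c := 1) (cn := .up) (n1 := ndB1q0) (n2 := ndB1q1) (pc := pcB0) (cut := Cut.none) (xt := Ext.none) (P1 := 0) (W1 := 536870912) (P2 := 536870912) (W2 := 536870912) (P3 := 1020054732) (W3 := 13421774) (N0 := 3) (En := eng) (mo := mog) (C1 := cd1q0) (C2 := cd1q1) (C3 := pd0)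
    rfl k0_pm_001

noncomputable def f_pm_011 : ℕ → ℕ → ℕ → ℕ → Bool := onCell 0 536870912 536870912 536870912 1020054732 13421774
    (rowB 3 eng mog cd1q0 cd1q1 pd1 0 false true false .pnn 0 1 1 (qsf 0 536870912 536870912 536870912 1) ndB1q0 ndB1q1 pcB1 Cut.none Ext.none)

def k0_pm_011 : ∃ t, chk3 f_pm_011 t 1 1 1 = true :=
  ⟨(b (l 4) (a (l 4) (l 4))), by decide +kernel⟩

theorem c_pm_011 : CertB 0 536870912 536870912 536870912 1020054732 13421774 3 eng mog cd1q0 cd1q1 pd1 false true false .pnn 0 1 1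
    ndB1q0 ndB1q1 pcB1 Cut.none Ext.none :=
  certB0 (fam := false) (s1 := true) (s2 := false) (a := 0) (b := 1) (c := 1) (cn := .pnn) (n1 := ndB1q0) (n2 := ndB1q1) (pc := pcB1) (cut := Cut.none) (xt := Ext.none) (P1 := 0) (W1 := 536870912) (P2 := 536870912) (W2 := 536870912) (P3 := 1020054732) (W3 := 13421774) (N0 := 3) (En := eng) (mo := mog) (C1 := cd1q0) (C2 := cd1q1) (C3 := pd1)
    rfl k0_pm_011

noncomputable def cut_pm_012_a : Cut := Cut.of [[⟨0, 0, 0, 38347922⟩, ⟨1, 1, 0, 38347922⟩, ⟨2, 1, 0, 38347922⟩]]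

noncomputable def xt_pm_012_a : Ext := extD3 3 ⟨4, 1, 1, 5, 99, 20, 33, 40, 51, 125, 1, 32⟩ eng cd1q0 cd1q2a pd1 false true false .pnp 0 1 2 rfl ndB1q0 ndB1q2a pcB1

noncomputable def f_pm_012_a : ℕ → ℕ → ℕ → ℕ → Bool := onCell 536870912 536870912 0 536870912 1020054732 13421774
    (rowB 3 eng mog cd1q0 cd1q2a pd1 2 false true false .pnp 0 1 2 (qsf 0 536870912 0 536870912 1) ndB1q0 ndB1q2a pcB1 cut_pm_012_a xt_pm_012_a)

def k0_pm_012_a : ∃ t, chk3 f_pm_012_a t 4 1 1 = true :=
  ⟨(b (b (l 2) (a (l 2) (a (l 2) (b (l 2) (c (l 16087960) (l 16321264)))))) (b (a (l 2) (b (c (a (l 2) (l 16328440)) (l 16364072)) (c (b (l 16480960) (l 16375072)) (l 16353688)))) (b (a (a (l 2) (b (l 16120352) (c (l 16029344) (l 16253104)))) (b (c (l 16118440) (l 16375144)) (c (a (l 15965456) (l 15928280)) (a (l 16277208) (l 16303992))))) (a (c (b (l 15985896) (l 15941520)) (b (l 16209808) (l 16178856))) (c (b (l 15888864) (a (l 16080168) (l 16119896))) (b (l 16266408) (l 16250848))))))),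 by decide +kernel⟩

def k1_pm_012_a : ∃ t, chk3 f_pm_012_a t 5 1 1 = true :=
  ⟨(b (a (b (c (b (a (l 16223120) (l 16224224)) (a (l 28552784263) (b (l 16112896) (l 16048664)))) (b (a (l 16419864) (l 16424824)) (c (l 16040128) (l 16398992)))) (c (b (a (b (l 15907864) (l 16057688)) (l 16029720)) (a (l 16177552) (l 16223936))) (b (c (l 16129592) (l 16358280)) (l 16249264)))) (b (c (b (a (l 16227560) (l 16254112)) (a (l 15895752) (l 16067024))) (b (a (l 16445688) (l 16482384)) (a (l 16381816) (l 16412808)))) (c (b (a (l 16163512) (l 16232656)) (a (l 16268712) (l 16311552))) (a (b (l 16404800) (l 16396440)) (l 16306288))))) (b (a (b (c (a (l 16352696) (l 16375280)) (l 16391240)) (c (b (l 16499096) (l 16401832)) (l 16363656))) (b (c (l 16258936) (l 16416640)) (c (a (l 16474144) (l 16487128)) (l 16308480)))) (b (a (b (c (l 16190888) (l 16421216)) (c (a (l 15917944) (l 15934320)) (b (l 16361704) (l 16163432)))) (b (c (l 16232672) (l 16470824)) (b (a (l 16277592) (l 16296464))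 (c (a (l 16175200) (l 16224472)) (l 16148808))))) (a (b (c (a (l 16123184) (l 16156552)) (l 16118056)) (a (c (l 16162256) (l 16308296)) (c (l 16186016) (l 16347448)))) (b (a (c (l 16150360) (l 16376728)) (c (b (l 16212152) (l 16248640)) (l 16282608))) (a (c (l 16190904) (l 16387304)) (c (l 16176608) (l 16427688)))))))), by decide +kernel⟩

def k2_pm_012_a : ∃ t, chk3 f_pm_012_a t 6 1 1 = true :=
  ⟨(b (b (a (c (a (b (l 16303776) (l 16147712)) (b (l 16376000) (l 16298424))) (a (b (l 16534768) (l 16448888)) (b (l 16602072) (l 16526688)))) (c (a (b (l 16468848) (l 16448504)) (b (l 16556192) (l 16532048))) (b (a (l 16562528) (l 16462728)) (a (l 16555088) (l 16503008))))) (a (c (a (b (l 16299480) (l 16352112)) (b (l 16363424) (l 16390064))) (a (l 16315648) (l 16323856))) (a (c (l 16320096) (l 16330608)) (b (l 16300912) (l 16355152))))) (b (a (b (a (l 16432800) (l 16445416)) (a (c (l 16501912) (l 16459512)) (c (l 16518568) (l 16461800)))) (b (a (l 16456304) (l 16465232))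 (a (c (l 16532144) (l 16463536)) (c (l 16522408) (l 16464680))))) (a (b (c (a (b (l 16391200) (l 16280352)) (l 16204968)) (b (l 16484912) (l 16274368))) (b (a (b (c (l 16085824) (l 16438136)) (l 16118472)) (b (a (a (l 16161664) (l 16173944)) (l 16152216)) (c (l 16292792) (l 16486616)))) (a (b (l 16187408) (l 16235152)) (b (c (l 16339072) (l 16502296)) (c (l 16364784) (l 16516872)))))) (b (a (b (l 16391128) (l 16225008)) (c (b (l 16513640) (l 16472912)) (l 16376848))) (b (a (b (a (l 16200160) (l 16311160)) (a (l 16272624) (b (l 16261928) (l 16385944)))) (b (l 16289608) (a (b (l 16286056) (l 16385640)) (b (l 16336320) (l 16342816))))) (a (b (b (l 16288112) (l 16326504)) (a (l 16424280) (l 16406264))) (b (a (l 16350880) (c (l 16450328) (l 16589600))) (a (l 16430032) (c (l 16548504) (l 16610816)))))))))), by decide +kernel⟩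

def k3_pm_012_a : ∃ t, chk3 f_pm_012_a t 7 2 1 = true :=
  ⟨(a (b (a (b (a (l 16351184) (l 16242464)) (l 16327104)) (b (c (a (l 16432296) (l 16383392)) (l 16196088)) (l 16245992))) (b (a (l 16370024) (l 16392072)) (a (l 16356640) (c (l 16507480) (l 16535736))))) (b (a (b (a (l 16281880) (l 16265528)) (a (l 16391296) (l 16363584))) (a (l 16093424) (l 16063648))) (a (b (l 16280632) (a (l 16533704) (l 16526160))) (a (b (l 16432968) (l 16518728)) (b (l 16417352) (l 16512488)))))), by decide +kernel⟩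

def k4_pm_012_a : ∃ t, chk3 f_pm_012_a t 7 6 1 = true :=
  ⟨(a (b (a (a (l 16470368) (l 16473080)) (a (l 16475104) (l 16476400))) (a (b (l 16477008) (l 16456880)) (a (l 16482392) (l 16457280)))) (a (b (a (l 16476880) (l 16476472)) (a (b (l 16466680) (l 16480528)) (b (l 16462488) (l 16474480)))) (b (a (l 16475072) (l 16409656)) (a (b (l 16457624) (l 16467992)) (b (l 16452024) (l 16461024)))))), by decide +kernel⟩

def k5_pm_012_a : ∃ t, chk3 f_pm_012_a t 7 7 1 = true :=
  ⟨(a (b (a (b (l 16389824) (c (l 16533456) (l 16544160))) (a (a (l 16408152) (l 16417512)) (b (l 16519376) (l 16509168)))) (b (a (b (l 16370000) (a (b (l 16490712) (a (l 16378912) (l 16391872))) (a (l 16369552) (l 16426616)))) (a (a (l 16446696) (l 16522984)) (b (l 16583232) (l 16543592)))) (a (b (a (a (l 16431080) (l 16420864)) (b (l 16426280) (l 16468480))) (a (a (l 16492120) (l 16503632)) (b (l 16510416) (l 16573032)))) (b (a (b (a (l 16440816) (a (l 16471016) (l 16478312))) (c (l 16579944)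 (l 16651768))) (c (a (b (l 16514104) (l 16576680)) (l 140195875227385919)) (b (l 16576272) (l 16584848)))) (a (b (c (l 16610608) (l 16664248)) (l 16566784)) (b (b (l 16548232) (l 16580248)) (a (l 16633184) (l 16622960)))))))) (b (a (a (b (l 16512208) (l 16495824)) (b (l 16483880) (c (l 16571920) (l 16539696)))) (a (b (l 16455360) (a (l 16528840) (l 16524848))) (b (a (l 16491416) (l 16487464)) (a (l 16520872) (b (l 16522288) (l 16553424)))))) (b (a (a (b (l 16574816) (l 16576224)) (b (l 16545640) (l 140540572309536831))) (a (b (a (l 16581528) (l 16598584)) (a (l 16625208) (l 16600488))) (a (b (l 16594728) (b (l 16626904) (l 16629704))) (b (l 16569992) (a (l 16636128) (l 6)))))) (b (a (a (b (l 16572704) (l 140054450489835583)) (b (l 16604960) (l 140612933791252543))) (a (a (l 16612896) (b (l 16658696) (l 16664992))) (l 6))) (a (b (a (l 141104896578994239) (a (l 141488832367804479) (l 141437017859817535))) (a (l 141793328428679231) (a (l 142367960767348799) (l 142328928081510463))))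 (a (a (b (l 141627577001312511) (b (l 142571233007124735) (l 6))) (l 6)) (l 6))))))), by decide +kernel⟩

theorem s6_pm_012_a : ∃ t, chk3 f_pm_012_a t 7 3 1 = true := ex3_b k4_pm_012_a k5_pm_012_a

theorem s7_pm_012_a : ∃ t, chk3 f_pm_012_a t 7 1 1 = true := ex3_b k3_pm_012_a s6_pm_012_a

theorem s8_pm_012_a : ∃ t, chk3 f_pm_012_a t 3 1 1 = true := ex3_a k2_pm_012_a s7_pm_012_a

theorem s9_pm_012_a : ∃ t, chk3 f_pm_012_a t 2 1 1 = true := ex3_a k0_pm_012_a k1_pm_012_a

theorem s10_pm_012_a : ∃ t, chk3 f_pm_012_a t 1 1 1 = true := ex3_a s9_pm_012_a s8_pm_012_a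

theorem c_pm_012_a : CertB 0 536870912 0 536870912 1020054732 13421774 3 eng mog cd1q0 cd1q2a pd1 false true false .pnp 0 1 2
    ndB1q0 ndB1q2a pcB1 cut_pm_012_a xt_pm_012_a :=
  certB2 (fam := false) (s1 := true) (s2 := false) (a := 0) (b := 1) (c := 2) (cn := .pnp) (n1 := ndB1q0) (n2 := ndB1q2a) (pc := pcB1) (cut := cut_pm_012_a) (xt := xt_pm_012_a) (P1 := 0) (W1 := 536870912) (P2 := 0) (W2 := 536870912) (P3 := 1020054732) (W3 := 13421774) (N0 := 3) (En := eng) (mo := mog) (C1 := cd1q0) (C2 := cd1q2a) (C3 := pd1)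
    rfl (fun _ => rfl) s10_pm_012_a

noncomputable def cut_pm_012_b : Cut := Cut.of [[⟨0, 0, 0, 38347922⟩, ⟨1, 1, 0, 38347922⟩, ⟨2, 1, 0, 38347922⟩]]

noncomputable def f_pm_012_b : ℕ → ℕ → ℕ → ℕ → Bool := onCell 536870912 536870912 1239849684 370763052 1020054732 13421774
    (rowB 3 eng mog cd1q0 cd1q2b pd1 2 false true false .pnp 0 1 2 (qsf 0 536870912 1239849684 370763052 1) ndB1q0 ndB1q2b pcB1 cut_pm_012_b Ext.none)

def k0_pm_012_b : ∃ t, chk3 f_pm_012_b t 1 1 1 = true :=
  ⟨(a (a (l 2) (b (a (b (b (a (l 16226808) (l 16194664)) (l 2)) (l 2)) (b (c (a (l 16176952) (l 16186224)) (a (l 16326048) (l 16377192))) (a (l 2) (l 15923248)))) (l 2))) (a (b (a (b (c (a (l 16157792) (l 16154472)) (a (l 16403616) (l 16447160))) (a (l 15946240) (l 15972248))) (b (a (b (l 16319776) (l 16325488)) (b (l 16409600) (l 16422160))) (a (l 15980064) (c (l 16140928) (l 16302280))))) (a (l 2) (b (a (l 15997176) (l 16015400)) (l 2)))) (b (a (b (a (b (l 16413656) (l 16518864)) (b (l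 16282504) (l 16517400))) (a (l 16212296) (l 16393800))) (b (a (a (b (l 16300224) (l 16439080)) (l 16131608)) (a (l 16095072) (b (l 16204000) (l 16332008)))) (a (b (l 16520304) (l 16427904)) (l 16391808)))) (a (b (a (l 16059240) (l 16128008)) (l 15718008)) (b (a (l 16222112) (l 16292112)) (a (l 15992880) (l 16076432))))))), by decide +kernel⟩

theorem c_pm_012_b : CertB 0 536870912 1239849684 370763052 1020054732 13421774 3 eng mog cd1q0 cd1q2b pd1 false true false .pnp 0 1 2
    ndB1q0 ndB1q2b pcB1 cut_pm_012_b Ext.none :=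
  certB2 (fam := false) (s1 := true) (s2 := false) (a := 0) (b := 1) (c := 2) (cn := .pnp) (n1 := ndB1q0) (n2 := ndB1q2b) (pc := pcB1) (cut := cut_pm_012_b) (xt := Ext.none) (P1 := 0) (W1 := 536870912) (P2 := 1239849684) (W2 := 370763052) (P3 := 1020054732) (W3 := 13421774) (N0 := 3) (En := eng) (mo := mog) (C1 := cd1q0) (C2 := cd1q2b) (C3 := pd1)
    rfl (fun _ => rfl) k0_pm_012_b

noncomputable def cut_pm_022_a : Cut := Cut.of [[⟨0, 0, 0, 38347922⟩, ⟨1, 1, 0, 38347922⟩, ⟨2, 1, 0, 38347922⟩]]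

noncomputable def f_pm_022_a : ℕ → ℕ → ℕ → ℕ → Bool := onCell 1073741824 536870912 0 536870912 1020054732 13421774
    (rowB 3 eng mog cd1q0 cd1q2a pd2 2 false true false .pp 0 2 2 (qsf 0 536870912 0 536870912 2) ndB1q0 ndB1q2a pcB2 cut_pm_022_a Ext.none)

def k0_pm_022_a : ∃ t, chk3 f_pm_022_a t 2 2 1 = true :=
  ⟨(a (a (b (b (l 16116232) (a (l 16135632) (l 16069440))) (a (b (l 16197192) (l 16186360)) (b (l 16141528) (a (l 16186112) (l 16195432))))) (b (b (a (l 16043928) (l 15949984)) (a (l 15982328) (l 15876272))) (a (b (l 16113616) (a (l 16210928) (l 16229360))) (b (l 16020416) (b (l 16217336) (l 232497474407)))))) (a (a (b (b (b (l 15878296) (l 15853560)) (l 213169347335)) (b (a (l 16107816) (l 16071808)) (a (l 666825962167) (l 1)))) (b (b (l 1) (l 1)) (l 1))) (l 1))), by decide +kernel⟩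

def k1_pm_022_a : ∃ t, chk3 f_pm_022_a t 2 3 1 = true :=
  ⟨(a (a (b (a (b (a (l 16211272) (l 16234488)) (b (a (l 16261888) (l 16306520)) (a (l 16317512) (l 16376032)))) (b (a (l 16265256) (l 16198448)) (a (b (l 16358448) (l 16357728)) (b (l 16375416) (a (l 16453256) (c (l 16485912) (l 16496000))))))) (a (b (b (a (b (l 16370760) (l 16412936)) (b (l 16439488) (l 16446392))) (b (a (l 16397576) (a (l 16521328) (l 16543000))) (a (a (l 16492672) (l 16535200)) (a (l 16537456) (l 16562272))))) (b (b (b (a (a (l 16535136) (l 16580064)) (a (l 16605648) (l 16632784))) (l 6)) (l 6)) (l 6))) (b (a (b (a (l 16438520) (b (l 16535008) (l 16549992))) (b (a (l 16566256) (l 16580536)) (a (b (l 16634776) (l 16645960)) (a (l 409128893511) (b (l 16619224) (l 1)))))) (b (b (a (l 16534048) (l 16597456)) (a (l 16594120) (l 317323854791))) (b (a (b (l 16602992) (a (l 16621824) (l 529924780039))) (l 698502169431)) (a (b (l 703334114183) (l 1)) (l 1))))) (b (a (b (a (b (a (l 16666048) (l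 505765712887)) (a (l 6) (l 1))) (l 1)) (l 1)) (l 1)) (l 1))))) (b (a (b (a (b (l 16306680) (l 16386928)) (b (l 16344880) (l 16395880))) (a (b (l 16376160) (a (b (l 16521728) (l 16578944)) (l 274374047879))) (b (a (l 16507664) (l 16454776)) (b (l 523482159447) (l 1))))) (b (b (a (l 16383928) (l 16361816)) (a (a (l 16454840) (l 16480504)) (l 1))) (b (a (b (l 654478625271) (l 1)) (l 1)) (l 1)))) (b (a (b (a (b (a (l 306049542007) (l 1023309110711)) (a (l 701723411239) (l 1))) (l 1)) (l 1)) (l 1)) (l 1)))) (b (l 1) (l 1))), by decide +kernel⟩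

def k2_pm_022_a : ∃ t, chk3 f_pm_022_a t 3 1 1 = true :=
  ⟨(l 1), by decide +kernel⟩

theorem s3_pm_022_a : ∃ t, chk3 f_pm_022_a t 2 1 1 = true := ex3_b k0_pm_022_a k1_pm_022_a

theorem s4_pm_022_a : ∃ t, chk3 f_pm_022_a t 1 1 1 = true := ex3_a s3_pm_022_a k2_pm_022_a

theorem c_pm_022_a : CertB 0 536870912 0 536870912 1020054732 13421774 3 eng mog cd1q0 cd1q2a pd2 false true false .pp 0 2 2
    ndB1q0 ndB1q2a pcB2 cut_pm_022_a Ext.none :=
  certB2 (fam := false) (s1 := true) (s2 := false) (a := 0) (b := 2) (c := 2) (cn := .pp) (n1 := ndB1q0) (n2 := ndB1q2a) (pc := pcB2) (cut := cut_pm_022_a) (xt := Ext.none) (P1 := 0) (W1 := 536870912) (P2 := 0) (W2 := 536870912) (P3 := 1020054732) (W3 := 13421774) (N0 := 3) (En := eng) (mo := mog) (C1 := cd1q0) (C2 := cd1q2a) (C3 := pd2)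
    rfl (fun _ => rfl) s4_pm_022_a

noncomputable def cut_pm_022_b : Cut := Cut.of [[⟨0, 0, 0, 38347922⟩, ⟨1, 1, 0, 38347922⟩, ⟨2, 1, 0, 38347922⟩]]

noncomputable def f_pm_022_b : ℕ → ℕ → ℕ → ℕ → Bool := onCell 1073741824 536870912 1239849684 370763052 1020054732 13421774
    (rowB 3 eng mog cd1q0 cd1q2b pd2 2 false true false .pp 0 2 2 (qsf 0 536870912 1239849684 370763052 2) ndB1q0 ndB1q2b pcB2 cut_pm_022_b Ext.none)

def k0_pm_022_b : ∃ t, chk3 f_pm_022_b t 1 1 1 = true :=
  ⟨(a (a (b (b (a (b (a (l 16152432) (l 16050216)) (l 15827912)) (b (a (l 15953936) (l 15864216)) (l 15548200))) (a (b (l 15699944) (l 15529224)) (b (l 15500520) (l 15326376)))) (b (a (l 15313656) (l 15106560)) (a (l 15101952) (l 14890032)))) (b (b (a (b (a (l 15781736) (l 331280410855)) (a (l 15563656) (l 15485400))) (b (a (l 558376718135) (l 1)) (a (l 15415296) (l 234643467911)))) (a (b (l 15323856) (l 15143968)) (a (b (l 15212688) (l 15040424)) (b (l 15177248) (l 15039232))))) (a (b (b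 (l 14985632) (l 14847288)) (l 14686352)) (b (a (l 14819632) (l 14839072)) (a (l 14578104) (l 14596360)))))) (b (a (b (l 1) (a (a (b (l 15165032) (l 15070248)) (b (l 362955128919) (l 15119424))) (b (l 1) (a (l 15181224) (l 1))))) (l 1)) (a (a (b (a (l 14888680) (l 14961056)) (l 14702880)) (b (b (l 273297161399) (l 15065832)) (l 14891496))) (a (b (b (l 1) (l 551396539111)) (a (l 15153896) (l 15309008))) (b (l 1) (a (l 15464848) (l 557840111271))))))), by decide +kernel⟩

theorem c_pm_022_b : CertB 0 536870912 1239849684 370763052 1020054732 13421774 3 eng mog cd1q0 cd1q2b pd2 false true false .pp 0 2 2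
    ndB1q0 ndB1q2b pcB2 cut_pm_022_b Ext.none :=
  certB2 (fam := false) (s1 := true) (s2 := false) (a := 0) (b := 2) (c := 2) (cn := .pp) (n1 := ndB1q0) (n2 := ndB1q2b) (pc := pcB2) (cut := cut_pm_022_b) (xt := Ext.none) (P1 := 0) (W1 := 536870912) (P2 := 1239849684) (W2 := 370763052) (P3 := 1020054732) (W3 := 13421774) (N0 := 3) (En := eng) (mo := mog) (C1 := cd1q0) (C2 := cd1q2b) (C3 := pd2)
    rfl (fun _ => rfl) k0_pm_022_b

noncomputable def f_pm_023 : ℕ → ℕ → ℕ → ℕ → Bool := onCell 1073741824 536870912 1610612736 536870912 1020054732 13421774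
    (rowB 3 eng mog cd1q0 cd1q3 pd2 2 false true false .up 0 2 3 (qsf 0 536870912 1610612736 536870912 2) ndB1q0 ndB1q3 pcB2 Cut.none Ext.none)

def k0_pm_023 : ∃ t, chk3 f_pm_023 t 1 1 1 = true :=
  ⟨(a (a (b (b (a (b (l 14784496) (l 14783752)) (b (l 14565352) (l 14564136))) (a (l 2) (b (l 14614328) (l 2)))) (l 2)) (b (b (a (b (l 14355688) (l 14350288)) (b (a (l 14215248) (l 14198216)) (l 14171400))) (a (b (l 14398112) (l 14495280)) (b (l 14190696) (l 14282464)))) (b (a (l 2) (l 14302304)) (l 2)))) (b (a (b (a (b (l 14312384) (l 14217864)) (b (l 14571624) (l 14492056))) (a (b (l 14154424) (l 14007248)) (b (l 14421072) (l 14355248)))) (b (a (b (l 14909248) (l 14856368)) (b (a (l 15190392) (l 15376216)) (l 15264504))) (a (b (l 14805832) (l 14755432)) (b (l 15244616) (l 15220312))))) (a (b (a (b (l 14233008) (l 14387200)) (b (l 14301032) (a (l 14265928) (l 14315464)))) (b (a (l 2) (l 14418568)) (l 2))) (b (a (b (l 14700008) (l 14631128)) (l 15133112)) (a (b (l 14550104)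 (b (l 14509848) (l 2))) (b (l 15061464) (l 14937200))))))), by decide +kernel⟩

theorem c_pm_023 : CertB 0 536870912 1610612736 536870912 1020054732 13421774 3 eng mog cd1q0 cd1q3 pd2 false true false .up 0 2 3
    ndB1q0 ndB1q3 pcB2 Cut.none Ext.none :=
  certB2 (fam := false) (s1 := true) (s2 := false) (a := 0) (b := 2) (c := 3) (cn := .up) (n1 := ndB1q0) (n2 := ndB1q3) (pc := pcB2) (cut := Cut.none) (xt := Ext.none) (P1 := 0) (W1 := 536870912) (P2 := 1610612736) (W2 := 536870912) (P3 := 1020054732) (W3 := 13421774) (N0 := 3) (En := eng) (mo := mog) (C1 := cd1q0) (C2 := cd1q3) (C3 := pd2)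
    rfl (fun _ => rfl) k0_pm_023

noncomputable def f_pm_033 : ℕ → ℕ → ℕ → ℕ → Bool := onCell 1610612736 536870912 1610612736 536870912 1020054732 13421774
    (rowB 3 eng mog cd1q0 cd1q3 pd3 2 false true false .pnn 0 3 3 (qsf 0 536870912 1610612736 536870912 3) ndB1q0 ndB1q3 pcB3 Cut.none Ext.none)

def k0_pm_033 : ∃ t, chk3 f_pm_033 t 1 1 1 = true :=
  ⟨(a (b (a (a (b (b (a (l 15456824) (l 15112632)) (l 15500568)) (b (l 15749744) (l 15888224))) (b (b (a (l 553006706151) (l 1)) (a (l 15341680) (l 4))) (a (l 15625096) (l 4)))) (b (a (b (l 1) (l 4)) (l 1)) (l 4))) (a (b (a (l 16041376) (l 15771992)) (a (b (l 16218128) (l 16361080)) (b (l 16086928) (l 16216816)))) (l 4))) (b (a (b (l 1) (a (b (l 1) (l 4)) (l 1))) (l 1)) (a (l 4) (b (a (b (l 1) (l 4)) (l 1)) (l 4))))), by decide +kernel⟩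

theorem c_pm_033 : CertB 0 536870912 1610612736 536870912 1020054732 13421774 3 eng mog cd1q0 cd1q3 pd3 false true false .pnn 0 3 3
    ndB1q0 ndB1q3 pcB3 Cut.none Ext.none :=
  certB2 (fam := false) (s1 := true) (s2 := false) (a := 0) (b := 3) (c := 3) (cn := .pnn) (n1 := ndB1q0) (n2 := ndB1q3) (pc := pcB3) (cut := Cut.none) (xt := Ext.none) (P1 := 0) (W1 := 536870912) (P2 := 1610612736) (W2 := 536870912) (P3 := 1020054732) (W3 := 13421774) (N0 := 3) (En := eng) (mo := mog) (C1 := cd1q0) (C2 := cd1q3) (C3 := pd3)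
    rfl (fun _ => rfl) k0_pm_033

noncomputable def f_pm_101 : ℕ → ℕ → ℕ → ℕ → Bool := onCell 0 536870912 536870912 536870912 1020054732 13421774
    (rowB 3 eng mog cd1q1 cd1q1 pd0 2 false true false .npn 1 0 1 (qsf 536870912 536870912 536870912 536870912 0) ndB1q1 ndB1q1 pcB0 Cut.none Ext.none)

def k0_pm_101 : ∃ t, chk3 f_pm_101 t 1 1 1 = true :=
  ⟨(b (l 4) (b (a (a (a (b (a (b (l 4) (c (l 15794008) (l 15531800))) (l 4)) (a (b (c (l 15544752) (l 15332120)) (l 15266656)) (b (c (l 15694848) (l 15472640)) (l 15384104)))) (b (l 4) (a (b (l 44792541335) (l 15321040)) (b (l 4) (l 42644972279))))) (a (b (l 4) (b (l 4) (a (l 42108427719) (l 4)))) (l 4))) (l 4)) (b (a (a (a (a (b (l 15126696) (l 15018944)) (b (l 15198440) (l 15049128))) (b (a (l 15361680) (l 15491376)) (a (l 15216000) (l 15333848)))) (a (b (a (l 15623752) (l 15570600)) (a (l 15455616) (l 15582648))) (b (a (l 15680952) (l 4)) (a (l 15712440) (l 15798784))))) (a (a (a (b (l 4) (l 15834024)) (l 4)) (l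 4)) (l 4))) (b (a (a (a (a (a (b (l 14973008) (l 14951424)) (b (l 14953016) (l 14916104))) (b (l 14995496) (l 14981408))) (a (l 15104400) (l 15194232))) (a (a (l 15300736) (l 15417592)) (a (l 15541760) (l 15669408)))) (a (a (a (l 15796120) (l 15820576)) (c (l 15733240) (l 15853496))) (l 4))) (a (a (a (a (a (l 14960304) (a (l 14911752) (l 14931616))) (a (l 14961280) (l 14988008))) (a (l 14973168) (l 15016048))) (a (a (l 15165520) (l 15266584)) (a (l 15377984) (l 15499424)))) (a (a (c (l 15724056) (l 15612472)) (c (l 15667192) (l 15852584))) (a (a (l 15513240) (c (l 15611416) (l 15863928))) (a (c (l 15609400) (l 15873056)) (l 4))))))))), by decide +kernel⟩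

theorem c_pm_101 : CertB 536870912 536870912 536870912 536870912 1020054732 13421774 3 eng mog cd1q1 cd1q1 pd0 false true false .npn 1 0 1
    ndB1q1 ndB1q1 pcB0 Cut.none Ext.none :=
  certB2 (fam := false) (s1 := true) (s2 := false) (a := 1) (b := 0) (c := 1) (cn := .npn) (n1 := ndB1q1) (n2 := ndB1q1) (pc := pcB0) (cut := Cut.none) (xt := Ext.none) (P1 := 536870912) (W1 := 536870912) (P2 := 536870912) (W2 := 536870912) (P3 := 1020054732) (W3 := 13421774) (N0 := 3) (En := eng) (mo := mog) (C1 := cd1q1) (C2 := cd1q1) (C3 := pd0)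
    rfl (fun _ => rfl) k0_pm_101

noncomputable def xt_pm_102_a : Ext := extD3 3 ⟨4, 1, 1, 5, 99, 20, 33, 40, 51, 125, 1, 32⟩ eng cd1q1 cd1q2a pd0 false true false .npp 1 0 2 rfl ndB1q1 ndB1q2a pcB0

noncomputable def f_pm_102_a : ℕ → ℕ → ℕ → ℕ → Bool := onCell 536870912 536870912 0 536870912 1020054732 13421774
    (rowB 3 eng mog cd1q1 cd1q2a pd0 0 false true false .npp 1 0 2 (qsf 536870912 536870912 0 536870912 0) ndB1q1 ndB1q2a pcB0 Cut.none xt_pm_102_a)

def k0_pm_102_a : ∃ t, chk3 f_pm_102_a t 2 2 1 = true :=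
  ⟨(a (b (l 2) (a (l 2) (b (l 2) (a (l 2) (b (l 2) (l 16288280)))))) (b (a (c (a (l 16588016) (l 16660344)) (a (l 16575192) (l 16548760))) (a (c (l 16664616) (l 16481912)) (b (c (l 16585896) (l 16499608)) (l 16481248)))) (a (b (a (b (l 16603520) (l 16427992)) (l 16567120)) (a (b (l 16393160) (l 16300776)) (b (b (l 16466200) (l 16458520)) (l 16322888)))) (b (a (l 16538872) (l 16511328)) (a (b (b (l 16516776) (l 16423168)) (l 16354360)) (b (l 16440456) (a (l 16385784) (l 16408608)))))))), by decide +kernel⟩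

def k1_pm_102_a : ∃ t, chk3 f_pm_102_a t 2 3 1 = true :=
  ⟨(a (b (a (l 2) (b (a (l 2) (b (l 16117184) (l 15942072))) (a (b (l 15779240) (l 15600688)) (b (l 15762840) (l 15579336))))) (b (a (a (l 2) (b (l 15455232) (b (b (l 15349720) (l 15376080)) (l 15458768)))) (b (a (l 15416936) (a (l 15396792) (l 15388832))) (a (b (c (l 15392616) (l 15294264)) (l 15437800)) (b (l 15336256) (l 15425920))))) (a (b (a (c (l 15731368) (l 15584856)) (c (l 15686472) (l 15543592))) (c (a (l 15909912) (l 15867976)) (a (l 15774456) (l 15716576)))) (b (a (c (l 15649408) (l 15511744)) (c (l 15620488) (l 15489552))) (a (c (l 15833520) (l 15667832)) (c (l 15785904) (l 15628480))))))) (b (a (b (a (b (l 16123256) (l 15942368)) (b (l 16118592) (l 15953568))) (a (b (l 15758056) (l 15570264)) (b (l 15764872) (l 15573536)))) (b (a (b (l 16144992) (l 15975608)) (b (l 16160272) (l 16008352))) (a (b (l 15783296) (l 15589200)) (b (l 15813280) (l 15617288))))) (b (a (b (a (b (l 15427472) (l 15332680))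 (b (l 15428728) (l 15336248))) (a (b (l 15341056) (l 15423344)) (c (l 15437920) (l 15350736)))) (b (a (b (l 15443000) (b (l 15369704) (l 15341216))) (b (l 15470368) (b (l 15396968) (l 15379656)))) (a (c (l 15454920) (l 15376552)) (l 15447344)))) (a (b (a (c (l 15600008) (l 15477208)) (l 15385272)) (a (l 15421712) (l 15500920))) (b (a (l 15513536) (l 15546656)) (a (l 15589368) (l 15624288))))))), by decide +kernel⟩

def k2_pm_102_a : ∃ t, chk3 f_pm_102_a t 3 4 1 = true :=
  ⟨(a (a (a (b (b (c (l 16632784) (l 16507712)) (l 16401184)) (l 16432352)) (b (b (a (l 16512416) (l 16499176)) (a (l 16525344) (l 16515144))) (b (l 16354456) (l 16481592)))) (b (a (a (l 77476312311) (b (l 126868498071) (l 16489096))) (b (l 198272236935) (a (l 16410112) (l 182166162471)))) (a (a (l 16348424) (b (l 16469760) (l 16454824))) (b (a (l 16457184) (l 16443376)) (a (l 16441936) (l 16432032)))))) (a (a (b (l 3) (a (b (l 134384632631) (l 16419336)) (b (l 193977295623) (a (l 16408808) (l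 16400536))))) (b (l 3) (a (b (l 3) (a (l 140827110199) (l 195587936247))) (l 3)))) (l 3))), by decide +kernel⟩

def k3_pm_102_a : ∃ t, chk3 f_pm_102_a t 3 5 1 = true :=
  ⟨(b (a (a (a (l 16485256) (l 16440408)) (a (l 16377496) (b (a (l 16432160) (l 16424176)) (l 16418208)))) (a (a (b (a (l 16412736) (l 16403032)) (a (l 16409136) (l 16403248))) (a (b (a (l 16393368) (l 16365432)) (l 16393352)) (b (a (l 142974577447) (l 143511416343)) (a (l 16386608) (l 16380200))))) (a (a (b (a (l 196124738119) (l 3)) (a (b (l 16369968) (l 16376624)) (b (l 146195743047) (l 16369592)))) (b (l 3) (c (b (l 194514157783) (a (l 159080640519) (l 190219198039))) (a (l 144585151095) (l 190756118327))))) (l 3)))) (a (a (b (a (l 16467936) (l 16446136)) (a (b (l 16427544) (l 16389816)) (b (l 16440944) (l 16294128)))) (a (a (l 16429296) (l 16421096)) (l 16347768))) (b (a (a (l 16401192) (a (l 16397296) (c (l 16385744) (l 16400760)))) (a (a (a (l 16387584) (l 16362056)) (a (b (l 16350600) (l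 16382648)) (b (c (a (l 16329984) (l 173576149543)) (l 174113079431)) (l 16355080)))) (a (b (a (c (a (l 159080689511) (l 169281226295)) (l 187534915911)) (l 3)) (c (a (a (l 16351688) (l 195587849127)) (b (a (l 177334297207) (l 3)) (a (l 202030303815) (l 182703008935)))) (a (a (l 16390008) (l 193977314007)) (b (l 166596960215) (l 198272279431))))) (l 3)))) (a (a (l 16399784) (a (l 16396192) (l 16395712))) (b (a (a (l 16396096) (a (l 16393744) (l 16389480))) (a (a (l 16362152) (a (l 16335944) (b (c (l 16326112) (l 16393656)) (l 16378240)))) (a (c (b (a (l 175186745207) (l 139216459703)) (a (l 16349480) (l 187534776215))) (a (l 190756091383) (l 170355041319))) (b (l 3) (a (c (l 149417012279) (l 144048333287)) (l 3)))))) (a (a (l 16397616) (l 16358176)) (a (a (l 16397896) (l 16392880)) (c (a (b (l 16333824) (l 16362840)) (b (a (l 195587841191) (l 158543803239)) (a (l 16356272) (l 203104036231)))) (a (l 16392504) (a (l 204714750327) (l 177334328295))))))))))), by decide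 +kernel⟩

def k4_pm_102_a : ∃ t, chk3 f_pm_102_a t 6 3 1 = true :=
  ⟨(b (b (a (a (a (l 15906936) (l 15910568)) (b (l 16053440) (l 16063064))) (b (a (b (a (l 16394664) (l 16404064)) (l 16316032)) (a (b (l 16406608) (l 16369408)) (l 16305192))) (a (l 16042160) (a (l 16220968) (l 16258856))))) (a (a (b (l 15854736) (l 15657808)) (b (l 15844576) (l 15626856))) (a (b (l 15782488) (a (l 15758648) (l 15794296))) (b (a (l 16025936) (l 16065472)) (a (l 15832928) (l 15874480)))))) (b (a (b (a (b (l 15510920) (b (l 15437264) (l 15430680))) (b (l 15564736) (b (l 15493664) (l 15492720)))) (a (l 15488712) (l 15540344))) (b (a (b (l 15631856) (b (l 15565224) (l 15567096))) (b (l 15712224) (a (l 15611688) (l 15678352)))) (a (l 15602424) (l 15675128)))) (a (b (a (l 15568680) (l 15600760)) (a (l 15626784) (l 15638896))) (a (b (l 15643096) (l 15660760)) (b (l 15695928) (l 15692560)))))), by decide +kernel⟩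

def k5_pm_102_a : ∃ t, chk3 f_pm_102_a t 7 6 1 = true :=
  ⟨(a (b (a (b (a (l 16393512) (l 16400704)) (a (l 16282096) (b (l 16379912) (l 16293112)))) (b (l 16378704) (a (b (l 16393528) (l 16337240)) (b (l 16403544) (l 16317088))))) (a (b (a (l 16107352) (l 16151456)) (a (l 15918856) (l 15965944))) (b (a (l 16197696) (l 16204048)) (a (l 16015616) (l 16067760))))) (a (b (b (a (l 16401920) (l 16405648)) (b (l 16368296) (a (l 16316680) (l 16414448)))) (b (a (l 16149536) (b (b (l 16366272) (l 16370880)) (l 16305808))) (a (l 15996448) (b (l 16220984) (l 16138672))))) (b (b (b (a (a (l 16407696) (l 16408000)) (a (l 16362784) (c (l 16346576) (l 16429952)))) (a (l 16413392) (a (l 16418648) (l 16334264)))) (a (l 16359056) (b (l 16343088) (l 16391896)))) (b (a (b (b (l 16427008) (l 16314048)) (l 16319336)) (b (a (l 16435632) (l 16444440)) (a (l 16343896) (b (l 16422384) (l 16413272))))) (a (b (l 16278832) (l 16199360)) (b (l 16234016) (l 16220552))))))), by decide +kernel⟩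

def k6_pm_102_a : ∃ t, chk3 f_pm_102_a t 7 7 1 = true :=
  ⟨(a (b (b (a (b (l 15805592) (a (l 15726888) (l 15778216))) (b (l 15911344) (a (l 15832264) (l 15888944)))) (a (l 15758528) (l 15852408))) (a (b (l 15759504) (l 15734696)) (b (l 15833872) (l 15662352)))) (b (a (b (b (a (l 15998128) (l 16059472)) (a (l 15948192) (l 16009984))) (a (l 15929368) (l 15983536))) (b (b (a (l 16123560) (l 16190480)) (a (l 15969560) (b (l 16143680) (l 16129896)))) (a (b (l 16050424) (a (l 16015104) (l 16041568))) (b (a (l 16095584) (l 16078616)) (a (l 16062328) (l 16007656)))))) (a (b (a (l 15896432) (b (l 15953560) (a (l 15916152) (l 15935536)))) (a (b (l 15855368) (l 134962679502553135)) (b (a (l 15880280) (l 15888728)) (a (l 15821168) (l 15798144))))) (b (a (b (a (l 15988592) (l 16005000)) (a (l 15947712) (l 15949120))) (b (a (l 16009728) (b (l 16030080) (a (l 16001568) (l 16004952)))) (a (b (l 15968152) (a (l 15939296) (l 15943432))) (b (a (l 15973984) (l 15985296)) (a (l 15955616)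 (l 15977808)))))) (a (b (a (l 15887496) (b (l 15906072) (l 136536630545055855))) (a (b (l 15842272) (l 136529071261122799)) (b (a (l 15852656) (l 15870248)) (l 15845464)))) (b (a (b (a (l 15913264) (l 15926432)) (a (l 15897480) (l 15919344))) (l 15954560)) (l 15912128))))))), by decide +kernel⟩

theorem s7_pm_102_a : ∃ t, chk3 f_pm_102_a t 7 3 1 = true := ex3_b k5_pm_102_a k6_pm_102_a

theorem s8_pm_102_a : ∃ t, chk3 f_pm_102_a t 3 3 1 = true := ex3_a k4_pm_102_a s7_pm_102_a

theorem s9_pm_102_a : ∃ t, chk3 f_pm_102_a t 3 2 1 = true := ex3_b k2_pm_102_a k3_pm_102_a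

theorem s10_pm_102_a : ∃ t, chk3 f_pm_102_a t 3 1 1 = true := ex3_b s9_pm_102_a s8_pm_102_a

theorem s11_pm_102_a : ∃ t, chk3 f_pm_102_a t 2 1 1 = true := ex3_b k0_pm_102_a k1_pm_102_a

theorem s12_pm_102_a : ∃ t, chk3 f_pm_102_a t 1 1 1 = true := ex3_a s11_pm_102_a s10_pm_102_a

theorem c_pm_102_a : CertB 536870912 536870912 0 536870912 1020054732 13421774 3 eng mog cd1q1 cd1q2a pd0 false true false .npp 1 0 2
    ndB1q1 ndB1q2a pcB0 Cut.none xt_pm_102_a :=
  certB0 (fam := false) (s1 := true) (s2 := false) (a := 1) (b := 0) (c := 2) (cn := .npp) (n1 := ndB1q1) (n2 := ndB1q2a) (pc := pcB0) (cut := Cut.none) (xt := xt_pm_102_a) (P1 := 536870912) (W1 := 536870912) (P2 := 0) (W2 := 536870912) (P3 := 1020054732) (W3 := 13421774) (N0 := 3) (En := eng) (mo := mog) (C1 := cd1q1) (C2 := cd1q2a) (C3 := pd0)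
    rfl s12_pm_102_a

noncomputable def f_pm_102_b : ℕ → ℕ → ℕ → ℕ → Bool := onCell 0 536870912 1239849684 370763052 1020054732 13421774
    (rowB 3 eng mog cd1q1 cd1q2b pd0 2 false true false .npp 1 0 2 (qsf 536870912 536870912 1239849684 370763052 0) ndB1q1 ndB1q2b pcB0 Cut.none Ext.none)

def k0_pm_102_b : ∃ t, chk3 f_pm_102_b t 1 1 1 = true :=
  ⟨(a (a (l 2) (b (b (l 3) (l 3)) (l 2))) (a (b (b (a (l 3) (a (b (a (l 3) (b (l 16308640) (l 3))) (l 3)) (a (b (b (l 16372440) (l 16312872)) (l 3)) (b (b (l 16429184) (l 16356136)) (b (l 16318576) (l 3)))))) (l 3)) (l 3)) (b (a (b (a (b (c (b (l 16589360) (l 16496096)) (l 16313488)) (a (b (l 16341232) (l 16304720)) (b (l 16398248) (l 16327632)))) (b (c (b (l 16626128) (l 16574048)) (l 16328840)) (a (l 16252168) (l 16329456)))) (a (b (b (l 62443334167) (l 3)) (l 3)) (b (a (b (l 16294288) (l 16217944)) (l 16128776)) (b (l 78012400535) (l 3))))) (b (b (a (c (b (l 16665312) (l 16567624)) (l 16372648)) (c (l 16683464) (l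 16523776))) (a (b (l 16362768) (l 16380000)) (b (l 16357744) (l 16349208)))) (a (b (c (l 16349144) (l 16248296)) (a (l 15983008) (l 16129600))) (b (l 16099280) (l 16049568))))) (a (b (l 3) (l 3)) (b (a (b (b (l 15985648) (l 3)) (l 3)) (b (a (l 16008720) (l 16071560)) (l 108613547495))) (l 3)))))), by decide +kernel⟩

theorem c_pm_102_b : CertB 536870912 536870912 1239849684 370763052 1020054732 13421774 3 eng mog cd1q1 cd1q2b pd0 false true false .npp 1 0 2
    ndB1q1 ndB1q2b pcB0 Cut.none Ext.none :=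
  certB2 (fam := false) (s1 := true) (s2 := false) (a := 1) (b := 0) (c := 2) (cn := .npp) (n1 := ndB1q1) (n2 := ndB1q2b) (pc := pcB0) (cut := Cut.none) (xt := Ext.none) (P1 := 536870912) (W1 := 536870912) (P2 := 1239849684) (W2 := 370763052) (P3 := 1020054732) (W3 := 13421774) (N0 := 3) (En := eng) (mo := mog) (C1 := cd1q1) (C2 := cd1q2b) (C3 := pd0)
    rfl (fun _ => rfl) k0_pm_102_b

noncomputable def f_pm_112_a : ℕ → ℕ → ℕ → ℕ → Bool := onCell 536870912 536870912 0 536870912 1020054732 13421774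
    (rowB 3 eng mog cd1q1 cd1q2a pd1 2 false true false .dn 1 1 2 (qsf 536870912 536870912 0 536870912 1) ndB1q1 ndB1q2a pcB1 Cut.none Ext.none)

def k0_pm_112_a : ∃ t, chk3 f_pm_112_a t 2 1 1 = true :=
  ⟨(a (b (b (a (c (b (a (b (l 16481280) (l 16593136)) (c (l 16488176) (l 16589920))) (a (l 16325736) (l 16423528))) (a (b (c (l 16647880) (l 16528688)) (l 16420456)) (b (c (l 16638552) (l 16540608)) (l 16464040)))) (c (b (a (l 16424304) (l 16465528)) (a (l 16464488) (l 16511120))) (a (b (l 16529608) (l 16487216)) (b (l 16594896) (l 16510648))))) (a (b (c (b (a (l 16291048) (l 16309024)) (a (b (l 16179696) (l 16136616)) (b (l 16235624) (l 16266304)))) (a (b (l 16335448) (l 16259520)) (b (l 16374240) (l 16326176)))) (c (a (l 16065320) (l 16273960)) (a (l 16328920) (l 16399656)))) (b (c (a (b (l 16338520) (l 16348984)) (b (l 16390024) (l 16440896))) (a (c (l 16400512) (l 16432216)) (l 16424328))) (c (a (l 16395608) (l 16395504)) (a (l 16455456) (l 16496136)))))) (b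 (a (c (b (a (l 16151704) (l 16098008)) (b (a (l 16129024) (l 16088032)) (a (l 15957696) (l 15930168)))) (b (c (l 16415920) (l 16419208)) (c (l 16088336) (l 16410960)))) (c (b (a (l 16078520) (l 16074528)) (b (l 15808392) (a (l 15922328) (l 1)))) (b (c (l 16403840) (l 16480128)) (c (l 16161328) (l 16414448))))) (b (b (a (c (a (l 15761208) (l 15750920)) (c (l 16066000) (l 16276872))) (a (c (l 15762080) (l 16193728)) (l 1))) (a (c (b (a (l 15617688) (l 15613912)) (l 15445696)) (c (l 15788232) (l 16193768))) (l 1))) (a (a (c (b (l 15584048) (l 15573800)) (c (l 15898192) (l 16119920))) (a (c (l 160555085111) (l 193842145735)) (l 1))) (l 1))))) (b (a (a (b (c (b (l 16472776) (l 16425384)) (b (l 16597664) (l 16533576))) (b (c (b (l 16453304) (l 16459504)) (l 16507312)) (c (l 16365784) (l 16521608)))) (b (b (l 1) (l 1)) (l 1))) (l 1)) (b (l 1) (l 1)))), by decide +kernel⟩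

def k1_pm_112_a : ∃ t, chk3 f_pm_112_a t 3 1 1 = true :=
  ⟨(l 1), by decide +kernel⟩

theorem s2_pm_112_a : ∃ t, chk3 f_pm_112_a t 1 1 1 = true := ex3_a k0_pm_112_a k1_pm_112_a

theorem c_pm_112_a : CertB 536870912 536870912 0 536870912 1020054732 13421774 3 eng mog cd1q1 cd1q2a pd1 false true false .dn 1 1 2
    ndB1q1 ndB1q2a pcB1 Cut.none Ext.none :=
  certB2 (fam := false) (s1 := true) (s2 := false) (a := 1) (b := 1) (c := 2) (cn := .dn) (n1 := ndB1q1) (n2 := ndB1q2a) (pc := pcB1) (cut := Cut.none) (xt := Ext.none) (P1 := 536870912) (W1 := 536870912) (P2 := 0) (W2 := 536870912) (P3 := 1020054732) (W3 := 13421774) (N0 := 3) (En := eng) (mo := mog) (C1 := cd1q1) (C2 := cd1q2a) (C3 := pd1)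
    rfl (fun _ => rfl) s2_pm_112_a

noncomputable def f_pm_112_b : ℕ → ℕ → ℕ → ℕ → Bool := onCell 536870912 536870912 536870912 536870912 1020054732 13421774
    (rowB 3 eng mog cd1q1 cd1q2b pd1 1 false true false .dn 1 1 2 (qsf 536870912 536870912 1239849684 370763052 1) ndB1q1 ndB1q2b pcB1 Cut.none Ext.none)

def k0_pm_112_b : ∃ t, chk3 f_pm_112_b t 2 2 1 = true :=
  ⟨(b (a (b (a (l 1) (b (a (l 1) (a (l 1) (l 299606659047))) (c (l 222296918839) (c (l 16569552) (l 16573496))))) (a (c (c (l 283500091495) (l 284037176231)) (c (l 285111175031) (l 279742574951))) (c (b (l 202432864583) (l 16399728)) (c (b (l 16634784) (l 16607256)) (l 16420816))))) (b (a (c (b (a (l 16401632) (l 16492176)) (a (l 16604096) (l 16669960))) (c (b (l 16636744) (l 16648720)) (b (l 16489256) (l 16490584)))) (c (b (a (l 16542688) (l 16290040)) (c (l 16561440) (l 16669752))) (a (c (l 16606672) (l 16403216)) (b (l 16349488) (l 16417664))))) (a (c (c (l 16402816) (l 16563528)) (c (l 16530976)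 (l 16306072))) (c (b (l 16525480) (l 16592168)) (c (l 16365848) (l 16223400)))))) (a (b (a (c (b (l 16300728) (l 16481176)) (b (l 16518904) (l 16540152))) (c (b (l 16520672) (l 16566032)) (b (l 16482432) (l 16412328)))) (c (a (l 16293448) (l 16423656)) (a (l 16404696) (l 16308472)))) (b (a (c (b (l 16585656) (l 16484944)) (c (l 16344160) (l 16247448))) (c (b (l 16478776) (l 16364072)) (l 15902752))) (a (c (l 16337208) (l 16131504)) (c (b (l 16250848) (l 16141560)) (l 15983448)))))), by decide +kernel⟩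

def k1_pm_112_b : ∃ t, chk3 f_pm_112_b t 3 2 1 = true :=
  ⟨(b (a (a (b (c (a (b (l 16436208) (l 16457664)) (l 16307592)) (a (b (l 16364176) (l 16343352)) (c (l 16337168) (l 16178096)))) (c (a (b (l 16484048) (l 16510384)) (b (l 16491752) (l 16417968))) (b (a (l 16266744) (l 16167888)) (l 15883048)))) (b (c (b (a (l 16379128) (l 16125480)) (a (l 16347200) (l 16143736))) (b (a (l 16157096) (l 16030248)) (l 15898936))) (c (b (l 16040688) (l 16160408)) (c (l 15893352) (l 15903824))))) (b (a (a (b (c (l 15838040) (l 15907696)) (c (l 15937984) (l 15863320))) (b (l 3) (l 15656352))) (l 3)) (a (a (b (c (l 15915024) (l 15817680)) (l 15784368)) (b (a (l 15753016) (l 15688752)) (l 283565815271))) (b (l 3) (l 2))))) (a (b (b (a (c (l 16103984) (l 15919456)) (a (l 16049560) (l 15870144))) (a (c (l 16232520) (l 15949096)) (c (l 16018048) (l 15774056)))) (b (a (c (l 16105856) (l 15853896)) (a (l 15690040) (l 2))) (a (l 15685048) (l 2)))) (b (a (b (c (l 15589544) (l 15660232))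 (l 2)) (l 2)) (l 2)))), by decide +kernel⟩

def k2_pm_112_b : ∃ t, chk3 f_pm_112_b t 1 3 1 = true :=
  ⟨(b (a (a (b (a (c (l 16451536) (l 16330640)) (c (l 16314904) (l 16179808))) (a (c (l 16357200) (l 16233832)) (l 15969664))) (b (a (c (l 16159328) (l 16009800)) (c (l 15990072) (l 15825952))) (a (l 15804136) (c (l 15824040) (l 15694616))))) (a (b (a (c (l 15812976) (l 15635104)) (l 2)) (l 2)) (l 2))) (a (a (b (a (l 16240144) (l 16065640)) (a (l 16231096) (l 16045640))) (b (a (l 15869392) (l 2)) (l 2))) (l 2))), by decide +kernel⟩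

theorem s3_pm_112_b : ∃ t, chk3 f_pm_112_b t 1 2 1 = true := ex3_a k0_pm_112_b k1_pm_112_b

theorem s4_pm_112_b : ∃ t, chk3 f_pm_112_b t 1 1 1 = true := ex3_b s3_pm_112_b k2_pm_112_b

theorem c_pm_112_b : CertB 536870912 536870912 1239849684 370763052 1020054732 13421774 3 eng mog cd1q1 cd1q2b pd1 false true false .dn 1 1 2
    ndB1q1 ndB1q2b pcB1 Cut.none Ext.none :=
  certB1 (fam := false) (s1 := true) (s2 := false) (a := 1) (b := 1) (c := 2) (cn := .dn) (n1 := ndB1q1) (n2 := ndB1q2b) (pc := pcB1) (cut := Cut.none) (xt := Ext.none) (P1 := 536870912) (W1 := 536870912) (P2 := 1239849684) (W2 := 370763052) (P3 := 1020054732) (W3 := 13421774) (N0 := 3) (En := eng) (mo := mog) (C1 := cd1q1) (C2 := cd1q2b) (C3 := pd1)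
    rfl (fun _ => rfl) s4_pm_112_b

noncomputable def f_pm_113 : ℕ → ℕ → ℕ → ℕ → Bool := onCell 536870912 536870912 536870912 536870912 1020054732 13421774
    (rowB 3 eng mog cd1q1 cd1q3 pd1 1 false true false .nn 1 1 3 (qsf 536870912 536870912 1610612736 536870912 1) ndB1q1 ndB1q3 pcB1 Cut.none Ext.none)

def k0_pm_113 : ∃ t, chk3 f_pm_113 t 1 2 1 = true :=
  ⟨(a (b (l 1) (a (l 1) (a (l 1) (b (l 1) (b (l 1) (l 270614461895)))))) (b (a (a (l 1) (a (l 1) (b (l 1) (b (l 1) (l 16069000))))) (b (a (a (l 1) (a (l 1) (l 3))) (l 3)) (b (a (a (c (l 15983936) (l 15984552)) (c (l 15687600) (l 15854872))) (l 3)) (a (a (c (l 15961864) (l 15914008)) (c (l 15727800) (l 15829984))) (a (l 225650903351) (l 3)))))) (a (b (b (a (l 1) (a (l 16114920) (l 15992952))) (a (c (l 16254056) (l 15996424)) (a (l 15824568) (l 15821408)))) (a (c (b (l 16079656) (l 15992560)) (b (l 15885992) (l 15778840))) (c (b (l 15929656) (l 15685784)) (b (l 15747296) (l 15634824))))) (b (a (b (c (a (l 15907344)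 (l 15746008)) (l 15565536)) (c (l 15619632) (l 15690816))) (a (b (a (l 15499024) (l 3)) (c (l 15553080) (l 15612920))) (l 3))) (a (b (c (l 15694360) (l 15618608)) (a (l 15606992) (l 15521960))) (a (b (c (l 15500120) (l 15533400)) (l 15442904)) (b (c (l 15389544) (l 15481752)) (c (l 15338624) (l 15407176))))))))), by decide +kernel⟩

def k1_pm_113 : ∃ t, chk3 f_pm_113 t 1 3 1 = true :=
  ⟨(b (a (a (a (l 1) (a (l 1) (b (l 1) (l 235181151847)))) (b (a (c (l 16128584) (l 15875464)) (c (l 15828128) (l 15765880))) (a (c (l 15927560) (l 15785256)) (c (l 15794264) (l 15625928))))) (a (b (a (c (l 15602240) (l 15586856)) (c (b (l 15708456) (l 15586440)) (b (l 15523800) (l 15421376)))) (a (c (l 15612040) (l 15460592)) (b (l 15198024) (l 15328984)))) (b (a (b (a (l 15500384) (l 15429320)) (a (l 15390304) (l 15333784))) (a (b (l 15364056) (l 15284744)) (b (a (l 15320200) (l 15294376)) (l 15243736)))) (a (b (a (l 15290120) (l 15240848)) (a (l 15214088) (l 15165936))) (b (a (l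 15213104) (l 15192792)) (a (l 15161696) (l 15174480))))))) (a (a (b (c (a (l 16199200) (l 16044200)) (a (l 15955264) (l 15819976))) (a (c (l 16193184) (l 15883872)) (c (l 16026800) (l 15752232)))) (b (a (c (l 15866368) (l 15669776)) (c (l 15674336) (l 15509592))) (a (c (l 15837040) (l 15607264)) (c (l 15636112) (l 15456536))))) (b (a (a (b (l 15439136) (l 15397720)) (b (l 15272232) (l 15242272))) (a (b (a (l 15171176) (l 15129864)) (l 15156648)) (b (a (l 15152008) (l 15225840)) (a (l 15227712) (l 15426736))))) (a (a (b (l 15379656) (l 15389160)) (b (l 15245264) (l 15290480))) (a (b (l 15230240) (l 15403672)) (b (a (l 15463032) (l 15999440)) (a (l 16047312) (b (l 16799328) (l 16798248))))))))), by decide +kernel⟩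

theorem s2_pm_113 : ∃ t, chk3 f_pm_113 t 1 1 1 = true := ex3_b k0_pm_113 k1_pm_113

theorem c_pm_113 : CertB 536870912 536870912 1610612736 536870912 1020054732 13421774 3 eng mog cd1q1 cd1q3 pd1 false true false .nn 1 1 3
    ndB1q1 ndB1q3 pcB1 Cut.none Ext.none :=
  certB1 (fam := false) (s1 := true) (s2 := false) (a := 1) (b := 1) (c := 3) (cn := .nn) (n1 := ndB1q1) (n2 := ndB1q3) (pc := pcB1) (cut := Cut.none) (xt := Ext.none) (P1 := 536870912) (W1 := 536870912) (P2 := 1610612736) (W2 := 536870912) (P3 := 1020054732) (W3 := 13421774) (N0 := 3) (En := eng) (mo := mog) (C1 := cd1q1) (C2 := cd1q3) (C3 := pd1)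
    rfl (fun _ => rfl) s2_pm_113

noncomputable def f_pm_123 : ℕ → ℕ → ℕ → ℕ → Bool := onCell 1073741824 536870912 1610612736 536870912 1020054732 13421774
    (rowB 3 eng mog cd1q1 cd1q3 pd2 2 false true false .npn 1 2 3 (qsf 536870912 536870912 1610612736 536870912 2) ndB1q1 ndB1q3 pcB2 Cut.none Ext.none)

def k0_pm_123 : ∃ t, chk3 f_pm_123 t 1 1 1 = true :=
  ⟨(a (a (b (b (a (b (c (l 15079568) (l 14879344)) (c (l 15141576) (l 14853432))) (b (c (l 14886472) (l 14597024)) (c (l 14864640) (l 14612672)))) (a (b (a (l 14997792) (l 14912840)) (a (l 14954600) (l 14906344))) (b (c (l 14846248) (l 14643464)) (a (l 14825848) (l 14722832))))) (b (a (b (a (l 14953664) (l 14945664)) (a (l 15053824) (l 15080496))) (b (l 14854328) (l 15019720))) (b (a (a (b (l 15274512) (l 15589728)) (l 15318280)) (b (l 15247168) (l 15483920))) (a (b (a (l 16366480) (l 15978952)) (a (l 139149650247) (l 16410888))) (b (l 15824648) (b (l 16175520) (l 16322632))))))) (b (b (a (b (l 1) (c (l 14571184)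 (l 14346712))) (l 1)) (a (b (c (l 14575960) (l 14401616)) (c (l 14599280) (l 14484320))) (b (l 227661231527) (l 14291720)))) (b (a (b (l 14640408) (l 14811160)) (b (l 14365192) (l 14541024))) (b (a (l 15115680) (l 14797888)) (a (b (l 15495984) (b (l 15758424) (l 15857920))) (b (l 15098584) (l 15340128))))))) (b (a (b (l 1) (a (b (l 1) (a (l 14123792) (l 1))) (l 1))) (l 1)) (a (b (a (b (a (l 14196048) (l 14103120)) (l 14266720)) (b (a (l 14121912) (l 1)) (a (l 14112400) (l 14150528)))) (b (a (l 14472176) (a (l 14246648) (l 14151368))) (a (b (l 14703032) (l 14900672)) (b (l 14350096) (l 14511024))))) (b (a (b (l 1) (l 14468632)) (l 1)) (a (b (a (l 14186320) (l 14413192)) (b (l 14012872) (a (l 14260944) (l 14227912)))) (b (l 14828080) (b (l 14667032) (l 14574008)))))))), by decide +kernel⟩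

theorem c_pm_123 : CertB 536870912 536870912 1610612736 536870912 1020054732 13421774 3 eng mog cd1q1 cd1q3 pd2 false true false .npn 1 2 3
    ndB1q1 ndB1q3 pcB2 Cut.none Ext.none :=
  certB2 (fam := false) (s1 := true) (s2 := false) (a := 1) (b := 2) (c := 3) (cn := .npn) (n1 := ndB1q1) (n2 := ndB1q3) (pc := pcB2) (cut := Cut.none) (xt := Ext.none) (P1 := 536870912) (W1 := 536870912) (P2 := 1610612736) (W2 := 536870912) (P3 := 1020054732) (W3 := 13421774) (N0 := 3) (En := eng) (mo := mog) (C1 := cd1q1) (C2 := cd1q3) (C3 := pd2)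
    rfl (fun _ => rfl) k0_pm_123

noncomputable def f_pm_133 : ℕ → ℕ → ℕ → ℕ → Bool := onCell 536870912 536870912 1610612736 536870912 1020054732 13421774
    (rowB 3 eng mog cd1q1 cd1q3 pd3 1 false true false .dn 1 3 3 (qsf 536870912 536870912 1610612736 536870912 3) ndB1q1 ndB1q3 pcB3 Cut.none Ext.none)

def k0_pm_133 : ∃ t, chk3 f_pm_133 t 1 1 1 = true :=
  ⟨(a (b (a (b (a (b (l 16300704) (l 2)) (l 2)) (l 2)) (l 2)) (l 2)) (l 2)), by decide +kernel⟩

theorem c_pm_133 : CertB 536870912 536870912 1610612736 536870912 1020054732 13421774 3 eng mog cd1q1 cd1q3 pd3 false true false .dn 1 3 3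
    ndB1q1 ndB1q3 pcB3 Cut.none Ext.none :=
  certB1 (fam := false) (s1 := true) (s2 := false) (a := 1) (b := 3) (c := 3) (cn := .dn) (n1 := ndB1q1) (n2 := ndB1q3) (pc := pcB3) (cut := Cut.none) (xt := Ext.none) (P1 := 536870912) (W1 := 536870912) (P2 := 1610612736) (W2 := 536870912) (P3 := 1020054732) (W3 := 13421774) (N0 := 3) (En := eng) (mo := mog) (C1 := cd1q1) (C2 := cd1q3) (C3 := pd3)
    rfl (fun _ => rfl) k0_pm_133

noncomputable def cut_pm_202_aa : Cut := Cut.of [[⟨0, 1, 0, 38347922⟩, ⟨1, 0, 0, 38347922⟩, ⟨2, 1, 0, 38347922⟩]]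

noncomputable def f_pm_202_aa : ℕ → ℕ → ℕ → ℕ → Bool := onCell 0 536870912 0 536870912 1020054732 13421774
    (rowB 3 eng mog cd1q2a cd1q2a pd0 0 false true false .pp 2 0 2 (qsf 0 536870912 0 536870912 0) ndB1q2a ndB1q2a pcB0 cut_pm_202_aa Ext.none)

def k0_pm_202_aa : ∃ t, chk3 f_pm_202_aa t 1 1 1 = true :=
  ⟨(a (l 3) (b (l 3) (a (l 3) (b (l 3) (a (l 3) (b (l 3) (b (l 3) (a (l 3) (l 6))))))))), by decide +kernel⟩

theorem c_pm_202_aa : CertB 0 536870912 0 536870912 1020054732 13421774 3 eng mog cd1q2a cd1q2a pd0 false true false .pp 2 0 2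
    ndB1q2a ndB1q2a pcB0 cut_pm_202_aa Ext.none :=
  certB0 (fam := false) (s1 := true) (s2 := false) (a := 2) (b := 0) (c := 2) (cn := .pp) (n1 := ndB1q2a) (n2 := ndB1q2a) (pc := pcB0) (cut := cut_pm_202_aa) (xt := Ext.none) (P1 := 0) (W1 := 536870912) (P2 := 0) (W2 := 536870912) (P3 := 1020054732) (W3 := 13421774) (N0 := 3) (En := eng) (mo := mog) (C1 := cd1q2a) (C2 := cd1q2a) (C3 := pd0)
    rfl k0_pm_202_aa

noncomputable def cut_pm_202_ab : Cut := Cut.of [[⟨0, 1, 0, 38347922⟩, ⟨1, 0, 0, 38347922⟩, ⟨2, 1, 0, 38347922⟩]]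

noncomputable def f_pm_202_ab : ℕ → ℕ → ℕ → ℕ → Bool := onCell 0 536870912 1239849684 370763052 1020054732 13421774
    (rowB 3 eng mog cd1q2a cd1q2b pd0 0 false true false .pp 2 0 2 (qsf 0 536870912 1239849684 370763052 0) ndB1q2a ndB1q2b pcB0 cut_pm_202_ab Ext.none)

def k0_pm_202_ab : ∃ t, chk3 f_pm_202_ab t 1 1 1 = true :=
  ⟨(l 3), by decide +kernel⟩

theorem c_pm_202_ab : CertB 0 536870912 1239849684 370763052 1020054732 13421774 3 eng mog cd1q2a cd1q2b pd0 false true false .pp 2 0 2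
    ndB1q2a ndB1q2b pcB0 cut_pm_202_ab Ext.none :=
  certB0 (fam := false) (s1 := true) (s2 := false) (a := 2) (b := 0) (c := 2) (cn := .pp) (n1 := ndB1q2a) (n2 := ndB1q2b) (pc := pcB0) (cut := cut_pm_202_ab) (xt := Ext.none) (P1 := 0) (W1 := 536870912) (P2 := 1239849684) (W2 := 370763052) (P3 := 1020054732) (W3 := 13421774) (N0 := 3) (En := eng) (mo := mog) (C1 := cd1q2a) (C2 := cd1q2b) (C3 := pd0)
    rfl k0_pm_202_ab

noncomputable def cut_pm_202_ba : Cut := Cut.of [[⟨0, 1, 0, 38347922⟩, ⟨1, 0, 0, 38347922⟩, ⟨2, 1, 0, 38347922⟩]]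

noncomputable def f_pm_202_ba : ℕ → ℕ → ℕ → ℕ → Bool := onCell 1239849684 370763052 0 536870912 1020054732 13421774
    (rowB 3 eng mog cd1q2b cd1q2a pd0 0 false true false .pp 2 0 2 (qsf 1239849684 370763052 0 536870912 0) ndB1q2b ndB1q2a pcB0 cut_pm_202_ba Ext.none)

def k0_pm_202_ba : ∃ t, chk3 f_pm_202_ba t 1 1 1 = true :=
  ⟨(l 3), by decide +kernel⟩

theorem c_pm_202_ba : CertB 1239849684 370763052 0 536870912 1020054732 13421774 3 eng mog cd1q2b cd1q2a pd0 false true false .pp 2 0 2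
    ndB1q2b ndB1q2a pcB0 cut_pm_202_ba Ext.none :=
  certB0 (fam := false) (s1 := true) (s2 := false) (a := 2) (b := 0) (c := 2) (cn := .pp) (n1 := ndB1q2b) (n2 := ndB1q2a) (pc := pcB0) (cut := cut_pm_202_ba) (xt := Ext.none) (P1 := 1239849684) (W1 := 370763052) (P2 := 0) (W2 := 536870912) (P3 := 1020054732) (W3 := 13421774) (N0 := 3) (En := eng) (mo := mog) (C1 := cd1q2b) (C2 := cd1q2a) (C3 := pd0)
    rfl k0_pm_202_ba

noncomputable def cut_pm_202_bb : Cut := Cut.of [[⟨0, 1, 0, 38347922⟩, ⟨1, 0, 0, 38347922⟩, ⟨2, 1, 0, 38347922⟩]]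

noncomputable def f_pm_202_bb : ℕ → ℕ → ℕ → ℕ → Bool := onCell 1239849684 370763052 1239849684 370763052 1020054732 13421774
    (rowB 3 eng mog cd1q2b cd1q2b pd0 0 false true false .pp 2 0 2 (qsf 1239849684 370763052 1239849684 370763052 0) ndB1q2b ndB1q2b pcB0 cut_pm_202_bb Ext.none)

def k0_pm_202_bb : ∃ t, chk3 f_pm_202_bb t 1 1 1 = true :=
  ⟨(l 3), by decide +kernel⟩

theorem c_pm_202_bb : CertB 1239849684 370763052 1239849684 370763052 1020054732 13421774 3 eng mog cd1q2b cd1q2b pd0 false true false .pp 2 0 2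
    ndB1q2b ndB1q2b pcB0 cut_pm_202_bb Ext.none :=
  certB0 (fam := false) (s1 := true) (s2 := false) (a := 2) (b := 0) (c := 2) (cn := .pp) (n1 := ndB1q2b) (n2 := ndB1q2b) (pc := pcB0) (cut := cut_pm_202_bb) (xt := Ext.none) (P1 := 1239849684) (W1 := 370763052) (P2 := 1239849684) (W2 := 370763052) (P3 := 1020054732) (W3 := 13421774) (N0 := 3) (En := eng) (mo := mog) (C1 := cd1q2b) (C2 := cd1q2b) (C3 := pd0)
    rfl k0_pm_202_bb

noncomputable def f_pm_203_a : ℕ → ℕ → ℕ → ℕ → Bool := onCell 0 536870912 0 536870912 1020054732 13421774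
    (rowB 3 eng mog cd1q2a cd1q3 pd0 1 false true false .up 2 0 3 (qsf 0 536870912 1610612736 536870912 0) ndB1q2a ndB1q3 pcB0 Cut.none Ext.none)

def k0_pm_203_a : ∃ t, chk3 f_pm_203_a t 1 1 1 = true :=
  ⟨(l 3), by decide +kernel⟩

theorem c_pm_203_a : CertB 0 536870912 1610612736 536870912 1020054732 13421774 3 eng mog cd1q2a cd1q3 pd0 false true false .up 2 0 3
    ndB1q2a ndB1q3 pcB0 Cut.none Ext.none :=
  certB1 (fam := false) (s1 := true) (s2 := false) (a := 2) (b := 0) (c := 3) (cn := .up) (n1 := ndB1q2a) (n2 := ndB1q3) (pc := pcB0) (cut := Cut.none) (xt := Ext.none) (P1 := 0) (W1 := 536870912) (P2 := 1610612736) (W2 := 536870912) (P3 := 1020054732) (W3 := 13421774) (N0 := 3) (En := eng) (mo := mog) (C1 := cd1q2a) (C2 := cd1q3) (C3 := pd0)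
    rfl (fun _ => rfl) k0_pm_203_a

noncomputable def f_pm_203_b : ℕ → ℕ → ℕ → ℕ → Bool := onCell 1239849684 370763052 1610612736 536870912 1020054732 13421774
    (rowB 3 eng mog cd1q2b cd1q3 pd0 0 false true false .up 2 0 3 (qsf 1239849684 370763052 1610612736 536870912 0) ndB1q2b ndB1q3 pcB0 Cut.none Ext.none)

def k0_pm_203_b : ∃ t, chk3 f_pm_203_b t 1 1 1 = true :=
  ⟨(l 3), by decide +kernel⟩

theorem c_pm_203_b : CertB 1239849684 370763052 1610612736 536870912 1020054732 13421774 3 eng mog cd1q2b cd1q3 pd0 false true false .up 2 0 3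
    ndB1q2b ndB1q3 pcB0 Cut.none Ext.none :=
  certB0 (fam := false) (s1 := true) (s2 := false) (a := 2) (b := 0) (c := 3) (cn := .up) (n1 := ndB1q2b) (n2 := ndB1q3) (pc := pcB0) (cut := Cut.none) (xt := Ext.none) (P1 := 1239849684) (W1 := 370763052) (P2 := 1610612736) (W2 := 536870912) (P3 := 1020054732) (W3 := 13421774) (N0 := 3) (En := eng) (mo := mog) (C1 := cd1q2b) (C2 := cd1q3) (C3 := pd0)
    rfl k0_pm_203_b

noncomputable def cut_pm_213_a : Cut := Cut.of [[⟨0, 1, 0, 26738688⟩, ⟨1, 1, 0, 26738688⟩, ⟨2, 2, 0, 2621440⟩]]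

noncomputable def f_pm_213_a : ℕ → ℕ → ℕ → ℕ → Bool := onCell 0 536870912 1610612736 536870912 1020054732 13421774
    (rowB 3 eng mog cd1q2a cd1q3 pd1 0 false true false .pnn 2 1 3 (qsf 0 536870912 1610612736 536870912 1) ndB1q2a ndB1q3 pcB1 cut_pm_213_a Ext.none)

def k0_pm_213_a : ∃ t, chk3 f_pm_213_a t 1 1 1 = true :=
  ⟨(a (l 3) (b (l 3) (b (l 3) (a (l 3) (b (l 3) (a (l 3) (b (l 3) (a (l 3) (b (l 3) (b (l 3) (b (l 3) (b (l 3) (l 6))))))))))))), by decide +kernel⟩

theorem c_pm_213_a : CertB 0 536870912 1610612736 536870912 1020054732 13421774 3 eng mog cd1q2a cd1q3 pd1 false true false .pnn 2 1 3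
    ndB1q2a ndB1q3 pcB1 cut_pm_213_a Ext.none :=
  certB0 (fam := false) (s1 := true) (s2 := false) (a := 2) (b := 1) (c := 3) (cn := .pnn) (n1 := ndB1q2a) (n2 := ndB1q3) (pc := pcB1) (cut := cut_pm_213_a) (xt := Ext.none) (P1 := 0) (W1 := 536870912) (P2 := 1610612736) (W2 := 536870912) (P3 := 1020054732) (W3 := 13421774) (N0 := 3) (En := eng) (mo := mog) (C1 := cd1q2a) (C2 := cd1q3) (C3 := pd1)
    rfl k0_pm_213_a

noncomputable def cut_pm_213_b : Cut := Cut.of [[⟨0, 1, 0, 26738688⟩, ⟨1, 1, 0, 26738688⟩, ⟨2, 2, 0, 2621440⟩]]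

noncomputable def f_pm_213_b : ℕ → ℕ → ℕ → ℕ → Bool := onCell 1239849684 370763052 1610612736 536870912 1020054732 13421774
    (rowB 3 eng mog cd1q2b cd1q3 pd1 0 false true false .pnn 2 1 3 (qsf 1239849684 370763052 1610612736 536870912 1) ndB1q2b ndB1q3 pcB1 cut_pm_213_b Ext.none)

def k0_pm_213_b : ∃ t, chk3 f_pm_213_b t 1 1 1 = true :=
  ⟨(l 3), by decide +kernel⟩

theorem c_pm_213_b : CertB 1239849684 370763052 1610612736 536870912 1020054732 13421774 3 eng mog cd1q2b cd1q3 pd1 false true false .pnn 2 1 3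
    ndB1q2b ndB1q3 pcB1 cut_pm_213_b Ext.none :=
  certB0 (fam := false) (s1 := true) (s2 := false) (a := 2) (b := 1) (c := 3) (cn := .pnn) (n1 := ndB1q2b) (n2 := ndB1q3) (pc := pcB1) (cut := cut_pm_213_b) (xt := Ext.none) (P1 := 1239849684) (W1 := 370763052) (P2 := 1610612736) (W2 := 536870912) (P3 := 1020054732) (W3 := 13421774) (N0 := 3) (En := eng) (mo := mog) (C1 := cd1q2b) (C2 := cd1q3) (C3 := pd1)
    rfl k0_pm_213_b

noncomputable def f_pm_303 : ℕ → ℕ → ℕ → ℕ → Bool := onCell 1610612736 536870912 1610612736 536870912 1020054732 13421774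
    (rowB 3 eng mog cd1q3 cd1q3 pd0 0 false true false .npn 3 0 3 (qsf 1610612736 536870912 1610612736 536870912 0) ndB1q3 ndB1q3 pcB0 Cut.none Ext.none)

def k0_pm_303 : ∃ t, chk3 f_pm_303 t 1 1 1 = true :=
  ⟨(l 3), by decide +kernel⟩

theorem c_pm_303 : CertB 1610612736 536870912 1610612736 536870912 1020054732 13421774 3 eng mog cd1q3 cd1q3 pd0 false true false .npn 3 0 3
    ndB1q3 ndB1q3 pcB0 Cut.none Ext.none :=
  certB0 (fam := false) (s1 := true) (s2 := false) (a := 3) (b := 0) (c := 3) (cn := .npn) (n1 := ndB1q3) (n2 := ndB1q3) (pc := pcB0) (cut := Cut.none) (xt := Ext.none) (P1 := 1610612736) (W1 := 536870912) (P2 := 1610612736) (W2 := 536870912) (P3 := 1020054732) (W3 := 13421774) (N0 := 3) (En := eng) (mo := mog) (C1 := cd1q3) (C2 := cd1q3) (C3 := pd0)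
    rfl k0_pm_303

noncomputable def f_pm_313 : ℕ → ℕ → ℕ → ℕ → Bool := onCell 1610612736 536870912 1610612736 536870912 1020054732 13421774
    (rowB 3 eng mog cd1q3 cd1q3 pd1 0 false true false .dn 3 1 3 (qsf 1610612736 536870912 1610612736 536870912 1) ndB1q3 ndB1q3 pcB1 Cut.none Ext.none)

def k0_pm_313 : ∃ t, chk3 f_pm_313 t 1 1 1 = true :=
  ⟨(l 3), by decide +kernel⟩

theorem c_pm_313 : CertB 1610612736 536870912 1610612736 536870912 1020054732 13421774 3 eng mog cd1q3 cd1q3 pd1 false true false .dn 3 1 3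
    ndB1q3 ndB1q3 pcB1 Cut.none Ext.none :=
  certB0 (fam := false) (s1 := true) (s2 := false) (a := 3) (b := 1) (c := 3) (cn := .dn) (n1 := ndB1q3) (n2 := ndB1q3) (pc := pcB1) (cut := Cut.none) (xt := Ext.none) (P1 := 1610612736) (W1 := 536870912) (P2 := 1610612736) (W2 := 536870912) (P3 := 1020054732) (W3 := 13421774) (N0 := 3) (En := eng) (mo := mog) (C1 := cd1q3) (C2 := cd1q3) (C3 := pd1)
    rfl k0_pm_313

noncomputable def f_mm_001 : ℕ → ℕ → ℕ → ℕ → Bool := onCell 0 536870912 536870912 536870912 1020054732 13421774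
    (rowB 3 eng mog cd1q0 cd1q1 pd0 0 false false false .up 0 0 1 (qsf 0 536870912 536870912 536870912 0) ndB1q0 ndB1q1 pcB0 Cut.none Ext.none)

def k0_mm_001 : ∃ t, chk3 f_mm_001 t 1 1 1 = true :=
  ⟨(l 3), by decide +kernel⟩

theorem c_mm_001 : CertB 0 536870912 536870912 536870912 1020054732 13421774 3 eng mog cd1q0 cd1q1 pd0 false false false .up 0 0 1
    ndB1q0 ndB1q1 pcB0 Cut.none Ext.none :=
  certB0 (fam := false) (s1 := false) (s2 := false) (a := 0) (b := 0) (c := 1) (cn := .up) (n1 := ndB1q0) (n2 := ndB1q1) (pc := pcB0) (cut := Cut.none) (xt := Ext.none) (P1 := 0) (W1 := 536870912) (P2 := 536870912) (W2 := 536870912) (P3 := 1020054732) (W3 := 13421774) (N0 := 3) (En := eng) (mo := mog) (C1 := cd1q0) (C2 := cd1q1) (C3 := pd0)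
    rfl k0_mm_001

noncomputable def f_mm_011 : ℕ → ℕ → ℕ → ℕ → Bool := onCell 0 536870912 536870912 536870912 1020054732 13421774
    (rowB 3 eng mog cd1q0 cd1q1 pd1 0 false false false .pnn 0 1 1 (qsf 0 536870912 536870912 536870912 1) ndB1q0 ndB1q1 pcB1 Cut.none Ext.none)

def k0_mm_011 : ∃ t, chk3 f_mm_011 t 1 1 1 = true :=
  ⟨(l 3), by decide +kernel⟩

theorem c_mm_011 : CertB 0 536870912 536870912 536870912 1020054732 13421774 3 eng mog cd1q0 cd1q1 pd1 false false false .pnn 0 1 1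
    ndB1q0 ndB1q1 pcB1 Cut.none Ext.none :=
  certB0 (fam := false) (s1 := false) (s2 := false) (a := 0) (b := 1) (c := 1) (cn := .pnn) (n1 := ndB1q0) (n2 := ndB1q1) (pc := pcB1) (cut := Cut.none) (xt := Ext.none) (P1 := 0) (W1 := 536870912) (P2 := 536870912) (W2 := 536870912) (P3 := 1020054732) (W3 := 13421774) (N0 := 3) (En := eng) (mo := mog) (C1 := cd1q0) (C2 := cd1q1) (C3 := pd1)
    rfl k0_mm_011

noncomputable def f_mm_012_a : ℕ → ℕ → ℕ → ℕ → Bool := onCell 0 536870912 0 536870912 1020054732 13421774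
    (rowB 3 eng mog cd1q0 cd1q2a pd1 0 false false false .pnp 0 1 2 (qsf 0 536870912 0 536870912 1) ndB1q0 ndB1q2a pcB1 Cut.none Ext.none)

def k0_mm_012_a : ∃ t, chk3 f_mm_012_a t 1 1 1 = true :=
  ⟨(l 5), by decide +kernel⟩

theorem c_mm_012_a : CertB 0 536870912 0 536870912 1020054732 13421774 3 eng mog cd1q0 cd1q2a pd1 false false false .pnp 0 1 2
    ndB1q0 ndB1q2a pcB1 Cut.none Ext.none :=
  certB0 (fam := false) (s1 := false) (s2 := false) (a := 0) (b := 1) (c := 2) (cn := .pnp) (n1 := ndB1q0) (n2 := ndB1q2a) (pc := pcB1) (cut := Cut.none) (xt := Ext.none) (P1 := 0) (W1 := 536870912) (P2 := 0) (W2 := 536870912) (P3 := 1020054732) (W3 := 13421774) (N0 := 3) (En := eng) (mo := mog) (C1 := cd1q0) (C2 := cd1q2a) (C3 := pd1)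
    rfl k0_mm_012_a

noncomputable def f_mm_012_b : ℕ → ℕ → ℕ → ℕ → Bool := onCell 0 536870912 1239849684 370763052 1020054732 13421774
    (rowB 3 eng mog cd1q0 cd1q2b pd1 0 false false false .pnp 0 1 2 (qsf 0 536870912 1239849684 370763052 1) ndB1q0 ndB1q2b pcB1 Cut.none Ext.none)

def k0_mm_012_b : ∃ t, chk3 f_mm_012_b t 1 1 1 = true :=
  ⟨(l 5), by decide +kernel⟩

theorem c_mm_012_b : CertB 0 536870912 1239849684 370763052 1020054732 13421774 3 eng mog cd1q0 cd1q2b pd1 false false false .pnp 0 1 2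
    ndB1q0 ndB1q2b pcB1 Cut.none Ext.none :=
  certB0 (fam := false) (s1 := false) (s2 := false) (a := 0) (b := 1) (c := 2) (cn := .pnp) (n1 := ndB1q0) (n2 := ndB1q2b) (pc := pcB1) (cut := Cut.none) (xt := Ext.none) (P1 := 0) (W1 := 536870912) (P2 := 1239849684) (W2 := 370763052) (P3 := 1020054732) (W3 := 13421774) (N0 := 3) (En := eng) (mo := mog) (C1 := cd1q0) (C2 := cd1q2b) (C3 := pd1)
    rfl k0_mm_012_b

noncomputable def f_mm_022_a : ℕ → ℕ → ℕ → ℕ → Bool := onCell 0 536870912 0 536870912 1020054732 13421774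
    (rowB 3 eng mog cd1q0 cd1q2a pd2 0 false false false .pp 0 2 2 (qsf 0 536870912 0 536870912 2) ndB1q0 ndB1q2a pcB2 Cut.none Ext.none)

def k0_mm_022_a : ∃ t, chk3 f_mm_022_a t 1 1 1 = true :=
  ⟨(l 5), by decide +kernel⟩

theorem c_mm_022_a : CertB 0 536870912 0 536870912 1020054732 13421774 3 eng mog cd1q0 cd1q2a pd2 false false false .pp 0 2 2
    ndB1q0 ndB1q2a pcB2 Cut.none Ext.none :=
  certB0 (fam := false) (s1 := false) (s2 := false) (a := 0) (b := 2) (c := 2) (cn := .pp) (n1 := ndB1q0) (n2 := ndB1q2a) (pc := pcB2) (cut := Cut.none) (xt := Ext.none) (P1 := 0) (W1 := 536870912) (P2 := 0) (W2 := 536870912) (P3 := 1020054732) (W3 := 13421774) (N0 := 3) (En := eng) (mo := mog) (C1 := cd1q0) (C2 := cd1q2a) (C3 := pd2)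
    rfl k0_mm_022_a

noncomputable def f_mm_022_b : ℕ → ℕ → ℕ → ℕ → Bool := onCell 0 536870912 1239849684 370763052 1020054732 13421774
    (rowB 3 eng mog cd1q0 cd1q2b pd2 0 false false false .pp 0 2 2 (qsf 0 536870912 1239849684 370763052 2) ndB1q0 ndB1q2b pcB2 Cut.none Ext.none)

def k0_mm_022_b : ∃ t, chk3 f_mm_022_b t 1 1 1 = true :=
  ⟨(l 5), by decide +kernel⟩

theorem c_mm_022_b : CertB 0 536870912 1239849684 370763052 1020054732 13421774 3 eng mog cd1q0 cd1q2b pd2 false false false .pp 0 2 2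
    ndB1q0 ndB1q2b pcB2 Cut.none Ext.none :=
  certB0 (fam := false) (s1 := false) (s2 := false) (a := 0) (b := 2) (c := 2) (cn := .pp) (n1 := ndB1q0) (n2 := ndB1q2b) (pc := pcB2) (cut := Cut.none) (xt := Ext.none) (P1 := 0) (W1 := 536870912) (P2 := 1239849684) (W2 := 370763052) (P3 := 1020054732) (W3 := 13421774) (N0 := 3) (En := eng) (mo := mog) (C1 := cd1q0) (C2 := cd1q2b) (C3 := pd2)
    rfl k0_mm_022_b

noncomputable def f_mm_023 : ℕ → ℕ → ℕ → ℕ → Bool := onCell 0 536870912 1610612736 536870912 1020054732 13421774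
    (rowB 3 eng mog cd1q0 cd1q3 pd2 0 false false false .up 0 2 3 (qsf 0 536870912 1610612736 536870912 2) ndB1q0 ndB1q3 pcB2 Cut.none Ext.none)

def k0_mm_023 : ∃ t, chk3 f_mm_023 t 1 1 1 = true :=
  ⟨(l 5), by decide +kernel⟩

theorem c_mm_023 : CertB 0 536870912 1610612736 536870912 1020054732 13421774 3 eng mog cd1q0 cd1q3 pd2 false false false .up 0 2 3
    ndB1q0 ndB1q3 pcB2 Cut.none Ext.none :=
  certB0 (fam := false) (s1 := false) (s2 := false) (a := 0) (b := 2) (c := 3) (cn := .up) (n1 := ndB1q0) (n2 := ndB1q3) (pc := pcB2) (cut := Cut.none) (xt := Ext.none) (P1 := 0) (W1 := 536870912) (P2 := 1610612736) (W2 := 536870912) (P3 := 1020054732) (W3 := 13421774) (N0 := 3) (En := eng) (mo := mog) (C1 := cd1q0) (C2 := cd1q3) (C3 := pd2)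
    rfl k0_mm_023

noncomputable def f_mm_033 : ℕ → ℕ → ℕ → ℕ → Bool := onCell 0 536870912 1610612736 536870912 1020054732 13421774
    (rowB 3 eng mog cd1q0 cd1q3 pd3 0 false false false .pnn 0 3 3 (qsf 0 536870912 1610612736 536870912 3) ndB1q0 ndB1q3 pcB3 Cut.none Ext.none)

def k0_mm_033 : ∃ t, chk3 f_mm_033 t 1 1 1 = true :=
  ⟨(l 5), by decide +kernel⟩

theorem c_mm_033 : CertB 0 536870912 1610612736 536870912 1020054732 13421774 3 eng mog cd1q0 cd1q3 pd3 false false false .pnn 0 3 3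
    ndB1q0 ndB1q3 pcB3 Cut.none Ext.none :=
  certB0 (fam := false) (s1 := false) (s2 := false) (a := 0) (b := 3) (c := 3) (cn := .pnn) (n1 := ndB1q0) (n2 := ndB1q3) (pc := pcB3) (cut := Cut.none) (xt := Ext.none) (P1 := 0) (W1 := 536870912) (P2 := 1610612736) (W2 := 536870912) (P3 := 1020054732) (W3 := 13421774) (N0 := 3) (En := eng) (mo := mog) (C1 := cd1q0) (C2 := cd1q3) (C3 := pd3)
    rfl k0_mm_033

noncomputable def f_mm_101 : ℕ → ℕ → ℕ → ℕ → Bool := onCell 536870912 536870912 536870912 536870912 1020054732 13421774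
    (rowB 3 eng mog cd1q1 cd1q1 pd0 0 false false false .npn 1 0 1 (qsf 536870912 536870912 536870912 536870912 0) ndB1q1 ndB1q1 pcB0 Cut.none Ext.none)

def k0_mm_101 : ∃ t, chk3 f_mm_101 t 1 1 1 = true :=
  ⟨(l 3), by decide +kernel⟩

theorem c_mm_101 : CertB 536870912 536870912 536870912 536870912 1020054732 13421774 3 eng mog cd1q1 cd1q1 pd0 false false false .npn 1 0 1
    ndB1q1 ndB1q1 pcB0 Cut.none Ext.none :=
  certB0 (fam := false) (s1 := false) (s2 := false) (a := 1) (b := 0) (c := 1) (cn := .npn) (n1 := ndB1q1) (n2 := ndB1q1) (pc := pcB0) (cut := Cut.none) (xt := Ext.none) (P1 := 536870912) (W1 := 536870912) (P2 := 536870912) (W2 := 536870912) (P3 := 1020054732) (W3 := 13421774) (N0 := 3) (En := eng) (mo := mog) (C1 := cd1q1) (C2 := cd1q1) (C3 := pd0)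
    rfl k0_mm_101

noncomputable def f_mm_102_a : ℕ → ℕ → ℕ → ℕ → Bool := onCell 536870912 536870912 0 536870912 1020054732 13421774
    (rowB 3 eng mog cd1q1 cd1q2a pd0 0 false false false .npp 1 0 2 (qsf 536870912 536870912 0 536870912 0) ndB1q1 ndB1q2a pcB0 Cut.none Ext.none)

def k0_mm_102_a : ∃ t, chk3 f_mm_102_a t 1 1 1 = true :=
  ⟨(l 5), by decide +kernel⟩

theorem c_mm_102_a : CertB 536870912 536870912 0 536870912 1020054732 13421774 3 eng mog cd1q1 cd1q2a pd0 false false false .npp 1 0 2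
    ndB1q1 ndB1q2a pcB0 Cut.none Ext.none :=
  certB0 (fam := false) (s1 := false) (s2 := false) (a := 1) (b := 0) (c := 2) (cn := .npp) (n1 := ndB1q1) (n2 := ndB1q2a) (pc := pcB0) (cut := Cut.none) (xt := Ext.none) (P1 := 536870912) (W1 := 536870912) (P2 := 0) (W2 := 536870912) (P3 := 1020054732) (W3 := 13421774) (N0 := 3) (En := eng) (mo := mog) (C1 := cd1q1) (C2 := cd1q2a) (C3 := pd0)
    rfl k0_mm_102_a

noncomputable def f_mm_102_b : ℕ → ℕ → ℕ → ℕ → Bool := onCell 536870912 536870912 1239849684 370763052 1020054732 13421774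
    (rowB 3 eng mog cd1q1 cd1q2b pd0 0 false false false .npp 1 0 2 (qsf 536870912 536870912 1239849684 370763052 0) ndB1q1 ndB1q2b pcB0 Cut.none Ext.none)

def k0_mm_102_b : ∃ t, chk3 f_mm_102_b t 1 1 1 = true :=
  ⟨(l 5), by decide +kernel⟩

theorem c_mm_102_b : CertB 536870912 536870912 1239849684 370763052 1020054732 13421774 3 eng mog cd1q1 cd1q2b pd0 false false false .npp 1 0 2
    ndB1q1 ndB1q2b pcB0 Cut.none Ext.none :=
  certB0 (fam := false) (s1 := false) (s2 := false) (a := 1) (b := 0) (c := 2) (cn := .npp) (n1 := ndB1q1) (n2 := ndB1q2b) (pc := pcB0) (cut := Cut.none) (xt := Ext.none) (P1 := 536870912) (W1 := 536870912) (P2 := 1239849684) (W2 := 370763052) (P3 := 1020054732) (W3 := 13421774) (N0 := 3) (En := eng) (mo := mog) (C1 := cd1q1) (C2 := cd1q2b) (C3 := pd0)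
    rfl k0_mm_102_b

noncomputable def f_mm_112_a : ℕ → ℕ → ℕ → ℕ → Bool := onCell 536870912 536870912 0 536870912 1020054732 13421774
    (rowB 3 eng mog cd1q1 cd1q2a pd1 0 false false false .dn 1 1 2 (qsf 536870912 536870912 0 536870912 1) ndB1q1 ndB1q2a pcB1 Cut.none Ext.none)

def k0_mm_112_a : ∃ t, chk3 f_mm_112_a t 1 1 1 = true :=
  ⟨(l 5), by decide +kernel⟩

theorem c_mm_112_a : CertB 536870912 536870912 0 536870912 1020054732 13421774 3 eng mog cd1q1 cd1q2a pd1 false false false .dn 1 1 2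
    ndB1q1 ndB1q2a pcB1 Cut.none Ext.none :=
  certB0 (fam := false) (s1 := false) (s2 := false) (a := 1) (b := 1) (c := 2) (cn := .dn) (n1 := ndB1q1) (n2 := ndB1q2a) (pc := pcB1) (cut := Cut.none) (xt := Ext.none) (P1 := 536870912) (W1 := 536870912) (P2 := 0) (W2 := 536870912) (P3 := 1020054732) (W3 := 13421774) (N0 := 3) (En := eng) (mo := mog) (C1 := cd1q1) (C2 := cd1q2a) (C3 := pd1)
    rfl k0_mm_112_a

noncomputable def f_mm_112_b : ℕ → ℕ → ℕ → ℕ → Bool := onCell 536870912 536870912 1239849684 370763052 1020054732 13421774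
    (rowB 3 eng mog cd1q1 cd1q2b pd1 0 false false false .dn 1 1 2 (qsf 536870912 536870912 1239849684 370763052 1) ndB1q1 ndB1q2b pcB1 Cut.none Ext.none)

def k0_mm_112_b : ∃ t, chk3 f_mm_112_b t 1 1 1 = true :=
  ⟨(l 5), by decide +kernel⟩

theorem c_mm_112_b : CertB 536870912 536870912 1239849684 370763052 1020054732 13421774 3 eng mog cd1q1 cd1q2b pd1 false false false .dn 1 1 2
    ndB1q1 ndB1q2b pcB1 Cut.none Ext.none :=
  certB0 (fam := false) (s1 := false) (s2 := false) (a := 1) (b := 1) (c := 2) (cn := .dn) (n1 := ndB1q1) (n2 := ndB1q2b) (pc := pcB1) (cut := Cut.none) (xt := Ext.none) (P1 := 536870912) (W1 := 536870912) (P2 := 1239849684) (W2 := 370763052) (P3 := 1020054732) (W3 := 13421774) (N0 := 3) (En := eng) (mo := mog) (C1 := cd1q1) (C2 := cd1q2b) (C3 := pd1)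
    rfl k0_mm_112_b

noncomputable def f_mm_113 : ℕ → ℕ → ℕ → ℕ → Bool := onCell 536870912 536870912 1610612736 536870912 1020054732 13421774
    (rowB 3 eng mog cd1q1 cd1q3 pd1 0 false false false .nn 1 1 3 (qsf 536870912 536870912 1610612736 536870912 1) ndB1q1 ndB1q3 pcB1 Cut.none Ext.none)

def k0_mm_113 : ∃ t, chk3 f_mm_113 t 1 1 1 = true :=
  ⟨(l 5), by decide +kernel⟩

theorem c_mm_113 : CertB 536870912 536870912 1610612736 536870912 1020054732 13421774 3 eng mog cd1q1 cd1q3 pd1 false false false .nn 1 1 3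
    ndB1q1 ndB1q3 pcB1 Cut.none Ext.none :=
  certB0 (fam := false) (s1 := false) (s2 := false) (a := 1) (b := 1) (c := 3) (cn := .nn) (n1 := ndB1q1) (n2 := ndB1q3) (pc := pcB1) (cut := Cut.none) (xt := Ext.none) (P1 := 536870912) (W1 := 536870912) (P2 := 1610612736) (W2 := 536870912) (P3 := 1020054732) (W3 := 13421774) (N0 := 3) (En := eng) (mo := mog) (C1 := cd1q1) (C2 := cd1q3) (C3 := pd1)
    rfl k0_mm_113

noncomputable def f_mm_123 : ℕ → ℕ → ℕ → ℕ → Bool := onCell 536870912 536870912 1610612736 536870912 1020054732 13421774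
    (rowB 3 eng mog cd1q1 cd1q3 pd2 0 false false false .npn 1 2 3 (qsf 536870912 536870912 1610612736 536870912 2) ndB1q1 ndB1q3 pcB2 Cut.none Ext.none)

def k0_mm_123 : ∃ t, chk3 f_mm_123 t 1 1 1 = true :=
  ⟨(l 5), by decide +kernel⟩

theorem c_mm_123 : CertB 536870912 536870912 1610612736 536870912 1020054732 13421774 3 eng mog cd1q1 cd1q3 pd2 false false false .npn 1 2 3
    ndB1q1 ndB1q3 pcB2 Cut.none Ext.none :=
  certB0 (fam := false) (s1 := false) (s2 := false) (a := 1) (b := 2) (c := 3) (cn := .npn) (n1 := ndB1q1) (n2 := ndB1q3) (pc := pcB2) (cut := Cut.none) (xt := Ext.none) (P1 := 536870912) (W1 := 536870912) (P2 := 1610612736) (W2 := 536870912) (P3 := 1020054732) (W3 := 13421774) (N0 := 3) (En := eng) (mo := mog) (C1 := cd1q1) (C2 := cd1q3) (C3 := pd2)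
    rfl k0_mm_123

noncomputable def f_mm_133 : ℕ → ℕ → ℕ → ℕ → Bool := onCell 536870912 536870912 1610612736 536870912 1020054732 13421774
    (rowB 3 eng mog cd1q1 cd1q3 pd3 0 false false false .dn 1 3 3 (qsf 536870912 536870912 1610612736 536870912 3) ndB1q1 ndB1q3 pcB3 Cut.none Ext.none)

def k0_mm_133 : ∃ t, chk3 f_mm_133 t 1 1 1 = true :=
  ⟨(l 5), by decide +kernel⟩

theorem c_mm_133 : CertB 536870912 536870912 1610612736 536870912 1020054732 13421774 3 eng mog cd1q1 cd1q3 pd3 false false false .dn 1 3 3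
    ndB1q1 ndB1q3 pcB3 Cut.none Ext.none :=
  certB0 (fam := false) (s1 := false) (s2 := false) (a := 1) (b := 3) (c := 3) (cn := .dn) (n1 := ndB1q1) (n2 := ndB1q3) (pc := pcB3) (cut := Cut.none) (xt := Ext.none) (P1 := 536870912) (W1 := 536870912) (P2 := 1610612736) (W2 := 536870912) (P3 := 1020054732) (W3 := 13421774) (N0 := 3) (En := eng) (mo := mog) (C1 := cd1q1) (C2 := cd1q3) (C3 := pd3)
    rfl k0_mm_133

noncomputable def f_mm_202_aa : ℕ → ℕ → ℕ → ℕ → Bool := onCell 0 536870912 0 536870912 1020054732 13421774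
    (rowB 3 eng mog cd1q2a cd1q2a pd0 0 false false false .pp 2 0 2 (qsf 0 536870912 0 536870912 0) ndB1q2a ndB1q2a pcB0 Cut.none Ext.none)

def k0_mm_202_aa : ∃ t, chk3 f_mm_202_aa t 1 1 1 = true :=
  ⟨(l 3), by decide +kernel⟩

theorem c_mm_202_aa : CertB 0 536870912 0 536870912 1020054732 13421774 3 eng mog cd1q2a cd1q2a pd0 false false false .pp 2 0 2
    ndB1q2a ndB1q2a pcB0 Cut.none Ext.none :=
  certB0 (fam := false) (s1 := false) (s2 := false) (a := 2) (b := 0) (c := 2) (cn := .pp) (n1 := ndB1q2a) (n2 := ndB1q2a) (pc := pcB0) (cut := Cut.none) (xt := Ext.none) (P1 := 0) (W1 := 536870912) (P2 := 0) (W2 := 536870912) (P3 := 1020054732) (W3 := 13421774) (N0 := 3) (En := eng) (mo := mog) (C1 := cd1q2a) (C2 := cd1q2a) (C3 := pd0)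
    rfl k0_mm_202_aa

noncomputable def f_mm_202_ab : ℕ → ℕ → ℕ → ℕ → Bool := onCell 0 536870912 1239849684 370763052 1020054732 13421774
    (rowB 3 eng mog cd1q2a cd1q2b pd0 0 false false false .pp 2 0 2 (qsf 0 536870912 1239849684 370763052 0) ndB1q2a ndB1q2b pcB0 Cut.none Ext.none)

def k0_mm_202_ab : ∃ t, chk3 f_mm_202_ab t 1 1 1 = true :=
  ⟨(l 3), by decide +kernel⟩

theorem c_mm_202_ab : CertB 0 536870912 1239849684 370763052 1020054732 13421774 3 eng mog cd1q2a cd1q2b pd0 false false false .pp 2 0 2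
    ndB1q2a ndB1q2b pcB0 Cut.none Ext.none :=
  certB0 (fam := false) (s1 := false) (s2 := false) (a := 2) (b := 0) (c := 2) (cn := .pp) (n1 := ndB1q2a) (n2 := ndB1q2b) (pc := pcB0) (cut := Cut.none) (xt := Ext.none) (P1 := 0) (W1 := 536870912) (P2 := 1239849684) (W2 := 370763052) (P3 := 1020054732) (W3 := 13421774) (N0 := 3) (En := eng) (mo := mog) (C1 := cd1q2a) (C2 := cd1q2b) (C3 := pd0)
    rfl k0_mm_202_ab

noncomputable def f_mm_202_ba : ℕ → ℕ → ℕ → ℕ → Bool := onCell 1239849684 370763052 0 536870912 1020054732 13421774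
    (rowB 3 eng mog cd1q2b cd1q2a pd0 0 false false false .pp 2 0 2 (qsf 1239849684 370763052 0 536870912 0) ndB1q2b ndB1q2a pcB0 Cut.none Ext.none)

def k0_mm_202_ba : ∃ t, chk3 f_mm_202_ba t 1 1 1 = true :=
  ⟨(l 3), by decide +kernel⟩

theorem c_mm_202_ba : CertB 1239849684 370763052 0 536870912 1020054732 13421774 3 eng mog cd1q2b cd1q2a pd0 false false false .pp 2 0 2
    ndB1q2b ndB1q2a pcB0 Cut.none Ext.none :=
  certB0 (fam := false) (s1 := false) (s2 := false) (a := 2) (b := 0) (c := 2) (cn := .pp) (n1 := ndB1q2b) (n2 := ndB1q2a) (pc := pcB0) (cut := Cut.none) (xt := Ext.none) (P1 := 1239849684) (W1 := 370763052) (P2 := 0) (W2 := 536870912) (P3 := 1020054732) (W3 := 13421774) (N0 := 3) (En := eng) (mo := mog) (C1 := cd1q2b) (C2 := cd1q2a) (C3 := pd0)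
    rfl k0_mm_202_ba

noncomputable def f_mm_202_bb : ℕ → ℕ → ℕ → ℕ → Bool := onCell 1239849684 370763052 1239849684 370763052 1020054732 13421774
    (rowB 3 eng mog cd1q2b cd1q2b pd0 0 false false false .pp 2 0 2 (qsf 1239849684 370763052 1239849684 370763052 0) ndB1q2b ndB1q2b pcB0 Cut.none Ext.none)

def k0_mm_202_bb : ∃ t, chk3 f_mm_202_bb t 1 1 1 = true :=
  ⟨(l 3), by decide +kernel⟩

theorem c_mm_202_bb : CertB 1239849684 370763052 1239849684 370763052 1020054732 13421774 3 eng mog cd1q2b cd1q2b pd0 false false false .pp 2 0 2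
    ndB1q2b ndB1q2b pcB0 Cut.none Ext.none :=
  certB0 (fam := false) (s1 := false) (s2 := false) (a := 2) (b := 0) (c := 2) (cn := .pp) (n1 := ndB1q2b) (n2 := ndB1q2b) (pc := pcB0) (cut := Cut.none) (xt := Ext.none) (P1 := 1239849684) (W1 := 370763052) (P2 := 1239849684) (W2 := 370763052) (P3 := 1020054732) (W3 := 13421774) (N0 := 3) (En := eng) (mo := mog) (C1 := cd1q2b) (C2 := cd1q2b) (C3 := pd0)
    rfl k0_mm_202_bb

noncomputable def f_mm_203_a : ℕ → ℕ → ℕ → ℕ → Bool := onCell 0 536870912 0 536870912 1020054732 13421774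
    (rowB 3 eng mog cd1q2a cd1q3 pd0 1 false false false .up 2 0 3 (qsf 0 536870912 1610612736 536870912 0) ndB1q2a ndB1q3 pcB0 Cut.none Ext.none)

def k0_mm_203_a : ∃ t, chk3 f_mm_203_a t 1 1 1 = true :=
  ⟨(l 3), by decide +kernel⟩

theorem c_mm_203_a : CertB 0 536870912 1610612736 536870912 1020054732 13421774 3 eng mog cd1q2a cd1q3 pd0 false false false .up 2 0 3
    ndB1q2a ndB1q3 pcB0 Cut.none Ext.none :=
  certB1 (fam := false) (s1 := false) (s2 := false) (a := 2) (b := 0) (c := 3) (cn := .up) (n1 := ndB1q2a) (n2 := ndB1q3) (pc := pcB0) (cut := Cut.none) (xt := Ext.none) (P1 := 0) (W1 := 536870912) (P2 := 1610612736) (W2 := 536870912) (P3 := 1020054732) (W3 := 13421774) (N0 := 3) (En := eng) (mo := mog) (C1 := cd1q2a) (C2 := cd1q3) (C3 := pd0)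
    rfl (fun _ => rfl) k0_mm_203_a

noncomputable def f_mm_203_b : ℕ → ℕ → ℕ → ℕ → Bool := onCell 1239849684 370763052 1610612736 536870912 1020054732 13421774
    (rowB 3 eng mog cd1q2b cd1q3 pd0 0 false false false .up 2 0 3 (qsf 1239849684 370763052 1610612736 536870912 0) ndB1q2b ndB1q3 pcB0 Cut.none Ext.none)

def k0_mm_203_b : ∃ t, chk3 f_mm_203_b t 1 1 1 = true :=
  ⟨(l 3), by decide +kernel⟩

theorem c_mm_203_b : CertB 1239849684 370763052 1610612736 536870912 1020054732 13421774 3 eng mog cd1q2b cd1q3 pd0 false false false .up 2 0 3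
    ndB1q2b ndB1q3 pcB0 Cut.none Ext.none :=
  certB0 (fam := false) (s1 := false) (s2 := false) (a := 2) (b := 0) (c := 3) (cn := .up) (n1 := ndB1q2b) (n2 := ndB1q3) (pc := pcB0) (cut := Cut.none) (xt := Ext.none) (P1 := 1239849684) (W1 := 370763052) (P2 := 1610612736) (W2 := 536870912) (P3 := 1020054732) (W3 := 13421774) (N0 := 3) (En := eng) (mo := mog) (C1 := cd1q2b) (C2 := cd1q3) (C3 := pd0)
    rfl k0_mm_203_b

noncomputable def f_mm_213_a : ℕ → ℕ → ℕ → ℕ → Bool := onCell 0 536870912 1610612736 536870912 1020054732 13421774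
    (rowB 3 eng mog cd1q2a cd1q3 pd1 0 false false false .pnn 2 1 3 (qsf 0 536870912 1610612736 536870912 1) ndB1q2a ndB1q3 pcB1 Cut.none Ext.none)

def k0_mm_213_a : ∃ t, chk3 f_mm_213_a t 1 1 1 = true :=
  ⟨(a (l 3) (l 5)), by decide +kernel⟩

theorem c_mm_213_a : CertB 0 536870912 1610612736 536870912 1020054732 13421774 3 eng mog cd1q2a cd1q3 pd1 false false false .pnn 2 1 3
    ndB1q2a ndB1q3 pcB1 Cut.none Ext.none :=
  certB0 (fam := false) (s1 := false) (s2 := false) (a := 2) (b := 1) (c := 3) (cn := .pnn) (n1 := ndB1q2a) (n2 := ndB1q3) (pc := pcB1) (cut := Cut.none) (xt := Ext.none) (P1 := 0) (W1 := 536870912) (P2 := 1610612736) (W2 := 536870912) (P3 := 1020054732) (W3 := 13421774) (N0 := 3) (En := eng) (mo := mog) (C1 := cd1q2a) (C2 := cd1q3) (C3 := pd1)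
    rfl k0_mm_213_a

noncomputable def f_mm_213_b : ℕ → ℕ → ℕ → ℕ → Bool := onCell 1239849684 370763052 1610612736 536870912 1020054732 13421774
    (rowB 3 eng mog cd1q2b cd1q3 pd1 0 false false false .pnn 2 1 3 (qsf 1239849684 370763052 1610612736 536870912 1) ndB1q2b ndB1q3 pcB1 Cut.none Ext.none)

def k0_mm_213_b : ∃ t, chk3 f_mm_213_b t 1 1 1 = true :=
  ⟨(l 3), by decide +kernel⟩

theorem c_mm_213_b : CertB 1239849684 370763052 1610612736 536870912 1020054732 13421774 3 eng mog cd1q2b cd1q3 pd1 false false false .pnn 2 1 3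
    ndB1q2b ndB1q3 pcB1 Cut.none Ext.none :=
  certB0 (fam := false) (s1 := false) (s2 := false) (a := 2) (b := 1) (c := 3) (cn := .pnn) (n1 := ndB1q2b) (n2 := ndB1q3) (pc := pcB1) (cut := Cut.none) (xt := Ext.none) (P1 := 1239849684) (W1 := 370763052) (P2 := 1610612736) (W2 := 536870912) (P3 := 1020054732) (W3 := 13421774) (N0 := 3) (En := eng) (mo := mog) (C1 := cd1q2b) (C2 := cd1q3) (C3 := pd1)
    rfl k0_mm_213_b

noncomputable def f_mm_303 : ℕ → ℕ → ℕ → ℕ → Bool := onCell 1610612736 536870912 1610612736 536870912 1020054732 13421774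
    (rowB 3 eng mog cd1q3 cd1q3 pd0 0 false false false .npn 3 0 3 (qsf 1610612736 536870912 1610612736 536870912 0) ndB1q3 ndB1q3 pcB0 Cut.none Ext.none)

def k0_mm_303 : ∃ t, chk3 f_mm_303 t 1 1 1 = true :=
  ⟨(l 3), by decide +kernel⟩

theorem c_mm_303 : CertB 1610612736 536870912 1610612736 536870912 1020054732 13421774 3 eng mog cd1q3 cd1q3 pd0 false false false .npn 3 0 3
    ndB1q3 ndB1q3 pcB0 Cut.none Ext.none :=
  certB0 (fam := false) (s1 := false) (s2 := false) (a := 3) (b := 0) (c := 3) (cn := .npn) (n1 := ndB1q3) (n2 := ndB1q3) (pc := pcB0) (cut := Cut.none) (xt := Ext.none) (P1 := 1610612736) (W1 := 536870912) (P2 := 1610612736) (W2 := 536870912) (P3 := 1020054732) (W3 := 13421774) (N0 := 3) (En := eng) (mo := mog) (C1 := cd1q3) (C2 := cd1q3) (C3 := pd0)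
    rfl k0_mm_303

noncomputable def f_mm_313 : ℕ → ℕ → ℕ → ℕ → Bool := onCell 1610612736 536870912 1610612736 536870912 1020054732 13421774
    (rowB 3 eng mog cd1q3 cd1q3 pd1 0 false false false .dn 3 1 3 (qsf 1610612736 536870912 1610612736 536870912 1) ndB1q3 ndB1q3 pcB1 Cut.none Ext.none)

def k0_mm_313 : ∃ t, chk3 f_mm_313 t 1 1 1 = true :=
  ⟨(l 3), by decide +kernel⟩

theorem c_mm_313 : CertB 1610612736 536870912 1610612736 536870912 1020054732 13421774 3 eng mog cd1q3 cd1q3 pd1 false false false .dn 3 1 3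
    ndB1q3 ndB1q3 pcB1 Cut.none Ext.none :=
  certB0 (fam := false) (s1 := false) (s2 := false) (a := 3) (b := 1) (c := 3) (cn := .dn) (n1 := ndB1q3) (n2 := ndB1q3) (pc := pcB1) (cut := Cut.none) (xt := Ext.none) (P1 := 1610612736) (W1 := 536870912) (P2 := 1610612736) (W2 := 536870912) (P3 := 1020054732) (W3 := 13421774) (N0 := 3) (En := eng) (mo := mog) (C1 := cd1q3) (C2 := cd1q3) (C3 := pd1)
    rfl k0_mm_313

end Pool.Agent.Strip051.G.I9500_9625.Tab.C.BB11

namespace Pool.Agent.Strip051.G.I9500_9625.Tab.C.BB12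

open Pool.Agent.Strip051.PB Pool.Agent.Strip051.PB.T
open Pool.Agent.Strip051.G.I9500_9625.Tab

noncomputable def f_pp_001 : ℕ → ℕ → ℕ → ℕ → Bool := onCell 0 536870912 536870912 536870912 1020054732 13421774
    (rowB 3 eng mog cd1q0 cd2q1 pd0 0 false true true .up 0 0 1 (qsf 0 536870912 536870912 536870912 0) ndB1q0 ndB2q1 pcB0 Cut.none Ext.none)

def k0_pp_001 : ∃ t, chk3 f_pp_001 t 1 1 1 = true :=
  ⟨(l 3), by decide +kernel⟩

theorem c_pp_001 : CertB 0 536870912 536870912 536870912 1020054732 13421774 3 eng mog cd1q0 cd2q1 pd0 false true true .up 0 0 1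
    ndB1q0 ndB2q1 pcB0 Cut.none Ext.none :=
  certB0 (fam := false) (s1 := true) (s2 := true) (a := 0) (b := 0) (c := 1) (cn := .up) (n1 := ndB1q0) (n2 := ndB2q1) (pc := pcB0) (cut := Cut.none) (xt := Ext.none) (P1 := 0) (W1 := 536870912) (P2 := 536870912) (W2 := 536870912) (P3 := 1020054732) (W3 := 13421774) (N0 := 3) (En := eng) (mo := mog) (C1 := cd1q0) (C2 := cd2q1) (C3 := pd0)
    rfl k0_pp_001

noncomputable def f_pp_011 : ℕ → ℕ → ℕ → ℕ → Bool := onCell 0 536870912 536870912 536870912 1020054732 13421774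
    (rowB 3 eng mog cd1q0 cd2q1 pd1 0 false true true .pnn 0 1 1 (qsf 0 536870912 536870912 536870912 1) ndB1q0 ndB2q1 pcB1 Cut.none Ext.none)

def k0_pp_011 : ∃ t, chk3 f_pp_011 t 1 1 1 = true :=
  ⟨(l 3), by decide +kernel⟩

theorem c_pp_011 : CertB 0 536870912 536870912 536870912 1020054732 13421774 3 eng mog cd1q0 cd2q1 pd1 false true true .pnn 0 1 1
    ndB1q0 ndB2q1 pcB1 Cut.none Ext.none :=
  certB0 (fam := false) (s1 := true) (s2 := true) (a := 0) (b := 1) (c := 1) (cn := .pnn) (n1 := ndB1q0) (n2 := ndB2q1) (pc := pcB1) (cut := Cut.none) (xt := Ext.none) (P1 := 0) (W1 := 536870912) (P2 := 536870912) (W2 := 536870912) (P3 := 1020054732) (W3 := 13421774) (N0 := 3) (En := eng) (mo := mog) (C1 := cd1q0) (C2 := cd2q1) (C3 := pd1)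
    rfl k0_pp_011

noncomputable def cut_pp_012_a : Cut := Cut.of [[⟨0, 0, 0, 38347922⟩, ⟨1, 1, 0, 38347922⟩, ⟨2, 1, 0, 38347922⟩]]

noncomputable def xt_pp_012_a : Ext := extD3 3 ⟨4, 1, 1, 5, 99, 20, 33, 40, 51, 125, 1, 32⟩ eng cd1q0 cd2q2a pd1 false true true .pnp 0 1 2 rfl ndB1q0 ndB2q2a pcB1

noncomputable def f_pp_012_a : ℕ → ℕ → ℕ → ℕ → Bool := onCell 536870912 536870912 0 536870912 1020054732 13421774
    (rowB 3 eng mog cd1q0 cd2q2a pd1 2 false true true .pnp 0 1 2 (qsf 0 536870912 0 536870912 1) ndB1q0 ndB2q2a pcB1 cut_pp_012_a xt_pp_012_a)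

def k0_pp_012_a : ∃ t, chk3 f_pp_012_a t 2 1 1 = true :=
  ⟨(l 3), by decide +kernel⟩

def k1_pp_012_a : ∃ t, chk3 f_pp_012_a t 6 1 1 = true :=
  ⟨(b (a (b (b (a (l 3) (a (a (l 109152003655) (b (l 54391180551) (l 3))) (c (l 69423555271) (a (l 16533400) (l 16524648))))) (l 3)) (l 3)) (b (a (a (a (b (l 16485040) (l 129553058967)) (b (l 16515416) (l 93582679271))) (b (l 16453552) (a (l 103246324567) (l 16499024)))) (a (b (l 16465008) (l 16394448)) (b (l 16430728) (l 16467448)))) (a (b (a (l 3) (l 140827307287)) (l 3)) (b (a (b (l 127405492791) (l 157470319879)) (c (l 16533328) (l 16497328))) (a (l 3) (b (l 170355212167) (l 3))))))) (l 3)), by decide +kernel⟩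

def k2_pp_012_a : ∃ t, chk3 f_pp_012_a t 14 1 1 = true :=
  ⟨(b (b (a (a (b (l 16393480) (l 16431896)) (b (l 16354112) (l 16393576))) (a (b (l 16313552) (l 16353440)) (l 16230784))) (a (a (b (l 16441016) (b (l 16507656) (l 183776981735))) (b (l 16446368) (c (l 16532312) (l 16492592)))) (b (a (l 16407248) (l 16366640)) (a (c (l 16496048) (l 16453984)) (c (l 16456320) (l 16414296)))))) (b (a (b (a (l 3) (b (l 108615060247) (l 207936265319))) (l 3)) (a (b (b (l 16514096) (a (l 16587032) (l 16571128))) (b (a (l 3) (l 16595000)) (l 3))) (c (b (l 16434280) (b (l 16609392) (l 95730378647))) (b (l 16416320) (b (l 16574872) (l 111836434647)))))) (l 3))), by decide +kernel⟩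

def k3_pp_012_a : ∃ t, chk3 f_pp_012_a t 15 2 1 = true :=
  ⟨(a (b (a (l 16211616) (b (l 16196432) (l 16232656))) (b (a (l 16325664) (l 16285192)) (a (c (l 16414320) (l 16374648)) (c (l 16370800) (l 16335696))))) (b (a (b (a (l 16176064) (l 16170520)) (l 16196328)) (b (a (l 16173760) (l 16189256)) (b (l 16099264) (l 16175312)))) (a (b (l 16246416) (b (l 16293656) (l 16246928))) (b (l 16213056) (b (l 16258352) (l 16294336)))))), by decide +kernel⟩

def k4_pp_012_a : ∃ t, chk3 f_pp_012_a t 30 3 1 = true :=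
  ⟨(b (b (b (a (l 16393048) (l 16351448)) (a (c (l 16521328) (l 16483616)) (c (l 16478544) (l 16443048)))) (a (b (c (l 16571240) (l 16535912)) (a (c (l 16634720) (l 16603104)) (c (l 16615312) (l 16583376)))) (b (c (l 16528912) (l 16494896)) (c (l 142304395107352639) (l 142254917019762751))))) (b (a (b (b (c (l 16624136) (l 16595832)) (a (l 3) (l 16631368))) (l 3)) (b (a (b (l 16602592) (l 16592192)) (c (l 16589808) (l 16562488))) (b (a (c (l 16697960) (l 16674680)) (c (l 16678664) (l 16655064))) (a (l 3) (c (l 16689176) (l 16647952)))))) (l 3))), by decide +kernel⟩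

def k5_pp_012_a : ∃ t, chk3 f_pp_012_a t 31 3 1 = true :=
  ⟨(b (a (b (a (b (l 16383304) (l 16429448)) (b (l 16362176) (l 16407712))) (b (a (l 141382042079002879) (l 141125168629268607)) (a (l 141614932499366143) (l 141531850605166719)))) (b (b (l 16313656) (a (l 16388000) (l 16371688))) (a (b (l 16416608) (l 141466498340143231)) (b (l 16420944) (c (l 16486304) (l 16463648)))))) (b (a (b (a (c (b (l 16594032) (l 16624664)) (l 142596590321287423)) (b (l 142318894862893183) (l 142413452927041663))) (a (b (c (l 16635496) (l 16633288)) (c (b (l 16681032) (l 16676800)) (a (l 16674872) (l 16663376)))) (b (l 142691560716337279) (c (a (l 16671264) (l 16659016)) (l 142986917076648063))))) (b (a (b (l 142251343573794943) (l 142344595967311999)) (b (l 16461016) (c (l 16559592) (l 16539448)))) (b (a (l 142605042850513023) (c (l 16570040) (l 16572544))) (a (l 142746673675387007) (a (l 142811682358411391) (c (l 16619520) (l 16603840))))))) (a (b (a (b (b (a (l 16690216) (l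 16679192)) (a (l 3) (l 16675952))) (l 3)) (b (c (a (l 16663392) (l 16651056)) (a (l 16667360) (l 16655280))) (b (c (l 1124899335699552505957543551) (l 597046309036364727217791)) (a (l 3) (l 600041599216384030682751))))) (l 3)) (b (a (a (b (l 143118446170210431) (b (l 143338004997308543) (b (l 598687204844254928268927) (l 599543825542931116928639)))) (b (l 143154867472351359) (b (l 143373532946088063) (l 143408304996630655)))) (b (a (l 143028904653258879) (a (l 143090889652011135) (b (l 16636008) (l 16653880)))) (a (b (l 143246608054190207) (l 6)) (l 6)))) (b (l 6) (l 6)))))), by decide +kernel⟩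

theorem s6_pp_012_a : ∃ t, chk3 f_pp_012_a t 15 3 1 = true := ex3_a k4_pp_012_a k5_pp_012_a

theorem s7_pp_012_a : ∃ t, chk3 f_pp_012_a t 15 1 1 = true := ex3_b k3_pp_012_a s6_pp_012_a

theorem s8_pp_012_a : ∃ t, chk3 f_pp_012_a t 7 1 1 = true := ex3_a k2_pp_012_a s7_pp_012_a

theorem s9_pp_012_a : ∃ t, chk3 f_pp_012_a t 3 1 1 = true := ex3_a k1_pp_012_a s8_pp_012_a

theorem s10_pp_012_a : ∃ t, chk3 f_pp_012_a t 1 1 1 = true := ex3_a k0_pp_012_a s9_pp_012_a

theorem c_pp_012_a : CertB 0 536870912 0 536870912 1020054732 13421774 3 eng mog cd1q0 cd2q2a pd1 false true true .pnp 0 1 2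
    ndB1q0 ndB2q2a pcB1 cut_pp_012_a xt_pp_012_a :=
  certB2 (fam := false) (s1 := true) (s2 := true) (a := 0) (b := 1) (c := 2) (cn := .pnp) (n1 := ndB1q0) (n2 := ndB2q2a) (pc := pcB1) (cut := cut_pp_012_a) (xt := xt_pp_012_a) (P1 := 0) (W1 := 536870912) (P2 := 0) (W2 := 536870912) (P3 := 1020054732) (W3 := 13421774) (N0 := 3) (En := eng) (mo := mog) (C1 := cd1q0) (C2 := cd2q2a) (C3 := pd1)
    rfl (fun _ => rfl) s10_pp_012_a

noncomputable def cut_pp_012_b : Cut := Cut.of [[⟨0, 0, 0, 38347922⟩, ⟨1, 1, 0, 38347922⟩, ⟨2, 1, 0, 38347922⟩]]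

noncomputable def f_pp_012_b : ℕ → ℕ → ℕ → ℕ → Bool := onCell 536870912 536870912 1239849684 370763052 1020054732 13421774
    (rowB 3 eng mog cd1q0 cd2q2b pd1 2 false true true .pnp 0 1 2 (qsf 0 536870912 1239849684 370763052 1) ndB1q0 ndB2q2b pcB1 cut_pp_012_b Ext.none)

def k0_pp_012_b : ∃ t, chk3 f_pp_012_b t 1 1 1 = true :=
  ⟨(b (a (l 3) (a (a (a (l 3) (b (b (b (a (a (l 117741882007) (c (l 16532888) (l 16514656))) (c (l 16522680) (l 16495536))) (a (a (l 16487808) (l 16480400)) (l 16400384))) (a (c (l 16434056) (l 16352512)) (c (l 16415696) (l 16385648)))) (b (a (l 134384435495) (l 16267168)) (a (l 3) (l 16273760))))) (b (a (b (a (b (l 16443024) (l 16435928)) (b (l 16455856) (l 16403856))) (a (l 16306296) (l 16332896))) (b (c (l 16318696) (l 16244256)) (a (l 16292472) (l 16248616)))) (a (b (a (l 16293128) (l 16251336)) (a (l 16232216) (l 16185112))) (b (l 16034088) (l 16106360))))) (a (b (a (b (a (l 16315968) (l 16273424)) (a (l 16202088) (l 16153760))) (b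 (a (l 16230016) (l 16186816)) (l 15996192))) (a (b (l 16076496) (l 15990392)) (b (l 15966808) (l 15868856)))) (a (b (b (a (l 16145016) (a (l 16115360) (l 16102736))) (a (l 16008424) (l 15847824))) (a (b (l 15886520) (l 15779736)) (b (l 15852248) (l 15745560)))) (b (b (a (c (l 16117592) (l 16109272)) (b (l 16178288) (l 16109680))) (a (l 15983432) (l 16011144))) (b (a (l 15864232) (l 15889256)) (l 15766768))))))) (a (l 2) (a (a (l 2) (b (a (b (l 16035192) (l 2)) (b (l 16047416) (l 16004088))) (l 2))) (a (b (a (b (l 15919952) (l 15865256)) (b (l 15786496) (l 15719880))) (a (l 2) (l 15650416))) (a (b (a (l 15649128) (l 15611440)) (a (l 15529544) (l 15479032))) (b (b (l 15669656) (l 15584976)) (l 15481400))))))), by decide +kernel⟩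

theorem c_pp_012_b : CertB 0 536870912 1239849684 370763052 1020054732 13421774 3 eng mog cd1q0 cd2q2b pd1 false true true .pnp 0 1 2
    ndB1q0 ndB2q2b pcB1 cut_pp_012_b Ext.none :=
  certB2 (fam := false) (s1 := true) (s2 := true) (a := 0) (b := 1) (c := 2) (cn := .pnp) (n1 := ndB1q0) (n2 := ndB2q2b) (pc := pcB1) (cut := cut_pp_012_b) (xt := Ext.none) (P1 := 0) (W1 := 536870912) (P2 := 1239849684) (W2 := 370763052) (P3 := 1020054732) (W3 := 13421774) (N0 := 3) (En := eng) (mo := mog) (C1 := cd1q0) (C2 := cd2q2b) (C3 := pd1)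
    rfl (fun _ => rfl) k0_pp_012_b

noncomputable def cut_pp_022_a : Cut := Cut.of [[⟨0, 0, 0, 38347922⟩, ⟨1, 1, 0, 38347922⟩, ⟨2, 1, 0, 38347922⟩]]

noncomputable def f_pp_022_a : ℕ → ℕ → ℕ → ℕ → Bool := onCell 1073741824 536870912 0 536870912 1020054732 13421774
    (rowB 3 eng mog cd1q0 cd2q2a pd2 2 false true true .pp 0 2 2 (qsf 0 536870912 0 536870912 2) ndB1q0 ndB2q2a pcB2 cut_pp_022_a Ext.none)

def k0_pp_022_a : ∃ t, chk3 f_pp_022_a t 2 2 1 = true :=
  ⟨(a (a (b (a (b (l 16327400) (l 16323744)) (b (l 16345400) (l 16370336))) (a (a (b (l 16369288) (l 16332888)) (b (l 16386776) (l 16417400))) (b (l 16348704) (a (l 16438136) (l 16437056))))) (a (b (b (l 16361344) (l 16393424)) (b (l 16421128) (l 16381496))) (b (b (l 16375480) (l 16414200)) (b (l 16469816) (l 16375240))))) (a (b (a (b (l 16388200) (l 16433024)) (l 16321760)) (a (b (l 16428416) (a (l 16441992) (l 1))) (l 1))) (l 1))), by decide +kernel⟩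

def k1_pp_022_a : ∃ t, chk3 f_pp_022_a t 8 3 1 = true :=
  ⟨(a (b (b (a (b (l 16462328) (l 16477632)) (b (l 16487048) (l 16504440))) (b (c (l 16512152) (l 16469496)) (a (l 16479744) (l 16531728)))) (b (b (a (b (l 16558544) (a (l 16596736) (l 16592712))) (b (l 16591104) (a (l 16609488) (l 16625968)))) (a (b (a (l 16599592) (l 16616856)) (a (b (l 16636096) (l 16646944)) (c (l 16695568) (l 16647264)))) (b (a (l 16634240) (l 16616704)) (a (c (l 16650208) (l 16667248)) (c (l 16615776) (l 16639928)))))) (b (b (b (a (a (l 16658080) (l 16658176)) (a (l 16635608) (a (l 16629048) (l 16610584)))) (l 6)) (l 6)) (l 6)))) (b (b (b (l 16438528) (l 16458992)) (b (a (l 16575152) (l 16581088)) (a (l 16561696) (b (l 16573448) (l 16539056))))) (b (b (a (a (b (l 16647576) (l 16591784)) (b (l 16594696) (a (l 16590136) (l 16594576)))) (b (a (l 16562192) (b (l 16574792) (l 16567296))) (a (b (l 16572808) (l 16566072)) (c (l 16549752) (l 16563104))))) (a (a (b (b (l 16606672) (l 16601024))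 (c (l 16580848) (l 16603536))) (b (c (l 16580416) (l 16600560)) (c (b (l 16591016) (l 16583808)) (b (l 16612008) (l 16605320))))) (b (a (c (l 16546560) (l 16564544)) (c (l 16533152) (l 16549056))) (a (b (l 16523400) (l 1)) (l 1))))) (b (b (a (a (b (a (l 16592040) (l 16573416)) (a (l 6) (l 1))) (l 1)) (l 1)) (l 1)) (l 1))))), by decide +kernel⟩

def k2_pp_022_a : ∃ t, chk3 f_pp_022_a t 9 3 1 = true :=
  ⟨(b (b (a (c (l 16445872) (l 16454160)) (b (l 16398504) (a (l 16460568) (l 1)))) (a (b (a (l 16510896) (l 16449032)) (a (b (l 16510520) (l 16473936)) (b (l 16487336) (l 1)))) (b (a (l 16426968) (l 1)) (l 1)))) (b (a (b (a (b (a (b (l 16541400) (l 16533584)) (l 16461584)) (a (l 16458888) (l 1))) (l 1)) (l 1)) (l 1)) (l 1))), by decide +kernel⟩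

def k3_pp_022_a : ∃ t, chk3 f_pp_022_a t 5 3 1 = true :=
  ⟨(b (l 1) (l 1)), by decide +kernel⟩

def k4_pp_022_a : ∃ t, chk3 f_pp_022_a t 3 1 1 = true :=
  ⟨(l 1), by decide +kernel⟩

theorem s5_pp_022_a : ∃ t, chk3 f_pp_022_a t 4 3 1 = true := ex3_a k1_pp_022_a k2_pp_022_a

theorem s6_pp_022_a : ∃ t, chk3 f_pp_022_a t 2 3 1 = true := ex3_a s5_pp_022_a k3_pp_022_a

theorem s7_pp_022_a : ∃ t, chk3 f_pp_022_a t 2 1 1 = true := ex3_b k0_pp_022_a s6_pp_022_a

theorem s8_pp_022_a : ∃ t, chk3 f_pp_022_a t 1 1 1 = true := ex3_a s7_pp_022_a k4_pp_022_a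

theorem c_pp_022_a : CertB 0 536870912 0 536870912 1020054732 13421774 3 eng mog cd1q0 cd2q2a pd2 false true true .pp 0 2 2
    ndB1q0 ndB2q2a pcB2 cut_pp_022_a Ext.none :=
  certB2 (fam := false) (s1 := true) (s2 := true) (a := 0) (b := 2) (c := 2) (cn := .pp) (n1 := ndB1q0) (n2 := ndB2q2a) (pc := pcB2) (cut := cut_pp_022_a) (xt := Ext.none) (P1 := 0) (W1 := 536870912) (P2 := 0) (W2 := 536870912) (P3 := 1020054732) (W3 := 13421774) (N0 := 3) (En := eng) (mo := mog) (C1 := cd1q0) (C2 := cd2q2a) (C3 := pd2)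
    rfl (fun _ => rfl) s8_pp_022_a

noncomputable def cut_pp_022_b : Cut := Cut.of [[⟨0, 0, 0, 38347922⟩, ⟨1, 1, 0, 38347922⟩, ⟨2, 1, 0, 38347922⟩]]

noncomputable def f_pp_022_b : ℕ → ℕ → ℕ → ℕ → Bool := onCell 1073741824 536870912 1239849684 370763052 1020054732 13421774
    (rowB 3 eng mog cd1q0 cd2q2b pd2 2 false true true .pp 0 2 2 (qsf 0 536870912 1239849684 370763052 2) ndB1q0 ndB2q2b pcB2 cut_pp_022_b Ext.none)

def k0_pp_022_b : ∃ t, chk3 f_pp_022_b t 1 1 1 = true :=
  ⟨(a (b (a (b (a (b (a (b (l 16283464) (l 16204792)) (b (l 16297184) (l 16217280))) (a (l 16092624) (l 16103144))) (b (a (b (l 16309000) (l 16227672)) (b (l 16319176) (l 16236216))) (a (l 16111296) (l 16117296)))) (a (b (a (l 15954248) (l 15961800)) (l 15832304)) (b (a (l 15966616) (l 15968936)) (l 15834936)))) (b (a (b (a (b (l 16328096) (l 16243248)) (b (l 16336304) (l 16249248))) (a (l 16121488) (l 16124280))) (b (a (l 61772624103) (l 1)) (a (l 16084288) (l 16044256)))) (a (b (l 15822288)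 (l 15826888)) (b (a (l 15964264) (l 15960416)) (l 15811120))))) (a (b (a (b (l 15719832) (l 15621696)) (b (l 15714776) (l 15608552))) (a (l 15460808) (l 15477048))) (b (a (b (l 15697792) (l 15582288)) (b (l 15671800) (l 15545912))) (a (l 15436496) (l 15384432))))) (b (a (b (l 1) (a (b (a (l 15956592) (l 15891080)) (a (l 15795464) (l 15785712))) (b (l 1) (a (l 15777256) (l 1))))) (l 1)) (a (b (a (b (l 15640808) (l 15503352)) (b (a (l 15615872) (l 15601704)) (l 15375784))) (a (b (l 15379736) (l 15270112)) (b (l 15323440) (l 15201576)))) (b (a (b (l 1) (a (l 15428104) (l 15411872))) (l 1)) (a (b (l 216925950247) (l 15135904)) (b (a (l 15236760) (l 1)) (l 267391413783))))))), by decide +kernel⟩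

theorem c_pp_022_b : CertB 0 536870912 1239849684 370763052 1020054732 13421774 3 eng mog cd1q0 cd2q2b pd2 false true true .pp 0 2 2
    ndB1q0 ndB2q2b pcB2 cut_pp_022_b Ext.none :=
  certB2 (fam := false) (s1 := true) (s2 := true) (a := 0) (b := 2) (c := 2) (cn := .pp) (n1 := ndB1q0) (n2 := ndB2q2b) (pc := pcB2) (cut := cut_pp_022_b) (xt := Ext.none) (P1 := 0) (W1 := 536870912) (P2 := 1239849684) (W2 := 370763052) (P3 := 1020054732) (W3 := 13421774) (N0 := 3) (En := eng) (mo := mog) (C1 := cd1q0) (C2 := cd2q2b) (C3 := pd2)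
    rfl (fun _ => rfl) k0_pp_022_b

noncomputable def f_pp_023 : ℕ → ℕ → ℕ → ℕ → Bool := onCell 1073741824 536870912 1610612736 536870912 1020054732 13421774
    (rowB 3 eng mog cd1q0 cd2q3 pd2 2 false true true .up 0 2 3 (qsf 0 536870912 1610612736 536870912 2) ndB1q0 ndB2q3 pcB2 Cut.none Ext.none)

def k0_pp_023 : ∃ t, chk3 f_pp_023 t 1 1 1 = true :=
  ⟨(a (b (b (a (b (a (c (l 14937552) (l 15184344)) (c (l 14876880) (l 15144952))) (a (l 14999640) (l 14976552))) (b (a (l 14778568) (l 14808960)) (a (l 14897128) (l 14805520)))) (a (b (a (l 2) (l 14994560)) (l 2)) (b (a (l 14898720) (l 14789800)) (a (l 14944704) (l 14818448))))) (b (a (l 2) (b (l 254573316375) (l 2))) (l 2))) (b (a (b (b (a (l 14580016) (c (l 14568216) (l 14843192))) (a (l 14705680) (l 14602624))) (b (a (l 14672176) (l 14551288)) (a (l 14683024) (l 14544432)))) (b (b (a (b (l 14658840) (l 14585368)) (b (a (l 14604432) (l 14573280)) (l 14465008))) (a (l 14250480) (b (l 14438208) (l 14382896)))) (b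 (a (l 14433304) (l 14325016)) (a (l 14409352) (l 14285000))))) (a (b (b (a (l 14729680) (l 14573560)) (l 246519788615)) (b (l 14787160) (l 2))) (b (a (b (l 14421776) (l 14458960)) (b (l 14282096) (l 14323824))) (a (b (l 14504536) (l 14554640)) (b (a (l 14396600) (l 14454016)) (a (l 14563016) (l 14814008)))))))), by decide +kernel⟩

theorem c_pp_023 : CertB 0 536870912 1610612736 536870912 1020054732 13421774 3 eng mog cd1q0 cd2q3 pd2 false true true .up 0 2 3
    ndB1q0 ndB2q3 pcB2 Cut.none Ext.none :=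
  certB2 (fam := false) (s1 := true) (s2 := true) (a := 0) (b := 2) (c := 3) (cn := .up) (n1 := ndB1q0) (n2 := ndB2q3) (pc := pcB2) (cut := Cut.none) (xt := Ext.none) (P1 := 0) (W1 := 536870912) (P2 := 1610612736) (W2 := 536870912) (P3 := 1020054732) (W3 := 13421774) (N0 := 3) (En := eng) (mo := mog) (C1 := cd1q0) (C2 := cd2q3) (C3 := pd2)
    rfl (fun _ => rfl) k0_pp_023

noncomputable def f_pp_033 : ℕ → ℕ → ℕ → ℕ → Bool := onCell 0 536870912 1610612736 536870912 1020054732 13421774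
    (rowB 3 eng mog cd1q0 cd2q3 pd3 1 false true true .pnn 0 3 3 (qsf 0 536870912 1610612736 536870912 3) ndB1q0 ndB2q3 pcB3 Cut.none Ext.none)

def k0_pp_033 : ∃ t, chk3 f_pp_033 t 1 1 1 = true :=
  ⟨(a (b (b (a (b (a (c (a (l 15533056) (l 15651848)) (a (l 15244928) (l 15394232))) (c (l 15809432) (l 15600224))) (a (a (c (l 15430040) (l 15163664)) (b (l 15468664) (l 15423888))) (b (l 15643664) (l 15596112)))) (b (a (l 15746208) (l 16060624)) (a (b (l 15842856) (l 15794488)) (l 15976304)))) (a (b (a (b (a (l 15166928) (l 15379032)) (a (l 15207912) (l 15333016))) (b (l 15550904) (l 15503680))) (a (b (l 15224632) (l 15174920)) (b (l 15457696) (l 15416160)))) (b (a (l 15722752) (l 15890712)) (b (l 15769240) (l 4))))) (a (b (b (a (l 4) (l 4)) (l 4)) (l 4)) (b (l 4) (a (b (l 4) (l 2)) (l 2))))) (b (a (b (b (a (l 16157816) (l 16266872)) (a (l 16090544) (b (l 16215824) (l 16187960)))) (b (a (b (l 16046144) (l 16047840)) (b (l 16214088) (l 4))) (l 4))) (b (b (a (l 16104088)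 (l 16453824)) (a (b (l 16330464) (l 16356968)) (l 16573312))) (a (b (l 16514032) (l 2)) (l 2)))) (a (b (a (b (l 4) (l 2)) (l 2)) (l 2)) (l 2)))), by decide +kernel⟩

theorem c_pp_033 : CertB 0 536870912 1610612736 536870912 1020054732 13421774 3 eng mog cd1q0 cd2q3 pd3 false true true .pnn 0 3 3
    ndB1q0 ndB2q3 pcB3 Cut.none Ext.none :=
  certB1 (fam := false) (s1 := true) (s2 := true) (a := 0) (b := 3) (c := 3) (cn := .pnn) (n1 := ndB1q0) (n2 := ndB2q3) (pc := pcB3) (cut := Cut.none) (xt := Ext.none) (P1 := 0) (W1 := 536870912) (P2 := 1610612736) (W2 := 536870912) (P3 := 1020054732) (W3 := 13421774) (N0 := 3) (En := eng) (mo := mog) (C1 := cd1q0) (C2 := cd2q3) (C3 := pd3)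
    rfl (fun _ => rfl) k0_pp_033

noncomputable def f_pp_101 : ℕ → ℕ → ℕ → ℕ → Bool := onCell 536870912 536870912 536870912 536870912 1020054732 13421774
    (rowB 3 eng mog cd1q1 cd2q1 pd0 0 false true true .npn 1 0 1 (qsf 536870912 536870912 536870912 536870912 0) ndB1q1 ndB2q1 pcB0 Cut.none Ext.none)

def k0_pp_101 : ∃ t, chk3 f_pp_101 t 1 1 1 = true :=
  ⟨(l 3), by decide +kernel⟩

theorem c_pp_101 : CertB 536870912 536870912 536870912 536870912 1020054732 13421774 3 eng mog cd1q1 cd2q1 pd0 false true true .npn 1 0 1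
    ndB1q1 ndB2q1 pcB0 Cut.none Ext.none :=
  certB0 (fam := false) (s1 := true) (s2 := true) (a := 1) (b := 0) (c := 1) (cn := .npn) (n1 := ndB1q1) (n2 := ndB2q1) (pc := pcB0) (cut := Cut.none) (xt := Ext.none) (P1 := 536870912) (W1 := 536870912) (P2 := 536870912) (W2 := 536870912) (P3 := 1020054732) (W3 := 13421774) (N0 := 3) (En := eng) (mo := mog) (C1 := cd1q1) (C2 := cd2q1) (C3 := pd0)
    rfl k0_pp_101

noncomputable def f_pp_102_a : ℕ → ℕ → ℕ → ℕ → Bool := onCell 536870912 536870912 0 536870912 1020054732 13421774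
    (rowB 3 eng mog cd1q1 cd2q2a pd0 0 false true true .npp 1 0 2 (qsf 536870912 536870912 0 536870912 0) ndB1q1 ndB2q2a pcB0 Cut.none Ext.none)

def k0_pp_102_a : ∃ t, chk3 f_pp_102_a t 1 1 1 = true :=
  ⟨(a (l 3) (l 3)), by decide +kernel⟩

theorem c_pp_102_a : CertB 536870912 536870912 0 536870912 1020054732 13421774 3 eng mog cd1q1 cd2q2a pd0 false true true .npp 1 0 2
    ndB1q1 ndB2q2a pcB0 Cut.none Ext.none :=
  certB0 (fam := false) (s1 := true) (s2 := true) (a := 1) (b := 0) (c := 2) (cn := .npp) (n1 := ndB1q1) (n2 := ndB2q2a) (pc := pcB0) (cut := Cut.none) (xt := Ext.none) (P1 := 536870912) (W1 := 536870912) (P2 := 0) (W2 := 536870912) (P3 := 1020054732) (W3 := 13421774) (N0 := 3) (En := eng) (mo := mog) (C1 := cd1q1) (C2 := cd2q2a) (C3 := pd0)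
    rfl k0_pp_102_a

noncomputable def f_pp_102_b : ℕ → ℕ → ℕ → ℕ → Bool := onCell 536870912 536870912 0 536870912 1020054732 13421774
    (rowB 3 eng mog cd1q1 cd2q2b pd0 1 false true true .npp 1 0 2 (qsf 536870912 536870912 1239849684 370763052 0) ndB1q1 ndB2q2b pcB0 Cut.none Ext.none)

def k0_pp_102_b : ∃ t, chk3 f_pp_102_b t 1 1 1 = true :=
  ⟨(l 3), by decide +kernel⟩

theorem c_pp_102_b : CertB 536870912 536870912 1239849684 370763052 1020054732 13421774 3 eng mog cd1q1 cd2q2b pd0 false true true .npp 1 0 2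
    ndB1q1 ndB2q2b pcB0 Cut.none Ext.none :=
  certB1 (fam := false) (s1 := true) (s2 := true) (a := 1) (b := 0) (c := 2) (cn := .npp) (n1 := ndB1q1) (n2 := ndB2q2b) (pc := pcB0) (cut := Cut.none) (xt := Ext.none) (P1 := 536870912) (W1 := 536870912) (P2 := 1239849684) (W2 := 370763052) (P3 := 1020054732) (W3 := 13421774) (N0 := 3) (En := eng) (mo := mog) (C1 := cd1q1) (C2 := cd2q2b) (C3 := pd0)
    rfl (fun _ => rfl) k0_pp_102_b

noncomputable def f_pp_112_a : ℕ → ℕ → ℕ → ℕ → Bool := onCell 536870912 536870912 0 536870912 1020054732 13421774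
    (rowB 3 eng mog cd1q1 cd2q2a pd1 0 false true true .dn 1 1 2 (qsf 536870912 536870912 0 536870912 1) ndB1q1 ndB2q2a pcB1 Cut.none Ext.none)

def k0_pp_112_a : ∃ t, chk3 f_pp_112_a t 1 1 1 = true :=
  ⟨(a (l 3) (l 1)), by decide +kernel⟩

theorem c_pp_112_a : CertB 536870912 536870912 0 536870912 1020054732 13421774 3 eng mog cd1q1 cd2q2a pd1 false true true .dn 1 1 2
    ndB1q1 ndB2q2a pcB1 Cut.none Ext.none :=
  certB0 (fam := false) (s1 := true) (s2 := true) (a := 1) (b := 1) (c := 2) (cn := .dn) (n1 := ndB1q1) (n2 := ndB2q2a) (pc := pcB1) (cut := Cut.none) (xt := Ext.none) (P1 := 536870912) (W1 := 536870912) (P2 := 0) (W2 := 536870912) (P3 := 1020054732) (W3 := 13421774) (N0 := 3) (En := eng) (mo := mog) (C1 := cd1q1) (C2 := cd2q2a) (C3 := pd1)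
    rfl k0_pp_112_a

noncomputable def f_pp_112_b : ℕ → ℕ → ℕ → ℕ → Bool := onCell 536870912 536870912 536870912 536870912 1020054732 13421774
    (rowB 3 eng mog cd1q1 cd2q2b pd1 1 false true true .dn 1 1 2 (qsf 536870912 536870912 1239849684 370763052 1) ndB1q1 ndB2q2b pcB1 Cut.none Ext.none)

def k0_pp_112_b : ∃ t, chk3 f_pp_112_b t 1 1 1 = true :=
  ⟨(a (b (l 3) (b (b (b (l 3) (a (b (a (l 3) (l 3)) (a (c (l 16401360) (l 251422111335)) (c (l 16403648) (l 16133784)))) (l 3))) (b (a (a (c (c (l 16496272) (l 16539160)) (b (l 16213256) (l 16202384))) (c (c (l 16540152) (l 16421504)) (b (l 16157848) (l 16169112)))) (a (c (c (l 16386992) (l 16208496)) (b (l 16074904) (l 16050184))) (c (l 246589750039) (l 253031708551)))) (a (c (a (l 16385544) (l 16325304)) (a (l 15997960) (l 15986440))) (a (c (l 16151240) (l 15932744)) (l 2))))) (b (b (a (c (a (l 16299008) (l 16175320)) (a (l 15970584) (l 15875464))) (a (c (l 16023936) (l 15761064)) (l 2))) (a (c (a (l 16107312) (l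 15982224)) (a (l 15786840) (l 15691296))) (l 2))) (a (a (b (c (l 15918984) (l 15618280)) (c (l 15841576) (l 15561560))) (b (c (l 15788824) (l 15519048)) (l 2))) (l 2))))) (b (l 3) (b (b (l 3) (l 2)) (l 2)))), by decide +kernel⟩

theorem c_pp_112_b : CertB 536870912 536870912 1239849684 370763052 1020054732 13421774 3 eng mog cd1q1 cd2q2b pd1 false true true .dn 1 1 2
    ndB1q1 ndB2q2b pcB1 Cut.none Ext.none :=
  certB1 (fam := false) (s1 := true) (s2 := true) (a := 1) (b := 1) (c := 2) (cn := .dn) (n1 := ndB1q1) (n2 := ndB2q2b) (pc := pcB1) (cut := Cut.none) (xt := Ext.none) (P1 := 536870912) (W1 := 536870912) (P2 := 1239849684) (W2 := 370763052) (P3 := 1020054732) (W3 := 13421774) (N0 := 3) (En := eng) (mo := mog) (C1 := cd1q1) (C2 := cd2q2b) (C3 := pd1)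
    rfl (fun _ => rfl) k0_pp_112_b

end Pool.Agent.Strip051.G.I9500_9625.Tab.C.BB12

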