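import Pool.Agent.Strip051.G.I9500_9625.Tab
import Pool.Agent.Strip051.PB.ExtD3

/-! # Certificates B30 (generated) -/

set_option linter.all false
set_option maxRecDepth 100000

namespace Pool.Agent.Strip051.G.I9500_9625.Tab.C.BB12

open Pool.Agent.Strip051.PB Pool.Agent.Strip051.PB.T
open Pool.Agent.Strip051.G.I9500_9625.Tab

noncomputable def f_pp_113 : ℕ → ℕ → ℕ → ℕ → Bool := onCell 536870912 536870912 536870912 536870912 1020054732 13421774
    (rowB 3 eng mog cd1q1 cd2q3 pd1 1 false true true .nn 1 1 3 (qsf 536870912 536870912 1610612736 536870912 1) ndB1q1 ndB2q3 pcB1 Cut.none Ext.none)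

def k0_pp_113 : ∃ t, chk3 f_pp_113 t 1 2 1 = true :=
  ⟨(a (l 3) (l 3)), by decide +kernel⟩

def k1_pp_113 : ∃ t, chk3 f_pp_113 t 1 6 1 = true :=
  ⟨(b (a (a (l 1) (a (l 3) (l 3))) (l 3)) (a (a (a (l 1) (b (l 1) (c (l 369935771495) (l 378525428071)))) (a (b (c (a (l 16080136) (l 207935321783)) (a (l 15925912) (l 15777488))) (c (a (l 16019272) (l 15957472)) (a (l 15883120) (l 15824400)))) (b (c (a (l 196124119527) (l 244441912695)) (a (l 255716109175) (l 250347262375))) (c (a (l 15893912) (l 15828920)) (a (l 15765144) (l 15705968)))))) (a (a (a (b (c (l 239609918599) (l 244978412695)) (c (l 15762888) (l 15647504))) (b (l 3) (b (l 15616216) (l 15608136)))) (b (l 3) (c (b (l 263768572951) (l 15399512)) (b (l 269673981447) (l 15475944))))) (a (b (l 3) (b (l 3) (a (l 15607696) (l 15576848)))) (l 3))))), by decide +kernel⟩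

def k2_pp_113 : ∃ t, chk3 f_pp_113 t 1 7 1 = true :=
  ⟨(b (a (a (a (b (l 1) (c (l 15712328) (l 15670312))) (b (c (l 15729848) (l 15775136)) (c (l 15661600) (l 15568880)))) (a (b (c (l 15727560) (l 15665760)) (c (l 15565200) (l 15464576))) (b (c (l 15617200) (l 15556792)) (c (l 15470512) (l 15364504))))) (a (a (b (c (a (l 15597640) (l 15544672)) (l 15455256)) (c (l 15386416) (l 15279128))) (b (c (a (l 15494320) (l 15447864)) (a (l 15388952) (l 15352648))) (a (l 15286688) (l 15269872)))) (a (b (a (b (l 15392464) (l 15341552)) (b (l 15357384) (l 15325328))) (a (l 15269584) (l 15292800))) (b (a (b (l 15329280) (l 15323608)) (b (l 3) (l 15339504))) (a (l 15350120) (l 15479136)))))) (a (a (b (a (c (l 163239152567) (l 15327648)) (c (b (l 15475224) (l 15367488)) (l 15373056))) (a (c (l 15381032) (l 15389160)) (c (l 15295192) (l 15286304)))) (b (a (c (b (l 15386192) (l 15275704)) (l 15269752)) (c (l 15248992) (l 15174592))) (a (c (l 15203584) (l 15178264)) (c (l 15118192)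 (l 15076672))))) (a (b (a (c (l 15186232) (l 15103608)) (c (l 15176664) (l 15084224))) (a (c (b (l 15061216) (l 15049352)) (l 15001288)) (b (a (l 15023128) (l 15062368)) (l 15043944)))) (b (a (a (l 15192872) (l 15303696)) (a (l 15522832) (l 15967552))) (a (b (l 15253608) (l 15324680)) (a (l 16039992) (b (l 16717640) (l 16788000)))))))), by decide +kernel⟩

theorem s3_pp_113 : ∃ t, chk3 f_pp_113 t 1 3 1 = true := ex3_b k1_pp_113 k2_pp_113

theorem s4_pp_113 : ∃ t, chk3 f_pp_113 t 1 1 1 = true := ex3_b k0_pp_113 s3_pp_113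

theorem c_pp_113 : CertB 536870912 536870912 1610612736 536870912 1020054732 13421774 3 eng mog cd1q1 cd2q3 pd1 false true true .nn 1 1 3
    ndB1q1 ndB2q3 pcB1 Cut.none Ext.none :=
  certB1 (fam := false) (s1 := true) (s2 := true) (a := 1) (b := 1) (c := 3) (cn := .nn) (n1 := ndB1q1) (n2 := ndB2q3) (pc := pcB1) (cut := Cut.none) (xt := Ext.none) (P1 := 536870912) (W1 := 536870912) (P2 := 1610612736) (W2 := 536870912) (P3 := 1020054732) (W3 := 13421774) (N0 := 3) (En := eng) (mo := mog) (C1 := cd1q1) (C2 := cd2q3) (C3 := pd1)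
    rfl (fun _ => rfl) s4_pp_113

noncomputable def f_pp_123 : ℕ → ℕ → ℕ → ℕ → Bool := onCell 1073741824 536870912 1610612736 536870912 1020054732 13421774
    (rowB 3 eng mog cd1q1 cd2q3 pd2 2 false true true .npn 1 2 3 (qsf 536870912 536870912 1610612736 536870912 2) ndB1q1 ndB2q3 pcB2 Cut.none Ext.none)

def k0_pp_123 : ∃ t, chk3 f_pp_123 t 1 1 1 = true :=
  ⟨(a (b (a (b (a (b (c (l 15122920) (l 15331208)) (c (l 15260504) (l 15259496))) (b (c (l 15145576) (l 15236408)) (c (l 15123496) (l 15191248)))) (a (b (c (l 15213464) (l 15192656)) (a (l 15149696) (l 15164584))) (b (c (l 15108992) (l 15154744)) (c (l 15112224) (l 15139072))))) (b (b (l 1) (a (c (l 14949280) (l 15073616)) (l 1))) (b (a (c (l 14946176) (l 15046568)) (l 206187598983)) (a (c (l 14958440) (l 15038792)) (l 14685160))))) (b (a (a (b (a (l 15132904) (l 15175144)) (a (l 15039936) (l 15268744))) (b (c (l 15151560) (l 15164432)) (a (l 15277816) (l 15241296)))) (a (b (c (l 15000040) (l 15066800))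 (l 15128640)) (b (l 14768504) (l 14916080)))) (a (b (a (a (b (l 15398368) (l 15683928)) (b (l 15449632) (l 15671632))) (a (l 15542840) (l 15486560))) (a (b (a (l 16418968) (l 16033656)) (a (l 16728368) (l 16410272))) (b (l 15910168) (a (l 16421656) (l 16207128))))) (b (a (l 15291128) (l 15056240)) (a (b (l 15618344) (l 15648336)) (b (l 15247592) (l 15396936))))))) (b (a (b (l 1) (b (l 1) (a (l 14661144) (l 1)))) (l 1)) (a (b (b (a (l 14637448) (l 14483256)) (a (l 14684344) (l 14470392))) (b (a (l 14759776) (l 14485816)) (a (b (l 14869896) (l 14962232)) (b (l 14527384) (l 14575656))))) (b (b (l 1) (a (l 14299992) (l 1))) (a (b (l 14262184) (b (l 14246616) (l 14278976))) (b (a (l 14159496) (l 1)) (b (l 14165464) (l 14443888)))))))), by decide +kernel⟩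

theorem c_pp_123 : CertB 536870912 536870912 1610612736 536870912 1020054732 13421774 3 eng mog cd1q1 cd2q3 pd2 false true true .npn 1 2 3
    ndB1q1 ndB2q3 pcB2 Cut.none Ext.none :=
  certB2 (fam := false) (s1 := true) (s2 := true) (a := 1) (b := 2) (c := 3) (cn := .npn) (n1 := ndB1q1) (n2 := ndB2q3) (pc := pcB2) (cut := Cut.none) (xt := Ext.none) (P1 := 536870912) (W1 := 536870912) (P2 := 1610612736) (W2 := 536870912) (P3 := 1020054732) (W3 := 13421774) (N0 := 3) (En := eng) (mo := mog) (C1 := cd1q1) (C2 := cd2q3) (C3 := pd2)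
    rfl (fun _ => rfl) k0_pp_123

noncomputable def f_pp_133 : ℕ → ℕ → ℕ → ℕ → Bool := onCell 1610612736 536870912 1610612736 536870912 1020054732 13421774
    (rowB 3 eng mog cd1q1 cd2q3 pd3 2 false true true .dn 1 3 3 (qsf 536870912 536870912 1610612736 536870912 3) ndB1q1 ndB2q3 pcB3 Cut.none Ext.none)

def k0_pp_133 : ∃ t, chk3 f_pp_133 t 1 1 1 = true :=
  ⟨(a (b (l 1) (a (b (l 1) (a (b (l 1) (l 565894038759)) (l 1))) (l 1))) (l 1)), by decide +kernel⟩

theorem c_pp_133 : CertB 536870912 536870912 1610612736 536870912 1020054732 13421774 3 eng mog cd1q1 cd2q3 pd3 false true true .dn 1 3 3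
    ndB1q1 ndB2q3 pcB3 Cut.none Ext.none :=
  certB2 (fam := false) (s1 := true) (s2 := true) (a := 1) (b := 3) (c := 3) (cn := .dn) (n1 := ndB1q1) (n2 := ndB2q3) (pc := pcB3) (cut := Cut.none) (xt := Ext.none) (P1 := 536870912) (W1 := 536870912) (P2 := 1610612736) (W2 := 536870912) (P3 := 1020054732) (W3 := 13421774) (N0 := 3) (En := eng) (mo := mog) (C1 := cd1q1) (C2 := cd2q3) (C3 := pd3)
    rfl (fun _ => rfl) k0_pp_133

noncomputable def f_pp_202_aa : ℕ → ℕ → ℕ → ℕ → Bool := onCell 0 536870912 0 536870912 1020054732 13421774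
    (rowB 3 eng mog cd1q2a cd2q2a pd0 0 false true true .pp 2 0 2 (qsf 0 536870912 0 536870912 0) ndB1q2a ndB2q2a pcB0 Cut.none Ext.none)

def k0_pp_202_aa : ∃ t, chk3 f_pp_202_aa t 1 1 1 = true :=
  ⟨(l 3), by decide +kernel⟩

theorem c_pp_202_aa : CertB 0 536870912 0 536870912 1020054732 13421774 3 eng mog cd1q2a cd2q2a pd0 false true true .pp 2 0 2
    ndB1q2a ndB2q2a pcB0 Cut.none Ext.none :=
  certB0 (fam := false) (s1 := true) (s2 := true) (a := 2) (b := 0) (c := 2) (cn := .pp) (n1 := ndB1q2a) (n2 := ndB2q2a) (pc := pcB0) (cut := Cut.none) (xt := Ext.none) (P1 := 0) (W1 := 536870912) (P2 := 0) (W2 := 536870912) (P3 := 1020054732) (W3 := 13421774) (N0 := 3) (En := eng) (mo := mog) (C1 := cd1q2a) (C2 := cd2q2a) (C3 := pd0)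
    rfl k0_pp_202_aa

noncomputable def f_pp_202_ab : ℕ → ℕ → ℕ → ℕ → Bool := onCell 0 536870912 1239849684 370763052 1020054732 13421774
    (rowB 3 eng mog cd1q2a cd2q2b pd0 0 false true true .pp 2 0 2 (qsf 0 536870912 1239849684 370763052 0) ndB1q2a ndB2q2b pcB0 Cut.none Ext.none)

def k0_pp_202_ab : ∃ t, chk3 f_pp_202_ab t 1 1 1 = true :=
  ⟨(l 3), by decide +kernel⟩

theorem c_pp_202_ab : CertB 0 536870912 1239849684 370763052 1020054732 13421774 3 eng mog cd1q2a cd2q2b pd0 false true true .pp 2 0 2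
    ndB1q2a ndB2q2b pcB0 Cut.none Ext.none :=
  certB0 (fam := false) (s1 := true) (s2 := true) (a := 2) (b := 0) (c := 2) (cn := .pp) (n1 := ndB1q2a) (n2 := ndB2q2b) (pc := pcB0) (cut := Cut.none) (xt := Ext.none) (P1 := 0) (W1 := 536870912) (P2 := 1239849684) (W2 := 370763052) (P3 := 1020054732) (W3 := 13421774) (N0 := 3) (En := eng) (mo := mog) (C1 := cd1q2a) (C2 := cd2q2b) (C3 := pd0)
    rfl k0_pp_202_ab

noncomputable def f_pp_202_ba : ℕ → ℕ → ℕ → ℕ → Bool := onCell 1239849684 370763052 0 536870912 1020054732 13421774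
    (rowB 3 eng mog cd1q2b cd2q2a pd0 0 false true true .pp 2 0 2 (qsf 1239849684 370763052 0 536870912 0) ndB1q2b ndB2q2a pcB0 Cut.none Ext.none)

def k0_pp_202_ba : ∃ t, chk3 f_pp_202_ba t 1 1 1 = true :=
  ⟨(l 3), by decide +kernel⟩

theorem c_pp_202_ba : CertB 1239849684 370763052 0 536870912 1020054732 13421774 3 eng mog cd1q2b cd2q2a pd0 false true true .pp 2 0 2
    ndB1q2b ndB2q2a pcB0 Cut.none Ext.none :=
  certB0 (fam := false) (s1 := true) (s2 := true) (a := 2) (b := 0) (c := 2) (cn := .pp) (n1 := ndB1q2b) (n2 := ndB2q2a) (pc := pcB0) (cut := Cut.none) (xt := Ext.none) (P1 := 1239849684) (W1 := 370763052) (P2 := 0) (W2 := 536870912) (P3 := 1020054732) (W3 := 13421774) (N0 := 3) (En := eng) (mo := mog) (C1 := cd1q2b) (C2 := cd2q2a) (C3 := pd0)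
    rfl k0_pp_202_ba

noncomputable def f_pp_202_bb : ℕ → ℕ → ℕ → ℕ → Bool := onCell 1239849684 370763052 1239849684 370763052 1020054732 13421774
    (rowB 3 eng mog cd1q2b cd2q2b pd0 0 false true true .pp 2 0 2 (qsf 1239849684 370763052 1239849684 370763052 0) ndB1q2b ndB2q2b pcB0 Cut.none Ext.none)

def k0_pp_202_bb : ∃ t, chk3 f_pp_202_bb t 1 1 1 = true :=
  ⟨(l 3), by decide +kernel⟩

theorem c_pp_202_bb : CertB 1239849684 370763052 1239849684 370763052 1020054732 13421774 3 eng mog cd1q2b cd2q2b pd0 false true true .pp 2 0 2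
    ndB1q2b ndB2q2b pcB0 Cut.none Ext.none :=
  certB0 (fam := false) (s1 := true) (s2 := true) (a := 2) (b := 0) (c := 2) (cn := .pp) (n1 := ndB1q2b) (n2 := ndB2q2b) (pc := pcB0) (cut := Cut.none) (xt := Ext.none) (P1 := 1239849684) (W1 := 370763052) (P2 := 1239849684) (W2 := 370763052) (P3 := 1020054732) (W3 := 13421774) (N0 := 3) (En := eng) (mo := mog) (C1 := cd1q2b) (C2 := cd2q2b) (C3 := pd0)
    rfl k0_pp_202_bb

noncomputable def f_pp_203_a : ℕ → ℕ → ℕ → ℕ → Bool := onCell 0 536870912 0 536870912 1020054732 13421774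
    (rowB 3 eng mog cd1q2a cd2q3 pd0 1 false true true .up 2 0 3 (qsf 0 536870912 1610612736 536870912 0) ndB1q2a ndB2q3 pcB0 Cut.none Ext.none)

def k0_pp_203_a : ∃ t, chk3 f_pp_203_a t 1 1 1 = true :=
  ⟨(l 3), by decide +kernel⟩

theorem c_pp_203_a : CertB 0 536870912 1610612736 536870912 1020054732 13421774 3 eng mog cd1q2a cd2q3 pd0 false true true .up 2 0 3
    ndB1q2a ndB2q3 pcB0 Cut.none Ext.none :=
  certB1 (fam := false) (s1 := true) (s2 := true) (a := 2) (b := 0) (c := 3) (cn := .up) (n1 := ndB1q2a) (n2 := ndB2q3) (pc := pcB0) (cut := Cut.none) (xt := Ext.none) (P1 := 0) (W1 := 536870912) (P2 := 1610612736) (W2 := 536870912) (P3 := 1020054732) (W3 := 13421774) (N0 := 3) (En := eng) (mo := mog) (C1 := cd1q2a) (C2 := cd2q3) (C3 := pd0)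
    rfl (fun _ => rfl) k0_pp_203_a

noncomputable def f_pp_203_b : ℕ → ℕ → ℕ → ℕ → Bool := onCell 1239849684 370763052 1610612736 536870912 1020054732 13421774
    (rowB 3 eng mog cd1q2b cd2q3 pd0 0 false true true .up 2 0 3 (qsf 1239849684 370763052 1610612736 536870912 0) ndB1q2b ndB2q3 pcB0 Cut.none Ext.none)

def k0_pp_203_b : ∃ t, chk3 f_pp_203_b t 1 1 1 = true :=
  ⟨(l 3), by decide +kernel⟩

theorem c_pp_203_b : CertB 1239849684 370763052 1610612736 536870912 1020054732 13421774 3 eng mog cd1q2b cd2q3 pd0 false true true .up 2 0 3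
    ndB1q2b ndB2q3 pcB0 Cut.none Ext.none :=
  certB0 (fam := false) (s1 := true) (s2 := true) (a := 2) (b := 0) (c := 3) (cn := .up) (n1 := ndB1q2b) (n2 := ndB2q3) (pc := pcB0) (cut := Cut.none) (xt := Ext.none) (P1 := 1239849684) (W1 := 370763052) (P2 := 1610612736) (W2 := 536870912) (P3 := 1020054732) (W3 := 13421774) (N0 := 3) (En := eng) (mo := mog) (C1 := cd1q2b) (C2 := cd2q3) (C3 := pd0)
    rfl k0_pp_203_b

noncomputable def cut_pp_213_a : Cut := Cut.of [[⟨0, 1, 0, 26738688⟩, ⟨1, 1, 0, 26738688⟩, ⟨2, 2, 0, 2621440⟩]]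

noncomputable def f_pp_213_a : ℕ → ℕ → ℕ → ℕ → Bool := onCell 0 536870912 1610612736 536870912 1020054732 13421774
    (rowB 3 eng mog cd1q2a cd2q3 pd1 0 false true true .pnn 2 1 3 (qsf 0 536870912 1610612736 536870912 1) ndB1q2a ndB2q3 pcB1 cut_pp_213_a Ext.none)

def k0_pp_213_a : ∃ t, chk3 f_pp_213_a t 1 1 1 = true :=
  ⟨(a (l 3) (b (l 3) (b (l 3) (a (l 3) (b (l 3) (a (l 3) (b (l 3) (a (l 3) (b (l 3) (b (l 3) (b (l 3) (b (l 3) (l 6))))))))))))), by decide +kernel⟩

theorem c_pp_213_a : CertB 0 536870912 1610612736 536870912 1020054732 13421774 3 eng mog cd1q2a cd2q3 pd1 false true true .pnn 2 1 3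
    ndB1q2a ndB2q3 pcB1 cut_pp_213_a Ext.none :=
  certB0 (fam := false) (s1 := true) (s2 := true) (a := 2) (b := 1) (c := 3) (cn := .pnn) (n1 := ndB1q2a) (n2 := ndB2q3) (pc := pcB1) (cut := cut_pp_213_a) (xt := Ext.none) (P1 := 0) (W1 := 536870912) (P2 := 1610612736) (W2 := 536870912) (P3 := 1020054732) (W3 := 13421774) (N0 := 3) (En := eng) (mo := mog) (C1 := cd1q2a) (C2 := cd2q3) (C3 := pd1)
    rfl k0_pp_213_a

noncomputable def cut_pp_213_b : Cut := Cut.of [[⟨0, 1, 0, 26738688⟩, ⟨1, 1, 0, 26738688⟩, ⟨2, 2, 0, 2621440⟩]]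

noncomputable def f_pp_213_b : ℕ → ℕ → ℕ → ℕ → Bool := onCell 1239849684 370763052 1610612736 536870912 1020054732 13421774
    (rowB 3 eng mog cd1q2b cd2q3 pd1 0 false true true .pnn 2 1 3 (qsf 1239849684 370763052 1610612736 536870912 1) ndB1q2b ndB2q3 pcB1 cut_pp_213_b Ext.none)

def k0_pp_213_b : ∃ t, chk3 f_pp_213_b t 1 1 1 = true :=
  ⟨(l 3), by decide +kernel⟩

theorem c_pp_213_b : CertB 1239849684 370763052 1610612736 536870912 1020054732 13421774 3 eng mog cd1q2b cd2q3 pd1 false true true .pnn 2 1 3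
    ndB1q2b ndB2q3 pcB1 cut_pp_213_b Ext.none :=
  certB0 (fam := false) (s1 := true) (s2 := true) (a := 2) (b := 1) (c := 3) (cn := .pnn) (n1 := ndB1q2b) (n2 := ndB2q3) (pc := pcB1) (cut := cut_pp_213_b) (xt := Ext.none) (P1 := 1239849684) (W1 := 370763052) (P2 := 1610612736) (W2 := 536870912) (P3 := 1020054732) (W3 := 13421774) (N0 := 3) (En := eng) (mo := mog) (C1 := cd1q2b) (C2 := cd2q3) (C3 := pd1)
    rfl k0_pp_213_b

noncomputable def f_pp_303 : ℕ → ℕ → ℕ → ℕ → Bool := onCell 1610612736 536870912 1610612736 536870912 1020054732 13421774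
    (rowB 3 eng mog cd1q3 cd2q3 pd0 0 false true true .npn 3 0 3 (qsf 1610612736 536870912 1610612736 536870912 0) ndB1q3 ndB2q3 pcB0 Cut.none Ext.none)

def k0_pp_303 : ∃ t, chk3 f_pp_303 t 1 1 1 = true :=
  ⟨(l 3), by decide +kernel⟩

theorem c_pp_303 : CertB 1610612736 536870912 1610612736 536870912 1020054732 13421774 3 eng mog cd1q3 cd2q3 pd0 false true true .npn 3 0 3
    ndB1q3 ndB2q3 pcB0 Cut.none Ext.none :=
  certB0 (fam := false) (s1 := true) (s2 := true) (a := 3) (b := 0) (c := 3) (cn := .npn) (n1 := ndB1q3) (n2 := ndB2q3) (pc := pcB0) (cut := Cut.none) (xt := Ext.none) (P1 := 1610612736) (W1 := 536870912) (P2 := 1610612736) (W2 := 536870912) (P3 := 1020054732) (W3 := 13421774) (N0 := 3) (En := eng) (mo := mog) (C1 := cd1q3) (C2 := cd2q3) (C3 := pd0)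
    rfl k0_pp_303

noncomputable def f_pp_313 : ℕ → ℕ → ℕ → ℕ → Bool := onCell 1610612736 536870912 1610612736 536870912 1020054732 13421774
    (rowB 3 eng mog cd1q3 cd2q3 pd1 0 false true true .dn 3 1 3 (qsf 1610612736 536870912 1610612736 536870912 1) ndB1q3 ndB2q3 pcB1 Cut.none Ext.none)

def k0_pp_313 : ∃ t, chk3 f_pp_313 t 1 1 1 = true :=
  ⟨(l 3), by decide +kernel⟩

theorem c_pp_313 : CertB 1610612736 536870912 1610612736 536870912 1020054732 13421774 3 eng mog cd1q3 cd2q3 pd1 false true true .dn 3 1 3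
    ndB1q3 ndB2q3 pcB1 Cut.none Ext.none :=
  certB0 (fam := false) (s1 := true) (s2 := true) (a := 3) (b := 1) (c := 3) (cn := .dn) (n1 := ndB1q3) (n2 := ndB2q3) (pc := pcB1) (cut := Cut.none) (xt := Ext.none) (P1 := 1610612736) (W1 := 536870912) (P2 := 1610612736) (W2 := 536870912) (P3 := 1020054732) (W3 := 13421774) (N0 := 3) (En := eng) (mo := mog) (C1 := cd1q3) (C2 := cd2q3) (C3 := pd1)
    rfl k0_pp_313

noncomputable def f_pm_001 : ℕ → ℕ → ℕ → ℕ → Bool := onCell 0 536870912 536870912 536870912 1020054732 13421774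
    (rowB 3 eng mog cd1q0 cd2q1 pd0 0 false true false .up 0 0 1 (qsf 0 536870912 536870912 536870912 0) ndB1q0 ndB2q1 pcB0 Cut.none Ext.none)

def k0_pm_001 : ∃ t, chk3 f_pm_001 t 1 1 1 = true :=
  ⟨(l 4), by decide +kernel⟩

theorem c_pm_001 : CertB 0 536870912 536870912 536870912 1020054732 13421774 3 eng mog cd1q0 cd2q1 pd0 false true false .up 0 0 1
    ndB1q0 ndB2q1 pcB0 Cut.none Ext.none :=
  certB0 (fam := false) (s1 := true) (s2 := false) (a := 0) (b := 0) (c := 1) (cn := .up) (n1 := ndB1q0) (n2 := ndB2q1) (pc := pcB0) (cut := Cut.none) (xt := Ext.none) (P1 := 0) (W1 := 536870912) (P2 := 536870912) (W2 := 536870912) (P3 := 1020054732) (W3 := 13421774) (N0 := 3) (En := eng) (mo := mog) (C1 := cd1q0) (C2 := cd2q1) (C3 := pd0)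
    rfl k0_pm_001

noncomputable def f_pm_011 : ℕ → ℕ → ℕ → ℕ → Bool := onCell 0 536870912 536870912 536870912 1020054732 13421774
    (rowB 3 eng mog cd1q0 cd2q1 pd1 0 false true false .pnn 0 1 1 (qsf 0 536870912 536870912 536870912 1) ndB1q0 ndB2q1 pcB1 Cut.none Ext.none)

def k0_pm_011 : ∃ t, chk3 f_pm_011 t 1 1 1 = true :=
  ⟨(l 4), by decide +kernel⟩

theorem c_pm_011 : CertB 0 536870912 536870912 536870912 1020054732 13421774 3 eng mog cd1q0 cd2q1 pd1 false true false .pnn 0 1 1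
    ndB1q0 ndB2q1 pcB1 Cut.none Ext.none :=
  certB0 (fam := false) (s1 := true) (s2 := false) (a := 0) (b := 1) (c := 1) (cn := .pnn) (n1 := ndB1q0) (n2 := ndB2q1) (pc := pcB1) (cut := Cut.none) (xt := Ext.none) (P1 := 0) (W1 := 536870912) (P2 := 536870912) (W2 := 536870912) (P3 := 1020054732) (W3 := 13421774) (N0 := 3) (En := eng) (mo := mog) (C1 := cd1q0) (C2 := cd2q1) (C3 := pd1)
    rfl k0_pm_011

noncomputable def cut_pm_012_a : Cut := Cut.of [[⟨0, 0, 0, 38347922⟩, ⟨1, 1, 0, 38347922⟩, ⟨2, 1, 0, 38347922⟩]]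

noncomputable def xt_pm_012_a : Ext := extD3 3 ⟨4, 1, 1, 5, 99, 20, 33, 40, 51, 125, 1, 32⟩ eng cd1q0 cd2q2a pd1 false true false .pnp 0 1 2 rfl ndB1q0 ndB2q2a pcB1

noncomputable def f_pm_012_a : ℕ → ℕ → ℕ → ℕ → Bool := onCell 536870912 536870912 0 536870912 1020054732 13421774
    (rowB 3 eng mog cd1q0 cd2q2a pd1 2 false true false .pnp 0 1 2 (qsf 0 536870912 0 536870912 1) ndB1q0 ndB2q2a pcB1 cut_pm_012_a xt_pm_012_a)

def k0_pm_012_a : ∃ t, chk3 f_pm_012_a t 2 1 1 = true :=
  ⟨(b (a (a (l 2) (b (l 2) (c (l 16149760) (l 16319416)))) (a (b (c (l 16151600) (l 16303296)) (c (l 16288048) (l 16330672))) (b (c (l 16281232) (l 16332160)) (c (l 16391296) (l 16335720))))) (a (b (a (l 2) (b (c (l 16304312) (l 16334624)) (b (l 16124864) (c (l 16024864) (l 16238216))))) (a (b (c (l 15920192) (l 16174544)) (c (b (l 16033912) (l 16027904)) (b (l 16166880) (l 16163576)))) (b (c (a (l 16080168) (l 16106912)) (l 16229752)) (c (b (l 16100392) (l 16044376)) (b (l 16234752)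 (l 16239424)))))) (b (a (b (c (l 16335216) (l 16371408)) (c (b (l 16235736) (l 16124704)) (l 16167264))) (b (c (l 16379152) (l 16382080)) (a (c (l 16255344) (l 16357232)) (l 16255656)))) (a (b (a (c (l 16137000) (l 16275800)) (c (l 16149288) (l 16307896))) (b (c (l 16095328) (l 16307960)) (c (l 15988088) (l 16319896)))) (b (b (a (l 16053696) (c (l 16212344) (l 16366784))) (a (l 16242304) (l 16218480))) (b (a (l 16200584) (l 16181056)) (a (c (l 16272648) (l 16383072)) (c (l 16324392) (l 16425592))))))))), by decide +kernel⟩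

def k1_pm_012_a : ∃ t, chk3 f_pm_012_a t 6 1 1 = true :=
  ⟨(b (a (b (c (l 16313104) (l 16354936)) (c (l 16375424) (l 16334704))) (b (a (l 16346832) (l 16351768)) (a (l 16341648) (l 16329528)))) (b (a (b (a (l 16431632) (l 16415080)) (c (l 16277536) (l 16409496))) (a (b (l 16396328) (l 16338968)) (b (l 16375520) (l 16346256)))) (a (b (b (a (c (l 16279816) (l 16404344)) (c (l 16334376) (l 16445704))) (a (l 16175280) (l 16154376))) (b (a (l 16183760) (c (l 16392696) (l 16486456))) (a (c (l 16335640) (l 16468456)) (c (l 16347904) (l 16511400))))) (b (a (b (c (l 16395392) (l 16479288)) (b (l 16208544) (l 16374816))) (b (l 16472040) (b (c (l 16444952) (l 16515664)) (l 16314472)))) (a (b (c (l 16444360) (l 16527168)) (b (l 16407352) (l 16361136))) (b (b (l 16355032) (l 16374128)) (b (c (l 16531184) (l 16589936)) (a (l 16544968) (l 16548224))))))))), by decide +kernel⟩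

def k2_pm_012_a : ∃ t, chk3 f_pm_012_a t 7 1 1 = true :=
  ⟨(b (a (b (a (l 16353280) (l 16288096)) (a (b (l 16310520) (l 16316328)) (b (l 16295616) (l 16295536)))) (b (a (l 16176712) (l 16102360)) (a (b (l 16277312) (l 16230112)) (b (c (l 16220896) (l 16290096)) (l 16140808))))) (b (a (a (b (l 16352760) (c (l 16454640) (l 16397216))) (b (l 16286200) (a (l 16406400) (l 16372136)))) (a (b (l 16196832) (a (l 16358632) (l 16302992))) (b (a (l 16280392) (l 16244736)) (a (l 16226200) (b (l 16313096) (l 16361792)))))) (a (b (a (b (l 16466184) (a (c (l 16351512) (l 16526752)) (b (l 16553952) (l 16415272)))) (b (l 16419600) (a (b (l 16541568) (l 16472680)) (l 16549696)))) (b (a (a (c (l 16536304) (l 16573160)) (c (l 16562288) (l 16580352))) (a (b (c (l 16574960) (l 16574752)) (l 16539328)) (b (c (l 16500064) (l 16579552)) (c (l 16626304) (l 16610296))))) (a (b (b (l 16498376) (l 16507648)) (a (l 16551160) (l 16532696))) (b (a (l 16537720) (c (l 16649696) (l 16644600)))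 (a (c (l 16645920) (l 16671640)) (b (l 16657768) (l 16645240))))))) (b (a (b (a (l 16463048) (l 16450200)) (a (l 16537784) (l 16463152))) (a (b (l 16416448) (b (l 16493080) (l 16535736))) (b (c (l 16406336) (l 16443400)) (a (l 16464104) (b (l 16478488) (l 16522224)))))) (a (b (a (b (l 140033765888262207) (l 140066613840756799)) (b (l 16592992) (l 140450549594128447))) (a (b (l 141132934149701695) (l 141620636346449983)) (b (l 141259171803545663) (b (l 142203240119238719) (l 142347001351209023))))) (a (b (b (l 16540808) (a (l 141791953987436799) (l 16611080))) (b (a (l 141648673855963391) (b (l 142335731283296383) (l 142249763190325375))) (a (b (l 142605661478502655) (l 142927818431185151)) (l 6)))) (b (a (b (l 16575272) (l 16585760)) (b (l 16528536) (b (l 16588600) (l 6)))) (b (l 6) (l 6))))))))), by decide +kernel⟩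

theorem s3_pm_012_a : ∃ t, chk3 f_pm_012_a t 3 1 1 = true := ex3_a k1_pm_012_a k2_pm_012_a

theorem s4_pm_012_a : ∃ t, chk3 f_pm_012_a t 1 1 1 = true := ex3_a k0_pm_012_a s3_pm_012_a

theorem c_pm_012_a : CertB 0 536870912 0 536870912 1020054732 13421774 3 eng mog cd1q0 cd2q2a pd1 false true false .pnp 0 1 2
    ndB1q0 ndB2q2a pcB1 cut_pm_012_a xt_pm_012_a :=
  certB2 (fam := false) (s1 := true) (s2 := false) (a := 0) (b := 1) (c := 2) (cn := .pnp) (n1 := ndB1q0) (n2 := ndB2q2a) (pc := pcB1) (cut := cut_pm_012_a) (xt := xt_pm_012_a) (P1 := 0) (W1 := 536870912) (P2 := 0) (W2 := 536870912) (P3 := 1020054732) (W3 := 13421774) (N0 := 3) (En := eng) (mo := mog) (C1 := cd1q0) (C2 := cd2q2a) (C3 := pd1)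
    rfl (fun _ => rfl) s4_pm_012_a

noncomputable def cut_pm_012_b : Cut := Cut.of [[⟨0, 0, 0, 38347922⟩, ⟨1, 1, 0, 38347922⟩, ⟨2, 1, 0, 38347922⟩]]

noncomputable def f_pm_012_b : ℕ → ℕ → ℕ → ℕ → Bool := onCell 536870912 536870912 1239849684 370763052 1020054732 13421774
    (rowB 3 eng mog cd1q0 cd2q2b pd1 2 false true false .pnp 0 1 2 (qsf 0 536870912 1239849684 370763052 1) ndB1q0 ndB2q2b pcB1 cut_pm_012_b Ext.none)

def k0_pm_012_b : ∃ t, chk3 f_pm_012_b t 1 1 1 = true :=
  ⟨(a (a (l 2) (b (a (b (b (a (l 16147984) (l 16197800)) (l 2)) (l 2)) (a (b (c (l 16079600) (l 16238176)) (l 2)) (b (c (l 16108176) (l 16249976)) (c (l 15918880) (l 16096016))))) (l 2))) (a (b (a (b (c (b (l 16231248) (l 16098568)) (b (l 16321632) (l 16207792))) (c (l 15751528) (a (l 16088480) (l 16075840)))) (b (a (b (l 16296720) (l 16158360)) (b (l 16305896) (l 16155848))) (c (l 15727128) (l 15859368)))) (a (l 2) (b (c (l 15746096) (l 15848552)) (l 2)))) (b (a (b (a (b (l 16310832) (l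 16147752)) (b (l 16311056) (l 16133672))) (a (l 15767656) (l 15713600))) (b (a (b (l 16305992) (l 16050128)) (b (c (l 16255216) (l 16335144)) (l 16001240))) (a (l 15630008) (b (l 15905720) (l 15757584))))) (a (b (a (l 15755864) (l 15722464)) (a (l 2) (l 15686912))) (b (a (l 15656488) (l 15557360)) (a (l 15602008) (l 15501448))))))), by decide +kernel⟩

theorem c_pm_012_b : CertB 0 536870912 1239849684 370763052 1020054732 13421774 3 eng mog cd1q0 cd2q2b pd1 false true false .pnp 0 1 2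
    ndB1q0 ndB2q2b pcB1 cut_pm_012_b Ext.none :=
  certB2 (fam := false) (s1 := true) (s2 := false) (a := 0) (b := 1) (c := 2) (cn := .pnp) (n1 := ndB1q0) (n2 := ndB2q2b) (pc := pcB1) (cut := cut_pm_012_b) (xt := Ext.none) (P1 := 0) (W1 := 536870912) (P2 := 1239849684) (W2 := 370763052) (P3 := 1020054732) (W3 := 13421774) (N0 := 3) (En := eng) (mo := mog) (C1 := cd1q0) (C2 := cd2q2b) (C3 := pd1)
    rfl (fun _ => rfl) k0_pm_012_b

noncomputable def cut_pm_022_a : Cut := Cut.of [[⟨0, 0, 0, 38347922⟩, ⟨1, 1, 0, 38347922⟩, ⟨2, 1, 0, 38347922⟩]]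

noncomputable def f_pm_022_a : ℕ → ℕ → ℕ → ℕ → Bool := onCell 1073741824 536870912 0 536870912 1020054732 13421774
    (rowB 3 eng mog cd1q0 cd2q2a pd2 2 false true false .pp 0 2 2 (qsf 0 536870912 0 536870912 2) ndB1q0 ndB2q2a pcB2 cut_pm_022_a Ext.none)

def k0_pm_022_a : ∃ t, chk3 f_pm_022_a t 2 2 1 = true :=
  ⟨(a (a (b (a (l 16035832) (l 16016304)) (a (b (l 16082920) (l 16045192)) (b (l 16108704) (c (l 16166368) (l 16286504))))) (b (a (c (l 16153568) (l 16273616)) (b (l 16298752) (l 16307976))) (a (b (l 16192120) (b (l 16296560) (l 16293200))) (b (l 16280400) (c (l 16250480) (l 16196432)))))) (a (b (a (c (l 257193485223) (l 16185440)) (b (l 1) (l 1))) (a (b (b (l 16206728) (l 342018994455)) (a (l 671657722631) (l 1))) (l 1))) (l 1))), by decide +kernel⟩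

def k1_pm_022_a : ∃ t, chk3 f_pm_022_a t 2 3 1 = true :=
  ⟨(a (a (b (a (b (a (l 16154264) (l 16187664)) (a (b (l 16257848) (l 16287144)) (c (l 16227112) (l 16308176)))) (b (a (c (l 16298568) (l 16327944)) (c (l 16368920) (l 16460688))) (a (c (b (l 16405600) (l 16472152)) (l 16396336)) (b (l 16432624) (l 16429896))))) (a (b (b (a (l 16266808) (c (l 16404616) (l 16493688))) (b (a (l 16401976) (l 16462632)) (a (a (l 16493024) (l 16523000)) (a (l 16533720) (l 16588008))))) (b (b (b (a (a (l 16556032) (l 16566048)) (a (l 16619656) (l 16608920))) (l 6)) (l 6)) (l 6))) (b (b (a (b (l 16507432) (l 16510072)) (b (l 16433056) (a (l 16506624) (l 391411748631)))) (a (a (b (l 16584112) (b (l 16597384) (l 16570896))) (b (l 16540392) (a (l 602939110999) (l 718366354375)))) (a (b (b (l 16496848) (l 449393904487)) (b (l 838088585127) (l 1))) (b (l 804265554535) (l 1))))) (a (b (b (a (a (b (l 16597296) (l 6)) (b (l 681859189031) (l 1))) (l 1)) (l 1)) (l 1)) (l 1))))) (b (a (b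 (a (l 16311360) (b (l 16424912) (l 16332608))) (a (b (l 16388152) (c (l 315176008759) (l 321618359815))) (b (b (l 16350592) (l 350072386487)) (b (l 696890959975) (l 1))))) (b (a (b (l 16326008) (l 347924773335)) (b (l 664678510391) (l 1))) (b (a (b (l 726955620919) (l 1)) (l 1)) (l 1)))) (a (b (a (b (b (a (l 383895476247) (l 812855434423)) (a (l 803191825671) (l 1))) (l 1)) (l 1)) (l 1)) (l 1)))) (b (l 1) (l 1))), by decide +kernel⟩

def k2_pm_022_a : ∃ t, chk3 f_pm_022_a t 3 1 1 = true :=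
  ⟨(l 1), by decide +kernel⟩

theorem s3_pm_022_a : ∃ t, chk3 f_pm_022_a t 2 1 1 = true := ex3_b k0_pm_022_a k1_pm_022_a

theorem s4_pm_022_a : ∃ t, chk3 f_pm_022_a t 1 1 1 = true := ex3_a s3_pm_022_a k2_pm_022_a

theorem c_pm_022_a : CertB 0 536870912 0 536870912 1020054732 13421774 3 eng mog cd1q0 cd2q2a pd2 false true false .pp 0 2 2
    ndB1q0 ndB2q2a pcB2 cut_pm_022_a Ext.none :=
  certB2 (fam := false) (s1 := true) (s2 := false) (a := 0) (b := 2) (c := 2) (cn := .pp) (n1 := ndB1q0) (n2 := ndB2q2a) (pc := pcB2) (cut := cut_pm_022_a) (xt := Ext.none) (P1 := 0) (W1 := 536870912) (P2 := 0) (W2 := 536870912) (P3 := 1020054732) (W3 := 13421774) (N0 := 3) (En := eng) (mo := mog) (C1 := cd1q0) (C2 := cd2q2a) (C3 := pd2)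
    rfl (fun _ => rfl) s4_pm_022_a

noncomputable def cut_pm_022_b : Cut := Cut.of [[⟨0, 0, 0, 38347922⟩, ⟨1, 1, 0, 38347922⟩, ⟨2, 1, 0, 38347922⟩]]

noncomputable def f_pm_022_b : ℕ → ℕ → ℕ → ℕ → Bool := onCell 1073741824 536870912 1239849684 370763052 1020054732 13421774
    (rowB 3 eng mog cd1q0 cd2q2b pd2 2 false true false .pp 0 2 2 (qsf 0 536870912 1239849684 370763052 2) ndB1q0 ndB2q2b pcB2 cut_pm_022_b Ext.none)

def k0_pm_022_b : ∃ t, chk3 f_pm_022_b t 1 1 1 = true :=
  ⟨(a (a (b (a (b (a (b (l 15979272) (l 15754984)) (b (l 15950240) (l 15786584))) (a (l 15276632) (l 15233456))) (b (a (b (l 15951592) (l 15852520)) (b (l 15988608) (l 15937072))) (a (b (l 15643216) (l 15450936)) (b (l 15729072) (l 15534120))))) (a (b (a (l 15167040) (l 15158464)) (a (l 14977312) (l 14924968))) (b (a (l 15196984) (l 15268288)) (a (l 14926944) (l 14970840))))) (b (b (a (b (a (c (l 16106888) (l 16284192)) (b (l 16187184) (l 16299056))) (a (l 15933120) (l 16030232))) (b (a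 (l 737692954727) (l 1)) (a (l 16041072) (l 439192400551)))) (a (a (b (l 15835056) (l 15641176)) (c (l 15666816) (l 15757736))) (a (b (l 16069728) (l 15909888)) (b (l 16106032) (l 16063216))))) (a (b (a (l 15369232) (l 15411184)) (b (l 15183568) (l 15033576))) (b (a (l 15453240) (b (l 15893496) (l 15725200))) (a (l 15309448) (l 15475368)))))) (b (a (b (l 1) (a (a (b (l 15843928) (l 16110984)) (b (l 488583781335) (l 415569664583))) (a (b (l 1) (l 460666091815)) (l 1)))) (l 1)) (a (a (b (a (l 15727680) (b (l 15967584) (l 16037776))) (a (l 15659224) (l 15855032))) (b (a (b (l 15675368) (l 15824904)) (b (l 440264616759) (l 15551800))) (a (l 15969800) (l 118343972695)))) (a (b (b (l 1) (l 4)) (l 4)) (b (l 1) (l 4)))))), by decide +kernel⟩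

theorem c_pm_022_b : CertB 0 536870912 1239849684 370763052 1020054732 13421774 3 eng mog cd1q0 cd2q2b pd2 false true false .pp 0 2 2
    ndB1q0 ndB2q2b pcB2 cut_pm_022_b Ext.none :=
  certB2 (fam := false) (s1 := true) (s2 := false) (a := 0) (b := 2) (c := 2) (cn := .pp) (n1 := ndB1q0) (n2 := ndB2q2b) (pc := pcB2) (cut := cut_pm_022_b) (xt := Ext.none) (P1 := 0) (W1 := 536870912) (P2 := 1239849684) (W2 := 370763052) (P3 := 1020054732) (W3 := 13421774) (N0 := 3) (En := eng) (mo := mog) (C1 := cd1q0) (C2 := cd2q2b) (C3 := pd2)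
    rfl (fun _ => rfl) k0_pm_022_b

noncomputable def f_pm_023 : ℕ → ℕ → ℕ → ℕ → Bool := onCell 1073741824 536870912 1610612736 536870912 1020054732 13421774
    (rowB 3 eng mog cd1q0 cd2q3 pd2 2 false true false .up 0 2 3 (qsf 0 536870912 1610612736 536870912 2) ndB1q0 ndB2q3 pcB2 Cut.none Ext.none)

def k0_pm_023 : ∃ t, chk3 f_pm_023 t 1 1 1 = true :=
  ⟨(a (a (b (b (a (b (a (l 15245008) (l 15146032)) (a (l 2) (l 15072456))) (b (a (l 15107512) (l 15119280)) (l 14841136))) (a (l 2) (b (a (l 2) (l 14818608)) (l 2)))) (l 2)) (b (b (a (b (c (l 15291776) (l 15100448)) (l 14934000)) (b (a (l 15402344) (l 15561168)) (l 15241368))) (a (b (l 14821296) (a (l 2) (l 14642304))) (b (l 14934656) (l 14749024)))) (b (a (l 2) (b (a (l 2) (l 14542256)) (l 2))) (l 2)))) (b (a (b (a (b (a (l 15742480) (l 15867960)) (l 15422344)) (b (a (l 15754824) (l 15500848)) (a (l 15836112) (l 15747408)))) (a (b (l 15323552) (l 14936120)) (b (l 15745160) (l 15454736)))) (b (a (a (b (l 1112628683111)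 (l 15628544)) (l 4)) (l 4)) (a (b (a (l 15778424) (l 15691672)) (l 15819200)) (b (l 4) (l 15490160))))) (a (b (a (b (l 14745456) (a (l 2) (l 14514192))) (b (l 15139696) (l 14782832))) (b (a (l 2) (a (l 2) (l 14552680))) (l 2))) (b (a (b (l 15623128) (l 15284304)) (b (l 15658296) (l 15808472))) (a (b (l 14915744) (b (l 14643432) (l 2))) (b (l 15464392) (l 15049912))))))), by decide +kernel⟩

theorem c_pm_023 : CertB 0 536870912 1610612736 536870912 1020054732 13421774 3 eng mog cd1q0 cd2q3 pd2 false true false .up 0 2 3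
    ndB1q0 ndB2q3 pcB2 Cut.none Ext.none :=
  certB2 (fam := false) (s1 := true) (s2 := false) (a := 0) (b := 2) (c := 3) (cn := .up) (n1 := ndB1q0) (n2 := ndB2q3) (pc := pcB2) (cut := Cut.none) (xt := Ext.none) (P1 := 0) (W1 := 536870912) (P2 := 1610612736) (W2 := 536870912) (P3 := 1020054732) (W3 := 13421774) (N0 := 3) (En := eng) (mo := mog) (C1 := cd1q0) (C2 := cd2q3) (C3 := pd2)
    rfl (fun _ => rfl) k0_pm_023

noncomputable def f_pm_033 : ℕ → ℕ → ℕ → ℕ → Bool := onCell 1610612736 536870912 1610612736 536870912 1020054732 13421774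
    (rowB 3 eng mog cd1q0 cd2q3 pd3 2 false true false .pnn 0 3 3 (qsf 0 536870912 1610612736 536870912 3) ndB1q0 ndB2q3 pcB3 Cut.none Ext.none)

def k0_pm_033 : ∃ t, chk3 f_pm_033 t 1 1 1 = true :=
  ⟨(a (b (a (l 4) (b (a (b (l 1) (l 4)) (l 1)) (l 4))) (a (b (a (b (l 4) (l 15990128)) (l 4)) (a (b (l 16169392) (l 16340608)) (b (l 16061192) (l 16214336)))) (l 4))) (b (a (b (l 1) (a (b (l 1) (l 4)) (l 1))) (l 1)) (a (l 4) (b (a (b (l 1) (l 4)) (l 1)) (l 4))))), by decide +kernel⟩

theorem c_pm_033 : CertB 0 536870912 1610612736 536870912 1020054732 13421774 3 eng mog cd1q0 cd2q3 pd3 false true false .pnn 0 3 3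
    ndB1q0 ndB2q3 pcB3 Cut.none Ext.none :=
  certB2 (fam := false) (s1 := true) (s2 := false) (a := 0) (b := 3) (c := 3) (cn := .pnn) (n1 := ndB1q0) (n2 := ndB2q3) (pc := pcB3) (cut := Cut.none) (xt := Ext.none) (P1 := 0) (W1 := 536870912) (P2 := 1610612736) (W2 := 536870912) (P3 := 1020054732) (W3 := 13421774) (N0 := 3) (En := eng) (mo := mog) (C1 := cd1q0) (C2 := cd2q3) (C3 := pd3)
    rfl (fun _ => rfl) k0_pm_033

noncomputable def f_pm_101 : ℕ → ℕ → ℕ → ℕ → Bool := onCell 536870912 536870912 536870912 536870912 1020054732 13421774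
    (rowB 3 eng mog cd1q1 cd2q1 pd0 0 false true false .npn 1 0 1 (qsf 536870912 536870912 536870912 536870912 0) ndB1q1 ndB2q1 pcB0 Cut.none Ext.none)

def k0_pm_101 : ∃ t, chk3 f_pm_101 t 1 1 1 = true :=
  ⟨(l 4), by decide +kernel⟩

theorem c_pm_101 : CertB 536870912 536870912 536870912 536870912 1020054732 13421774 3 eng mog cd1q1 cd2q1 pd0 false true false .npn 1 0 1
    ndB1q1 ndB2q1 pcB0 Cut.none Ext.none :=
  certB0 (fam := false) (s1 := true) (s2 := false) (a := 1) (b := 0) (c := 1) (cn := .npn) (n1 := ndB1q1) (n2 := ndB2q1) (pc := pcB0) (cut := Cut.none) (xt := Ext.none) (P1 := 536870912) (W1 := 536870912) (P2 := 536870912) (W2 := 536870912) (P3 := 1020054732) (W3 := 13421774) (N0 := 3) (En := eng) (mo := mog) (C1 := cd1q1) (C2 := cd2q1) (C3 := pd0)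
    rfl k0_pm_101

noncomputable def f_pm_102_a : ℕ → ℕ → ℕ → ℕ → Bool := onCell 0 536870912 0 536870912 1020054732 13421774
    (rowB 3 eng mog cd1q1 cd2q2a pd0 2 false true false .npp 1 0 2 (qsf 536870912 536870912 0 536870912 0) ndB1q1 ndB2q2a pcB0 Cut.none Ext.none)

def k0_pm_102_a : ∃ t, chk3 f_pm_102_a t 2 2 1 = true :=
  ⟨(a (b (l 2) (a (l 2) (a (l 2) (b (l 2) (b (l 2) (a (l 2) (b (l 16171528) (a (l 2) (l 16140192))))))))) (a (b (a (a (l 2) (b (a (l 2) (a (l 2) (b (a (l 11514906747959) (c (l 561129513895) (l 16138384))) (l 16139952)))) (b (a (l 2) (l 16122376)) (l 198741505687)))) (b (a (b (a (a (c (l 16141296) (l 16140992)) (l 16144944)) (l 16150376)) (a (l 16123320) (l 16127648))) (b (b (l 16138456) (l 16135472)) (l 16128848))) (a (b (l 16144016) (l 16139496)) (l 16139520)))) (b (a (a (a (l 2) (l 16150824)) (b (l 16143824) (l 16147344))) (a (l 16141544) (b (l 16137112) (l 16129176)))) (a (b (a (l 16134944) (b (l 16150240) (l 16138992))) (a (b (a (l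 16157952) (l 16136576)) (l 16090240)) (l 16058496))) (a (b (b (l 16133864) (l 16089776)) (l 15999216)) (b (l 16065152) (l 15943152)))))) (b (a (b (a (l 16155952) (l 16157944)) (c (l 16144728) (l 16136480))) (b (l 16165232) (a (l 16145976) (l 16145880)))) (b (a (b (a (l 16137424) (l 16131328)) (a (b (l 16130496) (l 16100872)) (l 16080752))) (b (a (l 16123168) (l 16101696)) (l 16008464))) (a (a (l 15950712) (l 15900624)) (a (l 15853512) (l 15809392))))))), by decide +kernel⟩

def k1_pm_102_a : ∃ t, chk3 f_pm_102_a t 2 3 1 = true :=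
  ⟨(a (b (a (l 2) (b (a (l 2) (a (b (a (l 2) (l 16114816)) (l 16009280)) (b (l 16063888) (l 15940224)))) (a (b (a (l 2) (l 15959728)) (b (a (l 15951824) (l 15879624)) (l 15888656))) (b (a (l 15886656) (l 15817288)) (a (l 15806848) (l 15743840)))))) (b (a (a (l 2) (b (a (l 2) (a (l 2) (l 15934448))) (a (a (l 15913088) (l 15905792)) (a (l 15900768) (l 15887176))))) (a (b (a (l 15888568) (l 15829920)) (a (l 15849672) (l 15801256))) (b (l 15749152) (l 15734384)))) (a (a (a (b (l 2) (b (l 15945512) (l 15913640))) (a (b (b (l 2) (l 15912672)) (b (l 15884336) (l 15857472))) (b (a (l 15893376) (l 15871072)) (a (l 15842984) (l 15824120))))) (a (b (a (l 15861280) (l 15858272)) (a (l 15816888) (l 15794856))) (b (c (l 15834464) (l 15848720)) (b (l 15801680) (l 15796920))))) (a (b (c (l 15806688) (l 15789304)) (l 15644048)) (b (l 15724248) (l 15715472)))))) (b (a (b (a (a (b (l 15998168) (l 15874672)) (b (l 15935880) (l 15812488))) (a (l 15774000) (l 15760152))) (a (b (a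 (l 15749816) (l 15686384)) (a (l 15663344) (l 15628448))) (b (a (l 15626928) (l 15571344)) (l 15552136)))) (b (a (a (l 15707576) (l 15658256)) (a (l 15612272) (l 15569728))) (b (a (a (l 15519584) (l 15471648)) (a (l 15427544) (l 15387264))) (a (l 15463768) (l 15388904))))) (a (b (a (b (l 15651416) (l 15654192)) (c (l 15598544) (l 15555584))) (a (c (l 15693328) (l 15644944)) (c (l 15659488) (l 15596456)))) (b (a (c (l 15540208) (l 15485896)) (c (l 15494544) (l 15429016))) (a (c (l 15636992) (l 15559360)) (c (l 15625288) (l 15533368))))))), by decide +kernel⟩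

def k2_pm_102_a : ∃ t, chk3 f_pm_102_a t 3 1 1 = true :=
  ⟨(b (a (b (a (a (b (l 16180840) (b (l 16161864) (a (l 16141464) (l 16129048)))) (b (l 16202472) (b (a (l 16168912) (l 16163384)) (l 16076792)))) (a (b (b (l 16235000) (l 16074640)) (l 15838400)) (b (b (l 16183824) (l 16174272)) (l 16013224)))) (a (a (b (a (l 16001288) (l 15962000)) (a (l 15768312) (l 15730352))) (b (l 15825168) (l 15659344))) (a (b (l 15847480) (l 15624000)) (b (l 15798136) (l 15581400))))) (a (b (a (b (l 16033504) (l 15970400)) (b (l 16140000) (l 15939400))) (a (b (l 15761560) (l 15552712)) (b (l 15738048) (l 15538024)))) (b (a (b (l 16113960) (l 15920640)) (b (l 16099352) (l 15914344))) (a (b (l 15727776) (l 15537320)) (b (l 15730792) (l 15550544)))))) (a (b (a (b (a (a (l 15530696) (l 15495248)) (c (l 15475032) (l 15424352))) (b (a (l 15334576) (l 15276912)) (a (l 15327432) (l 15279104)))) (b (a (l 15274936) (l 15282616)) (a (b (l 15234712) (l 15243616)) (b (l 15207776) (l 15220656)))))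 (a (b (a (c (l 15461208) (l 15384760)) (c (l 15439808) (l 15352912))) (a (c (l 15623944) (l 15518296)) (c (l 15632624) (l 15514000)))) (b (a (c (l 15429952) (l 15333248)) (c (l 15431280) (l 15325568))) (a (b (l 15531904) (l 15639792)) (b (l 15548216) (l 15626552)))))) (b (a (b (a (l 15346984) (l 15342112)) (b (a (l 15195920) (l 15199208)) (a (l 15211248) (l 15212992)))) (b (a (l 15351768) (l 15375824)) (b (a (l 15216592) (l 15248992)) (a (l 15226856) (l 15253152))))) (a (b (a (c (l 15443448) (l 15329664)) (b (l 15339192) (l 15472744))) (a (b (l 15574728) (l 15622664)) (b (l 15611200) (l 15606920)))) (b (a (b (l 15363664) (l 15508344)) (b (l 15398928) (l 15554080))) (a (b (l 15657368) (l 15600040)) (b (l 15629056) (a (l 15836712) (l 15829176))))))))), by decide +kernel⟩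

theorem s3_pm_102_a : ∃ t, chk3 f_pm_102_a t 2 1 1 = true := ex3_b k0_pm_102_a k1_pm_102_a

theorem s4_pm_102_a : ∃ t, chk3 f_pm_102_a t 1 1 1 = true := ex3_a s3_pm_102_a k2_pm_102_a

theorem c_pm_102_a : CertB 536870912 536870912 0 536870912 1020054732 13421774 3 eng mog cd1q1 cd2q2a pd0 false true false .npp 1 0 2
    ndB1q1 ndB2q2a pcB0 Cut.none Ext.none :=
  certB2 (fam := false) (s1 := true) (s2 := false) (a := 1) (b := 0) (c := 2) (cn := .npp) (n1 := ndB1q1) (n2 := ndB2q2a) (pc := pcB0) (cut := Cut.none) (xt := Ext.none) (P1 := 536870912) (W1 := 536870912) (P2 := 0) (W2 := 536870912) (P3 := 1020054732) (W3 := 13421774) (N0 := 3) (En := eng) (mo := mog) (C1 := cd1q1) (C2 := cd2q2a) (C3 := pd0)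
    rfl (fun _ => rfl) s4_pm_102_a

noncomputable def f_pm_102_b : ℕ → ℕ → ℕ → ℕ → Bool := onCell 536870912 536870912 1239849684 370763052 1020054732 13421774
    (rowB 3 eng mog cd1q1 cd2q2b pd0 0 false true false .npp 1 0 2 (qsf 536870912 536870912 1239849684 370763052 0) ndB1q1 ndB2q2b pcB0 Cut.none Ext.none)

def k0_pm_102_b : ∃ t, chk3 f_pm_102_b t 1 1 1 = true :=
  ⟨(a (b (a (l 2) (a (b (b (a (l 16178312) (l 16183168)) (l 2)) (l 2)) (b (a (b (l 16147608) (l 16143240)) (b (c (l 16280224) (l 16178704)) (a (l 16203992) (l 16195432)))) (a (l 2) (b (l 16084232) (l 2)))))) (l 2)) (b (a (a (b (a (b (a (l 16100680) (l 16174816)) (l 16121328)) (b (l 16216208) (l 16117376))) (a (l 15893664) (b (l 16034360) (l 15967304)))) (b (b (a (l 16181440) (l 16109336)) (a (l 16073920) (l 16036016))) (a (b (l 15981976) (l 15905664)) (b (l 15935976) (l 15851168))))) (a (b (a (b (c (l 16148048) (l 16104952)) (l 16004688)) (b (a (l 16112392) (l 16105248)) (a (l 15986144) (l 15976576))))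 (a (b (l 15897496) (l 15805040)) (b (l 15825968) (l 15768792)))) (b (a (b (a (b (l 16135112) (l 16066296)) (b (l 16049008) (l 16062888))) (a (l 15969448) (b (l 15996184) (l 15932944)))) (b (a (b (a (l 16127216) (l 16120856)) (l 16054120)) (b (a (c (l 16117152) (l 16110856)) (b (a (l 16105200) (c (b (l 16131896) (l 16115040)) (l 16100032))) (c (l 16092320) (l 16086488)))) (a (l 16045432) (c (l 16023216) (l 16034184))))) (a (b (l 15988152) (l 15926048)) (b (a (l 15980832) (l 15975728)) (l 15933848))))) (a (b (a (l 15852408) (l 15844704)) (a (l 15749016) (l 15739664))) (b (a (l 15839736) (b (l 15861344) (l 15807872))) (a (l 15736352) (l 15733544))))))) (a (a (l 2) (b (a (l 15820368) (l 15626480)) (l 2))) (a (b (a (b (l 15727296) (l 15664240)) (b (l 15683808) (l 15612920))) (a (l 2) (l 15386000))) (b (a (b (a (l 15659264) (l 15648320)) (l 15451352)) (b (a (l 15645360) (l 15644128)) (a (l 15565880) (l 15564976)))) (a (b (l 15512920) (l 15461760)) (b (l 15496184) (l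 15436792)))))))), by decide +kernel⟩

theorem c_pm_102_b : CertB 536870912 536870912 1239849684 370763052 1020054732 13421774 3 eng mog cd1q1 cd2q2b pd0 false true false .npp 1 0 2
    ndB1q1 ndB2q2b pcB0 Cut.none Ext.none :=
  certB0 (fam := false) (s1 := true) (s2 := false) (a := 1) (b := 0) (c := 2) (cn := .npp) (n1 := ndB1q1) (n2 := ndB2q2b) (pc := pcB0) (cut := Cut.none) (xt := Ext.none) (P1 := 536870912) (W1 := 536870912) (P2 := 1239849684) (W2 := 370763052) (P3 := 1020054732) (W3 := 13421774) (N0 := 3) (En := eng) (mo := mog) (C1 := cd1q1) (C2 := cd2q2b) (C3 := pd0)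
    rfl k0_pm_102_b

noncomputable def f_pm_112_a : ℕ → ℕ → ℕ → ℕ → Bool := onCell 536870912 536870912 0 536870912 1020054732 13421774
    (rowB 3 eng mog cd1q1 cd2q2a pd1 2 false true false .dn 1 1 2 (qsf 536870912 536870912 0 536870912 1) ndB1q1 ndB2q2a pcB1 Cut.none Ext.none)

def k0_pm_112_a : ∃ t, chk3 f_pm_112_a t 1 1 1 = true :=
  ⟨(a (b (a (a (b (c (a (l 16267496) (l 16326040)) (a (l 16254528) (l 16330024))) (c (b (l 16219000) (l 15853920)) (b (l 16358728) (l 16281456)))) (b (c (a (l 16269976) (l 16224784)) (l 16173656)) (c (b (l 16117216) (l 15876488)) (b (l 16304680) (l 16239800))))) (a (b (c (a (l 16193616) (l 16178680)) (l 16310648)) (a (b (l 16104440) (l 195989511351)) (l 1))) (l 1))) (a (b (a (b (c (a (l 15933248) (l 15888680)) (l 16116704)) (c (b (l 15726096) (a (l 15665376) (l 15643296))) (c (l 15786304) (l 16157112)))) (b (c (l 15608248) (l 16144224)) (c (b (l 15733304) (a (l 15644312) (l 1))) (c (l 15843368) (l 16186472))))) (b (b (a (c (l 15582080)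 (l 16016744)) (c (l 15436808) (l 15917824))) (a (c (l 15459712) (l 15919712)) (l 1))) (a (c (a (b (l 15587440) (l 15575056)) (l 278129846919)) (c (l 15744528) (l 16077544))) (l 1)))) (b (l 1) (l 1)))) (l 1)), by decide +kernel⟩

theorem c_pm_112_a : CertB 536870912 536870912 0 536870912 1020054732 13421774 3 eng mog cd1q1 cd2q2a pd1 false true false .dn 1 1 2
    ndB1q1 ndB2q2a pcB1 Cut.none Ext.none :=
  certB2 (fam := false) (s1 := true) (s2 := false) (a := 1) (b := 1) (c := 2) (cn := .dn) (n1 := ndB1q1) (n2 := ndB2q2a) (pc := pcB1) (cut := Cut.none) (xt := Ext.none) (P1 := 536870912) (W1 := 536870912) (P2 := 0) (W2 := 536870912) (P3 := 1020054732) (W3 := 13421774) (N0 := 3) (En := eng) (mo := mog) (C1 := cd1q1) (C2 := cd2q2a) (C3 := pd1)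
    rfl (fun _ => rfl) k0_pm_112_a

noncomputable def f_pm_112_b : ℕ → ℕ → ℕ → ℕ → Bool := onCell 536870912 536870912 536870912 536870912 1020054732 13421774
    (rowB 3 eng mog cd1q1 cd2q2b pd1 1 false true false .dn 1 1 2 (qsf 536870912 536870912 1239849684 370763052 1) ndB1q1 ndB2q2b pcB1 Cut.none Ext.none)

def k0_pm_112_b : ∃ t, chk3 f_pm_112_b t 1 2 1 = true :=
  ⟨(a (b (a (b (a (l 1) (c (a (l 286184322503) (l 16284144)) (a (l 16272128) (l 16314216)))) (a (c (b (l 292626631319) (l 16225408)) (l 278131404135)) (c (a (l 16348984) (l 16280656)) (l 121364928663)))) (a (b (c (a (l 16205128) (l 15961912)) (a (l 16200424) (l 16079048))) (c (a (l 16127480) (l 15961520)) (l 15907800))) (b (c (a (b (l 15847072) (l 15817856)) (b (l 15701400) (l 15712400))) (a (l 15869520) (l 15809304))) (a (c (l 15740624) (l 15934360)) (c (l 15733984) (l 15852320)))))) (a (c (a (b (l 199748050375) (l 16291560)) (b (l 16273488) (l 16207584))) (b (a (l 16296112) (l 16239576)) (a (l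 16311080) (l 16174552)))) (b (a (c (a (l 16072328) (l 15925688)) (l 16018560)) (a (c (l 15802040) (l 15921552)) (l 15688456))) (a (c (l 15974632) (l 16028528)) (c (l 15654656) (l 15860960)))))) (b (a (b (a (c (a (l 15695280) (l 15698928)) (a (l 15791688) (l 15739656))) (c (a (l 15711840) (l 15734600)) (a (l 15692632) (l 15652024)))) (a (c (a (l 15711544) (l 15695384)) (l 15753128)) (c (a (l 15685832) (l 15683408)) (l 15567880)))) (a (b (c (a (l 15768552) (l 15586016)) (a (l 15619680) (l 15598088))) (c (a (l 15689328) (l 15622280)) (a (l 15551728) (l 15511000)))) (b (a (c (a (l 15863680) (b (l 15869976) (l 15815896))) (a (l 15590016) (l 15565432))) (c (b (l 15693672) (l 15651448)) (l 15312024))) (a (a (b (l 15642552) (l 2)) (l 2)) (l 2))))) (a (a (b (c (l 15687744) (l 15720824)) (c (l 15655552) (l 15676552))) (b (c (l 15495984) (l 15568680)) (c (l 15542424) (l 15495784)))) (a (a (a (b (l 15534568) (l 2)) (l 2)) (l 2)) (l 2))))), by decide +kernel⟩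

def k1_pm_112_b : ∃ t, chk3 f_pm_112_b t 1 3 1 = true :=
  ⟨(b (a (a (b (a (c (l 16277752) (l 16209608)) (c (l 16147504) (l 16103344))) (a (c (l 16207280) (l 16091280)) (c (l 16085392) (l 16020024)))) (a (b (c (l 15964648) (l 15996152)) (c (l 15959480) (l 15956112))) (b (c (l 15784440) (l 15836872)) (c (l 15793888) (l 15813016))))) (a (a (b (c (l 15619320) (l 15627848)) (l 2)) (l 2)) (l 2))) (a (a (b (a (c (l 16080800) (l 15949040)) (c (l 16010848) (l 15916968))) (a (c (l 15921968) (l 15773336)) (l 15722296))) (b (a (b (l 15935872) (l 2)) (l 2)) (l 2))) (l 2))), by decide +kernel⟩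

theorem s2_pm_112_b : ∃ t, chk3 f_pm_112_b t 1 1 1 = true := ex3_b k0_pm_112_b k1_pm_112_b

theorem c_pm_112_b : CertB 536870912 536870912 1239849684 370763052 1020054732 13421774 3 eng mog cd1q1 cd2q2b pd1 false true false .dn 1 1 2
    ndB1q1 ndB2q2b pcB1 Cut.none Ext.none :=
  certB1 (fam := false) (s1 := true) (s2 := false) (a := 1) (b := 1) (c := 2) (cn := .dn) (n1 := ndB1q1) (n2 := ndB2q2b) (pc := pcB1) (cut := Cut.none) (xt := Ext.none) (P1 := 536870912) (W1 := 536870912) (P2 := 1239849684) (W2 := 370763052) (P3 := 1020054732) (W3 := 13421774) (N0 := 3) (En := eng) (mo := mog) (C1 := cd1q1) (C2 := cd2q2b) (C3 := pd1)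
    rfl (fun _ => rfl) s2_pm_112_b

noncomputable def f_pm_113 : ℕ → ℕ → ℕ → ℕ → Bool := onCell 536870912 536870912 536870912 536870912 1020054732 13421774
    (rowB 3 eng mog cd1q1 cd2q3 pd1 1 false true false .nn 1 1 3 (qsf 536870912 536870912 1610612736 536870912 1) ndB1q1 ndB2q3 pcB1 Cut.none Ext.none)

def k0_pm_113 : ∃ t, chk3 f_pm_113 t 1 2 1 = true :=
  ⟨(a (b (l 1) (b (l 1) (a (l 1) (a (l 1) (c (a (l 1) (l 15677616)) (l 260950648167)))))) (b (a (a (l 1) (a (l 1) (b (l 1) (b (l 1) (l 15313352))))) (a (a (b (l 1) (c (l 140153598935) (l 15450328))) (b (c (b (l 1) (l 15438168)) (l 201893921415)) (c (c (l 15376944) (l 15380880)) (l 15136296)))) (a (b (c (a (l 15384856) (b (l 15442248) (l 15403248))) (a (l 15452936) (l 15330568))) (a (b (l 15385176) (l 15332864)) (c (b (l 15361896) (l 15317976)) (l 15312584)))) (b (c (b (l 15118568) (l 15199984)) (b (l 15327808) (l 15286328))) (c (b (l 15177368) (l 15154648)) (b (l 15244984) (l 15203360))))))) (a (a (b (c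 (a (l 1) (l 15501624)) (l 245917736087)) (c (a (l 15590824) (l 15507296)) (l 15479896))) (b (c (a (l 15441424) (l 15386912)) (a (l 15542416) (l 15453648))) (c (a (l 15427952) (l 15353432)) (a (l 15490936) (l 15389312))))) (a (b (c (a (l 15338456) (b (l 15317096) (l 15276936))) (a (l 15369264) (l 15291560))) (c (a (l 15284336) (l 15179696)) (c (l 15248904) (l 15245176)))) (b (a (c (b (l 15117112) (l 15236536)) (b (l 15250000) (l 15196232))) (c (b (l 15131216) (l 15106904)) (b (l 15161336) (l 15119216)))) (a (c (b (l 15210456) (l 15146096)) (c (l 15132504) (l 15109472))) (b (c (l 15082232) (l 15077912)) (c (l 15058064) (l 15038840))))))))), by decide +kernel⟩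

def k1_pm_113 : ∃ t, chk3 f_pm_113 t 1 3 1 = true :=
  ⟨(b (b (a (a (l 1) (a (c (c (l 15759552) (l 16013720)) (l 15977968)) (c (a (l 15839488) (l 15732952)) (l 15849056)))) (a (a (c (l 15429296) (l 15620824)) (c (a (l 15424584) (l 15330792)) (l 15202368))) (a (c (b (l 15214936) (l 15196480)) (a (l 15227984) (l 15129320))) (a (b (c (l 15109816) (l 15057880)) (l 15288632)) (b (c (l 15038072) (l 15006024)) (c (l 15028488) (l 14985152))))))) (a (a (a (l 1) (c (l 214779402039) (l 16079432))) (a (c (a (l 15838208) (l 15906888)) (l 16011488)) (c (l 15617104) (l 15855336)))) (a (a (c (l 15616776) (l 15605472)) (c (b (l 15378272) (l 15385592)) (l 15358896))) (a (c (b (l 15187144) (l 15190504)) (b (l 15146232) (l 15140264))) (a (b (l 15048888) (l 15064888)) (b (a (l 15011832) (l 15012408)) (a (l 15044856) (l 15063392)))))))) (a (c (a (b (a (l 230348576455) (l 172366525671)) (a (l 183640596215) (b (l 15719640) (l 15715488)))) (a (b (b (l 15880640) (l 15895008)) (b (l 15913616)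 (l 15934152))) (b (a (l 16039040) (l 15896872)) (a (l 16126912) (l 16006120))))) (a (b (a (l 16005536) (l 16020768)) (a (l 15929064) (l 15938984))) (a (b (l 15996328) (l 15960328)) (b (l 15871000) (l 15850136))))) (b (a (a (c (l 15675384) (l 15607752)) (b (l 15127264) (l 15312192))) (a (b (a (l 15222504) (l 15150384)) (a (l 15255272) (l 15212072))) (a (b (l 15120120) (l 15242304)) (b (a (l 15139072) (l 15192400)) (l 15413600))))) (a (a (b (l 15683184) (l 15717240)) (b (l 15427776) (l 15480408))) (a (b (l 15315032) (l 15484240)) (b (a (l 15495800) (l 16008240)) (a (l 16072472) (a (l 16793688) (l 16785928))))))))), by decide +kernel⟩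

theorem s2_pm_113 : ∃ t, chk3 f_pm_113 t 1 1 1 = true := ex3_b k0_pm_113 k1_pm_113

theorem c_pm_113 : CertB 536870912 536870912 1610612736 536870912 1020054732 13421774 3 eng mog cd1q1 cd2q3 pd1 false true false .nn 1 1 3
    ndB1q1 ndB2q3 pcB1 Cut.none Ext.none :=
  certB1 (fam := false) (s1 := true) (s2 := false) (a := 1) (b := 1) (c := 3) (cn := .nn) (n1 := ndB1q1) (n2 := ndB2q3) (pc := pcB1) (cut := Cut.none) (xt := Ext.none) (P1 := 536870912) (W1 := 536870912) (P2 := 1610612736) (W2 := 536870912) (P3 := 1020054732) (W3 := 13421774) (N0 := 3) (En := eng) (mo := mog) (C1 := cd1q1) (C2 := cd2q3) (C3 := pd1)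
    rfl (fun _ => rfl) s2_pm_113

noncomputable def f_pm_123 : ℕ → ℕ → ℕ → ℕ → Bool := onCell 536870912 536870912 1610612736 536870912 1020054732 13421774
    (rowB 3 eng mog cd1q1 cd2q3 pd2 0 false true false .npn 1 2 3 (qsf 536870912 536870912 1610612736 536870912 2) ndB1q1 ndB2q3 pcB2 Cut.none Ext.none)

def k0_pm_123 : ∃ t, chk3 f_pm_123 t 1 1 1 = true :=
  ⟨(a (b (a (b (a (b (a (c (l 15507904) (l 15296936)) (c (l 15556792) (l 15466640))) (a (b (l 15248736) (l 15097264)) (b (l 15374416) (l 15183312)))) (b (c (l 96667513719) (a (l 15661664) (l 1))) (a (c (l 15497504) (l 15244176)) (c (l 15598256) (l 15381376))))) (a (b (a (l 14904640) (l 14937176)) (a (l 14714568) (l 14676512))) (b (a (l 15024232) (l 15154768)) (a (l 14696120) (l 14810144))))) (b (a (b (l 1) (c (l 15763712) (l 15572024))) (l 1)) (a (b (a (l 15272416) (l 15372760)) (a (l 14938216) (l 15045128))) (b (c (l 15639704) (l 337722084887)) (a (l 15127208) (l 15197096)))))) (a (b (a (b (a (l 14596480)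 (l 14493304)) (a (l 14544552) (l 14382728))) (b (a (l 14445840) (l 14539888)) (a (l 14273664) (l 14352072)))) (a (b (a (l 14551256) (l 14338320)) (b (l 14463800) (l 14510464))) (b (a (l 14183528) (l 14258232)) (a (l 14099872) (l 14274696))))) (b (a (b (l 14745448) (l 14578280)) (b (l 14957024) (l 14856816))) (b (a (l 14505504) (l 14850904)) (a (b (l 14521872) (l 14567952)) (b (l 14917472) (l 14973408))))))) (b (a (b (l 1) (a (b (l 1) (a (l 15272976) (l 1))) (l 1))) (l 1)) (b (a (a (b (b (l 15106000) (l 15030040)) (l 15037112)) (b (a (l 561059918631) (l 1)) (a (l 15071512) (l 15130336)))) (a (b (l 1) (a (b (l 1) (l 15258928)) (l 1))) (l 1))) (a (b (a (l 15164832) (a (l 15325976) (l 15369312))) (a (b (l 15330960) (l 15424384)) (b (l 15701680) (l 15730528)))) (b (a (a (a (l 15380024) (l 15429496)) (l 512744464215)) (a (b (l 1) (l 16704856)) (l 1))) (a (b (a (l 15896976) (l 16010992)) (a (l 16254912) (l 16481984))) (a (b (l 16714176) (l 16714200)) (b (l 703870624471)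 (l 16454544))))))))), by decide +kernel⟩

theorem c_pm_123 : CertB 536870912 536870912 1610612736 536870912 1020054732 13421774 3 eng mog cd1q1 cd2q3 pd2 false true false .npn 1 2 3
    ndB1q1 ndB2q3 pcB2 Cut.none Ext.none :=
  certB0 (fam := false) (s1 := true) (s2 := false) (a := 1) (b := 2) (c := 3) (cn := .npn) (n1 := ndB1q1) (n2 := ndB2q3) (pc := pcB2) (cut := Cut.none) (xt := Ext.none) (P1 := 536870912) (W1 := 536870912) (P2 := 1610612736) (W2 := 536870912) (P3 := 1020054732) (W3 := 13421774) (N0 := 3) (En := eng) (mo := mog) (C1 := cd1q1) (C2 := cd2q3) (C3 := pd2)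
    rfl k0_pm_123

noncomputable def f_pm_133 : ℕ → ℕ → ℕ → ℕ → Bool := onCell 536870912 536870912 1610612736 536870912 1020054732 13421774
    (rowB 3 eng mog cd1q1 cd2q3 pd3 1 false true false .dn 1 3 3 (qsf 536870912 536870912 1610612736 536870912 3) ndB1q1 ndB2q3 pcB3 Cut.none Ext.none)

def k0_pm_133 : ∃ t, chk3 f_pm_133 t 1 1 1 = true :=
  ⟨(a (b (a (b (a (b (l 16317256) (l 2)) (l 2)) (l 2)) (l 2)) (l 2)) (l 2)), by decide +kernel⟩

theorem c_pm_133 : CertB 536870912 536870912 1610612736 536870912 1020054732 13421774 3 eng mog cd1q1 cd2q3 pd3 false true false .dn 1 3 3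
    ndB1q1 ndB2q3 pcB3 Cut.none Ext.none :=
  certB1 (fam := false) (s1 := true) (s2 := false) (a := 1) (b := 3) (c := 3) (cn := .dn) (n1 := ndB1q1) (n2 := ndB2q3) (pc := pcB3) (cut := Cut.none) (xt := Ext.none) (P1 := 536870912) (W1 := 536870912) (P2 := 1610612736) (W2 := 536870912) (P3 := 1020054732) (W3 := 13421774) (N0 := 3) (En := eng) (mo := mog) (C1 := cd1q1) (C2 := cd2q3) (C3 := pd3)
    rfl (fun _ => rfl) k0_pm_133

noncomputable def cut_pm_202_aa : Cut := Cut.of [[⟨0, 1, 0, 38347922⟩, ⟨1, 0, 0, 38347922⟩, ⟨2, 1, 0, 38347922⟩]]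

noncomputable def f_pm_202_aa : ℕ → ℕ → ℕ → ℕ → Bool := onCell 0 536870912 0 536870912 1020054732 13421774
    (rowB 3 eng mog cd1q2a cd2q2a pd0 0 false true false .pp 2 0 2 (qsf 0 536870912 0 536870912 0) ndB1q2a ndB2q2a pcB0 cut_pm_202_aa Ext.none)

def k0_pm_202_aa : ∃ t, chk3 f_pm_202_aa t 1 1 1 = true :=
  ⟨(a (l 3) (b (l 3) (a (l 3) (b (l 3) (a (l 3) (b (l 3) (b (l 3) (a (l 3) (l 6))))))))), by decide +kernel⟩

theorem c_pm_202_aa : CertB 0 536870912 0 536870912 1020054732 13421774 3 eng mog cd1q2a cd2q2a pd0 false true false .pp 2 0 2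
    ndB1q2a ndB2q2a pcB0 cut_pm_202_aa Ext.none :=
  certB0 (fam := false) (s1 := true) (s2 := false) (a := 2) (b := 0) (c := 2) (cn := .pp) (n1 := ndB1q2a) (n2 := ndB2q2a) (pc := pcB0) (cut := cut_pm_202_aa) (xt := Ext.none) (P1 := 0) (W1 := 536870912) (P2 := 0) (W2 := 536870912) (P3 := 1020054732) (W3 := 13421774) (N0 := 3) (En := eng) (mo := mog) (C1 := cd1q2a) (C2 := cd2q2a) (C3 := pd0)
    rfl k0_pm_202_aa

noncomputable def cut_pm_202_ab : Cut := Cut.of [[⟨0, 1, 0, 38347922⟩, ⟨1, 0, 0, 38347922⟩, ⟨2, 1, 0, 38347922⟩]]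

noncomputable def f_pm_202_ab : ℕ → ℕ → ℕ → ℕ → Bool := onCell 0 536870912 1239849684 370763052 1020054732 13421774
    (rowB 3 eng mog cd1q2a cd2q2b pd0 0 false true false .pp 2 0 2 (qsf 0 536870912 1239849684 370763052 0) ndB1q2a ndB2q2b pcB0 cut_pm_202_ab Ext.none)

def k0_pm_202_ab : ∃ t, chk3 f_pm_202_ab t 1 1 1 = true :=
  ⟨(l 3), by decide +kernel⟩

theorem c_pm_202_ab : CertB 0 536870912 1239849684 370763052 1020054732 13421774 3 eng mog cd1q2a cd2q2b pd0 false true false .pp 2 0 2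
    ndB1q2a ndB2q2b pcB0 cut_pm_202_ab Ext.none :=
  certB0 (fam := false) (s1 := true) (s2 := false) (a := 2) (b := 0) (c := 2) (cn := .pp) (n1 := ndB1q2a) (n2 := ndB2q2b) (pc := pcB0) (cut := cut_pm_202_ab) (xt := Ext.none) (P1 := 0) (W1 := 536870912) (P2 := 1239849684) (W2 := 370763052) (P3 := 1020054732) (W3 := 13421774) (N0 := 3) (En := eng) (mo := mog) (C1 := cd1q2a) (C2 := cd2q2b) (C3 := pd0)
    rfl k0_pm_202_ab

noncomputable def cut_pm_202_ba : Cut := Cut.of [[⟨0, 1, 0, 38347922⟩, ⟨1, 0, 0, 38347922⟩, ⟨2, 1, 0, 38347922⟩]]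

noncomputable def f_pm_202_ba : ℕ → ℕ → ℕ → ℕ → Bool := onCell 1239849684 370763052 0 536870912 1020054732 13421774
    (rowB 3 eng mog cd1q2b cd2q2a pd0 0 false true false .pp 2 0 2 (qsf 1239849684 370763052 0 536870912 0) ndB1q2b ndB2q2a pcB0 cut_pm_202_ba Ext.none)

def k0_pm_202_ba : ∃ t, chk3 f_pm_202_ba t 1 1 1 = true :=
  ⟨(l 3), by decide +kernel⟩

theorem c_pm_202_ba : CertB 1239849684 370763052 0 536870912 1020054732 13421774 3 eng mog cd1q2b cd2q2a pd0 false true false .pp 2 0 2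
    ndB1q2b ndB2q2a pcB0 cut_pm_202_ba Ext.none :=
  certB0 (fam := false) (s1 := true) (s2 := false) (a := 2) (b := 0) (c := 2) (cn := .pp) (n1 := ndB1q2b) (n2 := ndB2q2a) (pc := pcB0) (cut := cut_pm_202_ba) (xt := Ext.none) (P1 := 1239849684) (W1 := 370763052) (P2 := 0) (W2 := 536870912) (P3 := 1020054732) (W3 := 13421774) (N0 := 3) (En := eng) (mo := mog) (C1 := cd1q2b) (C2 := cd2q2a) (C3 := pd0)
    rfl k0_pm_202_ba

noncomputable def cut_pm_202_bb : Cut := Cut.of [[⟨0, 1, 0, 38347922⟩, ⟨1, 0, 0, 38347922⟩, ⟨2, 1, 0, 38347922⟩]]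

noncomputable def f_pm_202_bb : ℕ → ℕ → ℕ → ℕ → Bool := onCell 1239849684 370763052 1239849684 370763052 1020054732 13421774
    (rowB 3 eng mog cd1q2b cd2q2b pd0 0 false true false .pp 2 0 2 (qsf 1239849684 370763052 1239849684 370763052 0) ndB1q2b ndB2q2b pcB0 cut_pm_202_bb Ext.none)

def k0_pm_202_bb : ∃ t, chk3 f_pm_202_bb t 1 1 1 = true :=
  ⟨(l 3), by decide +kernel⟩

theorem c_pm_202_bb : CertB 1239849684 370763052 1239849684 370763052 1020054732 13421774 3 eng mog cd1q2b cd2q2b pd0 false true false .pp 2 0 2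
    ndB1q2b ndB2q2b pcB0 cut_pm_202_bb Ext.none :=
  certB0 (fam := false) (s1 := true) (s2 := false) (a := 2) (b := 0) (c := 2) (cn := .pp) (n1 := ndB1q2b) (n2 := ndB2q2b) (pc := pcB0) (cut := cut_pm_202_bb) (xt := Ext.none) (P1 := 1239849684) (W1 := 370763052) (P2 := 1239849684) (W2 := 370763052) (P3 := 1020054732) (W3 := 13421774) (N0 := 3) (En := eng) (mo := mog) (C1 := cd1q2b) (C2 := cd2q2b) (C3 := pd0)
    rfl k0_pm_202_bb

noncomputable def f_pm_203_a : ℕ → ℕ → ℕ → ℕ → Bool := onCell 0 536870912 0 536870912 1020054732 13421774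
    (rowB 3 eng mog cd1q2a cd2q3 pd0 1 false true false .up 2 0 3 (qsf 0 536870912 1610612736 536870912 0) ndB1q2a ndB2q3 pcB0 Cut.none Ext.none)

def k0_pm_203_a : ∃ t, chk3 f_pm_203_a t 1 1 1 = true :=
  ⟨(l 3), by decide +kernel⟩

theorem c_pm_203_a : CertB 0 536870912 1610612736 536870912 1020054732 13421774 3 eng mog cd1q2a cd2q3 pd0 false true false .up 2 0 3
    ndB1q2a ndB2q3 pcB0 Cut.none Ext.none :=
  certB1 (fam := false) (s1 := true) (s2 := false) (a := 2) (b := 0) (c := 3) (cn := .up) (n1 := ndB1q2a) (n2 := ndB2q3) (pc := pcB0) (cut := Cut.none) (xt := Ext.none) (P1 := 0) (W1 := 536870912) (P2 := 1610612736) (W2 := 536870912) (P3 := 1020054732) (W3 := 13421774) (N0 := 3) (En := eng) (mo := mog) (C1 := cd1q2a) (C2 := cd2q3) (C3 := pd0)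
    rfl (fun _ => rfl) k0_pm_203_a

noncomputable def f_pm_203_b : ℕ → ℕ → ℕ → ℕ → Bool := onCell 1239849684 370763052 1610612736 536870912 1020054732 13421774
    (rowB 3 eng mog cd1q2b cd2q3 pd0 0 false true false .up 2 0 3 (qsf 1239849684 370763052 1610612736 536870912 0) ndB1q2b ndB2q3 pcB0 Cut.none Ext.none)

def k0_pm_203_b : ∃ t, chk3 f_pm_203_b t 1 1 1 = true :=
  ⟨(l 3), by decide +kernel⟩

theorem c_pm_203_b : CertB 1239849684 370763052 1610612736 536870912 1020054732 13421774 3 eng mog cd1q2b cd2q3 pd0 false true false .up 2 0 3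
    ndB1q2b ndB2q3 pcB0 Cut.none Ext.none :=
  certB0 (fam := false) (s1 := true) (s2 := false) (a := 2) (b := 0) (c := 3) (cn := .up) (n1 := ndB1q2b) (n2 := ndB2q3) (pc := pcB0) (cut := Cut.none) (xt := Ext.none) (P1 := 1239849684) (W1 := 370763052) (P2 := 1610612736) (W2 := 536870912) (P3 := 1020054732) (W3 := 13421774) (N0 := 3) (En := eng) (mo := mog) (C1 := cd1q2b) (C2 := cd2q3) (C3 := pd0)
    rfl k0_pm_203_b

noncomputable def cut_pm_213_a : Cut := Cut.of [[⟨0, 1, 0, 26738688⟩, ⟨1, 1, 0, 26738688⟩, ⟨2, 2, 0, 2621440⟩]]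

noncomputable def f_pm_213_a : ℕ → ℕ → ℕ → ℕ → Bool := onCell 0 536870912 1610612736 536870912 1020054732 13421774
    (rowB 3 eng mog cd1q2a cd2q3 pd1 0 false true false .pnn 2 1 3 (qsf 0 536870912 1610612736 536870912 1) ndB1q2a ndB2q3 pcB1 cut_pm_213_a Ext.none)

def k0_pm_213_a : ∃ t, chk3 f_pm_213_a t 1 1 1 = true :=
  ⟨(a (l 3) (b (l 3) (b (l 3) (a (l 3) (b (l 3) (a (l 3) (b (l 3) (a (l 3) (b (l 3) (b (l 3) (b (l 3) (b (l 3) (l 6))))))))))))), by decide +kernel⟩

theorem c_pm_213_a : CertB 0 536870912 1610612736 536870912 1020054732 13421774 3 eng mog cd1q2a cd2q3 pd1 false true false .pnn 2 1 3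
    ndB1q2a ndB2q3 pcB1 cut_pm_213_a Ext.none :=
  certB0 (fam := false) (s1 := true) (s2 := false) (a := 2) (b := 1) (c := 3) (cn := .pnn) (n1 := ndB1q2a) (n2 := ndB2q3) (pc := pcB1) (cut := cut_pm_213_a) (xt := Ext.none) (P1 := 0) (W1 := 536870912) (P2 := 1610612736) (W2 := 536870912) (P3 := 1020054732) (W3 := 13421774) (N0 := 3) (En := eng) (mo := mog) (C1 := cd1q2a) (C2 := cd2q3) (C3 := pd1)
    rfl k0_pm_213_a

noncomputable def cut_pm_213_b : Cut := Cut.of [[⟨0, 1, 0, 26738688⟩, ⟨1, 1, 0, 26738688⟩, ⟨2, 2, 0, 2621440⟩]]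

noncomputable def f_pm_213_b : ℕ → ℕ → ℕ → ℕ → Bool := onCell 1239849684 370763052 1610612736 536870912 1020054732 13421774
    (rowB 3 eng mog cd1q2b cd2q3 pd1 0 false true false .pnn 2 1 3 (qsf 1239849684 370763052 1610612736 536870912 1) ndB1q2b ndB2q3 pcB1 cut_pm_213_b Ext.none)

def k0_pm_213_b : ∃ t, chk3 f_pm_213_b t 1 1 1 = true :=
  ⟨(l 3), by decide +kernel⟩

theorem c_pm_213_b : CertB 1239849684 370763052 1610612736 536870912 1020054732 13421774 3 eng mog cd1q2b cd2q3 pd1 false true false .pnn 2 1 3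
    ndB1q2b ndB2q3 pcB1 cut_pm_213_b Ext.none :=
  certB0 (fam := false) (s1 := true) (s2 := false) (a := 2) (b := 1) (c := 3) (cn := .pnn) (n1 := ndB1q2b) (n2 := ndB2q3) (pc := pcB1) (cut := cut_pm_213_b) (xt := Ext.none) (P1 := 1239849684) (W1 := 370763052) (P2 := 1610612736) (W2 := 536870912) (P3 := 1020054732) (W3 := 13421774) (N0 := 3) (En := eng) (mo := mog) (C1 := cd1q2b) (C2 := cd2q3) (C3 := pd1)
    rfl k0_pm_213_b

noncomputable def f_pm_303 : ℕ → ℕ → ℕ → ℕ → Bool := onCell 1610612736 536870912 1610612736 536870912 1020054732 13421774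
    (rowB 3 eng mog cd1q3 cd2q3 pd0 0 false true false .npn 3 0 3 (qsf 1610612736 536870912 1610612736 536870912 0) ndB1q3 ndB2q3 pcB0 Cut.none Ext.none)

def k0_pm_303 : ∃ t, chk3 f_pm_303 t 1 1 1 = true :=
  ⟨(l 3), by decide +kernel⟩

theorem c_pm_303 : CertB 1610612736 536870912 1610612736 536870912 1020054732 13421774 3 eng mog cd1q3 cd2q3 pd0 false true false .npn 3 0 3
    ndB1q3 ndB2q3 pcB0 Cut.none Ext.none :=
  certB0 (fam := false) (s1 := true) (s2 := false) (a := 3) (b := 0) (c := 3) (cn := .npn) (n1 := ndB1q3) (n2 := ndB2q3) (pc := pcB0) (cut := Cut.none) (xt := Ext.none) (P1 := 1610612736) (W1 := 536870912) (P2 := 1610612736) (W2 := 536870912) (P3 := 1020054732) (W3 := 13421774) (N0 := 3) (En := eng) (mo := mog) (C1 := cd1q3) (C2 := cd2q3) (C3 := pd0)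
    rfl k0_pm_303

noncomputable def f_pm_313 : ℕ → ℕ → ℕ → ℕ → Bool := onCell 1610612736 536870912 1610612736 536870912 1020054732 13421774
    (rowB 3 eng mog cd1q3 cd2q3 pd1 0 false true false .dn 3 1 3 (qsf 1610612736 536870912 1610612736 536870912 1) ndB1q3 ndB2q3 pcB1 Cut.none Ext.none)

def k0_pm_313 : ∃ t, chk3 f_pm_313 t 1 1 1 = true :=
  ⟨(l 3), by decide +kernel⟩

theorem c_pm_313 : CertB 1610612736 536870912 1610612736 536870912 1020054732 13421774 3 eng mog cd1q3 cd2q3 pd1 false true false .dn 3 1 3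
    ndB1q3 ndB2q3 pcB1 Cut.none Ext.none :=
  certB0 (fam := false) (s1 := true) (s2 := false) (a := 3) (b := 1) (c := 3) (cn := .dn) (n1 := ndB1q3) (n2 := ndB2q3) (pc := pcB1) (cut := Cut.none) (xt := Ext.none) (P1 := 1610612736) (W1 := 536870912) (P2 := 1610612736) (W2 := 536870912) (P3 := 1020054732) (W3 := 13421774) (N0 := 3) (En := eng) (mo := mog) (C1 := cd1q3) (C2 := cd2q3) (C3 := pd1)
    rfl k0_pm_313

noncomputable def f_mm_001 : ℕ → ℕ → ℕ → ℕ → Bool := onCell 0 536870912 536870912 536870912 1020054732 13421774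
    (rowB 3 eng mog cd1q0 cd2q1 pd0 0 false false false .up 0 0 1 (qsf 0 536870912 536870912 536870912 0) ndB1q0 ndB2q1 pcB0 Cut.none Ext.none)

def k0_mm_001 : ∃ t, chk3 f_mm_001 t 1 1 1 = true :=
  ⟨(l 3), by decide +kernel⟩

theorem c_mm_001 : CertB 0 536870912 536870912 536870912 1020054732 13421774 3 eng mog cd1q0 cd2q1 pd0 false false false .up 0 0 1
    ndB1q0 ndB2q1 pcB0 Cut.none Ext.none :=
  certB0 (fam := false) (s1 := false) (s2 := false) (a := 0) (b := 0) (c := 1) (cn := .up) (n1 := ndB1q0) (n2 := ndB2q1) (pc := pcB0) (cut := Cut.none) (xt := Ext.none) (P1 := 0) (W1 := 536870912) (P2 := 536870912) (W2 := 536870912) (P3 := 1020054732) (W3 := 13421774) (N0 := 3) (En := eng) (mo := mog) (C1 := cd1q0) (C2 := cd2q1) (C3 := pd0)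
    rfl k0_mm_001

noncomputable def f_mm_011 : ℕ → ℕ → ℕ → ℕ → Bool := onCell 0 536870912 536870912 536870912 1020054732 13421774
    (rowB 3 eng mog cd1q0 cd2q1 pd1 0 false false false .pnn 0 1 1 (qsf 0 536870912 536870912 536870912 1) ndB1q0 ndB2q1 pcB1 Cut.none Ext.none)

def k0_mm_011 : ∃ t, chk3 f_mm_011 t 1 1 1 = true :=
  ⟨(l 3), by decide +kernel⟩

theorem c_mm_011 : CertB 0 536870912 536870912 536870912 1020054732 13421774 3 eng mog cd1q0 cd2q1 pd1 false false false .pnn 0 1 1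
    ndB1q0 ndB2q1 pcB1 Cut.none Ext.none :=
  certB0 (fam := false) (s1 := false) (s2 := false) (a := 0) (b := 1) (c := 1) (cn := .pnn) (n1 := ndB1q0) (n2 := ndB2q1) (pc := pcB1) (cut := Cut.none) (xt := Ext.none) (P1 := 0) (W1 := 536870912) (P2 := 536870912) (W2 := 536870912) (P3 := 1020054732) (W3 := 13421774) (N0 := 3) (En := eng) (mo := mog) (C1 := cd1q0) (C2 := cd2q1) (C3 := pd1)
    rfl k0_mm_011

noncomputable def f_mm_012_a : ℕ → ℕ → ℕ → ℕ → Bool := onCell 0 536870912 0 536870912 1020054732 13421774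
    (rowB 3 eng mog cd1q0 cd2q2a pd1 0 false false false .pnp 0 1 2 (qsf 0 536870912 0 536870912 1) ndB1q0 ndB2q2a pcB1 Cut.none Ext.none)

def k0_mm_012_a : ∃ t, chk3 f_mm_012_a t 1 1 1 = true :=
  ⟨(l 5), by decide +kernel⟩

theorem c_mm_012_a : CertB 0 536870912 0 536870912 1020054732 13421774 3 eng mog cd1q0 cd2q2a pd1 false false false .pnp 0 1 2
    ndB1q0 ndB2q2a pcB1 Cut.none Ext.none :=
  certB0 (fam := false) (s1 := false) (s2 := false) (a := 0) (b := 1) (c := 2) (cn := .pnp) (n1 := ndB1q0) (n2 := ndB2q2a) (pc := pcB1) (cut := Cut.none) (xt := Ext.none) (P1 := 0) (W1 := 536870912) (P2 := 0) (W2 := 536870912) (P3 := 1020054732) (W3 := 13421774) (N0 := 3) (En := eng) (mo := mog) (C1 := cd1q0) (C2 := cd2q2a) (C3 := pd1)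
    rfl k0_mm_012_a

noncomputable def f_mm_012_b : ℕ → ℕ → ℕ → ℕ → Bool := onCell 0 536870912 1239849684 370763052 1020054732 13421774
    (rowB 3 eng mog cd1q0 cd2q2b pd1 0 false false false .pnp 0 1 2 (qsf 0 536870912 1239849684 370763052 1) ndB1q0 ndB2q2b pcB1 Cut.none Ext.none)

def k0_mm_012_b : ∃ t, chk3 f_mm_012_b t 1 1 1 = true :=
  ⟨(l 5), by decide +kernel⟩

theorem c_mm_012_b : CertB 0 536870912 1239849684 370763052 1020054732 13421774 3 eng mog cd1q0 cd2q2b pd1 false false false .pnp 0 1 2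
    ndB1q0 ndB2q2b pcB1 Cut.none Ext.none :=
  certB0 (fam := false) (s1 := false) (s2 := false) (a := 0) (b := 1) (c := 2) (cn := .pnp) (n1 := ndB1q0) (n2 := ndB2q2b) (pc := pcB1) (cut := Cut.none) (xt := Ext.none) (P1 := 0) (W1 := 536870912) (P2 := 1239849684) (W2 := 370763052) (P3 := 1020054732) (W3 := 13421774) (N0 := 3) (En := eng) (mo := mog) (C1 := cd1q0) (C2 := cd2q2b) (C3 := pd1)
    rfl k0_mm_012_b

noncomputable def f_mm_022_a : ℕ → ℕ → ℕ → ℕ → Bool := onCell 0 536870912 0 536870912 1020054732 13421774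
    (rowB 3 eng mog cd1q0 cd2q2a pd2 0 false false false .pp 0 2 2 (qsf 0 536870912 0 536870912 2) ndB1q0 ndB2q2a pcB2 Cut.none Ext.none)

def k0_mm_022_a : ∃ t, chk3 f_mm_022_a t 1 1 1 = true :=
  ⟨(l 5), by decide +kernel⟩

theorem c_mm_022_a : CertB 0 536870912 0 536870912 1020054732 13421774 3 eng mog cd1q0 cd2q2a pd2 false false false .pp 0 2 2
    ndB1q0 ndB2q2a pcB2 Cut.none Ext.none :=
  certB0 (fam := false) (s1 := false) (s2 := false) (a := 0) (b := 2) (c := 2) (cn := .pp) (n1 := ndB1q0) (n2 := ndB2q2a) (pc := pcB2) (cut := Cut.none) (xt := Ext.none) (P1 := 0) (W1 := 536870912) (P2 := 0) (W2 := 536870912) (P3 := 1020054732) (W3 := 13421774) (N0 := 3) (En := eng) (mo := mog) (C1 := cd1q0) (C2 := cd2q2a) (C3 := pd2)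
    rfl k0_mm_022_a

noncomputable def f_mm_022_b : ℕ → ℕ → ℕ → ℕ → Bool := onCell 0 536870912 1239849684 370763052 1020054732 13421774
    (rowB 3 eng mog cd1q0 cd2q2b pd2 0 false false false .pp 0 2 2 (qsf 0 536870912 1239849684 370763052 2) ndB1q0 ndB2q2b pcB2 Cut.none Ext.none)

def k0_mm_022_b : ∃ t, chk3 f_mm_022_b t 1 1 1 = true :=
  ⟨(l 5), by decide +kernel⟩

theorem c_mm_022_b : CertB 0 536870912 1239849684 370763052 1020054732 13421774 3 eng mog cd1q0 cd2q2b pd2 false false false .pp 0 2 2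
    ndB1q0 ndB2q2b pcB2 Cut.none Ext.none :=
  certB0 (fam := false) (s1 := false) (s2 := false) (a := 0) (b := 2) (c := 2) (cn := .pp) (n1 := ndB1q0) (n2 := ndB2q2b) (pc := pcB2) (cut := Cut.none) (xt := Ext.none) (P1 := 0) (W1 := 536870912) (P2 := 1239849684) (W2 := 370763052) (P3 := 1020054732) (W3 := 13421774) (N0 := 3) (En := eng) (mo := mog) (C1 := cd1q0) (C2 := cd2q2b) (C3 := pd2)
    rfl k0_mm_022_b

noncomputable def f_mm_023 : ℕ → ℕ → ℕ → ℕ → Bool := onCell 0 536870912 1610612736 536870912 1020054732 13421774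
    (rowB 3 eng mog cd1q0 cd2q3 pd2 0 false false false .up 0 2 3 (qsf 0 536870912 1610612736 536870912 2) ndB1q0 ndB2q3 pcB2 Cut.none Ext.none)

def k0_mm_023 : ∃ t, chk3 f_mm_023 t 1 1 1 = true :=
  ⟨(l 5), by decide +kernel⟩

theorem c_mm_023 : CertB 0 536870912 1610612736 536870912 1020054732 13421774 3 eng mog cd1q0 cd2q3 pd2 false false false .up 0 2 3
    ndB1q0 ndB2q3 pcB2 Cut.none Ext.none :=
  certB0 (fam := false) (s1 := false) (s2 := false) (a := 0) (b := 2) (c := 3) (cn := .up) (n1 := ndB1q0) (n2 := ndB2q3) (pc := pcB2) (cut := Cut.none) (xt := Ext.none) (P1 := 0) (W1 := 536870912) (P2 := 1610612736) (W2 := 536870912) (P3 := 1020054732) (W3 := 13421774) (N0 := 3) (En := eng) (mo := mog) (C1 := cd1q0) (C2 := cd2q3) (C3 := pd2)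
    rfl k0_mm_023

noncomputable def f_mm_033 : ℕ → ℕ → ℕ → ℕ → Bool := onCell 0 536870912 1610612736 536870912 1020054732 13421774
    (rowB 3 eng mog cd1q0 cd2q3 pd3 0 false false false .pnn 0 3 3 (qsf 0 536870912 1610612736 536870912 3) ndB1q0 ndB2q3 pcB3 Cut.none Ext.none)

def k0_mm_033 : ∃ t, chk3 f_mm_033 t 1 1 1 = true :=
  ⟨(l 5), by decide +kernel⟩

theorem c_mm_033 : CertB 0 536870912 1610612736 536870912 1020054732 13421774 3 eng mog cd1q0 cd2q3 pd3 false false false .pnn 0 3 3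
    ndB1q0 ndB2q3 pcB3 Cut.none Ext.none :=
  certB0 (fam := false) (s1 := false) (s2 := false) (a := 0) (b := 3) (c := 3) (cn := .pnn) (n1 := ndB1q0) (n2 := ndB2q3) (pc := pcB3) (cut := Cut.none) (xt := Ext.none) (P1 := 0) (W1 := 536870912) (P2 := 1610612736) (W2 := 536870912) (P3 := 1020054732) (W3 := 13421774) (N0 := 3) (En := eng) (mo := mog) (C1 := cd1q0) (C2 := cd2q3) (C3 := pd3)
    rfl k0_mm_033

noncomputable def f_mm_101 : ℕ → ℕ → ℕ → ℕ → Bool := onCell 536870912 536870912 536870912 536870912 1020054732 13421774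
    (rowB 3 eng mog cd1q1 cd2q1 pd0 0 false false false .npn 1 0 1 (qsf 536870912 536870912 536870912 536870912 0) ndB1q1 ndB2q1 pcB0 Cut.none Ext.none)

def k0_mm_101 : ∃ t, chk3 f_mm_101 t 1 1 1 = true :=
  ⟨(l 3), by decide +kernel⟩

theorem c_mm_101 : CertB 536870912 536870912 536870912 536870912 1020054732 13421774 3 eng mog cd1q1 cd2q1 pd0 false false false .npn 1 0 1
    ndB1q1 ndB2q1 pcB0 Cut.none Ext.none :=
  certB0 (fam := false) (s1 := false) (s2 := false) (a := 1) (b := 0) (c := 1) (cn := .npn) (n1 := ndB1q1) (n2 := ndB2q1) (pc := pcB0) (cut := Cut.none) (xt := Ext.none) (P1 := 536870912) (W1 := 536870912) (P2 := 536870912) (W2 := 536870912) (P3 := 1020054732) (W3 := 13421774) (N0 := 3) (En := eng) (mo := mog) (C1 := cd1q1) (C2 := cd2q1) (C3 := pd0)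
    rfl k0_mm_101

noncomputable def f_mm_102_a : ℕ → ℕ → ℕ → ℕ → Bool := onCell 536870912 536870912 0 536870912 1020054732 13421774
    (rowB 3 eng mog cd1q1 cd2q2a pd0 0 false false false .npp 1 0 2 (qsf 536870912 536870912 0 536870912 0) ndB1q1 ndB2q2a pcB0 Cut.none Ext.none)

def k0_mm_102_a : ∃ t, chk3 f_mm_102_a t 1 1 1 = true :=
  ⟨(l 5), by decide +kernel⟩

theorem c_mm_102_a : CertB 536870912 536870912 0 536870912 1020054732 13421774 3 eng mog cd1q1 cd2q2a pd0 false false false .npp 1 0 2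
    ndB1q1 ndB2q2a pcB0 Cut.none Ext.none :=
  certB0 (fam := false) (s1 := false) (s2 := false) (a := 1) (b := 0) (c := 2) (cn := .npp) (n1 := ndB1q1) (n2 := ndB2q2a) (pc := pcB0) (cut := Cut.none) (xt := Ext.none) (P1 := 536870912) (W1 := 536870912) (P2 := 0) (W2 := 536870912) (P3 := 1020054732) (W3 := 13421774) (N0 := 3) (En := eng) (mo := mog) (C1 := cd1q1) (C2 := cd2q2a) (C3 := pd0)
    rfl k0_mm_102_a

noncomputable def f_mm_102_b : ℕ → ℕ → ℕ → ℕ → Bool := onCell 536870912 536870912 1239849684 370763052 1020054732 13421774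
    (rowB 3 eng mog cd1q1 cd2q2b pd0 0 false false false .npp 1 0 2 (qsf 536870912 536870912 1239849684 370763052 0) ndB1q1 ndB2q2b pcB0 Cut.none Ext.none)

def k0_mm_102_b : ∃ t, chk3 f_mm_102_b t 1 1 1 = true :=
  ⟨(l 5), by decide +kernel⟩

theorem c_mm_102_b : CertB 536870912 536870912 1239849684 370763052 1020054732 13421774 3 eng mog cd1q1 cd2q2b pd0 false false false .npp 1 0 2
    ndB1q1 ndB2q2b pcB0 Cut.none Ext.none :=
  certB0 (fam := false) (s1 := false) (s2 := false) (a := 1) (b := 0) (c := 2) (cn := .npp) (n1 := ndB1q1) (n2 := ndB2q2b) (pc := pcB0) (cut := Cut.none) (xt := Ext.none) (P1 := 536870912) (W1 := 536870912) (P2 := 1239849684) (W2 := 370763052) (P3 := 1020054732) (W3 := 13421774) (N0 := 3) (En := eng) (mo := mog) (C1 := cd1q1) (C2 := cd2q2b) (C3 := pd0)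
    rfl k0_mm_102_b

noncomputable def f_mm_112_a : ℕ → ℕ → ℕ → ℕ → Bool := onCell 536870912 536870912 0 536870912 1020054732 13421774
    (rowB 3 eng mog cd1q1 cd2q2a pd1 0 false false false .dn 1 1 2 (qsf 536870912 536870912 0 536870912 1) ndB1q1 ndB2q2a pcB1 Cut.none Ext.none)

def k0_mm_112_a : ∃ t, chk3 f_mm_112_a t 1 1 1 = true :=
  ⟨(l 5), by decide +kernel⟩

theorem c_mm_112_a : CertB 536870912 536870912 0 536870912 1020054732 13421774 3 eng mog cd1q1 cd2q2a pd1 false false false .dn 1 1 2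
    ndB1q1 ndB2q2a pcB1 Cut.none Ext.none :=
  certB0 (fam := false) (s1 := false) (s2 := false) (a := 1) (b := 1) (c := 2) (cn := .dn) (n1 := ndB1q1) (n2 := ndB2q2a) (pc := pcB1) (cut := Cut.none) (xt := Ext.none) (P1 := 536870912) (W1 := 536870912) (P2 := 0) (W2 := 536870912) (P3 := 1020054732) (W3 := 13421774) (N0 := 3) (En := eng) (mo := mog) (C1 := cd1q1) (C2 := cd2q2a) (C3 := pd1)
    rfl k0_mm_112_a

noncomputable def f_mm_112_b : ℕ → ℕ → ℕ → ℕ → Bool := onCell 536870912 536870912 1239849684 370763052 1020054732 13421774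
    (rowB 3 eng mog cd1q1 cd2q2b pd1 0 false false false .dn 1 1 2 (qsf 536870912 536870912 1239849684 370763052 1) ndB1q1 ndB2q2b pcB1 Cut.none Ext.none)

def k0_mm_112_b : ∃ t, chk3 f_mm_112_b t 1 1 1 = true :=
  ⟨(l 5), by decide +kernel⟩

theorem c_mm_112_b : CertB 536870912 536870912 1239849684 370763052 1020054732 13421774 3 eng mog cd1q1 cd2q2b pd1 false false false .dn 1 1 2
    ndB1q1 ndB2q2b pcB1 Cut.none Ext.none :=
  certB0 (fam := false) (s1 := false) (s2 := false) (a := 1) (b := 1) (c := 2) (cn := .dn) (n1 := ndB1q1) (n2 := ndB2q2b) (pc := pcB1) (cut := Cut.none) (xt := Ext.none) (P1 := 536870912) (W1 := 536870912) (P2 := 1239849684) (W2 := 370763052) (P3 := 1020054732) (W3 := 13421774) (N0 := 3) (En := eng) (mo := mog) (C1 := cd1q1) (C2 := cd2q2b) (C3 := pd1)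
    rfl k0_mm_112_b

noncomputable def f_mm_113 : ℕ → ℕ → ℕ → ℕ → Bool := onCell 536870912 536870912 1610612736 536870912 1020054732 13421774
    (rowB 3 eng mog cd1q1 cd2q3 pd1 0 false false false .nn 1 1 3 (qsf 536870912 536870912 1610612736 536870912 1) ndB1q1 ndB2q3 pcB1 Cut.none Ext.none)

def k0_mm_113 : ∃ t, chk3 f_mm_113 t 1 1 1 = true :=
  ⟨(l 5), by decide +kernel⟩

theorem c_mm_113 : CertB 536870912 536870912 1610612736 536870912 1020054732 13421774 3 eng mog cd1q1 cd2q3 pd1 false false false .nn 1 1 3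
    ndB1q1 ndB2q3 pcB1 Cut.none Ext.none :=
  certB0 (fam := false) (s1 := false) (s2 := false) (a := 1) (b := 1) (c := 3) (cn := .nn) (n1 := ndB1q1) (n2 := ndB2q3) (pc := pcB1) (cut := Cut.none) (xt := Ext.none) (P1 := 536870912) (W1 := 536870912) (P2 := 1610612736) (W2 := 536870912) (P3 := 1020054732) (W3 := 13421774) (N0 := 3) (En := eng) (mo := mog) (C1 := cd1q1) (C2 := cd2q3) (C3 := pd1)
    rfl k0_mm_113

noncomputable def f_mm_123 : ℕ → ℕ → ℕ → ℕ → Bool := onCell 536870912 536870912 1610612736 536870912 1020054732 13421774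
    (rowB 3 eng mog cd1q1 cd2q3 pd2 0 false false false .npn 1 2 3 (qsf 536870912 536870912 1610612736 536870912 2) ndB1q1 ndB2q3 pcB2 Cut.none Ext.none)

def k0_mm_123 : ∃ t, chk3 f_mm_123 t 1 1 1 = true :=
  ⟨(l 5), by decide +kernel⟩

theorem c_mm_123 : CertB 536870912 536870912 1610612736 536870912 1020054732 13421774 3 eng mog cd1q1 cd2q3 pd2 false false false .npn 1 2 3
    ndB1q1 ndB2q3 pcB2 Cut.none Ext.none :=
  certB0 (fam := false) (s1 := false) (s2 := false) (a := 1) (b := 2) (c := 3) (cn := .npn) (n1 := ndB1q1) (n2 := ndB2q3) (pc := pcB2) (cut := Cut.none) (xt := Ext.none) (P1 := 536870912) (W1 := 536870912) (P2 := 1610612736) (W2 := 536870912) (P3 := 1020054732) (W3 := 13421774) (N0 := 3) (En := eng) (mo := mog) (C1 := cd1q1) (C2 := cd2q3) (C3 := pd2)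
    rfl k0_mm_123

noncomputable def f_mm_133 : ℕ → ℕ → ℕ → ℕ → Bool := onCell 536870912 536870912 1610612736 536870912 1020054732 13421774
    (rowB 3 eng mog cd1q1 cd2q3 pd3 0 false false false .dn 1 3 3 (qsf 536870912 536870912 1610612736 536870912 3) ndB1q1 ndB2q3 pcB3 Cut.none Ext.none)

def k0_mm_133 : ∃ t, chk3 f_mm_133 t 1 1 1 = true :=
  ⟨(l 5), by decide +kernel⟩

theorem c_mm_133 : CertB 536870912 536870912 1610612736 536870912 1020054732 13421774 3 eng mog cd1q1 cd2q3 pd3 false false false .dn 1 3 3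
    ndB1q1 ndB2q3 pcB3 Cut.none Ext.none :=
  certB0 (fam := false) (s1 := false) (s2 := false) (a := 1) (b := 3) (c := 3) (cn := .dn) (n1 := ndB1q1) (n2 := ndB2q3) (pc := pcB3) (cut := Cut.none) (xt := Ext.none) (P1 := 536870912) (W1 := 536870912) (P2 := 1610612736) (W2 := 536870912) (P3 := 1020054732) (W3 := 13421774) (N0 := 3) (En := eng) (mo := mog) (C1 := cd1q1) (C2 := cd2q3) (C3 := pd3)
    rfl k0_mm_133

noncomputable def f_mm_202_aa : ℕ → ℕ → ℕ → ℕ → Bool := onCell 0 536870912 0 536870912 1020054732 13421774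
    (rowB 3 eng mog cd1q2a cd2q2a pd0 0 false false false .pp 2 0 2 (qsf 0 536870912 0 536870912 0) ndB1q2a ndB2q2a pcB0 Cut.none Ext.none)

def k0_mm_202_aa : ∃ t, chk3 f_mm_202_aa t 1 1 1 = true :=
  ⟨(l 3), by decide +kernel⟩

theorem c_mm_202_aa : CertB 0 536870912 0 536870912 1020054732 13421774 3 eng mog cd1q2a cd2q2a pd0 false false false .pp 2 0 2
    ndB1q2a ndB2q2a pcB0 Cut.none Ext.none :=
  certB0 (fam := false) (s1 := false) (s2 := false) (a := 2) (b := 0) (c := 2) (cn := .pp) (n1 := ndB1q2a) (n2 := ndB2q2a) (pc := pcB0) (cut := Cut.none) (xt := Ext.none) (P1 := 0) (W1 := 536870912) (P2 := 0) (W2 := 536870912) (P3 := 1020054732) (W3 := 13421774) (N0 := 3) (En := eng) (mo := mog) (C1 := cd1q2a) (C2 := cd2q2a) (C3 := pd0)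
    rfl k0_mm_202_aa

noncomputable def f_mm_202_ab : ℕ → ℕ → ℕ → ℕ → Bool := onCell 0 536870912 1239849684 370763052 1020054732 13421774
    (rowB 3 eng mog cd1q2a cd2q2b pd0 0 false false false .pp 2 0 2 (qsf 0 536870912 1239849684 370763052 0) ndB1q2a ndB2q2b pcB0 Cut.none Ext.none)

def k0_mm_202_ab : ∃ t, chk3 f_mm_202_ab t 1 1 1 = true :=
  ⟨(l 3), by decide +kernel⟩

theorem c_mm_202_ab : CertB 0 536870912 1239849684 370763052 1020054732 13421774 3 eng mog cd1q2a cd2q2b pd0 false false false .pp 2 0 2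
    ndB1q2a ndB2q2b pcB0 Cut.none Ext.none :=
  certB0 (fam := false) (s1 := false) (s2 := false) (a := 2) (b := 0) (c := 2) (cn := .pp) (n1 := ndB1q2a) (n2 := ndB2q2b) (pc := pcB0) (cut := Cut.none) (xt := Ext.none) (P1 := 0) (W1 := 536870912) (P2 := 1239849684) (W2 := 370763052) (P3 := 1020054732) (W3 := 13421774) (N0 := 3) (En := eng) (mo := mog) (C1 := cd1q2a) (C2 := cd2q2b) (C3 := pd0)
    rfl k0_mm_202_ab

noncomputable def f_mm_202_ba : ℕ → ℕ → ℕ → ℕ → Bool := onCell 1239849684 370763052 0 536870912 1020054732 13421774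
    (rowB 3 eng mog cd1q2b cd2q2a pd0 0 false false false .pp 2 0 2 (qsf 1239849684 370763052 0 536870912 0) ndB1q2b ndB2q2a pcB0 Cut.none Ext.none)

def k0_mm_202_ba : ∃ t, chk3 f_mm_202_ba t 1 1 1 = true :=
  ⟨(l 3), by decide +kernel⟩

theorem c_mm_202_ba : CertB 1239849684 370763052 0 536870912 1020054732 13421774 3 eng mog cd1q2b cd2q2a pd0 false false false .pp 2 0 2
    ndB1q2b ndB2q2a pcB0 Cut.none Ext.none :=
  certB0 (fam := false) (s1 := false) (s2 := false) (a := 2) (b := 0) (c := 2) (cn := .pp) (n1 := ndB1q2b) (n2 := ndB2q2a) (pc := pcB0) (cut := Cut.none) (xt := Ext.none) (P1 := 1239849684) (W1 := 370763052) (P2 := 0) (W2 := 536870912) (P3 := 1020054732) (W3 := 13421774) (N0 := 3) (En := eng) (mo := mog) (C1 := cd1q2b) (C2 := cd2q2a) (C3 := pd0)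
    rfl k0_mm_202_ba

noncomputable def f_mm_202_bb : ℕ → ℕ → ℕ → ℕ → Bool := onCell 1239849684 370763052 1239849684 370763052 1020054732 13421774
    (rowB 3 eng mog cd1q2b cd2q2b pd0 0 false false false .pp 2 0 2 (qsf 1239849684 370763052 1239849684 370763052 0) ndB1q2b ndB2q2b pcB0 Cut.none Ext.none)

def k0_mm_202_bb : ∃ t, chk3 f_mm_202_bb t 1 1 1 = true :=
  ⟨(l 3), by decide +kernel⟩

theorem c_mm_202_bb : CertB 1239849684 370763052 1239849684 370763052 1020054732 13421774 3 eng mog cd1q2b cd2q2b pd0 false false false .pp 2 0 2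
    ndB1q2b ndB2q2b pcB0 Cut.none Ext.none :=
  certB0 (fam := false) (s1 := false) (s2 := false) (a := 2) (b := 0) (c := 2) (cn := .pp) (n1 := ndB1q2b) (n2 := ndB2q2b) (pc := pcB0) (cut := Cut.none) (xt := Ext.none) (P1 := 1239849684) (W1 := 370763052) (P2 := 1239849684) (W2 := 370763052) (P3 := 1020054732) (W3 := 13421774) (N0 := 3) (En := eng) (mo := mog) (C1 := cd1q2b) (C2 := cd2q2b) (C3 := pd0)
    rfl k0_mm_202_bb

noncomputable def f_mm_203_a : ℕ → ℕ → ℕ → ℕ → Bool := onCell 0 536870912 0 536870912 1020054732 13421774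
    (rowB 3 eng mog cd1q2a cd2q3 pd0 1 false false false .up 2 0 3 (qsf 0 536870912 1610612736 536870912 0) ndB1q2a ndB2q3 pcB0 Cut.none Ext.none)

def k0_mm_203_a : ∃ t, chk3 f_mm_203_a t 1 1 1 = true :=
  ⟨(l 3), by decide +kernel⟩

theorem c_mm_203_a : CertB 0 536870912 1610612736 536870912 1020054732 13421774 3 eng mog cd1q2a cd2q3 pd0 false false false .up 2 0 3
    ndB1q2a ndB2q3 pcB0 Cut.none Ext.none :=
  certB1 (fam := false) (s1 := false) (s2 := false) (a := 2) (b := 0) (c := 3) (cn := .up) (n1 := ndB1q2a) (n2 := ndB2q3) (pc := pcB0) (cut := Cut.none) (xt := Ext.none) (P1 := 0) (W1 := 536870912) (P2 := 1610612736) (W2 := 536870912) (P3 := 1020054732) (W3 := 13421774) (N0 := 3) (En := eng) (mo := mog) (C1 := cd1q2a) (C2 := cd2q3) (C3 := pd0)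
    rfl (fun _ => rfl) k0_mm_203_a

noncomputable def f_mm_203_b : ℕ → ℕ → ℕ → ℕ → Bool := onCell 1239849684 370763052 1610612736 536870912 1020054732 13421774
    (rowB 3 eng mog cd1q2b cd2q3 pd0 0 false false false .up 2 0 3 (qsf 1239849684 370763052 1610612736 536870912 0) ndB1q2b ndB2q3 pcB0 Cut.none Ext.none)

def k0_mm_203_b : ∃ t, chk3 f_mm_203_b t 1 1 1 = true :=
  ⟨(l 3), by decide +kernel⟩

theorem c_mm_203_b : CertB 1239849684 370763052 1610612736 536870912 1020054732 13421774 3 eng mog cd1q2b cd2q3 pd0 false false false .up 2 0 3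
    ndB1q2b ndB2q3 pcB0 Cut.none Ext.none :=
  certB0 (fam := false) (s1 := false) (s2 := false) (a := 2) (b := 0) (c := 3) (cn := .up) (n1 := ndB1q2b) (n2 := ndB2q3) (pc := pcB0) (cut := Cut.none) (xt := Ext.none) (P1 := 1239849684) (W1 := 370763052) (P2 := 1610612736) (W2 := 536870912) (P3 := 1020054732) (W3 := 13421774) (N0 := 3) (En := eng) (mo := mog) (C1 := cd1q2b) (C2 := cd2q3) (C3 := pd0)
    rfl k0_mm_203_b

noncomputable def f_mm_213_a : ℕ → ℕ → ℕ → ℕ → Bool := onCell 0 536870912 1610612736 536870912 1020054732 13421774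
    (rowB 3 eng mog cd1q2a cd2q3 pd1 0 false false false .pnn 2 1 3 (qsf 0 536870912 1610612736 536870912 1) ndB1q2a ndB2q3 pcB1 Cut.none Ext.none)

def k0_mm_213_a : ∃ t, chk3 f_mm_213_a t 1 1 1 = true :=
  ⟨(a (l 3) (l 5)), by decide +kernel⟩

theorem c_mm_213_a : CertB 0 536870912 1610612736 536870912 1020054732 13421774 3 eng mog cd1q2a cd2q3 pd1 false false false .pnn 2 1 3
    ndB1q2a ndB2q3 pcB1 Cut.none Ext.none :=
  certB0 (fam := false) (s1 := false) (s2 := false) (a := 2) (b := 1) (c := 3) (cn := .pnn) (n1 := ndB1q2a) (n2 := ndB2q3) (pc := pcB1) (cut := Cut.none) (xt := Ext.none) (P1 := 0) (W1 := 536870912) (P2 := 1610612736) (W2 := 536870912) (P3 := 1020054732) (W3 := 13421774) (N0 := 3) (En := eng) (mo := mog) (C1 := cd1q2a) (C2 := cd2q3) (C3 := pd1)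
    rfl k0_mm_213_a

noncomputable def f_mm_213_b : ℕ → ℕ → ℕ → ℕ → Bool := onCell 1239849684 370763052 1610612736 536870912 1020054732 13421774
    (rowB 3 eng mog cd1q2b cd2q3 pd1 0 false false false .pnn 2 1 3 (qsf 1239849684 370763052 1610612736 536870912 1) ndB1q2b ndB2q3 pcB1 Cut.none Ext.none)

def k0_mm_213_b : ∃ t, chk3 f_mm_213_b t 1 1 1 = true :=
  ⟨(l 3), by decide +kernel⟩

theorem c_mm_213_b : CertB 1239849684 370763052 1610612736 536870912 1020054732 13421774 3 eng mog cd1q2b cd2q3 pd1 false false false .pnn 2 1 3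
    ndB1q2b ndB2q3 pcB1 Cut.none Ext.none :=
  certB0 (fam := false) (s1 := false) (s2 := false) (a := 2) (b := 1) (c := 3) (cn := .pnn) (n1 := ndB1q2b) (n2 := ndB2q3) (pc := pcB1) (cut := Cut.none) (xt := Ext.none) (P1 := 1239849684) (W1 := 370763052) (P2 := 1610612736) (W2 := 536870912) (P3 := 1020054732) (W3 := 13421774) (N0 := 3) (En := eng) (mo := mog) (C1 := cd1q2b) (C2 := cd2q3) (C3 := pd1)
    rfl k0_mm_213_b

noncomputable def f_mm_303 : ℕ → ℕ → ℕ → ℕ → Bool := onCell 1610612736 536870912 1610612736 536870912 1020054732 13421774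
    (rowB 3 eng mog cd1q3 cd2q3 pd0 0 false false false .npn 3 0 3 (qsf 1610612736 536870912 1610612736 536870912 0) ndB1q3 ndB2q3 pcB0 Cut.none Ext.none)

def k0_mm_303 : ∃ t, chk3 f_mm_303 t 1 1 1 = true :=
  ⟨(l 3), by decide +kernel⟩

theorem c_mm_303 : CertB 1610612736 536870912 1610612736 536870912 1020054732 13421774 3 eng mog cd1q3 cd2q3 pd0 false false false .npn 3 0 3
    ndB1q3 ndB2q3 pcB0 Cut.none Ext.none :=
  certB0 (fam := false) (s1 := false) (s2 := false) (a := 3) (b := 0) (c := 3) (cn := .npn) (n1 := ndB1q3) (n2 := ndB2q3) (pc := pcB0) (cut := Cut.none) (xt := Ext.none) (P1 := 1610612736) (W1 := 536870912) (P2 := 1610612736) (W2 := 536870912) (P3 := 1020054732) (W3 := 13421774) (N0 := 3) (En := eng) (mo := mog) (C1 := cd1q3) (C2 := cd2q3) (C3 := pd0)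
    rfl k0_mm_303

noncomputable def f_mm_313 : ℕ → ℕ → ℕ → ℕ → Bool := onCell 1610612736 536870912 1610612736 536870912 1020054732 13421774
    (rowB 3 eng mog cd1q3 cd2q3 pd1 0 false false false .dn 3 1 3 (qsf 1610612736 536870912 1610612736 536870912 1) ndB1q3 ndB2q3 pcB1 Cut.none Ext.none)

def k0_mm_313 : ∃ t, chk3 f_mm_313 t 1 1 1 = true :=
  ⟨(l 3), by decide +kernel⟩

theorem c_mm_313 : CertB 1610612736 536870912 1610612736 536870912 1020054732 13421774 3 eng mog cd1q3 cd2q3 pd1 false false false .dn 3 1 3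
    ndB1q3 ndB2q3 pcB1 Cut.none Ext.none :=
  certB0 (fam := false) (s1 := false) (s2 := false) (a := 3) (b := 1) (c := 3) (cn := .dn) (n1 := ndB1q3) (n2 := ndB2q3) (pc := pcB1) (cut := Cut.none) (xt := Ext.none) (P1 := 1610612736) (W1 := 536870912) (P2 := 1610612736) (W2 := 536870912) (P3 := 1020054732) (W3 := 13421774) (N0 := 3) (En := eng) (mo := mog) (C1 := cd1q3) (C2 := cd2q3) (C3 := pd1)
    rfl k0_mm_313

end Pool.Agent.Strip051.G.I9500_9625.Tab.C.BB12

namespace Pool.Agent.Strip051.G.I9500_9625.Tab.C.BB13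

open Pool.Agent.Strip051.PB Pool.Agent.Strip051.PB.T
open Pool.Agent.Strip051.G.I9500_9625.Tab

noncomputable def f_pp_001 : ℕ → ℕ → ℕ → ℕ → Bool := onCell 0 536870912 0 536870912 1020054732 13421774
    (rowB 3 eng mog cd1q0 cd3q1 pd0 1 false true true .up 0 0 1 (qsf 0 536870912 536870912 536870912 0) ndB1q0 ndB3q1 pcB0 Cut.none Ext.none)

def k0_pp_001 : ∃ t, chk3 f_pp_001 t 1 1 1 = true :=
  ⟨(l 3), by decide +kernel⟩

theorem c_pp_001 : CertB 0 536870912 536870912 536870912 1020054732 13421774 3 eng mog cd1q0 cd3q1 pd0 false true true .up 0 0 1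
    ndB1q0 ndB3q1 pcB0 Cut.none Ext.none :=
  certB1 (fam := false) (s1 := true) (s2 := true) (a := 0) (b := 0) (c := 1) (cn := .up) (n1 := ndB1q0) (n2 := ndB3q1) (pc := pcB0) (cut := Cut.none) (xt := Ext.none) (P1 := 0) (W1 := 536870912) (P2 := 536870912) (W2 := 536870912) (P3 := 1020054732) (W3 := 13421774) (N0 := 3) (En := eng) (mo := mog) (C1 := cd1q0) (C2 := cd3q1) (C3 := pd0)
    rfl (fun _ => rfl) k0_pp_001

noncomputable def cut_pp_011 : Cut := Cut.of [[⟨0, 0, 0, 38347922⟩, ⟨1, 1, 0, 38347922⟩, ⟨2, 1, 0, 38347922⟩]]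

noncomputable def f_pp_011 : ℕ → ℕ → ℕ → ℕ → Bool := onCell 0 536870912 536870912 536870912 1020054732 13421774
    (rowB 3 eng mog cd1q0 cd3q1 pd1 1 false true true .pnn 0 1 1 (qsf 0 536870912 536870912 536870912 1) ndB1q0 ndB3q1 pcB1 cut_pp_011 Ext.none)

def k0_pp_011 : ∃ t, chk3 f_pp_011 t 1 1 1 = true :=
  ⟨(b (l 3) (b (l 3) (b (l 3) (a (a (a (b (l 3) (a (l 6) (l 3))) (l 3)) (l 2)) (l 2))))), by decide +kernel⟩

theorem c_pp_011 : CertB 0 536870912 536870912 536870912 1020054732 13421774 3 eng mog cd1q0 cd3q1 pd1 false true true .pnn 0 1 1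
    ndB1q0 ndB3q1 pcB1 cut_pp_011 Ext.none :=
  certB1 (fam := false) (s1 := true) (s2 := true) (a := 0) (b := 1) (c := 1) (cn := .pnn) (n1 := ndB1q0) (n2 := ndB3q1) (pc := pcB1) (cut := cut_pp_011) (xt := Ext.none) (P1 := 0) (W1 := 536870912) (P2 := 536870912) (W2 := 536870912) (P3 := 1020054732) (W3 := 13421774) (N0 := 3) (En := eng) (mo := mog) (C1 := cd1q0) (C2 := cd3q1) (C3 := pd1)
    rfl (fun _ => rfl) k0_pp_011

noncomputable def f_pp_012 : ℕ → ℕ → ℕ → ℕ → Bool := onCell 0 536870912 536870912 536870912 1020054732 13421774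
    (rowB 3 eng mog cd1q0 cd3q2 pd1 1 false true true .pnp 0 1 2 (qsf 0 536870912 1073741824 536870912 1) ndB1q0 ndB3q2 pcB1 Cut.none Ext.none)

def k0_pp_012 : ∃ t, chk3 f_pp_012 t 1 1 1 = true :=
  ⟨(b (l 3) (b (l 3) (b (l 3) (a (a (l 3) (b (l 3) (a (l 3) (b (l 3) (b (l 3) (a (l 15860920) (l 15836480))))))) (b (a (l 3) (a (l 3) (c (l 436104131271) (l 455431700135)))) (a (b (a (l 3) (a (l 481201561959) (l 225650865511))) (a (c (a (l 15750768) (l 15657384)) (l 193975754535)) (c (l 15431520) (l 15663880)))) (b (a (a (l 208470872231) (l 191827768055)) (c (l 15449520) (l 15565104))) (a (c (l 15410672) (l 15541256)) (c (l 15325464) (l 15452272)))))))))), by decide +kernel⟩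

theorem c_pp_012 : CertB 0 536870912 1073741824 536870912 1020054732 13421774 3 eng mog cd1q0 cd3q2 pd1 false true true .pnp 0 1 2
    ndB1q0 ndB3q2 pcB1 Cut.none Ext.none :=
  certB1 (fam := false) (s1 := true) (s2 := true) (a := 0) (b := 1) (c := 2) (cn := .pnp) (n1 := ndB1q0) (n2 := ndB3q2) (pc := pcB1) (cut := Cut.none) (xt := Ext.none) (P1 := 0) (W1 := 536870912) (P2 := 1073741824) (W2 := 536870912) (P3 := 1020054732) (W3 := 13421774) (N0 := 3) (En := eng) (mo := mog) (C1 := cd1q0) (C2 := cd3q2) (C3 := pd1)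
    rfl (fun _ => rfl) k0_pp_012

noncomputable def f_pp_022 : ℕ → ℕ → ℕ → ℕ → Bool := onCell 0 536870912 1073741824 536870912 1020054732 13421774
    (rowB 3 eng mog cd1q0 cd3q2 pd2 1 false true true .pp 0 2 2 (qsf 0 536870912 1073741824 536870912 2) ndB1q0 ndB3q2 pcB2 Cut.none Ext.none)

def k0_pp_022 : ∃ t, chk3 f_pp_022 t 4 16 1 = true :=
  ⟨(b (b (l 3) (a (l 3) (a (a (l 3) (l 937543467463)) (b (l 948817447719) (a (b (l 16378776) (l 16381760)) (b (l 16312216) (l 16311560))))))) (b (b (a (l 3) (a (a (l 16416872) (a (l 16469000) (l 16413344))) (a (c (l 16347568) (l 16412128)) (l 16305016)))) (a (a (l 3) (a (l 964924390295) (a (l 16551104) (l 16536048)))) (a (a (a (l 16500352) (l 16443032)) (c (l 16420144) (l 16457192))) (a (l 16349720) (l 16271520))))) (b (a (a (a (l 3) (b (l 3) (a (l 924122251479) (l 16612368)))) (a (a (l 334101159591) (l 16589272)) (b (l 16492640) (a (l 16574240) (l 16536032))))) (a (a (a (l 16455168) (l 16498504)) (l 16395480)) (a (l 16357936)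 (l 16284896)))) (a (a (b (a (a (l 3) (l 877951293287)) (a (l 16600696) (l 16624960))) (c (a (a (a (a (l 996599797751) (l 296520121751)) (l 253570439719)) (l 16601072)) (l 16620440)) (a (a (b (l 937543981991) (a (a (l 954186954103) (l 286856388791)) (l 16556496))) (l 163912971463)) (l 16588624)))) (a (a (c (l 16649056) (l 16606456)) (a (l 16576416) (l 16577752))) (b (l 16487344) (l 16521736)))) (a (c (l 16357104) (l 16404376)) (a (l 16347440) (l 16281072))))))), by decide +kernel⟩

def k1_pp_022 : ∃ t, chk3 f_pp_022 t 8 34 1 = true :=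
  ⟨(b (b (a (a (a (c (a (b (a (b (a (l 181629712343) (l 16579800)) (l 16574072)) (l 16583056)) (a (l 16568208) (l 16575232))) (l 16558120)) (a (b (a (b (a (b (c (l 226189984727) (l 226189965543)) (l 16545512)) (l 16539040)) (a (l 16542256) (l 16555672))) (l 16541256)) (a (b (l 16549912) (l 16545672)) (l 16553672))) (b (l 16570960) (l 16562448)))) (a (b (l 16574024) (l 16565944)) (b (l 16607576) (l 16557952)))) (a (b (l 16584536) (a (l 16550328) (l 16585400))) (b (b (l 16611520) (l 16588192)) (l 16587752)))) (a (b (l 16552056) (l 16570608)) (l 16489856))) (a (a (a (b (a (c (l 16543128) (a (l 16539384) (l 16545288))) (b (l 16547208) (a (l 16561048) (l 16546904)))) (b (c (a (a (l 16555016) (l 16562424)) (l 16574280)) (a (a (l 16533264) (l 16518704)) (l 16529400))) (a (a (b (c (l 16552696) (l 16530824)) (l 16520576)) (l 16528944)) (l 16541424)))) (b (a (b (l 16539384) (c (l 16591760) (l 16565920))) (b (l 16574344) (l 16595096))) (a (l 16557872) (l 16574120)))) (c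 (l 16586176) (a (l 16584192) (l 16614440)))) (b (a (l 16584040) (l 16521064)) (a (l 16576560) (l 16513952))))) (b (a (a (a (c (b (a (l 16555984) (l 16573064)) (l 16542632)) (a (b (l 16514616) (l 16536744)) (l 16531312))) (c (l 16576800) (l 16555024))) (c (l 16583768) (l 16579928))) (a (l 16523480) (l 16503384))) (a (a (a (c (a (l 16553632) (l 16570560)) (a (l 16517392) (l 16554280))) (c (l 16595552) (l 16577736))) (b (l 16549968) (l 16570544))) (a (l 16550792) (l 16469520))))), by decide +kernel⟩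

def k2_pp_022 : ∃ t, chk3 f_pp_022 t 8 35 1 = true :=
  ⟨(a (b (a (a (b (c (l 16559984) (l 16527200)) (c (l 16557664) (l 16549728))) (b (l 16544296) (l 16564568))) (c (l 16577008) (c (l 16586440) (l 16578616)))) (a (a (b (l 16532112) (l 16552216)) (b (l 16584616) (l 16562560))) (b (b (l 16567832) (l 16565696)) (l 16560120)))) (b (a (b (a (l 16619984) (l 16557752)) (l 16546568)) (a (l 16517680) (l 16503888))) (a (c (l 16568096) (l 16587288)) (l 16468048)))), by decide +kernel⟩

def k3_pp_022 : ∃ t, chk3 f_pp_022 t 9 17 1 = true :=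
  ⟨(b (a (b (a (b (l 16449384) (l 16435504)) (b (l 16369616) (l 16404152))) (a (b (l 16425616) (l 16461200)) (l 16397664))) (b (a (l 16298672) (l 16278272)) (l 16198568))) (a (c (l 16268760) (l 16355936)) (c (l 16259296) (l 16325104)))), by decide +kernel⟩

def k4_pp_022 : ∃ t, chk3 f_pp_022 t 4 9 1 = true :=
  ⟨(a (c (b (b (a (a (b (a (l 16504104) (l 16575600)) (l 16527120)) (l 16527360)) (c (l 16415216) (l 16493656))) (a (a (a (l 16473928) (l 16523976)) (l 16537600)) (a (l 16506344) (l 16435120)))) (a (b (b (l 16418672) (l 16431184)) (a (l 16412904) (l 16466160))) (a (c (l 16297520) (l 16436888)) (b (l 16394224) (l 16349840))))) (b (b (a (a (b (b (a (l 16552024) (l 16576704)) (l 16556200)) (l 16520504)) (l 16530368)) (a (l 16572192) (l 16490616))) (a (a (b (l 16500872) (l 16481968)) (l 16512760)) (l 16435712))) (b (a (a (l 16391856) (l 16476720)) (l 16453000)) (a (b (l 16366776) (l 16350104)) (l 16426368))))) (a (b (c (b (l 16303304) (l 16290136)) (c (l 16313864)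 (l 16346680))) (c (b (l 16272736) (l 16252224)) (c (l 16303896) (l 16379760)))) (b (b (c (l 16233248) (l 16311160)) (c (l 16202000) (l 16294408))) (b (l 16011104) (l 15960976))))), by decide +kernel⟩

def k5_pp_022 : ∃ t, chk3 f_pp_022 t 5 4 1 = true :=
  ⟨(b (b (a (b (a (c (b (l 955259596663) (a (l 16098344) (b (l 16135648) (l 16131384)))) (b (l 945059202231) (b (l 243368933335) (a (l 16259160) (l 16209064))))) (b (c (l 221356787383) (l 221356954327)) (a (b (l 16004112) (l 16105536)) (l 16049512)))) (a (b (a (b (l 16229240) (l 16223776)) (l 16079984)) (l 16128992)) (c (l 16037232) (l 16122664)))) (b (a (b (a (l 15864848) (l 15940392)) (l 15971272)) (c (l 15818920) (l 15925912))) (a (c (l 15926128) (l 16024472)) (l 15773808)))) (b (a (a (c (l 16149776) (l 16224888)) (c (l 16030400) (l 16121376))) (a (l 15846416) (l 15856624))) (a (a (c (l 16132672) (l 16216936)) (l 15918136)) (a (l 15900840) (l 15871120))))) (b (b (a (a (l 15968096) (l 15944968)) (a (l 15909152)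 (l 15860880))) (a (a (l 15988824) (l 15947552)) (a (l 15914536) (l 15848040)))) (a (c (a (l 15864320) (l 15883112)) (a (l 16125024) (l 16075448))) (a (c (l 15827192) (l 15991128)) (b (l 15833472) (l 15733664)))))), by decide +kernel⟩

def k6_pp_022 : ∃ t, chk3 f_pp_022 t 3 4 1 = true :=
  ⟨(b (a (b (a (c (b (l 15538184) (l 15690808)) (b (l 15802512) (l 15812760))) (c (b (l 15541256) (l 15547176)) (b (l 15666272) (l 15679424)))) (a (c (a (l 15724632) (l 15644496)) (a (l 15856632) (l 15784744))) (a (b (l 15646800) (l 15645984)) (b (l 15587880) (l 15587952))))) (b (a (b (a (l 15521888) (l 15478888)) (a (l 15532304) (l 15487984))) (a (b (l 15442144) (l 15452184)) (l 15419448))) (a (a (b (l 15536544) (l 15538104)) (l 15495432)) (a (l 15461896) (l 15436856))))) (a (b (a (a (c (l 15696360) (l 15853928)) (b (l 15706488) (l 15698528))) (a (b (l 15642032) (l 15635528)) (l 15583208))) (a (b (a (l 15736176) (l 15688456)) (a (l 15743672) (l 15675544))) (c (l 15505656) (l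 15684760)))) (a (b (c (l 15436800) (l 15596264)) (l 15506624)) (b (l 15454824) (l 2))))), by decide +kernel⟩

def k7_pp_022 : ∃ t, chk3 f_pp_022 t 4 5 1 = true :=
  ⟨(a (a (b (b (b (a (b (l 16326752) (l 16295480)) (c (l 16414504) (l 16389192))) (b (c (l 16323360) (l 16281320)) (b (a (l 16258592) (l 16325048)) (a (b (l 16256192) (a (l 16242488) (l 16287864))) (b (l 16315760) (l 16267472)))))) (a (c (l 16199032) (b (l 16263640) (l 16233840))) (b (l 16203104) (l 16122256)))) (c (b (c (a (l 16174200) (l 16153832)) (a (l 16248736) (l 16191240))) (c (b (l 16028240) (l 15958536)) (a (l 16119120) (l 16106904)))) (b (a (b (l 16183184) (l 16153640)) (l 16148352)) (a (b (l 16103248) (l 16053000)) (l 16068168))))) (b (b (b (b (l 16187376) (l 16146744)) (c (b (l 16234176) (b (l 16234888) (b (l 16223568) (l 16173856)))) (b (l 16397136) (b (l 16385896) (l 16252456))))) (c (a (l 16158288) (l 16161848)) (l 16176000))) (c (b (b (l 16044512) (l 15981320)) (a (l 15923048) (l 15933408)))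 (b (a (l 16200912) (l 16195640)) (a (l 16115840) (l 16092968)))))) (b (b (b (c (a (l 16187296) (l 16089840)) (a (l 16296752) (l 16233072))) (b (a (c (l 16173992) (l 16313904)) (l 15990224)) (c (b (l 15910024) (a (b (l 16145960) (l 16139152)) (l 15927048))) (a (b (l 16303920) (c (l 16258112) (l 16336536))) (b (l 16207288) (l 16180432)))))) (c (a (l 15992752) (l 15991264)) (a (c (l 16223824) (l 16309568)) (l 16111736)))) (c (a (b (l 15873632) (a (l 15924848) (l 15896832))) (b (l 15858080) (a (l 15849264) (l 15823984)))) (a (a (a (l 16027312) (l 16005704)) (c (l 16048048) (l 16132320))) (c (b (l 16075200) (l 16013568)) (b (l 16179912) (l 16043136))))))), by decide +kernel⟩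

def k8_pp_022 : ∃ t, chk3 f_pp_022 t 5 5 1 = true :=
  ⟨(a (b (b (b (a (l 15849368) (l 15839368)) (b (a (l 15954408) (l 15926480)) (b (a (l 15985712) (l 15938480)) (b (a (l 15980168) (l 15933912)) (a (l 15913528) (l 15868072)))))) (a (c (l 15893464) (l 16089392)) (c (l 15802968) (l 16008392)))) (a (c (b (l 15785848) (l 15753088)) (b (l 15959392) (l 15894776))) (b (c (l 15739776) (l 15957696)) (l 15528008)))) (b (b (b (a (l 15774608) (l 15695824)) (b (a (l 15864248) (l 15786368)) (a (b (l 15856672) (b (l 15852848) (l 15766504))) (l 15775280)))) (c (l 15513088) (l 15741920))) (b (a (l 15619424) (l 15691592)) (a (l 15616560) (l 15628920))))), by decide +kernel⟩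

def k9_pp_022 : ∃ t, chk3 f_pp_022 t 3 5 1 = true :=
  ⟨(a (b (a (b (c (l 15587056) (l 15782384)) (c (l 15543488) (l 15745376))) (b (l 15422880) (l 15535440))) (a (b (l 15363552) (l 15409808)) (b (l 15491240) (l 2)))) (b (a (b (l 15487568) (l 2)) (l 2)) (l 2))), by decide +kernel⟩

def k10_pp_022 : ∃ t, chk3 f_pp_022 t 4 12 1 = true :=
  ⟨(a (c (b (b (a (a (l 15942920) (l 15951720)) (a (l 15941560) (l 15954416))) (a (a (a (l 15951128) (l 15945352)) (l 15885216)) (a (l 15897672) (l 15848344)))) (b (a (a (a (l 15882408) (l 15877448)) (l 15797552)) (a (l 15747664) (l 15782400))) (a (a (c (l 15808584) (l 15940408)) (a (l 15784680) (l 15738568))) (a (a (l 15776640) (l 15812816)) (l 15794552))))) (a (b (a (b (l 16023864) (a (l 16005056) (l 16005504))) (a (l 16020072) (l 16040616))) (a (c (l 16017032) (b (l 15995856) (l 15943344))) (b (l 15986688) (b (l 15985920) (l 15931200))))) (a (b (l 16030112) (b (l 16000736) (l 15917624))) (b (l 15967856) (b (l 15976520) (l 15969776))))))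 (c (b (a (a (a (l 15812160) (l 15809224)) (l 15730584)) (l 15657624)) (a (b (l 15726672) (l 15698408)) (l 15607944))) (b (a (b (l 15920608) (l 15882800)) (l 15847576)) (a (c (l 15878424) (l 16039984)) (l 15798608))))), by decide +kernel⟩

def k11_pp_022 : ∃ t, chk3 f_pp_022 t 4 13 1 = true :=
  ⟨(a (c (a (b (c (a (b (a (l 15791792) (b (l 15862680) (l 15836904))) (a (b (a (l 15822408) (l 15830392)) (l 15787816)) (l 15774232))) (b (a (l 15781600) (l 15796224)) (l 15754448))) (a (b (a (l 15928088) (l 15903680)) (a (b (l 15892624) (l 15907304)) (l 15872496))) (b (l 15802576) (l 15852280)))) (a (b (a (b (a (l 15720616) (l 15748624)) (l 15663536)) (l 15608672)) (a (a (l 15584216) (l 15633528)) (l 15613368))) (b (l 15589464) (l 15573976)))) (b (a (b (l 15710304) (l 15697976)) (l 15589992)) (b (l 15470816) (l 15477872)))) (a (b (a (b (a (b (l 15905240) (l 15870112)) (b (l 15926352) (l 15893512))) (a (b (a (l 15851640) (l 15885416)) (l 15851976)) (l 15884368))) (b (c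 (l 15922400) (l 15942376)) (l 15865576))) (b (a (b (l 15842432) (l 15839072)) (l 15829288)) (a (c (l 15827280) (l 15858520)) (l 15791008)))) (b (b (l 15797384) (l 15763992)) (c (l 15702640) (l 15842840))))) (c (a (b (l 15433264) (l 15453576)) (b (l 15574104) (l 15472608))) (a (b (c (l 15839424) (l 15958352)) (l 15641024)) (b (l 15761328) (l 15694360))))), by decide +kernel⟩

def k12_pp_022 : ∃ t, chk3 f_pp_022 t 5 6 1 = true :=
  ⟨(b (b (a (a (c (l 15672600) (l 15901520)) (l 15513744)) (a (l 15605320) (l 15557552))) (a (a (c (l 15585192) (l 15812712)) (l 15470568)) (a (l 15543928) (l 15477664)))) (a (b (a (l 15392920) (l 15503672)) (a (l 15353472) (l 15424872))) (b (l 15210872) (l 2)))), by decide +kernel⟩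

def k13_pp_022 : ∃ t, chk3 f_pp_022 t 2 7 1 = true :=
  ⟨(a (b (b (a (c (a (a (b (a (l 15538688) (l 15596152)) (a (l 15541072) (l 15599072))) (b (l 15557552) (l 15561248))) (a (l 15436776) (l 15515600))) (a (a (b (l 15721304) (l 15678808)) (l 15614424)) (c (l 15646600) (l 15804200)))) (a (b (l 15335968) (l 15340496)) (c (l 15366992) (l 15577528)))) (a (c (a (a (b (l 15404144) (l 15426376)) (b (l 15522256) (l 15461656))) (a (l 15444760) (l 15399808))) (a (c (a (l 15606568) (l 15659352)) (a (l 15763952) (l 15772880))) (l 15429840))) (a (c (l 15336104) (l 15543512)) (l 15187416)))) (a (c (a (b (a (b (l 15427120) (l 15385528)) (l 15285680)) (b (l 15174024) (l 15237520))) (b (l 15177080) (l 15182640))) (b (a (b (c (l 15586616) (l 15696720)) (l 15425736)) (l 15401384)) (a (a (l 15366616) (l 15441696)) (l 15368664)))) (b (a (c (l 15221016) (l 15412288)) (l 2)) (l 2)))) (b (a (b (a (l 15349832) (l 2)) (l 2)) (l 2)) (l 2))), by decide +kernel⟩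

def k14_pp_022 : ∃ t, chk3 f_pp_022 t 3 3 1 = true :=
  ⟨(b (a (b (a (b (l 15467776) (l 2)) (l 2)) (l 2)) (l 2)) (l 2)), by decide +kernel⟩

theorem s15_pp_022 : ∃ t, chk3 f_pp_022 t 4 6 1 = true := ex3_b k10_pp_022 k11_pp_022

theorem s16_pp_022 : ∃ t, chk3 f_pp_022 t 2 6 1 = true := ex3_a s15_pp_022 k12_pp_022

theorem s17_pp_022 : ∃ t, chk3 f_pp_022 t 2 3 1 = true := ex3_b s16_pp_022 k13_pp_022

theorem s18_pp_022 : ∃ t, chk3 f_pp_022 t 1 3 1 = true := ex3_a s17_pp_022 k14_pp_022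

theorem s19_pp_022 : ∃ t, chk3 f_pp_022 t 2 5 1 = true := ex3_a k7_pp_022 k8_pp_022

theorem s20_pp_022 : ∃ t, chk3 f_pp_022 t 1 5 1 = true := ex3_a s19_pp_022 k9_pp_022

theorem s21_pp_022 : ∃ t, chk3 f_pp_022 t 8 17 1 = true := ex3_b k1_pp_022 k2_pp_022

theorem s22_pp_022 : ∃ t, chk3 f_pp_022 t 4 17 1 = true := ex3_a s21_pp_022 k3_pp_022

theorem s23_pp_022 : ∃ t, chk3 f_pp_022 t 4 8 1 = true := ex3_b k0_pp_022 s22_pp_022

theorem s24_pp_022 : ∃ t, chk3 f_pp_022 t 4 4 1 = true := ex3_b s23_pp_022 k4_pp_022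

theorem s25_pp_022 : ∃ t, chk3 f_pp_022 t 2 4 1 = true := ex3_a s24_pp_022 k5_pp_022

theorem s26_pp_022 : ∃ t, chk3 f_pp_022 t 1 4 1 = true := ex3_a s25_pp_022 k6_pp_022

theorem s27_pp_022 : ∃ t, chk3 f_pp_022 t 1 2 1 = true := ex3_b s26_pp_022 s20_pp_022

theorem s28_pp_022 : ∃ t, chk3 f_pp_022 t 1 1 1 = true := ex3_b s27_pp_022 s18_pp_022

theorem c_pp_022 : CertB 0 536870912 1073741824 536870912 1020054732 13421774 3 eng mog cd1q0 cd3q2 pd2 false true true .pp 0 2 2
    ndB1q0 ndB3q2 pcB2 Cut.none Ext.none :=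
  certB1 (fam := false) (s1 := true) (s2 := true) (a := 0) (b := 2) (c := 2) (cn := .pp) (n1 := ndB1q0) (n2 := ndB3q2) (pc := pcB2) (cut := Cut.none) (xt := Ext.none) (P1 := 0) (W1 := 536870912) (P2 := 1073741824) (W2 := 536870912) (P3 := 1020054732) (W3 := 13421774) (N0 := 3) (En := eng) (mo := mog) (C1 := cd1q0) (C2 := cd3q2) (C3 := pd2)
    rfl (fun _ => rfl) s28_pp_022

noncomputable def f_pp_023 : ℕ → ℕ → ℕ → ℕ → Bool := onCell 1073741824 536870912 0 1230186008 1020054732 13421774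
    (rowB 3 eng mog cd1q0 cd3q3 pd2 2 false true true .up 0 2 3 (qsf 0 536870912 0 1230186008 2) ndB1q0 ndB3q3 pcB2 Cut.none Ext.none)

def k0_pp_023 : ∃ t, chk3 f_pp_023 t 1 1 1 = true :=
  ⟨(a (b (l 2) (a (b (l 2) (b (l 2) (b (a (l 2) (c (l 15816352) (l 15978032))) (a (c (l 15752752) (b (l 16014384) (l 16095352))) (c (l 15891704) (l 16139744)))))) (b (b (l 2) (a (l 2) (l 15383528))) (b (a (b (l 15678040) (l 15778056)) (b (l 15619640) (l 15739376))) (b (a (l 15909728) (l 15891456)) (a (c (l 15979016) (l 16184784)) (c (l 15975280) (l 16121160)))))))) (a (b (l 2) (b (b (a (l 2) (l 15078768)) (a (l 15295200) (l 15190584))) (b (a (b (l 15536152) (l 15674440)) (b (l 15433728) (l 15588856))) (b (a (l 15824800) (b (l 15725440) (l 15829272))) (a (b (l 15998432) (l 15907064)) (b (l 15838720) (c (l 15956600) (l 15821248)))))))) (b (b (a (l 2) (b (l 14822152) (l 14649456))) (b (b (a (l 2) (l 14568056)) (a (l 14701280) (l 14553952))) (l 14699328))) (b (b (a (l 14921392)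 (l 14768096)) (a (l 15056072) (l 14836488))) (b (a (b (l 15318992) (l 15488832)) (b (l 15199088) (b (l 15330896) (l 15430176)))) (b (a (b (l 15636808) (l 15706568)) (b (l 15538712) (c (l 15566472) (l 15718200)))) (a (b (c (l 15767536) (l 15766072)) (a (l 15662912) (c (l 15835472) (l 15636352)))) (b (a (l 15675904) (l 15488800)) (a (c (l 15744768) (l 15499592)) (c (l 15528312) (l 15300736))))))))))), by decide +kernel⟩

theorem c_pp_023 : CertB 0 536870912 0 1230186008 1020054732 13421774 3 eng mog cd1q0 cd3q3 pd2 false true true .up 0 2 3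
    ndB1q0 ndB3q3 pcB2 Cut.none Ext.none :=
  certB2 (fam := false) (s1 := true) (s2 := true) (a := 0) (b := 2) (c := 3) (cn := .up) (n1 := ndB1q0) (n2 := ndB3q3) (pc := pcB2) (cut := Cut.none) (xt := Ext.none) (P1 := 0) (W1 := 536870912) (P2 := 0) (W2 := 1230186008) (P3 := 1020054732) (W3 := 13421774) (N0 := 3) (En := eng) (mo := mog) (C1 := cd1q0) (C2 := cd3q3) (C3 := pd2)
    rfl (fun _ => rfl) k0_pp_023

noncomputable def f_pp_033 : ℕ → ℕ → ℕ → ℕ → Bool := onCell 1610612736 536870912 0 1230186008 1020054732 13421774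
    (rowB 3 eng mog cd1q0 cd3q3 pd3 2 false true true .pnn 0 3 3 (qsf 0 536870912 0 1230186008 3) ndB1q0 ndB3q3 pcB3 Cut.none Ext.none)

def k0_pp_033 : ∃ t, chk3 f_pp_033 t 1 2 1 = true :=
  ⟨(b (a (a (a (l 16453240) (l 16324408)) (a (l 16210136) (l 4))) (l 4)) (a (b (a (b (a (l 16438744) (l 16284392)) (a (l 16436880) (l 16262176))) (b (a (l 16133024) (l 4)) (a (l 16089560) (l 4)))) (a (a (l 16384528) (l 16205976)) (a (l 15996688) (l 15781752)))) (a (l 4) (l 4)))), by decide +kernel⟩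

def k1_pp_033 : ∃ t, chk3 f_pp_033 t 1 3 1 = true :=
  ⟨(b (a (a (b (a (l 16229856) (l 16017920)) (a (l 15904952) (b (l 15794168) (l 15592336)))) (a (b (l 15782016) (b (l 15525632) (a (l 15375568) (l 15220640)))) (b (l 15515688) (b (l 15225096) (a (l 14929216) (l 14630904)))))) (b (a (a (a (l 15295432) (l 15052112)) (l 4)) (a (l 4) (l 1))) (a (a (b (a (l 14976968) (l 14804112)) (a (l 742521391095) (l 776880800039))) (a (b (l 14546304) (l 1)) (l 1))) (l 1)))) (a (b (a (b (a (l 15629696) (b (l 15412520) (l 15276952))) (a (b (l 15428464) (l 15192552)) (b (l 14876952) (a (l 15045960) (l 14822096))))) (a (b (a (l 15091056) (b (l 15018896) (l 14870688))) (b (a (l 14884592) (l 306045345095)) (a (c (l 14804104) (l 14630968)) (c (l 388186433911) (l 398923522711))))) (b (a (b (l 14842824) (l 408587650103)) (b (l 512740544599) (l 1))) (l 1)))) (a (a (b (a (b (l 15185552) (l 14775232)) (b (l 15031576) (c (l 14955840) (l 14735424)))) (b (b (a (l 14714168) (c (l 14817544)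 (l 14536696))) (a (c (l 14881800) (l 14632768)) (c (l 257727245543) (l 278664818119)))) (a (c (b (a (l 14822464) (l 14679408)) (a (l 264706564423) (l 371543676503))) (b (a (l 14561400) (l 268464286999)) (a (b (l 14475280) (l 398923771159)) (l 436504795447)))) (b (a (b (l 394092189607) (l 1)) (l 1)) (l 1))))) (b (c (b (a (l 14969696) (l 265243339783)) (a (l 251821544167) (l 372080303719))) (b (a (l 14771776) (l 272759139511)) (a (b (l 14623896) (l 289402357367)) (l 390333489319)))) (b (a (b (a (l 399460950583) (l 1)) (l 1)) (l 1)) (l 1)))) (b (a (b (a (b (l 417714620887) (l 1)) (l 1)) (l 1)) (l 1)) (l 1)))) (l 1))), by decide +kernel⟩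

theorem s2_pp_033 : ∃ t, chk3 f_pp_033 t 1 1 1 = true := ex3_b k0_pp_033 k1_pp_033

theorem c_pp_033 : CertB 0 536870912 0 1230186008 1020054732 13421774 3 eng mog cd1q0 cd3q3 pd3 false true true .pnn 0 3 3
    ndB1q0 ndB3q3 pcB3 Cut.none Ext.none :=
  certB2 (fam := false) (s1 := true) (s2 := true) (a := 0) (b := 3) (c := 3) (cn := .pnn) (n1 := ndB1q0) (n2 := ndB3q3) (pc := pcB3) (cut := Cut.none) (xt := Ext.none) (P1 := 0) (W1 := 536870912) (P2 := 0) (W2 := 1230186008) (P3 := 1020054732) (W3 := 13421774) (N0 := 3) (En := eng) (mo := mog) (C1 := cd1q0) (C2 := cd3q3) (C3 := pd3)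
    rfl (fun _ => rfl) s2_pp_033

noncomputable def f_pp_101 : ℕ → ℕ → ℕ → ℕ → Bool := onCell 536870912 536870912 536870912 536870912 1020054732 13421774
    (rowB 3 eng mog cd1q1 cd3q1 pd0 0 false true true .npn 1 0 1 (qsf 536870912 536870912 536870912 536870912 0) ndB1q1 ndB3q1 pcB0 Cut.none Ext.none)

def k0_pp_101 : ∃ t, chk3 f_pp_101 t 1 1 1 = true :=
  ⟨(l 3), by decide +kernel⟩

theorem c_pp_101 : CertB 536870912 536870912 536870912 536870912 1020054732 13421774 3 eng mog cd1q1 cd3q1 pd0 false true true .npn 1 0 1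
    ndB1q1 ndB3q1 pcB0 Cut.none Ext.none :=
  certB0 (fam := false) (s1 := true) (s2 := true) (a := 1) (b := 0) (c := 1) (cn := .npn) (n1 := ndB1q1) (n2 := ndB3q1) (pc := pcB0) (cut := Cut.none) (xt := Ext.none) (P1 := 536870912) (W1 := 536870912) (P2 := 536870912) (W2 := 536870912) (P3 := 1020054732) (W3 := 13421774) (N0 := 3) (En := eng) (mo := mog) (C1 := cd1q1) (C2 := cd3q1) (C3 := pd0)
    rfl k0_pp_101

noncomputable def f_pp_102 : ℕ → ℕ → ℕ → ℕ → Bool := onCell 536870912 536870912 0 536870912 1020054732 13421774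
    (rowB 3 eng mog cd1q1 cd3q2 pd0 1 false true true .npp 1 0 2 (qsf 536870912 536870912 1073741824 536870912 0) ndB1q1 ndB3q2 pcB0 Cut.none Ext.none)

def k0_pp_102 : ∃ t, chk3 f_pp_102 t 1 1 1 = true :=
  ⟨(l 3), by decide +kernel⟩

theorem c_pp_102 : CertB 536870912 536870912 1073741824 536870912 1020054732 13421774 3 eng mog cd1q1 cd3q2 pd0 false true true .npp 1 0 2
    ndB1q1 ndB3q2 pcB0 Cut.none Ext.none :=
  certB1 (fam := false) (s1 := true) (s2 := true) (a := 1) (b := 0) (c := 2) (cn := .npp) (n1 := ndB1q1) (n2 := ndB3q2) (pc := pcB0) (cut := Cut.none) (xt := Ext.none) (P1 := 536870912) (W1 := 536870912) (P2 := 1073741824) (W2 := 536870912) (P3 := 1020054732) (W3 := 13421774) (N0 := 3) (En := eng) (mo := mog) (C1 := cd1q1) (C2 := cd3q2) (C3 := pd0)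
    rfl (fun _ => rfl) k0_pp_102

noncomputable def f_pp_112 : ℕ → ℕ → ℕ → ℕ → Bool := onCell 536870912 536870912 1073741824 536870912 1020054732 13421774
    (rowB 3 eng mog cd1q1 cd3q2 pd1 2 false true true .dn 1 1 2 (qsf 536870912 536870912 1073741824 536870912 1) ndB1q1 ndB3q2 pcB1 Cut.none Ext.none)

def k0_pp_112 : ∃ t, chk3 f_pp_112 t 1 1 1 = true :=
  ⟨(a (l 3) (a (l 3) (a (l 3) (b (l 1) (b (l 1) (a (a (l 3) (b (l 1) (b (l 270211604295) (l 223503769975)))) (b (l 1) (a (b (l 15553496) (l 15628392)) (c (l 15754640) (l 15611200)))))))))), by decide +kernel⟩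

theorem c_pp_112 : CertB 536870912 536870912 1073741824 536870912 1020054732 13421774 3 eng mog cd1q1 cd3q2 pd1 false true true .dn 1 1 2
    ndB1q1 ndB3q2 pcB1 Cut.none Ext.none :=
  certB2 (fam := false) (s1 := true) (s2 := true) (a := 1) (b := 1) (c := 2) (cn := .dn) (n1 := ndB1q1) (n2 := ndB3q2) (pc := pcB1) (cut := Cut.none) (xt := Ext.none) (P1 := 536870912) (W1 := 536870912) (P2 := 1073741824) (W2 := 536870912) (P3 := 1020054732) (W3 := 13421774) (N0 := 3) (En := eng) (mo := mog) (C1 := cd1q1) (C2 := cd3q2) (C3 := pd1)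
    rfl (fun _ => rfl) k0_pp_112

noncomputable def f_pp_113 : ℕ → ℕ → ℕ → ℕ → Bool := onCell 536870912 536870912 0 1230186008 1020054732 13421774
    (rowB 3 eng mog cd1q1 cd3q3 pd1 2 false true true .nn 1 1 3 (qsf 536870912 536870912 0 1230186008 1) ndB1q1 ndB3q3 pcB1 Cut.none Ext.none)

def k0_pp_113 : ∃ t, chk3 f_pp_113 t 1 1 1 = true :=
  ⟨(a (b (l 2) (b (l 3) (a (l 3) (l 3)))) (a (b (l 2) (b (l 3) (l 3))) (a (b (b (l 2) (a (l 3) (b (b (l 2) (c (l 988478230071) (l 967540297847))) (a (l 3) (c (l 293834181015) (l 286854797239)))))) (b (a (l 3) (a (l 3) (b (b (l 275580386823) (l 268064188727)) (b (l 326046344295) (l 3))))) (b (l 3) (l 3)))) (b (b (a (l 2) (b (l 1131823801495) (a (l 16607328) (l 16735120)))) (b (b (a (b (l 824196313735) (l 16229576)) (b (l 16498272) (l 16556528))) (a (b (l 16244488) (l 16055528)) (a (l 16407368) (l 16402208)))) (a (a (b (l 15739384) (l 15550600)) (l 15669584)) (a (l 15653992) (l 15584992))))) (b (a (b (b (a (l 15449936) (l 15422472))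 (a (l 15423672) (l 15377688))) (b (a (b (l 15445912) (l 15479216)) (l 15408448)) (a (b (l 15525864) (l 15584832)) (b (l 15471888) (l 15531536))))) (b (a (b (l 15365720) (l 15313832)) (b (l 15290504) (l 15242960))) (b (a (l 15344592) (l 15280000)) (a (b (l 15410152) (l 15471544)) (l 15381624))))) (b (a (b (a (b (l 15655024) (l 15735304)) (b (l 15603136) (l 15685288))) (c (a (l 233167541319) (l 15813384)) (a (l 233704196311) (l 15774024)))) (b (a (b (l 15544880) (l 15628560)) (b (l 15490128) (l 15575616))) (a (b (l 15720968) (l 15799392)) (b (l 15669200) (l 15769064))))) (a (a (b (b (l 228873164167) (l 3)) (l 3)) (b (b (l 15979688) (l 16045688)) (c (l 206861478791) (l 197197762023)))) (b (a (b (l 15924864) (l 16032392)) (b (l 15873240) (l 15979592))) (a (b (l 16119624) (l 16103560)) (b (l 16085704) (l 16177472))))))))))), by decide +kernel⟩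

theorem c_pp_113 : CertB 536870912 536870912 0 1230186008 1020054732 13421774 3 eng mog cd1q1 cd3q3 pd1 false true true .nn 1 1 3
    ndB1q1 ndB3q3 pcB1 Cut.none Ext.none :=
  certB2 (fam := false) (s1 := true) (s2 := true) (a := 1) (b := 1) (c := 3) (cn := .nn) (n1 := ndB1q1) (n2 := ndB3q3) (pc := pcB1) (cut := Cut.none) (xt := Ext.none) (P1 := 536870912) (W1 := 536870912) (P2 := 0) (W2 := 1230186008) (P3 := 1020054732) (W3 := 13421774) (N0 := 3) (En := eng) (mo := mog) (C1 := cd1q1) (C2 := cd3q3) (C3 := pd1)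
    rfl (fun _ => rfl) k0_pp_113

noncomputable def f_pp_123 : ℕ → ℕ → ℕ → ℕ → Bool := onCell 1073741824 536870912 0 1230186008 1020054732 13421774
    (rowB 3 eng mog cd1q1 cd3q3 pd2 2 false true true .npn 1 2 3 (qsf 536870912 536870912 0 1230186008 2) ndB1q1 ndB3q3 pcB2 Cut.none Ext.none)

def k0_pp_123 : ∃ t, chk3 f_pp_123 t 1 2 1 = true :=
  ⟨(b (a (a (a (b (l 16546272) (a (l 16704848) (l 16579128))) (b (l 16363256) (l 16313488))) (a (b (l 15907392) (l 15904768)) (b (l 15445384) (l 15451368)))) (a (a (b (l 15005888) (l 15023136)) (b (l 14612240) (l 14641416))) (a (b (l 14313408) (l 14322752)) (b (l 14497240) (a (l 14236824) (l 14433888)))))) (a (b (b (a (a (b (l 16416328) (l 16316624)) (b (l 16161000) (l 16071920))) (a (l 15593736) (l 15413112))) (a (a (a (l 16150576) (l 16017528)) (l 15941248)) (a (l 15695360) (l 15358944)))) (a (a (a (b (l 15813544) (l 15591224)) (l 15537360)) (b (l 15792152) (l 15678648))) (a (l 15563280) (l 15301856)))) (b (a (b (a (l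 15018192) (l 14660920)) (a (l 15007336) (l 14684528))) (b (a (l 14367032) (a (l 14200832) (l 14236208))) (a (l 14417784) (l 14252936)))) (a (a (l 15015168) (l 14746928)) (a (l 14525064) (l 14369104)))))), by decide +kernel⟩

def k1_pp_123 : ∃ t, chk3 f_pp_123 t 1 3 1 = true :=
  ⟨(a (a (b (b (a (a (b (l 15468784) (l 15429960)) (b (l 15569448) (l 15536512))) (b (l 15608072) (l 15583832))) (a (b (a (l 15460632) (l 15559512)) (a (l 15401720) (l 15632576))) (b (l 15605944) (a (l 15667672) (l 15665656))))) (b (a (b (a (c (l 15717096) (l 15644792)) (l 15747920)) (a (b (l 15803856) (l 15893448)) (l 15895640))) (b (a (l 15773584) (l 15768984)) (c (l 15896680) (l 15920240)))) (b (a (a (b (l 15986992) (l 16082352)) (b (l 16019264) (l 16105296))) (c (l 15918784) (l 16071864))) (a (c (a (l 15957480) (l 16067688)) (b (l 16153896) (l 16208136))) (c (l 129417460103) (l 132102126615)))))) (b (b (a (b (l 15500000) (l 15501064)) (b (l 15298880) (l 15333072))) (a (b (l 15539952)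 (l 15615512)) (b (l 15399048) (l 15496264)))) (b (a (b (c (l 15677240) (l 15768984)) (c (l 15813136) (l 15902728))) (b (l 15621648) (l 1))) (b (a (c (l 15948496) (l 16053480)) (l 1)) (l 1))))) (b (a (b (a (b (l 15069424) (l 15137848)) (b (l 14852120) (l 14952536))) (a (b (l 15233968) (l 15357272)) (b (l 15077944) (l 1)))) (b (a (l 14527944) (l 1)) (l 1))) (l 1))), by decide +kernel⟩

theorem s2_pp_123 : ∃ t, chk3 f_pp_123 t 1 1 1 = true := ex3_b k0_pp_123 k1_pp_123

theorem c_pp_123 : CertB 536870912 536870912 0 1230186008 1020054732 13421774 3 eng mog cd1q1 cd3q3 pd2 false true true .npn 1 2 3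
    ndB1q1 ndB3q3 pcB2 Cut.none Ext.none :=
  certB2 (fam := false) (s1 := true) (s2 := true) (a := 1) (b := 2) (c := 3) (cn := .npn) (n1 := ndB1q1) (n2 := ndB3q3) (pc := pcB2) (cut := Cut.none) (xt := Ext.none) (P1 := 536870912) (W1 := 536870912) (P2 := 0) (W2 := 1230186008) (P3 := 1020054732) (W3 := 13421774) (N0 := 3) (En := eng) (mo := mog) (C1 := cd1q1) (C2 := cd3q3) (C3 := pd2)
    rfl (fun _ => rfl) s2_pp_123

noncomputable def f_pp_133 : ℕ → ℕ → ℕ → ℕ → Bool := onCell 1610612736 536870912 0 1230186008 1020054732 13421774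
    (rowB 3 eng mog cd1q1 cd3q3 pd3 2 false true true .dn 1 3 3 (qsf 536870912 536870912 0 1230186008 3) ndB1q1 ndB3q3 pcB3 Cut.none Ext.none)

def k0_pp_133 : ∃ t, chk3 f_pp_133 t 1 1 1 = true :=
  ⟨(b (b (a (a (a (l 16130848) (l 1)) (l 1)) (l 1)) (l 1)) (l 1)), by decide +kernel⟩

theorem c_pp_133 : CertB 536870912 536870912 0 1230186008 1020054732 13421774 3 eng mog cd1q1 cd3q3 pd3 false true true .dn 1 3 3
    ndB1q1 ndB3q3 pcB3 Cut.none Ext.none :=
  certB2 (fam := false) (s1 := true) (s2 := true) (a := 1) (b := 3) (c := 3) (cn := .dn) (n1 := ndB1q1) (n2 := ndB3q3) (pc := pcB3) (cut := Cut.none) (xt := Ext.none) (P1 := 536870912) (W1 := 536870912) (P2 := 0) (W2 := 1230186008) (P3 := 1020054732) (W3 := 13421774) (N0 := 3) (En := eng) (mo := mog) (C1 := cd1q1) (C2 := cd3q3) (C3 := pd3)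
    rfl (fun _ => rfl) k0_pp_133

noncomputable def f_pp_202_a : ℕ → ℕ → ℕ → ℕ → Bool := onCell 0 536870912 1073741824 536870912 1020054732 13421774
    (rowB 3 eng mog cd1q2a cd3q2 pd0 0 false true true .pp 2 0 2 (qsf 0 536870912 1073741824 536870912 0) ndB1q2a ndB3q2 pcB0 Cut.none Ext.none)

def k0_pp_202_a : ∃ t, chk3 f_pp_202_a t 1 1 1 = true :=
  ⟨(l 3), by decide +kernel⟩

theorem c_pp_202_a : CertB 0 536870912 1073741824 536870912 1020054732 13421774 3 eng mog cd1q2a cd3q2 pd0 false true true .pp 2 0 2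
    ndB1q2a ndB3q2 pcB0 Cut.none Ext.none :=
  certB0 (fam := false) (s1 := true) (s2 := true) (a := 2) (b := 0) (c := 2) (cn := .pp) (n1 := ndB1q2a) (n2 := ndB3q2) (pc := pcB0) (cut := Cut.none) (xt := Ext.none) (P1 := 0) (W1 := 536870912) (P2 := 1073741824) (W2 := 536870912) (P3 := 1020054732) (W3 := 13421774) (N0 := 3) (En := eng) (mo := mog) (C1 := cd1q2a) (C2 := cd3q2) (C3 := pd0)
    rfl k0_pp_202_a

noncomputable def f_pp_202_b : ℕ → ℕ → ℕ → ℕ → Bool := onCell 1239849684 370763052 1073741824 536870912 1020054732 13421774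
    (rowB 3 eng mog cd1q2b cd3q2 pd0 0 false true true .pp 2 0 2 (qsf 1239849684 370763052 1073741824 536870912 0) ndB1q2b ndB3q2 pcB0 Cut.none Ext.none)

def k0_pp_202_b : ∃ t, chk3 f_pp_202_b t 1 1 1 = true :=
  ⟨(l 3), by decide +kernel⟩

theorem c_pp_202_b : CertB 1239849684 370763052 1073741824 536870912 1020054732 13421774 3 eng mog cd1q2b cd3q2 pd0 false true true .pp 2 0 2
    ndB1q2b ndB3q2 pcB0 Cut.none Ext.none :=
  certB0 (fam := false) (s1 := true) (s2 := true) (a := 2) (b := 0) (c := 2) (cn := .pp) (n1 := ndB1q2b) (n2 := ndB3q2) (pc := pcB0) (cut := Cut.none) (xt := Ext.none) (P1 := 1239849684) (W1 := 370763052) (P2 := 1073741824) (W2 := 536870912) (P3 := 1020054732) (W3 := 13421774) (N0 := 3) (En := eng) (mo := mog) (C1 := cd1q2b) (C2 := cd3q2) (C3 := pd0)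
    rfl k0_pp_202_b

noncomputable def f_pp_203_a : ℕ → ℕ → ℕ → ℕ → Bool := onCell 0 536870912 0 1230186008 1020054732 13421774
    (rowB 3 eng mog cd1q2a cd3q3 pd0 0 false true true .up 2 0 3 (qsf 0 536870912 0 1230186008 0) ndB1q2a ndB3q3 pcB0 Cut.none Ext.none)

def k0_pp_203_a : ∃ t, chk3 f_pp_203_a t 1 1 1 = true :=
  ⟨(b (l 2) (l 3)), by decide +kernel⟩

theorem c_pp_203_a : CertB 0 536870912 0 1230186008 1020054732 13421774 3 eng mog cd1q2a cd3q3 pd0 false true true .up 2 0 3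
    ndB1q2a ndB3q3 pcB0 Cut.none Ext.none :=
  certB0 (fam := false) (s1 := true) (s2 := true) (a := 2) (b := 0) (c := 3) (cn := .up) (n1 := ndB1q2a) (n2 := ndB3q3) (pc := pcB0) (cut := Cut.none) (xt := Ext.none) (P1 := 0) (W1 := 536870912) (P2 := 0) (W2 := 1230186008) (P3 := 1020054732) (W3 := 13421774) (N0 := 3) (En := eng) (mo := mog) (C1 := cd1q2a) (C2 := cd3q3) (C3 := pd0)
    rfl k0_pp_203_a

noncomputable def f_pp_203_b : ℕ → ℕ → ℕ → ℕ → Bool := onCell 1239849684 370763052 0 1230186008 1020054732 13421774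
    (rowB 3 eng mog cd1q2b cd3q3 pd0 0 false true true .up 2 0 3 (qsf 1239849684 370763052 0 1230186008 0) ndB1q2b ndB3q3 pcB0 Cut.none Ext.none)

def k0_pp_203_b : ∃ t, chk3 f_pp_203_b t 1 1 1 = true :=
  ⟨(b (l 3) (l 3)), by decide +kernel⟩

theorem c_pp_203_b : CertB 1239849684 370763052 0 1230186008 1020054732 13421774 3 eng mog cd1q2b cd3q3 pd0 false true true .up 2 0 3
    ndB1q2b ndB3q3 pcB0 Cut.none Ext.none :=
  certB0 (fam := false) (s1 := true) (s2 := true) (a := 2) (b := 0) (c := 3) (cn := .up) (n1 := ndB1q2b) (n2 := ndB3q3) (pc := pcB0) (cut := Cut.none) (xt := Ext.none) (P1 := 1239849684) (W1 := 370763052) (P2 := 0) (W2 := 1230186008) (P3 := 1020054732) (W3 := 13421774) (N0 := 3) (En := eng) (mo := mog) (C1 := cd1q2b) (C2 := cd3q3) (C3 := pd0)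
    rfl k0_pp_203_b

noncomputable def cut_pp_213_a : Cut := Cut.of [[⟨0, 1, 0, 26738688⟩, ⟨1, 1, 0, 26738688⟩, ⟨2, 2, 0, 2621440⟩]]

noncomputable def f_pp_213_a : ℕ → ℕ → ℕ → ℕ → Bool := onCell 0 536870912 0 1230186008 1020054732 13421774
    (rowB 3 eng mog cd1q2a cd3q3 pd1 0 false true true .pnn 2 1 3 (qsf 0 536870912 0 1230186008 1) ndB1q2a ndB3q3 pcB1 cut_pp_213_a Ext.none)

def k0_pp_213_a : ∃ t, chk3 f_pp_213_a t 1 1 1 = true :=
  ⟨(b (b (a (l 3) (a (l 3) (a (l 3) (a (l 3) (b (b (l 6) (l 3)) (l 3)))))) (l 3)) (l 3)), by decide +kernel⟩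

theorem c_pp_213_a : CertB 0 536870912 0 1230186008 1020054732 13421774 3 eng mog cd1q2a cd3q3 pd1 false true true .pnn 2 1 3
    ndB1q2a ndB3q3 pcB1 cut_pp_213_a Ext.none :=
  certB0 (fam := false) (s1 := true) (s2 := true) (a := 2) (b := 1) (c := 3) (cn := .pnn) (n1 := ndB1q2a) (n2 := ndB3q3) (pc := pcB1) (cut := cut_pp_213_a) (xt := Ext.none) (P1 := 0) (W1 := 536870912) (P2 := 0) (W2 := 1230186008) (P3 := 1020054732) (W3 := 13421774) (N0 := 3) (En := eng) (mo := mog) (C1 := cd1q2a) (C2 := cd3q3) (C3 := pd1)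
    rfl k0_pp_213_a

noncomputable def cut_pp_213_b : Cut := Cut.of [[⟨0, 1, 0, 26738688⟩, ⟨1, 1, 0, 26738688⟩, ⟨2, 2, 0, 2621440⟩]]

noncomputable def f_pp_213_b : ℕ → ℕ → ℕ → ℕ → Bool := onCell 1239849684 370763052 0 1230186008 1020054732 13421774
    (rowB 3 eng mog cd1q2b cd3q3 pd1 0 false true true .pnn 2 1 3 (qsf 1239849684 370763052 0 1230186008 1) ndB1q2b ndB3q3 pcB1 cut_pp_213_b Ext.none)

def k0_pp_213_b : ∃ t, chk3 f_pp_213_b t 1 1 1 = true :=
  ⟨(b (l 3) (l 3)), by decide +kernel⟩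

theorem c_pp_213_b : CertB 1239849684 370763052 0 1230186008 1020054732 13421774 3 eng mog cd1q2b cd3q3 pd1 false true true .pnn 2 1 3
    ndB1q2b ndB3q3 pcB1 cut_pp_213_b Ext.none :=
  certB0 (fam := false) (s1 := true) (s2 := true) (a := 2) (b := 1) (c := 3) (cn := .pnn) (n1 := ndB1q2b) (n2 := ndB3q3) (pc := pcB1) (cut := cut_pp_213_b) (xt := Ext.none) (P1 := 1239849684) (W1 := 370763052) (P2 := 0) (W2 := 1230186008) (P3 := 1020054732) (W3 := 13421774) (N0 := 3) (En := eng) (mo := mog) (C1 := cd1q2b) (C2 := cd3q3) (C3 := pd1)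
    rfl k0_pp_213_b

noncomputable def f_pp_303 : ℕ → ℕ → ℕ → ℕ → Bool := onCell 1610612736 536870912 0 1230186008 1020054732 13421774
    (rowB 3 eng mog cd1q3 cd3q3 pd0 0 false true true .npn 3 0 3 (qsf 1610612736 536870912 0 1230186008 0) ndB1q3 ndB3q3 pcB0 Cut.none Ext.none)

def k0_pp_303 : ∃ t, chk3 f_pp_303 t 1 1 1 = true :=
  ⟨(b (l 3) (l 3)), by decide +kernel⟩

theorem c_pp_303 : CertB 1610612736 536870912 0 1230186008 1020054732 13421774 3 eng mog cd1q3 cd3q3 pd0 false true true .npn 3 0 3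
    ndB1q3 ndB3q3 pcB0 Cut.none Ext.none :=
  certB0 (fam := false) (s1 := true) (s2 := true) (a := 3) (b := 0) (c := 3) (cn := .npn) (n1 := ndB1q3) (n2 := ndB3q3) (pc := pcB0) (cut := Cut.none) (xt := Ext.none) (P1 := 1610612736) (W1 := 536870912) (P2 := 0) (W2 := 1230186008) (P3 := 1020054732) (W3 := 13421774) (N0 := 3) (En := eng) (mo := mog) (C1 := cd1q3) (C2 := cd3q3) (C3 := pd0)
    rfl k0_pp_303

noncomputable def f_pp_313 : ℕ → ℕ → ℕ → ℕ → Bool := onCell 1610612736 536870912 0 1230186008 1020054732 13421774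
    (rowB 3 eng mog cd1q3 cd3q3 pd1 0 false true true .dn 3 1 3 (qsf 1610612736 536870912 0 1230186008 1) ndB1q3 ndB3q3 pcB1 Cut.none Ext.none)

def k0_pp_313 : ∃ t, chk3 f_pp_313 t 1 1 1 = true :=
  ⟨(b (l 3) (l 1)), by decide +kernel⟩

theorem c_pp_313 : CertB 1610612736 536870912 0 1230186008 1020054732 13421774 3 eng mog cd1q3 cd3q3 pd1 false true true .dn 3 1 3
    ndB1q3 ndB3q3 pcB1 Cut.none Ext.none :=
  certB0 (fam := false) (s1 := true) (s2 := true) (a := 3) (b := 1) (c := 3) (cn := .dn) (n1 := ndB1q3) (n2 := ndB3q3) (pc := pcB1) (cut := Cut.none) (xt := Ext.none) (P1 := 1610612736) (W1 := 536870912) (P2 := 0) (W2 := 1230186008) (P3 := 1020054732) (W3 := 13421774) (N0 := 3) (En := eng) (mo := mog) (C1 := cd1q3) (C2 := cd3q3) (C3 := pd1)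
    rfl k0_pp_313

noncomputable def f_pm_001 : ℕ → ℕ → ℕ → ℕ → Bool := onCell 0 536870912 536870912 536870912 1020054732 13421774
    (rowB 3 eng mog cd1q0 cd3q1 pd0 0 false true false .up 0 0 1 (qsf 0 536870912 536870912 536870912 0) ndB1q0 ndB3q1 pcB0 Cut.none Ext.none)

def k0_pm_001 : ∃ t, chk3 f_pm_001 t 1 1 1 = true :=
  ⟨(l 4), by decide +kernel⟩

theorem c_pm_001 : CertB 0 536870912 536870912 536870912 1020054732 13421774 3 eng mog cd1q0 cd3q1 pd0 false true false .up 0 0 1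
    ndB1q0 ndB3q1 pcB0 Cut.none Ext.none :=
  certB0 (fam := false) (s1 := true) (s2 := false) (a := 0) (b := 0) (c := 1) (cn := .up) (n1 := ndB1q0) (n2 := ndB3q1) (pc := pcB0) (cut := Cut.none) (xt := Ext.none) (P1 := 0) (W1 := 536870912) (P2 := 536870912) (W2 := 536870912) (P3 := 1020054732) (W3 := 13421774) (N0 := 3) (En := eng) (mo := mog) (C1 := cd1q0) (C2 := cd3q1) (C3 := pd0)
    rfl k0_pm_001

noncomputable def f_pm_011 : ℕ → ℕ → ℕ → ℕ → Bool := onCell 0 536870912 536870912 536870912 1020054732 13421774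
    (rowB 3 eng mog cd1q0 cd3q1 pd1 0 false true false .pnn 0 1 1 (qsf 0 536870912 536870912 536870912 1) ndB1q0 ndB3q1 pcB1 Cut.none Ext.none)

def k0_pm_011 : ∃ t, chk3 f_pm_011 t 1 1 1 = true :=
  ⟨(l 4), by decide +kernel⟩

theorem c_pm_011 : CertB 0 536870912 536870912 536870912 1020054732 13421774 3 eng mog cd1q0 cd3q1 pd1 false true false .pnn 0 1 1
    ndB1q0 ndB3q1 pcB1 Cut.none Ext.none :=
  certB0 (fam := false) (s1 := true) (s2 := false) (a := 0) (b := 1) (c := 1) (cn := .pnn) (n1 := ndB1q0) (n2 := ndB3q1) (pc := pcB1) (cut := Cut.none) (xt := Ext.none) (P1 := 0) (W1 := 536870912) (P2 := 536870912) (W2 := 536870912) (P3 := 1020054732) (W3 := 13421774) (N0 := 3) (En := eng) (mo := mog) (C1 := cd1q0) (C2 := cd3q1) (C3 := pd1)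
    rfl k0_pm_011

noncomputable def f_pm_012 : ℕ → ℕ → ℕ → ℕ → Bool := onCell 0 536870912 536870912 536870912 1020054732 13421774
    (rowB 3 eng mog cd1q0 cd3q2 pd1 1 false true false .pnp 0 1 2 (qsf 0 536870912 1073741824 536870912 1) ndB1q0 ndB3q2 pcB1 Cut.none Ext.none)

def k0_pm_012 : ∃ t, chk3 f_pm_012 t 1 2 1 = true :=
  ⟨(a (b (l 1) (a (l 1) (b (l 1) (a (l 1) (a (l 1) (b (l 1) (l 611528805079))))))) (b (a (a (l 1) (b (l 1) (a (l 1) (l 652330605383)))) (b (a (l 632466124263) (a (l 403222240231) (l 16236296))) (a (a (l 328060531575) (l 16235608)) (a (l 16165808) (l 16112432))))) (a (b (a (b (l 1) (l 712997189703)) (b (a (l 515428769127) (l 16276512)) (a (l 16185552) (l 16170056)))) (a (a (b (l 668437060503) (l 16397408)) (b (l 16317808) (l 16248224))) (a (l 16107312) (b (l 16065864) (l 15962720))))) (b (a (b (l 16144336) (l 15962944)) (a (l 16004408) (l 15966616))) (a (a (b (l 15974016) (l 15859768)) (l 15839128)) (c (l 15864304) (l 15716608))))))), by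 decide +kernel⟩

def k1_pm_012 : ∃ t, chk3 f_pm_012 t 1 3 1 = true :=
  ⟨(b (a (a (b (l 1) (b (l 1) (a (l 1) (a (l 1) (l 4))))) (b (a (a (l 1) (b (l 1) (a (l 1) (l 948683925543)))) (b (a (l 651794423191) (l 296385545815)) (a (a (l 634614299655) (l 16497704)) (l 16315208)))) (b (a (b (a (l 1) (l 658773530759)) (l 4)) (a (l 4) (l 16129112))) (l 4)))) (a (b (a (b (a (l 16308800) (l 16156112)) (l 15909096)) (b (a (l 16005824) (l 15858320)) (l 15828912))) (a (b (a (l 16120408) (l 15965912)) (a (l 4) (l 15847936))) (b (l 15725248) (a (l 15697728) (l 15536424))))) (b (a (a (b (l 15742920) (l 15624680)) (l 15595880)) (b (l 15542352) (l 15358432))) (a (a (b (l 15504248) (l 15381168)) (b (l 15457216) (l 15331976))) (a (b (l 15454152) (l 15340912)) (b (l 15473920) (a (l 15362064) (l 15376496)))))))) (a (b (a (a (b (l 1) (l 4)) (l 4)) (l 4)) (l 4)) (a (a (l 4) (b (b (l 15272184) (l 269203783447)) (a (l 4) (l 4)))) (b (a (b (a (l 15259240) (l 15202864)) (a (a (l 15154688)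 (l 15079416)) (l 15071112))) (b (a (l 14998640) (b (l 15268920) (l 15190000))) (a (b (l 15129624) (a (l 15057576) (l 15047496))) (l 15074280)))) (a (b (a (a (l 14998568) (l 14939760)) (c (b (l 15070456) (l 14970352)) (l 14878400))) (a (a (l 4) (l 14702792)) (l 14719560))) (a (b (c (l 14837632) (l 14823064)) (l 14746672)) (l 14825656))))))), by decide +kernel⟩

theorem s2_pm_012 : ∃ t, chk3 f_pm_012 t 1 1 1 = true := ex3_b k0_pm_012 k1_pm_012

theorem c_pm_012 : CertB 0 536870912 1073741824 536870912 1020054732 13421774 3 eng mog cd1q0 cd3q2 pd1 false true false .pnp 0 1 2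
    ndB1q0 ndB3q2 pcB1 Cut.none Ext.none :=
  certB1 (fam := false) (s1 := true) (s2 := false) (a := 0) (b := 1) (c := 2) (cn := .pnp) (n1 := ndB1q0) (n2 := ndB3q2) (pc := pcB1) (cut := Cut.none) (xt := Ext.none) (P1 := 0) (W1 := 536870912) (P2 := 1073741824) (W2 := 536870912) (P3 := 1020054732) (W3 := 13421774) (N0 := 3) (En := eng) (mo := mog) (C1 := cd1q0) (C2 := cd3q2) (C3 := pd1)
    rfl (fun _ => rfl) s2_pm_012

noncomputable def f_pm_022 : ℕ → ℕ → ℕ → ℕ → Bool := onCell 0 536870912 1073741824 536870912 1020054732 13421774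
    (rowB 3 eng mog cd1q0 cd3q2 pd2 1 false true false .pp 0 2 2 (qsf 0 536870912 1073741824 536870912 2) ndB1q0 ndB3q2 pcB2 Cut.none Ext.none)

def k0_pm_022 : ∃ t, chk3 f_pm_022 t 1 1 1 = true :=
  ⟨(a (b (l 4) (l 4)) (a (b (b (l 4) (l 4)) (l 4)) (b (b (b (a (b (l 14761808) (l 14907400)) (b (l 14641248) (l 14761824))) (a (b (l 15063768) (l 15204032)) (b (l 14895072) (l 2)))) (a (a (l 4) (l 2)) (l 2))) (l 2)))), by decide +kernel⟩

theorem c_pm_022 : CertB 0 536870912 1073741824 536870912 1020054732 13421774 3 eng mog cd1q0 cd3q2 pd2 false true false .pp 0 2 2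
    ndB1q0 ndB3q2 pcB2 Cut.none Ext.none :=
  certB1 (fam := false) (s1 := true) (s2 := false) (a := 0) (b := 2) (c := 2) (cn := .pp) (n1 := ndB1q0) (n2 := ndB3q2) (pc := pcB2) (cut := Cut.none) (xt := Ext.none) (P1 := 0) (W1 := 536870912) (P2 := 1073741824) (W2 := 536870912) (P3 := 1020054732) (W3 := 13421774) (N0 := 3) (En := eng) (mo := mog) (C1 := cd1q0) (C2 := cd3q2) (C3 := pd2)
    rfl (fun _ => rfl) k0_pm_022

noncomputable def f_pm_023 : ℕ → ℕ → ℕ → ℕ → Bool := onCell 0 536870912 0 1230186008 1020054732 13421774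
    (rowB 3 eng mog cd1q0 cd3q3 pd2 0 false true false .up 0 2 3 (qsf 0 536870912 0 1230186008 2) ndB1q0 ndB3q3 pcB2 Cut.none Ext.none)

def k0_pm_023 : ∃ t, chk3 f_pm_023 t 1 1 1 = true :=
  ⟨(a (b (l 2) (b (l 4) (l 4))) (a (b (l 2) (b (l 4) (l 4))) (b (b (a (l 2) (b (l 15519520) (l 15584792))) (b (a (b (l 2) (l 15905736)) (b (l 15630720) (l 15657264))) (a (a (l 4) (l 16063896)) (a (l 15814504) (l 15521272))))) (a (a (b (l 4) (b (l 4) (l 4))) (b (b (b (l 16014560) (l 15934664)) (b (l 15823184) (l 15676632))) (b (b (l 15468648) (l 15108536)) (b (b (l 15047104) (l 14885880)) (b (l 14704664) (l 14505792)))))) (b (b (b (l 15635920) (l 15577304)) (b (l 15482800) (a (l 15480552) (l 15219880)))) (b (b (a (l 15291408) (l 15044240)) (a (l 15048520) (l 14818896))) (b (a (l 14726560) (b (l 14614944) (l 14462584))) (b (a (l 14485976) (l 14283000)) (a (l 14277304) (l 14100912)))))))))), by decide +kernel⟩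

theorem c_pm_023 : CertB 0 536870912 0 1230186008 1020054732 13421774 3 eng mog cd1q0 cd3q3 pd2 false true false .up 0 2 3
    ndB1q0 ndB3q3 pcB2 Cut.none Ext.none :=
  certB0 (fam := false) (s1 := true) (s2 := false) (a := 0) (b := 2) (c := 3) (cn := .up) (n1 := ndB1q0) (n2 := ndB3q3) (pc := pcB2) (cut := Cut.none) (xt := Ext.none) (P1 := 0) (W1 := 536870912) (P2 := 0) (W2 := 1230186008) (P3 := 1020054732) (W3 := 13421774) (N0 := 3) (En := eng) (mo := mog) (C1 := cd1q0) (C2 := cd3q3) (C3 := pd2)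
    rfl k0_pm_023

noncomputable def f_pm_033 : ℕ → ℕ → ℕ → ℕ → Bool := onCell 0 536870912 0 1230186008 1020054732 13421774
    (rowB 3 eng mog cd1q0 cd3q3 pd3 0 false true false .pnn 0 3 3 (qsf 0 536870912 0 1230186008 3) ndB1q0 ndB3q3 pcB3 Cut.none Ext.none)

def k0_pm_033 : ∃ t, chk3 f_pm_033 t 1 1 1 = true :=
  ⟨(a (b (l 4) (b (l 4) (l 4))) (b (a (b (a (l 4) (l 4)) (l 4)) (b (a (b (l 16325216) (l 16292152)) (l 16417968)) (b (b (a (l 16246432) (l 16346816)) (a (l 16217424) (l 16301792))) (a (a (l 4) (l 16156432)) (l 16202656))))) (b (a (l 4) (a (a (l 4) (l 1)) (l 1))) (l 1)))), by decide +kernel⟩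

theorem c_pm_033 : CertB 0 536870912 0 1230186008 1020054732 13421774 3 eng mog cd1q0 cd3q3 pd3 false true false .pnn 0 3 3
    ndB1q0 ndB3q3 pcB3 Cut.none Ext.none :=
  certB0 (fam := false) (s1 := true) (s2 := false) (a := 0) (b := 3) (c := 3) (cn := .pnn) (n1 := ndB1q0) (n2 := ndB3q3) (pc := pcB3) (cut := Cut.none) (xt := Ext.none) (P1 := 0) (W1 := 536870912) (P2 := 0) (W2 := 1230186008) (P3 := 1020054732) (W3 := 13421774) (N0 := 3) (En := eng) (mo := mog) (C1 := cd1q0) (C2 := cd3q3) (C3 := pd3)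
    rfl k0_pm_033

noncomputable def f_pm_101 : ℕ → ℕ → ℕ → ℕ → Bool := onCell 536870912 536870912 536870912 536870912 1020054732 13421774
    (rowB 3 eng mog cd1q1 cd3q1 pd0 0 false true false .npn 1 0 1 (qsf 536870912 536870912 536870912 536870912 0) ndB1q1 ndB3q1 pcB0 Cut.none Ext.none)

def k0_pm_101 : ∃ t, chk3 f_pm_101 t 1 1 1 = true :=
  ⟨(l 4), by decide +kernel⟩

theorem c_pm_101 : CertB 536870912 536870912 536870912 536870912 1020054732 13421774 3 eng mog cd1q1 cd3q1 pd0 false true false .npn 1 0 1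
    ndB1q1 ndB3q1 pcB0 Cut.none Ext.none :=
  certB0 (fam := false) (s1 := true) (s2 := false) (a := 1) (b := 0) (c := 1) (cn := .npn) (n1 := ndB1q1) (n2 := ndB3q1) (pc := pcB0) (cut := Cut.none) (xt := Ext.none) (P1 := 536870912) (W1 := 536870912) (P2 := 536870912) (W2 := 536870912) (P3 := 1020054732) (W3 := 13421774) (N0 := 3) (En := eng) (mo := mog) (C1 := cd1q1) (C2 := cd3q1) (C3 := pd0)
    rfl k0_pm_101

noncomputable def f_pm_102 : ℕ → ℕ → ℕ → ℕ → Bool := onCell 536870912 536870912 0 536870912 1020054732 13421774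
    (rowB 3 eng mog cd1q1 cd3q2 pd0 1 false true false .npp 1 0 2 (qsf 536870912 536870912 1073741824 536870912 0) ndB1q1 ndB3q2 pcB0 Cut.none Ext.none)

def k0_pm_102 : ∃ t, chk3 f_pm_102 t 2 1 1 = true :=
  ⟨(b (a (l 1) (b (l 1) (b (l 1) (a (l 1) (b (l 1) (a (l 1) (l 15698208))))))) (b (a (b (l 1) (a (l 1) (a (l 1) (b (l 1) (l 15877936))))) (b (a (b (l 1) (a (l 1) (l 15790864))) (b (c (l 15700592) (l 15670040)) (a (l 15721960) (l 15557568)))) (a (b (c (l 15802616) (l 15742728)) (a (l 15851392) (l 15682160))) (b (a (l 15613376) (l 15434744)) (a (l 15499680) (l 15306960)))))) (a (b (a (a (l 1) (c (l 329670318487) (l 15821032))) (a (c (l 251824220135) (l 15857392)) (b (l 15910960) (l 15856672)))) (a (c (b (l 15836720) (l 16007024)) (a (l 16043216) (l 15987632))) (a (b (l 15961240) (l 15900048)) (b (l 15780136) (l 15704328))))) (b (a (b (a (l 15763440) (l 15579288)) (a (l 15672976) (l 15474416))) (b (a (l 15382544) (l 15174264)) (a (l 15261888) (l 15036424))))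 (a (a (b (l 15581912) (l 15489992)) (b (l 15367376) (l 15257832))) (b (a (l 15137424) (l 14893056)) (a (l 15008720) (l 14743664)))))))), by decide +kernel⟩

def k1_pm_102 : ∃ t, chk3 f_pm_102 t 3 2 1 = true :=
  ⟨(a (b (b (l 1) (a (l 1) (b (l 1) (a (l 1) (l 548713030967))))) (b (a (b (l 1) (a (l 1) (l 455297526359))) (b (a (l 503079011047) (l 15599696)) (a (l 15599848) (l 15473256)))) (a (b (a (l 15645024) (l 15612496)) (a (l 15637272) (l 15486680))) (b (a (l 15472544) (l 15332832)) (a (l 15333496) (l 15180352)))))) (a (b (b (b (l 1) (b (l 1) (a (l 1) (b (l 1) (l 15694256))))) (b (a (b (l 1) (l 15689944)) (b (l 15662416) (l 15610480))) (a (l 15612608) (l 15521176)))) (b (b (a (l 15489328) (l 15384280)) (a (l 15349624) (l 15231640))) (b (a (l 15195920) (l 15064680)) (a (l 15029552) (l 14883736))))) (b (b (b (b (a (l 1) (a (l 572335958071) (l 15747456))) (b (a (l 1) (l 15636664)) (a (a (l 1) (l 524554258103)) (a (l 15665608) (l 15645224))))) (b (a (b (a (l 1) (l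 15661936)) (l 476772715751)) (a (l 15634392) (l 15611224))) (a (a (l 15659200) (l 15634096)) (l 15596512)))) (b (a (l 15568648) (l 15507968)) (a (l 15436992) (l 15366480)))) (b (a (b (l 15288136) (l 15123192)) (b (l 15206664) (b (l 15074952) (l 14905776)))) (b (a (l 14942480) (a (b (l 14908024) (l 14826512)) (b (l 14698856) (l 14848984)))) (a (a (l 14779568) (b (l 14775328) (l 14703440))) (a (b (l 14767520) (l 14762984)) (l 14846040)))))))), by decide +kernel⟩

def k2_pm_102 : ∃ t, chk3 f_pm_102 t 3 3 1 = true :=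
  ⟨(b (a (b (a (b (a (l 15515184) (l 15351088)) (a (l 15385024) (l 15207208))) (b (a (l 15184336) (l 15016840)) (a (l 15025736) (l 14842488)))) (a (b (a (l 15248296) (l 15055448)) (a (l 15105208) (l 14895784))) (b (a (l 14857784) (l 14657152)) (a (l 14680272) (a (l 14513600) (l 14445264)))))) (b (a (b (a (l 14850800) (b (l 14738736) (l 14654320))) (a (l 14664976) (a (b (l 14585576) (l 14518176)) (l 14559824)))) (b (a (a (b (l 14653208) (l 14615656)) (l 14686944)) (c (l 14705808) (l 14917784))) (a (l 14641128) (c (l 14721472) (l 14942576))))) (a (a (b (a (l 14520464) (l 14396728)) (a (l 14432296) (l 14480360))) (b (l 14544128) (l 14573968))) (a (b (l 14665264) (l 14723608)) (b (c (l 14752256) (l 14978448)) (c (l 14795504) (l 15023288))))))) (a (b (a (b (a (l 14955608) (l 14727936)) (a (l 14799168) (l 14554984))) (b (a (l 14381480) (a (l 14397392) (l 14415016))) (a (a (l 14404752) (l 14382872)) (l 14439640)))) (a (b (a (l 14635432) (a (l 14450272) (l 14392096)))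 (a (a (l 14532856) (l 14442304)) (l 14425776))) (b (a (l 14416168) (l 14497784)) (a (l 14483280) (l 14567704))))) (a (b (a (b (l 14492048) (l 14542200)) (b (l 14617128) (l 14671664))) (a (b (l 14603952) (l 14675648)) (b (l 14735760) (l 14807704)))) (b (a (b (l 14772056) (l 14829616)) (b (a (l 14907408) (a (l 14983408) (b (l 15025496) (l 15029464)))) (a (b (l 14950784) (l 14984544)) (a (l 14865048) (l 15008224))))) (a (b (l 14894432) (a (l 14920912) (a (l 14986576) (l 15010504)))) (a (b (b (l 15001184) (l 15003312)) (l 14995704)) (l 14974552))))))), by decide +kernel⟩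

theorem s3_pm_102 : ∃ t, chk3 f_pm_102 t 3 1 1 = true := ex3_b k1_pm_102 k2_pm_102

theorem s4_pm_102 : ∃ t, chk3 f_pm_102 t 1 1 1 = true := ex3_a k0_pm_102 s3_pm_102

theorem c_pm_102 : CertB 536870912 536870912 1073741824 536870912 1020054732 13421774 3 eng mog cd1q1 cd3q2 pd0 false true false .npp 1 0 2
    ndB1q1 ndB3q2 pcB0 Cut.none Ext.none :=
  certB1 (fam := false) (s1 := true) (s2 := false) (a := 1) (b := 0) (c := 2) (cn := .npp) (n1 := ndB1q1) (n2 := ndB3q2) (pc := pcB0) (cut := Cut.none) (xt := Ext.none) (P1 := 536870912) (W1 := 536870912) (P2 := 1073741824) (W2 := 536870912) (P3 := 1020054732) (W3 := 13421774) (N0 := 3) (En := eng) (mo := mog) (C1 := cd1q1) (C2 := cd3q2) (C3 := pd0)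
    rfl (fun _ => rfl) s4_pm_102

noncomputable def f_pm_112 : ℕ → ℕ → ℕ → ℕ → Bool := onCell 536870912 536870912 536870912 536870912 1020054732 13421774
    (rowB 3 eng mog cd1q1 cd3q2 pd1 1 false true false .dn 1 1 2 (qsf 536870912 536870912 1073741824 536870912 1) ndB1q1 ndB3q2 pcB1 Cut.none Ext.none)

def k0_pm_112 : ∃ t, chk3 f_pm_112 t 2 2 1 = true :=
  ⟨(b (a (b (a (c (a (l 15781936) (l 15769648)) (l 15868232)) (c (a (l 15778472) (l 15810840)) (l 16076696))) (a (c (a (l 15809544) (l 15793040)) (l 15999784)) (c (a (l 15801176) (l 15836584)) (l 15998776)))) (a (b (c (l 15740832) (l 16036344)) (c (b (l 15937000) (l 15767256)) (b (l 16018688) (l 15986432)))) (b (c (a (l 16071688) (b (l 16197392) (l 16222008))) (a (l 15983640) (l 15806736))) (c (a (l 15907808) (l 16138832)) (a (l 15900840) (l 15792096)))))) (a (b (a (c (a (l 15822360) (l 15804144)) (l 15831912)) (c (b (l 15827416) (l 15833240)) (b (l 16007568) (l 15955872)))) (a (c (b (l 15808816) (l 15804344))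 (c (l 16000056) (l 15775160))) (c (b (a (l 15818024) (l 15867272)) (a (l 15819040) (l 15868264))) (b (l 15699816) (l 15729696))))) (a (b (c (a (b (l 15924032) (l 15936416)) (l 16024440)) (a (l 15776512) (l 15845536))) (c (l 15967112) (l 15712024))) (b (c (l 15773360) (l 15697120)) (c (l 15797960) (l 15533096)))))), by decide +kernel⟩

def k1_pm_112 : ∃ t, chk3 f_pm_112 t 3 2 1 = true :=
  ⟨(b (a (b (a (a (b (c (l 16207728) (l 15832552)) (l 15851232)) (c (l 15897032) (l 15647600))) (c (b (l 15394848) (l 15404632)) (a (l 15489680) (l 15331112)))) (a (c (b (l 15855536) (l 15752360)) (l 15428128)) (c (a (l 15436304) (l 15182224)) (a (l 15397408) (l 15267016))))) (a (b (c (a (b (l 15066968) (l 14997840)) (b (l 14757216) (l 14708296))) (a (l 15174088) (b (l 15027696) (l 15016792)))) (a (c (b (l 14945312) (l 14910560)) (l 15140488)) (c (b (a (l 14745240) (l 14630608)) (l 207865071511)) (b (l 15021656) (l 15038752))))) (b (a (c (b (a (l 14531288) (a (l 14461184) (l 14477256)))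 (a (l 14521712) (l 14563240))) (b (a (l 14914408) (l 14876424)) (a (l 14930464) (l 14924048)))) (c (b (a (l 14531656) (l 14609560)) (l 294838054215)) (b (l 14901824) (l 14943880)))) (a (b (c (a (l 14609208) (l 2)) (l 14966248)) (l 2)) (l 2))))) (a (b (a (c (a (l 15720048) (l 15518072)) (l 15488072)) (c (a (l 15310776) (l 15101536)) (a (l 15334920) (l 15238176)))) (a (c (l 15486560) (l 15407192)) (c (a (l 15248856) (l 2)) (l 110155701895)))) (a (a (b (b (l 194980781383) (l 2)) (l 2)) (l 2)) (l 2)))), by decide +kernel⟩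

def k2_pm_112 : ∃ t, chk3 f_pm_112 t 1 3 1 = true :=
  ⟨(b (b (a (a (a (a (c (l 15592072) (l 15571576)) (c (a (l 15706872) (l 15753552)) (b (l 15762456) (l 15651000)))) (b (c (l 15836112) (l 15685776)) (c (l 15820480) (l 15585184)))) (a (c (l 15855608) (l 15529800)) (c (l 15630784) (l 15431344)))) (a (a (c (l 15411096) (l 15357512)) (l 2)) (l 2))) (a (b (a (a (a (c (l 15781488) (l 15560304)) (l 15768176)) (l 15466056)) (a (l 15553744) (l 15447072))) (a (a (a (c (l 15763704) (l 15423624)) (l 15624128)) (l 15469424)) (a (l 15464976) (l 2)))) (l 2))) (a (a (b (a (c (l 15630736) (l 15091144)) (c (l 15547136) (l 15199632))) (a (c (l 15319840) (l 14946224)) (c (l 15311064) (l 14987856)))) (b (a (c (l 15473216) (l 15207208)) (l 2)) (l 2))) (l 2))), by decide +kernel⟩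

theorem s3_pm_112 : ∃ t, chk3 f_pm_112 t 1 2 1 = true := ex3_a k0_pm_112 k1_pm_112

theorem s4_pm_112 : ∃ t, chk3 f_pm_112 t 1 1 1 = true := ex3_b s3_pm_112 k2_pm_112

theorem c_pm_112 : CertB 536870912 536870912 1073741824 536870912 1020054732 13421774 3 eng mog cd1q1 cd3q2 pd1 false true false .dn 1 1 2
    ndB1q1 ndB3q2 pcB1 Cut.none Ext.none :=
  certB1 (fam := false) (s1 := true) (s2 := false) (a := 1) (b := 1) (c := 2) (cn := .dn) (n1 := ndB1q1) (n2 := ndB3q2) (pc := pcB1) (cut := Cut.none) (xt := Ext.none) (P1 := 536870912) (W1 := 536870912) (P2 := 1073741824) (W2 := 536870912) (P3 := 1020054732) (W3 := 13421774) (N0 := 3) (En := eng) (mo := mog) (C1 := cd1q1) (C2 := cd3q2) (C3 := pd1)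
    rfl (fun _ => rfl) s4_pm_112

noncomputable def f_pm_113 : ℕ → ℕ → ℕ → ℕ → Bool := onCell 536870912 536870912 0 1230186008 1020054732 13421774
    (rowB 3 eng mog cd1q1 cd3q3 pd1 0 false true false .nn 1 1 3 (qsf 536870912 536870912 0 1230186008 1) ndB1q1 ndB3q3 pcB1 Cut.none Ext.none)

def k0_pm_113 : ∃ t, chk3 f_pm_113 t 2 1 1 = true :=
  ⟨(b (l 2) (b (a (l 2) (b (l 2) (a (l 2) (b (l 2) (a (l 2) (l 15130440)))))) (b (a (l 2) (a (b (a (l 2) (l 14547056)) (c (a (l 14831512) (l 15009888)) (a (l 14539408) (l 14738736)))) (b (c (l 14907192) (l 14940656)) (a (l 14789584) (l 14922976))))) (a (b (a (l 2) (a (b (l 2) (l 14523352)) (b (l 14616280) (l 14733784)))) (a (b (a (l 2) (l 14447552)) (a (l 14391152) (l 14627128))) (c (b (l 14952976) (l 15123616)) (b (l 14590856) (l 14746384))))) (b (a (c (a (l 15019304) (l 15167640)) (a (l 14708480) (l 14892320))) (c (a (l 15279352) (l 15352912)) (a (l 15048712) (l 15176184)))) (a (c (b (l 15269248) (l 15407000)) (b (l 14964256)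 (l 15088472))) (c (b (l 15443840) (l 15551160)) (b (l 15231496) (l 15326216))))))))), by decide +kernel⟩

def k1_pm_113 : ∃ t, chk3 f_pm_113 t 6 1 1 = true :=
  ⟨(b (l 2) (b (b (a (l 2) (a (b (l 2) (l 15665072)) (b (l 15665936) (l 15510664)))) (a (b (a (l 15360776) (l 15527304)) (a (l 15292880) (l 15415136))) (b (a (l 15419152) (l 15424096)) (a (c (l 15486464) (l 15427416)) (l 15377704))))) (b (a (b (c (l 15134160) (l 15142800)) (c (a (l 15330128) (l 15352480)) (a (l 15206072) (l 15298272)))) (b (a (c (l 15389208) (l 15379792)) (c (l 15322640) (l 15371320))) (a (c (l 15330040) (l 15356736)) (c (l 15264720) (l 15375904))))) (a (b (c (a (l 15386608) (l 15379552)) (a (l 15273744) (l 15341304))) (c (a (l 15517728) (l 15485656)) (b (l 15387656) (l 15457240)))) (b (c (a (l 15332800) (l 15249264)) (a (l 15380424) (l 15394160))) (b (a (l 15411424) (l 15112192)) (c (l 15153976) (l 15489864)))))))), by decide +kernel⟩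

def k2_pm_113 : ∃ t, chk3 f_pm_113 t 7 1 1 = true :=
  ⟨(b (b (a (l 2) (a (l 2) (b (l 16749280) (l 16742920)))) (b (b (a (l 2) (a (l 16705248) (l 16744544))) (a (a (l 2) (l 16685864)) (a (l 16491120) (l 16338736)))) (a (a (l 15934024) (l 15767544)) (a (b (l 15846496) (l 15482968)) (b (l 15719184) (l 15374208)))))) (b (b (a (a (b (l 15514032) (l 15378088)) (b (l 15386560) (l 15266016))) (a (b (l 15279128) (l 15175744)) (b (l 15232584) (c (l 15118504) (l 15103672))))) (a (b (a (l 15306152) (l 15209992)) (a (l 15274784) (l 14965448))) (b (a (c (l 15136248) (l 15144512)) (c (l 15089400) (l 15108696))) (a (c (l 15121384) (l 15173728)) (c (l 15229664) (l 15159528)))))) (b (a (b (a (c (l 15226368) (l 15307912)) (c (l 15158720) (l 15257304))) (a (b (l 15266624) (l 15057472)) (c (l 15140656) (l 15312400)))) (b (a (c (l 15106504) (l 15232376)) (c (b (l 15129832) (l 15149616)) (l 15238944))) (a (c (b (l 15133984) (l 15134472)) (l 15304648)) (c (b (l 15168264) (l 15183024))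 (b (l 15307024) (l 15352704)))))) (a (b (a (c (b (l 15154120) (l 15144888)) (b (l 15374856) (l 15393680))) (b (c (l 15116056) (l 15353512)) (c (l 15094608) (l 15379552)))) (c (a (b (l 15164248) (l 15216680)) (b (a (l 15071176) (l 15049224)) (a (l 15099344) (l 15038888)))) (b (a (l 15419336) (l 15397600)) (a (l 15459928) (l 15403880))))) (b (a (c (b (l 15128712) (l 15113792)) (b (l 15357296) (l 15387536))) (c (b (l 15191032) (l 15063384)) (b (l 15395672) (l 15433312)))) (a (b (c (l 15086608) (l 15410544)) (c (a (l 15022760) (l 15062640)) (a (l 15411064) (l 15433592)))) (c (b (a (l 15146176) (l 15204720)) (a (l 15111744) (l 15176024))) (b (l 15420816) (l 15292128))))))))), by decide +kernel⟩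

theorem s3_pm_113 : ∃ t, chk3 f_pm_113 t 3 1 1 = true := ex3_a k1_pm_113 k2_pm_113

theorem s4_pm_113 : ∃ t, chk3 f_pm_113 t 1 1 1 = true := ex3_a k0_pm_113 s3_pm_113

theorem c_pm_113 : CertB 536870912 536870912 0 1230186008 1020054732 13421774 3 eng mog cd1q1 cd3q3 pd1 false true false .nn 1 1 3
    ndB1q1 ndB3q3 pcB1 Cut.none Ext.none :=
  certB0 (fam := false) (s1 := true) (s2 := false) (a := 1) (b := 1) (c := 3) (cn := .nn) (n1 := ndB1q1) (n2 := ndB3q3) (pc := pcB1) (cut := Cut.none) (xt := Ext.none) (P1 := 536870912) (W1 := 536870912) (P2 := 0) (W2 := 1230186008) (P3 := 1020054732) (W3 := 13421774) (N0 := 3) (En := eng) (mo := mog) (C1 := cd1q1) (C2 := cd3q3) (C3 := pd1)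
    rfl s4_pm_113

noncomputable def f_pm_123 : ℕ → ℕ → ℕ → ℕ → Bool := onCell 1073741824 536870912 0 1230186008 1020054732 13421774
    (rowB 3 eng mog cd1q1 cd3q3 pd2 2 false true false .npn 1 2 3 (qsf 536870912 536870912 0 1230186008 2) ndB1q1 ndB3q3 pcB2 Cut.none Ext.none)

def k0_pm_123 : ∃ t, chk3 f_pm_123 t 1 2 1 = true :=
  ⟨(b (a (a (a (b (l 16514312) (a (l 16790904) (l 16558512))) (b (l 16336784) (a (l 16332408) (l 16091336)))) (a (b (l 15873088) (l 15726848)) (b (l 15404560) (l 15247800)))) (a (a (b (l 14959896) (l 14799816)) (b (l 14562488) (l 14416640))) (a (b (l 14309296) (a (l 14274480) (l 14398728))) (b (l 14600056) (l 14798632))))) (a (b (b (a (a (a (l 16512744) (l 16124432)) (b (l 15959864) (l 15820632))) (a (l 15403496) (l 15036576))) (a (a (a (l 15963152) (l 15784328)) (l 15605280)) (a (l 15247448) (l 14830488)))) (a (a (b (a (l 15523232) (l 15461760)) (l 15197896)) (a (l 15237808) (l 15116984))) (a (l 14875752) (b (l 14615112) (l 14437352)))))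 (b (a (b (a (l 14600304) (a (l 14314664) (l 14253512))) (a (l 14431600) (a (l 14264560) (l 14381712)))) (b (a (l 14508408) (l 15037912)) (a (l 14703560) (l 15254440)))) (a (a (b (a (l 14351560) (l 14286536)) (a (l 14320112) (l 14431672))) (a (l 14493672) (l 14688608))) (a (a (l 14922800) (l 15189712)) (a (l 15480328) (l 1))))))), by decide +kernel⟩

def k1_pm_123 : ∃ t, chk3 f_pm_123 t 1 3 1 = true :=
  ⟨(a (a (b (b (a (a (b (l 14954392) (l 14790328)) (l 14848984)) (b (l 14828008) (l 14450568))) (a (b (a (l 14685784) (l 14627800)) (a (l 14612376) (l 14538808))) (b (a (l 14539680) (l 14462376)) (a (l 14479488) (l 14470552))))) (b (a (b (a (l 14520656) (l 14471080)) (a (l 14434216) (l 14435200))) (b (a (l 14470712) (l 14513712)) (a (l 14487456) (l 14578880)))) (a (b (a (l 14223600) (l 14293920)) (a (b (l 14330856) (l 14308072)) (b (l 14414944) (l 14413720)))) (b (a (l 14437408) (l 14615200)) (a (b (l 14551200) (l 1)) (l 1)))))) (b (b (a (b (l 14542992) (a (l 14453216)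 (l 14395784))) (b (a (l 14365632) (l 14375848)) (l 14472136))) (a (b (l 14412896) (a (l 14508864) (l 14592888))) (b (l 14624536) (l 14799112)))) (b (a (b (a (l 14600080) (l 14727568)) (a (l 14709424) (l 14876360))) (b (a (l 14894264) (l 15096920)) (l 1))) (a (b (a (l 193302675495) (l 1)) (l 1)) (l 1))))) (b (a (b (a (a (l 14566336) (l 14731816)) (b (l 14928008) (l 15184320))) (a (b (l 14970128) (a (l 15095464) (l 15328216))) (b (a (l 15325896) (l 1)) (l 1)))) (a (b (a (l 15375600) (l 1)) (l 1)) (l 1))) (l 1))), by decide +kernel⟩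

theorem s2_pm_123 : ∃ t, chk3 f_pm_123 t 1 1 1 = true := ex3_b k0_pm_123 k1_pm_123

theorem c_pm_123 : CertB 536870912 536870912 0 1230186008 1020054732 13421774 3 eng mog cd1q1 cd3q3 pd2 false true false .npn 1 2 3
    ndB1q1 ndB3q3 pcB2 Cut.none Ext.none :=
  certB2 (fam := false) (s1 := true) (s2 := false) (a := 1) (b := 2) (c := 3) (cn := .npn) (n1 := ndB1q1) (n2 := ndB3q3) (pc := pcB2) (cut := Cut.none) (xt := Ext.none) (P1 := 536870912) (W1 := 536870912) (P2 := 0) (W2 := 1230186008) (P3 := 1020054732) (W3 := 13421774) (N0 := 3) (En := eng) (mo := mog) (C1 := cd1q1) (C2 := cd3q3) (C3 := pd2)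
    rfl (fun _ => rfl) s2_pm_123

noncomputable def f_pm_133 : ℕ → ℕ → ℕ → ℕ → Bool := onCell 1610612736 536870912 0 1230186008 1020054732 13421774
    (rowB 3 eng mog cd1q1 cd3q3 pd3 2 false true false .dn 1 3 3 (qsf 536870912 536870912 0 1230186008 3) ndB1q1 ndB3q3 pcB3 Cut.none Ext.none)

def k0_pm_133 : ∃ t, chk3 f_pm_133 t 1 1 1 = true :=
  ⟨(b (b (a (a (a (l 16077384) (l 1)) (l 1)) (l 1)) (l 1)) (l 1)), by decide +kernel⟩

theorem c_pm_133 : CertB 536870912 536870912 0 1230186008 1020054732 13421774 3 eng mog cd1q1 cd3q3 pd3 false true false .dn 1 3 3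
    ndB1q1 ndB3q3 pcB3 Cut.none Ext.none :=
  certB2 (fam := false) (s1 := true) (s2 := false) (a := 1) (b := 3) (c := 3) (cn := .dn) (n1 := ndB1q1) (n2 := ndB3q3) (pc := pcB3) (cut := Cut.none) (xt := Ext.none) (P1 := 536870912) (W1 := 536870912) (P2 := 0) (W2 := 1230186008) (P3 := 1020054732) (W3 := 13421774) (N0 := 3) (En := eng) (mo := mog) (C1 := cd1q1) (C2 := cd3q3) (C3 := pd3)
    rfl (fun _ => rfl) k0_pm_133

noncomputable def f_pm_202_a : ℕ → ℕ → ℕ → ℕ → Bool := onCell 0 536870912 0 536870912 1020054732 13421774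
    (rowB 3 eng mog cd1q2a cd3q2 pd0 1 false true false .pp 2 0 2 (qsf 0 536870912 1073741824 536870912 0) ndB1q2a ndB3q2 pcB0 Cut.none Ext.none)

def k0_pm_202_a : ∃ t, chk3 f_pm_202_a t 2 1 1 = true :=
  ⟨(l 3), by decide +kernel⟩

def k1_pm_202_a : ∃ t, chk3 f_pm_202_a t 6 1 1 = true :=
  ⟨(l 3), by decide +kernel⟩

def k2_pm_202_a : ∃ t, chk3 f_pm_202_a t 14 8 1 = true :=
  ⟨(b (b (a (l 3) (a (l 3) (a (l 3) (a (l 3) (a (l 3) (a (l 3) (b (b (b (b (l 16517648) (l 16541512)) (l 16525152)) (b (l 16550912) (l 3))) (l 3)))))))) (l 3)) (l 3)), by decide +kernel⟩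

def k3_pm_202_a : ∃ t, chk3 f_pm_202_a t 30 8 1 = true :=
  ⟨(a (b (a (a (b (a (b (b (b (b (c (l 16553456) (l 16518960)) (a (l 16522760) (l 16525560))) (c (l 16540032) (b (l 16536408) (l 16539312)))) (b (b (l 16533320) (l 16536536)) (l 16519440))) (b (l 16548448) (l 16581168))) (b (b (b (l 16530736) (b (c (l 16564664) (l 16542376)) (l 16535072))) (b (b (l 16558888) (l 16540456)) (a (l 16565728) (l 16568048)))) (b (b (l 16572960) (l 16578696)) (l 16587208)))) (b (l 46338195623) (l 16586736))) (b (b (b (b (l 16543048) (b (l 16566224) (l 16546160))) (b (a (b (l 16543136) (l 16566616)) (b (l 16572640) (l 16573120))) (a (l 16571192) (l 16555272)))) (b (b (l 16579808) (a (l 16584072) (l 16588384))) (a (l 16572312) (l 16597920)))) (b (b (l 16586864) (l 16598768)) (l 16596304)))) (b (b (b (c (l 16579088) (l 16561736)) (b (l 16575632) (c (l 16587816) (l 16545152)))) (b (a (b (b (l 16568456) (l 16591336)) (l 16574464)) (b (l 16609672) (l 16588616))) (a (l 16604336) (b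 (l 16591120) (l 16616672))))) (b (b (l 16579904) (a (l 16608928) (l 16618480))) (a (l 16585400) (l 16594952))))) (b (a (b (l 16576880) (l 16590408)) (b (l 16593864) (l 16590752))) (b (a (l 16551808) (l 16553264)) (l 81234702535)))) (b (b (b (b (a (l 16605688) (l 16641800)) (a (l 16595272) (l 16656648))) (b (a (l 16600600) (l 16644944)) (a (b (l 16622592) (a (l 16610032) (l 16655088))) (l 16649416)))) (b (a (b (a (l 16574560) (l 16590768)) (a (l 16627968) (l 16618856))) (b (l 16650696) (b (l 16650024) (l 16627328)))) (a (l 16610200) (b (a (l 16642288) (l 16638568)) (b (l 16657328) (l 16703416)))))) (b (b (l 16600512) (a (l 16588728) (l 16603632))) (a (b (l 16553304) (l 16538704)) (b (l 16568480) (l 16555176)))))), by decide +kernel⟩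

def k4_pm_202_a : ∃ t, chk3 f_pm_202_a t 31 8 1 = true :=
  ⟨(b (b (b (a (b (b (l 16671776) (l 16682752)) (l 16677104)) (b (a (l 16676072) (l 16708560)) (a (l 16663328) (b (l 16688832) (l 16673688))))) (a (a (l 16661488) (l 16633056)) (a (l 16624696) (b (l 16627432) (l 16623728))))) (b (a (b (l 16626232) (l 16615904)) (b (l 16598824) (l 16582376))) (b (a (l 16608640) (l 16569424)) (a (a (a (l 16635504) (l 16677664)) (l 16625112)) (l 16497032))))) (b (b (a (b (a (l 16616696) (l 16623832)) (a (l 16624200) (l 16601192))) (b (l 16537288) (l 16558352))) (a (b (a (l 16648104) (l 16593336)) (l 16541704)) (b (l 16557520) (l 16492712)))) (a (b (l 16556768) (l 16521136)) (b (a (l 16476512) (l 16509672)) (a (l 16548904) (b (l 16456848) (l 16526760))))))), by decide +kernel⟩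

def k5_pm_202_a : ∃ t, chk3 f_pm_202_a t 7 9 1 = true :=
  ⟨(a (l 3) (a (a (b (b (a (l 16421768) (l 16442792)) (a (l 16377032) (l 16396304))) (b (c (l 16365904) (l 16430288)) (c (l 16304728) (l 16375040)))) (b (b (b (l 16480400) (l 16445840)) (b (l 16432552) (l 16440784))) (b (l 16307640) (l 16266312)))) (b (b (a (c (l 16484864) (l 16538048)) (l 16384624)) (a (c (l 16415024) (l 16474544)) (l 16356936))) (a (b (c (l 16346752) (l 16412736)) (l 16169144)) (b (l 16311264) (l 16268392)))))), by decide +kernel⟩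

def k6_pm_202_a : ∃ t, chk3 f_pm_202_a t 7 5 1 = true :=
  ⟨(a (l 3) (b (b (a (b (a (l 93582035079) (l 16207616)) (a (l 93581919127) (l 16152424))) (a (b (l 16191504) (l 16195832)) (b (l 16186432) (l 16127432)))) (a (b (a (l 87139361319) (l 16100664)) (a (l 15993344) (l 16073200))) (a (b (l 16140040) (l 16087672)) (b (l 16070048) (l 16056712))))) (c (a (b (a (l 16009320) (l 16000664)) (a (l 15954584) (l 15919608))) (b (b (l 15973056) (l 15924512)) (l 15793832))) (a (b (b (l 16132080) (l 16093296)) (l 15956224)) (b (l 15878960) (l 15962000)))))), by decide +kernel⟩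

def k7_pm_202_a : ∃ t, chk3 f_pm_202_a t 7 3 1 = true :=
  ⟨(a (l 3) (b (b (a (b (c (l 67811358231) (l 15977960)) (c (l 15815016) (l 15925200))) (b (c (l 15777768) (l 15887856)) (c (l 15711152) (l 15824440)))) (a (b (c (l 15769576) (l 15880992)) (l 72105993159)) (b (c (l 15656072) (l 15770944)) (l 15500592)))) (b (a (b (l 153173443287) (l 184311912119)) (b (l 15569968) (l 15605464))) (a (b (l 190217459911) (l 195049276087)) (b (l 15585168) (l 15571048)))))), by decide +kernel⟩

theorem s8_pm_202_a : ∃ t, chk3 f_pm_202_a t 15 8 1 = true := ex3_a k3_pm_202_a k4_pm_202_a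

theorem s9_pm_202_a : ∃ t, chk3 f_pm_202_a t 7 8 1 = true := ex3_a k2_pm_202_a s8_pm_202_a

theorem s10_pm_202_a : ∃ t, chk3 f_pm_202_a t 7 4 1 = true := ex3_b s9_pm_202_a k5_pm_202_a

theorem s11_pm_202_a : ∃ t, chk3 f_pm_202_a t 7 2 1 = true := ex3_b s10_pm_202_a k6_pm_202_a

theorem s12_pm_202_a : ∃ t, chk3 f_pm_202_a t 7 1 1 = true := ex3_b s11_pm_202_a k7_pm_202_a

theorem s13_pm_202_a : ∃ t, chk3 f_pm_202_a t 3 1 1 = true := ex3_a k1_pm_202_a s12_pm_202_a

theorem s14_pm_202_a : ∃ t, chk3 f_pm_202_a t 1 1 1 = true := ex3_a k0_pm_202_a s13_pm_202_a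

theorem c_pm_202_a : CertB 0 536870912 1073741824 536870912 1020054732 13421774 3 eng mog cd1q2a cd3q2 pd0 false true false .pp 2 0 2
    ndB1q2a ndB3q2 pcB0 Cut.none Ext.none :=
  certB1 (fam := false) (s1 := true) (s2 := false) (a := 2) (b := 0) (c := 2) (cn := .pp) (n1 := ndB1q2a) (n2 := ndB3q2) (pc := pcB0) (cut := Cut.none) (xt := Ext.none) (P1 := 0) (W1 := 536870912) (P2 := 1073741824) (W2 := 536870912) (P3 := 1020054732) (W3 := 13421774) (N0 := 3) (En := eng) (mo := mog) (C1 := cd1q2a) (C2 := cd3q2) (C3 := pd0)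
    rfl (fun _ => rfl) s14_pm_202_a

noncomputable def f_pm_202_b : ℕ → ℕ → ℕ → ℕ → Bool := onCell 1239849684 370763052 1073741824 536870912 1020054732 13421774
    (rowB 3 eng mog cd1q2b cd3q2 pd0 0 false true false .pp 2 0 2 (qsf 1239849684 370763052 1073741824 536870912 0) ndB1q2b ndB3q2 pcB0 Cut.none Ext.none)

def k0_pm_202_b : ∃ t, chk3 f_pm_202_b t 1 1 1 = true :=
  ⟨(l 3), by decide +kernel⟩

theorem c_pm_202_b : CertB 1239849684 370763052 1073741824 536870912 1020054732 13421774 3 eng mog cd1q2b cd3q2 pd0 false true false .pp 2 0 2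
    ndB1q2b ndB3q2 pcB0 Cut.none Ext.none :=
  certB0 (fam := false) (s1 := true) (s2 := false) (a := 2) (b := 0) (c := 2) (cn := .pp) (n1 := ndB1q2b) (n2 := ndB3q2) (pc := pcB0) (cut := Cut.none) (xt := Ext.none) (P1 := 1239849684) (W1 := 370763052) (P2 := 1073741824) (W2 := 536870912) (P3 := 1020054732) (W3 := 13421774) (N0 := 3) (En := eng) (mo := mog) (C1 := cd1q2b) (C2 := cd3q2) (C3 := pd0)
    rfl k0_pm_202_b

noncomputable def f_pm_203_a : ℕ → ℕ → ℕ → ℕ → Bool := onCell 0 536870912 0 1230186008 1020054732 13421774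
    (rowB 3 eng mog cd1q2a cd3q3 pd0 0 false true false .up 2 0 3 (qsf 0 536870912 0 1230186008 0) ndB1q2a ndB3q3 pcB0 Cut.none Ext.none)

def k0_pm_203_a : ∃ t, chk3 f_pm_203_a t 1 1 1 = true :=
  ⟨(b (l 2) (b (l 2) (a (l 3) (b (l 2) (a (l 3) (a (l 3) (b (l 2) (a (b (l 195587184679) (l 176259958503)) (b (l 2) (l 15996368)))))))))), by decide +kernel⟩

theorem c_pm_203_a : CertB 0 536870912 0 1230186008 1020054732 13421774 3 eng mog cd1q2a cd3q3 pd0 false true false .up 2 0 3
    ndB1q2a ndB3q3 pcB0 Cut.none Ext.none :=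
  certB0 (fam := false) (s1 := true) (s2 := false) (a := 2) (b := 0) (c := 3) (cn := .up) (n1 := ndB1q2a) (n2 := ndB3q3) (pc := pcB0) (cut := Cut.none) (xt := Ext.none) (P1 := 0) (W1 := 536870912) (P2 := 0) (W2 := 1230186008) (P3 := 1020054732) (W3 := 13421774) (N0 := 3) (En := eng) (mo := mog) (C1 := cd1q2a) (C2 := cd3q3) (C3 := pd0)
    rfl k0_pm_203_a

noncomputable def f_pm_203_b : ℕ → ℕ → ℕ → ℕ → Bool := onCell 1239849684 370763052 0 1230186008 1020054732 13421774
    (rowB 3 eng mog cd1q2b cd3q3 pd0 0 false true false .up 2 0 3 (qsf 1239849684 370763052 0 1230186008 0) ndB1q2b ndB3q3 pcB0 Cut.none Ext.none)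

def k0_pm_203_b : ∃ t, chk3 f_pm_203_b t 1 1 1 = true :=
  ⟨(b (l 3) (l 3)), by decide +kernel⟩

theorem c_pm_203_b : CertB 1239849684 370763052 0 1230186008 1020054732 13421774 3 eng mog cd1q2b cd3q3 pd0 false true false .up 2 0 3
    ndB1q2b ndB3q3 pcB0 Cut.none Ext.none :=
  certB0 (fam := false) (s1 := true) (s2 := false) (a := 2) (b := 0) (c := 3) (cn := .up) (n1 := ndB1q2b) (n2 := ndB3q3) (pc := pcB0) (cut := Cut.none) (xt := Ext.none) (P1 := 1239849684) (W1 := 370763052) (P2 := 0) (W2 := 1230186008) (P3 := 1020054732) (W3 := 13421774) (N0 := 3) (En := eng) (mo := mog) (C1 := cd1q2b) (C2 := cd3q3) (C3 := pd0)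
    rfl k0_pm_203_b

noncomputable def cut_pm_213_a : Cut := Cut.of [[⟨0, 1, 0, 26738688⟩, ⟨1, 1, 0, 26738688⟩, ⟨2, 2, 0, 2621440⟩]]

noncomputable def xt_pm_213_a : Ext := extD3 3 ⟨4, 1, 1, 5, 99, 20, 33, 40, 51, 125, 1, 32⟩ eng cd1q2a cd3q3 pd1 false true false .pnn 2 1 3 rfl ndB1q2a ndB3q3 pcB1

noncomputable def f_pm_213_a : ℕ → ℕ → ℕ → ℕ → Bool := onCell 0 536870912 0 1230186008 1020054732 13421774
    (rowB 3 eng mog cd1q2a cd3q3 pd1 0 false true false .pnn 2 1 3 (qsf 0 536870912 0 1230186008 1) ndB1q2a ndB3q3 pcB1 cut_pm_213_a xt_pm_213_a)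

def k0_pm_213_a : ∃ t, chk3 f_pm_213_a t 2 1 1 = true :=
  ⟨(b (l 3) (l 3)), by decide +kernel⟩

def k1_pm_213_a : ∃ t, chk3 f_pm_213_a t 6 1 1 = true :=
  ⟨(b (l 3) (b (l 3) (l 3))), by decide +kernel⟩

def k2_pm_213_a : ∃ t, chk3 f_pm_213_a t 14 1 1 = true :=
  ⟨(b (l 3) (b (l 3) (b (l 3) (l 3)))), by decide +kernel⟩

def k3_pm_213_a : ∃ t, chk3 f_pm_213_a t 30 1 1 = true :=
  ⟨(b (b (l 3) (l 3)) (b (b (l 3) (l 3)) (a (b (l 3) (l 3)) (b (b (l 3) (l 3)) (a (b (l 3) (l 3)) (b (b (l 1002504206903) (c (l 16070224) (l 16178120))) (b (l 217598800391) (l 216525150375)))))))), by decide +kernel⟩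

def k4_pm_213_a : ∃ t, chk3 f_pm_213_a t 62 1 1 = true :=
  ⟨(b (b (b (l 3) (l 3)) (b (l 3) (b (l 3) (b (l 3) (l 3))))) (b (b (a (l 3) (b (b (b (l 873118190151) (l 261085313127)) (b (l 258400917783) (l 255716539511))) (b (c (l 253032174231) (l 258937698007)) (c (l 15737712) (l 15721176))))) (b (b (c (l 233168067911) (l 234241835223)) (c (l 228336261511) (l 263232490951))) (b (c (l 226188814119) (l 257327021879)) (c (l 260548191383) (l 298128883399))))) (b (b (b (b (l 297055081671) (l 298665707815)) (b (l 300813207751) (l 15701632))) (b (c (l 15892384) (l 15955640)) (c (l 15935896) (l 15987928)))) (b (b (c (l 15985440) (l 16067232)) (c (l 16041352) (l 16130616))) (b (c (l 16062048) (l 16199064)) (c (l 16173544) (l 16272480))))))), by decide +kernel⟩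

def k5_pm_213_a : ∃ t, chk3 f_pm_213_a t 126 4 1 = true :=
  ⟨(b (l 3) (b (l 3) (b (l 3) (l 3)))), by decide +kernel⟩

def k6_pm_213_a : ∃ t, chk3 f_pm_213_a t 127 8 1 = true :=
  ⟨(b (l 6) (a (b (l 3) (a (l 3) (b (l 3) (a (l 3) (l 7633157625190829611857215583))))) (b (b (b (l 6) (a (a (l 3) (a (l 8290813271061216401483972703) (c (l 2981814975633118173433718367) (l 2972143464448573085137348191)))) (a (a (l 603810788413423979062879) (l 16774224)) (l 16768056)))) (a (a (l 7391372461267898073198100575) (b (a (c (l 6085732576084153952420331615) (l 6047046949856478328407572575)) (l 603771877419708464244319)) (c (l 603758042388247630866015) (l 603660044066884399752799)))) (b (a (c (l 16769624) (l 16769792)) (l 16778952)) (c (l 16774528) (l 16775008))))) (a (b (a (a (l 7488086526837084831132401759) (b (l 6037375543299552430196424799) (b (l 2691672510006657150982219359) (l 603544463588603336205919)))) (b (l 603676761402862666475103) (l 603517081684795681482335))) (b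 (a (a (l 6008361323628806827563040863) (l 603718554746931505456735)) (l 603350772759267974473311)) (c (l 1985659411399947632865273439) (l 1937302287534576727378880095)))) (c (b (a (l 16770792) (l 16779688)) (l 16776168)) (b (a (l 16771008) (l 16780416)) (l 16776560))))))), by decide +kernel⟩

def k7_pm_213_a : ∃ t, chk3 f_pm_213_a t 127 9 1 = true :=
  ⟨(c (b (a (b (a (l 3) (a (l 8426212962858009926500892767) (b (b (l 6008361323628847921815945311) (l 3852241057029054039003063903)) (l 2527258244592120863818917471)))) (a (b (l 3) (l 3)) (b (a (b (l 5805864964488777768779310687) (l 4094025987197064825421047391)) (l 603159964205587911976543)) (a (l 3242942063478998253604873823) (l 603539275496808193467999))))) (b (a (b (a (l 603323967347754881164895) (l 16773264)) (l 602701677912317021218399)) (b (l 16763168) (l 16785592))) (a (b (l 602514760694939532678687) (l 16766416)) (b (l 16783896) (l 16781280))))) (b (a (a (a (l 3) (b (b (l 5273937052761735011101435487) (l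 3494397978522956819407447775)) (b (l 602022895437159038133983) (l 602203039397652279715551)))) (b (b (l 602589267954017440949855) (l 602615208835892843161183)) (l 602418635679706229728991))) (a (b (l 602163696096786733848095) (l 16757648)) (b (l 16777688) (l 16773016)))) (a (a (b (a (l 5524790995782670521537036511) (l 601956025743601222149855)) (a (b (l 143733348242292959) (l 601470357650907594908895)) (l 600481727293512744232159))) (b (l 602143087382518260360927) (l 601253896423875467797727))) (b (l 599456059943217537275423) (l 599969110012767571760671))))) (b (a (b (a (l 3) (a (l 8300484677618092478063935583) (b (l 5930990071173467468004950111) (l 2507915144112631185705821791)))) (a (b (l 3) (l 3)) (b (a (b (l 7004516198991269582575452255) (l 5776247566262772668519956575)) (l 602939756223015737058911)) (a (l 3175241786387976429036938847) (l 603319643795493048264287))))) (b (a (b (a (l 603225680806941896156767) (l 16773592)) (l 602714648293881097643615)) (b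 (l 16763560) (l 16785104))) (a (b (l 602517786899072041903711) (l 16769088)) (b (l 16783288) (l 16780528))))) (b (a (a (a (l 3) (b (b (l 6917473539978889838139195487) (l 5621505061351974102611378399)) (l 3310640398761911485191709919))) (b (l 602489540247442358953567) (l 602289220045925671216863))) (b (a (l 602189636830640386283039) (l 16776152)) (a (l 16755080) (l 16769752)))) (a (a (b (a (l 5408734117099591216526541023) (l 601895209077745793656031)) (a (b (l 143643463145291999) (l 601448163812231938991327)) (l 600576843221572968080607))) (b (l 602210821465800883922143) (l 601503792062829648323807))) (b (l 599113354025973141689887) (l 599415995920932421538847)))))), by decide +kernel⟩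

def k8_pm_213_a : ∃ t, chk3 f_pm_213_a t 63 5 1 = true :=
  ⟨(a (b (a (b (l 3) (b (l 3) (l 3))) (b (a (b (l 3) (l 3)) (c (b (b (b (l 6328119661301058836024648927) (l 4896751939939990090418103519)) (b (l 5022480032642070283018248287) (l 4635623101670900744514461791))) (b (a (l 6879388036199249879827963935) (l 600652647853519232655391)) (l 2981809927277389520197738527))) (b (b (b (l 6550562765544253465573613663) (l 4887080180445627201883213855)) (b (l 4974122606711136458915897375) (l 4345480524210941899875786783))) (b (a (l 5360976889997967107479461919) (l 599724257156831685369887)) (l 2778710041397861192841421343))))) (b (b (a (c (l 5766576159705130644233142303) (l 5747233346589611575797039135)) (c (l 142206676046577695) (l 585171790573931272315423))) (c (l 2526654963137132807719403551) (a (l 4025722979455234340336320543) (l 579433122529795380240927)))) (b (c (l 139422918252871711) (l 574677608431616465183263)) (c (l 577515525520529905803807) (l 16100448))))))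 (b (b (c (a (b (l 702393922423) (l 285245072695)) (b (l 16165816) (l 16088744))) (b (a (l 903720257911) (l 16025792)) (a (l 286318578263) (l 15960264)))) (c (b (a (l 202029948551) (l 16020760)) (l 71033345991)) (b (l 78012572247) (l 15863584)))) (b (c (b (l 15916832) (l 15872752)) (b (l 15821944) (l 15786168))) (c (b (l 15834480) (l 15801512)) (l 278802020023))))) (c (b (b (b (b (b (a (a (l 602150581233347392480479) (l 16747272)) (l 16754296)) (a (l 602645760733221972337887) (l 599734490486580062770207))) (a (a (l 601895209005659034181727) (l 603289812176411406242847)) (l 601257788024541852849183))) (b (a (l 600923584377552478773279) (l 601752103119642029428767)) (l 599266835946115502694431))) (b (b (l 599039710187262973026335) (l 594155356464431292686367)) (b (l 587440740071014463939103) (l 582481735046965658018335)))) (b (b (b (l 16181304) (l 16090984)) (b (l 16012392) (l 15944144))) (b (l 15858368) (l 15770832)))) (b (b (b (b (b (a (a (l 602118299323809842077791)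 (l 16738616)) (l 16744728)) (a (a (l 602275817713109662044191) (l 603195272613033630961695)) (l 599043025814192083948575))) (a (a (l 601832807624964473458719) (l 602779644410622855122975)) (l 600493977527739793674271))) (b (a (l 601107186988004157710367) (l 600870406398993920118815)) (l 599416138027656064786463))) (b (b (l 591663603845757479215135) (l 584920740905164602499615)) (b (l 579264794901468671566367) (l 16107560)))) (b (b (b (l 16019816) (l 15943896)) (l 15848888)) (b (l 15752368) (l 15683400)))))), by decide +kernel⟩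

def k9_pm_213_a : ∃ t, chk3 f_pm_213_a t 63 3 1 = true :=
  ⟨(b (b (b (a (b (c (l 15760864) (l 15700160)) (c (l 15721680) (l 15674088))) (b (c (l 15708008) (l 15636720)) (l 15636360))) (b (c (l 15668592) (l 15629040)) (c (l 15656536) (l 15628736)))) (b (b (c (l 15655896) (l 15639168)) (c (l 15665240) (l 15659016))) (b (c (l 15683424) (l 15687208)) (c (l 15709584) (l 15722888))))) (b (b (b (c (l 15743056) (l 15765360)) (c (l 15783344) (l 15814064))) (b (l 15638960) (l 15716376))) (b (b (l 15778400) (c (l 16007400) (l 16062784))) (b (b (l 16088264) (l 16125696)) (c (l 16155232) (l 16214128)))))), by decide +kernel⟩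

theorem s10_pm_213_a : ∃ t, chk3 f_pm_213_a t 127 4 1 = true := ex3_b k6_pm_213_a k7_pm_213_a

theorem s11_pm_213_a : ∃ t, chk3 f_pm_213_a t 63 4 1 = true := ex3_a k5_pm_213_a s10_pm_213_a

theorem s12_pm_213_a : ∃ t, chk3 f_pm_213_a t 63 2 1 = true := ex3_b s11_pm_213_a k8_pm_213_a

theorem s13_pm_213_a : ∃ t, chk3 f_pm_213_a t 63 1 1 = true := ex3_b s12_pm_213_a k9_pm_213_a

theorem s14_pm_213_a : ∃ t, chk3 f_pm_213_a t 31 1 1 = true := ex3_a k4_pm_213_a s13_pm_213_a

theorem s15_pm_213_a : ∃ t, chk3 f_pm_213_a t 15 1 1 = true := ex3_a k3_pm_213_a s14_pm_213_a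

theorem s16_pm_213_a : ∃ t, chk3 f_pm_213_a t 7 1 1 = true := ex3_a k2_pm_213_a s15_pm_213_a

theorem s17_pm_213_a : ∃ t, chk3 f_pm_213_a t 3 1 1 = true := ex3_a k1_pm_213_a s16_pm_213_a

theorem s18_pm_213_a : ∃ t, chk3 f_pm_213_a t 1 1 1 = true := ex3_a k0_pm_213_a s17_pm_213_a

theorem c_pm_213_a : CertB 0 536870912 0 1230186008 1020054732 13421774 3 eng mog cd1q2a cd3q3 pd1 false true false .pnn 2 1 3
    ndB1q2a ndB3q3 pcB1 cut_pm_213_a xt_pm_213_a :=
  certB0 (fam := false) (s1 := true) (s2 := false) (a := 2) (b := 1) (c := 3) (cn := .pnn) (n1 := ndB1q2a) (n2 := ndB3q3) (pc := pcB1) (cut := cut_pm_213_a) (xt := xt_pm_213_a) (P1 := 0) (W1 := 536870912) (P2 := 0) (W2 := 1230186008) (P3 := 1020054732) (W3 := 13421774) (N0 := 3) (En := eng) (mo := mog) (C1 := cd1q2a) (C2 := cd3q3) (C3 := pd1)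
    rfl s18_pm_213_a

noncomputable def cut_pm_213_b : Cut := Cut.of [[⟨0, 1, 0, 26738688⟩, ⟨1, 1, 0, 26738688⟩, ⟨2, 2, 0, 2621440⟩]]

noncomputable def f_pm_213_b : ℕ → ℕ → ℕ → ℕ → Bool := onCell 1239849684 370763052 0 1230186008 1020054732 13421774
    (rowB 3 eng mog cd1q2b cd3q3 pd1 0 false true false .pnn 2 1 3 (qsf 1239849684 370763052 0 1230186008 1) ndB1q2b ndB3q3 pcB1 cut_pm_213_b Ext.none)

def k0_pm_213_b : ∃ t, chk3 f_pm_213_b t 1 1 1 = true :=
  ⟨(b (l 3) (l 3)), by decide +kernel⟩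

theorem c_pm_213_b : CertB 1239849684 370763052 0 1230186008 1020054732 13421774 3 eng mog cd1q2b cd3q3 pd1 false true false .pnn 2 1 3
    ndB1q2b ndB3q3 pcB1 cut_pm_213_b Ext.none :=
  certB0 (fam := false) (s1 := true) (s2 := false) (a := 2) (b := 1) (c := 3) (cn := .pnn) (n1 := ndB1q2b) (n2 := ndB3q3) (pc := pcB1) (cut := cut_pm_213_b) (xt := Ext.none) (P1 := 1239849684) (W1 := 370763052) (P2 := 0) (W2 := 1230186008) (P3 := 1020054732) (W3 := 13421774) (N0 := 3) (En := eng) (mo := mog) (C1 := cd1q2b) (C2 := cd3q3) (C3 := pd1)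
    rfl k0_pm_213_b

noncomputable def f_pm_303 : ℕ → ℕ → ℕ → ℕ → Bool := onCell 1610612736 536870912 0 1230186008 1020054732 13421774
    (rowB 3 eng mog cd1q3 cd3q3 pd0 0 false true false .npn 3 0 3 (qsf 1610612736 536870912 0 1230186008 0) ndB1q3 ndB3q3 pcB0 Cut.none Ext.none)

def k0_pm_303 : ∃ t, chk3 f_pm_303 t 1 1 1 = true :=
  ⟨(b (l 3) (l 3)), by decide +kernel⟩

theorem c_pm_303 : CertB 1610612736 536870912 0 1230186008 1020054732 13421774 3 eng mog cd1q3 cd3q3 pd0 false true false .npn 3 0 3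
    ndB1q3 ndB3q3 pcB0 Cut.none Ext.none :=
  certB0 (fam := false) (s1 := true) (s2 := false) (a := 3) (b := 0) (c := 3) (cn := .npn) (n1 := ndB1q3) (n2 := ndB3q3) (pc := pcB0) (cut := Cut.none) (xt := Ext.none) (P1 := 1610612736) (W1 := 536870912) (P2 := 0) (W2 := 1230186008) (P3 := 1020054732) (W3 := 13421774) (N0 := 3) (En := eng) (mo := mog) (C1 := cd1q3) (C2 := cd3q3) (C3 := pd0)
    rfl k0_pm_303

noncomputable def f_pm_313 : ℕ → ℕ → ℕ → ℕ → Bool := onCell 1610612736 536870912 0 1230186008 1020054732 13421774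
    (rowB 3 eng mog cd1q3 cd3q3 pd1 0 false true false .dn 3 1 3 (qsf 1610612736 536870912 0 1230186008 1) ndB1q3 ndB3q3 pcB1 Cut.none Ext.none)

def k0_pm_313 : ∃ t, chk3 f_pm_313 t 1 1 1 = true :=
  ⟨(b (l 3) (l 1)), by decide +kernel⟩

theorem c_pm_313 : CertB 1610612736 536870912 0 1230186008 1020054732 13421774 3 eng mog cd1q3 cd3q3 pd1 false true false .dn 3 1 3
    ndB1q3 ndB3q3 pcB1 Cut.none Ext.none :=
  certB0 (fam := false) (s1 := true) (s2 := false) (a := 3) (b := 1) (c := 3) (cn := .dn) (n1 := ndB1q3) (n2 := ndB3q3) (pc := pcB1) (cut := Cut.none) (xt := Ext.none) (P1 := 1610612736) (W1 := 536870912) (P2 := 0) (W2 := 1230186008) (P3 := 1020054732) (W3 := 13421774) (N0 := 3) (En := eng) (mo := mog) (C1 := cd1q3) (C2 := cd3q3) (C3 := pd1)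
    rfl k0_pm_313

noncomputable def f_mm_001 : ℕ → ℕ → ℕ → ℕ → Bool := onCell 0 536870912 0 536870912 1020054732 13421774
    (rowB 3 eng mog cd1q0 cd3q1 pd0 1 false false false .up 0 0 1 (qsf 0 536870912 536870912 536870912 0) ndB1q0 ndB3q1 pcB0 Cut.none Ext.none)

def k0_mm_001 : ∃ t, chk3 f_mm_001 t 1 1 1 = true :=
  ⟨(l 3), by decide +kernel⟩

theorem c_mm_001 : CertB 0 536870912 536870912 536870912 1020054732 13421774 3 eng mog cd1q0 cd3q1 pd0 false false false .up 0 0 1
    ndB1q0 ndB3q1 pcB0 Cut.none Ext.none :=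
  certB1 (fam := false) (s1 := false) (s2 := false) (a := 0) (b := 0) (c := 1) (cn := .up) (n1 := ndB1q0) (n2 := ndB3q1) (pc := pcB0) (cut := Cut.none) (xt := Ext.none) (P1 := 0) (W1 := 536870912) (P2 := 536870912) (W2 := 536870912) (P3 := 1020054732) (W3 := 13421774) (N0 := 3) (En := eng) (mo := mog) (C1 := cd1q0) (C2 := cd3q1) (C3 := pd0)
    rfl (fun _ => rfl) k0_mm_001

noncomputable def f_mm_011 : ℕ → ℕ → ℕ → ℕ → Bool := onCell 0 536870912 536870912 536870912 1020054732 13421774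
    (rowB 3 eng mog cd1q0 cd3q1 pd1 1 false false false .pnn 0 1 1 (qsf 0 536870912 536870912 536870912 1) ndB1q0 ndB3q1 pcB1 Cut.none Ext.none)

def k0_mm_011 : ∃ t, chk3 f_mm_011 t 1 1 1 = true :=
  ⟨(l 5), by decide +kernel⟩

theorem c_mm_011 : CertB 0 536870912 536870912 536870912 1020054732 13421774 3 eng mog cd1q0 cd3q1 pd1 false false false .pnn 0 1 1
    ndB1q0 ndB3q1 pcB1 Cut.none Ext.none :=
  certB1 (fam := false) (s1 := false) (s2 := false) (a := 0) (b := 1) (c := 1) (cn := .pnn) (n1 := ndB1q0) (n2 := ndB3q1) (pc := pcB1) (cut := Cut.none) (xt := Ext.none) (P1 := 0) (W1 := 536870912) (P2 := 536870912) (W2 := 536870912) (P3 := 1020054732) (W3 := 13421774) (N0 := 3) (En := eng) (mo := mog) (C1 := cd1q0) (C2 := cd3q1) (C3 := pd1)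
    rfl (fun _ => rfl) k0_mm_011

noncomputable def f_mm_012 : ℕ → ℕ → ℕ → ℕ → Bool := onCell 0 536870912 1073741824 536870912 1020054732 13421774
    (rowB 3 eng mog cd1q0 cd3q2 pd1 0 false false false .pnp 0 1 2 (qsf 0 536870912 1073741824 536870912 1) ndB1q0 ndB3q2 pcB1 Cut.none Ext.none)

def k0_mm_012 : ∃ t, chk3 f_mm_012 t 1 1 1 = true :=
  ⟨(l 5), by decide +kernel⟩

theorem c_mm_012 : CertB 0 536870912 1073741824 536870912 1020054732 13421774 3 eng mog cd1q0 cd3q2 pd1 false false false .pnp 0 1 2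
    ndB1q0 ndB3q2 pcB1 Cut.none Ext.none :=
  certB0 (fam := false) (s1 := false) (s2 := false) (a := 0) (b := 1) (c := 2) (cn := .pnp) (n1 := ndB1q0) (n2 := ndB3q2) (pc := pcB1) (cut := Cut.none) (xt := Ext.none) (P1 := 0) (W1 := 536870912) (P2 := 1073741824) (W2 := 536870912) (P3 := 1020054732) (W3 := 13421774) (N0 := 3) (En := eng) (mo := mog) (C1 := cd1q0) (C2 := cd3q2) (C3 := pd1)
    rfl k0_mm_012

noncomputable def f_mm_022 : ℕ → ℕ → ℕ → ℕ → Bool := onCell 0 536870912 1073741824 536870912 1020054732 13421774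
    (rowB 3 eng mog cd1q0 cd3q2 pd2 0 false false false .pp 0 2 2 (qsf 0 536870912 1073741824 536870912 2) ndB1q0 ndB3q2 pcB2 Cut.none Ext.none)

def k0_mm_022 : ∃ t, chk3 f_mm_022 t 1 1 1 = true :=
  ⟨(l 5), by decide +kernel⟩

theorem c_mm_022 : CertB 0 536870912 1073741824 536870912 1020054732 13421774 3 eng mog cd1q0 cd3q2 pd2 false false false .pp 0 2 2
    ndB1q0 ndB3q2 pcB2 Cut.none Ext.none :=
  certB0 (fam := false) (s1 := false) (s2 := false) (a := 0) (b := 2) (c := 2) (cn := .pp) (n1 := ndB1q0) (n2 := ndB3q2) (pc := pcB2) (cut := Cut.none) (xt := Ext.none) (P1 := 0) (W1 := 536870912) (P2 := 1073741824) (W2 := 536870912) (P3 := 1020054732) (W3 := 13421774) (N0 := 3) (En := eng) (mo := mog) (C1 := cd1q0) (C2 := cd3q2) (C3 := pd2)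
    rfl k0_mm_022

noncomputable def f_mm_023 : ℕ → ℕ → ℕ → ℕ → Bool := onCell 0 536870912 0 1230186008 1020054732 13421774
    (rowB 3 eng mog cd1q0 cd3q3 pd2 0 false false false .up 0 2 3 (qsf 0 536870912 0 1230186008 2) ndB1q0 ndB3q3 pcB2 Cut.none Ext.none)

def k0_mm_023 : ∃ t, chk3 f_mm_023 t 1 1 1 = true :=
  ⟨(l 5), by decide +kernel⟩

theorem c_mm_023 : CertB 0 536870912 0 1230186008 1020054732 13421774 3 eng mog cd1q0 cd3q3 pd2 false false false .up 0 2 3
    ndB1q0 ndB3q3 pcB2 Cut.none Ext.none :=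
  certB0 (fam := false) (s1 := false) (s2 := false) (a := 0) (b := 2) (c := 3) (cn := .up) (n1 := ndB1q0) (n2 := ndB3q3) (pc := pcB2) (cut := Cut.none) (xt := Ext.none) (P1 := 0) (W1 := 536870912) (P2 := 0) (W2 := 1230186008) (P3 := 1020054732) (W3 := 13421774) (N0 := 3) (En := eng) (mo := mog) (C1 := cd1q0) (C2 := cd3q3) (C3 := pd2)
    rfl k0_mm_023

noncomputable def f_mm_033 : ℕ → ℕ → ℕ → ℕ → Bool := onCell 0 536870912 0 1230186008 1020054732 13421774
    (rowB 3 eng mog cd1q0 cd3q3 pd3 0 false false false .pnn 0 3 3 (qsf 0 536870912 0 1230186008 3) ndB1q0 ndB3q3 pcB3 Cut.none Ext.none)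

def k0_mm_033 : ∃ t, chk3 f_mm_033 t 1 1 1 = true :=
  ⟨(l 5), by decide +kernel⟩

theorem c_mm_033 : CertB 0 536870912 0 1230186008 1020054732 13421774 3 eng mog cd1q0 cd3q3 pd3 false false false .pnn 0 3 3
    ndB1q0 ndB3q3 pcB3 Cut.none Ext.none :=
  certB0 (fam := false) (s1 := false) (s2 := false) (a := 0) (b := 3) (c := 3) (cn := .pnn) (n1 := ndB1q0) (n2 := ndB3q3) (pc := pcB3) (cut := Cut.none) (xt := Ext.none) (P1 := 0) (W1 := 536870912) (P2 := 0) (W2 := 1230186008) (P3 := 1020054732) (W3 := 13421774) (N0 := 3) (En := eng) (mo := mog) (C1 := cd1q0) (C2 := cd3q3) (C3 := pd3)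
    rfl k0_mm_033

noncomputable def f_mm_101 : ℕ → ℕ → ℕ → ℕ → Bool := onCell 536870912 536870912 536870912 536870912 1020054732 13421774
    (rowB 3 eng mog cd1q1 cd3q1 pd0 0 false false false .npn 1 0 1 (qsf 536870912 536870912 536870912 536870912 0) ndB1q1 ndB3q1 pcB0 Cut.none Ext.none)

def k0_mm_101 : ∃ t, chk3 f_mm_101 t 1 1 1 = true :=
  ⟨(l 3), by decide +kernel⟩

theorem c_mm_101 : CertB 536870912 536870912 536870912 536870912 1020054732 13421774 3 eng mog cd1q1 cd3q1 pd0 false false false .npn 1 0 1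
    ndB1q1 ndB3q1 pcB0 Cut.none Ext.none :=
  certB0 (fam := false) (s1 := false) (s2 := false) (a := 1) (b := 0) (c := 1) (cn := .npn) (n1 := ndB1q1) (n2 := ndB3q1) (pc := pcB0) (cut := Cut.none) (xt := Ext.none) (P1 := 536870912) (W1 := 536870912) (P2 := 536870912) (W2 := 536870912) (P3 := 1020054732) (W3 := 13421774) (N0 := 3) (En := eng) (mo := mog) (C1 := cd1q1) (C2 := cd3q1) (C3 := pd0)
    rfl k0_mm_101

noncomputable def f_mm_102 : ℕ → ℕ → ℕ → ℕ → Bool := onCell 536870912 536870912 1073741824 536870912 1020054732 13421774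
    (rowB 3 eng mog cd1q1 cd3q2 pd0 0 false false false .npp 1 0 2 (qsf 536870912 536870912 1073741824 536870912 0) ndB1q1 ndB3q2 pcB0 Cut.none Ext.none)

def k0_mm_102 : ∃ t, chk3 f_mm_102 t 1 1 1 = true :=
  ⟨(l 5), by decide +kernel⟩

theorem c_mm_102 : CertB 536870912 536870912 1073741824 536870912 1020054732 13421774 3 eng mog cd1q1 cd3q2 pd0 false false false .npp 1 0 2
    ndB1q1 ndB3q2 pcB0 Cut.none Ext.none :=
  certB0 (fam := false) (s1 := false) (s2 := false) (a := 1) (b := 0) (c := 2) (cn := .npp) (n1 := ndB1q1) (n2 := ndB3q2) (pc := pcB0) (cut := Cut.none) (xt := Ext.none) (P1 := 536870912) (W1 := 536870912) (P2 := 1073741824) (W2 := 536870912) (P3 := 1020054732) (W3 := 13421774) (N0 := 3) (En := eng) (mo := mog) (C1 := cd1q1) (C2 := cd3q2) (C3 := pd0)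
    rfl k0_mm_102

noncomputable def f_mm_112 : ℕ → ℕ → ℕ → ℕ → Bool := onCell 536870912 536870912 1073741824 536870912 1020054732 13421774
    (rowB 3 eng mog cd1q1 cd3q2 pd1 0 false false false .dn 1 1 2 (qsf 536870912 536870912 1073741824 536870912 1) ndB1q1 ndB3q2 pcB1 Cut.none Ext.none)

def k0_mm_112 : ∃ t, chk3 f_mm_112 t 1 1 1 = true :=
  ⟨(l 5), by decide +kernel⟩

theorem c_mm_112 : CertB 536870912 536870912 1073741824 536870912 1020054732 13421774 3 eng mog cd1q1 cd3q2 pd1 false false false .dn 1 1 2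
    ndB1q1 ndB3q2 pcB1 Cut.none Ext.none :=
  certB0 (fam := false) (s1 := false) (s2 := false) (a := 1) (b := 1) (c := 2) (cn := .dn) (n1 := ndB1q1) (n2 := ndB3q2) (pc := pcB1) (cut := Cut.none) (xt := Ext.none) (P1 := 536870912) (W1 := 536870912) (P2 := 1073741824) (W2 := 536870912) (P3 := 1020054732) (W3 := 13421774) (N0 := 3) (En := eng) (mo := mog) (C1 := cd1q1) (C2 := cd3q2) (C3 := pd1)
    rfl k0_mm_112

noncomputable def f_mm_113 : ℕ → ℕ → ℕ → ℕ → Bool := onCell 536870912 536870912 0 1230186008 1020054732 13421774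
    (rowB 3 eng mog cd1q1 cd3q3 pd1 0 false false false .nn 1 1 3 (qsf 536870912 536870912 0 1230186008 1) ndB1q1 ndB3q3 pcB1 Cut.none Ext.none)

def k0_mm_113 : ∃ t, chk3 f_mm_113 t 1 1 1 = true :=
  ⟨(l 5), by decide +kernel⟩

theorem c_mm_113 : CertB 536870912 536870912 0 1230186008 1020054732 13421774 3 eng mog cd1q1 cd3q3 pd1 false false false .nn 1 1 3
    ndB1q1 ndB3q3 pcB1 Cut.none Ext.none :=
  certB0 (fam := false) (s1 := false) (s2 := false) (a := 1) (b := 1) (c := 3) (cn := .nn) (n1 := ndB1q1) (n2 := ndB3q3) (pc := pcB1) (cut := Cut.none) (xt := Ext.none) (P1 := 536870912) (W1 := 536870912) (P2 := 0) (W2 := 1230186008) (P3 := 1020054732) (W3 := 13421774) (N0 := 3) (En := eng) (mo := mog) (C1 := cd1q1) (C2 := cd3q3) (C3 := pd1)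
    rfl k0_mm_113

noncomputable def f_mm_123 : ℕ → ℕ → ℕ → ℕ → Bool := onCell 536870912 536870912 0 1230186008 1020054732 13421774
    (rowB 3 eng mog cd1q1 cd3q3 pd2 0 false false false .npn 1 2 3 (qsf 536870912 536870912 0 1230186008 2) ndB1q1 ndB3q3 pcB2 Cut.none Ext.none)

def k0_mm_123 : ∃ t, chk3 f_mm_123 t 1 1 1 = true :=
  ⟨(l 5), by decide +kernel⟩

theorem c_mm_123 : CertB 536870912 536870912 0 1230186008 1020054732 13421774 3 eng mog cd1q1 cd3q3 pd2 false false false .npn 1 2 3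
    ndB1q1 ndB3q3 pcB2 Cut.none Ext.none :=
  certB0 (fam := false) (s1 := false) (s2 := false) (a := 1) (b := 2) (c := 3) (cn := .npn) (n1 := ndB1q1) (n2 := ndB3q3) (pc := pcB2) (cut := Cut.none) (xt := Ext.none) (P1 := 536870912) (W1 := 536870912) (P2 := 0) (W2 := 1230186008) (P3 := 1020054732) (W3 := 13421774) (N0 := 3) (En := eng) (mo := mog) (C1 := cd1q1) (C2 := cd3q3) (C3 := pd2)
    rfl k0_mm_123

noncomputable def f_mm_133 : ℕ → ℕ → ℕ → ℕ → Bool := onCell 536870912 536870912 0 1230186008 1020054732 13421774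
    (rowB 3 eng mog cd1q1 cd3q3 pd3 0 false false false .dn 1 3 3 (qsf 536870912 536870912 0 1230186008 3) ndB1q1 ndB3q3 pcB3 Cut.none Ext.none)

def k0_mm_133 : ∃ t, chk3 f_mm_133 t 1 1 1 = true :=
  ⟨(l 5), by decide +kernel⟩

theorem c_mm_133 : CertB 536870912 536870912 0 1230186008 1020054732 13421774 3 eng mog cd1q1 cd3q3 pd3 false false false .dn 1 3 3
    ndB1q1 ndB3q3 pcB3 Cut.none Ext.none :=
  certB0 (fam := false) (s1 := false) (s2 := false) (a := 1) (b := 3) (c := 3) (cn := .dn) (n1 := ndB1q1) (n2 := ndB3q3) (pc := pcB3) (cut := Cut.none) (xt := Ext.none) (P1 := 536870912) (W1 := 536870912) (P2 := 0) (W2 := 1230186008) (P3 := 1020054732) (W3 := 13421774) (N0 := 3) (En := eng) (mo := mog) (C1 := cd1q1) (C2 := cd3q3) (C3 := pd3)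
    rfl k0_mm_133

noncomputable def f_mm_202_a : ℕ → ℕ → ℕ → ℕ → Bool := onCell 0 536870912 1073741824 536870912 1020054732 13421774
    (rowB 3 eng mog cd1q2a cd3q2 pd0 0 false false false .pp 2 0 2 (qsf 0 536870912 1073741824 536870912 0) ndB1q2a ndB3q2 pcB0 Cut.none Ext.none)

def k0_mm_202_a : ∃ t, chk3 f_mm_202_a t 1 1 1 = true :=
  ⟨(l 3), by decide +kernel⟩

theorem c_mm_202_a : CertB 0 536870912 1073741824 536870912 1020054732 13421774 3 eng mog cd1q2a cd3q2 pd0 false false false .pp 2 0 2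
    ndB1q2a ndB3q2 pcB0 Cut.none Ext.none :=
  certB0 (fam := false) (s1 := false) (s2 := false) (a := 2) (b := 0) (c := 2) (cn := .pp) (n1 := ndB1q2a) (n2 := ndB3q2) (pc := pcB0) (cut := Cut.none) (xt := Ext.none) (P1 := 0) (W1 := 536870912) (P2 := 1073741824) (W2 := 536870912) (P3 := 1020054732) (W3 := 13421774) (N0 := 3) (En := eng) (mo := mog) (C1 := cd1q2a) (C2 := cd3q2) (C3 := pd0)
    rfl k0_mm_202_a

noncomputable def f_mm_202_b : ℕ → ℕ → ℕ → ℕ → Bool := onCell 1239849684 370763052 1073741824 536870912 1020054732 13421774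
    (rowB 3 eng mog cd1q2b cd3q2 pd0 0 false false false .pp 2 0 2 (qsf 1239849684 370763052 1073741824 536870912 0) ndB1q2b ndB3q2 pcB0 Cut.none Ext.none)

def k0_mm_202_b : ∃ t, chk3 f_mm_202_b t 1 1 1 = true :=
  ⟨(l 3), by decide +kernel⟩

theorem c_mm_202_b : CertB 1239849684 370763052 1073741824 536870912 1020054732 13421774 3 eng mog cd1q2b cd3q2 pd0 false false false .pp 2 0 2
    ndB1q2b ndB3q2 pcB0 Cut.none Ext.none :=
  certB0 (fam := false) (s1 := false) (s2 := false) (a := 2) (b := 0) (c := 2) (cn := .pp) (n1 := ndB1q2b) (n2 := ndB3q2) (pc := pcB0) (cut := Cut.none) (xt := Ext.none) (P1 := 1239849684) (W1 := 370763052) (P2 := 1073741824) (W2 := 536870912) (P3 := 1020054732) (W3 := 13421774) (N0 := 3) (En := eng) (mo := mog) (C1 := cd1q2b) (C2 := cd3q2) (C3 := pd0)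
    rfl k0_mm_202_b

noncomputable def f_mm_203_a : ℕ → ℕ → ℕ → ℕ → Bool := onCell 0 536870912 0 1230186008 1020054732 13421774
    (rowB 3 eng mog cd1q2a cd3q3 pd0 0 false false false .up 2 0 3 (qsf 0 536870912 0 1230186008 0) ndB1q2a ndB3q3 pcB0 Cut.none Ext.none)

def k0_mm_203_a : ∃ t, chk3 f_mm_203_a t 1 1 1 = true :=
  ⟨(b (l 2) (l 3)), by decide +kernel⟩

theorem c_mm_203_a : CertB 0 536870912 0 1230186008 1020054732 13421774 3 eng mog cd1q2a cd3q3 pd0 false false false .up 2 0 3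
    ndB1q2a ndB3q3 pcB0 Cut.none Ext.none :=
  certB0 (fam := false) (s1 := false) (s2 := false) (a := 2) (b := 0) (c := 3) (cn := .up) (n1 := ndB1q2a) (n2 := ndB3q3) (pc := pcB0) (cut := Cut.none) (xt := Ext.none) (P1 := 0) (W1 := 536870912) (P2 := 0) (W2 := 1230186008) (P3 := 1020054732) (W3 := 13421774) (N0 := 3) (En := eng) (mo := mog) (C1 := cd1q2a) (C2 := cd3q3) (C3 := pd0)
    rfl k0_mm_203_a

noncomputable def f_mm_203_b : ℕ → ℕ → ℕ → ℕ → Bool := onCell 1239849684 370763052 0 1230186008 1020054732 13421774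
    (rowB 3 eng mog cd1q2b cd3q3 pd0 0 false false false .up 2 0 3 (qsf 1239849684 370763052 0 1230186008 0) ndB1q2b ndB3q3 pcB0 Cut.none Ext.none)

def k0_mm_203_b : ∃ t, chk3 f_mm_203_b t 1 1 1 = true :=
  ⟨(b (l 3) (l 3)), by decide +kernel⟩

theorem c_mm_203_b : CertB 1239849684 370763052 0 1230186008 1020054732 13421774 3 eng mog cd1q2b cd3q3 pd0 false false false .up 2 0 3
    ndB1q2b ndB3q3 pcB0 Cut.none Ext.none :=
  certB0 (fam := false) (s1 := false) (s2 := false) (a := 2) (b := 0) (c := 3) (cn := .up) (n1 := ndB1q2b) (n2 := ndB3q3) (pc := pcB0) (cut := Cut.none) (xt := Ext.none) (P1 := 1239849684) (W1 := 370763052) (P2 := 0) (W2 := 1230186008) (P3 := 1020054732) (W3 := 13421774) (N0 := 3) (En := eng) (mo := mog) (C1 := cd1q2b) (C2 := cd3q3) (C3 := pd0)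
    rfl k0_mm_203_b

noncomputable def f_mm_213_a : ℕ → ℕ → ℕ → ℕ → Bool := onCell 0 536870912 0 1230186008 1020054732 13421774
    (rowB 3 eng mog cd1q2a cd3q3 pd1 0 false false false .pnn 2 1 3 (qsf 0 536870912 0 1230186008 1) ndB1q2a ndB3q3 pcB1 Cut.none Ext.none)

def k0_mm_213_a : ∃ t, chk3 f_mm_213_a t 1 1 1 = true :=
  ⟨(b (b (l 5) (l 3)) (l 3)), by decide +kernel⟩

theorem c_mm_213_a : CertB 0 536870912 0 1230186008 1020054732 13421774 3 eng mog cd1q2a cd3q3 pd1 false false false .pnn 2 1 3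
    ndB1q2a ndB3q3 pcB1 Cut.none Ext.none :=
  certB0 (fam := false) (s1 := false) (s2 := false) (a := 2) (b := 1) (c := 3) (cn := .pnn) (n1 := ndB1q2a) (n2 := ndB3q3) (pc := pcB1) (cut := Cut.none) (xt := Ext.none) (P1 := 0) (W1 := 536870912) (P2 := 0) (W2 := 1230186008) (P3 := 1020054732) (W3 := 13421774) (N0 := 3) (En := eng) (mo := mog) (C1 := cd1q2a) (C2 := cd3q3) (C3 := pd1)
    rfl k0_mm_213_a

noncomputable def f_mm_213_b : ℕ → ℕ → ℕ → ℕ → Bool := onCell 1239849684 370763052 0 1230186008 1020054732 13421774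
    (rowB 3 eng mog cd1q2b cd3q3 pd1 0 false false false .pnn 2 1 3 (qsf 1239849684 370763052 0 1230186008 1) ndB1q2b ndB3q3 pcB1 Cut.none Ext.none)

def k0_mm_213_b : ∃ t, chk3 f_mm_213_b t 1 1 1 = true :=
  ⟨(b (l 3) (l 3)), by decide +kernel⟩

theorem c_mm_213_b : CertB 1239849684 370763052 0 1230186008 1020054732 13421774 3 eng mog cd1q2b cd3q3 pd1 false false false .pnn 2 1 3
    ndB1q2b ndB3q3 pcB1 Cut.none Ext.none :=
  certB0 (fam := false) (s1 := false) (s2 := false) (a := 2) (b := 1) (c := 3) (cn := .pnn) (n1 := ndB1q2b) (n2 := ndB3q3) (pc := pcB1) (cut := Cut.none) (xt := Ext.none) (P1 := 1239849684) (W1 := 370763052) (P2 := 0) (W2 := 1230186008) (P3 := 1020054732) (W3 := 13421774) (N0 := 3) (En := eng) (mo := mog) (C1 := cd1q2b) (C2 := cd3q3) (C3 := pd1)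
    rfl k0_mm_213_b

noncomputable def f_mm_303 : ℕ → ℕ → ℕ → ℕ → Bool := onCell 1610612736 536870912 0 1230186008 1020054732 13421774
    (rowB 3 eng mog cd1q3 cd3q3 pd0 0 false false false .npn 3 0 3 (qsf 1610612736 536870912 0 1230186008 0) ndB1q3 ndB3q3 pcB0 Cut.none Ext.none)

def k0_mm_303 : ∃ t, chk3 f_mm_303 t 1 1 1 = true :=
  ⟨(b (l 3) (l 3)), by decide +kernel⟩

theorem c_mm_303 : CertB 1610612736 536870912 0 1230186008 1020054732 13421774 3 eng mog cd1q3 cd3q3 pd0 false false false .npn 3 0 3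
    ndB1q3 ndB3q3 pcB0 Cut.none Ext.none :=
  certB0 (fam := false) (s1 := false) (s2 := false) (a := 3) (b := 0) (c := 3) (cn := .npn) (n1 := ndB1q3) (n2 := ndB3q3) (pc := pcB0) (cut := Cut.none) (xt := Ext.none) (P1 := 1610612736) (W1 := 536870912) (P2 := 0) (W2 := 1230186008) (P3 := 1020054732) (W3 := 13421774) (N0 := 3) (En := eng) (mo := mog) (C1 := cd1q3) (C2 := cd3q3) (C3 := pd0)
    rfl k0_mm_303

noncomputable def f_mm_313 : ℕ → ℕ → ℕ → ℕ → Bool := onCell 1610612736 536870912 0 1230186008 1020054732 13421774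
    (rowB 3 eng mog cd1q3 cd3q3 pd1 0 false false false .dn 3 1 3 (qsf 1610612736 536870912 0 1230186008 1) ndB1q3 ndB3q3 pcB1 Cut.none Ext.none)

def k0_mm_313 : ∃ t, chk3 f_mm_313 t 1 1 1 = true :=
  ⟨(b (l 3) (l 1)), by decide +kernel⟩

theorem c_mm_313 : CertB 1610612736 536870912 0 1230186008 1020054732 13421774 3 eng mog cd1q3 cd3q3 pd1 false false false .dn 3 1 3
    ndB1q3 ndB3q3 pcB1 Cut.none Ext.none :=
  certB0 (fam := false) (s1 := false) (s2 := false) (a := 3) (b := 1) (c := 3) (cn := .dn) (n1 := ndB1q3) (n2 := ndB3q3) (pc := pcB1) (cut := Cut.none) (xt := Ext.none) (P1 := 1610612736) (W1 := 536870912) (P2 := 0) (W2 := 1230186008) (P3 := 1020054732) (W3 := 13421774) (N0 := 3) (En := eng) (mo := mog) (C1 := cd1q3) (C2 := cd3q3) (C3 := pd1)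
    rfl k0_mm_313

end Pool.Agent.Strip051.G.I9500_9625.Tab.C.BB13

namespace Pool.Agent.Strip051.G.I9500_9625.Tab.C.BB14

open Pool.Agent.Strip051.PB Pool.Agent.Strip051.PB.T
open Pool.Agent.Strip051.G.I9500_9625.Tab

noncomputable def f_pp_001 : ℕ → ℕ → ℕ → ℕ → Bool := onCell 0 536870912 0 536870912 1020054732 13421774
    (rowB 3 eng mog cd1q0 cd4q1 pd0 1 false true true .up 0 0 1 (qsf 0 536870912 536870912 536870912 0) ndB1q0 ndB4q1 pcB0 Cut.none Ext.none)

def k0_pp_001 : ∃ t, chk3 f_pp_001 t 1 1 1 = true :=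
  ⟨(l 3), by decide +kernel⟩

theorem c_pp_001 : CertB 0 536870912 536870912 536870912 1020054732 13421774 3 eng mog cd1q0 cd4q1 pd0 false true true .up 0 0 1
    ndB1q0 ndB4q1 pcB0 Cut.none Ext.none :=
  certB1 (fam := false) (s1 := true) (s2 := true) (a := 0) (b := 0) (c := 1) (cn := .up) (n1 := ndB1q0) (n2 := ndB4q1) (pc := pcB0) (cut := Cut.none) (xt := Ext.none) (P1 := 0) (W1 := 536870912) (P2 := 536870912) (W2 := 536870912) (P3 := 1020054732) (W3 := 13421774) (N0 := 3) (En := eng) (mo := mog) (C1 := cd1q0) (C2 := cd4q1) (C3 := pd0)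
    rfl (fun _ => rfl) k0_pp_001

noncomputable def cut_pp_011 : Cut := Cut.of [[⟨0, 0, 0, 38347922⟩, ⟨1, 1, 0, 38347922⟩, ⟨2, 1, 0, 38347922⟩]]

noncomputable def f_pp_011 : ℕ → ℕ → ℕ → ℕ → Bool := onCell 0 536870912 536870912 536870912 1020054732 13421774
    (rowB 3 eng mog cd1q0 cd4q1 pd1 1 false true true .pnn 0 1 1 (qsf 0 536870912 536870912 536870912 1) ndB1q0 ndB4q1 pcB1 cut_pp_011 Ext.none)

def k0_pp_011 : ∃ t, chk3 f_pp_011 t 1 1 1 = true :=
  ⟨(b (l 3) (b (l 3) (b (l 3) (a (b (l 3) (a (a (a (l 6) (l 3)) (l 2)) (l 2))) (l 2))))), by decide +kernel⟩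

theorem c_pp_011 : CertB 0 536870912 536870912 536870912 1020054732 13421774 3 eng mog cd1q0 cd4q1 pd1 false true true .pnn 0 1 1
    ndB1q0 ndB4q1 pcB1 cut_pp_011 Ext.none :=
  certB1 (fam := false) (s1 := true) (s2 := true) (a := 0) (b := 1) (c := 1) (cn := .pnn) (n1 := ndB1q0) (n2 := ndB4q1) (pc := pcB1) (cut := cut_pp_011) (xt := Ext.none) (P1 := 0) (W1 := 536870912) (P2 := 536870912) (W2 := 536870912) (P3 := 1020054732) (W3 := 13421774) (N0 := 3) (En := eng) (mo := mog) (C1 := cd1q0) (C2 := cd4q1) (C3 := pd1)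
    rfl (fun _ => rfl) k0_pp_011

noncomputable def f_pp_012 : ℕ → ℕ → ℕ → ℕ → Bool := onCell 0 536870912 536870912 536870912 1020054732 13421774
    (rowB 3 eng mog cd1q0 cd4q2 pd1 1 false true true .pnp 0 1 2 (qsf 0 536870912 1073741824 536870912 1) ndB1q0 ndB4q2 pcB1 Cut.none Ext.none)

def k0_pp_012 : ∃ t, chk3 f_pp_012 t 1 1 1 = true :=
  ⟨(l 3), by decide +kernel⟩

theorem c_pp_012 : CertB 0 536870912 1073741824 536870912 1020054732 13421774 3 eng mog cd1q0 cd4q2 pd1 false true true .pnp 0 1 2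
    ndB1q0 ndB4q2 pcB1 Cut.none Ext.none :=
  certB1 (fam := false) (s1 := true) (s2 := true) (a := 0) (b := 1) (c := 2) (cn := .pnp) (n1 := ndB1q0) (n2 := ndB4q2) (pc := pcB1) (cut := Cut.none) (xt := Ext.none) (P1 := 0) (W1 := 536870912) (P2 := 1073741824) (W2 := 536870912) (P3 := 1020054732) (W3 := 13421774) (N0 := 3) (En := eng) (mo := mog) (C1 := cd1q0) (C2 := cd4q2) (C3 := pd1)
    rfl (fun _ => rfl) k0_pp_012

noncomputable def f_pp_022 : ℕ → ℕ → ℕ → ℕ → Bool := onCell 0 536870912 1073741824 536870912 1020054732 13421774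
    (rowB 3 eng mog cd1q0 cd4q2 pd2 1 false true true .pp 0 2 2 (qsf 0 536870912 1073741824 536870912 2) ndB1q0 ndB4q2 pcB2 Cut.none Ext.none)

def k0_pp_022 : ∃ t, chk3 f_pp_022 t 2 2 1 = true :=
  ⟨(b (l 3) (a (b (b (b (l 3) (b (a (a (b (l 15777640) (l 15748744)) (b (l 3) (l 15541928))) (l 3)) (b (a (a (l 15720232) (l 15517048)) (a (l 153172875511) (a (l 15216312) (l 3)))) (a (b (a (a (l 15756688) (l 15647976)) (l 15498632)) (a (a (l 15755840) (l 15620912)) (a (l 15495080) (c (l 15447416) (l 15413432))))) (a (l 15315736) (l 132771652503)))))) (a (a (a (l 15556608) (l 15427736)) (b (c (l 15442280) (l 15429768)) (l 15343800))) (a (a (l 15264480) (l 15168792)) (c (b (l 15132464) (l 15071840)) (l 15075384))))) (a (a (b (a (l 15425072) (l 15335368)) (a (l 15237992) (l 15167128))) (b (a (l 15255944) (l 15183464)) (l 15074208))) (a (b (l 15086280) (l 14948376)) (b (b (l 15001824) (l 14951360)) (l 14886448))))) (b (b (b (l 3) (b (l 3) (b (l 3) (a (a (a (l 15061304)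 (l 15001496)) (l 244977424167)) (a (l 14837000) (l 14773808)))))) (a (a (b (a (l 15026112) (l 14970632)) (a (l 14974456) (l 14925832))) (b (a (l 14920816) (l 14876632)) (l 14863544))) (a (b (l 14820992) (l 14799704)) (b (l 14766008) (l 14757720))))) (a (b (a (b (l 14907064) (l 14870168)) (l 14822240)) (a (l 14825368) (l 14785816))) (b (a (l 14778120) (l 14755344)) (a (l 14767400) (l 14766976))))))), by decide +kernel⟩

def k1_pp_022 : ∃ t, chk3 f_pp_022 t 2 3 1 = true :=
  ⟨(a (b (a (b (a (b (l 15052024) (l 14925976)) (a (l 14920168) (l 14861688))) (a (l 14779040) (l 14745984))) (b (a (l 14815832) (b (l 14818872) (l 14772464))) (a (l 14733512) (b (l 14746264) (l 14736088))))) (a (b (a (l 14654672) (b (l 14681960) (l 14661696))) (a (b (l 14609376) (l 14590424)) (b (l 14646280) (l 14626320)))) (b (b (a (l 14703928) (l 14729360)) (a (l 14692568) (l 14719168))) (b (l 14675432) (l 2))))) (b (b (a (a (l 14792896) (b (l 14770152) (l 14770608))) (b (a (l 14773336) (l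 14783456)) (a (l 14783264) (l 14802264)))) (a (a (b (l 14758264) (l 14756776)) (b (l 14774944) (l 14778040))) (b (l 14790264) (l 2)))) (b (a (b (l 14750008) (l 2)) (l 2)) (l 2)))), by decide +kernel⟩

def k2_pp_022 : ∃ t, chk3 f_pp_022 t 3 1 1 = true :=
  ⟨(b (b (l 3) (b (b (b (a (l 3) (a (a (l 3) (l 2)) (l 2))) (a (b (a (l 3) (a (l 3) (l 14715560))) (b (a (a (l 3) (l 14710424)) (a (l 14708768) (l 14727536))) (a (a (l 14732624) (l 14712976)) (b (a (l 14712872) (l 14732536)) (a (l 14714736) (l 14730584)))))) (l 2))) (a (a (a (l 14734544) (b (l 14720872) (l 14735736))) (a (b (l 14724976) (l 14744544)) (l 14772872))) (l 2))) (a (a (b (a (l 14751528) (l 14800208)) (a (l 14775024) (l 14792656))) (b (a (l 14775904) (l 2)) (l 2))) (l 2)))) (b (a (b (a (a (l 14797776) (l 2)) (l 2)) (l 2)) (l 2)) (l 2))), by decide +kernel⟩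

theorem s3_pp_022 : ∃ t, chk3 f_pp_022 t 2 1 1 = true := ex3_b k0_pp_022 k1_pp_022

theorem s4_pp_022 : ∃ t, chk3 f_pp_022 t 1 1 1 = true := ex3_a s3_pp_022 k2_pp_022

theorem c_pp_022 : CertB 0 536870912 1073741824 536870912 1020054732 13421774 3 eng mog cd1q0 cd4q2 pd2 false true true .pp 0 2 2
    ndB1q0 ndB4q2 pcB2 Cut.none Ext.none :=
  certB1 (fam := false) (s1 := true) (s2 := true) (a := 0) (b := 2) (c := 2) (cn := .pp) (n1 := ndB1q0) (n2 := ndB4q2) (pc := pcB2) (cut := Cut.none) (xt := Ext.none) (P1 := 0) (W1 := 536870912) (P2 := 1073741824) (W2 := 536870912) (P3 := 1020054732) (W3 := 13421774) (N0 := 3) (En := eng) (mo := mog) (C1 := cd1q0) (C2 := cd4q2) (C3 := pd2)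
    rfl (fun _ => rfl) s4_pp_022

noncomputable def f_pp_023 : ℕ → ℕ → ℕ → ℕ → Bool := onCell 1073741824 536870912 0 1230186008 1020054732 13421774
    (rowB 3 eng mog cd1q0 cd4q3 pd2 2 false true true .up 0 2 3 (qsf 0 536870912 0 1230186008 2) ndB1q0 ndB4q3 pcB2 Cut.none Ext.none)

def k0_pp_023 : ∃ t, chk3 f_pp_023 t 1 1 1 = true :=
  ⟨(a (b (l 2) (b (a (l 2) (a (l 2) (b (l 2) (b (l 2) (l 16404520))))) (b (a (l 2) (b (a (a (l 2) (l 16470800)) (a (l 16488240) (l 16497536))) (a (a (b (l 2) (a (l 16571920) (a (l 16576944) (a (l 16553064) (l 16530152))))) (l 16518240)) (l 16519344)))) (a (l 3) (a (a (a (b (l 16604336) (l 3)) (a (b (l 16615488) (l 16591448)) (b (a (l 16611088) (l 16460176)) (a (l 16575696) (c (l 16596968) (l 16386032)))))) (b (l 16585608) (l 16516448))) (b (l 16471552) (b (l 16410008) (l 16327112)))))))) (b (a (l 2) (b (b (a (l 2) (b (l 14714288) (l 14670088))) (l 14739688)) (b (a (l 15380704) (l 15216536)) (a (l 15747184) (l 15591536))))) (b (a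 (b (a (l 2) (b (l 16099912) (a (l 16241112) (l 16193664)))) (a (b (l 16363696) (l 16413240)) (b (l 16273536) (l 16300520)))) (b (a (b (l 15987984) (a (l 16138240) (l 16072744))) (b (l 15833704) (l 15954664))) (a (b (l 16153648) (l 16156576)) (b (b (l 16000896) (l 16005312)) (l 15984984))))) (b (a (a (b (b (l 16430456) (l 16429264)) (l 16380048)) (b (l 16289560) (l 16141472))) (b (a (l 16116072) (l 15809568)) (a (b (l 16048592) (l 15982904)) (b (l 15820968) (l 15736400))))) (a (b (a (l 16311904) (l 16076424)) (a (l 15978912) (l 15764608))) (b (a (l 15851688) (l 15577752)) (a (l 15479152) (b (l 15374752) (l 15208784))))))))), by decide +kernel⟩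

theorem c_pp_023 : CertB 0 536870912 0 1230186008 1020054732 13421774 3 eng mog cd1q0 cd4q3 pd2 false true true .up 0 2 3
    ndB1q0 ndB4q3 pcB2 Cut.none Ext.none :=
  certB2 (fam := false) (s1 := true) (s2 := true) (a := 0) (b := 2) (c := 3) (cn := .up) (n1 := ndB1q0) (n2 := ndB4q3) (pc := pcB2) (cut := Cut.none) (xt := Ext.none) (P1 := 0) (W1 := 536870912) (P2 := 0) (W2 := 1230186008) (P3 := 1020054732) (W3 := 13421774) (N0 := 3) (En := eng) (mo := mog) (C1 := cd1q0) (C2 := cd4q3) (C3 := pd2)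
    rfl (fun _ => rfl) k0_pp_023

noncomputable def f_pp_033 : ℕ → ℕ → ℕ → ℕ → Bool := onCell 1610612736 536870912 0 1230186008 1020054732 13421774
    (rowB 3 eng mog cd1q0 cd4q3 pd3 2 false true true .pnn 0 3 3 (qsf 0 536870912 0 1230186008 3) ndB1q0 ndB4q3 pcB3 Cut.none Ext.none)

def k0_pp_033 : ∃ t, chk3 f_pp_033 t 1 2 1 = true :=
  ⟨(b (a (a (a (b (l 16499408) (l 16480472)) (b (l 16380928) (l 16359240))) (a (l 16119448) (l 16143008))) (a (a (l 16007872) (l 4)) (l 4))) (a (a (a (b (l 16426888) (l 16325936)) (b (l 16274112) (l 16140192))) (a (b (b (l 16153912) (l 16080984)) (l 15938360)) (b (a (l 15986952) (l 15890368)) (b (l 15789264) (l 15656840))))) (b (a (a (l 15758672) (l 15569568)) (l 4)) (a (a (b (l 15563832) (l 15406600)) (a (b (l 15371296) (l 15194648)) (b (l 15240912) (l 15040624)))) (a (a (b (l 4) (l 14883768)) (l 4)) (l 4)))))), by decide +kernel⟩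

def k1_pp_033 : ∃ t, chk3 f_pp_033 t 1 6 1 = true :=
  ⟨(a (a (b (a (b (l 16215368) (l 16115256)) (b (l 15999328) (l 15877168))) (a (b (b (l 16023256) (a (l 16007432) (l 15885288))) (a (l 15816568) (b (l 15798744) (l 15716296)))) (b (a (l 15793976) (l 15657944)) (b (a (l 15664424) (l 15520808)) (a (l 15579640) (l 15431392)))))) (b (a (b (l 15762208) (l 15616464)) (b (l 15505224) (l 15334096))) (b (a (l 15276496) (a (l 15218248) (l 15060976))) (a (a (b (l 15371240) (b (l 15294328) (l 15252464))) (b (l 15217808) (b (l 15135312) (l 15083968)))) (a (b (l 15060536) (l 14864104)) (l 70359270679)))))) (b (a (a (b (l 15223608) (a (l 15104344) (l 14939192))) (a (b (l 14984424) (l 14764672)) (b (l 14814024) (l 360806869095)))) (a (a (b (l 729637400599) (l 1)) (l 1)) (l 1))) (a (a (b (a (l 14896744) (l 14729856)) (a (b (l 14735576) (l 14630872)) (l 144983707111))) (b (a (l 241084443815) (l 1)) (l 1))) (l 1)))), by decide +kernel⟩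

def k2_pp_033 : ∃ t, chk3 f_pp_033 t 1 7 1 = true :=
  ⟨(a (b (a (b (a (a (b (l 15772768) (l 15717640)) (b (l 15646168) (l 15591552))) (a (b (l 15508936) (l 15455848)) (b (l 15360992) (l 15310576)))) (a (b (a (l 15679312) (l 15556056)) (a (b (l 15663504) (l 15637840)) (b (l 15544200) (l 15527200)))) (b (a (l 15424472) (l 15242888)) (a (b (l 15417704) (l 15410240)) (b (l 15284544) (l 15286760)))))) (a (b (a (b (l 15202464) (l 15114096)) (b (l 15033728) (l 14867064))) (b (a (l 14948952) (c (l 15048912) (l 14900864))) (a (b (l 15143288) (l 119752274151)) (b (l 14971104) (l 1))))) (b (a (b (b (l 14869624) (l 14844112)) (c (l 14880672) (l 14756552))) (b (b (l 14619104) (l 14645856)) (l 1))) (l 1)))) (a (b (a (b (c (l 15561184) (l 15288520)) (a (l 15210960) (l 15003552))) (b (a (l 15103968) (c (l 15248960) (l 15053984))) (a (c (l 15156424) (l 14956216)) (c (l 14979720) (l 14788544))))) (a (a (b (l 14985672) (b (l 14881992) (l 14620528))) (b (l 15061740583) (b (l 14699144)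 (l 1)))) (b (a (l 42978693191) (l 1)) (l 1)))) (b (a (b (a (c (l 15012232) (l 14890512)) (l 1)) (l 1)) (l 1)) (l 1)))) (l 1)), by decide +kernel⟩

theorem s3_pp_033 : ∃ t, chk3 f_pp_033 t 1 3 1 = true := ex3_b k1_pp_033 k2_pp_033

theorem s4_pp_033 : ∃ t, chk3 f_pp_033 t 1 1 1 = true := ex3_b k0_pp_033 s3_pp_033

theorem c_pp_033 : CertB 0 536870912 0 1230186008 1020054732 13421774 3 eng mog cd1q0 cd4q3 pd3 false true true .pnn 0 3 3
    ndB1q0 ndB4q3 pcB3 Cut.none Ext.none :=
  certB2 (fam := false) (s1 := true) (s2 := true) (a := 0) (b := 3) (c := 3) (cn := .pnn) (n1 := ndB1q0) (n2 := ndB4q3) (pc := pcB3) (cut := Cut.none) (xt := Ext.none) (P1 := 0) (W1 := 536870912) (P2 := 0) (W2 := 1230186008) (P3 := 1020054732) (W3 := 13421774) (N0 := 3) (En := eng) (mo := mog) (C1 := cd1q0) (C2 := cd4q3) (C3 := pd3)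
    rfl (fun _ => rfl) s4_pp_033

noncomputable def f_pp_101 : ℕ → ℕ → ℕ → ℕ → Bool := onCell 536870912 536870912 0 536870912 1020054732 13421774
    (rowB 3 eng mog cd1q1 cd4q1 pd0 1 false true true .npn 1 0 1 (qsf 536870912 536870912 536870912 536870912 0) ndB1q1 ndB4q1 pcB0 Cut.none Ext.none)

def k0_pp_101 : ∃ t, chk3 f_pp_101 t 1 1 1 = true :=
  ⟨(l 3), by decide +kernel⟩

theorem c_pp_101 : CertB 536870912 536870912 536870912 536870912 1020054732 13421774 3 eng mog cd1q1 cd4q1 pd0 false true true .npn 1 0 1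
    ndB1q1 ndB4q1 pcB0 Cut.none Ext.none :=
  certB1 (fam := false) (s1 := true) (s2 := true) (a := 1) (b := 0) (c := 1) (cn := .npn) (n1 := ndB1q1) (n2 := ndB4q1) (pc := pcB0) (cut := Cut.none) (xt := Ext.none) (P1 := 536870912) (W1 := 536870912) (P2 := 536870912) (W2 := 536870912) (P3 := 1020054732) (W3 := 13421774) (N0 := 3) (En := eng) (mo := mog) (C1 := cd1q1) (C2 := cd4q1) (C3 := pd0)
    rfl (fun _ => rfl) k0_pp_101

noncomputable def f_pp_102 : ℕ → ℕ → ℕ → ℕ → Bool := onCell 536870912 536870912 1073741824 536870912 1020054732 13421774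
    (rowB 3 eng mog cd1q1 cd4q2 pd0 0 false true true .npp 1 0 2 (qsf 536870912 536870912 1073741824 536870912 0) ndB1q1 ndB4q2 pcB0 Cut.none Ext.none)

def k0_pp_102 : ∃ t, chk3 f_pp_102 t 1 1 1 = true :=
  ⟨(l 3), by decide +kernel⟩

theorem c_pp_102 : CertB 536870912 536870912 1073741824 536870912 1020054732 13421774 3 eng mog cd1q1 cd4q2 pd0 false true true .npp 1 0 2
    ndB1q1 ndB4q2 pcB0 Cut.none Ext.none :=
  certB0 (fam := false) (s1 := true) (s2 := true) (a := 1) (b := 0) (c := 2) (cn := .npp) (n1 := ndB1q1) (n2 := ndB4q2) (pc := pcB0) (cut := Cut.none) (xt := Ext.none) (P1 := 536870912) (W1 := 536870912) (P2 := 1073741824) (W2 := 536870912) (P3 := 1020054732) (W3 := 13421774) (N0 := 3) (En := eng) (mo := mog) (C1 := cd1q1) (C2 := cd4q2) (C3 := pd0)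
    rfl k0_pp_102

noncomputable def f_pp_112 : ℕ → ℕ → ℕ → ℕ → Bool := onCell 536870912 536870912 1073741824 536870912 1020054732 13421774
    (rowB 3 eng mog cd1q1 cd4q2 pd1 0 false true true .dn 1 1 2 (qsf 536870912 536870912 1073741824 536870912 1) ndB1q1 ndB4q2 pcB1 Cut.none Ext.none)

def k0_pp_112 : ∃ t, chk3 f_pp_112 t 1 1 1 = true :=
  ⟨(l 3), by decide +kernel⟩

theorem c_pp_112 : CertB 536870912 536870912 1073741824 536870912 1020054732 13421774 3 eng mog cd1q1 cd4q2 pd1 false true true .dn 1 1 2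
    ndB1q1 ndB4q2 pcB1 Cut.none Ext.none :=
  certB0 (fam := false) (s1 := true) (s2 := true) (a := 1) (b := 1) (c := 2) (cn := .dn) (n1 := ndB1q1) (n2 := ndB4q2) (pc := pcB1) (cut := Cut.none) (xt := Ext.none) (P1 := 536870912) (W1 := 536870912) (P2 := 1073741824) (W2 := 536870912) (P3 := 1020054732) (W3 := 13421774) (N0 := 3) (En := eng) (mo := mog) (C1 := cd1q1) (C2 := cd4q2) (C3 := pd1)
    rfl k0_pp_112

noncomputable def f_pp_113 : ℕ → ℕ → ℕ → ℕ → Bool := onCell 536870912 536870912 0 1230186008 1020054732 13421774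
    (rowB 3 eng mog cd1q1 cd4q3 pd1 2 false true true .nn 1 1 3 (qsf 536870912 536870912 0 1230186008 1) ndB1q1 ndB4q3 pcB1 Cut.none Ext.none)

def k0_pp_113 : ∃ t, chk3 f_pp_113 t 1 1 1 = true :=
  ⟨(b (a (l 2) (a (l 2) (a (b (l 2) (l 3)) (b (a (l 2) (b (a (l 2) (l 16676920)) (a (b (l 2) (l 370607644199)) (b (l 16619288) (a (l 16562592) (l 16630176)))))) (a (l 3) (b (a (l 3) (b (l 439864323367) (l 3))) (l 3))))))) (a (b (l 3) (a (l 3) (l 3))) (b (l 3) (l 3)))), by decide +kernel⟩

theorem c_pp_113 : CertB 536870912 536870912 0 1230186008 1020054732 13421774 3 eng mog cd1q1 cd4q3 pd1 false true true .nn 1 1 3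
    ndB1q1 ndB4q3 pcB1 Cut.none Ext.none :=
  certB2 (fam := false) (s1 := true) (s2 := true) (a := 1) (b := 1) (c := 3) (cn := .nn) (n1 := ndB1q1) (n2 := ndB4q3) (pc := pcB1) (cut := Cut.none) (xt := Ext.none) (P1 := 536870912) (W1 := 536870912) (P2 := 0) (W2 := 1230186008) (P3 := 1020054732) (W3 := 13421774) (N0 := 3) (En := eng) (mo := mog) (C1 := cd1q1) (C2 := cd4q3) (C3 := pd1)
    rfl (fun _ => rfl) k0_pp_113

end Pool.Agent.Strip051.G.I9500_9625.Tab.C.BB14

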