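import Pool.Agent.Strip051.G.I9500_9625.Tab
import Pool.Agent.Strip051.PB.ExtD3

/-! # Certificates B31 (generated) -/

set_option linter.all false
set_option maxRecDepth 100000

namespace Pool.Agent.Strip051.G.I9500_9625.Tab.C.BB14

open Pool.Agent.Strip051.PB Pool.Agent.Strip051.PB.T
open Pool.Agent.Strip051.G.I9500_9625.Tab

noncomputable def f_pp_123 : ℕ → ℕ → ℕ → ℕ → Bool := onCell 1073741824 536870912 0 1230186008 1020054732 13421774
    (rowB 3 eng mog cd1q1 cd4q3 pd2 2 false true true .npn 1 2 3 (qsf 536870912 536870912 0 1230186008 2) ndB1q1 ndB4q3 pcB2 Cut.none Ext.none)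

def k0_pp_123 : ∃ t, chk3 f_pp_123 t 8 1 1 = true :=
  ⟨(b (b (b (a (l 16659880) (l 16718024)) (a (b (l 16636368) (a (b (l 16609176) (l 16621608)) (l 16672632))) (b (l 16716344) (l 16607400)))) (a (b (a (b (b (l 248738749991) (l 338395978951)) (a (l 3) (l 510194445991))) (b (b (l 16596392) (l 16475272)) (a (b (l 327658547127) (l 499993799015)) (b (l 16355208) (b (l 16284696) (l 16258168)))))) (a (l 3) (a (l 480129482311) (b (c (l 483350773879) (l 492477568199)) (l 3))))) (b (a (b (l 16471824) (a (a (l 16313352) (l 16322056)) (l 16328024))) (b (l 16481312) (l 16359560))) (a (a (b (a (c (l 477982073655) (l 486571989463)) (b (b (l 16240072) (l 16231928)) (b (l 16219208) (l 16201728)))) (l 447916968375)) (b (b (b (l 16254264) (l 16237272)) (a (b (l 16231656) (l 16221688)) (l 16235912))) (b (a (l 16199712) (b (l 16228392) (l 16216960))) (l 16188456)))) (a (a (b (b (l 16262464) (l 16239416)) (b (l 16239152) (l 16224256))) (b (b (l 16274992) (l 16244880)) (b (l 16251616)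 (l 16245304)))) (b (b (l 16295728) (l 16261328)) (b (l 16257320) (a (l 16263376) (l 16276048))))))))) (b (a (l 3) (b (b (a (l 3) (a (l 425905470823) (b (a (l 16256560) (l 16276824)) (l 16262656)))) (l 3)) (l 3))) (l 3))), by decide +kernel⟩

def k1_pp_123 : ∃ t, chk3 f_pp_123 t 9 1 1 = true :=
  ⟨(b (b (b (l 16422288) (a (l 16609504) (l 16426408))) (b (a (b (a (l 16493992) (l 16489672)) (a (l 16393464) (l 16410256))) (b (l 16442808) (a (l 16408624) (l 16388464)))) (a (b (a (b (l 16329792) (l 16294032)) (l 16342192)) (a (a (b (l 16265560) (l 16280120)) (b (l 16282456) (l 16281352))) (a (l 16106664) (l 16307152)))) (b (a (l 16355696) (l 16352656)) (a (l 16320736) (l 16327200)))))) (b (b (a (b (b (a (a (l 16130016) (l 16307824)) (a (l 16306320) (l 16303744))) (a (a (l 16301784) (l 16225768)) (a (l 16338528) (l 16332672)))) (b (a (l 16218712) (a (l 16365208) (l 16370240))) (a (l 378123913479) (a (l 16380344) (l 16400536))))) (b (a (b (l 16315040) (a (l 16325384)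 (l 16323232))) (b (l 16322416) (l 16327872))) (a (b (l 16355504) (a (l 16402688) (l 16388584))) (b (l 16299928) (l 16264696))))) (a (a (l 3) (b (b (l 16364640) (l 315846763687)) (l 3))) (a (b (b (a (l 16414840) (l 16433904)) (a (l 16458864) (l 16386656))) (c (l 249811715559) (l 16313240))) (a (b (b (l 16416480) (l 16442880)) (b (l 16336360) (l 16387296))) (b (l 16337608) (c (l 16293240) (l 16437208))))))) (b (a (l 3) (a (b (b (l 241221747927) (l 3)) (l 3)) (b (b (a (l 16389000) (l 16309032)) (l 218673171239)) (c (l 215451601479) (l 16366312))))) (l 3)))), by decide +kernel⟩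

def k2_pp_123 : ∃ t, chk3 f_pp_123 t 5 2 1 = true :=
  ⟨(b (a (b (l 15867704) (a (l 16238312) (l 16048128))) (b (l 15554280) (l 15549184))) (a (a (a (b (l 16137016) (b (l 16334176) (l 16319488))) (b (l 16277848) (a (b (l 16312776) (l 16305776)) (b (a (l 16299720) (l 16206784)) (a (l 16296464) (l 16289032)))))) (b (l 16056568) (b (l 16152608) (l 16194728)))) (b (c (l 15817624) (l 15966848)) (b (a (l 16118496) (l 15981920)) (a (l 15931432) (l 15844336)))))), by decide +kernel⟩

def k3_pp_123 : ∃ t, chk3 f_pp_123 t 5 3 1 = true :=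
  ⟨(b (a (b (a (a (b (l 16320936) (b (l 16335888) (l 16167208))) (a (b (l 16311264) (l 16335352)) (b (c (l 16248976) (l 16337872)) (c (l 16258808) (l 16341968))))) (b (l 16104584) (c (l 16186672) (l 16343864)))) (b (a (a (a (l 16321408) (b (l 16374944) (l 16401376))) (a (b (l 16367760) (l 16372400)) (a (l 16288712) (l 16147680)))) (c (l 16191168) (l 16368520))) (a (a (c (l 16264888) (l 16378016)) (a (c (l 16280976) (l 16424944)) (a (l 16140752) (a (l 16172216) (b (l 16332872) (l 16311696)))))) (c (l 16192488) (l 16389904))))) (b (b (c (l 15946248) (l 16261896)) (c (a (l 16083680) (l 15987336)) (l 16210024))) (b (c (a (l 16100512) (l 16018248)) (l 16181552)) (c (a (l 16115960) (l 16048984)) (l 16135744))))) (a (b (a (a (a (b (b (l 16266176) (l 16252648)) (c (l 16281296) (l 16514528))) (b (b (l 16381664) (l 16251576)) (c (l 16202200) (l 16436736)))) (a (b (c (l 16262744) (l 16475944)) (c (l 16141928) (l 16333848))) (a (b (l 16138256) (c (l 16230128) (l 16461168)))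 (a (b (l 16168656) (c (l 16221024) (l 16449960))) (b (b (l 16330208) (l 16328856)) (c (l 16215288) (l 16442960))))))) (b (b (l 16085000) (l 16170520)) (c (l 16145336) (l 16416856)))) (a (a (b (c (l 179481169415) (b (l 16494216) (l 1))) (l 1)) (l 1)) (l 1))) (b (b (c (a (l 16087472) (l 16080392)) (a (l 16349304) (l 16305896))) (l 1)) (l 1)))), by decide +kernel⟩

def k4_pp_123 : ∃ t, chk3 f_pp_123 t 3 1 1 = true :=
  ⟨(b (a (b (a (b (l 15133392) (l 15383272)) (b (l 14754104) (l 15042008))) (b (a (a (l 15692240) (l 15538032)) (a (l 15391848) (l 15255864))) (a (b (a (l 15846696) (l 15716480)) (a (l 15837104) (l 15827864))) (b (l 15536712) (c (l 15506936) (l 15842240)))))) (b (b (a (l 14465096) (b (a (l 14302984) (l 14482720)) (l 14344120))) (a (l 14754200) (l 14535344))) (b (a (b (l 14991400) (l 15160984)) (l 14803728)) (a (b (l 15333560) (l 15336184)) (b (l 15185032) (l 1)))))) (b (a (b (a (b (c (a (l 15851360) (l 15757784)) (a (l 16151560) (l 16080072))) (c (l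 15840072) (l 16146728))) (b (a (b (l 15812920) (l 15865296)) (l 15617592)) (c (a (l 15758800) (l 15661648)) (l 15943704)))) (a (b (c (l 15704752) (l 16176312)) (c (l 15780392) (l 16212488))) (b (c (l 15669432) (l 16100320)) (l 1)))) (b (a (b (c (l 15496176) (l 15839888)) (l 1)) (l 1)) (l 1))) (l 1))), by decide +kernel⟩

theorem s5_pp_123 : ∃ t, chk3 f_pp_123 t 5 1 1 = true := ex3_b k2_pp_123 k3_pp_123

theorem s6_pp_123 : ∃ t, chk3 f_pp_123 t 4 1 1 = true := ex3_a k0_pp_123 k1_pp_123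

theorem s7_pp_123 : ∃ t, chk3 f_pp_123 t 2 1 1 = true := ex3_a s6_pp_123 s5_pp_123

theorem s8_pp_123 : ∃ t, chk3 f_pp_123 t 1 1 1 = true := ex3_a s7_pp_123 k4_pp_123

theorem c_pp_123 : CertB 536870912 536870912 0 1230186008 1020054732 13421774 3 eng mog cd1q1 cd4q3 pd2 false true true .npn 1 2 3
    ndB1q1 ndB4q3 pcB2 Cut.none Ext.none :=
  certB2 (fam := false) (s1 := true) (s2 := true) (a := 1) (b := 2) (c := 3) (cn := .npn) (n1 := ndB1q1) (n2 := ndB4q3) (pc := pcB2) (cut := Cut.none) (xt := Ext.none) (P1 := 536870912) (W1 := 536870912) (P2 := 0) (W2 := 1230186008) (P3 := 1020054732) (W3 := 13421774) (N0 := 3) (En := eng) (mo := mog) (C1 := cd1q1) (C2 := cd4q3) (C3 := pd2)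
    rfl (fun _ => rfl) s8_pp_123

noncomputable def f_pp_133 : ℕ → ℕ → ℕ → ℕ → Bool := onCell 536870912 536870912 0 1230186008 1020054732 13421774
    (rowB 3 eng mog cd1q1 cd4q3 pd3 0 false true true .dn 1 3 3 (qsf 536870912 536870912 0 1230186008 3) ndB1q1 ndB4q3 pcB3 Cut.none Ext.none)

def k0_pp_133 : ∃ t, chk3 f_pp_133 t 1 1 1 = true :=
  ⟨(b (b (a (a (b (a (l 16315440) (l 1)) (l 1)) (l 1)) (l 1)) (l 1)) (l 1)), by decide +kernel⟩

theorem c_pp_133 : CertB 536870912 536870912 0 1230186008 1020054732 13421774 3 eng mog cd1q1 cd4q3 pd3 false true true .dn 1 3 3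
    ndB1q1 ndB4q3 pcB3 Cut.none Ext.none :=
  certB0 (fam := false) (s1 := true) (s2 := true) (a := 1) (b := 3) (c := 3) (cn := .dn) (n1 := ndB1q1) (n2 := ndB4q3) (pc := pcB3) (cut := Cut.none) (xt := Ext.none) (P1 := 536870912) (W1 := 536870912) (P2 := 0) (W2 := 1230186008) (P3 := 1020054732) (W3 := 13421774) (N0 := 3) (En := eng) (mo := mog) (C1 := cd1q1) (C2 := cd4q3) (C3 := pd3)
    rfl k0_pp_133

noncomputable def f_pp_202_a : ℕ → ℕ → ℕ → ℕ → Bool := onCell 0 536870912 1073741824 536870912 1020054732 13421774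
    (rowB 3 eng mog cd1q2a cd4q2 pd0 0 false true true .pp 2 0 2 (qsf 0 536870912 1073741824 536870912 0) ndB1q2a ndB4q2 pcB0 Cut.none Ext.none)

def k0_pp_202_a : ∃ t, chk3 f_pp_202_a t 1 1 1 = true :=
  ⟨(l 5), by decide +kernel⟩

theorem c_pp_202_a : CertB 0 536870912 1073741824 536870912 1020054732 13421774 3 eng mog cd1q2a cd4q2 pd0 false true true .pp 2 0 2
    ndB1q2a ndB4q2 pcB0 Cut.none Ext.none :=
  certB0 (fam := false) (s1 := true) (s2 := true) (a := 2) (b := 0) (c := 2) (cn := .pp) (n1 := ndB1q2a) (n2 := ndB4q2) (pc := pcB0) (cut := Cut.none) (xt := Ext.none) (P1 := 0) (W1 := 536870912) (P2 := 1073741824) (W2 := 536870912) (P3 := 1020054732) (W3 := 13421774) (N0 := 3) (En := eng) (mo := mog) (C1 := cd1q2a) (C2 := cd4q2) (C3 := pd0)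
    rfl k0_pp_202_a

noncomputable def f_pp_202_b : ℕ → ℕ → ℕ → ℕ → Bool := onCell 1239849684 370763052 1073741824 536870912 1020054732 13421774
    (rowB 3 eng mog cd1q2b cd4q2 pd0 0 false true true .pp 2 0 2 (qsf 1239849684 370763052 1073741824 536870912 0) ndB1q2b ndB4q2 pcB0 Cut.none Ext.none)

def k0_pp_202_b : ∃ t, chk3 f_pp_202_b t 1 1 1 = true :=
  ⟨(l 5), by decide +kernel⟩

theorem c_pp_202_b : CertB 1239849684 370763052 1073741824 536870912 1020054732 13421774 3 eng mog cd1q2b cd4q2 pd0 false true true .pp 2 0 2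
    ndB1q2b ndB4q2 pcB0 Cut.none Ext.none :=
  certB0 (fam := false) (s1 := true) (s2 := true) (a := 2) (b := 0) (c := 2) (cn := .pp) (n1 := ndB1q2b) (n2 := ndB4q2) (pc := pcB0) (cut := Cut.none) (xt := Ext.none) (P1 := 1239849684) (W1 := 370763052) (P2 := 1073741824) (W2 := 536870912) (P3 := 1020054732) (W3 := 13421774) (N0 := 3) (En := eng) (mo := mog) (C1 := cd1q2b) (C2 := cd4q2) (C3 := pd0)
    rfl k0_pp_202_b

noncomputable def f_pp_203_a : ℕ → ℕ → ℕ → ℕ → Bool := onCell 0 536870912 0 1230186008 1020054732 13421774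
    (rowB 3 eng mog cd1q2a cd4q3 pd0 0 false true true .up 2 0 3 (qsf 0 536870912 0 1230186008 0) ndB1q2a ndB4q3 pcB0 Cut.none Ext.none)

def k0_pp_203_a : ∃ t, chk3 f_pp_203_a t 1 1 1 = true :=
  ⟨(b (l 2) (l 3)), by decide +kernel⟩

theorem c_pp_203_a : CertB 0 536870912 0 1230186008 1020054732 13421774 3 eng mog cd1q2a cd4q3 pd0 false true true .up 2 0 3
    ndB1q2a ndB4q3 pcB0 Cut.none Ext.none :=
  certB0 (fam := false) (s1 := true) (s2 := true) (a := 2) (b := 0) (c := 3) (cn := .up) (n1 := ndB1q2a) (n2 := ndB4q3) (pc := pcB0) (cut := Cut.none) (xt := Ext.none) (P1 := 0) (W1 := 536870912) (P2 := 0) (W2 := 1230186008) (P3 := 1020054732) (W3 := 13421774) (N0 := 3) (En := eng) (mo := mog) (C1 := cd1q2a) (C2 := cd4q3) (C3 := pd0)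
    rfl k0_pp_203_a

noncomputable def f_pp_203_b : ℕ → ℕ → ℕ → ℕ → Bool := onCell 1239849684 370763052 0 1230186008 1020054732 13421774
    (rowB 3 eng mog cd1q2b cd4q3 pd0 0 false true true .up 2 0 3 (qsf 1239849684 370763052 0 1230186008 0) ndB1q2b ndB4q3 pcB0 Cut.none Ext.none)

def k0_pp_203_b : ∃ t, chk3 f_pp_203_b t 1 1 1 = true :=
  ⟨(b (l 3) (l 5)), by decide +kernel⟩

theorem c_pp_203_b : CertB 1239849684 370763052 0 1230186008 1020054732 13421774 3 eng mog cd1q2b cd4q3 pd0 false true true .up 2 0 3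
    ndB1q2b ndB4q3 pcB0 Cut.none Ext.none :=
  certB0 (fam := false) (s1 := true) (s2 := true) (a := 2) (b := 0) (c := 3) (cn := .up) (n1 := ndB1q2b) (n2 := ndB4q3) (pc := pcB0) (cut := Cut.none) (xt := Ext.none) (P1 := 1239849684) (W1 := 370763052) (P2 := 0) (W2 := 1230186008) (P3 := 1020054732) (W3 := 13421774) (N0 := 3) (En := eng) (mo := mog) (C1 := cd1q2b) (C2 := cd4q3) (C3 := pd0)
    rfl k0_pp_203_b

noncomputable def cut_pp_213_a : Cut := Cut.of [[⟨0, 1, 0, 26738688⟩, ⟨1, 1, 0, 26738688⟩, ⟨2, 2, 0, 2621440⟩]]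

noncomputable def f_pp_213_a : ℕ → ℕ → ℕ → ℕ → Bool := onCell 0 536870912 0 1230186008 1020054732 13421774
    (rowB 3 eng mog cd1q2a cd4q3 pd1 0 false true true .pnn 2 1 3 (qsf 0 536870912 0 1230186008 1) ndB1q2a ndB4q3 pcB1 cut_pp_213_a Ext.none)

def k0_pp_213_a : ∃ t, chk3 f_pp_213_a t 1 1 1 = true :=
  ⟨(b (a (l 3) (a (l 3) (b (a (l 3) (b (a (l 3) (b (l 6) (l 3))) (l 3))) (l 3)))) (l 3)), by decide +kernel⟩

theorem c_pp_213_a : CertB 0 536870912 0 1230186008 1020054732 13421774 3 eng mog cd1q2a cd4q3 pd1 false true true .pnn 2 1 3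
    ndB1q2a ndB4q3 pcB1 cut_pp_213_a Ext.none :=
  certB0 (fam := false) (s1 := true) (s2 := true) (a := 2) (b := 1) (c := 3) (cn := .pnn) (n1 := ndB1q2a) (n2 := ndB4q3) (pc := pcB1) (cut := cut_pp_213_a) (xt := Ext.none) (P1 := 0) (W1 := 536870912) (P2 := 0) (W2 := 1230186008) (P3 := 1020054732) (W3 := 13421774) (N0 := 3) (En := eng) (mo := mog) (C1 := cd1q2a) (C2 := cd4q3) (C3 := pd1)
    rfl k0_pp_213_a

noncomputable def cut_pp_213_b : Cut := Cut.of [[⟨0, 1, 0, 26738688⟩, ⟨1, 1, 0, 26738688⟩, ⟨2, 2, 0, 2621440⟩]]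

noncomputable def f_pp_213_b : ℕ → ℕ → ℕ → ℕ → Bool := onCell 1239849684 370763052 0 1230186008 1020054732 13421774
    (rowB 3 eng mog cd1q2b cd4q3 pd1 0 false true true .pnn 2 1 3 (qsf 1239849684 370763052 0 1230186008 1) ndB1q2b ndB4q3 pcB1 cut_pp_213_b Ext.none)

def k0_pp_213_b : ∃ t, chk3 f_pp_213_b t 1 1 1 = true :=
  ⟨(b (l 3) (l 5)), by decide +kernel⟩

theorem c_pp_213_b : CertB 1239849684 370763052 0 1230186008 1020054732 13421774 3 eng mog cd1q2b cd4q3 pd1 false true true .pnn 2 1 3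
    ndB1q2b ndB4q3 pcB1 cut_pp_213_b Ext.none :=
  certB0 (fam := false) (s1 := true) (s2 := true) (a := 2) (b := 1) (c := 3) (cn := .pnn) (n1 := ndB1q2b) (n2 := ndB4q3) (pc := pcB1) (cut := cut_pp_213_b) (xt := Ext.none) (P1 := 1239849684) (W1 := 370763052) (P2 := 0) (W2 := 1230186008) (P3 := 1020054732) (W3 := 13421774) (N0 := 3) (En := eng) (mo := mog) (C1 := cd1q2b) (C2 := cd4q3) (C3 := pd1)
    rfl k0_pp_213_b

noncomputable def f_pp_303 : ℕ → ℕ → ℕ → ℕ → Bool := onCell 1610612736 536870912 0 1230186008 1020054732 13421774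
    (rowB 3 eng mog cd1q3 cd4q3 pd0 0 false true true .npn 3 0 3 (qsf 1610612736 536870912 0 1230186008 0) ndB1q3 ndB4q3 pcB0 Cut.none Ext.none)

def k0_pp_303 : ∃ t, chk3 f_pp_303 t 1 1 1 = true :=
  ⟨(b (l 3) (l 5)), by decide +kernel⟩

theorem c_pp_303 : CertB 1610612736 536870912 0 1230186008 1020054732 13421774 3 eng mog cd1q3 cd4q3 pd0 false true true .npn 3 0 3
    ndB1q3 ndB4q3 pcB0 Cut.none Ext.none :=
  certB0 (fam := false) (s1 := true) (s2 := true) (a := 3) (b := 0) (c := 3) (cn := .npn) (n1 := ndB1q3) (n2 := ndB4q3) (pc := pcB0) (cut := Cut.none) (xt := Ext.none) (P1 := 1610612736) (W1 := 536870912) (P2 := 0) (W2 := 1230186008) (P3 := 1020054732) (W3 := 13421774) (N0 := 3) (En := eng) (mo := mog) (C1 := cd1q3) (C2 := cd4q3) (C3 := pd0)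
    rfl k0_pp_303

noncomputable def f_pp_313 : ℕ → ℕ → ℕ → ℕ → Bool := onCell 1610612736 536870912 0 1230186008 1020054732 13421774
    (rowB 3 eng mog cd1q3 cd4q3 pd1 0 false true true .dn 3 1 3 (qsf 1610612736 536870912 0 1230186008 1) ndB1q3 ndB4q3 pcB1 Cut.none Ext.none)

def k0_pp_313 : ∃ t, chk3 f_pp_313 t 1 1 1 = true :=
  ⟨(b (l 3) (l 1)), by decide +kernel⟩

theorem c_pp_313 : CertB 1610612736 536870912 0 1230186008 1020054732 13421774 3 eng mog cd1q3 cd4q3 pd1 false true true .dn 3 1 3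
    ndB1q3 ndB4q3 pcB1 Cut.none Ext.none :=
  certB0 (fam := false) (s1 := true) (s2 := true) (a := 3) (b := 1) (c := 3) (cn := .dn) (n1 := ndB1q3) (n2 := ndB4q3) (pc := pcB1) (cut := Cut.none) (xt := Ext.none) (P1 := 1610612736) (W1 := 536870912) (P2 := 0) (W2 := 1230186008) (P3 := 1020054732) (W3 := 13421774) (N0 := 3) (En := eng) (mo := mog) (C1 := cd1q3) (C2 := cd4q3) (C3 := pd1)
    rfl k0_pp_313

noncomputable def f_pm_001 : ℕ → ℕ → ℕ → ℕ → Bool := onCell 0 536870912 536870912 536870912 1020054732 13421774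
    (rowB 3 eng mog cd1q0 cd4q1 pd0 0 false true false .up 0 0 1 (qsf 0 536870912 536870912 536870912 0) ndB1q0 ndB4q1 pcB0 Cut.none Ext.none)

def k0_pm_001 : ∃ t, chk3 f_pm_001 t 1 1 1 = true :=
  ⟨(l 4), by decide +kernel⟩

theorem c_pm_001 : CertB 0 536870912 536870912 536870912 1020054732 13421774 3 eng mog cd1q0 cd4q1 pd0 false true false .up 0 0 1
    ndB1q0 ndB4q1 pcB0 Cut.none Ext.none :=
  certB0 (fam := false) (s1 := true) (s2 := false) (a := 0) (b := 0) (c := 1) (cn := .up) (n1 := ndB1q0) (n2 := ndB4q1) (pc := pcB0) (cut := Cut.none) (xt := Ext.none) (P1 := 0) (W1 := 536870912) (P2 := 536870912) (W2 := 536870912) (P3 := 1020054732) (W3 := 13421774) (N0 := 3) (En := eng) (mo := mog) (C1 := cd1q0) (C2 := cd4q1) (C3 := pd0)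
    rfl k0_pm_001

noncomputable def f_pm_011 : ℕ → ℕ → ℕ → ℕ → Bool := onCell 0 536870912 536870912 536870912 1020054732 13421774
    (rowB 3 eng mog cd1q0 cd4q1 pd1 0 false true false .pnn 0 1 1 (qsf 0 536870912 536870912 536870912 1) ndB1q0 ndB4q1 pcB1 Cut.none Ext.none)

def k0_pm_011 : ∃ t, chk3 f_pm_011 t 1 1 1 = true :=
  ⟨(l 4), by decide +kernel⟩

theorem c_pm_011 : CertB 0 536870912 536870912 536870912 1020054732 13421774 3 eng mog cd1q0 cd4q1 pd1 false true false .pnn 0 1 1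
    ndB1q0 ndB4q1 pcB1 Cut.none Ext.none :=
  certB0 (fam := false) (s1 := true) (s2 := false) (a := 0) (b := 1) (c := 1) (cn := .pnn) (n1 := ndB1q0) (n2 := ndB4q1) (pc := pcB1) (cut := Cut.none) (xt := Ext.none) (P1 := 0) (W1 := 536870912) (P2 := 536870912) (W2 := 536870912) (P3 := 1020054732) (W3 := 13421774) (N0 := 3) (En := eng) (mo := mog) (C1 := cd1q0) (C2 := cd4q1) (C3 := pd1)
    rfl k0_pm_011

noncomputable def f_pm_012 : ℕ → ℕ → ℕ → ℕ → Bool := onCell 0 536870912 1073741824 536870912 1020054732 13421774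
    (rowB 3 eng mog cd1q0 cd4q2 pd1 0 false true false .pnp 0 1 2 (qsf 0 536870912 1073741824 536870912 1) ndB1q0 ndB4q2 pcB1 Cut.none Ext.none)

def k0_pm_012 : ∃ t, chk3 f_pm_012 t 1 1 1 = true :=
  ⟨(l 4), by decide +kernel⟩

theorem c_pm_012 : CertB 0 536870912 1073741824 536870912 1020054732 13421774 3 eng mog cd1q0 cd4q2 pd1 false true false .pnp 0 1 2
    ndB1q0 ndB4q2 pcB1 Cut.none Ext.none :=
  certB0 (fam := false) (s1 := true) (s2 := false) (a := 0) (b := 1) (c := 2) (cn := .pnp) (n1 := ndB1q0) (n2 := ndB4q2) (pc := pcB1) (cut := Cut.none) (xt := Ext.none) (P1 := 0) (W1 := 536870912) (P2 := 1073741824) (W2 := 536870912) (P3 := 1020054732) (W3 := 13421774) (N0 := 3) (En := eng) (mo := mog) (C1 := cd1q0) (C2 := cd4q2) (C3 := pd1)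
    rfl k0_pm_012

noncomputable def f_pm_022 : ℕ → ℕ → ℕ → ℕ → Bool := onCell 0 536870912 1073741824 536870912 1020054732 13421774
    (rowB 3 eng mog cd1q0 cd4q2 pd2 0 false true false .pp 0 2 2 (qsf 0 536870912 1073741824 536870912 2) ndB1q0 ndB4q2 pcB2 Cut.none Ext.none)

def k0_pm_022 : ∃ t, chk3 f_pm_022 t 1 1 1 = true :=
  ⟨(l 4), by decide +kernel⟩

theorem c_pm_022 : CertB 0 536870912 1073741824 536870912 1020054732 13421774 3 eng mog cd1q0 cd4q2 pd2 false true false .pp 0 2 2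
    ndB1q0 ndB4q2 pcB2 Cut.none Ext.none :=
  certB0 (fam := false) (s1 := true) (s2 := false) (a := 0) (b := 2) (c := 2) (cn := .pp) (n1 := ndB1q0) (n2 := ndB4q2) (pc := pcB2) (cut := Cut.none) (xt := Ext.none) (P1 := 0) (W1 := 536870912) (P2 := 1073741824) (W2 := 536870912) (P3 := 1020054732) (W3 := 13421774) (N0 := 3) (En := eng) (mo := mog) (C1 := cd1q0) (C2 := cd4q2) (C3 := pd2)
    rfl k0_pm_022

noncomputable def f_pm_023 : ℕ → ℕ → ℕ → ℕ → Bool := onCell 0 536870912 0 1230186008 1020054732 13421774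
    (rowB 3 eng mog cd1q0 cd4q3 pd2 0 false true false .up 0 2 3 (qsf 0 536870912 0 1230186008 2) ndB1q0 ndB4q3 pcB2 Cut.none Ext.none)

def k0_pm_023 : ∃ t, chk3 f_pm_023 t 1 1 1 = true :=
  ⟨(b (a (l 2) (a (l 2) (b (a (l 2) (a (l 2) (b (l 15708656) (l 16124504)))) (l 4)))) (l 4)), by decide +kernel⟩

theorem c_pm_023 : CertB 0 536870912 0 1230186008 1020054732 13421774 3 eng mog cd1q0 cd4q3 pd2 false true false .up 0 2 3
    ndB1q0 ndB4q3 pcB2 Cut.none Ext.none :=
  certB0 (fam := false) (s1 := true) (s2 := false) (a := 0) (b := 2) (c := 3) (cn := .up) (n1 := ndB1q0) (n2 := ndB4q3) (pc := pcB2) (cut := Cut.none) (xt := Ext.none) (P1 := 0) (W1 := 536870912) (P2 := 0) (W2 := 1230186008) (P3 := 1020054732) (W3 := 13421774) (N0 := 3) (En := eng) (mo := mog) (C1 := cd1q0) (C2 := cd4q3) (C3 := pd2)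
    rfl k0_pm_023

noncomputable def f_pm_033 : ℕ → ℕ → ℕ → ℕ → Bool := onCell 0 536870912 0 1230186008 1020054732 13421774
    (rowB 3 eng mog cd1q0 cd4q3 pd3 0 false true false .pnn 0 3 3 (qsf 0 536870912 0 1230186008 3) ndB1q0 ndB4q3 pcB3 Cut.none Ext.none)

def k0_pm_033 : ∃ t, chk3 f_pm_033 t 1 1 1 = true :=
  ⟨(b (a (l 4) (b (a (l 4) (a (b (l 16279272) (l 4)) (b (l 16377064) (l 67879333319)))) (l 4))) (l 4)), by decide +kernel⟩

theorem c_pm_033 : CertB 0 536870912 0 1230186008 1020054732 13421774 3 eng mog cd1q0 cd4q3 pd3 false true false .pnn 0 3 3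
    ndB1q0 ndB4q3 pcB3 Cut.none Ext.none :=
  certB0 (fam := false) (s1 := true) (s2 := false) (a := 0) (b := 3) (c := 3) (cn := .pnn) (n1 := ndB1q0) (n2 := ndB4q3) (pc := pcB3) (cut := Cut.none) (xt := Ext.none) (P1 := 0) (W1 := 536870912) (P2 := 0) (W2 := 1230186008) (P3 := 1020054732) (W3 := 13421774) (N0 := 3) (En := eng) (mo := mog) (C1 := cd1q0) (C2 := cd4q3) (C3 := pd3)
    rfl k0_pm_033

noncomputable def f_pm_101 : ℕ → ℕ → ℕ → ℕ → Bool := onCell 536870912 536870912 536870912 536870912 1020054732 13421774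
    (rowB 3 eng mog cd1q1 cd4q1 pd0 0 false true false .npn 1 0 1 (qsf 536870912 536870912 536870912 536870912 0) ndB1q1 ndB4q1 pcB0 Cut.none Ext.none)

def k0_pm_101 : ∃ t, chk3 f_pm_101 t 1 1 1 = true :=
  ⟨(l 4), by decide +kernel⟩

theorem c_pm_101 : CertB 536870912 536870912 536870912 536870912 1020054732 13421774 3 eng mog cd1q1 cd4q1 pd0 false true false .npn 1 0 1
    ndB1q1 ndB4q1 pcB0 Cut.none Ext.none :=
  certB0 (fam := false) (s1 := true) (s2 := false) (a := 1) (b := 0) (c := 1) (cn := .npn) (n1 := ndB1q1) (n2 := ndB4q1) (pc := pcB0) (cut := Cut.none) (xt := Ext.none) (P1 := 536870912) (W1 := 536870912) (P2 := 536870912) (W2 := 536870912) (P3 := 1020054732) (W3 := 13421774) (N0 := 3) (En := eng) (mo := mog) (C1 := cd1q1) (C2 := cd4q1) (C3 := pd0)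
    rfl k0_pm_101

noncomputable def f_pm_102 : ℕ → ℕ → ℕ → ℕ → Bool := onCell 536870912 536870912 0 536870912 1020054732 13421774
    (rowB 3 eng mog cd1q1 cd4q2 pd0 1 false true false .npp 1 0 2 (qsf 536870912 536870912 1073741824 536870912 0) ndB1q1 ndB4q2 pcB0 Cut.none Ext.none)

def k0_pm_102 : ∃ t, chk3 f_pm_102 t 1 1 1 = true :=
  ⟨(a (l 4) (a (l 4) (a (l 4) (b (l 4) (b (l 4) (b (l 12954032) (l 13025984))))))), by decide +kernel⟩

theorem c_pm_102 : CertB 536870912 536870912 1073741824 536870912 1020054732 13421774 3 eng mog cd1q1 cd4q2 pd0 false true false .npp 1 0 2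
    ndB1q1 ndB4q2 pcB0 Cut.none Ext.none :=
  certB1 (fam := false) (s1 := true) (s2 := false) (a := 1) (b := 0) (c := 2) (cn := .npp) (n1 := ndB1q1) (n2 := ndB4q2) (pc := pcB0) (cut := Cut.none) (xt := Ext.none) (P1 := 536870912) (W1 := 536870912) (P2 := 1073741824) (W2 := 536870912) (P3 := 1020054732) (W3 := 13421774) (N0 := 3) (En := eng) (mo := mog) (C1 := cd1q1) (C2 := cd4q2) (C3 := pd0)
    rfl (fun _ => rfl) k0_pm_102

noncomputable def f_pm_112 : ℕ → ℕ → ℕ → ℕ → Bool := onCell 536870912 536870912 1073741824 536870912 1020054732 13421774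
    (rowB 3 eng mog cd1q1 cd4q2 pd1 0 false true false .dn 1 1 2 (qsf 536870912 536870912 1073741824 536870912 1) ndB1q1 ndB4q2 pcB1 Cut.none Ext.none)

def k0_pm_112 : ∃ t, chk3 f_pm_112 t 1 1 1 = true :=
  ⟨(b (l 4) (a (l 4) (a (l 4) (b (l 4) (a (l 4) (b (l 12982152) (l 13026040))))))), by decide +kernel⟩

theorem c_pm_112 : CertB 536870912 536870912 1073741824 536870912 1020054732 13421774 3 eng mog cd1q1 cd4q2 pd1 false true false .dn 1 1 2
    ndB1q1 ndB4q2 pcB1 Cut.none Ext.none :=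
  certB0 (fam := false) (s1 := true) (s2 := false) (a := 1) (b := 1) (c := 2) (cn := .dn) (n1 := ndB1q1) (n2 := ndB4q2) (pc := pcB1) (cut := Cut.none) (xt := Ext.none) (P1 := 536870912) (W1 := 536870912) (P2 := 1073741824) (W2 := 536870912) (P3 := 1020054732) (W3 := 13421774) (N0 := 3) (En := eng) (mo := mog) (C1 := cd1q1) (C2 := cd4q2) (C3 := pd1)
    rfl k0_pm_112

noncomputable def f_pm_113 : ℕ → ℕ → ℕ → ℕ → Bool := onCell 536870912 536870912 0 1230186008 1020054732 13421774
    (rowB 3 eng mog cd1q1 cd4q3 pd1 0 false true false .nn 1 1 3 (qsf 536870912 536870912 0 1230186008 1) ndB1q1 ndB4q3 pcB1 Cut.none Ext.none)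

def k0_pm_113 : ∃ t, chk3 f_pm_113 t 1 2 1 = true :=
  ⟨(a (l 2) (a (l 2) (a (b (l 2) (b (a (l 2) (b (l 2) (l 16057272))) (a (b (l 2) (l 15223984)) (b (l 16173240) (l 15459616))))) (a (b (l 2) (b (l 16132552) (b (l 15910144) (a (l 15507248) (l 15484840))))) (b (b (l 16642040) (l 16427776)) (b (l 16144904) (b (l 15647976) (a (l 15437784) (l 15391112))))))))), by decide +kernel⟩

def k1_pm_113 : ∃ t, chk3 f_pm_113 t 1 6 1 = true :=
  ⟨(a (b (l 2) (b (l 2) (l 4))) (a (b (a (l 2) (b (a (l 2) (l 14512160)) (a (l 13980856) (l 14313320)))) (a (b (b (l 98877697335) (a (a (l 2) (l 13367040)) (l 13573120))) (a (l 4) (b (a (l 13579664) (l 13699928)) (l 13734968)))) (b (a (l 13918568) (l 14232064)) (a (b (c (a (l 13914536) (l 14068432)) (l 13794552)) (a (l 13699168) (b (l 14014640) (l 13747624)))) (b (l 14228864) (a (b (l 14162544) (l 14123568)) (b (l 14300000) (l 14298720)))))))) (b (a (b (a (l 14836696) (l 15084720)) (a (l 14617168) (l 14846624))) (b (a (l 15206024)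 (a (l 15233480) (l 15428120))) (a (l 14988400) (c (l 15056968) (l 15071024))))) (a (b (a (l 14499080) (l 14704368)) (a (b (l 14470792) (a (b (l 14424032) (l 14425792)) (l 14531064))) (l 14654728))) (b (a (l 14885672) (c (l 14929432) (l 14931696))) (a (b (l 14788392) (l 14779992)) (c (l 14884888) (l 14842648)))))))), by decide +kernel⟩

def k2_pm_113 : ∃ t, chk3 f_pm_113 t 1 7 1 = true :=
  ⟨(a (l 4) (b (a (a (l 4) (b (b (b (a (a (l 13926008) (l 13976864)) (a (l 14086048) (l 14243432))) (a (l 14014016) (a (l 14084744) (l 14205392)))) (a (l 14099728) (a (l 14161432) (l 14204296)))) (l 14304232))) (a (a (b (b (b (l 14475048) (l 14427944)) (b (l 14372544) (l 14344200))) (b (a (l 14309536) (l 14367440)) (l 14416968))) (b (b (b (l 14662312) (l 14670016)) (a (l 14556512) (l 14687456))) (b (b (l 14541384) (l 14508000)) (c (l 14527688) (l 14442288))))) (a (b (b (l 14796856) (a (l 14779752) (l 14842936))) (b (l 14747216) (l 14649224))) (b (b (l 14871832) (l 14904088))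 (b (a (l 14896384) (l 14956368)) (l 14849272)))))) (a (l 4) (a (b (a (l 14546176) (b (l 14516576) (l 14592600))) (l 14716016)) (b (a (b (l 14361632) (l 14604016)) (b (l 14757560) (l 14686712))) (a (l 14691776) (b (l 14675640) (l 14712304)))))))), by decide +kernel⟩

theorem s3_pm_113 : ∃ t, chk3 f_pm_113 t 1 3 1 = true := ex3_b k1_pm_113 k2_pm_113

theorem s4_pm_113 : ∃ t, chk3 f_pm_113 t 1 1 1 = true := ex3_b k0_pm_113 s3_pm_113

theorem c_pm_113 : CertB 536870912 536870912 0 1230186008 1020054732 13421774 3 eng mog cd1q1 cd4q3 pd1 false true false .nn 1 1 3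
    ndB1q1 ndB4q3 pcB1 Cut.none Ext.none :=
  certB0 (fam := false) (s1 := true) (s2 := false) (a := 1) (b := 1) (c := 3) (cn := .nn) (n1 := ndB1q1) (n2 := ndB4q3) (pc := pcB1) (cut := Cut.none) (xt := Ext.none) (P1 := 536870912) (W1 := 536870912) (P2 := 0) (W2 := 1230186008) (P3 := 1020054732) (W3 := 13421774) (N0 := 3) (En := eng) (mo := mog) (C1 := cd1q1) (C2 := cd4q3) (C3 := pd1)
    rfl s4_pm_113

noncomputable def f_pm_123 : ℕ → ℕ → ℕ → ℕ → Bool := onCell 1073741824 536870912 0 1230186008 1020054732 13421774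
    (rowB 3 eng mog cd1q1 cd4q3 pd2 2 false true false .npn 1 2 3 (qsf 536870912 536870912 0 1230186008 2) ndB1q1 ndB4q3 pcB2 Cut.none Ext.none)

def k0_pm_123 : ∃ t, chk3 f_pm_123 t 1 1 1 = true :=
  ⟨(b (a (a (b (a (b (a (l 16721120) (l 16627336)) (a (l 16734568) (l 16471680))) (b (l 16257776) (a (l 16185504) (l 15913488)))) (a (b (b (l 16087320) (l 15692296)) (a (b (l 15187272) (l 14728656)) (b (l 15018176) (l 14650520)))) (b (b (l 15525448) (l 15143128)) (a (b (l 14891224) (l 14635784)) (l 14725328))))) (b (a (b (l 15788032) (l 15471672)) (b (l 15296664) (a (l 15087680) (l 14870800)))) (a (b (a (l 15020544) (b (l 14928744) (l 14813608))) (a (l 14755656) (l 14837896))) (b (a (l 14790800) (l 14824128)) (a (l 14968392) (l 15121328)))))) (a (b (a (b (l 14833304) (b (a (l 14688952) (l 14543856)) (a (l 14668664) (l 14726408)))) (a (b (l 14550888) (l 14707184)) (b (l 14319640) (l 14876920)))) (a (a (b (l 14920512) (l 15043840)) (b (l 15069664) (l 15305816))) (b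 (a (l 15259256) (l 15233584)) (a (l 15514952) (l 4))))) (b (a (b (a (b (l 14327024) (l 14513760)) (l 14545520)) (a (l 15077248) (l 15315464))) (b (l 14733256) (a (l 15402552) (b (l 15676624) (l 15848528))))) (b (a (a (b (l 15561904) (l 15687568)) (l 15693400)) (a (l 15777560) (l 4))) (l 4))))) (b (a (b (a (a (a (b (l 14289592) (l 13945208)) (b (l 14345424) (l 14109840))) (a (b (l 14444552) (l 14315760)) (l 14357584))) (a (a (b (l 14746304) (l 14739440)) (b (l 14926224) (l 4))) (a (l 15064072) (l 4)))) (a (b (a (a (l 13704344) (l 13985752)) (a (l 14272544) (l 4))) (l 4)) (l 4))) (l 4)) (l 4))), by decide +kernel⟩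

theorem c_pm_123 : CertB 536870912 536870912 0 1230186008 1020054732 13421774 3 eng mog cd1q1 cd4q3 pd2 false true false .npn 1 2 3
    ndB1q1 ndB4q3 pcB2 Cut.none Ext.none :=
  certB2 (fam := false) (s1 := true) (s2 := false) (a := 1) (b := 2) (c := 3) (cn := .npn) (n1 := ndB1q1) (n2 := ndB4q3) (pc := pcB2) (cut := Cut.none) (xt := Ext.none) (P1 := 536870912) (W1 := 536870912) (P2 := 0) (W2 := 1230186008) (P3 := 1020054732) (W3 := 13421774) (N0 := 3) (En := eng) (mo := mog) (C1 := cd1q1) (C2 := cd4q3) (C3 := pd2)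
    rfl (fun _ => rfl) k0_pm_123

noncomputable def f_pm_133 : ℕ → ℕ → ℕ → ℕ → Bool := onCell 536870912 536870912 0 1230186008 1020054732 13421774
    (rowB 3 eng mog cd1q1 cd4q3 pd3 0 false true false .dn 1 3 3 (qsf 536870912 536870912 0 1230186008 3) ndB1q1 ndB4q3 pcB3 Cut.none Ext.none)

def k0_pm_133 : ∃ t, chk3 f_pm_133 t 1 1 1 = true :=
  ⟨(b (b (a (a (a (b (l 16177264) (l 1)) (l 1)) (l 1)) (l 1)) (l 1)) (l 1)), by decide +kernel⟩

theorem c_pm_133 : CertB 536870912 536870912 0 1230186008 1020054732 13421774 3 eng mog cd1q1 cd4q3 pd3 false true false .dn 1 3 3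
    ndB1q1 ndB4q3 pcB3 Cut.none Ext.none :=
  certB0 (fam := false) (s1 := true) (s2 := false) (a := 1) (b := 3) (c := 3) (cn := .dn) (n1 := ndB1q1) (n2 := ndB4q3) (pc := pcB3) (cut := Cut.none) (xt := Ext.none) (P1 := 536870912) (W1 := 536870912) (P2 := 0) (W2 := 1230186008) (P3 := 1020054732) (W3 := 13421774) (N0 := 3) (En := eng) (mo := mog) (C1 := cd1q1) (C2 := cd4q3) (C3 := pd3)
    rfl k0_pm_133

noncomputable def f_pm_202_a : ℕ → ℕ → ℕ → ℕ → Bool := onCell 0 536870912 0 536870912 1020054732 13421774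
    (rowB 3 eng mog cd1q2a cd4q2 pd0 1 false true false .pp 2 0 2 (qsf 0 536870912 1073741824 536870912 0) ndB1q2a ndB4q2 pcB0 Cut.none Ext.none)

def k0_pm_202_a : ∃ t, chk3 f_pm_202_a t 4 2 1 = true :=
  ⟨(b (b (b (b (b (l 15059272) (l 15016752)) (b (l 14973432) (b (l 14940408) (l 14918344)))) (b (b (l 14896720) (l 14873544)) (b (l 14851864) (l 14826112)))) (b (b (l 14777936) (l 14713520)) (b (l 14628000) (a (b (l 14650696) (a (a (l 14766392) (l 14629336)) (l 14592176))) (l 14532912))))) (b (b (a (a (b (b (a (l 14647216) (l 14602592)) (l 14616344)) (l 14621720)) (b (b (l 14559168) (a (l 14544800) (l 14514264))) (b (a (l 14528312) (l 14487944)) (l 14499288)))) (a (b (l 14494648) (b (l 14446680) (l 14421464))) (l 14414672))) (a (c (l 14568200) (l 14574960)) (b (a (b (a (l 14412056) (l 14376064)) (l 14593704)) (l 14326232)) (a (l 14398752) (b (l 14391760) (a (l 14300768) (l 14242816))))))) (b (a (b (b (l 14614592) (l 14614208)) (a (a (b (l 14728456) (l 14722680))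 (b (l 14682688) (l 14696360))) (l 14594304))) (b (l 14330624) (l 14387152))) (a (a (b (l 14693840) (l 14681272)) (b (a (b (l 14659864) (l 14666128)) (l 14603792)) (a (l 14660088) (b (l 14635680) (l 14638704))))) (b (l 14427944) (l 14480184)))))), by decide +kernel⟩

def k1_pm_202_a : ∃ t, chk3 f_pm_202_a t 5 2 1 = true :=
  ⟨(b (b (b (b (a (a (l 14886344) (l 14828064)) (a (l 14769320) (l 14709448))) (b (a (l 14798528) (l 14683152)) (b (a (l 14768464) (l 14654432)) (a (l 14748400) (l 14635304))))) (b (b (a (l 14726520) (l 14612440)) (a (l 14701680) (l 14585336))) (b (a (l 14678312) (l 14559696)) (a (l 14652328) (l 14532488))))) (b (b (a (l 14606768) (l 14487272)) (a (l 14546496) (l 14427904))) (b (a (l 14486752) (l 14369528)) (l 14350280)))) (b (b (c (a (l 14353680) (l 14243968)) (b (l 14275096) (l 14218384))) (c (a (l 14230408) (l 14127496)) (a (l 14209120) (l 14099256)))) (b (a (a (b (b (l 14176776) (a (l 14176728) (l 14131928))) (b (l 14152016) (l 14169656)))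 (b (l 14105960) (a (l 14071360) (l 14034328)))) (b (l 14027848) (l 13970368))) (a (b (b (a (l 14188536) (l 14283200)) (l 14121688)) (l 14159616)) (a (b (l 13945728) (a (l 13937368) (l 13880088))) (l 13857328)))))), by decide +kernel⟩

def k2_pm_202_a : ∃ t, chk3 f_pm_202_a t 2 3 1 = true :=
  ⟨(b (b (a (a (b (l 14757432) (c (l 14668616) (l 14638656))) (b (b (a (a (l 14610112) (l 14569000)) (l 14455960)) (a (l 14596888) (a (l 14551856) (l 14477384)))) (a (l 14605384) (b (a (l 14571944) (l 14536048)) (l 14567400))))) (a (b (l 14240568) (b (l 14335544) (b (l 14392336) (l 14425872)))) (b (a (l 13965280) (b (a (l 13806440) (l 13758520)) (a (l 13837936) (l 13737856)))) (l 13986816)))) (a (a (b (a (b (l 14685848) (l 14705320)) (l 14662512)) (a (b (l 243299382791) (l 2)) (l 219140280631))) (b (l 14607040) (l 14733896))) (a (b (b (a (a (l 14546696) (l 14509384)) (l 14395720)) (a (l 14549960) (a (l 14498528) (l 14431392)))) (b (a (l 14568952) (l 14503384)) (l 14566136)))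 (b (l 14138608) (a (c (l 343693294119) (l 14404696)) (l 14204528)))))) (b (a (l 2) (a (l 2) (b (a (l 2) (b (l 14348760) (l 2))) (l 2)))) (l 2))), by decide +kernel⟩

def k3_pm_202_a : ∃ t, chk3 f_pm_202_a t 6 2 1 = true :=
  ⟨(b (b (b (b (a (a (l 14647800) (b (l 14602160) (l 14565392))) (a (a (b (a (l 14560576) (l 14543976)) (a (l 14523224) (l 14507552))) (l 14500384)) (b (l 14467512) (l 14430408)))) (a (b (a (l 14592160) (l 14528744)) (a (l 14554832) (l 14492072))) (a (b (a (l 14477680) (l 14447568)) (a (l 14442824) (a (l 14416064) (l 14401784)))) (l 14375456)))) (a (b (b (a (l 14521704) (l 14458064)) (a (l 14492328) (l 14426824))) (a (b (l 14464400) (l 14435792)) (b (l 14397040) (l 14367192)))) (a (b (b (a (l 14408040) (l 14371488)) (l 14357672)) (b (l 14325752) (l 14294464))) (b (a (b (l 14340664) (l 14304520)) (l 14285688)) (a (b (l 14267696) (l 14236392)) (b (l 14232904) (l 14200488))))))) (b (a (b (a (l 14390224) (l 14321088)) (l 14296744)) (a (b (l 14247600)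 (l 14187112)) (b (a (l 14189224) (b (l 14164704) (l 14131256))) (l 14107816)))) (a (b (l 14238632) (l 14181776)) (a (b (l 14128648) (l 14071896)) (b (l 14048816) (l 13991880)))))) (b (a (b (b (l 14125920) (l 14070808)) (b (l 14016176) (l 13961784))) (b (a (l 13989432) (l 13909736)) (b (l 13870008) (l 13817536)))) (b (a (b (l 13907384) (l 13852744)) (b (l 13765440) (l 13713448))) (a (b (l 13797624) (l 13741776)) (b (l 13661280) (l 13608656)))))), by decide +kernel⟩

def k4_pm_202_a : ∃ t, chk3 f_pm_202_a t 7 2 1 = true :=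
  ⟨(b (b (a (b (b (a (b (l 14395368) (l 14358104)) (b (l 14318960) (l 14281448))) (a (l 14302928) (l 14225936))) (a (b (l 14230824) (l 14160504)) (b (l 14153472) (l 14082848)))) (b (b (a (a (l 14239456) (l 14197552)) (l 14132440)) (a (l 14144152) (a (l 14079520) (l 14035664)))) (a (b (l 14071336) (l 14000440)) (a (l 13970744) (l 13927272))))) (a (a (b (b (l 14094200) (a (l 14045648) (l 14006528))) (b (a (l 13983920) (l 13944432)) (l 13903344))) (b (b (l 14014136) (l 13947464)) (b (l 13882944) (l 13823680)))) (a (b (l 13939664) (l 13768216)) (b (a (l 13833008) (l 13789824)) (l 13681968))))) (b (a (a (b (l 13824120) (l 13720088)) (b (b (l 13763784) (l 13705496)) (b (l 13653432) (l 13605256)))) (a (b (l 13647880) (b (l 13566344) (l 13513816))) (b (l 13561136) (l 13450080)))) (a (b (a (l 13619744) (l 13532752)) (a (l 13520608) (l 13437696))) (b (a (l 13650096) (l 13351232)) (a (l 13351128) (l 13262296)))))), by decide +kernel⟩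

def k5_pm_202_a : ∃ t, chk3 f_pm_202_a t 3 3 1 = true :=
  ⟨(b (b (a (a (b (b (l 13684952) (a (l 13665944) (l 13598280))) (a (b (a (l 13675072) (l 13599368)) (l 13678632)) (b (l 13539752) (a (l 13521520) (l 13465064))))) (c (b (l 13538744) (l 13419160)) (b (l 13518416) (l 13415344)))) (a (b (a (l 13420240) (l 13342368)) (a (l 13316248) (l 13244240))) (b (a (l 13261880) (l 13182304)) (a (l 13170856) (l 13099192))))) (a (a (b (a (l 13795608) (c (l 13509272) (l 13552184))) (l 13840712)) (b (a (b (l 13366344) (a (l 13371392) (l 13292904))) (l 13269584)) (a (l 13355808) (b (l 13190344) (a (l 13225160) (l 13118784)))))) (a (b (a (l 13206200) (l 13140808)) (c (l 13055200) (l 13059496))) (b (a (l 13075424) (l 13013472)) (a (l 12973000) (l 12921784)))))) (a (b (a (b (l 14036032) (l 2)) (b (a (l 13612928) (l 13291736)) (l 13672536))) (l 2)) (b (a (b (a (b (l 13012792) (a (l 13075952) (l 12943800))) (l 12907744)) (a (l 13155520) (b (l 13003608) (a (l 12918392) (l 12768624)))))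 (b (a (l 12861000) (l 12821520)) (a (l 12736784) (l 12710168)))) (a (b (a (l 13394392) (l 13008296)) (l 2)) (b (a (b (a (l 12682408) (l 12629120)) (l 12936736)) (l 12585288)) (a (l 12849248) (b (a (l 12517200) (l 12484480)) (a (l 12582576) (l 12442464))))))))), by decide +kernel⟩

theorem s6_pm_202_a : ∃ t, chk3 f_pm_202_a t 3 2 1 = true := ex3_a k3_pm_202_a k4_pm_202_a

theorem s7_pm_202_a : ∃ t, chk3 f_pm_202_a t 3 1 1 = true := ex3_b s6_pm_202_a k5_pm_202_a

theorem s8_pm_202_a : ∃ t, chk3 f_pm_202_a t 2 2 1 = true := ex3_a k0_pm_202_a k1_pm_202_a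

theorem s9_pm_202_a : ∃ t, chk3 f_pm_202_a t 2 1 1 = true := ex3_b s8_pm_202_a k2_pm_202_a

theorem s10_pm_202_a : ∃ t, chk3 f_pm_202_a t 1 1 1 = true := ex3_a s9_pm_202_a s7_pm_202_a

theorem c_pm_202_a : CertB 0 536870912 1073741824 536870912 1020054732 13421774 3 eng mog cd1q2a cd4q2 pd0 false true false .pp 2 0 2
    ndB1q2a ndB4q2 pcB0 Cut.none Ext.none :=
  certB1 (fam := false) (s1 := true) (s2 := false) (a := 2) (b := 0) (c := 2) (cn := .pp) (n1 := ndB1q2a) (n2 := ndB4q2) (pc := pcB0) (cut := Cut.none) (xt := Ext.none) (P1 := 0) (W1 := 536870912) (P2 := 1073741824) (W2 := 536870912) (P3 := 1020054732) (W3 := 13421774) (N0 := 3) (En := eng) (mo := mog) (C1 := cd1q2a) (C2 := cd4q2) (C3 := pd0)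
    rfl (fun _ => rfl) s10_pm_202_a

noncomputable def f_pm_202_b : ℕ → ℕ → ℕ → ℕ → Bool := onCell 0 536870912 1073741824 536870912 1020054732 13421774
    (rowB 3 eng mog cd1q2b cd4q2 pd0 2 false true false .pp 2 0 2 (qsf 1239849684 370763052 1073741824 536870912 0) ndB1q2b ndB4q2 pcB0 Cut.none Ext.none)

def k0_pm_202_b : ∃ t, chk3 f_pm_202_b t 2 2 1 = true :=
  ⟨(a (b (l 1) (a (a (a (b (l 222831882407) (l 14963896)) (a (b (l 211557477735) (l 14961856)) (a (b (l 208873062583) (l 14947856)) (b (l 205114952599) (l 14979752))))) (a (b (a (l 216926102535) (l 1)) (a (b (l 14975080) (l 14896288)) (b (l 14974976) (l 14897680)))) (b (l 1) (c (a (l 224979219799) (l 217999885383)) (l 258801591271))))) (b (l 1) (c (b (a (l 201893577447) (l 1)) (a (l 189008536551) (l 211020013191))) (a (l 242695388359) (l 224441594087)))))) (l 1)), by decide +kernel⟩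

def k1_pm_202_b : ∃ t, chk3 f_pm_202_b t 4 3 1 = true :=
  ⟨(b (a (b (a (a (l 14834336) (a (l 14819544) (a (l 14809896) (l 14802792)))) (a (a (l 14802424) (l 14806080)) (a (l 14809640) (l 14807464)))) (a (a (l 14726736) (a (l 14721400) (l 14714592))) (a (a (l 14715624) (l 14722256)) (b (l 14744792) (b (l 14721696) (l 14878104)))))) (b (a (a (b (l 14814360) (l 14769080)) (b (l 14782368) (l 14745192))) (a (b (l 14741472) (b (l 14803544) (a (l 14713952) (l 14705336)))) (b (a (l 195987658055) (b (l 1) (l 14678472))) (b (l 14689624) (l 14699240))))) (a (a (b (l 14760064) (b (l 14719352) (l 14716936))) (b (b (l 14724720) (l 14717960)) (l 14722472))) (a (b (l 14715904) (l 14728272)) (b (l 14713752) (l 14734544)))))) (a (b (a (a (a (l 14650576) (b (l 14669752) (l 14642464))) (a (b (l 14671032) (l 14648072)) (b (l 14670048) (a (l 14650752) (l 14653552))))) (a (a (b (l 14675680) (l 14662704)) (b (l 14685552) (l 14676192))) (a (l 14692584) (l 14703472)))) (a (a (b (a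 (l 14607856) (l 14618656)) (b (l 14597608) (l 14588768))) (a (b (l 14630376) (l 14741016)) (b (l 14642112) (b (l 14633040) (l 14626088))))) (a (b (a (l 14655232) (l 14668896)) (b (l 14652720) (l 14646808))) (b (b (l 14689816) (l 14683224)) (l 14673984))))) (b (a (a (l 14715504) (b (l 14728288) (l 14733984))) (b (a (l 14741800) (l 14757056)) (a (l 14746848) (l 14755112)))) (a (b (a (l 14705664) (l 14722664)) (l 14706240)) (b (l 14741744) (l 14740960)))))), by decide +kernel⟩

def k2_pm_202_b : ∃ t, chk3 f_pm_202_b t 5 3 1 = true :=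
  ⟨(b (a (b (a (a (b (b (l 1) (l 14665856)) (l 14726536)) (b (l 1) (l 321078366647))) (b (l 1) (a (l 310340907735) (l 1)))) (a (b (a (l 14712080) (l 14710696)) (a (l 14741120) (l 14747864))) (b (a (l 14709432) (l 14708144)) (b (l 14850040) (a (l 14766456) (l 14764536)))))) (b (l 1) (a (b (a (l 358659372711) (l 1)) (b (a (l 295845740295) (l 296919397687)) (l 280813307639))) (b (l 1) (l 300140444967))))) (a (b (b (a (a (b (l 14762408) (l 14769832)) (b (l 14772752) (l 14770304))) (a (l 14765408) (l 14759008))) (a (l 14761600) (l 14757304))) (b (a (l 14757824) (l 14763824)) (a (l 14766360) (l 14781920)))) (b (a (b (l 14738768) (l 14742592)) (b (l 14702640) (l 14717472))) (b (a (l 14759632) (l 14745224)) (a (l 14787800) (l 14783920)))))), by decide +kernel⟩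

def k3_pm_202_b : ∃ t, chk3 f_pm_202_b t 3 1 1 = true :=
  ⟨(b (l 1) (b (l 1) (a (b (a (a (b (l 300140343847) (l 14682104)) (b (l 1) (l 302824649047))) (l 1)) (a (b (a (l 14720648) (l 14686104)) (a (l 14770256) (b (l 14730712) (l 14763048)))) (b (a (l 260411848887) (l 1)) (a (b (l 14694320) (l 14732408)) (b (l 1) (l 252895834247)))))) (l 1)))), by decide +kernel⟩

theorem s4_pm_202_b : ∃ t, chk3 f_pm_202_b t 2 3 1 = true := ex3_a k1_pm_202_b k2_pm_202_b

theorem s5_pm_202_b : ∃ t, chk3 f_pm_202_b t 2 1 1 = true := ex3_b k0_pm_202_b s4_pm_202_b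

theorem s6_pm_202_b : ∃ t, chk3 f_pm_202_b t 1 1 1 = true := ex3_a s5_pm_202_b k3_pm_202_b

theorem c_pm_202_b : CertB 1239849684 370763052 1073741824 536870912 1020054732 13421774 3 eng mog cd1q2b cd4q2 pd0 false true false .pp 2 0 2
    ndB1q2b ndB4q2 pcB0 Cut.none Ext.none :=
  certB2 (fam := false) (s1 := true) (s2 := false) (a := 2) (b := 0) (c := 2) (cn := .pp) (n1 := ndB1q2b) (n2 := ndB4q2) (pc := pcB0) (cut := Cut.none) (xt := Ext.none) (P1 := 1239849684) (W1 := 370763052) (P2 := 1073741824) (W2 := 536870912) (P3 := 1020054732) (W3 := 13421774) (N0 := 3) (En := eng) (mo := mog) (C1 := cd1q2b) (C2 := cd4q2) (C3 := pd0)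
    rfl (fun _ => rfl) s6_pm_202_b

noncomputable def f_pm_203_a : ℕ → ℕ → ℕ → ℕ → Bool := onCell 0 536870912 0 1230186008 1020054732 13421774
    (rowB 3 eng mog cd1q2a cd4q3 pd0 0 false true false .up 2 0 3 (qsf 0 536870912 0 1230186008 0) ndB1q2a ndB4q3 pcB0 Cut.none Ext.none)

def k0_pm_203_a : ∃ t, chk3 f_pm_203_a t 1 1 1 = true :=
  ⟨(b (l 2) (b (l 2) (a (b (b (l 2) (b (a (l 2) (l 2)) (a (a (a (b (l 330879895047) (l 252496611495)) (b (l 16588136) (l 16611184))) (l 16585624)) (a (l 16572816) (l 16473776))))) (b (a (a (b (b (a (l 215989357815) (l 16612304)) (l 16535960)) (a (l 16579760) (l 16606584))) (b (a (l 16639384) (l 16620192)) (a (l 16635488) (l 16616232)))) (a (b (l 16560552) (l 16554360)) (l 16455264))) (a (b (a (a (l 16561632) (l 16589240)) (l 16600048)) (a (a (l 16526096) (l 16543944)) (l 16584704))) (a (l 16439352) (b (l 16452656) (a (l 16489928) (l 16279832))))))) (b (l 2) (a (b (a (b (l 16328856) (l 16202648)) (b (l 2) (a (l 16153664) (l 15966736))))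 (a (b (a (l 16339448) (l 16216280)) (l 16128272)) (b (l 15817312) (l 15703240)))) (b (a (b (l 2) (l 15602848)) (l 2)) (a (b (l 15449960) (l 15265840)) (b (l 14820680) (a (l 14819024) (l 14488776)))))))))), by decide +kernel⟩

theorem c_pm_203_a : CertB 0 536870912 0 1230186008 1020054732 13421774 3 eng mog cd1q2a cd4q3 pd0 false true false .up 2 0 3
    ndB1q2a ndB4q3 pcB0 Cut.none Ext.none :=
  certB0 (fam := false) (s1 := true) (s2 := false) (a := 2) (b := 0) (c := 3) (cn := .up) (n1 := ndB1q2a) (n2 := ndB4q3) (pc := pcB0) (cut := Cut.none) (xt := Ext.none) (P1 := 0) (W1 := 536870912) (P2 := 0) (W2 := 1230186008) (P3 := 1020054732) (W3 := 13421774) (N0 := 3) (En := eng) (mo := mog) (C1 := cd1q2a) (C2 := cd4q3) (C3 := pd0)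
    rfl k0_pm_203_a

noncomputable def f_pm_203_b : ℕ → ℕ → ℕ → ℕ → Bool := onCell 1239849684 370763052 0 1230186008 1020054732 13421774
    (rowB 3 eng mog cd1q2b cd4q3 pd0 0 false true false .up 2 0 3 (qsf 1239849684 370763052 0 1230186008 0) ndB1q2b ndB4q3 pcB0 Cut.none Ext.none)

def k0_pm_203_b : ∃ t, chk3 f_pm_203_b t 1 1 1 = true :=
  ⟨(b (l 3) (b (l 3) (a (b (a (l 3) (l 3)) (a (b (b (a (b (l 3) (a (l 16550656) (l 16506768))) (l 3)) (a (b (l 16393008) (l 16488536)) (b (l 16419240) (l 16397832)))) (b (a (b (l 16497976) (l 16482048)) (l 16198184)) (a (l 16342968) (l 16285744)))) (b (b (l 3) (a (l 292761110519) (l 3))) (b (a (l 16067464) (l 15908112)) (a (l 16133600) (b (l 16020168) (l 15960448))))))) (b (l 3) (b (l 3) (b (a (a (b (l 3) (l 15916632)) (l 3)) (l 3)) (b (a (a (l 15851648) (l 15668296)) (l 3)) (a (a (l 15777848) (l 15580960)) (a (a (l 15420528) (l 15302992)) (a (l 15180616) (a (l 15091048) (b (l 3) (l 15002776))))))))))))), by decide +kernel⟩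

theorem c_pm_203_b : CertB 1239849684 370763052 0 1230186008 1020054732 13421774 3 eng mog cd1q2b cd4q3 pd0 false true false .up 2 0 3
    ndB1q2b ndB4q3 pcB0 Cut.none Ext.none :=
  certB0 (fam := false) (s1 := true) (s2 := false) (a := 2) (b := 0) (c := 3) (cn := .up) (n1 := ndB1q2b) (n2 := ndB4q3) (pc := pcB0) (cut := Cut.none) (xt := Ext.none) (P1 := 1239849684) (W1 := 370763052) (P2 := 0) (W2 := 1230186008) (P3 := 1020054732) (W3 := 13421774) (N0 := 3) (En := eng) (mo := mog) (C1 := cd1q2b) (C2 := cd4q3) (C3 := pd0)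
    rfl k0_pm_203_b

noncomputable def cut_pm_213_a : Cut := Cut.of [[⟨0, 1, 0, 26738688⟩, ⟨1, 1, 0, 26738688⟩, ⟨2, 2, 0, 2621440⟩]]

noncomputable def xt_pm_213_a : Ext := extD3 3 ⟨4, 1, 1, 5, 99, 20, 33, 40, 51, 125, 1, 32⟩ eng cd1q2a cd4q3 pd1 false true false .pnn 2 1 3 rfl ndB1q2a ndB4q3 pcB1

noncomputable def f_pm_213_a : ℕ → ℕ → ℕ → ℕ → Bool := onCell 0 536870912 0 1230186008 1020054732 13421774
    (rowB 3 eng mog cd1q2a cd4q3 pd1 0 false true false .pnn 2 1 3 (qsf 0 536870912 0 1230186008 1) ndB1q2a ndB4q3 pcB1 cut_pm_213_a xt_pm_213_a)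

def k0_pm_213_a : ∃ t, chk3 f_pm_213_a t 2 2 1 = true :=
  ⟨(b (l 3) (b (l 3) (a (l 3) (b (l 3) (l 3))))), by decide +kernel⟩

def k1_pm_213_a : ∃ t, chk3 f_pm_213_a t 6 2 1 = true :=
  ⟨(b (b (l 3) (l 3)) (b (a (l 3) (b (a (l 3) (b (a (l 3) (b (l 3) (a (l 3) (l 188609297399)))) (a (b (l 3) (l 196125405175)) (b (a (l 188609284935) (l 16655704)) (l 135995916711))))) (a (b (a (l 3) (b (l 3) (l 198809760199))) (a (b (l 3) (l 201494117559)) (b (a (l 199883454839) (l 16635856)) (l 16606544)))) (b (a (b (a (l 188609265159) (l 16644168)) (l 16665888)) (b (l 16627088) (l 16608600))) (a (b (l 16618680) (l 16601840)) (l 16578896)))))) (a (b (a (l 3) (b (a (l 3) (b (l 3) (l 206325947351))) (a (c (l 223505805863) (l 220821449527)) (b (a (l 191830406839) (l 16626896)) (l 16620712))))) (a (b (a (l 3) (b (l 247664996039) (a (l 238001324551) (l 184314216439)))) (a (b (l 252496816743) (a (l 240685658839) (l 180019226215))) (b (c (l 16630344) (l 16629960)) (l 16620496)))) (b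 (a (b (a (l 185924835719) (l 16625384)) (l 16619968)) (c (l 16602840) (l 16600568))) (a (b (l 16608696) (l 16596704)) (l 16575104))))) (b (a (b (a (c (l 173039930503) (l 169818695207)) (b (l 16613168) (l 16597800))) (a (b (l 16609968) (l 16595904)) (l 16573216))) (b (a (l 16574816) (l 16537488)) (a (l 16537328) (l 16494928)))) (a (b (c (l 16559496) (l 16553072)) (c (l 16526856) (l 16519920))) (b (l 16476352) (l 16436976))))))), by decide +kernel⟩

def k2_pm_213_a : ∃ t, chk3 f_pm_213_a t 14 4 1 = true :=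
  ⟨(b (l 3) (b (a (l 3) (a (b (l 3) (a (l 3) (b (l 357186865591) (b (l 196125570775) (l 16731896))))) (b (a (b (l 3) (l 364703067079)) (b (a (l 3) (l 363092467911)) (a (l 240149003383) (l 173040149031)))) (a (b (a (l 237464641735) (l 167134560711)) (l 16734408)) (b (l 16753192) (l 16734496)))))) (a (b (a (l 3) (b (l 3) (a (l 3) (l 157470837223)))) (a (b (l 3) (a (l 3) (l 165523873159))) (b (a (l 160692050231) (l 16691584)) (a (l 16680696) (l 16671784))))) (b (a (b (a (b (l 195588690295) (l 16717840)) (l 16718168)) (a (l 16704000) (l 16697896))) (b (l 16713424) (l 16690440))) (a (b (l 16679648) (l 16656496)) (l 16651448)))))), by decide +kernel⟩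

def k3_pm_213_a : ∃ t, chk3 f_pm_213_a t 15 4 1 = true :=
  ⟨(b (a (b (l 3) (a (b (l 3) (a (b (l 3) (c (l 370071772231) (l 371682383367))) (a (b (l 3) (b (l 319605918295) (l 16748800))) (b (b (l 3) (l 317458438055)) (b (l 16750664) (l 16778160)))))) (b (a (b (l 3) (a (l 3) (b (l 3) (l 5834276005603636739815997663)))) (b (a (l 3) (b (l 6) (a (l 425369525191) (l 263234498311)))) (a (b (b (l 5921318664616060258545582303) (l 256792037399)) (l 16756656)) (c (l 16751992) (l 16754832))))) (a (b (a (b (l 5563476622010055943227441247) (l 16752528)) (c (l 16758032) (l 16756336))) (a (l 16756288) (l 16769512))) (b (a (l 16751288) (l 16764088)) (l 16757864)))))) (b (l 6) (a (b (b (b (l 6) (a (a (a (l 16754712) (l 16771336)) (l 16765056)) (l 16753584))) (a (a (l 16744880) (l 16757576)) (l 16746224))) (a (c (l 16743072) (l 16751432)) (l 16711496))) (b (a (c (l 16712352) (l 16722992)) (l 16686520)) (a (l 16698864) (l 16709856)))))) (a (b (a (b (a (b (a (b (l 303499785607)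 (l 16743752)) (l 180019478903)) (l 16754216)) (c (l 16752264) (l 16755856))) (b (l 16723272) (l 16746208))) (b (a (l 16717736) (l 16745136)) (l 16737320))) (b (a (l 16710728) (l 16724936)) (a (l 16651624) (l 16707872)))) (b (a (b (a (l 16709696) (l 16716896)) (l 16690064)) (b (l 16636472) (l 16687856))) (a (b (l 16700312) (l 16690992)) (b (l 16678472) (l 16670968)))))), by decide +kernel⟩

def k4_pm_213_a : ∃ t, chk3 f_pm_213_a t 7 5 1 = true :=
  ⟨(b (a (b (a (b (a (c (b (l 140290925543) (l 16666688)) (b (l 138143445895) (l 16649072))) (b (l 16655976) (l 16634104))) (a (b (l 16639144) (l 16618936)) (l 16598664))) (b (a (l 16618472) (l 16593016)) (l 16650440))) (a (b (a (l 16586360) (l 16548456)) (l 16644568)) (b (l 16482320) (l 16417056)))) (a (b (a (l 16540376) (l 16557032)) (b (l 16402872) (a (l 16333544) (l 16287528)))) (b (a (l 16675480) (b (l 16665968) (l 16679320))) (a (b (l 16424056) (l 16267704)) (l 16419696))))) (a (b (a (b (l 16468208) (l 16417688))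 (b (l 16351688) (a (l 16323840) (l 16252072)))) (a (b (l 16368488) (a (l 16354064) (l 16289152))) (c (b (l 16254840) (l 16203896)) (b (l 16205424) (l 16156088))))) (b (a (b (a (l 16251520) (l 16187776)) (a (l 16177184) (l 16100136))) (c (l 16104760) (l 15981248))) (a (c (l 16069264) (l 16006616)) (c (l 15887888) (l 15800720)))))), by decide +kernel⟩

def k5_pm_213_a : ∃ t, chk3 f_pm_213_a t 2 12 1 = true :=
  ⟨(a (l 3) (b (a (l 3) (a (b (l 3) (a (l 3) (b (l 3) (l 282024706247)))) (b (a (l 3) (b (a (l 3) (l 241222521799)) (c (l 211157745175) (l 211694599959)))) (c (a (b (l 246591242167) (l 192904115847)) (b (l 16630888) (l 16620840))) (a (b (l 247128091783) (l 192367234567)) (b (l 16634800) (l 16626744))))))) (a (a (l 3) (b (l 3) (a (l 3) (b (l 3) (a (l 3) (b (l 266455409943) (l 218673887687))))))) (a (a (b (b (l 3) (b (l 3) (l 264844844727))) (b (c (a (l 251959900295) (l 16608128)) (l 221358244951)) (c (a (l 16604952) (l 16617304)) (l 16628976)))) (c (b (b (l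 235853803095) (a (l 198809671943) (l 16625328))) (b (l 16617728) (l 16604744))) (b (b (l 236927533991) (l 180556053111)) (b (l 16632744) (l 16630936))))) (b (b (a (c (l 16625528) (l 16636776)) (l 16614672)) (c (l 16566208) (l 16619824))) (c (a (l 16596160) (l 16581432)) (a (l 16617736) (l 16594200)))))))), by decide +kernel⟩

def k6_pm_213_a : ∃ t, chk3 f_pm_213_a t 2 13 1 = true :=
  ⟨(a (b (l 3) (a (l 3) (a (l 3) (b (a (l 3) (b (l 3) (c (l 287930251895) (l 288467132599)))) (a (b (l 3) (c (b (l 296520158359) (l 246591131255)) (l 270750310071))) (b (c (a (l 269139724023) (l 197198992887)) (b (l 240685564423) (l 205252078567))) (c (b (l 16608400) (l 16595568)) (l 16584976)))))))) (b (a (a (b (l 3) (a (l 3) (c (b (l 270213491799) (a (l 251422997431) (l 187535338279))) (b (l 273434708407) (a (l 246054289479) (l 16618832)))))) (b (a (b (a (l 3) (l 286856485831)) (c (a (l 274508473511) (l 217063260279)) (l 238538098887))) (b (c (a (l 228874430791) (l 16622232)) (a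 (l 221895115863) (l 16626032))) (c (l 16591576) (l 16623856)))) (c (b (a (b (l 196662153319) (l 16614704)) (l 16574552)) (a (l 16579984) (l 16575960))) (b (a (l 184314128487) (l 16620712)) (a (l 16617552) (l 16616128)))))) (c (b (a (a (b (l 16586856) (l 16570808)) (l 16549848)) (l 16429880)) (a (b (l 16562752) (l 16540960)) (l 16470440))) (b (a (b (l 16586056) (l 16624456)) (l 16588304)) (a (b (l 16619704) (l 16613776)) (l 16572008))))) (a (c (b (a (a (b (b (l 280414041303) (l 240685568935)) (b (l 207399552551) (l 16611024))) (b (b (l 16613008) (l 16602816)) (l 16565224))) (b (a (l 16580280) (l 16553688)) (l 16479640))) (a (b (a (l 16551592) (l 16561488)) (a (l 16567544) (l 16533776))) (b (l 16473376) (l 16443120)))) (b (a (b (a (l 255717949559) (l 16594264)) (a (b (l 202030865991) (l 16612336)) (l 16609560))) (b (l 16611304) (l 16604224))) (a (b (a (l 16607416) (l 16602256)) (a (l 16599368) (l 16593328))) (b (l 16595600) (l 16585432))))) (b (c (a (c (l 16435728)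 (l 16528264)) (l 16436424)) (a (l 16560592) (l 16558760))) (a (c (b (l 16437368) (l 16424712)) (l 16561688)) (a (b (l 16482656) (l 16334176)) (b (l 16327968) (l 16257088)))))))), by decide +kernel⟩

def k7_pm_213_a : ∃ t, chk3 f_pm_213_a t 3 6 1 = true :=
  ⟨(a (b (a (a (b (b (b (a (c (l 16630304) (l 16631960)) (l 16609904)) (c (l 16608256) (l 16612264))) (c (a (l 16603192) (l 16578096)) (a (l 16609072) (l 16582928)))) (b (c (l 16568056) (l 16574328)) (c (l 16547320) (l 16552608)))) (b (b (c (l 16561688) (l 16562280)) (c (l 16535136) (l 16535208))) (b (c (l 16510744) (l 16508856)) (c (l 16490032) (l 16484448))))) (a (b (b (l 16492232) (l 16462056)) (b (a (l 16456216) (l 16413072)) (c (l 16419800) (l 16399056)))) (b (b (l 16399808) (a (l 16392824) (l 16338784))) (b (a (l 16364336) (l 16309816)) (l 16312536))))) (c (b (a (a (b (l 16525872) (a (l 16487120) (l 16473336))) (b (a (l 16489584) (l 16459032)) (a (l 16477168) (l 16446888)))) (a (b (l 16402776) (l 16383808))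 (l 16289192))) (a (a (b (a (l 16373712) (l 16389272)) (a (l 16372856) (l 16483808))) (b (l 16451720) (l 16432216))) (b (l 16304528) (l 16268896)))) (b (a (a (b (l 16532640) (l 16515488)) (b (l 16463032) (l 16445760))) (b (a (l 16378080) (l 16275288)) (l 16308312))) (a (b (a (l 16418088) (l 16429360)) (a (l 16468496) (l 16412264))) (a (l 16331096) (l 16225504)))))) (b (a (b (a (b (c (l 16298624) (l 16261872)) (c (l 16264032) (l 16227656))) (c (l 16138600) (l 16096688))) (a (c (l 16154712) (l 16186064)) (b (l 16069648) (l 16041520)))) (b (a (c (l 15966128) (l 15919504)) (b (l 15752736) (l 15711048))) (a (c (l 15889656) (l 15866416)) (c (l 15675856) (l 15657608))))) (a (b (c (b (l 15847312) (l 15854528)) (a (l 16143560) (l 16000016))) (c (a (l 16018352) (l 15870840)) (a (l 16102312) (l 15959144)))) (b (a (b (l 15836728) (l 15807736)) (c (l 15598704) (l 15631072))) (a (c (l 15592440) (l 15792960)) (b (l 15564808) (l 15417912))))))), by decide +kernel⟩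

def k8_pm_213_a : ∃ t, chk3 f_pm_213_a t 4 14 1 = true :=
  ⟨(b (a (b (l 3) (a (l 3) (a (l 3) (b (l 3) (c (l 316384328295) (l 311552466279)))))) (b (a (a (l 3) (c (b (l 299204557511) (a (l 280950861031) (l 199883318391))) (b (l 304036309575) (b (l 243906762727) (l 16580616))))) (c (b (a (b (l 212231367431) (l 16604744)) (l 16553808)) (a (l 16541000) (l 16544312))) (b (a (b (l 206862676343) (l 16602736)) (l 16597088)) (a (l 16595256) (l 16586520))))) (c (a (b (a (b (l 306720683399) (l 245517361559)) (b (l 16599608) (l 16583704))) (a (b (l 211157592551) (l 16592488)) (l 16558280))) (b (a (l 16551000) (l 16510712)) (l 16411016))) (a (b (a (l 280950823879) (l 16572688)) (c (l 185387741927) (l 16556944))) (b (l 16537112) (l 16544712)))))) (b (a (a (l 3) (b (a (l 343227827159) (c (b (l 242832986119) (l 16558040)) (b (l 238001144599) (l 16586416)))) (a (c (b (l 271824032567) (l 238537992887)) (l 249275392231)) (c (l 16531344) (l 16575464))))) (c (a (b (a (l 16544848)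 (l 16521640)) (l 16378920)) (b (l 16393136) (l 16393480))) (a (b (a (l 16578512) (l 16567168)) (l 16536696)) (b (l 16529984) (l 16514192))))) (b (a (b (a (l 341080453671) (a (c (l 16568536) (l 16575696)) (l 16532528))) (a (l 1) (l 4919381043799))) (c (a (l 16400144) (l 16370440)) (a (l 16541440) (l 16497712)))) (l 1)))), by decide +kernel⟩

def k9_pm_213_a : ∃ t, chk3 f_pm_213_a t 5 14 1 = true :=
  ⟨(b (a (b (c (a (b (l 16436744) (l 16424704)) (b (l 16430752) (l 16415320))) (a (b (l 16586208) (l 16574480)) (l 16504336))) (c (a (b (l 16409600) (l 16391512)) (b (l 16375896) (l 16191568))) (a (b (l 16561248) (l 16546640)) (b (l 16545840) (l 16532416))))) (a (c (b (b (l 16387968) (l 16129592)) (b (a (l 16331928) (l 16355112)) (a (l 16288864) (l 16397528)))) (b (b (l 16563768) (l 16532864)) (b (l 16484936) (l 16488792)))) (a (b (c (b (l 16368640) (l 16383808)) (l 16512232)) (l 16285616)) (b (l 16258448) (l 16434344))))) (a (b (c (a (b (l 16370632) (l 16243592))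 (b (a (l 16310896) (l 16289872)) (a (l 16274040) (l 16350632)))) (a (b (l 16530896) (l 16514888)) (b (l 16440480) (l 16421840)))) (c (a (b (a (l 16302192) (l 16283016)) (a (l 16274496) (l 16311672))) (b (l 16285584) (l 16437800))) (a (b (l 16442792) (l 16402224)) (l 16308296)))) (b (c (a (l 16311832) (l 16512832)) (a (l 16568568) (l 16501760))) (c (a (l 16513152) (l 16457824)) (l 16507216))))), by decide +kernel⟩

def k10_pm_213_a : ∃ t, chk3 f_pm_213_a t 2 15 1 = true :=
  ⟨(b (a (l 1) (a (l 1) (b (c (l 16288024) (l 16465696)) (l 1)))) (l 1)), by decide +kernel⟩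

def k11_pm_213_a : ∃ t, chk3 f_pm_213_a t 3 7 1 = true :=
  ⟨(b (a (b (a (c (b (a (l 16492520) (l 16401920)) (l 16369312)) (b (l 16433256) (l 16409840))) (c (b (l 16221264) (l 16157712)) (b (l 16243664) (l 16212176)))) (a (b (c (l 16353944) (l 16378576)) (c (l 16147280) (l 16336608))) (b (c (a (l 16152360) (l 15994304)) (l 16171488)) (c (a (l 16050864) (l 15880976)) (l 16118848))))) (b (b (a (a (l 16028024) (l 15823704)) (a (l 15575384) (c (l 15389056) (l 15559848)))) (a (a (l 15866144) (l 15635680)) (c (a (l 15526248) (l 15335896)) (a (l 15711960) (l 15522448))))) (a (b (a (l 15667840) (c (l 15634496) (l 15832640))) (c (a (l 15614464) (l 15602712)) (a (l 15928160) (l 15802464)))) (b (a (c (l 15483528) (l 15678848)) (c (l 15333128) (l 15492576))) (c (a (l 15494864) (l 15362696)) (l 15571280)))))) (a (b (a (b (c (a (l 16239104) (l 16087848)) (l 16280968)) (a (l 1) (b (l 16078312) (l 1)))) (b (c (a (l 15729064) (l 15579088)) (a (l 16111752) (l 16004912))) (a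 (b (l 15831552) (l 15847872)) (a (l 15910856) (l 15884624))))) (l 1)) (b (a (a (b (b (l 15649512) (l 15807864)) (l 15690296)) (b (l 15503416) (l 15757304))) (b (c (l 15425472) (l 15574768)) (c (l 15582136) (l 15600416)))) (a (b (c (l 15845352) (l 15890528)) (l 1)) (b (c (l 15716088) (l 15650816)) (a (l 15756144) (b (l 15721048) (l 15794368)))))))), by decide +kernel⟩

theorem s12_pm_213_a : ∃ t, chk3 f_pm_213_a t 2 14 1 = true := ex3_a k8_pm_213_a k9_pm_213_a

theorem s13_pm_213_a : ∃ t, chk3 f_pm_213_a t 2 7 1 = true := ex3_b s12_pm_213_a k10_pm_213_a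

theorem s14_pm_213_a : ∃ t, chk3 f_pm_213_a t 1 7 1 = true := ex3_a s13_pm_213_a k11_pm_213_a

theorem s15_pm_213_a : ∃ t, chk3 f_pm_213_a t 2 6 1 = true := ex3_b k5_pm_213_a k6_pm_213_a

theorem s16_pm_213_a : ∃ t, chk3 f_pm_213_a t 1 6 1 = true := ex3_a s15_pm_213_a k7_pm_213_a

theorem s17_pm_213_a : ∃ t, chk3 f_pm_213_a t 1 3 1 = true := ex3_b s16_pm_213_a s14_pm_213_a

theorem s18_pm_213_a : ∃ t, chk3 f_pm_213_a t 7 4 1 = true := ex3_a k2_pm_213_a k3_pm_213_a

theorem s19_pm_213_a : ∃ t, chk3 f_pm_213_a t 7 2 1 = true := ex3_b s18_pm_213_a k4_pm_213_a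

theorem s20_pm_213_a : ∃ t, chk3 f_pm_213_a t 3 2 1 = true := ex3_a k1_pm_213_a s19_pm_213_a

theorem s21_pm_213_a : ∃ t, chk3 f_pm_213_a t 1 2 1 = true := ex3_a k0_pm_213_a s20_pm_213_a

theorem s22_pm_213_a : ∃ t, chk3 f_pm_213_a t 1 1 1 = true := ex3_b s21_pm_213_a s17_pm_213_a

theorem c_pm_213_a : CertB 0 536870912 0 1230186008 1020054732 13421774 3 eng mog cd1q2a cd4q3 pd1 false true false .pnn 2 1 3
    ndB1q2a ndB4q3 pcB1 cut_pm_213_a xt_pm_213_a :=
  certB0 (fam := false) (s1 := true) (s2 := false) (a := 2) (b := 1) (c := 3) (cn := .pnn) (n1 := ndB1q2a) (n2 := ndB4q3) (pc := pcB1) (cut := cut_pm_213_a) (xt := xt_pm_213_a) (P1 := 0) (W1 := 536870912) (P2 := 0) (W2 := 1230186008) (P3 := 1020054732) (W3 := 13421774) (N0 := 3) (En := eng) (mo := mog) (C1 := cd1q2a) (C2 := cd4q3) (C3 := pd1)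
    rfl s22_pm_213_a

noncomputable def cut_pm_213_b : Cut := Cut.of [[⟨0, 1, 0, 26738688⟩, ⟨1, 1, 0, 26738688⟩, ⟨2, 2, 0, 2621440⟩]]

noncomputable def f_pm_213_b : ℕ → ℕ → ℕ → ℕ → Bool := onCell 1239849684 370763052 0 1230186008 1020054732 13421774
    (rowB 3 eng mog cd1q2b cd4q3 pd1 0 false true false .pnn 2 1 3 (qsf 1239849684 370763052 0 1230186008 1) ndB1q2b ndB4q3 pcB1 cut_pm_213_b Ext.none)

def k0_pm_213_b : ∃ t, chk3 f_pm_213_b t 1 1 1 = true :=
  ⟨(b (l 3) (b (l 3) (a (b (a (l 3) (l 1)) (l 1)) (l 1)))), by decide +kernel⟩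

theorem c_pm_213_b : CertB 1239849684 370763052 0 1230186008 1020054732 13421774 3 eng mog cd1q2b cd4q3 pd1 false true false .pnn 2 1 3
    ndB1q2b ndB4q3 pcB1 cut_pm_213_b Ext.none :=
  certB0 (fam := false) (s1 := true) (s2 := false) (a := 2) (b := 1) (c := 3) (cn := .pnn) (n1 := ndB1q2b) (n2 := ndB4q3) (pc := pcB1) (cut := cut_pm_213_b) (xt := Ext.none) (P1 := 1239849684) (W1 := 370763052) (P2 := 0) (W2 := 1230186008) (P3 := 1020054732) (W3 := 13421774) (N0 := 3) (En := eng) (mo := mog) (C1 := cd1q2b) (C2 := cd4q3) (C3 := pd1)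
    rfl k0_pm_213_b

noncomputable def f_pm_303 : ℕ → ℕ → ℕ → ℕ → Bool := onCell 1610612736 536870912 0 1230186008 1020054732 13421774
    (rowB 3 eng mog cd1q3 cd4q3 pd0 0 false true false .npn 3 0 3 (qsf 1610612736 536870912 0 1230186008 0) ndB1q3 ndB4q3 pcB0 Cut.none Ext.none)

def k0_pm_303 : ∃ t, chk3 f_pm_303 t 1 1 1 = true :=
  ⟨(b (l 3) (b (l 3) (a (b (l 3) (b (l 3) (b (l 3) (a (a (b (l 3) (a (b (l 3) (a (a (l 14734664) (l 14691200)) (l 1))) (l 1))) (l 1)) (l 1))))) (l 1)))), by decide +kernel⟩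

theorem c_pm_303 : CertB 1610612736 536870912 0 1230186008 1020054732 13421774 3 eng mog cd1q3 cd4q3 pd0 false true false .npn 3 0 3
    ndB1q3 ndB4q3 pcB0 Cut.none Ext.none :=
  certB0 (fam := false) (s1 := true) (s2 := false) (a := 3) (b := 0) (c := 3) (cn := .npn) (n1 := ndB1q3) (n2 := ndB4q3) (pc := pcB0) (cut := Cut.none) (xt := Ext.none) (P1 := 1610612736) (W1 := 536870912) (P2 := 0) (W2 := 1230186008) (P3 := 1020054732) (W3 := 13421774) (N0 := 3) (En := eng) (mo := mog) (C1 := cd1q3) (C2 := cd4q3) (C3 := pd0)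
    rfl k0_pm_303

noncomputable def f_pm_313 : ℕ → ℕ → ℕ → ℕ → Bool := onCell 1610612736 536870912 0 1230186008 1020054732 13421774
    (rowB 3 eng mog cd1q3 cd4q3 pd1 0 false true false .dn 3 1 3 (qsf 1610612736 536870912 0 1230186008 1) ndB1q3 ndB4q3 pcB1 Cut.none Ext.none)

def k0_pm_313 : ∃ t, chk3 f_pm_313 t 1 1 1 = true :=
  ⟨(b (l 3) (l 1)), by decide +kernel⟩

theorem c_pm_313 : CertB 1610612736 536870912 0 1230186008 1020054732 13421774 3 eng mog cd1q3 cd4q3 pd1 false true false .dn 3 1 3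
    ndB1q3 ndB4q3 pcB1 Cut.none Ext.none :=
  certB0 (fam := false) (s1 := true) (s2 := false) (a := 3) (b := 1) (c := 3) (cn := .dn) (n1 := ndB1q3) (n2 := ndB4q3) (pc := pcB1) (cut := Cut.none) (xt := Ext.none) (P1 := 1610612736) (W1 := 536870912) (P2 := 0) (W2 := 1230186008) (P3 := 1020054732) (W3 := 13421774) (N0 := 3) (En := eng) (mo := mog) (C1 := cd1q3) (C2 := cd4q3) (C3 := pd1)
    rfl k0_pm_313

noncomputable def f_mm_001 : ℕ → ℕ → ℕ → ℕ → Bool := onCell 0 536870912 0 536870912 1020054732 13421774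
    (rowB 3 eng mog cd1q0 cd4q1 pd0 1 false false false .up 0 0 1 (qsf 0 536870912 536870912 536870912 0) ndB1q0 ndB4q1 pcB0 Cut.none Ext.none)

def k0_mm_001 : ∃ t, chk3 f_mm_001 t 1 1 1 = true :=
  ⟨(l 3), by decide +kernel⟩

theorem c_mm_001 : CertB 0 536870912 536870912 536870912 1020054732 13421774 3 eng mog cd1q0 cd4q1 pd0 false false false .up 0 0 1
    ndB1q0 ndB4q1 pcB0 Cut.none Ext.none :=
  certB1 (fam := false) (s1 := false) (s2 := false) (a := 0) (b := 0) (c := 1) (cn := .up) (n1 := ndB1q0) (n2 := ndB4q1) (pc := pcB0) (cut := Cut.none) (xt := Ext.none) (P1 := 0) (W1 := 536870912) (P2 := 536870912) (W2 := 536870912) (P3 := 1020054732) (W3 := 13421774) (N0 := 3) (En := eng) (mo := mog) (C1 := cd1q0) (C2 := cd4q1) (C3 := pd0)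
    rfl (fun _ => rfl) k0_mm_001

noncomputable def f_mm_011 : ℕ → ℕ → ℕ → ℕ → Bool := onCell 0 536870912 536870912 536870912 1020054732 13421774
    (rowB 3 eng mog cd1q0 cd4q1 pd1 1 false false false .pnn 0 1 1 (qsf 0 536870912 536870912 536870912 1) ndB1q0 ndB4q1 pcB1 Cut.none Ext.none)

def k0_mm_011 : ∃ t, chk3 f_mm_011 t 1 1 1 = true :=
  ⟨(l 5), by decide +kernel⟩

theorem c_mm_011 : CertB 0 536870912 536870912 536870912 1020054732 13421774 3 eng mog cd1q0 cd4q1 pd1 false false false .pnn 0 1 1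
    ndB1q0 ndB4q1 pcB1 Cut.none Ext.none :=
  certB1 (fam := false) (s1 := false) (s2 := false) (a := 0) (b := 1) (c := 1) (cn := .pnn) (n1 := ndB1q0) (n2 := ndB4q1) (pc := pcB1) (cut := Cut.none) (xt := Ext.none) (P1 := 0) (W1 := 536870912) (P2 := 536870912) (W2 := 536870912) (P3 := 1020054732) (W3 := 13421774) (N0 := 3) (En := eng) (mo := mog) (C1 := cd1q0) (C2 := cd4q1) (C3 := pd1)
    rfl (fun _ => rfl) k0_mm_011

noncomputable def f_mm_012 : ℕ → ℕ → ℕ → ℕ → Bool := onCell 0 536870912 1073741824 536870912 1020054732 13421774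
    (rowB 3 eng mog cd1q0 cd4q2 pd1 0 false false false .pnp 0 1 2 (qsf 0 536870912 1073741824 536870912 1) ndB1q0 ndB4q2 pcB1 Cut.none Ext.none)

def k0_mm_012 : ∃ t, chk3 f_mm_012 t 1 1 1 = true :=
  ⟨(l 5), by decide +kernel⟩

theorem c_mm_012 : CertB 0 536870912 1073741824 536870912 1020054732 13421774 3 eng mog cd1q0 cd4q2 pd1 false false false .pnp 0 1 2
    ndB1q0 ndB4q2 pcB1 Cut.none Ext.none :=
  certB0 (fam := false) (s1 := false) (s2 := false) (a := 0) (b := 1) (c := 2) (cn := .pnp) (n1 := ndB1q0) (n2 := ndB4q2) (pc := pcB1) (cut := Cut.none) (xt := Ext.none) (P1 := 0) (W1 := 536870912) (P2 := 1073741824) (W2 := 536870912) (P3 := 1020054732) (W3 := 13421774) (N0 := 3) (En := eng) (mo := mog) (C1 := cd1q0) (C2 := cd4q2) (C3 := pd1)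
    rfl k0_mm_012

noncomputable def f_mm_022 : ℕ → ℕ → ℕ → ℕ → Bool := onCell 0 536870912 1073741824 536870912 1020054732 13421774
    (rowB 3 eng mog cd1q0 cd4q2 pd2 0 false false false .pp 0 2 2 (qsf 0 536870912 1073741824 536870912 2) ndB1q0 ndB4q2 pcB2 Cut.none Ext.none)

def k0_mm_022 : ∃ t, chk3 f_mm_022 t 1 1 1 = true :=
  ⟨(l 5), by decide +kernel⟩

theorem c_mm_022 : CertB 0 536870912 1073741824 536870912 1020054732 13421774 3 eng mog cd1q0 cd4q2 pd2 false false false .pp 0 2 2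
    ndB1q0 ndB4q2 pcB2 Cut.none Ext.none :=
  certB0 (fam := false) (s1 := false) (s2 := false) (a := 0) (b := 2) (c := 2) (cn := .pp) (n1 := ndB1q0) (n2 := ndB4q2) (pc := pcB2) (cut := Cut.none) (xt := Ext.none) (P1 := 0) (W1 := 536870912) (P2 := 1073741824) (W2 := 536870912) (P3 := 1020054732) (W3 := 13421774) (N0 := 3) (En := eng) (mo := mog) (C1 := cd1q0) (C2 := cd4q2) (C3 := pd2)
    rfl k0_mm_022

noncomputable def f_mm_023 : ℕ → ℕ → ℕ → ℕ → Bool := onCell 0 536870912 0 1230186008 1020054732 13421774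
    (rowB 3 eng mog cd1q0 cd4q3 pd2 0 false false false .up 0 2 3 (qsf 0 536870912 0 1230186008 2) ndB1q0 ndB4q3 pcB2 Cut.none Ext.none)

def k0_mm_023 : ∃ t, chk3 f_mm_023 t 1 1 1 = true :=
  ⟨(l 5), by decide +kernel⟩

theorem c_mm_023 : CertB 0 536870912 0 1230186008 1020054732 13421774 3 eng mog cd1q0 cd4q3 pd2 false false false .up 0 2 3
    ndB1q0 ndB4q3 pcB2 Cut.none Ext.none :=
  certB0 (fam := false) (s1 := false) (s2 := false) (a := 0) (b := 2) (c := 3) (cn := .up) (n1 := ndB1q0) (n2 := ndB4q3) (pc := pcB2) (cut := Cut.none) (xt := Ext.none) (P1 := 0) (W1 := 536870912) (P2 := 0) (W2 := 1230186008) (P3 := 1020054732) (W3 := 13421774) (N0 := 3) (En := eng) (mo := mog) (C1 := cd1q0) (C2 := cd4q3) (C3 := pd2)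
    rfl k0_mm_023

noncomputable def f_mm_033 : ℕ → ℕ → ℕ → ℕ → Bool := onCell 0 536870912 0 1230186008 1020054732 13421774
    (rowB 3 eng mog cd1q0 cd4q3 pd3 0 false false false .pnn 0 3 3 (qsf 0 536870912 0 1230186008 3) ndB1q0 ndB4q3 pcB3 Cut.none Ext.none)

def k0_mm_033 : ∃ t, chk3 f_mm_033 t 1 1 1 = true :=
  ⟨(l 5), by decide +kernel⟩

theorem c_mm_033 : CertB 0 536870912 0 1230186008 1020054732 13421774 3 eng mog cd1q0 cd4q3 pd3 false false false .pnn 0 3 3
    ndB1q0 ndB4q3 pcB3 Cut.none Ext.none :=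
  certB0 (fam := false) (s1 := false) (s2 := false) (a := 0) (b := 3) (c := 3) (cn := .pnn) (n1 := ndB1q0) (n2 := ndB4q3) (pc := pcB3) (cut := Cut.none) (xt := Ext.none) (P1 := 0) (W1 := 536870912) (P2 := 0) (W2 := 1230186008) (P3 := 1020054732) (W3 := 13421774) (N0 := 3) (En := eng) (mo := mog) (C1 := cd1q0) (C2 := cd4q3) (C3 := pd3)
    rfl k0_mm_033

noncomputable def f_mm_101 : ℕ → ℕ → ℕ → ℕ → Bool := onCell 536870912 536870912 0 536870912 1020054732 13421774
    (rowB 3 eng mog cd1q1 cd4q1 pd0 1 false false false .npn 1 0 1 (qsf 536870912 536870912 536870912 536870912 0) ndB1q1 ndB4q1 pcB0 Cut.none Ext.none)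

def k0_mm_101 : ∃ t, chk3 f_mm_101 t 1 1 1 = true :=
  ⟨(l 3), by decide +kernel⟩

theorem c_mm_101 : CertB 536870912 536870912 536870912 536870912 1020054732 13421774 3 eng mog cd1q1 cd4q1 pd0 false false false .npn 1 0 1
    ndB1q1 ndB4q1 pcB0 Cut.none Ext.none :=
  certB1 (fam := false) (s1 := false) (s2 := false) (a := 1) (b := 0) (c := 1) (cn := .npn) (n1 := ndB1q1) (n2 := ndB4q1) (pc := pcB0) (cut := Cut.none) (xt := Ext.none) (P1 := 536870912) (W1 := 536870912) (P2 := 536870912) (W2 := 536870912) (P3 := 1020054732) (W3 := 13421774) (N0 := 3) (En := eng) (mo := mog) (C1 := cd1q1) (C2 := cd4q1) (C3 := pd0)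
    rfl (fun _ => rfl) k0_mm_101

noncomputable def f_mm_102 : ℕ → ℕ → ℕ → ℕ → Bool := onCell 536870912 536870912 1073741824 536870912 1020054732 13421774
    (rowB 3 eng mog cd1q1 cd4q2 pd0 0 false false false .npp 1 0 2 (qsf 536870912 536870912 1073741824 536870912 0) ndB1q1 ndB4q2 pcB0 Cut.none Ext.none)

def k0_mm_102 : ∃ t, chk3 f_mm_102 t 1 1 1 = true :=
  ⟨(l 3), by decide +kernel⟩

theorem c_mm_102 : CertB 536870912 536870912 1073741824 536870912 1020054732 13421774 3 eng mog cd1q1 cd4q2 pd0 false false false .npp 1 0 2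
    ndB1q1 ndB4q2 pcB0 Cut.none Ext.none :=
  certB0 (fam := false) (s1 := false) (s2 := false) (a := 1) (b := 0) (c := 2) (cn := .npp) (n1 := ndB1q1) (n2 := ndB4q2) (pc := pcB0) (cut := Cut.none) (xt := Ext.none) (P1 := 536870912) (W1 := 536870912) (P2 := 1073741824) (W2 := 536870912) (P3 := 1020054732) (W3 := 13421774) (N0 := 3) (En := eng) (mo := mog) (C1 := cd1q1) (C2 := cd4q2) (C3 := pd0)
    rfl k0_mm_102

noncomputable def f_mm_112 : ℕ → ℕ → ℕ → ℕ → Bool := onCell 536870912 536870912 1073741824 536870912 1020054732 13421774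
    (rowB 3 eng mog cd1q1 cd4q2 pd1 0 false false false .dn 1 1 2 (qsf 536870912 536870912 1073741824 536870912 1) ndB1q1 ndB4q2 pcB1 Cut.none Ext.none)

def k0_mm_112 : ∃ t, chk3 f_mm_112 t 1 1 1 = true :=
  ⟨(l 3), by decide +kernel⟩

theorem c_mm_112 : CertB 536870912 536870912 1073741824 536870912 1020054732 13421774 3 eng mog cd1q1 cd4q2 pd1 false false false .dn 1 1 2
    ndB1q1 ndB4q2 pcB1 Cut.none Ext.none :=
  certB0 (fam := false) (s1 := false) (s2 := false) (a := 1) (b := 1) (c := 2) (cn := .dn) (n1 := ndB1q1) (n2 := ndB4q2) (pc := pcB1) (cut := Cut.none) (xt := Ext.none) (P1 := 536870912) (W1 := 536870912) (P2 := 1073741824) (W2 := 536870912) (P3 := 1020054732) (W3 := 13421774) (N0 := 3) (En := eng) (mo := mog) (C1 := cd1q1) (C2 := cd4q2) (C3 := pd1)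
    rfl k0_mm_112

noncomputable def f_mm_113 : ℕ → ℕ → ℕ → ℕ → Bool := onCell 536870912 536870912 0 1230186008 1020054732 13421774
    (rowB 3 eng mog cd1q1 cd4q3 pd1 0 false false false .nn 1 1 3 (qsf 536870912 536870912 0 1230186008 1) ndB1q1 ndB4q3 pcB1 Cut.none Ext.none)

def k0_mm_113 : ∃ t, chk3 f_mm_113 t 1 1 1 = true :=
  ⟨(b (l 5) (l 5)), by decide +kernel⟩

theorem c_mm_113 : CertB 536870912 536870912 0 1230186008 1020054732 13421774 3 eng mog cd1q1 cd4q3 pd1 false false false .nn 1 1 3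
    ndB1q1 ndB4q3 pcB1 Cut.none Ext.none :=
  certB0 (fam := false) (s1 := false) (s2 := false) (a := 1) (b := 1) (c := 3) (cn := .nn) (n1 := ndB1q1) (n2 := ndB4q3) (pc := pcB1) (cut := Cut.none) (xt := Ext.none) (P1 := 536870912) (W1 := 536870912) (P2 := 0) (W2 := 1230186008) (P3 := 1020054732) (W3 := 13421774) (N0 := 3) (En := eng) (mo := mog) (C1 := cd1q1) (C2 := cd4q3) (C3 := pd1)
    rfl k0_mm_113

noncomputable def f_mm_123 : ℕ → ℕ → ℕ → ℕ → Bool := onCell 536870912 536870912 0 1230186008 1020054732 13421774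
    (rowB 3 eng mog cd1q1 cd4q3 pd2 0 false false false .npn 1 2 3 (qsf 536870912 536870912 0 1230186008 2) ndB1q1 ndB4q3 pcB2 Cut.none Ext.none)

def k0_mm_123 : ∃ t, chk3 f_mm_123 t 1 1 1 = true :=
  ⟨(b (l 5) (l 5)), by decide +kernel⟩

theorem c_mm_123 : CertB 536870912 536870912 0 1230186008 1020054732 13421774 3 eng mog cd1q1 cd4q3 pd2 false false false .npn 1 2 3
    ndB1q1 ndB4q3 pcB2 Cut.none Ext.none :=
  certB0 (fam := false) (s1 := false) (s2 := false) (a := 1) (b := 2) (c := 3) (cn := .npn) (n1 := ndB1q1) (n2 := ndB4q3) (pc := pcB2) (cut := Cut.none) (xt := Ext.none) (P1 := 536870912) (W1 := 536870912) (P2 := 0) (W2 := 1230186008) (P3 := 1020054732) (W3 := 13421774) (N0 := 3) (En := eng) (mo := mog) (C1 := cd1q1) (C2 := cd4q3) (C3 := pd2)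
    rfl k0_mm_123

noncomputable def f_mm_133 : ℕ → ℕ → ℕ → ℕ → Bool := onCell 536870912 536870912 0 1230186008 1020054732 13421774
    (rowB 3 eng mog cd1q1 cd4q3 pd3 0 false false false .dn 1 3 3 (qsf 536870912 536870912 0 1230186008 3) ndB1q1 ndB4q3 pcB3 Cut.none Ext.none)

def k0_mm_133 : ∃ t, chk3 f_mm_133 t 1 1 1 = true :=
  ⟨(b (l 5) (l 1)), by decide +kernel⟩

theorem c_mm_133 : CertB 536870912 536870912 0 1230186008 1020054732 13421774 3 eng mog cd1q1 cd4q3 pd3 false false false .dn 1 3 3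
    ndB1q1 ndB4q3 pcB3 Cut.none Ext.none :=
  certB0 (fam := false) (s1 := false) (s2 := false) (a := 1) (b := 3) (c := 3) (cn := .dn) (n1 := ndB1q1) (n2 := ndB4q3) (pc := pcB3) (cut := Cut.none) (xt := Ext.none) (P1 := 536870912) (W1 := 536870912) (P2 := 0) (W2 := 1230186008) (P3 := 1020054732) (W3 := 13421774) (N0 := 3) (En := eng) (mo := mog) (C1 := cd1q1) (C2 := cd4q3) (C3 := pd3)
    rfl k0_mm_133

noncomputable def f_mm_202_a : ℕ → ℕ → ℕ → ℕ → Bool := onCell 0 536870912 0 536870912 1020054732 13421774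
    (rowB 3 eng mog cd1q2a cd4q2 pd0 1 false false false .pp 2 0 2 (qsf 0 536870912 1073741824 536870912 0) ndB1q2a ndB4q2 pcB0 Cut.none Ext.none)

def k0_mm_202_a : ∃ t, chk3 f_mm_202_a t 1 1 1 = true :=
  ⟨(b (b (a (a (a (a (b (b (b (b (l 15734168) (b (l 15680736) (l 15662488))) (a (b (a (l 15632944) (l 15633000)) (b (a (l 15615584) (l 15623560)) (b (l 15602744) (b (l 15595352) (l 15589392))))) (a (b (l 15640792) (l 15614016)) (l 15619760)))) (b (c (b (c (b (l 15581072) (l 139751870471)) (l 15563936)) (a (l 15517832) (l 15518312))) (l 15510264)) (b (a (a (l 15464968) (l 15462376)) (a (l 15460088) (l 3))) (c (l 143509654983) (l 143509649335))))) (b (a (b (b (l 15368264) (l 15323928)) (b (l 15282000) (l 3))) (l 3)) (l 3))) (b (b (b (b (a (l 124719654359) (l 15758816)) (l 144046927415)) (l 258400232631)) (l 3)) (l 3))) (l 3)) (l 3)) (l 3)) (l 3)) (l 3)), by decide +kernel⟩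

theorem c_mm_202_a : CertB 0 536870912 1073741824 536870912 1020054732 13421774 3 eng mog cd1q2a cd4q2 pd0 false false false .pp 2 0 2
    ndB1q2a ndB4q2 pcB0 Cut.none Ext.none :=
  certB1 (fam := false) (s1 := false) (s2 := false) (a := 2) (b := 0) (c := 2) (cn := .pp) (n1 := ndB1q2a) (n2 := ndB4q2) (pc := pcB0) (cut := Cut.none) (xt := Ext.none) (P1 := 0) (W1 := 536870912) (P2 := 1073741824) (W2 := 536870912) (P3 := 1020054732) (W3 := 13421774) (N0 := 3) (En := eng) (mo := mog) (C1 := cd1q2a) (C2 := cd4q2) (C3 := pd0)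
    rfl (fun _ => rfl) k0_mm_202_a

noncomputable def f_mm_202_b : ℕ → ℕ → ℕ → ℕ → Bool := onCell 1239849684 370763052 0 536870912 1020054732 13421774
    (rowB 3 eng mog cd1q2b cd4q2 pd0 1 false false false .pp 2 0 2 (qsf 1239849684 370763052 1073741824 536870912 0) ndB1q2b ndB4q2 pcB0 Cut.none Ext.none)

def k0_mm_202_b : ∃ t, chk3 f_mm_202_b t 1 1 1 = true :=
  ⟨(b (a (b (b (a (b (b (a (b (a (l 15646896) (l 15514096)) (a (l 15596488) (l 15481880))) (b (a (l 15396240) (l 15275208)) (a (l 15360672) (l 15238216)))) (a (b (a (b (l 15572520) (l 15561744)) (l 15445720)) (a (b (l 15545960) (a (l 15540768) (l 15493504))) (l 15406112))) (b (l 15259456) (l 15220104)))) (a (a (b (b (l 15492288) (l 15445424)) (b (l 15378728) (l 15332976))) (b (b (l 15361880) (l 15318464)) (c (l 15246536) (l 15244856)))) (b (b (l 15183832) (l 15147320)) (l 3)))) (a (b (l 3) (l 3)) (l 3))) (a (b (a (a (b (c (b (l 15320016) (l 15279192)) (l 15279976)) (c (l 305644330519) (l 15173384)))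 (l 3)) (l 3)) (l 3)) (l 3))) (l 3)) (l 3)) (b (l 3) (l 2))), by decide +kernel⟩

theorem c_mm_202_b : CertB 1239849684 370763052 1073741824 536870912 1020054732 13421774 3 eng mog cd1q2b cd4q2 pd0 false false false .pp 2 0 2
    ndB1q2b ndB4q2 pcB0 Cut.none Ext.none :=
  certB1 (fam := false) (s1 := false) (s2 := false) (a := 2) (b := 0) (c := 2) (cn := .pp) (n1 := ndB1q2b) (n2 := ndB4q2) (pc := pcB0) (cut := Cut.none) (xt := Ext.none) (P1 := 1239849684) (W1 := 370763052) (P2 := 1073741824) (W2 := 536870912) (P3 := 1020054732) (W3 := 13421774) (N0 := 3) (En := eng) (mo := mog) (C1 := cd1q2b) (C2 := cd4q2) (C3 := pd0)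
    rfl (fun _ => rfl) k0_mm_202_b

noncomputable def f_mm_203_a : ℕ → ℕ → ℕ → ℕ → Bool := onCell 0 536870912 0 1230186008 1020054732 13421774
    (rowB 3 eng mog cd1q2a cd4q3 pd0 0 false false false .up 2 0 3 (qsf 0 536870912 0 1230186008 0) ndB1q2a ndB4q3 pcB0 Cut.none Ext.none)

def k0_mm_203_a : ∃ t, chk3 f_mm_203_a t 1 1 1 = true :=
  ⟨(b (l 2) (l 3)), by decide +kernel⟩

theorem c_mm_203_a : CertB 0 536870912 0 1230186008 1020054732 13421774 3 eng mog cd1q2a cd4q3 pd0 false false false .up 2 0 3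
    ndB1q2a ndB4q3 pcB0 Cut.none Ext.none :=
  certB0 (fam := false) (s1 := false) (s2 := false) (a := 2) (b := 0) (c := 3) (cn := .up) (n1 := ndB1q2a) (n2 := ndB4q3) (pc := pcB0) (cut := Cut.none) (xt := Ext.none) (P1 := 0) (W1 := 536870912) (P2 := 0) (W2 := 1230186008) (P3 := 1020054732) (W3 := 13421774) (N0 := 3) (En := eng) (mo := mog) (C1 := cd1q2a) (C2 := cd4q3) (C3 := pd0)
    rfl k0_mm_203_a

noncomputable def f_mm_203_b : ℕ → ℕ → ℕ → ℕ → Bool := onCell 0 536870912 0 1230186008 1020054732 13421774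
    (rowB 3 eng mog cd1q2b cd4q3 pd0 2 false false false .up 2 0 3 (qsf 1239849684 370763052 0 1230186008 0) ndB1q2b ndB4q3 pcB0 Cut.none Ext.none)

def k0_mm_203_b : ∃ t, chk3 f_mm_203_b t 1 1 1 = true :=
  ⟨(b (l 3) (l 3)), by decide +kernel⟩

theorem c_mm_203_b : CertB 1239849684 370763052 0 1230186008 1020054732 13421774 3 eng mog cd1q2b cd4q3 pd0 false false false .up 2 0 3
    ndB1q2b ndB4q3 pcB0 Cut.none Ext.none :=
  certB2 (fam := false) (s1 := false) (s2 := false) (a := 2) (b := 0) (c := 3) (cn := .up) (n1 := ndB1q2b) (n2 := ndB4q3) (pc := pcB0) (cut := Cut.none) (xt := Ext.none) (P1 := 1239849684) (W1 := 370763052) (P2 := 0) (W2 := 1230186008) (P3 := 1020054732) (W3 := 13421774) (N0 := 3) (En := eng) (mo := mog) (C1 := cd1q2b) (C2 := cd4q3) (C3 := pd0)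
    rfl (fun _ => rfl) k0_mm_203_b

noncomputable def f_mm_213_a : ℕ → ℕ → ℕ → ℕ → Bool := onCell 0 536870912 0 1230186008 1020054732 13421774
    (rowB 3 eng mog cd1q2a cd4q3 pd1 0 false false false .pnn 2 1 3 (qsf 0 536870912 0 1230186008 1) ndB1q2a ndB4q3 pcB1 Cut.none Ext.none)

def k0_mm_213_a : ∃ t, chk3 f_mm_213_a t 1 1 1 = true :=
  ⟨(b (a (l 3) (l 5)) (l 3)), by decide +kernel⟩

theorem c_mm_213_a : CertB 0 536870912 0 1230186008 1020054732 13421774 3 eng mog cd1q2a cd4q3 pd1 false false false .pnn 2 1 3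
    ndB1q2a ndB4q3 pcB1 Cut.none Ext.none :=
  certB0 (fam := false) (s1 := false) (s2 := false) (a := 2) (b := 1) (c := 3) (cn := .pnn) (n1 := ndB1q2a) (n2 := ndB4q3) (pc := pcB1) (cut := Cut.none) (xt := Ext.none) (P1 := 0) (W1 := 536870912) (P2 := 0) (W2 := 1230186008) (P3 := 1020054732) (W3 := 13421774) (N0 := 3) (En := eng) (mo := mog) (C1 := cd1q2a) (C2 := cd4q3) (C3 := pd1)
    rfl k0_mm_213_a

noncomputable def f_mm_213_b : ℕ → ℕ → ℕ → ℕ → Bool := onCell 1239849684 370763052 0 1230186008 1020054732 13421774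
    (rowB 3 eng mog cd1q2b cd4q3 pd1 0 false false false .pnn 2 1 3 (qsf 1239849684 370763052 0 1230186008 1) ndB1q2b ndB4q3 pcB1 Cut.none Ext.none)

def k0_mm_213_b : ∃ t, chk3 f_mm_213_b t 1 1 1 = true :=
  ⟨(b (l 3) (b (l 3) (l 3))), by decide +kernel⟩

theorem c_mm_213_b : CertB 1239849684 370763052 0 1230186008 1020054732 13421774 3 eng mog cd1q2b cd4q3 pd1 false false false .pnn 2 1 3
    ndB1q2b ndB4q3 pcB1 Cut.none Ext.none :=
  certB0 (fam := false) (s1 := false) (s2 := false) (a := 2) (b := 1) (c := 3) (cn := .pnn) (n1 := ndB1q2b) (n2 := ndB4q3) (pc := pcB1) (cut := Cut.none) (xt := Ext.none) (P1 := 1239849684) (W1 := 370763052) (P2 := 0) (W2 := 1230186008) (P3 := 1020054732) (W3 := 13421774) (N0 := 3) (En := eng) (mo := mog) (C1 := cd1q2b) (C2 := cd4q3) (C3 := pd1)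
    rfl k0_mm_213_b

noncomputable def f_mm_303 : ℕ → ℕ → ℕ → ℕ → Bool := onCell 0 536870912 0 1230186008 1020054732 13421774
    (rowB 3 eng mog cd1q3 cd4q3 pd0 2 false false false .npn 3 0 3 (qsf 1610612736 536870912 0 1230186008 0) ndB1q3 ndB4q3 pcB0 Cut.none Ext.none)

def k0_mm_303 : ∃ t, chk3 f_mm_303 t 1 1 1 = true :=
  ⟨(b (l 3) (l 3)), by decide +kernel⟩

theorem c_mm_303 : CertB 1610612736 536870912 0 1230186008 1020054732 13421774 3 eng mog cd1q3 cd4q3 pd0 false false false .npn 3 0 3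
    ndB1q3 ndB4q3 pcB0 Cut.none Ext.none :=
  certB2 (fam := false) (s1 := false) (s2 := false) (a := 3) (b := 0) (c := 3) (cn := .npn) (n1 := ndB1q3) (n2 := ndB4q3) (pc := pcB0) (cut := Cut.none) (xt := Ext.none) (P1 := 1610612736) (W1 := 536870912) (P2 := 0) (W2 := 1230186008) (P3 := 1020054732) (W3 := 13421774) (N0 := 3) (En := eng) (mo := mog) (C1 := cd1q3) (C2 := cd4q3) (C3 := pd0)
    rfl (fun _ => rfl) k0_mm_303

noncomputable def f_mm_313 : ℕ → ℕ → ℕ → ℕ → Bool := onCell 1610612736 536870912 0 1230186008 1020054732 13421774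
    (rowB 3 eng mog cd1q3 cd4q3 pd1 0 false false false .dn 3 1 3 (qsf 1610612736 536870912 0 1230186008 1) ndB1q3 ndB4q3 pcB1 Cut.none Ext.none)

def k0_mm_313 : ∃ t, chk3 f_mm_313 t 1 1 1 = true :=
  ⟨(b (l 3) (l 1)), by decide +kernel⟩

theorem c_mm_313 : CertB 1610612736 536870912 0 1230186008 1020054732 13421774 3 eng mog cd1q3 cd4q3 pd1 false false false .dn 3 1 3
    ndB1q3 ndB4q3 pcB1 Cut.none Ext.none :=
  certB0 (fam := false) (s1 := false) (s2 := false) (a := 3) (b := 1) (c := 3) (cn := .dn) (n1 := ndB1q3) (n2 := ndB4q3) (pc := pcB1) (cut := Cut.none) (xt := Ext.none) (P1 := 1610612736) (W1 := 536870912) (P2 := 0) (W2 := 1230186008) (P3 := 1020054732) (W3 := 13421774) (N0 := 3) (En := eng) (mo := mog) (C1 := cd1q3) (C2 := cd4q3) (C3 := pd1)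
    rfl k0_mm_313

end Pool.Agent.Strip051.G.I9500_9625.Tab.C.BB14

namespace Pool.Agent.Strip051.G.I9500_9625.Tab.C.BB15

open Pool.Agent.Strip051.PB Pool.Agent.Strip051.PB.T
open Pool.Agent.Strip051.G.I9500_9625.Tab

noncomputable def f_pp_001 : ℕ → ℕ → ℕ → ℕ → Bool := onCell 0 536870912 0 536870912 1020054732 13421774
    (rowB 3 eng mog cd1q0 cd5q1 pd0 1 false true true .up 0 0 1 (qsf 0 536870912 536870912 536870912 0) ndB1q0 ndB5q1 pcB0 Cut.none Ext.none)

def k0_pp_001 : ∃ t, chk3 f_pp_001 t 1 1 1 = true :=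
  ⟨(l 3), by decide +kernel⟩

theorem c_pp_001 : CertB 0 536870912 536870912 536870912 1020054732 13421774 3 eng mog cd1q0 cd5q1 pd0 false true true .up 0 0 1
    ndB1q0 ndB5q1 pcB0 Cut.none Ext.none :=
  certB1 (fam := false) (s1 := true) (s2 := true) (a := 0) (b := 0) (c := 1) (cn := .up) (n1 := ndB1q0) (n2 := ndB5q1) (pc := pcB0) (cut := Cut.none) (xt := Ext.none) (P1 := 0) (W1 := 536870912) (P2 := 536870912) (W2 := 536870912) (P3 := 1020054732) (W3 := 13421774) (N0 := 3) (En := eng) (mo := mog) (C1 := cd1q0) (C2 := cd5q1) (C3 := pd0)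
    rfl (fun _ => rfl) k0_pp_001

noncomputable def cut_pp_011 : Cut := Cut.of [[⟨0, 0, 0, 38347922⟩, ⟨1, 1, 0, 38347922⟩, ⟨2, 1, 0, 38347922⟩]]

noncomputable def f_pp_011 : ℕ → ℕ → ℕ → ℕ → Bool := onCell 0 536870912 536870912 536870912 1020054732 13421774
    (rowB 3 eng mog cd1q0 cd5q1 pd1 1 false true true .pnn 0 1 1 (qsf 0 536870912 536870912 536870912 1) ndB1q0 ndB5q1 pcB1 cut_pp_011 Ext.none)

def k0_pp_011 : ∃ t, chk3 f_pp_011 t 1 1 1 = true :=
  ⟨(b (l 3) (b (l 3) (a (b (l 3) (a (a (b (l 3) (a (l 6) (l 3))) (l 3)) (l 2))) (l 2)))), by decide +kernel⟩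

theorem c_pp_011 : CertB 0 536870912 536870912 536870912 1020054732 13421774 3 eng mog cd1q0 cd5q1 pd1 false true true .pnn 0 1 1
    ndB1q0 ndB5q1 pcB1 cut_pp_011 Ext.none :=
  certB1 (fam := false) (s1 := true) (s2 := true) (a := 0) (b := 1) (c := 1) (cn := .pnn) (n1 := ndB1q0) (n2 := ndB5q1) (pc := pcB1) (cut := cut_pp_011) (xt := Ext.none) (P1 := 0) (W1 := 536870912) (P2 := 536870912) (W2 := 536870912) (P3 := 1020054732) (W3 := 13421774) (N0 := 3) (En := eng) (mo := mog) (C1 := cd1q0) (C2 := cd5q1) (C3 := pd1)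
    rfl (fun _ => rfl) k0_pp_011

noncomputable def cut_pp_012 : Cut := Cut.of [[⟨0, 0, 0, 38347922⟩, ⟨1, 1, 0, 38347922⟩, ⟨2, 1, 0, 38347922⟩]]

noncomputable def f_pp_012 : ℕ → ℕ → ℕ → ℕ → Bool := onCell 0 536870912 536870912 536870912 1020054732 13421774
    (rowB 3 eng mog cd1q0 cd5q2 pd1 1 false true true .pnp 0 1 2 (qsf 0 536870912 1073741824 536870912 1) ndB1q0 ndB5q2 pcB1 cut_pp_012 Ext.none)

def k0_pp_012 : ∃ t, chk3 f_pp_012 t 1 1 1 = true :=
  ⟨(b (l 3) (b (l 3) (a (b (l 3) (a (a (a (b (l 3) (l 6)) (l 3)) (l 3)) (l 3))) (l 3)))), by decide +kernel⟩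

theorem c_pp_012 : CertB 0 536870912 1073741824 536870912 1020054732 13421774 3 eng mog cd1q0 cd5q2 pd1 false true true .pnp 0 1 2
    ndB1q0 ndB5q2 pcB1 cut_pp_012 Ext.none :=
  certB1 (fam := false) (s1 := true) (s2 := true) (a := 0) (b := 1) (c := 2) (cn := .pnp) (n1 := ndB1q0) (n2 := ndB5q2) (pc := pcB1) (cut := cut_pp_012) (xt := Ext.none) (P1 := 0) (W1 := 536870912) (P2 := 1073741824) (W2 := 536870912) (P3 := 1020054732) (W3 := 13421774) (N0 := 3) (En := eng) (mo := mog) (C1 := cd1q0) (C2 := cd5q2) (C3 := pd1)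
    rfl (fun _ => rfl) k0_pp_012

noncomputable def cut_pp_022 : Cut := Cut.of [[⟨0, 0, 0, 38347922⟩, ⟨1, 1, 0, 38347922⟩, ⟨2, 1, 0, 38347922⟩]]

noncomputable def f_pp_022 : ℕ → ℕ → ℕ → ℕ → Bool := onCell 0 536870912 1073741824 536870912 1020054732 13421774
    (rowB 3 eng mog cd1q0 cd5q2 pd2 1 false true true .pp 0 2 2 (qsf 0 536870912 1073741824 536870912 2) ndB1q0 ndB5q2 pcB2 cut_pp_022 Ext.none)

def k0_pp_022 : ∃ t, chk3 f_pp_022 t 4 16 1 = true :=
  ⟨(a (a (b (a (l 6) (b (l 3) (a (b (l 3) (a (l 6) (b (l 3) (a (l 16764648) (l 3))))) (l 3)))) (b (a (a (l 6) (b (l 6) (a (l 6) (b (l 16717928) (l 16707920))))) (a (b (a (b (a (l 6) (l 16757120)) (a (l 16730792) (l 16752712))) (b (a (l 16760456) (l 16763088)) (l 16757136))) (a (b (b (l 16730560) (l 16729032)) (l 16721256)) (b (l 16753248) (l 16732840)))) (b (b (l 3) (a (l 16762576) (l 3))) (b (a (l 16758760) (l 16763112)) (a (l 16755120) (l 16757904)))))) (a (a (b (l 6) (a (l 6) (a (l 16642880) (l 16648920))))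 (b (a (c (l 16686736) (l 16671512)) (c (l 16698704) (l 16686712))) (a (l 16638152) (l 16651248)))) (a (b (a (b (l 16710928) (l 16700520)) (b (l 16718008) (l 16712808))) (c (l 16675432) (l 16664144))) (b (a (b (l 16750152) (l 16722112)) (l 16749616)) (a (b (l 16713464) (l 16723480)) (b (l 16739872) (l 16732208)))))))) (a (b (l 3) (b (b (l 3) (a (b (l 3) (l 437180637159)) (l 3))) (b (a (a (l 316921521431) (l 470466605831)) (l 3)) (a (b (l 16743224) (l 16736768)) (l 466171611719))))) (l 3))) (l 3)), by decide +kernel⟩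

def k1_pp_022 : ∃ t, chk3 f_pp_022 t 4 17 1 = true :=
  ⟨(a (a (a (b (b (a (a (b (l 16621608) (l 16624640)) (b (a (l 16624592) (l 16628800)) (l 16587080))) (b (c (l 16655680) (l 16634440)) (a (l 16618016) (l 16630168)))) (a (b (c (l 16623200) (l 16593496)) (l 16568368)) (a (b (l 16596816) (l 16575744)) (b (l 16608600) (l 16607832))))) (b (a (b (l 16549104) (l 16550680)) (a (b (l 16576176) (l 16556008)) (l 16512208))) (a (c (l 16540424) (l 16501896)) (a (l 16484768) (l 16448944))))) (b (b (a (b (b (l 16653688) (l 16642736)) (c (l 16656832) (l 16637704))) (b (a (l 16685856) (b (l 16723064) (l 16690928))) (c (l 16675664) (l 16662136)))) (a (b (l 16583408) (l 16582312)) (b (l 16625904) (l 16604088)))) (b (a (a (l 16523192) (l 16534232)) (b (l 16603584) (l 16582760))) (a (c (l 16569456) (l 16529712)) (c (l 16589696) (l 16555696)))))) (a (b (b (a (b (b (l 16729744) (l 16701312)) (a (l 16664160) (l 16671520))) (b (l 344301890775) (l 16720192))) (a (b (c (l 16674688)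 (l 16662816)) (l 16626528)) (b (a (l 16682888) (l 16709664)) (a (l 16664576) (l 16674392))))) (b (a (b (l 16626472) (l 16605952)) (c (l 16647456) (l 16631712))) (a (l 16533768) (l 16557072)))) (a (b (b (b (l 480667113975) (l 16727736)) (b (l 16716064) (l 16703616))) (b (b (l 16647760) (l 16631384)) (l 16579888))) (b (b (l 3) (l 477445831287)) (b (b (l 16700728) (l 16687720)) (b (l 16652384) (l 16634304))))))) (b (a (b (l 3) (a (b (l 3) (l 468319040551)) (l 3))) (l 3)) (a (b (a (b (l 357186737847) (l 16681336)) (b (l 3) (l 450602287511))) (a (b (l 16690416) (l 16634976)) (b (l 16709632) (l 16698040)))) (b (l 3) (a (b (l 3) (l 16697408)) (l 3)))))), by decide +kernel⟩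

def k2_pp_022 : ∃ t, chk3 f_pp_022 t 5 8 1 = true :=
  ⟨(l 3), by decide +kernel⟩

def k3_pp_022 : ∃ t, chk3 f_pp_022 t 4 9 1 = true :=
  ⟨(a (b (a (b (a (b (a (l 16439992) (c (l 16515656) (l 16468704))) (a (l 16444176) (l 16455384))) (a (b (b (l 16518776) (l 16498624)) (l 16407872)) (b (l 16511976) (l 16493480)))) (a (b (a (l 16407088) (l 16420504)) (l 16357640)) (b (a (l 16435112) (l 16433216)) (a (l 16399992) (l 16416928))))) (b (a (b (c (l 16563464) (l 16531008)) (c (l 16548080) (l 16508928))) (b (a (l 16560608) (l 16582992)) (a (l 16541848) (l 16564288)))) (a (b (l 16405640) (l 16409080)) (b (l 16472144) (l 16454720))))) (b (a (a (b (l 16343416) (l 16308328)) (b (l 16270040) (l 16340440))) (a (b (a (l 16401264) (l 16424608)) (l 16250944)) (b (l 16437904) (l 16421648)))) (a (a (b (l 16273360) (l 16238496)) (c (l 16318200) (l 16262808))) (a (b (l 16301416) (l 16289656)) (b (l 16385240) (l 16307184)))))) (a (b (b (b (a (c (a (l 16633400) (l 16648160)) (a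 (l 16618800) (l 16635784))) (l 16638864)) (a (a (l 16586456) (l 16587800)) (b (l 16640928) (l 16606360)))) (b (a (l 16516728) (c (l 16589472) (l 16572616))) (a (l 16499240) (l 16542456)))) (b (a (b (l 16482456) (l 16466016)) (b (l 16525400) (l 16508800))) (b (a (l 16429136) (l 16471696)) (a (l 16392840) (l 16435096))))) (b (b (b (a (l 360407917351) (l 3)) (a (l 16678624) (l 378661523479))) (b (a (a (l 16606384) (l 16661096)) (l 16676976)) (a (b (l 16591864) (l 16595496)) (a (l 16626776) (l 16659760))))) (b (b (a (l 16545744) (b (l 16613152) (l 16597072))) (c (l 16540624) (l 16516024))) (b (a (l 16512832) (l 16552472)) (l 16370512)))))), by decide +kernel⟩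

def k4_pp_022 : ∃ t, chk3 f_pp_022 t 5 9 1 = true :=
  ⟨(b (a (b (a (b (l 3) (l 3)) (l 3)) (a (b (a (l 16698104) (l 16719216)) (a (l 16675848) (l 16697160))) (b (l 3) (a (l 16718360) (l 3))))) (l 3)) (a (b (a (b (a (l 16652592) (l 16675168)) (a (l 16602208) (l 16652320))) (b (l 42580307015) (l 16685920))) (a (b (a (l 16569568) (l 16625592)) (c (l 16584664) (l 16539304))) (b (l 16663160) (a (l 16624872) (l 16651912))))) (b (a (b (l 3) (l 16715208)) (l 3)) (a (l 16633896) (l 16678408))))), by decide +kernel⟩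

def k5_pp_022 : ∃ t, chk3 f_pp_022 t 4 5 1 = true :=
  ⟨(b (b (a (b (a (a (b (l 16203672) (l 16168824)) (b (l 16240792) (l 16207200))) (b (a (l 16278160) (l 16316520)) (a (l 16245768) (l 16284328)))) (b (a (a (l 16133328) (l 16172992)) (a (l 16212432) (l 16251544))) (a (b (l 16042032) (b (l 16111192) (a (l 16080224) (l 16120904)))) (b (l 16164472) (b (l 16191864) (l 16139872)))))) (b (a (b (a (l 16357216) (l 16399056)) (a (l 16322888) (l 16363608))) (b (l 16355104) (l 16340096))) (b (a (a (l 16249208) (l 16308472)) (l 16241616)) (b (a (a (l 16265344) (l 16304656)) (l 16298720)) (a (c (l 16225528) (l 16244344)) (b (l 16285792) (a (l 16319480) (l 16274528)))))))) (a (a (b (a (l 16045696) (l 16087688)) (a (l 15988336) (l 16032704))) (b (a (l 16129456) (l 16170872)) (a (l 16076736) (l 16120296)))) (a (b (a (l 16211840) (l 16252264)) (l 16101072)) (b (a (l 16292032) (l 16331104)) (l 16184256))))) (a (b (a (b (a (l 15933960) (l 15980608)) (l 15802528)) (b (l 15966200)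 (l 16003808))) (a (b (l 15859760) (l 15814784)) (b (l 15960064) (l 15918752)))) (b (a (b (l 16118920) (l 16034624)) (b (l 16225216) (l 16183864))) (a (b (l 16056640) (l 16016480)) (l 16125560))))), by decide +kernel⟩

def k6_pp_022 : ∃ t, chk3 f_pp_022 t 5 5 1 = true :=
  ⟨(b (b (b (a (a (b (a (l 16517344) (l 16554048)) (l 16458040)) (b (l 16543928) (l 16570672))) (a (b (l 16662848) (l 16635016)) (b (l 16688744) (l 16685392)))) (b (a (a (l 16400712) (l 16534360)) (a (l 16599672) (l 16658760))) (a (b (a (l 16436288) (l 16506672)) (b (a (l 16421256) (l 16491384)) (a (b (l 16309184) (l 16409984)) (l 16481856)))) (b (a (l 16572272) (l 16632256)) (b (l 16494272) (a (l 16546984) (l 16607432))))))) (a (a (b (l 16366056) (l 16345016)) (l 16353880)) (a (l 16441912) (l 16566960)))) (a (b (a (l 16263904) (l 16360272)) (a (l 16209128) (l 16288120))) (b (a (l 16430912) (l 16495944)) (a (l 16361696) (l 16428968))))), by decide +kernel⟩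

def k7_pp_022 : ∃ t, chk3 f_pp_022 t 2 3 1 = true :=
  ⟨(a (b (a (b (b (a (b (l 15772360) (l 15732392)) (a (l 15834240) (l 15887000))) (a (b (l 15694768) (l 15659880)) (l 15724184))) (a (b (l 15399104) (l 15542288)) (b (l 15718624) (l 15653984)))) (b (a (b (l 15938384) (l 15887984)) (b (l 16051608) (l 15983112))) (b (l 15705072) (l 15749600)))) (a (b (b (l 15351536) (l 15442136)) (a (l 15347624) (l 15445728))) (b (b (l 15756320) (l 15616760)) (a (l 15563656) (l 2))))) (b (b (a (b (l 15951424) (l 16012984)) (a (l 16079048) (b (l 16365128) (l 16299792)))) (a (a (l 15881480) (l 15961992)) (b (l 16140288) (l 2)))) (b (a (a (l 15860616) (l 2)) (l 2)) (l 2)))), by decide +kernel⟩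

def k8_pp_022 : ∃ t, chk3 f_pp_022 t 3 1 1 = true :=
  ⟨(b (b (b (l 3) (a (b (l 3) (a (b (l 3) (a (l 16693912) (l 3))) (l 3))) (l 3))) (a (b (b (b (a (a (l 16681216) (l 16676168)) (a (l 16670024) (l 3))) (b (a (a (l 16678200) (l 16668720)) (l 16661096)) (b (a (a (l 16685984) (l 16671288)) (l 16659680)) (a (b (l 16634016) (l 16646192)) (b (l 16663152) (l 16669032)))))) (a (a (l 16623312) (l 16672760)) (a (l 16665552) (l 16654600)))) (a (b (a (l 16554488) (l 16605472)) (l 16368400)) (b (a (l 16642984) (l 2)) (l 2)))) (b (b (b (l 3) (l 2)) (l 2)) (l 2)))) (a (b (b (a (a (l 16389808) (l 2)) (l 2)) (l 2)) (l 2)) (l 2))), by decide +kernel⟩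

theorem s9_pp_022 : ∃ t, chk3 f_pp_022 t 2 5 1 = true := ex3_a k5_pp_022 k6_pp_022

theorem s10_pp_022 : ∃ t, chk3 f_pp_022 t 2 9 1 = true := ex3_a k3_pp_022 k4_pp_022

theorem s11_pp_022 : ∃ t, chk3 f_pp_022 t 4 8 1 = true := ex3_b k0_pp_022 k1_pp_022

theorem s12_pp_022 : ∃ t, chk3 f_pp_022 t 2 8 1 = true := ex3_a s11_pp_022 k2_pp_022

theorem s13_pp_022 : ∃ t, chk3 f_pp_022 t 2 4 1 = true := ex3_b s12_pp_022 s10_pp_022

theorem s14_pp_022 : ∃ t, chk3 f_pp_022 t 2 2 1 = true := ex3_b s13_pp_022 s9_pp_022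

theorem s15_pp_022 : ∃ t, chk3 f_pp_022 t 2 1 1 = true := ex3_b s14_pp_022 k7_pp_022

theorem s16_pp_022 : ∃ t, chk3 f_pp_022 t 1 1 1 = true := ex3_a s15_pp_022 k8_pp_022

theorem c_pp_022 : CertB 0 536870912 1073741824 536870912 1020054732 13421774 3 eng mog cd1q0 cd5q2 pd2 false true true .pp 0 2 2
    ndB1q0 ndB5q2 pcB2 cut_pp_022 Ext.none :=
  certB1 (fam := false) (s1 := true) (s2 := true) (a := 0) (b := 2) (c := 2) (cn := .pp) (n1 := ndB1q0) (n2 := ndB5q2) (pc := pcB2) (cut := cut_pp_022) (xt := Ext.none) (P1 := 0) (W1 := 536870912) (P2 := 1073741824) (W2 := 536870912) (P3 := 1020054732) (W3 := 13421774) (N0 := 3) (En := eng) (mo := mog) (C1 := cd1q0) (C2 := cd5q2) (C3 := pd2)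
    rfl (fun _ => rfl) s16_pp_022

noncomputable def f_pp_023 : ℕ → ℕ → ℕ → ℕ → Bool := onCell 1073741824 536870912 0 1230186008 1020054732 13421774
    (rowB 3 eng mog cd1q0 cd5q3 pd2 2 false true true .up 0 2 3 (qsf 0 536870912 0 1230186008 2) ndB1q0 ndB5q3 pcB2 Cut.none Ext.none)

def k0_pp_023 : ∃ t, chk3 f_pp_023 t 1 1 1 = true :=
  ⟨(b (a (l 2) (a (l 2) (a (b (l 2) (b (l 15687360) (b (l 16016736) (l 16158784)))) (b (b (b (a (l 2) (l 14758016)) (l 14739416)) (l 15075704)) (b (l 15529824) (b (l 15858352) (l 16046024))))))) (b (a (a (l 2) (a (l 2) (b (l 2) (b (l 2) (l 16649256))))) (a (b (a (l 2) (b (l 16370480) (l 16443608))) (b (a (l 16586912) (l 16482912)) (a (l 16614384) (l 16482248)))) (b (a (b (l 16270840) (l 16325264)) (b (l 16141048) (l 16178056))) (a (b (l 16345432) (l 16316512)) (b (l 16175392) (l 16119040)))))) (a (a (l 3) (a (a (a (l 3) (b (b (l 2) (a (l 3) (a (l 3) (l 16647840)))) (a (b (l 3) (l 16654104)) (b (a (l 3) (l 16648928)) (a (l 16654232)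 (b (l 16653064) (l 16659984))))))) (b (b (l 16660720) (l 16658144)) (b (l 16653680) (b (l 16652560) (l 16656808))))) (b (b (l 16679616) (l 16672400)) (b (l 16651464) (b (l 16619744) (l 16574960)))))) (b (a (b (a (l 16609064) (l 16443560)) (a (l 16558040) (l 16360032))) (b (l 16134784) (b (l 16039112) (l 15966680)))) (b (a (a (l 16475696) (l 16246720)) (l 15706328)) (a (a (b (l 16398368) (l 16316424)) (l 15859992)) (a (b (l 15875984) (l 15784712)) (b (l 15582848) (l 15472024))))))))), by decide +kernel⟩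

theorem c_pp_023 : CertB 0 536870912 0 1230186008 1020054732 13421774 3 eng mog cd1q0 cd5q3 pd2 false true true .up 0 2 3
    ndB1q0 ndB5q3 pcB2 Cut.none Ext.none :=
  certB2 (fam := false) (s1 := true) (s2 := true) (a := 0) (b := 2) (c := 3) (cn := .up) (n1 := ndB1q0) (n2 := ndB5q3) (pc := pcB2) (cut := Cut.none) (xt := Ext.none) (P1 := 0) (W1 := 536870912) (P2 := 0) (W2 := 1230186008) (P3 := 1020054732) (W3 := 13421774) (N0 := 3) (En := eng) (mo := mog) (C1 := cd1q0) (C2 := cd5q3) (C3 := pd2)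
    rfl (fun _ => rfl) k0_pp_023

noncomputable def f_pp_033 : ℕ → ℕ → ℕ → ℕ → Bool := onCell 1610612736 536870912 0 1230186008 1020054732 13421774
    (rowB 3 eng mog cd1q0 cd5q3 pd3 2 false true true .pnn 0 3 3 (qsf 0 536870912 0 1230186008 3) ndB1q0 ndB5q3 pcB3 Cut.none Ext.none)

def k0_pp_033 : ∃ t, chk3 f_pp_033 t 1 2 1 = true :=
  ⟨(b (a (a (b (a (b (l 16492048) (l 16503456)) (l 16406600)) (a (b (l 16495400) (l 16484672)) (b (l 16371960) (l 16348336)))) (b (a (l 16318880) (l 16192640)) (a (b (l 16238152) (l 16210136)) (l 16087072)))) (a (b (l 4) (a (l 15969504) (l 4))) (l 4))) (a (a (b (a (l 16458968) (l 16298576)) (a (l 16394152) (l 16195488))) (b (a (b (l 16165400) (l 16099096)) (b (l 15998192) (l 15915568))) (a (l 15977696) (l 15744896)))) (b (a (a (a (l 15811504) (l 15721496)) (a (l 15615200) (l 15518480))) (a (a (l 15420544) (l 4)) (l 4))) (a (a (a (l 15561160) (b (l 15519816) (l 15353016))) (a (b (l 15394832) (l 15209688)) (b (l 15257504) (l 15054208))))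 (b (a (a (l 15114184) (l 14976256)) (l 4)) (a (a (l 14722512) (l 14598408)) (l 1))))))), by decide +kernel⟩

def k1_pp_033 : ∃ t, chk3 f_pp_033 t 1 3 1 = true :=
  ⟨(b (a (a (b (b (a (b (l 16312504) (l 16240816)) (b (l 16097536) (l 16039192))) (a (l 16015960) (a (l 15962960) (l 15857256)))) (b (a (l 15726808) (l 15618256)) (a (b (l 15865800) (l 15850752)) (b (l 15662128) (l 15622400))))) (b (b (a (l 15817984) (l 15544520)) (a (a (l 15735160) (l 15600224)) (a (l 15456296) (l 15305896)))) (a (b (a (l 15570176) (l 15439760)) (b (l 15432112) (l 15385416))) (b (a (l 15297408) (l 15079632)) (b (l 15160968) (a (l 15197912) (l 15060752))))))) (b (a (a (b (l 15252248) (l 15070880)) (b (l 14932920) (l 14728248))) (a (a (a (l 14627936) (l 1)) (l 1)) (l 1))) (a (a (b (a (b (l 15014296) (l 14953624)) (b (l 14850256) (l 14780560))) (b (l 14835112) (a (l 14893736) (l 1)))) (b (b (l 14618512) (l 1)) (l 1))) (l 1)))) (a (b (a (b (a (b (l 15800056) (l 15703368)) (b (l 15541848)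 (l 15409848))) (b (a (l 15338480) (a (l 15328232) (l 15165000))) (a (l 15490984) (l 15183856)))) (b (a (b (l 15271224) (l 14950168)) (a (l 14958664) (b (l 14902760) (l 1)))) (a (b (a (l 15001840) (l 14847064)) (l 14895936)) (l 1)))) (a (a (b (b (l 15453608) (l 15366848)) (b (a (b (l 15523360) (l 15465536)) (b (l 15376344) (l 15260120))) (a (l 155186017751) (l 14781920)))) (b (b (l 15172384) (a (l 15164752) (l 5935146791))) (b (a (b (l 15179696) (l 1)) (l 1)) (l 1)))) (b (a (b (a (l 14966224) (l 1)) (l 1)) (l 1)) (l 1)))) (l 1))), by decide +kernel⟩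

theorem s2_pp_033 : ∃ t, chk3 f_pp_033 t 1 1 1 = true := ex3_b k0_pp_033 k1_pp_033

theorem c_pp_033 : CertB 0 536870912 0 1230186008 1020054732 13421774 3 eng mog cd1q0 cd5q3 pd3 false true true .pnn 0 3 3
    ndB1q0 ndB5q3 pcB3 Cut.none Ext.none :=
  certB2 (fam := false) (s1 := true) (s2 := true) (a := 0) (b := 3) (c := 3) (cn := .pnn) (n1 := ndB1q0) (n2 := ndB5q3) (pc := pcB3) (cut := Cut.none) (xt := Ext.none) (P1 := 0) (W1 := 536870912) (P2 := 0) (W2 := 1230186008) (P3 := 1020054732) (W3 := 13421774) (N0 := 3) (En := eng) (mo := mog) (C1 := cd1q0) (C2 := cd5q3) (C3 := pd3)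
    rfl (fun _ => rfl) s2_pp_033

noncomputable def f_pp_101 : ℕ → ℕ → ℕ → ℕ → Bool := onCell 536870912 536870912 0 536870912 1020054732 13421774
    (rowB 3 eng mog cd1q1 cd5q1 pd0 1 false true true .npn 1 0 1 (qsf 536870912 536870912 536870912 536870912 0) ndB1q1 ndB5q1 pcB0 Cut.none Ext.none)

def k0_pp_101 : ∃ t, chk3 f_pp_101 t 1 1 1 = true :=
  ⟨(l 3), by decide +kernel⟩

theorem c_pp_101 : CertB 536870912 536870912 536870912 536870912 1020054732 13421774 3 eng mog cd1q1 cd5q1 pd0 false true true .npn 1 0 1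
    ndB1q1 ndB5q1 pcB0 Cut.none Ext.none :=
  certB1 (fam := false) (s1 := true) (s2 := true) (a := 1) (b := 0) (c := 1) (cn := .npn) (n1 := ndB1q1) (n2 := ndB5q1) (pc := pcB0) (cut := Cut.none) (xt := Ext.none) (P1 := 536870912) (W1 := 536870912) (P2 := 536870912) (W2 := 536870912) (P3 := 1020054732) (W3 := 13421774) (N0 := 3) (En := eng) (mo := mog) (C1 := cd1q1) (C2 := cd5q1) (C3 := pd0)
    rfl (fun _ => rfl) k0_pp_101

noncomputable def f_pp_102 : ℕ → ℕ → ℕ → ℕ → Bool := onCell 536870912 536870912 1073741824 536870912 1020054732 13421774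
    (rowB 3 eng mog cd1q1 cd5q2 pd0 0 false true true .npp 1 0 2 (qsf 536870912 536870912 1073741824 536870912 0) ndB1q1 ndB5q2 pcB0 Cut.none Ext.none)

def k0_pp_102 : ∃ t, chk3 f_pp_102 t 1 1 1 = true :=
  ⟨(l 3), by decide +kernel⟩

theorem c_pp_102 : CertB 536870912 536870912 1073741824 536870912 1020054732 13421774 3 eng mog cd1q1 cd5q2 pd0 false true true .npp 1 0 2
    ndB1q1 ndB5q2 pcB0 Cut.none Ext.none :=
  certB0 (fam := false) (s1 := true) (s2 := true) (a := 1) (b := 0) (c := 2) (cn := .npp) (n1 := ndB1q1) (n2 := ndB5q2) (pc := pcB0) (cut := Cut.none) (xt := Ext.none) (P1 := 536870912) (W1 := 536870912) (P2 := 1073741824) (W2 := 536870912) (P3 := 1020054732) (W3 := 13421774) (N0 := 3) (En := eng) (mo := mog) (C1 := cd1q1) (C2 := cd5q2) (C3 := pd0)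
    rfl k0_pp_102

noncomputable def f_pp_112 : ℕ → ℕ → ℕ → ℕ → Bool := onCell 536870912 536870912 1073741824 536870912 1020054732 13421774
    (rowB 3 eng mog cd1q1 cd5q2 pd1 0 false true true .dn 1 1 2 (qsf 536870912 536870912 1073741824 536870912 1) ndB1q1 ndB5q2 pcB1 Cut.none Ext.none)

def k0_pp_112 : ∃ t, chk3 f_pp_112 t 1 1 1 = true :=
  ⟨(l 3), by decide +kernel⟩

theorem c_pp_112 : CertB 536870912 536870912 1073741824 536870912 1020054732 13421774 3 eng mog cd1q1 cd5q2 pd1 false true true .dn 1 1 2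
    ndB1q1 ndB5q2 pcB1 Cut.none Ext.none :=
  certB0 (fam := false) (s1 := true) (s2 := true) (a := 1) (b := 1) (c := 2) (cn := .dn) (n1 := ndB1q1) (n2 := ndB5q2) (pc := pcB1) (cut := Cut.none) (xt := Ext.none) (P1 := 536870912) (W1 := 536870912) (P2 := 1073741824) (W2 := 536870912) (P3 := 1020054732) (W3 := 13421774) (N0 := 3) (En := eng) (mo := mog) (C1 := cd1q1) (C2 := cd5q2) (C3 := pd1)
    rfl k0_pp_112

noncomputable def f_pp_113 : ℕ → ℕ → ℕ → ℕ → Bool := onCell 536870912 536870912 0 1230186008 1020054732 13421774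
    (rowB 3 eng mog cd1q1 cd5q3 pd1 2 false true true .nn 1 1 3 (qsf 536870912 536870912 0 1230186008 1) ndB1q1 ndB5q3 pcB1 Cut.none Ext.none)

def k0_pp_113 : ∃ t, chk3 f_pp_113 t 1 1 1 = true :=
  ⟨(b (a (l 2) (a (l 2) (b (a (l 2) (a (l 2) (b (a (l 2) (b (l 16686256) (l 16620064))) (a (b (l 2) (l 3)) (b (b (l 16550184) (l 16498400)) (l 400672494471)))))) (l 3)))) (b (a (l 3) (l 3)) (a (a (b (l 2) (l 3)) (l 3)) (l 3)))), by decide +kernel⟩

theorem c_pp_113 : CertB 536870912 536870912 0 1230186008 1020054732 13421774 3 eng mog cd1q1 cd5q3 pd1 false true true .nn 1 1 3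
    ndB1q1 ndB5q3 pcB1 Cut.none Ext.none :=
  certB2 (fam := false) (s1 := true) (s2 := true) (a := 1) (b := 1) (c := 3) (cn := .nn) (n1 := ndB1q1) (n2 := ndB5q3) (pc := pcB1) (cut := Cut.none) (xt := Ext.none) (P1 := 536870912) (W1 := 536870912) (P2 := 0) (W2 := 1230186008) (P3 := 1020054732) (W3 := 13421774) (N0 := 3) (En := eng) (mo := mog) (C1 := cd1q1) (C2 := cd5q3) (C3 := pd1)
    rfl (fun _ => rfl) k0_pp_113

noncomputable def f_pp_123 : ℕ → ℕ → ℕ → ℕ → Bool := onCell 1073741824 536870912 0 1230186008 1020054732 13421774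
    (rowB 3 eng mog cd1q1 cd5q3 pd2 2 false true true .npn 1 2 3 (qsf 536870912 536870912 0 1230186008 2) ndB1q1 ndB5q3 pcB2 Cut.none Ext.none)

def k0_pp_123 : ∃ t, chk3 f_pp_123 t 4 2 1 = true :=
  ⟨(a (b (b (a (b (l 16661928) (l 16627600)) (l 16736344)) (b (a (a (b (l 16579600) (a (l 16577256) (l 16589984))) (b (l 16635256) (l 16622008))) (b (l 16732240) (l 16694392))) (a (a (a (b (l 16578280) (l 3)) (b (l 16585872) (l 16528584))) (b (l 16504264) (c (l 341617095959) (a (l 16577008) (l 16556136))))) (a (a (b (l 16647128) (l 16573680)) (l 16619120)) (l 16639752))))) (a (a (l 3) (b (b (c (l 423758247431) (l 422684492679)) (l 3)) (l 3))) (b (b (b (a (a (b (l 16552704) (l 16518712)) (l 16477096)) (a (l 16515352) (l 16576240))) (a (c (l 417852743655) (a (l 417315876311) (l 16467296))) (a (b (l 16519768) (a (l 16494168) (l 16506008))) (b (l 16540760) (l 16521136))))) (a (l 447380663399) (b (a (c (l 16488600) (a (l 414094630823) (l 16458792))) (b (l 16507656) (l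 16493904))) (a (l 16435448) (a (l 16461968) (l 16479136)))))) (b (l 3) (l 3))))) (b (b (a (l 16549968) (l 16348712)) (b (l 16539000) (a (a (l 16667472) (l 16668120)) (a (l 16613848) (l 16533496))))) (a (b (a (b (a (b (l 16595992) (l 16552240)) (l 16589712)) (b (a (b (l 16526056) (l 16517712)) (l 16538024)) (a (b (l 16509632) (l 16497912)) (l 16526184)))) (b (l 16607760) (b (l 16562464) (a (l 16536368) (l 16544768))))) (a (b (a (l 16466096) (b (l 16511528) (l 16492480))) (l 3)) (a (b (b (l 16536632) (l 16524600)) (l 16502856)) (b (b (l 16545336) (l 16549560)) (b (l 16540616) (l 16529696)))))) (b (b (a (l 16610272) (l 16583768)) (a (b (l 16577384) (l 16557704)) (l 16564576))) (b (a (b (l 16547400) (l 16556440)) (a (l 16546944) (l 16545368))) (a (a (b (l 16564000) (l 16558848)) (b (l 16571120) (l 16579224))) (a (l 16574008) (l 16561640)))))))), by decide +kernel⟩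

def k1_pp_123 : ∃ t, chk3 f_pp_123 t 4 3 1 = true :=
  ⟨(a (l 3) (b (a (l 3) (b (b (a (l 16519832) (a (l 16527912) (l 16516200))) (a (l 3) (l 16479088))) (l 3))) (l 3))), by decide +kernel⟩

def k2_pp_123 : ∃ t, chk3 f_pp_123 t 10 1 1 = true :=
  ⟨(b (b (b (a (l 16139400) (l 15926712)) (a (b (l 16308808) (l 16413984)) (l 16012488))) (b (b (a (a (l 16484200) (a (l 16476336) (c (l 16196768) (l 16528952)))) (l 16311888)) (a (a (l 16542632) (a (l 16512104) (a (l 16492136) (l 16455672)))) (c (l 16327520) (l 16506000)))) (a (a (b (a (l 16539656) (l 16529344)) (a (l 16545688) (l 16534016))) (b (a (l 16516320) (c (l 16449872) (l 16534128))) (a (l 16523496) (a (l 16510608) (l 16499512))))) (c (l 16226704) (b (l 16513712) (l 16508376)))))) (a (a (b (a (b (b (l 16551056) (l 16453776)) (b (l 16469648) (l 3))) (b (b (l 16570008) (c (l 16606168) (l 16614064))) (b (l 16477504) (l 360407355319)))) (l 3)) (b (b (a (b (l 16513408) (l 16405376)) (b (a (l 16527736) (a (l 16519536)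 (l 16494088))) (c (l 16314952) (a (l 16560424) (l 16512768))))) (a (b (c (l 16478208) (l 16637160)) (l 232632016231)) (b (a (l 16382064) (c (l 16487400) (l 16586448))) (a (c (l 16474648) (l 16663432)) (c (b (l 16466848) (l 16449160)) (b (l 16612688) (l 16555584))))))) (b (a (b (b (l 16391984) (l 3)) (l 3)) (b (a (l 415704831271) (b (a (l 16411768) (l 16384656)) (l 16436720))) (a (l 3) (b (l 16405800) (l 16402368))))) (l 1)))) (b (b (b (c (l 16447200) (l 16509224)) (c (l 16446952) (l 16529224))) (b (c (l 16426584) (l 16573064)) (c (l 16401128) (l 16608264)))) (b (b (c (b (l 16383424) (l 16370688)) (l 16488656)) (c (l 16233464) (l 16505048))) (l 1))))), by decide +kernel⟩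

def k3_pp_123 : ∃ t, chk3 f_pp_123 t 11 1 1 = true :=
  ⟨(b (b (b (l 15396400) (a (l 15934432) (l 15815576))) (b (c (b (l 16002624) (l 15917664)) (b (l 16195720) (l 16181080))) (c (b (l 16180464) (l 16236256)) (b (l 16401608) (l 16431616))))) (b (a (b (b (l 16312112) (l 16246736)) (b (l 16272872) (c (l 16318704) (l 16561768)))) (b (b (l 16279816) (l 16203288)) (b (l 16278768) (l 16203336)))) (b (b (c (a (l 16264712) (l 16248248)) (c (l 16476720) (l 16611768))) (l 1)) (l 1)))), by decide +kernel⟩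

def k4_pp_123 : ∃ t, chk3 f_pp_123 t 3 1 1 = true :=
  ⟨(b (b (a (b (a (l 15193552) (l 14820632)) (a (a (l 15637872) (l 15466864)) (a (l 15304944) (l 15154336)))) (b (a (b (l 14416496) (l 14626424)) (b (a (l 14319472) (l 14426392)) (l 14413376))) (a (l 14766208) (l 14744136)))) (a (b (a (b (l 15660288) (a (l 15950960) (l 15898320))) (b (l 15519392) (l 15497464))) (a (c (b (l 15843488) (l 16010896)) (b (l 16156592) (l 16268920))) (b (a (l 15758392) (l 15746232)) (c (l 15822224) (l 16132920))))) (b (a (b (l 15272288) (l 15484264)) (b (l 15079992) (l 15311048))) (a (b (c (l 15511592) (l 15865680)) (c (l 15673760) (l 16019040))) (b (l 15475264) (l 1)))))) (b (a (b (a (b (c (l 16077184) (l 16306168)) (c (l 16130272) (l 16341264))) (c (b (l 15913352) (l 15992312)) (b (l 16182920) (l 16230672)))) (a (b (c (l 16149496) (l 16376440)) (c (l 16159960) (l 16413872))) (b (c (l 16047168) (l 16280136)) (l 1)))) (b (a (b (c (l 15796104) (l 16096104)) (l 1)) (l 1)) (l 1)))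 (l 1))), by decide +kernel⟩

theorem s5_pp_123 : ∃ t, chk3 f_pp_123 t 5 1 1 = true := ex3_a k2_pp_123 k3_pp_123

theorem s6_pp_123 : ∃ t, chk3 f_pp_123 t 4 1 1 = true := ex3_b k0_pp_123 k1_pp_123

theorem s7_pp_123 : ∃ t, chk3 f_pp_123 t 2 1 1 = true := ex3_a s6_pp_123 s5_pp_123

theorem s8_pp_123 : ∃ t, chk3 f_pp_123 t 1 1 1 = true := ex3_a s7_pp_123 k4_pp_123

theorem c_pp_123 : CertB 536870912 536870912 0 1230186008 1020054732 13421774 3 eng mog cd1q1 cd5q3 pd2 false true true .npn 1 2 3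
    ndB1q1 ndB5q3 pcB2 Cut.none Ext.none :=
  certB2 (fam := false) (s1 := true) (s2 := true) (a := 1) (b := 2) (c := 3) (cn := .npn) (n1 := ndB1q1) (n2 := ndB5q3) (pc := pcB2) (cut := Cut.none) (xt := Ext.none) (P1 := 536870912) (W1 := 536870912) (P2 := 0) (W2 := 1230186008) (P3 := 1020054732) (W3 := 13421774) (N0 := 3) (En := eng) (mo := mog) (C1 := cd1q1) (C2 := cd5q3) (C3 := pd2)
    rfl (fun _ => rfl) s8_pp_123

noncomputable def f_pp_133 : ℕ → ℕ → ℕ → ℕ → Bool := onCell 536870912 536870912 0 1230186008 1020054732 13421774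
    (rowB 3 eng mog cd1q1 cd5q3 pd3 0 false true true .dn 1 3 3 (qsf 536870912 536870912 0 1230186008 3) ndB1q1 ndB5q3 pcB3 Cut.none Ext.none)

def k0_pp_133 : ∃ t, chk3 f_pp_133 t 1 1 1 = true :=
  ⟨(b (b (a (a (b (a (l 4907569119863) (l 1)) (l 1)) (l 1)) (l 1)) (l 1)) (l 1)), by decide +kernel⟩

theorem c_pp_133 : CertB 536870912 536870912 0 1230186008 1020054732 13421774 3 eng mog cd1q1 cd5q3 pd3 false true true .dn 1 3 3
    ndB1q1 ndB5q3 pcB3 Cut.none Ext.none :=
  certB0 (fam := false) (s1 := true) (s2 := true) (a := 1) (b := 3) (c := 3) (cn := .dn) (n1 := ndB1q1) (n2 := ndB5q3) (pc := pcB3) (cut := Cut.none) (xt := Ext.none) (P1 := 536870912) (W1 := 536870912) (P2 := 0) (W2 := 1230186008) (P3 := 1020054732) (W3 := 13421774) (N0 := 3) (En := eng) (mo := mog) (C1 := cd1q1) (C2 := cd5q3) (C3 := pd3)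
    rfl k0_pp_133

noncomputable def f_pp_202_a : ℕ → ℕ → ℕ → ℕ → Bool := onCell 0 536870912 1073741824 536870912 1020054732 13421774
    (rowB 3 eng mog cd1q2a cd5q2 pd0 0 false true true .pp 2 0 2 (qsf 0 536870912 1073741824 536870912 0) ndB1q2a ndB5q2 pcB0 Cut.none Ext.none)

def k0_pp_202_a : ∃ t, chk3 f_pp_202_a t 1 1 1 = true :=
  ⟨(l 5), by decide +kernel⟩

theorem c_pp_202_a : CertB 0 536870912 1073741824 536870912 1020054732 13421774 3 eng mog cd1q2a cd5q2 pd0 false true true .pp 2 0 2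
    ndB1q2a ndB5q2 pcB0 Cut.none Ext.none :=
  certB0 (fam := false) (s1 := true) (s2 := true) (a := 2) (b := 0) (c := 2) (cn := .pp) (n1 := ndB1q2a) (n2 := ndB5q2) (pc := pcB0) (cut := Cut.none) (xt := Ext.none) (P1 := 0) (W1 := 536870912) (P2 := 1073741824) (W2 := 536870912) (P3 := 1020054732) (W3 := 13421774) (N0 := 3) (En := eng) (mo := mog) (C1 := cd1q2a) (C2 := cd5q2) (C3 := pd0)
    rfl k0_pp_202_a

noncomputable def f_pp_202_b : ℕ → ℕ → ℕ → ℕ → Bool := onCell 1239849684 370763052 1073741824 536870912 1020054732 13421774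
    (rowB 3 eng mog cd1q2b cd5q2 pd0 0 false true true .pp 2 0 2 (qsf 1239849684 370763052 1073741824 536870912 0) ndB1q2b ndB5q2 pcB0 Cut.none Ext.none)

def k0_pp_202_b : ∃ t, chk3 f_pp_202_b t 1 1 1 = true :=
  ⟨(l 5), by decide +kernel⟩

theorem c_pp_202_b : CertB 1239849684 370763052 1073741824 536870912 1020054732 13421774 3 eng mog cd1q2b cd5q2 pd0 false true true .pp 2 0 2
    ndB1q2b ndB5q2 pcB0 Cut.none Ext.none :=
  certB0 (fam := false) (s1 := true) (s2 := true) (a := 2) (b := 0) (c := 2) (cn := .pp) (n1 := ndB1q2b) (n2 := ndB5q2) (pc := pcB0) (cut := Cut.none) (xt := Ext.none) (P1 := 1239849684) (W1 := 370763052) (P2 := 1073741824) (W2 := 536870912) (P3 := 1020054732) (W3 := 13421774) (N0 := 3) (En := eng) (mo := mog) (C1 := cd1q2b) (C2 := cd5q2) (C3 := pd0)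
    rfl k0_pp_202_b

noncomputable def f_pp_203_a : ℕ → ℕ → ℕ → ℕ → Bool := onCell 0 536870912 0 1230186008 1020054732 13421774
    (rowB 3 eng mog cd1q2a cd5q3 pd0 0 false true true .up 2 0 3 (qsf 0 536870912 0 1230186008 0) ndB1q2a ndB5q3 pcB0 Cut.none Ext.none)

def k0_pp_203_a : ∃ t, chk3 f_pp_203_a t 1 1 1 = true :=
  ⟨(b (l 2) (a (l 5) (l 3))), by decide +kernel⟩

theorem c_pp_203_a : CertB 0 536870912 0 1230186008 1020054732 13421774 3 eng mog cd1q2a cd5q3 pd0 false true true .up 2 0 3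
    ndB1q2a ndB5q3 pcB0 Cut.none Ext.none :=
  certB0 (fam := false) (s1 := true) (s2 := true) (a := 2) (b := 0) (c := 3) (cn := .up) (n1 := ndB1q2a) (n2 := ndB5q3) (pc := pcB0) (cut := Cut.none) (xt := Ext.none) (P1 := 0) (W1 := 536870912) (P2 := 0) (W2 := 1230186008) (P3 := 1020054732) (W3 := 13421774) (N0 := 3) (En := eng) (mo := mog) (C1 := cd1q2a) (C2 := cd5q3) (C3 := pd0)
    rfl k0_pp_203_a

noncomputable def f_pp_203_b : ℕ → ℕ → ℕ → ℕ → Bool := onCell 1239849684 370763052 0 1230186008 1020054732 13421774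
    (rowB 3 eng mog cd1q2b cd5q3 pd0 0 false true true .up 2 0 3 (qsf 1239849684 370763052 0 1230186008 0) ndB1q2b ndB5q3 pcB0 Cut.none Ext.none)

def k0_pp_203_b : ∃ t, chk3 f_pp_203_b t 1 1 1 = true :=
  ⟨(b (l 3) (l 5)), by decide +kernel⟩

theorem c_pp_203_b : CertB 1239849684 370763052 0 1230186008 1020054732 13421774 3 eng mog cd1q2b cd5q3 pd0 false true true .up 2 0 3
    ndB1q2b ndB5q3 pcB0 Cut.none Ext.none :=
  certB0 (fam := false) (s1 := true) (s2 := true) (a := 2) (b := 0) (c := 3) (cn := .up) (n1 := ndB1q2b) (n2 := ndB5q3) (pc := pcB0) (cut := Cut.none) (xt := Ext.none) (P1 := 1239849684) (W1 := 370763052) (P2 := 0) (W2 := 1230186008) (P3 := 1020054732) (W3 := 13421774) (N0 := 3) (En := eng) (mo := mog) (C1 := cd1q2b) (C2 := cd5q3) (C3 := pd0)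
    rfl k0_pp_203_b

noncomputable def cut_pp_213_a : Cut := Cut.of [[⟨0, 1, 0, 26738688⟩, ⟨1, 1, 0, 26738688⟩, ⟨2, 2, 0, 2621440⟩]]

noncomputable def f_pp_213_a : ℕ → ℕ → ℕ → ℕ → Bool := onCell 0 536870912 0 1230186008 1020054732 13421774
    (rowB 3 eng mog cd1q2a cd5q3 pd1 0 false true true .pnn 2 1 3 (qsf 0 536870912 0 1230186008 1) ndB1q2a ndB5q3 pcB1 cut_pp_213_a Ext.none)

def k0_pp_213_a : ∃ t, chk3 f_pp_213_a t 1 1 1 = true :=
  ⟨(a (b (l 3) (l 5)) (b (b (a (l 3) (a (l 3) (b (a (l 3) (b (l 6) (l 3))) (l 3)))) (l 3)) (l 3))), by decide +kernel⟩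

theorem c_pp_213_a : CertB 0 536870912 0 1230186008 1020054732 13421774 3 eng mog cd1q2a cd5q3 pd1 false true true .pnn 2 1 3
    ndB1q2a ndB5q3 pcB1 cut_pp_213_a Ext.none :=
  certB0 (fam := false) (s1 := true) (s2 := true) (a := 2) (b := 1) (c := 3) (cn := .pnn) (n1 := ndB1q2a) (n2 := ndB5q3) (pc := pcB1) (cut := cut_pp_213_a) (xt := Ext.none) (P1 := 0) (W1 := 536870912) (P2 := 0) (W2 := 1230186008) (P3 := 1020054732) (W3 := 13421774) (N0 := 3) (En := eng) (mo := mog) (C1 := cd1q2a) (C2 := cd5q3) (C3 := pd1)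
    rfl k0_pp_213_a

noncomputable def cut_pp_213_b : Cut := Cut.of [[⟨0, 1, 0, 26738688⟩, ⟨1, 1, 0, 26738688⟩, ⟨2, 2, 0, 2621440⟩]]

noncomputable def f_pp_213_b : ℕ → ℕ → ℕ → ℕ → Bool := onCell 1239849684 370763052 0 1230186008 1020054732 13421774
    (rowB 3 eng mog cd1q2b cd5q3 pd1 0 false true true .pnn 2 1 3 (qsf 1239849684 370763052 0 1230186008 1) ndB1q2b ndB5q3 pcB1 cut_pp_213_b Ext.none)

def k0_pp_213_b : ∃ t, chk3 f_pp_213_b t 1 1 1 = true :=
  ⟨(b (l 3) (l 5)), by decide +kernel⟩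

theorem c_pp_213_b : CertB 1239849684 370763052 0 1230186008 1020054732 13421774 3 eng mog cd1q2b cd5q3 pd1 false true true .pnn 2 1 3
    ndB1q2b ndB5q3 pcB1 cut_pp_213_b Ext.none :=
  certB0 (fam := false) (s1 := true) (s2 := true) (a := 2) (b := 1) (c := 3) (cn := .pnn) (n1 := ndB1q2b) (n2 := ndB5q3) (pc := pcB1) (cut := cut_pp_213_b) (xt := Ext.none) (P1 := 1239849684) (W1 := 370763052) (P2 := 0) (W2 := 1230186008) (P3 := 1020054732) (W3 := 13421774) (N0 := 3) (En := eng) (mo := mog) (C1 := cd1q2b) (C2 := cd5q3) (C3 := pd1)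
    rfl k0_pp_213_b

noncomputable def f_pp_303 : ℕ → ℕ → ℕ → ℕ → Bool := onCell 1610612736 536870912 0 1230186008 1020054732 13421774
    (rowB 3 eng mog cd1q3 cd5q3 pd0 0 false true true .npn 3 0 3 (qsf 1610612736 536870912 0 1230186008 0) ndB1q3 ndB5q3 pcB0 Cut.none Ext.none)

def k0_pp_303 : ∃ t, chk3 f_pp_303 t 1 1 1 = true :=
  ⟨(b (l 3) (l 5)), by decide +kernel⟩

theorem c_pp_303 : CertB 1610612736 536870912 0 1230186008 1020054732 13421774 3 eng mog cd1q3 cd5q3 pd0 false true true .npn 3 0 3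
    ndB1q3 ndB5q3 pcB0 Cut.none Ext.none :=
  certB0 (fam := false) (s1 := true) (s2 := true) (a := 3) (b := 0) (c := 3) (cn := .npn) (n1 := ndB1q3) (n2 := ndB5q3) (pc := pcB0) (cut := Cut.none) (xt := Ext.none) (P1 := 1610612736) (W1 := 536870912) (P2 := 0) (W2 := 1230186008) (P3 := 1020054732) (W3 := 13421774) (N0 := 3) (En := eng) (mo := mog) (C1 := cd1q3) (C2 := cd5q3) (C3 := pd0)
    rfl k0_pp_303

noncomputable def f_pp_313 : ℕ → ℕ → ℕ → ℕ → Bool := onCell 1610612736 536870912 0 1230186008 1020054732 13421774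
    (rowB 3 eng mog cd1q3 cd5q3 pd1 0 false true true .dn 3 1 3 (qsf 1610612736 536870912 0 1230186008 1) ndB1q3 ndB5q3 pcB1 Cut.none Ext.none)

def k0_pp_313 : ∃ t, chk3 f_pp_313 t 1 1 1 = true :=
  ⟨(b (l 3) (l 1)), by decide +kernel⟩

theorem c_pp_313 : CertB 1610612736 536870912 0 1230186008 1020054732 13421774 3 eng mog cd1q3 cd5q3 pd1 false true true .dn 3 1 3
    ndB1q3 ndB5q3 pcB1 Cut.none Ext.none :=
  certB0 (fam := false) (s1 := true) (s2 := true) (a := 3) (b := 1) (c := 3) (cn := .dn) (n1 := ndB1q3) (n2 := ndB5q3) (pc := pcB1) (cut := Cut.none) (xt := Ext.none) (P1 := 1610612736) (W1 := 536870912) (P2 := 0) (W2 := 1230186008) (P3 := 1020054732) (W3 := 13421774) (N0 := 3) (En := eng) (mo := mog) (C1 := cd1q3) (C2 := cd5q3) (C3 := pd1)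
    rfl k0_pp_313

noncomputable def f_pm_001 : ℕ → ℕ → ℕ → ℕ → Bool := onCell 0 536870912 536870912 536870912 1020054732 13421774
    (rowB 3 eng mog cd1q0 cd5q1 pd0 0 false true false .up 0 0 1 (qsf 0 536870912 536870912 536870912 0) ndB1q0 ndB5q1 pcB0 Cut.none Ext.none)

def k0_pm_001 : ∃ t, chk3 f_pm_001 t 1 1 1 = true :=
  ⟨(l 4), by decide +kernel⟩

theorem c_pm_001 : CertB 0 536870912 536870912 536870912 1020054732 13421774 3 eng mog cd1q0 cd5q1 pd0 false true false .up 0 0 1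
    ndB1q0 ndB5q1 pcB0 Cut.none Ext.none :=
  certB0 (fam := false) (s1 := true) (s2 := false) (a := 0) (b := 0) (c := 1) (cn := .up) (n1 := ndB1q0) (n2 := ndB5q1) (pc := pcB0) (cut := Cut.none) (xt := Ext.none) (P1 := 0) (W1 := 536870912) (P2 := 536870912) (W2 := 536870912) (P3 := 1020054732) (W3 := 13421774) (N0 := 3) (En := eng) (mo := mog) (C1 := cd1q0) (C2 := cd5q1) (C3 := pd0)
    rfl k0_pm_001

noncomputable def f_pm_011 : ℕ → ℕ → ℕ → ℕ → Bool := onCell 0 536870912 536870912 536870912 1020054732 13421774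
    (rowB 3 eng mog cd1q0 cd5q1 pd1 0 false true false .pnn 0 1 1 (qsf 0 536870912 536870912 536870912 1) ndB1q0 ndB5q1 pcB1 Cut.none Ext.none)

def k0_pm_011 : ∃ t, chk3 f_pm_011 t 1 1 1 = true :=
  ⟨(l 4), by decide +kernel⟩

theorem c_pm_011 : CertB 0 536870912 536870912 536870912 1020054732 13421774 3 eng mog cd1q0 cd5q1 pd1 false true false .pnn 0 1 1
    ndB1q0 ndB5q1 pcB1 Cut.none Ext.none :=
  certB0 (fam := false) (s1 := true) (s2 := false) (a := 0) (b := 1) (c := 1) (cn := .pnn) (n1 := ndB1q0) (n2 := ndB5q1) (pc := pcB1) (cut := Cut.none) (xt := Ext.none) (P1 := 0) (W1 := 536870912) (P2 := 536870912) (W2 := 536870912) (P3 := 1020054732) (W3 := 13421774) (N0 := 3) (En := eng) (mo := mog) (C1 := cd1q0) (C2 := cd5q1) (C3 := pd1)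
    rfl k0_pm_011

noncomputable def f_pm_012 : ℕ → ℕ → ℕ → ℕ → Bool := onCell 0 536870912 1073741824 536870912 1020054732 13421774
    (rowB 3 eng mog cd1q0 cd5q2 pd1 0 false true false .pnp 0 1 2 (qsf 0 536870912 1073741824 536870912 1) ndB1q0 ndB5q2 pcB1 Cut.none Ext.none)

def k0_pm_012 : ∃ t, chk3 f_pm_012 t 1 1 1 = true :=
  ⟨(l 4), by decide +kernel⟩

theorem c_pm_012 : CertB 0 536870912 1073741824 536870912 1020054732 13421774 3 eng mog cd1q0 cd5q2 pd1 false true false .pnp 0 1 2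
    ndB1q0 ndB5q2 pcB1 Cut.none Ext.none :=
  certB0 (fam := false) (s1 := true) (s2 := false) (a := 0) (b := 1) (c := 2) (cn := .pnp) (n1 := ndB1q0) (n2 := ndB5q2) (pc := pcB1) (cut := Cut.none) (xt := Ext.none) (P1 := 0) (W1 := 536870912) (P2 := 1073741824) (W2 := 536870912) (P3 := 1020054732) (W3 := 13421774) (N0 := 3) (En := eng) (mo := mog) (C1 := cd1q0) (C2 := cd5q2) (C3 := pd1)
    rfl k0_pm_012

noncomputable def f_pm_022 : ℕ → ℕ → ℕ → ℕ → Bool := onCell 0 536870912 1073741824 536870912 1020054732 13421774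
    (rowB 3 eng mog cd1q0 cd5q2 pd2 0 false true false .pp 0 2 2 (qsf 0 536870912 1073741824 536870912 2) ndB1q0 ndB5q2 pcB2 Cut.none Ext.none)

def k0_pm_022 : ∃ t, chk3 f_pm_022 t 1 1 1 = true :=
  ⟨(l 4), by decide +kernel⟩

theorem c_pm_022 : CertB 0 536870912 1073741824 536870912 1020054732 13421774 3 eng mog cd1q0 cd5q2 pd2 false true false .pp 0 2 2
    ndB1q0 ndB5q2 pcB2 Cut.none Ext.none :=
  certB0 (fam := false) (s1 := true) (s2 := false) (a := 0) (b := 2) (c := 2) (cn := .pp) (n1 := ndB1q0) (n2 := ndB5q2) (pc := pcB2) (cut := Cut.none) (xt := Ext.none) (P1 := 0) (W1 := 536870912) (P2 := 1073741824) (W2 := 536870912) (P3 := 1020054732) (W3 := 13421774) (N0 := 3) (En := eng) (mo := mog) (C1 := cd1q0) (C2 := cd5q2) (C3 := pd2)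
    rfl k0_pm_022

noncomputable def f_pm_023 : ℕ → ℕ → ℕ → ℕ → Bool := onCell 0 536870912 0 1230186008 1020054732 13421774
    (rowB 3 eng mog cd1q0 cd5q3 pd2 0 false true false .up 0 2 3 (qsf 0 536870912 0 1230186008 2) ndB1q0 ndB5q3 pcB2 Cut.none Ext.none)

def k0_pm_023 : ∃ t, chk3 f_pm_023 t 1 1 1 = true :=
  ⟨(b (b (a (l 2) (a (l 2) (a (l 2) (a (l 2) (b (a (l 2) (l 15785680)) (l 16146704)))))) (l 4)) (l 4)), by decide +kernel⟩

theorem c_pm_023 : CertB 0 536870912 0 1230186008 1020054732 13421774 3 eng mog cd1q0 cd5q3 pd2 false true false .up 0 2 3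
    ndB1q0 ndB5q3 pcB2 Cut.none Ext.none :=
  certB0 (fam := false) (s1 := true) (s2 := false) (a := 0) (b := 2) (c := 3) (cn := .up) (n1 := ndB1q0) (n2 := ndB5q3) (pc := pcB2) (cut := Cut.none) (xt := Ext.none) (P1 := 0) (W1 := 536870912) (P2 := 0) (W2 := 1230186008) (P3 := 1020054732) (W3 := 13421774) (N0 := 3) (En := eng) (mo := mog) (C1 := cd1q0) (C2 := cd5q3) (C3 := pd2)
    rfl k0_pm_023

noncomputable def f_pm_033 : ℕ → ℕ → ℕ → ℕ → Bool := onCell 0 536870912 0 1230186008 1020054732 13421774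
    (rowB 3 eng mog cd1q0 cd5q3 pd3 0 false true false .pnn 0 3 3 (qsf 0 536870912 0 1230186008 3) ndB1q0 ndB5q3 pcB3 Cut.none Ext.none)

def k0_pm_033 : ∃ t, chk3 f_pm_033 t 1 1 1 = true :=
  ⟨(b (b (a (l 4) (a (b (l 4) (l 4)) (b (a (l 16361920) (l 16417152)) (a (l 4) (l 22783039735))))) (l 4)) (l 4)), by decide +kernel⟩

theorem c_pm_033 : CertB 0 536870912 0 1230186008 1020054732 13421774 3 eng mog cd1q0 cd5q3 pd3 false true false .pnn 0 3 3
    ndB1q0 ndB5q3 pcB3 Cut.none Ext.none :=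
  certB0 (fam := false) (s1 := true) (s2 := false) (a := 0) (b := 3) (c := 3) (cn := .pnn) (n1 := ndB1q0) (n2 := ndB5q3) (pc := pcB3) (cut := Cut.none) (xt := Ext.none) (P1 := 0) (W1 := 536870912) (P2 := 0) (W2 := 1230186008) (P3 := 1020054732) (W3 := 13421774) (N0 := 3) (En := eng) (mo := mog) (C1 := cd1q0) (C2 := cd5q3) (C3 := pd3)
    rfl k0_pm_033

noncomputable def f_pm_101 : ℕ → ℕ → ℕ → ℕ → Bool := onCell 536870912 536870912 536870912 536870912 1020054732 13421774
    (rowB 3 eng mog cd1q1 cd5q1 pd0 0 false true false .npn 1 0 1 (qsf 536870912 536870912 536870912 536870912 0) ndB1q1 ndB5q1 pcB0 Cut.none Ext.none)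

def k0_pm_101 : ∃ t, chk3 f_pm_101 t 1 1 1 = true :=
  ⟨(l 4), by decide +kernel⟩

theorem c_pm_101 : CertB 536870912 536870912 536870912 536870912 1020054732 13421774 3 eng mog cd1q1 cd5q1 pd0 false true false .npn 1 0 1
    ndB1q1 ndB5q1 pcB0 Cut.none Ext.none :=
  certB0 (fam := false) (s1 := true) (s2 := false) (a := 1) (b := 0) (c := 1) (cn := .npn) (n1 := ndB1q1) (n2 := ndB5q1) (pc := pcB0) (cut := Cut.none) (xt := Ext.none) (P1 := 536870912) (W1 := 536870912) (P2 := 536870912) (W2 := 536870912) (P3 := 1020054732) (W3 := 13421774) (N0 := 3) (En := eng) (mo := mog) (C1 := cd1q1) (C2 := cd5q1) (C3 := pd0)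
    rfl k0_pm_101

noncomputable def f_pm_102 : ℕ → ℕ → ℕ → ℕ → Bool := onCell 536870912 536870912 1073741824 536870912 1020054732 13421774
    (rowB 3 eng mog cd1q1 cd5q2 pd0 0 false true false .npp 1 0 2 (qsf 536870912 536870912 1073741824 536870912 0) ndB1q1 ndB5q2 pcB0 Cut.none Ext.none)

def k0_pm_102 : ∃ t, chk3 f_pm_102 t 1 1 1 = true :=
  ⟨(l 4), by decide +kernel⟩

theorem c_pm_102 : CertB 536870912 536870912 1073741824 536870912 1020054732 13421774 3 eng mog cd1q1 cd5q2 pd0 false true false .npp 1 0 2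
    ndB1q1 ndB5q2 pcB0 Cut.none Ext.none :=
  certB0 (fam := false) (s1 := true) (s2 := false) (a := 1) (b := 0) (c := 2) (cn := .npp) (n1 := ndB1q1) (n2 := ndB5q2) (pc := pcB0) (cut := Cut.none) (xt := Ext.none) (P1 := 536870912) (W1 := 536870912) (P2 := 1073741824) (W2 := 536870912) (P3 := 1020054732) (W3 := 13421774) (N0 := 3) (En := eng) (mo := mog) (C1 := cd1q1) (C2 := cd5q2) (C3 := pd0)
    rfl k0_pm_102

noncomputable def f_pm_112 : ℕ → ℕ → ℕ → ℕ → Bool := onCell 536870912 536870912 1073741824 536870912 1020054732 13421774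
    (rowB 3 eng mog cd1q1 cd5q2 pd1 0 false true false .dn 1 1 2 (qsf 536870912 536870912 1073741824 536870912 1) ndB1q1 ndB5q2 pcB1 Cut.none Ext.none)

def k0_pm_112 : ∃ t, chk3 f_pm_112 t 1 1 1 = true :=
  ⟨(l 4), by decide +kernel⟩

theorem c_pm_112 : CertB 536870912 536870912 1073741824 536870912 1020054732 13421774 3 eng mog cd1q1 cd5q2 pd1 false true false .dn 1 1 2
    ndB1q1 ndB5q2 pcB1 Cut.none Ext.none :=
  certB0 (fam := false) (s1 := true) (s2 := false) (a := 1) (b := 1) (c := 2) (cn := .dn) (n1 := ndB1q1) (n2 := ndB5q2) (pc := pcB1) (cut := Cut.none) (xt := Ext.none) (P1 := 536870912) (W1 := 536870912) (P2 := 1073741824) (W2 := 536870912) (P3 := 1020054732) (W3 := 13421774) (N0 := 3) (En := eng) (mo := mog) (C1 := cd1q1) (C2 := cd5q2) (C3 := pd1)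
    rfl k0_pm_112

noncomputable def f_pm_113 : ℕ → ℕ → ℕ → ℕ → Bool := onCell 536870912 536870912 0 1230186008 1020054732 13421774
    (rowB 3 eng mog cd1q1 cd5q3 pd1 0 false true false .nn 1 1 3 (qsf 536870912 536870912 0 1230186008 1) ndB1q1 ndB5q3 pcB1 Cut.none Ext.none)

def k0_pm_113 : ∃ t, chk3 f_pm_113 t 1 1 1 = true :=
  ⟨(b (a (l 2) (a (l 2) (a (b (l 2) (b (a (l 2) (b (l 2) (l 16679384))) (b (a (l 2) (l 15517544)) (a (l 14508464) (l 14931856))))) (a (b (l 2) (b (b (l 16095552) (l 16263784)) (b (l 15759632) (l 15231136)))) (b (b (a (l 2) (l 16601984)) (l 16055944)) (b (b (l 16149840) (a (l 16152168) (l 15965032))) (b (l 15674784) (l 15332280)))))))) (b (a (l 4) (a (b (a (l 2) (b (a (l 2) (l 13757480)) (a (a (l 4) (l 13430984)) (b (l 13628352) (l 13660088))))) (l 4)) (b (a (b (a (l 14179440) (l 14571640)) (a (b (l 13990928) (c (c (l 14083224) (l 13989888)) (l 13846560))) (b (l 14389240) (a (l 14235304) (l 14378640))))) (b (a (l 14866200) (l 15030736))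 (a (l 14617904) (l 14798560)))) (a (b (b (b (a (l 13909320) (a (l 14152176) (l 14308736))) (a (l 14133176) (c (l 14309576) (l 14040296)))) (a (l 13946864) (c (a (l 14166776) (b (l 14212400) (l 14176000))) (l 14061760)))) (l 14094688)) (b (a (a (b (b (l 14452240) (l 14405416)) (b (l 14305160) (l 14225304))) (b (b (l 14570976) (l 14531792)) (a (l 14387296) (l 14473664)))) (b (l 14683592) (a (l 14564856) (l 14654536)))) (b (a (a (l 14192232) (l 14279312)) (a (l 14413240) (l 14543656))) (a (l 14240392) (a (l 14301600) (l 14389408))))))))) (a (l 4) (b (a (l 4) (a (l 4) (b (a (l 14286368) (b (l 14321416) (l 14338152))) (l 4)))) (l 4))))), by decide +kernel⟩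

theorem c_pm_113 : CertB 536870912 536870912 0 1230186008 1020054732 13421774 3 eng mog cd1q1 cd5q3 pd1 false true false .nn 1 1 3
    ndB1q1 ndB5q3 pcB1 Cut.none Ext.none :=
  certB0 (fam := false) (s1 := true) (s2 := false) (a := 1) (b := 1) (c := 3) (cn := .nn) (n1 := ndB1q1) (n2 := ndB5q3) (pc := pcB1) (cut := Cut.none) (xt := Ext.none) (P1 := 536870912) (W1 := 536870912) (P2 := 0) (W2 := 1230186008) (P3 := 1020054732) (W3 := 13421774) (N0 := 3) (En := eng) (mo := mog) (C1 := cd1q1) (C2 := cd5q3) (C3 := pd1)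
    rfl k0_pm_113

noncomputable def f_pm_123 : ℕ → ℕ → ℕ → ℕ → Bool := onCell 1073741824 536870912 0 1230186008 1020054732 13421774
    (rowB 3 eng mog cd1q1 cd5q3 pd2 2 false true false .npn 1 2 3 (qsf 536870912 536870912 0 1230186008 2) ndB1q1 ndB5q3 pcB2 Cut.none Ext.none)

def k0_pm_123 : ∃ t, chk3 f_pm_123 t 1 1 1 = true :=
  ⟨(b (a (b (a (b (a (a (l 16670672) (l 16609040)) (a (l 16372760) (l 16126312))) (a (a (l 16683112) (l 16401664)) (a (l 16107568) (l 15809728)))) (b (a (a (l 15874008) (l 15620192)) (l 15245784)) (a (a (l 15518136) (l 15051096)) (b (a (l 15058248) (l 14840568)) (a (l 14953184) (l 14915144)))))) (a (a (b (b (l 16006912) (a (l 15617024) (l 15303904))) (a (b (l 14961832) (l 14373304)) (b (l 14845888) (l 14452440)))) (b (a (b (l 15508576) (l 15132216)) (l 15145752)) (a (l 14694880) (l 14798016)))) (a (b (a (l 15040648) (l 15024552)) (a (l 14929568) (l 15071704))) (b (a (l 15073800) (l 15179720)) (a (l 15209248) (l 15327456)))))) (b (a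 (a (b (a (l 14887064) (l 14703472)) (b (a (l 14710744) (l 14725728)) (l 15008480))) (b (b (l 14515824) (a (l 14494904) (l 14542080))) (a (l 15050848) (l 15229944)))) (a (b (b (a (l 14360568) (l 14437008)) (l 14849728)) (b (l 15332384) (a (l 15626616) (l 15763608)))) (b (a (l 14960536) (l 15249528)) (a (b (l 15694792) (l 15827160)) (l 15708576))))) (b (a (a (b (l 15288168) (a (l 15436912) (l 15555584))) (b (a (l 15551472) (l 15677088)) (l 4))) (a (a (l 15713704) (l 4)) (l 4))) (a (l 4) (l 4))))) (b (b (a (a (a (a (b (l 13908696) (l 13680136)) (b (l 14153576) (l 4))) (b (a (l 14416640) (l 14650072)) (l 4))) (l 4)) (l 4)) (l 4)) (l 4))), by decide +kernel⟩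

theorem c_pm_123 : CertB 536870912 536870912 0 1230186008 1020054732 13421774 3 eng mog cd1q1 cd5q3 pd2 false true false .npn 1 2 3
    ndB1q1 ndB5q3 pcB2 Cut.none Ext.none :=
  certB2 (fam := false) (s1 := true) (s2 := false) (a := 1) (b := 2) (c := 3) (cn := .npn) (n1 := ndB1q1) (n2 := ndB5q3) (pc := pcB2) (cut := Cut.none) (xt := Ext.none) (P1 := 536870912) (W1 := 536870912) (P2 := 0) (W2 := 1230186008) (P3 := 1020054732) (W3 := 13421774) (N0 := 3) (En := eng) (mo := mog) (C1 := cd1q1) (C2 := cd5q3) (C3 := pd2)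
    rfl (fun _ => rfl) k0_pm_123

noncomputable def f_pm_133 : ℕ → ℕ → ℕ → ℕ → Bool := onCell 536870912 536870912 0 1230186008 1020054732 13421774
    (rowB 3 eng mog cd1q1 cd5q3 pd3 0 false true false .dn 1 3 3 (qsf 536870912 536870912 0 1230186008 3) ndB1q1 ndB5q3 pcB3 Cut.none Ext.none)

def k0_pm_133 : ∃ t, chk3 f_pm_133 t 1 1 1 = true :=
  ⟨(b (b (a (a (a (b (l 16145304) (l 1)) (l 1)) (l 1)) (l 1)) (l 1)) (l 1)), by decide +kernel⟩

theorem c_pm_133 : CertB 536870912 536870912 0 1230186008 1020054732 13421774 3 eng mog cd1q1 cd5q3 pd3 false true false .dn 1 3 3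
    ndB1q1 ndB5q3 pcB3 Cut.none Ext.none :=
  certB0 (fam := false) (s1 := true) (s2 := false) (a := 1) (b := 3) (c := 3) (cn := .dn) (n1 := ndB1q1) (n2 := ndB5q3) (pc := pcB3) (cut := Cut.none) (xt := Ext.none) (P1 := 536870912) (W1 := 536870912) (P2 := 0) (W2 := 1230186008) (P3 := 1020054732) (W3 := 13421774) (N0 := 3) (En := eng) (mo := mog) (C1 := cd1q1) (C2 := cd5q3) (C3 := pd3)
    rfl k0_pm_133

noncomputable def f_pm_202_a : ℕ → ℕ → ℕ → ℕ → Bool := onCell 0 536870912 1073741824 536870912 1020054732 13421774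
    (rowB 3 eng mog cd1q2a cd5q2 pd0 0 false true false .pp 2 0 2 (qsf 0 536870912 1073741824 536870912 0) ndB1q2a ndB5q2 pcB0 Cut.none Ext.none)

def k0_pm_202_a : ∃ t, chk3 f_pm_202_a t 1 1 1 = true :=
  ⟨(a (b (a (b (l 1) (a (b (b (l 15101160) (b (l 15230400) (a (l 15328160) (l 15270280)))) (b (b (l 15364264) (l 15437688)) (l 15529320))) (b (b (l 14949064) (l 15124952)) (b (l 15114128) (l 15402184))))) (b (b (l 1) (b (l 1) (a (l 1) (l 14402120)))) (b (b (a (l 14791632) (l 14621784)) (l 14896456)) (b (l 15061512) (l 15203192))))) (b (b (a (b (l 15571696) (l 15660416)) (a (b (l 15394360) (l 15488760)) (l 15308512))) (a (b (l 15722800) (l 15759808)) (a (l 15602008) (l 15480096)))) (b (a (b (l 15769776) (a (l 15784176) (l 15728760))) (b (l 15607464) (l 15615664))) (a (b (a (b (l 15765416) (l 15790448)) (l 15680488)) (a (l 15921480) (b (l 15663760) (l 15690168)))) (b (l 15593720) (a (l 15565112) (l 15512448))))))) (a (b (b (b (l 1) (b (l 4) (a (l 14271736) (l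 4)))) (b (a (b (l 14468688) (l 14652048)) (l 4)) (a (l 14900488) (b (l 14666408) (l 14811016))))) (b (b (a (l 15166056) (l 15000928)) (a (l 15350296) (l 15198424))) (b (a (b (l 15452928) (l 15477704)) (b (l 15307848) (l 15360048))) (a (l 15459032) (b (l 15388344) (l 15353160)))))) (b (l 4) (b (b (a (l 61433734231) (l 4)) (a (l 15006864) (l 44253754103))) (b (a (l 15146464) (l 14881224)) (a (b (l 15224760) (l 15257640)) (a (l 15072616) (l 14900704)))))))), by decide +kernel⟩

theorem c_pm_202_a : CertB 0 536870912 1073741824 536870912 1020054732 13421774 3 eng mog cd1q2a cd5q2 pd0 false true false .pp 2 0 2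
    ndB1q2a ndB5q2 pcB0 Cut.none Ext.none :=
  certB0 (fam := false) (s1 := true) (s2 := false) (a := 2) (b := 0) (c := 2) (cn := .pp) (n1 := ndB1q2a) (n2 := ndB5q2) (pc := pcB0) (cut := Cut.none) (xt := Ext.none) (P1 := 0) (W1 := 536870912) (P2 := 1073741824) (W2 := 536870912) (P3 := 1020054732) (W3 := 13421774) (N0 := 3) (En := eng) (mo := mog) (C1 := cd1q2a) (C2 := cd5q2) (C3 := pd0)
    rfl k0_pm_202_a

noncomputable def f_pm_202_b : ℕ → ℕ → ℕ → ℕ → Bool := onCell 0 536870912 1073741824 536870912 1020054732 13421774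
    (rowB 3 eng mog cd1q2b cd5q2 pd0 2 false true false .pp 2 0 2 (qsf 1239849684 370763052 1073741824 536870912 0) ndB1q2b ndB5q2 pcB0 Cut.none Ext.none)

def k0_pm_202_b : ∃ t, chk3 f_pm_202_b t 1 1 1 = true :=
  ⟨(a (b (a (b (l 1) (a (a (a (b (l 201356575095) (l 15605120)) (b (b (l 1) (l 15318928)) (l 15584496))) (b (b (l 1) (l 15282224)) (a (l 15565208) (l 15546336)))) (b (l 1) (b (l 15296920) (l 15560176))))) (l 1)) (a (b (a (a (a (b (l 15894424) (l 16109248)) (b (l 15878864) (l 16101696))) (b (l 15861432) (l 16096824))) (b (l 221221909815) (l 16059416))) (a (a (a (l 16173544) (a (l 16243184) (l 16290768))) (a (l 16299256) (l 16310496))) (b (l 16251168) (l 16368248)))) (b (a (b (l 424695669303) (l 15890448)) (b (l 1) (l 402147209063))) (b (a (l 16167712) (l 15804720)) (a (a (l 16359968) (l 16322840)) (a (l 16192528) (b (l 16099072) (l 16247336)))))))) (b (l 1) (a (b (l 1) (a (b (a (l 402147442407) (b (l 1) (l 15623144))) (a (b (l 15975160) (l 16194856))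 (l 16010288))) (b (l 1) (a (l 15822368) (l 15585840))))) (l 1)))), by decide +kernel⟩

theorem c_pm_202_b : CertB 1239849684 370763052 1073741824 536870912 1020054732 13421774 3 eng mog cd1q2b cd5q2 pd0 false true false .pp 2 0 2
    ndB1q2b ndB5q2 pcB0 Cut.none Ext.none :=
  certB2 (fam := false) (s1 := true) (s2 := false) (a := 2) (b := 0) (c := 2) (cn := .pp) (n1 := ndB1q2b) (n2 := ndB5q2) (pc := pcB0) (cut := Cut.none) (xt := Ext.none) (P1 := 1239849684) (W1 := 370763052) (P2 := 1073741824) (W2 := 536870912) (P3 := 1020054732) (W3 := 13421774) (N0 := 3) (En := eng) (mo := mog) (C1 := cd1q2b) (C2 := cd5q2) (C3 := pd0)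
    rfl (fun _ => rfl) k0_pm_202_b

noncomputable def f_pm_203_a : ℕ → ℕ → ℕ → ℕ → Bool := onCell 0 536870912 0 1230186008 1020054732 13421774
    (rowB 3 eng mog cd1q2a cd5q3 pd0 0 false true false .up 2 0 3 (qsf 0 536870912 0 1230186008 0) ndB1q2a ndB5q3 pcB0 Cut.none Ext.none)

def k0_pm_203_a : ∃ t, chk3 f_pm_203_a t 1 1 1 = true :=
  ⟨(b (l 2) (b (l 2) (b (a (b (l 2) (b (a (l 2) (l 2)) (a (l 16486472) (a (a (l 16379800) (l 16298104)) (l 16094496))))) (l 2)) (a (b (a (b (a (l 16487952) (a (l 16426904) (l 16365728))) (a (b (l 16453064) (l 16420208)) (l 16270592))) (b (a (l 16189544) (l 15894696)) (a (l 15990904) (l 15667360)))) (a (b (a (b (l 16369520) (l 16279160)) (l 16067128)) (a (l 16125792) (l 15844168))) (b (a (l 15766096) (b (l 15482184) (l 15403128))) (a (b (l 15590344) (l 15543120)) (l 15424992))))) (a (b (b (a (l 15545816) (l 2)) (a (l 15315536) (b (l 15030216) (l 15061344)))) (b (a (b (l 15224448) (l 15264880)) (l 15168792)) (a (l 15359160) (l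 15285224)))) (b (a (b (l 2) (l 14945448)) (l 2)) (a (b (l 15098648) (l 15189096)) (b (a (l 15056152) (l 2)) (a (l 15139040) (l 15008648)))))))))), by decide +kernel⟩

theorem c_pm_203_a : CertB 0 536870912 0 1230186008 1020054732 13421774 3 eng mog cd1q2a cd5q3 pd0 false true false .up 2 0 3
    ndB1q2a ndB5q3 pcB0 Cut.none Ext.none :=
  certB0 (fam := false) (s1 := true) (s2 := false) (a := 2) (b := 0) (c := 3) (cn := .up) (n1 := ndB1q2a) (n2 := ndB5q3) (pc := pcB0) (cut := Cut.none) (xt := Ext.none) (P1 := 0) (W1 := 536870912) (P2 := 0) (W2 := 1230186008) (P3 := 1020054732) (W3 := 13421774) (N0 := 3) (En := eng) (mo := mog) (C1 := cd1q2a) (C2 := cd5q3) (C3 := pd0)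
    rfl k0_pm_203_a

noncomputable def f_pm_203_b : ℕ → ℕ → ℕ → ℕ → Bool := onCell 0 536870912 0 1230186008 1020054732 13421774
    (rowB 3 eng mog cd1q2b cd5q3 pd0 2 false true false .up 2 0 3 (qsf 1239849684 370763052 0 1230186008 0) ndB1q2b ndB5q3 pcB0 Cut.none Ext.none)

def k0_pm_203_b : ∃ t, chk3 f_pm_203_b t 1 1 1 = true :=
  ⟨(b (l 3) (b (b (l 3) (b (l 3) (a (l 3) (a (a (l 3) (b (l 3) (l 16295880))) (a (b (l 3) (l 16440704)) (b (l 16534584) (l 16579408))))))) (a (b (a (l 2) (a (b (l 15705872) (b (l 15696392) (l 15726432))) (b (l 15952528) (l 15986744)))) (a (b (a (l 2) (a (b (l 2) (a (l 15708288) (l 15808504))) (b (l 15621632) (l 15912000)))) (a (a (a (l 15633560) (l 15632240)) (l 15857584)) (b (a (l 15930272) (l 16116544)) (l 16195200)))) (b (a (b (a (l 15744088) (l 15876704)) (l 15950832)) (b (l 16088544) (l 16101808))) (a (a (b (l 16305984) (l 16441072)) (l 16409128)) (b (l 16511984) (l 16426592)))))) (b (a (b (a (l 16126728) (b (l 16323224) (l 16377512)))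 (a (l 16002816) (b (l 16436648) (l 16503976)))) (a (b (b (l 16492896) (l 16564320)) (b (l 16626960) (l 16634584))) (b (b (l 16647072) (l 16691816)) (l 16616992)))) (a (b (a (b (l 16342160) (l 16450552)) (l 16506608)) (a (b (l 16516952) (l 16372488)) (b (l 16238920) (l 16266544)))) (b (a (l 16553512) (l 16441440)) (a (b (b (l 16452800) (l 16375776)) (l 16043360)) (l 1)))))))), by decide +kernel⟩

theorem c_pm_203_b : CertB 1239849684 370763052 0 1230186008 1020054732 13421774 3 eng mog cd1q2b cd5q3 pd0 false true false .up 2 0 3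
    ndB1q2b ndB5q3 pcB0 Cut.none Ext.none :=
  certB2 (fam := false) (s1 := true) (s2 := false) (a := 2) (b := 0) (c := 3) (cn := .up) (n1 := ndB1q2b) (n2 := ndB5q3) (pc := pcB0) (cut := Cut.none) (xt := Ext.none) (P1 := 1239849684) (W1 := 370763052) (P2 := 0) (W2 := 1230186008) (P3 := 1020054732) (W3 := 13421774) (N0 := 3) (En := eng) (mo := mog) (C1 := cd1q2b) (C2 := cd5q3) (C3 := pd0)
    rfl (fun _ => rfl) k0_pm_203_b

noncomputable def cut_pm_213_a : Cut := Cut.of [[⟨0, 1, 0, 26738688⟩, ⟨1, 1, 0, 26738688⟩, ⟨2, 2, 0, 2621440⟩]]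

noncomputable def xt_pm_213_a : Ext := extD3 3 ⟨4, 1, 1, 5, 99, 20, 33, 40, 51, 125, 1, 32⟩ eng cd1q2a cd5q3 pd1 false true false .pnn 2 1 3 rfl ndB1q2a ndB5q3 pcB1

noncomputable def f_pm_213_a : ℕ → ℕ → ℕ → ℕ → Bool := onCell 0 536870912 0 1230186008 1020054732 13421774
    (rowB 3 eng mog cd1q2a cd5q3 pd1 0 false true false .pnn 2 1 3 (qsf 0 536870912 0 1230186008 1) ndB1q2a ndB5q3 pcB1 cut_pm_213_a xt_pm_213_a)

def k0_pm_213_a : ∃ t, chk3 f_pm_213_a t 2 2 1 = true :=
  ⟨(b (l 3) (b (a (l 3) (a (l 3) (b (l 3) (a (l 3) (b (l 3) (c (a (l 287393667447) (b (l 279877439095) (l 256255116695))) (a (b (l 3) (l 296520474375)) (b (l 311552863479) (l 289004235303))))))))) (a (b (l 3) (a (l 3) (b (l 3) (a (l 3) (a (l 3) (b (l 3) (b (l 3) (l 256255129015)))))))) (b (b (a (l 3) (a (b (c (l 293836118519) (l 280414340935)) (a (l 270750669127) (c (l 268066278071) (l 291151714615)))) (a (b (c (l 261623825383) (l 296520424807)) (l 16732520)) (b (l 16753480) (l 16759288)))))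 (a (a (l 3) (a (l 3) (b (l 3) (c (l 283098733687) (l 278266816615))))) (c (a (a (b (l 281488053575) (l 16761688)) (l 16723680)) (l 16744744)) (a (a (b (l 284709264663) (l 16752128)) (b (l 16776624) (l 16765008))) (l 16743264))))) (b (a (a (a (l 3) (b (l 3) (c (l 270750674919) (l 277729996599)))) (a (b (c (l 268603160215) (l 271287498423)) (c (l 263234464471) (l 277729944823))) (b (c (l 16759752) (l 279877430087)) (l 16746808)))) (a (c (l 16706520) (l 16709048)) (l 16649880))) (a (b (c (a (a (l 264845096119) (l 266455684823)) (l 16754912)) (a (a (l 268066320087) (l 294909812935)) (l 16763456))) (a (a (c (l 275582487943) (b (l 293299217495) (l 16766080))) (l 16701584)) (l 16685088))) (a (l 16637104) (l 16679168)))))))), by decide +kernel⟩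

def k1_pm_213_a : ∃ t, chk3 f_pm_213_a t 6 4 1 = true :=
  ⟨(b (l 3) (a (l 3) (b (a (l 3) (b (l 3) (a (l 3) (b (l 3) (a (l 3) (l 265918812775)))))) (a (b (l 3) (a (b (l 3) (l 347523205319)) (b (a (l 3) (l 320142799847)) (a (l 280414307831) (l 16752504))))) (b (a (b (l 3) (a (l 302962903671) (l 213842318583))) (b (a (b (l 265918833975) (l 175187626087)) (l 178945719079)) (a (l 16754720) (l 16765304)))) (a (b (a (l 217063546839) (l 16772760)) (l 16762064)) (b (l 16754256) (l 16736832)))))))), by decide +kernel⟩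

def k2_pm_213_a : ∃ t, chk3 f_pm_213_a t 14 4 1 = true :=
  ⟨(b (b (l 3) (a (l 3) (b (l 3) (a (b (l 3) (a (l 3) (b (l 3) (a (l 321753418567) (l 222432282423))))) (b (a (c (l 422685145431) (l 373292997479)) (b (a (l 370071802519) (l 249812700183)) (a (l 225116639959) (l 16776264)))) (a (b (a (l 244443987655) (l 16751424)) (l 16754808)) (l 16744992))))))) (b (a (b (a (l 3) (b (a (l 3) (l 364703058551)) (a (b (l 3) (l 246054586439)) (b (l 221358526535) (l 16752408))))) (a (b (a (l 3) (b (l 255718289847) (l 176798241863))) (a (b (l 190756882311) (l 16748720)) (l 16754056))) (b (a (l 185388175191) (l 16766520)) (l 16754856)))) (b (a (b (a (b (a (l 3) (l 242833373287)) (l 182166953831)) (b (l 178408863415) (l 16771272))) (a (l 16750304) (l 16757216))) (b (a (l 16761736) (l 16746448)) (l 16732864))) (a (b (l 16745248) (l 16723352)) (l 16682376)))) (a (b (a (b (a (l 16770136) (l 16757032)) (l 16745640)) (l 16725072)) (a (l 16694632) (l 16679944))) (b (a (l 16690584)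 (l 16660296)) (l 16624920))))), by decide +kernel⟩

def k3_pm_213_a : ∃ t, chk3 f_pm_213_a t 15 4 1 = true :=
  ⟨(b (a (b (b (l 3) (a (l 3) (b (l 3) (a (a (l 3) (a (l 3) (b (l 3) (l 435570068903)))) (a (b (l 479056608887) (b (a (l 461876746679) (l 264845111831)) (l 242296524119))) (l 6)))))) (b (a (b (a (l 3) (b (l 3) (a (l 404431524023) (l 4200405021120633024124380767)))) (b (a (a (l 3) (l 400673450759)) (a (l 3194580315821444526839767135) (l 16753224))) (a (a (b (l 372756161975) (l 249812706983)) (l 187535682071)) (l 16747760)))) (b (a (b (a (b (l 475298511127) (l 5930990071172789206733947103)) (b (l 3252607740303798894112236767) (l 16753992))) (a (l 200957456711) (l 16768216))) (a (b (l 16769184) (l 16760248)) (l 16735504))) (a (b (l 16741952) (l 16753032)) (l 16742016)))) (a (b (a (c (l 16747152) (l 16750544)) (l 16754568)) (a (l 16750632) (l 16734584))) (a (b (l 16738800) (l 16720344)) (l 16694432))))) (b (l 6) (a (b (a (b (l 16701800) (l 16726608)) (b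 (l 16708408) (l 16712808))) (b (l 16681800) (l 16686320))) (b (a (l 16667776) (l 16679672)) (l 16631336))))) (a (b (b (a (b (l 16701856) (l 16704000)) (l 16644688)) (a (l 16676352) (l 16651024))) (b (l 16606392) (l 16534912))) (b (a (b (l 16640720) (l 16629072)) (b (l 16642648) (l 16611576))) (a (b (l 16597080) (l 16596256)) (b (l 16603440) (l 16651296)))))), by decide +kernel⟩

def k4_pm_213_a : ∃ t, chk3 f_pm_213_a t 3 5 1 = true :=
  ⟨(a (b (a (b (a (b (l 3) (a (l 3) (b (l 3) (l 304573524135)))) (b (a (l 3) (b (l 3) (a (l 301352290327) (l 272898111943)))) (a (b (a (l 3) (l 292225465255)) (a (l 293299203911) (l 16750400))) (b (a (l 268066274951) (l 16775808)) (l 16766968))))) (a (b (a (b (l 280414320295) (c (l 278266822839) (l 286856746967))) (b (a (l 287930495175) (l 262160691751)) (a (l 16750144) (l 16773328)))) (a (b (c (l 16746912) (l 16732672)) (l 16770536)) (b (l 16765768) (l 16749728)))) (b (a (b (l 16730552) (l 16759904)) (l 16745152)) (a (l 16734744)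 (l 16708408))))) (b (a (c (b (a (b (l 265918788679) (l 16755208)) (l 16743592)) (l 16733776)) (b (a (b (l 270750620471) (l 16752040)) (l 16737144)) (l 16683072))) (b (a (l 16737216) (l 16706384)) (l 16679424))) (a (b (l 16682392) (l 16661384)) (b (l 16632616) (l 16582712))))) (b (a (a (b (c (l 16737080) (l 16732504)) (l 16700656)) (b (l 16683808) (l 16643944))) (a (b (l 16617064) (l 16572664)) (b (l 16535200) (l 16490216)))) (a (a (b (l 16664304) (l 16606440)) (b (l 16582432) (l 16564376))) (a (b (l 16530592) (l 16488544)) (c (l 16431920) (l 16408672)))))) (b (a (b (a (b (l 16650392) (l 16598408)) (b (l 16569232) (a (l 16530136) (l 16494648)))) (a (b (l 16543856) (l 16493520)) (b (l 16459744) (l 16403048)))) (a (b (b (a (l 16540664) (l 16592648)) (l 16490072)) (l 16354680)) (b (l 16469672) (l 16342296)))) (a (b (a (c (l 16433344) (l 16403248)) (l 16369376)) (a (l 16124856) (l 16058952))) (b (a (l 16174800) (l 16035656)) (a (l 15924704) (b (l 15884272) (l 15809856))))))),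 by decide +kernel⟩

def k5_pm_213_a : ∃ t, chk3 f_pm_213_a t 4 12 1 = true :=
  ⟨(b (b (a (l 3) (a (b (l 3) (c (l 325511498071) (l 325511512263))) (c (a (b (l 299741709431) (b (l 278803704663) (l 292762331687))) (b (l 268603168775) (l 16750784))) (a (b (l 276119385735) (b (l 282024935511) (l 301352283287))) (b (b (l 287393640775) (l 16743896)) (l 16770624)))))) (a (a (l 3) (b (l 3) (a (l 3) (l 323363994055)))) (a (c (b (a (l 311552875207) (b (l 273971868567) (l 288467363703))) (a (b (l 269676903863) (l 284709267223)) (b (l 16752432) (l 16746224)))) (a (b (l 321753417591) (a (l 264845121559) (l 293299219511))) (b (a (l 261086971143) (l 298131055111)) (l 16725928)))) (a (b (c (l 16749912) (l 16748080)) (l 16712928)) (b (l 16735000) (l 16743072)))))) (a (a (b (l 3) (b (a (l 3) (c (a (b (l 3) (l 272898144167)) (b (l 273971884039) (l 283635532951))) (b (l 294909881527) (a (l 275582511383) (l 284172436135))))) (b (a (c (c (l 304573542359) (l 301889208119)) (l 311015996903))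 (a (b (c (l 300278550327) (l 16745840)) (l 16741600)) (l 16716696))) (c (a (a (a (l 293299275367) (l 258402634615)) (b (l 298131068087) (l 16758904))) (l 16745552)) (a (a (l 283635575463) (l 287393664055)) (l 16766752)))))) (a (b (b (l 3) (c (b (l 270213795655) (a (l 276119365831) (l 16737008))) (c (l 276656266887) (l 293299268087)))) (b (a (b (c (l 283098661335) (l 16744960)) (l 16716432)) (b (l 16737216) (l 16753792))) (b (l 16688192) (l 16703400)))) (b (c (b (b (l 268066329543) (a (l 280414329015) (l 16756728))) (b (l 278266793319) (l 16745352))) (b (b (l 271287555527) (l 304036647783)) (b (l 16745072) (l 16767056)))) (b (c (l 16731600) (l 16759408)) (l 16654104))))) (b (a (b (a (b (c (l 16731776) (l 16745144)) (l 16714776)) (l 16689976)) (a (l 16667208) (l 16721936))) (b (l 16631472) (l 16659896))) (a (b (c (l 16705136) (l 16740736)) (l 16597120)) (c (l 16659488) (l 16706152)))))), by decide +kernel⟩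

def k6_pm_213_a : ∃ t, chk3 f_pm_213_a t 5 12 1 = true :=
  ⟨(b (a (b (c (a (b (l 16707408) (l 16739104)) (l 16719024)) (a (b (l 16723824) (l 16751912)) (l 16726024))) (a (c (l 16717664) (l 16730464)) (l 16633272))) (a (b (l 16689496) (l 16532400)) (b (l 16603440) (l 16507632)))) (a (b (a (l 16553416) (c (l 16654896) (l 16665104))) (c (a (l 16631616) (l 16565832)) (a (l 16673848) (l 16636136)))) (b (a (c (l 16623184) (l 16621888)) (l 16580448)) (c (l 16580392) (l 16565248))))), by decide +kernel⟩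

def k7_pm_213_a : ∃ t, chk3 f_pm_213_a t 2 13 1 = true :=
  ⟨(a (c (b (a (b (a (b (a (b (a (b (l 295983585575) (l 16738760)) (l 16730264)) (a (l 16730744) (l 16719224))) (l 16721120)) (c (l 16640968) (l 16727824))) (b (l 16695960) (l 16668064))) (a (b (c (l 16649008) (l 16705448)) (l 16655704)) (c (l 16544920) (l 16651064)))) (b (a (l 16638712) (l 16531912)) (a (b (l 16587624) (l 16549912)) (b (l 16536664) (l 16511344))))) (a (b (a (c (l 16503400) (l 16634344)) (b (l 16561128) (l 16504088))) (a (c (l 16296384) (b (l 16581408) (l 16545616))) (b (a (l 16488864) (l 16490160)) (l 16409048)))) (b (a (b (l 16482432) (l 16461536)) (l 16600032)) (l 16384392)))) (b (a (b (a (b (a (b (c (l 269676916295) (l 257865770375)) (l 16745920)) (l 16758720)) (a (l 16737448) (l 16746984))) (b (l 16741000) (l 16728944))) (a (b (l 16741120) (l 16729800)) (l 16711424))) (b (a (l 16709136) (l 16680472)) (b (l 16592768) (l 16560152)))) (a (a (b (l 16671664) (l 16505360)) (b (l 16605984)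 (b (l 16674808) (l 16664136)))) (b (a (l 16600240) (l 16630432)) (l 16618904))))) (b (a (a (b (b (l 16465336) (l 16391792)) (l 16439400)) (c (l 16417320) (l 16592728))) (b (c (l 16549152) (l 16533256)) (l 16503136))) (a (b (c (l 16584336) (l 16567432)) (c (l 16534472) (l 16529400))) (b (l 16455368) (l 16247528))))), by decide +kernel⟩

def k8_pm_213_a : ∃ t, chk3 f_pm_213_a t 3 6 1 = true :=
  ⟨(b (a (b (a (b (a (l 16549536) (l 16525624)) (a (l 16555976) (l 16487304))) (c (l 16386944) (l 16370040))) (a (c (l 16472864) (l 16417184)) (c (l 16289984) (l 16292088)))) (a (a (b (l 16152640) (l 15973384)) (b (l 16058456) (l 15854440))) (b (a (l 15916640) (l 15471200)) (a (b (l 15841752) (l 15787704)) (b (l 15646256) (c (l 15566016) (l 15605816))))))) (a (b (a (b (l 16404064) (l 16354576)) (b (l 16217848) (l 16159552))) (a (b (l 16273712) (a (l 16268472) (l 16128056))) (c (b (l 16042360) (l 15974032)) (b (l 16140776) (l 16087672))))) (b (a (b (a (l 16040352) (l 15896264))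 (a (l 15977208) (l 15836400))) (a (b (l 15685080) (l 15659968)) (b (l 15505920) (l 15436936)))) (a (b (a (l 15836024) (l 15779488)) (c (l 15779352) (l 15838680))) (b (a (l 15605096) (l 15382576)) (a (l 15566320) (l 15346792))))))), by decide +kernel⟩

def k9_pm_213_a : ∃ t, chk3 f_pm_213_a t 1 7 1 = true :=
  ⟨(a (b (b (a (b (a (c (a (b (a (l 16441976) (l 16470704)) (a (l 16465264) (l 16521360))) (l 16498080)) (a (b (l 16659296) (l 16669120)) (l 16642648))) (c (l 16600248) (l 16581784))) (a (c (a (l 16464672) (l 16627616)) (l 16623992)) (c (l 16528864) (l 16532272)))) (a (b (c (l 16458040) (l 16481704)) (c (l 16349704) (l 16420512))) (b (c (l 16267960) (l 16357256)) (c (a (l 16185624) (l 16100040)) (l 16290224))))) (a (b (a (c (l 16588360) (l 16572224)) (c (l 16417656) (l 16466080))) (b (a (l 16514632) (l 16283680)) (l 1))) (b (a (c (a (l 16261368) (l 16150760)) (l 16343184)) (c (a (l 16092152) (l 16074360)) (l 16234048))) (a (c (a (l 16053592) (l 16093840))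 (l 16273800)) (l 15927512))))) (b (a (l 1) (b (a (l 1) (l 16178416)) (l 1))) (l 1))) (b (a (b (a (c (b (l 15953576) (l 16038296)) (b (l 16210600) (l 16160536))) (b (c (l 15947768) (l 16039016)) (l 15978824))) (a (b (l 16032512) (l 16106976)) (b (l 15981768) (l 16004728)))) (a (b (b (l 15636232) (l 15776848)) (b (l 15771504) (a (l 15884992) (l 15772520)))) (b (b (l 15255464) (l 15199688)) (b (a (l 15578800) (l 15381080)) (a (l 15544176) (b (l 15398752) (l 15346464))))))) (a (b (a (b (l 16136448) (b (l 16170648) (l 1))) (b (b (l 16035760) (l 16055584)) (c (l 16120472) (l 15939488)))) (l 1)) (b (a (b (c (l 15926632) (l 15722952)) (l 15727984)) (b (a (l 15527376) (l 15239240)) (l 15187848))) (a (b (l 15594832) (l 1)) (b (a (l 15257488) (l 14977032)) (a (l 15144808) (l 14930272)))))))), by decide +kernel⟩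

theorem s10_pm_213_a : ∃ t, chk3 f_pm_213_a t 2 12 1 = true := ex3_a k5_pm_213_a k6_pm_213_a

theorem s11_pm_213_a : ∃ t, chk3 f_pm_213_a t 2 6 1 = true := ex3_b s10_pm_213_a k7_pm_213_a

theorem s12_pm_213_a : ∃ t, chk3 f_pm_213_a t 1 6 1 = true := ex3_a s11_pm_213_a k8_pm_213_a

theorem s13_pm_213_a : ∃ t, chk3 f_pm_213_a t 1 3 1 = true := ex3_b s12_pm_213_a k9_pm_213_a

theorem s14_pm_213_a : ∃ t, chk3 f_pm_213_a t 7 4 1 = true := ex3_a k2_pm_213_a k3_pm_213_a

theorem s15_pm_213_a : ∃ t, chk3 f_pm_213_a t 3 4 1 = true := ex3_a k1_pm_213_a s14_pm_213_a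

theorem s16_pm_213_a : ∃ t, chk3 f_pm_213_a t 3 2 1 = true := ex3_b s15_pm_213_a k4_pm_213_a

theorem s17_pm_213_a : ∃ t, chk3 f_pm_213_a t 1 2 1 = true := ex3_a k0_pm_213_a s16_pm_213_a

theorem s18_pm_213_a : ∃ t, chk3 f_pm_213_a t 1 1 1 = true := ex3_b s17_pm_213_a s13_pm_213_a

theorem c_pm_213_a : CertB 0 536870912 0 1230186008 1020054732 13421774 3 eng mog cd1q2a cd5q3 pd1 false true false .pnn 2 1 3
    ndB1q2a ndB5q3 pcB1 cut_pm_213_a xt_pm_213_a :=
  certB0 (fam := false) (s1 := true) (s2 := false) (a := 2) (b := 1) (c := 3) (cn := .pnn) (n1 := ndB1q2a) (n2 := ndB5q3) (pc := pcB1) (cut := cut_pm_213_a) (xt := xt_pm_213_a) (P1 := 0) (W1 := 536870912) (P2 := 0) (W2 := 1230186008) (P3 := 1020054732) (W3 := 13421774) (N0 := 3) (En := eng) (mo := mog) (C1 := cd1q2a) (C2 := cd5q3) (C3 := pd1)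
    rfl s18_pm_213_a

noncomputable def cut_pm_213_b : Cut := Cut.of [[⟨0, 1, 0, 26738688⟩, ⟨1, 1, 0, 26738688⟩, ⟨2, 2, 0, 2621440⟩]]

noncomputable def f_pm_213_b : ℕ → ℕ → ℕ → ℕ → Bool := onCell 1239849684 370763052 0 1230186008 1020054732 13421774
    (rowB 3 eng mog cd1q2b cd5q3 pd1 0 false true false .pnn 2 1 3 (qsf 1239849684 370763052 0 1230186008 1) ndB1q2b ndB5q3 pcB1 cut_pm_213_b Ext.none)

def k0_pm_213_b : ∃ t, chk3 f_pm_213_b t 1 1 1 = true :=
  ⟨(b (l 3) (b (a (b (a (b (l 3) (a (l 3) (l 3))) (l 3)) (a (b (a (b (a (b (a (b (a (b (c (l 221358544951) (l 16754416)) (c (l 16742248) (l 16764616))) (l 251960155511)) (a (c (l 16735120) (l 16764392)) (c (l 16731976) (l 16756232)))) (b (l 3) (l 242833292311))) (c (a (c (l 16710792) (l 16721520)) (l 16689856)) (a (l 16716872) (l 16742736)))) (b (l 3) (c (l 16761208) (l 16741312)))) (a (b (c (a (l 16668192) (l 16683056)) (a (l 16754256) (l 16738184))) (a (l 16587776) (c (l 16671800) (l 16731168)))) (c (b (l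 16655824) (l 16663856)) (b (l 16715288) (l 16707400))))) (b (l 3) (c (b (l 16757504) (a (l 16658552) (l 16648912))) (a (l 16703656) (l 16633600))))) (a (b (c (a (b (l 16629384) (l 16579592)) (b (l 16625536) (l 16583416))) (a (b (l 16730160) (l 16718872)) (l 16691224))) (c (a (b (l 16557408) (l 16510488)) (l 16429296)) (a (l 16656440) (l 16662816)))) (b (c (a (l 16532280) (l 16569456)) (a (l 16660448) (l 16632280))) (c (a (l 16477104) (l 16487664)) (a (l 16629848) (l 16578360)))))) (b (a (b (l 3) (a (l 3) (l 3))) (l 3)) (a (b (a (b (l 16609640) (l 16580104)) (l 16446608)) (c (l 16372200) (l 16471592))) (l 1))))) (b (l 3) (l 1))) (a (b (a (a (b (b (c (b (l 16362856) (a (l 16336104) (l 16380784))) (a (l 16439048) (l 16608064))) (c (b (a (l 16450664) (l 16312440)) (l 16405072)) (a (l 16671816) (l 16471592)))) (b (c (b (l 16576024) (l 16651448)) (l 16640808)) (b (l 16607376) (l 1)))) (b (b (c (l 16191984) (l 16578784)) (a (c (b (l 16322696) (l 16380704)) (l 16466152))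 (l 1))) (l 1))) (l 1)) (l 1)) (l 1)))), by decide +kernel⟩

theorem c_pm_213_b : CertB 1239849684 370763052 0 1230186008 1020054732 13421774 3 eng mog cd1q2b cd5q3 pd1 false true false .pnn 2 1 3
    ndB1q2b ndB5q3 pcB1 cut_pm_213_b Ext.none :=
  certB0 (fam := false) (s1 := true) (s2 := false) (a := 2) (b := 1) (c := 3) (cn := .pnn) (n1 := ndB1q2b) (n2 := ndB5q3) (pc := pcB1) (cut := cut_pm_213_b) (xt := Ext.none) (P1 := 1239849684) (W1 := 370763052) (P2 := 0) (W2 := 1230186008) (P3 := 1020054732) (W3 := 13421774) (N0 := 3) (En := eng) (mo := mog) (C1 := cd1q2b) (C2 := cd5q3) (C3 := pd1)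
    rfl k0_pm_213_b

noncomputable def f_pm_303 : ℕ → ℕ → ℕ → ℕ → Bool := onCell 0 536870912 0 1230186008 1020054732 13421774
    (rowB 3 eng mog cd1q3 cd5q3 pd0 2 false true false .npn 3 0 3 (qsf 1610612736 536870912 0 1230186008 0) ndB1q3 ndB5q3 pcB0 Cut.none Ext.none)

def k0_pm_303 : ∃ t, chk3 f_pm_303 t 1 1 1 = true :=
  ⟨(b (l 3) (b (b (l 3) (b (l 3) (a (l 3) (a (a (l 3) (l 1)) (l 1))))) (a (b (a (b (a (a (l 3) (l 15119400)) (l 161762589767)) (a (a (a (b (l 14587960) (l 14924400)) (a (b (l 14905328) (l 15040624)) (b (l 14947816) (l 15078224)))) (a (b (l 15011320) (l 15102568)) (b (l 15094944) (l 15140224)))) (b (l 15149032) (a (l 15252360) (l 15416256))))) (a (b (l 184311768071) (b (l 15636048) (l 15651872))) (b (l 149415701927) (l 1)))) (a (b (a (a (a (l 15135056) (a (l 15234088) (b (l 15228568) (l 15371720)))) (a (b (l 15288328) (l 15431024)) (b (l 15335752) (l 15484720)))) (a (b (l 15420616) (a (l 15565008) (l 15671976))) (b (l 15511600) (l 15786144))))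 (a (a (a (l 15436032) (l 15336232)) (a (l 15647176) (l 15701776))) (a (l 15847264) (l 1)))) (b (a (b (a (l 15647776) (l 1)) (l 1)) (l 1)) (l 1)))) (l 1)))), by decide +kernel⟩

theorem c_pm_303 : CertB 1610612736 536870912 0 1230186008 1020054732 13421774 3 eng mog cd1q3 cd5q3 pd0 false true false .npn 3 0 3
    ndB1q3 ndB5q3 pcB0 Cut.none Ext.none :=
  certB2 (fam := false) (s1 := true) (s2 := false) (a := 3) (b := 0) (c := 3) (cn := .npn) (n1 := ndB1q3) (n2 := ndB5q3) (pc := pcB0) (cut := Cut.none) (xt := Ext.none) (P1 := 1610612736) (W1 := 536870912) (P2 := 0) (W2 := 1230186008) (P3 := 1020054732) (W3 := 13421774) (N0 := 3) (En := eng) (mo := mog) (C1 := cd1q3) (C2 := cd5q3) (C3 := pd0)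
    rfl (fun _ => rfl) k0_pm_303

noncomputable def f_pm_313 : ℕ → ℕ → ℕ → ℕ → Bool := onCell 1610612736 536870912 0 1230186008 1020054732 13421774
    (rowB 3 eng mog cd1q3 cd5q3 pd1 0 false true false .dn 3 1 3 (qsf 1610612736 536870912 0 1230186008 1) ndB1q3 ndB5q3 pcB1 Cut.none Ext.none)

def k0_pm_313 : ∃ t, chk3 f_pm_313 t 1 1 1 = true :=
  ⟨(b (l 3) (l 1)), by decide +kernel⟩

theorem c_pm_313 : CertB 1610612736 536870912 0 1230186008 1020054732 13421774 3 eng mog cd1q3 cd5q3 pd1 false true false .dn 3 1 3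
    ndB1q3 ndB5q3 pcB1 Cut.none Ext.none :=
  certB0 (fam := false) (s1 := true) (s2 := false) (a := 3) (b := 1) (c := 3) (cn := .dn) (n1 := ndB1q3) (n2 := ndB5q3) (pc := pcB1) (cut := Cut.none) (xt := Ext.none) (P1 := 1610612736) (W1 := 536870912) (P2 := 0) (W2 := 1230186008) (P3 := 1020054732) (W3 := 13421774) (N0 := 3) (En := eng) (mo := mog) (C1 := cd1q3) (C2 := cd5q3) (C3 := pd1)
    rfl k0_pm_313

noncomputable def f_mm_001 : ℕ → ℕ → ℕ → ℕ → Bool := onCell 0 536870912 0 536870912 1020054732 13421774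
    (rowB 3 eng mog cd1q0 cd5q1 pd0 1 false false false .up 0 0 1 (qsf 0 536870912 536870912 536870912 0) ndB1q0 ndB5q1 pcB0 Cut.none Ext.none)

def k0_mm_001 : ∃ t, chk3 f_mm_001 t 1 1 1 = true :=
  ⟨(l 3), by decide +kernel⟩

theorem c_mm_001 : CertB 0 536870912 536870912 536870912 1020054732 13421774 3 eng mog cd1q0 cd5q1 pd0 false false false .up 0 0 1
    ndB1q0 ndB5q1 pcB0 Cut.none Ext.none :=
  certB1 (fam := false) (s1 := false) (s2 := false) (a := 0) (b := 0) (c := 1) (cn := .up) (n1 := ndB1q0) (n2 := ndB5q1) (pc := pcB0) (cut := Cut.none) (xt := Ext.none) (P1 := 0) (W1 := 536870912) (P2 := 536870912) (W2 := 536870912) (P3 := 1020054732) (W3 := 13421774) (N0 := 3) (En := eng) (mo := mog) (C1 := cd1q0) (C2 := cd5q1) (C3 := pd0)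
    rfl (fun _ => rfl) k0_mm_001

noncomputable def f_mm_011 : ℕ → ℕ → ℕ → ℕ → Bool := onCell 0 536870912 536870912 536870912 1020054732 13421774
    (rowB 3 eng mog cd1q0 cd5q1 pd1 1 false false false .pnn 0 1 1 (qsf 0 536870912 536870912 536870912 1) ndB1q0 ndB5q1 pcB1 Cut.none Ext.none)

def k0_mm_011 : ∃ t, chk3 f_mm_011 t 1 1 1 = true :=
  ⟨(l 5), by decide +kernel⟩

theorem c_mm_011 : CertB 0 536870912 536870912 536870912 1020054732 13421774 3 eng mog cd1q0 cd5q1 pd1 false false false .pnn 0 1 1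
    ndB1q0 ndB5q1 pcB1 Cut.none Ext.none :=
  certB1 (fam := false) (s1 := false) (s2 := false) (a := 0) (b := 1) (c := 1) (cn := .pnn) (n1 := ndB1q0) (n2 := ndB5q1) (pc := pcB1) (cut := Cut.none) (xt := Ext.none) (P1 := 0) (W1 := 536870912) (P2 := 536870912) (W2 := 536870912) (P3 := 1020054732) (W3 := 13421774) (N0 := 3) (En := eng) (mo := mog) (C1 := cd1q0) (C2 := cd5q1) (C3 := pd1)
    rfl (fun _ => rfl) k0_mm_011

noncomputable def f_mm_012 : ℕ → ℕ → ℕ → ℕ → Bool := onCell 0 536870912 1073741824 536870912 1020054732 13421774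
    (rowB 3 eng mog cd1q0 cd5q2 pd1 0 false false false .pnp 0 1 2 (qsf 0 536870912 1073741824 536870912 1) ndB1q0 ndB5q2 pcB1 Cut.none Ext.none)

def k0_mm_012 : ∃ t, chk3 f_mm_012 t 1 1 1 = true :=
  ⟨(l 5), by decide +kernel⟩

theorem c_mm_012 : CertB 0 536870912 1073741824 536870912 1020054732 13421774 3 eng mog cd1q0 cd5q2 pd1 false false false .pnp 0 1 2
    ndB1q0 ndB5q2 pcB1 Cut.none Ext.none :=
  certB0 (fam := false) (s1 := false) (s2 := false) (a := 0) (b := 1) (c := 2) (cn := .pnp) (n1 := ndB1q0) (n2 := ndB5q2) (pc := pcB1) (cut := Cut.none) (xt := Ext.none) (P1 := 0) (W1 := 536870912) (P2 := 1073741824) (W2 := 536870912) (P3 := 1020054732) (W3 := 13421774) (N0 := 3) (En := eng) (mo := mog) (C1 := cd1q0) (C2 := cd5q2) (C3 := pd1)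
    rfl k0_mm_012

noncomputable def f_mm_022 : ℕ → ℕ → ℕ → ℕ → Bool := onCell 0 536870912 1073741824 536870912 1020054732 13421774
    (rowB 3 eng mog cd1q0 cd5q2 pd2 0 false false false .pp 0 2 2 (qsf 0 536870912 1073741824 536870912 2) ndB1q0 ndB5q2 pcB2 Cut.none Ext.none)

def k0_mm_022 : ∃ t, chk3 f_mm_022 t 1 1 1 = true :=
  ⟨(l 5), by decide +kernel⟩

theorem c_mm_022 : CertB 0 536870912 1073741824 536870912 1020054732 13421774 3 eng mog cd1q0 cd5q2 pd2 false false false .pp 0 2 2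
    ndB1q0 ndB5q2 pcB2 Cut.none Ext.none :=
  certB0 (fam := false) (s1 := false) (s2 := false) (a := 0) (b := 2) (c := 2) (cn := .pp) (n1 := ndB1q0) (n2 := ndB5q2) (pc := pcB2) (cut := Cut.none) (xt := Ext.none) (P1 := 0) (W1 := 536870912) (P2 := 1073741824) (W2 := 536870912) (P3 := 1020054732) (W3 := 13421774) (N0 := 3) (En := eng) (mo := mog) (C1 := cd1q0) (C2 := cd5q2) (C3 := pd2)
    rfl k0_mm_022

noncomputable def f_mm_023 : ℕ → ℕ → ℕ → ℕ → Bool := onCell 0 536870912 0 1230186008 1020054732 13421774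
    (rowB 3 eng mog cd1q0 cd5q3 pd2 0 false false false .up 0 2 3 (qsf 0 536870912 0 1230186008 2) ndB1q0 ndB5q3 pcB2 Cut.none Ext.none)

def k0_mm_023 : ∃ t, chk3 f_mm_023 t 1 1 1 = true :=
  ⟨(l 5), by decide +kernel⟩

theorem c_mm_023 : CertB 0 536870912 0 1230186008 1020054732 13421774 3 eng mog cd1q0 cd5q3 pd2 false false false .up 0 2 3
    ndB1q0 ndB5q3 pcB2 Cut.none Ext.none :=
  certB0 (fam := false) (s1 := false) (s2 := false) (a := 0) (b := 2) (c := 3) (cn := .up) (n1 := ndB1q0) (n2 := ndB5q3) (pc := pcB2) (cut := Cut.none) (xt := Ext.none) (P1 := 0) (W1 := 536870912) (P2 := 0) (W2 := 1230186008) (P3 := 1020054732) (W3 := 13421774) (N0 := 3) (En := eng) (mo := mog) (C1 := cd1q0) (C2 := cd5q3) (C3 := pd2)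
    rfl k0_mm_023

noncomputable def f_mm_033 : ℕ → ℕ → ℕ → ℕ → Bool := onCell 0 536870912 0 1230186008 1020054732 13421774
    (rowB 3 eng mog cd1q0 cd5q3 pd3 0 false false false .pnn 0 3 3 (qsf 0 536870912 0 1230186008 3) ndB1q0 ndB5q3 pcB3 Cut.none Ext.none)

def k0_mm_033 : ∃ t, chk3 f_mm_033 t 1 1 1 = true :=
  ⟨(l 5), by decide +kernel⟩

theorem c_mm_033 : CertB 0 536870912 0 1230186008 1020054732 13421774 3 eng mog cd1q0 cd5q3 pd3 false false false .pnn 0 3 3
    ndB1q0 ndB5q3 pcB3 Cut.none Ext.none :=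
  certB0 (fam := false) (s1 := false) (s2 := false) (a := 0) (b := 3) (c := 3) (cn := .pnn) (n1 := ndB1q0) (n2 := ndB5q3) (pc := pcB3) (cut := Cut.none) (xt := Ext.none) (P1 := 0) (W1 := 536870912) (P2 := 0) (W2 := 1230186008) (P3 := 1020054732) (W3 := 13421774) (N0 := 3) (En := eng) (mo := mog) (C1 := cd1q0) (C2 := cd5q3) (C3 := pd3)
    rfl k0_mm_033

noncomputable def f_mm_101 : ℕ → ℕ → ℕ → ℕ → Bool := onCell 536870912 536870912 0 536870912 1020054732 13421774
    (rowB 3 eng mog cd1q1 cd5q1 pd0 1 false false false .npn 1 0 1 (qsf 536870912 536870912 536870912 536870912 0) ndB1q1 ndB5q1 pcB0 Cut.none Ext.none)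

def k0_mm_101 : ∃ t, chk3 f_mm_101 t 1 1 1 = true :=
  ⟨(l 3), by decide +kernel⟩

theorem c_mm_101 : CertB 536870912 536870912 536870912 536870912 1020054732 13421774 3 eng mog cd1q1 cd5q1 pd0 false false false .npn 1 0 1
    ndB1q1 ndB5q1 pcB0 Cut.none Ext.none :=
  certB1 (fam := false) (s1 := false) (s2 := false) (a := 1) (b := 0) (c := 1) (cn := .npn) (n1 := ndB1q1) (n2 := ndB5q1) (pc := pcB0) (cut := Cut.none) (xt := Ext.none) (P1 := 536870912) (W1 := 536870912) (P2 := 536870912) (W2 := 536870912) (P3 := 1020054732) (W3 := 13421774) (N0 := 3) (En := eng) (mo := mog) (C1 := cd1q1) (C2 := cd5q1) (C3 := pd0)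
    rfl (fun _ => rfl) k0_mm_101

noncomputable def f_mm_102 : ℕ → ℕ → ℕ → ℕ → Bool := onCell 536870912 536870912 1073741824 536870912 1020054732 13421774
    (rowB 3 eng mog cd1q1 cd5q2 pd0 0 false false false .npp 1 0 2 (qsf 536870912 536870912 1073741824 536870912 0) ndB1q1 ndB5q2 pcB0 Cut.none Ext.none)

def k0_mm_102 : ∃ t, chk3 f_mm_102 t 1 1 1 = true :=
  ⟨(l 3), by decide +kernel⟩

theorem c_mm_102 : CertB 536870912 536870912 1073741824 536870912 1020054732 13421774 3 eng mog cd1q1 cd5q2 pd0 false false false .npp 1 0 2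
    ndB1q1 ndB5q2 pcB0 Cut.none Ext.none :=
  certB0 (fam := false) (s1 := false) (s2 := false) (a := 1) (b := 0) (c := 2) (cn := .npp) (n1 := ndB1q1) (n2 := ndB5q2) (pc := pcB0) (cut := Cut.none) (xt := Ext.none) (P1 := 536870912) (W1 := 536870912) (P2 := 1073741824) (W2 := 536870912) (P3 := 1020054732) (W3 := 13421774) (N0 := 3) (En := eng) (mo := mog) (C1 := cd1q1) (C2 := cd5q2) (C3 := pd0)
    rfl k0_mm_102

noncomputable def f_mm_112 : ℕ → ℕ → ℕ → ℕ → Bool := onCell 536870912 536870912 1073741824 536870912 1020054732 13421774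
    (rowB 3 eng mog cd1q1 cd5q2 pd1 0 false false false .dn 1 1 2 (qsf 536870912 536870912 1073741824 536870912 1) ndB1q1 ndB5q2 pcB1 Cut.none Ext.none)

def k0_mm_112 : ∃ t, chk3 f_mm_112 t 1 1 1 = true :=
  ⟨(l 3), by decide +kernel⟩

theorem c_mm_112 : CertB 536870912 536870912 1073741824 536870912 1020054732 13421774 3 eng mog cd1q1 cd5q2 pd1 false false false .dn 1 1 2
    ndB1q1 ndB5q2 pcB1 Cut.none Ext.none :=
  certB0 (fam := false) (s1 := false) (s2 := false) (a := 1) (b := 1) (c := 2) (cn := .dn) (n1 := ndB1q1) (n2 := ndB5q2) (pc := pcB1) (cut := Cut.none) (xt := Ext.none) (P1 := 536870912) (W1 := 536870912) (P2 := 1073741824) (W2 := 536870912) (P3 := 1020054732) (W3 := 13421774) (N0 := 3) (En := eng) (mo := mog) (C1 := cd1q1) (C2 := cd5q2) (C3 := pd1)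
    rfl k0_mm_112

noncomputable def f_mm_113 : ℕ → ℕ → ℕ → ℕ → Bool := onCell 536870912 536870912 0 1230186008 1020054732 13421774
    (rowB 3 eng mog cd1q1 cd5q3 pd1 0 false false false .nn 1 1 3 (qsf 536870912 536870912 0 1230186008 1) ndB1q1 ndB5q3 pcB1 Cut.none Ext.none)

def k0_mm_113 : ∃ t, chk3 f_mm_113 t 1 1 1 = true :=
  ⟨(b (l 5) (b (l 5) (a (l 5) (l 3)))), by decide +kernel⟩

theorem c_mm_113 : CertB 536870912 536870912 0 1230186008 1020054732 13421774 3 eng mog cd1q1 cd5q3 pd1 false false false .nn 1 1 3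
    ndB1q1 ndB5q3 pcB1 Cut.none Ext.none :=
  certB0 (fam := false) (s1 := false) (s2 := false) (a := 1) (b := 1) (c := 3) (cn := .nn) (n1 := ndB1q1) (n2 := ndB5q3) (pc := pcB1) (cut := Cut.none) (xt := Ext.none) (P1 := 536870912) (W1 := 536870912) (P2 := 0) (W2 := 1230186008) (P3 := 1020054732) (W3 := 13421774) (N0 := 3) (En := eng) (mo := mog) (C1 := cd1q1) (C2 := cd5q3) (C3 := pd1)
    rfl k0_mm_113

noncomputable def f_mm_123 : ℕ → ℕ → ℕ → ℕ → Bool := onCell 1073741824 536870912 0 1230186008 1020054732 13421774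
    (rowB 3 eng mog cd1q1 cd5q3 pd2 2 false false false .npn 1 2 3 (qsf 536870912 536870912 0 1230186008 2) ndB1q1 ndB5q3 pcB2 Cut.none Ext.none)

def k0_mm_123 : ∃ t, chk3 f_mm_123 t 1 1 1 = true :=
  ⟨(b (l 5) (l 5)), by decide +kernel⟩

theorem c_mm_123 : CertB 536870912 536870912 0 1230186008 1020054732 13421774 3 eng mog cd1q1 cd5q3 pd2 false false false .npn 1 2 3
    ndB1q1 ndB5q3 pcB2 Cut.none Ext.none :=
  certB2 (fam := false) (s1 := false) (s2 := false) (a := 1) (b := 2) (c := 3) (cn := .npn) (n1 := ndB1q1) (n2 := ndB5q3) (pc := pcB2) (cut := Cut.none) (xt := Ext.none) (P1 := 536870912) (W1 := 536870912) (P2 := 0) (W2 := 1230186008) (P3 := 1020054732) (W3 := 13421774) (N0 := 3) (En := eng) (mo := mog) (C1 := cd1q1) (C2 := cd5q3) (C3 := pd2)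
    rfl (fun _ => rfl) k0_mm_123

noncomputable def f_mm_133 : ℕ → ℕ → ℕ → ℕ → Bool := onCell 536870912 536870912 0 1230186008 1020054732 13421774
    (rowB 3 eng mog cd1q1 cd5q3 pd3 0 false false false .dn 1 3 3 (qsf 536870912 536870912 0 1230186008 3) ndB1q1 ndB5q3 pcB3 Cut.none Ext.none)

def k0_mm_133 : ∃ t, chk3 f_mm_133 t 1 1 1 = true :=
  ⟨(b (l 5) (l 1)), by decide +kernel⟩

theorem c_mm_133 : CertB 536870912 536870912 0 1230186008 1020054732 13421774 3 eng mog cd1q1 cd5q3 pd3 false false false .dn 1 3 3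
    ndB1q1 ndB5q3 pcB3 Cut.none Ext.none :=
  certB0 (fam := false) (s1 := false) (s2 := false) (a := 1) (b := 3) (c := 3) (cn := .dn) (n1 := ndB1q1) (n2 := ndB5q3) (pc := pcB3) (cut := Cut.none) (xt := Ext.none) (P1 := 536870912) (W1 := 536870912) (P2 := 0) (W2 := 1230186008) (P3 := 1020054732) (W3 := 13421774) (N0 := 3) (En := eng) (mo := mog) (C1 := cd1q1) (C2 := cd5q3) (C3 := pd3)
    rfl k0_mm_133

noncomputable def cut_mm_202_a : Cut := Cut.of [[⟨0, 1, 0, 38347922⟩, ⟨1, 0, 0, 38347922⟩, ⟨2, 1, 0, 38347922⟩]]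

noncomputable def f_mm_202_a : ℕ → ℕ → ℕ → ℕ → Bool := onCell 0 536870912 0 536870912 1020054732 13421774
    (rowB 3 eng mog cd1q2a cd5q2 pd0 1 false false false .pp 2 0 2 (qsf 0 536870912 1073741824 536870912 0) ndB1q2a ndB5q2 pcB0 cut_mm_202_a Ext.none)

def k0_mm_202_a : ∃ t, chk3 f_mm_202_a t 4 1 1 = true :=
  ⟨(b (b (b (b (b (l 15937224) (b (l 15965968) (l 15981024))) (b (l 16022832) (l 16088904))) (b (l 16145184) (a (l 16143040) (b (l 16119752) (a (l 16233968) (l 16307216)))))) (b (b (a (b (l 16178824) (a (l 16160872) (l 16254504))) (b (l 16331880) (l 16413048))) (a (l 16314968) (b (l 16414656) (a (l 16525736) (l 16588800))))) (b (a (b (l 16441072) (a (l 16461368) (l 16553920))) (b (l 16478384) (l 16608656))) (a (b (a (l 16531512) (l 16580416)) (l 16573008)) (l 16624752))))) (b (b (a (b (l 16596880) (a (l 16607864) (l 16635856))) (b (a (l 16636016) (l 16662952)) (a (l 16662432) (b (l 16681144) (l 16696152))))) (b (a (a (l 16635744) (l 16662768)) (a (b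 (l 16683408) (l 16699240)) (b (l 16711800) (l 16707576)))) (b (a (l 390405529351) (a (l 16716016) (a (l 16738560) (b (l 16739336) (l 250349524183))))) (l 2)))) (l 2))), by decide +kernel⟩

def k1_mm_202_a : ∃ t, chk3 f_mm_202_a t 5 1 1 = true :=
  ⟨(b (b (b (b (b (l 16081824) (b (l 16185544) (a (l 16143616) (l 16248040)))) (b (b (l 16197088) (l 16231872)) (a (l 16250304) (a (l 16329488) (b (l 16372328) (a (l 16379808) (l 16415152))))))) (b (a (b (b (l 16279544) (l 16300320)) (a (l 16295080) (b (l 16337424) (l 16366168)))) (b (a (b (l 16363896) (l 16380904)) (l 16409632)) (l 16482264))) (a (b (b (l 16290032) (l 16395680)) (l 16453936)) (b (a (l 16516936) (b (l 16592952) (l 16592912))) (a (b (l 16581768) (l 16596416)) (l 16550496)))))) (b (b (a (b (a (l 16485992) (l 16499352)) (a (l 16567152) (l 16604832))) (b (a (l 16596024) (l 16599352)) (l 16610232))) (a (b (l 16488232) (l 16625056)) (b (a (l 16620216) (l 16633040)) (a (l 16636648) (l 16653384))))) (b (a (b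 (l 16641976) (a (l 16645512) (l 16658400))) (a (b (l 16653168) (l 16673184)) (b (l 16674024) (l 16692864)))) (a (a (l 16664320) (b (l 16676240) (l 16692664))) (a (b (l 16690176) (l 16705120)) (b (b (l 16704768) (l 251423172311)) (b (a (l 16713312) (l 259476281255)) (l 245517621639)))))))) (b (b (a (b (a (b (l 16680848) (l 16694280)) (b (l 16706272) (l 16717152))) (a (b (l 16708488) (l 16724144)) (b (b (l 16723240) (l 238001445959)) (a (b (l 16728112) (l 241759578823)) (l 258939469191))))) (b (a (b (b (l 16714040) (l 246054488055)) (a (b (l 16720696) (l 236927733047)) (l 244443944711))) (b (b (l 234780269175) (l 261623807479)) (l 3))) (a (b (a (l 251423271351) (l 3)) (l 3)) (l 3)))) (a (b (a (b (a (l 16733560) (b (l 16731840) (l 246591412023))) (a (b (l 16735584) (l 248202032503)) (l 275582478343))) (b (a (l 266992538199) (l 3)) (l 3))) (a (b (a (l 284172418695) (l 3)) (l 3)) (l 3))) (l 3))) (l 3))), by decide +kernel⟩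

def k2_mm_202_a : ∃ t, chk3 f_mm_202_a t 6 4 1 = true :=
  ⟨(b (a (b (b (l 16339880) (b (l 16353584) (l 16314440))) (b (b (a (l 16352928) (l 16351696)) (a (l 16393256) (l 16442104))) (b (a (l 16435544) (l 16518656)) (l 16521376)))) (b (b (a (l 16434224) (b (l 16492888) (a (l 16486176) (l 16523040)))) (b (a (l 16447376) (b (l 16486896) (l 16489736))) (b (a (l 16449800) (l 16527280)) (a (a (l 16435128) (l 16475232)) (l 16544880))))) (b (b (a (l 16493312) (l 16587864)) (a (l 16552696) (a (l 16621816) (l 16655640)))) (a (b (l 16605768) (a (l 16630488) (l 16594888))) (b (a (l 16633952) (l 16628584)) (a (b (l 16616632) (l 16614080)) (l 16630800))))))) (b (a (b (a (l 16537040) (b (l 16605504) (a (l 16620520) (l 16595976)))) (a (b (l 16600600) (l 16533320)) (b (a (l 16589560) (l 16592512)) (l 16593224)))) (a (b (b (a (l 16604400) (l 16608096)) (l 16608448)) (l 16617944)) (a (b (l 16604120) (b (l 16637144) (l 16645752))) (b (b (l 16638736) (l 16646368)) (b (l 16634968)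 (l 16648264)))))) (b (b (a (a (l 16588512) (l 16602368)) (a (l 16609168) (a (l 16657832) (l 16663536)))) (a (l 16599576) (a (l 16577024) (a (l 16672448) (l 16678056))))) (a (a (l 16600760) (b (l 16619464) (l 16606696))) (a (a (l 16584144) (l 16648144)) (a (b (l 16686944) (l 16679456)) (b (a (l 16706008) (l 16697840)) (a (l 16697728) (l 313700257495))))))))), by decide +kernel⟩

def k3_mm_202_a : ∃ t, chk3 f_mm_202_a t 6 5 1 = true :=
  ⟨(b (a (b (b (a (l 16617992) (a (l 16613776) (l 16610392))) (a (l 16636008) (a (l 16637424) (l 16657328)))) (a (b (l 16658672) (l 16680584)) (b (b (l 16665696) (l 16655648)) (a (b (l 16699072) (l 16708544)) (b (l 16694856) (l 267529343559)))))) (b (a (a (b (l 16652624) (l 16656584)) (b (b (l 16689640) (l 16681160)) (b (l 197736091063) (l 315310847175)))) (b (a (b (a (l 16707008) (l 16697688)) (a (l 16697736) (l 331416999271))) (b (a (l 322290192983) (l 3)) (l 3))) (a (b (l 326585179799) (l 3)) (l 3)))) (a (b (c (a (l 226727126391)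 (l 313163394231)) (a (l 280414212263) (l 316384619543))) (a (b (l 280951171527) (l 3)) (l 3))) (l 3)))) (a (b (a (b (a (l 16693192) (b (l 16702512) (l 16711008))) (a (b (l 16706056) (l 16692616)) (b (l 268603074311) (l 261623771463)))) (b (a (b (l 278266745079) (l 266455605431)) (l 274508708631)) (l 3))) (a (b (a (b (l 262697499991) (l 250886390103)) (l 3)) (l 3)) (l 3))) (l 3))), by decide +kernel⟩

def k4_mm_202_a : ∃ t, chk3 f_mm_202_a t 14 4 1 = true :=
  ⟨(b (b (b (a (b (b (l 16555632) (l 16522824)) (a (l 16488896) (l 16565192))) (b (b (a (l 16605408) (l 16631880)) (a (l 16605128) (l 16634256))) (b (l 16585792) (l 16579392)))) (b (a (a (l 16570304) (l 16590352)) (a (l 16653000) (b (l 16682360) (a (l 16697192) (l 16705856))))) (a (b (l 16618960) (l 16642848)) (a (b (l 16690112) (a (l 16679200) (b (l 16678568) (l 16674184)))) (b (a (l 16690912) (l 16699304)) (b (l 16692816) (l 16693536))))))) (a (b (b (a (l 16661584) (b (l 16672376) (l 16657760))) (a (b (l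 16648120) (l 16639576)) (b (l 16654808) (l 16658584)))) (b (l 16611752) (a (l 16650408) (l 16650632)))) (a (b (b (b (l 16672016) (l 16673760)) (l 16658408)) (b (a (l 16680400) (l 16672504)) (a (l 16669904) (l 16685896)))) (b (b (b (l 16674640) (a (l 16691984) (l 16704600))) (a (l 16676112) (b (l 16708320) (l 16713808)))) (b (a (l 16666968) (b (l 16699976) (l 16707744))) (a (b (l 16719648) (l 16705984)) (b (l 16715264) (l 291688588103)))))))) (b (a (a (b (b (l 16657760) (l 16647072)) (b (l 16661168) (l 16676672))) (b (b (c (l 16666200) (l 16656760)) (l 16675984)) (b (b (l 16687336) (l 16694784)) (a (l 16698352) (b (l 16709216) (l 329806402679)))))) (b (a (b (a (l 16684496) (l 16700608)) (a (l 16699336) (b (l 16711408) (l 331953887575)))) (a (c (b (l 304036592487) (l 306184117511)) (b (l 306184067255) (l 310479081831))) (b (b (l 309942211527) (l 3)) (l 3)))) (a (a (b (a (l 287393581783) (l 322290208199)) (l 309405334487)) (b (l 306184091159) (l 3))) (l 3)))) (a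 (b (b (a (b (l 16687784) (l 16694824)) (a (l 300815354119) (l 324974588535))) (a (a (l 16698064) (l 309405289095)) (l 3))) (a (b (a (l 309405289527) (l 3)) (l 3)) (l 3))) (l 3)))), by decide +kernel⟩

def k5_mm_202_a : ∃ t, chk3 f_mm_202_a t 30 8 1 = true :=
  ⟨(b (b (b (a (b (l 16659512) (l 16665304)) (b (l 6) (a (l 16690928) (l 6)))) (a (b (l 16657824) (l 16698944)) (b (a (l 16686296) (a (l 16722312) (l 6))) (a (b (l 16724240) (l 16733688)) (b (l 16718384) (l 16743168)))))) (b (b (a (a (l 16694432) (b (l 16726136) (l 16723696))) (a (l 16736376) (a (l 16743992) (b (l 16746184) (l 16748168))))) (a (a (l 16691752) (l 16724536)) (a (a (l 16735856) (l 16742968)) (a (l 16748544) (l 16731008))))) (a (a (l 16713544) (b (l 16727312) (l 16729128))) (a (b (a (l 16738344) (l 16745808)) (a (l 16740632) (l 16747776))) (a (b (l 16752464) (l 16755144)) (b (l 16736976) (a (l 16750088) (l 241759641223)))))))) (b (a (a (b (b (l 16695232) (l 16698184)) (b (l 16702752) (l 16709072)))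 (b (b (l 16731456) (l 16714024)) (b (b (l 16717880) (l 16720896)) (a (l 16721624) (l 265381929239))))) (b (a (b (a (l 16743048) (l 16751000)) (a (l 16726328) (l 298131060519))) (b (a (b (l 16757856) (l 16751576)) (l 327122117207)) (a (b (l 206863042935) (l 3)) (l 3)))) (a (b (a (l 312626568887) (b (l 205789295223) (l 3))) (a (l 272361264471) (l 3))) (l 3)))) (a (a (b (b (b (l 16714560) (l 16718408)) (a (l 16720160) (l 263771312615))) (a (b (l 365239910471) (l 3)) (l 3))) (b (b (a (l 265381926631) (l 319069033367)) (a (l 335712029623) (l 3))) (l 3))) (l 3)))), by decide +kernel⟩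

def k6_mm_202_a : ∃ t, chk3 f_mm_202_a t 31 8 1 = true :=
  ⟨(b (a (b (l 6) (b (a (b (a (b (l 16749696) (l 16752040)) (b (l 6) (l 16736296))) (a (l 16746152) (b (l 16749576) (a (l 16740472) (l 243370259927))))) (b (l 6) (a (b (a (l 246591485271) (l 6)) (l 321753405655)) (l 3)))) (a (b (a (b (l 16760632) (l 249275835159)) (b (l 287393674551) (l 330880231591))) (a (b (l 284709320983) (l 3)) (l 3))) (l 3)))) (b (l 6) (l 3))) (l 3)), by decide +kernel⟩

def k7_mm_202_a : ∃ t, chk3 f_mm_202_a t 15 9 1 = true :=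
  ⟨(l 3), by decide +kernel⟩

def k8_mm_202_a : ∃ t, chk3 f_mm_202_a t 7 5 1 = true :=
  ⟨(l 3), by decide +kernel⟩

def k9_mm_202_a : ∃ t, chk3 f_mm_202_a t 3 3 1 = true :=
  ⟨(l 3), by decide +kernel⟩

theorem s10_mm_202_a : ∃ t, chk3 f_mm_202_a t 15 8 1 = true := ex3_a k5_mm_202_a k6_mm_202_a

theorem s11_mm_202_a : ∃ t, chk3 f_mm_202_a t 15 4 1 = true := ex3_b s10_mm_202_a k7_mm_202_a

theorem s12_mm_202_a : ∃ t, chk3 f_mm_202_a t 7 4 1 = true := ex3_a k4_mm_202_a s11_mm_202_a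

theorem s13_mm_202_a : ∃ t, chk3 f_mm_202_a t 7 2 1 = true := ex3_b s12_mm_202_a k8_mm_202_a

theorem s14_mm_202_a : ∃ t, chk3 f_mm_202_a t 6 2 1 = true := ex3_b k2_mm_202_a k3_mm_202_a

theorem s15_mm_202_a : ∃ t, chk3 f_mm_202_a t 3 2 1 = true := ex3_a s14_mm_202_a s13_mm_202_a

theorem s16_mm_202_a : ∃ t, chk3 f_mm_202_a t 3 1 1 = true := ex3_b s15_mm_202_a k9_mm_202_a

theorem s17_mm_202_a : ∃ t, chk3 f_mm_202_a t 2 1 1 = true := ex3_a k0_mm_202_a k1_mm_202_a

theorem s18_mm_202_a : ∃ t, chk3 f_mm_202_a t 1 1 1 = true := ex3_a s17_mm_202_a s16_mm_202_a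

theorem c_mm_202_a : CertB 0 536870912 1073741824 536870912 1020054732 13421774 3 eng mog cd1q2a cd5q2 pd0 false false false .pp 2 0 2
    ndB1q2a ndB5q2 pcB0 cut_mm_202_a Ext.none :=
  certB1 (fam := false) (s1 := false) (s2 := false) (a := 2) (b := 0) (c := 2) (cn := .pp) (n1 := ndB1q2a) (n2 := ndB5q2) (pc := pcB0) (cut := cut_mm_202_a) (xt := Ext.none) (P1 := 0) (W1 := 536870912) (P2 := 1073741824) (W2 := 536870912) (P3 := 1020054732) (W3 := 13421774) (N0 := 3) (En := eng) (mo := mog) (C1 := cd1q2a) (C2 := cd5q2) (C3 := pd0)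
    rfl (fun _ => rfl) s18_mm_202_a

noncomputable def cut_mm_202_b : Cut := Cut.of [[⟨0, 1, 0, 38347922⟩, ⟨1, 0, 0, 38347922⟩, ⟨2, 1, 0, 38347922⟩]]

noncomputable def f_mm_202_b : ℕ → ℕ → ℕ → ℕ → Bool := onCell 0 536870912 1073741824 536870912 1020054732 13421774
    (rowB 3 eng mog cd1q2b cd5q2 pd0 2 false false false .pp 2 0 2 (qsf 1239849684 370763052 1073741824 536870912 0) ndB1q2b ndB5q2 pcB0 cut_mm_202_b Ext.none)

def k0_mm_202_b : ∃ t, chk3 f_mm_202_b t 1 1 1 = true :=
  ⟨(a (b (a (b (l 1) (a (a (a (b (l 15789592) (l 16004568)) (a (b (l 15778504) (l 15997808)) (b (l 15746592) (l 15989968)))) (b (a (l 348460294631) (l 1)) (a (l 15993448) (l 16007040)))) (b (l 1) (a (l 316248511607) (l 346849990999))))) (l 1)) (a (b (a (a (a (b (l 16157976) (l 16247472)) (a (b (l 16156824) (l 16253544)) (b (l 16153056) (l 16255104)))) (a (b (l 16160760) (l 16267352)) (b (l 16178984) (l 16289760)))) (b (a (l 16175144) (l 16142024)) (a (l 16298488) (b (l 16255592) (l 16322512)))))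 (a (a (a (l 15758152) (b (a (l 15998464) (l 16058104)) (a (l 15459688) (b (l 15829544) (l 15668784))))) (a (b (l 16103728) (l 15593832)) (b (b (l 16216672) (l 16063888)) (b (l 15902096) (l 15706624))))) (b (a (b (l 16320824) (l 16163904)) (b (l 16373248) (l 16255968))) (a (b (l 15962360) (l 15747456)) (b (l 15988128) (l 15870344)))))) (b (a (b (a (b (l 16026448) (l 16125512)) (b (l 1) (a (l 16064864) (l 1)))) (a (b (l 16033824) (l 16321968)) (l 16090504))) (b (l 1) (a (l 227665348919) (b (l 1) (l 16389896))))) (a (b (a (l 16441136) (b (l 16449064) (l 16376296))) (b (a (l 16069696) (l 16237416)) (l 16074640))) (b (b (a (l 16491304) (l 16377304)) (a (l 16483432) (l 16569000))) (l 16311776)))))) (b (l 1) (b (l 1) (a (b (a (a (b (l 16341656) (l 16571896)) (l 387653417719)) (l 1)) (a (b (l 16594288) (l 16602840)) (b (l 16370696) (l 16578168)))) (l 1))))), by decide +kernel⟩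

theorem c_mm_202_b : CertB 1239849684 370763052 1073741824 536870912 1020054732 13421774 3 eng mog cd1q2b cd5q2 pd0 false false false .pp 2 0 2
    ndB1q2b ndB5q2 pcB0 cut_mm_202_b Ext.none :=
  certB2 (fam := false) (s1 := false) (s2 := false) (a := 2) (b := 0) (c := 2) (cn := .pp) (n1 := ndB1q2b) (n2 := ndB5q2) (pc := pcB0) (cut := cut_mm_202_b) (xt := Ext.none) (P1 := 1239849684) (W1 := 370763052) (P2 := 1073741824) (W2 := 536870912) (P3 := 1020054732) (W3 := 13421774) (N0 := 3) (En := eng) (mo := mog) (C1 := cd1q2b) (C2 := cd5q2) (C3 := pd0)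
    rfl (fun _ => rfl) k0_mm_202_b

noncomputable def f_mm_203_a : ℕ → ℕ → ℕ → ℕ → Bool := onCell 0 536870912 0 1230186008 1020054732 13421774
    (rowB 3 eng mog cd1q2a cd5q3 pd0 0 false false false .up 2 0 3 (qsf 0 536870912 0 1230186008 0) ndB1q2a ndB5q3 pcB0 Cut.none Ext.none)

def k0_mm_203_a : ∃ t, chk3 f_mm_203_a t 1 1 1 = true :=
  ⟨(b (l 2) (b (l 2) (a (b (l 3) (a (b (a (b (a (b (a (b (l 3) (a (b (l 294909878503) (l 235854064839)) (l 3))) (l 3)) (a (b (a (l 16764368) (l 274508780791)) (l 16738632)) (b (l 3) (a (l 275045648167) (l 3))))) (l 3)) (a (b (a (l 16746016) (b (a (l 16762552) (l 275582515543)) (l 16736608))) (a (l 16727176) (l 16743640))) (b (a (b (l 3) (l 288467415399)) (l 3)) (a (b (a (l 16758960) (l 273971881047)) (l 16755248)) (b (l 3) (l 284709312375)))))) (l 3)) (b (a (b (a (l 16716192) (a (l 16740944) (b (a (l 16755168) (l 271287518871)) (l 16752632)))) (a (l 16696776) (a (l 16721392) (l 16737968)))) (a (b (a (b (l 3) (l 280414338439))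 (l 3)) (a (b (l 234243410199) (l 16749768)) (b (l 3) (l 275582493591)))) (l 3))) (a (a (b (l 16676896) (l 16659112)) (b (l 16709936) (l 16690432))) (a (b (a (l 16734768) (b (l 233169661703) (l 16746672))) (a (l 16714712) (l 16731376))) (b (a (b (l 308331620871) (l 270750648695)) (l 3)) (a (b (l 232632782727) (l 16743056)) (b (l 300815421927) (l 256255127319)))))))) (l 3))) (l 3)))), by decide +kernel⟩

theorem c_mm_203_a : CertB 0 536870912 0 1230186008 1020054732 13421774 3 eng mog cd1q2a cd5q3 pd0 false false false .up 2 0 3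
    ndB1q2a ndB5q3 pcB0 Cut.none Ext.none :=
  certB0 (fam := false) (s1 := false) (s2 := false) (a := 2) (b := 0) (c := 3) (cn := .up) (n1 := ndB1q2a) (n2 := ndB5q3) (pc := pcB0) (cut := Cut.none) (xt := Ext.none) (P1 := 0) (W1 := 536870912) (P2 := 0) (W2 := 1230186008) (P3 := 1020054732) (W3 := 13421774) (N0 := 3) (En := eng) (mo := mog) (C1 := cd1q2a) (C2 := cd5q3) (C3 := pd0)
    rfl k0_mm_203_a

end Pool.Agent.Strip051.G.I9500_9625.Tab.C.BB15

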