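import Pool.Agent.Strip051.G.I9500_9625.Tab
import Pool.Agent.Strip051.PB.ExtD3

/-! # Certificates B34 (generated) -/

set_option linter.all false
set_option maxRecDepth 100000

namespace Pool.Agent.Strip051.G.I9500_9625.Tab.C.BB23

open Pool.Agent.Strip051.PB Pool.Agent.Strip051.PB.T
open Pool.Agent.Strip051.G.I9500_9625.Tab

noncomputable def f_pm_123 : ℕ → ℕ → ℕ → ℕ → Bool := onCell 1073741824 536870912 0 1230186008 1020054732 13421774
    (rowB 3 eng mog cd2q1 cd3q3 pd2 2 false true false .npn 1 2 3 (qsf 536870912 536870912 0 1230186008 2) ndB2q1 ndB3q3 pcB2 Cut.none Ext.none)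

def k0_pm_123 : ∃ t, chk3 f_pm_123 t 1 1 1 = true :=
  ⟨(b (b (a (a (a (l 15453840) (b (l 15331800) (l 15329632))) (a (l 15114448) (l 15368032))) (a (a (b (l 15612256) (l 15755416)) (b (l 16045072) (l 16203624))) (a (b (l 16546400) (l 16598968)) (b (l 16702488) (l 4))))) (a (b (a (b (a (l 15485080) (l 15255400)) (a (l 15329528) (l 15086888))) (b (a (l 15260720) (l 15474888)) (a (l 15198536) (l 15484624)))) (a (a (l 14752560) (l 14843392)) (a (l 15107920) (l 15499080)))) (b (a (b (a (l 15842400) (l 16289736)) (a (l 15902216) (l 16308416))) (b (a (l 16589264) (l 4)) (l 4))) (a (a (l 15721352) (l 16229856)) (l 4))))) (a (a (b (a (b (l 14228000) (a (l 13679848) (l 13928320))) (b (l 14567800) (a (l 14206496) (l 14476192)))) (a (b (a (l 135519121863) (l 4)) (l 4)) (l 4))) (b (a (b (l 15000672) (a (l 14729416) (l 4))) (b (a (l 15343744) (l 15544848)) (l 4))) (l 4))) (b (b (l 4) (l 4)) (l 1)))), by decide +kernel⟩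

theorem c_pm_123 : CertB 536870912 536870912 0 1230186008 1020054732 13421774 3 eng mog cd2q1 cd3q3 pd2 false true false .npn 1 2 3
    ndB2q1 ndB3q3 pcB2 Cut.none Ext.none :=
  certB2 (fam := false) (s1 := true) (s2 := false) (a := 1) (b := 2) (c := 3) (cn := .npn) (n1 := ndB2q1) (n2 := ndB3q3) (pc := pcB2) (cut := Cut.none) (xt := Ext.none) (P1 := 536870912) (W1 := 536870912) (P2 := 0) (W2 := 1230186008) (P3 := 1020054732) (W3 := 13421774) (N0 := 3) (En := eng) (mo := mog) (C1 := cd2q1) (C2 := cd3q3) (C3 := pd2)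
    rfl (fun _ => rfl) k0_pm_123

noncomputable def f_pm_133 : ℕ → ℕ → ℕ → ℕ → Bool := onCell 1610612736 536870912 0 1230186008 1020054732 13421774
    (rowB 3 eng mog cd2q1 cd3q3 pd3 2 false true false .dn 1 3 3 (qsf 536870912 536870912 0 1230186008 3) ndB2q1 ndB3q3 pcB3 Cut.none Ext.none)

def k0_pm_133 : ∃ t, chk3 f_pm_133 t 1 1 1 = true :=
  ⟨(b (b (a (l 4) (l 1)) (l 1)) (l 1)), by decide +kernel⟩

theorem c_pm_133 : CertB 536870912 536870912 0 1230186008 1020054732 13421774 3 eng mog cd2q1 cd3q3 pd3 false true false .dn 1 3 3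
    ndB2q1 ndB3q3 pcB3 Cut.none Ext.none :=
  certB2 (fam := false) (s1 := true) (s2 := false) (a := 1) (b := 3) (c := 3) (cn := .dn) (n1 := ndB2q1) (n2 := ndB3q3) (pc := pcB3) (cut := Cut.none) (xt := Ext.none) (P1 := 536870912) (W1 := 536870912) (P2 := 0) (W2 := 1230186008) (P3 := 1020054732) (W3 := 13421774) (N0 := 3) (En := eng) (mo := mog) (C1 := cd2q1) (C2 := cd3q3) (C3 := pd3)
    rfl (fun _ => rfl) k0_pm_133

noncomputable def f_pm_202_a : ℕ → ℕ → ℕ → ℕ → Bool := onCell 0 536870912 0 536870912 1020054732 13421774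
    (rowB 3 eng mog cd2q2a cd3q2 pd0 1 false true false .pp 2 0 2 (qsf 0 536870912 1073741824 536870912 0) ndB2q2a ndB3q2 pcB0 Cut.none Ext.none)

def k0_pm_202_a : ∃ t, chk3 f_pm_202_a t 2 1 1 = true :=
  ⟨(l 3), by decide +kernel⟩

def k1_pm_202_a : ∃ t, chk3 f_pm_202_a t 6 1 1 = true :=
  ⟨(b (b (b (l 3) (l 3)) (l 3)) (l 3)), by decide +kernel⟩

def k2_pm_202_a : ∃ t, chk3 f_pm_202_a t 14 1 1 = true :=
  ⟨(a (b (b (a (b (b (b (b (b (a (l 16538448) (l 16506248)) (l 16533800)) (b (l 16566912) (l 16577776))) (b (l 16554320) (l 16598416))) (b (b (l 16584936) (l 16547848)) (l 16452688))) (b (l 3) (l 3))) (b (b (b (b (b (l 16553664) (a (l 16549736) (l 16588896))) (b (a (l 16579120) (l 16571384)) (l 16553840))) (b (b (l 16587192) (l 16620624)) (l 16587440))) (b (b (l 16573848) (l 16537760)) (b (l 16522496) (l 16487752)))) (b (b (l 16417304) (l 16375360)) (b (l 16316712) (l 16262200))))) (b (b (b (l 61906577223) (l 58148378919)) (b (l 57611409655) (l 3))) (l 3)))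 (b (l 3) (l 3))) (b (b (a (b (b (b (b (b (l 16590616) (l 16599328)) (b (l 16602856) (a (l 16593192) (l 16613232)))) (b (b (a (l 16623504) (l 16637248)) (l 16641552)) (l 16617536))) (b (b (l 16541600) (l 16549064)) (b (l 16535456) (l 16500776)))) (b (b (l 16449792) (l 16384648)) (b (l 16323432) (l 16266248)))) (b (b (b (b (b (l 16628776) (l 16663160)) (l 16610192)) (b (b (l 16631240) (a (l 16661664) (l 16663336))) (b (l 16611416) (b (l 16643392) (l 16634440))))) (b (a (l 16530040) (l 16533720)) (b (l 16544240) (l 16511072)))) (b (b (l 16397864) (l 16394824)) (b (l 16331088) (l 16271208))))) (c (b (b (b (l 16188920) (l 16135176)) (b (l 16085000) (l 16038288))) (b (l 15974576) (l 15900752))) (b (b (b (l 16239168) (l 16190072)) (l 16017696)) (b (l 16042864) (l 15974192))))) (b (b (b (c (l 15838776) (l 15915672)) (l 15658792)) (b (l 15785456) (l 15752584))) (b (b (l 15727088) (l 15708128)) (l 107539319847))))), by decide +kernel⟩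

def k3_pm_202_a : ∃ t, chk3 f_pm_202_a t 15 2 1 = true :=
  ⟨(b (b (b (b (a (b (b (b (l 16620312) (l 16650272)) (l 16630928)) (b (l 16610104) (l 16594200))) (b (a (b (a (l 16715472) (l 16711944)) (l 16638696)) (b (l 16679152) (a (l 16654824) (l 16669456)))) (a (b (l 16654712) (l 16632520)) (a (l 16631976) (b (l 16638112) (l 16611520)))))) (b (a (c (l 16575392) (l 16578080)) (a (l 16565016) (b (l 16594072) (l 16576232)))) (a (b (a (l 16641704) (l 16615640)) (a (a (l 16600176) (l 16631952)) (l 16610624))) (b (a (l 16589168) (l 16561984)) (a (l 16581384) (l 16551312)))))) (b (a (b (b (a (l 16605392) (l 16609520)) (a (l 16611424) (l 16585488))) (a (l 16584584) (c (l 16575464) (l 16581536)))) (b (a (l 16517272) (b (l 16549536) (l 16549960))) (a (b (l 16578656) (l 16554392)) (l 16507120)))) (a (a (l 16469872) (l 16475128)) (b (a (b (l 16545272) (l 16552200)) (b (l 16545920) (l 16542400))) (a (l 16525568) (a (l 16444400) (b (l 16531704) (l 16520240)))))))) (b (a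 (b (a (l 16424800) (l 16448664)) (a (l 16360416) (l 16404360))) (b (a (l 16430784) (l 16413152)) (c (l 16378872) (l 16432912)))) (a (b (c (l 16315024) (l 16364888)) (c (l 16250368) (l 16306064))) (b (c (l 16309808) (l 16370376)) (c (l 16243768) (l 16310408)))))) (b (b (a (b (c (l 16188384) (l 16249192)) (l 16099200)) (b (c (l 16180912) (l 16252816)) (c (l 16119704) (l 16196872)))) (a (c (l 16047800) (l 16119744)) (c (b (l 16060376) (l 16003528)) (l 16052896)))) (b (a (c (l 15950840) (l 16030296)) (c (l 15924008) (l 16016968))) (a (c (l 15867512) (l 15952688)) (c (l 15830872) (l 15929936)))))), by decide +kernel⟩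

def k4_pm_202_a : ∃ t, chk3 f_pm_202_a t 15 3 1 = true :=
  ⟨(b (b (b (a (c (l 15796992) (l 15886144)) (c (l 15750064) (l 15853896))) (a (l 15636792) (c (l 15681872) (l 15788824)))) (b (a (l 15715376) (c (l 15625480) (l 15733920))) (c (l 15533288) (l 15717040)))) (b (b (c (l 15585288) (l 15683232)) (c (l 15561952) (l 15656528))) (b (a (l 15630896) (l 15548632)) (a (l 15620440) (l 15534520))))), by decide +kernel⟩

theorem s5_pm_202_a : ∃ t, chk3 f_pm_202_a t 15 1 1 = true := ex3_b k3_pm_202_a k4_pm_202_a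

theorem s6_pm_202_a : ∃ t, chk3 f_pm_202_a t 7 1 1 = true := ex3_a k2_pm_202_a s5_pm_202_a

theorem s7_pm_202_a : ∃ t, chk3 f_pm_202_a t 3 1 1 = true := ex3_a k1_pm_202_a s6_pm_202_a

theorem s8_pm_202_a : ∃ t, chk3 f_pm_202_a t 1 1 1 = true := ex3_a k0_pm_202_a s7_pm_202_a

theorem c_pm_202_a : CertB 0 536870912 1073741824 536870912 1020054732 13421774 3 eng mog cd2q2a cd3q2 pd0 false true false .pp 2 0 2
    ndB2q2a ndB3q2 pcB0 Cut.none Ext.none :=
  certB1 (fam := false) (s1 := true) (s2 := false) (a := 2) (b := 0) (c := 2) (cn := .pp) (n1 := ndB2q2a) (n2 := ndB3q2) (pc := pcB0) (cut := Cut.none) (xt := Ext.none) (P1 := 0) (W1 := 536870912) (P2 := 1073741824) (W2 := 536870912) (P3 := 1020054732) (W3 := 13421774) (N0 := 3) (En := eng) (mo := mog) (C1 := cd2q2a) (C2 := cd3q2) (C3 := pd0)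
    rfl (fun _ => rfl) s8_pm_202_a

noncomputable def f_pm_202_b : ℕ → ℕ → ℕ → ℕ → Bool := onCell 1239849684 370763052 1073741824 536870912 1020054732 13421774
    (rowB 3 eng mog cd2q2b cd3q2 pd0 0 false true false .pp 2 0 2 (qsf 1239849684 370763052 1073741824 536870912 0) ndB2q2b ndB3q2 pcB0 Cut.none Ext.none)

def k0_pm_202_b : ∃ t, chk3 f_pm_202_b t 1 1 1 = true :=
  ⟨(l 3), by decide +kernel⟩

theorem c_pm_202_b : CertB 1239849684 370763052 1073741824 536870912 1020054732 13421774 3 eng mog cd2q2b cd3q2 pd0 false true false .pp 2 0 2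
    ndB2q2b ndB3q2 pcB0 Cut.none Ext.none :=
  certB0 (fam := false) (s1 := true) (s2 := false) (a := 2) (b := 0) (c := 2) (cn := .pp) (n1 := ndB2q2b) (n2 := ndB3q2) (pc := pcB0) (cut := Cut.none) (xt := Ext.none) (P1 := 1239849684) (W1 := 370763052) (P2 := 1073741824) (W2 := 536870912) (P3 := 1020054732) (W3 := 13421774) (N0 := 3) (En := eng) (mo := mog) (C1 := cd2q2b) (C2 := cd3q2) (C3 := pd0)
    rfl k0_pm_202_b

noncomputable def f_pm_203_a : ℕ → ℕ → ℕ → ℕ → Bool := onCell 0 536870912 0 1230186008 1020054732 13421774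
    (rowB 3 eng mog cd2q2a cd3q3 pd0 0 false true false .up 2 0 3 (qsf 0 536870912 0 1230186008 0) ndB2q2a ndB3q3 pcB0 Cut.none Ext.none)

def k0_pm_203_a : ∃ t, chk3 f_pm_203_a t 1 1 1 = true :=
  ⟨(b (l 2) (b (l 2) (a (l 3) (b (l 2) (a (l 3) (b (a (l 3) (l 2)) (a (b (l 3) (l 3)) (b (a (l 16140224) (l 2)) (a (l 16202832) (l 16085880)))))))))), by decide +kernel⟩

theorem c_pm_203_a : CertB 0 536870912 0 1230186008 1020054732 13421774 3 eng mog cd2q2a cd3q3 pd0 false true false .up 2 0 3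
    ndB2q2a ndB3q3 pcB0 Cut.none Ext.none :=
  certB0 (fam := false) (s1 := true) (s2 := false) (a := 2) (b := 0) (c := 3) (cn := .up) (n1 := ndB2q2a) (n2 := ndB3q3) (pc := pcB0) (cut := Cut.none) (xt := Ext.none) (P1 := 0) (W1 := 536870912) (P2 := 0) (W2 := 1230186008) (P3 := 1020054732) (W3 := 13421774) (N0 := 3) (En := eng) (mo := mog) (C1 := cd2q2a) (C2 := cd3q3) (C3 := pd0)
    rfl k0_pm_203_a

noncomputable def f_pm_203_b : ℕ → ℕ → ℕ → ℕ → Bool := onCell 1239849684 370763052 0 1230186008 1020054732 13421774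
    (rowB 3 eng mog cd2q2b cd3q3 pd0 0 false true false .up 2 0 3 (qsf 1239849684 370763052 0 1230186008 0) ndB2q2b ndB3q3 pcB0 Cut.none Ext.none)

def k0_pm_203_b : ∃ t, chk3 f_pm_203_b t 1 1 1 = true :=
  ⟨(b (l 3) (l 3)), by decide +kernel⟩

theorem c_pm_203_b : CertB 1239849684 370763052 0 1230186008 1020054732 13421774 3 eng mog cd2q2b cd3q3 pd0 false true false .up 2 0 3
    ndB2q2b ndB3q3 pcB0 Cut.none Ext.none :=
  certB0 (fam := false) (s1 := true) (s2 := false) (a := 2) (b := 0) (c := 3) (cn := .up) (n1 := ndB2q2b) (n2 := ndB3q3) (pc := pcB0) (cut := Cut.none) (xt := Ext.none) (P1 := 1239849684) (W1 := 370763052) (P2 := 0) (W2 := 1230186008) (P3 := 1020054732) (W3 := 13421774) (N0 := 3) (En := eng) (mo := mog) (C1 := cd2q2b) (C2 := cd3q3) (C3 := pd0)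
    rfl k0_pm_203_b

noncomputable def cut_pm_213_a : Cut := Cut.of [[⟨0, 1, 0, 26738688⟩, ⟨1, 1, 0, 26738688⟩, ⟨2, 2, 0, 2621440⟩]]

noncomputable def xt_pm_213_a : Ext := extD3 3 ⟨4, 1, 1, 5, 99, 20, 33, 40, 51, 125, 1, 32⟩ eng cd2q2a cd3q3 pd1 false true false .pnn 2 1 3 rfl ndB2q2a ndB3q3 pcB1

noncomputable def f_pm_213_a : ℕ → ℕ → ℕ → ℕ → Bool := onCell 0 536870912 0 1230186008 1020054732 13421774
    (rowB 3 eng mog cd2q2a cd3q3 pd1 0 false true false .pnn 2 1 3 (qsf 0 536870912 0 1230186008 1) ndB2q2a ndB3q3 pcB1 cut_pm_213_a xt_pm_213_a)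

def k0_pm_213_a : ∃ t, chk3 f_pm_213_a t 2 1 1 = true :=
  ⟨(b (l 3) (l 3)), by decide +kernel⟩

def k1_pm_213_a : ∃ t, chk3 f_pm_213_a t 6 1 1 = true :=
  ⟨(b (l 3) (b (l 3) (l 3))), by decide +kernel⟩

def k2_pm_213_a : ∃ t, chk3 f_pm_213_a t 14 1 1 = true :=
  ⟨(b (b (l 3) (l 3)) (b (b (l 3) (l 3)) (b (l 3) (b (l 3) (b (l 3) (l 1)))))), by decide +kernel⟩

def k3_pm_213_a : ∃ t, chk3 f_pm_213_a t 30 1 1 = true :=
  ⟨(b (b (l 3) (b (l 3) (l 3))) (b (b (b (l 3) (l 3)) (b (b (l 3) (c (l 967607583815) (l 963849141655))) (a (l 3) (a (l 3) (b (l 15888496) (l 15806784)))))) (b (c (b (b (l 188070389399) (l 187533541687)) (b (l 186459865767) (l 185923051191))) (b (b (l 190217915991) (l 188607369991)) (b (l 15843264) (l 15913536)))) (b (b (c (l 184849398631) (l 16072936)) (c (l 15865656) (l 16132808))) (b (a (l 152637384135) (l 15954048)) (c (l 16055240) (l 16269200))))))), by decide +kernel⟩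

def k4_pm_213_a : ∃ t, chk3 f_pm_213_a t 31 4 1 = true :=
  ⟨(a (b (l 3) (l 3)) (b (b (l 6) (a (l 3) (a (a (l 3) (b (l 8474569995642488440834457695) (a (l 8416541556300990294901784671) (b (l 5234648799075370419727827039) (l 602323519668839004366431))))) (b (b (b (l 6) (a (a (l 7913628415341401658862731359) (l 602791894005690123167327)) (c (l 16758632) (l 16757560)))) (a (c (l 602769123815182570137183) (l 602560445008005320992351)) (c (l 16770040) (l 16769096)))) (a (b (l 602359548443936459531871) (l 602152022575787290961503)) (b (c (l 16760448) (l 16760416)) (c (l 16761384) (l 16762424)))))))) (b (a (b (l 3) (l 3)) (b (a (b (a (l 3) (l 883117676082090091758069343)) (a (l 6154033354934776510159070815) (l 601923744089425258620511))) (b (c (l 601061070579238204155487) (l 600178220927533501392479)) (c (l 16771384) (l 16768776)))) (a (b (a (l 2101713898058928684041086559) (l 602304784596257763993183)) (c (l 601269461034130909914719) (l 600875161865124272825951)))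 (b (c (l 16759104) (l 16757672)) (c (l 16756368) (l 16754768)))))) (a (a (l 3) (b (b (a (l 3) (l 8068370920251773820320481503)) (l 5157277546619516557346537695)) (b (a (l 3) (l 1888940520853725540645086431)) (a (l 5128861974522277722574136927) (l 598336716468054295324255))))) (a (b (b (c (l 600633336531704270480991) (l 601055594005210010936927)) (l 600373640877098332104415)) (b (l 600220014009574965864159) (b (l 600182255766596126270687) (l 600549172971253256824031)))) (b (b (c (l 16752592) (l 16750176)) (c (l 16747888) (l 16743744))) (b (l 598295932679206844651039) (l 598691096524910869534239)))))))), by decide +kernel⟩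

def k5_pm_213_a : ∃ t, chk3 f_pm_213_a t 31 5 1 = true :=
  ⟨(b (a (b (l 3) (b (l 3) (l 3))) (b (b (a (a (l 3) (b (b (l 599808997254863385174111) (a (l 600920989948543780364319) (l 601982687420563351588895))) (a (l 2856082239827062890844823583) (l 601505232907740446908447)))) (b (c (b (l 598935659301916492080351) (l 598362369006853636629727)) (b (l 597745267880914211825247) (l 597942562238044828389407))) (a (l 601918700277057684787231) (l 599101536580550881234975)))) (a (a (b (l 9480993615992127937362337823) (l 3049506839853947807981248543)) (b (l 598441343980385512087583) (l 596520287527382807732255))) (b (l 599348981287071698559007) (l 598586035454460072910879)))) (c (b (a (b (l 592529160922426641850399) (l 586386682063302950412831)) (l 596811976613622524846111)) (b (l 587996159559319558873631) (l 579845867970223091950111))) (b (a (b (l 583421078776535757529631) (l 578079304061172262756895)) (l 590799776503532573042207)) (b (l 577932882063272723636767)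 (c (l 16128136) (l 16046008))))))) (b (a (a (l 3) (a (l 3) (b (c (l 741048608023) (l 16126440)) (b (l 15957088) (l 15908568))))) (b (b (c (a (l 16147664) (l 16176056)) (b (l 16026480) (l 15989328))) (c (c (l 16112952) (l 16042440)) (l 15938064))) (c (b (l 16068544) (l 15942584)) (b (l 15877568) (l 15825112))))) (a (a (l 3) (b (c (l 224578354695) (l 15871632)) (c (l 15828304) (l 15752080)))) (b (c (b (l 15887576) (l 15839792)) (b (l 15779896) (l 15741224))) (c (l 15801064) (l 15694152)))))), by decide +kernel⟩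

def k6_pm_213_a : ∃ t, chk3 f_pm_213_a t 31 3 1 = true :=
  ⟨(b (a (b (b (b (c (a (l 3) (l 15775736)) (l 210082562151)) (c (l 198808313799) (l 206861276567))) (b (c (l 197197653479) (l 15819104)) (c (l 15719784) (l 15691528)))) (b (b (c (l 15716864) (l 15699360)) (c (l 15722720) (l 15715744))) (b (c (l 15736552) (l 15739840)) (c (l 15757760) (l 15771024))))) (b (b (b (c (l 15720064) (l 15649192)) (c (l 15678784) (l 15621496))) (b (c (l 15653256) (l 15608440)) (c (l 15641160) (l 15607904)))) (b (b (c (l 15640664) (l 15618248)) (l 15832384)) (b (l 15667152) (l 15698552))))) (b (b (b (c (l 15758648) (l 15735784)) (c (l 15796568) (l 15824200))) (b (c (l 15841000) (l 15876504)) (c (l 15891776) (l 15934288)))) (b (b (c (l 15948800) (l 15955304)) (c (l 15991080) (l 16065088))) (b (c (l 16081472) (l 16137424)) (c (l 16156904) (l 16213736)))))), by decide +kernel⟩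

theorem s7_pm_213_a : ∃ t, chk3 f_pm_213_a t 31 2 1 = true := ex3_b k4_pm_213_a k5_pm_213_a

theorem s8_pm_213_a : ∃ t, chk3 f_pm_213_a t 31 1 1 = true := ex3_b s7_pm_213_a k6_pm_213_a

theorem s9_pm_213_a : ∃ t, chk3 f_pm_213_a t 15 1 1 = true := ex3_a k3_pm_213_a s8_pm_213_a

theorem s10_pm_213_a : ∃ t, chk3 f_pm_213_a t 7 1 1 = true := ex3_a k2_pm_213_a s9_pm_213_a

theorem s11_pm_213_a : ∃ t, chk3 f_pm_213_a t 3 1 1 = true := ex3_a k1_pm_213_a s10_pm_213_a

theorem s12_pm_213_a : ∃ t, chk3 f_pm_213_a t 1 1 1 = true := ex3_a k0_pm_213_a s11_pm_213_a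

theorem c_pm_213_a : CertB 0 536870912 0 1230186008 1020054732 13421774 3 eng mog cd2q2a cd3q3 pd1 false true false .pnn 2 1 3
    ndB2q2a ndB3q3 pcB1 cut_pm_213_a xt_pm_213_a :=
  certB0 (fam := false) (s1 := true) (s2 := false) (a := 2) (b := 1) (c := 3) (cn := .pnn) (n1 := ndB2q2a) (n2 := ndB3q3) (pc := pcB1) (cut := cut_pm_213_a) (xt := xt_pm_213_a) (P1 := 0) (W1 := 536870912) (P2 := 0) (W2 := 1230186008) (P3 := 1020054732) (W3 := 13421774) (N0 := 3) (En := eng) (mo := mog) (C1 := cd2q2a) (C2 := cd3q3) (C3 := pd1)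
    rfl s12_pm_213_a

noncomputable def cut_pm_213_b : Cut := Cut.of [[⟨0, 1, 0, 26738688⟩, ⟨1, 1, 0, 26738688⟩, ⟨2, 2, 0, 2621440⟩]]

noncomputable def f_pm_213_b : ℕ → ℕ → ℕ → ℕ → Bool := onCell 1239849684 370763052 0 1230186008 1020054732 13421774
    (rowB 3 eng mog cd2q2b cd3q3 pd1 0 false true false .pnn 2 1 3 (qsf 1239849684 370763052 0 1230186008 1) ndB2q2b ndB3q3 pcB1 cut_pm_213_b Ext.none)

def k0_pm_213_b : ∃ t, chk3 f_pm_213_b t 1 1 1 = true :=
  ⟨(b (l 3) (l 3)), by decide +kernel⟩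

theorem c_pm_213_b : CertB 1239849684 370763052 0 1230186008 1020054732 13421774 3 eng mog cd2q2b cd3q3 pd1 false true false .pnn 2 1 3
    ndB2q2b ndB3q3 pcB1 cut_pm_213_b Ext.none :=
  certB0 (fam := false) (s1 := true) (s2 := false) (a := 2) (b := 1) (c := 3) (cn := .pnn) (n1 := ndB2q2b) (n2 := ndB3q3) (pc := pcB1) (cut := cut_pm_213_b) (xt := Ext.none) (P1 := 1239849684) (W1 := 370763052) (P2 := 0) (W2 := 1230186008) (P3 := 1020054732) (W3 := 13421774) (N0 := 3) (En := eng) (mo := mog) (C1 := cd2q2b) (C2 := cd3q3) (C3 := pd1)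
    rfl k0_pm_213_b

noncomputable def f_pm_303 : ℕ → ℕ → ℕ → ℕ → Bool := onCell 1610612736 536870912 0 1230186008 1020054732 13421774
    (rowB 3 eng mog cd2q3 cd3q3 pd0 0 false true false .npn 3 0 3 (qsf 1610612736 536870912 0 1230186008 0) ndB2q3 ndB3q3 pcB0 Cut.none Ext.none)

def k0_pm_303 : ∃ t, chk3 f_pm_303 t 1 1 1 = true :=
  ⟨(b (l 3) (l 3)), by decide +kernel⟩

theorem c_pm_303 : CertB 1610612736 536870912 0 1230186008 1020054732 13421774 3 eng mog cd2q3 cd3q3 pd0 false true false .npn 3 0 3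
    ndB2q3 ndB3q3 pcB0 Cut.none Ext.none :=
  certB0 (fam := false) (s1 := true) (s2 := false) (a := 3) (b := 0) (c := 3) (cn := .npn) (n1 := ndB2q3) (n2 := ndB3q3) (pc := pcB0) (cut := Cut.none) (xt := Ext.none) (P1 := 1610612736) (W1 := 536870912) (P2 := 0) (W2 := 1230186008) (P3 := 1020054732) (W3 := 13421774) (N0 := 3) (En := eng) (mo := mog) (C1 := cd2q3) (C2 := cd3q3) (C3 := pd0)
    rfl k0_pm_303

noncomputable def f_pm_313 : ℕ → ℕ → ℕ → ℕ → Bool := onCell 1610612736 536870912 0 1230186008 1020054732 13421774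
    (rowB 3 eng mog cd2q3 cd3q3 pd1 0 false true false .dn 3 1 3 (qsf 1610612736 536870912 0 1230186008 1) ndB2q3 ndB3q3 pcB1 Cut.none Ext.none)

def k0_pm_313 : ∃ t, chk3 f_pm_313 t 1 1 1 = true :=
  ⟨(b (l 3) (l 1)), by decide +kernel⟩

theorem c_pm_313 : CertB 1610612736 536870912 0 1230186008 1020054732 13421774 3 eng mog cd2q3 cd3q3 pd1 false true false .dn 3 1 3
    ndB2q3 ndB3q3 pcB1 Cut.none Ext.none :=
  certB0 (fam := false) (s1 := true) (s2 := false) (a := 3) (b := 1) (c := 3) (cn := .dn) (n1 := ndB2q3) (n2 := ndB3q3) (pc := pcB1) (cut := Cut.none) (xt := Ext.none) (P1 := 1610612736) (W1 := 536870912) (P2 := 0) (W2 := 1230186008) (P3 := 1020054732) (W3 := 13421774) (N0 := 3) (En := eng) (mo := mog) (C1 := cd2q3) (C2 := cd3q3) (C3 := pd1)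
    rfl k0_pm_313

noncomputable def f_mm_001 : ℕ → ℕ → ℕ → ℕ → Bool := onCell 0 536870912 0 536870912 1020054732 13421774
    (rowB 3 eng mog cd2q0 cd3q1 pd0 1 false false false .up 0 0 1 (qsf 0 536870912 536870912 536870912 0) ndB2q0 ndB3q1 pcB0 Cut.none Ext.none)

def k0_mm_001 : ∃ t, chk3 f_mm_001 t 1 1 1 = true :=
  ⟨(l 3), by decide +kernel⟩

theorem c_mm_001 : CertB 0 536870912 536870912 536870912 1020054732 13421774 3 eng mog cd2q0 cd3q1 pd0 false false false .up 0 0 1
    ndB2q0 ndB3q1 pcB0 Cut.none Ext.none :=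
  certB1 (fam := false) (s1 := false) (s2 := false) (a := 0) (b := 0) (c := 1) (cn := .up) (n1 := ndB2q0) (n2 := ndB3q1) (pc := pcB0) (cut := Cut.none) (xt := Ext.none) (P1 := 0) (W1 := 536870912) (P2 := 536870912) (W2 := 536870912) (P3 := 1020054732) (W3 := 13421774) (N0 := 3) (En := eng) (mo := mog) (C1 := cd2q0) (C2 := cd3q1) (C3 := pd0)
    rfl (fun _ => rfl) k0_mm_001

noncomputable def f_mm_011 : ℕ → ℕ → ℕ → ℕ → Bool := onCell 0 536870912 536870912 536870912 1020054732 13421774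
    (rowB 3 eng mog cd2q0 cd3q1 pd1 1 false false false .pnn 0 1 1 (qsf 0 536870912 536870912 536870912 1) ndB2q0 ndB3q1 pcB1 Cut.none Ext.none)

def k0_mm_011 : ∃ t, chk3 f_mm_011 t 1 1 1 = true :=
  ⟨(l 5), by decide +kernel⟩

theorem c_mm_011 : CertB 0 536870912 536870912 536870912 1020054732 13421774 3 eng mog cd2q0 cd3q1 pd1 false false false .pnn 0 1 1
    ndB2q0 ndB3q1 pcB1 Cut.none Ext.none :=
  certB1 (fam := false) (s1 := false) (s2 := false) (a := 0) (b := 1) (c := 1) (cn := .pnn) (n1 := ndB2q0) (n2 := ndB3q1) (pc := pcB1) (cut := Cut.none) (xt := Ext.none) (P1 := 0) (W1 := 536870912) (P2 := 536870912) (W2 := 536870912) (P3 := 1020054732) (W3 := 13421774) (N0 := 3) (En := eng) (mo := mog) (C1 := cd2q0) (C2 := cd3q1) (C3 := pd1)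
    rfl (fun _ => rfl) k0_mm_011

noncomputable def f_mm_012 : ℕ → ℕ → ℕ → ℕ → Bool := onCell 0 536870912 1073741824 536870912 1020054732 13421774
    (rowB 3 eng mog cd2q0 cd3q2 pd1 0 false false false .pnp 0 1 2 (qsf 0 536870912 1073741824 536870912 1) ndB2q0 ndB3q2 pcB1 Cut.none Ext.none)

def k0_mm_012 : ∃ t, chk3 f_mm_012 t 1 1 1 = true :=
  ⟨(l 5), by decide +kernel⟩

theorem c_mm_012 : CertB 0 536870912 1073741824 536870912 1020054732 13421774 3 eng mog cd2q0 cd3q2 pd1 false false false .pnp 0 1 2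
    ndB2q0 ndB3q2 pcB1 Cut.none Ext.none :=
  certB0 (fam := false) (s1 := false) (s2 := false) (a := 0) (b := 1) (c := 2) (cn := .pnp) (n1 := ndB2q0) (n2 := ndB3q2) (pc := pcB1) (cut := Cut.none) (xt := Ext.none) (P1 := 0) (W1 := 536870912) (P2 := 1073741824) (W2 := 536870912) (P3 := 1020054732) (W3 := 13421774) (N0 := 3) (En := eng) (mo := mog) (C1 := cd2q0) (C2 := cd3q2) (C3 := pd1)
    rfl k0_mm_012

noncomputable def f_mm_022 : ℕ → ℕ → ℕ → ℕ → Bool := onCell 0 536870912 1073741824 536870912 1020054732 13421774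
    (rowB 3 eng mog cd2q0 cd3q2 pd2 0 false false false .pp 0 2 2 (qsf 0 536870912 1073741824 536870912 2) ndB2q0 ndB3q2 pcB2 Cut.none Ext.none)

def k0_mm_022 : ∃ t, chk3 f_mm_022 t 1 1 1 = true :=
  ⟨(l 5), by decide +kernel⟩

theorem c_mm_022 : CertB 0 536870912 1073741824 536870912 1020054732 13421774 3 eng mog cd2q0 cd3q2 pd2 false false false .pp 0 2 2
    ndB2q0 ndB3q2 pcB2 Cut.none Ext.none :=
  certB0 (fam := false) (s1 := false) (s2 := false) (a := 0) (b := 2) (c := 2) (cn := .pp) (n1 := ndB2q0) (n2 := ndB3q2) (pc := pcB2) (cut := Cut.none) (xt := Ext.none) (P1 := 0) (W1 := 536870912) (P2 := 1073741824) (W2 := 536870912) (P3 := 1020054732) (W3 := 13421774) (N0 := 3) (En := eng) (mo := mog) (C1 := cd2q0) (C2 := cd3q2) (C3 := pd2)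
    rfl k0_mm_022

noncomputable def f_mm_023 : ℕ → ℕ → ℕ → ℕ → Bool := onCell 0 536870912 0 1230186008 1020054732 13421774
    (rowB 3 eng mog cd2q0 cd3q3 pd2 0 false false false .up 0 2 3 (qsf 0 536870912 0 1230186008 2) ndB2q0 ndB3q3 pcB2 Cut.none Ext.none)

def k0_mm_023 : ∃ t, chk3 f_mm_023 t 1 1 1 = true :=
  ⟨(l 5), by decide +kernel⟩

theorem c_mm_023 : CertB 0 536870912 0 1230186008 1020054732 13421774 3 eng mog cd2q0 cd3q3 pd2 false false false .up 0 2 3
    ndB2q0 ndB3q3 pcB2 Cut.none Ext.none :=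
  certB0 (fam := false) (s1 := false) (s2 := false) (a := 0) (b := 2) (c := 3) (cn := .up) (n1 := ndB2q0) (n2 := ndB3q3) (pc := pcB2) (cut := Cut.none) (xt := Ext.none) (P1 := 0) (W1 := 536870912) (P2 := 0) (W2 := 1230186008) (P3 := 1020054732) (W3 := 13421774) (N0 := 3) (En := eng) (mo := mog) (C1 := cd2q0) (C2 := cd3q3) (C3 := pd2)
    rfl k0_mm_023

noncomputable def f_mm_033 : ℕ → ℕ → ℕ → ℕ → Bool := onCell 0 536870912 0 1230186008 1020054732 13421774
    (rowB 3 eng mog cd2q0 cd3q3 pd3 0 false false false .pnn 0 3 3 (qsf 0 536870912 0 1230186008 3) ndB2q0 ndB3q3 pcB3 Cut.none Ext.none)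

def k0_mm_033 : ∃ t, chk3 f_mm_033 t 1 1 1 = true :=
  ⟨(l 5), by decide +kernel⟩

theorem c_mm_033 : CertB 0 536870912 0 1230186008 1020054732 13421774 3 eng mog cd2q0 cd3q3 pd3 false false false .pnn 0 3 3
    ndB2q0 ndB3q3 pcB3 Cut.none Ext.none :=
  certB0 (fam := false) (s1 := false) (s2 := false) (a := 0) (b := 3) (c := 3) (cn := .pnn) (n1 := ndB2q0) (n2 := ndB3q3) (pc := pcB3) (cut := Cut.none) (xt := Ext.none) (P1 := 0) (W1 := 536870912) (P2 := 0) (W2 := 1230186008) (P3 := 1020054732) (W3 := 13421774) (N0 := 3) (En := eng) (mo := mog) (C1 := cd2q0) (C2 := cd3q3) (C3 := pd3)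
    rfl k0_mm_033

noncomputable def f_mm_101 : ℕ → ℕ → ℕ → ℕ → Bool := onCell 536870912 536870912 536870912 536870912 1020054732 13421774
    (rowB 3 eng mog cd2q1 cd3q1 pd0 0 false false false .npn 1 0 1 (qsf 536870912 536870912 536870912 536870912 0) ndB2q1 ndB3q1 pcB0 Cut.none Ext.none)

def k0_mm_101 : ∃ t, chk3 f_mm_101 t 1 1 1 = true :=
  ⟨(l 3), by decide +kernel⟩

theorem c_mm_101 : CertB 536870912 536870912 536870912 536870912 1020054732 13421774 3 eng mog cd2q1 cd3q1 pd0 false false false .npn 1 0 1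
    ndB2q1 ndB3q1 pcB0 Cut.none Ext.none :=
  certB0 (fam := false) (s1 := false) (s2 := false) (a := 1) (b := 0) (c := 1) (cn := .npn) (n1 := ndB2q1) (n2 := ndB3q1) (pc := pcB0) (cut := Cut.none) (xt := Ext.none) (P1 := 536870912) (W1 := 536870912) (P2 := 536870912) (W2 := 536870912) (P3 := 1020054732) (W3 := 13421774) (N0 := 3) (En := eng) (mo := mog) (C1 := cd2q1) (C2 := cd3q1) (C3 := pd0)
    rfl k0_mm_101

noncomputable def f_mm_102 : ℕ → ℕ → ℕ → ℕ → Bool := onCell 536870912 536870912 1073741824 536870912 1020054732 13421774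
    (rowB 3 eng mog cd2q1 cd3q2 pd0 0 false false false .npp 1 0 2 (qsf 536870912 536870912 1073741824 536870912 0) ndB2q1 ndB3q2 pcB0 Cut.none Ext.none)

def k0_mm_102 : ∃ t, chk3 f_mm_102 t 1 1 1 = true :=
  ⟨(l 5), by decide +kernel⟩

theorem c_mm_102 : CertB 536870912 536870912 1073741824 536870912 1020054732 13421774 3 eng mog cd2q1 cd3q2 pd0 false false false .npp 1 0 2
    ndB2q1 ndB3q2 pcB0 Cut.none Ext.none :=
  certB0 (fam := false) (s1 := false) (s2 := false) (a := 1) (b := 0) (c := 2) (cn := .npp) (n1 := ndB2q1) (n2 := ndB3q2) (pc := pcB0) (cut := Cut.none) (xt := Ext.none) (P1 := 536870912) (W1 := 536870912) (P2 := 1073741824) (W2 := 536870912) (P3 := 1020054732) (W3 := 13421774) (N0 := 3) (En := eng) (mo := mog) (C1 := cd2q1) (C2 := cd3q2) (C3 := pd0)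
    rfl k0_mm_102

noncomputable def f_mm_112 : ℕ → ℕ → ℕ → ℕ → Bool := onCell 536870912 536870912 1073741824 536870912 1020054732 13421774
    (rowB 3 eng mog cd2q1 cd3q2 pd1 0 false false false .dn 1 1 2 (qsf 536870912 536870912 1073741824 536870912 1) ndB2q1 ndB3q2 pcB1 Cut.none Ext.none)

def k0_mm_112 : ∃ t, chk3 f_mm_112 t 1 1 1 = true :=
  ⟨(l 5), by decide +kernel⟩

theorem c_mm_112 : CertB 536870912 536870912 1073741824 536870912 1020054732 13421774 3 eng mog cd2q1 cd3q2 pd1 false false false .dn 1 1 2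
    ndB2q1 ndB3q2 pcB1 Cut.none Ext.none :=
  certB0 (fam := false) (s1 := false) (s2 := false) (a := 1) (b := 1) (c := 2) (cn := .dn) (n1 := ndB2q1) (n2 := ndB3q2) (pc := pcB1) (cut := Cut.none) (xt := Ext.none) (P1 := 536870912) (W1 := 536870912) (P2 := 1073741824) (W2 := 536870912) (P3 := 1020054732) (W3 := 13421774) (N0 := 3) (En := eng) (mo := mog) (C1 := cd2q1) (C2 := cd3q2) (C3 := pd1)
    rfl k0_mm_112

noncomputable def f_mm_113 : ℕ → ℕ → ℕ → ℕ → Bool := onCell 536870912 536870912 0 1230186008 1020054732 13421774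
    (rowB 3 eng mog cd2q1 cd3q3 pd1 0 false false false .nn 1 1 3 (qsf 536870912 536870912 0 1230186008 1) ndB2q1 ndB3q3 pcB1 Cut.none Ext.none)

def k0_mm_113 : ∃ t, chk3 f_mm_113 t 1 1 1 = true :=
  ⟨(l 5), by decide +kernel⟩

theorem c_mm_113 : CertB 536870912 536870912 0 1230186008 1020054732 13421774 3 eng mog cd2q1 cd3q3 pd1 false false false .nn 1 1 3
    ndB2q1 ndB3q3 pcB1 Cut.none Ext.none :=
  certB0 (fam := false) (s1 := false) (s2 := false) (a := 1) (b := 1) (c := 3) (cn := .nn) (n1 := ndB2q1) (n2 := ndB3q3) (pc := pcB1) (cut := Cut.none) (xt := Ext.none) (P1 := 536870912) (W1 := 536870912) (P2 := 0) (W2 := 1230186008) (P3 := 1020054732) (W3 := 13421774) (N0 := 3) (En := eng) (mo := mog) (C1 := cd2q1) (C2 := cd3q3) (C3 := pd1)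
    rfl k0_mm_113

noncomputable def f_mm_123 : ℕ → ℕ → ℕ → ℕ → Bool := onCell 536870912 536870912 0 1230186008 1020054732 13421774
    (rowB 3 eng mog cd2q1 cd3q3 pd2 0 false false false .npn 1 2 3 (qsf 536870912 536870912 0 1230186008 2) ndB2q1 ndB3q3 pcB2 Cut.none Ext.none)

def k0_mm_123 : ∃ t, chk3 f_mm_123 t 1 1 1 = true :=
  ⟨(l 5), by decide +kernel⟩

theorem c_mm_123 : CertB 536870912 536870912 0 1230186008 1020054732 13421774 3 eng mog cd2q1 cd3q3 pd2 false false false .npn 1 2 3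
    ndB2q1 ndB3q3 pcB2 Cut.none Ext.none :=
  certB0 (fam := false) (s1 := false) (s2 := false) (a := 1) (b := 2) (c := 3) (cn := .npn) (n1 := ndB2q1) (n2 := ndB3q3) (pc := pcB2) (cut := Cut.none) (xt := Ext.none) (P1 := 536870912) (W1 := 536870912) (P2 := 0) (W2 := 1230186008) (P3 := 1020054732) (W3 := 13421774) (N0 := 3) (En := eng) (mo := mog) (C1 := cd2q1) (C2 := cd3q3) (C3 := pd2)
    rfl k0_mm_123

noncomputable def f_mm_133 : ℕ → ℕ → ℕ → ℕ → Bool := onCell 536870912 536870912 0 1230186008 1020054732 13421774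
    (rowB 3 eng mog cd2q1 cd3q3 pd3 0 false false false .dn 1 3 3 (qsf 536870912 536870912 0 1230186008 3) ndB2q1 ndB3q3 pcB3 Cut.none Ext.none)

def k0_mm_133 : ∃ t, chk3 f_mm_133 t 1 1 1 = true :=
  ⟨(l 5), by decide +kernel⟩

theorem c_mm_133 : CertB 536870912 536870912 0 1230186008 1020054732 13421774 3 eng mog cd2q1 cd3q3 pd3 false false false .dn 1 3 3
    ndB2q1 ndB3q3 pcB3 Cut.none Ext.none :=
  certB0 (fam := false) (s1 := false) (s2 := false) (a := 1) (b := 3) (c := 3) (cn := .dn) (n1 := ndB2q1) (n2 := ndB3q3) (pc := pcB3) (cut := Cut.none) (xt := Ext.none) (P1 := 536870912) (W1 := 536870912) (P2 := 0) (W2 := 1230186008) (P3 := 1020054732) (W3 := 13421774) (N0 := 3) (En := eng) (mo := mog) (C1 := cd2q1) (C2 := cd3q3) (C3 := pd3)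
    rfl k0_mm_133

noncomputable def f_mm_202_a : ℕ → ℕ → ℕ → ℕ → Bool := onCell 0 536870912 1073741824 536870912 1020054732 13421774
    (rowB 3 eng mog cd2q2a cd3q2 pd0 0 false false false .pp 2 0 2 (qsf 0 536870912 1073741824 536870912 0) ndB2q2a ndB3q2 pcB0 Cut.none Ext.none)

def k0_mm_202_a : ∃ t, chk3 f_mm_202_a t 1 1 1 = true :=
  ⟨(l 3), by decide +kernel⟩

theorem c_mm_202_a : CertB 0 536870912 1073741824 536870912 1020054732 13421774 3 eng mog cd2q2a cd3q2 pd0 false false false .pp 2 0 2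
    ndB2q2a ndB3q2 pcB0 Cut.none Ext.none :=
  certB0 (fam := false) (s1 := false) (s2 := false) (a := 2) (b := 0) (c := 2) (cn := .pp) (n1 := ndB2q2a) (n2 := ndB3q2) (pc := pcB0) (cut := Cut.none) (xt := Ext.none) (P1 := 0) (W1 := 536870912) (P2 := 1073741824) (W2 := 536870912) (P3 := 1020054732) (W3 := 13421774) (N0 := 3) (En := eng) (mo := mog) (C1 := cd2q2a) (C2 := cd3q2) (C3 := pd0)
    rfl k0_mm_202_a

noncomputable def f_mm_202_b : ℕ → ℕ → ℕ → ℕ → Bool := onCell 1239849684 370763052 1073741824 536870912 1020054732 13421774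
    (rowB 3 eng mog cd2q2b cd3q2 pd0 0 false false false .pp 2 0 2 (qsf 1239849684 370763052 1073741824 536870912 0) ndB2q2b ndB3q2 pcB0 Cut.none Ext.none)

def k0_mm_202_b : ∃ t, chk3 f_mm_202_b t 1 1 1 = true :=
  ⟨(l 3), by decide +kernel⟩

theorem c_mm_202_b : CertB 1239849684 370763052 1073741824 536870912 1020054732 13421774 3 eng mog cd2q2b cd3q2 pd0 false false false .pp 2 0 2
    ndB2q2b ndB3q2 pcB0 Cut.none Ext.none :=
  certB0 (fam := false) (s1 := false) (s2 := false) (a := 2) (b := 0) (c := 2) (cn := .pp) (n1 := ndB2q2b) (n2 := ndB3q2) (pc := pcB0) (cut := Cut.none) (xt := Ext.none) (P1 := 1239849684) (W1 := 370763052) (P2 := 1073741824) (W2 := 536870912) (P3 := 1020054732) (W3 := 13421774) (N0 := 3) (En := eng) (mo := mog) (C1 := cd2q2b) (C2 := cd3q2) (C3 := pd0)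
    rfl k0_mm_202_b

noncomputable def f_mm_203_a : ℕ → ℕ → ℕ → ℕ → Bool := onCell 0 536870912 0 1230186008 1020054732 13421774
    (rowB 3 eng mog cd2q2a cd3q3 pd0 0 false false false .up 2 0 3 (qsf 0 536870912 0 1230186008 0) ndB2q2a ndB3q3 pcB0 Cut.none Ext.none)

def k0_mm_203_a : ∃ t, chk3 f_mm_203_a t 1 1 1 = true :=
  ⟨(b (l 2) (l 3)), by decide +kernel⟩

theorem c_mm_203_a : CertB 0 536870912 0 1230186008 1020054732 13421774 3 eng mog cd2q2a cd3q3 pd0 false false false .up 2 0 3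
    ndB2q2a ndB3q3 pcB0 Cut.none Ext.none :=
  certB0 (fam := false) (s1 := false) (s2 := false) (a := 2) (b := 0) (c := 3) (cn := .up) (n1 := ndB2q2a) (n2 := ndB3q3) (pc := pcB0) (cut := Cut.none) (xt := Ext.none) (P1 := 0) (W1 := 536870912) (P2 := 0) (W2 := 1230186008) (P3 := 1020054732) (W3 := 13421774) (N0 := 3) (En := eng) (mo := mog) (C1 := cd2q2a) (C2 := cd3q3) (C3 := pd0)
    rfl k0_mm_203_a

noncomputable def f_mm_203_b : ℕ → ℕ → ℕ → ℕ → Bool := onCell 1239849684 370763052 0 1230186008 1020054732 13421774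
    (rowB 3 eng mog cd2q2b cd3q3 pd0 0 false false false .up 2 0 3 (qsf 1239849684 370763052 0 1230186008 0) ndB2q2b ndB3q3 pcB0 Cut.none Ext.none)

def k0_mm_203_b : ∃ t, chk3 f_mm_203_b t 1 1 1 = true :=
  ⟨(b (l 3) (l 3)), by decide +kernel⟩

theorem c_mm_203_b : CertB 1239849684 370763052 0 1230186008 1020054732 13421774 3 eng mog cd2q2b cd3q3 pd0 false false false .up 2 0 3
    ndB2q2b ndB3q3 pcB0 Cut.none Ext.none :=
  certB0 (fam := false) (s1 := false) (s2 := false) (a := 2) (b := 0) (c := 3) (cn := .up) (n1 := ndB2q2b) (n2 := ndB3q3) (pc := pcB0) (cut := Cut.none) (xt := Ext.none) (P1 := 1239849684) (W1 := 370763052) (P2 := 0) (W2 := 1230186008) (P3 := 1020054732) (W3 := 13421774) (N0 := 3) (En := eng) (mo := mog) (C1 := cd2q2b) (C2 := cd3q3) (C3 := pd0)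
    rfl k0_mm_203_b

noncomputable def f_mm_213_a : ℕ → ℕ → ℕ → ℕ → Bool := onCell 0 536870912 0 1230186008 1020054732 13421774
    (rowB 3 eng mog cd2q2a cd3q3 pd1 0 false false false .pnn 2 1 3 (qsf 0 536870912 0 1230186008 1) ndB2q2a ndB3q3 pcB1 Cut.none Ext.none)

def k0_mm_213_a : ∃ t, chk3 f_mm_213_a t 1 1 1 = true :=
  ⟨(b (l 5) (l 3)), by decide +kernel⟩

theorem c_mm_213_a : CertB 0 536870912 0 1230186008 1020054732 13421774 3 eng mog cd2q2a cd3q3 pd1 false false false .pnn 2 1 3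
    ndB2q2a ndB3q3 pcB1 Cut.none Ext.none :=
  certB0 (fam := false) (s1 := false) (s2 := false) (a := 2) (b := 1) (c := 3) (cn := .pnn) (n1 := ndB2q2a) (n2 := ndB3q3) (pc := pcB1) (cut := Cut.none) (xt := Ext.none) (P1 := 0) (W1 := 536870912) (P2 := 0) (W2 := 1230186008) (P3 := 1020054732) (W3 := 13421774) (N0 := 3) (En := eng) (mo := mog) (C1 := cd2q2a) (C2 := cd3q3) (C3 := pd1)
    rfl k0_mm_213_a

noncomputable def f_mm_213_b : ℕ → ℕ → ℕ → ℕ → Bool := onCell 1239849684 370763052 0 1230186008 1020054732 13421774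
    (rowB 3 eng mog cd2q2b cd3q3 pd1 0 false false false .pnn 2 1 3 (qsf 1239849684 370763052 0 1230186008 1) ndB2q2b ndB3q3 pcB1 Cut.none Ext.none)

def k0_mm_213_b : ∃ t, chk3 f_mm_213_b t 1 1 1 = true :=
  ⟨(b (l 3) (l 3)), by decide +kernel⟩

theorem c_mm_213_b : CertB 1239849684 370763052 0 1230186008 1020054732 13421774 3 eng mog cd2q2b cd3q3 pd1 false false false .pnn 2 1 3
    ndB2q2b ndB3q3 pcB1 Cut.none Ext.none :=
  certB0 (fam := false) (s1 := false) (s2 := false) (a := 2) (b := 1) (c := 3) (cn := .pnn) (n1 := ndB2q2b) (n2 := ndB3q3) (pc := pcB1) (cut := Cut.none) (xt := Ext.none) (P1 := 1239849684) (W1 := 370763052) (P2 := 0) (W2 := 1230186008) (P3 := 1020054732) (W3 := 13421774) (N0 := 3) (En := eng) (mo := mog) (C1 := cd2q2b) (C2 := cd3q3) (C3 := pd1)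
    rfl k0_mm_213_b

noncomputable def f_mm_303 : ℕ → ℕ → ℕ → ℕ → Bool := onCell 1610612736 536870912 0 1230186008 1020054732 13421774
    (rowB 3 eng mog cd2q3 cd3q3 pd0 0 false false false .npn 3 0 3 (qsf 1610612736 536870912 0 1230186008 0) ndB2q3 ndB3q3 pcB0 Cut.none Ext.none)

def k0_mm_303 : ∃ t, chk3 f_mm_303 t 1 1 1 = true :=
  ⟨(b (l 3) (l 3)), by decide +kernel⟩

theorem c_mm_303 : CertB 1610612736 536870912 0 1230186008 1020054732 13421774 3 eng mog cd2q3 cd3q3 pd0 false false false .npn 3 0 3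
    ndB2q3 ndB3q3 pcB0 Cut.none Ext.none :=
  certB0 (fam := false) (s1 := false) (s2 := false) (a := 3) (b := 0) (c := 3) (cn := .npn) (n1 := ndB2q3) (n2 := ndB3q3) (pc := pcB0) (cut := Cut.none) (xt := Ext.none) (P1 := 1610612736) (W1 := 536870912) (P2 := 0) (W2 := 1230186008) (P3 := 1020054732) (W3 := 13421774) (N0 := 3) (En := eng) (mo := mog) (C1 := cd2q3) (C2 := cd3q3) (C3 := pd0)
    rfl k0_mm_303

noncomputable def f_mm_313 : ℕ → ℕ → ℕ → ℕ → Bool := onCell 1610612736 536870912 0 1230186008 1020054732 13421774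
    (rowB 3 eng mog cd2q3 cd3q3 pd1 0 false false false .dn 3 1 3 (qsf 1610612736 536870912 0 1230186008 1) ndB2q3 ndB3q3 pcB1 Cut.none Ext.none)

def k0_mm_313 : ∃ t, chk3 f_mm_313 t 1 1 1 = true :=
  ⟨(b (l 3) (l 1)), by decide +kernel⟩

theorem c_mm_313 : CertB 1610612736 536870912 0 1230186008 1020054732 13421774 3 eng mog cd2q3 cd3q3 pd1 false false false .dn 3 1 3
    ndB2q3 ndB3q3 pcB1 Cut.none Ext.none :=
  certB0 (fam := false) (s1 := false) (s2 := false) (a := 3) (b := 1) (c := 3) (cn := .dn) (n1 := ndB2q3) (n2 := ndB3q3) (pc := pcB1) (cut := Cut.none) (xt := Ext.none) (P1 := 1610612736) (W1 := 536870912) (P2 := 0) (W2 := 1230186008) (P3 := 1020054732) (W3 := 13421774) (N0 := 3) (En := eng) (mo := mog) (C1 := cd2q3) (C2 := cd3q3) (C3 := pd1)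
    rfl k0_mm_313

end Pool.Agent.Strip051.G.I9500_9625.Tab.C.BB23

namespace Pool.Agent.Strip051.G.I9500_9625.Tab.C.BB24

open Pool.Agent.Strip051.PB Pool.Agent.Strip051.PB.T
open Pool.Agent.Strip051.G.I9500_9625.Tab

noncomputable def f_pp_001 : ℕ → ℕ → ℕ → ℕ → Bool := onCell 0 536870912 0 536870912 1020054732 13421774
    (rowB 3 eng mog cd2q0 cd4q1 pd0 1 false true true .up 0 0 1 (qsf 0 536870912 536870912 536870912 0) ndB2q0 ndB4q1 pcB0 Cut.none Ext.none)

def k0_pp_001 : ∃ t, chk3 f_pp_001 t 1 1 1 = true :=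
  ⟨(l 3), by decide +kernel⟩

theorem c_pp_001 : CertB 0 536870912 536870912 536870912 1020054732 13421774 3 eng mog cd2q0 cd4q1 pd0 false true true .up 0 0 1
    ndB2q0 ndB4q1 pcB0 Cut.none Ext.none :=
  certB1 (fam := false) (s1 := true) (s2 := true) (a := 0) (b := 0) (c := 1) (cn := .up) (n1 := ndB2q0) (n2 := ndB4q1) (pc := pcB0) (cut := Cut.none) (xt := Ext.none) (P1 := 0) (W1 := 536870912) (P2 := 536870912) (W2 := 536870912) (P3 := 1020054732) (W3 := 13421774) (N0 := 3) (En := eng) (mo := mog) (C1 := cd2q0) (C2 := cd4q1) (C3 := pd0)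
    rfl (fun _ => rfl) k0_pp_001

noncomputable def cut_pp_011 : Cut := Cut.of [[⟨0, 0, 0, 38347922⟩, ⟨1, 1, 0, 38347922⟩, ⟨2, 1, 0, 38347922⟩]]

noncomputable def f_pp_011 : ℕ → ℕ → ℕ → ℕ → Bool := onCell 0 536870912 536870912 536870912 1020054732 13421774
    (rowB 3 eng mog cd2q0 cd4q1 pd1 1 false true true .pnn 0 1 1 (qsf 0 536870912 536870912 536870912 1) ndB2q0 ndB4q1 pcB1 cut_pp_011 Ext.none)

def k0_pp_011 : ∃ t, chk3 f_pp_011 t 1 1 1 = true :=
  ⟨(a (b (l 3) (b (l 3) (b (l 3) (b (l 3) (a (a (a (l 6) (l 3)) (l 2)) (l 2)))))) (l 3)), by decide +kernel⟩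

theorem c_pp_011 : CertB 0 536870912 536870912 536870912 1020054732 13421774 3 eng mog cd2q0 cd4q1 pd1 false true true .pnn 0 1 1
    ndB2q0 ndB4q1 pcB1 cut_pp_011 Ext.none :=
  certB1 (fam := false) (s1 := true) (s2 := true) (a := 0) (b := 1) (c := 1) (cn := .pnn) (n1 := ndB2q0) (n2 := ndB4q1) (pc := pcB1) (cut := cut_pp_011) (xt := Ext.none) (P1 := 0) (W1 := 536870912) (P2 := 536870912) (W2 := 536870912) (P3 := 1020054732) (W3 := 13421774) (N0 := 3) (En := eng) (mo := mog) (C1 := cd2q0) (C2 := cd4q1) (C3 := pd1)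
    rfl (fun _ => rfl) k0_pp_011

noncomputable def f_pp_012 : ℕ → ℕ → ℕ → ℕ → Bool := onCell 0 536870912 536870912 536870912 1020054732 13421774
    (rowB 3 eng mog cd2q0 cd4q2 pd1 1 false true true .pnp 0 1 2 (qsf 0 536870912 1073741824 536870912 1) ndB2q0 ndB4q2 pcB1 Cut.none Ext.none)

def k0_pp_012 : ∃ t, chk3 f_pp_012 t 1 1 1 = true :=
  ⟨(l 3), by decide +kernel⟩

theorem c_pp_012 : CertB 0 536870912 1073741824 536870912 1020054732 13421774 3 eng mog cd2q0 cd4q2 pd1 false true true .pnp 0 1 2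
    ndB2q0 ndB4q2 pcB1 Cut.none Ext.none :=
  certB1 (fam := false) (s1 := true) (s2 := true) (a := 0) (b := 1) (c := 2) (cn := .pnp) (n1 := ndB2q0) (n2 := ndB4q2) (pc := pcB1) (cut := Cut.none) (xt := Ext.none) (P1 := 0) (W1 := 536870912) (P2 := 1073741824) (W2 := 536870912) (P3 := 1020054732) (W3 := 13421774) (N0 := 3) (En := eng) (mo := mog) (C1 := cd2q0) (C2 := cd4q2) (C3 := pd1)
    rfl (fun _ => rfl) k0_pp_012

noncomputable def f_pp_022 : ℕ → ℕ → ℕ → ℕ → Bool := onCell 0 536870912 1073741824 536870912 1020054732 13421774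
    (rowB 3 eng mog cd2q0 cd4q2 pd2 1 false true true .pp 0 2 2 (qsf 0 536870912 1073741824 536870912 2) ndB2q0 ndB4q2 pcB2 Cut.none Ext.none)

def k0_pp_022 : ∃ t, chk3 f_pp_022 t 2 2 1 = true :=
  ⟨(b (l 3) (a (b (b (b (l 3) (b (a (a (a (l 15820200) (l 15709048)) (l 3)) (l 3)) (b (a (a (a (l 15775968) (l 15667720)) (l 15509736)) (l 3)) (a (a (b (a (l 15757704) (l 15647376)) (a (b (l 15757240) (l 15757344)) (l 15637240))) (l 15485616)) (a (l 15295752) (l 15126192)))))) (a (a (a (b (l 15695344) (l 15582592)) (l 15569320)) (a (l 15428016) (l 15336936))) (a (l 15251576) (c (l 15043472) (l 15050656))))) (a (a (b (a (l 15424928) (l 15335296)) (a (l 15239624) (l 15170168))) (b (l 15216200) (l 15073944))) (a (b (l 15074472) (l 14962192)) (c (b (l 14963160) (l 14883696)) (l 14897576))))) (b (b (b (l 3) (b (a (l 3) (a (l 14759040) (l 14667304))) (b (a (a (l 3) (l 14859592)) (a (l 14751096) (l 14664336))) (a (a (l 14977744) (l 14850968)) (b (a (l 14746872) (l 14656216))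 (a (l 14804160) (l 14642120))))))) (a (a (a (l 14956968) (l 14896720)) (a (l 14841880) (l 14791512))) (a (a (l 14740752) (l 14689872)) (l 14621944)))) (a (a (b (l 14851888) (l 14816672)) (b (a (l 14787536) (l 14743304)) (l 14722424))) (a (b (l 14677912) (l 14654664)) (b (l 14608304) (l 14608392))))))), by decide +kernel⟩

def k1_pp_022 : ∃ t, chk3 f_pp_022 t 2 3 1 = true :=
  ⟨(a (b (a (b (a (a (l 15013448) (l 14967088)) (c (l 14919624) (l 14888080))) (a (l 14782648) (l 14751856))) (b (a (l 14814816) (b (l 14808984) (l 14762048))) (a (l 14709488) (l 14702088)))) (a (b (a (a (l 14655200) (l 14661592)) (b (l 14686224) (l 14717536))) (a (a (b (l 14601536) (l 14580128)) (l 14580704)) (a (l 14586024) (l 14611800)))) (b (a (l 14660992) (l 14637312)) (a (l 14625872) (l 2))))) (b (a (b (b (a (l 14751472) (l 14689576)) (l 14669072)) (a (l 14655392) (l 14646184))) (b (c (l 14663280) (l 14568952)) (b (l 14667464) (l 2)))) (b (a (a (l 14669104) (l 2)) (l 2)) (l 2)))),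 by decide +kernel⟩

def k2_pp_022 : ∃ t, chk3 f_pp_022 t 3 1 1 = true :=
  ⟨(b (b (b (l 3) (a (b (l 3) (a (l 3) (b (l 3) (l 14457984)))) (b (a (l 3) (b (l 3) (l 2))) (a (b (l 14395240) (a (a (l 14442544) (l 14441160)) (l 2))) (l 2))))) (b (a (b (b (a (a (l 14594136) (l 14536752)) (b (l 14479744) (a (l 14505376) (l 14479952)))) (b (a (a (l 14597360) (l 14543072)) (a (l 14500224) (l 14461680))) (a (b (a (l 14592488) (l 14529616)) (a (l 14628552) (l 14501472))) (b (l 14460472) (b (l 14449392) (l 14443824)))))) (a (a (l 14550792) (l 14501936)) (a (l 14475024) (l 14468280)))) (b (b (a (a (l 14459592) (l 2)) (l 2)) (l 2)) (l 2))) (a (a (b (l 14608256) (l 14556224)) (b (l 14531048) (l 2))) (l 2)))) (b (a (a (b (b (l 14619792) (l 2)) (l 2)) (l 2)) (l 2)) (l 2))), by decide +kernel⟩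

theorem s3_pp_022 : ∃ t, chk3 f_pp_022 t 2 1 1 = true := ex3_b k0_pp_022 k1_pp_022

theorem s4_pp_022 : ∃ t, chk3 f_pp_022 t 1 1 1 = true := ex3_a s3_pp_022 k2_pp_022

theorem c_pp_022 : CertB 0 536870912 1073741824 536870912 1020054732 13421774 3 eng mog cd2q0 cd4q2 pd2 false true true .pp 0 2 2
    ndB2q0 ndB4q2 pcB2 Cut.none Ext.none :=
  certB1 (fam := false) (s1 := true) (s2 := true) (a := 0) (b := 2) (c := 2) (cn := .pp) (n1 := ndB2q0) (n2 := ndB4q2) (pc := pcB2) (cut := Cut.none) (xt := Ext.none) (P1 := 0) (W1 := 536870912) (P2 := 1073741824) (W2 := 536870912) (P3 := 1020054732) (W3 := 13421774) (N0 := 3) (En := eng) (mo := mog) (C1 := cd2q0) (C2 := cd4q2) (C3 := pd2)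
    rfl (fun _ => rfl) s4_pp_022

noncomputable def f_pp_023 : ℕ → ℕ → ℕ → ℕ → Bool := onCell 1073741824 536870912 0 1230186008 1020054732 13421774
    (rowB 3 eng mog cd2q0 cd4q3 pd2 2 false true true .up 0 2 3 (qsf 0 536870912 0 1230186008 2) ndB2q0 ndB4q3 pcB2 Cut.none Ext.none)

def k0_pp_023 : ∃ t, chk3 f_pp_023 t 1 1 1 = true :=
  ⟨(b (a (l 2) (a (l 2) (b (a (l 2) (b (l 16180296) (l 15402096))) (b (a (l 14799136) (b (l 14772696) (l 14786328))) (l 14900472))))) (b (a (a (l 2) (b (l 2) (a (l 2) (b (l 2) (l 16042400))))) (a (b (a (l 2) (l 15649584)) (b (l 15916824) (a (l 16075136) (l 16068968)))) (b (a (l 15574224) (l 15484384)) (a (b (l 15843120) (l 16029152)) (b (l 15764352) (l 15956040)))))) (b (a (a (l 2) (a (a (a (l 137000760631) (b (l 2) (l 16016648))) (l 16098184)) (b (l 16130056) (l 16212528)))) (a (b (a (l 16185928) (l 16201736)) (a (l 16275248) (l 16274728))) (b (a (l 16138752) (l 15703896)) (a (l 16060080) (l 15810728))))) (b (a (a (a (l 2) (a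 (c (l 15844184) (a (l 16085840) (l 16102280))) (a (b (l 16125448) (l 16225176)) (b (l 16137016) (l 16232088))))) (a (a (a (b (l 16161960) (l 16235128)) (a (l 16212616) (l 16233416))) (l 16249128)) (l 16328624))) (a (a (l 16384224) (b (l 16195808) (l 16110992))) (a (b (l 15942592) (l 15831832)) (b (l 15657296) (l 15526432))))) (a (a (a (l 3) (a (l 16255744) (c (a (l 16238464) (l 16333408)) (a (l 16350016) (l 16397600))))) (a (a (a (b (l 16335848) (l 16452032)) (a (l 16385064) (a (l 16378488) (l 16382840)))) (l 16406864)) (l 16210680))) (a (a (b (l 16270848) (l 16160328)) (b (l 16001336) (l 15865792))) (a (b (l 15699952) (l 15544248)) (b (l 15377136) (a (l 15290512) (l 15120368)))))))))), by decide +kernel⟩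

theorem c_pp_023 : CertB 0 536870912 0 1230186008 1020054732 13421774 3 eng mog cd2q0 cd4q3 pd2 false true true .up 0 2 3
    ndB2q0 ndB4q3 pcB2 Cut.none Ext.none :=
  certB2 (fam := false) (s1 := true) (s2 := true) (a := 0) (b := 2) (c := 3) (cn := .up) (n1 := ndB2q0) (n2 := ndB4q3) (pc := pcB2) (cut := Cut.none) (xt := Ext.none) (P1 := 0) (W1 := 536870912) (P2 := 0) (W2 := 1230186008) (P3 := 1020054732) (W3 := 13421774) (N0 := 3) (En := eng) (mo := mog) (C1 := cd2q0) (C2 := cd4q3) (C3 := pd2)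
    rfl (fun _ => rfl) k0_pp_023

noncomputable def f_pp_033 : ℕ → ℕ → ℕ → ℕ → Bool := onCell 0 536870912 0 1230186008 1020054732 13421774
    (rowB 3 eng mog cd2q0 cd4q3 pd3 0 false true true .pnn 0 3 3 (qsf 0 536870912 0 1230186008 3) ndB2q0 ndB4q3 pcB3 Cut.none Ext.none)

def k0_pp_033 : ∃ t, chk3 f_pp_033 t 1 2 1 = true :=
  ⟨(b (a (l 4) (a (a (l 16224792) (l 16187640)) (a (b (l 4) (l 16375216)) (b (l 16466824) (l 16474800))))) (a (b (a (l 4) (a (a (l 15642376) (l 15745552)) (l 15852656))) (b (a (a (l 4) (a (l 15271440) (l 15400016))) (a (l 15584784) (l 15822224))) (a (a (a (a (l 14851472) (l 14926560)) (l 15167832)) (a (l 15189056) (l 15332864))) (a (l 15540464) (l 15796272))))) (a (b (a (l 15969896) (b (l 16235592) (l 16244568))) (b (a (l 16044776) (l 16243640)) (l 16144872))) (b (a (l 16407208) (l 16548536)) (l 16519792))))), by decide +kernel⟩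

def k1_pp_033 : ∃ t, chk3 f_pp_033 t 1 3 1 = true :=
  ⟨(b (a (a (b (a (b (a (b (l 14829112) (l 14794272)) (b (l 14989424) (l 14961632))) (a (l 14771368) (l 14938120))) (b (a (l 15133864) (l 15286576)) (l 15180552))) (a (b (a (b (l 14768688) (l 14771664)) (l 14929352)) (a (b (l 14775792) (l 14779208)) (l 14931392))) (b (l 15065952) (a (l 15090888) (l 15251704))))) (b (a (b (l 15505280) (l 15486736)) (l 15607680)) (a (b (l 15484664) (l 15491688)) (b (l 15784392) (l 15800184))))) (b (a (a (l 16037208) (l 16274704)) (a (l 16483176) (l 1))) (a (a (b (l 16063200) (l 16087640)) (l 378526213831)) (l 1)))) (a (b (a (b (a (b (a (b (l 14783288) (l 14814120)) (b (l 14933304) (l 14955144))) (a (b (l 14866168) (l 14923632)) (l 14875920))) (b (a (l 14974720) (l 15260656)) (a (l 15164720) (l 15313272)))) (a (b (a (c (l 15031168) (l 14941144)) (l 14878184)) (a (b (l 15000376) (a (l 15182904) (l 15220328))) (c (l 15339840) (l 15165208)))) (b (a (l 15234736) (l 15389952))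 (a (l 15363064) (l 15481832))))) (b (a (b (b (l 15497544) (l 15506936)) (l 15415312)) (b (l 15668184) (l 15839888))) (a (b (a (l 15528832) (l 15669448)) (c (l 15741616) (l 15596520))) (l 1)))) (a (b (a (b (a (b (a (l 15196008) (l 15267360)) (l 15071344)) (b (l 15289528) (l 15366040))) (a (c (l 15229096) (l 15019760)) (c (l 15419632) (l 15208872)))) (b (a (b (l 15453008) (l 15502376)) (l 15524936)) (a (l 15488416) (l 15575552)))) (a (b (a (c (l 15122968) (l 14913000)) (c (l 15337784) (l 15124176))) (a (c (l 14787152) (l 14601904)) (l 96129540423))) (b (a (l 15300416) (l 1)) (l 1)))) (b (a (b (c (l 15833440) (l 15671600)) (l 1)) (l 1)) (l 1)))) (l 1))), by decide +kernel⟩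

theorem s2_pp_033 : ∃ t, chk3 f_pp_033 t 1 1 1 = true := ex3_b k0_pp_033 k1_pp_033

theorem c_pp_033 : CertB 0 536870912 0 1230186008 1020054732 13421774 3 eng mog cd2q0 cd4q3 pd3 false true true .pnn 0 3 3
    ndB2q0 ndB4q3 pcB3 Cut.none Ext.none :=
  certB0 (fam := false) (s1 := true) (s2 := true) (a := 0) (b := 3) (c := 3) (cn := .pnn) (n1 := ndB2q0) (n2 := ndB4q3) (pc := pcB3) (cut := Cut.none) (xt := Ext.none) (P1 := 0) (W1 := 536870912) (P2 := 0) (W2 := 1230186008) (P3 := 1020054732) (W3 := 13421774) (N0 := 3) (En := eng) (mo := mog) (C1 := cd2q0) (C2 := cd4q3) (C3 := pd3)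
    rfl s2_pp_033

noncomputable def f_pp_101 : ℕ → ℕ → ℕ → ℕ → Bool := onCell 536870912 536870912 536870912 536870912 1020054732 13421774
    (rowB 3 eng mog cd2q1 cd4q1 pd0 0 false true true .npn 1 0 1 (qsf 536870912 536870912 536870912 536870912 0) ndB2q1 ndB4q1 pcB0 Cut.none Ext.none)

def k0_pp_101 : ∃ t, chk3 f_pp_101 t 1 1 1 = true :=
  ⟨(l 3), by decide +kernel⟩

theorem c_pp_101 : CertB 536870912 536870912 536870912 536870912 1020054732 13421774 3 eng mog cd2q1 cd4q1 pd0 false true true .npn 1 0 1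
    ndB2q1 ndB4q1 pcB0 Cut.none Ext.none :=
  certB0 (fam := false) (s1 := true) (s2 := true) (a := 1) (b := 0) (c := 1) (cn := .npn) (n1 := ndB2q1) (n2 := ndB4q1) (pc := pcB0) (cut := Cut.none) (xt := Ext.none) (P1 := 536870912) (W1 := 536870912) (P2 := 536870912) (W2 := 536870912) (P3 := 1020054732) (W3 := 13421774) (N0 := 3) (En := eng) (mo := mog) (C1 := cd2q1) (C2 := cd4q1) (C3 := pd0)
    rfl k0_pp_101

noncomputable def f_pp_102 : ℕ → ℕ → ℕ → ℕ → Bool := onCell 536870912 536870912 1073741824 536870912 1020054732 13421774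
    (rowB 3 eng mog cd2q1 cd4q2 pd0 0 false true true .npp 1 0 2 (qsf 536870912 536870912 1073741824 536870912 0) ndB2q1 ndB4q2 pcB0 Cut.none Ext.none)

def k0_pp_102 : ∃ t, chk3 f_pp_102 t 1 1 1 = true :=
  ⟨(l 3), by decide +kernel⟩

theorem c_pp_102 : CertB 536870912 536870912 1073741824 536870912 1020054732 13421774 3 eng mog cd2q1 cd4q2 pd0 false true true .npp 1 0 2
    ndB2q1 ndB4q2 pcB0 Cut.none Ext.none :=
  certB0 (fam := false) (s1 := true) (s2 := true) (a := 1) (b := 0) (c := 2) (cn := .npp) (n1 := ndB2q1) (n2 := ndB4q2) (pc := pcB0) (cut := Cut.none) (xt := Ext.none) (P1 := 536870912) (W1 := 536870912) (P2 := 1073741824) (W2 := 536870912) (P3 := 1020054732) (W3 := 13421774) (N0 := 3) (En := eng) (mo := mog) (C1 := cd2q1) (C2 := cd4q2) (C3 := pd0)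
    rfl k0_pp_102

noncomputable def f_pp_112 : ℕ → ℕ → ℕ → ℕ → Bool := onCell 536870912 536870912 1073741824 536870912 1020054732 13421774
    (rowB 3 eng mog cd2q1 cd4q2 pd1 0 false true true .dn 1 1 2 (qsf 536870912 536870912 1073741824 536870912 1) ndB2q1 ndB4q2 pcB1 Cut.none Ext.none)

def k0_pp_112 : ∃ t, chk3 f_pp_112 t 1 1 1 = true :=
  ⟨(l 3), by decide +kernel⟩

theorem c_pp_112 : CertB 536870912 536870912 1073741824 536870912 1020054732 13421774 3 eng mog cd2q1 cd4q2 pd1 false true true .dn 1 1 2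
    ndB2q1 ndB4q2 pcB1 Cut.none Ext.none :=
  certB0 (fam := false) (s1 := true) (s2 := true) (a := 1) (b := 1) (c := 2) (cn := .dn) (n1 := ndB2q1) (n2 := ndB4q2) (pc := pcB1) (cut := Cut.none) (xt := Ext.none) (P1 := 536870912) (W1 := 536870912) (P2 := 1073741824) (W2 := 536870912) (P3 := 1020054732) (W3 := 13421774) (N0 := 3) (En := eng) (mo := mog) (C1 := cd2q1) (C2 := cd4q2) (C3 := pd1)
    rfl k0_pp_112

noncomputable def f_pp_113 : ℕ → ℕ → ℕ → ℕ → Bool := onCell 536870912 536870912 0 1230186008 1020054732 13421774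
    (rowB 3 eng mog cd2q1 cd4q3 pd1 2 false true true .nn 1 1 3 (qsf 536870912 536870912 0 1230186008 1) ndB2q1 ndB4q3 pcB1 Cut.none Ext.none)

def k0_pp_113 : ∃ t, chk3 f_pp_113 t 1 1 1 = true :=
  ⟨(a (b (l 2) (b (l 3) (l 3))) (a (b (l 2) (b (a (l 3) (b (l 3) (l 3))) (l 3))) (b (a (b (l 2) (b (a (l 2) (b (l 2) (l 16182504))) (a (b (l 2) (l 16016456)) (b (l 16246592) (l 15836800))))) (b (b (l 16540096) (l 16362656)) (a (b (l 16193216) (b (l 15940928) (l 15620368))) (b (l 16251720) (b (l 15714680) (l 15458224)))))) (a (b (b (a (b (l 287929105511) (l 304571999783)) (b (l 15682184) (l 228873034887))) (a (l 3) (b (l 287927840935) (l 3)))) (l 3)) (b (a (b (b (l 15526088) (a (l 15555416) (l 15478736))) (b (a (l 15576264) (l 15504560)) (a (l 3) (l 15534504)))) (b (a (b (l 15398864) (l 15398688)) (b (l 15325952) (l 15322024))) (a (b (l 15422920) (l 15330880)) (b (l 15342792) (l 15373720))))) (a (l 3) (b (b (a (l 3) (l 15410208)) (l 3)) (l 3)))))))), by decide +kernel⟩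

theorem c_pp_113 : CertB 536870912 536870912 0 1230186008 1020054732 13421774 3 eng mog cd2q1 cd4q3 pd1 false true true .nn 1 1 3
    ndB2q1 ndB4q3 pcB1 Cut.none Ext.none :=
  certB2 (fam := false) (s1 := true) (s2 := true) (a := 1) (b := 1) (c := 3) (cn := .nn) (n1 := ndB2q1) (n2 := ndB4q3) (pc := pcB1) (cut := Cut.none) (xt := Ext.none) (P1 := 536870912) (W1 := 536870912) (P2 := 0) (W2 := 1230186008) (P3 := 1020054732) (W3 := 13421774) (N0 := 3) (En := eng) (mo := mog) (C1 := cd2q1) (C2 := cd4q3) (C3 := pd1)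
    rfl (fun _ => rfl) k0_pp_113

noncomputable def f_pp_123 : ℕ → ℕ → ℕ → ℕ → Bool := onCell 1073741824 536870912 0 1230186008 1020054732 13421774
    (rowB 3 eng mog cd2q1 cd4q3 pd2 2 false true true .npn 1 2 3 (qsf 536870912 536870912 0 1230186008 2) ndB2q1 ndB4q3 pcB2 Cut.none Ext.none)

def k0_pp_123 : ∃ t, chk3 f_pp_123 t 2 1 1 = true :=
  ⟨(a (a (b (b (b (l 15689672) (l 15799800)) (b (l 15697800) (a (l 15616120) (l 15672656)))) (a (b (b (l 15515320) (b (l 15490136) (b (l 15337016) (l 15471320)))) (b (b (c (a (l 192900954199) (l 15305000)) (a (l 195048930199) (l 15478976))) (a (l 3) (l 237998654391))) (l 3))) (b (b (l 15620040) (b (l 15612376) (b (l 15613744) (l 15612920)))) (a (b (b (c (l 15523760) (l 15587576)) (b (l 15382896) (l 15662760))) (l 3)) (b (b (b (l 15643816) (l 15520496)) (c (l 15414864) (b (l 15807912) (l 15842240)))) (b (l 15619184) (l 3))))))) (b (b (b (l 15407040) (l 15567816)) (b (l 15708088) (l 15719200))) (b (b (b (l 15728632) (l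 15738128)) (b (l 15752480) (a (b (l 15720256) (l 15725512)) (b (l 15808504) (l 15819632))))) (b (a (b (c (l 15655992) (l 15810808)) (b (c (l 15682864) (l 15684136)) (a (a (l 15784232) (l 15797408)) (l 15813984)))) (b (l 15601160) (a (b (l 15825808) (l 15849320)) (l 15882120)))) (a (b (c (a (l 15628864) (l 15658576)) (a (l 15687472) (l 15746024))) (c (l 15765504) (l 16046376))) (b (c (a (l 15829368) (l 15843048)) (a (l 15839320) (l 15852024))) (l 1))))))) (b (b (a (b (l 15180336) (l 15346112)) (b (l 15104616) (l 15145080))) (b (a (l 15571528) (l 15432384)) (a (l 15712096) (l 15669960)))) (b (b (a (l 15663608) (l 15825776)) (a (b (l 15880624) (a (c (b (l 15821400) (a (l 15807552) (l 15662520))) (l 15725960)) (l 15960480))) (b (l 15966984) (l 15963792)))) (b (a (a (c (a (l 15827696) (a (l 15853528) (l 39222681783))) (b (l 15985824) (l 15924984))) (b (l 15984608) (l 16003384))) (b (l 16087672) (l 1))) (a (a (a (b (b (l 15950032) (l 1)) (l 1)) (l 1)) (l 1)) (l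 1)))))), by decide +kernel⟩

def k1_pp_123 : ∃ t, chk3 f_pp_123 t 3 1 1 = true :=
  ⟨(b (a (b (b (a (l 15277136) (l 15654600)) (a (l 15003024) (b (l 15127248) (l 14994944)))) (b (a (l 15308984) (l 15212592)) (a (l 15618696) (l 15573560)))) (b (b (a (l 16068640) (a (l 16494400) (l 16680960))) (a (b (l 15546848) (l 15152800)) (b (l 16043640) (l 15610448)))) (b (a (l 14940832) (b (l 15038280) (l 15253480))) (a (l 15544688) (l 15539536))))) (b (b (a (a (l 15819912) (l 15764640)) (a (l 15669528) (l 1))) (a (a (b (l 16028048) (l 16056024)) (b (l 16074768) (l 1))) (l 1))) (l 1))), by decide +kernel⟩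

theorem s2_pp_123 : ∃ t, chk3 f_pp_123 t 1 1 1 = true := ex3_a k0_pp_123 k1_pp_123

theorem c_pp_123 : CertB 536870912 536870912 0 1230186008 1020054732 13421774 3 eng mog cd2q1 cd4q3 pd2 false true true .npn 1 2 3
    ndB2q1 ndB4q3 pcB2 Cut.none Ext.none :=
  certB2 (fam := false) (s1 := true) (s2 := true) (a := 1) (b := 2) (c := 3) (cn := .npn) (n1 := ndB2q1) (n2 := ndB4q3) (pc := pcB2) (cut := Cut.none) (xt := Ext.none) (P1 := 536870912) (W1 := 536870912) (P2 := 0) (W2 := 1230186008) (P3 := 1020054732) (W3 := 13421774) (N0 := 3) (En := eng) (mo := mog) (C1 := cd2q1) (C2 := cd4q3) (C3 := pd2)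
    rfl (fun _ => rfl) s2_pp_123

noncomputable def f_pp_133 : ℕ → ℕ → ℕ → ℕ → Bool := onCell 1610612736 536870912 0 1230186008 1020054732 13421774
    (rowB 3 eng mog cd2q1 cd4q3 pd3 2 false true true .dn 1 3 3 (qsf 536870912 536870912 0 1230186008 3) ndB2q1 ndB4q3 pcB3 Cut.none Ext.none)

def k0_pp_133 : ∃ t, chk3 f_pp_133 t 1 1 1 = true :=
  ⟨(b (b (a (a (a (l 2126041218935) (l 1)) (l 1)) (l 1)) (l 1)) (l 1)), by decide +kernel⟩

theorem c_pp_133 : CertB 536870912 536870912 0 1230186008 1020054732 13421774 3 eng mog cd2q1 cd4q3 pd3 false true true .dn 1 3 3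
    ndB2q1 ndB4q3 pcB3 Cut.none Ext.none :=
  certB2 (fam := false) (s1 := true) (s2 := true) (a := 1) (b := 3) (c := 3) (cn := .dn) (n1 := ndB2q1) (n2 := ndB4q3) (pc := pcB3) (cut := Cut.none) (xt := Ext.none) (P1 := 536870912) (W1 := 536870912) (P2 := 0) (W2 := 1230186008) (P3 := 1020054732) (W3 := 13421774) (N0 := 3) (En := eng) (mo := mog) (C1 := cd2q1) (C2 := cd4q3) (C3 := pd3)
    rfl (fun _ => rfl) k0_pp_133

noncomputable def f_pp_202_a : ℕ → ℕ → ℕ → ℕ → Bool := onCell 0 536870912 1073741824 536870912 1020054732 13421774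
    (rowB 3 eng mog cd2q2a cd4q2 pd0 0 false true true .pp 2 0 2 (qsf 0 536870912 1073741824 536870912 0) ndB2q2a ndB4q2 pcB0 Cut.none Ext.none)

def k0_pp_202_a : ∃ t, chk3 f_pp_202_a t 1 1 1 = true :=
  ⟨(l 3), by decide +kernel⟩

theorem c_pp_202_a : CertB 0 536870912 1073741824 536870912 1020054732 13421774 3 eng mog cd2q2a cd4q2 pd0 false true true .pp 2 0 2
    ndB2q2a ndB4q2 pcB0 Cut.none Ext.none :=
  certB0 (fam := false) (s1 := true) (s2 := true) (a := 2) (b := 0) (c := 2) (cn := .pp) (n1 := ndB2q2a) (n2 := ndB4q2) (pc := pcB0) (cut := Cut.none) (xt := Ext.none) (P1 := 0) (W1 := 536870912) (P2 := 1073741824) (W2 := 536870912) (P3 := 1020054732) (W3 := 13421774) (N0 := 3) (En := eng) (mo := mog) (C1 := cd2q2a) (C2 := cd4q2) (C3 := pd0)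
    rfl k0_pp_202_a

noncomputable def f_pp_202_b : ℕ → ℕ → ℕ → ℕ → Bool := onCell 1239849684 370763052 1073741824 536870912 1020054732 13421774
    (rowB 3 eng mog cd2q2b cd4q2 pd0 0 false true true .pp 2 0 2 (qsf 1239849684 370763052 1073741824 536870912 0) ndB2q2b ndB4q2 pcB0 Cut.none Ext.none)

def k0_pp_202_b : ∃ t, chk3 f_pp_202_b t 1 1 1 = true :=
  ⟨(l 5), by decide +kernel⟩

theorem c_pp_202_b : CertB 1239849684 370763052 1073741824 536870912 1020054732 13421774 3 eng mog cd2q2b cd4q2 pd0 false true true .pp 2 0 2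
    ndB2q2b ndB4q2 pcB0 Cut.none Ext.none :=
  certB0 (fam := false) (s1 := true) (s2 := true) (a := 2) (b := 0) (c := 2) (cn := .pp) (n1 := ndB2q2b) (n2 := ndB4q2) (pc := pcB0) (cut := Cut.none) (xt := Ext.none) (P1 := 1239849684) (W1 := 370763052) (P2 := 1073741824) (W2 := 536870912) (P3 := 1020054732) (W3 := 13421774) (N0 := 3) (En := eng) (mo := mog) (C1 := cd2q2b) (C2 := cd4q2) (C3 := pd0)
    rfl k0_pp_202_b

noncomputable def f_pp_203_a : ℕ → ℕ → ℕ → ℕ → Bool := onCell 0 536870912 0 1230186008 1020054732 13421774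
    (rowB 3 eng mog cd2q2a cd4q3 pd0 0 false true true .up 2 0 3 (qsf 0 536870912 0 1230186008 0) ndB2q2a ndB4q3 pcB0 Cut.none Ext.none)

def k0_pp_203_a : ∃ t, chk3 f_pp_203_a t 1 1 1 = true :=
  ⟨(b (l 2) (l 3)), by decide +kernel⟩

theorem c_pp_203_a : CertB 0 536870912 0 1230186008 1020054732 13421774 3 eng mog cd2q2a cd4q3 pd0 false true true .up 2 0 3
    ndB2q2a ndB4q3 pcB0 Cut.none Ext.none :=
  certB0 (fam := false) (s1 := true) (s2 := true) (a := 2) (b := 0) (c := 3) (cn := .up) (n1 := ndB2q2a) (n2 := ndB4q3) (pc := pcB0) (cut := Cut.none) (xt := Ext.none) (P1 := 0) (W1 := 536870912) (P2 := 0) (W2 := 1230186008) (P3 := 1020054732) (W3 := 13421774) (N0 := 3) (En := eng) (mo := mog) (C1 := cd2q2a) (C2 := cd4q3) (C3 := pd0)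
    rfl k0_pp_203_a

noncomputable def f_pp_203_b : ℕ → ℕ → ℕ → ℕ → Bool := onCell 1239849684 370763052 0 1230186008 1020054732 13421774
    (rowB 3 eng mog cd2q2b cd4q3 pd0 0 false true true .up 2 0 3 (qsf 1239849684 370763052 0 1230186008 0) ndB2q2b ndB4q3 pcB0 Cut.none Ext.none)

def k0_pp_203_b : ∃ t, chk3 f_pp_203_b t 1 1 1 = true :=
  ⟨(b (l 3) (l 3)), by decide +kernel⟩

theorem c_pp_203_b : CertB 1239849684 370763052 0 1230186008 1020054732 13421774 3 eng mog cd2q2b cd4q3 pd0 false true true .up 2 0 3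
    ndB2q2b ndB4q3 pcB0 Cut.none Ext.none :=
  certB0 (fam := false) (s1 := true) (s2 := true) (a := 2) (b := 0) (c := 3) (cn := .up) (n1 := ndB2q2b) (n2 := ndB4q3) (pc := pcB0) (cut := Cut.none) (xt := Ext.none) (P1 := 1239849684) (W1 := 370763052) (P2 := 0) (W2 := 1230186008) (P3 := 1020054732) (W3 := 13421774) (N0 := 3) (En := eng) (mo := mog) (C1 := cd2q2b) (C2 := cd4q3) (C3 := pd0)
    rfl k0_pp_203_b

noncomputable def cut_pp_213_a : Cut := Cut.of [[⟨0, 1, 0, 26738688⟩, ⟨1, 1, 0, 26738688⟩, ⟨2, 2, 0, 2621440⟩]]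

noncomputable def f_pp_213_a : ℕ → ℕ → ℕ → ℕ → Bool := onCell 0 536870912 0 1230186008 1020054732 13421774
    (rowB 3 eng mog cd2q2a cd4q3 pd1 0 false true true .pnn 2 1 3 (qsf 0 536870912 0 1230186008 1) ndB2q2a ndB4q3 pcB1 cut_pp_213_a Ext.none)

def k0_pp_213_a : ∃ t, chk3 f_pp_213_a t 1 1 1 = true :=
  ⟨(b (a (l 3) (a (l 3) (b (a (l 3) (b (b (a (l 3) (l 6)) (l 3)) (l 3))) (l 3)))) (l 3)), by decide +kernel⟩

theorem c_pp_213_a : CertB 0 536870912 0 1230186008 1020054732 13421774 3 eng mog cd2q2a cd4q3 pd1 false true true .pnn 2 1 3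
    ndB2q2a ndB4q3 pcB1 cut_pp_213_a Ext.none :=
  certB0 (fam := false) (s1 := true) (s2 := true) (a := 2) (b := 1) (c := 3) (cn := .pnn) (n1 := ndB2q2a) (n2 := ndB4q3) (pc := pcB1) (cut := cut_pp_213_a) (xt := Ext.none) (P1 := 0) (W1 := 536870912) (P2 := 0) (W2 := 1230186008) (P3 := 1020054732) (W3 := 13421774) (N0 := 3) (En := eng) (mo := mog) (C1 := cd2q2a) (C2 := cd4q3) (C3 := pd1)
    rfl k0_pp_213_a

noncomputable def cut_pp_213_b : Cut := Cut.of [[⟨0, 1, 0, 26738688⟩, ⟨1, 1, 0, 26738688⟩, ⟨2, 2, 0, 2621440⟩]]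

noncomputable def f_pp_213_b : ℕ → ℕ → ℕ → ℕ → Bool := onCell 1239849684 370763052 0 1230186008 1020054732 13421774
    (rowB 3 eng mog cd2q2b cd4q3 pd1 0 false true true .pnn 2 1 3 (qsf 1239849684 370763052 0 1230186008 1) ndB2q2b ndB4q3 pcB1 cut_pp_213_b Ext.none)

def k0_pp_213_b : ∃ t, chk3 f_pp_213_b t 1 1 1 = true :=
  ⟨(b (l 3) (l 3)), by decide +kernel⟩

theorem c_pp_213_b : CertB 1239849684 370763052 0 1230186008 1020054732 13421774 3 eng mog cd2q2b cd4q3 pd1 false true true .pnn 2 1 3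
    ndB2q2b ndB4q3 pcB1 cut_pp_213_b Ext.none :=
  certB0 (fam := false) (s1 := true) (s2 := true) (a := 2) (b := 1) (c := 3) (cn := .pnn) (n1 := ndB2q2b) (n2 := ndB4q3) (pc := pcB1) (cut := cut_pp_213_b) (xt := Ext.none) (P1 := 1239849684) (W1 := 370763052) (P2 := 0) (W2 := 1230186008) (P3 := 1020054732) (W3 := 13421774) (N0 := 3) (En := eng) (mo := mog) (C1 := cd2q2b) (C2 := cd4q3) (C3 := pd1)
    rfl k0_pp_213_b

noncomputable def f_pp_303 : ℕ → ℕ → ℕ → ℕ → Bool := onCell 0 536870912 0 1230186008 1020054732 13421774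
    (rowB 3 eng mog cd2q3 cd4q3 pd0 2 false true true .npn 3 0 3 (qsf 1610612736 536870912 0 1230186008 0) ndB2q3 ndB4q3 pcB0 Cut.none Ext.none)

def k0_pp_303 : ∃ t, chk3 f_pp_303 t 1 1 1 = true :=
  ⟨(b (l 3) (l 3)), by decide +kernel⟩

theorem c_pp_303 : CertB 1610612736 536870912 0 1230186008 1020054732 13421774 3 eng mog cd2q3 cd4q3 pd0 false true true .npn 3 0 3
    ndB2q3 ndB4q3 pcB0 Cut.none Ext.none :=
  certB2 (fam := false) (s1 := true) (s2 := true) (a := 3) (b := 0) (c := 3) (cn := .npn) (n1 := ndB2q3) (n2 := ndB4q3) (pc := pcB0) (cut := Cut.none) (xt := Ext.none) (P1 := 1610612736) (W1 := 536870912) (P2 := 0) (W2 := 1230186008) (P3 := 1020054732) (W3 := 13421774) (N0 := 3) (En := eng) (mo := mog) (C1 := cd2q3) (C2 := cd4q3) (C3 := pd0)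
    rfl (fun _ => rfl) k0_pp_303

noncomputable def f_pp_313 : ℕ → ℕ → ℕ → ℕ → Bool := onCell 1610612736 536870912 0 1230186008 1020054732 13421774
    (rowB 3 eng mog cd2q3 cd4q3 pd1 0 false true true .dn 3 1 3 (qsf 1610612736 536870912 0 1230186008 1) ndB2q3 ndB4q3 pcB1 Cut.none Ext.none)

def k0_pp_313 : ∃ t, chk3 f_pp_313 t 1 1 1 = true :=
  ⟨(b (l 3) (l 1)), by decide +kernel⟩

theorem c_pp_313 : CertB 1610612736 536870912 0 1230186008 1020054732 13421774 3 eng mog cd2q3 cd4q3 pd1 false true true .dn 3 1 3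
    ndB2q3 ndB4q3 pcB1 Cut.none Ext.none :=
  certB0 (fam := false) (s1 := true) (s2 := true) (a := 3) (b := 1) (c := 3) (cn := .dn) (n1 := ndB2q3) (n2 := ndB4q3) (pc := pcB1) (cut := Cut.none) (xt := Ext.none) (P1 := 1610612736) (W1 := 536870912) (P2 := 0) (W2 := 1230186008) (P3 := 1020054732) (W3 := 13421774) (N0 := 3) (En := eng) (mo := mog) (C1 := cd2q3) (C2 := cd4q3) (C3 := pd1)
    rfl k0_pp_313

noncomputable def f_pm_001 : ℕ → ℕ → ℕ → ℕ → Bool := onCell 0 536870912 536870912 536870912 1020054732 13421774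
    (rowB 3 eng mog cd2q0 cd4q1 pd0 0 false true false .up 0 0 1 (qsf 0 536870912 536870912 536870912 0) ndB2q0 ndB4q1 pcB0 Cut.none Ext.none)

def k0_pm_001 : ∃ t, chk3 f_pm_001 t 1 1 1 = true :=
  ⟨(l 4), by decide +kernel⟩

theorem c_pm_001 : CertB 0 536870912 536870912 536870912 1020054732 13421774 3 eng mog cd2q0 cd4q1 pd0 false true false .up 0 0 1
    ndB2q0 ndB4q1 pcB0 Cut.none Ext.none :=
  certB0 (fam := false) (s1 := true) (s2 := false) (a := 0) (b := 0) (c := 1) (cn := .up) (n1 := ndB2q0) (n2 := ndB4q1) (pc := pcB0) (cut := Cut.none) (xt := Ext.none) (P1 := 0) (W1 := 536870912) (P2 := 536870912) (W2 := 536870912) (P3 := 1020054732) (W3 := 13421774) (N0 := 3) (En := eng) (mo := mog) (C1 := cd2q0) (C2 := cd4q1) (C3 := pd0)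
    rfl k0_pm_001

noncomputable def f_pm_011 : ℕ → ℕ → ℕ → ℕ → Bool := onCell 0 536870912 536870912 536870912 1020054732 13421774
    (rowB 3 eng mog cd2q0 cd4q1 pd1 0 false true false .pnn 0 1 1 (qsf 0 536870912 536870912 536870912 1) ndB2q0 ndB4q1 pcB1 Cut.none Ext.none)

def k0_pm_011 : ∃ t, chk3 f_pm_011 t 1 1 1 = true :=
  ⟨(l 4), by decide +kernel⟩

theorem c_pm_011 : CertB 0 536870912 536870912 536870912 1020054732 13421774 3 eng mog cd2q0 cd4q1 pd1 false true false .pnn 0 1 1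
    ndB2q0 ndB4q1 pcB1 Cut.none Ext.none :=
  certB0 (fam := false) (s1 := true) (s2 := false) (a := 0) (b := 1) (c := 1) (cn := .pnn) (n1 := ndB2q0) (n2 := ndB4q1) (pc := pcB1) (cut := Cut.none) (xt := Ext.none) (P1 := 0) (W1 := 536870912) (P2 := 536870912) (W2 := 536870912) (P3 := 1020054732) (W3 := 13421774) (N0 := 3) (En := eng) (mo := mog) (C1 := cd2q0) (C2 := cd4q1) (C3 := pd1)
    rfl k0_pm_011

noncomputable def f_pm_012 : ℕ → ℕ → ℕ → ℕ → Bool := onCell 0 536870912 1073741824 536870912 1020054732 13421774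
    (rowB 3 eng mog cd2q0 cd4q2 pd1 0 false true false .pnp 0 1 2 (qsf 0 536870912 1073741824 536870912 1) ndB2q0 ndB4q2 pcB1 Cut.none Ext.none)

def k0_pm_012 : ∃ t, chk3 f_pm_012 t 1 1 1 = true :=
  ⟨(l 4), by decide +kernel⟩

theorem c_pm_012 : CertB 0 536870912 1073741824 536870912 1020054732 13421774 3 eng mog cd2q0 cd4q2 pd1 false true false .pnp 0 1 2
    ndB2q0 ndB4q2 pcB1 Cut.none Ext.none :=
  certB0 (fam := false) (s1 := true) (s2 := false) (a := 0) (b := 1) (c := 2) (cn := .pnp) (n1 := ndB2q0) (n2 := ndB4q2) (pc := pcB1) (cut := Cut.none) (xt := Ext.none) (P1 := 0) (W1 := 536870912) (P2 := 1073741824) (W2 := 536870912) (P3 := 1020054732) (W3 := 13421774) (N0 := 3) (En := eng) (mo := mog) (C1 := cd2q0) (C2 := cd4q2) (C3 := pd1)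
    rfl k0_pm_012

noncomputable def f_pm_022 : ℕ → ℕ → ℕ → ℕ → Bool := onCell 0 536870912 1073741824 536870912 1020054732 13421774
    (rowB 3 eng mog cd2q0 cd4q2 pd2 0 false true false .pp 0 2 2 (qsf 0 536870912 1073741824 536870912 2) ndB2q0 ndB4q2 pcB2 Cut.none Ext.none)

def k0_pm_022 : ∃ t, chk3 f_pm_022 t 1 1 1 = true :=
  ⟨(l 4), by decide +kernel⟩

theorem c_pm_022 : CertB 0 536870912 1073741824 536870912 1020054732 13421774 3 eng mog cd2q0 cd4q2 pd2 false true false .pp 0 2 2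
    ndB2q0 ndB4q2 pcB2 Cut.none Ext.none :=
  certB0 (fam := false) (s1 := true) (s2 := false) (a := 0) (b := 2) (c := 2) (cn := .pp) (n1 := ndB2q0) (n2 := ndB4q2) (pc := pcB2) (cut := Cut.none) (xt := Ext.none) (P1 := 0) (W1 := 536870912) (P2 := 1073741824) (W2 := 536870912) (P3 := 1020054732) (W3 := 13421774) (N0 := 3) (En := eng) (mo := mog) (C1 := cd2q0) (C2 := cd4q2) (C3 := pd2)
    rfl k0_pm_022

noncomputable def f_pm_023 : ℕ → ℕ → ℕ → ℕ → Bool := onCell 0 536870912 0 1230186008 1020054732 13421774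
    (rowB 3 eng mog cd2q0 cd4q3 pd2 0 false true false .up 0 2 3 (qsf 0 536870912 0 1230186008 2) ndB2q0 ndB4q3 pcB2 Cut.none Ext.none)

def k0_pm_023 : ∃ t, chk3 f_pm_023 t 1 1 1 = true :=
  ⟨(b (b (a (l 2) (l 4)) (l 4)) (l 4)), by decide +kernel⟩

theorem c_pm_023 : CertB 0 536870912 0 1230186008 1020054732 13421774 3 eng mog cd2q0 cd4q3 pd2 false true false .up 0 2 3
    ndB2q0 ndB4q3 pcB2 Cut.none Ext.none :=
  certB0 (fam := false) (s1 := true) (s2 := false) (a := 0) (b := 2) (c := 3) (cn := .up) (n1 := ndB2q0) (n2 := ndB4q3) (pc := pcB2) (cut := Cut.none) (xt := Ext.none) (P1 := 0) (W1 := 536870912) (P2 := 0) (W2 := 1230186008) (P3 := 1020054732) (W3 := 13421774) (N0 := 3) (En := eng) (mo := mog) (C1 := cd2q0) (C2 := cd4q3) (C3 := pd2)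
    rfl k0_pm_023

noncomputable def f_pm_033 : ℕ → ℕ → ℕ → ℕ → Bool := onCell 0 536870912 0 1230186008 1020054732 13421774
    (rowB 3 eng mog cd2q0 cd4q3 pd3 0 false true false .pnn 0 3 3 (qsf 0 536870912 0 1230186008 3) ndB2q0 ndB4q3 pcB3 Cut.none Ext.none)

def k0_pm_033 : ∃ t, chk3 f_pm_033 t 1 1 1 = true :=
  ⟨(b (b (a (l 4) (l 4)) (l 4)) (l 4)), by decide +kernel⟩

theorem c_pm_033 : CertB 0 536870912 0 1230186008 1020054732 13421774 3 eng mog cd2q0 cd4q3 pd3 false true false .pnn 0 3 3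
    ndB2q0 ndB4q3 pcB3 Cut.none Ext.none :=
  certB0 (fam := false) (s1 := true) (s2 := false) (a := 0) (b := 3) (c := 3) (cn := .pnn) (n1 := ndB2q0) (n2 := ndB4q3) (pc := pcB3) (cut := Cut.none) (xt := Ext.none) (P1 := 0) (W1 := 536870912) (P2 := 0) (W2 := 1230186008) (P3 := 1020054732) (W3 := 13421774) (N0 := 3) (En := eng) (mo := mog) (C1 := cd2q0) (C2 := cd4q3) (C3 := pd3)
    rfl k0_pm_033

noncomputable def f_pm_101 : ℕ → ℕ → ℕ → ℕ → Bool := onCell 536870912 536870912 536870912 536870912 1020054732 13421774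
    (rowB 3 eng mog cd2q1 cd4q1 pd0 0 false true false .npn 1 0 1 (qsf 536870912 536870912 536870912 536870912 0) ndB2q1 ndB4q1 pcB0 Cut.none Ext.none)

def k0_pm_101 : ∃ t, chk3 f_pm_101 t 1 1 1 = true :=
  ⟨(l 4), by decide +kernel⟩

theorem c_pm_101 : CertB 536870912 536870912 536870912 536870912 1020054732 13421774 3 eng mog cd2q1 cd4q1 pd0 false true false .npn 1 0 1
    ndB2q1 ndB4q1 pcB0 Cut.none Ext.none :=
  certB0 (fam := false) (s1 := true) (s2 := false) (a := 1) (b := 0) (c := 1) (cn := .npn) (n1 := ndB2q1) (n2 := ndB4q1) (pc := pcB0) (cut := Cut.none) (xt := Ext.none) (P1 := 536870912) (W1 := 536870912) (P2 := 536870912) (W2 := 536870912) (P3 := 1020054732) (W3 := 13421774) (N0 := 3) (En := eng) (mo := mog) (C1 := cd2q1) (C2 := cd4q1) (C3 := pd0)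
    rfl k0_pm_101

noncomputable def f_pm_102 : ℕ → ℕ → ℕ → ℕ → Bool := onCell 536870912 536870912 1073741824 536870912 1020054732 13421774
    (rowB 3 eng mog cd2q1 cd4q2 pd0 0 false true false .npp 1 0 2 (qsf 536870912 536870912 1073741824 536870912 0) ndB2q1 ndB4q2 pcB0 Cut.none Ext.none)

def k0_pm_102 : ∃ t, chk3 f_pm_102 t 1 1 1 = true :=
  ⟨(l 4), by decide +kernel⟩

theorem c_pm_102 : CertB 536870912 536870912 1073741824 536870912 1020054732 13421774 3 eng mog cd2q1 cd4q2 pd0 false true false .npp 1 0 2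
    ndB2q1 ndB4q2 pcB0 Cut.none Ext.none :=
  certB0 (fam := false) (s1 := true) (s2 := false) (a := 1) (b := 0) (c := 2) (cn := .npp) (n1 := ndB2q1) (n2 := ndB4q2) (pc := pcB0) (cut := Cut.none) (xt := Ext.none) (P1 := 536870912) (W1 := 536870912) (P2 := 1073741824) (W2 := 536870912) (P3 := 1020054732) (W3 := 13421774) (N0 := 3) (En := eng) (mo := mog) (C1 := cd2q1) (C2 := cd4q2) (C3 := pd0)
    rfl k0_pm_102

noncomputable def f_pm_112 : ℕ → ℕ → ℕ → ℕ → Bool := onCell 536870912 536870912 1073741824 536870912 1020054732 13421774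
    (rowB 3 eng mog cd2q1 cd4q2 pd1 0 false true false .dn 1 1 2 (qsf 536870912 536870912 1073741824 536870912 1) ndB2q1 ndB4q2 pcB1 Cut.none Ext.none)

def k0_pm_112 : ∃ t, chk3 f_pm_112 t 1 1 1 = true :=
  ⟨(l 4), by decide +kernel⟩

theorem c_pm_112 : CertB 536870912 536870912 1073741824 536870912 1020054732 13421774 3 eng mog cd2q1 cd4q2 pd1 false true false .dn 1 1 2
    ndB2q1 ndB4q2 pcB1 Cut.none Ext.none :=
  certB0 (fam := false) (s1 := true) (s2 := false) (a := 1) (b := 1) (c := 2) (cn := .dn) (n1 := ndB2q1) (n2 := ndB4q2) (pc := pcB1) (cut := Cut.none) (xt := Ext.none) (P1 := 536870912) (W1 := 536870912) (P2 := 1073741824) (W2 := 536870912) (P3 := 1020054732) (W3 := 13421774) (N0 := 3) (En := eng) (mo := mog) (C1 := cd2q1) (C2 := cd4q2) (C3 := pd1)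
    rfl k0_pm_112

noncomputable def f_pm_113 : ℕ → ℕ → ℕ → ℕ → Bool := onCell 536870912 536870912 0 1230186008 1020054732 13421774
    (rowB 3 eng mog cd2q1 cd4q3 pd1 0 false true false .nn 1 1 3 (qsf 536870912 536870912 0 1230186008 1) ndB2q1 ndB4q3 pcB1 Cut.none Ext.none)

def k0_pm_113 : ∃ t, chk3 f_pm_113 t 1 1 1 = true :=
  ⟨(b (a (l 2) (a (l 2) (b (a (l 2) (b (l 16398184) (l 15938888))) (b (a (a (l 2) (l 14589944)) (l 15552928)) (a (b (l 189073845831) (l 4)) (b (b (l 15294504) (l 14914744)) (a (l 14561440) (c (l 15428200) (l 15170176))))))))) (b (a (l 4) (a (l 4) (b (a (l 4) (b (l 14751912) (l 4))) (l 4)))) (l 4))), by decide +kernel⟩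

theorem c_pm_113 : CertB 536870912 536870912 0 1230186008 1020054732 13421774 3 eng mog cd2q1 cd4q3 pd1 false true false .nn 1 1 3
    ndB2q1 ndB4q3 pcB1 Cut.none Ext.none :=
  certB0 (fam := false) (s1 := true) (s2 := false) (a := 1) (b := 1) (c := 3) (cn := .nn) (n1 := ndB2q1) (n2 := ndB4q3) (pc := pcB1) (cut := Cut.none) (xt := Ext.none) (P1 := 536870912) (W1 := 536870912) (P2 := 0) (W2 := 1230186008) (P3 := 1020054732) (W3 := 13421774) (N0 := 3) (En := eng) (mo := mog) (C1 := cd2q1) (C2 := cd4q3) (C3 := pd1)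
    rfl k0_pm_113

noncomputable def f_pm_123 : ℕ → ℕ → ℕ → ℕ → Bool := onCell 1073741824 536870912 0 1230186008 1020054732 13421774
    (rowB 3 eng mog cd2q1 cd4q3 pd2 2 false true false .npn 1 2 3 (qsf 536870912 536870912 0 1230186008 2) ndB2q1 ndB4q3 pcB2 Cut.none Ext.none)

def k0_pm_123 : ∃ t, chk3 f_pm_123 t 1 1 1 = true :=
  ⟨(b (b (b (a (a (a (l 15598320) (l 15347872)) (a (l 15308264) (l 15502920))) (a (a (l 15863832) (a (l 16202504) (l 16402472))) (a (l 16428880) (l 16698568)))) (a (a (a (l 15453672) (l 15402816)) (a (l 15595736) (l 15639272))) (a (a (a (l 16081960) (l 16218048)) (l 16376240)) (l 4)))) (a (a (a (b (a (l 15134016) (l 14992160)) (a (l 14096640) (l 14353032))) (b (a (l 15071840) (l 15205552)) (l 4))) (b (a (l 15185856) (l 15742224)) (l 4))) (l 4))) (b (l 4) (l 4))), by decide +kernel⟩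

theorem c_pm_123 : CertB 536870912 536870912 0 1230186008 1020054732 13421774 3 eng mog cd2q1 cd4q3 pd2 false true false .npn 1 2 3
    ndB2q1 ndB4q3 pcB2 Cut.none Ext.none :=
  certB2 (fam := false) (s1 := true) (s2 := false) (a := 1) (b := 2) (c := 3) (cn := .npn) (n1 := ndB2q1) (n2 := ndB4q3) (pc := pcB2) (cut := Cut.none) (xt := Ext.none) (P1 := 536870912) (W1 := 536870912) (P2 := 0) (W2 := 1230186008) (P3 := 1020054732) (W3 := 13421774) (N0 := 3) (En := eng) (mo := mog) (C1 := cd2q1) (C2 := cd4q3) (C3 := pd2)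
    rfl (fun _ => rfl) k0_pm_123

noncomputable def f_pm_133 : ℕ → ℕ → ℕ → ℕ → Bool := onCell 1610612736 536870912 0 1230186008 1020054732 13421774
    (rowB 3 eng mog cd2q1 cd4q3 pd3 2 false true false .dn 1 3 3 (qsf 536870912 536870912 0 1230186008 3) ndB2q1 ndB4q3 pcB3 Cut.none Ext.none)

def k0_pm_133 : ∃ t, chk3 f_pm_133 t 1 1 1 = true :=
  ⟨(b (b (a (l 4) (l 1)) (l 1)) (l 1)), by decide +kernel⟩

theorem c_pm_133 : CertB 536870912 536870912 0 1230186008 1020054732 13421774 3 eng mog cd2q1 cd4q3 pd3 false true false .dn 1 3 3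
    ndB2q1 ndB4q3 pcB3 Cut.none Ext.none :=
  certB2 (fam := false) (s1 := true) (s2 := false) (a := 1) (b := 3) (c := 3) (cn := .dn) (n1 := ndB2q1) (n2 := ndB4q3) (pc := pcB3) (cut := Cut.none) (xt := Ext.none) (P1 := 536870912) (W1 := 536870912) (P2 := 0) (W2 := 1230186008) (P3 := 1020054732) (W3 := 13421774) (N0 := 3) (En := eng) (mo := mog) (C1 := cd2q1) (C2 := cd4q3) (C3 := pd3)
    rfl (fun _ => rfl) k0_pm_133

noncomputable def f_pm_202_a : ℕ → ℕ → ℕ → ℕ → Bool := onCell 0 536870912 0 536870912 1020054732 13421774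
    (rowB 3 eng mog cd2q2a cd4q2 pd0 1 false true false .pp 2 0 2 (qsf 0 536870912 1073741824 536870912 0) ndB2q2a ndB4q2 pcB0 Cut.none Ext.none)

def k0_pm_202_a : ∃ t, chk3 f_pm_202_a t 2 1 1 = true :=
  ⟨(b (a (b (b (b (b (l 14388184) (b (l 14363136) (a (l 14366512) (l 14296728)))) (b (l 14272712) (l 14229432))) (b (l 14180712) (l 14091672))) (b (b (l 13986624) (l 13926912)) (c (l 13832656) (l 13765296)))) (b (b (a (b (b (a (l 14320720) (l 14285432)) (b (l 14260600) (l 14231240))) (b (l 14191472) (l 14144760))) (b (b (a (l 14260520) (l 14228832)) (a (b (l 14211504) (l 14183272)) (l 14171880))) (b (a (l 14142720) (l 14109640)) (l 14075944)))) (b (a (l 14075088) (l 14003504)) (l 13951896))) (b (b (l 13870376) (l 13772584)) (b (l 13698648) (l 13730800))))) (b (b (b (a (b (a (l 13752160) (l 13690192)) (a (l 13764936) (l 13664672))) (l 13762624)) (a (a (l 13871136) (l 13677752)) (a (b (l 13560496) (a (l 13576160) (l 13509408))) (l 13463272)))) (a (b (l 13942376)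 (l 14124536)) (b (a (l 13627520) (b (l 13416976) (a (l 13463624) (l 13360296)))) (a (l 13811960) (l 13525760))))) (b (a (l 2) (b (l 998674251671) (l 2))) (l 2)))), by decide +kernel⟩

def k1_pm_202_a : ∃ t, chk3 f_pm_202_a t 3 2 1 = true :=
  ⟨(a (b (b (b (a (b (l 14188936) (l 14127640)) (b (a (l 14152048) (l 14130848)) (l 14077720))) (a (b (l 14133088) (a (l 14025616) (l 13995512))) (a (l 13997200) (l 13971792)))) (b (a (a (l 13944872) (b (l 13941832) (l 13885664))) (a (l 13882768) (l 13853136))) (a (l 13858288) (a (b (l 13802352) (l 13753192)) (l 13745104))))) (b (b (a (l 13752176) (a (l 13689056) (l 13643280))) (a (l 13673024) (l 13584736))) (b (a (l 13597624) (l 13506168)) (a (l 13523936) (l 13429888))))) (b (b (a (a (b (b (l 14112760) (l 14045872)) (l 13948824)) (b (b (l 14098560) (l 14029472)) (l 13929168))) (b (a (b (b (l 14107560) (l 14071336)) (l 14017816)) (b (a (l 14085352) (l 14086840)) (a (l 14012824) (l 14012648)))) (a (b (l 13948256) (l 13880656))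 (a (l 13906560) (l 13905104))))) (a (b (a (l 13826320) (l 13802424)) (a (l 13712264) (l 13684016))) (a (b (l 13782864) (l 13659920)) (b (l 13854336) (l 13643096))))) (b (a (b (a (l 13609312) (l 13574824)) (a (l 13513936) (l 13476880))) (b (a (l 13545952) (l 13524440)) (a (l 13442024) (l 13415424)))) (a (b (a (l 13436240) (l 13387248)) (a (l 13357936) (l 13311288))) (b (a (l 13350600) (l 13317408)) (a (l 13268168) (l 13231848))))))), by decide +kernel⟩

def k2_pm_202_a : ∃ t, chk3 f_pm_202_a t 3 3 1 = true :=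
  ⟨(b (a (b (a (l 13413120) (b (l 13353624) (l 13275208))) (b (a (l 13293944) (l 13192496)) (a (b (l 13246712) (a (l 13311888) (l 13179888))) (l 13103320)))) (b (a (b (l 13276704) (l 13175496)) (b (a (l 13189464) (l 13155336)) (a (l 13109480) (l 13076240)))) (b (a (l 13091032) (l 13196632)) (a (l 12999920) (l 12918648))))) (b (a (a (b (l 13370392) (l 2)) (b (b (l 13045168) (l 13025832)) (b (l 13099896) (l 13209472)))) (a (b (l 12899696) (b (l 12822208) (l 12782968))) (b (l 12883608) (a (l 12726424) (l 12704024))))) (a (l 2) (a (b (a (l 13005768) (b (l 12714400) (l 12773912))) (l 2)) (b (a (b (l 12634520) (l 12586512)) (l 12583744)) (b (a (l 12613848) (l 12485640)) (a (l 2) (l 12515520)))))))), by decide +kernel⟩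

theorem s3_pm_202_a : ∃ t, chk3 f_pm_202_a t 3 1 1 = true := ex3_b k1_pm_202_a k2_pm_202_a

theorem s4_pm_202_a : ∃ t, chk3 f_pm_202_a t 1 1 1 = true := ex3_a k0_pm_202_a s3_pm_202_a

theorem c_pm_202_a : CertB 0 536870912 1073741824 536870912 1020054732 13421774 3 eng mog cd2q2a cd4q2 pd0 false true false .pp 2 0 2
    ndB2q2a ndB4q2 pcB0 Cut.none Ext.none :=
  certB1 (fam := false) (s1 := true) (s2 := false) (a := 2) (b := 0) (c := 2) (cn := .pp) (n1 := ndB2q2a) (n2 := ndB4q2) (pc := pcB0) (cut := Cut.none) (xt := Ext.none) (P1 := 0) (W1 := 536870912) (P2 := 1073741824) (W2 := 536870912) (P3 := 1020054732) (W3 := 13421774) (N0 := 3) (En := eng) (mo := mog) (C1 := cd2q2a) (C2 := cd4q2) (C3 := pd0)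
    rfl (fun _ => rfl) s4_pm_202_a

noncomputable def f_pm_202_b : ℕ → ℕ → ℕ → ℕ → Bool := onCell 0 536870912 1073741824 536870912 1020054732 13421774
    (rowB 3 eng mog cd2q2b cd4q2 pd0 2 false true false .pp 2 0 2 (qsf 1239849684 370763052 1073741824 536870912 0) ndB2q2b ndB4q2 pcB0 Cut.none Ext.none)

def k0_pm_202_b : ∃ t, chk3 f_pm_202_b t 1 1 1 = true :=
  ⟨(a (b (a (b (l 1) (a (a (a (b (l 304434771031) (b (l 14415488) (l 14378432))) (b (b (l 1) (a (l 14439936) (l 14420480))) (b (a (l 14391216) (l 14372856)) (l 14324696)))) (b (b (l 1) (a (l 224441340423) (l 1))) (b (a (l 14373496) (l 14328944)) (a (l 14321200) (l 14300976))))) (b (l 1) (b (a (l 236252209319) (l 1)) (a (l 14249824) (l 14203408)))))) (l 1)) (a (b (b (a (a (a (l 14346384) (a (l 14327824) (l 14313296))) (a (b (l 14302936) (l 14296640)) (b (l 14286184) (l 14283448)))) (b (a (l 14240016) (l 14158064)) (a (l 14242816) (l 14168208)))) (a (a (a (l 14338552) (l 14319456)) (b (l 14296032) (l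 14312008))) (a (l 14269032) (l 14207248)))) (a (a (a (l 14385456) (a (l 14386448) (l 14385456))) (a (l 14387320) (l 14391136))) (b (l 14317528) (l 14423896)))) (b (a (b (b (a (l 14053304) (l 1)) (a (l 14070480) (l 13947080))) (a (l 14122272) (l 14011064))) (b (l 1) (a (l 555151760903) (l 432744848215)))) (a (b (a (l 14230928) (l 14141216)) (a (l 14383864) (b (l 14272696) (l 14379856)))) (b (b (l 273294597127) (a (l 14070472) (l 13940624))) (a (b (l 14187856) (l 14342920)) (l 14209888))))))) (b (l 1) (a (b (l 1) (b (a (a (b (l 300674494455) (l 13820168)) (b (l 1) (l 13722120))) (l 1)) (a (a (l 14147472) (l 14036240)) (a (l 197595998167) (l 333424179879))))) (l 1)))), by decide +kernel⟩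

theorem c_pm_202_b : CertB 1239849684 370763052 1073741824 536870912 1020054732 13421774 3 eng mog cd2q2b cd4q2 pd0 false true false .pp 2 0 2
    ndB2q2b ndB4q2 pcB0 Cut.none Ext.none :=
  certB2 (fam := false) (s1 := true) (s2 := false) (a := 2) (b := 0) (c := 2) (cn := .pp) (n1 := ndB2q2b) (n2 := ndB4q2) (pc := pcB0) (cut := Cut.none) (xt := Ext.none) (P1 := 1239849684) (W1 := 370763052) (P2 := 1073741824) (W2 := 536870912) (P3 := 1020054732) (W3 := 13421774) (N0 := 3) (En := eng) (mo := mog) (C1 := cd2q2b) (C2 := cd4q2) (C3 := pd0)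
    rfl (fun _ => rfl) k0_pm_202_b

noncomputable def f_pm_203_a : ℕ → ℕ → ℕ → ℕ → Bool := onCell 0 536870912 0 1230186008 1020054732 13421774
    (rowB 3 eng mog cd2q2a cd4q3 pd0 0 false true false .up 2 0 3 (qsf 0 536870912 0 1230186008 0) ndB2q2a ndB4q3 pcB0 Cut.none Ext.none)

def k0_pm_203_a : ∃ t, chk3 f_pm_203_a t 1 1 1 = true :=
  ⟨(b (l 2) (b (l 2) (a (b (b (l 2) (a (l 16331480) (l 16207520))) (b (a (b (l 16309312) (l 16292016)) (b (a (l 16216096) (l 16120712)) (a (l 16178584) (l 16025040)))) (a (b (a (l 16315312) (l 16221424)) (l 16175808)) (b (l 15942176) (l 15662176))))) (b (l 2) (b (a (b (a (l 15967456) (l 2)) (a (l 15831256) (l 15593088))) (a (b (l 2) (l 15300920)) (l 2))) (a (b (a (l 15683448) (l 15426080)) (a (l 15525832) (l 15250048))) (a (b (l 15113776) (l 14917856)) (b (l 14735720) (b (l 14574272) (l 14476216)))))))))), by decide +kernel⟩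

theorem c_pm_203_a : CertB 0 536870912 0 1230186008 1020054732 13421774 3 eng mog cd2q2a cd4q3 pd0 false true false .up 2 0 3
    ndB2q2a ndB4q3 pcB0 Cut.none Ext.none :=
  certB0 (fam := false) (s1 := true) (s2 := false) (a := 2) (b := 0) (c := 3) (cn := .up) (n1 := ndB2q2a) (n2 := ndB4q3) (pc := pcB0) (cut := Cut.none) (xt := Ext.none) (P1 := 0) (W1 := 536870912) (P2 := 0) (W2 := 1230186008) (P3 := 1020054732) (W3 := 13421774) (N0 := 3) (En := eng) (mo := mog) (C1 := cd2q2a) (C2 := cd4q3) (C3 := pd0)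
    rfl k0_pm_203_a

noncomputable def f_pm_203_b : ℕ → ℕ → ℕ → ℕ → Bool := onCell 0 536870912 0 1230186008 1020054732 13421774
    (rowB 3 eng mog cd2q2b cd4q3 pd0 2 false true false .up 2 0 3 (qsf 1239849684 370763052 0 1230186008 0) ndB2q2b ndB4q3 pcB0 Cut.none Ext.none)

def k0_pm_203_b : ∃ t, chk3 f_pm_203_b t 1 1 1 = true :=
  ⟨(b (l 3) (b (b (l 3) (a (l 3) (a (a (l 3) (b (l 3) (a (l 3) (b (l 3) (l 16189912))))) (a (b (l 3) (b (l 173038816631) (l 79086346919))) (b (b (l 3) (l 167133390231)) (b (l 72107499463) (l 16405112))))))) (a (b (a (l 2) (a (b (l 3) (b (a (l 2) (l 15713512)) (a (l 15588144) (l 15718704)))) (b (a (l 197734027655) (l 194512966295)) (b (a (l 15826344) (l 15936864)) (l 15673608))))) (a (b (a (l 2) (a (b (l 2) (l 15469232)) (b (l 15471368) (l 15561848)))) (a (a (a (l 15364792) (a (l 15460808) (l 15529488))) (a (l 538579172007) (b (l 15558616) (l 15703888)))) (a (b (l 15667640) (a (l 15793384) (l 15886000))) (b (l 15819952) (l 16031992)))))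 (a (b (b (l 15683960) (a (l 15693184) (l 15822616))) (a (b (l 15933472) (l 16204816)) (l 16172824))) (b (a (l 15911376) (l 16050064)) (b (a (l 16125040) (l 16212592)) (l 16439216)))))) (b (a (b (a (a (b (l 3) (l 16009216)) (b (l 16071856) (l 16100848))) (b (l 108077182535) (l 16192808))) (a (b (l 15992576) (l 16143336)) (b (l 16288936) (l 16346208)))) (a (b (b (l 16334584) (l 16377824)) (b (l 16452544) (l 16477600))) (b (b (l 16467656) (l 16478424)) (l 16412624)))) (a (b (a (l 16225240) (l 16434528)) (a (b (a (l 16308312) (l 16406088)) (l 16429208)) (b (l 16269056) (l 16342352)))) (b (a (l 16418400) (l 16309328)) (a (b (l 16336504) (l 352756174503)) (l 1)))))))), by decide +kernel⟩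

theorem c_pm_203_b : CertB 1239849684 370763052 0 1230186008 1020054732 13421774 3 eng mog cd2q2b cd4q3 pd0 false true false .up 2 0 3
    ndB2q2b ndB4q3 pcB0 Cut.none Ext.none :=
  certB2 (fam := false) (s1 := true) (s2 := false) (a := 2) (b := 0) (c := 3) (cn := .up) (n1 := ndB2q2b) (n2 := ndB4q3) (pc := pcB0) (cut := Cut.none) (xt := Ext.none) (P1 := 1239849684) (W1 := 370763052) (P2 := 0) (W2 := 1230186008) (P3 := 1020054732) (W3 := 13421774) (N0 := 3) (En := eng) (mo := mog) (C1 := cd2q2b) (C2 := cd4q3) (C3 := pd0)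
    rfl (fun _ => rfl) k0_pm_203_b

noncomputable def cut_pm_213_a : Cut := Cut.of [[⟨0, 1, 0, 26738688⟩, ⟨1, 1, 0, 26738688⟩, ⟨2, 2, 0, 2621440⟩]]

noncomputable def f_pm_213_a : ℕ → ℕ → ℕ → ℕ → Bool := onCell 0 536870912 0 1230186008 1020054732 13421774
    (rowB 3 eng mog cd2q2a cd4q3 pd1 0 false true false .pnn 2 1 3 (qsf 0 536870912 0 1230186008 1) ndB2q2a ndB4q3 pcB1 cut_pm_213_a Ext.none)

def k0_pm_213_a : ∃ t, chk3 f_pm_213_a t 2 2 1 = true :=
  ⟨(b (l 3) (b (a (l 3) (b (l 3) (a (l 3) (b (l 3) (a (l 3) (l 16463416)))))) (a (b (l 3) (a (l 3) (b (l 298667246823) (a (l 292224827879) (l 157470210311))))) (a (b (b (l 3) (a (l 16452824) (l 16430280))) (b (a (l 16406248) (l 16488712)) (a (l 16485496) (l 16477072)))) (b (b (a (l 16456432) (l 16496912)) (a (l 16491912) (l 16484424))) (b (a (l 16479400) (l 16463416)) (l 16386112))))))), by decide +kernel⟩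

def k1_pm_213_a : ∃ t, chk3 f_pm_213_a t 6 2 1 = true :=
  ⟨(b (b (l 3) (a (l 3) (b (l 3) (a (b (l 3) (l 291151153063)) (b (a (l 372218756279) (l 257328396679)) (a (l 16559144) (l 16605976))))))) (b (a (a (b (l 374366053863) (b (l 168207634663) (l 16507416))) (b (b (l 370071152871) (l 167133918807)) (b (l 16524728) (l 16506504)))) (b (a (b (c (l 16584376) (l 16532760)) (l 16549808)) (b (l 16561960) (l 16548752))) (a (b (l 16524960) (l 16491072)) (b (l 16506264) (l 16458688))))) (a (b (c (a (l 16507672) (l 16488160)) (a (l 16453832) (l 16434088))) (b (l 16426128) (l 16391592))) (b (a (l 16429920) (l 16381576)) (a (b (l 16366048) (l 16323208)) (b (l 16306000) (l 16256976))))))), by decide +kernel⟩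

def k2_pm_213_a : ∃ t, chk3 f_pm_213_a t 7 2 1 = true :=
  ⟨(b (a (b (b (l 3) (a (l 3) (a (l 3) (b (l 3) (b (l 380272043895) (c (l 261623620967) (l 256254844823))))))) (b (a (b (a (l 3) (l 376513814871)) (a (l 282024495207) (l 210083836343))) (b (a (c (l 260549827303) (l 254644170183)) (b (l 16618024) (l 16670768))) (a (l 16627016) (l 16665944)))) (a (b (a (l 16598784) (l 16652664)) (l 16561808)) (b (a (l 16676816) (l 16687152)) (l 16623664))))) (b (a (b (a (l 3) (a (l 3) (a (b (l 3) (l 437717366135)) (l 6)))) (a (b (b (l 3) (a (l 429664305447) (l 265381733847))) (a (b (l 16624984) (l 16699688)) (l 16651656))) (b (a (b (b (l 413558139607) (l 261623675735)) (l 16676040)) (b (c (l 16718328) (l 16698160)) (l 16699144))) (a (l 16673560) (l 16717640))))) (b (l 6) (a (b (a (b (l 16711880) (l 16744704)) (l 16711832)) (b (l 16729464) (l 16741160))) (b (a (l 16732136) (l 16712472)) (l 16640320))))) (a (b (a (b (l 16643928) (l 16729256)) (b (l 16688176) (l 16779760)))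 (b (l 16702728) (l 16663376))) (b (a (b (l 16729528) (l 16738264)) (b (l 16688176) (l 16697608))) (a (l 16681832) (l 16648040)))))) (b (a (b (a (b (l 16578872) (l 16525440)) (l 16582984)) (a (l 16435464) (b (l 16409552) (l 16332616)))) (b (a (l 16515056) (a (l 16663936) (b (l 16674808) (l 16670168)))) (a (b (l 16359040) (l 16254912)) (b (l 16455120) (l 16249008))))) (a (b (a (b (l 16344152) (l 16282848)) (b (l 16256848) (l 16185592))) (a (b (l 16224448) (l 16171784)) (c (l 16129352) (l 16052856)))) (b (a (b (l 16157664) (l 16071064)) (c (l 16080904) (l 15950112))) (a (c (l 16004488) (l 15922848)) (c (l 15863064) (l 15768768))))))), by decide +kernel⟩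

def k3_pm_213_a : ∃ t, chk3 f_pm_213_a t 1 12 1 = true :=
  ⟨(a (a (b (c (a (b (l 328195305943) (a (l 185387665063) (l 16508560))) (b (l 16505328) (l 16484520))) (a (b (l 327121466951) (a (l 16455608) (l 16471360))) (b (l 16466448) (l 16462552)))) (b (a (c (l 16493984) (l 16475112)) (c (l 16456264) (l 16446464))) (a (c (l 16462688) (l 16467824)) (l 16295368)))) (b (a (b (a (l 16476312) (l 16457664)) (l 16383416)) (b (l 16422912) (l 16395896))) (a (b (l 16382232) (l 16339960)) (b (a (l 16385216) (l 16354248)) (c (l 16265424) (l 16318728)))))) (a (b (a (b (a (l 16376880) (l 16335648)) (a (l 16345520) (l 16301392))) (a (b (l 16281960) (l 16245080)) (c (l 16226984) (l 16155384)))) (a (b (a (l 16317360) (l 16271080)) (c (l 16302720) (l 16232624))) (c (b (l 16212496) (l 16181264)) (l 15977856)))) (a (b (c (a (l 16139904) (l 16030464)) (a (l 16067904) (l 15961384))) (c (a (l 16065040) (l 15951168)) (b (l 15966016) (l 15938648)))) (b (a (c (l 15895632) (l 15831016))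 (c (l 15733912) (l 15672232))) (a (c (l 15813248) (l 15774600)) (c (l 15648368) (l 15624624))))))), by decide +kernel⟩

def k4_pm_213_a : ∃ t, chk3 f_pm_213_a t 1 13 1 = true :=
  ⟨(b (a (a (b (a (c (l 16422464) (l 16451856)) (l 16269616)) (a (c (l 16372144) (l 16436408)) (a (l 16390608) (l 16150016)))) (c (a (b (l 16184816) (a (l 16325712) (l 16366136))) (b (l 16336832) (l 16345368))) (a (b (l 16360304) (l 16342400)) (b (l 16295928) (l 16274752))))) (c (a (a (l 16225416) (l 16088712)) (a (b (l 15952376) (l 15908856)) (a (l 15731832) (l 15568640)))) (a (a (l 16194776) (l 16029400)) (a (l 15734216) (a (l 15734968) (l 15596920)))))) (a (a (c (b (a (b (l 16327240) (l 16296296)) (a (l 16290080) (l 16318632))) (a (b (l 16277568) (l 16258264)) (l 16359096))) (b (a (l 16423128) (l 16379832)) (a (l 16328680) (l 16365968)))) (c (a (b (l 16391168) (l 16377120)) (l 16227904)) (a (l 16274072) (l 16241896)))) (a (a (b (l 16189472) (l 16153592)) (b (l 16049912) (l 16007384)))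 (a (c (b (l 15857272) (l 15794152)) (l 15682952)) (c (a (l 15623488) (l 15461776)) (a (l 15692008) (l 15564576))))))), by decide +kernel⟩

def k5_pm_213_a : ∃ t, chk3 f_pm_213_a t 1 7 1 = true :=
  ⟨(a (b (b (a (a (b (c (l 16165344) (l 16401064)) (l 16207928)) (b (l 16237024) (l 16356352))) (b (a (l 16316344) (l 16226392)) (a (l 16277936) (l 16177616)))) (a (b (a (l 16386584) (l 16313904)) (a (l 16337464) (l 16253000))) (b (a (l 16224224) (l 16113224)) (a (l 16151776) (c (l 15992032) (l 16063912)))))) (a (l 1) (b (b (a (l 1) (c (l 15742392) (l 16009504))) (l 1)) (l 1)))) (b (a (b (a (b (l 16108192) (l 16050104)) (c (b (l 15941960) (l 15853408)) (l 15820480))) (a (b (c (l 15941592) (l 16007928)) (b (l 15659120) (l 15689944))) (b (a (l 15642648) (l 15559600)) (c (l 15547392) (l 15838368))))) (b (a (b (c (l 15715864) (l 15800080)) (c (a (l 15681144) (l 15561976)) (l 15755112))) (c (b (a (l 15505256) (l 15352792)) (a (l 15441784) (l 15312744))) (b (l 15521928)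 (l 15377848)))) (a (b (c (a (l 15614376) (l 15526832)) (l 15719584)) (c (l 15585872) (l 15698184))) (c (b (l 15375048) (l 15404456)) (b (l 15516712) (l 15504232)))))) (a (b (b (a (c (l 15824592) (l 15926944)) (c (l 15746448) (l 15828440))) (a (l 15799368) (l 15765360))) (l 1)) (b (a (b (c (l 15635296) (l 15697896)) (l 15633800)) (b (c (l 15467160) (l 15511408)) (c (l 15566888) (l 15540992)))) (b (a (l 15673376) (c (l 15707000) (l 15595528))) (a (l 1) (b (l 15748056) (l 15755096)))))))), by decide +kernel⟩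

theorem s6_pm_213_a : ∃ t, chk3 f_pm_213_a t 1 6 1 = true := ex3_b k3_pm_213_a k4_pm_213_a

theorem s7_pm_213_a : ∃ t, chk3 f_pm_213_a t 1 3 1 = true := ex3_b s6_pm_213_a k5_pm_213_a

theorem s8_pm_213_a : ∃ t, chk3 f_pm_213_a t 3 2 1 = true := ex3_a k1_pm_213_a k2_pm_213_a

theorem s9_pm_213_a : ∃ t, chk3 f_pm_213_a t 1 2 1 = true := ex3_a k0_pm_213_a s8_pm_213_a

theorem s10_pm_213_a : ∃ t, chk3 f_pm_213_a t 1 1 1 = true := ex3_b s9_pm_213_a s7_pm_213_a

theorem c_pm_213_a : CertB 0 536870912 0 1230186008 1020054732 13421774 3 eng mog cd2q2a cd4q3 pd1 false true false .pnn 2 1 3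
    ndB2q2a ndB4q3 pcB1 cut_pm_213_a Ext.none :=
  certB0 (fam := false) (s1 := true) (s2 := false) (a := 2) (b := 1) (c := 3) (cn := .pnn) (n1 := ndB2q2a) (n2 := ndB4q3) (pc := pcB1) (cut := cut_pm_213_a) (xt := Ext.none) (P1 := 0) (W1 := 536870912) (P2 := 0) (W2 := 1230186008) (P3 := 1020054732) (W3 := 13421774) (N0 := 3) (En := eng) (mo := mog) (C1 := cd2q2a) (C2 := cd4q3) (C3 := pd1)
    rfl s10_pm_213_a

noncomputable def cut_pm_213_b : Cut := Cut.of [[⟨0, 1, 0, 26738688⟩, ⟨1, 1, 0, 26738688⟩, ⟨2, 2, 0, 2621440⟩]]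

noncomputable def f_pm_213_b : ℕ → ℕ → ℕ → ℕ → Bool := onCell 1239849684 370763052 0 1230186008 1020054732 13421774
    (rowB 3 eng mog cd2q2b cd4q3 pd1 0 false true false .pnn 2 1 3 (qsf 1239849684 370763052 0 1230186008 1) ndB2q2b ndB4q3 pcB1 cut_pm_213_b Ext.none)

def k0_pm_213_b : ∃ t, chk3 f_pm_213_b t 1 1 1 = true :=
  ⟨(b (a (b (l 3) (l 3)) (l 3)) (b (a (b (a (b (a (b (l 3) (a (c (l 231021671607) (l 231021547239)) (l 3))) (l 3)) (a (c (b (a (b (l 16516232) (l 16506056)) (l 16502680)) (a (l 16482952) (l 16481720))) (b (a (b (l 16468376) (l 16468632)) (l 16446712)) (a (l 16468352) (l 16444760)))) (b (l 3) (a (b (l 16434184) (l 16449640)) (l 3))))) (l 3)) (a (b (a (c (b (a (l 16443816) (l 16440344)) (a (l 16394720) (l 16387312))) (b (a (l 16463704) (l 16439504)) (a (l 16454400) (l 16429152)))) (b (a (c (l 16444728) (l 16418632)) (b (l 16410104) (l 16419808))) (a (c (l 16387632) (l 16406824)) (l 16339064)))) (a (b (a (c (l 16334880) (l 16440528)) (c (l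 16323768) (l 16413912))) (a (b (l 16356160) (l 16331888)) (c (l 16249728) (l 16394376)))) (b (c (a (l 16320112) (l 16322984)) (l 16379656)) (c (l 16094688) (l 16358864))))) (b (a (b (a (l 192903698711) (l 3)) (a (c (l 16404920) (l 16371480)) (c (l 16406328) (l 16353832)))) (b (l 3) (a (l 16343808) (l 1)))) (a (b (c (l 16210384) (l 16343376)) (c (l 16165928) (l 16320792))) (l 1))))) (b (l 3) (l 1))) (a (b (a (b (a (b (c (a (b (l 16206760) (l 16261776)) (b (l 16190144) (l 16188616))) (a (l 16358712) (l 16382920))) (c (a (l 16348768) (l 16279672)) (l 16370040))) (a (b (c (l 16081488) (l 16351720)) (c (l 16128904) (l 16384440))) (b (c (l 16154616) (l 16326968)) (l 1)))) (a (b (c (l 16396320) (l 16413568)) (c (l 16434360) (l 16382592))) (l 1))) (l 1)) (l 1)) (l 1)))), by decide +kernel⟩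

theorem c_pm_213_b : CertB 1239849684 370763052 0 1230186008 1020054732 13421774 3 eng mog cd2q2b cd4q3 pd1 false true false .pnn 2 1 3
    ndB2q2b ndB4q3 pcB1 cut_pm_213_b Ext.none :=
  certB0 (fam := false) (s1 := true) (s2 := false) (a := 2) (b := 1) (c := 3) (cn := .pnn) (n1 := ndB2q2b) (n2 := ndB4q3) (pc := pcB1) (cut := cut_pm_213_b) (xt := Ext.none) (P1 := 1239849684) (W1 := 370763052) (P2 := 0) (W2 := 1230186008) (P3 := 1020054732) (W3 := 13421774) (N0 := 3) (En := eng) (mo := mog) (C1 := cd2q2b) (C2 := cd4q3) (C3 := pd1)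
    rfl k0_pm_213_b

noncomputable def f_pm_303 : ℕ → ℕ → ℕ → ℕ → Bool := onCell 0 536870912 0 1230186008 1020054732 13421774
    (rowB 3 eng mog cd2q3 cd4q3 pd0 2 false true false .npn 3 0 3 (qsf 1610612736 536870912 0 1230186008 0) ndB2q3 ndB4q3 pcB0 Cut.none Ext.none)

def k0_pm_303 : ∃ t, chk3 f_pm_303 t 1 1 1 = true :=
  ⟨(b (l 3) (b (b (l 3) (a (l 3) (a (a (l 3) (b (l 3) (l 1))) (l 1)))) (a (a (b (b (l 3) (b (a (l 3) (a (l 3) (l 202028357415))) (a (a (a (b (l 3) (l 15227144)) (l 15204160)) (c (l 15465120) (l 15146648))) (a (b (l 15496264) (l 15495016)) (c (l 15671136) (l 15531496)))))) (b (a (a (a (b (b (l 15258064) (l 15335368)) (b (b (l 15379064) (l 15424824)) (l 15487328))) (a (b (l 15340752) (b (l 15494440) (l 15576400))) (b (b (l 15321072) (l 15424592)) (l 15587096)))) (a (b (b (l 15359584) (l 15442264)) (l 15618728)) (b (b (l 15418296) (l 15462184)) (l 15628936)))) (a (b (b (l 15505392) (l 15540672)) (l 15687736)) (b (l 15639872) (b (l 15697448)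 (l 1))))) (a (a (a (l 15692624) (a (l 15772376) (l 15830048))) (a (b (l 15795056) (l 15942056)) (b (l 15817568) (l 1)))) (a (b (a (l 15883064) (l 1)) (l 1)) (l 1))))) (b (a (b (l 3) (b (a (c (l 15741256) (l 15643760)) (b (l 15717872) (l 15787992))) (a (b (l 15700584) (l 15711288)) (l 15617968)))) (b (b (l 3) (a (l 196123304567) (l 1))) (l 1))) (a (b (b (c (l 15872200) (l 15724128)) (l 1)) (l 1)) (l 1)))) (l 1)))), by decide +kernel⟩

theorem c_pm_303 : CertB 1610612736 536870912 0 1230186008 1020054732 13421774 3 eng mog cd2q3 cd4q3 pd0 false true false .npn 3 0 3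
    ndB2q3 ndB4q3 pcB0 Cut.none Ext.none :=
  certB2 (fam := false) (s1 := true) (s2 := false) (a := 3) (b := 0) (c := 3) (cn := .npn) (n1 := ndB2q3) (n2 := ndB4q3) (pc := pcB0) (cut := Cut.none) (xt := Ext.none) (P1 := 1610612736) (W1 := 536870912) (P2 := 0) (W2 := 1230186008) (P3 := 1020054732) (W3 := 13421774) (N0 := 3) (En := eng) (mo := mog) (C1 := cd2q3) (C2 := cd4q3) (C3 := pd0)
    rfl (fun _ => rfl) k0_pm_303

noncomputable def f_pm_313 : ℕ → ℕ → ℕ → ℕ → Bool := onCell 1610612736 536870912 0 1230186008 1020054732 13421774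
    (rowB 3 eng mog cd2q3 cd4q3 pd1 0 false true false .dn 3 1 3 (qsf 1610612736 536870912 0 1230186008 1) ndB2q3 ndB4q3 pcB1 Cut.none Ext.none)

def k0_pm_313 : ∃ t, chk3 f_pm_313 t 1 1 1 = true :=
  ⟨(b (l 3) (l 1)), by decide +kernel⟩

theorem c_pm_313 : CertB 1610612736 536870912 0 1230186008 1020054732 13421774 3 eng mog cd2q3 cd4q3 pd1 false true false .dn 3 1 3
    ndB2q3 ndB4q3 pcB1 Cut.none Ext.none :=
  certB0 (fam := false) (s1 := true) (s2 := false) (a := 3) (b := 1) (c := 3) (cn := .dn) (n1 := ndB2q3) (n2 := ndB4q3) (pc := pcB1) (cut := Cut.none) (xt := Ext.none) (P1 := 1610612736) (W1 := 536870912) (P2 := 0) (W2 := 1230186008) (P3 := 1020054732) (W3 := 13421774) (N0 := 3) (En := eng) (mo := mog) (C1 := cd2q3) (C2 := cd4q3) (C3 := pd1)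
    rfl k0_pm_313

noncomputable def f_mm_001 : ℕ → ℕ → ℕ → ℕ → Bool := onCell 0 536870912 0 536870912 1020054732 13421774
    (rowB 3 eng mog cd2q0 cd4q1 pd0 1 false false false .up 0 0 1 (qsf 0 536870912 536870912 536870912 0) ndB2q0 ndB4q1 pcB0 Cut.none Ext.none)

def k0_mm_001 : ∃ t, chk3 f_mm_001 t 1 1 1 = true :=
  ⟨(l 3), by decide +kernel⟩

theorem c_mm_001 : CertB 0 536870912 536870912 536870912 1020054732 13421774 3 eng mog cd2q0 cd4q1 pd0 false false false .up 0 0 1
    ndB2q0 ndB4q1 pcB0 Cut.none Ext.none :=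
  certB1 (fam := false) (s1 := false) (s2 := false) (a := 0) (b := 0) (c := 1) (cn := .up) (n1 := ndB2q0) (n2 := ndB4q1) (pc := pcB0) (cut := Cut.none) (xt := Ext.none) (P1 := 0) (W1 := 536870912) (P2 := 536870912) (W2 := 536870912) (P3 := 1020054732) (W3 := 13421774) (N0 := 3) (En := eng) (mo := mog) (C1 := cd2q0) (C2 := cd4q1) (C3 := pd0)
    rfl (fun _ => rfl) k0_mm_001

noncomputable def f_mm_011 : ℕ → ℕ → ℕ → ℕ → Bool := onCell 0 536870912 536870912 536870912 1020054732 13421774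
    (rowB 3 eng mog cd2q0 cd4q1 pd1 1 false false false .pnn 0 1 1 (qsf 0 536870912 536870912 536870912 1) ndB2q0 ndB4q1 pcB1 Cut.none Ext.none)

def k0_mm_011 : ∃ t, chk3 f_mm_011 t 1 1 1 = true :=
  ⟨(l 5), by decide +kernel⟩

theorem c_mm_011 : CertB 0 536870912 536870912 536870912 1020054732 13421774 3 eng mog cd2q0 cd4q1 pd1 false false false .pnn 0 1 1
    ndB2q0 ndB4q1 pcB1 Cut.none Ext.none :=
  certB1 (fam := false) (s1 := false) (s2 := false) (a := 0) (b := 1) (c := 1) (cn := .pnn) (n1 := ndB2q0) (n2 := ndB4q1) (pc := pcB1) (cut := Cut.none) (xt := Ext.none) (P1 := 0) (W1 := 536870912) (P2 := 536870912) (W2 := 536870912) (P3 := 1020054732) (W3 := 13421774) (N0 := 3) (En := eng) (mo := mog) (C1 := cd2q0) (C2 := cd4q1) (C3 := pd1)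
    rfl (fun _ => rfl) k0_mm_011

noncomputable def f_mm_012 : ℕ → ℕ → ℕ → ℕ → Bool := onCell 0 536870912 1073741824 536870912 1020054732 13421774
    (rowB 3 eng mog cd2q0 cd4q2 pd1 0 false false false .pnp 0 1 2 (qsf 0 536870912 1073741824 536870912 1) ndB2q0 ndB4q2 pcB1 Cut.none Ext.none)

def k0_mm_012 : ∃ t, chk3 f_mm_012 t 1 1 1 = true :=
  ⟨(l 5), by decide +kernel⟩

theorem c_mm_012 : CertB 0 536870912 1073741824 536870912 1020054732 13421774 3 eng mog cd2q0 cd4q2 pd1 false false false .pnp 0 1 2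
    ndB2q0 ndB4q2 pcB1 Cut.none Ext.none :=
  certB0 (fam := false) (s1 := false) (s2 := false) (a := 0) (b := 1) (c := 2) (cn := .pnp) (n1 := ndB2q0) (n2 := ndB4q2) (pc := pcB1) (cut := Cut.none) (xt := Ext.none) (P1 := 0) (W1 := 536870912) (P2 := 1073741824) (W2 := 536870912) (P3 := 1020054732) (W3 := 13421774) (N0 := 3) (En := eng) (mo := mog) (C1 := cd2q0) (C2 := cd4q2) (C3 := pd1)
    rfl k0_mm_012

noncomputable def f_mm_022 : ℕ → ℕ → ℕ → ℕ → Bool := onCell 0 536870912 1073741824 536870912 1020054732 13421774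
    (rowB 3 eng mog cd2q0 cd4q2 pd2 0 false false false .pp 0 2 2 (qsf 0 536870912 1073741824 536870912 2) ndB2q0 ndB4q2 pcB2 Cut.none Ext.none)

def k0_mm_022 : ∃ t, chk3 f_mm_022 t 1 1 1 = true :=
  ⟨(l 5), by decide +kernel⟩

theorem c_mm_022 : CertB 0 536870912 1073741824 536870912 1020054732 13421774 3 eng mog cd2q0 cd4q2 pd2 false false false .pp 0 2 2
    ndB2q0 ndB4q2 pcB2 Cut.none Ext.none :=
  certB0 (fam := false) (s1 := false) (s2 := false) (a := 0) (b := 2) (c := 2) (cn := .pp) (n1 := ndB2q0) (n2 := ndB4q2) (pc := pcB2) (cut := Cut.none) (xt := Ext.none) (P1 := 0) (W1 := 536870912) (P2 := 1073741824) (W2 := 536870912) (P3 := 1020054732) (W3 := 13421774) (N0 := 3) (En := eng) (mo := mog) (C1 := cd2q0) (C2 := cd4q2) (C3 := pd2)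
    rfl k0_mm_022

noncomputable def f_mm_023 : ℕ → ℕ → ℕ → ℕ → Bool := onCell 0 536870912 0 1230186008 1020054732 13421774
    (rowB 3 eng mog cd2q0 cd4q3 pd2 0 false false false .up 0 2 3 (qsf 0 536870912 0 1230186008 2) ndB2q0 ndB4q3 pcB2 Cut.none Ext.none)

def k0_mm_023 : ∃ t, chk3 f_mm_023 t 1 1 1 = true :=
  ⟨(l 5), by decide +kernel⟩

theorem c_mm_023 : CertB 0 536870912 0 1230186008 1020054732 13421774 3 eng mog cd2q0 cd4q3 pd2 false false false .up 0 2 3
    ndB2q0 ndB4q3 pcB2 Cut.none Ext.none :=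
  certB0 (fam := false) (s1 := false) (s2 := false) (a := 0) (b := 2) (c := 3) (cn := .up) (n1 := ndB2q0) (n2 := ndB4q3) (pc := pcB2) (cut := Cut.none) (xt := Ext.none) (P1 := 0) (W1 := 536870912) (P2 := 0) (W2 := 1230186008) (P3 := 1020054732) (W3 := 13421774) (N0 := 3) (En := eng) (mo := mog) (C1 := cd2q0) (C2 := cd4q3) (C3 := pd2)
    rfl k0_mm_023

noncomputable def f_mm_033 : ℕ → ℕ → ℕ → ℕ → Bool := onCell 0 536870912 0 1230186008 1020054732 13421774
    (rowB 3 eng mog cd2q0 cd4q3 pd3 0 false false false .pnn 0 3 3 (qsf 0 536870912 0 1230186008 3) ndB2q0 ndB4q3 pcB3 Cut.none Ext.none)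

def k0_mm_033 : ∃ t, chk3 f_mm_033 t 1 1 1 = true :=
  ⟨(l 5), by decide +kernel⟩

theorem c_mm_033 : CertB 0 536870912 0 1230186008 1020054732 13421774 3 eng mog cd2q0 cd4q3 pd3 false false false .pnn 0 3 3
    ndB2q0 ndB4q3 pcB3 Cut.none Ext.none :=
  certB0 (fam := false) (s1 := false) (s2 := false) (a := 0) (b := 3) (c := 3) (cn := .pnn) (n1 := ndB2q0) (n2 := ndB4q3) (pc := pcB3) (cut := Cut.none) (xt := Ext.none) (P1 := 0) (W1 := 536870912) (P2 := 0) (W2 := 1230186008) (P3 := 1020054732) (W3 := 13421774) (N0 := 3) (En := eng) (mo := mog) (C1 := cd2q0) (C2 := cd4q3) (C3 := pd3)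
    rfl k0_mm_033

noncomputable def f_mm_101 : ℕ → ℕ → ℕ → ℕ → Bool := onCell 536870912 536870912 536870912 536870912 1020054732 13421774
    (rowB 3 eng mog cd2q1 cd4q1 pd0 0 false false false .npn 1 0 1 (qsf 536870912 536870912 536870912 536870912 0) ndB2q1 ndB4q1 pcB0 Cut.none Ext.none)

def k0_mm_101 : ∃ t, chk3 f_mm_101 t 1 1 1 = true :=
  ⟨(l 3), by decide +kernel⟩

theorem c_mm_101 : CertB 536870912 536870912 536870912 536870912 1020054732 13421774 3 eng mog cd2q1 cd4q1 pd0 false false false .npn 1 0 1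
    ndB2q1 ndB4q1 pcB0 Cut.none Ext.none :=
  certB0 (fam := false) (s1 := false) (s2 := false) (a := 1) (b := 0) (c := 1) (cn := .npn) (n1 := ndB2q1) (n2 := ndB4q1) (pc := pcB0) (cut := Cut.none) (xt := Ext.none) (P1 := 536870912) (W1 := 536870912) (P2 := 536870912) (W2 := 536870912) (P3 := 1020054732) (W3 := 13421774) (N0 := 3) (En := eng) (mo := mog) (C1 := cd2q1) (C2 := cd4q1) (C3 := pd0)
    rfl k0_mm_101

noncomputable def f_mm_102 : ℕ → ℕ → ℕ → ℕ → Bool := onCell 536870912 536870912 1073741824 536870912 1020054732 13421774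
    (rowB 3 eng mog cd2q1 cd4q2 pd0 0 false false false .npp 1 0 2 (qsf 536870912 536870912 1073741824 536870912 0) ndB2q1 ndB4q2 pcB0 Cut.none Ext.none)

def k0_mm_102 : ∃ t, chk3 f_mm_102 t 1 1 1 = true :=
  ⟨(l 3), by decide +kernel⟩

theorem c_mm_102 : CertB 536870912 536870912 1073741824 536870912 1020054732 13421774 3 eng mog cd2q1 cd4q2 pd0 false false false .npp 1 0 2
    ndB2q1 ndB4q2 pcB0 Cut.none Ext.none :=
  certB0 (fam := false) (s1 := false) (s2 := false) (a := 1) (b := 0) (c := 2) (cn := .npp) (n1 := ndB2q1) (n2 := ndB4q2) (pc := pcB0) (cut := Cut.none) (xt := Ext.none) (P1 := 536870912) (W1 := 536870912) (P2 := 1073741824) (W2 := 536870912) (P3 := 1020054732) (W3 := 13421774) (N0 := 3) (En := eng) (mo := mog) (C1 := cd2q1) (C2 := cd4q2) (C3 := pd0)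
    rfl k0_mm_102

noncomputable def f_mm_112 : ℕ → ℕ → ℕ → ℕ → Bool := onCell 536870912 536870912 1073741824 536870912 1020054732 13421774
    (rowB 3 eng mog cd2q1 cd4q2 pd1 0 false false false .dn 1 1 2 (qsf 536870912 536870912 1073741824 536870912 1) ndB2q1 ndB4q2 pcB1 Cut.none Ext.none)

def k0_mm_112 : ∃ t, chk3 f_mm_112 t 1 1 1 = true :=
  ⟨(l 3), by decide +kernel⟩

theorem c_mm_112 : CertB 536870912 536870912 1073741824 536870912 1020054732 13421774 3 eng mog cd2q1 cd4q2 pd1 false false false .dn 1 1 2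
    ndB2q1 ndB4q2 pcB1 Cut.none Ext.none :=
  certB0 (fam := false) (s1 := false) (s2 := false) (a := 1) (b := 1) (c := 2) (cn := .dn) (n1 := ndB2q1) (n2 := ndB4q2) (pc := pcB1) (cut := Cut.none) (xt := Ext.none) (P1 := 536870912) (W1 := 536870912) (P2 := 1073741824) (W2 := 536870912) (P3 := 1020054732) (W3 := 13421774) (N0 := 3) (En := eng) (mo := mog) (C1 := cd2q1) (C2 := cd4q2) (C3 := pd1)
    rfl k0_mm_112

noncomputable def f_mm_113 : ℕ → ℕ → ℕ → ℕ → Bool := onCell 536870912 536870912 0 1230186008 1020054732 13421774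
    (rowB 3 eng mog cd2q1 cd4q3 pd1 0 false false false .nn 1 1 3 (qsf 536870912 536870912 0 1230186008 1) ndB2q1 ndB4q3 pcB1 Cut.none Ext.none)

def k0_mm_113 : ∃ t, chk3 f_mm_113 t 1 1 1 = true :=
  ⟨(l 5), by decide +kernel⟩

theorem c_mm_113 : CertB 536870912 536870912 0 1230186008 1020054732 13421774 3 eng mog cd2q1 cd4q3 pd1 false false false .nn 1 1 3
    ndB2q1 ndB4q3 pcB1 Cut.none Ext.none :=
  certB0 (fam := false) (s1 := false) (s2 := false) (a := 1) (b := 1) (c := 3) (cn := .nn) (n1 := ndB2q1) (n2 := ndB4q3) (pc := pcB1) (cut := Cut.none) (xt := Ext.none) (P1 := 536870912) (W1 := 536870912) (P2 := 0) (W2 := 1230186008) (P3 := 1020054732) (W3 := 13421774) (N0 := 3) (En := eng) (mo := mog) (C1 := cd2q1) (C2 := cd4q3) (C3 := pd1)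
    rfl k0_mm_113

noncomputable def f_mm_123 : ℕ → ℕ → ℕ → ℕ → Bool := onCell 536870912 536870912 0 1230186008 1020054732 13421774
    (rowB 3 eng mog cd2q1 cd4q3 pd2 0 false false false .npn 1 2 3 (qsf 536870912 536870912 0 1230186008 2) ndB2q1 ndB4q3 pcB2 Cut.none Ext.none)

def k0_mm_123 : ∃ t, chk3 f_mm_123 t 1 1 1 = true :=
  ⟨(l 5), by decide +kernel⟩

theorem c_mm_123 : CertB 536870912 536870912 0 1230186008 1020054732 13421774 3 eng mog cd2q1 cd4q3 pd2 false false false .npn 1 2 3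
    ndB2q1 ndB4q3 pcB2 Cut.none Ext.none :=
  certB0 (fam := false) (s1 := false) (s2 := false) (a := 1) (b := 2) (c := 3) (cn := .npn) (n1 := ndB2q1) (n2 := ndB4q3) (pc := pcB2) (cut := Cut.none) (xt := Ext.none) (P1 := 536870912) (W1 := 536870912) (P2 := 0) (W2 := 1230186008) (P3 := 1020054732) (W3 := 13421774) (N0 := 3) (En := eng) (mo := mog) (C1 := cd2q1) (C2 := cd4q3) (C3 := pd2)
    rfl k0_mm_123

noncomputable def f_mm_133 : ℕ → ℕ → ℕ → ℕ → Bool := onCell 536870912 536870912 0 1230186008 1020054732 13421774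
    (rowB 3 eng mog cd2q1 cd4q3 pd3 0 false false false .dn 1 3 3 (qsf 536870912 536870912 0 1230186008 3) ndB2q1 ndB4q3 pcB3 Cut.none Ext.none)

def k0_mm_133 : ∃ t, chk3 f_mm_133 t 1 1 1 = true :=
  ⟨(l 5), by decide +kernel⟩

theorem c_mm_133 : CertB 536870912 536870912 0 1230186008 1020054732 13421774 3 eng mog cd2q1 cd4q3 pd3 false false false .dn 1 3 3
    ndB2q1 ndB4q3 pcB3 Cut.none Ext.none :=
  certB0 (fam := false) (s1 := false) (s2 := false) (a := 1) (b := 3) (c := 3) (cn := .dn) (n1 := ndB2q1) (n2 := ndB4q3) (pc := pcB3) (cut := Cut.none) (xt := Ext.none) (P1 := 536870912) (W1 := 536870912) (P2 := 0) (W2 := 1230186008) (P3 := 1020054732) (W3 := 13421774) (N0 := 3) (En := eng) (mo := mog) (C1 := cd2q1) (C2 := cd4q3) (C3 := pd3)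
    rfl k0_mm_133

noncomputable def f_mm_202_a : ℕ → ℕ → ℕ → ℕ → Bool := onCell 0 536870912 1073741824 536870912 1020054732 13421774
    (rowB 3 eng mog cd2q2a cd4q2 pd0 0 false false false .pp 2 0 2 (qsf 0 536870912 1073741824 536870912 0) ndB2q2a ndB4q2 pcB0 Cut.none Ext.none)

def k0_mm_202_a : ∃ t, chk3 f_mm_202_a t 1 1 1 = true :=
  ⟨(l 3), by decide +kernel⟩

theorem c_mm_202_a : CertB 0 536870912 1073741824 536870912 1020054732 13421774 3 eng mog cd2q2a cd4q2 pd0 false false false .pp 2 0 2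
    ndB2q2a ndB4q2 pcB0 Cut.none Ext.none :=
  certB0 (fam := false) (s1 := false) (s2 := false) (a := 2) (b := 0) (c := 2) (cn := .pp) (n1 := ndB2q2a) (n2 := ndB4q2) (pc := pcB0) (cut := Cut.none) (xt := Ext.none) (P1 := 0) (W1 := 536870912) (P2 := 1073741824) (W2 := 536870912) (P3 := 1020054732) (W3 := 13421774) (N0 := 3) (En := eng) (mo := mog) (C1 := cd2q2a) (C2 := cd4q2) (C3 := pd0)
    rfl k0_mm_202_a

noncomputable def f_mm_202_b : ℕ → ℕ → ℕ → ℕ → Bool := onCell 1239849684 370763052 1073741824 536870912 1020054732 13421774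
    (rowB 3 eng mog cd2q2b cd4q2 pd0 0 false false false .pp 2 0 2 (qsf 1239849684 370763052 1073741824 536870912 0) ndB2q2b ndB4q2 pcB0 Cut.none Ext.none)

def k0_mm_202_b : ∃ t, chk3 f_mm_202_b t 1 1 1 = true :=
  ⟨(b (a (l 3) (l 1)) (l 3)), by decide +kernel⟩

theorem c_mm_202_b : CertB 1239849684 370763052 1073741824 536870912 1020054732 13421774 3 eng mog cd2q2b cd4q2 pd0 false false false .pp 2 0 2
    ndB2q2b ndB4q2 pcB0 Cut.none Ext.none :=
  certB0 (fam := false) (s1 := false) (s2 := false) (a := 2) (b := 0) (c := 2) (cn := .pp) (n1 := ndB2q2b) (n2 := ndB4q2) (pc := pcB0) (cut := Cut.none) (xt := Ext.none) (P1 := 1239849684) (W1 := 370763052) (P2 := 1073741824) (W2 := 536870912) (P3 := 1020054732) (W3 := 13421774) (N0 := 3) (En := eng) (mo := mog) (C1 := cd2q2b) (C2 := cd4q2) (C3 := pd0)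
    rfl k0_mm_202_b

noncomputable def f_mm_203_a : ℕ → ℕ → ℕ → ℕ → Bool := onCell 0 536870912 0 1230186008 1020054732 13421774
    (rowB 3 eng mog cd2q2a cd4q3 pd0 0 false false false .up 2 0 3 (qsf 0 536870912 0 1230186008 0) ndB2q2a ndB4q3 pcB0 Cut.none Ext.none)

def k0_mm_203_a : ∃ t, chk3 f_mm_203_a t 1 1 1 = true :=
  ⟨(b (l 2) (l 3)), by decide +kernel⟩

theorem c_mm_203_a : CertB 0 536870912 0 1230186008 1020054732 13421774 3 eng mog cd2q2a cd4q3 pd0 false false false .up 2 0 3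
    ndB2q2a ndB4q3 pcB0 Cut.none Ext.none :=
  certB0 (fam := false) (s1 := false) (s2 := false) (a := 2) (b := 0) (c := 3) (cn := .up) (n1 := ndB2q2a) (n2 := ndB4q3) (pc := pcB0) (cut := Cut.none) (xt := Ext.none) (P1 := 0) (W1 := 536870912) (P2 := 0) (W2 := 1230186008) (P3 := 1020054732) (W3 := 13421774) (N0 := 3) (En := eng) (mo := mog) (C1 := cd2q2a) (C2 := cd4q3) (C3 := pd0)
    rfl k0_mm_203_a

noncomputable def f_mm_203_b : ℕ → ℕ → ℕ → ℕ → Bool := onCell 1239849684 370763052 0 1230186008 1020054732 13421774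
    (rowB 3 eng mog cd2q2b cd4q3 pd0 0 false false false .up 2 0 3 (qsf 1239849684 370763052 0 1230186008 0) ndB2q2b ndB4q3 pcB0 Cut.none Ext.none)

def k0_mm_203_b : ∃ t, chk3 f_mm_203_b t 1 1 1 = true :=
  ⟨(b (l 3) (l 3)), by decide +kernel⟩

theorem c_mm_203_b : CertB 1239849684 370763052 0 1230186008 1020054732 13421774 3 eng mog cd2q2b cd4q3 pd0 false false false .up 2 0 3
    ndB2q2b ndB4q3 pcB0 Cut.none Ext.none :=
  certB0 (fam := false) (s1 := false) (s2 := false) (a := 2) (b := 0) (c := 3) (cn := .up) (n1 := ndB2q2b) (n2 := ndB4q3) (pc := pcB0) (cut := Cut.none) (xt := Ext.none) (P1 := 1239849684) (W1 := 370763052) (P2 := 0) (W2 := 1230186008) (P3 := 1020054732) (W3 := 13421774) (N0 := 3) (En := eng) (mo := mog) (C1 := cd2q2b) (C2 := cd4q3) (C3 := pd0)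
    rfl k0_mm_203_b

noncomputable def f_mm_213_a : ℕ → ℕ → ℕ → ℕ → Bool := onCell 0 536870912 0 1230186008 1020054732 13421774
    (rowB 3 eng mog cd2q2a cd4q3 pd1 0 false false false .pnn 2 1 3 (qsf 0 536870912 0 1230186008 1) ndB2q2a ndB4q3 pcB1 Cut.none Ext.none)

def k0_mm_213_a : ∃ t, chk3 f_mm_213_a t 1 1 1 = true :=
  ⟨(b (a (l 3) (l 5)) (l 3)), by decide +kernel⟩

theorem c_mm_213_a : CertB 0 536870912 0 1230186008 1020054732 13421774 3 eng mog cd2q2a cd4q3 pd1 false false false .pnn 2 1 3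
    ndB2q2a ndB4q3 pcB1 Cut.none Ext.none :=
  certB0 (fam := false) (s1 := false) (s2 := false) (a := 2) (b := 1) (c := 3) (cn := .pnn) (n1 := ndB2q2a) (n2 := ndB4q3) (pc := pcB1) (cut := Cut.none) (xt := Ext.none) (P1 := 0) (W1 := 536870912) (P2 := 0) (W2 := 1230186008) (P3 := 1020054732) (W3 := 13421774) (N0 := 3) (En := eng) (mo := mog) (C1 := cd2q2a) (C2 := cd4q3) (C3 := pd1)
    rfl k0_mm_213_a

noncomputable def f_mm_213_b : ℕ → ℕ → ℕ → ℕ → Bool := onCell 1239849684 370763052 0 1230186008 1020054732 13421774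
    (rowB 3 eng mog cd2q2b cd4q3 pd1 0 false false false .pnn 2 1 3 (qsf 1239849684 370763052 0 1230186008 1) ndB2q2b ndB4q3 pcB1 Cut.none Ext.none)

def k0_mm_213_b : ∃ t, chk3 f_mm_213_b t 1 1 1 = true :=
  ⟨(b (l 3) (l 3)), by decide +kernel⟩

theorem c_mm_213_b : CertB 1239849684 370763052 0 1230186008 1020054732 13421774 3 eng mog cd2q2b cd4q3 pd1 false false false .pnn 2 1 3
    ndB2q2b ndB4q3 pcB1 Cut.none Ext.none :=
  certB0 (fam := false) (s1 := false) (s2 := false) (a := 2) (b := 1) (c := 3) (cn := .pnn) (n1 := ndB2q2b) (n2 := ndB4q3) (pc := pcB1) (cut := Cut.none) (xt := Ext.none) (P1 := 1239849684) (W1 := 370763052) (P2 := 0) (W2 := 1230186008) (P3 := 1020054732) (W3 := 13421774) (N0 := 3) (En := eng) (mo := mog) (C1 := cd2q2b) (C2 := cd4q3) (C3 := pd1)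
    rfl k0_mm_213_b

noncomputable def f_mm_303 : ℕ → ℕ → ℕ → ℕ → Bool := onCell 0 536870912 0 1230186008 1020054732 13421774
    (rowB 3 eng mog cd2q3 cd4q3 pd0 2 false false false .npn 3 0 3 (qsf 1610612736 536870912 0 1230186008 0) ndB2q3 ndB4q3 pcB0 Cut.none Ext.none)

def k0_mm_303 : ∃ t, chk3 f_mm_303 t 1 1 1 = true :=
  ⟨(b (l 3) (l 3)), by decide +kernel⟩

theorem c_mm_303 : CertB 1610612736 536870912 0 1230186008 1020054732 13421774 3 eng mog cd2q3 cd4q3 pd0 false false false .npn 3 0 3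
    ndB2q3 ndB4q3 pcB0 Cut.none Ext.none :=
  certB2 (fam := false) (s1 := false) (s2 := false) (a := 3) (b := 0) (c := 3) (cn := .npn) (n1 := ndB2q3) (n2 := ndB4q3) (pc := pcB0) (cut := Cut.none) (xt := Ext.none) (P1 := 1610612736) (W1 := 536870912) (P2 := 0) (W2 := 1230186008) (P3 := 1020054732) (W3 := 13421774) (N0 := 3) (En := eng) (mo := mog) (C1 := cd2q3) (C2 := cd4q3) (C3 := pd0)
    rfl (fun _ => rfl) k0_mm_303

noncomputable def f_mm_313 : ℕ → ℕ → ℕ → ℕ → Bool := onCell 1610612736 536870912 0 1230186008 1020054732 13421774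
    (rowB 3 eng mog cd2q3 cd4q3 pd1 0 false false false .dn 3 1 3 (qsf 1610612736 536870912 0 1230186008 1) ndB2q3 ndB4q3 pcB1 Cut.none Ext.none)

def k0_mm_313 : ∃ t, chk3 f_mm_313 t 1 1 1 = true :=
  ⟨(b (l 3) (l 1)), by decide +kernel⟩

theorem c_mm_313 : CertB 1610612736 536870912 0 1230186008 1020054732 13421774 3 eng mog cd2q3 cd4q3 pd1 false false false .dn 3 1 3
    ndB2q3 ndB4q3 pcB1 Cut.none Ext.none :=
  certB0 (fam := false) (s1 := false) (s2 := false) (a := 3) (b := 1) (c := 3) (cn := .dn) (n1 := ndB2q3) (n2 := ndB4q3) (pc := pcB1) (cut := Cut.none) (xt := Ext.none) (P1 := 1610612736) (W1 := 536870912) (P2 := 0) (W2 := 1230186008) (P3 := 1020054732) (W3 := 13421774) (N0 := 3) (En := eng) (mo := mog) (C1 := cd2q3) (C2 := cd4q3) (C3 := pd1)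
    rfl k0_mm_313

end Pool.Agent.Strip051.G.I9500_9625.Tab.C.BB24

namespace Pool.Agent.Strip051.G.I9500_9625.Tab.C.BB25

open Pool.Agent.Strip051.PB Pool.Agent.Strip051.PB.T
open Pool.Agent.Strip051.G.I9500_9625.Tab

noncomputable def f_pp_001 : ℕ → ℕ → ℕ → ℕ → Bool := onCell 0 536870912 0 536870912 1020054732 13421774
    (rowB 3 eng mog cd2q0 cd5q1 pd0 1 false true true .up 0 0 1 (qsf 0 536870912 536870912 536870912 0) ndB2q0 ndB5q1 pcB0 Cut.none Ext.none)

def k0_pp_001 : ∃ t, chk3 f_pp_001 t 1 1 1 = true :=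
  ⟨(l 3), by decide +kernel⟩

theorem c_pp_001 : CertB 0 536870912 536870912 536870912 1020054732 13421774 3 eng mog cd2q0 cd5q1 pd0 false true true .up 0 0 1
    ndB2q0 ndB5q1 pcB0 Cut.none Ext.none :=
  certB1 (fam := false) (s1 := true) (s2 := true) (a := 0) (b := 0) (c := 1) (cn := .up) (n1 := ndB2q0) (n2 := ndB5q1) (pc := pcB0) (cut := Cut.none) (xt := Ext.none) (P1 := 0) (W1 := 536870912) (P2 := 536870912) (W2 := 536870912) (P3 := 1020054732) (W3 := 13421774) (N0 := 3) (En := eng) (mo := mog) (C1 := cd2q0) (C2 := cd5q1) (C3 := pd0)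
    rfl (fun _ => rfl) k0_pp_001

noncomputable def cut_pp_011 : Cut := Cut.of [[⟨0, 0, 0, 38347922⟩, ⟨1, 1, 0, 38347922⟩, ⟨2, 1, 0, 38347922⟩]]

noncomputable def f_pp_011 : ℕ → ℕ → ℕ → ℕ → Bool := onCell 0 536870912 536870912 536870912 1020054732 13421774
    (rowB 3 eng mog cd2q0 cd5q1 pd1 1 false true true .pnn 0 1 1 (qsf 0 536870912 536870912 536870912 1) ndB2q0 ndB5q1 pcB1 cut_pp_011 Ext.none)

def k0_pp_011 : ∃ t, chk3 f_pp_011 t 1 1 1 = true :=
  ⟨(b (l 3) (b (l 3) (a (b (l 3) (a (b (l 3) (a (a (l 6) (l 3)) (l 2))) (l 2))) (l 2)))), by decide +kernel⟩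

theorem c_pp_011 : CertB 0 536870912 536870912 536870912 1020054732 13421774 3 eng mog cd2q0 cd5q1 pd1 false true true .pnn 0 1 1
    ndB2q0 ndB5q1 pcB1 cut_pp_011 Ext.none :=
  certB1 (fam := false) (s1 := true) (s2 := true) (a := 0) (b := 1) (c := 1) (cn := .pnn) (n1 := ndB2q0) (n2 := ndB5q1) (pc := pcB1) (cut := cut_pp_011) (xt := Ext.none) (P1 := 0) (W1 := 536870912) (P2 := 536870912) (W2 := 536870912) (P3 := 1020054732) (W3 := 13421774) (N0 := 3) (En := eng) (mo := mog) (C1 := cd2q0) (C2 := cd5q1) (C3 := pd1)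
    rfl (fun _ => rfl) k0_pp_011

noncomputable def cut_pp_012 : Cut := Cut.of [[⟨0, 0, 0, 38347922⟩, ⟨1, 1, 0, 38347922⟩, ⟨2, 1, 0, 38347922⟩]]

noncomputable def f_pp_012 : ℕ → ℕ → ℕ → ℕ → Bool := onCell 0 536870912 536870912 536870912 1020054732 13421774
    (rowB 3 eng mog cd2q0 cd5q2 pd1 1 false true true .pnp 0 1 2 (qsf 0 536870912 1073741824 536870912 1) ndB2q0 ndB5q2 pcB1 cut_pp_012 Ext.none)

def k0_pp_012 : ∃ t, chk3 f_pp_012 t 1 1 1 = true :=
  ⟨(b (l 3) (b (l 3) (a (b (l 3) (a (a (a (b (l 3) (l 6)) (l 3)) (l 3)) (l 3))) (l 3)))), by decide +kernel⟩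

theorem c_pp_012 : CertB 0 536870912 1073741824 536870912 1020054732 13421774 3 eng mog cd2q0 cd5q2 pd1 false true true .pnp 0 1 2
    ndB2q0 ndB5q2 pcB1 cut_pp_012 Ext.none :=
  certB1 (fam := false) (s1 := true) (s2 := true) (a := 0) (b := 1) (c := 2) (cn := .pnp) (n1 := ndB2q0) (n2 := ndB5q2) (pc := pcB1) (cut := cut_pp_012) (xt := Ext.none) (P1 := 0) (W1 := 536870912) (P2 := 1073741824) (W2 := 536870912) (P3 := 1020054732) (W3 := 13421774) (N0 := 3) (En := eng) (mo := mog) (C1 := cd2q0) (C2 := cd5q2) (C3 := pd1)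
    rfl (fun _ => rfl) k0_pp_012

noncomputable def cut_pp_022 : Cut := Cut.of [[⟨0, 0, 0, 38347922⟩, ⟨1, 1, 0, 38347922⟩, ⟨2, 1, 0, 38347922⟩]]

noncomputable def f_pp_022 : ℕ → ℕ → ℕ → ℕ → Bool := onCell 0 536870912 1073741824 536870912 1020054732 13421774
    (rowB 3 eng mog cd2q0 cd5q2 pd2 1 false true true .pp 0 2 2 (qsf 0 536870912 1073741824 536870912 2) ndB2q0 ndB5q2 pcB2 cut_pp_022 Ext.none)

def k0_pp_022 : ∃ t, chk3 f_pp_022 t 2 8 1 = true :=
  ⟨(a (a (b (a (b (a (l 6) (l 3)) (b (b (a (l 6) (l 3)) (a (a (l 6) (a (l 6) (b (l 16746912) (l 16742904)))) (a (l 397452148759) (l 3)))) (a (a (a (l 6) (b (l 6) (c (l 16664280) (l 16644856)))) (a (b (c (l 16720872) (l 16689496)) (l 16653264)) (b (a (l 16698696) (l 16735056)) (c (l 16718928) (l 16688728))))) (a (b (l 16721640) (b (l 16732888) (l 16683544))) (l 414095097015))))) (l 3)) (a (a (b (a (b (a (b (a (l 16641272) (l 16622280)) (l 16582352)) (b (l 16613480) (a (l 16609104) (l 16639536)))) (a (c (l 16611784)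 (l 16580992)) (b (c (l 16629256) (l 16598512)) (l 16530560)))) (b (b (a (l 16632424) (l 16650640)) (a (l 16632224) (l 16649800))) (b (a (l 16610728) (l 16627616)) (l 16534216)))) (a (b (a (l 16495408) (a (l 16518824) (l 16501816))) (a (l 16498152) (l 16460008))) (b (c (l 16559560) (l 16505056)) (b (l 16509608) (l 16466520))))) (b (b (a (b (a (c (l 16714616) (l 16705536)) (l 16718616)) (a (l 16678216) (l 16703064))) (l 16718896)) (a (a (l 16581272) (b (l 16663152) (l 16661032))) (b (l 16685920) (a (l 16677472) (l 16685816))))) (b (a (c (l 16588672) (l 16563776)) (a (l 16629032) (a (l 16636952) (l 16664120)))) (a (b (l 16564080) (l 16563672)) (c (l 16601272) (l 16597880)))))) (b (a (b (l 413558170743) (l 137606517687)) (l 3)) (a (b (b (l 16686688) (a (l 16666512) (l 16680072))) (a (b (l 16651760) (l 16634720)) (l 16660192))) (l 370608365335))))) (l 3)) (l 3)), by decide +kernel⟩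

def k1_pp_022 : ∃ t, chk3 f_pp_022 t 2 9 1 = true :=
  ⟨(a (a (b (a (b (a (a (b (l 16392416) (l 16401992)) (b (a (l 16448976) (l 16506016)) (a (l 16452984) (l 16464648)))) (b (a (l 16469008) (l 16525976)) (a (l 16470008) (l 16505120)))) (a (a (b (l 16406960) (l 16371360)) (b (l 16359480) (l 16386600))) (b (l 16341944) (a (l 16389040) (l 16444032))))) (b (a (b (a (l 16592472) (l 16609984)) (a (l 16539416) (l 16573392))) (b (l 16653944) (a (l 16618824) (l 16634856)))) (a (c (b (l 16552552) (l 16514368)) (l 16368288)) (b (a (l 16583896) (l 16606784)) (a (l 16541008) (l 16572752)))))) (a (a (b (c (l 16289776) (l 16299072)) (c (l 16281104) (l 16230912))) (b (a (a (l 16243336) (l 16234576)) (l 16279336)) (b (l 16210136) (l 16196880)))) (b (a (b (l 16410192) (l 16390920)) (c (l 16472200) (l 16409952))) (a (b (l 16372344) (l 16290992)) (b (l 16432368) (l 16391984)))))) (b (a (b (b (l 377050798279) (l 16584280)) (b (l 16643256) (a (l 16601872) (l 16632008)))) (b (l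 3) (l 301888798055))) (a (b (a (b (l 16550528) (l 16532744)) (b (l 16607328) (l 16578768))) (a (b (l 16469256) (l 16448480)) (b (l 16545416) (l 16502992)))) (b (l 16532168) (b (l 16534976) (a (l 16552944) (l 16588200))))))) (b (l 3) (a (b (l 3) (a (l 16635856) (l 3))) (l 3)))), by decide +kernel⟩

def k2_pp_022 : ∃ t, chk3 f_pp_022 t 2 5 1 = true :=
  ⟨(a (b (a (b (b (a (a (c (l 16207520) (l 16165048)) (b (l 16183096) (l 16212024))) (a (b (l 16274528) (l 16240136)) (b (l 16352192) (l 16313056)))) (a (b (a (l 16133344) (l 16177472)) (b (a (l 16105592) (l 16150184)) (a (b (l 16090400) (l 16079880)) (b (l 16134912) (l 16124368))))) (b (a (l 16163792) (l 16253736)) (b (a (l 16198776) (l 16248024)) (c (l 16146296) (l 16175680)))))) (a (a (b (l 16045344) (l 15988016)) (b (l 16091104) (l 16036200))) (a (b (l 16140960) (l 16088320)) (b (l 16190584) (l 16140072))))) (b (b (a (a (l 16218136) (b (l 16460488) (l 16418224))) (b (a (l 16511944) (l 16558216)) (l 16451456)))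 (b (a (l 16246320) (l 16386000)) (a (b (l 16235400) (b (l 16240520) (a (l 16207864) (l 16316560)))) (b (l 16393960) (b (l 16396000) (l 16342328)))))) (a (b (l 16054336) (l 16131104)) (l 16164776)))) (a (a (b (a (b (l 15933664) (l 15882208)) (b (l 15984152) (l 15934872))) (a (b (l 15833544) (l 15787568)) (l 15845352))) (b (a (l 15910016) (l 15860168)) (a (l 15737144) (l 15980488)))) (a (b (a (l 16120576) (l 16170088)) (l 16059024)) (b (l 16200632) (l 16159104))))) (b (b (b (a (a (b (l 16606864) (l 16578088)) (l 16606296)) (l 16551184)) (b (a (a (l 16519936) (l 16606032)) (l 16569280)) (a (b (a (l 16505080) (l 16588728)) (b (l 16381008) (a (l 16471240) (l 16553832)))) (b (l 16570872) (a (l 16596616) (l 16562968)))))) (a (a (l 16421272) (l 16505488)) (a (l 16583648) (l 16558632)))) (a (a (b (l 16293272) (l 16255056)) (b (l 16422808) (l 16345112))) (a (l 16460664) (l 16525064))))), by decide +kernel⟩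

def k3_pp_022 : ∃ t, chk3 f_pp_022 t 2 3 1 = true :=
  ⟨(a (b (a (b (a (b (a (l 15723864) (l 15720488)) (a (l 15646896) (l 15707304))) (b (a (l 15842712) (l 15898000)) (l 15793832))) (a (b (a (l 15578248) (l 15634696)) (l 15538696)) (b (l 15721952) (l 15655640)))) (b (a (b (l 15978240) (l 15903480)) (l 15815808)) (a (l 15698232) (l 15783240)))) (a (b (a (b (l 15477352) (l 15419264)) (l 15567056)) (a (l 15342152) (l 15429904))) (b (a (l 15634800) (l 15760976)) (a (l 15534496) (l 2))))) (b (a (b (a (l 15936400) (l 16226464)) (a (l 15993016) (l 16070496))) (b (l 16335312) (a (l 16147880) (l 2)))) (a (b (a (l 15842760) (l 2)) (l 2)) (l 2)))), by decide +kernel⟩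

def k4_pp_022 : ∃ t, chk3 f_pp_022 t 3 1 1 = true :=
  ⟨(b (b (b (l 3) (l 3)) (a (b (b (b (l 3) (b (l 3) (b (a (l 16525208) (l 16481448)) (a (l 16526040) (l 16484456))))) (a (l 16528544) (l 16496160))) (a (l 16454704) (b (l 16516064) (l 2)))) (b (b (b (a (l 3) (l 2)) (l 2)) (l 2)) (l 2)))) (a (b (b (a (a (l 16436488) (l 2)) (l 2)) (l 2)) (l 2)) (l 2))), by decide +kernel⟩

theorem s5_pp_022 : ∃ t, chk3 f_pp_022 t 2 4 1 = true := ex3_b k0_pp_022 k1_pp_022

theorem s6_pp_022 : ∃ t, chk3 f_pp_022 t 2 2 1 = true := ex3_b s5_pp_022 k2_pp_022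

theorem s7_pp_022 : ∃ t, chk3 f_pp_022 t 2 1 1 = true := ex3_b s6_pp_022 k3_pp_022

theorem s8_pp_022 : ∃ t, chk3 f_pp_022 t 1 1 1 = true := ex3_a s7_pp_022 k4_pp_022

theorem c_pp_022 : CertB 0 536870912 1073741824 536870912 1020054732 13421774 3 eng mog cd2q0 cd5q2 pd2 false true true .pp 0 2 2
    ndB2q0 ndB5q2 pcB2 cut_pp_022 Ext.none :=
  certB1 (fam := false) (s1 := true) (s2 := true) (a := 0) (b := 2) (c := 2) (cn := .pp) (n1 := ndB2q0) (n2 := ndB5q2) (pc := pcB2) (cut := cut_pp_022) (xt := Ext.none) (P1 := 0) (W1 := 536870912) (P2 := 1073741824) (W2 := 536870912) (P3 := 1020054732) (W3 := 13421774) (N0 := 3) (En := eng) (mo := mog) (C1 := cd2q0) (C2 := cd5q2) (C3 := pd2)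
    rfl (fun _ => rfl) s8_pp_022

noncomputable def f_pp_023 : ℕ → ℕ → ℕ → ℕ → Bool := onCell 1073741824 536870912 0 1230186008 1020054732 13421774
    (rowB 3 eng mog cd2q0 cd5q3 pd2 2 false true true .up 0 2 3 (qsf 0 536870912 0 1230186008 2) ndB2q0 ndB5q3 pcB2 Cut.none Ext.none)

def k0_pp_023 : ∃ t, chk3 f_pp_023 t 1 1 1 = true :=
  ⟨(a (b (l 2) (a (b (l 2) (b (l 2) (l 3))) (b (b (l 2) (a (l 2) (l 16166144))) (b (b (a (a (l 2) (l 16289984)) (l 16364320)) (a (a (a (l 16137984) (a (l 16351384) (l 16329768))) (l 16348264)) (l 16423448))) (a (a (a (b (l 16381024) (l 3)) (a (b (l 16404240) (l 16444792)) (b (a (l 16410720) (l 16396712)) (a (l 16455344) (l 16446024))))) (b (l 16420952) (l 16487760))) (b (l 16493328) (l 16537888))))))) (a (b (l 2) (b (b (a (l 2) (l 15981928)) (a (l 16239760) (l 16231632))) (b (b (a (l 16427016) (l 16440688)) (a (l 16482256) (l 16418776))) (b (a (l 16540400) (l 16286504)) (a (l 16367800) (l 16076416)))))) (b (b (a (l 2) (a (l 2)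 (b (l 16146472) (l 14967736)))) (b (l 15007440) (a (l 15606496) (l 15501112)))) (b (b (a (l 15919456) (l 15863488)) (b (a (l 16269272) (l 16151728)) (l 16089600))) (b (b (a (l 16284576) (l 16041048)) (a (l 16168408) (l 15883272))) (b (a (l 15869080) (l 15518952)) (a (b (l 15856648) (l 15767968)) (b (l 15551048) (l 15395688))))))))), by decide +kernel⟩

theorem c_pp_023 : CertB 0 536870912 0 1230186008 1020054732 13421774 3 eng mog cd2q0 cd5q3 pd2 false true true .up 0 2 3
    ndB2q0 ndB5q3 pcB2 Cut.none Ext.none :=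
  certB2 (fam := false) (s1 := true) (s2 := true) (a := 0) (b := 2) (c := 3) (cn := .up) (n1 := ndB2q0) (n2 := ndB5q3) (pc := pcB2) (cut := Cut.none) (xt := Ext.none) (P1 := 0) (W1 := 536870912) (P2 := 0) (W2 := 1230186008) (P3 := 1020054732) (W3 := 13421774) (N0 := 3) (En := eng) (mo := mog) (C1 := cd2q0) (C2 := cd5q3) (C3 := pd2)
    rfl (fun _ => rfl) k0_pp_023

noncomputable def f_pp_033 : ℕ → ℕ → ℕ → ℕ → Bool := onCell 0 536870912 0 1230186008 1020054732 13421774
    (rowB 3 eng mog cd2q0 cd5q3 pd3 0 false true true .pnn 0 3 3 (qsf 0 536870912 0 1230186008 3) ndB2q0 ndB5q3 pcB3 Cut.none Ext.none)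

def k0_pp_033 : ∃ t, chk3 f_pp_033 t 1 2 1 = true :=
  ⟨(b (a (a (l 4) (b (l 4) (a (l 4) (l 16014336)))) (a (b (l 4) (a (l 16158568) (l 16289776))) (b (a (l 16491024) (l 16559848)) (a (l 16396240) (b (l 16483160) (l 16544256)))))) (a (b (a (a (l 4) (a (l 15434680) (l 15536184))) (a (a (l 15639136) (l 15741032)) (b (l 15918016) (l 15880744)))) (b (a (a (a (l 15047048) (l 15141504)) (a (l 15276744) (l 15415704))) (a (a (l 15546824) (l 15673688)) (l 15854664))) (a (a (a (b (l 14920112) (l 14877048)) (b (l 15076008) (l 15039472))) (b (l 15300264) (l 15270560))) (l 15516480)))) (a (b (a (b (l 16089920) (l 16089984)) (b (l 16273336) (l 16281392))) (a (l 16085432) (l 16308488))) (b (b (l 16509400) (l 16541040)) (a (l 16507584) (l 16676728)))))), by decide +kernel⟩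

def k1_pp_033 : ∃ t, chk3 f_pp_033 t 1 3 1 = true :=
  ⟨(b (a (a (b (a (b (l 14714792) (l 14847256)) (b (l 15241000) (l 15226432))) (a (b (b (a (l 14837640) (l 14988616)) (a (l 14871728) (l 15014968))) (b (l 14873592) (a (l 15052728) (l 15174216)))) (b (b (l 15227704) (l 15245176)) (b (l 15291096) (l 15358224))))) (b (a (l 15499072) (l 15838928)) (b (a (b (l 15547384) (l 15554736)) (b (l 15856952) (l 15852880))) (a (b (l 15576544) (l 15616176)) (b (l 15855904) (l 15873984)))))) (a (b (a (l 16117312) (l 16368896)) (b (a (b (l 16144040) (l 16127864)) (b (l 16397920) (l 1))) (a (b (l 16117264) (l 16118928)) (l 1)))) (b (b (l 16658560) (l 1)) (l 1)))) (a (b (a (b (a (a (b (l 15042208) (l 14964456)) (b (l 15202032) (l 15152680))) (b (a (l 15349208) (l 15483512)) (l 15409192))) (a (b (a (l 14718904) (l 15080496)) (a (l 14974888) (l 15092312))) (b (l 15249016) (a (l 15246280) (l 15425664))))) (b (a (b (l 15586760) (l 15706136)) (b (l 15887328) (l 15961408))) (a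 (b (l 15713904) (l 15705472)) (l 1)))) (a (b (a (a (b (l 15105008) (l 15218840)) (l 15117488)) (b (a (l 15316952) (l 15458112)) (l 15501704))) (a (b (a (a (l 15342784) (l 15416456)) (l 15491616)) (a (c (l 15318472) (l 15444536)) (b (l 15592424) (l 1)))) (b (l 15533064) (l 1)))) (b (a (b (a (l 15616656) (l 1)) (l 1)) (l 1)) (l 1)))) (l 1))), by decide +kernel⟩

theorem s2_pp_033 : ∃ t, chk3 f_pp_033 t 1 1 1 = true := ex3_b k0_pp_033 k1_pp_033

theorem c_pp_033 : CertB 0 536870912 0 1230186008 1020054732 13421774 3 eng mog cd2q0 cd5q3 pd3 false true true .pnn 0 3 3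
    ndB2q0 ndB5q3 pcB3 Cut.none Ext.none :=
  certB0 (fam := false) (s1 := true) (s2 := true) (a := 0) (b := 3) (c := 3) (cn := .pnn) (n1 := ndB2q0) (n2 := ndB5q3) (pc := pcB3) (cut := Cut.none) (xt := Ext.none) (P1 := 0) (W1 := 536870912) (P2 := 0) (W2 := 1230186008) (P3 := 1020054732) (W3 := 13421774) (N0 := 3) (En := eng) (mo := mog) (C1 := cd2q0) (C2 := cd5q3) (C3 := pd3)
    rfl s2_pp_033

noncomputable def f_pp_101 : ℕ → ℕ → ℕ → ℕ → Bool := onCell 536870912 536870912 536870912 536870912 1020054732 13421774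
    (rowB 3 eng mog cd2q1 cd5q1 pd0 0 false true true .npn 1 0 1 (qsf 536870912 536870912 536870912 536870912 0) ndB2q1 ndB5q1 pcB0 Cut.none Ext.none)

def k0_pp_101 : ∃ t, chk3 f_pp_101 t 1 1 1 = true :=
  ⟨(l 3), by decide +kernel⟩

theorem c_pp_101 : CertB 536870912 536870912 536870912 536870912 1020054732 13421774 3 eng mog cd2q1 cd5q1 pd0 false true true .npn 1 0 1
    ndB2q1 ndB5q1 pcB0 Cut.none Ext.none :=
  certB0 (fam := false) (s1 := true) (s2 := true) (a := 1) (b := 0) (c := 1) (cn := .npn) (n1 := ndB2q1) (n2 := ndB5q1) (pc := pcB0) (cut := Cut.none) (xt := Ext.none) (P1 := 536870912) (W1 := 536870912) (P2 := 536870912) (W2 := 536870912) (P3 := 1020054732) (W3 := 13421774) (N0 := 3) (En := eng) (mo := mog) (C1 := cd2q1) (C2 := cd5q1) (C3 := pd0)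
    rfl k0_pp_101

noncomputable def f_pp_102 : ℕ → ℕ → ℕ → ℕ → Bool := onCell 536870912 536870912 1073741824 536870912 1020054732 13421774
    (rowB 3 eng mog cd2q1 cd5q2 pd0 0 false true true .npp 1 0 2 (qsf 536870912 536870912 1073741824 536870912 0) ndB2q1 ndB5q2 pcB0 Cut.none Ext.none)

def k0_pp_102 : ∃ t, chk3 f_pp_102 t 1 1 1 = true :=
  ⟨(l 3), by decide +kernel⟩

theorem c_pp_102 : CertB 536870912 536870912 1073741824 536870912 1020054732 13421774 3 eng mog cd2q1 cd5q2 pd0 false true true .npp 1 0 2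
    ndB2q1 ndB5q2 pcB0 Cut.none Ext.none :=
  certB0 (fam := false) (s1 := true) (s2 := true) (a := 1) (b := 0) (c := 2) (cn := .npp) (n1 := ndB2q1) (n2 := ndB5q2) (pc := pcB0) (cut := Cut.none) (xt := Ext.none) (P1 := 536870912) (W1 := 536870912) (P2 := 1073741824) (W2 := 536870912) (P3 := 1020054732) (W3 := 13421774) (N0 := 3) (En := eng) (mo := mog) (C1 := cd2q1) (C2 := cd5q2) (C3 := pd0)
    rfl k0_pp_102

noncomputable def f_pp_112 : ℕ → ℕ → ℕ → ℕ → Bool := onCell 536870912 536870912 1073741824 536870912 1020054732 13421774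
    (rowB 3 eng mog cd2q1 cd5q2 pd1 0 false true true .dn 1 1 2 (qsf 536870912 536870912 1073741824 536870912 1) ndB2q1 ndB5q2 pcB1 Cut.none Ext.none)

def k0_pp_112 : ∃ t, chk3 f_pp_112 t 1 1 1 = true :=
  ⟨(l 3), by decide +kernel⟩

theorem c_pp_112 : CertB 536870912 536870912 1073741824 536870912 1020054732 13421774 3 eng mog cd2q1 cd5q2 pd1 false true true .dn 1 1 2
    ndB2q1 ndB5q2 pcB1 Cut.none Ext.none :=
  certB0 (fam := false) (s1 := true) (s2 := true) (a := 1) (b := 1) (c := 2) (cn := .dn) (n1 := ndB2q1) (n2 := ndB5q2) (pc := pcB1) (cut := Cut.none) (xt := Ext.none) (P1 := 536870912) (W1 := 536870912) (P2 := 1073741824) (W2 := 536870912) (P3 := 1020054732) (W3 := 13421774) (N0 := 3) (En := eng) (mo := mog) (C1 := cd2q1) (C2 := cd5q2) (C3 := pd1)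
    rfl k0_pp_112

noncomputable def f_pp_113 : ℕ → ℕ → ℕ → ℕ → Bool := onCell 536870912 536870912 0 1230186008 1020054732 13421774
    (rowB 3 eng mog cd2q1 cd5q3 pd1 2 false true true .nn 1 1 3 (qsf 536870912 536870912 0 1230186008 1) ndB2q1 ndB5q3 pcB1 Cut.none Ext.none)

def k0_pp_113 : ∃ t, chk3 f_pp_113 t 1 1 1 = true :=
  ⟨(b (a (l 2) (a (l 2) (b (a (l 2) (b (l 507979763527) (a (l 2) (l 16293840)))) (a (b (a (l 2) (b (l 2) (l 16348696))) (a (b (l 2) (l 3)) (b (l 16308360) (l 15948112)))) (a (b (b (l 16121104) (l 16194200)) (b (l 16047152) (l 15827000))) (b (b (l 16148192) (l 16081512)) (a (l 15725232) (l 15612304)))))))) (b (a (l 3) (b (a (l 3) (a (l 3) (a (b (l 15760400) (l 3)) (a (b (l 15650512) (l 3)) (b (l 15562944) (l 15571552)))))) (l 3))) (a (l 3) (l 3)))), by decide +kernel⟩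

theorem c_pp_113 : CertB 536870912 536870912 0 1230186008 1020054732 13421774 3 eng mog cd2q1 cd5q3 pd1 false true true .nn 1 1 3
    ndB2q1 ndB5q3 pcB1 Cut.none Ext.none :=
  certB2 (fam := false) (s1 := true) (s2 := true) (a := 1) (b := 1) (c := 3) (cn := .nn) (n1 := ndB2q1) (n2 := ndB5q3) (pc := pcB1) (cut := Cut.none) (xt := Ext.none) (P1 := 536870912) (W1 := 536870912) (P2 := 0) (W2 := 1230186008) (P3 := 1020054732) (W3 := 13421774) (N0 := 3) (En := eng) (mo := mog) (C1 := cd2q1) (C2 := cd5q3) (C3 := pd1)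
    rfl (fun _ => rfl) k0_pp_113

noncomputable def f_pp_123 : ℕ → ℕ → ℕ → ℕ → Bool := onCell 1073741824 536870912 0 1230186008 1020054732 13421774
    (rowB 3 eng mog cd2q1 cd5q3 pd2 2 false true true .npn 1 2 3 (qsf 536870912 536870912 0 1230186008 2) ndB2q1 ndB5q3 pcB2 Cut.none Ext.none)

def k0_pp_123 : ∃ t, chk3 f_pp_123 t 2 1 1 = true :=
  ⟨(b (b (a (b (a (l 15704824) (l 15436160)) (a (l 15860032) (l 15664736))) (b (a (l 15213840) (b (l 15125576) (l 15056280))) (a (l 15475080) (l 15300944)))) (a (b (a (l 15931248) (l 15892096)) (a (a (l 15771752) (l 15854720)) (l 15800288))) (b (a (l 15801000) (l 15696232)) (a (l 15892888) (b (l 15943048) (l 16062248)))))) (b (a (a (a (b (b (b (l 15697248) (l 15675656)) (a (l 262694789959) (l 15451880))) (a (l 3) (b (l 15690320) (l 3)))) (b (a (b (l 15791072) (l 15778824)) (b (l 15851096) (l 15837008))) (b (c (a (l 15756784) (l 15838304)) (c (l 246052316839) (l 247126145815))) (l 15613600)))) (a (b (b (l 15927272) (l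 15926568)) (b (a (c (l 15914672) (l 15821360)) (l 15980144)) (c (l 15676504) (a (l 16018216) (l 16080200))))) (b (b (l 16007072) (l 16020928)) (b (a (l 16033768) (l 16050920)) (b (a (l 16035432) (l 16065360)) (a (l 16079040) (l 16090912))))))) (b (a (b (l 16092992) (a (c (a (l 16056432) (l 16104520)) (l 16114640)) (l 16161416))) (b (l 16164936) (l 16243360))) (a (a (b (a (l 16089696) (l 16121352)) (a (b (l 16100304) (l 16108192)) (a (l 16126704) (l 16135056)))) (b (l 16171104) (l 16177056))) (b (l 16266368) (l 16278224))))) (a (a (l 3) (b (a (b (l 15872928) (l 3)) (b (c (l 209545381383) (a (l 16138616) (l 16185152))) (l 368459318999))) (l 3))) (b (b (a (a (a (b (l 16126928) (l 16148760)) (c (l 15980664) (l 16097384))) (l 16161888)) (c (l 16262704) (l 16293904))) (a (a (a (a (l 16134096) (l 16086736)) (a (l 16071752) (l 223906956263))) (l 16175976)) (l 1))) (a (a (a (b (l 16011288) (l 1)) (l 1)) (l 1)) (l 1)))))), by decide +kernel⟩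

def k1_pp_123 : ∃ t, chk3 f_pp_123 t 3 1 1 = true :=
  ⟨(b (b (a (b (a (b (l 15369104) (l 15027520)) (b (l 15758184) (l 15282408))) (a (l 15159624) (b (l 15020312) (l 15151056)))) (b (a (b (l 16247392) (l 15718632)) (b (l 16670328) (l 16207384))) (a (b (l 15054992) (l 15115480)) (b (l 15665184) (a (l 15156712) (l 15275120)))))) (a (b (a (l 15597952) (l 15518576)) (c (l 16067672) (a (l 15903440) (l 15866008)))) (b (a (l 15466096) (l 15446136)) (c (l 16059912) (l 63381905271))))) (b (a (a (b (b (l 16206056) (l 16327032)) (b (l 16370616) (l 16390920))) (b (b (l 16229256) (l 16386960)) (b (l 16455648) (l 1)))) (b (b (l 243234460823) (l 1)) (l 1))) (l 1))), by decide +kernel⟩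

theorem s2_pp_123 : ∃ t, chk3 f_pp_123 t 1 1 1 = true := ex3_a k0_pp_123 k1_pp_123

theorem c_pp_123 : CertB 536870912 536870912 0 1230186008 1020054732 13421774 3 eng mog cd2q1 cd5q3 pd2 false true true .npn 1 2 3
    ndB2q1 ndB5q3 pcB2 Cut.none Ext.none :=
  certB2 (fam := false) (s1 := true) (s2 := true) (a := 1) (b := 2) (c := 3) (cn := .npn) (n1 := ndB2q1) (n2 := ndB5q3) (pc := pcB2) (cut := Cut.none) (xt := Ext.none) (P1 := 536870912) (W1 := 536870912) (P2 := 0) (W2 := 1230186008) (P3 := 1020054732) (W3 := 13421774) (N0 := 3) (En := eng) (mo := mog) (C1 := cd2q1) (C2 := cd5q3) (C3 := pd2)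
    rfl (fun _ => rfl) s2_pp_123

noncomputable def f_pp_133 : ℕ → ℕ → ℕ → ℕ → Bool := onCell 536870912 536870912 0 1230186008 1020054732 13421774
    (rowB 3 eng mog cd2q1 cd5q3 pd3 0 false true true .dn 1 3 3 (qsf 536870912 536870912 0 1230186008 3) ndB2q1 ndB5q3 pcB3 Cut.none Ext.none)

def k0_pp_133 : ∃ t, chk3 f_pp_133 t 1 1 1 = true :=
  ⟨(b (b (a (a (b (a (l 16617792) (l 1)) (l 1)) (l 1)) (l 1)) (l 1)) (l 1)), by decide +kernel⟩

theorem c_pp_133 : CertB 536870912 536870912 0 1230186008 1020054732 13421774 3 eng mog cd2q1 cd5q3 pd3 false true true .dn 1 3 3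
    ndB2q1 ndB5q3 pcB3 Cut.none Ext.none :=
  certB0 (fam := false) (s1 := true) (s2 := true) (a := 1) (b := 3) (c := 3) (cn := .dn) (n1 := ndB2q1) (n2 := ndB5q3) (pc := pcB3) (cut := Cut.none) (xt := Ext.none) (P1 := 536870912) (W1 := 536870912) (P2 := 0) (W2 := 1230186008) (P3 := 1020054732) (W3 := 13421774) (N0 := 3) (En := eng) (mo := mog) (C1 := cd2q1) (C2 := cd5q3) (C3 := pd3)
    rfl k0_pp_133

noncomputable def f_pp_202_a : ℕ → ℕ → ℕ → ℕ → Bool := onCell 0 536870912 1073741824 536870912 1020054732 13421774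
    (rowB 3 eng mog cd2q2a cd5q2 pd0 0 false true true .pp 2 0 2 (qsf 0 536870912 1073741824 536870912 0) ndB2q2a ndB5q2 pcB0 Cut.none Ext.none)

def k0_pp_202_a : ∃ t, chk3 f_pp_202_a t 1 1 1 = true :=
  ⟨(l 5), by decide +kernel⟩

theorem c_pp_202_a : CertB 0 536870912 1073741824 536870912 1020054732 13421774 3 eng mog cd2q2a cd5q2 pd0 false true true .pp 2 0 2
    ndB2q2a ndB5q2 pcB0 Cut.none Ext.none :=
  certB0 (fam := false) (s1 := true) (s2 := true) (a := 2) (b := 0) (c := 2) (cn := .pp) (n1 := ndB2q2a) (n2 := ndB5q2) (pc := pcB0) (cut := Cut.none) (xt := Ext.none) (P1 := 0) (W1 := 536870912) (P2 := 1073741824) (W2 := 536870912) (P3 := 1020054732) (W3 := 13421774) (N0 := 3) (En := eng) (mo := mog) (C1 := cd2q2a) (C2 := cd5q2) (C3 := pd0)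
    rfl k0_pp_202_a

noncomputable def f_pp_202_b : ℕ → ℕ → ℕ → ℕ → Bool := onCell 1239849684 370763052 1073741824 536870912 1020054732 13421774
    (rowB 3 eng mog cd2q2b cd5q2 pd0 0 false true true .pp 2 0 2 (qsf 1239849684 370763052 1073741824 536870912 0) ndB2q2b ndB5q2 pcB0 Cut.none Ext.none)

def k0_pp_202_b : ∃ t, chk3 f_pp_202_b t 1 1 1 = true :=
  ⟨(l 5), by decide +kernel⟩

theorem c_pp_202_b : CertB 1239849684 370763052 1073741824 536870912 1020054732 13421774 3 eng mog cd2q2b cd5q2 pd0 false true true .pp 2 0 2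
    ndB2q2b ndB5q2 pcB0 Cut.none Ext.none :=
  certB0 (fam := false) (s1 := true) (s2 := true) (a := 2) (b := 0) (c := 2) (cn := .pp) (n1 := ndB2q2b) (n2 := ndB5q2) (pc := pcB0) (cut := Cut.none) (xt := Ext.none) (P1 := 1239849684) (W1 := 370763052) (P2 := 1073741824) (W2 := 536870912) (P3 := 1020054732) (W3 := 13421774) (N0 := 3) (En := eng) (mo := mog) (C1 := cd2q2b) (C2 := cd5q2) (C3 := pd0)
    rfl k0_pp_202_b

noncomputable def f_pp_203_a : ℕ → ℕ → ℕ → ℕ → Bool := onCell 0 536870912 0 1230186008 1020054732 13421774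
    (rowB 3 eng mog cd2q2a cd5q3 pd0 0 false true true .up 2 0 3 (qsf 0 536870912 0 1230186008 0) ndB2q2a ndB5q3 pcB0 Cut.none Ext.none)

def k0_pp_203_a : ∃ t, chk3 f_pp_203_a t 1 1 1 = true :=
  ⟨(b (l 2) (l 3)), by decide +kernel⟩

theorem c_pp_203_a : CertB 0 536870912 0 1230186008 1020054732 13421774 3 eng mog cd2q2a cd5q3 pd0 false true true .up 2 0 3
    ndB2q2a ndB5q3 pcB0 Cut.none Ext.none :=
  certB0 (fam := false) (s1 := true) (s2 := true) (a := 2) (b := 0) (c := 3) (cn := .up) (n1 := ndB2q2a) (n2 := ndB5q3) (pc := pcB0) (cut := Cut.none) (xt := Ext.none) (P1 := 0) (W1 := 536870912) (P2 := 0) (W2 := 1230186008) (P3 := 1020054732) (W3 := 13421774) (N0 := 3) (En := eng) (mo := mog) (C1 := cd2q2a) (C2 := cd5q3) (C3 := pd0)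
    rfl k0_pp_203_a

noncomputable def f_pp_203_b : ℕ → ℕ → ℕ → ℕ → Bool := onCell 0 536870912 0 1230186008 1020054732 13421774
    (rowB 3 eng mog cd2q2b cd5q3 pd0 2 false true true .up 2 0 3 (qsf 1239849684 370763052 0 1230186008 0) ndB2q2b ndB5q3 pcB0 Cut.none Ext.none)

def k0_pp_203_b : ∃ t, chk3 f_pp_203_b t 1 1 1 = true :=
  ⟨(b (l 3) (l 5)), by decide +kernel⟩

theorem c_pp_203_b : CertB 1239849684 370763052 0 1230186008 1020054732 13421774 3 eng mog cd2q2b cd5q3 pd0 false true true .up 2 0 3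
    ndB2q2b ndB5q3 pcB0 Cut.none Ext.none :=
  certB2 (fam := false) (s1 := true) (s2 := true) (a := 2) (b := 0) (c := 3) (cn := .up) (n1 := ndB2q2b) (n2 := ndB5q3) (pc := pcB0) (cut := Cut.none) (xt := Ext.none) (P1 := 1239849684) (W1 := 370763052) (P2 := 0) (W2 := 1230186008) (P3 := 1020054732) (W3 := 13421774) (N0 := 3) (En := eng) (mo := mog) (C1 := cd2q2b) (C2 := cd5q3) (C3 := pd0)
    rfl (fun _ => rfl) k0_pp_203_b

noncomputable def cut_pp_213_a : Cut := Cut.of [[⟨0, 1, 0, 26738688⟩, ⟨1, 1, 0, 26738688⟩, ⟨2, 2, 0, 2621440⟩]]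

noncomputable def f_pp_213_a : ℕ → ℕ → ℕ → ℕ → Bool := onCell 0 536870912 0 1230186008 1020054732 13421774
    (rowB 3 eng mog cd2q2a cd5q3 pd1 0 false true true .pnn 2 1 3 (qsf 0 536870912 0 1230186008 1) ndB2q2a ndB5q3 pcB1 cut_pp_213_a Ext.none)

def k0_pp_213_a : ∃ t, chk3 f_pp_213_a t 1 1 1 = true :=
  ⟨(b (a (l 3) (b (a (l 3) (a (l 3) (b (b (a (l 3) (l 6)) (l 3)) (l 3)))) (l 3))) (l 3)), by decide +kernel⟩

theorem c_pp_213_a : CertB 0 536870912 0 1230186008 1020054732 13421774 3 eng mog cd2q2a cd5q3 pd1 false true true .pnn 2 1 3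
    ndB2q2a ndB5q3 pcB1 cut_pp_213_a Ext.none :=
  certB0 (fam := false) (s1 := true) (s2 := true) (a := 2) (b := 1) (c := 3) (cn := .pnn) (n1 := ndB2q2a) (n2 := ndB5q3) (pc := pcB1) (cut := cut_pp_213_a) (xt := Ext.none) (P1 := 0) (W1 := 536870912) (P2 := 0) (W2 := 1230186008) (P3 := 1020054732) (W3 := 13421774) (N0 := 3) (En := eng) (mo := mog) (C1 := cd2q2a) (C2 := cd5q3) (C3 := pd1)
    rfl k0_pp_213_a

noncomputable def cut_pp_213_b : Cut := Cut.of [[⟨0, 1, 0, 26738688⟩, ⟨1, 1, 0, 26738688⟩, ⟨2, 2, 0, 2621440⟩]]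

noncomputable def f_pp_213_b : ℕ → ℕ → ℕ → ℕ → Bool := onCell 1239849684 370763052 0 1230186008 1020054732 13421774
    (rowB 3 eng mog cd2q2b cd5q3 pd1 0 false true true .pnn 2 1 3 (qsf 1239849684 370763052 0 1230186008 1) ndB2q2b ndB5q3 pcB1 cut_pp_213_b Ext.none)

def k0_pp_213_b : ∃ t, chk3 f_pp_213_b t 1 1 1 = true :=
  ⟨(b (l 3) (b (l 3) (l 3))), by decide +kernel⟩

theorem c_pp_213_b : CertB 1239849684 370763052 0 1230186008 1020054732 13421774 3 eng mog cd2q2b cd5q3 pd1 false true true .pnn 2 1 3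
    ndB2q2b ndB5q3 pcB1 cut_pp_213_b Ext.none :=
  certB0 (fam := false) (s1 := true) (s2 := true) (a := 2) (b := 1) (c := 3) (cn := .pnn) (n1 := ndB2q2b) (n2 := ndB5q3) (pc := pcB1) (cut := cut_pp_213_b) (xt := Ext.none) (P1 := 1239849684) (W1 := 370763052) (P2 := 0) (W2 := 1230186008) (P3 := 1020054732) (W3 := 13421774) (N0 := 3) (En := eng) (mo := mog) (C1 := cd2q2b) (C2 := cd5q3) (C3 := pd1)
    rfl k0_pp_213_b

noncomputable def f_pp_303 : ℕ → ℕ → ℕ → ℕ → Bool := onCell 1610612736 536870912 0 1230186008 1020054732 13421774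
    (rowB 3 eng mog cd2q3 cd5q3 pd0 0 false true true .npn 3 0 3 (qsf 1610612736 536870912 0 1230186008 0) ndB2q3 ndB5q3 pcB0 Cut.none Ext.none)

def k0_pp_303 : ∃ t, chk3 f_pp_303 t 1 1 1 = true :=
  ⟨(b (l 3) (l 5)), by decide +kernel⟩

theorem c_pp_303 : CertB 1610612736 536870912 0 1230186008 1020054732 13421774 3 eng mog cd2q3 cd5q3 pd0 false true true .npn 3 0 3
    ndB2q3 ndB5q3 pcB0 Cut.none Ext.none :=
  certB0 (fam := false) (s1 := true) (s2 := true) (a := 3) (b := 0) (c := 3) (cn := .npn) (n1 := ndB2q3) (n2 := ndB5q3) (pc := pcB0) (cut := Cut.none) (xt := Ext.none) (P1 := 1610612736) (W1 := 536870912) (P2 := 0) (W2 := 1230186008) (P3 := 1020054732) (W3 := 13421774) (N0 := 3) (En := eng) (mo := mog) (C1 := cd2q3) (C2 := cd5q3) (C3 := pd0)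
    rfl k0_pp_303

noncomputable def f_pp_313 : ℕ → ℕ → ℕ → ℕ → Bool := onCell 1610612736 536870912 0 1230186008 1020054732 13421774
    (rowB 3 eng mog cd2q3 cd5q3 pd1 0 false true true .dn 3 1 3 (qsf 1610612736 536870912 0 1230186008 1) ndB2q3 ndB5q3 pcB1 Cut.none Ext.none)

def k0_pp_313 : ∃ t, chk3 f_pp_313 t 1 1 1 = true :=
  ⟨(b (l 3) (l 1)), by decide +kernel⟩

theorem c_pp_313 : CertB 1610612736 536870912 0 1230186008 1020054732 13421774 3 eng mog cd2q3 cd5q3 pd1 false true true .dn 3 1 3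
    ndB2q3 ndB5q3 pcB1 Cut.none Ext.none :=
  certB0 (fam := false) (s1 := true) (s2 := true) (a := 3) (b := 1) (c := 3) (cn := .dn) (n1 := ndB2q3) (n2 := ndB5q3) (pc := pcB1) (cut := Cut.none) (xt := Ext.none) (P1 := 1610612736) (W1 := 536870912) (P2 := 0) (W2 := 1230186008) (P3 := 1020054732) (W3 := 13421774) (N0 := 3) (En := eng) (mo := mog) (C1 := cd2q3) (C2 := cd5q3) (C3 := pd1)
    rfl k0_pp_313

noncomputable def f_pm_001 : ℕ → ℕ → ℕ → ℕ → Bool := onCell 0 536870912 536870912 536870912 1020054732 13421774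
    (rowB 3 eng mog cd2q0 cd5q1 pd0 0 false true false .up 0 0 1 (qsf 0 536870912 536870912 536870912 0) ndB2q0 ndB5q1 pcB0 Cut.none Ext.none)

def k0_pm_001 : ∃ t, chk3 f_pm_001 t 1 1 1 = true :=
  ⟨(l 4), by decide +kernel⟩

theorem c_pm_001 : CertB 0 536870912 536870912 536870912 1020054732 13421774 3 eng mog cd2q0 cd5q1 pd0 false true false .up 0 0 1
    ndB2q0 ndB5q1 pcB0 Cut.none Ext.none :=
  certB0 (fam := false) (s1 := true) (s2 := false) (a := 0) (b := 0) (c := 1) (cn := .up) (n1 := ndB2q0) (n2 := ndB5q1) (pc := pcB0) (cut := Cut.none) (xt := Ext.none) (P1 := 0) (W1 := 536870912) (P2 := 536870912) (W2 := 536870912) (P3 := 1020054732) (W3 := 13421774) (N0 := 3) (En := eng) (mo := mog) (C1 := cd2q0) (C2 := cd5q1) (C3 := pd0)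
    rfl k0_pm_001

noncomputable def f_pm_011 : ℕ → ℕ → ℕ → ℕ → Bool := onCell 0 536870912 536870912 536870912 1020054732 13421774
    (rowB 3 eng mog cd2q0 cd5q1 pd1 0 false true false .pnn 0 1 1 (qsf 0 536870912 536870912 536870912 1) ndB2q0 ndB5q1 pcB1 Cut.none Ext.none)

def k0_pm_011 : ∃ t, chk3 f_pm_011 t 1 1 1 = true :=
  ⟨(l 4), by decide +kernel⟩

theorem c_pm_011 : CertB 0 536870912 536870912 536870912 1020054732 13421774 3 eng mog cd2q0 cd5q1 pd1 false true false .pnn 0 1 1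
    ndB2q0 ndB5q1 pcB1 Cut.none Ext.none :=
  certB0 (fam := false) (s1 := true) (s2 := false) (a := 0) (b := 1) (c := 1) (cn := .pnn) (n1 := ndB2q0) (n2 := ndB5q1) (pc := pcB1) (cut := Cut.none) (xt := Ext.none) (P1 := 0) (W1 := 536870912) (P2 := 536870912) (W2 := 536870912) (P3 := 1020054732) (W3 := 13421774) (N0 := 3) (En := eng) (mo := mog) (C1 := cd2q0) (C2 := cd5q1) (C3 := pd1)
    rfl k0_pm_011

noncomputable def f_pm_012 : ℕ → ℕ → ℕ → ℕ → Bool := onCell 0 536870912 1073741824 536870912 1020054732 13421774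
    (rowB 3 eng mog cd2q0 cd5q2 pd1 0 false true false .pnp 0 1 2 (qsf 0 536870912 1073741824 536870912 1) ndB2q0 ndB5q2 pcB1 Cut.none Ext.none)

def k0_pm_012 : ∃ t, chk3 f_pm_012 t 1 1 1 = true :=
  ⟨(l 4), by decide +kernel⟩

theorem c_pm_012 : CertB 0 536870912 1073741824 536870912 1020054732 13421774 3 eng mog cd2q0 cd5q2 pd1 false true false .pnp 0 1 2
    ndB2q0 ndB5q2 pcB1 Cut.none Ext.none :=
  certB0 (fam := false) (s1 := true) (s2 := false) (a := 0) (b := 1) (c := 2) (cn := .pnp) (n1 := ndB2q0) (n2 := ndB5q2) (pc := pcB1) (cut := Cut.none) (xt := Ext.none) (P1 := 0) (W1 := 536870912) (P2 := 1073741824) (W2 := 536870912) (P3 := 1020054732) (W3 := 13421774) (N0 := 3) (En := eng) (mo := mog) (C1 := cd2q0) (C2 := cd5q2) (C3 := pd1)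
    rfl k0_pm_012

noncomputable def f_pm_022 : ℕ → ℕ → ℕ → ℕ → Bool := onCell 0 536870912 1073741824 536870912 1020054732 13421774
    (rowB 3 eng mog cd2q0 cd5q2 pd2 0 false true false .pp 0 2 2 (qsf 0 536870912 1073741824 536870912 2) ndB2q0 ndB5q2 pcB2 Cut.none Ext.none)

def k0_pm_022 : ∃ t, chk3 f_pm_022 t 1 1 1 = true :=
  ⟨(l 4), by decide +kernel⟩

theorem c_pm_022 : CertB 0 536870912 1073741824 536870912 1020054732 13421774 3 eng mog cd2q0 cd5q2 pd2 false true false .pp 0 2 2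
    ndB2q0 ndB5q2 pcB2 Cut.none Ext.none :=
  certB0 (fam := false) (s1 := true) (s2 := false) (a := 0) (b := 2) (c := 2) (cn := .pp) (n1 := ndB2q0) (n2 := ndB5q2) (pc := pcB2) (cut := Cut.none) (xt := Ext.none) (P1 := 0) (W1 := 536870912) (P2 := 1073741824) (W2 := 536870912) (P3 := 1020054732) (W3 := 13421774) (N0 := 3) (En := eng) (mo := mog) (C1 := cd2q0) (C2 := cd5q2) (C3 := pd2)
    rfl k0_pm_022

noncomputable def f_pm_023 : ℕ → ℕ → ℕ → ℕ → Bool := onCell 0 536870912 0 1230186008 1020054732 13421774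
    (rowB 3 eng mog cd2q0 cd5q3 pd2 0 false true false .up 0 2 3 (qsf 0 536870912 0 1230186008 2) ndB2q0 ndB5q3 pcB2 Cut.none Ext.none)

def k0_pm_023 : ∃ t, chk3 f_pm_023 t 1 1 1 = true :=
  ⟨(b (a (l 2) (l 4)) (l 4)), by decide +kernel⟩

theorem c_pm_023 : CertB 0 536870912 0 1230186008 1020054732 13421774 3 eng mog cd2q0 cd5q3 pd2 false true false .up 0 2 3
    ndB2q0 ndB5q3 pcB2 Cut.none Ext.none :=
  certB0 (fam := false) (s1 := true) (s2 := false) (a := 0) (b := 2) (c := 3) (cn := .up) (n1 := ndB2q0) (n2 := ndB5q3) (pc := pcB2) (cut := Cut.none) (xt := Ext.none) (P1 := 0) (W1 := 536870912) (P2 := 0) (W2 := 1230186008) (P3 := 1020054732) (W3 := 13421774) (N0 := 3) (En := eng) (mo := mog) (C1 := cd2q0) (C2 := cd5q3) (C3 := pd2)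
    rfl k0_pm_023

noncomputable def f_pm_033 : ℕ → ℕ → ℕ → ℕ → Bool := onCell 0 536870912 0 1230186008 1020054732 13421774
    (rowB 3 eng mog cd2q0 cd5q3 pd3 0 false true false .pnn 0 3 3 (qsf 0 536870912 0 1230186008 3) ndB2q0 ndB5q3 pcB3 Cut.none Ext.none)

def k0_pm_033 : ∃ t, chk3 f_pm_033 t 1 1 1 = true :=
  ⟨(b (a (l 4) (l 4)) (l 4)), by decide +kernel⟩

theorem c_pm_033 : CertB 0 536870912 0 1230186008 1020054732 13421774 3 eng mog cd2q0 cd5q3 pd3 false true false .pnn 0 3 3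
    ndB2q0 ndB5q3 pcB3 Cut.none Ext.none :=
  certB0 (fam := false) (s1 := true) (s2 := false) (a := 0) (b := 3) (c := 3) (cn := .pnn) (n1 := ndB2q0) (n2 := ndB5q3) (pc := pcB3) (cut := Cut.none) (xt := Ext.none) (P1 := 0) (W1 := 536870912) (P2 := 0) (W2 := 1230186008) (P3 := 1020054732) (W3 := 13421774) (N0 := 3) (En := eng) (mo := mog) (C1 := cd2q0) (C2 := cd5q3) (C3 := pd3)
    rfl k0_pm_033

noncomputable def f_pm_101 : ℕ → ℕ → ℕ → ℕ → Bool := onCell 536870912 536870912 536870912 536870912 1020054732 13421774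
    (rowB 3 eng mog cd2q1 cd5q1 pd0 0 false true false .npn 1 0 1 (qsf 536870912 536870912 536870912 536870912 0) ndB2q1 ndB5q1 pcB0 Cut.none Ext.none)

def k0_pm_101 : ∃ t, chk3 f_pm_101 t 1 1 1 = true :=
  ⟨(l 4), by decide +kernel⟩

theorem c_pm_101 : CertB 536870912 536870912 536870912 536870912 1020054732 13421774 3 eng mog cd2q1 cd5q1 pd0 false true false .npn 1 0 1
    ndB2q1 ndB5q1 pcB0 Cut.none Ext.none :=
  certB0 (fam := false) (s1 := true) (s2 := false) (a := 1) (b := 0) (c := 1) (cn := .npn) (n1 := ndB2q1) (n2 := ndB5q1) (pc := pcB0) (cut := Cut.none) (xt := Ext.none) (P1 := 536870912) (W1 := 536870912) (P2 := 536870912) (W2 := 536870912) (P3 := 1020054732) (W3 := 13421774) (N0 := 3) (En := eng) (mo := mog) (C1 := cd2q1) (C2 := cd5q1) (C3 := pd0)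
    rfl k0_pm_101

noncomputable def f_pm_102 : ℕ → ℕ → ℕ → ℕ → Bool := onCell 536870912 536870912 1073741824 536870912 1020054732 13421774
    (rowB 3 eng mog cd2q1 cd5q2 pd0 0 false true false .npp 1 0 2 (qsf 536870912 536870912 1073741824 536870912 0) ndB2q1 ndB5q2 pcB0 Cut.none Ext.none)

def k0_pm_102 : ∃ t, chk3 f_pm_102 t 1 1 1 = true :=
  ⟨(l 4), by decide +kernel⟩

theorem c_pm_102 : CertB 536870912 536870912 1073741824 536870912 1020054732 13421774 3 eng mog cd2q1 cd5q2 pd0 false true false .npp 1 0 2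
    ndB2q1 ndB5q2 pcB0 Cut.none Ext.none :=
  certB0 (fam := false) (s1 := true) (s2 := false) (a := 1) (b := 0) (c := 2) (cn := .npp) (n1 := ndB2q1) (n2 := ndB5q2) (pc := pcB0) (cut := Cut.none) (xt := Ext.none) (P1 := 536870912) (W1 := 536870912) (P2 := 1073741824) (W2 := 536870912) (P3 := 1020054732) (W3 := 13421774) (N0 := 3) (En := eng) (mo := mog) (C1 := cd2q1) (C2 := cd5q2) (C3 := pd0)
    rfl k0_pm_102

noncomputable def f_pm_112 : ℕ → ℕ → ℕ → ℕ → Bool := onCell 536870912 536870912 1073741824 536870912 1020054732 13421774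
    (rowB 3 eng mog cd2q1 cd5q2 pd1 0 false true false .dn 1 1 2 (qsf 536870912 536870912 1073741824 536870912 1) ndB2q1 ndB5q2 pcB1 Cut.none Ext.none)

def k0_pm_112 : ∃ t, chk3 f_pm_112 t 1 1 1 = true :=
  ⟨(l 4), by decide +kernel⟩

theorem c_pm_112 : CertB 536870912 536870912 1073741824 536870912 1020054732 13421774 3 eng mog cd2q1 cd5q2 pd1 false true false .dn 1 1 2
    ndB2q1 ndB5q2 pcB1 Cut.none Ext.none :=
  certB0 (fam := false) (s1 := true) (s2 := false) (a := 1) (b := 1) (c := 2) (cn := .dn) (n1 := ndB2q1) (n2 := ndB5q2) (pc := pcB1) (cut := Cut.none) (xt := Ext.none) (P1 := 536870912) (W1 := 536870912) (P2 := 1073741824) (W2 := 536870912) (P3 := 1020054732) (W3 := 13421774) (N0 := 3) (En := eng) (mo := mog) (C1 := cd2q1) (C2 := cd5q2) (C3 := pd1)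
    rfl k0_pm_112

noncomputable def f_pm_113 : ℕ → ℕ → ℕ → ℕ → Bool := onCell 536870912 536870912 0 1230186008 1020054732 13421774
    (rowB 3 eng mog cd2q1 cd5q3 pd1 0 false true false .nn 1 1 3 (qsf 536870912 536870912 0 1230186008 1) ndB2q1 ndB5q3 pcB1 Cut.none Ext.none)

def k0_pm_113 : ∃ t, chk3 f_pm_113 t 1 1 1 = true :=
  ⟨(b (a (l 2) (a (l 2) (a (b (l 2) (b (a (l 2) (l 729703564359)) (l 4))) (b (b (l 164381706359) (l 15399464)) (b (b (l 15219688) (l 15049704)) (a (l 4) (l 15159168))))))) (l 4)), by decide +kernel⟩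

theorem c_pm_113 : CertB 536870912 536870912 0 1230186008 1020054732 13421774 3 eng mog cd2q1 cd5q3 pd1 false true false .nn 1 1 3
    ndB2q1 ndB5q3 pcB1 Cut.none Ext.none :=
  certB0 (fam := false) (s1 := true) (s2 := false) (a := 1) (b := 1) (c := 3) (cn := .nn) (n1 := ndB2q1) (n2 := ndB5q3) (pc := pcB1) (cut := Cut.none) (xt := Ext.none) (P1 := 536870912) (W1 := 536870912) (P2 := 0) (W2 := 1230186008) (P3 := 1020054732) (W3 := 13421774) (N0 := 3) (En := eng) (mo := mog) (C1 := cd2q1) (C2 := cd5q3) (C3 := pd1)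
    rfl k0_pm_113

noncomputable def f_pm_123 : ℕ → ℕ → ℕ → ℕ → Bool := onCell 1073741824 536870912 0 1230186008 1020054732 13421774
    (rowB 3 eng mog cd2q1 cd5q3 pd2 2 false true false .npn 1 2 3 (qsf 536870912 536870912 0 1230186008 2) ndB2q1 ndB5q3 pcB2 Cut.none Ext.none)

def k0_pm_123 : ∃ t, chk3 f_pm_123 t 1 1 1 = true :=
  ⟨(b (a (b (a (b (a (a (l 15673472) (l 15515168)) (l 15359104)) (a (l 15343760) (l 15407600))) (b (a (l 15362512) (l 15549224)) (a (a (l 15633664) (l 15738120)) (a (l 15857848) (l 15984400))))) (b (a (a (a (l 14945704) (l 14908496)) (a (l 15050944) (l 15212888))) (l 4)) (l 4))) (b (b (a (a (a (l 15870240) (l 16075624)) (a (l 16272664) (l 16420848))) (a (b (l 16604456) (l 4)) (l 16696776))) (a (a (a (l 16104776) (l 4)) (l 4)) (l 4))) (l 4))) (l 4)), by decide +kernel⟩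

theorem c_pm_123 : CertB 536870912 536870912 0 1230186008 1020054732 13421774 3 eng mog cd2q1 cd5q3 pd2 false true false .npn 1 2 3
    ndB2q1 ndB5q3 pcB2 Cut.none Ext.none :=
  certB2 (fam := false) (s1 := true) (s2 := false) (a := 1) (b := 2) (c := 3) (cn := .npn) (n1 := ndB2q1) (n2 := ndB5q3) (pc := pcB2) (cut := Cut.none) (xt := Ext.none) (P1 := 536870912) (W1 := 536870912) (P2 := 0) (W2 := 1230186008) (P3 := 1020054732) (W3 := 13421774) (N0 := 3) (En := eng) (mo := mog) (C1 := cd2q1) (C2 := cd5q3) (C3 := pd2)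
    rfl (fun _ => rfl) k0_pm_123

noncomputable def f_pm_133 : ℕ → ℕ → ℕ → ℕ → Bool := onCell 1610612736 536870912 0 1230186008 1020054732 13421774
    (rowB 3 eng mog cd2q1 cd5q3 pd3 2 false true false .dn 1 3 3 (qsf 536870912 536870912 0 1230186008 3) ndB2q1 ndB5q3 pcB3 Cut.none Ext.none)

def k0_pm_133 : ∃ t, chk3 f_pm_133 t 1 1 1 = true :=
  ⟨(b (b (a (l 4) (l 1)) (l 1)) (l 1)), by decide +kernel⟩

theorem c_pm_133 : CertB 536870912 536870912 0 1230186008 1020054732 13421774 3 eng mog cd2q1 cd5q3 pd3 false true false .dn 1 3 3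
    ndB2q1 ndB5q3 pcB3 Cut.none Ext.none :=
  certB2 (fam := false) (s1 := true) (s2 := false) (a := 1) (b := 3) (c := 3) (cn := .dn) (n1 := ndB2q1) (n2 := ndB5q3) (pc := pcB3) (cut := Cut.none) (xt := Ext.none) (P1 := 536870912) (W1 := 536870912) (P2 := 0) (W2 := 1230186008) (P3 := 1020054732) (W3 := 13421774) (N0 := 3) (En := eng) (mo := mog) (C1 := cd2q1) (C2 := cd5q3) (C3 := pd3)
    rfl (fun _ => rfl) k0_pm_133

noncomputable def f_pm_202_a : ℕ → ℕ → ℕ → ℕ → Bool := onCell 0 536870912 1073741824 536870912 1020054732 13421774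
    (rowB 3 eng mog cd2q2a cd5q2 pd0 0 false true false .pp 2 0 2 (qsf 0 536870912 1073741824 536870912 0) ndB2q2a ndB5q2 pcB0 Cut.none Ext.none)

def k0_pm_202_a : ∃ t, chk3 f_pm_202_a t 1 1 1 = true :=
  ⟨(a (b (a (b (l 1) (b (b (l 14403208) (l 14598704)) (l 14863200))) (b (l 4) (b (l 4) (b (l 14641840) (l 14796408))))) (b (b (a (l 15149304) (l 14898920)) (a (l 15354608) (l 15223696))) (b (a (l 15488984) (b (l 15349248) (l 15410920))) (a (l 15545096) (b (l 15457032) (l 15459640)))))) (b (l 4) (b (a (b (a (l 14878456) (l 4)) (a (l 15095568) (l 14990160))) (b (l 4) (a (l 14862224) (l 4)))) (b (a (a (l 15255112) (l 15145400)) (a (l 15008080) (l 14828752))) (a (a (l 15354832) (l 15210680)) (a (l 15124752) (b (l 14903392) (l 14955456)))))))), by decide +kernel⟩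

theorem c_pm_202_a : CertB 0 536870912 1073741824 536870912 1020054732 13421774 3 eng mog cd2q2a cd5q2 pd0 false true false .pp 2 0 2
    ndB2q2a ndB5q2 pcB0 Cut.none Ext.none :=
  certB0 (fam := false) (s1 := true) (s2 := false) (a := 2) (b := 0) (c := 2) (cn := .pp) (n1 := ndB2q2a) (n2 := ndB5q2) (pc := pcB0) (cut := Cut.none) (xt := Ext.none) (P1 := 0) (W1 := 536870912) (P2 := 1073741824) (W2 := 536870912) (P3 := 1020054732) (W3 := 13421774) (N0 := 3) (En := eng) (mo := mog) (C1 := cd2q2a) (C2 := cd5q2) (C3 := pd0)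
    rfl k0_pm_202_a

noncomputable def f_pm_202_b : ℕ → ℕ → ℕ → ℕ → Bool := onCell 0 536870912 1073741824 536870912 1020054732 13421774
    (rowB 3 eng mog cd2q2b cd5q2 pd0 2 false true false .pp 2 0 2 (qsf 1239849684 370763052 1073741824 536870912 0) ndB2q2b ndB5q2 pcB0 Cut.none Ext.none)

def k0_pm_202_b : ∃ t, chk3 f_pm_202_b t 1 1 1 = true :=
  ⟨(a (b (b (l 1) (a (b (a (b (l 14407384) (l 14651400)) (l 1)) (a (l 14987592) (l 266317238103))) (l 1))) (a (b (b (a (l 15378832) (l 15278024)) (a (a (l 15718792) (l 15684208)) (l 15616888))) (a (a (a (l 16053744) (l 16007248)) (b (l 15940392) (l 16125528))) (b (l 15893112) (l 16106200)))) (b (b (a (l 15146200) (l 1)) (a (l 15491552) (l 15331320))) (b (a (l 15789520) (l 15637952)) (a (l 16036312) (l 15906424)))))) (b (l 1) (b (l 1) (a (b (a (l 15434168) (l 1)) (a (l 15706168) (l 15323304))) (l 1))))), by decide +kernel⟩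

theorem c_pm_202_b : CertB 1239849684 370763052 1073741824 536870912 1020054732 13421774 3 eng mog cd2q2b cd5q2 pd0 false true false .pp 2 0 2
    ndB2q2b ndB5q2 pcB0 Cut.none Ext.none :=
  certB2 (fam := false) (s1 := true) (s2 := false) (a := 2) (b := 0) (c := 2) (cn := .pp) (n1 := ndB2q2b) (n2 := ndB5q2) (pc := pcB0) (cut := Cut.none) (xt := Ext.none) (P1 := 1239849684) (W1 := 370763052) (P2 := 1073741824) (W2 := 536870912) (P3 := 1020054732) (W3 := 13421774) (N0 := 3) (En := eng) (mo := mog) (C1 := cd2q2b) (C2 := cd5q2) (C3 := pd0)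
    rfl (fun _ => rfl) k0_pm_202_b

noncomputable def f_pm_203_a : ℕ → ℕ → ℕ → ℕ → Bool := onCell 0 536870912 0 1230186008 1020054732 13421774
    (rowB 3 eng mog cd2q2a cd5q3 pd0 0 false true false .up 2 0 3 (qsf 0 536870912 0 1230186008 0) ndB2q2a ndB5q3 pcB0 Cut.none Ext.none)

def k0_pm_203_a : ∃ t, chk3 f_pm_203_a t 1 1 1 = true :=
  ⟨(b (l 2) (b (l 2) (b (a (b (l 2) (a (b (l 2) (l 15851288)) (l 394161114231))) (l 2)) (a (b (a (b (l 15649776) (l 15453632)) (b (l 15111768) (l 15171904))) (b (a (l 15445008) (l 15382712)) (a (l 15511880) (l 15438688)))) (b (a (b (a (l 15097360) (l 2)) (l 15145768)) (b (l 2) (a (l 15002456) (l 2)))) (a (b (l 15244848) (a (l 15348552) (l 15268928))) (a (b (l 15126320) (l 15186960)) (b (b (l 2) (l 15068376)) (l 15027056))))))))), by decide +kernel⟩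

theorem c_pm_203_a : CertB 0 536870912 0 1230186008 1020054732 13421774 3 eng mog cd2q2a cd5q3 pd0 false true false .up 2 0 3
    ndB2q2a ndB5q3 pcB0 Cut.none Ext.none :=
  certB0 (fam := false) (s1 := true) (s2 := false) (a := 2) (b := 0) (c := 3) (cn := .up) (n1 := ndB2q2a) (n2 := ndB5q3) (pc := pcB0) (cut := Cut.none) (xt := Ext.none) (P1 := 0) (W1 := 536870912) (P2 := 0) (W2 := 1230186008) (P3 := 1020054732) (W3 := 13421774) (N0 := 3) (En := eng) (mo := mog) (C1 := cd2q2a) (C2 := cd5q3) (C3 := pd0)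
    rfl k0_pm_203_a

noncomputable def f_pm_203_b : ℕ → ℕ → ℕ → ℕ → Bool := onCell 0 536870912 0 1230186008 1020054732 13421774
    (rowB 3 eng mog cd2q2b cd5q3 pd0 2 false true false .up 2 0 3 (qsf 1239849684 370763052 0 1230186008 0) ndB2q2b ndB5q3 pcB0 Cut.none Ext.none)

def k0_pm_203_b : ∃ t, chk3 f_pm_203_b t 1 1 1 = true :=
  ⟨(b (a (l 2) (l 3)) (b (a (b (l 2) (a (l 2) (a (l 2) (b (l 2) (l 621258242999))))) (a (b (a (l 2) (b (l 3) (a (l 213303827063) (l 210619992327)))) (a (b (a (l 15991224) (l 16093360)) (l 16080472)) (b (b (l 16191496) (l 16230504)) (l 16302416)))) (b (a (b (l 3) (b (l 16259320) (l 16288696))) (b (b (l 3) (l 16337504)) (b (l 16367216) (l 16421464)))) (b (a (b (l 16346448) (l 16394616)) (b (l 16479952) (l 16530648))) (a (l 16475016) (l 16520128)))))) (a (b (a (l 2) (b (a (b (l 2) (l 15897008)) (b (l 15934576) (l 16110704))) (a (b (l 16172008) (l 16283160)) (b (l 16436216) (l 16453392))))) (b (a (a (l 2) (l 16221728)) (a (l 16360392)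 (a (l 16363216) (l 16335352)))) (a (a (a (a (l 16178144) (l 16206864)) (l 16224976)) (l 16247808)) (a (l 16234264) (l 16150288))))) (a (b (b (b (l 16279864) (a (l 16318344) (l 16457952))) (a (l 16433584) (l 16401768))) (b (a (b (l 16309248) (l 16178096)) (b (l 16163688) (l 15779328))) (a (l 15977696) (l 15575424)))) (b (b (b (l 16474952) (a (l 16448352) (l 16388456))) (a (l 16281056) (l 16033840))) (b (a (b (l 15979728) (l 15675552)) (l 413958155255)) (a (b (l 350070148791) (l 15248568)) (l 1)))))))), by decide +kernel⟩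

theorem c_pm_203_b : CertB 1239849684 370763052 0 1230186008 1020054732 13421774 3 eng mog cd2q2b cd5q3 pd0 false true false .up 2 0 3
    ndB2q2b ndB5q3 pcB0 Cut.none Ext.none :=
  certB2 (fam := false) (s1 := true) (s2 := false) (a := 2) (b := 0) (c := 3) (cn := .up) (n1 := ndB2q2b) (n2 := ndB5q3) (pc := pcB0) (cut := Cut.none) (xt := Ext.none) (P1 := 1239849684) (W1 := 370763052) (P2 := 0) (W2 := 1230186008) (P3 := 1020054732) (W3 := 13421774) (N0 := 3) (En := eng) (mo := mog) (C1 := cd2q2b) (C2 := cd5q3) (C3 := pd0)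
    rfl (fun _ => rfl) k0_pm_203_b

noncomputable def cut_pm_213_a : Cut := Cut.of [[⟨0, 1, 0, 26738688⟩, ⟨1, 1, 0, 26738688⟩, ⟨2, 2, 0, 2621440⟩]]

noncomputable def xt_pm_213_a : Ext := extD3 3 ⟨4, 1, 1, 5, 99, 20, 33, 40, 51, 125, 1, 32⟩ eng cd2q2a cd5q3 pd1 false true false .pnn 2 1 3 rfl ndB2q2a ndB5q3 pcB1

noncomputable def f_pm_213_a : ℕ → ℕ → ℕ → ℕ → Bool := onCell 0 536870912 0 1230186008 1020054732 13421774
    (rowB 3 eng mog cd2q2a cd5q3 pd1 0 false true false .pnn 2 1 3 (qsf 0 536870912 0 1230186008 1) ndB2q2a ndB5q3 pcB1 cut_pm_213_a xt_pm_213_a)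

def k0_pm_213_a : ∃ t, chk3 f_pm_213_a t 2 2 1 = true :=
  ⟨(b (b (l 3) (a (l 3) (b (l 3) (a (l 3) (b (l 3) (a (l 3) (l 313162834535))))))) (b (a (b (l 3) (b (a (l 3) (l 287393018935)) (a (l 359870656199) (a (l 16543312) (l 16591888))))) (b (a (b (l 3) (a (l 281487471335) (l 241759009767))) (b (a (l 283634928439) (l 16501808)) (a (l 16569032) (l 16616056)))) (a (b (a (l 16539008) (l 16596416)) (l 16567136)) (c (l 16576368) (l 16543240))))) (a (b (a (b (a (l 206862507543) (l 16599000)) (l 16609976)) (b (l 16604576) (l 16601440))) (a (b (l 16601208) (l 16575072)) (b (l 16578056) (l 16546216)))) (b (a (b (l 16606936) (l 16583520)) (b (l 16589928) (l 16529408))) (a (c (l 16459432) (l 16510904)) (b (l 16483304) (l 16460472))))))), by decide +kernel⟩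

def k1_pm_213_a : ∃ t, chk3 f_pm_213_a t 3 4 1 = true :=
  ⟨(a (b (l 3) (a (b (l 3) (a (b (l 346448846855) (l 232095338471)) (b (a (l 286319346855) (l 16532704)) (l 16579360)))) (b (a (b (l 3) (a (l 329269047687) (l 242832854807))) (b (a (l 340543375447) (l 239611671271)) (a (l 16587080) (l 16636728)))) (a (b (l 16524656) (l 16642088)) (b (l 16596200) (l 16693704)))))) (a (b (b (l 3) (a (b (l 3) (a (l 362018427751) (b (l 396914930327) (l 16587712)))) (b (a (b (l 3) (l 352354676055)) (b (a (l 3) (l 397451921207)) (c (l 16636704) (l 16603000)))) (a (c (l 16610704) (l 16571944)) (l 16627880))))) (b (a (b (a (l 16543320) (l 16638712)) (l 16597968)) (b (a (l 16672216) (l 16731048)) (l 16695432))) (a (b (l 16714992) (l 16669008)) (l 16633376)))) (b (a (b (b (l 3) (a (b (l 3) (a (l 3) (l 6685359782611777607813169247))) (a (b (l 433422361143) (b (l 589094897325317642167519) (l 16678592))) (a (b (l 370608516023) (l 16690976)) (l 6))))) (b (a (b (a (l 256254902871)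 (l 16671480)) (l 16659536)) (a (b (l 16692696) (l 16753432)) (l 16703360))) (a (l 16667512) (l 16701616)))) (b (l 6) (a (b (b (l 16700760) (l 16746760)) (l 16721992)) (b (c (l 16680880) (l 16727408)) (l 16683048))))) (b (a (a (l 16645096) (b (l 16728464) (l 16692672))) (a (b (l 16688840) (l 16656016)) (b (l 16631400) (l 16621272)))) (a (b (l 16675216) (l 16639096)) (b (a (l 16627744) (l 16615488)) (l 16617784))))))), by decide +kernel⟩

def k2_pm_213_a : ∃ t, chk3 f_pm_213_a t 3 5 1 = true :=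
  ⟨(a (b (b (a (b (a (l 16617352) (l 16629272)) (a (l 16640184) (l 16652984))) (a (l 16656752) (l 16628464))) (a (a (l 16618568) (l 16534888)) (a (b (l 16590968) (l 16534544)) (b (l 16542712) (l 16478072))))) (b (a (c (l 16473280) (l 16485592)) (c (l 16440328) (l 16378320))) (a (c (l 16439104) (l 16371960)) (c (l 16326480) (l 16255792))))) (b (a (b (a (b (l 16611032) (l 16546768)) (b (l 16556272) (l 16487680))) (a (l 16443440) (l 16369896))) (a (b (b (l 16563920) (l 16468832)) (l 16303920)) (b (l 16616008) (l 16315672)))) (a (b (a (l 16301272) (l 16210416)) (a (l 16173528) (l 16073736))) (b (a (l 16106832) (l 16007352)) (a (l 15954664) (l 15817376)))))), by decide +kernel⟩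

def k3_pm_213_a : ∃ t, chk3 f_pm_213_a t 1 6 1 = true :=
  ⟨(a (b (a (b (b (a (l 16521808) (l 16448832)) (c (l 16345288) (l 16475984))) (b (l 16387280) (l 16442704))) (a (b (b (l 16474816) (l 16440432)) (l 16240528)) (b (b (l 16418632) (l 16378288)) (l 16315880)))) (b (a (b (l 16409488) (l 16368376)) (a (l 16301248) (l 16216592))) (a (b (l 16315840) (a (l 16281944) (l 16214984))) (b (a (l 16211224) (l 16117904)) (c (l 15921504) (l 16108224)))))) (b (a (b (a (c (l 16347704) (l 16273128)) (c (l 16219088) (l 16153272))) (a (l 16217696) (l 16231424))) (b (a (c (l 16037016) (l 15987160)) (a (l 15837712) (l 15693744))) (a (b (l 15933304) (l 15878816)) (a (b (l 15759792) (l 15701584)) (b (l 15614936) (l 15548776)))))) (a (b (a (b (l 16137640) (l 16072976)) (b (l 15996640) (l 15936568))) (a (b (l 16014080) (l 15971176)) (b (l 15884144) (l 15846448)))) (b (a (b (c (l 15803024) (l 15828224)) (l 15712520)) (c (b (l 15541560) (l 15481384)) (b (l 15569456) (l 15495288))))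 (a (b (l 15703888) (l 15667656)) (b (l 15392208) (l 15399248))))))), by decide +kernel⟩

def k4_pm_213_a : ∃ t, chk3 f_pm_213_a t 1 7 1 = true :=
  ⟨(b (a (b (a (b (c (l 16006528) (l 16185272)) (a (l 16033952) (l 16110464))) (b (a (l 16094408) (l 16030784)) (l 15938368))) (a (b (l 16109744) (l 16112120)) (b (l 16039792) (l 16052696)))) (b (a (c (b (l 15903728) (l 15917304)) (a (l 15912752) (l 15783976))) (a (b (l 15649008) (l 15650760)) (b (l 15385600) (l 15396240)))) (a (b (a (l 15939464) (l 15832736)) (a (l 15964632) (l 15860224))) (b (a (l 15675376) (a (l 15506576) (l 15352968))) (a (l 15606608) (b (l 15422960) (l 15385152))))))) (a (b (a (l 1) (b (a (l 1) (l 16048368)) (l 1))) (l 1)) (a (b (b (a (l 15958600) (l 15815088)) (l 15780064)) (l 1)) (b (a (b (l 15596560) (l 15468104)) (b (l 15280312) (l 15145104))) (a (b (l 15340616) (l 1)) (b (l 15021192) (l 14970376))))))), by decide +kernel⟩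

theorem s5_pm_213_a : ∃ t, chk3 f_pm_213_a t 1 3 1 = true := ex3_b k3_pm_213_a k4_pm_213_a

theorem s6_pm_213_a : ∃ t, chk3 f_pm_213_a t 3 2 1 = true := ex3_b k1_pm_213_a k2_pm_213_a

theorem s7_pm_213_a : ∃ t, chk3 f_pm_213_a t 1 2 1 = true := ex3_a k0_pm_213_a s6_pm_213_a

theorem s8_pm_213_a : ∃ t, chk3 f_pm_213_a t 1 1 1 = true := ex3_b s7_pm_213_a s5_pm_213_a

theorem c_pm_213_a : CertB 0 536870912 0 1230186008 1020054732 13421774 3 eng mog cd2q2a cd5q3 pd1 false true false .pnn 2 1 3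
    ndB2q2a ndB5q3 pcB1 cut_pm_213_a xt_pm_213_a :=
  certB0 (fam := false) (s1 := true) (s2 := false) (a := 2) (b := 1) (c := 3) (cn := .pnn) (n1 := ndB2q2a) (n2 := ndB5q3) (pc := pcB1) (cut := cut_pm_213_a) (xt := xt_pm_213_a) (P1 := 0) (W1 := 536870912) (P2 := 0) (W2 := 1230186008) (P3 := 1020054732) (W3 := 13421774) (N0 := 3) (En := eng) (mo := mog) (C1 := cd2q2a) (C2 := cd5q3) (C3 := pd1)
    rfl s8_pm_213_a

noncomputable def cut_pm_213_b : Cut := Cut.of [[⟨0, 1, 0, 26738688⟩, ⟨1, 1, 0, 26738688⟩, ⟨2, 2, 0, 2621440⟩]]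

noncomputable def f_pm_213_b : ℕ → ℕ → ℕ → ℕ → Bool := onCell 1239849684 370763052 0 1230186008 1020054732 13421774
    (rowB 3 eng mog cd2q2b cd5q3 pd1 0 false true false .pnn 2 1 3 (qsf 1239849684 370763052 0 1230186008 1) ndB2q2b ndB5q3 pcB1 cut_pm_213_b Ext.none)

def k0_pm_213_b : ∃ t, chk3 f_pm_213_b t 1 1 1 = true :=
  ⟨(b (b (l 3) (a (b (l 3) (a (a (a (b (b (c (l 242832905847) (l 239611631975)) (c (l 16609920) (l 16574744))) (b (l 16575544) (l 16587384))) (b (b (l 3) (c (l 16584952) (l 16532176))) (b (l 16560264) (l 16552888)))) (b (b (l 3) (a (l 16460144) (l 3))) (b (a (l 16490040) (l 16469168)) (a (l 16521112) (l 16497928))))) (b (l 3) (a (b (l 253569999799) (a (l 16482360) (l 16469600))) (b (l 3) (l 16364184)))))) (l 3))) (b (a (b (a (b (a (b (c (l 16522728) (l 16557072)) (c (l 16332032) (l 16508512))) (c (b (l 16466072) (l 16404808)) (b (l 16503944) (l 16496736)))) (b (a (c (a (l 16506480) (l 16430352)) (l 16458680)) (c (l 16200952) (l 16465648)))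 (a (c (l 16495072) (l 16474504)) (c (l 16165328) (l 16426896))))) (b (a (c (b (l 16449512) (l 16374864)) (b (l 16442504) (l 16430216))) (b (a (l 16434112) (l 16425536)) (l 16214552))) (a (b (l 16139344) (c (b (l 16229296) (l 16230608)) (l 16403896))) (b (l 16172840) (c (l 16175944) (l 16335264)))))) (a (b (a (b (l 16397296) (l 16454688)) (b (c (l 16482648) (l 16479840)) (l 16502272))) (a (b (l 16415616) (l 16360288)) (b (l 16482352) (l 16441320)))) (a (b (b (c (l 16333720) (l 16449224)) (l 16510872)) (b (l 16521856) (l 16501272))) (b (b (c (b (l 16145816) (l 16220848)) (l 16354528)) (c (l 16370960) (l 16449224))) (l 1))))) (b (a (b (b (a (l 16403528) (l 3)) (a (c (l 16393792) (l 16349744)) (l 16323952))) (a (b (l 16247648) (l 16151456)) (l 1))) (l 1)) (l 1))) (a (b (a (b (b (a (l 16284736) (l 16376248)) (c (a (l 16169032) (l 16281952)) (l 16216320))) (a (b (l 16177616) (l 16173856)) (l 1))) (l 1)) (l 1)) (l 1)))), by decide +kernel⟩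

theorem c_pm_213_b : CertB 1239849684 370763052 0 1230186008 1020054732 13421774 3 eng mog cd2q2b cd5q3 pd1 false true false .pnn 2 1 3
    ndB2q2b ndB5q3 pcB1 cut_pm_213_b Ext.none :=
  certB0 (fam := false) (s1 := true) (s2 := false) (a := 2) (b := 1) (c := 3) (cn := .pnn) (n1 := ndB2q2b) (n2 := ndB5q3) (pc := pcB1) (cut := cut_pm_213_b) (xt := Ext.none) (P1 := 1239849684) (W1 := 370763052) (P2 := 0) (W2 := 1230186008) (P3 := 1020054732) (W3 := 13421774) (N0 := 3) (En := eng) (mo := mog) (C1 := cd2q2b) (C2 := cd5q3) (C3 := pd1)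
    rfl k0_pm_213_b

noncomputable def f_pm_303 : ℕ → ℕ → ℕ → ℕ → Bool := onCell 0 536870912 0 1230186008 1020054732 13421774
    (rowB 3 eng mog cd2q3 cd5q3 pd0 2 false true false .npn 3 0 3 (qsf 1610612736 536870912 0 1230186008 0) ndB2q3 ndB5q3 pcB0 Cut.none Ext.none)

def k0_pm_303 : ∃ t, chk3 f_pm_303 t 1 1 1 = true :=
  ⟨(b (a (l 3) (l 3)) (b (a (b (l 3) (b (a (l 3) (a (a (l 211692016375) (l 207934123607)) (a (l 15675536) (l 15747936)))) (a (a (a (b (l 3) (a (l 185921909383) (b (l 15132616) (a (l 15124616) (l 15153216))))) (b (l 15246528) (a (l 15199400) (l 15134432)))) (b (l 15414096) (l 15300544))) (a (a (l 15468936) (b (l 15657216) (l 15686144))) (b (l 15752056) (l 15843880)))))) (a (b (a (l 3) (b (l 3) (a (l 214914040519) (l 211155986807)))) (a (b (a (l 15754136) (b (l 15919032) (l 15967384))) (c (l 15884824) (l 16013136))) (b (b (a (l 15985968) (l 1)) (l 1)) (l 1)))) (a (b (b (l 3) (l 1)) (l 1)) (l 1)))) (a (b (a (b (a (a (a (b (l 15183296) (l 15367752))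 (a (b (l 15286688) (l 15461304)) (b (b (l 15255168) (l 15384624)) (b (l 15479184) (l 15571576))))) (a (b (l 15345864) (l 15569576)) (b (l 15366176) (l 15604512)))) (a (b (l 15436256) (l 15712560)) (b (l 15538336) (l 15814112)))) (a (a (a (l 15656432) (a (l 15737664) (l 15781368))) (a (l 15801672) (l 15818456))) (b (a (a (l 15826976) (l 15861728)) (l 15915800)) (l 15915152)))) (a (b (b (a (l 15652320) (l 15759056)) (l 15866368)) (b (a (l 15981472) (l 16020984)) (a (l 15999176) (l 16047080)))) (b (b (l 15920792) (l 15805600)) (l 1)))) (a (a (a (a (b (l 15817656) (l 15828288)) (b (l 15847672) (l 15841960))) (b (l 15872272) (l 15856936))) (b (l 15927496) (l 15886392))) (a (b (l 15995272) (l 1)) (l 1)))) (l 1)))), by decide +kernel⟩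

theorem c_pm_303 : CertB 1610612736 536870912 0 1230186008 1020054732 13421774 3 eng mog cd2q3 cd5q3 pd0 false true false .npn 3 0 3
    ndB2q3 ndB5q3 pcB0 Cut.none Ext.none :=
  certB2 (fam := false) (s1 := true) (s2 := false) (a := 3) (b := 0) (c := 3) (cn := .npn) (n1 := ndB2q3) (n2 := ndB5q3) (pc := pcB0) (cut := Cut.none) (xt := Ext.none) (P1 := 1610612736) (W1 := 536870912) (P2 := 0) (W2 := 1230186008) (P3 := 1020054732) (W3 := 13421774) (N0 := 3) (En := eng) (mo := mog) (C1 := cd2q3) (C2 := cd5q3) (C3 := pd0)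
    rfl (fun _ => rfl) k0_pm_303

noncomputable def f_pm_313 : ℕ → ℕ → ℕ → ℕ → Bool := onCell 1610612736 536870912 0 1230186008 1020054732 13421774
    (rowB 3 eng mog cd2q3 cd5q3 pd1 0 false true false .dn 3 1 3 (qsf 1610612736 536870912 0 1230186008 1) ndB2q3 ndB5q3 pcB1 Cut.none Ext.none)

def k0_pm_313 : ∃ t, chk3 f_pm_313 t 1 1 1 = true :=
  ⟨(b (l 3) (l 1)), by decide +kernel⟩

theorem c_pm_313 : CertB 1610612736 536870912 0 1230186008 1020054732 13421774 3 eng mog cd2q3 cd5q3 pd1 false true false .dn 3 1 3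
    ndB2q3 ndB5q3 pcB1 Cut.none Ext.none :=
  certB0 (fam := false) (s1 := true) (s2 := false) (a := 3) (b := 1) (c := 3) (cn := .dn) (n1 := ndB2q3) (n2 := ndB5q3) (pc := pcB1) (cut := Cut.none) (xt := Ext.none) (P1 := 1610612736) (W1 := 536870912) (P2 := 0) (W2 := 1230186008) (P3 := 1020054732) (W3 := 13421774) (N0 := 3) (En := eng) (mo := mog) (C1 := cd2q3) (C2 := cd5q3) (C3 := pd1)
    rfl k0_pm_313

noncomputable def f_mm_001 : ℕ → ℕ → ℕ → ℕ → Bool := onCell 0 536870912 0 536870912 1020054732 13421774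
    (rowB 3 eng mog cd2q0 cd5q1 pd0 1 false false false .up 0 0 1 (qsf 0 536870912 536870912 536870912 0) ndB2q0 ndB5q1 pcB0 Cut.none Ext.none)

def k0_mm_001 : ∃ t, chk3 f_mm_001 t 1 1 1 = true :=
  ⟨(l 3), by decide +kernel⟩

theorem c_mm_001 : CertB 0 536870912 536870912 536870912 1020054732 13421774 3 eng mog cd2q0 cd5q1 pd0 false false false .up 0 0 1
    ndB2q0 ndB5q1 pcB0 Cut.none Ext.none :=
  certB1 (fam := false) (s1 := false) (s2 := false) (a := 0) (b := 0) (c := 1) (cn := .up) (n1 := ndB2q0) (n2 := ndB5q1) (pc := pcB0) (cut := Cut.none) (xt := Ext.none) (P1 := 0) (W1 := 536870912) (P2 := 536870912) (W2 := 536870912) (P3 := 1020054732) (W3 := 13421774) (N0 := 3) (En := eng) (mo := mog) (C1 := cd2q0) (C2 := cd5q1) (C3 := pd0)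
    rfl (fun _ => rfl) k0_mm_001

noncomputable def f_mm_011 : ℕ → ℕ → ℕ → ℕ → Bool := onCell 0 536870912 536870912 536870912 1020054732 13421774
    (rowB 3 eng mog cd2q0 cd5q1 pd1 1 false false false .pnn 0 1 1 (qsf 0 536870912 536870912 536870912 1) ndB2q0 ndB5q1 pcB1 Cut.none Ext.none)

def k0_mm_011 : ∃ t, chk3 f_mm_011 t 1 1 1 = true :=
  ⟨(l 5), by decide +kernel⟩

theorem c_mm_011 : CertB 0 536870912 536870912 536870912 1020054732 13421774 3 eng mog cd2q0 cd5q1 pd1 false false false .pnn 0 1 1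
    ndB2q0 ndB5q1 pcB1 Cut.none Ext.none :=
  certB1 (fam := false) (s1 := false) (s2 := false) (a := 0) (b := 1) (c := 1) (cn := .pnn) (n1 := ndB2q0) (n2 := ndB5q1) (pc := pcB1) (cut := Cut.none) (xt := Ext.none) (P1 := 0) (W1 := 536870912) (P2 := 536870912) (W2 := 536870912) (P3 := 1020054732) (W3 := 13421774) (N0 := 3) (En := eng) (mo := mog) (C1 := cd2q0) (C2 := cd5q1) (C3 := pd1)
    rfl (fun _ => rfl) k0_mm_011

noncomputable def f_mm_012 : ℕ → ℕ → ℕ → ℕ → Bool := onCell 0 536870912 1073741824 536870912 1020054732 13421774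
    (rowB 3 eng mog cd2q0 cd5q2 pd1 0 false false false .pnp 0 1 2 (qsf 0 536870912 1073741824 536870912 1) ndB2q0 ndB5q2 pcB1 Cut.none Ext.none)

def k0_mm_012 : ∃ t, chk3 f_mm_012 t 1 1 1 = true :=
  ⟨(l 5), by decide +kernel⟩

theorem c_mm_012 : CertB 0 536870912 1073741824 536870912 1020054732 13421774 3 eng mog cd2q0 cd5q2 pd1 false false false .pnp 0 1 2
    ndB2q0 ndB5q2 pcB1 Cut.none Ext.none :=
  certB0 (fam := false) (s1 := false) (s2 := false) (a := 0) (b := 1) (c := 2) (cn := .pnp) (n1 := ndB2q0) (n2 := ndB5q2) (pc := pcB1) (cut := Cut.none) (xt := Ext.none) (P1 := 0) (W1 := 536870912) (P2 := 1073741824) (W2 := 536870912) (P3 := 1020054732) (W3 := 13421774) (N0 := 3) (En := eng) (mo := mog) (C1 := cd2q0) (C2 := cd5q2) (C3 := pd1)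
    rfl k0_mm_012

noncomputable def f_mm_022 : ℕ → ℕ → ℕ → ℕ → Bool := onCell 0 536870912 1073741824 536870912 1020054732 13421774
    (rowB 3 eng mog cd2q0 cd5q2 pd2 0 false false false .pp 0 2 2 (qsf 0 536870912 1073741824 536870912 2) ndB2q0 ndB5q2 pcB2 Cut.none Ext.none)

def k0_mm_022 : ∃ t, chk3 f_mm_022 t 1 1 1 = true :=
  ⟨(l 5), by decide +kernel⟩

theorem c_mm_022 : CertB 0 536870912 1073741824 536870912 1020054732 13421774 3 eng mog cd2q0 cd5q2 pd2 false false false .pp 0 2 2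
    ndB2q0 ndB5q2 pcB2 Cut.none Ext.none :=
  certB0 (fam := false) (s1 := false) (s2 := false) (a := 0) (b := 2) (c := 2) (cn := .pp) (n1 := ndB2q0) (n2 := ndB5q2) (pc := pcB2) (cut := Cut.none) (xt := Ext.none) (P1 := 0) (W1 := 536870912) (P2 := 1073741824) (W2 := 536870912) (P3 := 1020054732) (W3 := 13421774) (N0 := 3) (En := eng) (mo := mog) (C1 := cd2q0) (C2 := cd5q2) (C3 := pd2)
    rfl k0_mm_022

noncomputable def f_mm_023 : ℕ → ℕ → ℕ → ℕ → Bool := onCell 0 536870912 0 1230186008 1020054732 13421774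
    (rowB 3 eng mog cd2q0 cd5q3 pd2 0 false false false .up 0 2 3 (qsf 0 536870912 0 1230186008 2) ndB2q0 ndB5q3 pcB2 Cut.none Ext.none)

def k0_mm_023 : ∃ t, chk3 f_mm_023 t 1 1 1 = true :=
  ⟨(l 5), by decide +kernel⟩

theorem c_mm_023 : CertB 0 536870912 0 1230186008 1020054732 13421774 3 eng mog cd2q0 cd5q3 pd2 false false false .up 0 2 3
    ndB2q0 ndB5q3 pcB2 Cut.none Ext.none :=
  certB0 (fam := false) (s1 := false) (s2 := false) (a := 0) (b := 2) (c := 3) (cn := .up) (n1 := ndB2q0) (n2 := ndB5q3) (pc := pcB2) (cut := Cut.none) (xt := Ext.none) (P1 := 0) (W1 := 536870912) (P2 := 0) (W2 := 1230186008) (P3 := 1020054732) (W3 := 13421774) (N0 := 3) (En := eng) (mo := mog) (C1 := cd2q0) (C2 := cd5q3) (C3 := pd2)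
    rfl k0_mm_023

noncomputable def f_mm_033 : ℕ → ℕ → ℕ → ℕ → Bool := onCell 0 536870912 0 1230186008 1020054732 13421774
    (rowB 3 eng mog cd2q0 cd5q3 pd3 0 false false false .pnn 0 3 3 (qsf 0 536870912 0 1230186008 3) ndB2q0 ndB5q3 pcB3 Cut.none Ext.none)

def k0_mm_033 : ∃ t, chk3 f_mm_033 t 1 1 1 = true :=
  ⟨(l 5), by decide +kernel⟩

theorem c_mm_033 : CertB 0 536870912 0 1230186008 1020054732 13421774 3 eng mog cd2q0 cd5q3 pd3 false false false .pnn 0 3 3
    ndB2q0 ndB5q3 pcB3 Cut.none Ext.none :=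
  certB0 (fam := false) (s1 := false) (s2 := false) (a := 0) (b := 3) (c := 3) (cn := .pnn) (n1 := ndB2q0) (n2 := ndB5q3) (pc := pcB3) (cut := Cut.none) (xt := Ext.none) (P1 := 0) (W1 := 536870912) (P2 := 0) (W2 := 1230186008) (P3 := 1020054732) (W3 := 13421774) (N0 := 3) (En := eng) (mo := mog) (C1 := cd2q0) (C2 := cd5q3) (C3 := pd3)
    rfl k0_mm_033

noncomputable def f_mm_101 : ℕ → ℕ → ℕ → ℕ → Bool := onCell 536870912 536870912 536870912 536870912 1020054732 13421774
    (rowB 3 eng mog cd2q1 cd5q1 pd0 0 false false false .npn 1 0 1 (qsf 536870912 536870912 536870912 536870912 0) ndB2q1 ndB5q1 pcB0 Cut.none Ext.none)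

def k0_mm_101 : ∃ t, chk3 f_mm_101 t 1 1 1 = true :=
  ⟨(l 3), by decide +kernel⟩

theorem c_mm_101 : CertB 536870912 536870912 536870912 536870912 1020054732 13421774 3 eng mog cd2q1 cd5q1 pd0 false false false .npn 1 0 1
    ndB2q1 ndB5q1 pcB0 Cut.none Ext.none :=
  certB0 (fam := false) (s1 := false) (s2 := false) (a := 1) (b := 0) (c := 1) (cn := .npn) (n1 := ndB2q1) (n2 := ndB5q1) (pc := pcB0) (cut := Cut.none) (xt := Ext.none) (P1 := 536870912) (W1 := 536870912) (P2 := 536870912) (W2 := 536870912) (P3 := 1020054732) (W3 := 13421774) (N0 := 3) (En := eng) (mo := mog) (C1 := cd2q1) (C2 := cd5q1) (C3 := pd0)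
    rfl k0_mm_101

noncomputable def f_mm_102 : ℕ → ℕ → ℕ → ℕ → Bool := onCell 536870912 536870912 1073741824 536870912 1020054732 13421774
    (rowB 3 eng mog cd2q1 cd5q2 pd0 0 false false false .npp 1 0 2 (qsf 536870912 536870912 1073741824 536870912 0) ndB2q1 ndB5q2 pcB0 Cut.none Ext.none)

def k0_mm_102 : ∃ t, chk3 f_mm_102 t 1 1 1 = true :=
  ⟨(l 3), by decide +kernel⟩

theorem c_mm_102 : CertB 536870912 536870912 1073741824 536870912 1020054732 13421774 3 eng mog cd2q1 cd5q2 pd0 false false false .npp 1 0 2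
    ndB2q1 ndB5q2 pcB0 Cut.none Ext.none :=
  certB0 (fam := false) (s1 := false) (s2 := false) (a := 1) (b := 0) (c := 2) (cn := .npp) (n1 := ndB2q1) (n2 := ndB5q2) (pc := pcB0) (cut := Cut.none) (xt := Ext.none) (P1 := 536870912) (W1 := 536870912) (P2 := 1073741824) (W2 := 536870912) (P3 := 1020054732) (W3 := 13421774) (N0 := 3) (En := eng) (mo := mog) (C1 := cd2q1) (C2 := cd5q2) (C3 := pd0)
    rfl k0_mm_102

noncomputable def f_mm_112 : ℕ → ℕ → ℕ → ℕ → Bool := onCell 536870912 536870912 1073741824 536870912 1020054732 13421774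
    (rowB 3 eng mog cd2q1 cd5q2 pd1 0 false false false .dn 1 1 2 (qsf 536870912 536870912 1073741824 536870912 1) ndB2q1 ndB5q2 pcB1 Cut.none Ext.none)

def k0_mm_112 : ∃ t, chk3 f_mm_112 t 1 1 1 = true :=
  ⟨(l 3), by decide +kernel⟩

theorem c_mm_112 : CertB 536870912 536870912 1073741824 536870912 1020054732 13421774 3 eng mog cd2q1 cd5q2 pd1 false false false .dn 1 1 2
    ndB2q1 ndB5q2 pcB1 Cut.none Ext.none :=
  certB0 (fam := false) (s1 := false) (s2 := false) (a := 1) (b := 1) (c := 2) (cn := .dn) (n1 := ndB2q1) (n2 := ndB5q2) (pc := pcB1) (cut := Cut.none) (xt := Ext.none) (P1 := 536870912) (W1 := 536870912) (P2 := 1073741824) (W2 := 536870912) (P3 := 1020054732) (W3 := 13421774) (N0 := 3) (En := eng) (mo := mog) (C1 := cd2q1) (C2 := cd5q2) (C3 := pd1)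
    rfl k0_mm_112

noncomputable def f_mm_113 : ℕ → ℕ → ℕ → ℕ → Bool := onCell 536870912 536870912 0 1230186008 1020054732 13421774
    (rowB 3 eng mog cd2q1 cd5q3 pd1 0 false false false .nn 1 1 3 (qsf 536870912 536870912 0 1230186008 1) ndB2q1 ndB5q3 pcB1 Cut.none Ext.none)

def k0_mm_113 : ∃ t, chk3 f_mm_113 t 1 1 1 = true :=
  ⟨(l 5), by decide +kernel⟩

theorem c_mm_113 : CertB 536870912 536870912 0 1230186008 1020054732 13421774 3 eng mog cd2q1 cd5q3 pd1 false false false .nn 1 1 3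
    ndB2q1 ndB5q3 pcB1 Cut.none Ext.none :=
  certB0 (fam := false) (s1 := false) (s2 := false) (a := 1) (b := 1) (c := 3) (cn := .nn) (n1 := ndB2q1) (n2 := ndB5q3) (pc := pcB1) (cut := Cut.none) (xt := Ext.none) (P1 := 536870912) (W1 := 536870912) (P2 := 0) (W2 := 1230186008) (P3 := 1020054732) (W3 := 13421774) (N0 := 3) (En := eng) (mo := mog) (C1 := cd2q1) (C2 := cd5q3) (C3 := pd1)
    rfl k0_mm_113

noncomputable def f_mm_123 : ℕ → ℕ → ℕ → ℕ → Bool := onCell 536870912 536870912 0 1230186008 1020054732 13421774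
    (rowB 3 eng mog cd2q1 cd5q3 pd2 0 false false false .npn 1 2 3 (qsf 536870912 536870912 0 1230186008 2) ndB2q1 ndB5q3 pcB2 Cut.none Ext.none)

def k0_mm_123 : ∃ t, chk3 f_mm_123 t 1 1 1 = true :=
  ⟨(l 5), by decide +kernel⟩

theorem c_mm_123 : CertB 536870912 536870912 0 1230186008 1020054732 13421774 3 eng mog cd2q1 cd5q3 pd2 false false false .npn 1 2 3
    ndB2q1 ndB5q3 pcB2 Cut.none Ext.none :=
  certB0 (fam := false) (s1 := false) (s2 := false) (a := 1) (b := 2) (c := 3) (cn := .npn) (n1 := ndB2q1) (n2 := ndB5q3) (pc := pcB2) (cut := Cut.none) (xt := Ext.none) (P1 := 536870912) (W1 := 536870912) (P2 := 0) (W2 := 1230186008) (P3 := 1020054732) (W3 := 13421774) (N0 := 3) (En := eng) (mo := mog) (C1 := cd2q1) (C2 := cd5q3) (C3 := pd2)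
    rfl k0_mm_123

noncomputable def f_mm_133 : ℕ → ℕ → ℕ → ℕ → Bool := onCell 536870912 536870912 0 1230186008 1020054732 13421774
    (rowB 3 eng mog cd2q1 cd5q3 pd3 0 false false false .dn 1 3 3 (qsf 536870912 536870912 0 1230186008 3) ndB2q1 ndB5q3 pcB3 Cut.none Ext.none)

def k0_mm_133 : ∃ t, chk3 f_mm_133 t 1 1 1 = true :=
  ⟨(l 5), by decide +kernel⟩

theorem c_mm_133 : CertB 536870912 536870912 0 1230186008 1020054732 13421774 3 eng mog cd2q1 cd5q3 pd3 false false false .dn 1 3 3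
    ndB2q1 ndB5q3 pcB3 Cut.none Ext.none :=
  certB0 (fam := false) (s1 := false) (s2 := false) (a := 1) (b := 3) (c := 3) (cn := .dn) (n1 := ndB2q1) (n2 := ndB5q3) (pc := pcB3) (cut := Cut.none) (xt := Ext.none) (P1 := 536870912) (W1 := 536870912) (P2 := 0) (W2 := 1230186008) (P3 := 1020054732) (W3 := 13421774) (N0 := 3) (En := eng) (mo := mog) (C1 := cd2q1) (C2 := cd5q3) (C3 := pd3)
    rfl k0_mm_133

noncomputable def cut_mm_202_a : Cut := Cut.of [[⟨0, 1, 0, 38347922⟩, ⟨1, 0, 0, 38347922⟩, ⟨2, 1, 0, 38347922⟩]]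

noncomputable def f_mm_202_a : ℕ → ℕ → ℕ → ℕ → Bool := onCell 0 536870912 0 536870912 1020054732 13421774
    (rowB 3 eng mog cd2q2a cd5q2 pd0 1 false false false .pp 2 0 2 (qsf 0 536870912 1073741824 536870912 0) ndB2q2a ndB5q2 pcB0 cut_mm_202_a Ext.none)

def k0_mm_202_a : ∃ t, chk3 f_mm_202_a t 2 8 1 = true :=
  ⟨(a (b (b (l 16338448) (b (a (l 16497856) (l 16315568)) (a (b (l 16512384) (a (l 16519264) (l 16496840))) (b (l 16439784) (l 16437536))))) (b (b (a (l 16438864) (l 16316240)) (a (l 16418256) (l 16287664))) (a (b (l 16410008) (l 16371672)) (b (l 16136328) (a (l 16271776) (l 16210896)))))) (b (b (a (b (l 16353744) (a (l 16369920) (l 16318152))) (b (a (l 16313184) (l 16301312)) (a (l 16352360) (l 16354048)))) (b (a (a (l 16389256) (l 16363712)) (l 16281624)) (a (b (l 16366392) (l 16332400)) (a (l 16236320) (b (l 16314288) (l 16196400)))))) (b (b (a (a (l 16334384) (l 16278040)) (a (b (l 16291216) (l 16282816)) (l 16218688))) (a (a (l 16289520) (l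 16275872)) (a (l 16289984) (l 16318384)))) (a (b (a (l 16270968) (l 16282728)) (l 16289424)) (a (b (l 16306632) (l 16320800)) (b (l 16251080) (l 16354768))))))), by decide +kernel⟩

def k1_mm_202_a : ∃ t, chk3 f_mm_202_a t 6 8 1 = true :=
  ⟨(b (b (a (b (a (l 16355928) (l 16384744)) (a (l 16362712) (l 16379680))) (b (a (l 16355096) (a (l 16449384) (l 16431664))) (a (b (l 16411328) (l 16293552)) (b (a (l 16436064) (l 16438128)) (a (l 16430848) (l 16458960)))))) (b (a (a (b (l 16347840) (l 16330432)) (b (l 16337904) (l 16272392))) (a (b (l 16271072) (l 16399472)) (b (a (l 16435432) (l 16464120)) (a (l 16440648) (l 16470136))))) (a (b (a (l 16303696) (l 16359528)) (a (l 16325680) (l 16365352))) (a (a (l 16397160) (l 16402560)) (a (l 16429072) (l 345374990679)))))) (b (a (b (a (l 16336232) (c (l 16409704) (l 16345456))) (a (l 16247920) (a (l 16383936) (l 16407352)))) (a (b (a (l 16412056) (l 16437856)) (l 457580901463)) (b (a (l 16444424) (l 3)) (l 3)))) (a (a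 (b (l 16373160) (l 16374192)) (b (l 395840694679) (l 421610557799))) (l 3)))), by decide +kernel⟩

def k2_mm_202_a : ∃ t, chk3 f_mm_202_a t 7 8 1 = true :=
  ⟨(b (b (a (b (a (b (a (l 16504096) (l 16536368)) (a (l 16496800) (b (l 16529960) (l 16502904)))) (a (b (l 16528880) (b (l 16521280) (l 16519592))) (a (b (l 16597560) (l 16529232)) (b (l 16594664) (b (l 16611040) (l 16590704)))))) (a (a (b (l 16426232) (l 16469688)) (b (b (l 16523064) (l 16502488)) (l 16442920))) (a (a (b (l 16530960) (l 16554648)) (b (l 16551640) (l 16573536))) (b (a (l 16551680) (b (l 16613232) (l 16613120))) (a (l 16593816) (l 16593880)))))) (a (b (b (a (b (l 16602984) (a (l 16610528) (l 16608920))) (l 6)) (a (a (b (l 16588400) (l 16611792)) (b (b (l 16629808) (l 16631088)) (l 16611088))) (a (b (l 6) (b (l 16651488) (l 16652008))) (l 6)))) (b (a (b (a (l 16632976) (l 16632416)) (l 816748050023)) (l 3)) (l 3))) (b (l 6) (l 3)))) (a (a (b (a (b (l 16454584) (l 16499688)) (b (l 16507872)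 (l 16491224))) (a (l 593946291591) (l 3))) (a (b (b (l 709373683383) (l 3)) (l 3)) (l 3))) (l 3))) (l 3)), by decide +kernel⟩

def k3_mm_202_a : ∃ t, chk3 f_mm_202_a t 1 9 1 = true :=
  ⟨(a (a (b (b (a (b (a (l 16368448) (l 16306240)) (a (l 16330016) (l 16298304))) (a (l 16167672) (l 16291424))) (a (b (l 16254536) (l 16320296)) (c (l 16352968) (l 16288104)))) (a (b (l 16260944) (a (l 16369520) (l 16370856))) (b (a (l 16344208) (l 16358936)) (a (l 16381864) (l 16400016))))) (b (a (b (a (b (l 16295456) (l 16310032)) (b (l 16312760) (l 16331888))) (a (b (l 16327768) (l 16348904)) (l 16365400))) (b (a (b (l 16340928) (l 16363536)) (b (l 16377056) (l 16397912))) (a (l 231021271767) (l 355038531079)))) (a (b (a (l 16381512) (l 16363904)) (a (l 16419448) (l 3))) (l 3)))) (a (b (a (b (b (a (l 16394016) (l 3)) (l 3)) (l 3)) (l 3)) (l 3)) (l 3))), by decide +kernel⟩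

def k4_mm_202_a : ∃ t, chk3 f_mm_202_a t 1 5 1 = true :=
  ⟨(a (b (a (b (a (b (a (l 16400704) (l 16408080)) (a (l 16436248) (l 16444488))) (b (l 206325284919) (l 255717501111))) (a (b (l 16431544) (l 220821008519)) (l 3))) (l 3)) (a (b (a (b (l 263233870167) (l 3)) (l 3)) (l 3)) (l 3))) (l 3)), by decide +kernel⟩

def k5_mm_202_a : ∃ t, chk3 f_mm_202_a t 1 3 1 = true :=
  ⟨(l 3), by decide +kernel⟩

theorem s6_mm_202_a : ∃ t, chk3 f_mm_202_a t 3 8 1 = true := ex3_a k1_mm_202_a k2_mm_202_a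

theorem s7_mm_202_a : ∃ t, chk3 f_mm_202_a t 1 8 1 = true := ex3_a k0_mm_202_a s6_mm_202_a

theorem s8_mm_202_a : ∃ t, chk3 f_mm_202_a t 1 4 1 = true := ex3_b s7_mm_202_a k3_mm_202_a

theorem s9_mm_202_a : ∃ t, chk3 f_mm_202_a t 1 2 1 = true := ex3_b s8_mm_202_a k4_mm_202_a

theorem s10_mm_202_a : ∃ t, chk3 f_mm_202_a t 1 1 1 = true := ex3_b s9_mm_202_a k5_mm_202_a

theorem c_mm_202_a : CertB 0 536870912 1073741824 536870912 1020054732 13421774 3 eng mog cd2q2a cd5q2 pd0 false false false .pp 2 0 2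
    ndB2q2a ndB5q2 pcB0 cut_mm_202_a Ext.none :=
  certB1 (fam := false) (s1 := false) (s2 := false) (a := 2) (b := 0) (c := 2) (cn := .pp) (n1 := ndB2q2a) (n2 := ndB5q2) (pc := pcB0) (cut := cut_mm_202_a) (xt := Ext.none) (P1 := 0) (W1 := 536870912) (P2 := 1073741824) (W2 := 536870912) (P3 := 1020054732) (W3 := 13421774) (N0 := 3) (En := eng) (mo := mog) (C1 := cd2q2a) (C2 := cd5q2) (C3 := pd0)
    rfl (fun _ => rfl) s10_mm_202_a

noncomputable def cut_mm_202_b : Cut := Cut.of [[⟨0, 1, 0, 38347922⟩, ⟨1, 0, 0, 38347922⟩, ⟨2, 1, 0, 38347922⟩]]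

noncomputable def f_mm_202_b : ℕ → ℕ → ℕ → ℕ → Bool := onCell 1239849684 370763052 0 536870912 1020054732 13421774
    (rowB 3 eng mog cd2q2b cd5q2 pd0 1 false false false .pp 2 0 2 (qsf 1239849684 370763052 1073741824 536870912 0) ndB2q2b ndB5q2 pcB0 cut_mm_202_b Ext.none)

def k0_mm_202_b : ∃ t, chk3 f_mm_202_b t 2 2 1 = true :=
  ⟨(b (a (b (a (b (b (l 16370160) (b (l 16412656) (a (l 16496824) (b (l 16366096) (l 16371200))))) (b (b (a (l 16485568) (l 16354616)) (a (l 16449240) (l 16302704))) (a (b (l 16398544) (l 16360368)) (l 16112768)))) (b (b (l 16097952) (b (a (l 16224056) (l 16105472)) (a (b (l 16241528) (l 16245216)) (l 16105544)))) (b (b (a (l 16209792) (l 16068192)) (l 15878544)) (b (a (l 16118904) (l 15997848)) (a (l 16093080) (l 16009072)))))) (b (a (b (a (b (l 16328632) (l 16248944)) (b (l 16187784) (l 16186224))) (a (b (l 16260104) (l 16285184)) (l 16203384))) (b (a (l 16105232) (l 16034264)) (a (l 16136928) (l 16077640)))) (a (b (a (l 16307816)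 (l 16238584)) (a (l 16212992) (l 16273176))) (b (a (l 16176576) (l 16126904)) (a (l 16222840) (l 16177808)))))) (b (a (b (b (b (a (l 15952768) (l 15834832)) (a (l 15968400) (l 15861224))) (b (l 15903160) (b (l 15909328) (l 15849976)))) (b (b (a (l 15927760) (l 15820912)) (a (l 15906504) (l 15833016))) (b (a (l 15916448) (l 15860760)) (l 15916784)))) (b (b (b (a (l 15739312) (l 15648232)) (l 15698864)) (b (a (l 15738352) (l 15654224)) (a (l 15524592) (l 15679352)))) (b (l 15750072) (l 15810680)))) (b (a (b (a (l 15977312) (l 15931512)) (l 16008112)) (l 193975912775)) (a (a (l 15894848) (l 3)) (l 3))))) (a (b (b (a (b (a (l 16369464) (l 16314880)) (a (l 16406024) (l 16354432))) (a (a (l 16298728) (l 16275200)) (l 3))) (a (a (b (l 16440928) (l 16471808)) (b (l 16389584) (l 3))) (l 3))) (a (b (a (b (l 16500184) (l 3)) (l 3)) (l 3)) (l 3))) (l 3))), by decide +kernel⟩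

def k1_mm_202_b : ∃ t, chk3 f_mm_202_b t 3 2 1 = true :=
  ⟨(b (b (a (a (b (b (b (a (l 15560712) (l 15505920)) (a (l 15578088) (l 15534248))) (l 15605280)) (l 3)) (l 3)) (l 3)) (l 3)) (l 3)), by decide +kernel⟩

def k2_mm_202_b : ∃ t, chk3 f_mm_202_b t 1 3 1 = true :=
  ⟨(a (b (l 3) (l 2)) (l 2)), by decide +kernel⟩

theorem s3_mm_202_b : ∃ t, chk3 f_mm_202_b t 1 2 1 = true := ex3_a k0_mm_202_b k1_mm_202_b

theorem s4_mm_202_b : ∃ t, chk3 f_mm_202_b t 1 1 1 = true := ex3_b s3_mm_202_b k2_mm_202_b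

theorem c_mm_202_b : CertB 1239849684 370763052 1073741824 536870912 1020054732 13421774 3 eng mog cd2q2b cd5q2 pd0 false false false .pp 2 0 2
    ndB2q2b ndB5q2 pcB0 cut_mm_202_b Ext.none :=
  certB1 (fam := false) (s1 := false) (s2 := false) (a := 2) (b := 0) (c := 2) (cn := .pp) (n1 := ndB2q2b) (n2 := ndB5q2) (pc := pcB0) (cut := cut_mm_202_b) (xt := Ext.none) (P1 := 1239849684) (W1 := 370763052) (P2 := 1073741824) (W2 := 536870912) (P3 := 1020054732) (W3 := 13421774) (N0 := 3) (En := eng) (mo := mog) (C1 := cd2q2b) (C2 := cd5q2) (C3 := pd0)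
    rfl (fun _ => rfl) s4_mm_202_b

noncomputable def f_mm_203_a : ℕ → ℕ → ℕ → ℕ → Bool := onCell 0 536870912 0 1230186008 1020054732 13421774
    (rowB 3 eng mog cd2q2a cd5q3 pd0 0 false false false .up 2 0 3 (qsf 0 536870912 0 1230186008 0) ndB2q2a ndB5q3 pcB0 Cut.none Ext.none)

def k0_mm_203_a : ∃ t, chk3 f_mm_203_a t 1 1 1 = true :=
  ⟨(b (l 2) (l 3)), by decide +kernel⟩

theorem c_mm_203_a : CertB 0 536870912 0 1230186008 1020054732 13421774 3 eng mog cd2q2a cd5q3 pd0 false false false .up 2 0 3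
    ndB2q2a ndB5q3 pcB0 Cut.none Ext.none :=
  certB0 (fam := false) (s1 := false) (s2 := false) (a := 2) (b := 0) (c := 3) (cn := .up) (n1 := ndB2q2a) (n2 := ndB5q3) (pc := pcB0) (cut := Cut.none) (xt := Ext.none) (P1 := 0) (W1 := 536870912) (P2 := 0) (W2 := 1230186008) (P3 := 1020054732) (W3 := 13421774) (N0 := 3) (En := eng) (mo := mog) (C1 := cd2q2a) (C2 := cd5q3) (C3 := pd0)
    rfl k0_mm_203_a

noncomputable def f_mm_203_b : ℕ → ℕ → ℕ → ℕ → Bool := onCell 1239849684 370763052 0 1230186008 1020054732 13421774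
    (rowB 3 eng mog cd2q2b cd5q3 pd0 0 false false false .up 2 0 3 (qsf 1239849684 370763052 0 1230186008 0) ndB2q2b ndB5q3 pcB0 Cut.none Ext.none)

def k0_mm_203_b : ∃ t, chk3 f_mm_203_b t 1 1 1 = true :=
  ⟨(b (l 3) (b (l 3) (l 3))), by decide +kernel⟩

theorem c_mm_203_b : CertB 1239849684 370763052 0 1230186008 1020054732 13421774 3 eng mog cd2q2b cd5q3 pd0 false false false .up 2 0 3
    ndB2q2b ndB5q3 pcB0 Cut.none Ext.none :=
  certB0 (fam := false) (s1 := false) (s2 := false) (a := 2) (b := 0) (c := 3) (cn := .up) (n1 := ndB2q2b) (n2 := ndB5q3) (pc := pcB0) (cut := Cut.none) (xt := Ext.none) (P1 := 1239849684) (W1 := 370763052) (P2 := 0) (W2 := 1230186008) (P3 := 1020054732) (W3 := 13421774) (N0 := 3) (En := eng) (mo := mog) (C1 := cd2q2b) (C2 := cd5q3) (C3 := pd0)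
    rfl k0_mm_203_b

noncomputable def f_mm_213_a : ℕ → ℕ → ℕ → ℕ → Bool := onCell 0 536870912 0 1230186008 1020054732 13421774
    (rowB 3 eng mog cd2q2a cd5q3 pd1 0 false false false .pnn 2 1 3 (qsf 0 536870912 0 1230186008 1) ndB2q2a ndB5q3 pcB1 Cut.none Ext.none)

def k0_mm_213_a : ∃ t, chk3 f_mm_213_a t 1 1 1 = true :=
  ⟨(b (a (l 3) (l 5)) (l 3)), by decide +kernel⟩

theorem c_mm_213_a : CertB 0 536870912 0 1230186008 1020054732 13421774 3 eng mog cd2q2a cd5q3 pd1 false false false .pnn 2 1 3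
    ndB2q2a ndB5q3 pcB1 Cut.none Ext.none :=
  certB0 (fam := false) (s1 := false) (s2 := false) (a := 2) (b := 1) (c := 3) (cn := .pnn) (n1 := ndB2q2a) (n2 := ndB5q3) (pc := pcB1) (cut := Cut.none) (xt := Ext.none) (P1 := 0) (W1 := 536870912) (P2 := 0) (W2 := 1230186008) (P3 := 1020054732) (W3 := 13421774) (N0 := 3) (En := eng) (mo := mog) (C1 := cd2q2a) (C2 := cd5q3) (C3 := pd1)
    rfl k0_mm_213_a

noncomputable def f_mm_213_b : ℕ → ℕ → ℕ → ℕ → Bool := onCell 1239849684 370763052 0 1230186008 1020054732 13421774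
    (rowB 3 eng mog cd2q2b cd5q3 pd1 0 false false false .pnn 2 1 3 (qsf 1239849684 370763052 0 1230186008 1) ndB2q2b ndB5q3 pcB1 Cut.none Ext.none)

def k0_mm_213_b : ∃ t, chk3 f_mm_213_b t 1 1 1 = true :=
  ⟨(b (l 3) (b (l 3) (l 3))), by decide +kernel⟩

theorem c_mm_213_b : CertB 1239849684 370763052 0 1230186008 1020054732 13421774 3 eng mog cd2q2b cd5q3 pd1 false false false .pnn 2 1 3
    ndB2q2b ndB5q3 pcB1 Cut.none Ext.none :=
  certB0 (fam := false) (s1 := false) (s2 := false) (a := 2) (b := 1) (c := 3) (cn := .pnn) (n1 := ndB2q2b) (n2 := ndB5q3) (pc := pcB1) (cut := Cut.none) (xt := Ext.none) (P1 := 1239849684) (W1 := 370763052) (P2 := 0) (W2 := 1230186008) (P3 := 1020054732) (W3 := 13421774) (N0 := 3) (En := eng) (mo := mog) (C1 := cd2q2b) (C2 := cd5q3) (C3 := pd1)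
    rfl k0_mm_213_b

noncomputable def f_mm_303 : ℕ → ℕ → ℕ → ℕ → Bool := onCell 0 536870912 0 1230186008 1020054732 13421774
    (rowB 3 eng mog cd2q3 cd5q3 pd0 2 false false false .npn 3 0 3 (qsf 1610612736 536870912 0 1230186008 0) ndB2q3 ndB5q3 pcB0 Cut.none Ext.none)

def k0_mm_303 : ∃ t, chk3 f_mm_303 t 1 1 1 = true :=
  ⟨(b (l 3) (b (l 3) (l 3))), by decide +kernel⟩

theorem c_mm_303 : CertB 1610612736 536870912 0 1230186008 1020054732 13421774 3 eng mog cd2q3 cd5q3 pd0 false false false .npn 3 0 3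
    ndB2q3 ndB5q3 pcB0 Cut.none Ext.none :=
  certB2 (fam := false) (s1 := false) (s2 := false) (a := 3) (b := 0) (c := 3) (cn := .npn) (n1 := ndB2q3) (n2 := ndB5q3) (pc := pcB0) (cut := Cut.none) (xt := Ext.none) (P1 := 1610612736) (W1 := 536870912) (P2 := 0) (W2 := 1230186008) (P3 := 1020054732) (W3 := 13421774) (N0 := 3) (En := eng) (mo := mog) (C1 := cd2q3) (C2 := cd5q3) (C3 := pd0)
    rfl (fun _ => rfl) k0_mm_303

noncomputable def f_mm_313 : ℕ → ℕ → ℕ → ℕ → Bool := onCell 1610612736 536870912 0 1230186008 1020054732 13421774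
    (rowB 3 eng mog cd2q3 cd5q3 pd1 0 false false false .dn 3 1 3 (qsf 1610612736 536870912 0 1230186008 1) ndB2q3 ndB5q3 pcB1 Cut.none Ext.none)

def k0_mm_313 : ∃ t, chk3 f_mm_313 t 1 1 1 = true :=
  ⟨(b (l 3) (l 1)), by decide +kernel⟩

theorem c_mm_313 : CertB 1610612736 536870912 0 1230186008 1020054732 13421774 3 eng mog cd2q3 cd5q3 pd1 false false false .dn 3 1 3
    ndB2q3 ndB5q3 pcB1 Cut.none Ext.none :=
  certB0 (fam := false) (s1 := false) (s2 := false) (a := 3) (b := 1) (c := 3) (cn := .dn) (n1 := ndB2q3) (n2 := ndB5q3) (pc := pcB1) (cut := Cut.none) (xt := Ext.none) (P1 := 1610612736) (W1 := 536870912) (P2 := 0) (W2 := 1230186008) (P3 := 1020054732) (W3 := 13421774) (N0 := 3) (En := eng) (mo := mog) (C1 := cd2q3) (C2 := cd5q3) (C3 := pd1)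
    rfl k0_mm_313

end Pool.Agent.Strip051.G.I9500_9625.Tab.C.BB25

namespace Pool.Agent.Strip051.G.I9500_9625.Tab.C.BB30

open Pool.Agent.Strip051.PB Pool.Agent.Strip051.PB.T
open Pool.Agent.Strip051.G.I9500_9625.Tab

noncomputable def f_pp_001 : ℕ → ℕ → ℕ → ℕ → Bool := onCell 0 536870912 536870912 536870912 1020054732 13421774
    (rowB 3 eng mog cd3q0 cd0q1 pd0 2 false true true .up 0 0 1 (qsf 0 536870912 536870912 536870912 0) ndB3q0 ndB0q1 pcB0 Cut.none Ext.none)

def k0_pp_001 : ∃ t, chk3 f_pp_001 t 1 1 1 = true :=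
  ⟨(b (l 3) (b (l 3) (a (l 2) (b (l 3) (a (l 2) (b (l 3) (a (l 2) (b (l 3) (a (l 2) (b (l 3) (a (l 2) (b (b (a (a (l 2) (c (l 322287075591) (l 331951149207))) (a (c (l 324971422871) (l 334635495447)) (c (a (l 326582054935) (l 327655795047)) (l 337319842455)))) (c (l 15144072) (l 15348216))) (c (l 15131280) (l 15337008)))))))))))))), by decide +kernel⟩

theorem c_pp_001 : CertB 0 536870912 536870912 536870912 1020054732 13421774 3 eng mog cd3q0 cd0q1 pd0 false true true .up 0 0 1
    ndB3q0 ndB0q1 pcB0 Cut.none Ext.none :=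
  certB2 (fam := false) (s1 := true) (s2 := true) (a := 0) (b := 0) (c := 1) (cn := .up) (n1 := ndB3q0) (n2 := ndB0q1) (pc := pcB0) (cut := Cut.none) (xt := Ext.none) (P1 := 0) (W1 := 536870912) (P2 := 536870912) (W2 := 536870912) (P3 := 1020054732) (W3 := 13421774) (N0 := 3) (En := eng) (mo := mog) (C1 := cd3q0) (C2 := cd0q1) (C3 := pd0)
    rfl (fun _ => rfl) k0_pp_001

noncomputable def xt_pp_011 : Ext := extD3 3 ⟨4, 1, 1, 5, 99, 20, 33, 40, 51, 125, 1, 32⟩ eng cd3q0 cd0q1 pd1 false true true .pnn 0 1 1 rfl ndB3q0 ndB0q1 pcB1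

noncomputable def f_pp_011 : ℕ → ℕ → ℕ → ℕ → Bool := onCell 536870912 536870912 536870912 536870912 1020054732 13421774
    (rowB 3 eng mog cd3q0 cd0q1 pd1 2 false true true .pnn 0 1 1 (qsf 0 536870912 536870912 536870912 1) ndB3q0 ndB0q1 pcB1 Cut.none xt_pp_011)

def k0_pp_011 : ∃ t, chk3 f_pp_011 t 2 2 1 = true :=
  ⟨(a (l 3) (b (a (b (l 1) (l 3)) (l 1)) (l 3))), by decide +kernel⟩

def k1_pp_011 : ∃ t, chk3 f_pp_011 t 2 6 1 = true :=
  ⟨(l 3), by decide +kernel⟩

def k2_pp_011 : ∃ t, chk3 f_pp_011 t 2 14 1 = true :=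
  ⟨(l 3), by decide +kernel⟩

def k3_pp_011 : ∃ t, chk3 f_pp_011 t 2 30 1 = true :=
  ⟨(l 3), by decide +kernel⟩

def k4_pp_011 : ∃ t, chk3 f_pp_011 t 8 62 1 = true :=
  ⟨(l 3), by decide +kernel⟩

def k5_pp_011 : ∃ t, chk3 f_pp_011 t 8 126 1 = true :=
  ⟨(b (l 3) (b (l 3) (b (a (l 3) (l 3)) (a (b (l 3) (a (a (l 3) (a (a (l 3) (c (l 235850881895) (l 235851221351))) (c (c (l 248735688871) (l 15228768)) (c (l 15307464) (l 15387400))))) (c (a (c (a (l 261620593463) (l 273968627191)) (a (l 15228360) (l 15228360))) (c (a (l 287390404247) (l 300275311559)) (a (l 15228760) (l 15229560)))) (a (a (c (l 15306680) (l 15386232)) (c (l 15306272) (l 15385424))) (a (c (l 15306256) (l 15384968)) (c (l 15306608) (l 15384880))))))) (c (a (a (b (l 3) (c (a (l 15155368) (l 15157432)) (a (l 15230752) (l 15232336)))) (c (a (l 284706076903) (l 291148536679)) (a (l 283632521031) (l 290611850439)))) (a (c (a (l 298127868455) (l 304570330407)) (a (l 297054309831) (l 303496770119)))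 (c (a (l 311012792455) (l 15177704)) (a (l 15246040) (l 15249800))))) (c (a (a (a (l 269674050727) (l 276116506151)) (a (l 282558962631) (l 289001419831))) (a (a (l 295443878391) (l 15337944)) (a (l 15319840) (l 15323048)))) (a (a (a (l 268600492487) (l 274506075927)) (a (l 280948531447) (l 286854116423))) (a (a (l 293296572999) (l 299202159655)) (a (l 15415776) (l 15397464)))))))))), by decide +kernel⟩

def k6_pp_011 : ∃ t, chk3 f_pp_011 t 16 127 1 = true :=
  ⟨(a (b (b (c (c (a (a (c (l 15118192) (l 15177016)) (c (l 15138104) (l 15175752))) (b (a (l 15153728) (l 15153456)) (l 15158296))) (a (b (a (l 15222496) (l 15231464)) (l 15234904)) (b (a (l 15230360) (l 15229648)) (l 15232416)))) (c (a (b (a (l 15311688) (l 15309760)) (l 15311064)) (c (l 15288424) (l 15326960))) (a (c (l 348594207799) (b (l 15410544) (l 15407952))) (c (l 15365800) (b (l 15406352) (l 15403552)))))) (c (a (l 15161296) (c (l 15165504) (l 15236184))) (a (l 15327488) (l 15323376)))) (b (c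 (a (l 15211336) (l 15208184)) (l 15323640)) (a (l 15282176) (l 15277776)))) (b (b (c (a (c (b (a (l 15153584) (l 15154104)) (l 15158208)) (c (l 15211672) (l 15249160))) (c (c (l 15139440) (l 15175872)) (a (l 15230760) (l 15231480)))) (c (a (c (l 15286944) (l 15325024)) (a (l 15305624) (l 15305872))) (a (c (l 15363408) (l 15402096)) (c (l 15362464) (l 15400664))))) (c (a (c (l 15164904) (l 15234768)) (c (l 15165816) (l 15234840))) (a (l 15320728) (l 15319512)))) (b (c (a (l 15206528) (l 15206360)) (l 15317360)) (a (l 15274824) (l 15273304))))), by decide +kernel⟩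

def k7_pp_011 : ∃ t, chk3 f_pp_011 t 17 127 1 = true :=
  ⟨(a (c (b (c (a (b (a (l 15159832) (l 15161768)) (l 15168224)) (b (a (l 15164080) (l 15166752)) (l 15172096))) (a (b (a (l 15232568) (l 15234016)) (l 15236368)) (b (b (l 15236288) (l 15237472)) (l 15239328)))) (c (l 15181000) (l 15242192))) (b (a (b (a (c (l 15306472) (l 15381552)) (c (l 15307432) (l 15382008))) (l 15319696)) (b (b (a (l 15330896) (l 15327120)) (l 15324288)) (l 15321264))) (a (l 15314696) (l 15315464)))) (c (b (c (a (c (l 15157488) (l 15191400)) (b (l 15168456) (l 15184120))) (a (c (l 15225592) (l 15260056)) (b (l 15248352) (l 15249432)))) (c (l 15189320) (l 15248880))) (b (a (b (b (a (l 15328928) (l 15331072)) (l 15327624)) (l 15324184)) (b (a (l 15340144) (l 15335016)) (l 15328432))) (l 15319112)))), by decide +kernel⟩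

def k8_pp_011 : ∃ t, chk3 f_pp_011 t 9 31 1 = true :=
  ⟨(b (l 3) (a (b (b (l 3) (b (l 3) (a (b (l 3) (a (c (c (a (l 15182360) (l 15187376)) (a (l 15253904) (l 15258360))) (a (b (l 291685827623) (l 15341656)) (b (l 304570736743) (l 15345224)))) (c (c (a (l 15192752) (l 15198488)) (l 335709091415)) (a (c (l 15334696) (l 15407376)) (l 341614846407))))) (c (b (a (a (l 990154671943) (l 303496792039)) (c (l 15222456) (l 15312232))) (a (c (l 15207744) (l 15276648)) (c (l 15221256) (l 15288904)))) (a (b (a (l 821577460055) (l 225650758311)) (a (l 15363960) (l 15363576))) (a (a (l 290075273367) (l 291685891799)) (l 293296519111))))))) (a (c (b (b (a (c (l 15187832) (l 15256152)) (c (l 15198088) (l 15265280))) (a (l 15224240) (l 15233168))) (c (l 15203128) (l 15260928))) (b (a (b (a (l 15338080) (l 15341464)) (l 15333984)) (b (b (l 15359232) (l 15345536)) (l 15340800))) (l 15328464))) (c (b (c (a (l 15211040) (l 15223512)) (a (l 15296120) (l 15286480))) (c (l 15222200)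 (l 15278120))) (b (b (a (b (l 15357560) (l 15354048)) (l 15365680)) (l 15374320)) (l 15363760))))) (b (b (l 3) (b (l 3) (c (c (a (a (b (l 15237192) (l 15236048)) (l 300812463351)) (a (l 15269992) (l 15288496))) (a (a (l 294370133287) (l 298665139959)) (a (l 15334392) (l 15351536)))) (a (a (a (l 295980885975) (l 298665253111)) (b (l 260010579735) (l 15395688))) (a (b (l 271284897751) (l 15409520)) (l 310476509415)))))) (c (a (b (a (c (l 15237256) (l 15299040)) (c (l 15252232) (l 15312808))) (c (l 15246320) (l 15300232))) (a (b (a (l 15293968) (l 15302040)) (l 15293640)) (c (l 15284408) (l 15360040)))) (a (b (a (b (l 15376752) (l 15389560)) (l 15405544)) (l 15382824)) (b (a (l 15418592) (l 15432736)) (l 15406400))))))), by decide +kernel⟩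

def k9_pp_011 : ∃ t, chk3 f_pp_011 t 5 62 1 = true :=
  ⟨(l 3), by decide +kernel⟩

def k10_pp_011 : ∃ t, chk3 f_pp_011 t 10 63 1 = true :=
  ⟨(b (b (l 3) (a (c (a (a (c (l 259473558247) (l 257863094887)) (l 272895337879)) (a (l 295443962967) (l 300812720647))) (a (b (l 3) (a (l 15469400) (l 15481336))) (c (l 299202255719) (b (l 242294082935) (l 15518024))))) (c (a (a (a (l 302960222279) (l 302960247975)) (a (l 303497145367) (l 304034043239))) (a (b (l 251957622039) (l 15453784)) (b (l 255715776455) (l 15479672)))) (a (c (b (l 251420838231) (l 15499848)) (b (l 249810366647) (l 15556496))) (a (b (l 247662929559) (l 15581360)) (c (l 307792382583) (l 305108164151))))))) (a (c (a (b (b (l 15323088) (l 15318672)) (l 15312432)) (a (l 15344896) (l 15365056))) (a (c (l 15396832) (l 15472440)) (a (l 15490480) (l 15508024)))) (c (a (a (l 15386184) (l 15408256)) (a (l 15431224) (l 15455056))) (a (c (l 15469536) (l 15539832)) (c (l 15532288) (l 15599752)))))), by decide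 +kernel⟩

def k11_pp_011 : ∃ t, chk3 f_pp_011 t 11 63 1 = true :=
  ⟨(b (b (l 3) (a (a (a (c (b (l 259473932215) (l 15506352)) (c (l 307255567399) (l 304571344551))) (c (b (l 262695219271) (l 15533784)) (b (c (l 15621072) (l 267527300775)) (l 15666848)))) (a (c (b (l 265379636519) (l 15561904)) (b (c (l 272359071607) (l 270211710055)) (l 15691432))) (c (b (l 267527184967) (l 15590656)) (b (c (l 275043486647) (l 272359249799)) (l 15721816))))) (c (a (a (b (l 269137863639) (l 15619976)) (b (l 270748543767) (l 15670744))) (a (a (l 297055247559) (l 295981540151)) (b (l 270748682551) (l 15731424)))) (c (a (a (l 302960837463) (l 300813417175)) (a (l 297592256023) (l 293297354183))) (b (a (a (l 273969920151) (l 274506849687)) (a (l 274506909367) (l 272896357367))) (a (a (l 15748264) (l 15773320)) (a (l 15798648) (l 15824104)))))))) (a (a (c (a (l 15500680) (l 15526096)) (c (l 15577248) (l 15647024))) (c (a (l 15552240) (l 15579048)) (b (c (l 15640944) (l 15683752))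 (l 15628328)))) (c (a (a (l 15606480) (l 15634456)) (a (l 15662904) (l 15691752))) (c (a (l 15675224) (l 15727264)) (b (a (l 15731704) (l 15781224)) (l 15717264)))))), by decide +kernel⟩

def k12_pp_011 : ∃ t, chk3 f_pp_011 t 3 2 1 = true :=
  ⟨(a (b (l 1) (a (b (l 1) (l 3)) (l 1))) (l 1)), by decide +kernel⟩

def k13_pp_011 : ∃ t, chk3 f_pp_011 t 6 6 1 = true :=
  ⟨(l 3), by decide +kernel⟩

def k14_pp_011 : ∃ t, chk3 f_pp_011 t 6 14 1 = true :=
  ⟨(l 3), by decide +kernel⟩

def k15_pp_011 : ∃ t, chk3 f_pp_011 t 6 30 1 = true :=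
  ⟨(l 3), by decide +kernel⟩

def k16_pp_011 : ∃ t, chk3 f_pp_011 t 6 62 1 = true :=
  ⟨(l 3), by decide +kernel⟩

def k17_pp_011 : ∃ t, chk3 f_pp_011 t 12 126 1 = true :=
  ⟨(a (b (l 3) (c (a (a (b (l 269675011527) (l 15762048)) (b (l 267527600215) (l 15792640))) (a (b (l 263232706007) (l 15822920)) (b (l 256253458119) (l 15852520)))) (c (a (a (l 287928711495) (l 280949457031)) (a (l 271822719623) (l 262695883415))) (b (a (a (l 269675193575) (l 263232805559)) (a (l 317993520471) (l 15919824))) (a (a (l 15849512) (l 15874600)) (l 15879208)))))) (a (b (l 3) (a (c (a (l 324435855063) (l 15896000)) (c (l 15905888) (l 328730973527))) (c (b (l 15880320) (l 15906608)) (c (l 15876896) (b (l 320677841399) (l 15926048)))))) (b (l 3) (c (a (b (l 15842352) (l 15927640)) (a (l 15822848) (l 15806328))) (a (c (l 322288410887) (a (l 15829464) (l 324972734663))) (b (c (l 15822280) (a (l 15851056) (l 15834672))) (l 15826776))))))), by decide +kernel⟩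

def k18_pp_011 : ∃ t, chk3 f_pp_011 t 13 252 1 = true :=
  ⟨(b (l 3) (a (b (l 3) (b (l 3) (a (a (a (l 3) (c (l 15845112) (a (l 273969962231) (l 277191171223)))) (c (c (l 15831728) (l 293297345943)) (c (a (l 15800672) (l 15785960)) (a (l 283633586871) (l 289539137207))))) (c (a (a (l 299202891543) (l 303497830167)) (c (l 311014019367) (a (l 15766696) (l 15754992)))) (a (c (a (l 15771808) (l 301887159255)) (a (c (l 15755128) (l 295444683255)) (c (l 15741368) (l 300276494023)))) (c (a (l 306182100743) (l 309403301815)) (a (c (l 305108330839) (l 304571434999)) (c (l 308866401847) (l 308329505943))))))))) (b (l 3) (c (a (b (l 3) (a (a (c (l 15764984) (l 15744136)) (c (l 15755808) (l 316382627399))) (a (c (l 15747736) (l 318530093159)) (c (l 321214481879) (a (l 15719240) (l 15715600)))))) (c (c (a (a (l 307255845239) (l 307792709223)) (a (a (l 307792704615) (l 308329588919)) (a (l 308329588455) (l 307792718007)))) (a (a (l 306182077623) (l 306718940615)) (a (a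 (l 307255817479) (l 307255819767)) (a (l 307255818487) (l 307255818087))))) (c (a (a (l 305645180967) (l 306182042359)) (a (a (l 307255806455) (l 307255804391)) (a (l 307255804279) (l 307255803063)))) (a (a (l 304571412439) (l 305645150663)) (a (a (l 306718910711) (l 306718906791)) (a (l 306718904615) (l 306182031671))))))) (c (a (a (a (a (l 297055249175) (l 298128979623)) (a (l 299202711159) (l 299739571223))) (a (a (l 300276432391) (l 301350164967)) (a (l 301887026455) (l 302423889127)))) (c (a (a (l 304034514231) (l 305645154391)) (a (a (l 305645140759) (l 305645137127)) (a (l 305645133559) (l 305645130743)))) (a (a (l 303497632423) (l 305108256487)) (a (l 305108244535) (l 305108235015))))) (a (b (l 3) (a (a (c (l 312087603975) (l 312624473927)) (c (l 315308812711) (l 315308804583))) (a (c (l 317993162231) (l 317456265543)) (a (l 318529986103) (l 15664216))))) (c (a (a (l 302960733639) (l 304034486951)) (a (l 304034474039) (l 304034463655))) (a (a (l 302960733335)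 (l 303497587527)) (a (l 303497573783) (l 303497561927)))))))))), by decide +kernel⟩

def k19_pp_011 : ∃ t, chk3 f_pp_011 t 13 253 1 = true :=
  ⟨(a (a (c (c (a (l 15811464) (l 15844552)) (b (a (l 15851320) (l 15821184)) (l 15807136))) (b (a (a (c (l 15839944) (l 15818648)) (c (l 15824296) (l 15802992))) (a (c (l 15809112) (l 15787760)) (c (l 15794432) (l 15751992)))) (a (l 15836704) (l 15806336)))) (b (a (c (c (l 15811552) (b (l 15790272) (l 15796592))) (c (a (l 15780304) (l 15766760)) (b (a (l 15754832) (l 15741040)) (l 15755576)))) (c (b (a (l 15781024) (l 15769560)) (l 15781096)) (c (a (l 15753848) (l 15741632)) (b (a (l 15727816) (l 15715208)) (l 15729136))))) (a (c (l 15815056) (l 15777896)) (c (l 15790280) (l 15751712))))) (a (c (a (a (c (l 15777184) (l 15757944)) (c (l 15767800) (l 15747864))) (b (a (a (l 15745624) (l 15741584)) (a (l 15737824) (l 15734368))) (l 15751192))) (a (b (a (c (l 15730160) (l 15707080)) (c (l 15719496) (l 15695848))) (l 15728184))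 (b (a (c (l 15709712) (l 15685392)) (c (l 15700880) (l 15675784))) (l 15707768)))) (c (a (b (a (a (l 15731224) (l 15728400)) (a (l 15725912) (l 15723784))) (l 15738144)) (b (a (a (l 15722024) (l 15720656)) (a (l 15719696) (l 15719152))) (l 15730512))) (a (b (a (a (l 15682208) (l 15678344)) (a (l 15674752) (l 15671440))) (l 15691040)) (a (c (l 15687560) (l 15660344)) (c (l 15683368) (l 15654880))))))), by decide +kernel⟩

def k20_pp_011 : ∃ t, chk3 f_pp_011 t 6 127 1 = true :=
  ⟨(a (c (c (a (a (l 15720792) (l 15781120)) (a (l 15819040) (l 15893032))) (a (a (l 15750376) (l 15807144)) (a (l 15862048) (l 15909864)))) (c (a (a (l 15801408) (l 15770624)) (a (l 15884256) (l 15884304))) (a (b (a (l 15831400) (l 15880616)) (l 15752296)) (a (l 15885576) (l 15812280))))) (a (a (a (c (l 15906840) (l 15772824)) (c (l 15855912) (l 15742680))) (a (c (l 15765264) (l 15735304)) (c (l 15844984) (l 15730048)))) (a (a (c (l 15801920) (l 15769216)) (c (l 15783392) (l 15748392)))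 (a (c (l 15769080) (l 15731016)) (c (l 15759760) (l 15717728)))))), by decide +kernel⟩

def k21_pp_011 : ∃ t, chk3 f_pp_011 t 7 6 1 = true :=
  ⟨(a (b (l 1) (l 3)) (l 1)), by decide +kernel⟩

def k22_pp_011 : ∃ t, chk3 f_pp_011 t 7 14 1 = true :=
  ⟨(l 3), by decide +kernel⟩

def k23_pp_011 : ∃ t, chk3 f_pp_011 t 7 30 1 = true :=
  ⟨(l 3), by decide +kernel⟩

def k24_pp_011 : ∃ t, chk3 f_pp_011 t 14 62 1 = true :=
  ⟨(l 3), by decide +kernel⟩

def k25_pp_011 : ∃ t, chk3 f_pp_011 t 14 252 1 = true :=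
  ⟨(b (l 3) (a (c (b (a (l 3) (l 3)) (c (a (c (a (b (a (a (l 299202782967) (l 299739656391)) (a (l 300276530903) (l 300813406551))) (a (l 15736064) (l 15739552))) (b (a (a (l 301887154311) (l 301887161495)) (a (l 301887184407) (l 301887193975))) (a (l 15745360) (l 15753728)))) (a (a (a (l 307255818615) (l 306718949223)) (a (l 306718951767) (l 306182084455))) (a (a (l 305645232711) (l 305108367735)) (a (l 304571504023) (l 303497770711))))) (a (c (a (a (l 303497819767) (l 302424090119)) (l 300813494647)) (a (l 302424041031) (l 299739710743))) (a (l 297592306231) (l 15806376)))) (a (c (a (a (a (l 306718931799) (l 306718932391)) (a (l 306182063031) (l 305645195367))) (a (a (l 305108327463) (l 304571461335)) (l 303497728311))) (a (b (a (l 297592096487) (l 298665838471)) (a (l 15690240) (l 15690824))) (a (l 304034553351) (l 302423949607)))) (a (a (a (l 301887130503) (l 300813398551)) (l 299202800615)) (a (l 15738992) (l 15756472)))))) (b (a (l 3) (l 3)) (a (a (c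 (c (a (l 305108260247) (l 304571387911)) (a (l 304571358167) (l 304034483575))) (a (a (l 304034454647) (l 303497581175)) (b (l 295981388119) (l 15632024)))) (a (c (a (l 303497647895) (l 302960779063)) (l 301886968631)) (c (b (l 298665818055) (l 15670032)) (l 300276357527)))) (a (a (c (l 299739572759) (l 15633504)) (c (l 15681984) (l 15638760))) (a (c (l 15692760) (l 15646560)) (l 15681960)))))) (a (c (a (b (l 3) (a (c (l 15831976) (l 15778000)) (l 288465662455))) (a (b (l 3) (l 15867288)) (l 298666372503))) (a (c (l 294370971751) (l 292223382039)) (c (l 291149844247) (l 286854753239)))) (a (a (c (l 297592732487) (l 286318145607)) (c (l 296519111575) (l 15847992))) (a (c (l 5796175531283598198841496127) (a (l 289539582727) (l 318530745591))) (c (l 6289420233882780512797938239) (l 6308753351503221587555914303))))))), by decide +kernel⟩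

def k26_pp_011 : ∃ t, chk3 f_pp_011 t 14 253 1 = true :=
  ⟨(a (a (c (a (b (a (a (l 15719056) (l 15719432)) (a (l 15720296) (l 15721680))) (l 15729368)) (c (a (l 15745112) (l 15752168)) (a (l 15712952) (l 15717744)))) (a (a (c (l 15680640) (l 15650728)) (c (l 15679536) (l 15648016))) (b (c (a (l 15674216) (l 15677072)) (l 15639968)) (l 15670824)))) (a (c (a (c (l 15761920) (l 15724976)) (a (l 15751712) (l 15758152))) (b (a (l 15662800) (l 15669064)) (l 15677888))) (a (b (c (l 15766440) (l 15677976)) (l 15730968)) (c (l 15787568) (l 15695240))))) (a (c (a (a (l 15809856) (l 15836808)) (b (l 15887240) (l 15887768))) (a (b (l 15714176) (l 15723920)) (l 15765336))) (a (c (b (l 15980808) (l 15977512)) (l 15833568)) (a (c (l 573393540655604519690815) (b (l 15902792) (l 15905112))) (c (l 579690222328569820373567) (l 566716971025401479750207)))))), by decide +kernel⟩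

def k27_pp_011 : ∃ t, chk3 f_pp_011 t 14 127 1 = true :=
  ⟨(a (a (a (c (l 15756424) (l 15709328)) (a (l 15774984) (l 15735208))) (c (b (l 15796440) (l 15791888)) (b (l 15703744) (l 15731576)))) (a (c (a (l 15833912) (l 15888968)) (l 15851648)) (a (b (l 15928000) (l 15908560)) (b (a (l 15980944) (l 570583006128556501901887)) (l 15999776))))), by decide +kernel⟩

def k28_pp_011 : ∃ t, chk3 f_pp_011 t 15 62 1 = true :=
  ⟨(l 3), by decide +kernel⟩

def k29_pp_011 : ∃ t, chk3 f_pp_011 t 15 504 1 = true :=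
  ⟨(a (l 3) (l 3)), by decide +kernel⟩

def k30_pp_011 : ∃ t, chk3 f_pp_011 t 30 505 1 = true :=
  ⟨(a (c (a (a (b (l 6569894332341631950887490111) (l 581955576194412990829119)) (b (l 6531212386092805407480898111) (l 585566089261489156022847))) (a (b (l 6347455160567785442158813759) (l 589883781870605270770239)) (b (l 6685359782611492009507487807) (l 142660087216848959)))) (a (a (l 6366784217456260609715589695) (b (l 6695615060319245422471995967) (l 574353348477723676402239))) (a (b (l 6550547289875453869180019263) (l 577618999930693030044223)) (b (l 6569302903927690256579723327) (l 139541390622064703))))) (b (b (l 3) (a (a (c (b (l 3) (a (l 143255404065685567) (l 6424231805575245511034044479))) (a (l 141207769591660607) (l 6695031189168449106319802431))) (c (l 6743388221953822760651964543) (l 6704702595725682799082897471))) (a (c (l 6820759474409337973410627711) (l 6859445100636610420209319999)) (c (l 6840102287523333805911802111) (b (l 7555786372734932249945161855)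 (l 143407892643430527)))))) (a (a (c (a (l 143114735279374399) (l 142952076280545343)) (l 142179875252305983)) (a (c (b (l 143166412348915839) (l 143250799847719039)) (l 142437917116104767)) (c (l 143562992467820671) (l 143123943682883647)))) (a (c (l 143483484076490879) (l 143105045874835519)) (c (l 143600375919624447) (l 143302957987315839)))))), by decide +kernel⟩

def k31_pp_011 : ∃ t, chk3 f_pp_011 t 62 505 1 = true :=
  ⟨(b (b (l 3) (a (a (c (b (l 7546114966178404924792357119) (l 143834228378435839)) (c (l 6859445100637158320739336447) (l 6859445100637042734562787583))) (c (l 6869116507194425754817741055) (c (l 6878787913751276611348267263) (l 6878787913751180885103706367)))) (a (c (c (l 6762731035068270836262486143) (l 6830430880966761881888030847)) (b (l 7613814812077075465786081407) (l 144127866781794431))) (c (b (a (c (l 737828441063) (l 373829948903)) (c (l 517711338247) (l 530596246055))) (c (l 143884943477932159) (l 143961222060949631))) (b (c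 (l 7565457779292287095352344703) (l 7643433080758644745563252351)) (c (l 144014479700312191) (l 144067118812299391))))))) (a (a (c (l 143741113462309119) (l 143422804815184127)) (c (l 143973385344860415) (l 143781726699127039))) (c (a (l 143894907750400127) (l 143865220940103807)) (a (l 143855806348443775) (l 143931603940212863))))), by decide +kernel⟩

def k32_pp_011 : ∃ t, chk3 f_pp_011 t 63 505 1 = true :=
  ⟨(a (a (b (b (l 3) (b (b (l 3) (b (l 3) (a (a (c (c (l 16781776) (l 16773816)) (c (l 16776384) (l 16778984))) (c (a (c (l 16776320) (l 16778616)) (c (l 16772680) (l 16774816))) (a (c (l 16780944) (l 16783304)) (c (l 16776992) (l 16773952))))) (a (a (c (c (c (l 16765920) (l 16769528)) (c (l 16770520) (l 16771520))) (c (c (l 16772528) (l 16768296)) (c (l 16769320) (l 16770344)))) (a (c (c (c (c (l 16764296) (l 16764752)) (l 321216554999)) (c (l 324437782823) (l 312626624151))) (c (c (l 297057368455) (l 291151789831)) (c (l 287930565959) (c (l 16772224)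 (l 16772712))))) (c (c (l 1146789795015) (l 1158064088727)) (c (l 1227857311079) (l 1201013770327))))) (l 1))))) (a (a (c (c (l 16763408) (l 16765944)) (c (l 16768512) (l 16771128))) (c (c (l 16766608) (l 16768832)) (c (l 16771088) (l 16776000)))) (a (a (c (c (l 16766368) (l 16768360)) (c (l 16770384) (l 16772440))) (c (c (c (l 73047969543) (l 72511100119)) (c (l 73047972871) (l 73584845463))) (c (c (l 73584847175) (l 74658590871)) (c (l 75195463671) (l 75732336487))))) (a (a (c (l 1124778081639) (l 1126388701031)) (l 1)) (l 1)))))) (b (a (c (a (l 16770920) (l 16773936)) (l 143863571701252223)) (a (c (a (l 16768320) (l 16764576)) (c (l 16758896) (l 16760888))) (c (c (l 89154088663) (l 90764704295)) (c (l 92375320151) (l 93985936055))))) (c (l 143700156777218175) (l 143662773347729535)))) (a (b (l 1) (c (l 1160211523351) (l 1160211528007))) (l 1))) (l 1)), by decide +kernel⟩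

def k33_pp_011 : ∃ t, chk3 f_pp_011 t 15 253 1 = true :=
  ⟨(a (a (a (a (c (l 579934930951257569813055) (l 569329780211568593986111)) (c (l 587174414540719499502143) (l 572072581469522445066815))) (a (b (c (l 588490764274510087430719) (l 576245005652879733842495)) (l 580181945600229383479871)) (c (l 141862803774275647) (l 139312073685499967)))) (b (c (a (a (l 142513852133589055) (a (l 142434206266556543) (b (l 16633768) (l 143030485162492031)))) (l 143123737540132991)) (a (a (l 141249619658195007) (b (l 141964439898538047) (l 142131084595200063))) (l 142768114206605375))) (a (a (l 141746873974046783) (c (b (l 142373389489291391) (l 142708877946355839)) (l 141656988879962175))) (a (c (b (l 16615312) (l 142449599386796159)) (l 141566966400434239)) (l 142706060531351679))))) (a (a (a (c (l 143007670344040703) (l 142932559966306559)) (c (l 143433662432444671) (l 143217814529474815))) (b (c (l 143722078188142719) (l 143574812288909439)) (l 143190739107135615)))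 (a (a (c (l 143654801810276479) (l 143542514175688831)) (a (c (l 143644219047166079) (l 143574812370354303)) (b (l 2644122764359) (l 16744760)))) (b (l 1) (a (l 1080217748231) (l 1)))))), by decide +kernel⟩

def k34_pp_011 : ∃ t, chk3 f_pp_011 t 15 127 1 = true :=
  ⟨(b (a (a (a (a (l 576806189009904657572415) (l 574663197140820123886143)) (a (l 577900601897423424676415) (l 140277445058560063))) (a (a (l 141232439890329663) (l 140931242428596287)) (a (b (c (l 141989728596476031) (l 141755326413979711)) (l 140873174452731967)) (b (l 142742756651057279) (c (l 141860604668674303) (l 141665441311670399)))))) (a (a (l 141735466523508991) (l 142593085701685375)) (a (l 143062371070640255) (a (l 143293612233048191) (l 863858717351))))) (a (a (a (c (l 571271014114164359864895) (l 136204166058901567)) (c (l 140176358686982207) (l 138006884404052031))) (a (l 140358534199984191) (a (l 141236700403712063) (b (l 141163101887955071) (l 140997006851719295))))) (a (a (a (b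 (l 16535776) (l 140928149969518847)) (l 142499352184520959)) (l 142396479211077759)) (a (l 142916823198171263) (c (l 16649912) (l 16631768)))))), by decide +kernel⟩

theorem s35_pp_011 : ∃ t, chk3 f_pp_011 t 31 505 1 = true := ex3_a k31_pp_011 k32_pp_011

theorem s36_pp_011 : ∃ t, chk3 f_pp_011 t 15 505 1 = true := ex3_a k30_pp_011 s35_pp_011

theorem s37_pp_011 : ∃ t, chk3 f_pp_011 t 15 252 1 = true := ex3_b k29_pp_011 s36_pp_011

theorem s38_pp_011 : ∃ t, chk3 f_pp_011 t 15 126 1 = true := ex3_b s37_pp_011 k33_pp_011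

theorem s39_pp_011 : ∃ t, chk3 f_pp_011 t 15 63 1 = true := ex3_b s38_pp_011 k34_pp_011

theorem s40_pp_011 : ∃ t, chk3 f_pp_011 t 15 31 1 = true := ex3_b k28_pp_011 s39_pp_011

theorem s41_pp_011 : ∃ t, chk3 f_pp_011 t 14 126 1 = true := ex3_b k25_pp_011 k26_pp_011

theorem s42_pp_011 : ∃ t, chk3 f_pp_011 t 14 63 1 = true := ex3_b s41_pp_011 k27_pp_011

theorem s43_pp_011 : ∃ t, chk3 f_pp_011 t 14 31 1 = true := ex3_b k24_pp_011 s42_pp_011

theorem s44_pp_011 : ∃ t, chk3 f_pp_011 t 7 31 1 = true := ex3_a s43_pp_011 s40_pp_011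

theorem s45_pp_011 : ∃ t, chk3 f_pp_011 t 7 15 1 = true := ex3_b k23_pp_011 s44_pp_011

theorem s46_pp_011 : ∃ t, chk3 f_pp_011 t 7 7 1 = true := ex3_b k22_pp_011 s45_pp_011

theorem s47_pp_011 : ∃ t, chk3 f_pp_011 t 7 3 1 = true := ex3_b k21_pp_011 s46_pp_011

theorem s48_pp_011 : ∃ t, chk3 f_pp_011 t 13 126 1 = true := ex3_b k18_pp_011 k19_pp_011

theorem s49_pp_011 : ∃ t, chk3 f_pp_011 t 6 126 1 = true := ex3_a k17_pp_011 s48_pp_011

theorem s50_pp_011 : ∃ t, chk3 f_pp_011 t 6 63 1 = true := ex3_b s49_pp_011 k20_pp_011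

theorem s51_pp_011 : ∃ t, chk3 f_pp_011 t 6 31 1 = true := ex3_b k16_pp_011 s50_pp_011

theorem s52_pp_011 : ∃ t, chk3 f_pp_011 t 6 15 1 = true := ex3_b k15_pp_011 s51_pp_011

theorem s53_pp_011 : ∃ t, chk3 f_pp_011 t 6 7 1 = true := ex3_b k14_pp_011 s52_pp_011

theorem s54_pp_011 : ∃ t, chk3 f_pp_011 t 6 3 1 = true := ex3_b k13_pp_011 s53_pp_011

theorem s55_pp_011 : ∃ t, chk3 f_pp_011 t 3 3 1 = true := ex3_a s54_pp_011 s47_pp_011

theorem s56_pp_011 : ∃ t, chk3 f_pp_011 t 3 1 1 = true := ex3_b k12_pp_011 s55_pp_011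

theorem s57_pp_011 : ∃ t, chk3 f_pp_011 t 5 63 1 = true := ex3_a k10_pp_011 k11_pp_011

theorem s58_pp_011 : ∃ t, chk3 f_pp_011 t 5 31 1 = true := ex3_b k9_pp_011 s57_pp_011

theorem s59_pp_011 : ∃ t, chk3 f_pp_011 t 8 127 1 = true := ex3_a k6_pp_011 k7_pp_011

theorem s60_pp_011 : ∃ t, chk3 f_pp_011 t 8 63 1 = true := ex3_b k5_pp_011 s59_pp_011

theorem s61_pp_011 : ∃ t, chk3 f_pp_011 t 8 31 1 = true := ex3_b k4_pp_011 s60_pp_011

theorem s62_pp_011 : ∃ t, chk3 f_pp_011 t 4 31 1 = true := ex3_a s61_pp_011 k8_pp_011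

theorem s63_pp_011 : ∃ t, chk3 f_pp_011 t 2 31 1 = true := ex3_a s62_pp_011 s58_pp_011

theorem s64_pp_011 : ∃ t, chk3 f_pp_011 t 2 15 1 = true := ex3_b k3_pp_011 s63_pp_011

theorem s65_pp_011 : ∃ t, chk3 f_pp_011 t 2 7 1 = true := ex3_b k2_pp_011 s64_pp_011

theorem s66_pp_011 : ∃ t, chk3 f_pp_011 t 2 3 1 = true := ex3_b k1_pp_011 s65_pp_011

theorem s67_pp_011 : ∃ t, chk3 f_pp_011 t 2 1 1 = true := ex3_b k0_pp_011 s66_pp_011

theorem s68_pp_011 : ∃ t, chk3 f_pp_011 t 1 1 1 = true := ex3_a s67_pp_011 s56_pp_011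

theorem c_pp_011 : CertB 0 536870912 536870912 536870912 1020054732 13421774 3 eng mog cd3q0 cd0q1 pd1 false true true .pnn 0 1 1
    ndB3q0 ndB0q1 pcB1 Cut.none xt_pp_011 :=
  certB2 (fam := false) (s1 := true) (s2 := true) (a := 0) (b := 1) (c := 1) (cn := .pnn) (n1 := ndB3q0) (n2 := ndB0q1) (pc := pcB1) (cut := Cut.none) (xt := xt_pp_011) (P1 := 0) (W1 := 536870912) (P2 := 536870912) (W2 := 536870912) (P3 := 1020054732) (W3 := 13421774) (N0 := 3) (En := eng) (mo := mog) (C1 := cd3q0) (C2 := cd0q1) (C3 := pd1)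
    rfl (fun _ => rfl) s68_pp_011

end Pool.Agent.Strip051.G.I9500_9625.Tab.C.BB30

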