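import Pool.Agent.Strip051.G.I9500_9625.Tab
import Pool.Agent.Strip051.PB.ExtD3

/-! # Certificates B35 (generated) -/

set_option linter.all false
set_option maxRecDepth 100000

namespace Pool.Agent.Strip051.G.I9500_9625.Tab.C.BB30

open Pool.Agent.Strip051.PB Pool.Agent.Strip051.PB.T
open Pool.Agent.Strip051.G.I9500_9625.Tab

noncomputable def xt_pp_012 : Ext := extD3 3 ⟨4, 1, 1, 5, 99, 20, 33, 40, 51, 125, 1, 32⟩ eng cd3q0 cd0q2 pd1 false true true .pnp 0 1 2 rfl ndB3q0 ndB0q2 pcB1

noncomputable def f_pp_012 : ℕ → ℕ → ℕ → ℕ → Bool := onCell 536870912 536870912 0 536870912 1020054732 13421774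
    (rowB 3 eng mog cd3q0 cd0q2 pd1 2 false true true .pnp 0 1 2 (qsf 0 536870912 0 536870912 1) ndB3q0 ndB0q2 pcB1 Cut.none xt_pp_012)

def k0_pp_012 : ∃ t, chk3 f_pp_012 t 2 2 1 = true :=
  ⟨(a (b (l 2) (a (l 2) (a (l 2) (a (l 2) (b (l 2) (b (l 2) (l 14483760))))))) (b (a (c (b (l 14554016) (l 14435608)) (b (l 14592752) (l 14631792))) (c (a (l 14498936) (l 14546248)) (b (l 14641608) (l 14735616)))) (a (b (c (a (l 14312544) (l 14349488)) (a (l 14661160) (l 14714104))) (c (b (a (l 14239912) (l 14330496)) (a (l 14334256) (l 14445928))) (b (l 14486072) (l 14796272)))) (c (b (a (l 14320608) (l 14352440)) (a (b (l 14457056) (l 14571536)) (l 14661200))) (b (a (l 14798072) (l 14910312)) (a (l 14900664) (l 15012160))))))), by decide +kernel⟩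

def k1_pp_012 : ∃ t, chk3 f_pp_012 t 2 6 1 = true :=
  ⟨(a (a (l 2) (a (b (l 2) (c (b (l 14721912) (l 14925032)) (b (l 14934640) (l 15040024)))) (b (c (b (l 14405824) (l 14580936)) (l 14823000)) (c (b (l 14763168) (l 14953320)) (b (l 14958344) (l 15056488)))))) (a (b (c (a (b (l 14488304) (l 14649064)) (b (l 14584688) (l 14730440))) (a (l 14872656) (l 14936448))) (c (a (b (l 14817216) (l 14993480)) (b (l 14883784) (l 15045312))) (a (b (l 14995824) (l 15086152)) (b (l 15046816) (l 15128792))))) (b (c (a (b (l 14694536) (l 14824728)) (b (l 14817408) (l 14931560))) (a (l 15014040) (l 15105048))) (c (a (b (l 14962592) (l 15108616)) (b (l 15053376) (l 15183200))) (a (b (l 15111040) (l 15184176)) (b (l 15188208) (l 15252056))))))), by decide +kernel⟩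

def k2_pp_012 : ∃ t, chk3 f_pp_012 t 2 14 1 = true :=
  ⟨(a (a (a (l 2) (b (c (l 15132240) (l 15155208)) (b (c (l 15305256) (l 15248072)) (c (l 15378320) (l 15294688))))) (b (c (a (l 15136728) (l 15152232)) (a (l 15151848) (l 15161216))) (a (b (c (l 15301088) (l 15239992)) (c (l 15357984) (l 15280984))) (c (b (l 15307264) (l 15329544)) (c (l 15278760) (l 15246168)))))) (a (b (a (c (l 15178584) (l 15183136)) (c (l 15215632) (l 15217400))) (a (b (c (l 15322072) (l 15260344)) (l 15327376)) (c (b (l 15345984) (l 15377600)) (l 15306752)))) (b (a (c (l 15263264) (l 15263808)) (c (l 15321344) (l 15322160))) (a (c (b (l 15379968) (l 15413128)) (l 15349128)) (c (a (l 15429848) (l 15456800)) (l 15404776)))))), by decide +kernel⟩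

def k3_pp_012 : ∃ t, chk3 f_pp_012 t 2 15 1 = true :=
  ⟨(b (a (c (a (c (a (l 15364232) (l 15314088)) (b (l 15351280) (l 15319264))) (a (l 15298392) (l 15305488))) (a (a (l 15308776) (l 15286184)) (a (l 15280824) (l 15313232)))) (a (a (b (l 15317888) (l 15351552)) (b (l 15374696) (l 15397984))) (a (b (l 15425216) (l 15458976)) (b (l 15489488) (l 15533240))))) (b (a (a (a (c (l 15265392) (l 15310776)) (a (l 15296440) (l 15294376))) (a (a (l 15297112) (l 15304512)) (c (l 15281768) (l 15345832)))) (a (a (c (l 15323856) (l 15385792)) (c (l 15403096) (l 15441304))) (a (c (l 15476008) (l 15510856)) (c (l 15561840) (l 15592760))))) (a (a (b (a (c (l 15230888) (l 15313208)) (a (l 15284600) (l 15285768))) (a (c (b (a (l 15239120) (l 15232096)) (a (l 15227408) (l 15221568))) (a (l 15320408) (l 15311936))) (a (a (a (l 15277568) (l 15277432)) (l 15298824)) (a (l 15279576) (l 15282600))))) (a (a (b (l 15291960) (a (l 15286904) (l 15292472))) (b (l 15303000) (c (l 15297680) (l 15330344))))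 (c (b (l 15271856) (b (l 15267696) (l 15265216))) (a (l 15361696) (l 15381808))))) (a (a (c (b (l 15323408) (l 15345472)) (a (l 15406144) (l 15434488))) (c (a (l 15375856) (l 15415208)) (a (l 15466624) (l 15502304)))) (a (c (a (l 15478984) (l 15524976)) (a (l 15541264) (l 15583240))) (a (c (l 15573824) (l 15627904)) (c (l 15625168) (l 15674904)))))))), by decide +kernel⟩

def k4_pp_012 : ∃ t, chk3 f_pp_012 t 3 2 1 = true :=
  ⟨(a (c (b (a (a (l 14629400) (l 14748080)) (a (l 14901664) (l 15089192))) (a (b (a (l 14671360) (l 14873856)) (a (l 14821328) (l 14993776))) (b (a (l 15080496) (l 15306856)) (a (l 15177920) (l 15373096))))) (b (a (a (l 14822688) (l 14946304)) (a (l 15097136) (l 15274160))) (a (b (a (l 15046176) (l 15202464)) (a (l 15135120) (l 15270840))) (b (a (l 15375784) (l 15562704)) (a (l 15418752) (l 15578208)))))) (a (b (a (c (l 15162424) (l 15434040)) (b (l 15496792) (a (l 15689176) (l 15823056)))) (b (a (b (l 15420992) (l 15658704)) (a (l 15824600) (l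 15939144))) (a (c (l 15578552) (l 15748440)) (l 15671688)))) (b (a (b (l 15741408) (a (l 15897432) (l 15953480))) (b (l 15861152) (a (l 16053504) (l 16259944)))) (a (b (l 16070256) (l 15878008)) (b (a (l 16288136) (l 16407736)) (a (l 16227072) (l 16336912))))))), by decide +kernel⟩

def k5_pp_012 : ∃ t, chk3 f_pp_012 t 6 3 1 = true :=
  ⟨(b (a (b (a (c (l 14750848) (l 15209104)) (c (l 15141776) (l 15325800))) (a (c (b (l 15155888) (l 15268904)) (b (l 15278032) (l 15332192))) (c (b (l 15269880) (l 15365576)) (b (l 15380192) (l 15424320))))) (b (a (c (l 15292648) (l 15454704)) (c (l 15454672) (l 15595336))) (a (c (b (l 15395112) (l 15473064)) (b (l 15494360) (l 15528168))) (c (b (l 15531312) (l 15591216)) (b (l 15620152) (l 15643424)))))) (b (a (b (a (c (l 15389800) (l 15392240)) (c (l 15468552) (l 15473848))) (a (c (l 15502960) (l 15473328)) (c (l 15575560) (l 15554272)))) (a (b (c (l 15557568) (l 15566768)) (c (l 15659960) (l 15646912))) (b (c (l 15656776) (l 15670736))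 (c (l 15755488) (l 15750400))))) (a (b (a (b (l 15566432) (l 15556392)) (b (l 15654872) (l 15631672))) (a (b (a (l 15647144) (l 15696664)) (c (a (l 15678600) (l 15733552)) (a (l 15723816) (l 15774080)))) (b (a (l 15748056) (l 15800888)) (a (c (l 15789272) (l 15824896)) (c (l 15844472) (l 15874864)))))) (b (a (b (l 15753536) (l 15694360)) (a (l 15786000) (l 15926616))) (a (b (a (l 15854616) (l 15908392)) (a (b (l 15896552) (l 15917744)) (b (l 15942000) (l 15897544)))) (b (a (l 15960664) (l 16007584)) (a (b (l 15938584) (l 15853896)) (b (l 15911824) (l 15739168))))))))), by decide +kernel⟩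

def k6_pp_012 : ∃ t, chk3 f_pp_012 t 7 6 1 = true :=
  ⟨(a (b (a (c (l 15627352) (l 15747088)) (c (l 15810016) (l 15909208))) (a (b (c (l 15678128) (l 15757072)) (c (l 15719744) (l 15769632))) (b (a (l 15830416) (l 15908976)) (a (l 15846624) (l 15917800))))) (a (b (a (l 15994856) (l 16088240)) (a (b (l 15989928) (l 15991328)) (b (l 16073320) (l 16067224)))) (b (a (l 16184104) (l 16240776)) (a (b (l 16159280) (l 16145648)) (b (l 16248112) (l 16226904)))))), by decide +kernel⟩

def k7_pp_012 : ∃ t, chk3 f_pp_012 t 14 7 1 = true :=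
  ⟨(a (a (b (b (l 15746600) (l 15833688)) (b (l 15985000) (b (l 16026024) (c (l 15869392) (l 15842488))))) (b (b (l 15805064) (l 15890560)) (b (l 15961120) (b (l 16037824) (b (l 15913032) (l 15822000)))))) (b (b (a (l 15865936) (l 15929120)) (a (l 15907400) (l 15862888))) (b (a (b (l 16067288) (l 16138776)) (b (l 16129040) (l 16202840))) (a (b (l 16074456) (c (l 15940336) (l 15887928))) (b (l 16143312) (a (l 15980288) (l 16129976))))))), by decide +kernel⟩

def k8_pp_012 : ∃ t, chk3 f_pp_012 t 15 7 1 = true :=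
  ⟨(b (a (b (a (l 15994528) (l 16062144)) (a (l 137174004083654719) (l 137745750257647679))) (b (a (l 16132112) (a (l 16186368) (l 16223408))) (a (b (l 16156928) (a (l 16217272) (l 139634780184576127))) (b (a (b (l 16187192) (l 16221928)) (b (l 16218096) (l 16245144))) (a (b (l 16255944) (l 16284544)) (b (l 16267936) (l 16268368))))))) (a (b (a (l 138346289966448703) (b (l 16251304) (a (l 16315528) (l 139643851352555583)))) (a (b (l 139671888711630911) (b (a (l 16153464) (l 139121583145877567)) (a (l 137285673334046783) (l 138827738666647615)))) (b (a (b (l 16337104) (l 140599808018907199)) (b (l 141263019748606015) (l 141108263493091391))) (a (b (l 140460376229085247) (l 140474807428579391)) (b (l 140685432607899711) (b (l 141382729188425791) (l 140963471695298623))))))) (b (a (b (a (l 139600420543348991) (l 139564892611002495)) (a (b (l 16304824) (l 141016110646149375)) (b (l 141160696377147519) (l 141108607057559679)))) (b (a (b (l 16306800) (l 141034527374639231))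 (a (l 140572388876222591) (a (l 141094244588421247) (b (l 16315272) (l 16338152))))) (a (b (l 141049027229057151) (a (l 16372952) (b (l 16369952) (l 16384072)))) (b (a (b (l 16350280) (l 16363248)) (b (l 16359344) (l 16360096))) (a (b (l 16381032) (l 16405256)) (l 16421000)))))) (a (b (a (b (l 141055693103366399) (l 140498996626391295)) (b (l 140737384486338687) (a (l 140083587430842495) (c (l 141283979278319743) (l 141244740440719487))))) (a (b (a (l 141605311535677695) (b (l 16416616) (l 141182205743808767))) (a (b (l 141093695081251071) (l 140884719197012223)) (b (l 141127298930573567) (l 16489480)))) (b (a (b (l 141462993509318783) (l 141182068340228223)) (l 16464424)) (l 142201865506963583)))) (b (a (b (a (b (l 16390328) (l 141785425257300095)) (b (l 141699182307688575) (l 16430328))) (a (b (l 141644619096473727) (l 16458864)) (l 16471792))) (b (l 16458848) (a (l 16499096) (l 16526856)))) (a (b (l 142648610821423231) (l 142577005244792959)) (b (a (l 16555920) (b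 (l 16568784) (l 16597560))) (a (b (l 16597576) (l 16628280)) (b (l 16626936) (l 16636000)))))))))), by decide +kernel⟩

theorem s9_pp_012 : ∃ t, chk3 f_pp_012 t 7 7 1 = true := ex3_a k7_pp_012 k8_pp_012

theorem s10_pp_012 : ∃ t, chk3 f_pp_012 t 7 3 1 = true := ex3_b k6_pp_012 s9_pp_012

theorem s11_pp_012 : ∃ t, chk3 f_pp_012 t 3 3 1 = true := ex3_a k5_pp_012 s10_pp_012

theorem s12_pp_012 : ∃ t, chk3 f_pp_012 t 3 1 1 = true := ex3_b k4_pp_012 s11_pp_012

theorem s13_pp_012 : ∃ t, chk3 f_pp_012 t 2 7 1 = true := ex3_b k2_pp_012 k3_pp_012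

theorem s14_pp_012 : ∃ t, chk3 f_pp_012 t 2 3 1 = true := ex3_b k1_pp_012 s13_pp_012

theorem s15_pp_012 : ∃ t, chk3 f_pp_012 t 2 1 1 = true := ex3_b k0_pp_012 s14_pp_012

theorem s16_pp_012 : ∃ t, chk3 f_pp_012 t 1 1 1 = true := ex3_a s15_pp_012 s12_pp_012

theorem c_pp_012 : CertB 0 536870912 0 536870912 1020054732 13421774 3 eng mog cd3q0 cd0q2 pd1 false true true .pnp 0 1 2
    ndB3q0 ndB0q2 pcB1 Cut.none xt_pp_012 :=
  certB2 (fam := false) (s1 := true) (s2 := true) (a := 0) (b := 1) (c := 2) (cn := .pnp) (n1 := ndB3q0) (n2 := ndB0q2) (pc := pcB1) (cut := Cut.none) (xt := xt_pp_012) (P1 := 0) (W1 := 536870912) (P2 := 0) (W2 := 536870912) (P3 := 1020054732) (W3 := 13421774) (N0 := 3) (En := eng) (mo := mog) (C1 := cd3q0) (C2 := cd0q2) (C3 := pd1)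
    rfl (fun _ => rfl) s16_pp_012

noncomputable def f_pp_022 : ℕ → ℕ → ℕ → ℕ → Bool := onCell 0 536870912 0 536870912 1020054732 13421774
    (rowB 3 eng mog cd3q0 cd0q2 pd2 0 false true true .pp 0 2 2 (qsf 0 536870912 0 536870912 2) ndB3q0 ndB0q2 pcB2 Cut.none Ext.none)

def k0_pp_022 : ∃ t, chk3 f_pp_022 t 2 2 1 = true :=
  ⟨(a (a (a (a (b (b (l 15931984) (l 16058720)) (b (l 16158728) (b (l 16309760) (a (l 16410120) (l 16354056))))) (a (b (l 15908224) (b (l 16123472) (l 16200696))) (b (b (l 15820312) (l 15938008)) (b (a (l 16084216) (l 16058200)) (a (l 16221048) (b (l 16158520) (l 16224728))))))) (b (a (a (b (l 15798984) (l 15913152)) (b (l 15794224) (l 15904976))) (a (l 15848072) (l 15836024))) (a (b (a (l 16041848) (l 16030480)) (a (b (l 16140280) (l 16205208)) (b (l 16126592) (l 16190000)))) (b (a (l 16021216) (l 16003728)) (a (b (l 16114968) (l 16176840)) (b (l 16094808) (l 16154888))))))) (b (a (b (l 15728000) (l 15821560)) (b (l 15643936) (l 15720328))) (a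 (b (a (l 15959584) (l 15900344)) (a (b (l 16046016) (l 16102888)) (l 16007776))) (b (l 15811448) (a (l 15939400) (l 15870552)))))) (a (b (a (b (l 15555000) (l 15619880)) (b (l 1) (l 1))) (a (b (l 15692208) (b (l 15747408) (l 15782840))) (l 1))) (l 1))), by decide +kernel⟩

def k1_pp_022 : ∃ t, chk3 f_pp_022 t 4 6 1 = true :=
  ⟨(a (a (a (b (b (l 16326360) (l 16371016)) (b (b (l 16437080) (l 16464888)) (b (l 16469496) (b (l 16502264) (l 16505992))))) (a (b (b (l 16363360) (l 16404192)) (b (l 16417592) (b (l 16495376) (l 16516184)))) (b (a (b (l 16318056) (l 16377880)) (b (l 16287952) (l 16325480))) (b (a (l 16431112) (c (l 16394288) (l 16402304))) (a (b (l 16465288) (l 16484944)) (b (a (l 16439488) (l 16423520)) (a (l 16458560) (l 16442216)))))))) (a (b (a (b (l 16180624) (a (l 16330032) (l 16320328))) (b (l 16250416) (c (l 16303088) (l 16309080)))) (a (b (a (b (l 16368752) (l 16392152)) (b (l 16358472) (l 16381488))) (a (b (l 16413192) (l 16431568)) (b (l 16402144)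 (l 16420128)))) (b (a (b (l 16348608) (l 16371232)) (b (l 16339240) (l 16361480))) (a (b (l 16391496) (l 16409096)) (b (l 16381360) (l 16377600)))))) (b (a (b (l 16235720) (c (l 16287840) (l 16291864))) (b (l 16211952) (a (l 16274152) (l 16254672)))) (a (b (c (b (l 16325256) (l 16348024)) (l 16316392)) (b (a (l 16350824) (l 16341896)) (a (l 16367648) (l 16358336)))) (b (a (b (l 16309288) (l 16330288)) (l 16299584)) (a (b (l 16348920) (b (l 16340152) (l 16347416))) (b (l 16327376) (l 16321760)))))))) (b (a (b (a (l 16156648) (l 16081896)) (a (c (l 16202048) (l 16209000)) (l 16125984))) (a (b (l 16006400) (l 16045568)) (a (l 503079753575) (l 542808116679)))) (a (b (a (b (l 16237536) (a (l 16277640) (l 16235112))) (a (l 16184216) (l 16141744))) (a (b (a (l 16294760) (l 16250984)) (a (c (l 16311936) (l 16306416)) (c (l 16266000) (l 16262304)))) (b (c (l 16183312) (l 16186264)) (l 1)))) (a (a (b (l 444024425191) (l 1)) (l 1)) (l 1))))), by decide +kernel⟩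

def k2_pp_022 : ∃ t, chk3 f_pp_022 t 8 14 1 = true :=
  ⟨(a (a (b (b (c (l 16564248) (l 16544912)) (a (l 16545704) (l 16599344))) (a (a (l 16553048) (l 16598936)) (b (l 16612064) (l 16641480)))) (a (b (b (l 16534080) (l 16548712)) (b (l 16580768) (l 16587528))) (a (b (b (l 16501648) (l 16515056)) (b (l 16524880) (l 16530352))) (b (b (a (l 16474656) (l 16457936)) (a (l 16487448) (l 16470336))) (b (a (l 16496640) (l 16479128)) (a (l 16501456) (l 16483536))))))) (a (b (a (a (b (l 16446968) (l 16459040)) (b (l 16435136) (l 16446824))) (a (b (l 16423712) (l 16414040)) (b (l 16412792) (a (l 16405632) (l 16400104))))) (a (a (b (l 16467504) (l 16471584)) (b (l 16454896) (l 16458592))) (b (a (l 16442696) (a (l 16434000) (l 16428288))) (a (b (l 16445624) (l 16446024)) (a (l 16437032) (l 16410152)))))) (b (a (b (a (a (l 16384112) (l 16379096)) (a (l 16374240) (l 16369552))) (a (a (l 16394736) (l 16389520)) (a (l 16384472) (l 16379600)))) (b (a (c (l 16362392) (l 16351328)) (l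 16334112)) (a (c (l 16374136) (l 16358880)) (l 109017512247)))) (a (b (a (c (l 16407896) (l 16389856)) (c (l 16398184) (l 16378656))) (a (c (l 235719140359) (l 255583310951)) (l 1))) (a (a (b (l 146598475287) (l 1)) (l 1)) (l 1)))))), by decide +kernel⟩

def k3_pp_022 : ∃ t, chk3 f_pp_022 t 8 15 1 = true :=
  ⟨(a (a (b (b (b (l 16598112) (l 16598944)) (c (l 16597208) (l 16597152))) (b (a (b (l 16734400) (l 16708912)) (b (l 16656288) (l 274911060631))) (a (b (a (l 16702576) (l 16684944)) (a (l 16694104) (b (l 16681712) (l 1)))) (b (a (l 16666416) (l 1)) (l 1))))) (a (b (b (l 16589176) (b (l 16587016) (l 16582856))) (b (b (l 16555584) (l 1)) (l 1))) (b (a (b (l 16530680) (l 16462304)) (b (a (l 16501120) (l 16482784)) (b (a (l 16497464) (l 16478808)) (l 1)))) (l 1)))) (a (b (a (b (a (c (l 16481864) (l 16459016)) (c (l 16469424) (l 16444712))) (l 1)) (l 1)) (l 1)) (l 1))), by decide +kernel⟩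

def k4_pp_022 : ∃ t, chk3 f_pp_022 t 9 7 1 = true :=
  ⟨(b (a (b (a (a (b (b (l 16318008) (l 16322912)) (c (l 171294422935) (l 182031814119))) (b (l 262025480887) (l 1))) (l 1)) (l 1)) (l 1)) (l 1)), by decide +kernel⟩

def k5_pp_022 : ∃ t, chk3 f_pp_022 t 5 3 1 = true :=
  ⟨(b (l 1) (l 1)), by decide +kernel⟩

def k6_pp_022 : ∃ t, chk3 f_pp_022 t 3 1 1 = true :=
  ⟨(l 1), by decide +kernel⟩

theorem s7_pp_022 : ∃ t, chk3 f_pp_022 t 8 7 1 = true := ex3_b k2_pp_022 k3_pp_022

theorem s8_pp_022 : ∃ t, chk3 f_pp_022 t 4 7 1 = true := ex3_a s7_pp_022 k4_pp_022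

theorem s9_pp_022 : ∃ t, chk3 f_pp_022 t 4 3 1 = true := ex3_b k1_pp_022 s8_pp_022

theorem s10_pp_022 : ∃ t, chk3 f_pp_022 t 2 3 1 = true := ex3_a s9_pp_022 k5_pp_022

theorem s11_pp_022 : ∃ t, chk3 f_pp_022 t 2 1 1 = true := ex3_b k0_pp_022 s10_pp_022

theorem s12_pp_022 : ∃ t, chk3 f_pp_022 t 1 1 1 = true := ex3_a s11_pp_022 k6_pp_022

theorem c_pp_022 : CertB 0 536870912 0 536870912 1020054732 13421774 3 eng mog cd3q0 cd0q2 pd2 false true true .pp 0 2 2
    ndB3q0 ndB0q2 pcB2 Cut.none Ext.none :=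
  certB0 (fam := false) (s1 := true) (s2 := true) (a := 0) (b := 2) (c := 2) (cn := .pp) (n1 := ndB3q0) (n2 := ndB0q2) (pc := pcB2) (cut := Cut.none) (xt := Ext.none) (P1 := 0) (W1 := 536870912) (P2 := 0) (W2 := 536870912) (P3 := 1020054732) (W3 := 13421774) (N0 := 3) (En := eng) (mo := mog) (C1 := cd3q0) (C2 := cd0q2) (C3 := pd2)
    rfl s12_pp_022

noncomputable def cut_pp_101 : Cut := Cut.of [[⟨0, 1, 0, 38347922⟩, ⟨1, 0, 0, 38347922⟩, ⟨2, 1, 0, 38347922⟩]]

noncomputable def xt_pp_101 : Ext := extD3 3 ⟨4, 1, 1, 5, 99, 20, 33, 40, 51, 125, 1, 32⟩ eng cd3q1 cd0q1 pd0 false true true .npn 1 0 1 rfl ndB3q1 ndB0q1 pcB0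

noncomputable def f_pp_101 : ℕ → ℕ → ℕ → ℕ → Bool := onCell 536870912 536870912 536870912 536870912 1020054732 13421774
    (rowB 3 eng mog cd3q1 cd0q1 pd0 0 false true true .npn 1 0 1 (qsf 536870912 536870912 536870912 536870912 0) ndB3q1 ndB0q1 pcB0 cut_pp_101 xt_pp_101)

def k0_pp_101 : ∃ t, chk3 f_pp_101 t 1 2 1 = true :=
  ⟨(l 3), by decide +kernel⟩

def k1_pp_101 : ∃ t, chk3 f_pp_101 t 1 6 1 = true :=
  ⟨(l 3), by decide +kernel⟩

def k2_pp_101 : ∃ t, chk3 f_pp_101 t 1 14 1 = true :=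
  ⟨(l 3), by decide +kernel⟩

def k3_pp_101 : ∃ t, chk3 f_pp_101 t 1 30 1 = true :=
  ⟨(l 3), by decide +kernel⟩

def k4_pp_101 : ∃ t, chk3 f_pp_101 t 2 31 1 = true :=
  ⟨(b (l 3) (b (a (a (a (l 3) (l 3)) (l 3)) (l 3)) (c (a (a (a (a (a (l 15474712) (l 15458800)) (a (l 337856946471) (l 335709474887))) (a (a (l 333562004263) (l 331414535575)) (a (l 329267067815) (l 327119601959)))) (a (a (b (l 307255413415) (l 15580488)) (b (l 300276135399) (l 15601680))) (a (b (l 293296863207) (l 15625216)) (b (l 286317596375) (l 15651040))))) (a (a (a (l 300276289239) (l 294907644663)) (a (l 290612746119) (l 286317852983))) (a (a (l 15773032) (l 15832640)) (a (l 15873064) (l 15915200))))) (a (a (a (a (a (l 15799352) (l 15806096)) (a (l 15792344) (l 15807888))) (b (c (l 320677644103) (l 326046479975)) (l 15674024))) (a (b (a (l 315308789239) (l 15684344)) (l 15755088)) (a (l 321214435351) (l 315308904599)))) (a (a (a (l 309940247719) (l 15805360)) (a (l 15918080) (l 15969120))) (a (b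 (l 272359517303) (l 16075448)) (l 283633931431))))))), by decide +kernel⟩

def k5_pp_101 : ∃ t, chk3 f_pp_101 t 3 31 1 = true :=
  ⟨(b (l 3) (a (b (l 3) (a (c (a (a (l 15938000) (l 15962296)) (a (l 220819949799) (l 230483732567))) (a (l 276654770423) (a (l 16270144) (l 16244216)))) (b (l 3) (c (a (a (l 257327396327) (a (l 16158632) (l 16162928))) (a (a (l 16146512) (l 248737763095)) (a (l 243905982135) (l 239074204247)))) (a (a (l 16317448) (l 16334128)) (a (l 16330104) (l 247127526423))))))) (b (l 3) (a (b (l 3) (a (a (c (a (l 238000524487) (b (l 2005379643943) (l 16316264))) (l 244443263767)) (b (l 3) (c (a (l 16322096) (l 270212968663)) (l 16440648)))) (b (l 3) (c (a (a (l 265381193143) (a (l 16437688) (l 16451024))) (a (a (l 16464360) (l 16477704)) (l 4586664559758193041068916783))) (a (a (l 16531472) (l 16549600)) (c (l 269676491399) (l 16599648))))))) (b (l 3) (b (l 3) (a (a (c (a (l 4576993153201630256585900079) (b (l 3) (l 5195963172844706597587353647))) (l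 4876806756466906084230643759)) (b (l 3) (a (c (a (l 16567376) (l 276655897031)) (l 142348306993954863)) (c (a (b (l 230485032279) (l 16591072)) (l 6)) (l 142504094077173807))))) (l 6)))))))), by decide +kernel⟩

theorem s6_pp_101 : ∃ t, chk3 f_pp_101 t 1 31 1 = true := ex3_a k4_pp_101 k5_pp_101

theorem s7_pp_101 : ∃ t, chk3 f_pp_101 t 1 15 1 = true := ex3_b k3_pp_101 s6_pp_101

theorem s8_pp_101 : ∃ t, chk3 f_pp_101 t 1 7 1 = true := ex3_b k2_pp_101 s7_pp_101

theorem s9_pp_101 : ∃ t, chk3 f_pp_101 t 1 3 1 = true := ex3_b k1_pp_101 s8_pp_101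

theorem s10_pp_101 : ∃ t, chk3 f_pp_101 t 1 1 1 = true := ex3_b k0_pp_101 s9_pp_101

theorem c_pp_101 : CertB 536870912 536870912 536870912 536870912 1020054732 13421774 3 eng mog cd3q1 cd0q1 pd0 false true true .npn 1 0 1
    ndB3q1 ndB0q1 pcB0 cut_pp_101 xt_pp_101 :=
  certB0 (fam := false) (s1 := true) (s2 := true) (a := 1) (b := 0) (c := 1) (cn := .npn) (n1 := ndB3q1) (n2 := ndB0q1) (pc := pcB0) (cut := cut_pp_101) (xt := xt_pp_101) (P1 := 536870912) (W1 := 536870912) (P2 := 536870912) (W2 := 536870912) (P3 := 1020054732) (W3 := 13421774) (N0 := 3) (En := eng) (mo := mog) (C1 := cd3q1) (C2 := cd0q1) (C3 := pd0)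
    rfl s10_pp_101

noncomputable def cut_pp_102 : Cut := Cut.of [[⟨0, 1, 0, 38347922⟩, ⟨1, 0, 0, 38347922⟩, ⟨2, 1, 0, 38347922⟩]]

noncomputable def xt_pp_102 : Ext := extD3 3 ⟨4, 1, 1, 5, 99, 20, 33, 40, 51, 125, 1, 32⟩ eng cd3q1 cd0q2 pd0 false true true .npp 1 0 2 rfl ndB3q1 ndB0q2 pcB0

noncomputable def f_pp_102 : ℕ → ℕ → ℕ → ℕ → Bool := onCell 536870912 536870912 0 536870912 1020054732 13421774
    (rowB 3 eng mog cd3q1 cd0q2 pd0 0 false true true .npp 1 0 2 (qsf 536870912 536870912 0 536870912 0) ndB3q1 ndB0q2 pcB0 cut_pp_102 xt_pp_102)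

def k0_pp_102 : ∃ t, chk3 f_pp_102 t 4 1 1 = true :=
  ⟨(b (b (l 2) (a (l 2) (b (l 2) (a (l 2) (b (l 2) (l 16184368)))))) (b (a (l 2) (b (a (l 2) (l 16149848)) (c (l 16351576) (l 16392728)))) (a (a (b (l 2) (b (c (l 15842448) (l 16061312)) (b (l 15604112) (c (l 15495008) (l 15749312))))) (b (b (l 16294424) (c (l 16043576) (l 16261008))) (b (c (l 15864440) (l 16109744)) (b (l 15588856) (c (l 15416336) (l 15759232)))))) (b (b (c (l 16237896) (l 16430048)) (c (l 15831912) (l 16178784))) (b (c (a (l 15893832) (l 15930336)) (b (l 16199720) (l 16012568))) (c (a (b (l 15742192) (l 15430936)) (b (l 15783160) (l 15517472))) (b (a (l 16009968) (l 16050064)) (a (l 15796560) (l 15839872))))))))), by decide +kernel⟩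

def k1_pp_102 : ∃ t, chk3 f_pp_102 t 5 1 1 = true :=
  ⟨(b (a (b (b (a (l 14595856) (l 14787152)) (a (l 15049704) (l 14883656))) (b (a (l 15504480) (l 15349848)) (a (c (l 16086240) (l 15865592)) (l 15630200)))) (b (b (l 14769304) (a (l 14759384) (l 14589184))) (b (a (l 15192192) (l 15032672)) (a (l 15550824) (l 15508888))))) (b (b (a (b (a (l 16166848) (l 16001928)) (l 16295040)) (b (a (l 16093080) (l 15952040)) (a (l 16146192) (b (l 16159280) (l 16246856))))) (a (c (l 16346400) (l 16342784)) (c (l 16289992) (l 16200544)))) (b (a (b (c (l 16305032) (l 16459232)) (a (c (l 16139168) (l 16356992)) (l 16036568))) (c (a (l 16050288) (b (l 16418752) (l 16287032))) (b (l 16422848) (l 16352304)))) (b (b (a (a (l 15947832) (l 15971344)) (a (l 15998568) (l 16030104))) (a (a (l 15862864) (l 15911496)) (a (l 15943984) (l 15980856)))) (a (c (a (b (l 15832008) (l 15612592)) (b (l 15888304) (l 15673872))) (a (b (l 16095000) (l 15909656)) (b (l 16144320) (l 15963448)))) (c (a (b (l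 15951584) (l 15721768)) (b (l 16021352) (l 15755704))) (b (a (l 16176536) (l 16212104)) (a (l 16042624) (l 16083688))))))))), by decide +kernel⟩

def k2_pp_102 : ∃ t, chk3 f_pp_102 t 3 2 1 = true :=
  ⟨(a (a (b (a (b (l 14803096) (l 14675536)) (l 14723536)) (b (a (l 14725936) (b (l 14674776) (l 14843296))) (a (l 15400744) (l 15248720)))) (b (a (l 14697696) (l 14651904)) (b (a (b (l 14664440) (l 14741088)) (l 14706368)) (a (l 15096304) (b (l 14835880) (l 15082904)))))) (a (b (a (l 14586696) (l 14502560)) (b (a (l 14687824) (l 14660408)) (a (b (l 14805904) (a (l 14968424) (l 14926792))) (a (l 14862496) (l 14842168))))) (b (a (l 14399904) (l 14279040)) (a (b (l 14609712) (l 14824544)) (b (l 14535800) (l 14777592)))))), by decide +kernel⟩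

def k3_pp_102 : ∃ t, chk3 f_pp_102 t 6 3 1 = true :=
  ⟨(b (a (b (a (b (l 15809048) (a (l 16125352) (l 16052072))) (b (l 15661968) (l 15901400))) (b (a (c (l 16355800) (l 16174016)) (c (l 16189112) (l 15945064))) (a (l 16380112) (l 16336696)))) (b (a (b (l 15512320) (l 15795328)) (b (l 15361904) (l 15645056))) (a (b (a (l 15953920) (l 16045520)) (c (l 16345400) (l 16117856))) (b (l 15764256) (b (l 15902408) (a (l 16278048) (l 16219736))))))) (b (a (b (c (l 16398168) (l 16376168)) (c (a (l 16347592) (l 16413888)) (l 16307456))) (b (a (l 16329056) (l 16284840)) (a (c (l 16485864) (l 16465128)) (c (l 16542424) (l 16441048))))) (a (b (a (c (b (l 16242480) (l 16172304)) (l 16178576)) (b (l 16150840) (a (l 16155056) (l 16167568)))) (a (c (b (l 16076104) (a (l 16005696) (l 16048360))) (b (l 16250480) (l 16127968))) (b (a (l 16068808) (l 16105408)) (c (a (l 16071432) (l 16053856)) (l 16133000))))) (b (a (b (l 16238768) (a (l 16201952) (l 16237472))) (b (l 16310208) (a (l 16253376)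 (l 16291792)))) (b (a (a (l 16142792) (l 16159904)) (a (l 16198616) (b (l 16333672) (l 16289352)))) (c (a (a (b (l 16198120) (l 16129120)) (b (l 16244872) (l 16135768))) (a (a (l 16163560) (l 16167208)) (b (l 16341448) (a (l 16286256) (l 16290848))))) (a (a (l 16290296) (l 16304744)) (a (l 16319480) (b (l 16447936) (l 16410312)))))))))), by decide +kernel⟩

def k4_pp_102 : ∃ t, chk3 f_pp_102 t 7 6 1 = true :=
  ⟨(a (b (a (b (l 15212864) (l 15494744)) (b (a (l 15099664) (l 15061512)) (l 15347120))) (a (b (l 15675288) (a (l 15963896) (l 16030536))) (b (l 15545752) (a (l 15953648) (l 15877496))))) (b (a (b (a (l 15045664) (l 15028736)) (a (l 15240368) (l 15213992))) (b (l 15003424) (l 15179896))) (a (b (a (l 15520712) (l 15443360)) (a (l 15802680) (l 15729936))) (b (a (b (l 15342192) (l 15453744)) (l 15375944)) (a (l 15660256) (b (l 15542024) (l 15557616))))))), by decide +kernel⟩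

def k5_pp_102 : ∃ t, chk3 f_pp_102 t 14 7 1 = true :=
  ⟨(b (a (b (a (b (l 16268024) (l 16368120)) (b (l 16202680) (l 16339096))) (c (l 16521536) (l 16414552))) (b (b (l 15962072) (a (l 16217136) (l 16235520))) (b (a (l 16395008) (l 16231416)) (c (l 16501000) (l 16424720))))) (b (a (b (l 16379344) (a (l 16373848) (l 16435856))) (b (b (l 16421296) (l 16422816)) (c (l 16427984) (l 16468104)))) (b (a (a (b (l 16352128) (l 16350960)) (b (l 16392960) (l 16391992))) (a (b (l 16435832) (a (l 16465088) (l 16465144))) (b (l 16501632) (a (l 16486656) (l 16508784))))) (b (a (c (a (l 16370168) (l 16399768)) (a (l 16483008) (l 16518088))) (a (a (l 16427824) (l 16449328)) (a (l 16470808) (l 16492344)))) (a (c (a (a (l 16316624) (l 16342624)) (a (l 16347896) (l 16374224))) (a (l 16426208) (l 16442088))) (a (c (a (l 16379648) (b (l 16493728) (l 16444256))) (b (l 16543984) (l 16517704))) (c (a (b (l 16519984) (l 16470792)) (l 140429177899925551)) (a (l 16567824) (l 16564368))))))))),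 by decide +kernel⟩

def k6_pp_102 : ∃ t, chk3 f_pp_102 t 15 7 1 = true :=
  ⟨(b (a (b (a (l 15918112) (b (l 15940536) (l 16080952))) (a (b (l 16195352) (a (l 16429136) (l 16347504))) (b (l 16221080) (a (l 16360840) (l 16342056))))) (b (a (l 134234115877568623) (b (l 15801880) (l 15940016))) (a (b (l 16105112) (a (l 16304384) (l 16266664))) (a (b (l 16093248) (l 16229536)) (b (l 16057176) (l 16162840)))))) (a (b (b (a (l 16514808) (a (l 16409104) (b (l 16447856) (l 16504504)))) (a (l 16459672) (c (l 16584056) (l 16522688)))) (b (a (a (l 140150863979298863) (l 140406569242935343)) (b (l 16533184) (l 141142898484232239))) (a (b (b (l 140748723523387439) (l 140936465120280623)) (b (l 140573832429322287) (a (l 140624478649581615) (a (l 141168668262350895) (l 141286316027953199))))) (b (a (l 141323699447300143) (l 141425266881871919)) (b (b (l 141436330673274927) (l 141240823754604591)) (b (a (l 141646543602794543) (l 141882801206050863)) (c (a (l 141471171518513199) (a (l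 16613720) (l 16605648))) (l 142053569129971759)))))))) (b (a (b (a (b (l 16408520) (l 16478824)) (l 139478031382691951)) (a (b (a (l 16485392) (l 16514856)) (a (l 16595696) (l 16590352))) (b (l 16486448) (l 140767690148577391)))) (b (a (l 139204596496957551) (b (l 16280344) (a (l 16359240) (l 16334648)))) (a (a (l 140591836878438511) (b (l 16451536) (l 16502040))) (b (a (l 16427960) (l 6)) (l 6))))) (a (a (b (l 141400527789457647) (b (b (l 16653456) (l 142063189867233519)) (b (l 142013093350588655) (l 6)))) (b (b (l 141418601068150895) (l 142216915332759663)) (l 6))) (b (l 6) (l 6)))))), by decide +kernel⟩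

theorem s7_pp_102 : ∃ t, chk3 f_pp_102 t 7 7 1 = true := ex3_a k5_pp_102 k6_pp_102

theorem s8_pp_102 : ∃ t, chk3 f_pp_102 t 7 3 1 = true := ex3_b k4_pp_102 s7_pp_102

theorem s9_pp_102 : ∃ t, chk3 f_pp_102 t 3 3 1 = true := ex3_a k3_pp_102 s8_pp_102

theorem s10_pp_102 : ∃ t, chk3 f_pp_102 t 3 1 1 = true := ex3_b k2_pp_102 s9_pp_102

theorem s11_pp_102 : ∃ t, chk3 f_pp_102 t 2 1 1 = true := ex3_a k0_pp_102 k1_pp_102

theorem s12_pp_102 : ∃ t, chk3 f_pp_102 t 1 1 1 = true := ex3_a s11_pp_102 s10_pp_102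

theorem c_pp_102 : CertB 536870912 536870912 0 536870912 1020054732 13421774 3 eng mog cd3q1 cd0q2 pd0 false true true .npp 1 0 2
    ndB3q1 ndB0q2 pcB0 cut_pp_102 xt_pp_102 :=
  certB0 (fam := false) (s1 := true) (s2 := true) (a := 1) (b := 0) (c := 2) (cn := .npp) (n1 := ndB3q1) (n2 := ndB0q2) (pc := pcB0) (cut := cut_pp_102) (xt := xt_pp_102) (P1 := 536870912) (W1 := 536870912) (P2 := 0) (W2 := 536870912) (P3 := 1020054732) (W3 := 13421774) (N0 := 3) (En := eng) (mo := mog) (C1 := cd3q1) (C2 := cd0q2) (C3 := pd0)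
    rfl s12_pp_102

noncomputable def f_pp_112 : ℕ → ℕ → ℕ → ℕ → Bool := onCell 536870912 536870912 0 536870912 1020054732 13421774
    (rowB 3 eng mog cd3q1 cd0q2 pd1 2 false true true .dn 1 1 2 (qsf 536870912 536870912 0 536870912 1) ndB3q1 ndB0q2 pcB1 Cut.none Ext.none)

def k0_pp_112 : ∃ t, chk3 f_pp_112 t 1 1 1 = true :=
  ⟨(a (b (a (b (c (b (a (a (l 16589448) (l 16634720)) (a (l 16627584) (l 16585376))) (a (l 16362808) (l 16429416))) (a (b (a (l 15985096) (l 16034272)) (l 16014184)) (b (l 15821104) (l 16061280)))) (a (b (c (a (l 16237128) (l 16245736)) (l 15988456)) (b (a (l 16008032) (l 16047792)) (c (a (l 15965264) (l 16027936)) (l 15884600)))) (b (c (l 16044096) (l 16069736)) (a (b (l 16085496) (l 15909000)) (c (l 15985464) (l 16134416)))))) (a (b (c (b (l 16496064) (l 16314104)) (l 182567745255)) (a (b (l 16023008) (c (l 16062320) (l 16183232))) (l 1))) (l 1))) (b (a (c (a (b (a (b (l 16051304) (l 16295872)) (l 16182416)) (b (a (l 16516032) (l 16523808)) (a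 (l 16245816) (l 16244968)))) (b (a (l 16292416) (l 16358024)) (a (b (l 16487712) (l 16226104)) (l 980895357751)))) (a (b (b (l 15817088) (l 16198936)) (a (b (l 16300784) (l 16439056)) (l 16161584))) (b (a (l 16236328) (l 16280608)) (b (l 16332984) (l 16199160))))) (l 1)) (a (b (a (b (c (a (l 15738992) (l 15755936)) (c (l 16148792) (l 16386000))) (c (b (a (l 15718656) (l 15707808)) (a (b (l 15591336) (l 15554120)) (l 15418464))) (c (b (l 16033152) (l 15929872)) (b (l 16252256) (l 16166464))))) (a (b (c (l 15797888) (l 16279400)) (l 1)) (l 1))) (a (b (a (c (b (l 15541824) (l 15520504)) (c (l 15851904) (l 16071000))) (a (b (l 82172213223) (l 1)) (l 1))) (a (b (c (l 15386656) (l 15777184)) (a (c (b (l 15471440) (l 15457952)) (l 15588832)) (l 1))) (l 1))) (l 1))) (l 1)))) (l 1)), by decide +kernel⟩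

theorem c_pp_112 : CertB 536870912 536870912 0 536870912 1020054732 13421774 3 eng mog cd3q1 cd0q2 pd1 false true true .dn 1 1 2
    ndB3q1 ndB0q2 pcB1 Cut.none Ext.none :=
  certB2 (fam := false) (s1 := true) (s2 := true) (a := 1) (b := 1) (c := 2) (cn := .dn) (n1 := ndB3q1) (n2 := ndB0q2) (pc := pcB1) (cut := Cut.none) (xt := Ext.none) (P1 := 536870912) (W1 := 536870912) (P2 := 0) (W2 := 536870912) (P3 := 1020054732) (W3 := 13421774) (N0 := 3) (En := eng) (mo := mog) (C1 := cd3q1) (C2 := cd0q2) (C3 := pd1)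
    rfl (fun _ => rfl) k0_pp_112

noncomputable def f_pp_202 : ℕ → ℕ → ℕ → ℕ → Bool := onCell 1073741824 536870912 0 536870912 1020054732 13421774
    (rowB 3 eng mog cd3q2 cd0q2 pd0 0 false true true .pp 2 0 2 (qsf 1073741824 536870912 0 536870912 0) ndB3q2 ndB0q2 pcB0 Cut.none Ext.none)

def k0_pp_202 : ∃ t, chk3 f_pp_202 t 1 1 1 = true :=
  ⟨(l 3), by decide +kernel⟩

theorem c_pp_202 : CertB 1073741824 536870912 0 536870912 1020054732 13421774 3 eng mog cd3q2 cd0q2 pd0 false true true .pp 2 0 2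
    ndB3q2 ndB0q2 pcB0 Cut.none Ext.none :=
  certB0 (fam := false) (s1 := true) (s2 := true) (a := 2) (b := 0) (c := 2) (cn := .pp) (n1 := ndB3q2) (n2 := ndB0q2) (pc := pcB0) (cut := Cut.none) (xt := Ext.none) (P1 := 1073741824) (W1 := 536870912) (P2 := 0) (W2 := 536870912) (P3 := 1020054732) (W3 := 13421774) (N0 := 3) (En := eng) (mo := mog) (C1 := cd3q2) (C2 := cd0q2) (C3 := pd0)
    rfl k0_pp_202

noncomputable def f_pm_001 : ℕ → ℕ → ℕ → ℕ → Bool := onCell 0 536870912 0 536870912 1020054732 13421774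
    (rowB 3 eng mog cd3q0 cd0q1 pd0 1 false true false .up 0 0 1 (qsf 0 536870912 536870912 536870912 0) ndB3q0 ndB0q1 pcB0 Cut.none Ext.none)

def k0_pm_001 : ∃ t, chk3 f_pm_001 t 1 1 1 = true :=
  ⟨(a (l 4) (l 4)), by decide +kernel⟩

theorem c_pm_001 : CertB 0 536870912 536870912 536870912 1020054732 13421774 3 eng mog cd3q0 cd0q1 pd0 false true false .up 0 0 1
    ndB3q0 ndB0q1 pcB0 Cut.none Ext.none :=
  certB1 (fam := false) (s1 := true) (s2 := false) (a := 0) (b := 0) (c := 1) (cn := .up) (n1 := ndB3q0) (n2 := ndB0q1) (pc := pcB0) (cut := Cut.none) (xt := Ext.none) (P1 := 0) (W1 := 536870912) (P2 := 536870912) (W2 := 536870912) (P3 := 1020054732) (W3 := 13421774) (N0 := 3) (En := eng) (mo := mog) (C1 := cd3q0) (C2 := cd0q1) (C3 := pd0)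
    rfl (fun _ => rfl) k0_pm_001

noncomputable def f_pm_011 : ℕ → ℕ → ℕ → ℕ → Bool := onCell 0 536870912 536870912 536870912 1020054732 13421774
    (rowB 3 eng mog cd3q0 cd0q1 pd1 0 false true false .pnn 0 1 1 (qsf 0 536870912 536870912 536870912 1) ndB3q0 ndB0q1 pcB1 Cut.none Ext.none)

def k0_pm_011 : ∃ t, chk3 f_pm_011 t 1 1 1 = true :=
  ⟨(a (b (l 4) (a (l 4) (l 4))) (l 4)), by decide +kernel⟩

theorem c_pm_011 : CertB 0 536870912 536870912 536870912 1020054732 13421774 3 eng mog cd3q0 cd0q1 pd1 false true false .pnn 0 1 1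
    ndB3q0 ndB0q1 pcB1 Cut.none Ext.none :=
  certB0 (fam := false) (s1 := true) (s2 := false) (a := 0) (b := 1) (c := 1) (cn := .pnn) (n1 := ndB3q0) (n2 := ndB0q1) (pc := pcB1) (cut := Cut.none) (xt := Ext.none) (P1 := 0) (W1 := 536870912) (P2 := 536870912) (W2 := 536870912) (P3 := 1020054732) (W3 := 13421774) (N0 := 3) (En := eng) (mo := mog) (C1 := cd3q0) (C2 := cd0q1) (C3 := pd1)
    rfl k0_pm_011

noncomputable def xt_pm_012 : Ext := extD3 3 ⟨4, 1, 1, 5, 99, 20, 33, 40, 51, 125, 1, 32⟩ eng cd3q0 cd0q2 pd1 false true false .pnp 0 1 2 rfl ndB3q0 ndB0q2 pcB1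

noncomputable def f_pm_012 : ℕ → ℕ → ℕ → ℕ → Bool := onCell 536870912 536870912 0 536870912 1020054732 13421774
    (rowB 3 eng mog cd3q0 cd0q2 pd1 2 false true false .pnp 0 1 2 (qsf 0 536870912 0 536870912 1) ndB3q0 ndB0q2 pcB1 Cut.none xt_pm_012)

def k0_pm_012 : ∃ t, chk3 f_pm_012 t 2 1 1 = true :=
  ⟨(b (a (a (l 2) (b (l 2) (b (l 2) (l 14112200)))) (b (a (b (a (l 14417888) (l 14583400)) (a (l 14383992) (b (l 14524704) (l 14359152)))) (b (c (l 14592880) (l 14568920)) (a (b (l 14560928) (l 14439344)) (b (l 14577448) (l 14531520))))) (a (b (b (l 14176152) (a (l 14053360) (l 14070536))) (l 14104216)) (b (a (b (l 14278000) (l 14125472)) (l 14302064)) (a (l 14127832) (l 14098000)))))) (b (a (l 4) (a (l 4) (b (l 14292648) (l 4)))) (l 4))), by decide +kernel⟩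

def k1_pm_012 : ∃ t, chk3 f_pm_012 t 3 2 1 = true :=
  ⟨(a (b (a (a (b (l 14629048) (a (l 14576952) (l 14603976))) (b (l 14700304) (l 14647128))) (a (b (l 14802360) (l 14721888)) (b (l 14934608) (l 14827016)))) (b (b (a (a (l 14404736) (l 14347544)) (l 14601920)) (a (a (l 14347008) (l 14500392)) (a (a (l 14619936) (l 14673864)) (a (l 14725064) (l 14781496))))) (a (b (a (l 14236712) (l 14179248)) (a (l 14268768) (l 14331400))) (a (b (l 14523528) (a (l 14405400) (l 14473320))) (b (a (l 14675112) (l 14749640)) (a (l 14559432) (l 14647040))))))) (a (b (a (b (l 15096072) (l 14961824)) (b (l 15285368) (l 15125272))) (b (a (l 14879864) (l 15022536)) (b (a (a (b (l 14826616) (l 14814080)) (l 14884160)) (l 14985032)) (a (a (l 14767496) (b (l 14871976) (l 14854720))) (a (b (l 14947600) (a (l 14926240) (l 14965824))) (l 15020024)))))) (b (a (b (l 15500608) (l 15315904)) (a (l 15579824) (l 15699336))) (a (b (l 15193624) (l 15142712)) (b (l 15391616) (l 15328296)))))), by decide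 +kernel⟩

def k2_pm_012 : ∃ t, chk3 f_pm_012 t 3 3 1 = true :=
  ⟨(a (b (b (a (l 14352176) (a (l 14571336) (b (a (l 14568648) (l 14632248)) (l 14731288)))) (l 4)) (l 4)) (b (a (b (b (a (a (l 14705320) (b (l 14798224) (l 14781720))) (b (a (l 14929064) (a (l 15003408) (l 15049080))) (a (l 14893472) (a (l 14983456) (l 15047960))))) (b (a (l 14791160) (a (l 14890520) (a (l 14957296) (l 15014112)))) (a (l 14874352) (a (l 14959704) (l 15013952))))) (a (l 4) (a (l 4) (l 15221528)))) (a (b (b (a (a (b (l 15086752) (b (l 15096496) (l 15097784))) (l 15133304)) (l 15196016)) (a (b (a (l 15090464) (b (l 15147448) (l 15152192))) (l 125485643748491327)) (c (a (l 15099704) (l 15242240)) (l 15201000)))) (b (a (l 126757710213693503) (l 127985658748420159)) (l 4))) (b (a (l 15305632) (l 15402480)) (b (a (a (b (l 15330808) (l 128777582139588863)) (b (l 15391200) (l 129239926843228287))) (l 15478240)) (a (l 130150803693486207) (a (a (l 15480568) (l 15579272)) (l 15609776))))))) (a (l 4)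 (b (a (l 4) (b (l 4) (l 4))) (l 4))))), by decide +kernel⟩

theorem s3_pm_012 : ∃ t, chk3 f_pm_012 t 3 1 1 = true := ex3_b k1_pm_012 k2_pm_012

theorem s4_pm_012 : ∃ t, chk3 f_pm_012 t 1 1 1 = true := ex3_a k0_pm_012 s3_pm_012

theorem c_pm_012 : CertB 0 536870912 0 536870912 1020054732 13421774 3 eng mog cd3q0 cd0q2 pd1 false true false .pnp 0 1 2
    ndB3q0 ndB0q2 pcB1 Cut.none xt_pm_012 :=
  certB2 (fam := false) (s1 := true) (s2 := false) (a := 0) (b := 1) (c := 2) (cn := .pnp) (n1 := ndB3q0) (n2 := ndB0q2) (pc := pcB1) (cut := Cut.none) (xt := xt_pm_012) (P1 := 0) (W1 := 536870912) (P2 := 0) (W2 := 536870912) (P3 := 1020054732) (W3 := 13421774) (N0 := 3) (En := eng) (mo := mog) (C1 := cd3q0) (C2 := cd0q2) (C3 := pd1)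
    rfl (fun _ => rfl) s4_pm_012

noncomputable def f_pm_022 : ℕ → ℕ → ℕ → ℕ → Bool := onCell 0 536870912 0 536870912 1020054732 13421774
    (rowB 3 eng mog cd3q0 cd0q2 pd2 0 false true false .pp 0 2 2 (qsf 0 536870912 0 536870912 2) ndB3q0 ndB0q2 pcB2 Cut.none Ext.none)

def k0_pm_022 : ∃ t, chk3 f_pm_022 t 2 2 1 = true :=
  ⟨(a (b (a (a (a (b (l 15830848) (b (l 15780232) (l 15813504))) (a (b (l 15769864) (l 15759720)) (b (l 15727880) (a (l 15738560) (l 15725320))))) (a (b (a (l 15710224) (l 15709776)) (a (l 15727424) (l 15737408))) (b (l 15710248) (l 15747864)))) (a (b (a (l 15684768) (l 15651872)) (l 15691352)) (b (l 15446056) (l 15551200)))) (a (a (a (b (l 15965024) (l 16116440)) (a (b (l 15922024) (l 16086960)) (b (l 15884888) (l 15988400)))) (a (b (a (l 15867648) (l 15862496)) (a (l 15994496) (l 15970472))) (b (l 15823288) (a (l 15942824) (l 15901176))))) (a (b (l 15645600) (a (l 15810640) (l 15674264))) (b (l 15508832) (l 15359720))))) (a (a (b (b (l 15476336)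 (l 15356192)) (b (l 15236480) (l 15009880))) (b (b (l 1) (l 1)) (l 1))) (l 1))), by decide +kernel⟩

def k1_pm_022 : ∃ t, chk3 f_pm_022 t 2 3 1 = true :=
  ⟨(a (b (a (a (a (b (b (l 16287192) (l 16341864)) (b (l 16320448) (a (l 16477584) (l 16422200)))) (b (a (l 16223472) (a (l 16165520) (l 16124960))) (a (b (l 16293128) (l 16317696)) (b (l 16193656) (a (l 16234720) (l 16177720)))))) (b (a (a (l 16085536) (l 16039936)) (a (l 15990672) (l 15927488))) (a (b (a (l 16116928) (l 16054560)) (a (l 16117048) (l 16044504))) (b (l 15929032) (a (l 15970040) (l 15881760)))))) (b (a (a (l 15804632) (l 15627992)) (a (l 15437784) (l 15235360))) (a (b (a (l 15765552) (l 15558808)) (a (l 15723104) (l 15508064))) (b (a (l 15339096) (l 1)) (l 1))))) (a (b (a (a (b (a (l 16542992) (l 16442480)) (a (b (l 16566544) (l 16550008)) (b (l 16446008) (l 16449144)))) (a (b (l 16324608) (b (l 16320344) (l 16328688))) (b (a (l 16232552) (l 16169864)) (a (l 115660825335) (l 114586932823))))) (a (b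 (a (l 16039360) (l 15960944)) (a (a (l 113513151975) (l 4)) (l 4))) (b (a (l 15947512) (l 15861448)) (l 4)))) (a (a (b (b (a (l 16478720) (l 4)) (l 4)) (l 4)) (l 4)) (l 4))) (b (a (b (a (l 49624510167) (l 1)) (l 1)) (l 1)) (l 1)))) (b (l 1) (l 1))), by decide +kernel⟩

def k2_pm_022 : ∃ t, chk3 f_pm_022 t 3 1 1 = true :=
  ⟨(l 1), by decide +kernel⟩

theorem s3_pm_022 : ∃ t, chk3 f_pm_022 t 2 1 1 = true := ex3_b k0_pm_022 k1_pm_022

theorem s4_pm_022 : ∃ t, chk3 f_pm_022 t 1 1 1 = true := ex3_a s3_pm_022 k2_pm_022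

theorem c_pm_022 : CertB 0 536870912 0 536870912 1020054732 13421774 3 eng mog cd3q0 cd0q2 pd2 false true false .pp 0 2 2
    ndB3q0 ndB0q2 pcB2 Cut.none Ext.none :=
  certB0 (fam := false) (s1 := true) (s2 := false) (a := 0) (b := 2) (c := 2) (cn := .pp) (n1 := ndB3q0) (n2 := ndB0q2) (pc := pcB2) (cut := Cut.none) (xt := Ext.none) (P1 := 0) (W1 := 536870912) (P2 := 0) (W2 := 536870912) (P3 := 1020054732) (W3 := 13421774) (N0 := 3) (En := eng) (mo := mog) (C1 := cd3q0) (C2 := cd0q2) (C3 := pd2)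
    rfl s4_pm_022

noncomputable def f_pm_101 : ℕ → ℕ → ℕ → ℕ → Bool := onCell 536870912 536870912 536870912 536870912 1020054732 13421774
    (rowB 3 eng mog cd3q1 cd0q1 pd0 0 false true false .npn 1 0 1 (qsf 536870912 536870912 536870912 536870912 0) ndB3q1 ndB0q1 pcB0 Cut.none Ext.none)

def k0_pm_101 : ∃ t, chk3 f_pm_101 t 1 1 1 = true :=
  ⟨(l 4), by decide +kernel⟩

theorem c_pm_101 : CertB 536870912 536870912 536870912 536870912 1020054732 13421774 3 eng mog cd3q1 cd0q1 pd0 false true false .npn 1 0 1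
    ndB3q1 ndB0q1 pcB0 Cut.none Ext.none :=
  certB0 (fam := false) (s1 := true) (s2 := false) (a := 1) (b := 0) (c := 1) (cn := .npn) (n1 := ndB3q1) (n2 := ndB0q1) (pc := pcB0) (cut := Cut.none) (xt := Ext.none) (P1 := 536870912) (W1 := 536870912) (P2 := 536870912) (W2 := 536870912) (P3 := 1020054732) (W3 := 13421774) (N0 := 3) (En := eng) (mo := mog) (C1 := cd3q1) (C2 := cd0q1) (C3 := pd0)
    rfl k0_pm_101

noncomputable def f_pm_102 : ℕ → ℕ → ℕ → ℕ → Bool := onCell 0 536870912 0 536870912 1020054732 13421774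
    (rowB 3 eng mog cd3q1 cd0q2 pd0 2 false true false .npp 1 0 2 (qsf 536870912 536870912 0 536870912 0) ndB3q1 ndB0q2 pcB0 Cut.none Ext.none)

def k0_pm_102 : ∃ t, chk3 f_pm_102 t 1 1 1 = true :=
  ⟨(a (b (a (a (l 2) (a (l 2) (b (l 2) (l 250812363111)))) (a (b (b (l 206253050871) (l 13931552)) (b (l 13890048) (l 13889016))) (b (b (l 14351960) (l 14323504)) (b (l 14324928) (l 14359408))))) (b (l 4) (l 4))) (b (a (b (a (b (l 14637096) (l 14674744)) (b (l 14861760) (l 14797464))) (a (b (l 14712368) (l 14770568)) (b (l 15052904) (l 15119120)))) (b (a (b (l 15019848) (b (l 15190024) (l 15297824))) (b (l 15083688) (a (l 15403656) (l 15474664)))) (a (b (l 15349968) (l 15402576)) (b (a (l 15548208) (l 15665400)) (l 15390000))))) (l 4))), by decide +kernel⟩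

theorem c_pm_102 : CertB 536870912 536870912 0 536870912 1020054732 13421774 3 eng mog cd3q1 cd0q2 pd0 false true false .npp 1 0 2
    ndB3q1 ndB0q2 pcB0 Cut.none Ext.none :=
  certB2 (fam := false) (s1 := true) (s2 := false) (a := 1) (b := 0) (c := 2) (cn := .npp) (n1 := ndB3q1) (n2 := ndB0q2) (pc := pcB0) (cut := Cut.none) (xt := Ext.none) (P1 := 536870912) (W1 := 536870912) (P2 := 0) (W2 := 536870912) (P3 := 1020054732) (W3 := 13421774) (N0 := 3) (En := eng) (mo := mog) (C1 := cd3q1) (C2 := cd0q2) (C3 := pd0)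
    rfl (fun _ => rfl) k0_pm_102

noncomputable def f_pm_112 : ℕ → ℕ → ℕ → ℕ → Bool := onCell 536870912 536870912 0 536870912 1020054732 13421774
    (rowB 3 eng mog cd3q1 cd0q2 pd1 0 false true false .dn 1 1 2 (qsf 536870912 536870912 0 536870912 1) ndB3q1 ndB0q2 pcB1 Cut.none Ext.none)

def k0_pm_112 : ∃ t, chk3 f_pm_112 t 1 1 1 = true :=
  ⟨(a (b (a (b (a (b (c (a (l 16604448) (l 16608296)) (a (l 16007296) (l 16000408))) (c (l 16280992) (l 15792824))) (b (c (a (l 16552208) (l 16446096)) (l 15710648)) (c (l 16152968) (l 15693888)))) (b (a (b (c (l 16017688) (l 15615280)) (l 15554048)) (b (l 15489736) (l 15724096))) (a (l 15800224) (l 15754776)))) (a (b (b (c (l 16258824) (l 15745536)) (a (l 15800408) (l 1))) (b (l 16136834375) (l 15621480))) (l 1))) (b (l 4) (l 4))) (l 1)), by decide +kernel⟩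

theorem c_pm_112 : CertB 536870912 536870912 0 536870912 1020054732 13421774 3 eng mog cd3q1 cd0q2 pd1 false true false .dn 1 1 2
    ndB3q1 ndB0q2 pcB1 Cut.none Ext.none :=
  certB0 (fam := false) (s1 := true) (s2 := false) (a := 1) (b := 1) (c := 2) (cn := .dn) (n1 := ndB3q1) (n2 := ndB0q2) (pc := pcB1) (cut := Cut.none) (xt := Ext.none) (P1 := 536870912) (W1 := 536870912) (P2 := 0) (W2 := 536870912) (P3 := 1020054732) (W3 := 13421774) (N0 := 3) (En := eng) (mo := mog) (C1 := cd3q1) (C2 := cd0q2) (C3 := pd1)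
    rfl k0_pm_112

noncomputable def f_pm_202 : ℕ → ℕ → ℕ → ℕ → Bool := onCell 1073741824 536870912 0 536870912 1020054732 13421774
    (rowB 3 eng mog cd3q2 cd0q2 pd0 0 false true false .pp 2 0 2 (qsf 1073741824 536870912 0 536870912 0) ndB3q2 ndB0q2 pcB0 Cut.none Ext.none)

def k0_pm_202 : ∃ t, chk3 f_pm_202 t 2 2 1 = true :=
  ⟨(l 3), by decide +kernel⟩

def k1_pm_202 : ∃ t, chk3 f_pm_202 t 4 6 1 = true :=
  ⟨(l 3), by decide +kernel⟩

def k2_pm_202 : ∃ t, chk3 f_pm_202 t 8 14 1 = true :=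
  ⟨(l 3), by decide +kernel⟩

def k3_pm_202 : ∃ t, chk3 f_pm_202 t 16 120 1 = true :=
  ⟨(l 3), by decide +kernel⟩

def k4_pm_202 : ∃ t, chk3 f_pm_202 t 32 121 1 = true :=
  ⟨(b (b (l 3) (a (a (c (a (b (l 16692016) (l 16692168)) (c (l 16678496) (l 16673520))) (a (l 16688744) (l 54391544743))) (c (a (c (l 16673328) (l 16665064)) (b (l 16657064) (l 16657384))) (a (l 49559686935) (l 45264700151)))) (b (a (a (c (l 16649128) (l 16645760)) (c (l 16641296) (l 16636576))) (l 3)) (a (c (a (l 16649456) (l 16641608)) (a (l 16656328) (l 16647160))) (c (a (l 16639104) (l 71034449575)) (a (l 16638096) (c (l 16620560) (l 16616728)))))))) (c (a (a (b (a (l 16692648) (l 16684664)) (l 16689696)) (b (b (l 16672496) (l 16673200)) (l 16674408))) (b (a (a (l 16640232) (l 16653552)) (a (l 16645984) (l 16638504))) (a (l 16659448) (a (l 16648536) (l 16630800))))) (a (a (a (l 16693664) (l 16684504)) (b (a (l 16675160) (l 16666032)) (l 16671344))) (b (a (a (l 16656992) (l 16648032)) (a (l 16639168)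 (l 16625160))) (a (l 16653824) (a (l 16640960) (l 16627184))))))), by decide +kernel⟩

def k5_pm_202 : ∃ t, chk3 f_pm_202 t 33 242 1 = true :=
  ⟨(b (l 3) (b (l 3) (a (a (a (c (b (l 16623672) (l 16618912)) (b (l 31842835847) (l 16609960))) (a (c (l 16613088) (l 53854528807)) (c (l 16614648) (l 49559553159)))) (b (a (c (l 16603736) (c (l 16605656) (l 16589368))) (l 3)) (a (c (l 16611944) (c (l 16595440) (l 16589600))) (c (a (l 16588128) (l 16595024)) (c (l 16592472) (l 68886870679)))))) (b (l 3) (a (a (c (c (l 16593192) (l 16586208)) (c (l 52780738839) (a (l 16574144) (l 16569800)))) (c (a (l 16584440) (l 16570496)) (c (a (l 16573144) (l 16569200)) (a (l 16568120) (l 16563848))))) (b (l 3) (a (c (c (l 16569536) (l 16571760)) (a (c (l 16575792) (l 16557000)) (a (l 16558112) (l 16556104)))) (a (c (l 16560336) (a (l 16554104) (l 16552112))) (l 3))))))))), by decide +kernel⟩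

def k6_pm_202 : ∃ t, chk3 f_pm_202 t 66 243 1 = true :=
  ⟨(a (b (a (c (a (l 16611984) (l 16608304)) (b (l 16621192) (l 16622264))) (c (a (l 16615136) (l 16611512)) (b (l 16607288) (l 16613744)))) (a (b (l 16628400) (c (l 16634328) (l 16624112))) (b (c (l 16626224) (l 16615024)) (c (l 16626696) (l 16615216))))) (c (b (b (a (l 16605280) (b (l 16587160) (l 16588040))) (a (l 16617440) (a (l 16612128) (l 16587704)))) (b (a (l 16608296) (b (l 16611216) (l 16611336))) (a (l 16619064) (l 16611280)))) (b (b (a (a (l 16585128) (l 16591360)) (a (l 16587120) (l 16582904))) (a (l 16605320) (b (l 16596608) (l 16597384)))) (b (a (a (l 16587624) (l 16583240)) (a (l 16578800) (l 16574336))) (a (l 16606280) (l 16597224)))))), by decide +kernel⟩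

def k7_pm_202 : ∃ t, chk3 f_pm_202 t 134 243 1 = true :=
  ⟨(b (c (a (b (a (l 16582264) (l 16578736)) (b (l 16602952) (b (l 16603448) (l 16603512)))) (b (a (l 16585712) (a (l 16572616) (l 16570896))) (b (a (l 16576624) (l 16572840)) (l 16595856)))) (a (b (a (b (l 16578336) (l 16589600)) (c (l 16578256) (l 16570832))) (b (a (l 16590392) (l 16565328)) (a (l 16570024) (l 16565592)))) (b (b (a (l 16569992) (b (l 16565640) (l 16555592))) (a (l 16560352) (l 16566744))) (b (a (l 16571584) (a (l 16557840) (l 16555616))) (a (l 16582104) (l 16577560)))))) (b (a (c (l 16603576) (l 16578096)) (a (a (l 16569880) (l 16567768)) (a (c (l 16574040) (l 16568104)) (b (l 16584592) (c (l 16572408) (l 16555704)))))) (a (a (l 16597968) (b (l 16593816) (c (l 16580920) (l 16565240)))) (a (b (c (l 16577104) (l 16571456)) (a (l 16591744) (l 16590864))) (a (b (l 16587832) (l 16589872)) (l 16587856)))))), by decide +kernel⟩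

def k8_pm_202 : ∃ t, chk3 f_pm_202 t 135 972 1 = true :=
  ⟨(b (a (a (c (l 16567760) (a (l 16562776) (l 16560728))) (c (a (l 16586136) (l 16563448)) (a (l 16558680) (b (l 16556408) (l 16567368))))) (a (c (b (l 16560608) (a (l 16583000) (c (l 16564592) (l 16566216)))) (b (a (l 16554376) (l 16552352)) (a (l 16554872) (b (l 16542232) (l 16552840))))) (c (a (b (l 16558168) (a (l 16558752) (l 16568296))) (b (l 16566936) (a (l 16556904) (l 16556200)))) (a (b (b (l 16550216) (l 16550448)) (b (a (l 16540688) (a (l 16560856) (l 16560296))) (l 16550616))) (b (c (b (l 16542520) (l 16553056)) (b (l 16543632) (a (l 16544240) (l 16543104)))) (a (a (b (l 16549160) (l 16559704)) (l 16548736)) (c (l 16542280) (l 16543336)))))))) (a (a (c (b (l 16589528) (l 16568968)) (b (l 16551952) (a (l 16574376) (l 16551232)))) (c (b (c (l 16569296) (l 16560784)) (a (l 16587120) (l 16585216))) (b (a (l 16548904) (l 16557256)) (a (l 16569976) (l 16567736))))) (a (a (a (b (a (l 16554272) (l 16553752))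 (l 16553976)) (b (a (l 16553232) (l 16552728)) (l 16552912))) (c (l 16571008) (b (l 16542328) (a (l 16563776) (c (l 16567368) (l 16547688)))))) (a (c (b (l 16558560) (l 16558928)) (b (a (l 16551152) (c (l 16544328) (l 16545504))) (a (l 16551464) (l 16561360)))) (c (l 16557472) (a (b (l 16549392) (l 16560752)) (l 16559712))))))), by decide +kernel⟩

def k9_pm_202 : ∃ t, chk3 f_pm_202 t 135 973 1 = true :=
  ⟨(a (a (b (c (l 16590056) (l 16552272)) (c (l 16569088) (l 16562592))) (a (b (c (l 16587120) (l 16569832)) (c (b (l 16587152) (l 16587392)) (a (l 16549384) (l 16548440)))) (b (c (l 16564320) (a (l 16568120) (l 16546120))) (b (a (l 16556104) (l 16555448)) (l 16577600))))) (a (b (c (a (b (l 16562352) (l 16562632)) (l 16561160)) (a (b (a (l 16565912) (l 16543928)) (a (l 16545144) (l 16565480))) (a (b (l 16553552) (l 16564912)) (l 16563872)))) (c (l 16584336) (l 16545584))) (c (l 16560320) (a (l 16542840) (l 16541504))))), by decide +kernel⟩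

def k10_pm_202 : ∃ t, chk3 f_pm_202 t 135 487 1 = true :=
  ⟨(a (a (b (b (a (c (l 16570184) (l 16553232)) (c (l 16579072) (b (l 16551112) (l 16572912)))) (l 16562480)) (l 16565216)) (c (l 16590528) (l 16560392))) (c (a (l 16588056) (l 16585288)) (a (b (l 16548160) (l 16572272)) (l 16546680)))), by decide +kernel⟩

def k11_pm_202 : ∃ t, chk3 f_pm_202 t 32 61 1 = true :=
  ⟨(b (a (b (a (b (a (l 16694456) (l 16686416)) (c (l 16692280) (l 16690296))) (b (c (l 16676304) (l 16672416)) (c (l 16677376) (l 16672840)))) (a (c (l 16694032) (l 16691008)) (c (l 16678368) (l 16672856)))) (b (a (b (c (a (l 16665064) (l 16657464)) (a (l 16659352) (l 16650528))) (c (l 16661888) (l 16654856))) (b (a (c (l 16649792) (l 16641624)) (c (l 16642256) (l 16632760))) (a (l 16645592) (l 16637192)))) (a (a (b (l 16662608) (l 16662464)) (b (l 16653872) (c (l 16659232) (l 16629416)))) (b (a (l 16645336) (b (l 16636976) (a (l 16639504) (l 16636328)))) (a (b (a (l 16647784) (l 16644536)) (l 16629008))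 (a (l 16624464) (l 16644520))))))) (a (a (b (a (l 16698224) (b (l 16689224) (l 16690504))) (b (a (b (l 16699672) (l 16702376)) (b (l 16693264) (l 16700376))) (l 16691352))) (b (b (a (l 16680416) (b (l 16671400) (l 16672280))) (a (b (l 16681384) (l 16684192)) (b (l 16675176) (l 16682160)))) (a (l 16680744) (l 16678080)))) (b (a (b (a (b (l 16642376) (l 16645504)) (b (l 16658176) (l 16665000))) (a (l 16676824) (l 16674456))) (c (l 16646688) (b (l 16653920) (l 16665624)))) (a (a (l 16674912) (l 16691832)) (a (l 16686768) (l 16680616)))))), by decide +kernel⟩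

def k12_pm_202 : ∃ t, chk3 f_pm_202 t 33 61 1 = true :=
  ⟨(b (a (b (a (b (a (c (l 16634520) (l 16623760)) (c (l 16626760) (l 16614728))) (a (c (l 16634568) (l 16623128)) (b (a (l 16622568) (l 16618504)) (a (l 16602120) (b (l 16619096) (l 16621288)))))) (b (a (a (l 16614472) (b (l 16610376) (l 16610392))) (b (a (l 16606160) (b (l 16602000) (l 16581232))) (a (b (l 16606256) (l 16586104)) (a (l 16583640) (l 16603832))))) (a (b (a (b (l 16614376) (l 16615072)) (b (l 16611064) (l 16613352))) (l 16617816)) (c (l 16618712) (l 16605032))))) (a (b (a (b (a (l 16631272) (l 16607224)) (l 16612760)) (l 16607584)) (a (l 16642288) (l 16638424))) (a (b (l 16603936) (l 16633496)) (b (l 16620184) (l 16627416))))) (b (a (a (b (a (b (c (l 16595824) (b (l 16569512) (l 16570544))) (l 16602496)) (b (a (b (l 16595680) (l 16597872)) (l 16595872)) (l 16600464))) (c (l 16614432) (l 16600296))) (b (c (l 16602848) (l 16566328)) (c (l 16609064) (l 16594312)))) (a (b (c (l 16597680) (l 16565816))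 (c (l 16602504) (l 16586968))) (b (c (l 16591320) (l 16574424)) (l 1)))) (a (a (b (l 16614304) (l 16620072)) (b (l 16607160) (l 16611368))) (l 1)))) (a (b (a (a (l 16636184) (l 16630400)) (a (l 16623416) (l 16615136))) (a (a (l 16673272) (l 16664656)) (a (l 16654656) (l 16643128)))) (a (b (a (l 16605448) (l 1)) (l 1)) (l 1)))), by decide +kernel⟩

def k13_pm_202 : ∃ t, chk3 f_pm_202 t 16 31 1 = true :=
  ⟨(a (b (b (a (a (b (a (l 16713928) (l 16710592)) (l 16736368)) (b (l 16683760) (l 16725920))) (a (b (l 16693856) (l 16709920)) (b (l 16678488) (l 16688736)))) (b (a (a (l 16741416) (l 16750376)) (a (l 16741392) (l 16692696))) (a (a (l 16730344) (l 16744864)) (a (l 16744672) (b (l 16692056) (l 1)))))) (a (b (a (b (l 16703800) (a (l 16718264) (l 16708856))) (b (l 16702072) (a (l 16742192) (l 16751280)))) (a (b (l 16703408) (l 16717424)) (l 16736760))) (b (a (b (a (l 16755120) (l 16739000)) (l 1)) (l 1)) (l 1)))) (b (a (b (a (b (l 16657856) (l 16682400)) (b (l 16630992)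 (l 1))) (l 1)) (l 1)) (l 1))), by decide +kernel⟩

def k14_pm_202 : ∃ t, chk3 f_pm_202 t 17 15 1 = true :=
  ⟨(b (a (b (b (l 3) (a (a (b (l 3) (a (b (a (a (b (b (c (b (a (l 16555080) (l 16554264)) (l 16555256)) (b (a (c (l 16551552) (b (l 16542008) (l 16544024))) (b (a (l 16545992) (l 66202431607)) (l 16546104))) (a (l 16547336) (l 1)))) (c (l 16577360) (l 16537784))) (l 1)) (l 1)) (l 1)) (l 1)) (l 1))) (l 1)) (l 1))) (l 1)) (l 1)) (l 1)), by decide +kernel⟩

def k15_pm_202 : ∃ t, chk3 f_pm_202 t 9 7 1 = true :=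
  ⟨(b (l 3) (l 1)), by decide +kernel⟩

def k16_pm_202 : ∃ t, chk3 f_pm_202 t 5 3 1 = true :=
  ⟨(b (l 1) (l 1)), by decide +kernel⟩

def k17_pm_202 : ∃ t, chk3 f_pm_202 t 3 1 1 = true :=
  ⟨(l 1), by decide +kernel⟩

theorem s18_pm_202 : ∃ t, chk3 f_pm_202 t 16 61 1 = true := ex3_a k11_pm_202 k12_pm_202

theorem s19_pm_202 : ∃ t, chk3 f_pm_202 t 135 486 1 = true := ex3_b k8_pm_202 k9_pm_202

theorem s20_pm_202 : ∃ t, chk3 f_pm_202 t 135 243 1 = true := ex3_b s19_pm_202 k10_pm_202

theorem s21_pm_202 : ∃ t, chk3 f_pm_202 t 67 243 1 = true := ex3_a k7_pm_202 s20_pm_202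

theorem s22_pm_202 : ∃ t, chk3 f_pm_202 t 33 243 1 = true := ex3_a k6_pm_202 s21_pm_202

theorem s23_pm_202 : ∃ t, chk3 f_pm_202 t 33 121 1 = true := ex3_b k5_pm_202 s22_pm_202

theorem s24_pm_202 : ∃ t, chk3 f_pm_202 t 16 121 1 = true := ex3_a k4_pm_202 s23_pm_202

theorem s25_pm_202 : ∃ t, chk3 f_pm_202 t 16 60 1 = true := ex3_b k3_pm_202 s24_pm_202

theorem s26_pm_202 : ∃ t, chk3 f_pm_202 t 16 30 1 = true := ex3_b s25_pm_202 s18_pm_202

theorem s27_pm_202 : ∃ t, chk3 f_pm_202 t 16 15 1 = true := ex3_b s26_pm_202 k13_pm_202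

theorem s28_pm_202 : ∃ t, chk3 f_pm_202 t 8 15 1 = true := ex3_a s27_pm_202 k14_pm_202

theorem s29_pm_202 : ∃ t, chk3 f_pm_202 t 8 7 1 = true := ex3_b k2_pm_202 s28_pm_202

theorem s30_pm_202 : ∃ t, chk3 f_pm_202 t 4 7 1 = true := ex3_a s29_pm_202 k15_pm_202

theorem s31_pm_202 : ∃ t, chk3 f_pm_202 t 4 3 1 = true := ex3_b k1_pm_202 s30_pm_202

theorem s32_pm_202 : ∃ t, chk3 f_pm_202 t 2 3 1 = true := ex3_a s31_pm_202 k16_pm_202

theorem s33_pm_202 : ∃ t, chk3 f_pm_202 t 2 1 1 = true := ex3_b k0_pm_202 s32_pm_202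

theorem s34_pm_202 : ∃ t, chk3 f_pm_202 t 1 1 1 = true := ex3_a s33_pm_202 k17_pm_202

theorem c_pm_202 : CertB 1073741824 536870912 0 536870912 1020054732 13421774 3 eng mog cd3q2 cd0q2 pd0 false true false .pp 2 0 2
    ndB3q2 ndB0q2 pcB0 Cut.none Ext.none :=
  certB0 (fam := false) (s1 := true) (s2 := false) (a := 2) (b := 0) (c := 2) (cn := .pp) (n1 := ndB3q2) (n2 := ndB0q2) (pc := pcB0) (cut := Cut.none) (xt := Ext.none) (P1 := 1073741824) (W1 := 536870912) (P2 := 0) (W2 := 536870912) (P3 := 1020054732) (W3 := 13421774) (N0 := 3) (En := eng) (mo := mog) (C1 := cd3q2) (C2 := cd0q2) (C3 := pd0)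
    rfl s34_pm_202

noncomputable def f_mm_001 : ℕ → ℕ → ℕ → ℕ → Bool := onCell 0 536870912 536870912 536870912 1020054732 13421774
    (rowB 3 eng mog cd3q0 cd0q1 pd0 0 false false false .up 0 0 1 (qsf 0 536870912 536870912 536870912 0) ndB3q0 ndB0q1 pcB0 Cut.none Ext.none)

def k0_mm_001 : ∃ t, chk3 f_mm_001 t 1 1 1 = true :=
  ⟨(l 5), by decide +kernel⟩

theorem c_mm_001 : CertB 0 536870912 536870912 536870912 1020054732 13421774 3 eng mog cd3q0 cd0q1 pd0 false false false .up 0 0 1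
    ndB3q0 ndB0q1 pcB0 Cut.none Ext.none :=
  certB0 (fam := false) (s1 := false) (s2 := false) (a := 0) (b := 0) (c := 1) (cn := .up) (n1 := ndB3q0) (n2 := ndB0q1) (pc := pcB0) (cut := Cut.none) (xt := Ext.none) (P1 := 0) (W1 := 536870912) (P2 := 536870912) (W2 := 536870912) (P3 := 1020054732) (W3 := 13421774) (N0 := 3) (En := eng) (mo := mog) (C1 := cd3q0) (C2 := cd0q1) (C3 := pd0)
    rfl k0_mm_001

noncomputable def f_mm_011 : ℕ → ℕ → ℕ → ℕ → Bool := onCell 0 536870912 536870912 536870912 1020054732 13421774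
    (rowB 3 eng mog cd3q0 cd0q1 pd1 0 false false false .pnn 0 1 1 (qsf 0 536870912 536870912 536870912 1) ndB3q0 ndB0q1 pcB1 Cut.none Ext.none)

def k0_mm_011 : ∃ t, chk3 f_mm_011 t 1 1 1 = true :=
  ⟨(l 5), by decide +kernel⟩

theorem c_mm_011 : CertB 0 536870912 536870912 536870912 1020054732 13421774 3 eng mog cd3q0 cd0q1 pd1 false false false .pnn 0 1 1
    ndB3q0 ndB0q1 pcB1 Cut.none Ext.none :=
  certB0 (fam := false) (s1 := false) (s2 := false) (a := 0) (b := 1) (c := 1) (cn := .pnn) (n1 := ndB3q0) (n2 := ndB0q1) (pc := pcB1) (cut := Cut.none) (xt := Ext.none) (P1 := 0) (W1 := 536870912) (P2 := 536870912) (W2 := 536870912) (P3 := 1020054732) (W3 := 13421774) (N0 := 3) (En := eng) (mo := mog) (C1 := cd3q0) (C2 := cd0q1) (C3 := pd1)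
    rfl k0_mm_011

noncomputable def f_mm_012 : ℕ → ℕ → ℕ → ℕ → Bool := onCell 0 536870912 0 536870912 1020054732 13421774
    (rowB 3 eng mog cd3q0 cd0q2 pd1 0 false false false .pnp 0 1 2 (qsf 0 536870912 0 536870912 1) ndB3q0 ndB0q2 pcB1 Cut.none Ext.none)

def k0_mm_012 : ∃ t, chk3 f_mm_012 t 1 1 1 = true :=
  ⟨(l 5), by decide +kernel⟩

theorem c_mm_012 : CertB 0 536870912 0 536870912 1020054732 13421774 3 eng mog cd3q0 cd0q2 pd1 false false false .pnp 0 1 2
    ndB3q0 ndB0q2 pcB1 Cut.none Ext.none :=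
  certB0 (fam := false) (s1 := false) (s2 := false) (a := 0) (b := 1) (c := 2) (cn := .pnp) (n1 := ndB3q0) (n2 := ndB0q2) (pc := pcB1) (cut := Cut.none) (xt := Ext.none) (P1 := 0) (W1 := 536870912) (P2 := 0) (W2 := 536870912) (P3 := 1020054732) (W3 := 13421774) (N0 := 3) (En := eng) (mo := mog) (C1 := cd3q0) (C2 := cd0q2) (C3 := pd1)
    rfl k0_mm_012

noncomputable def f_mm_022 : ℕ → ℕ → ℕ → ℕ → Bool := onCell 0 536870912 0 536870912 1020054732 13421774
    (rowB 3 eng mog cd3q0 cd0q2 pd2 0 false false false .pp 0 2 2 (qsf 0 536870912 0 536870912 2) ndB3q0 ndB0q2 pcB2 Cut.none Ext.none)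

def k0_mm_022 : ∃ t, chk3 f_mm_022 t 1 1 1 = true :=
  ⟨(l 5), by decide +kernel⟩

theorem c_mm_022 : CertB 0 536870912 0 536870912 1020054732 13421774 3 eng mog cd3q0 cd0q2 pd2 false false false .pp 0 2 2
    ndB3q0 ndB0q2 pcB2 Cut.none Ext.none :=
  certB0 (fam := false) (s1 := false) (s2 := false) (a := 0) (b := 2) (c := 2) (cn := .pp) (n1 := ndB3q0) (n2 := ndB0q2) (pc := pcB2) (cut := Cut.none) (xt := Ext.none) (P1 := 0) (W1 := 536870912) (P2 := 0) (W2 := 536870912) (P3 := 1020054732) (W3 := 13421774) (N0 := 3) (En := eng) (mo := mog) (C1 := cd3q0) (C2 := cd0q2) (C3 := pd2)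
    rfl k0_mm_022

noncomputable def f_mm_101 : ℕ → ℕ → ℕ → ℕ → Bool := onCell 536870912 536870912 0 536870912 1020054732 13421774
    (rowB 3 eng mog cd3q1 cd0q1 pd0 1 false false false .npn 1 0 1 (qsf 536870912 536870912 536870912 536870912 0) ndB3q1 ndB0q1 pcB0 Cut.none Ext.none)

def k0_mm_101 : ∃ t, chk3 f_mm_101 t 1 1 1 = true :=
  ⟨(a (l 5) (l 5)), by decide +kernel⟩

theorem c_mm_101 : CertB 536870912 536870912 536870912 536870912 1020054732 13421774 3 eng mog cd3q1 cd0q1 pd0 false false false .npn 1 0 1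
    ndB3q1 ndB0q1 pcB0 Cut.none Ext.none :=
  certB1 (fam := false) (s1 := false) (s2 := false) (a := 1) (b := 0) (c := 1) (cn := .npn) (n1 := ndB3q1) (n2 := ndB0q1) (pc := pcB0) (cut := Cut.none) (xt := Ext.none) (P1 := 536870912) (W1 := 536870912) (P2 := 536870912) (W2 := 536870912) (P3 := 1020054732) (W3 := 13421774) (N0 := 3) (En := eng) (mo := mog) (C1 := cd3q1) (C2 := cd0q1) (C3 := pd0)
    rfl (fun _ => rfl) k0_mm_101

noncomputable def f_mm_102 : ℕ → ℕ → ℕ → ℕ → Bool := onCell 536870912 536870912 0 536870912 1020054732 13421774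
    (rowB 3 eng mog cd3q1 cd0q2 pd0 0 false false false .npp 1 0 2 (qsf 536870912 536870912 0 536870912 0) ndB3q1 ndB0q2 pcB0 Cut.none Ext.none)

def k0_mm_102 : ∃ t, chk3 f_mm_102 t 1 1 1 = true :=
  ⟨(l 5), by decide +kernel⟩

theorem c_mm_102 : CertB 536870912 536870912 0 536870912 1020054732 13421774 3 eng mog cd3q1 cd0q2 pd0 false false false .npp 1 0 2
    ndB3q1 ndB0q2 pcB0 Cut.none Ext.none :=
  certB0 (fam := false) (s1 := false) (s2 := false) (a := 1) (b := 0) (c := 2) (cn := .npp) (n1 := ndB3q1) (n2 := ndB0q2) (pc := pcB0) (cut := Cut.none) (xt := Ext.none) (P1 := 536870912) (W1 := 536870912) (P2 := 0) (W2 := 536870912) (P3 := 1020054732) (W3 := 13421774) (N0 := 3) (En := eng) (mo := mog) (C1 := cd3q1) (C2 := cd0q2) (C3 := pd0)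
    rfl k0_mm_102

noncomputable def f_mm_112 : ℕ → ℕ → ℕ → ℕ → Bool := onCell 536870912 536870912 0 536870912 1020054732 13421774
    (rowB 3 eng mog cd3q1 cd0q2 pd1 0 false false false .dn 1 1 2 (qsf 536870912 536870912 0 536870912 1) ndB3q1 ndB0q2 pcB1 Cut.none Ext.none)

def k0_mm_112 : ∃ t, chk3 f_mm_112 t 1 1 1 = true :=
  ⟨(l 5), by decide +kernel⟩

theorem c_mm_112 : CertB 536870912 536870912 0 536870912 1020054732 13421774 3 eng mog cd3q1 cd0q2 pd1 false false false .dn 1 1 2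
    ndB3q1 ndB0q2 pcB1 Cut.none Ext.none :=
  certB0 (fam := false) (s1 := false) (s2 := false) (a := 1) (b := 1) (c := 2) (cn := .dn) (n1 := ndB3q1) (n2 := ndB0q2) (pc := pcB1) (cut := Cut.none) (xt := Ext.none) (P1 := 536870912) (W1 := 536870912) (P2 := 0) (W2 := 536870912) (P3 := 1020054732) (W3 := 13421774) (N0 := 3) (En := eng) (mo := mog) (C1 := cd3q1) (C2 := cd0q2) (C3 := pd1)
    rfl k0_mm_112

noncomputable def f_mm_202 : ℕ → ℕ → ℕ → ℕ → Bool := onCell 1073741824 536870912 0 536870912 1020054732 13421774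
    (rowB 3 eng mog cd3q2 cd0q2 pd0 0 false false false .pp 2 0 2 (qsf 1073741824 536870912 0 536870912 0) ndB3q2 ndB0q2 pcB0 Cut.none Ext.none)

def k0_mm_202 : ∃ t, chk3 f_mm_202 t 1 1 1 = true :=
  ⟨(l 3), by decide +kernel⟩

theorem c_mm_202 : CertB 1073741824 536870912 0 536870912 1020054732 13421774 3 eng mog cd3q2 cd0q2 pd0 false false false .pp 2 0 2
    ndB3q2 ndB0q2 pcB0 Cut.none Ext.none :=
  certB0 (fam := false) (s1 := false) (s2 := false) (a := 2) (b := 0) (c := 2) (cn := .pp) (n1 := ndB3q2) (n2 := ndB0q2) (pc := pcB0) (cut := Cut.none) (xt := Ext.none) (P1 := 1073741824) (W1 := 536870912) (P2 := 0) (W2 := 536870912) (P3 := 1020054732) (W3 := 13421774) (N0 := 3) (En := eng) (mo := mog) (C1 := cd3q2) (C2 := cd0q2) (C3 := pd0)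
    rfl k0_mm_202

end Pool.Agent.Strip051.G.I9500_9625.Tab.C.BB30

namespace Pool.Agent.Strip051.G.I9500_9625.Tab.C.BB31

open Pool.Agent.Strip051.PB Pool.Agent.Strip051.PB.T
open Pool.Agent.Strip051.G.I9500_9625.Tab

noncomputable def f_pp_001 : ℕ → ℕ → ℕ → ℕ → Bool := onCell 0 536870912 0 536870912 1020054732 13421774
    (rowB 3 eng mog cd3q0 cd1q1 pd0 1 false true true .up 0 0 1 (qsf 0 536870912 536870912 536870912 0) ndB3q0 ndB1q1 pcB0 Cut.none Ext.none)

def k0_pp_001 : ∃ t, chk3 f_pp_001 t 1 1 1 = true :=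
  ⟨(l 3), by decide +kernel⟩

theorem c_pp_001 : CertB 0 536870912 536870912 536870912 1020054732 13421774 3 eng mog cd3q0 cd1q1 pd0 false true true .up 0 0 1
    ndB3q0 ndB1q1 pcB0 Cut.none Ext.none :=
  certB1 (fam := false) (s1 := true) (s2 := true) (a := 0) (b := 0) (c := 1) (cn := .up) (n1 := ndB3q0) (n2 := ndB1q1) (pc := pcB0) (cut := Cut.none) (xt := Ext.none) (P1 := 0) (W1 := 536870912) (P2 := 536870912) (W2 := 536870912) (P3 := 1020054732) (W3 := 13421774) (N0 := 3) (En := eng) (mo := mog) (C1 := cd3q0) (C2 := cd1q1) (C3 := pd0)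
    rfl (fun _ => rfl) k0_pp_001

noncomputable def f_pp_011 : ℕ → ℕ → ℕ → ℕ → Bool := onCell 0 536870912 536870912 536870912 1020054732 13421774
    (rowB 3 eng mog cd3q0 cd1q1 pd1 0 false true true .pnn 0 1 1 (qsf 0 536870912 536870912 536870912 1) ndB3q0 ndB1q1 pcB1 Cut.none Ext.none)

def k0_pp_011 : ∃ t, chk3 f_pp_011 t 1 1 1 = true :=
  ⟨(a (b (l 3) (l 3)) (l 3)), by decide +kernel⟩

theorem c_pp_011 : CertB 0 536870912 536870912 536870912 1020054732 13421774 3 eng mog cd3q0 cd1q1 pd1 false true true .pnn 0 1 1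
    ndB3q0 ndB1q1 pcB1 Cut.none Ext.none :=
  certB0 (fam := false) (s1 := true) (s2 := true) (a := 0) (b := 1) (c := 1) (cn := .pnn) (n1 := ndB3q0) (n2 := ndB1q1) (pc := pcB1) (cut := Cut.none) (xt := Ext.none) (P1 := 0) (W1 := 536870912) (P2 := 536870912) (W2 := 536870912) (P3 := 1020054732) (W3 := 13421774) (N0 := 3) (En := eng) (mo := mog) (C1 := cd3q0) (C2 := cd1q1) (C3 := pd1)
    rfl k0_pp_011

noncomputable def xt_pp_012_a : Ext := extD3 3 ⟨4, 1, 1, 5, 99, 20, 33, 40, 51, 125, 1, 32⟩ eng cd3q0 cd1q2a pd1 false true true .pnp 0 1 2 rfl ndB3q0 ndB1q2a pcB1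

noncomputable def f_pp_012_a : ℕ → ℕ → ℕ → ℕ → Bool := onCell 536870912 536870912 0 536870912 1020054732 13421774
    (rowB 3 eng mog cd3q0 cd1q2a pd1 2 false true true .pnp 0 1 2 (qsf 0 536870912 0 536870912 1) ndB3q0 ndB1q2a pcB1 Cut.none xt_pp_012_a)

def k0_pp_012_a : ∃ t, chk3 f_pp_012_a t 2 2 1 = true :=
  ⟨(a (b (l 2) (a (l 2) (a (l 2) (b (l 2) (b (l 2) (l 14432416)))))) (b (a (c (a (l 14228160) (l 14209224)) (a (l 14630344) (l 14671280))) (c (b (l 14453192) (a (l 14375328) (l 14493904))) (b (l 14748152) (a (l 14775416) (l 14883872))))) (a (b (b (c (a (l 14200080) (l 14286488)) (l 14701184)) (a (l 14409240) (l 14578984))) (c (a (l 14458936) (l 14543440)) (a (l 14798512) (l 14856800)))) (b (a (c (l 14453632) (l 14846520)) (c (l 14592008) (l 14949224))) (c (a (l 14642224) (l 14754936)) (a (l 14929704) (l 15016888))))))), by decide +kernel⟩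

def k1_pp_012_a : ∃ t, chk3 f_pp_012_a t 4 3 1 = true :=
  ⟨(b (a (l 2) (a (b (l 2) (c (b (l 14883296) (l 15056272)) (l 14989240))) (b (c (l 14463760) (l 14896704)) (c (b (l 14902904) (l 15066720)) (l 15058784))))) (a (b (a (l 2) (b (c (l 15247336) (l 15208968)) (c (a (l 15360560) (l 15345688)) (l 15281128)))) (b (a (c (l 15325256) (l 15300736)) (c (l 15278832) (l 15278632))) (b (a (c (l 15249424) (l 15306896)) (a (l 15287264) (l 15285848))) (a (a (c (l 15218656) (l 15318312)) (b (l 15283912) (a (l 15300152) (l 15276920)))) (c (a (c (l 15228120) (l 15254288)) (c (l 15211384) (l 15257424))) (a (l 15305560) (l 15307040))))))) (b (b (a (c (l 15238032) (l 15195960)) (c (l 15239872) (l 15195968))) (a (c (l 15328952) (l 15265328)) (c (l 15321048) (l 15264712)))) (a (b (c (b (l 15302344) (l 15367248)) (l 15274408)) (a (b (l 15289312) (b (l 15288480) (c (l 15259720) (l 15318088)))) (b (l 15297504) (b (l 15300008) (a (l 15298336) (l 15306432)))))) (b (a (l 15280320) (l 15311464))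 (c (b (l 15271496) (b (l 15267328) (b (l 15265592) (l 15264552)))) (b (l 15344720) (a (l 15361768) (l 15382160))))))))), by decide +kernel⟩

def k2_pp_012_a : ∃ t, chk3 f_pp_012_a t 5 3 1 = true :=
  ⟨(b (a (b (c (a (l 14658440) (l 14782768)) (a (l 14927832) (l 14973248))) (c (a (b (l 14935144) (l 15088912)) (b (l 14979880) (l 15122752))) (a (l 15078912) (l 15112376)))) (b (c (a (l 14857496) (l 14945312)) (a (l 15032696) (l 15105944))) (a (c (b (l 15036960) (l 15168160)) (l 15159008)) (c (b (l 15106272) (l 15225056)) (l 15218624))))) (b (a (b (a (c (l 15252144) (l 15208464)) (c (l 15169656) (l 15233176))) (a (c (l 15306936) (l 15279312)) (a (l 15321568) (l 15337824)))) (a (b (c (l 15202632) (l 15270288)) (c (l 15364688) (l 15352344))) (b (c (l 15351432) (l 15319864)) (c (l 15435968) (l 15409984))))) (a (b (a (b (l 15305024) (l 15342744)) (c (l 15374736) (l 15382872))) (a (c (b (l 15315920) (b (l 15320216) (l 15344584))) (b (l 15386000) (a (l 15406800) (l 15435456))))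 (c (b (l 15397568) (a (l 15374616) (l 15414440))) (b (l 15442904) (a (l 15467896) (l 15503888)))))) (a (b (c (l 15433224) (l 15442232)) (c (b (l 15472880) (a (l 15478696) (l 15525152))) (b (l 15513840) (a (l 15543160) (l 15585432))))) (b (c (l 15505320) (l 15514752)) (c (b (l 15561032) (a (l 15574464) (l 15626264))) (b (l 15597048) (a (l 15630392) (l 15677672))))))))), by decide +kernel⟩

def k3_pp_012_a : ∃ t, chk3 f_pp_012_a t 3 2 1 = true :=
  ⟨(a (a (b (c (b (l 14561944) (a (l 14645952) (l 14825824))) (b (l 14982464) (a (l 15014424) (l 15163600)))) (c (b (a (l 14744384) (l 14910120)) (a (l 14881216) (l 15020704))) (a (b (l 15065320) (l 15118024)) (l 15069016)))) (b (a (b (l 15009024) (c (l 15027736) (l 15327872))) (b (c (l 15179840) (l 15429960)) (l 15143256))) (a (b (l 15149312) (c (l 15173040) (l 15360616))) (b (l 15385320) (l 15209168))))) (a (b (a (b (c (l 15430392) (l 15647448)) (l 15581128)) (b (c (l 15700504) (l 15876200)) (l 15795416))) (a (b (l 15570088)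 (l 15478904)) (b (l 15765712) (l 15676224)))) (b (a (b (a (l 15985456) (l 16116960)) (l 16018456)) (b (a (l 16249256) (l 16361128)) (l 16228776))) (a (b (l 15971376) (l 15842512)) (b (l 16124032) (l 15894064)))))), by decide +kernel⟩

def k4_pp_012_a : ∃ t, chk3 f_pp_012_a t 6 3 1 = true :=
  ⟨(b (a (b (a (c (l 15046008) (l 15192744)) (c (l 15159392) (l 15292816))) (a (c (b (l 15187696) (l 15293392)) (l 15291048)) (c (b (l 15281152) (l 15373152)) (l 15376088)))) (b (a (c (l 15285264) (l 15405880)) (c (l 15423400) (l 15531592))) (a (c (l 15342416) (l 15473536)) (c (l 15515200) (l 15583152))))) (b (a (a (b (c (l 15406640) (l 15381896)) (l 15385464)) (b (c (l 15473264) (l 15456256)) (l 15528064))) (a (b (c (l 15551360) (l 15542712)) (l 15598216)) (b (c (l 15640776) (l 15640880)) (l 15594816)))) (a (a (b (c (l 15589632) (l 15599032)) (c (b (l 15659896) (a (l 15680120) (l 15735488))) (b (l 15690472) (a (l 15726848) (l 15777352))))) (b (c (l 15684648) (l 15693584)) (c (b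 (l 15766880) (a (l 15791592) (l 15847120))) (b (l 15791560) (a (l 15828368) (l 15878448)))))) (a (b (a (l 15765992) (l 15819768)) (a (c (l 15814560) (l 15774960)) (c (l 15761904) (l 15696592)))) (b (a (l 15875272) (l 15932368)) (a (b (l 15966160) (c (l 15904880) (l 15888528))) (b (l 16011456) (b (l 15911920) (l 15760744))))))))), by decide +kernel⟩

def k5_pp_012_a : ∃ t, chk3 f_pp_012_a t 7 6 1 = true :=
  ⟨(a (a (b (c (l 15573504) (l 15669512)) (c (l 15552600) (l 15704576))) (a (b (l 15736768) (l 15779200)) (b (l 15817448) (l 15848216)))) (a (b (a (l 15900912) (l 15987208)) (a (l 15898952) (l 15952416))) (b (a (l 16076464) (l 16168992)) (a (l 15882936) (b (l 16154920) (l 16148128)))))), by decide +kernel⟩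

def k6_pp_012_a : ∃ t, chk3 f_pp_012_a t 14 7 1 = true :=
  ⟨(b (a (b (a (l 15717912) (l 15772896)) (a (l 15844560) (l 15901752))) (b (a (l 15830344) (l 15848160)) (a (l 15960560) (l 16020568)))) (a (b (a (l 15990976) (l 16051096)) (b (a (l 16021808) (l 16034544)) (a (c (l 15870472) (l 15822096)) (b (l 15913936) (l 15822896))))) (b (a (l 16112768) (l 16175672)) (a (b (l 16072528) (c (l 15942248) (l 15889312))) (b (l 16143352) (a (l 15982432) (l 16048648))))))), by decide +kernel⟩

def k7_pp_012_a : ∃ t, chk3 f_pp_012_a t 15 7 1 = true :=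
  ⟨(b (a (b (a (l 136243817002926143) (l 136928056964104255)) (a (l 16081312) (l 16142176))) (b (a (b (l 16071488) (l 16094944)) (b (l 16142984) (l 16161464))) (a (b (l 16164864) (a (l 16224848) (l 139596847046656127))) (b (a (l 16105672) (b (l 16223336) (l 16250944))) (a (l 139770844805185663) (b (l 16272824) (l 16293616))))))) (a (b (a (l 138799769806585919) (b (l 16258352) (a (l 16321920) (l 139735660586319935)))) (a (b (l 139595060342964287) (b (a (l 16157048) (l 139117185108508735)) (a (l 137288353397571647) (l 138835572691648575)))) (b (a (b (l 16345584) (l 140587026209996863)) (b (l 141233813981626431) (l 141120358139101247))) (a (b (l 140472608307527743) (l 140669283553361983)) (b (l 140892484405723199) (l 139819635990675519)))))) (b (a (b (a (l 139620830240538879) (l 139575475421282431)) (a (b (l 16352272) (l 141116922131284223)) (b (l 141213679103656063) (l 141203920983572607)))) (b (a (b (l 16311424) (l 141228522466394239)) (a (l 140745287087833215) (a (l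 141084348991471743) (b (l 16318992) (l 16341736))))) (a (b (l 141093420019695743) (a (l 16378336) (b (l 16374704) (l 16389720)))) (b (a (b (l 16354080) (l 16367184)) (b (l 16362920) (l 16384808))) (a (b (l 16385576) (l 16410736)) (l 16425824)))))) (a (b (a (b (l 141206532370546943) (l 140505043957727487)) (b (l 140705086347624575) (a (l 140089840918872191) (c (l 141300334531215487) (l 141240754725945471))))) (a (b (a (l 141629432086167807) (b (l 16424048) (l 141205982695129343))) (a (b (l 141113142701588735) (l 140892828098363647)) (b (l 141146402953429247) (l 16490976)))) (b (a (b (l 141483884245172351) (l 141205295535538303)) (l 16470992)) (l 142215815566459007)))) (b (a (b (a (b (l 16397168) (l 141762198089744511)) (b (l 141648467347554431) (l 16437816))) (a (b (l 141641114419298431) (l 16466504)) (l 16479536))) (b (l 16465784) (a (l 16506784) (l 16534496)))) (a (b (l 142668676920017023) (l 142770588016345215)) (b (a (l 16562184) (b (l 16575584) (l 16603120))) (a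 (b (l 16601376) (l 16629696)) (c (l 16621184) (l 16626088)))))))))), by decide +kernel⟩

theorem s8_pp_012_a : ∃ t, chk3 f_pp_012_a t 7 7 1 = true := ex3_a k6_pp_012_a k7_pp_012_a

theorem s9_pp_012_a : ∃ t, chk3 f_pp_012_a t 7 3 1 = true := ex3_b k5_pp_012_a s8_pp_012_a

theorem s10_pp_012_a : ∃ t, chk3 f_pp_012_a t 3 3 1 = true := ex3_a k4_pp_012_a s9_pp_012_a

theorem s11_pp_012_a : ∃ t, chk3 f_pp_012_a t 3 1 1 = true := ex3_b k3_pp_012_a s10_pp_012_a

theorem s12_pp_012_a : ∃ t, chk3 f_pp_012_a t 2 3 1 = true := ex3_a k1_pp_012_a k2_pp_012_a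

theorem s13_pp_012_a : ∃ t, chk3 f_pp_012_a t 2 1 1 = true := ex3_b k0_pp_012_a s12_pp_012_a

theorem s14_pp_012_a : ∃ t, chk3 f_pp_012_a t 1 1 1 = true := ex3_a s13_pp_012_a s11_pp_012_a

theorem c_pp_012_a : CertB 0 536870912 0 536870912 1020054732 13421774 3 eng mog cd3q0 cd1q2a pd1 false true true .pnp 0 1 2
    ndB3q0 ndB1q2a pcB1 Cut.none xt_pp_012_a :=
  certB2 (fam := false) (s1 := true) (s2 := true) (a := 0) (b := 1) (c := 2) (cn := .pnp) (n1 := ndB3q0) (n2 := ndB1q2a) (pc := pcB1) (cut := Cut.none) (xt := xt_pp_012_a) (P1 := 0) (W1 := 536870912) (P2 := 0) (W2 := 536870912) (P3 := 1020054732) (W3 := 13421774) (N0 := 3) (En := eng) (mo := mog) (C1 := cd3q0) (C2 := cd1q2a) (C3 := pd1)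
    rfl (fun _ => rfl) s14_pp_012_a

noncomputable def f_pp_012_b : ℕ → ℕ → ℕ → ℕ → Bool := onCell 536870912 536870912 1239849684 370763052 1020054732 13421774
    (rowB 3 eng mog cd3q0 cd1q2b pd1 2 false true true .pnp 0 1 2 (qsf 0 536870912 1239849684 370763052 1) ndB3q0 ndB1q2b pcB1 Cut.none Ext.none)

def k0_pp_012_b : ∃ t, chk3 f_pp_012_b t 1 1 1 = true :=
  ⟨(a (a (l 2) (b (b (a (b (a (l 14476776) (l 14464008)) (l 2)) (b (a (l 14483728) (l 14535864)) (a (l 14359576) (l 14372208)))) (a (l 2) (b (l 14261352) (l 2)))) (l 2))) (a (b (b (a (b (a (l 14620160) (l 14526400)) (a (l 14416288) (l 14491376))) (b (a (c (l 14768680) (l 14999128)) (c (l 14953048) (l 15168016))) (a (l 14596800) (l 14731544)))) (a (b (l 14058872) (l 14130392)) (b (a (l 14352008) (l 14444368)) (l 14173336)))) (a (l 2) (b (b (l 13996616) (l 13867296)) (l 2)))) (b (b (a (b (a (c (l 15169416) (l 15361496)) (c (l 15415600) (l 15577616))) (a (l 14894232) (l 15082936))) (a (b (b (l 15784976) (l 15631840))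 (l 15232136)) (b (a (l 15870376) (l 15928208)) (l 15338392)))) (a (b (a (l 14564248) (l 14709880)) (a (l 14277400) (l 14379632))) (a (b (l 14878832) (l 14505080)) (b (l 15067816) (l 14650656))))) (a (b (b (l 14063448) (l 13847656)) (l 13619624)) (b (b (l 14121360) (l 13922944)) (b (l 13668968) (l 13466000))))))), by decide +kernel⟩

theorem c_pp_012_b : CertB 0 536870912 1239849684 370763052 1020054732 13421774 3 eng mog cd3q0 cd1q2b pd1 false true true .pnp 0 1 2
    ndB3q0 ndB1q2b pcB1 Cut.none Ext.none :=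
  certB2 (fam := false) (s1 := true) (s2 := true) (a := 0) (b := 1) (c := 2) (cn := .pnp) (n1 := ndB3q0) (n2 := ndB1q2b) (pc := pcB1) (cut := Cut.none) (xt := Ext.none) (P1 := 0) (W1 := 536870912) (P2 := 1239849684) (W2 := 370763052) (P3 := 1020054732) (W3 := 13421774) (N0 := 3) (En := eng) (mo := mog) (C1 := cd3q0) (C2 := cd1q2b) (C3 := pd1)
    rfl (fun _ => rfl) k0_pp_012_b

noncomputable def f_pp_022_a : ℕ → ℕ → ℕ → ℕ → Bool := onCell 0 536870912 0 536870912 1020054732 13421774
    (rowB 3 eng mog cd3q0 cd1q2a pd2 0 false true true .pp 0 2 2 (qsf 0 536870912 0 536870912 2) ndB3q0 ndB1q2a pcB2 Cut.none Ext.none)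

def k0_pp_022_a : ∃ t, chk3 f_pp_022_a t 2 2 1 = true :=
  ⟨(a (a (a (a (b (b (l 16080632) (l 16182584)) (b (l 16234368) (l 16269160))) (a (b (l 16057912) (b (l 16214384) (l 16327552))) (b (a (l 16019384) (l 15993848)) (b (a (l 16172184) (l 16144168)) (a (l 16282480) (l 16252528)))))) (b (a (a (b (l 15929528) (l 16021192)) (l 15965888)) (a (l 15956344) (l 15938872))) (a (a (b (l 16124744) (l 16147160)) (b (l 16109192) (l 16213064))) (b (a (l 16095648) (l 16073784)) (a (l 16197056) (l 16172304)))))) (b (a (b (l 15826568) (l 15901640)) (b (l 15716904) (l 15778040))) (a (b (a (l 16022904) (l 15954368)) (a (l 16116232) (l 16040464))) (b (l 15850880) (a (l 15963968) (l 15886728)))))) (a (b (a (l 15632936) (l 15515632)) (a (b (l 15711072) (a (l 15808760) (l 1))) (l 1))) (l 1))), by decide +kernel⟩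

def k1_pp_022_a : ∃ t, chk3 f_pp_022_a t 4 6 1 = true :=
  ⟨(a (a (a (b (b (l 16438176) (l 16449368)) (b (l 16474016) (l 16486936))) (a (b (l 16350208) (b (l 16481208) (l 16518416))) (b (a (l 16385752) (b (l 16328984) (l 16375816))) (a (b (l 16451088) (l 16486304)) (b (l 16417080) (l 16450968)))))) (a (b (a (b (l 16305912) (l 16330688)) (b (l 16286128) (l 16330688))) (a (b (a (l 16398536) (l 16386888)) (a (l 16431616) (l 16419376))) (b (a (l 16375632) (l 16364880)) (a (l 16407528) (l 16396184))))) (b (a (b (l 16268304) (l 16311672)) (b (l 16241344) (l 16283216))) (a (b (l 16328496) (a (l 16385408) (l 16375256))) (b (a (l 16330640) (l 16308752)) (a (l 16360032) (l 16337136))))))) (b (a (a (b (l 16181144) (l 16220144)) (b (l 16099648) (l 16134664))) (a (a (l 16055104) (l 16012600)) (l 432212697879))) (a (b (a (a (l 16275608) (l 16231136)) (a (l 16186344) (l 16141240))) (a (a (l 16302464) (l 16255912)) (c (l 16165272) (l 16184688)))) (a (b (l 366177937671) (l 1)) (l 1))))),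 by decide +kernel⟩

def k2_pp_022_a : ∃ t, chk3 f_pp_022_a t 4 7 1 = true :=
  ⟨(a (a (a (b (b (l 16472296) (a (l 16577424) (l 16638224))) (b (a (l 16596264) (l 16601880)) (b (a (b (l 16738504) (l 16693080)) (b (l 16659976) (l 16593152))) (a (b (a (l 16706968) (l 16689384)) (a (l 16695496) (a (l 16690144) (l 1)))) (b (l 647499463143) (l 1)))))) (a (b (b (l 16546440) (l 16563008)) (b (b (l 16587344) (l 16584672)) (b (b (l 16579816) (l 1)) (l 1)))) (b (a (b (l 16512224) (l 16526584)) (b (l 16454504) (a (l 16497568) (l 16479560)))) (b (a (b (l 16528224) (l 16524392)) (b (l 16488856) (a (l 16493928) (l 287258793911)))) (l 1))))) (a (b (a (b (a (l 16455296) (l 16442472)) (a (l 16446360) (b (l 16452240) (l 16454664)))) (b (a (l 16430040) (l 16418120)) (a (b (l 16439384) (l 16441536)) (b (l 16427032) (l 16428912))))) (b (a (b (a (l 16467208) (l 16453408)) (l 1)) (l 1)) (l 1))) (b (b (a (a (l 16406768) (l 16396056)) (a (b (l 16375960) (l 16383296)) (l 16356152))) (a (c (b (l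 16419952) (l 240014051799)) (b (l 16398376) (l 262562586263))) (b (c (l 241624574279) (l 248603853911)) (l 1)))) (l 1)))) (b (a (a (b (a (a (l 16332008) (l 219612824951)) (l 265783536439)) (l 1)) (l 1)) (l 1)) (l 1))), by decide +kernel⟩

def k3_pp_022_a : ∃ t, chk3 f_pp_022_a t 5 3 1 = true :=
  ⟨(b (l 1) (l 1)), by decide +kernel⟩

def k4_pp_022_a : ∃ t, chk3 f_pp_022_a t 3 1 1 = true :=
  ⟨(l 1), by decide +kernel⟩

theorem s5_pp_022_a : ∃ t, chk3 f_pp_022_a t 4 3 1 = true := ex3_b k1_pp_022_a k2_pp_022_a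

theorem s6_pp_022_a : ∃ t, chk3 f_pp_022_a t 2 3 1 = true := ex3_a s5_pp_022_a k3_pp_022_a

theorem s7_pp_022_a : ∃ t, chk3 f_pp_022_a t 2 1 1 = true := ex3_b k0_pp_022_a s6_pp_022_a

theorem s8_pp_022_a : ∃ t, chk3 f_pp_022_a t 1 1 1 = true := ex3_a s7_pp_022_a k4_pp_022_a

theorem c_pp_022_a : CertB 0 536870912 0 536870912 1020054732 13421774 3 eng mog cd3q0 cd1q2a pd2 false true true .pp 0 2 2
    ndB3q0 ndB1q2a pcB2 Cut.none Ext.none :=
  certB0 (fam := false) (s1 := true) (s2 := true) (a := 0) (b := 2) (c := 2) (cn := .pp) (n1 := ndB3q0) (n2 := ndB1q2a) (pc := pcB2) (cut := Cut.none) (xt := Ext.none) (P1 := 0) (W1 := 536870912) (P2 := 0) (W2 := 536870912) (P3 := 1020054732) (W3 := 13421774) (N0 := 3) (En := eng) (mo := mog) (C1 := cd3q0) (C2 := cd1q2a) (C3 := pd2)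
    rfl s8_pp_022_a

noncomputable def f_pp_022_b : ℕ → ℕ → ℕ → ℕ → Bool := onCell 0 536870912 1239849684 370763052 1020054732 13421774
    (rowB 3 eng mog cd3q0 cd1q2b pd2 0 false true true .pp 0 2 2 (qsf 0 536870912 1239849684 370763052 2) ndB3q0 ndB1q2b pcB2 Cut.none Ext.none)

def k0_pp_022_b : ∃ t, chk3 f_pp_022_b t 1 1 1 = true :=
  ⟨(a (b (a (a (a (a (b (b (l 15914800) (l 15680808)) (b (l 15456160) (l 15241056))) (b (a (b (l 15844464) (l 15613320)) (b (a (l 15808824) (l 15785248)) (l 15567168))) (a (l 15284648) (b (l 15348456) (l 15140088))))) (b (a (b (a (l 15770296) (l 15759904)) (a (l 15540512) (l 15527360))) (b (a (l 15751608) (l 15736088)) (l 15507112))) (a (b (l 15311536) (l 15102376)) (b (l 15282384) (l 15069128))))) (b (a (b (l 15671056) (l 15433296)) (b (l 15567744) (l 15329784))) (a (b (l 15208072) (l 14995216)) (l 14998224)))) (b (a (a (b (l 15465624) (l 15228192)) (b (l 15364224) (l 15127848))) (a (l 351680231719) (l 364028064711))) (b (a (l 14957328)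 (a (l 14810928) (l 14711744))) (a (l 14758824) (a (l 14616800) (l 14531264)))))) (a (b (a (a (a (l 14937040) (a (l 14883496) (l 14847512))) (a (b (l 14904496) (l 14718768)) (b (l 14867712) (l 14679968)))) (b (a (l 14794952) (l 14698152)) (a (l 14640488) (l 14601048)))) (a (a (a (b (l 14677384) (l 14738424)) (b (a (l 14643080) (l 14628152)) (a (l 14769576) (l 14789024)))) (b (a (l 14628256) (l 14643016)) (a (l 14816016) (l 14847144)))) (b (l 14689360) (l 14885176)))) (b (a (b (a (l 14624000) (l 14563016)) (l 14574056)) (b (a (l 14501496) (l 14421480)) (l 14455936))) (a (b (l 14670912) (l 14851128)) (b (l 14537240) (l 14704776)))))) (b (a (b (l 1) (a (b (a (l 14613760) (l 14499920)) (a (l 14420656) (l 14289352))) (b (l 1) (l 14055424)))) (l 1)) (a (b (a (b (l 14245968) (l 14204232)) (b (l 13931696) (l 13899592))) (a (b (l 14298424) (l 14455752)) (b (l 13961176) (l 14120168)))) (b (a (b (l 1) (l 13507784)) (l 1)) (a (b (l 13549512) (l 13685752)) (b (l 13105000) (l 13210064))))))),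 by decide +kernel⟩

theorem c_pp_022_b : CertB 0 536870912 1239849684 370763052 1020054732 13421774 3 eng mog cd3q0 cd1q2b pd2 false true true .pp 0 2 2
    ndB3q0 ndB1q2b pcB2 Cut.none Ext.none :=
  certB0 (fam := false) (s1 := true) (s2 := true) (a := 0) (b := 2) (c := 2) (cn := .pp) (n1 := ndB3q0) (n2 := ndB1q2b) (pc := pcB2) (cut := Cut.none) (xt := Ext.none) (P1 := 0) (W1 := 536870912) (P2 := 1239849684) (W2 := 370763052) (P3 := 1020054732) (W3 := 13421774) (N0 := 3) (En := eng) (mo := mog) (C1 := cd3q0) (C2 := cd1q2b) (C3 := pd2)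
    rfl k0_pp_022_b

noncomputable def f_pp_023 : ℕ → ℕ → ℕ → ℕ → Bool := onCell 1073741824 536870912 1610612736 536870912 1020054732 13421774
    (rowB 3 eng mog cd3q0 cd1q3 pd2 2 false true true .up 0 2 3 (qsf 0 536870912 1610612736 536870912 2) ndB3q0 ndB1q3 pcB2 Cut.none Ext.none)

def k0_pp_023 : ∃ t, chk3 f_pp_023 t 1 1 1 = true :=
  ⟨(a (a (b (b (a (b (l 13423056) (l 13280344)) (b (l 13953112) (l 13865640))) (a (l 2) (b (l 13868528) (l 2)))) (l 2)) (b (b (a (b (l 14419824) (l 14401448)) (b (l 14811464) (l 14875464))) (a (b (l 14458728) (l 14599728)) (b (l 14998864) (l 15183872)))) (b (a (l 2) (b (l 15391160) (l 2))) (l 2)))) (b (a (b (a (b (l 15115072) (l 15273360)) (b (l 15317704) (l 15579208))) (a (b (l 15474240) (l 15678416)) (b (l 15866056) (l 16057664)))) (b (a (b (b (l 15327584) (l 15509328)) (l 15777688)) (b (a (b (b (a (l 15266176) (l 15243912)) (l 15304864)) (l 15531552)) (b (a (b (b (a (l 15192896) (l 15175024)) (l 15248312)) (l 15340416)) (b (b (l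 15141000) (a (l 15223304) (l 15201048))) (b (a (l 15290288) (l 15272800)) (l 15347856)))) (b (a (l 15461000) (l 15441672)) (l 15572536)))) (l 15645336))) (a (b (l 16141712) (l 4)) (b (b (l 16217184) (l 16371384)) (l 4))))) (a (b (l 4) (l 4)) (l 4)))), by decide +kernel⟩

theorem c_pp_023 : CertB 0 536870912 1610612736 536870912 1020054732 13421774 3 eng mog cd3q0 cd1q3 pd2 false true true .up 0 2 3
    ndB3q0 ndB1q3 pcB2 Cut.none Ext.none :=
  certB2 (fam := false) (s1 := true) (s2 := true) (a := 0) (b := 2) (c := 3) (cn := .up) (n1 := ndB3q0) (n2 := ndB1q3) (pc := pcB2) (cut := Cut.none) (xt := Ext.none) (P1 := 0) (W1 := 536870912) (P2 := 1610612736) (W2 := 536870912) (P3 := 1020054732) (W3 := 13421774) (N0 := 3) (En := eng) (mo := mog) (C1 := cd3q0) (C2 := cd1q3) (C3 := pd2)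
    rfl (fun _ => rfl) k0_pp_023

noncomputable def f_pp_033 : ℕ → ℕ → ℕ → ℕ → Bool := onCell 0 536870912 1610612736 536870912 1020054732 13421774
    (rowB 3 eng mog cd3q0 cd1q3 pd3 0 false true true .pnn 0 3 3 (qsf 0 536870912 1610612736 536870912 3) ndB3q0 ndB1q3 pcB3 Cut.none Ext.none)

def k0_pp_033 : ∃ t, chk3 f_pp_033 t 1 1 1 = true :=
  ⟨(a (b (a (b (a (a (a (b (l 14905192) (l 14919760)) (b (a (l 15053488) (l 15154232)) (a (l 15067152) (l 15167224)))) (b (a (l 15248672) (l 15340688)) (a (l 15260552) (l 15351032)))) (b (a (l 15545624) (l 1)) (a (l 15553312) (l 15830232)))) (b (b (a (a (a (l 14923800) (l 14965432)) (l 15099728)) (l 15689112)) (a (l 4) (l 4))) (l 4))) (b (b (l 1) (a (l 16104416) (l 1))) (b (a (b (l 16219056) (l 16206496)) (l 547640531031)) (l 4)))) (l 4)) (b (a (b (l 1) (b (l 1) (a (l 4) (l 1)))) (l 1)) (b (a (l 4) (l 4)) (l 4)))), by decide +kernel⟩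

theorem c_pp_033 : CertB 0 536870912 1610612736 536870912 1020054732 13421774 3 eng mog cd3q0 cd1q3 pd3 false true true .pnn 0 3 3
    ndB3q0 ndB1q3 pcB3 Cut.none Ext.none :=
  certB0 (fam := false) (s1 := true) (s2 := true) (a := 0) (b := 3) (c := 3) (cn := .pnn) (n1 := ndB3q0) (n2 := ndB1q3) (pc := pcB3) (cut := Cut.none) (xt := Ext.none) (P1 := 0) (W1 := 536870912) (P2 := 1610612736) (W2 := 536870912) (P3 := 1020054732) (W3 := 13421774) (N0 := 3) (En := eng) (mo := mog) (C1 := cd3q0) (C2 := cd1q3) (C3 := pd3)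
    rfl k0_pp_033

noncomputable def f_pp_101 : ℕ → ℕ → ℕ → ℕ → Bool := onCell 536870912 536870912 536870912 536870912 1020054732 13421774
    (rowB 3 eng mog cd3q1 cd1q1 pd0 0 false true true .npn 1 0 1 (qsf 536870912 536870912 536870912 536870912 0) ndB3q1 ndB1q1 pcB0 Cut.none Ext.none)

def k0_pp_101 : ∃ t, chk3 f_pp_101 t 1 1 1 = true :=
  ⟨(l 3), by decide +kernel⟩

theorem c_pp_101 : CertB 536870912 536870912 536870912 536870912 1020054732 13421774 3 eng mog cd3q1 cd1q1 pd0 false true true .npn 1 0 1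
    ndB3q1 ndB1q1 pcB0 Cut.none Ext.none :=
  certB0 (fam := false) (s1 := true) (s2 := true) (a := 1) (b := 0) (c := 1) (cn := .npn) (n1 := ndB3q1) (n2 := ndB1q1) (pc := pcB0) (cut := Cut.none) (xt := Ext.none) (P1 := 536870912) (W1 := 536870912) (P2 := 536870912) (W2 := 536870912) (P3 := 1020054732) (W3 := 13421774) (N0 := 3) (En := eng) (mo := mog) (C1 := cd3q1) (C2 := cd1q1) (C3 := pd0)
    rfl k0_pp_101

noncomputable def cut_pp_102_a : Cut := Cut.of [[⟨0, 1, 0, 38347922⟩, ⟨1, 0, 0, 38347922⟩, ⟨2, 1, 0, 38347922⟩]]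

noncomputable def xt_pp_102_a : Ext := extD3 3 ⟨4, 1, 1, 5, 99, 20, 33, 40, 51, 125, 1, 32⟩ eng cd3q1 cd1q2a pd0 false true true .npp 1 0 2 rfl ndB3q1 ndB1q2a pcB0

noncomputable def f_pp_102_a : ℕ → ℕ → ℕ → ℕ → Bool := onCell 536870912 536870912 0 536870912 1020054732 13421774
    (rowB 3 eng mog cd3q1 cd1q2a pd0 0 false true true .npp 1 0 2 (qsf 536870912 536870912 0 536870912 0) ndB3q1 ndB1q2a pcB0 cut_pp_102_a xt_pp_102_a)

def k0_pp_102_a : ∃ t, chk3 f_pp_102_a t 2 1 1 = true :=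
  ⟨(b (a (b (l 2) (a (l 2) (b (l 2) (a (l 2) (l 16306920))))) (b (a (a (l 15245448) (l 15128480)) (a (l 14987664) (b (l 14759256) (l 15147552)))) (a (b (a (l 15942896) (l 15847472)) (a (b (l 16238776) (l 16309744)) (b (l 16145920) (l 16251120)))) (b (a (l 15704096) (l 15555704)) (a (b (l 16012536) (l 16179464)) (c (l 16079288) (l 15763280))))))) (a (a (b (l 2) (a (b (l 2) (b (c (l 15818600) (l 16058520)) (b (l 15597824) (c (l 15536984) (l 15791576))))) (b (b (l 16246664) (l 15906536)) (b (c (l 15840152) (l 16085688)) (b (l 15603456) (c (l 15542176) (l 15801496))))))) (b (b (l 16196384) (c (l 16368064) (l 16413168))) (b (b (c (l 16187960) (l 16385496)) (c (l 15838760) (l 16145680))) (a (b (c (l 15869544) (l 16096864)) (b (l 15616464) (c (l 15556832) (l 15838904)))) (a (b (l 15851544) (c (l 15614912) (l 15868664))) (b (l 15871480) (c (l 15638520) (l 15890992)))))))) (b (a (b (c (l 16485936) (l 16244192)) (c (l 16385232) (l 16367288))) (b (a (l 16296608) (l 16026592))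 (c (l 16359400) (l 16311448)))) (a (b (b (c (l 16256296) (l 16450608)) (c (a (l 16102552) (l 16146064)) (l 16132312))) (b (c (a (l 15950616) (l 16001592)) (a (l 16153672) (l 16177552))) (c (a (b (l 15826344) (l 15654920)) (b (l 15883368) (l 15716456))) (b (a (l 16089960) (l 16140072)) (a (l 15931392) (l 16006440)))))) (b (c (b (l 16347016) (a (l 16195816) (l 16210152))) (a (l 16265344) (l 16317296))) (b (a (a (l 15949320) (l 15976936)) (a (l 16005656) (l 16015632))) (c (a (b (l 15947576) (l 15764680)) (b (l 16018472) (l 15799016))) (a (b (l 16194256) (l 16044024)) (b (l 16231008) (l 16106480)))))))))), by decide +kernel⟩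

def k1_pp_102_a : ∃ t, chk3 f_pp_102_a t 3 2 1 = true :=
  ⟨(a (a (b (b (a (l 14657640) (l 14618048)) (a (l 14987200) (l 14823976))) (b (a (l 15403416) (l 15248480)) (a (l 15625968) (l 15581688)))) (b (b (l 14608176) (a (b (l 14625864) (l 14769688)) (b (l 14605296) (l 14667424)))) (b (a (l 15092288) (l 14931408)) (a (l 15512832) (l 15379064))))) (a (a (b (b (l 14581136) (l 14623696)) (b (b (l 14725808) (l 14891344)) (l 15224208))) (b (l 14573800) (b (b (l 14694704) (l 14799976)) (b (l 14959112) (l 15183320))))) (b (a (l 14521792) (l 14447296)) (b (a (l 14720960) (l 14682536)) (a (b (a (l 14889192) (l 14867304)) (a (l 15067912) (l 15014472))) (a (l 14931936) (l 14903232))))))), by decide +kernel⟩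

def k2_pp_102_a : ∃ t, chk3 f_pp_102_a t 6 3 1 = true :=
  ⟨(b (a (b (a (b (c (l 16175304) (l 16038840)) (l 16230952)) (b (l 15796272) (l 16039680))) (a (l 16216240) (l 16149240))) (b (a (b (l 15875984) (a (l 16092888) (l 16044344))) (b (l 15721920) (l 15750120))) (a (c (l 16341584) (l 16192280)) (b (a (l 16164176) (l 16061600)) (l 16269688))))) (a (b (c (a (l 16142512) (l 16186464)) (b (l 16396264) (l 16322032))) (b (a (b (l 16090616) (l 16032096)) (b (l 16132184) (l 16078728))) (a (a (b (l 16038696) (l 15870680)) (c (l 15894184) (l 16174800))) (b (a (l 16089792) (l 16127200)) (c (a (l 16094624) (l 16077320)) (l 16156808)))))) (b (a (b (l 16352640) (c (l 16457176) (l 16479808))) (b (l 16307984) (l 16275376))) (b (b (a (a (l 16307856) (l 16364064)) (l 16293752)) (a (a (l 16236432) (l 16252128)) (a (l 16268224) (l 16306152)))) (b (a (a (l 16144456) (l 16183424)) (a (l 16223056) (l 16263264))) (c (a (a (l 16040248) (b (l 16248600) (l 16137608))) (a (a (l 16187824) (l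 16212584)) (a (l 16216624) (a (l 16277496) (l 16290176))))) (a (a (l 16314560) (l 16329320)) (a (l 16344384) (l 16338664))))))))), by decide +kernel⟩

def k3_pp_102_a : ∃ t, chk3 f_pp_102_a t 7 6 1 = true :=
  ⟨(a (b (a (b (l 15565992) (l 15799064)) (b (l 15410624) (l 15641776))) (a (b (a (l 15989144) (l 15996960)) (a (l 16227112) (l 16083880))) (b (l 15729608) (a (l 15934400) (l 16013704))))) (b (a (b (l 15258888) (l 15487240)) (a (b (l 15155232) (l 15376632)) (b (l 15130088) (b (l 15257136) (l 15360064))))) (a (b (a (l 15758672) (l 15681296)) (a (l 15994056) (l 15915080))) (b (a (l 15605992) (l 15533704)) (a (l 15838192) (l 15638664)))))), by decide +kernel⟩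

def k4_pp_102_a : ∃ t, chk3 f_pp_102_a t 14 7 1 = true :=
  ⟨(b (a (b (c (l 16394624) (l 16291520)) (c (l 16518864) (l 16428320))) (b (a (l 16304920) (b (l 16232864) (l 16313280))) (c (l 16413856) (l 16335904)))) (b (a (b (l 16368840) (a (l 16345336) (l 16407072))) (a (a (l 16426984) (l 16437648)) (a (l 16406056) (l 16374224)))) (a (b (a (l 16303984) (b (l 16417096) (l 16399032))) (c (b (a (l 16375272) (l 16405368)) (a (a (l 16318888) (l 16344968)) (a (l 16350320) (l 16376728)))) (a (b (l 16489000) (l 16428856)) (b (l 16503664) (l 16465888))))) (b (a (b (l 16437696) (l 16441216)) (a (l 16461112) (l 16482992))) (c (b (a (l 16456928) (l 16487960)) (a (a (l 16403200) (l 16408648)) (a (b (l 16523808) (l 16472216)) (l 140469997274710063)))) (a (a (l 16501200) (l 16498000)) (b (l 16573560) (a (l 16570920) (l 16567512))))))))), by decide +kernel⟩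

def k5_pp_102_a : ∃ t, chk3 f_pp_102_a t 15 7 1 = true :=
  ⟨(b (a (b (a (b (l 16175528) (l 16212384)) (b (l 16091840) (l 16213008))) (a (b (l 16359616) (l 16440560)) (b (a (l 16335152) (l 16308984)) (a (l 16421960) (l 16405280))))) (b (a (b (l 16013824) (l 16131328)) (b (l 15939224) (l 16035248))) (a (b (l 16144160) (a (l 16300312) (l 16346984))) (a (b (l 16191240) (l 16308496)) (b (l 16153240) (l 16244248)))))) (a (b (a (b (l 16481632) (l 16463960)) (b (l 16437096) (l 140619668254261295))) (b (a (a (l 140280194083635247) (l 140547719053606959)) (a (l 140816824547344431) (l 141260477510959151))) (a (b (l 140510266903773231) (b (l 140637054356684847) (a (l 140646949921685551) (a (l 141190864656547887) (l 141308031385763887))))) (b (b (l 141224743402700847) (l 141360601832636463)) (b (b (l 141500239795748911) (l 141287415566614575)) (b (a (l 141676848853532719) (l 141909120769622063)) (c (a (l 141480723527204911) (a (l 16614360) (l 16606248))) (l 142063945772515375))))))))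 (b (a (b (a (b (l 16458192) (l 16503968)) (a (l 140391931837562991) (l 16392536))) (a (l 16529712) (b (l 16495688) (l 16583520)))) (a (b (l 139849254037667951) (a (l 140989654006218863) (b (l 16502224) (l 141204333679444079)))) (b (b (l 16349944) (a (l 16419664) (l 16396032))) (a (b (l 16479352) (l 6)) (l 6))))) (a (a (b (l 141723990402695407) (b (l 141803636380319983) (b (l 142059822601126127) (l 6)))) (b (l 141647093329576047) (l 6))) (b (l 6) (l 6)))))), by decide +kernel⟩

theorem s6_pp_102_a : ∃ t, chk3 f_pp_102_a t 7 7 1 = true := ex3_a k4_pp_102_a k5_pp_102_a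

theorem s7_pp_102_a : ∃ t, chk3 f_pp_102_a t 7 3 1 = true := ex3_b k3_pp_102_a s6_pp_102_a

theorem s8_pp_102_a : ∃ t, chk3 f_pp_102_a t 3 3 1 = true := ex3_a k2_pp_102_a s7_pp_102_a

theorem s9_pp_102_a : ∃ t, chk3 f_pp_102_a t 3 1 1 = true := ex3_b k1_pp_102_a s8_pp_102_a

theorem s10_pp_102_a : ∃ t, chk3 f_pp_102_a t 1 1 1 = true := ex3_a k0_pp_102_a s9_pp_102_a

theorem c_pp_102_a : CertB 536870912 536870912 0 536870912 1020054732 13421774 3 eng mog cd3q1 cd1q2a pd0 false true true .npp 1 0 2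
    ndB3q1 ndB1q2a pcB0 cut_pp_102_a xt_pp_102_a :=
  certB0 (fam := false) (s1 := true) (s2 := true) (a := 1) (b := 0) (c := 2) (cn := .npp) (n1 := ndB3q1) (n2 := ndB1q2a) (pc := pcB0) (cut := cut_pp_102_a) (xt := xt_pp_102_a) (P1 := 536870912) (W1 := 536870912) (P2 := 0) (W2 := 536870912) (P3 := 1020054732) (W3 := 13421774) (N0 := 3) (En := eng) (mo := mog) (C1 := cd3q1) (C2 := cd1q2a) (C3 := pd0)
    rfl s10_pp_102_a

noncomputable def cut_pp_102_b : Cut := Cut.of [[⟨0, 1, 0, 38347922⟩, ⟨1, 0, 0, 38347922⟩, ⟨2, 1, 0, 38347922⟩]]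

noncomputable def f_pp_102_b : ℕ → ℕ → ℕ → ℕ → Bool := onCell 536870912 536870912 0 536870912 1020054732 13421774
    (rowB 3 eng mog cd3q1 cd1q2b pd0 1 false true true .npp 1 0 2 (qsf 536870912 536870912 1239849684 370763052 0) ndB3q1 ndB1q2b pcB0 cut_pp_102_b Ext.none)

def k0_pp_102_b : ∃ t, chk3 f_pp_102_b t 1 1 1 = true :=
  ⟨(a (b (l 1) (b (l 1) (a (l 1) (b (a (l 1) (b (l 14840808) (l 14688064))) (a (l 460664784439) (l 14599144)))))) (b (a (l 1) (b (l 1) (b (a (l 1) (l 560521825015)) (a (l 474622830679) (l 14194512))))) (b (a (b (a (l 1) (l 456369402775)) (a (l 452074443959) (l 337183260455))) (b (a (l 14343848) (l 13823808)) (a (l 13958728) (l 13452888)))) (a (b (a (b (l 14507464) (l 14307744)) (l 14023240)) (a (l 14157928) (l 13713432))) (b (a (l 13586600) (l 13100680)) (a (l 13258792) (l 12782248))))))), by decide +kernel⟩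

theorem c_pp_102_b : CertB 536870912 536870912 1239849684 370763052 1020054732 13421774 3 eng mog cd3q1 cd1q2b pd0 false true true .npp 1 0 2
    ndB3q1 ndB1q2b pcB0 cut_pp_102_b Ext.none :=
  certB1 (fam := false) (s1 := true) (s2 := true) (a := 1) (b := 0) (c := 2) (cn := .npp) (n1 := ndB3q1) (n2 := ndB1q2b) (pc := pcB0) (cut := cut_pp_102_b) (xt := Ext.none) (P1 := 536870912) (W1 := 536870912) (P2 := 1239849684) (W2 := 370763052) (P3 := 1020054732) (W3 := 13421774) (N0 := 3) (En := eng) (mo := mog) (C1 := cd3q1) (C2 := cd1q2b) (C3 := pd0)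
    rfl (fun _ => rfl) k0_pp_102_b

noncomputable def f_pp_112_a : ℕ → ℕ → ℕ → ℕ → Bool := onCell 536870912 536870912 0 536870912 1020054732 13421774
    (rowB 3 eng mog cd3q1 cd1q2a pd1 2 false true true .dn 1 1 2 (qsf 536870912 536870912 0 536870912 1) ndB3q1 ndB1q2a pcB1 Cut.none Ext.none)

def k0_pp_112_a : ∃ t, chk3 f_pp_112_a t 1 1 1 = true :=
  ⟨(a (a (a (b (a (b (c (l 16109288) (l 15931128)) (b (c (l 15952072) (l 15892800)) (b (l 15786480) (l 16082920)))) (b (c (l 16245656) (l 15977976)) (b (c (l 16001840) (l 15963216)) (c (l 16153752) (l 16079432))))) (b (b (c (a (l 16304224) (b (l 16423520) (l 16540368))) (a (l 16218256) (l 16281616))) (c (b (a (l 16355312) (l 16313136)) (a (l 16032456) (l 16046080))) (c (l 16145808) (l 16334896)))) (b (c (b (a (l 15691368) (l 15719968)) (a (b (l 15554448) (l 15580376)) (b (l 15625880) (l 15595144)))) (b (c (l 16109672) (l 16313760)) (c (l 15713496) (l 16130152)))) (b (c (a (b (l 15560240) (l 15535168)) (l 15388920)) (c (l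 15656568) (l 15921992))) (a (b (c (l 15483808) (l 15820768)) (a (c (b (l 15480712) (l 15461576)) (l 15675672)) (l 1))) (l 1)))))) (b (c (b (b (l 16327504) (l 16160680)) (b (a (l 16060680) (l 16124680)) (a (l 16258408) (l 16340184)))) (b (l 15849840) (b (l 15920096) (l 16060456)))) (b (c (b (c (l 16426904) (l 16428184)) (b (l 16083688) (a (l 16063192) (l 1)))) (b (l 37076272071) (c (l 16284944) (l 16392096)))) (a (b (b (c (l 15773904) (l 16203384)) (l 1)) (l 1)) (l 1))))) (b (a (b (c (b (l 16309720) (l 16214352)) (l 15894848)) (a (b (b (l 16138976) (l 16198360)) (c (l 16399408) (l 16251712))) (l 1))) (l 1)) (b (l 1) (l 1)))) (l 1)), by decide +kernel⟩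

theorem c_pp_112_a : CertB 536870912 536870912 0 536870912 1020054732 13421774 3 eng mog cd3q1 cd1q2a pd1 false true true .dn 1 1 2
    ndB3q1 ndB1q2a pcB1 Cut.none Ext.none :=
  certB2 (fam := false) (s1 := true) (s2 := true) (a := 1) (b := 1) (c := 2) (cn := .dn) (n1 := ndB3q1) (n2 := ndB1q2a) (pc := pcB1) (cut := Cut.none) (xt := Ext.none) (P1 := 536870912) (W1 := 536870912) (P2 := 0) (W2 := 536870912) (P3 := 1020054732) (W3 := 13421774) (N0 := 3) (En := eng) (mo := mog) (C1 := cd3q1) (C2 := cd1q2a) (C3 := pd1)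
    rfl (fun _ => rfl) k0_pp_112_a

noncomputable def f_pp_112_b : ℕ → ℕ → ℕ → ℕ → Bool := onCell 536870912 536870912 1239849684 370763052 1020054732 13421774
    (rowB 3 eng mog cd3q1 cd1q2b pd1 2 false true true .dn 1 1 2 (qsf 536870912 536870912 1239849684 370763052 1) ndB3q1 ndB1q2b pcB1 Cut.none Ext.none)

def k0_pp_112_b : ∃ t, chk3 f_pp_112_b t 1 1 1 = true :=
  ⟨(a (a (b (a (b (c (l 16088312) (l 15602888)) (c (l 15660648) (l 15387128))) (b (c (l 16201600) (l 15724504)) (c (l 15958952) (l 15521896)))) (a (b (c (l 15330904) (l 14868328)) (a (l 14389968) (l 14535192))) (b (c (l 15504400) (l 15061512)) (l 14534272)))) (b (a (b (c (l 16061328) (l 15798728)) (c (l 16009408) (l 15620568))) (b (c (l 486974102263) (l 15767968)) (c (l 16029024) (l 15686552)))) (a (b (c (l 15629000) (l 15210824)) (l 14864696)) (b (c (l 15705576) (l 15317112)) (l 15055800))))) (a (b (b (l 1) (a (c (l 16026752) (l 15723640)) (c (l 16009104) (l 15735296)))) (a (b (c (l 15739992) (l 15382280))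 (l 15043048)) (b (c (l 15740368) (l 15409240)) (l 14997432)))) (b (l 1) (b (a (l 375840481303) (l 1)) (a (l 201893353591) (l 583608458359)))))), by decide +kernel⟩

theorem c_pp_112_b : CertB 536870912 536870912 1239849684 370763052 1020054732 13421774 3 eng mog cd3q1 cd1q2b pd1 false true true .dn 1 1 2
    ndB3q1 ndB1q2b pcB1 Cut.none Ext.none :=
  certB2 (fam := false) (s1 := true) (s2 := true) (a := 1) (b := 1) (c := 2) (cn := .dn) (n1 := ndB3q1) (n2 := ndB1q2b) (pc := pcB1) (cut := Cut.none) (xt := Ext.none) (P1 := 536870912) (W1 := 536870912) (P2 := 1239849684) (W2 := 370763052) (P3 := 1020054732) (W3 := 13421774) (N0 := 3) (En := eng) (mo := mog) (C1 := cd3q1) (C2 := cd1q2b) (C3 := pd1)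
    rfl (fun _ => rfl) k0_pp_112_b

noncomputable def f_pp_113 : ℕ → ℕ → ℕ → ℕ → Bool := onCell 536870912 536870912 1610612736 536870912 1020054732 13421774
    (rowB 3 eng mog cd3q1 cd1q3 pd1 2 false true true .nn 1 1 3 (qsf 536870912 536870912 1610612736 536870912 1) ndB3q1 ndB1q3 pcB1 Cut.none Ext.none)

def k0_pp_113 : ∃ t, chk3 f_pp_113 t 1 1 1 = true :=
  ⟨(a (b (a (b (a (b (a (l 13546176) (l 13742848)) (l 312551680807)) (b (l 14015664) (l 13492128))) (a (l 2) (b (l 12963984) (l 2)))) (b (a (b (l 14336976) (l 13847040)) (b (l 14593848) (l 14155264))) (a (b (l 13340232) (l 12828576)) (b (l 13684592) (l 13204328))))) (b (a (l 2) (a (l 2) (b (l 12719720) (l 2)))) (l 2))) (b (a (b (a (b (l 14779856) (l 14385288)) (b (l 14896096) (l 14528848))) (a (b (l 13967480) (l 13535216)) (b (l 14149760) (l 13776048)))) (b (a (b (l 14951536) (l 14592200)) (b (l 14953120) (l 14588928))) (a (b (l 14225624) (l 13878672)) (b (l 14213080) (l 13853232))))) (a (b (a (b (l 13110480) (l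 12721464)) (b (l 13431392) (l 13177832))) (b (a (l 2) (l 12986080)) (l 2))) (b (b (a (l 13598688) (l 13565248)) (l 13546432)) (b (l 14026624) (a (l 15333888) (l 16657104))))))), by decide +kernel⟩

theorem c_pp_113 : CertB 536870912 536870912 1610612736 536870912 1020054732 13421774 3 eng mog cd3q1 cd1q3 pd1 false true true .nn 1 1 3
    ndB3q1 ndB1q3 pcB1 Cut.none Ext.none :=
  certB2 (fam := false) (s1 := true) (s2 := true) (a := 1) (b := 1) (c := 3) (cn := .nn) (n1 := ndB3q1) (n2 := ndB1q3) (pc := pcB1) (cut := Cut.none) (xt := Ext.none) (P1 := 536870912) (W1 := 536870912) (P2 := 1610612736) (W2 := 536870912) (P3 := 1020054732) (W3 := 13421774) (N0 := 3) (En := eng) (mo := mog) (C1 := cd3q1) (C2 := cd1q3) (C3 := pd1)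
    rfl (fun _ => rfl) k0_pp_113

noncomputable def f_pp_123 : ℕ → ℕ → ℕ → ℕ → Bool := onCell 1073741824 536870912 1610612736 536870912 1020054732 13421774
    (rowB 3 eng mog cd3q1 cd1q3 pd2 2 false true true .npn 1 2 3 (qsf 536870912 536870912 1610612736 536870912 2) ndB3q1 ndB1q3 pcB2 Cut.none Ext.none)

def k0_pp_123 : ∃ t, chk3 f_pp_123 t 1 1 1 = true :=
  ⟨(a (a (b (b (a (b (l 14760912) (l 14508728)) (b (l 14924560) (l 14796752))) (a (b (l 14243784) (l 13994024)) (b (l 14658624) (l 14537680)))) (b (a (b (l 13811824) (l 13600016)) (b (l 14478984) (l 14561552))) (a (b (l 14877296) (l 15956184)) (b (l 14936816) (l 4))))) (b (b (a (l 632464507559) (l 1)) (a (l 14970400) (l 588440612535))) (b (a (b (l 14977944) (l 15076080)) (b (l 15353816) (l 4))) (l 4)))) (b (a (b (l 1) (a (l 658771275015) (l 1))) (l 1)) (a (b (l 4) (l 4)) (l 4)))), by decide +kernel⟩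

theorem c_pp_123 : CertB 536870912 536870912 1610612736 536870912 1020054732 13421774 3 eng mog cd3q1 cd1q3 pd2 false true true .npn 1 2 3
    ndB3q1 ndB1q3 pcB2 Cut.none Ext.none :=
  certB2 (fam := false) (s1 := true) (s2 := true) (a := 1) (b := 2) (c := 3) (cn := .npn) (n1 := ndB3q1) (n2 := ndB1q3) (pc := pcB2) (cut := Cut.none) (xt := Ext.none) (P1 := 536870912) (W1 := 536870912) (P2 := 1610612736) (W2 := 536870912) (P3 := 1020054732) (W3 := 13421774) (N0 := 3) (En := eng) (mo := mog) (C1 := cd3q1) (C2 := cd1q3) (C3 := pd2)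
    rfl (fun _ => rfl) k0_pp_123

noncomputable def f_pp_133 : ℕ → ℕ → ℕ → ℕ → Bool := onCell 1610612736 536870912 1610612736 536870912 1020054732 13421774
    (rowB 3 eng mog cd3q1 cd1q3 pd3 2 false true true .dn 1 3 3 (qsf 536870912 536870912 1610612736 536870912 3) ndB3q1 ndB1q3 pcB3 Cut.none Ext.none)

def k0_pp_133 : ∃ t, chk3 f_pp_133 t 1 1 1 = true :=
  ⟨(a (b (l 1) (a (l 4) (l 1))) (l 1)), by decide +kernel⟩

theorem c_pp_133 : CertB 536870912 536870912 1610612736 536870912 1020054732 13421774 3 eng mog cd3q1 cd1q3 pd3 false true true .dn 1 3 3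
    ndB3q1 ndB1q3 pcB3 Cut.none Ext.none :=
  certB2 (fam := false) (s1 := true) (s2 := true) (a := 1) (b := 3) (c := 3) (cn := .dn) (n1 := ndB3q1) (n2 := ndB1q3) (pc := pcB3) (cut := Cut.none) (xt := Ext.none) (P1 := 536870912) (W1 := 536870912) (P2 := 1610612736) (W2 := 536870912) (P3 := 1020054732) (W3 := 13421774) (N0 := 3) (En := eng) (mo := mog) (C1 := cd3q1) (C2 := cd1q3) (C3 := pd3)
    rfl (fun _ => rfl) k0_pp_133

noncomputable def f_pp_202_a : ℕ → ℕ → ℕ → ℕ → Bool := onCell 1073741824 536870912 0 536870912 1020054732 13421774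
    (rowB 3 eng mog cd3q2 cd1q2a pd0 0 false true true .pp 2 0 2 (qsf 1073741824 536870912 0 536870912 0) ndB3q2 ndB1q2a pcB0 Cut.none Ext.none)

def k0_pp_202_a : ∃ t, chk3 f_pp_202_a t 1 1 1 = true :=
  ⟨(l 3), by decide +kernel⟩

theorem c_pp_202_a : CertB 1073741824 536870912 0 536870912 1020054732 13421774 3 eng mog cd3q2 cd1q2a pd0 false true true .pp 2 0 2
    ndB3q2 ndB1q2a pcB0 Cut.none Ext.none :=
  certB0 (fam := false) (s1 := true) (s2 := true) (a := 2) (b := 0) (c := 2) (cn := .pp) (n1 := ndB3q2) (n2 := ndB1q2a) (pc := pcB0) (cut := Cut.none) (xt := Ext.none) (P1 := 1073741824) (W1 := 536870912) (P2 := 0) (W2 := 536870912) (P3 := 1020054732) (W3 := 13421774) (N0 := 3) (En := eng) (mo := mog) (C1 := cd3q2) (C2 := cd1q2a) (C3 := pd0)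
    rfl k0_pp_202_a

noncomputable def f_pp_202_b : ℕ → ℕ → ℕ → ℕ → Bool := onCell 1073741824 536870912 1239849684 370763052 1020054732 13421774
    (rowB 3 eng mog cd3q2 cd1q2b pd0 0 false true true .pp 2 0 2 (qsf 1073741824 536870912 1239849684 370763052 0) ndB3q2 ndB1q2b pcB0 Cut.none Ext.none)

def k0_pp_202_b : ∃ t, chk3 f_pp_202_b t 1 1 1 = true :=
  ⟨(l 3), by decide +kernel⟩

theorem c_pp_202_b : CertB 1073741824 536870912 1239849684 370763052 1020054732 13421774 3 eng mog cd3q2 cd1q2b pd0 false true true .pp 2 0 2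
    ndB3q2 ndB1q2b pcB0 Cut.none Ext.none :=
  certB0 (fam := false) (s1 := true) (s2 := true) (a := 2) (b := 0) (c := 2) (cn := .pp) (n1 := ndB3q2) (n2 := ndB1q2b) (pc := pcB0) (cut := Cut.none) (xt := Ext.none) (P1 := 1073741824) (W1 := 536870912) (P2 := 1239849684) (W2 := 370763052) (P3 := 1020054732) (W3 := 13421774) (N0 := 3) (En := eng) (mo := mog) (C1 := cd3q2) (C2 := cd1q2b) (C3 := pd0)
    rfl k0_pp_202_b

noncomputable def f_pp_203 : ℕ → ℕ → ℕ → ℕ → Bool := onCell 1073741824 536870912 0 536870912 1020054732 13421774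
    (rowB 3 eng mog cd3q2 cd1q3 pd0 1 false true true .up 2 0 3 (qsf 1073741824 536870912 1610612736 536870912 0) ndB3q2 ndB1q3 pcB0 Cut.none Ext.none)

def k0_pp_203 : ∃ t, chk3 f_pp_203 t 1 1 1 = true :=
  ⟨(l 3), by decide +kernel⟩

theorem c_pp_203 : CertB 1073741824 536870912 1610612736 536870912 1020054732 13421774 3 eng mog cd3q2 cd1q3 pd0 false true true .up 2 0 3
    ndB3q2 ndB1q3 pcB0 Cut.none Ext.none :=
  certB1 (fam := false) (s1 := true) (s2 := true) (a := 2) (b := 0) (c := 3) (cn := .up) (n1 := ndB3q2) (n2 := ndB1q3) (pc := pcB0) (cut := Cut.none) (xt := Ext.none) (P1 := 1073741824) (W1 := 536870912) (P2 := 1610612736) (W2 := 536870912) (P3 := 1020054732) (W3 := 13421774) (N0 := 3) (En := eng) (mo := mog) (C1 := cd3q2) (C2 := cd1q3) (C3 := pd0)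
    rfl (fun _ => rfl) k0_pp_203

noncomputable def xt_pp_213 : Ext := extD3 3 ⟨4, 1, 1, 5, 99, 20, 33, 40, 51, 125, 1, 32⟩ eng cd3q2 cd1q3 pd1 false true true .pnn 2 1 3 rfl ndB3q2 ndB1q3 pcB1

noncomputable def f_pp_213 : ℕ → ℕ → ℕ → ℕ → Bool := onCell 1073741824 536870912 1610612736 536870912 1020054732 13421774
    (rowB 3 eng mog cd3q2 cd1q3 pd1 0 false true true .pnn 2 1 3 (qsf 1073741824 536870912 1610612736 536870912 1) ndB3q2 ndB1q3 pcB1 Cut.none xt_pp_213)

def k0_pp_213 : ∃ t, chk3 f_pp_213 t 1 1 1 = true :=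
  ⟨(a (b (l 3) (b (l 3) (a (b (l 3) (a (b (l 3) (a (b (a (b (a (l 16639216) (l 16657480)) (a (l 16665984) (l 16658312))) (l 141582840583028767)) (a (b (a (l 16743872) (l 16704080)) (a (l 16732240) (l 16775808))) (b (a (l 16675696) (l 16652576)) (a (l 16697896) (l 16678448))))) (b (l 3) (b (l 3) (a (l 16566600) (l 3)))))) (l 3))) (l 3)))) (l 3)), by decide +kernel⟩

theorem c_pp_213 : CertB 1073741824 536870912 1610612736 536870912 1020054732 13421774 3 eng mog cd3q2 cd1q3 pd1 false true true .pnn 2 1 3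
    ndB3q2 ndB1q3 pcB1 Cut.none xt_pp_213 :=
  certB0 (fam := false) (s1 := true) (s2 := true) (a := 2) (b := 1) (c := 3) (cn := .pnn) (n1 := ndB3q2) (n2 := ndB1q3) (pc := pcB1) (cut := Cut.none) (xt := xt_pp_213) (P1 := 1073741824) (W1 := 536870912) (P2 := 1610612736) (W2 := 536870912) (P3 := 1020054732) (W3 := 13421774) (N0 := 3) (En := eng) (mo := mog) (C1 := cd3q2) (C2 := cd1q3) (C3 := pd1)
    rfl k0_pp_213

noncomputable def f_pp_303 : ℕ → ℕ → ℕ → ℕ → Bool := onCell 0 1230186008 1610612736 536870912 1020054732 13421774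
    (rowB 3 eng mog cd3q3 cd1q3 pd0 0 false true true .npn 3 0 3 (qsf 0 1230186008 1610612736 536870912 0) ndB3q3 ndB1q3 pcB0 Cut.none Ext.none)

def k0_pp_303 : ∃ t, chk3 f_pp_303 t 1 1 1 = true :=
  ⟨(a (l 3) (l 3)), by decide +kernel⟩

theorem c_pp_303 : CertB 0 1230186008 1610612736 536870912 1020054732 13421774 3 eng mog cd3q3 cd1q3 pd0 false true true .npn 3 0 3
    ndB3q3 ndB1q3 pcB0 Cut.none Ext.none :=
  certB0 (fam := false) (s1 := true) (s2 := true) (a := 3) (b := 0) (c := 3) (cn := .npn) (n1 := ndB3q3) (n2 := ndB1q3) (pc := pcB0) (cut := Cut.none) (xt := Ext.none) (P1 := 0) (W1 := 1230186008) (P2 := 1610612736) (W2 := 536870912) (P3 := 1020054732) (W3 := 13421774) (N0 := 3) (En := eng) (mo := mog) (C1 := cd3q3) (C2 := cd1q3) (C3 := pd0)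
    rfl k0_pp_303

noncomputable def f_pp_313 : ℕ → ℕ → ℕ → ℕ → Bool := onCell 0 1230186008 1610612736 536870912 1020054732 13421774
    (rowB 3 eng mog cd3q3 cd1q3 pd1 0 false true true .dn 3 1 3 (qsf 0 1230186008 1610612736 536870912 1) ndB3q3 ndB1q3 pcB1 Cut.none Ext.none)

def k0_pp_313 : ∃ t, chk3 f_pp_313 t 1 1 1 = true :=
  ⟨(a (l 1) (l 3)), by decide +kernel⟩

theorem c_pp_313 : CertB 0 1230186008 1610612736 536870912 1020054732 13421774 3 eng mog cd3q3 cd1q3 pd1 false true true .dn 3 1 3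
    ndB3q3 ndB1q3 pcB1 Cut.none Ext.none :=
  certB0 (fam := false) (s1 := true) (s2 := true) (a := 3) (b := 1) (c := 3) (cn := .dn) (n1 := ndB3q3) (n2 := ndB1q3) (pc := pcB1) (cut := Cut.none) (xt := Ext.none) (P1 := 0) (W1 := 1230186008) (P2 := 1610612736) (W2 := 536870912) (P3 := 1020054732) (W3 := 13421774) (N0 := 3) (En := eng) (mo := mog) (C1 := cd3q3) (C2 := cd1q3) (C3 := pd1)
    rfl k0_pp_313

noncomputable def f_pm_001 : ℕ → ℕ → ℕ → ℕ → Bool := onCell 0 536870912 536870912 536870912 1020054732 13421774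
    (rowB 3 eng mog cd3q0 cd1q1 pd0 0 false true false .up 0 0 1 (qsf 0 536870912 536870912 536870912 0) ndB3q0 ndB1q1 pcB0 Cut.none Ext.none)

def k0_pm_001 : ∃ t, chk3 f_pm_001 t 1 1 1 = true :=
  ⟨(l 4), by decide +kernel⟩

theorem c_pm_001 : CertB 0 536870912 536870912 536870912 1020054732 13421774 3 eng mog cd3q0 cd1q1 pd0 false true false .up 0 0 1
    ndB3q0 ndB1q1 pcB0 Cut.none Ext.none :=
  certB0 (fam := false) (s1 := true) (s2 := false) (a := 0) (b := 0) (c := 1) (cn := .up) (n1 := ndB3q0) (n2 := ndB1q1) (pc := pcB0) (cut := Cut.none) (xt := Ext.none) (P1 := 0) (W1 := 536870912) (P2 := 536870912) (W2 := 536870912) (P3 := 1020054732) (W3 := 13421774) (N0 := 3) (En := eng) (mo := mog) (C1 := cd3q0) (C2 := cd1q1) (C3 := pd0)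
    rfl k0_pm_001

noncomputable def f_pm_011 : ℕ → ℕ → ℕ → ℕ → Bool := onCell 0 536870912 536870912 536870912 1020054732 13421774
    (rowB 3 eng mog cd3q0 cd1q1 pd1 0 false true false .pnn 0 1 1 (qsf 0 536870912 536870912 536870912 1) ndB3q0 ndB1q1 pcB1 Cut.none Ext.none)

def k0_pm_011 : ∃ t, chk3 f_pm_011 t 1 1 1 = true :=
  ⟨(l 4), by decide +kernel⟩

theorem c_pm_011 : CertB 0 536870912 536870912 536870912 1020054732 13421774 3 eng mog cd3q0 cd1q1 pd1 false true false .pnn 0 1 1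
    ndB3q0 ndB1q1 pcB1 Cut.none Ext.none :=
  certB0 (fam := false) (s1 := true) (s2 := false) (a := 0) (b := 1) (c := 1) (cn := .pnn) (n1 := ndB3q0) (n2 := ndB1q1) (pc := pcB1) (cut := Cut.none) (xt := Ext.none) (P1 := 0) (W1 := 536870912) (P2 := 536870912) (W2 := 536870912) (P3 := 1020054732) (W3 := 13421774) (N0 := 3) (En := eng) (mo := mog) (C1 := cd3q0) (C2 := cd1q1) (C3 := pd1)
    rfl k0_pm_011

noncomputable def xt_pm_012_a : Ext := extD3 3 ⟨4, 1, 1, 5, 99, 20, 33, 40, 51, 125, 1, 32⟩ eng cd3q0 cd1q2a pd1 false true false .pnp 0 1 2 rfl ndB3q0 ndB1q2a pcB1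

noncomputable def f_pm_012_a : ℕ → ℕ → ℕ → ℕ → Bool := onCell 536870912 536870912 0 536870912 1020054732 13421774
    (rowB 3 eng mog cd3q0 cd1q2a pd1 2 false true false .pnp 0 1 2 (qsf 0 536870912 0 536870912 1) ndB3q0 ndB1q2a pcB1 Cut.none xt_pm_012_a)

def k0_pm_012_a : ∃ t, chk3 f_pm_012_a t 1 1 1 = true :=
  ⟨(a (b (a (b (l 2) (a (l 2) (l 14098464))) (a (b (b (l 14110704) (a (l 14027184) (l 14033432))) (l 14084344)) (b (b (a (l 14308392) (b (l 14479456) (l 14324680))) (a (l 14066624) (b (l 14178336) (l 14057872)))) (l 14132904)))) (l 4)) (b (a (a (b (b (a (b (l 14533200) (l 14446336)) (a (l 14536720) (l 14568416))) (b (a (l 14289664) (l 14431992)) (a (l 14167720) (l 14281736)))) (b (a (l 14138680) (b (l 14196552) (l 14231520))) (l 14295248))) (a (b (b (l 14628712) (b (a (l 14535296) (l 14579472)) (l 14444440))) (b (b (l 14199664) (l 14293856)) (l 14412360))) (b (b (l 14714312) (b (l 14650504) (a (l 14570872) (l 14626072)))) (b (b (a (l 14440752) (l 14541648))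 (a (l 14370424) (l 14443336))) (l 14501552))))) (a (b (a (b (l 14829744) (l 14732912)) (l 14919136)) (b (b (a (a (l 14636504) (b (l 14721344) (l 14698616))) (l 14805280)) (a (a (l 14539248) (a (l 14605560) (l 14667544))) (a (b (l 14749184) (l 14727096)) (a (b (l 14808048) (l 14796184)) (l 14839160))))) (a (b (a (l 14517296) (l 14585048)) (l 14643256)) (a (b (b (l 14673440) (l 14656160)) (l 14705392)) (b (b (b (l 14805280) (l 14790352)) (l 14755016)) (b (l 14751144) (l 14797416))))))) (b (a (l 15082248) (l 15125192)) (a (b (l 14939296) (b (a (c (c (l 14686064) (l 14865776)) (l 14852432)) (l 14965576)) (b (a (a (l 14822368) (l 14886480)) (c (l 14955992) (l 14943392))) (a (l 122917802594107455) (l 124053048534908991))))) (b (l 15107808) (b (l 15090704) (a (l 15026120) (l 15151936)))))))) (a (b (l 4) (l 4)) (b (a (a (l 4) (b (l 14925352) (l 4))) (b (a (a (l 15007168) (l 125324840131969087)) (a (b (a (l 125457743607415039) (l 15013888)) (l 126742591903301759)) (b (l 15182904)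 (l 161829551639)))) (l 4))) (l 4))))), by decide +kernel⟩

theorem c_pm_012_a : CertB 0 536870912 0 536870912 1020054732 13421774 3 eng mog cd3q0 cd1q2a pd1 false true false .pnp 0 1 2
    ndB3q0 ndB1q2a pcB1 Cut.none xt_pm_012_a :=
  certB2 (fam := false) (s1 := true) (s2 := false) (a := 0) (b := 1) (c := 2) (cn := .pnp) (n1 := ndB3q0) (n2 := ndB1q2a) (pc := pcB1) (cut := Cut.none) (xt := xt_pm_012_a) (P1 := 0) (W1 := 536870912) (P2 := 0) (W2 := 536870912) (P3 := 1020054732) (W3 := 13421774) (N0 := 3) (En := eng) (mo := mog) (C1 := cd3q0) (C2 := cd1q2a) (C3 := pd1)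
    rfl (fun _ => rfl) k0_pm_012_a

noncomputable def f_pm_012_b : ℕ → ℕ → ℕ → ℕ → Bool := onCell 0 536870912 536870912 536870912 1020054732 13421774
    (rowB 3 eng mog cd3q0 cd1q2b pd1 1 false true false .pnp 0 1 2 (qsf 0 536870912 1239849684 370763052 1) ndB3q0 ndB1q2b pcB1 Cut.none Ext.none)

def k0_pm_012_b : ∃ t, chk3 f_pm_012_b t 1 1 1 = true :=
  ⟨(a (b (l 1) (a (l 1) (b (l 1) (a (b (l 1) (a (b (l 1) (l 15696944)) (b (l 15604896) (l 15420048)))) (a (b (l 571261095751) (a (l 15213688) (l 15020856))) (b (l 315172962311) (l 14721992))))))) (b (a (l 1) (b (l 1) (a (b (l 1) (b (l 608840659863) (l 586828642823))) (b (l 617430098183) (a (l 14383080) (l 14183088)))))) (b (a (a (b (l 1) (a (l 568576051959) (l 14838080))) (b (a (l 14906648) (l 14676280)) (a (l 14568408) (l 14322000)))) (b (a (a (l 14468296) (l 14273296)) (a (l 14092120) (l 13890768))) (a (l 13999456) (a (l 13720336) (l 13556760))))) (a (a (b (a (l 14787384) (l 14477584)) (a (l 14392944) (l 14068360)))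 (b (a (l 14192072) (l 13932032)) (l 13633456))) (a (b (l 13593296) (l 13150384)) (a (l 13093008) (b (l 13150400) (l 12691776)))))))), by decide +kernel⟩

theorem c_pm_012_b : CertB 0 536870912 1239849684 370763052 1020054732 13421774 3 eng mog cd3q0 cd1q2b pd1 false true false .pnp 0 1 2
    ndB3q0 ndB1q2b pcB1 Cut.none Ext.none :=
  certB1 (fam := false) (s1 := true) (s2 := false) (a := 0) (b := 1) (c := 2) (cn := .pnp) (n1 := ndB3q0) (n2 := ndB1q2b) (pc := pcB1) (cut := Cut.none) (xt := Ext.none) (P1 := 0) (W1 := 536870912) (P2 := 1239849684) (W2 := 370763052) (P3 := 1020054732) (W3 := 13421774) (N0 := 3) (En := eng) (mo := mog) (C1 := cd3q0) (C2 := cd1q2b) (C3 := pd1)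
    rfl (fun _ => rfl) k0_pm_012_b

noncomputable def f_pm_022_a : ℕ → ℕ → ℕ → ℕ → Bool := onCell 0 536870912 0 536870912 1020054732 13421774
    (rowB 3 eng mog cd3q0 cd1q2a pd2 0 false true false .pp 0 2 2 (qsf 0 536870912 0 536870912 2) ndB3q0 ndB1q2a pcB2 Cut.none Ext.none)

def k0_pm_022_a : ∃ t, chk3 f_pm_022_a t 1 1 1 = true :=
  ⟨(a (b (a (b (a (a (a (b (l 15811736) (l 15963144)) (a (l 15832584) (b (l 15759200) (l 15876112)))) (a (a (l 15743480) (l 15804032)) (b (l 15753032) (l 15822112)))) (a (b (l 15673032) (l 15695736)) (b (l 15497928) (l 15458536)))) (a (a (a (b (l 16117496) (l 16241520)) (a (b (l 16048664) (l 16169200)) (b (l 15993816) (l 16097624)))) (a (b (a (l 15958488) (l 15934888)) (a (l 16046608) (l 16006912))) (b (l 15888368) (a (l 15963112) (l 15904936))))) (a (b (l 15713352) (a (l 15789096) (l 15618616))) (b (l 15409680) (l 15232512))))) (a (b (a (b (l 15267784) (l 15166096)) (b (l 1) (l 1))) (a (b (l 15055776) (l 14900504)) (l 1))) (l 1))) (a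 (b (a (a (a (b (b (l 16356936) (l 16369392)) (b (l 16454432) (a (l 16536208) (l 16430496)))) (a (b (l 16264240) (b (l 16307440) (l 16317520))) (b (a (l 16197112) (l 16150304)) (b (l 16197680) (a (l 16228128) (l 16166824)))))) (b (a (a (l 16101240) (l 16042752)) (a (l 15980336) (l 15903920))) (a (b (a (l 16110552) (l 16037768)) (a (l 16101040) (l 16024536))) (b (a (l 15962096) (l 15873848)) (a (l 15950248) (l 15867008)))))) (b (a (a (l 15761120) (l 15558560)) (b (l 15260424) (a (l 15320064) (l 1)))) (a (b (a (l 15720528) (l 15513632)) (l 4)) (l 4)))) (a (b (b (a (a (a (l 16556336) (l 16418544)) (a (l 16319192) (a (l 16227584) (l 16167560)))) (a (a (l 16001304) (l 4)) (l 4))) (a (a (a (b (l 16543800) (l 16557104)) (l 141967898359)) (l 4)) (l 4))) (l 4)) (l 4))) (b (l 1) (l 1)))) (l 1)), by decide +kernel⟩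

theorem c_pm_022_a : CertB 0 536870912 0 536870912 1020054732 13421774 3 eng mog cd3q0 cd1q2a pd2 false true false .pp 0 2 2
    ndB3q0 ndB1q2a pcB2 Cut.none Ext.none :=
  certB0 (fam := false) (s1 := true) (s2 := false) (a := 0) (b := 2) (c := 2) (cn := .pp) (n1 := ndB3q0) (n2 := ndB1q2a) (pc := pcB2) (cut := Cut.none) (xt := Ext.none) (P1 := 0) (W1 := 536870912) (P2 := 0) (W2 := 536870912) (P3 := 1020054732) (W3 := 13421774) (N0 := 3) (En := eng) (mo := mog) (C1 := cd3q0) (C2 := cd1q2a) (C3 := pd2)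
    rfl k0_pm_022_a

noncomputable def f_pm_022_b : ℕ → ℕ → ℕ → ℕ → Bool := onCell 0 536870912 1073741824 536870912 1020054732 13421774
    (rowB 3 eng mog cd3q0 cd1q2b pd2 1 false true false .pp 0 2 2 (qsf 0 536870912 1239849684 370763052 2) ndB3q0 ndB1q2b pcB2 Cut.none Ext.none)

def k0_pm_022_b : ∃ t, chk3 f_pm_022_b t 2 1 1 = true :=
  ⟨(b (a (b (a (b (l 1) (a (a (l 1) (a (l 1) (b (l 1) (l 629243948791)))) (a (b (l 1) (a (l 15763096) (l 15728152))) (b (l 667898617879) (l 15672160))))) (b (a (b (l 1) (l 647497492823)) (b (l 15684312) (l 15511752))) (b (a (l 15655424) (l 15386240)) (a (l 15515344) (l 15299936))))) (a (a (a (b (b (b (l 15844024) (l 15736048)) (l 15607448)) (b (l 15481112) (l 15398704))) (b (a (b (l 15693456) (l 15543560)) (b (l 15633552) (l 15498848))) (a (l 15402936) (a (l 15385920) (l 15374528))))) (b (a (a (b (l 15596368) (l 15474464)) (l 15513056)) (b (l 15535360) (l 15441304))) (a (b (l 15392888) (l 15339672)) (l 15356576)))) (b (b (l 15081680)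 (l 15299320)) (a (l 15346296) (l 15296616))))) (b (b (a (b (a (l 15312888) (l 14956856)) (a (l 15195704) (l 14892816))) (b (l 14457712) (l 14469128))) (a (b (l 14998392) (l 14988336)) (b (l 14525696) (l 14611656)))) (b (a (b (l 15013496) (l 15072384)) (l 14797456)) (a (l 15179912) (l 15141096))))) (a (b (a (a (a (b (l 15332728) (l 15422960)) (b (a (l 15338752) (l 15361648)) (a (l 15461952) (l 15485976)))) (b (a (b (l 15367016) (l 15409296)) (l 15424432)) (a (l 15533800) (l 15601960)))) (b (b (l 15416304) (l 15520512)) (b (l 15652360) (l 15806256)))) (a (b (a (a (l 15614056) (a (l 15680520) (l 15723160))) (a (l 15790488) (l 15879296))) (a (a (l 15775384) (a (l 15779064) (l 15799720))) (a (l 15806328) (l 15808848)))) (b (b (l 15945744) (l 16047008)) (b (l 16070752) (l 2))))) (b (b (a (b (l 15438952) (l 15611240)) (b (l 15433152) (l 15599368))) (a (b (l 15770616) (l 15899136)) (l 4))) (l 4)))), by decide +kernel⟩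

def k1_pm_022_b : ∃ t, chk3 f_pm_022_b t 3 1 1 = true :=
  ⟨(a (b (b (b (a (b (l 13863184) (l 13969496)) (l 13454840)) (a (l 14205480) (l 13922024))) (b (a (l 14604520) (l 14452432)) (a (l 15047120) (l 4)))) (l 4)) (b (b (b (a (l 13099568) (l 12866168)) (a (l 13725872) (l 4))) (l 4)) (l 2))), by decide +kernel⟩

theorem s2_pm_022_b : ∃ t, chk3 f_pm_022_b t 1 1 1 = true := ex3_a k0_pm_022_b k1_pm_022_b

theorem c_pm_022_b : CertB 0 536870912 1239849684 370763052 1020054732 13421774 3 eng mog cd3q0 cd1q2b pd2 false true false .pp 0 2 2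
    ndB3q0 ndB1q2b pcB2 Cut.none Ext.none :=
  certB1 (fam := false) (s1 := true) (s2 := false) (a := 0) (b := 2) (c := 2) (cn := .pp) (n1 := ndB3q0) (n2 := ndB1q2b) (pc := pcB2) (cut := Cut.none) (xt := Ext.none) (P1 := 0) (W1 := 536870912) (P2 := 1239849684) (W2 := 370763052) (P3 := 1020054732) (W3 := 13421774) (N0 := 3) (En := eng) (mo := mog) (C1 := cd3q0) (C2 := cd1q2b) (C3 := pd2)
    rfl (fun _ => rfl) s2_pm_022_b

noncomputable def f_pm_023 : ℕ → ℕ → ℕ → ℕ → Bool := onCell 0 536870912 1610612736 536870912 1020054732 13421774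
    (rowB 3 eng mog cd3q0 cd1q3 pd2 0 false true false .up 0 2 3 (qsf 0 536870912 1610612736 536870912 2) ndB3q0 ndB1q3 pcB2 Cut.none Ext.none)

def k0_pm_023 : ∃ t, chk3 f_pm_023 t 1 1 1 = true :=
  ⟨(b (b (b (a (a (b (a (a (a (l 15662920) (a (l 15781784) (l 15868568))) (a (l 15905752) (l 15906344))) (l 15608384)) (a (l 4) (l 4))) (l 4)) (a (l 4) (a (l 4) (b (l 12818552) (l 4))))) (a (l 4) (l 4))) (a (l 4) (l 4))) (l 4)), by decide +kernel⟩

theorem c_pm_023 : CertB 0 536870912 1610612736 536870912 1020054732 13421774 3 eng mog cd3q0 cd1q3 pd2 false true false .up 0 2 3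
    ndB3q0 ndB1q3 pcB2 Cut.none Ext.none :=
  certB0 (fam := false) (s1 := true) (s2 := false) (a := 0) (b := 2) (c := 3) (cn := .up) (n1 := ndB3q0) (n2 := ndB1q3) (pc := pcB2) (cut := Cut.none) (xt := Ext.none) (P1 := 0) (W1 := 536870912) (P2 := 1610612736) (W2 := 536870912) (P3 := 1020054732) (W3 := 13421774) (N0 := 3) (En := eng) (mo := mog) (C1 := cd3q0) (C2 := cd1q3) (C3 := pd2)
    rfl k0_pm_023

noncomputable def f_pm_033 : ℕ → ℕ → ℕ → ℕ → Bool := onCell 0 536870912 1610612736 536870912 1020054732 13421774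
    (rowB 3 eng mog cd3q0 cd1q3 pd3 0 false true false .pnn 0 3 3 (qsf 0 536870912 1610612736 536870912 3) ndB3q0 ndB1q3 pcB3 Cut.none Ext.none)

def k0_pm_033 : ∃ t, chk3 f_pm_033 t 1 1 1 = true :=
  ⟨(b (b (a (a (b (b (a (a (a (l 15575680) (l 15642760)) (l 304437169623)) (l 1)) (a (l 4) (l 4))) (l 4)) (l 4)) (l 1)) (a (l 4) (l 4))) (l 4)), by decide +kernel⟩

theorem c_pm_033 : CertB 0 536870912 1610612736 536870912 1020054732 13421774 3 eng mog cd3q0 cd1q3 pd3 false true false .pnn 0 3 3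
    ndB3q0 ndB1q3 pcB3 Cut.none Ext.none :=
  certB0 (fam := false) (s1 := true) (s2 := false) (a := 0) (b := 3) (c := 3) (cn := .pnn) (n1 := ndB3q0) (n2 := ndB1q3) (pc := pcB3) (cut := Cut.none) (xt := Ext.none) (P1 := 0) (W1 := 536870912) (P2 := 1610612736) (W2 := 536870912) (P3 := 1020054732) (W3 := 13421774) (N0 := 3) (En := eng) (mo := mog) (C1 := cd3q0) (C2 := cd1q3) (C3 := pd3)
    rfl k0_pm_033

noncomputable def f_pm_101 : ℕ → ℕ → ℕ → ℕ → Bool := onCell 536870912 536870912 536870912 536870912 1020054732 13421774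
    (rowB 3 eng mog cd3q1 cd1q1 pd0 0 false true false .npn 1 0 1 (qsf 536870912 536870912 536870912 536870912 0) ndB3q1 ndB1q1 pcB0 Cut.none Ext.none)

def k0_pm_101 : ∃ t, chk3 f_pm_101 t 1 1 1 = true :=
  ⟨(l 4), by decide +kernel⟩

theorem c_pm_101 : CertB 536870912 536870912 536870912 536870912 1020054732 13421774 3 eng mog cd3q1 cd1q1 pd0 false true false .npn 1 0 1
    ndB3q1 ndB1q1 pcB0 Cut.none Ext.none :=
  certB0 (fam := false) (s1 := true) (s2 := false) (a := 1) (b := 0) (c := 1) (cn := .npn) (n1 := ndB3q1) (n2 := ndB1q1) (pc := pcB0) (cut := Cut.none) (xt := Ext.none) (P1 := 536870912) (W1 := 536870912) (P2 := 536870912) (W2 := 536870912) (P3 := 1020054732) (W3 := 13421774) (N0 := 3) (En := eng) (mo := mog) (C1 := cd3q1) (C2 := cd1q1) (C3 := pd0)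
    rfl k0_pm_101

noncomputable def f_pm_102_a : ℕ → ℕ → ℕ → ℕ → Bool := onCell 0 536870912 0 536870912 1020054732 13421774
    (rowB 3 eng mog cd3q1 cd1q2a pd0 2 false true false .npp 1 0 2 (qsf 536870912 536870912 0 536870912 0) ndB3q1 ndB1q2a pcB0 Cut.none Ext.none)

def k0_pm_102_a : ∃ t, chk3 f_pm_102_a t 1 1 1 = true :=
  ⟨(b (b (a (a (l 2) (a (l 13813896) (l 14249272))) (a (a (l 14639424) (l 14958528)) (a (b (l 15266488) (l 15293080)) (b (a (l 15470448) (l 15589072)) (l 15548168))))) (b (a (a (l 2) (a (l 13772728) (l 14253776))) (a (a (l 14675496) (l 15033976)) (a (l 15325936) (l 15549248)))) (a (l 4) (l 4)))) (l 4)), by decide +kernel⟩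

theorem c_pm_102_a : CertB 536870912 536870912 0 536870912 1020054732 13421774 3 eng mog cd3q1 cd1q2a pd0 false true false .npp 1 0 2
    ndB3q1 ndB1q2a pcB0 Cut.none Ext.none :=
  certB2 (fam := false) (s1 := true) (s2 := false) (a := 1) (b := 0) (c := 2) (cn := .npp) (n1 := ndB3q1) (n2 := ndB1q2a) (pc := pcB0) (cut := Cut.none) (xt := Ext.none) (P1 := 536870912) (W1 := 536870912) (P2 := 0) (W2 := 536870912) (P3 := 1020054732) (W3 := 13421774) (N0 := 3) (En := eng) (mo := mog) (C1 := cd3q1) (C2 := cd1q2a) (C3 := pd0)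
    rfl (fun _ => rfl) k0_pm_102_a

noncomputable def f_pm_102_b : ℕ → ℕ → ℕ → ℕ → Bool := onCell 536870912 536870912 0 536870912 1020054732 13421774
    (rowB 3 eng mog cd3q1 cd1q2b pd0 1 false true false .npp 1 0 2 (qsf 536870912 536870912 1239849684 370763052 0) ndB3q1 ndB1q2b pcB0 Cut.none Ext.none)

def k0_pm_102_b : ∃ t, chk3 f_pm_102_b t 1 1 1 = true :=
  ⟨(a (b (l 1) (b (l 1) (a (l 1) (b (a (l 1) (l 15386680)) (a (l 15551816) (l 15300376)))))) (b (a (l 1) (b (l 1) (a (b (l 1) (l 14503920)) (b (l 14120560) (l 14014072))))) (b (a (b (a (l 1) (l 14848320)) (a (l 15152120) (l 14754056))) (b (a (l 14400056) (l 13911264)) (a (l 14309192) (l 13819880)))) (a (b (a (l 15058496) (l 14673168)) (l 14736824)) (b (l 13988336) (l 13921744)))))), by decide +kernel⟩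

theorem c_pm_102_b : CertB 536870912 536870912 1239849684 370763052 1020054732 13421774 3 eng mog cd3q1 cd1q2b pd0 false true false .npp 1 0 2
    ndB3q1 ndB1q2b pcB0 Cut.none Ext.none :=
  certB1 (fam := false) (s1 := true) (s2 := false) (a := 1) (b := 0) (c := 2) (cn := .npp) (n1 := ndB3q1) (n2 := ndB1q2b) (pc := pcB0) (cut := Cut.none) (xt := Ext.none) (P1 := 536870912) (W1 := 536870912) (P2 := 1239849684) (W2 := 370763052) (P3 := 1020054732) (W3 := 13421774) (N0 := 3) (En := eng) (mo := mog) (C1 := cd3q1) (C2 := cd1q2b) (C3 := pd0)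
    rfl (fun _ => rfl) k0_pm_102_b

noncomputable def f_pm_112_a : ℕ → ℕ → ℕ → ℕ → Bool := onCell 536870912 536870912 0 536870912 1020054732 13421774
    (rowB 3 eng mog cd3q1 cd1q2a pd1 0 false true false .dn 1 1 2 (qsf 536870912 536870912 0 536870912 1) ndB3q1 ndB1q2a pcB1 Cut.none Ext.none)

def k0_pm_112_a : ∃ t, chk3 f_pm_112_a t 1 1 1 = true :=
  ⟨(a (b (a (b (a (b (c (l 16094048) (l 15650616)) (b (l 15532864) (l 15724680))) (b (a (l 15754184) (l 15736344)) (l 15694048))) (a (l 15591688) (l 15647760))) (a (b (b (b (l 15668776) (l 15600352)) (l 15586688)) (l 15565944)) (l 1))) (l 4)) (l 1)), by decide +kernel⟩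

theorem c_pm_112_a : CertB 536870912 536870912 0 536870912 1020054732 13421774 3 eng mog cd3q1 cd1q2a pd1 false true false .dn 1 1 2
    ndB3q1 ndB1q2a pcB1 Cut.none Ext.none :=
  certB0 (fam := false) (s1 := true) (s2 := false) (a := 1) (b := 1) (c := 2) (cn := .dn) (n1 := ndB3q1) (n2 := ndB1q2a) (pc := pcB1) (cut := Cut.none) (xt := Ext.none) (P1 := 536870912) (W1 := 536870912) (P2 := 0) (W2 := 536870912) (P3 := 1020054732) (W3 := 13421774) (N0 := 3) (En := eng) (mo := mog) (C1 := cd3q1) (C2 := cd1q2a) (C3 := pd1)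
    rfl k0_pm_112_a

noncomputable def f_pm_112_b : ℕ → ℕ → ℕ → ℕ → Bool := onCell 536870912 536870912 1239849684 370763052 1020054732 13421774
    (rowB 3 eng mog cd3q1 cd1q2b pd1 0 false true false .dn 1 1 2 (qsf 536870912 536870912 1239849684 370763052 1) ndB3q1 ndB1q2b pcB1 Cut.none Ext.none)

def k0_pm_112_b : ∃ t, chk3 f_pm_112_b t 1 1 1 = true :=
  ⟨(a (b (a (a (b (c (b (l 16175224) (l 16003184)) (l 15484984)) (a (b (l 15568936) (l 15344080)) (l 15364152))) (b (c (l 15950792) (l 15518440)) (a (l 15427248) (l 15394104)))) (a (b (c (l 15803640) (l 15398720)) (l 15213488)) (b (l 15193768) (l 15167760)))) (a (b (a (a (b (l 15094504) (l 14819464)) (l 14979664)) (a (l 14989832) (l 14987376))) (b (a (a (l 14522224) (l 14565928)) (l 14615072)) (a (a (l 14189000) (l 14285024)) (a (l 14312328) (l 14353968))))) (b (a (l 14956736) (l 14863736)) (a (b (l 14634040) (l 14392304)) (l 14490080))))) (a (b (b (l 1) (a (l 14955512) (l 14678616))) (b (a (l 14704712) (l 14477392))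 (a (l 14392400) (l 14221248)))) (b (l 1) (b (a (l 14183320) (l 1)) (a (l 13975408) (l 13657840)))))), by decide +kernel⟩

theorem c_pm_112_b : CertB 536870912 536870912 1239849684 370763052 1020054732 13421774 3 eng mog cd3q1 cd1q2b pd1 false true false .dn 1 1 2
    ndB3q1 ndB1q2b pcB1 Cut.none Ext.none :=
  certB0 (fam := false) (s1 := true) (s2 := false) (a := 1) (b := 1) (c := 2) (cn := .dn) (n1 := ndB3q1) (n2 := ndB1q2b) (pc := pcB1) (cut := Cut.none) (xt := Ext.none) (P1 := 536870912) (W1 := 536870912) (P2 := 1239849684) (W2 := 370763052) (P3 := 1020054732) (W3 := 13421774) (N0 := 3) (En := eng) (mo := mog) (C1 := cd3q1) (C2 := cd1q2b) (C3 := pd1)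
    rfl k0_pm_112_b

noncomputable def f_pm_113 : ℕ → ℕ → ℕ → ℕ → Bool := onCell 536870912 536870912 536870912 536870912 1020054732 13421774
    (rowB 3 eng mog cd3q1 cd1q3 pd1 1 false true false .nn 1 1 3 (qsf 536870912 536870912 1610612736 536870912 1) ndB3q1 ndB1q3 pcB1 Cut.none Ext.none)

def k0_pm_113 : ∃ t, chk3 f_pm_113 t 1 1 1 = true :=
  ⟨(b (a (b (l 1) (a (l 1) (a (l 1) (l 513277561079)))) (b (a (a (l 1) (l 14502552)) (a (l 14096000) (l 13661224))) (a (b (l 14245408) (l 417176354087)) (a (l 13655576) (l 13260808))))) (b (a (a (b (l 1) (a (l 1) (l 14499168))) (b (a (l 14574784) (l 14262840)) (a (l 14224624) (l 13963816)))) (a (b (a (l 13961280) (l 13648560)) (l 13576048)) (b (a (l 13325584) (l 13020024)) (a (l 13187744) (l 13018968))))) (a (a (b (a (b (l 1) (l 14248128)) (b (l 14191880) (l 14012984))) (a (b (l 13793824) (l 13777376)) (b (l 13805176) (l 13590952)))) (b (b (a (l 13947992) (l 13740576)) (l 13682208)) (l 4))) (a (b (a (l 13445992) (l 13260464))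 (l 4)) (b (a (l 13174424) (l 13431576)) (a (l 13411608) (b (l 14411928) (l 16477448)))))))), by decide +kernel⟩

theorem c_pm_113 : CertB 536870912 536870912 1610612736 536870912 1020054732 13421774 3 eng mog cd3q1 cd1q3 pd1 false true false .nn 1 1 3
    ndB3q1 ndB1q3 pcB1 Cut.none Ext.none :=
  certB1 (fam := false) (s1 := true) (s2 := false) (a := 1) (b := 1) (c := 3) (cn := .nn) (n1 := ndB3q1) (n2 := ndB1q3) (pc := pcB1) (cut := Cut.none) (xt := Ext.none) (P1 := 536870912) (W1 := 536870912) (P2 := 1610612736) (W2 := 536870912) (P3 := 1020054732) (W3 := 13421774) (N0 := 3) (En := eng) (mo := mog) (C1 := cd3q1) (C2 := cd1q3) (C3 := pd1)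
    rfl (fun _ => rfl) k0_pm_113

noncomputable def f_pm_123 : ℕ → ℕ → ℕ → ℕ → Bool := onCell 1073741824 536870912 1610612736 536870912 1020054732 13421774
    (rowB 3 eng mog cd3q1 cd1q3 pd2 2 false true false .npn 1 2 3 (qsf 536870912 536870912 1610612736 536870912 2) ndB3q1 ndB1q3 pcB2 Cut.none Ext.none)

def k0_pm_123 : ∃ t, chk3 f_pm_123 t 1 1 1 = true :=
  ⟨(b (b (a (a (b (a (l 609375841127) (l 4)) (l 4)) (a (l 4) (l 1))) (l 1)) (a (l 4) (l 4))) (a (a (b (l 4) (a (b (l 4) (l 15953168)) (l 4))) (l 4)) (l 4))), by decide +kernel⟩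

theorem c_pm_123 : CertB 536870912 536870912 1610612736 536870912 1020054732 13421774 3 eng mog cd3q1 cd1q3 pd2 false true false .npn 1 2 3
    ndB3q1 ndB1q3 pcB2 Cut.none Ext.none :=
  certB2 (fam := false) (s1 := true) (s2 := false) (a := 1) (b := 2) (c := 3) (cn := .npn) (n1 := ndB3q1) (n2 := ndB1q3) (pc := pcB2) (cut := Cut.none) (xt := Ext.none) (P1 := 536870912) (W1 := 536870912) (P2 := 1610612736) (W2 := 536870912) (P3 := 1020054732) (W3 := 13421774) (N0 := 3) (En := eng) (mo := mog) (C1 := cd3q1) (C2 := cd1q3) (C3 := pd2)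
    rfl (fun _ => rfl) k0_pm_123

noncomputable def f_pm_133 : ℕ → ℕ → ℕ → ℕ → Bool := onCell 536870912 536870912 1610612736 536870912 1020054732 13421774
    (rowB 3 eng mog cd3q1 cd1q3 pd3 0 false true false .dn 1 3 3 (qsf 536870912 536870912 1610612736 536870912 3) ndB3q1 ndB1q3 pcB3 Cut.none Ext.none)

def k0_pm_133 : ∃ t, chk3 f_pm_133 t 1 1 1 = true :=
  ⟨(a (b (l 1) (l 4)) (l 1)), by decide +kernel⟩

theorem c_pm_133 : CertB 536870912 536870912 1610612736 536870912 1020054732 13421774 3 eng mog cd3q1 cd1q3 pd3 false true false .dn 1 3 3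
    ndB3q1 ndB1q3 pcB3 Cut.none Ext.none :=
  certB0 (fam := false) (s1 := true) (s2 := false) (a := 1) (b := 3) (c := 3) (cn := .dn) (n1 := ndB3q1) (n2 := ndB1q3) (pc := pcB3) (cut := Cut.none) (xt := Ext.none) (P1 := 536870912) (W1 := 536870912) (P2 := 1610612736) (W2 := 536870912) (P3 := 1020054732) (W3 := 13421774) (N0 := 3) (En := eng) (mo := mog) (C1 := cd3q1) (C2 := cd1q3) (C3 := pd3)
    rfl k0_pm_133

noncomputable def f_pm_202_a : ℕ → ℕ → ℕ → ℕ → Bool := onCell 0 536870912 0 536870912 1020054732 13421774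
    (rowB 3 eng mog cd3q2 cd1q2a pd0 2 false true false .pp 2 0 2 (qsf 1073741824 536870912 0 536870912 0) ndB3q2 ndB1q2a pcB0 Cut.none Ext.none)

def k0_pm_202_a : ∃ t, chk3 f_pm_202_a t 2 2 1 = true :=
  ⟨(l 3), by decide +kernel⟩

def k1_pm_202_a : ∃ t, chk3 f_pm_202_a t 2 6 1 = true :=
  ⟨(l 3), by decide +kernel⟩

def k2_pm_202_a : ∃ t, chk3 f_pm_202_a t 8 14 1 = true :=
  ⟨(b (l 3) (b (l 3) (b (l 3) (a (b (l 3) (a (b (l 3) (a (b (l 3) (a (a (a (l 16518080) (l 16522096)) (a (l 16546760) (l 16549952))) (a (l 16534648) (l 16563232)))) (a (c (l 16581408) (l 16545032)) (c (l 16595912) (l 16583120))))) (a (a (c (l 16598336) (l 16577416)) (c (l 16624120) (l 16616360))) (a (c (l 16639840) (l 16634760)) (c (l 16655952) (l 16653576)))))) (a (b (l 3) (a (a (c (l 16672448) (l 16672784)) (c (l 16668352) (l 16671416))) (a (c (l 184716969223) (l 177737655335)) (l 1)))) (l 1)))))), by decide +kernel⟩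

def k3_pm_202_a : ∃ t, chk3 f_pm_202_a t 32 15 1 = true :=
  ⟨(b (b (a (b (a (b (a (b (a (b (l 16523408) (l 16545584)) (b (a (l 16523088) (l 16546016)) (l 16532288))) (l 16531896)) (c (a (b (l 16560032) (l 16565856)) (b (l 16563752) (l 16568840))) (b (a (l 16529688) (l 16533992)) (a (l 16546560) (l 16549880))))) (a (l 16544216) (l 16549448))) (b (b (b (a (l 16538064) (l 16566616)) (a (a (l 16559808) (l 16563952)) (l 16569984))) (a (a (l 16563096) (l 16567152)) (a (l 16571368) (l 16575512)))) (b (a (a (b (l 16566912) (l 16571272)) (l 16572032)) (l 16577784)) (a (l 16579200) (a (l 16581824) (l 16584712)))))) (a (a (l 16569240) (l 16576208)) (c (l 16591192) (l 16556520)))) (b (b (b (a (a (l 16576032) (l 16583800)) (c (l 16601872) (l 16589272))) (a (a (l 16560672) (l 16589888)) (a (l 16598000) (l 16605912)))) (a (a (l 16567360) (l 16596496)) (a (l 16604880) (l 16613088)))) (a (b (a (b (a (l 16594704) (l 16597464)) (l 16605776)) (b (l 16603088) (l 16584320))) (l 16581368))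 (b (a (l 16613712) (l 16621808)) (a (b (l 16601232) (l 16632648)) (b (l 16628696) (l 16635272))))))) (a (a (b (l 16587192) (l 16644336)) (b (l 16603072) (l 16664600))) (b (a (c (l 16660024) (l 16652224)) (a (l 16640808) (l 16643424))) (a (l 16679712) (l 16690416))))) (a (b (a (a (l 16673064) (l 16686720)) (l 16664296)) (a (b (a (l 16749672) (l 16738416)) (l 16713408)) (b (a (l 16704936) (l 16716376)) (b (l 342020068311) (l 1))))) (a (b (a (l 16703736) (l 16698312)) (b (c (l 16688312) (l 16674016)) (l 1))) (b (b (l 16728240) (l 16697928)) (l 1))))), by decide +kernel⟩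

def k4_pm_202_a : ∃ t, chk3 f_pm_202_a t 33 15 1 = true :=
  ⟨(b (a (b (b (b (a (c (l 16619632) (l 16609656)) (c (l 16634592) (l 16627176))) (a (c (l 16630280) (l 16620608)) (c (l 16645552) (l 16638304)))) (a (c (l 16623624) (l 16603848)) (c (l 16660072) (l 16653240)))) (b (a (b (a (b (l 16648984) (l 16660424)) (b (l 16656040) (l 16663224))) (l 16680568)) (b (l 16651192) (a (l 16662512) (l 16667808)))) (a (l 16677248) (l 16682776)))) (b (b (b (a (c (l 16649880) (l 16645040)) (l 16643400)) (a (c (l 16660624) (l 16655816)) (l 16653472))) (a (c (l 16675592) (l 16671232)) (c (l 16669528) (l 16667760)))) (a (b (a (l 16669624) (l 16698456)) (b (a (l 16691944) (l 1)) (l 1))) (b (l 16684960) (l 1))))) (a (b (b (a (l 16724688) (l 16702712)) (l 1)) (l 1)) (l 1))), by decide +kernel⟩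

def k5_pm_202_a : ∃ t, chk3 f_pm_202_a t 17 15 1 = true :=
  ⟨(a (b (b (a (b (a (c (l 16665080) (l 16665432)) (b (a (l 16694736) (l 16703592)) (l 197064998023))) (a (b (l 126734896087) (l 16690296)) (l 1))) (l 1)) (l 1)) (l 1)) (l 1)), by decide +kernel⟩

def k6_pm_202_a : ∃ t, chk3 f_pm_202_a t 9 7 1 = true :=
  ⟨(b (b (l 3) (l 1)) (l 1)), by decide +kernel⟩

def k7_pm_202_a : ∃ t, chk3 f_pm_202_a t 5 7 1 = true :=
  ⟨(l 1), by decide +kernel⟩

def k8_pm_202_a : ∃ t, chk3 f_pm_202_a t 3 1 1 = true :=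
  ⟨(l 1), by decide +kernel⟩

theorem s9_pm_202_a : ∃ t, chk3 f_pm_202_a t 16 15 1 = true := ex3_a k3_pm_202_a k4_pm_202_a

theorem s10_pm_202_a : ∃ t, chk3 f_pm_202_a t 8 15 1 = true := ex3_a s9_pm_202_a k5_pm_202_a

theorem s11_pm_202_a : ∃ t, chk3 f_pm_202_a t 8 7 1 = true := ex3_b k2_pm_202_a s10_pm_202_a

theorem s12_pm_202_a : ∃ t, chk3 f_pm_202_a t 4 7 1 = true := ex3_a s11_pm_202_a k6_pm_202_a

theorem s13_pm_202_a : ∃ t, chk3 f_pm_202_a t 2 7 1 = true := ex3_a s12_pm_202_a k7_pm_202_a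

theorem s14_pm_202_a : ∃ t, chk3 f_pm_202_a t 2 3 1 = true := ex3_b k1_pm_202_a s13_pm_202_a

theorem s15_pm_202_a : ∃ t, chk3 f_pm_202_a t 2 1 1 = true := ex3_b k0_pm_202_a s14_pm_202_a

theorem s16_pm_202_a : ∃ t, chk3 f_pm_202_a t 1 1 1 = true := ex3_a s15_pm_202_a k8_pm_202_a

theorem c_pm_202_a : CertB 1073741824 536870912 0 536870912 1020054732 13421774 3 eng mog cd3q2 cd1q2a pd0 false true false .pp 2 0 2
    ndB3q2 ndB1q2a pcB0 Cut.none Ext.none :=
  certB2 (fam := false) (s1 := true) (s2 := false) (a := 2) (b := 0) (c := 2) (cn := .pp) (n1 := ndB3q2) (n2 := ndB1q2a) (pc := pcB0) (cut := Cut.none) (xt := Ext.none) (P1 := 1073741824) (W1 := 536870912) (P2 := 0) (W2 := 536870912) (P3 := 1020054732) (W3 := 13421774) (N0 := 3) (En := eng) (mo := mog) (C1 := cd3q2) (C2 := cd1q2a) (C3 := pd0)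
    rfl (fun _ => rfl) s16_pm_202_a

noncomputable def f_pm_202_b : ℕ → ℕ → ℕ → ℕ → Bool := onCell 1073741824 536870912 1239849684 370763052 1020054732 13421774
    (rowB 3 eng mog cd3q2 cd1q2b pd0 0 false true false .pp 2 0 2 (qsf 1073741824 536870912 1239849684 370763052 0) ndB3q2 ndB1q2b pcB0 Cut.none Ext.none)

def k0_pm_202_b : ∃ t, chk3 f_pm_202_b t 1 1 1 = true :=
  ⟨(l 3), by decide +kernel⟩

theorem c_pm_202_b : CertB 1073741824 536870912 1239849684 370763052 1020054732 13421774 3 eng mog cd3q2 cd1q2b pd0 false true false .pp 2 0 2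
    ndB3q2 ndB1q2b pcB0 Cut.none Ext.none :=
  certB0 (fam := false) (s1 := true) (s2 := false) (a := 2) (b := 0) (c := 2) (cn := .pp) (n1 := ndB3q2) (n2 := ndB1q2b) (pc := pcB0) (cut := Cut.none) (xt := Ext.none) (P1 := 1073741824) (W1 := 536870912) (P2 := 1239849684) (W2 := 370763052) (P3 := 1020054732) (W3 := 13421774) (N0 := 3) (En := eng) (mo := mog) (C1 := cd3q2) (C2 := cd1q2b) (C3 := pd0)
    rfl k0_pm_202_b

noncomputable def f_pm_203 : ℕ → ℕ → ℕ → ℕ → Bool := onCell 1073741824 536870912 0 536870912 1020054732 13421774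
    (rowB 3 eng mog cd3q2 cd1q3 pd0 1 false true false .up 2 0 3 (qsf 1073741824 536870912 1610612736 536870912 0) ndB3q2 ndB1q3 pcB0 Cut.none Ext.none)

def k0_pm_203 : ∃ t, chk3 f_pm_203 t 1 1 1 = true :=
  ⟨(l 3), by decide +kernel⟩

theorem c_pm_203 : CertB 1073741824 536870912 1610612736 536870912 1020054732 13421774 3 eng mog cd3q2 cd1q3 pd0 false true false .up 2 0 3
    ndB3q2 ndB1q3 pcB0 Cut.none Ext.none :=
  certB1 (fam := false) (s1 := true) (s2 := false) (a := 2) (b := 0) (c := 3) (cn := .up) (n1 := ndB3q2) (n2 := ndB1q3) (pc := pcB0) (cut := Cut.none) (xt := Ext.none) (P1 := 1073741824) (W1 := 536870912) (P2 := 1610612736) (W2 := 536870912) (P3 := 1020054732) (W3 := 13421774) (N0 := 3) (En := eng) (mo := mog) (C1 := cd3q2) (C2 := cd1q3) (C3 := pd0)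
    rfl (fun _ => rfl) k0_pm_203

noncomputable def xt_pm_213 : Ext := extD3 3 ⟨4, 1, 1, 5, 99, 20, 33, 40, 51, 125, 1, 32⟩ eng cd3q2 cd1q3 pd1 false true false .pnn 2 1 3 rfl ndB3q2 ndB1q3 pcB1

noncomputable def f_pm_213 : ℕ → ℕ → ℕ → ℕ → Bool := onCell 1073741824 536870912 1610612736 536870912 1020054732 13421774
    (rowB 3 eng mog cd3q2 cd1q3 pd1 0 false true false .pnn 2 1 3 (qsf 1073741824 536870912 1610612736 536870912 1) ndB3q2 ndB1q3 pcB1 Cut.none xt_pm_213)

def k0_pm_213 : ∃ t, chk3 f_pm_213 t 1 1 1 = true :=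
  ⟨(a (b (l 3) (b (l 3) (a (b (l 3) (a (b (a (a (b (b (l 3) (l 274508061095)) (b (l 16532016) (l 16612048))) (l 3)) (l 3)) (a (a (b (b (a (l 16726184) (l 16699688)) (a (l 16754504) (l 16725912))) (b (a (l 16775984) (l 16756312)) (a (l 16732472) (l 16775864)))) (b (l 141638159866298399) (b (a (l 16706824) (l 16661088)) (a (l 16718816) (l 16691376))))) (b (l 3) (a (b (l 3) (l 16586768)) (l 3))))) (l 3))) (l 3)))) (l 3)), by decide +kernel⟩

theorem c_pm_213 : CertB 1073741824 536870912 1610612736 536870912 1020054732 13421774 3 eng mog cd3q2 cd1q3 pd1 false true false .pnn 2 1 3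
    ndB3q2 ndB1q3 pcB1 Cut.none xt_pm_213 :=
  certB0 (fam := false) (s1 := true) (s2 := false) (a := 2) (b := 1) (c := 3) (cn := .pnn) (n1 := ndB3q2) (n2 := ndB1q3) (pc := pcB1) (cut := Cut.none) (xt := xt_pm_213) (P1 := 1073741824) (W1 := 536870912) (P2 := 1610612736) (W2 := 536870912) (P3 := 1020054732) (W3 := 13421774) (N0 := 3) (En := eng) (mo := mog) (C1 := cd3q2) (C2 := cd1q3) (C3 := pd1)
    rfl k0_pm_213

noncomputable def f_pm_303 : ℕ → ℕ → ℕ → ℕ → Bool := onCell 0 1230186008 1610612736 536870912 1020054732 13421774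
    (rowB 3 eng mog cd3q3 cd1q3 pd0 0 false true false .npn 3 0 3 (qsf 0 1230186008 1610612736 536870912 0) ndB3q3 ndB1q3 pcB0 Cut.none Ext.none)

def k0_pm_303 : ∃ t, chk3 f_pm_303 t 1 1 1 = true :=
  ⟨(a (l 3) (l 3)), by decide +kernel⟩

theorem c_pm_303 : CertB 0 1230186008 1610612736 536870912 1020054732 13421774 3 eng mog cd3q3 cd1q3 pd0 false true false .npn 3 0 3
    ndB3q3 ndB1q3 pcB0 Cut.none Ext.none :=
  certB0 (fam := false) (s1 := true) (s2 := false) (a := 3) (b := 0) (c := 3) (cn := .npn) (n1 := ndB3q3) (n2 := ndB1q3) (pc := pcB0) (cut := Cut.none) (xt := Ext.none) (P1 := 0) (W1 := 1230186008) (P2 := 1610612736) (W2 := 536870912) (P3 := 1020054732) (W3 := 13421774) (N0 := 3) (En := eng) (mo := mog) (C1 := cd3q3) (C2 := cd1q3) (C3 := pd0)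
    rfl k0_pm_303

noncomputable def f_pm_313 : ℕ → ℕ → ℕ → ℕ → Bool := onCell 0 1230186008 1610612736 536870912 1020054732 13421774
    (rowB 3 eng mog cd3q3 cd1q3 pd1 0 false true false .dn 3 1 3 (qsf 0 1230186008 1610612736 536870912 1) ndB3q3 ndB1q3 pcB1 Cut.none Ext.none)

def k0_pm_313 : ∃ t, chk3 f_pm_313 t 1 1 1 = true :=
  ⟨(a (l 1) (l 3)), by decide +kernel⟩

theorem c_pm_313 : CertB 0 1230186008 1610612736 536870912 1020054732 13421774 3 eng mog cd3q3 cd1q3 pd1 false true false .dn 3 1 3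
    ndB3q3 ndB1q3 pcB1 Cut.none Ext.none :=
  certB0 (fam := false) (s1 := true) (s2 := false) (a := 3) (b := 1) (c := 3) (cn := .dn) (n1 := ndB3q3) (n2 := ndB1q3) (pc := pcB1) (cut := Cut.none) (xt := Ext.none) (P1 := 0) (W1 := 1230186008) (P2 := 1610612736) (W2 := 536870912) (P3 := 1020054732) (W3 := 13421774) (N0 := 3) (En := eng) (mo := mog) (C1 := cd3q3) (C2 := cd1q3) (C3 := pd1)
    rfl k0_pm_313

noncomputable def f_mm_001 : ℕ → ℕ → ℕ → ℕ → Bool := onCell 0 536870912 536870912 536870912 1020054732 13421774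
    (rowB 3 eng mog cd3q0 cd1q1 pd0 0 false false false .up 0 0 1 (qsf 0 536870912 536870912 536870912 0) ndB3q0 ndB1q1 pcB0 Cut.none Ext.none)

def k0_mm_001 : ∃ t, chk3 f_mm_001 t 1 1 1 = true :=
  ⟨(l 5), by decide +kernel⟩

theorem c_mm_001 : CertB 0 536870912 536870912 536870912 1020054732 13421774 3 eng mog cd3q0 cd1q1 pd0 false false false .up 0 0 1
    ndB3q0 ndB1q1 pcB0 Cut.none Ext.none :=
  certB0 (fam := false) (s1 := false) (s2 := false) (a := 0) (b := 0) (c := 1) (cn := .up) (n1 := ndB3q0) (n2 := ndB1q1) (pc := pcB0) (cut := Cut.none) (xt := Ext.none) (P1 := 0) (W1 := 536870912) (P2 := 536870912) (W2 := 536870912) (P3 := 1020054732) (W3 := 13421774) (N0 := 3) (En := eng) (mo := mog) (C1 := cd3q0) (C2 := cd1q1) (C3 := pd0)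
    rfl k0_mm_001

noncomputable def f_mm_011 : ℕ → ℕ → ℕ → ℕ → Bool := onCell 0 536870912 536870912 536870912 1020054732 13421774
    (rowB 3 eng mog cd3q0 cd1q1 pd1 0 false false false .pnn 0 1 1 (qsf 0 536870912 536870912 536870912 1) ndB3q0 ndB1q1 pcB1 Cut.none Ext.none)

def k0_mm_011 : ∃ t, chk3 f_mm_011 t 1 1 1 = true :=
  ⟨(l 5), by decide +kernel⟩

theorem c_mm_011 : CertB 0 536870912 536870912 536870912 1020054732 13421774 3 eng mog cd3q0 cd1q1 pd1 false false false .pnn 0 1 1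
    ndB3q0 ndB1q1 pcB1 Cut.none Ext.none :=
  certB0 (fam := false) (s1 := false) (s2 := false) (a := 0) (b := 1) (c := 1) (cn := .pnn) (n1 := ndB3q0) (n2 := ndB1q1) (pc := pcB1) (cut := Cut.none) (xt := Ext.none) (P1 := 0) (W1 := 536870912) (P2 := 536870912) (W2 := 536870912) (P3 := 1020054732) (W3 := 13421774) (N0 := 3) (En := eng) (mo := mog) (C1 := cd3q0) (C2 := cd1q1) (C3 := pd1)
    rfl k0_mm_011

noncomputable def f_mm_012_a : ℕ → ℕ → ℕ → ℕ → Bool := onCell 0 536870912 0 536870912 1020054732 13421774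
    (rowB 3 eng mog cd3q0 cd1q2a pd1 0 false false false .pnp 0 1 2 (qsf 0 536870912 0 536870912 1) ndB3q0 ndB1q2a pcB1 Cut.none Ext.none)

def k0_mm_012_a : ∃ t, chk3 f_mm_012_a t 1 1 1 = true :=
  ⟨(l 5), by decide +kernel⟩

theorem c_mm_012_a : CertB 0 536870912 0 536870912 1020054732 13421774 3 eng mog cd3q0 cd1q2a pd1 false false false .pnp 0 1 2
    ndB3q0 ndB1q2a pcB1 Cut.none Ext.none :=
  certB0 (fam := false) (s1 := false) (s2 := false) (a := 0) (b := 1) (c := 2) (cn := .pnp) (n1 := ndB3q0) (n2 := ndB1q2a) (pc := pcB1) (cut := Cut.none) (xt := Ext.none) (P1 := 0) (W1 := 536870912) (P2 := 0) (W2 := 536870912) (P3 := 1020054732) (W3 := 13421774) (N0 := 3) (En := eng) (mo := mog) (C1 := cd3q0) (C2 := cd1q2a) (C3 := pd1)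
    rfl k0_mm_012_a

noncomputable def f_mm_012_b : ℕ → ℕ → ℕ → ℕ → Bool := onCell 0 536870912 1239849684 370763052 1020054732 13421774
    (rowB 3 eng mog cd3q0 cd1q2b pd1 0 false false false .pnp 0 1 2 (qsf 0 536870912 1239849684 370763052 1) ndB3q0 ndB1q2b pcB1 Cut.none Ext.none)

def k0_mm_012_b : ∃ t, chk3 f_mm_012_b t 1 1 1 = true :=
  ⟨(l 5), by decide +kernel⟩

theorem c_mm_012_b : CertB 0 536870912 1239849684 370763052 1020054732 13421774 3 eng mog cd3q0 cd1q2b pd1 false false false .pnp 0 1 2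
    ndB3q0 ndB1q2b pcB1 Cut.none Ext.none :=
  certB0 (fam := false) (s1 := false) (s2 := false) (a := 0) (b := 1) (c := 2) (cn := .pnp) (n1 := ndB3q0) (n2 := ndB1q2b) (pc := pcB1) (cut := Cut.none) (xt := Ext.none) (P1 := 0) (W1 := 536870912) (P2 := 1239849684) (W2 := 370763052) (P3 := 1020054732) (W3 := 13421774) (N0 := 3) (En := eng) (mo := mog) (C1 := cd3q0) (C2 := cd1q2b) (C3 := pd1)
    rfl k0_mm_012_b

noncomputable def f_mm_022_a : ℕ → ℕ → ℕ → ℕ → Bool := onCell 0 536870912 0 536870912 1020054732 13421774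
    (rowB 3 eng mog cd3q0 cd1q2a pd2 0 false false false .pp 0 2 2 (qsf 0 536870912 0 536870912 2) ndB3q0 ndB1q2a pcB2 Cut.none Ext.none)

def k0_mm_022_a : ∃ t, chk3 f_mm_022_a t 1 1 1 = true :=
  ⟨(l 5), by decide +kernel⟩

theorem c_mm_022_a : CertB 0 536870912 0 536870912 1020054732 13421774 3 eng mog cd3q0 cd1q2a pd2 false false false .pp 0 2 2
    ndB3q0 ndB1q2a pcB2 Cut.none Ext.none :=
  certB0 (fam := false) (s1 := false) (s2 := false) (a := 0) (b := 2) (c := 2) (cn := .pp) (n1 := ndB3q0) (n2 := ndB1q2a) (pc := pcB2) (cut := Cut.none) (xt := Ext.none) (P1 := 0) (W1 := 536870912) (P2 := 0) (W2 := 536870912) (P3 := 1020054732) (W3 := 13421774) (N0 := 3) (En := eng) (mo := mog) (C1 := cd3q0) (C2 := cd1q2a) (C3 := pd2)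
    rfl k0_mm_022_a

noncomputable def f_mm_022_b : ℕ → ℕ → ℕ → ℕ → Bool := onCell 0 536870912 1239849684 370763052 1020054732 13421774
    (rowB 3 eng mog cd3q0 cd1q2b pd2 0 false false false .pp 0 2 2 (qsf 0 536870912 1239849684 370763052 2) ndB3q0 ndB1q2b pcB2 Cut.none Ext.none)

def k0_mm_022_b : ∃ t, chk3 f_mm_022_b t 1 1 1 = true :=
  ⟨(l 5), by decide +kernel⟩

theorem c_mm_022_b : CertB 0 536870912 1239849684 370763052 1020054732 13421774 3 eng mog cd3q0 cd1q2b pd2 false false false .pp 0 2 2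
    ndB3q0 ndB1q2b pcB2 Cut.none Ext.none :=
  certB0 (fam := false) (s1 := false) (s2 := false) (a := 0) (b := 2) (c := 2) (cn := .pp) (n1 := ndB3q0) (n2 := ndB1q2b) (pc := pcB2) (cut := Cut.none) (xt := Ext.none) (P1 := 0) (W1 := 536870912) (P2 := 1239849684) (W2 := 370763052) (P3 := 1020054732) (W3 := 13421774) (N0 := 3) (En := eng) (mo := mog) (C1 := cd3q0) (C2 := cd1q2b) (C3 := pd2)
    rfl k0_mm_022_b

noncomputable def f_mm_023 : ℕ → ℕ → ℕ → ℕ → Bool := onCell 0 536870912 1610612736 536870912 1020054732 13421774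
    (rowB 3 eng mog cd3q0 cd1q3 pd2 0 false false false .up 0 2 3 (qsf 0 536870912 1610612736 536870912 2) ndB3q0 ndB1q3 pcB2 Cut.none Ext.none)

def k0_mm_023 : ∃ t, chk3 f_mm_023 t 1 1 1 = true :=
  ⟨(l 5), by decide +kernel⟩

theorem c_mm_023 : CertB 0 536870912 1610612736 536870912 1020054732 13421774 3 eng mog cd3q0 cd1q3 pd2 false false false .up 0 2 3
    ndB3q0 ndB1q3 pcB2 Cut.none Ext.none :=
  certB0 (fam := false) (s1 := false) (s2 := false) (a := 0) (b := 2) (c := 3) (cn := .up) (n1 := ndB3q0) (n2 := ndB1q3) (pc := pcB2) (cut := Cut.none) (xt := Ext.none) (P1 := 0) (W1 := 536870912) (P2 := 1610612736) (W2 := 536870912) (P3 := 1020054732) (W3 := 13421774) (N0 := 3) (En := eng) (mo := mog) (C1 := cd3q0) (C2 := cd1q3) (C3 := pd2)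
    rfl k0_mm_023

noncomputable def f_mm_033 : ℕ → ℕ → ℕ → ℕ → Bool := onCell 0 536870912 1610612736 536870912 1020054732 13421774
    (rowB 3 eng mog cd3q0 cd1q3 pd3 0 false false false .pnn 0 3 3 (qsf 0 536870912 1610612736 536870912 3) ndB3q0 ndB1q3 pcB3 Cut.none Ext.none)

def k0_mm_033 : ∃ t, chk3 f_mm_033 t 1 1 1 = true :=
  ⟨(l 5), by decide +kernel⟩

theorem c_mm_033 : CertB 0 536870912 1610612736 536870912 1020054732 13421774 3 eng mog cd3q0 cd1q3 pd3 false false false .pnn 0 3 3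
    ndB3q0 ndB1q3 pcB3 Cut.none Ext.none :=
  certB0 (fam := false) (s1 := false) (s2 := false) (a := 0) (b := 3) (c := 3) (cn := .pnn) (n1 := ndB3q0) (n2 := ndB1q3) (pc := pcB3) (cut := Cut.none) (xt := Ext.none) (P1 := 0) (W1 := 536870912) (P2 := 1610612736) (W2 := 536870912) (P3 := 1020054732) (W3 := 13421774) (N0 := 3) (En := eng) (mo := mog) (C1 := cd3q0) (C2 := cd1q3) (C3 := pd3)
    rfl k0_mm_033

noncomputable def f_mm_101 : ℕ → ℕ → ℕ → ℕ → Bool := onCell 536870912 536870912 536870912 536870912 1020054732 13421774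
    (rowB 3 eng mog cd3q1 cd1q1 pd0 0 false false false .npn 1 0 1 (qsf 536870912 536870912 536870912 536870912 0) ndB3q1 ndB1q1 pcB0 Cut.none Ext.none)

def k0_mm_101 : ∃ t, chk3 f_mm_101 t 1 1 1 = true :=
  ⟨(l 3), by decide +kernel⟩

theorem c_mm_101 : CertB 536870912 536870912 536870912 536870912 1020054732 13421774 3 eng mog cd3q1 cd1q1 pd0 false false false .npn 1 0 1
    ndB3q1 ndB1q1 pcB0 Cut.none Ext.none :=
  certB0 (fam := false) (s1 := false) (s2 := false) (a := 1) (b := 0) (c := 1) (cn := .npn) (n1 := ndB3q1) (n2 := ndB1q1) (pc := pcB0) (cut := Cut.none) (xt := Ext.none) (P1 := 536870912) (W1 := 536870912) (P2 := 536870912) (W2 := 536870912) (P3 := 1020054732) (W3 := 13421774) (N0 := 3) (En := eng) (mo := mog) (C1 := cd3q1) (C2 := cd1q1) (C3 := pd0)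
    rfl k0_mm_101

noncomputable def f_mm_102_a : ℕ → ℕ → ℕ → ℕ → Bool := onCell 536870912 536870912 0 536870912 1020054732 13421774
    (rowB 3 eng mog cd3q1 cd1q2a pd0 0 false false false .npp 1 0 2 (qsf 536870912 536870912 0 536870912 0) ndB3q1 ndB1q2a pcB0 Cut.none Ext.none)

def k0_mm_102_a : ∃ t, chk3 f_mm_102_a t 1 1 1 = true :=
  ⟨(l 5), by decide +kernel⟩

theorem c_mm_102_a : CertB 536870912 536870912 0 536870912 1020054732 13421774 3 eng mog cd3q1 cd1q2a pd0 false false false .npp 1 0 2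
    ndB3q1 ndB1q2a pcB0 Cut.none Ext.none :=
  certB0 (fam := false) (s1 := false) (s2 := false) (a := 1) (b := 0) (c := 2) (cn := .npp) (n1 := ndB3q1) (n2 := ndB1q2a) (pc := pcB0) (cut := Cut.none) (xt := Ext.none) (P1 := 536870912) (W1 := 536870912) (P2 := 0) (W2 := 536870912) (P3 := 1020054732) (W3 := 13421774) (N0 := 3) (En := eng) (mo := mog) (C1 := cd3q1) (C2 := cd1q2a) (C3 := pd0)
    rfl k0_mm_102_a

noncomputable def f_mm_102_b : ℕ → ℕ → ℕ → ℕ → Bool := onCell 536870912 536870912 1239849684 370763052 1020054732 13421774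
    (rowB 3 eng mog cd3q1 cd1q2b pd0 0 false false false .npp 1 0 2 (qsf 536870912 536870912 1239849684 370763052 0) ndB3q1 ndB1q2b pcB0 Cut.none Ext.none)

def k0_mm_102_b : ∃ t, chk3 f_mm_102_b t 1 1 1 = true :=
  ⟨(l 5), by decide +kernel⟩

theorem c_mm_102_b : CertB 536870912 536870912 1239849684 370763052 1020054732 13421774 3 eng mog cd3q1 cd1q2b pd0 false false false .npp 1 0 2
    ndB3q1 ndB1q2b pcB0 Cut.none Ext.none :=
  certB0 (fam := false) (s1 := false) (s2 := false) (a := 1) (b := 0) (c := 2) (cn := .npp) (n1 := ndB3q1) (n2 := ndB1q2b) (pc := pcB0) (cut := Cut.none) (xt := Ext.none) (P1 := 536870912) (W1 := 536870912) (P2 := 1239849684) (W2 := 370763052) (P3 := 1020054732) (W3 := 13421774) (N0 := 3) (En := eng) (mo := mog) (C1 := cd3q1) (C2 := cd1q2b) (C3 := pd0)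
    rfl k0_mm_102_b

noncomputable def f_mm_112_a : ℕ → ℕ → ℕ → ℕ → Bool := onCell 536870912 536870912 0 536870912 1020054732 13421774
    (rowB 3 eng mog cd3q1 cd1q2a pd1 0 false false false .dn 1 1 2 (qsf 536870912 536870912 0 536870912 1) ndB3q1 ndB1q2a pcB1 Cut.none Ext.none)

def k0_mm_112_a : ∃ t, chk3 f_mm_112_a t 1 1 1 = true :=
  ⟨(l 5), by decide +kernel⟩

theorem c_mm_112_a : CertB 536870912 536870912 0 536870912 1020054732 13421774 3 eng mog cd3q1 cd1q2a pd1 false false false .dn 1 1 2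
    ndB3q1 ndB1q2a pcB1 Cut.none Ext.none :=
  certB0 (fam := false) (s1 := false) (s2 := false) (a := 1) (b := 1) (c := 2) (cn := .dn) (n1 := ndB3q1) (n2 := ndB1q2a) (pc := pcB1) (cut := Cut.none) (xt := Ext.none) (P1 := 536870912) (W1 := 536870912) (P2 := 0) (W2 := 536870912) (P3 := 1020054732) (W3 := 13421774) (N0 := 3) (En := eng) (mo := mog) (C1 := cd3q1) (C2 := cd1q2a) (C3 := pd1)
    rfl k0_mm_112_a

noncomputable def f_mm_112_b : ℕ → ℕ → ℕ → ℕ → Bool := onCell 536870912 536870912 1239849684 370763052 1020054732 13421774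
    (rowB 3 eng mog cd3q1 cd1q2b pd1 0 false false false .dn 1 1 2 (qsf 536870912 536870912 1239849684 370763052 1) ndB3q1 ndB1q2b pcB1 Cut.none Ext.none)

def k0_mm_112_b : ∃ t, chk3 f_mm_112_b t 1 1 1 = true :=
  ⟨(l 5), by decide +kernel⟩

theorem c_mm_112_b : CertB 536870912 536870912 1239849684 370763052 1020054732 13421774 3 eng mog cd3q1 cd1q2b pd1 false false false .dn 1 1 2
    ndB3q1 ndB1q2b pcB1 Cut.none Ext.none :=
  certB0 (fam := false) (s1 := false) (s2 := false) (a := 1) (b := 1) (c := 2) (cn := .dn) (n1 := ndB3q1) (n2 := ndB1q2b) (pc := pcB1) (cut := Cut.none) (xt := Ext.none) (P1 := 536870912) (W1 := 536870912) (P2 := 1239849684) (W2 := 370763052) (P3 := 1020054732) (W3 := 13421774) (N0 := 3) (En := eng) (mo := mog) (C1 := cd3q1) (C2 := cd1q2b) (C3 := pd1)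
    rfl k0_mm_112_b

noncomputable def f_mm_113 : ℕ → ℕ → ℕ → ℕ → Bool := onCell 536870912 536870912 1610612736 536870912 1020054732 13421774
    (rowB 3 eng mog cd3q1 cd1q3 pd1 0 false false false .nn 1 1 3 (qsf 536870912 536870912 1610612736 536870912 1) ndB3q1 ndB1q3 pcB1 Cut.none Ext.none)

def k0_mm_113 : ∃ t, chk3 f_mm_113 t 1 1 1 = true :=
  ⟨(l 5), by decide +kernel⟩

theorem c_mm_113 : CertB 536870912 536870912 1610612736 536870912 1020054732 13421774 3 eng mog cd3q1 cd1q3 pd1 false false false .nn 1 1 3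
    ndB3q1 ndB1q3 pcB1 Cut.none Ext.none :=
  certB0 (fam := false) (s1 := false) (s2 := false) (a := 1) (b := 1) (c := 3) (cn := .nn) (n1 := ndB3q1) (n2 := ndB1q3) (pc := pcB1) (cut := Cut.none) (xt := Ext.none) (P1 := 536870912) (W1 := 536870912) (P2 := 1610612736) (W2 := 536870912) (P3 := 1020054732) (W3 := 13421774) (N0 := 3) (En := eng) (mo := mog) (C1 := cd3q1) (C2 := cd1q3) (C3 := pd1)
    rfl k0_mm_113

noncomputable def f_mm_123 : ℕ → ℕ → ℕ → ℕ → Bool := onCell 536870912 536870912 1610612736 536870912 1020054732 13421774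
    (rowB 3 eng mog cd3q1 cd1q3 pd2 0 false false false .npn 1 2 3 (qsf 536870912 536870912 1610612736 536870912 2) ndB3q1 ndB1q3 pcB2 Cut.none Ext.none)

def k0_mm_123 : ∃ t, chk3 f_mm_123 t 1 1 1 = true :=
  ⟨(l 5), by decide +kernel⟩

theorem c_mm_123 : CertB 536870912 536870912 1610612736 536870912 1020054732 13421774 3 eng mog cd3q1 cd1q3 pd2 false false false .npn 1 2 3
    ndB3q1 ndB1q3 pcB2 Cut.none Ext.none :=
  certB0 (fam := false) (s1 := false) (s2 := false) (a := 1) (b := 2) (c := 3) (cn := .npn) (n1 := ndB3q1) (n2 := ndB1q3) (pc := pcB2) (cut := Cut.none) (xt := Ext.none) (P1 := 536870912) (W1 := 536870912) (P2 := 1610612736) (W2 := 536870912) (P3 := 1020054732) (W3 := 13421774) (N0 := 3) (En := eng) (mo := mog) (C1 := cd3q1) (C2 := cd1q3) (C3 := pd2)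
    rfl k0_mm_123

noncomputable def f_mm_133 : ℕ → ℕ → ℕ → ℕ → Bool := onCell 536870912 536870912 1610612736 536870912 1020054732 13421774
    (rowB 3 eng mog cd3q1 cd1q3 pd3 0 false false false .dn 1 3 3 (qsf 536870912 536870912 1610612736 536870912 3) ndB3q1 ndB1q3 pcB3 Cut.none Ext.none)

def k0_mm_133 : ∃ t, chk3 f_mm_133 t 1 1 1 = true :=
  ⟨(l 5), by decide +kernel⟩

theorem c_mm_133 : CertB 536870912 536870912 1610612736 536870912 1020054732 13421774 3 eng mog cd3q1 cd1q3 pd3 false false false .dn 1 3 3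
    ndB3q1 ndB1q3 pcB3 Cut.none Ext.none :=
  certB0 (fam := false) (s1 := false) (s2 := false) (a := 1) (b := 3) (c := 3) (cn := .dn) (n1 := ndB3q1) (n2 := ndB1q3) (pc := pcB3) (cut := Cut.none) (xt := Ext.none) (P1 := 536870912) (W1 := 536870912) (P2 := 1610612736) (W2 := 536870912) (P3 := 1020054732) (W3 := 13421774) (N0 := 3) (En := eng) (mo := mog) (C1 := cd3q1) (C2 := cd1q3) (C3 := pd3)
    rfl k0_mm_133

noncomputable def f_mm_202_a : ℕ → ℕ → ℕ → ℕ → Bool := onCell 1073741824 536870912 0 536870912 1020054732 13421774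
    (rowB 3 eng mog cd3q2 cd1q2a pd0 0 false false false .pp 2 0 2 (qsf 1073741824 536870912 0 536870912 0) ndB3q2 ndB1q2a pcB0 Cut.none Ext.none)

def k0_mm_202_a : ∃ t, chk3 f_mm_202_a t 1 1 1 = true :=
  ⟨(l 3), by decide +kernel⟩

theorem c_mm_202_a : CertB 1073741824 536870912 0 536870912 1020054732 13421774 3 eng mog cd3q2 cd1q2a pd0 false false false .pp 2 0 2
    ndB3q2 ndB1q2a pcB0 Cut.none Ext.none :=
  certB0 (fam := false) (s1 := false) (s2 := false) (a := 2) (b := 0) (c := 2) (cn := .pp) (n1 := ndB3q2) (n2 := ndB1q2a) (pc := pcB0) (cut := Cut.none) (xt := Ext.none) (P1 := 1073741824) (W1 := 536870912) (P2 := 0) (W2 := 536870912) (P3 := 1020054732) (W3 := 13421774) (N0 := 3) (En := eng) (mo := mog) (C1 := cd3q2) (C2 := cd1q2a) (C3 := pd0)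
    rfl k0_mm_202_a

noncomputable def f_mm_202_b : ℕ → ℕ → ℕ → ℕ → Bool := onCell 1073741824 536870912 1239849684 370763052 1020054732 13421774
    (rowB 3 eng mog cd3q2 cd1q2b pd0 0 false false false .pp 2 0 2 (qsf 1073741824 536870912 1239849684 370763052 0) ndB3q2 ndB1q2b pcB0 Cut.none Ext.none)

def k0_mm_202_b : ∃ t, chk3 f_mm_202_b t 1 1 1 = true :=
  ⟨(l 3), by decide +kernel⟩

theorem c_mm_202_b : CertB 1073741824 536870912 1239849684 370763052 1020054732 13421774 3 eng mog cd3q2 cd1q2b pd0 false false false .pp 2 0 2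
    ndB3q2 ndB1q2b pcB0 Cut.none Ext.none :=
  certB0 (fam := false) (s1 := false) (s2 := false) (a := 2) (b := 0) (c := 2) (cn := .pp) (n1 := ndB3q2) (n2 := ndB1q2b) (pc := pcB0) (cut := Cut.none) (xt := Ext.none) (P1 := 1073741824) (W1 := 536870912) (P2 := 1239849684) (W2 := 370763052) (P3 := 1020054732) (W3 := 13421774) (N0 := 3) (En := eng) (mo := mog) (C1 := cd3q2) (C2 := cd1q2b) (C3 := pd0)
    rfl k0_mm_202_b

noncomputable def f_mm_203 : ℕ → ℕ → ℕ → ℕ → Bool := onCell 1073741824 536870912 1610612736 536870912 1020054732 13421774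
    (rowB 3 eng mog cd3q2 cd1q3 pd0 0 false false false .up 2 0 3 (qsf 1073741824 536870912 1610612736 536870912 0) ndB3q2 ndB1q3 pcB0 Cut.none Ext.none)

def k0_mm_203 : ∃ t, chk3 f_mm_203 t 1 1 1 = true :=
  ⟨(l 5), by decide +kernel⟩

theorem c_mm_203 : CertB 1073741824 536870912 1610612736 536870912 1020054732 13421774 3 eng mog cd3q2 cd1q3 pd0 false false false .up 2 0 3
    ndB3q2 ndB1q3 pcB0 Cut.none Ext.none :=
  certB0 (fam := false) (s1 := false) (s2 := false) (a := 2) (b := 0) (c := 3) (cn := .up) (n1 := ndB3q2) (n2 := ndB1q3) (pc := pcB0) (cut := Cut.none) (xt := Ext.none) (P1 := 1073741824) (W1 := 536870912) (P2 := 1610612736) (W2 := 536870912) (P3 := 1020054732) (W3 := 13421774) (N0 := 3) (En := eng) (mo := mog) (C1 := cd3q2) (C2 := cd1q3) (C3 := pd0)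
    rfl k0_mm_203

noncomputable def f_mm_213 : ℕ → ℕ → ℕ → ℕ → Bool := onCell 1073741824 536870912 1610612736 536870912 1020054732 13421774
    (rowB 3 eng mog cd3q2 cd1q3 pd1 0 false false false .pnn 2 1 3 (qsf 1073741824 536870912 1610612736 536870912 1) ndB3q2 ndB1q3 pcB1 Cut.none Ext.none)

def k0_mm_213 : ∃ t, chk3 f_mm_213 t 1 1 1 = true :=
  ⟨(l 5), by decide +kernel⟩

theorem c_mm_213 : CertB 1073741824 536870912 1610612736 536870912 1020054732 13421774 3 eng mog cd3q2 cd1q3 pd1 false false false .pnn 2 1 3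
    ndB3q2 ndB1q3 pcB1 Cut.none Ext.none :=
  certB0 (fam := false) (s1 := false) (s2 := false) (a := 2) (b := 1) (c := 3) (cn := .pnn) (n1 := ndB3q2) (n2 := ndB1q3) (pc := pcB1) (cut := Cut.none) (xt := Ext.none) (P1 := 1073741824) (W1 := 536870912) (P2 := 1610612736) (W2 := 536870912) (P3 := 1020054732) (W3 := 13421774) (N0 := 3) (En := eng) (mo := mog) (C1 := cd3q2) (C2 := cd1q3) (C3 := pd1)
    rfl k0_mm_213

noncomputable def f_mm_303 : ℕ → ℕ → ℕ → ℕ → Bool := onCell 0 1230186008 1610612736 536870912 1020054732 13421774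
    (rowB 3 eng mog cd3q3 cd1q3 pd0 0 false false false .npn 3 0 3 (qsf 0 1230186008 1610612736 536870912 0) ndB3q3 ndB1q3 pcB0 Cut.none Ext.none)

def k0_mm_303 : ∃ t, chk3 f_mm_303 t 1 1 1 = true :=
  ⟨(a (l 3) (l 3)), by decide +kernel⟩

theorem c_mm_303 : CertB 0 1230186008 1610612736 536870912 1020054732 13421774 3 eng mog cd3q3 cd1q3 pd0 false false false .npn 3 0 3
    ndB3q3 ndB1q3 pcB0 Cut.none Ext.none :=
  certB0 (fam := false) (s1 := false) (s2 := false) (a := 3) (b := 0) (c := 3) (cn := .npn) (n1 := ndB3q3) (n2 := ndB1q3) (pc := pcB0) (cut := Cut.none) (xt := Ext.none) (P1 := 0) (W1 := 1230186008) (P2 := 1610612736) (W2 := 536870912) (P3 := 1020054732) (W3 := 13421774) (N0 := 3) (En := eng) (mo := mog) (C1 := cd3q3) (C2 := cd1q3) (C3 := pd0)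
    rfl k0_mm_303

noncomputable def f_mm_313 : ℕ → ℕ → ℕ → ℕ → Bool := onCell 0 1230186008 1610612736 536870912 1020054732 13421774
    (rowB 3 eng mog cd3q3 cd1q3 pd1 0 false false false .dn 3 1 3 (qsf 0 1230186008 1610612736 536870912 1) ndB3q3 ndB1q3 pcB1 Cut.none Ext.none)

def k0_mm_313 : ∃ t, chk3 f_mm_313 t 1 1 1 = true :=
  ⟨(a (l 1) (l 3)), by decide +kernel⟩

theorem c_mm_313 : CertB 0 1230186008 1610612736 536870912 1020054732 13421774 3 eng mog cd3q3 cd1q3 pd1 false false false .dn 3 1 3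
    ndB3q3 ndB1q3 pcB1 Cut.none Ext.none :=
  certB0 (fam := false) (s1 := false) (s2 := false) (a := 3) (b := 1) (c := 3) (cn := .dn) (n1 := ndB3q3) (n2 := ndB1q3) (pc := pcB1) (cut := Cut.none) (xt := Ext.none) (P1 := 0) (W1 := 1230186008) (P2 := 1610612736) (W2 := 536870912) (P3 := 1020054732) (W3 := 13421774) (N0 := 3) (En := eng) (mo := mog) (C1 := cd3q3) (C2 := cd1q3) (C3 := pd1)
    rfl k0_mm_313

end Pool.Agent.Strip051.G.I9500_9625.Tab.C.BB31

namespace Pool.Agent.Strip051.G.I9500_9625.Tab.C.BB32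

open Pool.Agent.Strip051.PB Pool.Agent.Strip051.PB.T
open Pool.Agent.Strip051.G.I9500_9625.Tab

noncomputable def f_pp_001 : ℕ → ℕ → ℕ → ℕ → Bool := onCell 0 536870912 536870912 536870912 1020054732 13421774
    (rowB 3 eng mog cd3q0 cd2q1 pd0 0 false true true .up 0 0 1 (qsf 0 536870912 536870912 536870912 0) ndB3q0 ndB2q1 pcB0 Cut.none Ext.none)

def k0_pp_001 : ∃ t, chk3 f_pp_001 t 1 1 1 = true :=
  ⟨(l 3), by decide +kernel⟩

theorem c_pp_001 : CertB 0 536870912 536870912 536870912 1020054732 13421774 3 eng mog cd3q0 cd2q1 pd0 false true true .up 0 0 1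
    ndB3q0 ndB2q1 pcB0 Cut.none Ext.none :=
  certB0 (fam := false) (s1 := true) (s2 := true) (a := 0) (b := 0) (c := 1) (cn := .up) (n1 := ndB3q0) (n2 := ndB2q1) (pc := pcB0) (cut := Cut.none) (xt := Ext.none) (P1 := 0) (W1 := 536870912) (P2 := 536870912) (W2 := 536870912) (P3 := 1020054732) (W3 := 13421774) (N0 := 3) (En := eng) (mo := mog) (C1 := cd3q0) (C2 := cd2q1) (C3 := pd0)
    rfl k0_pp_001

noncomputable def f_pp_011 : ℕ → ℕ → ℕ → ℕ → Bool := onCell 0 536870912 536870912 536870912 1020054732 13421774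
    (rowB 3 eng mog cd3q0 cd2q1 pd1 0 false true true .pnn 0 1 1 (qsf 0 536870912 536870912 536870912 1) ndB3q0 ndB2q1 pcB1 Cut.none Ext.none)

def k0_pp_011 : ∃ t, chk3 f_pp_011 t 1 1 1 = true :=
  ⟨(l 3), by decide +kernel⟩

theorem c_pp_011 : CertB 0 536870912 536870912 536870912 1020054732 13421774 3 eng mog cd3q0 cd2q1 pd1 false true true .pnn 0 1 1
    ndB3q0 ndB2q1 pcB1 Cut.none Ext.none :=
  certB0 (fam := false) (s1 := true) (s2 := true) (a := 0) (b := 1) (c := 1) (cn := .pnn) (n1 := ndB3q0) (n2 := ndB2q1) (pc := pcB1) (cut := Cut.none) (xt := Ext.none) (P1 := 0) (W1 := 536870912) (P2 := 536870912) (W2 := 536870912) (P3 := 1020054732) (W3 := 13421774) (N0 := 3) (En := eng) (mo := mog) (C1 := cd3q0) (C2 := cd2q1) (C3 := pd1)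
    rfl k0_pp_011

noncomputable def xt_pp_012_a : Ext := extD3 3 ⟨4, 1, 1, 5, 99, 20, 33, 40, 51, 125, 1, 32⟩ eng cd3q0 cd2q2a pd1 false true true .pnp 0 1 2 rfl ndB3q0 ndB2q2a pcB1

noncomputable def f_pp_012_a : ℕ → ℕ → ℕ → ℕ → Bool := onCell 536870912 536870912 0 536870912 1020054732 13421774
    (rowB 3 eng mog cd3q0 cd2q2a pd1 2 false true true .pnp 0 1 2 (qsf 0 536870912 0 536870912 1) ndB3q0 ndB2q2a pcB1 Cut.none xt_pp_012_a)

def k0_pp_012_a : ∃ t, chk3 f_pp_012_a t 2 2 1 = true :=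
  ⟨(a (a (l 2) (a (l 2) (b (l 2) (b (l 2) (l 14835864))))) (a (b (c (a (l 14506040) (l 14539664)) (l 14758672)) (a (b (l 14755920) (l 14864736)) (b (l 14764536) (l 14866624)))) (b (c (a (l 14589192) (l 14654536)) (l 14817104)) (a (b (l 14788736) (l 14883504)) (b (l 14828536) (l 14915432)))))), by decide +kernel⟩

def k1_pp_012_a : ∃ t, chk3 f_pp_012_a t 4 3 1 = true :=
  ⟨(b (a (l 2) (b (a (l 2) (c (l 15011192) (l 15015144))) (c (b (l 15091464) (a (l 15257456) (l 15224272))) (a (l 15154984) (l 15124576))))) (a (b (a (l 2) (b (l 15259472) (b (c (l 15262184) (l 15248192)) (l 15233392)))) (a (b (c (l 15259272) (l 15303504)) (c (b (l 15215680) (a (c (l 15201800) (l 15254776)) (c (l 15195104) (l 15247000)))) (b (l 15317896) (a (l 15314976) (l 15305544))))) (b (b (l 15255368) (a (l 15261640) (l 15256264))) (a (b (l 15264896) (b (l 15268824) (c (l 15239000) (l 15306400)))) (b (l 15263432) (b (l 15270360) (c (l 15223000) (l 15308552)))))))) (b (c (b (l 15108520) (a (b (l 15237560)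 (l 15233904)) (l 15421528))) (a (l 15217832) (l 15208232))) (a (b (b (l 15246408) (a (l 15255760) (l 15260000))) (a (b (l 15266992) (b (l 15277032) (a (l 15281920) (l 15287576)))) (b (l 15275416) (b (l 15288648) (a (l 15294472) (l 15302584)))))) (b (c (l 15225872) (l 15284032)) (c (b (l 15242096) (b (l 15252328) (l 15259984))) (b (l 15331136) (a (l 15356968) (l 15377256))))))))), by decide +kernel⟩

def k2_pp_012_a : ∃ t, chk3 f_pp_012_a t 5 3 1 = true :=
  ⟨(b (a (b (a (c (l 14996120) (l 14996672)) (c (l 14994552) (l 14992792))) (a (b (l 15112256) (l 15171024)) (b (c (l 15137008) (l 15077616)) (l 15169912)))) (b (a (c (l 15006608) (l 15003520)) (c (l 15032432) (l 15028856))) (a (b (c (l 15143664) (l 15087528)) (l 15183640)) (b (c (l 15163080) (l 15111328)) (l 15211488))))) (c (a (b (a (l 15213880) (l 15256232)) (a (b (l 15279328) (b (l 15309776) (a (l 15296888) (l 15329384)))) (b (l 15328064) (a (l 15371240) (l 15430024))))) (b (a (l 15292608) (l 15343064)) (a (b (l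 15391632) (b (l 15450568) (a (l 15470712) (l 15517528)))) (b (l 15468488) (b (l 15540880) (a (l 15567176) (l 15619272))))))) (a (b (a (l 15214992) (l 15237360)) (a (b (l 15313040) (b (l 15372000) (a (l 15401800) (l 15430376)))) (b (l 15357800) (b (l 15428576) (a (l 15462736) (l 15498648)))))) (b (a (l 15274496) (l 15325472)) (a (b (l 15416920) (b (l 15499144) (a (l 15537824) (l 15579984)))) (b (l 15488888) (b (l 15581768) (a (l 15624800) (l 15671896))))))))), by decide +kernel⟩

def k3_pp_012_a : ∃ t, chk3 f_pp_012_a t 3 2 1 = true :=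
  ⟨(a (a (b (a (c (l 14735640) (l 14902240)) (l 14716288)) (a (b (l 14883936) (l 14962472)) (b (l 14954968) (l 15024688)))) (b (a (l 14986432) (l 15125248)) (a (b (l 15041632) (l 15102160)) (b (l 15143936) (l 15194928))))) (a (b (a (l 15258360) (l 15406448)) (a (b (l 15261808) (l 15303000)) (b (l 15395080) (l 15426248)))) (b (a (l 15569168) (l 15662744)) (a (b (l 15543608) (l 15564616)) (b (l 15707768) (a (l 15678392) (l 15759568))))))), by decide +kernel⟩

def k4_pp_012_a : ∃ t, chk3 f_pp_012_a t 6 3 1 = true :=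
  ⟨(b (c (a (b (a (l 15072200) (l 15126104)) (a (l 15235856) (l 15285344))) (b (a (l 15194352) (l 15277152)) (a (l 15347976) (l 15297672)))) (a (b (a (l 15068832) (l 15123456)) (a (l 15189824) (l 15245008))) (b (a (l 15192752) (l 15276696)) (a (l 15313536) (l 15374144))))) (a (b (a (b (l 15345552) (c (l 15452680) (l 15445592))) (b (l 15414064) (c (l 15535720) (l 15526840)))) (a (b (c (l 15556952) (l 15572072)) (c (b (l 15641512) (a (l 15673376) (l 15728920))) (b (l 15674192) (a (l 15720824) (l 15770992))))) (b (c (l 15655224) (l 15664696)) (b (a (l 15735024) (l 15788032)) (a (c (l 15785072) (l 15821512)) (c (l 15840456) (l 15870816))))))) (b (a (b (l 15494072) (a (l 15599432) (l 15647816))) (b (l 15584528) (a (l 15698312) (l 15750768)))) (a (b (a (l 15736584) (l 15789776)) (a (c (l 15822880) (l 15780768)) (c (l 15768784) (l 15720328)))) (b (a (l 15844336) (l 15900096)) (a (b (l 15942624) (c (l 15889312) (l 15867664))) (b (l 15976760) (c (l 15863144) (l 15837376))))))))),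 by decide +kernel⟩

def k5_pp_012_a : ∃ t, chk3 f_pp_012_a t 7 6 1 = true :=
  ⟨(a (b (a (c (l 15374632) (l 15375168)) (c (l 15486848) (l 15487912))) (a (b (c (l 15459464) (l 15438856)) (l 15547536)) (b (a (l 15525088) (l 15580176)) (a (l 15622080) (l 15674672))))) (a (b (a (l 15581072) (l 15648192)) (b (l 134052352310460479) (l 134008372027506751))) (b (a (l 15719144) (l 15794216)) (b (a (l 15766416) (l 15835888)) (a (l 15845400) (l 15907088)))))), by decide +kernel⟩

def k6_pp_012_a : ∃ t, chk3 f_pp_012_a t 14 7 1 = true :=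
  ⟨(b (a (b (l 15684112) (a (l 15804984) (l 15860720))) (b (l 15707032) (a (l 15917584) (l 15975032)))) (b (a (a (l 15957040) (l 16015400)) (a (l 16075704) (l 15991312))) (a (b (a (l 15971464) (l 15986048)) (a (b (l 15875704) (l 15801856)) (c (l 15873776) (l 15830960)))) (a (b (l 16026760) (c (l 15929088) (l 15870984))) (b (l 16101632) (a (l 15967800) (l 16244672))))))), by decide +kernel⟩

def k7_pp_012_a : ∃ t, chk3 f_pp_012_a t 15 7 1 = true :=
  ⟨(b (a (b (l 136426267110981695) (a (l 16032360) (l 16004640))) (b (a (l 15986376) (l 15917992)) (a (b (l 16101480) (a (l 16170104) (l 139473564186361983))) (b (a (l 139691679695978623) (b (l 16148608) (l 16179992))) (a (l 139426147783966847) (b (l 16206088) (a (l 16232144) (l 16233464)))))))) (a (b (a (l 138339967710609471) (b (l 16214928) (a (l 16287000) (l 139272147643859007)))) (a (b (l 138993077654257727) (a (b (l 16138112) (l 137179501733675071)) (b (l 138824096505905215) (l 138738265901482047)))) (b (a (l 138174491469709375)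 (b (l 140695190631301183) (l 140726389336424511))) (a (b (l 140220201641017407) (l 140406431545901119)) (b (l 140465392831479871) (l 139553554167693375)))))) (b (a (b (a (l 139132440824316159) (l 139236413422633087)) (a (l 138736204474171647) (b (l 140834691105603711) (l 140389388954370175)))) (b (a (l 139122476530974847) (a (l 140177801539436671) (b (l 16260240) (b (l 16281560) (l 16296432))))) (a (b (l 140328915752861823) (a (l 16342176) (c (l 140790160972251263) (l 140784663369924735)))) (b (a (a (l 16314776) (l 140962509340164223)) (b (l 16315968) (a (l 16334744) (l 16348944)))) (a (b (l 141135613760897151) (l 16374768)) (l 16387384)))))) (a (b (a (b (l 140518100595507455) (l 139919760130474239)) (b (l 140007102564434047) (a (c (l 140591218196381823) (l 140590805834317951)) (c (l 140802942926291071) (l 140776829482516607))))) (a (b (a (l 141377094140739839) (b (l 16408632) (l 140992196380098815))) (a (b (l 140982713120981247) (l 140848435311739135)) (b (l 141015286177857791)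 (l 16488664)))) (b (a (b (l 141189764852629631) (l 140990409708503167)) (l 16457240)) (l 142126892553961599)))) (b (a (b (a (c (l 140789061525209215) (l 140768033321320575)) (b (l 141079126417916031) (l 16409856))) (a (b (l 141209899654348927) (l 16446712)) (l 16457432))) (a (l 142259795899580543) (b (l 16448960) (l 16511560)))) (a (b (l 142413384030421119) (l 142500383023939711)) (b (a (l 16548176) (b (l 16559096) (l 16591136))) (c (a (l 143284128748945535) (l 16596568)) (a (l 143263581623091327) (l 16598920)))))))))), by decide +kernel⟩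

theorem s8_pp_012_a : ∃ t, chk3 f_pp_012_a t 7 7 1 = true := ex3_a k6_pp_012_a k7_pp_012_a

theorem s9_pp_012_a : ∃ t, chk3 f_pp_012_a t 7 3 1 = true := ex3_b k5_pp_012_a s8_pp_012_a

theorem s10_pp_012_a : ∃ t, chk3 f_pp_012_a t 3 3 1 = true := ex3_a k4_pp_012_a s9_pp_012_a

theorem s11_pp_012_a : ∃ t, chk3 f_pp_012_a t 3 1 1 = true := ex3_b k3_pp_012_a s10_pp_012_a

theorem s12_pp_012_a : ∃ t, chk3 f_pp_012_a t 2 3 1 = true := ex3_a k1_pp_012_a k2_pp_012_a

theorem s13_pp_012_a : ∃ t, chk3 f_pp_012_a t 2 1 1 = true := ex3_b k0_pp_012_a s12_pp_012_a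

theorem s14_pp_012_a : ∃ t, chk3 f_pp_012_a t 1 1 1 = true := ex3_a s13_pp_012_a s11_pp_012_a

theorem c_pp_012_a : CertB 0 536870912 0 536870912 1020054732 13421774 3 eng mog cd3q0 cd2q2a pd1 false true true .pnp 0 1 2
    ndB3q0 ndB2q2a pcB1 Cut.none xt_pp_012_a :=
  certB2 (fam := false) (s1 := true) (s2 := true) (a := 0) (b := 1) (c := 2) (cn := .pnp) (n1 := ndB3q0) (n2 := ndB2q2a) (pc := pcB1) (cut := Cut.none) (xt := xt_pp_012_a) (P1 := 0) (W1 := 536870912) (P2 := 0) (W2 := 536870912) (P3 := 1020054732) (W3 := 13421774) (N0 := 3) (En := eng) (mo := mog) (C1 := cd3q0) (C2 := cd2q2a) (C3 := pd1)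
    rfl (fun _ => rfl) s14_pp_012_a

noncomputable def f_pp_012_b : ℕ → ℕ → ℕ → ℕ → Bool := onCell 536870912 536870912 1239849684 370763052 1020054732 13421774
    (rowB 3 eng mog cd3q0 cd2q2b pd1 2 false true true .pnp 0 1 2 (qsf 0 536870912 1239849684 370763052 1) ndB3q0 ndB2q2b pcB1 Cut.none Ext.none)

def k0_pp_012_b : ∃ t, chk3 f_pp_012_b t 1 1 1 = true :=
  ⟨(a (a (l 2) (b (b (a (b (c (a (l 14330528) (l 14366656)) (l 14664448)) (l 2)) (b (c (a (l 14419944) (l 14490288)) (l 14719296)) (c (l 14281664) (l 14586640)))) (a (l 2) (b (c (l 14154608) (l 14495704)) (l 2)))) (l 2))) (a (b (b (c (a (b (a (l 14577568) (l 14681688)) (l 14419856)) (b (a (l 14802544) (l 14940040)) (l 14635272))) (a (b (l 14840928) (l 14668240)) (b (a (l 14974824) (l 15084632)) (l 14823184)))) (a (b (c (l 14252704) (l 14533880)) (l 14283136)) (b (a (l 14497408) (l 14594088)) (l 14334000)))) (b (a (l 2) (b (l 14290288) (l 14215216))) (l 2))) (b (a (b (b (a (c (l 15094008) (l 15210256)) (c (l 15264192)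 (l 15351280))) (a (l 14916152) (l 15064784))) (b (a (l 14711664) (l 14850048)) (a (l 14541536) (l 14667016)))) (b (b (a (b (l 15543720) (l 15414960)) (b (l 15729992) (l 15601344))) (a (l 15231496) (l 15415904))) (b (a (l 15008968) (l 15187872)) (a (l 14815320) (l 14985992))))) (b (a (b (l 14461208) (l 14322592)) (b (l 14732168) (a (l 14505760) (l 14642560)))) (a (b (l 14188976) (l 2)) (b (l 14329832) (l 14115224))))))), by decide +kernel⟩

theorem c_pp_012_b : CertB 0 536870912 1239849684 370763052 1020054732 13421774 3 eng mog cd3q0 cd2q2b pd1 false true true .pnp 0 1 2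
    ndB3q0 ndB2q2b pcB1 Cut.none Ext.none :=
  certB2 (fam := false) (s1 := true) (s2 := true) (a := 0) (b := 1) (c := 2) (cn := .pnp) (n1 := ndB3q0) (n2 := ndB2q2b) (pc := pcB1) (cut := Cut.none) (xt := Ext.none) (P1 := 0) (W1 := 536870912) (P2 := 1239849684) (W2 := 370763052) (P3 := 1020054732) (W3 := 13421774) (N0 := 3) (En := eng) (mo := mog) (C1 := cd3q0) (C2 := cd2q2b) (C3 := pd1)
    rfl (fun _ => rfl) k0_pp_012_b

noncomputable def f_pp_022_a : ℕ → ℕ → ℕ → ℕ → Bool := onCell 0 536870912 0 536870912 1020054732 13421774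
    (rowB 3 eng mog cd3q0 cd2q2a pd2 0 false true true .pp 0 2 2 (qsf 0 536870912 0 536870912 2) ndB3q0 ndB2q2a pcB2 Cut.none Ext.none)

def k0_pp_022_a : ∃ t, chk3 f_pp_022_a t 2 2 1 = true :=
  ⟨(a (a (a (a (b (l 16164864) (b (l 16305264) (l 16371264))) (a (b (l 16158768) (b (l 16231800) (l 16293912))) (b (a (l 16112920) (l 16082424)) (b (l 16124680) (a (l 16243744) (l 16210344)))))) (a (b (a (l 16058504) (l 16036544)) (a (b (l 16126024) (l 16183632)) (b (l 16102112) (l 16158552)))) (b (a (l 16016424) (l 15988128)) (b (a (l 16080032) (l 16049440)) (a (l 16135296) (l 16103152)))))) (b (a (a (l 15927944) (l 15846600)) (l 15723120)) (a (b (l 15920872) (a (l 16035696) (l 15944280))) (b (l 15765512) (a (l 15851648) (l 15757872)))))) (a (b (a (l 15555376) (l 15384784)) (a (b (l 15585184) (b (l 15606856) (l 15622824))) (l 1))) (l 1))), by decide +kernel⟩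

def k1_pp_022_a : ∃ t, chk3 f_pp_022_a t 8 3 1 = true :=
  ⟨(a (a (b (b (a (l 16497104) (l 16387544)) (b (l 16496144) (l 16489536))) (b (b (l 16460480) (a (l 16634736) (l 16537792))) (b (a (b (l 16678112) (l 16629040)) (b (l 16600584) (l 16592472))) (b (a (a (b (l 16720720) (l 16725800)) (l 16642504)) (a (l 16603400) (l 380674545271))) (a (a (a (l 16696408) (l 331282711799)) (b (l 16650600) (l 414497631287))) (b (a (l 16653648) (l 1)) (l 1))))))) (b (a (b (l 16360576) (l 16322416)) (b (a (l 16308024) (l 16273032)) (a (l 16371984) (b (l 16319392) (l 16349480))))) (a (b (b (l 16473696) (l 16481240)) (b (b (l 16521464) (l 16512264)) (b (b (l 16541368) (l 1)) (l 1)))) (b (a (b (l 16416144) (l 16443064)) (b (l 16377808) (c (l 16427952) (l 16379064)))) (b (a (b (l 16461088) (l 16472048)) (b (l 16420888) (b (l 16428760) (l 1)))) (l 1)))))) (b (a (b (a (l 16161248) (l 16177024)) (a (b (l 16290600) (l 16320096)) (b (l 16263688) (l 16292760)))) (b (a (l 16194656) (l 16118992))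 (a (b (l 16238664) (l 16267328)) (b (l 16203768) (l 16231680))))) (a (b (a (b (c (l 16373912) (l 16321432)) (c (l 16399504) (l 16325528))) (b (c (l 16348112) (l 16291816)) (b (l 16339072) (a (l 16358440) (l 16344744))))) (b (a (b (a (l 16398392) (l 16383760)) (l 1)) (l 1)) (l 1))) (b (b (a (c (l 16324144) (l 16264256)) (c (l 16288560) (l 16227120))) (a (b (l 190084727287) (l 402685629351)) (b (l 402148629767) (l 1)))) (l 1))))), by decide +kernel⟩

def k2_pp_022_a : ∃ t, chk3 f_pp_022_a t 9 3 1 = true :=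
  ⟨(b (b (a (a (l 15943264) (l 15993952)) (a (b (l 15884624) (l 15907152)) (l 384430875079))) (a (b (a (l 16130192) (l 16030376)) (a (c (l 16185832) (l 16126296)) (l 371546490647))) (b (a (l 15929176) (l 1)) (l 1)))) (b (a (b (a (b (l 16174688) (l 411275208423)) (l 1)) (l 1)) (l 1)) (l 1))), by decide +kernel⟩

def k3_pp_022_a : ∃ t, chk3 f_pp_022_a t 5 3 1 = true :=
  ⟨(b (l 1) (l 1)), by decide +kernel⟩

def k4_pp_022_a : ∃ t, chk3 f_pp_022_a t 3 1 1 = true :=
  ⟨(l 1), by decide +kernel⟩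

theorem s5_pp_022_a : ∃ t, chk3 f_pp_022_a t 4 3 1 = true := ex3_a k1_pp_022_a k2_pp_022_a

theorem s6_pp_022_a : ∃ t, chk3 f_pp_022_a t 2 3 1 = true := ex3_a s5_pp_022_a k3_pp_022_a

theorem s7_pp_022_a : ∃ t, chk3 f_pp_022_a t 2 1 1 = true := ex3_b k0_pp_022_a s6_pp_022_a

theorem s8_pp_022_a : ∃ t, chk3 f_pp_022_a t 1 1 1 = true := ex3_a s7_pp_022_a k4_pp_022_a

theorem c_pp_022_a : CertB 0 536870912 0 536870912 1020054732 13421774 3 eng mog cd3q0 cd2q2a pd2 false true true .pp 0 2 2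
    ndB3q0 ndB2q2a pcB2 Cut.none Ext.none :=
  certB0 (fam := false) (s1 := true) (s2 := true) (a := 0) (b := 2) (c := 2) (cn := .pp) (n1 := ndB3q0) (n2 := ndB2q2a) (pc := pcB2) (cut := Cut.none) (xt := Ext.none) (P1 := 0) (W1 := 536870912) (P2 := 0) (W2 := 536870912) (P3 := 1020054732) (W3 := 13421774) (N0 := 3) (En := eng) (mo := mog) (C1 := cd3q0) (C2 := cd2q2a) (C3 := pd2)
    rfl s8_pp_022_a

end Pool.Agent.Strip051.G.I9500_9625.Tab.C.BB32

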