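import Pool.Agent.Strip051.G.I9500_9625.Tab
import Pool.Agent.Strip051.PB.ExtD3

/-! # Certificates B36 (generated) -/

set_option linter.all false
set_option maxRecDepth 100000

namespace Pool.Agent.Strip051.G.I9500_9625.Tab.C.BB32

open Pool.Agent.Strip051.PB Pool.Agent.Strip051.PB.T
open Pool.Agent.Strip051.G.I9500_9625.Tab

noncomputable def f_pp_022_b : ℕ → ℕ → ℕ → ℕ → Bool := onCell 0 536870912 1239849684 370763052 1020054732 13421774
    (rowB 3 eng mog cd3q0 cd2q2b pd2 0 false true true .pp 0 2 2 (qsf 0 536870912 1239849684 370763052 2) ndB3q0 ndB2q2b pcB2 Cut.none Ext.none)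

def k0_pp_022_b : ∃ t, chk3 f_pp_022_b t 1 1 1 = true :=
  ⟨(a (b (a (a (a (a (b (b (l 15996816) (l 15951416)) (b (l 15778720) (l 15604400))) (b (a (b (l 16037608) (l 15871872)) (b (a (l 15994336) (l 15965552)) (l 15817224))) (a (l 15494808) (b (l 15654872) (l 15491680))))) (b (a (b (a (l 15942608) (l 15921304)) (a (l 15781648) (l 15759216))) (b (a (l 15901800) (l 15874800)) (l 15661592))) (a (b (l 15606984) (l 15445544)) (b (l 15562024) (l 15399864))))) (b (b (a (b (l 15820360) (l 15739696)) (b (l 15664416) (l 15586360))) (a (l 15619848) (l 15471264))) (b (a (l 15461872) (l 15320864)) (a (l 15305160) (l 15173000))))) (b (a (b (a (l 15467824) (l 15307928)) (a (l 15320344) (l 15166880))) (b (a (l 523478928215) (l 1)) (a (l 15011200) (l 14854200)))) (a (b (a (l 15177960) (l 15032704)) (l 14972704)) (b (l 14622264) (l 14696472))))) (a (a (a (a (b (b (l 15428904) (l 15253280)) (l 14782320)) (b (a (l 15283376) (l 15244960)) (a (l 14950016) (l 14921720))))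 (b (a (b (l 15283904) (l 15122800)) (l 15114400)) (a (l 14883984) (l 14838976)))) (b (b (l 15089760) (l 14940888)) (b (l 14794624) (l 14652416)))) (b (a (b (l 14842664) (l 14715944)) (b (l 14588072) (l 14484848))) (a (b (l 14592792) (l 14474024)) (l 14338040))))) (a (b (b (l 1) (a (a (l 455831966743) (l 490191412407)) (b (l 1) (l 14131016)))) (b (a (b (l 14324720) (l 14244848)) (b (l 14058088) (l 13998256))) (a (l 14136632) (l 13926704)))) (b (l 1) (b (a (b (l 1) (l 13756504)) (l 1)) (a (l 13712896) (l 13510504)))))), by decide +kernel⟩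

theorem c_pp_022_b : CertB 0 536870912 1239849684 370763052 1020054732 13421774 3 eng mog cd3q0 cd2q2b pd2 false true true .pp 0 2 2
    ndB3q0 ndB2q2b pcB2 Cut.none Ext.none :=
  certB0 (fam := false) (s1 := true) (s2 := true) (a := 0) (b := 2) (c := 2) (cn := .pp) (n1 := ndB3q0) (n2 := ndB2q2b) (pc := pcB2) (cut := Cut.none) (xt := Ext.none) (P1 := 0) (W1 := 536870912) (P2 := 1239849684) (W2 := 370763052) (P3 := 1020054732) (W3 := 13421774) (N0 := 3) (En := eng) (mo := mog) (C1 := cd3q0) (C2 := cd2q2b) (C3 := pd2)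
    rfl k0_pp_022_b

noncomputable def f_pp_023 : ℕ → ℕ → ℕ → ℕ → Bool := onCell 1073741824 536870912 1610612736 536870912 1020054732 13421774
    (rowB 3 eng mog cd3q0 cd2q3 pd2 2 false true true .up 0 2 3 (qsf 0 536870912 1610612736 536870912 2) ndB3q0 ndB2q3 pcB2 Cut.none Ext.none)

def k0_pp_023 : ∃ t, chk3 f_pp_023 t 1 1 1 = true :=
  ⟨(a (a (b (b (a (b (l 13086296) (l 13021488)) (b (l 13251952) (l 13235528))) (a (l 2) (b (l 13354624) (l 2)))) (l 2)) (b (b (b (a (l 13281832) (b (l 13634824) (l 13553208))) (a (l 13464552) (l 13680416))) (a (b (l 13667432) (l 13974008)) (b (l 13976432) (l 14366024)))) (b (a (l 2) (b (l 14845696) (l 2))) (l 2)))) (b (a (b (b (a (b (l 13801440) (l 13700896)) (b (l 13961984) (l 13837536))) (a (l 13864936) (l 13771784))) (b (a (l 14260176) (l 14501296)) (a (l 14738352) (l 15070528)))) (b (a (b (b (l 14121128) (l 13968416)) (b (l 13968528) (l 14238320))) (b (a (b (b (a (l 14263656) (l 14307104)) (a (l 14172216) (l 14212760)))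 (l 14068864)) (b (a (b (b (a (l 14365816) (l 14347544)) (a (l 14315832) (l 14338960))) (l 14255384)) (b (b (l 14424384) (a (l 14362144) (l 14383992))) (b (a (l 14312816) (l 14335512)) (a (l 14264656) (l 14287384))))) (b (a (l 14164696) (l 14206536)) (a (l 14082136) (l 14119600))))) (b (a (l 14011560) (l 14048992)) (l 14288376)))) (b (a (l 14685848) (l 14593000)) (a (l 15345112) (l 15483648))))) (a (b (a (b (l 15293192) (l 15864920)) (b (l 15700504) (l 16038960))) (a (l 2) (l 4))) (b (a (b (l 16019232) (l 4)) (b (l 16218848) (l 4))) (l 4))))), by decide +kernel⟩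

theorem c_pp_023 : CertB 0 536870912 1610612736 536870912 1020054732 13421774 3 eng mog cd3q0 cd2q3 pd2 false true true .up 0 2 3
    ndB3q0 ndB2q3 pcB2 Cut.none Ext.none :=
  certB2 (fam := false) (s1 := true) (s2 := true) (a := 0) (b := 2) (c := 3) (cn := .up) (n1 := ndB3q0) (n2 := ndB2q3) (pc := pcB2) (cut := Cut.none) (xt := Ext.none) (P1 := 0) (W1 := 536870912) (P2 := 1610612736) (W2 := 536870912) (P3 := 1020054732) (W3 := 13421774) (N0 := 3) (En := eng) (mo := mog) (C1 := cd3q0) (C2 := cd2q3) (C3 := pd2)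
    rfl (fun _ => rfl) k0_pp_023

noncomputable def f_pp_033 : ℕ → ℕ → ℕ → ℕ → Bool := onCell 0 536870912 1610612736 536870912 1020054732 13421774
    (rowB 3 eng mog cd3q0 cd2q3 pd3 1 false true true .pnn 0 3 3 (qsf 0 536870912 1610612736 536870912 3) ndB3q0 ndB2q3 pcB3 Cut.none Ext.none)

def k0_pp_033 : ∃ t, chk3 f_pp_033 t 1 1 1 = true :=
  ⟨(a (b (a (b (a (b (a (a (l 15284728) (a (l 15589096) (l 15681344))) (a (l 15765032) (l 15838288))) (a (a (b (l 15400800) (l 15357248)) (a (l 15512920) (l 15603760))) (a (l 15683664) (l 15759336)))) (b (a (l 15891928) (l 15982784)) (a (l 15870200) (l 15936072)))) (a (a (a (b (l 15294360) (l 15187232)) (b (a (l 15426816) (l 15516056)) (a (l 15314888) (l 15400832)))) (b (a (l 15591816) (l 15656064)) (a (l 15472440) (l 4)))) (b (b (l 15878000) (l 15876280)) (l 4)))) (b (b (a (l 16038432) (l 16201448)) (a (b (l 16068152) (l 16112856)) (l 16393768))) (a (l 4) (l 4)))) (a (b (l 4) (l 4)) (b (l 4) (a (b (l 4) (l 2)) (l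 2))))) (b (a (b (b (a (l 16475752) (l 4)) (l 4)) (l 4)) (b (l 4) (a (b (l 4) (l 2)) (l 2)))) (a (b (a (b (l 4) (l 2)) (l 2)) (l 2)) (l 2)))), by decide +kernel⟩

theorem c_pp_033 : CertB 0 536870912 1610612736 536870912 1020054732 13421774 3 eng mog cd3q0 cd2q3 pd3 false true true .pnn 0 3 3
    ndB3q0 ndB2q3 pcB3 Cut.none Ext.none :=
  certB1 (fam := false) (s1 := true) (s2 := true) (a := 0) (b := 3) (c := 3) (cn := .pnn) (n1 := ndB3q0) (n2 := ndB2q3) (pc := pcB3) (cut := Cut.none) (xt := Ext.none) (P1 := 0) (W1 := 536870912) (P2 := 1610612736) (W2 := 536870912) (P3 := 1020054732) (W3 := 13421774) (N0 := 3) (En := eng) (mo := mog) (C1 := cd3q0) (C2 := cd2q3) (C3 := pd3)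
    rfl (fun _ => rfl) k0_pp_033

noncomputable def f_pp_101 : ℕ → ℕ → ℕ → ℕ → Bool := onCell 536870912 536870912 536870912 536870912 1020054732 13421774
    (rowB 3 eng mog cd3q1 cd2q1 pd0 0 false true true .npn 1 0 1 (qsf 536870912 536870912 536870912 536870912 0) ndB3q1 ndB2q1 pcB0 Cut.none Ext.none)

def k0_pp_101 : ∃ t, chk3 f_pp_101 t 1 1 1 = true :=
  ⟨(l 3), by decide +kernel⟩

theorem c_pp_101 : CertB 536870912 536870912 536870912 536870912 1020054732 13421774 3 eng mog cd3q1 cd2q1 pd0 false true true .npn 1 0 1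
    ndB3q1 ndB2q1 pcB0 Cut.none Ext.none :=
  certB0 (fam := false) (s1 := true) (s2 := true) (a := 1) (b := 0) (c := 1) (cn := .npn) (n1 := ndB3q1) (n2 := ndB2q1) (pc := pcB0) (cut := Cut.none) (xt := Ext.none) (P1 := 536870912) (W1 := 536870912) (P2 := 536870912) (W2 := 536870912) (P3 := 1020054732) (W3 := 13421774) (N0 := 3) (En := eng) (mo := mog) (C1 := cd3q1) (C2 := cd2q1) (C3 := pd0)
    rfl k0_pp_101

noncomputable def cut_pp_102_a : Cut := Cut.of [[⟨0, 1, 0, 38347922⟩, ⟨1, 0, 0, 38347922⟩, ⟨2, 1, 0, 38347922⟩]]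

noncomputable def xt_pp_102_a : Ext := extD3 3 ⟨4, 1, 1, 5, 99, 20, 33, 40, 51, 125, 1, 32⟩ eng cd3q1 cd2q2a pd0 false true true .npp 1 0 2 rfl ndB3q1 ndB2q2a pcB0

noncomputable def f_pp_102_a : ℕ → ℕ → ℕ → ℕ → Bool := onCell 536870912 536870912 0 536870912 1020054732 13421774
    (rowB 3 eng mog cd3q1 cd2q2a pd0 0 false true true .npp 1 0 2 (qsf 536870912 536870912 0 536870912 0) ndB3q1 ndB2q2a pcB0 cut_pp_102_a xt_pp_102_a)

def k0_pp_102_a : ∃ t, chk3 f_pp_102_a t 2 1 1 = true :=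
  ⟨(b (a (a (l 2) (b (l 2) (c (l 16435552) (l 16286864)))) (a (b (l 16252368) (c (l 16473176) (l 16230384))) (b (a (l 16173688) (l 16070888)) (c (l 16369392) (l 16164120))))) (a (b (a (l 2) (b (l 16249008) (a (l 16177792) (l 16162472)))) (b (b (a (l 15801712) (c (l 16000664) (l 16166584))) (a (c (l 15850424) (l 16017968)) (a (l 15877416) (l 15890240)))) (b (a (a (l 15582480) (c (l 15745864) (l 15972904))) (c (a (l 15775216) (l 15812984)) (a (l 16005320) (l 16043216)))) (a (c (a (b (l 15629616) (l 15561904)) (b (l 15653320) (l 15588024))) (a (b (l 15880432) (l 15833928)) (b (l 15909384) (l 15843856)))) (a (c (b (l 15686272) (l 15602784)) (b (l 15944680) (l 15881408))) (c (b (l 15728144) (l 15647744)) (b (l 15985896) (l 15925168)))))))) (b (a (b (l 16219312) (a (l 16151712) (l 16166552))) (a (b (l 16417160) (l 16207072)) (b (l 16387216) (l 16273648)))) (b (a (a (b (l 16134512) (l 15909024)) (b (l 16175472) (l 15933456))) (b (c (l 16046600) (l 16323360))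 (a (l 15963168) (l 16018760)))) (a (c (b (a (l 15858808) (l 15912328)) (a (b (l 15778536) (l 15701496)) (b (l 15837016) (l 15763568)))) (b (a (l 16086208) (l 16133872)) (a (b (l 16032600) (l 15974632)) (b (l 16084296) (l 16029280))))) (b (a (a (l 15916936) (l 15925544)) (a (l 15956416) (l 15988520))) (c (a (b (l 15903088) (l 15791480)) (b (l 15976256) (l 15847584))) (a (b (l 16140480) (l 16067576)) (l 15934928))))))))), by decide +kernel⟩

def k1_pp_102_a : ∃ t, chk3 f_pp_102_a t 3 2 1 = true :=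
  ⟨(a (b (a (a (l 15807288) (b (l 15927040) (l 16020312))) (a (b (l 15802960) (l 15940576)) (b (l 15648400) (l 15806776)))) (a (c (l 16244120) (l 16004976)) (a (l 15956592) (l 15917104)))) (a (b (a (b (l 15494720) (l 15716552)) (b (l 15338960) (l 15554648))) (b (a (l 15799304) (b (l 15725504) (l 15832712))) (a (l 16010888) (l 15725624)))) (b (a (b (l 15183240) (l 15395608)) (b (l 15030240) (l 15216704))) (b (a (l 15518224) (a (l 15502056) (l 15421656))) (a (a (l 15771864) (b (l 15761368) (l 15876432))) (a (l 15739984) (l 15594672))))))), by decide +kernel⟩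

def k2_pp_102_a : ∃ t, chk3 f_pp_102_a t 6 3 1 = true :=
  ⟨(b (a (b (c (l 16409384) (l 16241056)) (c (l 16259752) (l 16313888))) (b (a (l 16255360) (l 16140456)) (a (l 16220392) (c (l 16417848) (l 16311000))))) (a (b (b (a (l 16242240) (l 16279240)) (a (l 16057872) (l 16122016))) (a (b (a (l 16021792) (l 16056160)) (c (b (l 16055944) (l 15805464)) (b (l 16243112) (l 16155608)))) (b (a (l 16070600) (l 16106976)) (c (b (l 16078648) (a (l 16081968) (l 16086176))) (b (l 16288408) (l 16162248)))))) (b (a (b (l 16321016) (l 16148768)) (b (l 16381040) (c (l 16359904) (l 16521504)))) (b (a (a (l 16144248) (l 16161376)) (a (l 16179256) (a (l 16292752) (l 16312672)))) (b (a (a (l 16105976) (l 16125744)) (a (a (l 16240696) (l 16261600)) (c (l 16331344) (l 16444968)))) (c (a (a (l 16049672) (b (l 16232168) (l 16132088))) (a (a (l 16198272) (l 16202376)) (b (l 16310504) (a (l 16283376) (l 16309168))))) (a (a (l 16320896) (l 16336288)) (a (l 16352008) (l 16346976))))))))),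 by decide +kernel⟩

def k3_pp_102_a : ∃ t, chk3 f_pp_102_a t 7 6 1 = true :=
  ⟨(a (b (a (l 16147632) (l 16088304)) (a (c (l 16352160) (l 16258808)) (b (l 16214992) (l 16248584)))) (a (b (a (l 16041672) (l 15878280)) (b (l 16156848) (l 16151936))) (b (a (b (l 15918744) (l 16013904)) (b (l 15841472) (l 15756304))) (a (b (l 16111152) (l 16213584)) (b (a (l 16086568) (l 16065008)) (l 16183928)))))), by decide +kernel⟩

def k4_pp_102_a : ∃ t, chk3 f_pp_102_a t 7 7 1 = true :=
  ⟨(a (b (a (b (l 16317656) (b (l 16421424) (l 16347888))) (a (b (l 16429760) (l 16419112)) (b (l 16384304) (l 16417792)))) (b (b (a (l 16329912) (a (l 16516304) (l 16531384))) (a (a (l 16354720) (l 16396216)) (a (l 16438176) (l 16501304)))) (c (a (b (a (l 16381048) (l 16410672)) (a (b (l 16340632) (a (l 16314224) (l 16340456))) (b (l 16371704) (a (l 16366944) (l 16372544))))) (b (a (l 16441104) (l 16492928)) (b (a (l 16424168) (l 16455936)) (a (a (l 16399160) (l 16404736)) (a (c (l 16492480)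 (l 16538056)) (l 140627502350712879)))))) (a (b (a (l 16459520) (l 16495096)) (a (b (l 16471112) (l 16443792)) (b (l 16507848) (l 16460224)))) (b (a (l 16530600) (l 16565592)) (a (a (l 16511480) (l 16508592)) (b (l 16558672) (a (l 16565792) (l 16583464))))))))) (b (a (b (a (l 16379800) (l 16353392)) (a (c (l 16515376) (l 16461864)) (b (l 16442960) (l 16485432)))) (b (a (l 16263248) (b (l 16268272) (l 16328168))) (a (b (l 16417184) (l 16439712)) (a (l 140274215292289135) (b (l 16384264) (l 16450136)))))) (a (b (a (b (l 16511272) (l 140277720261623855)) (b (l 140805485858750511) (l 140454191774859311))) (a (b (l 140476044516556847) (b (l 140621042675056687) (b (l 140594723145990191) (c (a (l 141089847039426607) (l 141204952216977455)) (l 141897300977975343))))) (b (b (l 141526628100751407) (l 141508554821173295)) (b (b (l 141665578856841263) (l 141457015235264559)) (b (a (l 141673825197178927) (l 141904654004027439)) (a (a (l 141403345359044655) (l 141513777578377263))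 (b (l 141872561999921199) (c (a (l 16613224) (l 16625992)) (l 142673693744873519))))))))) (b (a (b (l 141101529315983471) (a (l 141594866595021039) (l 141833460594966639))) (b (a (l 16509992) (l 16435120)) (a (l 141879914937778287) (a (l 16530792) (l 6))))) (a (a (b (l 141732030602445039) (b (l 142212860874064111) (b (l 141972823768924399) (l 6)))) (b (b (l 142333669778210927) (l 142377856349110383)) (l 6))) (b (l 6) (l 6))))))), by decide +kernel⟩

theorem s5_pp_102_a : ∃ t, chk3 f_pp_102_a t 7 3 1 = true := ex3_b k3_pp_102_a k4_pp_102_a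

theorem s6_pp_102_a : ∃ t, chk3 f_pp_102_a t 3 3 1 = true := ex3_a k2_pp_102_a s5_pp_102_a

theorem s7_pp_102_a : ∃ t, chk3 f_pp_102_a t 3 1 1 = true := ex3_b k1_pp_102_a s6_pp_102_a

theorem s8_pp_102_a : ∃ t, chk3 f_pp_102_a t 1 1 1 = true := ex3_a k0_pp_102_a s7_pp_102_a

theorem c_pp_102_a : CertB 536870912 536870912 0 536870912 1020054732 13421774 3 eng mog cd3q1 cd2q2a pd0 false true true .npp 1 0 2
    ndB3q1 ndB2q2a pcB0 cut_pp_102_a xt_pp_102_a :=
  certB0 (fam := false) (s1 := true) (s2 := true) (a := 1) (b := 0) (c := 2) (cn := .npp) (n1 := ndB3q1) (n2 := ndB2q2a) (pc := pcB0) (cut := cut_pp_102_a) (xt := xt_pp_102_a) (P1 := 536870912) (W1 := 536870912) (P2 := 0) (W2 := 536870912) (P3 := 1020054732) (W3 := 13421774) (N0 := 3) (En := eng) (mo := mog) (C1 := cd3q1) (C2 := cd2q2a) (C3 := pd0)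
    rfl s8_pp_102_a

noncomputable def cut_pp_102_b : Cut := Cut.of [[⟨0, 1, 0, 38347922⟩, ⟨1, 0, 0, 38347922⟩, ⟨2, 1, 0, 38347922⟩]]

noncomputable def f_pp_102_b : ℕ → ℕ → ℕ → ℕ → Bool := onCell 536870912 536870912 0 536870912 1020054732 13421774
    (rowB 3 eng mog cd3q1 cd2q2b pd0 1 false true true .npp 1 0 2 (qsf 536870912 536870912 1239849684 370763052 0) ndB3q1 ndB2q2b pcB0 cut_pp_102_b Ext.none)

def k0_pp_102_b : ∃ t, chk3 f_pp_102_b t 1 1 1 = true :=
  ⟨(a (b (l 1) (b (l 1) (a (l 1) (a (b (l 1) (l 278131240407)) (b (a (l 16294600) (l 218001591047)) (l 449929314935)))))) (b (a (l 1) (b (l 1) (a (b (l 1) (b (l 478919312391) (l 303362289735))) (b (b (b (l 1) (l 470865627943)) (a (l 15204672) (l 14924376))) (b (a (l 15075072) (l 14791128)) (l 14704688)))))) (b (a (b (a (l 1) (b (l 477309276183) (l 15518648))) (a (b (l 379599333719) (l 419327587383)) (b (l 15561888) (l 15458128)))) (b (a (b (l 15250400) (l 15138856)) (b (l 14688616) (l 14570008)))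 (a (b (l 15028232) (l 14918096)) (b (l 14452832) (l 14336816))))) (a (a (b (a (l 442412973399) (l 15682248)) (a (l 15720512) (l 15482320))) (b (a (l 15429824) (l 15166416)) (l 15093112))) (b (a (l 14729936) (l 14162304)) (a (l 14537912) (l 13943320))))))), by decide +kernel⟩

theorem c_pp_102_b : CertB 536870912 536870912 1239849684 370763052 1020054732 13421774 3 eng mog cd3q1 cd2q2b pd0 false true true .npp 1 0 2
    ndB3q1 ndB2q2b pcB0 cut_pp_102_b Ext.none :=
  certB1 (fam := false) (s1 := true) (s2 := true) (a := 1) (b := 0) (c := 2) (cn := .npp) (n1 := ndB3q1) (n2 := ndB2q2b) (pc := pcB0) (cut := cut_pp_102_b) (xt := Ext.none) (P1 := 536870912) (W1 := 536870912) (P2 := 1239849684) (W2 := 370763052) (P3 := 1020054732) (W3 := 13421774) (N0 := 3) (En := eng) (mo := mog) (C1 := cd3q1) (C2 := cd2q2b) (C3 := pd0)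
    rfl (fun _ => rfl) k0_pp_102_b

noncomputable def f_pp_112_a : ℕ → ℕ → ℕ → ℕ → Bool := onCell 536870912 536870912 0 536870912 1020054732 13421774
    (rowB 3 eng mog cd3q1 cd2q2a pd1 2 false true true .dn 1 1 2 (qsf 536870912 536870912 0 536870912 1) ndB3q1 ndB2q2a pcB1 Cut.none Ext.none)

def k0_pp_112_a : ∃ t, chk3 f_pp_112_a t 1 1 1 = true :=
  ⟨(a (b (a (a (b (c (a (l 16174816) (l 16278560)) (l 16064520)) (c (b (l 16391272) (l 16187920)) (b (l 16215536) (l 16337072)))) (a (b (l 16068048) (c (l 16292600) (l 16319056))) (b (l 16115880) (c (l 16339400) (l 16324096))))) (a (b (c (l 16465976) (l 16213336)) (c (b (l 16491296) (l 16317928)) (l 429528828935))) (l 1))) (a (b (a (b (c (a (l 16013464) (l 15995472)) (l 16063312)) (c (b (l 15585264) (a (l 15644984) (l 15653176))) (c (b (l 16031960) (l 15938312)) (l 16126160)))) (b (c (a (l 16001320) (l 16029928)) (l 16136544)) (c (b (l 15621456) (a (l 15684232) (l 1))) (b (l 16123456) (l 15820952))))) (b (b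 (a (c (a (l 15607976) (l 15617760)) (c (l 15887744) (l 16075592))) (c (l 15479736) (l 15889616))) (a (c (a (l 15576056) (l 15581840)) (c (l 15837488) (l 16015584))) (l 1))) (a (b (c (a (l 15408120) (l 15493824)) (a (l 15786936) (l 15816488))) (a (b (c (l 15494888) (l 15797728)) (a (c (l 15467600) (l 15786200)) (l 1))) (l 1))) (l 1)))) (b (l 1) (l 1)))) (l 1)), by decide +kernel⟩

theorem c_pp_112_a : CertB 536870912 536870912 0 536870912 1020054732 13421774 3 eng mog cd3q1 cd2q2a pd1 false true true .dn 1 1 2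
    ndB3q1 ndB2q2a pcB1 Cut.none Ext.none :=
  certB2 (fam := false) (s1 := true) (s2 := true) (a := 1) (b := 1) (c := 2) (cn := .dn) (n1 := ndB3q1) (n2 := ndB2q2a) (pc := pcB1) (cut := Cut.none) (xt := Ext.none) (P1 := 536870912) (W1 := 536870912) (P2 := 0) (W2 := 536870912) (P3 := 1020054732) (W3 := 13421774) (N0 := 3) (En := eng) (mo := mog) (C1 := cd3q1) (C2 := cd2q2a) (C3 := pd1)
    rfl (fun _ => rfl) k0_pp_112_a

noncomputable def f_pp_112_b : ℕ → ℕ → ℕ → ℕ → Bool := onCell 536870912 536870912 1239849684 370763052 1020054732 13421774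
    (rowB 3 eng mog cd3q1 cd2q2b pd1 2 false true true .dn 1 1 2 (qsf 536870912 536870912 1239849684 370763052 1) ndB3q1 ndB2q2b pcB1 Cut.none Ext.none)

def k0_pp_112_b : ∃ t, chk3 f_pp_112_b t 1 1 1 = true :=
  ⟨(a (a (b (b (a (c (b (l 15874592) (l 15657272)) (b (l 15878400) (l 15659672))) (c (b (l 16097072) (l 15927240)) (b (l 16033392) (l 15853312)))) (a (c (b (l 15354112) (l 15082488)) (b (l 15419056) (l 15182968))) (b (l 15493152) (c (l 15391088) (l 15430088))))) (b (a (c (l 14701408) (l 14814576)) (c (l 14793816) (l 15089992))) (a (c (l 14114912) (l 14255776)) (c (l 14505776) (l 14577472))))) (b (b (a (c (b (l 16233936) (l 16116248)) (b (l 16119520) (l 15981080))) (c (b (l 16330536) (l 16227096)) (l 520259602775))) (a (c (l 15609000) (l 15733352)) (c (l 15824088) (l 15863560)))) (b (a (c (l 15266992) (l 15334416)) (c (l 15602608) (l 15539800))) (a (c (l 14863336) (l 14864440)) (c (l 15183264) (l 15113464)))))) (a (b (b (l 1) (a (c (l 16118384) (l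 15937576)) (c (l 16184544) (l 15959944)))) (b (a (c (l 15789896) (l 15700872)) (c (l 16013680) (l 15815696))) (a (c (l 15460408) (l 15320296)) (c (l 15689608) (l 15479480))))) (b (l 1) (b (a (c (l 16150904) (l 15886000)) (l 1)) (a (c (l 15866368) (l 15584728)) (c (l 15984232) (l 15628904))))))), by decide +kernel⟩

theorem c_pp_112_b : CertB 536870912 536870912 1239849684 370763052 1020054732 13421774 3 eng mog cd3q1 cd2q2b pd1 false true true .dn 1 1 2
    ndB3q1 ndB2q2b pcB1 Cut.none Ext.none :=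
  certB2 (fam := false) (s1 := true) (s2 := true) (a := 1) (b := 1) (c := 2) (cn := .dn) (n1 := ndB3q1) (n2 := ndB2q2b) (pc := pcB1) (cut := Cut.none) (xt := Ext.none) (P1 := 536870912) (W1 := 536870912) (P2 := 1239849684) (W2 := 370763052) (P3 := 1020054732) (W3 := 13421774) (N0 := 3) (En := eng) (mo := mog) (C1 := cd3q1) (C2 := cd2q2b) (C3 := pd1)
    rfl (fun _ => rfl) k0_pp_112_b

noncomputable def f_pp_113 : ℕ → ℕ → ℕ → ℕ → Bool := onCell 536870912 536870912 1610612736 536870912 1020054732 13421774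
    (rowB 3 eng mog cd3q1 cd2q3 pd1 2 false true true .nn 1 1 3 (qsf 536870912 536870912 1610612736 536870912 1) ndB3q1 ndB2q3 pcB1 Cut.none Ext.none)

def k0_pp_113 : ∃ t, chk3 f_pp_113 t 1 1 1 = true :=
  ⟨(a (b (b (a (b (a (c (l 13966040) (l 13868920)) (l 14010168)) (a (c (l 13384608) (l 13349560)) (l 13575480))) (b (a (l 14492592) (l 14767104)) (a (l 14144240) (l 14403728)))) (a (b (a (l 2) (l 13176720)) (l 2)) (b (a (l 13670248) (l 13997512)) (a (l 13091776) (l 13511048))))) (b (a (l 2) (b (a (l 2) (l 12933832)) (l 2))) (l 2))) (b (a (b (a (b (l 14953376) (l 14613504)) (b (l 15084024) (l 14761352))) (b (a (l 14239176) (l 14415592)) (a (l 13829128) (l 14050992)))) (b (a (b (l 15147328) (l 14830696)) (b (l 15132768) (l 14808480))) (a (b (l 14502104) (l 14173088)) (b (l 14478592) (l 14157744))))) (a (b (b (a (l 13353208) (l 13677856)) (a (l 12724880) (l 13224896))) (b (a (l 2) (l 12958032)) (l 2))) (b (b (a (l 13871544) (l 13884472)) (a (l 13668584)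 (l 13769992))) (b (l 14334664) (a (l 15146320) (l 16567648))))))), by decide +kernel⟩

theorem c_pp_113 : CertB 536870912 536870912 1610612736 536870912 1020054732 13421774 3 eng mog cd3q1 cd2q3 pd1 false true true .nn 1 1 3
    ndB3q1 ndB2q3 pcB1 Cut.none Ext.none :=
  certB2 (fam := false) (s1 := true) (s2 := true) (a := 1) (b := 1) (c := 3) (cn := .nn) (n1 := ndB3q1) (n2 := ndB2q3) (pc := pcB1) (cut := Cut.none) (xt := Ext.none) (P1 := 536870912) (W1 := 536870912) (P2 := 1610612736) (W2 := 536870912) (P3 := 1020054732) (W3 := 13421774) (N0 := 3) (En := eng) (mo := mog) (C1 := cd3q1) (C2 := cd2q3) (C3 := pd1)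
    rfl (fun _ => rfl) k0_pp_113

noncomputable def f_pp_123 : ℕ → ℕ → ℕ → ℕ → Bool := onCell 1073741824 536870912 1610612736 536870912 1020054732 13421774
    (rowB 3 eng mog cd3q1 cd2q3 pd2 2 false true true .npn 1 2 3 (qsf 536870912 536870912 1610612736 536870912 2) ndB3q1 ndB2q3 pcB2 Cut.none Ext.none)

def k0_pp_123 : ∃ t, chk3 f_pp_123 t 1 1 1 = true :=
  ⟨(a (a (b (b (a (b (l 14440496) (l 14268248)) (b (l 14248544) (l 14196304))) (a (b (l 14089304) (l 13930568)) (b (l 14176464) (l 14184144)))) (b (a (b (l 13830528) (l 13716216)) (b (l 14252336) (l 14445912))) (a (b (l 14956216) (l 15967784)) (b (l 14901240) (l 15262528))))) (b (b (b (l 1) (a (l 14115952) (l 1))) (a (b (l 14227920) (l 14365208)) (b (l 14283832) (l 14530408)))) (b (a (b (l 14555528) (l 14847464)) (b (l 14818376) (l 15180816))) (b (a (l 15310392) (l 15587400)) (l 4))))) (b (a (b (l 1) (b (l 1) (a (l 14708736) (l 1)))) (l 1)) (a (b (a (b (l 15081128) (l 15460936)) (b (l 15357280) (l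 15681648))) (a (l 4) (l 4))) (b (a (b (l 1) (l 4)) (l 1)) (l 4))))), by decide +kernel⟩

theorem c_pp_123 : CertB 536870912 536870912 1610612736 536870912 1020054732 13421774 3 eng mog cd3q1 cd2q3 pd2 false true true .npn 1 2 3
    ndB3q1 ndB2q3 pcB2 Cut.none Ext.none :=
  certB2 (fam := false) (s1 := true) (s2 := true) (a := 1) (b := 2) (c := 3) (cn := .npn) (n1 := ndB3q1) (n2 := ndB2q3) (pc := pcB2) (cut := Cut.none) (xt := Ext.none) (P1 := 536870912) (W1 := 536870912) (P2 := 1610612736) (W2 := 536870912) (P3 := 1020054732) (W3 := 13421774) (N0 := 3) (En := eng) (mo := mog) (C1 := cd3q1) (C2 := cd2q3) (C3 := pd2)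
    rfl (fun _ => rfl) k0_pp_123

noncomputable def f_pp_133 : ℕ → ℕ → ℕ → ℕ → Bool := onCell 1610612736 536870912 1610612736 536870912 1020054732 13421774
    (rowB 3 eng mog cd3q1 cd2q3 pd3 2 false true true .dn 1 3 3 (qsf 536870912 536870912 1610612736 536870912 3) ndB3q1 ndB2q3 pcB3 Cut.none Ext.none)

def k0_pp_133 : ∃ t, chk3 f_pp_133 t 1 1 1 = true :=
  ⟨(a (b (l 1) (b (l 1) (l 4))) (l 1)), by decide +kernel⟩

theorem c_pp_133 : CertB 536870912 536870912 1610612736 536870912 1020054732 13421774 3 eng mog cd3q1 cd2q3 pd3 false true true .dn 1 3 3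
    ndB3q1 ndB2q3 pcB3 Cut.none Ext.none :=
  certB2 (fam := false) (s1 := true) (s2 := true) (a := 1) (b := 3) (c := 3) (cn := .dn) (n1 := ndB3q1) (n2 := ndB2q3) (pc := pcB3) (cut := Cut.none) (xt := Ext.none) (P1 := 536870912) (W1 := 536870912) (P2 := 1610612736) (W2 := 536870912) (P3 := 1020054732) (W3 := 13421774) (N0 := 3) (En := eng) (mo := mog) (C1 := cd3q1) (C2 := cd2q3) (C3 := pd3)
    rfl (fun _ => rfl) k0_pp_133

noncomputable def f_pp_202_a : ℕ → ℕ → ℕ → ℕ → Bool := onCell 1073741824 536870912 0 536870912 1020054732 13421774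
    (rowB 3 eng mog cd3q2 cd2q2a pd0 0 false true true .pp 2 0 2 (qsf 1073741824 536870912 0 536870912 0) ndB3q2 ndB2q2a pcB0 Cut.none Ext.none)

def k0_pp_202_a : ∃ t, chk3 f_pp_202_a t 1 1 1 = true :=
  ⟨(l 3), by decide +kernel⟩

theorem c_pp_202_a : CertB 1073741824 536870912 0 536870912 1020054732 13421774 3 eng mog cd3q2 cd2q2a pd0 false true true .pp 2 0 2
    ndB3q2 ndB2q2a pcB0 Cut.none Ext.none :=
  certB0 (fam := false) (s1 := true) (s2 := true) (a := 2) (b := 0) (c := 2) (cn := .pp) (n1 := ndB3q2) (n2 := ndB2q2a) (pc := pcB0) (cut := Cut.none) (xt := Ext.none) (P1 := 1073741824) (W1 := 536870912) (P2 := 0) (W2 := 536870912) (P3 := 1020054732) (W3 := 13421774) (N0 := 3) (En := eng) (mo := mog) (C1 := cd3q2) (C2 := cd2q2a) (C3 := pd0)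
    rfl k0_pp_202_a

noncomputable def f_pp_202_b : ℕ → ℕ → ℕ → ℕ → Bool := onCell 1073741824 536870912 1239849684 370763052 1020054732 13421774
    (rowB 3 eng mog cd3q2 cd2q2b pd0 0 false true true .pp 2 0 2 (qsf 1073741824 536870912 1239849684 370763052 0) ndB3q2 ndB2q2b pcB0 Cut.none Ext.none)

def k0_pp_202_b : ∃ t, chk3 f_pp_202_b t 1 1 1 = true :=
  ⟨(l 3), by decide +kernel⟩

theorem c_pp_202_b : CertB 1073741824 536870912 1239849684 370763052 1020054732 13421774 3 eng mog cd3q2 cd2q2b pd0 false true true .pp 2 0 2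
    ndB3q2 ndB2q2b pcB0 Cut.none Ext.none :=
  certB0 (fam := false) (s1 := true) (s2 := true) (a := 2) (b := 0) (c := 2) (cn := .pp) (n1 := ndB3q2) (n2 := ndB2q2b) (pc := pcB0) (cut := Cut.none) (xt := Ext.none) (P1 := 1073741824) (W1 := 536870912) (P2 := 1239849684) (W2 := 370763052) (P3 := 1020054732) (W3 := 13421774) (N0 := 3) (En := eng) (mo := mog) (C1 := cd3q2) (C2 := cd2q2b) (C3 := pd0)
    rfl k0_pp_202_b

noncomputable def f_pp_203 : ℕ → ℕ → ℕ → ℕ → Bool := onCell 1073741824 536870912 0 536870912 1020054732 13421774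
    (rowB 3 eng mog cd3q2 cd2q3 pd0 1 false true true .up 2 0 3 (qsf 1073741824 536870912 1610612736 536870912 0) ndB3q2 ndB2q3 pcB0 Cut.none Ext.none)

def k0_pp_203 : ∃ t, chk3 f_pp_203 t 1 1 1 = true :=
  ⟨(l 3), by decide +kernel⟩

theorem c_pp_203 : CertB 1073741824 536870912 1610612736 536870912 1020054732 13421774 3 eng mog cd3q2 cd2q3 pd0 false true true .up 2 0 3
    ndB3q2 ndB2q3 pcB0 Cut.none Ext.none :=
  certB1 (fam := false) (s1 := true) (s2 := true) (a := 2) (b := 0) (c := 3) (cn := .up) (n1 := ndB3q2) (n2 := ndB2q3) (pc := pcB0) (cut := Cut.none) (xt := Ext.none) (P1 := 1073741824) (W1 := 536870912) (P2 := 1610612736) (W2 := 536870912) (P3 := 1020054732) (W3 := 13421774) (N0 := 3) (En := eng) (mo := mog) (C1 := cd3q2) (C2 := cd2q3) (C3 := pd0)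
    rfl (fun _ => rfl) k0_pp_203

noncomputable def xt_pp_213 : Ext := extD3 3 ⟨4, 1, 1, 5, 99, 20, 33, 40, 51, 125, 1, 32⟩ eng cd3q2 cd2q3 pd1 false true true .pnn 2 1 3 rfl ndB3q2 ndB2q3 pcB1

noncomputable def f_pp_213 : ℕ → ℕ → ℕ → ℕ → Bool := onCell 1073741824 536870912 1610612736 536870912 1020054732 13421774
    (rowB 3 eng mog cd3q2 cd2q3 pd1 0 false true true .pnn 2 1 3 (qsf 1073741824 536870912 1610612736 536870912 1) ndB3q2 ndB2q3 pcB1 Cut.none xt_pp_213)

def k0_pp_213 : ∃ t, chk3 f_pp_213 t 1 1 1 = true :=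
  ⟨(a (b (l 3) (b (l 3) (a (b (l 3) (a (b (l 3) (a (b (a (b (l 3) (a (b (l 16687712) (l 16712696)) (l 16610536))) (l 3)) (a (b (a (l 16688776) (l 16640824)) (a (l 16741608) (l 16735392))) (b (a (l 16655248) (l 3)) (a (l 16667112) (l 290077847175))))) (b (l 3) (a (l 5602162248234919978030432287) (l 3))))) (l 3))) (l 3)))) (l 3)), by decide +kernel⟩

theorem c_pp_213 : CertB 1073741824 536870912 1610612736 536870912 1020054732 13421774 3 eng mog cd3q2 cd2q3 pd1 false true true .pnn 2 1 3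
    ndB3q2 ndB2q3 pcB1 Cut.none xt_pp_213 :=
  certB0 (fam := false) (s1 := true) (s2 := true) (a := 2) (b := 1) (c := 3) (cn := .pnn) (n1 := ndB3q2) (n2 := ndB2q3) (pc := pcB1) (cut := Cut.none) (xt := xt_pp_213) (P1 := 1073741824) (W1 := 536870912) (P2 := 1610612736) (W2 := 536870912) (P3 := 1020054732) (W3 := 13421774) (N0 := 3) (En := eng) (mo := mog) (C1 := cd3q2) (C2 := cd2q3) (C3 := pd1)
    rfl k0_pp_213

noncomputable def f_pp_303 : ℕ → ℕ → ℕ → ℕ → Bool := onCell 0 1230186008 1610612736 536870912 1020054732 13421774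
    (rowB 3 eng mog cd3q3 cd2q3 pd0 0 false true true .npn 3 0 3 (qsf 0 1230186008 1610612736 536870912 0) ndB3q3 ndB2q3 pcB0 Cut.none Ext.none)

def k0_pp_303 : ∃ t, chk3 f_pp_303 t 1 1 1 = true :=
  ⟨(a (l 3) (l 3)), by decide +kernel⟩

theorem c_pp_303 : CertB 0 1230186008 1610612736 536870912 1020054732 13421774 3 eng mog cd3q3 cd2q3 pd0 false true true .npn 3 0 3
    ndB3q3 ndB2q3 pcB0 Cut.none Ext.none :=
  certB0 (fam := false) (s1 := true) (s2 := true) (a := 3) (b := 0) (c := 3) (cn := .npn) (n1 := ndB3q3) (n2 := ndB2q3) (pc := pcB0) (cut := Cut.none) (xt := Ext.none) (P1 := 0) (W1 := 1230186008) (P2 := 1610612736) (W2 := 536870912) (P3 := 1020054732) (W3 := 13421774) (N0 := 3) (En := eng) (mo := mog) (C1 := cd3q3) (C2 := cd2q3) (C3 := pd0)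
    rfl k0_pp_303

noncomputable def f_pp_313 : ℕ → ℕ → ℕ → ℕ → Bool := onCell 0 1230186008 1610612736 536870912 1020054732 13421774
    (rowB 3 eng mog cd3q3 cd2q3 pd1 0 false true true .dn 3 1 3 (qsf 0 1230186008 1610612736 536870912 1) ndB3q3 ndB2q3 pcB1 Cut.none Ext.none)

def k0_pp_313 : ∃ t, chk3 f_pp_313 t 1 1 1 = true :=
  ⟨(a (l 1) (l 3)), by decide +kernel⟩

theorem c_pp_313 : CertB 0 1230186008 1610612736 536870912 1020054732 13421774 3 eng mog cd3q3 cd2q3 pd1 false true true .dn 3 1 3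
    ndB3q3 ndB2q3 pcB1 Cut.none Ext.none :=
  certB0 (fam := false) (s1 := true) (s2 := true) (a := 3) (b := 1) (c := 3) (cn := .dn) (n1 := ndB3q3) (n2 := ndB2q3) (pc := pcB1) (cut := Cut.none) (xt := Ext.none) (P1 := 0) (W1 := 1230186008) (P2 := 1610612736) (W2 := 536870912) (P3 := 1020054732) (W3 := 13421774) (N0 := 3) (En := eng) (mo := mog) (C1 := cd3q3) (C2 := cd2q3) (C3 := pd1)
    rfl k0_pp_313

noncomputable def f_pm_001 : ℕ → ℕ → ℕ → ℕ → Bool := onCell 0 536870912 536870912 536870912 1020054732 13421774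
    (rowB 3 eng mog cd3q0 cd2q1 pd0 0 false true false .up 0 0 1 (qsf 0 536870912 536870912 536870912 0) ndB3q0 ndB2q1 pcB0 Cut.none Ext.none)

def k0_pm_001 : ∃ t, chk3 f_pm_001 t 1 1 1 = true :=
  ⟨(l 4), by decide +kernel⟩

theorem c_pm_001 : CertB 0 536870912 536870912 536870912 1020054732 13421774 3 eng mog cd3q0 cd2q1 pd0 false true false .up 0 0 1
    ndB3q0 ndB2q1 pcB0 Cut.none Ext.none :=
  certB0 (fam := false) (s1 := true) (s2 := false) (a := 0) (b := 0) (c := 1) (cn := .up) (n1 := ndB3q0) (n2 := ndB2q1) (pc := pcB0) (cut := Cut.none) (xt := Ext.none) (P1 := 0) (W1 := 536870912) (P2 := 536870912) (W2 := 536870912) (P3 := 1020054732) (W3 := 13421774) (N0 := 3) (En := eng) (mo := mog) (C1 := cd3q0) (C2 := cd2q1) (C3 := pd0)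
    rfl k0_pm_001

noncomputable def f_pm_011 : ℕ → ℕ → ℕ → ℕ → Bool := onCell 0 536870912 536870912 536870912 1020054732 13421774
    (rowB 3 eng mog cd3q0 cd2q1 pd1 0 false true false .pnn 0 1 1 (qsf 0 536870912 536870912 536870912 1) ndB3q0 ndB2q1 pcB1 Cut.none Ext.none)

def k0_pm_011 : ∃ t, chk3 f_pm_011 t 1 1 1 = true :=
  ⟨(l 4), by decide +kernel⟩

theorem c_pm_011 : CertB 0 536870912 536870912 536870912 1020054732 13421774 3 eng mog cd3q0 cd2q1 pd1 false true false .pnn 0 1 1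
    ndB3q0 ndB2q1 pcB1 Cut.none Ext.none :=
  certB0 (fam := false) (s1 := true) (s2 := false) (a := 0) (b := 1) (c := 1) (cn := .pnn) (n1 := ndB3q0) (n2 := ndB2q1) (pc := pcB1) (cut := Cut.none) (xt := Ext.none) (P1 := 0) (W1 := 536870912) (P2 := 536870912) (W2 := 536870912) (P3 := 1020054732) (W3 := 13421774) (N0 := 3) (En := eng) (mo := mog) (C1 := cd3q0) (C2 := cd2q1) (C3 := pd1)
    rfl k0_pm_011

noncomputable def f_pm_012_a : ℕ → ℕ → ℕ → ℕ → Bool := onCell 536870912 536870912 0 536870912 1020054732 13421774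
    (rowB 3 eng mog cd3q0 cd2q2a pd1 2 false true false .pnp 0 1 2 (qsf 0 536870912 0 536870912 1) ndB3q0 ndB2q2a pcB1 Cut.none Ext.none)

def k0_pm_012_a : ∃ t, chk3 f_pm_012_a t 1 1 1 = true :=
  ⟨(a (l 4) (b (a (l 4) (a (l 4) (b (l 4) (l 4)))) (l 4))), by decide +kernel⟩

theorem c_pm_012_a : CertB 0 536870912 0 536870912 1020054732 13421774 3 eng mog cd3q0 cd2q2a pd1 false true false .pnp 0 1 2
    ndB3q0 ndB2q2a pcB1 Cut.none Ext.none :=
  certB2 (fam := false) (s1 := true) (s2 := false) (a := 0) (b := 1) (c := 2) (cn := .pnp) (n1 := ndB3q0) (n2 := ndB2q2a) (pc := pcB1) (cut := Cut.none) (xt := Ext.none) (P1 := 0) (W1 := 536870912) (P2 := 0) (W2 := 536870912) (P3 := 1020054732) (W3 := 13421774) (N0 := 3) (En := eng) (mo := mog) (C1 := cd3q0) (C2 := cd2q2a) (C3 := pd1)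
    rfl (fun _ => rfl) k0_pm_012_a

noncomputable def f_pm_012_b : ℕ → ℕ → ℕ → ℕ → Bool := onCell 536870912 536870912 1239849684 370763052 1020054732 13421774
    (rowB 3 eng mog cd3q0 cd2q2b pd1 2 false true false .pnp 0 1 2 (qsf 0 536870912 1239849684 370763052 1) ndB3q0 ndB2q2b pcB1 Cut.none Ext.none)

def k0_pm_012_b : ∃ t, chk3 f_pm_012_b t 1 1 1 = true :=
  ⟨(a (l 4) (a (l 4) (b (a (l 4) (l 4)) (l 4)))), by decide +kernel⟩

theorem c_pm_012_b : CertB 0 536870912 1239849684 370763052 1020054732 13421774 3 eng mog cd3q0 cd2q2b pd1 false true false .pnp 0 1 2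
    ndB3q0 ndB2q2b pcB1 Cut.none Ext.none :=
  certB2 (fam := false) (s1 := true) (s2 := false) (a := 0) (b := 1) (c := 2) (cn := .pnp) (n1 := ndB3q0) (n2 := ndB2q2b) (pc := pcB1) (cut := Cut.none) (xt := Ext.none) (P1 := 0) (W1 := 536870912) (P2 := 1239849684) (W2 := 370763052) (P3 := 1020054732) (W3 := 13421774) (N0 := 3) (En := eng) (mo := mog) (C1 := cd3q0) (C2 := cd2q2b) (C3 := pd1)
    rfl (fun _ => rfl) k0_pm_012_b

noncomputable def f_pm_022_a : ℕ → ℕ → ℕ → ℕ → Bool := onCell 0 536870912 0 536870912 1020054732 13421774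
    (rowB 3 eng mog cd3q0 cd2q2a pd2 0 false true false .pp 0 2 2 (qsf 0 536870912 0 536870912 2) ndB3q0 ndB2q2a pcB2 Cut.none Ext.none)

def k0_pm_022_a : ∃ t, chk3 f_pm_022_a t 1 1 1 = true :=
  ⟨(a (b (a (b (a (a (a (b (l 16446200) (l 16409152)) (a (l 16320808) (b (l 16257528) (l 16334488)))) (a (b (l 16136064) (l 16117832)) (b (l 16100840) (l 16068192)))) (a (a (l 15728392) (b (l 15771544) (l 15776536))) (b (l 15470592) (l 4)))) (a (b (a (a (l 16318304) (a (l 16465408) (l 16333000))) (a (a (l 16303120) (l 16243216)) (l 45867139959))) (a (a (b (l 16340776) (l 16294232)) (a (l 16491792) (l 4))) (l 4))) (l 4))) (a (b (a (b (l 15043656) (l 4)) (l 4)) (l 4)) (l 1))) (a (b (a (a (a (b (b (l 16300232) (l 4)) (l 4)) (l 4)) (l 4)) (l 4)) (l 4)) (l 4))) (l 1)), by decide +kernel⟩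

theorem c_pm_022_a : CertB 0 536870912 0 536870912 1020054732 13421774 3 eng mog cd3q0 cd2q2a pd2 false true false .pp 0 2 2
    ndB3q0 ndB2q2a pcB2 Cut.none Ext.none :=
  certB0 (fam := false) (s1 := true) (s2 := false) (a := 0) (b := 2) (c := 2) (cn := .pp) (n1 := ndB3q0) (n2 := ndB2q2a) (pc := pcB2) (cut := Cut.none) (xt := Ext.none) (P1 := 0) (W1 := 536870912) (P2 := 0) (W2 := 536870912) (P3 := 1020054732) (W3 := 13421774) (N0 := 3) (En := eng) (mo := mog) (C1 := cd3q0) (C2 := cd2q2a) (C3 := pd2)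
    rfl k0_pm_022_a

noncomputable def f_pm_022_b : ℕ → ℕ → ℕ → ℕ → Bool := onCell 0 536870912 1239849684 370763052 1020054732 13421774
    (rowB 3 eng mog cd3q0 cd2q2b pd2 0 false true false .pp 0 2 2 (qsf 0 536870912 1239849684 370763052 2) ndB3q0 ndB2q2b pcB2 Cut.none Ext.none)

def k0_pm_022_b : ∃ t, chk3 f_pm_022_b t 1 1 1 = true :=
  ⟨(a (b (a (b (a (a (a (b (b (l 16404240) (l 16393600)) (b (l 16293272) (l 16182112))) (a (b (l 16323200) (l 16348528)) (b (b (l 16252304) (l 16270784)) (l 16172432)))) (a (b (a (l 16170952) (l 16175512)) (a (l 16280832) (l 16250192))) (b (a (l 16134504) (l 16081544)) (b (l 16168904) (l 16219672))))) (b (a (b (l 15709104) (a (l 15998160) (l 15846424))) (b (l 15355688) (a (l 15671008) (l 15477232)))) (a (b (l 15873088) (l 15990448)) (b (l 15403248) (l 4))))) (a (a (a (b (b (l 16061104) (l 15931952)) (b (l 15818472) (l 4))) (b (a (l 16071120) (b (l 16252760) (l 16141960))) (l 4))) (b (a (b (l 16328944) (l 16233976)) (b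 (l 16262000) (l 4))) (l 4))) (l 4))) (b (a (b (a (b (l 15076144) (l 4)) (l 4)) (l 4)) (l 4)) (l 4))) (l 4)) (l 4)), by decide +kernel⟩

theorem c_pm_022_b : CertB 0 536870912 1239849684 370763052 1020054732 13421774 3 eng mog cd3q0 cd2q2b pd2 false true false .pp 0 2 2
    ndB3q0 ndB2q2b pcB2 Cut.none Ext.none :=
  certB0 (fam := false) (s1 := true) (s2 := false) (a := 0) (b := 2) (c := 2) (cn := .pp) (n1 := ndB3q0) (n2 := ndB2q2b) (pc := pcB2) (cut := Cut.none) (xt := Ext.none) (P1 := 0) (W1 := 536870912) (P2 := 1239849684) (W2 := 370763052) (P3 := 1020054732) (W3 := 13421774) (N0 := 3) (En := eng) (mo := mog) (C1 := cd3q0) (C2 := cd2q2b) (C3 := pd2)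
    rfl k0_pm_022_b

noncomputable def f_pm_023 : ℕ → ℕ → ℕ → ℕ → Bool := onCell 0 536870912 1610612736 536870912 1020054732 13421774
    (rowB 3 eng mog cd3q0 cd2q3 pd2 0 false true false .up 0 2 3 (qsf 0 536870912 1610612736 536870912 2) ndB3q0 ndB2q3 pcB2 Cut.none Ext.none)

def k0_pm_023 : ∃ t, chk3 f_pm_023 t 1 1 1 = true :=
  ⟨(a (l 4) (l 4)), by decide +kernel⟩

theorem c_pm_023 : CertB 0 536870912 1610612736 536870912 1020054732 13421774 3 eng mog cd3q0 cd2q3 pd2 false true false .up 0 2 3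
    ndB3q0 ndB2q3 pcB2 Cut.none Ext.none :=
  certB0 (fam := false) (s1 := true) (s2 := false) (a := 0) (b := 2) (c := 3) (cn := .up) (n1 := ndB3q0) (n2 := ndB2q3) (pc := pcB2) (cut := Cut.none) (xt := Ext.none) (P1 := 0) (W1 := 536870912) (P2 := 1610612736) (W2 := 536870912) (P3 := 1020054732) (W3 := 13421774) (N0 := 3) (En := eng) (mo := mog) (C1 := cd3q0) (C2 := cd2q3) (C3 := pd2)
    rfl k0_pm_023

noncomputable def f_pm_033 : ℕ → ℕ → ℕ → ℕ → Bool := onCell 0 536870912 1610612736 536870912 1020054732 13421774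
    (rowB 3 eng mog cd3q0 cd2q3 pd3 0 false true false .pnn 0 3 3 (qsf 0 536870912 1610612736 536870912 3) ndB3q0 ndB2q3 pcB3 Cut.none Ext.none)

def k0_pm_033 : ∃ t, chk3 f_pm_033 t 1 1 1 = true :=
  ⟨(a (l 4) (l 4)), by decide +kernel⟩

theorem c_pm_033 : CertB 0 536870912 1610612736 536870912 1020054732 13421774 3 eng mog cd3q0 cd2q3 pd3 false true false .pnn 0 3 3
    ndB3q0 ndB2q3 pcB3 Cut.none Ext.none :=
  certB0 (fam := false) (s1 := true) (s2 := false) (a := 0) (b := 3) (c := 3) (cn := .pnn) (n1 := ndB3q0) (n2 := ndB2q3) (pc := pcB3) (cut := Cut.none) (xt := Ext.none) (P1 := 0) (W1 := 536870912) (P2 := 1610612736) (W2 := 536870912) (P3 := 1020054732) (W3 := 13421774) (N0 := 3) (En := eng) (mo := mog) (C1 := cd3q0) (C2 := cd2q3) (C3 := pd3)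
    rfl k0_pm_033

noncomputable def f_pm_101 : ℕ → ℕ → ℕ → ℕ → Bool := onCell 536870912 536870912 536870912 536870912 1020054732 13421774
    (rowB 3 eng mog cd3q1 cd2q1 pd0 0 false true false .npn 1 0 1 (qsf 536870912 536870912 536870912 536870912 0) ndB3q1 ndB2q1 pcB0 Cut.none Ext.none)

def k0_pm_101 : ∃ t, chk3 f_pm_101 t 1 1 1 = true :=
  ⟨(l 4), by decide +kernel⟩

theorem c_pm_101 : CertB 536870912 536870912 536870912 536870912 1020054732 13421774 3 eng mog cd3q1 cd2q1 pd0 false true false .npn 1 0 1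
    ndB3q1 ndB2q1 pcB0 Cut.none Ext.none :=
  certB0 (fam := false) (s1 := true) (s2 := false) (a := 1) (b := 0) (c := 1) (cn := .npn) (n1 := ndB3q1) (n2 := ndB2q1) (pc := pcB0) (cut := Cut.none) (xt := Ext.none) (P1 := 536870912) (W1 := 536870912) (P2 := 536870912) (W2 := 536870912) (P3 := 1020054732) (W3 := 13421774) (N0 := 3) (En := eng) (mo := mog) (C1 := cd3q1) (C2 := cd2q1) (C3 := pd0)
    rfl k0_pm_101

noncomputable def f_pm_102_a : ℕ → ℕ → ℕ → ℕ → Bool := onCell 536870912 536870912 0 536870912 1020054732 13421774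
    (rowB 3 eng mog cd3q1 cd2q2a pd0 0 false true false .npp 1 0 2 (qsf 536870912 536870912 0 536870912 0) ndB3q1 ndB2q2a pcB0 Cut.none Ext.none)

def k0_pm_102_a : ∃ t, chk3 f_pm_102_a t 1 1 1 = true :=
  ⟨(l 4), by decide +kernel⟩

theorem c_pm_102_a : CertB 536870912 536870912 0 536870912 1020054732 13421774 3 eng mog cd3q1 cd2q2a pd0 false true false .npp 1 0 2
    ndB3q1 ndB2q2a pcB0 Cut.none Ext.none :=
  certB0 (fam := false) (s1 := true) (s2 := false) (a := 1) (b := 0) (c := 2) (cn := .npp) (n1 := ndB3q1) (n2 := ndB2q2a) (pc := pcB0) (cut := Cut.none) (xt := Ext.none) (P1 := 536870912) (W1 := 536870912) (P2 := 0) (W2 := 536870912) (P3 := 1020054732) (W3 := 13421774) (N0 := 3) (En := eng) (mo := mog) (C1 := cd3q1) (C2 := cd2q2a) (C3 := pd0)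
    rfl k0_pm_102_a

noncomputable def f_pm_102_b : ℕ → ℕ → ℕ → ℕ → Bool := onCell 536870912 536870912 1239849684 370763052 1020054732 13421774
    (rowB 3 eng mog cd3q1 cd2q2b pd0 0 false true false .npp 1 0 2 (qsf 536870912 536870912 1239849684 370763052 0) ndB3q1 ndB2q2b pcB0 Cut.none Ext.none)

def k0_pm_102_b : ∃ t, chk3 f_pm_102_b t 1 1 1 = true :=
  ⟨(l 4), by decide +kernel⟩

theorem c_pm_102_b : CertB 536870912 536870912 1239849684 370763052 1020054732 13421774 3 eng mog cd3q1 cd2q2b pd0 false true false .npp 1 0 2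
    ndB3q1 ndB2q2b pcB0 Cut.none Ext.none :=
  certB0 (fam := false) (s1 := true) (s2 := false) (a := 1) (b := 0) (c := 2) (cn := .npp) (n1 := ndB3q1) (n2 := ndB2q2b) (pc := pcB0) (cut := Cut.none) (xt := Ext.none) (P1 := 536870912) (W1 := 536870912) (P2 := 1239849684) (W2 := 370763052) (P3 := 1020054732) (W3 := 13421774) (N0 := 3) (En := eng) (mo := mog) (C1 := cd3q1) (C2 := cd2q2b) (C3 := pd0)
    rfl k0_pm_102_b

noncomputable def f_pm_112_a : ℕ → ℕ → ℕ → ℕ → Bool := onCell 536870912 536870912 0 536870912 1020054732 13421774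
    (rowB 3 eng mog cd3q1 cd2q2a pd1 0 false true false .dn 1 1 2 (qsf 536870912 536870912 0 536870912 1) ndB3q1 ndB2q2a pcB1 Cut.none Ext.none)

def k0_pm_112_a : ∃ t, chk3 f_pm_112_a t 1 1 1 = true :=
  ⟨(l 4), by decide +kernel⟩

theorem c_pm_112_a : CertB 536870912 536870912 0 536870912 1020054732 13421774 3 eng mog cd3q1 cd2q2a pd1 false true false .dn 1 1 2
    ndB3q1 ndB2q2a pcB1 Cut.none Ext.none :=
  certB0 (fam := false) (s1 := true) (s2 := false) (a := 1) (b := 1) (c := 2) (cn := .dn) (n1 := ndB3q1) (n2 := ndB2q2a) (pc := pcB1) (cut := Cut.none) (xt := Ext.none) (P1 := 536870912) (W1 := 536870912) (P2 := 0) (W2 := 536870912) (P3 := 1020054732) (W3 := 13421774) (N0 := 3) (En := eng) (mo := mog) (C1 := cd3q1) (C2 := cd2q2a) (C3 := pd1)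
    rfl k0_pm_112_a

noncomputable def f_pm_112_b : ℕ → ℕ → ℕ → ℕ → Bool := onCell 536870912 536870912 1239849684 370763052 1020054732 13421774
    (rowB 3 eng mog cd3q1 cd2q2b pd1 0 false true false .dn 1 1 2 (qsf 536870912 536870912 1239849684 370763052 1) ndB3q1 ndB2q2b pcB1 Cut.none Ext.none)

def k0_pm_112_b : ∃ t, chk3 f_pm_112_b t 1 1 1 = true :=
  ⟨(l 4), by decide +kernel⟩

theorem c_pm_112_b : CertB 536870912 536870912 1239849684 370763052 1020054732 13421774 3 eng mog cd3q1 cd2q2b pd1 false true false .dn 1 1 2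
    ndB3q1 ndB2q2b pcB1 Cut.none Ext.none :=
  certB0 (fam := false) (s1 := true) (s2 := false) (a := 1) (b := 1) (c := 2) (cn := .dn) (n1 := ndB3q1) (n2 := ndB2q2b) (pc := pcB1) (cut := Cut.none) (xt := Ext.none) (P1 := 536870912) (W1 := 536870912) (P2 := 1239849684) (W2 := 370763052) (P3 := 1020054732) (W3 := 13421774) (N0 := 3) (En := eng) (mo := mog) (C1 := cd3q1) (C2 := cd2q2b) (C3 := pd1)
    rfl k0_pm_112_b

noncomputable def f_pm_113 : ℕ → ℕ → ℕ → ℕ → Bool := onCell 536870912 536870912 536870912 536870912 1020054732 13421774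
    (rowB 3 eng mog cd3q1 cd2q3 pd1 1 false true false .nn 1 1 3 (qsf 536870912 536870912 1610612736 536870912 1) ndB3q1 ndB2q3 pcB1 Cut.none Ext.none)

def k0_pm_113 : ∃ t, chk3 f_pm_113 t 1 1 1 = true :=
  ⟨(b (l 4) (b (l 4) (a (l 4) (a (l 4) (b (l 4) (a (l 4) (l 995054001543))))))), by decide +kernel⟩

theorem c_pm_113 : CertB 536870912 536870912 1610612736 536870912 1020054732 13421774 3 eng mog cd3q1 cd2q3 pd1 false true false .nn 1 1 3
    ndB3q1 ndB2q3 pcB1 Cut.none Ext.none :=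
  certB1 (fam := false) (s1 := true) (s2 := false) (a := 1) (b := 1) (c := 3) (cn := .nn) (n1 := ndB3q1) (n2 := ndB2q3) (pc := pcB1) (cut := Cut.none) (xt := Ext.none) (P1 := 536870912) (W1 := 536870912) (P2 := 1610612736) (W2 := 536870912) (P3 := 1020054732) (W3 := 13421774) (N0 := 3) (En := eng) (mo := mog) (C1 := cd3q1) (C2 := cd2q3) (C3 := pd1)
    rfl (fun _ => rfl) k0_pm_113

noncomputable def f_pm_123 : ℕ → ℕ → ℕ → ℕ → Bool := onCell 536870912 536870912 1610612736 536870912 1020054732 13421774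
    (rowB 3 eng mog cd3q1 cd2q3 pd2 0 false true false .npn 1 2 3 (qsf 536870912 536870912 1610612736 536870912 2) ndB3q1 ndB2q3 pcB2 Cut.none Ext.none)

def k0_pm_123 : ∃ t, chk3 f_pm_123 t 1 1 1 = true :=
  ⟨(b (l 4) (a (l 4) (b (l 4) (a (l 4) (b (l 4) (a (l 4) (b (l 4) (l 16687968)))))))), by decide +kernel⟩

theorem c_pm_123 : CertB 536870912 536870912 1610612736 536870912 1020054732 13421774 3 eng mog cd3q1 cd2q3 pd2 false true false .npn 1 2 3
    ndB3q1 ndB2q3 pcB2 Cut.none Ext.none :=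
  certB0 (fam := false) (s1 := true) (s2 := false) (a := 1) (b := 2) (c := 3) (cn := .npn) (n1 := ndB3q1) (n2 := ndB2q3) (pc := pcB2) (cut := Cut.none) (xt := Ext.none) (P1 := 536870912) (W1 := 536870912) (P2 := 1610612736) (W2 := 536870912) (P3 := 1020054732) (W3 := 13421774) (N0 := 3) (En := eng) (mo := mog) (C1 := cd3q1) (C2 := cd2q3) (C3 := pd2)
    rfl k0_pm_123

noncomputable def f_pm_133 : ℕ → ℕ → ℕ → ℕ → Bool := onCell 536870912 536870912 1610612736 536870912 1020054732 13421774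
    (rowB 3 eng mog cd3q1 cd2q3 pd3 0 false true false .dn 1 3 3 (qsf 536870912 536870912 1610612736 536870912 3) ndB3q1 ndB2q3 pcB3 Cut.none Ext.none)

def k0_pm_133 : ∃ t, chk3 f_pm_133 t 1 1 1 = true :=
  ⟨(a (l 4) (l 1)), by decide +kernel⟩

theorem c_pm_133 : CertB 536870912 536870912 1610612736 536870912 1020054732 13421774 3 eng mog cd3q1 cd2q3 pd3 false true false .dn 1 3 3
    ndB3q1 ndB2q3 pcB3 Cut.none Ext.none :=
  certB0 (fam := false) (s1 := true) (s2 := false) (a := 1) (b := 3) (c := 3) (cn := .dn) (n1 := ndB3q1) (n2 := ndB2q3) (pc := pcB3) (cut := Cut.none) (xt := Ext.none) (P1 := 536870912) (W1 := 536870912) (P2 := 1610612736) (W2 := 536870912) (P3 := 1020054732) (W3 := 13421774) (N0 := 3) (En := eng) (mo := mog) (C1 := cd3q1) (C2 := cd2q3) (C3 := pd3)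
    rfl k0_pm_133

noncomputable def f_pm_202_a : ℕ → ℕ → ℕ → ℕ → Bool := onCell 0 536870912 0 536870912 1020054732 13421774
    (rowB 3 eng mog cd3q2 cd2q2a pd0 2 false true false .pp 2 0 2 (qsf 1073741824 536870912 0 536870912 0) ndB3q2 ndB2q2a pcB0 Cut.none Ext.none)

def k0_pm_202_a : ∃ t, chk3 f_pm_202_a t 2 2 1 = true :=
  ⟨(l 3), by decide +kernel⟩

def k1_pm_202_a : ∃ t, chk3 f_pm_202_a t 4 6 1 = true :=
  ⟨(b (l 3) (b (l 3) (a (b (l 3) (a (l 3) (a (a (l 16596976) (l 16576168)) (a (l 16534224) (c (l 16600280) (l 16575440)))))) (a (b (l 3) (a (b (l 3) (a (l 16519344) (a (l 16526120) (l 1)))) (l 1))) (l 1))))), by decide +kernel⟩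

def k2_pm_202_a : ∃ t, chk3 f_pm_202_a t 8 14 1 = true :=
  ⟨(a (a (b (a (b (a (b (l 16540400) (l 16529680)) (b (l 16555624) (l 16543912))) (a (l 16556472) (b (l 16557256) (l 16597904)))) (b (c (l 16557576) (l 16570952)) (a (c (l 16551864) (l 16563512)) (b (l 16607320) (l 16596880))))) (b (a (c (l 16595880) (l 16586256)) (a (l 16597648) (c (l 16596360) (l 16610624)))) (a (a (l 16610624) (l 16651128)) (a (l 16644688) (l 16654936))))) (a (a (b (b (l 16567968) (l 16585368)) (b (b (l 16624408) (c (l 16655992) (l 16670648))) (l 16662440))) (b (b (l 16582960) (l 16581392)) (b (b (l 16661032) (l 16632416)) (l 16624968)))) (b (b (c (l 16596296) (l 16641208)) (b (l 16623248) (l 16633856))) (b (l 16629288) (a (b (l 16662000) (l 16691176)) (b (l 16711568) (b (l 16674008) (l 16693064)))))))) (a (b (b (a (l 16608072) (l 16588264)) (a (l 16618880) (l 16601448))) (a (b (l 16649112) (a (l 16663080) (l 16674824))) (b (l 16611072) (b (l 16638096) (l 16642296))))) (b (b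 (a (l 16557648) (c (l 16612752) (l 16589344))) (a (b (l 16600368) (l 16607848)) (c (l 16626712) (l 16605944)))) (b (a (c (l 16652800) (l 16618544)) (b (l 307660171511) (l 1))) (a (l 343630581223) (l 1)))))), by decide +kernel⟩

def k3_pm_202_a : ∃ t, chk3 f_pm_202_a t 8 15 1 = true :=
  ⟨(a (a (a (b (a (a (l 16621688) (l 16635560)) (a (l 16648832) (l 16641432))) (b (a (b (l 16720496) (l 16716688)) (b (l 16698560) (l 16672848))) (a (l 16683968) (b (a (l 16695672) (l 16663264)) (l 16662144))))) (b (b (a (l 16680120) (l 16674064)) (b (l 16645304) (l 16638400))) (b (b (l 16631448) (a (l 16674624) (l 16659416))) (a (b (l 454762901463) (l 1)) (l 1))))) (a (b (b (b (l 16675272) (l 16644024)) (a (l 16651792) (l 16626952))) (b (b (a (l 16658088) (l 16651808)) (l 1)) (l 1))) (b (b (a (l 16651168) (b (l 16704408) (l 16669688))) (a (l 155188910103) (b (l 16655768) (l 1)))) (l 1)))) (a (b (a (b (a (b (l 16686584) (l 16676720)) (b (l 16681824) (l 1))) (l 1)) (l 1))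 (l 1)) (l 1))), by decide +kernel⟩

def k4_pm_202_a : ∃ t, chk3 f_pm_202_a t 9 7 1 = true :=
  ⟨(a (b (a (b (b (a (c (l 16596432) (l 16546840)) (c (l 304975776135) (l 317860563095))) (a (l 314102534823) (l 1))) (l 1)) (l 1)) (l 1)) (l 1)), by decide +kernel⟩

def k5_pm_202_a : ∃ t, chk3 f_pm_202_a t 5 3 1 = true :=
  ⟨(b (l 1) (l 1)), by decide +kernel⟩

def k6_pm_202_a : ∃ t, chk3 f_pm_202_a t 3 1 1 = true :=
  ⟨(l 1), by decide +kernel⟩

theorem s7_pm_202_a : ∃ t, chk3 f_pm_202_a t 8 7 1 = true := ex3_b k2_pm_202_a k3_pm_202_a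

theorem s8_pm_202_a : ∃ t, chk3 f_pm_202_a t 4 7 1 = true := ex3_a s7_pm_202_a k4_pm_202_a

theorem s9_pm_202_a : ∃ t, chk3 f_pm_202_a t 4 3 1 = true := ex3_b k1_pm_202_a s8_pm_202_a

theorem s10_pm_202_a : ∃ t, chk3 f_pm_202_a t 2 3 1 = true := ex3_a s9_pm_202_a k5_pm_202_a

theorem s11_pm_202_a : ∃ t, chk3 f_pm_202_a t 2 1 1 = true := ex3_b k0_pm_202_a s10_pm_202_a

theorem s12_pm_202_a : ∃ t, chk3 f_pm_202_a t 1 1 1 = true := ex3_a s11_pm_202_a k6_pm_202_a

theorem c_pm_202_a : CertB 1073741824 536870912 0 536870912 1020054732 13421774 3 eng mog cd3q2 cd2q2a pd0 false true false .pp 2 0 2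
    ndB3q2 ndB2q2a pcB0 Cut.none Ext.none :=
  certB2 (fam := false) (s1 := true) (s2 := false) (a := 2) (b := 0) (c := 2) (cn := .pp) (n1 := ndB3q2) (n2 := ndB2q2a) (pc := pcB0) (cut := Cut.none) (xt := Ext.none) (P1 := 1073741824) (W1 := 536870912) (P2 := 0) (W2 := 536870912) (P3 := 1020054732) (W3 := 13421774) (N0 := 3) (En := eng) (mo := mog) (C1 := cd3q2) (C2 := cd2q2a) (C3 := pd0)
    rfl (fun _ => rfl) s12_pm_202_a

noncomputable def f_pm_202_b : ℕ → ℕ → ℕ → ℕ → Bool := onCell 1073741824 536870912 1239849684 370763052 1020054732 13421774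
    (rowB 3 eng mog cd3q2 cd2q2b pd0 0 false true false .pp 2 0 2 (qsf 1073741824 536870912 1239849684 370763052 0) ndB3q2 ndB2q2b pcB0 Cut.none Ext.none)

def k0_pm_202_b : ∃ t, chk3 f_pm_202_b t 1 1 1 = true :=
  ⟨(l 3), by decide +kernel⟩

theorem c_pm_202_b : CertB 1073741824 536870912 1239849684 370763052 1020054732 13421774 3 eng mog cd3q2 cd2q2b pd0 false true false .pp 2 0 2
    ndB3q2 ndB2q2b pcB0 Cut.none Ext.none :=
  certB0 (fam := false) (s1 := true) (s2 := false) (a := 2) (b := 0) (c := 2) (cn := .pp) (n1 := ndB3q2) (n2 := ndB2q2b) (pc := pcB0) (cut := Cut.none) (xt := Ext.none) (P1 := 1073741824) (W1 := 536870912) (P2 := 1239849684) (W2 := 370763052) (P3 := 1020054732) (W3 := 13421774) (N0 := 3) (En := eng) (mo := mog) (C1 := cd3q2) (C2 := cd2q2b) (C3 := pd0)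
    rfl k0_pm_202_b

noncomputable def f_pm_203 : ℕ → ℕ → ℕ → ℕ → Bool := onCell 1073741824 536870912 0 536870912 1020054732 13421774
    (rowB 3 eng mog cd3q2 cd2q3 pd0 1 false true false .up 2 0 3 (qsf 1073741824 536870912 1610612736 536870912 0) ndB3q2 ndB2q3 pcB0 Cut.none Ext.none)

def k0_pm_203 : ∃ t, chk3 f_pm_203 t 1 1 1 = true :=
  ⟨(l 3), by decide +kernel⟩

theorem c_pm_203 : CertB 1073741824 536870912 1610612736 536870912 1020054732 13421774 3 eng mog cd3q2 cd2q3 pd0 false true false .up 2 0 3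
    ndB3q2 ndB2q3 pcB0 Cut.none Ext.none :=
  certB1 (fam := false) (s1 := true) (s2 := false) (a := 2) (b := 0) (c := 3) (cn := .up) (n1 := ndB3q2) (n2 := ndB2q3) (pc := pcB0) (cut := Cut.none) (xt := Ext.none) (P1 := 1073741824) (W1 := 536870912) (P2 := 1610612736) (W2 := 536870912) (P3 := 1020054732) (W3 := 13421774) (N0 := 3) (En := eng) (mo := mog) (C1 := cd3q2) (C2 := cd2q3) (C3 := pd0)
    rfl (fun _ => rfl) k0_pm_203

noncomputable def xt_pm_213 : Ext := extD3 3 ⟨4, 1, 1, 5, 99, 20, 33, 40, 51, 125, 1, 32⟩ eng cd3q2 cd2q3 pd1 false true false .pnn 2 1 3 rfl ndB3q2 ndB2q3 pcB1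

noncomputable def f_pm_213 : ℕ → ℕ → ℕ → ℕ → Bool := onCell 1073741824 536870912 1610612736 536870912 1020054732 13421774
    (rowB 3 eng mog cd3q2 cd2q3 pd1 0 false true false .pnn 2 1 3 (qsf 1073741824 536870912 1610612736 536870912 1) ndB3q2 ndB2q3 pcB1 Cut.none xt_pm_213)

def k0_pm_213 : ∃ t, chk3 f_pm_213 t 1 1 1 = true :=
  ⟨(a (a (b (l 3) (a (b (l 3) (b (a (b (a (b (l 3) (c (l 15774544) (l 15683800))) (l 3)) (a (b (c (l 15885208) (l 15777376)) (a (l 15997608) (l 15979952))) (l 3))) (l 3)) (a (b (a (b (c (l 16313328) (l 16151248)) (a (l 16711456) (l 16543040))) (b (a (l 16156720) (l 3)) (a (l 16419104) (l 16355568)))) (a (b (a (b (l 16781472) (l 16791584)) (b (l 16734648) (l 16755880))) (b (a (l 16755168) (l 16777896)) (a (l 16723104) (l 16766304)))) (b (c (l 16626544) (l 16647632)) (b (a (l 16728904) (l 16682192)) (a (l 16749624) (l 16701184)))))) (a (b (l 3) (b (l 16522896) (l 141168668365881375))) (l 3))))) (l 3))) (l 3)) (l 3)), by decide +kernel⟩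

theorem c_pm_213 : CertB 1073741824 536870912 1610612736 536870912 1020054732 13421774 3 eng mog cd3q2 cd2q3 pd1 false true false .pnn 2 1 3
    ndB3q2 ndB2q3 pcB1 Cut.none xt_pm_213 :=
  certB0 (fam := false) (s1 := true) (s2 := false) (a := 2) (b := 1) (c := 3) (cn := .pnn) (n1 := ndB3q2) (n2 := ndB2q3) (pc := pcB1) (cut := Cut.none) (xt := xt_pm_213) (P1 := 1073741824) (W1 := 536870912) (P2 := 1610612736) (W2 := 536870912) (P3 := 1020054732) (W3 := 13421774) (N0 := 3) (En := eng) (mo := mog) (C1 := cd3q2) (C2 := cd2q3) (C3 := pd1)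
    rfl k0_pm_213

noncomputable def f_pm_303 : ℕ → ℕ → ℕ → ℕ → Bool := onCell 0 1230186008 1610612736 536870912 1020054732 13421774
    (rowB 3 eng mog cd3q3 cd2q3 pd0 0 false true false .npn 3 0 3 (qsf 0 1230186008 1610612736 536870912 0) ndB3q3 ndB2q3 pcB0 Cut.none Ext.none)

def k0_pm_303 : ∃ t, chk3 f_pm_303 t 1 1 1 = true :=
  ⟨(a (l 3) (l 3)), by decide +kernel⟩

theorem c_pm_303 : CertB 0 1230186008 1610612736 536870912 1020054732 13421774 3 eng mog cd3q3 cd2q3 pd0 false true false .npn 3 0 3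
    ndB3q3 ndB2q3 pcB0 Cut.none Ext.none :=
  certB0 (fam := false) (s1 := true) (s2 := false) (a := 3) (b := 0) (c := 3) (cn := .npn) (n1 := ndB3q3) (n2 := ndB2q3) (pc := pcB0) (cut := Cut.none) (xt := Ext.none) (P1 := 0) (W1 := 1230186008) (P2 := 1610612736) (W2 := 536870912) (P3 := 1020054732) (W3 := 13421774) (N0 := 3) (En := eng) (mo := mog) (C1 := cd3q3) (C2 := cd2q3) (C3 := pd0)
    rfl k0_pm_303

noncomputable def f_pm_313 : ℕ → ℕ → ℕ → ℕ → Bool := onCell 0 1230186008 1610612736 536870912 1020054732 13421774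
    (rowB 3 eng mog cd3q3 cd2q3 pd1 0 false true false .dn 3 1 3 (qsf 0 1230186008 1610612736 536870912 1) ndB3q3 ndB2q3 pcB1 Cut.none Ext.none)

def k0_pm_313 : ∃ t, chk3 f_pm_313 t 1 1 1 = true :=
  ⟨(a (l 1) (l 3)), by decide +kernel⟩

theorem c_pm_313 : CertB 0 1230186008 1610612736 536870912 1020054732 13421774 3 eng mog cd3q3 cd2q3 pd1 false true false .dn 3 1 3
    ndB3q3 ndB2q3 pcB1 Cut.none Ext.none :=
  certB0 (fam := false) (s1 := true) (s2 := false) (a := 3) (b := 1) (c := 3) (cn := .dn) (n1 := ndB3q3) (n2 := ndB2q3) (pc := pcB1) (cut := Cut.none) (xt := Ext.none) (P1 := 0) (W1 := 1230186008) (P2 := 1610612736) (W2 := 536870912) (P3 := 1020054732) (W3 := 13421774) (N0 := 3) (En := eng) (mo := mog) (C1 := cd3q3) (C2 := cd2q3) (C3 := pd1)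
    rfl k0_pm_313

noncomputable def f_mm_001 : ℕ → ℕ → ℕ → ℕ → Bool := onCell 0 536870912 536870912 536870912 1020054732 13421774
    (rowB 3 eng mog cd3q0 cd2q1 pd0 0 false false false .up 0 0 1 (qsf 0 536870912 536870912 536870912 0) ndB3q0 ndB2q1 pcB0 Cut.none Ext.none)

def k0_mm_001 : ∃ t, chk3 f_mm_001 t 1 1 1 = true :=
  ⟨(l 3), by decide +kernel⟩

theorem c_mm_001 : CertB 0 536870912 536870912 536870912 1020054732 13421774 3 eng mog cd3q0 cd2q1 pd0 false false false .up 0 0 1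
    ndB3q0 ndB2q1 pcB0 Cut.none Ext.none :=
  certB0 (fam := false) (s1 := false) (s2 := false) (a := 0) (b := 0) (c := 1) (cn := .up) (n1 := ndB3q0) (n2 := ndB2q1) (pc := pcB0) (cut := Cut.none) (xt := Ext.none) (P1 := 0) (W1 := 536870912) (P2 := 536870912) (W2 := 536870912) (P3 := 1020054732) (W3 := 13421774) (N0 := 3) (En := eng) (mo := mog) (C1 := cd3q0) (C2 := cd2q1) (C3 := pd0)
    rfl k0_mm_001

noncomputable def f_mm_011 : ℕ → ℕ → ℕ → ℕ → Bool := onCell 0 536870912 536870912 536870912 1020054732 13421774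
    (rowB 3 eng mog cd3q0 cd2q1 pd1 0 false false false .pnn 0 1 1 (qsf 0 536870912 536870912 536870912 1) ndB3q0 ndB2q1 pcB1 Cut.none Ext.none)

def k0_mm_011 : ∃ t, chk3 f_mm_011 t 1 1 1 = true :=
  ⟨(l 3), by decide +kernel⟩

theorem c_mm_011 : CertB 0 536870912 536870912 536870912 1020054732 13421774 3 eng mog cd3q0 cd2q1 pd1 false false false .pnn 0 1 1
    ndB3q0 ndB2q1 pcB1 Cut.none Ext.none :=
  certB0 (fam := false) (s1 := false) (s2 := false) (a := 0) (b := 1) (c := 1) (cn := .pnn) (n1 := ndB3q0) (n2 := ndB2q1) (pc := pcB1) (cut := Cut.none) (xt := Ext.none) (P1 := 0) (W1 := 536870912) (P2 := 536870912) (W2 := 536870912) (P3 := 1020054732) (W3 := 13421774) (N0 := 3) (En := eng) (mo := mog) (C1 := cd3q0) (C2 := cd2q1) (C3 := pd1)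
    rfl k0_mm_011

noncomputable def f_mm_012_a : ℕ → ℕ → ℕ → ℕ → Bool := onCell 0 536870912 0 536870912 1020054732 13421774
    (rowB 3 eng mog cd3q0 cd2q2a pd1 0 false false false .pnp 0 1 2 (qsf 0 536870912 0 536870912 1) ndB3q0 ndB2q2a pcB1 Cut.none Ext.none)

def k0_mm_012_a : ∃ t, chk3 f_mm_012_a t 1 1 1 = true :=
  ⟨(l 5), by decide +kernel⟩

theorem c_mm_012_a : CertB 0 536870912 0 536870912 1020054732 13421774 3 eng mog cd3q0 cd2q2a pd1 false false false .pnp 0 1 2
    ndB3q0 ndB2q2a pcB1 Cut.none Ext.none :=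
  certB0 (fam := false) (s1 := false) (s2 := false) (a := 0) (b := 1) (c := 2) (cn := .pnp) (n1 := ndB3q0) (n2 := ndB2q2a) (pc := pcB1) (cut := Cut.none) (xt := Ext.none) (P1 := 0) (W1 := 536870912) (P2 := 0) (W2 := 536870912) (P3 := 1020054732) (W3 := 13421774) (N0 := 3) (En := eng) (mo := mog) (C1 := cd3q0) (C2 := cd2q2a) (C3 := pd1)
    rfl k0_mm_012_a

noncomputable def f_mm_012_b : ℕ → ℕ → ℕ → ℕ → Bool := onCell 0 536870912 1239849684 370763052 1020054732 13421774
    (rowB 3 eng mog cd3q0 cd2q2b pd1 0 false false false .pnp 0 1 2 (qsf 0 536870912 1239849684 370763052 1) ndB3q0 ndB2q2b pcB1 Cut.none Ext.none)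

def k0_mm_012_b : ∃ t, chk3 f_mm_012_b t 1 1 1 = true :=
  ⟨(l 5), by decide +kernel⟩

theorem c_mm_012_b : CertB 0 536870912 1239849684 370763052 1020054732 13421774 3 eng mog cd3q0 cd2q2b pd1 false false false .pnp 0 1 2
    ndB3q0 ndB2q2b pcB1 Cut.none Ext.none :=
  certB0 (fam := false) (s1 := false) (s2 := false) (a := 0) (b := 1) (c := 2) (cn := .pnp) (n1 := ndB3q0) (n2 := ndB2q2b) (pc := pcB1) (cut := Cut.none) (xt := Ext.none) (P1 := 0) (W1 := 536870912) (P2 := 1239849684) (W2 := 370763052) (P3 := 1020054732) (W3 := 13421774) (N0 := 3) (En := eng) (mo := mog) (C1 := cd3q0) (C2 := cd2q2b) (C3 := pd1)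
    rfl k0_mm_012_b

noncomputable def f_mm_022_a : ℕ → ℕ → ℕ → ℕ → Bool := onCell 0 536870912 0 536870912 1020054732 13421774
    (rowB 3 eng mog cd3q0 cd2q2a pd2 0 false false false .pp 0 2 2 (qsf 0 536870912 0 536870912 2) ndB3q0 ndB2q2a pcB2 Cut.none Ext.none)

def k0_mm_022_a : ∃ t, chk3 f_mm_022_a t 1 1 1 = true :=
  ⟨(l 5), by decide +kernel⟩

theorem c_mm_022_a : CertB 0 536870912 0 536870912 1020054732 13421774 3 eng mog cd3q0 cd2q2a pd2 false false false .pp 0 2 2
    ndB3q0 ndB2q2a pcB2 Cut.none Ext.none :=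
  certB0 (fam := false) (s1 := false) (s2 := false) (a := 0) (b := 2) (c := 2) (cn := .pp) (n1 := ndB3q0) (n2 := ndB2q2a) (pc := pcB2) (cut := Cut.none) (xt := Ext.none) (P1 := 0) (W1 := 536870912) (P2 := 0) (W2 := 536870912) (P3 := 1020054732) (W3 := 13421774) (N0 := 3) (En := eng) (mo := mog) (C1 := cd3q0) (C2 := cd2q2a) (C3 := pd2)
    rfl k0_mm_022_a

noncomputable def f_mm_022_b : ℕ → ℕ → ℕ → ℕ → Bool := onCell 0 536870912 1239849684 370763052 1020054732 13421774
    (rowB 3 eng mog cd3q0 cd2q2b pd2 0 false false false .pp 0 2 2 (qsf 0 536870912 1239849684 370763052 2) ndB3q0 ndB2q2b pcB2 Cut.none Ext.none)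

def k0_mm_022_b : ∃ t, chk3 f_mm_022_b t 1 1 1 = true :=
  ⟨(l 5), by decide +kernel⟩

theorem c_mm_022_b : CertB 0 536870912 1239849684 370763052 1020054732 13421774 3 eng mog cd3q0 cd2q2b pd2 false false false .pp 0 2 2
    ndB3q0 ndB2q2b pcB2 Cut.none Ext.none :=
  certB0 (fam := false) (s1 := false) (s2 := false) (a := 0) (b := 2) (c := 2) (cn := .pp) (n1 := ndB3q0) (n2 := ndB2q2b) (pc := pcB2) (cut := Cut.none) (xt := Ext.none) (P1 := 0) (W1 := 536870912) (P2 := 1239849684) (W2 := 370763052) (P3 := 1020054732) (W3 := 13421774) (N0 := 3) (En := eng) (mo := mog) (C1 := cd3q0) (C2 := cd2q2b) (C3 := pd2)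
    rfl k0_mm_022_b

noncomputable def f_mm_023 : ℕ → ℕ → ℕ → ℕ → Bool := onCell 0 536870912 1610612736 536870912 1020054732 13421774
    (rowB 3 eng mog cd3q0 cd2q3 pd2 0 false false false .up 0 2 3 (qsf 0 536870912 1610612736 536870912 2) ndB3q0 ndB2q3 pcB2 Cut.none Ext.none)

def k0_mm_023 : ∃ t, chk3 f_mm_023 t 1 1 1 = true :=
  ⟨(l 5), by decide +kernel⟩

theorem c_mm_023 : CertB 0 536870912 1610612736 536870912 1020054732 13421774 3 eng mog cd3q0 cd2q3 pd2 false false false .up 0 2 3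
    ndB3q0 ndB2q3 pcB2 Cut.none Ext.none :=
  certB0 (fam := false) (s1 := false) (s2 := false) (a := 0) (b := 2) (c := 3) (cn := .up) (n1 := ndB3q0) (n2 := ndB2q3) (pc := pcB2) (cut := Cut.none) (xt := Ext.none) (P1 := 0) (W1 := 536870912) (P2 := 1610612736) (W2 := 536870912) (P3 := 1020054732) (W3 := 13421774) (N0 := 3) (En := eng) (mo := mog) (C1 := cd3q0) (C2 := cd2q3) (C3 := pd2)
    rfl k0_mm_023

noncomputable def f_mm_033 : ℕ → ℕ → ℕ → ℕ → Bool := onCell 0 536870912 1610612736 536870912 1020054732 13421774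
    (rowB 3 eng mog cd3q0 cd2q3 pd3 0 false false false .pnn 0 3 3 (qsf 0 536870912 1610612736 536870912 3) ndB3q0 ndB2q3 pcB3 Cut.none Ext.none)

def k0_mm_033 : ∃ t, chk3 f_mm_033 t 1 1 1 = true :=
  ⟨(l 5), by decide +kernel⟩

theorem c_mm_033 : CertB 0 536870912 1610612736 536870912 1020054732 13421774 3 eng mog cd3q0 cd2q3 pd3 false false false .pnn 0 3 3
    ndB3q0 ndB2q3 pcB3 Cut.none Ext.none :=
  certB0 (fam := false) (s1 := false) (s2 := false) (a := 0) (b := 3) (c := 3) (cn := .pnn) (n1 := ndB3q0) (n2 := ndB2q3) (pc := pcB3) (cut := Cut.none) (xt := Ext.none) (P1 := 0) (W1 := 536870912) (P2 := 1610612736) (W2 := 536870912) (P3 := 1020054732) (W3 := 13421774) (N0 := 3) (En := eng) (mo := mog) (C1 := cd3q0) (C2 := cd2q3) (C3 := pd3)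
    rfl k0_mm_033

noncomputable def f_mm_101 : ℕ → ℕ → ℕ → ℕ → Bool := onCell 536870912 536870912 536870912 536870912 1020054732 13421774
    (rowB 3 eng mog cd3q1 cd2q1 pd0 0 false false false .npn 1 0 1 (qsf 536870912 536870912 536870912 536870912 0) ndB3q1 ndB2q1 pcB0 Cut.none Ext.none)

def k0_mm_101 : ∃ t, chk3 f_mm_101 t 1 1 1 = true :=
  ⟨(l 3), by decide +kernel⟩

theorem c_mm_101 : CertB 536870912 536870912 536870912 536870912 1020054732 13421774 3 eng mog cd3q1 cd2q1 pd0 false false false .npn 1 0 1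
    ndB3q1 ndB2q1 pcB0 Cut.none Ext.none :=
  certB0 (fam := false) (s1 := false) (s2 := false) (a := 1) (b := 0) (c := 1) (cn := .npn) (n1 := ndB3q1) (n2 := ndB2q1) (pc := pcB0) (cut := Cut.none) (xt := Ext.none) (P1 := 536870912) (W1 := 536870912) (P2 := 536870912) (W2 := 536870912) (P3 := 1020054732) (W3 := 13421774) (N0 := 3) (En := eng) (mo := mog) (C1 := cd3q1) (C2 := cd2q1) (C3 := pd0)
    rfl k0_mm_101

noncomputable def f_mm_102_a : ℕ → ℕ → ℕ → ℕ → Bool := onCell 536870912 536870912 0 536870912 1020054732 13421774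
    (rowB 3 eng mog cd3q1 cd2q2a pd0 0 false false false .npp 1 0 2 (qsf 536870912 536870912 0 536870912 0) ndB3q1 ndB2q2a pcB0 Cut.none Ext.none)

def k0_mm_102_a : ∃ t, chk3 f_mm_102_a t 1 1 1 = true :=
  ⟨(l 5), by decide +kernel⟩

theorem c_mm_102_a : CertB 536870912 536870912 0 536870912 1020054732 13421774 3 eng mog cd3q1 cd2q2a pd0 false false false .npp 1 0 2
    ndB3q1 ndB2q2a pcB0 Cut.none Ext.none :=
  certB0 (fam := false) (s1 := false) (s2 := false) (a := 1) (b := 0) (c := 2) (cn := .npp) (n1 := ndB3q1) (n2 := ndB2q2a) (pc := pcB0) (cut := Cut.none) (xt := Ext.none) (P1 := 536870912) (W1 := 536870912) (P2 := 0) (W2 := 536870912) (P3 := 1020054732) (W3 := 13421774) (N0 := 3) (En := eng) (mo := mog) (C1 := cd3q1) (C2 := cd2q2a) (C3 := pd0)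
    rfl k0_mm_102_a

noncomputable def f_mm_102_b : ℕ → ℕ → ℕ → ℕ → Bool := onCell 536870912 536870912 1239849684 370763052 1020054732 13421774
    (rowB 3 eng mog cd3q1 cd2q2b pd0 0 false false false .npp 1 0 2 (qsf 536870912 536870912 1239849684 370763052 0) ndB3q1 ndB2q2b pcB0 Cut.none Ext.none)

def k0_mm_102_b : ∃ t, chk3 f_mm_102_b t 1 1 1 = true :=
  ⟨(l 5), by decide +kernel⟩

theorem c_mm_102_b : CertB 536870912 536870912 1239849684 370763052 1020054732 13421774 3 eng mog cd3q1 cd2q2b pd0 false false false .npp 1 0 2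
    ndB3q1 ndB2q2b pcB0 Cut.none Ext.none :=
  certB0 (fam := false) (s1 := false) (s2 := false) (a := 1) (b := 0) (c := 2) (cn := .npp) (n1 := ndB3q1) (n2 := ndB2q2b) (pc := pcB0) (cut := Cut.none) (xt := Ext.none) (P1 := 536870912) (W1 := 536870912) (P2 := 1239849684) (W2 := 370763052) (P3 := 1020054732) (W3 := 13421774) (N0 := 3) (En := eng) (mo := mog) (C1 := cd3q1) (C2 := cd2q2b) (C3 := pd0)
    rfl k0_mm_102_b

noncomputable def f_mm_112_a : ℕ → ℕ → ℕ → ℕ → Bool := onCell 536870912 536870912 0 536870912 1020054732 13421774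
    (rowB 3 eng mog cd3q1 cd2q2a pd1 0 false false false .dn 1 1 2 (qsf 536870912 536870912 0 536870912 1) ndB3q1 ndB2q2a pcB1 Cut.none Ext.none)

def k0_mm_112_a : ∃ t, chk3 f_mm_112_a t 1 1 1 = true :=
  ⟨(l 5), by decide +kernel⟩

theorem c_mm_112_a : CertB 536870912 536870912 0 536870912 1020054732 13421774 3 eng mog cd3q1 cd2q2a pd1 false false false .dn 1 1 2
    ndB3q1 ndB2q2a pcB1 Cut.none Ext.none :=
  certB0 (fam := false) (s1 := false) (s2 := false) (a := 1) (b := 1) (c := 2) (cn := .dn) (n1 := ndB3q1) (n2 := ndB2q2a) (pc := pcB1) (cut := Cut.none) (xt := Ext.none) (P1 := 536870912) (W1 := 536870912) (P2 := 0) (W2 := 536870912) (P3 := 1020054732) (W3 := 13421774) (N0 := 3) (En := eng) (mo := mog) (C1 := cd3q1) (C2 := cd2q2a) (C3 := pd1)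
    rfl k0_mm_112_a

noncomputable def f_mm_112_b : ℕ → ℕ → ℕ → ℕ → Bool := onCell 536870912 536870912 1239849684 370763052 1020054732 13421774
    (rowB 3 eng mog cd3q1 cd2q2b pd1 0 false false false .dn 1 1 2 (qsf 536870912 536870912 1239849684 370763052 1) ndB3q1 ndB2q2b pcB1 Cut.none Ext.none)

def k0_mm_112_b : ∃ t, chk3 f_mm_112_b t 1 1 1 = true :=
  ⟨(l 5), by decide +kernel⟩

theorem c_mm_112_b : CertB 536870912 536870912 1239849684 370763052 1020054732 13421774 3 eng mog cd3q1 cd2q2b pd1 false false false .dn 1 1 2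
    ndB3q1 ndB2q2b pcB1 Cut.none Ext.none :=
  certB0 (fam := false) (s1 := false) (s2 := false) (a := 1) (b := 1) (c := 2) (cn := .dn) (n1 := ndB3q1) (n2 := ndB2q2b) (pc := pcB1) (cut := Cut.none) (xt := Ext.none) (P1 := 536870912) (W1 := 536870912) (P2 := 1239849684) (W2 := 370763052) (P3 := 1020054732) (W3 := 13421774) (N0 := 3) (En := eng) (mo := mog) (C1 := cd3q1) (C2 := cd2q2b) (C3 := pd1)
    rfl k0_mm_112_b

noncomputable def f_mm_113 : ℕ → ℕ → ℕ → ℕ → Bool := onCell 536870912 536870912 1610612736 536870912 1020054732 13421774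
    (rowB 3 eng mog cd3q1 cd2q3 pd1 0 false false false .nn 1 1 3 (qsf 536870912 536870912 1610612736 536870912 1) ndB3q1 ndB2q3 pcB1 Cut.none Ext.none)

def k0_mm_113 : ∃ t, chk3 f_mm_113 t 1 1 1 = true :=
  ⟨(l 5), by decide +kernel⟩

theorem c_mm_113 : CertB 536870912 536870912 1610612736 536870912 1020054732 13421774 3 eng mog cd3q1 cd2q3 pd1 false false false .nn 1 1 3
    ndB3q1 ndB2q3 pcB1 Cut.none Ext.none :=
  certB0 (fam := false) (s1 := false) (s2 := false) (a := 1) (b := 1) (c := 3) (cn := .nn) (n1 := ndB3q1) (n2 := ndB2q3) (pc := pcB1) (cut := Cut.none) (xt := Ext.none) (P1 := 536870912) (W1 := 536870912) (P2 := 1610612736) (W2 := 536870912) (P3 := 1020054732) (W3 := 13421774) (N0 := 3) (En := eng) (mo := mog) (C1 := cd3q1) (C2 := cd2q3) (C3 := pd1)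
    rfl k0_mm_113

noncomputable def f_mm_123 : ℕ → ℕ → ℕ → ℕ → Bool := onCell 536870912 536870912 1610612736 536870912 1020054732 13421774
    (rowB 3 eng mog cd3q1 cd2q3 pd2 0 false false false .npn 1 2 3 (qsf 536870912 536870912 1610612736 536870912 2) ndB3q1 ndB2q3 pcB2 Cut.none Ext.none)

def k0_mm_123 : ∃ t, chk3 f_mm_123 t 1 1 1 = true :=
  ⟨(l 5), by decide +kernel⟩

theorem c_mm_123 : CertB 536870912 536870912 1610612736 536870912 1020054732 13421774 3 eng mog cd3q1 cd2q3 pd2 false false false .npn 1 2 3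
    ndB3q1 ndB2q3 pcB2 Cut.none Ext.none :=
  certB0 (fam := false) (s1 := false) (s2 := false) (a := 1) (b := 2) (c := 3) (cn := .npn) (n1 := ndB3q1) (n2 := ndB2q3) (pc := pcB2) (cut := Cut.none) (xt := Ext.none) (P1 := 536870912) (W1 := 536870912) (P2 := 1610612736) (W2 := 536870912) (P3 := 1020054732) (W3 := 13421774) (N0 := 3) (En := eng) (mo := mog) (C1 := cd3q1) (C2 := cd2q3) (C3 := pd2)
    rfl k0_mm_123

noncomputable def f_mm_133 : ℕ → ℕ → ℕ → ℕ → Bool := onCell 536870912 536870912 1610612736 536870912 1020054732 13421774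
    (rowB 3 eng mog cd3q1 cd2q3 pd3 0 false false false .dn 1 3 3 (qsf 536870912 536870912 1610612736 536870912 3) ndB3q1 ndB2q3 pcB3 Cut.none Ext.none)

def k0_mm_133 : ∃ t, chk3 f_mm_133 t 1 1 1 = true :=
  ⟨(l 5), by decide +kernel⟩

theorem c_mm_133 : CertB 536870912 536870912 1610612736 536870912 1020054732 13421774 3 eng mog cd3q1 cd2q3 pd3 false false false .dn 1 3 3
    ndB3q1 ndB2q3 pcB3 Cut.none Ext.none :=
  certB0 (fam := false) (s1 := false) (s2 := false) (a := 1) (b := 3) (c := 3) (cn := .dn) (n1 := ndB3q1) (n2 := ndB2q3) (pc := pcB3) (cut := Cut.none) (xt := Ext.none) (P1 := 536870912) (W1 := 536870912) (P2 := 1610612736) (W2 := 536870912) (P3 := 1020054732) (W3 := 13421774) (N0 := 3) (En := eng) (mo := mog) (C1 := cd3q1) (C2 := cd2q3) (C3 := pd3)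
    rfl k0_mm_133

noncomputable def f_mm_202_a : ℕ → ℕ → ℕ → ℕ → Bool := onCell 1073741824 536870912 0 536870912 1020054732 13421774
    (rowB 3 eng mog cd3q2 cd2q2a pd0 0 false false false .pp 2 0 2 (qsf 1073741824 536870912 0 536870912 0) ndB3q2 ndB2q2a pcB0 Cut.none Ext.none)

def k0_mm_202_a : ∃ t, chk3 f_mm_202_a t 1 1 1 = true :=
  ⟨(l 3), by decide +kernel⟩

theorem c_mm_202_a : CertB 1073741824 536870912 0 536870912 1020054732 13421774 3 eng mog cd3q2 cd2q2a pd0 false false false .pp 2 0 2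
    ndB3q2 ndB2q2a pcB0 Cut.none Ext.none :=
  certB0 (fam := false) (s1 := false) (s2 := false) (a := 2) (b := 0) (c := 2) (cn := .pp) (n1 := ndB3q2) (n2 := ndB2q2a) (pc := pcB0) (cut := Cut.none) (xt := Ext.none) (P1 := 1073741824) (W1 := 536870912) (P2 := 0) (W2 := 536870912) (P3 := 1020054732) (W3 := 13421774) (N0 := 3) (En := eng) (mo := mog) (C1 := cd3q2) (C2 := cd2q2a) (C3 := pd0)
    rfl k0_mm_202_a

noncomputable def f_mm_202_b : ℕ → ℕ → ℕ → ℕ → Bool := onCell 1073741824 536870912 1239849684 370763052 1020054732 13421774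
    (rowB 3 eng mog cd3q2 cd2q2b pd0 0 false false false .pp 2 0 2 (qsf 1073741824 536870912 1239849684 370763052 0) ndB3q2 ndB2q2b pcB0 Cut.none Ext.none)

def k0_mm_202_b : ∃ t, chk3 f_mm_202_b t 1 1 1 = true :=
  ⟨(l 3), by decide +kernel⟩

theorem c_mm_202_b : CertB 1073741824 536870912 1239849684 370763052 1020054732 13421774 3 eng mog cd3q2 cd2q2b pd0 false false false .pp 2 0 2
    ndB3q2 ndB2q2b pcB0 Cut.none Ext.none :=
  certB0 (fam := false) (s1 := false) (s2 := false) (a := 2) (b := 0) (c := 2) (cn := .pp) (n1 := ndB3q2) (n2 := ndB2q2b) (pc := pcB0) (cut := Cut.none) (xt := Ext.none) (P1 := 1073741824) (W1 := 536870912) (P2 := 1239849684) (W2 := 370763052) (P3 := 1020054732) (W3 := 13421774) (N0 := 3) (En := eng) (mo := mog) (C1 := cd3q2) (C2 := cd2q2b) (C3 := pd0)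
    rfl k0_mm_202_b

noncomputable def f_mm_203 : ℕ → ℕ → ℕ → ℕ → Bool := onCell 1073741824 536870912 1610612736 536870912 1020054732 13421774
    (rowB 3 eng mog cd3q2 cd2q3 pd0 0 false false false .up 2 0 3 (qsf 1073741824 536870912 1610612736 536870912 0) ndB3q2 ndB2q3 pcB0 Cut.none Ext.none)

def k0_mm_203 : ∃ t, chk3 f_mm_203 t 1 1 1 = true :=
  ⟨(l 5), by decide +kernel⟩

theorem c_mm_203 : CertB 1073741824 536870912 1610612736 536870912 1020054732 13421774 3 eng mog cd3q2 cd2q3 pd0 false false false .up 2 0 3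
    ndB3q2 ndB2q3 pcB0 Cut.none Ext.none :=
  certB0 (fam := false) (s1 := false) (s2 := false) (a := 2) (b := 0) (c := 3) (cn := .up) (n1 := ndB3q2) (n2 := ndB2q3) (pc := pcB0) (cut := Cut.none) (xt := Ext.none) (P1 := 1073741824) (W1 := 536870912) (P2 := 1610612736) (W2 := 536870912) (P3 := 1020054732) (W3 := 13421774) (N0 := 3) (En := eng) (mo := mog) (C1 := cd3q2) (C2 := cd2q3) (C3 := pd0)
    rfl k0_mm_203

noncomputable def f_mm_213 : ℕ → ℕ → ℕ → ℕ → Bool := onCell 1073741824 536870912 1610612736 536870912 1020054732 13421774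
    (rowB 3 eng mog cd3q2 cd2q3 pd1 0 false false false .pnn 2 1 3 (qsf 1073741824 536870912 1610612736 536870912 1) ndB3q2 ndB2q3 pcB1 Cut.none Ext.none)

def k0_mm_213 : ∃ t, chk3 f_mm_213 t 1 1 1 = true :=
  ⟨(l 5), by decide +kernel⟩

theorem c_mm_213 : CertB 1073741824 536870912 1610612736 536870912 1020054732 13421774 3 eng mog cd3q2 cd2q3 pd1 false false false .pnn 2 1 3
    ndB3q2 ndB2q3 pcB1 Cut.none Ext.none :=
  certB0 (fam := false) (s1 := false) (s2 := false) (a := 2) (b := 1) (c := 3) (cn := .pnn) (n1 := ndB3q2) (n2 := ndB2q3) (pc := pcB1) (cut := Cut.none) (xt := Ext.none) (P1 := 1073741824) (W1 := 536870912) (P2 := 1610612736) (W2 := 536870912) (P3 := 1020054732) (W3 := 13421774) (N0 := 3) (En := eng) (mo := mog) (C1 := cd3q2) (C2 := cd2q3) (C3 := pd1)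
    rfl k0_mm_213

noncomputable def f_mm_303 : ℕ → ℕ → ℕ → ℕ → Bool := onCell 0 1230186008 1610612736 536870912 1020054732 13421774
    (rowB 3 eng mog cd3q3 cd2q3 pd0 0 false false false .npn 3 0 3 (qsf 0 1230186008 1610612736 536870912 0) ndB3q3 ndB2q3 pcB0 Cut.none Ext.none)

def k0_mm_303 : ∃ t, chk3 f_mm_303 t 1 1 1 = true :=
  ⟨(a (l 3) (l 3)), by decide +kernel⟩

theorem c_mm_303 : CertB 0 1230186008 1610612736 536870912 1020054732 13421774 3 eng mog cd3q3 cd2q3 pd0 false false false .npn 3 0 3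
    ndB3q3 ndB2q3 pcB0 Cut.none Ext.none :=
  certB0 (fam := false) (s1 := false) (s2 := false) (a := 3) (b := 0) (c := 3) (cn := .npn) (n1 := ndB3q3) (n2 := ndB2q3) (pc := pcB0) (cut := Cut.none) (xt := Ext.none) (P1 := 0) (W1 := 1230186008) (P2 := 1610612736) (W2 := 536870912) (P3 := 1020054732) (W3 := 13421774) (N0 := 3) (En := eng) (mo := mog) (C1 := cd3q3) (C2 := cd2q3) (C3 := pd0)
    rfl k0_mm_303

noncomputable def f_mm_313 : ℕ → ℕ → ℕ → ℕ → Bool := onCell 0 1230186008 1610612736 536870912 1020054732 13421774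
    (rowB 3 eng mog cd3q3 cd2q3 pd1 0 false false false .dn 3 1 3 (qsf 0 1230186008 1610612736 536870912 1) ndB3q3 ndB2q3 pcB1 Cut.none Ext.none)

def k0_mm_313 : ∃ t, chk3 f_mm_313 t 1 1 1 = true :=
  ⟨(a (l 1) (l 3)), by decide +kernel⟩

theorem c_mm_313 : CertB 0 1230186008 1610612736 536870912 1020054732 13421774 3 eng mog cd3q3 cd2q3 pd1 false false false .dn 3 1 3
    ndB3q3 ndB2q3 pcB1 Cut.none Ext.none :=
  certB0 (fam := false) (s1 := false) (s2 := false) (a := 3) (b := 1) (c := 3) (cn := .dn) (n1 := ndB3q3) (n2 := ndB2q3) (pc := pcB1) (cut := Cut.none) (xt := Ext.none) (P1 := 0) (W1 := 1230186008) (P2 := 1610612736) (W2 := 536870912) (P3 := 1020054732) (W3 := 13421774) (N0 := 3) (En := eng) (mo := mog) (C1 := cd3q3) (C2 := cd2q3) (C3 := pd1)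
    rfl k0_mm_313

end Pool.Agent.Strip051.G.I9500_9625.Tab.C.BB32

namespace Pool.Agent.Strip051.G.I9500_9625.Tab.C.BB33

open Pool.Agent.Strip051.PB Pool.Agent.Strip051.PB.T
open Pool.Agent.Strip051.G.I9500_9625.Tab

noncomputable def f_pp_001 : ℕ → ℕ → ℕ → ℕ → Bool := onCell 0 536870912 0 536870912 1020054732 13421774
    (rowB 3 eng mog cd3q0 cd3q1 pd0 1 false true true .up 0 0 1 (qsf 0 536870912 536870912 536870912 0) ndB3q0 ndB3q1 pcB0 Cut.none Ext.none)

def k0_pp_001 : ∃ t, chk3 f_pp_001 t 1 1 1 = true :=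
  ⟨(l 3), by decide +kernel⟩

theorem c_pp_001 : CertB 0 536870912 536870912 536870912 1020054732 13421774 3 eng mog cd3q0 cd3q1 pd0 false true true .up 0 0 1
    ndB3q0 ndB3q1 pcB0 Cut.none Ext.none :=
  certB1 (fam := false) (s1 := true) (s2 := true) (a := 0) (b := 0) (c := 1) (cn := .up) (n1 := ndB3q0) (n2 := ndB3q1) (pc := pcB0) (cut := Cut.none) (xt := Ext.none) (P1 := 0) (W1 := 536870912) (P2 := 536870912) (W2 := 536870912) (P3 := 1020054732) (W3 := 13421774) (N0 := 3) (En := eng) (mo := mog) (C1 := cd3q0) (C2 := cd3q1) (C3 := pd0)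
    rfl (fun _ => rfl) k0_pp_001

noncomputable def f_pp_011 : ℕ → ℕ → ℕ → ℕ → Bool := onCell 0 536870912 536870912 536870912 1020054732 13421774
    (rowB 3 eng mog cd3q0 cd3q1 pd1 0 false true true .pnn 0 1 1 (qsf 0 536870912 536870912 536870912 1) ndB3q0 ndB3q1 pcB1 Cut.none Ext.none)

def k0_pp_011 : ∃ t, chk3 f_pp_011 t 1 1 1 = true :=
  ⟨(a (b (l 3) (l 3)) (l 3)), by decide +kernel⟩

theorem c_pp_011 : CertB 0 536870912 536870912 536870912 1020054732 13421774 3 eng mog cd3q0 cd3q1 pd1 false true true .pnn 0 1 1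
    ndB3q0 ndB3q1 pcB1 Cut.none Ext.none :=
  certB0 (fam := false) (s1 := true) (s2 := true) (a := 0) (b := 1) (c := 1) (cn := .pnn) (n1 := ndB3q0) (n2 := ndB3q1) (pc := pcB1) (cut := Cut.none) (xt := Ext.none) (P1 := 0) (W1 := 536870912) (P2 := 536870912) (W2 := 536870912) (P3 := 1020054732) (W3 := 13421774) (N0 := 3) (En := eng) (mo := mog) (C1 := cd3q0) (C2 := cd3q1) (C3 := pd1)
    rfl k0_pp_011

noncomputable def xt_pp_012 : Ext := extD3 3 ⟨4, 1, 1, 5, 99, 20, 33, 40, 51, 125, 1, 32⟩ eng cd3q0 cd3q2 pd1 false true true .pnp 0 1 2 rfl ndB3q0 ndB3q2 pcB1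

noncomputable def f_pp_012 : ℕ → ℕ → ℕ → ℕ → Bool := onCell 536870912 536870912 1073741824 536870912 1020054732 13421774
    (rowB 3 eng mog cd3q0 cd3q2 pd1 2 false true true .pnp 0 1 2 (qsf 0 536870912 1073741824 536870912 1) ndB3q0 ndB3q2 pcB1 Cut.none xt_pp_012)

def k0_pp_012 : ∃ t, chk3 f_pp_012 t 4 2 1 = true :=
  ⟨(b (a (b (l 3) (b (b (b (l 3) (l 2)) (l 2)) (l 2))) (b (b (l 3) (a (l 3) (a (l 3) (a (l 3) (b (l 3) (c (l 399059334439) (l 391543518615))))))) (b (a (a (b (b (l 3) (a (b (l 3) (l 2)) (c (b (l 14968032) (l 14962576)) (l 15106384)))) (a (l 2) (b (c (l 14957792) (l 15113712)) (l 2)))) (b (a (b (l 3) (c (c (l 14923344) (l 15002224)) (l 15101832))) (b (c (l 301348767639) (l 15127544)) (c (c (l 14922792) (l 15000632)) (l 15098648)))) (b (c (a (l 14953984) (l 14951488)) (l 15105264)) (a (l 15020104) (l 15014856))))) (b (c (a (b (a (c (l 14938528) (l 15017184)) (c (l 14941408) (l 15019224))) (a (l 14962080) (l 14963872))) (a (b (c (l 14945976)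 (l 15022784)) (l 14966888)) (c (l 390469305751) (l 386174495047)))) (a (b (a (l 15126960) (l 15117224)) (b (l 15101224) (l 15091464))) (b (a (l 15119248) (l 15122496)) (l 15118400)))) (c (a (c (l 14908624) (l 14980176)) (b (l 14973480) (l 14937600))) (a (a (l 15091144) (l 15088168)) (l 15085952))))) (a (a (l 2) (a (l 2) (b (l 15057376) (l 2)))) (a (b (a (l 15014152) (l 14987872)) (l 14970024)) (c (l 14885640) (l 15029936))))))) (a (l 2) (b (a (l 2) (b (c (l 14887936) (l 14986400)) (l 2))) (l 2)))), by decide +kernel⟩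

def k1_pp_012 : ∃ t, chk3 f_pp_012 t 5 4 1 = true :=
  ⟨(b (b (l 3) (a (b (l 3) (a (a (a (c (l 277189661271) (l 265915744519)) (c (l 284705879671) (l 273431957975))) (a (c (l 291685228839) (l 280411302647)) (c (l 298127709319) (l 286853778423)))) (c (a (b (l 547235880839) (l 15061864)) (b (l 286853565447) (l 15081640))) (a (a (l 292759385063) (l 298664992903)) (b (l 276653353687) (l 15238992)))))) (b (b (a (l 3) (l 3)) (a (a (l 3) (c (l 342688411255) (l 326582587271))) (a (c (l 355036547015) (l 339467579559)) (c (l 364700332359) (a (l 15457888) (l 15479888)))))) (a (c (a (b (l 15175176) (l 15115592)) (b (l 15215720) (l 15173856))) (a (b (l 324434933895) (l 15266776)) (b (l 15341768) (l 15297880)))) (c (a (b (l 15259544) (l 15214208)) (l 15323576)) (a (b (l 15378808) (l 15332048)) (b (l 15418568) (l 15369032)))))))) (a (a (b (c (b (a (b (a (l 14996840) (l 15005104)) (a (l 14976416) (l 14982872))) (a (l 14981296) (l 14990800))) (a (b (l 14959552) (l 14940992))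 (l 14938712))) (b (a (b (a (l 15126904) (l 15132432)) (l 15124128)) (b (l 15163696) (l 15134208))) (a (l 15086968) (l 15092352)))) (c (b (l 14895392) (l 14863088)) (b (l 15040896) (l 14997872)))) (b (c (b (a (l 15027912) (l 15052840)) (a (l 14952432) (l 14991000))) (b (a (b (l 15180992) (l 15148408)) (l 15184216)) (a (l 15101856) (l 15115256)))) (c (b (l 14928920) (l 14860672)) (b (l 15047160) (l 14991280))))) (a (b (c (b (a (l 15081400) (l 15113336)) (l 15024160)) (b (a (l 15207464) (l 15234104)) (l 15142200))) (c (a (l 14918472) (l 14932064)) (b (l 15068728) (l 15000104)))) (b (c (b (a (l 15148408) (l 15186360)) (l 15079872)) (b (a (l 15263896) (l 15296600)) (l 15189752))) (c (l 14958584) (l 15042144)))))), by decide +kernel⟩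

def k2_pp_012 : ∃ t, chk3 f_pp_012 t 5 5 1 = true :=
  ⟨(a (b (a (b (c (l 14846448) (l 14943440)) (l 111765461927)) (b (c (l 14821360) (l 14917328)) (l 14610400))) (a (l 2) (b (l 14752008) (l 2)))) (b (a (b (c (l 14811288) (l 14906736)) (l 14760176)) (b (c (l 14814952) (l 14910464)) (l 14735480))) (a (b (l 14683960) (l 14630848)) (c (l 14554480) (l 14618528))))), by decide +kernel⟩

def k3_pp_012 : ∃ t, chk3 f_pp_012 t 2 3 1 = true :=
  ⟨(a (l 2) (b (a (l 2) (b (a (l 2) (b (l 14487288) (l 2))) (l 2))) (l 2))), by decide +kernel⟩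

def k4_pp_012 : ∃ t, chk3 f_pp_012 t 6 4 1 = true :=
  ⟨(b (b (b (l 3) (b (a (l 3) (a (l 3) (a (l 3) (a (l 3) (l 537573539479))))) (a (a (l 3) (a (l 3) (c (l 560122054423) (l 353426560903)))) (a (a (c (l 373827612215) (l 363627211255)) (c (l 379196439447) (l 298666092647))) (a (c (l 15861632) (l 15911136)) (c (l 15937096) (l 15975072))))))) (a (a (c (b (a (b (l 295981088807) (l 15408168)) (b (l 302423655079) (l 15462464))) (a (l 15329008) (l 15378600))) (b (c (a (l 322824750519) (l 315845544327)) (a (b (l 15591896) (l 15540712)) (b (l 15640032) (l 15585712)))) (a (b (l 15460792) (l 15408576)) (l 15477800)))) (b (a (c (a (l 309403046247) (l 303497530631)) (b (c (l 15644368) (l 15689440)) (l 15609296))) (c (a (l 297055144407) (l 15642904)) (b (a (l 15706040) (l 15732288)) (l 15659392)))) (a (c (l 15430152) (l 15522968)) (c (l 15483416) (l 15569912))))) (a (c (b (a (b (l 15698864) (l 15634544)) (b (l 15759904) (l 15694000))) (a (l 15538160) (l 15594160)))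 (b (a (b (l 15708888) (l 15710680)) (b (l 15824792) (l 15762936))) (a (l 15618408) (l 15668248)))) (b (a (c (l 15641104) (b (l 15877792) (l 15815952))) (c (l 15848872) (l 15901056))) (a (c (l 15651232) (l 15719264)) (l 15572264)))))) (a (b (a (c (b (a (l 15226960) (l 15269976)) (l 15147080)) (b (a (l 15332008) (l 15369880)) (l 15249064))) (a (c (l 15259240) (l 15312976)) (b (l 15218184) (l 15290728)))) (a (c (l 15004344) (l 15104680)) (b (l 14951904) (l 15056480)))) (a (b (c (b (l 15436272) (l 15309432)) (b (l 15518800) (l 15396688))) (c (l 15126448) (l 15219864))) (b (c (b (l 15539888) (l 15401440)) (b (l 15612920) (l 15481936))) (c (l 15200104) (l 15290896)))))), by decide +kernel⟩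

def k5_pp_012 : ∃ t, chk3 f_pp_012 t 6 5 1 = true :=
  ⟨(a (b (a (b (c (l 14831224) (l 14927424)) (l 14724248)) (b (c (l 14859040) (l 14956600)) (l 14725784))) (a (b (l 14590696) (l 14479400)) (b (l 14564624) (l 14425000)))) (b (a (b (c (l 14897416) (l 14997080)) (l 14739512)) (b (c (l 14945384) (l 15047984)) (l 14764968))) (a (b (l 14551944) (l 14387592)) (b (l 14552656) (l 14370688))))), by decide +kernel⟩

def k6_pp_012 : ∃ t, chk3 f_pp_012 t 14 4 1 = true :=
  ⟨(b (b (a (b (l 3) (a (b (c (l 544016355607) (l 487107877383)) (c (l 15976832) (l 15987240))) (b (a (l 15964648) (l 15963544)) (l 15989272)))) (b (a (l 3) (l 3)) (a (b (l 476370910743) (l 16061664)) (a (l 16098104) (l 16149472))))) (a (c (b (a (l 15910128) (l 15972232)) (l 15608768)) (b (a (l 15955280) (l 16010744)) (l 15704136))) (a (b (l 16010224) (l 15908936)) (b (l 16114856) (l 15964704))))) (a (b (c (b (l 15647400) (l 15498168)) (b (l 15711544) (l 15572632))) (c (l 15279992) (l 15369088)))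 (b (a (b (l 15757680) (l 15607232)) (b (l 15809392) (l 15655320))) (a (l 15386568) (l 15429232))))), by decide +kernel⟩

def k7_pp_012 : ∃ t, chk3 f_pp_012 t 15 4 1 = true :=
  ⟨(b (a (b (b (b (l 3) (a (a (l 16161624) (l 583262550727835633035327)) (a (l 586537137477084550244415) (l 584092367576717957064767)))) (a (l 579581272444989781863999) (b (a (l 584426426270141382305855) (l 584455249930286395959359)) (a (l 16322104) (l 582756996215419548330047))))) (b (a (l 16175736) (l 16187608)) (l 134947905297596479))) (b (b (b (l 3) (a (a (b (l 3) (l 586315777442171854581503)) (b (a (l 581822265447439217798783) (l 11173469681862862000503565951)) (a (l 16460568) (l 140118222167359615)))) (a (b (l 16555192) (a (l 139863272944582783) (l 16516624))) (a (l 16569360) (l 16511680))))) (a (a (b (l 580333554868863823195903) (l 580339031741478040825599)) (b (b (l 582871424329854721289855) (l 140763772816277631)) (l 578165198055563263536767))) (b (a (a (b (l 140261227343921279)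 (l 16413656)) (b (l 139827951073099903) (l 140225836752535679))) (a (b (l 16487648) (l 139810290108334207)) (l 16486856))) (a (l 138778673190568063) (a (b (l 140209069141131391) (l 16355184)) (b (a (l 16398192) (l 16411912)) (a (l 16356800) (l 16361688)))))))) (a (b (a (b (a (l 16299800) (l 16309832)) (l 16223976)) (b (a (l 16316816) (l 16318976)) (l 16221864))) (a (l 16102552) (l 16122800))) (b (a (b (l 139518232089690239) (l 139488682596532351)) (b (a (l 16291312) (b (l 16327360) (l 16299608))) (a (l 16258496) (l 16257552)))) (a (b (l 16182872) (l 16103600)) (b (a (l 16198152) (l 16203448)) (l 16126480))))))) (a (b (a (l 134274866205392959) (l 134842695337820223)) (a (l 15472384) (l 15410520))) (b (a (l 133698378700505215) (b (l 15995320) (l 15836432))) (a (b (l 15634952) (l 15479992)) (b (l 15679096) (l 15523744)))))), by decide +kernel⟩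

def k8_pp_012 : ∃ t, chk3 f_pp_012 t 7 5 1 = true :=
  ⟨(a (b (a (b (c (l 15001800) (l 15108496)) (l 14801752)) (b (c (l 15065400) (l 15177768)) (l 14849680))) (a (b (l 14567200) (l 14378048)) (b (c (l 14525104) (l 14677664)) (l 14415152)))) (b (a (b (a (l 15175392) (l 15213576)) (c (l 14836136) (l 14982992))) (b (a (l 15252936) (l 15253536)) (a (l 14960968) (l 14940096)))) (a (b (c (l 14572872) (l 14744208)) (l 14482032)) (b (a (l 14717224) (l 14771368)) (l 14368448))))), by decide +kernel⟩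

def k9_pp_012 : ∃ t, chk3 f_pp_012 t 3 3 1 = true :=
  ⟨(a (b (a (b (a (b (l 14391552) (l 14327392)) (b (l 14316160) (l 14237648))) (a (l 2) (l 14144776))) (b (a (c (l 14148184) (l 14286888)) (b (l 14240752) (l 14138760))) (a (l 14082192) (l 14027968)))) (a (l 2) (b (a (l 2) (l 13961152)) (l 2)))) (a (b (b (a (b (l 14243840) (l 14131784)) (b (l 14275304) (l 14154640))) (a (l 14004296) (l 14012424))) (b (a (l 13913016) (l 13899128)) (a (l 2) (l 13878672)))) (b (b (a (b (l 14336256) (l 14208448)) (b (l 14427912) (l 14294408))) (a (l 14032664) (b (l 14179288) (l 14083968)))) (b (a (l 13921160) (l 13980984)) (a (l 13879592) (l 13922664)))))), by decide +kernel⟩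

theorem s10_pp_012 : ∃ t, chk3 f_pp_012 t 7 4 1 = true := ex3_a k6_pp_012 k7_pp_012

theorem s11_pp_012 : ∃ t, chk3 f_pp_012 t 7 2 1 = true := ex3_b s10_pp_012 k8_pp_012

theorem s12_pp_012 : ∃ t, chk3 f_pp_012 t 6 2 1 = true := ex3_b k4_pp_012 k5_pp_012

theorem s13_pp_012 : ∃ t, chk3 f_pp_012 t 3 2 1 = true := ex3_a s12_pp_012 s11_pp_012

theorem s14_pp_012 : ∃ t, chk3 f_pp_012 t 3 1 1 = true := ex3_b s13_pp_012 k9_pp_012

theorem s15_pp_012 : ∃ t, chk3 f_pp_012 t 5 2 1 = true := ex3_b k1_pp_012 k2_pp_012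

theorem s16_pp_012 : ∃ t, chk3 f_pp_012 t 2 2 1 = true := ex3_a k0_pp_012 s15_pp_012

theorem s17_pp_012 : ∃ t, chk3 f_pp_012 t 2 1 1 = true := ex3_b s16_pp_012 k3_pp_012

theorem s18_pp_012 : ∃ t, chk3 f_pp_012 t 1 1 1 = true := ex3_a s17_pp_012 s14_pp_012

theorem c_pp_012 : CertB 0 536870912 1073741824 536870912 1020054732 13421774 3 eng mog cd3q0 cd3q2 pd1 false true true .pnp 0 1 2
    ndB3q0 ndB3q2 pcB1 Cut.none xt_pp_012 :=
  certB2 (fam := false) (s1 := true) (s2 := true) (a := 0) (b := 1) (c := 2) (cn := .pnp) (n1 := ndB3q0) (n2 := ndB3q2) (pc := pcB1) (cut := Cut.none) (xt := xt_pp_012) (P1 := 0) (W1 := 536870912) (P2 := 1073741824) (W2 := 536870912) (P3 := 1020054732) (W3 := 13421774) (N0 := 3) (En := eng) (mo := mog) (C1 := cd3q0) (C2 := cd3q2) (C3 := pd1)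
    rfl (fun _ => rfl) s18_pp_012

noncomputable def f_pp_022 : ℕ → ℕ → ℕ → ℕ → Bool := onCell 0 536870912 1073741824 536870912 1020054732 13421774
    (rowB 3 eng mog cd3q0 cd3q2 pd2 1 false true true .pp 0 2 2 (qsf 0 536870912 1073741824 536870912 2) ndB3q0 ndB3q2 pcB2 Cut.none Ext.none)

def k0_pp_022 : ∃ t, chk3 f_pp_022 t 4 4 1 = true :=
  ⟨(a (b (a (a (b (b (b (a (b (a (l 3) (l 437180405159)) (a (b (l 16743264) (l 555292103175)) (c (l 16649344) (a (l 16676688) (l 16647648))))) (a (b (l 16595568) (l 16593928)) (l 16588608))) (a (a (b (c (l 16700648) (a (b (l 16730456) (l 16752912)) (l 16702696))) (a (l 16745912) (l 16712704))) (a (b (b (l 16694160) (l 16689448)) (l 16685488)) (b (l 16665360) (l 16661840)))) (l 16584560))) (a (b (a (b (l 16677824) (l 16712880)) (l 16667680)) (l 16639720)) (b (l 16597312) (l 16587208)))) (b (a (a (l 16645896) (l 16640488)) (l 16485328)) (a (l 16530912) (l 16478088)))) (a (b (b (b (l 16519640) (l 16512192)) (l 16434848))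 (b (l 16452824) (l 16445904))) (b (b (a (l 16446296) (b (l 16404424) (l 16395232))) (a (l 16426400) (l 16379208))) (a (b (l 16402008) (l 16374440)) (c (l 16328016) (l 16354616)))))) (a (b (a (b (a (l 16371464) (l 16350504)) (l 16273872)) (b (l 16318904) (l 16292432))) (a (b (l 16310768) (l 16282768)) (c (l 16227104) (l 16271744)))) (b (a (b (l 16276024) (l 16246456)) (l 16161200)) (a (l 16201376) (l 16142848))))) (a (a (b (b (c (l 16477960) (l 16529784)) (a (l 16504192) (l 16432904))) (b (a (l 16465880) (l 16396616)) (l 16193192))) (a (b (b (l 16415200) (l 16382456)) (l 16079048)) (b (a (l 16266096) (l 16177920)) (a (l 16201032) (l 16115104))))) (a (b (a (c (l 16202776) (l 16274128)) (l 16000152)) (a (c (l 16123656) (l 16229128)) (l 16125184))) (b (a (l 16139544) (l 16081152)) (l 15835880))))) (b (b (a (a (l 16093632) (l 15947808)) (a (l 15803152) (l 15660120))) (a (a (l 16035240) (l 15892360)) (l 15681176))) (a (b (l 15779768) (l 15824152)) (b (l 15629888)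 (l 15576528))))), by decide +kernel⟩

def k1_pp_022 : ∃ t, chk3 f_pp_022 t 4 5 1 = true :=
  ⟨(a (b (a (a (b (b (l 16153144) (b (l 16248368) (b (l 16295672) (c (l 16219408) (l 16393672))))) (c (l 16208720) (l 16337064))) (b (a (b (l 16235408) (b (l 16250360) (c (b (l 16168888) (l 16159296)) (l 16302352)))) (b (l 16002680) (b (l 16082728) (b (l 16112168) (a (l 16021416) (l 16125248)))))) (a (c (l 16108840) (l 16266680)) (l 15874384)))) (a (a (b (b (l 16127344) (l 16092664)) (l 16038784)) (l 15770688)) (b (l 15852088) (l 15822192)))) (c (a (a (a (b (l 16155760) (l 16040056)) (l 15864128)) (a (l 15932256) (l 15831352))) (a (l 15592552) (l 15697648))) (a (a (a (l 16105120) (l 16053480)) (a (l 16092072) (l 15954760))) (a (l 15776624) (l 15881528))))) (b (a (b (l 15781456) (l 15713888)) (b (l 15520224) (l 15460328))) (a (b (l 15641920) (l 15565232)) (l 15278224)))), by decide +kernel⟩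

def k2_pp_022 : ∃ t, chk3 f_pp_022 t 5 2 1 = true :=
  ⟨(b (b (a (a (b (l 15449608) (l 15407104)) (b (l 15177960) (l 15144272))) (a (b (l 14919096) (l 14894968)) (l 14668016))) (a (a (b (l 15363928) (l 15318896)) (l 15092336)) (a (l 14857904) (l 14639912)))) (a (b (a (l 15245624) (l 15015544)) (a (l 15135640) (l 14925632))) (b (a (l 14801744) (l 14605640)) (l 14560712)))), by decide +kernel⟩

def k3_pp_022 : ∃ t, chk3 f_pp_022 t 2 3 1 = true :=
  ⟨(a (b (a (a (a (b (b (c (l 15778328) (l 16013088)) (c (l 15754792) (l 15997992))) (c (b (l 15728504) (l 15614896)) (b (l 15954200) (l 15840048)))) (a (b (c (l 15780136) (l 15992792)) (b (l 15712672) (l 15625264))) (b (b (l 15731072) (l 15679056)) (b (l 15642544) (l 15559040))))) (a (b (c (l 15555592) (l 15676080)) (b (l 15513496) (l 15474176))) (b (c (l 15515504) (l 15716512)) (l 15190920)))) (b (a (c (l 15341864) (l 15540288)) (l 15216440)) (a (l 15111832) (l 15054256)))) (a (a (a (b (b (c (l 15498360) (l 15719112))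 (l 15254496)) (b (l 15212552) (l 15210744))) (b (a (b (l 15512288) (l 15395520)) (b (l 15450128) (l 15337600))) (a (l 15088816) (l 15016656)))) (b (a (b (l 15367776) (l 15258056)) (l 15169584)) (a (b (l 15146088) (l 15033192)) (l 14992080)))) (b (a (l 15062392) (l 14879856)) (a (l 14858992) (l 2))))) (b (a (b (a (l 15009616) (l 14820968)) (a (l 14868840) (l 14703176))) (b (l 14574344) (l 14493040))) (b (a (l 14645176) (l 2)) (l 2)))), by decide +kernel⟩

def k4_pp_022 : ∃ t, chk3 f_pp_022 t 3 1 1 = true :=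
  ⟨(b (b (a (a (b (a (l 14446080) (l 14242648)) (a (l 14439840) (l 14258984))) (b (a (l 14059040) (l 13896392)) (l 14026320))) (b (a (l 13694112) (l 13505080)) (a (l 13791912) (l 13649336)))) (a (a (b (l 14347504) (l 14337728)) (b (l 14074872) (l 14114976))) (b (a (l 13889864) (l 2)) (l 2)))) (b (a (b (a (l 14316792) (l 2)) (l 2)) (l 2)) (l 2))), by decide +kernel⟩

theorem s5_pp_022 : ∃ t, chk3 f_pp_022 t 4 2 1 = true := ex3_b k0_pp_022 k1_pp_022

theorem s6_pp_022 : ∃ t, chk3 f_pp_022 t 2 2 1 = true := ex3_a s5_pp_022 k2_pp_022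

theorem s7_pp_022 : ∃ t, chk3 f_pp_022 t 2 1 1 = true := ex3_b s6_pp_022 k3_pp_022

theorem s8_pp_022 : ∃ t, chk3 f_pp_022 t 1 1 1 = true := ex3_a s7_pp_022 k4_pp_022

theorem c_pp_022 : CertB 0 536870912 1073741824 536870912 1020054732 13421774 3 eng mog cd3q0 cd3q2 pd2 false true true .pp 0 2 2
    ndB3q0 ndB3q2 pcB2 Cut.none Ext.none :=
  certB1 (fam := false) (s1 := true) (s2 := true) (a := 0) (b := 2) (c := 2) (cn := .pp) (n1 := ndB3q0) (n2 := ndB3q2) (pc := pcB2) (cut := Cut.none) (xt := Ext.none) (P1 := 0) (W1 := 536870912) (P2 := 1073741824) (W2 := 536870912) (P3 := 1020054732) (W3 := 13421774) (N0 := 3) (En := eng) (mo := mog) (C1 := cd3q0) (C2 := cd3q2) (C3 := pd2)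
    rfl (fun _ => rfl) s8_pp_022

noncomputable def f_pp_023 : ℕ → ℕ → ℕ → ℕ → Bool := onCell 0 536870912 0 1230186008 1020054732 13421774
    (rowB 3 eng mog cd3q0 cd3q3 pd2 0 false true true .up 0 2 3 (qsf 0 536870912 0 1230186008 2) ndB3q0 ndB3q3 pcB2 Cut.none Ext.none)

def k0_pp_023 : ∃ t, chk3 f_pp_023 t 1 1 1 = true :=
  ⟨(b (b (l 4) (a (l 2) (b (l 4) (a (l 2) (l 4))))) (b (a (b (l 2) (a (l 2) (b (l 2) (a (l 2) (l 15527808))))) (a (b (a (l 2) (b (l 16235328) (l 16496976))) (b (a (l 16139360) (l 15956072)) (a (l 15409240) (l 15237720)))) (b (a (b (l 16085952) (l 16394256)) (b (l 16085832) (l 16086776))) (b (a (l 15713184) (l 15426800)) (a (l 15026616) (l 14790480)))))) (a (b (a (l 2) (b (a (b (l 2) (l 14746912)) (b (l 14972264) (l 14694528))) (a (l 14837528) (l 14764816)))) (b (a (a (l 2) (l 501534359159)) (a (l 15060800) (l 14943184))) (a (a (a (b (l 2) (a (l 15669072) (a (l 15712048) (l 15697760)))) (a (b (l 15495688) (l 15670360)) (l 15523608)))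 (b (l 15383744) (l 15541616))) (a (l 15080504) (l 15136568))))) (b (a (b (a (b (l 14862816) (l 14621184)) (l 14627696)) (l 14372976)) (b (a (l 14495008) (l 14350552)) (l 14356712))) (a (b (a (l 14802720) (l 14636832)) (a (l 14934240) (l 14703512))) (b (a (l 14445512) (l 14231960)) (a (l 14446688) (l 14170408)))))))), by decide +kernel⟩

theorem c_pp_023 : CertB 0 536870912 0 1230186008 1020054732 13421774 3 eng mog cd3q0 cd3q3 pd2 false true true .up 0 2 3
    ndB3q0 ndB3q3 pcB2 Cut.none Ext.none :=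
  certB0 (fam := false) (s1 := true) (s2 := true) (a := 0) (b := 2) (c := 3) (cn := .up) (n1 := ndB3q0) (n2 := ndB3q3) (pc := pcB2) (cut := Cut.none) (xt := Ext.none) (P1 := 0) (W1 := 536870912) (P2 := 0) (W2 := 1230186008) (P3 := 1020054732) (W3 := 13421774) (N0 := 3) (En := eng) (mo := mog) (C1 := cd3q0) (C2 := cd3q3) (C3 := pd2)
    rfl k0_pp_023

noncomputable def f_pp_033 : ℕ → ℕ → ℕ → ℕ → Bool := onCell 0 536870912 0 1230186008 1020054732 13421774
    (rowB 3 eng mog cd3q0 cd3q3 pd3 0 false true true .pnn 0 3 3 (qsf 0 536870912 0 1230186008 3) ndB3q0 ndB3q3 pcB3 Cut.none Ext.none)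

def k0_pp_033 : ∃ t, chk3 f_pp_033 t 1 1 1 = true :=
  ⟨(b (b (l 4) (a (l 4) (b (l 4) (a (l 4) (l 4))))) (b (a (b (a (l 4) (a (l 4) (b (l 4) (l 16646840)))) (b (a (b (a (l 4) (l 15674184)) (a (a (a (l 14891768) (l 14937240)) (l 15284864)) (l 15667896))) (a (l 16205544) (l 16631040))) (a (a (a (a (l 14871960) (a (l 15021568) (l 15122880))) (a (l 15217664) (l 15309760))) (l 15654232)) (a (l 16196824) (l 16662792))))) (a (b (a (b (l 4) (l 16565432)) (b (l 16231616) (l 16275960))) (a (b (l 16573024) (l 16537512)) (b (l 16256128) (l 1)))) (b (a (b (l 16038616) (l 1)) (l 1)) (l 1)))) (a (b (a (b (a (a (a (b (l 14846432) (l 14834464)) (a (l 14989824) (l 15091520))) (a (l 15187064) (l 15280304))) (a (l 15486136) (l 15768232))) (a (a (a (l 14823608) (a (l 14970944) (l 15071168))) (a (l 15164904) (l 15256408))) (l 15476792))) (b (a (l 16178680) (l 16690136)) (a (l 16154584) (l 1)))) (a (a (a (a (b (b (l 14801552) (l 14780416)) (b (l 14754744) (l 14725704))) (b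 (a (l 14937992) (l 15037624)) (a (l 14866776) (l 14841112)))) (b (a (l 15130688) (l 15221648)) (a (l 120825615511) (l 15173960)))) (b (a (l 15425840) (l 15708296)) (c (l 15629248) (l 15414744)))) (a (b (l 16123008) (l 1)) (l 1)))) (l 1)))), by decide +kernel⟩

theorem c_pp_033 : CertB 0 536870912 0 1230186008 1020054732 13421774 3 eng mog cd3q0 cd3q3 pd3 false true true .pnn 0 3 3
    ndB3q0 ndB3q3 pcB3 Cut.none Ext.none :=
  certB0 (fam := false) (s1 := true) (s2 := true) (a := 0) (b := 3) (c := 3) (cn := .pnn) (n1 := ndB3q0) (n2 := ndB3q3) (pc := pcB3) (cut := Cut.none) (xt := Ext.none) (P1 := 0) (W1 := 536870912) (P2 := 0) (W2 := 1230186008) (P3 := 1020054732) (W3 := 13421774) (N0 := 3) (En := eng) (mo := mog) (C1 := cd3q0) (C2 := cd3q3) (C3 := pd3)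
    rfl k0_pp_033

noncomputable def f_pp_101 : ℕ → ℕ → ℕ → ℕ → Bool := onCell 536870912 536870912 536870912 536870912 1020054732 13421774
    (rowB 3 eng mog cd3q1 cd3q1 pd0 0 false true true .npn 1 0 1 (qsf 536870912 536870912 536870912 536870912 0) ndB3q1 ndB3q1 pcB0 Cut.none Ext.none)

def k0_pp_101 : ∃ t, chk3 f_pp_101 t 1 1 1 = true :=
  ⟨(l 3), by decide +kernel⟩

theorem c_pp_101 : CertB 536870912 536870912 536870912 536870912 1020054732 13421774 3 eng mog cd3q1 cd3q1 pd0 false true true .npn 1 0 1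
    ndB3q1 ndB3q1 pcB0 Cut.none Ext.none :=
  certB0 (fam := false) (s1 := true) (s2 := true) (a := 1) (b := 0) (c := 1) (cn := .npn) (n1 := ndB3q1) (n2 := ndB3q1) (pc := pcB0) (cut := Cut.none) (xt := Ext.none) (P1 := 536870912) (W1 := 536870912) (P2 := 536870912) (W2 := 536870912) (P3 := 1020054732) (W3 := 13421774) (N0 := 3) (En := eng) (mo := mog) (C1 := cd3q1) (C2 := cd3q1) (C3 := pd0)
    rfl k0_pp_101

noncomputable def f_pp_102 : ℕ → ℕ → ℕ → ℕ → Bool := onCell 536870912 536870912 0 536870912 1020054732 13421774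
    (rowB 3 eng mog cd3q1 cd3q2 pd0 1 false true true .npp 1 0 2 (qsf 536870912 536870912 1073741824 536870912 0) ndB3q1 ndB3q2 pcB0 Cut.none Ext.none)

def k0_pp_102 : ∃ t, chk3 f_pp_102 t 2 1 1 = true :=
  ⟨(b (l 3) (b (a (l 3) (l 3)) (a (b (l 3) (b (l 3) (a (l 3) (a (l 3) (a (c (l 354500060935) (l 345910618615)) (b (l 397449906999) (l 414092960119))))))) (b (b (a (l 3) (a (l 3) (c (l 454358528359) (l 457043370951)))) (a (a (l 3) (c (l 412482321351) (l 406040357255))) (c (a (l 377585883719) (l 15913184)) (a (l 372217628231) (l 16038824))))) (a (c (b (a (l 410871620695) (l 394228798727)) (a (l 409261122199) (l 15971136))) (b (a (l 406040270951) (l 389934286743)) (a (l 406577218887) (l 16158272)))) (c (b (a (l 15937504) (l 16073320)) (l 16014944)) (b (a (l 16105704) (l 16140128)) (l 15915320)))))))), by decide +kernel⟩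

def k1_pp_102 : ∃ t, chk3 f_pp_102 t 3 1 1 = true :=
  ⟨(b (b (l 3) (a (l 3) (b (l 3) (a (l 3) (b (l 3) (a (l 3) (l 347520253159))))))) (b (a (b (b (l 3) (a (l 3) (c (l 352353471367) (a (l 3) (c (l 16031632) (l 15962192)))))) (b (a (l 3) (a (a (l 239610625463) (l 182165215495)) (c (l 16097952) (l 15768912)))) (a (a (c (l 461337974759) (l 415704379783)) (c (l 16041680) (l 225115051431))) (c (a (l 16210744) (l 16036616)) (c (a (l 16059184) (l 15867392)) (l 15593048)))))) (b (a (b (a (l 3) (c (l 15826328) (l 15691792))) (c (a (l 15945720) (l 15743016)) (a (l 15722616) (l 15623168)))) (b (a (a (l 15552008) (l 15478808)) (c (l 15490552) (l 15358408))) (a (c (l 15607936) (l 15447536)) (c (l 15353600) (l 15218072))))) (a (a (c (b (l 15925864) (l 15776104)) (b (l 15719480) (l 15609888))) (b (c (l 15717008) (l 15531304)) (l 15324640))) (b (a (l 15203792) (l 15126472)) (a (l 15256960) (l 15008840)))))) (a (b (a (c (b (a (l 15961864) (l 16156024)) (l 15910896))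 (b (a (l 15963936) (l 16009448)) (a (l 16098952) (l 15931456)))) (c (b (l 15806264) (l 15892432)) (b (a (l 15810600) (l 15683208)) (l 15467648)))) (a (c (b (l 16096040) (l 16050152)) (a (l 15821840) (l 15609512))) (c (b (l 15770864) (l 15546360)) (b (l 15536176) (l 15419488))))) (b (a (b (a (l 15418288) (l 15360728)) (a (l 15458872) (l 15231056))) (b (a (l 15122472) (l 14870088)) (a (l 14989440) (l 14739760)))) (a (b (a (l 15333656) (l 15106056)) (l 14981616)) (a (l 14807384) (l 14552968))))))), by decide +kernel⟩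

theorem s2_pp_102 : ∃ t, chk3 f_pp_102 t 1 1 1 = true := ex3_a k0_pp_102 k1_pp_102

theorem c_pp_102 : CertB 536870912 536870912 1073741824 536870912 1020054732 13421774 3 eng mog cd3q1 cd3q2 pd0 false true true .npp 1 0 2
    ndB3q1 ndB3q2 pcB0 Cut.none Ext.none :=
  certB1 (fam := false) (s1 := true) (s2 := true) (a := 1) (b := 0) (c := 2) (cn := .npp) (n1 := ndB3q1) (n2 := ndB3q2) (pc := pcB0) (cut := Cut.none) (xt := Ext.none) (P1 := 536870912) (W1 := 536870912) (P2 := 1073741824) (W2 := 536870912) (P3 := 1020054732) (W3 := 13421774) (N0 := 3) (En := eng) (mo := mog) (C1 := cd3q1) (C2 := cd3q2) (C3 := pd0)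
    rfl (fun _ => rfl) s2_pp_102

noncomputable def f_pp_112 : ℕ → ℕ → ℕ → ℕ → Bool := onCell 536870912 536870912 1073741824 536870912 1020054732 13421774
    (rowB 3 eng mog cd3q1 cd3q2 pd1 2 false true true .dn 1 1 2 (qsf 536870912 536870912 1073741824 536870912 1) ndB3q1 ndB3q2 pcB1 Cut.none Ext.none)

def k0_pp_112 : ∃ t, chk3 f_pp_112 t 1 2 1 = true :=
  ⟨(a (a (b (a (b (l 3) (b (b (a (l 3) (a (l 3) (c (l 380807124199) (l 334636232999)))) (c (a (a (l 15752752) (l 15741240)) (a (l 15731744) (l 15724560))) (a (a (l 15869672) (l 15835880)) (a (l 15846072) (l 15879456))))) (a (c (b (a (l 15782192) (l 15767056)) (l 15794232)) (c (l 15908992) (b (l 16083680) (l 16114160)))) (c (a (l 15765872) (l 15757984)) (b (l 15746952) (l 15975112)))))) (a (b (l 3) (c (b (a (b (l 396376384231) (l 15720064)) (b (l 434360009127) (l 15719072))) (c (l 15692416) (l 15815240))) (b (b (a (l 355037295031) (l 396242151495)) (c (l 15895312) (l 16015648))) (c (l 15939656) (l 16065904)))))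 (b (l 1) (a (c (b (l 401610942359) (l 15758112)) (b (l 367787943031) (l 15981096))) (b (l 1) (c (l 15766424) (l 16005632))))))) (a (b (c (b (a (l 15652440) (l 15797952)) (a (l 15846088) (l 15825184))) (a (b (l 15919776) (l 16129736)) (b (l 15961816) (l 16110128)))) (c (a (b (l 15861568) (l 15865880)) (b (l 15842448) (l 15848952))) (c (l 15875976) (a (l 16048920) (l 16080104))))) (b (c (a (b (l 15792320) (l 15822296)) (b (l 15804288) (l 15838352))) (b (a (l 16057864) (l 16061912)) (a (l 16103624) (l 16110872)))) (c (b (l 15682880) (l 15862896)) (a (l 16047896) (l 16122936)))))) (b (a (a (a (b (l 1) (c (l 379598738695) (l 439192080199))) (l 1)) (l 1)) (l 1)) (a (b (c (a (b (l 15834424) (l 15873840)) (l 338259985671)) (a (b (l 16079128) (l 16131992)) (l 15929432))) (c (a (l 15916480) (l 15981528)) (c (l 16146400) (l 16077104)))) (a (b (c (l 15871976) (l 15973016)) (c (l 16066440) (l 16125232))) (b (l 1) (c (l 16168232) (l 16063400))))))) (a (b (l 1) (a (b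 (l 1) (c (l 492879507975) (l 454224156695))) (l 1))) (l 1))), by decide +kernel⟩

def k1_pp_112 : ∃ t, chk3 f_pp_112 t 1 3 1 = true :=
  ⟨(a (a (b (a (a (b (c (l 15850368) (l 15809136)) (c (l 15623120) (l 15399512))) (b (c (l 15837360) (l 15948720)) (c (l 15698368) (l 15638400)))) (c (b (a (l 15847072) (l 15882096)) (b (l 15827688) (l 15915224))) (b (c (l 16107472) (l 15874048)) (b (l 15794248) (l 15620760))))) (a (b (c (a (l 15532272) (l 15616984)) (c (l 15177064) (l 15076992))) (c (b (l 15027504) (l 14816656)) (l 14442040))) (b (c (l 15569584) (a (l 15299256) (l 15363608))) (c (l 15189704) (l 14906688))))) (b (a (b (c (b (l 15970512) (l 15989416)) (b (l 16056016) (l 15949592))) (c (l 15825024) (l 15751680))) (b (c (a (l 16130656) (l 16246024)) (c (l 16054560) (l 15827784))) (c (l 16034552) (l 15744560)))) (a (b (c (l 15800976) (l 15312952)) (c (l 15353880) (l 15077088))) (b (c (l 15838112) (l 15500152)) (c (l 15474912) (l 15208344)))))) (a (b (a (b (c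 (a (l 16257064) (l 16157840)) (a (l 15855448) (l 15781472))) (c (l 16046304) (l 15692408))) (b (c (l 481604689015) (l 15423720)) (c (l 15893184) (l 15600904)))) (a (b (c (l 15826656) (l 15520544)) (c (l 15553992) (l 15302920))) (b (c (l 15766720) (l 15503848)) (l 15268480)))) (a (b (b (l 1) (c (l 15704632) (l 15482624))) (b (c (l 15673184) (l 15459144)) (l 15454072))) (b (l 1) (b (l 15257104) (l 15498264)))))), by decide +kernel⟩

theorem s2_pp_112 : ∃ t, chk3 f_pp_112 t 1 1 1 = true := ex3_b k0_pp_112 k1_pp_112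

theorem c_pp_112 : CertB 536870912 536870912 1073741824 536870912 1020054732 13421774 3 eng mog cd3q1 cd3q2 pd1 false true true .dn 1 1 2
    ndB3q1 ndB3q2 pcB1 Cut.none Ext.none :=
  certB2 (fam := false) (s1 := true) (s2 := true) (a := 1) (b := 1) (c := 2) (cn := .dn) (n1 := ndB3q1) (n2 := ndB3q2) (pc := pcB1) (cut := Cut.none) (xt := Ext.none) (P1 := 536870912) (W1 := 536870912) (P2 := 1073741824) (W2 := 536870912) (P3 := 1020054732) (W3 := 13421774) (N0 := 3) (En := eng) (mo := mog) (C1 := cd3q1) (C2 := cd3q2) (C3 := pd1)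
    rfl (fun _ => rfl) s2_pp_112

noncomputable def f_pp_113 : ℕ → ℕ → ℕ → ℕ → Bool := onCell 536870912 536870912 0 1230186008 1020054732 13421774
    (rowB 3 eng mog cd3q1 cd3q3 pd1 2 false true true .nn 1 1 3 (qsf 536870912 536870912 0 1230186008 1) ndB3q1 ndB3q3 pcB1 Cut.none Ext.none)

def k0_pp_113 : ∃ t, chk3 f_pp_113 t 1 1 1 = true :=
  ⟨(a (b (l 2) (b (a (l 2) (b (l 2) (a (l 2) (b (l 2) (c (l 12918992) (l 13025504)))))) (a (b (l 2) (b (a (l 2) (c (l 13457128) (l 13406928))) (a (c (b (l 13536232) (l 13943304)) (b (l 13404440) (l 13726960))) (c (b (l 13992808) (l 14371584)) (l 13973256))))) (b (b (a (c (l 12754128) (l 12908776)) (c (l 13337064) (l 13405256))) (a (c (l 13317240) (l 13351200)) (l 13789648))) (a (b (c (l 13932640) (l 13849760)) (c (l 14590720) (l 14396336))) (b (c (l 14383384) (l 14282912)) (c (l 14949568) (l 14758592)))))))) (a (b (l 2) (b (b (a (l 2) (l 13319864)) (a (b (l 13167376) (l 13518344)) (b (l 13690696) (l 14031080)))) (b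 (a (b (l 13909168) (l 14317168)) (b (l 14413792) (l 14772864))) (a (b (l 14635656) (c (l 15262480) (l 15081248))) (b (l 15111840) (c (l 15532856) (l 15366512))))))) (b (b (a (l 2) (l 16422024)) (b (b (l 16039752) (l 15100168)) (a (l 13830200) (l 14571472)))) (b (b (a (l 13845768) (l 14217112)) (a (b (l 14151080) (l 14462648)) (b (l 14451872) (l 14754296)))) (b (a (b (l 14839848) (l 15059968)) (b (l 15138856) (l 15527144))) (a (b (l 15449112) (l 15699328)) (b (l 15762072) (l 15935728)))))))), by decide +kernel⟩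

theorem c_pp_113 : CertB 536870912 536870912 0 1230186008 1020054732 13421774 3 eng mog cd3q1 cd3q3 pd1 false true true .nn 1 1 3
    ndB3q1 ndB3q3 pcB1 Cut.none Ext.none :=
  certB2 (fam := false) (s1 := true) (s2 := true) (a := 1) (b := 1) (c := 3) (cn := .nn) (n1 := ndB3q1) (n2 := ndB3q3) (pc := pcB1) (cut := Cut.none) (xt := Ext.none) (P1 := 536870912) (W1 := 536870912) (P2 := 0) (W2 := 1230186008) (P3 := 1020054732) (W3 := 13421774) (N0 := 3) (En := eng) (mo := mog) (C1 := cd3q1) (C2 := cd3q3) (C3 := pd1)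
    rfl (fun _ => rfl) k0_pp_113

noncomputable def f_pp_123 : ℕ → ℕ → ℕ → ℕ → Bool := onCell 1073741824 536870912 0 1230186008 1020054732 13421774
    (rowB 3 eng mog cd3q1 cd3q3 pd2 2 false true true .npn 1 2 3 (qsf 536870912 536870912 0 1230186008 2) ndB3q1 ndB3q3 pcB2 Cut.none Ext.none)

def k0_pp_123 : ∃ t, chk3 f_pp_123 t 1 1 1 = true :=
  ⟨(b (b (a (a (a (l 16712016) (l 16359304)) (l 4)) (l 4)) (a (b (a (b (a (l 15881744) (l 15836112)) (a (l 15520040) (l 15491152))) (b (a (l 16014872) (l 4)) (a (l 15749640) (l 15927800)))) (a (a (l 14630368) (l 15019280)) (a (l 15318712) (l 15557168)))) (b (l 4) (a (a (l 15758512) (l 15917240)) (a (l 16026304) (l 4)))))) (a (a (b (b (a (l 14233264) (l 14609728)) (a (b (l 14262984) (l 14409656)) (l 14478744))) (b (a (b (l 14597408) (l 14826352)) (l 14691608)) (b (a (l 15085512) (l 15025680)) (a (l 15354736) (l 15275384))))) (b (b (a (l 14840928) (l 15025832)) (a (l 14528784) (l 14578392))) (b (b (a (l 14507528) (l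 14418624)) (a (l 14704176) (l 1))) (b (a (l 14941832) (l 1)) (l 1))))) (b (a (b (a (l 15225064) (l 15460320)) (a (l 14663984) (l 14804224))) (b (a (l 1303017023927) (l 1)) (l 1))) (l 1)))), by decide +kernel⟩

theorem c_pp_123 : CertB 536870912 536870912 0 1230186008 1020054732 13421774 3 eng mog cd3q1 cd3q3 pd2 false true true .npn 1 2 3
    ndB3q1 ndB3q3 pcB2 Cut.none Ext.none :=
  certB2 (fam := false) (s1 := true) (s2 := true) (a := 1) (b := 2) (c := 3) (cn := .npn) (n1 := ndB3q1) (n2 := ndB3q3) (pc := pcB2) (cut := Cut.none) (xt := Ext.none) (P1 := 536870912) (W1 := 536870912) (P2 := 0) (W2 := 1230186008) (P3 := 1020054732) (W3 := 13421774) (N0 := 3) (En := eng) (mo := mog) (C1 := cd3q1) (C2 := cd3q3) (C3 := pd2)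
    rfl (fun _ => rfl) k0_pp_123

noncomputable def f_pp_133 : ℕ → ℕ → ℕ → ℕ → Bool := onCell 1610612736 536870912 0 1230186008 1020054732 13421774
    (rowB 3 eng mog cd3q1 cd3q3 pd3 2 false true true .dn 1 3 3 (qsf 536870912 536870912 0 1230186008 3) ndB3q1 ndB3q3 pcB3 Cut.none Ext.none)

def k0_pp_133 : ∃ t, chk3 f_pp_133 t 1 1 1 = true :=
  ⟨(b (b (l 4) (l 1)) (l 1)), by decide +kernel⟩

theorem c_pp_133 : CertB 536870912 536870912 0 1230186008 1020054732 13421774 3 eng mog cd3q1 cd3q3 pd3 false true true .dn 1 3 3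
    ndB3q1 ndB3q3 pcB3 Cut.none Ext.none :=
  certB2 (fam := false) (s1 := true) (s2 := true) (a := 1) (b := 3) (c := 3) (cn := .dn) (n1 := ndB3q1) (n2 := ndB3q3) (pc := pcB3) (cut := Cut.none) (xt := Ext.none) (P1 := 536870912) (W1 := 536870912) (P2 := 0) (W2 := 1230186008) (P3 := 1020054732) (W3 := 13421774) (N0 := 3) (En := eng) (mo := mog) (C1 := cd3q1) (C2 := cd3q3) (C3 := pd3)
    rfl (fun _ => rfl) k0_pp_133

noncomputable def f_pp_202 : ℕ → ℕ → ℕ → ℕ → Bool := onCell 1073741824 536870912 1073741824 536870912 1020054732 13421774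
    (rowB 3 eng mog cd3q2 cd3q2 pd0 0 false true true .pp 2 0 2 (qsf 1073741824 536870912 1073741824 536870912 0) ndB3q2 ndB3q2 pcB0 Cut.none Ext.none)

def k0_pp_202 : ∃ t, chk3 f_pp_202 t 1 1 1 = true :=
  ⟨(l 3), by decide +kernel⟩

theorem c_pp_202 : CertB 1073741824 536870912 1073741824 536870912 1020054732 13421774 3 eng mog cd3q2 cd3q2 pd0 false true true .pp 2 0 2
    ndB3q2 ndB3q2 pcB0 Cut.none Ext.none :=
  certB0 (fam := false) (s1 := true) (s2 := true) (a := 2) (b := 0) (c := 2) (cn := .pp) (n1 := ndB3q2) (n2 := ndB3q2) (pc := pcB0) (cut := Cut.none) (xt := Ext.none) (P1 := 1073741824) (W1 := 536870912) (P2 := 1073741824) (W2 := 536870912) (P3 := 1020054732) (W3 := 13421774) (N0 := 3) (En := eng) (mo := mog) (C1 := cd3q2) (C2 := cd3q2) (C3 := pd0)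
    rfl k0_pp_202

noncomputable def f_pp_203 : ℕ → ℕ → ℕ → ℕ → Bool := onCell 0 536870912 0 1230186008 1020054732 13421774
    (rowB 3 eng mog cd3q2 cd3q3 pd0 2 false true true .up 2 0 3 (qsf 1073741824 536870912 0 1230186008 0) ndB3q2 ndB3q3 pcB0 Cut.none Ext.none)

def k0_pp_203 : ∃ t, chk3 f_pp_203 t 1 1 1 = true :=
  ⟨(b (l 3) (l 3)), by decide +kernel⟩

theorem c_pp_203 : CertB 1073741824 536870912 0 1230186008 1020054732 13421774 3 eng mog cd3q2 cd3q3 pd0 false true true .up 2 0 3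
    ndB3q2 ndB3q3 pcB0 Cut.none Ext.none :=
  certB2 (fam := false) (s1 := true) (s2 := true) (a := 2) (b := 0) (c := 3) (cn := .up) (n1 := ndB3q2) (n2 := ndB3q3) (pc := pcB0) (cut := Cut.none) (xt := Ext.none) (P1 := 1073741824) (W1 := 536870912) (P2 := 0) (W2 := 1230186008) (P3 := 1020054732) (W3 := 13421774) (N0 := 3) (En := eng) (mo := mog) (C1 := cd3q2) (C2 := cd3q3) (C3 := pd0)
    rfl (fun _ => rfl) k0_pp_203

noncomputable def xt_pp_213 : Ext := extD3 3 ⟨4, 1, 1, 5, 99, 20, 33, 40, 51, 125, 1, 32⟩ eng cd3q2 cd3q3 pd1 false true true .pnn 2 1 3 rfl ndB3q2 ndB3q3 pcB1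

noncomputable def f_pp_213 : ℕ → ℕ → ℕ → ℕ → Bool := onCell 1073741824 536870912 0 1230186008 1020054732 13421774
    (rowB 3 eng mog cd3q2 cd3q3 pd1 0 false true true .pnn 2 1 3 (qsf 1073741824 536870912 0 1230186008 1) ndB3q2 ndB3q3 pcB1 Cut.none xt_pp_213)

def k0_pp_213 : ∃ t, chk3 f_pp_213 t 1 1 1 = true :=
  ⟨(b (a (a (b (a (a (b (a (b (l 16716056) (a (l 16733328) (l 16701488))) (b (a (l 16751104) (l 16703952)) (a (l 16632936) (l 16628240)))) (b (a (a (b (l 16767240) (l 16669968)) (b (l 16719504) (l 16664624))) (b (l 182703419735) (l 3))) (l 3))) (b (b (l 140805966832336927) (l 3)) (l 3))) (l 3)) (l 3)) (l 3)) (l 3)) (l 3)), by decide +kernel⟩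

theorem c_pp_213 : CertB 1073741824 536870912 0 1230186008 1020054732 13421774 3 eng mog cd3q2 cd3q3 pd1 false true true .pnn 2 1 3
    ndB3q2 ndB3q3 pcB1 Cut.none xt_pp_213 :=
  certB0 (fam := false) (s1 := true) (s2 := true) (a := 2) (b := 1) (c := 3) (cn := .pnn) (n1 := ndB3q2) (n2 := ndB3q3) (pc := pcB1) (cut := Cut.none) (xt := xt_pp_213) (P1 := 1073741824) (W1 := 536870912) (P2 := 0) (W2 := 1230186008) (P3 := 1020054732) (W3 := 13421774) (N0 := 3) (En := eng) (mo := mog) (C1 := cd3q2) (C2 := cd3q3) (C3 := pd1)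
    rfl k0_pp_213

noncomputable def f_pp_303 : ℕ → ℕ → ℕ → ℕ → Bool := onCell 0 1230186008 0 1230186008 1020054732 13421774
    (rowB 3 eng mog cd3q3 cd3q3 pd0 0 false true true .npn 3 0 3 (qsf 0 1230186008 0 1230186008 0) ndB3q3 ndB3q3 pcB0 Cut.none Ext.none)

def k0_pp_303 : ∃ t, chk3 f_pp_303 t 1 1 1 = true :=
  ⟨(a (b (l 3) (l 3)) (b (l 3) (l 3))), by decide +kernel⟩

theorem c_pp_303 : CertB 0 1230186008 0 1230186008 1020054732 13421774 3 eng mog cd3q3 cd3q3 pd0 false true true .npn 3 0 3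
    ndB3q3 ndB3q3 pcB0 Cut.none Ext.none :=
  certB0 (fam := false) (s1 := true) (s2 := true) (a := 3) (b := 0) (c := 3) (cn := .npn) (n1 := ndB3q3) (n2 := ndB3q3) (pc := pcB0) (cut := Cut.none) (xt := Ext.none) (P1 := 0) (W1 := 1230186008) (P2 := 0) (W2 := 1230186008) (P3 := 1020054732) (W3 := 13421774) (N0 := 3) (En := eng) (mo := mog) (C1 := cd3q3) (C2 := cd3q3) (C3 := pd0)
    rfl k0_pp_303

noncomputable def f_pp_313 : ℕ → ℕ → ℕ → ℕ → Bool := onCell 0 1230186008 0 1230186008 1020054732 13421774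
    (rowB 3 eng mog cd3q3 cd3q3 pd1 0 false true true .dn 3 1 3 (qsf 0 1230186008 0 1230186008 1) ndB3q3 ndB3q3 pcB1 Cut.none Ext.none)

def k0_pp_313 : ∃ t, chk3 f_pp_313 t 1 1 1 = true :=
  ⟨(a (l 1) (b (l 3) (l 1))), by decide +kernel⟩

theorem c_pp_313 : CertB 0 1230186008 0 1230186008 1020054732 13421774 3 eng mog cd3q3 cd3q3 pd1 false true true .dn 3 1 3
    ndB3q3 ndB3q3 pcB1 Cut.none Ext.none :=
  certB0 (fam := false) (s1 := true) (s2 := true) (a := 3) (b := 1) (c := 3) (cn := .dn) (n1 := ndB3q3) (n2 := ndB3q3) (pc := pcB1) (cut := Cut.none) (xt := Ext.none) (P1 := 0) (W1 := 1230186008) (P2 := 0) (W2 := 1230186008) (P3 := 1020054732) (W3 := 13421774) (N0 := 3) (En := eng) (mo := mog) (C1 := cd3q3) (C2 := cd3q3) (C3 := pd1)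
    rfl k0_pp_313

noncomputable def f_pm_001 : ℕ → ℕ → ℕ → ℕ → Bool := onCell 0 536870912 536870912 536870912 1020054732 13421774
    (rowB 3 eng mog cd3q0 cd3q1 pd0 0 false true false .up 0 0 1 (qsf 0 536870912 536870912 536870912 0) ndB3q0 ndB3q1 pcB0 Cut.none Ext.none)

def k0_pm_001 : ∃ t, chk3 f_pm_001 t 1 1 1 = true :=
  ⟨(l 4), by decide +kernel⟩

theorem c_pm_001 : CertB 0 536870912 536870912 536870912 1020054732 13421774 3 eng mog cd3q0 cd3q1 pd0 false true false .up 0 0 1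
    ndB3q0 ndB3q1 pcB0 Cut.none Ext.none :=
  certB0 (fam := false) (s1 := true) (s2 := false) (a := 0) (b := 0) (c := 1) (cn := .up) (n1 := ndB3q0) (n2 := ndB3q1) (pc := pcB0) (cut := Cut.none) (xt := Ext.none) (P1 := 0) (W1 := 536870912) (P2 := 536870912) (W2 := 536870912) (P3 := 1020054732) (W3 := 13421774) (N0 := 3) (En := eng) (mo := mog) (C1 := cd3q0) (C2 := cd3q1) (C3 := pd0)
    rfl k0_pm_001

noncomputable def f_pm_011 : ℕ → ℕ → ℕ → ℕ → Bool := onCell 0 536870912 536870912 536870912 1020054732 13421774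
    (rowB 3 eng mog cd3q0 cd3q1 pd1 0 false true false .pnn 0 1 1 (qsf 0 536870912 536870912 536870912 1) ndB3q0 ndB3q1 pcB1 Cut.none Ext.none)

def k0_pm_011 : ∃ t, chk3 f_pm_011 t 1 1 1 = true :=
  ⟨(l 4), by decide +kernel⟩

theorem c_pm_011 : CertB 0 536870912 536870912 536870912 1020054732 13421774 3 eng mog cd3q0 cd3q1 pd1 false true false .pnn 0 1 1
    ndB3q0 ndB3q1 pcB1 Cut.none Ext.none :=
  certB0 (fam := false) (s1 := true) (s2 := false) (a := 0) (b := 1) (c := 1) (cn := .pnn) (n1 := ndB3q0) (n2 := ndB3q1) (pc := pcB1) (cut := Cut.none) (xt := Ext.none) (P1 := 0) (W1 := 536870912) (P2 := 536870912) (W2 := 536870912) (P3 := 1020054732) (W3 := 13421774) (N0 := 3) (En := eng) (mo := mog) (C1 := cd3q0) (C2 := cd3q1) (C3 := pd1)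
    rfl k0_pm_011

noncomputable def f_pm_012 : ℕ → ℕ → ℕ → ℕ → Bool := onCell 0 536870912 1073741824 536870912 1020054732 13421774
    (rowB 3 eng mog cd3q0 cd3q2 pd1 0 false true false .pnp 0 1 2 (qsf 0 536870912 1073741824 536870912 1) ndB3q0 ndB3q2 pcB1 Cut.none Ext.none)

def k0_pm_012 : ∃ t, chk3 f_pm_012 t 1 1 1 = true :=
  ⟨(l 4), by decide +kernel⟩

theorem c_pm_012 : CertB 0 536870912 1073741824 536870912 1020054732 13421774 3 eng mog cd3q0 cd3q2 pd1 false true false .pnp 0 1 2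
    ndB3q0 ndB3q2 pcB1 Cut.none Ext.none :=
  certB0 (fam := false) (s1 := true) (s2 := false) (a := 0) (b := 1) (c := 2) (cn := .pnp) (n1 := ndB3q0) (n2 := ndB3q2) (pc := pcB1) (cut := Cut.none) (xt := Ext.none) (P1 := 0) (W1 := 536870912) (P2 := 1073741824) (W2 := 536870912) (P3 := 1020054732) (W3 := 13421774) (N0 := 3) (En := eng) (mo := mog) (C1 := cd3q0) (C2 := cd3q2) (C3 := pd1)
    rfl k0_pm_012

noncomputable def f_pm_022 : ℕ → ℕ → ℕ → ℕ → Bool := onCell 0 536870912 1073741824 536870912 1020054732 13421774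
    (rowB 3 eng mog cd3q0 cd3q2 pd2 0 false true false .pp 0 2 2 (qsf 0 536870912 1073741824 536870912 2) ndB3q0 ndB3q2 pcB2 Cut.none Ext.none)

def k0_pm_022 : ∃ t, chk3 f_pm_022 t 1 1 1 = true :=
  ⟨(l 4), by decide +kernel⟩

theorem c_pm_022 : CertB 0 536870912 1073741824 536870912 1020054732 13421774 3 eng mog cd3q0 cd3q2 pd2 false true false .pp 0 2 2
    ndB3q0 ndB3q2 pcB2 Cut.none Ext.none :=
  certB0 (fam := false) (s1 := true) (s2 := false) (a := 0) (b := 2) (c := 2) (cn := .pp) (n1 := ndB3q0) (n2 := ndB3q2) (pc := pcB2) (cut := Cut.none) (xt := Ext.none) (P1 := 0) (W1 := 536870912) (P2 := 1073741824) (W2 := 536870912) (P3 := 1020054732) (W3 := 13421774) (N0 := 3) (En := eng) (mo := mog) (C1 := cd3q0) (C2 := cd3q2) (C3 := pd2)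
    rfl k0_pm_022

noncomputable def f_pm_023 : ℕ → ℕ → ℕ → ℕ → Bool := onCell 0 536870912 0 1230186008 1020054732 13421774
    (rowB 3 eng mog cd3q0 cd3q3 pd2 0 false true false .up 0 2 3 (qsf 0 536870912 0 1230186008 2) ndB3q0 ndB3q3 pcB2 Cut.none Ext.none)

def k0_pm_023 : ∃ t, chk3 f_pm_023 t 1 1 1 = true :=
  ⟨(b (l 4) (l 4)), by decide +kernel⟩

theorem c_pm_023 : CertB 0 536870912 0 1230186008 1020054732 13421774 3 eng mog cd3q0 cd3q3 pd2 false true false .up 0 2 3
    ndB3q0 ndB3q3 pcB2 Cut.none Ext.none :=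
  certB0 (fam := false) (s1 := true) (s2 := false) (a := 0) (b := 2) (c := 3) (cn := .up) (n1 := ndB3q0) (n2 := ndB3q3) (pc := pcB2) (cut := Cut.none) (xt := Ext.none) (P1 := 0) (W1 := 536870912) (P2 := 0) (W2 := 1230186008) (P3 := 1020054732) (W3 := 13421774) (N0 := 3) (En := eng) (mo := mog) (C1 := cd3q0) (C2 := cd3q3) (C3 := pd2)
    rfl k0_pm_023

noncomputable def f_pm_033 : ℕ → ℕ → ℕ → ℕ → Bool := onCell 0 536870912 0 1230186008 1020054732 13421774
    (rowB 3 eng mog cd3q0 cd3q3 pd3 0 false true false .pnn 0 3 3 (qsf 0 536870912 0 1230186008 3) ndB3q0 ndB3q3 pcB3 Cut.none Ext.none)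

def k0_pm_033 : ∃ t, chk3 f_pm_033 t 1 1 1 = true :=
  ⟨(b (l 4) (l 4)), by decide +kernel⟩

theorem c_pm_033 : CertB 0 536870912 0 1230186008 1020054732 13421774 3 eng mog cd3q0 cd3q3 pd3 false true false .pnn 0 3 3
    ndB3q0 ndB3q3 pcB3 Cut.none Ext.none :=
  certB0 (fam := false) (s1 := true) (s2 := false) (a := 0) (b := 3) (c := 3) (cn := .pnn) (n1 := ndB3q0) (n2 := ndB3q3) (pc := pcB3) (cut := Cut.none) (xt := Ext.none) (P1 := 0) (W1 := 536870912) (P2 := 0) (W2 := 1230186008) (P3 := 1020054732) (W3 := 13421774) (N0 := 3) (En := eng) (mo := mog) (C1 := cd3q0) (C2 := cd3q3) (C3 := pd3)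
    rfl k0_pm_033

noncomputable def f_pm_101 : ℕ → ℕ → ℕ → ℕ → Bool := onCell 536870912 536870912 536870912 536870912 1020054732 13421774
    (rowB 3 eng mog cd3q1 cd3q1 pd0 0 false true false .npn 1 0 1 (qsf 536870912 536870912 536870912 536870912 0) ndB3q1 ndB3q1 pcB0 Cut.none Ext.none)

def k0_pm_101 : ∃ t, chk3 f_pm_101 t 1 1 1 = true :=
  ⟨(l 4), by decide +kernel⟩

theorem c_pm_101 : CertB 536870912 536870912 536870912 536870912 1020054732 13421774 3 eng mog cd3q1 cd3q1 pd0 false true false .npn 1 0 1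
    ndB3q1 ndB3q1 pcB0 Cut.none Ext.none :=
  certB0 (fam := false) (s1 := true) (s2 := false) (a := 1) (b := 0) (c := 1) (cn := .npn) (n1 := ndB3q1) (n2 := ndB3q1) (pc := pcB0) (cut := Cut.none) (xt := Ext.none) (P1 := 536870912) (W1 := 536870912) (P2 := 536870912) (W2 := 536870912) (P3 := 1020054732) (W3 := 13421774) (N0 := 3) (En := eng) (mo := mog) (C1 := cd3q1) (C2 := cd3q1) (C3 := pd0)
    rfl k0_pm_101

noncomputable def f_pm_102 : ℕ → ℕ → ℕ → ℕ → Bool := onCell 536870912 536870912 1073741824 536870912 1020054732 13421774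
    (rowB 3 eng mog cd3q1 cd3q2 pd0 0 false true false .npp 1 0 2 (qsf 536870912 536870912 1073741824 536870912 0) ndB3q1 ndB3q2 pcB0 Cut.none Ext.none)

def k0_pm_102 : ∃ t, chk3 f_pm_102 t 1 1 1 = true :=
  ⟨(l 4), by decide +kernel⟩

theorem c_pm_102 : CertB 536870912 536870912 1073741824 536870912 1020054732 13421774 3 eng mog cd3q1 cd3q2 pd0 false true false .npp 1 0 2
    ndB3q1 ndB3q2 pcB0 Cut.none Ext.none :=
  certB0 (fam := false) (s1 := true) (s2 := false) (a := 1) (b := 0) (c := 2) (cn := .npp) (n1 := ndB3q1) (n2 := ndB3q2) (pc := pcB0) (cut := Cut.none) (xt := Ext.none) (P1 := 536870912) (W1 := 536870912) (P2 := 1073741824) (W2 := 536870912) (P3 := 1020054732) (W3 := 13421774) (N0 := 3) (En := eng) (mo := mog) (C1 := cd3q1) (C2 := cd3q2) (C3 := pd0)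
    rfl k0_pm_102

noncomputable def f_pm_112 : ℕ → ℕ → ℕ → ℕ → Bool := onCell 536870912 536870912 1073741824 536870912 1020054732 13421774
    (rowB 3 eng mog cd3q1 cd3q2 pd1 0 false true false .dn 1 1 2 (qsf 536870912 536870912 1073741824 536870912 1) ndB3q1 ndB3q2 pcB1 Cut.none Ext.none)

def k0_pm_112 : ∃ t, chk3 f_pm_112 t 1 1 1 = true :=
  ⟨(l 4), by decide +kernel⟩

theorem c_pm_112 : CertB 536870912 536870912 1073741824 536870912 1020054732 13421774 3 eng mog cd3q1 cd3q2 pd1 false true false .dn 1 1 2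
    ndB3q1 ndB3q2 pcB1 Cut.none Ext.none :=
  certB0 (fam := false) (s1 := true) (s2 := false) (a := 1) (b := 1) (c := 2) (cn := .dn) (n1 := ndB3q1) (n2 := ndB3q2) (pc := pcB1) (cut := Cut.none) (xt := Ext.none) (P1 := 536870912) (W1 := 536870912) (P2 := 1073741824) (W2 := 536870912) (P3 := 1020054732) (W3 := 13421774) (N0 := 3) (En := eng) (mo := mog) (C1 := cd3q1) (C2 := cd3q2) (C3 := pd1)
    rfl k0_pm_112

noncomputable def f_pm_113 : ℕ → ℕ → ℕ → ℕ → Bool := onCell 536870912 536870912 0 1230186008 1020054732 13421774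
    (rowB 3 eng mog cd3q1 cd3q3 pd1 0 false true false .nn 1 1 3 (qsf 536870912 536870912 0 1230186008 1) ndB3q1 ndB3q3 pcB1 Cut.none Ext.none)

def k0_pm_113 : ∃ t, chk3 f_pm_113 t 1 1 1 = true :=
  ⟨(b (a (l 2) (a (l 2) (b (a (l 2) (l 16520736)) (l 4)))) (l 4)), by decide +kernel⟩

theorem c_pm_113 : CertB 536870912 536870912 0 1230186008 1020054732 13421774 3 eng mog cd3q1 cd3q3 pd1 false true false .nn 1 1 3
    ndB3q1 ndB3q3 pcB1 Cut.none Ext.none :=
  certB0 (fam := false) (s1 := true) (s2 := false) (a := 1) (b := 1) (c := 3) (cn := .nn) (n1 := ndB3q1) (n2 := ndB3q3) (pc := pcB1) (cut := Cut.none) (xt := Ext.none) (P1 := 536870912) (W1 := 536870912) (P2 := 0) (W2 := 1230186008) (P3 := 1020054732) (W3 := 13421774) (N0 := 3) (En := eng) (mo := mog) (C1 := cd3q1) (C2 := cd3q3) (C3 := pd1)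
    rfl k0_pm_113

noncomputable def f_pm_123 : ℕ → ℕ → ℕ → ℕ → Bool := onCell 536870912 536870912 0 1230186008 1020054732 13421774
    (rowB 3 eng mog cd3q1 cd3q3 pd2 0 false true false .npn 1 2 3 (qsf 536870912 536870912 0 1230186008 2) ndB3q1 ndB3q3 pcB2 Cut.none Ext.none)

def k0_pm_123 : ∃ t, chk3 f_pm_123 t 1 1 1 = true :=
  ⟨(b (b (a (l 4) (a (l 4) (a (l 4) (b (l 16712136) (l 4))))) (l 4)) (l 4)), by decide +kernel⟩

theorem c_pm_123 : CertB 536870912 536870912 0 1230186008 1020054732 13421774 3 eng mog cd3q1 cd3q3 pd2 false true false .npn 1 2 3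
    ndB3q1 ndB3q3 pcB2 Cut.none Ext.none :=
  certB0 (fam := false) (s1 := true) (s2 := false) (a := 1) (b := 2) (c := 3) (cn := .npn) (n1 := ndB3q1) (n2 := ndB3q3) (pc := pcB2) (cut := Cut.none) (xt := Ext.none) (P1 := 536870912) (W1 := 536870912) (P2 := 0) (W2 := 1230186008) (P3 := 1020054732) (W3 := 13421774) (N0 := 3) (En := eng) (mo := mog) (C1 := cd3q1) (C2 := cd3q3) (C3 := pd2)
    rfl k0_pm_123

noncomputable def f_pm_133 : ℕ → ℕ → ℕ → ℕ → Bool := onCell 1610612736 536870912 0 1230186008 1020054732 13421774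
    (rowB 3 eng mog cd3q1 cd3q3 pd3 2 false true false .dn 1 3 3 (qsf 536870912 536870912 0 1230186008 3) ndB3q1 ndB3q3 pcB3 Cut.none Ext.none)

def k0_pm_133 : ∃ t, chk3 f_pm_133 t 1 1 1 = true :=
  ⟨(b (b (l 4) (l 1)) (l 1)), by decide +kernel⟩

theorem c_pm_133 : CertB 536870912 536870912 0 1230186008 1020054732 13421774 3 eng mog cd3q1 cd3q3 pd3 false true false .dn 1 3 3
    ndB3q1 ndB3q3 pcB3 Cut.none Ext.none :=
  certB2 (fam := false) (s1 := true) (s2 := false) (a := 1) (b := 3) (c := 3) (cn := .dn) (n1 := ndB3q1) (n2 := ndB3q3) (pc := pcB3) (cut := Cut.none) (xt := Ext.none) (P1 := 536870912) (W1 := 536870912) (P2 := 0) (W2 := 1230186008) (P3 := 1020054732) (W3 := 13421774) (N0 := 3) (En := eng) (mo := mog) (C1 := cd3q1) (C2 := cd3q3) (C3 := pd3)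
    rfl (fun _ => rfl) k0_pm_133

noncomputable def f_pm_202 : ℕ → ℕ → ℕ → ℕ → Bool := onCell 1073741824 536870912 0 536870912 1020054732 13421774
    (rowB 3 eng mog cd3q2 cd3q2 pd0 1 false true false .pp 2 0 2 (qsf 1073741824 536870912 1073741824 536870912 0) ndB3q2 ndB3q2 pcB0 Cut.none Ext.none)

def k0_pm_202 : ∃ t, chk3 f_pm_202 t 4 2 1 = true :=
  ⟨(b (a (b (b (b (a (a (l 16399512) (l 16410712)) (l 16263232)) (b (a (a (l 16402096) (l 16374280)) (l 16335816)) (a (b (l 16345496) (a (l 16328928) (l 16303720))) (b (l 16296048) (l 16269040))))) (b (a (b (a (l 16311400) (l 16286928)) (a (l 16299232) (l 16276336))) (b (l 16253344) (l 16161504))) (a (b (a (l 16292888) (l 16272008)) (l 16277168)) (b (l 16245920) (l 16240864))))) (b (a (b (c (l 16229312) (l 16275968)) (c (l 16195536) (l 16262432))) (b (l 16136408) (l 16138576))) (a (b (c (l 16171608) (l 16255376)) (c (l 16155640) (l 16253616))) (b (l 16127384) (b (l 16187064) (l 16070832)))))) (b (b (b (a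 (l 16315800) (l 16247480)) (b (l 16100688) (b (l 16149080) (l 16020160)))) (b (b (a (l 16172256) (l 16117768)) (a (l 16209504) (l 16184280))) (a (b (l 16214784) (l 16210624)) (l 16039736)))) (b (b (a (l 16152208) (l 16109496)) (a (l 16138176) (l 16078888))) (b (a (a (l 16176384) (l 16107624)) (b (l 16051288) (l 16074488))) (a (l 15891264) (l 16082168)))))) (b (a (b (a (b (a (l 16002288) (l 16127848)) (l 16083032)) (b (l 16032880) (l 16083112))) (a (c (l 15978240) (l 16098640)) (c (l 15932648) (l 16076840)))) (b (a (l 15860096) (l 15843240)) (a (l 15785040) (l 15778864)))) (a (c (a (b (l 15868424) (l 15770616)) (b (l 15834232) (l 15747552))) (a (b (l 15996096) (l 15903688)) (l 15773720))) (b (a (l 15720848) (l 15725024)) (a (l 15646224) (l 15577088)))))), by decide +kernel⟩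

def k1_pm_202 : ∃ t, chk3 f_pm_202 t 5 2 1 = true :=
  ⟨(b (a (b (b (b (c (l 16173176) (l 16323112)) (b (a (l 16208464) (c (l 16096136) (l 16257784))) (a (b (l 16179184) (l 16075816)) (b (l 16084216) (l 16138000))))) (a (b (b (l 16113840) (l 16162512)) (l 16017000)) (b (c (l 16055384) (l 16148880)) (l 15891096)))) (b (b (a (l 16048592) (b (l 15991408) (l 15919416))) (c (a (l 16050072) (l 15999624)) (a (l 16213200) (l 16180888)))) (c (a (l 15984544) (l 15938384)) (a (l 16091080) (l 16101984))))) (a (b (b (b (b (l 16119688) (l 15923288)) (b (l 15890208) (b (l 16043656) (l 16015664)))) (b (b (l 15953408) (l 15955432)) (b (l 15955208) (b (l 15911128) (l 15885472))))) (b (b (a (l 15874360) (l 15936656)) (l 15846384)) (b (l 15788024) (l 15732392)))) (b (b (b (b (b (l 16004344) (l 15906312)) (b (l 15910552) (l 15941104))) (b (l 15884800) (b (l 15917160) (l 15892280)))) (b (a (b (l 15960136) (l 15960736)) (b (l 15887200) (l 15862952))) (b (a (l 15913872) (l 15870632))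 (a (l 15837280) (l 15893544))))) (b (b (a (l 15890776) (l 15824776)) (a (l 15854720) (l 15770376))) (b (a (l 15821360) (l 15717056)) (a (l 15768264) (l 15727824))))))) (b (a (b (c (a (l 15900648) (l 15862264)) (l 15936392)) (a (l 15733712) (c (l 15796472) (l 16005648)))) (c (b (a (l 15595632) (b (l 15762560) (l 15735760))) (a (l 15684040) (b (l 15712000) (l 15691328)))) (b (a (l 15940304) (a (l 15983240) (l 15905984))) (a (l 15945056) (a (l 15973432) (l 15881200)))))) (a (b (a (c (l 15759712) (l 15957680)) (c (l 15738616) (l 15947984))) (a (l 15591096) (l 15565416))) (b (a (c (l 15721480) (l 15939064)) (c (a (l 15710744) (l 15620936)) (b (l 15939952) (l 15923560)))) (a (c (l 15686552) (l 15901512)) (c (l 132235470887) (l 15882152))))))), by decide +kernel⟩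

def k2_pm_202 : ∃ t, chk3 f_pm_202 t 2 3 1 = true :=
  ⟨(b (a (b (b (a (a (c (l 15684592) (l 15821232)) (l 15518688)) (a (l 15602848) (l 15500200))) (a (a (c (l 15610144) (l 15748552)) (l 15496768)) (a (c (l 15611472) (l 15781752)) (l 15580392)))) (a (c (a (b (l 15547040) (l 15495048)) (b (l 15556272) (l 15513392))) (a (l 15615840) (b (l 15710536) (l 15665104)))) (b (a (l 15440528) (l 15672392)) (a (l 15617336) (l 15648080))))) (b (a (b (a (l 15692344) (l 15613528)) (c (l 15630408) (l 15827168))) (b (a (c (l 15662600) (l 15873632)) (c (l 15666680) (l 15882696))) (a (l 93043840567) (l 3)))) (a (b (c (l 15612488) (l 15804272)) (c (l 15603728) (l 15789376))) (a (b (l 15635640) (l 2)) (l 2))))) (a (a (b (a (b (c (l 15455064) (l 15588424)) (c (l 15423784) (l 15552872))) (b (l 15386672) (l 15532552))) (a (b (a (l 15451352) (l 15478256)) (l 15452504)) (b (l 15518728) (l 15512800)))) (b (a (b (l 15593744) (l 15579160)) (b (l 15632872) (l 15625720))) (a (b (l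 15572552) (l 2)) (l 2)))) (b (a (a (b (l 15671776) (l 2)) (l 2)) (l 2)) (l 2)))), by decide +kernel⟩

def k3_pm_202 : ∃ t, chk3 f_pm_202 t 12 8 1 = true :=
  ⟨(b (b (a (b (c (l 15841832) (l 15998160)) (a (l 15898400) (l 15837848))) (b (c (a (l 15929008) (l 15839696)) (b (l 15936576) (l 15924616))) (c (a (l 15934664) (b (l 15830920) (a (l 15895656) (l 15840440)))) (a (l 16061384) (b (l 15938840) (b (l 15935800) (l 15936280))))))) (b (a (a (l 15884288) (l 15827496)) (c (a (b (l 15907536) (l 15797752)) (a (l 15780200) (a (l 15895320) (l 15825344)))) (a (b (l 16011632) (l 15966520)) (b (l 15921504) (l 15948920))))) (a (a (a (l 15880336) (l 15853560)) (b (l 15824104) (a (l 15868056) (l 15816488)))) (a (b (a (l 15809776) (l 15796320)) (l 15794904)) (c (a (l 15848600) (l 15749656)) (l 15966560)))))) (a (a (b (b (b (l 15875968) (l 15851800)) (b (l 15845248) (l 15878248))) (b (l 15843688) (l 15847248))) (b (b (a (l 15816936) (l 15824088)) (l 15792608)) (b (l 15796840)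 (a (l 15828808) (l 15795416))))) (c (b (b (a (l 15895464) (a (l 15873840) (l 15817552))) (a (l 15774088) (a (l 15857616) (l 15780472)))) (a (b (l 15841568) (l 15825224)) (b (a (l 15820296) (l 15722584)) (a (l 15783608) (l 174648616551))))) (b (b (a (l 16069016) (l 15959088)) (a (l 15989584) (a (l 16012632) (l 15978456)))) (a (b (l 15994904) (l 15978680)) (b (l 15926984) (l 192902688151))))))), by decide +kernel⟩

def k4_pm_202 : ∃ t, chk3 f_pm_202 t 13 8 1 = true :=
  ⟨(a (a (b (b (b (c (b (a (l 15886272) (l 15789488)) (a (l 15838920) (b (l 15784776) (a (l 15848264) (l 15819888))))) (a (b (l 15960712) (l 15918736)) (b (l 15892880) (b (l 15895312) (l 15897560))))) (c (a (b (l 15790744) (l 15783952)) (c (b (l 15821472) (l 15771336)) (l 15894560))) (a (b (l 15900408) (l 15928144)) (b (l 15904968) (l 15895440))))) (c (c (b (a (l 15817264) (l 15781064)) (a (l 15822664) (l 133309669399))) (b (a (l 15956928) (l 15921392)) (l 15871384))) (b (a (l 15924776) (l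 15911632)) (l 125793872183)))) (a (b (b (c (l 110224162455) (l 15960544)) (c (l 169816801975) (l 15944800))) (c (b (l 142436354999) (l 3)) (l 142973673335))) (b (b (c (l 142436389287) (l 15947832)) (l 3)) (l 3)))) (b (a (b (b (c (b (a (b (l 15822416) (l 15777480)) (b (l 147268341815) (l 15769584))) (c (l 131699108407) (l 15911600))) (b (c (l 15975576) (a (l 15899496) (l 15869792))) (l 125256872823))) (a (c (b (l 15764320) (l 15725168)) (l 15880024)) (l 3))) (l 3)) (b (l 3) (l 3))) (l 3))) (l 3)), by decide +kernel⟩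

def k5_pm_202 : ∃ t, chk3 f_pm_202 t 6 9 1 = true :=
  ⟨(a (b (a (c (b (a (l 15896216) (l 15807072)) (a (l 15863344) (l 15775512))) (b (a (l 16043592) (l 15979048)) (a (l 16011504) (l 15968464)))) (c (c (b (a (l 15785240) (l 176796101255)) (a (l 177332968919) (l 149952487591))) (b (a (l 15902336) (l 173038202151)) (a (l 15831520) (l 147268365815)))) (b (a (l 15913144) (a (l 15916936) (l 143510517191))) (a (l 168206560775) (l 143510461287))))) (a (c (c (a (l 15718240) (b (l 15751888) (l 15705536))) (b (l 15836440) (l 169280037415))) (b (a (l 16022048) (l 15939544)) (a (l 15993248) (l 15871920)))) (a (c (b (a (l 164447979783) (l 152636800567)) (a (l 157468632967) (l 3))) (b (l 175722702503) (l 147268509943))) (l 3)))) (l 3)), by decide +kernel⟩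

def k6_pm_202 : ∃ t, chk3 f_pm_202 t 7 4 1 = true :=
  ⟨(l 3), by decide +kernel⟩

def k7_pm_202 : ∃ t, chk3 f_pm_202 t 3 5 1 = true :=
  ⟨(a (a (a (b (b (c (a (b (l 15714840) (l 15671560)) (b (a (l 15660760) (l 163374197559)) (a (l 15661656) (l 3)))) (a (b (l 15967496) (l 15944640)) (b (l 183238844839) (l 15808392)))) (a (b (c (l 15631264) (l 15945536)) (b (l 157468566535) (l 144046777895))) (l 3))) (b (c (b (l 137067359287) (l 3)) (l 133309698775)) (l 3))) (b (l 3) (l 3))) (l 3)) (l 3)), by decide +kernel⟩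

def k8_pm_202 : ∃ t, chk3 f_pm_202 t 3 3 1 = true :=
  ⟨(b (a (l 3) (l 2)) (l 2)), by decide +kernel⟩

theorem s9_pm_202 : ∃ t, chk3 f_pm_202 t 6 8 1 = true := ex3_a k3_pm_202 k4_pm_202

theorem s10_pm_202 : ∃ t, chk3 f_pm_202 t 6 4 1 = true := ex3_b s9_pm_202 k5_pm_202

theorem s11_pm_202 : ∃ t, chk3 f_pm_202 t 3 4 1 = true := ex3_a s10_pm_202 k6_pm_202

theorem s12_pm_202 : ∃ t, chk3 f_pm_202 t 3 2 1 = true := ex3_b s11_pm_202 k7_pm_202

theorem s13_pm_202 : ∃ t, chk3 f_pm_202 t 3 1 1 = true := ex3_b s12_pm_202 k8_pm_202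

theorem s14_pm_202 : ∃ t, chk3 f_pm_202 t 2 2 1 = true := ex3_a k0_pm_202 k1_pm_202

theorem s15_pm_202 : ∃ t, chk3 f_pm_202 t 2 1 1 = true := ex3_b s14_pm_202 k2_pm_202

theorem s16_pm_202 : ∃ t, chk3 f_pm_202 t 1 1 1 = true := ex3_a s15_pm_202 s13_pm_202

theorem c_pm_202 : CertB 1073741824 536870912 1073741824 536870912 1020054732 13421774 3 eng mog cd3q2 cd3q2 pd0 false true false .pp 2 0 2
    ndB3q2 ndB3q2 pcB0 Cut.none Ext.none :=
  certB1 (fam := false) (s1 := true) (s2 := false) (a := 2) (b := 0) (c := 2) (cn := .pp) (n1 := ndB3q2) (n2 := ndB3q2) (pc := pcB0) (cut := Cut.none) (xt := Ext.none) (P1 := 1073741824) (W1 := 536870912) (P2 := 1073741824) (W2 := 536870912) (P3 := 1020054732) (W3 := 13421774) (N0 := 3) (En := eng) (mo := mog) (C1 := cd3q2) (C2 := cd3q2) (C3 := pd0)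
    rfl (fun _ => rfl) s16_pm_202

noncomputable def f_pm_203 : ℕ → ℕ → ℕ → ℕ → Bool := onCell 0 536870912 0 1230186008 1020054732 13421774
    (rowB 3 eng mog cd3q2 cd3q3 pd0 2 false true false .up 2 0 3 (qsf 1073741824 536870912 0 1230186008 0) ndB3q2 ndB3q3 pcB0 Cut.none Ext.none)

def k0_pm_203 : ∃ t, chk3 f_pm_203 t 1 1 1 = true :=
  ⟨(b (l 3) (b (a (l 3) (l 3)) (a (a (l 3) (b (l 3) (l 3))) (a (b (l 3) (b (l 3) (a (b (l 3) (a (l 3) (l 304571779207))) (b (a (l 16034120) (l 16120568)) (a (l 16015736) (l 16218600)))))) (b (a (l 3) (b (l 3) (a (l 3) (l 16059976)))) (a (a (b (l 239073686967) (c (l 16145280) (l 16204248))) (b (l 65127353063) (c (l 16105704) (l 16254664)))) (b (b (l 15874384) (l 15874448)) (c (a (l 16058000) (l 16002536)) (b (l 16206312) (l 16191800)))))))))), by decide +kernel⟩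

theorem c_pm_203 : CertB 1073741824 536870912 0 1230186008 1020054732 13421774 3 eng mog cd3q2 cd3q3 pd0 false true false .up 2 0 3
    ndB3q2 ndB3q3 pcB0 Cut.none Ext.none :=
  certB2 (fam := false) (s1 := true) (s2 := false) (a := 2) (b := 0) (c := 3) (cn := .up) (n1 := ndB3q2) (n2 := ndB3q3) (pc := pcB0) (cut := Cut.none) (xt := Ext.none) (P1 := 1073741824) (W1 := 536870912) (P2 := 0) (W2 := 1230186008) (P3 := 1020054732) (W3 := 13421774) (N0 := 3) (En := eng) (mo := mog) (C1 := cd3q2) (C2 := cd3q3) (C3 := pd0)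
    rfl (fun _ => rfl) k0_pm_203

noncomputable def f_pm_213 : ℕ → ℕ → ℕ → ℕ → Bool := onCell 1073741824 536870912 0 1230186008 1020054732 13421774
    (rowB 3 eng mog cd3q2 cd3q3 pd1 0 false true false .pnn 2 1 3 (qsf 1073741824 536870912 0 1230186008 1) ndB3q2 ndB3q3 pcB1 Cut.none Ext.none)

def k0_pm_213 : ∃ t, chk3 f_pm_213 t 1 2 1 = true :=
  ⟨(a (a (a (b (a (b (a (b (l 16729928) (l 16628424)) (b (l 16672952) (a (l 16761432) (l 16713464)))) (a (b (a (l 16723416) (l 16768120)) (a (l 16713896) (l 16796776))) (b (a (l 16761712) (l 16713704)) (l 16686480)))) (b (a (b (l 16647624) (l 16626840)) (l 3)) (a (b (l 16626960) (l 16590184)) (b (l 3) (l 16515360))))) (b (b (a (b (a (b (l 16785656) (l 16804176)) (l 16554488)) (a (l 16692296) (l 16403104))) (b (a (l 16436488) (l 16389944)) (a (l 16329168) (l 16302672)))) (a (b (a (l 16425696) (l 16260528)) (a (l 16208016) (l 16131376))) (b (a (l 16225072) (l 16217496)) (a (l 16127960) (l 16137344))))) (a (b (a (b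 (l 16032760) (l 15893960)) (l 16155400)) (a (b (l 15785984) (l 15704144)) (b (l 15842368) (l 15778464)))) (a (b (l 16041408) (l 16015064)) (b (l 16029880) (l 15937768)))))) (b (l 3) (a (b (b (l 3) (l 3)) (b (a (l 16053064) (l 3)) (c (l 15961224) (l 15977168)))) (l 3)))) (b (l 3) (l 3))) (l 3)), by decide +kernel⟩

def k1_pm_213 : ∃ t, chk3 f_pm_213 t 1 6 1 = true :=
  ⟨(a (a (b (b (a (a (a (b (l 15644640) (l 15604432)) (b (l 15729472) (l 15694432))) (a (b (l 15800008) (l 15767816)) (l 15965104))) (a (c (l 15867352) (l 15916672)) (l 3))) (a (c (a (b (l 15650280) (l 15637464)) (b (l 15775320) (l 15760464))) (a (b (l 15608288) (l 15602680)) (l 15522760))) (a (c (l 15843504) (l 15885512)) (l 324435595399)))) (a (b (a (b (a (l 15577744) (l 15663904)) (c (l 15649432) (l 15625800))) (b (c (l 15755096) (l 15772112)) (c (l 15759024) (l 15781480)))) (a (b (c (l 15672536) (l 15652856)) (c (l 15706168) (l 15689312))) (b (c (l 15772096) (l 15799384)) (c (l 15794176)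 (l 15825552))))) (b (a (b (l 15812560) (l 15794256)) (c (l 15876072) (l 15957128))) (a (c (l 15610672) (l 15805120)) (c (l 15777584) (l 15980296)))))) (b (l 3) (a (b (l 3) (l 3)) (l 3)))) (l 3)), by decide +kernel⟩

def k2_pm_213 : ∃ t, chk3 f_pm_213 t 1 7 1 = true :=
  ⟨(a (b (a (a (b (a (b (c (l 15749816) (l 15734560)) (c (l 15802992) (l 15788000))) (b (c (l 15825168) (l 15859712)) (c (l 15864960) (l 15901568)))) (a (b (c (l 15865248) (l 15849040)) (c (l 15936056) (l 15916960))) (b (c (l 15913416) (l 15950768)) (c (l 15970328) (l 16006840))))) (b (a (b (l 15742008) (c (l 15902584) (l 15983288))) (b (c (l 15903720) (l 16013760)) (l 15880088))) (a (b (c (l 15941304) (l 16024904)) (c (l 15988264) (l 16073208))) (b (c (l 15958944) (l 16080968)) (c (l 15998600) (l 16124360)))))) (a (b (a (b (l 15998208) (l 16021160)) (l 3)) (a (b (l 15861672) (c (l 16008512) (l 16166416))) (b (l 3) (l 3)))) (l 3))) (a (b (a (a (b (c (l 16014760) (l 15990896)) (c (l 16100432)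 (l 16069664))) (b (c (l 16035288) (l 16069104)) (c (l 16107632) (l 16136560)))) (a (b (c (l 16043312) (l 16127752)) (c (l 16106000) (l 16187680))) (b (c (l 16046384) (l 16173992)) (c (l 16102056) (l 16221040))))) (a (b (a (c (l 16187800) (l 16151584)) (c (l 16186144) (l 16207648))) (a (c (l 16161088) (l 16234192)) (c (l 16167456) (l 16222600)))) (b (a (c (l 16175304) (l 16219744)) (l 1)) (l 1)))) (b (a (a (b (c (l 16049800) (l 16212904)) (l 1)) (l 1)) (l 1)) (l 1)))) (l 1)), by decide +kernel⟩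

theorem s3_pm_213 : ∃ t, chk3 f_pm_213 t 1 3 1 = true := ex3_b k1_pm_213 k2_pm_213

theorem s4_pm_213 : ∃ t, chk3 f_pm_213 t 1 1 1 = true := ex3_b k0_pm_213 s3_pm_213

theorem c_pm_213 : CertB 1073741824 536870912 0 1230186008 1020054732 13421774 3 eng mog cd3q2 cd3q3 pd1 false true false .pnn 2 1 3
    ndB3q2 ndB3q3 pcB1 Cut.none Ext.none :=
  certB0 (fam := false) (s1 := true) (s2 := false) (a := 2) (b := 1) (c := 3) (cn := .pnn) (n1 := ndB3q2) (n2 := ndB3q3) (pc := pcB1) (cut := Cut.none) (xt := Ext.none) (P1 := 1073741824) (W1 := 536870912) (P2 := 0) (W2 := 1230186008) (P3 := 1020054732) (W3 := 13421774) (N0 := 3) (En := eng) (mo := mog) (C1 := cd3q2) (C2 := cd3q3) (C3 := pd1)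
    rfl s4_pm_213

noncomputable def f_pm_303 : ℕ → ℕ → ℕ → ℕ → Bool := onCell 0 1230186008 0 1230186008 1020054732 13421774
    (rowB 3 eng mog cd3q3 cd3q3 pd0 0 false true false .npn 3 0 3 (qsf 0 1230186008 0 1230186008 0) ndB3q3 ndB3q3 pcB0 Cut.none Ext.none)

def k0_pm_303 : ∃ t, chk3 f_pm_303 t 1 1 1 = true :=
  ⟨(a (b (l 3) (l 3)) (b (l 3) (a (l 3) (b (l 3) (l 3))))), by decide +kernel⟩

theorem c_pm_303 : CertB 0 1230186008 0 1230186008 1020054732 13421774 3 eng mog cd3q3 cd3q3 pd0 false true false .npn 3 0 3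
    ndB3q3 ndB3q3 pcB0 Cut.none Ext.none :=
  certB0 (fam := false) (s1 := true) (s2 := false) (a := 3) (b := 0) (c := 3) (cn := .npn) (n1 := ndB3q3) (n2 := ndB3q3) (pc := pcB0) (cut := Cut.none) (xt := Ext.none) (P1 := 0) (W1 := 1230186008) (P2 := 0) (W2 := 1230186008) (P3 := 1020054732) (W3 := 13421774) (N0 := 3) (En := eng) (mo := mog) (C1 := cd3q3) (C2 := cd3q3) (C3 := pd0)
    rfl k0_pm_303

noncomputable def f_pm_313 : ℕ → ℕ → ℕ → ℕ → Bool := onCell 0 1230186008 0 1230186008 1020054732 13421774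
    (rowB 3 eng mog cd3q3 cd3q3 pd1 0 false true false .dn 3 1 3 (qsf 0 1230186008 0 1230186008 1) ndB3q3 ndB3q3 pcB1 Cut.none Ext.none)

def k0_pm_313 : ∃ t, chk3 f_pm_313 t 1 1 1 = true :=
  ⟨(a (l 1) (b (l 3) (l 1))), by decide +kernel⟩

theorem c_pm_313 : CertB 0 1230186008 0 1230186008 1020054732 13421774 3 eng mog cd3q3 cd3q3 pd1 false true false .dn 3 1 3
    ndB3q3 ndB3q3 pcB1 Cut.none Ext.none :=
  certB0 (fam := false) (s1 := true) (s2 := false) (a := 3) (b := 1) (c := 3) (cn := .dn) (n1 := ndB3q3) (n2 := ndB3q3) (pc := pcB1) (cut := Cut.none) (xt := Ext.none) (P1 := 0) (W1 := 1230186008) (P2 := 0) (W2 := 1230186008) (P3 := 1020054732) (W3 := 13421774) (N0 := 3) (En := eng) (mo := mog) (C1 := cd3q3) (C2 := cd3q3) (C3 := pd1)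
    rfl k0_pm_313

noncomputable def f_mm_001 : ℕ → ℕ → ℕ → ℕ → Bool := onCell 0 536870912 0 536870912 1020054732 13421774
    (rowB 3 eng mog cd3q0 cd3q1 pd0 1 false false false .up 0 0 1 (qsf 0 536870912 536870912 536870912 0) ndB3q0 ndB3q1 pcB0 Cut.none Ext.none)

def k0_mm_001 : ∃ t, chk3 f_mm_001 t 1 1 1 = true :=
  ⟨(l 3), by decide +kernel⟩

theorem c_mm_001 : CertB 0 536870912 536870912 536870912 1020054732 13421774 3 eng mog cd3q0 cd3q1 pd0 false false false .up 0 0 1
    ndB3q0 ndB3q1 pcB0 Cut.none Ext.none :=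
  certB1 (fam := false) (s1 := false) (s2 := false) (a := 0) (b := 0) (c := 1) (cn := .up) (n1 := ndB3q0) (n2 := ndB3q1) (pc := pcB0) (cut := Cut.none) (xt := Ext.none) (P1 := 0) (W1 := 536870912) (P2 := 536870912) (W2 := 536870912) (P3 := 1020054732) (W3 := 13421774) (N0 := 3) (En := eng) (mo := mog) (C1 := cd3q0) (C2 := cd3q1) (C3 := pd0)
    rfl (fun _ => rfl) k0_mm_001

noncomputable def f_mm_011 : ℕ → ℕ → ℕ → ℕ → Bool := onCell 0 536870912 536870912 536870912 1020054732 13421774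
    (rowB 3 eng mog cd3q0 cd3q1 pd1 1 false false false .pnn 0 1 1 (qsf 0 536870912 536870912 536870912 1) ndB3q0 ndB3q1 pcB1 Cut.none Ext.none)

def k0_mm_011 : ∃ t, chk3 f_mm_011 t 1 1 1 = true :=
  ⟨(l 5), by decide +kernel⟩

theorem c_mm_011 : CertB 0 536870912 536870912 536870912 1020054732 13421774 3 eng mog cd3q0 cd3q1 pd1 false false false .pnn 0 1 1
    ndB3q0 ndB3q1 pcB1 Cut.none Ext.none :=
  certB1 (fam := false) (s1 := false) (s2 := false) (a := 0) (b := 1) (c := 1) (cn := .pnn) (n1 := ndB3q0) (n2 := ndB3q1) (pc := pcB1) (cut := Cut.none) (xt := Ext.none) (P1 := 0) (W1 := 536870912) (P2 := 536870912) (W2 := 536870912) (P3 := 1020054732) (W3 := 13421774) (N0 := 3) (En := eng) (mo := mog) (C1 := cd3q0) (C2 := cd3q1) (C3 := pd1)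
    rfl (fun _ => rfl) k0_mm_011

noncomputable def f_mm_012 : ℕ → ℕ → ℕ → ℕ → Bool := onCell 0 536870912 1073741824 536870912 1020054732 13421774
    (rowB 3 eng mog cd3q0 cd3q2 pd1 0 false false false .pnp 0 1 2 (qsf 0 536870912 1073741824 536870912 1) ndB3q0 ndB3q2 pcB1 Cut.none Ext.none)

def k0_mm_012 : ∃ t, chk3 f_mm_012 t 1 1 1 = true :=
  ⟨(l 5), by decide +kernel⟩

theorem c_mm_012 : CertB 0 536870912 1073741824 536870912 1020054732 13421774 3 eng mog cd3q0 cd3q2 pd1 false false false .pnp 0 1 2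
    ndB3q0 ndB3q2 pcB1 Cut.none Ext.none :=
  certB0 (fam := false) (s1 := false) (s2 := false) (a := 0) (b := 1) (c := 2) (cn := .pnp) (n1 := ndB3q0) (n2 := ndB3q2) (pc := pcB1) (cut := Cut.none) (xt := Ext.none) (P1 := 0) (W1 := 536870912) (P2 := 1073741824) (W2 := 536870912) (P3 := 1020054732) (W3 := 13421774) (N0 := 3) (En := eng) (mo := mog) (C1 := cd3q0) (C2 := cd3q2) (C3 := pd1)
    rfl k0_mm_012

noncomputable def f_mm_022 : ℕ → ℕ → ℕ → ℕ → Bool := onCell 0 536870912 1073741824 536870912 1020054732 13421774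
    (rowB 3 eng mog cd3q0 cd3q2 pd2 0 false false false .pp 0 2 2 (qsf 0 536870912 1073741824 536870912 2) ndB3q0 ndB3q2 pcB2 Cut.none Ext.none)

def k0_mm_022 : ∃ t, chk3 f_mm_022 t 1 1 1 = true :=
  ⟨(l 5), by decide +kernel⟩

theorem c_mm_022 : CertB 0 536870912 1073741824 536870912 1020054732 13421774 3 eng mog cd3q0 cd3q2 pd2 false false false .pp 0 2 2
    ndB3q0 ndB3q2 pcB2 Cut.none Ext.none :=
  certB0 (fam := false) (s1 := false) (s2 := false) (a := 0) (b := 2) (c := 2) (cn := .pp) (n1 := ndB3q0) (n2 := ndB3q2) (pc := pcB2) (cut := Cut.none) (xt := Ext.none) (P1 := 0) (W1 := 536870912) (P2 := 1073741824) (W2 := 536870912) (P3 := 1020054732) (W3 := 13421774) (N0 := 3) (En := eng) (mo := mog) (C1 := cd3q0) (C2 := cd3q2) (C3 := pd2)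
    rfl k0_mm_022

noncomputable def f_mm_023 : ℕ → ℕ → ℕ → ℕ → Bool := onCell 0 536870912 0 1230186008 1020054732 13421774
    (rowB 3 eng mog cd3q0 cd3q3 pd2 0 false false false .up 0 2 3 (qsf 0 536870912 0 1230186008 2) ndB3q0 ndB3q3 pcB2 Cut.none Ext.none)

def k0_mm_023 : ∃ t, chk3 f_mm_023 t 1 1 1 = true :=
  ⟨(l 5), by decide +kernel⟩

theorem c_mm_023 : CertB 0 536870912 0 1230186008 1020054732 13421774 3 eng mog cd3q0 cd3q3 pd2 false false false .up 0 2 3
    ndB3q0 ndB3q3 pcB2 Cut.none Ext.none :=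
  certB0 (fam := false) (s1 := false) (s2 := false) (a := 0) (b := 2) (c := 3) (cn := .up) (n1 := ndB3q0) (n2 := ndB3q3) (pc := pcB2) (cut := Cut.none) (xt := Ext.none) (P1 := 0) (W1 := 536870912) (P2 := 0) (W2 := 1230186008) (P3 := 1020054732) (W3 := 13421774) (N0 := 3) (En := eng) (mo := mog) (C1 := cd3q0) (C2 := cd3q3) (C3 := pd2)
    rfl k0_mm_023

noncomputable def f_mm_033 : ℕ → ℕ → ℕ → ℕ → Bool := onCell 0 536870912 0 1230186008 1020054732 13421774
    (rowB 3 eng mog cd3q0 cd3q3 pd3 0 false false false .pnn 0 3 3 (qsf 0 536870912 0 1230186008 3) ndB3q0 ndB3q3 pcB3 Cut.none Ext.none)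

def k0_mm_033 : ∃ t, chk3 f_mm_033 t 1 1 1 = true :=
  ⟨(l 5), by decide +kernel⟩

theorem c_mm_033 : CertB 0 536870912 0 1230186008 1020054732 13421774 3 eng mog cd3q0 cd3q3 pd3 false false false .pnn 0 3 3
    ndB3q0 ndB3q3 pcB3 Cut.none Ext.none :=
  certB0 (fam := false) (s1 := false) (s2 := false) (a := 0) (b := 3) (c := 3) (cn := .pnn) (n1 := ndB3q0) (n2 := ndB3q3) (pc := pcB3) (cut := Cut.none) (xt := Ext.none) (P1 := 0) (W1 := 536870912) (P2 := 0) (W2 := 1230186008) (P3 := 1020054732) (W3 := 13421774) (N0 := 3) (En := eng) (mo := mog) (C1 := cd3q0) (C2 := cd3q3) (C3 := pd3)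
    rfl k0_mm_033

noncomputable def f_mm_101 : ℕ → ℕ → ℕ → ℕ → Bool := onCell 536870912 536870912 536870912 536870912 1020054732 13421774
    (rowB 3 eng mog cd3q1 cd3q1 pd0 0 false false false .npn 1 0 1 (qsf 536870912 536870912 536870912 536870912 0) ndB3q1 ndB3q1 pcB0 Cut.none Ext.none)

def k0_mm_101 : ∃ t, chk3 f_mm_101 t 1 1 1 = true :=
  ⟨(l 3), by decide +kernel⟩

theorem c_mm_101 : CertB 536870912 536870912 536870912 536870912 1020054732 13421774 3 eng mog cd3q1 cd3q1 pd0 false false false .npn 1 0 1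
    ndB3q1 ndB3q1 pcB0 Cut.none Ext.none :=
  certB0 (fam := false) (s1 := false) (s2 := false) (a := 1) (b := 0) (c := 1) (cn := .npn) (n1 := ndB3q1) (n2 := ndB3q1) (pc := pcB0) (cut := Cut.none) (xt := Ext.none) (P1 := 536870912) (W1 := 536870912) (P2 := 536870912) (W2 := 536870912) (P3 := 1020054732) (W3 := 13421774) (N0 := 3) (En := eng) (mo := mog) (C1 := cd3q1) (C2 := cd3q1) (C3 := pd0)
    rfl k0_mm_101

noncomputable def f_mm_102 : ℕ → ℕ → ℕ → ℕ → Bool := onCell 536870912 536870912 1073741824 536870912 1020054732 13421774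
    (rowB 3 eng mog cd3q1 cd3q2 pd0 0 false false false .npp 1 0 2 (qsf 536870912 536870912 1073741824 536870912 0) ndB3q1 ndB3q2 pcB0 Cut.none Ext.none)

def k0_mm_102 : ∃ t, chk3 f_mm_102 t 1 1 1 = true :=
  ⟨(l 5), by decide +kernel⟩

theorem c_mm_102 : CertB 536870912 536870912 1073741824 536870912 1020054732 13421774 3 eng mog cd3q1 cd3q2 pd0 false false false .npp 1 0 2
    ndB3q1 ndB3q2 pcB0 Cut.none Ext.none :=
  certB0 (fam := false) (s1 := false) (s2 := false) (a := 1) (b := 0) (c := 2) (cn := .npp) (n1 := ndB3q1) (n2 := ndB3q2) (pc := pcB0) (cut := Cut.none) (xt := Ext.none) (P1 := 536870912) (W1 := 536870912) (P2 := 1073741824) (W2 := 536870912) (P3 := 1020054732) (W3 := 13421774) (N0 := 3) (En := eng) (mo := mog) (C1 := cd3q1) (C2 := cd3q2) (C3 := pd0)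
    rfl k0_mm_102

noncomputable def f_mm_112 : ℕ → ℕ → ℕ → ℕ → Bool := onCell 536870912 536870912 1073741824 536870912 1020054732 13421774
    (rowB 3 eng mog cd3q1 cd3q2 pd1 0 false false false .dn 1 1 2 (qsf 536870912 536870912 1073741824 536870912 1) ndB3q1 ndB3q2 pcB1 Cut.none Ext.none)

def k0_mm_112 : ∃ t, chk3 f_mm_112 t 1 1 1 = true :=
  ⟨(l 5), by decide +kernel⟩

theorem c_mm_112 : CertB 536870912 536870912 1073741824 536870912 1020054732 13421774 3 eng mog cd3q1 cd3q2 pd1 false false false .dn 1 1 2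
    ndB3q1 ndB3q2 pcB1 Cut.none Ext.none :=
  certB0 (fam := false) (s1 := false) (s2 := false) (a := 1) (b := 1) (c := 2) (cn := .dn) (n1 := ndB3q1) (n2 := ndB3q2) (pc := pcB1) (cut := Cut.none) (xt := Ext.none) (P1 := 536870912) (W1 := 536870912) (P2 := 1073741824) (W2 := 536870912) (P3 := 1020054732) (W3 := 13421774) (N0 := 3) (En := eng) (mo := mog) (C1 := cd3q1) (C2 := cd3q2) (C3 := pd1)
    rfl k0_mm_112

noncomputable def f_mm_113 : ℕ → ℕ → ℕ → ℕ → Bool := onCell 536870912 536870912 0 1230186008 1020054732 13421774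
    (rowB 3 eng mog cd3q1 cd3q3 pd1 0 false false false .nn 1 1 3 (qsf 536870912 536870912 0 1230186008 1) ndB3q1 ndB3q3 pcB1 Cut.none Ext.none)

def k0_mm_113 : ∃ t, chk3 f_mm_113 t 1 1 1 = true :=
  ⟨(l 5), by decide +kernel⟩

theorem c_mm_113 : CertB 536870912 536870912 0 1230186008 1020054732 13421774 3 eng mog cd3q1 cd3q3 pd1 false false false .nn 1 1 3
    ndB3q1 ndB3q3 pcB1 Cut.none Ext.none :=
  certB0 (fam := false) (s1 := false) (s2 := false) (a := 1) (b := 1) (c := 3) (cn := .nn) (n1 := ndB3q1) (n2 := ndB3q3) (pc := pcB1) (cut := Cut.none) (xt := Ext.none) (P1 := 536870912) (W1 := 536870912) (P2 := 0) (W2 := 1230186008) (P3 := 1020054732) (W3 := 13421774) (N0 := 3) (En := eng) (mo := mog) (C1 := cd3q1) (C2 := cd3q3) (C3 := pd1)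
    rfl k0_mm_113

noncomputable def f_mm_123 : ℕ → ℕ → ℕ → ℕ → Bool := onCell 536870912 536870912 0 1230186008 1020054732 13421774
    (rowB 3 eng mog cd3q1 cd3q3 pd2 0 false false false .npn 1 2 3 (qsf 536870912 536870912 0 1230186008 2) ndB3q1 ndB3q3 pcB2 Cut.none Ext.none)

def k0_mm_123 : ∃ t, chk3 f_mm_123 t 1 1 1 = true :=
  ⟨(l 5), by decide +kernel⟩

theorem c_mm_123 : CertB 536870912 536870912 0 1230186008 1020054732 13421774 3 eng mog cd3q1 cd3q3 pd2 false false false .npn 1 2 3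
    ndB3q1 ndB3q3 pcB2 Cut.none Ext.none :=
  certB0 (fam := false) (s1 := false) (s2 := false) (a := 1) (b := 2) (c := 3) (cn := .npn) (n1 := ndB3q1) (n2 := ndB3q3) (pc := pcB2) (cut := Cut.none) (xt := Ext.none) (P1 := 536870912) (W1 := 536870912) (P2 := 0) (W2 := 1230186008) (P3 := 1020054732) (W3 := 13421774) (N0 := 3) (En := eng) (mo := mog) (C1 := cd3q1) (C2 := cd3q3) (C3 := pd2)
    rfl k0_mm_123

noncomputable def f_mm_133 : ℕ → ℕ → ℕ → ℕ → Bool := onCell 536870912 536870912 0 1230186008 1020054732 13421774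
    (rowB 3 eng mog cd3q1 cd3q3 pd3 0 false false false .dn 1 3 3 (qsf 536870912 536870912 0 1230186008 3) ndB3q1 ndB3q3 pcB3 Cut.none Ext.none)

def k0_mm_133 : ∃ t, chk3 f_mm_133 t 1 1 1 = true :=
  ⟨(l 5), by decide +kernel⟩

theorem c_mm_133 : CertB 536870912 536870912 0 1230186008 1020054732 13421774 3 eng mog cd3q1 cd3q3 pd3 false false false .dn 1 3 3
    ndB3q1 ndB3q3 pcB3 Cut.none Ext.none :=
  certB0 (fam := false) (s1 := false) (s2 := false) (a := 1) (b := 3) (c := 3) (cn := .dn) (n1 := ndB3q1) (n2 := ndB3q3) (pc := pcB3) (cut := Cut.none) (xt := Ext.none) (P1 := 536870912) (W1 := 536870912) (P2 := 0) (W2 := 1230186008) (P3 := 1020054732) (W3 := 13421774) (N0 := 3) (En := eng) (mo := mog) (C1 := cd3q1) (C2 := cd3q3) (C3 := pd3)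
    rfl k0_mm_133

noncomputable def f_mm_202 : ℕ → ℕ → ℕ → ℕ → Bool := onCell 1073741824 536870912 1073741824 536870912 1020054732 13421774
    (rowB 3 eng mog cd3q2 cd3q2 pd0 0 false false false .pp 2 0 2 (qsf 1073741824 536870912 1073741824 536870912 0) ndB3q2 ndB3q2 pcB0 Cut.none Ext.none)

def k0_mm_202 : ∃ t, chk3 f_mm_202 t 1 1 1 = true :=
  ⟨(l 3), by decide +kernel⟩

theorem c_mm_202 : CertB 1073741824 536870912 1073741824 536870912 1020054732 13421774 3 eng mog cd3q2 cd3q2 pd0 false false false .pp 2 0 2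
    ndB3q2 ndB3q2 pcB0 Cut.none Ext.none :=
  certB0 (fam := false) (s1 := false) (s2 := false) (a := 2) (b := 0) (c := 2) (cn := .pp) (n1 := ndB3q2) (n2 := ndB3q2) (pc := pcB0) (cut := Cut.none) (xt := Ext.none) (P1 := 1073741824) (W1 := 536870912) (P2 := 1073741824) (W2 := 536870912) (P3 := 1020054732) (W3 := 13421774) (N0 := 3) (En := eng) (mo := mog) (C1 := cd3q2) (C2 := cd3q2) (C3 := pd0)
    rfl k0_mm_202

noncomputable def f_mm_203 : ℕ → ℕ → ℕ → ℕ → Bool := onCell 1073741824 536870912 0 1230186008 1020054732 13421774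
    (rowB 3 eng mog cd3q2 cd3q3 pd0 0 false false false .up 2 0 3 (qsf 1073741824 536870912 0 1230186008 0) ndB3q2 ndB3q3 pcB0 Cut.none Ext.none)

def k0_mm_203 : ∃ t, chk3 f_mm_203 t 1 1 1 = true :=
  ⟨(b (l 5) (l 3)), by decide +kernel⟩

theorem c_mm_203 : CertB 1073741824 536870912 0 1230186008 1020054732 13421774 3 eng mog cd3q2 cd3q3 pd0 false false false .up 2 0 3
    ndB3q2 ndB3q3 pcB0 Cut.none Ext.none :=
  certB0 (fam := false) (s1 := false) (s2 := false) (a := 2) (b := 0) (c := 3) (cn := .up) (n1 := ndB3q2) (n2 := ndB3q3) (pc := pcB0) (cut := Cut.none) (xt := Ext.none) (P1 := 1073741824) (W1 := 536870912) (P2 := 0) (W2 := 1230186008) (P3 := 1020054732) (W3 := 13421774) (N0 := 3) (En := eng) (mo := mog) (C1 := cd3q2) (C2 := cd3q3) (C3 := pd0)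
    rfl k0_mm_203

noncomputable def f_mm_213 : ℕ → ℕ → ℕ → ℕ → Bool := onCell 1073741824 536870912 0 1230186008 1020054732 13421774
    (rowB 3 eng mog cd3q2 cd3q3 pd1 0 false false false .pnn 2 1 3 (qsf 1073741824 536870912 0 1230186008 1) ndB3q2 ndB3q3 pcB1 Cut.none Ext.none)

def k0_mm_213 : ∃ t, chk3 f_mm_213 t 1 1 1 = true :=
  ⟨(b (l 5) (l 3)), by decide +kernel⟩

theorem c_mm_213 : CertB 1073741824 536870912 0 1230186008 1020054732 13421774 3 eng mog cd3q2 cd3q3 pd1 false false false .pnn 2 1 3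
    ndB3q2 ndB3q3 pcB1 Cut.none Ext.none :=
  certB0 (fam := false) (s1 := false) (s2 := false) (a := 2) (b := 1) (c := 3) (cn := .pnn) (n1 := ndB3q2) (n2 := ndB3q3) (pc := pcB1) (cut := Cut.none) (xt := Ext.none) (P1 := 1073741824) (W1 := 536870912) (P2 := 0) (W2 := 1230186008) (P3 := 1020054732) (W3 := 13421774) (N0 := 3) (En := eng) (mo := mog) (C1 := cd3q2) (C2 := cd3q3) (C3 := pd1)
    rfl k0_mm_213

noncomputable def f_mm_303 : ℕ → ℕ → ℕ → ℕ → Bool := onCell 0 1230186008 0 1230186008 1020054732 13421774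
    (rowB 3 eng mog cd3q3 cd3q3 pd0 0 false false false .npn 3 0 3 (qsf 0 1230186008 0 1230186008 0) ndB3q3 ndB3q3 pcB0 Cut.none Ext.none)

def k0_mm_303 : ∃ t, chk3 f_mm_303 t 1 1 1 = true :=
  ⟨(a (b (l 3) (l 3)) (b (l 3) (l 3))), by decide +kernel⟩

theorem c_mm_303 : CertB 0 1230186008 0 1230186008 1020054732 13421774 3 eng mog cd3q3 cd3q3 pd0 false false false .npn 3 0 3
    ndB3q3 ndB3q3 pcB0 Cut.none Ext.none :=
  certB0 (fam := false) (s1 := false) (s2 := false) (a := 3) (b := 0) (c := 3) (cn := .npn) (n1 := ndB3q3) (n2 := ndB3q3) (pc := pcB0) (cut := Cut.none) (xt := Ext.none) (P1 := 0) (W1 := 1230186008) (P2 := 0) (W2 := 1230186008) (P3 := 1020054732) (W3 := 13421774) (N0 := 3) (En := eng) (mo := mog) (C1 := cd3q3) (C2 := cd3q3) (C3 := pd0)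
    rfl k0_mm_303

noncomputable def f_mm_313 : ℕ → ℕ → ℕ → ℕ → Bool := onCell 0 1230186008 0 1230186008 1020054732 13421774
    (rowB 3 eng mog cd3q3 cd3q3 pd1 0 false false false .dn 3 1 3 (qsf 0 1230186008 0 1230186008 1) ndB3q3 ndB3q3 pcB1 Cut.none Ext.none)

def k0_mm_313 : ∃ t, chk3 f_mm_313 t 1 1 1 = true :=
  ⟨(a (l 1) (b (l 3) (l 1))), by decide +kernel⟩

theorem c_mm_313 : CertB 0 1230186008 0 1230186008 1020054732 13421774 3 eng mog cd3q3 cd3q3 pd1 false false false .dn 3 1 3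
    ndB3q3 ndB3q3 pcB1 Cut.none Ext.none :=
  certB0 (fam := false) (s1 := false) (s2 := false) (a := 3) (b := 1) (c := 3) (cn := .dn) (n1 := ndB3q3) (n2 := ndB3q3) (pc := pcB1) (cut := Cut.none) (xt := Ext.none) (P1 := 0) (W1 := 1230186008) (P2 := 0) (W2 := 1230186008) (P3 := 1020054732) (W3 := 13421774) (N0 := 3) (En := eng) (mo := mog) (C1 := cd3q3) (C2 := cd3q3) (C3 := pd1)
    rfl k0_mm_313

end Pool.Agent.Strip051.G.I9500_9625.Tab.C.BB33

namespace Pool.Agent.Strip051.G.I9500_9625.Tab.C.BB34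

open Pool.Agent.Strip051.PB Pool.Agent.Strip051.PB.T
open Pool.Agent.Strip051.G.I9500_9625.Tab

noncomputable def f_pp_001 : ℕ → ℕ → ℕ → ℕ → Bool := onCell 0 536870912 0 536870912 1020054732 13421774
    (rowB 3 eng mog cd3q0 cd4q1 pd0 1 false true true .up 0 0 1 (qsf 0 536870912 536870912 536870912 0) ndB3q0 ndB4q1 pcB0 Cut.none Ext.none)

def k0_pp_001 : ∃ t, chk3 f_pp_001 t 1 1 1 = true :=
  ⟨(l 3), by decide +kernel⟩

theorem c_pp_001 : CertB 0 536870912 536870912 536870912 1020054732 13421774 3 eng mog cd3q0 cd4q1 pd0 false true true .up 0 0 1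
    ndB3q0 ndB4q1 pcB0 Cut.none Ext.none :=
  certB1 (fam := false) (s1 := true) (s2 := true) (a := 0) (b := 0) (c := 1) (cn := .up) (n1 := ndB3q0) (n2 := ndB4q1) (pc := pcB0) (cut := Cut.none) (xt := Ext.none) (P1 := 0) (W1 := 536870912) (P2 := 536870912) (W2 := 536870912) (P3 := 1020054732) (W3 := 13421774) (N0 := 3) (En := eng) (mo := mog) (C1 := cd3q0) (C2 := cd4q1) (C3 := pd0)
    rfl (fun _ => rfl) k0_pp_001

noncomputable def f_pp_011 : ℕ → ℕ → ℕ → ℕ → Bool := onCell 0 536870912 536870912 536870912 1020054732 13421774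
    (rowB 3 eng mog cd3q0 cd4q1 pd1 0 false true true .pnn 0 1 1 (qsf 0 536870912 536870912 536870912 1) ndB3q0 ndB4q1 pcB1 Cut.none Ext.none)

def k0_pp_011 : ∃ t, chk3 f_pp_011 t 1 1 1 = true :=
  ⟨(a (b (l 3) (a (l 3) (l 3))) (l 3)), by decide +kernel⟩

theorem c_pp_011 : CertB 0 536870912 536870912 536870912 1020054732 13421774 3 eng mog cd3q0 cd4q1 pd1 false true true .pnn 0 1 1
    ndB3q0 ndB4q1 pcB1 Cut.none Ext.none :=
  certB0 (fam := false) (s1 := true) (s2 := true) (a := 0) (b := 1) (c := 1) (cn := .pnn) (n1 := ndB3q0) (n2 := ndB4q1) (pc := pcB1) (cut := Cut.none) (xt := Ext.none) (P1 := 0) (W1 := 536870912) (P2 := 536870912) (W2 := 536870912) (P3 := 1020054732) (W3 := 13421774) (N0 := 3) (En := eng) (mo := mog) (C1 := cd3q0) (C2 := cd4q1) (C3 := pd1)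
    rfl k0_pp_011

noncomputable def f_pp_012 : ℕ → ℕ → ℕ → ℕ → Bool := onCell 0 536870912 536870912 536870912 1020054732 13421774
    (rowB 3 eng mog cd3q0 cd4q2 pd1 1 false true true .pnp 0 1 2 (qsf 0 536870912 1073741824 536870912 1) ndB3q0 ndB4q2 pcB1 Cut.none Ext.none)

def k0_pp_012 : ∃ t, chk3 f_pp_012 t 1 1 1 = true :=
  ⟨(a (l 3) (a (l 3) (a (l 3) (b (l 3) (l 3))))), by decide +kernel⟩

theorem c_pp_012 : CertB 0 536870912 1073741824 536870912 1020054732 13421774 3 eng mog cd3q0 cd4q2 pd1 false true true .pnp 0 1 2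
    ndB3q0 ndB4q2 pcB1 Cut.none Ext.none :=
  certB1 (fam := false) (s1 := true) (s2 := true) (a := 0) (b := 1) (c := 2) (cn := .pnp) (n1 := ndB3q0) (n2 := ndB4q2) (pc := pcB1) (cut := Cut.none) (xt := Ext.none) (P1 := 0) (W1 := 536870912) (P2 := 1073741824) (W2 := 536870912) (P3 := 1020054732) (W3 := 13421774) (N0 := 3) (En := eng) (mo := mog) (C1 := cd3q0) (C2 := cd4q2) (C3 := pd1)
    rfl (fun _ => rfl) k0_pp_012

noncomputable def f_pp_022 : ℕ → ℕ → ℕ → ℕ → Bool := onCell 0 536870912 1073741824 536870912 1020054732 13421774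
    (rowB 3 eng mog cd3q0 cd4q2 pd2 1 false true true .pp 0 2 2 (qsf 0 536870912 1073741824 536870912 2) ndB3q0 ndB4q2 pcB2 Cut.none Ext.none)

def k0_pp_022 : ∃ t, chk3 f_pp_022 t 2 2 1 = true :=
  ⟨(a (b (l 3) (b (b (b (l 3) (b (a (a (l 3) (l 3)) (a (l 3) (l 14772872))) (a (a (a (b (l 15683688) (b (l 15663096) (l 15649872))) (b (a (l 15537648) (l 3)) (a (l 15512552) (l 15396232)))) (b (l 3) (a (a (l 15345360) (l 15288896)) (l 15182752)))) (b (a (l 3) (l 14735968)) (a (l 15002936) (b (l 14749264) (a (l 14805688) (l 14682352)))))))) (a (a (a (l 15537912) (a (l 15404424) (l 15316056))) (a (a (l 15249968) (l 15198464)) (c (l 15139280) (l 15102432)))) (a (l 14937736) (b (l 14719408) (l 14661008))))) (a (a (a (b (l 15346120) (l 15178240)) (a (l 15153184) (a (l 15100920) (l 15066760)))) (a (a (l 15032072) (l 14993512)) (a (l 14956872) (l 14915536)))) (a (b (b (l 14861488) (l 14796584)) (l 14758504)) (b (a (l 14686704) (l 14577536)) (l 14575056)))))) (b (b (l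 3) (b (l 3) (a (l 3) (b (l 3) (a (l 667493397607) (l 13887584)))))) (b (b (b (a (a (l 3) (b (l 3) (l 14308704))) (a (b (l 14097656) (l 316379913655)) (b (l 13907176) (l 13949896)))) (b (a (a (a (l 14586208) (l 14469800)) (a (l 14360016) (l 14253288))) (a (a (l 14149232) (l 14044944)) (l 13888280))) (b (a (a (a (l 14576336) (l 14462864)) (a (l 14351160) (l 14238656))) (l 13968640)) (a (a (b (l 14486592) (a (l 14557896) (l 14431016))) (b (l 14270288) (l 14253232))) (b (l 13955208) (l 13948168)))))) (a (a (a (l 14519184) (l 14402232)) (l 14261184)) (a (l 14049384) (l 13887424)))) (a (a (b (l 14421640) (l 14398896)) (l 14242584)) (a (b (l 14082528) (l 14128416)) (c (l 14025816) (l 13951928))))))), by decide +kernel⟩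

def k1_pp_022 : ∃ t, chk3 f_pp_022 t 2 3 1 = true :=
  ⟨(a (b (a (a (a (b (l 14970336) (l 14769912)) (a (b (l 14898832) (l 14731904)) (b (l 14852416) (l 14708200)))) (a (b (c (l 14810864) (l 14784256)) (a (l 14818784) (l 14658904))) (b (c (l 14769448) (l 14741448)) (l 14651344)))) (b (a (b (l 14693352) (l 14639256)) (l 14517528)) (a (l 14576736) (l 14492448)))) (a (b (a (a (l 14628536) (a (l 14634752) (l 14598672))) (a (l 14595712) (l 14574400))) (a (a (l 14567552) (a (l 14558928) (l 14553768))) (a (l 14549760) (l 14547032)))) (b (a (l 14542784) (l 14513024)) (a (b (l 14545936) (l 2)) (l 2))))) (b (b (a (a (l 14393408) (l 14292528)) (a (l 14214064) (l 14156336))) (a (a (l 14428616) (l 14382256)) (a (l 14355080) (l 2)))) (b (a (a (l 14495008) (l 2)) (l 2)) (l 2)))), by decide +kernel⟩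

def k2_pp_022 : ∃ t, chk3 f_pp_022 t 3 1 1 = true :=
  ⟨(a (a (a (b (b (b (l 3) (b (l 3) (b (l 13667624) (b (l 13702584) (l 13719704))))) (b (b (b (b (l 13723528) (l 13714400)) (b (l 13709392) (c (l 13991912) (l 13673688)))) (l 13754128)) (l 13900416))) (b (b (l 14127320) (l 2)) (l 2))) (b (b (b (l 3) (b (l 619710046295) (b (b (l 13493240) (l 13519112)) (a (l 13584784) (l 13498144))))) (b (b (b (l 13753664) (b (l 13565792) (l 13576576))) (l 13648392)) (l 13841576))) (l 2))) (b (b (b (l 3) (b (c (b (l 541862702855) (a (l 285776574087) (l 13148912))) (b (l 554210769415) (a (l 13284328) (l 13172104)))) (a (b (b (l 13344424) (l 13359048)) (l 13372120)) (c (l 13237800) (l 13233104))))) (b (b (b (a (l 13419816) (l 13331832)) (b (l 13421560) (l 13453960))) (l 13552528)) (a (l 13814256) (l 2)))) (l 2))) (b (b (b (b (a (l 3) (a (b (l 3) (l 12541968)) (l 258394521255))) (a (a (c (l 459721842455) (l 12700784)) (a (l 204707042087) (b (l 12681952) (l 12777304))))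 (a (b (l 12642328) (l 12730040)) (l 12650272)))) (a (b (a (b (l 12810600) (l 13008280)) (c (l 12907472) (l 12931488))) (a (b (l 13103656) (l 13190544)) (l 13108768))) (b (a (l 12878016) (l 2)) (l 2)))) (b (b (a (b (l 13272928) (l 2)) (l 2)) (l 2)) (l 2))) (l 2))), by decide +kernel⟩

theorem s3_pp_022 : ∃ t, chk3 f_pp_022 t 2 1 1 = true := ex3_b k0_pp_022 k1_pp_022

theorem s4_pp_022 : ∃ t, chk3 f_pp_022 t 1 1 1 = true := ex3_a s3_pp_022 k2_pp_022

theorem c_pp_022 : CertB 0 536870912 1073741824 536870912 1020054732 13421774 3 eng mog cd3q0 cd4q2 pd2 false true true .pp 0 2 2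
    ndB3q0 ndB4q2 pcB2 Cut.none Ext.none :=
  certB1 (fam := false) (s1 := true) (s2 := true) (a := 0) (b := 2) (c := 2) (cn := .pp) (n1 := ndB3q0) (n2 := ndB4q2) (pc := pcB2) (cut := Cut.none) (xt := Ext.none) (P1 := 0) (W1 := 536870912) (P2 := 1073741824) (W2 := 536870912) (P3 := 1020054732) (W3 := 13421774) (N0 := 3) (En := eng) (mo := mog) (C1 := cd3q0) (C2 := cd4q2) (C3 := pd2)
    rfl (fun _ => rfl) s4_pp_022

noncomputable def f_pp_023 : ℕ → ℕ → ℕ → ℕ → Bool := onCell 0 536870912 0 1230186008 1020054732 13421774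
    (rowB 3 eng mog cd3q0 cd4q3 pd2 0 false true true .up 0 2 3 (qsf 0 536870912 0 1230186008 2) ndB3q0 ndB4q3 pcB2 Cut.none Ext.none)

def k0_pp_023 : ∃ t, chk3 f_pp_023 t 1 1 1 = true :=
  ⟨(a (b (l 2) (b (b (l 2) (a (l 2) (a (l 2) (l 384497766247)))) (b (a (l 2) (b (a (l 15976024) (l 16002856)) (a (b (l 16153480) (l 16228992)) (l 15984680)))) (a (b (a (l 2) (a (l 15730936) (l 16013400))) (a (a (a (l 15093944) (a (l 15245688) (l 15348680))) (a (l 15447128) (l 15545408))) (a (l 15758592) (l 16050400)))) (b (a (l 16219656) (l 16238432)) (a (a (l 16336096) (l 16374888)) (l 16227864))))))) (b (a (l 2) (b (l 4) (b (a (b (l 2) (l 16074104)) (b (l 15759208) (l 16207016))) (b (a (l 16694728) (l 16475672)) (a (l 15914808) (l 15767792)))))) (b (b (a (b (a (l 2) (l 15608576)) (l 15630008)) (a (l 15601288) (l 15603640))) (a (b (l 15735408) (l 15644584)) (b (l 15658920) (l 15493208)))) (a (b (b (a (l 15960320) (l 15852056)) (a (l 15991752) (l 15863656))) (a (b (b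 (l 16082408) (l 16052024)) (l 15841192)) (b (l 15799960) (b (l 15685656) (a (l 15693096) (c (l 15442952) (l 15551200))))))) (b (a (b (l 15681800) (l 15605696)) (b (l 15455280) (l 15293104))) (b (a (b (l 15507672) (a (l 15508960) (c (l 15253032) (l 15396064)))) (b (l 15128184) (b (l 15029232) (a (l 15068600) (l 14840936))))) (a (b (c (a (l 15354408) (l 15132552)) (l 15278952)) (a (b (l 15309464) (l 15245440)) (l 15038048))) (b (a (l 14952184) (l 14709296)) (b (l 14697696) (a (l 14748600) (a (l 14530560) (l 14380472)))))))))))), by decide +kernel⟩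

theorem c_pp_023 : CertB 0 536870912 0 1230186008 1020054732 13421774 3 eng mog cd3q0 cd4q3 pd2 false true true .up 0 2 3
    ndB3q0 ndB4q3 pcB2 Cut.none Ext.none :=
  certB0 (fam := false) (s1 := true) (s2 := true) (a := 0) (b := 2) (c := 3) (cn := .up) (n1 := ndB3q0) (n2 := ndB4q3) (pc := pcB2) (cut := Cut.none) (xt := Ext.none) (P1 := 0) (W1 := 536870912) (P2 := 0) (W2 := 1230186008) (P3 := 1020054732) (W3 := 13421774) (N0 := 3) (En := eng) (mo := mog) (C1 := cd3q0) (C2 := cd4q3) (C3 := pd2)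
    rfl k0_pp_023

noncomputable def f_pp_033 : ℕ → ℕ → ℕ → ℕ → Bool := onCell 0 536870912 0 1230186008 1020054732 13421774
    (rowB 3 eng mog cd3q0 cd4q3 pd3 0 false true true .pnn 0 3 3 (qsf 0 536870912 0 1230186008 3) ndB3q0 ndB4q3 pcB3 Cut.none Ext.none)

def k0_pp_033 : ∃ t, chk3 f_pp_033 t 1 2 1 = true :=
  ⟨(b (a (l 4) (l 4)) (a (b (l 4) (a (a (a (a (l 4) (a (l 15122016) (l 15300240))) (a (b (l 4) (l 15258200)) (l 15296208))) (a (l 15562496) (l 15811568))) (a (a (l 16051984) (l 16279680)) (l 16475728)))) (a (a (b (l 16237576) (l 16141952)) (b (l 15882712) (b (l 15999048) (l 15953976)))) (b (a (b (l 15791248) (l 15795328)) (l 15429440)) (a (l 15531368) (l 792988831703)))))), by decide +kernel⟩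

def k1_pp_033 : ∃ t, chk3 f_pp_033 t 1 6 1 = true :=
  ⟨(a (b (a (a (a (a (b (l 14851672) (l 14803096)) (b (a (l 15000640) (l 15099808)) (a (l 14952896) (l 15054296)))) (b (a (l 15191312) (l 15279088)) (a (l 15149184) (l 15241152)))) (b (a (l 15475344) (l 15743400)) (l 15583600))) (b (a (l 16128888) (l 16579776)) (a (l 16120048) (l 16592136)))) (a (a (a (a (b (l 14804712) (l 14818880)) (a (b (l 14950864) (l 14961736)) (b (l 15050352) (l 15059544)))) (a (b (l 15143056) (l 15150368)) (b (l 15233424) (l 15239232)))) (b (l 15577040) (l 15562344))) (a (b (l 16124768) (l 16139320)) (l 16625664)))) (b (a (b (a (l 16260944) (l 15914056)) (l 15953640)) (a (l 15606632) (l 1))) (a (a (l 16213752) (l 15831904)) (l 1)))), by decide +kernel⟩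

def k2_pp_033 : ∃ t, chk3 f_pp_033 t 1 7 1 = true :=
  ⟨(a (b (a (b (a (a (a (b (l 14826264) (l 14628200)) (a (b (l 14968112) (l 14987728)) (b (l 15065432) (l 15079752)))) (a (b (l 15155792) (l 15165936)) (b (l 15244520) (l 15250104)))) (a (b (l 15447584) (l 15450960)) (l 15734512))) (a (a (a (b (l 14975808) (l 15075696)) (a (b (l 15091312) (l 15224504)) (b (l 15172824) (l 15300512)))) (a (b (l 15241912) (l 15361728)) (b (l 15306456) (l 15416424)))) (b (a (l 15483912) (l 15752784)) (a (l 15577920) (l 15821464))))) (b (a (l 16157168) (l 16602816)) (a (b (a (l 16031328) (l 16308080)) (a (l 16077472) (l 16337824))) (l 1)))) (a (b (a (a (a (b (b (l 15235640) (l 15314832)) (l 15062016)) (b (a (l 15374576) (l 15444752)) (a (l 15475520) (l 15570016)))) (a (b (l 15497608) (l 15552392)) (b (l 15541840) (l 15679680)))) (a (b (l 15688904) (l 15811584)) (b (l 15915472) (l 16020008)))) (a (a (a (b (l 15217384) (l 15058512)) (a (b (l 15402712) (l 15295520)) (b (l 15524360)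 (l 15423536)))) (a (b (l 15641680) (l 15553480)) (b (l 15749256) (l 1)))) (a (b (c (l 15983680) (l 15822456)) (l 1)) (l 1)))) (b (a (b (l 16092128) (l 1)) (l 1)) (l 1)))) (l 1)), by decide +kernel⟩

theorem s3_pp_033 : ∃ t, chk3 f_pp_033 t 1 3 1 = true := ex3_b k1_pp_033 k2_pp_033

theorem s4_pp_033 : ∃ t, chk3 f_pp_033 t 1 1 1 = true := ex3_b k0_pp_033 s3_pp_033

theorem c_pp_033 : CertB 0 536870912 0 1230186008 1020054732 13421774 3 eng mog cd3q0 cd4q3 pd3 false true true .pnn 0 3 3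
    ndB3q0 ndB4q3 pcB3 Cut.none Ext.none :=
  certB0 (fam := false) (s1 := true) (s2 := true) (a := 0) (b := 3) (c := 3) (cn := .pnn) (n1 := ndB3q0) (n2 := ndB4q3) (pc := pcB3) (cut := Cut.none) (xt := Ext.none) (P1 := 0) (W1 := 536870912) (P2 := 0) (W2 := 1230186008) (P3 := 1020054732) (W3 := 13421774) (N0 := 3) (En := eng) (mo := mog) (C1 := cd3q0) (C2 := cd4q3) (C3 := pd3)
    rfl s4_pp_033

noncomputable def f_pp_101 : ℕ → ℕ → ℕ → ℕ → Bool := onCell 536870912 536870912 536870912 536870912 1020054732 13421774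
    (rowB 3 eng mog cd3q1 cd4q1 pd0 0 false true true .npn 1 0 1 (qsf 536870912 536870912 536870912 536870912 0) ndB3q1 ndB4q1 pcB0 Cut.none Ext.none)

def k0_pp_101 : ∃ t, chk3 f_pp_101 t 1 1 1 = true :=
  ⟨(l 3), by decide +kernel⟩

theorem c_pp_101 : CertB 536870912 536870912 536870912 536870912 1020054732 13421774 3 eng mog cd3q1 cd4q1 pd0 false true true .npn 1 0 1
    ndB3q1 ndB4q1 pcB0 Cut.none Ext.none :=
  certB0 (fam := false) (s1 := true) (s2 := true) (a := 1) (b := 0) (c := 1) (cn := .npn) (n1 := ndB3q1) (n2 := ndB4q1) (pc := pcB0) (cut := Cut.none) (xt := Ext.none) (P1 := 536870912) (W1 := 536870912) (P2 := 536870912) (W2 := 536870912) (P3 := 1020054732) (W3 := 13421774) (N0 := 3) (En := eng) (mo := mog) (C1 := cd3q1) (C2 := cd4q1) (C3 := pd0)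
    rfl k0_pp_101

noncomputable def f_pp_102 : ℕ → ℕ → ℕ → ℕ → Bool := onCell 536870912 536870912 0 536870912 1020054732 13421774
    (rowB 3 eng mog cd3q1 cd4q2 pd0 1 false true true .npp 1 0 2 (qsf 536870912 536870912 1073741824 536870912 0) ndB3q1 ndB4q2 pcB0 Cut.none Ext.none)

def k0_pp_102 : ∃ t, chk3 f_pp_102 t 1 1 1 = true :=
  ⟨(l 3), by decide +kernel⟩

theorem c_pp_102 : CertB 536870912 536870912 1073741824 536870912 1020054732 13421774 3 eng mog cd3q1 cd4q2 pd0 false true true .npp 1 0 2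
    ndB3q1 ndB4q2 pcB0 Cut.none Ext.none :=
  certB1 (fam := false) (s1 := true) (s2 := true) (a := 1) (b := 0) (c := 2) (cn := .npp) (n1 := ndB3q1) (n2 := ndB4q2) (pc := pcB0) (cut := Cut.none) (xt := Ext.none) (P1 := 536870912) (W1 := 536870912) (P2 := 1073741824) (W2 := 536870912) (P3 := 1020054732) (W3 := 13421774) (N0 := 3) (En := eng) (mo := mog) (C1 := cd3q1) (C2 := cd4q2) (C3 := pd0)
    rfl (fun _ => rfl) k0_pp_102

noncomputable def f_pp_112 : ℕ → ℕ → ℕ → ℕ → Bool := onCell 536870912 536870912 1073741824 536870912 1020054732 13421774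
    (rowB 3 eng mog cd3q1 cd4q2 pd1 0 false true true .dn 1 1 2 (qsf 536870912 536870912 1073741824 536870912 1) ndB3q1 ndB4q2 pcB1 Cut.none Ext.none)

def k0_pp_112 : ∃ t, chk3 f_pp_112 t 1 1 1 = true :=
  ⟨(a (b (l 3) (b (l 3) (a (b (l 3) (l 3)) (l 3)))) (l 3)), by decide +kernel⟩

theorem c_pp_112 : CertB 536870912 536870912 1073741824 536870912 1020054732 13421774 3 eng mog cd3q1 cd4q2 pd1 false true true .dn 1 1 2
    ndB3q1 ndB4q2 pcB1 Cut.none Ext.none :=
  certB0 (fam := false) (s1 := true) (s2 := true) (a := 1) (b := 1) (c := 2) (cn := .dn) (n1 := ndB3q1) (n2 := ndB4q2) (pc := pcB1) (cut := Cut.none) (xt := Ext.none) (P1 := 536870912) (W1 := 536870912) (P2 := 1073741824) (W2 := 536870912) (P3 := 1020054732) (W3 := 13421774) (N0 := 3) (En := eng) (mo := mog) (C1 := cd3q1) (C2 := cd4q2) (C3 := pd1)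
    rfl k0_pp_112

noncomputable def f_pp_113 : ℕ → ℕ → ℕ → ℕ → Bool := onCell 536870912 536870912 0 1230186008 1020054732 13421774
    (rowB 3 eng mog cd3q1 cd4q3 pd1 2 false true true .nn 1 1 3 (qsf 536870912 536870912 0 1230186008 1) ndB3q1 ndB4q3 pcB1 Cut.none Ext.none)

def k0_pp_113 : ∃ t, chk3 f_pp_113 t 1 1 1 = true :=
  ⟨(a (b (l 2) (b (a (l 2) (b (l 2) (a (l 2) (b (l 2) (a (l 2) (b (l 2) (l 13484560))))))) (a (l 3) (b (b (b (a (l 2) (a (a (l 2) (l 13543608)) (l 13720504))) (a (l 3) (a (l 368991970615) (l 194508915031)))) (l 3)) (l 3))))) (a (b (l 2) (b (b (a (l 2) (b (l 13271984) (l 13510272))) (a (b (a (l 361943950839) (l 13405744)) (a (l 13596744) (l 13807832))) (b (a (l 13655912) (l 13922952)) (a (l 14011560) (l 14203920))))) (b (a (b (a (b (l 13942720) (l 14181368)) (b (l 14142424) (l 14370280))) (a (b (l 14416816) (l 3)) (b (l 14599112) (l 14820896)))) (b (a (l 14425432) (l 14561600)) (a (b (l 14749024) (l 14966304)) (l 14970648)))) (a (l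 3) (b (a (l 382953220807) (l 15141456)) (l 3)))))) (b (b (a (l 2) (b (l 16252128) (l 15859920))) (b (a (l 13914080) (l 15554592)) (a (b (l 13877640) (l 13975136)) (b (l 15113808) (l 14974968))))) (a (b (b (b (l 14013752) (l 14161912)) (b (l 14318392) (a (l 14389096) (l 14571776)))) (b (b (a (l 14666728) (l 14751976)) (a (l 15042216) (l 15075456))) (b (c (l 15350408) (l 15041280)) (c (l 15872744) (l 15535984))))) (b (b (a (l 14659448) (l 15045376)) (b (l 14809600) (l 14829504))) (b (a (b (l 14831928) (l 15076776)) (b (l 14934664) (l 15077976))) (a (b (l 15418016) (l 15733832)) (b (l 15134328) (c (l 15726360) (l 15534848)))))))))), by decide +kernel⟩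

theorem c_pp_113 : CertB 536870912 536870912 0 1230186008 1020054732 13421774 3 eng mog cd3q1 cd4q3 pd1 false true true .nn 1 1 3
    ndB3q1 ndB4q3 pcB1 Cut.none Ext.none :=
  certB2 (fam := false) (s1 := true) (s2 := true) (a := 1) (b := 1) (c := 3) (cn := .nn) (n1 := ndB3q1) (n2 := ndB4q3) (pc := pcB1) (cut := Cut.none) (xt := Ext.none) (P1 := 536870912) (W1 := 536870912) (P2 := 0) (W2 := 1230186008) (P3 := 1020054732) (W3 := 13421774) (N0 := 3) (En := eng) (mo := mog) (C1 := cd3q1) (C2 := cd4q3) (C3 := pd1)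
    rfl (fun _ => rfl) k0_pp_113

noncomputable def f_pp_123 : ℕ → ℕ → ℕ → ℕ → Bool := onCell 1073741824 536870912 0 1230186008 1020054732 13421774
    (rowB 3 eng mog cd3q1 cd4q3 pd2 2 false true true .npn 1 2 3 (qsf 536870912 536870912 0 1230186008 2) ndB3q1 ndB4q3 pcB2 Cut.none Ext.none)

def k0_pp_123 : ∃ t, chk3 f_pp_123 t 1 1 1 = true :=
  ⟨(a (a (a (b (b (b (l 16757760) (l 16593888)) (b (l 15981544) (l 15183328))) (b (b (l 14626408) (b (l 14905832) (l 15021680))) (b (b (l 15186072) (l 15383832)) (b (l 15580368) (a (b (l 15699288) (l 15817616)) (b (l 15816304) (l 15935472))))))) (b (b (b (l 16587888) (l 16357016)) (b (l 15756664) (l 15257976))) (b (b (l 15104568) (l 15202200)) (a (b (l 15452488) (b (l 15750672) (l 111163683607))) (b (l 15524784) (b (l 15823472) (l 1))))))) (b (b (a (b (l 16500208) (l 16214784)) (b (l 16435488) (l 16130384))) (b (a (l 15628192) (l 15488864)) (a (l 15136208) (l 14929080)))) (b (b (a (l 15102240) (l 14994840)) (a (l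 15271368) (l 15264904))) (b (b (a (l 15501208) (l 15547128)) (a (l 15695096) (l 1))) (a (b (b (l 15855536) (l 1)) (l 1)) (l 1)))))) (b (b (b (l 4) (a (a (l 16129992) (l 16151432)) (a (l 16171216) (l 4)))) (a (b (a (l 15421384) (l 15483208)) (a (b (l 14815904) (l 14670416)) (b (l 14825888) (l 14544784)))) (b (a (l 15638496) (b (l 16016816) (l 15631448))) (a (b (l 14942848) (l 14537008)) (b (l 15154200) (l 1)))))) (b (a (b (a (l 14871680) (l 14779896)) (a (l 15243552) (l 15241848))) (b (a (l 14743872) (l 1)) (l 1))) (l 1)))), by decide +kernel⟩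

theorem c_pp_123 : CertB 536870912 536870912 0 1230186008 1020054732 13421774 3 eng mog cd3q1 cd4q3 pd2 false true true .npn 1 2 3
    ndB3q1 ndB4q3 pcB2 Cut.none Ext.none :=
  certB2 (fam := false) (s1 := true) (s2 := true) (a := 1) (b := 2) (c := 3) (cn := .npn) (n1 := ndB3q1) (n2 := ndB4q3) (pc := pcB2) (cut := Cut.none) (xt := Ext.none) (P1 := 536870912) (W1 := 536870912) (P2 := 0) (W2 := 1230186008) (P3 := 1020054732) (W3 := 13421774) (N0 := 3) (En := eng) (mo := mog) (C1 := cd3q1) (C2 := cd4q3) (C3 := pd2)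
    rfl (fun _ => rfl) k0_pp_123

noncomputable def f_pp_133 : ℕ → ℕ → ℕ → ℕ → Bool := onCell 1610612736 536870912 0 1230186008 1020054732 13421774
    (rowB 3 eng mog cd3q1 cd4q3 pd3 2 false true true .dn 1 3 3 (qsf 536870912 536870912 0 1230186008 3) ndB3q1 ndB4q3 pcB3 Cut.none Ext.none)

def k0_pp_133 : ∃ t, chk3 f_pp_133 t 1 1 1 = true :=
  ⟨(b (b (a (l 4) (l 1)) (l 1)) (l 1)), by decide +kernel⟩

theorem c_pp_133 : CertB 536870912 536870912 0 1230186008 1020054732 13421774 3 eng mog cd3q1 cd4q3 pd3 false true true .dn 1 3 3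
    ndB3q1 ndB4q3 pcB3 Cut.none Ext.none :=
  certB2 (fam := false) (s1 := true) (s2 := true) (a := 1) (b := 3) (c := 3) (cn := .dn) (n1 := ndB3q1) (n2 := ndB4q3) (pc := pcB3) (cut := Cut.none) (xt := Ext.none) (P1 := 536870912) (W1 := 536870912) (P2 := 0) (W2 := 1230186008) (P3 := 1020054732) (W3 := 13421774) (N0 := 3) (En := eng) (mo := mog) (C1 := cd3q1) (C2 := cd4q3) (C3 := pd3)
    rfl (fun _ => rfl) k0_pp_133

noncomputable def f_pp_202 : ℕ → ℕ → ℕ → ℕ → Bool := onCell 1073741824 536870912 1073741824 536870912 1020054732 13421774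
    (rowB 3 eng mog cd3q2 cd4q2 pd0 0 false true true .pp 2 0 2 (qsf 1073741824 536870912 1073741824 536870912 0) ndB3q2 ndB4q2 pcB0 Cut.none Ext.none)

def k0_pp_202 : ∃ t, chk3 f_pp_202 t 1 1 1 = true :=
  ⟨(l 3), by decide +kernel⟩

theorem c_pp_202 : CertB 1073741824 536870912 1073741824 536870912 1020054732 13421774 3 eng mog cd3q2 cd4q2 pd0 false true true .pp 2 0 2
    ndB3q2 ndB4q2 pcB0 Cut.none Ext.none :=
  certB0 (fam := false) (s1 := true) (s2 := true) (a := 2) (b := 0) (c := 2) (cn := .pp) (n1 := ndB3q2) (n2 := ndB4q2) (pc := pcB0) (cut := Cut.none) (xt := Ext.none) (P1 := 1073741824) (W1 := 536870912) (P2 := 1073741824) (W2 := 536870912) (P3 := 1020054732) (W3 := 13421774) (N0 := 3) (En := eng) (mo := mog) (C1 := cd3q2) (C2 := cd4q2) (C3 := pd0)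
    rfl k0_pp_202

noncomputable def f_pp_203 : ℕ → ℕ → ℕ → ℕ → Bool := onCell 0 536870912 0 1230186008 1020054732 13421774
    (rowB 3 eng mog cd3q2 cd4q3 pd0 2 false true true .up 2 0 3 (qsf 1073741824 536870912 0 1230186008 0) ndB3q2 ndB4q3 pcB0 Cut.none Ext.none)

def k0_pp_203 : ∃ t, chk3 f_pp_203 t 1 1 1 = true :=
  ⟨(b (l 3) (l 3)), by decide +kernel⟩

theorem c_pp_203 : CertB 1073741824 536870912 0 1230186008 1020054732 13421774 3 eng mog cd3q2 cd4q3 pd0 false true true .up 2 0 3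
    ndB3q2 ndB4q3 pcB0 Cut.none Ext.none :=
  certB2 (fam := false) (s1 := true) (s2 := true) (a := 2) (b := 0) (c := 3) (cn := .up) (n1 := ndB3q2) (n2 := ndB4q3) (pc := pcB0) (cut := Cut.none) (xt := Ext.none) (P1 := 1073741824) (W1 := 536870912) (P2 := 0) (W2 := 1230186008) (P3 := 1020054732) (W3 := 13421774) (N0 := 3) (En := eng) (mo := mog) (C1 := cd3q2) (C2 := cd4q3) (C3 := pd0)
    rfl (fun _ => rfl) k0_pp_203

noncomputable def f_pp_213 : ℕ → ℕ → ℕ → ℕ → Bool := onCell 1073741824 536870912 0 1230186008 1020054732 13421774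
    (rowB 3 eng mog cd3q2 cd4q3 pd1 0 false true true .pnn 2 1 3 (qsf 1073741824 536870912 0 1230186008 1) ndB3q2 ndB4q3 pcB1 Cut.none Ext.none)

def k0_pp_213 : ∃ t, chk3 f_pp_213 t 1 1 1 = true :=
  ⟨(b (b (b (a (a (a (a (b (a (b (l 16659584) (c (l 16670600) (l 16692416))) (a (l 240685638839) (l 338933097975))) (l 3)) (b (a (l 353965114343) (l 3)) (l 3))) (l 3)) (l 3)) (l 3)) (l 3)) (l 3)) (l 3)), by decide +kernel⟩

theorem c_pp_213 : CertB 1073741824 536870912 0 1230186008 1020054732 13421774 3 eng mog cd3q2 cd4q3 pd1 false true true .pnn 2 1 3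
    ndB3q2 ndB4q3 pcB1 Cut.none Ext.none :=
  certB0 (fam := false) (s1 := true) (s2 := true) (a := 2) (b := 1) (c := 3) (cn := .pnn) (n1 := ndB3q2) (n2 := ndB4q3) (pc := pcB1) (cut := Cut.none) (xt := Ext.none) (P1 := 1073741824) (W1 := 536870912) (P2 := 0) (W2 := 1230186008) (P3 := 1020054732) (W3 := 13421774) (N0 := 3) (En := eng) (mo := mog) (C1 := cd3q2) (C2 := cd4q3) (C3 := pd1)
    rfl k0_pp_213

noncomputable def f_pp_303 : ℕ → ℕ → ℕ → ℕ → Bool := onCell 0 1230186008 0 1230186008 1020054732 13421774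
    (rowB 3 eng mog cd3q3 cd4q3 pd0 0 false true true .npn 3 0 3 (qsf 0 1230186008 0 1230186008 0) ndB3q3 ndB4q3 pcB0 Cut.none Ext.none)

def k0_pp_303 : ∃ t, chk3 f_pp_303 t 1 1 1 = true :=
  ⟨(a (b (l 3) (l 5)) (b (l 3) (l 3))), by decide +kernel⟩

theorem c_pp_303 : CertB 0 1230186008 0 1230186008 1020054732 13421774 3 eng mog cd3q3 cd4q3 pd0 false true true .npn 3 0 3
    ndB3q3 ndB4q3 pcB0 Cut.none Ext.none :=
  certB0 (fam := false) (s1 := true) (s2 := true) (a := 3) (b := 0) (c := 3) (cn := .npn) (n1 := ndB3q3) (n2 := ndB4q3) (pc := pcB0) (cut := Cut.none) (xt := Ext.none) (P1 := 0) (W1 := 1230186008) (P2 := 0) (W2 := 1230186008) (P3 := 1020054732) (W3 := 13421774) (N0 := 3) (En := eng) (mo := mog) (C1 := cd3q3) (C2 := cd4q3) (C3 := pd0)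
    rfl k0_pp_303

noncomputable def f_pp_313 : ℕ → ℕ → ℕ → ℕ → Bool := onCell 0 1230186008 0 1230186008 1020054732 13421774
    (rowB 3 eng mog cd3q3 cd4q3 pd1 0 false true true .dn 3 1 3 (qsf 0 1230186008 0 1230186008 1) ndB3q3 ndB4q3 pcB1 Cut.none Ext.none)

def k0_pp_313 : ∃ t, chk3 f_pp_313 t 1 1 1 = true :=
  ⟨(a (l 1) (b (l 3) (l 1))), by decide +kernel⟩

theorem c_pp_313 : CertB 0 1230186008 0 1230186008 1020054732 13421774 3 eng mog cd3q3 cd4q3 pd1 false true true .dn 3 1 3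
    ndB3q3 ndB4q3 pcB1 Cut.none Ext.none :=
  certB0 (fam := false) (s1 := true) (s2 := true) (a := 3) (b := 1) (c := 3) (cn := .dn) (n1 := ndB3q3) (n2 := ndB4q3) (pc := pcB1) (cut := Cut.none) (xt := Ext.none) (P1 := 0) (W1 := 1230186008) (P2 := 0) (W2 := 1230186008) (P3 := 1020054732) (W3 := 13421774) (N0 := 3) (En := eng) (mo := mog) (C1 := cd3q3) (C2 := cd4q3) (C3 := pd1)
    rfl k0_pp_313

noncomputable def f_pm_001 : ℕ → ℕ → ℕ → ℕ → Bool := onCell 0 536870912 536870912 536870912 1020054732 13421774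
    (rowB 3 eng mog cd3q0 cd4q1 pd0 0 false true false .up 0 0 1 (qsf 0 536870912 536870912 536870912 0) ndB3q0 ndB4q1 pcB0 Cut.none Ext.none)

def k0_pm_001 : ∃ t, chk3 f_pm_001 t 1 1 1 = true :=
  ⟨(l 4), by decide +kernel⟩

theorem c_pm_001 : CertB 0 536870912 536870912 536870912 1020054732 13421774 3 eng mog cd3q0 cd4q1 pd0 false true false .up 0 0 1
    ndB3q0 ndB4q1 pcB0 Cut.none Ext.none :=
  certB0 (fam := false) (s1 := true) (s2 := false) (a := 0) (b := 0) (c := 1) (cn := .up) (n1 := ndB3q0) (n2 := ndB4q1) (pc := pcB0) (cut := Cut.none) (xt := Ext.none) (P1 := 0) (W1 := 536870912) (P2 := 536870912) (W2 := 536870912) (P3 := 1020054732) (W3 := 13421774) (N0 := 3) (En := eng) (mo := mog) (C1 := cd3q0) (C2 := cd4q1) (C3 := pd0)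
    rfl k0_pm_001

noncomputable def f_pm_011 : ℕ → ℕ → ℕ → ℕ → Bool := onCell 0 536870912 536870912 536870912 1020054732 13421774
    (rowB 3 eng mog cd3q0 cd4q1 pd1 0 false true false .pnn 0 1 1 (qsf 0 536870912 536870912 536870912 1) ndB3q0 ndB4q1 pcB1 Cut.none Ext.none)

def k0_pm_011 : ∃ t, chk3 f_pm_011 t 1 1 1 = true :=
  ⟨(l 4), by decide +kernel⟩

theorem c_pm_011 : CertB 0 536870912 536870912 536870912 1020054732 13421774 3 eng mog cd3q0 cd4q1 pd1 false true false .pnn 0 1 1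
    ndB3q0 ndB4q1 pcB1 Cut.none Ext.none :=
  certB0 (fam := false) (s1 := true) (s2 := false) (a := 0) (b := 1) (c := 1) (cn := .pnn) (n1 := ndB3q0) (n2 := ndB4q1) (pc := pcB1) (cut := Cut.none) (xt := Ext.none) (P1 := 0) (W1 := 536870912) (P2 := 536870912) (W2 := 536870912) (P3 := 1020054732) (W3 := 13421774) (N0 := 3) (En := eng) (mo := mog) (C1 := cd3q0) (C2 := cd4q1) (C3 := pd1)
    rfl k0_pm_011

noncomputable def f_pm_012 : ℕ → ℕ → ℕ → ℕ → Bool := onCell 0 536870912 1073741824 536870912 1020054732 13421774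
    (rowB 3 eng mog cd3q0 cd4q2 pd1 0 false true false .pnp 0 1 2 (qsf 0 536870912 1073741824 536870912 1) ndB3q0 ndB4q2 pcB1 Cut.none Ext.none)

def k0_pm_012 : ∃ t, chk3 f_pm_012 t 1 1 1 = true :=
  ⟨(l 4), by decide +kernel⟩

theorem c_pm_012 : CertB 0 536870912 1073741824 536870912 1020054732 13421774 3 eng mog cd3q0 cd4q2 pd1 false true false .pnp 0 1 2
    ndB3q0 ndB4q2 pcB1 Cut.none Ext.none :=
  certB0 (fam := false) (s1 := true) (s2 := false) (a := 0) (b := 1) (c := 2) (cn := .pnp) (n1 := ndB3q0) (n2 := ndB4q2) (pc := pcB1) (cut := Cut.none) (xt := Ext.none) (P1 := 0) (W1 := 536870912) (P2 := 1073741824) (W2 := 536870912) (P3 := 1020054732) (W3 := 13421774) (N0 := 3) (En := eng) (mo := mog) (C1 := cd3q0) (C2 := cd4q2) (C3 := pd1)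
    rfl k0_pm_012

noncomputable def f_pm_022 : ℕ → ℕ → ℕ → ℕ → Bool := onCell 0 536870912 1073741824 536870912 1020054732 13421774
    (rowB 3 eng mog cd3q0 cd4q2 pd2 0 false true false .pp 0 2 2 (qsf 0 536870912 1073741824 536870912 2) ndB3q0 ndB4q2 pcB2 Cut.none Ext.none)

def k0_pm_022 : ∃ t, chk3 f_pm_022 t 1 1 1 = true :=
  ⟨(l 4), by decide +kernel⟩

theorem c_pm_022 : CertB 0 536870912 1073741824 536870912 1020054732 13421774 3 eng mog cd3q0 cd4q2 pd2 false true false .pp 0 2 2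
    ndB3q0 ndB4q2 pcB2 Cut.none Ext.none :=
  certB0 (fam := false) (s1 := true) (s2 := false) (a := 0) (b := 2) (c := 2) (cn := .pp) (n1 := ndB3q0) (n2 := ndB4q2) (pc := pcB2) (cut := Cut.none) (xt := Ext.none) (P1 := 0) (W1 := 536870912) (P2 := 1073741824) (W2 := 536870912) (P3 := 1020054732) (W3 := 13421774) (N0 := 3) (En := eng) (mo := mog) (C1 := cd3q0) (C2 := cd4q2) (C3 := pd2)
    rfl k0_pm_022

noncomputable def f_pm_023 : ℕ → ℕ → ℕ → ℕ → Bool := onCell 0 536870912 0 1230186008 1020054732 13421774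
    (rowB 3 eng mog cd3q0 cd4q3 pd2 0 false true false .up 0 2 3 (qsf 0 536870912 0 1230186008 2) ndB3q0 ndB4q3 pcB2 Cut.none Ext.none)

def k0_pm_023 : ∃ t, chk3 f_pm_023 t 1 1 1 = true :=
  ⟨(b (l 4) (l 4)), by decide +kernel⟩

theorem c_pm_023 : CertB 0 536870912 0 1230186008 1020054732 13421774 3 eng mog cd3q0 cd4q3 pd2 false true false .up 0 2 3
    ndB3q0 ndB4q3 pcB2 Cut.none Ext.none :=
  certB0 (fam := false) (s1 := true) (s2 := false) (a := 0) (b := 2) (c := 3) (cn := .up) (n1 := ndB3q0) (n2 := ndB4q3) (pc := pcB2) (cut := Cut.none) (xt := Ext.none) (P1 := 0) (W1 := 536870912) (P2 := 0) (W2 := 1230186008) (P3 := 1020054732) (W3 := 13421774) (N0 := 3) (En := eng) (mo := mog) (C1 := cd3q0) (C2 := cd4q3) (C3 := pd2)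
    rfl k0_pm_023

noncomputable def f_pm_033 : ℕ → ℕ → ℕ → ℕ → Bool := onCell 0 536870912 0 1230186008 1020054732 13421774
    (rowB 3 eng mog cd3q0 cd4q3 pd3 0 false true false .pnn 0 3 3 (qsf 0 536870912 0 1230186008 3) ndB3q0 ndB4q3 pcB3 Cut.none Ext.none)

def k0_pm_033 : ∃ t, chk3 f_pm_033 t 1 1 1 = true :=
  ⟨(b (l 4) (l 4)), by decide +kernel⟩

theorem c_pm_033 : CertB 0 536870912 0 1230186008 1020054732 13421774 3 eng mog cd3q0 cd4q3 pd3 false true false .pnn 0 3 3
    ndB3q0 ndB4q3 pcB3 Cut.none Ext.none :=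
  certB0 (fam := false) (s1 := true) (s2 := false) (a := 0) (b := 3) (c := 3) (cn := .pnn) (n1 := ndB3q0) (n2 := ndB4q3) (pc := pcB3) (cut := Cut.none) (xt := Ext.none) (P1 := 0) (W1 := 536870912) (P2 := 0) (W2 := 1230186008) (P3 := 1020054732) (W3 := 13421774) (N0 := 3) (En := eng) (mo := mog) (C1 := cd3q0) (C2 := cd4q3) (C3 := pd3)
    rfl k0_pm_033

noncomputable def f_pm_101 : ℕ → ℕ → ℕ → ℕ → Bool := onCell 536870912 536870912 536870912 536870912 1020054732 13421774
    (rowB 3 eng mog cd3q1 cd4q1 pd0 0 false true false .npn 1 0 1 (qsf 536870912 536870912 536870912 536870912 0) ndB3q1 ndB4q1 pcB0 Cut.none Ext.none)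

def k0_pm_101 : ∃ t, chk3 f_pm_101 t 1 1 1 = true :=
  ⟨(l 4), by decide +kernel⟩

theorem c_pm_101 : CertB 536870912 536870912 536870912 536870912 1020054732 13421774 3 eng mog cd3q1 cd4q1 pd0 false true false .npn 1 0 1
    ndB3q1 ndB4q1 pcB0 Cut.none Ext.none :=
  certB0 (fam := false) (s1 := true) (s2 := false) (a := 1) (b := 0) (c := 1) (cn := .npn) (n1 := ndB3q1) (n2 := ndB4q1) (pc := pcB0) (cut := Cut.none) (xt := Ext.none) (P1 := 536870912) (W1 := 536870912) (P2 := 536870912) (W2 := 536870912) (P3 := 1020054732) (W3 := 13421774) (N0 := 3) (En := eng) (mo := mog) (C1 := cd3q1) (C2 := cd4q1) (C3 := pd0)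
    rfl k0_pm_101

noncomputable def f_pm_102 : ℕ → ℕ → ℕ → ℕ → Bool := onCell 536870912 536870912 1073741824 536870912 1020054732 13421774
    (rowB 3 eng mog cd3q1 cd4q2 pd0 0 false true false .npp 1 0 2 (qsf 536870912 536870912 1073741824 536870912 0) ndB3q1 ndB4q2 pcB0 Cut.none Ext.none)

def k0_pm_102 : ∃ t, chk3 f_pm_102 t 1 1 1 = true :=
  ⟨(l 4), by decide +kernel⟩

theorem c_pm_102 : CertB 536870912 536870912 1073741824 536870912 1020054732 13421774 3 eng mog cd3q1 cd4q2 pd0 false true false .npp 1 0 2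
    ndB3q1 ndB4q2 pcB0 Cut.none Ext.none :=
  certB0 (fam := false) (s1 := true) (s2 := false) (a := 1) (b := 0) (c := 2) (cn := .npp) (n1 := ndB3q1) (n2 := ndB4q2) (pc := pcB0) (cut := Cut.none) (xt := Ext.none) (P1 := 536870912) (W1 := 536870912) (P2 := 1073741824) (W2 := 536870912) (P3 := 1020054732) (W3 := 13421774) (N0 := 3) (En := eng) (mo := mog) (C1 := cd3q1) (C2 := cd4q2) (C3 := pd0)
    rfl k0_pm_102

noncomputable def f_pm_112 : ℕ → ℕ → ℕ → ℕ → Bool := onCell 536870912 536870912 1073741824 536870912 1020054732 13421774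
    (rowB 3 eng mog cd3q1 cd4q2 pd1 0 false true false .dn 1 1 2 (qsf 536870912 536870912 1073741824 536870912 1) ndB3q1 ndB4q2 pcB1 Cut.none Ext.none)

def k0_pm_112 : ∃ t, chk3 f_pm_112 t 1 1 1 = true :=
  ⟨(l 4), by decide +kernel⟩

theorem c_pm_112 : CertB 536870912 536870912 1073741824 536870912 1020054732 13421774 3 eng mog cd3q1 cd4q2 pd1 false true false .dn 1 1 2
    ndB3q1 ndB4q2 pcB1 Cut.none Ext.none :=
  certB0 (fam := false) (s1 := true) (s2 := false) (a := 1) (b := 1) (c := 2) (cn := .dn) (n1 := ndB3q1) (n2 := ndB4q2) (pc := pcB1) (cut := Cut.none) (xt := Ext.none) (P1 := 536870912) (W1 := 536870912) (P2 := 1073741824) (W2 := 536870912) (P3 := 1020054732) (W3 := 13421774) (N0 := 3) (En := eng) (mo := mog) (C1 := cd3q1) (C2 := cd4q2) (C3 := pd1)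
    rfl k0_pm_112

noncomputable def f_pm_113 : ℕ → ℕ → ℕ → ℕ → Bool := onCell 536870912 536870912 0 1230186008 1020054732 13421774
    (rowB 3 eng mog cd3q1 cd4q3 pd1 0 false true false .nn 1 1 3 (qsf 536870912 536870912 0 1230186008 1) ndB3q1 ndB4q3 pcB1 Cut.none Ext.none)

def k0_pm_113 : ∃ t, chk3 f_pm_113 t 1 1 1 = true :=
  ⟨(b (a (l 2) (a (l 2) (b (a (l 2) (l 16604912)) (l 4)))) (l 4)), by decide +kernel⟩

theorem c_pm_113 : CertB 536870912 536870912 0 1230186008 1020054732 13421774 3 eng mog cd3q1 cd4q3 pd1 false true false .nn 1 1 3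
    ndB3q1 ndB4q3 pcB1 Cut.none Ext.none :=
  certB0 (fam := false) (s1 := true) (s2 := false) (a := 1) (b := 1) (c := 3) (cn := .nn) (n1 := ndB3q1) (n2 := ndB4q3) (pc := pcB1) (cut := Cut.none) (xt := Ext.none) (P1 := 536870912) (W1 := 536870912) (P2 := 0) (W2 := 1230186008) (P3 := 1020054732) (W3 := 13421774) (N0 := 3) (En := eng) (mo := mog) (C1 := cd3q1) (C2 := cd4q3) (C3 := pd1)
    rfl k0_pm_113

noncomputable def f_pm_123 : ℕ → ℕ → ℕ → ℕ → Bool := onCell 1073741824 536870912 0 1230186008 1020054732 13421774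
    (rowB 3 eng mog cd3q1 cd4q3 pd2 2 false true false .npn 1 2 3 (qsf 536870912 536870912 0 1230186008 2) ndB3q1 ndB4q3 pcB2 Cut.none Ext.none)

def k0_pm_123 : ∃ t, chk3 f_pm_123 t 1 1 1 = true :=
  ⟨(b (a (a (b (a (l 16768048) (l 4)) (l 4)) (l 4)) (l 4)) (l 4)), by decide +kernel⟩

theorem c_pm_123 : CertB 536870912 536870912 0 1230186008 1020054732 13421774 3 eng mog cd3q1 cd4q3 pd2 false true false .npn 1 2 3
    ndB3q1 ndB4q3 pcB2 Cut.none Ext.none :=
  certB2 (fam := false) (s1 := true) (s2 := false) (a := 1) (b := 2) (c := 3) (cn := .npn) (n1 := ndB3q1) (n2 := ndB4q3) (pc := pcB2) (cut := Cut.none) (xt := Ext.none) (P1 := 536870912) (W1 := 536870912) (P2 := 0) (W2 := 1230186008) (P3 := 1020054732) (W3 := 13421774) (N0 := 3) (En := eng) (mo := mog) (C1 := cd3q1) (C2 := cd4q3) (C3 := pd2)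
    rfl (fun _ => rfl) k0_pm_123

noncomputable def f_pm_133 : ℕ → ℕ → ℕ → ℕ → Bool := onCell 1610612736 536870912 0 1230186008 1020054732 13421774
    (rowB 3 eng mog cd3q1 cd4q3 pd3 2 false true false .dn 1 3 3 (qsf 536870912 536870912 0 1230186008 3) ndB3q1 ndB4q3 pcB3 Cut.none Ext.none)

def k0_pm_133 : ∃ t, chk3 f_pm_133 t 1 1 1 = true :=
  ⟨(b (b (l 4) (l 1)) (l 1)), by decide +kernel⟩

theorem c_pm_133 : CertB 536870912 536870912 0 1230186008 1020054732 13421774 3 eng mog cd3q1 cd4q3 pd3 false true false .dn 1 3 3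
    ndB3q1 ndB4q3 pcB3 Cut.none Ext.none :=
  certB2 (fam := false) (s1 := true) (s2 := false) (a := 1) (b := 3) (c := 3) (cn := .dn) (n1 := ndB3q1) (n2 := ndB4q3) (pc := pcB3) (cut := Cut.none) (xt := Ext.none) (P1 := 536870912) (W1 := 536870912) (P2 := 0) (W2 := 1230186008) (P3 := 1020054732) (W3 := 13421774) (N0 := 3) (En := eng) (mo := mog) (C1 := cd3q1) (C2 := cd4q3) (C3 := pd3)
    rfl (fun _ => rfl) k0_pm_133

noncomputable def f_pm_202 : ℕ → ℕ → ℕ → ℕ → Bool := onCell 1073741824 536870912 0 536870912 1020054732 13421774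
    (rowB 3 eng mog cd3q2 cd4q2 pd0 1 false true false .pp 2 0 2 (qsf 1073741824 536870912 1073741824 536870912 0) ndB3q2 ndB4q2 pcB0 Cut.none Ext.none)

def k0_pm_202 : ∃ t, chk3 f_pm_202 t 1 1 1 = true :=
  ⟨(a (b (a (b (b (a (b (b (l 385165506375) (a (l 13836112) (l 13733224))) (a (a (l 13760936) (l 13710320)) (l 13653080))) (a (b (l 13688336) (l 13595472)) (b (l 13635984) (l 13557392)))) (b (a (a (l 13620056) (l 13553864)) (l 13623344)) (a (a (l 13515448) (l 13462632)) (l 13427768)))) (a (b (a (b (l 13418856) (l 13330776)) (l 13341040)) (a (l 13216456) (l 13213256))) (b (a (l 13334128) (l 13347960)) (b (l 13274280) (l 13245200))))) (b (b (a (b (a (l 13602048) (l 13585520)) (l 13535728)) (l 13555992)) (a (b (l 13486592) (l 13446304)) (l 13537472))) (b (a (l 13383256) (l 13535712)) (a (l 13382240) (l 13589296))))) (b (a (b (a (b (l 13134672) (a (l 13085712) (l 13117256))) (b (l 13225376) (l 13206056))) (a (b (a (l 13054160) (l 13084272)) (l 13020760))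 (l 12985216))) (b (a (l 13399888) (l 13664512)) (a (l 13418600) (b (l 13736904) (l 2))))) (a (b (a (b (l 12967088) (l 12903496)) (b (l 13130736) (l 13093944))) (a (b (l 12827336) (l 12714992)) (b (a (l 12975616) (l 2)) (l 2)))) (b (a (b (l 13436232) (l 2)) (l 2)) (l 2))))) (b (a (b (b (b (b (l 13706392) (a (l 13647960) (l 13758512))) (a (l 13652000) (l 13778216))) (a (l 13663432) (l 13848592))) (b (a (l 13738368) (l 13977968)) (a (l 13849312) (l 14160128)))) (b (b (b (b (l 13965056) (l 13993352)) (a (l 13949608) (l 14135384))) (a (l 14057592) (l 14279904))) (b (a (l 14247880) (l 2)) (l 2)))) (b (a (b (a (b (l 13958912) (l 2)) (l 2)) (l 2)) (l 2)) (l 2)))), by decide +kernel⟩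

theorem c_pm_202 : CertB 1073741824 536870912 1073741824 536870912 1020054732 13421774 3 eng mog cd3q2 cd4q2 pd0 false true false .pp 2 0 2
    ndB3q2 ndB4q2 pcB0 Cut.none Ext.none :=
  certB1 (fam := false) (s1 := true) (s2 := false) (a := 2) (b := 0) (c := 2) (cn := .pp) (n1 := ndB3q2) (n2 := ndB4q2) (pc := pcB0) (cut := Cut.none) (xt := Ext.none) (P1 := 1073741824) (W1 := 536870912) (P2 := 1073741824) (W2 := 536870912) (P3 := 1020054732) (W3 := 13421774) (N0 := 3) (En := eng) (mo := mog) (C1 := cd3q2) (C2 := cd4q2) (C3 := pd0)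
    rfl (fun _ => rfl) k0_pm_202

noncomputable def f_pm_203 : ℕ → ℕ → ℕ → ℕ → Bool := onCell 0 536870912 0 1230186008 1020054732 13421774
    (rowB 3 eng mog cd3q2 cd4q3 pd0 2 false true false .up 2 0 3 (qsf 1073741824 536870912 0 1230186008 0) ndB3q2 ndB4q3 pcB0 Cut.none Ext.none)

def k0_pm_203 : ∃ t, chk3 f_pm_203 t 1 1 1 = true :=
  ⟨(b (a (l 2) (a (l 2) (b (l 3) (a (l 3) (b (l 3) (b (l 3) (b (l 3) (l 15966496)))))))) (b (a (b (l 2) (a (l 2) (a (l 2) (b (l 2) (b (l 2) (l 15778144)))))) (b (a (a (l 2) (b (a (l 2) (b (l 3) (l 15938664))) (a (b (l 15904464) (l 15927840)) (b (l 15954000) (l 15997312))))) (b (a (a (b (l 3) (l 15975968)) (b (l 15995600) (l 16021952))) (b (l 16054544) (l 16099976))) (a (b (l 16042296) (l 16093472)) (b (l 16151176) (l 16194704))))) (a (a (b (a (l 657228530391) (b (l 15895760) (l 15930512))) (l 15937592)) (b (b (a (l 15971328) (l 16041400)) (l 16054528)) (l 16131720))) (a (b (b (l 16140896) (l 16189904)) (l 16198984)) (b (l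 16231936) (l 16183920)))))) (a (b (a (l 2) (a (b (b (l 2) (l 15756984)) (b (a (l 2) (l 16198144)) (l 15946856))) (b (b (b (l 15819520) (l 15904896)) (l 16149056)) (a (l 16045584) (l 16193048))))) (a (a (a (a (l 15957616) (l 846207290967)) (b (l 2) (l 16141984))) (b (l 16142264) (l 16137328))) (a (b (l 16172176) (l 16092152)) (b (l 16135016) (l 15989904))))) (a (b (b (a (b (b (l 16035144) (l 16142880)) (l 16211672)) (b (l 16057424) (l 16202824))) (a (b (l 16221752) (l 16168632)) (l 16110496))) (b (a (b (l 16069328) (l 15966216)) (b (l 15762192) (l 15744360))) (a (l 15820792) (l 15576128)))) (b (b (a (b (l 16175864) (l 16141368)) (b (l 16119536) (l 16029464))) (a (b (l 16041104) (l 15878736)) (l 15525368))) (a (b (b (l 15657400) (l 15248424)) (l 15059104)) (b (b (l 15392952) (l 14832928)) (a (l 14942264) (b (l 14756408) (l 14678280)))))))))), by decide +kernel⟩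

theorem c_pm_203 : CertB 1073741824 536870912 0 1230186008 1020054732 13421774 3 eng mog cd3q2 cd4q3 pd0 false true false .up 2 0 3
    ndB3q2 ndB4q3 pcB0 Cut.none Ext.none :=
  certB2 (fam := false) (s1 := true) (s2 := false) (a := 2) (b := 0) (c := 3) (cn := .up) (n1 := ndB3q2) (n2 := ndB4q3) (pc := pcB0) (cut := Cut.none) (xt := Ext.none) (P1 := 1073741824) (W1 := 536870912) (P2 := 0) (W2 := 1230186008) (P3 := 1020054732) (W3 := 13421774) (N0 := 3) (En := eng) (mo := mog) (C1 := cd3q2) (C2 := cd4q3) (C3 := pd0)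
    rfl (fun _ => rfl) k0_pm_203

noncomputable def f_pm_213 : ℕ → ℕ → ℕ → ℕ → Bool := onCell 536870912 536870912 0 1230186008 1020054732 13421774
    (rowB 3 eng mog cd3q2 cd4q3 pd1 2 false true false .pnn 2 1 3 (qsf 1073741824 536870912 0 1230186008 1) ndB3q2 ndB4q3 pcB1 Cut.none Ext.none)

def k0_pm_213 : ∃ t, chk3 f_pm_213 t 2 2 1 = true :=
  ⟨(b (l 3) (a (b (l 3) (b (a (a (l 3) (l 174112213527)) (a (b (l 3) (l 16044528)) (c (l 16005680) (l 16138040)))) (a (a (b (l 16048296) (l 15756168)) (c (l 15931480) (l 16093128))) (a (c (l 15900104) (l 16105456)) (c (l 15888968) (l 16130992)))))) (b (b (a (l 3) (a (l 16150040) (l 16136448))) (a (a (l 16004848) (l 71032918679)) (a (l 16021720) (l 16173656)))) (a (b (a (c (l 15997456) (l 16160240)) (l 15976376)) (c (a (b (l 15925376) (l 15902808)) (b (l 15964728) (l 15994848))) (a (l 16176704) (l 16234160)))) (b (a (l 16044504) (c (l 16117392) (l 16323392))) (c (a (b (l 16046512) (l 16109488)) (l 16158160)) (a (l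 16288864) (l 16293752)))))))), by decide +kernel⟩

def k1_pm_213 : ∃ t, chk3 f_pm_213 t 2 3 1 = true :=
  ⟨(b (a (b (b (b (a (a (l 15880856) (l 15910544)) (a (c (l 15802336) (l 16098824)) (c (l 15865472) (l 16150088)))) (a (a (c (l 15745744) (l 16045912)) (c (b (l 15751864) (l 15789024)) (l 16082104))) (a (c (l 15875968) (l 16143040)) (l 16021616)))) (a (a (b (c (l 15739984) (l 16098240)) (l 16067824)) (c (l 15980824) (l 16216184))) (c (a (l 16124808) (l 16145616)) (l 16092888)))) (b (a (c (a (l 16189920) (l 16175248)) (l 16214768)) (c (l 16084568) (l 16203576))) (a (b (l 16069648) (c (l 16006784) (l 16146384))) (b (l 15840032) (c (l 15869480) (l 16006480)))))) (b (a (b (c (a (l 15834552) (l 16127176)) (a (l 16221936) (l 16259104))) (c (l 16071576) (l 16208456))) (b (a (l 16150424) (l 16161264)) (a (l 16095072) (l 16015832)))) (a (b (c (l 15775912) (l 16080832)) (c (a (l 15632352) (l 15570032)) (a (l 15930976) (l 15832552)))) (b (a (l 15720608) (c (l 15756824)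 (l 15836928))) (c (b (a (l 15649248) (l 15518864)) (a (l 15503968) (l 15376720))) (b (l 15553016) (l 15352856))))))) (a (b (a (b (c (l 15777432) (l 15996480)) (c (l 15772216) (l 15854712))) (b (c (l 15514424) (l 15774296)) (c (l 15597856) (l 15651224)))) (b (a (c (l 15768528) (l 15705904)) (c (a (l 15619896) (l 15508880)) (l 15231304))) (a (b (a (l 15741656) (l 15648248)) (a (l 15590016) (l 15516088))) (a (b (l 15367664) (l 1)) (l 1))))) (b (a (b (c (a (l 15575320) (l 15455576)) (a (l 15701464) (l 15571304))) (a (l 15208120) (b (l 15350312) (l 15294512)))) (b (a (c (l 15347736) (l 15440336)) (b (l 15187336) (l 1))) (l 1))) (a (b (a (l 483213956071) (l 1)) (l 1)) (l 1))))), by decide +kernel⟩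

def k2_pm_213 : ∃ t, chk3 f_pm_213 t 3 2 1 = true :=
  ⟨(a (b (b (l 3) (a (b (l 3) (a (l 16206456) (l 16215184))) (a (b (l 16293592) (l 16251600)) (b (l 16250408) (l 16376728))))) (a (a (b (b (l 16164120) (l 16223008)) (b (c (l 16195200) (l 16359336)) (l 16224736))) (b (c (l 16070048) (l 16186080)) (b (c (l 16252232) (l 16351120)) (l 16180040)))) (a (b (b (l 16346192) (c (l 16349568) (l 16441840))) (b (l 16275896) (l 16092584))) (b (b (c (l 16453768) (l 16522288)) (a (l 16399064) (l 16377736))) (b (l 16195736) (a (l 15997312) (l 15919744))))))) (a (b (a (b (b (l 3) (l 161764758183)) (b (l 16365544) (a (l 16533960) (l 16603360)))) (b (b (l 202030261767) (a (l 16516968) (l 16588744))) (b (l 16547920) (l 16624664)))) (b (a (b (l 16380824) (l 16361912)) (b (a (l 16476144) (l 16470384)) (l 16248640))) (b (a (a (l 16106240) (l 16039160)) (l 250214430151)) (a (a (l 15834032) (l 15789416)) (a (l 15818784) (l 1)))))) (b (a (b (b (a (l 16556384) (l 164986821575))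 (a (l 16665968) (l 16748136))) (b (l 16693312) (a (l 16651608) (l 16674296)))) (b (a (b (l 16638352) (l 16724096)) (b (l 16599072) (l 16645856))) (b (a (l 16652944) (c (l 16564008) (l 16616240))) (b (a (l 16615280) (l 16566552)) (l 230350820951))))) (a (b (b (a (l 16569312) (l 16747384)) (a (l 16437464) (l 16778600))) (b (a (l 16288320) (l 1)) (l 1))) (b (b (a (l 16743272) (l 1)) (l 1)) (l 1)))))), by decide +kernel⟩

def k3_pm_213 : ∃ t, chk3 f_pm_213 t 3 3 1 = true :=
  ⟨(b (a (b (b (a (a (l 16098928) (l 16002480)) (a (c (l 15871352) (l 15865432)) (a (l 15738712) (l 15504744)))) (a (a (l 15889232) (c (l 15762160) (l 15788440))) (a (b (l 15674984) (l 15318656)) (a (l 293699005591) (l 1))))) (a (b (a (c (l 15621064) (l 15701240)) (c (l 126732057767) (l 15575696))) (a (b (c (l 15401400) (l 15521120)) (l 323226404231)) (b (c (l 15387104) (l 15449272)) (l 1)))) (b (a (b (l 305510052951) (l 1)) (l 1)) (l 1)))) (b (a (a (b (a (l 15649760) (l 1)) (l 1)) (l 1))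 (l 1)) (l 1))) (l 1)), by decide +kernel⟩

theorem s4_pm_213 : ∃ t, chk3 f_pm_213 t 3 1 1 = true := ex3_b k2_pm_213 k3_pm_213

theorem s5_pm_213 : ∃ t, chk3 f_pm_213 t 2 1 1 = true := ex3_b k0_pm_213 k1_pm_213

theorem s6_pm_213 : ∃ t, chk3 f_pm_213 t 1 1 1 = true := ex3_a s5_pm_213 s4_pm_213

theorem c_pm_213 : CertB 1073741824 536870912 0 1230186008 1020054732 13421774 3 eng mog cd3q2 cd4q3 pd1 false true false .pnn 2 1 3
    ndB3q2 ndB4q3 pcB1 Cut.none Ext.none :=
  certB2 (fam := false) (s1 := true) (s2 := false) (a := 2) (b := 1) (c := 3) (cn := .pnn) (n1 := ndB3q2) (n2 := ndB4q3) (pc := pcB1) (cut := Cut.none) (xt := Ext.none) (P1 := 1073741824) (W1 := 536870912) (P2 := 0) (W2 := 1230186008) (P3 := 1020054732) (W3 := 13421774) (N0 := 3) (En := eng) (mo := mog) (C1 := cd3q2) (C2 := cd4q3) (C3 := pd1)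
    rfl (fun _ => rfl) s6_pm_213

noncomputable def f_pm_303 : ℕ → ℕ → ℕ → ℕ → Bool := onCell 0 1230186008 0 1230186008 1020054732 13421774
    (rowB 3 eng mog cd3q3 cd4q3 pd0 0 false true false .npn 3 0 3 (qsf 0 1230186008 0 1230186008 0) ndB3q3 ndB4q3 pcB0 Cut.none Ext.none)

def k0_pm_303 : ∃ t, chk3 f_pm_303 t 2 1 1 = true :=
  ⟨(b (l 3) (b (l 3) (l 1))), by decide +kernel⟩

def k1_pm_303 : ∃ t, chk3 f_pm_303 t 3 2 1 = true :=
  ⟨(a (l 3) (l 3)), by decide +kernel⟩

def k2_pm_303 : ∃ t, chk3 f_pm_303 t 6 3 1 = true :=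
  ⟨(b (a (l 3) (l 3)) (a (l 1) (b (a (l 1) (b (b (b (l 3) (l 1)) (l 1)) (l 1))) (l 1)))), by decide +kernel⟩

def k3_pm_303 : ∃ t, chk3 f_pm_303 t 7 6 1 = true :=
  ⟨(a (b (l 3) (a (b (l 3) (b (l 3) (a (b (l 3) (l 14838512)) (b (a (l 3) (l 15068024)) (a (l 14923816) (l 14982504)))))) (b (a (l 3) (b (l 3) (a (l 3) (l 177332380791)))) (a (b (a (l 191827442855) (l 191290633895)) (a (b (l 15125016) (l 15040112)) (b (l 15180816) (l 15103416)))) (b (a (l 190753828711) (l 15412504)) (b (l 15274392) (l 15203136))))))) (b (a (l 3) (b (l 3) (a (b (l 3) (l 16014576)) (b (l 16174464) (l 16123088))))) (a (b (a (b (l 3) (b (l 15631976) (l 15596104))) (b (a (l 15806160) (l 15858416)) (a (l 15709016) (l 15769624)))) (a (b (b (l 15534528) (l 15470136)) (b (l 15408936) (l 15348648))) (b (b (l 15661496) (l 15607944)) (l 15530304)))) (b (a (b (l 15944528) (l 15869088)) (b (l 16071648) (l 16006056))) (b (a (l 15668824) (l 15935520)) (l 15583056)))))), by decide +kernel⟩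

def k4_pm_303 : ∃ t, chk3 f_pm_303 t 14 7 1 = true :=
  ⟨(b (a (b (b (b (b (a (l 14773496) (l 14841248)) (a (a (l 14703672) (l 14756112)) (b (l 14852016) (a (l 14805616) (l 14866824))))) (a (b (a (l 14661280) (l 14740784)) (a (l 1) (l 14700504))) (a (l 14812128) (b (a (l 14863752) (l 14896544)) (a (l 14872904) (l 14916440)))))) (b (a (a (l 1) (b (b (l 14658824) (l 1)) (l 1))) (a (b (l 14773016) (l 14740272)) (b (l 14888736) (l 14857536)))) (l 214777212615))) (b (a (l 1) (l 14730096)) (l 1))) (b (a (b (b (b (l 15012328) (b (l 14983528) (a (l 14930536) (l 14999608)))) (a (b (l 14938680) (a (l 14952968) (l 14981000))) (b (l 15002472) (a (l 15008504) (l 15038208))))) (a (b (b (a (l 14969760) (l 15009672)) (a (l 14961088) (l 15025128))) (b (l 14959176) (l 14930680))) (b (b (l 15049504) (a (l 15066608) (l 15091776))) (b (a (l 15062912) (l 15113200)) (a (l 15031608) (l 15105312)))))) (b (b (l 15139736) (a (l 15070144) (l 15151568))) (b (a (b (l 15108728) (l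 15150880)) (l 15193776)) (a (b (l 15160760) (a (l 15154144) (l 15184128))) (b (l 15216552) (l 15244608)))))) (b (a (l 14932280) (a (b (a (b (l 15138416) (l 15099880)) (l 15035536)) (l 15084328)) (b (a (l 15222488) (l 15247224)) (a (b (l 15204728) (l 15168480)) (l 15247584))))) (l 14728952)))) (a (l 1) (b (b (l 14963680) (l 1)) (l 1)))), by decide +kernel⟩

def k5_pm_303 : ∃ t, chk3 f_pm_303 t 15 7 1 = true :=
  ⟨(b (a (b (a (b (b (l 15284352) (l 15268056)) (b (l 15322792) (l 15364752))) (b (b (l 15443048) (l 15432704)) (l 15504952))) (a (b (b (a (b (l 15311248) (l 15300192)) (l 15397056)) (a (a (l 15287272) (l 15312472)) (l 15376984))) (a (b (a (b (l 15271176) (l 15237360)) (l 15313104)) (l 15223152)) (b (a (l 15352624) (l 15378496)) (a (b (l 15337744) (l 15306456)) (l 15378904))))) (b (b (l 15575336) (l 15542976)) (a (b (l 15445576) (a (l 15418544) (l 15445256))) (b (l 15552256) (l 15514712)))))) (b (b (a (b (l 15612312) (l 15607496)) (l 15581288)) (a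 (l 15714360) (l 15909072))) (a (b (b (l 15799264) (l 15782720)) (l 15712520)) (b (b (l 16006088) (l 16052432)) (a (l 15908552) (l 16038232)))))) (a (b (a (b (b (l 15233864) (l 15194312)) (l 15172992)) (b (a (b (a (b (l 15404416) (l 15386376)) (l 15444968)) (a (l 15330768) (b (l 15420176) (l 15379808)))) (b (l 15498072) (b (l 15495056) (l 15234296)))) (a (l 15302344) (b (a (l 15401328) (b (l 15487936) (l 15450040))) (l 15387384))))) (b (l 15272360) (l 1))) (b (a (b (a (b (l 15584336) (l 15565416)) (l 15510480)) (a (b (a (l 15451272) (l 15577824)) (a (l 15472024) (b (l 15555752) (l 15520344)))) (b (l 15633200) (a (l 15601816) (l 15644576))))) (b (l 15854592) (a (b (l 15724640) (l 15701352)) (l 15777080)))) (a (b (a (l 15448312) (b (a (l 15542784) (b (l 15623576) (l 15590648))) (l 15531640))) (l 15475472)) (b (a (b (a (l 15668568) (l 15711512)) (a (l 15613536) (b (l 15691352) (l 15660896)))) (b (l 15769800) (a (l 15735344) (l 15778584)))) (a (l 15594656)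 (b (a (l 15684208) (b (l 15759032) (l 15730984))) (l 15675960)))))))), by decide +kernel⟩

theorem s6_pm_303 : ∃ t, chk3 f_pm_303 t 7 7 1 = true := ex3_a k4_pm_303 k5_pm_303

theorem s7_pm_303 : ∃ t, chk3 f_pm_303 t 7 3 1 = true := ex3_b k3_pm_303 s6_pm_303

theorem s8_pm_303 : ∃ t, chk3 f_pm_303 t 3 3 1 = true := ex3_a k2_pm_303 s7_pm_303

theorem s9_pm_303 : ∃ t, chk3 f_pm_303 t 3 1 1 = true := ex3_b k1_pm_303 s8_pm_303

theorem s10_pm_303 : ∃ t, chk3 f_pm_303 t 1 1 1 = true := ex3_a k0_pm_303 s9_pm_303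

theorem c_pm_303 : CertB 0 1230186008 0 1230186008 1020054732 13421774 3 eng mog cd3q3 cd4q3 pd0 false true false .npn 3 0 3
    ndB3q3 ndB4q3 pcB0 Cut.none Ext.none :=
  certB0 (fam := false) (s1 := true) (s2 := false) (a := 3) (b := 0) (c := 3) (cn := .npn) (n1 := ndB3q3) (n2 := ndB4q3) (pc := pcB0) (cut := Cut.none) (xt := Ext.none) (P1 := 0) (W1 := 1230186008) (P2 := 0) (W2 := 1230186008) (P3 := 1020054732) (W3 := 13421774) (N0 := 3) (En := eng) (mo := mog) (C1 := cd3q3) (C2 := cd4q3) (C3 := pd0)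
    rfl s10_pm_303

noncomputable def f_pm_313 : ℕ → ℕ → ℕ → ℕ → Bool := onCell 0 1230186008 0 1230186008 1020054732 13421774
    (rowB 3 eng mog cd3q3 cd4q3 pd1 0 false true false .dn 3 1 3 (qsf 0 1230186008 0 1230186008 1) ndB3q3 ndB4q3 pcB1 Cut.none Ext.none)

def k0_pm_313 : ∃ t, chk3 f_pm_313 t 1 1 1 = true :=
  ⟨(a (l 1) (b (a (l 1) (l 3)) (l 1))), by decide +kernel⟩

theorem c_pm_313 : CertB 0 1230186008 0 1230186008 1020054732 13421774 3 eng mog cd3q3 cd4q3 pd1 false true false .dn 3 1 3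
    ndB3q3 ndB4q3 pcB1 Cut.none Ext.none :=
  certB0 (fam := false) (s1 := true) (s2 := false) (a := 3) (b := 1) (c := 3) (cn := .dn) (n1 := ndB3q3) (n2 := ndB4q3) (pc := pcB1) (cut := Cut.none) (xt := Ext.none) (P1 := 0) (W1 := 1230186008) (P2 := 0) (W2 := 1230186008) (P3 := 1020054732) (W3 := 13421774) (N0 := 3) (En := eng) (mo := mog) (C1 := cd3q3) (C2 := cd4q3) (C3 := pd1)
    rfl k0_pm_313

noncomputable def f_mm_001 : ℕ → ℕ → ℕ → ℕ → Bool := onCell 0 536870912 0 536870912 1020054732 13421774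
    (rowB 3 eng mog cd3q0 cd4q1 pd0 1 false false false .up 0 0 1 (qsf 0 536870912 536870912 536870912 0) ndB3q0 ndB4q1 pcB0 Cut.none Ext.none)

def k0_mm_001 : ∃ t, chk3 f_mm_001 t 1 1 1 = true :=
  ⟨(l 3), by decide +kernel⟩

theorem c_mm_001 : CertB 0 536870912 536870912 536870912 1020054732 13421774 3 eng mog cd3q0 cd4q1 pd0 false false false .up 0 0 1
    ndB3q0 ndB4q1 pcB0 Cut.none Ext.none :=
  certB1 (fam := false) (s1 := false) (s2 := false) (a := 0) (b := 0) (c := 1) (cn := .up) (n1 := ndB3q0) (n2 := ndB4q1) (pc := pcB0) (cut := Cut.none) (xt := Ext.none) (P1 := 0) (W1 := 536870912) (P2 := 536870912) (W2 := 536870912) (P3 := 1020054732) (W3 := 13421774) (N0 := 3) (En := eng) (mo := mog) (C1 := cd3q0) (C2 := cd4q1) (C3 := pd0)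
    rfl (fun _ => rfl) k0_mm_001

noncomputable def f_mm_011 : ℕ → ℕ → ℕ → ℕ → Bool := onCell 0 536870912 536870912 536870912 1020054732 13421774
    (rowB 3 eng mog cd3q0 cd4q1 pd1 1 false false false .pnn 0 1 1 (qsf 0 536870912 536870912 536870912 1) ndB3q0 ndB4q1 pcB1 Cut.none Ext.none)

def k0_mm_011 : ∃ t, chk3 f_mm_011 t 1 1 1 = true :=
  ⟨(l 5), by decide +kernel⟩

theorem c_mm_011 : CertB 0 536870912 536870912 536870912 1020054732 13421774 3 eng mog cd3q0 cd4q1 pd1 false false false .pnn 0 1 1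
    ndB3q0 ndB4q1 pcB1 Cut.none Ext.none :=
  certB1 (fam := false) (s1 := false) (s2 := false) (a := 0) (b := 1) (c := 1) (cn := .pnn) (n1 := ndB3q0) (n2 := ndB4q1) (pc := pcB1) (cut := Cut.none) (xt := Ext.none) (P1 := 0) (W1 := 536870912) (P2 := 536870912) (W2 := 536870912) (P3 := 1020054732) (W3 := 13421774) (N0 := 3) (En := eng) (mo := mog) (C1 := cd3q0) (C2 := cd4q1) (C3 := pd1)
    rfl (fun _ => rfl) k0_mm_011

noncomputable def f_mm_012 : ℕ → ℕ → ℕ → ℕ → Bool := onCell 0 536870912 1073741824 536870912 1020054732 13421774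
    (rowB 3 eng mog cd3q0 cd4q2 pd1 0 false false false .pnp 0 1 2 (qsf 0 536870912 1073741824 536870912 1) ndB3q0 ndB4q2 pcB1 Cut.none Ext.none)

def k0_mm_012 : ∃ t, chk3 f_mm_012 t 1 1 1 = true :=
  ⟨(l 5), by decide +kernel⟩

theorem c_mm_012 : CertB 0 536870912 1073741824 536870912 1020054732 13421774 3 eng mog cd3q0 cd4q2 pd1 false false false .pnp 0 1 2
    ndB3q0 ndB4q2 pcB1 Cut.none Ext.none :=
  certB0 (fam := false) (s1 := false) (s2 := false) (a := 0) (b := 1) (c := 2) (cn := .pnp) (n1 := ndB3q0) (n2 := ndB4q2) (pc := pcB1) (cut := Cut.none) (xt := Ext.none) (P1 := 0) (W1 := 536870912) (P2 := 1073741824) (W2 := 536870912) (P3 := 1020054732) (W3 := 13421774) (N0 := 3) (En := eng) (mo := mog) (C1 := cd3q0) (C2 := cd4q2) (C3 := pd1)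
    rfl k0_mm_012

noncomputable def f_mm_022 : ℕ → ℕ → ℕ → ℕ → Bool := onCell 0 536870912 1073741824 536870912 1020054732 13421774
    (rowB 3 eng mog cd3q0 cd4q2 pd2 0 false false false .pp 0 2 2 (qsf 0 536870912 1073741824 536870912 2) ndB3q0 ndB4q2 pcB2 Cut.none Ext.none)

def k0_mm_022 : ∃ t, chk3 f_mm_022 t 1 1 1 = true :=
  ⟨(l 5), by decide +kernel⟩

theorem c_mm_022 : CertB 0 536870912 1073741824 536870912 1020054732 13421774 3 eng mog cd3q0 cd4q2 pd2 false false false .pp 0 2 2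
    ndB3q0 ndB4q2 pcB2 Cut.none Ext.none :=
  certB0 (fam := false) (s1 := false) (s2 := false) (a := 0) (b := 2) (c := 2) (cn := .pp) (n1 := ndB3q0) (n2 := ndB4q2) (pc := pcB2) (cut := Cut.none) (xt := Ext.none) (P1 := 0) (W1 := 536870912) (P2 := 1073741824) (W2 := 536870912) (P3 := 1020054732) (W3 := 13421774) (N0 := 3) (En := eng) (mo := mog) (C1 := cd3q0) (C2 := cd4q2) (C3 := pd2)
    rfl k0_mm_022

noncomputable def f_mm_023 : ℕ → ℕ → ℕ → ℕ → Bool := onCell 0 536870912 0 1230186008 1020054732 13421774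
    (rowB 3 eng mog cd3q0 cd4q3 pd2 0 false false false .up 0 2 3 (qsf 0 536870912 0 1230186008 2) ndB3q0 ndB4q3 pcB2 Cut.none Ext.none)

def k0_mm_023 : ∃ t, chk3 f_mm_023 t 1 1 1 = true :=
  ⟨(l 5), by decide +kernel⟩

theorem c_mm_023 : CertB 0 536870912 0 1230186008 1020054732 13421774 3 eng mog cd3q0 cd4q3 pd2 false false false .up 0 2 3
    ndB3q0 ndB4q3 pcB2 Cut.none Ext.none :=
  certB0 (fam := false) (s1 := false) (s2 := false) (a := 0) (b := 2) (c := 3) (cn := .up) (n1 := ndB3q0) (n2 := ndB4q3) (pc := pcB2) (cut := Cut.none) (xt := Ext.none) (P1 := 0) (W1 := 536870912) (P2 := 0) (W2 := 1230186008) (P3 := 1020054732) (W3 := 13421774) (N0 := 3) (En := eng) (mo := mog) (C1 := cd3q0) (C2 := cd4q3) (C3 := pd2)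
    rfl k0_mm_023

noncomputable def f_mm_033 : ℕ → ℕ → ℕ → ℕ → Bool := onCell 0 536870912 0 1230186008 1020054732 13421774
    (rowB 3 eng mog cd3q0 cd4q3 pd3 0 false false false .pnn 0 3 3 (qsf 0 536870912 0 1230186008 3) ndB3q0 ndB4q3 pcB3 Cut.none Ext.none)

def k0_mm_033 : ∃ t, chk3 f_mm_033 t 1 1 1 = true :=
  ⟨(l 5), by decide +kernel⟩

theorem c_mm_033 : CertB 0 536870912 0 1230186008 1020054732 13421774 3 eng mog cd3q0 cd4q3 pd3 false false false .pnn 0 3 3
    ndB3q0 ndB4q3 pcB3 Cut.none Ext.none :=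
  certB0 (fam := false) (s1 := false) (s2 := false) (a := 0) (b := 3) (c := 3) (cn := .pnn) (n1 := ndB3q0) (n2 := ndB4q3) (pc := pcB3) (cut := Cut.none) (xt := Ext.none) (P1 := 0) (W1 := 536870912) (P2 := 0) (W2 := 1230186008) (P3 := 1020054732) (W3 := 13421774) (N0 := 3) (En := eng) (mo := mog) (C1 := cd3q0) (C2 := cd4q3) (C3 := pd3)
    rfl k0_mm_033

noncomputable def f_mm_101 : ℕ → ℕ → ℕ → ℕ → Bool := onCell 536870912 536870912 536870912 536870912 1020054732 13421774
    (rowB 3 eng mog cd3q1 cd4q1 pd0 0 false false false .npn 1 0 1 (qsf 536870912 536870912 536870912 536870912 0) ndB3q1 ndB4q1 pcB0 Cut.none Ext.none)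

def k0_mm_101 : ∃ t, chk3 f_mm_101 t 1 1 1 = true :=
  ⟨(l 3), by decide +kernel⟩

theorem c_mm_101 : CertB 536870912 536870912 536870912 536870912 1020054732 13421774 3 eng mog cd3q1 cd4q1 pd0 false false false .npn 1 0 1
    ndB3q1 ndB4q1 pcB0 Cut.none Ext.none :=
  certB0 (fam := false) (s1 := false) (s2 := false) (a := 1) (b := 0) (c := 1) (cn := .npn) (n1 := ndB3q1) (n2 := ndB4q1) (pc := pcB0) (cut := Cut.none) (xt := Ext.none) (P1 := 536870912) (W1 := 536870912) (P2 := 536870912) (W2 := 536870912) (P3 := 1020054732) (W3 := 13421774) (N0 := 3) (En := eng) (mo := mog) (C1 := cd3q1) (C2 := cd4q1) (C3 := pd0)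
    rfl k0_mm_101

noncomputable def f_mm_102 : ℕ → ℕ → ℕ → ℕ → Bool := onCell 536870912 536870912 1073741824 536870912 1020054732 13421774
    (rowB 3 eng mog cd3q1 cd4q2 pd0 0 false false false .npp 1 0 2 (qsf 536870912 536870912 1073741824 536870912 0) ndB3q1 ndB4q2 pcB0 Cut.none Ext.none)

def k0_mm_102 : ∃ t, chk3 f_mm_102 t 1 1 1 = true :=
  ⟨(l 5), by decide +kernel⟩

theorem c_mm_102 : CertB 536870912 536870912 1073741824 536870912 1020054732 13421774 3 eng mog cd3q1 cd4q2 pd0 false false false .npp 1 0 2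
    ndB3q1 ndB4q2 pcB0 Cut.none Ext.none :=
  certB0 (fam := false) (s1 := false) (s2 := false) (a := 1) (b := 0) (c := 2) (cn := .npp) (n1 := ndB3q1) (n2 := ndB4q2) (pc := pcB0) (cut := Cut.none) (xt := Ext.none) (P1 := 536870912) (W1 := 536870912) (P2 := 1073741824) (W2 := 536870912) (P3 := 1020054732) (W3 := 13421774) (N0 := 3) (En := eng) (mo := mog) (C1 := cd3q1) (C2 := cd4q2) (C3 := pd0)
    rfl k0_mm_102

noncomputable def f_mm_112 : ℕ → ℕ → ℕ → ℕ → Bool := onCell 536870912 536870912 1073741824 536870912 1020054732 13421774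
    (rowB 3 eng mog cd3q1 cd4q2 pd1 0 false false false .dn 1 1 2 (qsf 536870912 536870912 1073741824 536870912 1) ndB3q1 ndB4q2 pcB1 Cut.none Ext.none)

def k0_mm_112 : ∃ t, chk3 f_mm_112 t 1 1 1 = true :=
  ⟨(l 5), by decide +kernel⟩

theorem c_mm_112 : CertB 536870912 536870912 1073741824 536870912 1020054732 13421774 3 eng mog cd3q1 cd4q2 pd1 false false false .dn 1 1 2
    ndB3q1 ndB4q2 pcB1 Cut.none Ext.none :=
  certB0 (fam := false) (s1 := false) (s2 := false) (a := 1) (b := 1) (c := 2) (cn := .dn) (n1 := ndB3q1) (n2 := ndB4q2) (pc := pcB1) (cut := Cut.none) (xt := Ext.none) (P1 := 536870912) (W1 := 536870912) (P2 := 1073741824) (W2 := 536870912) (P3 := 1020054732) (W3 := 13421774) (N0 := 3) (En := eng) (mo := mog) (C1 := cd3q1) (C2 := cd4q2) (C3 := pd1)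
    rfl k0_mm_112

noncomputable def f_mm_113 : ℕ → ℕ → ℕ → ℕ → Bool := onCell 536870912 536870912 0 1230186008 1020054732 13421774
    (rowB 3 eng mog cd3q1 cd4q3 pd1 0 false false false .nn 1 1 3 (qsf 536870912 536870912 0 1230186008 1) ndB3q1 ndB4q3 pcB1 Cut.none Ext.none)

def k0_mm_113 : ∃ t, chk3 f_mm_113 t 1 1 1 = true :=
  ⟨(l 5), by decide +kernel⟩

theorem c_mm_113 : CertB 536870912 536870912 0 1230186008 1020054732 13421774 3 eng mog cd3q1 cd4q3 pd1 false false false .nn 1 1 3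
    ndB3q1 ndB4q3 pcB1 Cut.none Ext.none :=
  certB0 (fam := false) (s1 := false) (s2 := false) (a := 1) (b := 1) (c := 3) (cn := .nn) (n1 := ndB3q1) (n2 := ndB4q3) (pc := pcB1) (cut := Cut.none) (xt := Ext.none) (P1 := 536870912) (W1 := 536870912) (P2 := 0) (W2 := 1230186008) (P3 := 1020054732) (W3 := 13421774) (N0 := 3) (En := eng) (mo := mog) (C1 := cd3q1) (C2 := cd4q3) (C3 := pd1)
    rfl k0_mm_113

noncomputable def f_mm_123 : ℕ → ℕ → ℕ → ℕ → Bool := onCell 536870912 536870912 0 1230186008 1020054732 13421774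
    (rowB 3 eng mog cd3q1 cd4q3 pd2 0 false false false .npn 1 2 3 (qsf 536870912 536870912 0 1230186008 2) ndB3q1 ndB4q3 pcB2 Cut.none Ext.none)

def k0_mm_123 : ∃ t, chk3 f_mm_123 t 1 1 1 = true :=
  ⟨(l 5), by decide +kernel⟩

theorem c_mm_123 : CertB 536870912 536870912 0 1230186008 1020054732 13421774 3 eng mog cd3q1 cd4q3 pd2 false false false .npn 1 2 3
    ndB3q1 ndB4q3 pcB2 Cut.none Ext.none :=
  certB0 (fam := false) (s1 := false) (s2 := false) (a := 1) (b := 2) (c := 3) (cn := .npn) (n1 := ndB3q1) (n2 := ndB4q3) (pc := pcB2) (cut := Cut.none) (xt := Ext.none) (P1 := 536870912) (W1 := 536870912) (P2 := 0) (W2 := 1230186008) (P3 := 1020054732) (W3 := 13421774) (N0 := 3) (En := eng) (mo := mog) (C1 := cd3q1) (C2 := cd4q3) (C3 := pd2)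
    rfl k0_mm_123

noncomputable def f_mm_133 : ℕ → ℕ → ℕ → ℕ → Bool := onCell 536870912 536870912 0 1230186008 1020054732 13421774
    (rowB 3 eng mog cd3q1 cd4q3 pd3 0 false false false .dn 1 3 3 (qsf 536870912 536870912 0 1230186008 3) ndB3q1 ndB4q3 pcB3 Cut.none Ext.none)

def k0_mm_133 : ∃ t, chk3 f_mm_133 t 1 1 1 = true :=
  ⟨(l 5), by decide +kernel⟩

theorem c_mm_133 : CertB 536870912 536870912 0 1230186008 1020054732 13421774 3 eng mog cd3q1 cd4q3 pd3 false false false .dn 1 3 3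
    ndB3q1 ndB4q3 pcB3 Cut.none Ext.none :=
  certB0 (fam := false) (s1 := false) (s2 := false) (a := 1) (b := 3) (c := 3) (cn := .dn) (n1 := ndB3q1) (n2 := ndB4q3) (pc := pcB3) (cut := Cut.none) (xt := Ext.none) (P1 := 536870912) (W1 := 536870912) (P2 := 0) (W2 := 1230186008) (P3 := 1020054732) (W3 := 13421774) (N0 := 3) (En := eng) (mo := mog) (C1 := cd3q1) (C2 := cd4q3) (C3 := pd3)
    rfl k0_mm_133

noncomputable def f_mm_202 : ℕ → ℕ → ℕ → ℕ → Bool := onCell 1073741824 536870912 1073741824 536870912 1020054732 13421774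
    (rowB 3 eng mog cd3q2 cd4q2 pd0 0 false false false .pp 2 0 2 (qsf 1073741824 536870912 1073741824 536870912 0) ndB3q2 ndB4q2 pcB0 Cut.none Ext.none)

def k0_mm_202 : ∃ t, chk3 f_mm_202 t 1 1 1 = true :=
  ⟨(l 3), by decide +kernel⟩

theorem c_mm_202 : CertB 1073741824 536870912 1073741824 536870912 1020054732 13421774 3 eng mog cd3q2 cd4q2 pd0 false false false .pp 2 0 2
    ndB3q2 ndB4q2 pcB0 Cut.none Ext.none :=
  certB0 (fam := false) (s1 := false) (s2 := false) (a := 2) (b := 0) (c := 2) (cn := .pp) (n1 := ndB3q2) (n2 := ndB4q2) (pc := pcB0) (cut := Cut.none) (xt := Ext.none) (P1 := 1073741824) (W1 := 536870912) (P2 := 1073741824) (W2 := 536870912) (P3 := 1020054732) (W3 := 13421774) (N0 := 3) (En := eng) (mo := mog) (C1 := cd3q2) (C2 := cd4q2) (C3 := pd0)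
    rfl k0_mm_202

noncomputable def f_mm_203 : ℕ → ℕ → ℕ → ℕ → Bool := onCell 1073741824 536870912 0 1230186008 1020054732 13421774
    (rowB 3 eng mog cd3q2 cd4q3 pd0 0 false false false .up 2 0 3 (qsf 1073741824 536870912 0 1230186008 0) ndB3q2 ndB4q3 pcB0 Cut.none Ext.none)

def k0_mm_203 : ∃ t, chk3 f_mm_203 t 1 1 1 = true :=
  ⟨(b (l 5) (l 3)), by decide +kernel⟩

theorem c_mm_203 : CertB 1073741824 536870912 0 1230186008 1020054732 13421774 3 eng mog cd3q2 cd4q3 pd0 false false false .up 2 0 3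
    ndB3q2 ndB4q3 pcB0 Cut.none Ext.none :=
  certB0 (fam := false) (s1 := false) (s2 := false) (a := 2) (b := 0) (c := 3) (cn := .up) (n1 := ndB3q2) (n2 := ndB4q3) (pc := pcB0) (cut := Cut.none) (xt := Ext.none) (P1 := 1073741824) (W1 := 536870912) (P2 := 0) (W2 := 1230186008) (P3 := 1020054732) (W3 := 13421774) (N0 := 3) (En := eng) (mo := mog) (C1 := cd3q2) (C2 := cd4q3) (C3 := pd0)
    rfl k0_mm_203

noncomputable def f_mm_213 : ℕ → ℕ → ℕ → ℕ → Bool := onCell 1073741824 536870912 0 1230186008 1020054732 13421774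
    (rowB 3 eng mog cd3q2 cd4q3 pd1 0 false false false .pnn 2 1 3 (qsf 1073741824 536870912 0 1230186008 1) ndB3q2 ndB4q3 pcB1 Cut.none Ext.none)

def k0_mm_213 : ∃ t, chk3 f_mm_213 t 1 1 1 = true :=
  ⟨(b (l 5) (l 3)), by decide +kernel⟩

theorem c_mm_213 : CertB 1073741824 536870912 0 1230186008 1020054732 13421774 3 eng mog cd3q2 cd4q3 pd1 false false false .pnn 2 1 3
    ndB3q2 ndB4q3 pcB1 Cut.none Ext.none :=
  certB0 (fam := false) (s1 := false) (s2 := false) (a := 2) (b := 1) (c := 3) (cn := .pnn) (n1 := ndB3q2) (n2 := ndB4q3) (pc := pcB1) (cut := Cut.none) (xt := Ext.none) (P1 := 1073741824) (W1 := 536870912) (P2 := 0) (W2 := 1230186008) (P3 := 1020054732) (W3 := 13421774) (N0 := 3) (En := eng) (mo := mog) (C1 := cd3q2) (C2 := cd4q3) (C3 := pd1)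
    rfl k0_mm_213

noncomputable def f_mm_303 : ℕ → ℕ → ℕ → ℕ → Bool := onCell 0 1230186008 0 1230186008 1020054732 13421774
    (rowB 3 eng mog cd3q3 cd4q3 pd0 0 false false false .npn 3 0 3 (qsf 0 1230186008 0 1230186008 0) ndB3q3 ndB4q3 pcB0 Cut.none Ext.none)

def k0_mm_303 : ∃ t, chk3 f_mm_303 t 1 1 1 = true :=
  ⟨(a (b (l 3) (b (l 3) (l 1))) (b (l 3) (l 3))), by decide +kernel⟩

theorem c_mm_303 : CertB 0 1230186008 0 1230186008 1020054732 13421774 3 eng mog cd3q3 cd4q3 pd0 false false false .npn 3 0 3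
    ndB3q3 ndB4q3 pcB0 Cut.none Ext.none :=
  certB0 (fam := false) (s1 := false) (s2 := false) (a := 3) (b := 0) (c := 3) (cn := .npn) (n1 := ndB3q3) (n2 := ndB4q3) (pc := pcB0) (cut := Cut.none) (xt := Ext.none) (P1 := 0) (W1 := 1230186008) (P2 := 0) (W2 := 1230186008) (P3 := 1020054732) (W3 := 13421774) (N0 := 3) (En := eng) (mo := mog) (C1 := cd3q3) (C2 := cd4q3) (C3 := pd0)
    rfl k0_mm_303

noncomputable def f_mm_313 : ℕ → ℕ → ℕ → ℕ → Bool := onCell 0 1230186008 0 1230186008 1020054732 13421774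
    (rowB 3 eng mog cd3q3 cd4q3 pd1 0 false false false .dn 3 1 3 (qsf 0 1230186008 0 1230186008 1) ndB3q3 ndB4q3 pcB1 Cut.none Ext.none)

def k0_mm_313 : ∃ t, chk3 f_mm_313 t 1 1 1 = true :=
  ⟨(a (l 1) (b (l 3) (l 1))), by decide +kernel⟩

theorem c_mm_313 : CertB 0 1230186008 0 1230186008 1020054732 13421774 3 eng mog cd3q3 cd4q3 pd1 false false false .dn 3 1 3
    ndB3q3 ndB4q3 pcB1 Cut.none Ext.none :=
  certB0 (fam := false) (s1 := false) (s2 := false) (a := 3) (b := 1) (c := 3) (cn := .dn) (n1 := ndB3q3) (n2 := ndB4q3) (pc := pcB1) (cut := Cut.none) (xt := Ext.none) (P1 := 0) (W1 := 1230186008) (P2 := 0) (W2 := 1230186008) (P3 := 1020054732) (W3 := 13421774) (N0 := 3) (En := eng) (mo := mog) (C1 := cd3q3) (C2 := cd4q3) (C3 := pd1)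
    rfl k0_mm_313

end Pool.Agent.Strip051.G.I9500_9625.Tab.C.BB34

namespace Pool.Agent.Strip051.G.I9500_9625.Tab.C.BB35

open Pool.Agent.Strip051.PB Pool.Agent.Strip051.PB.T
open Pool.Agent.Strip051.G.I9500_9625.Tab

noncomputable def f_pp_001 : ℕ → ℕ → ℕ → ℕ → Bool := onCell 0 536870912 0 536870912 1020054732 13421774
    (rowB 3 eng mog cd3q0 cd5q1 pd0 1 false true true .up 0 0 1 (qsf 0 536870912 536870912 536870912 0) ndB3q0 ndB5q1 pcB0 Cut.none Ext.none)

def k0_pp_001 : ∃ t, chk3 f_pp_001 t 1 1 1 = true :=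
  ⟨(l 3), by decide +kernel⟩

theorem c_pp_001 : CertB 0 536870912 536870912 536870912 1020054732 13421774 3 eng mog cd3q0 cd5q1 pd0 false true true .up 0 0 1
    ndB3q0 ndB5q1 pcB0 Cut.none Ext.none :=
  certB1 (fam := false) (s1 := true) (s2 := true) (a := 0) (b := 0) (c := 1) (cn := .up) (n1 := ndB3q0) (n2 := ndB5q1) (pc := pcB0) (cut := Cut.none) (xt := Ext.none) (P1 := 0) (W1 := 536870912) (P2 := 536870912) (W2 := 536870912) (P3 := 1020054732) (W3 := 13421774) (N0 := 3) (En := eng) (mo := mog) (C1 := cd3q0) (C2 := cd5q1) (C3 := pd0)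
    rfl (fun _ => rfl) k0_pp_001

noncomputable def f_pp_011 : ℕ → ℕ → ℕ → ℕ → Bool := onCell 0 536870912 536870912 536870912 1020054732 13421774
    (rowB 3 eng mog cd3q0 cd5q1 pd1 0 false true true .pnn 0 1 1 (qsf 0 536870912 536870912 536870912 1) ndB3q0 ndB5q1 pcB1 Cut.none Ext.none)

def k0_pp_011 : ∃ t, chk3 f_pp_011 t 1 1 1 = true :=
  ⟨(a (b (l 3) (a (l 3) (l 3))) (l 3)), by decide +kernel⟩

theorem c_pp_011 : CertB 0 536870912 536870912 536870912 1020054732 13421774 3 eng mog cd3q0 cd5q1 pd1 false true true .pnn 0 1 1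
    ndB3q0 ndB5q1 pcB1 Cut.none Ext.none :=
  certB0 (fam := false) (s1 := true) (s2 := true) (a := 0) (b := 1) (c := 1) (cn := .pnn) (n1 := ndB3q0) (n2 := ndB5q1) (pc := pcB1) (cut := Cut.none) (xt := Ext.none) (P1 := 0) (W1 := 536870912) (P2 := 536870912) (W2 := 536870912) (P3 := 1020054732) (W3 := 13421774) (N0 := 3) (En := eng) (mo := mog) (C1 := cd3q0) (C2 := cd5q1) (C3 := pd1)
    rfl k0_pp_011

noncomputable def f_pp_012 : ℕ → ℕ → ℕ → ℕ → Bool := onCell 0 536870912 536870912 536870912 1020054732 13421774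
    (rowB 3 eng mog cd3q0 cd5q2 pd1 1 false true true .pnp 0 1 2 (qsf 0 536870912 1073741824 536870912 1) ndB3q0 ndB5q2 pcB1 Cut.none Ext.none)

def k0_pp_012 : ∃ t, chk3 f_pp_012 t 1 1 1 = true :=
  ⟨(a (b (l 3) (a (l 3) (l 3))) (l 3)), by decide +kernel⟩

theorem c_pp_012 : CertB 0 536870912 1073741824 536870912 1020054732 13421774 3 eng mog cd3q0 cd5q2 pd1 false true true .pnp 0 1 2
    ndB3q0 ndB5q2 pcB1 Cut.none Ext.none :=
  certB1 (fam := false) (s1 := true) (s2 := true) (a := 0) (b := 1) (c := 2) (cn := .pnp) (n1 := ndB3q0) (n2 := ndB5q2) (pc := pcB1) (cut := Cut.none) (xt := Ext.none) (P1 := 0) (W1 := 536870912) (P2 := 1073741824) (W2 := 536870912) (P3 := 1020054732) (W3 := 13421774) (N0 := 3) (En := eng) (mo := mog) (C1 := cd3q0) (C2 := cd5q2) (C3 := pd1)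
    rfl (fun _ => rfl) k0_pp_012

noncomputable def f_pp_022 : ℕ → ℕ → ℕ → ℕ → Bool := onCell 0 536870912 1073741824 536870912 1020054732 13421774
    (rowB 3 eng mog cd3q0 cd5q2 pd2 1 false true true .pp 0 2 2 (qsf 0 536870912 1073741824 536870912 2) ndB3q0 ndB5q2 pcB2 Cut.none Ext.none)

def k0_pp_022 : ∃ t, chk3 f_pp_022 t 4 4 1 = true :=
  ⟨(a (b (a (b (l 3) (a (a (b (b (l 16607352) (l 16561528)) (b (a (l 16616304) (l 16587344)) (a (l 16628344) (l 16590624)))) (b (l 476371688599) (b (l 16549832) (l 16550656)))) (a (b (l 3) (l 16457296)) (l 3)))) (l 3)) (a (a (b (b (a (b (l 16624736) (l 16618272)) (b (a (l 16566096) (l 16536640)) (l 16560136))) (b (l 16426896) (l 16452592))) (b (c (l 16424344) (l 16305216)) (b (l 16278312) (a (l 16357632) (l 16451960))))) (b (a (b (b (l 16498128) (l 16497920)) (b (l 16501376) (l 16515320))) (a (b (l 16459056) (l 16440272)) (b (l 16434104) (l 16434456)))) (a (b (l 16542064) (l 16568088)) (b (a (l 16487952) (l 16409048))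 (a (l 16524856) (l 16491840)))))) (b (a (a (b (l 16421568) (l 16420272)) (b (l 3) (l 16414368))) (b (l 3) (l 263770429175))) (a (b (a (b (l 16422544) (l 16431920)) (l 16395488)) (a (l 16464096) (l 16330328))) (b (l 16337104) (a (l 16354272) (l 16397160))))))) (b (l 3) (b (l 3) (a (b (l 16324728) (l 16329256)) (l 3))))), by decide +kernel⟩

def k1_pp_022 : ∃ t, chk3 f_pp_022 t 4 5 1 = true :=
  ⟨(a (b (a (a (b (b (a (b (l 16320544) (l 16283416)) (b (l 16409424) (l 16369856))) (b (l 16143712) (b (l 16260032) (l 16133512)))) (b (l 16197680) (l 16140672))) (b (a (b (l 16438960) (b (l 16419000) (b (l 16389640) (l 16366952)))) (b (l 16354456) (b (l 16508448) (b (l 16476160) (b (l 16460224) (l 16447880)))))) (a (l 16278432) (a (l 16343632) (l 16407608))))) (b (b (a (a (l 16505144) (l 16481760)) (b (l 16428000) (l 16454568))) (a (b (l 16395496) (b (l 16516096) (b (l 16447744) (a (l 16502344) (l 16532272))))) (b (l 16481384) (b (l 16502112) (b (l 16514832) (l 16521888))))))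 (a (a (l 16441928) (l 16472568)) (l 16501576)))) (a (a (b (l 15893200) (b (l 15986680) (l 15941176))) (a (b (l 16153648) (l 16098440)) (b (a (l 16261416) (l 16303976)) (l 16166176)))) (a (a (b (l 16337712) (l 16241176)) (l 16321768)) (b (l 16420704) (l 16326272))))) (b (b (b (a (b (l 16338088) (l 16244840)) (l 16235104)) (b (a (a (l 16412336) (l 16336064)) (l 16250592)) (b (a (l 16403536) (l 16266176)) (a (b (l 16422200) (l 16433768)) (b (l 16287784) (l 16305256)))))) (a (l 16439608) (l 16318192))) (a (b (l 16439272) (l 16431520)) (b (l 16328008) (l 16332888))))), by decide +kernel⟩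

def k2_pp_022 : ∃ t, chk3 f_pp_022 t 5 2 1 = true :=
  ⟨(b (l 3) (b (b (b (a (a (l 16132712) (l 3)) (l 3)) (b (a (l 16099624) (l 3)) (a (b (l 16110792) (a (l 16152880) (l 16072904))) (b (l 3) (l 15933456))))) (a (a (l 16198368) (l 16104512)) (l 15983080))) (a (a (l 16166312) (l 16193648)) (a (l 16143056) (l 16085968))))), by decide +kernel⟩

def k3_pp_022 : ∃ t, chk3 f_pp_022 t 2 3 1 = true :=
  ⟨(a (b (a (a (a (b (b (l 15749328) (l 15791064)) (l 15573568)) (a (b (l 15945464) (l 15811056)) (b (l 15887536) (l 15901104)))) (b (a (a (l 16068616) (l 16123256)) (l 16198712)) (a (l 15874312) (l 16051080)))) (b (a (b (l 16403152) (l 16323600)) (l 16349008)) (a (l 16199368) (l 16377896)))) (a (a (a (b (l 15545296) (l 15434272)) (b (a (l 15678864) (l 15769488)) (a (l 15560024) (l 15639248)))) (b (a (l 15783424) (l 15898192)) (a (l 15692952) (l 15734464)))) (b (a (l 16031072) (l 16222504)) (a (l 15850360) (l 2))))) (b (a (b (a (l 16325208) (l 16312568)) (a (l 16400600)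 (l 16405320))) (b (a (l 16287368) (l 16232984)) (b (l 16341712) (l 2)))) (a (b (a (l 16432856) (l 2)) (l 2)) (l 2)))), by decide +kernel⟩

def k4_pp_022 : ∃ t, chk3 f_pp_022 t 3 1 1 = true :=
  ⟨(b (b (b (l 3) (a (l 3) (b (a (l 3) (a (l 14954424) (l 2))) (a (b (l 15182800) (l 570321139207)) (l 2))))) (a (b (b (b (a (l 3) (a (l 15538288) (l 15445336))) (b (a (l 15719144) (l 15538128)) (a (b (l 15743632) (a (l 15800528) (l 15710920))) (b (l 15568024) (l 15572744))))) (a (l 15812848) (l 15630096))) (a (a (l 16008472) (l 15927624)) (b (l 15758088) (l 2)))) (b (a (b (b (l 15179960) (l 2)) (l 2)) (l 2)) (l 2)))) (a (b (a (b (a (l 16173920) (l 2)) (l 2)) (l 2)) (l 2)) (l 2))), by decide +kernel⟩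

theorem s5_pp_022 : ∃ t, chk3 f_pp_022 t 4 2 1 = true := ex3_b k0_pp_022 k1_pp_022

theorem s6_pp_022 : ∃ t, chk3 f_pp_022 t 2 2 1 = true := ex3_a s5_pp_022 k2_pp_022

theorem s7_pp_022 : ∃ t, chk3 f_pp_022 t 2 1 1 = true := ex3_b s6_pp_022 k3_pp_022

theorem s8_pp_022 : ∃ t, chk3 f_pp_022 t 1 1 1 = true := ex3_a s7_pp_022 k4_pp_022

theorem c_pp_022 : CertB 0 536870912 1073741824 536870912 1020054732 13421774 3 eng mog cd3q0 cd5q2 pd2 false true true .pp 0 2 2
    ndB3q0 ndB5q2 pcB2 Cut.none Ext.none :=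
  certB1 (fam := false) (s1 := true) (s2 := true) (a := 0) (b := 2) (c := 2) (cn := .pp) (n1 := ndB3q0) (n2 := ndB5q2) (pc := pcB2) (cut := Cut.none) (xt := Ext.none) (P1 := 0) (W1 := 536870912) (P2 := 1073741824) (W2 := 536870912) (P3 := 1020054732) (W3 := 13421774) (N0 := 3) (En := eng) (mo := mog) (C1 := cd3q0) (C2 := cd5q2) (C3 := pd2)
    rfl (fun _ => rfl) s8_pp_022

noncomputable def f_pp_023 : ℕ → ℕ → ℕ → ℕ → Bool := onCell 1073741824 536870912 0 1230186008 1020054732 13421774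
    (rowB 3 eng mog cd3q0 cd5q3 pd2 2 false true true .up 0 2 3 (qsf 0 536870912 0 1230186008 2) ndB3q0 ndB5q3 pcB2 Cut.none Ext.none)

def k0_pp_023 : ∃ t, chk3 f_pp_023 t 1 1 1 = true :=
  ⟨(b (a (l 2) (a (l 2) (a (b (l 2) (b (l 16478248) (l 15927080))) (b (b (l 4) (l 15720768)) (b (l 16661696) (l 15957656)))))) (b (a (a (l 2) (b (l 2) (a (l 2) (l 15665912)))) (a (b (a (l 2) (l 15979504)) (a (l 15910736) (l 16102872))) (b (a (l 16050168) (l 16066200)) (b (l 16212992) (a (l 16294656) (l 16363720)))))) (b (a (a (l 2) (a (a (b (l 2) (l 15233224)) (b (l 15430024) (l 15420016))) (b (l 15683744) (l 15693080)))) (a (b (a (l 15978088) (l 16207192)) (a (l 16006552) (l 16246448))) (b (a (l 16357576) (l 16416280)) (a (l 16398600) (b (l 16428496) (l 16432360)))))) (b (a (a (a (l 2) (a (b (l 2) (l 14885712)) (b (l 15063144) (l 15121080)))) (a (a (a (l 15232888) (l 15328168)) (l 15466184)) (l 15591384))) (a (a (l 15854392) (l 16316344)) (a (l 16305472) (b (l 16372128)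 (l 16138144))))) (a (a (a (l 3) (a (l 14950448) (b (l 15156288) (l 15228056)))) (a (a (a (b (l 15326104) (l 15390744)) (a (l 15437576) (l 15369256))) (l 15584792)) (b (l 15846912) (l 15926288)))) (a (a (b (l 16167880) (l 16237336)) (b (l 16377872) (l 16409800))) (a (b (l 16445304) (l 16237136)) (b (a (l 16042456) (b (l 15572736) (a (l 15785032) (l 15674272)))) (a (b (a (l 15945208) (l 15816136)) (a (l 15846656) (l 15701648))) (b (a (l 15708928) (b (l 15532960) (a (l 15627792) (l 15566280)))) (a (b (l 15462432) (a (l 15659856) (l 15533472))) (b (a (l 15581816) (l 15482040)) (l 15439720))))))))))))), by decide +kernel⟩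

theorem c_pp_023 : CertB 0 536870912 0 1230186008 1020054732 13421774 3 eng mog cd3q0 cd5q3 pd2 false true true .up 0 2 3
    ndB3q0 ndB5q3 pcB2 Cut.none Ext.none :=
  certB2 (fam := false) (s1 := true) (s2 := true) (a := 0) (b := 2) (c := 3) (cn := .up) (n1 := ndB3q0) (n2 := ndB5q3) (pc := pcB2) (cut := Cut.none) (xt := Ext.none) (P1 := 0) (W1 := 536870912) (P2 := 0) (W2 := 1230186008) (P3 := 1020054732) (W3 := 13421774) (N0 := 3) (En := eng) (mo := mog) (C1 := cd3q0) (C2 := cd5q3) (C3 := pd2)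
    rfl (fun _ => rfl) k0_pp_023

noncomputable def f_pp_033 : ℕ → ℕ → ℕ → ℕ → Bool := onCell 0 536870912 0 1230186008 1020054732 13421774
    (rowB 3 eng mog cd3q0 cd5q3 pd3 0 false true true .pnn 0 3 3 (qsf 0 536870912 0 1230186008 3) ndB3q0 ndB5q3 pcB3 Cut.none Ext.none)

def k0_pp_033 : ∃ t, chk3 f_pp_033 t 1 2 1 = true :=
  ⟨(b (a (l 4) (a (l 4) (b (l 4) (a (l 15647072) (l 15493320))))) (a (b (a (l 4) (a (l 16267232) (l 16604552))) (a (a (a (a (b (l 4) (l 14936896)) (a (l 15125304) (l 15241976))) (a (b (l 15359528) (l 15271112)) (l 15390104))) (b (l 15735848) (b (l 15692408) (l 15672448)))) (a (b (l 16205120) (l 16188184)) (b (l 16608552) (l 16618656))))) (a (b (a (l 16233808) (l 15838216)) (b (a (l 16239288) (l 15893832)) (l 16041552))) (b (a (b (l 15749704) (l 15687592)) (l 15545712)) (b (a (l 15612072) (l 15397920)) (l 15443696)))))), by decide +kernel⟩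

def k1_pp_033 : ∃ t, chk3 f_pp_033 t 1 3 1 = true :=
  ⟨(b (a (b (a (a (a (a (b (l 14874376) (l 14863672)) (b (a (l 15023328) (l 15123856)) (a (l 15008792) (l 15107656)))) (a (b (l 15217160) (l 15199512)) (b (l 15306360) (l 15288960)))) (l 15634488)) (a (l 16175072) (l 16628776))) (a (b (a (a (a (b (l 14874008) (l 14887048)) (b (l 15077536) (l 14834152))) (l 15251848)) (l 15635176)) (a (a (a (l 14994128) (a (l 15117304) (l 15206336))) (a (l 15279728) (l 15351176))) (b (l 15650912) (l 15697336)))) (b (a (l 16192352) (l 16608472)) (a (b (l 16207760) (l 16231312)) (b (l 16583584) (l 16610704)))))) (a (b (a (l 16199240) (l 15815072)) (b (a (l 16147640) (l 15743616)) (a (l 16115528) (l 1)))) (b (l 609378697287) (l 1)))) (a (b (a (b (a (a (a (b (l 15152232) (l 15119032)) (a (l 15282504) (l 15379376))) (a (b (l 15434632) (l 15495504)) (b (l 15490720) (l 15581168)))) (a (b (l 15652768) (l 15751872)) (l 15936120))) (a (a (a (b (l 15028152) (l 14971944)) (a (b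 (l 15208368) (l 15118008)) (l 15021816))) (a (l 15408944) (l 15532400))) (b (a (l 15783520) (l 15992056)) (a (l 15747672) (l 16063304))))) (b (a (a (l 16159736) (l 16430600)) (b (l 16763768) (l 16581520))) (a (a (b (l 16080728) (l 16128496)) (b (l 16208440) (l 16128184))) (l 1)))) (a (b (a (a (a (l 15132568) (a (l 15233752) (l 15067944))) (a (b (l 15331176) (l 15432688)) (b (l 15431160) (l 15485256)))) (b (a (l 15694256) (l 16037656)) (a (l 15552032) (l 15997264)))) (a (a (a (b (l 15379472) (l 15520896)) (a (l 15562880) (l 15625640))) (a (l 15671064) (l 15707552))) (a (l 15847792) (l 1)))) (b (a (a (b (l 16307464) (l 1)) (l 1)) (l 1)) (l 1)))) (l 1))), by decide +kernel⟩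

theorem s2_pp_033 : ∃ t, chk3 f_pp_033 t 1 1 1 = true := ex3_b k0_pp_033 k1_pp_033

theorem c_pp_033 : CertB 0 536870912 0 1230186008 1020054732 13421774 3 eng mog cd3q0 cd5q3 pd3 false true true .pnn 0 3 3
    ndB3q0 ndB5q3 pcB3 Cut.none Ext.none :=
  certB0 (fam := false) (s1 := true) (s2 := true) (a := 0) (b := 3) (c := 3) (cn := .pnn) (n1 := ndB3q0) (n2 := ndB5q3) (pc := pcB3) (cut := Cut.none) (xt := Ext.none) (P1 := 0) (W1 := 536870912) (P2 := 0) (W2 := 1230186008) (P3 := 1020054732) (W3 := 13421774) (N0 := 3) (En := eng) (mo := mog) (C1 := cd3q0) (C2 := cd5q3) (C3 := pd3)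
    rfl s2_pp_033

noncomputable def f_pp_101 : ℕ → ℕ → ℕ → ℕ → Bool := onCell 536870912 536870912 536870912 536870912 1020054732 13421774
    (rowB 3 eng mog cd3q1 cd5q1 pd0 0 false true true .npn 1 0 1 (qsf 536870912 536870912 536870912 536870912 0) ndB3q1 ndB5q1 pcB0 Cut.none Ext.none)

def k0_pp_101 : ∃ t, chk3 f_pp_101 t 1 1 1 = true :=
  ⟨(l 3), by decide +kernel⟩

theorem c_pp_101 : CertB 536870912 536870912 536870912 536870912 1020054732 13421774 3 eng mog cd3q1 cd5q1 pd0 false true true .npn 1 0 1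
    ndB3q1 ndB5q1 pcB0 Cut.none Ext.none :=
  certB0 (fam := false) (s1 := true) (s2 := true) (a := 1) (b := 0) (c := 1) (cn := .npn) (n1 := ndB3q1) (n2 := ndB5q1) (pc := pcB0) (cut := Cut.none) (xt := Ext.none) (P1 := 536870912) (W1 := 536870912) (P2 := 536870912) (W2 := 536870912) (P3 := 1020054732) (W3 := 13421774) (N0 := 3) (En := eng) (mo := mog) (C1 := cd3q1) (C2 := cd5q1) (C3 := pd0)
    rfl k0_pp_101

noncomputable def f_pp_102 : ℕ → ℕ → ℕ → ℕ → Bool := onCell 536870912 536870912 1073741824 536870912 1020054732 13421774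
    (rowB 3 eng mog cd3q1 cd5q2 pd0 0 false true true .npp 1 0 2 (qsf 536870912 536870912 1073741824 536870912 0) ndB3q1 ndB5q2 pcB0 Cut.none Ext.none)

def k0_pp_102 : ∃ t, chk3 f_pp_102 t 1 1 1 = true :=
  ⟨(l 3), by decide +kernel⟩

theorem c_pp_102 : CertB 536870912 536870912 1073741824 536870912 1020054732 13421774 3 eng mog cd3q1 cd5q2 pd0 false true true .npp 1 0 2
    ndB3q1 ndB5q2 pcB0 Cut.none Ext.none :=
  certB0 (fam := false) (s1 := true) (s2 := true) (a := 1) (b := 0) (c := 2) (cn := .npp) (n1 := ndB3q1) (n2 := ndB5q2) (pc := pcB0) (cut := Cut.none) (xt := Ext.none) (P1 := 536870912) (W1 := 536870912) (P2 := 1073741824) (W2 := 536870912) (P3 := 1020054732) (W3 := 13421774) (N0 := 3) (En := eng) (mo := mog) (C1 := cd3q1) (C2 := cd5q2) (C3 := pd0)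
    rfl k0_pp_102

noncomputable def f_pp_112 : ℕ → ℕ → ℕ → ℕ → Bool := onCell 536870912 536870912 1073741824 536870912 1020054732 13421774
    (rowB 3 eng mog cd3q1 cd5q2 pd1 0 false true true .dn 1 1 2 (qsf 536870912 536870912 1073741824 536870912 1) ndB3q1 ndB5q2 pcB1 Cut.none Ext.none)

def k0_pp_112 : ∃ t, chk3 f_pp_112 t 1 1 1 = true :=
  ⟨(l 3), by decide +kernel⟩

theorem c_pp_112 : CertB 536870912 536870912 1073741824 536870912 1020054732 13421774 3 eng mog cd3q1 cd5q2 pd1 false true true .dn 1 1 2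
    ndB3q1 ndB5q2 pcB1 Cut.none Ext.none :=
  certB0 (fam := false) (s1 := true) (s2 := true) (a := 1) (b := 1) (c := 2) (cn := .dn) (n1 := ndB3q1) (n2 := ndB5q2) (pc := pcB1) (cut := Cut.none) (xt := Ext.none) (P1 := 536870912) (W1 := 536870912) (P2 := 1073741824) (W2 := 536870912) (P3 := 1020054732) (W3 := 13421774) (N0 := 3) (En := eng) (mo := mog) (C1 := cd3q1) (C2 := cd5q2) (C3 := pd1)
    rfl k0_pp_112

end Pool.Agent.Strip051.G.I9500_9625.Tab.C.BB35

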