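import Pool.Agent.Strip051.PB.DgE
import Pool.Agent.Strip051.PB.DgJ
import Pool.Agent.Strip051.G.I9500_9625.Fact

/-! # The corner (1, 1, 2): parameters of the degenerate charts (generated) -/

set_option linter.all false

namespace Pool.Agent.Strip051.G.I9500_9625.Tab.DG

open Pool.Agent.Strip051.PB Pool.Agent.Strip051.PB.Dg Pool.Agent.StripNear Pool.Agent.Strip051.LC

noncomputable def pFma : Fn1 := ⟨_, _, fun h1 => (enc_norm (enc_sub (enc_rat _ 5253186313277 36735000000000) (enc_scaleT 747735835133 1224500000000 (enc_subr 153 160 h1))))⟩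
noncomputable def pFmb : Fn1 := ⟨_, _, fun h1 => (enc_norm (enc_subr 418775008729 489800000000 (enc_neg (enc_scaleT 887585516977 1836750000000 (enc_subr 153 160 h1)))))⟩
noncomputable def pFmu : Fn1 := ⟨_, _, fun h1 => (mug3.enc h1)⟩
noncomputable def pFnx : Fn1 := ⟨_, _, fun h1 => (enc_norm (enc_add h1 (enc_pnc _ 3)))⟩
noncomputable def pFc0 : Fn1 := ⟨_, _, fun h1 => (enc_pnc _ 1)⟩
noncomputable def pFkc : Fn1 := ⟨_, _, fun h1 => (enc_norm (enc_sub (enc_rat _ 843209179 1000000000) (enc_scaleT 59251089 50000000 (enc_subr 153 160 h1))))⟩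
noncomputable def pFjc : Fn1 := ⟨_, _, fun h1 => (enc_norm (enc_add (enc_scaleT 541106144387249 3673500000000 (enc_subr 153 160 h1)) (enc_rat _ 438005528355677 36735000000000)))⟩
noncomputable def pFca : Fn1 := ⟨_, _, fun h1 => (enc_norm (enc_add (enc_scaleT 78111 1000 (enc_subr 153 160 h1)) (enc_rat _ 33547 10000)))⟩
noncomputable def pFcb : Fn1 := ⟨_, _, fun h1 => (enc_norm (enc_subr 557 400 (enc_neg (enc_scaleT 24247 500 (enc_subr 153 160 h1)))))⟩
noncomputable def pFcc : Fn1 := ⟨_, _, fun h1 => (enc_norm (enc_subr 53 10000 (enc_neg (enc_scaleT 2761 1000 (enc_subr 153 160 h1)))))⟩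
noncomputable def pFsv : Fn1 := ⟨_, _, fun h1 => (enc_norm (enc_subr 51 2048 h1))⟩
noncomputable def pFx11 : Fn1 := ⟨_, _, fun h1 => (cv1m.enc h1)⟩
noncomputable def pFx01 : Fn1 := ⟨_, _, fun h1 => (c1g.enc h1)⟩
noncomputable def pFK11 : Fn2 := ⟨_, _, fun h1 h2 => (kf1q1.enc h1 h2)⟩
noncomputable def pFK01 : Fn2 := ⟨_, _, fun h1 h2 => (kf0q1.enc h1 h2)⟩
noncomputable def pFL11 : Fn2 := ⟨_, _, fun h1 h2 => (l1q1.enc h1 h2)⟩
noncomputable def pFL01 : Fn2 := ⟨_, _, fun h1 h2 => (l0q1.enc h1 h2)⟩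
noncomputable def kFc0 : Fn1 := ⟨_, _, fun h1 => (enc_norm (enc_add (enc_scaleT 33818468535239 3373420968750000 (enc_subr 153 160 h1)) (enc_rat _ 219213962050051 269873677500000000)))⟩
noncomputable def kFc0g : Fn1 := ⟨_, _, fun h1 => (enc_norm (enc_subr 41 10000 (enc_neg (enc_scaleT 1017 1000 (enc_subr 153 160 h1)))))⟩
noncomputable def kFc1 : Fn1 := ⟨_, _, fun h1 => (enc_norm (enc_subr 36557043612331962143 85066751374202500000000 (enc_neg (enc_scaleT 9138191530388206019 1790878976299000000000 (enc_subr 153 160 h1)))))⟩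
noncomputable def kFc1g : Fn1 := ⟨_, _, fun h1 => (enc_norm (enc_subr 539731 1250 (enc_neg (enc_scaleT 6788727 1000 (enc_subr 153 160 h1)))))⟩
noncomputable def kFa0 : Fn1 := ⟨_, _, fun h1 => (enc_norm (enc_add (enc_scaleT 25550565231 5140451000000000 (enc_subr 153 160 h1)) (enc_rat _ 3424475178253 269873677500000000)))⟩
noncomputable def kFa0g : Fn1 := ⟨_, _, fun h1 => (enc_norm (enc_subr 44577 10000 (enc_neg (enc_scaleT 57033 500 (enc_subr 153 160 h1)))))⟩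
noncomputable def kFa1 : Fn1 := ⟨_, _, fun h1 => (enc_norm (enc_subr 16086705804683 1559368090000000000 (enc_neg (enc_scaleT 437685743437 5569171750000000 (enc_subr 153 160 h1)))))⟩
noncomputable def kFa1g : Fn1 := ⟨_, _, fun h1 => (enc_norm (enc_subr 27341 10000 (enc_scaleT 7209 500 (enc_subr 153 160 h1))))⟩
noncomputable def kFa2 : Fn1 := ⟨_, _, fun h1 => (enc_norm (enc_add (enc_scaleT 14726953 10613000000000 (enc_subr 153 160 h1)) (enc_rat _ 63406897 318390000000000)))⟩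
noncomputable def kFa2g : Fn1 := ⟨_, _, fun h1 => (enc_norm (enc_add (enc_scaleT 721 100 (enc_subr 153 160 h1)) (enc_rat _ 31383 10000)))⟩
noncomputable def kFb0 : Fn1 := ⟨_, _, fun h1 => (enc_norm (enc_subr 20729574658231 359831570000000000 (enc_neg (enc_scaleT 1995043423267 26987367750000000 (enc_subr 153 160 h1)))))⟩
noncomputable def kFb0g : Fn1 := ⟨_, _, fun h1 => (enc_norm (enc_add (enc_scaleT 27851 500 (enc_subr 153 160 h1)) (enc_rat _ 11253 5000)))⟩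
noncomputable def kFb1_2 : Fn1 := ⟨_, _, fun h1 => (enc_subr 153 160 h1)⟩
noncomputable def kFb1 : Fn1 := ⟨_, _, fun h1 => (enc_norm (enc_add (enc_mul (enc_norm (enc_add (enc_scaleT 8615610954057 57896107925000000 (kFb1_2.enc h1)) (enc_rat _ 1501653145761199573 17013350274840500000000))) (enc_norm (kFb1_2.enc h1))) (enc_rat _ 6252751211136475321 170133502748405000000000)))⟩
noncomputable def kFb1g_2 : Fn1 := ⟨_, _, fun h1 => (enc_subr 153 160 h1)⟩
noncomputable def kFb1g : Fn1 := ⟨_, _, fun h1 => (enc_norm (enc_add (enc_mul (enc_norm (enc_subr 889 500 (enc_neg (enc_scaleT 24617 25 (kFb1g_2.enc h1))))) (enc_norm (kFb1g_2.enc h1))) (enc_rat _ 2941 2500)))⟩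
noncomputable def kFd0 : Fn1 := ⟨_, _, fun h1 => (enc_norm (enc_subr 55339773618187 539747355000000000 (enc_neg (enc_scaleT 3084757103257 21589894200000000 (enc_subr 153 160 h1)))))⟩
noncomputable def kFd0g : Fn1 := ⟨_, _, fun h1 => (enc_norm (enc_sub (enc_rat _ 87 2000) (enc_scaleT 1331 500 (enc_subr 153 160 h1))))⟩
noncomputable def kFd1_2 : Fn1 := ⟨_, _, fun h1 => (enc_subr 153 160 h1)⟩
noncomputable def kFd1 : Fn1 := ⟨_, _, fun h1 => (enc_norm (enc_add (enc_mul (enc_norm (enc_add (enc_scaleT 8615610954057 28948053962500000 (kFd1_2.enc h1)) (enc_rat _ 4420880272485067792773 45140671616720556625000000))) (enc_norm (kFd1_2.enc h1))) (enc_rat _ 228187488198139612790581 3611253729337644530000000000)))⟩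
noncomputable def kFd1g_2 : Fn1 := ⟨_, _, fun h1 => (enc_subr 153 160 h1)⟩
noncomputable def kFd1g : Fn1 := ⟨_, _, fun h1 => (enc_norm (enc_subr 3813 10000 (enc_mul (enc_norm (enc_sub (enc_rat _ 5431 500) (enc_scaleT 49234 25 (kFd1g_2.enc h1)))) (enc_norm (kFd1g_2.enc h1)))))⟩
noncomputable def kFd2 : Fn1 := ⟨_, _, fun h1 => (enc_norm (enc_add (enc_scaleT 14726953 10613000000000 (enc_subr 153 160 h1)) (enc_rat _ 63406897 318390000000000)))⟩
noncomputable def kFd2g : Fn1 := ⟨_, _, fun h1 => (enc_norm (enc_add (enc_scaleT 721 100 (enc_subr 153 160 h1)) (enc_rat _ 31383 10000)))⟩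
noncomputable def kFe0 : Fn1 := ⟨_, _, fun h1 => (enc_norm (enc_subr 48490823261681 1079494710000000000 (enc_neg (enc_scaleT 7443611823217 107949471000000000 (enc_subr 153 160 h1)))))⟩
noncomputable def kFe0g : Fn1 := ⟨_, _, fun h1 => (enc_norm (enc_subr 22071 10000 (enc_neg (enc_scaleT 14591 250 (enc_subr 153 160 h1)))))⟩
noncomputable def kFe1_2 : Fn1 := ⟨_, _, fun h1 => (enc_subr 153 160 h1)⟩
noncomputable def kFe1 : Fn1 := ⟨_, _, fun h1 => (enc_norm (enc_add (enc_mul (enc_norm (enc_add (enc_scaleT 8615610954057 57896107925000000 (kFe1_2.enc h1)) (enc_rat _ 1746476253976660102843 180562686466882226500000000))) (enc_norm (kFe1_2.enc h1))) (enc_rat _ 19093318198111357525407 722250745867528906000000000)))⟩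
noncomputable def kFe1g_2 : Fn1 := ⟨_, _, fun h1 => (enc_subr 153 160 h1)⟩
noncomputable def kFe1g : Fn1 := ⟨_, _, fun h1 => (enc_norm (enc_subr 15577 10000 (enc_mul (enc_norm (enc_sub (enc_rat _ 316 25) (enc_scaleT 24617 25 (kFe1g_2.enc h1)))) (enc_norm (kFe1g_2.enc h1)))))⟩
noncomputable def kFe2 : Fn1 := ⟨_, _, fun h1 => (enc_norm (enc_add (enc_scaleT 14726953 10613000000000 (enc_subr 153 160 h1)) (enc_rat _ 63406897 318390000000000)))⟩
noncomputable def kFe2g : Fn1 := ⟨_, _, fun h1 => (enc_norm (enc_add (enc_scaleT 721 100 (enc_subr 153 160 h1)) (enc_rat _ 31383 10000)))⟩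
noncomputable def cFxs1 : Fn1 := ⟨_, _, fun h1 => (enc_norm (enc_add (enc_scaleT 4 5 (dgxi.enc h1)) (enc_scaleT 1 5 (dgws.enc h1))))⟩
noncomputable def cFsB1 : Fn2 := ⟨_, _, fun h1 h2 => (enc_norm (enc_subr 2907 1010 (enc_scaleT 175 101 (enc_subr 153 160 h2))))⟩
noncomputable def cFBs1 : Fn2 := ⟨_, _, fun h1 h2 => (cFsB1.enc h1 h2)⟩
noncomputable def cFsX1 : Fn2 := ⟨_, _, fun h1 h2 => (enc_norm (enc_subr 2692 1515 (enc_neg (enc_scaleT 454 101 (enc_subr 153 160 h2)))))⟩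
noncomputable def cFsD1 : Fn2 := ⟨_, _, fun h1 h2 => (enc_pnc _ 0)⟩
noncomputable def cFsDD1 : Fn2 := ⟨_, _, fun h1 h2 => (cFsD1.enc h1 h2)⟩
noncomputable def cFxs2 : Fn1 := ⟨_, _, fun h1 => (enc_norm (enc_add (enc_scaleT 2 5 (dgxi.enc h1)) (enc_scaleT 3 5 (dgws.enc h1))))⟩
noncomputable def cFsB2 : Fn2 := ⟨_, _, fun h1 h2 => (enc_norm (enc_subr 175 202 (enc_scaleT 13341 101 (enc_subr 153 160 h2))))⟩
noncomputable def cFBs2 : Fn2 := ⟨_, _, fun h1 h2 => (cFsB2.enc h1 h2)⟩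
noncomputable def cFsX2 : Fn2 := ⟨_, _, fun h1 h2 => (enc_norm (enc_subr 284 303 (enc_scaleT 543 101 (enc_subr 153 160 h2))))⟩
noncomputable def cFsD2 : Fn2 := ⟨_, _, fun h1 h2 => (enc_norm (enc_sub (enc_rat _ 37439 1550) (enc_scaleT 25316 155 (enc_subr 153 160 h2))))⟩
noncomputable def cFsDD2 : Fn2 := ⟨_, _, fun h1 h2 => (cFsD2.enc h1 h2)⟩
noncomputable def nFsc2 : Fn1 := ⟨_, _, fun h1 => (enc_scaleT 3 5 h1)⟩
noncomputable def nFB2_3 : Fn2 := ⟨_, _, fun h1 h2 => (enc_subr 153 160 h2)⟩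
noncomputable def nFB2 : Fn2 := ⟨_, _, fun h1 h2 => (enc_norm (enc_add (enc_subr 46463 100000 (enc_scaleT 1509 10000 (nFB2_3.enc h1 h2))) (enc_mul h1 (enc_norm (enc_sub (enc_rat _ 55220000 47218561) (enc_scaleT 1371800000 10896591 (nFB2_3.enc h1 h2)))))))⟩
noncomputable def nFX2_3 : Fn2 := ⟨_, _, fun h1 h2 => (enc_subr 153 160 h2)⟩
noncomputable def nFX2 : Fn2 := ⟨_, _, fun h1 h2 => (enc_norm (enc_add (enc_sub (enc_rat _ 44357 50000) (enc_scaleT 1407 2500 (nFX2_3.enc h1 h2))) (enc_mul h1 (enc_norm (enc_add (enc_scaleT 1577600000 141655683 (nFX2_3.enc h1 h2)) (enc_rat _ 10390000 47218561))))))⟩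
noncomputable def nFD2_3 : Fn2 := ⟨_, _, fun h1 h2 => (enc_subr 153 160 h2)⟩
noncomputable def nFD2 : Fn2 := ⟨_, _, fun h1 h2 => (enc_norm (enc_add (enc_sub (enc_rat _ 13029 2000) (enc_scaleT 74139 1000 (nFD2_3.enc h1 h2))) (enc_mul h1 (enc_norm (enc_sub (enc_rat _ 16824500000 298872883) (enc_scaleT 83827000000 298872883 (nFD2_3.enc h1 h2)))))))⟩
noncomputable def nFsc3 : Fn1 := ⟨_, _, fun h1 => (enc_norm (enc_add (enc_scaleT 9481 10000 h1) (enc_rat _ 519 10000)))⟩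
noncomputable def nFB3 : Fn2 := ⟨_, _, fun h1 h2 => (enc_norm (enc_subr 199600000 47218561 (enc_neg (enc_scaleT 2013000000 47218561 (enc_subr 153 160 h2)))))⟩
noncomputable def nFX3 : Fn2 := ⟨_, _, fun h1 h2 => (enc_norm (enc_sub (enc_rat _ 5909137403927 10407443030010) (enc_scaleT 778487373307 1040744303001 (enc_subr 153 160 h2))))⟩
noncomputable def nFD3 : Fn2 := ⟨_, _, fun h1 h2 => (enc_norm (enc_sub (enc_rat _ 1694191000000 49911771461) (enc_scaleT 7662594000000 49911771461 (enc_subr 153 160 h2))))⟩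
noncomputable def nFsc4 : Fn1 := ⟨_, _, fun h1 => (enc_norm (enc_add (enc_scaleT 3 10 h1) (enc_rat _ 7 10)))⟩
noncomputable def nFB4 : Fn2 := ⟨_, _, fun h1 h2 => (enc_norm (enc_subr 98270000 141655683 (enc_neg (enc_scaleT 67000000 10896591 (enc_subr 153 160 h2)))))⟩
noncomputable def nFX4 : Fn2 := ⟨_, _, fun h1 h2 => (enc_norm (enc_add (enc_scaleT 3567997826693 1040744303001 (enc_subr 153 160 h2)) (enc_rat _ 371703503927 10407443030010)))⟩
noncomputable def nFD4 : Fn2 := ⟨_, _, fun h1 h2 => (enc_norm (enc_subr 349120800000 49911771461 (enc_neg (enc_scaleT 152556637000000 49911771461 (enc_subr 153 160 h2)))))⟩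
noncomputable def l12F : List Knk := [⟨7347, 500000, kFc0, kFc0g⟩, ⟨29387, 1000000, kFc1, kFc1g⟩]
noncomputable def laF : List Knk := [⟨7347, 500000, kFa0, kFa0g⟩, ⟨29387, 1000000, kFa1, kFa1g⟩, ⟨1, 25, kFa2, kFa2g⟩]
noncomputable def lbF : List Knk := [⟨7347, 500000, kFb0, kFb0g⟩, ⟨29387, 1000000, kFb1, kFb1g⟩]
noncomputable def l1F : List Knk := [⟨7347, 500000, kFe0, kFe0g⟩, ⟨29387, 1000000, kFe1, kFe1g⟩, ⟨1, 25, kFe2, kFe2g⟩]
noncomputable def l2F : List Knk := [⟨7347, 500000, kFd0, kFd0g⟩, ⟨29387, 1000000, kFd1, kFd1g⟩, ⟨1, 25, kFd2, kFd2g⟩]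
noncomputable def cvF1 : CvP := ⟨cFxs1, cFBs1, cFsX1⟩
noncomputable def cvF2 : CvP := ⟨cFxs2, cFBs2, cFsX2⟩
noncomputable def ndF2 : NdU := ⟨nFsc2, nFB2, nFX2, nFD2⟩
noncomputable def ndF3 : NdU := ⟨nFsc3, nFB3, nFX3, nFD3⟩
noncomputable def ndF4 : NdU := ⟨nFsc4, nFB4, nFX4, nFD4⟩
noncomputable def pF : Pm := ⟨pFma, pFmb, pFmu, pFnx, pFc0, pFkc, pFjc, pFkc, pFjc, pFkc, pFjc, pFca, pFcb, pFcc, pFcc, pFcc, pFsv, l12F, l12F, l12F, laF, lbF, l1F, l2F, cvF1, pFx11, pFx01, pFK11, pFK01, pFL11, pFL01⟩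
noncomputable def pNc0 : Fn1 := ⟨_, _, fun h1 => (eng.enc h1)⟩
noncomputable def pNkc : Fn1 := ⟨_, _, fun h1 => (enc_norm (enc_mul (pNc0.enc h1) (enc_norm (enc_sub (enc_rat _ 843209179 1000000000) (enc_scaleT 59251089 50000000 (enc_subr 153 160 h1))))))⟩
noncomputable def pNjc : Fn1 := ⟨_, _, fun h1 => (enc_norm (enc_mul (pNc0.enc h1) (enc_norm (enc_add (enc_scaleT 541106144387249 3673500000000 (enc_subr 153 160 h1)) (enc_rat _ 438005528355677 36735000000000)))))⟩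
noncomputable def pNcc : Fn1 := ⟨_, _, fun h1 => (enc_norm (enc_mul (pNc0.enc h1) (enc_norm (enc_subr 53 10000 (enc_neg (enc_scaleT 2761 1000 (enc_subr 153 160 h1)))))))⟩
noncomputable def pNK11 : Fn2 := ⟨_, _, fun h1 h2 => (enc_norm (enc_mul (pNc0.enc h2) (kf1q1.enc h1 h2)))⟩
noncomputable def pNK01 : Fn2 := ⟨_, _, fun h1 h2 => (enc_norm (enc_mul (pNc0.enc h2) (kf0q1.enc h1 h2)))⟩
noncomputable def kNc0 : Fn1 := ⟨_, _, fun h1 => (enc_norm (enc_mul (pNc0.enc h1) (enc_norm (enc_add (enc_scaleT 33818468535239 3373420968750000 (enc_subr 153 160 h1)) (enc_rat _ 219213962050051 269873677500000000)))))⟩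
noncomputable def kNc0g : Fn1 := ⟨_, _, fun h1 => (enc_norm (enc_mul (pNc0.enc h1) (enc_norm (enc_subr 41 10000 (enc_neg (enc_scaleT 1017 1000 (enc_subr 153 160 h1)))))))⟩
noncomputable def kNc1 : Fn1 := ⟨_, _, fun h1 => (enc_norm (enc_mul (pNc0.enc h1) (enc_norm (enc_subr 36557043612331962143 85066751374202500000000 (enc_neg (enc_scaleT 9138191530388206019 1790878976299000000000 (enc_subr 153 160 h1)))))))⟩
noncomputable def kNc1g : Fn1 := ⟨_, _, fun h1 => (enc_norm (enc_mul (pNc0.enc h1) (enc_norm (enc_subr 539731 1250 (enc_neg (enc_scaleT 6788727 1000 (enc_subr 153 160 h1)))))))⟩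
noncomputable def cNBs1 : Fn2 := ⟨_, _, fun h1 h2 => (enc_norm (enc_mul (pNc0.enc h2) (cFsB1.enc h1 h2)))⟩
noncomputable def cNBs2 : Fn2 := ⟨_, _, fun h1 h2 => (enc_norm (enc_mul (pNc0.enc h2) (cFsB2.enc h1 h2)))⟩
noncomputable def nNB2_4 : Fn2 := ⟨_, _, fun h1 h2 => (enc_subr 153 160 h2)⟩
noncomputable def nNB2 : Fn2 := ⟨_, _, fun h1 h2 => (enc_norm (enc_mul (pNc0.enc h2) (enc_norm (enc_add (enc_subr 46463 100000 (enc_scaleT 1509 10000 (nNB2_4.enc h1 h2))) (enc_mul h1 (enc_norm (enc_sub (enc_rat _ 55220000 47218561) (enc_scaleT 1371800000 10896591 (nNB2_4.enc h1 h2)))))))))⟩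
noncomputable def nNB3 : Fn2 := ⟨_, _, fun h1 h2 => (enc_norm (enc_mul (pNc0.enc h2) (enc_norm (enc_subr 199600000 47218561 (enc_neg (enc_scaleT 2013000000 47218561 (enc_subr 153 160 h2)))))))⟩
noncomputable def nNB4 : Fn2 := ⟨_, _, fun h1 h2 => (enc_norm (enc_mul (pNc0.enc h2) (enc_norm (enc_subr 98270000 141655683 (enc_neg (enc_scaleT 67000000 10896591 (enc_subr 153 160 h2)))))))⟩
noncomputable def umo : Fn1 := ⟨_, _, fun h1 => (mog.enc h1)⟩
noncomputable def us1 : Fn1 := ⟨_, _, fun h1 => (enc_norm (enc_add (enc_scaleT 1772000 29387 (enc_subr 153 160 h1)) (enc_rat _ 510400 29387)))⟩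
noncomputable def us2 : Fn1 := ⟨_, _, fun h1 => (enc_pnc _ 0)⟩
noncomputable def us3 : Fn1 := ⟨_, _, fun h1 => (enc_norm (enc_sub (enc_rat _ 2314 167) (enc_scaleT 26352 167 (enc_subr 153 160 h1))))⟩
noncomputable def uC11 : Fn2 := ⟨_, _, fun h1 h2 => (kc1q1.enc h1 h2)⟩
noncomputable def uC01 : Fn2 := ⟨_, _, fun h1 h2 => (kc0q1.enc h1 h2)⟩
noncomputable def kNu1_0 : Fn1 := ⟨_, _, fun h1 => (enc_norm (enc_sub (enc_rat _ 16932486334220591 1714249797070000) (enc_scaleT 1428461209751651371 1714249797070000 (enc_subr 153 160 h1))))⟩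
noncomputable def kNu1_0g : Fn1 := ⟨_, _, fun h1 => (enc_pnc _ 0)⟩
noncomputable def l12N : List Knk := [⟨7347, 500000, kNc0, kNc0g⟩, ⟨29387, 1000000, kNc1, kNc1g⟩]
noncomputable def cvN1 : CvP := ⟨cFxs1, cNBs1, cFsX1⟩
noncomputable def cvN2 : CvP := ⟨cFxs2, cNBs2, cFsX2⟩
noncomputable def ndN2 : NdU := ⟨nFsc2, nNB2, nFX2, nFD2⟩
noncomputable def ndN3 : NdU := ⟨nFsc3, nNB3, nFX3, nFD3⟩
noncomputable def ndN4 : NdU := ⟨nFsc4, nNB4, nFX4, nFD4⟩
noncomputable def pN : Pm := ⟨pFma, pFmb, pFmu, pFnx, pNc0, pNkc, pNjc, pNkc, pNjc, pNkc, pNjc, pFca, pFcb, pNcc, pNcc, pNcc, pFsv, l12N, l12N, l12N, laF, lbF, l1F, l2F, cvN1, pFx11, pFx01, pNK11, pNK01, pFL11, pFL01⟩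
noncomputable def ul1 : List Knk := [⟨29387, 1000000, kNu1_0, kNu1_0g⟩]
noncomputable def ul2 : List Knk := []
noncomputable def ul3 : List Knk := []
noncomputable def qN : Pu := ⟨umo, us1, us2, us3, ul1, ul2, ul3, cFsDD1, uC11, uC01⟩

end Pool.Agent.Strip051.G.I9500_9625.Tab.DG
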