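import Pool.Agent.Strip051.G.I9500_9625.Fs

/-! # Certificates at the floor (generated) -/

set_option linter.all false

namespace Pool.Agent.Strip051.G.I9500_9625.Tab

open Pool.Agent.Strip051.PB

theorem cA_m00 : CertNd 0 536870912 1020054732 13421774 (ftMono true 0 mZ) [] ndB0q0 cZ :=
  certNd (T := (ftMono true 0 mZ)) (L := []) (P1 := 0) (W1 := 536870912) (P3 := 1020054732) (W3 := 13421774) (n := ndB0q0) (c := cZ)
    ⟨T.a (T.a (T.l 0) (T.l 0)) (T.l 0),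
      by decide +kernel⟩
theorem cA_m01 : CertNd 536870912 536870912 1020054732 13421774 (ftMono true 1 mZ) [] ndB0q1 cZ :=
  certNd (T := (ftMono true 1 mZ)) (L := []) (P1 := 536870912) (W1 := 536870912) (P3 := 1020054732) (W3 := 13421774) (n := ndB0q1) (c := cZ)
    ⟨T.a (T.l 0) (T.a (T.l 0) (T.a (T.l 0) (T.l 0))),
      by decide +kernel⟩
theorem cA_g00 : CertGe 0 13958643 1020054732 13421774 true [] (((2 : ℕ) : ℝ) / ((1 : ℕ) : ℝ)) 0 ((0 : ℕ) : ℝ)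
    (((2 : ℕ) : ℝ) / 2) mZ ndB0q0 cZ :=
  certGe (z := true) (L := []) (P1 := 0) (W1 := 13958643) (P3 := 1020054732) (W3 := 13421774) (oa := 2) (ob := 1)
    (q := 0) (bb := 0) (hB := 2) (M := mZ) (n := ndB0q0) (c := cZ) (sX := c1g_sf) (sK := kf0q0_sf)
    (sL := l0q0_sf) ⟨T.l 0,
      by decide +kernel⟩
theorem cA_w00a : CertNd 13958643 522912269 1020054732 13421774 (ftWall true 0 mZ 1 1) [] ndB0q0 cZ :=
  certNd (T := (ftWall true 0 mZ 1 1)) (L := []) (P1 := 13958643) (W1 := 522912269) (P3 := 1020054732) (W3 := 13421774) (n := ndB0q0) (c := cZ)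
    ⟨T.a (T.a (T.a (T.a (T.l 0) (T.l 0)) (T.l 0)) (T.l 0)) (T.l 0),
      by decide +kernel⟩
theorem cA_w01a : CertNd 536870912 478888853 1020054732 13421774 (ftWall true 1 mZ 1 1) [] ndB0q1 cZ :=
  certNd (T := (ftWall true 1 mZ 1 1)) (L := []) (P1 := 536870912) (W1 := 478888853) (P3 := 1020054732) (W3 := 13421774) (n := ndB0q1) (c := cZ)
    ⟨T.a (T.a (T.l 0) (T.l 0)) (T.a (T.l 0) (T.a (T.l 0) (T.a (T.l 0) (T.a (T.c (T.l 0) (T.l 0)) (T.a (T.c (T.l 0) (T.l 0)) (T.c (T.a (T.l 0) (T.c (T.c (T.l 0) (T.l 0)) (T.l 0))) (T.l 0))))))),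
      by decide +kernel⟩
theorem cA_w01b : CertNd 1039382085 24696063 1020054732 13421774 (ftWall true 1 mZ 1 1) [] ndB0q1 cZ :=
  certNd (T := (ftWall true 1 mZ 1 1)) (L := []) (P1 := 1039382085) (W1 := 24696063) (P3 := 1020054732) (W3 := 13421774) (n := ndB0q1) (c := cZ)
    ⟨T.a (T.c (T.a (T.c (T.a (T.c (T.a (T.l 0) (T.l 0)) (T.a (T.l 0) (T.l 0))) (T.c (T.c (T.l 0) (T.l 0)) (T.c (T.l 0) (T.l 0)))) (T.a (T.c (T.a (T.c (T.l 0) (T.l 0)) (T.c (T.l 0) (T.l 0))) (T.a (T.c (T.l 0) (T.l 0)) (T.c (T.l 0) (T.l 0)))) (T.c (T.a (T.l 0) (T.l 0)) (T.a (T.c (T.l 0) (T.l 0)) (T.l 0))))) (T.c (T.a (T.c (T.l 0) (T.l 0)) (T.c (T.l 0) (T.l 0))) (T.a (T.c (T.c (T.l 0) (T.l 0)) (T.c (T.l 0) (T.l 0))) (T.c (T.l 0) (T.l 0))))) (T.a (T.c (T.a (T.c (T.a (T.c (T.l 0) (T.c (T.l 0) (T.l 0))) (T.c (T.l 0) (T.l 0))) (T.a (T.c (T.c (T.l 0) (T.l 0)) (T.c (T.l 0) (T.l 0))) (T.c (T.c (T.l 0) (T.l 0)) (T.c (T.l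 0) (T.l 0))))) (T.c (T.a (T.c (T.l 0) (T.l 0)) (T.c (T.l 0) (T.l 0))) (T.a (T.c (T.l 0) (T.l 0)) (T.c (T.l 0) (T.l 0))))) (T.a (T.c (T.a (T.c (T.a (T.c (T.l 0) (T.l 0)) (T.l 0)) (T.a (T.c (T.l 0) (T.l 0)) (T.c (T.l 0) (T.l 0)))) (T.c (T.c (T.l 0) (T.l 0)) (T.a (T.l 0) (T.l 0)))) (T.a (T.c (T.a (T.c (T.l 0) (T.l 0)) (T.c (T.l 0) (T.l 0))) (T.a (T.c (T.l 0) (T.c (T.l 0) (T.l 0))) (T.c (T.l 0) (T.l 0)))) (T.c (T.a (T.c (T.l 0) (T.l 0)) (T.l 0)) (T.a (T.c (T.l 0) (T.l 0)) (T.c (T.l 0) (T.l 0)))))) (T.c (T.a (T.c (T.c (T.l 0) (T.l 0)) (T.c (T.l 0) (T.l 0))) (T.c (T.l 0) (T.l 0))) (T.a (T.c (T.c (T.l 0) (T.l 0)) (T.a (T.l 0) (T.l 0))) (T.c (T.l 0) (T.l 0)))))) (T.c (T.a (T.c (T.c (T.l 0) (T.l 0)) (T.c (T.l 0) (T.l 0))) (T.c (T.l 0) (T.l 0))) (T.a (T.c (T.a (T.l 0) (T.l 0)) (T.a (T.c (T.l 0) (T.l 0)) (T.l 0))) (T.c (T.l 0) (T.l 0)))))) (T.c (T.a (T.c (T.c (T.l 0) (T.l 0)) (T.c (T.l 0) (T.l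 0))) (T.c (T.l 0) (T.l 0))) (T.a (T.c (T.a (T.l 0) (T.l 0)) (T.a (T.l 0) (T.l 0))) (T.c (T.l 0) (T.l 0)))),
      by decide +kernel⟩
theorem cA_g01 : CertGe 1064078148 9663676 1020054732 13421774 true [] (((2 : ℕ) : ℝ) / ((1 : ℕ) : ℝ)) 1 ((1 : ℕ) : ℝ)
    (((1 : ℕ) : ℝ) / 2) mZ ndB0q1 cZ :=
  certGe (z := true) (L := []) (P1 := 1064078148) (W1 := 9663676) (P3 := 1020054732) (W3 := 13421774) (oa := 2) (ob := 1)
    (q := 1) (bb := 1) (hB := 1) (M := mZ) (n := ndB0q1) (c := cZ) (sX := c1g_sf) (sK := kf0q1_sf)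
    (sL := l0q1_sf) ⟨T.l 0,
      by decide +kernel⟩
theorem cA_tl : CertTg 1015759765 23622320 1020054732 13421774 (ftTf true dlg) [⟨6, 0⟩] :=
  certTg (T := (ftTf true dlg)) (L := [⟨6, 0⟩]) (P1 := 1015759765) (W1 := 23622320) (P3 := 1020054732) (W3 := 13421774)
    ⟨T.l 0,
      by decide +kernel⟩
theorem cA_th : CertTg 1015759765 23622320 1020054732 13421774 (ftTf false dlg) [⟨5, 0⟩] :=
  certTg (T := (ftTf false dlg)) (L := [⟨5, 0⟩]) (P1 := 1015759765) (W1 := 23622320) (P3 := 1020054732) (W3 := 13421774)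
    ⟨T.l 0,
      by decide +kernel⟩
theorem cA_m10 : CertNd 0 12398503 1020054732 13421774 (ftMono true 0 mZ) [] ndB1q0 cZ :=
  certNd (T := (ftMono true 0 mZ)) (L := []) (P1 := 0) (W1 := 12398503) (P3 := 1020054732) (W3 := 13421774) (n := ndB1q0) (c := cZ)
    ⟨T.l 0,
      by decide +kernel⟩
theorem cA_g10 : CertGe 0 6442450 1020054732 13421774 true [] (((2 : ℕ) : ℝ) / ((1 : ℕ) : ℝ)) 0 ((0 : ℕ) : ℝ)
    (((2 : ℕ) : ℝ) / 2) mZ ndB1q0 cZ :=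
  certGe (z := true) (L := []) (P1 := 0) (W1 := 6442450) (P3 := 1020054732) (W3 := 13421774) (oa := 2) (ob := 1)
    (q := 0) (bb := 0) (hB := 2) (M := mZ) (n := ndB1q0) (c := cZ) (sX := cv1m_sf) (sK := kf1q0_sf)
    (sL := l1q0_sf) ⟨T.l 0,
      by decide +kernel⟩
theorem cA_w10 : CertNd 6442450 530428462 1020054732 13421774 (ftWall true 0 mZ 1 1) [] ndB1q0 cZ :=
  certNd (T := (ftWall true 0 mZ 1 1)) (L := []) (P1 := 6442450) (W1 := 530428462) (P3 := 1020054732) (W3 := 13421774) (n := ndB1q0) (c := cZ)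
    ⟨T.a (T.a (T.a (T.a (T.l 0) (T.l 0)) (T.l 0)) (T.l 0)) (T.l 0),
      by decide +kernel⟩
theorem cA_w11 : CertNd 536870912 536870912 1020054732 13421774 (ftWall true 1 mZ 1 1) [] ndB1q1 cZ :=
  certNd (T := (ftWall true 1 mZ 1 1)) (L := []) (P1 := 536870912) (W1 := 536870912) (P3 := 1020054732) (W3 := 13421774) (n := ndB1q1) (c := cZ)
    ⟨T.a (T.l 0) (T.a (T.l 0) (T.a (T.l 0) (T.a (T.l 0) (T.l 0)))),
      by decide +kernel⟩
theorem cA_m20 : CertNd 0 12398503 1020054732 13421774 (ftMono true 0 mZ) [] ndB2q0 cZ :=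
  certNd (T := (ftMono true 0 mZ)) (L := []) (P1 := 0) (W1 := 12398503) (P3 := 1020054732) (W3 := 13421774) (n := ndB2q0) (c := cZ)
    ⟨T.l 0,
      by decide +kernel⟩
theorem cA_g20 : CertGe 0 6442450 1020054732 13421774 true [] (((2 : ℕ) : ℝ) / ((1 : ℕ) : ℝ)) 0 ((0 : ℕ) : ℝ)
    (((2 : ℕ) : ℝ) / 2) mZ ndB2q0 cZ :=
  certGe (z := true) (L := []) (P1 := 0) (W1 := 6442450) (P3 := 1020054732) (W3 := 13421774) (oa := 2) (ob := 1)
    (q := 0) (bb := 0) (hB := 2) (M := mZ) (n := ndB2q0) (c := cZ) (sX := cv2m_sf) (sK := kf2q0_sf)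
    (sL := l2q0_sf) ⟨T.l 0,
      by decide +kernel⟩
theorem cA_w20 : CertNd 6442450 530428462 1020054732 13421774 (ftWall true 0 mZ 1 1) [] ndB2q0 cZ :=
  certNd (T := (ftWall true 0 mZ 1 1)) (L := []) (P1 := 6442450) (W1 := 530428462) (P3 := 1020054732) (W3 := 13421774) (n := ndB2q0) (c := cZ)
    ⟨T.a (T.a (T.a (T.a (T.l 0) (T.l 0)) (T.l 0)) (T.l 0)) (T.l 0),
      by decide +kernel⟩
theorem cA_w21 : CertNd 536870912 536870912 1020054732 13421774 (ftWall true 1 mZ 1 1) [] ndB2q1 cZ :=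
  certNd (T := (ftWall true 1 mZ 1 1)) (L := []) (P1 := 536870912) (W1 := 536870912) (P3 := 1020054732) (W3 := 13421774) (n := ndB2q1) (c := cZ)
    ⟨T.a (T.l 0) (T.a (T.l 0) (T.a (T.l 0) (T.a (T.l 0) (T.l 0)))),
      by decide +kernel⟩
theorem cA_f30 : CertNd 0 12398503 1020054732 13421774 (ftFlatG true 0 mZ 1 1 13) [] ndB3q0 cZ :=
  certNd (T := (ftFlatG true 0 mZ 1 1 13)) (L := []) (P1 := 0) (W1 := 12398503) (P3 := 1020054732) (W3 := 13421774) (n := ndB3q0) (c := cZ)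
    ⟨T.l 0,
      by decide +kernel⟩
theorem cA_l30 : CertNd 0 12398503 1020054732 13421774 (ftWall true 0 mZ 1 1) [⟨3, 1114544014⟩] ndB3q0 cZ :=
  certNd (T := (ftWall true 0 mZ 1 1)) (L := [⟨3, 1114544014⟩]) (P1 := 0) (W1 := 12398503) (P3 := 1020054732) (W3 := 13421774) (n := ndB3q0) (c := cZ)
    ⟨T.a (T.a (T.a (T.a (T.a (T.a (T.a (T.a (T.a (T.a (T.a (T.c (T.c (T.l 0) (T.l 0)) (T.c (T.c (T.l 0) (T.l 0)) (T.c (T.l 0) (T.l 0)))) (T.l 1)) (T.l 1)) (T.l 1)) (T.l 1)) (T.l 1)) (T.l 1)) (T.l 0)) (T.l 0)) (T.l 0)) (T.l 0)) (T.l 0),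
      by decide +kernel⟩
theorem cA_w30 : CertNd 12398502 524472410 1020054732 13421774 (ftWall true 0 mZ 1 1) [] ndB3q0 cZ :=
  certNd (T := (ftWall true 0 mZ 1 1)) (L := []) (P1 := 12398502) (W1 := 524472410) (P3 := 1020054732) (W3 := 13421774) (n := ndB3q0) (c := cZ)
    ⟨T.a (T.a (T.a (T.a (T.a (T.l 0) (T.a (T.l 0) (T.l 0))) (T.a (T.l 0) (T.l 0))) (T.l 0)) (T.l 0)) (T.l 0),
      by decide +kernel⟩
theorem cA_w31 : CertNd 536870912 536870912 1020054732 13421774 (ftWall true 1 mZ 1 1) [] ndB3q1 cZ :=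
  certNd (T := (ftWall true 1 mZ 1 1)) (L := []) (P1 := 536870912) (W1 := 536870912) (P3 := 1020054732) (W3 := 13421774) (n := ndB3q1) (c := cZ)
    ⟨T.a (T.l 0) (T.a (T.l 0) (T.a (T.l 0) (T.a (T.l 0) (T.l 0)))),
      by decide +kernel⟩
theorem cA_w32 : CertNd 1073741824 166215235 1020054732 13421774 (ftWall true 2 mZ 1 1) [⟨4, 0⟩] ndB3q2 cZ :=
  certNd (T := (ftWall true 2 mZ 1 1)) (L := [⟨4, 0⟩]) (P1 := 1073741824) (W1 := 166215235) (P3 := 1020054732) (W3 := 13421774) (n := ndB3q2) (c := cZ)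
    ⟨T.l 0,
      by decide +kernel⟩
theorem cA_f40 : CertNd 0 12398503 1020054732 13421774 (ftFlatG true 0 mZ 1 1 13) [] ndB4q0 cZ :=
  certNd (T := (ftFlatG true 0 mZ 1 1 13)) (L := []) (P1 := 0) (W1 := 12398503) (P3 := 1020054732) (W3 := 13421774) (n := ndB4q0) (c := cZ)
    ⟨T.l 0,
      by decide +kernel⟩
theorem cA_l40 : CertNd 0 12398503 1020054732 13421774 (ftWall true 0 mZ 1 1) [⟨3, 1114544014⟩] ndB4q0 cZ :=
  certNd (T := (ftWall true 0 mZ 1 1)) (L := [⟨3, 1114544014⟩]) (P1 := 0) (W1 := 12398503) (P3 := 1020054732) (W3 := 13421774) (n := ndB4q0) (c := cZ)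
    ⟨T.l 1,
      by decide +kernel⟩
theorem cA_w40 : CertNd 12398502 524472410 1020054732 13421774 (ftWall true 0 mZ 1 1) [] ndB4q0 cZ :=
  certNd (T := (ftWall true 0 mZ 1 1)) (L := []) (P1 := 12398502) (W1 := 524472410) (P3 := 1020054732) (W3 := 13421774) (n := ndB4q0) (c := cZ)
    ⟨T.a (T.a (T.l 0) (T.l 0)) (T.l 0),
      by decide +kernel⟩
theorem cA_w41 : CertNd 536870912 536870912 1020054732 13421774 (ftWall true 1 mZ 1 1) [] ndB4q1 cZ :=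
  certNd (T := (ftWall true 1 mZ 1 1)) (L := []) (P1 := 536870912) (W1 := 536870912) (P3 := 1020054732) (W3 := 13421774) (n := ndB4q1) (c := cZ)
    ⟨T.a (T.l 0) (T.a (T.l 0) (T.a (T.l 0) (T.a (T.l 0) (T.l 0)))),
      by decide +kernel⟩
theorem cA_w42 : CertNd 1073741824 166215235 1020054732 13421774 (ftWall true 2 mZ 1 1) [⟨4, 0⟩] ndB4q2 cZ :=
  certNd (T := (ftWall true 2 mZ 1 1)) (L := [⟨4, 0⟩]) (P1 := 1073741824) (W1 := 166215235) (P3 := 1020054732) (W3 := 13421774) (n := ndB4q2) (c := cZ)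
    ⟨T.l 0,
      by decide +kernel⟩
theorem cA_f50 : CertNd 0 12398503 1020054732 13421774 (ftFlatG true 0 mZ 1 1 13) [] ndB5q0 cZ :=
  certNd (T := (ftFlatG true 0 mZ 1 1 13)) (L := []) (P1 := 0) (W1 := 12398503) (P3 := 1020054732) (W3 := 13421774) (n := ndB5q0) (c := cZ)
    ⟨T.l 0,
      by decide +kernel⟩
theorem cA_l50 : CertNd 0 12398503 1020054732 13421774 (ftWall true 0 mZ 1 1) [⟨3, 1114544014⟩] ndB5q0 cZ :=
  certNd (T := (ftWall true 0 mZ 1 1)) (L := [⟨3, 1114544014⟩]) (P1 := 0) (W1 := 12398503) (P3 := 1020054732) (W3 := 13421774) (n := ndB5q0) (c := cZ)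
    ⟨T.l 0,
      by decide +kernel⟩
theorem cA_w50 : CertNd 12398502 524472410 1020054732 13421774 (ftWall true 0 mZ 1 1) [] ndB5q0 cZ :=
  certNd (T := (ftWall true 0 mZ 1 1)) (L := []) (P1 := 12398502) (W1 := 524472410) (P3 := 1020054732) (W3 := 13421774) (n := ndB5q0) (c := cZ)
    ⟨T.a (T.a (T.l 0) (T.l 0)) (T.l 0),
      by decide +kernel⟩
theorem cA_w51 : CertNd 536870912 536870912 1020054732 13421774 (ftWall true 1 mZ 1 1) [] ndB5q1 cZ :=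
  certNd (T := (ftWall true 1 mZ 1 1)) (L := []) (P1 := 536870912) (W1 := 536870912) (P3 := 1020054732) (W3 := 13421774) (n := ndB5q1) (c := cZ)
    ⟨T.a (T.l 0) (T.a (T.l 0) (T.a (T.l 0) (T.a (T.l 0) (T.l 0)))),
      by decide +kernel⟩
theorem cA_w52 : CertNd 1073741824 166215235 1020054732 13421774 (ftWall true 2 mZ 1 1) [⟨4, 0⟩] ndB5q2 cZ :=
  certNd (T := (ftWall true 2 mZ 1 1)) (L := [⟨4, 0⟩]) (P1 := 1073741824) (W1 := 166215235) (P3 := 1020054732) (W3 := 13421774) (n := ndB5q2) (c := cZ)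
    ⟨T.l 0,
      by decide +kernel⟩
theorem cA_ll : CertSd 0 12398503 1020054732 13421774 (ftWall true 0 mZ 1 1) [] idF (cnF 1038 1000) pcB0 dZ :=
  certSd (T := (ftWall true 0 mZ 1 1)) (L := []) (P1 := 0) (W1 := 12398503) (P3 := 1020054732) (W3 := 13421774) (Y := idF) (X := (cnF 1038 1000))
    (pc := pcB0) (c := dZ) ⟨T.a (T.a (T.a (T.a (T.a (T.c (T.c (T.l 0) (T.c (T.l 0) (T.l 0))) (T.a (T.a (T.c (T.c (T.l 0) (T.l 0)) (T.a (T.a (T.c (T.l 0) (T.l 0)) (T.l 0)) (T.l 0))) (T.l 0)) (T.l 0))) (T.l 0)) (T.l 0)) (T.l 0)) (T.l 0)) (T.l 0),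
      by decide +kernel⟩
theorem cA_st : CertSt 1073741824 32212254 1020054732 13421774 true [] (((2 : ℕ) : ℝ) / ((1 : ℕ) : ℝ)) mZ ndB2q2 cZ ndB3q2 cZ :=
  certSt (z := true) (L := []) (P1 := 1073741824) (W1 := 32212254) (P3 := 1020054732) (W3 := 13421774) (oa := 2) (ob := 1)
    (M := mZ) (n := ndB2q2) (c := cZ) (n' := ndB3q2) (c' := cZ) (sX := cv2p_sf) (sK := kf2q2_sf) (sL := l2q2_sf)
    ⟨T.l 0,
      by decide +kernel⟩
theorem cA_sm : CertSd 485356246 51514666 1020054732 13421774 (ftMono true 2 mZ) [] ygF xsF pcB2 dZ :=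
  certSd (T := (ftMono true 2 mZ)) (L := []) (P1 := 485356246) (W1 := 51514666) (P3 := 1020054732) (W3 := 13421774) (Y := ygF) (X := xsF)
    (pc := pcB2) (c := dZ) ⟨T.l 0,
      by decide +kernel⟩
theorem cA_sw : CertSd 0 485356250 1020054732 13421774 (ftWall true 2 mZ 1 1) [] ygF xsF pcB2 dZ :=
  certSd (T := (ftWall true 2 mZ 1 1)) (L := []) (P1 := 0) (W1 := 485356250) (P3 := 1020054732) (W3 := 13421774) (Y := ygF) (X := xsF)
    (pc := pcB2) (c := dZ) ⟨T.a (T.l 0) (T.a (T.l 0) (T.a (T.l 0) (T.l 0))),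
      by decide +kernel⟩
theorem cA_h0_11 : CertNd 991880209 80590268 1020054732 13421774 (ftHighG true 1 mZ 1 1 26 0 1038) [] ndB1q1 cZ :=
  certNd (T := (ftHighG true 1 mZ 1 1 26 0 1038)) (L := []) (P1 := 991880209) (W1 := 80590268) (P3 := 1020054732) (W3 := 13421774) (n := ndB1q1) (c := cZ)
    ⟨T.a (T.l 0) (T.a (T.l 0) (T.l 0)),
      by decide +kernel⟩
theorem cA_h0_21 : CertNd 991880209 80590268 1020054732 13421774 (ftHighG true 1 mZ 1 1 26 0 1038) [] ndB2q1 cZ :=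
  certNd (T := (ftHighG true 1 mZ 1 1 26 0 1038)) (L := []) (P1 := 991880209) (W1 := 80590268) (P3 := 1020054732) (W3 := 13421774) (n := ndB2q1) (c := cZ)
    ⟨T.a (T.l 0) (T.a (T.l 0) (T.l 0)),
      by decide +kernel⟩
theorem cA_h0_31 : CertNd 991880209 80590268 1020054732 13421774 (ftHighG true 1 mZ 1 1 26 0 1038) [] ndB3q1 cZ :=
  certNd (T := (ftHighG true 1 mZ 1 1 26 0 1038)) (L := []) (P1 := 991880209) (W1 := 80590268) (P3 := 1020054732) (W3 := 13421774) (n := ndB3q1) (c := cZ)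
    ⟨T.a (T.l 0) (T.a (T.l 0) (T.l 0)),
      by decide +kernel⟩
theorem cA_h0_41 : CertNd 991880209 80590268 1020054732 13421774 (ftHighG true 1 mZ 1 1 26 0 1038) [] ndB4q1 cZ :=
  certNd (T := (ftHighG true 1 mZ 1 1 26 0 1038)) (L := []) (P1 := 991880209) (W1 := 80590268) (P3 := 1020054732) (W3 := 13421774) (n := ndB4q1) (c := cZ)
    ⟨T.a (T.l 0) (T.a (T.l 0) (T.l 0)),
      by decide +kernel⟩
theorem cA_h0_51 : CertNd 991880209 80590268 1020054732 13421774 (ftHighG true 1 mZ 1 1 26 0 1038) [] ndB5q1 cZ :=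
  certNd (T := (ftHighG true 1 mZ 1 1 26 0 1038)) (L := []) (P1 := 991880209) (W1 := 80590268) (P3 := 1020054732) (W3 := 13421774) (n := ndB5q1) (c := cZ)
    ⟨T.a (T.l 0) (T.a (T.l 0) (T.l 0)),
      by decide +kernel⟩
theorem cA_h1_01 : CertNd 1060071974 13669850 1020054732 13421774 (ftHighG true 1 mZ 1 1 26 640 1038) [] ndB0q1 cZ :=
  certNd (T := (ftHighG true 1 mZ 1 1 26 640 1038)) (L := []) (P1 := 1060071974) (W1 := 13669850) (P3 := 1020054732) (W3 := 13421774) (n := ndB0q1) (c := cZ)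
    ⟨T.a (T.c (T.l 0) (T.c (T.l 0) (T.l 0))) (T.l 0),
      by decide +kernel⟩
theorem cA_h1_11 : CertNd 1060071974 13669850 1020054732 13421774 (ftHighG true 1 mZ 1 1 26 640 1038) [] ndB1q1 cZ :=
  certNd (T := (ftHighG true 1 mZ 1 1 26 640 1038)) (L := []) (P1 := 1060071974) (W1 := 13669850) (P3 := 1020054732) (W3 := 13421774) (n := ndB1q1) (c := cZ)
    ⟨T.l 0,
      by decide +kernel⟩
theorem cA_h1_21 : CertNd 1060071974 13669850 1020054732 13421774 (ftHighG true 1 mZ 1 1 26 640 1038) [] ndB2q1 cZ :=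
  certNd (T := (ftHighG true 1 mZ 1 1 26 640 1038)) (L := []) (P1 := 1060071974) (W1 := 13669850) (P3 := 1020054732) (W3 := 13421774) (n := ndB2q1) (c := cZ)
    ⟨T.l 0,
      by decide +kernel⟩
theorem cA_h1_31 : CertNd 1060071974 13669850 1020054732 13421774 (ftHighG true 1 mZ 1 1 26 640 1038) [] ndB3q1 cZ :=
  certNd (T := (ftHighG true 1 mZ 1 1 26 640 1038)) (L := []) (P1 := 1060071974) (W1 := 13669850) (P3 := 1020054732) (W3 := 13421774) (n := ndB3q1) (c := cZ)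
    ⟨T.l 0,
      by decide +kernel⟩
theorem cA_h1_41 : CertNd 1060071974 13669850 1020054732 13421774 (ftHighG true 1 mZ 1 1 26 640 1038) [] ndB4q1 cZ :=
  certNd (T := (ftHighG true 1 mZ 1 1 26 640 1038)) (L := []) (P1 := 1060071974) (W1 := 13669850) (P3 := 1020054732) (W3 := 13421774) (n := ndB4q1) (c := cZ)
    ⟨T.l 0,
      by decide +kernel⟩
theorem cA_h1_51 : CertNd 1060071974 13669850 1020054732 13421774 (ftHighG true 1 mZ 1 1 26 640 1038) [] ndB5q1 cZ :=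
  certNd (T := (ftHighG true 1 mZ 1 1 26 640 1038)) (L := []) (P1 := 1060071974) (W1 := 13669850) (P3 := 1020054732) (W3 := 13421774) (n := ndB5q1) (c := cZ)
    ⟨T.l 0,
      by decide +kernel⟩
theorem cA_h1_02 : CertNd 0 536870912 1020054732 13421774 (ftHighG true 2 mZ 1 1 26 640 1038) [⟨0, 1060071974⟩, ⟨1, 1165459247⟩] ndB0q2 cZ :=
  certNd (T := (ftHighG true 2 mZ 1 1 26 640 1038)) (L := [⟨0, 1060071974⟩, ⟨1, 1165459247⟩]) (P1 := 0) (W1 := 536870912) (P3 := 1020054732) (W3 := 13421774) (n := ndB0q2) (c := cZ)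
    ⟨T.a (T.l 3) (T.a (T.a (T.l 3) (T.a (T.a (T.l 3) (T.a (T.l 3) (T.l 0))) (T.l 0))) (T.a (T.l 0) (T.a (T.l 0) (T.l 0)))),
      by decide +kernel⟩
theorem cA_h1_12 : CertNd 1073741824 91717423 1020054732 13421774 (ftHighG true 2 mZ 1 1 26 640 1038) [] ndB1q2 cZ :=
  certNd (T := (ftHighG true 2 mZ 1 1 26 640 1038)) (L := []) (P1 := 1073741824) (W1 := 91717423) (P3 := 1020054732) (W3 := 13421774) (n := ndB1q2) (c := cZ)
    ⟨T.a (T.l 0) (T.l 0),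
      by decide +kernel⟩
theorem cA_h1_22 : CertNd 1073741824 91717423 1020054732 13421774 (ftHighG true 2 mZ 1 1 26 640 1038) [] ndB2q2 cZ :=
  certNd (T := (ftHighG true 2 mZ 1 1 26 640 1038)) (L := []) (P1 := 1073741824) (W1 := 91717423) (P3 := 1020054732) (W3 := 13421774) (n := ndB2q2) (c := cZ)
    ⟨T.l 0,
      by decide +kernel⟩
theorem cA_h1_32 : CertNd 1073741824 91717423 1020054732 13421774 (ftHighG true 2 mZ 1 1 26 640 1038) [] ndB3q2 cZ :=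
  certNd (T := (ftHighG true 2 mZ 1 1 26 640 1038)) (L := []) (P1 := 1073741824) (W1 := 91717423) (P3 := 1020054732) (W3 := 13421774) (n := ndB3q2) (c := cZ)
    ⟨T.a (T.l 0) (T.l 0),
      by decide +kernel⟩
theorem cA_h1_42 : CertNd 1073741824 91717423 1020054732 13421774 (ftHighG true 2 mZ 1 1 26 640 1038) [] ndB4q2 cZ :=
  certNd (T := (ftHighG true 2 mZ 1 1 26 640 1038)) (L := []) (P1 := 1073741824) (W1 := 91717423) (P3 := 1020054732) (W3 := 13421774) (n := ndB4q2) (c := cZ)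
    ⟨T.l 0,
      by decide +kernel⟩
theorem cA_h1_52 : CertNd 1073741824 91717423 1020054732 13421774 (ftHighG true 2 mZ 1 1 26 640 1038) [] ndB5q2 cZ :=
  certNd (T := (ftHighG true 2 mZ 1 1 26 640 1038)) (L := []) (P1 := 1073741824) (W1 := 91717423) (P3 := 1020054732) (W3 := 13421774) (n := ndB5q2) (c := cZ)
    ⟨T.l 0,
      by decide +kernel⟩
theorem cA_h2_02 : CertNd 0 536870912 1020054732 13421774 (ftHighG true 2 mZ 1 1 26 1070 1038) [⟨0, 1153060743⟩, ⟨1, 2120143949⟩] ndB0q2 cZ :=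
  certNd (T := (ftHighG true 2 mZ 1 1 26 1070 1038)) (L := [⟨0, 1153060743⟩, ⟨1, 2120143949⟩]) (P1 := 0) (W1 := 536870912) (P3 := 1020054732) (W3 := 13421774) (n := ndB0q2) (c := cZ)
    ⟨T.a (T.l 0) (T.a (T.l 0) (T.l 1)),
      by decide +kernel⟩
theorem cA_h2_12 : CertNd 1153060743 457551993 1020054732 13421774 (ftHighG true 2 mZ 1 1 26 1070 1038) [] ndB1q2 cZ :=
  certNd (T := (ftHighG true 2 mZ 1 1 26 1070 1038)) (L := []) (P1 := 1153060743) (W1 := 457551993) (P3 := 1020054732) (W3 := 13421774) (n := ndB1q2) (c := cZ)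
    ⟨T.a (T.a (T.a (T.l 0) (T.a (T.l 0) (T.l 0))) (T.l 0)) (T.l 0),
      by decide +kernel⟩
theorem cA_h2_22 : CertNd 1153060743 457551993 1020054732 13421774 (ftHighG true 2 mZ 1 1 26 1070 1038) [] ndB2q2 cZ :=
  certNd (T := (ftHighG true 2 mZ 1 1 26 1070 1038)) (L := []) (P1 := 1153060743) (W1 := 457551993) (P3 := 1020054732) (W3 := 13421774) (n := ndB2q2) (c := cZ)
    ⟨T.a (T.a (T.a (T.l 0) (T.a (T.l 0) (T.l 0))) (T.l 0)) (T.l 0),
      by decide +kernel⟩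
theorem cA_h2_32 : CertNd 1153060743 457551993 1020054732 13421774 (ftHighG true 2 mZ 1 1 26 1070 1038) [] ndB3q2 cZ :=
  certNd (T := (ftHighG true 2 mZ 1 1 26 1070 1038)) (L := []) (P1 := 1153060743) (W1 := 457551993) (P3 := 1020054732) (W3 := 13421774) (n := ndB3q2) (c := cZ)
    ⟨T.a (T.a (T.a (T.l 0) (T.l 0)) (T.l 0)) (T.l 0),
      by decide +kernel⟩
theorem cA_h2_42 : CertNd 1153060743 457551993 1020054732 13421774 (ftHighG true 2 mZ 1 1 26 1070 1038) [] ndB4q2 cZ :=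
  certNd (T := (ftHighG true 2 mZ 1 1 26 1070 1038)) (L := []) (P1 := 1153060743) (W1 := 457551993) (P3 := 1020054732) (W3 := 13421774) (n := ndB4q2) (c := cZ)
    ⟨T.a (T.l 0) (T.l 0),
      by decide +kernel⟩
theorem cA_h2_52 : CertNd 1153060743 457551993 1020054732 13421774 (ftHighG true 2 mZ 1 1 26 1070 1038) [] ndB5q2 cZ :=
  certNd (T := (ftHighG true 2 mZ 1 1 26 1070 1038)) (L := []) (P1 := 1153060743) (W1 := 457551993) (P3 := 1020054732) (W3 := 13421774) (n := ndB5q2) (c := cZ)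
    ⟨T.a (T.a (T.a (T.a (T.l 0) (T.l 0)) (T.l 0)) (T.l 0)) (T.l 0),
      by decide +kernel⟩
theorem cA_h2_13 : CertNd 1610612736 509531213 1020054732 13421774 (ftHighG true 3 mZ 1 1 26 1070 1038) [] ndB1q3 cZ :=
  certNd (T := (ftHighG true 3 mZ 1 1 26 1070 1038)) (L := []) (P1 := 1610612736) (W1 := 509531213) (P3 := 1020054732) (W3 := 13421774) (n := ndB1q3) (c := cZ)
    ⟨T.a (T.l 0) (T.a (T.l 0) (T.a (T.l 0) (T.l 0))),
      by decide +kernel⟩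
theorem cA_h2_23 : CertNd 1610612736 509531213 1020054732 13421774 (ftHighG true 3 mZ 1 1 26 1070 1038) [] ndB2q3 cZ :=
  certNd (T := (ftHighG true 3 mZ 1 1 26 1070 1038)) (L := []) (P1 := 1610612736) (W1 := 509531213) (P3 := 1020054732) (W3 := 13421774) (n := ndB2q3) (c := cZ)
    ⟨T.a (T.a (T.l 0) (T.l 0)) (T.a (T.l 0) (T.a (T.l 0) (T.l 0))),
      by decide +kernel⟩
theorem cA_h2_33 : CertNd 0 1230186008 1020054732 13421774 (ftHighG true 3 mZ 1 1 26 1070 1038) [⟨0, 1153060743⟩, ⟨1, 2120143949⟩] ndB3q3 cZ :=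
  certNd (T := (ftHighG true 3 mZ 1 1 26 1070 1038)) (L := [⟨0, 1153060743⟩, ⟨1, 2120143949⟩]) (P1 := 0) (W1 := 1230186008) (P3 := 1020054732) (W3 := 13421774) (n := ndB3q3) (c := cZ)
    ⟨T.a (T.a (T.l 0) (T.a (T.a (T.l 0) (T.l 0)) (T.l 0))) (T.a (T.a (T.l 0) (T.l 0)) (T.a (T.l 0) (T.l 0))),
      by decide +kernel⟩
theorem cA_h2_43 : CertNd 0 1230186008 1020054732 13421774 (ftHighG true 3 mZ 1 1 26 1070 1038) [⟨0, 1153060743⟩, ⟨1, 2120143949⟩] ndB4q3 cZ :=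
  certNd (T := (ftHighG true 3 mZ 1 1 26 1070 1038)) (L := [⟨0, 1153060743⟩, ⟨1, 2120143949⟩]) (P1 := 0) (W1 := 1230186008) (P3 := 1020054732) (W3 := 13421774) (n := ndB4q3) (c := cZ)
    ⟨T.a (T.a (T.l 0) (T.a (T.l 0) (T.l 0))) (T.a (T.l 0) (T.l 0)),
      by decide +kernel⟩
theorem cA_h2_53 : CertNd 0 1230186008 1020054732 13421774 (ftHighG true 3 mZ 1 1 26 1070 1038) [⟨0, 1153060743⟩, ⟨1, 2120143949⟩] ndB5q3 cZ :=
  certNd (T := (ftHighG true 3 mZ 1 1 26 1070 1038)) (L := [⟨0, 1153060743⟩, ⟨1, 2120143949⟩]) (P1 := 0) (W1 := 1230186008) (P3 := 1020054732) (W3 := 13421774) (n := ndB5q3) (c := cZ)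
    ⟨T.a (T.a (T.a (T.l 0) (T.l 0)) (T.a (T.l 0) (T.l 0))) (T.a (T.l 0) (T.l 0)),
      by decide +kernel⟩
theorem cA_r0_02 : CertNd 0 536870912 1020054732 13421774 (ftFarG true 2 mZ 1 1 26 1100 1038) [⟨0, 1088588530⟩, ⟨1, 1119584787⟩, ⟨2, 1114544013⟩] ndB0q2 cZ :=
  certNd (T := (ftFarG true 2 mZ 1 1 26 1100 1038)) (L := [⟨0, 1088588530⟩, ⟨1, 1119584787⟩, ⟨2, 1114544013⟩]) (P1 := 0) (W1 := 536870912) (P3 := 1020054732) (W3 := 13421774) (n := ndB0q2) (c := cZ)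
    ⟨T.l 5,
      by decide +kernel⟩
theorem cA_r0_12 : CertNd 1088588530 30996257 1020054732 13421774 (ftFarG true 2 mZ 1 1 26 1100 1038) [⟨2, 1114544013⟩] ndB1q2 cZ :=
  certNd (T := (ftFarG true 2 mZ 1 1 26 1100 1038)) (L := [⟨2, 1114544013⟩]) (P1 := 1088588530) (W1 := 30996257) (P3 := 1020054732) (W3 := 13421774) (n := ndB1q2) (c := cZ)
    ⟨T.l 0,
      by decide +kernel⟩
theorem cA_r0_22 : CertNd 1088588530 30996257 1020054732 13421774 (ftFarG true 2 mZ 1 1 26 1100 1038) [⟨2, 1114544013⟩] ndB2q2 cZ :=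
  certNd (T := (ftFarG true 2 mZ 1 1 26 1100 1038)) (L := [⟨2, 1114544013⟩]) (P1 := 1088588530) (W1 := 30996257) (P3 := 1020054732) (W3 := 13421774) (n := ndB2q2) (c := cZ)
    ⟨T.l 0,
      by decide +kernel⟩
theorem cA_r0_32 : CertNd 1088588530 30996257 1020054732 13421774 (ftFarG true 2 mZ 1 1 26 1100 1038) [⟨2, 1114544013⟩] ndB3q2 cZ :=
  certNd (T := (ftFarG true 2 mZ 1 1 26 1100 1038)) (L := [⟨2, 1114544013⟩]) (P1 := 1088588530) (W1 := 30996257) (P3 := 1020054732) (W3 := 13421774) (n := ndB3q2) (c := cZ)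
    ⟨T.l 0,
      by decide +kernel⟩
theorem cA_r0_42 : CertNd 1088588530 30996257 1020054732 13421774 (ftFarG true 2 mZ 1 1 26 1100 1038) [⟨2, 1114544013⟩] ndB4q2 cZ :=
  certNd (T := (ftFarG true 2 mZ 1 1 26 1100 1038)) (L := [⟨2, 1114544013⟩]) (P1 := 1088588530) (W1 := 30996257) (P3 := 1020054732) (W3 := 13421774) (n := ndB4q2) (c := cZ)
    ⟨T.l 0,
      by decide +kernel⟩
theorem cA_r0_52 : CertNd 1088588530 30996257 1020054732 13421774 (ftFarG true 2 mZ 1 1 26 1100 1038) [⟨2, 1114544013⟩] ndB5q2 cZ :=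
  certNd (T := (ftFarG true 2 mZ 1 1 26 1100 1038)) (L := [⟨2, 1114544013⟩]) (P1 := 1088588530) (W1 := 30996257) (P3 := 1020054732) (W3 := 13421774) (n := ndB5q2) (c := cZ)
    ⟨T.l 0,
      by decide +kernel⟩
theorem cA_n0_02z : CertNd 0 85899345 1020054732 13421774 (ftNearE true 2 mZ 1 1 26 1100) [⟨0, 1088588530⟩, ⟨1, 1119584787⟩] ⟨ndB0q2.Y, onF, kq02, lq02⟩ cZ :=
  certNd (T := (ftNearE true 2 mZ 1 1 26 1100)) (L := [⟨0, 1088588530⟩, ⟨1, 1119584787⟩]) (P1 := 0) (W1 := 85899345) (P3 := 1020054732) (W3 := 13421774) (n := ⟨ndB0q2.Y, onF, kq02, lq02⟩) (c := cZ)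
    ⟨T.l 3,
      by decide +kernel⟩
theorem cA_n0_02 : CertNd 0 536870912 1020054732 13421774 (ftNearE true 2 mZ 1 1 26 1100) [⟨0, 1088588530⟩, ⟨1, 1119584787⟩, ⟨2, 85899345⟩, ⟨3, 492847498⟩] ndB0q2 cZ :=
  certNd (T := (ftNearE true 2 mZ 1 1 26 1100)) (L := [⟨0, 1088588530⟩, ⟨1, 1119584787⟩, ⟨2, 85899345⟩, ⟨3, 492847498⟩]) (P1 := 0) (W1 := 536870912) (P3 := 1020054732) (W3 := 13421774) (n := ndB0q2) (c := cZ)
    ⟨T.a (T.l 3) (T.a (T.l 3) (T.a (T.a (T.l 3) (T.a (T.l 3) (T.a (T.a (T.l 3) (T.a (T.l 3) (T.l 0))) (T.l 0)))) (T.a (T.l 0) (T.l 0)))),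
      by decide +kernel⟩
theorem cA_n0_12 : CertNd 1088588530 30996257 1020054732 13421774 (ftNearE true 2 mZ 1 1 26 1100) [⟨3, 492847498⟩] ndB1q2 cZ :=
  certNd (T := (ftNearE true 2 mZ 1 1 26 1100)) (L := [⟨3, 492847498⟩]) (P1 := 1088588530) (W1 := 30996257) (P3 := 1020054732) (W3 := 13421774) (n := ndB1q2) (c := cZ)
    ⟨T.l 0,
      by decide +kernel⟩
theorem cA_n0_22 : CertNd 1088588530 30996257 1020054732 13421774 (ftNearE true 2 mZ 1 1 26 1100) [⟨3, 492847498⟩] ndB2q2 cZ :=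
  certNd (T := (ftNearE true 2 mZ 1 1 26 1100)) (L := [⟨3, 492847498⟩]) (P1 := 1088588530) (W1 := 30996257) (P3 := 1020054732) (W3 := 13421774) (n := ndB2q2) (c := cZ)
    ⟨T.l 0,
      by decide +kernel⟩
theorem cA_n0_32 : CertNd 1088588530 30996257 1020054732 13421774 (ftNearE true 2 mZ 1 1 26 1100) [⟨3, 492847498⟩] ndB3q2 cZ :=
  certNd (T := (ftNearE true 2 mZ 1 1 26 1100)) (L := [⟨3, 492847498⟩]) (P1 := 1088588530) (W1 := 30996257) (P3 := 1020054732) (W3 := 13421774) (n := ndB3q2) (c := cZ)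
    ⟨T.l 0,
      by decide +kernel⟩
theorem cA_n0_42 : CertNd 1088588530 30996257 1020054732 13421774 (ftNearE true 2 mZ 1 1 26 1100) [⟨3, 492847498⟩] ndB4q2 cZ :=
  certNd (T := (ftNearE true 2 mZ 1 1 26 1100)) (L := [⟨3, 492847498⟩]) (P1 := 1088588530) (W1 := 30996257) (P3 := 1020054732) (W3 := 13421774) (n := ndB4q2) (c := cZ)
    ⟨T.l 0,
      by decide +kernel⟩
theorem cA_n0_52 : CertNd 1088588530 30996257 1020054732 13421774 (ftNearE true 2 mZ 1 1 26 1100) [⟨3, 492847498⟩] ndB5q2 cZ :=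
  certNd (T := (ftNearE true 2 mZ 1 1 26 1100)) (L := [⟨3, 492847498⟩]) (P1 := 1088588530) (W1 := 30996257) (P3 := 1020054732) (W3 := 13421774) (n := ndB5q2) (c := cZ)
    ⟨T.l 0,
      by decide +kernel⟩
theorem cA_R0_2 : CertSd 1088588530 30996257 1020054732 13421774 (ftFarG true 2 mZ 1 1 26 1100 1038) [] idF (cnF 1038 1000) pcB2 dZ :=
  certSd (T := (ftFarG true 2 mZ 1 1 26 1100 1038)) (L := []) (P1 := 1088588530) (W1 := 30996257) (P3 := 1020054732) (W3 := 13421774) (Y := idF) (X := (cnF 1038 1000))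
    (pc := pcB2) (c := dZ) ⟨T.l 0,
      by decide +kernel⟩
theorem cA_N0_2 : CertSd 1101527938 18056849 1020054732 13421774 (ftNearE true 2 mZ 1 1 26 1100) [] idF (cnF 459 1000) pcB2 dZ :=
  certSd (T := (ftNearE true 2 mZ 1 1 26 1100)) (L := []) (P1 := 1101527938) (W1 := 18056849) (P3 := 1020054732) (W3 := 13421774) (Y := idF) (X := (cnF 459 1000))
    (pc := pcB2) (c := dZ) ⟨T.a (T.l 0) (T.l 0),
      by decide +kernel⟩
theorem cA_r1_02 : CertNd 0 536870912 1020054732 13421774 (ftFarG true 2 mZ 1 1 26 1131 1038) [⟨0, 1107186284⟩, ⟨1, 1135702841⟩, ⟨2, 1114544013⟩] ndB0q2 cZ :=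
  certNd (T := (ftFarG true 2 mZ 1 1 26 1131 1038)) (L := [⟨0, 1107186284⟩, ⟨1, 1135702841⟩, ⟨2, 1114544013⟩]) (P1 := 0) (W1 := 536870912) (P3 := 1020054732) (W3 := 13421774) (n := ndB0q2) (c := cZ)
    ⟨T.l 5,
      by decide +kernel⟩
theorem cA_r1_12 : CertNd 1107186284 28516557 1020054732 13421774 (ftFarG true 2 mZ 1 1 26 1131 1038) [⟨2, 1114544013⟩] ndB1q2 cZ :=
  certNd (T := (ftFarG true 2 mZ 1 1 26 1131 1038)) (L := [⟨2, 1114544013⟩]) (P1 := 1107186284) (W1 := 28516557) (P3 := 1020054732) (W3 := 13421774) (n := ndB1q2) (c := cZ)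
    ⟨T.l 0,
      by decide +kernel⟩
theorem cA_r1_22 : CertNd 1107186284 28516557 1020054732 13421774 (ftFarG true 2 mZ 1 1 26 1131 1038) [⟨2, 1114544013⟩] ndB2q2 cZ :=
  certNd (T := (ftFarG true 2 mZ 1 1 26 1131 1038)) (L := [⟨2, 1114544013⟩]) (P1 := 1107186284) (W1 := 28516557) (P3 := 1020054732) (W3 := 13421774) (n := ndB2q2) (c := cZ)
    ⟨T.l 0,
      by decide +kernel⟩
theorem cA_r1_32 : CertNd 1107186284 28516557 1020054732 13421774 (ftFarG true 2 mZ 1 1 26 1131 1038) [⟨2, 1114544013⟩] ndB3q2 cZ :=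
  certNd (T := (ftFarG true 2 mZ 1 1 26 1131 1038)) (L := [⟨2, 1114544013⟩]) (P1 := 1107186284) (W1 := 28516557) (P3 := 1020054732) (W3 := 13421774) (n := ndB3q2) (c := cZ)
    ⟨T.l 0,
      by decide +kernel⟩
theorem cA_r1_42 : CertNd 1107186284 28516557 1020054732 13421774 (ftFarG true 2 mZ 1 1 26 1131 1038) [⟨2, 1114544013⟩] ndB4q2 cZ :=
  certNd (T := (ftFarG true 2 mZ 1 1 26 1131 1038)) (L := [⟨2, 1114544013⟩]) (P1 := 1107186284) (W1 := 28516557) (P3 := 1020054732) (W3 := 13421774) (n := ndB4q2) (c := cZ)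
    ⟨T.l 0,
      by decide +kernel⟩
theorem cA_r1_52 : CertNd 1107186284 28516557 1020054732 13421774 (ftFarG true 2 mZ 1 1 26 1131 1038) [⟨2, 1114544013⟩] ndB5q2 cZ :=
  certNd (T := (ftFarG true 2 mZ 1 1 26 1131 1038)) (L := [⟨2, 1114544013⟩]) (P1 := 1107186284) (W1 := 28516557) (P3 := 1020054732) (W3 := 13421774) (n := ndB5q2) (c := cZ)
    ⟨T.l 0,
      by decide +kernel⟩
theorem cA_n1_02z : CertNd 0 85899345 1020054732 13421774 (ftNearE true 2 mZ 1 1 26 1131) [⟨0, 1107186284⟩, ⟨1, 1135702841⟩] ⟨ndB0q2.Y, onF, kq02, lq02⟩ cZ :=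
  certNd (T := (ftNearE true 2 mZ 1 1 26 1131)) (L := [⟨0, 1107186284⟩, ⟨1, 1135702841⟩]) (P1 := 0) (W1 := 85899345) (P3 := 1020054732) (W3 := 13421774) (n := ⟨ndB0q2.Y, onF, kq02, lq02⟩) (c := cZ)
    ⟨T.l 3,
      by decide +kernel⟩
theorem cA_n1_02 : CertNd 0 536870912 1020054732 13421774 (ftNearE true 2 mZ 1 1 26 1131) [⟨0, 1107186284⟩, ⟨1, 1135702841⟩, ⟨2, 85899345⟩, ⟨3, 492847498⟩] ndB0q2 cZ :=
  certNd (T := (ftNearE true 2 mZ 1 1 26 1131)) (L := [⟨0, 1107186284⟩, ⟨1, 1135702841⟩, ⟨2, 85899345⟩, ⟨3, 492847498⟩]) (P1 := 0) (W1 := 536870912) (P3 := 1020054732) (W3 := 13421774) (n := ndB0q2) (c := cZ)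
    ⟨T.a (T.l 3) (T.a (T.l 3) (T.a (T.a (T.a (T.l 3) (T.a (T.l 3) (T.c (T.l 0) (T.l 0)))) (T.l 0)) (T.l 0))),
      by decide +kernel⟩
theorem cA_n1_12 : CertNd 1107186284 28516557 1020054732 13421774 (ftNearE true 2 mZ 1 1 26 1131) [⟨3, 492847498⟩] ndB1q2 cZ :=
  certNd (T := (ftNearE true 2 mZ 1 1 26 1131)) (L := [⟨3, 492847498⟩]) (P1 := 1107186284) (W1 := 28516557) (P3 := 1020054732) (W3 := 13421774) (n := ndB1q2) (c := cZ)
    ⟨T.l 0,
      by decide +kernel⟩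
theorem cA_n1_22 : CertNd 1107186284 28516557 1020054732 13421774 (ftNearE true 2 mZ 1 1 26 1131) [⟨3, 492847498⟩] ndB2q2 cZ :=
  certNd (T := (ftNearE true 2 mZ 1 1 26 1131)) (L := [⟨3, 492847498⟩]) (P1 := 1107186284) (W1 := 28516557) (P3 := 1020054732) (W3 := 13421774) (n := ndB2q2) (c := cZ)
    ⟨T.l 0,
      by decide +kernel⟩
theorem cA_n1_32 : CertNd 1107186284 28516557 1020054732 13421774 (ftNearE true 2 mZ 1 1 26 1131) [⟨3, 492847498⟩] ndB3q2 cZ :=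
  certNd (T := (ftNearE true 2 mZ 1 1 26 1131)) (L := [⟨3, 492847498⟩]) (P1 := 1107186284) (W1 := 28516557) (P3 := 1020054732) (W3 := 13421774) (n := ndB3q2) (c := cZ)
    ⟨T.l 0,
      by decide +kernel⟩
theorem cA_n1_42 : CertNd 1107186284 28516557 1020054732 13421774 (ftNearE true 2 mZ 1 1 26 1131) [⟨3, 492847498⟩] ndB4q2 cZ :=
  certNd (T := (ftNearE true 2 mZ 1 1 26 1131)) (L := [⟨3, 492847498⟩]) (P1 := 1107186284) (W1 := 28516557) (P3 := 1020054732) (W3 := 13421774) (n := ndB4q2) (c := cZ)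
    ⟨T.l 0,
      by decide +kernel⟩
theorem cA_n1_52 : CertNd 1107186284 28516557 1020054732 13421774 (ftNearE true 2 mZ 1 1 26 1131) [⟨3, 492847498⟩] ndB5q2 cZ :=
  certNd (T := (ftNearE true 2 mZ 1 1 26 1131)) (L := [⟨3, 492847498⟩]) (P1 := 1107186284) (W1 := 28516557) (P3 := 1020054732) (W3 := 13421774) (n := ndB5q2) (c := cZ)
    ⟨T.l 0,
      by decide +kernel⟩
theorem cA_R1_2 : CertSd 1107186284 28516557 1020054732 13421774 (ftFarG true 2 mZ 1 1 26 1131 1038) [] idF (cnF 1038 1000) pcB2 dZ :=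
  certSd (T := (ftFarG true 2 mZ 1 1 26 1131 1038)) (L := []) (P1 := 1107186284) (W1 := 28516557) (P3 := 1020054732) (W3 := 13421774) (Y := idF) (X := (cnF 1038 1000))
    (pc := pcB2) (c := dZ) ⟨T.l 0,
      by decide +kernel⟩
theorem cA_N1_2 : CertSd 1107186284 28516557 1020054732 13421774 (ftNearE true 2 mZ 1 1 26 1131) [] idF (cnF 459 1000) pcB2 dZ :=
  certSd (T := (ftNearE true 2 mZ 1 1 26 1131)) (L := []) (P1 := 1107186284) (W1 := 28516557) (P3 := 1020054732) (W3 := 13421774) (Y := idF) (X := (cnF 459 1000))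
    (pc := pcB2) (c := dZ) ⟨T.a (T.l 0) (T.l 0),
      by decide +kernel⟩
theorem cA_r2_02 : CertNd 0 536870912 1020054732 13421774 (ftFarG true 2 mZ 1 1 26 1158 1038) [⟨0, 1123304337⟩, ⟨1, 1151820894⟩, ⟨2, 1114544013⟩] ndB0q2 cZ :=
  certNd (T := (ftFarG true 2 mZ 1 1 26 1158 1038)) (L := [⟨0, 1123304337⟩, ⟨1, 1151820894⟩, ⟨2, 1114544013⟩]) (P1 := 0) (W1 := 536870912) (P3 := 1020054732) (W3 := 13421774) (n := ndB0q2) (c := cZ)
    ⟨T.l 5,
      by decide +kernel⟩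
theorem cA_r2_12 : CertNd 1123304337 28516557 1020054732 13421774 (ftFarG true 2 mZ 1 1 26 1158 1038) [⟨2, 1114544013⟩] ndB1q2 cZ :=
  certNd (T := (ftFarG true 2 mZ 1 1 26 1158 1038)) (L := [⟨2, 1114544013⟩]) (P1 := 1123304337) (W1 := 28516557) (P3 := 1020054732) (W3 := 13421774) (n := ndB1q2) (c := cZ)
    ⟨T.l 0,
      by decide +kernel⟩
theorem cA_r2_22 : CertNd 1123304337 28516557 1020054732 13421774 (ftFarG true 2 mZ 1 1 26 1158 1038) [⟨2, 1114544013⟩] ndB2q2 cZ :=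
  certNd (T := (ftFarG true 2 mZ 1 1 26 1158 1038)) (L := [⟨2, 1114544013⟩]) (P1 := 1123304337) (W1 := 28516557) (P3 := 1020054732) (W3 := 13421774) (n := ndB2q2) (c := cZ)
    ⟨T.l 0,
      by decide +kernel⟩
theorem cA_r2_32 : CertNd 1123304337 28516557 1020054732 13421774 (ftFarG true 2 mZ 1 1 26 1158 1038) [⟨2, 1114544013⟩] ndB3q2 cZ :=
  certNd (T := (ftFarG true 2 mZ 1 1 26 1158 1038)) (L := [⟨2, 1114544013⟩]) (P1 := 1123304337) (W1 := 28516557) (P3 := 1020054732) (W3 := 13421774) (n := ndB3q2) (c := cZ)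
    ⟨T.l 0,
      by decide +kernel⟩
theorem cA_r2_42 : CertNd 1123304337 28516557 1020054732 13421774 (ftFarG true 2 mZ 1 1 26 1158 1038) [⟨2, 1114544013⟩] ndB4q2 cZ :=
  certNd (T := (ftFarG true 2 mZ 1 1 26 1158 1038)) (L := [⟨2, 1114544013⟩]) (P1 := 1123304337) (W1 := 28516557) (P3 := 1020054732) (W3 := 13421774) (n := ndB4q2) (c := cZ)
    ⟨T.l 0,
      by decide +kernel⟩
theorem cA_r2_52 : CertNd 1123304337 28516557 1020054732 13421774 (ftFarG true 2 mZ 1 1 26 1158 1038) [⟨2, 1114544013⟩] ndB5q2 cZ :=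
  certNd (T := (ftFarG true 2 mZ 1 1 26 1158 1038)) (L := [⟨2, 1114544013⟩]) (P1 := 1123304337) (W1 := 28516557) (P3 := 1020054732) (W3 := 13421774) (n := ndB5q2) (c := cZ)
    ⟨T.l 0,
      by decide +kernel⟩
theorem cA_n2_02z : CertNd 0 85899345 1020054732 13421774 (ftNearE true 2 mZ 1 1 26 1158) [⟨0, 1123304337⟩, ⟨1, 1151820894⟩] ⟨ndB0q2.Y, onF, kq02, lq02⟩ cZ :=
  certNd (T := (ftNearE true 2 mZ 1 1 26 1158)) (L := [⟨0, 1123304337⟩, ⟨1, 1151820894⟩]) (P1 := 0) (W1 := 85899345) (P3 := 1020054732) (W3 := 13421774) (n := ⟨ndB0q2.Y, onF, kq02, lq02⟩) (c := cZ)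
    ⟨T.l 3,
      by decide +kernel⟩
theorem cA_n2_02 : CertNd 0 536870912 1020054732 13421774 (ftNearE true 2 mZ 1 1 26 1158) [⟨0, 1123304337⟩, ⟨1, 1151820894⟩, ⟨2, 85899345⟩, ⟨3, 492847498⟩] ndB0q2 cZ :=
  certNd (T := (ftNearE true 2 mZ 1 1 26 1158)) (L := [⟨0, 1123304337⟩, ⟨1, 1151820894⟩, ⟨2, 85899345⟩, ⟨3, 492847498⟩]) (P1 := 0) (W1 := 536870912) (P3 := 1020054732) (W3 := 13421774) (n := ndB0q2) (c := cZ)
    ⟨T.a (T.l 3) (T.a (T.a (T.l 3) (T.a (T.l 3) (T.a (T.l 3) (T.a (T.l 3) (T.l 0))))) (T.a (T.a (T.a (T.l 0) (T.l 0)) (T.l 0)) (T.l 0))),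
      by decide +kernel⟩
theorem cA_n2_12 : CertNd 1123304337 28516557 1020054732 13421774 (ftNearE true 2 mZ 1 1 26 1158) [⟨3, 492847498⟩] ndB1q2 cZ :=
  certNd (T := (ftNearE true 2 mZ 1 1 26 1158)) (L := [⟨3, 492847498⟩]) (P1 := 1123304337) (W1 := 28516557) (P3 := 1020054732) (W3 := 13421774) (n := ndB1q2) (c := cZ)
    ⟨T.l 0,
      by decide +kernel⟩
theorem cA_n2_22 : CertNd 1123304337 28516557 1020054732 13421774 (ftNearE true 2 mZ 1 1 26 1158) [⟨3, 492847498⟩] ndB2q2 cZ :=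
  certNd (T := (ftNearE true 2 mZ 1 1 26 1158)) (L := [⟨3, 492847498⟩]) (P1 := 1123304337) (W1 := 28516557) (P3 := 1020054732) (W3 := 13421774) (n := ndB2q2) (c := cZ)
    ⟨T.l 0,
      by decide +kernel⟩
theorem cA_n2_32 : CertNd 1123304337 28516557 1020054732 13421774 (ftNearE true 2 mZ 1 1 26 1158) [⟨3, 492847498⟩] ndB3q2 cZ :=
  certNd (T := (ftNearE true 2 mZ 1 1 26 1158)) (L := [⟨3, 492847498⟩]) (P1 := 1123304337) (W1 := 28516557) (P3 := 1020054732) (W3 := 13421774) (n := ndB3q2) (c := cZ)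
    ⟨T.l 0,
      by decide +kernel⟩
theorem cA_n2_42 : CertNd 1123304337 28516557 1020054732 13421774 (ftNearE true 2 mZ 1 1 26 1158) [⟨3, 492847498⟩] ndB4q2 cZ :=
  certNd (T := (ftNearE true 2 mZ 1 1 26 1158)) (L := [⟨3, 492847498⟩]) (P1 := 1123304337) (W1 := 28516557) (P3 := 1020054732) (W3 := 13421774) (n := ndB4q2) (c := cZ)
    ⟨T.l 0,
      by decide +kernel⟩
theorem cA_n2_52 : CertNd 1123304337 28516557 1020054732 13421774 (ftNearE true 2 mZ 1 1 26 1158) [⟨3, 492847498⟩] ndB5q2 cZ :=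
  certNd (T := (ftNearE true 2 mZ 1 1 26 1158)) (L := [⟨3, 492847498⟩]) (P1 := 1123304337) (W1 := 28516557) (P3 := 1020054732) (W3 := 13421774) (n := ndB5q2) (c := cZ)
    ⟨T.l 0,
      by decide +kernel⟩
theorem cA_R2_2 : CertSd 1123304337 28516557 1020054732 13421774 (ftFarG true 2 mZ 1 1 26 1158 1038) [] idF (cnF 1038 1000) pcB2 dZ :=
  certSd (T := (ftFarG true 2 mZ 1 1 26 1158 1038)) (L := []) (P1 := 1123304337) (W1 := 28516557) (P3 := 1020054732) (W3 := 13421774) (Y := idF) (X := (cnF 1038 1000))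
    (pc := pcB2) (c := dZ) ⟨T.l 0,
      by decide +kernel⟩
theorem cA_N2_2 : CertSd 1123304337 28516557 1020054732 13421774 (ftNearE true 2 mZ 1 1 26 1158) [] idF (cnF 459 1000) pcB2 dZ :=
  certSd (T := (ftNearE true 2 mZ 1 1 26 1158)) (L := []) (P1 := 1123304337) (W1 := 28516557) (P3 := 1020054732) (W3 := 13421774) (Y := idF) (X := (cnF 459 1000))
    (pc := pcB2) (c := dZ) ⟨T.l 0,
      by decide +kernel⟩
theorem cA_r3_02 : CertNd 0 536870912 1020054732 13421774 (ftFarG true 2 mZ 1 1 26 1183 1038) [⟨0, 1139422391⟩, ⟨1, 1175378049⟩, ⟨2, 1114544013⟩] ndB0q2 cZ :=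
  certNd (T := (ftFarG true 2 mZ 1 1 26 1183 1038)) (L := [⟨0, 1139422391⟩, ⟨1, 1175378049⟩, ⟨2, 1114544013⟩]) (P1 := 0) (W1 := 536870912) (P3 := 1020054732) (W3 := 13421774) (n := ndB0q2) (c := cZ)
    ⟨T.l 5,
      by decide +kernel⟩
theorem cA_r3_12 : CertNd 1139422391 35955658 1020054732 13421774 (ftFarG true 2 mZ 1 1 26 1183 1038) [⟨2, 1114544013⟩] ndB1q2 cZ :=
  certNd (T := (ftFarG true 2 mZ 1 1 26 1183 1038)) (L := [⟨2, 1114544013⟩]) (P1 := 1139422391) (W1 := 35955658) (P3 := 1020054732) (W3 := 13421774) (n := ndB1q2) (c := cZ)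
    ⟨T.l 0,
      by decide +kernel⟩
theorem cA_r3_22 : CertNd 1139422391 35955658 1020054732 13421774 (ftFarG true 2 mZ 1 1 26 1183 1038) [⟨2, 1114544013⟩] ndB2q2 cZ :=
  certNd (T := (ftFarG true 2 mZ 1 1 26 1183 1038)) (L := [⟨2, 1114544013⟩]) (P1 := 1139422391) (W1 := 35955658) (P3 := 1020054732) (W3 := 13421774) (n := ndB2q2) (c := cZ)
    ⟨T.l 0,
      by decide +kernel⟩
theorem cA_r3_32 : CertNd 1139422391 35955658 1020054732 13421774 (ftFarG true 2 mZ 1 1 26 1183 1038) [⟨2, 1114544013⟩] ndB3q2 cZ :=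
  certNd (T := (ftFarG true 2 mZ 1 1 26 1183 1038)) (L := [⟨2, 1114544013⟩]) (P1 := 1139422391) (W1 := 35955658) (P3 := 1020054732) (W3 := 13421774) (n := ndB3q2) (c := cZ)
    ⟨T.l 0,
      by decide +kernel⟩
theorem cA_r3_42 : CertNd 1139422391 35955658 1020054732 13421774 (ftFarG true 2 mZ 1 1 26 1183 1038) [⟨2, 1114544013⟩] ndB4q2 cZ :=
  certNd (T := (ftFarG true 2 mZ 1 1 26 1183 1038)) (L := [⟨2, 1114544013⟩]) (P1 := 1139422391) (W1 := 35955658) (P3 := 1020054732) (W3 := 13421774) (n := ndB4q2) (c := cZ)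
    ⟨T.l 0,
      by decide +kernel⟩
theorem cA_r3_52 : CertNd 1139422391 35955658 1020054732 13421774 (ftFarG true 2 mZ 1 1 26 1183 1038) [⟨2, 1114544013⟩] ndB5q2 cZ :=
  certNd (T := (ftFarG true 2 mZ 1 1 26 1183 1038)) (L := [⟨2, 1114544013⟩]) (P1 := 1139422391) (W1 := 35955658) (P3 := 1020054732) (W3 := 13421774) (n := ndB5q2) (c := cZ)
    ⟨T.l 0,
      by decide +kernel⟩
theorem cA_n3_02z : CertNd 0 85899345 1020054732 13421774 (ftNearE true 2 mZ 1 1 26 1183) [⟨0, 1139422391⟩, ⟨1, 1175378049⟩] ⟨ndB0q2.Y, onF, kq02, lq02⟩ cZ :=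
  certNd (T := (ftNearE true 2 mZ 1 1 26 1183)) (L := [⟨0, 1139422391⟩, ⟨1, 1175378049⟩]) (P1 := 0) (W1 := 85899345) (P3 := 1020054732) (W3 := 13421774) (n := ⟨ndB0q2.Y, onF, kq02, lq02⟩) (c := cZ)
    ⟨T.l 3,
      by decide +kernel⟩
theorem cA_n3_02 : CertNd 0 536870912 1020054732 13421774 (ftNearE true 2 mZ 1 1 26 1183) [⟨0, 1139422391⟩, ⟨1, 1175378049⟩, ⟨2, 85899345⟩, ⟨3, 492847498⟩] ndB0q2 cZ :=
  certNd (T := (ftNearE true 2 mZ 1 1 26 1183)) (L := [⟨0, 1139422391⟩, ⟨1, 1175378049⟩, ⟨2, 85899345⟩, ⟨3, 492847498⟩]) (P1 := 0) (W1 := 536870912) (P3 := 1020054732) (W3 := 13421774) (n := ndB0q2) (c := cZ)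
    ⟨T.a (T.l 3) (T.a (T.a (T.l 3) (T.a (T.a (T.l 0) (T.l 0)) (T.l 0))) (T.a (T.l 0) (T.l 0))),
      by decide +kernel⟩
theorem cA_n3_12 : CertNd 1139422391 35955658 1020054732 13421774 (ftNearE true 2 mZ 1 1 26 1183) [⟨3, 492847498⟩] ndB1q2 cZ :=
  certNd (T := (ftNearE true 2 mZ 1 1 26 1183)) (L := [⟨3, 492847498⟩]) (P1 := 1139422391) (W1 := 35955658) (P3 := 1020054732) (W3 := 13421774) (n := ndB1q2) (c := cZ)
    ⟨T.l 0,
      by decide +kernel⟩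
theorem cA_n3_22 : CertNd 1139422391 35955658 1020054732 13421774 (ftNearE true 2 mZ 1 1 26 1183) [⟨3, 492847498⟩] ndB2q2 cZ :=
  certNd (T := (ftNearE true 2 mZ 1 1 26 1183)) (L := [⟨3, 492847498⟩]) (P1 := 1139422391) (W1 := 35955658) (P3 := 1020054732) (W3 := 13421774) (n := ndB2q2) (c := cZ)
    ⟨T.l 0,
      by decide +kernel⟩
theorem cA_n3_32 : CertNd 1139422391 35955658 1020054732 13421774 (ftNearE true 2 mZ 1 1 26 1183) [⟨3, 492847498⟩] ndB3q2 cZ :=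
  certNd (T := (ftNearE true 2 mZ 1 1 26 1183)) (L := [⟨3, 492847498⟩]) (P1 := 1139422391) (W1 := 35955658) (P3 := 1020054732) (W3 := 13421774) (n := ndB3q2) (c := cZ)
    ⟨T.l 0,
      by decide +kernel⟩
theorem cA_n3_42 : CertNd 1139422391 35955658 1020054732 13421774 (ftNearE true 2 mZ 1 1 26 1183) [⟨3, 492847498⟩] ndB4q2 cZ :=
  certNd (T := (ftNearE true 2 mZ 1 1 26 1183)) (L := [⟨3, 492847498⟩]) (P1 := 1139422391) (W1 := 35955658) (P3 := 1020054732) (W3 := 13421774) (n := ndB4q2) (c := cZ)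
    ⟨T.l 0,
      by decide +kernel⟩
theorem cA_n3_52 : CertNd 1139422391 35955658 1020054732 13421774 (ftNearE true 2 mZ 1 1 26 1183) [⟨3, 492847498⟩] ndB5q2 cZ :=
  certNd (T := (ftNearE true 2 mZ 1 1 26 1183)) (L := [⟨3, 492847498⟩]) (P1 := 1139422391) (W1 := 35955658) (P3 := 1020054732) (W3 := 13421774) (n := ndB5q2) (c := cZ)
    ⟨T.l 0,
      by decide +kernel⟩
theorem cA_R3_2 : CertSd 1139422391 35955658 1020054732 13421774 (ftFarG true 2 mZ 1 1 26 1183 1038) [] idF (cnF 1038 1000) pcB2 dZ :=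
  certSd (T := (ftFarG true 2 mZ 1 1 26 1183 1038)) (L := []) (P1 := 1139422391) (W1 := 35955658) (P3 := 1020054732) (W3 := 13421774) (Y := idF) (X := (cnF 1038 1000))
    (pc := pcB2) (c := dZ) ⟨T.l 0,
      by decide +kernel⟩
theorem cA_N3_2 : CertSd 1139422391 35955658 1020054732 13421774 (ftNearE true 2 mZ 1 1 26 1183) [] idF (cnF 459 1000) pcB2 dZ :=
  certSd (T := (ftNearE true 2 mZ 1 1 26 1183)) (L := []) (P1 := 1139422391) (W1 := 35955658) (P3 := 1020054732) (W3 := 13421774) (Y := idF) (X := (cnF 459 1000))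
    (pc := pcB2) (c := dZ) ⟨T.l 0,
      by decide +kernel⟩
theorem cA_r4_02 : CertNd 0 536870912 1020054732 13421774 (ftFarG true 2 mZ 1 1 26 1225 1038) [⟨0, 1162979545⟩, ⟨1, 1224972060⟩, ⟨2, 1114544013⟩] ndB0q2 cZ :=
  certNd (T := (ftFarG true 2 mZ 1 1 26 1225 1038)) (L := [⟨0, 1162979545⟩, ⟨1, 1224972060⟩, ⟨2, 1114544013⟩]) (P1 := 0) (W1 := 536870912) (P3 := 1020054732) (W3 := 13421774) (n := ndB0q2) (c := cZ)
    ⟨T.l 5,
      by decide +kernel⟩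
theorem cA_r4_12 : CertNd 1162979545 61992515 1020054732 13421774 (ftFarG true 2 mZ 1 1 26 1225 1038) [⟨2, 1114544013⟩] ndB1q2 cZ :=
  certNd (T := (ftFarG true 2 mZ 1 1 26 1225 1038)) (L := [⟨2, 1114544013⟩]) (P1 := 1162979545) (W1 := 61992515) (P3 := 1020054732) (W3 := 13421774) (n := ndB1q2) (c := cZ)
    ⟨T.l 0,
      by decide +kernel⟩
theorem cA_r4_22 : CertNd 1162979545 61992515 1020054732 13421774 (ftFarG true 2 mZ 1 1 26 1225 1038) [⟨2, 1114544013⟩] ndB2q2 cZ :=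
  certNd (T := (ftFarG true 2 mZ 1 1 26 1225 1038)) (L := [⟨2, 1114544013⟩]) (P1 := 1162979545) (W1 := 61992515) (P3 := 1020054732) (W3 := 13421774) (n := ndB2q2) (c := cZ)
    ⟨T.l 0,
      by decide +kernel⟩
theorem cA_r4_32 : CertNd 1162979545 61992515 1020054732 13421774 (ftFarG true 2 mZ 1 1 26 1225 1038) [⟨2, 1114544013⟩] ndB3q2 cZ :=
  certNd (T := (ftFarG true 2 mZ 1 1 26 1225 1038)) (L := [⟨2, 1114544013⟩]) (P1 := 1162979545) (W1 := 61992515) (P3 := 1020054732) (W3 := 13421774) (n := ndB3q2) (c := cZ)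
    ⟨T.l 0,
      by decide +kernel⟩
theorem cA_r4_42 : CertNd 1162979545 61992515 1020054732 13421774 (ftFarG true 2 mZ 1 1 26 1225 1038) [⟨2, 1114544013⟩] ndB4q2 cZ :=
  certNd (T := (ftFarG true 2 mZ 1 1 26 1225 1038)) (L := [⟨2, 1114544013⟩]) (P1 := 1162979545) (W1 := 61992515) (P3 := 1020054732) (W3 := 13421774) (n := ndB4q2) (c := cZ)
    ⟨T.l 0,
      by decide +kernel⟩
theorem cA_r4_52 : CertNd 1162979545 61992515 1020054732 13421774 (ftFarG true 2 mZ 1 1 26 1225 1038) [⟨2, 1114544013⟩] ndB5q2 cZ :=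
  certNd (T := (ftFarG true 2 mZ 1 1 26 1225 1038)) (L := [⟨2, 1114544013⟩]) (P1 := 1162979545) (W1 := 61992515) (P3 := 1020054732) (W3 := 13421774) (n := ndB5q2) (c := cZ)
    ⟨T.a (T.l 0) (T.l 0),
      by decide +kernel⟩
theorem cA_n4_02z : CertNd 0 85899345 1020054732 13421774 (ftNearE true 2 mZ 1 1 26 1225) [⟨0, 1162979545⟩, ⟨1, 1224972060⟩] ⟨ndB0q2.Y, onF, kq02, lq02⟩ cZ :=
  certNd (T := (ftNearE true 2 mZ 1 1 26 1225)) (L := [⟨0, 1162979545⟩, ⟨1, 1224972060⟩]) (P1 := 0) (W1 := 85899345) (P3 := 1020054732) (W3 := 13421774) (n := ⟨ndB0q2.Y, onF, kq02, lq02⟩) (c := cZ)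
    ⟨T.l 0,
      by decide +kernel⟩
theorem cA_n4_02 : CertNd 0 536870912 1020054732 13421774 (ftNearE true 2 mZ 1 1 26 1225) [⟨0, 1162979545⟩, ⟨1, 1224972060⟩, ⟨2, 85899345⟩, ⟨3, 492847498⟩] ndB0q2 cZ :=
  certNd (T := (ftNearE true 2 mZ 1 1 26 1225)) (L := [⟨0, 1162979545⟩, ⟨1, 1224972060⟩, ⟨2, 85899345⟩, ⟨3, 492847498⟩]) (P1 := 0) (W1 := 536870912) (P3 := 1020054732) (W3 := 13421774) (n := ndB0q2) (c := cZ)
    ⟨T.a (T.a (T.l 3) (T.a (T.a (T.l 0) (T.l 0)) (T.a (T.l 0) (T.l 0)))) (T.a (T.a (T.l 0) (T.l 0)) (T.l 1)),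
      by decide +kernel⟩
theorem cA_n4_12 : CertNd 1162979545 61992515 1020054732 13421774 (ftNearE true 2 mZ 1 1 26 1225) [⟨3, 492847498⟩] ndB1q2 cZ :=
  certNd (T := (ftNearE true 2 mZ 1 1 26 1225)) (L := [⟨3, 492847498⟩]) (P1 := 1162979545) (W1 := 61992515) (P3 := 1020054732) (W3 := 13421774) (n := ndB1q2) (c := cZ)
    ⟨T.a (T.l 0) (T.a (T.l 0) (T.a (T.l 0) (T.l 0))),
      by decide +kernel⟩
theorem cA_n4_22 : CertNd 1162979545 61992515 1020054732 13421774 (ftNearE true 2 mZ 1 1 26 1225) [⟨3, 492847498⟩] ndB2q2 cZ :=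
  certNd (T := (ftNearE true 2 mZ 1 1 26 1225)) (L := [⟨3, 492847498⟩]) (P1 := 1162979545) (W1 := 61992515) (P3 := 1020054732) (W3 := 13421774) (n := ndB2q2) (c := cZ)
    ⟨T.l 0,
      by decide +kernel⟩
theorem cA_n4_32 : CertNd 1162979545 61992515 1020054732 13421774 (ftNearE true 2 mZ 1 1 26 1225) [⟨3, 492847498⟩] ndB3q2 cZ :=
  certNd (T := (ftNearE true 2 mZ 1 1 26 1225)) (L := [⟨3, 492847498⟩]) (P1 := 1162979545) (W1 := 61992515) (P3 := 1020054732) (W3 := 13421774) (n := ndB3q2) (c := cZ)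
    ⟨T.l 0,
      by decide +kernel⟩
theorem cA_n4_42 : CertNd 1162979545 61992515 1020054732 13421774 (ftNearE true 2 mZ 1 1 26 1225) [⟨3, 492847498⟩] ndB4q2 cZ :=
  certNd (T := (ftNearE true 2 mZ 1 1 26 1225)) (L := [⟨3, 492847498⟩]) (P1 := 1162979545) (W1 := 61992515) (P3 := 1020054732) (W3 := 13421774) (n := ndB4q2) (c := cZ)
    ⟨T.l 0,
      by decide +kernel⟩
theorem cA_n4_52 : CertNd 1162979545 61992515 1020054732 13421774 (ftNearE true 2 mZ 1 1 26 1225) [⟨3, 492847498⟩] ndB5q2 cZ :=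
  certNd (T := (ftNearE true 2 mZ 1 1 26 1225)) (L := [⟨3, 492847498⟩]) (P1 := 1162979545) (W1 := 61992515) (P3 := 1020054732) (W3 := 13421774) (n := ndB5q2) (c := cZ)
    ⟨T.l 0,
      by decide +kernel⟩
theorem cA_R4_2 : CertSd 1162979545 61992515 1020054732 13421774 (ftFarG true 2 mZ 1 1 26 1225 1038) [] idF (cnF 1038 1000) pcB2 dZ :=
  certSd (T := (ftFarG true 2 mZ 1 1 26 1225 1038)) (L := []) (P1 := 1162979545) (W1 := 61992515) (P3 := 1020054732) (W3 := 13421774) (Y := idF) (X := (cnF 1038 1000))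
    (pc := pcB2) (c := dZ) ⟨T.l 0,
      by decide +kernel⟩
theorem cA_N4_2 : CertSd 1162979545 61992515 1020054732 13421774 (ftNearE true 2 mZ 1 1 26 1225) [] idF (cnF 459 1000) pcB2 dZ :=
  certSd (T := (ftNearE true 2 mZ 1 1 26 1225)) (L := []) (P1 := 1162979545) (W1 := 61992515) (P3 := 1020054732) (W3 := 13421774) (Y := idF) (X := (cnF 459 1000))
    (pc := pcB2) (c := dZ) ⟨T.l 0,
      by decide +kernel⟩
theorem cA_r5_02 : CertNd 0 536870912 1020054732 13421774 (ftFarG true 2 mZ 1 1 26 1320 1038) [⟨0, 1212573556⟩, ⟨1, 1342757835⟩, ⟨2, 1114544013⟩] ndB0q2 cZ :=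
  certNd (T := (ftFarG true 2 mZ 1 1 26 1320 1038)) (L := [⟨0, 1212573556⟩, ⟨1, 1342757835⟩, ⟨2, 1114544013⟩]) (P1 := 0) (W1 := 536870912) (P3 := 1020054732) (W3 := 13421774) (n := ndB0q2) (c := cZ)
    ⟨T.l 5,
      by decide +kernel⟩
theorem cA_r5_12 : CertNd 1212573556 130184279 1020054732 13421774 (ftFarG true 2 mZ 1 1 26 1320 1038) [⟨2, 1114544013⟩] ndB1q2 cZ :=
  certNd (T := (ftFarG true 2 mZ 1 1 26 1320 1038)) (L := [⟨2, 1114544013⟩]) (P1 := 1212573556) (W1 := 130184279) (P3 := 1020054732) (W3 := 13421774) (n := ndB1q2) (c := cZ)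
    ⟨T.l 0,
      by decide +kernel⟩
theorem cA_r5_22 : CertNd 1212573556 130184279 1020054732 13421774 (ftFarG true 2 mZ 1 1 26 1320 1038) [⟨2, 1114544013⟩] ndB2q2 cZ :=
  certNd (T := (ftFarG true 2 mZ 1 1 26 1320 1038)) (L := [⟨2, 1114544013⟩]) (P1 := 1212573556) (W1 := 130184279) (P3 := 1020054732) (W3 := 13421774) (n := ndB2q2) (c := cZ)
    ⟨T.l 0,
      by decide +kernel⟩
theorem cA_r5_32 : CertNd 1212573556 130184279 1020054732 13421774 (ftFarG true 2 mZ 1 1 26 1320 1038) [⟨2, 1114544013⟩] ndB3q2 cZ :=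
  certNd (T := (ftFarG true 2 mZ 1 1 26 1320 1038)) (L := [⟨2, 1114544013⟩]) (P1 := 1212573556) (W1 := 130184279) (P3 := 1020054732) (W3 := 13421774) (n := ndB3q2) (c := cZ)
    ⟨T.l 0,
      by decide +kernel⟩
theorem cA_r5_42 : CertNd 1212573556 130184279 1020054732 13421774 (ftFarG true 2 mZ 1 1 26 1320 1038) [⟨2, 1114544013⟩] ndB4q2 cZ :=
  certNd (T := (ftFarG true 2 mZ 1 1 26 1320 1038)) (L := [⟨2, 1114544013⟩]) (P1 := 1212573556) (W1 := 130184279) (P3 := 1020054732) (W3 := 13421774) (n := ndB4q2) (c := cZ)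
    ⟨T.l 0,
      by decide +kernel⟩
theorem cA_r5_52 : CertNd 1212573556 130184279 1020054732 13421774 (ftFarG true 2 mZ 1 1 26 1320 1038) [⟨2, 1114544013⟩] ndB5q2 cZ :=
  certNd (T := (ftFarG true 2 mZ 1 1 26 1320 1038)) (L := [⟨2, 1114544013⟩]) (P1 := 1212573556) (W1 := 130184279) (P3 := 1020054732) (W3 := 13421774) (n := ndB5q2) (c := cZ)
    ⟨T.a (T.a (T.l 0) (T.l 0)) (T.l 0),
      by decide +kernel⟩
theorem cA_n5_02z : CertNd 0 85899345 1020054732 13421774 (ftNearE true 2 mZ 1 1 26 1320) [⟨0, 1212573556⟩, ⟨1, 1342757835⟩] ⟨ndB0q2.Y, onF, kq02, lq02⟩ cZ :=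
  certNd (T := (ftNearE true 2 mZ 1 1 26 1320)) (L := [⟨0, 1212573556⟩, ⟨1, 1342757835⟩]) (P1 := 0) (W1 := 85899345) (P3 := 1020054732) (W3 := 13421774) (n := ⟨ndB0q2.Y, onF, kq02, lq02⟩) (c := cZ)
    ⟨T.l 0,
      by decide +kernel⟩
theorem cA_n5_02 : CertNd 0 536870912 1020054732 13421774 (ftNearE true 2 mZ 1 1 26 1320) [⟨0, 1212573556⟩, ⟨1, 1342757835⟩, ⟨2, 85899345⟩, ⟨3, 492847498⟩] ndB0q2 cZ :=
  certNd (T := (ftNearE true 2 mZ 1 1 26 1320)) (L := [⟨0, 1212573556⟩, ⟨1, 1342757835⟩, ⟨2, 85899345⟩, ⟨3, 492847498⟩]) (P1 := 0) (W1 := 536870912) (P3 := 1020054732) (W3 := 13421774) (n := ndB0q2) (c := cZ)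
    ⟨T.a (T.a (T.a (T.l 5) (T.l 0)) (T.l 0)) (T.l 1),
      by decide +kernel⟩
theorem cA_n5_12 : CertNd 1212573556 130184279 1020054732 13421774 (ftNearE true 2 mZ 1 1 26 1320) [⟨3, 492847498⟩] ndB1q2 cZ :=
  certNd (T := (ftNearE true 2 mZ 1 1 26 1320)) (L := [⟨3, 492847498⟩]) (P1 := 1212573556) (W1 := 130184279) (P3 := 1020054732) (W3 := 13421774) (n := ndB1q2) (c := cZ)
    ⟨T.a (T.a (T.a (T.l 0) (T.a (T.l 0) (T.a (T.a (T.l 0) (T.a (T.a (T.l 0) (T.a (T.l 0) (T.a (T.a (T.l 0) (T.l 0)) (T.l 0)))) (T.l 0))) (T.l 0)))) (T.l 0)) (T.l 0),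
      by decide +kernel⟩
theorem cA_n5_22 : CertNd 1212573556 130184279 1020054732 13421774 (ftNearE true 2 mZ 1 1 26 1320) [⟨3, 492847498⟩] ndB2q2 cZ :=
  certNd (T := (ftNearE true 2 mZ 1 1 26 1320)) (L := [⟨3, 492847498⟩]) (P1 := 1212573556) (W1 := 130184279) (P3 := 1020054732) (W3 := 13421774) (n := ndB2q2) (c := cZ)
    ⟨T.a (T.a (T.a (T.l 0) (T.a (T.l 0) (T.l 0))) (T.l 0)) (T.l 0),
      by decide +kernel⟩
theorem cA_n5_32 : CertNd 1212573556 130184279 1020054732 13421774 (ftNearE true 2 mZ 1 1 26 1320) [⟨3, 492847498⟩] ndB3q2 cZ :=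
  certNd (T := (ftNearE true 2 mZ 1 1 26 1320)) (L := [⟨3, 492847498⟩]) (P1 := 1212573556) (W1 := 130184279) (P3 := 1020054732) (W3 := 13421774) (n := ndB3q2) (c := cZ)
    ⟨T.l 0,
      by decide +kernel⟩
theorem cA_n5_42 : CertNd 1212573556 130184279 1020054732 13421774 (ftNearE true 2 mZ 1 1 26 1320) [⟨3, 492847498⟩] ndB4q2 cZ :=
  certNd (T := (ftNearE true 2 mZ 1 1 26 1320)) (L := [⟨3, 492847498⟩]) (P1 := 1212573556) (W1 := 130184279) (P3 := 1020054732) (W3 := 13421774) (n := ndB4q2) (c := cZ)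
    ⟨T.l 0,
      by decide +kernel⟩
theorem cA_n5_52 : CertNd 1212573556 130184279 1020054732 13421774 (ftNearE true 2 mZ 1 1 26 1320) [⟨3, 492847498⟩] ndB5q2 cZ :=
  certNd (T := (ftNearE true 2 mZ 1 1 26 1320)) (L := [⟨3, 492847498⟩]) (P1 := 1212573556) (W1 := 130184279) (P3 := 1020054732) (W3 := 13421774) (n := ndB5q2) (c := cZ)
    ⟨T.l 0,
      by decide +kernel⟩
theorem cA_R5_2 : CertSd 1212573556 130184279 1020054732 13421774 (ftFarG true 2 mZ 1 1 26 1320 1038) [] idF (cnF 1038 1000) pcB2 dZ :=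
  certSd (T := (ftFarG true 2 mZ 1 1 26 1320 1038)) (L := []) (P1 := 1212573556) (W1 := 130184279) (P3 := 1020054732) (W3 := 13421774) (Y := idF) (X := (cnF 1038 1000))
    (pc := pcB2) (c := dZ) ⟨T.l 0,
      by decide +kernel⟩
theorem cA_N5_2 : CertSd 1212573556 130184279 1020054732 13421774 (ftNearE true 2 mZ 1 1 26 1320) [] idF (cnF 459 1000) pcB2 dZ :=
  certSd (T := (ftNearE true 2 mZ 1 1 26 1320)) (L := []) (P1 := 1212573556) (W1 := 130184279) (P3 := 1020054732) (W3 := 13421774) (Y := idF) (X := (cnF 459 1000))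
    (pc := pcB2) (c := dZ) ⟨T.l 0,
      by decide +kernel⟩
theorem cA_r6_02 : CertNd 0 536870912 1020054732 13421774 (ftFarG true 2 mZ 1 1 26 1575 1038) [⟨0, 1330359331⟩, ⟨1, 1732070817⟩, ⟨2, 1114544013⟩] ndB0q2 cZ :=
  certNd (T := (ftFarG true 2 mZ 1 1 26 1575 1038)) (L := [⟨0, 1330359331⟩, ⟨1, 1732070817⟩, ⟨2, 1114544013⟩]) (P1 := 0) (W1 := 536870912) (P3 := 1020054732) (W3 := 13421774) (n := ndB0q2) (c := cZ)
    ⟨T.l 1,
      by decide +kernel⟩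
theorem cA_r6_12 : CertNd 1330359331 280253405 1020054732 13421774 (ftFarG true 2 mZ 1 1 26 1575 1038) [⟨2, 1114544013⟩] ndB1q2 cZ :=
  certNd (T := (ftFarG true 2 mZ 1 1 26 1575 1038)) (L := [⟨2, 1114544013⟩]) (P1 := 1330359331) (W1 := 280253405) (P3 := 1020054732) (W3 := 13421774) (n := ndB1q2) (c := cZ)
    ⟨T.l 0,
      by decide +kernel⟩
theorem cA_r6_22 : CertNd 1330359331 280253405 1020054732 13421774 (ftFarG true 2 mZ 1 1 26 1575 1038) [⟨2, 1114544013⟩] ndB2q2 cZ :=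
  certNd (T := (ftFarG true 2 mZ 1 1 26 1575 1038)) (L := [⟨2, 1114544013⟩]) (P1 := 1330359331) (W1 := 280253405) (P3 := 1020054732) (W3 := 13421774) (n := ndB2q2) (c := cZ)
    ⟨T.l 0,
      by decide +kernel⟩
theorem cA_r6_32 : CertNd 1330359331 280253405 1020054732 13421774 (ftFarG true 2 mZ 1 1 26 1575 1038) [⟨2, 1114544013⟩] ndB3q2 cZ :=
  certNd (T := (ftFarG true 2 mZ 1 1 26 1575 1038)) (L := [⟨2, 1114544013⟩]) (P1 := 1330359331) (W1 := 280253405) (P3 := 1020054732) (W3 := 13421774) (n := ndB3q2) (c := cZ)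
    ⟨T.l 0,
      by decide +kernel⟩
theorem cA_r6_42 : CertNd 1330359331 280253405 1020054732 13421774 (ftFarG true 2 mZ 1 1 26 1575 1038) [⟨2, 1114544013⟩] ndB4q2 cZ :=
  certNd (T := (ftFarG true 2 mZ 1 1 26 1575 1038)) (L := [⟨2, 1114544013⟩]) (P1 := 1330359331) (W1 := 280253405) (P3 := 1020054732) (W3 := 13421774) (n := ndB4q2) (c := cZ)
    ⟨T.l 0,
      by decide +kernel⟩
theorem cA_r6_52 : CertNd 1330359331 280253405 1020054732 13421774 (ftFarG true 2 mZ 1 1 26 1575 1038) [⟨2, 1114544013⟩] ndB5q2 cZ :=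
  certNd (T := (ftFarG true 2 mZ 1 1 26 1575 1038)) (L := [⟨2, 1114544013⟩]) (P1 := 1330359331) (W1 := 280253405) (P3 := 1020054732) (W3 := 13421774) (n := ndB5q2) (c := cZ)
    ⟨T.a (T.a (T.l 0) (T.l 0)) (T.l 0),
      by decide +kernel⟩
theorem cA_r6_13 : CertNd 1610612736 121458081 1020054732 13421774 (ftFarG true 3 mZ 1 1 26 1575 1038) [⟨2, 1114544013⟩] ndB1q3 cZ :=
  certNd (T := (ftFarG true 3 mZ 1 1 26 1575 1038)) (L := [⟨2, 1114544013⟩]) (P1 := 1610612736) (W1 := 121458081) (P3 := 1020054732) (W3 := 13421774) (n := ndB1q3) (c := cZ)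
    ⟨T.l 0,
      by decide +kernel⟩
theorem cA_r6_23 : CertNd 1610612736 121458081 1020054732 13421774 (ftFarG true 3 mZ 1 1 26 1575 1038) [⟨2, 1114544013⟩] ndB2q3 cZ :=
  certNd (T := (ftFarG true 3 mZ 1 1 26 1575 1038)) (L := [⟨2, 1114544013⟩]) (P1 := 1610612736) (W1 := 121458081) (P3 := 1020054732) (W3 := 13421774) (n := ndB2q3) (c := cZ)
    ⟨T.l 0,
      by decide +kernel⟩
theorem cA_r6_33 : CertNd 0 1230186008 1020054732 13421774 (ftFarG true 3 mZ 1 1 26 1575 1038) [⟨0, 1330359331⟩, ⟨1, 1732070817⟩, ⟨2, 1114544013⟩] ndB3q3 cZ :=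
  certNd (T := (ftFarG true 3 mZ 1 1 26 1575 1038)) (L := [⟨0, 1330359331⟩, ⟨1, 1732070817⟩, ⟨2, 1114544013⟩]) (P1 := 0) (W1 := 1230186008) (P3 := 1020054732) (W3 := 13421774) (n := ndB3q3) (c := cZ)
    ⟨T.l 5,
      by decide +kernel⟩
theorem cA_r6_43 : CertNd 0 1230186008 1020054732 13421774 (ftFarG true 3 mZ 1 1 26 1575 1038) [⟨0, 1330359331⟩, ⟨1, 1732070817⟩, ⟨2, 1114544013⟩] ndB4q3 cZ :=
  certNd (T := (ftFarG true 3 mZ 1 1 26 1575 1038)) (L := [⟨0, 1330359331⟩, ⟨1, 1732070817⟩, ⟨2, 1114544013⟩]) (P1 := 0) (W1 := 1230186008) (P3 := 1020054732) (W3 := 13421774) (n := ndB4q3) (c := cZ)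
    ⟨T.l 5,
      by decide +kernel⟩
theorem cA_r6_53 : CertNd 0 1230186008 1020054732 13421774 (ftFarG true 3 mZ 1 1 26 1575 1038) [⟨0, 1330359331⟩, ⟨1, 1732070817⟩, ⟨2, 1114544013⟩] ndB5q3 cZ :=
  certNd (T := (ftFarG true 3 mZ 1 1 26 1575 1038)) (L := [⟨0, 1330359331⟩, ⟨1, 1732070817⟩, ⟨2, 1114544013⟩]) (P1 := 0) (W1 := 1230186008) (P3 := 1020054732) (W3 := 13421774) (n := ndB5q3) (c := cZ)
    ⟨T.a (T.l 3) (T.a (T.l 0) (T.l 0)),
      by decide +kernel⟩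
theorem cA_n6_02z : CertNd 0 85899345 1020054732 13421774 (ftNearE true 2 mZ 1 1 26 1575) [⟨0, 1330359331⟩, ⟨1, 1732070817⟩] ⟨ndB0q2.Y, onF, kq02, lq02⟩ cZ :=
  certNd (T := (ftNearE true 2 mZ 1 1 26 1575)) (L := [⟨0, 1330359331⟩, ⟨1, 1732070817⟩]) (P1 := 0) (W1 := 85899345) (P3 := 1020054732) (W3 := 13421774) (n := ⟨ndB0q2.Y, onF, kq02, lq02⟩) (c := cZ)
    ⟨T.l 0,
      by decide +kernel⟩
theorem cA_n6_02 : CertNd 0 536870912 1020054732 13421774 (ftNearE true 2 mZ 1 1 26 1575) [⟨0, 1330359331⟩, ⟨1, 1732070817⟩, ⟨2, 85899345⟩, ⟨3, 492847498⟩] ndB0q2 cZ :=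
  certNd (T := (ftNearE true 2 mZ 1 1 26 1575)) (L := [⟨0, 1330359331⟩, ⟨1, 1732070817⟩, ⟨2, 85899345⟩, ⟨3, 492847498⟩]) (P1 := 0) (W1 := 536870912) (P3 := 1020054732) (W3 := 13421774) (n := ndB0q2) (c := cZ)
    ⟨T.l 1,
      by decide +kernel⟩
theorem cA_n6_12 : CertNd 1330359331 280253405 1020054732 13421774 (ftNearE true 2 mZ 1 1 26 1575) [⟨3, 492847498⟩] ndB1q2 cZ :=
  certNd (T := (ftNearE true 2 mZ 1 1 26 1575)) (L := [⟨3, 492847498⟩]) (P1 := 1330359331) (W1 := 280253405) (P3 := 1020054732) (W3 := 13421774) (n := ndB1q2) (c := cZ)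
    ⟨T.l 0,
      by decide +kernel⟩
theorem cA_n6_22 : CertNd 1330359331 280253405 1020054732 13421774 (ftNearE true 2 mZ 1 1 26 1575) [⟨3, 492847498⟩] ndB2q2 cZ :=
  certNd (T := (ftNearE true 2 mZ 1 1 26 1575)) (L := [⟨3, 492847498⟩]) (P1 := 1330359331) (W1 := 280253405) (P3 := 1020054732) (W3 := 13421774) (n := ndB2q2) (c := cZ)
    ⟨T.l 0,
      by decide +kernel⟩
theorem cA_n6_32 : CertNd 1330359331 280253405 1020054732 13421774 (ftNearE true 2 mZ 1 1 26 1575) [⟨3, 492847498⟩] ndB3q2 cZ :=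
  certNd (T := (ftNearE true 2 mZ 1 1 26 1575)) (L := [⟨3, 492847498⟩]) (P1 := 1330359331) (W1 := 280253405) (P3 := 1020054732) (W3 := 13421774) (n := ndB3q2) (c := cZ)
    ⟨T.l 0,
      by decide +kernel⟩
theorem cA_n6_42 : CertNd 1330359331 280253405 1020054732 13421774 (ftNearE true 2 mZ 1 1 26 1575) [⟨3, 492847498⟩] ndB4q2 cZ :=
  certNd (T := (ftNearE true 2 mZ 1 1 26 1575)) (L := [⟨3, 492847498⟩]) (P1 := 1330359331) (W1 := 280253405) (P3 := 1020054732) (W3 := 13421774) (n := ndB4q2) (c := cZ)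
    ⟨T.l 0,
      by decide +kernel⟩
theorem cA_n6_52 : CertNd 1330359331 280253405 1020054732 13421774 (ftNearE true 2 mZ 1 1 26 1575) [⟨3, 492847498⟩] ndB5q2 cZ :=
  certNd (T := (ftNearE true 2 mZ 1 1 26 1575)) (L := [⟨3, 492847498⟩]) (P1 := 1330359331) (W1 := 280253405) (P3 := 1020054732) (W3 := 13421774) (n := ndB5q2) (c := cZ)
    ⟨T.l 0,
      by decide +kernel⟩
theorem cA_n6_13 : CertNd 1610612736 121458081 1020054732 13421774 (ftNearG true 3 mZ 1 1 26 1575) [⟨3, 492847498⟩] ndB1q3 cZ :=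
  certNd (T := (ftNearG true 3 mZ 1 1 26 1575)) (L := [⟨3, 492847498⟩]) (P1 := 1610612736) (W1 := 121458081) (P3 := 1020054732) (W3 := 13421774) (n := ndB1q3) (c := cZ)
    ⟨T.l 0,
      by decide +kernel⟩
theorem cA_n6_23 : CertNd 1610612736 121458081 1020054732 13421774 (ftNearG true 3 mZ 1 1 26 1575) [⟨3, 492847498⟩] ndB2q3 cZ :=
  certNd (T := (ftNearG true 3 mZ 1 1 26 1575)) (L := [⟨3, 492847498⟩]) (P1 := 1610612736) (W1 := 121458081) (P3 := 1020054732) (W3 := 13421774) (n := ndB2q3) (c := cZ)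
    ⟨T.l 0,
      by decide +kernel⟩
theorem cA_n6_33 : CertNd 0 1230186008 1020054732 13421774 (ftNearG true 3 mZ 1 1 26 1575) [⟨0, 1330359331⟩, ⟨1, 1732070817⟩, ⟨3, 492847498⟩] ndB3q3 cZ :=
  certNd (T := (ftNearG true 3 mZ 1 1 26 1575)) (L := [⟨0, 1330359331⟩, ⟨1, 1732070817⟩, ⟨3, 492847498⟩]) (P1 := 0) (W1 := 1230186008) (P3 := 1020054732) (W3 := 13421774) (n := ndB3q3) (c := cZ)
    ⟨T.a (T.l 3) (T.a (T.l 0) (T.l 0)),
      by decide +kernel⟩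
theorem cA_n6_43 : CertNd 0 1230186008 1020054732 13421774 (ftNearG true 3 mZ 1 1 26 1575) [⟨0, 1330359331⟩, ⟨1, 1732070817⟩, ⟨3, 492847498⟩] ndB4q3 cZ :=
  certNd (T := (ftNearG true 3 mZ 1 1 26 1575)) (L := [⟨0, 1330359331⟩, ⟨1, 1732070817⟩, ⟨3, 492847498⟩]) (P1 := 0) (W1 := 1230186008) (P3 := 1020054732) (W3 := 13421774) (n := ndB4q3) (c := cZ)
    ⟨T.a (T.l 3) (T.a (T.l 0) (T.l 0)),
      by decide +kernel⟩
theorem cA_n6_53 : CertNd 0 1230186008 1020054732 13421774 (ftNearG true 3 mZ 1 1 26 1575) [⟨0, 1330359331⟩, ⟨1, 1732070817⟩, ⟨3, 492847498⟩] ndB5q3 cZ :=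
  certNd (T := (ftNearG true 3 mZ 1 1 26 1575)) (L := [⟨0, 1330359331⟩, ⟨1, 1732070817⟩, ⟨3, 492847498⟩]) (P1 := 0) (W1 := 1230186008) (P3 := 1020054732) (W3 := 13421774) (n := ndB5q3) (c := cZ)
    ⟨T.a (T.l 3) (T.l 5),
      by decide +kernel⟩
theorem cA_R6_2 : CertSd 1330359331 280253405 1020054732 13421774 (ftFarG true 2 mZ 1 1 26 1575 1038) [] idF (cnF 1038 1000) pcB2 dZ :=
  certSd (T := (ftFarG true 2 mZ 1 1 26 1575 1038)) (L := []) (P1 := 1330359331) (W1 := 280253405) (P3 := 1020054732) (W3 := 13421774) (Y := idF) (X := (cnF 1038 1000))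
    (pc := pcB2) (c := dZ) ⟨T.a (T.l 0) (T.l 0),
      by decide +kernel⟩
theorem cA_N6_2 : CertSd 1330359331 280253405 1020054732 13421774 (ftNearE true 2 mZ 1 1 26 1575) [] idF (cnF 459 1000) pcB2 dZ :=
  certSd (T := (ftNearE true 2 mZ 1 1 26 1575)) (L := []) (P1 := 1330359331) (W1 := 280253405) (P3 := 1020054732) (W3 := 13421774) (Y := idF) (X := (cnF 459 1000))
    (pc := pcB2) (c := dZ) ⟨T.l 0,
      by decide +kernel⟩
theorem cA_R6_3 : CertSd 1610612736 108517338 1020054732 13421774 (ftFarG true 3 mZ 1 1 26 1575 1038) [] idF (cnF 1038 1000) pcB3 dZ :=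
  certSd (T := (ftFarG true 3 mZ 1 1 26 1575 1038)) (L := []) (P1 := 1610612736) (W1 := 108517338) (P3 := 1020054732) (W3 := 13421774) (Y := idF) (X := (cnF 1038 1000))
    (pc := pcB3) (c := dZ) ⟨T.l 0,
      by decide +kernel⟩
theorem cA_N6_3 : CertSd 1610612736 121458081 1020054732 13421774 (ftNearG true 3 mZ 1 1 26 1575) [] idF (cnF 459 1000) pcB3 dZ :=
  certSd (T := (ftNearG true 3 mZ 1 1 26 1575)) (L := []) (P1 := 1610612736) (W1 := 121458081) (P3 := 1020054732) (W3 := 13421774) (Y := idF) (X := (cnF 459 1000))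
    (pc := pcB3) (c := dZ) ⟨T.l 0,
      by decide +kernel⟩

end Pool.Agent.Strip051.G.I9500_9625.Tab
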