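import Pool.Agent.Strip051.G.I9500_9625.Fact
import Pool.Agent.Strip051.G.I9500_9625.FcA

/-! # The floor with the window, vertex A (generated) -/

set_option linter.all false

namespace Pool.Agent.Strip051.G.I9500_9625.Tab

open Pool.Agent.Strip051.PB Pool.Agent.StripNear Pool.Agent.StripSquare
  Pool.Agent.Strip051.Sweep Pool.Agent.Strip051.LC Pool.Agent.Strip051.LC.Exact
open Pool.Agent.Strip051.LC.Floor (G En Qn fS GUn kan k3d k3n zen)

theorem wOk : geoOk 1038 459 10 12 26 13 878 1387 = true := by decide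
theorem gsg_v (x : ℝ) : gsg.v x = G x := by
  have : gsg.v = c1n := by funext y; simp [gsg, c1n]
  rw [this]
  rfl
theorem c1gG_v (y : ℝ) : c1g.v y = G y := by
  rw [c1g_v]
  rfl
theorem mug_v (x : ℝ) : mug3.v x = mT.v x := by
  show (((2 : ℕ) : ℝ) * gsg.v x + ((3 : ℕ) : ℝ))⁻¹ = (((3 : ℕ) : ℝ) + ((2 : ℕ) : ℝ) * c1n x)⁻¹
  rw [gsg_v, c1n_G, add_comm]
theorem gug_v (x : ℝ) : gug.v x = GUn x := by
  simp only [gug, gsg_v]
  push_cast
  unfold Pool.Agent.Strip051.LC.Floor.GUn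
  ring
theorem eng_v (x : ℝ) : eng.v x = 1 + mT.v x * GUn x := by
  simp only [eng, mug_v, gug_v]
  push_cast
  ring
theorem esgE_v (x : ℝ) : esg.v x = En x := by
  simp only [esg, gsg_v]
  push_cast
  unfold Pool.Agent.Strip051.LC.Floor.En
  ring
theorem dlg_v (y x : ℝ) : dlg.v y x = kcg.v (3 / 4 * y - G y / 2) x := by
  simp only [dlg, c1gG_v]
  push_cast
  rfl
theorem clKF1 {y x : ℝ} (h0 : 1 / 3 < y) (h1 : y < 1) : kf0q1.v y x = tq 1 y * kan y (dlg.v y x) := by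
  have e := kan_hi h0 h1
  have e2 : tq 1 y = y - 1 := rfl
  rw [e2, dlg_v]
  simp only [kf0q1, kf0q1_10, c1gG_v]
  push_cast
  unfold kan
  linear_combination e
theorem clL1 {y x : ℝ} (ha : 107 / 254 < 3 / 4 * y - G y / 2) (hb : 3 / 4 * y - G y / 2 < 181 / 397) :
    l0q1.v y x = zen y x (dlg.v y x) := by
  rw [dlg_v]
  simp only [l0q1, txg, txg_4, txg_6, txg_26, txg_29, txg_32, txg_35, txg_50, txg_53, txg_54, txg_70, txg_71, txg_79, txg_91, txg_92, txg_99, txg_113, txg_114, txg_133, txg_134, txg_144, txg_147, txg_162, txg_163, txg_180, txg_181, txg_189, txg_201, txg_202, txg_209, txg_221, txg_222, txg_238, txg_239, txg_248, txg_251, txg_254, txg_266, txg_267, txg_283, txg_284, txg_290, txg_302, txg_303, txg_308, txg_322, txg_323, txg_341, txg_342, txg_350, txg_351, txg_365, txg_366, txg_371, txg_385, txg_386, txg_406, txg_407, txg_414, txg_430, txg_431, txg_436, txg_453, txg_454, txg_473, txg_484,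 txg_485, txg_496, txg_497, txg_522, txg_523, txg_528, txg_542, txg_543, txg_564, txg_565, c1gG_v]
  push_cast
  unfold zen Pool.Agent.Strip051.LC.Floor.Qn Pool.Agent.Strip051.LC.Floor.En
  repeat first | rw [if_pos (by linarith)] | rw [if_neg (by linarith)]
  ring1
theorem clC1 {y x : ℝ} (ha : 107 / 254 < 3 / 4 * y - G y / 2) (hb : 3 / 4 * y - G y / 2 < 181 / 397) :
    kc0q1.v y x = k3d y (dlg.v y x) + 3 / 4 * (y - x) * mZ.v x := by
  rw [dlg_v]
  simp only [kc0q1, kc0q1_3, kc0q1_9, kc0q1_71, kc0q1_82, kc0q1_124, kc0q1_137, kc0q1_149, c1gG_v, gug_v]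
  push_cast
  unfold k3d Pool.Agent.Strip051.LC.Floor.k3n
  have ez : mZ.v x = 0 := rfl
  simp only [ez]
  repeat first | rw [if_pos (by linarith)] | rw [if_neg (by linarith)]
  ring1
theorem quK {p x : ℝ} (p0 : 0 < p) (p1 : p ≤ ((85899345 : ℕ) : ℝ) / 1073741824) : kfc02.v p x = p * kq02.v p x := by
  norm_num at p1
  simp only [kfc02, kcg, kcg_3, kcg_6, kcg_9, kcg_12, kcg_13, kcg_18, kcg_31, kcg_34, kcg_35, kcg_40, kcg_45, kcg_58, kcg_59, kcg_67, kcg_68, kcg_73, kcg_86, kcg_87, kcg_94, kcg_95, kcg_99, kcg_110, kcg_111, kcg_116, kcg_120, kcg_129, kcg_130, kcg_140, kcg_143, kcg_144, kcg_148, kcg_157, kcg_158, kcg_165, kcg_166, kcg_170, kcg_179, kcg_180, kcg_185, kcg_189, kcg_199, kcg_200, kcg_209, kcg_210, kcg_214, kcg_225, kcg_226, kcg_234, kcg_238, kcg_251, kcg_252, kcg_257, kcg_261, kcg_269, kcg_270, kcg_271, kcg_276, kcg_277, kcg_286, kcg_292, kcg_297, kcg_302, kcg_309, kcg_320, kcg_328, kcg_329,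 kcg_336, kcg_341, kcg_348, kcg_358, kcg_365, kcg_371, kcg_382, kq02, kq02_6]
  push_cast
  repeat first | rw [if_pos (by linarith)] | rw [if_neg (by linarith)]
  ring1
theorem qx_m {p x : ℝ} (p0 : 0 < p) (p1 : p ≤ ((85899345 : ℕ) : ℝ) / 1073741824) (c : ℝ) : txg.v (-p) c x = (-(1536456277 / 1600000000)) * p ^ 0 * x ^ 0 + (12323469 / 10000000) * p ^ 0 * x ^ 1 + (-(5003019 / 160000000)) * p ^ 1 * x ^ 0 + (-(110669 / 1000000)) * p ^ 1 * x ^ 1 + (17603 / 6400) * p ^ 2 * x ^ 0 + (-(4051 / 1000)) * p ^ 2 * x ^ 1 := by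
  norm_num at p1
  simp only [txg, txg_4, txg_6, txg_26, txg_29, txg_32, txg_35, txg_50, txg_53, txg_54, txg_70, txg_71, txg_79, txg_91, txg_92, txg_99, txg_113, txg_114, txg_133, txg_134, txg_144, txg_147, txg_162, txg_163, txg_180, txg_181, txg_189, txg_201, txg_202, txg_209, txg_221, txg_222, txg_238, txg_239, txg_248, txg_251, txg_254, txg_266, txg_267, txg_283, txg_284, txg_290, txg_302, txg_303, txg_308, txg_322, txg_323, txg_341, txg_342, txg_350, txg_351, txg_365, txg_366, txg_371, txg_385, txg_386, txg_406, txg_407, txg_414, txg_430, txg_431, txg_436, txg_453, txg_454, txg_473, txg_484, txg_485, txg_496, txg_497, txg_522, txg_523, txg_528, txg_542, txg_543, txg_564, txg_565, kcg, kcg_3, kcg_6, kcg_9, kcg_12, kcg_13, kcg_18, kcg_31, kcg_34, kcg_35, kcg_40, kcg_45, kcg_58, kcg_59, kcg_67, kcg_68, kcg_73, kcg_86, kcg_87, kcg_94, kcg_95, kcg_99, kcg_110, kcg_111, kcg_116, kcg_120, kcg_129,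 kcg_130, kcg_140, kcg_143, kcg_144, kcg_148, kcg_157, kcg_158, kcg_165, kcg_166, kcg_170, kcg_179, kcg_180, kcg_185, kcg_189, kcg_199, kcg_200, kcg_209, kcg_210, kcg_214, kcg_225, kcg_226, kcg_234, kcg_238, kcg_251, kcg_252, kcg_257, kcg_261, kcg_269, kcg_270, kcg_271, kcg_276, kcg_277, kcg_286, kcg_292, kcg_297, kcg_302, kcg_309, kcg_320, kcg_328, kcg_329, kcg_336, kcg_341, kcg_348, kcg_358, kcg_365, kcg_371, kcg_382]
  push_cast
  repeat first | rw [if_pos (by linarith)] | rw [if_neg (by linarith)]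
  ring1
theorem qx_p {p x : ℝ} (p0 : 0 < p) (p1 : p ≤ ((85899345 : ℕ) : ℝ) / 1073741824) (c : ℝ) : txg.v p c x = (-(1536456277 / 1600000000)) * p ^ 0 * x ^ 0 + (12323469 / 10000000) * p ^ 0 * x ^ 1 + (5003019 / 160000000) * p ^ 1 * x ^ 0 + (110669 / 1000000) * p ^ 1 * x ^ 1 + (17603 / 6400) * p ^ 2 * x ^ 0 + (-(4051 / 1000)) * p ^ 2 * x ^ 1 := by
  norm_num at p1
  simp only [txg, txg_4, txg_6, txg_26, txg_29, txg_32, txg_35, txg_50, txg_53, txg_54, txg_70, txg_71, txg_79, txg_91, txg_92, txg_99, txg_113, txg_114, txg_133, txg_134, txg_144, txg_147, txg_162, txg_163, txg_180, txg_181, txg_189, txg_201, txg_202, txg_209, txg_221, txg_222, txg_238, txg_239, txg_248, txg_251, txg_254, txg_266, txg_267, txg_283, txg_284, txg_290, txg_302, txg_303, txg_308, txg_322, txg_323, txg_341, txg_342, txg_350, txg_351, txg_365, txg_366, txg_371, txg_385, txg_386, txg_406, txg_407, txg_414, txg_430, txg_431, txg_436,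 txg_453, txg_454, txg_473, txg_484, txg_485, txg_496, txg_497, txg_522, txg_523, txg_528, txg_542, txg_543, txg_564, txg_565, kcg, kcg_3, kcg_6, kcg_9, kcg_12, kcg_13, kcg_18, kcg_31, kcg_34, kcg_35, kcg_40, kcg_45, kcg_58, kcg_59, kcg_67, kcg_68, kcg_73, kcg_86, kcg_87, kcg_94, kcg_95, kcg_99, kcg_110, kcg_111, kcg_116, kcg_120, kcg_129, kcg_130, kcg_140, kcg_143, kcg_144, kcg_148, kcg_157, kcg_158, kcg_165, kcg_166, kcg_170, kcg_179, kcg_180, kcg_185, kcg_189, kcg_199, kcg_200, kcg_209, kcg_210, kcg_214, kcg_225, kcg_226, kcg_234, kcg_238, kcg_251, kcg_252, kcg_257, kcg_261, kcg_269, kcg_270, kcg_271, kcg_276, kcg_277, kcg_286, kcg_292, kcg_297, kcg_302, kcg_309, kcg_320, kcg_328, kcg_329, kcg_336, kcg_341, kcg_348, kcg_358, kcg_365, kcg_371, kcg_382]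
  push_cast
  repeat first | rw [if_pos (by linarith)] | rw [if_neg (by linarith)]
  ring1
theorem quL {p x : ℝ} (p0 : 0 < p) (p1 : p ≤ ((85899345 : ℕ) : ℝ) / 1073741824) : lc02.v p x = p * lq02.v p x := by
  have p2 := p1
  norm_num at p2
  simp only [lc02, lc02_7, lc02_8, qx_m p0 p1, qx_p p0 p1, lq02]
  push_cast
  repeat first | rw [if_pos (by linarith)] | rw [if_neg (by linarith)]
  ring1
theorem quC {p x : ℝ} (p0 : 0 < p) (p1 : p ≤ ((85899345 : ℕ) : ℝ) / 1073741824) : kcc02.v p x = p * cq02.v p x := by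
  norm_num at p1
  simp only [kcc02, cq02]
  push_cast
  repeat first | rw [if_pos (by linarith)] | rw [if_neg (by linarith)]
  ring1
theorem onA10 {x : ℝ} (hx : Rng 1020054732 13421774 x) : On PP tK tL Z0 x (1 : Fin 6) 0
    (WallP (((1 : ℕ) : ℝ) / ((1 : ℕ) : ℝ)) x (mZ.v x) 0) fun _ => True := by
  have x0 := rng_pos hx (by norm_num)
  have x1 := rng_lt hx (by norm_num)
  have hμ : 0 ≤ mZ.v x := le_rfl
  have bK : En x * ndB1q0.K.v 0 x = (En x + mZ.v x * Qn x) * (1) := bK_far (corB10 x).2.1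
  have hm := On.monoY (fun y hy => (atB10 hy).far) cA_m10 hx (fun _ => rfl)
  have g := On.germ0 (fun y hy => (atB10 hy).toAt) cA_g10 hx x0 x1 hμ (corB10 x).1 bK (corB10 x).2.2.1 (hm.sub (by norm_num) (by norm_num)) (((1 : ℕ) : ℝ) / ((1 : ℕ) : ℝ))
  have w := On.wallY (fun y hy => (atB10 hy).far) cA_w10 hx (fun _ => rfl)
  exact (g.join (e := 536870912) w (by norm_num) (by norm_num)).full 0 (by norm_num) (by norm_num)
theorem flA1 {x : ℝ} (hx : Rng 1020054732 13421774 x) : On PP tK tL Z0 x (1 : Fin 6) 0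
    (FlatG (kc 13) (((1 : ℕ) : ℝ) / ((1 : ℕ) : ℝ)) x (mZ.v x) 0) fun y => h0 * y ≤ kc 10 := by
  have x0 := rng_pos hx (by norm_num)
  have x1 := rng_lt hx (by norm_num)
  have hμ : 0 ≤ mZ.v x := le_rfl
  exact On.flatWG (On.monoY (fun y hy => (atB10 hy).far) cA_m10 hx (fun _ => rfl)) (by decide) (onA10 hx)
theorem onA11 {x : ℝ} (hx : Rng 1020054732 13421774 x) : On PP tK tL Z0 x (1 : Fin 6) 1
    (WallP (((1 : ℕ) : ℝ) / ((1 : ℕ) : ℝ)) x (mZ.v x) 1) fun _ => True := by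
  have x0 := rng_pos hx (by norm_num)
  have x1 := rng_lt hx (by norm_num)
  have hμ : 0 ≤ mZ.v x := le_rfl
  exact (On.wallY (fun y hy => (atB11 hy).far) cA_w11 hx (fun _ => rfl)).full 1 (by norm_num) (by norm_num)
theorem onA20 {x : ℝ} (hx : Rng 1020054732 13421774 x) : On PP tK tL Z0 x (2 : Fin 6) 0
    (WallP (((1 : ℕ) : ℝ) / ((1 : ℕ) : ℝ)) x (mZ.v x) 0) fun _ => True := by
  have x0 := rng_pos hx (by norm_num)
  have x1 := rng_lt hx (by norm_num)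
  have hμ : 0 ≤ mZ.v x := le_rfl
  have bK : En x * ndB2q0.K.v 0 x = (En x + mZ.v x * Qn x) * (1) := bK_far (corB20 x).2.1
  have hm := On.monoY (fun y hy => (atB20 hy).far) cA_m20 hx (fun _ => rfl)
  have g := On.germ0 (fun y hy => (atB20 hy).toAt) cA_g20 hx x0 x1 hμ (corB20 x).1 bK (corB20 x).2.2.1 (hm.sub (by norm_num) (by norm_num)) (((1 : ℕ) : ℝ) / ((1 : ℕ) : ℝ))
  have w := On.wallY (fun y hy => (atB20 hy).far) cA_w20 hx (fun _ => rfl)
  exact (g.join (e := 536870912) w (by norm_num) (by norm_num)).full 0 (by norm_num) (by norm_num)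
theorem flA2 {x : ℝ} (hx : Rng 1020054732 13421774 x) : On PP tK tL Z0 x (2 : Fin 6) 0
    (FlatG (kc 13) (((1 : ℕ) : ℝ) / ((1 : ℕ) : ℝ)) x (mZ.v x) 0) fun y => h0 * y ≤ kc 10 := by
  have x0 := rng_pos hx (by norm_num)
  have x1 := rng_lt hx (by norm_num)
  have hμ : 0 ≤ mZ.v x := le_rfl
  exact On.flatWG (On.monoY (fun y hy => (atB20 hy).far) cA_m20 hx (fun _ => rfl)) (by decide) (onA20 hx)
theorem onA21 {x : ℝ} (hx : Rng 1020054732 13421774 x) : On PP tK tL Z0 x (2 : Fin 6) 1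
    (WallP (((1 : ℕ) : ℝ) / ((1 : ℕ) : ℝ)) x (mZ.v x) 1) fun _ => True := by
  have x0 := rng_pos hx (by norm_num)
  have x1 := rng_lt hx (by norm_num)
  have hμ : 0 ≤ mZ.v x := le_rfl
  exact (On.wallY (fun y hy => (atB21 hy).far) cA_w21 hx (fun _ => rfl)).full 1 (by norm_num) (by norm_num)
theorem onA30 {x : ℝ} (hx : Rng 1020054732 13421774 x) : On PP tK tL Z0 x (3 : Fin 6) 0
    (WallP (((1 : ℕ) : ℝ) / ((1 : ℕ) : ℝ)) x (mZ.v x) 0) fun y => kc 10 ≤ h0 * y := by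
  have x0 := rng_pos hx (by norm_num)
  have x1 := rng_lt hx (by norm_num)
  have hμ : 0 ≤ mZ.v x := le_rfl
  exact On.wall3G (On.wallY (fun y hy => (atB30 hy).far) cA_w30 hx (fun _ => rfl)) (by norm_num) (by decide)
theorem flA3 {x : ℝ} (hx : Rng 1020054732 13421774 x) : On PP tK tL Z0 x (3 : Fin 6) 0
    (FlatG (kc 13) (((1 : ℕ) : ℝ) / ((1 : ℕ) : ℝ)) x (mZ.v x) 0) fun y => h0 * y ≤ kc 10 := by
  have x0 := rng_pos hx (by norm_num)
  have x1 := rng_lt hx (by norm_num)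
  have hμ : 0 ≤ mZ.v x := le_rfl
  exact On.flatYG (fun y hy => (atB30 hy).far) cA_f30 hx (fun _ => rfl) (by decide)
theorem leA3 {x : ℝ} (hx : Rng 1020054732 13421774 x) : On PP tK tL Z0 x (3 : Fin 6) 0
    (WallP (((1 : ℕ) : ℝ) / ((1 : ℕ) : ℝ)) x (mZ.v x) 0) fun y => h0 * y ≤ kc 10 ∧ crv PP (3 : Fin 6) 0 y ≤ kc 1038 := by
  have x0 := rng_pos hx (by norm_num)
  have x1 := rng_lt hx (by norm_num)
  have hμ : 0 ≤ mZ.v x := le_rfl
  exact On.leftYG (fun y hy => (atB30 hy).far) cA_l30 hx (fun _ => rfl) (by decide) (by decide)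
theorem onA31 {x : ℝ} (hx : Rng 1020054732 13421774 x) : On PP tK tL Z0 x (3 : Fin 6) 1
    (WallP (((1 : ℕ) : ℝ) / ((1 : ℕ) : ℝ)) x (mZ.v x) 1) fun _ => True := by
  have x0 := rng_pos hx (by norm_num)
  have x1 := rng_lt hx (by norm_num)
  have hμ : 0 ≤ mZ.v x := le_rfl
  exact (On.wallY (fun y hy => (atB31 hy).far) cA_w31 hx (fun _ => rfl)).full 1 (by norm_num) (by norm_num)
theorem onA32 {x : ℝ} (hx : Rng 1020054732 13421774 x) : On PP tK tL Z0 x (3 : Fin 6) 2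
    (WallP (((1 : ℕ) : ℝ) / ((1 : ℕ) : ℝ)) x (mZ.v x) 2) fun y => h0 * y ≤ 1 ∧ 1 - G y ≤ crv PP (3 : Fin 6) 2 y := by
  have x0 := rng_pos hx (by norm_num)
  have x1 := rng_lt hx (by norm_num)
  have hμ : 0 ≤ mZ.v x := le_rfl
  exact On.right2 (fun y hy => (atB32 hy).toAt) cA_w32 hx (((1 : ℕ) : ℝ) / ((1 : ℕ) : ℝ))
theorem onA40 {x : ℝ} (hx : Rng 1020054732 13421774 x) : On PP tK tL Z0 x (4 : Fin 6) 0
    (WallP (((1 : ℕ) : ℝ) / ((1 : ℕ) : ℝ)) x (mZ.v x) 0) fun y => kc 10 ≤ h0 * y := by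
  have x0 := rng_pos hx (by norm_num)
  have x1 := rng_lt hx (by norm_num)
  have hμ : 0 ≤ mZ.v x := le_rfl
  exact On.wall3G (On.wallY (fun y hy => (atB40 hy).far) cA_w40 hx (fun _ => rfl)) (by norm_num) (by decide)
theorem flA4 {x : ℝ} (hx : Rng 1020054732 13421774 x) : On PP tK tL Z0 x (4 : Fin 6) 0
    (FlatG (kc 13) (((1 : ℕ) : ℝ) / ((1 : ℕ) : ℝ)) x (mZ.v x) 0) fun y => h0 * y ≤ kc 10 := by
  have x0 := rng_pos hx (by norm_num)
  have x1 := rng_lt hx (by norm_num)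
  have hμ : 0 ≤ mZ.v x := le_rfl
  exact On.flatYG (fun y hy => (atB40 hy).far) cA_f40 hx (fun _ => rfl) (by decide)
theorem leA4 {x : ℝ} (hx : Rng 1020054732 13421774 x) : On PP tK tL Z0 x (4 : Fin 6) 0
    (WallP (((1 : ℕ) : ℝ) / ((1 : ℕ) : ℝ)) x (mZ.v x) 0) fun y => h0 * y ≤ kc 10 ∧ crv PP (4 : Fin 6) 0 y ≤ kc 1038 := by
  have x0 := rng_pos hx (by norm_num)
  have x1 := rng_lt hx (by norm_num)
  have hμ : 0 ≤ mZ.v x := le_rfl
  exact On.leftYG (fun y hy => (atB40 hy).far) cA_l40 hx (fun _ => rfl) (by decide) (by decide)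
theorem onA41 {x : ℝ} (hx : Rng 1020054732 13421774 x) : On PP tK tL Z0 x (4 : Fin 6) 1
    (WallP (((1 : ℕ) : ℝ) / ((1 : ℕ) : ℝ)) x (mZ.v x) 1) fun _ => True := by
  have x0 := rng_pos hx (by norm_num)
  have x1 := rng_lt hx (by norm_num)
  have hμ : 0 ≤ mZ.v x := le_rfl
  exact (On.wallY (fun y hy => (atB41 hy).far) cA_w41 hx (fun _ => rfl)).full 1 (by norm_num) (by norm_num)
theorem onA42 {x : ℝ} (hx : Rng 1020054732 13421774 x) : On PP tK tL Z0 x (4 : Fin 6) 2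
    (WallP (((1 : ℕ) : ℝ) / ((1 : ℕ) : ℝ)) x (mZ.v x) 2) fun y => h0 * y ≤ 1 ∧ 1 - G y ≤ crv PP (4 : Fin 6) 2 y := by
  have x0 := rng_pos hx (by norm_num)
  have x1 := rng_lt hx (by norm_num)
  have hμ : 0 ≤ mZ.v x := le_rfl
  exact On.right2 (fun y hy => (atB42 hy).toAt) cA_w42 hx (((1 : ℕ) : ℝ) / ((1 : ℕ) : ℝ))
theorem onA50 {x : ℝ} (hx : Rng 1020054732 13421774 x) : On PP tK tL Z0 x (5 : Fin 6) 0
    (WallP (((1 : ℕ) : ℝ) / ((1 : ℕ) : ℝ)) x (mZ.v x) 0) fun y => kc 10 ≤ h0 * y := by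
  have x0 := rng_pos hx (by norm_num)
  have x1 := rng_lt hx (by norm_num)
  have hμ : 0 ≤ mZ.v x := le_rfl
  exact On.wall3G (On.wallY (fun y hy => (atB50 hy).far) cA_w50 hx (fun _ => rfl)) (by norm_num) (by decide)
theorem flA5 {x : ℝ} (hx : Rng 1020054732 13421774 x) : On PP tK tL Z0 x (5 : Fin 6) 0
    (FlatG (kc 13) (((1 : ℕ) : ℝ) / ((1 : ℕ) : ℝ)) x (mZ.v x) 0) fun y => h0 * y ≤ kc 10 := by
  have x0 := rng_pos hx (by norm_num)
  have x1 := rng_lt hx (by norm_num)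
  have hμ : 0 ≤ mZ.v x := le_rfl
  exact On.flatYG (fun y hy => (atB50 hy).far) cA_f50 hx (fun _ => rfl) (by decide)
theorem leA5 {x : ℝ} (hx : Rng 1020054732 13421774 x) : On PP tK tL Z0 x (5 : Fin 6) 0
    (WallP (((1 : ℕ) : ℝ) / ((1 : ℕ) : ℝ)) x (mZ.v x) 0) fun y => h0 * y ≤ kc 10 ∧ crv PP (5 : Fin 6) 0 y ≤ kc 1038 := by
  have x0 := rng_pos hx (by norm_num)
  have x1 := rng_lt hx (by norm_num)
  have hμ : 0 ≤ mZ.v x := le_rfl
  exact On.leftYG (fun y hy => (atB50 hy).far) cA_l50 hx (fun _ => rfl) (by decide) (by decide)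
theorem onA51 {x : ℝ} (hx : Rng 1020054732 13421774 x) : On PP tK tL Z0 x (5 : Fin 6) 1
    (WallP (((1 : ℕ) : ℝ) / ((1 : ℕ) : ℝ)) x (mZ.v x) 1) fun _ => True := by
  have x0 := rng_pos hx (by norm_num)
  have x1 := rng_lt hx (by norm_num)
  have hμ : 0 ≤ mZ.v x := le_rfl
  exact (On.wallY (fun y hy => (atB51 hy).far) cA_w51 hx (fun _ => rfl)).full 1 (by norm_num) (by norm_num)
theorem onA52 {x : ℝ} (hx : Rng 1020054732 13421774 x) : On PP tK tL Z0 x (5 : Fin 6) 2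
    (WallP (((1 : ℕ) : ℝ) / ((1 : ℕ) : ℝ)) x (mZ.v x) 2) fun y => h0 * y ≤ 1 ∧ 1 - G y ≤ crv PP (5 : Fin 6) 2 y := by
  have x0 := rng_pos hx (by norm_num)
  have x1 := rng_lt hx (by norm_num)
  have hμ : 0 ≤ mZ.v x := le_rfl
  exact On.right2 (fun y hy => (atB52 hy).toAt) cA_w52 hx (((1 : ℕ) : ℝ) / ((1 : ℕ) : ℝ))
theorem moA00 {x : ℝ} (hx : Rng 1020054732 13421774 x) : On PP tK tL Z0 x (0 : Fin 6) 0
    (MonoQ x (mZ.v x) 0) fun _ => True := by
  have x0 := rng_pos hx (by norm_num)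
  have x1 := rng_lt hx (by norm_num)
  have hμ : 0 ≤ mZ.v x := le_rfl
  exact (On.monoY (fun y hy => (atB00 hy).far) cA_m00 hx (fun _ => rfl)).full 0 (by norm_num) (by norm_num)
theorem onA00 {x : ℝ} (hx : Rng 1020054732 13421774 x) : On PP tK tL Z0 x (0 : Fin 6) 0
    (WallP (((1 : ℕ) : ℝ) / ((1 : ℕ) : ℝ)) x (mZ.v x) 0) fun _ => True := by
  have x0 := rng_pos hx (by norm_num)
  have x1 := rng_lt hx (by norm_num)
  have hμ : 0 ≤ mZ.v x := le_rfl
  have hm := On.monoY (fun y hy => (atB00 hy).far) cA_m00 hx (fun _ => rfl)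
  have bK : En x * ndB0q0.K.v 0 x = (En x + mZ.v x * Qn x) * (1) := bK_far (corB00 x).2.1
  have g := On.germ0 (fun y hy => (atB00 hy).toAt) cA_g00 hx x0 x1 hμ (corB00 x).1 bK (corB00 x).2.2.1 (hm.sub (by norm_num) (by norm_num)) (((1 : ℕ) : ℝ) / ((1 : ℕ) : ℝ))
  have wa := On.wallY (fun y hy => (atB00 hy).far) cA_w00a hx (fun _ => rfl)
  exact (g.join (e := 536870912) wa (by norm_num) (by norm_num)).full 0 (by norm_num) (by norm_num)
theorem flA0 {x : ℝ} (hx : Rng 1020054732 13421774 x) : On PP tK tL Z0 x (0 : Fin 6) 0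
    (FlatG (kc 13) (((1 : ℕ) : ℝ) / ((1 : ℕ) : ℝ)) x (mZ.v x) 0) fun y => h0 * y ≤ kc 10 := by
  have x0 := rng_pos hx (by norm_num)
  have x1 := rng_lt hx (by norm_num)
  have hμ : 0 ≤ mZ.v x := le_rfl
  exact On.flatWG (On.monoY (fun y hy => (atB00 hy).far) cA_m00 hx (fun _ => rfl)) (by decide) (onA00 hx)
theorem moA01 {x : ℝ} (hx : Rng 1020054732 13421774 x) : On PP tK tL Z0 x (0 : Fin 6) 1
    (MonoQ x (mZ.v x) 1) fun _ => True := by
  have x0 := rng_pos hx (by norm_num)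
  have x1 := rng_lt hx (by norm_num)
  have hμ : 0 ≤ mZ.v x := le_rfl
  exact (On.monoY (fun y hy => (atB01 hy).far) cA_m01 hx (fun _ => rfl)).full 1 (by norm_num) (by norm_num)
theorem onA01 {x : ℝ} (hx : Rng 1020054732 13421774 x) : On PP tK tL Z0 x (0 : Fin 6) 1
    (WallP (((1 : ℕ) : ℝ) / ((1 : ℕ) : ℝ)) x (mZ.v x) 1) fun _ => True := by
  have x0 := rng_pos hx (by norm_num)
  have x1 := rng_lt hx (by norm_num)
  have hμ : 0 ≤ mZ.v x := le_rfl
  have hm := On.monoY (fun y hy => (atB01 hy).far) cA_m01 hx (fun _ => rfl)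
  have bK : En x * ndB0q1.K.v 1 x = (En x + mZ.v x * Qn x) * (1 / 2) := bK_far (corB01 x).2.1
  have g := On.germ1 (fun y hy => (atB01 hy).toAt) cA_g01 hx x0 x1 hμ (corB01 x).1 bK (corB01 x).2.2.1 (hm.sub (by norm_num) (by norm_num)) (((1 : ℕ) : ℝ) / ((1 : ℕ) : ℝ))
  have wa := On.wallY (fun y hy => (atB01 hy).far) cA_w01a hx (fun _ => rfl)
  have wb := On.wallY (fun y hy => (atB01 hy).far) cA_w01b hx (fun _ => rfl)
  have hmt : On PP tK tL Z0 x (0 : Fin 6) 1 (MonoQ x (mZ.v x) 1) (Rng 1015759765 23622320) :=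
    (hm.full 1 (by norm_num) (by norm_num)).imp fun _ _ _ => trivial
  have hf : ∀ y, InQ 1 y → Rng 1015759765 23622320 y →
      tK 0 1 y x = tq 1 y * kan y (dlg.v y x) ∧ tL 0 1 y x = zen y x (dlg.v y x) := by
    intro y hq hr
    have y1 : y < 1 := lt_one_of hq (by norm_num)
    have r1 : ((1015759765 : ℕ) : ℝ) / S ≤ y := hr.1
    have r2 : y ≤ ((1039382085 : ℕ) : ℝ) / S := by
      have := hr.2
      push_cast at this ⊢
      norm_num at this ⊢
      exact this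
    have y0 : 0 < y := rng_pos hr (by norm_num)
    have pa : (107 / 254 : ℝ) < 3 / 4 * y - G y / 2 := psi_gt (w := 615707383) r1 (by norm_num) (by norm_num)
    have pb : 3 / 4 * y - G y / 2 < (181 / 397 : ℝ) := psi_lt (w := 585393169) y0.le r2 (by norm_num) (by norm_num)
    have A := atB01 (x := x) (show OnC (0 : Fin 6) 1 y from ⟨hq, fun _ => h0y_lt y1⟩)
    exact ⟨A.K.symm.trans (clKF1 (by linarith [hq.1]) y1), A.L.symm.trans (clL1 pa pb)⟩
  have t := On.tgF (D := dlg) (q := 1) (by norm_num) cA_tl cA_th hx x0 x1 (by norm_num) hf hmt (((1 : ℕ) : ℝ) / ((1 : ℕ) : ℝ))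
  exact (((wa.join (e := 502511173) t (by norm_num) (by norm_num)).join (e := 527207236) wb (by norm_num) (by norm_num)).join (e := 536870912) g (by norm_num) (by norm_num)).full 1 (by norm_num) (by norm_num)
abbrev hlA : List (ℕ × ℕ) := [(855, 0), (930, 640)]
abbrev blA : List (ℕ × ℕ) := [(893, 1100), (906, 1131), (919, 1158), (938, 1183), (978, 1225), (1073, 1320)]
theorem hiA00 {x : ℝ} (hx : Rng 1020054732 13421774 x) : StpAll (fun t t' a => On PP tK tL Z0 x (0 : Fin 6) 0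
    (fun y X A L C => HighG (kc 26) (((1 : ℕ) : ℝ) / ((1 : ℕ) : ℝ)) x (mZ.v x) 0 y X A L C ((a : ℝ) / 1000) (kc 1038)) fun y =>
      t ≤ h0 * y ∧ h0 * y ≤ t' + kc 10) 1700 800 hlA 1070 :=
  StpAll.cons (On.noLo (by norm_num) (by decide)) (StpAll.cons (On.noLo (by norm_num) (by decide)) (StpAll.nil (On.noLo (by norm_num) (by decide))))
theorem faA00 {x : ℝ} (hx : Rng 1020054732 13421774 x) : StpAll (fun t t' a => On PP tK tL Z0 x (0 : Fin 6) 0
    (fun y X A L C => FarG (kc 26) (((1 : ℕ) : ℝ) / ((1 : ℕ) : ℝ)) x (mZ.v x) 0 y X A L C ((a : ℝ) / 1000) (kc 1038)) fun y =>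
      t ≤ h0 * y ∧ h0 * y ≤ t' + kc 10 ∧ kc 1038 ≤ crv PP (0 : Fin 6) 0 y) 1387 878 blA 1575 :=
  StpAll.cons (On.noLo (by norm_num) (by decide)) (StpAll.cons (On.noLo (by norm_num) (by decide)) (StpAll.cons (On.noLo (by norm_num) (by decide)) (StpAll.cons (On.noLo (by norm_num) (by decide)) (StpAll.cons (On.noLo (by norm_num) (by decide)) (StpAll.cons (On.noLo (by norm_num) (by decide)) (StpAll.nil (On.noLo (by norm_num) (by decide))))))))
theorem neA00 {x : ℝ} (hx : Rng 1020054732 13421774 x) : StpAll (fun t t' a => On PP tK tL Z0 x (0 : Fin 6) 0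
    (fun y X A L C => NearH (kc 26) (((1 : ℕ) : ℝ) / ((1 : ℕ) : ℝ)) x (mZ.v x) 0 y X A L C ((a : ℝ) / 1000)) fun y =>
      t ≤ h0 * y ∧ h0 * y ≤ t' + kc 10 ∧ 0 < crv PP (0 : Fin 6) 0 y ∧ crv PP (0 : Fin 6) 0 y ≤ kc 459) 1387 878 blA 1575 :=
  StpAll.cons (On.noLo (by norm_num) (by decide)) (StpAll.cons (On.noLo (by norm_num) (by decide)) (StpAll.cons (On.noLo (by norm_num) (by decide)) (StpAll.cons (On.noLo (by norm_num) (by decide)) (StpAll.cons (On.noLo (by norm_num) (by decide)) (StpAll.cons (On.noLo (by norm_num) (by decide)) (StpAll.nil (On.noLo (by norm_num) (by decide))))))))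
theorem hiA01 {x : ℝ} (hx : Rng 1020054732 13421774 x) : StpAll (fun t t' a => On PP tK tL Z0 x (0 : Fin 6) 1
    (fun y X A L C => HighG (kc 26) (((1 : ℕ) : ℝ) / ((1 : ℕ) : ℝ)) x (mZ.v x) 1 y X A L C ((a : ℝ) / 1000) (kc 1038)) fun y =>
      t ≤ h0 * y ∧ h0 * y ≤ t' + kc 10) 1700 800 hlA 1070 :=
  StpAll.cons (On.high0G (moA01 hx) (onA01 hx)) (StpAll.cons (On.stHG (fun y hy => (atB01 hy).far) cA_h1_01 hx (fun _ => rfl) (by decide)) (StpAll.nil (On.noLo (by norm_num) (by decide))))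
theorem faA01 {x : ℝ} (hx : Rng 1020054732 13421774 x) : StpAll (fun t t' a => On PP tK tL Z0 x (0 : Fin 6) 1
    (fun y X A L C => FarG (kc 26) (((1 : ℕ) : ℝ) / ((1 : ℕ) : ℝ)) x (mZ.v x) 1 y X A L C ((a : ℝ) / 1000) (kc 1038)) fun y =>
      t ≤ h0 * y ∧ h0 * y ≤ t' + kc 10 ∧ kc 1038 ≤ crv PP (0 : Fin 6) 1 y) 1387 878 blA 1575 :=
  StpAll.cons (On.noLo (by norm_num) (by decide)) (StpAll.cons (On.noLo (by norm_num) (by decide)) (StpAll.cons (On.noLo (by norm_num) (by decide)) (StpAll.cons (On.noLo (by norm_num) (by decide)) (StpAll.cons (On.noLo (by norm_num) (by decide)) (StpAll.cons (On.noLo (by norm_num) (by decide)) (StpAll.nil (On.noLo (by norm_num) (by decide))))))))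
theorem neA01 {x : ℝ} (hx : Rng 1020054732 13421774 x) : StpAll (fun t t' a => On PP tK tL Z0 x (0 : Fin 6) 1
    (fun y X A L C => NearH (kc 26) (((1 : ℕ) : ℝ) / ((1 : ℕ) : ℝ)) x (mZ.v x) 1 y X A L C ((a : ℝ) / 1000)) fun y =>
      t ≤ h0 * y ∧ h0 * y ≤ t' + kc 10 ∧ 0 < crv PP (0 : Fin 6) 1 y ∧ crv PP (0 : Fin 6) 1 y ≤ kc 459) 1387 878 blA 1575 :=
  StpAll.cons (On.noLo (by norm_num) (by decide)) (StpAll.cons (On.noLo (by norm_num) (by decide)) (StpAll.cons (On.noLo (by norm_num) (by decide)) (StpAll.cons (On.noLo (by norm_num) (by decide)) (StpAll.cons (On.noLo (by norm_num) (by decide)) (StpAll.cons (On.noLo (by norm_num) (by decide)) (StpAll.nil (On.noLo (by norm_num) (by decide))))))))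
theorem hiA02 {x : ℝ} (hx : Rng 1020054732 13421774 x) : StpAll (fun t t' a => On PP tK tL Z0 x (0 : Fin 6) 2
    (fun y X A L C => HighG (kc 26) (((1 : ℕ) : ℝ) / ((1 : ℕ) : ℝ)) x (mZ.v x) 2 y X A L C ((a : ℝ) / 1000) (kc 1038)) fun y =>
      t ≤ h0 * y ∧ h0 * y ≤ t' + kc 10) 1700 800 hlA 1070 :=
  StpAll.cons (On.noHiG (by decide)) (StpAll.cons (On.stHcG covB02.far cA_h1_02 hx (fun _ => rfl) (by decide)) (StpAll.nil (On.stHcG covB02.far cA_h2_02 hx (fun _ => rfl) (by decide))))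
theorem faA02 {x : ℝ} (hx : Rng 1020054732 13421774 x) : StpAll (fun t t' a => On PP tK tL Z0 x (0 : Fin 6) 2
    (fun y X A L C => FarG (kc 26) (((1 : ℕ) : ℝ) / ((1 : ℕ) : ℝ)) x (mZ.v x) 2 y X A L C ((a : ℝ) / 1000) (kc 1038)) fun y =>
      t ≤ h0 * y ∧ h0 * y ≤ t' + kc 10 ∧ kc 1038 ≤ crv PP (0 : Fin 6) 2 y) 1387 878 blA 1575 :=
  StpAll.cons (On.stRcG covB02.far cA_r0_02 hx (fun _ => rfl) (by decide) (by decide)) (StpAll.cons (On.stRcG covB02.far cA_r1_02 hx (fun _ => rfl) (by decide) (by decide)) (StpAll.cons (On.stRcG covB02.far cA_r2_02 hx (fun _ => rfl) (by decide) (by decide)) (StpAll.cons (On.stRcG covB02.far cA_r3_02 hx (fun _ => rfl) (by decide) (by decide)) (StpAll.cons (On.stRcG covB02.far cA_r4_02 hx (fun _ => rfl) (by decide) (by decide)) (StpAll.cons (On.stRcG covB02.far cA_r5_02 hx (fun _ => rfl) (by decide) (by decide)) (StpAll.nil (On.stRcG covB02.far cA_r6_02 hx (fun _ => rfl)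 (by decide) (by decide))))))))
theorem neA02 {x : ℝ} (hx : Rng 1020054732 13421774 x) : StpAll (fun t t' a => On PP tK tL Z0 x (0 : Fin 6) 2
    (fun y X A L C => NearH (kc 26) (((1 : ℕ) : ℝ) / ((1 : ℕ) : ℝ)) x (mZ.v x) 2 y X A L C ((a : ℝ) / 1000)) fun y =>
      t ≤ h0 * y ∧ h0 * y ≤ t' + kc 10 ∧ 0 < crv PP (0 : Fin 6) 2 y ∧ crv PP (0 : Fin 6) 2 y ≤ kc 459) 1387 878 blA 1575 :=
  StpAll.cons (On.stE0G covB02.far (fun _ => rfl) cA_n0_02 cA_n0_02z hx (fun _ => rfl)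
    (fun p p0 p1 => ⟨quK p0 p1, quL p0 p1, (mul_zero p).symm⟩) (by decide) (by decide)) (StpAll.cons (On.stE0G covB02.far (fun _ => rfl) cA_n1_02 cA_n1_02z hx (fun _ => rfl)
    (fun p p0 p1 => ⟨quK p0 p1, quL p0 p1, (mul_zero p).symm⟩) (by decide) (by decide)) (StpAll.cons (On.stE0G covB02.far (fun _ => rfl) cA_n2_02 cA_n2_02z hx (fun _ => rfl)
    (fun p p0 p1 => ⟨quK p0 p1, quL p0 p1, (mul_zero p).symm⟩) (by decide) (by decide)) (StpAll.cons (On.stE0G covB02.far (fun _ => rfl) cA_n3_02 cA_n3_02z hx (fun _ => rfl)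
    (fun p p0 p1 => ⟨quK p0 p1, quL p0 p1, (mul_zero p).symm⟩) (by decide) (by decide)) (StpAll.cons (On.stE0G covB02.far (fun _ => rfl) cA_n4_02 cA_n4_02z hx (fun _ => rfl)
    (fun p p0 p1 => ⟨quK p0 p1, quL p0 p1, (mul_zero p).symm⟩) (by decide) (by decide)) (StpAll.cons (On.stE0G covB02.far (fun _ => rfl) cA_n5_02 cA_n5_02z hx (fun _ => rfl)
    (fun p p0 p1 => ⟨quK p0 p1, quL p0 p1, (mul_zero p).symm⟩) (by decide) (by decide)) (StpAll.nil (On.stE0G covB02.far (fun _ => rfl) cA_n6_02 cA_n6_02z hx (fun _ => rfl)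
    (fun p p0 p1 => ⟨quK p0 p1, quL p0 p1, (mul_zero p).symm⟩) (by decide) (by decide))))))))
theorem hiA03 {x : ℝ} (hx : Rng 1020054732 13421774 x) : StpAll (fun t t' a => On PP tK tL Z0 x (0 : Fin 6) 3
    (fun y X A L C => HighG (kc 26) (((1 : ℕ) : ℝ) / ((1 : ℕ) : ℝ)) x (mZ.v x) 3 y X A L C ((a : ℝ) / 1000) (kc 1038)) fun y =>
      t ≤ h0 * y ∧ h0 * y ≤ t' + kc 10) 1700 800 hlA 1070 :=
  StpAll.cons (On.no03) (StpAll.cons (On.no03) (StpAll.nil (On.no03)))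
theorem faA03 {x : ℝ} (hx : Rng 1020054732 13421774 x) : StpAll (fun t t' a => On PP tK tL Z0 x (0 : Fin 6) 3
    (fun y X A L C => FarG (kc 26) (((1 : ℕ) : ℝ) / ((1 : ℕ) : ℝ)) x (mZ.v x) 3 y X A L C ((a : ℝ) / 1000) (kc 1038)) fun y =>
      t ≤ h0 * y ∧ h0 * y ≤ t' + kc 10 ∧ kc 1038 ≤ crv PP (0 : Fin 6) 3 y) 1387 878 blA 1575 :=
  StpAll.cons (On.no03) (StpAll.cons (On.no03) (StpAll.cons (On.no03) (StpAll.cons (On.no03) (StpAll.cons (On.no03) (StpAll.cons (On.no03) (StpAll.nil (On.no03)))))))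
theorem neA03 {x : ℝ} (hx : Rng 1020054732 13421774 x) : StpAll (fun t t' a => On PP tK tL Z0 x (0 : Fin 6) 3
    (fun y X A L C => NearH (kc 26) (((1 : ℕ) : ℝ) / ((1 : ℕ) : ℝ)) x (mZ.v x) 3 y X A L C ((a : ℝ) / 1000)) fun y =>
      t ≤ h0 * y ∧ h0 * y ≤ t' + kc 10 ∧ 0 < crv PP (0 : Fin 6) 3 y ∧ crv PP (0 : Fin 6) 3 y ≤ kc 459) 1387 878 blA 1575 :=
  StpAll.cons (On.no03) (StpAll.cons (On.no03) (StpAll.cons (On.no03) (StpAll.cons (On.no03) (StpAll.cons (On.no03) (StpAll.cons (On.no03) (StpAll.nil (On.no03)))))))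
theorem hiA10 {x : ℝ} (hx : Rng 1020054732 13421774 x) : StpAll (fun t t' a => On PP tK tL Z0 x (1 : Fin 6) 0
    (fun y X A L C => HighG (kc 26) (((1 : ℕ) : ℝ) / ((1 : ℕ) : ℝ)) x (mZ.v x) 0 y X A L C ((a : ℝ) / 1000) (kc 1038)) fun y =>
      t ≤ h0 * y ∧ h0 * y ≤ t' + kc 10) 1700 800 hlA 1070 :=
  StpAll.cons (On.noLo (by norm_num) (by decide)) (StpAll.cons (On.noLo (by norm_num) (by decide)) (StpAll.nil (On.noLo (by norm_num) (by decide))))
theorem faA10 {x : ℝ} (hx : Rng 1020054732 13421774 x) : StpAll (fun t t' a => On PP tK tL Z0 x (1 : Fin 6) 0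
    (fun y X A L C => FarG (kc 26) (((1 : ℕ) : ℝ) / ((1 : ℕ) : ℝ)) x (mZ.v x) 0 y X A L C ((a : ℝ) / 1000) (kc 1038)) fun y =>
      t ≤ h0 * y ∧ h0 * y ≤ t' + kc 10 ∧ kc 1038 ≤ crv PP (1 : Fin 6) 0 y) 1387 878 blA 1575 :=
  StpAll.cons (On.noLo (by norm_num) (by decide)) (StpAll.cons (On.noLo (by norm_num) (by decide)) (StpAll.cons (On.noLo (by norm_num) (by decide)) (StpAll.cons (On.noLo (by norm_num) (by decide)) (StpAll.cons (On.noLo (by norm_num) (by decide)) (StpAll.cons (On.noLo (by norm_num) (by decide)) (StpAll.nil (On.noLo (by norm_num) (by decide))))))))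
theorem neA10 {x : ℝ} (hx : Rng 1020054732 13421774 x) : StpAll (fun t t' a => On PP tK tL Z0 x (1 : Fin 6) 0
    (fun y X A L C => NearH (kc 26) (((1 : ℕ) : ℝ) / ((1 : ℕ) : ℝ)) x (mZ.v x) 0 y X A L C ((a : ℝ) / 1000)) fun y =>
      t ≤ h0 * y ∧ h0 * y ≤ t' + kc 10 ∧ 0 < crv PP (1 : Fin 6) 0 y ∧ crv PP (1 : Fin 6) 0 y ≤ kc 459) 1387 878 blA 1575 :=
  StpAll.cons (On.noLo (by norm_num) (by decide)) (StpAll.cons (On.noLo (by norm_num) (by decide)) (StpAll.cons (On.noLo (by norm_num) (by decide)) (StpAll.cons (On.noLo (by norm_num) (by decide)) (StpAll.cons (On.noLo (by norm_num) (by decide)) (StpAll.cons (On.noLo (by norm_num) (by decide)) (StpAll.nil (On.noLo (by norm_num) (by decide))))))))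
theorem hiA11 {x : ℝ} (hx : Rng 1020054732 13421774 x) : StpAll (fun t t' a => On PP tK tL Z0 x (1 : Fin 6) 1
    (fun y X A L C => HighG (kc 26) (((1 : ℕ) : ℝ) / ((1 : ℕ) : ℝ)) x (mZ.v x) 1 y X A L C ((a : ℝ) / 1000) (kc 1038)) fun y =>
      t ≤ h0 * y ∧ h0 * y ≤ t' + kc 10) 1700 800 hlA 1070 :=
  StpAll.cons (On.stHG (fun y hy => (atB11 hy).far) cA_h0_11 hx (fun _ => rfl) (by decide)) (StpAll.cons (On.stHG (fun y hy => (atB11 hy).far) cA_h1_11 hx (fun _ => rfl) (by decide)) (StpAll.nil (On.noLo (by norm_num) (by decide))))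
theorem faA11 {x : ℝ} (hx : Rng 1020054732 13421774 x) : StpAll (fun t t' a => On PP tK tL Z0 x (1 : Fin 6) 1
    (fun y X A L C => FarG (kc 26) (((1 : ℕ) : ℝ) / ((1 : ℕ) : ℝ)) x (mZ.v x) 1 y X A L C ((a : ℝ) / 1000) (kc 1038)) fun y =>
      t ≤ h0 * y ∧ h0 * y ≤ t' + kc 10 ∧ kc 1038 ≤ crv PP (1 : Fin 6) 1 y) 1387 878 blA 1575 :=
  StpAll.cons (On.noLo (by norm_num) (by decide)) (StpAll.cons (On.noLo (by norm_num) (by decide)) (StpAll.cons (On.noLo (by norm_num) (by decide)) (StpAll.cons (On.noLo (by norm_num) (by decide)) (StpAll.cons (On.noLo (by norm_num) (by decide)) (StpAll.cons (On.noLo (by norm_num) (by decide)) (StpAll.nil (On.noLo (by norm_num) (by decide))))))))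
theorem neA11 {x : ℝ} (hx : Rng 1020054732 13421774 x) : StpAll (fun t t' a => On PP tK tL Z0 x (1 : Fin 6) 1
    (fun y X A L C => NearH (kc 26) (((1 : ℕ) : ℝ) / ((1 : ℕ) : ℝ)) x (mZ.v x) 1 y X A L C ((a : ℝ) / 1000)) fun y =>
      t ≤ h0 * y ∧ h0 * y ≤ t' + kc 10 ∧ 0 < crv PP (1 : Fin 6) 1 y ∧ crv PP (1 : Fin 6) 1 y ≤ kc 459) 1387 878 blA 1575 :=
  StpAll.cons (On.noLo (by norm_num) (by decide)) (StpAll.cons (On.noLo (by norm_num) (by decide)) (StpAll.cons (On.noLo (by norm_num) (by decide)) (StpAll.cons (On.noLo (by norm_num) (by decide)) (StpAll.cons (On.noLo (by norm_num) (by decide)) (StpAll.cons (On.noLo (by norm_num) (by decide)) (StpAll.nil (On.noLo (by norm_num) (by decide))))))))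
theorem hiA12 {x : ℝ} (hx : Rng 1020054732 13421774 x) : StpAll (fun t t' a => On PP tK tL Z0 x (1 : Fin 6) 2
    (fun y X A L C => HighG (kc 26) (((1 : ℕ) : ℝ) / ((1 : ℕ) : ℝ)) x (mZ.v x) 2 y X A L C ((a : ℝ) / 1000) (kc 1038)) fun y =>
      t ≤ h0 * y ∧ h0 * y ≤ t' + kc 10) 1700 800 hlA 1070 :=
  StpAll.cons (On.noHiG (by decide)) (StpAll.cons (On.stHG (fun y hy => (atB12 hy).far) cA_h1_12 hx (fun _ => rfl) (by decide)) (StpAll.nil (On.stHG (fun y hy => (atB12 hy).far) cA_h2_12 hx (fun _ => rfl) (by decide))))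
theorem faA12 {x : ℝ} (hx : Rng 1020054732 13421774 x) : StpAll (fun t t' a => On PP tK tL Z0 x (1 : Fin 6) 2
    (fun y X A L C => FarG (kc 26) (((1 : ℕ) : ℝ) / ((1 : ℕ) : ℝ)) x (mZ.v x) 2 y X A L C ((a : ℝ) / 1000) (kc 1038)) fun y =>
      t ≤ h0 * y ∧ h0 * y ≤ t' + kc 10 ∧ kc 1038 ≤ crv PP (1 : Fin 6) 2 y) 1387 878 blA 1575 :=
  StpAll.cons (On.stRG (fun y hy => (atB12 hy).far) cA_r0_12 hx (fun _ => rfl) (by decide) (by decide)) (StpAll.cons (On.stRG (fun y hy => (atB12 hy).far) cA_r1_12 hx (fun _ => rfl) (by decide) (by decide)) (StpAll.cons (On.stRG (fun y hy => (atB12 hy).far) cA_r2_12 hx (fun _ => rfl) (by decide) (by decide)) (StpAll.cons (On.stRG (fun y hy => (atB12 hy).far) cA_r3_12 hx (fun _ => rfl) (by decide) (by decide)) (StpAll.cons (On.stRG (fun y hy => (atB12 hy).far) cA_r4_12 hx (fun _ => rfl) (by decide) (by decide)) (StpAll.cons (On.stRG (fun y hy => (atB12 hy).far) cA_r5_12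 hx (fun _ => rfl) (by decide) (by decide)) (StpAll.nil (On.stRG (fun y hy => (atB12 hy).far) cA_r6_12 hx (fun _ => rfl) (by decide) (by decide))))))))
theorem neA12 {x : ℝ} (hx : Rng 1020054732 13421774 x) : StpAll (fun t t' a => On PP tK tL Z0 x (1 : Fin 6) 2
    (fun y X A L C => NearH (kc 26) (((1 : ℕ) : ℝ) / ((1 : ℕ) : ℝ)) x (mZ.v x) 2 y X A L C ((a : ℝ) / 1000)) fun y =>
      t ≤ h0 * y ∧ h0 * y ≤ t' + kc 10 ∧ 0 < crv PP (1 : Fin 6) 2 y ∧ crv PP (1 : Fin 6) 2 y ≤ kc 459) 1387 878 blA 1575 :=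
  StpAll.cons (On.stEG (fun y hy => (atB12 hy).far) cA_n0_12 hx (fun _ => rfl) (by decide) (by decide)) (StpAll.cons (On.stEG (fun y hy => (atB12 hy).far) cA_n1_12 hx (fun _ => rfl) (by decide) (by decide)) (StpAll.cons (On.stEG (fun y hy => (atB12 hy).far) cA_n2_12 hx (fun _ => rfl) (by decide) (by decide)) (StpAll.cons (On.stEG (fun y hy => (atB12 hy).far) cA_n3_12 hx (fun _ => rfl) (by decide) (by decide)) (StpAll.cons (On.stEG (fun y hy => (atB12 hy).far) cA_n4_12 hx (fun _ => rfl) (by decide) (by decide)) (StpAll.cons (On.stEG (fun y hy => (atB12 hy).far) cA_n5_12 hx (fun _ => rfl) (by decide) (by decide)) (StpAll.nil (On.stEG (fun y hy => (atB12 hy).far) cA_n6_12 hx (fun _ => rfl) (by decide) (by decide))))))))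
theorem hiA13 {x : ℝ} (hx : Rng 1020054732 13421774 x) : StpAll (fun t t' a => On PP tK tL Z0 x (1 : Fin 6) 3
    (fun y X A L C => HighG (kc 26) (((1 : ℕ) : ℝ) / ((1 : ℕ) : ℝ)) x (mZ.v x) 3 y X A L C ((a : ℝ) / 1000) (kc 1038)) fun y =>
      t ≤ h0 * y ∧ h0 * y ≤ t' + kc 10) 1700 800 hlA 1070 :=
  StpAll.cons (On.noHiG (by decide)) (StpAll.cons (On.noHiG (by decide)) (StpAll.nil (On.stHG (fun y hy => (atB13 hy).far) cA_h2_13 hx (fun _ => rfl) (by decide))))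
theorem faA13 {x : ℝ} (hx : Rng 1020054732 13421774 x) : StpAll (fun t t' a => On PP tK tL Z0 x (1 : Fin 6) 3
    (fun y X A L C => FarG (kc 26) (((1 : ℕ) : ℝ) / ((1 : ℕ) : ℝ)) x (mZ.v x) 3 y X A L C ((a : ℝ) / 1000) (kc 1038)) fun y =>
      t ≤ h0 * y ∧ h0 * y ≤ t' + kc 10 ∧ kc 1038 ≤ crv PP (1 : Fin 6) 3 y) 1387 878 blA 1575 :=
  StpAll.cons (On.noHiG' (by decide)) (StpAll.cons (On.noHiG' (by decide)) (StpAll.cons (On.noHiG' (by decide)) (StpAll.cons (On.noHiG' (by decide)) (StpAll.cons (On.noHiG' (by decide)) (StpAll.cons (On.noHiG' (by decide)) (StpAll.nil (On.stRG (fun y hy => (atB13 hy).far) cA_r6_13 hx (fun _ => rfl) (by decide) (by decide))))))))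
theorem neA13 {x : ℝ} (hx : Rng 1020054732 13421774 x) : StpAll (fun t t' a => On PP tK tL Z0 x (1 : Fin 6) 3
    (fun y X A L C => NearH (kc 26) (((1 : ℕ) : ℝ) / ((1 : ℕ) : ℝ)) x (mZ.v x) 3 y X A L C ((a : ℝ) / 1000)) fun y =>
      t ≤ h0 * y ∧ h0 * y ≤ t' + kc 10 ∧ 0 < crv PP (1 : Fin 6) 3 y ∧ crv PP (1 : Fin 6) 3 y ≤ kc 459) 1387 878 blA 1575 :=
  StpAll.cons (On.noHiG' (by decide)) (StpAll.cons (On.noHiG' (by decide)) (StpAll.cons (On.noHiG' (by decide)) (StpAll.cons (On.noHiG' (by decide)) (StpAll.cons (On.noHiG' (by decide)) (StpAll.cons (On.noHiG' (by decide)) (StpAll.nil ((On.stNG (fun y hy => (atB13 hy).far) cA_n6_13 hx (fun _ => rfl) (by decide) (by decide)).toH)))))))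
theorem hiA20 {x : ℝ} (hx : Rng 1020054732 13421774 x) : StpAll (fun t t' a => On PP tK tL Z0 x (2 : Fin 6) 0
    (fun y X A L C => HighG (kc 26) (((1 : ℕ) : ℝ) / ((1 : ℕ) : ℝ)) x (mZ.v x) 0 y X A L C ((a : ℝ) / 1000) (kc 1038)) fun y =>
      t ≤ h0 * y ∧ h0 * y ≤ t' + kc 10) 1700 800 hlA 1070 :=
  StpAll.cons (On.noLo (by norm_num) (by decide)) (StpAll.cons (On.noLo (by norm_num) (by decide)) (StpAll.nil (On.noLo (by norm_num) (by decide))))
theorem faA20 {x : ℝ} (hx : Rng 1020054732 13421774 x) : StpAll (fun t t' a => On PP tK tL Z0 x (2 : Fin 6) 0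
    (fun y X A L C => FarG (kc 26) (((1 : ℕ) : ℝ) / ((1 : ℕ) : ℝ)) x (mZ.v x) 0 y X A L C ((a : ℝ) / 1000) (kc 1038)) fun y =>
      t ≤ h0 * y ∧ h0 * y ≤ t' + kc 10 ∧ kc 1038 ≤ crv PP (2 : Fin 6) 0 y) 1387 878 blA 1575 :=
  StpAll.cons (On.noLo (by norm_num) (by decide)) (StpAll.cons (On.noLo (by norm_num) (by decide)) (StpAll.cons (On.noLo (by norm_num) (by decide)) (StpAll.cons (On.noLo (by norm_num) (by decide)) (StpAll.cons (On.noLo (by norm_num) (by decide)) (StpAll.cons (On.noLo (by norm_num) (by decide)) (StpAll.nil (On.noLo (by norm_num) (by decide))))))))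
theorem neA20 {x : ℝ} (hx : Rng 1020054732 13421774 x) : StpAll (fun t t' a => On PP tK tL Z0 x (2 : Fin 6) 0
    (fun y X A L C => NearH (kc 26) (((1 : ℕ) : ℝ) / ((1 : ℕ) : ℝ)) x (mZ.v x) 0 y X A L C ((a : ℝ) / 1000)) fun y =>
      t ≤ h0 * y ∧ h0 * y ≤ t' + kc 10 ∧ 0 < crv PP (2 : Fin 6) 0 y ∧ crv PP (2 : Fin 6) 0 y ≤ kc 459) 1387 878 blA 1575 :=
  StpAll.cons (On.noLo (by norm_num) (by decide)) (StpAll.cons (On.noLo (by norm_num) (by decide)) (StpAll.cons (On.noLo (by norm_num) (by decide)) (StpAll.cons (On.noLo (by norm_num) (by decide)) (StpAll.cons (On.noLo (by norm_num) (by decide)) (StpAll.cons (On.noLo (by norm_num) (by decide)) (StpAll.nil (On.noLo (by norm_num) (by decide))))))))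
theorem hiA21 {x : ℝ} (hx : Rng 1020054732 13421774 x) : StpAll (fun t t' a => On PP tK tL Z0 x (2 : Fin 6) 1
    (fun y X A L C => HighG (kc 26) (((1 : ℕ) : ℝ) / ((1 : ℕ) : ℝ)) x (mZ.v x) 1 y X A L C ((a : ℝ) / 1000) (kc 1038)) fun y =>
      t ≤ h0 * y ∧ h0 * y ≤ t' + kc 10) 1700 800 hlA 1070 :=
  StpAll.cons (On.stHG (fun y hy => (atB21 hy).far) cA_h0_21 hx (fun _ => rfl) (by decide)) (StpAll.cons (On.stHG (fun y hy => (atB21 hy).far) cA_h1_21 hx (fun _ => rfl) (by decide)) (StpAll.nil (On.noLo (by norm_num) (by decide))))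
theorem faA21 {x : ℝ} (hx : Rng 1020054732 13421774 x) : StpAll (fun t t' a => On PP tK tL Z0 x (2 : Fin 6) 1
    (fun y X A L C => FarG (kc 26) (((1 : ℕ) : ℝ) / ((1 : ℕ) : ℝ)) x (mZ.v x) 1 y X A L C ((a : ℝ) / 1000) (kc 1038)) fun y =>
      t ≤ h0 * y ∧ h0 * y ≤ t' + kc 10 ∧ kc 1038 ≤ crv PP (2 : Fin 6) 1 y) 1387 878 blA 1575 :=
  StpAll.cons (On.noLo (by norm_num) (by decide)) (StpAll.cons (On.noLo (by norm_num) (by decide)) (StpAll.cons (On.noLo (by norm_num) (by decide)) (StpAll.cons (On.noLo (by norm_num) (by decide)) (StpAll.cons (On.noLo (by norm_num) (by decide)) (StpAll.cons (On.noLo (by norm_num) (by decide)) (StpAll.nil (On.noLo (by norm_num) (by decide))))))))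
theorem neA21 {x : ℝ} (hx : Rng 1020054732 13421774 x) : StpAll (fun t t' a => On PP tK tL Z0 x (2 : Fin 6) 1
    (fun y X A L C => NearH (kc 26) (((1 : ℕ) : ℝ) / ((1 : ℕ) : ℝ)) x (mZ.v x) 1 y X A L C ((a : ℝ) / 1000)) fun y =>
      t ≤ h0 * y ∧ h0 * y ≤ t' + kc 10 ∧ 0 < crv PP (2 : Fin 6) 1 y ∧ crv PP (2 : Fin 6) 1 y ≤ kc 459) 1387 878 blA 1575 :=
  StpAll.cons (On.noLo (by norm_num) (by decide)) (StpAll.cons (On.noLo (by norm_num) (by decide)) (StpAll.cons (On.noLo (by norm_num) (by decide)) (StpAll.cons (On.noLo (by norm_num) (by decide)) (StpAll.cons (On.noLo (by norm_num) (by decide)) (StpAll.cons (On.noLo (by norm_num) (by decide)) (StpAll.nil (On.noLo (by norm_num) (by decide))))))))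
theorem hiA22 {x : ℝ} (hx : Rng 1020054732 13421774 x) : StpAll (fun t t' a => On PP tK tL Z0 x (2 : Fin 6) 2
    (fun y X A L C => HighG (kc 26) (((1 : ℕ) : ℝ) / ((1 : ℕ) : ℝ)) x (mZ.v x) 2 y X A L C ((a : ℝ) / 1000) (kc 1038)) fun y =>
      t ≤ h0 * y ∧ h0 * y ≤ t' + kc 10) 1700 800 hlA 1070 :=
  StpAll.cons (On.noHiG (by decide)) (StpAll.cons (On.stHG (fun y hy => (atB22 hy).far) cA_h1_22 hx (fun _ => rfl) (by decide)) (StpAll.nil (On.stHG (fun y hy => (atB22 hy).far) cA_h2_22 hx (fun _ => rfl) (by decide))))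
theorem faA22 {x : ℝ} (hx : Rng 1020054732 13421774 x) : StpAll (fun t t' a => On PP tK tL Z0 x (2 : Fin 6) 2
    (fun y X A L C => FarG (kc 26) (((1 : ℕ) : ℝ) / ((1 : ℕ) : ℝ)) x (mZ.v x) 2 y X A L C ((a : ℝ) / 1000) (kc 1038)) fun y =>
      t ≤ h0 * y ∧ h0 * y ≤ t' + kc 10 ∧ kc 1038 ≤ crv PP (2 : Fin 6) 2 y) 1387 878 blA 1575 :=
  StpAll.cons (On.stRG (fun y hy => (atB22 hy).far) cA_r0_22 hx (fun _ => rfl) (by decide) (by decide)) (StpAll.cons (On.stRG (fun y hy => (atB22 hy).far) cA_r1_22 hx (fun _ => rfl) (by decide) (by decide)) (StpAll.cons (On.stRG (fun y hy => (atB22 hy).far) cA_r2_22 hx (fun _ => rfl) (by decide) (by decide)) (StpAll.cons (On.stRG (fun y hy => (atB22 hy).far) cA_r3_22 hx (fun _ => rfl) (by decide) (by decide)) (StpAll.cons (On.stRG (fun y hy => (atB22 hy).far) cA_r4_22 hx (fun _ => rfl) (by decide) (by decide)) (StpAll.cons (On.stRG (fun y hy => (atB22 hy).far) cA_r5_22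 hx (fun _ => rfl) (by decide) (by decide)) (StpAll.nil (On.stRG (fun y hy => (atB22 hy).far) cA_r6_22 hx (fun _ => rfl) (by decide) (by decide))))))))
theorem neA22 {x : ℝ} (hx : Rng 1020054732 13421774 x) : StpAll (fun t t' a => On PP tK tL Z0 x (2 : Fin 6) 2
    (fun y X A L C => NearH (kc 26) (((1 : ℕ) : ℝ) / ((1 : ℕ) : ℝ)) x (mZ.v x) 2 y X A L C ((a : ℝ) / 1000)) fun y =>
      t ≤ h0 * y ∧ h0 * y ≤ t' + kc 10 ∧ 0 < crv PP (2 : Fin 6) 2 y ∧ crv PP (2 : Fin 6) 2 y ≤ kc 459) 1387 878 blA 1575 :=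
  StpAll.cons (On.stEG (fun y hy => (atB22 hy).far) cA_n0_22 hx (fun _ => rfl) (by decide) (by decide)) (StpAll.cons (On.stEG (fun y hy => (atB22 hy).far) cA_n1_22 hx (fun _ => rfl) (by decide) (by decide)) (StpAll.cons (On.stEG (fun y hy => (atB22 hy).far) cA_n2_22 hx (fun _ => rfl) (by decide) (by decide)) (StpAll.cons (On.stEG (fun y hy => (atB22 hy).far) cA_n3_22 hx (fun _ => rfl) (by decide) (by decide)) (StpAll.cons (On.stEG (fun y hy => (atB22 hy).far) cA_n4_22 hx (fun _ => rfl) (by decide) (by decide)) (StpAll.cons (On.stEG (fun y hy => (atB22 hy).far) cA_n5_22 hx (fun _ => rfl) (by decide) (by decide)) (StpAll.nil (On.stEG (fun y hy => (atB22 hy).far) cA_n6_22 hx (fun _ => rfl) (by decide) (by decide))))))))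
theorem hiA23 {x : ℝ} (hx : Rng 1020054732 13421774 x) : StpAll (fun t t' a => On PP tK tL Z0 x (2 : Fin 6) 3
    (fun y X A L C => HighG (kc 26) (((1 : ℕ) : ℝ) / ((1 : ℕ) : ℝ)) x (mZ.v x) 3 y X A L C ((a : ℝ) / 1000) (kc 1038)) fun y =>
      t ≤ h0 * y ∧ h0 * y ≤ t' + kc 10) 1700 800 hlA 1070 :=
  StpAll.cons (On.noHiG (by decide)) (StpAll.cons (On.noHiG (by decide)) (StpAll.nil (On.stHG (fun y hy => (atB23 hy).far) cA_h2_23 hx (fun _ => rfl) (by decide))))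
theorem faA23 {x : ℝ} (hx : Rng 1020054732 13421774 x) : StpAll (fun t t' a => On PP tK tL Z0 x (2 : Fin 6) 3
    (fun y X A L C => FarG (kc 26) (((1 : ℕ) : ℝ) / ((1 : ℕ) : ℝ)) x (mZ.v x) 3 y X A L C ((a : ℝ) / 1000) (kc 1038)) fun y =>
      t ≤ h0 * y ∧ h0 * y ≤ t' + kc 10 ∧ kc 1038 ≤ crv PP (2 : Fin 6) 3 y) 1387 878 blA 1575 :=
  StpAll.cons (On.noHiG' (by decide)) (StpAll.cons (On.noHiG' (by decide)) (StpAll.cons (On.noHiG' (by decide)) (StpAll.cons (On.noHiG' (by decide)) (StpAll.cons (On.noHiG' (by decide)) (StpAll.cons (On.noHiG' (by decide)) (StpAll.nil (On.stRG (fun y hy => (atB23 hy).far) cA_r6_23 hx (fun _ => rfl) (by decide) (by decide))))))))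
theorem neA23 {x : ℝ} (hx : Rng 1020054732 13421774 x) : StpAll (fun t t' a => On PP tK tL Z0 x (2 : Fin 6) 3
    (fun y X A L C => NearH (kc 26) (((1 : ℕ) : ℝ) / ((1 : ℕ) : ℝ)) x (mZ.v x) 3 y X A L C ((a : ℝ) / 1000)) fun y =>
      t ≤ h0 * y ∧ h0 * y ≤ t' + kc 10 ∧ 0 < crv PP (2 : Fin 6) 3 y ∧ crv PP (2 : Fin 6) 3 y ≤ kc 459) 1387 878 blA 1575 :=
  StpAll.cons (On.noHiG' (by decide)) (StpAll.cons (On.noHiG' (by decide)) (StpAll.cons (On.noHiG' (by decide)) (StpAll.cons (On.noHiG' (by decide)) (StpAll.cons (On.noHiG' (by decide)) (StpAll.cons (On.noHiG' (by decide)) (StpAll.nil ((On.stNG (fun y hy => (atB23 hy).far) cA_n6_23 hx (fun _ => rfl) (by decide) (by decide)).toH)))))))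
theorem hiA30 {x : ℝ} (hx : Rng 1020054732 13421774 x) : StpAll (fun t t' a => On PP tK tL Z0 x (3 : Fin 6) 0
    (fun y X A L C => HighG (kc 26) (((1 : ℕ) : ℝ) / ((1 : ℕ) : ℝ)) x (mZ.v x) 0 y X A L C ((a : ℝ) / 1000) (kc 1038)) fun y =>
      t ≤ h0 * y ∧ h0 * y ≤ t' + kc 10) 1700 800 hlA 1070 :=
  StpAll.cons (On.noLo (by norm_num) (by decide)) (StpAll.cons (On.noLo (by norm_num) (by decide)) (StpAll.nil (On.noLo (by norm_num) (by decide))))
theorem faA30 {x : ℝ} (hx : Rng 1020054732 13421774 x) : StpAll (fun t t' a => On PP tK tL Z0 x (3 : Fin 6) 0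
    (fun y X A L C => FarG (kc 26) (((1 : ℕ) : ℝ) / ((1 : ℕ) : ℝ)) x (mZ.v x) 0 y X A L C ((a : ℝ) / 1000) (kc 1038)) fun y =>
      t ≤ h0 * y ∧ h0 * y ≤ t' + kc 10 ∧ kc 1038 ≤ crv PP (3 : Fin 6) 0 y) 1387 878 blA 1575 :=
  StpAll.cons (On.noLo (by norm_num) (by decide)) (StpAll.cons (On.noLo (by norm_num) (by decide)) (StpAll.cons (On.noLo (by norm_num) (by decide)) (StpAll.cons (On.noLo (by norm_num) (by decide)) (StpAll.cons (On.noLo (by norm_num) (by decide)) (StpAll.cons (On.noLo (by norm_num) (by decide)) (StpAll.nil (On.noLo (by norm_num) (by decide))))))))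
theorem neA30 {x : ℝ} (hx : Rng 1020054732 13421774 x) : StpAll (fun t t' a => On PP tK tL Z0 x (3 : Fin 6) 0
    (fun y X A L C => NearH (kc 26) (((1 : ℕ) : ℝ) / ((1 : ℕ) : ℝ)) x (mZ.v x) 0 y X A L C ((a : ℝ) / 1000)) fun y =>
      t ≤ h0 * y ∧ h0 * y ≤ t' + kc 10 ∧ 0 < crv PP (3 : Fin 6) 0 y ∧ crv PP (3 : Fin 6) 0 y ≤ kc 459) 1387 878 blA 1575 :=
  StpAll.cons (On.noLo (by norm_num) (by decide)) (StpAll.cons (On.noLo (by norm_num) (by decide)) (StpAll.cons (On.noLo (by norm_num) (by decide)) (StpAll.cons (On.noLo (by norm_num) (by decide)) (StpAll.cons (On.noLo (by norm_num) (by decide)) (StpAll.cons (On.noLo (by norm_num) (by decide)) (StpAll.nil (On.noLo (by norm_num) (by decide))))))))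
theorem hiA31 {x : ℝ} (hx : Rng 1020054732 13421774 x) : StpAll (fun t t' a => On PP tK tL Z0 x (3 : Fin 6) 1
    (fun y X A L C => HighG (kc 26) (((1 : ℕ) : ℝ) / ((1 : ℕ) : ℝ)) x (mZ.v x) 1 y X A L C ((a : ℝ) / 1000) (kc 1038)) fun y =>
      t ≤ h0 * y ∧ h0 * y ≤ t' + kc 10) 1700 800 hlA 1070 :=
  StpAll.cons (On.stHG (fun y hy => (atB31 hy).far) cA_h0_31 hx (fun _ => rfl) (by decide)) (StpAll.cons (On.stHG (fun y hy => (atB31 hy).far) cA_h1_31 hx (fun _ => rfl) (by decide)) (StpAll.nil (On.noLo (by norm_num) (by decide))))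
theorem faA31 {x : ℝ} (hx : Rng 1020054732 13421774 x) : StpAll (fun t t' a => On PP tK tL Z0 x (3 : Fin 6) 1
    (fun y X A L C => FarG (kc 26) (((1 : ℕ) : ℝ) / ((1 : ℕ) : ℝ)) x (mZ.v x) 1 y X A L C ((a : ℝ) / 1000) (kc 1038)) fun y =>
      t ≤ h0 * y ∧ h0 * y ≤ t' + kc 10 ∧ kc 1038 ≤ crv PP (3 : Fin 6) 1 y) 1387 878 blA 1575 :=
  StpAll.cons (On.noLo (by norm_num) (by decide)) (StpAll.cons (On.noLo (by norm_num) (by decide)) (StpAll.cons (On.noLo (by norm_num) (by decide)) (StpAll.cons (On.noLo (by norm_num) (by decide)) (StpAll.cons (On.noLo (by norm_num) (by decide)) (StpAll.cons (On.noLo (by norm_num) (by decide)) (StpAll.nil (On.noLo (by norm_num) (by decide))))))))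
theorem neA31 {x : ℝ} (hx : Rng 1020054732 13421774 x) : StpAll (fun t t' a => On PP tK tL Z0 x (3 : Fin 6) 1
    (fun y X A L C => NearH (kc 26) (((1 : ℕ) : ℝ) / ((1 : ℕ) : ℝ)) x (mZ.v x) 1 y X A L C ((a : ℝ) / 1000)) fun y =>
      t ≤ h0 * y ∧ h0 * y ≤ t' + kc 10 ∧ 0 < crv PP (3 : Fin 6) 1 y ∧ crv PP (3 : Fin 6) 1 y ≤ kc 459) 1387 878 blA 1575 :=
  StpAll.cons (On.noLo (by norm_num) (by decide)) (StpAll.cons (On.noLo (by norm_num) (by decide)) (StpAll.cons (On.noLo (by norm_num) (by decide)) (StpAll.cons (On.noLo (by norm_num) (by decide)) (StpAll.cons (On.noLo (by norm_num) (by decide)) (StpAll.cons (On.noLo (by norm_num) (by decide)) (StpAll.nil (On.noLo (by norm_num) (by decide))))))))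
theorem hiA32 {x : ℝ} (hx : Rng 1020054732 13421774 x) : StpAll (fun t t' a => On PP tK tL Z0 x (3 : Fin 6) 2
    (fun y X A L C => HighG (kc 26) (((1 : ℕ) : ℝ) / ((1 : ℕ) : ℝ)) x (mZ.v x) 2 y X A L C ((a : ℝ) / 1000) (kc 1038)) fun y =>
      t ≤ h0 * y ∧ h0 * y ≤ t' + kc 10) 1700 800 hlA 1070 :=
  StpAll.cons (On.noHiG (by decide)) (StpAll.cons (On.stHG (fun y hy => (atB32 hy).far) cA_h1_32 hx (fun _ => rfl) (by decide)) (StpAll.nil (On.stHG (fun y hy => (atB32 hy).far) cA_h2_32 hx (fun _ => rfl) (by decide))))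
theorem faA32 {x : ℝ} (hx : Rng 1020054732 13421774 x) : StpAll (fun t t' a => On PP tK tL Z0 x (3 : Fin 6) 2
    (fun y X A L C => FarG (kc 26) (((1 : ℕ) : ℝ) / ((1 : ℕ) : ℝ)) x (mZ.v x) 2 y X A L C ((a : ℝ) / 1000) (kc 1038)) fun y =>
      t ≤ h0 * y ∧ h0 * y ≤ t' + kc 10 ∧ kc 1038 ≤ crv PP (3 : Fin 6) 2 y) 1387 878 blA 1575 :=
  StpAll.cons (On.stRG (fun y hy => (atB32 hy).far) cA_r0_32 hx (fun _ => rfl) (by decide) (by decide)) (StpAll.cons (On.stRG (fun y hy => (atB32 hy).far) cA_r1_32 hx (fun _ => rfl) (by decide) (by decide)) (StpAll.cons (On.stRG (fun y hy => (atB32 hy).far) cA_r2_32 hx (fun _ => rfl) (by decide) (by decide)) (StpAll.cons (On.stRG (fun y hy => (atB32 hy).far) cA_r3_32 hx (fun _ => rfl) (by decide) (by decide)) (StpAll.cons (On.stRG (fun y hy => (atB32 hy).far) cA_r4_32 hx (fun _ => rfl) (by decide) (by decide)) (StpAll.cons (On.stRG (fun y hy => (atB32 hy).far) cA_r5_32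 hx (fun _ => rfl) (by decide) (by decide)) (StpAll.nil (On.stRG (fun y hy => (atB32 hy).far) cA_r6_32 hx (fun _ => rfl) (by decide) (by decide))))))))
theorem neA32 {x : ℝ} (hx : Rng 1020054732 13421774 x) : StpAll (fun t t' a => On PP tK tL Z0 x (3 : Fin 6) 2
    (fun y X A L C => NearH (kc 26) (((1 : ℕ) : ℝ) / ((1 : ℕ) : ℝ)) x (mZ.v x) 2 y X A L C ((a : ℝ) / 1000)) fun y =>
      t ≤ h0 * y ∧ h0 * y ≤ t' + kc 10 ∧ 0 < crv PP (3 : Fin 6) 2 y ∧ crv PP (3 : Fin 6) 2 y ≤ kc 459) 1387 878 blA 1575 :=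
  StpAll.cons (On.stEG (fun y hy => (atB32 hy).far) cA_n0_32 hx (fun _ => rfl) (by decide) (by decide)) (StpAll.cons (On.stEG (fun y hy => (atB32 hy).far) cA_n1_32 hx (fun _ => rfl) (by decide) (by decide)) (StpAll.cons (On.stEG (fun y hy => (atB32 hy).far) cA_n2_32 hx (fun _ => rfl) (by decide) (by decide)) (StpAll.cons (On.stEG (fun y hy => (atB32 hy).far) cA_n3_32 hx (fun _ => rfl) (by decide) (by decide)) (StpAll.cons (On.stEG (fun y hy => (atB32 hy).far) cA_n4_32 hx (fun _ => rfl) (by decide) (by decide)) (StpAll.cons (On.stEG (fun y hy => (atB32 hy).far) cA_n5_32 hx (fun _ => rfl) (by decide) (by decide)) (StpAll.nil (On.stEG (fun y hy => (atB32 hy).far) cA_n6_32 hx (fun _ => rfl) (by decide) (by decide))))))))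
theorem hiA33 {x : ℝ} (hx : Rng 1020054732 13421774 x) : StpAll (fun t t' a => On PP tK tL Z0 x (3 : Fin 6) 3
    (fun y X A L C => HighG (kc 26) (((1 : ℕ) : ℝ) / ((1 : ℕ) : ℝ)) x (mZ.v x) 3 y X A L C ((a : ℝ) / 1000) (kc 1038)) fun y =>
      t ≤ h0 * y ∧ h0 * y ≤ t' + kc 10) 1700 800 hlA 1070 :=
  StpAll.cons (On.noHiG (by decide)) (StpAll.cons (On.noHiG (by decide)) (StpAll.nil (On.stHcG covB33.far cA_h2_33 hx (fun _ => rfl) (by decide))))
theorem faA33 {x : ℝ} (hx : Rng 1020054732 13421774 x) : StpAll (fun t t' a => On PP tK tL Z0 x (3 : Fin 6) 3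
    (fun y X A L C => FarG (kc 26) (((1 : ℕ) : ℝ) / ((1 : ℕ) : ℝ)) x (mZ.v x) 3 y X A L C ((a : ℝ) / 1000) (kc 1038)) fun y =>
      t ≤ h0 * y ∧ h0 * y ≤ t' + kc 10 ∧ kc 1038 ≤ crv PP (3 : Fin 6) 3 y) 1387 878 blA 1575 :=
  StpAll.cons (On.noHiG' (by decide)) (StpAll.cons (On.noHiG' (by decide)) (StpAll.cons (On.noHiG' (by decide)) (StpAll.cons (On.noHiG' (by decide)) (StpAll.cons (On.noHiG' (by decide)) (StpAll.cons (On.noHiG' (by decide)) (StpAll.nil (On.stRcG covB33.far cA_r6_33 hx (fun _ => rfl) (by decide) (by decide))))))))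
theorem neA33 {x : ℝ} (hx : Rng 1020054732 13421774 x) : StpAll (fun t t' a => On PP tK tL Z0 x (3 : Fin 6) 3
    (fun y X A L C => NearH (kc 26) (((1 : ℕ) : ℝ) / ((1 : ℕ) : ℝ)) x (mZ.v x) 3 y X A L C ((a : ℝ) / 1000)) fun y =>
      t ≤ h0 * y ∧ h0 * y ≤ t' + kc 10 ∧ 0 < crv PP (3 : Fin 6) 3 y ∧ crv PP (3 : Fin 6) 3 y ≤ kc 459) 1387 878 blA 1575 :=
  StpAll.cons (On.noHiG' (by decide)) (StpAll.cons (On.noHiG' (by decide)) (StpAll.cons (On.noHiG' (by decide)) (StpAll.cons (On.noHiG' (by decide)) (StpAll.cons (On.noHiG' (by decide)) (StpAll.cons (On.noHiG' (by decide)) (StpAll.nil ((On.stNcG covB33.far cA_n6_33 hx (fun _ => rfl) (by decide) (by decide)).toH)))))))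
theorem hiA40 {x : ℝ} (hx : Rng 1020054732 13421774 x) : StpAll (fun t t' a => On PP tK tL Z0 x (4 : Fin 6) 0
    (fun y X A L C => HighG (kc 26) (((1 : ℕ) : ℝ) / ((1 : ℕ) : ℝ)) x (mZ.v x) 0 y X A L C ((a : ℝ) / 1000) (kc 1038)) fun y =>
      t ≤ h0 * y ∧ h0 * y ≤ t' + kc 10) 1700 800 hlA 1070 :=
  StpAll.cons (On.noLo (by norm_num) (by decide)) (StpAll.cons (On.noLo (by norm_num) (by decide)) (StpAll.nil (On.noLo (by norm_num) (by decide))))
theorem faA40 {x : ℝ} (hx : Rng 1020054732 13421774 x) : StpAll (fun t t' a => On PP tK tL Z0 x (4 : Fin 6) 0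
    (fun y X A L C => FarG (kc 26) (((1 : ℕ) : ℝ) / ((1 : ℕ) : ℝ)) x (mZ.v x) 0 y X A L C ((a : ℝ) / 1000) (kc 1038)) fun y =>
      t ≤ h0 * y ∧ h0 * y ≤ t' + kc 10 ∧ kc 1038 ≤ crv PP (4 : Fin 6) 0 y) 1387 878 blA 1575 :=
  StpAll.cons (On.noLo (by norm_num) (by decide)) (StpAll.cons (On.noLo (by norm_num) (by decide)) (StpAll.cons (On.noLo (by norm_num) (by decide)) (StpAll.cons (On.noLo (by norm_num) (by decide)) (StpAll.cons (On.noLo (by norm_num) (by decide)) (StpAll.cons (On.noLo (by norm_num) (by decide)) (StpAll.nil (On.noLo (by norm_num) (by decide))))))))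
theorem neA40 {x : ℝ} (hx : Rng 1020054732 13421774 x) : StpAll (fun t t' a => On PP tK tL Z0 x (4 : Fin 6) 0
    (fun y X A L C => NearH (kc 26) (((1 : ℕ) : ℝ) / ((1 : ℕ) : ℝ)) x (mZ.v x) 0 y X A L C ((a : ℝ) / 1000)) fun y =>
      t ≤ h0 * y ∧ h0 * y ≤ t' + kc 10 ∧ 0 < crv PP (4 : Fin 6) 0 y ∧ crv PP (4 : Fin 6) 0 y ≤ kc 459) 1387 878 blA 1575 :=
  StpAll.cons (On.noLo (by norm_num) (by decide)) (StpAll.cons (On.noLo (by norm_num) (by decide)) (StpAll.cons (On.noLo (by norm_num) (by decide)) (StpAll.cons (On.noLo (by norm_num) (by decide)) (StpAll.cons (On.noLo (by norm_num) (by decide)) (StpAll.cons (On.noLo (by norm_num) (by decide)) (StpAll.nil (On.noLo (by norm_num) (by decide))))))))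
theorem hiA41 {x : ℝ} (hx : Rng 1020054732 13421774 x) : StpAll (fun t t' a => On PP tK tL Z0 x (4 : Fin 6) 1
    (fun y X A L C => HighG (kc 26) (((1 : ℕ) : ℝ) / ((1 : ℕ) : ℝ)) x (mZ.v x) 1 y X A L C ((a : ℝ) / 1000) (kc 1038)) fun y =>
      t ≤ h0 * y ∧ h0 * y ≤ t' + kc 10) 1700 800 hlA 1070 :=
  StpAll.cons (On.stHG (fun y hy => (atB41 hy).far) cA_h0_41 hx (fun _ => rfl) (by decide)) (StpAll.cons (On.stHG (fun y hy => (atB41 hy).far) cA_h1_41 hx (fun _ => rfl) (by decide)) (StpAll.nil (On.noLo (by norm_num) (by decide))))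
theorem faA41 {x : ℝ} (hx : Rng 1020054732 13421774 x) : StpAll (fun t t' a => On PP tK tL Z0 x (4 : Fin 6) 1
    (fun y X A L C => FarG (kc 26) (((1 : ℕ) : ℝ) / ((1 : ℕ) : ℝ)) x (mZ.v x) 1 y X A L C ((a : ℝ) / 1000) (kc 1038)) fun y =>
      t ≤ h0 * y ∧ h0 * y ≤ t' + kc 10 ∧ kc 1038 ≤ crv PP (4 : Fin 6) 1 y) 1387 878 blA 1575 :=
  StpAll.cons (On.noLo (by norm_num) (by decide)) (StpAll.cons (On.noLo (by norm_num) (by decide)) (StpAll.cons (On.noLo (by norm_num) (by decide)) (StpAll.cons (On.noLo (by norm_num) (by decide)) (StpAll.cons (On.noLo (by norm_num) (by decide)) (StpAll.cons (On.noLo (by norm_num) (by decide)) (StpAll.nil (On.noLo (by norm_num) (by decide))))))))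
theorem neA41 {x : ℝ} (hx : Rng 1020054732 13421774 x) : StpAll (fun t t' a => On PP tK tL Z0 x (4 : Fin 6) 1
    (fun y X A L C => NearH (kc 26) (((1 : ℕ) : ℝ) / ((1 : ℕ) : ℝ)) x (mZ.v x) 1 y X A L C ((a : ℝ) / 1000)) fun y =>
      t ≤ h0 * y ∧ h0 * y ≤ t' + kc 10 ∧ 0 < crv PP (4 : Fin 6) 1 y ∧ crv PP (4 : Fin 6) 1 y ≤ kc 459) 1387 878 blA 1575 :=
  StpAll.cons (On.noLo (by norm_num) (by decide)) (StpAll.cons (On.noLo (by norm_num) (by decide)) (StpAll.cons (On.noLo (by norm_num) (by decide)) (StpAll.cons (On.noLo (by norm_num) (by decide)) (StpAll.cons (On.noLo (by norm_num) (by decide)) (StpAll.cons (On.noLo (by norm_num) (by decide)) (StpAll.nil (On.noLo (by norm_num) (by decide))))))))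
theorem hiA42 {x : ℝ} (hx : Rng 1020054732 13421774 x) : StpAll (fun t t' a => On PP tK tL Z0 x (4 : Fin 6) 2
    (fun y X A L C => HighG (kc 26) (((1 : ℕ) : ℝ) / ((1 : ℕ) : ℝ)) x (mZ.v x) 2 y X A L C ((a : ℝ) / 1000) (kc 1038)) fun y =>
      t ≤ h0 * y ∧ h0 * y ≤ t' + kc 10) 1700 800 hlA 1070 :=
  StpAll.cons (On.noHiG (by decide)) (StpAll.cons (On.stHG (fun y hy => (atB42 hy).far) cA_h1_42 hx (fun _ => rfl) (by decide)) (StpAll.nil (On.stHG (fun y hy => (atB42 hy).far) cA_h2_42 hx (fun _ => rfl) (by decide))))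
theorem faA42 {x : ℝ} (hx : Rng 1020054732 13421774 x) : StpAll (fun t t' a => On PP tK tL Z0 x (4 : Fin 6) 2
    (fun y X A L C => FarG (kc 26) (((1 : ℕ) : ℝ) / ((1 : ℕ) : ℝ)) x (mZ.v x) 2 y X A L C ((a : ℝ) / 1000) (kc 1038)) fun y =>
      t ≤ h0 * y ∧ h0 * y ≤ t' + kc 10 ∧ kc 1038 ≤ crv PP (4 : Fin 6) 2 y) 1387 878 blA 1575 :=
  StpAll.cons (On.stRG (fun y hy => (atB42 hy).far) cA_r0_42 hx (fun _ => rfl) (by decide) (by decide)) (StpAll.cons (On.stRG (fun y hy => (atB42 hy).far) cA_r1_42 hx (fun _ => rfl) (by decide) (by decide)) (StpAll.cons (On.stRG (fun y hy => (atB42 hy).far) cA_r2_42 hx (fun _ => rfl) (by decide) (by decide)) (StpAll.cons (On.stRG (fun y hy => (atB42 hy).far) cA_r3_42 hx (fun _ => rfl) (by decide) (by decide)) (StpAll.cons (On.stRG (fun y hy => (atB42 hy).far) cA_r4_42 hx (fun _ => rfl) (by decide) (by decide)) (StpAll.cons (On.stRG (fun y hy => (atB42 hy).far) cA_r5_42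 hx (fun _ => rfl) (by decide) (by decide)) (StpAll.nil (On.stRG (fun y hy => (atB42 hy).far) cA_r6_42 hx (fun _ => rfl) (by decide) (by decide))))))))
theorem neA42 {x : ℝ} (hx : Rng 1020054732 13421774 x) : StpAll (fun t t' a => On PP tK tL Z0 x (4 : Fin 6) 2
    (fun y X A L C => NearH (kc 26) (((1 : ℕ) : ℝ) / ((1 : ℕ) : ℝ)) x (mZ.v x) 2 y X A L C ((a : ℝ) / 1000)) fun y =>
      t ≤ h0 * y ∧ h0 * y ≤ t' + kc 10 ∧ 0 < crv PP (4 : Fin 6) 2 y ∧ crv PP (4 : Fin 6) 2 y ≤ kc 459) 1387 878 blA 1575 :=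
  StpAll.cons (On.stEG (fun y hy => (atB42 hy).far) cA_n0_42 hx (fun _ => rfl) (by decide) (by decide)) (StpAll.cons (On.stEG (fun y hy => (atB42 hy).far) cA_n1_42 hx (fun _ => rfl) (by decide) (by decide)) (StpAll.cons (On.stEG (fun y hy => (atB42 hy).far) cA_n2_42 hx (fun _ => rfl) (by decide) (by decide)) (StpAll.cons (On.stEG (fun y hy => (atB42 hy).far) cA_n3_42 hx (fun _ => rfl) (by decide) (by decide)) (StpAll.cons (On.stEG (fun y hy => (atB42 hy).far) cA_n4_42 hx (fun _ => rfl) (by decide) (by decide)) (StpAll.cons (On.stEG (fun y hy => (atB42 hy).far) cA_n5_42 hx (fun _ => rfl) (by decide) (by decide)) (StpAll.nil (On.stEG (fun y hy => (atB42 hy).far) cA_n6_42 hx (fun _ => rfl) (by decide) (by decide))))))))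
theorem hiA43 {x : ℝ} (hx : Rng 1020054732 13421774 x) : StpAll (fun t t' a => On PP tK tL Z0 x (4 : Fin 6) 3
    (fun y X A L C => HighG (kc 26) (((1 : ℕ) : ℝ) / ((1 : ℕ) : ℝ)) x (mZ.v x) 3 y X A L C ((a : ℝ) / 1000) (kc 1038)) fun y =>
      t ≤ h0 * y ∧ h0 * y ≤ t' + kc 10) 1700 800 hlA 1070 :=
  StpAll.cons (On.noHiG (by decide)) (StpAll.cons (On.noHiG (by decide)) (StpAll.nil (On.stHcG covB43.far cA_h2_43 hx (fun _ => rfl) (by decide))))
theorem faA43 {x : ℝ} (hx : Rng 1020054732 13421774 x) : StpAll (fun t t' a => On PP tK tL Z0 x (4 : Fin 6) 3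
    (fun y X A L C => FarG (kc 26) (((1 : ℕ) : ℝ) / ((1 : ℕ) : ℝ)) x (mZ.v x) 3 y X A L C ((a : ℝ) / 1000) (kc 1038)) fun y =>
      t ≤ h0 * y ∧ h0 * y ≤ t' + kc 10 ∧ kc 1038 ≤ crv PP (4 : Fin 6) 3 y) 1387 878 blA 1575 :=
  StpAll.cons (On.noHiG' (by decide)) (StpAll.cons (On.noHiG' (by decide)) (StpAll.cons (On.noHiG' (by decide)) (StpAll.cons (On.noHiG' (by decide)) (StpAll.cons (On.noHiG' (by decide)) (StpAll.cons (On.noHiG' (by decide)) (StpAll.nil (On.stRcG covB43.far cA_r6_43 hx (fun _ => rfl) (by decide) (by decide))))))))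
theorem neA43 {x : ℝ} (hx : Rng 1020054732 13421774 x) : StpAll (fun t t' a => On PP tK tL Z0 x (4 : Fin 6) 3
    (fun y X A L C => NearH (kc 26) (((1 : ℕ) : ℝ) / ((1 : ℕ) : ℝ)) x (mZ.v x) 3 y X A L C ((a : ℝ) / 1000)) fun y =>
      t ≤ h0 * y ∧ h0 * y ≤ t' + kc 10 ∧ 0 < crv PP (4 : Fin 6) 3 y ∧ crv PP (4 : Fin 6) 3 y ≤ kc 459) 1387 878 blA 1575 :=
  StpAll.cons (On.noHiG' (by decide)) (StpAll.cons (On.noHiG' (by decide)) (StpAll.cons (On.noHiG' (by decide)) (StpAll.cons (On.noHiG' (by decide)) (StpAll.cons (On.noHiG' (by decide)) (StpAll.cons (On.noHiG' (by decide)) (StpAll.nil ((On.stNcG covB43.far cA_n6_43 hx (fun _ => rfl) (by decide) (by decide)).toH)))))))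
theorem hiA50 {x : ℝ} (hx : Rng 1020054732 13421774 x) : StpAll (fun t t' a => On PP tK tL Z0 x (5 : Fin 6) 0
    (fun y X A L C => HighG (kc 26) (((1 : ℕ) : ℝ) / ((1 : ℕ) : ℝ)) x (mZ.v x) 0 y X A L C ((a : ℝ) / 1000) (kc 1038)) fun y =>
      t ≤ h0 * y ∧ h0 * y ≤ t' + kc 10) 1700 800 hlA 1070 :=
  StpAll.cons (On.noLo (by norm_num) (by decide)) (StpAll.cons (On.noLo (by norm_num) (by decide)) (StpAll.nil (On.noLo (by norm_num) (by decide))))
theorem faA50 {x : ℝ} (hx : Rng 1020054732 13421774 x) : StpAll (fun t t' a => On PP tK tL Z0 x (5 : Fin 6) 0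
    (fun y X A L C => FarG (kc 26) (((1 : ℕ) : ℝ) / ((1 : ℕ) : ℝ)) x (mZ.v x) 0 y X A L C ((a : ℝ) / 1000) (kc 1038)) fun y =>
      t ≤ h0 * y ∧ h0 * y ≤ t' + kc 10 ∧ kc 1038 ≤ crv PP (5 : Fin 6) 0 y) 1387 878 blA 1575 :=
  StpAll.cons (On.noLo (by norm_num) (by decide)) (StpAll.cons (On.noLo (by norm_num) (by decide)) (StpAll.cons (On.noLo (by norm_num) (by decide)) (StpAll.cons (On.noLo (by norm_num) (by decide)) (StpAll.cons (On.noLo (by norm_num) (by decide)) (StpAll.cons (On.noLo (by norm_num) (by decide)) (StpAll.nil (On.noLo (by norm_num) (by decide))))))))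
theorem neA50 {x : ℝ} (hx : Rng 1020054732 13421774 x) : StpAll (fun t t' a => On PP tK tL Z0 x (5 : Fin 6) 0
    (fun y X A L C => NearH (kc 26) (((1 : ℕ) : ℝ) / ((1 : ℕ) : ℝ)) x (mZ.v x) 0 y X A L C ((a : ℝ) / 1000)) fun y =>
      t ≤ h0 * y ∧ h0 * y ≤ t' + kc 10 ∧ 0 < crv PP (5 : Fin 6) 0 y ∧ crv PP (5 : Fin 6) 0 y ≤ kc 459) 1387 878 blA 1575 :=
  StpAll.cons (On.noLo (by norm_num) (by decide)) (StpAll.cons (On.noLo (by norm_num) (by decide)) (StpAll.cons (On.noLo (by norm_num) (by decide)) (StpAll.cons (On.noLo (by norm_num) (by decide)) (StpAll.cons (On.noLo (by norm_num) (by decide)) (StpAll.cons (On.noLo (by norm_num) (by decide)) (StpAll.nil (On.noLo (by norm_num) (by decide))))))))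
theorem hiA51 {x : ℝ} (hx : Rng 1020054732 13421774 x) : StpAll (fun t t' a => On PP tK tL Z0 x (5 : Fin 6) 1
    (fun y X A L C => HighG (kc 26) (((1 : ℕ) : ℝ) / ((1 : ℕ) : ℝ)) x (mZ.v x) 1 y X A L C ((a : ℝ) / 1000) (kc 1038)) fun y =>
      t ≤ h0 * y ∧ h0 * y ≤ t' + kc 10) 1700 800 hlA 1070 :=
  StpAll.cons (On.stHG (fun y hy => (atB51 hy).far) cA_h0_51 hx (fun _ => rfl) (by decide)) (StpAll.cons (On.stHG (fun y hy => (atB51 hy).far) cA_h1_51 hx (fun _ => rfl) (by decide)) (StpAll.nil (On.noLo (by norm_num) (by decide))))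
theorem faA51 {x : ℝ} (hx : Rng 1020054732 13421774 x) : StpAll (fun t t' a => On PP tK tL Z0 x (5 : Fin 6) 1
    (fun y X A L C => FarG (kc 26) (((1 : ℕ) : ℝ) / ((1 : ℕ) : ℝ)) x (mZ.v x) 1 y X A L C ((a : ℝ) / 1000) (kc 1038)) fun y =>
      t ≤ h0 * y ∧ h0 * y ≤ t' + kc 10 ∧ kc 1038 ≤ crv PP (5 : Fin 6) 1 y) 1387 878 blA 1575 :=
  StpAll.cons (On.noLo (by norm_num) (by decide)) (StpAll.cons (On.noLo (by norm_num) (by decide)) (StpAll.cons (On.noLo (by norm_num) (by decide)) (StpAll.cons (On.noLo (by norm_num) (by decide)) (StpAll.cons (On.noLo (by norm_num) (by decide)) (StpAll.cons (On.noLo (by norm_num) (by decide)) (StpAll.nil (On.noLo (by norm_num) (by decide))))))))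
theorem neA51 {x : ℝ} (hx : Rng 1020054732 13421774 x) : StpAll (fun t t' a => On PP tK tL Z0 x (5 : Fin 6) 1
    (fun y X A L C => NearH (kc 26) (((1 : ℕ) : ℝ) / ((1 : ℕ) : ℝ)) x (mZ.v x) 1 y X A L C ((a : ℝ) / 1000)) fun y =>
      t ≤ h0 * y ∧ h0 * y ≤ t' + kc 10 ∧ 0 < crv PP (5 : Fin 6) 1 y ∧ crv PP (5 : Fin 6) 1 y ≤ kc 459) 1387 878 blA 1575 :=
  StpAll.cons (On.noLo (by norm_num) (by decide)) (StpAll.cons (On.noLo (by norm_num) (by decide)) (StpAll.cons (On.noLo (by norm_num) (by decide)) (StpAll.cons (On.noLo (by norm_num) (by decide)) (StpAll.cons (On.noLo (by norm_num) (by decide)) (StpAll.cons (On.noLo (by norm_num) (by decide)) (StpAll.nil (On.noLo (by norm_num) (by decide))))))))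
theorem hiA52 {x : ℝ} (hx : Rng 1020054732 13421774 x) : StpAll (fun t t' a => On PP tK tL Z0 x (5 : Fin 6) 2
    (fun y X A L C => HighG (kc 26) (((1 : ℕ) : ℝ) / ((1 : ℕ) : ℝ)) x (mZ.v x) 2 y X A L C ((a : ℝ) / 1000) (kc 1038)) fun y =>
      t ≤ h0 * y ∧ h0 * y ≤ t' + kc 10) 1700 800 hlA 1070 :=
  StpAll.cons (On.noHiG (by decide)) (StpAll.cons (On.stHG (fun y hy => (atB52 hy).far) cA_h1_52 hx (fun _ => rfl) (by decide)) (StpAll.nil (On.stHG (fun y hy => (atB52 hy).far) cA_h2_52 hx (fun _ => rfl) (by decide))))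
theorem faA52 {x : ℝ} (hx : Rng 1020054732 13421774 x) : StpAll (fun t t' a => On PP tK tL Z0 x (5 : Fin 6) 2
    (fun y X A L C => FarG (kc 26) (((1 : ℕ) : ℝ) / ((1 : ℕ) : ℝ)) x (mZ.v x) 2 y X A L C ((a : ℝ) / 1000) (kc 1038)) fun y =>
      t ≤ h0 * y ∧ h0 * y ≤ t' + kc 10 ∧ kc 1038 ≤ crv PP (5 : Fin 6) 2 y) 1387 878 blA 1575 :=
  StpAll.cons (On.stRG (fun y hy => (atB52 hy).far) cA_r0_52 hx (fun _ => rfl) (by decide) (by decide)) (StpAll.cons (On.stRG (fun y hy => (atB52 hy).far) cA_r1_52 hx (fun _ => rfl) (by decide) (by decide)) (StpAll.cons (On.stRG (fun y hy => (atB52 hy).far) cA_r2_52 hx (fun _ => rfl) (by decide) (by decide)) (StpAll.cons (On.stRG (fun y hy => (atB52 hy).far) cA_r3_52 hx (fun _ => rfl) (by decide) (by decide)) (StpAll.cons (On.stRG (fun y hy => (atB52 hy).far) cA_r4_52 hx (fun _ => rfl) (by decide) (by decide)) (StpAll.cons (On.stRG (fun y hy => (atB52 hy).far) cA_r5_52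 hx (fun _ => rfl) (by decide) (by decide)) (StpAll.nil (On.stRG (fun y hy => (atB52 hy).far) cA_r6_52 hx (fun _ => rfl) (by decide) (by decide))))))))
theorem neA52 {x : ℝ} (hx : Rng 1020054732 13421774 x) : StpAll (fun t t' a => On PP tK tL Z0 x (5 : Fin 6) 2
    (fun y X A L C => NearH (kc 26) (((1 : ℕ) : ℝ) / ((1 : ℕ) : ℝ)) x (mZ.v x) 2 y X A L C ((a : ℝ) / 1000)) fun y =>
      t ≤ h0 * y ∧ h0 * y ≤ t' + kc 10 ∧ 0 < crv PP (5 : Fin 6) 2 y ∧ crv PP (5 : Fin 6) 2 y ≤ kc 459) 1387 878 blA 1575 :=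
  StpAll.cons (On.stEG (fun y hy => (atB52 hy).far) cA_n0_52 hx (fun _ => rfl) (by decide) (by decide)) (StpAll.cons (On.stEG (fun y hy => (atB52 hy).far) cA_n1_52 hx (fun _ => rfl) (by decide) (by decide)) (StpAll.cons (On.stEG (fun y hy => (atB52 hy).far) cA_n2_52 hx (fun _ => rfl) (by decide) (by decide)) (StpAll.cons (On.stEG (fun y hy => (atB52 hy).far) cA_n3_52 hx (fun _ => rfl) (by decide) (by decide)) (StpAll.cons (On.stEG (fun y hy => (atB52 hy).far) cA_n4_52 hx (fun _ => rfl) (by decide) (by decide)) (StpAll.cons (On.stEG (fun y hy => (atB52 hy).far) cA_n5_52 hx (fun _ => rfl) (by decide) (by decide)) (StpAll.nil (On.stEG (fun y hy => (atB52 hy).far) cA_n6_52 hx (fun _ => rfl) (by decide) (by decide))))))))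
theorem hiA53 {x : ℝ} (hx : Rng 1020054732 13421774 x) : StpAll (fun t t' a => On PP tK tL Z0 x (5 : Fin 6) 3
    (fun y X A L C => HighG (kc 26) (((1 : ℕ) : ℝ) / ((1 : ℕ) : ℝ)) x (mZ.v x) 3 y X A L C ((a : ℝ) / 1000) (kc 1038)) fun y =>
      t ≤ h0 * y ∧ h0 * y ≤ t' + kc 10) 1700 800 hlA 1070 :=
  StpAll.cons (On.noHiG (by decide)) (StpAll.cons (On.noHiG (by decide)) (StpAll.nil (On.stHcG covB53.far cA_h2_53 hx (fun _ => rfl) (by decide))))
theorem faA53 {x : ℝ} (hx : Rng 1020054732 13421774 x) : StpAll (fun t t' a => On PP tK tL Z0 x (5 : Fin 6) 3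
    (fun y X A L C => FarG (kc 26) (((1 : ℕ) : ℝ) / ((1 : ℕ) : ℝ)) x (mZ.v x) 3 y X A L C ((a : ℝ) / 1000) (kc 1038)) fun y =>
      t ≤ h0 * y ∧ h0 * y ≤ t' + kc 10 ∧ kc 1038 ≤ crv PP (5 : Fin 6) 3 y) 1387 878 blA 1575 :=
  StpAll.cons (On.noHiG' (by decide)) (StpAll.cons (On.noHiG' (by decide)) (StpAll.cons (On.noHiG' (by decide)) (StpAll.cons (On.noHiG' (by decide)) (StpAll.cons (On.noHiG' (by decide)) (StpAll.cons (On.noHiG' (by decide)) (StpAll.nil (On.stRcG covB53.far cA_r6_53 hx (fun _ => rfl) (by decide) (by decide))))))))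
theorem neA53 {x : ℝ} (hx : Rng 1020054732 13421774 x) : StpAll (fun t t' a => On PP tK tL Z0 x (5 : Fin 6) 3
    (fun y X A L C => NearH (kc 26) (((1 : ℕ) : ℝ) / ((1 : ℕ) : ℝ)) x (mZ.v x) 3 y X A L C ((a : ℝ) / 1000)) fun y =>
      t ≤ h0 * y ∧ h0 * y ≤ t' + kc 10 ∧ 0 < crv PP (5 : Fin 6) 3 y ∧ crv PP (5 : Fin 6) 3 y ≤ kc 459) 1387 878 blA 1575 :=
  StpAll.cons (On.noHiG' (by decide)) (StpAll.cons (On.noHiG' (by decide)) (StpAll.cons (On.noHiG' (by decide)) (StpAll.cons (On.noHiG' (by decide)) (StpAll.cons (On.noHiG' (by decide)) (StpAll.cons (On.noHiG' (by decide)) (StpAll.nil ((On.stNcG covB53.far cA_n6_53 hx (fun _ => rfl) (by decide) (by decide)).toH)))))))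
theorem fzA0 {x : ℝ} (hx : Rng 1020054732 13421774 x) : StpAll (fun t t' a => OnT (fun q => (pcB q).K.v) (fun q => (pcB q).L.v) (fun _ _ _ _ => 0) x 0 (fun _ => kc 1038)
    (fun y X A L C => FarG (kc 26) (((1 : ℕ) : ℝ) / ((1 : ℕ) : ℝ)) x (mZ.v x) 0 y X A L C ((a : ℝ) / 1000) (kc 1038)) fun y =>
      t ≤ h0 * y ∧ h0 * y ≤ t' + kc 10 ∧ qqn (kc 1038) y ≤ 3) 1387 878 blA 1575 :=
  StpAll.cons (OnT.noLo (by norm_num) (by decide)) (StpAll.cons (OnT.noLo (by norm_num) (by decide)) (StpAll.cons (OnT.noLo (by norm_num) (by decide)) (StpAll.cons (OnT.noLo (by norm_num) (by decide)) (StpAll.cons (OnT.noLo (by norm_num) (by decide)) (StpAll.cons (OnT.noLo (by norm_num) (by decide)) (StpAll.nil (OnT.noLo (by norm_num) (by decide))))))))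
theorem nzA0 {x : ℝ} (hx : Rng 1020054732 13421774 x) : StpAll (fun t t' a => OnT (fun q => (pcB q).K.v) (fun q => (pcB q).L.v) (fun _ _ _ _ => 0) x 0 (fun _ => kc 459)
    (fun y X A L C => NearH (kc 26) (((1 : ℕ) : ℝ) / ((1 : ℕ) : ℝ)) x (mZ.v x) 0 y X A L C ((a : ℝ) / 1000)) fun y =>
      t ≤ h0 * y ∧ h0 * y ≤ t' + kc 10 ∧ 1 ≤ qqn (kc 459) y) 1387 878 blA 1575 :=
  StpAll.cons (OnT.noLo (by norm_num) (by decide)) (StpAll.cons (OnT.noLo (by norm_num) (by decide)) (StpAll.cons (OnT.noLo (by norm_num) (by decide)) (StpAll.cons (OnT.noLo (by norm_num) (by decide)) (StpAll.cons (OnT.noLo (by norm_num) (by decide)) (StpAll.cons (OnT.noLo (by norm_num) (by decide)) (StpAll.nil (OnT.noLo (by norm_num) (by decide))))))))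
theorem fzA1 {x : ℝ} (hx : Rng 1020054732 13421774 x) : StpAll (fun t t' a => OnT (fun q => (pcB q).K.v) (fun q => (pcB q).L.v) (fun _ _ _ _ => 0) x 1 (fun _ => kc 1038)
    (fun y X A L C => FarG (kc 26) (((1 : ℕ) : ℝ) / ((1 : ℕ) : ℝ)) x (mZ.v x) 1 y X A L C ((a : ℝ) / 1000) (kc 1038)) fun y =>
      t ≤ h0 * y ∧ h0 * y ≤ t' + kc 10 ∧ qqn (kc 1038) y ≤ 3) 1387 878 blA 1575 :=
  StpAll.cons (OnT.noLo (by norm_num) (by decide)) (StpAll.cons (OnT.noLo (by norm_num) (by decide)) (StpAll.cons (OnT.noLo (by norm_num) (by decide)) (StpAll.cons (OnT.noLo (by norm_num) (by decide)) (StpAll.cons (OnT.noLo (by norm_num) (by decide)) (StpAll.cons (OnT.noLo (by norm_num) (by decide)) (StpAll.nil (OnT.noLo (by norm_num) (by decide))))))))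
theorem nzA1 {x : ℝ} (hx : Rng 1020054732 13421774 x) : StpAll (fun t t' a => OnT (fun q => (pcB q).K.v) (fun q => (pcB q).L.v) (fun _ _ _ _ => 0) x 1 (fun _ => kc 459)
    (fun y X A L C => NearH (kc 26) (((1 : ℕ) : ℝ) / ((1 : ℕ) : ℝ)) x (mZ.v x) 1 y X A L C ((a : ℝ) / 1000)) fun y =>
      t ≤ h0 * y ∧ h0 * y ≤ t' + kc 10 ∧ 1 ≤ qqn (kc 459) y) 1387 878 blA 1575 :=
  StpAll.cons (OnT.noLo (by norm_num) (by decide)) (StpAll.cons (OnT.noLo (by norm_num) (by decide)) (StpAll.cons (OnT.noLo (by norm_num) (by decide)) (StpAll.cons (OnT.noLo (by norm_num) (by decide)) (StpAll.cons (OnT.noLo (by norm_num) (by decide)) (StpAll.cons (OnT.noLo (by norm_num) (by decide)) (StpAll.nil (OnT.noLo (by norm_num) (by decide))))))))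
theorem fzA2 {x : ℝ} (hx : Rng 1020054732 13421774 x) : StpAll (fun t t' a => OnT (fun q => (pcB q).K.v) (fun q => (pcB q).L.v) (fun _ _ _ _ => 0) x 2 (fun _ => kc 1038)
    (fun y X A L C => FarG (kc 26) (((1 : ℕ) : ℝ) / ((1 : ℕ) : ℝ)) x (mZ.v x) 2 y X A L C ((a : ℝ) / 1000) (kc 1038)) fun y =>
      t ≤ h0 * y ∧ h0 * y ≤ t' + kc 10 ∧ qqn (kc 1038) y ≤ 3) 1387 878 blA 1575 :=
  StpAll.cons (OnT.stRG (pc := pcB2) (c := dZ) cA_R0_2 hx (fun _ _ => rfl) (fun _ _ => rfl)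
    (fun _ _ => rfl) (fun _ _ => rfl) (by decide) (by decide)) (StpAll.cons (OnT.stRG (pc := pcB2) (c := dZ) cA_R1_2 hx (fun _ _ => rfl) (fun _ _ => rfl)
    (fun _ _ => rfl) (fun _ _ => rfl) (by decide) (by decide)) (StpAll.cons (OnT.stRG (pc := pcB2) (c := dZ) cA_R2_2 hx (fun _ _ => rfl) (fun _ _ => rfl)
    (fun _ _ => rfl) (fun _ _ => rfl) (by decide) (by decide)) (StpAll.cons (OnT.stRG (pc := pcB2) (c := dZ) cA_R3_2 hx (fun _ _ => rfl) (fun _ _ => rfl)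
    (fun _ _ => rfl) (fun _ _ => rfl) (by decide) (by decide)) (StpAll.cons (OnT.stRG (pc := pcB2) (c := dZ) cA_R4_2 hx (fun _ _ => rfl) (fun _ _ => rfl)
    (fun _ _ => rfl) (fun _ _ => rfl) (by decide) (by decide)) (StpAll.cons (OnT.stRG (pc := pcB2) (c := dZ) cA_R5_2 hx (fun _ _ => rfl) (fun _ _ => rfl)
    (fun _ _ => rfl) (fun _ _ => rfl) (by decide) (by decide)) (StpAll.nil (OnT.stRG (pc := pcB2) (c := dZ) cA_R6_2 hx (fun _ _ => rfl) (fun _ _ => rfl)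
    (fun _ _ => rfl) (fun _ _ => rfl) (by decide) (by decide))))))))
theorem nzA2 {x : ℝ} (hx : Rng 1020054732 13421774 x) : StpAll (fun t t' a => OnT (fun q => (pcB q).K.v) (fun q => (pcB q).L.v) (fun _ _ _ _ => 0) x 2 (fun _ => kc 459)
    (fun y X A L C => NearH (kc 26) (((1 : ℕ) : ℝ) / ((1 : ℕ) : ℝ)) x (mZ.v x) 2 y X A L C ((a : ℝ) / 1000)) fun y =>
      t ≤ h0 * y ∧ h0 * y ≤ t' + kc 10 ∧ 1 ≤ qqn (kc 459) y) 1387 878 blA 1575 :=
  StpAll.cons (OnT.stEG (pc := pcB2) (c := dZ) cA_N0_2 hx (fun _ _ => rfl) (fun _ _ => rfl)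
    (fun _ _ => rfl) (fun _ _ => rfl) (by decide) (by decide)) (StpAll.cons (OnT.stEG (pc := pcB2) (c := dZ) cA_N1_2 hx (fun _ _ => rfl) (fun _ _ => rfl)
    (fun _ _ => rfl) (fun _ _ => rfl) (by decide) (by decide)) (StpAll.cons (OnT.stEG (pc := pcB2) (c := dZ) cA_N2_2 hx (fun _ _ => rfl) (fun _ _ => rfl)
    (fun _ _ => rfl) (fun _ _ => rfl) (by decide) (by decide)) (StpAll.cons (OnT.stEG (pc := pcB2) (c := dZ) cA_N3_2 hx (fun _ _ => rfl) (fun _ _ => rfl)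
    (fun _ _ => rfl) (fun _ _ => rfl) (by decide) (by decide)) (StpAll.cons (OnT.stEG (pc := pcB2) (c := dZ) cA_N4_2 hx (fun _ _ => rfl) (fun _ _ => rfl)
    (fun _ _ => rfl) (fun _ _ => rfl) (by decide) (by decide)) (StpAll.cons (OnT.stEG (pc := pcB2) (c := dZ) cA_N5_2 hx (fun _ _ => rfl) (fun _ _ => rfl)
    (fun _ _ => rfl) (fun _ _ => rfl) (by decide) (by decide)) (StpAll.nil (OnT.stEG (pc := pcB2) (c := dZ) cA_N6_2 hx (fun _ _ => rfl) (fun _ _ => rfl)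
    (fun _ _ => rfl) (fun _ _ => rfl) (by decide) (by decide))))))))
theorem fzA3 {x : ℝ} (hx : Rng 1020054732 13421774 x) : StpAll (fun t t' a => OnT (fun q => (pcB q).K.v) (fun q => (pcB q).L.v) (fun _ _ _ _ => 0) x 3 (fun _ => kc 1038)
    (fun y X A L C => FarG (kc 26) (((1 : ℕ) : ℝ) / ((1 : ℕ) : ℝ)) x (mZ.v x) 3 y X A L C ((a : ℝ) / 1000) (kc 1038)) fun y =>
      t ≤ h0 * y ∧ h0 * y ≤ t' + kc 10 ∧ qqn (kc 1038) y ≤ 3) 1387 878 blA 1575 :=
  StpAll.cons (OnT.noHiG (by decide)) (StpAll.cons (OnT.noHiG (by decide)) (StpAll.cons (OnT.noHiG (by decide)) (StpAll.cons (OnT.noHiG (by decide)) (StpAll.cons (OnT.noHiG (by decide)) (StpAll.cons (OnT.noHiG (by decide)) (StpAll.nil (OnT.stRG (pc := pcB3) (c := dZ) cA_R6_3 hx (fun _ _ => rfl) (fun _ _ => rfl)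
    (fun _ _ => rfl) (fun _ _ => rfl) (by decide) (by decide))))))))
theorem nzA3 {x : ℝ} (hx : Rng 1020054732 13421774 x) : StpAll (fun t t' a => OnT (fun q => (pcB q).K.v) (fun q => (pcB q).L.v) (fun _ _ _ _ => 0) x 3 (fun _ => kc 459)
    (fun y X A L C => NearH (kc 26) (((1 : ℕ) : ℝ) / ((1 : ℕ) : ℝ)) x (mZ.v x) 3 y X A L C ((a : ℝ) / 1000)) fun y =>
      t ≤ h0 * y ∧ h0 * y ≤ t' + kc 10 ∧ 1 ≤ qqn (kc 459) y) 1387 878 blA 1575 :=
  StpAll.cons (OnT.noHiG (by decide)) (StpAll.cons (OnT.noHiG (by decide)) (StpAll.cons (OnT.noHiG (by decide)) (StpAll.cons (OnT.noHiG (by decide)) (StpAll.cons (OnT.noHiG (by decide)) (StpAll.cons (OnT.noHiG (by decide)) (StpAll.nil ((OnT.stNG (pc := pcB3) (c := dZ) cA_N6_3 hx (fun _ _ => rfl) (fun _ _ => rfl)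
    (fun _ _ => rfl) (fun _ _ => rfl) (by decide) (by decide)).toH)))))))
theorem fvA {x : ℝ} (hx : Rng 1020054732 13421774 x) : FV PP x (mZ.v x) (((1 : ℕ) : ℝ) / ((1 : ℕ) : ℝ)) (fun _ => 0) (tbl tK x)
    (tbl tL x) (fun _ _ => 0) tK tL Z0 (fun q => (pcB q).K.v) (fun q => (pcB q).L.v) (fun _ _ _ _ => 0) :=
  FV.two (rng_pos hx (by norm_num)) (rng_lt hx (by norm_num)) le_rfl (sideB hx.1 hx.2).linkK
    (sideB hx.1 hx.2).linkL
theorem hsA {x : ℝ} (hx : Rng 1020054732 13421774 x) : ∀ y : ℝ, 1 ≤ y → h0 * y ≤ 1 → GV PP x (mZ.v x)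
    (tbl tK x) (tbl tL x) (fun _ _ => 0) (fun _ => 0) 2 y (1 - G y) := by
  have x0 := rng_pos hx (by norm_num)
  have x1 := rng_lt hx (by norm_num)
  have V := fvA hx
  have bK : En x * ndB2q2.K.v 1 x = (En x + mZ.v x * Qn x) * (1 / 2) := bK_far (corB22 x).2.1
  have pK0 : tK (2 : Fin 6) 2 1 x = tK 0 2 1 x := (pinK hx.1 hx.2).mid _ (le_of_eq_of_le (show PP.ρ (2 : Fin 6) = 3 / 5 from rfl) (by norm_num))
  have pL : tL (2 : Fin 6) 2 1 x = tL 0 2 1 x := (pinL hx.1 hx.2).mid _ (le_of_eq_of_le (show PP.ρ (2 : Fin 6) = 3 / 5 from rfl) (by norm_num))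
  exact V.steepZ (i := (2 : Fin 5)) (jl := (2 : Fin 6)) (jr := (3 : Fin 6)) (by norm_num) rfl rfl
    (by decide) (fun y hy => (atB22 hy).toAt) (fun y hy => (atB32 hy).toAt) (corB22 x).1 bK (corB22 x).2.2.1 pK0 pL
    (pc := pcB2) (fun _ _ => rfl) (fun _ _ => rfl) cA_st cA_sm cA_sw hx (by norm_num) (by norm_num)
    (by norm_num)
theorem winA {x : ℝ} (hx : Rng 1020054732 13421774 x) : WinNH PP x (mZ.v x) (((1 : ℕ) : ℝ) / ((1 : ℕ) : ℝ)) (fun _ => 0) (tbl tK x) (tbl tL x) (fun _ _ => 0)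
    tK tL (smT h0⁻¹ Z0) (fun q => (pcB q).K.v) (fun q => (pcB q).L.v) (fun q X y x => h0⁻¹ * (fun _ _ _ _ => (0 : ℝ)) q X y x)
    (kc 10) (kc 26) (kc 13) (kc 459) (kc 878) (kc 1387) (kc 1038) (stp hlA 1070) (stp blA 1575) := by
  refine (fvA hx).winNH (geo_of wOk).1 ?_ ?_ ?_ (hsA hx) ?_ ?_ ?_ ?_ ?_ ?_ ?_ ?_ ?_
  · exact fun j => match j with
    | 0 => (onA00 hx).imp fun _ _ _ => trivial
    | 1 => (onA10 hx).imp fun _ _ _ => trivial
    | 2 => (onA20 hx).imp fun _ _ _ => trivial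
    | 3 => (onA30 hx)
    | 4 => (onA40 hx)
    | 5 => (onA50 hx)
  · exact fun j => match j with
    | 0 => onA01 hx
    | 1 => onA11 hx
    | 2 => onA21 hx
    | 3 => onA31 hx
    | 4 => onA41 hx
    | 5 => onA51 hx
  · exact fun j => match j with
    | 0 => fun h => absurd h (not_lt.2 (le_of_eq_of_le (show PP.ρ (0 : Fin 6) = 0 from rfl) (by norm_num)))
    | 1 => fun h => absurd h (not_lt.2 (le_of_eq_of_le (show PP.ρ (1 : Fin 6) = 1 / 5 from rfl) (by norm_num)))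
    | 2 => fun h => absurd h (not_lt.2 (le_of_eq_of_le (show PP.ρ (2 : Fin 6) = 3 / 5 from rfl) (by norm_num)))
    | 3 => fun _ => onA32 hx
    | 4 => fun _ => onA42 hx
    | 5 => fun _ => onA52 hx
  · exact fun j => match j with
    | 0 => flA0 hx
    | 1 => flA1 hx
    | 2 => flA2 hx
    | 3 => flA3 hx
    | 4 => flA4 hx
    | 5 => flA5 hx
  · exact fun j => match j with
    | 0 => (onA00 hx).imp fun _ _ _ => trivial
    | 1 => (onA10 hx).imp fun _ _ _ => trivial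
    | 2 => (onA20 hx).imp fun _ _ _ => trivial
    | 3 => leA3 hx
    | 4 => leA4 hx
    | 5 => leA5 hx
  · exact OnT.left0G (pc := pcB0) (c := dZ) cA_ll hx (fun _ _ => rfl) (fun _ _ => rfl) (fun _ _ => rfl)
      (fun _ _ => rfl) (by decide)
  · exact fun j q => match q with
    | 0 => match j with
      | 0 => hiA00 hx
      | 1 => hiA10 hx
      | 2 => hiA20 hx
      | 3 => hiA30 hx
      | 4 => hiA40 hx
      | 5 => hiA50 hx
    | 1 => match j with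
      | 0 => hiA01 hx
      | 1 => hiA11 hx
      | 2 => hiA21 hx
      | 3 => hiA31 hx
      | 4 => hiA41 hx
      | 5 => hiA51 hx
    | 2 => match j with
      | 0 => hiA02 hx
      | 1 => hiA12 hx
      | 2 => hiA22 hx
      | 3 => hiA32 hx
      | 4 => hiA42 hx
      | 5 => hiA52 hx
    | 3 => match j with
      | 0 => hiA03 hx
      | 1 => hiA13 hx
      | 2 => hiA23 hx
      | 3 => hiA33 hx
      | 4 => hiA43 hx
      | 5 => hiA53 hx
    | q + 4 => StpAll.all fun _ _ _ => On.qbig q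
  · exact high0_ofG (StpAll.cons (Or.inl (by norm_num)) (StpAll.cons (Or.inl (by norm_num)) (StpAll.nil (Or.inr (by norm_num [kc])))))
  · exact fun j q => match q with
    | 0 => match j with
      | 0 => faA00 hx
      | 1 => faA10 hx
      | 2 => faA20 hx
      | 3 => faA30 hx
      | 4 => faA40 hx
      | 5 => faA50 hx
    | 1 => match j with
      | 0 => faA01 hx
      | 1 => faA11 hx
      | 2 => faA21 hx
      | 3 => faA31 hx
      | 4 => faA41 hx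
      | 5 => faA51 hx
    | 2 => match j with
      | 0 => faA02 hx
      | 1 => faA12 hx
      | 2 => faA22 hx
      | 3 => faA32 hx
      | 4 => faA42 hx
      | 5 => faA52 hx
    | 3 => match j with
      | 0 => faA03 hx
      | 1 => faA13 hx
      | 2 => faA23 hx
      | 3 => faA33 hx
      | 4 => faA43 hx
      | 5 => faA53 hx
    | q + 4 => StpAll.all fun _ _ _ => On.qbig q
  · exact fun q => match q with
    | 0 => fzA0 hx
    | 1 => fzA1 hx
    | 2 => fzA2 hx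
    | 3 => fzA3 hx
    | q + 4 => StpAll.all fun _ _ _ => OnT.qbig q
  · exact fun j q => match q with
    | 0 => match j with
      | 0 => neA00 hx
      | 1 => neA10 hx
      | 2 => neA20 hx
      | 3 => neA30 hx
      | 4 => neA40 hx
      | 5 => neA50 hx
    | 1 => match j with
      | 0 => neA01 hx
      | 1 => neA11 hx
      | 2 => neA21 hx
      | 3 => neA31 hx
      | 4 => neA41 hx
      | 5 => neA51 hx
    | 2 => match j with
      | 0 => neA02 hx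
      | 1 => neA12 hx
      | 2 => neA22 hx
      | 3 => neA32 hx
      | 4 => neA42 hx
      | 5 => neA52 hx
    | 3 => match j with
      | 0 => neA03 hx
      | 1 => neA13 hx
      | 2 => neA23 hx
      | 3 => neA33 hx
      | 4 => neA43 hx
      | 5 => neA53 hx
    | q + 4 => StpAll.all fun _ _ _ => On.qbig q
  · exact fun q => match q with
    | 0 => nzA0 hx
    | 1 => nzA1 hx
    | 2 => nzA2 hx
    | 3 => nzA3 hx
    | q + 4 => StpAll.all fun _ _ _ => OnT.qbig q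

end Pool.Agent.Strip051.G.I9500_9625.Tab
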