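import Pool.Agent.Strip051.PB.FlAsmH
import Pool.Agent.Strip051.PB.PairU
import Pool.Agent.Strip051.G.I9500_9625.Tab

/-! # Slopes (generated) -/

set_option linter.all false

namespace Pool.Agent.Strip051.G.I9500_9625.Tab

open Pool.Agent.Strip051.PB

attribute [local irreducible] padd psub pneg pmul psq pinv psqrt psqrtg pabs pps pmax pmin pphi
  plam pcase phf pnat prat pscale pnorm pdc pnc pone ppos pnn pscaleT pwT
  pwB0 pwB3 pmA pwL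

noncomputable def c1g_sf : Sl1 c1g := ⟨_, fun h1 => (pr_sqrtg (pr_csub (enc_pnc _ 1) (pr_scaleT 3 4 (pr_sq h1))))⟩
noncomputable def kcg_6_sf : Sl2 kcg_6 := ⟨_, fun h1 h2 => (pr_addc h1 (enc_rat _ 2 5))⟩
noncomputable def kcg_9_sf : Sl2 kcg_9 := ⟨_, fun h1 h2 => (pr_addc h1 (enc_rat _ 470613 1000000))⟩
noncomputable def kcg_12_sf : Sl2 kcg_12 := ⟨_, fun h1 h2 => (pr_addc h1 (enc_rat _ 242653 500000))⟩
noncomputable def kcg_13_sf : Sl2 kcg_13 := ⟨_, fun h1 h2 => (pr_scaleT 175201067 14694000 h1)⟩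
noncomputable def kcg_18_sf : Sl2 kcg_18 := ⟨_, fun h1 h2 => (pr_scaleT 54095711 367350 h1)⟩
noncomputable def kcg_34_sf : Sl2 kcg_34 := ⟨_, fun h1 h2 => (pr_addc h1 (enc_rat _ 1 2))⟩
noncomputable def kcg_35_sf : Sl2 kcg_35 := ⟨_, fun h1 h2 => (pr_csub (enc_neg (enc_rat _ 242653 500000)) h1)⟩
noncomputable def kcg_40_sf : Sl2 kcg_40 := ⟨_, fun h1 h2 => (pr_scaleT 35039581 2938600 h1)⟩
noncomputable def kcg_45_sf : Sl2 kcg_45 := ⟨_, fun h1 h2 => (pr_scaleT 216241677 1469300 h1)⟩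
noncomputable def kcg_59_sf : Sl2 kcg_59 := ⟨_, fun h1 h2 => (pr_csub (enc_neg (enc_rat _ 470613 1000000)) h1)⟩
noncomputable def kcg_67_sf : Sl2 kcg_67 := ⟨_, fun h1 h2 => (pr_addc h1 (enc_rat _ 181 397))⟩
noncomputable def kcg_68_sf : Sl2 kcg_68 := ⟨_, fun h1 h2 => (pr_scaleT 8135674551 1458340250 h1)⟩
noncomputable def kcg_73_sf : Sl2 kcg_73 := ⟨_, fun h1 h2 => (pr_scaleT 1452392343 30701900 h1)⟩
noncomputable def kcg_87_sf : Sl2 kcg_87 := ⟨_, fun h1 h2 => (pr_csub (enc_neg (enc_rat _ 181 397)) h1)⟩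
noncomputable def kcg_94_sf : Sl2 kcg_94 := ⟨_, fun h1 h2 => (pr_addc h1 (enc_rat _ 107 254))⟩
noncomputable def kcg_95_sf : Sl2 kcg_95 := ⟨_, fun h1 h2 => (pr_scaleT 12731654623 6990000000 h1)⟩
noncomputable def kcg_99_sf : Sl2 kcg_99 := ⟨_, fun h1 h2 => (pr_scaleT 9174547132073 174750000000 h1)⟩
noncomputable def kcg_111_sf : Sl2 kcg_111 := ⟨_, fun h1 h2 => (pr_csub (enc_neg (enc_rat _ 107 254)) h1)⟩
noncomputable def kcg_116_sf : Sl2 kcg_116 := ⟨_, fun h1 h2 => (pr_scaleT 7768736431 2700000000 h1)⟩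
noncomputable def kcg_120_sf : Sl2 kcg_120 := ⟨_, fun h1 h2 => (pr_scaleT 12636540259 270000000 h1)⟩
noncomputable def kcg_130_sf : Sl2 kcg_130 := ⟨_, fun h1 h2 => (pr_csub (enc_neg (enc_rat _ 2 5)) h1)⟩
noncomputable def kcg_140_sf : Sl2 kcg_140 := ⟨_, fun h1 h2 => (pr_addc h1 (enc_rat _ 6 25))⟩
noncomputable def kcg_143_sf : Sl2 kcg_143 := ⟨_, fun h1 h2 => (pr_addc h1 (enc_rat _ 9 25))⟩
noncomputable def kcg_144_sf : Sl2 kcg_144 := ⟨_, fun h1 h2 => (pr_scaleT 1438887 500000 h1)⟩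
noncomputable def kcg_148_sf : Sl2 kcg_148 := ⟨_, fun h1 h2 => (pr_scaleT 1519177 50000 h1)⟩
noncomputable def kcg_158_sf : Sl2 kcg_158 := ⟨_, fun h1 h2 => (pr_csub (enc_neg (enc_rat _ 9 25)) h1)⟩
noncomputable def kcg_165_sf : Sl2 kcg_165 := ⟨_, fun h1 h2 => (pr_addc h1 (enc_rat _ 8 25))⟩
noncomputable def kcg_166_sf : Sl2 kcg_166 := ⟨_, fun h1 h2 => (pr_scaleT 359751 125000 h1)⟩
noncomputable def kcg_170_sf : Sl2 kcg_170 := ⟨_, fun h1 h2 => (pr_scaleT 89857 10000 h1)⟩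
noncomputable def kcg_180_sf : Sl2 kcg_180 := ⟨_, fun h1 h2 => (pr_csub (enc_neg (enc_rat _ 8 25)) h1)⟩
noncomputable def kcg_185_sf : Sl2 kcg_185 := ⟨_, fun h1 h2 => (pr_scaleT 1439081 500000 h1)⟩
noncomputable def kcg_189_sf : Sl2 kcg_189 := ⟨_, fun h1 h2 => (pr_scaleT 42799 25000 h1)⟩
noncomputable def kcg_200_sf : Sl2 kcg_200 := ⟨_, fun h1 h2 => (pr_csub (enc_neg (enc_rat _ 6 25)) h1)⟩
noncomputable def kcg_209_sf : Sl2 kcg_209 := ⟨_, fun h1 h2 => (pr_addc h1 (enc_rat _ 4 25))⟩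
noncomputable def kcg_210_sf : Sl2 kcg_210 := ⟨_, fun h1 h2 => (pr_scaleT 1439131 500000 h1)⟩
noncomputable def kcg_214_sf : Sl2 kcg_214 := ⟨_, fun h1 h2 => (pr_scaleT 5419 3125 h1)⟩
noncomputable def kcg_226_sf : Sl2 kcg_226 := ⟨_, fun h1 h2 => (pr_csub (enc_neg (enc_rat _ 4 25)) h1)⟩
noncomputable def kcg_234_sf : Sl2 kcg_234 := ⟨_, fun h1 h2 => (pr_scaleT 1439163 500000 h1)⟩
noncomputable def kcg_238_sf : Sl2 kcg_238 := ⟨_, fun h1 h2 => (pr_scaleT 21693 12500 h1)⟩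
noncomputable def kcg_252_sf : Sl2 kcg_252 := ⟨_, fun h1 h2 => (pr_csub (enc_neg (enc_rat _ 2 25)) h1)⟩
noncomputable def kcg_257_sf : Sl2 kcg_257 := ⟨_, fun h1 h2 => (pr_scaleT 57567 20000 h1)⟩
noncomputable def kcg_261_sf : Sl2 kcg_261 := ⟨_, fun h1 h2 => (pr_cmul (enc_norm (kcg_3.enc h1.l h2)) (pr_nd (pr_scaleT 4331 2500 h1)))⟩
noncomputable def kcg_269_sf : Sl2 kcg_269 := ⟨_, fun h1 h2 => (pr_csub (enc_rat _ 2 5) h1)⟩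
noncomputable def kcg_270_sf : Sl2 kcg_270 := ⟨_, fun h1 h2 => (pr_csub (enc_rat _ 470613 1000000) h1)⟩
noncomputable def kcg_271_sf : Sl2 kcg_271 := ⟨_, fun h1 h2 => (pr_csub (enc_rat _ 242653 500000) h1)⟩
noncomputable def kcg_276_sf : Sl2 kcg_276 := ⟨_, fun h1 h2 => (pr_csub (enc_rat _ 1 2) h1)⟩
noncomputable def kcg_277_sf : Sl2 kcg_277 := ⟨_, fun h1 h2 => (pr_subr 242653 500000 h1)⟩
noncomputable def kcg_286_sf : Sl2 kcg_286 := ⟨_, fun h1 h2 => (pr_subr 470613 1000000 h1)⟩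
noncomputable def kcg_292_sf : Sl2 kcg_292 := ⟨_, fun h1 h2 => (pr_csub (enc_rat _ 181 397) h1)⟩
noncomputable def kcg_297_sf : Sl2 kcg_297 := ⟨_, fun h1 h2 => (pr_subr 181 397 h1)⟩
noncomputable def kcg_302_sf : Sl2 kcg_302 := ⟨_, fun h1 h2 => (pr_csub (enc_rat _ 107 254) h1)⟩
noncomputable def kcg_309_sf : Sl2 kcg_309 := ⟨_, fun h1 h2 => (pr_subr 107 254 h1)⟩
noncomputable def kcg_320_sf : Sl2 kcg_320 := ⟨_, fun h1 h2 => (pr_subr 2 5 h1)⟩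
noncomputable def kcg_328_sf : Sl2 kcg_328 := ⟨_, fun h1 h2 => (pr_csub (enc_rat _ 6 25) h1)⟩
noncomputable def kcg_329_sf : Sl2 kcg_329 := ⟨_, fun h1 h2 => (pr_csub (enc_rat _ 9 25) h1)⟩
noncomputable def kcg_336_sf : Sl2 kcg_336 := ⟨_, fun h1 h2 => (pr_subr 9 25 h1)⟩
noncomputable def kcg_341_sf : Sl2 kcg_341 := ⟨_, fun h1 h2 => (pr_csub (enc_rat _ 8 25) h1)⟩
noncomputable def kcg_348_sf : Sl2 kcg_348 := ⟨_, fun h1 h2 => (pr_subr 8 25 h1)⟩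
noncomputable def kcg_358_sf : Sl2 kcg_358 := ⟨_, fun h1 h2 => (pr_subr 6 25 h1)⟩
noncomputable def kcg_365_sf : Sl2 kcg_365 := ⟨_, fun h1 h2 => (pr_csub (enc_rat _ 4 25) h1)⟩
noncomputable def kcg_371_sf : Sl2 kcg_371 := ⟨_, fun h1 h2 => (pr_subr 4 25 h1)⟩
noncomputable def kcg_382_sf : Sl2 kcg_382 := ⟨_, fun h1 h2 => (pr_subr 2 25 h1)⟩
noncomputable def kcg_sf : Sl2 kcg := ⟨_, fun h1 h2 => (pr_norm (pr_case h1 (pr_case (kcg_6_sf.snd h1 h2) (pr_case (kcg_9_sf.snd h1 h2) (pr_case (kcg_12_sf.snd h1 h2) (pr_add (pr_add (pr_subr 49995324588113 7347000000000 (pr_neg (kcg_13_sf.snd h1 h2))) (pr_cmul (enc_norm (kcg_3.enc h1.l h2)) (pr_norm (pr_subr 26612537749117 367350000000 (pr_neg (kcg_18_sf.snd h1 h2)))))) (pr_mA (pr_cmul (enc_norm (kcg_31.enc h1.l h2)) (pr_norm (pr_mul (pr_norm (kcg_34_sf.snd h1 h2)) (pr_norm (kcg_35_sf.snd h1 h2))))) (pr_const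 (kcg_31.enc h1.l h2)) (kcg_34_sf.snd h1 h2) (kcg_35_sf.snd h1 h2) rfl rfl)) (pr_add (pr_add (pr_subr 12498512028551 1836625000000 (pr_neg (kcg_40_sf.snd h1 h2))) (pr_cmul (enc_norm (kcg_3.enc h1.l h2)) (pr_norm (pr_subr 1063815439237 14693000000 (pr_neg (kcg_45_sf.snd h1 h2)))))) (pr_mA (pr_cmul (enc_norm (kcg_58.enc h1.l h2)) (pr_norm (pr_mul (pr_norm (kcg_12_sf.snd h1 h2)) (pr_norm (kcg_59_sf.snd h1 h2))))) (pr_const (kcg_58.enc h1.l h2)) (kcg_12_sf.snd h1 h2) (kcg_59_sf.snd h1 h2) rfl rfl))) (pr_case (kcg_67_sf.snd h1 h2) (pr_add (pr_add (pr_subr 22277764067204563 5833361000000000 (pr_neg (kcg_68_sf.snd h1 h2))) (pr_cmul (enc_norm (kcg_3.enc h1.l h2)) (pr_norm (pr_subr 48747265333861 1918868750000 (pr_neg (kcg_73_sf.snd h1 h2)))))) (pr_mA (pr_cmul (enc_norm (kcg_86.enc h1.l h2)) (pr_norm (pr_mul (pr_norm (kcg_9_sf.snd h1 h2)) (pr_norm (kcg_87_sf.snd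 h1 h2))))) (pr_const (kcg_86.enc h1.l h2)) (kcg_9_sf.snd h1 h2) (kcg_87_sf.snd h1 h2) rfl rfl)) (pr_case (kcg_94_sf.snd h1 h2) (pr_add (pr_add (pr_subr 311169370517 699000000000 (kcg_95_sf.snd h1 h2)) (pr_cmul (enc_norm (kcg_3.enc h1.l h2)) (pr_norm (pr_addc (kcg_99_sf.snd h1 h2) (enc_rat _ 3512456530889 174750000000))))) (pr_mA (pr_cmul (enc_norm (kcg_110.enc h1.l h2)) (pr_norm (pr_mul (pr_norm (kcg_67_sf.snd h1 h2)) (pr_norm (kcg_111_sf.snd h1 h2))))) (pr_const (kcg_110.enc h1.l h2)) (kcg_67_sf.snd h1 h2) (kcg_111_sf.snd h1 h2) rfl rfl)) (pr_add (pr_add (pr_subr 2398709 6750000000 (kcg_116_sf.snd h1 h2)) (pr_cmul (enc_norm (kcg_3.enc h1.l h2)) (pr_norm (pr_addc (kcg_120_sf.snd h1 h2) (enc_rat _ 11946920299 675000000))))) (pr_mA (pr_cmul (enc_norm (kcg_129.enc h1.l h2)) (pr_norm (pr_mul (pr_norm (kcg_94_sf.snd h1 h2)) (pr_norm (kcg_130_sf.snd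 h1 h2))))) (pr_const (kcg_129.enc h1.l h2)) (kcg_94_sf.snd h1 h2) (kcg_130_sf.snd h1 h2) rfl rfl))))) (pr_case (kcg_140_sf.snd h1 h2) (pr_case (kcg_143_sf.snd h1 h2) (pr_add (pr_add (pr_subr 2121 12500000 (kcg_144_sf.snd h1 h2)) (pr_cmul (enc_norm (kcg_3.enc h1.l h2)) (pr_norm (pr_addc (kcg_148_sf.snd h1 h2) (enc_rat _ 1739337 156250))))) (pr_mA (pr_cmul (enc_norm (kcg_157.enc h1.l h2)) (pr_norm (pr_mul (pr_norm (kcg_6_sf.snd h1 h2)) (pr_norm (kcg_158_sf.snd h1 h2))))) (pr_const (kcg_157.enc h1.l h2)) (kcg_6_sf.snd h1 h2) (kcg_158_sf.snd h1 h2) rfl rfl)) (pr_case (kcg_165_sf.snd h1 h2) (pr_add (pr_add (pr_subr 267 3125000 (kcg_166_sf.snd h1 h2)) (pr_cmul (enc_norm (kcg_3.enc h1.l h2)) (pr_norm (pr_addc (kcg_170_sf.snd h1 h2) (enc_rat _ 1071417 312500))))) (pr_mA (pr_cmul (enc_norm (kcg_179.enc h1.l h2)) (pr_norm (pr_mul (pr_norm (kcg_143_sf.snd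 h1 h2)) (pr_norm (kcg_180_sf.snd h1 h2))))) (pr_const (kcg_179.enc h1.l h2)) (kcg_143_sf.snd h1 h2) (kcg_180_sf.snd h1 h2) rfl rfl)) (pr_add (pr_add (pr_subr 113 3125000 (kcg_185_sf.snd h1 h2)) (pr_cmul (enc_norm (kcg_3.enc h1.l h2)) (pr_norm (pr_csub (enc_rat _ 1651 312500) (kcg_189_sf.snd h1 h2))))) (pr_mA (pr_cmul (enc_norm (kcg_199.enc h1.l h2)) (pr_norm (pr_mul (pr_norm (kcg_165_sf.snd h1 h2)) (pr_norm (kcg_200_sf.snd h1 h2))))) (pr_const (kcg_199.enc h1.l h2)) (kcg_165_sf.snd h1 h2) (kcg_200_sf.snd h1 h2) rfl rfl)))) (pr_case (kcg_209_sf.snd h1 h2) (pr_add (pr_add (pr_subr 19 1562500 (kcg_210_sf.snd h1 h2)) (pr_cmul (enc_norm (kcg_3.enc h1.l h2)) (pr_norm (pr_subr 2 78125 (pr_neg (kcg_214_sf.snd h1 h2)))))) (pr_mA (pr_cmul (enc_norm (kcg_225.enc h1.l h2)) (pr_norm (pr_mul (pr_norm (kcg_140_sf.snd h1 h2)) (pr_norm (kcg_226_sf.snd h1 h2)))))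 (pr_const (kcg_225.enc h1.l h2)) (kcg_140_sf.snd h1 h2) (kcg_226_sf.snd h1 h2) rfl rfl)) (pr_case (pr_addc h1 (enc_rat _ 2 25)) (pr_add (pr_add (pr_subr 3 1562500 (kcg_234_sf.snd h1 h2)) (pr_cmul (enc_norm (kcg_3.enc h1.l h2)) (pr_norm (pr_subr 19 78125 (pr_neg (kcg_238_sf.snd h1 h2)))))) (pr_mA (pr_cmul (enc_norm (kcg_251.enc h1.l h2)) (pr_norm (pr_mul (pr_norm (kcg_209_sf.snd h1 h2)) (pr_norm (kcg_252_sf.snd h1 h2))))) (pr_const (kcg_251.enc h1.l h2)) (kcg_209_sf.snd h1 h2) (kcg_252_sf.snd h1 h2) rfl rfl)) (pr_sub (kcg_257_sf.snd h1 h2) (kcg_261_sf.snd h1 h2)))))) (pr_neg (pr_case (kcg_269_sf.snd h1 h2) (pr_case (kcg_270_sf.snd h1 h2) (pr_case (kcg_271_sf.snd h1 h2) (pr_add (pr_add (pr_subr 49995324588113 7347000000000 (kcg_13_sf.snd h1 h2)) (pr_cmul (enc_norm (kcg_3.enc h1.l h2)) (pr_norm (pr_subr 26612537749117 367350000000 (kcg_18_sf.snd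 h1 h2))))) (pr_mA (pr_cmul (enc_norm (kcg_31.enc h1.l h2)) (pr_norm (pr_mul (pr_norm (kcg_276_sf.snd h1 h2)) (pr_norm (kcg_277_sf.snd h1 h2))))) (pr_const (kcg_31.enc h1.l h2)) (kcg_276_sf.snd h1 h2) (kcg_277_sf.snd h1 h2) rfl rfl)) (pr_add (pr_add (pr_subr 12498512028551 1836625000000 (kcg_40_sf.snd h1 h2)) (pr_cmul (enc_norm (kcg_3.enc h1.l h2)) (pr_norm (pr_subr 1063815439237 14693000000 (kcg_45_sf.snd h1 h2))))) (pr_mA (pr_cmul (enc_norm (kcg_58.enc h1.l h2)) (pr_norm (pr_mul (pr_norm (kcg_271_sf.snd h1 h2)) (pr_norm (kcg_286_sf.snd h1 h2))))) (pr_const (kcg_58.enc h1.l h2)) (kcg_271_sf.snd h1 h2) (kcg_286_sf.snd h1 h2) rfl rfl))) (pr_case (kcg_292_sf.snd h1 h2) (pr_add (pr_add (pr_subr 22277764067204563 5833361000000000 (kcg_68_sf.snd h1 h2)) (pr_cmul (enc_norm (kcg_3.enc h1.l h2)) (pr_norm (pr_subr 48747265333861 1918868750000 (kcg_73_sf.snd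 h1 h2))))) (pr_mA (pr_cmul (enc_norm (kcg_86.enc h1.l h2)) (pr_norm (pr_mul (pr_norm (kcg_270_sf.snd h1 h2)) (pr_norm (kcg_297_sf.snd h1 h2))))) (pr_const (kcg_86.enc h1.l h2)) (kcg_270_sf.snd h1 h2) (kcg_297_sf.snd h1 h2) rfl rfl)) (pr_case (kcg_302_sf.snd h1 h2) (pr_add (pr_add (pr_subr 311169370517 699000000000 (pr_neg (kcg_95_sf.snd h1 h2))) (pr_cmul (enc_norm (kcg_3.enc h1.l h2)) (pr_norm (pr_csub (enc_rat _ 3512456530889 174750000000) (kcg_99_sf.snd h1 h2))))) (pr_mA (pr_cmul (enc_norm (kcg_110.enc h1.l h2)) (pr_norm (pr_mul (pr_norm (kcg_292_sf.snd h1 h2)) (pr_norm (kcg_309_sf.snd h1 h2))))) (pr_const (kcg_110.enc h1.l h2)) (kcg_292_sf.snd h1 h2) (kcg_309_sf.snd h1 h2) rfl rfl)) (pr_add (pr_add (pr_subr 2398709 6750000000 (pr_neg (kcg_116_sf.snd h1 h2))) (pr_cmul (enc_norm (kcg_3.enc h1.l h2)) (pr_norm (pr_csub (enc_rat _ 11946920299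 675000000) (kcg_120_sf.snd h1 h2))))) (pr_mA (pr_cmul (enc_norm (kcg_129.enc h1.l h2)) (pr_norm (pr_mul (pr_norm (kcg_302_sf.snd h1 h2)) (pr_norm (kcg_320_sf.snd h1 h2))))) (pr_const (kcg_129.enc h1.l h2)) (kcg_302_sf.snd h1 h2) (kcg_320_sf.snd h1 h2) rfl rfl))))) (pr_case (kcg_328_sf.snd h1 h2) (pr_case (kcg_329_sf.snd h1 h2) (pr_add (pr_add (pr_subr 2121 12500000 (pr_neg (kcg_144_sf.snd h1 h2))) (pr_cmul (enc_norm (kcg_3.enc h1.l h2)) (pr_norm (pr_csub (enc_rat _ 1739337 156250) (kcg_148_sf.snd h1 h2))))) (pr_mA (pr_cmul (enc_norm (kcg_157.enc h1.l h2)) (pr_norm (pr_mul (pr_norm (kcg_269_sf.snd h1 h2)) (pr_norm (kcg_336_sf.snd h1 h2))))) (pr_const (kcg_157.enc h1.l h2)) (kcg_269_sf.snd h1 h2) (kcg_336_sf.snd h1 h2) rfl rfl)) (pr_case (kcg_341_sf.snd h1 h2) (pr_add (pr_add (pr_subr 267 3125000 (pr_neg (kcg_166_sf.snd h1 h2))) (pr_cmul (enc_norm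 (kcg_3.enc h1.l h2)) (pr_norm (pr_csub (enc_rat _ 1071417 312500) (kcg_170_sf.snd h1 h2))))) (pr_mA (pr_cmul (enc_norm (kcg_179.enc h1.l h2)) (pr_norm (pr_mul (pr_norm (kcg_329_sf.snd h1 h2)) (pr_norm (kcg_348_sf.snd h1 h2))))) (pr_const (kcg_179.enc h1.l h2)) (kcg_329_sf.snd h1 h2) (kcg_348_sf.snd h1 h2) rfl rfl)) (pr_add (pr_add (pr_subr 113 3125000 (pr_neg (kcg_185_sf.snd h1 h2))) (pr_cmul (enc_norm (kcg_3.enc h1.l h2)) (pr_norm (pr_addc (kcg_189_sf.snd h1 h2) (enc_rat _ 1651 312500))))) (pr_mA (pr_cmul (enc_norm (kcg_199.enc h1.l h2)) (pr_norm (pr_mul (pr_norm (kcg_341_sf.snd h1 h2)) (pr_norm (kcg_358_sf.snd h1 h2))))) (pr_const (kcg_199.enc h1.l h2)) (kcg_341_sf.snd h1 h2) (kcg_358_sf.snd h1 h2) rfl rfl)))) (pr_case (kcg_365_sf.snd h1 h2) (pr_add (pr_add (pr_subr 19 1562500 (pr_neg (kcg_210_sf.snd h1 h2))) (pr_cmul (enc_norm (kcg_3.enc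 h1.l h2)) (pr_norm (pr_subr 2 78125 (kcg_214_sf.snd h1 h2))))) (pr_mA (pr_cmul (enc_norm (kcg_225.enc h1.l h2)) (pr_norm (pr_mul (pr_norm (kcg_328_sf.snd h1 h2)) (pr_norm (kcg_371_sf.snd h1 h2))))) (pr_const (kcg_225.enc h1.l h2)) (kcg_328_sf.snd h1 h2) (kcg_371_sf.snd h1 h2) rfl rfl)) (pr_case (pr_csub (enc_rat _ 2 25) h1) (pr_add (pr_add (pr_subr 3 1562500 (pr_neg (kcg_234_sf.snd h1 h2))) (pr_cmul (enc_norm (kcg_3.enc h1.l h2)) (pr_norm (pr_subr 19 78125 (kcg_238_sf.snd h1 h2))))) (pr_mA (pr_cmul (enc_norm (kcg_251.enc h1.l h2)) (pr_norm (pr_mul (pr_norm (kcg_365_sf.snd h1 h2)) (pr_norm (kcg_382_sf.snd h1 h2))))) (pr_const (kcg_251.enc h1.l h2)) (kcg_365_sf.snd h1 h2) (kcg_382_sf.snd h1 h2) rfl rfl)) (pr_sub (kcg_261_sf.snd h1 h2) (kcg_257_sf.snd h1 h2)))))))))⟩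
noncomputable def kf0q0_9_sf : Sl2 kf0q0_9 := ⟨_, fun h1 h2 => (pr_scaleT 3 2 h1)⟩
noncomputable def kf0q0_12_sf : Sl2 kf0q0_12 := ⟨_, fun h1 h2 => (pr_cadd (enc_pnc _ 1) (c1g_sf.snd h1))⟩
noncomputable def kf0q0_sf : Sl2 kf0q0 := ⟨_, fun h1 h2 => (pr_norm (pr_add (pr_mul (pr_norm (pr_mul (pr_norm (pr_sub (c1g_sf.snd h1) (kf0q0_9_sf.snd h1 h2))) (pr_norm (kf0q0_12_sf.snd h1 h2)))) (pr_nd (pr_inv (pr_sub (kf0q0_12_sf.snd h1 h2) (kf0q0_9_sf.snd h1 h2))))) (pr_mul h1 (kcg_sf.snd (pr_norm (pr_sub (pr_scaleT 3 4 h1) (pr_half (c1g_sf.snd h1)))) h2))))⟩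
noncomputable def txg_6_sf : Sl3 txg_6 := ⟨_, fun h1 h2 h3 => (pr_add h1 (pr_half h2))⟩
noncomputable def txg_26_sf : Sl3 txg_26 := ⟨_, fun h1 h2 h3 => (pr_addc h1 (enc_rat _ 1 5))⟩
noncomputable def txg_29_sf : Sl3 txg_29 := ⟨_, fun h1 h2 h3 => (pr_addc h1 (enc_rat _ 2 5))⟩
noncomputable def txg_32_sf : Sl3 txg_32 := ⟨_, fun h1 h2 h3 => (pr_addc h1 (enc_rat _ 470613 1000000))⟩
noncomputable def txg_35_sf : Sl3 txg_35 := ⟨_, fun h1 h2 h3 => (pr_addc h1 (enc_rat _ 242653 500000))⟩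
noncomputable def txg_53_sf : Sl3 txg_53 := ⟨_, fun h1 h2 h3 => (pr_addc h1 (enc_rat _ 1 2))⟩
noncomputable def txg_54_sf : Sl3 txg_54 := ⟨_, fun h1 h2 h3 => (pr_csub (enc_neg (enc_rat _ 242653 500000)) h1)⟩
noncomputable def txg_71_sf : Sl3 txg_71 := ⟨_, fun h1 h2 h3 => (pr_csub (enc_neg (enc_rat _ 470613 1000000)) h1)⟩
noncomputable def txg_79_sf : Sl3 txg_79 := ⟨_, fun h1 h2 h3 => (pr_addc h1 (enc_rat _ 23 50))⟩
noncomputable def txg_92_sf : Sl3 txg_92 := ⟨_, fun h1 h2 h3 => (pr_csub (enc_neg (enc_rat _ 23 50)) h1)⟩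
noncomputable def txg_99_sf : Sl3 txg_99 := ⟨_, fun h1 h2 h3 => (pr_addc h1 (enc_rat _ 43 100))⟩
noncomputable def txg_114_sf : Sl3 txg_114 := ⟨_, fun h1 h2 h3 => (pr_csub (enc_neg (enc_rat _ 43 100)) h1)⟩
noncomputable def txg_134_sf : Sl3 txg_134 := ⟨_, fun h1 h2 h3 => (pr_csub (enc_neg (enc_rat _ 2 5)) h1)⟩
noncomputable def txg_144_sf : Sl3 txg_144 := ⟨_, fun h1 h2 h3 => (pr_addc h1 (enc_rat _ 33 100))⟩
noncomputable def txg_147_sf : Sl3 txg_147 := ⟨_, fun h1 h2 h3 => (pr_addc h1 (enc_rat _ 9 25))⟩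
noncomputable def txg_163_sf : Sl3 txg_163 := ⟨_, fun h1 h2 h3 => (pr_csub (enc_neg (enc_rat _ 9 25)) h1)⟩
noncomputable def txg_181_sf : Sl3 txg_181 := ⟨_, fun h1 h2 h3 => (pr_csub (enc_neg (enc_rat _ 33 100)) h1)⟩
noncomputable def txg_189_sf : Sl3 txg_189 := ⟨_, fun h1 h2 h3 => (pr_addc h1 (enc_rat _ 3 10))⟩
noncomputable def txg_202_sf : Sl3 txg_202 := ⟨_, fun h1 h2 h3 => (pr_csub (enc_neg (enc_rat _ 3 10)) h1)⟩
noncomputable def txg_209_sf : Sl3 txg_209 := ⟨_, fun h1 h2 h3 => (pr_addc h1 (enc_rat _ 1 4))⟩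
noncomputable def txg_222_sf : Sl3 txg_222 := ⟨_, fun h1 h2 h3 => (pr_csub (enc_neg (enc_rat _ 1 4)) h1)⟩
noncomputable def txg_239_sf : Sl3 txg_239 := ⟨_, fun h1 h2 h3 => (pr_csub (enc_neg (enc_rat _ 1 5)) h1)⟩
noncomputable def txg_248_sf : Sl3 txg_248 := ⟨_, fun h1 h2 h3 => (pr_subr 1 5 h1)⟩
noncomputable def txg_251_sf : Sl3 txg_251 := ⟨_, fun h1 h2 h3 => (pr_addc h1 (enc_rat _ 1 10))⟩
noncomputable def txg_254_sf : Sl3 txg_254 := ⟨_, fun h1 h2 h3 => (pr_addc h1 (enc_rat _ 3 20))⟩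
noncomputable def txg_267_sf : Sl3 txg_267 := ⟨_, fun h1 h2 h3 => (pr_csub (enc_neg (enc_rat _ 3 20)) h1)⟩
noncomputable def txg_284_sf : Sl3 txg_284 := ⟨_, fun h1 h2 h3 => (pr_csub (enc_neg (enc_rat _ 1 10)) h1)⟩
noncomputable def txg_290_sf : Sl3 txg_290 := ⟨_, fun h1 h2 h3 => (pr_subr 1 10 h1)⟩
noncomputable def txg_303_sf : Sl3 txg_303 := ⟨_, fun h1 h2 h3 => (pr_csub (enc_rat _ 1 10) h1)⟩
noncomputable def txg_308_sf : Sl3 txg_308 := ⟨_, fun h1 h2 h3 => (pr_subr 3 20 h1)⟩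
noncomputable def txg_323_sf : Sl3 txg_323 := ⟨_, fun h1 h2 h3 => (pr_csub (enc_rat _ 3 20) h1)⟩
noncomputable def txg_342_sf : Sl3 txg_342 := ⟨_, fun h1 h2 h3 => (pr_csub (enc_rat _ 1 5) h1)⟩
noncomputable def txg_350_sf : Sl3 txg_350 := ⟨_, fun h1 h2 h3 => (pr_subr 33 100 h1)⟩
noncomputable def txg_351_sf : Sl3 txg_351 := ⟨_, fun h1 h2 h3 => (pr_subr 1 4 h1)⟩
noncomputable def txg_366_sf : Sl3 txg_366 := ⟨_, fun h1 h2 h3 => (pr_csub (enc_rat _ 1 4) h1)⟩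
noncomputable def txg_371_sf : Sl3 txg_371 := ⟨_, fun h1 h2 h3 => (pr_subr 3 10 h1)⟩
noncomputable def txg_386_sf : Sl3 txg_386 := ⟨_, fun h1 h2 h3 => (pr_csub (enc_rat _ 3 10) h1)⟩
noncomputable def txg_407_sf : Sl3 txg_407 := ⟨_, fun h1 h2 h3 => (pr_csub (enc_rat _ 33 100) h1)⟩
noncomputable def txg_414_sf : Sl3 txg_414 := ⟨_, fun h1 h2 h3 => (pr_subr 9 25 h1)⟩
noncomputable def txg_431_sf : Sl3 txg_431 := ⟨_, fun h1 h2 h3 => (pr_csub (enc_rat _ 9 25) h1)⟩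
noncomputable def txg_436_sf : Sl3 txg_436 := ⟨_, fun h1 h2 h3 => (pr_subr 2 5 h1)⟩
noncomputable def txg_454_sf : Sl3 txg_454 := ⟨_, fun h1 h2 h3 => (pr_csub (enc_rat _ 2 5) h1)⟩
noncomputable def txg_485_sf : Sl3 txg_485 := ⟨_, fun h1 h2 h3 => (pr_csub (enc_rat _ 107 254) h1)⟩
noncomputable def txg_496_sf : Sl3 txg_496 := ⟨_, fun h1 h2 h3 => (pr_subr 181 397 h1)⟩
noncomputable def txg_497_sf : Sl3 txg_497 := ⟨_, fun h1 h2 h3 => (pr_subr 470613 1000000 h1)⟩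
noncomputable def txg_523_sf : Sl3 txg_523 := ⟨_, fun h1 h2 h3 => (pr_csub (enc_rat _ 470613 1000000) h1)⟩
noncomputable def txg_528_sf : Sl3 txg_528 := ⟨_, fun h1 h2 h3 => (pr_subr 242653 500000 h1)⟩
noncomputable def txg_543_sf : Sl3 txg_543 := ⟨_, fun h1 h2 h3 => (pr_csub (enc_rat _ 242653 500000) h1)⟩
noncomputable def txg_565_sf : Sl3 txg_565 := ⟨_, fun h1 h2 h3 => (pr_csub (enc_rat _ 1 2) h1)⟩
noncomputable def txg_sf : Sl3 txg := ⟨_, fun h1 h2 h3 => (pr_case (pr_subr 107 254 h1) (pr_case (txg_26_sf.snd h1 h2 h3) (pr_case (txg_29_sf.snd h1 h2 h3) (pr_case (txg_32_sf.snd h1 h2 h3) (pr_case (txg_35_sf.snd h1 h2 h3) (pr_add (pr_add (pr_addc (pr_scaleT 7064 36735 h1) (enc_rat _ 3532 36735)) (pr_cmul (enc_norm (txg_4.enc h1.l h2.l h3)) (pr_norm (pr_addc (pr_scaleT 6577 12245 h1) (enc_rat _ 6577 24490))))) (pr_mA (pr_cmul (enc_norm (txg_50.enc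 h1.l h2.l h3)) (pr_norm (pr_mul (pr_norm (txg_53_sf.snd h1 h2 h3)) (pr_norm (txg_54_sf.snd h1 h2 h3))))) (pr_const (txg_50.enc h1.l h2.l h3)) (txg_53_sf.snd h1 h2 h3) (txg_54_sf.snd h1 h2 h3) rfl rfl)) (pr_add (pr_add (pr_addc (pr_scaleT 13247 58772 h1) (enc_rat _ 16487286863 146930000000)) (pr_cmul (enc_norm (txg_4.enc h1.l h2.l h3)) (pr_norm (pr_addc (pr_scaleT 24277 20990 h1) (enc_rat _ 5973717619 10495000000))))) (pr_mA (pr_cmul (enc_norm (txg_70.enc h1.l h2.l h3)) (pr_norm (pr_mul (pr_norm (txg_35_sf.snd h1 h2 h3)) (pr_norm (txg_71_sf.snd h1 h2 h3))))) (pr_const (txg_70.enc h1.l h2.l h3)) (txg_35_sf.snd h1 h2 h3) (txg_71_sf.snd h1 h2 h3) rfl rfl))) (pr_case (txg_79_sf.snd h1 h2 h3) (pr_add (pr_add (pr_addc (pr_scaleT 178783 1061300 h1) (enc_rat _ 45325586767 530650000000)) (pr_cmul (enc_norm (txg_4.enc h1.l h2.l h3)) (pr_norm (pr_addc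 (pr_scaleT 21208 53065 h1) (enc_rat _ 22602704027 106130000000))))) (pr_mA (pr_cmul (enc_norm (txg_91.enc h1.l h2.l h3)) (pr_norm (pr_mul (pr_norm (txg_32_sf.snd h1 h2 h3)) (pr_norm (txg_92_sf.snd h1 h2 h3))))) (pr_const (txg_91.enc h1.l h2.l h3)) (txg_32_sf.snd h1 h2 h3) (txg_92_sf.snd h1 h2 h3) rfl rfl)) (pr_case (txg_99_sf.snd h1 h2 h3) (pr_add (pr_add (pr_addc (pr_scaleT 320309 3000000 h1) (enc_rat _ 2138971 37500000)) (pr_cmul (enc_norm (txg_4.enc h1.l h2.l h3)) (pr_norm (pr_subr 898833 10000000 (pr_neg (pr_scaleT 1617 6250 h1)))))) (pr_mA (pr_cmul (enc_norm (txg_113.enc h1.l h2.l h3)) (pr_norm (pr_mul (pr_norm (txg_79_sf.snd h1 h2 h3)) (pr_norm (txg_114_sf.snd h1 h2 h3))))) (pr_const (txg_113.enc h1.l h2.l h3)) (txg_79_sf.snd h1 h2 h3) (txg_114_sf.snd h1 h2 h3) rfl rfl)) (pr_add (pr_add (pr_addc (pr_scaleT 386207 3000000 h1) (enc_rat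 _ 9972691 150000000)) (pr_cmul (enc_norm (txg_4.enc h1.l h2.l h3)) (pr_norm (pr_addc (pr_scaleT 20277 100000 h1) (enc_rat _ 542787 5000000))))) (pr_mA (pr_cmul (enc_norm (txg_133.enc h1.l h2.l h3)) (pr_norm (pr_mul (pr_norm (txg_99_sf.snd h1 h2 h3)) (pr_norm (txg_134_sf.snd h1 h2 h3))))) (pr_const (txg_133.enc h1.l h2.l h3)) (txg_99_sf.snd h1 h2 h3) (txg_134_sf.snd h1 h2 h3) rfl rfl))))) (pr_case (txg_144_sf.snd h1 h2 h3) (pr_case (txg_147_sf.snd h1 h2 h3) (pr_add (pr_add (pr_addc (pr_scaleT 473849 1000000 h1) (enc_rat _ 10226497 50000000)) (pr_cmul (enc_norm (txg_4.enc h1.l h2.l h3)) (pr_norm (pr_addc (pr_scaleT 2359539 400000 h1) (enc_rat _ 5967471 2500000))))) (pr_mA (pr_cmul (enc_norm (txg_162.enc h1.l h2.l h3)) (pr_norm (pr_mul (pr_norm (txg_29_sf.snd h1 h2 h3)) (pr_norm (txg_163_sf.snd h1 h2 h3))))) (pr_const (txg_162.enc h1.l h2.l h3))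 (txg_29_sf.snd h1 h2 h3) (txg_163_sf.snd h1 h2 h3) rfl rfl)) (pr_add (pr_add (pr_addc (pr_scaleT 776043 1000000 h1) (enc_rat _ 15665989 50000000)) (pr_cmul (enc_norm (txg_4.enc h1.l h2.l h3)) (pr_norm (pr_addc (pr_scaleT 267533 25000 h1) (enc_rat _ 8231757 2000000))))) (pr_mA (pr_cmul (enc_norm (txg_180.enc h1.l h2.l h3)) (pr_norm (pr_mul (pr_norm (txg_147_sf.snd h1 h2 h3)) (pr_norm (txg_181_sf.snd h1 h2 h3))))) (pr_const (txg_180.enc h1.l h2.l h3)) (txg_147_sf.snd h1 h2 h3) (txg_181_sf.snd h1 h2 h3) rfl rfl))) (pr_case (txg_189_sf.snd h1 h2 h3) (pr_add (pr_add (pr_addc (pr_scaleT 2262587 3000000 h1) (enc_rat _ 3826377 12500000)) (pr_cmul (enc_norm (txg_4.enc h1.l h2.l h3)) (pr_norm (pr_addc (pr_scaleT 656161 75000 h1) (enc_rat _ 34715513 10000000))))) (pr_mA (pr_cmul (enc_norm (txg_201.enc h1.l h2.l h3)) (pr_norm (pr_mul (pr_norm (txg_144_sf.snd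 h1 h2 h3)) (pr_norm (txg_202_sf.snd h1 h2 h3))))) (pr_const (txg_201.enc h1.l h2.l h3)) (txg_144_sf.snd h1 h2 h3) (txg_202_sf.snd h1 h2 h3) rfl rfl)) (pr_case (txg_209_sf.snd h1 h2 h3) (pr_add (pr_add (pr_addc (pr_scaleT 3479393 5000000 h1) (enc_rat _ 450961 1562500)) (pr_cmul (enc_norm (txg_4.enc h1.l h2.l h3)) (pr_norm (pr_addc (pr_scaleT 484537 125000 h1) (enc_rat _ 20097961 10000000))))) (pr_mA (pr_cmul (enc_norm (txg_221.enc h1.l h2.l h3)) (pr_norm (pr_mul (pr_norm (txg_189_sf.snd h1 h2 h3)) (pr_norm (txg_222_sf.snd h1 h2 h3))))) (pr_const (txg_221.enc h1.l h2.l h3)) (txg_189_sf.snd h1 h2 h3) (txg_222_sf.snd h1 h2 h3) rfl rfl)) (pr_add (pr_add (pr_addc (pr_scaleT 3114681 5000000 h1) (enc_rat _ 3379743 12500000)) (pr_cmul (enc_norm (txg_4.enc h1.l h2.l h3)) (pr_norm (pr_addc (pr_scaleT 59059 62500 h1) (enc_rat _ 12769581 10000000))))) (pr_mA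 (pr_cmul (enc_norm (txg_238.enc h1.l h2.l h3)) (pr_norm (pr_mul (pr_norm (txg_209_sf.snd h1 h2 h3)) (pr_norm (txg_239_sf.snd h1 h2 h3))))) (pr_const (txg_238.enc h1.l h2.l h3)) (txg_209_sf.snd h1 h2 h3) (txg_239_sf.snd h1 h2 h3) rfl rfl)))))) (pr_case (txg_248_sf.snd h1 h2 h3) (pr_case (txg_251_sf.snd h1 h2 h3) (pr_case (txg_254_sf.snd h1 h2 h3) (pr_add (pr_add (pr_addc (pr_scaleT 530291 1000000 h1) (enc_rat _ 314813 1250000)) (pr_cmul (enc_norm (txg_4.enc h1.l h2.l h3)) (pr_norm (pr_addc (pr_scaleT 116471 125000 h1) (enc_rat _ 12743229 10000000))))) (pr_mA (pr_cmul (enc_norm (txg_266.enc h1.l h2.l h3)) (pr_norm (pr_mul (pr_norm (txg_26_sf.snd h1 h2 h3)) (pr_norm (txg_267_sf.snd h1 h2 h3))))) (pr_const (txg_266.enc h1.l h2.l h3)) (txg_26_sf.snd h1 h2 h3) (txg_267_sf.snd h1 h2 h3) rfl rfl)) (pr_add (pr_add (pr_addc (pr_scaleT 2089719 5000000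 h1) (enc_rat _ 2937479 12500000)) (pr_cmul (enc_norm (txg_4.enc h1.l h2.l h3)) (pr_norm (pr_addc (pr_scaleT 462123 500000 h1) (enc_rat _ 6365973 5000000))))) (pr_mA (pr_cmul (enc_norm (txg_283.enc h1.l h2.l h3)) (pr_norm (pr_mul (pr_norm (txg_254_sf.snd h1 h2 h3)) (pr_norm (txg_284_sf.snd h1 h2 h3))))) (pr_const (txg_283.enc h1.l h2.l h3)) (txg_254_sf.snd h1 h2 h3) (txg_284_sf.snd h1 h2 h3) rfl rfl))) (pr_case (txg_290_sf.snd h1 h2 h3) (pr_add (pr_add (pr_addc (pr_scaleT 1370961 10000000 h1) (enc_rat _ 4138271 20000000)) (pr_cmul (enc_norm (txg_4.enc h1.l h2.l h3)) (pr_norm (pr_addc (pr_scaleT 110669 1000000 h1) (enc_rat _ 11918369 10000000))))) (pr_mA (pr_cmul (enc_norm (txg_302.enc h1.l h2.l h3)) (pr_norm (pr_mul (pr_norm (txg_251_sf.snd h1 h2 h3)) (pr_norm (txg_303_sf.snd h1 h2 h3))))) (pr_const (txg_302.enc h1.l h2.l h3)) (txg_251_sf.snd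 h1 h2 h3) (txg_303_sf.snd h1 h2 h3) rfl rfl)) (pr_case (txg_308_sf.snd h1 h2 h3) (pr_add (pr_add (pr_csub (enc_rat _ 1468841 6250000) (pr_scaleT 71957 500000 h1)) (pr_cmul (enc_norm (txg_4.enc h1.l h2.l h3)) (pr_norm (pr_csub (enc_rat _ 6827597 5000000) (pr_scaleT 406539 250000 h1))))) (pr_mA (pr_cmul (enc_norm (txg_322.enc h1.l h2.l h3)) (pr_norm (pr_mul (pr_norm (txg_290_sf.snd h1 h2 h3)) (pr_norm (txg_323_sf.snd h1 h2 h3))))) (pr_const (txg_322.enc h1.l h2.l h3)) (txg_290_sf.snd h1 h2 h3) (txg_323_sf.snd h1 h2 h3) rfl rfl)) (pr_add (pr_add (pr_csub (enc_rat _ 25200617 100000000) (pr_scaleT 1285957 5000000 h1)) (pr_cmul (enc_norm (txg_4.enc h1.l h2.l h3)) (pr_norm (pr_csub (enc_rat _ 1642933 1000000) (pr_scaleT 173779 50000 h1))))) (pr_mA (pr_cmul (enc_norm (txg_341.enc h1.l h2.l h3)) (pr_norm (pr_mul (pr_norm (txg_308_sf.snd h1 h2 h3)) (pr_norm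 (txg_342_sf.snd h1 h2 h3))))) (pr_const (txg_341.enc h1.l h2.l h3)) (txg_308_sf.snd h1 h2 h3) (txg_342_sf.snd h1 h2 h3) rfl rfl))))) (pr_case (txg_350_sf.snd h1 h2 h3) (pr_case (txg_351_sf.snd h1 h2 h3) (pr_add (pr_add (pr_csub (enc_rat _ 5571233 20000000) (pr_scaleT 487461 1250000 h1)) (pr_cmul (enc_norm (txg_4.enc h1.l h2.l h3)) (pr_norm (pr_csub (enc_rat _ 9155591 5000000) (pr_scaleT 2208253 500000 h1))))) (pr_mA (pr_cmul (enc_norm (txg_365.enc h1.l h2.l h3)) (pr_norm (pr_mul (pr_norm (txg_248_sf.snd h1 h2 h3)) (pr_norm (txg_366_sf.snd h1 h2 h3))))) (pr_const (txg_365.enc h1.l h2.l h3)) (txg_248_sf.snd h1 h2 h3) (txg_366_sf.snd h1 h2 h3) rfl rfl)) (pr_case (txg_371_sf.snd h1 h2 h3) (pr_add (pr_add (pr_csub (enc_rat _ 6329821 20000000) (pr_scaleT 169277 312500 h1)) (pr_cmul (enc_norm (txg_4.enc h1.l h2.l h3)) (pr_norm (pr_csub (enc_rat _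 18357867 10000000) (pr_scaleT 221759 50000 h1))))) (pr_mA (pr_cmul (enc_norm (txg_385.enc h1.l h2.l h3)) (pr_norm (pr_mul (pr_norm (txg_351_sf.snd h1 h2 h3)) (pr_norm (txg_386_sf.snd h1 h2 h3))))) (pr_const (txg_385.enc h1.l h2.l h3)) (txg_351_sf.snd h1 h2 h3) (txg_386_sf.snd h1 h2 h3) rfl rfl)) (pr_add (pr_add (pr_csub (enc_rat _ 35291063 100000000) (pr_scaleT 132617 200000 h1)) (pr_cmul (enc_norm (txg_4.enc h1.l h2.l h3)) (pr_norm (pr_csub (enc_rat _ 18282347 10000000) (pr_scaleT 661501 150000 h1))))) (pr_mA (pr_cmul (enc_norm (txg_406.enc h1.l h2.l h3)) (pr_norm (pr_mul (pr_norm (txg_371_sf.snd h1 h2 h3)) (pr_norm (txg_407_sf.snd h1 h2 h3))))) (pr_const (txg_406.enc h1.l h2.l h3)) (txg_371_sf.snd h1 h2 h3) (txg_407_sf.snd h1 h2 h3) rfl rfl)))) (pr_case (txg_414_sf.snd h1 h2 h3) (pr_add (pr_add (pr_csub (enc_rat _ 9782667 25000000) (pr_scaleT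 233831 300000 h1)) (pr_cmul (enc_norm (txg_4.enc h1.l h2.l h3)) (pr_norm (pr_csub (enc_rat _ 4529103 2500000) (pr_scaleT 1307917 300000 h1))))) (pr_mA (pr_cmul (enc_norm (txg_430.enc h1.l h2.l h3)) (pr_norm (pr_mul (pr_norm (txg_350_sf.snd h1 h2 h3)) (pr_norm (txg_431_sf.snd h1 h2 h3))))) (pr_const (txg_430.enc h1.l h2.l h3)) (txg_350_sf.snd h1 h2 h3) (txg_431_sf.snd h1 h2 h3) rfl rfl)) (pr_case (txg_436_sf.snd h1 h2 h3) (pr_add (pr_add (pr_csub (enc_rat _ 9685803 25000000) (pr_scaleT 384337 500000 h1)) (pr_cmul (enc_norm (txg_4.enc h1.l h2.l h3)) (pr_norm (pr_csub (enc_rat _ 469101 400000) (pr_scaleT 1034013 400000 h1))))) (pr_mA (pr_cmul (enc_norm (txg_453.enc h1.l h2.l h3)) (pr_norm (pr_mul (pr_norm (txg_414_sf.snd h1 h2 h3)) (pr_norm (txg_454_sf.snd h1 h2 h3))))) (pr_const (txg_453.enc h1.l h2.l h3)) (txg_414_sf.snd h1 h2 h3) (txg_454_sf.snd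 h1 h2 h3) rfl rfl)) (pr_add (pr_add (pr_add (pr_csub (enc_rat _ 12450306063931 34290000000000) (pr_scaleT 9708391253131 13716000000000 h1)) (pr_cmul (enc_norm (txg_4.enc h1.l h2.l h3)) (pr_norm (pr_csub (enc_rat _ 631934261897 1143000000000) (pr_scaleT 473355013397 457200000000 h1))))) (pr_cmul (txg_473.enc h1.l h2.l h3) (pr_norm (pr_subr 67222079 18750000 (pr_scaleT 67222079 7500000 h1))))) (pr_mA (pr_cmul (enc_norm (txg_484.enc h1.l h2.l h3)) (pr_norm (pr_mul (pr_norm (txg_436_sf.snd h1 h2 h3)) (pr_norm (txg_485_sf.snd h1 h2 h3))))) (pr_const (txg_484.enc h1.l h2.l h3)) (txg_436_sf.snd h1 h2 h3) (txg_485_sf.snd h1 h2 h3) rfl rfl))))))) (pr_case (txg_496_sf.snd h1 h2 h3) (pr_sub (pr_mul (pr_norm (pr_csub (enc_pnc _ 1) h2)) (pr_norm (pr_subn 1 (pr_nat 2 h2)))) (pr_mul (pr_norm (pr_nat 2 (pr_subc (pr_scaleT 4 3 (txg_6_sf.snd h1 h2 h3)) h3)))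 (pr_norm (pr_mul (pr_norm (pr_subn 1 (pr_add (pr_scaleT 2 3 (txg_6_sf.snd h1 h2 h3)) h2))) (kcg_sf.snd h1 h3))))) (pr_case (txg_497_sf.snd h1 h2 h3) (pr_add (pr_add (pr_add (pr_csub (enc_rat _ 78098878919770189129 185267545360000000000) (pr_scaleT 155777627045733 185267545360000 h1)) (pr_cmul (enc_norm (txg_4.enc h1.l h2.l h3)) (pr_norm (pr_csub (enc_rat _ 93204169611407869 115792215850000000) (pr_scaleT 187208657113 115792215850 h1))))) (pr_cmul (txg_473.enc h1.l h2.l h3) (pr_norm (pr_csub (enc_rat _ 124122865269117 18229253125000) (pr_scaleT 2109977672 145834025 h1))))) (pr_mA (pr_cmul (enc_norm (txg_522.enc h1.l h2.l h3)) (pr_norm (pr_mul (pr_norm (txg_496_sf.snd h1 h2 h3)) (pr_norm (txg_523_sf.snd h1 h2 h3))))) (pr_const (txg_522.enc h1.l h2.l h3)) (txg_496_sf.snd h1 h2 h3) (txg_523_sf.snd h1 h2 h3) rfl rfl)) (pr_case (txg_528_sf.snd h1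 h2 h3) (pr_add (pr_add (pr_csub (enc_rat _ 5190341629 11754400000) (pr_scaleT 1297927 1469300 h1)) (pr_cmul (enc_norm (txg_4.enc h1.l h2.l h3)) (pr_norm (pr_csub (enc_rat _ 1024328593 1147890625) (pr_scaleT 132424 73465 h1))))) (pr_mA (pr_cmul (enc_norm (txg_542.enc h1.l h2.l h3)) (pr_norm (pr_mul (pr_norm (txg_497_sf.snd h1 h2 h3)) (pr_norm (txg_543_sf.snd h1 h2 h3))))) (pr_const (txg_542.enc h1.l h2.l h3)) (txg_497_sf.snd h1 h2 h3) (txg_543_sf.snd h1 h2 h3) rfl rfl)) (pr_add (pr_add (pr_csub (enc_rat _ 428797 979600) (pr_scaleT 428797 489800 h1)) (pr_cmul (enc_norm (txg_4.enc h1.l h2.l h3)) (pr_norm (pr_csub (enc_rat _ 21964 36735) (pr_scaleT 43928 36735 h1))))) (pr_mA (pr_cmul (enc_norm (txg_564.enc h1.l h2.l h3)) (pr_norm (pr_mul (pr_norm (txg_528_sf.snd h1 h2 h3)) (pr_norm (txg_565_sf.snd h1 h2 h3))))) (pr_const (txg_564.enc h1.l h2.l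 h3)) (txg_528_sf.snd h1 h2 h3) (txg_565_sf.snd h1 h2 h3) rfl rfl))))))⟩
noncomputable def l0q0_sf : Sl2 l0q0 := ⟨_, fun h1 h2 => (pr_norm (txg_sf.snd (pr_norm (pr_sub (pr_scaleT 3 4 h1) (pr_half (c1g_sf.snd h1)))) (pr_nd (c1g_sf.snd h1)) h2))⟩
noncomputable def swg_sf : Sl1 swg := ⟨_, fun h1 => (pr_sqrt (pr_csub (enc_pnc _ 1) (pr_scaleT 3 4 (pr_sq (pr_norm (pr_subn 1 h1))))))⟩
noncomputable def cv1m_sf : Sl1 cv1m := ⟨_, fun h1 => (pr_norm (pr_add (pr_scaleT 4 5 (c1g_sf.snd h1)) (pr_scaleT 1 5 (pr_addc (swg_sf.snd h1) (enc_rat _ 1 2)))))⟩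
noncomputable def bf1q0_20_sf : Sl2 bf1q0_20 := ⟨_, fun h1 h2 => (pr_scaleT 39 20 h1)⟩
noncomputable def bf1q0_23_sf : Sl2 bf1q0_23 := ⟨_, fun h1 h2 => (pr_csub (enc_rat _ 200001 200000) (bf1q0_20_sf.snd h1 h2))⟩
noncomputable def bf1q0_73_sf : Sl2 bf1q0_73 := ⟨_, fun h1 h2 => (pr_csub (enc_rat _ 100001 100000) (bf1q0_20_sf.snd h1 h2))⟩
noncomputable def bf1q0_82_sf : Sl2 bf1q0_82 := ⟨_, fun h1 h2 => (pr_scaleT 839 100 h1)⟩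
noncomputable def bf1q0_sf : Sl2 bf1q0 := ⟨_, fun h1 h2 => (pr_norm (pr_case (pr_subr 11 200 h1) (pr_case (pr_subr 49 2000 h1) (pr_case (pr_subr 67 10000 h1) (pr_add (pr_csub (enc_pnc _ 1) (pr_scaleT 653 335 h1)) (pr_cmul (enc_norm (bf1q0_3.enc h1.l h2)) (pr_nd (pr_scaleT 562 67 h1)))) (pr_case (pr_subr 31 2000 h1) (pr_add (bf1q0_23_sf.snd h1 h2) (pr_cmul (enc_norm (bf1q0_3.enc h1.l h2)) (pr_norm (pr_addc (pr_scaleT 369 44 h1) (enc_rat _ 1 88000))))) (pr_add (bf1q0_23_sf.snd h1 h2) (pr_cmul (enc_norm (bf1q0_3.enc h1.l h2)) (pr_norm (pr_subr 1 5000 (pr_scaleT 42 5 h1))))))) (pr_case (pr_subr 303 10000 h1) (pr_add (bf1q0_23_sf.snd h1 h2) (pr_cmul (enc_norm (bf1q0_3.enc h1.l h2)) (pr_norm (pr_addc (pr_scaleT 243 29 h1) (enc_rat _ 89 290000))))) (pr_case (pr_subr 1 25 h1) (pr_add (pr_csub (enc_rat _ 48501 48500) (pr_scaleT 946 485 h1)) (pr_cmul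 (enc_norm (bf1q0_3.enc h1.l h2)) (pr_norm (pr_subr 17 242500 (pr_scaleT 814 97 h1))))) (pr_add (pr_csub (enc_rat _ 37499 37500) (pr_scaleT 731 375 h1)) (pr_cmul (enc_norm (bf1q0_3.enc h1.l h2)) (pr_norm (pr_addc (pr_scaleT 629 75 h1) (enc_rat _ 1 7500)))))))) (pr_case (pr_subr 4 25 h1) (pr_case (pr_subr 7 100 h1) (pr_add (bf1q0_73_sf.snd h1 h2) (pr_cmul (enc_norm (bf1q0_3.enc h1.l h2)) (pr_norm (pr_subr 7 30000 (pr_scaleT 1259 150 h1))))) (pr_case (pr_subr 1 10 h1) (pr_add (bf1q0_73_sf.snd h1 h2) (pr_cmul (enc_norm (bf1q0_3.enc h1.l h2)) (pr_nd (bf1q0_82_sf.snd h1 h2)))) (pr_add (pr_csub (enc_rat _ 149999 150000) (pr_scaleT 11699 6000 h1)) (pr_cmul (enc_norm (bf1q0_3.enc h1.l h2)) (pr_norm (pr_addc (pr_scaleT 5033 600 h1) (enc_rat _ 1 6000))))))) (pr_case (pr_subr 1 4 h1) (pr_add (pr_csub (enc_rat _ 450001 450000) (pr_scaleT 17549 9000 h1))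 (pr_cmul (enc_norm (bf1q0_3.enc h1.l h2)) (pr_norm (pr_subr 1 10000 (bf1q0_82_sf.snd h1 h2))))) (pr_case (pr_subr 7 20 h1) (pr_add (pr_csub (enc_rat _ 200001 200000) (pr_scaleT 19499 10000 h1)) (pr_cmul (enc_norm (bf1q0_3.enc h1.l h2)) (pr_norm (pr_addc (pr_scaleT 8389 1000 h1) (enc_rat _ 3 20000))))) (pr_add (pr_csub (enc_rat _ 149999 150000) (pr_scaleT 3656 1875 h1)) (pr_cmul (enc_norm (bf1q0_3.enc h1.l h2)) (pr_norm (pr_subr 1 5000 (bf1q0_82_sf.snd h1 h2))))))))))⟩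
noncomputable def kf1q0_sf : Sl2 kf1q0 := ⟨_, fun h1 h2 => (pr_norm (pr_mul (cv1m_sf.snd h1) (bf1q0_sf.snd h1 h2)))⟩
noncomputable def bx1q0_31_sf : Sl2 bx1q0_31 := ⟨_, fun h1 h2 => (pr_scaleT 2 5 h1)⟩
noncomputable def bx1q0_69_sf : Sl2 bx1q0_69 := ⟨_, fun h1 h2 => (pr_cmul (enc_norm (bx1q0_3.enc h1.l h2)) (pr_norm (pr_subr 7 2000 (bx1q0_31_sf.snd h1 h2))))⟩
noncomputable def bx1q0_95_sf : Sl2 bx1q0_95 := ⟨_, fun h1 h2 => (pr_cmul (enc_norm (bx1q0_3.enc h1.l h2)) (pr_norm (pr_subr 23 6000 (pr_scaleT 121 300 h1))))⟩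
noncomputable def bx1q0_sf : Sl2 bx1q0 := ⟨_, fun h1 h2 => (pr_norm (pr_case (pr_subr 11 200 h1) (pr_case (pr_subr 49 2000 h1) (pr_case (pr_subr 67 10000 h1) (pr_add (pr_scaleT 231 670 h1) (pr_cmul (enc_norm (bx1q0_3.enc h1.l h2)) (pr_nd (pr_scaleT 12 67 h1)))) (pr_case (pr_subr 31 2000 h1) (pr_add (pr_subr 103 550000 (pr_scaleT 41 110 h1)) (pr_cmul (enc_norm (bx1q0_3.enc h1.l h2)) (pr_norm (pr_subr 1 55000 (pr_scaleT 2 11 h1))))) (pr_add (pr_subr 59 300000 (pr_scaleT 28 75 h1)) (pr_cmul (enc_norm (bx1q0_3.enc h1.l h2)) (pr_norm (pr_subr 17 5000 (bx1q0_31_sf.snd h1 h2))))))) (pr_case (pr_subr 303 10000 h1) (pr_add (pr_subr 101 580000 (pr_scaleT 54 145 h1)) (pr_cmul (enc_norm (bx1q0_3.enc h1.l h2)) (pr_norm (pr_subr 839 290000 (pr_scaleT 11 29 h1))))) (pr_case (pr_subr 1 25 h1) (pr_add (pr_subr 101 606250 (pr_scaleT 361 970 h1)) (pr_cmul (enc_norm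 (bx1q0_3.enc h1.l h2)) (pr_norm (pr_subr 139 38800 (pr_scaleT 39 97 h1))))) (pr_add (pr_addc (pr_scaleT 523 1500 h1) (enc_rat _ 29 37500)) (bx1q0_69_sf.snd h1 h2))))) (pr_case (pr_subr 4 25 h1) (pr_case (pr_subr 7 100 h1) (pr_add (pr_addc (pr_scaleT 437 1500 h1) (enc_rat _ 589 150000)) (bx1q0_69_sf.snd h1 h2)) (pr_case (pr_subr 1 10 h1) (pr_add (pr_addc (pr_scaleT 851 3000 h1) (enc_rat _ 1339 300000)) (bx1q0_69_sf.snd h1 h2)) (pr_add (pr_addc (pr_scaleT 169 600 h1) (enc_rat _ 1399 300000)) (bx1q0_95_sf.snd h1 h2)))) (pr_case (pr_subr 1 4 h1) (pr_add (pr_addc (pr_scaleT 2519 9000 h1) (enc_rat _ 4453 900000)) (bx1q0_95_sf.snd h1 h2)) (pr_case (pr_subr 7 20 h1) (pr_add (pr_addc (pr_scaleT 1379 5000 h1) (enc_rat _ 597 100000)) (pr_cmul (enc_norm (bx1q0_3.enc h1.l h2)) (pr_norm (pr_subr 3 800 (pr_scaleT 403 1000 h1))))) (pr_add (pr_addc (pr_scaleT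 277 1250 h1) (enc_rat _ 1247 50000)) (pr_cmul (enc_norm (bx1q0_3.enc h1.l h2)) (pr_norm (pr_subr 109 30000 (pr_scaleT 151 375 h1))))))))))⟩
noncomputable def l1q0_sf : Sl2 l1q0 := ⟨_, fun h1 h2 => (pr_norm (pr_mul (cv1m_sf.snd h1) (bx1q0_sf.snd h1 h2)))⟩
noncomputable def cv2m_sf : Sl1 cv2m := ⟨_, fun h1 => (pr_norm (pr_add (pr_scaleT 2 5 (c1g_sf.snd h1)) (pr_scaleT 3 5 (pr_addc (swg_sf.snd h1) (enc_rat _ 1 2)))))⟩
noncomputable def bf2q0_66_sf : Sl2 bf2q0_66 := ⟨_, fun h1 h2 => (pr_scaleT 281 125 h1)⟩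
noncomputable def bf2q0_69_sf : Sl2 bf2q0_69 := ⟨_, fun h1 h2 => (pr_csub (enc_rat _ 25109 25000) (bf2q0_66_sf.snd h1 h2))⟩
noncomputable def bf2q0_82_sf : Sl2 bf2q0_82 := ⟨_, fun h1 h2 => (pr_scaleT 5021 200 h1)⟩
noncomputable def bf2q0_sf : Sl2 bf2q0 := ⟨_, fun h1 h2 => (pr_norm (pr_case (pr_subr 1 25 h1) (pr_case (pr_subr 31 2000 h1) (pr_case (pr_subr 67 10000 h1) (pr_add (pr_csub (enc_pnc _ 1) (pr_scaleT 659 335 h1)) (pr_cmul (enc_norm (bf2q0_3.enc h1.l h2)) (pr_nd (pr_scaleT 1693 67 h1)))) (pr_add (pr_csub (enc_rat _ 8799993 8800000) (pr_scaleT 1731 880 h1)) (pr_cmul (enc_norm (bf2q0_3.enc h1.l h2)) (pr_norm (pr_addc (pr_scaleT 2223 88 h1) (enc_rat _ 43 880000)))))) (pr_case (pr_subr 49 2000 h1) (pr_add (pr_csub (enc_rat _ 1807831 1800000) (pr_scaleT 2023 900 h1)) (pr_cmul (enc_norm (bf2q0_3.enc h1.l h2)) (pr_norm (pr_addc (pr_scaleT 226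 9 h1) (enc_rat _ 107 45000))))) (pr_case (pr_subr 303 10000 h1) (pr_add (pr_csub (enc_rat _ 728163 725000) (pr_scaleT 326 145 h1)) (pr_cmul (enc_norm (bf2q0_3.enc h1.l h2)) (pr_norm (pr_addc (pr_scaleT 728 29 h1) (enc_rat _ 93 36250))))) (pr_add (pr_csub (enc_rat _ 2435517 2425000) (pr_scaleT 218 97 h1)) (pr_cmul (enc_norm (bf2q0_3.enc h1.l h2)) (pr_norm (pr_addc (pr_scaleT 2435 97 h1) (enc_rat _ 2499 970000)))))))) (pr_case (pr_subr 4 25 h1) (pr_case (pr_subr 7 100 h1) (pr_add (bf2q0_69_sf.snd h1 h2) (pr_cmul (enc_norm (bf2q0_3.enc h1.l h2)) (pr_norm (pr_addc (pr_scaleT 1883 75 h1) (enc_rat _ 73 30000))))) (pr_case (pr_subr 1 10 h1) (pr_add (bf2q0_69_sf.snd h1 h2) (pr_cmul (enc_norm (bf2q0_3.enc h1.l h2)) (pr_norm (pr_addc (pr_scaleT 7531 300 h1) (enc_rat _ 1 375))))) (pr_add (bf2q0_69_sf.snd h1 h2) (pr_cmul (enc_norm (bf2q0_3.enc h1.l h2))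 (pr_norm (pr_addc (bf2q0_82_sf.snd h1 h2) (enc_rat _ 1 400))))))) (pr_case (pr_subr 1 4 h1) (pr_add (pr_csub (enc_rat _ 225977 225000) (pr_scaleT 20231 9000 h1)) (pr_cmul (enc_norm (bf2q0_3.enc h1.l h2)) (pr_norm (pr_addc (pr_scaleT 11297 450 h1) (enc_rat _ 233 90000))))) (pr_case (pr_subr 7 20 h1) (pr_add (pr_csub (enc_rat _ 100437 100000) (bf2q0_66_sf.snd h1 h2)) (pr_cmul (enc_norm (bf2q0_3.enc h1.l h2)) (pr_norm (pr_addc (bf2q0_82_sf.snd h1 h2) (enc_rat _ 49 20000))))) (pr_add (pr_csub (enc_rat _ 37663 37500) (pr_scaleT 33719 15000 h1)) (pr_cmul (enc_norm (bf2q0_3.enc h1.l h2)) (pr_norm (pr_addc (pr_scaleT 37657 1500 h1) (enc_rat _ 77 30000))))))))))⟩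
noncomputable def kf2q0_sf : Sl2 kf2q0 := ⟨_, fun h1 h2 => (pr_norm (pr_mul (cv2m_sf.snd h1) (bf2q0_sf.snd h1 h2)))⟩
noncomputable def bx2q0_sf : Sl2 bx2q0 := ⟨_, fun h1 h2 => (pr_norm (pr_case (pr_subr 11 200 h1) (pr_case (pr_subr 49 2000 h1) (pr_case (pr_subr 67 10000 h1) (pr_add (pr_scaleT 53 67 h1) (pr_cmul (enc_norm (bx2q0_3.enc h1.l h2)) (pr_nd (pr_scaleT 131 67 h1)))) (pr_case (pr_subr 31 2000 h1) (pr_add (pr_addc (pr_scaleT 87 110 h1) (enc_rat _ 1 1100000)) (pr_cmul (enc_norm (bx2q0_3.enc h1.l h2)) (pr_norm (pr_subr 63 880000 (pr_scaleT 173 88 h1))))) (pr_add (pr_addc (pr_scaleT 689 900 h1) (enc_rat _ 709 1800000)) (pr_cmul (enc_norm (bx2q0_3.enc h1.l h2)) (pr_norm (pr_subr 6649 180000 (pr_scaleT 391 90 h1))))))) (pr_case (pr_subr 303 10000 h1) (pr_add (pr_addc (pr_scaleT 209 290 h1) (enc_rat _ 433 290000)) (pr_cmul (enc_norm (bx2q0_3.enc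 h1.l h2)) (pr_norm (pr_subr 2143 58000 (pr_scaleT 126 29 h1))))) (pr_case (pr_subr 1 25 h1) (pr_add (pr_addc (pr_scaleT 70 97 h1) (enc_rat _ 14201 9700000)) (pr_cmul (enc_norm (bx2q0_3.enc h1.l h2)) (pr_norm (pr_addc (pr_scaleT 20 97 h1) (enc_rat _ 85799 970000))))) (pr_add (pr_addc (pr_scaleT 467 750 h1) (enc_rat _ 1627 300000)) (pr_cmul (enc_norm (bx2q0_3.enc h1.l h2)) (pr_norm (pr_addc (pr_scaleT 29 150 h1) (enc_rat _ 2669 30000)))))))) (pr_case (pr_subr 4 25 h1) (pr_case (pr_subr 7 100 h1) (pr_add (pr_addc (pr_scaleT 463 750 h1) (enc_rat _ 343 60000)) (pr_cmul (enc_norm (bx2q0_3.enc h1.l h2)) (pr_norm (pr_addc (pr_scaleT 9 50 h1) (enc_rat _ 897 10000))))) (pr_case (pr_subr 1 10 h1) (pr_add (pr_addc (pr_scaleT 1663 3000 h1) (enc_rat _ 1519 150000)) (pr_cmul (enc_norm (bx2q0_3.enc h1.l h2)) (pr_norm (pr_addc (pr_scaleT 53 300 h1) (enc_rat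 _ 1349 15000))))) (pr_add (pr_csub (enc_rat _ 19733 300000) (pr_scaleT 13 6000 h1)) (pr_cmul (enc_norm (bx2q0_3.enc h1.l h2)) (pr_norm (pr_addc (pr_scaleT 17 100 h1) (enc_rat _ 453 5000))))))) (pr_case (pr_subr 1 4 h1) (pr_add (pr_csub (enc_rat _ 6751 100000) (pr_scaleT 13 1000 h1)) (pr_cmul (enc_norm (bx2q0_3.enc h1.l h2)) (pr_norm (pr_addc (pr_scaleT 1 6 h1) (enc_rat _ 1367 15000))))) (pr_case (pr_subr 7 20 h1) (pr_add (pr_csub (enc_rat _ 13517 200000) (pr_scaleT 133 10000 h1)) (pr_cmul (enc_norm (bx2q0_3.enc h1.l h2)) (pr_norm (pr_addc (pr_scaleT 41 250 h1) (enc_rat _ 459 5000))))) (pr_add (pr_csub (enc_rat _ 20279 300000) (pr_scaleT 1 75 h1)) (pr_cmul (enc_norm (bx2q0_3.enc h1.l h2)) (pr_norm (pr_addc (pr_scaleT 81 500 h1) (enc_rat _ 37 400))))))))))⟩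
noncomputable def l2q0_sf : Sl2 l2q0 := ⟨_, fun h1 h2 => (pr_norm (pr_mul (cv2m_sf.snd h1) (bx2q0_sf.snd h1 h2)))⟩
noncomputable def kf0q1_10_sf : Sl2 kf0q1_10 := ⟨_, fun h1 h2 => (pr_scaleT 3 2 h1)⟩
noncomputable def kf0q1_sf : Sl2 kf0q1 := ⟨_, fun h1 h2 => (pr_norm (pr_add (pr_mul (pr_norm (pr_mul (pr_norm (pr_cadd (enc_pnc _ 1) (pr_nat 2 (c1g_sf.snd h1)))) (pr_norm (pr_sub (kf0q1_10_sf.snd h1 h2) (c1g_sf.snd h1))))) (pr_nd (pr_inv (pr_nat 2 (pr_sub (pr_cadd (enc_pnc _ 1) (kf0q1_10_sf.snd h1 h2)) (c1g_sf.snd h1)))))) (pr_mul (pr_norm (pr_subn 1 h1)) (kcg_sf.snd (pr_norm (pr_sub (pr_scaleT 3 4 h1) (pr_half (c1g_sf.snd h1)))) h2))))⟩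
noncomputable def l0q1_sf : Sl2 l0q1 := ⟨_, fun h1 h2 => (pr_norm (txg_sf.snd (pr_norm (pr_sub (pr_scaleT 3 4 h1) (pr_half (c1g_sf.snd h1)))) (pr_nd (c1g_sf.snd h1)) h2))⟩
noncomputable def cv2p_sf : Sl1 cv2p := ⟨_, fun h1 => (pr_norm (pr_add (pr_scaleT 2 5 (c1g_sf.snd h1)) (pr_scaleT 3 5 (pr_subr 1 2 (swg_sf.snd h1)))))⟩
noncomputable def bf2q2_33_sf : Sl2 bf2q2_33 := ⟨_, fun h1 h2 => (pr_csub (enc_rat _ 326601 175000) (pr_scaleT 758 875 h1))⟩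
noncomputable def bf2q2_sf : Sl2 bf2q2 := ⟨_, fun h1 h2 => (pr_norm (pr_case (pr_subr 109 100 h1) (pr_case (pr_subr 10303 10000 h1) (pr_add (pr_csub (enc_rat _ 377 202) (pr_scaleT 175 202 h1)) (pr_cmul (enc_norm (bf2q2_3.enc h1.l h2)) (pr_norm (pr_subr 13341 101 (pr_scaleT 13341 101 h1))))) (pr_case (pr_subr 211 200 h1) (pr_add (pr_csub (enc_rat _ 23044871 12350000) (pr_scaleT 2139 2470 h1)) (pr_cmul (enc_norm (bf2q2_3.enc h1.l h2)) (pr_norm (pr_subr 326259997 2470000 (pr_scaleT 32626 247 h1))))) (pr_add (bf2q2_33_sf.snd h1 h2) (pr_cmul (enc_norm (bf2q2_3.enc h1.l h2)) (pr_norm (pr_subr 4623099 35000 (pr_scaleT 46231 350 h1))))))) (pr_case (pr_subr 29 25 h1) (pr_add (bf2q2_33_sf.snd h1 h2) (pr_cmul (enc_norm (bf2q2_3.enc h1.l h2)) (pr_norm (pr_subr 1320901 10000 (pr_scaleT 13209 100 h1))))) (pr_case (pr_subr 13 10 h1) (pr_add (bf2q2_33_sf.snd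 h1 h2) (pr_cmul (enc_norm (bf2q2_3.enc h1.l h2)) (pr_norm (pr_subr 9246249 70000 (pr_scaleT 7397 56 h1))))) (pr_add (pr_csub (enc_rat _ 373249 200000) (pr_scaleT 693 800 h1)) (pr_cmul (enc_norm (bf2q2_3.enc h1.l h2)) (pr_norm (pr_subr 1320889 10000 (pr_scaleT 132089 1000 h1)))))))))⟩
noncomputable def kf2q2_sf : Sl2 kf2q2 := ⟨_, fun h1 h2 => (pr_norm (pr_mul (cv2p_sf.snd h1) (bf2q2_sf.snd h1 h2)))⟩
noncomputable def bx2q2_sf : Sl2 bx2q2 := ⟨_, fun h1 h2 => (pr_norm (pr_case (pr_subr 109 100 h1) (pr_case (pr_subr 10303 10000 h1) (pr_add (pr_csub (enc_rat _ 284 303) (pr_scaleT 284 303 h1)) (pr_cmul (enc_norm (bx2q2_3.enc h1.l h2)) (pr_norm (pr_subr 543 101 (pr_scaleT 543 101 h1))))) (pr_case (pr_subr 211 200 h1) (pr_add (pr_csub (enc_rat _ 5790067 6175000) (pr_scaleT 1158 1235 h1)) (pr_cmul (enc_norm (bx2q2_3.enc h1.l h2)) (pr_norm (pr_subr 6634859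 1235000 (pr_scaleT 1327 247 h1))))) (pr_add (pr_csub (enc_rat _ 163997 175000) (pr_scaleT 164 175 h1)) (pr_cmul (enc_norm (bx2q2_3.enc h1.l h2)) (pr_norm (pr_subr 187783 35000 (pr_scaleT 939 175 h1))))))) (pr_case (pr_subr 29 25 h1) (pr_add (pr_csub (enc_rat _ 328103 350000) (pr_scaleT 3281 3500 h1)) (pr_cmul (enc_norm (bx2q2_3.enc h1.l h2)) (pr_norm (pr_subr 375021 70000 (pr_scaleT 3751 700 h1))))) (pr_case (pr_subr 13 10 h1) (pr_add (pr_subr 604943 350000 (pr_scaleT 381 280 h1)) (pr_cmul (enc_norm (bx2q2_3.enc h1.l h2)) (pr_norm (pr_addc (pr_scaleT 101 280 h1) (enc_rat _ 6161 14000))))) (pr_add (pr_subr 43213 25000 (pr_scaleT 1701 1250 h1)) (pr_cmul (enc_norm (bx2q2_3.enc h1.l h2)) (pr_norm (pr_addc (pr_scaleT 89 250 h1) (enc_rat _ 2231 5000)))))))))⟩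
noncomputable def l2q2_sf : Sl2 l2q2 := ⟨_, fun h1 h2 => (pr_norm (pr_mul (cv2p_sf.snd h1) (bx2q2_sf.snd h1 h2)))⟩
noncomputable def dlg : Fn2 := ⟨_, _, fun h1 h2 => (kcg.enc (enc_norm (enc_sub (enc_scaleT 3 4 h1) (enc_half (c1g.enc h1)))) h2)⟩
noncomputable def kq02_6 : Fn2 := ⟨_, _, fun h1 h2 => (enc_scaleT 4331 2500 h2)⟩
noncomputable def kq02 : Fn2 := ⟨_, _, fun h1 h2 => (enc_norm (enc_add (enc_sub (enc_rat _ 2213983 400000) (kq02_6.enc h1 h2)) (enc_mul (enc_norm (enc_subr 1813983 400000 (kq02_6.enc h1 h2))) (yag.enc h1))))⟩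
noncomputable def lq02 : Fn2 := ⟨_, _, fun h1 h2 => (enc_norm (enc_sub (enc_neg (enc_rat _ 5003019 80000000)) (enc_scaleT 110669 500000 h2)))⟩
noncomputable def cq02 : Fn2 := ⟨_, _, fun h1 h2 => (enc_pnc _ 0)⟩
noncomputable def pcE0 : Piece := ⟨Fn3.sc eng rsbq0, rlq0⟩
noncomputable def pcE1 : Piece := ⟨Fn3.sc eng rsbq1, rlq1⟩
noncomputable def pcE2 : Piece := ⟨Fn3.sc eng rsbq2, rlq2⟩
noncomputable def pcE3 : Piece := ⟨Fn3.sc eng rsbq3, rlq3⟩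

end Pool.Agent.Strip051.G.I9500_9625.Tab
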