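import Pool.Agent.Strip051.G.I9500_9625.Tab
import Pool.Agent.Strip051.PB.C12G
import Pool.Agent.Strip051.PB.PairU
import Pool.Agent.Strip051.PB.PairB

/-! # Slopes of the tables near the lattice heights (generated) -/

set_option linter.all false

namespace Pool.Agent.Strip051.G.I9500_9625.Tab

open Pool.Agent.Strip051.PB

attribute [local irreducible] padd psub pneg pmul psq pinv psqrt psqrtg pabs pps pmax pmin pphi plam
  pcase phf pnat prat pscale pnorm pdc pnc pone ppos pnn Enc pbad pzero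

noncomputable def idf_s : Sl1 idf := ⟨fun _ _ D => D, fun h => h⟩

theorem cv1r_two {b : ℝ} (h : b = 2) : cv1r.v b = 0 := by
  have e : swg.v = swn := by funext y; simp [swg, swn]
  subst h
  simp only [cv1r, e, swn_two]
  push_cast
  ring
theorem cv2r_two {b : ℝ} (h : b = 2) : cv2r.v b = 0 := by
  have e : swg.v = swn := by funext y; simp [swg, swn]
  subst h
  simp only [cv2r, e, swn_two]
  push_cast
  ring
noncomputable def c1g_s : Sl1 c1g := ⟨_, fun h1 => (pr_sqrtgz (pr_csub (enc_pnc _ 1) (pr_scaleT 3 4 (pr_sq h1))))⟩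
noncomputable def kcg_6_s : Sl2 kcg_6 := ⟨_, fun h1 h2 => (pr_addc h1 (enc_rat _ 2 5))⟩
noncomputable def kcg_9_s : Sl2 kcg_9 := ⟨_, fun h1 h2 => (pr_addc h1 (enc_rat _ 470613 1000000))⟩
noncomputable def kcg_12_s : Sl2 kcg_12 := ⟨_, fun h1 h2 => (pr_addc h1 (enc_rat _ 242653 500000))⟩
noncomputable def kcg_13_s : Sl2 kcg_13 := ⟨_, fun h1 h2 => (pr_scaleT 175201067 14694000 h1)⟩
noncomputable def kcg_18_s : Sl2 kcg_18 := ⟨_, fun h1 h2 => (pr_scaleT 54095711 367350 h1)⟩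
noncomputable def kcg_34_s : Sl2 kcg_34 := ⟨_, fun h1 h2 => (pr_addc h1 (enc_rat _ 1 2))⟩
noncomputable def kcg_35_s : Sl2 kcg_35 := ⟨_, fun h1 h2 => (pr_csub (enc_neg (enc_rat _ 242653 500000)) h1)⟩
noncomputable def kcg_40_s : Sl2 kcg_40 := ⟨_, fun h1 h2 => (pr_scaleT 35039581 2938600 h1)⟩
noncomputable def kcg_45_s : Sl2 kcg_45 := ⟨_, fun h1 h2 => (pr_scaleT 216241677 1469300 h1)⟩
noncomputable def kcg_59_s : Sl2 kcg_59 := ⟨_, fun h1 h2 => (pr_csub (enc_neg (enc_rat _ 470613 1000000)) h1)⟩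
noncomputable def kcg_67_s : Sl2 kcg_67 := ⟨_, fun h1 h2 => (pr_addc h1 (enc_rat _ 181 397))⟩
noncomputable def kcg_68_s : Sl2 kcg_68 := ⟨_, fun h1 h2 => (pr_scaleT 8135674551 1458340250 h1)⟩
noncomputable def kcg_73_s : Sl2 kcg_73 := ⟨_, fun h1 h2 => (pr_scaleT 1452392343 30701900 h1)⟩
noncomputable def kcg_87_s : Sl2 kcg_87 := ⟨_, fun h1 h2 => (pr_csub (enc_neg (enc_rat _ 181 397)) h1)⟩
noncomputable def kcg_94_s : Sl2 kcg_94 := ⟨_, fun h1 h2 => (pr_addc h1 (enc_rat _ 107 254))⟩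
noncomputable def kcg_95_s : Sl2 kcg_95 := ⟨_, fun h1 h2 => (pr_scaleT 12731654623 6990000000 h1)⟩
noncomputable def kcg_99_s : Sl2 kcg_99 := ⟨_, fun h1 h2 => (pr_scaleT 9174547132073 174750000000 h1)⟩
noncomputable def kcg_111_s : Sl2 kcg_111 := ⟨_, fun h1 h2 => (pr_csub (enc_neg (enc_rat _ 107 254)) h1)⟩
noncomputable def kcg_116_s : Sl2 kcg_116 := ⟨_, fun h1 h2 => (pr_scaleT 7768736431 2700000000 h1)⟩
noncomputable def kcg_120_s : Sl2 kcg_120 := ⟨_, fun h1 h2 => (pr_scaleT 12636540259 270000000 h1)⟩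
noncomputable def kcg_130_s : Sl2 kcg_130 := ⟨_, fun h1 h2 => (pr_csub (enc_neg (enc_rat _ 2 5)) h1)⟩
noncomputable def kcg_140_s : Sl2 kcg_140 := ⟨_, fun h1 h2 => (pr_addc h1 (enc_rat _ 6 25))⟩
noncomputable def kcg_143_s : Sl2 kcg_143 := ⟨_, fun h1 h2 => (pr_addc h1 (enc_rat _ 9 25))⟩
noncomputable def kcg_144_s : Sl2 kcg_144 := ⟨_, fun h1 h2 => (pr_scaleT 1438887 500000 h1)⟩
noncomputable def kcg_148_s : Sl2 kcg_148 := ⟨_, fun h1 h2 => (pr_scaleT 1519177 50000 h1)⟩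
noncomputable def kcg_158_s : Sl2 kcg_158 := ⟨_, fun h1 h2 => (pr_csub (enc_neg (enc_rat _ 9 25)) h1)⟩
noncomputable def kcg_165_s : Sl2 kcg_165 := ⟨_, fun h1 h2 => (pr_addc h1 (enc_rat _ 8 25))⟩
noncomputable def kcg_166_s : Sl2 kcg_166 := ⟨_, fun h1 h2 => (pr_scaleT 359751 125000 h1)⟩
noncomputable def kcg_170_s : Sl2 kcg_170 := ⟨_, fun h1 h2 => (pr_scaleT 89857 10000 h1)⟩
noncomputable def kcg_180_s : Sl2 kcg_180 := ⟨_, fun h1 h2 => (pr_csub (enc_neg (enc_rat _ 8 25)) h1)⟩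
noncomputable def kcg_185_s : Sl2 kcg_185 := ⟨_, fun h1 h2 => (pr_scaleT 1439081 500000 h1)⟩
noncomputable def kcg_189_s : Sl2 kcg_189 := ⟨_, fun h1 h2 => (pr_scaleT 42799 25000 h1)⟩
noncomputable def kcg_200_s : Sl2 kcg_200 := ⟨_, fun h1 h2 => (pr_csub (enc_neg (enc_rat _ 6 25)) h1)⟩
noncomputable def kcg_209_s : Sl2 kcg_209 := ⟨_, fun h1 h2 => (pr_addc h1 (enc_rat _ 4 25))⟩
noncomputable def kcg_210_s : Sl2 kcg_210 := ⟨_, fun h1 h2 => (pr_scaleT 1439131 500000 h1)⟩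
noncomputable def kcg_214_s : Sl2 kcg_214 := ⟨_, fun h1 h2 => (pr_scaleT 5419 3125 h1)⟩
noncomputable def kcg_226_s : Sl2 kcg_226 := ⟨_, fun h1 h2 => (pr_csub (enc_neg (enc_rat _ 4 25)) h1)⟩
noncomputable def kcg_234_s : Sl2 kcg_234 := ⟨_, fun h1 h2 => (pr_scaleT 1439163 500000 h1)⟩
noncomputable def kcg_238_s : Sl2 kcg_238 := ⟨_, fun h1 h2 => (pr_scaleT 21693 12500 h1)⟩
noncomputable def kcg_252_s : Sl2 kcg_252 := ⟨_, fun h1 h2 => (pr_csub (enc_neg (enc_rat _ 2 25)) h1)⟩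
noncomputable def kcg_257_s : Sl2 kcg_257 := ⟨_, fun h1 h2 => (pr_scaleT 57567 20000 h1)⟩
noncomputable def kcg_261_s : Sl2 kcg_261 := ⟨_, fun h1 h2 => (pr_cmul (enc_norm (kcg_3.enc h1.l h2)) (pr_nd (pr_scaleT 4331 2500 h1)))⟩
noncomputable def kcg_269_s : Sl2 kcg_269 := ⟨_, fun h1 h2 => (pr_csub (enc_rat _ 2 5) h1)⟩
noncomputable def kcg_270_s : Sl2 kcg_270 := ⟨_, fun h1 h2 => (pr_csub (enc_rat _ 470613 1000000) h1)⟩
noncomputable def kcg_271_s : Sl2 kcg_271 := ⟨_, fun h1 h2 => (pr_csub (enc_rat _ 242653 500000) h1)⟩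
noncomputable def kcg_276_s : Sl2 kcg_276 := ⟨_, fun h1 h2 => (pr_csub (enc_rat _ 1 2) h1)⟩
noncomputable def kcg_277_s : Sl2 kcg_277 := ⟨_, fun h1 h2 => (pr_subr 242653 500000 h1)⟩
noncomputable def kcg_286_s : Sl2 kcg_286 := ⟨_, fun h1 h2 => (pr_subr 470613 1000000 h1)⟩
noncomputable def kcg_292_s : Sl2 kcg_292 := ⟨_, fun h1 h2 => (pr_csub (enc_rat _ 181 397) h1)⟩
noncomputable def kcg_297_s : Sl2 kcg_297 := ⟨_, fun h1 h2 => (pr_subr 181 397 h1)⟩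
noncomputable def kcg_302_s : Sl2 kcg_302 := ⟨_, fun h1 h2 => (pr_csub (enc_rat _ 107 254) h1)⟩
noncomputable def kcg_309_s : Sl2 kcg_309 := ⟨_, fun h1 h2 => (pr_subr 107 254 h1)⟩
noncomputable def kcg_320_s : Sl2 kcg_320 := ⟨_, fun h1 h2 => (pr_subr 2 5 h1)⟩
noncomputable def kcg_328_s : Sl2 kcg_328 := ⟨_, fun h1 h2 => (pr_csub (enc_rat _ 6 25) h1)⟩
noncomputable def kcg_329_s : Sl2 kcg_329 := ⟨_, fun h1 h2 => (pr_csub (enc_rat _ 9 25) h1)⟩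
noncomputable def kcg_336_s : Sl2 kcg_336 := ⟨_, fun h1 h2 => (pr_subr 9 25 h1)⟩
noncomputable def kcg_341_s : Sl2 kcg_341 := ⟨_, fun h1 h2 => (pr_csub (enc_rat _ 8 25) h1)⟩
noncomputable def kcg_348_s : Sl2 kcg_348 := ⟨_, fun h1 h2 => (pr_subr 8 25 h1)⟩
noncomputable def kcg_358_s : Sl2 kcg_358 := ⟨_, fun h1 h2 => (pr_subr 6 25 h1)⟩
noncomputable def kcg_365_s : Sl2 kcg_365 := ⟨_, fun h1 h2 => (pr_csub (enc_rat _ 4 25) h1)⟩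
noncomputable def kcg_371_s : Sl2 kcg_371 := ⟨_, fun h1 h2 => (pr_subr 4 25 h1)⟩
noncomputable def kcg_382_s : Sl2 kcg_382 := ⟨_, fun h1 h2 => (pr_subr 2 25 h1)⟩
noncomputable def kcg_s : Sl2 kcg := ⟨_, fun h1 h2 => (pr_norm (pr_case h1 (pr_case (kcg_6_s.snd h1 h2) (pr_case (kcg_9_s.snd h1 h2) (pr_case (kcg_12_s.snd h1 h2) (pr_add (pr_add (pr_subr 49995324588113 7347000000000 (pr_neg (kcg_13_s.snd h1 h2))) (pr_cmul (enc_norm (kcg_3.enc h1.l h2)) (pr_norm (pr_subr 26612537749117 367350000000 (pr_neg (kcg_18_s.snd h1 h2)))))) (pr_mA (pr_cmul (enc_norm (kcg_31.enc h1.l h2)) (pr_norm (pr_mul (pr_norm (kcg_34_s.snd h1 h2)) (pr_norm (kcg_35_s.snd h1 h2))))) (pr_const (kcg_31.enc h1.l h2)) (kcg_34_s.snd h1 h2) (kcg_35_s.snd h1 h2) rfl rfl)) (pr_add (pr_add (pr_subr 12498512028551 1836625000000 (pr_neg (kcg_40_s.snd h1 h2))) (pr_cmul (enc_norm (kcg_3.enc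 h1.l h2)) (pr_norm (pr_subr 1063815439237 14693000000 (pr_neg (kcg_45_s.snd h1 h2)))))) (pr_mA (pr_cmul (enc_norm (kcg_58.enc h1.l h2)) (pr_norm (pr_mul (pr_norm (kcg_12_s.snd h1 h2)) (pr_norm (kcg_59_s.snd h1 h2))))) (pr_const (kcg_58.enc h1.l h2)) (kcg_12_s.snd h1 h2) (kcg_59_s.snd h1 h2) rfl rfl))) (pr_case (kcg_67_s.snd h1 h2) (pr_add (pr_add (pr_subr 22277764067204563 5833361000000000 (pr_neg (kcg_68_s.snd h1 h2))) (pr_cmul (enc_norm (kcg_3.enc h1.l h2)) (pr_norm (pr_subr 48747265333861 1918868750000 (pr_neg (kcg_73_s.snd h1 h2)))))) (pr_mA (pr_cmul (enc_norm (kcg_86.enc h1.l h2)) (pr_norm (pr_mul (pr_norm (kcg_9_s.snd h1 h2)) (pr_norm (kcg_87_s.snd h1 h2))))) (pr_const (kcg_86.enc h1.l h2)) (kcg_9_s.snd h1 h2) (kcg_87_s.snd h1 h2) rfl rfl)) (pr_case (kcg_94_s.snd h1 h2) (pr_add (pr_add (pr_subr 311169370517 699000000000 (kcg_95_s.snd h1 h2))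 (pr_cmul (enc_norm (kcg_3.enc h1.l h2)) (pr_norm (pr_addc (kcg_99_s.snd h1 h2) (enc_rat _ 3512456530889 174750000000))))) (pr_mA (pr_cmul (enc_norm (kcg_110.enc h1.l h2)) (pr_norm (pr_mul (pr_norm (kcg_67_s.snd h1 h2)) (pr_norm (kcg_111_s.snd h1 h2))))) (pr_const (kcg_110.enc h1.l h2)) (kcg_67_s.snd h1 h2) (kcg_111_s.snd h1 h2) rfl rfl)) (pr_add (pr_add (pr_subr 2398709 6750000000 (kcg_116_s.snd h1 h2)) (pr_cmul (enc_norm (kcg_3.enc h1.l h2)) (pr_norm (pr_addc (kcg_120_s.snd h1 h2) (enc_rat _ 11946920299 675000000))))) (pr_mA (pr_cmul (enc_norm (kcg_129.enc h1.l h2)) (pr_norm (pr_mul (pr_norm (kcg_94_s.snd h1 h2)) (pr_norm (kcg_130_s.snd h1 h2))))) (pr_const (kcg_129.enc h1.l h2)) (kcg_94_s.snd h1 h2) (kcg_130_s.snd h1 h2) rfl rfl))))) (pr_case (kcg_140_s.snd h1 h2) (pr_case (kcg_143_s.snd h1 h2) (pr_add (pr_add (pr_subr 2121 12500000 (kcg_144_s.snd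 h1 h2)) (pr_cmul (enc_norm (kcg_3.enc h1.l h2)) (pr_norm (pr_addc (kcg_148_s.snd h1 h2) (enc_rat _ 1739337 156250))))) (pr_mA (pr_cmul (enc_norm (kcg_157.enc h1.l h2)) (pr_norm (pr_mul (pr_norm (kcg_6_s.snd h1 h2)) (pr_norm (kcg_158_s.snd h1 h2))))) (pr_const (kcg_157.enc h1.l h2)) (kcg_6_s.snd h1 h2) (kcg_158_s.snd h1 h2) rfl rfl)) (pr_case (kcg_165_s.snd h1 h2) (pr_add (pr_add (pr_subr 267 3125000 (kcg_166_s.snd h1 h2)) (pr_cmul (enc_norm (kcg_3.enc h1.l h2)) (pr_norm (pr_addc (kcg_170_s.snd h1 h2) (enc_rat _ 1071417 312500))))) (pr_mA (pr_cmul (enc_norm (kcg_179.enc h1.l h2)) (pr_norm (pr_mul (pr_norm (kcg_143_s.snd h1 h2)) (pr_norm (kcg_180_s.snd h1 h2))))) (pr_const (kcg_179.enc h1.l h2)) (kcg_143_s.snd h1 h2) (kcg_180_s.snd h1 h2) rfl rfl)) (pr_add (pr_add (pr_subr 113 3125000 (kcg_185_s.snd h1 h2)) (pr_cmul (enc_norm (kcg_3.enc h1.l h2))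 (pr_norm (pr_csub (enc_rat _ 1651 312500) (kcg_189_s.snd h1 h2))))) (pr_mA (pr_cmul (enc_norm (kcg_199.enc h1.l h2)) (pr_norm (pr_mul (pr_norm (kcg_165_s.snd h1 h2)) (pr_norm (kcg_200_s.snd h1 h2))))) (pr_const (kcg_199.enc h1.l h2)) (kcg_165_s.snd h1 h2) (kcg_200_s.snd h1 h2) rfl rfl)))) (pr_case (kcg_209_s.snd h1 h2) (pr_add (pr_add (pr_subr 19 1562500 (kcg_210_s.snd h1 h2)) (pr_cmul (enc_norm (kcg_3.enc h1.l h2)) (pr_norm (pr_subr 2 78125 (pr_neg (kcg_214_s.snd h1 h2)))))) (pr_mA (pr_cmul (enc_norm (kcg_225.enc h1.l h2)) (pr_norm (pr_mul (pr_norm (kcg_140_s.snd h1 h2)) (pr_norm (kcg_226_s.snd h1 h2))))) (pr_const (kcg_225.enc h1.l h2)) (kcg_140_s.snd h1 h2) (kcg_226_s.snd h1 h2) rfl rfl)) (pr_case (pr_addc h1 (enc_rat _ 2 25)) (pr_add (pr_add (pr_subr 3 1562500 (kcg_234_s.snd h1 h2)) (pr_cmul (enc_norm (kcg_3.enc h1.l h2)) (pr_norm (pr_subr 19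 78125 (pr_neg (kcg_238_s.snd h1 h2)))))) (pr_mA (pr_cmul (enc_norm (kcg_251.enc h1.l h2)) (pr_norm (pr_mul (pr_norm (kcg_209_s.snd h1 h2)) (pr_norm (kcg_252_s.snd h1 h2))))) (pr_const (kcg_251.enc h1.l h2)) (kcg_209_s.snd h1 h2) (kcg_252_s.snd h1 h2) rfl rfl)) (pr_sub (kcg_257_s.snd h1 h2) (kcg_261_s.snd h1 h2)))))) (pr_neg (pr_case (kcg_269_s.snd h1 h2) (pr_case (kcg_270_s.snd h1 h2) (pr_case (kcg_271_s.snd h1 h2) (pr_add (pr_add (pr_subr 49995324588113 7347000000000 (kcg_13_s.snd h1 h2)) (pr_cmul (enc_norm (kcg_3.enc h1.l h2)) (pr_norm (pr_subr 26612537749117 367350000000 (kcg_18_s.snd h1 h2))))) (pr_mA (pr_cmul (enc_norm (kcg_31.enc h1.l h2)) (pr_norm (pr_mul (pr_norm (kcg_276_s.snd h1 h2)) (pr_norm (kcg_277_s.snd h1 h2))))) (pr_const (kcg_31.enc h1.l h2)) (kcg_276_s.snd h1 h2) (kcg_277_s.snd h1 h2) rfl rfl)) (pr_add (pr_add (pr_subr 12498512028551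 1836625000000 (kcg_40_s.snd h1 h2)) (pr_cmul (enc_norm (kcg_3.enc h1.l h2)) (pr_norm (pr_subr 1063815439237 14693000000 (kcg_45_s.snd h1 h2))))) (pr_mA (pr_cmul (enc_norm (kcg_58.enc h1.l h2)) (pr_norm (pr_mul (pr_norm (kcg_271_s.snd h1 h2)) (pr_norm (kcg_286_s.snd h1 h2))))) (pr_const (kcg_58.enc h1.l h2)) (kcg_271_s.snd h1 h2) (kcg_286_s.snd h1 h2) rfl rfl))) (pr_case (kcg_292_s.snd h1 h2) (pr_add (pr_add (pr_subr 22277764067204563 5833361000000000 (kcg_68_s.snd h1 h2)) (pr_cmul (enc_norm (kcg_3.enc h1.l h2)) (pr_norm (pr_subr 48747265333861 1918868750000 (kcg_73_s.snd h1 h2))))) (pr_mA (pr_cmul (enc_norm (kcg_86.enc h1.l h2)) (pr_norm (pr_mul (pr_norm (kcg_270_s.snd h1 h2)) (pr_norm (kcg_297_s.snd h1 h2))))) (pr_const (kcg_86.enc h1.l h2)) (kcg_270_s.snd h1 h2) (kcg_297_s.snd h1 h2) rfl rfl)) (pr_case (kcg_302_s.snd h1 h2) (pr_add (pr_add (pr_subr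 311169370517 699000000000 (pr_neg (kcg_95_s.snd h1 h2))) (pr_cmul (enc_norm (kcg_3.enc h1.l h2)) (pr_norm (pr_csub (enc_rat _ 3512456530889 174750000000) (kcg_99_s.snd h1 h2))))) (pr_mA (pr_cmul (enc_norm (kcg_110.enc h1.l h2)) (pr_norm (pr_mul (pr_norm (kcg_292_s.snd h1 h2)) (pr_norm (kcg_309_s.snd h1 h2))))) (pr_const (kcg_110.enc h1.l h2)) (kcg_292_s.snd h1 h2) (kcg_309_s.snd h1 h2) rfl rfl)) (pr_add (pr_add (pr_subr 2398709 6750000000 (pr_neg (kcg_116_s.snd h1 h2))) (pr_cmul (enc_norm (kcg_3.enc h1.l h2)) (pr_norm (pr_csub (enc_rat _ 11946920299 675000000) (kcg_120_s.snd h1 h2))))) (pr_mA (pr_cmul (enc_norm (kcg_129.enc h1.l h2)) (pr_norm (pr_mul (pr_norm (kcg_302_s.snd h1 h2)) (pr_norm (kcg_320_s.snd h1 h2))))) (pr_const (kcg_129.enc h1.l h2)) (kcg_302_s.snd h1 h2) (kcg_320_s.snd h1 h2) rfl rfl))))) (pr_case (kcg_328_s.snd h1 h2) (pr_case (kcg_329_s.snd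 h1 h2) (pr_add (pr_add (pr_subr 2121 12500000 (pr_neg (kcg_144_s.snd h1 h2))) (pr_cmul (enc_norm (kcg_3.enc h1.l h2)) (pr_norm (pr_csub (enc_rat _ 1739337 156250) (kcg_148_s.snd h1 h2))))) (pr_mA (pr_cmul (enc_norm (kcg_157.enc h1.l h2)) (pr_norm (pr_mul (pr_norm (kcg_269_s.snd h1 h2)) (pr_norm (kcg_336_s.snd h1 h2))))) (pr_const (kcg_157.enc h1.l h2)) (kcg_269_s.snd h1 h2) (kcg_336_s.snd h1 h2) rfl rfl)) (pr_case (kcg_341_s.snd h1 h2) (pr_add (pr_add (pr_subr 267 3125000 (pr_neg (kcg_166_s.snd h1 h2))) (pr_cmul (enc_norm (kcg_3.enc h1.l h2)) (pr_norm (pr_csub (enc_rat _ 1071417 312500) (kcg_170_s.snd h1 h2))))) (pr_mA (pr_cmul (enc_norm (kcg_179.enc h1.l h2)) (pr_norm (pr_mul (pr_norm (kcg_329_s.snd h1 h2)) (pr_norm (kcg_348_s.snd h1 h2))))) (pr_const (kcg_179.enc h1.l h2)) (kcg_329_s.snd h1 h2) (kcg_348_s.snd h1 h2) rfl rfl)) (pr_add (pr_add (pr_subr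 113 3125000 (pr_neg (kcg_185_s.snd h1 h2))) (pr_cmul (enc_norm (kcg_3.enc h1.l h2)) (pr_norm (pr_addc (kcg_189_s.snd h1 h2) (enc_rat _ 1651 312500))))) (pr_mA (pr_cmul (enc_norm (kcg_199.enc h1.l h2)) (pr_norm (pr_mul (pr_norm (kcg_341_s.snd h1 h2)) (pr_norm (kcg_358_s.snd h1 h2))))) (pr_const (kcg_199.enc h1.l h2)) (kcg_341_s.snd h1 h2) (kcg_358_s.snd h1 h2) rfl rfl)))) (pr_case (kcg_365_s.snd h1 h2) (pr_add (pr_add (pr_subr 19 1562500 (pr_neg (kcg_210_s.snd h1 h2))) (pr_cmul (enc_norm (kcg_3.enc h1.l h2)) (pr_norm (pr_subr 2 78125 (kcg_214_s.snd h1 h2))))) (pr_mA (pr_cmul (enc_norm (kcg_225.enc h1.l h2)) (pr_norm (pr_mul (pr_norm (kcg_328_s.snd h1 h2)) (pr_norm (kcg_371_s.snd h1 h2))))) (pr_const (kcg_225.enc h1.l h2)) (kcg_328_s.snd h1 h2) (kcg_371_s.snd h1 h2) rfl rfl)) (pr_case (pr_csub (enc_rat _ 2 25) h1) (pr_add (pr_add (pr_subr 3 1562500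 (pr_neg (kcg_234_s.snd h1 h2))) (pr_cmul (enc_norm (kcg_3.enc h1.l h2)) (pr_norm (pr_subr 19 78125 (kcg_238_s.snd h1 h2))))) (pr_mA (pr_cmul (enc_norm (kcg_251.enc h1.l h2)) (pr_norm (pr_mul (pr_norm (kcg_365_s.snd h1 h2)) (pr_norm (kcg_382_s.snd h1 h2))))) (pr_const (kcg_251.enc h1.l h2)) (kcg_365_s.snd h1 h2) (kcg_382_s.snd h1 h2) rfl rfl)) (pr_sub (kcg_261_s.snd h1 h2) (kcg_257_s.snd h1 h2)))))))))⟩
noncomputable def kf0q0_9_s : Sl2 kf0q0_9 := ⟨_, fun h1 h2 => (pr_scaleT 3 2 h1)⟩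
noncomputable def kf0q0_12_s : Sl2 kf0q0_12 := ⟨_, fun h1 h2 => (pr_cadd (enc_pnc _ 1) (c1g_s.snd h1))⟩
noncomputable def kf0q0_s : Sl2 kf0q0 := ⟨_, fun h1 h2 => (pr_norm (pr_add (pr_mul (pr_norm (pr_mul (pr_norm (pr_sub (c1g_s.snd h1) (kf0q0_9_s.snd h1 h2))) (pr_norm (kf0q0_12_s.snd h1 h2)))) (pr_nd (pr_inv (pr_sub (kf0q0_12_s.snd h1 h2) (kf0q0_9_s.snd h1 h2))))) (pr_mul h1 (kcg_s.snd (pr_norm (pr_sub (pr_scaleT 3 4 h1) (pr_half (c1g_s.snd h1)))) h2))))⟩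
noncomputable def txg_6_s : Sl3 txg_6 := ⟨_, fun h1 h2 h3 => (pr_add h1 (pr_half h2))⟩
noncomputable def txg_26_s : Sl3 txg_26 := ⟨_, fun h1 h2 h3 => (pr_addc h1 (enc_rat _ 1 5))⟩
noncomputable def txg_29_s : Sl3 txg_29 := ⟨_, fun h1 h2 h3 => (pr_addc h1 (enc_rat _ 2 5))⟩
noncomputable def txg_32_s : Sl3 txg_32 := ⟨_, fun h1 h2 h3 => (pr_addc h1 (enc_rat _ 470613 1000000))⟩
noncomputable def txg_35_s : Sl3 txg_35 := ⟨_, fun h1 h2 h3 => (pr_addc h1 (enc_rat _ 242653 500000))⟩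
noncomputable def txg_53_s : Sl3 txg_53 := ⟨_, fun h1 h2 h3 => (pr_addc h1 (enc_rat _ 1 2))⟩
noncomputable def txg_54_s : Sl3 txg_54 := ⟨_, fun h1 h2 h3 => (pr_csub (enc_neg (enc_rat _ 242653 500000)) h1)⟩
noncomputable def txg_71_s : Sl3 txg_71 := ⟨_, fun h1 h2 h3 => (pr_csub (enc_neg (enc_rat _ 470613 1000000)) h1)⟩
noncomputable def txg_79_s : Sl3 txg_79 := ⟨_, fun h1 h2 h3 => (pr_addc h1 (enc_rat _ 23 50))⟩
noncomputable def txg_92_s : Sl3 txg_92 := ⟨_, fun h1 h2 h3 => (pr_csub (enc_neg (enc_rat _ 23 50)) h1)⟩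
noncomputable def txg_99_s : Sl3 txg_99 := ⟨_, fun h1 h2 h3 => (pr_addc h1 (enc_rat _ 43 100))⟩
noncomputable def txg_114_s : Sl3 txg_114 := ⟨_, fun h1 h2 h3 => (pr_csub (enc_neg (enc_rat _ 43 100)) h1)⟩
noncomputable def txg_134_s : Sl3 txg_134 := ⟨_, fun h1 h2 h3 => (pr_csub (enc_neg (enc_rat _ 2 5)) h1)⟩
noncomputable def txg_144_s : Sl3 txg_144 := ⟨_, fun h1 h2 h3 => (pr_addc h1 (enc_rat _ 33 100))⟩
noncomputable def txg_147_s : Sl3 txg_147 := ⟨_, fun h1 h2 h3 => (pr_addc h1 (enc_rat _ 9 25))⟩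
noncomputable def txg_163_s : Sl3 txg_163 := ⟨_, fun h1 h2 h3 => (pr_csub (enc_neg (enc_rat _ 9 25)) h1)⟩
noncomputable def txg_181_s : Sl3 txg_181 := ⟨_, fun h1 h2 h3 => (pr_csub (enc_neg (enc_rat _ 33 100)) h1)⟩
noncomputable def txg_189_s : Sl3 txg_189 := ⟨_, fun h1 h2 h3 => (pr_addc h1 (enc_rat _ 3 10))⟩
noncomputable def txg_202_s : Sl3 txg_202 := ⟨_, fun h1 h2 h3 => (pr_csub (enc_neg (enc_rat _ 3 10)) h1)⟩
noncomputable def txg_209_s : Sl3 txg_209 := ⟨_, fun h1 h2 h3 => (pr_addc h1 (enc_rat _ 1 4))⟩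
noncomputable def txg_222_s : Sl3 txg_222 := ⟨_, fun h1 h2 h3 => (pr_csub (enc_neg (enc_rat _ 1 4)) h1)⟩
noncomputable def txg_239_s : Sl3 txg_239 := ⟨_, fun h1 h2 h3 => (pr_csub (enc_neg (enc_rat _ 1 5)) h1)⟩
noncomputable def txg_248_s : Sl3 txg_248 := ⟨_, fun h1 h2 h3 => (pr_subr 1 5 h1)⟩
noncomputable def txg_251_s : Sl3 txg_251 := ⟨_, fun h1 h2 h3 => (pr_addc h1 (enc_rat _ 1 10))⟩
noncomputable def txg_254_s : Sl3 txg_254 := ⟨_, fun h1 h2 h3 => (pr_addc h1 (enc_rat _ 3 20))⟩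
noncomputable def txg_267_s : Sl3 txg_267 := ⟨_, fun h1 h2 h3 => (pr_csub (enc_neg (enc_rat _ 3 20)) h1)⟩
noncomputable def txg_284_s : Sl3 txg_284 := ⟨_, fun h1 h2 h3 => (pr_csub (enc_neg (enc_rat _ 1 10)) h1)⟩
noncomputable def txg_290_s : Sl3 txg_290 := ⟨_, fun h1 h2 h3 => (pr_subr 1 10 h1)⟩
noncomputable def txg_303_s : Sl3 txg_303 := ⟨_, fun h1 h2 h3 => (pr_csub (enc_rat _ 1 10) h1)⟩
noncomputable def txg_308_s : Sl3 txg_308 := ⟨_, fun h1 h2 h3 => (pr_subr 3 20 h1)⟩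
noncomputable def txg_323_s : Sl3 txg_323 := ⟨_, fun h1 h2 h3 => (pr_csub (enc_rat _ 3 20) h1)⟩
noncomputable def txg_342_s : Sl3 txg_342 := ⟨_, fun h1 h2 h3 => (pr_csub (enc_rat _ 1 5) h1)⟩
noncomputable def txg_350_s : Sl3 txg_350 := ⟨_, fun h1 h2 h3 => (pr_subr 33 100 h1)⟩
noncomputable def txg_351_s : Sl3 txg_351 := ⟨_, fun h1 h2 h3 => (pr_subr 1 4 h1)⟩
noncomputable def txg_366_s : Sl3 txg_366 := ⟨_, fun h1 h2 h3 => (pr_csub (enc_rat _ 1 4) h1)⟩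
noncomputable def txg_371_s : Sl3 txg_371 := ⟨_, fun h1 h2 h3 => (pr_subr 3 10 h1)⟩
noncomputable def txg_386_s : Sl3 txg_386 := ⟨_, fun h1 h2 h3 => (pr_csub (enc_rat _ 3 10) h1)⟩
noncomputable def txg_407_s : Sl3 txg_407 := ⟨_, fun h1 h2 h3 => (pr_csub (enc_rat _ 33 100) h1)⟩
noncomputable def txg_414_s : Sl3 txg_414 := ⟨_, fun h1 h2 h3 => (pr_subr 9 25 h1)⟩
noncomputable def txg_431_s : Sl3 txg_431 := ⟨_, fun h1 h2 h3 => (pr_csub (enc_rat _ 9 25) h1)⟩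
noncomputable def txg_436_s : Sl3 txg_436 := ⟨_, fun h1 h2 h3 => (pr_subr 2 5 h1)⟩
noncomputable def txg_454_s : Sl3 txg_454 := ⟨_, fun h1 h2 h3 => (pr_csub (enc_rat _ 2 5) h1)⟩
noncomputable def txg_485_s : Sl3 txg_485 := ⟨_, fun h1 h2 h3 => (pr_csub (enc_rat _ 107 254) h1)⟩
noncomputable def txg_496_s : Sl3 txg_496 := ⟨_, fun h1 h2 h3 => (pr_subr 181 397 h1)⟩
noncomputable def txg_497_s : Sl3 txg_497 := ⟨_, fun h1 h2 h3 => (pr_subr 470613 1000000 h1)⟩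
noncomputable def txg_523_s : Sl3 txg_523 := ⟨_, fun h1 h2 h3 => (pr_csub (enc_rat _ 470613 1000000) h1)⟩
noncomputable def txg_528_s : Sl3 txg_528 := ⟨_, fun h1 h2 h3 => (pr_subr 242653 500000 h1)⟩
noncomputable def txg_543_s : Sl3 txg_543 := ⟨_, fun h1 h2 h3 => (pr_csub (enc_rat _ 242653 500000) h1)⟩
noncomputable def txg_565_s : Sl3 txg_565 := ⟨_, fun h1 h2 h3 => (pr_csub (enc_rat _ 1 2) h1)⟩
noncomputable def txg_s : Sl3 txg := ⟨_, fun h1 h2 h3 => (pr_case (pr_subr 107 254 h1) (pr_case (txg_26_s.snd h1 h2 h3) (pr_case (txg_29_s.snd h1 h2 h3) (pr_case (txg_32_s.snd h1 h2 h3) (pr_case (txg_35_s.snd h1 h2 h3) (pr_add (pr_add (pr_addc (pr_scaleT 7064 36735 h1) (enc_rat _ 3532 36735)) (pr_cmul (enc_norm (txg_4.enc h1.l h2.l h3)) (pr_norm (pr_addc (pr_scaleT 6577 12245 h1) (enc_rat _ 6577 24490))))) (pr_mA (pr_cmul (enc_norm (txg_50.enc h1.l h2.l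 h3)) (pr_norm (pr_mul (pr_norm (txg_53_s.snd h1 h2 h3)) (pr_norm (txg_54_s.snd h1 h2 h3))))) (pr_const (txg_50.enc h1.l h2.l h3)) (txg_53_s.snd h1 h2 h3) (txg_54_s.snd h1 h2 h3) rfl rfl)) (pr_add (pr_add (pr_addc (pr_scaleT 13247 58772 h1) (enc_rat _ 16487286863 146930000000)) (pr_cmul (enc_norm (txg_4.enc h1.l h2.l h3)) (pr_norm (pr_addc (pr_scaleT 24277 20990 h1) (enc_rat _ 5973717619 10495000000))))) (pr_mA (pr_cmul (enc_norm (txg_70.enc h1.l h2.l h3)) (pr_norm (pr_mul (pr_norm (txg_35_s.snd h1 h2 h3)) (pr_norm (txg_71_s.snd h1 h2 h3))))) (pr_const (txg_70.enc h1.l h2.l h3)) (txg_35_s.snd h1 h2 h3) (txg_71_s.snd h1 h2 h3) rfl rfl))) (pr_case (txg_79_s.snd h1 h2 h3) (pr_add (pr_add (pr_addc (pr_scaleT 178783 1061300 h1) (enc_rat _ 45325586767 530650000000)) (pr_cmul (enc_norm (txg_4.enc h1.l h2.l h3)) (pr_norm (pr_addc (pr_scaleT 21208 53065 h1)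 (enc_rat _ 22602704027 106130000000))))) (pr_mA (pr_cmul (enc_norm (txg_91.enc h1.l h2.l h3)) (pr_norm (pr_mul (pr_norm (txg_32_s.snd h1 h2 h3)) (pr_norm (txg_92_s.snd h1 h2 h3))))) (pr_const (txg_91.enc h1.l h2.l h3)) (txg_32_s.snd h1 h2 h3) (txg_92_s.snd h1 h2 h3) rfl rfl)) (pr_case (txg_99_s.snd h1 h2 h3) (pr_add (pr_add (pr_addc (pr_scaleT 320309 3000000 h1) (enc_rat _ 2138971 37500000)) (pr_cmul (enc_norm (txg_4.enc h1.l h2.l h3)) (pr_norm (pr_subr 898833 10000000 (pr_neg (pr_scaleT 1617 6250 h1)))))) (pr_mA (pr_cmul (enc_norm (txg_113.enc h1.l h2.l h3)) (pr_norm (pr_mul (pr_norm (txg_79_s.snd h1 h2 h3)) (pr_norm (txg_114_s.snd h1 h2 h3))))) (pr_const (txg_113.enc h1.l h2.l h3)) (txg_79_s.snd h1 h2 h3) (txg_114_s.snd h1 h2 h3) rfl rfl)) (pr_add (pr_add (pr_addc (pr_scaleT 386207 3000000 h1) (enc_rat _ 9972691 150000000)) (pr_cmul (enc_norm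 (txg_4.enc h1.l h2.l h3)) (pr_norm (pr_addc (pr_scaleT 20277 100000 h1) (enc_rat _ 542787 5000000))))) (pr_mA (pr_cmul (enc_norm (txg_133.enc h1.l h2.l h3)) (pr_norm (pr_mul (pr_norm (txg_99_s.snd h1 h2 h3)) (pr_norm (txg_134_s.snd h1 h2 h3))))) (pr_const (txg_133.enc h1.l h2.l h3)) (txg_99_s.snd h1 h2 h3) (txg_134_s.snd h1 h2 h3) rfl rfl))))) (pr_case (txg_144_s.snd h1 h2 h3) (pr_case (txg_147_s.snd h1 h2 h3) (pr_add (pr_add (pr_addc (pr_scaleT 473849 1000000 h1) (enc_rat _ 10226497 50000000)) (pr_cmul (enc_norm (txg_4.enc h1.l h2.l h3)) (pr_norm (pr_addc (pr_scaleT 2359539 400000 h1) (enc_rat _ 5967471 2500000))))) (pr_mA (pr_cmul (enc_norm (txg_162.enc h1.l h2.l h3)) (pr_norm (pr_mul (pr_norm (txg_29_s.snd h1 h2 h3)) (pr_norm (txg_163_s.snd h1 h2 h3))))) (pr_const (txg_162.enc h1.l h2.l h3)) (txg_29_s.snd h1 h2 h3) (txg_163_s.snd h1 h2 h3) rfl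 rfl)) (pr_add (pr_add (pr_addc (pr_scaleT 776043 1000000 h1) (enc_rat _ 15665989 50000000)) (pr_cmul (enc_norm (txg_4.enc h1.l h2.l h3)) (pr_norm (pr_addc (pr_scaleT 267533 25000 h1) (enc_rat _ 8231757 2000000))))) (pr_mA (pr_cmul (enc_norm (txg_180.enc h1.l h2.l h3)) (pr_norm (pr_mul (pr_norm (txg_147_s.snd h1 h2 h3)) (pr_norm (txg_181_s.snd h1 h2 h3))))) (pr_const (txg_180.enc h1.l h2.l h3)) (txg_147_s.snd h1 h2 h3) (txg_181_s.snd h1 h2 h3) rfl rfl))) (pr_case (txg_189_s.snd h1 h2 h3) (pr_add (pr_add (pr_addc (pr_scaleT 2262587 3000000 h1) (enc_rat _ 3826377 12500000)) (pr_cmul (enc_norm (txg_4.enc h1.l h2.l h3)) (pr_norm (pr_addc (pr_scaleT 656161 75000 h1) (enc_rat _ 34715513 10000000))))) (pr_mA (pr_cmul (enc_norm (txg_201.enc h1.l h2.l h3)) (pr_norm (pr_mul (pr_norm (txg_144_s.snd h1 h2 h3)) (pr_norm (txg_202_s.snd h1 h2 h3))))) (pr_const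 (txg_201.enc h1.l h2.l h3)) (txg_144_s.snd h1 h2 h3) (txg_202_s.snd h1 h2 h3) rfl rfl)) (pr_case (txg_209_s.snd h1 h2 h3) (pr_add (pr_add (pr_addc (pr_scaleT 3479393 5000000 h1) (enc_rat _ 450961 1562500)) (pr_cmul (enc_norm (txg_4.enc h1.l h2.l h3)) (pr_norm (pr_addc (pr_scaleT 484537 125000 h1) (enc_rat _ 20097961 10000000))))) (pr_mA (pr_cmul (enc_norm (txg_221.enc h1.l h2.l h3)) (pr_norm (pr_mul (pr_norm (txg_189_s.snd h1 h2 h3)) (pr_norm (txg_222_s.snd h1 h2 h3))))) (pr_const (txg_221.enc h1.l h2.l h3)) (txg_189_s.snd h1 h2 h3) (txg_222_s.snd h1 h2 h3) rfl rfl)) (pr_add (pr_add (pr_addc (pr_scaleT 3114681 5000000 h1) (enc_rat _ 3379743 12500000)) (pr_cmul (enc_norm (txg_4.enc h1.l h2.l h3)) (pr_norm (pr_addc (pr_scaleT 59059 62500 h1) (enc_rat _ 12769581 10000000))))) (pr_mA (pr_cmul (enc_norm (txg_238.enc h1.l h2.l h3)) (pr_norm (pr_mul (pr_norm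 (txg_209_s.snd h1 h2 h3)) (pr_norm (txg_239_s.snd h1 h2 h3))))) (pr_const (txg_238.enc h1.l h2.l h3)) (txg_209_s.snd h1 h2 h3) (txg_239_s.snd h1 h2 h3) rfl rfl)))))) (pr_case (txg_248_s.snd h1 h2 h3) (pr_case (txg_251_s.snd h1 h2 h3) (pr_case (txg_254_s.snd h1 h2 h3) (pr_add (pr_add (pr_addc (pr_scaleT 530291 1000000 h1) (enc_rat _ 314813 1250000)) (pr_cmul (enc_norm (txg_4.enc h1.l h2.l h3)) (pr_norm (pr_addc (pr_scaleT 116471 125000 h1) (enc_rat _ 12743229 10000000))))) (pr_mA (pr_cmul (enc_norm (txg_266.enc h1.l h2.l h3)) (pr_norm (pr_mul (pr_norm (txg_26_s.snd h1 h2 h3)) (pr_norm (txg_267_s.snd h1 h2 h3))))) (pr_const (txg_266.enc h1.l h2.l h3)) (txg_26_s.snd h1 h2 h3) (txg_267_s.snd h1 h2 h3) rfl rfl)) (pr_add (pr_add (pr_addc (pr_scaleT 2089719 5000000 h1) (enc_rat _ 2937479 12500000)) (pr_cmul (enc_norm (txg_4.enc h1.l h2.l h3)) (pr_norm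 (pr_addc (pr_scaleT 462123 500000 h1) (enc_rat _ 6365973 5000000))))) (pr_mA (pr_cmul (enc_norm (txg_283.enc h1.l h2.l h3)) (pr_norm (pr_mul (pr_norm (txg_254_s.snd h1 h2 h3)) (pr_norm (txg_284_s.snd h1 h2 h3))))) (pr_const (txg_283.enc h1.l h2.l h3)) (txg_254_s.snd h1 h2 h3) (txg_284_s.snd h1 h2 h3) rfl rfl))) (pr_case (txg_290_s.snd h1 h2 h3) (pr_add (pr_add (pr_addc (pr_scaleT 1370961 10000000 h1) (enc_rat _ 4138271 20000000)) (pr_cmul (enc_norm (txg_4.enc h1.l h2.l h3)) (pr_norm (pr_addc (pr_scaleT 110669 1000000 h1) (enc_rat _ 11918369 10000000))))) (pr_mA (pr_cmul (enc_norm (txg_302.enc h1.l h2.l h3)) (pr_norm (pr_mul (pr_norm (txg_251_s.snd h1 h2 h3)) (pr_norm (txg_303_s.snd h1 h2 h3))))) (pr_const (txg_302.enc h1.l h2.l h3)) (txg_251_s.snd h1 h2 h3) (txg_303_s.snd h1 h2 h3) rfl rfl)) (pr_case (txg_308_s.snd h1 h2 h3) (pr_add (pr_add (pr_csub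 (enc_rat _ 1468841 6250000) (pr_scaleT 71957 500000 h1)) (pr_cmul (enc_norm (txg_4.enc h1.l h2.l h3)) (pr_norm (pr_csub (enc_rat _ 6827597 5000000) (pr_scaleT 406539 250000 h1))))) (pr_mA (pr_cmul (enc_norm (txg_322.enc h1.l h2.l h3)) (pr_norm (pr_mul (pr_norm (txg_290_s.snd h1 h2 h3)) (pr_norm (txg_323_s.snd h1 h2 h3))))) (pr_const (txg_322.enc h1.l h2.l h3)) (txg_290_s.snd h1 h2 h3) (txg_323_s.snd h1 h2 h3) rfl rfl)) (pr_add (pr_add (pr_csub (enc_rat _ 25200617 100000000) (pr_scaleT 1285957 5000000 h1)) (pr_cmul (enc_norm (txg_4.enc h1.l h2.l h3)) (pr_norm (pr_csub (enc_rat _ 1642933 1000000) (pr_scaleT 173779 50000 h1))))) (pr_mA (pr_cmul (enc_norm (txg_341.enc h1.l h2.l h3)) (pr_norm (pr_mul (pr_norm (txg_308_s.snd h1 h2 h3)) (pr_norm (txg_342_s.snd h1 h2 h3))))) (pr_const (txg_341.enc h1.l h2.l h3)) (txg_308_s.snd h1 h2 h3) (txg_342_s.snd h1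 h2 h3) rfl rfl))))) (pr_case (txg_350_s.snd h1 h2 h3) (pr_case (txg_351_s.snd h1 h2 h3) (pr_add (pr_add (pr_csub (enc_rat _ 5571233 20000000) (pr_scaleT 487461 1250000 h1)) (pr_cmul (enc_norm (txg_4.enc h1.l h2.l h3)) (pr_norm (pr_csub (enc_rat _ 9155591 5000000) (pr_scaleT 2208253 500000 h1))))) (pr_mA (pr_cmul (enc_norm (txg_365.enc h1.l h2.l h3)) (pr_norm (pr_mul (pr_norm (txg_248_s.snd h1 h2 h3)) (pr_norm (txg_366_s.snd h1 h2 h3))))) (pr_const (txg_365.enc h1.l h2.l h3)) (txg_248_s.snd h1 h2 h3) (txg_366_s.snd h1 h2 h3) rfl rfl)) (pr_case (txg_371_s.snd h1 h2 h3) (pr_add (pr_add (pr_csub (enc_rat _ 6329821 20000000) (pr_scaleT 169277 312500 h1)) (pr_cmul (enc_norm (txg_4.enc h1.l h2.l h3)) (pr_norm (pr_csub (enc_rat _ 18357867 10000000) (pr_scaleT 221759 50000 h1))))) (pr_mA (pr_cmul (enc_norm (txg_385.enc h1.l h2.l h3)) (pr_norm (pr_mul (pr_norm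 (txg_351_s.snd h1 h2 h3)) (pr_norm (txg_386_s.snd h1 h2 h3))))) (pr_const (txg_385.enc h1.l h2.l h3)) (txg_351_s.snd h1 h2 h3) (txg_386_s.snd h1 h2 h3) rfl rfl)) (pr_add (pr_add (pr_csub (enc_rat _ 35291063 100000000) (pr_scaleT 132617 200000 h1)) (pr_cmul (enc_norm (txg_4.enc h1.l h2.l h3)) (pr_norm (pr_csub (enc_rat _ 18282347 10000000) (pr_scaleT 661501 150000 h1))))) (pr_mA (pr_cmul (enc_norm (txg_406.enc h1.l h2.l h3)) (pr_norm (pr_mul (pr_norm (txg_371_s.snd h1 h2 h3)) (pr_norm (txg_407_s.snd h1 h2 h3))))) (pr_const (txg_406.enc h1.l h2.l h3)) (txg_371_s.snd h1 h2 h3) (txg_407_s.snd h1 h2 h3) rfl rfl)))) (pr_case (txg_414_s.snd h1 h2 h3) (pr_add (pr_add (pr_csub (enc_rat _ 9782667 25000000) (pr_scaleT 233831 300000 h1)) (pr_cmul (enc_norm (txg_4.enc h1.l h2.l h3)) (pr_norm (pr_csub (enc_rat _ 4529103 2500000) (pr_scaleT 1307917 300000 h1)))))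 (pr_mA (pr_cmul (enc_norm (txg_430.enc h1.l h2.l h3)) (pr_norm (pr_mul (pr_norm (txg_350_s.snd h1 h2 h3)) (pr_norm (txg_431_s.snd h1 h2 h3))))) (pr_const (txg_430.enc h1.l h2.l h3)) (txg_350_s.snd h1 h2 h3) (txg_431_s.snd h1 h2 h3) rfl rfl)) (pr_case (txg_436_s.snd h1 h2 h3) (pr_add (pr_add (pr_csub (enc_rat _ 9685803 25000000) (pr_scaleT 384337 500000 h1)) (pr_cmul (enc_norm (txg_4.enc h1.l h2.l h3)) (pr_norm (pr_csub (enc_rat _ 469101 400000) (pr_scaleT 1034013 400000 h1))))) (pr_mA (pr_cmul (enc_norm (txg_453.enc h1.l h2.l h3)) (pr_norm (pr_mul (pr_norm (txg_414_s.snd h1 h2 h3)) (pr_norm (txg_454_s.snd h1 h2 h3))))) (pr_const (txg_453.enc h1.l h2.l h3)) (txg_414_s.snd h1 h2 h3) (txg_454_s.snd h1 h2 h3) rfl rfl)) (pr_add (pr_add (pr_add (pr_csub (enc_rat _ 12450306063931 34290000000000) (pr_scaleT 9708391253131 13716000000000 h1)) (pr_cmul (enc_norm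 (txg_4.enc h1.l h2.l h3)) (pr_norm (pr_csub (enc_rat _ 631934261897 1143000000000) (pr_scaleT 473355013397 457200000000 h1))))) (pr_cmul (txg_473.enc h1.l h2.l h3) (pr_norm (pr_subr 67222079 18750000 (pr_scaleT 67222079 7500000 h1))))) (pr_mA (pr_cmul (enc_norm (txg_484.enc h1.l h2.l h3)) (pr_norm (pr_mul (pr_norm (txg_436_s.snd h1 h2 h3)) (pr_norm (txg_485_s.snd h1 h2 h3))))) (pr_const (txg_484.enc h1.l h2.l h3)) (txg_436_s.snd h1 h2 h3) (txg_485_s.snd h1 h2 h3) rfl rfl))))))) (pr_case (txg_496_s.snd h1 h2 h3) (pr_sub (pr_mul (pr_norm (pr_csub (enc_pnc _ 1) h2)) (pr_norm (pr_subn 1 (pr_nat 2 h2)))) (pr_mul (pr_norm (pr_nat 2 (pr_subc (pr_scaleT 4 3 (txg_6_s.snd h1 h2 h3)) h3))) (pr_norm (pr_mul (pr_norm (pr_subn 1 (pr_add (pr_scaleT 2 3 (txg_6_s.snd h1 h2 h3)) h2))) (kcg_s.snd h1 h3))))) (pr_case (txg_497_s.snd h1 h2 h3) (pr_add (pr_add (pr_add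 (pr_csub (enc_rat _ 78098878919770189129 185267545360000000000) (pr_scaleT 155777627045733 185267545360000 h1)) (pr_cmul (enc_norm (txg_4.enc h1.l h2.l h3)) (pr_norm (pr_csub (enc_rat _ 93204169611407869 115792215850000000) (pr_scaleT 187208657113 115792215850 h1))))) (pr_cmul (txg_473.enc h1.l h2.l h3) (pr_norm (pr_csub (enc_rat _ 124122865269117 18229253125000) (pr_scaleT 2109977672 145834025 h1))))) (pr_mA (pr_cmul (enc_norm (txg_522.enc h1.l h2.l h3)) (pr_norm (pr_mul (pr_norm (txg_496_s.snd h1 h2 h3)) (pr_norm (txg_523_s.snd h1 h2 h3))))) (pr_const (txg_522.enc h1.l h2.l h3)) (txg_496_s.snd h1 h2 h3) (txg_523_s.snd h1 h2 h3) rfl rfl)) (pr_case (txg_528_s.snd h1 h2 h3) (pr_add (pr_add (pr_csub (enc_rat _ 5190341629 11754400000) (pr_scaleT 1297927 1469300 h1)) (pr_cmul (enc_norm (txg_4.enc h1.l h2.l h3)) (pr_norm (pr_csub (enc_rat _ 1024328593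 1147890625) (pr_scaleT 132424 73465 h1))))) (pr_mA (pr_cmul (enc_norm (txg_542.enc h1.l h2.l h3)) (pr_norm (pr_mul (pr_norm (txg_497_s.snd h1 h2 h3)) (pr_norm (txg_543_s.snd h1 h2 h3))))) (pr_const (txg_542.enc h1.l h2.l h3)) (txg_497_s.snd h1 h2 h3) (txg_543_s.snd h1 h2 h3) rfl rfl)) (pr_add (pr_add (pr_csub (enc_rat _ 428797 979600) (pr_scaleT 428797 489800 h1)) (pr_cmul (enc_norm (txg_4.enc h1.l h2.l h3)) (pr_norm (pr_csub (enc_rat _ 21964 36735) (pr_scaleT 43928 36735 h1))))) (pr_mA (pr_cmul (enc_norm (txg_564.enc h1.l h2.l h3)) (pr_norm (pr_mul (pr_norm (txg_528_s.snd h1 h2 h3)) (pr_norm (txg_565_s.snd h1 h2 h3))))) (pr_const (txg_564.enc h1.l h2.l h3)) (txg_528_s.snd h1 h2 h3) (txg_565_s.snd h1 h2 h3) rfl rfl))))))⟩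
noncomputable def l0q0_s : Sl2 l0q0 := ⟨_, fun h1 h2 => (pr_norm (txg_s.snd (pr_norm (pr_sub (pr_scaleT 3 4 h1) (pr_half (c1g_s.snd h1)))) (pr_nd (c1g_s.snd h1)) h2))⟩
noncomputable def kc0q0_8_s : Sl2 kc0q0_8 := ⟨_, fun h1 h2 => (pr_sub (pr_scaleT 3 4 h1) (pr_half (c1g_s.snd h1)))⟩
noncomputable def kc0q0_28_s : Sl2 kc0q0_28 := ⟨_, fun h1 h2 => (pr_cmul (enc_norm (kc0q0_3.enc h1.l h2)) (pr_norm (pr_subr 27 10 (pr_neg (pr_scaleT 27 5 (kc0q0_8_s.snd h1 h2))))))⟩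
noncomputable def kc0q0_39_s : Sl2 kc0q0_39 := ⟨_, fun h1 h2 => (pr_scaleT 37 30 (kc0q0_8_s.snd h1 h2))⟩
noncomputable def kc0q0_80_s : Sl2 kc0q0_80 := ⟨_, fun h1 h2 => (pr_scaleT 827 670 (kc0q0_8_s.snd h1 h2))⟩
noncomputable def kc0q0_93_s : Sl2 kc0q0_93 := ⟨_, fun h1 h2 => (pr_scaleT 205 166 (kc0q0_8_s.snd h1 h2))⟩
noncomputable def kc0q0_105_s : Sl2 kc0q0_105 := ⟨_, fun h1 h2 => (pr_addc (pr_scaleT 1031 835 (kc0q0_8_s.snd h1 h2)) (enc_rat _ 351 1250))⟩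
noncomputable def kc0q0_s : Sl2 kc0q0 := ⟨_, fun h1 h2 => (pr_norm (pr_case (pr_addc (kc0q0_8_s.snd h1 h2) (enc_rat _ 2 5)) (pr_case (pr_addc (kc0q0_8_s.snd h1 h2) (enc_rat _ 93 200)) (pr_case (pr_addc (kc0q0_8_s.snd h1 h2) (enc_rat _ 49 100)) (pr_add (pr_subr 779 100 (pr_neg (pr_scaleT 779 50 (kc0q0_8_s.snd h1 h2)))) (kc0q0_28_s.snd h1 h2)) (pr_case (pr_addc (kc0q0_8_s.snd h1 h2) (enc_rat _ 12 25)) (pr_add (pr_subr 77949 10000 (pr_neg (pr_scaleT 1559 100 (kc0q0_8_s.snd h1 h2)))) (kc0q0_28_s.snd h1 h2)) (pr_add (pr_addc (kc0q0_39_s.snd h1 h2) (enc_rat _ 2803 10000)) (kc0q0_28_s.snd h1 h2)))) (pr_case (pr_addc (kc0q0_8_s.snd h1 h2) (enc_rat _ 9 20)) (pr_add (pr_addc (pr_scaleT 92 75 (kc0q0_8_s.snd h1 h2)) (enc_rat _ 693 2500)) (kc0q0_28_s.snd h1 h2)) (pr_case (pr_addc (kc0q0_8_s.snd h1 h2) (enc_rat _ 43 100)) (pr_add (pr_addc (pr_scaleT 247 200 (kc0q0_8_s.snd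 h1 h2)) (enc_rat _ 5619 20000)) (pr_cmul (enc_norm (kc0q0_3.enc h1.l h2)) (pr_norm (pr_subr 1089 400 (pr_neg (pr_scaleT 109 20 (kc0q0_8_s.snd h1 h2))))))) (pr_add (pr_addc (kc0q0_39_s.snd h1 h2) (enc_rat _ 8407 30000)) (pr_cmul (enc_norm (kc0q0_3.enc h1.l h2)) (pr_norm (pr_subr 4073 1500 (pr_neg (pr_scaleT 163 30 (kc0q0_8_s.snd h1 h2)))))))))) (pr_case (kc0q0_8_s.snd h1 h2) (pr_case (pr_addc (kc0q0_8_s.snd h1 h2) (enc_rat _ 333 1000)) (pr_add (pr_addc (kc0q0_80_s.snd h1 h2) (enc_rat _ 188023 670000)) (pr_cmul (enc_norm (kc0q0_3.enc h1.l h2)) (pr_norm (pr_subr 91357 33500 (pr_neg (pr_scaleT 366 67 (kc0q0_8_s.snd h1 h2))))))) (pr_case (pr_addc (kc0q0_8_s.snd h1 h2) (enc_rat _ 167 1000)) (pr_add (pr_addc (kc0q0_93_s.snd h1 h2) (enc_rat _ 233093 830000)) (pr_cmul (enc_norm (kc0q0_3.enc h1.l h2)) (pr_norm (pr_subr 452759 166000 (pr_neg (pr_scaleT 907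 166 (kc0q0_8_s.snd h1 h2))))))) (pr_add (kc0q0_105_s.snd h1 h2) (pr_cmul (enc_norm (kc0q0_3.enc h1.l h2)) (pr_norm (pr_subr 341 125 (pr_neg (pr_scaleT 913 167 (kc0q0_8_s.snd h1 h2))))))))) (pr_case (pr_subr 333 1000 (kc0q0_8_s.snd h1 h2)) (pr_case (pr_subr 167 1000 (kc0q0_8_s.snd h1 h2)) (pr_add (kc0q0_105_s.snd h1 h2) (pr_cmul (enc_norm (kc0q0_3.enc h1.l h2)) (pr_norm (pr_subr 341 125 (pr_neg (pr_scaleT 914 167 (kc0q0_8_s.snd h1 h2))))))) (pr_add (pr_addc (kc0q0_93_s.snd h1 h2) (enc_rat _ 46607 166000)) (pr_cmul (enc_norm (kc0q0_3.enc h1.l h2)) (pr_norm (pr_subr 56617 20750 (pr_neg (pr_scaleT 454 83 (kc0q0_8_s.snd h1 h2)))))))) (pr_case (pr_subr 2 5 (kc0q0_8_s.snd h1 h2)) (pr_add (pr_addc (kc0q0_80_s.snd h1 h2) (enc_rat _ 188249 670000)) (pr_cmul (enc_norm (kc0q0_3.enc h1.l h2)) (pr_norm (pr_subr 182639 67000 (pr_neg (pr_scaleT 367 67 (kc0q0_8_s.snd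 h1 h2))))))) (pr_add (pr_addc (pr_scaleT 33382305473 27000000000 (kc0q0_8_s.snd h1 h2)) (enc_rat _ 18909944527 67500000000)) (pr_cmul (enc_norm (kc0q0_3.enc h1.l h2)) (pr_norm (pr_subr 91833893531 33750000000 (pr_neg (pr_scaleT 74114856469 13500000000 (kc0q0_8_s.snd h1 h2))))))))))))⟩
noncomputable def kf0q1_10_s : Sl2 kf0q1_10 := ⟨_, fun h1 h2 => (pr_scaleT 3 2 h1)⟩
noncomputable def kf0q1_s : Sl2 kf0q1 := ⟨_, fun h1 h2 => (pr_norm (pr_add (pr_mul (pr_norm (pr_mul (pr_norm (pr_cadd (enc_pnc _ 1) (pr_nat 2 (c1g_s.snd h1)))) (pr_norm (pr_sub (kf0q1_10_s.snd h1 h2) (c1g_s.snd h1))))) (pr_nd (pr_inv (pr_nat 2 (pr_sub (pr_cadd (enc_pnc _ 1) (kf0q1_10_s.snd h1 h2)) (c1g_s.snd h1)))))) (pr_mul (pr_norm (pr_subn 1 h1)) (kcg_s.snd (pr_norm (pr_sub (pr_scaleT 3 4 h1) (pr_half (c1g_s.snd h1)))) h2))))⟩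
noncomputable def l0q1_s : Sl2 l0q1 := ⟨_, fun h1 h2 => (pr_norm (txg_s.snd (pr_norm (pr_sub (pr_scaleT 3 4 h1) (pr_half (c1g_s.snd h1)))) (pr_nd (c1g_s.snd h1)) h2))⟩
noncomputable def gsg_s : Sl1 gsg := ⟨_, fun h1 => (pr_sqrt (pr_csub (enc_pnc _ 1) (pr_scaleT 3 4 (pr_sq h1))))⟩
noncomputable def gug_s : Sl1 gug := ⟨_, fun h1 => (pr_norm (pr_add (pr_scaleT 3 4 h1) (pr_scaleT 3 2 (pr_csub (enc_pnc _ 1) (gsg_s.snd h1)))))⟩
noncomputable def kc0q1_9_s : Sl2 kc0q1_9 := ⟨_, fun h1 h2 => (pr_sub (pr_scaleT 3 4 h1) (pr_half (c1g_s.snd h1)))⟩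
noncomputable def kc0q1_71_s : Sl2 kc0q1_71 := ⟨_, fun h1 h2 => (pr_cmul (enc_norm (kc0q1_3.enc h1.l h2)) (pr_norm (pr_subr 27 10 (pr_neg (pr_scaleT 27 5 (kc0q1_9_s.snd h1 h2))))))⟩
noncomputable def kc0q1_82_s : Sl2 kc0q1_82 := ⟨_, fun h1 h2 => (pr_scaleT 37 30 (kc0q1_9_s.snd h1 h2))⟩
noncomputable def kc0q1_124_s : Sl2 kc0q1_124 := ⟨_, fun h1 h2 => (pr_scaleT 827 670 (kc0q1_9_s.snd h1 h2))⟩
noncomputable def kc0q1_137_s : Sl2 kc0q1_137 := ⟨_, fun h1 h2 => (pr_scaleT 205 166 (kc0q1_9_s.snd h1 h2))⟩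
noncomputable def kc0q1_149_s : Sl2 kc0q1_149 := ⟨_, fun h1 h2 => (pr_addc (pr_scaleT 1031 835 (kc0q1_9_s.snd h1 h2)) (enc_rat _ 351 1250))⟩
noncomputable def kc0q1_s : Sl2 kc0q1 := ⟨_, fun h1 h2 => (pr_norm (pr_case (pr_subr 107 254 (kc0q1_9_s.snd h1 h2)) (pr_case (pr_addc (kc0q1_9_s.snd h1 h2) (enc_rat _ 2 5)) (pr_case (pr_addc (kc0q1_9_s.snd h1 h2) (enc_rat _ 93 200)) (pr_case (pr_addc (kc0q1_9_s.snd h1 h2) (enc_rat _ 49 100)) (pr_add (pr_subr 779 100 (pr_neg (pr_scaleT 779 50 (kc0q1_9_s.snd h1 h2)))) (kc0q1_71_s.snd h1 h2)) (pr_case (pr_addc (kc0q1_9_s.snd h1 h2) (enc_rat _ 12 25)) (pr_add (pr_subr 77949 10000 (pr_neg (pr_scaleT 1559 100 (kc0q1_9_s.snd h1 h2)))) (kc0q1_71_s.snd h1 h2)) (pr_add (pr_addc (kc0q1_82_s.snd h1 h2) (enc_rat _ 2803 10000)) (kc0q1_71_s.snd h1 h2)))) (pr_case (pr_addc (kc0q1_9_s.snd h1 h2) (enc_rat _ 9 20)) (pr_add (pr_addc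 (pr_scaleT 92 75 (kc0q1_9_s.snd h1 h2)) (enc_rat _ 693 2500)) (kc0q1_71_s.snd h1 h2)) (pr_case (pr_addc (kc0q1_9_s.snd h1 h2) (enc_rat _ 43 100)) (pr_add (pr_addc (pr_scaleT 247 200 (kc0q1_9_s.snd h1 h2)) (enc_rat _ 5619 20000)) (pr_cmul (enc_norm (kc0q1_3.enc h1.l h2)) (pr_norm (pr_subr 1089 400 (pr_neg (pr_scaleT 109 20 (kc0q1_9_s.snd h1 h2))))))) (pr_add (pr_addc (kc0q1_82_s.snd h1 h2) (enc_rat _ 8407 30000)) (pr_cmul (enc_norm (kc0q1_3.enc h1.l h2)) (pr_norm (pr_subr 4073 1500 (pr_neg (pr_scaleT 163 30 (kc0q1_9_s.snd h1 h2)))))))))) (pr_case (kc0q1_9_s.snd h1 h2) (pr_case (pr_addc (kc0q1_9_s.snd h1 h2) (enc_rat _ 333 1000)) (pr_add (pr_addc (kc0q1_124_s.snd h1 h2) (enc_rat _ 188023 670000)) (pr_cmul (enc_norm (kc0q1_3.enc h1.l h2)) (pr_norm (pr_subr 91357 33500 (pr_neg (pr_scaleT 366 67 (kc0q1_9_s.snd h1 h2))))))) (pr_case (pr_addc (kc0q1_9_s.snd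 h1 h2) (enc_rat _ 167 1000)) (pr_add (pr_addc (kc0q1_137_s.snd h1 h2) (enc_rat _ 233093 830000)) (pr_cmul (enc_norm (kc0q1_3.enc h1.l h2)) (pr_norm (pr_subr 452759 166000 (pr_neg (pr_scaleT 907 166 (kc0q1_9_s.snd h1 h2))))))) (pr_add (kc0q1_149_s.snd h1 h2) (pr_cmul (enc_norm (kc0q1_3.enc h1.l h2)) (pr_norm (pr_subr 341 125 (pr_neg (pr_scaleT 913 167 (kc0q1_9_s.snd h1 h2))))))))) (pr_case (pr_subr 333 1000 (kc0q1_9_s.snd h1 h2)) (pr_case (pr_subr 167 1000 (kc0q1_9_s.snd h1 h2)) (pr_add (kc0q1_149_s.snd h1 h2) (pr_cmul (enc_norm (kc0q1_3.enc h1.l h2)) (pr_norm (pr_subr 341 125 (pr_neg (pr_scaleT 914 167 (kc0q1_9_s.snd h1 h2))))))) (pr_add (pr_addc (kc0q1_137_s.snd h1 h2) (enc_rat _ 46607 166000)) (pr_cmul (enc_norm (kc0q1_3.enc h1.l h2)) (pr_norm (pr_subr 56617 20750 (pr_neg (pr_scaleT 454 83 (kc0q1_9_s.snd h1 h2)))))))) (pr_case (pr_subr 2 5 (kc0q1_9_s.snd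 h1 h2)) (pr_add (pr_addc (kc0q1_124_s.snd h1 h2) (enc_rat _ 188249 670000)) (pr_cmul (enc_norm (kc0q1_3.enc h1.l h2)) (pr_norm (pr_subr 182639 67000 (pr_neg (pr_scaleT 367 67 (kc0q1_9_s.snd h1 h2))))))) (pr_add (pr_addc (pr_scaleT 33382305473 27000000000 (kc0q1_9_s.snd h1 h2)) (enc_rat _ 18909944527 67500000000)) (pr_cmul (enc_norm (kc0q1_3.enc h1.l h2)) (pr_norm (pr_subr 91833893531 33750000000 (pr_neg (pr_scaleT 74114856469 13500000000 (kc0q1_9_s.snd h1 h2))))))))))) (pr_case (pr_subr 181 397 (kc0q1_9_s.snd h1 h2)) (pr_sub (pr_add (pr_cadd (enc_rat _ 3 4) (pr_scaleT 3 2 h1)) (pr_scaleT 3 4 (pr_mul (pr_norm (pr_mul h1 (pr_nd (pr_inv (c1g_s.snd h1))))) (gug_s.snd h1)))) (pr_mul (kcg_s.snd (pr_norm (kc0q1_9_s.snd h1 h2)) h2) (pr_norm (pr_add (gug_s.snd h1) (pr_nat 2 (c1g_s.snd h1)))))) (pr_case (pr_subr 470613 1000000 (kc0q1_9_s.snd h1 h2)) (pr_add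 (pr_csub (enc_rat _ 777737961112279409 58333610000000000) (pr_scaleT 1589340894893 58333610000 (kc0q1_9_s.snd h1 h2))) (pr_cmul (enc_norm (kc0q1_3.enc h1.l h2)) (pr_norm (pr_subr 21117121068664848629 58333610000000000 (pr_scaleT 45091164556833 58333610000 (kc0q1_9_s.snd h1 h2)))))) (pr_add (pr_csub (enc_rat _ 255200 29387) (pr_scaleT 510400 29387 (kc0q1_9_s.snd h1 h2))) (pr_cmul (enc_norm (kc0q1_3.enc h1.l h2)) (pr_norm (pr_csub (enc_rat _ 886000 29387) (pr_scaleT 1772000 29387 (kc0q1_9_s.snd h1 h2))))))))))⟩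
noncomputable def yag_s : Sl1 yag := ⟨_, fun h1 => (pr_sqrt (pr_scaleT 4 3 (pr_csub (enc_pnc _ 1) (pr_sq h1))))⟩
noncomputable def kfc02_s : Sl2 kfc02 := ⟨_, fun h1 h2 => (pr_norm (pr_add h1 (pr_mul (pr_norm (pr_subn 1 (yag_s.snd h1))) (kcg_s.snd (pr_nd (pr_neg h1)) h2))))⟩
noncomputable def lc02_7_s : Sl2 lc02_7 := ⟨_, fun h1 h2 => (pr_scaleT 3 4 (yag_s.snd h1))⟩
noncomputable def lc02_8_s : Sl2 lc02_8 := ⟨_, fun h1 h2 => (pr_half h1)⟩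
noncomputable def lc02_s : Sl2 lc02 := ⟨_, fun h1 h2 => (pr_norm (pr_sub (txg_s.snd (pr_nd (pr_neg h1)) (pr_norm (pr_add (lc02_7_s.snd h1 h2) (lc02_8_s.snd h1 h2))) h2) (txg_s.snd h1 (pr_norm (pr_sub (lc02_7_s.snd h1 h2) (lc02_8_s.snd h1 h2))) h2)))⟩
noncomputable def kcc02_s : Sl2 kcc02 := ⟨_, fun h1 h2 => (pr_const (enc_pnc _ 0))⟩
noncomputable def swg_s : Sl1 swg := ⟨_, fun h1 => (pr_sqrt (pr_csub (enc_pnc _ 1) (pr_scaleT 3 4 (pr_sq (pr_norm (pr_subn 1 h1))))))⟩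
noncomputable def cv1m_s : Sl1 cv1m := ⟨_, fun h1 => (pr_norm (pr_add (pr_scaleT 4 5 (c1g_s.snd h1)) (pr_scaleT 1 5 (pr_addc (swg_s.snd h1) (enc_rat _ 1 2)))))⟩
noncomputable def bf1q0_20_s : Sl2 bf1q0_20 := ⟨_, fun h1 h2 => (pr_scaleT 39 20 h1)⟩
noncomputable def bf1q0_23_s : Sl2 bf1q0_23 := ⟨_, fun h1 h2 => (pr_csub (enc_rat _ 200001 200000) (bf1q0_20_s.snd h1 h2))⟩
noncomputable def bf1q0_73_s : Sl2 bf1q0_73 := ⟨_, fun h1 h2 => (pr_csub (enc_rat _ 100001 100000) (bf1q0_20_s.snd h1 h2))⟩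
noncomputable def bf1q0_82_s : Sl2 bf1q0_82 := ⟨_, fun h1 h2 => (pr_scaleT 839 100 h1)⟩
noncomputable def bf1q0_s : Sl2 bf1q0 := ⟨_, fun h1 h2 => (pr_norm (pr_case (pr_subr 11 200 h1) (pr_case (pr_subr 49 2000 h1) (pr_case (pr_subr 67 10000 h1) (pr_add (pr_csub (enc_pnc _ 1) (pr_scaleT 653 335 h1)) (pr_cmul (enc_norm (bf1q0_3.enc h1.l h2)) (pr_nd (pr_scaleT 562 67 h1)))) (pr_case (pr_subr 31 2000 h1) (pr_add (bf1q0_23_s.snd h1 h2) (pr_cmul (enc_norm (bf1q0_3.enc h1.l h2)) (pr_norm (pr_addc (pr_scaleT 369 44 h1) (enc_rat _ 1 88000))))) (pr_add (bf1q0_23_s.snd h1 h2) (pr_cmul (enc_norm (bf1q0_3.enc h1.l h2)) (pr_norm (pr_subr 1 5000 (pr_scaleT 42 5 h1))))))) (pr_case (pr_subr 303 10000 h1) (pr_add (bf1q0_23_s.snd h1 h2) (pr_cmul (enc_norm (bf1q0_3.enc h1.l h2)) (pr_norm (pr_addc (pr_scaleT 243 29 h1) (enc_rat _ 89 290000))))) (pr_case (pr_subr 1 25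 h1) (pr_add (pr_csub (enc_rat _ 48501 48500) (pr_scaleT 946 485 h1)) (pr_cmul (enc_norm (bf1q0_3.enc h1.l h2)) (pr_norm (pr_subr 17 242500 (pr_scaleT 814 97 h1))))) (pr_add (pr_csub (enc_rat _ 37499 37500) (pr_scaleT 731 375 h1)) (pr_cmul (enc_norm (bf1q0_3.enc h1.l h2)) (pr_norm (pr_addc (pr_scaleT 629 75 h1) (enc_rat _ 1 7500)))))))) (pr_case (pr_subr 4 25 h1) (pr_case (pr_subr 7 100 h1) (pr_add (bf1q0_73_s.snd h1 h2) (pr_cmul (enc_norm (bf1q0_3.enc h1.l h2)) (pr_norm (pr_subr 7 30000 (pr_scaleT 1259 150 h1))))) (pr_case (pr_subr 1 10 h1) (pr_add (bf1q0_73_s.snd h1 h2) (pr_cmul (enc_norm (bf1q0_3.enc h1.l h2)) (pr_nd (bf1q0_82_s.snd h1 h2)))) (pr_add (pr_csub (enc_rat _ 149999 150000) (pr_scaleT 11699 6000 h1)) (pr_cmul (enc_norm (bf1q0_3.enc h1.l h2)) (pr_norm (pr_addc (pr_scaleT 5033 600 h1) (enc_rat _ 1 6000))))))) (pr_case (pr_subr 1 4 h1)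 (pr_add (pr_csub (enc_rat _ 450001 450000) (pr_scaleT 17549 9000 h1)) (pr_cmul (enc_norm (bf1q0_3.enc h1.l h2)) (pr_norm (pr_subr 1 10000 (bf1q0_82_s.snd h1 h2))))) (pr_case (pr_subr 7 20 h1) (pr_add (pr_csub (enc_rat _ 200001 200000) (pr_scaleT 19499 10000 h1)) (pr_cmul (enc_norm (bf1q0_3.enc h1.l h2)) (pr_norm (pr_addc (pr_scaleT 8389 1000 h1) (enc_rat _ 3 20000))))) (pr_add (pr_csub (enc_rat _ 149999 150000) (pr_scaleT 3656 1875 h1)) (pr_cmul (enc_norm (bf1q0_3.enc h1.l h2)) (pr_norm (pr_subr 1 5000 (bf1q0_82_s.snd h1 h2))))))))))⟩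
noncomputable def kf1q0_s : Sl2 kf1q0 := ⟨_, fun h1 h2 => (pr_norm (pr_mul (cv1m_s.snd h1) (bf1q0_s.snd h1 h2)))⟩
noncomputable def bx1q0_31_s : Sl2 bx1q0_31 := ⟨_, fun h1 h2 => (pr_scaleT 2 5 h1)⟩
noncomputable def bx1q0_69_s : Sl2 bx1q0_69 := ⟨_, fun h1 h2 => (pr_cmul (enc_norm (bx1q0_3.enc h1.l h2)) (pr_norm (pr_subr 7 2000 (bx1q0_31_s.snd h1 h2))))⟩
noncomputable def bx1q0_95_s : Sl2 bx1q0_95 := ⟨_, fun h1 h2 => (pr_cmul (enc_norm (bx1q0_3.enc h1.l h2)) (pr_norm (pr_subr 23 6000 (pr_scaleT 121 300 h1))))⟩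
noncomputable def bx1q0_s : Sl2 bx1q0 := ⟨_, fun h1 h2 => (pr_norm (pr_case (pr_subr 11 200 h1) (pr_case (pr_subr 49 2000 h1) (pr_case (pr_subr 67 10000 h1) (pr_add (pr_scaleT 231 670 h1) (pr_cmul (enc_norm (bx1q0_3.enc h1.l h2)) (pr_nd (pr_scaleT 12 67 h1)))) (pr_case (pr_subr 31 2000 h1) (pr_add (pr_subr 103 550000 (pr_scaleT 41 110 h1)) (pr_cmul (enc_norm (bx1q0_3.enc h1.l h2)) (pr_norm (pr_subr 1 55000 (pr_scaleT 2 11 h1))))) (pr_add (pr_subr 59 300000 (pr_scaleT 28 75 h1)) (pr_cmul (enc_norm (bx1q0_3.enc h1.l h2)) (pr_norm (pr_subr 17 5000 (bx1q0_31_s.snd h1 h2))))))) (pr_case (pr_subr 303 10000 h1) (pr_add (pr_subr 101 580000 (pr_scaleT 54 145 h1)) (pr_cmul (enc_norm (bx1q0_3.enc h1.l h2)) (pr_norm (pr_subr 839 290000 (pr_scaleT 11 29 h1))))) (pr_case (pr_subr 1 25 h1) (pr_add (pr_subr 101 606250 (pr_scaleT 361 970 h1)) (pr_cmul (enc_norm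 (bx1q0_3.enc h1.l h2)) (pr_norm (pr_subr 139 38800 (pr_scaleT 39 97 h1))))) (pr_add (pr_addc (pr_scaleT 523 1500 h1) (enc_rat _ 29 37500)) (bx1q0_69_s.snd h1 h2))))) (pr_case (pr_subr 4 25 h1) (pr_case (pr_subr 7 100 h1) (pr_add (pr_addc (pr_scaleT 437 1500 h1) (enc_rat _ 589 150000)) (bx1q0_69_s.snd h1 h2)) (pr_case (pr_subr 1 10 h1) (pr_add (pr_addc (pr_scaleT 851 3000 h1) (enc_rat _ 1339 300000)) (bx1q0_69_s.snd h1 h2)) (pr_add (pr_addc (pr_scaleT 169 600 h1) (enc_rat _ 1399 300000)) (bx1q0_95_s.snd h1 h2)))) (pr_case (pr_subr 1 4 h1) (pr_add (pr_addc (pr_scaleT 2519 9000 h1) (enc_rat _ 4453 900000)) (bx1q0_95_s.snd h1 h2)) (pr_case (pr_subr 7 20 h1) (pr_add (pr_addc (pr_scaleT 1379 5000 h1) (enc_rat _ 597 100000)) (pr_cmul (enc_norm (bx1q0_3.enc h1.l h2)) (pr_norm (pr_subr 3 800 (pr_scaleT 403 1000 h1))))) (pr_add (pr_addc (pr_scaleT 277 1250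 h1) (enc_rat _ 1247 50000)) (pr_cmul (enc_norm (bx1q0_3.enc h1.l h2)) (pr_norm (pr_subr 109 30000 (pr_scaleT 151 375 h1))))))))))⟩
noncomputable def l1q0_s : Sl2 l1q0 := ⟨_, fun h1 h2 => (pr_norm (pr_mul (cv1m_s.snd h1) (bx1q0_s.snd h1 h2)))⟩
noncomputable def bd1q0_s : Sl2 bd1q0 := ⟨_, fun h1 h2 => (pr_norm (pr_case (pr_subr 3 100 h1) (pr_case (pr_subr 1 100 h1) (pr_sub (pr_neg (pr_scaleT 1177 100 h1)) (pr_cmul (enc_norm (bd1q0_3.enc h1.l h2)) (pr_nd (pr_scaleT 432 5 h1)))) (pr_add (pr_subr 51 10000 (pr_neg (pr_scaleT 563 50 h1))) (pr_cmul (enc_norm (bd1q0_3.enc h1.l h2)) (pr_norm (pr_csub (enc_rat _ 1 40) (pr_scaleT 889 10 h1)))))) (pr_case (pr_subr 303 10000 h1) (pr_add (pr_subr 1229 10000 (pr_neg (pr_scaleT 22 3 h1))) (pr_cmul (enc_norm (bd1q0_3.enc h1.l h2)) (pr_norm (pr_csub (enc_rat _ 2479 500) (pr_scaleT 760 3 h1))))) (pr_case (pr_subr 11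 200 h1) (pr_add (pr_subr 77431 617500 (pr_neg (pr_scaleT 1791 247 h1))) (pr_cmul (enc_norm (bd1q0_3.enc h1.l h2)) (pr_norm (pr_csub (enc_rat _ 697557 123500) (pr_scaleT 68200 247 h1))))) (pr_add (pr_subr 55817 445000 (pr_neg (pr_scaleT 16132 2225 h1))) (pr_cmul (enc_norm (bd1q0_3.enc h1.l h2)) (pr_norm (pr_csub (enc_rat _ 63177 11125) (pr_scaleT 123118 445 h1)))))))))⟩
noncomputable def kc1q0_s : Sl2 kc1q0 := ⟨_, fun h1 h2 => (pr_norm (pr_mul (cv1m_s.snd h1) (bd1q0_s.snd h1 h2)))⟩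
noncomputable def bf1q1_s : Sl2 bf1q1 := ⟨_, fun h1 h2 => (pr_norm (pr_case (pr_subr 4 5 h1) (pr_add (pr_subr 523687 300000 (pr_scaleT 16453 6000 h1)) (pr_cmul (enc_norm (bf1q1_3.enc h1.l h2)) (pr_norm (pr_csub (enc_rat _ 597413 6000) (pr_scaleT 80519 750 h1))))) (pr_case (pr_subr 91 100 h1) (pr_add (pr_subr 1920199 1100000 (pr_scaleT 7541 2750 h1)) (pr_cmul (enc_norm (bf1q1_3.enc h1.l h2)) (pr_norm (pr_csub (enc_rat _ 10952529 110000) (pr_scaleT 59047 550 h1))))) (pr_add (pr_subr 785507 450000 (pr_scaleT 24679 9000 h1)) (pr_cmul (enc_norm (bf1q1_3.enc h1.l h2)) (pr_norm (pr_csub (enc_rat _ 4480609 45000) (pr_scaleT 96623 900 h1))))))))⟩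
noncomputable def kf1q1_s : Sl2 kf1q1 := ⟨_, fun h1 h2 => (pr_norm (pr_mul (cv1m_s.snd h1) (bf1q1_s.snd h1 h2)))⟩
noncomputable def bx1q1_s : Sl2 bx1q1 := ⟨_, fun h1 h2 => (pr_norm (pr_case (pr_subr 4 5 h1) (pr_add (pr_addc (pr_scaleT 3407 30000 h1) (enc_rat _ 23687 300000)) (pr_cmul (enc_norm (bx1q1_3.enc h1.l h2)) (pr_norm (pr_subr 89 30000 (pr_scaleT 301 750 h1))))) (pr_case (pr_subr 91 100 h1) (pr_add (pr_addc (pr_scaleT 1249 11000 h1) (enc_rat _ 86871 1100000)) (pr_cmul (enc_norm (bx1q1_3.enc h1.l h2)) (pr_norm (pr_subr 289 110000 (pr_scaleT 441 1100 h1))))) (pr_add (pr_addc (pr_scaleT 511 4500 h1) (enc_rat _ 17767 225000)) (pr_cmul (enc_norm (bx1q1_3.enc h1.l h2)) (pr_norm (pr_subr 43 11250 (pr_scaleT 181 450 h1))))))))⟩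
noncomputable def l1q1_s : Sl2 l1q1 := ⟨_, fun h1 h2 => (pr_norm (pr_mul (cv1m_s.snd h1) (bx1q1_s.snd h1 h2)))⟩
noncomputable def bd1q1_s : Sl2 bd1q1 := ⟨_, fun h1 h2 => (pr_norm (pr_add (pr_subr 627 5000 (pr_neg (pr_scaleT 9063 1250 h1))) (pr_cmul (enc_norm (enc_subr 153 160 h2)) (pr_norm (pr_csub (enc_rat _ 5691 1000) (pr_scaleT 138347 500 h1))))))⟩
noncomputable def kc1q1_s : Sl2 kc1q1 := ⟨_, fun h1 h2 => (pr_norm (pr_mul (cv1m_s.snd h1) (bd1q1_s.snd h1 h2)))⟩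
noncomputable def cv1p_s : Sl1 cv1p := ⟨_, fun h1 => (pr_norm (pr_add (pr_scaleT 4 5 (c1g_s.snd h1)) (pr_scaleT 1 5 (pr_subr 1 2 (swg_s.snd h1)))))⟩
noncomputable def bf1q2_33_s : Sl2 bf1q2_33 := ⟨_, fun h1 h2 => (pr_scaleT 5037 1750 h1)⟩
noncomputable def bf1q2_59_s : Sl2 bf1q2_59 := ⟨_, fun h1 h2 => (pr_scaleT 57567 20000 h1)⟩
noncomputable def bf1q2_s : Sl2 bf1q2 := ⟨_, fun h1 h2 => (pr_norm (pr_case (pr_subr 577 500 h1) (pr_case (pr_subr 211 200 h1) (pr_case (pr_subr 10303 10000 h1) (pr_add (pr_csub (enc_rat _ 3917 1010) (pr_scaleT 2907 1010 h1)) (pr_cmul (enc_norm (bf1q2_3.enc h1.l h2)) (pr_norm (pr_subr 175 101 (pr_scaleT 175 101 h1))))) (pr_add (pr_csub (enc_rat _ 95800243 24700000) (pr_scaleT 711 247 h1)) (pr_cmul (enc_norm (bf1q2_3.enc h1.l h2)) (pr_norm (pr_subr 4280009 2470000 (pr_scaleT 428 247 h1)))))) (pr_case (pr_subr 109 100 h1)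 (pr_add (pr_csub (enc_rat _ 2714797 700000) (bf1q2_33_s.snd h1 h2)) (pr_cmul (enc_norm (bf1q2_3.enc h1.l h2)) (pr_norm (pr_subr 24239 14000 (pr_scaleT 303 175 h1))))) (pr_add (pr_csub (enc_rat _ 248216131 64000000) (pr_scaleT 1842159 640000 h1)) (pr_cmul (enc_norm (bf1q2_3.enc h1.l h2)) (pr_norm (pr_subr 3465377 2000000 (pr_scaleT 34653 20000 h1))))))) (pr_case (pr_subr 29 25 h1) (pr_case (pr_subr 231 200 h1) (pr_add (pr_csub (enc_rat _ 77567 20000) (bf1q2_59_s.snd h1 h2)) (pr_cmul (enc_norm (bf1q2_3.enc h1.l h2)) (pr_norm (pr_subr 4331 2500 (pr_scaleT 4331 2500 h1))))) (pr_add (pr_csub (enc_rat _ 1939637 500000) (pr_scaleT 57583 20000 h1)) (pr_cmul (enc_norm (bf1q2_3.enc h1.l h2)) (pr_norm (pr_subr 54253 31250 (pr_scaleT 4339 2500 h1)))))) (pr_case (pr_subr 13 10 h1) (pr_add (pr_csub (enc_rat _ 271479 70000) (bf1q2_33_s.snd h1 h2)) (pr_cmul (enc_norm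 (bf1q2_3.enc h1.l h2)) (pr_norm (pr_subr 60623 35000 (pr_scaleT 97 56 h1))))) (pr_add (pr_csub (enc_rat _ 775671 200000) (bf1q2_59_s.snd h1 h2)) (pr_cmul (enc_norm (bf1q2_3.enc h1.l h2)) (pr_norm (pr_subr 34651 20000 (pr_scaleT 693 400 h1)))))))))⟩
noncomputable def kf1q2_s : Sl2 kf1q2 := ⟨_, fun h1 h2 => (pr_norm (pr_mul (cv1p_s.snd h1) (bf1q2_s.snd h1 h2)))⟩
noncomputable def bx1q2_85_s : Sl2 bx1q2_85 := ⟨_, fun h1 h2 => (pr_subr 167811 100000 (pr_scaleT 2431 2000 h1))⟩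
noncomputable def bx1q2_s : Sl2 bx1q2 := ⟨_, fun h1 h2 => (pr_norm (pr_case (pr_subr 577 500 h1) (pr_case (pr_subr 211 200 h1) (pr_case (pr_subr 10303 10000 h1) (pr_add (pr_csub (enc_rat _ 2692 1515) (pr_scaleT 2692 1515 h1)) (pr_cmul (enc_norm (bx1q2_3.enc h1.l h2)) (pr_norm (pr_csub (enc_rat _ 454 101) (pr_scaleT 454 101 h1))))) (pr_add (pr_csub (enc_rat _ 14060829 6175000) (pr_scaleT 2794 1235 h1)) (pr_cmul (enc_norm (bx1q2_3.enc h1.l h2)) (pr_norm (pr_csub (enc_rat _ 217813 65000) (pr_scaleT 44 13 h1)))))) (pr_case (pr_subr 109 100 h1) (pr_add (pr_csub (enc_rat _ 227669 100000) (pr_scaleT 1131 500 h1)) (pr_cmul (enc_norm (bx1q2_3.enc h1.l h2)) (pr_norm (pr_subr 6427 35000 (pr_neg (pr_scaleT 6 175 h1)))))) (pr_add (pr_csub (enc_rat _ 40445219 32000000) (pr_scaleT 426511 320000 h1)) (pr_cmul (enc_norm (bx1q2_3.enc h1.l h2)) (pr_norm (pr_subr 688779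 3200000 (pr_neg (pr_scaleT 169 32000 h1)))))))) (pr_case (pr_subr 29 25 h1) (pr_casec1 (pr_subr 231 200 h1) (enc_sub (enc_neg (enc_rat _ 1370961 5000000)) (enc_scaleT 110669 500000 (bx1q2_3.enc h1.l h2))) (pr_add (pr_subr 4186401 2500000 (pr_scaleT 30311 25000 h1)) (pr_cmul (enc_norm (bx1q2_3.enc h1.l h2)) (pr_norm (pr_subr 3129829 250000 (pr_scaleT 26619 2500 h1)))))) (pr_case (pr_subr 13 10 h1) (pr_add (bx1q2_85_s.snd h1 h2) (pr_cmul (enc_norm (bx1q2_3.enc h1.l h2)) (pr_norm (pr_subr 179381 14000 (pr_scaleT 15261 1400 h1))))) (pr_add (bx1q2_85_s.snd h1 h2) (pr_cmul (enc_norm (bx1q2_3.enc h1.l h2)) (pr_norm (pr_subr 256487 20000 (pr_scaleT 21819 2000 h1)))))))))⟩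
noncomputable def l1q2_s : Sl2 l1q2 := ⟨_, fun h1 h2 => (pr_norm (pr_mul (cv1p_s.snd h1) (bx1q2_s.snd h1 h2)))⟩
noncomputable def bd1q2_s : Sl2 bd1q2 := ⟨_, fun h1 h2 => (pr_const (enc_pnc _ 0))⟩
noncomputable def kc1q2_s : Sl2 kc1q2 := ⟨_, fun h1 h2 => (pr_norm (pr_mul (cv1p_s.snd h1) (pr_nd (bd1q2_s.snd h1 h2))))⟩
noncomputable def cv1r_s : Sl1 cv1r := ⟨_, fun h1 => (pr_norm (pr_scaleT 1 5 (pr_subr 1 2 (swg_s.snd h1))))⟩
noncomputable def c3g_s : Sl1 c3g := ⟨_, fun h1 => (pr_sqrtg (pr_csub (enc_pnc _ 3) (pr_scaleT 3 4 (pr_sq h1))))⟩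
noncomputable def kf1q3_s : Sl2 kf1q3 := ⟨_, fun h1 h2 => (pr_norm (pr_mulz (fun ht => cv1r_two (enc_two h1.r ht)) (cv1r_s.snd h1) (pr_norm (pr_case (pr_subr 19697 10000 h1) (pr_case (pr_subr 191 100 h1) (pr_add (pr_csub (enc_rat _ 6896663 410000) (pr_scaleT 180261 20500 h1)) (pr_cmul (enc_norm (kf1q3_4.enc h1.l h2)) (pr_norm (pr_csub (enc_rat _ 504470197 410000) (pr_scaleT 640354 1025 h1))))) (pr_case (pr_subr 389 200 h1) (pr_add (pr_csub (enc_rat _ 367959 21875) (pr_scaleT 7694 875 h1)) (pr_cmul (enc_norm (kf1q3_4.enc h1.l h2)) (pr_norm (pr_csub (enc_rat _ 86129263 70000) (pr_scaleT 109329 175 h1))))) (pr_add (pr_csub (enc_rat _ 207738527 12350000) (pr_scaleT 21719 2470 h1)) (pr_cmul (enc_norm (kf1q3_4.enc h1.l h2)) (pr_norm (pr_csub (enc_rat _ 3039111671 2470000) (pr_scaleT 154309 247 h1))))))) (pr_case (pr_csub (enc_rat _ 215220381 1000000000)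 (c3g_s.snd h1)) (pr_case (pr_csub (enc_rat _ 33784661 125000000) (c3g_s.snd h1)) (pr_add (pr_csub (enc_rat _ 1203189076337 751872325000) (pr_scaleT 210190000 30074893 (c3g_s.snd h1))) (pr_cmul (enc_norm (kf1q3_4.enc h1.l h2)) (pr_norm (pr_subr 12355945631911 75187232500 (pr_scaleT 16442600000 30074893 (c3g_s.snd h1)))))) (pr_add (pr_csub (enc_rat _ 2202654243419 1376422675000) (pr_scaleT 384790000 55056907 (c3g_s.snd h1))) (pr_cmul (enc_norm (kf1q3_4.enc h1.l h2)) (pr_norm (pr_subr 4523892233183 27528453500 (pr_scaleT 30100700000 55056907 (c3g_s.snd h1))))))) (pr_case (pr_csub (enc_rat _ 141655683 1000000000) (c3g_s.snd h1)) (pr_add (pr_csub (enc_rat _ 3924051920277 2452156600000) (pr_scaleT 257065000 36782349 (c3g_s.snd h1))) (pr_cmul (enc_norm (kf1q3_4.enc h1.l h2)) (pr_norm (pr_subr 8059513445829 49043132000 (pr_scaleT 20109650000 36782349 (c3g_s.snd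 h1)))))) (pr_add (pr_csub (enc_rat _ 80013 50000) (pr_scaleT 990020000 141655683 (c3g_s.snd h1))) (pr_cmul (enc_norm (kf1q3_4.enc h1.l h2)) (pr_norm (pr_subr 1643351 10000 (pr_scaleT 25815300000 47218561 (c3g_s.snd h1))))))))))))⟩
noncomputable def l1q3_s : Sl2 l1q3 := ⟨_, fun h1 h2 => (pr_norm (pr_mulz (fun ht => cv1r_two (enc_two h1.r ht)) (cv1r_s.snd h1) (pr_norm (pr_case (pr_subr 19697 10000 h1) (pr_case (pr_subr 191 100 h1) (pr_add (pr_subr 430011 256250 (pr_scaleT 9967 8200 h1)) (pr_cmul (enc_norm (l1q3_4.enc h1.l h2)) (pr_norm (pr_subr 5259941 410000 (pr_scaleT 22371 2050 h1))))) (pr_case (pr_subr 389 200 h1) (pr_add (pr_subr 234917 140000 (pr_scaleT 2127 1750 h1)) (pr_cmul (enc_norm (l1q3_4.enc h1.l h2)) (pr_norm (pr_subr 897871 70000 (pr_scaleT 3819 350 h1))))) (pr_add (pr_subr 2181261 1300000 (pr_scaleT 79 65 h1)) (pr_cmul (enc_norm (l1q3_4.enc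 h1.l h2)) (pr_norm (pr_subr 792477 61750 (pr_scaleT 2696 247 h1))))))) (pr_case (pr_csub (enc_rat _ 215220381 1000000000) (c3g_s.snd h1)) (pr_case (pr_csub (enc_rat _ 33784661 125000000) (c3g_s.snd h1)) (pr_add (pr_csub (enc_rat _ 2447257146283 3007489300000) (pr_scaleT 9780000 30074893 (c3g_s.snd h1))) (pr_cmul (enc_norm (l1q3_4.enc h1.l h2)) (pr_norm (pr_addc (pr_scaleT 115900000 30074893 (c3g_s.snd h1)) (enc_rat _ 2258061750029 300748930000))))) (pr_add (pr_csub (enc_rat _ 4480262103589 5505690700000) (pr_scaleT 17910000 55056907 (c3g_s.snd h1))) (pr_cmul (enc_norm (l1q3_4.enc h1.l h2)) (pr_norm (pr_addc (pr_scaleT 212000000 55056907 (c3g_s.snd h1)) (enc_rat _ 4134212527219 550569070000)))))) (pr_case (pr_csub (enc_rat _ 141655683 1000000000) (c3g_s.snd h1)) (pr_add (pr_csub (enc_rat _ 498842333367 613039150000) (pr_scaleT 11960000 36782349 (c3g_s.snd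 h1))) (pr_cmul (enc_norm (l1q3_4.enc h1.l h2)) (pr_norm (pr_addc (pr_scaleT 141650000 36782349 (c3g_s.snd h1)) (enc_rat _ 1841294828591 245215660000))))) (pr_add (pr_csub (enc_rat _ 20343 25000) (pr_scaleT 46060000 141655683 (c3g_s.snd h1))) (pr_cmul (enc_norm (l1q3_4.enc h1.l h2)) (pr_norm (pr_addc (pr_scaleT 545600000 141655683 (c3g_s.snd h1)) (enc_rat _ 4693 625)))))))))))⟩
noncomputable def kc1q3_s : Sl2 kc1q3 := ⟨_, fun h1 h2 => (pr_norm (pr_mulz (fun ht => cv1r_two (enc_two h1.r ht)) (cv1r_s.snd h1) (pr_norm (pr_casec1 (pr_subr 19697 10000 h1) (enc_pnc _ 0) (pr_case (pr_csub (enc_rat _ 298872883 1000000000) (c3g_s.snd h1)) (pr_add (pr_csub (enc_rat _ 62773605829 2958596000) (pr_scaleT 52250000 739649 (c3g_s.snd h1))) (pr_cmul (enc_norm (kc1q3_4.enc h1.l h2)) (pr_norm (pr_subr 2380891738787 739649000 (pr_scaleT 7927000000 739649 (c3g_s.snd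 h1)))))) (pr_add (pr_csub (enc_rat _ 53063 2500) (pr_scaleT 21120700000 298872883 (c3g_s.snd h1))) (pr_cmul (enc_norm (kc1q3_4.enc h1.l h2)) (pr_norm (pr_subr 1609519 500 (pr_scaleT 3203184000000 298872883 (c3g_s.snd h1)))))))))))⟩
noncomputable def cv2m_s : Sl1 cv2m := ⟨_, fun h1 => (pr_norm (pr_add (pr_scaleT 2 5 (c1g_s.snd h1)) (pr_scaleT 3 5 (pr_addc (swg_s.snd h1) (enc_rat _ 1 2)))))⟩
noncomputable def bf2q0_66_s : Sl2 bf2q0_66 := ⟨_, fun h1 h2 => (pr_scaleT 281 125 h1)⟩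
noncomputable def bf2q0_69_s : Sl2 bf2q0_69 := ⟨_, fun h1 h2 => (pr_csub (enc_rat _ 25109 25000) (bf2q0_66_s.snd h1 h2))⟩
noncomputable def bf2q0_82_s : Sl2 bf2q0_82 := ⟨_, fun h1 h2 => (pr_scaleT 5021 200 h1)⟩
noncomputable def bf2q0_s : Sl2 bf2q0 := ⟨_, fun h1 h2 => (pr_norm (pr_case (pr_subr 1 25 h1) (pr_case (pr_subr 31 2000 h1) (pr_case (pr_subr 67 10000 h1) (pr_add (pr_csub (enc_pnc _ 1) (pr_scaleT 659 335 h1)) (pr_cmul (enc_norm (bf2q0_3.enc h1.l h2)) (pr_nd (pr_scaleT 1693 67 h1)))) (pr_add (pr_csub (enc_rat _ 8799993 8800000) (pr_scaleT 1731 880 h1)) (pr_cmul (enc_norm (bf2q0_3.enc h1.l h2)) (pr_norm (pr_addc (pr_scaleT 2223 88 h1) (enc_rat _ 43 880000)))))) (pr_case (pr_subr 49 2000 h1) (pr_add (pr_csub (enc_rat _ 1807831 1800000) (pr_scaleT 2023 900 h1)) (pr_cmul (enc_norm (bf2q0_3.enc h1.l h2)) (pr_norm (pr_addc (pr_scaleT 226 9 h1)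 (enc_rat _ 107 45000))))) (pr_case (pr_subr 303 10000 h1) (pr_add (pr_csub (enc_rat _ 728163 725000) (pr_scaleT 326 145 h1)) (pr_cmul (enc_norm (bf2q0_3.enc h1.l h2)) (pr_norm (pr_addc (pr_scaleT 728 29 h1) (enc_rat _ 93 36250))))) (pr_add (pr_csub (enc_rat _ 2435517 2425000) (pr_scaleT 218 97 h1)) (pr_cmul (enc_norm (bf2q0_3.enc h1.l h2)) (pr_norm (pr_addc (pr_scaleT 2435 97 h1) (enc_rat _ 2499 970000)))))))) (pr_case (pr_subr 4 25 h1) (pr_case (pr_subr 7 100 h1) (pr_add (bf2q0_69_s.snd h1 h2) (pr_cmul (enc_norm (bf2q0_3.enc h1.l h2)) (pr_norm (pr_addc (pr_scaleT 1883 75 h1) (enc_rat _ 73 30000))))) (pr_case (pr_subr 1 10 h1) (pr_add (bf2q0_69_s.snd h1 h2) (pr_cmul (enc_norm (bf2q0_3.enc h1.l h2)) (pr_norm (pr_addc (pr_scaleT 7531 300 h1) (enc_rat _ 1 375))))) (pr_add (bf2q0_69_s.snd h1 h2) (pr_cmul (enc_norm (bf2q0_3.enc h1.l h2)) (pr_norm (pr_addc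 (bf2q0_82_s.snd h1 h2) (enc_rat _ 1 400))))))) (pr_case (pr_subr 1 4 h1) (pr_add (pr_csub (enc_rat _ 225977 225000) (pr_scaleT 20231 9000 h1)) (pr_cmul (enc_norm (bf2q0_3.enc h1.l h2)) (pr_norm (pr_addc (pr_scaleT 11297 450 h1) (enc_rat _ 233 90000))))) (pr_case (pr_subr 7 20 h1) (pr_add (pr_csub (enc_rat _ 100437 100000) (bf2q0_66_s.snd h1 h2)) (pr_cmul (enc_norm (bf2q0_3.enc h1.l h2)) (pr_norm (pr_addc (bf2q0_82_s.snd h1 h2) (enc_rat _ 49 20000))))) (pr_add (pr_csub (enc_rat _ 37663 37500) (pr_scaleT 33719 15000 h1)) (pr_cmul (enc_norm (bf2q0_3.enc h1.l h2)) (pr_norm (pr_addc (pr_scaleT 37657 1500 h1) (enc_rat _ 77 30000))))))))))⟩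
noncomputable def kf2q0_s : Sl2 kf2q0 := ⟨_, fun h1 h2 => (pr_norm (pr_mul (cv2m_s.snd h1) (bf2q0_s.snd h1 h2)))⟩
noncomputable def bx2q0_s : Sl2 bx2q0 := ⟨_, fun h1 h2 => (pr_norm (pr_case (pr_subr 11 200 h1) (pr_case (pr_subr 49 2000 h1) (pr_case (pr_subr 67 10000 h1) (pr_add (pr_scaleT 53 67 h1) (pr_cmul (enc_norm (bx2q0_3.enc h1.l h2)) (pr_nd (pr_scaleT 131 67 h1)))) (pr_case (pr_subr 31 2000 h1) (pr_add (pr_addc (pr_scaleT 87 110 h1) (enc_rat _ 1 1100000)) (pr_cmul (enc_norm (bx2q0_3.enc h1.l h2)) (pr_norm (pr_subr 63 880000 (pr_scaleT 173 88 h1))))) (pr_add (pr_addc (pr_scaleT 689 900 h1) (enc_rat _ 709 1800000)) (pr_cmul (enc_norm (bx2q0_3.enc h1.l h2)) (pr_norm (pr_subr 6649 180000 (pr_scaleT 391 90 h1))))))) (pr_case (pr_subr 303 10000 h1) (pr_add (pr_addc (pr_scaleT 209 290 h1) (enc_rat _ 433 290000)) (pr_cmul (enc_norm (bx2q0_3.enc h1.l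 h2)) (pr_norm (pr_subr 2143 58000 (pr_scaleT 126 29 h1))))) (pr_case (pr_subr 1 25 h1) (pr_add (pr_addc (pr_scaleT 70 97 h1) (enc_rat _ 14201 9700000)) (pr_cmul (enc_norm (bx2q0_3.enc h1.l h2)) (pr_norm (pr_addc (pr_scaleT 20 97 h1) (enc_rat _ 85799 970000))))) (pr_add (pr_addc (pr_scaleT 467 750 h1) (enc_rat _ 1627 300000)) (pr_cmul (enc_norm (bx2q0_3.enc h1.l h2)) (pr_norm (pr_addc (pr_scaleT 29 150 h1) (enc_rat _ 2669 30000)))))))) (pr_case (pr_subr 4 25 h1) (pr_case (pr_subr 7 100 h1) (pr_add (pr_addc (pr_scaleT 463 750 h1) (enc_rat _ 343 60000)) (pr_cmul (enc_norm (bx2q0_3.enc h1.l h2)) (pr_norm (pr_addc (pr_scaleT 9 50 h1) (enc_rat _ 897 10000))))) (pr_case (pr_subr 1 10 h1) (pr_add (pr_addc (pr_scaleT 1663 3000 h1) (enc_rat _ 1519 150000)) (pr_cmul (enc_norm (bx2q0_3.enc h1.l h2)) (pr_norm (pr_addc (pr_scaleT 53 300 h1) (enc_rat _ 1349 15000)))))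 (pr_add (pr_csub (enc_rat _ 19733 300000) (pr_scaleT 13 6000 h1)) (pr_cmul (enc_norm (bx2q0_3.enc h1.l h2)) (pr_norm (pr_addc (pr_scaleT 17 100 h1) (enc_rat _ 453 5000))))))) (pr_case (pr_subr 1 4 h1) (pr_add (pr_csub (enc_rat _ 6751 100000) (pr_scaleT 13 1000 h1)) (pr_cmul (enc_norm (bx2q0_3.enc h1.l h2)) (pr_norm (pr_addc (pr_scaleT 1 6 h1) (enc_rat _ 1367 15000))))) (pr_case (pr_subr 7 20 h1) (pr_add (pr_csub (enc_rat _ 13517 200000) (pr_scaleT 133 10000 h1)) (pr_cmul (enc_norm (bx2q0_3.enc h1.l h2)) (pr_norm (pr_addc (pr_scaleT 41 250 h1) (enc_rat _ 459 5000))))) (pr_add (pr_csub (enc_rat _ 20279 300000) (pr_scaleT 1 75 h1)) (pr_cmul (enc_norm (bx2q0_3.enc h1.l h2)) (pr_norm (pr_addc (pr_scaleT 81 500 h1) (enc_rat _ 37 400))))))))))⟩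
noncomputable def l2q0_s : Sl2 l2q0 := ⟨_, fun h1 h2 => (pr_norm (pr_mul (cv2m_s.snd h1) (bx2q0_s.snd h1 h2)))⟩
noncomputable def bd2q0_s : Sl2 bd2q0 := ⟨_, fun h1 h2 => (pr_norm (pr_case (pr_subr 3 100 h1) (pr_case (pr_subr 1 100 h1) (pr_sub (pr_cmul (enc_norm (bd2q0_3.enc h1.l h2)) (pr_nd (pr_scaleT 2551 10 h1))) (pr_scaleT 584 25 h1)) (pr_add (pr_subr 1 20000 (pr_neg (pr_scaleT 4671 200 h1))) (pr_cmul (enc_norm (bd2q0_3.enc h1.l h2)) (pr_norm (pr_addc (pr_scaleT 5101 20 h1) (enc_rat _ 1 2000)))))) (pr_case (pr_subr 303 10000 h1) (pr_add (pr_subr 7 10000 (pr_neg (pr_scaleT 70 3 h1))) (pr_cmul (enc_norm (bd2q0_3.enc h1.l h2)) (pr_norm (pr_subr 6 125 (pr_scaleT 770 3 h1))))) (pr_case (pr_subr 11 200 h1) (pr_add (pr_subr 3 617500 (pr_neg (pr_scaleT 5769 247 h1))) (pr_cmul (enc_norm (bd2q0_3.enc h1.l h2)) (pr_norm (pr_subr 7 12350 (pr_scaleT 63010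 247 h1))))) (pr_add (pr_subr 31 890000 (pr_neg (pr_scaleT 103933 4450 h1))) (pr_cmul (enc_norm (bd2q0_3.enc h1.l h2)) (pr_norm (pr_subr 4 2225 (pr_scaleT 22706 89 h1)))))))))⟩
noncomputable def kc2q0_s : Sl2 kc2q0 := ⟨_, fun h1 h2 => (pr_norm (pr_mul (cv2m_s.snd h1) (bd2q0_s.snd h1 h2)))⟩
noncomputable def bf2q1_s : Sl2 bf2q1 := ⟨_, fun h1 h2 => (pr_norm (pr_case (pr_subr 4 5 h1) (pr_add (pr_csub (enc_rat _ 50903 75000) (pr_scaleT 2551 7500 h1)) (pr_cmul (enc_norm (bf2q1_3.enc h1.l h2)) (pr_norm (pr_subr 3082313 30000 (pr_scaleT 152627 1500 h1))))) (pr_case (pr_subr 91 100 h1) (pr_add (pr_csub (enc_rat _ 37327 55000) (pr_scaleT 3741 11000 h1)) (pr_cmul (enc_norm (bf2q1_3.enc h1.l h2)) (pr_norm (pr_subr 11301777 110000 (pr_scaleT 55963 550 h1))))) (pr_add (pr_csub (enc_rat _ 610913 900000) (pr_scaleT 1531 4500 h1)) (pr_cmul (enc_norm (bf2q1_3.enc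 h1.l h2)) (pr_norm (pr_subr 369877 3600 (pr_scaleT 22894 225 h1))))))))⟩
noncomputable def kf2q1_s : Sl2 kf2q1 := ⟨_, fun h1 h2 => (pr_norm (pr_mul (cv2m_s.snd h1) (bf2q1_s.snd h1 h2)))⟩
noncomputable def bx2q1_6_s : Sl2 bx2q1_6 := ⟨_, fun h1 h2 => (pr_scaleT 1 75 h1)⟩
noncomputable def bx2q1_s : Sl2 bx2q1 := ⟨_, fun h1 h2 => (pr_norm (pr_case (pr_subr 4 5 h1) (pr_add (pr_csub (enc_rat _ 20279 300000) (bx2q1_6_s.snd h1 h2)) (pr_cmul (enc_norm (bx2q1_3.enc h1.l h2)) (pr_norm (pr_addc (pr_scaleT 481 3000 h1) (enc_rat _ 7 75))))) (pr_case (pr_subr 91 100 h1) (pr_add (pr_csub (enc_rat _ 74383 1100000) (pr_scaleT 147 11000 h1)) (pr_cmul (enc_norm (bx2q1_3.enc h1.l h2)) (pr_norm (pr_addc (pr_scaleT 4 25 h1) (enc_rat _ 117 1250))))) (pr_add (pr_csub (enc_rat _ 10139 150000) (bx2q1_6_s.snd h1 h2)) (pr_cmul (enc_norm (bx2q1_3.enc h1.l h2)) (pr_norm (pr_addc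 (pr_scaleT 143 900 h1) (enc_rat _ 1703 18000))))))))⟩
noncomputable def l2q1_s : Sl2 l2q1 := ⟨_, fun h1 h2 => (pr_norm (pr_mul (cv2m_s.snd h1) (bx2q1_s.snd h1 h2)))⟩
noncomputable def bd2q1_s : Sl2 bd2q1 := ⟨_, fun h1 h2 => (pr_norm (pr_sub (pr_cmul (enc_norm (enc_subr 153 160 h2)) (pr_norm (pr_subr 1 1000 (pr_scaleT 127561 500 h1)))) (pr_scaleT 116779 5000 h1)))⟩
noncomputable def kc2q1_s : Sl2 kc2q1 := ⟨_, fun h1 h2 => (pr_norm (pr_mul (cv2m_s.snd h1) (bd2q1_s.snd h1 h2)))⟩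
noncomputable def cv2p_s : Sl1 cv2p := ⟨_, fun h1 => (pr_norm (pr_add (pr_scaleT 2 5 (c1g_s.snd h1)) (pr_scaleT 3 5 (pr_subr 1 2 (swg_s.snd h1)))))⟩
noncomputable def bf2q2_33_s : Sl2 bf2q2_33 := ⟨_, fun h1 h2 => (pr_csub (enc_rat _ 326601 175000) (pr_scaleT 758 875 h1))⟩
noncomputable def bf2q2_s : Sl2 bf2q2 := ⟨_, fun h1 h2 => (pr_norm (pr_case (pr_subr 109 100 h1) (pr_case (pr_subr 10303 10000 h1) (pr_add (pr_csub (enc_rat _ 377 202) (pr_scaleT 175 202 h1)) (pr_cmul (enc_norm (bf2q2_3.enc h1.l h2)) (pr_norm (pr_subr 13341 101 (pr_scaleT 13341 101 h1))))) (pr_case (pr_subr 211 200 h1) (pr_add (pr_csub (enc_rat _ 23044871 12350000) (pr_scaleT 2139 2470 h1)) (pr_cmul (enc_norm (bf2q2_3.enc h1.l h2)) (pr_norm (pr_subr 326259997 2470000 (pr_scaleT 32626 247 h1))))) (pr_add (bf2q2_33_s.snd h1 h2) (pr_cmul (enc_norm (bf2q2_3.enc h1.l h2)) (pr_norm (pr_subr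 4623099 35000 (pr_scaleT 46231 350 h1))))))) (pr_case (pr_subr 29 25 h1) (pr_add (bf2q2_33_s.snd h1 h2) (pr_cmul (enc_norm (bf2q2_3.enc h1.l h2)) (pr_norm (pr_subr 1320901 10000 (pr_scaleT 13209 100 h1))))) (pr_case (pr_subr 13 10 h1) (pr_add (bf2q2_33_s.snd h1 h2) (pr_cmul (enc_norm (bf2q2_3.enc h1.l h2)) (pr_norm (pr_subr 9246249 70000 (pr_scaleT 7397 56 h1))))) (pr_add (pr_csub (enc_rat _ 373249 200000) (pr_scaleT 693 800 h1)) (pr_cmul (enc_norm (bf2q2_3.enc h1.l h2)) (pr_norm (pr_subr 1320889 10000 (pr_scaleT 132089 1000 h1)))))))))⟩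
noncomputable def kf2q2_s : Sl2 kf2q2 := ⟨_, fun h1 h2 => (pr_norm (pr_mul (cv2p_s.snd h1) (bf2q2_s.snd h1 h2)))⟩
noncomputable def bx2q2_s : Sl2 bx2q2 := ⟨_, fun h1 h2 => (pr_norm (pr_case (pr_subr 109 100 h1) (pr_case (pr_subr 10303 10000 h1) (pr_add (pr_csub (enc_rat _ 284 303) (pr_scaleT 284 303 h1)) (pr_cmul (enc_norm (bx2q2_3.enc h1.l h2)) (pr_norm (pr_subr 543 101 (pr_scaleT 543 101 h1))))) (pr_case (pr_subr 211 200 h1) (pr_add (pr_csub (enc_rat _ 5790067 6175000) (pr_scaleT 1158 1235 h1)) (pr_cmul (enc_norm (bx2q2_3.enc h1.l h2)) (pr_norm (pr_subr 6634859 1235000 (pr_scaleT 1327 247 h1))))) (pr_add (pr_csub (enc_rat _ 163997 175000) (pr_scaleT 164 175 h1)) (pr_cmul (enc_norm (bx2q2_3.enc h1.l h2)) (pr_norm (pr_subr 187783 35000 (pr_scaleT 939 175 h1))))))) (pr_case (pr_subr 29 25 h1) (pr_add (pr_csub (enc_rat _ 328103 350000) (pr_scaleT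 3281 3500 h1)) (pr_cmul (enc_norm (bx2q2_3.enc h1.l h2)) (pr_norm (pr_subr 375021 70000 (pr_scaleT 3751 700 h1))))) (pr_case (pr_subr 13 10 h1) (pr_add (pr_subr 604943 350000 (pr_scaleT 381 280 h1)) (pr_cmul (enc_norm (bx2q2_3.enc h1.l h2)) (pr_norm (pr_addc (pr_scaleT 101 280 h1) (enc_rat _ 6161 14000))))) (pr_add (pr_subr 43213 25000 (pr_scaleT 1701 1250 h1)) (pr_cmul (enc_norm (bx2q2_3.enc h1.l h2)) (pr_norm (pr_addc (pr_scaleT 89 250 h1) (enc_rat _ 2231 5000)))))))))⟩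
noncomputable def l2q2_s : Sl2 l2q2 := ⟨_, fun h1 h2 => (pr_norm (pr_mul (cv2p_s.snd h1) (bx2q2_s.snd h1 h2)))⟩
noncomputable def bd2q2_s : Sl2 bd2q2 := ⟨_, fun h1 h2 => (pr_norm (pr_case (pr_subr 231 200 h1) (pr_add (pr_subr 37439 1550 (pr_scaleT 37439 1550 h1)) (pr_cmul (enc_norm (bd2q2_3.enc h1.l h2)) (pr_norm (pr_csub (enc_rat _ 25316 155) (pr_scaleT 25316 155 h1))))) (pr_add (pr_subr 5555467 230000 (pr_scaleT 41666 1725 h1)) (pr_cmul (enc_norm (bd2q2_3.enc h1.l h2)) (pr_norm (pr_csub (enc_rat _ 751321 4600) (pr_scaleT 18783 115 h1)))))))⟩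
noncomputable def kc2q2_s : Sl2 kc2q2 := ⟨_, fun h1 h2 => (pr_norm (pr_mul (cv2p_s.snd h1) (bd2q2_s.snd h1 h2)))⟩
noncomputable def cv2r_s : Sl1 cv2r := ⟨_, fun h1 => (pr_norm (pr_scaleT 3 5 (pr_subr 1 2 (swg_s.snd h1))))⟩
noncomputable def kf2q3_s : Sl2 kf2q3 := ⟨_, fun h1 h2 => (pr_norm (pr_mulz (fun ht => cv2r_two (enc_two h1.r ht)) (cv2r_s.snd h1) (pr_norm (pr_case (pr_subr 19697 10000 h1) (pr_case (pr_subr 191 100 h1) (pr_add (pr_subr 461013 51250 (pr_scaleT 92441 20500 h1)) (pr_cmul (enc_norm (kf2q3_4.enc h1.l h2)) (pr_norm (pr_csub (enc_rat _ 375760553 410000) (pr_scaleT 1986097 4100 h1))))) (pr_case (pr_subr 389 200 h1) (pr_add (pr_subr 393557 43750 (pr_scaleT 15783 3500 h1)) (pr_cmul (enc_norm (kf2q3_4.enc h1.l h2)) (pr_norm (pr_csub (enc_rat _ 16038573 17500) (pr_scaleT 33909 70 h1))))) (pr_add (pr_subr 8887417 988000 (pr_scaleT 5569 1235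 h1)) (pr_cmul (enc_norm (kf2q3_4.enc h1.l h2)) (pr_norm (pr_csub (enc_rat _ 2263723627 2470000) (pr_scaleT 119650 247 h1))))))) (pr_case (pr_csub (enc_rat _ 215220381 1000000000) (c3g_s.snd h1)) (pr_case (pr_csub (enc_rat _ 33784661 125000000) (c3g_s.snd h1)) (pr_add (pr_subr 1397598034699 3007489300000 (pr_scaleT 35180000 30074893 (c3g_s.snd h1))) (pr_cmul (enc_norm (kf2q3_4.enc h1.l h2)) (pr_norm (pr_csub (enc_rat _ 11289636751 75187232500) (pr_scaleT 3786100000 30074893 (c3g_s.snd h1)))))) (pr_add (pr_subr 2557915533629 5505690700000 (pr_scaleT 64380000 55056907 (c3g_s.snd h1))) (pr_cmul (enc_norm (kf2q3_4.enc h1.l h2)) (pr_norm (pr_csub (enc_rat _ 20692994033 137642267500) (pr_scaleT 6931100000 55056907 (c3g_s.snd h1))))))) (pr_case (pr_csub (enc_rat _ 141655683 1000000000) (c3g_s.snd h1)) (pr_add (pr_subr 569694878773 1226078300000 (pr_scaleT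 14340000 12260783 (c3g_s.snd h1))) (pr_cmul (enc_norm (kf2q3_4.enc h1.l h2)) (pr_norm (pr_csub (enc_rat _ 18489731691 122607830000) (pr_scaleT 4630600000 36782349 (c3g_s.snd h1)))))) (pr_add (pr_subr 46463 100000 (pr_scaleT 55220000 47218561 (c3g_s.snd h1))) (pr_cmul (enc_norm (kf2q3_4.enc h1.l h2)) (pr_norm (pr_csub (enc_rat _ 1509 10000) (pr_scaleT 1371800000 10896591 (c3g_s.snd h1))))))))))))⟩
noncomputable def l2q3_s : Sl2 l2q3 := ⟨_, fun h1 h2 => (pr_norm (pr_mulz (fun ht => cv2r_two (enc_two h1.r ht)) (cv2r_s.snd h1) (pr_norm (pr_case (pr_subr 19697 10000 h1) (pr_case (pr_subr 191 100 h1) (pr_add (pr_subr 1771703 1025000 (pr_scaleT 6974 5125 h1)) (pr_cmul (enc_norm (l2q3_4.enc h1.l h2)) (pr_norm (pr_addc (pr_scaleT 1453 4100 h1) (enc_rat _ 45983 102500))))) (pr_case (pr_subr 389 200 h1) (pr_add (pr_subr 605023 350000 (pr_scaleT 4763 3500 h1))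 (pr_cmul (enc_norm (l2q3_4.enc h1.l h2)) (pr_norm (pr_addc (pr_scaleT 62 175 h1) (enc_rat _ 31417 70000))))) (pr_add (pr_subr 42691169 24700000 (pr_scaleT 3361 2470 h1)) (pr_cmul (enc_norm (l2q3_4.enc h1.l h2)) (pr_norm (pr_addc (pr_scaleT 88 247 h1) (enc_rat _ 1099013 2470000))))))) (pr_case (pr_csub (enc_rat _ 215220381 1000000000) (c3g_s.snd h1)) (pr_case (pr_csub (enc_rat _ 33784661 125000000) (c3g_s.snd h1)) (pr_add (pr_addc (pr_scaleT 5220000 30074893 (c3g_s.snd h1)) (enc_rat _ 270586477683 300748930000)) (pr_cmul (enc_norm (l2q3_4.enc h1.l h2)) (pr_norm (pr_csub (enc_rat _ 2125774808149 150374465000) (pr_scaleT 1300700000 30074893 (c3g_s.snd h1)))))) (pr_add (pr_addc (pr_scaleT 12120000 55056907 (c3g_s.snd h1)) (enc_rat _ 2442110428689 2752845350000)) (pr_cmul (enc_norm (l2q3_4.enc h1.l h2)) (pr_norm (pr_subr 155073932693 275284535000 (pr_scaleT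 613300000 55056907 (c3g_s.snd h1))))))) (pr_case (pr_csub (enc_rat _ 141655683 1000000000) (c3g_s.snd h1)) (pr_add (pr_addc (pr_scaleT 8095000 36782349 (c3g_s.snd h1)) (enc_rat _ 2175393077087 2452156600000)) (pr_cmul (enc_norm (l2q3_4.enc h1.l h2)) (pr_norm (pr_subr 27603363701 49043132000 (pr_scaleT 136550000 12260783 (c3g_s.snd h1)))))) (pr_add (pr_addc (pr_scaleT 10390000 47218561 (c3g_s.snd h1)) (enc_rat _ 44357 50000)) (pr_cmul (enc_norm (l2q3_4.enc h1.l h2)) (pr_norm (pr_subr 1407 2500 (pr_scaleT 1577600000 141655683 (c3g_s.snd h1))))))))))))⟩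
noncomputable def kc2q3_s : Sl2 kc2q3 := ⟨_, fun h1 h2 => (pr_norm (pr_mulz (fun ht => cv2r_two (enc_two h1.r ht)) (cv2r_s.snd h1) (pr_norm (pr_case (pr_subr 19697 10000 h1) (pr_case (pr_subr 389 200 h1) (pr_add (pr_subr 21497181 890000 (pr_scaleT 53743 2225 h1)) (pr_cmul (enc_norm (kc2q3_4.enc h1.l h2)) (pr_norm (pr_csub (enc_rat _ 2907283 17800) (pr_scaleT 72682 445 h1))))) (pr_add (pr_subr 3139959 130000 (pr_scaleT 314 13 h1)) (pr_cmul (enc_norm (kc2q3_4.enc h1.l h2)) (pr_norm (pr_csub (enc_rat _ 40337591 247000) (pr_scaleT 40340 247 h1)))))) (pr_case (pr_csub (enc_rat _ 298872883 1000000000) (c3g_s.snd h1)) (pr_add (pr_addc (pr_scaleT 41650000 739649 (c3g_s.snd h1)) (enc_rat _ 96292248681 14792980000)) (pr_cmul (enc_norm (kc2q3_4.enc h1.l h2)) (pr_norm (pr_subr 109646541423 1479298000 (pr_neg (pr_scaleT 207500000 739649 (c3g_s.snd h1)))))))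 (pr_add (pr_addc (pr_scaleT 16824500000 298872883 (c3g_s.snd h1)) (enc_rat _ 13029 2000)) (pr_cmul (enc_norm (kc2q3_4.enc h1.l h2)) (pr_norm (pr_subr 74139 1000 (pr_neg (pr_scaleT 83827000000 298872883 (c3g_s.snd h1))))))))))))⟩
noncomputable def cv3m_s : Sl1 cv3m := ⟨_, fun h1 => (pr_norm (pr_add (pr_scaleT 9481 10000 (pr_addc (swg_s.snd h1) (enc_rat _ 1 2))) (pr_scaleT 519 10000 (c3g_s.snd h1))))⟩
noncomputable def esg_s : Sl1 esg := ⟨_, fun h1 => (pr_norm (pr_subn 1 (pr_add (pr_half h1) (gsg_s.snd h1))))⟩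
noncomputable def kf3q0_137_s : Sl2 kf3q0_137 := ⟨_, fun h1 h2 => (pr_csub (enc_pnc _ 1) h1)⟩
noncomputable def kf3q0_138_s : Sl2 kf3q0_138 := ⟨_, fun h1 h2 => (gsg_s.snd (pr_norm (kf3q0_137_s.snd h1 h2)))⟩
noncomputable def kf3q0_141_s : Sl2 kf3q0_141 := ⟨_, fun h1 h2 => (pr_sub (pr_scaleT 3 4 (kf3q0_137_s.snd h1 h2)) (pr_half (kf3q0_138_s.snd h1 h2)))⟩
noncomputable def kf3q0_142_s : Sl2 kf3q0_142 := ⟨_, fun h1 h2 => (esg_s.snd (pr_norm (kf3q0_137_s.snd h1 h2)))⟩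
noncomputable def kf3q0_143_s : Sl2 kf3q0_143 := ⟨_, fun h1 h2 => (kcg_s.snd (pr_norm (kf3q0_141_s.snd h1 h2)) h2)⟩
noncomputable def kf3q0_150_s : Sl2 kf3q0_150 := ⟨_, fun h1 h2 => (pr_sub (kf3q0_141_s.snd h1 h2) (pr_csub (enc_rat _ 1 4) (pr_scaleT 3 8 (pr_mul (pr_norm (kf3q0_137_s.snd h1 h2)) (pr_nd (pr_inv (kf3q0_138_s.snd h1 h2)))))))⟩
noncomputable def kf3q0_159_s : Sl2 kf3q0_159 := ⟨_, fun h1 h2 => (pr_mul (cv2m_s.snd h1) (bf2q0_s.snd h1 h2))⟩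
noncomputable def kf3q0_s : Sl2 kf3q0 := ⟨_, fun h1 h2 => (pr_norm (pr_case (pr_subr 303 10000 h1) (pr_mul (cv3m_s.snd h1) (pr_norm (pr_case (pr_subr 31 2000 h1) (pr_case (pr_subr 67 10000 h1) (pr_add (pr_csub (enc_rat _ 19069 20000) (pr_scaleT 2066 335 h1)) (pr_cmul (enc_norm (kf3q0_4.enc h1.l h2)) (pr_norm (pr_subr 239 625 (pr_neg (pr_scaleT 3199 67 h1)))))) (pr_add (pr_csub (enc_rat _ 8390353 8800000) (pr_scaleT 5427 880 h1)) (pr_cmul (enc_norm (kf3q0_4.enc h1.l h2)) (pr_norm (pr_subr 3059 8000 (pr_neg (pr_scaleT 191 4 h1))))))) (pr_case (pr_subr 49 2000 h1) (pr_add (pr_csub (enc_rat _ 286033 300000) (pr_scaleT 37 6 h1)) (pr_cmul (enc_norm (kf3q0_4.enc h1.l h2)) (pr_norm (pr_subr 17203 45000 (pr_neg (pr_scaleT 2149 45 h1)))))) (pr_add (pr_csub (enc_rat _ 552980653 580000000) (pr_scaleT 1787997 290000 h1)) (pr_cmul (enc_norm (kf3q0_4.enc h1.l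 h2)) (pr_norm (pr_subr 277237937 725000000 (pr_neg (pr_scaleT 17309787 362500 h1)))))))))) (pr_case (pr_subr 11 200 h1) (pr_add (kf3q0_159_s.snd h1 h2) (pr_mul (pr_norm (pr_mul (pr_norm (pr_sub (pr_wB0 (pr_mul h1 (pr_norm (pr_sub (pr_mul (pr_norm (kf3q0_150_s.snd h1 h2)) (pr_nd (pr_inv (kf3q0_142_s.snd h1 h2)))) (kf3q0_143_s.snd h1 h2)))) (kf3q0_137_s.snd h1 h2) (kf3q0_138_s.snd h1 h2) (kf3q0_142_s.snd h1 h2) h1 (kf3q0_150_s.snd h1 h2) (kf3q0_143_s.snd h1 h2) rfl rfl rfl rfl rfl rfl rfl rfl) (kf3q0_159_s.snd h1 h2))) (pr_norm (pr_sub (cv3m_s.snd h1) (cv2m_s.snd h1))))) (pr_nd (pr_inv (pr_sub (pr_addc (swg_s.snd h1) (enc_rat _ 1 2)) (cv2m_s.snd h1)))))) (pr_mul (cv3m_s.snd h1) (pr_norm (pr_case (pr_subr 4 25 h1) (pr_case (pr_subr 7 100 h1) (pr_add (pr_csub (enc_rat _ 4685015503 5000000000) (pr_scaleT 214937929 50000000 h1)) (pr_cmul (enc_norm (kf3q0_4.enc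 h1.l h2)) (pr_norm (pr_subr 3389900387 750000000 (pr_scaleT 387489341 7500000 h1))))) (pr_case (pr_subr 1 10 h1) (pr_add (pr_csub (enc_rat _ 281113 300000) (pr_scaleT 6449 1500 h1)) (pr_cmul (enc_norm (kf3q0_4.enc h1.l h2)) (pr_norm (pr_subr 16949 3750 (pr_scaleT 15499 300 h1))))) (pr_add (pr_csub (enc_rat _ 93701 100000) (pr_scaleT 4299 1000 h1)) (pr_cmul (enc_norm (kf3q0_4.enc h1.l h2)) (pr_norm (pr_subr 45199 10000 (pr_scaleT 10333 200 h1))))))) (pr_case (pr_subr 1 4 h1) (pr_add (pr_csub (enc_rat _ 843341 900000) (pr_scaleT 38693 9000 h1)) (pr_cmul (enc_norm (kf3q0_4.enc h1.l h2)) (pr_norm (pr_subr 406783 90000 (pr_scaleT 23249 450 h1))))) (pr_case (pr_subr 7 20 h1) (pr_add (pr_csub (enc_rat _ 187403 200000) (pr_scaleT 42991 10000 h1)) (pr_cmul (enc_norm (kf3q0_4.enc h1.l h2)) (pr_norm (pr_subr 45197 10000 (pr_scaleT 6458 125 h1))))) (pr_add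 (pr_csub (enc_rat _ 70277 75000) (pr_scaleT 64487 15000 h1)) (pr_cmul (enc_norm (kf3q0_4.enc h1.l h2)) (pr_norm (pr_subr 67799 15000 (pr_scaleT 77497 1500 h1)))))))))))))⟩
noncomputable def qsg_s : Sl1 qsg := ⟨_, fun h1 => (pr_norm (pr_mul (pr_norm (pr_csub (enc_pnc _ 1) (gsg_s.snd h1))) (pr_norm (pr_subn 1 (pr_nat 2 (gsg_s.snd h1))))))⟩
noncomputable def l3q0_134_s : Sl2 l3q0_134 := ⟨_, fun h1 h2 => (pr_csub (enc_pnc _ 1) h1)⟩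
noncomputable def l3q0_149_s : Sl2 l3q0_149 := ⟨_, fun h1 h2 => (pr_mul (cv2m_s.snd h1) (bx2q0_s.snd h1 h2))⟩
noncomputable def l3q0_s : Sl2 l3q0 := ⟨_, fun h1 h2 => (pr_norm (pr_case (pr_subr 303 10000 h1) (pr_mul (cv3m_s.snd h1) (pr_norm (pr_case (pr_subr 31 2000 h1) (pr_case (pr_subr 67 10000 h1) (pr_add (pr_addc (pr_scaleT 343 335 h1) (enc_rat _ 3297 100000)) (pr_cmul (enc_norm (l3q0_4.enc h1.l h2)) (pr_norm (pr_addc (pr_scaleT 6 67 h1) (enc_rat _ 13 250))))) (pr_add (pr_addc (pr_scaleT 901 880 h1) (enc_rat _ 290137 8800000)) (pr_cmul (enc_norm (l3q0_4.enc h1.l h2)) (pr_norm (pr_addc (pr_scaleT 1 11 h1) (enc_rat _ 5719 110000)))))) (pr_case (pr_subr 49 2000 h1) (pr_add (pr_addc (pr_scaleT 911 900 h1) (enc_rat _ 59671 1800000)) (pr_cmul (enc_norm (l3q0_4.enc h1.l h2)) (pr_norm (pr_addc (pr_scaleT 1 15 h1) (enc_rat _ 1571 30000))))) (pr_add (pr_add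 (pr_addc (pr_scaleT 50361739 58000000 h1) (enc_rat _ 4254474789 116000000000)) (pr_cmul (enc_norm (l3q0_4.enc h1.l h2)) (pr_norm (pr_csub (enc_rat _ 730032839 2900000000) (pr_scaleT 11702711 1450000 h1))))) (pr_cmul (l3q0_49.enc h1.l h2) (pr_norm (pr_subr 1185359 464000 (pr_scaleT 24191 232 h1))))))))) (pr_case (pr_subr 11 200 h1) (pr_add (l3q0_149_s.snd h1 h2) (pr_mul (pr_norm (pr_mul (pr_norm (pr_sub (pr_sub (qsg_s.snd (pr_norm (l3q0_134_s.snd h1 h2))) (pr_mul (pr_norm (pr_nat 2 (pr_subc (l3q0_134_s.snd h1 h2) h2))) (pr_norm (pr_mul (esg_s.snd (pr_norm (l3q0_134_s.snd h1 h2))) (kcg_s.snd (pr_norm (pr_sub (pr_scaleT 3 4 (l3q0_134_s.snd h1 h2)) (pr_half (gsg_s.snd (pr_norm (l3q0_134_s.snd h1 h2)))))) h2))))) (l3q0_149_s.snd h1 h2))) (pr_norm (pr_sub (cv3m_s.snd h1) (cv2m_s.snd h1))))) (pr_nd (pr_inv (pr_sub (pr_addc (swg_s.snd h1) (enc_rat _ 1 2))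 (cv2m_s.snd h1)))))) (pr_mul (cv3m_s.snd h1) (pr_norm (pr_case (pr_subr 4 25 h1) (pr_case (pr_subr 7 100 h1) (pr_add (pr_add (pr_addc (pr_scaleT 2065907 18750000 h1) (enc_rat _ 142644901 1875000000)) (pr_cmul (enc_norm (l3q0_4.enc h1.l h2)) (pr_norm (pr_csub (enc_rat _ 1598028583 1500000000) (pr_scaleT 258418369 15000000 h1))))) (pr_cmul (l3q0_49.enc h1.l h2) (pr_norm (pr_csub (enc_rat _ 512323 300000) (pr_scaleT 73189 3000 h1))))) (pr_case (pr_subr 1 10 h1) (pr_add (pr_addc (pr_scaleT 11 100 h1) (enc_rat _ 7609 100000)) (pr_cmul (enc_norm (l3q0_4.enc h1.l h2)) (pr_norm (pr_csub (enc_rat _ 107 2500) (pr_scaleT 131 50 h1))))) (pr_add (pr_addc (pr_scaleT 331 3000 h1) (enc_rat _ 22817 300000)) (pr_cmul (enc_norm (l3q0_4.enc h1.l h2)) (pr_norm (pr_csub (enc_rat _ 301 7500) (pr_scaleT 389 150 h1))))))) (pr_case (pr_subr 1 4 h1) (pr_add (pr_addc (pr_scaleT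 991 9000 h1) (enc_rat _ 68483 900000)) (pr_cmul (enc_norm (l3q0_4.enc h1.l h2)) (pr_norm (pr_csub (enc_rat _ 87 2500) (pr_scaleT 64 25 h1))))) (pr_case (pr_subr 7 20 h1) (pr_add (pr_addc (pr_scaleT 1099 10000 h1) (enc_rat _ 15229 200000)) (pr_cmul (enc_norm (l3q0_4.enc h1.l h2)) (pr_norm (pr_csub (enc_rat _ 13 625) (pr_scaleT 313 125 h1))))) (pr_add (pr_csub (enc_rat _ 13081 75000) (pr_scaleT 2563 15000 h1)) (pr_cmul (enc_norm (l3q0_4.enc h1.l h2)) (pr_norm (pr_subr 15193 15000 (pr_scaleT 337 750 h1)))))))))))))⟩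
noncomputable def kc3q0_16_s : Sl2 kc3q0_16 := ⟨_, fun h1 h2 => (pr_cmul (enc_norm (kc3q0_4.enc h1.l h2)) (pr_norm (pr_subr 1149 1000 (pr_scaleT 3971 5 h1))))⟩
noncomputable def kc3q0_53_s : Sl2 kc3q0_53 := ⟨_, fun h1 h2 => (pr_csub (enc_pnc _ 1) h1)⟩
noncomputable def kc3q0_54_s : Sl2 kc3q0_54 := ⟨_, fun h1 h2 => (gsg_s.snd (pr_norm (kc3q0_53_s.snd h1 h2)))⟩
noncomputable def kc3q0_58_s : Sl2 kc3q0_58 := ⟨_, fun h1 h2 => (esg_s.snd (pr_norm (kc3q0_53_s.snd h1 h2)))⟩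
noncomputable def kc3q0_62_s : Sl2 kc3q0_62 := ⟨_, fun h1 h2 => (gug_s.snd (pr_norm (kc3q0_53_s.snd h1 h2)))⟩
noncomputable def kc3q0_64_s : Sl2 kc3q0_64 := ⟨_, fun h1 h2 => (pr_mul (pr_norm (kc3q0_53_s.snd h1 h2)) (pr_nd (pr_inv (kc3q0_54_s.snd h1 h2))))⟩
noncomputable def kc3q0_65_s : Sl2 kc3q0_65 := ⟨_, fun h1 h2 => (pr_scaleT 3 4 (kc3q0_64_s.snd h1 h2))⟩
noncomputable def kc3q0_95_s : Sl2 kc3q0_95 := ⟨_, fun h1 h2 => (pr_mul (cv2m_s.snd h1) (bd2q0_s.snd h1 h2))⟩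
noncomputable def kc3q0_s : Sl2 kc3q0 := ⟨_, fun h1 h2 => (pr_norm (pr_case (pr_subr 303 10000 h1) (pr_mul (cv3m_s.snd h1) (pr_norm (pr_case (pr_subr 1 100 h1) (pr_add (pr_subr 1583 5000 (pr_neg (pr_scaleT 1941 50 h1))) (kc3q0_16_s.snd h1 h2)) (pr_case (pr_subr 3 100 h1) (pr_add (pr_subr 6333 20000 (pr_neg (pr_scaleT 7763 200 h1))) (kc3q0_16_s.snd h1 h2)) (pr_add (pr_subr 7933087 25000000 (pr_neg (pr_scaleT 29094413 750000 h1))) (pr_cmul (enc_norm (kc3q0_4.enc h1.l h2)) (pr_norm (pr_subr 5576121 5000000 (pr_scaleT 39653707 50000 h1))))))))) (pr_case (pr_subr 11 200 h1) (pr_add (kc3q0_95_s.snd h1 h2) (pr_mul (pr_norm (pr_mul (pr_norm (pr_sub (pr_add (pr_sub (pr_neg (pr_add (pr_cadd (enc_rat _ 3 4) (pr_scaleT 3 2 (kc3q0_53_s.snd h1 h2))) (pr_scaleT 3 4 (pr_mul (pr_norm (kc3q0_64_s.snd h1 h2)) (kc3q0_62_s.snd h1 h2))))) (pr_wT (pr_mul (pr_norm (pr_sub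 (pr_mul (pr_norm (pr_mul (pr_norm (kc3q0_65_s.snd h1 h2)) (pr_norm (pr_subn 3 (pr_nat 4 (kc3q0_54_s.snd h1 h2)))))) (kc3q0_58_s.snd h1 h2)) (pr_mul (qsg_s.snd (pr_norm (kc3q0_53_s.snd h1 h2))) (pr_norm (pr_csub (enc_rat _ 1 2) (kc3q0_65_s.snd h1 h2)))))) (pr_nd (pr_inv (pr_mul (pr_nd (pr_nat 2 (kc3q0_58_s.snd h1 h2))) (kc3q0_58_s.snd h1 h2))))) (kc3q0_53_s.snd h1 h2) (kc3q0_54_s.snd h1 h2) (kc3q0_58_s.snd h1 h2) rfl rfl rfl rfl rfl rfl rfl rfl)) (pr_mul (kcg_s.snd (pr_norm (pr_sub (pr_scaleT 3 4 (kc3q0_53_s.snd h1 h2)) (pr_half (kc3q0_54_s.snd h1 h2)))) h2) (pr_norm (pr_cadd (enc_pnc _ 1) (pr_add (kc3q0_62_s.snd h1 h2) (pr_nat 2 (kc3q0_54_s.snd h1 h2))))))) (kc3q0_95_s.snd h1 h2))) (pr_norm (pr_sub (cv3m_s.snd h1) (cv2m_s.snd h1))))) (pr_nd (pr_inv (pr_sub (pr_addc (swg_s.snd h1) (enc_rat _ 1 2)) (cv2m_s.snd h1)))))) (pr_mul (cv3m_s.snd h1) (pr_norm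 (pr_add (pr_subr 3213039919 8900000000 (pr_scaleT 1606589919 4450000000 h1)) (pr_cmul (enc_norm (kc3q0_4.enc h1.l h2)) (pr_norm (pr_subr 608633059 445000000 (pr_scaleT 304253059 222500000 h1))))))))))⟩
noncomputable def bf3q1_s : Sl2 bf3q1 := ⟨_, fun h1 h2 => (pr_norm (pr_case (pr_subr 4 5 h1) (pr_add (pr_subr 328451 300000 (pr_scaleT 12569 6000 h1)) (pr_cmul (enc_norm (bf3q1_3.enc h1.l h2)) (pr_norm (pr_csub (enc_rat _ 2362039 30000) (pr_scaleT 59051 750 h1))))) (pr_case (pr_subr 91 100 h1) (pr_add (pr_subr 1204387 1100000 (pr_scaleT 5761 2750 h1)) (pr_cmul (enc_norm (bf3q1_3.enc h1.l h2)) (pr_norm (pr_csub (enc_rat _ 8660799 110000) (pr_scaleT 21652 275 h1))))) (pr_add (pr_subr 9853 9000 (pr_scaleT 18853 9000 h1)) (pr_cmul (enc_norm (bf3q1_3.enc h1.l h2)) (pr_norm (pr_csub (enc_rat _ 70861 900) (pr_scaleT 70861 900 h1))))))))⟩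
noncomputable def kf3q1_s : Sl2 kf3q1 := ⟨_, fun h1 h2 => (pr_norm (pr_mul (cv3m_s.snd h1) (bf3q1_s.snd h1 h2)))⟩
noncomputable def bx3q1_s : Sl2 bx3q1 := ⟨_, fun h1 h2 => (pr_norm (pr_case (pr_subr 4 5 h1) (pr_add (pr_csub (enc_rat _ 53389 300000) (pr_scaleT 5339 30000 h1)) (pr_cmul (enc_norm (bx3q1_3.enc h1.l h2)) (pr_norm (pr_subr 47291 30000 (pr_scaleT 4729 3000 h1))))) (pr_case (pr_subr 91 100 h1) (pr_add (pr_csub (enc_rat _ 195709 1100000) (pr_scaleT 1957 11000 h1)) (pr_cmul (enc_norm (bx3q1_3.enc h1.l h2)) (pr_norm (pr_subr 173483 110000 (pr_scaleT 347 220 h1))))) (pr_add (pr_csub (enc_rat _ 89 500) (pr_scaleT 89 500 h1)) (pr_cmul (enc_norm (bx3q1_3.enc h1.l h2)) (pr_norm (pr_subr 709 450 (pr_scaleT 709 450 h1))))))))⟩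
noncomputable def l3q1_s : Sl2 l3q1 := ⟨_, fun h1 h2 => (pr_norm (pr_mul (cv3m_s.snd h1) (bx3q1_s.snd h1 h2)))⟩
noncomputable def bd3q1_s : Sl2 bd3q1 := ⟨_, fun h1 h2 => (pr_norm (pr_add (pr_subr 361 1000 (pr_scaleT 361 1000 h1)) (pr_cmul (enc_norm (enc_subr 153 160 h2)) (pr_norm (pr_subr 171 125 (pr_scaleT 171 125 h1))))))⟩
noncomputable def kc3q1_s : Sl2 kc3q1 := ⟨_, fun h1 h2 => (pr_norm (pr_mul (cv3m_s.snd h1) (bd3q1_s.snd h1 h2)))⟩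
noncomputable def cv3p_s : Sl1 cv3p := ⟨_, fun h1 => (pr_norm (pr_add (pr_scaleT 9481 10000 (pr_subr 1 2 (swg_s.snd h1))) (pr_scaleT 519 10000 (c3g_s.snd h1))))⟩
noncomputable def bf3q2_31_s : Sl2 bf3q2_31 := ⟨_, fun h1 h2 => (pr_addc (pr_scaleT 332 875 h1) (enc_rat _ 188539 350000))⟩
noncomputable def bf3q2_s : Sl2 bf3q2 := ⟨_, fun h1 h2 => (pr_norm (pr_case (pr_subr 211 200 h1) (pr_case (pr_subr 10303 10000 h1) (pr_add (pr_addc (pr_scaleT 115 303 h1) (enc_rat _ 16318733 30300000)) (pr_cmul (enc_norm (bf3q2_3.enc h1.l h2)) (pr_norm (pr_csub (enc_rat _ 296819203 3030000) (pr_scaleT 29491 303 h1))))) (pr_add (pr_addc (pr_scaleT 937 2470 h1) (enc_rat _ 415858 771875)) (pr_cmul (enc_norm (bf3q2_3.enc h1.l h2)) (pr_norm (pr_csub (enc_rat _ 24195619 247000) (pr_scaleT 24040 247 h1)))))) (pr_case (pr_subr 29 25 h1) (pr_add (bf3q2_31_s.snd h1 h2) (pr_cmul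 (enc_norm (bf3q2_3.enc h1.l h2)) (pr_norm (pr_csub (enc_rat _ 1371421 14000) (pr_scaleT 6813 70 h1))))) (pr_case (pr_subr 13 10 h1) (pr_add (bf3q2_31_s.snd h1 h2) (pr_cmul (enc_norm (bf3q2_3.enc h1.l h2)) (pr_norm (pr_csub (enc_rat _ 6857047 70000) (pr_scaleT 136259 1400 h1))))) (pr_add (pr_addc (pr_scaleT 7589 20000 h1) (enc_rat _ 107731 200000)) (pr_cmul (enc_norm (bf3q2_3.enc h1.l h2)) (pr_norm (pr_csub (enc_rat _ 48979 500) (pr_scaleT 12166 125 h1)))))))))⟩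
noncomputable def kf3q2_s : Sl2 kf3q2 := ⟨_, fun h1 h2 => (pr_norm (pr_mul (cv3p_s.snd h1) (bf3q2_s.snd h1 h2)))⟩
noncomputable def bx3q2_s : Sl2 bx3q2 := ⟨_, fun h1 h2 => (pr_norm (pr_case (pr_subr 109 100 h1) (pr_case (pr_subr 10303 10000 h1) (pr_add (pr_subr 991511 10100000 (pr_scaleT 98 505 h1)) (pr_cmul (enc_norm (bx3q2_3.enc h1.l h2)) (pr_norm (pr_subr 2529823 303000 (pr_scaleT 2578 303 h1))))) (pr_case (pr_subr 211 200 h1) (pr_add (pr_subr 1210709 12350000 (pr_scaleT 479 2470 h1)) (pr_cmul (enc_norm (bx3q2_3.enc h1.l h2)) (pr_norm (pr_subr 20617107 2470000 (pr_scaleT 2101 247 h1))))) (pr_add (pr_subr 9811 100000 (pr_scaleT 97 500 h1)) (pr_cmul (enc_norm (bx3q2_3.enc h1.l h2)) (pr_norm (pr_subr 583209 70000 (pr_scaleT 1486 175 h1))))))) (pr_case (pr_subr 29 25 h1) (pr_add (pr_subr 34393 350000 (pr_scaleT 1359 7000 h1)) (pr_cmul (enc_norm (bx3q2_3.enc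 h1.l h2)) (pr_norm (pr_subr 116293 14000 (pr_scaleT 1482 175 h1))))) (pr_case (pr_subr 13 10 h1) (pr_add (pr_subr 325959 350000 (pr_scaleT 3193 3500 h1)) (pr_cmul (enc_norm (bx3q2_3.enc h1.l h2)) (pr_norm (pr_csub (enc_rat _ 57243 14000) (pr_scaleT 388 175 h1))))) (pr_add (pr_subr 11913 12500 (pr_scaleT 929 1000 h1)) (pr_cmul (enc_norm (bx3q2_3.enc h1.l h2)) (pr_norm (pr_csub (enc_rat _ 16799 4000) (pr_scaleT 921 400 h1)))))))))⟩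
noncomputable def l3q2_s : Sl2 l3q2 := ⟨_, fun h1 h2 => (pr_norm (pr_mul (cv3p_s.snd h1) (bx3q2_s.snd h1 h2)))⟩
noncomputable def bd3q2_s : Sl2 bd3q2 := ⟨_, fun h1 h2 => (pr_norm (pr_case (pr_subr 231 200 h1) (pr_add (pr_subr 319673 62000 (pr_scaleT 878 155 h1)) (pr_cmul (enc_norm (bd3q2_3.enc h1.l h2)) (pr_norm (pr_csub (enc_rat _ 125052 3875) (pr_scaleT 3276 155 h1))))) (pr_add (pr_subr 296479 57500 (pr_scaleT 19543 3450 h1)) (pr_cmul (enc_norm (bd3q2_3.enc h1.l h2)) (pr_norm (pr_csub (enc_rat _ 92783 2875) (pr_scaleT 7292 345 h1)))))))⟩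
noncomputable def kc3q2_s : Sl2 kc3q2 := ⟨_, fun h1 h2 => (pr_norm (pr_mul (cv3p_s.snd h1) (bd3q2_s.snd h1 h2)))⟩
noncomputable def ycg_s : Sl1 ycg := ⟨_, fun h1 => (pr_sqrtg (pr_scaleT 4 3 (pr_csub (enc_pnc _ 3) (pr_sq h1))))⟩
noncomputable def xc33_s : Sl1 xc33 := ⟨_, fun h1 => (pr_norm (pr_add (pr_scaleT 9481 10000 (pr_subr 1 2 (swg_s.snd (pr_nd (ycg_s.snd h1))))) (pr_scaleT 519 10000 h1)))⟩
noncomputable def kfc33_6_s : Sl2 kfc33_6 := ⟨_, fun h1 h2 => (pr_subr 1 2 (swg_s.snd (pr_nd (ycg_s.snd h1))))⟩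
noncomputable def kfc33_9_s : Sl2 kfc33_9 := ⟨_, fun h1 h2 => (pr_add (pr_scaleT 9481 10000 (kfc33_6_s.snd h1 h2)) (pr_scaleT 519 10000 h1))⟩
noncomputable def kfc33_13_s : Sl2 kfc33_13 := ⟨_, fun h1 h2 => (pr_subr 191 100 (ycg_s.snd h1))⟩
noncomputable def kfc33_37_s : Sl2 kfc33_37 := ⟨_, fun h1 h2 => (pr_csub (enc_rat _ 215220381 1000000000) h1)⟩
noncomputable def kfc33_39_s : Sl2 kfc33_39 := ⟨_, fun h1 h2 => (pr_csub (enc_rat _ 33784661 125000000) h1)⟩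
noncomputable def kfc33_62_s : Sl2 kfc33_62 := ⟨_, fun h1 h2 => (pr_csub (enc_rat _ 141655683 1000000000) h1)⟩
noncomputable def kfc33_86_s : Sl2 kfc33_86 := ⟨_, fun h1 h2 => (pr_subn 1 (ycg_s.snd h1))⟩
noncomputable def kfc33_87_s : Sl2 kfc33_87 := ⟨_, fun h1 h2 => (gsg_s.snd (pr_norm (kfc33_86_s.snd h1 h2)))⟩
noncomputable def kfc33_88_s : Sl2 kfc33_88 := ⟨_, fun h1 h2 => (pr_scaleT 3 4 (kfc33_86_s.snd h1 h2))⟩
noncomputable def kfc33_89_s : Sl2 kfc33_89 := ⟨_, fun h1 h2 => (pr_half (kfc33_87_s.snd h1 h2))⟩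
noncomputable def kfc33_91_s : Sl2 kfc33_91 := ⟨_, fun h1 h2 => (esg_s.snd (pr_norm (kfc33_86_s.snd h1 h2)))⟩
noncomputable def kfc33_92_s : Sl2 kfc33_92 := ⟨_, fun h1 h2 => (kcg_s.snd (pr_norm (pr_sub (kfc33_88_s.snd h1 h2) (kfc33_89_s.snd h1 h2))) h2)⟩
noncomputable def kfc33_94_s : Sl2 kfc33_94 := ⟨_, fun h1 h2 => (pr_subn 2 (ycg_s.snd h1))⟩
noncomputable def kfc33_101_s : Sl2 kfc33_101 := ⟨_, fun h1 h2 => (pr_sub (pr_sub (kfc33_89_s.snd h1 h2) (kfc33_88_s.snd h1 h2)) (pr_csub (enc_rat _ 1 4) (pr_scaleT 3 8 (pr_mul (pr_norm (kfc33_86_s.snd h1 h2)) (pr_nd (pr_inv (kfc33_87_s.snd h1 h2)))))))⟩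
noncomputable def kfc33_107_s : Sl2 kfc33_107 := ⟨_, fun h1 h2 => (cv2r_s.snd (pr_nd (ycg_s.snd h1)))⟩
noncomputable def kfc33_109_s : Sl2 kfc33_109 := ⟨_, fun h1 h2 => (pr_subr 19697 10000 (ycg_s.snd h1))⟩
noncomputable def kfc33_121_s : Sl2 kfc33_121 := ⟨_, fun h1 h2 => (pr_subr 389 200 (ycg_s.snd h1))⟩
noncomputable def kfc33_188_s : Sl2 kfc33_188 := ⟨_, fun h1 h2 => (pr_mul (kfc33_107_s.snd h1 h2) (pr_norm (pr_case (kfc33_109_s.snd h1 h2) (pr_case (kfc33_13_s.snd h1 h2) (pr_add (pr_subr 461013 51250 (pr_scaleT 92441 20500 (ycg_s.snd h1))) (pr_cmul (enc_norm (kfc33_11.enc h1.l h2)) (pr_norm (pr_csub (enc_rat _ 375760553 410000) (pr_scaleT 1986097 4100 (ycg_s.snd h1)))))) (pr_case (kfc33_121_s.snd h1 h2) (pr_add (pr_subr 393557 43750 (pr_scaleT 15783 3500 (ycg_s.snd h1))) (pr_cmul (enc_norm (kfc33_11.enc h1.l h2)) (pr_norm (pr_csub (enc_rat _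 16038573 17500) (pr_scaleT 33909 70 (ycg_s.snd h1)))))) (pr_add (pr_subr 8887417 988000 (pr_scaleT 5569 1235 (ycg_s.snd h1))) (pr_cmul (enc_norm (kfc33_11.enc h1.l h2)) (pr_norm (pr_csub (enc_rat _ 2263723627 2470000) (pr_scaleT 119650 247 (ycg_s.snd h1)))))))) (pr_case (kfc33_37_s.snd h1 h2) (pr_case (kfc33_39_s.snd h1 h2) (pr_add (pr_subr 1397598034699 3007489300000 (pr_scaleT 35180000 30074893 h1)) (pr_cmul (enc_norm (kfc33_11.enc h1.l h2)) (pr_norm (pr_csub (enc_rat _ 11289636751 75187232500) (pr_scaleT 3786100000 30074893 h1))))) (pr_add (pr_subr 2557915533629 5505690700000 (pr_scaleT 64380000 55056907 h1)) (pr_cmul (enc_norm (kfc33_11.enc h1.l h2)) (pr_norm (pr_csub (enc_rat _ 20692994033 137642267500) (pr_scaleT 6931100000 55056907 h1)))))) (pr_case (kfc33_62_s.snd h1 h2) (pr_add (pr_subr 569694878773 1226078300000 (pr_scaleT 14340000 12260783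 h1)) (pr_cmul (enc_norm (kfc33_11.enc h1.l h2)) (pr_norm (pr_csub (enc_rat _ 18489731691 122607830000) (pr_scaleT 4630600000 36782349 h1))))) (pr_add (pr_subr 46463 100000 (pr_scaleT 55220000 47218561 h1)) (pr_cmul (enc_norm (kfc33_11.enc h1.l h2)) (pr_norm (pr_csub (enc_rat _ 1509 10000) (pr_scaleT 1371800000 10896591 h1))))))))))⟩
noncomputable def kfc33_s : Sl2 kfc33 := ⟨_, fun h1 h2 => (pr_norm (pr_case (kfc33_121_s.snd h1 h2) (pr_mul (pr_norm (kfc33_9_s.snd h1 h2)) (pr_norm (pr_case (kfc33_13_s.snd h1 h2) (pr_add (pr_csub (enc_rat _ 8474323 4100000) (pr_scaleT 43279 41000 (ycg_s.snd h1))) (pr_cmul (enc_norm (kfc33_11.enc h1.l h2)) (pr_norm (pr_csub (enc_rat _ 2285283 10000) (pr_scaleT 11479 100 (ycg_s.snd h1)))))) (pr_add (pr_csub (enc_rat _ 5167843667 2500000000) (pr_scaleT 26392637 25000000 (ycg_s.snd h1))) (pr_cmul (enc_norm (kfc33_11.enc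 h1.l h2)) (pr_norm (pr_csub (enc_rat _ 399922872277 1750000000) (pr_scaleT 2008816347 17500000 (ycg_s.snd h1))))))))) (pr_case (kfc33_109_s.snd h1 h2) (pr_add (kfc33_188_s.snd h1 h2) (pr_mul (pr_norm (pr_mul (pr_norm (pr_sub (pr_wB3 (pr_mul (pr_norm (kfc33_94_s.snd h1 h2)) (pr_norm (pr_add (pr_mul (pr_norm (kfc33_101_s.snd h1 h2)) (pr_nd (pr_inv (kfc33_91_s.snd h1 h2)))) (kfc33_92_s.snd h1 h2)))) (kfc33_86_s.snd h1 h2) (kfc33_87_s.snd h1 h2) (kfc33_91_s.snd h1 h2) (kfc33_94_s.snd h1 h2) (kfc33_101_s.snd h1 h2) (kfc33_92_s.snd h1 h2) (ycg_s.snd h1) rfl rfl rfl rfl rfl rfl rfl rfl rfl rfl) (kfc33_188_s.snd h1 h2))) (pr_norm (pr_sub (kfc33_9_s.snd h1 h2) (kfc33_107_s.snd h1 h2))))) (pr_nd (pr_inv (pr_sub (kfc33_6_s.snd h1 h2) (kfc33_107_s.snd h1 h2)))))) (pr_mul (pr_norm (kfc33_9_s.snd h1 h2)) (pr_norm (pr_case (kfc33_37_s.snd h1 h2) (pr_case (kfc33_39_s.snd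 h1 h2) (pr_add (pr_subr 5490463186068883 18796808125000000 (pr_scaleT 177045903 150374465 h1)) (pr_cmul (enc_norm (kfc33_11.enc h1.l h2)) (pr_norm (pr_subr 20113433682562119 469920203125000 (pr_scaleT 5261457332 30074893 h1))))) (pr_add (pr_subr 80419950851 275284535000 (pr_scaleT 64830000 55056907 h1)) (pr_cmul (enc_norm (kfc33_11.enc h1.l h2)) (pr_norm (pr_subr 23564972310751 550569070000 (pr_scaleT 9631800000 55056907 h1)))))) (pr_case (kfc33_62_s.snd h1 h2) (pr_add (pr_subr 526009405129 2452156600000 (pr_scaleT 10015000 12260783 h1)) (pr_cmul (enc_norm (kfc33_11.enc h1.l h2)) (pr_norm (pr_subr 1900677596591 245215660000 (pr_scaleT 444550000 36782349 h1))))) (pr_sub (pr_csub (enc_rat _ 1 2) (pr_scaleT 199600000 47218561 h1)) (pr_cmul (enc_norm (kfc33_11.enc h1.l h2)) (pr_nd (pr_scaleT 2013000000 47218561 h1)))))))))))⟩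
noncomputable def lc33_6_s : Sl2 lc33_6 := ⟨_, fun h1 h2 => (pr_subr 1 2 (swg_s.snd (pr_nd (ycg_s.snd h1))))⟩
noncomputable def lc33_9_s : Sl2 lc33_9 := ⟨_, fun h1 h2 => (pr_add (pr_scaleT 9481 10000 (lc33_6_s.snd h1 h2)) (pr_scaleT 519 10000 h1))⟩
noncomputable def lc33_13_s : Sl2 lc33_13 := ⟨_, fun h1 h2 => (pr_subr 191 100 (ycg_s.snd h1))⟩
noncomputable def lc33_44_s : Sl2 lc33_44 := ⟨_, fun h1 h2 => (pr_csub (enc_rat _ 215220381 1000000000) h1)⟩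
noncomputable def lc33_46_s : Sl2 lc33_46 := ⟨_, fun h1 h2 => (pr_csub (enc_rat _ 33784661 125000000) h1)⟩
noncomputable def lc33_73_s : Sl2 lc33_73 := ⟨_, fun h1 h2 => (pr_csub (enc_rat _ 141655683 1000000000) h1)⟩
noncomputable def lc33_96_s : Sl2 lc33_96 := ⟨_, fun h1 h2 => (pr_subn 1 (ycg_s.snd h1))⟩
noncomputable def lc33_109_s : Sl2 lc33_109 := ⟨_, fun h1 h2 => (cv2r_s.snd (pr_nd (ycg_s.snd h1)))⟩
noncomputable def lc33_111_s : Sl2 lc33_111 := ⟨_, fun h1 h2 => (pr_subr 19697 10000 (ycg_s.snd h1))⟩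
noncomputable def lc33_122_s : Sl2 lc33_122 := ⟨_, fun h1 h2 => (pr_subr 389 200 (ycg_s.snd h1))⟩
noncomputable def lc33_183_s : Sl2 lc33_183 := ⟨_, fun h1 h2 => (pr_mul (lc33_109_s.snd h1 h2) (pr_norm (pr_case (lc33_111_s.snd h1 h2) (pr_case (lc33_13_s.snd h1 h2) (pr_add (pr_subr 1771703 1025000 (pr_scaleT 6974 5125 (ycg_s.snd h1))) (pr_cmul (enc_norm (lc33_11.enc h1.l h2)) (pr_norm (pr_addc (pr_scaleT 1453 4100 (ycg_s.snd h1)) (enc_rat _ 45983 102500))))) (pr_case (lc33_122_s.snd h1 h2) (pr_add (pr_subr 605023 350000 (pr_scaleT 4763 3500 (ycg_s.snd h1))) (pr_cmul (enc_norm (lc33_11.enc h1.l h2)) (pr_norm (pr_addc (pr_scaleT 62 175 (ycg_s.snd h1)) (enc_rat _ 31417 70000))))) (pr_add (pr_subr 42691169 24700000 (pr_scaleT 3361 2470 (ycg_s.snd h1))) (pr_cmul (enc_norm (lc33_11.enc h1.l h2)) (pr_norm (pr_addc (pr_scaleT 88 247 (ycg_s.snd h1)) (enc_rat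 _ 1099013 2470000))))))) (pr_case (lc33_44_s.snd h1 h2) (pr_case (lc33_46_s.snd h1 h2) (pr_add (pr_addc (pr_scaleT 5220000 30074893 h1) (enc_rat _ 270586477683 300748930000)) (pr_cmul (enc_norm (lc33_11.enc h1.l h2)) (pr_norm (pr_csub (enc_rat _ 2125774808149 150374465000) (pr_scaleT 1300700000 30074893 h1))))) (pr_add (pr_addc (pr_scaleT 12120000 55056907 h1) (enc_rat _ 2442110428689 2752845350000)) (pr_cmul (enc_norm (lc33_11.enc h1.l h2)) (pr_norm (pr_subr 155073932693 275284535000 (pr_scaleT 613300000 55056907 h1)))))) (pr_case (lc33_73_s.snd h1 h2) (pr_add (pr_addc (pr_scaleT 8095000 36782349 h1) (enc_rat _ 2175393077087 2452156600000)) (pr_cmul (enc_norm (lc33_11.enc h1.l h2)) (pr_norm (pr_subr 27603363701 49043132000 (pr_scaleT 136550000 12260783 h1))))) (pr_add (pr_addc (pr_scaleT 10390000 47218561 h1) (enc_rat _ 44357 50000)) (pr_cmul (enc_norm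 (lc33_11.enc h1.l h2)) (pr_norm (pr_subr 1407 2500 (pr_scaleT 1577600000 141655683 h1))))))))))⟩
noncomputable def lc33_s : Sl2 lc33 := ⟨_, fun h1 h2 => (pr_norm (pr_case (lc33_122_s.snd h1 h2) (pr_mul (pr_norm (lc33_9_s.snd h1 h2)) (pr_norm (pr_case (lc33_13_s.snd h1 h2) (pr_add (pr_subr 976941 1025000 (pr_scaleT 38091 41000 (ycg_s.snd h1))) (pr_cmul (enc_norm (lc33_11.enc h1.l h2)) (pr_norm (pr_csub (enc_rat _ 172471 41000) (pr_scaleT 9459 4100 (ycg_s.snd h1)))))) (pr_add (pr_add (pr_subr 33357392451 35000000000 (pr_scaleT 325158861 350000000 (ycg_s.snd h1))) (pr_cmul (enc_norm (lc33_11.enc h1.l h2)) (pr_norm (pr_subr 71919011419 700000000 (pr_scaleT 375806709 7000000 (ycg_s.snd h1)))))) (pr_cmul (lc33_38.enc h1.l h2) (pr_norm (pr_subr 19531087 109375 (pr_scaleT 409028 4375 (ycg_s.snd h1))))))))) (pr_case (lc33_111_s.snd h1 h2) (pr_add (lc33_183_s.snd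 h1 h2) (pr_mul (pr_norm (pr_mul (pr_norm (pr_sub (pr_sub (qsg_s.snd (pr_norm (lc33_96_s.snd h1 h2))) (pr_mul (pr_norm (pr_nat 2 (pr_subc (lc33_96_s.snd h1 h2) h2))) (pr_norm (pr_mul (esg_s.snd (pr_norm (lc33_96_s.snd h1 h2))) (kcg_s.snd (pr_norm (pr_sub (pr_scaleT 3 4 (lc33_96_s.snd h1 h2)) (pr_half (gsg_s.snd (pr_norm (lc33_96_s.snd h1 h2)))))) h2))))) (lc33_183_s.snd h1 h2))) (pr_norm (pr_sub (lc33_9_s.snd h1 h2) (lc33_109_s.snd h1 h2))))) (pr_nd (pr_inv (pr_sub (lc33_6_s.snd h1 h2) (lc33_109_s.snd h1 h2)))))) (pr_mul (pr_norm (lc33_9_s.snd h1 h2)) (pr_norm (pr_case (lc33_44_s.snd h1 h2) (pr_case (lc33_46_s.snd h1 h2) (pr_add (pr_add (pr_csub (enc_rat _ 1100623066786083 1174800507812500) (pr_scaleT 33153898 150374465 h1)) (pr_cmul (enc_norm (lc33_11.enc h1.l h2)) (pr_norm (pr_subr 936124047355979 375936162500000 (pr_scaleT 423522390 30074893 h1)))))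 (pr_cmul (lc33_38.enc h1.l h2) (pr_norm (pr_subr 227116606525297 3759361625000 (pr_scaleT 6722477000 30074893 h1))))) (pr_add (pr_addc (pr_scaleT 360000 55056907 h1) (enc_rat _ 4820247298021 5505690700000)) (pr_cmul (enc_norm (lc33_11.enc h1.l h2)) (pr_norm (pr_addc (pr_scaleT 63800000 55056907 h1) (enc_rat _ 69013998297 68821133750)))))) (pr_case (lc33_73_s.snd h1 h2) (pr_add (pr_addc (pr_scaleT 2165000 12260783 h1) (enc_rat _ 2057130219133 2452156600000)) (pr_cmul (enc_norm (lc33_11.enc h1.l h2)) (pr_norm (pr_subr 5078635697 12260783000 (pr_scaleT 284800000 36782349 h1))))) (pr_add (pr_addc (pr_scaleT 5909137403927 10407443030010 h1) (enc_rat _ 57563064996073 73470000000000)) (pr_cmul (enc_norm (lc33_11.enc h1.l h2)) (pr_norm (pr_csub (enc_rat _ 5793549573307 7347000000000) (pr_scaleT 778487373307 1040744303001 h1))))))))))))⟩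
noncomputable def kcc33_6_s : Sl2 kcc33_6 := ⟨_, fun h1 h2 => (pr_subr 1 2 (swg_s.snd (pr_nd (ycg_s.snd h1))))⟩
noncomputable def kcc33_9_s : Sl2 kcc33_9 := ⟨_, fun h1 h2 => (pr_add (pr_scaleT 9481 10000 (kcc33_6_s.snd h1 h2)) (pr_scaleT 519 10000 h1))⟩
noncomputable def kcc33_24_s : Sl2 kcc33_24 := ⟨_, fun h1 h2 => (pr_csub (enc_rat _ 298872883 1000000000) h1)⟩
noncomputable def kcc33_48_s : Sl2 kcc33_48 := ⟨_, fun h1 h2 => (pr_subn 1 (ycg_s.snd h1))⟩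
noncomputable def kcc33_49_s : Sl2 kcc33_49 := ⟨_, fun h1 h2 => (gsg_s.snd (pr_norm (kcc33_48_s.snd h1 h2)))⟩
noncomputable def kcc33_53_s : Sl2 kcc33_53 := ⟨_, fun h1 h2 => (esg_s.snd (pr_norm (kcc33_48_s.snd h1 h2)))⟩
noncomputable def kcc33_58_s : Sl2 kcc33_58 := ⟨_, fun h1 h2 => (gug_s.snd (pr_norm (kcc33_48_s.snd h1 h2)))⟩
noncomputable def kcc33_60_s : Sl2 kcc33_60 := ⟨_, fun h1 h2 => (pr_mul (pr_norm (kcc33_48_s.snd h1 h2)) (pr_nd (pr_inv (kcc33_49_s.snd h1 h2))))⟩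
noncomputable def kcc33_61_s : Sl2 kcc33_61 := ⟨_, fun h1 h2 => (pr_scaleT 3 4 (kcc33_60_s.snd h1 h2))⟩
noncomputable def kcc33_87_s : Sl2 kcc33_87 := ⟨_, fun h1 h2 => (cv2r_s.snd (pr_nd (ycg_s.snd h1)))⟩
noncomputable def kcc33_89_s : Sl2 kcc33_89 := ⟨_, fun h1 h2 => (pr_subr 19697 10000 (ycg_s.snd h1))⟩
noncomputable def kcc33_91_s : Sl2 kcc33_91 := ⟨_, fun h1 h2 => (pr_subr 389 200 (ycg_s.snd h1))⟩
noncomputable def kcc33_135_s : Sl2 kcc33_135 := ⟨_, fun h1 h2 => (pr_mul (kcc33_87_s.snd h1 h2) (pr_norm (pr_case (kcc33_89_s.snd h1 h2) (pr_case (kcc33_91_s.snd h1 h2) (pr_add (pr_subr 21497181 890000 (pr_scaleT 53743 2225 (ycg_s.snd h1))) (pr_cmul (enc_norm (kcc33_11.enc h1.l h2)) (pr_norm (pr_csub (enc_rat _ 2907283 17800) (pr_scaleT 72682 445 (ycg_s.snd h1)))))) (pr_add (pr_subr 3139959 130000 (pr_scaleT 314 13 (ycg_s.snd h1))) (pr_cmul (enc_norm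 (kcc33_11.enc h1.l h2)) (pr_norm (pr_csub (enc_rat _ 40337591 247000) (pr_scaleT 40340 247 (ycg_s.snd h1))))))) (pr_case (kcc33_24_s.snd h1 h2) (pr_add (pr_addc (pr_scaleT 41650000 739649 h1) (enc_rat _ 96292248681 14792980000)) (pr_cmul (enc_norm (kcc33_11.enc h1.l h2)) (pr_norm (pr_subr 109646541423 1479298000 (pr_neg (pr_scaleT 207500000 739649 h1)))))) (pr_add (pr_addc (pr_scaleT 16824500000 298872883 h1) (enc_rat _ 13029 2000)) (pr_cmul (enc_norm (kcc33_11.enc h1.l h2)) (pr_norm (pr_subr 74139 1000 (pr_neg (pr_scaleT 83827000000 298872883 h1))))))))))⟩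
noncomputable def kcc33_s : Sl2 kcc33 := ⟨_, fun h1 h2 => (pr_norm (pr_case (kcc33_91_s.snd h1 h2) (pr_mul (pr_norm (kcc33_9_s.snd h1 h2)) (pr_norm (pr_add (pr_subr 179241201 34765625 (pr_scaleT 196924134 34765625 (ycg_s.snd h1))) (pr_cmul (enc_norm (kcc33_11.enc h1.l h2)) (pr_norm (pr_csub (enc_rat _ 7181010377 222500000) (pr_scaleT 2351543459 111250000 (ycg_s.snd h1)))))))) (pr_case (kcc33_89_s.snd h1 h2) (pr_add (kcc33_135_s.snd h1 h2) (pr_mul (pr_norm (pr_mul (pr_norm (pr_sub (pr_add (pr_sub (pr_add (pr_cadd (enc_rat _ 3 4) (pr_scaleT 3 2 (kcc33_48_s.snd h1 h2))) (pr_scaleT 3 4 (pr_mul (pr_norm (kcc33_60_s.snd h1 h2)) (kcc33_58_s.snd h1 h2)))) (pr_wT (pr_mul (pr_norm (pr_sub (pr_mul (pr_norm (pr_mul (pr_norm (kcc33_61_s.snd h1 h2)) (pr_norm (pr_subn 3 (pr_nat 4 (kcc33_49_s.snd h1 h2)))))) (kcc33_53_s.snd h1 h2)) (pr_mul (qsg_s.snd (pr_norm (kcc33_48_s.snd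 h1 h2))) (pr_norm (pr_csub (enc_rat _ 1 2) (kcc33_61_s.snd h1 h2)))))) (pr_nd (pr_inv (pr_mul (pr_nd (pr_nat 2 (kcc33_53_s.snd h1 h2))) (kcc33_53_s.snd h1 h2))))) (kcc33_48_s.snd h1 h2) (kcc33_49_s.snd h1 h2) (kcc33_53_s.snd h1 h2) rfl rfl rfl rfl rfl rfl rfl rfl)) (pr_mul (kcg_s.snd (pr_norm (pr_sub (pr_scaleT 3 4 (kcc33_48_s.snd h1 h2)) (pr_half (kcc33_49_s.snd h1 h2)))) h2) (pr_norm (pr_csub (enc_pnc _ 1) (pr_add (kcc33_58_s.snd h1 h2) (pr_nat 2 (kcc33_49_s.snd h1 h2))))))) (kcc33_135_s.snd h1 h2))) (pr_norm (pr_sub (kcc33_9_s.snd h1 h2) (kcc33_87_s.snd h1 h2))))) (pr_nd (pr_inv (pr_sub (kcc33_6_s.snd h1 h2) (kcc33_87_s.snd h1 h2)))))) (pr_mul (pr_norm (kcc33_9_s.snd h1 h2)) (pr_norm (pr_case (kcc33_24_s.snd h1 h2) (pr_add (pr_addc (pr_scaleT 501064157 14792980 h1) (enc_rat _ 102806058369445369 14792980000000000)) (pr_cmul (enc_norm (kcc33_11.enc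 h1.l h2)) (pr_norm (pr_subr 23297857754506127 295859600000000 (pr_neg (pr_scaleT 227857655 1479298 h1)))))) (pr_add (pr_addc (pr_scaleT 1694191000000 49911771461 h1) (enc_rat _ 1157 167)) (pr_cmul (enc_norm (kcc33_11.enc h1.l h2)) (pr_norm (pr_subr 13176 167 (pr_neg (pr_scaleT 7662594000000 49911771461 h1))))))))))))⟩
noncomputable def cv4m_s : Sl1 cv4m := ⟨_, fun h1 => (pr_norm (pr_add (pr_scaleT 3 10 (pr_addc (swg_s.snd h1) (enc_rat _ 1 2))) (pr_scaleT 7 10 (c3g_s.snd h1))))⟩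
noncomputable def bf4q0_32_s : Sl2 bf4q0_32 := ⟨_, fun h1 h2 => (pr_scaleT 167 150 h1)⟩
noncomputable def bf4q0_97_s : Sl2 bf4q0_97 := ⟨_, fun h1 h2 => (pr_scaleT 591 100 h1)⟩
noncomputable def bf4q0_100_s : Sl2 bf4q0_100 := ⟨_, fun h1 h2 => (pr_cmul (enc_norm (bf4q0_3.enc h1.l h2)) (pr_norm (pr_csub (enc_rat _ 581 10000) (bf4q0_97_s.snd h1 h2))))⟩
noncomputable def bf4q0_102_s : Sl2 bf4q0_102 := ⟨_, fun h1 h2 => (pr_scaleT 2227 2000 h1)⟩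
noncomputable def bf4q0_s : Sl2 bf4q0 := ⟨_, fun h1 h2 => (pr_norm (pr_case (pr_subr 11 200 h1) (pr_case (pr_subr 49 2000 h1) (pr_case (pr_subr 67 10000 h1) (pr_add (pr_csub (enc_rat _ 10129 50000) (pr_scaleT 373 335 h1)) (pr_cmul (enc_norm (bf4q0_3.enc h1.l h2)) (pr_norm (pr_csub (enc_rat _ 581 10000) (pr_scaleT 396 67 h1))))) (pr_case (pr_subr 31 2000 h1) (pr_add (pr_csub (enc_rat _ 445679 2200000) (pr_scaleT 49 44 h1)) (pr_cmul (enc_norm (bf4q0_3.enc h1.l h2)) (pr_norm (pr_csub (enc_rat _ 639 11000) (pr_scaleT 65 11 h1))))) (pr_add (pr_csub (enc_rat _ 60773 300000) (bf4q0_32_s.snd h1 h2)) (pr_cmul (enc_norm (bf4q0_3.enc h1.l h2)) (pr_norm (pr_csub (enc_rat _ 5231 90000) (pr_scaleT 266 45 h1))))))) (pr_case (pr_subr 303 10000 h1) (pr_add (pr_csub (enc_rat _ 117501 580000) (pr_scaleT 323 290 h1)) (pr_cmul (enc_norm (bf4q0_3.enc h1.l h2)) (pr_norm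 (pr_csub (enc_rat _ 33749 580000) (pr_scaleT 343 58 h1))))) (pr_case (pr_subr 1 25 h1) (pr_add (pr_csub (enc_rat _ 491247 2425000) (pr_scaleT 108 97 h1)) (pr_cmul (enc_norm (bf4q0_3.enc h1.l h2)) (pr_norm (pr_csub (enc_rat _ 56249 970000) (pr_scaleT 573 97 h1))))) (pr_add (pr_csub (enc_rat _ 15193 75000) (bf4q0_32_s.snd h1 h2)) (pr_cmul (enc_norm (bf4q0_3.enc h1.l h2)) (pr_norm (pr_csub (enc_rat _ 1747 30000) (pr_scaleT 887 150 h1)))))))) (pr_case (pr_subr 4 25 h1) (pr_case (pr_subr 7 100 h1) (pr_add (pr_csub (enc_rat _ 20261 100000) (pr_scaleT 557 500 h1)) (pr_cmul (enc_norm (bf4q0_3.enc h1.l h2)) (pr_norm (pr_csub (enc_rat _ 217 3750) (pr_scaleT 443 75 h1))))) (pr_case (pr_subr 1 10 h1) (pr_add (pr_csub (enc_rat _ 60769 300000) (bf4q0_32_s.snd h1 h2)) (bf4q0_100_s.snd h1 h2)) (pr_add (pr_csub (enc_rat _ 10129 50000) (bf4q0_102_s.snd h1 h2)) (bf4q0_100_s.snd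 h1 h2)))) (pr_case (pr_subr 1 4 h1) (pr_add (pr_csub (enc_rat _ 18233 90000) (pr_scaleT 5011 4500 h1)) (bf4q0_100_s.snd h1 h2)) (pr_case (pr_subr 7 20 h1) (pr_add (pr_csub (enc_rat _ 8103 40000) (bf4q0_102_s.snd h1 h2)) (pr_cmul (enc_norm (bf4q0_3.enc h1.l h2)) (pr_norm (pr_csub (enc_rat _ 1157 20000) (pr_scaleT 5909 1000 h1))))) (pr_add (pr_csub (enc_rat _ 60769 300000) (pr_scaleT 8351 7500 h1)) (pr_cmul (enc_norm (bf4q0_3.enc h1.l h2)) (pr_norm (pr_csub (enc_rat _ 291 5000) (bf4q0_97_s.snd h1 h2))))))))))⟩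
noncomputable def kf4q0_s : Sl2 kf4q0 := ⟨_, fun h1 h2 => (pr_norm (pr_mul (cv4m_s.snd h1) (bf4q0_s.snd h1 h2)))⟩
noncomputable def bx4q0_36_s : Sl2 bx4q0_36 := ⟨_, fun h1 h2 => (pr_scaleT 17 15 h1)⟩
noncomputable def bx4q0_68_s : Sl2 bx4q0_68 := ⟨_, fun h1 h2 => (pr_scaleT 419 1500 h1)⟩
noncomputable def bx4q0_87_s : Sl2 bx4q0_87 := ⟨_, fun h1 h2 => (pr_scaleT 57 50 h1)⟩
noncomputable def bx4q0_100_s : Sl2 bx4q0_100 := ⟨_, fun h1 h2 => (pr_cmul (enc_norm (bx4q0_3.enc h1.l h2)) (pr_norm (pr_csub (enc_rat _ 8543 7500) (pr_scaleT 341 300 h1))))⟩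
noncomputable def bx4q0_s : Sl2 bx4q0 := ⟨_, fun h1 h2 => (pr_norm (pr_case (pr_subr 11 200 h1) (pr_case (pr_subr 49 2000 h1) (pr_case (pr_subr 67 10000 h1) (pr_add (pr_csub (enc_rat _ 27983 100000) (pr_scaleT 187 670 h1)) (pr_cmul (enc_norm (bx4q0_3.enc h1.l h2)) (pr_norm (pr_csub (enc_rat _ 11391 10000) (pr_scaleT 76 67 h1))))) (pr_case (pr_subr 31 2000 h1) (pr_add (pr_csub (enc_rat _ 246253 880000) (pr_scaleT 123 440 h1)) (pr_cmul (enc_norm (bx4q0_3.enc h1.l h2)) (pr_norm (pr_csub (enc_rat _ 50121 44000) (pr_scaleT 25 22 h1))))) (pr_add (pr_csub (enc_rat _ 503681 1800000) (pr_scaleT 251 900 h1)) (pr_cmul (enc_norm (bx4q0_3.enc h1.l h2)) (pr_norm (pr_csub (enc_rat _ 8543 7500) (bx4q0_36_s.snd h1 h2))))))) (pr_case (pr_subr 303 10000 h1) (pr_add (pr_csub (enc_rat _ 202879 725000) (pr_scaleT 81 290 h1)) (pr_cmul (enc_norm (bx4q0_3.enc h1.l h2))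 (pr_norm (pr_csub (enc_rat _ 165181 145000) (pr_scaleT 33 29 h1))))) (pr_case (pr_subr 1 25 h1) (pr_add (pr_csub (enc_rat _ 1357201 4850000) (pr_scaleT 271 970 h1)) (pr_cmul (enc_norm (bx4q0_3.enc h1.l h2)) (pr_norm (pr_csub (enc_rat _ 138149 121250) (pr_scaleT 111 97 h1))))) (pr_add (pr_csub (enc_rat _ 1679 6000) (bx4q0_68_s.snd h1 h2)) (pr_cmul (enc_norm (bx4q0_3.enc h1.l h2)) (pr_norm (pr_csub (enc_rat _ 4271 3750) (bx4q0_36_s.snd h1 h2)))))))) (pr_case (pr_subr 4 25 h1) (pr_case (pr_subr 7 100 h1) (pr_add (pr_csub (enc_rat _ 83939 300000) (pr_scaleT 209 750 h1)) (pr_cmul (enc_norm (bx4q0_3.enc h1.l h2)) (pr_norm (pr_csub (enc_rat _ 11393 10000) (bx4q0_87_s.snd h1 h2))))) (pr_case (pr_subr 1 10 h1) (pr_add (pr_csub (enc_rat _ 83953 300000) (bx4q0_68_s.snd h1 h2)) (bx4q0_100_s.snd h1 h2)) (pr_add (pr_csub (enc_rat _ 20987 75000) (pr_scaleT 67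 240 h1)) (bx4q0_100_s.snd h1 h2)))) (pr_case (pr_subr 1 4 h1) (pr_add (pr_csub (enc_rat _ 62963 225000) (pr_scaleT 2513 9000 h1)) (pr_cmul (enc_norm (bx4q0_3.enc h1.l h2)) (pr_norm (pr_csub (enc_rat _ 25637 22500) (pr_scaleT 41 36 h1))))) (pr_case (pr_subr 7 20 h1) (pr_add (pr_csub (enc_rat _ 55971 200000) (pr_scaleT 2793 10000 h1)) (pr_cmul (enc_norm (bx4q0_3.enc h1.l h2)) (pr_norm (pr_csub (enc_rat _ 712 625) (pr_scaleT 569 500 h1))))) (pr_add (pr_csub (enc_rat _ 13991 50000) (pr_scaleT 349 1250 h1)) (pr_cmul (enc_norm (bx4q0_3.enc h1.l h2)) (pr_norm (pr_csub (enc_rat _ 11399 10000) (bx4q0_87_s.snd h1 h2))))))))))⟩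
noncomputable def l4q0_s : Sl2 l4q0 := ⟨_, fun h1 h2 => (pr_norm (pr_mul (cv4m_s.snd h1) (bx4q0_s.snd h1 h2)))⟩
noncomputable def bd4q0_s : Sl2 bd4q0 := ⟨_, fun h1 h2 => (pr_norm (pr_case (pr_subr 3 100 h1) (pr_case (pr_subr 1 100 h1) (pr_add (pr_csub (enc_rat _ 3567 10000) (pr_scaleT 9 25 h1)) (pr_cmul (enc_norm (bd4q0_3.enc h1.l h2)) (pr_norm (pr_csub (enc_rat _ 292557 1000) (pr_scaleT 1463 5 h1))))) (pr_add (pr_csub (enc_rat _ 7133 20000) (pr_scaleT 71 200 h1)) (pr_cmul (enc_norm (bd4q0_3.enc h1.l h2)) (pr_norm (pr_csub (enc_rat _ 585113 2000) (pr_scaleT 5851 20 h1)))))) (pr_case (pr_subr 303 10000 h1) (pr_add (pr_csub (enc_rat _ 183 500) (pr_scaleT 2 3 h1)) (pr_cmul (enc_norm (bd4q0_3.enc h1.l h2)) (pr_norm (pr_csub (enc_rat _ 14629 50) (pr_scaleT 880 3 h1))))) (pr_case (pr_subr 11 200 h1) (pr_add (pr_csub (enc_rat _ 88079 247000) (pr_scaleT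 88 247 h1)) (pr_cmul (enc_norm (bd4q0_3.enc h1.l h2)) (pr_norm (pr_csub (enc_rat _ 36130701 123500) (pr_scaleT 72260 247 h1))))) (pr_add (pr_csub (enc_rat _ 317387 890000) (pr_scaleT 1587 4450 h1)) (pr_cmul (enc_norm (bd4q0_3.enc h1.l h2)) (pr_norm (pr_csub (enc_rat _ 13018771 44500) (pr_scaleT 130188 445 h1)))))))))⟩
noncomputable def kc4q0_s : Sl2 kc4q0 := ⟨_, fun h1 h2 => (pr_norm (pr_mul (cv4m_s.snd h1) (bd4q0_s.snd h1 h2)))⟩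
noncomputable def bf4q1_s : Sl2 bf4q1 := ⟨_, fun h1 h2 => (pr_norm (pr_case (pr_subr 4 5 h1) (pr_add (pr_subr 653 5000 (pr_scaleT 5653 5000 h1)) (pr_cmul (enc_norm (bf4q1_3.enc h1.l h2)) (pr_norm (pr_csub (enc_rat _ 4167 1000) (pr_scaleT 4167 1000 h1))))) (pr_case (pr_subr 91 100 h1) (pr_add (pr_subr 35923 275000 (pr_scaleT 12437 11000 h1)) (pr_cmul (enc_norm (bf4q1_3.enc h1.l h2)) (pr_norm (pr_csub (enc_rat _ 229197 55000) (pr_scaleT 1146 275 h1))))) (pr_add (pr_subr 47 360 (pr_scaleT 407 360 h1)) (pr_cmul (enc_norm (bf4q1_3.enc h1.l h2)) (pr_norm (pr_csub (enc_rat _ 25 6) (pr_scaleT 25 6 h1))))))))⟩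
noncomputable def kf4q1_s : Sl2 kf4q1 := ⟨_, fun h1 h2 => (pr_norm (pr_mul (cv4m_s.snd h1) (bf4q1_s.snd h1 h2)))⟩
noncomputable def bx4q1_s : Sl2 bx4q1 := ⟨_, fun h1 h2 => (pr_norm (pr_case (pr_subr 4 5 h1) (pr_add (pr_csub (enc_rat _ 10517 37500) (pr_scaleT 4207 15000 h1)) (pr_cmul (enc_norm (bx4q1_3.enc h1.l h2)) (pr_norm (pr_csub (enc_rat _ 17101 15000) (pr_scaleT 3421 3000 h1))))) (pr_case (pr_subr 91 100 h1) (pr_add (pr_csub (enc_rat _ 38551 137500) (pr_scaleT 771 2750 h1)) (pr_cmul (enc_norm (bx4q1_3.enc h1.l h2)) (pr_norm (pr_csub (enc_rat _ 62649 55000) (pr_scaleT 1253 1100 h1))))) (pr_add (pr_csub (enc_rat _ 631 2250) (pr_scaleT 631 2250 h1)) (pr_cmul (enc_norm (bx4q1_3.enc h1.l h2)) (pr_norm (pr_csub (enc_rat _ 41 36) (pr_scaleT 41 36 h1))))))))⟩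
noncomputable def l4q1_s : Sl2 l4q1 := ⟨_, fun h1 h2 => (pr_norm (pr_mul (cv4m_s.snd h1) (bx4q1_s.snd h1 h2)))⟩
noncomputable def bd4q1_s : Sl2 bd4q1 := ⟨_, fun h1 h2 => (pr_norm (pr_add (pr_csub (enc_rat _ 1783 5000) (pr_scaleT 1783 5000 h1)) (pr_cmul (enc_norm (enc_subr 153 160 h2)) (pr_norm (pr_csub (enc_rat _ 73139 250) (pr_scaleT 73139 250 h1))))))⟩
noncomputable def kc4q1_s : Sl2 kc4q1 := ⟨_, fun h1 h2 => (pr_norm (pr_mul (cv4m_s.snd h1) (bd4q1_s.snd h1 h2)))⟩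
noncomputable def cv4p_s : Sl1 cv4p := ⟨_, fun h1 => (pr_norm (pr_add (pr_scaleT 3 10 (pr_subr 1 2 (swg_s.snd h1))) (pr_scaleT 7 10 (c3g_s.snd h1))))⟩
noncomputable def bf4q2_34_s : Sl2 bf4q2_34 := ⟨_, fun h1 h2 => (pr_subr 466157 175000 (pr_scaleT 3009 875 h1))⟩
noncomputable def bf4q2_s : Sl2 bf4q2 := ⟨_, fun h1 h2 => (pr_norm (pr_case (pr_subr 211 200 h1) (pr_case (pr_subr 10303 10000 h1) (pr_add (pr_subr 8071447 3030000 (pr_scaleT 1042 303 h1)) (pr_cmul (enc_norm (bf4q2_3.enc h1.l h2)) (pr_norm (pr_subr 347293 20200 (pr_scaleT 1437 101 h1))))) (pr_add (pr_subr 16448743 6175000 (pr_scaleT 4247 1235 h1)) (pr_cmul (enc_norm (bf4q2_3.enc h1.l h2)) (pr_norm (pr_subr 1698539 98800 (pr_scaleT 3514 247 h1)))))) (pr_case (pr_subr 29 25 h1) (pr_add (bf4q2_34_s.snd h1 h2) (pr_cmul (enc_norm (bf4q2_3.enc h1.l h2)) (pr_norm (pr_subr 240711 14000 (pr_scaleT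 498 35 h1))))) (pr_case (pr_subr 13 10 h1) (pr_add (bf4q2_34_s.snd h1 h2) (pr_cmul (enc_norm (bf4q2_3.enc h1.l h2)) (pr_norm (pr_subr 1203613 70000 (pr_scaleT 19921 1400 h1))))) (pr_add (pr_subr 266381 100000 (pr_scaleT 34389 10000 h1)) (pr_cmul (enc_norm (bf4q2_3.enc h1.l h2)) (pr_norm (pr_subr 343869 20000 (pr_scaleT 28457 2000 h1)))))))))⟩
noncomputable def kf4q2_s : Sl2 kf4q2 := ⟨_, fun h1 h2 => (pr_norm (pr_mul (cv4p_s.snd h1) (bf4q2_s.snd h1 h2)))⟩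
noncomputable def bx4q2_33_s : Sl2 bx4q2_33 := ⟨_, fun h1 h2 => (pr_csub (enc_rat _ 3793 35000) (pr_scaleT 207 1750 h1))⟩
noncomputable def bx4q2_s : Sl2 bx4q2 := ⟨_, fun h1 h2 => (pr_norm (pr_case (pr_subr 109 100 h1) (pr_case (pr_subr 10303 10000 h1) (pr_add (pr_csub (enc_rat _ 602833 5050000) (pr_scaleT 13 101 h1)) (pr_cmul (enc_norm (bx4q2_3.enc h1.l h2)) (pr_norm (pr_subr 34365541 3030000 (pr_scaleT 3220 303 h1))))) (pr_case (pr_subr 211 200 h1) (pr_add (pr_csub (enc_rat _ 1474663 12350000) (pr_scaleT 159 1235 h1)) (pr_cmul (enc_norm (bx4q2_3.enc h1.l h2)) (pr_norm (pr_subr 1750959 154375 (pr_scaleT 2625 247 h1))))) (pr_add (bx4q2_33_s.snd h1 h2) (pr_cmul (enc_norm (bx4q2_3.enc h1.l h2)) (pr_norm (pr_subr 79319 7000 (pr_scaleT 1858 175 h1))))))) (pr_case (pr_subr 29 25 h1) (pr_add (bx4q2_33_s.snd h1 h2) (pr_cmul (enc_norm (bx4q2_3.enc h1.l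 h2)) (pr_norm (pr_subr 334029 35000 (pr_scaleT 1571 175 h1))))) (pr_case (pr_subr 13 10 h1) (pr_add (pr_subr 2593 70000 (pr_scaleT 99 14000 h1)) (pr_cmul (enc_norm (bx4q2_3.enc h1.l h2)) (pr_norm (pr_subr 57717 35000 (pr_scaleT 76 35 h1))))) (pr_add (pr_subr 276529 200000 (pr_scaleT 20843 20000 h1)) (pr_cmul (enc_norm (bx4q2_3.enc h1.l h2)) (pr_norm (pr_subr 31397 20000 (pr_scaleT 4221 2000 h1)))))))))⟩
noncomputable def l4q2_s : Sl2 l4q2 := ⟨_, fun h1 h2 => (pr_norm (pr_mul (cv4p_s.snd h1) (bx4q2_s.snd h1 h2)))⟩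
noncomputable def bd4q2_s : Sl2 bd4q2 := ⟨_, fun h1 h2 => (pr_norm (pr_case (pr_subr 231 200 h1) (pr_add (pr_subr 5714147 310000 (pr_scaleT 9152 775 h1)) (pr_cmul (enc_norm (bd4q2_3.enc h1.l h2)) (pr_norm (pr_csub (enc_rat _ 1629007 3100) (pr_scaleT 119802 155 h1))))) (pr_add (pr_subr 4239439 230000 (pr_scaleT 1358 115 h1)) (pr_cmul (enc_norm (bd4q2_3.enc h1.l h2)) (pr_norm (pr_csub (enc_rat _ 12086407 23000) (pr_scaleT 266659 345 h1)))))))⟩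
noncomputable def kc4q2_s : Sl2 kc4q2 := ⟨_, fun h1 h2 => (pr_norm (pr_mul (cv4p_s.snd h1) (bd4q2_s.snd h1 h2)))⟩
noncomputable def xc43_s : Sl1 xc43 := ⟨_, fun h1 => (pr_norm (pr_add (pr_scaleT 3 10 (pr_subr 1 2 (swg_s.snd (pr_nd (ycg_s.snd h1))))) (pr_scaleT 7 10 h1)))⟩
noncomputable def kfc43_s : Sl2 kfc43 := ⟨_, fun h1 h2 => (pr_norm (pr_mul (pr_norm (pr_add (pr_scaleT 3 10 (pr_subr 1 2 (swg_s.snd (pr_nd (ycg_s.snd h1))))) (pr_scaleT 7 10 h1))) (pr_norm (pr_case (pr_subr 19697 10000 (ycg_s.snd h1)) (pr_case (pr_subr 191 100 (ycg_s.snd h1)) (pr_add (pr_subr 287551 164000 (pr_scaleT 44037 41000 (ycg_s.snd h1))) (pr_cmul (enc_norm (kfc43_11.enc h1.l h2)) (pr_norm (pr_csub (enc_rat _ 16130969 410000) (pr_scaleT 85739 4100 (ycg_s.snd h1)))))) (pr_case (pr_subr 389 200 (ycg_s.snd h1)) (pr_add (pr_subr 87661 50000 (pr_scaleT 537 500 (ycg_s.snd h1)))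 (pr_cmul (enc_norm (kfc43_11.enc h1.l h2)) (pr_norm (pr_csub (enc_rat _ 1376999 35000) (pr_scaleT 7319 350 (ycg_s.snd h1)))))) (pr_add (pr_subr 43308813 24700000 (pr_scaleT 2653 2470 (ycg_s.snd h1))) (pr_cmul (enc_norm (kfc43_11.enc h1.l h2)) (pr_norm (pr_csub (enc_rat _ 97193847 2470000) (pr_scaleT 5166 247 (ycg_s.snd h1)))))))) (pr_case (pr_csub (enc_rat _ 215220381 1000000000) h1) (pr_case (pr_csub (enc_rat _ 33784661 125000000) h1) (pr_add (pr_csub (enc_rat _ 1314396707601 3007489300000) (pr_scaleT 7490000 30074893 h1)) (pr_cmul (enc_norm (kfc43_11.enc h1.l h2)) (pr_norm (pr_csub (enc_rat _ 1142714 18796808125) (pr_scaleT 184900000 30074893 h1))))) (pr_add (pr_csub (enc_rat _ 2405898907071 5505690700000) (pr_scaleT 13700000 55056907 h1)) (pr_cmul (enc_norm (kfc43_11.enc h1.l h2)) (pr_norm (pr_subr 5180603 13764226750 (pr_neg (pr_scaleT 338400000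 55056907 h1))))))) (pr_case (pr_csub (enc_rat _ 141655683 1000000000) h1) (pr_add (pr_csub (enc_rat _ 267878709387 613039150000) (pr_scaleT 3050000 12260783 h1)) (pr_cmul (enc_norm (kfc43_11.enc h1.l h2)) (pr_norm (pr_subr 30253509 122607830000 (pr_neg (pr_scaleT 226100000 36782349 h1)))))) (pr_sub (pr_csub (enc_rat _ 1 2) (pr_scaleT 98270000 141655683 h1)) (pr_cmul (enc_norm (kfc43_11.enc h1.l h2)) (pr_nd (pr_scaleT 67000000 10896591 h1))))))))))⟩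
noncomputable def lc43_s : Sl2 lc43 := ⟨_, fun h1 h2 => (pr_norm (pr_mul (pr_norm (pr_add (pr_scaleT 3 10 (pr_subr 1 2 (swg_s.snd (pr_nd (ycg_s.snd h1))))) (pr_scaleT 7 10 h1))) (pr_norm (pr_case (pr_subr 19697 10000 (ycg_s.snd h1)) (pr_case (pr_subr 191 100 (ycg_s.snd h1)) (pr_add (pr_subr 883709 512500 (pr_scaleT 52067 41000 (ycg_s.snd h1))) (pr_cmul (enc_norm (lc43_11.enc h1.l h2)) (pr_norm (pr_addc (pr_scaleT 1913 4100 (ycg_s.snd h1)) (enc_rat _ 367369 410000))))) (pr_case (pr_subr 389 200 (ycg_s.snd h1)) (pr_add (pr_subr 1206733 700000 (pr_scaleT 1111 875 (ycg_s.snd h1))) (pr_cmul (enc_norm (lc43_11.enc h1.l h2)) (pr_norm (pr_addc (pr_scaleT 163 350 (ycg_s.snd h1)) (enc_rat _ 31419 35000))))) (pr_add (pr_subr 42596107 24700000 (pr_scaleT 3137 2470 (ycg_s.snd h1))) (pr_cmul (enc_norm (lc43_11.enc h1.l h2)) (pr_norm (pr_addc (pr_scaleT 116 247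 (ycg_s.snd h1)) (enc_rat _ 439689 494000))))))) (pr_case (pr_csub (enc_rat _ 215220381 1000000000) h1) (pr_case (pr_csub (enc_rat _ 33784661 125000000) h1) (pr_add (pr_csub (enc_rat _ 2409384511079 3007489300000) (pr_scaleT 2410000 30074893 h1)) (pr_cmul (enc_norm (lc43_11.enc h1.l h2)) (pr_norm (pr_addc (pr_scaleT 102500000 30074893 h1) (enc_rat _ 119014198659 150374465000))))) (pr_add (pr_csub (enc_rat _ 4410713013937 5505690700000) (pr_scaleT 4410000 55056907 h1)) (pr_cmul (enc_norm (lc43_11.enc h1.l h2)) (pr_norm (pr_addc (pr_scaleT 187500000 55056907 h1) (enc_rat _ 218067337141 275284535000)))))) (pr_case (pr_csub (enc_rat _ 141655683 1000000000) h1) (pr_add (pr_csub (enc_rat _ 1955699154917 2452156600000) (pr_scaleT 2335000 36782349 h1)) (pr_cmul (enc_norm (lc43_11.enc h1.l h2)) (pr_norm (pr_addc (pr_scaleT 125450000 36782349 h1) (enc_rat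 _ 193982424423 245215660000))))) (pr_add (pr_addc (pr_scaleT 371703503927 10407443030010 h1) (enc_rat _ 57563064996073 73470000000000)) (pr_cmul (enc_norm (lc43_11.enc h1.l h2)) (pr_norm (pr_addc (pr_scaleT 3567997826693 1040744303001 h1) (enc_rat _ 5793549573307 7347000000000)))))))))))⟩
noncomputable def kcc43_s : Sl2 kcc43 := ⟨_, fun h1 h2 => (pr_norm (pr_mul (pr_norm (pr_add (pr_scaleT 3 10 (pr_subr 1 2 (swg_s.snd (pr_nd (ycg_s.snd h1))))) (pr_scaleT 7 10 h1))) (pr_norm (pr_case (pr_subr 19697 10000 (ycg_s.snd h1)) (pr_case (pr_subr 389 200 (ycg_s.snd h1)) (pr_add (pr_subr 16404877 890000 (pr_scaleT 52549 4450 (ycg_s.snd h1))) (pr_cmul (enc_norm (kcc43_11.enc h1.l h2)) (pr_norm (pr_csub (enc_rat _ 46768701 89000) (pr_scaleT 68790 89 (ycg_s.snd h1)))))) (pr_add (pr_subr 22766359 1235000 (pr_scaleT 2917 247 (ycg_s.snd h1))) (pr_cmul (enc_norm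 (kcc43_11.enc h1.l h2)) (pr_norm (pr_csub (enc_rat _ 129793223 247000) (pr_scaleT 190910 247 (ycg_s.snd h1))))))) (pr_case (pr_csub (enc_rat _ 298872883 1000000000) h1) (pr_add (pr_csub (enc_rat _ 102346426997 14792980000) (pr_scaleT 5150000 739649 h1)) (pr_cmul (enc_norm (kcc43_11.enc h1.l h2)) (pr_norm (pr_subr 23373460687 295859600 (pr_neg (pr_scaleT 2260500000 739649 h1)))))) (pr_add (pr_csub (enc_rat _ 1157 167) (pr_scaleT 349120800000 49911771461 h1)) (pr_cmul (enc_norm (kcc43_11.enc h1.l h2)) (pr_norm (pr_subr 13176 167 (pr_neg (pr_scaleT 152556637000000 49911771461 h1)))))))))))⟩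
noncomputable def kf5q0_s : Sl2 kf5q0 := ⟨_, fun h1 h2 => (pr_norm (pr_sub (pr_mul h1 (kcg_s.snd (pr_nd (pr_half h1)) h2)) (pr_mul (pr_norm (pr_mul (pr_nd (pr_sq h1)) (pr_norm (pr_addc (c3g_s.snd h1) (enc_rat _ 3 2))))) (pr_nd (pr_inv (pr_mul (pr_norm (pr_csub (enc_pnc _ 1) h1)) (pr_norm (pr_cadd (enc_pnc _ 1) h1))))))))⟩
noncomputable def l5q0_6_s : Sl2 l5q0_6 := ⟨_, fun h1 h2 => (pr_half h1)⟩
noncomputable def l5q0_7_s : Sl2 l5q0_7 := ⟨_, fun h1 h2 => (pr_half (c3g_s.snd h1))⟩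
noncomputable def l5q0_8_s : Sl2 l5q0_8 := ⟨_, fun h1 h2 => (pr_scaleT 1 4 h1)⟩
noncomputable def l5q0_s : Sl2 l5q0 := ⟨_, fun h1 h2 => (pr_norm (pr_add (txg_s.snd (pr_nd (l5q0_6_s.snd h1 h2)) (pr_norm (pr_sub (l5q0_7_s.snd h1 h2) (l5q0_8_s.snd h1 h2))) h2) (txg_s.snd (pr_nd (pr_neg (l5q0_6_s.snd h1 h2))) (pr_norm (pr_add (l5q0_7_s.snd h1 h2) (l5q0_8_s.snd h1 h2))) h2)))⟩
noncomputable def kc5q0_6_s : Sl2 kc5q0_6 := ⟨_, fun h1 h2 => (pr_half h1)⟩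
noncomputable def kc5q0_s : Sl2 kc5q0 := ⟨_, fun h1 h2 => (pr_norm (pr_case (pr_subr 167 1000 (kc5q0_6_s.snd h1 h2)) (pr_add (pr_subr 3323 500 (pr_scaleT 31851 3340 h1)) (pr_cmul (enc_norm (kc5q0_3.enc h1.l h2)) (pr_norm (pr_subr 55203 50 (pr_scaleT 559893 334 h1))))) (pr_case (pr_subr 333 1000 (kc5q0_6_s.snd h1 h2)) (pr_add (pr_subr 11032147 1660000 (pr_scaleT 31659 3320 h1)) (pr_cmul (enc_norm (kc5q0_3.enc h1.l h2)) (pr_norm (pr_subr 91636951 83000 (pr_scaleT 139135 83 h1))))) (pr_add (pr_subr 295 334 (pr_scaleT 295 334 h1)) (pr_cmul (enc_norm (kc5q0_3.enc h1.l h2)) (pr_norm (pr_csub (enc_rat _ 12373 334) (pr_scaleT 12373 334 h1))))))))⟩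
noncomputable def kf5q1_s : Sl2 kf5q1 := ⟨_, fun h1 h2 => (pr_norm (pr_add (pr_mul (pr_norm (pr_mul h1 (pr_norm (pr_addc (c3g_s.snd h1) (enc_rat _ 3 2))))) (pr_nd (pr_inv (pr_cadd (enc_pnc _ 1) h1)))) (pr_mul (pr_norm (pr_subn 1 h1)) (kcg_s.snd (pr_nd (pr_half h1)) h2))))⟩
noncomputable def l5q1_7_s : Sl2 l5q1_7 := ⟨_, fun h1 h2 => (pr_half h1)⟩
noncomputable def l5q1_8_s : Sl2 l5q1_8 := ⟨_, fun h1 h2 => (pr_half (c3g_s.snd h1))⟩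
noncomputable def l5q1_9_s : Sl2 l5q1_9 := ⟨_, fun h1 h2 => (pr_scaleT 1 4 h1)⟩
noncomputable def l5q1_s : Sl2 l5q1 := ⟨_, fun h1 h2 => (pr_norm (pr_add (txg_s.snd (pr_nd (l5q1_7_s.snd h1 h2)) (pr_norm (pr_sub (l5q1_8_s.snd h1 h2) (l5q1_9_s.snd h1 h2))) h2) (txg_s.snd (pr_nd (pr_neg (l5q1_7_s.snd h1 h2))) (pr_norm (pr_add (l5q1_8_s.snd h1 h2) (l5q1_9_s.snd h1 h2))) h2)))⟩
noncomputable def kc5q1_7_s : Sl2 kc5q1_7 := ⟨_, fun h1 h2 => (pr_half h1)⟩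
noncomputable def kc5q1_s : Sl2 kc5q1 := ⟨_, fun h1 h2 => (pr_norm (pr_case (pr_subr 167 1000 (kc5q1_7_s.snd h1 h2)) (pr_add (pr_subr 3323 500 (pr_scaleT 31851 3340 h1)) (pr_cmul (enc_norm (kc5q1_3.enc h1.l h2)) (pr_norm (pr_subr 55203 50 (pr_scaleT 559893 334 h1))))) (pr_case (pr_subr 333 1000 (kc5q1_7_s.snd h1 h2)) (pr_add (pr_subr 11032147 1660000 (pr_scaleT 31659 3320 h1)) (pr_cmul (enc_norm (kc5q1_3.enc h1.l h2)) (pr_norm (pr_subr 91636951 83000 (pr_scaleT 139135 83 h1))))) (pr_add (pr_subr 295 334 (pr_scaleT 295 334 h1)) (pr_cmul (enc_norm (kc5q1_3.enc h1.l h2)) (pr_norm (pr_csub (enc_rat _ 12373 334) (pr_scaleT 12373 334 h1))))))))⟩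
noncomputable def kf5q2_s : Sl2 kf5q2 := ⟨_, fun h1 h2 => (pr_norm (pr_add (pr_mul (pr_norm (pr_mul (pr_norm (pr_sub (pr_nat 2 (c3g_s.snd h1)) h1)) (pr_norm (pr_sub (pr_addc (c3g_s.snd h1) (enc_pnc _ 3)) (pr_scaleT 3 2 h1))))) (pr_nd (pr_inv (pr_nat 4 (pr_csub (enc_pnc _ 2) h1))))) (pr_mul (pr_norm (pr_subn 1 h1)) (kcg_s.snd (pr_norm (pr_sub (pr_scaleT 1 4 h1) (pr_half (c3g_s.snd h1)))) h2))))⟩
noncomputable def l5q2_7_s : Sl2 l5q2_7 := ⟨_, fun h1 h2 => (pr_half (c3g_s.snd h1))⟩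
noncomputable def l5q2_8_s : Sl2 l5q2_8 := ⟨_, fun h1 h2 => (pr_scaleT 1 4 h1)⟩
noncomputable def l5q2_9_s : Sl2 l5q2_9 := ⟨_, fun h1 h2 => (pr_sub (l5q2_7_s.snd h1 h2) (l5q2_8_s.snd h1 h2))⟩
noncomputable def l5q2_12_s : Sl2 l5q2_12 := ⟨_, fun h1 h2 => (pr_add (pr_scaleT 1 4 (c3g_s.snd h1)) (pr_scaleT 3 8 h1))⟩
noncomputable def l5q2_14_s : Sl2 l5q2_14 := ⟨_, fun h1 h2 => (pr_half (l5q2_9_s.snd h1 h2))⟩
noncomputable def l5q2_s : Sl2 l5q2 := ⟨_, fun h1 h2 => (pr_norm (pr_sub (pr_nat 2 (txg_s.snd (pr_norm (pr_sub (l5q2_8_s.snd h1 h2) (l5q2_7_s.snd h1 h2))) (pr_norm (pr_add (l5q2_12_s.snd h1 h2) (l5q2_14_s.snd h1 h2))) h2)) (txg_s.snd (pr_norm (l5q2_9_s.snd h1 h2)) (pr_norm (pr_sub (l5q2_12_s.snd h1 h2) (l5q2_14_s.snd h1 h2))) h2)))⟩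
noncomputable def kc5q2_9_s : Sl2 kc5q2_9 := ⟨_, fun h1 h2 => (pr_sub (pr_half (c3g_s.snd h1)) (pr_scaleT 1 4 h1))⟩
noncomputable def kc5q2_27_s : Sl2 kc5q2_27 := ⟨_, fun h1 h2 => (pr_scaleT 301 166 (kc5q2_9_s.snd h1 h2))⟩
noncomputable def kc5q2_s : Sl2 kc5q2 := ⟨_, fun h1 h2 => (pr_norm (pr_case (kc5q2_9_s.snd h1 h2) (pr_case (pr_addc (kc5q2_9_s.snd h1 h2) (enc_rat _ 333 1000)) (pr_add (pr_addc (pr_scaleT 2314 167 (kc5q2_9_s.snd h1 h2)) (enc_rat _ 1157 167)) (pr_cmul (enc_norm (kc5q2_3.enc h1.l h2)) (pr_norm (pr_subr 13176 167 (pr_neg (pr_scaleT 26352 167 (kc5q2_9_s.snd h1 h2))))))) (pr_case (pr_addc (kc5q2_9_s.snd h1 h2) (enc_rat _ 167 1000)) (pr_add (pr_csub (enc_rat _ 283891 166000) (kc5q2_27_s.snd h1 h2)) (pr_cmul (enc_norm (kc5q2_3.enc h1.l h2)) (pr_norm (pr_addc (pr_scaleT 26725 83 (kc5q2_9_s.snd h1 h2)) (enc_rat _ 6712209 83000))))) (pr_add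 (pr_csub (enc_rat _ 17101 10000) (pr_scaleT 3029 1670 (kc5q2_9_s.snd h1 h2))) (pr_cmul (enc_norm (kc5q2_3.enc h1.l h2)) (pr_norm (pr_addc (pr_scaleT 53773 167 (kc5q2_9_s.snd h1 h2)) (enc_rat _ 80871 1000))))))) (pr_case (pr_subr 167 1000 (kc5q2_9_s.snd h1 h2)) (pr_add (pr_csub (enc_rat _ 17101 10000) (pr_scaleT 1514 835 (kc5q2_9_s.snd h1 h2))) (pr_cmul (enc_norm (kc5q2_3.enc h1.l h2)) (pr_norm (pr_addc (pr_scaleT 53772 167 (kc5q2_9_s.snd h1 h2)) (enc_rat _ 80871 1000))))) (pr_case (pr_subr 333 1000 (kc5q2_9_s.snd h1 h2)) (pr_add (pr_csub (enc_rat _ 709697 415000) (kc5q2_27_s.snd h1 h2)) (pr_cmul (enc_norm (kc5q2_3.enc h1.l h2)) (pr_norm (pr_addc (pr_scaleT 53451 166 (kc5q2_9_s.snd h1 h2)) (enc_rat _ 13424421 166000))))) (pr_add (pr_csub (enc_rat _ 11063 3340) (pr_scaleT 11063 1670 (kc5q2_9_s.snd h1 h2))) (pr_cmul (enc_norm (kc5q2_3.enc h1.l h2))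 (pr_norm (pr_csub (enc_rat _ 94047 167) (pr_scaleT 188094 167 (kc5q2_9_s.snd h1 h2))))))))))⟩
noncomputable def kfc53_s : Sl2 kfc53 := ⟨_, fun h1 h2 => (pr_norm (pr_sub (pr_mul (pr_norm (pr_subn 2 (ycg_s.snd h1))) (kcg_s.snd (pr_norm (pr_sub (pr_scaleT 1 4 (ycg_s.snd h1)) (pr_half h1))) h2)) (pr_mul (pr_norm (pr_mul (pr_norm (pr_sub (pr_nat 2 h1) (ycg_s.snd h1))) (pr_norm (pr_sub (pr_addc h1 (enc_pnc _ 3)) (pr_scaleT 3 2 (ycg_s.snd h1)))))) (pr_nd (pr_inv (pr_nat 4 (pr_subn 1 (ycg_s.snd h1))))))))⟩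
noncomputable def lc53_7_s : Sl2 lc53_7 := ⟨_, fun h1 h2 => (pr_half h1)⟩
noncomputable def lc53_8_s : Sl2 lc53_8 := ⟨_, fun h1 h2 => (pr_scaleT 1 4 (ycg_s.snd h1))⟩
noncomputable def lc53_9_s : Sl2 lc53_9 := ⟨_, fun h1 h2 => (pr_sub (lc53_7_s.snd h1 h2) (lc53_8_s.snd h1 h2))⟩
noncomputable def lc53_12_s : Sl2 lc53_12 := ⟨_, fun h1 h2 => (pr_add (pr_scaleT 1 4 h1) (pr_scaleT 3 8 (ycg_s.snd h1)))⟩
noncomputable def lc53_14_s : Sl2 lc53_14 := ⟨_, fun h1 h2 => (pr_half (lc53_9_s.snd h1 h2))⟩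
noncomputable def lc53_s : Sl2 lc53 := ⟨_, fun h1 h2 => (pr_norm (pr_sub (pr_nat 2 (txg_s.snd (pr_norm (pr_sub (lc53_8_s.snd h1 h2) (lc53_7_s.snd h1 h2))) (pr_norm (pr_add (lc53_12_s.snd h1 h2) (lc53_14_s.snd h1 h2))) h2)) (txg_s.snd (pr_norm (lc53_9_s.snd h1 h2)) (pr_norm (pr_sub (lc53_12_s.snd h1 h2) (lc53_14_s.snd h1 h2))) h2)))⟩
noncomputable def kcc53_9_s : Sl2 kcc53_9 := ⟨_, fun h1 h2 => (pr_sub (pr_half h1) (pr_scaleT 1 4 (ycg_s.snd h1)))⟩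
noncomputable def kcc53_27_s : Sl2 kcc53_27 := ⟨_, fun h1 h2 => (pr_scaleT 301 166 (kcc53_9_s.snd h1 h2))⟩
noncomputable def kcc53_s : Sl2 kcc53 := ⟨_, fun h1 h2 => (pr_norm (pr_case (kcc53_9_s.snd h1 h2) (pr_case (pr_addc (kcc53_9_s.snd h1 h2) (enc_rat _ 333 1000)) (pr_add (pr_addc (pr_scaleT 2314 167 (kcc53_9_s.snd h1 h2)) (enc_rat _ 1157 167)) (pr_cmul (enc_norm (kcc53_4.enc h1.l h2)) (pr_norm (pr_subr 13176 167 (pr_neg (pr_scaleT 26352 167 (kcc53_9_s.snd h1 h2))))))) (pr_case (pr_addc (kcc53_9_s.snd h1 h2) (enc_rat _ 167 1000)) (pr_add (pr_csub (enc_rat _ 283891 166000) (kcc53_27_s.snd h1 h2)) (pr_cmul (enc_norm (kcc53_4.enc h1.l h2)) (pr_norm (pr_addc (pr_scaleT 26725 83 (kcc53_9_s.snd h1 h2)) (enc_rat _ 6712209 83000))))) (pr_add (pr_csub (enc_rat _ 17101 10000) (pr_scaleT 3029 1670 (kcc53_9_s.snd h1 h2))) (pr_cmul (enc_norm (kcc53_4.enc h1.l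 h2)) (pr_norm (pr_addc (pr_scaleT 53773 167 (kcc53_9_s.snd h1 h2)) (enc_rat _ 80871 1000))))))) (pr_case (pr_subr 167 1000 (kcc53_9_s.snd h1 h2)) (pr_add (pr_csub (enc_rat _ 17101 10000) (pr_scaleT 1514 835 (kcc53_9_s.snd h1 h2))) (pr_cmul (enc_norm (kcc53_4.enc h1.l h2)) (pr_norm (pr_addc (pr_scaleT 53772 167 (kcc53_9_s.snd h1 h2)) (enc_rat _ 80871 1000))))) (pr_case (pr_subr 333 1000 (kcc53_9_s.snd h1 h2)) (pr_add (pr_csub (enc_rat _ 709697 415000) (kcc53_27_s.snd h1 h2)) (pr_cmul (enc_norm (kcc53_4.enc h1.l h2)) (pr_norm (pr_addc (pr_scaleT 53451 166 (kcc53_9_s.snd h1 h2)) (enc_rat _ 13424421 166000))))) (pr_add (pr_csub (enc_rat _ 11063 3340) (pr_scaleT 11063 1670 (kcc53_9_s.snd h1 h2))) (pr_cmul (enc_norm (kcc53_4.enc h1.l h2)) (pr_norm (pr_csub (enc_rat _ 94047 167) (pr_scaleT 188094 167 (kcc53_9_s.snd h1 h2))))))))))⟩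
noncomputable def gB0q0 : Gn := ⟨ndB0q0, c1g_s, kf0q0_s, l0q0_s, false⟩
noncomputable def dB0q0 : CnW := ⟨cd0q0, kc0q0_s⟩
noncomputable def gB0q1 : Gn := ⟨ndB0q1, c1g_s, kf0q1_s, l0q1_s, false⟩
noncomputable def dB0q1 : CnW := ⟨cd0q1, kc0q1_s⟩
noncomputable def gB0q2 : Gn := ⟨ndB0q2, idf_s, kfc02_s, lc02_s, true⟩
noncomputable def dB0q2 : CnW := ⟨cd0q2, kcc02_s⟩
noncomputable def gB1q0 : Gn := ⟨ndB1q0, cv1m_s, kf1q0_s, l1q0_s, false⟩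
noncomputable def dB1q0 : CnW := ⟨cd1q0, kc1q0_s⟩
noncomputable def gB1q1 : Gn := ⟨ndB1q1, cv1m_s, kf1q1_s, l1q1_s, false⟩
noncomputable def dB1q1 : CnW := ⟨cd1q1, kc1q1_s⟩
noncomputable def gB1q2 : Gn := ⟨ndB1q2, cv1p_s, kf1q2_s, l1q2_s, false⟩
noncomputable def dB1q2 : CnW := ⟨cd1q2, kc1q2_s⟩
noncomputable def gB1q3 : Gn := ⟨ndB1q3, cv1r_s, kf1q3_s, l1q3_s, false⟩
noncomputable def dB1q3 : CnW := ⟨cd1q3, kc1q3_s⟩
noncomputable def gB2q0 : Gn := ⟨ndB2q0, cv2m_s, kf2q0_s, l2q0_s, false⟩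
noncomputable def dB2q0 : CnW := ⟨cd2q0, kc2q0_s⟩
noncomputable def gB2q1 : Gn := ⟨ndB2q1, cv2m_s, kf2q1_s, l2q1_s, false⟩
noncomputable def dB2q1 : CnW := ⟨cd2q1, kc2q1_s⟩
noncomputable def gB2q2 : Gn := ⟨ndB2q2, cv2p_s, kf2q2_s, l2q2_s, false⟩
noncomputable def dB2q2 : CnW := ⟨cd2q2, kc2q2_s⟩
noncomputable def gB2q3 : Gn := ⟨ndB2q3, cv2r_s, kf2q3_s, l2q3_s, false⟩
noncomputable def dB2q3 : CnW := ⟨cd2q3, kc2q3_s⟩
noncomputable def gB3q0 : Gn := ⟨ndB3q0, cv3m_s, kf3q0_s, l3q0_s, false⟩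
noncomputable def dB3q0 : CnW := ⟨cd3q0, kc3q0_s⟩
noncomputable def gB3q1 : Gn := ⟨ndB3q1, cv3m_s, kf3q1_s, l3q1_s, false⟩
noncomputable def dB3q1 : CnW := ⟨cd3q1, kc3q1_s⟩
noncomputable def gB3q2 : Gn := ⟨ndB3q2, cv3p_s, kf3q2_s, l3q2_s, false⟩
noncomputable def dB3q2 : CnW := ⟨cd3q2, kc3q2_s⟩
noncomputable def gB3q3 : Gn := ⟨ndB3q3, xc33_s, kfc33_s, lc33_s, false⟩
noncomputable def dB3q3 : CnW := ⟨cd3q3, kcc33_s⟩
noncomputable def gB4q0 : Gn := ⟨ndB4q0, cv4m_s, kf4q0_s, l4q0_s, false⟩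
noncomputable def dB4q0 : CnW := ⟨cd4q0, kc4q0_s⟩
noncomputable def gB4q1 : Gn := ⟨ndB4q1, cv4m_s, kf4q1_s, l4q1_s, false⟩
noncomputable def dB4q1 : CnW := ⟨cd4q1, kc4q1_s⟩
noncomputable def gB4q2 : Gn := ⟨ndB4q2, cv4p_s, kf4q2_s, l4q2_s, false⟩
noncomputable def dB4q2 : CnW := ⟨cd4q2, kc4q2_s⟩
noncomputable def gB4q3 : Gn := ⟨ndB4q3, xc43_s, kfc43_s, lc43_s, false⟩
noncomputable def dB4q3 : CnW := ⟨cd4q3, kcc43_s⟩
noncomputable def gB5q0 : Gn := ⟨ndB5q0, c3g_s, kf5q0_s, l5q0_s, false⟩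
noncomputable def dB5q0 : CnW := ⟨cd5q0, kc5q0_s⟩
noncomputable def gB5q1 : Gn := ⟨ndB5q1, c3g_s, kf5q1_s, l5q1_s, false⟩
noncomputable def dB5q1 : CnW := ⟨cd5q1, kc5q1_s⟩
noncomputable def gB5q2 : Gn := ⟨ndB5q2, c3g_s, kf5q2_s, l5q2_s, false⟩
noncomputable def dB5q2 : CnW := ⟨cd5q2, kc5q2_s⟩
noncomputable def gB5q3 : Gn := ⟨ndB5q3, idf_s, kfc53_s, lc53_s, false⟩
noncomputable def dB5q3 : CnW := ⟨cd5q3, kcc53_s⟩
noncomputable def gB0q3 : Gn := gz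
noncomputable def dB0q3 : CnW := ⟨fz2, fz2_s⟩
noncomputable def gB (j : Fin 6) (q : ℕ) : Gn :=
  match j, q with
  | 0, 0 => gB0q0
  | 0, 1 => gB0q1
  | 0, 2 => gB0q2
  | 0, 3 => gB0q3
  | 1, 0 => gB1q0
  | 1, 1 => gB1q1
  | 1, 2 => gB1q2
  | 1, 3 => gB1q3
  | 2, 0 => gB2q0
  | 2, 1 => gB2q1
  | 2, 2 => gB2q2
  | 2, 3 => gB2q3
  | 3, 0 => gB3q0
  | 3, 1 => gB3q1
  | 3, 2 => gB3q2
  | 3, 3 => gB3q3
  | 4, 0 => gB4q0
  | 4, 1 => gB4q1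
  | 4, 2 => gB4q2
  | 4, 3 => gB4q3
  | 5, 0 => gB5q0
  | 5, 1 => gB5q1
  | 5, 2 => gB5q2
  | 5, 3 => gB5q3
  | _, _ => gB0q0

noncomputable def dB (j : Fin 6) (q : ℕ) : CnW :=
  match j, q with
  | 0, 0 => dB0q0
  | 0, 1 => dB0q1
  | 0, 2 => dB0q2
  | 0, 3 => dB0q3
  | 1, 0 => dB1q0
  | 1, 1 => dB1q1
  | 1, 2 => dB1q2
  | 1, 3 => dB1q3
  | 2, 0 => dB2q0
  | 2, 1 => dB2q1
  | 2, 2 => dB2q2
  | 2, 3 => dB2q3
  | 3, 0 => dB3q0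
  | 3, 1 => dB3q1
  | 3, 2 => dB3q2
  | 3, 3 => dB3q3
  | 4, 0 => dB4q0
  | 4, 1 => dB4q1
  | 4, 2 => dB4q2
  | 4, 3 => dB4q3
  | 5, 0 => dB5q0
  | 5, 1 => dB5q1
  | 5, 2 => dB5q2
  | 5, 3 => dB5q3
  | _, _ => dB0q0

noncomputable def c0B : Fn1 := ⟨fun _ => pone, fun _ => 1, fun _ => enc_one _⟩

end Pool.Agent.Strip051.G.I9500_9625.Tab
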