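import Pool.Agent.Strip051.PB.MolZy
import Pool.Agent.Strip051.PB.MolRw
import Pool.Agent.Strip051.PB.MolX3
import Pool.Agent.Strip051.G.I9500_9625.Tab

/-! # The tight charts of a table: data (generated) -/

set_option linter.all false

namespace Pool.Agent.Strip051.G.I9500_9625.Tab.Mo

open Pool.Agent.Strip051.PB Pool.Agent.Strip051.PB.Mol
open Pool.Agent.Strip051.G.I9500_9625.Tab

noncomputable def dq : Fn3 :=
  dqQ (lnF false 10057029087979537 352428810000000 false 462927006572238587 8810720250000000 153 160) (lnF true 60911 2000 true 23 500 153 160)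

noncomputable def mL : Fn2 :=
  exQ (exC (lnF false 5253186313277 36735000000000 true 747735835133 1224500000000 153 160)) (lnF false 33547 10000 false 78111 1000 153 160) false

noncomputable def mR : Fn2 :=
  exQ (exC (lnF true 418775008729 489800000000 true 887585516977 1836750000000 153 160)) (lnF true 557 400 true 24247 500 153 160) true

noncomputable def kp : Fn2 :=
  plA (cnF false 0 1) (cnF false 0 1) false 1 2

noncomputable def kb : Fn2 :=
  plA (cnF false 0 1) (lnF true 510400 29387 true 1772000 29387 153 160) false 1 2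

noncomputable def rK1 : Fn2 :=
  exC (lnF true 2907 1010 false 175 101 153 160)

noncomputable def rX1 : Fn2 :=
  exC (lnF true 2692 1515 true 454 101 153 160)

noncomputable def rD1 : Fn2 :=
  tmF (exC (cnF false 0 1)) 0

noncomputable def sk1 : MolS :=
  stK 4 1 5 rK1 rX1 rD1

noncomputable def rK2 : Fn2 :=
  exC (lnF true 175 202 false 13341 101 153 160)

noncomputable def rX2 : Fn2 :=
  exC (lnF true 284 303 false 543 101 153 160)

noncomputable def rD2 : Fn2 :=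
  tmF (exC (lnF false 37439 1550 true 25316 155 153 160)) 0

noncomputable def sk2 : MolS :=
  stK 2 3 5 rK2 rX2 rD2

noncomputable def sp : MolS :=
  stP kcg mL mR kp

noncomputable def sm : MolS :=
  stM kcg mR kb

noncomputable def sK_Ap : Fn3 :=
  sl0 (slF (w3W false) cv2r (w3K false 2 kcg) kf2q3)

noncomputable def sX_Ap : Fn3 :=
  sl0 (slF (w3W false) cv2r (w3Q false kcg) l2q3)

noncomputable def sD_Ap : Fn3 :=
  sl0 (slF (w3W false) cv2r (w3D false 2 kcg) (tmF kc2q3 2))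

noncomputable def T_Ap : MolT :=
  ⟨kcg, dq, sp, 3, sK_Ap, sX_Ap, sD_Ap, 4, 1, 2473, 500⟩

noncomputable def sk_Ap : List Fn3 := [skP true 46137344, skM true 46137344, skW fY true 1041207446, skW fY false 1014686024, skW fYA true 1041207446, skW fYA false 1014686024]

noncomputable def cx_Ap : List Fn3 :=
  [f3A sp.xs (tCC (w3W false) cv2r),
    f3A sp.xs (tCC cv3r (w3W false)),
    f3A sp.xs (tCX cv3r)]

noncomputable def sk2_Ap : List Fn3 := sk_Ap ++ [fUp]

noncomputable def sk3_Ap : List Fn3 := sk_Ap ++ [fUm]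

noncomputable def c0_Ap : Cht := k0Ap (T_Ap.a true) sk_Ap cx_Ap

noncomputable def c2_Ap : Cht := kyAp (T_Ap.a true) sk2_Ap cx_Ap 1 4096

noncomputable def c3_Ap : Cht := kzAp (T_Ap.a true) (fkn 4 1) sk3_Ap cx_Ap

noncomputable def sK_Apk1 : Fn3 :=
  sl0 (slF (w3W false) cv2r (w3K false 2 kcg) kf2q3)

noncomputable def sX_Apk1 : Fn3 :=
  sl0 (slF (w3W false) cv2r (w3Q false kcg) l2q3)

noncomputable def sD_Apk1 : Fn3 :=
  sl0 (slF (w3W false) cv2r (w3D false 2 kcg) (tmF kc2q3 2))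

noncomputable def T_Apk1 : MolT :=
  ⟨kcg, dq, sk1, 3, sK_Apk1, sX_Apk1, sD_Apk1, 4, 1, 2473, 500⟩

noncomputable def sk_Apk1 : List Fn3 := [skP true 46137344, skM true 46137344, skW fY true 1041207446, skW fY false 1014686024, skW fYA true 1041207446, skW fYA false 1014686024]

noncomputable def cx_Apk1 : List Fn3 :=
  [f3A sk1.xs (tCC (w3W false) cv2r),
    f3A sk1.xs (tCC cv3r (w3W false)),
    f3A sk1.xs (tCX cv3r)]

noncomputable def sk2_Apk1 : List Fn3 := sk_Apk1 ++ [fUp]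

noncomputable def sk3_Apk1 : List Fn3 := sk_Apk1 ++ [fUm]

noncomputable def c0_Apk1 : Cht := k0Ap (T_Apk1.a true) sk_Apk1 cx_Apk1

noncomputable def c2_Apk1 : Cht := kyAp (T_Apk1.a true) sk2_Apk1 cx_Apk1 1 4096

noncomputable def c3_Apk1 : Cht := kzAp (T_Apk1.a true) (fkn 4 1) sk3_Apk1 cx_Apk1

noncomputable def sK_Apk2 : Fn3 :=
  sl0 (slF (w3W false) cv2r (w3K false 2 kcg) kf2q3)

noncomputable def sX_Apk2 : Fn3 :=
  sl0 (slF (w3W false) cv2r (w3Q false kcg) l2q3)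

noncomputable def sD_Apk2 : Fn3 :=
  sl0 (slF (w3W false) cv2r (w3D false 2 kcg) (tmF kc2q3 2))

noncomputable def T_Apk2 : MolT :=
  ⟨kcg, dq, sk2, 3, sK_Apk2, sX_Apk2, sD_Apk2, 4, 1, 2473, 500⟩

noncomputable def sk_Apk2 : List Fn3 := [skP true 46137344, skM true 46137344, skW fY true 1041207446, skW fY false 1014686024, skW fYA true 1041207446, skW fYA false 1014686024]

noncomputable def cx_Apk2 : List Fn3 :=
  [f3A sk2.xs (tCC (w3W false) cv2r),
    f3A sk2.xs (tCC cv3r (w3W false)),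
    f3A sk2.xs (tCX cv3r)]

noncomputable def sk2_Apk2 : List Fn3 := sk_Apk2 ++ [fUp]

noncomputable def sk3_Apk2 : List Fn3 := sk_Apk2 ++ [fUm]

noncomputable def c0_Apk2 : Cht := k0Ap (T_Apk2.a true) sk_Apk2 cx_Apk2

noncomputable def c2_Apk2 : Cht := kyAp (T_Apk2.a true) sk2_Apk2 cx_Apk2 1 4096

noncomputable def c3_Apk2 : Cht := kzAp (T_Apk2.a true) (fkn 4 1) sk3_Apk2 cx_Apk2

noncomputable def sK_Am : Fn3 :=
  sl0 (slF (w3W false) cv2r (w3K false 2 kcg) kf2q3)

noncomputable def sX_Am : Fn3 :=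
  sl0 (slF (w3W false) cv2r (w3Q false kcg) l2q3)

noncomputable def sD_Am : Fn3 :=
  sl0 (slF (w3W false) cv2r (w3D false 2 kcg) (tmF kc2q3 2))

noncomputable def T_Am : MolT :=
  ⟨kcg, dq, sm, 3, sK_Am, sX_Am, sD_Am, 4, 1, 2473, 500⟩

noncomputable def sk_Am : List Fn3 := [skP true 46137344, skM true 46137344, skW fY true 1041207446, skW fY false 1014686024, skW fYA true 1041207446, skW fYA false 1014686024]

noncomputable def cx_Am : List Fn3 :=
  [f3A sm.xs (tCC (w3W false) cv2r),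
    f3A sm.xs (tCC cv3r (w3W false)),
    f3A sm.xs (tXC cv2r)]

noncomputable def sk2_Am : List Fn3 := sk_Am ++ [fUp]

noncomputable def sk3_Am : List Fn3 := sk_Am ++ [fUm]

noncomputable def c0_Am : Cht := k0Am (T_Am.a false) sk_Am cx_Am

noncomputable def c2_Am : Cht := kyAm (T_Am.a false) sk2_Am cx_Am

noncomputable def c3_Am : Cht := kzAm (T_Am.a false) (fkn 4 1) sk3_Am cx_Am

noncomputable def sK_Bp : Fn3 :=
  sl0 (slF (w3W true) cv2m (w3K true 0 kcg) kf2q0)

noncomputable def sX_Bp : Fn3 :=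
  sl0 (slF (w3W true) cv2m (w3Q true kcg) l2q0)

noncomputable def sD_Bp : Fn3 :=
  sl0 (slF (w3W true) cv2m (w3D true 0 kcg) (tmF kc2q0 0))

noncomputable def T_Bp : MolT :=
  ⟨kcg, dq, sp, 0, sK_Bp, sX_Bp, sD_Bp, 4, 1, 2473, 500⟩

noncomputable def sk_Bp : List Fn3 := [skP false 46137344, skM false 46137344, skW fY true 1041207446, skW fY false 1014686024, skW fYB true 1041207446, skW fYB false 1014686024]

noncomputable def cx_Bp : List Fn3 :=
  [f3B sp.xs (tCC (w3W true) cv2m),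
    f3B sp.xs (tCC cv3m (w3W true)),
    f3B sp.xs (tXC cv2m)]

noncomputable def sk2_Bp : List Fn3 := sk_Bp ++ [fUp]

noncomputable def sk3_Bp : List Fn3 := sk_Bp ++ [fUm]

noncomputable def c0_Bp : Cht := k0Bp (T_Bp.b true) sk_Bp cx_Bp

noncomputable def c2_Bp : Cht := kyBp (T_Bp.b true) sk2_Bp cx_Bp

noncomputable def c3_Bp : Cht := kzBp (T_Bp.b true) (fkn 4 1) sk3_Bp cx_Bp

noncomputable def sK_Bpk1 : Fn3 :=
  sl0 (slF (w3W true) cv2m (w3K true 0 kcg) kf2q0)

noncomputable def sX_Bpk1 : Fn3 :=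
  sl0 (slF (w3W true) cv2m (w3Q true kcg) l2q0)

noncomputable def sD_Bpk1 : Fn3 :=
  sl0 (slF (w3W true) cv2m (w3D true 0 kcg) (tmF kc2q0 0))

noncomputable def T_Bpk1 : MolT :=
  ⟨kcg, dq, sk1, 0, sK_Bpk1, sX_Bpk1, sD_Bpk1, 4, 1, 2473, 500⟩

noncomputable def sk_Bpk1 : List Fn3 := [skP false 46137344, skM false 46137344, skW fY true 1041207446, skW fY false 1014686024, skW fYB true 1041207446, skW fYB false 1014686024]

noncomputable def cx_Bpk1 : List Fn3 :=
  [f3B sk1.xs (tCC (w3W true) cv2m),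
    f3B sk1.xs (tCC cv3m (w3W true)),
    f3B sk1.xs (tXC cv2m)]

noncomputable def sk2_Bpk1 : List Fn3 := sk_Bpk1 ++ [fUp]

noncomputable def sk3_Bpk1 : List Fn3 := sk_Bpk1 ++ [fUm]

noncomputable def c0_Bpk1 : Cht := k0Bp (T_Bpk1.b true) sk_Bpk1 cx_Bpk1

noncomputable def c2_Bpk1 : Cht := kyBp (T_Bpk1.b true) sk2_Bpk1 cx_Bpk1

noncomputable def c3_Bpk1 : Cht := kzBp (T_Bpk1.b true) (fkn 4 1) sk3_Bpk1 cx_Bpk1

noncomputable def sK_Bpk2 : Fn3 :=
  sl0 (slF (w3W true) cv2m (w3K true 0 kcg) kf2q0)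

noncomputable def sX_Bpk2 : Fn3 :=
  sl0 (slF (w3W true) cv2m (w3Q true kcg) l2q0)

noncomputable def sD_Bpk2 : Fn3 :=
  sl0 (slF (w3W true) cv2m (w3D true 0 kcg) (tmF kc2q0 0))

noncomputable def T_Bpk2 : MolT :=
  ⟨kcg, dq, sk2, 0, sK_Bpk2, sX_Bpk2, sD_Bpk2, 4, 1, 2473, 500⟩

noncomputable def sk_Bpk2 : List Fn3 := [skP false 46137344, skM false 46137344, skW fY true 1041207446, skW fY false 1014686024, skW fYB true 1041207446, skW fYB false 1014686024]

noncomputable def cx_Bpk2 : List Fn3 :=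
  [f3B sk2.xs (tCC (w3W true) cv2m),
    f3B sk2.xs (tCC cv3m (w3W true)),
    f3B sk2.xs (tXC cv2m)]

noncomputable def sk2_Bpk2 : List Fn3 := sk_Bpk2 ++ [fUp]

noncomputable def sk3_Bpk2 : List Fn3 := sk_Bpk2 ++ [fUm]

noncomputable def c0_Bpk2 : Cht := k0Bp (T_Bpk2.b true) sk_Bpk2 cx_Bpk2

noncomputable def c2_Bpk2 : Cht := kyBp (T_Bpk2.b true) sk2_Bpk2 cx_Bpk2

noncomputable def c3_Bpk2 : Cht := kzBp (T_Bpk2.b true) (fkn 4 1) sk3_Bpk2 cx_Bpk2

noncomputable def sK_Bm : Fn3 :=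
  sl0 (slF (w3W true) cv2m (w3K true 0 kcg) kf2q0)

noncomputable def sX_Bm : Fn3 :=
  sl0 (slF (w3W true) cv2m (w3Q true kcg) l2q0)

noncomputable def sD_Bm : Fn3 :=
  sl0 (slF (w3W true) cv2m (w3D true 0 kcg) (tmF kc2q0 0))

noncomputable def T_Bm : MolT :=
  ⟨kcg, dq, sm, 0, sK_Bm, sX_Bm, sD_Bm, 4, 1, 2473, 500⟩

noncomputable def sk_Bm : List Fn3 := [skP false 46137344, skM false 46137344, skW fY true 1041207446, skW fY false 1014686024, skW fYB true 1041207446, skW fYB false 1014686024]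

noncomputable def cx_Bm : List Fn3 :=
  [f3B sm.xs (tCC (w3W true) cv2m),
    f3B sm.xs (tCC cv3m (w3W true)),
    f3B sm.xs (tCX cv3m)]

noncomputable def sk2_Bm : List Fn3 := sk_Bm ++ [fUp]

noncomputable def sk3_Bm : List Fn3 := sk_Bm ++ [fUm]

noncomputable def c0_Bm : Cht := k0Bm (T_Bm.b false) sk_Bm cx_Bm

noncomputable def c2_Bm : Cht := kyBm (T_Bm.b false) sk2_Bm cx_Bm 1 4096

noncomputable def c3_Bm : Cht := kzBm (T_Bm.b false) (fkn 4 1) sk3_Bm cx_Bm

end Pool.Agent.Strip051.G.I9500_9625.Tab.Mo
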