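import Pool.Agent.Strip051.G.I9500_9625.StH
import Pool.Agent.Strip051.G.I9500_9625.Sp1D
import Pool.Agent.Strip051.G.I9500_9625.StF

/-! # Unit strips 1 (generated) -/

set_option linter.all false
set_option maxRecDepth 100000

namespace Pool.Agent.Strip051.G.I9500_9625.Tab.St.C

open Pool.Agent.Strip051.PB Pool.Agent.Strip051.PB.T Pool.Agent.StripNear Pool.Agent.Strip051.LC
open Pool.Agent.Strip051.G.I9500_9625.Tab Pool.Agent.Strip051.G.I9500_9625.Tab.St

def k288_A00pm_012_s1 : ∃ t, chk3 f_A00pm_012_s1 t 41 14 1 = true :=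
  ⟨(a (b (b (c (a (b (l 16607416) (l 16591104)) (b (l 16594560) (l 16536472))) (a (b (l 16567040) (l 16462432)) (b (l 16550608) (a (l 16534408) (l 16442568))))) (c (a (b (l 16531760) (a (b (l 16563424) (l 16553992)) (b (l 16557192) (l 16546784)))) (b (a (l 16522392) (b (l 16562608) (l 16552640))) (a (l 16544680) (l 16536992)))) (a (b (a (l 16528568) (l 16478680)) (a (b (l 16511392) (b (l 16503336) (l 16498704))) (b (l 16463016) (l 16496000)))) (b (a (b (l 16518480) (l 16508592)) (b (l 16512064) (l 16503424))) (a (l 16495560) (l 16490936)))))) (c (a (b (b (a (l 16537720) (l 16530448)) (l 16511368)) (l 16475184)) (b (b (l 16519040) (l 16496216)) (l 16459832))) (b (b (a (b (l 16489864) (l 16481216)) (l 16476056)) (a (l 16467872) (l 16458120))) (b (l 16444416) (l 16424976))))) (b (a (a (b (b (l 16478296) (c (l 16526856) (b (l 16524136) (l 16515424)))) (b (b (l 16447232) (l 16438080)) (l 16423928))) (c (b (b (l 16494408) (l 16519008)) (l 16530616)) (b (b (a (l 16532744) (l 16529600)) (a (l 16515816) (l 16513464)))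 (l 16406248)))) (a (b (b (a (b (l 16470232) (l 16545568)) (l 16461776)) (a (l 16532584) (l 16528440))) (c (l 16519928) (l 16485544))) (b (c (a (b (l 16559240) (l 16540456)) (l 16545376)) (l 16513568)) (c (a (b (l 16520728) (l 16505256)) (l 16505880)) (l 16480920))))) (a (b (b (a (l 16488184) (l 16481392)) (a (l 16467640) (l 16460784))) (c (l 16359232) (l 16419528))) (a (b (c (l 16392440) (l 16450280)) (c (a (l 16431704) (l 16425920)) (l 16411912))) (b (c (c (b (l 16440784) (l 16416936)) (l 16460816)) (l 16403488)) (c (a (a (a (l 16421608) (b (l 16347296) (l 16322408))) (l 16416576)) (l 16414752)) (b (l 16332944) (l 16312808)))))))), by decide +kernel⟩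

def k289_A00pm_012_s1 : ∃ t, chk3 f_A00pm_012_s1 t 21 14 1 = true :=
  ⟨(b (a (b (a (c (l 16536616) (l 16502776)) (l 16419912)) (a (c (l 16496496) (l 16469592)) (c (l 16480160) (l 16451872)))) (b (b (l 16406008) (l 16471248)) (c (l 16456688) (l 16426328)))) (a (b (a (c (l 16452360) (l 16433520)) (c (l 16434832) (l 16414912))) (a (b (l 16410512) (l 16345672)) (c (l 16385104) (l 16374768)))) (b (c (l 16409656) (l 16388080)) (c (l 16358064) (l 16346568))))), by decide +kernel⟩

def k290_A00pm_012_s1 : ∃ t, chk3 f_A00pm_012_s1 t 11 14 1 = true :=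
  ⟨(b (a (b (a (a (l 16374584) (l 16360384)) (c (l 16445648) (l 16401592))) (a (b (l 16421176) (l 16399864)) (l 16297648))) (b (a (c (l 16421256) (l 16374200)) (c (l 16398384) (l 16348408))) (a (l 16270360) (l 16244776)))) (a (b (a (l 16366064) (l 16335232)) (a (c (l 16323912) (l 16310856)) (l 16284680))) (b (a (l 16306352) (l 16279312)) (a (l 16254032) (l 16225368))))), by decide +kernel⟩

def k291_A00pm_012_s1 : ∃ t, chk3 f_A00pm_012_s1 t 5 30 1 = true :=
  ⟨(a (c (a (a (b (a (b (l 16487376) (l 16460608)) (b (l 16458704) (l 16431480))) (a (b (l 16432136) (l 16402064)) (b (l 16402552) (l 16372016)))) (a (b (b (l 16428560) (l 16401024)) (a (l 16322616) (l 16306808))) (a (a (b (l 16395072) (l 16336456)) (b (l 16386280) (l 16327720))) (a (b (a (l 16379152) (l 16373520)) (b (l 16249080) (l 16218360))) (b (a (a (a (l 16369376) (b (l 16338376) (l 16332040))) (l 16364592)) (l 16362624)) (a (a (a (l 16311344) (a (l 16309624) (b (l 16239464) (l 16209048)))) (l 16306848)) (l 16304736))))))) (b (a (a (a (l 16356120)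 (l 16345824)) (l 16330720)) (l 16217720)) (a (a (b (l 16307560) (l 16276608)) (l 16270360)) (a (l 16249216) (l 16228760))))) (a (a (b (a (b (l 16447360) (l 16427216)) (b (l 16425920) (l 16405152))) (a (b (l 16405712) (l 16382960)) (b (l 16382984) (l 16359552)))) (a (b (b (l 16404704) (l 16383336)) (b (l 16360560) (l 16336496))) (a (b (l 16378080) (l 16289784)) (b (a (l 16328136) (b (l 16333760) (l 16311656))) (a (a (l 16324712) (l 16321912)) (a (a (b (l 16290168) (l 16286344)) (l 16318384)) (l 16316304))))))) (a (b (b (l 16352552) (l 16329888)) (b (l 16305768) (l 16280320))) (b (l 16301464) (l 16251296))))) (a (b (a (c (l 16264872) (l 16263920)) (l 16229552)) (a (c (l 16199384) (l 16211848)) (c (l 16162352) (l 16174752)))) (b (a (l 16196968) (l 16166504)) (a (l 16133752) (l 16101312))))), by decide +kernel⟩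

def k292_A00pm_012_s1 : ∃ t, chk3 f_A00pm_012_s1 t 10 31 1 = true :=
  ⟨(a (a (b (b (a (c (a (l 16377704) (l 16278680)) (a (l 16280840) (l 16268688))) (c (l 16339608) (l 16334560))) (a (c (l 16340064) (l 16331160)) (c (l 16303864) (l 16306336)))) (a (b (c (l 16299960) (l 16304704)) (c (l 16268224) (l 16282328))) (b (c (l 16268552) (l 16279128)) (c (l 16236368) (l 16255984))))) (a (c (b (b (b (l 16233016) (l 16215840)) (b (l 16197632) (l 16179232))) (b (b (l 16161464) (l 16144472)) (l 16204328))) (b (b (l 16310848) (l 16281952)) (b (l 16254040) (l 16230176)))) (b (a (b (c (l 16283696) (l 16209392)) (c (l 16247688) (l 16263912))) (a (b (c (l 16248744) (l 16200664)) (c (l 16212952) (l 16254960))) (b (a (a (a (l 16272336) (c (a (l 16262016) (l 16218792)) (l 16238592))) (a (l 16269672) (l 16268936))) (l 16267104)) (a (a (a (l 16239672) (c (a (l 16226496) (l 16141416)) (l 16250856))) (l 16194768)) (l 16192496))))) (a (b (c (l 16212160) (l 16235520)) (c (l 16179808) (l 16211152))) (a (b (c (l 16114744) (l 16226336))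 (a (l 16186032) (l 16182064))) (b (a (a (a (l 16207744) (c (a (l 16191504) (l 16106528)) (l 16138248))) (l 16204872)) (l 16202528)) (c (c (b (l 16114464) (l 16056496)) (l 16124936)) (l 16195496)))))))) (c (b (a (b (a (l 16243864) (l 16220776)) (a (l 16207864) (l 16183904))) (b (l 16187536) (l 16149392))) (a (b (a (l 16172376) (l 16147520)) (l 16148144)) (b (l 16111680) (l 16077112)))) (a (b (b (a (l 16264456) (l 16242104)) (a (l 16234368) (l 16211464))) (b (l 16214432) (l 16168040))) (b (b (l 16209824) (l 16178384)) (b (l 16147856) (l 16121296)))))), by decide +kernel⟩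

def k293_A00pm_012_s1 : ∃ t, chk3 f_A00pm_012_s1 t 11 31 1 = true :=
  ⟨(a (b (a (b (l 16157120) (l 16037072)) (b (l 16118240) (l 16080816))) (a (b (l 16001544) (l 15969528)) (c (l 16004560) (l 16049504)))) (b (c (a (l 16047896) (l 16013040)) (a (l 16076464) (l 16042152))) (a (c (l 15964152) (l 16010984)) (l 15866488)))), by decide +kernel⟩

def k294_A00pm_012_s1 : ∃ t, chk3 f_A00pm_012_s1 t 3 1 1 = true :=
  ⟨(a (b (b (l 2) (a (b (l 2) (b (l 2) (a (b (l 2) (l 16566904)) (l 2)))) (l 2))) (a (b (b (b (a (b (l 16553424) (l 16537320)) (b (l 2) (l 16496192))) (a (a (l 16434416) (l 16497656)) (b (l 16477968) (l 16456744)))) (b (a (b (l 16388664) (l 16361280)) (a (l 16344800) (l 16325352))) (a (b (a (l 16425224) (l 16404088)) (a (b (l 16400408) (l 16382384)) (l 16243984))) (b (l 16290256) (a (l 16265600) (l 16330056)))))) (b (b (a (b (a (l 16224992) (l 16245432)) (a (l 16304680) (l 16282192))) (b (a (b (l 16320432) (l 16297512)) (b (l 16301232) (l 16278224))) (a (l 16261096) (l 6)))) (a (b (a (l 16254024) (l 16230376))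 (a (l 16198600) (l 16173616))) (b (a (l 16208272) (l 6)) (l 6)))) (b (a (b (a (l 16138072) (l 16111576)) (c (l 16051496) (l 16062520))) (l 6)) (l 6)))) (a (b (b (b (l 2) (b (l 2) (l 16418056))) (a (b (l 16390296) (a (l 16249432) (l 6))) (l 6))) (l 6)) (b (l 6) (l 6))))) (b (l 2) (l 6))), by decide +kernel⟩

end Pool.Agent.Strip051.G.I9500_9625.Tab.St.C
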