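import Pool.Agent.Strip051.G.I9500_9625.StH
import Pool.Agent.Strip051.G.I9500_9625.StF

/-! # Unit strips 5 (generated) -/

set_option linter.all false
set_option maxRecDepth 100000

namespace Pool.Agent.Strip051.G.I9500_9625.Tab.St.C

open Pool.Agent.Strip051.PB Pool.Agent.Strip051.PB.T Pool.Agent.StripNear Pool.Agent.Strip051.LC
open Pool.Agent.Strip051.G.I9500_9625.Tab Pool.Agent.Strip051.G.I9500_9625.Tab.St

noncomputable def cut_A00pm_123_s3 : Cut := Cut.of [[⟨3, 0, 0, 3194381926⟩], [⟨0, 1, 0, 26738688⟩, ⟨1, 1, 0, 26738688⟩, ⟨2, 2, 0, 2621440⟩], [⟨0, 0, 1, 46137344⟩, ⟨1, 1, 0, 2097152⟩, ⟨2, 1, 1, 46137344⟩, ⟨0, 0, 0, 1041207446⟩, ⟨0, 1, 0, 59055800⟩, ⟨2, 1, 0, 1041207446⟩, ⟨2, 2, 0, 59055800⟩], [⟨0, 1, 0, 2097152⟩, ⟨1, 0, 1, 46137344⟩, ⟨2, 1, 1, 46137344⟩, ⟨1, 0, 0, 1041207446⟩, ⟨1, 1, 0, 59055800⟩, ⟨2, 1, 0, 1041207446⟩, ⟨2, 2, 0,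 59055800⟩]]

noncomputable def xt_A00pm_123_s3 : Ext := strExt dd true true false .u0 .u2 .s2 .npn 1 2 3 rfl rfl gl3 vv ndB0q1 ndB0q2

noncomputable def f_A00pm_123_s3 : ℕ → ℕ → ℕ → ℕ → Bool := onCell 1610612736 536870912 0 536870912 1020054732 13421774
    (rowF 2 true true false .npn 1 2 3 (qsf 536870912 536870912 0 536870912 3) ndB0q1 ndB0q2 pcB3 cut_A00pm_123_s3 xt_A00pm_123_s3)

end Pool.Agent.Strip051.G.I9500_9625.Tab.St.C
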