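import Pool.Agent.Strip051.G.I9500_9625.StH
import Pool.Agent.Strip051.G.I9500_9625.StF

/-! # Unit strips 0 (generated) -/

set_option linter.all false
set_option maxRecDepth 100000

namespace Pool.Agent.Strip051.G.I9500_9625.Tab.St.C

open Pool.Agent.Strip051.PB Pool.Agent.Strip051.PB.T Pool.Agent.StripNear Pool.Agent.Strip051.LC
open Pool.Agent.Strip051.G.I9500_9625.Tab Pool.Agent.Strip051.G.I9500_9625.Tab.St

noncomputable def cut_A00pp_001_s1 : Cut := Cut.of [[⟨4, 0, 0, 1449551462⟩]]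

noncomputable def f_A00pp_001_s1 : ℕ → ℕ → ℕ → ℕ → Bool := onCell 0 536870912 0 536870912 1020054732 13421774
    (rowF 0 true true true .up 0 0 1 (qsf 0 536870912 0 536870912 1) ndB0q0 ndB0q0 pcB1 cut_A00pp_001_s1 Ext.none)

def k0_A00pp_001_s1 : ∃ t, chk3 f_A00pp_001_s1 t 1 1 1 = true :=
  ⟨(l 4), by decide +kernel⟩

theorem c_A00pp_001_s1 : CertF 0 536870912 0 536870912 1020054732 13421774 true true true .up 0 0 1
    ndB0q0 ndB0q0 pcB1 cut_A00pp_001_s1 Ext.none :=
  certF0 (fam := true) (s1 := true) (s2 := true) (a := 0) (b := 0) (c := 1) (cn := .up) (n1 := ndB0q0) (n2 := ndB0q0) (pc := pcB1) (cut := cut_A00pp_001_s1) (xt := Ext.none) (P1 := 0) (W1 := 536870912) (P2 := 0) (W2 := 536870912) (P3 := 1020054732) (W3 := 13421774)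
    rfl k0_A00pp_001_s1

theorem s_A00pp_001_s1 {κ x : ℝ} (hκ : κ * h0 = ken x) (hx : ((1020054732 : ℕ) : ℝ) / S ≤ x)
    (hx' : x ≤ (((1020054732 : ℕ) : ℝ) + (13421774 : ℕ)) / S) :
    AltA (VFD κ) PP tK tL pcB [⟨3, 0, 0, 1449551462⟩] 0 0 1 0 0 (sgb true) (sgb true) x :=
  strip_altAD (m := 1449551462) true rfl hκ (SH.κ0 hκ (SH.hx1 hx).le (SH.hx2 hx').le) (SH.hx1 hx).le (SH.hx2 hx') (covB00).cov (covB00).cov hx hx' c_A00pp_001_s1 cutA_nil (noExt_A)

noncomputable def cut_A00pp_001_s3 : Cut := Cut.of [[⟨3, 0, 0, 2845415833⟩]]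

noncomputable def f_A00pp_001_s3 : ℕ → ℕ → ℕ → ℕ → Bool := onCell 0 536870912 0 536870912 1020054732 13421774
    (rowF 0 true true true .up 0 0 1 (qsf 0 536870912 0 536870912 1) ndB0q0 ndB0q0 pcB1 cut_A00pp_001_s3 Ext.none)

def k0_A00pp_001_s3 : ∃ t, chk3 f_A00pp_001_s3 t 1 1 1 = true :=
  ⟨(l 4), by decide +kernel⟩

theorem c_A00pp_001_s3 : CertF 0 536870912 0 536870912 1020054732 13421774 true true true .up 0 0 1
    ndB0q0 ndB0q0 pcB1 cut_A00pp_001_s3 Ext.none :=
  certF0 (fam := true) (s1 := true) (s2 := true) (a := 0) (b := 0) (c := 1) (cn := .up) (n1 := ndB0q0) (n2 := ndB0q0) (pc := pcB1) (cut := cut_A00pp_001_s3) (xt := Ext.none) (P1 := 0) (W1 := 536870912) (P2 := 0) (W2 := 536870912) (P3 := 1020054732) (W3 := 13421774)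
    rfl k0_A00pp_001_s3

theorem s_A00pp_001_s3 {κ x : ℝ} (hκ : κ * h0 = ken x) (hx : ((1020054732 : ℕ) : ℝ) / S ≤ x)
    (hx' : x ≤ (((1020054732 : ℕ) : ℝ) + (13421774 : ℕ)) / S) :
    AltA (VFD κ) PP tK tL pcB [⟨4, 0, 0, 2845415833⟩] 0 0 1 0 0 (sgb true) (sgb true) x :=
  strip_altAD (m := 2845415833) false rfl hκ (SH.κ0 hκ (SH.hx1 hx).le (SH.hx2 hx').le) (SH.hx1 hx).le (SH.hx2 hx') (covB00).cov (covB00).cov hx hx' c_A00pp_001_s3 cutA_nil (noExt_A)

noncomputable def cut_A00pp_011_s1 : Cut := Cut.of [[⟨4, 0, 0, 1449551462⟩], [⟨0, 0, 0, 38347922⟩, ⟨1, 1, 0, 38347922⟩, ⟨2, 1, 0, 38347922⟩]]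

noncomputable def f_A00pp_011_s1 : ℕ → ℕ → ℕ → ℕ → Bool := onCell 0 536870912 536870912 536870912 1020054732 13421774
    (rowF 0 true true true .pnn 0 1 1 (qsf 0 536870912 536870912 536870912 1) ndB0q0 ndB0q1 pcB1 cut_A00pp_011_s1 Ext.none)

def k0_A00pp_011_s1 : ∃ t, chk3 f_A00pp_011_s1 t 1 1 1 = true :=
  ⟨(l 6), by decide +kernel⟩

theorem c_A00pp_011_s1 : CertF 0 536870912 536870912 536870912 1020054732 13421774 true true true .pnn 0 1 1
    ndB0q0 ndB0q1 pcB1 cut_A00pp_011_s1 Ext.none :=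
  certF0 (fam := true) (s1 := true) (s2 := true) (a := 0) (b := 1) (c := 1) (cn := .pnn) (n1 := ndB0q0) (n2 := ndB0q1) (pc := pcB1) (cut := cut_A00pp_011_s1) (xt := Ext.none) (P1 := 0) (W1 := 536870912) (P2 := 536870912) (W2 := 536870912) (P3 := 1020054732) (W3 := 13421774)
    rfl k0_A00pp_011_s1

theorem s_A00pp_011_s1 {κ x : ℝ} (hκ : κ * h0 = ken x) (hx : ((1020054732 : ℕ) : ℝ) / S ≤ x)
    (hx' : x ≤ (((1020054732 : ℕ) : ℝ) + (13421774 : ℕ)) / S)
    (H : CutA (VFD κ) PP tK tL pcB (Cut.of [[⟨0, 0, 0, 38347922⟩, ⟨1, 1, 0, 38347922⟩, ⟨2, 1, 0, 38347922⟩]]) 0 1 1 0 0 (sgb true) (sgb true) x) :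
    AltA (VFD κ) PP tK tL pcB [⟨3, 0, 0, 1449551462⟩] 0 1 1 0 0 (sgb true) (sgb true) x :=
  strip_altAD (m := 1449551462) true rfl hκ (SH.κ0 hκ (SH.hx1 hx).le (SH.hx2 hx').le) (SH.hx1 hx).le (SH.hx2 hx') (covB00).cov (covB01).cov hx hx' c_A00pp_011_s1 H (noExt_A)

noncomputable def cut_A00pp_011_s3 : Cut := Cut.of [[⟨3, 0, 0, 2845415833⟩], [⟨0, 0, 0, 38347922⟩, ⟨1, 1, 0, 38347922⟩, ⟨2, 1, 0, 38347922⟩]]

noncomputable def f_A00pp_011_s3 : ℕ → ℕ → ℕ → ℕ → Bool := onCell 0 536870912 536870912 536870912 1020054732 13421774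
    (rowF 0 true true true .pnn 0 1 1 (qsf 0 536870912 536870912 536870912 1) ndB0q0 ndB0q1 pcB1 cut_A00pp_011_s3 Ext.none)

def k0_A00pp_011_s3 : ∃ t, chk3 f_A00pp_011_s3 t 1 1 1 = true :=
  ⟨(b (l 4) (a (b (l 4) (a (b (l 4) (a (a (b (l 4) (l 14)) (l 4)) (l 4))) (l 4))) (l 4))), by decide +kernel⟩

theorem c_A00pp_011_s3 : CertF 0 536870912 536870912 536870912 1020054732 13421774 true true true .pnn 0 1 1
    ndB0q0 ndB0q1 pcB1 cut_A00pp_011_s3 Ext.none :=
  certF0 (fam := true) (s1 := true) (s2 := true) (a := 0) (b := 1) (c := 1) (cn := .pnn) (n1 := ndB0q0) (n2 := ndB0q1) (pc := pcB1) (cut := cut_A00pp_011_s3) (xt := Ext.none) (P1 := 0) (W1 := 536870912) (P2 := 536870912) (W2 := 536870912) (P3 := 1020054732) (W3 := 13421774)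
    rfl k0_A00pp_011_s3

theorem s_A00pp_011_s3 {κ x : ℝ} (hκ : κ * h0 = ken x) (hx : ((1020054732 : ℕ) : ℝ) / S ≤ x)
    (hx' : x ≤ (((1020054732 : ℕ) : ℝ) + (13421774 : ℕ)) / S)
    (H : CutA (VFD κ) PP tK tL pcB (Cut.of [[⟨0, 0, 0, 38347922⟩, ⟨1, 1, 0, 38347922⟩, ⟨2, 1, 0, 38347922⟩]]) 0 1 1 0 0 (sgb true) (sgb true) x) :
    AltA (VFD κ) PP tK tL pcB [⟨4, 0, 0, 2845415833⟩] 0 1 1 0 0 (sgb true) (sgb true) x :=
  strip_altAD (m := 2845415833) false rfl hκ (SH.κ0 hκ (SH.hx1 hx).le (SH.hx2 hx').le) (SH.hx1 hx).le (SH.hx2 hx') (covB00).cov (covB01).cov hx hx' c_A00pp_011_s3 H (noExt_A)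

noncomputable def cut_A00pp_012_s1 : Cut := Cut.of [[⟨4, 0, 0, 1449551462⟩], [⟨0, 0, 0, 38347922⟩, ⟨1, 1, 0, 38347922⟩, ⟨2, 1, 0, 38347922⟩]]

noncomputable def f_A00pp_012_s1 : ℕ → ℕ → ℕ → ℕ → Bool := onCell 0 536870912 536870912 536870912 1020054732 13421774
    (rowF 0 true true true .pnp 0 1 2 (qsf 0 536870912 536870912 536870912 2) ndB0q0 ndB0q1 pcB2 cut_A00pp_012_s1 Ext.none)

def k0_A00pp_012_s1 : ∃ t, chk3 f_A00pp_012_s1 t 1 1 1 = true :=
  ⟨(l 6), by decide +kernel⟩

theorem c_A00pp_012_s1 : CertF 0 536870912 536870912 536870912 1020054732 13421774 true true true .pnp 0 1 2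
    ndB0q0 ndB0q1 pcB2 cut_A00pp_012_s1 Ext.none :=
  certF0 (fam := true) (s1 := true) (s2 := true) (a := 0) (b := 1) (c := 2) (cn := .pnp) (n1 := ndB0q0) (n2 := ndB0q1) (pc := pcB2) (cut := cut_A00pp_012_s1) (xt := Ext.none) (P1 := 0) (W1 := 536870912) (P2 := 536870912) (W2 := 536870912) (P3 := 1020054732) (W3 := 13421774)
    rfl k0_A00pp_012_s1

theorem s_A00pp_012_s1 {κ x : ℝ} (hκ : κ * h0 = ken x) (hx : ((1020054732 : ℕ) : ℝ) / S ≤ x)
    (hx' : x ≤ (((1020054732 : ℕ) : ℝ) + (13421774 : ℕ)) / S)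
    (H : CutA (VFD κ) PP tK tL pcB (Cut.of [[⟨0, 0, 0, 38347922⟩, ⟨1, 1, 0, 38347922⟩, ⟨2, 1, 0, 38347922⟩]]) 0 1 2 0 0 (sgb true) (sgb true) x) :
    AltA (VFD κ) PP tK tL pcB [⟨3, 0, 0, 1449551462⟩] 0 1 2 0 0 (sgb true) (sgb true) x :=
  strip_altAD (m := 1449551462) true rfl hκ (SH.κ0 hκ (SH.hx1 hx).le (SH.hx2 hx').le) (SH.hx1 hx).le (SH.hx2 hx') (covB00).cov (covB01).cov hx hx' c_A00pp_012_s1 H (noExt_A)

noncomputable def cut_A00pp_012_s3 : Cut := Cut.of [[⟨3, 0, 0, 2845415833⟩], [⟨0, 0, 0, 38347922⟩, ⟨1, 1, 0, 38347922⟩, ⟨2, 1, 0, 38347922⟩]]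

noncomputable def f_A00pp_012_s3 : ℕ → ℕ → ℕ → ℕ → Bool := onCell 0 536870912 536870912 536870912 1020054732 13421774
    (rowF 0 true true true .pnp 0 1 2 (qsf 0 536870912 536870912 536870912 2) ndB0q0 ndB0q1 pcB2 cut_A00pp_012_s3 Ext.none)

def k0_A00pp_012_s3 : ∃ t, chk3 f_A00pp_012_s3 t 1 1 1 = true :=
  ⟨(b (l 4) (a (b (l 4) (a (b (l 4) (a (b (l 4) (a (l 14) (l 4))) (l 4))) (l 4))) (l 4))), by decide +kernel⟩

theorem c_A00pp_012_s3 : CertF 0 536870912 536870912 536870912 1020054732 13421774 true true true .pnp 0 1 2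
    ndB0q0 ndB0q1 pcB2 cut_A00pp_012_s3 Ext.none :=
  certF0 (fam := true) (s1 := true) (s2 := true) (a := 0) (b := 1) (c := 2) (cn := .pnp) (n1 := ndB0q0) (n2 := ndB0q1) (pc := pcB2) (cut := cut_A00pp_012_s3) (xt := Ext.none) (P1 := 0) (W1 := 536870912) (P2 := 536870912) (W2 := 536870912) (P3 := 1020054732) (W3 := 13421774)
    rfl k0_A00pp_012_s3

theorem s_A00pp_012_s3 {κ x : ℝ} (hκ : κ * h0 = ken x) (hx : ((1020054732 : ℕ) : ℝ) / S ≤ x)
    (hx' : x ≤ (((1020054732 : ℕ) : ℝ) + (13421774 : ℕ)) / S)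
    (H : CutA (VFD κ) PP tK tL pcB (Cut.of [[⟨0, 0, 0, 38347922⟩, ⟨1, 1, 0, 38347922⟩, ⟨2, 1, 0, 38347922⟩]]) 0 1 2 0 0 (sgb true) (sgb true) x) :
    AltA (VFD κ) PP tK tL pcB [⟨4, 0, 0, 2845415833⟩] 0 1 2 0 0 (sgb true) (sgb true) x :=
  strip_altAD (m := 2845415833) false rfl hκ (SH.κ0 hκ (SH.hx1 hx).le (SH.hx2 hx').le) (SH.hx1 hx).le (SH.hx2 hx') (covB00).cov (covB01).cov hx hx' c_A00pp_012_s3 H (noExt_A)

noncomputable def cut_A00pp_022_s1 : Cut := Cut.of [[⟨4, 0, 0, 1449551462⟩], [⟨0, 0, 0, 26843545⟩, ⟨1, 1, 0, 26843545⟩, ⟨2, 1, 0, 26843545⟩]]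

noncomputable def f_A00pp_022_s1 : ℕ → ℕ → ℕ → ℕ → Bool := onCell 0 536870912 0 536870912 1020054732 13421774
    (rowF 0 true true true .pp 0 2 2 (qsf 0 536870912 0 536870912 2) ndB0q0 ndB0q2 pcB2 cut_A00pp_022_s1 Ext.none)

def k0_A00pp_022_s1 : ∃ t, chk3 f_A00pp_022_s1 t 1 1 1 = true :=
  ⟨(l 6), by decide +kernel⟩

theorem c_A00pp_022_s1 : CertF 0 536870912 0 536870912 1020054732 13421774 true true true .pp 0 2 2
    ndB0q0 ndB0q2 pcB2 cut_A00pp_022_s1 Ext.none :=
  certF0 (fam := true) (s1 := true) (s2 := true) (a := 0) (b := 2) (c := 2) (cn := .pp) (n1 := ndB0q0) (n2 := ndB0q2) (pc := pcB2) (cut := cut_A00pp_022_s1) (xt := Ext.none) (P1 := 0) (W1 := 536870912) (P2 := 0) (W2 := 536870912) (P3 := 1020054732) (W3 := 13421774)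
    rfl k0_A00pp_022_s1

theorem s_A00pp_022_s1 {κ x : ℝ} (hκ : κ * h0 = ken x) (hx : ((1020054732 : ℕ) : ℝ) / S ≤ x)
    (hx' : x ≤ (((1020054732 : ℕ) : ℝ) + (13421774 : ℕ)) / S)
    (H : CutA (VFD κ) PP tK tL pcB (Cut.of [[⟨0, 0, 0, 26843545⟩, ⟨1, 1, 0, 26843545⟩, ⟨2, 1, 0, 26843545⟩]]) 0 2 2 0 0 (sgb true) (sgb true) x) :
    AltA (VFD κ) PP tK tL pcB [⟨3, 0, 0, 1449551462⟩] 0 2 2 0 0 (sgb true) (sgb true) x :=
  strip_altAD (m := 1449551462) true rfl hκ (SH.κ0 hκ (SH.hx1 hx).le (SH.hx2 hx').le) (SH.hx1 hx).le (SH.hx2 hx') (covB00).cov (covB02).cov hx hx' c_A00pp_022_s1 H (noExt_A)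

noncomputable def cut_A00pp_022_s3 : Cut := Cut.of [[⟨3, 0, 0, 2845415833⟩], [⟨0, 0, 0, 26843545⟩, ⟨1, 1, 0, 26843545⟩, ⟨2, 1, 0, 26843545⟩]]

noncomputable def xt_A00pp_022_s3 : Ext := strExt dd true true true .u0 .u2 .s2 .pp 0 2 2 rfl rfl gl2 vv ndB0q0 ndB0q2

noncomputable def f_A00pp_022_s3 : ℕ → ℕ → ℕ → ℕ → Bool := onCell 0 536870912 0 536870912 1020054732 13421774
    (rowF 0 true true true .pp 0 2 2 (qsf 0 536870912 0 536870912 2) ndB0q0 ndB0q2 pcB2 cut_A00pp_022_s3 xt_A00pp_022_s3)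

def k0_A00pp_022_s3 : ∃ t, chk3 f_A00pp_022_s3 t 2 2 1 = true :=
  ⟨(a (b (l 6) (a (l 6) (b (l 6) (b (l 6) (a (a (l 6) (l 15995088)) (a (l 15989320) (l 15994120))))))) (b (a (l 6) (b (l 6) (a (l 6) (b (l 6) (a (l 6) (l 15513232)))))) (a (b (a (l 6) (b (l 6) (a (l 15685008) (l 15715616)))) (a (b (a (l 15832856) (l 15850824)) (a (a (l 16003976) (l 16013440)) (b (l 15987280) (l 16075992)))) (b (a (l 15919696) (l 15976024)) (a (b (l 16017976) (l 16109120)) (b (l 16056784) (l 16171120)))))) (b (a (b (a (l 15546248) (l 15588992)) (a (l 15754600) (a (l 15788976) (l 15814280)))) (b (a (l 15691992) (a (l 15682248) (l 15712920))) (a (b (l 15802464) (l 15908792)) (b (l 15862768) (l 15970616))))) (a (a (b (b (l 15906736) (l 16005888)) (a (l 519088655) (l 518737167))) (b (b (l 15956528) (l 16057560)) (a (l 518395663) (l 518063375)))) (b (a (a (l 517370127) (l 517062415)) (a (l 516764687) (l 516476687))) (a (a (l 517741327) (l 517428751)) (a (l 517125903) (l 516833039))))))))),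 by decide +kernel⟩

def k1_A00pp_022_s3 : ∃ t, chk3 f_A00pp_022_s3 t 8 12 1 = true :=
  ⟨(a (b (l 6) (b (l 6) (a (l 16351888) (l 16397624)))) (b (a (l 6) (b (l 6) (l 16209608))) (a (b (l 16304288) (l 16362904)) (b (l 16274128) (l 16336344))))), by decide +kernel⟩

def k2_A00pp_022_s3 : ∃ t, chk3 f_A00pp_022_s3 t 8 26 1 = true :=
  ⟨(a (a (b (b (l 16471992) (l 16411504)) (a (b (l 16526344) (l 16464048)) (l 16437624))) (b (a (l 16458040) (l 16441872)) (a (l 16422696) (l 16408528)))) (a (b (a (l 16426384) (l 16412064)) (a (l 16436920) (l 16424496))) (a (b (l 16400416) (l 16456664)) (b (l 16392664) (l 16450720))))), by decide +kernel⟩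

def k3_A00pp_022_s3 : ∃ t, chk3 f_A00pp_022_s3 t 8 54 1 = true :=
  ⟨(c (b (c (a (a (a (l 16561072) (l 16547768)) (l 16529352)) (a (l 16507472) (l 16493088))) (b (a (a (l 16470072) (l 16527080)) (a (l 16503304) (l 16487160))) (c (a (a (l 16479272) (l 16537656)) (a (l 16515184) (l 16500280))) (b (a (a (l 16562952) (l 16536568)) (a (l 16513152) (l 16497368))) (a (a (l 16568104) (l 16542248)) (a (l 16519304) (l 16420096))))))) (c (a (a (a (l 16580984) (l 16568968)) (a (l 16557328) (l 16546600))) (a (a (l 16536504) (l 16527496)) (a (l 16521008) (l 16518144)))) (b (c (a (a (l 16489480) (l 16548912)) (a (l 16527384) (l 16513392))) (b (a (a (l 16573208) (l 16547880)) (a (l 16525416) (l 16426664))) (c (c (a (a (l 16577368) (l 16552800)) (a (l 16531064) (l 16433016))) (a (a (l 16577960) (l 16553240)) (a (l 16531336) (l 16433128)))) (a (a (l 16494968) (l 16553912)) (a (l 16531736) (l 16433296)))))) (c (a (a (l 16541440) (l 16559976)) (a (l 16539384) (l 16526296))) (b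 (c (a (a (l 16498784) (l 16558552)) (a (l 16537208) (l 16439536))) (a (a (l 16499968) (l 16559440)) (a (l 16537744) (l 16439760)))) (c (b (a (a (l 16502504) (l 16562672)) (a (l 16541672) (l 16444352))) (a (a (l 16504960) (l 16565400)) (a (l 16544640) (l 16447544)))) (a (a (l 16504912) (l 16564920)) (a (l 16543704) (l 16446176))))))))) (b (a (a (a (l 16573744) (l 16558984)) (l 16496240)) (a (a (l 16518768) (l 16507000)) (a (l 16497952) (l 16492888)))) (c (a (a (a (l 16590984) (l 16577896)) (a (l 16565032) (l 16553008))) (a (a (l 16541512) (l 16531064)) (a (l 16523280) (l 16519416)))) (a (a (a (l 16596104) (l 16582472)) (a (l 16568984) (l 16556304))) (a (a (l 16544088) (l 16532904)) (a (l 16524472) (l 16520096))))))), by decide +kernel⟩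

def k4_A00pp_022_s3 : ∃ t, chk3 f_A00pp_022_s3 t 8 55 1 = true :=
  ⟨(c (c (a (a (a (b (l 16516160) (l 16597064)) (b (l 16589144) (l 16587544))) (a (b (l 16578584) (l 16599032)) (b (l 16568800) (l 16590184)))) (a (a (b (l 16559616) (l 16581920)) (b (l 16551504) (l 16574696))) (a (b (l 16545912) (l 16569984)) (b (l 16543944) (l 16568912))))) (b (b (c (a (a (a (l 16599048) (l 16587432)) (l 16570840)) (a (l 16530208) (l 16539000))) (b (a (a (l 16551152) (l 16569904)) (a (l 16549328) (l 16494368))) (c (a (a (l 16555392) (l 16574840)) (a (l 16554912) (l 16500552))) (c (a (a (l 16556272) (l 16575504)) (a (l 16555320) (l 16500728))) (c (a (a (l 16556712) (l 16575840)) (a (l 16555520) (l 16500824))) (a (a (l 16557008) (l 16576064)) (a (l 16555664) (l 16500880)))))))) (c (a (a (a (l 16608264) (l 16597320)) (a (l 16586600) (l 16576592))) (a (a (l 16567136) (l 16558736)) (a (l 16552896) (l 16550800)))) (a (a (a (l 16610704) (l 16599520)) (a (l 16588512) (l 16578192)))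 (a (a (l 16568400) (l 16559648)) (a (l 16553504) (l 16551168)))))) (a (a (a (l 16580840) (l 16570864)) (a (l 16602784) (l 16593336))) (a (a (l 16584416) (l 16576520)) (a (l 16571208) (l 16569672)))))) (b (a (a (a (l 16570440) (l 16558272)) (a (l 16588200) (l 16576848))) (a (a (l 16565960) (l 16556096)) (a (l 16548928) (l 16545760)))) (a (a (b (a (l 16541840) (l 16530800)) (a (l 16585752) (l 16582056))) (a (l 16587544) (l 16556216))) (a (a (a (l 16590752) (l 16585952)) (l 16558352)) (a (a (l 16574320) (l 16572136)) (a (l 16571040) (l 16570952))))))), by decide +kernel⟩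

def k5_A00pp_022_s3 : ∃ t, chk3 f_A00pp_022_s3 t 9 6 1 = true :=
  ⟨(a (b (b (a (l 16155528) (b (l 16108408) (l 16181688))) (a (b (l 16258056) (l 16323744)) (b (l 16252888) (l 16321824)))) (a (b (a (b (l 16388272) (l 16448080)) (b (l 16386392) (l 16447824))) (a (b (b (l 16491016) (l 16518688)) (a (b (l 16545216) (l 16576208)) (b (l 16546032) (l 16577488)))) (b (b (l 16492024) (l 16520568)) (b (a (l 16547400) (l 16549344)) (b (l 16568536) (a (l 16580600) (l 16583088))))))) (b (a (b (l 16387040) (l 16450080)) (b (l 16390232) (l 16475808))) (a (b (b (l 16495488) (l 16524816)) (a (b (l 16551872) (c (l 16579464) (l 16579344))) (b (l 16555008) (c (l 16583112) (l 16582752))))) (b (b (l 16501416) (l 16531528)) (a (b (l 16558760) (c (l 16587352) (l 16586800))) (b (l 16563112) (c (l 16592184) (l 16591456))))))))) (b (b (a (a (l 16144816) (l 16147792)) (b (l 16116864) (l 16196248))) (a (b (l 16258232) (l 16330248)) (b (l 16273472) (a (l 16343024) (l 16354296))))) (b (a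 (a (b (l 16395968) (b (l 16445824) (l 16478184))) (b (l 16404208) (b (l 16455184) (l 16488288)))) (b (a (l 16414744) (l 16427424)) (a (b (l 16466808) (l 16500640)) (b (l 16480536) (l 16515064))))) (a (b (a (b (l 16509824) (c (l 16541496) (l 16539912))) (b (l 16520672) (l 525475343))) (a (c (b (l 16576656) (b (l 16593336) (l 16607696))) (a (l 526338063) (l 526076687))) (b (a (l 16585088) (l 525792271)) (a (b (l 16602312) (l 16617024)) (l 525965583))))) (b (a (b (l 16533736) (c (l 16567080) (l 16565096))) (c (b (l 16550128) (l 16593432)) (l 524369679))) (b (a (a (l 525548303) (l 525306639)) (a (l 525067279) (l 524830223))) (a (a (l 525720335) (l 525477135)) (a (l 525236239) (l 524997903))))))))), by decide +kernel⟩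

def k6_A00pp_022_s3 : ∃ t, chk3 f_A00pp_022_s3 t 10 12 1 = true :=
  ⟨(a (a (b (b (l 16135456) (l 16217600)) (b (a (l 16290736) (l 16304896)) (a (l 16367704) (l 16383176)))) (b (b (l 16162768) (a (l 16239224) (l 16256200))) (b (a (l 16321112) (l 16339312)) (a (l 16421624) (l 522056719))))) (a (b (b (l 16198280) (a (l 16275152) (l 16296008))) (a (b (l 16359432) (l 521642767)) (b (l 16402392) (l 521238031)))) (b (a (l 520252687) (l 519876111)) (a (b (l 16426176) (l 520842767)) (b (l 520216591) (l 520456975)))))), by decide +kernel⟩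

def k7_A00pp_022_s3 : ∃ t, chk3 f_A00pp_022_s3 t 10 13 1 = true :=
  ⟨(a (b (a (b (a (b (l 16423816) (l 16460400)) (l 523189519)) (a (b (l 16496312) (l 16542008)) (b (l 16514080) (l 523552527)))) (b (a (l 522752527) (l 522324751)) (a (b (l 522963983) (l 523109647)) (b (l 522532623) (l 522675727))))) (a (b (a (a (l 524891407) (l 524124175)) (b (l 523704079) (l 523859215))) (a (a (b (l 524595471) (l 524761615)) (b (l 524363023) (l 524527631))) (b (a (l 524132879) (l 523904783)) (a (l 524295951) (l 524066575))))) (b (a (b (l 523258383) (l 523410959)) (b (l 522822159) (l 522971919))) (b (a (a (l 523679247) (l 523456015)) (a (l 523235087) (l 523016463))) (a (a (l 523839503) (l 523614991)) (a (l 523392527) (l 523172367))))))) (b (a (b (a (l 521906191) (a (l 521598735) (l 521396495))) (a (b (l 522110735) (l 522251279)) (b (l 521698063) (l 521836303)))) (a (b (l 521097487) (a (l 521463567) (l 521263631))) (b (l 520707343) (l 520968207)))) (a (b (a (b (l 522395151) (b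 (l 522504719) (l 522579215))) (b (l 521977615) (b (l 522085135) (l 522158095)))) (a (b (c (l 522793231) (l 522591759)) (a (l 522954767) (l 522739215))) (b (b (l 522231823) (l 522306319)) (c (l 522524175) (l 522315791))))) (b (a (b (a (l 521670671) (l 521468687)) (a (b (l 521776911) (l 521848847)) (c (b (l 521696783) (l 521765903)) (l 521487631)))) (l 521240079)) (a (b (a (l 521958415) (a (l 521804559) (b (l 521666575) (l 4)))) (l 4)) (l 4)))))), by decide +kernel⟩

def k8_A00pp_022_s3 : ∃ t, chk3 f_A00pp_022_s3 t 11 6 1 = true :=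
  ⟨(b (a (b (a (a (l 519509263) (l 519151631)) (a (l 518803983) (l 518465807))) (a (b (l 519661327) (l 519895567)) (b (l 518955279) (a (l 519356431) (l 519008783))))) (b (a (a (l 518137359) (l 517818639)) (a (l 517509647) (l 517210383))) (a (b (l 518287631) (l 518773775)) (b (l 517658639) (l 517867791))))) (a (b (a (b (a (l 520326415) (l 519955215)) (a (l 520582415) (l 520206351))) (b (a (l 519593487) (l 519241231)) (a (l 519839759) (l 519482383)))) (b (a (a (l 520849167) (l 520467727)) (l 4)) (l 4))) (b (b (a (l 518730767) (l 518084111)) (l 4)) (l 4)))), by decide +kernel⟩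

def k9_A00pp_022_s3 : ∃ t, chk3 f_A00pp_022_s3 t 8 56 1 = true :=
  ⟨(a (a (b (a (b (a (l 16584296) (l 16593616)) (a (l 16605160) (l 16595144))) (a (b (l 16589136) (l 16597736)) (b (l 16584496) (l 16593536)))) (a (b (a (c (l 16588984) (l 16579888)) (l 16616072)) (c (a (l 16610480) (l 16599704)) (a (l 16601640) (l 16612112)))) (b (a (l 16626800) (l 16623208)) (a (c (l 16609944) (l 16601704)) (c (l 16606720) (l 16612432)))))) (b (a (a (b (l 16579808) (l 16589176)) (c (l 16576424) (l 16583600))) (a (c (l 16614264) (l 16620856)) (c (l 16610320) (l 16616304)))) (b (a (a (l 16619224) (l 16615168)) (a (l 16611120) (l 16607224))) (a (a (b (l 16604904) (l 16630184)) (c (l 16641856) (l 16606824))) (a (l 16620528) (l 16616872)))))) (a (b (a (a (b (l 16603968) (l 16614320)) (b (l 16599856) (l 16610440))) (a (b (l 16595992) (l 16606800)) (b (l 16592728) (l 16603768)))) (a (a (b (l 16603464) (l 16613344)) (b (l 16599816) (c (l 16628648) (l 16633184)))) (a (b (l 16617384)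 (c (l 16625792) (l 16629680))) (b (l 16614568) (c (l 16623512) (l 16626784)))))) (a (a (b (b (l 16590248) (l 16601512)) (b (l 16612544) (c (l 16621992) (l 16624704)))) (b (b (l 16588680) (l 16600176)) (b (l 16611432) (c (l 16621360) (l 16623576))))) (a (b (b (l 16588160) (l 16599888)) (a (b (l 16611280) (l 16622472)) (b (l 16611528) (l 16622832)))) (b (b (l 16588616) (l 16600576)) (b (l 16612304) (c (l 16623056) (l 16624528)))))))), by decide +kernel⟩

def k10_A00pp_022_s3 : ∃ t, chk3 f_A00pp_022_s3 t 8 114 1 = true :=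
  ⟨(c (a (a (a (b (a (l 16621872) (l 16621296)) (c (a (l 16625176) (l 16624272)) (a (l 16621104) (l 16620312)))) (a (b (l 16631224) (l 16631936)) (b (l 16614880) (l 16641632)))) (a (a (b (l 16632904) (l 16641128)) (b (l 16629800) (l 16638448))) (a (b (l 16647600) (l 16635584)) (b (l 16644432) (l 16653656))))) (a (a (a (a (l 16625936) (l 16635008)) (b (l 16638552) (l 16648224))) (a (b (l 16635920) (l 16645800)) (b (l 16633864) (l 16643968)))) (a (a (b (l 16632560) (l 16642888)) (b (l 16632152) (l 16642696))) (a (b (l 16632752) (l 16643528)) (b (l 16634296) (l 16645296)))))) (a (b (a (a (a (a (l 16621256) (l 16626328)) (l 16623464)) (a (l 16623216) (l 16633584))) (a (a (l 16619176) (l 16615600)) (a (l 16611896) (l 16650104)))) (a (a (b (a (l 16614448) (l 16613896)) (a (l 16615336) (l 16625128))) (a (c (l 16626136) (l 16622200)) (b (l 16613032) (l 16634416)))) (a (a (l 16644400) (l 16645056)) (a (l 16641696) (l 16638232))))) (a (a (a (a (l 16631112) (l 16629400))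 (b (l 16643008) (l 16652576))) (a (b (l 16639736) (l 16649536)) (b (l 16637072) (l 16647104)))) (a (a (b (l 16635224) (l 16645488)) (b (l 16634328) (l 16644824))) (a (b (l 16634536) (l 16645264)) (b (l 16635752) (l 16646720))))))), by decide +kernel⟩

def k11_A00pp_022_s3 : ∃ t, chk3 f_A00pp_022_s3 t 8 115 1 = true :=
  ⟨(c (a (b (a (a (a (a (l 16632936) (l 16637632)) (a (l 16621352) (l 16626024))) (a (c (l 16634888) (l 16631192)) (c (l 16644200) (l 16640656)))) (a (a (l 16649032) (l 16646728)) (a (l 16644248) (l 16641680)))) (a (a (a (a (l 16624520) (l 16629128)) (a (l 16633680) (l 16638232))) (a (c (l 16646808) (l 16643256)) (c (l 16645352) (l 16641936)))) (a (a (b (l 16652544) (l 16653104)) (l 16665160)) (a (l 16663104) (l 16660856))))) (a (a (a (b (l 16660080) (l 16648048)) (b (l 16657640) (l 16666808))) (a (b (l 16655440) (l 16664824)) (b (l 16653824) (l 16663424)))) (a (a (b (l 16652968) (l 16662792)) (b (l 16653000) (l 16665664))) (a (b (l 16656672) (a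 (l 16663888) (l 16664784))) (a (l 529745423) (l 529609487)))))) (a (a (a (a (b (a (l 16624944) (l 16629728)) (a (b (l 16626704) (l 16627992)) (l 16621544))) (a (b (l 16634520) (l 16626192)) (b (l 16618344) (l 16630848)))) (a (a (b (l 16623144) (l 16635504)) (b (l 16627960) (l 16640168))) (a (b (l 16632800) (l 16634360)) (b (l 16637680) (l 16639072))))) (b (a (a (b (l 16623896) (l 16645320)) (l 16653160)) (a (l 16650200) (l 16647104))) (a (a (b (l 16645880) (l 16646552)) (b (l 16655656) (l 16656144))) (a (l 16658408) (c (l 16654312) (l 16656992)))))) (a (a (a (b (l 16643960) (l 16652768)) (b (l 16661888) (l 16660448))) (a (b (l 16659080) (l 16657872)) (b (l 16656880) (l 16655896)))) (a (b (a (l 16655488) (l 16657680)) (a (a (l 16665440) (l 16665088)) (a (l 16664984) (l 16665144)))) (a (a (b (l 16655440) (l 16665592)) (b (l 16656072) (l 16666336))) (a (l 530098191) (l 529956367))))))), by decide +kernel⟩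

def k12_A00pp_022_s3 : ∃ t, chk3 f_A00pp_022_s3 t 16 116 1 = true :=
  ⟨(a (a (c (a (b (b (a (l 16636776) (l 16641320)) (a (l 16638056) (l 16642568))) (b (a (l 16639408) (l 16643912)) (a (l 16640832) (l 16645320)))) (b (a (c (l 16648160) (l 16644632)) (l 16640336)) (a (c (l 16650672) (l 16647320)) (c (l 16654976) (l 16651672))))) (b (a (b (a (l 16629376) (l 16634000)) (a (l 16630824) (l 16635424))) (a (c (l 16641064) (l 16637440)) (c (l 16645552) (l 16641968)))) (a (b (a (l 16632352) (l 16636936)) (a (l 16633952) (l 16638520))) (a (c (l 16643912) (l 16640464)) (c (l 16648312) (l 16644904)))))) (a (a (b (c (l 16644752) (a (l 16647152) (l 16649408))) (a (c (l 16656536) (l 16649896)) (c (l 16658680) (l 16652080)))) (b (c (l 16649152) (l 16642312)) (c (l 16651400) (a (l 16643784) (l 16645976))))) (b (a (c (l 16643072) (l 16646840)) (c (l 16647480) (l 16651392))) (c (a (l 16655672) (l 16659944)) (a (c (l 16661368) (l 16658120)) (c (l 16665736) (l 16662544)))))))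 (a (a (b (a (c (l 16651912) (l 16655968)) (c (l 16656360) (l 16650088))) (a (c (l 16664224) (a (l 16646480) (l 16648696))) (c (l 16658032) (l 16662520)))) (b (a (c (l 16660840) (l 16654752)) (c (l 16661888) (l 16659464))) (a (c (l 16662352) (l 16667000)) (c (l 16666704) (l 16661040))))) (b (c (a (l 16671104) (l 16669232)) (a (b (l 16664288) (l 16666928)) (a (l 16643528) (l 16663264)))) (a (a (c (l 16668600) (l 16665624)) (c (l 16667920) (l 16670272))) (a (c (l 16667200) (l 16672248)) (c (l 16666432) (l 16671248))))))), by decide +kernel⟩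

def k13_A00pp_022_s3 : ∃ t, chk3 f_A00pp_022_s3 t 32 117 1 = true :=
  ⟨(a (c (b (a (b (a (l 16642336) (l 16646800)) (a (l 16643912) (l 16648360))) (a (c (l 16653520) (l 16650344)) (c (l 16657760) (l 16654624)))) (a (b (a (l 16645560) (l 16650000)) (a (a (l 16646168) (l 16648408)) (l 16651712))) (a (c (l 16656672) (l 16653672)) (c (l 16660888) (l 16657928))))) (b (a (c (a (l 16638176) (l 16642696)) (a (l 16634824) (l 16639384))) (a (c (l 16647120) (l 16643856)) (b (l 16648992) (l 16645456)))) (a (c (a (l 16644376) (l 16646240)) (a (l 16638584) (l 16643120))) (a (c (l 16650632) (l 16647552)) (b (l 16652488) (a (l 16653288) (l 16655416))))))) (a (a (b (a (c (l 16648864) (l 16647808)) (c (l 16650944) (l 16649928))) (b (c (l 16662720) (l 16651472)) (c (l 16659136) (a (l 16657528) (l 16659600))))) (b (a (c (l 16653016) (l 16652056)) (c (l 16655096) (l 16654176))) (b (c (l 16656312) (l 16655640)) (c (l 16657944) (a (l 16661664) (l 16663712)))))) (b (a (a (c (l 16657160)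 (l 16656304)) (c (l 16659232) (l 16653184))) (a (c (l 16661304) (l 16655304)) (c (l 16663368) (l 16657432)))) (b (a (c (l 16660360) (l 16654536)) (c (l 16664400) (l 16658688))) (a (c (l 16661936) (l 16661536)) (c (l 16665912) (l 16665608))))))), by decide +kernel⟩

def k14_A00pp_022_s3 : ∃ t, chk3 f_A00pp_022_s3 t 33 117 1 = true :=
  ⟨(a (a (c (b (a (l 16666472) (l 16670624)) (a (c (l 16670512) (l 16667792)) (b (l 16661992) (l 16663368)))) (a (a (b (l 16659560) (l 16667848)) (b (l 16661696) (l 16669904))) (a (b (l 16663840) (l 16666728)) (b (l 16665984) (l 16668800))))) (c (a (b (l 16674784) (l 16677176)) (b (l 16668488) (l 16681208))) (a (a (b (l 16657656) (l 16670872)) (b (l 16659824) (l 16672952))) (b (l 16673576) (b (l 16664928) (l 16666304)))))) (b (a (a (c (l 16672712) (l 16677976)) (c (l 16675304) (l 16671944))) (a (c (l 16674784) (l 16676472)) (c (l 16674216) (l 16678824)))) (a (a (c (l 16685272) (b (l 16669192) (l 16670488))) (c (l 16678880) (l 16684592)))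 (a (c (l 16681992) (l 16688920)) (c (l 16681624) (l 16682832)))))), by decide +kernel⟩

def k15_A00pp_022_s3 : ∃ t, chk3 f_A00pp_022_s3 t 16 236 1 = true :=
  ⟨(a (a (c (a (b (a (a (l 16647968) (l 16650200)) (l 16653496)) (c (a (l 16652368) (l 16656736)) (a (l 16649504) (l 16653920)))) (a (b (l 16657800) (l 16659624)) (b (l 16662016) (a (l 16662784) (l 16664864))))) (a (a (b (l 16643112) (l 16645144)) (b (l 16647600) (l 16649624))) (b (a (l 16651992) (c (l 16657736) (l 16654840))) (a (c (l 16655424) (l 16652576)) (c (l 16659688) (l 16656880)))))) (c (a (a (b (l 16660888) (l 16662688)) (b (l 16664904) (l 16666688))) (a (b (l 16663616) (l 16670600)) (c (l 16669664) (l 16672304)))) (a (a (a (c (l 16661848) (l 16659024)) (c (l 16663912) (l 16661112))) (a (c (l 16665936) (l 16663152)) (c (l 16667952) (l 16665200)))) (a (a (c (l 16669952) (l 16667216)) (c (l 16671944) (l 16669232))) (b (l 16667392) (l 16669272)))))) (c (a (a (a (c (l 16673512) (l 16676208)) (b (l 16675336)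 (l 16676912))) (a (b (l 16668760) (l 16680752)) (b (l 16672688) (l 16674120)))) (a (a (l 16687784) (l 16691712)) (a (l 16695680) (l 16699160)))) (a (a (a (b (l 16666168) (l 16673216)) (c (l 16677568) (l 16675000))) (a (c (l 16676296) (l 16679024)) (c (l 16680280) (l 16677840)))) (a (a (c (l 16684296) (l 16681928)) (b (l 16676024) (l 16677440))) (a (c (l 16681960) (l 16679768)) (l 16695560)))))), by decide +kernel⟩

def k16_A00pp_022_s3 : ∃ t, chk3 f_A00pp_022_s3 t 16 237 1 = true :=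
  ⟨(a (a (c (a (b (c (a (l 16654240) (l 16658592)) (a (l 16651464) (l 16655864))) (c (a (l 16656168) (l 16660512)) (a (l 16653480) (l 16657872)))) (a (a (c (l 16662744) (l 16660096)) (c (l 16664848) (l 16662216))) (b (l 16665704) (l 16667640)))) (a (b (a (l 16647240) (l 16651704)) (a (l 16649392) (l 16653848))) (b (a (c (l 16657448) (l 16654688)) (c (l 16661696) (l 16658984))) (a (l 16658208) (c (l 16663776) (l 16661152)))))) (c (b (a (a (l 16664544) (l 16668536)) (a (l 16672432) (l 16676256))) (a (a (c (l 16672968) (l 16670456)) (l 16670456)) (a (l 16674336) (l 16678120)))) (a (a (a (c (l 16665848) (l 16663216)) (c (l 16667896) (l 16665288))) (a (c (l 16669928) (l 16667336)) (c (l 16671928) (l 16669360)))) (a (a (c (l 16673904) (l 16671352)) (c (l 16675848) (l 16673320))) (a (b (l 16675512) (l 16677576)) (b (l 16677448) (l 16679496))))))) (a (b (a (a (c (l 16674792) (l 16675120)) (c (l 16678576) (l 16679000))) (a (c (l 16682352) (l 16677648)) (c (l 16686128)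 (l 16681552)))) (a (a (c (l 16676608) (l 16677112)) (c (l 16680328) (l 16680928))) (a (c (l 16684040) (l 16679512)) (c (l 16687752) (l 16683344))))) (a (a (a (c (l 16689752) (l 16685352)) (c (l 16691632) (l 16687304))) (a (c (l 16693520) (l 16689272)) (c (l 16695416) (l 16691240)))) (a (c (l 16698272) (b (l 16682976) (l 16684512))) (c (l 16702120) (b (l 16687040) (l 16688488))))))), by decide +kernel⟩

def k17_A00pp_022_s3 : ∃ t, chk3 f_A00pp_022_s3 t 32 119 1 = true :=
  ⟨(a (c (b (a (a (b (l 16659480) (l 16661576)) (b (a (l 16660136) (l 16662288)) (l 16665920))) (a (b (a (l 16664416) (l 16666528)) (l 16667552)) (b (l 16669640) (l 16671704)))) (a (a (b (l 16663736) (l 16665960)) (b (l 16665448) (l 16667664))) (a (b (l 16669688) (l 16671896)) (b (l 16673832) (l 16676032))))) (b (a (a (a (l 16648992) (l 16653856)) (b (l 16656048) (l 16658312))) (a (b (l 16660400) (l 16662656)) (b (a (l 16663592) (l 16665696)) (l 16666896)))) (a (c (a (l 16658624) (l 16663024))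 (a (l 16656192) (l 16660632))) (a (c (l 16667328) (l 16664984)) (b (l 16669208) (l 16671584)))))) (b (c (a (a (b (l 16673704) (l 16675760)) (b (l 16672432) (l 16679720))) (a (b (l 16676304) (l 16678336)) (b (l 16680072) (l 16682096)))) (b (a (a (a (l 16667768) (l 16669824)) (a (l 16671856) (l 16673856))) (a (c (l 16678008) (l 16675616)) (c (l 16681840) (l 16679488)))) (a (a (l 16671040) (c (l 16676256) (l 16673904))) (a (c (l 16680184) (l 16677880)) (l 16677640))))) (b (a (a (c (l 16677880) (l 16673344)) (c (l 16681832) (l 16677376))) (a (c (l 16685680) (l 16676072)) (c (l 16684192) (l 16679920)))) (a (a (c (l 16680072) (l 16675712)) (c (l 16684008) (l 16679744))) (a (c (l 16687856) (l 16683672)) (c (l 16691600) (l 16687504))))))), by decide +kernel⟩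

def k18_A00pp_022_s3 : ∃ t, chk3 f_A00pp_022_s3 t 33 119 1 = true :=
  ⟨(b (a (b (a (a (c (l 16683768) (l 16679216)) (c (l 16682184) (l 16682960))) (a (c (l 16685832) (l 16681472)) (c (l 16689480) (l 16685232)))) (a (a (c (l 16685768) (l 16681392)) (c (l 16684128) (l 16685088))) (a (c (l 16687720) (l 16688776)) (c (l 16691304) (l 16687224))))) (a (a (a (c (l 16693096) (l 16694264)) (c (l 16694904) (l 16696136))) (a (c (l 16696720) (l 16692776)) (c (l 16698544) (l 16694664)))) (a (a (c (l 16700368) (l 16696568)) (c (l 16702200) (l 16698472))) (a (c (l 16704040) (l 16700392)) (c (l 16705888) (l 16702328)))))) (a (b (c (a (a (l 16687840) (l 16691416)) (a (l 16689704) (l 16693224))) (a (a (c (l 16689952) (l 16687832)) (l 16687312)) (a (l 16690936) (l 16689320)))) (a (a (c (l 16690000) (l 16686000)) (c (l 16693552) (l 16689632))) (a (c (l 16691784) (l 16693200)) (c (l 16695256) (l 16696760))))) (b (a (a (c (l 16696752) (l 16692952)) (c (l 16700272) (l 16696600)))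 (a (c (l 16703816) (l 16700280)) (c (l 16707376) (l 16703992)))) (a (a (c (l 16698712) (l 16695088)) (c (l 16702168) (l 16698664))) (a (c (l 16705640) (l 16702264)) (c (l 16709128) (l 16705896))))))), by decide +kernel⟩

def k19_A00pp_022_s3 : ∃ t, chk3 f_A00pp_022_s3 t 68 29 1 = true :=
  ⟨(a (b (c (a (b (b (l 16678240) (l 16665600)) (b (l 16673600) (l 16681208))) (b (b (l 16677208) (l 16685704)) (b (l 16672904) (l 16680736)))) (a (b (b (l 16661984) (l 16670152)) (b (l 16677976) (l 16685376))) (b (b (l 16681648) (l 16669024)) (b (l 16677024) (l 16684672))))) (c (a (b (b (l 16698944) (l 16705872)) (b (l 16708680) (b (l 16700488) (l 16712640)))) (b (b (l 16698672) (l 16705800)) (b (l 16712440) (b (l 16704120) (l 16705712))))) (a (b (b (l 16699832) (b (l 16691160) (l 16692512))) (a (b (l 16704272) (l 16707712)) (b (l 16706232) (l 16709584)))) (b (b (l 16702392) (l 16706464)) (a (b (l 16708208) (l 16711464)) (b (l 16699712) (l 16713360))))))) (b (b (b (c (l 16665232)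 (l 16669232)) (a (b (l 16663728) (l 16667920)) (c (l 16683968) (l 16687680)))) (b (a (c (l 16693152) (l 16676032)) (c (l 16692408) (l 16675000))) (a (b (l 16690560) (l 16694440)) (c (l 16690088) (l 16693496))))) (c (a (b (b (l 16698352) (l 16705680)) (b (l 16712672) (b (l 16707208) (l 16709304)))) (b (b (l 16697936) (l 16705496)) (b (l 16712696) (b (l 16707376) (l 16710704))))) (a (b (b (l 16701840) (l 16708952)) (b (l 16713224) (b (l 16704952) (l 16706576)))) (b (b (c (l 16689864) (l 16691504)) (l 16708536)) (b (l 16715520) (b (l 16708904) (l 16710432)))))))), by decide +kernel⟩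

def k20_A00pp_022_s3 : ∃ t, chk3 f_A00pp_022_s3 t 69 29 1 = true :=
  ⟨(b (b (b (a (c (l 16663472) (l 16666880)) (a (a (l 16674656) (l 16674328)) (a (l 16674064) (l 16673840)))) (a (a (c (l 16683176) (l 16686600)) (c (l 16682520) (l 16685656))) (a (c (l 16682040) (l 16684896)) (c (l 16681736) (l 16684336))))) (a (a (c (b (l 16691720) (l 16699992)) (b (l 16695000) (l 16692632))) (c (b (l 16691176) (l 16699560)) (b (l 16694176) (l 16691920)))) (a (c (b (l 16690800) (l 16699288)) (b (l 16693528) (l 16691392))) (c (b (l 16690608) (l 16699208)) (b (l 16693080) (l 16701544)))))) (a (c (a (b (b (l 16697536) (l 16705264)) (a (b (l 16702208) (l 16719688)) (b (l 16712696) (l 16719792)))) (b (b (l 16697200) (l 16705112)) (a (b (l 16712720) (l 16719920)) (b (l 16712760) (l 16720072))))) (a (b (b (l 16700496) (c (l 16696856) (l 16698272))) (a (b (l 16704856) (l 16722120)) (b (l 16704744) (l 16722120)))) (b (b (l 16699896) (a (l 16697256) (l 16697072))) (a (b (l 16704648)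 (l 16722136)) (b (l 16715056) (l 532376847)))))) (b (a (c (b (l 16697040) (b (l 16713560) (l 16717528))) (b (l 16699472) (b (l 16715880) (l 16719768)))) (c (b (l 16697064) (l 16710424)) (b (l 16704496) (l 16712464)))) (a (c (a (b (l 16712808) (l 16720232)) (b (l 16712888) (l 16720416))) (a (b (l 16714984) (l 16722232)) (b (l 16714952) (l 16722312)))) (b (c (b (l 16721616) (l 16725520)) (c (l 16714520) (l 16715480))) (c (c (l 16720312) (l 16721160)) (c (l 16722024) (l 16722896)))))))), by decide +kernel⟩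

def k21_A00pp_022_s3 : ∃ t, chk3 f_A00pp_022_s3 t 70 29 1 = true :=
  ⟨(b (a (a (b (c (b (l 16672384) (l 16681632)) (b (l 16674848) (l 16683984))) (c (b (l 16690616) (l 16699320)) (b (l 16692848) (l 16690936)))) (b (c (b (l 16672392) (l 16681744)) (b (l 16674616) (l 16683864))) (c (b (l 16690840) (l 16699648)) (b (l 16692840) (l 16696288))))) (a (b (c (b (l 16672624) (l 16682088)) (b (l 16674624) (l 16683992))) (c (a (l 531059215) (l 530976271)) (b (l 16693080) (c (l 16701464) (l 16702312))))) (a (b (c (l 530686991) (l 530799375)) (c (l 530894863) (l 531012623))) (b (c (l 530609423) (l 530717711)) (c (l 530815247) (l 530928655)))))) (a (b (a (c (b (l 16702528) (b (l 16713960) (l 16718024))) (b (l 16704488) (b (l 16715816) (l 16719800)))) (c (a (b (l 16708080) (l 16716392)) (b (l 16708352) (l 16716720))) (a (b (l 16709872) (l 16718048)) (b (l 16710048) (l 16718280))))) (a (c (b (b (l 16722024) (l 16725968)) (c (l 16726176) (l 16726920))) (b (a (l 16715112) (l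 16715280)) (b (l 16731400) (l 16735152)))) (c (b (b (l 16722656) (l 16726648)) (c (l 16726968) (l 16727608))) (b (b (l 16724152) (l 16728080)) (c (l 16728272) (l 16728936)))))) (b (a (c (a (l 530872591) (l 530920207)) (a (b (l 16710288) (l 16718568)) (b (l 16710584) (l 16713688)))) (c (a (l 531103759) (l 531021071)) (a (l 531226639) (l 531139087)))) (a (c (b (b (l 16723512) (l 16727568)) (l 531127055)) (b (c (l 16721256) (l 16721912)) (c (l 16729128) (l 16729712)))) (c (a (l 531331599) (l 531244303)) (b (l 531084047) (l 531205647))))))), by decide +kernel⟩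

def k22_A00pp_022_s3 : ∃ t, chk3 f_A00pp_022_s3 t 71 29 1 = true :=
  ⟨(b (a (a (b (c (b (l 16673840) (l 16683528)) (b (l 16675464) (l 16685064))) (b (c (l 16695568) (l 530754831)) (a (l 530842383) (l 530764815)))) (b (a (c (l 530120207) (l 530486031)) (c (l 530319375) (l 530413839))) (a (b (l 530589711) (l 530690319)) (b (l 530518799) (l 530618895))))) (b (a (b (l 530209551) (l 530311951)) (b (l 530070543) (l 530172687))) (a (b (l 530413583) (l 530513423)) (b (l 530274063) (l 530373391))))) (a (a (b (a (c (l 530940687) (l 531054607)) (c (l 530863375) (l 530973199))) (a (c (l 531160079) (l 531278351)) (c (l 531079183) (l 531193359)))) (b (a (c (l 530789135) (l 530895375)) (l 530501391)) (a (b (l 531001359) (l 531113743)) (l 530984207)))) (b (a (a (l 530699023) (l 530628623)) (b (l 530471439) (l 530573327))) (a (b (l 530821391) (l 530932495)) (b (l 530679311) (l 530789647)))))), by decide +kernel⟩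

def k23_A00pp_022_s3 : ∃ t, chk3 f_A00pp_022_s3 t 36 28 1 = true :=
  ⟨(a (b (a (b (b (l 16589688) (l 16601880)) (b (l 16613832) (c (l 16624968) (l 16626136)))) (b (b (l 16591312) (l 16603728)) (a (b (l 16615344) (l 16627232)) (b (l 16616528) (l 16628528))))) (a (b (a (b (l 16636464) (l 529355023)) (b (l 16637592) (l 529216527))) (a (b (l 529457679) (l 529560335)) (b (l 529318927) (l 529421583)))) (b (a (b (l 16638872) (l 529077775)) (c (l 528864271) (l 528913423))) (a (b (l 529180431) (l 529283087)) (b (l 529041679) (l 529144335)))))) (b (a (b (b (l 16593488) (l 16606136)) (c (b (l 16618256) (l 16630408)) (b (l 16618864) (l 16631048)))) (b (b (l 16596208) (l 16609088)) (c (b (l 16621560) (l 16633936)) (b (l 16621920) (l 16634344))))) (a (b (a (c (l 528728591) (l 528772111)) (c (l 528592911) (l 528630543))) (a (b (l 528903183) (l 529005839)) (b (l 528764687) (l 528867343)))) (b (c (b (l 16646080) (l 528438287)) (b (l 16646512) (l 528603407))) (a (c (l 528658703)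 (l 528697615)) (c (l 528523023) (l 528556303))))))), by decide +kernel⟩

def k24_A00pp_022_s3 : ∃ t, chk3 f_A00pp_022_s3 t 36 29 1 = true :=
  ⟨(a (b (a (b (a (b (l 529662991) (l 530033679)) (b (l 529524239) (l 529626127))) (a (b (l 530134543) (l 530233615)) (b (l 529726991) (l 530093839)))) (b (a (b (l 529385487) (l 529487375)) (b (l 529246735) (l 529348623))) (a (b (l 529587727) (l 529820175)) (b (l 529448975) (l 529680655))))) (a (b (a (b (l 530330895) (l 530432015)) (b (l 530190607) (l 530290959))) (a (b (l 530537487) (l 530647055)) (b (l 530395663) (l 530504463)))) (b (a (b (l 529782031) (l 530150159)) (b (l 529641743) (l 529740815))) (a (b (l 530253839) (l 530362127)) (b (l 530112271) (l 530219791)))))) (b (a (b (a (b (l 529108239) (l 529209871)) (c (l 528996367) (l 529046543))) (a (b (l 529309967) (l 529541391)) (b (l 529171471) (l 529402383)))) (b (a (c (l 528860687) (l 528905487)) (c (l 528725263) (l 528764175))) (a (b (l 529032975) (c (l 529372943)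 (l 529423631))) (b (l 528894479) (c (l 529237263) (l 529282063)))))) (a (b (a (b (l 529501967) (l 529600015)) (b (l 529362191) (l 529459727))) (a (b (l 529702671) (l 530077711)) (b (l 529561359) (l 529667343)))) (b (a (b (l 529222671) (l 529319439)) (b (l 529083407) (l 529179151))) (a (b (l 529420303) (l 529525519)) (b (l 529279247) (l 529383695))))))), by decide +kernel⟩

def k25_A00pp_022_s3 : ∃ t, chk3 f_A00pp_022_s3 t 37 28 1 = true :=
  ⟨(b (c (a (a (b (l 16611280) (b (l 16625392) (l 16638000))) (b (l 527450895) (b (l 16629752) (l 16642584)))) (a (b (b (l 16607952) (l 16621424)) (l 527373839)) (b (b (l 16613072) (l 16626736)) (b (l 16640176) (l 527421711))))) (a (a (b (l 16611328) (b (l 16625536) (l 16638192))) (b (l 527441679) (l 527778575))) (a (b (l 527162383) (l 527361295)) (b (l 526886671) (l 527081999))))) (a (b (a (c (b (l 16650368) (l 528166671)) (b (l 16653224) (l 528186383))) (a (c (l 528182031) (l 527922703)) (c (l 528045839) (l 528049423))))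 (a (a (c (l 528387343) (l 528414991)) (c (l 528520207) (l 528273423))) (c (b (l 527995919) (l 528097551)) (a (l 528132111) (l 527990543))))) (b (a (c (a (l 527909391) (l 527772943)) (b (l 527514639) (l 527618831))) (c (a (l 527636495) (l 527501327)) (b (l 527232015) (l 527334415)))) (a (c (c (l 527774735) (l 527775247)) (b (l 527724047) (l 527829519))) (c (a (l 527839247) (b (l 527650831) (l 527753231))) (b (l 527439119) (l 527545103))))))), by decide +kernel⟩

def k26_A00pp_022_s3 : ∃ t, chk3 f_A00pp_022_s3 t 37 29 1 = true :=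
  ⟨(b (a (a (b (a (c (l 528589583) (l 528623119)) (c (l 528454159) (l 528482319))) (b (a (l 528756495) (l 528618511)) (a (c (l 529101583) (l 529141007)) (c (l 528966159) (l 528999951))))) (b (a (c (l 528318735) (l 528341263)) (c (l 528183311) (l 528200207))) (b (a (l 528480527) (l 528342799)) (a (a (l 528610831) (l 528541967)) (c (l 528695823) (l 528718607)))))) (a (b (b (c (l 527928079) (l 527934991)) (c (l 528029711) (l 528106767))) (b (a (l 528205071) (l 528067599)) (a (c (l 528561167) (l 528578319)) (c (l 528426511) (l 528438287))))) (b (c (a (l 528313103) (l 527908367)) (a (l 527776271) (l 527634447))) (b (c (l 527859983) (a (l 528200719) (l 528060431))) (c (a (l 528292111) (l 528157967)) (b (l 527936015) (l 527982095))))))) (a (b (a (a (b (l 528944143) (l 529039375)) (b (l 528805135) (l 528899599))) (a (b (l 528666639) (l 528760079)) (b (l 528528143) (c (l 528876815) (l 528633615))))) (a (a (b (l 529138447) (l 529242127)) (b (l 528997903) (l 529100815)))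 (a (b (l 528857615) (l 528959759)) (b (l 528717583) (l 528818703))))) (a (b (a (b (l 528389903) (b (l 528726543) (l 528505103))) (b (a (l 528555023) (l 528485903)) (c (l 528604175) (l 528350223)))) (a (b (l 528577551) (l 528677903)) (b (l 528437775) (l 4)))) (b (a (b (c (l 528378895) (l 528386575)) (c (l 528468495) (l 528208911))) (c (b (l 528244239) (l 528332815)) (l 528022799))) (a (b (a (l 528601871) (b (l 528508175) (l 4))) (l 4)) (l 4)))))), by decide +kernel⟩

def k27_A00pp_022_s3 : ∃ t, chk3 f_A00pp_022_s3 t 38 28 1 = true :=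
  ⟨(b (a (a (b (b (l 16618432) (c (l 16632632) (l 16632048))) (c (a (l 527176463) (l 527046159)) (l 526807823))) (c (b (b (l 16625088) (l 16639120)) (b (l 16655568) (l 526898959))) (b (l 526619407) (b (l 16654992) (l 526855951))))) (a (b (c (l 526423567) (l 526361615)) (c (b (l 526557711) (l 526648847)) (b (l 526501391) (l 526595855)))) (b (c (l 526179087) (l 526107663)) (c (b (l 526311951) (l 526402319)) (b (l 526246159) (l 526340111)))))) (a (b (a (c (a (l 527367695) (b (l 527187215) (l 527283215))) (c (l 527011599) (b (l 527216143) (l 527317263)))) (c (a (b (l 527057167) (l 527152399)) (b (l 526929167) (l 527023631))) (b (a (l 527020303) (l 526887183)) (a (l 527118607) (l 526984719))))) (a (c (a (b (l 527515151) (l 527616015)) (b (l 527381007) (l 527480335))) (b (a (l 527495439) (l 527355919)) (l 527260175))) (c (a (b (l 527248911) (l 527346959)) (b (l 527119119) (l 527216143))) (a (b (l 527218447) (l 527319823)) (b (l 527083535) (l 527183631)))))) (b (c (a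 (b (l 526741007) (a (l 526897423) (l 526772751))) (b (l 526493967) (a (l 526648847) (l 526525455)))) (b (a (a (l 526756623) (l 526627599)) (l 526435087)) (a (a (l 526853647) (l 526724367)) (a (l 526595599) (l 526467343))))) (c (a (a (b (l 526992399) (l 527088655)) (l 526915599)) (a (b (l 526743055) (l 526838543)) (b (l 526619151) (l 526714127)))) (a (a (b (l 526951951) (l 527051279)) (b (l 526822159) (l 526921231))) (a (b (l 526693135) (l 526791439)) (b (l 526564367) (l 526662415)))))))), by decide +kernel⟩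

def k28_A00pp_022_s3 : ∃ t, chk3 f_A00pp_022_s3 t 39 28 1 = true :=
  ⟨(b (a (b (a (c (l 525936655) (l 525856271)) (c (l 525696783) (l 525606927))) (c (a (b (l 526068751) (l 526158095)) (b (l 525827343) (l 525916175))) (a (b (l 525993487) (l 526086671)) (b (l 525743119) (l 525835535))))) (a (b (c (l 525458959) (l 525360143)) (c (b (l 525588495) (l 525676559)) (b (l 525495055) (l 525586703)))) (b (c (l 525223183) (l 525115663)) (b (c (l 525351695) (l 525249551)) (c (l 525438991) (l 525340175)))))) (b (a (a (b (c (a (l 526310415) (l 526188303)) (a (l 526244367) (l 526117903))) (c (a (l 526402575) (l 526280207)) (a (l 526339855) (l 526212879)))) (b (c (a (l 526066959) (l 525946127)) (a (l 525991951) (l 525866511))) (c (a (l 526158351) (l 526037007)) (a (l 526086415) (l 525960719))))) (a (b (c (a (l 525825807) (l 525705999)) (a (l 525741583) (l 525617423))) (c (a (l 525916431) (l 525796111)) (a (l 525835279) (l 525710607)))) (b (c (a (l 525586959) (l 525468175))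 (a (l 525493775) (l 525370639))) (c (a (b (l 525654031) (l 525699087)) (b (l 525534991) (l 525580047))) (b (a (l 525563151) (l 525439759)) (a (l 525609999) (l 525486351))))))) (a (b (a (c (a (l 526495759) (l 526373135)) (a (l 526436367) (l 526308879))) (c (a (l 526250767) (l 526129167)) (a (l 526182159) (l 526055951)))) (a (c (a (l 526590479) (l 526467343)) (a (l 526534159) (l 526406159))) (c (a (l 526344463) (l 526222351)) (a (l 526278927) (l 526152207))))) (c (a (b (a (l 526008079) (b (l 525864463) (l 525910287))) (a (l 526101007) (l 525979919))) (b (b (a (l 525744399) (l 525625103)) (a (l 525790223) (l 525670671))) (a (l 525859343) (l 525739535)))) (a (b (b (a (l 525906447) (l 525781263)) (a (l 525954063) (l 525828879))) (a (l 526026255) (l 525900559))) (b (b (a (l 525657103) (b (l 525521423) (l 525544975))) (a (l 525704207) (l 525580303))) (a (l 525775631) (l 525651471)))))))), by decide +kernel⟩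

def k29_A00pp_022_s3 : ∃ t, chk3 f_A00pp_022_s3 t 19 116 1 = true :=
  ⟨(a (a (a (a (c (b (l 527719439) (l 527823375)) (l 527492111)) (c (b (l 527582223) (l 527686415)) (b (l 527563791) (l 527671055)))) (a (c (b (l 527446799) (l 527549199)) (b (l 527422735) (l 527528207))) (c (b (l 527314447) (l 527414543)) (b (l 527285007) (l 527387919))))) (a (c (a (b (l 527186191) (l 527285263)) (l 527109903)) (a (b (l 527151887) (l 527253775)) (b (l 527021327) (l 527122447)))) (c (a (l 526984207) (l 526859279)) (a (b (l 526891279) (l 526992143)) (b (l 526761743) (l 526862095)))))) (b (a (a (c (a (l 526686223) (l 526562575)) (a (l 526632719) (l 526504463))) (c (a (l 526439439) (l 526317071)) (a (l 526376719) (l 526249743)))) (a (c (a (l 526194959) (l 526073615)) (a (l 526123279) (l 525997327))) (a (c (l 525952783) (l 525871887)) (l 4)))) (a (a (c (a (l 526783247) (l 526659343)) (a (l 526732815) (l 526604047))) (c (a (l 526535695) (l 526412815)) (a (l 526475791) (l 526348303))))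 (l 4)))), by decide +kernel⟩

def k30_A00pp_022_s3 : ∃ t, chk3 f_A00pp_022_s3 t 19 117 1 = true :=
  ⟨(a (a (a (b (c (a (l 527926287) (l 527790607)) (a (l 527919631) (l 527778319))) (c (a (l 528023823) (b (l 527866383) (l 527912463))) (b (l 527656719) (a (l 528042255) (l 527903247))))) (a (c (b (l 527653903) (b (l 527731471) (l 527777807))) (b (l 527636239) (b (l 527715855) (b (l 527753231) (l 527775247))))) (c (b (a (l 527550991) (l 527482639)) (b (l 527595791) (c (l 527654159) (l 527643919)))) (b (a (l 527528975) (l 527457807)) (b (a (l 527609871) (l 527538959)) (b (l 527615247) (l 527636495))))))) (a (a (c (b (a (l 527417359) (l 527353615)) (a (b (l 527493647) (c (l 527550735) (l 527538191))) (b (l 527429391) (l 527480079)))) (b (a (l 527389967) (l 527323663)) (a (b (l 527468303) (c (l 527525903) (b (l 527501071) (l 527527439)))) (c (l 527434255) (l 527420943))))) (c (b (l 527258639) (c (l 527367439) (l 527351567))) (b (l 527225103) (b (l 527302671) (c (l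 527361807) (l 527346959)))))) (a (b (c (l 527132431) (l 527094031)) (b (c (l 527207695) (l 527171343)) (l 4))) (b (c (l 527006735) (l 526963727)) (l 4))))) (b (a (a (c (a (l 526881807) (l 526757135)) (a (l 526833935) (l 526704655))) (l 4)) (l 4)) (l 4))), by decide +kernel⟩

def k31_A00pp_022_s3 : ∃ t, chk3 f_A00pp_022_s3 t 19 59 1 = true :=
  ⟨(a (b (a (a (a (c (b (l 528109583) (l 528197391)) (b (l 528106511) (l 528195343))) (c (b (l 527975439) (l 528062223)) (b (l 527966735) (l 528054799)))) (b (a (c (l 527841551) (l 527827471)) (c (l 527707919) (l 527688463))) (l 4))) (a (a (a (a (c (l 527666447) (l 527644431)) (l 4)) (l 4)) (l 4)) (l 4))) (l 4)) (l 4)), by decide +kernel⟩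

def k32_A00pp_022_s3 : ∃ t, chk3 f_A00pp_022_s3 t 32 120 1 = true :=
  ⟨(a (c (b (a (a (b (l 16668248) (l 16670608)) (b (l 16669944) (l 16672296))) (a (b (l 16674168) (l 16676512)) (b (l 16678296) (l 16680632)))) (a (b (a (l 16673032) (l 16674720)) (a (l 16675528) (l 16677208))) (a (b (l 16678928) (l 16681408)) (b (l 16683040) (l 16685520))))) (b (a (c (a (l 16663464) (l 16667856)) (a (l 16661208) (l 16665640))) (a (c (l 16672144) (l 16669976)) (b (l 16674024) (l 16676544)))) (a (c (a (l 16668576) (l 16672952)) (a (l 16666496) (l 16670920))) (a (c (l 16677232) (l 16675248)) (c (l 16681416) (l 16679480)))))) (b (b (a (a (c (l 16682328) (l 16678152)) (c (l 16686256) (l 16682176))) (a (c (l 16690096) (l 16686096)) (c (l 16693832) (l 16689928)))) (c (a (a (l 16684656) (a (l 16687608) (l 16689544))) (a (c (l 16693344) (l 16691464)) (l 16696144))) (a (a (l 16680656) (l 16684672)) (a (l 16688592) (l 16692416))))) (c (b (a (a (a (l 16686064) (l 16688048)) (a (l 16690008)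 (l 16691936))) (a (c (l 16695688) (l 16693896)) (l 16693280))) (a (a (c (l 16690424) (l 16688632)) (c (l 16694320) (l 16692568))) (a (c (l 16698112) (l 16696408)) (c (l 16701808) (l 16700144))))) (a (a (b (l 16683240) (l 16685888)) (b (l 16687248) (l 16689896))) (a (b (l 16691160) (l 16693808)) (b (l 16694976) (l 16697616))))))), by decide +kernel⟩

def k33_A00pp_022_s3 : ∃ t, chk3 f_A00pp_022_s3 t 32 121 1 = true :=
  ⟨(a (c (b (a (a (b (l 16675472) (l 16678112)) (b (l 16679768) (l 16682400))) (a (b (l 16683968) (l 16686600)) (b (l 16688072) (a (l 16689680) (l 16691704))))) (a (b (a (l 16680824) (l 16685112)) (a (l 16683608) (l 16687896))) (a (b (l 16689304) (l 16692088)) (a (b (l 16692384) (l 16695168)) (b (l 16694408) (l 16697192)))))) (a (b (c (a (l 16673968) (l 16678336)) (a (l 16672056) (l 16676472))) (c (a (l 16679640) (l 16684008)) (a (l 16677904) (l 16682320)))) (a (a (b (l 16680640) (l 16686392)) (b (l 16682760) (l 16688520))) (a (b (l 16684864) (l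 16690616)) (b (l 16686936) (l 16692696)))))) (b (c (a (a (a (c (l 16693224) (l 16691552)) (c (l 16695192) (l 16693536))) (a (c (l 16697136) (l 16695504)) (c (l 16699056) (l 16697448)))) (a (a (a (l 16699680) (l 16700632)) (a (l 16701568) (l 16702504))) (a (b (l 16702592) (l 16705208)) (b (l 16704424) (l 16707040))))) (a (a (b (l 16688616) (l 16691416)) (b (l 16692616) (l 16695416))) (a (b (l 16696528) (l 16699320)) (b (l 16700336) (l 16697888))))) (a (c (a (a (b (l 16696408) (l 16699192)) (c (l 16700512) (l 16699024))) (a (c (l 16702448) (l 16700992)) (c (l 16704360) (l 16702928)))) (a (b (l 16694288) (l 16697240)) (b (l 16698288) (l 16701240)))) (c (a (a (b (l 16704168) (l 16706944)) (b (l 16706048) (l 16708824))) (a (b (l 16707896) (l 16710672)) (b (l 16709728) (l 16712504)))) (a (b (l 16702192) (l 16705144)) (b (l 16700760) (l 16703704))))))), by decide +kernel⟩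

def k34_A00pp_022_s3 : ∃ t, chk3 f_A00pp_022_s3 t 32 122 1 = true :=
  ⟨(a (b (c (a (b (a (l 16686472) (l 16690760)) (a (l 16692040) (l 16693704))) (b (a (l 16694952) (a (l 16698032) (l 16700056))) (a (c (l 16698584) (l 16697192)) (a (l 16700968) (l 16702992))))) (a (b (a (l 16683288) (l 16687680)) (a (l 16686392) (l 16690784))) (a (b (l 16691976) (l 16695080)) (b (l 16696176) (l 16699280))))) (c (a (b (a (a (l 16691272) (l 16693440)) (l 16696648)) (a (a (l 16694168) (l 16696336)) (l 16699544))) (a (a (c (l 16701896) (l 16700608)) (c (l 16703952) (l 16702688))) (a (b (l 16703912) (l 16706816)) (b (l 16705936) (l 16708840))))) (a (b (a (l 16689488) (l 16693880)) (a (l 16692512) (l 16696912))) (a (a (l 16698640) (l 16695528)) (b (l 16702384) (l 16705424)))))) (b (a (c (a (a (b (l 16702048) (l 16704992)) (b (l 16704024) (l 16706960))) (a (b (l 16705976) (l 16708912)) (b (l 16707896) (l 16710840)))) (a (b (l 16700272) (l 16703384)) (b (l 16704272) (l 16707384))))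 (b (c (a (c (l 16711376) (l 16710104)) (c (l 16715056) (l 16713840))) (a (l 16708176) (c (l 16712608) (l 16711360)))) (a (a (c (l 16712736) (l 16710328)) (c (l 16714616) (l 16712248))) (a (c (l 16716464) (l 16714152)) (c (l 16718296) (l 16716032)))))) (a (c (a (a (b (l 16707936) (l 16710840)) (b (l 16709912) (l 16712808))) (a (b (l 16711856) (l 16714760)) (b (l 16713784) (l 16716688)))) (a (b (l 16706488) (l 16709536)) (b (l 16710496) (l 16713544)))) (b (a (a (c (l 16715688) (l 16713432)) (c (l 16717560) (l 16715360))) (a (c (l 16719416) (l 16717264)) (c (l 16721240) (l 16719144)))) (a (a (c (l 16718592) (l 16716488)) (c (l 16720464) (l 16718416))) (a (c (l 16722320) (l 16720320)) (c (l 16724152) (l 16722208)))))))), by decide +kernel⟩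

def k35_A00pp_022_s3 : ∃ t, chk3 f_A00pp_022_s3 t 32 246 1 = true :=
  ⟨(a (c (a (b (a (a (l 16697032) (l 16699200)) (l 16702408)) (a (a (l 14) (l 16702056)) (l 16707896))) (a (a (c (l 16707584) (l 16706416)) (c (l 16709648) (l 16708504))) (a (b (l 16709688) (l 16712560)) (b (l 16711712) (l 16714584))))) (a (b (a (l 16695496) (l 16699904)) (a (l 16698464) (l 16702872))) (a (b (l 16704216) (l 16707192)) (b (l 16708424) (l 16711408))))) (a (c (a (a (b (l 16713712) (l 16716592)) (b (l 16715688) (l 16718568))) (a (b (l 16717648) (l 16720528)) (b (l 16719576) (l 16722456)))) (a (b (l 16712544) (l 16715528)) (b (l 16716560) (a (l 16718560) (l 16720544))))) (a (b (a (c (l 16721472) (l 16719504)) (c (l 16723352) (l 16721440))) (a (c (l 16724360) (l 16722504)) (c (l 16726240) (l 16724440)))) (b (a (c (l 16725208) (l 16723344)) (c (l 16727040) (l 16725232))) (a (c (l 16728096) (l 16726352)) (c (l 16729928) (l 16728240))))))), by decide +kernel⟩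

def k36_A00pp_022_s3 : ∃ t, chk3 f_A00pp_022_s3 t 32 247 1 = true :=
  ⟨(a (a (a (l 14) (c (a (c (l 16709104) (l 16707968)) (c (l 16711216) (l 16710112))) (b (l 16705848) (l 16708848)))) (c (a (a (c (l 16713304) (l 16712232)) (c (l 16715368) (l 16714328))) (a (b (l 16715448) (l 16718368)) (b (l 16717480) (l 16720400)))) (a (b (l 16710176) (l 16713184)) (b (l 16714400) (l 16720040))))) (a (a (b (a (c (l 16719480) (l 16717504)) (c (l 16721464) (l 16719544))) (a (c (l 16722416) (l 16720528)) (c (l 16724400) (l 16722576)))) (b (a (c (l 16723424) (l 16721560)) (c (l 16725352) (l 16723552))) (a (c (l 16726360) (l 16724592)) (c (l 16728296) (l 16726592))))) (a (b (a (c (l 16727264) (l 16725520)) (c (l 16729144) (l 16727456))) (a (c (l 16730208) (l 16728560)) (c (l 16732096) (l 16730504)))) (b (a (c (l 16731008) (l 16729376)) (c (l 16732840) (l 16731264))) (a (c (l 16733960) (l 16732424)) (c (l 16735792) (l 16734320))))))), by decide +kernel⟩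

def k37_A00pp_022_s3 : ∃ t, chk3 f_A00pp_022_s3 t 132 30 2 = true :=
  ⟨(b (b (b (a (b (l 16692232) (l 16694528)) (b (l 16695760) (l 16698064))) (a (b (l 16696904) (l 16699360)) (b (l 16700432) (l 16702880)))) (b (b (a (c (l 16707888) (l 16706368)) (l 16705400)) (a (c (l 16710456) (l 16709016)) (c (l 16713944) (l 16712552)))) (a (a (b (l 16711536) (l 16714304)) (b (l 16713312) (l 16716080))) (a (b (l 16715072) (l 16717840)) (b (l 16716800) (l 16719568)))))) (a (a (b (b (b (l 16717160) (l 16720096)) (b (l 16723040) (l 16725952))) (b (b (l 16728848) (l 16731736)) (b (l 16734656) (l 16737608)))) (b (b (b (l 16718936) (l 16721872)) (b (l 16724824) (l 16727728))) (b (b (l 16730624) (l 16733520)) (b (l 16736440) (l 16739400))))) (b (a (b (b (l 16720688) (l 16723624)) (b (l 16726576) (l 16729488))) (b (b (l 16722416) (l 16725352)) (b (l 16728304) (l 16731216)))) (b (a (b (l 16732384) (l 16735280)) (b (l 16734112) (l 16737008))) (a (b (l 16738200) (c (l 16741480) (l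 16740840))) (b (l 16739936) (c (l 16743208) (l 16742592)))))))), by decide +kernel⟩

def k38_A00pp_022_s3 : ∃ t, chk3 f_A00pp_022_s3 t 132 30 3 = true :=
  ⟨(b (b (b (a (b (l 16688408) (l 16696136)) (b (l 16692024) (l 16694512))) (a (b (l 16698696) (l 16696088)) (b (l 16697072) (l 16699704)))) (b (a (b (l 16698800) (l 16701592)) (b (l 16702408) (l 16705200))) (b (a (c (l 16710392) (l 16709016)) (l 16708064)) (a (c (l 16713296) (l 16712008)) (a (l 16715368) (l 16717144)))))) (b (b (a (a (b (l 16714768) (l 16717888)) (b (l 16716600) (l 16719712))) (a (b (l 16718400) (l 16721520)) (b (l 16720176) (l 16723296)))) (a (a (b (l 16721000) (l 16724064)) (b (l 16722832) (l 16725896))) (a (b (l 16724632) (l 16727696)) (b (l 16726416) (l 16729480))))) (b (a (a (b (l 16727088) (l 16730104)) (b (l 16728920) (l 16731944))) (a (b (l 16730728) (l 16733752)) (b (l 16732512) (l 16735544)))) (a (a (b (l 16733136) (l 16736192)) (b (l 16734976) (l 16738040))) (a (b (l 16736792) (l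 16739864)) (b (l 16738584) (l 16741656))))))), by decide +kernel⟩

def k39_A00pp_022_s3 : ∃ t, chk3 f_A00pp_022_s3 t 133 60 1 = true :=
  ⟨(c (a (b (b (b (l 16699216) (l 16701496)) (b (l 16703856) (l 16706304))) (b (b (l 16708824) (l 16711424)) (a (b (l 16718504) (l 16721272)) (b (l 16720184) (l 16722952))))) (b (b (b (l 16697384) (l 16704864)) (b (l 16707192) (l 16709616))) (b (b (l 16712136) (l 16714736)) (a (b (l 16721840) (l 16724608)) (b (l 16723472) (l 16726232)))))) (b (b (a (b (l 16695576) (l 16698032)) (b (l 16699072) (l 16701496))) (a (b (l 16700584) (l 16703216)) (b (l 16704008) (l 16706616)))) (b (a (b (l 16705920) (l 16708704)) (b (l 16709328) (l 16712112))) (b (a (l 16711568) (c (l 16720832) (l 16719600))) (a (a (l 16718896) (l 16720624)) (c (l 16723736) (l 16722592))))))), by decide +kernel⟩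

def k40_A00pp_022_s3 : ∃ t, chk3 f_A00pp_022_s3 t 133 61 1 = true :=
  ⟨(a (b (c (a (b (b (l 16724120) (l 16727056)) (b (l 16730008) (l 16732920))) (b (b (l 16725800) (l 16728736)) (b (l 16731688) (l 16734600)))) (a (b (b (l 16721928) (l 16725048)) (b (l 16728168) (l 16731232))) (b (b (l 16723656) (l 16726776)) (b (l 16729896) (l 16732968))))) (b (b (a (c (l 16735816) (l 16734272)) (c (l 16737496) (l 16736008))) (a (c (l 16738720) (l 16737304)) (c (l 16740400) (l 16739040)))) (b (a (c (l 16741648) (l 16740344)) (c (l 16740712) (l 16742088))) (a (a (l 531125263) (l 531015951)) (a (l 531040783) (l 531065615)))))) (b (c (a (b (b (l 16727456) (l 16730392)) (b (l 16733336) (l 16736256))) (b (b (l 16729080) (l 16732016)) (b (l 16734968) (l 16737880)))) (a (b (b (l 16725360) (l 16728480)) (b (l 16731600) (l 16734672))) (b (b (l 16727032) (l 16730152)) (b (l 16733280) (l 16736352))))) (a (b (a (c (l 531186959) (l 531252495)) (c (l 531478031) (l 531275535))) (a (c (l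 531254287) (l 531047951)) (c (l 531278607) (l 531072527)))) (b (a (c (l 531500559) (l 531298319)) (c (l 531523343) (l 531320847))) (a (c (l 531302927) (l 531097103)) (c (l 531327247) (l 531121935))))))), by decide +kernel⟩

def k41_A00pp_022_s3 : ∃ t, chk3 f_A00pp_022_s3 t 67 60 1 = true :=
  ⟨(c (b (b (a (a (a (l 16706256) (l 16707944)) (a (l 16709624) (l 16711304))) (a (b (l 16707576) (l 16709624)) (b (l 16710992) (l 16712968)))) (a (a (b (l 16710472) (l 16712872)) (b (l 16713752) (l 16716080))) (a (b (l 16717024) (l 16719288)) (b (l 16715056) (l 16722504))))) (b (b (a (a (l 16715360) (l 16718520)) (a (l 16721672) (l 16724824))) (a (a (c (l 16723816) (l 16722560)) (c (l 16726928) (l 16725720))) (a (c (l 16729992) (l 16728832)) (c (l 16733056) (l 16731944))))) (a (a (a (b (l 16725080) (l 16727840)) (b (l 16726656) (l 16729416))) (a (b (l 16728208) (l 16730976)) (b (l 16729744) (l 16732496)))) (a (a (b (l 16731264) (l 16734008)) (c (l 16729392) (l 16728384)))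 (a (c (l 16730880) (l 16729896)) (c (l 16732368) (l 16731408))))))) (b (b (a (a (b (l 16702568) (l 16704920)) (b (l 16700832) (l 16708360))) (a (a (l 16709824) (l 16711568)) (b (l 16707912) (l 16710040)))) (a (a (b (l 16707384) (l 16709960)) (b (l 16710760) (l 16713264))) (a (b (l 16714136) (l 16716584)) (b (l 16717536) (l 16719912))))) (b (b (a (a (l 16712632) (l 16715888)) (a (l 16719144) (l 16722400))) (a (a (c (l 16721288) (l 16720000)) (c (l 16724496) (l 16723256))) (a (c (l 16727656) (l 16726464)) (c (l 16730824) (l 16729680))))) (a (a (a (b (l 16722704) (l 16725656)) (b (l 16724328) (l 16727280))) (a (b (l 16725928) (l 16728880)) (b (l 16727504) (l 16730448)))) (a (a (b (l 16729072) (l 16732000)) (b (l 16730640) (l 16733536))) (a (b (l 16732208) (l 16735072)) (b (l 16733768) (l 16736608)))))))), by decide +kernel⟩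

def k42_A00pp_022_s3 : ∃ t, chk3 f_A00pp_022_s3 t 134 61 1 = true :=
  ⟨(a (b (a (b (c (b (l 16730688) (l 16733624)) (b (l 16728688) (l 16731808))) (c (b (l 16736568) (l 16739488)) (b (l 16734928) (l 16738008)))) (b (c (b (l 16732264) (l 16735200)) (b (l 16730312) (l 16733432))) (c (b (l 16738152) (l 16741064)) (b (l 16736560) (l 16739632))))) (a (b (a (c (l 531545615) (l 531343631)) (c (l 531568143) (l 531366159))) (a (c (l 531351567) (l 531146511)) (c (l 531375887) (l 531171087)))) (b (a (c (l 531590415) (l 531388431)) (c (l 531612687) (l 531410703))) (a (c (l 531399951) (l 531195663)) (c (l 531424271) (l 531219983)))))) (b (b (a (c (b (l 16733824) (l 16736752)) (b (l 16731912) (l 16735032))) (c (b (l 16735352) (l 16738280)) (b (l 16733488) (l 16736608)))) (a (c (b (l 16739704) (l 16742624)) (b (l 16738160) (l 16741240))) (c (b (l 16741232) (l 16744152)) (b (l 16739736) (l 16742816))))) (b (a (c (b (l 16740288) (l 531605007)) (b (l 16744296) (l 16742096)))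 (c (b (l 16741816) (l 531649807)) (b (l 16745872) (l 16743680)))) (a (c (a (l 531448335) (l 531472399)) (a (l 531244559) (l 531268879))) (c (a (l 531496463) (l 531520527)) (a (l 531293455) (l 531317519))))))), by decide +kernel⟩

def k43_A00pp_022_s3 : ∃ t, chk3 f_A00pp_022_s3 t 135 61 1 = true :=
  ⟨(b (a (b (a (c (b (l 16736848) (l 16739784)) (b (l 16735032) (l 16738160))) (c (b (l 16738328) (l 16741264)) (b (l 16736560) (l 16739680)))) (a (c (b (l 16742736) (l 16740416)) (b (l 16741288) (l 16744368))) (c (b (l 16738968) (l 16741888)) (b (l 16742808) (l 16740656))))) (b (a (c (b (l 16739800) (l 16737472)) (b (l 16738072) (l 16735936))) (c (b (l 16741248) (l 16738912)) (b (l 16739576) (l 16737416)))) (a (c (b (l 16740424) (l 531902223)) (b (l 16739064) (l 16742152))) (c (b (l 16741848) (l 531938831)) (b (l 16740536) (l 16743632)))))) (a (b (a (c (a (l 531721743) (l 531742991)) (b (l 16742184) (l 531493135))) (c (a (l 531764239) (l 531785231)) (b (l 16743712)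 (l 531536911)))) (a (c (a (l 531544335) (l 531568143)) (b (l 531405071) (l 531297295))) (c (b (l 531652623) (l 531549967)) (b (l 531451663) (l 531346703))))) (b (a (c (a (l 531805967) (l 531826447)) (a (l 531604239) (l 531624719))) (c (a (l 531846671) (l 531866895)) (a (l 531644943) (l 531664655)))) (b (a (c (l 531698447) (l 531497743)) (c (l 531743503) (l 531543311))) (a (c (l 531598351) (l 531395855)) (l 531277839)))))), by decide +kernel⟩

def k44_A00pp_022_s3 : ∃ t, chk3 f_A00pp_022_s3 t 68 60 1 = true :=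
  ⟨(a (b (b (a (c (b (l 16714432) (l 16716328)) (b (l 16711496) (l 16713552))) (c (b (l 16717896) (l 16719720)) (b (l 16715128) (l 16717096)))) (a (c (b (l 16718344) (b (l 16719936) (l 16721032))) (b (l 16720968) (l 16723256))) (c (b (l 16721664) (b (l 16723192) (l 16724256))) (b (l 16719184) (b (l 16720832) (l 16721968)))))) (a (b (c (a (c (l 16728920) (l 16727816)) (c (l 16730472) (l 16729392))) (b (l 16725680) (a (l 16732656) (l 16734264)))) (c (a (c (l 16733856) (l 16732920)) (b (l 16738840) (l 16736192))) (a (b (l 16735336) (l 16738144)) (b (l 16736912) (l 16739688))))) (c (b (a (b (l 16735592) (l 16737912)) (b (l 16726696) (l 16728984))) (a (b (l 16729872) (l 16737680)) (b (l 16731392) (l 16739168)))) (b (a (c (l 16729920) (l 16728840)) (c (l 16731536) (l 16730496))) (a (b (l 16738488) (l 16741224)) (b (l 16740072) (l 16737528))))))) (b (b (a (c (b (l 16721408) (l 16723144)) (b (l 16718816) (l 16720688))) (c (b (l 16713944) (l 16726624)) (b (l 16722576)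 (l 16724352)))) (a (c (b (l 16725008) (l 16726992)) (b (l 16722688) (b (l 16724272) (l 16725368)))) (c (b (l 16728400) (l 16730296)) (a (b (l 16714872) (l 16727416)) (b (l 16716672) (l 16729168)))))) (a (c (b (a (b (l 16728296) (l 16730544)) (b (l 16729896) (l 16732104))) (a (b (l 16732912) (l 16740656)) (b (l 16734440) (l 16742144)))) (b (a (b (l 16736720) (l 16739128)) (b (l 16738400) (l 16730280))) (a (b (l 16731176) (l 16739080)) (b (l 16732776) (l 16740640))))) (c (b (a (b (l 16731504) (l 16733680)) (l 532240911)) (a (b (l 16735976) (l 532408847)) (b (l 16737520) (l 532474639)))) (b (a (b (l 16729608) (l 16731928)) (b (l 16731312) (l 16733592))) (a (b (l 16734376) (l 16742208)) (b (l 16736000) (l 16743784)))))))), by decide +kernel⟩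

def k45_A00pp_022_s3 : ∃ t, chk3 f_A00pp_022_s3 t 136 61 1 = true :=
  ⟨(b (a (b (c (a (b (l 16737464) (l 16740336)) (b (l 16738920) (l 16741760))) (a (b (l 16741080) (l 16738888)) (b (l 16737344) (l 16740368)))) (a (c (b (l 532011535) (l 531973903)) (b (l 531797775) (l 531765775))) (c (b (l 532046607) (l 532008207)) (b (l 531831823) (l 531799055))))) (b (c (a (b (l 16740368) (l 532118031)) (b (l 16741824) (l 532160783))) (a (b (l 16738848) (l 531896847)) (b (l 16740360) (l 531939599)))) (c (a (b (l 532084495) (l 532043791)) (b (l 532125711) (l 532083215))) (a (b (l 531869199) (l 531833871)) (b (l 531910415) (l 531872783)))))) (a (b (c (a (b (l 531925263) (l 531863823)) (b (l 531961871) (l 531903503))) (a (b (l 531721231) (l 531662607)) (b (l 531757327) (l 531702031)))) (a (c (l 531474703) (l 531274511)) (c (l 531520015) (l 531319823)))) (b (c (a (b (l 531997199) (l 531941647)) (b (l 532033551) (l 531978255))) (a (b (l 531791631) (l 531739663)) (b (l 531827215)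 (l 531775503)))) (a (c (l 531564047) (l 531632655)) (c (l 531874831) (l 531675151)))))), by decide +kernel⟩

def k46_A00pp_022_s3 : ∃ t, chk3 f_A00pp_022_s3 t 137 61 1 = true :=
  ⟨(b (a (b (c (a (b (l 16743280) (l 532207631)) (b (l 16744736) (l 532259343))) (a (b (l 16741880) (l 531987215)) (b (l 16743400) (l 532039951)))) (c (a (b (l 532171279) (l 532126735)) (b (l 532221711) (l 532175375))) (a (b (l 531956239) (l 531916303)) (b (l 532007695) (l 531965711))))) (b (c (a (b (l 532356367) (l 532316687)) (b (l 532421135) (l 532380687))) (a (b (l 16744928) (l 532098831)) (b (l 16746464) (l 532165647)))) (c (a (l 531986703) (l 532050703)) (a (l 531776783) (l 531843087))))) (a (b (a (c (b (l 532074255) (l 532015119)) (b (l 531867919) (l 531811855))) (c (l 531821583) (b (l 531914767) (l 531854607)))) (c (a (l 531647247) (b (l 531989519) (l 531916559))) (a (l 531447055) (b (l 531788047) (l 531716623))))) (a (c (b (l 531873807) (c (l 531772431) (l 531673103))) (b (l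 531670287) (c (l 531572495) (l 531470607)))) (c (b (l 531936271) (a (l 532039439) (l 532069647))) (b (l 532003599) (a (l 531840271) (l 531871503))))))), by decide +kernel⟩

def k47_A00pp_022_s3 : ∃ t, chk3 f_A00pp_022_s3 t 69 60 1 = true :=
  ⟨(a (b (a (c (b (b (l 16724776) (l 16728016)) (b (l 16731152) (l 16733616))) (b (b (l 16715880) (l 16728048)) (b (l 16729856) (l 16731792)))) (c (b (b (l 16725184) (l 16728528)) (b (l 16731768) (l 16734904))) (b (b (l 16727184) (l 16730416)) (b (l 16733384) (l 16735224))))) (a (c (b (a (l 532449295) (l 532525583)) (a (l 532307727) (l 532381199))) (b (a (l 532092687) (l 532307215)) (a (l 532086799) (l 532164111)))) (c (b (a (l 532603919) (l 532567055)) (a (l 532456463) (l 532533519))) (b (a (l 532390159) (l 532475151)) (a (l 532243215) (l 532324623)))))) (b (a (c (b (b (l 16725680) (l 16729120)) (b (l 16732464) (l 16740944))) (b (b (l 16727472) (l 16730816)) (b (l 16734048) (l 16737176)))) (c (b (b (l 16736744) (l 16729816))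 (l 531870223)) (b (b (l 16727856) (l 16731312)) (b (l 16734664) (l 532364047))))) (a (c (b (a (l 532485903) (l 532402703)) (a (l 532590351) (l 532510991))) (b (a (l 532562703) (l 532603663)) (a (l 532408079) (l 532493583)))) (c (b (a (l 532317455) (l 532498447)) (a (l 532430095) (l 532347151))) (b (a (l 532513295) (l 532420623)) (a (l 532581391) (l 532538383))))))), by decide +kernel⟩

def k48_A00pp_022_s3 : ∃ t, chk3 f_A00pp_022_s3 t 69 61 1 = true :=
  ⟨(a (b (a (b (c (a (b (l 532491023) (l 532450831)) (l 532206351)) (a (b (l 532274191) (l 532238863)) (b (l 532349711) (l 532314383)))) (c (a (l 532389647) (l 532462095)) (a (l 532185615) (l 532261647)))) (b (c (b (l 532270863) (l 532096015)) (b (a (l 532427023) (l 532506127)) (a (l 532391439) (l 532470543)))) (c (a (l 532268047) (l 532612367)) (a (l 532339727) (l 532419599))))) (a (a (c (b (l 532275983) (l 532124175)) (b (l 532078351) (l 531928847))) (c (b (l 532349455) (l 532198671)) (b (l 532155663) (l 532007183))))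 (a (c (l 531884047) (a (l 531877391) (l 531917583))) (c (l 531894543) (l 531710479))))) (b (b (a (c (b (l 532558863) (l 532517903)) (b (l 532359695) (l 532323599))) (c (b (l 532446223) (l 532457999)) (b (l 532529423) (l 532492303)))) (a (c (a (l 532689679) (l 532768783)) (b (l 532293135) (l 532252687))) (c (l 532468495) (l 532176143)))) (a (b (c (l 532351247) (l 531903503)) (c (l 532204303) (l 532027663))) (c (b (l 532514831) (l 532638479)) (b (l 532345103) (l 532203279)))))), by decide +kernel⟩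

def k49_A00pp_022_s3 : ∃ t, chk3 f_A00pp_022_s3 t 70 30 1 = true :=
  ⟨(b (a (b (a (c (b (b (l 16737424) (l 16735840)) (l 531950095)) (b (b (l 16728328) (l 16737144)) (l 531858959))) (b (c (b (l 16738264) (l 16736768)) (b (l 16739464) (l 16737896))) (c (l 531750415) (l 531645711)))) (a (c (b (c (l 532048911) (l 532138511)) (a (l 532262159) (l 532175375))) (b (a (l 532325135) (l 532495375)) (a (l 532448783) (l 532356623)))) (c (b (a (l 532221199) (l 532123151)) (c (l 531997711) (l 532082703))) (b (a (l 532393999) (l 532289551)) (a (l 532262159) (l 532433167)))))) (b (a (b (c (l 531395087) (b (l 16735128) (l 16738840))) (c (a (l 531862799) (l 531758351)) (a (l 532015631) (l 531903759)))) (c (b (l 531203855) (l 531338511)) (b (l 531334671) (l 531339279)))) (b (a (c (l 531701519) (l 531857167)) (c (a (l 531810575) (l 531703567)) (a (l 531954959) (l 531840271)))) (a (c (a (l 532168975) (l 532071695)) (c (l 531971855) (l 532053519))) (c (b (l 531878927) (l 531956495))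 (c (l 531760655) (l 531835407))))))) (b (a (b (a (c (b (l 532283151) (l 532295695)) (b (l 532464399) (l 532471311))) (c (b (l 532113935) (l 532128271)) (b (l 532285455) (l 532294159)))) (a (c (a (l 532614415) (l 532530447)) (a (l 532781583) (l 532693007))) (c (l 532132879) (l 532288015)))) (b (b (a (c (l 532206095) (l 532098575)) (c (l 531752975) (l 531902223))) (a (c (l 532223759) (l 532111119)) (c (l 531776783) (l 531921935)))) (a (c (l 531957007) (l 532101647)) (c (l 532044303) (l 532177935))))) (b (a (a (c (l 532349199) (l 532504335)) (c (l 532174607) (l 532319503))) (a (c (l 532262927) (l 532128271)) (l 4))) (l 4)))), by decide +kernel⟩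

def k50_A00pp_022_s3 : ∃ t, chk3 f_A00pp_022_s3 t 71 30 1 = true :=
  ⟨(b (a (b (a (c (a (l 531400975) (l 531314447)) (a (l 531256591) (l 531433487))) (a (b (l 531230223) (l 531351823)) (l 531216143))) (b (a (c (a (l 531601679) (l 531506447)) (a (l 531731471) (l 531630095))) (a (l 531478543) (l 531401231))) (a (a (c (l 531758863) (l 531894543)) (b (l 531405327) (c (l 531689231) (l 531818511)))) (a (c (l 531555855) (l 531677711)) (l 531530767))))) (a (b (l 530570767) (l 531356431)) (b (l 530695439) (l 531211279)))) (b (a (b (b (a (c (a (l 531875599) (l 531771919)) (a (l 532015119) (l 531904271))) (c (a (a (l 531691791) (l 531632143)) (l 531571471)) (a (a (l 531818511) (l 531754255)) (l 531690511)))) (b (a (c (l 531588111) (l 531655695)) (c (a (l 531457039) (a (l 531640847) (l 531604239))) (a (c (l 531820303) (l 531884815)) (c (l 531712015) (l 531773199))))) (a (c (l 531861519) (l 531993103)) (a (l 531782159) (a (a (l 531720975) (l 4)) (l 4)))))) (a (c (l 531857935)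 (l 531980047)) (l 4))) (b (b (a (l 531520783) (l 531374607)) (b (b (l 531219471) (l 4)) (l 4))) (l 4))) (l 4))), by decide +kernel⟩

def k51_A00pp_022_s3 : ∃ t, chk3 f_A00pp_022_s3 t 64 124 1 = true :=
  ⟨(a (l 14) (a (b (b (a (l 14) (c (l 16719280) (l 16717304))) (l 14)) (l 14)) (a (b (b (c (l 16721344) (l 16719424)) (c (l 16724424) (l 16722592))) (l 14)) (b (b (b (l 16721704) (l 16723232)) (c (l 16726464) (l 16724696))) (b (c (l 16729728) (l 16728056)) (l 14)))))), by decide +kernel⟩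

def k52_A00pp_022_s3 : ∃ t, chk3 f_A00pp_022_s3 t 65 124 1 = true :=
  ⟨(b (a (a (b (a (c (l 16725392) (l 16723600)) (c (l 16727384) (l 16725648))) (a (c (l 16728480) (l 16726776)) (c (l 16730480) (l 16728832)))) (b (a (c (l 16729352) (l 16727672)) (c (l 16731288) (l 16729672))) (a (c (l 16732448) (l 16730864)) (c (a (l 16733904) (l 16734872)) (l 16732872))))) (a (b (a (c (l 16733208) (l 16731648)) (c (l 16735096) (l 16733600))) (c (a (a (l 16735832) (l 16736784)) (a (l 16737736) (l 16738672))) (a (l 16734848) (l 16736808)))) (c (a (a (b (l 16736496) (l 16739608)) (b (l 16737424) (l 16740536))) (a (b (l 16738344) (l 16741464)) (b (l 16739256) (l 16742376)))) (a (b (l 16735528) (l 16738736)) (b (l 16737432) (a (l 16740168) (l 16741112))))))) (a (a (a (c (a (b (l 16731248) (l 14)) (b (l 16732256) (l 16735720))) (b (l 16730144) (l 16733712))) (c (a (b (l 16733256) (l 16736720)) (b (l 16734248) (l 16737720))) (b (l 16732200) (l 16735784)))) (b (c (a (c (l 16736088)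 (l 16735352)) (c (l 16738024) (l 16737320))) (a (l 16734240) (l 16736248))) (a (a (c (l 16738704) (l 16737312)) (c (l 16739688) (l 16738328))) (a (c (l 16740664) (l 16739336)) (c (l 16741632) (l 16740344)))))) (a (a (a (a (a (l 530177039) (l 530183183)) (a (l 530189327) (l 530061327))) (a (b (l 530151183) (l 529990159)) (b (l 530163727) (l 530002447)))) (a (a (b (l 530176015) (l 530014991)) (b (l 530188559) (l 530027279))) (a (b (l 530200847) (l 530039823)) (b (l 530213391) (l 530052111))))) (a (a (a (b (l 530225679) (l 530064655)) (b (l 530238223) (l 530076943))) (a (c (l 530289679) (l 530048527)) (c (l 530301967) (l 530061071)))) (a (a (c (l 530314511) (l 530073615)) (c (l 530326799) (l 530086159))) (a (c (l 530339087) (l 530098703)) (c (l 530351631) (l 530111247)))))))), by decide +kernel⟩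

def k53_A00pp_022_s3 : ∃ t, chk3 f_A00pp_022_s3 t 32 125 1 = true :=
  ⟨(a (l 14) (a (b (a (l 14) (b (b (a (c (l 16741936) (l 16740648)) (c (l 16743888) (l 16742672))) (a (c (l 16743824) (l 16742600)) (c (l 16745784) (l 16744624)))) (a (l 14) (c (a (c (l 16748488) (l 16747960)) (a (l 529747983) (l 529760271))) (b (l 16746632) (l 16748696)))))) (l 14)) (a (a (a (b (a (b (l 529937935) (c (l 529772559) (l 529508879))) (b (l 529816079) (l 529720847))) (l 14)) (b (a (b (l 529828367) (l 529666063)) (b (l 529840911) (l 529678351))) (b (a (l 529503247) (l 529515535)) (l 14)))) (a (b (a (b (l 529853199) (l 529690895)) (b (l 529865487) (l 529703183))) (b (a (l 529527823) (l 529540111)) (l 14))) (b (a (b (l 529878031) (l 529715471)) (b (l 529890319) (l 529728015))) (a (b (l 529552399) (l 14)) (b (l 529564943) (l 529401103)))))) (a (a (b (a (b (l 529902863) (l 529740303)) (b (l 529915151) (l 529752591))) (a (b (l 529577231) (l 529413391)) (b (l 529589519) (l 529425679))))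 (b (a (b (l 529927439) (l 529765135)) (b (l 529939983) (l 529777423))) (a (b (l 529601807) (l 529437967)) (b (l 529614351) (l 529450511))))) (a (b (a (b (l 529952271) (l 529789967)) (b (l 529964815) (l 529802255))) (a (b (l 529626639) (l 529462799)) (b (l 529638927) (l 529475087)))) (b (a (c (l 530023439) (l 529766415)) (c (l 530035983) (l 529778959))) (a (b (l 529651471) (l 529487631)) (b (l 529663759) (l 529499919))))))))), by decide +kernel⟩

def k54_A00pp_022_s3 : ∃ t, chk3 f_A00pp_022_s3 t 66 124 1 = true :=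
  ⟨(b (a (b (a (c (a (c (l 16740944) (l 16740296)) (c (l 16742720) (l 16742104))) (a (l 16739304) (l 16738536))) (a (a (c (l 16743736) (l 16742528)) (a (l 530769679) (l 530782223))) (a (a (l 530794767) (l 530807567)) (l 530960399)))) (a (a (a (c (l 16743288) (l 16742056)) (c (l 16744192) (l 16742992))) (a (c (l 16745088) (l 16743920)) (c (l 16745984) (l 16744840)))) (a (a (l 530592527) (l 530617615)) (a (l 530642959) (l 530668047))))) (a (a (a (b (l 530851343) (l 530693391)) (b (l 530876687) (l 530718479))) (a (b (l 530901775) (l 530743823)) (b (l 530927119) (l 530769167)))) (a (a (b (l 530952463) (l 530794255)) (b (l 530977551) (l 530819599))) (a (b (l 531002895) (l 530844943)) (b (l 531028239) (l 530870287)))))) (a (a (a (a (a (b (l 530325519) (l 530164239)) (l 530391311)) (a (l 530403855) (l 530281999))) (a (a (l 530294543) (l 530307087)) (a (l 530319631) (l 530332175)))) (a (a (a (l 530344719) (l 530357263)) (a (l 530369807) (l 530382351))) (a (a (l 530394895)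 (l 530407439)) (a (l 530419983) (l 530432527))))) (a (a (a (c (l 530568975) (l 530331919)) (c (l 530593807) (l 530357519))) (a (c (l 530618895) (l 530382863)) (a (l 530520591) (l 530533135)))) (a (a (l 530552079) (l 530577167)) (a (l 530602511) (l 530627855)))))), by decide +kernel⟩

def k55_A00pp_022_s3 : ∃ t, chk3 f_A00pp_022_s3 t 66 125 1 = true :=
  ⟨(a (a (a (a (b (a (b (l 530002191) (l 529839631)) (c (l 530060559) (l 529804047))) (a (b (l 529676303) (l 529512207)) (b (l 529688591) (l 529524751)))) (b (a (c (l 530072847) (l 529816591)) (l 530159375)) (a (b (l 529701135) (l 529537039)) (b (l 529713423) (l 529549327))))) (a (b (a (l 530104591) (l 530117135)) (a (b (l 529725967) (l 529561871)) (b (l 529738255) (l 529574159)))) (b (a (l 529995279) (l 530007823)) (a (b (l 529750799) (l 529586703)) (b (l 529763087) (l 529598991)))))) (a (b (a (a (l 530020367) (l 530032655)) (a (l 530045199) (l 530057743))) (a (b (a (l 529775631) (l 529788175)) (a (l 529611535)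 (l 529623823))) (b (a (l 529800463) (l 529813007)) (a (l 529636367) (l 529648911))))) (a (b (a (l 530070287) (l 530082831)) (a (b (l 529825551) (l 529661199)) (l 529755663))) (b (a (l 530095375) (l 530107919)) (a (l 529768207) (l 529780495)))))) (a (a (a (b (a (l 530120463) (l 530133007)) (a (l 529793039) (l 529805583))) (b (a (l 530145551) (l 530158095)) (a (l 529818127) (l 529830671)))) (a (b (c (l 530302479) (l 530049551)) (a (l 529842959) (l 529855503))) (b (c (l 530327311) (l 530074639)) (b (l 529956623) (l 529792271))))) (a (a (b (l 530226959) (c (l 530033167) (l 529763855))) (b (l 530252047) (l 529924367))) (a (b (l 530277391) (l 529949455)) (b (l 530302479) (l 529974799)))))), by decide +kernel⟩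

def k56_A00pp_022_s3 : ∃ t, chk3 f_A00pp_022_s3 t 67 62 1 = true :=
  ⟨(b (a (a (a (b (b (a (l 531053583) (l 531079183)) (a (l 530895887) (l 530921231))) (a (l 530653199) (l 530678543))) (b (b (a (l 531104527) (l 531129871)) (a (l 530946575) (l 530972175))) (a (l 530703887) (l 530729231)))) (b (a (b (a (l 531155215) (l 531180815)) (l 531010063)) (b (a (l 531206159) (l 531231759)) (l 531061263))) (a (a (l 530754831) (l 530780175)) (a (l 530805775) (l 530831119))))) (a (b (a (b (c (l 531373327) (l 531164431)) (l 531112463)) (b (c (l 531424015) (l 531216143)) (l 531163663))) (a (a (l 530856719) (l 530882319)) (l 530383631))) (b (a (b (l 530969103) (l 531215119)) (b (l 531154447) (l 531266575))) (a (l 530971663) (l 531022863))))) (b (a (a (a (a (l 530327823) (l 530353167)) (a (l 530378511) (l 530403599))) (a (a (l 530428943) (l 530454543)) (a (l 530479887) (l 530505231)))) (a (a (a (l 530530575) (l 530556175)) (a (l 530581775) (l 530607119))) (a (l 530645263) (l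 530696463)))) (a (a (a (a (l 529999887) (l 530024975)) (a (l 530050319) (l 530075407))) (a (a (l 530100751) (l 4)) (l 4))) (l 4)))), by decide +kernel⟩

def k57_A00pp_022_s3 : ∃ t, chk3 f_A00pp_022_s3 t 16 63 1 = true :=
  ⟨(b (b (a (b (a (l 14) (a (l 14) (a (l 14) (a (l 14) (a (a (l 529298191) (l 529310735)) (a (l 529323023) (l 529335311))))))) (l 14)) (a (a (a (b (a (a (a (l 529347599) (l 529360143)) (a (l 529372431) (l 529384719))) (a (a (l 529397263) (l 529409551)) (a (l 529422095) (l 529434383)))) (a (a (a (l 14) (l 529194767)) (a (l 529207055) (l 529219599))) (a (a (l 529231887) (l 529244175)) (a (l 529256719) (l 529269007))))) (b (a (a (a (l 529446671) (l 529459215)) (a (l 529471503) (l 529484047))) (a (c (l 529643791) (l 529359631)) (c (l 529400079) (l 529384719)))) (a (b (a (l 529328911) (l 529353743)) (l 4)) (l 4)))) (b (b (a (a (a (l 529593615) (l 529618447)) (a (l 529643535) (l 4))) (l 4)) (l 4)) (l 4))) (l 4))) (a (l 14) (l 4))) (a (l 14) (l 4))),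 by decide +kernel⟩

def k58_A00pp_022_s3 : ∃ t, chk3 f_A00pp_022_s3 t 17 31 1 = true :=
  ⟨(b (b (a (a (a (a (b (b (a (l 531205391) (c (l 531626255) (l 531421967))) (a (l 531318031) (l 531369743))) (a (l 531074319) (l 531126031))) (b (b (a (c (l 531676431) (l 531473423)) (c (l 531726607) (l 531524367))) (a (l 531421455) (l 531473167))) (a (l 531177487) (l 531229199)))) (a (a (b (b (c (l 531776015) (l 531574543)) (l 531525135)) (l 531281167)) (b (b (c (l 531567375) (l 531367951)) (l 531577359)) (l 531333135))) (b (b (c (a (b (l 531894543) (l 531852815)) (c (l 531962127) (l 531863311))) (a (b (l 531694607) (l 531652879)) (c (l 531763215) (l 531661583)))) (a (l 531629327) (a (l 531668751) (a (a (l 531685135) (l 4)) (l 4))))) (l 4)))) (b (b (a (a (c (a (l 531985167) (l 532060431)) (a (l 531788303) (l 531867663))) (a (b (l 532068623) (l 4)) (l 4))) (l 4)) (l 4)) (l 4))) (l 4)) (l 4)) (l 4)), by decide +kernel⟩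

def k59_A00pp_022_s3 : ∃ t, chk3 f_A00pp_022_s3 t 9 15 1 = true :=
  ⟨(b (b (a (a (a (a (b (a (l 530551823) (l 530408207)) (a (l 531066383) (l 530921231))) (b (a (l 530533135) (l 530389775)) (a (l 530776335) (l 530631695)))) (a (b (a (l 530246671) (l 530103311)) (a (l 530486799) (l 4))) (b (a (l 529960463) (l 529817615)) (l 4)))) (a (a (b (a (l 529674767) (l 529532175)) (l 4)) (l 4)) (l 4))) (l 4)) (l 4)) (l 4)), by decide +kernel⟩

def k60_A00pp_022_s3 : ∃ t, chk3 f_A00pp_022_s3 t 20 56 1 = true :=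
  ⟨(a (a (a (b (c (l 524989967) (l 524873487)) (c (a (l 525219343) (l 525102351)) (a (l 525112079) (l 524990991)))) (b (l 524696335) (a (l 524928015) (l 524809999)))) (b (a (l 524463119) (b (l 524190223) (l 524273935))) (a (c (l 524697359) (l 524570895)) (b (l 524358671) (c (l 524510991) (l 524377871)))))) (b (a (a (b (l 523962127) (l 524045071)) (b (l 523736079) (l 523818511))) (a (b (l 523512591) (l 523593999)) (b (l 523291407) (l 523372047)))) (a (a (b (c (l 524201231) (l 524056591)) (c (l 524284431) (l 524143375))) (b (c (l 523977999) (l 523825167)) (c (l 524060431) (l 523911183)))) (a (b (c (l 523756815) (l 523596047)) (l 4)) (l 4))))), by decide +kernel⟩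

def k61_A00pp_022_s3 : ∃ t, chk3 f_A00pp_022_s3 t 20 57 1 = true :=
  ⟨(a (b (a (a (b (a (c (l 525350159) (l 525248271)) (c (l 525232655) (l 525126415))) (c (a (b (l 525416719) (l 525461263)) (b (l 525298703) (a (l 525372687) (l 525313807)))) (a (b (l 525317135) (l 525363471)) (b (l 525195023) (a (l 525271567) (l 525210639)))))) (b (a (l 525060367) (l 524941839)) (a (a (c (l 525232911) (l 525126671)) (l 525120271)) (c (l 525086735) (l 524975119))))) (a (b (c (l 524825359) (l 524704271)) (a (c (l 524970511) (l 524854799)) (c (l 524854799) (l 524734735)))) (b (c (a (l 524653327) (l 524539151)) (a (l 524525839) (l 524407567))) (l 4)))) (a (a (a (c (b (b (b (l 525495055) (l 525517583)) (l 525551631)) (l 525620239)) (b (b (b (l 525398287) (l 525421583)) (l 525456911)) (l 525527823))) (b (b (c (b (a (l 525406479) (a (l 525362191) (l 525332751))) (b (c (l 525418767) (l 525368591)) (l 525404943))) (b (a (l 525306383) (a (l 525260559) (l 525230095))) (b (a (l 525323791)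 (c (l 525287951) (l 525237263))) (l 525304847)))) (c (l 525433103) (l 525334031))) (l 4))) (b (b (a (a (a (c (b (l 525303311) (c (l 525351439) (l 525299983))) (b (l 525199631) (c (l 525248527) (l 525197071)))) (b (l 525221391) (b (l 525238543) (l 4)))) (b (l 525176591) (b (l 525193743) (l 4)))) (b (c (l 525142031) (l 525032463)) (l 4))) (l 4)) (l 4))) (l 4))) (b (b (a (a (a (b (l 524335887) (l 4)) (l 4)) (l 4)) (l 4)) (l 4)) (l 4))), by decide +kernel⟩

def k62_A00pp_022_s3 : ∃ t, chk3 f_A00pp_022_s3 t 21 28 1 = true :=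
  ⟨(a (b (a (b (b (a (l 523072527) (l 522855951)) (l 4)) (l 4)) (l 4)) (l 4)) (l 4)), by decide +kernel⟩

def k63_A00pp_022_s3 : ∃ t, chk3 f_A00pp_022_s3 t 11 28 1 = true :=
  ⟨(l 4), by decide +kernel⟩

def k64_A00pp_022_s3 : ∃ t, chk3 f_A00pp_022_s3 t 5 29 1 = true :=
  ⟨(l 4), by decide +kernel⟩

def k65_A00pp_022_s3 : ∃ t, chk3 f_A00pp_022_s3 t 5 15 1 = true :=
  ⟨(l 4), by decide +kernel⟩

def k66_A00pp_022_s3 : ∃ t, chk3 f_A00pp_022_s3 t 6 4 1 = true :=
  ⟨(a (b (a (l 6) (a (l 6) (a (l 6) (b (l 6) (a (l 513069327) (l 512970511)))))) (a (b (a (l 6) (a (l 15345504) (l 15380072))) (a (a (l 15516840) (l 15549424)) (b (l 15500768) (l 15660304)))) (a (b (b (l 513767183) (l 513915407)) (b (l 15622128) (l 514215183))) (a (b (l 513520399) (l 513820175)) (b (l 513319695) (l 513619983)))))) (a (b (a (b (l 6) (c (a (l 15343360) (l 512961807)) (a (l 15305456) (l 15348712)))) (a (b (l 6) (c (l 512794639) (l 15393384))) (c (b (b (l 6) (l 15281712)) (l 512637711)) (b (l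 511664911) (l 511984143))))) (b (c (a (b (l 15531296) (l 15674672)) (b (l 512943375) (l 513093903))) (a (l 512725007) (l 512377103))) (a (c (l 513645583) (l 513030671)) (b (l 512926223) (l 513076239))))) (a (a (b (c (b (b (l 6) (l 15327696)) (l 512491023)) (b (l 511506447) (l 511829519))) (b (b (l 512395791) (l 512548879)) (l 512774671))) (b (l 2) (b (l 2) (l 512636943)))) (l 2)))), by decide +kernel⟩

def k67_A00pp_022_s3 : ∃ t, chk3 f_A00pp_022_s3 t 6 5 1 = true :=
  ⟨(a (b (a (b (a (b (l 15705736) (l 15818512)) (b (l 15776088) (l 15916240))) (a (l 516267535) (a (l 515345167) (l 515100943)))) (b (a (a (l 514555663) (l 514333967)) (b (l 513945103) (l 514096655))) (a (b (l 514675215) (l 514831887)) (a (l 514428943) (l 514225423))))) (a (b (a (b (l 515977999) (l 516148239)) (b (l 515464463) (l 515630095))) (a (a (l 516550159) (l 516277007)) (b (l 515799567) (l 515972623)))) (b (a (b (l 514990863) (l 515152143)) (b (l 514557967) (l 514714639))) (a (b (l 515316239)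 (l 515483407)) (a (l 515061263) (l 514848271)))))) (b (a (b (a (b (l 513564431) (l 513714191)) (b (l 513224975) (l 513372943))) (a (l 514744591) (b (l 513520399) (l 513667087)))) (a (b (b (l 512927247) (l 513073167)) (b (l 513217551) (l 513360911))) (a (b (l 512802831) (l 513087759)) (l 2)))) (a (b (a (b (l 514165519) (l 514317327)) (b (l 513814031) (l 513960975))) (a (b (l 514470671) (l 514625295)) (b (l 514108687) (l 4)))) (b (a (b (l 513503503) (l 513645583)) (b (l 513234191) (l 513371151))) (a (b (l 513787407) (l 4)) (l 4)))))), by decide +kernel⟩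

def k68_A00pp_022_s3 : ∃ t, chk3 f_A00pp_022_s3 t 7 2 1 = true :=
  ⟨(b (l 2) (b (l 2) (b (l 2) (l 4)))), by decide +kernel⟩

def k69_A00pp_022_s3 : ∃ t, chk3 f_A00pp_022_s3 t 3 3 1 = true :=
  ⟨(b (b (a (a (a (b (a (a (l 516921103) (l 516641551)) (b (l 516149775) (l 516331279))) (a (b (a (l 517212431) (l 516926991)) (a (l 517414927) (l 4))) (b (l 516517903) (l 4)))) (b (a (b (l 515653903) (l 515828239)) (a (l 515392527) (l 515172623))) (l 4))) (l 4)) (l 4)) (l 4)) (l 4)), by decide +kernel⟩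

theorem t70_A00pp_022_s3 : ∃ t, chk3 f_A00pp_022_s3 t 6 2 1 = true := ex3_b k66_A00pp_022_s3 k67_A00pp_022_s3

theorem t71_A00pp_022_s3 : ∃ t, chk3 f_A00pp_022_s3 t 3 2 1 = true := ex3_a t70_A00pp_022_s3 k68_A00pp_022_s3

theorem t72_A00pp_022_s3 : ∃ t, chk3 f_A00pp_022_s3 t 3 1 1 = true := ex3_b t71_A00pp_022_s3 k69_A00pp_022_s3

theorem t73_A00pp_022_s3 : ∃ t, chk3 f_A00pp_022_s3 t 20 28 1 = true := ex3_b k60_A00pp_022_s3 k61_A00pp_022_s3

theorem t74_A00pp_022_s3 : ∃ t, chk3 f_A00pp_022_s3 t 10 28 1 = true := ex3_a t73_A00pp_022_s3 k62_A00pp_022_s3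

theorem t75_A00pp_022_s3 : ∃ t, chk3 f_A00pp_022_s3 t 5 28 1 = true := ex3_a t74_A00pp_022_s3 k63_A00pp_022_s3

theorem t76_A00pp_022_s3 : ∃ t, chk3 f_A00pp_022_s3 t 5 14 1 = true := ex3_b t75_A00pp_022_s3 k64_A00pp_022_s3

theorem t77_A00pp_022_s3 : ∃ t, chk3 f_A00pp_022_s3 t 5 7 1 = true := ex3_b t76_A00pp_022_s3 k65_A00pp_022_s3

theorem t78_A00pp_022_s3 : ∃ t, chk3 f_A00pp_022_s3 t 66 62 1 = true := ex3_b k54_A00pp_022_s3 k55_A00pp_022_s3

theorem t79_A00pp_022_s3 : ∃ t, chk3 f_A00pp_022_s3 t 33 62 1 = true := ex3_a t78_A00pp_022_s3 k56_A00pp_022_s3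

theorem t80_A00pp_022_s3 : ∃ t, chk3 f_A00pp_022_s3 t 32 124 1 = true := ex3_a k51_A00pp_022_s3 k52_A00pp_022_s3

theorem t81_A00pp_022_s3 : ∃ t, chk3 f_A00pp_022_s3 t 32 62 1 = true := ex3_b t80_A00pp_022_s3 k53_A00pp_022_s3

theorem t82_A00pp_022_s3 : ∃ t, chk3 f_A00pp_022_s3 t 16 62 1 = true := ex3_a t81_A00pp_022_s3 t79_A00pp_022_s3

theorem t83_A00pp_022_s3 : ∃ t, chk3 f_A00pp_022_s3 t 16 31 1 = true := ex3_b t82_A00pp_022_s3 k57_A00pp_022_s3

theorem t84_A00pp_022_s3 : ∃ t, chk3 f_A00pp_022_s3 t 8 31 1 = true := ex3_a t83_A00pp_022_s3 k58_A00pp_022_s3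

theorem t85_A00pp_022_s3 : ∃ t, chk3 f_A00pp_022_s3 t 35 30 1 = true := ex3_a k49_A00pp_022_s3 k50_A00pp_022_s3

theorem t86_A00pp_022_s3 : ∃ t, chk3 f_A00pp_022_s3 t 69 30 1 = true := ex3_b k47_A00pp_022_s3 k48_A00pp_022_s3

theorem t87_A00pp_022_s3 : ∃ t, chk3 f_A00pp_022_s3 t 68 61 1 = true := ex3_a k45_A00pp_022_s3 k46_A00pp_022_s3

theorem t88_A00pp_022_s3 : ∃ t, chk3 f_A00pp_022_s3 t 68 30 1 = true := ex3_b k44_A00pp_022_s3 t87_A00pp_022_s3

theorem t89_A00pp_022_s3 : ∃ t, chk3 f_A00pp_022_s3 t 34 30 1 = true := ex3_a t88_A00pp_022_s3 t86_A00pp_022_s3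

theorem t90_A00pp_022_s3 : ∃ t, chk3 f_A00pp_022_s3 t 17 30 1 = true := ex3_a t89_A00pp_022_s3 t85_A00pp_022_s3

theorem t91_A00pp_022_s3 : ∃ t, chk3 f_A00pp_022_s3 t 67 61 1 = true := ex3_a k42_A00pp_022_s3 k43_A00pp_022_s3

theorem t92_A00pp_022_s3 : ∃ t, chk3 f_A00pp_022_s3 t 67 30 1 = true := ex3_b k41_A00pp_022_s3 t91_A00pp_022_s3

theorem t93_A00pp_022_s3 : ∃ t, chk3 f_A00pp_022_s3 t 133 30 1 = true := ex3_b k39_A00pp_022_s3 k40_A00pp_022_s3

theorem t94_A00pp_022_s3 : ∃ t, chk3 f_A00pp_022_s3 t 132 30 1 = true := ex3_c k37_A00pp_022_s3 k38_A00pp_022_s3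

theorem t95_A00pp_022_s3 : ∃ t, chk3 f_A00pp_022_s3 t 66 30 1 = true := ex3_a t94_A00pp_022_s3 t93_A00pp_022_s3

theorem t96_A00pp_022_s3 : ∃ t, chk3 f_A00pp_022_s3 t 33 30 1 = true := ex3_a t95_A00pp_022_s3 t92_A00pp_022_s3

theorem t97_A00pp_022_s3 : ∃ t, chk3 f_A00pp_022_s3 t 32 123 1 = true := ex3_b k35_A00pp_022_s3 k36_A00pp_022_s3

theorem t98_A00pp_022_s3 : ∃ t, chk3 f_A00pp_022_s3 t 32 61 1 = true := ex3_b k34_A00pp_022_s3 t97_A00pp_022_s3

theorem t99_A00pp_022_s3 : ∃ t, chk3 f_A00pp_022_s3 t 32 60 1 = true := ex3_b k32_A00pp_022_s3 k33_A00pp_022_s3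

theorem t100_A00pp_022_s3 : ∃ t, chk3 f_A00pp_022_s3 t 32 30 1 = true := ex3_b t99_A00pp_022_s3 t98_A00pp_022_s3

theorem t101_A00pp_022_s3 : ∃ t, chk3 f_A00pp_022_s3 t 16 30 1 = true := ex3_a t100_A00pp_022_s3 t96_A00pp_022_s3

theorem t102_A00pp_022_s3 : ∃ t, chk3 f_A00pp_022_s3 t 8 30 1 = true := ex3_a t101_A00pp_022_s3 t90_A00pp_022_s3

theorem t103_A00pp_022_s3 : ∃ t, chk3 f_A00pp_022_s3 t 8 15 1 = true := ex3_b t102_A00pp_022_s3 t84_A00pp_022_s3

theorem t104_A00pp_022_s3 : ∃ t, chk3 f_A00pp_022_s3 t 4 15 1 = true := ex3_a t103_A00pp_022_s3 k59_A00pp_022_s3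

theorem t105_A00pp_022_s3 : ∃ t, chk3 f_A00pp_022_s3 t 19 58 1 = true := ex3_b k29_A00pp_022_s3 k30_A00pp_022_s3

theorem t106_A00pp_022_s3 : ∃ t, chk3 f_A00pp_022_s3 t 19 29 1 = true := ex3_b t105_A00pp_022_s3 k31_A00pp_022_s3

theorem t107_A00pp_022_s3 : ∃ t, chk3 f_A00pp_022_s3 t 19 28 1 = true := ex3_a k27_A00pp_022_s3 k28_A00pp_022_s3

theorem t108_A00pp_022_s3 : ∃ t, chk3 f_A00pp_022_s3 t 19 14 1 = true := ex3_b t107_A00pp_022_s3 t106_A00pp_022_s3

theorem t109_A00pp_022_s3 : ∃ t, chk3 f_A00pp_022_s3 t 37 14 1 = true := ex3_b k25_A00pp_022_s3 k26_A00pp_022_s3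

theorem t110_A00pp_022_s3 : ∃ t, chk3 f_A00pp_022_s3 t 36 14 1 = true := ex3_b k23_A00pp_022_s3 k24_A00pp_022_s3

theorem t111_A00pp_022_s3 : ∃ t, chk3 f_A00pp_022_s3 t 18 14 1 = true := ex3_a t110_A00pp_022_s3 t109_A00pp_022_s3

theorem t112_A00pp_022_s3 : ∃ t, chk3 f_A00pp_022_s3 t 9 14 1 = true := ex3_a t111_A00pp_022_s3 t108_A00pp_022_s3

theorem t113_A00pp_022_s3 : ∃ t, chk3 f_A00pp_022_s3 t 35 29 1 = true := ex3_a k21_A00pp_022_s3 k22_A00pp_022_s3

theorem t114_A00pp_022_s3 : ∃ t, chk3 f_A00pp_022_s3 t 34 29 1 = true := ex3_a k19_A00pp_022_s3 k20_A00pp_022_s3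

theorem t115_A00pp_022_s3 : ∃ t, chk3 f_A00pp_022_s3 t 17 29 1 = true := ex3_a t114_A00pp_022_s3 t113_A00pp_022_s3

theorem t116_A00pp_022_s3 : ∃ t, chk3 f_A00pp_022_s3 t 16 119 1 = true := ex3_a k17_A00pp_022_s3 k18_A00pp_022_s3

theorem t117_A00pp_022_s3 : ∃ t, chk3 f_A00pp_022_s3 t 16 118 1 = true := ex3_b k15_A00pp_022_s3 k16_A00pp_022_s3

theorem t118_A00pp_022_s3 : ∃ t, chk3 f_A00pp_022_s3 t 16 59 1 = true := ex3_b t117_A00pp_022_s3 t116_A00pp_022_s3

theorem t119_A00pp_022_s3 : ∃ t, chk3 f_A00pp_022_s3 t 16 117 1 = true := ex3_a k13_A00pp_022_s3 k14_A00pp_022_s3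

theorem t120_A00pp_022_s3 : ∃ t, chk3 f_A00pp_022_s3 t 16 58 1 = true := ex3_b k12_A00pp_022_s3 t119_A00pp_022_s3

theorem t121_A00pp_022_s3 : ∃ t, chk3 f_A00pp_022_s3 t 16 29 1 = true := ex3_b t120_A00pp_022_s3 t118_A00pp_022_s3

theorem t122_A00pp_022_s3 : ∃ t, chk3 f_A00pp_022_s3 t 8 29 1 = true := ex3_a t121_A00pp_022_s3 t115_A00pp_022_s3

theorem t123_A00pp_022_s3 : ∃ t, chk3 f_A00pp_022_s3 t 8 57 1 = true := ex3_b k10_A00pp_022_s3 k11_A00pp_022_s3

theorem t124_A00pp_022_s3 : ∃ t, chk3 f_A00pp_022_s3 t 8 28 1 = true := ex3_b k9_A00pp_022_s3 t123_A00pp_022_s3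

theorem t125_A00pp_022_s3 : ∃ t, chk3 f_A00pp_022_s3 t 8 14 1 = true := ex3_b t124_A00pp_022_s3 t122_A00pp_022_s3

theorem t126_A00pp_022_s3 : ∃ t, chk3 f_A00pp_022_s3 t 4 14 1 = true := ex3_a t125_A00pp_022_s3 t112_A00pp_022_s3

theorem t127_A00pp_022_s3 : ∃ t, chk3 f_A00pp_022_s3 t 4 7 1 = true := ex3_b t126_A00pp_022_s3 t104_A00pp_022_s3

theorem t128_A00pp_022_s3 : ∃ t, chk3 f_A00pp_022_s3 t 2 7 1 = true := ex3_a t127_A00pp_022_s3 t77_A00pp_022_s3

theorem t129_A00pp_022_s3 : ∃ t, chk3 f_A00pp_022_s3 t 10 6 1 = true := ex3_b k6_A00pp_022_s3 k7_A00pp_022_s3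

theorem t130_A00pp_022_s3 : ∃ t, chk3 f_A00pp_022_s3 t 5 6 1 = true := ex3_a t129_A00pp_022_s3 k8_A00pp_022_s3

theorem t131_A00pp_022_s3 : ∃ t, chk3 f_A00pp_022_s3 t 8 27 1 = true := ex3_b k3_A00pp_022_s3 k4_A00pp_022_s3

theorem t132_A00pp_022_s3 : ∃ t, chk3 f_A00pp_022_s3 t 8 13 1 = true := ex3_b k2_A00pp_022_s3 t131_A00pp_022_s3

theorem t133_A00pp_022_s3 : ∃ t, chk3 f_A00pp_022_s3 t 8 6 1 = true := ex3_b k1_A00pp_022_s3 t132_A00pp_022_s3

theorem t134_A00pp_022_s3 : ∃ t, chk3 f_A00pp_022_s3 t 4 6 1 = true := ex3_a t133_A00pp_022_s3 k5_A00pp_022_s3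

theorem t135_A00pp_022_s3 : ∃ t, chk3 f_A00pp_022_s3 t 2 6 1 = true := ex3_a t134_A00pp_022_s3 t130_A00pp_022_s3

theorem t136_A00pp_022_s3 : ∃ t, chk3 f_A00pp_022_s3 t 2 3 1 = true := ex3_b t135_A00pp_022_s3 t128_A00pp_022_s3

theorem t137_A00pp_022_s3 : ∃ t, chk3 f_A00pp_022_s3 t 2 1 1 = true := ex3_b k0_A00pp_022_s3 t136_A00pp_022_s3

theorem t138_A00pp_022_s3 : ∃ t, chk3 f_A00pp_022_s3 t 1 1 1 = true := ex3_a t137_A00pp_022_s3 t72_A00pp_022_s3

theorem c_A00pp_022_s3 : CertF 0 536870912 0 536870912 1020054732 13421774 true true true .pp 0 2 2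
    ndB0q0 ndB0q2 pcB2 cut_A00pp_022_s3 xt_A00pp_022_s3 :=
  certF0 (fam := true) (s1 := true) (s2 := true) (a := 0) (b := 2) (c := 2) (cn := .pp) (n1 := ndB0q0) (n2 := ndB0q2) (pc := pcB2) (cut := cut_A00pp_022_s3) (xt := xt_A00pp_022_s3) (P1 := 0) (W1 := 536870912) (P2 := 0) (W2 := 536870912) (P3 := 1020054732) (W3 := 13421774)
    rfl t138_A00pp_022_s3

theorem s_A00pp_022_s3 {κ x : ℝ} (hκ : κ * h0 = ken x) (hx : ((1020054732 : ℕ) : ℝ) / S ≤ x)
    (hx' : x ≤ (((1020054732 : ℕ) : ℝ) + (13421774 : ℕ)) / S)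
    (H : CutA (VFD κ) PP tK tL pcB (Cut.of [[⟨0, 0, 0, 26843545⟩, ⟨1, 1, 0, 26843545⟩, ⟨2, 1, 0, 26843545⟩]]) 0 2 2 0 0 (sgb true) (sgb true) x) :
    AltA (VFD κ) PP tK tL pcB [⟨4, 0, 0, 2845415833⟩] 0 2 2 0 0 (sgb true) (sgb true) x :=
  strip_altAD (m := 2845415833) false rfl hκ (SH.κ0 hκ (SH.hx1 hx).le (SH.hx2 hx').le) (SH.hx1 hx).le (SH.hx2 hx') (covB00).cov (covB02).cov hx hx' c_A00pp_022_s3 H ((okx hx hx').extA (T := tt) (sideB hx hx') hκ rfl rfl (.O 0 true) (.O 2 true) (Or.inl rfl))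

noncomputable def cut_A00pp_023_s1 : Cut := Cut.of [[⟨4, 0, 0, 1449551462⟩]]

noncomputable def f_A00pp_023_s1 : ℕ → ℕ → ℕ → ℕ → Bool := onCell 0 536870912 0 536870912 1020054732 13421774
    (rowF 0 true true true .up 0 2 3 (qsf 0 536870912 0 536870912 3) ndB0q0 ndB0q2 pcB3 cut_A00pp_023_s1 Ext.none)

def k0_A00pp_023_s1 : ∃ t, chk3 f_A00pp_023_s1 t 1 1 1 = true :=
  ⟨(l 6), by decide +kernel⟩

theorem c_A00pp_023_s1 : CertF 0 536870912 0 536870912 1020054732 13421774 true true true .up 0 2 3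
    ndB0q0 ndB0q2 pcB3 cut_A00pp_023_s1 Ext.none :=
  certF0 (fam := true) (s1 := true) (s2 := true) (a := 0) (b := 2) (c := 3) (cn := .up) (n1 := ndB0q0) (n2 := ndB0q2) (pc := pcB3) (cut := cut_A00pp_023_s1) (xt := Ext.none) (P1 := 0) (W1 := 536870912) (P2 := 0) (W2 := 536870912) (P3 := 1020054732) (W3 := 13421774)
    rfl k0_A00pp_023_s1

theorem s_A00pp_023_s1 {κ x : ℝ} (hκ : κ * h0 = ken x) (hx : ((1020054732 : ℕ) : ℝ) / S ≤ x)
    (hx' : x ≤ (((1020054732 : ℕ) : ℝ) + (13421774 : ℕ)) / S) :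
    AltA (VFD κ) PP tK tL pcB [⟨3, 0, 0, 1449551462⟩] 0 2 3 0 0 (sgb true) (sgb true) x :=
  strip_altAD (m := 1449551462) true rfl hκ (SH.κ0 hκ (SH.hx1 hx).le (SH.hx2 hx').le) (SH.hx1 hx).le (SH.hx2 hx') (covB00).cov (covB02).cov hx hx' c_A00pp_023_s1 cutA_nil (noExt_A)

noncomputable def cut_A00pp_023_s3 : Cut := Cut.of [[⟨3, 0, 0, 2845415833⟩]]

noncomputable def xt_A00pp_023_s3 : Ext := strExt dd true true true .u0 .u2 .s2 .up 0 2 3 rfl rfl gl3 vv ndB0q0 ndB0q2

noncomputable def f_A00pp_023_s3 : ℕ → ℕ → ℕ → ℕ → Bool := onCell 0 536870912 0 536870912 1020054732 13421774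
    (rowF 0 true true true .up 0 2 3 (qsf 0 536870912 0 536870912 3) ndB0q0 ndB0q2 pcB3 cut_A00pp_023_s3 xt_A00pp_023_s3)

def k0_A00pp_023_s3 : ∃ t, chk3 f_A00pp_023_s3 t 1 1 1 = true :=
  ⟨(a (l 1) (b (a (a (l 1) (a (b (b (l 1) (l 1)) (l 1)) (b (b (l 532186895) (b (l 532291343) (l 532156175))) (b (b (l 532001807) (l 531827215)) (b (l 531630863) (l 531411727)))))) (b (a (b (a (l 532592911) (l 532374799)) (a (b (l 532700943) (l 532570639)) (b (l 533025039) (l 532900111)))) (a (b (l 532877583) (b (l 533265679) (l 533147151))) (b (l 532761871) (b (l 533425935) (l 533314319))))) (a (b (a (b (l 532422671) (l 532256271)) (b (l 532759311) (l 532601103))) (a (b (l 532069647) (l 4)) (l 4))) (b (a (b (l 533013519) (l 4)) (l 4)) (l 4))))) (b (a (l 1) (l 4)) (l 4)))), by decide +kernel⟩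

theorem c_A00pp_023_s3 : CertF 0 536870912 0 536870912 1020054732 13421774 true true true .up 0 2 3
    ndB0q0 ndB0q2 pcB3 cut_A00pp_023_s3 xt_A00pp_023_s3 :=
  certF0 (fam := true) (s1 := true) (s2 := true) (a := 0) (b := 2) (c := 3) (cn := .up) (n1 := ndB0q0) (n2 := ndB0q2) (pc := pcB3) (cut := cut_A00pp_023_s3) (xt := xt_A00pp_023_s3) (P1 := 0) (W1 := 536870912) (P2 := 0) (W2 := 536870912) (P3 := 1020054732) (W3 := 13421774)
    rfl k0_A00pp_023_s3

theorem s_A00pp_023_s3 {κ x : ℝ} (hκ : κ * h0 = ken x) (hx : ((1020054732 : ℕ) : ℝ) / S ≤ x)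
    (hx' : x ≤ (((1020054732 : ℕ) : ℝ) + (13421774 : ℕ)) / S) :
    AltA (VFD κ) PP tK tL pcB [⟨4, 0, 0, 2845415833⟩] 0 2 3 0 0 (sgb true) (sgb true) x :=
  strip_altAD (m := 2845415833) false rfl hκ (SH.κ0 hκ (SH.hx1 hx).le (SH.hx2 hx').le) (SH.hx1 hx).le (SH.hx2 hx') (covB00).cov (covB02).cov hx hx' c_A00pp_023_s3 cutA_nil ((okx hx hx').extA (T := tt) (sideB hx hx') hκ rfl rfl (.O 0 true) (.O 2 true) (Or.inr rfl))

noncomputable def cut_A00pp_101_s1 : Cut := Cut.of [[⟨4, 0, 0, 1449551462⟩]]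

noncomputable def f_A00pp_101_s1 : ℕ → ℕ → ℕ → ℕ → Bool := onCell 536870912 536870912 0 536870912 1020054732 13421774
    (rowF 0 true true true .npn 1 0 1 (qsf 536870912 536870912 0 536870912 1) ndB0q1 ndB0q0 pcB1 cut_A00pp_101_s1 Ext.none)

def k0_A00pp_101_s1 : ∃ t, chk3 f_A00pp_101_s1 t 1 1 1 = true :=
  ⟨(l 6), by decide +kernel⟩

theorem c_A00pp_101_s1 : CertF 536870912 536870912 0 536870912 1020054732 13421774 true true true .npn 1 0 1
    ndB0q1 ndB0q0 pcB1 cut_A00pp_101_s1 Ext.none :=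
  certF0 (fam := true) (s1 := true) (s2 := true) (a := 1) (b := 0) (c := 1) (cn := .npn) (n1 := ndB0q1) (n2 := ndB0q0) (pc := pcB1) (cut := cut_A00pp_101_s1) (xt := Ext.none) (P1 := 536870912) (W1 := 536870912) (P2 := 0) (W2 := 536870912) (P3 := 1020054732) (W3 := 13421774)
    rfl k0_A00pp_101_s1

theorem s_A00pp_101_s1 {κ x : ℝ} (hκ : κ * h0 = ken x) (hx : ((1020054732 : ℕ) : ℝ) / S ≤ x)
    (hx' : x ≤ (((1020054732 : ℕ) : ℝ) + (13421774 : ℕ)) / S) :
    AltA (VFD κ) PP tK tL pcB [⟨3, 0, 0, 1449551462⟩] 1 0 1 0 0 (sgb true) (sgb true) x :=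
  strip_altAD (m := 1449551462) true rfl hκ (SH.κ0 hκ (SH.hx1 hx).le (SH.hx2 hx').le) (SH.hx1 hx).le (SH.hx2 hx') (covB01).cov (covB00).cov hx hx' c_A00pp_101_s1 cutA_nil (noExt_A)

noncomputable def cut_A00pp_101_s3 : Cut := Cut.of [[⟨3, 0, 0, 2845415833⟩]]

noncomputable def f_A00pp_101_s3 : ℕ → ℕ → ℕ → ℕ → Bool := onCell 536870912 536870912 0 536870912 1020054732 13421774
    (rowF 0 true true true .npn 1 0 1 (qsf 536870912 536870912 0 536870912 1) ndB0q1 ndB0q0 pcB1 cut_A00pp_101_s3 Ext.none)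

def k0_A00pp_101_s3 : ∃ t, chk3 f_A00pp_101_s3 t 1 1 1 = true :=
  ⟨(a (l 4) (l 5)), by decide +kernel⟩

theorem c_A00pp_101_s3 : CertF 536870912 536870912 0 536870912 1020054732 13421774 true true true .npn 1 0 1
    ndB0q1 ndB0q0 pcB1 cut_A00pp_101_s3 Ext.none :=
  certF0 (fam := true) (s1 := true) (s2 := true) (a := 1) (b := 0) (c := 1) (cn := .npn) (n1 := ndB0q1) (n2 := ndB0q0) (pc := pcB1) (cut := cut_A00pp_101_s3) (xt := Ext.none) (P1 := 536870912) (W1 := 536870912) (P2 := 0) (W2 := 536870912) (P3 := 1020054732) (W3 := 13421774)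
    rfl k0_A00pp_101_s3

theorem s_A00pp_101_s3 {κ x : ℝ} (hκ : κ * h0 = ken x) (hx : ((1020054732 : ℕ) : ℝ) / S ≤ x)
    (hx' : x ≤ (((1020054732 : ℕ) : ℝ) + (13421774 : ℕ)) / S) :
    AltA (VFD κ) PP tK tL pcB [⟨4, 0, 0, 2845415833⟩] 1 0 1 0 0 (sgb true) (sgb true) x :=
  strip_altAD (m := 2845415833) false rfl hκ (SH.κ0 hκ (SH.hx1 hx).le (SH.hx2 hx').le) (SH.hx1 hx).le (SH.hx2 hx') (covB01).cov (covB00).cov hx hx' c_A00pp_101_s3 cutA_nil (noExt_A)

noncomputable def cut_A00pp_102_s1 : Cut := Cut.of [[⟨4, 0, 0, 1449551462⟩]]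

noncomputable def f_A00pp_102_s1 : ℕ → ℕ → ℕ → ℕ → Bool := onCell 536870912 536870912 0 536870912 1020054732 13421774
    (rowF 0 true true true .npp 1 0 2 (qsf 536870912 536870912 0 536870912 2) ndB0q1 ndB0q0 pcB2 cut_A00pp_102_s1 Ext.none)

def k0_A00pp_102_s1 : ∃ t, chk3 f_A00pp_102_s1 t 1 1 1 = true :=
  ⟨(l 6), by decide +kernel⟩

theorem c_A00pp_102_s1 : CertF 536870912 536870912 0 536870912 1020054732 13421774 true true true .npp 1 0 2
    ndB0q1 ndB0q0 pcB2 cut_A00pp_102_s1 Ext.none :=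
  certF0 (fam := true) (s1 := true) (s2 := true) (a := 1) (b := 0) (c := 2) (cn := .npp) (n1 := ndB0q1) (n2 := ndB0q0) (pc := pcB2) (cut := cut_A00pp_102_s1) (xt := Ext.none) (P1 := 536870912) (W1 := 536870912) (P2 := 0) (W2 := 536870912) (P3 := 1020054732) (W3 := 13421774)
    rfl k0_A00pp_102_s1

theorem s_A00pp_102_s1 {κ x : ℝ} (hκ : κ * h0 = ken x) (hx : ((1020054732 : ℕ) : ℝ) / S ≤ x)
    (hx' : x ≤ (((1020054732 : ℕ) : ℝ) + (13421774 : ℕ)) / S) :
    AltA (VFD κ) PP tK tL pcB [⟨3, 0, 0, 1449551462⟩] 1 0 2 0 0 (sgb true) (sgb true) x :=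
  strip_altAD (m := 1449551462) true rfl hκ (SH.κ0 hκ (SH.hx1 hx).le (SH.hx2 hx').le) (SH.hx1 hx).le (SH.hx2 hx') (covB01).cov (covB00).cov hx hx' c_A00pp_102_s1 cutA_nil (noExt_A)

noncomputable def cut_A00pp_102_s3 : Cut := Cut.of [[⟨3, 0, 0, 2845415833⟩]]

noncomputable def f_A00pp_102_s3 : ℕ → ℕ → ℕ → ℕ → Bool := onCell 536870912 536870912 0 536870912 1020054732 13421774
    (rowF 0 true true true .npp 1 0 2 (qsf 536870912 536870912 0 536870912 2) ndB0q1 ndB0q0 pcB2 cut_A00pp_102_s3 Ext.none)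

def k0_A00pp_102_s3 : ∃ t, chk3 f_A00pp_102_s3 t 1 1 1 = true :=
  ⟨(a (l 4) (l 5)), by decide +kernel⟩

theorem c_A00pp_102_s3 : CertF 536870912 536870912 0 536870912 1020054732 13421774 true true true .npp 1 0 2
    ndB0q1 ndB0q0 pcB2 cut_A00pp_102_s3 Ext.none :=
  certF0 (fam := true) (s1 := true) (s2 := true) (a := 1) (b := 0) (c := 2) (cn := .npp) (n1 := ndB0q1) (n2 := ndB0q0) (pc := pcB2) (cut := cut_A00pp_102_s3) (xt := Ext.none) (P1 := 536870912) (W1 := 536870912) (P2 := 0) (W2 := 536870912) (P3 := 1020054732) (W3 := 13421774)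
    rfl k0_A00pp_102_s3

theorem s_A00pp_102_s3 {κ x : ℝ} (hκ : κ * h0 = ken x) (hx : ((1020054732 : ℕ) : ℝ) / S ≤ x)
    (hx' : x ≤ (((1020054732 : ℕ) : ℝ) + (13421774 : ℕ)) / S) :
    AltA (VFD κ) PP tK tL pcB [⟨4, 0, 0, 2845415833⟩] 1 0 2 0 0 (sgb true) (sgb true) x :=
  strip_altAD (m := 2845415833) false rfl hκ (SH.κ0 hκ (SH.hx1 hx).le (SH.hx2 hx').le) (SH.hx1 hx).le (SH.hx2 hx') (covB01).cov (covB00).cov hx hx' c_A00pp_102_s3 cutA_nil (noExt_A)

noncomputable def cut_A00pp_112_s1 : Cut := Cut.of [[⟨4, 0, 0, 1449551462⟩]]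

noncomputable def f_A00pp_112_s1 : ℕ → ℕ → ℕ → ℕ → Bool := onCell 536870912 536870912 536870912 536870912 1020054732 13421774
    (rowF 0 true true true .dn 1 1 2 (qsf 536870912 536870912 536870912 536870912 2) ndB0q1 ndB0q1 pcB2 cut_A00pp_112_s1 Ext.none)

def k0_A00pp_112_s1 : ∃ t, chk3 f_A00pp_112_s1 t 1 1 1 = true :=
  ⟨(l 4), by decide +kernel⟩

theorem c_A00pp_112_s1 : CertF 536870912 536870912 536870912 536870912 1020054732 13421774 true true true .dn 1 1 2
    ndB0q1 ndB0q1 pcB2 cut_A00pp_112_s1 Ext.none :=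
  certF0 (fam := true) (s1 := true) (s2 := true) (a := 1) (b := 1) (c := 2) (cn := .dn) (n1 := ndB0q1) (n2 := ndB0q1) (pc := pcB2) (cut := cut_A00pp_112_s1) (xt := Ext.none) (P1 := 536870912) (W1 := 536870912) (P2 := 536870912) (W2 := 536870912) (P3 := 1020054732) (W3 := 13421774)
    rfl k0_A00pp_112_s1

theorem s_A00pp_112_s1 {κ x : ℝ} (hκ : κ * h0 = ken x) (hx : ((1020054732 : ℕ) : ℝ) / S ≤ x)
    (hx' : x ≤ (((1020054732 : ℕ) : ℝ) + (13421774 : ℕ)) / S) :
    AltA (VFD κ) PP tK tL pcB [⟨3, 0, 0, 1449551462⟩] 1 1 2 0 0 (sgb true) (sgb true) x :=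
  strip_altAD (m := 1449551462) true rfl hκ (SH.κ0 hκ (SH.hx1 hx).le (SH.hx2 hx').le) (SH.hx1 hx).le (SH.hx2 hx') (covB01).cov (covB01).cov hx hx' c_A00pp_112_s1 cutA_nil (noExt_A)

noncomputable def cut_A00pp_112_s3 : Cut := Cut.of [[⟨3, 0, 0, 2845415833⟩]]

noncomputable def f_A00pp_112_s3 : ℕ → ℕ → ℕ → ℕ → Bool := onCell 536870912 536870912 536870912 536870912 1020054732 13421774
    (rowF 0 true true true .dn 1 1 2 (qsf 536870912 536870912 536870912 536870912 2) ndB0q1 ndB0q1 pcB2 cut_A00pp_112_s3 Ext.none)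

def k0_A00pp_112_s3 : ∃ t, chk3 f_A00pp_112_s3 t 1 1 1 = true :=
  ⟨(l 4), by decide +kernel⟩

theorem c_A00pp_112_s3 : CertF 536870912 536870912 536870912 536870912 1020054732 13421774 true true true .dn 1 1 2
    ndB0q1 ndB0q1 pcB2 cut_A00pp_112_s3 Ext.none :=
  certF0 (fam := true) (s1 := true) (s2 := true) (a := 1) (b := 1) (c := 2) (cn := .dn) (n1 := ndB0q1) (n2 := ndB0q1) (pc := pcB2) (cut := cut_A00pp_112_s3) (xt := Ext.none) (P1 := 536870912) (W1 := 536870912) (P2 := 536870912) (W2 := 536870912) (P3 := 1020054732) (W3 := 13421774)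
    rfl k0_A00pp_112_s3

theorem s_A00pp_112_s3 {κ x : ℝ} (hκ : κ * h0 = ken x) (hx : ((1020054732 : ℕ) : ℝ) / S ≤ x)
    (hx' : x ≤ (((1020054732 : ℕ) : ℝ) + (13421774 : ℕ)) / S) :
    AltA (VFD κ) PP tK tL pcB [⟨4, 0, 0, 2845415833⟩] 1 1 2 0 0 (sgb true) (sgb true) x :=
  strip_altAD (m := 2845415833) false rfl hκ (SH.κ0 hκ (SH.hx1 hx).le (SH.hx2 hx').le) (SH.hx1 hx).le (SH.hx2 hx') (covB01).cov (covB01).cov hx hx' c_A00pp_112_s3 cutA_nil (noExt_A)

noncomputable def cut_A00pp_113_s1 : Cut := Cut.of [[⟨4, 0, 0, 1449551462⟩]]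

noncomputable def f_A00pp_113_s1 : ℕ → ℕ → ℕ → ℕ → Bool := onCell 536870912 536870912 536870912 536870912 1020054732 13421774
    (rowF 0 true true true .nn 1 1 3 (qsf 536870912 536870912 536870912 536870912 3) ndB0q1 ndB0q1 pcB3 cut_A00pp_113_s1 Ext.none)

def k0_A00pp_113_s1 : ∃ t, chk3 f_A00pp_113_s1 t 1 1 1 = true :=
  ⟨(l 4), by decide +kernel⟩

theorem c_A00pp_113_s1 : CertF 536870912 536870912 536870912 536870912 1020054732 13421774 true true true .nn 1 1 3
    ndB0q1 ndB0q1 pcB3 cut_A00pp_113_s1 Ext.none :=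
  certF0 (fam := true) (s1 := true) (s2 := true) (a := 1) (b := 1) (c := 3) (cn := .nn) (n1 := ndB0q1) (n2 := ndB0q1) (pc := pcB3) (cut := cut_A00pp_113_s1) (xt := Ext.none) (P1 := 536870912) (W1 := 536870912) (P2 := 536870912) (W2 := 536870912) (P3 := 1020054732) (W3 := 13421774)
    rfl k0_A00pp_113_s1

theorem s_A00pp_113_s1 {κ x : ℝ} (hκ : κ * h0 = ken x) (hx : ((1020054732 : ℕ) : ℝ) / S ≤ x)
    (hx' : x ≤ (((1020054732 : ℕ) : ℝ) + (13421774 : ℕ)) / S) :
    AltA (VFD κ) PP tK tL pcB [⟨3, 0, 0, 1449551462⟩] 1 1 3 0 0 (sgb true) (sgb true) x :=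
  strip_altAD (m := 1449551462) true rfl hκ (SH.κ0 hκ (SH.hx1 hx).le (SH.hx2 hx').le) (SH.hx1 hx).le (SH.hx2 hx') (covB01).cov (covB01).cov hx hx' c_A00pp_113_s1 cutA_nil (noExt_A)

noncomputable def cut_A00pp_113_s3 : Cut := Cut.of [[⟨3, 0, 0, 2845415833⟩]]

noncomputable def f_A00pp_113_s3 : ℕ → ℕ → ℕ → ℕ → Bool := onCell 536870912 536870912 536870912 536870912 1020054732 13421774
    (rowF 0 true true true .nn 1 1 3 (qsf 536870912 536870912 536870912 536870912 3) ndB0q1 ndB0q1 pcB3 cut_A00pp_113_s3 Ext.none)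

def k0_A00pp_113_s3 : ∃ t, chk3 f_A00pp_113_s3 t 1 1 1 = true :=
  ⟨(l 4), by decide +kernel⟩

theorem c_A00pp_113_s3 : CertF 536870912 536870912 536870912 536870912 1020054732 13421774 true true true .nn 1 1 3
    ndB0q1 ndB0q1 pcB3 cut_A00pp_113_s3 Ext.none :=
  certF0 (fam := true) (s1 := true) (s2 := true) (a := 1) (b := 1) (c := 3) (cn := .nn) (n1 := ndB0q1) (n2 := ndB0q1) (pc := pcB3) (cut := cut_A00pp_113_s3) (xt := Ext.none) (P1 := 536870912) (W1 := 536870912) (P2 := 536870912) (W2 := 536870912) (P3 := 1020054732) (W3 := 13421774)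
    rfl k0_A00pp_113_s3

theorem s_A00pp_113_s3 {κ x : ℝ} (hκ : κ * h0 = ken x) (hx : ((1020054732 : ℕ) : ℝ) / S ≤ x)
    (hx' : x ≤ (((1020054732 : ℕ) : ℝ) + (13421774 : ℕ)) / S) :
    AltA (VFD κ) PP tK tL pcB [⟨4, 0, 0, 2845415833⟩] 1 1 3 0 0 (sgb true) (sgb true) x :=
  strip_altAD (m := 2845415833) false rfl hκ (SH.κ0 hκ (SH.hx1 hx).le (SH.hx2 hx').le) (SH.hx1 hx).le (SH.hx2 hx') (covB01).cov (covB01).cov hx hx' c_A00pp_113_s3 cutA_nil (noExt_A)

noncomputable def cut_A00pp_123_s1 : Cut := Cut.of [[⟨4, 0, 0, 1449551462⟩]]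

noncomputable def f_A00pp_123_s1 : ℕ → ℕ → ℕ → ℕ → Bool := onCell 536870912 536870912 0 536870912 1020054732 13421774
    (rowF 0 true true true .npn 1 2 3 (qsf 536870912 536870912 0 536870912 3) ndB0q1 ndB0q2 pcB3 cut_A00pp_123_s1 Ext.none)

def k0_A00pp_123_s1 : ∃ t, chk3 f_A00pp_123_s1 t 1 1 1 = true :=
  ⟨(l 6), by decide +kernel⟩

theorem c_A00pp_123_s1 : CertF 536870912 536870912 0 536870912 1020054732 13421774 true true true .npn 1 2 3
    ndB0q1 ndB0q2 pcB3 cut_A00pp_123_s1 Ext.none :=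
  certF0 (fam := true) (s1 := true) (s2 := true) (a := 1) (b := 2) (c := 3) (cn := .npn) (n1 := ndB0q1) (n2 := ndB0q2) (pc := pcB3) (cut := cut_A00pp_123_s1) (xt := Ext.none) (P1 := 536870912) (W1 := 536870912) (P2 := 0) (W2 := 536870912) (P3 := 1020054732) (W3 := 13421774)
    rfl k0_A00pp_123_s1

theorem s_A00pp_123_s1 {κ x : ℝ} (hκ : κ * h0 = ken x) (hx : ((1020054732 : ℕ) : ℝ) / S ≤ x)
    (hx' : x ≤ (((1020054732 : ℕ) : ℝ) + (13421774 : ℕ)) / S) :
    AltA (VFD κ) PP tK tL pcB [⟨3, 0, 0, 1449551462⟩] 1 2 3 0 0 (sgb true) (sgb true) x :=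
  strip_altAD (m := 1449551462) true rfl hκ (SH.κ0 hκ (SH.hx1 hx).le (SH.hx2 hx').le) (SH.hx1 hx).le (SH.hx2 hx') (covB01).cov (covB02).cov hx hx' c_A00pp_123_s1 cutA_nil (noExt_A)

noncomputable def cut_A00pp_123_s3 : Cut := Cut.of [[⟨3, 0, 0, 2845415833⟩]]

noncomputable def xt_A00pp_123_s3 : Ext := strExt dd true true true .u0 .u2 .s2 .npn 1 2 3 rfl rfl gl3 vv ndB0q1 ndB0q2

noncomputable def f_A00pp_123_s3 : ℕ → ℕ → ℕ → ℕ → Bool := onCell 536870912 536870912 0 536870912 1020054732 13421774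
    (rowF 0 true true true .npn 1 2 3 (qsf 536870912 536870912 0 536870912 3) ndB0q1 ndB0q2 pcB3 cut_A00pp_123_s3 xt_A00pp_123_s3)

def k0_A00pp_123_s3 : ∃ t, chk3 f_A00pp_123_s3 t 1 1 1 = true :=
  ⟨(b (a (a (b (a (b (a (l 533105679) (l 532841231)) (a (b (l 533510415) (l 4)) (l 4))) (a (b (a (l 533605903) (l 4)) (l 4)) (l 4))) (l 4)) (l 4)) (l 4)) (l 4)), by decide +kernel⟩

theorem c_A00pp_123_s3 : CertF 536870912 536870912 0 536870912 1020054732 13421774 true true true .npn 1 2 3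
    ndB0q1 ndB0q2 pcB3 cut_A00pp_123_s3 xt_A00pp_123_s3 :=
  certF0 (fam := true) (s1 := true) (s2 := true) (a := 1) (b := 2) (c := 3) (cn := .npn) (n1 := ndB0q1) (n2 := ndB0q2) (pc := pcB3) (cut := cut_A00pp_123_s3) (xt := xt_A00pp_123_s3) (P1 := 536870912) (W1 := 536870912) (P2 := 0) (W2 := 536870912) (P3 := 1020054732) (W3 := 13421774)
    rfl k0_A00pp_123_s3

theorem s_A00pp_123_s3 {κ x : ℝ} (hκ : κ * h0 = ken x) (hx : ((1020054732 : ℕ) : ℝ) / S ≤ x)
    (hx' : x ≤ (((1020054732 : ℕ) : ℝ) + (13421774 : ℕ)) / S) :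
    AltA (VFD κ) PP tK tL pcB [⟨4, 0, 0, 2845415833⟩] 1 2 3 0 0 (sgb true) (sgb true) x :=
  strip_altAD (m := 2845415833) false rfl hκ (SH.κ0 hκ (SH.hx1 hx).le (SH.hx2 hx').le) (SH.hx1 hx).le (SH.hx2 hx') (covB01).cov (covB02).cov hx hx' c_A00pp_123_s3 cutA_nil ((okx hx hx').extA (T := tt) (sideB hx hx') hκ rfl rfl (.O 1 true) (.O 2 true) (Or.inr rfl))

noncomputable def cut_A00pp_202_s1 : Cut := Cut.of [[⟨4, 0, 0, 1449551462⟩]]

noncomputable def f_A00pp_202_s1 : ℕ → ℕ → ℕ → ℕ → Bool := onCell 0 536870912 0 536870912 1020054732 13421774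
    (rowF 0 true true true .pp 2 0 2 (qsf 0 536870912 0 536870912 2) ndB0q2 ndB0q0 pcB2 cut_A00pp_202_s1 Ext.none)

def k0_A00pp_202_s1 : ∃ t, chk3 f_A00pp_202_s1 t 1 1 1 = true :=
  ⟨(l 5), by decide +kernel⟩

theorem c_A00pp_202_s1 : CertF 0 536870912 0 536870912 1020054732 13421774 true true true .pp 2 0 2
    ndB0q2 ndB0q0 pcB2 cut_A00pp_202_s1 Ext.none :=
  certF0 (fam := true) (s1 := true) (s2 := true) (a := 2) (b := 0) (c := 2) (cn := .pp) (n1 := ndB0q2) (n2 := ndB0q0) (pc := pcB2) (cut := cut_A00pp_202_s1) (xt := Ext.none) (P1 := 0) (W1 := 536870912) (P2 := 0) (W2 := 536870912) (P3 := 1020054732) (W3 := 13421774)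
    rfl k0_A00pp_202_s1

theorem s_A00pp_202_s1 {κ x : ℝ} (hκ : κ * h0 = ken x) (hx : ((1020054732 : ℕ) : ℝ) / S ≤ x)
    (hx' : x ≤ (((1020054732 : ℕ) : ℝ) + (13421774 : ℕ)) / S) :
    AltA (VFD κ) PP tK tL pcB [⟨3, 0, 0, 1449551462⟩] 2 0 2 0 0 (sgb true) (sgb true) x :=
  strip_altAD (m := 1449551462) true rfl hκ (SH.κ0 hκ (SH.hx1 hx).le (SH.hx2 hx').le) (SH.hx1 hx).le (SH.hx2 hx') (covB02).cov (covB00).cov hx hx' c_A00pp_202_s1 cutA_nil (noExt_A)

noncomputable def cut_A00pp_202_s3 : Cut := Cut.of [[⟨3, 0, 0, 2845415833⟩]]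

noncomputable def f_A00pp_202_s3 : ℕ → ℕ → ℕ → ℕ → Bool := onCell 0 536870912 0 536870912 1020054732 13421774
    (rowF 0 true true true .pp 2 0 2 (qsf 0 536870912 0 536870912 2) ndB0q2 ndB0q0 pcB2 cut_A00pp_202_s3 Ext.none)

def k0_A00pp_202_s3 : ∃ t, chk3 f_A00pp_202_s3 t 1 1 1 = true :=
  ⟨(l 5), by decide +kernel⟩

theorem c_A00pp_202_s3 : CertF 0 536870912 0 536870912 1020054732 13421774 true true true .pp 2 0 2
    ndB0q2 ndB0q0 pcB2 cut_A00pp_202_s3 Ext.none :=
  certF0 (fam := true) (s1 := true) (s2 := true) (a := 2) (b := 0) (c := 2) (cn := .pp) (n1 := ndB0q2) (n2 := ndB0q0) (pc := pcB2) (cut := cut_A00pp_202_s3) (xt := Ext.none) (P1 := 0) (W1 := 536870912) (P2 := 0) (W2 := 536870912) (P3 := 1020054732) (W3 := 13421774)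
    rfl k0_A00pp_202_s3

theorem s_A00pp_202_s3 {κ x : ℝ} (hκ : κ * h0 = ken x) (hx : ((1020054732 : ℕ) : ℝ) / S ≤ x)
    (hx' : x ≤ (((1020054732 : ℕ) : ℝ) + (13421774 : ℕ)) / S) :
    AltA (VFD κ) PP tK tL pcB [⟨4, 0, 0, 2845415833⟩] 2 0 2 0 0 (sgb true) (sgb true) x :=
  strip_altAD (m := 2845415833) false rfl hκ (SH.κ0 hκ (SH.hx1 hx).le (SH.hx2 hx').le) (SH.hx1 hx).le (SH.hx2 hx') (covB02).cov (covB00).cov hx hx' c_A00pp_202_s3 cutA_nil (noExt_A)

noncomputable def cut_A00pp_203_s1 : Cut := Cut.of [[⟨4, 0, 0, 1449551462⟩]]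

noncomputable def f_A00pp_203_s1 : ℕ → ℕ → ℕ → ℕ → Bool := onCell 0 536870912 0 536870912 1020054732 13421774
    (rowF 0 true true true .up 2 0 3 (qsf 0 536870912 0 536870912 3) ndB0q2 ndB0q0 pcB3 cut_A00pp_203_s1 Ext.none)

def k0_A00pp_203_s1 : ∃ t, chk3 f_A00pp_203_s1 t 1 1 1 = true :=
  ⟨(l 5), by decide +kernel⟩

theorem c_A00pp_203_s1 : CertF 0 536870912 0 536870912 1020054732 13421774 true true true .up 2 0 3
    ndB0q2 ndB0q0 pcB3 cut_A00pp_203_s1 Ext.none :=
  certF0 (fam := true) (s1 := true) (s2 := true) (a := 2) (b := 0) (c := 3) (cn := .up) (n1 := ndB0q2) (n2 := ndB0q0) (pc := pcB3) (cut := cut_A00pp_203_s1) (xt := Ext.none) (P1 := 0) (W1 := 536870912) (P2 := 0) (W2 := 536870912) (P3 := 1020054732) (W3 := 13421774)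
    rfl k0_A00pp_203_s1

theorem s_A00pp_203_s1 {κ x : ℝ} (hκ : κ * h0 = ken x) (hx : ((1020054732 : ℕ) : ℝ) / S ≤ x)
    (hx' : x ≤ (((1020054732 : ℕ) : ℝ) + (13421774 : ℕ)) / S) :
    AltA (VFD κ) PP tK tL pcB [⟨3, 0, 0, 1449551462⟩] 2 0 3 0 0 (sgb true) (sgb true) x :=
  strip_altAD (m := 1449551462) true rfl hκ (SH.κ0 hκ (SH.hx1 hx).le (SH.hx2 hx').le) (SH.hx1 hx).le (SH.hx2 hx') (covB02).cov (covB00).cov hx hx' c_A00pp_203_s1 cutA_nil (noExt_A)

noncomputable def cut_A00pp_203_s3 : Cut := Cut.of [[⟨3, 0, 0, 2845415833⟩]]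

noncomputable def f_A00pp_203_s3 : ℕ → ℕ → ℕ → ℕ → Bool := onCell 0 536870912 0 536870912 1020054732 13421774
    (rowF 0 true true true .up 2 0 3 (qsf 0 536870912 0 536870912 3) ndB0q2 ndB0q0 pcB3 cut_A00pp_203_s3 Ext.none)

def k0_A00pp_203_s3 : ∃ t, chk3 f_A00pp_203_s3 t 1 1 1 = true :=
  ⟨(l 5), by decide +kernel⟩

theorem c_A00pp_203_s3 : CertF 0 536870912 0 536870912 1020054732 13421774 true true true .up 2 0 3
    ndB0q2 ndB0q0 pcB3 cut_A00pp_203_s3 Ext.none :=
  certF0 (fam := true) (s1 := true) (s2 := true) (a := 2) (b := 0) (c := 3) (cn := .up) (n1 := ndB0q2) (n2 := ndB0q0) (pc := pcB3) (cut := cut_A00pp_203_s3) (xt := Ext.none) (P1 := 0) (W1 := 536870912) (P2 := 0) (W2 := 536870912) (P3 := 1020054732) (W3 := 13421774)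
    rfl k0_A00pp_203_s3

theorem s_A00pp_203_s3 {κ x : ℝ} (hκ : κ * h0 = ken x) (hx : ((1020054732 : ℕ) : ℝ) / S ≤ x)
    (hx' : x ≤ (((1020054732 : ℕ) : ℝ) + (13421774 : ℕ)) / S) :
    AltA (VFD κ) PP tK tL pcB [⟨4, 0, 0, 2845415833⟩] 2 0 3 0 0 (sgb true) (sgb true) x :=
  strip_altAD (m := 2845415833) false rfl hκ (SH.κ0 hκ (SH.hx1 hx).le (SH.hx2 hx').le) (SH.hx1 hx).le (SH.hx2 hx') (covB02).cov (covB00).cov hx hx' c_A00pp_203_s3 cutA_nil (noExt_A)

noncomputable def cut_A00pp_213_s1 : Cut := Cut.of [[⟨4, 0, 0, 1449551462⟩]]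

noncomputable def f_A00pp_213_s1 : ℕ → ℕ → ℕ → ℕ → Bool := onCell 0 536870912 536870912 536870912 1020054732 13421774
    (rowF 0 true true true .pnn 2 1 3 (qsf 0 536870912 536870912 536870912 3) ndB0q2 ndB0q1 pcB3 cut_A00pp_213_s1 Ext.none)

def k0_A00pp_213_s1 : ∃ t, chk3 f_A00pp_213_s1 t 1 1 1 = true :=
  ⟨(l 6), by decide +kernel⟩

theorem c_A00pp_213_s1 : CertF 0 536870912 536870912 536870912 1020054732 13421774 true true true .pnn 2 1 3
    ndB0q2 ndB0q1 pcB3 cut_A00pp_213_s1 Ext.none :=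
  certF0 (fam := true) (s1 := true) (s2 := true) (a := 2) (b := 1) (c := 3) (cn := .pnn) (n1 := ndB0q2) (n2 := ndB0q1) (pc := pcB3) (cut := cut_A00pp_213_s1) (xt := Ext.none) (P1 := 0) (W1 := 536870912) (P2 := 536870912) (W2 := 536870912) (P3 := 1020054732) (W3 := 13421774)
    rfl k0_A00pp_213_s1

theorem s_A00pp_213_s1 {κ x : ℝ} (hκ : κ * h0 = ken x) (hx : ((1020054732 : ℕ) : ℝ) / S ≤ x)
    (hx' : x ≤ (((1020054732 : ℕ) : ℝ) + (13421774 : ℕ)) / S) :
    AltA (VFD κ) PP tK tL pcB [⟨3, 0, 0, 1449551462⟩] 2 1 3 0 0 (sgb true) (sgb true) x :=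
  strip_altAD (m := 1449551462) true rfl hκ (SH.κ0 hκ (SH.hx1 hx).le (SH.hx2 hx').le) (SH.hx1 hx).le (SH.hx2 hx') (covB02).cov (covB01).cov hx hx' c_A00pp_213_s1 cutA_nil (noExt_A)

noncomputable def cut_A00pp_213_s3 : Cut := Cut.of [[⟨3, 0, 0, 2845415833⟩]]

noncomputable def f_A00pp_213_s3 : ℕ → ℕ → ℕ → ℕ → Bool := onCell 0 536870912 536870912 536870912 1020054732 13421774
    (rowF 0 true true true .pnn 2 1 3 (qsf 0 536870912 536870912 536870912 3) ndB0q2 ndB0q1 pcB3 cut_A00pp_213_s3 Ext.none)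

def k0_A00pp_213_s3 : ∃ t, chk3 f_A00pp_213_s3 t 1 1 1 = true :=
  ⟨(a (l 5) (l 4)), by decide +kernel⟩

theorem c_A00pp_213_s3 : CertF 0 536870912 536870912 536870912 1020054732 13421774 true true true .pnn 2 1 3
    ndB0q2 ndB0q1 pcB3 cut_A00pp_213_s3 Ext.none :=
  certF0 (fam := true) (s1 := true) (s2 := true) (a := 2) (b := 1) (c := 3) (cn := .pnn) (n1 := ndB0q2) (n2 := ndB0q1) (pc := pcB3) (cut := cut_A00pp_213_s3) (xt := Ext.none) (P1 := 0) (W1 := 536870912) (P2 := 536870912) (W2 := 536870912) (P3 := 1020054732) (W3 := 13421774)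
    rfl k0_A00pp_213_s3

theorem s_A00pp_213_s3 {κ x : ℝ} (hκ : κ * h0 = ken x) (hx : ((1020054732 : ℕ) : ℝ) / S ≤ x)
    (hx' : x ≤ (((1020054732 : ℕ) : ℝ) + (13421774 : ℕ)) / S) :
    AltA (VFD κ) PP tK tL pcB [⟨4, 0, 0, 2845415833⟩] 2 1 3 0 0 (sgb true) (sgb true) x :=
  strip_altAD (m := 2845415833) false rfl hκ (SH.κ0 hκ (SH.hx1 hx).le (SH.hx2 hx').le) (SH.hx1 hx).le (SH.hx2 hx') (covB02).cov (covB01).cov hx hx' c_A00pp_213_s3 cutA_nil (noExt_A)

noncomputable def cut_A00pm_001_s1 : Cut := Cut.of [[⟨4, 0, 0, 1449551462⟩]]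

noncomputable def f_A00pm_001_s1 : ℕ → ℕ → ℕ → ℕ → Bool := onCell 0 536870912 0 536870912 1020054732 13421774
    (rowF 0 true true false .up 0 0 1 (qsf 0 536870912 0 536870912 1) ndB0q0 ndB0q0 pcB1 cut_A00pm_001_s1 Ext.none)

def k0_A00pm_001_s1 : ∃ t, chk3 f_A00pm_001_s1 t 1 1 1 = true :=
  ⟨(l 3), by decide +kernel⟩

theorem c_A00pm_001_s1 : CertF 0 536870912 0 536870912 1020054732 13421774 true true false .up 0 0 1
    ndB0q0 ndB0q0 pcB1 cut_A00pm_001_s1 Ext.none :=
  certF0 (fam := true) (s1 := true) (s2 := false) (a := 0) (b := 0) (c := 1) (cn := .up) (n1 := ndB0q0) (n2 := ndB0q0) (pc := pcB1) (cut := cut_A00pm_001_s1) (xt := Ext.none) (P1 := 0) (W1 := 536870912) (P2 := 0) (W2 := 536870912) (P3 := 1020054732) (W3 := 13421774)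
    rfl k0_A00pm_001_s1

theorem s_A00pm_001_s1 {κ x : ℝ} (hκ : κ * h0 = ken x) (hx : ((1020054732 : ℕ) : ℝ) / S ≤ x)
    (hx' : x ≤ (((1020054732 : ℕ) : ℝ) + (13421774 : ℕ)) / S) :
    AltA (VFD κ) PP tK tL pcB [⟨3, 0, 0, 1449551462⟩] 0 0 1 0 0 (sgb true) (sgb false) x :=
  strip_altAD (m := 1449551462) true rfl hκ (SH.κ0 hκ (SH.hx1 hx).le (SH.hx2 hx').le) (SH.hx1 hx).le (SH.hx2 hx') (covB00).cov (covB00).cov hx hx' c_A00pm_001_s1 cutA_nil (noExt_A)

noncomputable def cut_A00pm_001_s3 : Cut := Cut.of [[⟨3, 0, 0, 2845415833⟩]]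

noncomputable def f_A00pm_001_s3 : ℕ → ℕ → ℕ → ℕ → Bool := onCell 0 536870912 0 536870912 1020054732 13421774
    (rowF 0 true true false .up 0 0 1 (qsf 0 536870912 0 536870912 1) ndB0q0 ndB0q0 pcB1 cut_A00pm_001_s3 Ext.none)

def k0_A00pm_001_s3 : ∃ t, chk3 f_A00pm_001_s3 t 1 1 1 = true :=
  ⟨(l 3), by decide +kernel⟩

theorem c_A00pm_001_s3 : CertF 0 536870912 0 536870912 1020054732 13421774 true true false .up 0 0 1
    ndB0q0 ndB0q0 pcB1 cut_A00pm_001_s3 Ext.none :=
  certF0 (fam := true) (s1 := true) (s2 := false) (a := 0) (b := 0) (c := 1) (cn := .up) (n1 := ndB0q0) (n2 := ndB0q0) (pc := pcB1) (cut := cut_A00pm_001_s3) (xt := Ext.none) (P1 := 0) (W1 := 536870912) (P2 := 0) (W2 := 536870912) (P3 := 1020054732) (W3 := 13421774)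
    rfl k0_A00pm_001_s3

theorem s_A00pm_001_s3 {κ x : ℝ} (hκ : κ * h0 = ken x) (hx : ((1020054732 : ℕ) : ℝ) / S ≤ x)
    (hx' : x ≤ (((1020054732 : ℕ) : ℝ) + (13421774 : ℕ)) / S) :
    AltA (VFD κ) PP tK tL pcB [⟨4, 0, 0, 2845415833⟩] 0 0 1 0 0 (sgb true) (sgb false) x :=
  strip_altAD (m := 2845415833) false rfl hκ (SH.κ0 hκ (SH.hx1 hx).le (SH.hx2 hx').le) (SH.hx1 hx).le (SH.hx2 hx') (covB00).cov (covB00).cov hx hx' c_A00pm_001_s3 cutA_nil (noExt_A)

noncomputable def cut_A00pm_011_s1 : Cut := Cut.of [[⟨4, 0, 0, 1449551462⟩], [⟨0, 0, 0, 38347922⟩, ⟨1, 1, 0, 38347922⟩, ⟨2, 1, 0, 38347922⟩]]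

noncomputable def f_A00pm_011_s1 : ℕ → ℕ → ℕ → ℕ → Bool := onCell 536870912 536870912 536870912 536870912 1020054732 13421774
    (rowF 2 true true false .pnn 0 1 1 (qsf 0 536870912 536870912 536870912 1) ndB0q0 ndB0q1 pcB1 cut_A00pm_011_s1 Ext.none)

def k0_A00pm_011_s1 : ∃ t, chk3 f_A00pm_011_s1 t 1 1 1 = true :=
  ⟨(a (l 3) (b (l 3) (a (l 3) (b (l 3) (a (l 3) (b (l 3) (a (l 3) (b (l 3) (l 14))))))))), by decide +kernel⟩

theorem c_A00pm_011_s1 : CertF 0 536870912 536870912 536870912 1020054732 13421774 true true false .pnn 0 1 1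
    ndB0q0 ndB0q1 pcB1 cut_A00pm_011_s1 Ext.none :=
  certF2 (fam := true) (s1 := true) (s2 := false) (a := 0) (b := 1) (c := 1) (cn := .pnn) (n1 := ndB0q0) (n2 := ndB0q1) (pc := pcB1) (cut := cut_A00pm_011_s1) (xt := Ext.none) (P1 := 0) (W1 := 536870912) (P2 := 536870912) (W2 := 536870912) (P3 := 1020054732) (W3 := 13421774)
    rfl (fun _ => rfl) k0_A00pm_011_s1

theorem s_A00pm_011_s1 {κ x : ℝ} (hκ : κ * h0 = ken x) (hx : ((1020054732 : ℕ) : ℝ) / S ≤ x)
    (hx' : x ≤ (((1020054732 : ℕ) : ℝ) + (13421774 : ℕ)) / S)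
    (H : CutA (VFD κ) PP tK tL pcB (Cut.of [[⟨0, 0, 0, 38347922⟩, ⟨1, 1, 0, 38347922⟩, ⟨2, 1, 0, 38347922⟩]]) 0 1 1 0 0 (sgb true) (sgb false) x) :
    AltA (VFD κ) PP tK tL pcB [⟨3, 0, 0, 1449551462⟩] 0 1 1 0 0 (sgb true) (sgb false) x :=
  strip_altAD (m := 1449551462) true rfl hκ (SH.κ0 hκ (SH.hx1 hx).le (SH.hx2 hx').le) (SH.hx1 hx).le (SH.hx2 hx') (covB00).cov (covB01).cov hx hx' c_A00pm_011_s1 H (noExt_A)

noncomputable def cut_A00pm_011_s3 : Cut := Cut.of [[⟨3, 0, 0, 2845415833⟩], [⟨0, 0, 0, 38347922⟩, ⟨1, 1, 0, 38347922⟩, ⟨2, 1, 0, 38347922⟩]]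

noncomputable def f_A00pm_011_s3 : ℕ → ℕ → ℕ → ℕ → Bool := onCell 0 536870912 536870912 536870912 1020054732 13421774
    (rowF 0 true true false .pnn 0 1 1 (qsf 0 536870912 536870912 536870912 1) ndB0q0 ndB0q1 pcB1 cut_A00pm_011_s3 Ext.none)

def k0_A00pm_011_s3 : ∃ t, chk3 f_A00pm_011_s3 t 1 1 1 = true :=
  ⟨(l 6), by decide +kernel⟩

theorem c_A00pm_011_s3 : CertF 0 536870912 536870912 536870912 1020054732 13421774 true true false .pnn 0 1 1
    ndB0q0 ndB0q1 pcB1 cut_A00pm_011_s3 Ext.none :=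
  certF0 (fam := true) (s1 := true) (s2 := false) (a := 0) (b := 1) (c := 1) (cn := .pnn) (n1 := ndB0q0) (n2 := ndB0q1) (pc := pcB1) (cut := cut_A00pm_011_s3) (xt := Ext.none) (P1 := 0) (W1 := 536870912) (P2 := 536870912) (W2 := 536870912) (P3 := 1020054732) (W3 := 13421774)
    rfl k0_A00pm_011_s3

theorem s_A00pm_011_s3 {κ x : ℝ} (hκ : κ * h0 = ken x) (hx : ((1020054732 : ℕ) : ℝ) / S ≤ x)
    (hx' : x ≤ (((1020054732 : ℕ) : ℝ) + (13421774 : ℕ)) / S)
    (H : CutA (VFD κ) PP tK tL pcB (Cut.of [[⟨0, 0, 0, 38347922⟩, ⟨1, 1, 0, 38347922⟩, ⟨2, 1, 0, 38347922⟩]]) 0 1 1 0 0 (sgb true) (sgb false) x) :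
    AltA (VFD κ) PP tK tL pcB [⟨4, 0, 0, 2845415833⟩] 0 1 1 0 0 (sgb true) (sgb false) x :=
  strip_altAD (m := 2845415833) false rfl hκ (SH.κ0 hκ (SH.hx1 hx).le (SH.hx2 hx').le) (SH.hx1 hx).le (SH.hx2 hx') (covB00).cov (covB01).cov hx hx' c_A00pm_011_s3 H (noExt_A)

end Pool.Agent.Strip051.G.I9500_9625.Tab.St.C
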