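import Pool.Agent.Strip051.G.I9500_9625.StH
import Pool.Agent.Strip051.G.I9500_9625.Sp1_0
import Pool.Agent.Strip051.G.I9500_9625.Sp1_1
import Pool.Agent.Strip051.G.I9500_9625.Sp1_2
import Pool.Agent.Strip051.G.I9500_9625.Sp1_3
import Pool.Agent.Strip051.G.I9500_9625.StF

/-! # Unit strips 1 (generated) -/

set_option linter.all false
set_option maxRecDepth 100000

namespace Pool.Agent.Strip051.G.I9500_9625.Tab.St.C

open Pool.Agent.Strip051.PB Pool.Agent.Strip051.PB.T Pool.Agent.StripNear Pool.Agent.Strip051.LC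
open Pool.Agent.Strip051.G.I9500_9625.Tab Pool.Agent.Strip051.G.I9500_9625.Tab.St

theorem t295_A00pm_012_s1 : ∃ t, chk3 f_A00pm_012_s1 t 5 31 1 = true := ex3_a k292_A00pm_012_s1 k293_A00pm_012_s1

theorem t296_A00pm_012_s1 : ∃ t, chk3 f_A00pm_012_s1 t 5 15 1 = true := ex3_b k291_A00pm_012_s1 t295_A00pm_012_s1

theorem t297_A00pm_012_s1 : ∃ t, chk3 f_A00pm_012_s1 t 20 14 1 = true := ex3_a k287_A00pm_012_s1 k288_A00pm_012_s1

theorem t298_A00pm_012_s1 : ∃ t, chk3 f_A00pm_012_s1 t 10 14 1 = true := ex3_a t297_A00pm_012_s1 k289_A00pm_012_s1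

theorem t299_A00pm_012_s1 : ∃ t, chk3 f_A00pm_012_s1 t 5 14 1 = true := ex3_a t298_A00pm_012_s1 k290_A00pm_012_s1

theorem t300_A00pm_012_s1 : ∃ t, chk3 f_A00pm_012_s1 t 5 7 1 = true := ex3_b t299_A00pm_012_s1 t296_A00pm_012_s1

theorem t301_A00pm_012_s1 : ∃ t, chk3 f_A00pm_012_s1 t 41 13 1 = true := ex3_b k283_A00pm_012_s1 k284_A00pm_012_s1

theorem t302_A00pm_012_s1 : ∃ t, chk3 f_A00pm_012_s1 t 1341 24 1 = true := ex3_a k279_A00pm_012_s1 k280_A00pm_012_s1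

theorem t303_A00pm_012_s1 : ∃ t, chk3 f_A00pm_012_s1 t 10726 96 1 = true := ex3_a k274_A00pm_012_s1 k275_A00pm_012_s1

theorem t304_A00pm_012_s1 : ∃ t, chk3 f_A00pm_012_s1 t 5363 96 1 = true := ex3_a t303_A00pm_012_s1 k276_A00pm_012_s1

theorem t305_A00pm_012_s1 : ∃ t, chk3 f_A00pm_012_s1 t 5363 48 1 = true := ex3_b t304_A00pm_012_s1 k277_A00pm_012_s1

theorem t306_A00pm_012_s1 : ∃ t, chk3 f_A00pm_012_s1 t 2681 48 1 = true := ex3_a k273_A00pm_012_s1 t305_A00pm_012_s1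

theorem t307_A00pm_012_s1 : ∃ t, chk3 f_A00pm_012_s1 t 1340 48 1 = true := ex3_a k272_A00pm_012_s1 t306_A00pm_012_s1

theorem t308_A00pm_012_s1 : ∃ t, chk3 f_A00pm_012_s1 t 1340 24 1 = true := ex3_b t307_A00pm_012_s1 k278_A00pm_012_s1

theorem t309_A00pm_012_s1 : ∃ t, chk3 f_A00pm_012_s1 t 670 24 1 = true := ex3_a t308_A00pm_012_s1 t302_A00pm_012_s1

theorem t310_A00pm_012_s1 : ∃ t, chk3 f_A00pm_012_s1 t 335 24 1 = true := ex3_a t309_A00pm_012_s1 k281_A00pm_012_s1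

theorem t311_A00pm_012_s1 : ∃ t, chk3 f_A00pm_012_s1 t 167 24 1 = true := ex3_a k271_A00pm_012_s1 t310_A00pm_012_s1

theorem t312_A00pm_012_s1 : ∃ t, chk3 f_A00pm_012_s1 t 167 12 1 = true := ex3_b t311_A00pm_012_s1 k282_A00pm_012_s1

theorem t313_A00pm_012_s1 : ∃ t, chk3 f_A00pm_012_s1 t 83 12 1 = true := ex3_a k270_A00pm_012_s1 t312_A00pm_012_s1

theorem t314_A00pm_012_s1 : ∃ t, chk3 f_A00pm_012_s1 t 82 24 1 = true := ex3_b k267_A00pm_012_s1 k268_A00pm_012_s1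

theorem t315_A00pm_012_s1 : ∃ t, chk3 f_A00pm_012_s1 t 82 12 1 = true := ex3_b t314_A00pm_012_s1 k269_A00pm_012_s1

theorem t316_A00pm_012_s1 : ∃ t, chk3 f_A00pm_012_s1 t 41 12 1 = true := ex3_a t315_A00pm_012_s1 t313_A00pm_012_s1

theorem t317_A00pm_012_s1 : ∃ t, chk3 f_A00pm_012_s1 t 41 6 1 = true := ex3_b t316_A00pm_012_s1 t301_A00pm_012_s1

theorem t318_A00pm_012_s1 : ∃ t, chk3 f_A00pm_012_s1 t 160 106 3 = true := ex3_c k261_A00pm_012_s1 k262_A00pm_012_s1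

theorem t319_A00pm_012_s1 : ∃ t, chk3 f_A00pm_012_s1 t 160 53 3 = true := ex3_b t318_A00pm_012_s1 k263_A00pm_012_s1

theorem t320_A00pm_012_s1 : ∃ t, chk3 f_A00pm_012_s1 t 80 53 3 = true := ex3_a t319_A00pm_012_s1 k264_A00pm_012_s1

theorem t321_A00pm_012_s1 : ∃ t, chk3 f_A00pm_012_s1 t 80 53 1 = true := ex3_c k260_A00pm_012_s1 t320_A00pm_012_s1

theorem t322_A00pm_012_s1 : ∃ t, chk3 f_A00pm_012_s1 t 80 52 1 = true := ex3_b k258_A00pm_012_s1 k259_A00pm_012_s1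

theorem t323_A00pm_012_s1 : ∃ t, chk3 f_A00pm_012_s1 t 80 26 1 = true := ex3_b t322_A00pm_012_s1 t321_A00pm_012_s1

theorem t324_A00pm_012_s1 : ∃ t, chk3 f_A00pm_012_s1 t 40 26 1 = true := ex3_a t323_A00pm_012_s1 k265_A00pm_012_s1

theorem t325_A00pm_012_s1 : ∃ t, chk3 f_A00pm_012_s1 t 40 13 1 = true := ex3_b t324_A00pm_012_s1 k266_A00pm_012_s1

theorem t326_A00pm_012_s1 : ∃ t, chk3 f_A00pm_012_s1 t 81 51 1 = true := ex3_a k256_A00pm_012_s1 k257_A00pm_012_s1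

theorem t327_A00pm_012_s1 : ∃ t, chk3 f_A00pm_012_s1 t 81 25 1 = true := ex3_b k255_A00pm_012_s1 t326_A00pm_012_s1

theorem t328_A00pm_012_s1 : ∃ t, chk3 f_A00pm_012_s1 t 81 12 1 = true := ex3_b k254_A00pm_012_s1 t327_A00pm_012_s1

theorem t329_A00pm_012_s1 : ∃ t, chk3 f_A00pm_012_s1 t 40 12 1 = true := ex3_a k253_A00pm_012_s1 t328_A00pm_012_s1

theorem t330_A00pm_012_s1 : ∃ t, chk3 f_A00pm_012_s1 t 40 6 1 = true := ex3_b t329_A00pm_012_s1 t325_A00pm_012_s1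

theorem t331_A00pm_012_s1 : ∃ t, chk3 f_A00pm_012_s1 t 20 6 1 = true := ex3_a t330_A00pm_012_s1 t317_A00pm_012_s1

theorem t332_A00pm_012_s1 : ∃ t, chk3 f_A00pm_012_s1 t 10 6 1 = true := ex3_a t331_A00pm_012_s1 k285_A00pm_012_s1

theorem t333_A00pm_012_s1 : ∃ t, chk3 f_A00pm_012_s1 t 5 6 1 = true := ex3_a t332_A00pm_012_s1 k286_A00pm_012_s1

theorem t334_A00pm_012_s1 : ∃ t, chk3 f_A00pm_012_s1 t 5 3 1 = true := ex3_b t333_A00pm_012_s1 t300_A00pm_012_s1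

theorem t335_A00pm_012_s1 : ∃ t, chk3 f_A00pm_012_s1 t 2682 23 1 = true := ex3_a k247_A00pm_012_s1 k248_A00pm_012_s1

theorem t336_A00pm_012_s1 : ∃ t, chk3 f_A00pm_012_s1 t 1341 23 1 = true := ex3_a t335_A00pm_012_s1 k249_A00pm_012_s1

theorem t337_A00pm_012_s1 : ∃ t, chk3 f_A00pm_012_s1 t 1341 11 1 = true := ex3_b k246_A00pm_012_s1 t336_A00pm_012_s1

theorem t338_A00pm_012_s1 : ∃ t, chk3 f_A00pm_012_s1 t 5363 47 3 = true := ex3_b k244_A00pm_012_s1 k245_A00pm_012_s1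

theorem t339_A00pm_012_s1 : ∃ t, chk3 f_A00pm_012_s1 t 2681 47 3 = true := ex3_a k243_A00pm_012_s1 t338_A00pm_012_s1

theorem t340_A00pm_012_s1 : ∃ t, chk3 f_A00pm_012_s1 t 1340 47 3 = true := ex3_a k242_A00pm_012_s1 t339_A00pm_012_s1

theorem t341_A00pm_012_s1 : ∃ t, chk3 f_A00pm_012_s1 t 2681 46 3 = true := ex3_a k240_A00pm_012_s1 k241_A00pm_012_s1

theorem t342_A00pm_012_s1 : ∃ t, chk3 f_A00pm_012_s1 t 1340 46 3 = true := ex3_a k239_A00pm_012_s1 t341_A00pm_012_s1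

theorem t343_A00pm_012_s1 : ∃ t, chk3 f_A00pm_012_s1 t 1340 23 3 = true := ex3_b t342_A00pm_012_s1 t340_A00pm_012_s1

theorem t344_A00pm_012_s1 : ∃ t, chk3 f_A00pm_012_s1 t 5363 47 2 = true := ex3_b k237_A00pm_012_s1 k238_A00pm_012_s1

theorem t345_A00pm_012_s1 : ∃ t, chk3 f_A00pm_012_s1 t 2681 47 2 = true := ex3_a k236_A00pm_012_s1 t344_A00pm_012_s1

theorem t346_A00pm_012_s1 : ∃ t, chk3 f_A00pm_012_s1 t 1340 47 2 = true := ex3_a k235_A00pm_012_s1 t345_A00pm_012_s1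

theorem t347_A00pm_012_s1 : ∃ t, chk3 f_A00pm_012_s1 t 1340 23 2 = true := ex3_b k234_A00pm_012_s1 t346_A00pm_012_s1

theorem t348_A00pm_012_s1 : ∃ t, chk3 f_A00pm_012_s1 t 1340 23 1 = true := ex3_c t347_A00pm_012_s1 t343_A00pm_012_s1

theorem t349_A00pm_012_s1 : ∃ t, chk3 f_A00pm_012_s1 t 1340 11 1 = true := ex3_b k233_A00pm_012_s1 t348_A00pm_012_s1

theorem t350_A00pm_012_s1 : ∃ t, chk3 f_A00pm_012_s1 t 670 11 1 = true := ex3_a t349_A00pm_012_s1 t337_A00pm_012_s1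

theorem t351_A00pm_012_s1 : ∃ t, chk3 f_A00pm_012_s1 t 335 11 1 = true := ex3_a t350_A00pm_012_s1 k250_A00pm_012_s1

theorem t352_A00pm_012_s1 : ∃ t, chk3 f_A00pm_012_s1 t 334 11 1 = true := ex3_b k231_A00pm_012_s1 k232_A00pm_012_s1

theorem t353_A00pm_012_s1 : ∃ t, chk3 f_A00pm_012_s1 t 167 11 1 = true := ex3_a t352_A00pm_012_s1 t351_A00pm_012_s1

theorem t354_A00pm_012_s1 : ∃ t, chk3 f_A00pm_012_s1 t 166 23 1 = true := ex3_b k229_A00pm_012_s1 k230_A00pm_012_s1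

theorem t355_A00pm_012_s1 : ∃ t, chk3 f_A00pm_012_s1 t 166 11 1 = true := ex3_b k228_A00pm_012_s1 t354_A00pm_012_s1

theorem t356_A00pm_012_s1 : ∃ t, chk3 f_A00pm_012_s1 t 83 11 1 = true := ex3_a t355_A00pm_012_s1 t353_A00pm_012_s1

theorem t357_A00pm_012_s1 : ∃ t, chk3 f_A00pm_012_s1 t 41 11 1 = true := ex3_a k227_A00pm_012_s1 t356_A00pm_012_s1

theorem t358_A00pm_012_s1 : ∃ t, chk3 f_A00pm_012_s1 t 41 5 1 = true := ex3_b k226_A00pm_012_s1 t357_A00pm_012_s1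

theorem t359_A00pm_012_s1 : ∃ t, chk3 f_A00pm_012_s1 t 20 5 1 = true := ex3_a k225_A00pm_012_s1 t358_A00pm_012_s1

theorem t360_A00pm_012_s1 : ∃ t, chk3 f_A00pm_012_s1 t 10 5 1 = true := ex3_a t359_A00pm_012_s1 k251_A00pm_012_s1

theorem t361_A00pm_012_s1 : ∃ t, chk3 f_A00pm_012_s1 t 10 2 1 = true := ex3_b k224_A00pm_012_s1 t360_A00pm_012_s1

theorem t362_A00pm_012_s1 : ∃ t, chk3 f_A00pm_012_s1 t 5 2 1 = true := ex3_a t361_A00pm_012_s1 k252_A00pm_012_s1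

theorem t363_A00pm_012_s1 : ∃ t, chk3 f_A00pm_012_s1 t 5 1 1 = true := ex3_b t362_A00pm_012_s1 t334_A00pm_012_s1

theorem t364_A00pm_012_s1 : ∃ t, chk3 f_A00pm_012_s1 t 9 31 1 = true := ex3_a k222_A00pm_012_s1 k223_A00pm_012_s1

theorem t365_A00pm_012_s1 : ∃ t, chk3 f_A00pm_012_s1 t 144 240 1 = true := ex3_a k213_A00pm_012_s1 k214_A00pm_012_s1

theorem t366_A00pm_012_s1 : ∃ t, chk3 f_A00pm_012_s1 t 144 120 1 = true := ex3_b t365_A00pm_012_s1 k215_A00pm_012_s1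

theorem t367_A00pm_012_s1 : ∃ t, chk3 f_A00pm_012_s1 t 72 120 1 = true := ex3_a t366_A00pm_012_s1 k216_A00pm_012_s1

theorem t368_A00pm_012_s1 : ∃ t, chk3 f_A00pm_012_s1 t 72 60 1 = true := ex3_b t367_A00pm_012_s1 k217_A00pm_012_s1

theorem t369_A00pm_012_s1 : ∃ t, chk3 f_A00pm_012_s1 t 36 60 1 = true := ex3_a t368_A00pm_012_s1 k218_A00pm_012_s1

theorem t370_A00pm_012_s1 : ∃ t, chk3 f_A00pm_012_s1 t 18 60 1 = true := ex3_a t369_A00pm_012_s1 k219_A00pm_012_s1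

theorem t371_A00pm_012_s1 : ∃ t, chk3 f_A00pm_012_s1 t 18 30 1 = true := ex3_b t370_A00pm_012_s1 k220_A00pm_012_s1

theorem t372_A00pm_012_s1 : ∃ t, chk3 f_A00pm_012_s1 t 9 30 1 = true := ex3_a t371_A00pm_012_s1 k221_A00pm_012_s1

theorem t373_A00pm_012_s1 : ∃ t, chk3 f_A00pm_012_s1 t 9 15 1 = true := ex3_b t372_A00pm_012_s1 t364_A00pm_012_s1

theorem t374_A00pm_012_s1 : ∃ t, chk3 f_A00pm_012_s1 t 38 56 1 = true := ex3_a k208_A00pm_012_s1 k209_A00pm_012_s1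

theorem t375_A00pm_012_s1 : ∃ t, chk3 f_A00pm_012_s1 t 38 28 1 = true := ex3_b t374_A00pm_012_s1 k210_A00pm_012_s1

theorem t376_A00pm_012_s1 : ∃ t, chk3 f_A00pm_012_s1 t 19 28 1 = true := ex3_a t375_A00pm_012_s1 k211_A00pm_012_s1

theorem t377_A00pm_012_s1 : ∃ t, chk3 f_A00pm_012_s1 t 19 14 1 = true := ex3_b t376_A00pm_012_s1 k212_A00pm_012_s1

theorem t378_A00pm_012_s1 : ∃ t, chk3 f_A00pm_012_s1 t 37 58 1 = true := ex3_a k205_A00pm_012_s1 k206_A00pm_012_s1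

theorem t379_A00pm_012_s1 : ∃ t, chk3 f_A00pm_012_s1 t 37 29 1 = true := ex3_b t378_A00pm_012_s1 k207_A00pm_012_s1

theorem t380_A00pm_012_s1 : ∃ t, chk3 f_A00pm_012_s1 t 73 119 1 = true := ex3_a k203_A00pm_012_s1 k204_A00pm_012_s1

theorem t381_A00pm_012_s1 : ∃ t, chk3 f_A00pm_012_s1 t 146 118 1 = true := ex3_a k200_A00pm_012_s1 k201_A00pm_012_s1

theorem t382_A00pm_012_s1 : ∃ t, chk3 f_A00pm_012_s1 t 73 118 1 = true := ex3_a t381_A00pm_012_s1 k202_A00pm_012_s1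

theorem t383_A00pm_012_s1 : ∃ t, chk3 f_A00pm_012_s1 t 73 59 1 = true := ex3_b t382_A00pm_012_s1 t380_A00pm_012_s1

theorem t384_A00pm_012_s1 : ∃ t, chk3 f_A00pm_012_s1 t 145 239 1 = true := ex3_a k198_A00pm_012_s1 k199_A00pm_012_s1

theorem t385_A00pm_012_s1 : ∃ t, chk3 f_A00pm_012_s1 t 291 238 1 = true := ex3_b k196_A00pm_012_s1 k197_A00pm_012_s1

theorem t386_A00pm_012_s1 : ∃ t, chk3 f_A00pm_012_s1 t 145 238 1 = true := ex3_a k195_A00pm_012_s1 t385_A00pm_012_s1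

theorem t387_A00pm_012_s1 : ∃ t, chk3 f_A00pm_012_s1 t 145 119 1 = true := ex3_b t386_A00pm_012_s1 t384_A00pm_012_s1

theorem t388_A00pm_012_s1 : ∃ t, chk3 f_A00pm_012_s1 t 144 119 1 = true := ex3_a k193_A00pm_012_s1 k194_A00pm_012_s1

theorem t389_A00pm_012_s1 : ∃ t, chk3 f_A00pm_012_s1 t 72 119 1 = true := ex3_a t388_A00pm_012_s1 t387_A00pm_012_s1

theorem t390_A00pm_012_s1 : ∃ t, chk3 f_A00pm_012_s1 t 72 59 1 = true := ex3_b k192_A00pm_012_s1 t389_A00pm_012_s1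

theorem t391_A00pm_012_s1 : ∃ t, chk3 f_A00pm_012_s1 t 36 59 1 = true := ex3_a t390_A00pm_012_s1 t383_A00pm_012_s1

theorem t392_A00pm_012_s1 : ∃ t, chk3 f_A00pm_012_s1 t 72 58 1 = true := ex3_a k189_A00pm_012_s1 k190_A00pm_012_s1

theorem t393_A00pm_012_s1 : ∃ t, chk3 f_A00pm_012_s1 t 36 58 1 = true := ex3_a t392_A00pm_012_s1 k191_A00pm_012_s1

theorem t394_A00pm_012_s1 : ∃ t, chk3 f_A00pm_012_s1 t 36 29 1 = true := ex3_b t393_A00pm_012_s1 t391_A00pm_012_s1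

theorem t395_A00pm_012_s1 : ∃ t, chk3 f_A00pm_012_s1 t 18 29 1 = true := ex3_a t394_A00pm_012_s1 t379_A00pm_012_s1

theorem t396_A00pm_012_s1 : ∃ t, chk3 f_A00pm_012_s1 t 18 14 1 = true := ex3_b k188_A00pm_012_s1 t395_A00pm_012_s1

theorem t397_A00pm_012_s1 : ∃ t, chk3 f_A00pm_012_s1 t 9 14 1 = true := ex3_a t396_A00pm_012_s1 t377_A00pm_012_s1

theorem t398_A00pm_012_s1 : ∃ t, chk3 f_A00pm_012_s1 t 9 7 1 = true := ex3_b t397_A00pm_012_s1 t373_A00pm_012_s1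

theorem t399_A00pm_012_s1 : ∃ t, chk3 f_A00pm_012_s1 t 34 63 1 = true := ex3_c k185_A00pm_012_s1 k186_A00pm_012_s1

theorem t400_A00pm_012_s1 : ∃ t, chk3 f_A00pm_012_s1 t 17 63 1 = true := ex3_a t399_A00pm_012_s1 k187_A00pm_012_s1

theorem t401_A00pm_012_s1 : ∃ t, chk3 f_A00pm_012_s1 t 35 62 1 = true := ex3_b k183_A00pm_012_s1 k184_A00pm_012_s1

theorem t402_A00pm_012_s1 : ∃ t, chk3 f_A00pm_012_s1 t 68 125 1 = true := ex3_b k180_A00pm_012_s1 k181_A00pm_012_s1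

theorem t403_A00pm_012_s1 : ∃ t, chk3 f_A00pm_012_s1 t 34 125 1 = true := ex3_a t402_A00pm_012_s1 k182_A00pm_012_s1

theorem t404_A00pm_012_s1 : ∃ t, chk3 f_A00pm_012_s1 t 68 124 1 = true := ex3_a k177_A00pm_012_s1 k178_A00pm_012_s1

theorem t405_A00pm_012_s1 : ∃ t, chk3 f_A00pm_012_s1 t 34 124 1 = true := ex3_a t404_A00pm_012_s1 k179_A00pm_012_s1

theorem t406_A00pm_012_s1 : ∃ t, chk3 f_A00pm_012_s1 t 34 62 1 = true := ex3_b t405_A00pm_012_s1 t403_A00pm_012_s1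

theorem t407_A00pm_012_s1 : ∃ t, chk3 f_A00pm_012_s1 t 17 62 1 = true := ex3_a t406_A00pm_012_s1 t401_A00pm_012_s1

theorem t408_A00pm_012_s1 : ∃ t, chk3 f_A00pm_012_s1 t 17 31 1 = true := ex3_b t407_A00pm_012_s1 t400_A00pm_012_s1

theorem t409_A00pm_012_s1 : ∃ t, chk3 f_A00pm_012_s1 t 70 122 1 = true := ex3_a k173_A00pm_012_s1 k174_A00pm_012_s1

theorem t410_A00pm_012_s1 : ∃ t, chk3 f_A00pm_012_s1 t 70 61 1 = true := ex3_b t409_A00pm_012_s1 k175_A00pm_012_s1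

theorem t411_A00pm_012_s1 : ∃ t, chk3 f_A00pm_012_s1 t 35 61 1 = true := ex3_a t410_A00pm_012_s1 k176_A00pm_012_s1

theorem t412_A00pm_012_s1 : ∃ t, chk3 f_A00pm_012_s1 t 142 121 1 = true := ex3_b k170_A00pm_012_s1 k171_A00pm_012_s1

theorem t413_A00pm_012_s1 : ∃ t, chk3 f_A00pm_012_s1 t 71 121 1 = true := ex3_a t412_A00pm_012_s1 k172_A00pm_012_s1

theorem t414_A00pm_012_s1 : ∃ t, chk3 f_A00pm_012_s1 t 143 120 1 = true := ex3_a k168_A00pm_012_s1 k169_A00pm_012_s1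

theorem t415_A00pm_012_s1 : ∃ t, chk3 f_A00pm_012_s1 t 71 120 1 = true := ex3_a k167_A00pm_012_s1 t414_A00pm_012_s1

theorem t416_A00pm_012_s1 : ∃ t, chk3 f_A00pm_012_s1 t 71 60 1 = true := ex3_b t415_A00pm_012_s1 t413_A00pm_012_s1

theorem t417_A00pm_012_s1 : ∃ t, chk3 f_A00pm_012_s1 t 70 60 1 = true := ex3_b k165_A00pm_012_s1 k166_A00pm_012_s1

theorem t418_A00pm_012_s1 : ∃ t, chk3 f_A00pm_012_s1 t 35 60 1 = true := ex3_a t417_A00pm_012_s1 t416_A00pm_012_s1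

theorem t419_A00pm_012_s1 : ∃ t, chk3 f_A00pm_012_s1 t 35 30 1 = true := ex3_b t418_A00pm_012_s1 t411_A00pm_012_s1

theorem t420_A00pm_012_s1 : ∃ t, chk3 f_A00pm_012_s1 t 69 123 1 = true := ex3_a k163_A00pm_012_s1 k164_A00pm_012_s1

theorem t421_A00pm_012_s1 : ∃ t, chk3 f_A00pm_012_s1 t 69 61 1 = true := ex3_b k162_A00pm_012_s1 t420_A00pm_012_s1

theorem t422_A00pm_012_s1 : ∃ t, chk3 f_A00pm_012_s1 t 34 61 1 = true := ex3_a k161_A00pm_012_s1 t421_A00pm_012_s1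

theorem t423_A00pm_012_s1 : ∃ t, chk3 f_A00pm_012_s1 t 34 30 1 = true := ex3_b k160_A00pm_012_s1 t422_A00pm_012_s1

theorem t424_A00pm_012_s1 : ∃ t, chk3 f_A00pm_012_s1 t 17 30 1 = true := ex3_a t423_A00pm_012_s1 t419_A00pm_012_s1

theorem t425_A00pm_012_s1 : ∃ t, chk3 f_A00pm_012_s1 t 17 15 1 = true := ex3_b t424_A00pm_012_s1 t408_A00pm_012_s1

theorem t426_A00pm_012_s1 : ∃ t, chk3 f_A00pm_012_s1 t 66 127 3 = true := ex3_b k157_A00pm_012_s1 k158_A00pm_012_s1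

theorem t427_A00pm_012_s1 : ∃ t, chk3 f_A00pm_012_s1 t 66 127 1 = true := ex3_c k156_A00pm_012_s1 t426_A00pm_012_s1

theorem t428_A00pm_012_s1 : ∃ t, chk3 f_A00pm_012_s1 t 33 127 1 = true := ex3_a t427_A00pm_012_s1 k159_A00pm_012_s1

theorem t429_A00pm_012_s1 : ∃ t, chk3 f_A00pm_012_s1 t 135 126 1 = true := ex3_a k154_A00pm_012_s1 k155_A00pm_012_s1

theorem t430_A00pm_012_s1 : ∃ t, chk3 f_A00pm_012_s1 t 134 253 1 = true := ex3_c k152_A00pm_012_s1 k153_A00pm_012_s1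

theorem t431_A00pm_012_s1 : ∃ t, chk3 f_A00pm_012_s1 t 134 252 1 = true := ex3_c k150_A00pm_012_s1 k151_A00pm_012_s1

theorem t432_A00pm_012_s1 : ∃ t, chk3 f_A00pm_012_s1 t 134 126 1 = true := ex3_b t431_A00pm_012_s1 t430_A00pm_012_s1

theorem t433_A00pm_012_s1 : ∃ t, chk3 f_A00pm_012_s1 t 67 126 1 = true := ex3_a t432_A00pm_012_s1 t429_A00pm_012_s1

theorem t434_A00pm_012_s1 : ∃ t, chk3 f_A00pm_012_s1 t 133 253 3 = true := ex3_b k148_A00pm_012_s1 k149_A00pm_012_s1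

theorem t435_A00pm_012_s1 : ∃ t, chk3 f_A00pm_012_s1 t 133 253 2 = true := ex3_b k146_A00pm_012_s1 k147_A00pm_012_s1

theorem t436_A00pm_012_s1 : ∃ t, chk3 f_A00pm_012_s1 t 133 253 1 = true := ex3_c t435_A00pm_012_s1 t434_A00pm_012_s1

theorem t437_A00pm_012_s1 : ∃ t, chk3 f_A00pm_012_s1 t 265 253 1 = true := ex3_c k144_A00pm_012_s1 k145_A00pm_012_s1

theorem t438_A00pm_012_s1 : ∃ t, chk3 f_A00pm_012_s1 t 264 253 1 = true := ex3_b k142_A00pm_012_s1 k143_A00pm_012_s1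

theorem t439_A00pm_012_s1 : ∃ t, chk3 f_A00pm_012_s1 t 132 253 1 = true := ex3_a t438_A00pm_012_s1 t437_A00pm_012_s1

theorem t440_A00pm_012_s1 : ∃ t, chk3 f_A00pm_012_s1 t 66 253 1 = true := ex3_a t439_A00pm_012_s1 t436_A00pm_012_s1

theorem t441_A00pm_012_s1 : ∃ t, chk3 f_A00pm_012_s1 t 266 252 1 = true := ex3_b k139_A00pm_012_s1 k140_A00pm_012_s1

theorem t442_A00pm_012_s1 : ∃ t, chk3 f_A00pm_012_s1 t 133 252 1 = true := ex3_a t441_A00pm_012_s1 k141_A00pm_012_s1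

theorem t443_A00pm_012_s1 : ∃ t, chk3 f_A00pm_012_s1 t 265 504 1 = true := ex3_a k136_A00pm_012_s1 k137_A00pm_012_s1

theorem t444_A00pm_012_s1 : ∃ t, chk3 f_A00pm_012_s1 t 265 252 1 = true := ex3_b t443_A00pm_012_s1 k138_A00pm_012_s1

theorem t445_A00pm_012_s1 : ∃ t, chk3 f_A00pm_012_s1 t 528 505 1 = true := ex3_b k133_A00pm_012_s1 k134_A00pm_012_s1

theorem t446_A00pm_012_s1 : ∃ t, chk3 f_A00pm_012_s1 t 264 505 1 = true := ex3_a t445_A00pm_012_s1 k135_A00pm_012_s1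

theorem t447_A00pm_012_s1 : ∃ t, chk3 f_A00pm_012_s1 t 264 252 1 = true := ex3_b k132_A00pm_012_s1 t446_A00pm_012_s1

theorem t448_A00pm_012_s1 : ∃ t, chk3 f_A00pm_012_s1 t 132 252 1 = true := ex3_a t447_A00pm_012_s1 t444_A00pm_012_s1

theorem t449_A00pm_012_s1 : ∃ t, chk3 f_A00pm_012_s1 t 66 252 1 = true := ex3_a t448_A00pm_012_s1 t442_A00pm_012_s1

theorem t450_A00pm_012_s1 : ∃ t, chk3 f_A00pm_012_s1 t 66 126 1 = true := ex3_b t449_A00pm_012_s1 t440_A00pm_012_s1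

theorem t451_A00pm_012_s1 : ∃ t, chk3 f_A00pm_012_s1 t 33 126 1 = true := ex3_a t450_A00pm_012_s1 t433_A00pm_012_s1

theorem t452_A00pm_012_s1 : ∃ t, chk3 f_A00pm_012_s1 t 33 63 1 = true := ex3_b t451_A00pm_012_s1 t428_A00pm_012_s1

theorem t453_A00pm_012_s1 : ∃ t, chk3 f_A00pm_012_s1 t 263 254 1 = true := ex3_c k129_A00pm_012_s1 k130_A00pm_012_s1

theorem t454_A00pm_012_s1 : ∃ t, chk3 f_A00pm_012_s1 t 262 509 1 = true := ex3_c k127_A00pm_012_s1 k128_A00pm_012_s1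

theorem t455_A00pm_012_s1 : ∃ t, chk3 f_A00pm_012_s1 t 262 508 1 = true := ex3_c k125_A00pm_012_s1 k126_A00pm_012_s1

theorem t456_A00pm_012_s1 : ∃ t, chk3 f_A00pm_012_s1 t 262 254 1 = true := ex3_b t455_A00pm_012_s1 t454_A00pm_012_s1

theorem t457_A00pm_012_s1 : ∃ t, chk3 f_A00pm_012_s1 t 131 254 1 = true := ex3_a t456_A00pm_012_s1 t453_A00pm_012_s1

theorem t458_A00pm_012_s1 : ∃ t, chk3 f_A00pm_012_s1 t 130 509 1 = true := ex3_b k123_A00pm_012_s1 k124_A00pm_012_s1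

theorem t459_A00pm_012_s1 : ∃ t, chk3 f_A00pm_012_s1 t 522 508 1 = true := ex3_b k120_A00pm_012_s1 k121_A00pm_012_s1

theorem t460_A00pm_012_s1 : ∃ t, chk3 f_A00pm_012_s1 t 261 508 1 = true := ex3_a t459_A00pm_012_s1 k122_A00pm_012_s1

theorem t461_A00pm_012_s1 : ∃ t, chk3 f_A00pm_012_s1 t 2086 4064 3 = true := ex3_b k114_A00pm_012_s1 k115_A00pm_012_s1

theorem t462_A00pm_012_s1 : ∃ t, chk3 f_A00pm_012_s1 t 2086 2032 3 = true := ex3_b t461_A00pm_012_s1 k116_A00pm_012_s1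

theorem t463_A00pm_012_s1 : ∃ t, chk3 f_A00pm_012_s1 t 1043 2032 3 = true := ex3_a t462_A00pm_012_s1 k117_A00pm_012_s1

theorem t464_A00pm_012_s1 : ∃ t, chk3 f_A00pm_012_s1 t 1043 2032 1 = true := ex3_c k113_A00pm_012_s1 t463_A00pm_012_s1

theorem t465_A00pm_012_s1 : ∃ t, chk3 f_A00pm_012_s1 t 1043 1016 1 = true := ex3_b t464_A00pm_012_s1 k118_A00pm_012_s1

theorem t466_A00pm_012_s1 : ∃ t, chk3 f_A00pm_012_s1 t 4168 2033 1 = true := ex3_a k109_A00pm_012_s1 k110_A00pm_012_s1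

theorem t467_A00pm_012_s1 : ∃ t, chk3 f_A00pm_012_s1 t 2084 2033 1 = true := ex3_a t466_A00pm_012_s1 k111_A00pm_012_s1

theorem t468_A00pm_012_s1 : ∃ t, chk3 f_A00pm_012_s1 t 1042 2033 1 = true := ex3_a t467_A00pm_012_s1 k112_A00pm_012_s1

theorem t469_A00pm_012_s1 : ∃ t, chk3 f_A00pm_012_s1 t 2085 4065 1 = true := ex3_b k107_A00pm_012_s1 k108_A00pm_012_s1

theorem t470_A00pm_012_s1 : ∃ t, chk3 f_A00pm_012_s1 t 2085 2032 1 = true := ex3_b k106_A00pm_012_s1 t469_A00pm_012_s1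

theorem t471_A00pm_012_s1 : ∃ t, chk3 f_A00pm_012_s1 t 1042 2032 1 = true := ex3_a k105_A00pm_012_s1 t470_A00pm_012_s1

theorem t472_A00pm_012_s1 : ∃ t, chk3 f_A00pm_012_s1 t 1042 1016 1 = true := ex3_b t471_A00pm_012_s1 t468_A00pm_012_s1

theorem t473_A00pm_012_s1 : ∃ t, chk3 f_A00pm_012_s1 t 521 1016 1 = true := ex3_a t472_A00pm_012_s1 t465_A00pm_012_s1

theorem t474_A00pm_012_s1 : ∃ t, chk3 f_A00pm_012_s1 t 521 508 1 = true := ex3_b t473_A00pm_012_s1 k119_A00pm_012_s1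

theorem t475_A00pm_012_s1 : ∃ t, chk3 f_A00pm_012_s1 t 2083 8133 1 = true := ex3_b k101_A00pm_012_s1 k102_A00pm_012_s1

theorem t476_A00pm_012_s1 : ∃ t, chk3 f_A00pm_012_s1 t 2083 4066 1 = true := ex3_b k100_A00pm_012_s1 t475_A00pm_012_s1

theorem t477_A00pm_012_s1 : ∃ t, chk3 f_A00pm_012_s1 t 2083 2033 1 = true := ex3_b t476_A00pm_012_s1 k103_A00pm_012_s1

theorem t478_A00pm_012_s1 : ∃ t, chk3 f_A00pm_012_s1 t 1041 2033 1 = true := ex3_a k99_A00pm_012_s1 t477_A00pm_012_s1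

theorem t479_A00pm_012_s1 : ∃ t, chk3 f_A00pm_012_s1 t 520 2033 1 = true := ex3_a k98_A00pm_012_s1 t478_A00pm_012_s1

theorem t480_A00pm_012_s1 : ∃ t, chk3 f_A00pm_012_s1 t 520 1016 1 = true := ex3_b k97_A00pm_012_s1 t479_A00pm_012_s1

theorem t481_A00pm_012_s1 : ∃ t, chk3 f_A00pm_012_s1 t 520 508 1 = true := ex3_b t480_A00pm_012_s1 k104_A00pm_012_s1

theorem t482_A00pm_012_s1 : ∃ t, chk3 f_A00pm_012_s1 t 260 508 1 = true := ex3_a t481_A00pm_012_s1 t474_A00pm_012_s1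

theorem t483_A00pm_012_s1 : ∃ t, chk3 f_A00pm_012_s1 t 130 508 1 = true := ex3_a t482_A00pm_012_s1 t460_A00pm_012_s1

theorem t484_A00pm_012_s1 : ∃ t, chk3 f_A00pm_012_s1 t 130 254 1 = true := ex3_b t483_A00pm_012_s1 t458_A00pm_012_s1

theorem t485_A00pm_012_s1 : ∃ t, chk3 f_A00pm_012_s1 t 65 254 1 = true := ex3_a t484_A00pm_012_s1 t457_A00pm_012_s1

theorem t486_A00pm_012_s1 : ∃ t, chk3 f_A00pm_012_s1 t 65 127 1 = true := ex3_b t485_A00pm_012_s1 k131_A00pm_012_s1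

theorem t487_A00pm_012_s1 : ∃ t, chk3 f_A00pm_012_s1 t 32 127 1 = true := ex3_a k96_A00pm_012_s1 t486_A00pm_012_s1

theorem t488_A00pm_012_s1 : ∃ t, chk3 f_A00pm_012_s1 t 263 507 1 = true := ex3_c k94_A00pm_012_s1 k95_A00pm_012_s1

theorem t489_A00pm_012_s1 : ∃ t, chk3 f_A00pm_012_s1 t 526 1012 1 = true := ex3_a k90_A00pm_012_s1 k91_A00pm_012_s1

theorem t490_A00pm_012_s1 : ∃ t, chk3 f_A00pm_012_s1 t 526 506 1 = true := ex3_b t489_A00pm_012_s1 k92_A00pm_012_s1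

theorem t491_A00pm_012_s1 : ∃ t, chk3 f_A00pm_012_s1 t 263 506 1 = true := ex3_a t490_A00pm_012_s1 k93_A00pm_012_s1

theorem t492_A00pm_012_s1 : ∃ t, chk3 f_A00pm_012_s1 t 263 253 1 = true := ex3_b t491_A00pm_012_s1 t488_A00pm_012_s1

theorem t493_A00pm_012_s1 : ∃ t, chk3 f_A00pm_012_s1 t 524 1014 1 = true := ex3_a k86_A00pm_012_s1 k87_A00pm_012_s1

theorem t494_A00pm_012_s1 : ∃ t, chk3 f_A00pm_012_s1 t 524 507 1 = true := ex3_b t493_A00pm_012_s1 k88_A00pm_012_s1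

theorem t495_A00pm_012_s1 : ∃ t, chk3 f_A00pm_012_s1 t 262 507 1 = true := ex3_a t494_A00pm_012_s1 k89_A00pm_012_s1

theorem t496_A00pm_012_s1 : ∃ t, chk3 f_A00pm_012_s1 t 525 1013 1 = true := ex3_a k84_A00pm_012_s1 k85_A00pm_012_s1

theorem t497_A00pm_012_s1 : ∃ t, chk3 f_A00pm_012_s1 t 525 2025 1 = true := ex3_b k82_A00pm_012_s1 k83_A00pm_012_s1

theorem t498_A00pm_012_s1 : ∃ t, chk3 f_A00pm_012_s1 t 525 1012 1 = true := ex3_b k81_A00pm_012_s1 t497_A00pm_012_s1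

theorem t499_A00pm_012_s1 : ∃ t, chk3 f_A00pm_012_s1 t 525 506 1 = true := ex3_b t498_A00pm_012_s1 t496_A00pm_012_s1

theorem t500_A00pm_012_s1 : ∃ t, chk3 f_A00pm_012_s1 t 1049 1013 1 = true := ex3_a k79_A00pm_012_s1 k80_A00pm_012_s1

theorem t501_A00pm_012_s1 : ∃ t, chk3 f_A00pm_012_s1 t 1048 2027 1 = true := ex3_a k77_A00pm_012_s1 k78_A00pm_012_s1

theorem t502_A00pm_012_s1 : ∃ t, chk3 f_A00pm_012_s1 t 1048 1013 1 = true := ex3_b k76_A00pm_012_s1 t501_A00pm_012_s1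

theorem t503_A00pm_012_s1 : ∃ t, chk3 f_A00pm_012_s1 t 524 1013 1 = true := ex3_a t502_A00pm_012_s1 t500_A00pm_012_s1

theorem t504_A00pm_012_s1 : ∃ t, chk3 f_A00pm_012_s1 t 524 506 1 = true := ex3_b k75_A00pm_012_s1 t503_A00pm_012_s1

theorem t505_A00pm_012_s1 : ∃ t, chk3 f_A00pm_012_s1 t 262 506 1 = true := ex3_a t504_A00pm_012_s1 t499_A00pm_012_s1

theorem t506_A00pm_012_s1 : ∃ t, chk3 f_A00pm_012_s1 t 262 253 1 = true := ex3_b t505_A00pm_012_s1 t495_A00pm_012_s1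

theorem t507_A00pm_012_s1 : ∃ t, chk3 f_A00pm_012_s1 t 131 253 1 = true := ex3_a t506_A00pm_012_s1 t492_A00pm_012_s1

theorem t508_A00pm_012_s1 : ∃ t, chk3 f_A00pm_012_s1 t 263 2023 1 = true := ex3_a k73_A00pm_012_s1 k74_A00pm_012_s1

theorem t509_A00pm_012_s1 : ∃ t, chk3 f_A00pm_012_s1 t 263 1011 1 = true := ex3_b k72_A00pm_012_s1 t508_A00pm_012_s1

theorem t510_A00pm_012_s1 : ∃ t, chk3 f_A00pm_012_s1 t 131 1011 1 = true := ex3_a k71_A00pm_012_s1 t509_A00pm_012_s1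

theorem t511_A00pm_012_s1 : ∃ t, chk3 f_A00pm_012_s1 t 131 505 1 = true := ex3_b k70_A00pm_012_s1 t510_A00pm_012_s1

theorem t512_A00pm_012_s1 : ∃ t, chk3 f_A00pm_012_s1 t 131 252 1 = true := ex3_b k69_A00pm_012_s1 t511_A00pm_012_s1

theorem t513_A00pm_012_s1 : ∃ t, chk3 f_A00pm_012_s1 t 131 126 1 = true := ex3_b t512_A00pm_012_s1 t507_A00pm_012_s1

theorem t514_A00pm_012_s1 : ∃ t, chk3 f_A00pm_012_s1 t 523 1015 1 = true := ex3_c k67_A00pm_012_s1 k68_A00pm_012_s1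

theorem t515_A00pm_012_s1 : ∃ t, chk3 f_A00pm_012_s1 t 1047 2028 3 = true := ex3_b k64_A00pm_012_s1 k65_A00pm_012_s1

theorem t516_A00pm_012_s1 : ∃ t, chk3 f_A00pm_012_s1 t 1047 2028 1 = true := ex3_c k63_A00pm_012_s1 t515_A00pm_012_s1

theorem t517_A00pm_012_s1 : ∃ t, chk3 f_A00pm_012_s1 t 1047 1014 1 = true := ex3_b t516_A00pm_012_s1 k66_A00pm_012_s1

theorem t518_A00pm_012_s1 : ∃ t, chk3 f_A00pm_012_s1 t 2093 4058 1 = true := ex3_c k60_A00pm_012_s1 k61_A00pm_012_s1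

theorem t519_A00pm_012_s1 : ∃ t, chk3 f_A00pm_012_s1 t 2093 2029 1 = true := ex3_b t518_A00pm_012_s1 k62_A00pm_012_s1

theorem t520_A00pm_012_s1 : ∃ t, chk3 f_A00pm_012_s1 t 2093 1014 1 = true := ex3_b k59_A00pm_012_s1 t519_A00pm_012_s1

theorem t521_A00pm_012_s1 : ∃ t, chk3 f_A00pm_012_s1 t 2092 1014 1 = true := ex3_a k57_A00pm_012_s1 k58_A00pm_012_s1

theorem t522_A00pm_012_s1 : ∃ t, chk3 f_A00pm_012_s1 t 1046 1014 1 = true := ex3_a t521_A00pm_012_s1 t520_A00pm_012_s1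

theorem t523_A00pm_012_s1 : ∃ t, chk3 f_A00pm_012_s1 t 523 1014 1 = true := ex3_a t522_A00pm_012_s1 t517_A00pm_012_s1

theorem t524_A00pm_012_s1 : ∃ t, chk3 f_A00pm_012_s1 t 523 507 1 = true := ex3_b t523_A00pm_012_s1 t514_A00pm_012_s1

theorem t525_A00pm_012_s1 : ∃ t, chk3 f_A00pm_012_s1 t 1045 4060 3 = true := ex3_b k53_A00pm_012_s1 k54_A00pm_012_s1

theorem t526_A00pm_012_s1 : ∃ t, chk3 f_A00pm_012_s1 t 1045 2030 3 = true := ex3_b t525_A00pm_012_s1 k55_A00pm_012_s1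

theorem t527_A00pm_012_s1 : ∃ t, chk3 f_A00pm_012_s1 t 1045 2030 1 = true := ex3_c k52_A00pm_012_s1 t526_A00pm_012_s1

theorem t528_A00pm_012_s1 : ∃ t, chk3 f_A00pm_012_s1 t 1045 1015 1 = true := ex3_b t527_A00pm_012_s1 k56_A00pm_012_s1

theorem t529_A00pm_012_s1 : ∃ t, chk3 f_A00pm_012_s1 t 1044 4062 3 = true := ex3_a k49_A00pm_012_s1 k50_A00pm_012_s1

theorem t530_A00pm_012_s1 : ∃ t, chk3 f_A00pm_012_s1 t 1044 2031 3 = true := ex3_b t529_A00pm_012_s1 k51_A00pm_012_s1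

theorem t531_A00pm_012_s1 : ∃ t, chk3 f_A00pm_012_s1 t 1044 2031 1 = true := ex3_c k48_A00pm_012_s1 t530_A00pm_012_s1

theorem t532_A00pm_012_s1 : ∃ t, chk3 f_A00pm_012_s1 t 1044 1015 1 = true := ex3_b k47_A00pm_012_s1 t531_A00pm_012_s1

theorem t533_A00pm_012_s1 : ∃ t, chk3 f_A00pm_012_s1 t 522 1015 1 = true := ex3_a t532_A00pm_012_s1 t528_A00pm_012_s1

theorem t534_A00pm_012_s1 : ∃ t, chk3 f_A00pm_012_s1 t 522 507 1 = true := ex3_b k46_A00pm_012_s1 t533_A00pm_012_s1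

theorem t535_A00pm_012_s1 : ∃ t, chk3 f_A00pm_012_s1 t 261 507 1 = true := ex3_a t534_A00pm_012_s1 t524_A00pm_012_s1

theorem t536_A00pm_012_s1 : ∃ t, chk3 f_A00pm_012_s1 t 261 253 1 = true := ex3_b k45_A00pm_012_s1 t535_A00pm_012_s1

theorem t537_A00pm_012_s1 : ∃ t, chk3 f_A00pm_012_s1 t 2087 2031 1 = true := ex3_a k43_A00pm_012_s1 k44_A00pm_012_s1

theorem t538_A00pm_012_s1 : ∃ t, chk3 f_A00pm_012_s1 t 1043 2031 1 = true := ex3_a k42_A00pm_012_s1 t537_A00pm_012_s1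

theorem t539_A00pm_012_s1 : ∃ t, chk3 f_A00pm_012_s1 t 521 2031 1 = true := ex3_a k41_A00pm_012_s1 t538_A00pm_012_s1

theorem t540_A00pm_012_s1 : ∃ t, chk3 f_A00pm_012_s1 t 521 1015 1 = true := ex3_b k40_A00pm_012_s1 t539_A00pm_012_s1

theorem t541_A00pm_012_s1 : ∃ t, chk3 f_A00pm_012_s1 t 260 1015 1 = true := ex3_a k39_A00pm_012_s1 t540_A00pm_012_s1

theorem t542_A00pm_012_s1 : ∃ t, chk3 f_A00pm_012_s1 t 260 507 1 = true := ex3_b k38_A00pm_012_s1 t541_A00pm_012_s1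

theorem t543_A00pm_012_s1 : ∃ t, chk3 f_A00pm_012_s1 t 260 253 1 = true := ex3_b k37_A00pm_012_s1 t542_A00pm_012_s1

theorem t544_A00pm_012_s1 : ∃ t, chk3 f_A00pm_012_s1 t 130 253 1 = true := ex3_a t543_A00pm_012_s1 t536_A00pm_012_s1

theorem t545_A00pm_012_s1 : ∃ t, chk3 f_A00pm_012_s1 t 130 126 1 = true := ex3_b k36_A00pm_012_s1 t544_A00pm_012_s1

theorem t546_A00pm_012_s1 : ∃ t, chk3 f_A00pm_012_s1 t 65 126 1 = true := ex3_a t545_A00pm_012_s1 t513_A00pm_012_s1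

theorem t547_A00pm_012_s1 : ∃ t, chk3 f_A00pm_012_s1 t 32 126 1 = true := ex3_a k35_A00pm_012_s1 t546_A00pm_012_s1

theorem t548_A00pm_012_s1 : ∃ t, chk3 f_A00pm_012_s1 t 32 63 1 = true := ex3_b t547_A00pm_012_s1 t487_A00pm_012_s1

theorem t549_A00pm_012_s1 : ∃ t, chk3 f_A00pm_012_s1 t 16 63 1 = true := ex3_a t548_A00pm_012_s1 t452_A00pm_012_s1

theorem t550_A00pm_012_s1 : ∃ t, chk3 f_A00pm_012_s1 t 135 125 1 = true := ex3_c k33_A00pm_012_s1 k34_A00pm_012_s1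

theorem t551_A00pm_012_s1 : ∃ t, chk3 f_A00pm_012_s1 t 134 250 1 = true := ex3_a k30_A00pm_012_s1 k31_A00pm_012_s1

theorem t552_A00pm_012_s1 : ∃ t, chk3 f_A00pm_012_s1 t 134 125 1 = true := ex3_b t551_A00pm_012_s1 k32_A00pm_012_s1

theorem t553_A00pm_012_s1 : ∃ t, chk3 f_A00pm_012_s1 t 67 125 1 = true := ex3_a t552_A00pm_012_s1 t550_A00pm_012_s1

theorem t554_A00pm_012_s1 : ∃ t, chk3 f_A00pm_012_s1 t 67 124 1 = true := ex3_a k28_A00pm_012_s1 k29_A00pm_012_s1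

theorem t555_A00pm_012_s1 : ∃ t, chk3 f_A00pm_012_s1 t 67 62 1 = true := ex3_b t554_A00pm_012_s1 t553_A00pm_012_s1

theorem t556_A00pm_012_s1 : ∃ t, chk3 f_A00pm_012_s1 t 266 251 1 = true := ex3_a k25_A00pm_012_s1 k26_A00pm_012_s1

theorem t557_A00pm_012_s1 : ∃ t, chk3 f_A00pm_012_s1 t 133 251 1 = true := ex3_a t556_A00pm_012_s1 k27_A00pm_012_s1

theorem t558_A00pm_012_s1 : ∃ t, chk3 f_A00pm_012_s1 t 133 125 1 = true := ex3_b k24_A00pm_012_s1 t557_A00pm_012_s1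

theorem t559_A00pm_012_s1 : ∃ t, chk3 f_A00pm_012_s1 t 66 125 1 = true := ex3_a k23_A00pm_012_s1 t558_A00pm_012_s1

theorem t560_A00pm_012_s1 : ∃ t, chk3 f_A00pm_012_s1 t 66 62 1 = true := ex3_b k22_A00pm_012_s1 t559_A00pm_012_s1

theorem t561_A00pm_012_s1 : ∃ t, chk3 f_A00pm_012_s1 t 33 62 1 = true := ex3_a t560_A00pm_012_s1 t555_A00pm_012_s1

theorem t562_A00pm_012_s1 : ∃ t, chk3 f_A00pm_012_s1 t 16 62 1 = true := ex3_a k21_A00pm_012_s1 t561_A00pm_012_s1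

theorem t563_A00pm_012_s1 : ∃ t, chk3 f_A00pm_012_s1 t 16 31 1 = true := ex3_b t562_A00pm_012_s1 t549_A00pm_012_s1

theorem t564_A00pm_012_s1 : ∃ t, chk3 f_A00pm_012_s1 t 16 15 1 = true := ex3_b k20_A00pm_012_s1 t563_A00pm_012_s1

theorem t565_A00pm_012_s1 : ∃ t, chk3 f_A00pm_012_s1 t 8 15 1 = true := ex3_a t564_A00pm_012_s1 t425_A00pm_012_s1

theorem t566_A00pm_012_s1 : ∃ t, chk3 f_A00pm_012_s1 t 8 7 1 = true := ex3_b k19_A00pm_012_s1 t565_A00pm_012_s1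

theorem t567_A00pm_012_s1 : ∃ t, chk3 f_A00pm_012_s1 t 4 7 1 = true := ex3_a t566_A00pm_012_s1 t398_A00pm_012_s1

theorem t568_A00pm_012_s1 : ∃ t, chk3 f_A00pm_012_s1 t 79 108 1 = true := ex3_a k15_A00pm_012_s1 k16_A00pm_012_s1

theorem t569_A00pm_012_s1 : ∃ t, chk3 f_A00pm_012_s1 t 79 54 1 = true := ex3_b t568_A00pm_012_s1 k17_A00pm_012_s1

theorem t570_A00pm_012_s1 : ∃ t, chk3 f_A00pm_012_s1 t 79 27 1 = true := ex3_b t569_A00pm_012_s1 k18_A00pm_012_s1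

theorem t571_A00pm_012_s1 : ∃ t, chk3 f_A00pm_012_s1 t 78 55 1 = true := ex3_a k13_A00pm_012_s1 k14_A00pm_012_s1

theorem t572_A00pm_012_s1 : ∃ t, chk3 f_A00pm_012_s1 t 78 27 1 = true := ex3_b k12_A00pm_012_s1 t571_A00pm_012_s1

theorem t573_A00pm_012_s1 : ∃ t, chk3 f_A00pm_012_s1 t 39 27 1 = true := ex3_a t572_A00pm_012_s1 t570_A00pm_012_s1

theorem t574_A00pm_012_s1 : ∃ t, chk3 f_A00pm_012_s1 t 159 107 3 = true := ex3_b k10_A00pm_012_s1 k11_A00pm_012_s1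

theorem t575_A00pm_012_s1 : ∃ t, chk3 f_A00pm_012_s1 t 159 53 3 = true := ex3_b k9_A00pm_012_s1 t574_A00pm_012_s1

theorem t576_A00pm_012_s1 : ∃ t, chk3 f_A00pm_012_s1 t 159 53 1 = true := ex3_c k8_A00pm_012_s1 t575_A00pm_012_s1

theorem t577_A00pm_012_s1 : ∃ t, chk3 f_A00pm_012_s1 t 79 53 1 = true := ex3_a k7_A00pm_012_s1 t576_A00pm_012_s1

theorem t578_A00pm_012_s1 : ∃ t, chk3 f_A00pm_012_s1 t 39 53 1 = true := ex3_a k6_A00pm_012_s1 t577_A00pm_012_s1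

theorem t579_A00pm_012_s1 : ∃ t, chk3 f_A00pm_012_s1 t 39 26 1 = true := ex3_b k5_A00pm_012_s1 t578_A00pm_012_s1

theorem t580_A00pm_012_s1 : ∃ t, chk3 f_A00pm_012_s1 t 39 13 1 = true := ex3_b t579_A00pm_012_s1 t573_A00pm_012_s1

theorem t581_A00pm_012_s1 : ∃ t, chk3 f_A00pm_012_s1 t 19 13 1 = true := ex3_a k4_A00pm_012_s1 t580_A00pm_012_s1

theorem t582_A00pm_012_s1 : ∃ t, chk3 f_A00pm_012_s1 t 9 13 1 = true := ex3_a k3_A00pm_012_s1 t581_A00pm_012_s1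

theorem t583_A00pm_012_s1 : ∃ t, chk3 f_A00pm_012_s1 t 9 6 1 = true := ex3_b k2_A00pm_012_s1 t582_A00pm_012_s1

theorem t584_A00pm_012_s1 : ∃ t, chk3 f_A00pm_012_s1 t 4 6 1 = true := ex3_a k1_A00pm_012_s1 t583_A00pm_012_s1

theorem t585_A00pm_012_s1 : ∃ t, chk3 f_A00pm_012_s1 t 4 3 1 = true := ex3_b t584_A00pm_012_s1 t567_A00pm_012_s1

theorem t586_A00pm_012_s1 : ∃ t, chk3 f_A00pm_012_s1 t 4 1 1 = true := ex3_b k0_A00pm_012_s1 t585_A00pm_012_s1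

theorem t587_A00pm_012_s1 : ∃ t, chk3 f_A00pm_012_s1 t 2 1 1 = true := ex3_a t586_A00pm_012_s1 t363_A00pm_012_s1

theorem t588_A00pm_012_s1 : ∃ t, chk3 f_A00pm_012_s1 t 1 1 1 = true := ex3_a t587_A00pm_012_s1 k294_A00pm_012_s1

theorem c_A00pm_012_s1 : CertF 0 536870912 536870912 536870912 1020054732 13421774 true true false .pnp 0 1 2
    ndB0q0 ndB0q1 pcB2 cut_A00pm_012_s1 xt_A00pm_012_s1 :=
  certF2 (fam := true) (s1 := true) (s2 := false) (a := 0) (b := 1) (c := 2) (cn := .pnp) (n1 := ndB0q0) (n2 := ndB0q1) (pc := pcB2) (cut := cut_A00pm_012_s1) (xt := xt_A00pm_012_s1) (P1 := 0) (W1 := 536870912) (P2 := 536870912) (W2 := 536870912) (P3 := 1020054732) (W3 := 13421774)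
    rfl (fun _ => rfl) t588_A00pm_012_s1

theorem s_A00pm_012_s1 {κ x : ℝ} (hκ : κ * h0 = ken x) (hx : ((1020054732 : ℕ) : ℝ) / S ≤ x)
    (hx' : x ≤ (((1020054732 : ℕ) : ℝ) + (13421774 : ℕ)) / S)
    (H : CutA (VFD κ) PP tK tL pcB (Cut.of [[⟨0, 0, 0, 16777216⟩, ⟨1, 1, 0, 16777216⟩, ⟨2, 1, 0, 16777216⟩]]) 0 1 2 0 0 (sgb true) (sgb false) x) :
    AltA (VFD κ) PP tK tL pcB [⟨3, 0, 0, 1449551462⟩] 0 1 2 0 0 (sgb true) (sgb false) x :=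
  strip_altAD (m := 1449551462) true rfl hκ (SH.κ0 hκ (SH.hx1 hx).le (SH.hx2 hx').le) (SH.hx1 hx).le (SH.hx2 hx') (covB00).cov (covB01).cov hx hx' c_A00pm_012_s1 H ((okx hx hx').extA (T := tt) (sideB hx hx') hκ rfl rfl (.O 0 true) (.O 1 false) rfl)

end Pool.Agent.Strip051.G.I9500_9625.Tab.St.C
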