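import Pool.Agent.Strip051.G.I9500_9625.StH
import Pool.Agent.Strip051.G.I9500_9625.StF

/-! # Unit strips 10 (generated) -/

set_option linter.all false
set_option maxRecDepth 100000

namespace Pool.Agent.Strip051.G.I9500_9625.Tab.St.C

open Pool.Agent.Strip051.PB Pool.Agent.Strip051.PB.T Pool.Agent.StripNear Pool.Agent.Strip051.LC
open Pool.Agent.Strip051.G.I9500_9625.Tab Pool.Agent.Strip051.G.I9500_9625.Tab.St

noncomputable def cut_B00pm_011_s3 : Cut := Cut.of [[⟨3, 0, 0, 2845415833⟩], [⟨0, 0, 0, 26843545⟩, ⟨1, 1, 0, 26843545⟩, ⟨2, 1, 0, 26843545⟩]]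

noncomputable def xt_B00pm_011_s3 : Ext := strExt dd false true false .u0 .u0m .s0m .pnn 0 1 1 rfl rfl gl1 vv ndB0q0 ndB0q1

noncomputable def f_B00pm_011_s3 : ℕ → ℕ → ℕ → ℕ → Bool := onCell 0 536870912 536870912 536870912 1020054732 13421774
    (rowF 0 false true false .pnn 0 1 1 (qsf 0 536870912 536870912 536870912 1) ndB0q0 ndB0q1 pcB1 cut_B00pm_011_s3 xt_B00pm_011_s3)

def k0_B00pm_011_s3 : ∃ t, chk3 f_B00pm_011_s3 t 1 2 1 = true :=
  ⟨(a (l 4) (a (b (l 1) (l 4)) (l 1))), by decide +kernel⟩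

def k1_B00pm_011_s3 : ∃ t, chk3 f_B00pm_011_s3 t 2 6 1 = true :=
  ⟨(a (l 4) (a (l 4) (b (l 4) (b (l 4) (a (a (l 4) (b (l 4) (b (l 4) (l 528627471)))) (a (b (l 4) (a (l 529527823) (l 529183759))) (b (b (a (l 4) (l 530327567)) (l 529879055)) (b (l 529243407) (l 529140239))))))))), by decide +kernel⟩

def k2_B00pm_011_s3 : ∃ t, chk3 f_B00pm_011_s3 t 4 14 1 = true :=
  ⟨(a (l 4) (a (l 4) (b (l 4) (a (l 4) (b (l 4) (b (l 4) (a (l 524417807) (l 524746511)))))))), by decide +kernel⟩

def k3_B00pm_011_s3 : ∃ t, chk3 f_B00pm_011_s3 t 8 30 1 = true :=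
  ⟨(b (l 4) (a (l 4) (a (l 4) (a (l 4) (a (l 4) (b (l 4) (l 521427983))))))), by decide +kernel⟩

def k4_B00pm_011_s3 : ∃ t, chk3 f_B00pm_011_s3 t 8 62 1 = true :=
  ⟨(b (a (l 4) (a (a (l 4) (a (l 4) (b (l 4) (l 519873807)))) (a (a (b (l 4) (l 521341455)) (b (c (l 521895695) (l 520268047)) (l 521308687))) (a (b (c (a (l 521910287) (l 522070031)) (a (l 520294671) (b (l 520477967) (l 520580367)))) (a (l 521364751) (l 521428495))) (b (c (b (l 522132495) (l 522161935)) (b (l 520565263) (l 520592143))) (c (l 522279695) (l 520715279))))))) (a (a (l 4) (a (l 4) (a (l 4) (b (l 4) (a (l 4) (l 524150543)))))) (a (a (a (b (l 4) (a (l 523849999) (l 523550735))) (b (a (l 4) (c (l 523304719) (l 521762831))) (a (l 523252751) (c (l 523659535) (l 522147087))))) (a (b (c (l 522987279) (l 521419535)) (c (a (l 523480591) (l 523253007)) (a (l 521954831) (l 521707791)))) (b (c (l 522650639) (l 521058063)) (c (l 522962447) (l 520857615))))) (a (b (a (c (l 522436111) (l 520833295))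 (l 520727055)) (a (c (l 522683151) (l 521097231)) (b (l 521692943) (b (a (l 16707456) (a (l 16701624) (l 16698128))) (a (b (l 16702400) (c (l 16695064) (l 16696800))) (b (c (l 16702488) (l 16693176)) (l 16700912))))))) (b (a (l 520996623) (a (l 521598991) (l 521627407))) (b (a (a (l 16681520) (b (l 16698488) (b (l 16693224) (a (l 16691832) (l 16689768))))) (b (a (l 16691168) (b (l 16685760) (a (l 16685152) (l 16684536)))) (a (b (a (l 16688360) (l 16686992)) (l 16648168)) (l 16648176)))) (a (b (a (b (a (l 16695680) (l 16692912)) (a (l 16694680) (l 16694856))) (c (l 16658064) (l 16688544))) (c (l 16666616) (l 16694472))) (c (l 16668144) (l 16650760))))))))), by decide +kernel⟩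

def k5_B00pm_011_s3 : ∃ t, chk3 f_B00pm_011_s3 t 16 126 1 = true :=
  ⟨(b (a (l 4) (a (a (l 4) (a (l 4) (l 524111631))) (a (a (l 525415439) (l 525109775)) (a (l 524805391) (l 524501775))))) (a (b (l 4) (b (l 4) (l 14))) (a (a (a (a (l 525770255) (l 526419471)) (a (l 526800399) (l 526644495))) (a (a (l 526488591) (l 526333199)) (a (l 526177807) (l 526022927)))) (a (a (l 524703247) (b (l 525395471) (b (l 525538063) (b (a (l 16752008) (l 16749008)) (a (b (l 16750096) (c (l 16740880) (l 16747896))) (b (c (l 16749984) (l 16746248)) (l 16749552))))))) (a (b (l 525088527) (b (a (l 16749624) (b (l 16747720) (b (l 16745712) (l 16734368)))) (c (b (a (b (l 16748400) (l 16748672)) (l 16738144)) (l 16711136)) (b (a (l 16734440) (l 16743792)) (l 16746840))))) (b (l 524782863) (b (b (a (l 16744416) (b (l 16741800) (c (l 16743616) (l 16739224)))) (a (b (a (l 16743408) (l 16742488)) (l 16733448)) (c (l 16746568) (l 16740880)))) (c (l 16732744) (l 16724672))))))))), by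 decide +kernel⟩

def k6_B00pm_011_s3 : ∃ t, chk3 f_B00pm_011_s3 t 32 127 1 = true :=
  ⟨(l 14), by decide +kernel⟩

def k7_B00pm_011_s3 : ∃ t, chk3 f_B00pm_011_s3 t 66 127 1 = true :=
  ⟨(b (b (a (a (a (l 14) (l 527259919)) (a (l 527102223) (b (l 526903823) (b (l 16762392) (b (l 16760672) (a (l 16760200) (l 16748632))))))) (b (a (l 526656527) (b (l 16746960) (a (l 16746048) (b (l 16754344) (a (l 16743768) (l 16743536)))))) (a (b (a (l 16759696) (b (l 16757504) (a (l 16757176) (c (l 16757776) (l 16755040))))) (a (b (c (l 16754328) (l 16757152)) (a (b (l 16758224) (l 16758800)) (l 16758920))) (b (a (l 16746976) (l 16758032)) (l 16738904)))) (b (b (a (a (l 16755696) (l 16744680)) (l 16734888)) (c (l 16749056) (l 16744712))) (c (l 16742608) (l 16736664)))))) (a (b (a (l 14) (b (a (l 14) (b (a (l 14) (l 16749264)) (l 16740624))) (l 14))) (l 14)) (b (a (c (b (a (l 16743080) (l 16724080)) (l 16741200)) (b (l 16749368) (l 16742120))) (c (b (l 16740544) (l 16733192))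 (b (l 16739896) (l 16722160)))) (a (c (b (a (l 16714880) (l 16710840)) (a (l 14) (l 16703472))) (b (l 16743232) (l 16737984))) (c (b (l 16725832) (l 16718464)) (b (l 16717120) (l 16711880))))))) (a (l 14) (b (a (a (l 14) (a (l 14) (b (b (l 16723376) (l 14)) (l 14)))) (c (b (b (l 16711096) (l 16703720)) (c (a (l 16689416) (l 16685128)) (l 16698056))) (b (b (l 16706640) (l 16701408)) (b (l 16696168) (l 16690944))))) (a (l 14) (b (a (l 14) (b (c (l 16658624) (l 16642520)) (l 14))) (l 14)))))), by decide +kernel⟩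

def k8_B00pm_011_s3 : ∃ t, chk3 f_B00pm_011_s3 t 134 127 1 = true :=
  ⟨(b (b (b (a (b (c (a (l 16749568) (b (l 16752800) (l 16753640))) (a (l 16751880) (b (l 16749568) (l 16749864)))) (a (b (a (l 16742384) (l 16752992)) (l 16733896)) (l 16733944))) (b (a (b (l 16740136) (l 16710840)) (l 16731784)) (c (l 16718296) (l 16710800)))) (a (c (b (l 16720040) (l 16719048)) (b (l 16713320) (l 16716552))) (c (l 16735968) (l 16736616)))) (c (b (a (b (l 16711712) (l 16704368)) (b (l 16704008) (l 16696672))) (a (b (l 16717992) (l 16710632)) (b (l 16689336) (l 16681992)))) (a (b (l 16740960) (l 16730488)) (b (l 16715144) (l 16704688))))) (c (a (b (b (b (l 16703272) (l 16695904)) (b (l 16688536) (l 16681160))) (c (b (b (l 16687872) (l 16679952)) (b (l 16672016) (l 16645712))) (b (l 16677264) (b (l 16687952) (l 16683088))))) (b (c (b (l 16686216) (l 16670432)) (b (l 16676720) (l 16705000))) (b (b (l 16666152) (l 16658768)) (b (l 16640896) (l 16646560))))) (b (a (b (l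 16720032) (l 16709584)) (b (l 16694248) (l 16683824))) (b (c (l 16689032) (l 16683528)) (b (l 16678448) (l 16663928)))))), by decide +kernel⟩

def k9_B00pm_011_s3 : ∃ t, chk3 f_B00pm_011_s3 t 135 127 1 = true :=
  ⟨(b (b (c (b (a (l 16740040) (l 16714616)) (a (l 16728400) (l 16700024))) (b (a (l 16730720) (l 16710152)) (a (l 16716192) (l 16716344)))) (c (b (a (b (l 16696456) (l 16689136)) (l 16706376)) (a (b (l 16681808) (l 16674472)) (b (l 16674432) (l 16667112)))) (b (a (l 16710456) (l 16705920)) (a (l 16700016) (l 16695504))))) (c (b (c (b (a (l 16657040) (l 16690936)) (a (l 16662256) (l 16675200))) (b (a (l 16711864) (l 16705224)) (a (l 16698224) (l 16691600)))) (c (b (a (l 16646464) (l 16659432)) (b (a (l 16655424) (l 16647392)) (l 16647136))) (b (a (l 16684568) (l 16677960)) (b (l 16649824) (l 16666808))))) (b (b (a (l 16689600) (l 16643160)) (a (l 16679184) (l 16632768))) (b (a (l 16668792) (l 16622384)) (b (l 16658592) (l 16612976)))))), by decide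 +kernel⟩

def k10_B00pm_011_s3 : ∃ t, chk3 f_B00pm_011_s3 t 34 126 1 = true :=
  ⟨(b (a (a (a (l 524199695) (l 523898639)) (b (l 523356431) (a (l 523696911) (b (l 16735800) (a (l 16731624) (b (l 16729312) (b (l 16727040) (l 16726408)))))))) (b (b (a (l 522762255) (l 522342927)) (a (l 522839823) (a (a (l 16720784) (l 16717024)) (b (a (l 16714504) (l 16711104)) (a (c (l 16716560) (l 16709136)) (l 16712128)))))) (b (b (a (l 522904079) (a (c (a (l 16720264) (l 16719160)) (l 16712760)) (l 16715992))) (a (a (l 16726576) (a (l 16721112) (c (l 16722400) (l 16715416)))) (c (l 16703768) (l 16714408)))) (a (a (b (a (l 16725552) (c (l 16725992) (l 16719624))) (a (b (l 16724432) (l 16725808)) (l 16725328))) (c (b (l 16725984) (l 16731200)) (l 16698576))) (c (l 16690528) (l 16677216)))))) (a (b (a (b (a (l 16735168) (a (l 16740416) (l 16736896))) (a (b (l 16741416) (a (l 16740560) (b (l 16737952) (l 16727728)))) (b (a (b (l 16736832) (l 16725568)) (b (l 16723712) (l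 16735272))) (c (l 16730856) (l 16734760))))) (b (a (b (a (l 16734632) (l 16731208)) (a (b (l 16732600) (l 16721896)) (b (l 16730624) (l 16732440)))) (b (a (c (l 16721352) (l 16725952)) (l 16717888)) (l 16711352))) (a (c (l 16699688) (l 16733112)) (c (l 16702368) (l 16732928))))) (a (b (a (b (a (b (c (l 16742128) (l 16737432)) (l 16741432)) (l 16741184)) (l 16724056)) (c (l 16707344) (l 16697640))) (a (c (l 16714888) (l 16703968)) (c (l 16714744) (l 16704072)))) (c (b (a (l 16710160) (l 16670880)) (l 16714824)) (b (l 16718472) (l 16703920))))) (b (a (c (b (l 16716744) (l 16706192)) (b (l 16705104) (l 16690544))) (c (b (l 16700896) (l 16664248)) (b (l 16683608) (l 16648056)))) (a (c (b (l 16705280) (l 16690848)) (b (l 16696944) (l 16661392))) (c (b (l 16691824) (l 16677440)) (l 16699568)))))), by decide +kernel⟩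

def k11_B00pm_011_s3 : ∃ t, chk3 f_B00pm_011_s3 t 35 126 1 = true :=
  ⟨(b (a (b (a (b (a (b (l 16711248) (a (l 16709936) (l 16696584))) (b (a (l 16705616) (l 16692888)) (c (l 16710880) (l 16701472)))) (a (b (c (l 16703128) (l 16704968)) (l 16713096)) (l 16691416))) (c (b (a (l 16711096) (l 16714072)) (l 16680872)) (b (l 16679072) (l 16706344)))) (a (c (b (l 16685512) (l 16653880)) (a (l 16673808) (l 16673776))) (c (l 16696280) (l 16673952)))) (c (b (a (l 16681904) (l 16646496)) (a (l 16699736) (l 16642920))) (b (a (l 16662056) (l 16663408)) (a (l 16674736) (l 16634088))))) (c (a (b (a (b (l 16664216) (l 16650608)) (l 16675264)) (a (b (l 16636288) (l 16621952)) (b (l 16622400) (l 16608104)))) (a (b (l 16671336) (a (l 16604568) (l 16597272))) (b (l 16614600) (l 16607184)))) (a (b (a (l 16686520) (l 16686640)) (a (l 16699232) (l 16653504))) (b (a (l 16645432) (l 16646688)) (a (l 16644456) (l 16634904)))))), by decide +kernel⟩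

def k12_B00pm_011_s3 : ∃ t, chk3 f_B00pm_011_s3 t 17 254 1 = true :=
  ⟨(a (a (a (b (c (b (a (l 16707336) (l 16700216)) (a (l 16692768) (l 16685664))) (b (l 16731440) (l 16720288))) (b (c (a (l 16678176) (l 16671096)) (l 16699400)) (c (a (l 16663560) (l 16656496)) (l 16689016)))) (b (c (b (a (l 16693248) (l 16644488)) (a (l 16678720) (l 16629984))) (b (l 16710328) (l 16701632))) (c (c (b (l 16653304) (l 16637704)) (a (l 16664584) (l 16658528))) (b (l 16691272) (l 16680928))))) (c (b (a (b (l 16676400) (l 16661928)) (c (l 16647096) (l 16664600))) (a (c (a (l 16634432) (l 16627120)) (l 16649632)) (b (l 16634160) (l 16619688)))) (b (a (b (l 16662304) (l 16651968)) (l 16691344)) (a (b (l 16641656) (l 16631344)) (l 16670792))))) (c (c (a (b (a (l 16632256) (l 16617160)) (a (l 16601408) (l 16586392))) (b (a (l 16559680) (l 16543792)) (a (l 16529008) (l 16513200)))) (a (b (a (l 16610536) (l 16598096)) (a (l 16583792) (l 16571432))) (b (a (l 16585152) (l 16655688))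 (b (l 16558632) (l 16545352))))) (a (b (a (l 16641432) (l 16633064)) (a (l 16620960) (l 16612664))) (b (a (l 16624088) (l 16614608)) (a (l 16603768) (l 16594360)))))), by decide +kernel⟩

def k13_B00pm_011_s3 : ∃ t, chk3 f_B00pm_011_s3 t 17 255 1 = true :=
  ⟨(c (a (a (a (b (a (b (l 16659408) (b (l 16637928) (l 16630592))) (b (l 16641880) (l 16627240))) (b (c (a (l 16651584) (l 16643896)) (l 16626408)) (b (b (l 16606872) (a (l 16606760) (l 16599992))) (l 16601272)))) (b (b (a (l 16635000) (l 16628280)) (a (l 16620384) (l 16613680))) (b (a (l 16605744) (l 16599064)) (b (b (l 16593248) (l 16590312)) (l 16546472))))) (b (c (a (a (l 16603248) (l 16595984)) (a (l 16588720) (l 16581440))) (a (b (l 16671352) (l 16657848)) (l 16610880))) (a (b (a (l 16592504) (l 16585968)) (b (b (l 16580016) (l 16535840)) (l 16617984))) (b (a (l 16537480) (l 16530912)) (a (l 16568648) (l 16562400)))))) (a (b (a (b (l 16591872) (l 16577400)) (b (l 16536304) (l 16521880))) (b (a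 (l 16541936) (l 16549376)) (a (a (l 16514152) (l 16507776)) (l 16498144)))) (c (b (a (l 16540160) (l 16482504)) (b (a (l 16558680) (l 16542936)) (l 16500824))) (b (a (l 16615832) (l 16602640)) (b (l 16546984) (l 16581360)))))) (a (b (a (a (b (l 16678640) (l 16668280)) (b (l 16628648) (l 16618328))) (a (b (l 16621056) (l 16610776)) (b (l 16613472) (l 16603232)))) (a (a (b (l 16657928) (b (l 16650048) (l 16688464))) (b (l 16608016) (l 16640992))) (c (b (l 16582616) (l 16615608)) (b (l 16611040) (l 16603240))))) (b (a (a (l 16600544) (l 16592328)) (a (l 16583504) (l 16574176))) (b (a (l 16602232) (l 16584424)) (a (l 16573464) (l 16556448)))))), by decide +kernel⟩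

def k14_B00pm_011_s3 : ∃ t, chk3 f_B00pm_011_s3 t 9 30 1 = true :=
  ⟨(a (a (b (l 4) (a (b (l 4) (a (l 521548815) (l 521675791))) (b (a (l 521978127) (l 522124559)) (a (l 521808655) (l 521947407))))) (b (a (l 4) (b (l 4) (l 521794319))) (a (b (a (l 522276879) (l 522434831)) (a (l 522092303) (l 522242831))) (b (a (l 522598415) (l 522767631)) (a (l 522399247) (l 522561039)))))) (b (a (a (b (l 4) (l 523233551)) (b (c (l 524399887) (l 523255055)) (c (l 524183055) (l 522999311)))) (b (a (l 523640591) (l 524512271)) (a (c (l 524511247) (l 523371279)) (l 523744783)))) (a (b (a (l 522216463) (a (l 523307023) (l 523485711))) (a (b (l 522866447) (a (l 522680335) (b (l 16655464) (a (l 16645312) (l 16597456))))) (b (l 523224591) (b (a (l 16643216) (b (l 16634528) (a (l 16631096) (b (l 16627152) (l 16626616))))) (a (b (a (l 16636360) (l 16610448)) (a (b (l 16632200) (l 16632288)) (c (l 16640584) (l 16624616)))) (b (a (b (l 16628240) (l 16630016)) (l 16630800)) (l 16594368)))))))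 (b (a (a (l 523657487) (l 523824655)) (l 523528719)) (a (b (b (l 16607904) (a (l 16632512) (b (l 16582680) (a (b (l 16622480) (l 16621408)) (b (l 16619960) (l 16622520)))))) (b (a (b (a (l 16626448) (b (l 16623104) (l 16624136))) (c (l 16636328) (l 16619368))) (c (l 16639296) (l 16619464))) (c (l 16610424) (l 16586032)))) (a (b (b (a (l 16625184) (b (l 16622744) (l 16575832))) (b (a (b (l 16618376) (l 16618760)) (l 16577464)) (l 16582664))) (c (l 16612656) (l 16585104))) (c (b (b (b (l 16603016) (l 16583632)) (l 16637160)) (l 16577672)) (b (b (b (l 16608952) (l 16608776)) (l 16615328)) (l 16545840))))))))), by decide +kernel⟩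

def k15_B00pm_011_s3 : ∃ t, chk3 f_B00pm_011_s3 t 18 124 1 = true :=
  ⟨(a (b (a (a (b (l 521469711) (l 521479951)) (l 520506895)) (a (l 521701135) (l 521830415))) (a (a (c (l 522321935) (l 520775951)) (l 521634831)) (a (l 521729295) (b (l 16660144) (a (l 16670992) (b (l 16667304) (c (l 16647624) (l 16656592)))))))) (b (a (a (l 521966863) (l 522109711)) (b (l 522350095) (a (b (l 16657024) (a (l 16653536) (b (l 16648600) (l 16646504)))) (b (a (l 16647224) (b (l 16642704) (l 16621000))) (a (b (l 16623128) (l 16645816)) (l 16646304)))))) (a (b (a (l 16667120) (b (a (l 16660216) (l 16653704)) (a (b (l 16655176) (l 16632768)) (b (l 16630360) (l 16653920))))) (b (a (a (l 16639912) (c (l 16642688) (l 16650856))) (c (l 16666464) (l 16650464))) (a (a (b (l 16638424) (l 16662696)) (l 16662928)) (l 16624256)))) (b (a (b (a (b (l 16649160) (l 16628224)) (c (l 16656488) (l 16641648))) (l 16634416)) (c (l 16582344) (l 16645968))) (c (a (l 16594112) (l 16600904)) (a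 (l 16655352) (l 16657440))))))), by decide +kernel⟩

def k16_B00pm_011_s3 : ∃ t, chk3 f_B00pm_011_s3 t 18 125 1 = true :=
  ⟨(a (b (a (b (a (l 521642511) (a (l 16685952) (b (l 16682120) (l 16675464)))) (a (b (l 16686552) (a (b (l 16685000) (l 16661312)) (b (a (l 16679680) (l 16677592)) (l 16659080)))) (c (b (a (b (l 16682400) (l 16681336)) (b (l 16678744) (l 16682368))) (l 16646200)) (b (a (l 16671728) (l 16668608)) (l 16673744))))) (b (a (b (a (l 16674880) (b (l 16669432) (l 16646328))) (b (a (l 16670432) (l 16647288)) (c (l 16656832) (l 16664824)))) (b (a (b (l 16643432) (l 16666248)) (l 16666424)) (c (l 16681776) (l 16664632)))) (c (a (l 16647920) (l 16612624)) (a (l 16630256) (l 16673896))))) (a (b (a (a (b (c (l 16669160) (l 16678400)) (l 16650232)) (b (l 16644096) (l 16610344))) (c (l 16661232) (l 16641184))) (c (a (l 16674744) (l 16639368)) (a (l 16652248) (l 16611808)))) (c (b (a (l 16625888) (l 16632456)) (a (l 16645888) (l 16639400))) (b (a (l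 16600840) (l 16602480)) (l 16656080))))) (b (a (c (b (a (l 16599736) (l 16606432)) (a (l 16619256) (l 16625880))) (b (a (l 16663392) (l 16665264)) (b (l 16589576) (l 16595744)))) (c (b (l 16658432) (l 16635824)) (b (l 16626272) (l 16596440)))) (a (c (b (l 16663256) (l 16637992)) (b (l 16646984) (l 16617408))) (c (b (l 16614696) (l 16587184)) (b (l 16608696) (l 16620952)))))), by decide +kernel⟩

def k17_B00pm_011_s3 : ∃ t, chk3 f_B00pm_011_s3 t 19 62 1 = true :=
  ⟨(b (a (b (a (b (a (b (l 16644656) (a (l 16599696) (b (l 16637752) (l 16638584)))) (b (a (b (l 16637048) (l 16593720)) (b (l 16591896) (l 16636312))) (c (l 16648856) (l 16631632)))) (a (b (c (l 16629736) (l 16634712)) (l 16607840)) (b (l 16605384) (l 16612536)))) (c (b (b (l 16608968) (l 16575608)) (l 16630640)) (b (a (l 16631544) (l 16634128)) (l 16601352)))) (a (c (b (l 16634640) (l 16611136)) (b (l 16617904) (l 16618800))) (c (b (l 16606560) (l 16624848)) (b (l 16570304) (l 16581576))))) (c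 (b (a (b (l 16585360) (l 16602608)) (b (l 16599176) (l 16616280))) (a (b (l 16620320) (l 16604496)) (b (l 16599976) (l 16574224)))) (b (a (b (l 16554136) (l 16564504)) (b (l 16559344) (l 16569608))) (a (b (l 16575288) (l 16586448)) (l 16585776))))) (a (c (b (a (b (l 16629960) (l 16611920)) (b (l 16608496) (l 16581616))) (a (b (l 16584640) (l 16557280)) (b (l 16554488) (l 16527280)))) (b (a (b (l 16588568) (l 16600552)) (b (l 16593168) (l 16605040))) (a (b (l 16612696) (l 16620632)) (l 16609456)))) (b (c (a (b (l 16578152) (l 16551416)) (b (l 16548024) (l 16521440))) (a (l 16603816) (l 16606048))) (c (c (a (l 16491952) (l 16460120)) (a (l 16529992) (l 16502336))) (a (l 16588208) (l 16566952)))))), by decide +kernel⟩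

def k18_B00pm_011_s3 : ∃ t, chk3 f_B00pm_011_s3 t 9 126 1 = true :=
  ⟨(a (a (a (b (c (b (a (l 16653032) (l 16641288)) (a (l 16628040) (l 16613208))) (b (a (l 16622896) (l 16624352)) (l 16678112))) (c (b (a (l 16599808) (l 16585056)) (a (l 16571496) (l 16556824))) (b (l 16661664) (l 16641416)))) (b (c (b (a (l 16626408) (l 16611552)) (a (l 16598408) (l 16583632))) (b (l 16668544) (l 16639040))) (c (b (a (l 16570336) (l 16555640)) (a (l 16542192) (l 16527576))) (b (l 16621176) (l 16601072))))) (c (b (a (a (b (l 16596712) (l 16568872)) (b (l 16581880) (l 16554120))) (c (b (l 16544480) (l 16514952)) (l 16561976))) (c (a (b (l 16516984) (l 16487096)) (b (l 16485328) (l 16455608))) (a (a (l 16544112) (l 16530656)) (a (l 16517176) (l 16503664))))) (b (a (b (l 16629760) (l 16621488)) (b (l 16621328) (l 16601392))) (a (b (l 16601472) (l 16581512)) (b (l 16581512) (l 16561688)))))) (c (b (a (a (b (l 16529864) (l 16502384)) (b (l 16500024) (l 16472696))) (c (a (l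 16434064) (l 16402560)) (a (l 16479480) (l 16452128)))) (a (c (a (a (l 16446768) (l 16430960)) (a (l 16415144) (l 16399360))) (a (l 16483336) (l 16456080))) (a (b (l 16415896) (l 16367648)) (b (l 16386704) (l 16359592))))) (a (b (a (b (l 16600760) (l 16580960)) (l 16569984)) (a (b (l 16561216) (l 16541536)) (l 16509792))) (a (b (l 16548984) (l 16510032)) (b (l 16527992) (l 16489304)))))), by decide +kernel⟩

def k19_B00pm_011_s3 : ∃ t, chk3 f_B00pm_011_s3 t 9 127 1 = true :=
  ⟨(b (a (b (c (a (a (a (l 16564080) (l 16528520)) (a (l 16513968) (l 16499440))) (a (a (l 16484928) (l 16470424)) (a (l 16455912) (l 16441384)))) (a (a (l 16600256) (l 16581024)) (a (l 16561616) (l 16541936)))) (c (a (a (c (a (l 16581304) (l 16565576)) (l 16525368)) (a (l 16485672) (l 16471232))) (a (a (l 16456808) (l 16442384)) (a (l 16427960) (l 16413520)))) (a (a (l 16580120) (l 16561040)) (a (l 16541776) (l 16522240))))) (a (c (c (a (b (l 16478352) (l 16364720)) (a (l 16356104)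 (l 16340496))) (a (l 16431968) (l 16405032))) (c (a (l 16485184) (l 16462648)) (l 16530224))) (a (c (c (a (l 16324960) (l 16309488)) (l 16378136)) (l 16429408)) (c (c (b (l 16384928) (l 16355712)) (l 16351408)) (l 16450888))))) (c (a (b (a (c (a (a (l 16550688) (l 16535056)) (a (l 16519464) (l 16503928))) (a (l 16498944) (l 16472608))) (a (a (l 16428608) (l 16414272)) (c (l 16365824) (l 16503784)))) (a (b (a (b (l 16461032) (a (l 16461128) (l 16447168))) (b (l 16432376) (a (l 16433360) (l 16419656)))) (a (l 16450408) (l 16423392))) (a (b (b (l 16403680) (l 16399280)) (l 16396480)) (b (a (l 16380656) (l 16366928)) (l 16369584))))) (c (a (b (a (l 16334864) (l 16387760)) (a (b (l 16316224) (l 16396688)) (l 16286048))) (b (a (l 16272696) (b (l 16333744) (l 16318752))) (a (l 16340648) (l 16311352)))) (a (b (a (l 16477256) (l 16450568)) (a (l 16459544) (l 16434048))) (b (a (l 16423608) (l 16396904)) (l 16312432))))) (b (a (a (a (l 16560048) (l 16541112)) (c (l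 16485704) (l 16539136))) (a (a (l 16482872) (l 16462776)) (a (l 16442304) (l 16421848)))) (a (a (b (a (l 16544768) (l 16526224)) (l 16529056)) (a (l 16505480) (l 16486800))) (a (a (l 16467736) (l 16448264)) (l 16419064)))))), by decide +kernel⟩

def k20_B00pm_011_s3 : ∃ t, chk3 f_B00pm_011_s3 t 5 14 1 = true :=
  ⟨(a (a (b (l 4) (a (b (l 4) (a (b (c (l 525763087) (l 524806671)) (a (l 524992271) (l 525150735))) (b (l 525596687) (c (l 525856015) (l 524900111))))) (b (a (l 526194959) (l 526480911)) (b (l 524962319) (a (l 525688335) (l 525987855)))))) (b (b (l 4) (a (b (l 4) (l 527160847)) (a (l 527635983) (l 527884815)))) (a (b (l 526889231) (b (l 526611983) (l 526416399))) (b (a (l 527298063) (l 527557135)) (a (l 526936079) (l 527205647)))))) (b (a (b (a (l 528532239) (a (l 528868367) (l 529082383))) (a (b (l 528317967) (l 528167183)) (b (l 528772623) (l 528631823)))) (b (a (a (l 529290255) (l 529491983)) (a (l 529419279) (l 529609231))) (a (b (l 529202447)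 (l 529071119)) (b (l 529607951) (l 529485583))))) (a (b (a (a (l 527809551) (l 528055311)) (l 528408335)) (b (a (l 527681295) (l 16522864)) (a (a (l 16607448) (b (l 16601888) (l 16544520))) (b (a (l 16588432) (b (l 16580648) (l 16535824))) (a (b (l 16495744) (l 16582088)) (l 16503296)))))) (a (b (l 528594191) (b (b (l 16589768) (a (l 16539584) (b (l 16533648) (l 16493064)))) (b (a (b (l 16534912) (l 16583800)) (l 16504864)) (a (l 16512376) (l 16521160))))) (b (b (l 529358351) (a (l 16595200) (b (l 16591560) (b (l 16580800) (l 16491216))))) (c (b (b (a (b (l 16585872) (l 16583600)) (l 16545432)) (l 16516256)) (l 16547112)) (b (b (a (l 16567584) (l 16565464)) (l 16487968)) (l 16503904)))))))), by decide +kernel⟩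

def k21_B00pm_011_s3 : ∃ t, chk3 f_B00pm_011_s3 t 10 60 1 = true :=
  ⟨(a (a (b (a (a (l 524763151) (l 524924687)) (a (l 525084175) (l 525242127))) (a (l 524075279) (l 524399631))) (a (b (l 525472015) (l 525254159)) (b (l 525777423) (b (l 16622080) (b (l 16606296) (a (b (l 16602512) (l 16598528)) (b (l 16595944) (l 16597536)))))))) (a (b (l 526214159) (b (a (a (l 16608456) (l 16558480)) (b (a (l 16596344) (l 16590328)) (a (b (l 16590456) (l 16591144)) (l 16593184)))) (a (b (a (b (l 16595688) (l 16593840)) (b (l 16592224) (l 16596552))) (l 16560256)) (c (l 16536264) (l 16592816))))) (b (a (b (l 16610512) (b (l 16595960) (a (l 16590616) (l 16586616)))) (b (l 16595224) (b (a (l 16586064) (l 16584272)) (l 16590192)))) (a (b (a (b (l 16588832) (l 16598160)) (l 16597936)) (l 16532336)) (c (l 16549432) (l 16513160)))))), by decide +kernel⟩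

def k22_B00pm_011_s3 : ∃ t, chk3 f_B00pm_011_s3 t 10 61 1 = true :=
  ⟨(a (b (a (b (a (l 524456975) (a (l 16621712) (b (l 16617360) (b (l 16608808) (a (l 16605904) (l 16603440)))))) (a (b (a (l 16625000) (b (l 16617456) (l 16570152))) (a (b (l 16616168) (a (l 16613512) (b (l 16610680) (l 16612080)))) (b (a (l 16568168) (l 16567656)) (l 16614288)))) (c (b (a (b (l 16616024) (l 16574440)) (l 16576672)) (l 16546440)) (b (a (b (l 16600768) (l 16599680)) (l 16599616)) (l 16606808))))) (a (b (b (a (l 16607744) (b (l 16601544) (a (l 16599856) (l 16600008)))) (a (b (a (l 16602592) (l 16601360)) (l 16563288)) (l 16523456))) (c (a (l 16549272) (l 16556152)) (l 16566184))) (b (a (b (c (l 16610456) (l 16591744)) (l 16528392)) (a (l 16568336) (l 16528848))) (c (l 16566336) (l 16529920))))) (a (a (b (b (a (c (l 16586248) (l 16608832)) (l 16581608)) (a (l 16589288) (l 16552216))) (c (b (l 16579848) (l 16596176)) (a (l 16548528) (l 16551208)))) (b (c (b (l 16561864) (l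 16577544)) (b (l 16615800) (l 16624968))) (c (l 16601544) (l 16555216)))) (c (a (b (l 16583280) (l 16594752)) (b (l 16596592) (l 16564776))) (a (b (l 16542016) (l 16560544)) (b (l 16547496) (l 16565832)))))) (a (b (c (a (b (l 16550672) (l 16579664)) (l 16578312)) (a (b (l 16602792) (l 16535544)) (l 16532832))) (a (c (b (l 16580976) (l 16535048)) (l 16561968)) (b (l 16499408) (l 16460184)))) (b (c (b (l 16583424) (l 16551272)) (a (l 16538392) (l 16543848))) (c (a (l 16415280) (l 16470144)) (b (l 16566160) (l 16550400)))))), by decide +kernel⟩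

def k23_B00pm_011_s3 : ∃ t, chk3 f_B00pm_011_s3 t 11 30 1 = true :=
  ⟨(a (c (b (b (a (b (a (l 16553184) (l 16597320)) (l 16530816)) (l 16544112)) (a (l 16568520) (l 16454728))) (a (b (l 16430440) (l 16343304)) (b (l 16373200) (l 16287120)))) (b (b (a (b (a (l 16577272) (l 16575184)) (l 16584792)) (l 16505872)) (a (l 16521680) (l 16532512))) (a (b (l 16551800) (l 16523120)) (b (l 16541568) (l 16480184))))) (c (b (b (a (l 16557776) (l 16417544)) (a (l 16397848) (l 16342408))) (b (a (l 16317296) (l 16262856)) (a (l 16232288) (l 16178928)))) (a (b (b (l 16516720) (l 16542640)) (b (l 16498496) (l 16354040))) (b (b (l 16526784) (l 16512680)) (b (l 16372304) (l 16312536)))))), by decide +kernel⟩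

def k24_B00pm_011_s3 : ∃ t, chk3 f_B00pm_011_s3 t 10 62 1 = true :=
  ⟨(c (a (b (a (b (a (l 16607176) (l 16576992)) (a (l 16536040) (l 16527104))) (b (a (l 16547040) (l 16517344)) (a (l 16497440) (l 16468024)))) (b (a (c (a (l 16485360) (l 16453768)) (a (l 16524552) (l 16496944))) (a (l 16445896) (l 16416784))) (a (c (a (l 16428568) (l 16397296)) (a (l 16474848) (l 16531424))) (a (b (l 16406480) (l 16380056)) (l 16364440))))) (a (a (b (b (l 16487896) (l 16438864)) (b (l 16387928) (l 16335896))) (b (b (l 16458720) (l 16409984)) (b (l 16359336) (l 16307616)))) (b (b (l 16331592) (l 16283288)) (b (l 16233096) (l 16181848))))) (a (b (a (b (a (l 16569616) (l 16574768)) (a (l 16590712) (l 16595648))) (b (a (l 16579888) (l 16584976)) (a (l 16579176) (l 16557520)))) (a (b (a (l 16584544) (l 16563048)) (a (l 16545696) (l 16524448))) (b (a (l 16541584) (l 16520160)) (a (l 16503232) (l 16482056))))) (b (a (a (l 16511680) (l 16448096)) (c (l 16472272) (l 16527376)))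 (a (b (l 16404248) (l 16366512)) (a (l 16353728) (l 16416648)))))), by decide +kernel⟩

def k25_B00pm_011_s3 : ∃ t, chk3 f_B00pm_011_s3 t 10 63 1 = true :=
  ⟨(b (c (a (a (c (b (a (l 16371336) (l 16340400)) (a (l 16313784) (l 16283192))) (b (b (l 16423864) (l 16398960)) (b (l 16374040) (l 16349104)))) (c (b (a (l 16393648) (l 16363312)) (a (l 16336776) (l 16306792))) (b (l 16357760) (l 16308536)))) (a (b (a (l 16283584) (l 16255632)) (a (l 16147224) (l 16203488))) (c (a (l 16162512) (l 16217552)) (l 16145080)))) (c (a (a (b (l 16467896) (l 16425720)) (b (l 16422024) (l 16380408))) (a (l 16313992) (l 16311272))) (a (a (b (l 16525296) (l 16490920)) (l 16428360)) (a (l 16432600) (l 16395008))))) (b (c (a (a (a (b (l 16303776) (l 16234768)) (b (l 16275368) (l 16206536))) (a (c (l 16195712) (l 16356160)) (c (l 16249960) (l 16330168)))) (a (a (c (l 16220648) (l 16304384)) (l 16067288)) (a (l 16124176) (l 16181368)))) (a (a (c (l 16383704) (l 16456960)) (c (l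 16338968) (l 16420016))) (a (l 16254776) (l 16298304)))) (c (a (a (b (b (a (l 16256376) (l 16228272)) (c (a (l 16288904) (l 16259696)) (l 16268264))) (a (l 16236616) (l 16210360))) (b (a (b (l 16200416) (l 16146608)) (b (l 16256696) (l 16162104))) (a (l 16184384) (l 16242560)))) (a (b (a (c (l 16095856) (l 16268920)) (l 16072144)) (l 16120640)) (a (b (l 16088312) (l 16167208)) (l 16062384)))) (a (a (b (a (l 16401536) (l 16381368)) (l 16379544)) (a (l 16315096) (l 16337520))) (a (a (l 16318056) (l 16298672)) (l 16269936)))))), by decide +kernel⟩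

def k26_B00pm_011_s3 : ∃ t, chk3 f_B00pm_011_s3 t 11 31 1 = true :=
  ⟨(a (b (a (b (c (b (l 16358872) (l 16311160)) (l 16373184)) (c (a (l 16166040) (l 16222688)) (l 16301536))) (b (c (l 16196112) (l 16331120)) (c (l 16098584) (l 16260400)))) (b (c (a (a (l 16063968) (l 16037384)) (c (l 16119456) (l 16212792))) (a (l 16228376) (l 16188224))) (c (b (a (l 16058016) (l 16090416)) (a (a (l 16037680) (l 16097192)) (l 16061672))) (b (l 16070784) (l 16087464))))) (b (b (c (a (l 16142424) (b (l 16280936) (l 16235016))) (a (l 16289736) (l 16249096))) (c (a (l 15962240) (b (l 16187280) (l 16138560))) (a (l 16219936) (l 16180216)))) (b (c (a (l 15947000) (b (l 16089672) (l 16040728))) (a (l 16148744) (l 16110000))) (b (c (a (l 16040320) (l 15991072)) (a (l 16264192) (l 16141808))) (a (l 15875360) (l 6)))))), by decide +kernel⟩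

def k27_B00pm_011_s3 : ∃ t, chk3 f_B00pm_011_s3 t 12 6 1 = true :=
  ⟨(b (a (l 4) (b (l 4) (a (l 4) (b (l 4) (b (l 4) (a (l 531097615) (a (l 531448591) (l 531501839)))))))) (a (b (b (l 4) (a (a (l 4) (l 529965583)) (c (l 530954767) (a (l 530678287) (l 530825743))))) (c (a (b (a (l 530705167) (l 530861839)) (l 530076431)) (b (l 530548751) (l 530663439))) (b (a (a (l 529651215) (l 530086159)) (b (l 530634255) (l 530550543))) (a (a (l 529991951) (l 530166799)) (a (l 530336015) (l 530499343)))))) (b (a (c (b (l 531326991) (l 531219983)) (b (a (l 531099663) (l 531228943)) (a (l 530967823) (l 531104783)))) (b (a (c (l 531769871) (l 531353359)) (a (l 531113999) (l 531169807))) (c (a (l 531673615) (l 531790351)) (a (l 531236367) (l 531362831))))) (b (a (c (l 530829327) (b (l 530930191) (l 530854415))) (c (a (l 531562767) (l 531686927)) (a (l 531104271) (l 530969615)))) (a (c (l 530959631) (a (l 530657295) (l 530809615))) (c (l 531234063) (a (l 530956559) (l 531097871)))))))),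 by decide +kernel⟩

def k28_B00pm_011_s3 : ∃ t, chk3 f_B00pm_011_s3 t 13 6 1 = true :=
  ⟨(b (a (b (l 1) (a (a (b (l 1) (b (l 1) (l 531310863))) (l 1)) (l 1))) (l 1)) (b (a (a (b (c (b (l 531782415) (l 531746831)) (a (l 531318031) (l 531427087))) (c (l 531418639) (a (l 531483919) (l 531600143)))) (b (a (b (l 1) (l 531436303)) (l 1)) (c (l 531621647) (a (l 531442703) (l 531548943))))) (a (b (l 1) (c (l 532072975) (a (l 531650063) (l 1)))) (l 1))) (a (a (b (c (a (l 531805711) (l 531919375)) (a (l 531098383) (l 531221775))) (c (l 531218703) (a (l 531234063) (l 531365135)))) (b (c (l 531543311) (a (l 531340047) (l 531453199))) (c (l 531450639) (a (l 531222287) (l 531342863))))) (a (b (c (c (l 532371727) (l 531912207)) (a (l 531561487) (l 531664655))) (c (l 531661839) (a (l 531458319) (l 531568655)))) (b (c (l 531917071) (a (l 531762959) (l 1))) (a (b (l 531629839) (l 531587087)) (b (l 531723535) (l 531684367)))))))), by decide +kernel⟩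

def k29_B00pm_011_s3 : ∃ t, chk3 f_B00pm_011_s3 t 7 6 1 = true :=
  ⟨(b (l 1) (a (b (l 1) (a (a (b (l 1) (a (b (l 1) (l 531776783)) (l 1))) (l 1)) (l 1))) (l 1))), by decide +kernel⟩

def k30_B00pm_011_s3 : ∃ t, chk3 f_B00pm_011_s3 t 24 14 1 = true :=
  ⟨(b (b (a (a (l 529793295) (l 529971471)) (a (l 529875471) (l 529639695))) (a (b (l 529721103) (l 529876239)) (b (l 530079247) (l 529974799)))) (b (b (a (l 16554864) (b (l 16584368) (a (b (l 16579184) (l 16531984)) (b (a (l 16572936) (l 16529040)) (a (l 16529264) (l 16574600)))))) (a (b (a (l 16581296) (b (l 16575640) (c (l 16582016) (l 16562808)))) (a (b (a (l 16573720) (l 16571616)) (a (l 16572264) (l 16576072))) (b (l 16491528) (l 16498392)))) (b (a (b (a (l 16487280) (l 16572728)) (l 16493296)) (l 16497968)) (c (l 16523544) (l 16489904))))) (b (a (c (b (l 16520128) (l 16539048)) (a (l 16491096) (l 16496152))) (c (b (l 16541240) (l 16512664)) (l 16524256))) (a (c (l 16474960) (l 16513808)) (c (b (l 16479752)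 (l 16445944)) (l 16522760)))))), by decide +kernel⟩

def k31_B00pm_011_s3 : ∃ t, chk3 f_B00pm_011_s3 t 25 14 1 = true :=
  ⟨(b (b (c (a (l 530806031) (l 531096079)) (a (a (l 530476047) (l 530636559)) (a (l 530791695) (l 530941199)))) (b (a (l 529877263) (c (l 16516368) (l 530734351))) (a (a (l 16505848) (b (l 16587280) (c (l 16543688) (l 16525432)))) (a (b (l 16579336) (b (c (l 16540176) (a (l 16563744) (l 16561472))) (c (l 16541032) (l 16519976)))) (b (b (l 16533112) (c (a (l 16581200) (l 16581160)) (a (l 16562480) (l 16561272)))) (c (l 16504488) (l 16543256))))))) (b (b (a (b (a (b (l 16575040) (c (l 16539672) (l 16520264))) (b (c (l 16539960) (l 16540800)) (l 16492232))) (a (c (l 16505360) (l 16564736)) (l 16521704))) (c (b (l 16514544) (l 16528880)) (b (l 16526872) (l 16491824)))) (a (c (b (l 16526672) (l 16522264)) (b (l 16490920) (l 16498952))) (c (b (l 16500088) (l 16470472)) (b (l 16499120) (l 16506840))))) (c (b (a (b (l 16491464) (l 16459808))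 (b (l 16440032) (l 16408760))) (a (b (l 16427288) (l 16393904)) (b (l 16376648) (l 16343696)))) (b (a (l 16511848) (l 16492824)) (a (l 16488136) (l 16405576)))))), by decide +kernel⟩

def k32_B00pm_011_s3 : ∃ t, chk3 f_B00pm_011_s3 t 26 28 1 = true :=
  ⟨(b (a (c (l 531096079) (a (l 531085327) (l 531224079))) (a (c (l 531820303) (l 531088911)) (b (l 531207951) (b (l 16543232) (a (l 16577192) (b (l 16576328) (a (l 16530704) (b (l 16571960) (l 16549912))))))))) (b (a (b (l 530767887) (a (b (l 16578248) (c (l 16541184) (l 16543560))) (b (a (l 16489416) (c (l 16539160) (l 16540960))) (a (c (l 16581352) (l 16561496)) (l 16490280))))) (b (c (a (b (l 16584168) (a (l 16581616) (l 16539544))) (b (a (l 16539288) (l 16582864)) (l 16586880))) (a (b (l 16565984) (a (l 16562896) (l 16540736))) (b (a (b (l 16562320) (l 16561424)) (l 16562168)) (l 16563800)))) (a (b (c (l 16500912) (l 16520904)) (l 16536568)) (c (l 16511736) (l 16483528))))) (a (b (a (b (c (a (l 16580888)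 (l 16582784)) (a (l 16561696) (l 16561856))) (l 16533808)) (c (l 16508672) (l 16566128))) (c (l 16517768) (l 16528216))) (c (b (l 16509400) (l 16483544)) (c (l 16541256) (l 16532840)))))), by decide +kernel⟩

def k33_B00pm_011_s3 : ∃ t, chk3 f_B00pm_011_s3 t 27 28 1 = true :=
  ⟨(b (b (a (a (l 531323919) (l 531435023)) (b (c (l 16547000) (l 531663631)) (a (b (l 16535240) (a (l 16490432) (c (l 16560288) (b (l 16563352) (c (l 16566568) (l 16557032)))))) (b (a (c (l 16497912) (l 16542832)) (c (a (l 16538368) (l 16538208)) (b (l 16541056) (l 16540296)))) (a (c (l 16559976) (c (l 16566568) (l 16546128))) (c (l 16583624) (l 16562424))))))) (a (b (a (l 16536632) (b (c (l 16541912) (a (l 16567096) (l 16564104))) (c (a (l 16539648) (l 16560384)) (a (b (l 16563560) (l 16540984)) (b (l 16540680) (l 16562104)))))) (a (b (a (c (l 16582464) (l 16564208)) (c (l 16560248) (b (l 16562408) (l 16561552)))) (a (c (l 16539568) (b (l 16561624) (l 16562104))) (l 16532088))) (c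 (a (l 16543344) (l 16504872)) (c (l 16527760) (l 16536816))))) (b (a (b (c (a (b (l 16496832) (l 16580696)) (l 16498488)) (a (b (l 16541360) (l 16540552)) (l 16541072))) (c (l 16501976) (l 16521432))) (c (l 16498856) (b (l 16521680) (l 16481456)))) (c (a (l 16499144) (l 16476432)) (a (l 16524256) (l 16526120)))))) (b (c (a (a (c (l 16503584) (l 16505880)) (b (l 16499000) (l 16474936))) (b (a (l 16475904) (l 16453320)) (a (l 16451976) (l 16429536)))) (a (b (a (l 16523616) (l 16526160)) (a (l 16486312) (l 16488704))) (b (a (l 16486352) (l 16488064)) (c (l 16472240) (l 16480664))))) (a (c (b (l 16461752) (l 16436192)) (c (l 16482784) (l 16483440))) (c (b (l 16416128) (l 16390888)) (b (l 16465576) (l 16447672)))))), by decide +kernel⟩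

def k34_B00pm_011_s3 : ∃ t, chk3 f_B00pm_011_s3 t 13 29 1 = true :=
  ⟨(a (b (b (a (c (b (l 16505952) (l 16478272)) (b (l 16492480) (l 16499064))) (c (b (l 16456936) (l 16429576)) (b (l 16498640) (l 16485880)))) (a (c (b (l 16449800) (l 16420536)) (b (l 16505488) (l 16484832))) (c (b (l 16401448) (l 16372560)) (c (l 16438392) (l 16473512))))) (b (c (a (b (l 16390480) (l 16359608)) (b (l 16342896) (l 16312440))) (a (c (l 16433064) (l 16472696)) (c (l 16392088) (l 16436104)))) (c (a (a (l 16323680) (l 16299912)) (a (l 16276656) (l 16253920))) (a (l 16366136) (b (l 16381136) (l 16358512)))))) (a (a (b (b (c (l 16407984) (l 16466576)) (c (l 16352288) (l 16427216))) (b (c (l 16293552) (l 16385752)) (c (l 16231704) (l 16342096)))) (b (b (c (l 16385072) (l 16447648)) (c (l 16329744) (l 16408544))) (b (c (l 16271424) (l 16367360)) (l 6)))) (b (b (c (b (l 16364944) (l 16338288)) (c (l 16402568) (l 16437432))) (c (a (l 16307736) (l 16286264)) (c (l 16359784) (l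 16402816)))) (l 6)))), by decide +kernel⟩

def k35_B00pm_011_s3 : ∃ t, chk3 f_B00pm_011_s3 t 7 14 1 = true :=
  ⟨(a (b (a (b (b (a (b (a (a (b (l 16491008) (c (l 16559648) (b (l 16562904) (c (l 16566152) (l 16556696))))) (b (l 1) (b (l 1) (l 16529544)))) (l 1)) (a (c (b (l 16541032) (l 16576728)) (b (a (l 16540688) (l 16478608)) (l 16521696))) (c (l 16518208) (l 172368628119)))) (l 1)) (b (a (c (a (l 16476544) (l 16454736)) (a (l 16524096) (l 16525216))) (l 1)) (a (c (a (l 16454232) (l 16432552)) (a (l 16485600) (l 16470624))) (c (l 149282936583) (l 150893656551))))) (b (a (c (b (a (l 16431256) (l 16409728)) (b (l 16402800) (l 16390856))) (c (b (l 16452360) (l 16433864)) (b (l 16474312) (l 16543160)))) (a (c (a (l 16382296) (l 16371976)) (b (l 16436704) (l 16420088))) (c (l 157872761655) (l 144451118775)))) (b (a (c (l 16372616) (l 16429272)) (c (l 16331296) (l 16394464))) (a (c (l 16347712) (l 16411592)) (l 6))))) (b (l 1) (l 6))) (b (a (a (a (b (c (l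 16319504) (l 16392984)) (l 6)) (l 6)) (l 6)) (l 6)) (l 6))) (l 6)), by decide +kernel⟩

def k36_B00pm_011_s3 : ∃ t, chk3 f_B00pm_011_s3 t 3 15 1 = true :=
  ⟨(a (b (a (a (b (b (a (c (l 16404704) (l 16522904)) (c (b (l 16411224) (l 16375600)) (l 16396968))) (c (a (l 16288544) (b (l 16339000) (l 16385216))) (a (l 16386536) (l 16345184)))) (b (c (a (l 16210016) (a (l 16255368) (l 16230232))) (a (l 16330800) (l 16290192))) (c (a (a (l 16223832) (l 16198376)) (c (l 16207080) (l 16283080))) (a (l 16271840) (l 16232040))))) (b (c (b (a (b (l 16359624) (l 16324464)) (b (l 16309872) (l 16359064))) (a (a (l 16282280) (l 16257536)) (a (l 16233264) (l 16209472)))) (b (a (l 16355920) (l 16357896)) (a (l 16304832) (l 16265552)))) (a (b (c (c (l 16242840) (l 16312040)) (l 16250584)) (c (c (l 16156544) (l 16237144)) (l 16193224))) (b (c (c (l 16193184) (l 16266752)) (l 16212056)) (l 6))))) (a (b (a (a (b (c (l 16256752) (l 16370624)) (c (l 16186176) (l 16320752))) (b (c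 (l 16233456) (l 16351528)) (l 6))) (a (b (c (l 16210664) (l 16332752)) (l 6)) (l 6))) (l 6)) (l 6))) (a (a (a (b (c (b (b (l 16230056) (l 16184736)) (b (l 16137624) (l 16089552))) (b (l 16209256) (l 16141288))) (a (b (b (l 15907208) (l 6)) (l 6)) (l 6))) (b (b (c (b (l 16180888) (l 16136168)) (l 16170312)) (l 6)) (l 6))) (b (l 6) (l 6))) (l 6))) (l 6)), by decide +kernel⟩

theorem t37_B00pm_011_s3 : ∃ t, chk3 f_B00pm_011_s3 t 13 28 1 = true := ex3_a k32_B00pm_011_s3 k33_B00pm_011_s3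

theorem t38_B00pm_011_s3 : ∃ t, chk3 f_B00pm_011_s3 t 13 14 1 = true := ex3_b t37_B00pm_011_s3 k34_B00pm_011_s3

theorem t39_B00pm_011_s3 : ∃ t, chk3 f_B00pm_011_s3 t 12 14 1 = true := ex3_a k30_B00pm_011_s3 k31_B00pm_011_s3

theorem t40_B00pm_011_s3 : ∃ t, chk3 f_B00pm_011_s3 t 6 14 1 = true := ex3_a t39_B00pm_011_s3 t38_B00pm_011_s3

theorem t41_B00pm_011_s3 : ∃ t, chk3 f_B00pm_011_s3 t 3 14 1 = true := ex3_a t40_B00pm_011_s3 k35_B00pm_011_s3

theorem t42_B00pm_011_s3 : ∃ t, chk3 f_B00pm_011_s3 t 3 7 1 = true := ex3_b t41_B00pm_011_s3 k36_B00pm_011_s3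

theorem t43_B00pm_011_s3 : ∃ t, chk3 f_B00pm_011_s3 t 6 6 1 = true := ex3_a k27_B00pm_011_s3 k28_B00pm_011_s3

theorem t44_B00pm_011_s3 : ∃ t, chk3 f_B00pm_011_s3 t 3 6 1 = true := ex3_a t43_B00pm_011_s3 k29_B00pm_011_s3

theorem t45_B00pm_011_s3 : ∃ t, chk3 f_B00pm_011_s3 t 3 3 1 = true := ex3_b t44_B00pm_011_s3 t42_B00pm_011_s3

theorem t46_B00pm_011_s3 : ∃ t, chk3 f_B00pm_011_s3 t 10 31 1 = true := ex3_b k24_B00pm_011_s3 k25_B00pm_011_s3

theorem t47_B00pm_011_s3 : ∃ t, chk3 f_B00pm_011_s3 t 5 31 1 = true := ex3_a t46_B00pm_011_s3 k26_B00pm_011_s3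

theorem t48_B00pm_011_s3 : ∃ t, chk3 f_B00pm_011_s3 t 10 30 1 = true := ex3_b k21_B00pm_011_s3 k22_B00pm_011_s3

theorem t49_B00pm_011_s3 : ∃ t, chk3 f_B00pm_011_s3 t 5 30 1 = true := ex3_a t48_B00pm_011_s3 k23_B00pm_011_s3

theorem t50_B00pm_011_s3 : ∃ t, chk3 f_B00pm_011_s3 t 5 15 1 = true := ex3_b t49_B00pm_011_s3 t47_B00pm_011_s3

theorem t51_B00pm_011_s3 : ∃ t, chk3 f_B00pm_011_s3 t 5 7 1 = true := ex3_b k20_B00pm_011_s3 t50_B00pm_011_s3

theorem t52_B00pm_011_s3 : ∃ t, chk3 f_B00pm_011_s3 t 9 63 1 = true := ex3_b k18_B00pm_011_s3 k19_B00pm_011_s3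

theorem t53_B00pm_011_s3 : ∃ t, chk3 f_B00pm_011_s3 t 18 62 1 = true := ex3_b k15_B00pm_011_s3 k16_B00pm_011_s3

theorem t54_B00pm_011_s3 : ∃ t, chk3 f_B00pm_011_s3 t 9 62 1 = true := ex3_a t53_B00pm_011_s3 k17_B00pm_011_s3

theorem t55_B00pm_011_s3 : ∃ t, chk3 f_B00pm_011_s3 t 9 31 1 = true := ex3_b t54_B00pm_011_s3 t52_B00pm_011_s3

theorem t56_B00pm_011_s3 : ∃ t, chk3 f_B00pm_011_s3 t 9 15 1 = true := ex3_b k14_B00pm_011_s3 t55_B00pm_011_s3

theorem t57_B00pm_011_s3 : ∃ t, chk3 f_B00pm_011_s3 t 17 127 1 = true := ex3_b k12_B00pm_011_s3 k13_B00pm_011_s3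

theorem t58_B00pm_011_s3 : ∃ t, chk3 f_B00pm_011_s3 t 17 126 1 = true := ex3_a k10_B00pm_011_s3 k11_B00pm_011_s3

theorem t59_B00pm_011_s3 : ∃ t, chk3 f_B00pm_011_s3 t 17 63 1 = true := ex3_b t58_B00pm_011_s3 t57_B00pm_011_s3

theorem t60_B00pm_011_s3 : ∃ t, chk3 f_B00pm_011_s3 t 67 127 1 = true := ex3_a k8_B00pm_011_s3 k9_B00pm_011_s3

theorem t61_B00pm_011_s3 : ∃ t, chk3 f_B00pm_011_s3 t 33 127 1 = true := ex3_a k7_B00pm_011_s3 t60_B00pm_011_s3

theorem t62_B00pm_011_s3 : ∃ t, chk3 f_B00pm_011_s3 t 16 127 1 = true := ex3_a k6_B00pm_011_s3 t61_B00pm_011_s3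

theorem t63_B00pm_011_s3 : ∃ t, chk3 f_B00pm_011_s3 t 16 63 1 = true := ex3_b k5_B00pm_011_s3 t62_B00pm_011_s3

theorem t64_B00pm_011_s3 : ∃ t, chk3 f_B00pm_011_s3 t 8 63 1 = true := ex3_a t63_B00pm_011_s3 t59_B00pm_011_s3

theorem t65_B00pm_011_s3 : ∃ t, chk3 f_B00pm_011_s3 t 8 31 1 = true := ex3_b k4_B00pm_011_s3 t64_B00pm_011_s3

theorem t66_B00pm_011_s3 : ∃ t, chk3 f_B00pm_011_s3 t 8 15 1 = true := ex3_b k3_B00pm_011_s3 t65_B00pm_011_s3

theorem t67_B00pm_011_s3 : ∃ t, chk3 f_B00pm_011_s3 t 4 15 1 = true := ex3_a t66_B00pm_011_s3 t56_B00pm_011_s3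

theorem t68_B00pm_011_s3 : ∃ t, chk3 f_B00pm_011_s3 t 4 7 1 = true := ex3_b k2_B00pm_011_s3 t67_B00pm_011_s3

theorem t69_B00pm_011_s3 : ∃ t, chk3 f_B00pm_011_s3 t 2 7 1 = true := ex3_a t68_B00pm_011_s3 t51_B00pm_011_s3

theorem t70_B00pm_011_s3 : ∃ t, chk3 f_B00pm_011_s3 t 2 3 1 = true := ex3_b k1_B00pm_011_s3 t69_B00pm_011_s3

theorem t71_B00pm_011_s3 : ∃ t, chk3 f_B00pm_011_s3 t 1 3 1 = true := ex3_a t70_B00pm_011_s3 t45_B00pm_011_s3

theorem t72_B00pm_011_s3 : ∃ t, chk3 f_B00pm_011_s3 t 1 1 1 = true := ex3_b k0_B00pm_011_s3 t71_B00pm_011_s3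

theorem c_B00pm_011_s3 : CertF 0 536870912 536870912 536870912 1020054732 13421774 false true false .pnn 0 1 1
    ndB0q0 ndB0q1 pcB1 cut_B00pm_011_s3 xt_B00pm_011_s3 :=
  certF0 (fam := false) (s1 := true) (s2 := false) (a := 0) (b := 1) (c := 1) (cn := .pnn) (n1 := ndB0q0) (n2 := ndB0q1) (pc := pcB1) (cut := cut_B00pm_011_s3) (xt := xt_B00pm_011_s3) (P1 := 0) (W1 := 536870912) (P2 := 536870912) (W2 := 536870912) (P3 := 1020054732) (W3 := 13421774)
    rfl t72_B00pm_011_s3

theorem s_B00pm_011_s3 {κ x : ℝ} (hκ : κ * h0 = ken x) (hx : ((1020054732 : ℕ) : ℝ) / S ≤ x)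
    (hx' : x ≤ (((1020054732 : ℕ) : ℝ) + (13421774 : ℕ)) / S)
    (H : CutB (VFD κ) PP tK tL pcB (Cut.of [[⟨0, 0, 0, 26843545⟩, ⟨1, 1, 0, 26843545⟩, ⟨2, 1, 0, 26843545⟩]]) 0 1 1 0 0 (sgb true) (sgb false) x) :
    AltB (VFD κ) PP tK tL pcB [⟨4, 0, 0, 2845415833⟩] 0 1 1 0 0 (sgb true) (sgb false) x :=
  strip_altBD (m := 2845415833) false rfl hκ (SH.κ0 hκ (SH.hx1 hx).le (SH.hx2 hx').le) (SH.hx1 hx).le (SH.hx2 hx') (covB00).cov (covB01).cov hx hx' c_B00pm_011_s3 H ((okx hx hx').extB (T := tt) (sideB hx hx') hκ rfl rfl (.O 0 true) (.O 1 false) (Or.inr rfl))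

noncomputable def cut_B00pm_012_s1 : Cut := Cut.of [[⟨4, 0, 0, 1449551462⟩], [⟨0, 0, 0, 38347922⟩, ⟨1, 1, 0, 38347922⟩, ⟨2, 1, 0, 38347922⟩]]

noncomputable def xt_B00pm_012_s1 : Ext := strExt dd false true false .u0 .u2 .u0m .pnp 0 1 2 rfl rfl gf1 vv ndB0q0 ndB0q2

noncomputable def f_B00pm_012_s1 : ℕ → ℕ → ℕ → ℕ → Bool := onCell 0 536870912 0 536870912 1020054732 13421774
    (rowF 0 false true false .pnp 0 1 2 (qsf 0 536870912 0 536870912 1) ndB0q0 ndB0q2 pcB1 cut_B00pm_012_s1 xt_B00pm_012_s1)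

def k0_B00pm_012_s1 : ∃ t, chk3 f_B00pm_012_s1 t 2 1 1 = true :=
  ⟨(l 6), by decide +kernel⟩

def k1_B00pm_012_s1 : ∃ t, chk3 f_B00pm_012_s1 t 6 2 1 = true :=
  ⟨(b (a (l 6) (a (l 6) (a (l 6) (b (b (l 6) (l 6)) (l 6))))) (l 6)), by decide +kernel⟩

def k2_B00pm_012_s1 : ∃ t, chk3 f_B00pm_012_s1 t 14 4 1 = true :=
  ⟨(b (a (a (c (l 16617688) (l 16510232)) (b (c (l 16668584) (l 16516592)) (l 6))) (c (a (b (l 16581184) (l 16662856)) (b (b (l 16564560) (l 16568736)) (l 16573736))) (a (b (a (l 16612504) (l 16538120)) (l 16615760)) (b (c (l 16585776) (l 16522864)) (l 16547152))))) (l 6)), by decide +kernel⟩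

def k3_B00pm_012_s1 : ∃ t, chk3 f_B00pm_012_s1 t 30 8 1 = true :=
  ⟨(b (a (c (b (a (b (l 16548960) (l 16636080)) (b (a (l 16543048) (l 16625232)) (l 16541904))) (a (l 16640440) (l 16547376))) (c (b (a (l 16611888) (l 16629832)) (l 16605480)) (b (a (l 16536152) (b (l 16548832) (l 16546120))) (l 16540416)))) (b (c (b (l 532523791) (a (a (l 16535072) (l 16532912)) (l 16532736))) (a (b (l 16524840) (a (l 16516904) (l 16524120))) (c (l 16689696) (l 16576328)))) (a (c (l 16537240) (c (l 16684240) (l 16555312))) (b (c (a (l 16527320) (b (l 16609248) (l 16522720))) (c (l 16598040) (l 16568152))) (c (l 16528496) (l 16525960)))))) (c (a (b (l 16557736) (l 16646528)) (c (b (l 16605320) (l 16616624)) (l 16581016))) (a (b (l 16527800) (l 16563712)) (c (l 16613360) (b (l 16558280) (l 16640336)))))), by decide +kernel⟩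

def k4_B00pm_012_s1 : ∃ t, chk3 f_B00pm_012_s1 t 31 8 1 = true :=
  ⟨(b (a (b (c (l 531524111) (c (l 534114575) (l 532760079))) (a (c (b (a (l 16523664) (l 16608344)) (a (b (l 16518824) (l 16604872)) (b (l 16516592) (l 16515056)))) (c (b (l 16680672) (l 16633824)) (b (l 16581832) (a (l 16574464) (l 16580688))))) (c (b (l 16526592) (a (b (l 16601024) (l 16512256)) (l 16599456))) (b (l 16577216) (a (l 16593112) (l 16613760)))))) (c (c (l 530792975) (l 532360719)) (c (l 533523983) (l 532684047)))) (a (a (c (c (l 16508952) (l 16548888)) (c (l 16587344) (l 16593000))) (b (b (a (c (c (l 16570352) (l 16622128)) (b (l 16526664) (l 16608992))) (c (b (l 16507984) (l 16507960)) (c (l 16584928) (l 16590112)))) (c (l 16515616) (l 16564056))) (c (l 16523552) (c (l 16666016) (l 16580136))))) (b (a (c (b (a (b (l 16591856) (a (l 16503936) (l 16502896))) (l 16506504)) (a (l 16506288) (b (a (l 16500056) (l 16498600)) (l 16585256)))) (b (a (b (l 16609536) (l 16606952)) (l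 16608176)) (a (l 16604296) (b (l 16604080) (l 16602336))))) (c (b (l 531482127) (a (b (l 16498784) (a (l 16496368) (l 16494424))) (c (l 16551864) (l 16609568)))) (b (l 533314575) (a (c (l 16620008) (l 16605304)) (b (l 16604104) (l 16601032)))))) (c (a (b (l 16509440) (l 16515304)) (b (a (l 16499888) (b (a (l 16492904) (l 16490408)) (l 16494944))) (l 16503456))) (a (c (l 16662072) (l 16591088)) (c (c (l 16603936) (l 16627248)) (c (l 16649896) (l 16620912)))))))), by decide +kernel⟩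

def k5_B00pm_012_s1 : ∃ t, chk3 f_B00pm_012_s1 t 15 9 1 = true :=
  ⟨(b (a (c (a (l 16568984) (c (l 16631304) (l 16649088))) (a (l 16555848) (b (l 16577544) (l 16653400)))) (c (a (c (l 16528536) (l 16553568)) (c (b (l 16498688) (l 16597344)) (b (l 16536992) (l 16626344)))) (a (c (l 16578504) (l 16569344)) (c (b (l 16573752) (l 16654848)) (b (l 16600664) (l 16583936)))))) (a (l 6) (a (b (c (l 16635584) (l 16662864)) (l 6)) (c (c (l 16532464) (l 16632992)) (c (l 16649848) (l 16659160)))))), by decide +kernel⟩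

def k6_B00pm_012_s1 : ∃ t, chk3 f_B00pm_012_s1 t 7 5 1 = true :=
  ⟨(l 6), by decide +kernel⟩

def k7_B00pm_012_s1 : ∃ t, chk3 f_B00pm_012_s1 t 3 3 1 = true :=
  ⟨(l 6), by decide +kernel⟩

theorem t8_B00pm_012_s1 : ∃ t, chk3 f_B00pm_012_s1 t 15 8 1 = true := ex3_a k3_B00pm_012_s1 k4_B00pm_012_s1

theorem t9_B00pm_012_s1 : ∃ t, chk3 f_B00pm_012_s1 t 15 4 1 = true := ex3_b t8_B00pm_012_s1 k5_B00pm_012_s1

theorem t10_B00pm_012_s1 : ∃ t, chk3 f_B00pm_012_s1 t 7 4 1 = true := ex3_a k2_B00pm_012_s1 t9_B00pm_012_s1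

theorem t11_B00pm_012_s1 : ∃ t, chk3 f_B00pm_012_s1 t 7 2 1 = true := ex3_b t10_B00pm_012_s1 k6_B00pm_012_s1

theorem t12_B00pm_012_s1 : ∃ t, chk3 f_B00pm_012_s1 t 3 2 1 = true := ex3_a k1_B00pm_012_s1 t11_B00pm_012_s1

theorem t13_B00pm_012_s1 : ∃ t, chk3 f_B00pm_012_s1 t 3 1 1 = true := ex3_b t12_B00pm_012_s1 k7_B00pm_012_s1

theorem t14_B00pm_012_s1 : ∃ t, chk3 f_B00pm_012_s1 t 1 1 1 = true := ex3_a k0_B00pm_012_s1 t13_B00pm_012_s1

theorem c_B00pm_012_s1 : CertF 0 536870912 0 536870912 1020054732 13421774 false true false .pnp 0 1 2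
    ndB0q0 ndB0q2 pcB1 cut_B00pm_012_s1 xt_B00pm_012_s1 :=
  certF0 (fam := false) (s1 := true) (s2 := false) (a := 0) (b := 1) (c := 2) (cn := .pnp) (n1 := ndB0q0) (n2 := ndB0q2) (pc := pcB1) (cut := cut_B00pm_012_s1) (xt := xt_B00pm_012_s1) (P1 := 0) (W1 := 536870912) (P2 := 0) (W2 := 536870912) (P3 := 1020054732) (W3 := 13421774)
    rfl t14_B00pm_012_s1

theorem s_B00pm_012_s1 {κ x : ℝ} (hκ : κ * h0 = ken x) (hx : ((1020054732 : ℕ) : ℝ) / S ≤ x)
    (hx' : x ≤ (((1020054732 : ℕ) : ℝ) + (13421774 : ℕ)) / S)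
    (H : CutB (VFD κ) PP tK tL pcB (Cut.of [[⟨0, 0, 0, 38347922⟩, ⟨1, 1, 0, 38347922⟩, ⟨2, 1, 0, 38347922⟩]]) 0 1 2 0 0 (sgb true) (sgb false) x) :
    AltB (VFD κ) PP tK tL pcB [⟨3, 0, 0, 1449551462⟩] 0 1 2 0 0 (sgb true) (sgb false) x :=
  strip_altBD (m := 1449551462) true rfl hκ (SH.κ0 hκ (SH.hx1 hx).le (SH.hx2 hx').le) (SH.hx1 hx).le (SH.hx2 hx') (covB00).cov (covB02).cov hx hx' c_B00pm_012_s1 H ((okx hx hx').extB (T := tt) (sideB hx hx') hκ rfl rfl (.O 0 true) (.O 2 false) (Or.inr rfl))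

noncomputable def cut_B00pm_012_s3 : Cut := Cut.of [[⟨3, 0, 0, 2845415833⟩], [⟨0, 0, 0, 38347922⟩, ⟨1, 1, 0, 38347922⟩, ⟨2, 1, 0, 38347922⟩]]

noncomputable def f_B00pm_012_s3 : ℕ → ℕ → ℕ → ℕ → Bool := onCell 536870912 536870912 0 536870912 1020054732 13421774
    (rowF 2 false true false .pnp 0 1 2 (qsf 0 536870912 0 536870912 1) ndB0q0 ndB0q2 pcB1 cut_B00pm_012_s3 Ext.none)

def k0_B00pm_012_s3 : ∃ t, chk3 f_B00pm_012_s3 t 2 1 1 = true :=
  ⟨(b (l 6) (b (l 6) (l 6))), by decide +kernel⟩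

def k1_B00pm_012_s3 : ∃ t, chk3 f_B00pm_012_s3 t 3 2 1 = true :=
  ⟨(l 6), by decide +kernel⟩

def k2_B00pm_012_s3 : ∃ t, chk3 f_B00pm_012_s3 t 6 3 1 = true :=
  ⟨(b (l 6) (b (l 6) (b (a (l 6) (a (a (l 6) (b (l 6) (c (a (l 6) (l 16298768)) (l 16326736)))) (a (b (l 6) (c (a (l 16232936) (l 16251328)) (l 16356088))) (c (b (a (l 6) (l 16308640)) (a (l 16270056) (a (l 16284328) (l 16293936)))) (b (l 16389232) (a (l 16378512) (l 16393560))))))) (b (a (a (l 6) (a (l 6) (a (l 6) (l 16009328)))) (a (c (a (l 16044984) (a (l 16159048) (l 16179560))) (a (l 16279800) (l 16312112))) (c (a (a (l 16158456) (c (l 16273216) (l 16337968))) (a (b (l 16333696) (l 16236360)) (b (l 16270896) (l 16258840)))) (a (a (l 16336768) (l 16353304)) (a (l 16369936) (l 16386656)))))) (a (c (a (a (l 6) (l 16042072)) (a (l 16000128) (l 15959712))) (a (l 16060120) (a (l 16278840) (l 16313616)))) (c (a (a (a (l 16077168) (l 16099944)) (a (l 16039168) (c (l 16190288) (l 16270792)))) (a (a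 (c (l 16131480) (l 16293168)) (b (l 16200624) (l 16188384))) (a (b (l 16224224) (l 16213440)) (b (l 16248120) (l 16238768))))) (a (a (l 16265176) (l 16217272)) (a (a (l 16328488) (l 16346776)) (a (l 16365136) (l 16383544)))))))))), by decide +kernel⟩

def k3_B00pm_012_s3 : ∃ t, chk3 f_B00pm_012_s3 t 7 6 1 = true :=
  ⟨(l 6), by decide +kernel⟩

def k4_B00pm_012_s3 : ∃ t, chk3 f_B00pm_012_s3 t 14 14 1 = true :=
  ⟨(b (l 6) (b (a (l 6) (a (l 6) (b (l 6) (c (a (l 16470760) (l 16485576)) (a (l 16471832) (l 16483472)))))) (a (b (l 6) (a (l 6) (c (a (l 16450496) (l 16466352)) (l 16439664)))) (a (c (a (a (l 16395320) (l 16403192)) (b (l 16415096) (l 16415168))) (a (l 16456520) (l 16510984))) (a (c (b (l 16430744) (l 16432000)) (l 16523592)) (c (b (l 16488664) (l 16449200)) (b (l 16490920) (l 16497784)))))))), by decide +kernel⟩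

def k5_B00pm_012_s3 : ∃ t, chk3 f_B00pm_012_s3 t 14 30 1 = true :=
  ⟨(a (a (b (c (a (l 16325384) (l 16342456)) (a (l 16493432) (l 16423200))) (c (a (a (l 16303616) (l 16313376)) (b (l 16416376) (l 16323936))) (a (l 16408712) (l 16423952)))) (b (c (a (l 16370344) (c (l 16443544) (l 16479544))) (a (l 16436952) (l 16450792))) (c (a (b (l 16435704) (l 16344576)) (b (l 16371456) (l 16365504))) (a (l 16439264) (l 16454632))))) (c (a (b (a (a (l 16391104) (l 16400200)) (b (l 16414576) (l 16413384))) (a (b (l 16391384) (l 16386720)) (b (l 16411600) (l 16408224)))) (b (a (b (l 16432616) (l 16432672)) (b (l 16450968) (l 16452112))) (a (b (l 16432088) (l 16429808)) (b (l 16452648) (l 16451464))))) (b (a (a (l 16464704) (l 16478680)) (a (l 16492784) (l 16506744))) (a (a (l 16470040) (l 16485536)) (a (l 16521840) (b (l 16514544) (l 16517680))))))), by decide +kernel⟩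

def k6_B00pm_012_s3 : ∃ t, chk3 f_B00pm_012_s3 t 14 31 1 = true :=
  ⟨(c (a (a (b (a (b (l 16292288) (l 16281608)) (b (l 16313976) (l 16304656))) (a (b (l 16272288) (l 16264360)) (b (l 16296720) (l 16290200)))) (b (a (b (l 16335944) (l 16327976)) (b (l 16358192) (l 16351560))) (b (a (l 16321416) (l 16346384)) (c (a (l 16369768) (l 16397824)) (l 16359208))))) (a (b (a (b (l 16380752) (l 16375400)) (b (l 16403440) (l 16399304))) (a (b (l 16371432) (a (l 16362328) (l 16375440))) (b (l 16396496) (a (l 16388536) (l 16401632))))) (b (a (b (l 16426192) (l 16423144)) (b (l 16448888) (l 16446992))) (a (b (l 16421496) (a (l 16414728) (l 16427848))) (b (b (l 16446536) (l 16446672)) (a (l 16440984) (l 16454160))))))) (a (b (a (a (l 16403448) (l 16420288)) (a (l 16437176) (l 16454080))) (a (a (l 16401992) (l 16420456)) (a (l 16439056) (l 16457408)))) (b (a (a (l 16471040) (l 16498264)) (a (b (l 16503424) (l 16505328)) (b (l 16519328) (l 16521792)))) (a (a (l 16475576)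 (b (l 16491560) (l 16496176))) (c (b (l 16496280) (l 16500512)) (b (l 16538632) (l 16545456))))))), by decide +kernel⟩

def k7_B00pm_012_s3 : ∃ t, chk3 f_B00pm_012_s3 t 30 14 1 = true :=
  ⟨(b (a (l 6) (b (l 6) (b (a (l 6) (a (l 6) (c (l 16547328) (l 16542648)))) (a (c (a (l 16514456) (l 16521312)) (a (l 16496176) (l 16501432))) (c (a (l 16528176) (l 16556032)) (a (l 16548552) (l 16553672))))))) (c (a (b (a (b (a (l 16534448) (l 16541552)) (a (l 16538872) (l 16546560))) (a (b (l 16548760) (l 16554288)) (a (l 16515264) (l 16519024)))) (a (b (l 16504984) (l 16508520)) (a (l 16519520) (l 16528016)))) (b (a (a (c (l 16517784) (l 16531656)) (b (l 16528704) (l 16493736))) (a (b (l 16536032) (l 16501544)) (b (l 16543384) (l 16551320)))) (a (b (b (l 16536520) (l 16539464)) (l 16543520)) (a (b (l 16508496) (l 16598680)) (b (l 16516832) (l 16523656)))))) (a (b (a (b (l 16528576) (l 16495248)) (b (l 16539728) (l 16548896))) (a (b (l 16503328) (l 16510760)) (b (l 16515632)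 (l 16523568)))) (b (a (a (l 16552888) (l 16568968)) (a (b (l 16517016) (l 16527032)) (b (l 16522376) (l 16532640)))) (a (b (l 16569592) (l 16536088)) (a (l 16582896) (l 16588904))))))), by decide +kernel⟩

def k8_B00pm_012_s3 : ∃ t, chk3 f_B00pm_012_s3 t 31 28 1 = true :=
  ⟨(a (b (b (l 6) (a (l 6) (a (l 6) (b (l 6) (c (l 16565216) (l 16573528)))))) (a (a (b (c (l 16553776) (l 16547488)) (c (l 16562944) (l 16558744))) (c (b (l 16560248) (l 16569888)) (b (l 16552272) (l 16563776)))) (a (c (b (a (l 16586112) (l 16547440)) (l 16576888)) (b (l 16578000) (l 16589752))) (b (c (a (l 16550728) (l 16554032)) (a (l 16560576) (l 16562936))) (c (a (l 16561208) (l 16564752)) (l 16594736)))))) (b (a (b (l 6) (a (b (l 6) (c (l 16581984) (l 16578048))) (a (c (l 16573280) (l 16578200)) (c (l 16576416) (l 16580424))))) (a (b (a (l 6) (c (l 16580504) (l 16581904))) (c (a (l 16590064) (l 16593248)) (a (l 16582648) (l 16595360)))) (b (b (l 6) (c (a (l 16597248) (l 16600296))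 (a (l 16597928) (l 16600064)))) (b (a (a (l 16582584) (l 16594408)) (a (l 16595760) (l 16597104))) (a (c (l 16589192) (l 16590480)) (c (l 16592488) (l 16592752))))))) (b (a (a (c (a (l 16578328) (l 16581664)) (a (l 16565296) (l 16567648))) (c (a (l 16585024) (l 16588408)) (a (l 16590976) (l 16593336)))) (a (c (a (l 16591808) (b (l 16592160) (l 16598336))) (a (l 16595696) (b (l 16594808) (l 16580360)))) (c (a (l 16609176) (b (l 16598976) (l 16602848))) (a (l 16610912) (a (l 16602216) (l 16602128)))))) (a (a (c (a (l 16568320) (l 16571904)) (a (l 16577504) (l 16579992))) (c (a (l 16596480) (l 16600112)) (a (l 16582480) (l 16584976)))) (a (c (a (l 16603768) (l 16607456)) (a (l 16606336) (l 16605368))) (a (c (a (l 16586168) (l 16605920)) (a (l 16604632) (l 16604096))) (c (b (l 16603592) (l 16604776)) (a (l 16614112) (l 16613648))))))))), by decide +kernel⟩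

def k9_B00pm_012_s3 : ∃ t, chk3 f_B00pm_012_s3 t 31 29 1 = true :=
  ⟨(a (b (a (a (c (b (l 16550768) (l 16559200)) (b (l 16527688) (l 16538208))) (c (b (l 16558200) (l 16567136)) (b (l 16574920) (l 16543760)))) (a (b (c (l 16565688) (l 16580184)) (c (l 16575136) (l 16591240))) (c (b (l 16594216) (l 16583208)) (b (l 16585432) (l 16596768))))) (a (c (a (b (l 16525224) (l 16532576)) (b (l 16575616) (l 16541560))) (a (l 16594880) (l 16600848))) (a (b (c (l 16584144) (l 16559896)) (c (l 16592776) (l 16569160))) (b (c (l 16592752) (l 16602304)) (c (l 16601736) (l 16609704)))))) (b (b (a (a (c (l 16601856) (l 16611664)) (c (a (l 16586672) (l 16590568)) (a (l 16589696) (l 16588768)))) (a (a (c (l 16614440) (l 16608736)) (c (l 16612088) (l 16607848))) (a (c (l 16620272) (l 16617528)) (c (c (l 16607800) (l 16628176)) (b (l 16626280) (l 16628296)))))) (a (a (c (l 16612336) (l 16595000)) (a (c (l 16597608) (l 16593592)) (c (l 16600784) (l 16592752)))) (a (a (c (l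 16598464) (l 16612976)) (c (l 16617136) (l 16612280))) (a (c (l 16615008) (l 16622272)) (c (l 16623448) (b (l 16630872) (l 16634000))))))) (b (a (a (c (l 16622440) (l 16621544)) (a (l 16625760) (c (l 16607688) (l 16598864)))) (a (a (c (l 16605544) (l 16598448)) (c (l 16603488) (l 16598152))) (a (c (l 16622472) (l 16618928)) (c (l 16631024) (l 16629304))))) (a (a (c (l 16610528) (l 16608584)) (a (l 16634488) (l 16633336))) (a (a (c (l 16615064) (l 16607488)) (c (l 16613120) (l 16607448))) (a (c (l 16611208) (l 16607456)) (c (l 16630336) (l 16628552)))))))), by decide +kernel⟩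

def k10_B00pm_012_s3 : ∃ t, chk3 f_B00pm_012_s3 t 30 15 1 = true :=
  ⟨(b (b (a (a (c (b (l 16469440) (l 16471624)) (l 16562520)) (c (a (l 16484776) (l 16536224)) (b (l 16530808) (l 16537416)))) (a (c (a (l 16545752) (l 16555328)) (a (l 16544112) (l 16550728))) (c (a (l 16564944) (l 16574624)) (a (l 16557320) (l 16563896))))) (a (a (c (b (l 16473176) (l 16473080)) (b (l 16529096) (l 16532776))) (c (b (l 16493760) (l 16494784)) (b (l 16543424) (l 16547672)))) (a (c (b (l 16556424) (l 16558608)) (b (l 16557592) (l 16562448))) (b (a (l 16570008) (c (l 16540816) (l 16575328))) (c (a (l 16533320) (l 16544192)) (l 16619104)))))) (a (c (b (a (b (l 16471640) (l 16512864)) (b (l 16536456) (a (l 16572872) (l 16501256)))) (b (a (a (l 16465400) (l 16478024)) (a (l 16490808) (l 16503344))) (a (a (l 16467384) (l 16522656)) (a (a (l 16490552) (l 16497072)) (a (l 16503408) (l 16509640)))))) (b (a (b (l 16534992) (l 16538056)) (b (l 16550496) (l 16554648))) (b (a (l 16542832)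 (l 16559696)) (a (l 16570544) (a (l 16562240) (l 16570304)))))) (b (c (a (b (a (l 16595704) (l 16523456)) (a (l 16513240) (l 16524920))) (b (a (l 16534760) (l 16587784)) (a (l 16578440) (l 16589504)))) (a (b (l 16608032) (l 16611976)) (b (a (l 16577096) (l 16584040)) (a (l 16580920) (l 16587480))))) (c (b (a (a (l 16557608) (l 16569440)) (a (a (l 16536184) (l 16583856)) (a (l 16589472) (l 16595240)))) (a (a (b (l 16517976) (l 16519800)) (b (l 16529944) (l 16573888))) (a (b (l 16583672) (l 16586016)) (b (l 16595664) (b (l 16597736) (l 16599352)))))) (a (b (a (l 16571600) (l 16578816)) (a (l 16577736) (l 16584808))) (b (a (l 16585624) (l 16592136)) (a (l 16633616) (b (l 16596936) (l 16600848))))))))), by decide +kernel⟩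

def k11_B00pm_012_s3 : ∃ t, chk3 f_B00pm_012_s3 t 31 15 1 = true :=
  ⟨(b (a (b (a (a (b (l 16594696) (c (l 16545704) (l 16574736))) (c (b (l 16549032) (l 16555640)) (b (l 16572984) (l 16581272)))) (a (b (c (l 16558488) (l 16578624)) (c (l 16565416) (l 16587528))) (b (c (l 16609792) (l 16577488)) (c (l 16616664) (l 16589872))))) (a (b (a (c (l 16551232) (l 16582144)) (c (l 16561424) (l 16588624))) (a (c (l 16554824) (l 16587368)) (c (l 16606920) (l 16593456)))) (b (a (c (l 16613096) (l 16594488)) (c (l 16622560) (l 16599976))) (a (c (l 16616848) (l 16599200)) (c (l 16647632) (l 16646664)))))) (b (a (b (a (c (l 16618680) (l 16618904)) (a (l 16624784) (l 16644792))) (a (c (l 16625688) (l 16589928)) (a (l 16638200) (l 16637456)))) (a (b (a (l 16643864) (c (l 16624952) (l 16619064))) (a (l 16657488) (c (l 16638448) (l 16632440)))) (b (a (c (l 16622976) (l 16619136)) (c (l 16641888) (l 16640120))) (b (a (l 16651840) (l 16650600)) (l 14))))) (b (a (a (c (l 16652840)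 (l 16647136)) (c (a (l 16639016) (l 16643936)) (l 16668408))) (a (a (c (l 16648896) (l 16647424)) (l 14)) (l 14))) (a (a (a (l 16653016) (c (l 16639352) (l 16611984))) (a (c (l 16644688) (l 16615136)) (l 14))) (l 14))))) (a (b (a (b (a (c (l 16598392) (l 16590360)) (c (l 16629600) (l 16596184))) (a (c (l 16610784) (l 16593648)) (c (b (l 16652472) (l 16612288)) (l 16641920)))) (b (a (c (a (l 16658472) (l 16621768)) (l 16644168)) (c (b (l 16629008) (l 16630776)) (l 16671392))) (a (c (b (l 16621552) (l 16623928)) (l 16648504)) (l 14)))) (a (b (c (a (b (l 16602880) (l 16605224)) (b (l 16614576) (l 14))) (a (l 16640784) (l 16647840))) (a (b (c (l 16608072) (l 16604256)) (l 14)) (l 14))) (l 14))) (b (l 14) (l 14)))), by decide +kernel⟩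

theorem t12_B00pm_012_s3 : ∃ t, chk3 f_B00pm_012_s3 t 15 15 1 = true := ex3_a k10_B00pm_012_s3 k11_B00pm_012_s3

theorem t13_B00pm_012_s3 : ∃ t, chk3 f_B00pm_012_s3 t 31 14 1 = true := ex3_b k8_B00pm_012_s3 k9_B00pm_012_s3

theorem t14_B00pm_012_s3 : ∃ t, chk3 f_B00pm_012_s3 t 15 14 1 = true := ex3_a k7_B00pm_012_s3 t13_B00pm_012_s3

theorem t15_B00pm_012_s3 : ∃ t, chk3 f_B00pm_012_s3 t 15 7 1 = true := ex3_b t14_B00pm_012_s3 t12_B00pm_012_s3

theorem t16_B00pm_012_s3 : ∃ t, chk3 f_B00pm_012_s3 t 14 15 1 = true := ex3_b k5_B00pm_012_s3 k6_B00pm_012_s3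

theorem t17_B00pm_012_s3 : ∃ t, chk3 f_B00pm_012_s3 t 14 7 1 = true := ex3_b k4_B00pm_012_s3 t16_B00pm_012_s3

theorem t18_B00pm_012_s3 : ∃ t, chk3 f_B00pm_012_s3 t 7 7 1 = true := ex3_a t17_B00pm_012_s3 t15_B00pm_012_s3

theorem t19_B00pm_012_s3 : ∃ t, chk3 f_B00pm_012_s3 t 7 3 1 = true := ex3_b k3_B00pm_012_s3 t18_B00pm_012_s3

theorem t20_B00pm_012_s3 : ∃ t, chk3 f_B00pm_012_s3 t 3 3 1 = true := ex3_a k2_B00pm_012_s3 t19_B00pm_012_s3

theorem t21_B00pm_012_s3 : ∃ t, chk3 f_B00pm_012_s3 t 3 1 1 = true := ex3_b k1_B00pm_012_s3 t20_B00pm_012_s3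

theorem t22_B00pm_012_s3 : ∃ t, chk3 f_B00pm_012_s3 t 1 1 1 = true := ex3_a k0_B00pm_012_s3 t21_B00pm_012_s3

theorem c_B00pm_012_s3 : CertF 0 536870912 0 536870912 1020054732 13421774 false true false .pnp 0 1 2
    ndB0q0 ndB0q2 pcB1 cut_B00pm_012_s3 Ext.none :=
  certF2 (fam := false) (s1 := true) (s2 := false) (a := 0) (b := 1) (c := 2) (cn := .pnp) (n1 := ndB0q0) (n2 := ndB0q2) (pc := pcB1) (cut := cut_B00pm_012_s3) (xt := Ext.none) (P1 := 0) (W1 := 536870912) (P2 := 0) (W2 := 536870912) (P3 := 1020054732) (W3 := 13421774)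
    rfl (fun _ => rfl) t22_B00pm_012_s3

theorem s_B00pm_012_s3 {κ x : ℝ} (hκ : κ * h0 = ken x) (hx : ((1020054732 : ℕ) : ℝ) / S ≤ x)
    (hx' : x ≤ (((1020054732 : ℕ) : ℝ) + (13421774 : ℕ)) / S)
    (H : CutB (VFD κ) PP tK tL pcB (Cut.of [[⟨0, 0, 0, 38347922⟩, ⟨1, 1, 0, 38347922⟩, ⟨2, 1, 0, 38347922⟩]]) 0 1 2 0 0 (sgb true) (sgb false) x) :
    AltB (VFD κ) PP tK tL pcB [⟨4, 0, 0, 2845415833⟩] 0 1 2 0 0 (sgb true) (sgb false) x :=
  strip_altBD (m := 2845415833) false rfl hκ (SH.κ0 hκ (SH.hx1 hx).le (SH.hx2 hx').le) (SH.hx1 hx).le (SH.hx2 hx') (covB00).cov (covB02).cov hx hx' c_B00pm_012_s3 H (noExt_B)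

noncomputable def cut_B00pm_022_s1 : Cut := Cut.of [[⟨4, 0, 0, 1449551462⟩], [⟨0, 0, 0, 38347922⟩, ⟨1, 1, 0, 38347922⟩, ⟨2, 1, 0, 38347922⟩]]

noncomputable def f_B00pm_022_s1 : ℕ → ℕ → ℕ → ℕ → Bool := onCell 1073741824 536870912 0 536870912 1020054732 13421774
    (rowF 2 false true false .pp 0 2 2 (qsf 0 536870912 0 536870912 2) ndB0q0 ndB0q2 pcB2 cut_B00pm_022_s1 Ext.none)

def k0_B00pm_022_s1 : ∃ t, chk3 f_B00pm_022_s1 t 1 1 1 = true :=
  ⟨(l 6), by decide +kernel⟩

theorem c_B00pm_022_s1 : CertF 0 536870912 0 536870912 1020054732 13421774 false true false .pp 0 2 2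
    ndB0q0 ndB0q2 pcB2 cut_B00pm_022_s1 Ext.none :=
  certF2 (fam := false) (s1 := true) (s2 := false) (a := 0) (b := 2) (c := 2) (cn := .pp) (n1 := ndB0q0) (n2 := ndB0q2) (pc := pcB2) (cut := cut_B00pm_022_s1) (xt := Ext.none) (P1 := 0) (W1 := 536870912) (P2 := 0) (W2 := 536870912) (P3 := 1020054732) (W3 := 13421774)
    rfl (fun _ => rfl) k0_B00pm_022_s1

theorem s_B00pm_022_s1 {κ x : ℝ} (hκ : κ * h0 = ken x) (hx : ((1020054732 : ℕ) : ℝ) / S ≤ x)
    (hx' : x ≤ (((1020054732 : ℕ) : ℝ) + (13421774 : ℕ)) / S)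
    (H : CutB (VFD κ) PP tK tL pcB (Cut.of [[⟨0, 0, 0, 38347922⟩, ⟨1, 1, 0, 38347922⟩, ⟨2, 1, 0, 38347922⟩]]) 0 2 2 0 0 (sgb true) (sgb false) x) :
    AltB (VFD κ) PP tK tL pcB [⟨3, 0, 0, 1449551462⟩] 0 2 2 0 0 (sgb true) (sgb false) x :=
  strip_altBD (m := 1449551462) true rfl hκ (SH.κ0 hκ (SH.hx1 hx).le (SH.hx2 hx').le) (SH.hx1 hx).le (SH.hx2 hx') (covB00).cov (covB02).cov hx hx' c_B00pm_022_s1 H (noExt_B)

noncomputable def cut_B00pm_022_s3 : Cut := Cut.of [[⟨3, 0, 0, 2845415833⟩], [⟨0, 0, 0, 38347922⟩, ⟨1, 1, 0, 38347922⟩, ⟨2, 1, 0, 38347922⟩]]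

noncomputable def f_B00pm_022_s3 : ℕ → ℕ → ℕ → ℕ → Bool := onCell 0 536870912 0 536870912 1020054732 13421774
    (rowF 0 false true false .pp 0 2 2 (qsf 0 536870912 0 536870912 2) ndB0q0 ndB0q2 pcB2 cut_B00pm_022_s3 Ext.none)

def k0_B00pm_022_s3 : ∃ t, chk3 f_B00pm_022_s3 t 2 2 1 = true :=
  ⟨(l 6), by decide +kernel⟩

def k1_B00pm_022_s3 : ∃ t, chk3 f_B00pm_022_s3 t 4 6 1 = true :=
  ⟨(b (l 6) (a (a (b (a (b (c (l 16393520) (l 16404856)) (a (l 16450448) (l 16427808))) (b (l 6) (a (l 16404448) (l 6)))) (a (b (a (b (l 16479576) (l 16539728)) (b (l 16454136) (l 16470536))) (a (b (a (l 16522136) (l 16507776)) (a (l 16580664) (l 16565424))) (b (c (l 16480696) (l 16491328)) (a (l 16550064) (l 16534632))))) (b (a (b (l 16511928) (l 16442840)) (b (l 16485968) (l 16499264))) (b (a (c (l 16535312) (l 16545968)) (l 16469936)) (a (c (l 16506720) (l 16474936)) (c (l 16518760) (l 16528880))))))) (b (l 6) (a (b (a (b (l 16460416) (l 16472520)) (b (l 6) (l 16447128)))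 (a (b (l 16442008) (c (l 16489704) (l 16499792))) (b (l 16457360) (l 16425008)))) (b (l 6) (a (b (l 16433928) (l 16442352)) (b (l 6) (l 16422488))))))) (a (b (l 6) (l 6)) (l 6)))), by decide +kernel⟩

def k2_B00pm_022_s3 : ∃ t, chk3 f_B00pm_022_s3 t 16 28 1 = true :=
  ⟨(a (b (a (b (a (b (l 16585048) (l 16585264)) (b (l 16576496) (l 16583552))) (a (b (l 16606824) (c (l 16591232) (l 16582312))) (c (l 16610096) (l 16595224)))) (b (a (b (l 16518560) (l 16567184)) (a (l 16551792) (l 16543760))) (a (b (l 16573624) (l 16579840)) (c (l 16555608) (l 16522696))))) (b (a (a (b (c (l 16613408) (l 16604784)) (a (b (l 16606792) (l 16618184)) (l 16614328))) (c (b (l 16598888) (l 16605112)) (b (l 16597648) (l 16599688)))) (a (c (l 16605608) (l 16593064)) (c (l 16567472) (l 16575880)))) (a (a (c (b (a (l 16613208) (l 16599376)) (a (l 16615360) (l 16601576))) (b (a (l 16626160) (l 16633360)) (a (l 16607680) (l 16635896)))) (b (c (l 16609872) (l 16602000)) (c (l 16612144)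 (l 16604616)))) (a (c (l 16617200) (l 16624976)) (c (l 16599560) (l 16586336)))))) (a (b (b (a (l 16531840) (l 16516152)) (a (a (l 16547736) (l 16539576)) (l 16537920))) (c (b (a (l 16592480) (l 16575768)) (a (l 16561168) (l 16585896))) (b (a (l 16600864) (l 16584120)) (a (l 16610824) (l 16593592))))) (b (b (b (l 16490288) (l 16495704)) (a (l 16511432) (l 16495640))) (b (c (a (l 16559264) (l 16542968)) (l 16517456)) (c (a (l 16568896) (l 16552088)) (l 16526168)))))), by decide +kernel⟩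

def k3_B00pm_022_s3 : ∃ t, chk3 f_B00pm_022_s3 t 32 29 1 = true :=
  ⟨(b (a (a (a (b (c (b (l 16628288) (a (l 16639672) (l 16643344))) (b (l 16620952) (a (l 16632680) (l 16636376)))) (c (b (a (l 16642704) (l 16646400)) (b (l 16636544) (l 16638288))) (b (a (l 16636064) (l 16639784)) (a (l 16639760) (l 16643496))))) (b (c (b (l 16625040) (l 16627832)) (c (l 16621096) (l 16617496))) (c (b (l 16630912) (l 16634288)) (b (l 16645304) (l 16649040))))) (b (c (b (l 16614712) (l 16638536)) (a (l 16626504) (l 16612616))) (c (b (l 16641680) (l 16645112)) (b (l 16635176) (l 16638960))))) (b (a (c (l 16628032) (l 16614152)) (c (l 16609920) (l 16596008))) (a (c (b (l 16614672) (l 16619504)) (l 16644464)) (c (l 16619512) (l 16604904))))) (a (a (a (b (c (b (b (l 16640104) (l 16641968)) (c (l 16646248) (l 16643512))) (b (a (l 16643728) (l 16647480)) (a (l 16647936) (l 16651696)))) (c (b (b (l 16647928) (l 16650032)) (b (l 16652200) (l 16654432))) (b (a (l 16652376) (l 16656152))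 (a (l 16657064) (l 16660840))))) (b (c (b (l 16637936) (l 16641816)) (c (l 16646096) (l 16643216))) (c (b (l 16645936) (l 16650288)) (c (l 16654856) (l 16641848))))) (b (b (c (l 16648808) (l 16643016)) (c (l 16652728) (l 16647288))) (b (c (l 16656872) (l 16651784)) (a (l 16665752) (l 16662504))))) (b (a (c (l 16647432) (l 16653112)) (c (l 16628432) (l 16613120))) (a (c (l 16656256) (l 16661240)) (c (l 16636840) (l 16620832)))))), by decide +kernel⟩

def k4_B00pm_022_s3 : ∃ t, chk3 f_B00pm_022_s3 t 33 29 1 = true :=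
  ⟨(a (b (c (b (a (l 16571048) (l 16595304)) (a (l 16580184) (l 16603976))) (b (a (l 16620024) (l 16602312)) (a (l 16628464) (l 16610296)))) (c (b (a (l 16588672) (l 16612016)) (a (l 16596648) (l 16619568))) (b (a (l 16636248) (l 16617640)) (a (l 16643552) (l 16624512))))) (b (b (a (c (l 16577816) (l 16584800)) (l 16543008)) (a (c (l 16586024) (l 16592320)) (l 16550400))) (b (a (c (l 16593616) (l 16599216)) (l 16557192)) (a (c (l 16600728) (l 16605672)) (c (l 16582072) (l 16587000)))))), by decide +kernel⟩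

def k5_B00pm_022_s3 : ∃ t, chk3 f_B00pm_022_s3 t 17 14 1 = true :=
  ⟨(b (a (b (a (b (c (l 16500064) (l 16509568)) (c (l 16509752) (l 16518648))) (b (c (l 16471168) (l 16480680)) (c (l 16479760) (l 16488648)))) (a (a (b (l 16530968) (l 16497312)) (b (l 16515016) (l 16522792))) (b (c (l 16487720) (l 16495960)) (c (l 16495048) (l 16502616))))) (c (b (a (b (l 16445312) (l 16452816)) (b (l 16423984) (l 16430408))) (a (b (l 16459712) (l 16466000)) (b (l 16436256) (l 16441536)))) (b (a (l 16427208) (l 16437496)) (a (b (l 16468200) (l 16473824)) (b (l 16445440) (l 16450056)))))) (a (b (a (a (b (l 16546864) (l 16532808)) (b (l 16529896) (l 16536336))) (b (c (l 16501736) (l 16508632)) (c (l 16507784) (l 16513992)))) (a (a (b (l 16539144) (l 16545056)) (b (l 16542208) (c (l 16545248) (l 16550144)))) (b (a (l 16524600) (c (l 16504944) (l 16510528))) (a (c (l 16527192) (l 16532088)) (l 1))))) (b (a (b (c (l 16471696) (l 16478840)) (a (l 16487312) (l 16472976))) (b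 (a (l 16455944) (l 1)) (l 1))) (a (b (a (l 16491784) (l 1)) (l 1)) (l 1))))), by decide +kernel⟩

def k6_B00pm_022_s3 : ∃ t, chk3 f_B00pm_022_s3 t 8 15 1 = true :=
  ⟨(a (b (b (b (b (a (a (a (a (c (c (l 16659016) (l 16667280)) (a (l 16662000) (l 16665792))) (c (l 16654896) (l 16671408))) (c (l 16665888) (l 16640504))) (a (l 16664720) (l 16644992))) (a (a (l 16604496) (l 16627096)) (a (l 16607944) (l 16588968)))) (b (a (a (a (a (c (l 16672008) (l 16667776)) (l 16666920)) (a (l 16663816) (l 16650104))) (a (l 16646616) (l 16626744))) (a (a (l 16649008) (l 16629528)) (a (l 16610224) (l 16591088)))) (l 14))) (l 14)) (l 14)) (l 14)) (b (a (b (a (b (a (c (l 16569360) (l 16573656)) (c (l 16550584) (l 16554872))) (a (l 14) (l 1))) (l 1)) (l 1)) (l 1)) (l 1))), by decide +kernel⟩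

def k7_B00pm_022_s3 : ∃ t, chk3 f_B00pm_022_s3 t 9 7 1 = true :=
  ⟨(b (a (b (a (b (a (b (l 16412424) (l 16375512)) (c (l 16394768) (l 16407264))) (a (b (l 16380008) (l 1)) (l 1))) (l 1)) (l 1)) (l 1)) (l 1)), by decide +kernel⟩

def k8_B00pm_022_s3 : ∃ t, chk3 f_B00pm_022_s3 t 5 3 1 = true :=
  ⟨(b (l 1) (l 1)), by decide +kernel⟩

def k9_B00pm_022_s3 : ∃ t, chk3 f_B00pm_022_s3 t 3 1 1 = true :=
  ⟨(l 1), by decide +kernel⟩

theorem t10_B00pm_022_s3 : ∃ t, chk3 f_B00pm_022_s3 t 16 29 1 = true := ex3_a k3_B00pm_022_s3 k4_B00pm_022_s3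

theorem t11_B00pm_022_s3 : ∃ t, chk3 f_B00pm_022_s3 t 16 14 1 = true := ex3_b k2_B00pm_022_s3 t10_B00pm_022_s3

theorem t12_B00pm_022_s3 : ∃ t, chk3 f_B00pm_022_s3 t 8 14 1 = true := ex3_a t11_B00pm_022_s3 k5_B00pm_022_s3

theorem t13_B00pm_022_s3 : ∃ t, chk3 f_B00pm_022_s3 t 8 7 1 = true := ex3_b t12_B00pm_022_s3 k6_B00pm_022_s3

theorem t14_B00pm_022_s3 : ∃ t, chk3 f_B00pm_022_s3 t 4 7 1 = true := ex3_a t13_B00pm_022_s3 k7_B00pm_022_s3

theorem t15_B00pm_022_s3 : ∃ t, chk3 f_B00pm_022_s3 t 4 3 1 = true := ex3_b k1_B00pm_022_s3 t14_B00pm_022_s3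

theorem t16_B00pm_022_s3 : ∃ t, chk3 f_B00pm_022_s3 t 2 3 1 = true := ex3_a t15_B00pm_022_s3 k8_B00pm_022_s3

theorem t17_B00pm_022_s3 : ∃ t, chk3 f_B00pm_022_s3 t 2 1 1 = true := ex3_b k0_B00pm_022_s3 t16_B00pm_022_s3

theorem t18_B00pm_022_s3 : ∃ t, chk3 f_B00pm_022_s3 t 1 1 1 = true := ex3_a t17_B00pm_022_s3 k9_B00pm_022_s3

theorem c_B00pm_022_s3 : CertF 0 536870912 0 536870912 1020054732 13421774 false true false .pp 0 2 2
    ndB0q0 ndB0q2 pcB2 cut_B00pm_022_s3 Ext.none :=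
  certF0 (fam := false) (s1 := true) (s2 := false) (a := 0) (b := 2) (c := 2) (cn := .pp) (n1 := ndB0q0) (n2 := ndB0q2) (pc := pcB2) (cut := cut_B00pm_022_s3) (xt := Ext.none) (P1 := 0) (W1 := 536870912) (P2 := 0) (W2 := 536870912) (P3 := 1020054732) (W3 := 13421774)
    rfl t18_B00pm_022_s3

theorem s_B00pm_022_s3 {κ x : ℝ} (hκ : κ * h0 = ken x) (hx : ((1020054732 : ℕ) : ℝ) / S ≤ x)
    (hx' : x ≤ (((1020054732 : ℕ) : ℝ) + (13421774 : ℕ)) / S)
    (H : CutB (VFD κ) PP tK tL pcB (Cut.of [[⟨0, 0, 0, 38347922⟩, ⟨1, 1, 0, 38347922⟩, ⟨2, 1, 0, 38347922⟩]]) 0 2 2 0 0 (sgb true) (sgb false) x) :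
    AltB (VFD κ) PP tK tL pcB [⟨4, 0, 0, 2845415833⟩] 0 2 2 0 0 (sgb true) (sgb false) x :=
  strip_altBD (m := 2845415833) false rfl hκ (SH.κ0 hκ (SH.hx1 hx).le (SH.hx2 hx').le) (SH.hx1 hx).le (SH.hx2 hx') (covB00).cov (covB02).cov hx hx' c_B00pm_022_s3 H (noExt_B)

noncomputable def cut_B00pm_101_s1 : Cut := Cut.of [[⟨4, 0, 0, 1127428915⟩], [⟨0, 1, 0, 13421772⟩, ⟨1, 0, 0, 13421772⟩, ⟨2, 1, 0, 13421772⟩], [⟨0, 0, 1, 46137344⟩, ⟨1, 1, 2, 46137344⟩, ⟨2, 1, 0, 2097152⟩, ⟨0, 0, 0, 1041207446⟩, ⟨0, 1, 0, 59055800⟩, ⟨1, 0, 0, 59055800⟩, ⟨1, 1, 0, 1041207446⟩]]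

noncomputable def f_B00pm_101_s1 : ℕ → ℕ → ℕ → ℕ → Bool := onCell 0 536870912 536870912 536870912 1020054732 13421774
    (rowF 2 false true false .npn 1 0 1 (qsf 536870912 536870912 536870912 536870912 0) ndB0q1 ndB0q1 pcB0 cut_B00pm_101_s1 Ext.none)

def k0_B00pm_101_s1 : ∃ t, chk3 f_B00pm_101_s1 t 2 2 1 = true :=
  ⟨(l 6), by decide +kernel⟩

def k1_B00pm_101_s1 : ∃ t, chk3 f_B00pm_101_s1 t 4 6 1 = true :=
  ⟨(l 6), by decide +kernel⟩

def k2_B00pm_101_s1 : ∃ t, chk3 f_B00pm_101_s1 t 8 14 1 = true :=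
  ⟨(l 6), by decide +kernel⟩

def k3_B00pm_101_s1 : ∃ t, chk3 f_B00pm_101_s1 t 16 30 1 = true :=
  ⟨(l 6), by decide +kernel⟩

def k4_B00pm_101_s1 : ∃ t, chk3 f_B00pm_101_s1 t 32 62 1 = true :=
  ⟨(l 6), by decide +kernel⟩

def k5_B00pm_101_s1 : ∃ t, chk3 f_B00pm_101_s1 t 32 126 1 = true :=
  ⟨(b (l 6) (b (l 6) (a (a (a (l 14) (l 6)) (l 6)) (l 6)))), by decide +kernel⟩

def k6_B00pm_101_s1 : ∃ t, chk3 f_B00pm_101_s1 t 64 127 1 = true :=
  ⟨(b (a (l 14) (b (b (l 6) (a (a (l 14) (a (l 14) (l 6))) (l 6))) (a (l 14) (a (a (l 14) (b (b (l 6) (l 14)) (l 14))) (a (b (c (l 16782560) (l 16774096)) (l 14)) (b (l 6) (a (l 14) (c (l 16779392) (l 16776792))))))))) (l 14)), by decide +kernel⟩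

def k7_B00pm_101_s1 : ∃ t, chk3 f_B00pm_101_s1 t 65 254 1 = true :=
  ⟨(b (l 6) (b (l 6) (a (a (a (c (c (l 16778544) (l 16777208)) (c (l 16775848) (l 16769240))) (a (a (c (l 16776336) (l 16773512)) (l 6)) (l 6))) (l 6)) (l 6)))), by decide +kernel⟩

def k8_B00pm_101_s1 : ∃ t, chk3 f_B00pm_101_s1 t 130 255 1 = true :=
  ⟨(b (b (a (a (a (l 14) (a (l 14) (c (l 16776016) (l 16771448)))) (c (c (l 16775192) (l 16774184)) (c (l 16770544) (b (l 16772032) (l 16772256))))) (a (c (c (l 16773040) (l 16771968)) (c (a (l 16771456) (l 16770296)) (a (l 16770376) (l 16769176)))) (a (c (b (l 6) (l 16770816)) (c (l 16769112) (l 16767960))) (l 6)))) (a (b (a (l 14) (a (l 14) (c (l 16773776) (l 16772368)))) (l 14)) (c (a (c (l 16772600) (b (l 16771960) (l 16772000))) (c (a (l 16760704) (l 16764992)) (a (l 16765288) (l 16764304)))) (a (c (a (l 16771832) (l 16770856)) (b (l 16770464) (l 16770976))) (c (a (l 16769864) (l 16768856)) (b (l 16765704) (l 16766416))))))) (a (l 14)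 (a (a (l 14) (b (a (l 14) (b (b (c (l 16771600) (l 16770896)) (l 14)) (l 14))) (l 14))) (b (c (c (a (l 16765896) (l 16765104)) (b (l 16770416) (l 16770712))) (a (c (l 16770784) (b (l 16764992) (l 16765728))) (c (l 16769960) (b (l 16764096) (l 16764944))))) (b (a (l 14) (c (c (l 16770528) (l 16765464)) (a (l 14) (c (l 16770712) (l 16770888))))) (l 14)))))), by decide +kernel⟩

def k9_B00pm_101_s1 : ∃ t, chk3 f_B00pm_101_s1 t 131 510 1 = true :=
  ⟨(b (l 6) (a (b (a (a (a (c (l 16763816) (l 16767384)) (l 6)) (l 6)) (l 6)) (c (a (c (l 16763600) (l 16768240)) (c (l 16761672) (l 16766256))) (a (c (l 16767632) (a (l 16767536) (l 16766512))) (a (c (l 16755632) (l 16765464)) (l 6))))) (l 6))), by decide +kernel⟩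

def k10_B00pm_101_s1 : ∃ t, chk3 f_B00pm_101_s1 t 262 511 1 = true :=
  ⟨(c (c (b (a (a (l 16764288) (l 16763464)) (b (l 16762000) (b (l 16762272) (l 16762472)))) (a (b (c (l 16764200) (l 16764280)) (a (b (l 16770016) (l 14)) (l 16764208))) (b (c (l 16762744) (l 16762816)) (a (l 16763552) (l 16762888))))) (c (b (a (l 16768960) (l 16767232)) (a (b (l 16764360) (a (l 16770400) (l 16769768))) (b (l 16762888) (a (l 16769112) (l 16768432))))) (b (a (l 16768848) (a (l 16762304) (l 16761416))) (a (b (l 16769688) (l 16770296)) (b (l 16768200) (l 16768984)))))) (b (a (a (c (l 16769112) (b (l 16763192) (l 16764128))) (c (l 16768248) (b (l 16762256) (l 16763296)))) (a (c (l 16767360) (b (l 16766552) (l 16767680))) (c (b (l 16760744) (l 16761696)) (b (l 16765584) (l 16766808))))) (a (c (a (c (l 16770480) (l 16770632)) (b (l 16764208) (l 16770296))) (b (a (l 16770352) (l 16769616)) (a (c (l 16771264) (l 16771488)) (c (l 16770624) (l 16770848))))) (c (b (a (l 16763456)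 (l 16762688)) (a (l 16769640) (l 16768960))) (b (a (l 16768856) (l 16768080)) (a (c (l 16769960) (l 16770184)) (c (l 16769280) (l 16769496)))))))), by decide +kernel⟩

def k11_B00pm_101_s1 : ∃ t, chk3 f_B00pm_101_s1 t 263 511 1 = true :=
  ⟨(a (b (b (a (c (c (l 16765872) (l 16765448)) (c (l 16759784) (l 16764592))) (l 6)) (c (c (c (l 16760728) (l 16760648)) (a (l 16760968) (l 16760088))) (c (a (l 16760816) (l 16759920)) (a (l 16765912) (l 16765000))))) (c (c (b (c (l 16761216) (l 16761280)) (a (l 16762200) (l 16761488))) (b (a (l 16761768) (l 16760968)) (b (a (l 16767632) (l 16766896)) (l 16767712)))) (c (b (a (l 16761896) (l 16761088)) (a (l 16768256) (l 16767536))) (b (a (l 16767272) (l 16766448)) (a (c (l 16768568) (l 16768784)) (c (l 16767840) (l 16768048))))))) (b (a (b (l 6) (c (c (l 16764632) (l 16759200)) (c (l 16759008) (l 16764064)))) (l 6)) (c (c (b (a (l 16760056) (l 16759240)) (a (l 16760768) (b (l 16765064) (l 16765464)))) (a (a (l 16766088)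 (l 16765696)) (a (l 16765304) (l 16764888)))) (c (b (c (l 16765056) (l 16765104)) (a (l 16766792) (l 16766024))) (b (a (l 16765608) (l 16764744)) (a (c (l 16767096) (l 16767296)) (c (l 16766320) (l 16766520)))))))), by decide +kernel⟩

def k12_B00pm_101_s1 : ∃ t, chk3 f_B00pm_101_s1 t 33 31 1 = true :=
  ⟨(b (l 6) (a (b (l 6) (a (b (l 6) (b (l 6) (a (b (l 6) (b (a (a (c (c (l 16758264) (l 16758328)) (c (l 16758392) (l 16763712))) (l 6)) (l 6)) (a (c (c (a (l 16759112) (l 16758136)) (c (l 16764136) (l 16764312))) (c (a (l 16765088) (l 16764080)) (a (c (l 16765376) (l 16765568)) (c (l 16764352) (l 16764536))))) (a (b (l 6) (c (c (l 16762632) (l 16757800)) (c (l 16758216) (l 16763888)))) (l 6))))) (l 6)))) (l 6))) (l 6))), by decide +kernel⟩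

def k13_B00pm_101_s1 : ∃ t, chk3 f_B00pm_101_s1 t 17 15 1 = true :=
  ⟨(l 6), by decide +kernel⟩

def k14_B00pm_101_s1 : ∃ t, chk3 f_B00pm_101_s1 t 9 7 1 = true :=
  ⟨(l 6), by decide +kernel⟩

def k15_B00pm_101_s1 : ∃ t, chk3 f_B00pm_101_s1 t 5 3 1 = true :=
  ⟨(l 6), by decide +kernel⟩

def k16_B00pm_101_s1 : ∃ t, chk3 f_B00pm_101_s1 t 3 1 1 = true :=
  ⟨(l 6), by decide +kernel⟩

theorem t17_B00pm_101_s1 : ∃ t, chk3 f_B00pm_101_s1 t 131 511 1 = true := ex3_a k10_B00pm_101_s1 k11_B00pm_101_s1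

theorem t18_B00pm_101_s1 : ∃ t, chk3 f_B00pm_101_s1 t 131 255 1 = true := ex3_b k9_B00pm_101_s1 t17_B00pm_101_s1

theorem t19_B00pm_101_s1 : ∃ t, chk3 f_B00pm_101_s1 t 65 255 1 = true := ex3_a k8_B00pm_101_s1 t18_B00pm_101_s1

theorem t20_B00pm_101_s1 : ∃ t, chk3 f_B00pm_101_s1 t 65 127 1 = true := ex3_b k7_B00pm_101_s1 t19_B00pm_101_s1

theorem t21_B00pm_101_s1 : ∃ t, chk3 f_B00pm_101_s1 t 32 127 1 = true := ex3_a k6_B00pm_101_s1 t20_B00pm_101_s1

theorem t22_B00pm_101_s1 : ∃ t, chk3 f_B00pm_101_s1 t 32 63 1 = true := ex3_b k5_B00pm_101_s1 t21_B00pm_101_s1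

theorem t23_B00pm_101_s1 : ∃ t, chk3 f_B00pm_101_s1 t 32 31 1 = true := ex3_b k4_B00pm_101_s1 t22_B00pm_101_s1

theorem t24_B00pm_101_s1 : ∃ t, chk3 f_B00pm_101_s1 t 16 31 1 = true := ex3_a t23_B00pm_101_s1 k12_B00pm_101_s1

theorem t25_B00pm_101_s1 : ∃ t, chk3 f_B00pm_101_s1 t 16 15 1 = true := ex3_b k3_B00pm_101_s1 t24_B00pm_101_s1

theorem t26_B00pm_101_s1 : ∃ t, chk3 f_B00pm_101_s1 t 8 15 1 = true := ex3_a t25_B00pm_101_s1 k13_B00pm_101_s1

theorem t27_B00pm_101_s1 : ∃ t, chk3 f_B00pm_101_s1 t 8 7 1 = true := ex3_b k2_B00pm_101_s1 t26_B00pm_101_s1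

theorem t28_B00pm_101_s1 : ∃ t, chk3 f_B00pm_101_s1 t 4 7 1 = true := ex3_a t27_B00pm_101_s1 k14_B00pm_101_s1

theorem t29_B00pm_101_s1 : ∃ t, chk3 f_B00pm_101_s1 t 4 3 1 = true := ex3_b k1_B00pm_101_s1 t28_B00pm_101_s1

theorem t30_B00pm_101_s1 : ∃ t, chk3 f_B00pm_101_s1 t 2 3 1 = true := ex3_a t29_B00pm_101_s1 k15_B00pm_101_s1

theorem t31_B00pm_101_s1 : ∃ t, chk3 f_B00pm_101_s1 t 2 1 1 = true := ex3_b k0_B00pm_101_s1 t30_B00pm_101_s1

theorem t32_B00pm_101_s1 : ∃ t, chk3 f_B00pm_101_s1 t 1 1 1 = true := ex3_a t31_B00pm_101_s1 k16_B00pm_101_s1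

theorem c_B00pm_101_s1 : CertF 536870912 536870912 536870912 536870912 1020054732 13421774 false true false .npn 1 0 1
    ndB0q1 ndB0q1 pcB0 cut_B00pm_101_s1 Ext.none :=
  certF2 (fam := false) (s1 := true) (s2 := false) (a := 1) (b := 0) (c := 1) (cn := .npn) (n1 := ndB0q1) (n2 := ndB0q1) (pc := pcB0) (cut := cut_B00pm_101_s1) (xt := Ext.none) (P1 := 536870912) (W1 := 536870912) (P2 := 536870912) (W2 := 536870912) (P3 := 1020054732) (W3 := 13421774)
    rfl (fun _ => rfl) t32_B00pm_101_s1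

theorem s_B00pm_101_s1 {κ x : ℝ} (hκ : κ * h0 = ken x) (hx : ((1020054732 : ℕ) : ℝ) / S ≤ x)
    (hx' : x ≤ (((1020054732 : ℕ) : ℝ) + (13421774 : ℕ)) / S)
    (H : CutB (VFD κ) PP tK tL pcB (Cut.of [[⟨0, 1, 0, 13421772⟩, ⟨1, 0, 0, 13421772⟩, ⟨2, 1, 0, 13421772⟩], [⟨0, 0, 1, 46137344⟩, ⟨1, 1, 2, 46137344⟩, ⟨2, 1, 0, 2097152⟩, ⟨0, 0, 0, 1041207446⟩, ⟨0, 1, 0, 59055800⟩, ⟨1, 0, 0, 59055800⟩, ⟨1, 1, 0, 1041207446⟩]]) 1 0 1 0 0 (sgb true) (sgb false) x) :
    AltB (VFD κ) PP tK tL pcB [⟨3, 0, 0, 1127428915⟩] 1 0 1 0 0 (sgb true) (sgb false) x :=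
  strip_altBD (m := 1127428915) true rfl hκ (SH.κ0 hκ (SH.hx1 hx).le (SH.hx2 hx').le) (SH.hx1 hx).le (SH.hx2 hx') (covB01).cov (covB01).cov hx hx' c_B00pm_101_s1 H (noExt_B)

noncomputable def cut_B00pm_101_s3 : Cut := Cut.of [[⟨3, 0, 0, 2845415833⟩], [⟨0, 1, 0, 13421772⟩, ⟨1, 0, 0, 13421772⟩, ⟨2, 1, 0, 13421772⟩], [⟨0, 0, 1, 46137344⟩, ⟨1, 1, 2, 46137344⟩, ⟨2, 1, 0, 2097152⟩, ⟨0, 0, 0, 1041207446⟩, ⟨0, 1, 0, 59055800⟩, ⟨1, 0, 0, 59055800⟩, ⟨1, 1, 0, 1041207446⟩]]

noncomputable def xt_B00pm_101_s3 : Ext := strExt dd false true false .u0 .u0m .s0m .npn 1 0 1 rfl rfl gl0 vv ndB0q1 ndB0q1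

noncomputable def f_B00pm_101_s3 : ℕ → ℕ → ℕ → ℕ → Bool := onCell 536870912 536870912 0 536870912 1020054732 13421774
    (rowF 1 false true false .npn 1 0 1 (qsf 536870912 536870912 536870912 536870912 0) ndB0q1 ndB0q1 pcB0 cut_B00pm_101_s3 xt_B00pm_101_s3)

def k0_B00pm_101_s3 : ∃ t, chk3 f_B00pm_101_s3 t 1 1 1 = true :=
  ⟨(a (b (a (b (b (a (b (l 527250191) (l 527957007)) (b (l 527783439) (l 528737295))) (b (a (l 529150735) (b (l 529429519) (l 529860367))) (b (a (l 529815567) (l 530002959)) (a (l 530223887) (l 530392591))))) (a (b (b (a (l 530682639) (l 530907151)) (a (l 531376143) (l 531578383))) (a (b (b (l 531844879) (l 532124431)) (b (l 532384527) (l 532316175))) (b (l 532161295) (a (l 532462095) (l 532517135))))) (b (b (a (l 531108623) (l 531292687)) (a (l 531759887) (l 6))) (b (a (a (l 532288527) (l 6)) (l 6)) (l 6))))) (a (b (b (b (l 528205583) (a (l 529069327) (l 6))) (a (b (l 529954063) (l 6)) (l 6))) (l 6)) (b (l 6) (l 6)))) (b (a (a (b (b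 (a (a (l 531603215) (l 531929871)) (a (b (l 16499392) (a (l 16477224) (l 6))) (l 6))) (a (a (b (l 532007951) (l 531947535)) (b (a (l 16407848) (l 6)) (l 6))) (l 6))) (b (a (a (b (a (b (l 16484528) (a (l 16475192) (l 6))) (l 6)) (l 6)) (l 6)) (l 6)) (l 6))) (l 6)) (l 6)) (a (b (l 6) (l 6)) (l 6)))) (b (a (l 6) (l 6)) (l 6))), by decide +kernel⟩

theorem c_B00pm_101_s3 : CertF 536870912 536870912 536870912 536870912 1020054732 13421774 false true false .npn 1 0 1
    ndB0q1 ndB0q1 pcB0 cut_B00pm_101_s3 xt_B00pm_101_s3 :=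
  certF1 (fam := false) (s1 := true) (s2 := false) (a := 1) (b := 0) (c := 1) (cn := .npn) (n1 := ndB0q1) (n2 := ndB0q1) (pc := pcB0) (cut := cut_B00pm_101_s3) (xt := xt_B00pm_101_s3) (P1 := 536870912) (W1 := 536870912) (P2 := 536870912) (W2 := 536870912) (P3 := 1020054732) (W3 := 13421774)
    rfl (fun _ => rfl) k0_B00pm_101_s3

theorem s_B00pm_101_s3 {κ x : ℝ} (hκ : κ * h0 = ken x) (hx : ((1020054732 : ℕ) : ℝ) / S ≤ x)
    (hx' : x ≤ (((1020054732 : ℕ) : ℝ) + (13421774 : ℕ)) / S)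
    (H : CutB (VFD κ) PP tK tL pcB (Cut.of [[⟨0, 1, 0, 13421772⟩, ⟨1, 0, 0, 13421772⟩, ⟨2, 1, 0, 13421772⟩], [⟨0, 0, 1, 46137344⟩, ⟨1, 1, 2, 46137344⟩, ⟨2, 1, 0, 2097152⟩, ⟨0, 0, 0, 1041207446⟩, ⟨0, 1, 0, 59055800⟩, ⟨1, 0, 0, 59055800⟩, ⟨1, 1, 0, 1041207446⟩]]) 1 0 1 0 0 (sgb true) (sgb false) x) :
    AltB (VFD κ) PP tK tL pcB [⟨4, 0, 0, 2845415833⟩] 1 0 1 0 0 (sgb true) (sgb false) x :=
  strip_altBD (m := 2845415833) false rfl hκ (SH.κ0 hκ (SH.hx1 hx).le (SH.hx2 hx').le) (SH.hx1 hx).le (SH.hx2 hx') (covB01).cov (covB01).cov hx hx' c_B00pm_101_s3 H ((okx hx hx').extB (T := tt) (sideB hx hx') hκ rfl rfl (.O 1 true) (.O 1 false) (Or.inl rfl))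

end Pool.Agent.Strip051.G.I9500_9625.Tab.St.C
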