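import Pool.Agent.Strip051.G.I9500_9625.StH
import Pool.Agent.Strip051.G.I9500_9625.Sp3_0
import Pool.Agent.Strip051.G.I9500_9625.Sp3_1
import Pool.Agent.Strip051.G.I9500_9625.Sp3_2
import Pool.Agent.Strip051.G.I9500_9625.Sp3_3
import Pool.Agent.Strip051.G.I9500_9625.StF

/-! # Unit strips 3 (generated) -/

set_option linter.all false
set_option maxRecDepth 100000

namespace Pool.Agent.Strip051.G.I9500_9625.Tab.St.C

open Pool.Agent.Strip051.PB Pool.Agent.Strip051.PB.T Pool.Agent.StripNear Pool.Agent.Strip051.LC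
open Pool.Agent.Strip051.G.I9500_9625.Tab Pool.Agent.Strip051.G.I9500_9625.Tab.St

theorem t303_A00pm_102_s1 : ∃ t, chk3 f_A00pm_102_s1 t 31 5 1 = true := ex3_b k300_A00pm_102_s1 k301_A00pm_102_s1

theorem t304_A00pm_102_s1 : ∃ t, chk3 f_A00pm_102_s1 t 15 5 1 = true := ex3_a k299_A00pm_102_s1 t303_A00pm_102_s1

theorem t305_A00pm_102_s1 : ∃ t, chk3 f_A00pm_102_s1 t 14 20 1 = true := ex3_b k295_A00pm_102_s1 k296_A00pm_102_s1

theorem t306_A00pm_102_s1 : ∃ t, chk3 f_A00pm_102_s1 t 14 10 1 = true := ex3_b t305_A00pm_102_s1 k297_A00pm_102_s1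

theorem t307_A00pm_102_s1 : ∃ t, chk3 f_A00pm_102_s1 t 14 5 1 = true := ex3_b t306_A00pm_102_s1 k298_A00pm_102_s1

theorem t308_A00pm_102_s1 : ∃ t, chk3 f_A00pm_102_s1 t 7 5 1 = true := ex3_a t307_A00pm_102_s1 t304_A00pm_102_s1

theorem t309_A00pm_102_s1 : ∃ t, chk3 f_A00pm_102_s1 t 13 41 1 = true := ex3_a k291_A00pm_102_s1 k292_A00pm_102_s1

theorem t310_A00pm_102_s1 : ∃ t, chk3 f_A00pm_102_s1 t 24 1341 1 = true := ex3_b k287_A00pm_102_s1 k288_A00pm_102_s1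

theorem t311_A00pm_102_s1 : ∃ t, chk3 f_A00pm_102_s1 t 96 10726 1 = true := ex3_b k282_A00pm_102_s1 k283_A00pm_102_s1

theorem t312_A00pm_102_s1 : ∃ t, chk3 f_A00pm_102_s1 t 96 5363 1 = true := ex3_b t311_A00pm_102_s1 k284_A00pm_102_s1

theorem t313_A00pm_102_s1 : ∃ t, chk3 f_A00pm_102_s1 t 48 5363 1 = true := ex3_a t312_A00pm_102_s1 k285_A00pm_102_s1

theorem t314_A00pm_102_s1 : ∃ t, chk3 f_A00pm_102_s1 t 48 2681 1 = true := ex3_b k281_A00pm_102_s1 t313_A00pm_102_s1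

theorem t315_A00pm_102_s1 : ∃ t, chk3 f_A00pm_102_s1 t 48 1340 1 = true := ex3_b k280_A00pm_102_s1 t314_A00pm_102_s1

theorem t316_A00pm_102_s1 : ∃ t, chk3 f_A00pm_102_s1 t 24 1340 1 = true := ex3_a t315_A00pm_102_s1 k286_A00pm_102_s1

theorem t317_A00pm_102_s1 : ∃ t, chk3 f_A00pm_102_s1 t 24 670 1 = true := ex3_b t316_A00pm_102_s1 t310_A00pm_102_s1

theorem t318_A00pm_102_s1 : ∃ t, chk3 f_A00pm_102_s1 t 24 335 1 = true := ex3_b t317_A00pm_102_s1 k289_A00pm_102_s1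

theorem t319_A00pm_102_s1 : ∃ t, chk3 f_A00pm_102_s1 t 24 167 1 = true := ex3_b k279_A00pm_102_s1 t318_A00pm_102_s1

theorem t320_A00pm_102_s1 : ∃ t, chk3 f_A00pm_102_s1 t 12 167 1 = true := ex3_a t319_A00pm_102_s1 k290_A00pm_102_s1

theorem t321_A00pm_102_s1 : ∃ t, chk3 f_A00pm_102_s1 t 12 83 1 = true := ex3_b k278_A00pm_102_s1 t320_A00pm_102_s1

theorem t322_A00pm_102_s1 : ∃ t, chk3 f_A00pm_102_s1 t 24 82 1 = true := ex3_a k275_A00pm_102_s1 k276_A00pm_102_s1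

theorem t323_A00pm_102_s1 : ∃ t, chk3 f_A00pm_102_s1 t 12 82 1 = true := ex3_a t322_A00pm_102_s1 k277_A00pm_102_s1

theorem t324_A00pm_102_s1 : ∃ t, chk3 f_A00pm_102_s1 t 12 41 1 = true := ex3_b t323_A00pm_102_s1 t321_A00pm_102_s1

theorem t325_A00pm_102_s1 : ∃ t, chk3 f_A00pm_102_s1 t 6 41 1 = true := ex3_a t324_A00pm_102_s1 t309_A00pm_102_s1

theorem t326_A00pm_102_s1 : ∃ t, chk3 f_A00pm_102_s1 t 106 160 3 = true := ex3_c k269_A00pm_102_s1 k270_A00pm_102_s1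

theorem t327_A00pm_102_s1 : ∃ t, chk3 f_A00pm_102_s1 t 53 160 3 = true := ex3_a t326_A00pm_102_s1 k271_A00pm_102_s1

theorem t328_A00pm_102_s1 : ∃ t, chk3 f_A00pm_102_s1 t 53 80 3 = true := ex3_b t327_A00pm_102_s1 k272_A00pm_102_s1

theorem t329_A00pm_102_s1 : ∃ t, chk3 f_A00pm_102_s1 t 53 80 1 = true := ex3_c k268_A00pm_102_s1 t328_A00pm_102_s1

theorem t330_A00pm_102_s1 : ∃ t, chk3 f_A00pm_102_s1 t 52 161 1 = true := ex3_b k266_A00pm_102_s1 k267_A00pm_102_s1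

theorem t331_A00pm_102_s1 : ∃ t, chk3 f_A00pm_102_s1 t 52 80 1 = true := ex3_b k265_A00pm_102_s1 t330_A00pm_102_s1

theorem t332_A00pm_102_s1 : ∃ t, chk3 f_A00pm_102_s1 t 26 80 1 = true := ex3_a t331_A00pm_102_s1 t329_A00pm_102_s1

theorem t333_A00pm_102_s1 : ∃ t, chk3 f_A00pm_102_s1 t 26 40 1 = true := ex3_b t332_A00pm_102_s1 k273_A00pm_102_s1

theorem t334_A00pm_102_s1 : ∃ t, chk3 f_A00pm_102_s1 t 13 40 1 = true := ex3_a t333_A00pm_102_s1 k274_A00pm_102_s1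

theorem t335_A00pm_102_s1 : ∃ t, chk3 f_A00pm_102_s1 t 51 81 1 = true := ex3_b k263_A00pm_102_s1 k264_A00pm_102_s1

theorem t336_A00pm_102_s1 : ∃ t, chk3 f_A00pm_102_s1 t 25 81 1 = true := ex3_a k262_A00pm_102_s1 t335_A00pm_102_s1

theorem t337_A00pm_102_s1 : ∃ t, chk3 f_A00pm_102_s1 t 12 81 1 = true := ex3_a k261_A00pm_102_s1 t336_A00pm_102_s1

theorem t338_A00pm_102_s1 : ∃ t, chk3 f_A00pm_102_s1 t 12 40 1 = true := ex3_b k260_A00pm_102_s1 t337_A00pm_102_s1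

theorem t339_A00pm_102_s1 : ∃ t, chk3 f_A00pm_102_s1 t 6 40 1 = true := ex3_a t338_A00pm_102_s1 t334_A00pm_102_s1

theorem t340_A00pm_102_s1 : ∃ t, chk3 f_A00pm_102_s1 t 6 20 1 = true := ex3_b t339_A00pm_102_s1 t325_A00pm_102_s1

theorem t341_A00pm_102_s1 : ∃ t, chk3 f_A00pm_102_s1 t 6 10 1 = true := ex3_b t340_A00pm_102_s1 k293_A00pm_102_s1

theorem t342_A00pm_102_s1 : ∃ t, chk3 f_A00pm_102_s1 t 6 5 1 = true := ex3_b t341_A00pm_102_s1 k294_A00pm_102_s1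

theorem t343_A00pm_102_s1 : ∃ t, chk3 f_A00pm_102_s1 t 3 5 1 = true := ex3_a t342_A00pm_102_s1 t308_A00pm_102_s1

theorem t344_A00pm_102_s1 : ∃ t, chk3 f_A00pm_102_s1 t 31 9 1 = true := ex3_b k258_A00pm_102_s1 k259_A00pm_102_s1

theorem t345_A00pm_102_s1 : ∃ t, chk3 f_A00pm_102_s1 t 240 144 1 = true := ex3_b k249_A00pm_102_s1 k250_A00pm_102_s1

theorem t346_A00pm_102_s1 : ∃ t, chk3 f_A00pm_102_s1 t 120 144 1 = true := ex3_a t345_A00pm_102_s1 k251_A00pm_102_s1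

theorem t347_A00pm_102_s1 : ∃ t, chk3 f_A00pm_102_s1 t 120 72 1 = true := ex3_b t346_A00pm_102_s1 k252_A00pm_102_s1

theorem t348_A00pm_102_s1 : ∃ t, chk3 f_A00pm_102_s1 t 60 72 1 = true := ex3_a t347_A00pm_102_s1 k253_A00pm_102_s1

theorem t349_A00pm_102_s1 : ∃ t, chk3 f_A00pm_102_s1 t 60 36 1 = true := ex3_b t348_A00pm_102_s1 k254_A00pm_102_s1

theorem t350_A00pm_102_s1 : ∃ t, chk3 f_A00pm_102_s1 t 60 18 1 = true := ex3_b t349_A00pm_102_s1 k255_A00pm_102_s1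

theorem t351_A00pm_102_s1 : ∃ t, chk3 f_A00pm_102_s1 t 30 18 1 = true := ex3_a t350_A00pm_102_s1 k256_A00pm_102_s1

theorem t352_A00pm_102_s1 : ∃ t, chk3 f_A00pm_102_s1 t 30 9 1 = true := ex3_b t351_A00pm_102_s1 k257_A00pm_102_s1

theorem t353_A00pm_102_s1 : ∃ t, chk3 f_A00pm_102_s1 t 15 9 1 = true := ex3_a t352_A00pm_102_s1 t344_A00pm_102_s1

theorem t354_A00pm_102_s1 : ∃ t, chk3 f_A00pm_102_s1 t 56 38 1 = true := ex3_b k244_A00pm_102_s1 k245_A00pm_102_s1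

theorem t355_A00pm_102_s1 : ∃ t, chk3 f_A00pm_102_s1 t 28 38 1 = true := ex3_a t354_A00pm_102_s1 k246_A00pm_102_s1

theorem t356_A00pm_102_s1 : ∃ t, chk3 f_A00pm_102_s1 t 28 19 1 = true := ex3_b t355_A00pm_102_s1 k247_A00pm_102_s1

theorem t357_A00pm_102_s1 : ∃ t, chk3 f_A00pm_102_s1 t 14 19 1 = true := ex3_a t356_A00pm_102_s1 k248_A00pm_102_s1

theorem t358_A00pm_102_s1 : ∃ t, chk3 f_A00pm_102_s1 t 58 37 1 = true := ex3_b k241_A00pm_102_s1 k242_A00pm_102_s1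

theorem t359_A00pm_102_s1 : ∃ t, chk3 f_A00pm_102_s1 t 29 37 1 = true := ex3_a t358_A00pm_102_s1 k243_A00pm_102_s1

theorem t360_A00pm_102_s1 : ∃ t, chk3 f_A00pm_102_s1 t 119 73 1 = true := ex3_b k239_A00pm_102_s1 k240_A00pm_102_s1

theorem t361_A00pm_102_s1 : ∃ t, chk3 f_A00pm_102_s1 t 118 146 1 = true := ex3_b k236_A00pm_102_s1 k237_A00pm_102_s1

theorem t362_A00pm_102_s1 : ∃ t, chk3 f_A00pm_102_s1 t 118 73 1 = true := ex3_b t361_A00pm_102_s1 k238_A00pm_102_s1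

theorem t363_A00pm_102_s1 : ∃ t, chk3 f_A00pm_102_s1 t 59 73 1 = true := ex3_a t362_A00pm_102_s1 t360_A00pm_102_s1

theorem t364_A00pm_102_s1 : ∃ t, chk3 f_A00pm_102_s1 t 239 145 1 = true := ex3_b k234_A00pm_102_s1 k235_A00pm_102_s1

theorem t365_A00pm_102_s1 : ∃ t, chk3 f_A00pm_102_s1 t 238 291 1 = true := ex3_a k232_A00pm_102_s1 k233_A00pm_102_s1

theorem t366_A00pm_102_s1 : ∃ t, chk3 f_A00pm_102_s1 t 238 145 1 = true := ex3_b k231_A00pm_102_s1 t365_A00pm_102_s1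

theorem t367_A00pm_102_s1 : ∃ t, chk3 f_A00pm_102_s1 t 119 145 1 = true := ex3_a t366_A00pm_102_s1 t364_A00pm_102_s1

theorem t368_A00pm_102_s1 : ∃ t, chk3 f_A00pm_102_s1 t 119 289 1 = true := ex3_a k229_A00pm_102_s1 k230_A00pm_102_s1

theorem t369_A00pm_102_s1 : ∃ t, chk3 f_A00pm_102_s1 t 119 144 1 = true := ex3_b k228_A00pm_102_s1 t368_A00pm_102_s1

theorem t370_A00pm_102_s1 : ∃ t, chk3 f_A00pm_102_s1 t 119 72 1 = true := ex3_b t369_A00pm_102_s1 t367_A00pm_102_s1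

theorem t371_A00pm_102_s1 : ∃ t, chk3 f_A00pm_102_s1 t 59 72 1 = true := ex3_a k227_A00pm_102_s1 t370_A00pm_102_s1

theorem t372_A00pm_102_s1 : ∃ t, chk3 f_A00pm_102_s1 t 59 36 1 = true := ex3_b t371_A00pm_102_s1 t363_A00pm_102_s1

theorem t373_A00pm_102_s1 : ∃ t, chk3 f_A00pm_102_s1 t 117 72 1 = true := ex3_b k224_A00pm_102_s1 k225_A00pm_102_s1

theorem t374_A00pm_102_s1 : ∃ t, chk3 f_A00pm_102_s1 t 58 72 1 = true := ex3_a k223_A00pm_102_s1 t373_A00pm_102_s1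

theorem t375_A00pm_102_s1 : ∃ t, chk3 f_A00pm_102_s1 t 58 36 1 = true := ex3_b t374_A00pm_102_s1 k226_A00pm_102_s1

theorem t376_A00pm_102_s1 : ∃ t, chk3 f_A00pm_102_s1 t 29 36 1 = true := ex3_a t375_A00pm_102_s1 t372_A00pm_102_s1

theorem t377_A00pm_102_s1 : ∃ t, chk3 f_A00pm_102_s1 t 29 18 1 = true := ex3_b t376_A00pm_102_s1 t359_A00pm_102_s1

theorem t378_A00pm_102_s1 : ∃ t, chk3 f_A00pm_102_s1 t 28 18 1 = true := ex3_b k221_A00pm_102_s1 k222_A00pm_102_s1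

theorem t379_A00pm_102_s1 : ∃ t, chk3 f_A00pm_102_s1 t 14 18 1 = true := ex3_a t378_A00pm_102_s1 t377_A00pm_102_s1

theorem t380_A00pm_102_s1 : ∃ t, chk3 f_A00pm_102_s1 t 14 9 1 = true := ex3_b t379_A00pm_102_s1 t357_A00pm_102_s1

theorem t381_A00pm_102_s1 : ∃ t, chk3 f_A00pm_102_s1 t 7 9 1 = true := ex3_a t380_A00pm_102_s1 t353_A00pm_102_s1

theorem t382_A00pm_102_s1 : ∃ t, chk3 f_A00pm_102_s1 t 63 34 1 = true := ex3_c k218_A00pm_102_s1 k219_A00pm_102_s1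

theorem t383_A00pm_102_s1 : ∃ t, chk3 f_A00pm_102_s1 t 63 17 1 = true := ex3_b t382_A00pm_102_s1 k220_A00pm_102_s1

theorem t384_A00pm_102_s1 : ∃ t, chk3 f_A00pm_102_s1 t 62 35 1 = true := ex3_a k216_A00pm_102_s1 k217_A00pm_102_s1

theorem t385_A00pm_102_s1 : ∃ t, chk3 f_A00pm_102_s1 t 125 68 1 = true := ex3_a k213_A00pm_102_s1 k214_A00pm_102_s1

theorem t386_A00pm_102_s1 : ∃ t, chk3 f_A00pm_102_s1 t 125 34 1 = true := ex3_b t385_A00pm_102_s1 k215_A00pm_102_s1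

theorem t387_A00pm_102_s1 : ∃ t, chk3 f_A00pm_102_s1 t 124 68 1 = true := ex3_b k210_A00pm_102_s1 k211_A00pm_102_s1

theorem t388_A00pm_102_s1 : ∃ t, chk3 f_A00pm_102_s1 t 124 34 1 = true := ex3_b t387_A00pm_102_s1 k212_A00pm_102_s1

theorem t389_A00pm_102_s1 : ∃ t, chk3 f_A00pm_102_s1 t 62 34 1 = true := ex3_a t388_A00pm_102_s1 t386_A00pm_102_s1

theorem t390_A00pm_102_s1 : ∃ t, chk3 f_A00pm_102_s1 t 62 17 1 = true := ex3_b t389_A00pm_102_s1 t384_A00pm_102_s1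

theorem t391_A00pm_102_s1 : ∃ t, chk3 f_A00pm_102_s1 t 31 17 1 = true := ex3_a t390_A00pm_102_s1 t383_A00pm_102_s1

theorem t392_A00pm_102_s1 : ∃ t, chk3 f_A00pm_102_s1 t 122 70 1 = true := ex3_b k206_A00pm_102_s1 k207_A00pm_102_s1

theorem t393_A00pm_102_s1 : ∃ t, chk3 f_A00pm_102_s1 t 61 70 1 = true := ex3_a t392_A00pm_102_s1 k208_A00pm_102_s1

theorem t394_A00pm_102_s1 : ∃ t, chk3 f_A00pm_102_s1 t 61 35 1 = true := ex3_b t393_A00pm_102_s1 k209_A00pm_102_s1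

theorem t395_A00pm_102_s1 : ∃ t, chk3 f_A00pm_102_s1 t 121 142 1 = true := ex3_a k203_A00pm_102_s1 k204_A00pm_102_s1

theorem t396_A00pm_102_s1 : ∃ t, chk3 f_A00pm_102_s1 t 121 71 1 = true := ex3_b t395_A00pm_102_s1 k205_A00pm_102_s1

theorem t397_A00pm_102_s1 : ∃ t, chk3 f_A00pm_102_s1 t 120 143 1 = true := ex3_b k201_A00pm_102_s1 k202_A00pm_102_s1

theorem t398_A00pm_102_s1 : ∃ t, chk3 f_A00pm_102_s1 t 120 71 1 = true := ex3_b k200_A00pm_102_s1 t397_A00pm_102_s1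

theorem t399_A00pm_102_s1 : ∃ t, chk3 f_A00pm_102_s1 t 60 71 1 = true := ex3_a t398_A00pm_102_s1 t396_A00pm_102_s1

theorem t400_A00pm_102_s1 : ∃ t, chk3 f_A00pm_102_s1 t 60 70 1 = true := ex3_b k198_A00pm_102_s1 k199_A00pm_102_s1

theorem t401_A00pm_102_s1 : ∃ t, chk3 f_A00pm_102_s1 t 60 35 1 = true := ex3_b t400_A00pm_102_s1 t399_A00pm_102_s1

theorem t402_A00pm_102_s1 : ∃ t, chk3 f_A00pm_102_s1 t 30 35 1 = true := ex3_a t401_A00pm_102_s1 t394_A00pm_102_s1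

theorem t403_A00pm_102_s1 : ∃ t, chk3 f_A00pm_102_s1 t 123 69 1 = true := ex3_b k196_A00pm_102_s1 k197_A00pm_102_s1

theorem t404_A00pm_102_s1 : ∃ t, chk3 f_A00pm_102_s1 t 61 69 1 = true := ex3_a k195_A00pm_102_s1 t403_A00pm_102_s1

theorem t405_A00pm_102_s1 : ∃ t, chk3 f_A00pm_102_s1 t 61 34 1 = true := ex3_b k194_A00pm_102_s1 t404_A00pm_102_s1

theorem t406_A00pm_102_s1 : ∃ t, chk3 f_A00pm_102_s1 t 30 34 1 = true := ex3_a k193_A00pm_102_s1 t405_A00pm_102_s1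

theorem t407_A00pm_102_s1 : ∃ t, chk3 f_A00pm_102_s1 t 30 17 1 = true := ex3_b t406_A00pm_102_s1 t402_A00pm_102_s1

theorem t408_A00pm_102_s1 : ∃ t, chk3 f_A00pm_102_s1 t 15 17 1 = true := ex3_a t407_A00pm_102_s1 t391_A00pm_102_s1

theorem t409_A00pm_102_s1 : ∃ t, chk3 f_A00pm_102_s1 t 127 66 3 = true := ex3_a k190_A00pm_102_s1 k191_A00pm_102_s1

theorem t410_A00pm_102_s1 : ∃ t, chk3 f_A00pm_102_s1 t 127 66 1 = true := ex3_c k189_A00pm_102_s1 t409_A00pm_102_s1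

theorem t411_A00pm_102_s1 : ∃ t, chk3 f_A00pm_102_s1 t 127 33 1 = true := ex3_b t410_A00pm_102_s1 k192_A00pm_102_s1

theorem t412_A00pm_102_s1 : ∃ t, chk3 f_A00pm_102_s1 t 126 135 1 = true := ex3_b k187_A00pm_102_s1 k188_A00pm_102_s1

theorem t413_A00pm_102_s1 : ∃ t, chk3 f_A00pm_102_s1 t 253 134 1 = true := ex3_c k185_A00pm_102_s1 k186_A00pm_102_s1

theorem t414_A00pm_102_s1 : ∃ t, chk3 f_A00pm_102_s1 t 252 134 1 = true := ex3_c k183_A00pm_102_s1 k184_A00pm_102_s1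

theorem t415_A00pm_102_s1 : ∃ t, chk3 f_A00pm_102_s1 t 126 134 1 = true := ex3_a t414_A00pm_102_s1 t413_A00pm_102_s1

theorem t416_A00pm_102_s1 : ∃ t, chk3 f_A00pm_102_s1 t 126 67 1 = true := ex3_b t415_A00pm_102_s1 t412_A00pm_102_s1

theorem t417_A00pm_102_s1 : ∃ t, chk3 f_A00pm_102_s1 t 253 133 3 = true := ex3_a k181_A00pm_102_s1 k182_A00pm_102_s1

theorem t418_A00pm_102_s1 : ∃ t, chk3 f_A00pm_102_s1 t 253 133 2 = true := ex3_a k179_A00pm_102_s1 k180_A00pm_102_s1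

theorem t419_A00pm_102_s1 : ∃ t, chk3 f_A00pm_102_s1 t 253 133 1 = true := ex3_c t418_A00pm_102_s1 t417_A00pm_102_s1

theorem t420_A00pm_102_s1 : ∃ t, chk3 f_A00pm_102_s1 t 253 265 1 = true := ex3_c k177_A00pm_102_s1 k178_A00pm_102_s1

theorem t421_A00pm_102_s1 : ∃ t, chk3 f_A00pm_102_s1 t 253 264 1 = true := ex3_a k175_A00pm_102_s1 k176_A00pm_102_s1

theorem t422_A00pm_102_s1 : ∃ t, chk3 f_A00pm_102_s1 t 253 132 1 = true := ex3_b t421_A00pm_102_s1 t420_A00pm_102_s1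

theorem t423_A00pm_102_s1 : ∃ t, chk3 f_A00pm_102_s1 t 253 66 1 = true := ex3_b t422_A00pm_102_s1 t419_A00pm_102_s1

theorem t424_A00pm_102_s1 : ∃ t, chk3 f_A00pm_102_s1 t 252 266 1 = true := ex3_a k172_A00pm_102_s1 k173_A00pm_102_s1

theorem t425_A00pm_102_s1 : ∃ t, chk3 f_A00pm_102_s1 t 252 133 1 = true := ex3_b t424_A00pm_102_s1 k174_A00pm_102_s1

theorem t426_A00pm_102_s1 : ∃ t, chk3 f_A00pm_102_s1 t 504 265 1 = true := ex3_b k169_A00pm_102_s1 k170_A00pm_102_s1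

theorem t427_A00pm_102_s1 : ∃ t, chk3 f_A00pm_102_s1 t 252 265 1 = true := ex3_a t426_A00pm_102_s1 k171_A00pm_102_s1

theorem t428_A00pm_102_s1 : ∃ t, chk3 f_A00pm_102_s1 t 505 528 1 = true := ex3_a k166_A00pm_102_s1 k167_A00pm_102_s1

theorem t429_A00pm_102_s1 : ∃ t, chk3 f_A00pm_102_s1 t 505 264 1 = true := ex3_b t428_A00pm_102_s1 k168_A00pm_102_s1

theorem t430_A00pm_102_s1 : ∃ t, chk3 f_A00pm_102_s1 t 252 264 1 = true := ex3_a k165_A00pm_102_s1 t429_A00pm_102_s1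

theorem t431_A00pm_102_s1 : ∃ t, chk3 f_A00pm_102_s1 t 252 132 1 = true := ex3_b t430_A00pm_102_s1 t427_A00pm_102_s1

theorem t432_A00pm_102_s1 : ∃ t, chk3 f_A00pm_102_s1 t 252 66 1 = true := ex3_b t431_A00pm_102_s1 t425_A00pm_102_s1

theorem t433_A00pm_102_s1 : ∃ t, chk3 f_A00pm_102_s1 t 126 66 1 = true := ex3_a t432_A00pm_102_s1 t423_A00pm_102_s1

theorem t434_A00pm_102_s1 : ∃ t, chk3 f_A00pm_102_s1 t 126 33 1 = true := ex3_b t433_A00pm_102_s1 t416_A00pm_102_s1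

theorem t435_A00pm_102_s1 : ∃ t, chk3 f_A00pm_102_s1 t 63 33 1 = true := ex3_a t434_A00pm_102_s1 t411_A00pm_102_s1

theorem t436_A00pm_102_s1 : ∃ t, chk3 f_A00pm_102_s1 t 254 263 1 = true := ex3_c k162_A00pm_102_s1 k163_A00pm_102_s1

theorem t437_A00pm_102_s1 : ∃ t, chk3 f_A00pm_102_s1 t 509 262 1 = true := ex3_c k160_A00pm_102_s1 k161_A00pm_102_s1

theorem t438_A00pm_102_s1 : ∃ t, chk3 f_A00pm_102_s1 t 508 262 1 = true := ex3_c k158_A00pm_102_s1 k159_A00pm_102_s1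

theorem t439_A00pm_102_s1 : ∃ t, chk3 f_A00pm_102_s1 t 254 262 1 = true := ex3_a t438_A00pm_102_s1 t437_A00pm_102_s1

theorem t440_A00pm_102_s1 : ∃ t, chk3 f_A00pm_102_s1 t 254 131 1 = true := ex3_b t439_A00pm_102_s1 t436_A00pm_102_s1

theorem t441_A00pm_102_s1 : ∃ t, chk3 f_A00pm_102_s1 t 509 130 1 = true := ex3_a k156_A00pm_102_s1 k157_A00pm_102_s1

theorem t442_A00pm_102_s1 : ∃ t, chk3 f_A00pm_102_s1 t 508 522 1 = true := ex3_a k153_A00pm_102_s1 k154_A00pm_102_s1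

theorem t443_A00pm_102_s1 : ∃ t, chk3 f_A00pm_102_s1 t 508 261 1 = true := ex3_b t442_A00pm_102_s1 k155_A00pm_102_s1

theorem t444_A00pm_102_s1 : ∃ t, chk3 f_A00pm_102_s1 t 4064 2086 3 = true := ex3_a k147_A00pm_102_s1 k148_A00pm_102_s1

theorem t445_A00pm_102_s1 : ∃ t, chk3 f_A00pm_102_s1 t 2032 2086 3 = true := ex3_a t444_A00pm_102_s1 k149_A00pm_102_s1

theorem t446_A00pm_102_s1 : ∃ t, chk3 f_A00pm_102_s1 t 2032 1043 3 = true := ex3_b t445_A00pm_102_s1 k150_A00pm_102_s1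

theorem t447_A00pm_102_s1 : ∃ t, chk3 f_A00pm_102_s1 t 2032 1043 1 = true := ex3_c k146_A00pm_102_s1 t446_A00pm_102_s1

theorem t448_A00pm_102_s1 : ∃ t, chk3 f_A00pm_102_s1 t 1016 1043 1 = true := ex3_a t447_A00pm_102_s1 k151_A00pm_102_s1

theorem t449_A00pm_102_s1 : ∃ t, chk3 f_A00pm_102_s1 t 2033 4168 1 = true := ex3_b k142_A00pm_102_s1 k143_A00pm_102_s1

theorem t450_A00pm_102_s1 : ∃ t, chk3 f_A00pm_102_s1 t 2033 2084 1 = true := ex3_b t449_A00pm_102_s1 k144_A00pm_102_s1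

theorem t451_A00pm_102_s1 : ∃ t, chk3 f_A00pm_102_s1 t 2033 1042 1 = true := ex3_b t450_A00pm_102_s1 k145_A00pm_102_s1

theorem t452_A00pm_102_s1 : ∃ t, chk3 f_A00pm_102_s1 t 4065 2085 1 = true := ex3_a k140_A00pm_102_s1 k141_A00pm_102_s1

theorem t453_A00pm_102_s1 : ∃ t, chk3 f_A00pm_102_s1 t 2032 2085 1 = true := ex3_a k139_A00pm_102_s1 t452_A00pm_102_s1

theorem t454_A00pm_102_s1 : ∃ t, chk3 f_A00pm_102_s1 t 2032 1042 1 = true := ex3_b k138_A00pm_102_s1 t453_A00pm_102_s1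

theorem t455_A00pm_102_s1 : ∃ t, chk3 f_A00pm_102_s1 t 1016 1042 1 = true := ex3_a t454_A00pm_102_s1 t451_A00pm_102_s1

theorem t456_A00pm_102_s1 : ∃ t, chk3 f_A00pm_102_s1 t 1016 521 1 = true := ex3_b t455_A00pm_102_s1 t448_A00pm_102_s1

theorem t457_A00pm_102_s1 : ∃ t, chk3 f_A00pm_102_s1 t 508 521 1 = true := ex3_a t456_A00pm_102_s1 k152_A00pm_102_s1

theorem t458_A00pm_102_s1 : ∃ t, chk3 f_A00pm_102_s1 t 8133 2083 1 = true := ex3_b k134_A00pm_102_s1 k135_A00pm_102_s1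

theorem t459_A00pm_102_s1 : ∃ t, chk3 f_A00pm_102_s1 t 4066 2083 1 = true := ex3_a k133_A00pm_102_s1 t458_A00pm_102_s1

theorem t460_A00pm_102_s1 : ∃ t, chk3 f_A00pm_102_s1 t 2033 2083 1 = true := ex3_a t459_A00pm_102_s1 k136_A00pm_102_s1

theorem t461_A00pm_102_s1 : ∃ t, chk3 f_A00pm_102_s1 t 2033 1041 1 = true := ex3_b k132_A00pm_102_s1 t460_A00pm_102_s1

theorem t462_A00pm_102_s1 : ∃ t, chk3 f_A00pm_102_s1 t 2033 520 1 = true := ex3_b k131_A00pm_102_s1 t461_A00pm_102_s1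

theorem t463_A00pm_102_s1 : ∃ t, chk3 f_A00pm_102_s1 t 1016 520 1 = true := ex3_a k130_A00pm_102_s1 t462_A00pm_102_s1

theorem t464_A00pm_102_s1 : ∃ t, chk3 f_A00pm_102_s1 t 508 520 1 = true := ex3_a t463_A00pm_102_s1 k137_A00pm_102_s1

theorem t465_A00pm_102_s1 : ∃ t, chk3 f_A00pm_102_s1 t 508 260 1 = true := ex3_b t464_A00pm_102_s1 t457_A00pm_102_s1

theorem t466_A00pm_102_s1 : ∃ t, chk3 f_A00pm_102_s1 t 508 130 1 = true := ex3_b t465_A00pm_102_s1 t443_A00pm_102_s1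

theorem t467_A00pm_102_s1 : ∃ t, chk3 f_A00pm_102_s1 t 254 130 1 = true := ex3_a t466_A00pm_102_s1 t441_A00pm_102_s1

theorem t468_A00pm_102_s1 : ∃ t, chk3 f_A00pm_102_s1 t 254 65 1 = true := ex3_b t467_A00pm_102_s1 t440_A00pm_102_s1

theorem t469_A00pm_102_s1 : ∃ t, chk3 f_A00pm_102_s1 t 127 65 1 = true := ex3_a t468_A00pm_102_s1 k164_A00pm_102_s1

theorem t470_A00pm_102_s1 : ∃ t, chk3 f_A00pm_102_s1 t 127 32 1 = true := ex3_b k129_A00pm_102_s1 t469_A00pm_102_s1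

theorem t471_A00pm_102_s1 : ∃ t, chk3 f_A00pm_102_s1 t 507 263 1 = true := ex3_c k127_A00pm_102_s1 k128_A00pm_102_s1

theorem t472_A00pm_102_s1 : ∃ t, chk3 f_A00pm_102_s1 t 1012 526 1 = true := ex3_b k123_A00pm_102_s1 k124_A00pm_102_s1

theorem t473_A00pm_102_s1 : ∃ t, chk3 f_A00pm_102_s1 t 506 526 1 = true := ex3_a t472_A00pm_102_s1 k125_A00pm_102_s1

theorem t474_A00pm_102_s1 : ∃ t, chk3 f_A00pm_102_s1 t 506 263 1 = true := ex3_b t473_A00pm_102_s1 k126_A00pm_102_s1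

theorem t475_A00pm_102_s1 : ∃ t, chk3 f_A00pm_102_s1 t 253 263 1 = true := ex3_a t474_A00pm_102_s1 t471_A00pm_102_s1

theorem t476_A00pm_102_s1 : ∃ t, chk3 f_A00pm_102_s1 t 1014 524 1 = true := ex3_b k119_A00pm_102_s1 k120_A00pm_102_s1

theorem t477_A00pm_102_s1 : ∃ t, chk3 f_A00pm_102_s1 t 507 524 1 = true := ex3_a t476_A00pm_102_s1 k121_A00pm_102_s1

theorem t478_A00pm_102_s1 : ∃ t, chk3 f_A00pm_102_s1 t 507 262 1 = true := ex3_b t477_A00pm_102_s1 k122_A00pm_102_s1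

theorem t479_A00pm_102_s1 : ∃ t, chk3 f_A00pm_102_s1 t 1013 525 1 = true := ex3_b k117_A00pm_102_s1 k118_A00pm_102_s1

theorem t480_A00pm_102_s1 : ∃ t, chk3 f_A00pm_102_s1 t 2025 525 1 = true := ex3_a k115_A00pm_102_s1 k116_A00pm_102_s1

theorem t481_A00pm_102_s1 : ∃ t, chk3 f_A00pm_102_s1 t 1012 525 1 = true := ex3_a k114_A00pm_102_s1 t480_A00pm_102_s1

theorem t482_A00pm_102_s1 : ∃ t, chk3 f_A00pm_102_s1 t 506 525 1 = true := ex3_a t481_A00pm_102_s1 t479_A00pm_102_s1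

theorem t483_A00pm_102_s1 : ∃ t, chk3 f_A00pm_102_s1 t 1013 1049 1 = true := ex3_b k112_A00pm_102_s1 k113_A00pm_102_s1

theorem t484_A00pm_102_s1 : ∃ t, chk3 f_A00pm_102_s1 t 2027 1048 1 = true := ex3_b k110_A00pm_102_s1 k111_A00pm_102_s1

theorem t485_A00pm_102_s1 : ∃ t, chk3 f_A00pm_102_s1 t 1013 1048 1 = true := ex3_a k109_A00pm_102_s1 t484_A00pm_102_s1

theorem t486_A00pm_102_s1 : ∃ t, chk3 f_A00pm_102_s1 t 1013 524 1 = true := ex3_b t485_A00pm_102_s1 t483_A00pm_102_s1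

theorem t487_A00pm_102_s1 : ∃ t, chk3 f_A00pm_102_s1 t 506 524 1 = true := ex3_a k108_A00pm_102_s1 t486_A00pm_102_s1

theorem t488_A00pm_102_s1 : ∃ t, chk3 f_A00pm_102_s1 t 506 262 1 = true := ex3_b t487_A00pm_102_s1 t482_A00pm_102_s1

theorem t489_A00pm_102_s1 : ∃ t, chk3 f_A00pm_102_s1 t 253 262 1 = true := ex3_a t488_A00pm_102_s1 t478_A00pm_102_s1

theorem t490_A00pm_102_s1 : ∃ t, chk3 f_A00pm_102_s1 t 253 131 1 = true := ex3_b t489_A00pm_102_s1 t475_A00pm_102_s1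

theorem t491_A00pm_102_s1 : ∃ t, chk3 f_A00pm_102_s1 t 2023 263 1 = true := ex3_b k106_A00pm_102_s1 k107_A00pm_102_s1

theorem t492_A00pm_102_s1 : ∃ t, chk3 f_A00pm_102_s1 t 2023 131 1 = true := ex3_b k105_A00pm_102_s1 t491_A00pm_102_s1

theorem t493_A00pm_102_s1 : ∃ t, chk3 f_A00pm_102_s1 t 1011 131 1 = true := ex3_a k104_A00pm_102_s1 t492_A00pm_102_s1

theorem t494_A00pm_102_s1 : ∃ t, chk3 f_A00pm_102_s1 t 505 131 1 = true := ex3_a k103_A00pm_102_s1 t493_A00pm_102_s1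

theorem t495_A00pm_102_s1 : ∃ t, chk3 f_A00pm_102_s1 t 252 131 1 = true := ex3_a k102_A00pm_102_s1 t494_A00pm_102_s1

theorem t496_A00pm_102_s1 : ∃ t, chk3 f_A00pm_102_s1 t 126 131 1 = true := ex3_a t495_A00pm_102_s1 t490_A00pm_102_s1

theorem t497_A00pm_102_s1 : ∃ t, chk3 f_A00pm_102_s1 t 1015 523 1 = true := ex3_c k100_A00pm_102_s1 k101_A00pm_102_s1

theorem t498_A00pm_102_s1 : ∃ t, chk3 f_A00pm_102_s1 t 2028 1047 3 = true := ex3_b k97_A00pm_102_s1 k98_A00pm_102_s1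

theorem t499_A00pm_102_s1 : ∃ t, chk3 f_A00pm_102_s1 t 2028 1047 1 = true := ex3_c k96_A00pm_102_s1 t498_A00pm_102_s1

theorem t500_A00pm_102_s1 : ∃ t, chk3 f_A00pm_102_s1 t 1014 1047 1 = true := ex3_a t499_A00pm_102_s1 k99_A00pm_102_s1

theorem t501_A00pm_102_s1 : ∃ t, chk3 f_A00pm_102_s1 t 4058 2093 1 = true := ex3_c k93_A00pm_102_s1 k94_A00pm_102_s1

theorem t502_A00pm_102_s1 : ∃ t, chk3 f_A00pm_102_s1 t 2029 2093 1 = true := ex3_a t501_A00pm_102_s1 k95_A00pm_102_s1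

theorem t503_A00pm_102_s1 : ∃ t, chk3 f_A00pm_102_s1 t 1014 2093 1 = true := ex3_a k92_A00pm_102_s1 t502_A00pm_102_s1

theorem t504_A00pm_102_s1 : ∃ t, chk3 f_A00pm_102_s1 t 1014 2092 1 = true := ex3_b k90_A00pm_102_s1 k91_A00pm_102_s1

theorem t505_A00pm_102_s1 : ∃ t, chk3 f_A00pm_102_s1 t 1014 1046 1 = true := ex3_b t504_A00pm_102_s1 t503_A00pm_102_s1

theorem t506_A00pm_102_s1 : ∃ t, chk3 f_A00pm_102_s1 t 1014 523 1 = true := ex3_b t505_A00pm_102_s1 t500_A00pm_102_s1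

theorem t507_A00pm_102_s1 : ∃ t, chk3 f_A00pm_102_s1 t 507 523 1 = true := ex3_a t506_A00pm_102_s1 t497_A00pm_102_s1

theorem t508_A00pm_102_s1 : ∃ t, chk3 f_A00pm_102_s1 t 4060 1045 3 = true := ex3_a k86_A00pm_102_s1 k87_A00pm_102_s1

theorem t509_A00pm_102_s1 : ∃ t, chk3 f_A00pm_102_s1 t 2030 1045 3 = true := ex3_a t508_A00pm_102_s1 k88_A00pm_102_s1

theorem t510_A00pm_102_s1 : ∃ t, chk3 f_A00pm_102_s1 t 2030 1045 1 = true := ex3_c k85_A00pm_102_s1 t509_A00pm_102_s1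

theorem t511_A00pm_102_s1 : ∃ t, chk3 f_A00pm_102_s1 t 1015 1045 1 = true := ex3_a t510_A00pm_102_s1 k89_A00pm_102_s1

theorem t512_A00pm_102_s1 : ∃ t, chk3 f_A00pm_102_s1 t 4062 1044 3 = true := ex3_b k82_A00pm_102_s1 k83_A00pm_102_s1

theorem t513_A00pm_102_s1 : ∃ t, chk3 f_A00pm_102_s1 t 2031 1044 3 = true := ex3_a t512_A00pm_102_s1 k84_A00pm_102_s1

theorem t514_A00pm_102_s1 : ∃ t, chk3 f_A00pm_102_s1 t 2031 1044 1 = true := ex3_c k81_A00pm_102_s1 t513_A00pm_102_s1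

theorem t515_A00pm_102_s1 : ∃ t, chk3 f_A00pm_102_s1 t 1015 1044 1 = true := ex3_a k80_A00pm_102_s1 t514_A00pm_102_s1

theorem t516_A00pm_102_s1 : ∃ t, chk3 f_A00pm_102_s1 t 1015 522 1 = true := ex3_b t515_A00pm_102_s1 t511_A00pm_102_s1

theorem t517_A00pm_102_s1 : ∃ t, chk3 f_A00pm_102_s1 t 507 522 1 = true := ex3_a k79_A00pm_102_s1 t516_A00pm_102_s1

theorem t518_A00pm_102_s1 : ∃ t, chk3 f_A00pm_102_s1 t 507 261 1 = true := ex3_b t517_A00pm_102_s1 t507_A00pm_102_s1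

theorem t519_A00pm_102_s1 : ∃ t, chk3 f_A00pm_102_s1 t 253 261 1 = true := ex3_a k78_A00pm_102_s1 t518_A00pm_102_s1

theorem t520_A00pm_102_s1 : ∃ t, chk3 f_A00pm_102_s1 t 4063 2087 3 = true := ex3_a k76_A00pm_102_s1 k77_A00pm_102_s1

theorem t521_A00pm_102_s1 : ∃ t, chk3 f_A00pm_102_s1 t 4063 1043 3 = true := ex3_b k75_A00pm_102_s1 t520_A00pm_102_s1

theorem t522_A00pm_102_s1 : ∃ t, chk3 f_A00pm_102_s1 t 2031 1043 3 = true := ex3_a k74_A00pm_102_s1 t521_A00pm_102_s1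

theorem t523_A00pm_102_s1 : ∃ t, chk3 f_A00pm_102_s1 t 2031 521 3 = true := ex3_b k73_A00pm_102_s1 t522_A00pm_102_s1

theorem t524_A00pm_102_s1 : ∃ t, chk3 f_A00pm_102_s1 t 2031 521 1 = true := ex3_c k72_A00pm_102_s1 t523_A00pm_102_s1

theorem t525_A00pm_102_s1 : ∃ t, chk3 f_A00pm_102_s1 t 1015 521 1 = true := ex3_a k71_A00pm_102_s1 t524_A00pm_102_s1

theorem t526_A00pm_102_s1 : ∃ t, chk3 f_A00pm_102_s1 t 1015 260 1 = true := ex3_b k70_A00pm_102_s1 t525_A00pm_102_s1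

theorem t527_A00pm_102_s1 : ∃ t, chk3 f_A00pm_102_s1 t 507 260 1 = true := ex3_a k69_A00pm_102_s1 t526_A00pm_102_s1

theorem t528_A00pm_102_s1 : ∃ t, chk3 f_A00pm_102_s1 t 253 260 1 = true := ex3_a k68_A00pm_102_s1 t527_A00pm_102_s1

theorem t529_A00pm_102_s1 : ∃ t, chk3 f_A00pm_102_s1 t 253 130 1 = true := ex3_b t528_A00pm_102_s1 t519_A00pm_102_s1

theorem t530_A00pm_102_s1 : ∃ t, chk3 f_A00pm_102_s1 t 126 130 1 = true := ex3_a k67_A00pm_102_s1 t529_A00pm_102_s1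

theorem t531_A00pm_102_s1 : ∃ t, chk3 f_A00pm_102_s1 t 126 65 1 = true := ex3_b t530_A00pm_102_s1 t496_A00pm_102_s1

theorem t532_A00pm_102_s1 : ∃ t, chk3 f_A00pm_102_s1 t 126 32 1 = true := ex3_b k66_A00pm_102_s1 t531_A00pm_102_s1

theorem t533_A00pm_102_s1 : ∃ t, chk3 f_A00pm_102_s1 t 63 32 1 = true := ex3_a t532_A00pm_102_s1 t470_A00pm_102_s1

theorem t534_A00pm_102_s1 : ∃ t, chk3 f_A00pm_102_s1 t 63 16 1 = true := ex3_b t533_A00pm_102_s1 t435_A00pm_102_s1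

theorem t535_A00pm_102_s1 : ∃ t, chk3 f_A00pm_102_s1 t 125 135 1 = true := ex3_c k64_A00pm_102_s1 k65_A00pm_102_s1

theorem t536_A00pm_102_s1 : ∃ t, chk3 f_A00pm_102_s1 t 250 134 1 = true := ex3_b k61_A00pm_102_s1 k62_A00pm_102_s1

theorem t537_A00pm_102_s1 : ∃ t, chk3 f_A00pm_102_s1 t 125 134 1 = true := ex3_a t536_A00pm_102_s1 k63_A00pm_102_s1

theorem t538_A00pm_102_s1 : ∃ t, chk3 f_A00pm_102_s1 t 125 67 1 = true := ex3_b t537_A00pm_102_s1 t535_A00pm_102_s1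

theorem t539_A00pm_102_s1 : ∃ t, chk3 f_A00pm_102_s1 t 124 135 1 = true := ex3_a k59_A00pm_102_s1 k60_A00pm_102_s1

theorem t540_A00pm_102_s1 : ∃ t, chk3 f_A00pm_102_s1 t 124 67 1 = true := ex3_b k58_A00pm_102_s1 t539_A00pm_102_s1

theorem t541_A00pm_102_s1 : ∃ t, chk3 f_A00pm_102_s1 t 62 67 1 = true := ex3_a t540_A00pm_102_s1 t538_A00pm_102_s1

theorem t542_A00pm_102_s1 : ∃ t, chk3 f_A00pm_102_s1 t 251 266 1 = true := ex3_b k55_A00pm_102_s1 k56_A00pm_102_s1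

theorem t543_A00pm_102_s1 : ∃ t, chk3 f_A00pm_102_s1 t 251 133 1 = true := ex3_b t542_A00pm_102_s1 k57_A00pm_102_s1

theorem t544_A00pm_102_s1 : ∃ t, chk3 f_A00pm_102_s1 t 125 133 1 = true := ex3_a k54_A00pm_102_s1 t543_A00pm_102_s1

theorem t545_A00pm_102_s1 : ∃ t, chk3 f_A00pm_102_s1 t 125 66 1 = true := ex3_b k53_A00pm_102_s1 t544_A00pm_102_s1

theorem t546_A00pm_102_s1 : ∃ t, chk3 f_A00pm_102_s1 t 62 66 1 = true := ex3_a k52_A00pm_102_s1 t545_A00pm_102_s1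

theorem t547_A00pm_102_s1 : ∃ t, chk3 f_A00pm_102_s1 t 62 33 1 = true := ex3_b t546_A00pm_102_s1 t541_A00pm_102_s1

theorem t548_A00pm_102_s1 : ∃ t, chk3 f_A00pm_102_s1 t 62 16 1 = true := ex3_b k51_A00pm_102_s1 t547_A00pm_102_s1

theorem t549_A00pm_102_s1 : ∃ t, chk3 f_A00pm_102_s1 t 31 16 1 = true := ex3_a t548_A00pm_102_s1 t534_A00pm_102_s1

theorem t550_A00pm_102_s1 : ∃ t, chk3 f_A00pm_102_s1 t 15 16 1 = true := ex3_a k50_A00pm_102_s1 t549_A00pm_102_s1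

theorem t551_A00pm_102_s1 : ∃ t, chk3 f_A00pm_102_s1 t 15 8 1 = true := ex3_b t550_A00pm_102_s1 t408_A00pm_102_s1

theorem t552_A00pm_102_s1 : ∃ t, chk3 f_A00pm_102_s1 t 7 8 1 = true := ex3_a k49_A00pm_102_s1 t551_A00pm_102_s1

theorem t553_A00pm_102_s1 : ∃ t, chk3 f_A00pm_102_s1 t 7 4 1 = true := ex3_b t552_A00pm_102_s1 t381_A00pm_102_s1

theorem t554_A00pm_102_s1 : ∃ t, chk3 f_A00pm_102_s1 t 108 79 1 = true := ex3_b k45_A00pm_102_s1 k46_A00pm_102_s1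

theorem t555_A00pm_102_s1 : ∃ t, chk3 f_A00pm_102_s1 t 54 79 1 = true := ex3_a t554_A00pm_102_s1 k47_A00pm_102_s1

theorem t556_A00pm_102_s1 : ∃ t, chk3 f_A00pm_102_s1 t 27 79 1 = true := ex3_a t555_A00pm_102_s1 k48_A00pm_102_s1

theorem t557_A00pm_102_s1 : ∃ t, chk3 f_A00pm_102_s1 t 55 78 1 = true := ex3_b k43_A00pm_102_s1 k44_A00pm_102_s1

theorem t558_A00pm_102_s1 : ∃ t, chk3 f_A00pm_102_s1 t 27 78 1 = true := ex3_a k42_A00pm_102_s1 t557_A00pm_102_s1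

theorem t559_A00pm_102_s1 : ∃ t, chk3 f_A00pm_102_s1 t 27 39 1 = true := ex3_b t558_A00pm_102_s1 t556_A00pm_102_s1

theorem t560_A00pm_102_s1 : ∃ t, chk3 f_A00pm_102_s1 t 107 159 3 = true := ex3_a k40_A00pm_102_s1 k41_A00pm_102_s1

theorem t561_A00pm_102_s1 : ∃ t, chk3 f_A00pm_102_s1 t 53 159 3 = true := ex3_a k39_A00pm_102_s1 t560_A00pm_102_s1

theorem t562_A00pm_102_s1 : ∃ t, chk3 f_A00pm_102_s1 t 53 159 1 = true := ex3_c k38_A00pm_102_s1 t561_A00pm_102_s1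

theorem t563_A00pm_102_s1 : ∃ t, chk3 f_A00pm_102_s1 t 53 79 1 = true := ex3_b k37_A00pm_102_s1 t562_A00pm_102_s1

theorem t564_A00pm_102_s1 : ∃ t, chk3 f_A00pm_102_s1 t 26 79 1 = true := ex3_a k36_A00pm_102_s1 t563_A00pm_102_s1

theorem t565_A00pm_102_s1 : ∃ t, chk3 f_A00pm_102_s1 t 26 39 1 = true := ex3_b k35_A00pm_102_s1 t564_A00pm_102_s1

theorem t566_A00pm_102_s1 : ∃ t, chk3 f_A00pm_102_s1 t 13 39 1 = true := ex3_a t565_A00pm_102_s1 t559_A00pm_102_s1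

theorem t567_A00pm_102_s1 : ∃ t, chk3 f_A00pm_102_s1 t 13 19 1 = true := ex3_b k34_A00pm_102_s1 t566_A00pm_102_s1

theorem t568_A00pm_102_s1 : ∃ t, chk3 f_A00pm_102_s1 t 13 9 1 = true := ex3_b k33_A00pm_102_s1 t567_A00pm_102_s1

theorem t569_A00pm_102_s1 : ∃ t, chk3 f_A00pm_102_s1 t 6 9 1 = true := ex3_a k32_A00pm_102_s1 t568_A00pm_102_s1

theorem t570_A00pm_102_s1 : ∃ t, chk3 f_A00pm_102_s1 t 6 4 1 = true := ex3_b k31_A00pm_102_s1 t569_A00pm_102_s1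

theorem t571_A00pm_102_s1 : ∃ t, chk3 f_A00pm_102_s1 t 3 4 1 = true := ex3_a t570_A00pm_102_s1 t553_A00pm_102_s1

theorem t572_A00pm_102_s1 : ∃ t, chk3 f_A00pm_102_s1 t 3 2 1 = true := ex3_b t571_A00pm_102_s1 t343_A00pm_102_s1

theorem t573_A00pm_102_s1 : ∃ t, chk3 f_A00pm_102_s1 t 3 1 1 = true := ex3_b t572_A00pm_102_s1 k302_A00pm_102_s1

theorem t574_A00pm_102_s1 : ∃ t, chk3 f_A00pm_102_s1 t 23 2682 1 = true := ex3_b k24_A00pm_102_s1 k25_A00pm_102_s1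

theorem t575_A00pm_102_s1 : ∃ t, chk3 f_A00pm_102_s1 t 23 1341 1 = true := ex3_b t574_A00pm_102_s1 k26_A00pm_102_s1

theorem t576_A00pm_102_s1 : ∃ t, chk3 f_A00pm_102_s1 t 11 1341 1 = true := ex3_a k23_A00pm_102_s1 t575_A00pm_102_s1

theorem t577_A00pm_102_s1 : ∃ t, chk3 f_A00pm_102_s1 t 47 5363 3 = true := ex3_a k21_A00pm_102_s1 k22_A00pm_102_s1

theorem t578_A00pm_102_s1 : ∃ t, chk3 f_A00pm_102_s1 t 47 2681 3 = true := ex3_b k20_A00pm_102_s1 t577_A00pm_102_s1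

theorem t579_A00pm_102_s1 : ∃ t, chk3 f_A00pm_102_s1 t 47 1340 3 = true := ex3_b k19_A00pm_102_s1 t578_A00pm_102_s1

theorem t580_A00pm_102_s1 : ∃ t, chk3 f_A00pm_102_s1 t 46 2681 3 = true := ex3_b k17_A00pm_102_s1 k18_A00pm_102_s1

theorem t581_A00pm_102_s1 : ∃ t, chk3 f_A00pm_102_s1 t 46 1340 3 = true := ex3_b k16_A00pm_102_s1 t580_A00pm_102_s1

theorem t582_A00pm_102_s1 : ∃ t, chk3 f_A00pm_102_s1 t 23 1340 3 = true := ex3_a t581_A00pm_102_s1 t579_A00pm_102_s1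

theorem t583_A00pm_102_s1 : ∃ t, chk3 f_A00pm_102_s1 t 47 5363 2 = true := ex3_a k14_A00pm_102_s1 k15_A00pm_102_s1

theorem t584_A00pm_102_s1 : ∃ t, chk3 f_A00pm_102_s1 t 47 2681 2 = true := ex3_b k13_A00pm_102_s1 t583_A00pm_102_s1

theorem t585_A00pm_102_s1 : ∃ t, chk3 f_A00pm_102_s1 t 47 1340 2 = true := ex3_b k12_A00pm_102_s1 t584_A00pm_102_s1

theorem t586_A00pm_102_s1 : ∃ t, chk3 f_A00pm_102_s1 t 23 1340 2 = true := ex3_a k11_A00pm_102_s1 t585_A00pm_102_s1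

theorem t587_A00pm_102_s1 : ∃ t, chk3 f_A00pm_102_s1 t 23 1340 1 = true := ex3_c t586_A00pm_102_s1 t582_A00pm_102_s1

theorem t588_A00pm_102_s1 : ∃ t, chk3 f_A00pm_102_s1 t 11 1340 1 = true := ex3_a k10_A00pm_102_s1 t587_A00pm_102_s1

theorem t589_A00pm_102_s1 : ∃ t, chk3 f_A00pm_102_s1 t 11 670 1 = true := ex3_b t588_A00pm_102_s1 t576_A00pm_102_s1

theorem t590_A00pm_102_s1 : ∃ t, chk3 f_A00pm_102_s1 t 11 335 1 = true := ex3_b t589_A00pm_102_s1 k27_A00pm_102_s1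

theorem t591_A00pm_102_s1 : ∃ t, chk3 f_A00pm_102_s1 t 11 334 1 = true := ex3_a k8_A00pm_102_s1 k9_A00pm_102_s1

theorem t592_A00pm_102_s1 : ∃ t, chk3 f_A00pm_102_s1 t 11 167 1 = true := ex3_b t591_A00pm_102_s1 t590_A00pm_102_s1

theorem t593_A00pm_102_s1 : ∃ t, chk3 f_A00pm_102_s1 t 23 166 1 = true := ex3_a k6_A00pm_102_s1 k7_A00pm_102_s1

theorem t594_A00pm_102_s1 : ∃ t, chk3 f_A00pm_102_s1 t 11 166 1 = true := ex3_a k5_A00pm_102_s1 t593_A00pm_102_s1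

theorem t595_A00pm_102_s1 : ∃ t, chk3 f_A00pm_102_s1 t 11 83 1 = true := ex3_b t594_A00pm_102_s1 t592_A00pm_102_s1

theorem t596_A00pm_102_s1 : ∃ t, chk3 f_A00pm_102_s1 t 11 41 1 = true := ex3_b k4_A00pm_102_s1 t595_A00pm_102_s1

theorem t597_A00pm_102_s1 : ∃ t, chk3 f_A00pm_102_s1 t 5 41 1 = true := ex3_a k3_A00pm_102_s1 t596_A00pm_102_s1

theorem t598_A00pm_102_s1 : ∃ t, chk3 f_A00pm_102_s1 t 5 20 1 = true := ex3_b k2_A00pm_102_s1 t597_A00pm_102_s1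

theorem t599_A00pm_102_s1 : ∃ t, chk3 f_A00pm_102_s1 t 5 10 1 = true := ex3_b t598_A00pm_102_s1 k28_A00pm_102_s1

theorem t600_A00pm_102_s1 : ∃ t, chk3 f_A00pm_102_s1 t 2 10 1 = true := ex3_a k1_A00pm_102_s1 t599_A00pm_102_s1

theorem t601_A00pm_102_s1 : ∃ t, chk3 f_A00pm_102_s1 t 2 5 1 = true := ex3_b t600_A00pm_102_s1 k29_A00pm_102_s1

theorem t602_A00pm_102_s1 : ∃ t, chk3 f_A00pm_102_s1 t 2 2 1 = true := ex3_b k0_A00pm_102_s1 t601_A00pm_102_s1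

theorem t603_A00pm_102_s1 : ∃ t, chk3 f_A00pm_102_s1 t 2 1 1 = true := ex3_b t602_A00pm_102_s1 k30_A00pm_102_s1

theorem t604_A00pm_102_s1 : ∃ t, chk3 f_A00pm_102_s1 t 1 1 1 = true := ex3_a t603_A00pm_102_s1 t573_A00pm_102_s1

theorem c_A00pm_102_s1 : CertF 536870912 536870912 0 536870912 1020054732 13421774 true true false .npp 1 0 2
    ndB0q1 ndB0q0 pcB2 cut_A00pm_102_s1 xt_A00pm_102_s1 :=
  certF1 (fam := true) (s1 := true) (s2 := false) (a := 1) (b := 0) (c := 2) (cn := .npp) (n1 := ndB0q1) (n2 := ndB0q0) (pc := pcB2) (cut := cut_A00pm_102_s1) (xt := xt_A00pm_102_s1) (P1 := 536870912) (W1 := 536870912) (P2 := 0) (W2 := 536870912) (P3 := 1020054732) (W3 := 13421774)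
    rfl (fun _ => rfl) t604_A00pm_102_s1

theorem s_A00pm_102_s1 {κ x : ℝ} (hκ : κ * h0 = ken x) (hx : ((1020054732 : ℕ) : ℝ) / S ≤ x)
    (hx' : x ≤ (((1020054732 : ℕ) : ℝ) + (13421774 : ℕ)) / S)
    (H : CutA (VFD κ) PP tK tL pcB (Cut.of [[⟨0, 1, 0, 16777216⟩, ⟨1, 0, 0, 16777216⟩, ⟨2, 1, 0, 16777216⟩]]) 1 0 2 0 0 (sgb true) (sgb false) x) :
    AltA (VFD κ) PP tK tL pcB [⟨3, 0, 0, 1449551462⟩] 1 0 2 0 0 (sgb true) (sgb false) x :=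
  strip_altAD (m := 1449551462) true rfl hκ (SH.κ0 hκ (SH.hx1 hx).le (SH.hx2 hx').le) (SH.hx1 hx).le (SH.hx2 hx') (covB01).cov (covB00).cov hx hx' c_A00pm_102_s1 H ((okx hx hx').extA (T := tt) (sideB hx hx') hκ rfl rfl (.O 1 true) (.O 0 false) rfl)

end Pool.Agent.Strip051.G.I9500_9625.Tab.St.C
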