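import Pool.Agent.Strip051.G.I9500_9625.StH
import Pool.Agent.Strip051.G.I9500_9625.StF

/-! # Unit strips 4 (generated) -/

set_option linter.all false
set_option maxRecDepth 100000

namespace Pool.Agent.Strip051.G.I9500_9625.Tab.St.C

open Pool.Agent.Strip051.PB Pool.Agent.Strip051.PB.T Pool.Agent.StripNear Pool.Agent.Strip051.LC
open Pool.Agent.Strip051.G.I9500_9625.Tab Pool.Agent.Strip051.G.I9500_9625.Tab.St

noncomputable def cut_A00pm_102_s3 : Cut := Cut.of [[⟨3, 0, 0, 2845415833⟩], [⟨0, 1, 0, 16777216⟩, ⟨1, 0, 0, 16777216⟩, ⟨2, 1, 0, 16777216⟩]]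

noncomputable def f_A00pm_102_s3 : ℕ → ℕ → ℕ → ℕ → Bool := onCell 536870912 536870912 0 536870912 1020054732 13421774
    (rowF 0 true true false .npp 1 0 2 (qsf 536870912 536870912 0 536870912 2) ndB0q1 ndB0q0 pcB2 cut_A00pm_102_s3 Ext.none)

def k0_A00pm_102_s3 : ∃ t, chk3 f_A00pm_102_s3 t 1 1 1 = true :=
  ⟨(l 6), by decide +kernel⟩

theorem c_A00pm_102_s3 : CertF 536870912 536870912 0 536870912 1020054732 13421774 true true false .npp 1 0 2
    ndB0q1 ndB0q0 pcB2 cut_A00pm_102_s3 Ext.none :=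
  certF0 (fam := true) (s1 := true) (s2 := false) (a := 1) (b := 0) (c := 2) (cn := .npp) (n1 := ndB0q1) (n2 := ndB0q0) (pc := pcB2) (cut := cut_A00pm_102_s3) (xt := Ext.none) (P1 := 536870912) (W1 := 536870912) (P2 := 0) (W2 := 536870912) (P3 := 1020054732) (W3 := 13421774)
    rfl k0_A00pm_102_s3

theorem s_A00pm_102_s3 {κ x : ℝ} (hκ : κ * h0 = ken x) (hx : ((1020054732 : ℕ) : ℝ) / S ≤ x)
    (hx' : x ≤ (((1020054732 : ℕ) : ℝ) + (13421774 : ℕ)) / S)
    (H : CutA (VFD κ) PP tK tL pcB (Cut.of [[⟨0, 1, 0, 16777216⟩, ⟨1, 0, 0, 16777216⟩, ⟨2, 1, 0, 16777216⟩]]) 1 0 2 0 0 (sgb true) (sgb false) x) :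
    AltA (VFD κ) PP tK tL pcB [⟨4, 0, 0, 2845415833⟩] 1 0 2 0 0 (sgb true) (sgb false) x :=
  strip_altAD (m := 2845415833) false rfl hκ (SH.κ0 hκ (SH.hx1 hx).le (SH.hx2 hx').le) (SH.hx1 hx).le (SH.hx2 hx') (covB01).cov (covB00).cov hx hx' c_A00pm_102_s3 H (noExt_A)

noncomputable def cut_A00pm_112_s1 : Cut := Cut.of [[⟨4, 0, 0, 1449551462⟩]]

noncomputable def xt_A00pm_112_s1 : Ext := strExt dd true true false .u0 .u0m .u2 .dn 1 1 2 rfl rfl gf2 vv ndB0q1 ndB0q1

noncomputable def f_A00pm_112_s1 : ℕ → ℕ → ℕ → ℕ → Bool := onCell 536870912 536870912 1073741824 536870912 1020054732 13421774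
    (rowF 1 true true false .dn 1 1 2 (qsf 536870912 536870912 536870912 536870912 2) ndB0q1 ndB0q1 pcB2 cut_A00pm_112_s1 xt_A00pm_112_s1)

def k0_A00pm_112_s1 : ∃ t, chk3 f_A00pm_112_s1 t 2 4 1 = true :=
  ⟨(b (l 3) (l 3)), by decide +kernel⟩

def k1_A00pm_112_s1 : ∃ t, chk3 f_A00pm_112_s1 t 4 20 1 = true :=
  ⟨(b (l 3) (b (l 3) (b (a (a (l 531007551) (l 3)) (l 3)) (b (a (l 530763327) (a (l 3) (l 531056719))) (b (b (a (l 531036207) (l 531061295)) (b (b (a (l 531037487) (l 531062831)) (b (a (l 531037743) (l 531063087)) (b (a (l 531037999) (l 531063343)) (a (a (a (a (l 16771336) (l 16772432)) (a (a (l 16773168) (l 16773616)) (a (l 16774040) (l 16774424)))) (a (a (a (l 16774776) (l 16775104)) (a (l 16775400) (l 16775664))) (a (a (l 16775896) (l 16776096)) (a (l 16776272) (a (l 16776384) (l 16776448)))))) (a (a (a (a (a (l 16776504) (l 16776552)) (a (l 16776592) (l 16776624))) (a (a (l 16776656) (l 16776672)) (a (l 16776688) (l 16776688)))) (a (a (a (l 16776688)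 (l 16776680)) (a (l 16776664) (l 16776640))) (a (a (l 16776608) (l 16776568)) (a (l 16776520) (l 16776464))))) (a (a (a (a (l 16776408) (l 16776336)) (l 16776216)) (a (l 16776032) (l 16775824))) (a (a (l 16775584) (l 16775304)) (a (l 16775000) (l 16774672))))))))) (a (l 531038303) (l 531063903)))) (a (l 531039839) (l 531065951))))))), by decide +kernel⟩

def k2_A00pm_112_s1 : ∃ t, chk3 f_A00pm_112_s1 t 4 21 1 = true :=
  ⟨(a (b (b (b (b (a (l 531027807) (l 531073631)) (a (a (a (l 16763920) (l 16765080)) (a (l 16766104) (l 16766992))) (a (a (l 16767752) (l 16768392)) (a (l 16768904) (l 16769288))))) (a (a (a (l 16758696) (l 16759896)) (a (l 16760960) (l 16761896))) (a (a (l 16762696) (l 16763368)) (a (l 16763912) (l 16764336))))) (a (a (b (l 16752344) (l 16745392)) (l 531074415)) (l 531105903))) (a (b (a (l 16734920) (l 16737472)) (a (l 16720928) (l 16723736))) (l 531138671))) (b (b (b (b (l 531071327) (a (a (a (l 16769560) (l 16769704)) (a (l 16769728) (l 16769624)))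 (a (a (l 16769408) (l 16769064)) (a (l 16768600) (l 16768016))))) (a (a (a (l 16764624) (l 16764800)) (a (l 16764848) (l 16764768))) (a (a (l 16764568) (l 16764248)) (a (l 16763792) (l 16763224))))) (l 531109743)) (l 531148399))), by decide +kernel⟩

def k3_A00pm_112_s1 : ∃ t, chk3 f_A00pm_112_s1 t 5 10 1 = true :=
  ⟨(a (b (b (l 3) (b (a (l 3) (l 1)) (a (b (b (l 3) (b (a (l 3) (l 530711183)) (l 531001487))) (b (b (l 531006095) (l 531010895)) (b (b (l 531014447) (a (a (a (l 16774280) (l 16773880)) (a (l 16773456) (l 16772992))) (a (b (l 16769816) (l 16772040)) (l 16771128)))) (l 531020383)))) (a (a (a (b (l 1) (l 209950058919)) (l 1)) (l 1)) (l 1))))) (b (b (a (b (b (l 531027039) (a (a (l 16767296) (l 16766456)) (a (l 16765480) (l 16764376)))) (a (a (l 16762520) (l 16761688)) (a (l 16760720) (l 16759624)))) (a (a (b (l 16759480) (l 16758392)) (l 174516545815)) (l 1))) (a (l 531074927) (a (b (l 16751392) (l 16745088)) (a (l 172905904743) (l 1))))) (a (l 531123823)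 (a (b (l 16735672) (l 16723152)) (a (l 16727272) (b (l 16731528) (l 16719272))))))) (b (l 1) (b (l 1) (a (a (b (l 1) (l 16714648)) (l 1)) (l 1))))), by decide +kernel⟩

def k4_A00pm_112_s1 : ∃ t, chk3 f_A00pm_112_s1 t 2 11 1 = true :=
  ⟨(a (a (a (b (b (a (b (l 16706736) (l 16692272)) (l 16702984)) (a (b (l 16677416) (l 16662024)) (l 16675072))) (b (a (l 16638120) (l 16646216)) (a (l 16605240) (l 16615696)))) (b (b (l 531182447) (l 16637424)) (b (l 16652096) (a (l 16622600) (l 16626416))))) (b (l 531218287) (l 531313775))) (a (a (l 531249775) (b (b (a (l 16704464) (b (l 16707776) (l 16695416))) (a (l 16679656) (l 16676944))) (b (l 16653616) (l 16629024)))) (a (b (a (b (a (l 16698560) (l 16695128)) (l 16652064)) (b (l 179885070247) (l 16665720))) (b (a (l 16649024) (l 16642888)) (a (l 16624896) (l 16619952)))) (b (a (b (l 1) (l 16655784)) (l 1)) (a (b (l 16633232) (l 16610944)) (l 91301150183)))))), by decide +kernel⟩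

def k5_A00pm_112_s1 : ∃ t, chk3 f_A00pm_112_s1 t 2 3 1 = true :=
  ⟨(b (b (a (a (a (b (b (a (l 16570912) (l 16583360)) (l 16458504)) (b (l 16505872) (l 16467496))) (a (b (b (l 16593144) (l 16561600)) (l 16511000)) (b (b (l 16598808) (l 16570208)) (l 16439448)))) (a (b (l 16589440) (a (l 16531928) (l 16536920))) (l 531444079))) (a (a (l 531452015) (l 531435375)) (a (b (a (l 16588528) (l 16542760)) (l 16538352)) (b (b (l 16499568) (a (l 16566760) (l 16556112))) (a (l 16532480) (l 16523904)))))) (b (a (a (a (b (l 16427080) (l 16384440)) (b (l 16465312) (l 16428184))) (a (a (l 16469296) (l 16479400)) (a (l 16485272) (l 16488560)))) (a (l 531568751) (a (l 16489616) (a (l 16485504) (l 16479992))))) (a (a (l 6) (l 6)) (l 6)))) (a (l 6) (l 6))), by decide +kernel⟩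

def k6_A00pm_112_s1 : ∃ t, chk3 f_A00pm_112_s1 t 3 1 1 = true :=
  ⟨(b (a (b (l 1) (b (l 1) (a (a (b (l 1) (a (l 162168082599) (l 1))) (l 1)) (l 1)))) (l 1)) (b (b (a (a (a (b (b (l 16472296) (l 16535144)) (a (l 16511488) (l 16496216))) (b (b (l 1) (l 16413952)) (a (l 16478032) (l 16456856)))) (a (b (l 1) (b (l 1) (l 16325528))) (l 1))) (l 1)) (b (a (b (a (a (l 16473184) (l 16438208)) (a (l 16390408) (l 1))) (a (a (l 16452568) (l 16418848)) (l 6))) (l 1)) (a (l 6) (l 6)))) (l 6))), by decide +kernel⟩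

theorem t7_A00pm_112_s1 : ∃ t, chk3 f_A00pm_112_s1 t 4 10 1 = true := ex3_b k1_A00pm_112_s1 k2_A00pm_112_s1

theorem t8_A00pm_112_s1 : ∃ t, chk3 f_A00pm_112_s1 t 2 10 1 = true := ex3_a t7_A00pm_112_s1 k3_A00pm_112_s1

theorem t9_A00pm_112_s1 : ∃ t, chk3 f_A00pm_112_s1 t 2 5 1 = true := ex3_b t8_A00pm_112_s1 k4_A00pm_112_s1

theorem t10_A00pm_112_s1 : ∃ t, chk3 f_A00pm_112_s1 t 2 2 1 = true := ex3_b k0_A00pm_112_s1 t9_A00pm_112_s1

theorem t11_A00pm_112_s1 : ∃ t, chk3 f_A00pm_112_s1 t 2 1 1 = true := ex3_b t10_A00pm_112_s1 k5_A00pm_112_s1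

theorem t12_A00pm_112_s1 : ∃ t, chk3 f_A00pm_112_s1 t 1 1 1 = true := ex3_a t11_A00pm_112_s1 k6_A00pm_112_s1

theorem c_A00pm_112_s1 : CertF 536870912 536870912 536870912 536870912 1020054732 13421774 true true false .dn 1 1 2
    ndB0q1 ndB0q1 pcB2 cut_A00pm_112_s1 xt_A00pm_112_s1 :=
  certF1 (fam := true) (s1 := true) (s2 := false) (a := 1) (b := 1) (c := 2) (cn := .dn) (n1 := ndB0q1) (n2 := ndB0q1) (pc := pcB2) (cut := cut_A00pm_112_s1) (xt := xt_A00pm_112_s1) (P1 := 536870912) (W1 := 536870912) (P2 := 536870912) (W2 := 536870912) (P3 := 1020054732) (W3 := 13421774)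
    rfl (fun _ => rfl) t12_A00pm_112_s1

theorem s_A00pm_112_s1 {κ x : ℝ} (hκ : κ * h0 = ken x) (hx : ((1020054732 : ℕ) : ℝ) / S ≤ x)
    (hx' : x ≤ (((1020054732 : ℕ) : ℝ) + (13421774 : ℕ)) / S) :
    AltA (VFD κ) PP tK tL pcB [⟨3, 0, 0, 1449551462⟩] 1 1 2 0 0 (sgb true) (sgb false) x :=
  strip_altAD (m := 1449551462) true rfl hκ (SH.κ0 hκ (SH.hx1 hx).le (SH.hx2 hx').le) (SH.hx1 hx).le (SH.hx2 hx') (covB01).cov (covB01).cov hx hx' c_A00pm_112_s1 cutA_nil ((okx hx hx').extA (T := tt) (sideB hx hx') hκ rfl rfl (.O 1 true) (.O 1 false) rfl)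

noncomputable def cut_A00pm_112_s3 : Cut := Cut.of [[⟨3, 0, 0, 2845415833⟩]]

noncomputable def f_A00pm_112_s3 : ℕ → ℕ → ℕ → ℕ → Bool := onCell 536870912 536870912 1073741824 536870912 1020054732 13421774
    (rowF 1 true true false .dn 1 1 2 (qsf 536870912 536870912 536870912 536870912 2) ndB0q1 ndB0q1 pcB2 cut_A00pm_112_s3 Ext.none)

def k0_A00pm_112_s3 : ∃ t, chk3 f_A00pm_112_s3 t 1 1 1 = true :=
  ⟨(l 6), by decide +kernel⟩

theorem c_A00pm_112_s3 : CertF 536870912 536870912 536870912 536870912 1020054732 13421774 true true false .dn 1 1 2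
    ndB0q1 ndB0q1 pcB2 cut_A00pm_112_s3 Ext.none :=
  certF1 (fam := true) (s1 := true) (s2 := false) (a := 1) (b := 1) (c := 2) (cn := .dn) (n1 := ndB0q1) (n2 := ndB0q1) (pc := pcB2) (cut := cut_A00pm_112_s3) (xt := Ext.none) (P1 := 536870912) (W1 := 536870912) (P2 := 536870912) (W2 := 536870912) (P3 := 1020054732) (W3 := 13421774)
    rfl (fun _ => rfl) k0_A00pm_112_s3

theorem s_A00pm_112_s3 {κ x : ℝ} (hκ : κ * h0 = ken x) (hx : ((1020054732 : ℕ) : ℝ) / S ≤ x)
    (hx' : x ≤ (((1020054732 : ℕ) : ℝ) + (13421774 : ℕ)) / S) :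
    AltA (VFD κ) PP tK tL pcB [⟨4, 0, 0, 2845415833⟩] 1 1 2 0 0 (sgb true) (sgb false) x :=
  strip_altAD (m := 2845415833) false rfl hκ (SH.κ0 hκ (SH.hx1 hx).le (SH.hx2 hx').le) (SH.hx1 hx).le (SH.hx2 hx') (covB01).cov (covB01).cov hx hx' c_A00pm_112_s3 cutA_nil (noExt_A)

noncomputable def cut_A00pm_113_s1 : Cut := Cut.of [[⟨4, 0, 0, 1449551462⟩], [⟨0, 1, 0, 26738688⟩, ⟨1, 1, 0, 26738688⟩, ⟨2, 2, 0, 2621440⟩], [⟨0, 0, 1, 46137344⟩, ⟨1, 1, 0, 2097152⟩, ⟨2, 1, 1, 46137344⟩, ⟨0, 0, 0, 1041207446⟩, ⟨0, 1, 0, 59055800⟩, ⟨2, 1, 0, 1041207446⟩, ⟨2, 2, 0, 59055800⟩], [⟨0, 1, 0, 2097152⟩, ⟨1, 0, 1, 46137344⟩, ⟨2, 1, 1, 46137344⟩, ⟨1, 0, 0, 1041207446⟩, ⟨1, 1, 0, 59055800⟩, ⟨2, 1, 0, 1041207446⟩, ⟨2, 2, 0, 59055800⟩]]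

noncomputable def f_A00pm_113_s1 : ℕ → ℕ → ℕ → ℕ → Bool := onCell 1610612736 536870912 536870912 536870912 1020054732 13421774
    (rowF 2 true true false .nn 1 1 3 (qsf 536870912 536870912 536870912 536870912 3) ndB0q1 ndB0q1 pcB3 cut_A00pm_113_s1 Ext.none)

def k0_A00pm_113_s1 : ∃ t, chk3 f_A00pm_113_s1 t 1 1 1 = true :=
  ⟨(a (b (a (l 6) (l 6)) (l 6)) (l 6)), by decide +kernel⟩

theorem c_A00pm_113_s1 : CertF 536870912 536870912 536870912 536870912 1020054732 13421774 true true false .nn 1 1 3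
    ndB0q1 ndB0q1 pcB3 cut_A00pm_113_s1 Ext.none :=
  certF2 (fam := true) (s1 := true) (s2 := false) (a := 1) (b := 1) (c := 3) (cn := .nn) (n1 := ndB0q1) (n2 := ndB0q1) (pc := pcB3) (cut := cut_A00pm_113_s1) (xt := Ext.none) (P1 := 536870912) (W1 := 536870912) (P2 := 536870912) (W2 := 536870912) (P3 := 1020054732) (W3 := 13421774)
    rfl (fun _ => rfl) k0_A00pm_113_s1

theorem s_A00pm_113_s1 {κ x : ℝ} (hκ : κ * h0 = ken x) (hx : ((1020054732 : ℕ) : ℝ) / S ≤ x)
    (hx' : x ≤ (((1020054732 : ℕ) : ℝ) + (13421774 : ℕ)) / S)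
    (H : CutA (VFD κ) PP tK tL pcB (Cut.of [[⟨0, 1, 0, 26738688⟩, ⟨1, 1, 0, 26738688⟩, ⟨2, 2, 0, 2621440⟩], [⟨0, 0, 1, 46137344⟩, ⟨1, 1, 0, 2097152⟩, ⟨2, 1, 1, 46137344⟩, ⟨0, 0, 0, 1041207446⟩, ⟨0, 1, 0, 59055800⟩, ⟨2, 1, 0, 1041207446⟩, ⟨2, 2, 0, 59055800⟩], [⟨0, 1, 0, 2097152⟩, ⟨1, 0, 1, 46137344⟩, ⟨2, 1, 1, 46137344⟩, ⟨1, 0, 0, 1041207446⟩, ⟨1, 1, 0, 59055800⟩, ⟨2, 1, 0, 1041207446⟩, ⟨2, 2, 0, 59055800⟩]]) 1 1 3 0 0 (sgb true) (sgb false) x) :
    AltA (VFD κ) PP tK tL pcB [⟨3, 0, 0, 1449551462⟩] 1 1 3 0 0 (sgb true) (sgb false) x :=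
  strip_altAD (m := 1449551462) true rfl hκ (SH.κ0 hκ (SH.hx1 hx).le (SH.hx2 hx').le) (SH.hx1 hx).le (SH.hx2 hx') (covB01).cov (covB01).cov hx hx' c_A00pm_113_s1 H (noExt_A)

noncomputable def cut_A00pm_113_s3 : Cut := Cut.of [[⟨3, 0, 0, 3194381926⟩], [⟨0, 1, 0, 26738688⟩, ⟨1, 1, 0, 26738688⟩, ⟨2, 2, 0, 2621440⟩], [⟨0, 0, 1, 46137344⟩, ⟨1, 1, 0, 2097152⟩, ⟨2, 1, 1, 46137344⟩, ⟨0, 0, 0, 1041207446⟩, ⟨0, 1, 0, 59055800⟩, ⟨2, 1, 0, 1041207446⟩, ⟨2, 2, 0, 59055800⟩], [⟨0, 1, 0, 2097152⟩, ⟨1, 0, 1, 46137344⟩, ⟨2, 1, 1, 46137344⟩, ⟨1, 0, 0, 1041207446⟩, ⟨1, 1, 0, 59055800⟩, ⟨2, 1, 0, 1041207446⟩, ⟨2, 2, 0, 59055800⟩]]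

noncomputable def f_A00pm_113_s3 : ℕ → ℕ → ℕ → ℕ → Bool := onCell 536870912 536870912 536870912 536870912 1020054732 13421774
    (rowF 0 true true false .nn 1 1 3 (qsf 536870912 536870912 536870912 536870912 3) ndB0q1 ndB0q1 pcB3 cut_A00pm_113_s3 Ext.none)

def k0_A00pm_113_s3 : ∃ t, chk3 f_A00pm_113_s3 t 2 1 1 = true :=
  ⟨(l 6), by decide +kernel⟩

def k1_A00pm_113_s3 : ∃ t, chk3 f_A00pm_113_s3 t 3 2 1 = true :=
  ⟨(l 6), by decide +kernel⟩

def k2_A00pm_113_s3 : ∃ t, chk3 f_A00pm_113_s3 t 6 3 1 = true :=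
  ⟨(l 6), by decide +kernel⟩

def k3_A00pm_113_s3 : ∃ t, chk3 f_A00pm_113_s3 t 7 6 1 = true :=
  ⟨(l 6), by decide +kernel⟩

def k4_A00pm_113_s3 : ∃ t, chk3 f_A00pm_113_s3 t 14 7 1 = true :=
  ⟨(l 6), by decide +kernel⟩

def k5_A00pm_113_s3 : ∃ t, chk3 f_A00pm_113_s3 t 15 14 1 = true :=
  ⟨(l 6), by decide +kernel⟩

def k6_A00pm_113_s3 : ∃ t, chk3 f_A00pm_113_s3 t 30 15 1 = true :=
  ⟨(l 6), by decide +kernel⟩

def k7_A00pm_113_s3 : ∃ t, chk3 f_A00pm_113_s3 t 31 30 1 = true :=
  ⟨(l 6), by decide +kernel⟩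

def k8_A00pm_113_s3 : ∃ t, chk3 f_A00pm_113_s3 t 62 31 1 = true :=
  ⟨(l 6), by decide +kernel⟩

def k9_A00pm_113_s3 : ∃ t, chk3 f_A00pm_113_s3 t 63 62 1 = true :=
  ⟨(l 6), by decide +kernel⟩

def k10_A00pm_113_s3 : ∃ t, chk3 f_A00pm_113_s3 t 126 63 1 = true :=
  ⟨(b (l 6) (b (l 6) (b (l 6) (a (l 6) (a (l 6) (a (l 6) (b (l 6) (b (c (c (l 16774368) (l 16775168)) (c (l 16773368) (a (l 6) (l 16777040)))) (c (c (l 16773008) (a (l 16773448) (l 16773992))) (c (a (l 16774200) (l 16774696)) (a (l 16774960) (l 16775416)))))))))))), by decide +kernel⟩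

def k11_A00pm_113_s3 : ∃ t, chk3 f_A00pm_113_s3 t 127 126 1 = true :=
  ⟨(a (l 6) (a (l 6) (b (l 6) (b (l 6) (b (l 6) (a (l 6) (a (c (c (l 16774368) (l 16775168)) (c (l 16773368) (b (l 6) (l 16777040)))) (c (c (l 16773008) (b (l 16773448) (l 16773992))) (c (b (l 16774200) (l 16774696)) (b (l 16774960) (l 16775416))))))))))), by decide +kernel⟩

def k12_A00pm_113_s3 : ∃ t, chk3 f_A00pm_113_s3 t 254 254 1 = true :=
  ⟨(a (l 6) (b (l 6) (b (l 6) (a (l 6) (c (a (b (l 6) (c (l 16773784) (l 16774096))) (c (b (l 16773784) (l 16775368)) (b (l 16774096) (l 16775368)))) (c (c (l 16775872) (l 16775872)) (c (l 16775872) (l 16775872)))))))), by decide +kernel⟩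

def k13_A00pm_113_s3 : ∃ t, chk3 f_A00pm_113_s3 t 508 510 1 = true :=
  ⟨(a (l 6) (b (l 6) (b (a (l 6) (a (l 6) (c (l 16779280) (l 16778680)))) (b (a (l 6) (c (l 16779232) (l 16778496))) (c (c (l 16778800) (l 16779688)) (c (l 16780584) (l 16781496))))))), by decide +kernel⟩

def k14_A00pm_113_s3 : ∃ t, chk3 f_A00pm_113_s3 t 1018 510 1 = true :=
  ⟨(a (b (b (l 6) (b (l 6) (c (l 16776688) (l 16776200)))) (b (c (b (l 16779224) (l 16779168)) (c (l 16780680) (l 16781696))) (c (b (l 16779152) (l 16779168)) (c (l 16780480) (l 16781376))))) (b (a (b (l 6) (c (b (c (l 16778736) (l 16779824)) (l 16779160)) (c (l 16778224) (l 16781944)))) (c (b (c (l 16775224) (l 16776088)) (b (c (b (a (l 16778744) (l 16778944)) (a (l 16778608) (l 16778552))) (b (l 16777312) (l 16779656))) (l 16776416))) (b (b (l 6) (l 16776936)) (b (c (b (l 16781008) (l 16780752)) (l 16782000)) (l 16781168))))) (b (c (b (c (l 16778536) (l 16779536)) (l 16776376)) (c (l 16780488) (l 16781488))) (c (b (l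 16779000) (l 16779040)) (c (l 16780304) (l 16781184)))))), by decide +kernel⟩

def k15_A00pm_113_s3 : ∃ t, chk3 f_A00pm_113_s3 t 1019 1020 1 = true :=
  ⟨(b (c (a (c (l 16776336) (l 16776984)) (c (b (l 16773360) (l 16771984)) (b (l 16773608) (l 16772408)))) (c (a (l 16777640) (l 16773344)) (a (l 16778296) (l 16773688)))) (c (a (b (a (b (c (l 16779472) (l 16780408)) (c (a (b (l 16778768) (l 16778528)) (l 16778952)) (l 16777232))) (c (l 16779880) (l 16780712))) (a (b (a (l 16776336) (b (l 16776392) (l 16776248))) (l 16778880)) (c (b (l 16776224) (a (l 16778264) (b (l 16778480) (l 16778232)))) (b (l 16779808) (a (l 16779304) (l 16779392)))))) (a (b (l 16775760) (c (l 16779240) (l 16780096))) (c (l 16775528) (l 16776136)))) (a (b (a (b (l 16776600) (c (l 16780888) (l 16781928))) (l 16776744)) (b (c (a (l 16780568) (l 16780784)) (l 16779120)) (a (l 16780992) (c (l 16780408) (l 16781456))))) (c (c (l 16776328) (l 16776680)) (c (l 16777032) (l 16777392)))))), by decide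 +kernel⟩

def k16_A00pm_113_s3 : ∃ t, chk3 f_A00pm_113_s3 t 1019 1021 1 = true :=
  ⟨(c (b (a (b (a (l 16776224) (c (l 16778200) (l 16779208))) (c (l 16778280) (l 16779224))) (b (a (c (b (a (b (l 16778208) (l 16778072)) (l 16775760)) (a (l 16778072) (b (l 16778008) (l 16777984)))) (b (a (l 16779168) (l 16779336)) (l 16779024))) (b (c (l 16778960) (l 16779800)) (a (b (l 16776072) (a (l 16775792) (l 16775848))) (l 16776256)))) (a (c (l 16778048) (l 16779000)) (b (b (a (l 16775760) (c (l 16777952) (l 16778912))) (c (l 16777856) (l 16778824))) (l 16775736))))) (a (b (c (l 16778336) (l 16779216)) (l 16776216)) (b (a (l 16775936) (c (l 16777952) (l 16778840))) (a (l 16778632) (l 16775856))))) (b (a (b (c (a (l 16780360) (l 16780224)) (l 16778680)) (c (l 16780184) (l 16781160))) (b (a (c (b (l 16780280) (l 16780032)) (b (l 16781280) (l 16781056))) (c (b (l 16780656) (l 16777552)) (b (l 16781528) (l 16781128)))) (a (l 16777832) (b (a (l 16777744) (c (l 16779840) (l 16780824)))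 (l 16780264))))) (c (a (l 16780080) (b (l 16779824) (l 16779784))) (a (l 16780952) (l 16778056))))), by decide +kernel⟩

def k17_A00pm_113_s3 : ∃ t, chk3 f_A00pm_113_s3 t 254 2044 1 = true :=
  ⟨(a (a (a (l 6) (b (l 6) (b (l 6) (c (l 16778440) (l 16780120))))) (b (c (a (c (l 16778832) (l 16779680)) (c (l 16778872) (l 16779680))) (a (c (l 16780536) (l 16781400)) (c (l 16780488) (l 16781320)))) (c (a (b (c (a (l 16778728) (l 16778888)) (a (l 16779544) (l 16779672))) (l 16778920)) (b (c (l 16778952) (l 16779704)) (c (a (l 16778856) (l 16779000)) (a (l 16779592) (l 16779696))))) (a (a (c (l 16780168) (l 16781000)) (b (c (l 16780464) (l 16781264)) (l 16780576))) (b (c (l 16780464) (l 16781232)) (c (a (l 16780328) (l 16780408)) (a (l 16781080) (l 16781128)))))))) (c (a (b (a (c (l 16778848) (l 16779616)) (c (l 16778744) (l 16779488))) (a (c (l 16778992) (l 16779680)) (c (l 16778904) (l 16779568)))) (b (a (c (l 16778568) (l 16779304)) (c (l 16778320) (l 16779048))) (a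 (c (l 16778752) (l 16779400)) (c (l 16778528) (l 16779160))))) (a (a (b (c (l 16780392) (l 16781184)) (c (l 16780384) (l 16781096))) (b (c (l 16780248) (l 16781016)) (c (l 16780240) (l 16780928)))) (c (b (a (l 16780040) (l 16779784)) (a (l 16780056) (l 16779808))) (b (a (l 16780792) (l 16780536)) (a (l 16780720) (l 16780464))))))), by decide +kernel⟩

def k18_A00pm_113_s3 : ∃ t, chk3 f_A00pm_113_s3 t 508 2045 1 = true :=
  ⟨(a (c (c (l 16776880) (l 16775056)) (c (a (l 16778272) (l 16778696)) (a (l 16779120) (l 16779488)))) (c (a (c (l 16777656) (l 16778368)) (b (c (l 16778480) (l 16779160)) (l 16778096))) (a (c (l 16779096) (l 16779824)) (b (c (l 16779848) (l 16780552)) (c (l 16779064) (l 16779720)))))), by decide +kernel⟩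

def k19_A00pm_113_s3 : ∃ t, chk3 f_A00pm_113_s3 t 509 2045 1 = true :=
  ⟨(b (a (c (c (a (b (a (l 16778952) (l 16779072)) (l 16778752)) (b (l 16779040) (a (l 16779016) (l 16779112)))) (a (b (a (l 16779608) (l 16779696)) (l 16779360)) (b (l 16779640) (a (l 16779584) (l 16779656))))) (a (b (c (a (l 16780264) (l 16780328)) (a (l 16780928) (l 16780968))) (c (l 16779984) (l 16780608))) (b (c (l 16780248) (l 16780864)) (c (a (l 16780168) (l 16780208)) (a (l 16780752) (l 16780776)))))) (c (a (b (c (l 16778920) (l 16779496)) (a (l 16779352) (l 16779264))) (c (b (l 16778712) (l 16778848)) (l 16779320))) (a (c (b (l 16780080) (l 16780104)) (b (l 16780680) (l 16780648))) (c (l 16779872) (b (l 16780432) (l 16780416)))))) (a (c (a (a (c (l 16778112) (l 16778704)) (c (l 16778312) (l 16778880))) (a (l 16778768) (c (l 16778680) (l 16779200)))) (a (a (c (l 16779312) (l 16779928)) (c (l 16779456) (l 16780040))) (a (c (l 16779592) (l 16780144)) (c (l 16779720) (l 16780248)))))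 (c (a (b (a (b (c (l 16779112) (l 16779616)) (l 16779224)) (b (l 16779352) (c (l 16779112) (l 16779576)))) (a (l 16778920) (l 16779096))) (b (c (l 16778992) (l 16779456)) (a (b (c (l 16779096) (l 16779528)) (l 16779168)) (b (l 16779272) (c (l 16779080) (l 16779472)))))) (a (b (a (c (l 16780032) (l 16780544)) (b (l 16780336) (c (l 16780048) (l 16780528)))) (c (l 16779704) (l 16780184))) (b (c (l 16779920) (a (l 16780472) (l 16780344))) (b (a (c (l 16779968) (l 16780408)) (c (l 16779904) (l 16780336))) (a (l 16780016) (c (l 16779872) (l 16780280))))))))), by decide +kernel⟩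

def k20_A00pm_113_s3 : ∃ t, chk3 f_A00pm_113_s3 t 508 1023 1 = true :=
  ⟨(a (b (c (c (l 16775488) (a (l 16775952) (l 16776432))) (c (a (l 16776696) (l 16777128)) (a (l 16777448) (l 16777832)))) (c (a (c (l 16773848) (l 16774504)) (c (l 16774376) (l 16774984))) (c (a (l 16775160) (l 16775600)) (a (l 16775832) (l 16776224))))) (b (c (b (a (l 16776928) (c (l 16777072) (l 16777672))) (a (l 16776208) (a (c (l 16776256) (l 16776832)) (c (l 16776448) (l 16776992))))) (a (c (l 16777528) (l 16778176)) (b (c (l 16778280) (l 16778896)) (c (a (l 16777416) (l 16777552)) (a (l 16778016) (l 16778120)))))) (b (a (c (c (l 16775208) (l 16775792)) (c (l 16776376) (l 16776976))) (a (c (c (l 16775512) (l 16776056)) (c (l 16776608) (l 16777160))) (c (l 16775904) (l 16776952)))) (a (c (a (b (l 16774864) (l 16774504)) (b (l 16775056) (l 16774648))) (a (c (l 16775528) (l 16776104)) (c (l 16775656) (l 16776208)))) (c (c (l 16774752) (l 16775248)) (c (l 16775744) (l 16776256))))))), by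 decide +kernel⟩

def k21_A00pm_113_s3 : ∃ t, chk3 f_A00pm_113_s3 t 509 1023 1 = true :=
  ⟨(b (a (c (c (a (b (l 16777464) (l 16776672)) (b (l 16777808) (l 16776976))) (a (b (l 16778008) (l 16777184)) (b (l 16778296) (l 16777432)))) (a (b (c (a (l 16778504) (l 16778624)) (a (l 16779080) (l 16779168))) (c (l 16777704) (l 16778224))) (c (b (l 16778792) (l 16777896)) (b (l 16779296) (l 16778368))))) (b (a (c (c (l 16778160) (l 16778592)) (c (l 16779032) (l 16779480))) (b (c (a (l 16778840) (l 16779008)) (c (l 16779520) (l 16779920))) (c (l 16778480) (c (l 16779048) (l 16779432))))) (c (a (c (l 16777288) (l 16777696)) (c (l 16777608) (l 16777960))) (a (c (l 16778104) (l 16778512)) (c (l 16778320) (a (l 16778640) (l 16778720))))))) (a (c (a (b (c (l 16775848) (l 16776320)) (c (l 16774976) (l 16775416))) (b (c (l 16776112) (l 16776536)) (c (l 16775208) (l 16775592)))) (a (c (b (l 16776800) (l 16775864)) (b (l 16777288) (l 16776320))) (c (b (l 16776960) (l 16775992))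 (b (l 16777392) (l 16776392))))) (a (b (c (c (l 16776384) (l 16776752)) (c (l 16777128) (l 16777512))) (c (c (l 16775440) (l 16775776)) (c (l 16776128) (l 16776472)))) (b (c (c (l 16776664) (l 16776984)) (c (l 16777312) (a (l 16777608) (l 16777680)))) (c (c (l 16775680) (l 16775976)) (c (a (l 16776232) (l 16776304)) (a (l 16776544) (l 16776600)))))))), by decide +kernel⟩

def k22_A00pm_113_s3 : ∃ t, chk3 f_A00pm_113_s3 t 510 508 1 = true :=
  ⟨(b (l 6) (a (l 6) (a (a (l 6) (b (l 6) (c (l 16779272) (l 16781256)))) (a (b (l 6) (c (l 16779232) (l 16778496))) (c (c (l 16778800) (l 16779688)) (c (l 16780584) (l 16781496))))))), by decide +kernel⟩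

def k23_A00pm_113_s3 : ∃ t, chk3 f_A00pm_113_s3 t 510 1018 1 = true :=
  ⟨(b (a (a (l 6) (a (l 6) (c (l 16776688) (l 16776200)))) (a (c (a (l 16779224) (l 16779168)) (c (l 16780680) (l 16781696))) (c (a (l 16779152) (l 16779168)) (c (l 16780480) (l 16781376))))) (a (b (a (l 6) (c (a (c (l 16778736) (l 16779824)) (l 16779160)) (c (l 16778224) (l 16781944)))) (c (a (c (l 16775224) (l 16776088)) (a (c (a (b (l 16778744) (l 16778944)) (b (l 16778608) (l 16778552))) (a (l 16777312) (l 16779656))) (l 16776416))) (a (a (l 6) (l 16776936)) (a (c (a (l 16781008) (l 16780752)) (l 16782000)) (l 16781168))))) (a (c (a (c (l 16778536) (l 16779536)) (l 16776376)) (c (l 16780488) (l 16781488))) (c (a (l 16779000) (l 16779040)) (c (l 16780304) (l 16781184)))))), by decide +kernel⟩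

def k24_A00pm_113_s3 : ∃ t, chk3 f_A00pm_113_s3 t 1020 1019 1 = true :=
  ⟨(a (c (b (c (l 16776336) (l 16776984)) (c (a (l 16773360) (l 16771984)) (a (l 16773608) (l 16772408)))) (c (b (l 16777640) (l 16773344)) (b (l 16778296) (l 16773688)))) (c (b (a (b (a (c (l 16779472) (l 16780408)) (c (b (a (l 16778768) (l 16778528)) (l 16778952)) (l 16777232))) (c (l 16779880) (l 16780712))) (b (a (b (l 16776336) (a (l 16776392) (l 16776248))) (l 16778880)) (c (a (l 16776224) (b (l 16778264) (a (l 16778480) (l 16778232)))) (a (l 16779808) (b (l 16779304) (l 16779392)))))) (b (a (l 16775760) (c (l 16779240) (l 16780096))) (c (l 16775528) (l 16776136)))) (b (a (b (a (l 16776600) (c (l 16780888) (l 16781928))) (l 16776744)) (a (c (b (l 16780568) (l 16780784)) (l 16779120)) (b (l 16780992) (c (l 16780408) (l 16781456))))) (c (c (l 16776328) (l 16776680)) (c (l 16777032) (l 16777392)))))), by decide +kernel⟩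

def k25_A00pm_113_s3 : ∃ t, chk3 f_A00pm_113_s3 t 1021 1019 1 = true :=
  ⟨(c (a (b (a (b (l 16776224) (c (l 16778200) (l 16779208))) (c (l 16778280) (l 16779224))) (a (b (c (a (b (a (l 16778208) (l 16778072)) (l 16775760)) (b (l 16778072) (a (l 16778008) (l 16777984)))) (a (b (l 16779168) (l 16779336)) (l 16779024))) (a (c (l 16778960) (l 16779800)) (b (a (l 16776072) (b (l 16775792) (l 16775848))) (l 16776256)))) (b (c (l 16778048) (l 16779000)) (a (a (b (l 16775760) (c (l 16777952) (l 16778912))) (c (l 16777856) (l 16778824))) (l 16775736))))) (b (a (c (l 16778336) (l 16779216)) (l 16776216)) (a (b (l 16775936) (c (l 16777952) (l 16778840))) (b (l 16778632) (l 16775856))))) (a (b (a (c (b (l 16780360) (l 16780224)) (l 16778680)) (c (l 16780184) (l 16781160))) (a (b (c (a (l 16780280) (l 16780032)) (a (l 16781280) (l 16781056))) (c (a (l 16780656) (l 16777552)) (a (l 16781528) (l 16781128)))) (b (l 16777832) (a (b (l 16777744) (c (l 16779840) (l 16780824)))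 (l 16780264))))) (c (b (l 16780080) (a (l 16779824) (l 16779784))) (b (l 16780952) (l 16778056))))), by decide +kernel⟩

def k26_A00pm_113_s3 : ∃ t, chk3 f_A00pm_113_s3 t 2044 254 1 = true :=
  ⟨(b (b (b (l 6) (a (l 6) (a (l 6) (c (l 16778440) (l 16780120))))) (a (c (b (c (l 16778832) (l 16779680)) (c (l 16778872) (l 16779680))) (b (c (l 16780536) (l 16781400)) (c (l 16780488) (l 16781320)))) (c (b (a (c (b (l 16778728) (l 16778888)) (b (l 16779544) (l 16779672))) (l 16778920)) (a (c (l 16778952) (l 16779704)) (c (b (l 16778856) (l 16779000)) (b (l 16779592) (l 16779696))))) (b (b (c (l 16780168) (l 16781000)) (a (c (l 16780464) (l 16781264)) (l 16780576))) (a (c (l 16780464) (l 16781232)) (c (b (l 16780328) (l 16780408)) (b (l 16781080) (l 16781128)))))))) (c (b (a (b (c (l 16778848) (l 16779616)) (c (l 16778744) (l 16779488))) (b (c (l 16778992) (l 16779680)) (c (l 16778904) (l 16779568)))) (a (b (c (l 16778568) (l 16779304)) (c (l 16778320) (l 16779048))) (b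 (c (l 16778752) (l 16779400)) (c (l 16778528) (l 16779160))))) (b (b (a (c (l 16780392) (l 16781184)) (c (l 16780384) (l 16781096))) (a (c (l 16780248) (l 16781016)) (c (l 16780240) (l 16780928)))) (c (a (b (l 16780040) (l 16779784)) (b (l 16780056) (l 16779808))) (a (b (l 16780792) (l 16780536)) (b (l 16780720) (l 16780464))))))), by decide +kernel⟩

def k27_A00pm_113_s3 : ∃ t, chk3 f_A00pm_113_s3 t 2045 508 1 = true :=
  ⟨(b (c (c (l 16776880) (l 16775056)) (c (b (l 16778272) (l 16778696)) (b (l 16779120) (l 16779488)))) (c (b (c (l 16777656) (l 16778368)) (a (c (l 16778480) (l 16779160)) (l 16778096))) (b (c (l 16779096) (l 16779824)) (a (c (l 16779848) (l 16780552)) (c (l 16779064) (l 16779720)))))), by decide +kernel⟩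

def k28_A00pm_113_s3 : ∃ t, chk3 f_A00pm_113_s3 t 2045 509 1 = true :=
  ⟨(a (b (c (c (b (a (b (l 16778952) (l 16779072)) (l 16778752)) (a (l 16779040) (b (l 16779016) (l 16779112)))) (b (a (b (l 16779608) (l 16779696)) (l 16779360)) (a (l 16779640) (b (l 16779584) (l 16779656))))) (b (a (c (b (l 16780264) (l 16780328)) (b (l 16780928) (l 16780968))) (c (l 16779984) (l 16780608))) (a (c (l 16780248) (l 16780864)) (c (b (l 16780168) (l 16780208)) (b (l 16780752) (l 16780776)))))) (c (b (a (c (l 16778920) (l 16779496)) (b (l 16779352) (l 16779264))) (c (a (l 16778712) (l 16778848)) (l 16779320))) (b (c (a (l 16780080) (l 16780104)) (a (l 16780680) (l 16780648))) (c (l 16779872) (a (l 16780432) (l 16780416)))))) (b (c (b (b (c (l 16778112) (l 16778704)) (c (l 16778312) (l 16778880))) (b (l 16778768) (c (l 16778680) (l 16779200)))) (b (b (c (l 16779312) (l 16779928)) (c (l 16779456) (l 16780040))) (b (c (l 16779592) (l 16780144)) (c (l 16779720) (l 16780248)))))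 (c (b (a (b (a (c (l 16779112) (l 16779616)) (l 16779224)) (a (l 16779352) (c (l 16779112) (l 16779576)))) (b (l 16778920) (l 16779096))) (a (c (l 16778992) (l 16779456)) (b (a (c (l 16779096) (l 16779528)) (l 16779168)) (a (l 16779272) (c (l 16779080) (l 16779472)))))) (b (a (b (c (l 16780032) (l 16780544)) (a (l 16780336) (c (l 16780048) (l 16780528)))) (c (l 16779704) (l 16780184))) (a (c (l 16779920) (b (l 16780472) (l 16780344))) (a (b (c (l 16779968) (l 16780408)) (c (l 16779904) (l 16780336))) (b (l 16780016) (c (l 16779872) (l 16780280))))))))), by decide +kernel⟩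

def k29_A00pm_113_s3 : ∃ t, chk3 f_A00pm_113_s3 t 1023 508 1 = true :=
  ⟨(b (a (c (c (l 16775488) (b (l 16775952) (l 16776432))) (c (b (l 16776696) (l 16777128)) (b (l 16777448) (l 16777832)))) (c (b (c (l 16773848) (l 16774504)) (c (l 16774376) (l 16774984))) (c (b (l 16775160) (l 16775600)) (b (l 16775832) (l 16776224))))) (a (c (a (b (l 16776928) (c (l 16777072) (l 16777672))) (b (l 16776208) (b (c (l 16776256) (l 16776832)) (c (l 16776448) (l 16776992))))) (b (c (l 16777528) (l 16778176)) (a (c (l 16778280) (l 16778896)) (c (b (l 16777416) (l 16777552)) (b (l 16778016) (l 16778120)))))) (a (b (c (c (l 16775208) (l 16775792)) (c (l 16776376) (l 16776976))) (b (c (c (l 16775512) (l 16776056)) (c (l 16776608) (l 16777160))) (c (l 16775904) (l 16776952)))) (b (c (b (a (l 16774864) (l 16774504)) (a (l 16775056) (l 16774648))) (b (c (l 16775528) (l 16776104)) (c (l 16775656) (l 16776208)))) (c (c (l 16774752) (l 16775248)) (c (l 16775744) (l 16776256))))))), by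 decide +kernel⟩

def k30_A00pm_113_s3 : ∃ t, chk3 f_A00pm_113_s3 t 1023 509 1 = true :=
  ⟨(a (b (c (c (b (a (l 16777464) (l 16776672)) (a (l 16777808) (l 16776976))) (b (a (l 16778008) (l 16777184)) (a (l 16778296) (l 16777432)))) (b (a (c (b (l 16778504) (l 16778624)) (b (l 16779080) (l 16779168))) (c (l 16777704) (l 16778224))) (c (a (l 16778792) (l 16777896)) (a (l 16779296) (l 16778368))))) (a (b (c (c (l 16778160) (l 16778592)) (c (l 16779032) (l 16779480))) (a (c (b (l 16778840) (l 16779008)) (c (l 16779520) (l 16779920))) (c (l 16778480) (c (l 16779048) (l 16779432))))) (c (b (c (l 16777288) (l 16777696)) (c (l 16777608) (l 16777960))) (b (c (l 16778104) (l 16778512)) (c (l 16778320) (b (l 16778640) (l 16778720))))))) (b (c (b (a (c (l 16775848) (l 16776320)) (c (l 16774976) (l 16775416))) (a (c (l 16776112) (l 16776536)) (c (l 16775208) (l 16775592)))) (b (c (a (l 16776800) (l 16775864)) (a (l 16777288) (l 16776320))) (c (a (l 16776960) (l 16775992))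 (a (l 16777392) (l 16776392))))) (b (a (c (c (l 16776384) (l 16776752)) (c (l 16777128) (l 16777512))) (c (c (l 16775440) (l 16775776)) (c (l 16776128) (l 16776472)))) (a (c (c (l 16776664) (l 16776984)) (c (l 16777312) (b (l 16777608) (l 16777680)))) (c (c (l 16775680) (l 16775976)) (c (b (l 16776232) (l 16776304)) (b (l 16776544) (l 16776600)))))))), by decide +kernel⟩

def k31_A00pm_113_s3 : ∃ t, chk3 f_A00pm_113_s3 t 2040 510 1 = true :=
  ⟨(b (c (b (c (l 16774360) (l 16774360)) (c (b (l 16772264) (l 16776072)) (b (l 16772528) (l 16776528)))) (c (b (l 16774360) (b (l 16772800) (l 16776984))) (b (l 16774360) (c (l 16772544) (l 16772728))))) (c (b (c (b (c (l 16774456) (l 16774776)) (a (b (a (b (l 16778288) (l 16777952)) (l 16778520)) (a (b (l 16777760) (l 16777752)) (b (l 16777976) (a (l 16777680) (l 16777744))))) (b (l 16779176) (l 16775808)))) (b (c (l 16775096) (l 16780656)) (a (b (l 16776592) (a (l 16778704) (b (l 16778880) (l 16778664)))) (b (l 16779880)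 (l 16779232))))) (b (a (b (c (l 16777720) (l 16778640)) (l 16775608)) (b (a (b (a (c (l 16777640) (l 16778560)) (l 16775584)) (c (l 16777592) (l 16778504))) (b (l 16775864) (a (c (l 16777632) (l 16778528)) (l 16778224)))) (a (l 16778080) (b (a (l 16777984) (c (l 16777536) (l 16778424))) (l 16777984))))) (a (c (l 16777896) (l 16778712)) (c (l 16777696) (l 16778520))))) (c (b (b (l 16775904) (a (b (l 16780096) (a (l 16779664) (l 16779720))) (l 16775072))) (b (a (l 16779568) (b (a (l 16779504) (l 16779632)) (a (l 16779416) (l 16779336)))) (l 16779456))) (b (b (l 16776560) (a (a (l 16778168) (l 16778248)) (l 16775840))) (b (a (l 16780496) (b (l 16780496) (l 16780288))) (l 16780304)))))), by decide +kernel⟩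

def k32_A00pm_113_s3 : ∃ t, chk3 f_A00pm_113_s3 t 2041 510 1 = true :=
  ⟨(b (c (c (b (a (l 16772264) (l 16776072)) (a (l 16772888) (l 16772624))) (b (a (l 16772528) (l 16776528)) (b (l 16772976) (l 16772720)))) (c (b (a (l 16772800) (l 16776984)) (c (l 16773344) (l 16773344))) (b (c (l 16772544) (l 16772728)) (c (l 16773344) (l 16773344))))) (b (b (a (c (l 16776136) (l 16776896)) (c (l 16776968) (l 16777352))) (c (a (c (l 16774448) (l 16775024)) (c (l 16775376) (l 16775768))) (c (l 16775880) (l 16776376)))) (c (b (c (a (b (l 16778552) (a (b (l 16777768) (a (l 16777464) (l 16777528))) (l 16778008))) (b (l 16779472) (l 16778704))) (a (b (l 16779272) (a (b (l 16778608) (l 16778392)) (l 16778792))) (l 16774440))) (a (c (b (a (l 16777488) (b (a (l 16777432) (l 16777552)) (l 16777392))) (l 16777520)) (b (a (l 16778344) (b (l 16778360) (l 16778248))) (l 16778336))) (a (b (b (l 16775640) (a (c (l 16777432) (l 16778272)) (l 16778000))) (b (c (a (l 16777344) (b (l 16777360)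 (l 16777296))) (l 16778184)) (l 16777768))) (b (l 16775880) (c (b (a (l 16777464) (l 16777680)) (a (l 16777280) (b (l 16777392) (l 16777264)))) (b (l 16778360) (a (l 16778104) (l 16778152)))))))) (b (c (a (b (l 16780008) (a (l 16779392) (l 16779584))) (l 16775040)) (b (l 16775696) (a (l 16777728) (l 16780664)))) (a (b (b (a (l 16777040) (l 16777032)) (c (l 16779160) (l 16780032))) (l 16776960)) (b (c (l 16776840) (l 16777600)) (c (a (l 16779024) (b (l 16779152) (l 16778960))) (a (l 16779872) (l 16779896))))))))), by decide +kernel⟩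

def k33_A00pm_113_s3 : ∃ t, chk3 f_A00pm_113_s3 t 2042 510 1 = true :=
  ⟨(b (b (c (c (a (c (l 16774456) (l 16774776)) (b (a (b (a (l 16778288) (l 16777952)) (l 16778520)) (b (a (l 16777760) (l 16777752)) (a (l 16777976) (b (l 16777680) (l 16777744))))) (a (l 16779176) (l 16775808)))) (a (c (l 16775096) (l 16780656)) (b (a (l 16776592) (b (l 16778704) (a (l 16778880) (l 16778664)))) (a (l 16779880) (l 16779232))))) (a (c (l 16775904) (l 16776560)) (b (c (a (l 16780096) (b (l 16779664) (l 16779720))) (b (l 16778168) (l 16778248))) (c (l 16775072) (l 16775840))))) (a (b (c (l 16776136) (l 16776896)) (c (l 16776968) (l 16777352))) (c (b (c (l 16774448) (l 16775024)) (c (l 16775376) (l 16775768))) (c (l 16775880) (l 16776376))))) (b (a (b (c (l 16777832) (l 16777832)) (c (c (l 16776336) (l 16776528)) (c (l 16776736) (l 16771696)))) (c (c (b (l 16776336) (l 16772080)) (l 16776928)) (c (l 16777024) (l 16777128)))) (b (c (a (c (l 16774800) (l 16775208)) (c (l 16775792)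 (l 16776000))) (c (l 16775904) (l 16776216))) (a (b (c (a (l 16776312) (l 16776752)) (c (l 16780000) (l 16780576))) (c (c (c (l 16775304) (l 16778256)) (l 16776136)) (c (l 16776816) (l 16780120)))) (c (c (c (l 16774120) (l 16774328)) (c (l 16774536) (l 16774744))) (c (l 16775064) (l 16775488))))))), by decide +kernel⟩

def k34_A00pm_113_s3 : ∃ t, chk3 f_A00pm_113_s3 t 4086 510 1 = true :=
  ⟨(b (c (b (b (a (c (l 16777720) (l 16778640)) (l 16775608)) (a (b (a (b (c (l 16777640) (l 16778560)) (l 16775584)) (c (l 16777592) (l 16778504))) (a (l 16775864) (b (c (l 16777632) (l 16778528)) (l 16778224)))) (b (l 16778080) (a (b (l 16777984) (c (l 16777536) (l 16778424))) (l 16777984))))) (c (b (a (l 16778552) (b (a (l 16777768) (b (l 16777464) (l 16777528))) (l 16778008))) (a (l 16779472) (l 16778704))) (b (a (l 16779272) (b (a (l 16778608) (l 16778392)) (l 16778792))) (l 16774440)))) (b (b (c (l 16779568) (l 16780496)) (a (c (b (l 16779504) (l 16779632)) (l 16780496))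 (b (l 16779872) (c (l 16779336) (l 16780248))))) (c (b (a (l 16780008) (b (l 16779392) (l 16779584))) (l 16775040)) (a (l 16775696) (b (l 16777728) (l 16780664)))))) (b (c (b (c (l 16774800) (l 16775208)) (c (l 16775792) (l 16776000))) (c (l 16775904) (l 16776216))) (b (c (c (l 16776816) (l 16776816)) (c (l 16776816) (l 16776816))) (c (c (l 16775248) (l 16775456)) (c (l 16775672) (l 16775896)))))), by decide +kernel⟩

def k35_A00pm_113_s3 : ∃ t, chk3 f_A00pm_113_s3 t 4087 510 1 = true :=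
  ⟨(b (b (c (b (c (l 16777896) (l 16778712)) (c (l 16777696) (l 16778520))) (c (l 16779456) (l 16780304))) (c (b (c (a (b (l 16777488) (a (b (l 16777432) (l 16777552)) (l 16777392))) (l 16777520)) (a (b (l 16778344) (a (l 16778360) (l 16778248))) (l 16778336))) (b (a (a (l 16775640) (b (c (l 16777432) (l 16778272)) (l 16778000))) (a (c (b (l 16777344) (a (l 16777360) (l 16777296))) (l 16778184)) (l 16777768))) (a (l 16775880) (c (a (b (l 16777464) (l 16777680)) (b (l 16777280) (a (l 16777392) (l 16777264)))) (a (l 16778360) (b (l 16778104) (l 16778152))))))) (b (a (a (b (l 16777040) (l 16777032)) (c (l 16779160) (l 16780032))) (l 16776960)) (a (c (l 16776840) (l 16777600)) (c (b (l 16779024) (a (l 16779152) (l 16778960))) (b (l 16779872) (l 16779896))))))) (c (c (b (a (b (l 16778872) (l 16779864)) (b (c (l 16775304) (l 16778256)) (l 16776448))) (b (l 16775248) (l 16776312))) (b (a (c (l 16774464) (l 16774696)) (b (l 16776136) (l 16779536))) (b (l 16775456) (l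 16776312)))) (b (b (c (a (l 16780000) (l 16776816)) (b (l 16775008) (l 16780440))) (c (l 16775064) (l 16775488))) (c (c (l 16775960) (l 16776016)) (c (l 16776072) (l 16776128)))))), by decide +kernel⟩

def k36_A00pm_113_s3 : ∃ t, chk3 f_A00pm_113_s3 t 1020 1022 1 = true :=
  ⟨(b (b (c (a (a (l 16775816) (c (l 16777888) (l 16778624))) (a (c (l 16777672) (l 16778424)) (b (a (l 16777832) (c (l 16777320) (l 16778112))) (c (l 16777504) (l 16778240))))) (b (a (l 16777224) (a (l 16779576) (c (l 16778960) (l 16779776)))) (a (l 16777216) (a (l 16779568) (l 16776752))))) (a (c (c (l 16778216) (l 16778856)) (c (l 16779504) (l 16780168))) (c (a (c (l 16777928) (l 16778576)) (c (l 16777704) (l 16778368))) (c (a (l 16779240) (l 16779040)) (l 16779816))))) (b (c (a (c (b (l 16778424) (l 16778576)) (b (l 16778984) (l 16779088))) (b (c (l 16778048) (l 16778624)) (c (l 16778208) (l 16778736)))) (a (c (b (l 16779560) (l 16779608)) (b (l 16780144) (l 16780136))) (c (b (l 16779208)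 (l 16779264)) (b (l 16779800) (l 16779800))))) (a (c (b (c (l 16778736) (l 16779192)) (a (c (l 16778992) (l 16779392)) (l 16779040))) (b (c (l 16779656) (l 16780128)) (c (a (l 16779800) (l 16779648)) (a (l 16780208) (l 16780056))))) (c (b (c (l 16778392) (l 16778856)) (c (l 16778584) (l 16778984))) (b (c (l 16779328) (l 16779800)) (c (l 16779400) (l 16779808))))))), by decide +kernel⟩

def k37_A00pm_113_s3 : ∃ t, chk3 f_A00pm_113_s3 t 1021 4088 1 = true :=
  ⟨(c (b (c (a (a (a (b (a (b (l 16777272) (l 16777208)) (l 16777384)) (a (l 16777256) (l 16777200))) (b (l 16777720) (a (b (l 16777312) (l 16777184)) (l 16777440)))) (l 16775648)) (a (b (l 16779488) (l 16779088)) (l 16775104))) (a (a (a (b (a (l 16778056) (l 16778152)) (l 16778008)) (b (l 16778424) (a (l 16778032) (l 16778176)))) (l 16776224)) (a (l 16774424) (l 16775272)))) (a (a (a (c (l 16777312) (l 16778064)) (b (a (c (l 16777184) (l 16777952)) (c (b (l 16777192) (l 16777136)) (l 16777936))) (l 16777592)))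 (a (c (b (a (l 16777304) (l 16777528)) (a (b (l 16777112) (l 16777128)) (b (l 16777232) (l 16777112)))) (b (l 16778136) (a (l 16777872) (l 16777928)))) (c (c (l 16777544) (l 16777864)) (l 16778352)))) (c (a (b (l 16778680) (l 16775648)) (l 16774296)) (a (l 16776344) (l 16774568))))) (a (a (b (c (a (b (l 16778912) (l 16778808)) (l 16776400)) (a (l 16779680) (l 16779760))) (a (l 16779216) (b (a (l 16776512) (l 16776488)) (l 16779104)))) (b (c (l 16779432) (l 16780032)) (c (a (b (l 16778864) (l 16778672)) (l 16779000)) (a (l 16776904) (l 16779656))))) (c (c (a (l 16774400) (l 16775088)) (l 16774904)) (c (l 16775072) (l 16775248))))), by decide +kernel⟩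

def k38_A00pm_113_s3 : ∃ t, chk3 f_A00pm_113_s3 t 1021 4089 1 = true :=
  ⟨(c (a (c (a (b (l 16777384) (l 16777536)) (b (a (l 16777192) (b (a (b (l 16777120) (l 16777064)) (b (l 16777320) (l 16777144))) (a (l 16777120) (b (l 16777048) (l 16777064))))) (l 16777272))) (a (l 16778136) (b (a (l 16777904) (b (a (l 16777832) (l 16777936)) (l 16777800))) (l 16777944)))) (a (a (a (b (b (l 16775176) (b (c (l 16777168) (l 16777864)) (c (a (l 16777016) (l 16777048)) (l 16777752)))) (c (l 16777096) (l 16777776))) (b (c (l 16774904) (l 16778152)) (b (b (c (a (l 16777008) (l 16777080)) (l 16777744)) (c (l 16777000) (l 16777696))) (l 16777400)))) (b (c (l 16777912) (l 16778464)) (c (b (a (b (l 16777264) (l 16777080)) (l 16777416)) (a (b (a (l 16776984) (l 16776984)) (l 16777016)) (b (l 16777112) (a (l 16776960) (l 16776992))))) (b (a (l 16777840) (l 16778032)) (a (l 16777680) (b (l 16777768) (l 16777656))))))) (b (c (c (l 16775992) (l 16778808)) (b (l 16779280) (l 16778920)))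 (a (c (c (l 16777472) (l 16777744)) (l 16775544)) (c (l 16775528) (l 16778600)))))) (a (c (a (l 16778824) (b (a (l 16778632) (b (l 16778624) (l 16778520))) (l 16778616))) (a (l 16779520) (b (a (l 16779368) (b (l 16779352) (l 16779256))) (l 16779304)))) (b (a (c (a (b (l 16778856) (l 16778600)) (l 16779016)) (b (l 16779600) (l 16776768))) (c (b (l 16779648) (l 16779344)) (l 16774656))) (a (a (b (c (l 16778448) (l 16779160)) (l 16778792)) (c (b (l 16778584) (a (l 16778360) (l 16778392))) (b (l 16779232) (l 16779072)))) (c (a (l 16776112) (l 16779056)) (c (l 16779296) (l 16779552))))))), by decide +kernel⟩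

def k39_A00pm_113_s3 : ∃ t, chk3 f_A00pm_113_s3 t 1021 2045 1 = true :=
  ⟨(a (b (c (c (a (l 16777792) (b (l 16777448) (l 16777632))) (a (l 16778360) (b (l 16778056) (l 16778184)))) (c (a (l 16778928) (l 16778704)) (a (l 16779512) (l 16779304)))) (a (c (c (l 16778168) (l 16778616)) (c (l 16779072) (l 16779528))) (c (b (c (l 16777832) (l 16778320)) (c (l 16778040) (l 16778464))) (c (l 16778856) (l 16779328))))) (c (b (a (b (a (c (l 16777240) (l 16777864)) (c (b (l 16777040) (l 16777136)) (l 16777728))) (c (l 16777352) (l 16777928))) (b (b (c (a (a (b (a (l 16776952) (l 16777024)) (l 16776952)) (b (l 16777216) (a (l 16776968) (l 16777072)))) (l 16777512)) (a (a (b (l 16777656) (l 16777600)) (l 16777752)) (l 16778056))) (a (a (l 16777336) (c (b (a (l 16776936) (l 16776928)) (l 16776968)) (l 16777584))) (a (b (c (l 16777072) (l 16777680)) (c (a (l 16776912) (l 16776952)) (l 16777568))) (c (l 16777224) (l 16777792))))) (a (c (l 16777128) (l 16777720)) (b (a (c (l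 16776960) (l 16777576)) (b (c (a (l 16776912) (l 16776984)) (l 16777568)) (c (l 16776912) (l 16777520)))) (c (l 16777024) (l 16777608)))))) (a (b (c (l 16777560) (l 16778072)) (c (l 16777784) (l 16778224))) (b (c (a (l 16777344) (l 16777192)) (l 16777792)) (c (l 16777496) (l 16777960))))) (b (c (a (b (a (l 16778496) (l 16778368)) (l 16778504)) (b (a (b (a (l 16778296) (l 16778376)) (l 16778256)) (b (l 16778600) (a (l 16778264) (l 16778376)))) (a (l 16778312) (b (a (l 16778192) (l 16778168)) (l 16778200))))) (a (c (l 16778936) (l 16779248)) (b (a (b (l 16779000) (l 16778912)) (b (l 16779160) (l 16778944))) (a (l 16778920) (b (l 16778816) (l 16778800)))))) (c (a (b (l 16778584) (l 16778672)) (b (l 16778328) (l 16778424))) (b (a (l 16779104) (l 16778872)) (a (l 16779128) (l 16778904))))))), by decide +kernel⟩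

def k40_A00pm_113_s3 : ∃ t, chk3 f_A00pm_113_s3 t 1020 2046 1 = true :=
  ⟨(b (c (a (b (a (b (c (l 16779048) (l 16779408)) (l 16779072)) (b (l 16779160) (c (a (l 16779008) (l 16779024)) (a (l 16779344) (l 16779352))))) (a (l 16778728) (l 16778888))) (b (a (c (l 16778888) (l 16779224)) (c (l 16778696) (l 16779040))) (a (b (a (b (l 16779160) (l 16779080)) (b (l 16779120) (l 16779120))) (l 16778936)) (b (c (l 16778864) (l 16779160)) (a (b (l 16779088) (l 16779008)) (b (l 16779040) (l 16779048))))))) (a (a (b (b (c (l 16779776) (l 16780144)) (l 16779776)) (l 16779408)) (b (b (c (l 16779696) (l 16780064)) (c (l 16779664) (l 16780008))) (c (l 16779360) (l 16779688)))) (b (a (c (l 16779568) (l 16779912)) (c (l 16779392) (l 16779744))) (a (b (c (a (l 16779568) (l 16779560)) (a (l 16779872) (l 16779864))) (l 16779520)) (b (c (l 16779456) (l 16779760)) (c (a (l 16779440) (l 16779440)) (a (l 16779720) (l 16779712)))))))) (a (c (c (l 16777936) (a (l 16778168) (l 16778312)))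 (a (c (l 16778488) (l 16778808)) (c (l 16778608) (l 16778904)))) (a (c (c (l 16778184) (l 16778456)) (c (l 16778720) (l 16779000))) (b (c (b (l 16778856) (l 16778608)) (c (l 16779112) (l 16779368))) (c (l 16778216) (l 16778704)))))), by decide +kernel⟩

def k41_A00pm_113_s3 : ∃ t, chk3 f_A00pm_113_s3 t 1021 4092 1 = true :=
  ⟨(a (a (b (c (c (l 16778496) (l 16778848)) (c (l 16779200) (l 16779560))) (c (c (l 16778736) (l 16779016)) (c (l 16779304) (l 16779592)))) (b (c (c (l 16778264) (l 16778624)) (c (l 16778992) (l 16779368))) (c (c (l 16778512) (l 16778800)) (c (l 16779096) (l 16779400))))) (a (b (c (c (l 16778016) (l 16778392)) (c (l 16778768) (l 16779152))) (c (c (l 16778264) (l 16778568)) (c (l 16778880) (l 16779192)))) (b (c (c (l 16777736) (l 16778128)) (c (l 16778528) (l 16778936))) (c (c (l 16778000) (l 16778320)) (c (l 16778640) (l 16778976)))))), by decide +kernel⟩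

def k42_A00pm_113_s3 : ∃ t, chk3 f_A00pm_113_s3 t 1021 4093 1 = true :=
  ⟨(a (b (c (a (b (a (b (l 16779000) (l 16778920)) (b (l 16778952) (l 16778960))) (l 16778768)) (b (c (l 16778696) (l 16778936)) (a (c (l 16778752) (l 16778960)) (b (l 16778848) (c (l 16778760) (l 16778960)))))) (a (b (c (a (l 16779312) (l 16779304)) (a (l 16779560) (l 16779544))) (c (l 16779104) (l 16779336))) (b (c (l 16779176) (l 16779424)) (c (a (l 16779176) (l 16779160)) (a (l 16779392) (l 16779376)))))) (a (c (l 16778376) (c (l 16778704) (l 16778920))) (c (b (l 16778664) (l 16778400)) (c (l 16778824) (l 16779024))))) (b (a (b (c (c (l 16778464) (l 16778712)) (c (l 16778968) (l 16779224))) (c (c (l 16778600) (l 16778808)) (c (l 16779024) (l 16779248)))) (c (c (b (l 16778200) (l 16778344)) (b (l 16778464) (l 16778568))) (c (b (l 16778736) (l 16778800)) (c (l 16778960) (l 16779088))))) (a (a (b (c (b (c (l 16778712) (l 16778896)) (l 16778720)) (b (c (l 16779088) (l 16779280)) (l 16779080)))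 (c (l 16778512) (l 16778872))) (b (c (b (l 16778736) (c (l 16778664) (l 16778840))) (b (l 16779120) (c (l 16779008) (l 16779192)))) (c (l 16778592) (l 16778928)))) (b (c (c (l 16778488) (l 16778672)) (c (l 16778864) (l 16779056))) (c (a (b (c (l 16778616) (l 16778768)) (l 16778600)) (b (l 16778616) (c (l 16778560) (l 16778704)))) (a (b (c (l 16778936) (l 16779096)) (l 16778912)) (b (l 16778944) (c (l 16778856) (l 16779008))))))))), by decide +kernel⟩

def k43_A00pm_113_s3 : ∃ t, chk3 f_A00pm_113_s3 t 510 2047 1 = true :=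
  ⟨(a (a (b (c (c (a (l 16776880) (l 16777024)) (a (l 16777168) (l 16777288))) (c (a (l 16777456) (l 16777552)) (a (l 16777752) (l 16777824)))) (c (a (c (l 16775864) (l 16776120)) (c (l 16775992) (l 16776224))) (c (a (l 16776384) (l 16776464)) (a (l 16776648) (l 16776704))))) (b (b (c (a (l 16777552) (l 16777696)) (c (l 16777984) (l 16778224))) (c (a (l 16777032) (l 16777160)) (c (l 16777432) (l 16777664)))) (b (c (a (l 16776496) (l 16776616)) (c (l 16776872) (l 16777088))) (c (a (l 16775952) (l 16776064)) (c (l 16776304) (l 16776504)))))) (b (a (c (a (b (l 16777840) (l 16777296)) (b (l 16777992) (l 16777432))) (a (b (c (l 16778144) (l 16778352)) (l 16777680)) (b (c (l 16778264) (l 16778448)) (c (l 16777688) (l 16777864))))) (b (a (c (l 16778136) (c (l 16778384) (l 16778544))) (c (b (a (l 16778392) (l 16778472)) (l 16778144)) (b (c (l 16778648) (l 16778792)) (l 16778424)))) (c (a (l 16777576) (c (l 16777648) (l 16777776))) (a (c (l 16777800) (l 16777952)) (c (l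 16777912) (l 16778048)))))) (a (a (c (b (l 16776744) (l 16776176)) (b (l 16777104) (l 16776512))) (b (c (l 16776872) (c (l 16777112) (l 16777272))) (c (l 16776296) (c (l 16776520) (l 16776664))))) (a (b (c (l 16777000) (c (l 16777208) (l 16777352))) (c (l 16776416) (c (l 16776608) (l 16776736)))) (a (b (c (l 16777096) (l 16777344)) (l 14)) (l 14)))))), by decide +kernel⟩

def k44_A00pm_113_s3 : ∃ t, chk3 f_A00pm_113_s3 t 1022 1020 1 = true :=
  ⟨(a (a (c (b (b (l 16775816) (c (l 16777888) (l 16778624))) (b (c (l 16777672) (l 16778424)) (a (b (l 16777832) (c (l 16777320) (l 16778112))) (c (l 16777504) (l 16778240))))) (a (b (l 16777224) (b (l 16779576) (c (l 16778960) (l 16779776)))) (b (l 16777216) (b (l 16779568) (l 16776752))))) (b (c (c (l 16778216) (l 16778856)) (c (l 16779504) (l 16780168))) (c (b (c (l 16777928) (l 16778576)) (c (l 16777704) (l 16778368))) (c (b (l 16779240) (l 16779040)) (l 16779816))))) (a (c (b (c (a (l 16778424) (l 16778576)) (a (l 16778984)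 (l 16779088))) (a (c (l 16778048) (l 16778624)) (c (l 16778208) (l 16778736)))) (b (c (a (l 16779560) (l 16779608)) (a (l 16780144) (l 16780136))) (c (a (l 16779208) (l 16779264)) (a (l 16779800) (l 16779800))))) (b (c (a (c (l 16778736) (l 16779192)) (b (c (l 16778992) (l 16779392)) (l 16779040))) (a (c (l 16779656) (l 16780128)) (c (b (l 16779800) (l 16779648)) (b (l 16780208) (l 16780056))))) (c (a (c (l 16778392) (l 16778856)) (c (l 16778584) (l 16778984))) (a (c (l 16779328) (l 16779800)) (c (l 16779400) (l 16779808))))))), by decide +kernel⟩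

def k45_A00pm_113_s3 : ∃ t, chk3 f_A00pm_113_s3 t 4088 1021 1 = true :=
  ⟨(c (a (c (b (b (b (a (b (a (l 16777272) (l 16777208)) (l 16777384)) (b (l 16777256) (l 16777200))) (a (l 16777720) (b (a (l 16777312) (l 16777184)) (l 16777440)))) (l 16775648)) (b (a (l 16779488) (l 16779088)) (l 16775104))) (b (b (b (a (b (l 16778056) (l 16778152)) (l 16778008)) (a (l 16778424) (b (l 16778032) (l 16778176)))) (l 16776224)) (b (l 16774424) (l 16775272)))) (b (b (b (c (l 16777312) (l 16778064)) (a (a (c (b (l 16777168) (l 16777192)) (l 16777952)) (c (l 16777160) (l 16777928))) (l 16777592))) (b (c (a (b (l 16777304) (l 16777528)) (b (a (l 16777112) (l 16777128)) (a (l 16777232) (l 16777112)))) (a (l 16778136) (b (l 16777872) (l 16777928)))) (c (c (l 16777544) (l 16777864)) (l 16778352)))) (c (b (a (l 16778680) (l 16775648)) (l 16774296)) (b (l 16776344) (l 16774568))))) (b (b (a (c (b (a (l 16778912) (l 16778808)) (l 16776400)) (b (l 16779680) (l 16779760))) (b (l 16779216)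 (a (b (l 16776512) (l 16776488)) (l 16779104)))) (a (c (l 16779432) (l 16780032)) (c (b (a (l 16778864) (l 16778672)) (l 16779000)) (b (l 16776904) (l 16779656))))) (c (c (b (l 16774400) (l 16775088)) (l 16774904)) (c (l 16775072) (l 16775248))))), by decide +kernel⟩

def k46_A00pm_113_s3 : ∃ t, chk3 f_A00pm_113_s3 t 4089 1021 1 = true :=
  ⟨(c (b (c (b (a (l 16777384) (l 16777536)) (a (b (l 16777192) (a (b (a (l 16777120) (l 16777064)) (a (l 16777320) (l 16777144))) (b (l 16777120) (a (l 16777048) (l 16777064))))) (l 16777272))) (b (l 16778136) (a (b (l 16777904) (a (b (l 16777832) (l 16777936)) (l 16777800))) (l 16777944)))) (b (b (b (a (a (l 16775176) (a (c (l 16777168) (l 16777864)) (c (b (l 16777016) (l 16777048)) (l 16777752)))) (c (l 16777096) (l 16777776))) (a (c (l 16774904) (l 16778152)) (a (a (c (b (l 16777008) (l 16777080)) (l 16777744)) (c (l 16777000) (l 16777696))) (l 16777400)))) (a (c (l 16777912) (l 16778464)) (c (a (b (a (l 16777264) (l 16777080))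 (l 16777416)) (b (a (b (l 16776984) (l 16776984)) (l 16777016)) (a (l 16777112) (b (l 16776960) (l 16776992))))) (a (b (l 16777840) (l 16778032)) (b (l 16777680) (a (l 16777768) (l 16777656))))))) (a (c (c (l 16775992) (l 16778808)) (a (l 16779280) (l 16778920))) (b (c (c (l 16777472) (l 16777744)) (l 16775544)) (c (l 16775528) (l 16778600)))))) (b (c (b (l 16778824) (a (b (l 16778632) (a (l 16778624) (l 16778520))) (l 16778616))) (b (l 16779520) (a (b (l 16779368) (a (l 16779352) (l 16779256))) (l 16779304)))) (a (b (c (b (a (l 16778856) (l 16778600)) (l 16779016)) (a (l 16779600) (l 16776768))) (c (a (l 16779648) (l 16779344)) (l 16774656))) (b (b (a (c (l 16778448) (l 16779160)) (l 16778792)) (c (a (l 16778584) (b (l 16778360) (l 16778392))) (a (l 16779232) (l 16779072)))) (c (b (l 16776112) (l 16779056)) (c (l 16779296) (l 16779552))))))), by decide +kernel⟩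

def k47_A00pm_113_s3 : ∃ t, chk3 f_A00pm_113_s3 t 2045 1021 1 = true :=
  ⟨(b (a (c (c (b (l 16777792) (a (l 16777448) (l 16777632))) (b (l 16778360) (a (l 16778056) (l 16778184)))) (c (b (l 16778928) (l 16778704)) (b (l 16779512) (l 16779304)))) (b (c (c (l 16778168) (l 16778616)) (c (l 16779072) (l 16779528))) (c (a (c (l 16777832) (l 16778320)) (c (l 16778040) (l 16778464))) (c (l 16778856) (l 16779328))))) (c (a (b (a (b (c (l 16777240) (l 16777864)) (c (a (l 16777040) (l 16777136)) (l 16777728))) (c (l 16777352) (l 16777928))) (a (a (c (b (b (a (b (l 16776952) (l 16777024)) (l 16776952)) (a (l 16777216) (b (l 16776968) (l 16777072)))) (l 16777512)) (b (b (a (l 16777656) (l 16777600)) (l 16777752)) (l 16778056))) (b (b (l 16777336) (c (a (b (l 16776936) (l 16776928)) (l 16776968)) (l 16777584))) (b (a (c (l 16777072) (l 16777680)) (c (b (l 16776912) (l 16776952)) (l 16777568))) (c (l 16777224) (l 16777792))))) (b (c (l 16777128) (l 16777720)) (a (b (c (l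 16776960) (l 16777576)) (a (c (b (l 16776912) (l 16776984)) (l 16777568)) (c (l 16776912) (l 16777520)))) (c (l 16777024) (l 16777608)))))) (b (a (c (l 16777560) (l 16778072)) (c (l 16777784) (l 16778224))) (a (c (b (l 16777344) (l 16777192)) (l 16777792)) (c (l 16777496) (l 16777960))))) (a (c (b (a (b (l 16778496) (l 16778368)) (l 16778504)) (a (b (a (b (l 16778296) (l 16778376)) (l 16778256)) (a (l 16778600) (b (l 16778264) (l 16778376)))) (b (l 16778312) (a (b (l 16778192) (l 16778168)) (l 16778200))))) (b (c (l 16778936) (l 16779248)) (a (b (a (l 16779000) (l 16778912)) (a (l 16779160) (l 16778944))) (b (l 16778920) (a (l 16778816) (l 16778800)))))) (c (b (a (l 16778584) (l 16778672)) (a (l 16778328) (l 16778424))) (a (b (l 16779104) (l 16778872)) (b (l 16779128) (l 16778904))))))), by decide +kernel⟩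

def k48_A00pm_113_s3 : ∃ t, chk3 f_A00pm_113_s3 t 2046 1020 1 = true :=
  ⟨(a (c (b (a (b (a (c (l 16779048) (l 16779408)) (l 16779072)) (a (l 16779160) (c (b (l 16779008) (l 16779024)) (b (l 16779344) (l 16779352))))) (b (l 16778728) (l 16778888))) (a (b (c (l 16778888) (l 16779224)) (c (l 16778696) (l 16779040))) (b (a (b (a (l 16779160) (l 16779080)) (a (l 16779120) (l 16779120))) (l 16778936)) (a (c (l 16778864) (l 16779160)) (b (a (l 16779088) (l 16779008)) (a (l 16779040) (l 16779048))))))) (b (b (a (a (c (l 16779776) (l 16780144)) (l 16779776)) (l 16779408)) (a (a (c (l 16779696) (l 16780064)) (c (l 16779664) (l 16780008))) (c (l 16779360) (l 16779688)))) (a (b (c (l 16779568) (l 16779912)) (c (l 16779392) (l 16779744))) (b (a (c (b (l 16779568) (l 16779560)) (b (l 16779872) (l 16779864))) (l 16779520)) (a (c (l 16779456) (l 16779760)) (c (b (l 16779440) (l 16779440)) (b (l 16779720) (l 16779712)))))))) (b (c (c (l 16777936) (b (l 16778168) (l 16778312)))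 (b (c (l 16778488) (l 16778808)) (c (l 16778608) (l 16778904)))) (b (c (c (l 16778184) (l 16778456)) (c (l 16778720) (l 16779000))) (a (c (a (l 16778856) (l 16778608)) (c (l 16779112) (l 16779368))) (c (l 16778216) (l 16778704)))))), by decide +kernel⟩

def k49_A00pm_113_s3 : ∃ t, chk3 f_A00pm_113_s3 t 4092 1021 1 = true :=
  ⟨(b (b (a (c (c (l 16778496) (l 16778848)) (c (l 16779200) (l 16779560))) (c (c (l 16778736) (l 16779016)) (c (l 16779304) (l 16779592)))) (a (c (c (l 16778264) (l 16778624)) (c (l 16778992) (l 16779368))) (c (c (l 16778512) (l 16778800)) (c (l 16779096) (l 16779400))))) (b (a (c (c (l 16778016) (l 16778392)) (c (l 16778768) (l 16779152))) (c (c (l 16778264) (l 16778568)) (c (l 16778880) (l 16779192)))) (a (c (c (l 16777736) (l 16778128)) (c (l 16778528) (l 16778936))) (c (c (l 16778000) (l 16778320)) (c (l 16778640) (l 16778976)))))), by decide +kernel⟩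

def k50_A00pm_113_s3 : ∃ t, chk3 f_A00pm_113_s3 t 4093 1021 1 = true :=
  ⟨(b (a (c (b (a (b (a (l 16779000) (l 16778920)) (a (l 16778952) (l 16778960))) (l 16778768)) (a (c (l 16778696) (l 16778936)) (b (c (l 16778752) (l 16778960)) (a (l 16778848) (c (l 16778760) (l 16778960)))))) (b (a (c (b (l 16779312) (l 16779304)) (b (l 16779560) (l 16779544))) (c (l 16779104) (l 16779336))) (a (c (l 16779176) (l 16779424)) (c (b (l 16779176) (l 16779160)) (b (l 16779392) (l 16779376)))))) (b (c (l 16778376) (c (l 16778704) (l 16778920))) (c (a (l 16778664) (l 16778400)) (c (l 16778824) (l 16779024))))) (a (b (a (c (c (l 16778464) (l 16778712)) (c (l 16778968) (l 16779224))) (c (c (l 16778600) (l 16778808)) (c (l 16779024) (l 16779248)))) (c (c (a (l 16778200) (l 16778344)) (a (l 16778464) (l 16778568))) (c (a (l 16778736) (l 16778800)) (c (l 16778960) (l 16779088))))) (b (b (a (c (a (c (l 16778712) (l 16778896)) (l 16778720)) (a (c (l 16779088) (l 16779280)) (l 16779080)))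 (c (l 16778512) (l 16778872))) (a (c (a (l 16778736) (c (l 16778664) (l 16778840))) (a (l 16779120) (c (l 16779008) (l 16779192)))) (c (l 16778592) (l 16778928)))) (a (c (c (l 16778488) (l 16778672)) (c (l 16778864) (l 16779056))) (c (b (a (c (l 16778616) (l 16778768)) (l 16778600)) (a (l 16778616) (c (l 16778560) (l 16778704)))) (b (a (c (l 16778936) (l 16779096)) (l 16778912)) (a (l 16778944) (c (l 16778856) (l 16779008))))))))), by decide +kernel⟩

def k51_A00pm_113_s3 : ∃ t, chk3 f_A00pm_113_s3 t 2047 510 1 = true :=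
  ⟨(b (b (a (c (c (b (l 16776880) (l 16777024)) (b (l 16777168) (l 16777288))) (c (b (l 16777456) (l 16777552)) (b (l 16777752) (l 16777824)))) (c (b (c (l 16775864) (l 16776120)) (c (l 16775992) (l 16776224))) (c (b (l 16776384) (l 16776464)) (b (l 16776648) (l 16776704))))) (a (a (c (b (l 16777552) (l 16777696)) (c (l 16777984) (l 16778224))) (c (b (l 16777032) (l 16777160)) (c (l 16777432) (l 16777664)))) (a (c (b (l 16776496) (l 16776616)) (c (l 16776872) (l 16777088))) (c (b (l 16775952) (l 16776064)) (c (l 16776304) (l 16776504)))))) (a (b (c (b (a (l 16777840) (l 16777296)) (a (l 16777992) (l 16777432))) (b (a (c (l 16778144) (l 16778352)) (l 16777680)) (a (c (l 16778264) (l 16778448)) (c (l 16777688) (l 16777864))))) (a (b (c (l 16778136) (c (l 16778384) (l 16778544))) (c (a (b (l 16778392) (l 16778472)) (l 16778144)) (a (c (l 16778648) (l 16778792)) (l 16778424)))) (c (b (l 16777576) (c (l 16777648) (l 16777776))) (b (c (l 16777800) (l 16777952)) (c (l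 16777912) (l 16778048)))))) (b (b (c (a (l 16776744) (l 16776176)) (a (l 16777104) (l 16776512))) (a (c (l 16776872) (c (l 16777112) (l 16777272))) (c (l 16776296) (c (l 16776520) (l 16776664))))) (b (a (c (l 16777000) (c (l 16777208) (l 16777352))) (c (l 16776416) (c (l 16776608) (l 16776736)))) (a (a (c (l 16777280) (l 16777520)) (l 14)) (l 14)))))), by decide +kernel⟩

def k52_A00pm_113_s3 : ∃ t, chk3 f_A00pm_113_s3 t 2044 2044 1 = true :=
  ⟨(a (c (b (c (l 16775800) (l 16775800)) (c (b (l 16774568) (a (l 16778696) (l 16774016))) (c (b (l 16774696) (l 16773944)) (l 16774432)))) (c (b (l 16775800) (c (l 16774552) (l 16774672))) (b (l 16775800) (c (l 16774784) (l 16774904))))) (c (b (c (a (l 16774568) (b (l 16778696) (l 16774016))) (c (a (l 16774696) (l 16773944)) (l 16774432))) (c (c (l 16775288) (l 16775288)) (c (l 16775288) (l 16775288)))) (c (c (b (l 16774552) (l 16775288)) (b (l 16774672) (l 16775288))) (b (c (l 16774784) (l 16774904)) (c (l 16775288) (l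 16775288)))))), by decide +kernel⟩

def k53_A00pm_113_s3 : ∃ t, chk3 f_A00pm_113_s3 t 2044 4090 1 = true :=
  ⟨(c (b (c (a (a (l 16775224) (l 16775784)) (a (a (l 16778832) (l 16779120)) (l 16774320))) (a (c (l 16775808) (l 16776016)) (c (l 16774160) (l 16774248)))) (a (a (a (b (a (c (b (l 16777104) (l 16776928)) (l 16777616)) (c (l 16777136) (l 16777704))) (b (c (a (l 16776896) (b (l 16776896) (l 16776872))) (l 16777496)) (l 16777224))) (b (c (l 16777344) (l 16777864)) (b (c (l 16777032) (l 16777600)) (c (a (l 16776872) (b (l 16776936) (l 16776872))) (l 16777488))))) (c (a (b (l 16777624) (l 16777192)) (l 16775072)) (c (l 16777904) (l 16778136)))) (a (c (l 16775496) (l 16775856)) (c (b (l 16778912) (l 16778480)) (b (l 16779128) (l 16778752)))))) (a (b (c (b (l 16779096) (l 16776168)) (c (l 16779256) (l 16779464))) (a (c (b (a (l 16778248) (l 16778400)) (a (l 16778104) (l 16778136))) (b (l 16778896) (a (l 16778712) (l 16778728)))) (c (c (l 16778376) (l 16778616))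 (l 16776360)))) (c (a (b (l 16779448) (l 16778832)) (b (l 16774552) (a (l 16779096) (l 16779272)))) (a (b (l 16779696) (l 16779200)) (c (l 16774384) (l 16774480)))))), by decide +kernel⟩

def k54_A00pm_113_s3 : ∃ t, chk3 f_A00pm_113_s3 t 2044 4091 2 = true :=
  ⟨(a (b (b (a (c (c (l 16776832) (l 16777112)) (l 16777536)) (a (b (c (a (b (l 16776880) (l 16776856)) (l 16776944)) (a (l 16777448) (l 16777504))) (c (a (l 16776896) (l 16776856)) (l 16777440))) (a (b (l 16777344) (c (b (l 16776920) (l 16776856)) (l 16777456))) (c (l 16777112) (l 16777624))))) (b (a (l 16777328) (a (l 16777208) (c (a (l 16776872) (b (l 16776864) (l 16776840))) (l 16777424)))) (c (l 16777032) (l 16777560)))) (c (a (l 16777264) (b (l 16777040) (l 16777160))) (a (l 16777744) (l 16777592)))) (b (a (b (c (c (l 16777352) (l 16777576)) (l 16777912)) (a (b (c (a (l 16776936) (l 16777064)) (l 16777528)) (c (a (l 16776848) (b (l 16776904) (l 16776840))) (a (l 16777392) (l 16777416)))) (c (c (l 16777056)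 (l 16777288)) (l 16777656)))) (c (c (l 16775112) (l 16775296)) (b (l 16778376) (l 16778000)))) (a (b (a (c (l 16776912) (l 16777432)) (b (c (a (b (l 16776856) (l 16776832)) (l 16776928)) (a (l 16777376) (l 16777440))) (c (a (l 16776872) (b (l 16776824) (l 16776848))) (l 16777376)))) (c (l 16776992) (l 16777480))) (a (b (a (b (c (l 16777056) (l 16777544)) (c (b (l 16776896) (l 16776832)) (l 16777384))) (c (l 16777088) (l 16777560))) (b (c (a (l 16776848) (b (l 16776848) (l 16776824))) (a (l 16777360) (l 16777344))) (l 16777136))) (b (c (l 16777312) (l 16777736)) (b (c (a (b (l 16776960) (l 16776864)) (l 16777048)) (l 16777464)) (c (a (b (l 16776816) (l 16776840)) (b (l 16776888) (a (l 16776808) (l 16776832)))) (a (l 16777328) (l 16777352))))))))), by decide +kernel⟩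

def k55_A00pm_113_s3 : ∃ t, chk3 f_A00pm_113_s3 t 2044 4091 3 = true :=
  ⟨(a (c (b (a (c (l 16777992) (l 16778272)) (b (a (b (l 16778064) (l 16778016)) (l 16778128)) (a (l 16778048) (l 16777984)))) (l 16778160)) (b (a (l 16778696) (b (a (l 16778624) (l 16778672)) (l 16778576))) (l 16778656))) (a (b (b (c (l 16778368) (l 16778824)) (c (a (b (l 16778056) (l 16777960)) (l 16778144)) (a (l 16778560) (l 16778632)))) (a (c (l 16777984) (l 16778504)) (b (c (b (l 16777944) (l 16777896)) (l 16778464)) (l 16778192)))) (b (c (l 16775936) (l 16776312)) (c (b (a (b (l 16778080) (l 16777936)) (l 16778176)) (a (b (l 16777864) (l 16777880)) (b (l 16777944) (l 16777848)))) (b (a (l 16778512) (l 16778608)) (a (l 16778384) (l 16778400))))))), by decide +kernel⟩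

def k56_A00pm_113_s3 : ∃ t, chk3 f_A00pm_113_s3 t 4090 2044 1 = true :=
  ⟨(c (a (c (b (b (l 16775224) (l 16775784)) (b (a (l 16779192) (l 16778760)) (l 16774320))) (b (c (l 16775808) (l 16776016)) (c (l 16774160) (l 16774248)))) (b (b (a (b (b (c (a (l 16777104) (l 16776928)) (l 16777616)) (c (l 16777136) (l 16777704))) (c (l 16777344) (l 16777864))) (a (b (c (b (l 16776896) (a (l 16776896) (l 16776872))) (l 16777496)) (c (l 16777032) (l 16777600))) (b (l 16777224) (c (b (l 16776872) (a (l 16776936) (l 16776872))) (l 16777488))))) (c (a (l 16777768) (b (l 16777192) (l 16777472))) (c (l 16777904) (l 16778136)))) (b (c (l 16775496) (l 16775856)) (c (a (l 16778912) (l 16778480)) (a (l 16779128) (l 16778752)))))) (b (a (c (a (l 16779096) (l 16776168)) (c (l 16779256) (l 16779464))) (b (c (a (b (l 16778248) (l 16778400)) (b (l 16778104) (l 16778136))) (a (l 16778896) (a (l 16778744) (l 16778696)))) (c (c (l 16778376) (l 16778616)) (l 16776360)))) (c (a (c (l 16774336)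 (l 16774424)) (a (a (l 16776616) (l 16776464)) (l 16776232))) (b (a (l 16779696) (l 16779200)) (c (l 16774384) (l 16774480)))))), by decide +kernel⟩

def k57_A00pm_113_s3 : ∃ t, chk3 f_A00pm_113_s3 t 4091 2044 2 = true :=
  ⟨(b (a (a (b (c (c (l 16776832) (l 16777112)) (l 16777536)) (b (a (c (b (a (l 16776880) (l 16776856)) (l 16776944)) (b (l 16777448) (l 16777504))) (c (b (l 16776896) (l 16776856)) (l 16777440))) (b (a (l 16777344) (c (a (l 16776920) (l 16776856)) (l 16777456))) (c (l 16777112) (l 16777624))))) (a (b (l 16777328) (b (l 16777208) (c (b (l 16776872) (a (l 16776864) (l 16776840))) (l 16777424)))) (c (l 16777032) (l 16777560)))) (c (b (l 16777264) (a (l 16777040) (l 16777160))) (b (l 16777744) (l 16777592)))) (a (b (a (c (c (l 16777352) (l 16777576)) (l 16777912)) (b (a (c (b (l 16776936) (l 16777064)) (l 16777528)) (c (b (l 16776848) (a (l 16776904) (l 16776840))) (b (l 16777392) (l 16777416)))) (c (c (l 16777056) (l 16777288)) (l 16777656))))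 (c (c (l 16775112) (l 16775296)) (a (l 16778376) (l 16778000)))) (b (a (b (c (l 16776912) (l 16777432)) (a (c (b (a (l 16776856) (l 16776832)) (l 16776928)) (b (l 16777376) (l 16777440))) (c (b (l 16776872) (a (l 16776824) (l 16776848))) (l 16777376)))) (c (l 16776992) (l 16777480))) (a (b (b (a (c (l 16777056) (l 16777544)) (c (a (l 16776896) (l 16776832)) (l 16777384))) (c (l 16777088) (l 16777560))) (c (l 16777312) (l 16777736))) (b (a (c (b (l 16776848) (a (l 16776848) (l 16776824))) (b (l 16777360) (l 16777344))) (l 16777136)) (a (c (b (a (l 16776960) (l 16776864)) (l 16777048)) (l 16777464)) (c (b (a (l 16776816) (l 16776840)) (a (l 16776888) (b (l 16776808) (l 16776832)))) (b (l 16777328) (l 16777352))))))))), by decide +kernel⟩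

def k58_A00pm_113_s3 : ∃ t, chk3 f_A00pm_113_s3 t 4091 2044 3 = true :=
  ⟨(b (c (a (b (c (l 16777992) (l 16778272)) (a (b (a (l 16778064) (l 16778016)) (l 16778128)) (b (l 16778048) (l 16777984)))) (l 16778160)) (a (b (l 16778696) (a (b (l 16778624) (l 16778672)) (l 16778576))) (l 16778656))) (b (a (a (c (l 16778368) (l 16778824)) (c (b (a (l 16778056) (l 16777960)) (l 16778144)) (b (l 16778560) (l 16778632)))) (b (c (l 16777984) (l 16778504)) (a (c (a (l 16777944) (l 16777896)) (l 16778464)) (l 16778192)))) (a (c (l 16775936) (l 16776312)) (c (a (b (a (l 16778080) (l 16777936)) (l 16778176)) (b (a (l 16777864) (l 16777880)) (a (l 16777944) (l 16777848)))) (a (b (l 16778512) (l 16778608)) (b (l 16778384) (l 16778400))))))), by decide +kernel⟩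

def k59_A00pm_113_s3 : ∃ t, chk3 f_A00pm_113_s3 t 2045 2045 1 = true :=
  ⟨(b (a (c (c (c (c (l 16774784) (l 16774784)) (c (l 16774784) (l 16774784))) (c (b (l 16774528) (l 16774400)) (a (l 16774560) (l 16774424)))) (c (c (b (l 16774584) (l 16774456)) (b (l 16774616) (l 16774488))) (c (a (l 16774648) (l 16774520)) (a (l 16774680) (l 16774552))))) (b (a (c (a (a (l 16776224) (l 16776024)) (c (l 16778200) (l 16778472))) (c (a (l 16779072) (l 16778752)) (a (l 16779288) (l 16779040)))) (c (a (c (a (l 16777864) (l 16777648)) (l 16778096)) (c (b (c (l 16777056) (l 16777272)) (l 16777464)) (c (l 16777616) (l 16777816)))) (c (c (l 16775568) (l 16778376)) (a (l 16778784) (l 16775912))))) (a (a (b (c (l 16776528) (l 16776784)) (c (l 16776808) (l 16779552))) (c (c (l 16776184) (l 16776336)) (b (l 16776496) (l 16776648)))) (a (c (c (l 16775744) (l 16778576)) (b (l 16776216) (l 14))) (l 14))))) (b (a (c (a (a (c (l 16775648) (l 16778544)) (b (l 16778880) (l 16775848))) (b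 (a (l 16776528) (l 16776808)) (c (l 16776184) (l 16776336)))) (a (c (b (l 16779072) (l 16778752)) (b (l 16779288) (l 16779040))) (a (b (l 16776784) (l 16776496)) (b (l 16779552) (l 16776648))))) (b (a (a (c (l 16777088) (l 16777088)) (l 14)) (l 14)) (l 14))) (a (a (c (b (c (b (l 16777864) (l 16777648)) (l 16778096)) (c (a (c (l 16777056) (l 16777272)) (l 16777464)) (c (l 16777616) (l 16777816)))) (c (c (l 16775568) (l 16778376)) (b (l 16778784) (l 16775912)))) (b (c (c (l 16775744) (l 16778576)) (a (l 16776216) (l 14))) (l 14))) (l 14)))), by decide +kernel⟩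

def k60_A00pm_113_s3 : ∃ t, chk3 f_A00pm_113_s3 t 1022 1023 1 = true :=
  ⟨(b (a (a (b (c (b (c (a (l 16777512) (l 16777352)) (a (l 16777920) (l 16777776))) (c (a (l 16777776) (l 16777624)) (l 16778040))) (b (c (l 16778272) (l 16778696)) (c (l 16778392) (l 16778744)))) (b (c (c (b (l 16777912) (l 16778064)) (b (l 16778200) (l 16778304))) (c (b (l 16778488) (l 16778552)) (c (l 16778720) (l 16778864)))) (b (c (c (l 16778208) (l 16778416)) (c (l 16778624) (l 16778840))) (a (c (c (l 16778440) (l 16778600)) (c (l 16778760) (l 16778928))) (l 14))))) (a (b (c (b (c (b (l 16777120) (l 16777256)) (l 16777624)) (c (l 16777464) (l 16777824))) (b (c (l 16778064) (l 16778512)) (c (l 16778184) (l 16778552)))) (b (b (c (l 16777832) (l 16778440)) (l 14)) (l 14))) (b (b (c (b (c (c (l 16776824) (l 16777056)) (a (l 16777456) (l 16777376))) (c (l 16777080) (l 16777512))) (c (b (l 16777880) (l 16777944)) (c (l 16778264) (l 16778496)))) (a (b (c (l 16777456) (l 16778248)) (l 14))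 (l 14))) (l 14)))) (b (b (b (a (a (b (a (a (a (a (c (c (l 16776816) (l 16777304)) (l 16778040)) (l 14)) (l 14)) (l 14)) (l 14)) (l 14)) (l 14)) (l 14)) (l 14)) (l 14)) (l 14))) (a (b (b (a (b (a (a (a (c (l 16778512) (l 16778784)) (l 14)) (l 14)) (l 14)) (l 14)) (l 14)) (l 14)) (l 14)) (l 14))), by decide +kernel⟩

def k61_A00pm_113_s3 : ∃ t, chk3 f_A00pm_113_s3 t 1023 511 1 = true :=
  ⟨(b (a (b (b (a (c (a (c (b (l 16777512) (l 16777352)) (b (l 16777920) (l 16777776))) (c (b (l 16777776) (l 16777624)) (l 16778040))) (a (c (l 16778272) (l 16778696)) (c (l 16778392) (l 16778744)))) (a (c (c (a (l 16777912) (l 16778064)) (a (l 16778200) (l 16778304))) (c (a (l 16778488) (l 16778552)) (c (l 16778720) (l 16778864)))) (a (c (c (l 16778208) (l 16778416)) (c (l 16778624) (l 16778840))) (b (c (c (l 16778440) (l 16778600)) (c (l 16778760) (l 16778928))) (l 14))))) (b (a (c (a (c (a (l 16777120) (l 16777256)) (l 16777624)) (c (l 16777464) (l 16777824))) (a (c (l 16778064)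 (l 16778512)) (c (l 16778184) (l 16778552)))) (a (a (c (l 16777832) (l 16778440)) (l 14)) (l 14))) (a (a (c (a (c (c (l 16776824) (l 16777056)) (b (l 16777456) (l 16777376))) (c (l 16777080) (l 16777512))) (c (a (l 16777880) (l 16777944)) (c (l 16778264) (l 16778496)))) (a (a (c (l 16777384) (l 16778200)) (l 14)) (l 14))) (l 14)))) (a (a (a (b (b (a (a (a (b (b (c (c (l 16776848) (l 16777328)) (l 16778064)) (l 14)) (l 14)) (l 14)) (l 14)) (l 14)) (l 14)) (l 14)) (l 14)) (l 14)) (l 14))) (b (a (a (b (b (a (b (b (c (l 16778512) (l 16778784)) (l 14)) (l 14)) (l 14)) (l 14)) (l 14)) (l 14)) (l 14)) (l 14))) (l 14)), by decide +kernel⟩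

theorem t62_A00pm_113_s3 : ∃ t, chk3 f_A00pm_113_s3 t 4091 2044 1 = true := ex3_c k57_A00pm_113_s3 k58_A00pm_113_s3

theorem t63_A00pm_113_s3 : ∃ t, chk3 f_A00pm_113_s3 t 2045 2044 1 = true := ex3_a k56_A00pm_113_s3 t62_A00pm_113_s3

theorem t64_A00pm_113_s3 : ∃ t, chk3 f_A00pm_113_s3 t 2045 1022 1 = true := ex3_b t63_A00pm_113_s3 k59_A00pm_113_s3

theorem t65_A00pm_113_s3 : ∃ t, chk3 f_A00pm_113_s3 t 2044 4091 1 = true := ex3_c k54_A00pm_113_s3 k55_A00pm_113_s3

theorem t66_A00pm_113_s3 : ∃ t, chk3 f_A00pm_113_s3 t 2044 2045 1 = true := ex3_b k53_A00pm_113_s3 t65_A00pm_113_s3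

theorem t67_A00pm_113_s3 : ∃ t, chk3 f_A00pm_113_s3 t 2044 1022 1 = true := ex3_b k52_A00pm_113_s3 t66_A00pm_113_s3

theorem t68_A00pm_113_s3 : ∃ t, chk3 f_A00pm_113_s3 t 1022 1022 1 = true := ex3_a t67_A00pm_113_s3 t64_A00pm_113_s3

theorem t69_A00pm_113_s3 : ∃ t, chk3 f_A00pm_113_s3 t 1022 511 1 = true := ex3_b t68_A00pm_113_s3 k60_A00pm_113_s3

theorem t70_A00pm_113_s3 : ∃ t, chk3 f_A00pm_113_s3 t 511 511 1 = true := ex3_a t69_A00pm_113_s3 k61_A00pm_113_s3

theorem t71_A00pm_113_s3 : ∃ t, chk3 f_A00pm_113_s3 t 2046 1021 1 = true := ex3_a k49_A00pm_113_s3 k50_A00pm_113_s3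

theorem t72_A00pm_113_s3 : ∃ t, chk3 f_A00pm_113_s3 t 2046 510 1 = true := ex3_b k48_A00pm_113_s3 t71_A00pm_113_s3

theorem t73_A00pm_113_s3 : ∃ t, chk3 f_A00pm_113_s3 t 1023 510 1 = true := ex3_a t72_A00pm_113_s3 k51_A00pm_113_s3

theorem t74_A00pm_113_s3 : ∃ t, chk3 f_A00pm_113_s3 t 2044 1021 1 = true := ex3_a k45_A00pm_113_s3 k46_A00pm_113_s3

theorem t75_A00pm_113_s3 : ∃ t, chk3 f_A00pm_113_s3 t 1022 1021 1 = true := ex3_a t74_A00pm_113_s3 k47_A00pm_113_s3

theorem t76_A00pm_113_s3 : ∃ t, chk3 f_A00pm_113_s3 t 1022 510 1 = true := ex3_b k44_A00pm_113_s3 t75_A00pm_113_s3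

theorem t77_A00pm_113_s3 : ∃ t, chk3 f_A00pm_113_s3 t 511 510 1 = true := ex3_a t76_A00pm_113_s3 t73_A00pm_113_s3

theorem t78_A00pm_113_s3 : ∃ t, chk3 f_A00pm_113_s3 t 511 255 1 = true := ex3_b t77_A00pm_113_s3 t70_A00pm_113_s3

theorem t79_A00pm_113_s3 : ∃ t, chk3 f_A00pm_113_s3 t 1021 2046 1 = true := ex3_b k41_A00pm_113_s3 k42_A00pm_113_s3

theorem t80_A00pm_113_s3 : ∃ t, chk3 f_A00pm_113_s3 t 510 2046 1 = true := ex3_a k40_A00pm_113_s3 t79_A00pm_113_s3

theorem t81_A00pm_113_s3 : ∃ t, chk3 f_A00pm_113_s3 t 510 1023 1 = true := ex3_b t80_A00pm_113_s3 k43_A00pm_113_s3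

theorem t82_A00pm_113_s3 : ∃ t, chk3 f_A00pm_113_s3 t 1021 2044 1 = true := ex3_b k37_A00pm_113_s3 k38_A00pm_113_s3

theorem t83_A00pm_113_s3 : ∃ t, chk3 f_A00pm_113_s3 t 1021 1022 1 = true := ex3_b t82_A00pm_113_s3 k39_A00pm_113_s3

theorem t84_A00pm_113_s3 : ∃ t, chk3 f_A00pm_113_s3 t 510 1022 1 = true := ex3_a k36_A00pm_113_s3 t83_A00pm_113_s3

theorem t85_A00pm_113_s3 : ∃ t, chk3 f_A00pm_113_s3 t 510 511 1 = true := ex3_b t84_A00pm_113_s3 t81_A00pm_113_s3

theorem t86_A00pm_113_s3 : ∃ t, chk3 f_A00pm_113_s3 t 2043 510 1 = true := ex3_a k34_A00pm_113_s3 k35_A00pm_113_s3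

theorem t87_A00pm_113_s3 : ∃ t, chk3 f_A00pm_113_s3 t 1021 510 1 = true := ex3_a k33_A00pm_113_s3 t86_A00pm_113_s3

theorem t88_A00pm_113_s3 : ∃ t, chk3 f_A00pm_113_s3 t 1020 510 1 = true := ex3_a k31_A00pm_113_s3 k32_A00pm_113_s3

theorem t89_A00pm_113_s3 : ∃ t, chk3 f_A00pm_113_s3 t 510 510 1 = true := ex3_a t88_A00pm_113_s3 t87_A00pm_113_s3

theorem t90_A00pm_113_s3 : ∃ t, chk3 f_A00pm_113_s3 t 510 255 1 = true := ex3_b t89_A00pm_113_s3 t85_A00pm_113_s3

theorem t91_A00pm_113_s3 : ∃ t, chk3 f_A00pm_113_s3 t 255 255 1 = true := ex3_a t90_A00pm_113_s3 t78_A00pm_113_s3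

theorem t92_A00pm_113_s3 : ∃ t, chk3 f_A00pm_113_s3 t 1023 254 1 = true := ex3_b k29_A00pm_113_s3 k30_A00pm_113_s3

theorem t93_A00pm_113_s3 : ∃ t, chk3 f_A00pm_113_s3 t 2045 254 1 = true := ex3_b k27_A00pm_113_s3 k28_A00pm_113_s3

theorem t94_A00pm_113_s3 : ∃ t, chk3 f_A00pm_113_s3 t 1022 254 1 = true := ex3_a k26_A00pm_113_s3 t93_A00pm_113_s3

theorem t95_A00pm_113_s3 : ∃ t, chk3 f_A00pm_113_s3 t 511 254 1 = true := ex3_a t94_A00pm_113_s3 t92_A00pm_113_s3

theorem t96_A00pm_113_s3 : ∃ t, chk3 f_A00pm_113_s3 t 510 1019 1 = true := ex3_a k24_A00pm_113_s3 k25_A00pm_113_s3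

theorem t97_A00pm_113_s3 : ∃ t, chk3 f_A00pm_113_s3 t 510 509 1 = true := ex3_b k23_A00pm_113_s3 t96_A00pm_113_s3

theorem t98_A00pm_113_s3 : ∃ t, chk3 f_A00pm_113_s3 t 510 254 1 = true := ex3_b k22_A00pm_113_s3 t97_A00pm_113_s3

theorem t99_A00pm_113_s3 : ∃ t, chk3 f_A00pm_113_s3 t 255 254 1 = true := ex3_a t98_A00pm_113_s3 t95_A00pm_113_s3

theorem t100_A00pm_113_s3 : ∃ t, chk3 f_A00pm_113_s3 t 255 127 1 = true := ex3_b t99_A00pm_113_s3 t91_A00pm_113_s3

theorem t101_A00pm_113_s3 : ∃ t, chk3 f_A00pm_113_s3 t 254 1023 1 = true := ex3_a k20_A00pm_113_s3 k21_A00pm_113_s3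

theorem t102_A00pm_113_s3 : ∃ t, chk3 f_A00pm_113_s3 t 254 2045 1 = true := ex3_a k18_A00pm_113_s3 k19_A00pm_113_s3

theorem t103_A00pm_113_s3 : ∃ t, chk3 f_A00pm_113_s3 t 254 1022 1 = true := ex3_b k17_A00pm_113_s3 t102_A00pm_113_s3

theorem t104_A00pm_113_s3 : ∃ t, chk3 f_A00pm_113_s3 t 254 511 1 = true := ex3_b t103_A00pm_113_s3 t101_A00pm_113_s3

theorem t105_A00pm_113_s3 : ∃ t, chk3 f_A00pm_113_s3 t 1019 510 1 = true := ex3_b k15_A00pm_113_s3 k16_A00pm_113_s3

theorem t106_A00pm_113_s3 : ∃ t, chk3 f_A00pm_113_s3 t 509 510 1 = true := ex3_a k14_A00pm_113_s3 t105_A00pm_113_s3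

theorem t107_A00pm_113_s3 : ∃ t, chk3 f_A00pm_113_s3 t 254 510 1 = true := ex3_a k13_A00pm_113_s3 t106_A00pm_113_s3

theorem t108_A00pm_113_s3 : ∃ t, chk3 f_A00pm_113_s3 t 254 255 1 = true := ex3_b t107_A00pm_113_s3 t104_A00pm_113_s3

theorem t109_A00pm_113_s3 : ∃ t, chk3 f_A00pm_113_s3 t 254 127 1 = true := ex3_b k12_A00pm_113_s3 t108_A00pm_113_s3

theorem t110_A00pm_113_s3 : ∃ t, chk3 f_A00pm_113_s3 t 127 127 1 = true := ex3_a t109_A00pm_113_s3 t100_A00pm_113_s3

theorem t111_A00pm_113_s3 : ∃ t, chk3 f_A00pm_113_s3 t 127 63 1 = true := ex3_b k11_A00pm_113_s3 t110_A00pm_113_s3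

theorem t112_A00pm_113_s3 : ∃ t, chk3 f_A00pm_113_s3 t 63 63 1 = true := ex3_a k10_A00pm_113_s3 t111_A00pm_113_s3

theorem t113_A00pm_113_s3 : ∃ t, chk3 f_A00pm_113_s3 t 63 31 1 = true := ex3_b k9_A00pm_113_s3 t112_A00pm_113_s3

theorem t114_A00pm_113_s3 : ∃ t, chk3 f_A00pm_113_s3 t 31 31 1 = true := ex3_a k8_A00pm_113_s3 t113_A00pm_113_s3

theorem t115_A00pm_113_s3 : ∃ t, chk3 f_A00pm_113_s3 t 31 15 1 = true := ex3_b k7_A00pm_113_s3 t114_A00pm_113_s3

theorem t116_A00pm_113_s3 : ∃ t, chk3 f_A00pm_113_s3 t 15 15 1 = true := ex3_a k6_A00pm_113_s3 t115_A00pm_113_s3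

theorem t117_A00pm_113_s3 : ∃ t, chk3 f_A00pm_113_s3 t 15 7 1 = true := ex3_b k5_A00pm_113_s3 t116_A00pm_113_s3

theorem t118_A00pm_113_s3 : ∃ t, chk3 f_A00pm_113_s3 t 7 7 1 = true := ex3_a k4_A00pm_113_s3 t117_A00pm_113_s3

theorem t119_A00pm_113_s3 : ∃ t, chk3 f_A00pm_113_s3 t 7 3 1 = true := ex3_b k3_A00pm_113_s3 t118_A00pm_113_s3

theorem t120_A00pm_113_s3 : ∃ t, chk3 f_A00pm_113_s3 t 3 3 1 = true := ex3_a k2_A00pm_113_s3 t119_A00pm_113_s3

theorem t121_A00pm_113_s3 : ∃ t, chk3 f_A00pm_113_s3 t 3 1 1 = true := ex3_b k1_A00pm_113_s3 t120_A00pm_113_s3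

theorem t122_A00pm_113_s3 : ∃ t, chk3 f_A00pm_113_s3 t 1 1 1 = true := ex3_a k0_A00pm_113_s3 t121_A00pm_113_s3

theorem c_A00pm_113_s3 : CertF 536870912 536870912 536870912 536870912 1020054732 13421774 true true false .nn 1 1 3
    ndB0q1 ndB0q1 pcB3 cut_A00pm_113_s3 Ext.none :=
  certF0 (fam := true) (s1 := true) (s2 := false) (a := 1) (b := 1) (c := 3) (cn := .nn) (n1 := ndB0q1) (n2 := ndB0q1) (pc := pcB3) (cut := cut_A00pm_113_s3) (xt := Ext.none) (P1 := 536870912) (W1 := 536870912) (P2 := 536870912) (W2 := 536870912) (P3 := 1020054732) (W3 := 13421774)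
    rfl t122_A00pm_113_s3

theorem s_A00pm_113_s3 {κ x : ℝ} (hκ : κ * h0 = ken x) (hx : ((1020054732 : ℕ) : ℝ) / S ≤ x)
    (hx' : x ≤ (((1020054732 : ℕ) : ℝ) + (13421774 : ℕ)) / S)
    (H : CutA (VFD κ) PP tK tL pcB (Cut.of [[⟨0, 1, 0, 26738688⟩, ⟨1, 1, 0, 26738688⟩, ⟨2, 2, 0, 2621440⟩], [⟨0, 0, 1, 46137344⟩, ⟨1, 1, 0, 2097152⟩, ⟨2, 1, 1, 46137344⟩, ⟨0, 0, 0, 1041207446⟩, ⟨0, 1, 0, 59055800⟩, ⟨2, 1, 0, 1041207446⟩, ⟨2, 2, 0, 59055800⟩], [⟨0, 1, 0, 2097152⟩, ⟨1, 0, 1, 46137344⟩, ⟨2, 1, 1, 46137344⟩, ⟨1, 0, 0, 1041207446⟩, ⟨1, 1, 0, 59055800⟩, ⟨2, 1, 0, 1041207446⟩, ⟨2, 2, 0, 59055800⟩]]) 1 1 3 0 0 (sgb true) (sgb false) x) :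
    AltA (VFD κ) PP tK tL pcB [⟨4, 0, 0, 3194381926⟩] 1 1 3 0 0 (sgb true) (sgb false) x :=
  strip_altAD (m := 3194381926) false rfl hκ (SH.κ0 hκ (SH.hx1 hx).le (SH.hx2 hx').le) (SH.hx1 hx).le (SH.hx2 hx') (covB01).cov (covB01).cov hx hx' c_A00pm_113_s3 H (noExt_A)

noncomputable def cut_A00pm_123_s1 : Cut := Cut.of [[⟨4, 0, 0, 1449551462⟩], [⟨0, 1, 0, 26738688⟩, ⟨1, 1, 0, 26738688⟩, ⟨2, 2, 0, 2621440⟩], [⟨0, 0, 1, 46137344⟩, ⟨1, 1, 0, 2097152⟩, ⟨2, 1, 1, 46137344⟩, ⟨0, 0, 0, 1041207446⟩, ⟨0, 1, 0, 59055800⟩, ⟨2, 1, 0, 1041207446⟩, ⟨2, 2, 0, 59055800⟩], [⟨0, 1, 0, 2097152⟩, ⟨1, 0, 1, 46137344⟩, ⟨2, 1, 1, 46137344⟩, ⟨1, 0, 0, 1041207446⟩, ⟨1, 1, 0, 59055800⟩, ⟨2, 1, 0, 1041207446⟩, ⟨2, 2, 0, 59055800⟩]]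

noncomputable def f_A00pm_123_s1 : ℕ → ℕ → ℕ → ℕ → Bool := onCell 536870912 536870912 0 536870912 1020054732 13421774
    (rowF 0 true true false .npn 1 2 3 (qsf 536870912 536870912 0 536870912 3) ndB0q1 ndB0q2 pcB3 cut_A00pm_123_s1 Ext.none)

def k0_A00pm_123_s1 : ∃ t, chk3 f_A00pm_123_s1 t 1 1 1 = true :=
  ⟨(l 6), by decide +kernel⟩

theorem c_A00pm_123_s1 : CertF 536870912 536870912 0 536870912 1020054732 13421774 true true false .npn 1 2 3
    ndB0q1 ndB0q2 pcB3 cut_A00pm_123_s1 Ext.none :=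
  certF0 (fam := true) (s1 := true) (s2 := false) (a := 1) (b := 2) (c := 3) (cn := .npn) (n1 := ndB0q1) (n2 := ndB0q2) (pc := pcB3) (cut := cut_A00pm_123_s1) (xt := Ext.none) (P1 := 536870912) (W1 := 536870912) (P2 := 0) (W2 := 536870912) (P3 := 1020054732) (W3 := 13421774)
    rfl k0_A00pm_123_s1

theorem s_A00pm_123_s1 {κ x : ℝ} (hκ : κ * h0 = ken x) (hx : ((1020054732 : ℕ) : ℝ) / S ≤ x)
    (hx' : x ≤ (((1020054732 : ℕ) : ℝ) + (13421774 : ℕ)) / S)
    (H : CutA (VFD κ) PP tK tL pcB (Cut.of [[⟨0, 1, 0, 26738688⟩, ⟨1, 1, 0, 26738688⟩, ⟨2, 2, 0, 2621440⟩], [⟨0, 0, 1, 46137344⟩, ⟨1, 1, 0, 2097152⟩, ⟨2, 1, 1, 46137344⟩, ⟨0, 0, 0, 1041207446⟩, ⟨0, 1, 0, 59055800⟩, ⟨2, 1, 0, 1041207446⟩, ⟨2, 2, 0, 59055800⟩], [⟨0, 1, 0, 2097152⟩, ⟨1, 0, 1, 46137344⟩, ⟨2, 1, 1, 46137344⟩, ⟨1, 0, 0, 1041207446⟩, ⟨1, 1, 0, 59055800⟩, ⟨2, 1, 0, 1041207446⟩, ⟨2, 2, 0, 59055800⟩]]) 1 2 3 0 0 (sgb true) (sgb false) x) :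
    AltA (VFD κ) PP tK tL pcB [⟨3, 0, 0, 1449551462⟩] 1 2 3 0 0 (sgb true) (sgb false) x :=
  strip_altAD (m := 1449551462) true rfl hκ (SH.κ0 hκ (SH.hx1 hx).le (SH.hx2 hx').le) (SH.hx1 hx).le (SH.hx2 hx') (covB01).cov (covB02).cov hx hx' c_A00pm_123_s1 H (noExt_A)

end Pool.Agent.Strip051.G.I9500_9625.Tab.St.C
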