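import Pool.Agent.Strip051.G.I9500_9625.StH
import Pool.Agent.Strip051.G.I9500_9625.Sp5_0
import Pool.Agent.Strip051.G.I9500_9625.Sp5_1
import Pool.Agent.Strip051.G.I9500_9625.Sp5_2
import Pool.Agent.Strip051.G.I9500_9625.Sp5_3
import Pool.Agent.Strip051.G.I9500_9625.Sp5_4
import Pool.Agent.Strip051.G.I9500_9625.Sp5_5
import Pool.Agent.Strip051.G.I9500_9625.Sp5_6
import Pool.Agent.Strip051.G.I9500_9625.StF

/-! # Unit strips 5 (generated) -/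

set_option linter.all false
set_option maxRecDepth 100000

namespace Pool.Agent.Strip051.G.I9500_9625.Tab.St.C

open Pool.Agent.Strip051.PB Pool.Agent.Strip051.PB.T Pool.Agent.StripNear Pool.Agent.Strip051.LC
open Pool.Agent.Strip051.G.I9500_9625.Tab Pool.Agent.Strip051.G.I9500_9625.Tab.St

theorem t650_A00pm_123_s3 : ∃ t, chk3 f_A00pm_123_s3 t 1020 255 1 = true := ex3_b k646_A00pm_123_s3 k647_A00pm_123_s3

theorem t651_A00pm_123_s3 : ∃ t, chk3 f_A00pm_123_s3 t 510 255 1 = true := ex3_a t650_A00pm_123_s3 k648_A00pm_123_s3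

theorem t652_A00pm_123_s3 : ∃ t, chk3 f_A00pm_123_s3 t 510 127 1 = true := ex3_b k645_A00pm_123_s3 t651_A00pm_123_s3

theorem t653_A00pm_123_s3 : ∃ t, chk3 f_A00pm_123_s3 t 2042 252 1 = true := ex3_b k641_A00pm_123_s3 k642_A00pm_123_s3

theorem t654_A00pm_123_s3 : ∃ t, chk3 f_A00pm_123_s3 t 2042 126 1 = true := ex3_b t653_A00pm_123_s3 k643_A00pm_123_s3

theorem t655_A00pm_123_s3 : ∃ t, chk3 f_A00pm_123_s3 t 1021 126 1 = true := ex3_a t654_A00pm_123_s3 k644_A00pm_123_s3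

theorem t656_A00pm_123_s3 : ∃ t, chk3 f_A00pm_123_s3 t 1020 126 1 = true := ex3_b k639_A00pm_123_s3 k640_A00pm_123_s3

theorem t657_A00pm_123_s3 : ∃ t, chk3 f_A00pm_123_s3 t 510 126 1 = true := ex3_a t656_A00pm_123_s3 t655_A00pm_123_s3

theorem t658_A00pm_123_s3 : ∃ t, chk3 f_A00pm_123_s3 t 510 63 1 = true := ex3_b t657_A00pm_123_s3 t652_A00pm_123_s3

theorem t659_A00pm_123_s3 : ∃ t, chk3 f_A00pm_123_s3 t 2042 125 1 = true := ex3_b k636_A00pm_123_s3 k637_A00pm_123_s3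

theorem t660_A00pm_123_s3 : ∃ t, chk3 f_A00pm_123_s3 t 1021 125 1 = true := ex3_a t659_A00pm_123_s3 k638_A00pm_123_s3

theorem t661_A00pm_123_s3 : ∃ t, chk3 f_A00pm_123_s3 t 16343 1986 1 = true := ex3_b k630_A00pm_123_s3 k631_A00pm_123_s3

theorem t662_A00pm_123_s3 : ∃ t, chk3 f_A00pm_123_s3 t 8171 1986 1 = true := ex3_a k629_A00pm_123_s3 t661_A00pm_123_s3

theorem t663_A00pm_123_s3 : ∃ t, chk3 f_A00pm_123_s3 t 8171 993 1 = true := ex3_b t662_A00pm_123_s3 k632_A00pm_123_s3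

theorem t664_A00pm_123_s3 : ∃ t, chk3 f_A00pm_123_s3 t 4085 993 1 = true := ex3_a k628_A00pm_123_s3 t663_A00pm_123_s3

theorem t665_A00pm_123_s3 : ∃ t, chk3 f_A00pm_123_s3 t 16342 1985 1 = true := ex3_b k625_A00pm_123_s3 k626_A00pm_123_s3

theorem t666_A00pm_123_s3 : ∃ t, chk3 f_A00pm_123_s3 t 16342 992 1 = true := ex3_b k624_A00pm_123_s3 t665_A00pm_123_s3

theorem t667_A00pm_123_s3 : ∃ t, chk3 f_A00pm_123_s3 t 8171 992 1 = true := ex3_a t666_A00pm_123_s3 k627_A00pm_123_s3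

theorem t668_A00pm_123_s3 : ∃ t, chk3 f_A00pm_123_s3 t 8170 1984 1 = true := ex3_b k621_A00pm_123_s3 k622_A00pm_123_s3

theorem t669_A00pm_123_s3 : ∃ t, chk3 f_A00pm_123_s3 t 8170 992 1 = true := ex3_b t668_A00pm_123_s3 k623_A00pm_123_s3

theorem t670_A00pm_123_s3 : ∃ t, chk3 f_A00pm_123_s3 t 4085 992 1 = true := ex3_a t669_A00pm_123_s3 t667_A00pm_123_s3

theorem t671_A00pm_123_s3 : ∃ t, chk3 f_A00pm_123_s3 t 4085 496 1 = true := ex3_b t670_A00pm_123_s3 t664_A00pm_123_s3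

theorem t672_A00pm_123_s3 : ∃ t, chk3 f_A00pm_123_s3 t 2042 496 1 = true := ex3_a k620_A00pm_123_s3 t671_A00pm_123_s3

theorem t673_A00pm_123_s3 : ∃ t, chk3 f_A00pm_123_s3 t 2042 248 1 = true := ex3_b t672_A00pm_123_s3 k633_A00pm_123_s3

theorem t674_A00pm_123_s3 : ∃ t, chk3 f_A00pm_123_s3 t 2042 124 1 = true := ex3_b t673_A00pm_123_s3 k634_A00pm_123_s3

theorem t675_A00pm_123_s3 : ∃ t, chk3 f_A00pm_123_s3 t 1021 124 1 = true := ex3_a t674_A00pm_123_s3 k635_A00pm_123_s3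

theorem t676_A00pm_123_s3 : ∃ t, chk3 f_A00pm_123_s3 t 1021 62 1 = true := ex3_b t675_A00pm_123_s3 t660_A00pm_123_s3

theorem t677_A00pm_123_s3 : ∃ t, chk3 f_A00pm_123_s3 t 1020 125 1 = true := ex3_b k618_A00pm_123_s3 k619_A00pm_123_s3

theorem t678_A00pm_123_s3 : ∃ t, chk3 f_A00pm_123_s3 t 1020 62 1 = true := ex3_b k617_A00pm_123_s3 t677_A00pm_123_s3

theorem t679_A00pm_123_s3 : ∃ t, chk3 f_A00pm_123_s3 t 510 62 1 = true := ex3_a t678_A00pm_123_s3 t676_A00pm_123_s3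

theorem t680_A00pm_123_s3 : ∃ t, chk3 f_A00pm_123_s3 t 510 31 1 = true := ex3_b t679_A00pm_123_s3 t658_A00pm_123_s3

theorem t681_A00pm_123_s3 : ∃ t, chk3 f_A00pm_123_s3 t 255 31 1 = true := ex3_a t680_A00pm_123_s3 k649_A00pm_123_s3

theorem t682_A00pm_123_s3 : ∃ t, chk3 f_A00pm_123_s3 t 509 255 1 = true := ex3_b k615_A00pm_123_s3 k616_A00pm_123_s3

theorem t683_A00pm_123_s3 : ∃ t, chk3 f_A00pm_123_s3 t 509 127 1 = true := ex3_b k614_A00pm_123_s3 t682_A00pm_123_s3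

theorem t684_A00pm_123_s3 : ∃ t, chk3 f_A00pm_123_s3 t 508 255 1 = true := ex3_b k612_A00pm_123_s3 k613_A00pm_123_s3

theorem t685_A00pm_123_s3 : ∃ t, chk3 f_A00pm_123_s3 t 508 127 1 = true := ex3_b k611_A00pm_123_s3 t684_A00pm_123_s3

theorem t686_A00pm_123_s3 : ∃ t, chk3 f_A00pm_123_s3 t 254 127 1 = true := ex3_a t685_A00pm_123_s3 t683_A00pm_123_s3

theorem t687_A00pm_123_s3 : ∃ t, chk3 f_A00pm_123_s3 t 254 126 1 = true := ex3_c k609_A00pm_123_s3 k610_A00pm_123_s3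

theorem t688_A00pm_123_s3 : ∃ t, chk3 f_A00pm_123_s3 t 254 63 1 = true := ex3_b t687_A00pm_123_s3 t686_A00pm_123_s3

theorem t689_A00pm_123_s3 : ∃ t, chk3 f_A00pm_123_s3 t 509 125 1 = true := ex3_b k607_A00pm_123_s3 k608_A00pm_123_s3

theorem t690_A00pm_123_s3 : ∃ t, chk3 f_A00pm_123_s3 t 254 125 1 = true := ex3_a k606_A00pm_123_s3 t689_A00pm_123_s3

theorem t691_A00pm_123_s3 : ∃ t, chk3 f_A00pm_123_s3 t 254 124 1 = true := ex3_a k604_A00pm_123_s3 k605_A00pm_123_s3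

theorem t692_A00pm_123_s3 : ∃ t, chk3 f_A00pm_123_s3 t 254 62 1 = true := ex3_b t691_A00pm_123_s3 t690_A00pm_123_s3

theorem t693_A00pm_123_s3 : ∃ t, chk3 f_A00pm_123_s3 t 254 31 1 = true := ex3_b t692_A00pm_123_s3 t688_A00pm_123_s3

theorem t694_A00pm_123_s3 : ∃ t, chk3 f_A00pm_123_s3 t 127 31 1 = true := ex3_a t693_A00pm_123_s3 t681_A00pm_123_s3

theorem t695_A00pm_123_s3 : ∃ t, chk3 f_A00pm_123_s3 t 1015 31 1 = true := ex3_b k602_A00pm_123_s3 k603_A00pm_123_s3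

theorem t696_A00pm_123_s3 : ∃ t, chk3 f_A00pm_123_s3 t 507 31 1 = true := ex3_a k601_A00pm_123_s3 t695_A00pm_123_s3

theorem t697_A00pm_123_s3 : ∃ t, chk3 f_A00pm_123_s3 t 253 31 1 = true := ex3_a k600_A00pm_123_s3 t696_A00pm_123_s3

theorem t698_A00pm_123_s3 : ∃ t, chk3 f_A00pm_123_s3 t 126 31 1 = true := ex3_a k599_A00pm_123_s3 t697_A00pm_123_s3

theorem t699_A00pm_123_s3 : ∃ t, chk3 f_A00pm_123_s3 t 63 31 1 = true := ex3_a t698_A00pm_123_s3 t694_A00pm_123_s3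

theorem t700_A00pm_123_s3 : ∃ t, chk3 f_A00pm_123_s3 t 31 31 1 = true := ex3_a k598_A00pm_123_s3 t699_A00pm_123_s3

theorem t701_A00pm_123_s3 : ∃ t, chk3 f_A00pm_123_s3 t 4088 1973 7 = true := ex3_a k591_A00pm_123_s3 k592_A00pm_123_s3

theorem t702_A00pm_123_s3 : ∃ t, chk3 f_A00pm_123_s3 t 2044 1973 7 = true := ex3_a t701_A00pm_123_s3 k593_A00pm_123_s3

theorem t703_A00pm_123_s3 : ∃ t, chk3 f_A00pm_123_s3 t 1022 1973 7 = true := ex3_a t702_A00pm_123_s3 k594_A00pm_123_s3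

theorem t704_A00pm_123_s3 : ∃ t, chk3 f_A00pm_123_s3 t 511 1973 7 = true := ex3_a t703_A00pm_123_s3 k595_A00pm_123_s3

theorem t705_A00pm_123_s3 : ∃ t, chk3 f_A00pm_123_s3 t 4088 1972 7 = true := ex3_a k586_A00pm_123_s3 k587_A00pm_123_s3

theorem t706_A00pm_123_s3 : ∃ t, chk3 f_A00pm_123_s3 t 2044 1972 7 = true := ex3_a t705_A00pm_123_s3 k588_A00pm_123_s3

theorem t707_A00pm_123_s3 : ∃ t, chk3 f_A00pm_123_s3 t 1022 1972 7 = true := ex3_a t706_A00pm_123_s3 k589_A00pm_123_s3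

theorem t708_A00pm_123_s3 : ∃ t, chk3 f_A00pm_123_s3 t 511 1972 7 = true := ex3_a t707_A00pm_123_s3 k590_A00pm_123_s3

theorem t709_A00pm_123_s3 : ∃ t, chk3 f_A00pm_123_s3 t 511 986 7 = true := ex3_b t708_A00pm_123_s3 t704_A00pm_123_s3

theorem t710_A00pm_123_s3 : ∃ t, chk3 f_A00pm_123_s3 t 511 1973 6 = true := ex3_a k584_A00pm_123_s3 k585_A00pm_123_s3

theorem t711_A00pm_123_s3 : ∃ t, chk3 f_A00pm_123_s3 t 4088 1972 6 = true := ex3_a k579_A00pm_123_s3 k580_A00pm_123_s3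

theorem t712_A00pm_123_s3 : ∃ t, chk3 f_A00pm_123_s3 t 2044 1972 6 = true := ex3_a t711_A00pm_123_s3 k581_A00pm_123_s3

theorem t713_A00pm_123_s3 : ∃ t, chk3 f_A00pm_123_s3 t 1022 1972 6 = true := ex3_a t712_A00pm_123_s3 k582_A00pm_123_s3

theorem t714_A00pm_123_s3 : ∃ t, chk3 f_A00pm_123_s3 t 511 1972 6 = true := ex3_a t713_A00pm_123_s3 k583_A00pm_123_s3

theorem t715_A00pm_123_s3 : ∃ t, chk3 f_A00pm_123_s3 t 511 986 6 = true := ex3_b t714_A00pm_123_s3 t710_A00pm_123_s3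

theorem t716_A00pm_123_s3 : ∃ t, chk3 f_A00pm_123_s3 t 511 986 3 = true := ex3_c t715_A00pm_123_s3 t709_A00pm_123_s3

theorem t717_A00pm_123_s3 : ∃ t, chk3 f_A00pm_123_s3 t 511 493 3 = true := ex3_b t716_A00pm_123_s3 k596_A00pm_123_s3

theorem t718_A00pm_123_s3 : ∃ t, chk3 f_A00pm_123_s3 t 4088 1972 5 = true := ex3_a k572_A00pm_123_s3 k573_A00pm_123_s3

theorem t719_A00pm_123_s3 : ∃ t, chk3 f_A00pm_123_s3 t 2044 1972 5 = true := ex3_a t718_A00pm_123_s3 k574_A00pm_123_s3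

theorem t720_A00pm_123_s3 : ∃ t, chk3 f_A00pm_123_s3 t 1022 1972 5 = true := ex3_a t719_A00pm_123_s3 k575_A00pm_123_s3

theorem t721_A00pm_123_s3 : ∃ t, chk3 f_A00pm_123_s3 t 511 1972 5 = true := ex3_a t720_A00pm_123_s3 k576_A00pm_123_s3

theorem t722_A00pm_123_s3 : ∃ t, chk3 f_A00pm_123_s3 t 511 986 5 = true := ex3_b t721_A00pm_123_s3 k577_A00pm_123_s3

theorem t723_A00pm_123_s3 : ∃ t, chk3 f_A00pm_123_s3 t 4088 1972 4 = true := ex3_a k566_A00pm_123_s3 k567_A00pm_123_s3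

theorem t724_A00pm_123_s3 : ∃ t, chk3 f_A00pm_123_s3 t 2044 1972 4 = true := ex3_a t723_A00pm_123_s3 k568_A00pm_123_s3

theorem t725_A00pm_123_s3 : ∃ t, chk3 f_A00pm_123_s3 t 1022 1972 4 = true := ex3_a t724_A00pm_123_s3 k569_A00pm_123_s3

theorem t726_A00pm_123_s3 : ∃ t, chk3 f_A00pm_123_s3 t 511 1972 4 = true := ex3_a t725_A00pm_123_s3 k570_A00pm_123_s3

theorem t727_A00pm_123_s3 : ∃ t, chk3 f_A00pm_123_s3 t 511 986 4 = true := ex3_b t726_A00pm_123_s3 k571_A00pm_123_s3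

theorem t728_A00pm_123_s3 : ∃ t, chk3 f_A00pm_123_s3 t 511 986 2 = true := ex3_c t727_A00pm_123_s3 t722_A00pm_123_s3

theorem t729_A00pm_123_s3 : ∃ t, chk3 f_A00pm_123_s3 t 511 493 2 = true := ex3_b t728_A00pm_123_s3 k578_A00pm_123_s3

theorem t730_A00pm_123_s3 : ∃ t, chk3 f_A00pm_123_s3 t 511 493 1 = true := ex3_c t729_A00pm_123_s3 t717_A00pm_123_s3

theorem t731_A00pm_123_s3 : ∃ t, chk3 f_A00pm_123_s3 t 4088 1971 7 = true := ex3_a k561_A00pm_123_s3 k562_A00pm_123_s3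

theorem t732_A00pm_123_s3 : ∃ t, chk3 f_A00pm_123_s3 t 2044 1971 7 = true := ex3_a t731_A00pm_123_s3 k563_A00pm_123_s3

theorem t733_A00pm_123_s3 : ∃ t, chk3 f_A00pm_123_s3 t 1022 1971 7 = true := ex3_a t732_A00pm_123_s3 k564_A00pm_123_s3

theorem t734_A00pm_123_s3 : ∃ t, chk3 f_A00pm_123_s3 t 511 1971 7 = true := ex3_a t733_A00pm_123_s3 k565_A00pm_123_s3

theorem t735_A00pm_123_s3 : ∃ t, chk3 f_A00pm_123_s3 t 511 985 7 = true := ex3_b k560_A00pm_123_s3 t734_A00pm_123_s3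

theorem t736_A00pm_123_s3 : ∃ t, chk3 f_A00pm_123_s3 t 8176 985 6 = true := ex3_b k554_A00pm_123_s3 k555_A00pm_123_s3

theorem t737_A00pm_123_s3 : ∃ t, chk3 f_A00pm_123_s3 t 4088 985 6 = true := ex3_a t736_A00pm_123_s3 k556_A00pm_123_s3

theorem t738_A00pm_123_s3 : ∃ t, chk3 f_A00pm_123_s3 t 2044 985 6 = true := ex3_a t737_A00pm_123_s3 k557_A00pm_123_s3

theorem t739_A00pm_123_s3 : ∃ t, chk3 f_A00pm_123_s3 t 1022 985 6 = true := ex3_a t738_A00pm_123_s3 k558_A00pm_123_s3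

theorem t740_A00pm_123_s3 : ∃ t, chk3 f_A00pm_123_s3 t 511 985 6 = true := ex3_a t739_A00pm_123_s3 k559_A00pm_123_s3

theorem t741_A00pm_123_s3 : ∃ t, chk3 f_A00pm_123_s3 t 511 985 3 = true := ex3_c t740_A00pm_123_s3 t735_A00pm_123_s3

theorem t742_A00pm_123_s3 : ∃ t, chk3 f_A00pm_123_s3 t 511 492 3 = true := ex3_b k553_A00pm_123_s3 t741_A00pm_123_s3

theorem t743_A00pm_123_s3 : ∃ t, chk3 f_A00pm_123_s3 t 8176 985 5 = true := ex3_b k547_A00pm_123_s3 k548_A00pm_123_s3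

theorem t744_A00pm_123_s3 : ∃ t, chk3 f_A00pm_123_s3 t 4088 985 5 = true := ex3_a t743_A00pm_123_s3 k549_A00pm_123_s3

theorem t745_A00pm_123_s3 : ∃ t, chk3 f_A00pm_123_s3 t 2044 985 5 = true := ex3_a t744_A00pm_123_s3 k550_A00pm_123_s3

theorem t746_A00pm_123_s3 : ∃ t, chk3 f_A00pm_123_s3 t 1022 985 5 = true := ex3_a t745_A00pm_123_s3 k551_A00pm_123_s3

theorem t747_A00pm_123_s3 : ∃ t, chk3 f_A00pm_123_s3 t 511 985 5 = true := ex3_a t746_A00pm_123_s3 k552_A00pm_123_s3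

theorem t748_A00pm_123_s3 : ∃ t, chk3 f_A00pm_123_s3 t 8176 985 4 = true := ex3_b k541_A00pm_123_s3 k542_A00pm_123_s3

theorem t749_A00pm_123_s3 : ∃ t, chk3 f_A00pm_123_s3 t 4088 985 4 = true := ex3_a t748_A00pm_123_s3 k543_A00pm_123_s3

theorem t750_A00pm_123_s3 : ∃ t, chk3 f_A00pm_123_s3 t 2044 985 4 = true := ex3_a t749_A00pm_123_s3 k544_A00pm_123_s3

theorem t751_A00pm_123_s3 : ∃ t, chk3 f_A00pm_123_s3 t 1022 985 4 = true := ex3_a t750_A00pm_123_s3 k545_A00pm_123_s3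

theorem t752_A00pm_123_s3 : ∃ t, chk3 f_A00pm_123_s3 t 511 985 4 = true := ex3_a t751_A00pm_123_s3 k546_A00pm_123_s3

theorem t753_A00pm_123_s3 : ∃ t, chk3 f_A00pm_123_s3 t 511 985 2 = true := ex3_c t752_A00pm_123_s3 t747_A00pm_123_s3

theorem t754_A00pm_123_s3 : ∃ t, chk3 f_A00pm_123_s3 t 511 492 2 = true := ex3_b k540_A00pm_123_s3 t753_A00pm_123_s3

theorem t755_A00pm_123_s3 : ∃ t, chk3 f_A00pm_123_s3 t 511 492 1 = true := ex3_c t754_A00pm_123_s3 t742_A00pm_123_s3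

theorem t756_A00pm_123_s3 : ∃ t, chk3 f_A00pm_123_s3 t 511 246 1 = true := ex3_b t755_A00pm_123_s3 t730_A00pm_123_s3

theorem t757_A00pm_123_s3 : ∃ t, chk3 f_A00pm_123_s3 t 511 123 1 = true := ex3_b t756_A00pm_123_s3 k597_A00pm_123_s3

theorem t758_A00pm_123_s3 : ∃ t, chk3 f_A00pm_123_s3 t 511 61 1 = true := ex3_b k539_A00pm_123_s3 t757_A00pm_123_s3

theorem t759_A00pm_123_s3 : ∃ t, chk3 f_A00pm_123_s3 t 511 30 1 = true := ex3_b k538_A00pm_123_s3 t758_A00pm_123_s3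

theorem t760_A00pm_123_s3 : ∃ t, chk3 f_A00pm_123_s3 t 4085 247 1 = true := ex3_c k535_A00pm_123_s3 k536_A00pm_123_s3

theorem t761_A00pm_123_s3 : ∃ t, chk3 f_A00pm_123_s3 t 16339 1983 1 = true := ex3_b k533_A00pm_123_s3 k534_A00pm_123_s3

theorem t762_A00pm_123_s3 : ∃ t, chk3 f_A00pm_123_s3 t 8169 1983 1 = true := ex3_a k532_A00pm_123_s3 t761_A00pm_123_s3

theorem t763_A00pm_123_s3 : ∃ t, chk3 f_A00pm_123_s3 t 8169 1982 1 = true := ex3_b k530_A00pm_123_s3 k531_A00pm_123_s3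

theorem t764_A00pm_123_s3 : ∃ t, chk3 f_A00pm_123_s3 t 8169 991 1 = true := ex3_b t763_A00pm_123_s3 t762_A00pm_123_s3

theorem t765_A00pm_123_s3 : ∃ t, chk3 f_A00pm_123_s3 t 4084 991 1 = true := ex3_a k529_A00pm_123_s3 t764_A00pm_123_s3

theorem t766_A00pm_123_s3 : ∃ t, chk3 f_A00pm_123_s3 t 4084 1981 1 = true := ex3_c k527_A00pm_123_s3 k528_A00pm_123_s3

theorem t767_A00pm_123_s3 : ∃ t, chk3 f_A00pm_123_s3 t 4084 990 1 = true := ex3_b k526_A00pm_123_s3 t766_A00pm_123_s3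

theorem t768_A00pm_123_s3 : ∃ t, chk3 f_A00pm_123_s3 t 4084 495 1 = true := ex3_b t767_A00pm_123_s3 t765_A00pm_123_s3

theorem t769_A00pm_123_s3 : ∃ t, chk3 f_A00pm_123_s3 t 4084 247 1 = true := ex3_b k525_A00pm_123_s3 t768_A00pm_123_s3

theorem t770_A00pm_123_s3 : ∃ t, chk3 f_A00pm_123_s3 t 2042 247 1 = true := ex3_a t769_A00pm_123_s3 t760_A00pm_123_s3

theorem t771_A00pm_123_s3 : ∃ t, chk3 f_A00pm_123_s3 t 1021 247 1 = true := ex3_a t770_A00pm_123_s3 k537_A00pm_123_s3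

theorem t772_A00pm_123_s3 : ∃ t, chk3 f_A00pm_123_s3 t 8175 1972 3 = true := ex3_a k521_A00pm_123_s3 k522_A00pm_123_s3

theorem t773_A00pm_123_s3 : ∃ t, chk3 f_A00pm_123_s3 t 8175 986 3 = true := ex3_b t772_A00pm_123_s3 k523_A00pm_123_s3

theorem t774_A00pm_123_s3 : ∃ t, chk3 f_A00pm_123_s3 t 8175 986 2 = true := ex3_b k519_A00pm_123_s3 k520_A00pm_123_s3

theorem t775_A00pm_123_s3 : ∃ t, chk3 f_A00pm_123_s3 t 8175 986 1 = true := ex3_c t774_A00pm_123_s3 t773_A00pm_123_s3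

theorem t776_A00pm_123_s3 : ∃ t, chk3 f_A00pm_123_s3 t 8175 493 1 = true := ex3_b t775_A00pm_123_s3 k524_A00pm_123_s3

theorem t777_A00pm_123_s3 : ∃ t, chk3 f_A00pm_123_s3 t 8174 986 1 = true := ex3_c k516_A00pm_123_s3 k517_A00pm_123_s3

theorem t778_A00pm_123_s3 : ∃ t, chk3 f_A00pm_123_s3 t 8174 493 1 = true := ex3_b t777_A00pm_123_s3 k518_A00pm_123_s3

theorem t779_A00pm_123_s3 : ∃ t, chk3 f_A00pm_123_s3 t 4087 493 1 = true := ex3_a t778_A00pm_123_s3 t776_A00pm_123_s3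

theorem t780_A00pm_123_s3 : ∃ t, chk3 f_A00pm_123_s3 t 4086 986 1 = true := ex3_a k513_A00pm_123_s3 k514_A00pm_123_s3

theorem t781_A00pm_123_s3 : ∃ t, chk3 f_A00pm_123_s3 t 4086 493 1 = true := ex3_b t780_A00pm_123_s3 k515_A00pm_123_s3

theorem t782_A00pm_123_s3 : ∃ t, chk3 f_A00pm_123_s3 t 2043 493 1 = true := ex3_a t781_A00pm_123_s3 t779_A00pm_123_s3

theorem t783_A00pm_123_s3 : ∃ t, chk3 f_A00pm_123_s3 t 8175 1971 3 = true := ex3_a k511_A00pm_123_s3 k512_A00pm_123_s3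

theorem t784_A00pm_123_s3 : ∃ t, chk3 f_A00pm_123_s3 t 8175 1970 3 = true := ex3_a k509_A00pm_123_s3 k510_A00pm_123_s3

theorem t785_A00pm_123_s3 : ∃ t, chk3 f_A00pm_123_s3 t 8175 985 3 = true := ex3_b t784_A00pm_123_s3 t783_A00pm_123_s3

theorem t786_A00pm_123_s3 : ∃ t, chk3 f_A00pm_123_s3 t 8175 1971 2 = true := ex3_a k507_A00pm_123_s3 k508_A00pm_123_s3

theorem t787_A00pm_123_s3 : ∃ t, chk3 f_A00pm_123_s3 t 8175 1970 2 = true := ex3_a k505_A00pm_123_s3 k506_A00pm_123_s3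

theorem t788_A00pm_123_s3 : ∃ t, chk3 f_A00pm_123_s3 t 8175 985 2 = true := ex3_b t787_A00pm_123_s3 t786_A00pm_123_s3

theorem t789_A00pm_123_s3 : ∃ t, chk3 f_A00pm_123_s3 t 8175 985 1 = true := ex3_c t788_A00pm_123_s3 t785_A00pm_123_s3

theorem t790_A00pm_123_s3 : ∃ t, chk3 f_A00pm_123_s3 t 8174 985 3 = true := ex3_b k503_A00pm_123_s3 k504_A00pm_123_s3

theorem t791_A00pm_123_s3 : ∃ t, chk3 f_A00pm_123_s3 t 8174 985 2 = true := ex3_b k501_A00pm_123_s3 k502_A00pm_123_s3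

theorem t792_A00pm_123_s3 : ∃ t, chk3 f_A00pm_123_s3 t 8174 985 1 = true := ex3_c t791_A00pm_123_s3 t790_A00pm_123_s3

theorem t793_A00pm_123_s3 : ∃ t, chk3 f_A00pm_123_s3 t 4087 985 1 = true := ex3_a t792_A00pm_123_s3 t789_A00pm_123_s3

theorem t794_A00pm_123_s3 : ∃ t, chk3 f_A00pm_123_s3 t 8175 1969 3 = true := ex3_a k499_A00pm_123_s3 k500_A00pm_123_s3

theorem t795_A00pm_123_s3 : ∃ t, chk3 f_A00pm_123_s3 t 8175 1968 3 = true := ex3_a k497_A00pm_123_s3 k498_A00pm_123_s3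

theorem t796_A00pm_123_s3 : ∃ t, chk3 f_A00pm_123_s3 t 8175 984 3 = true := ex3_b t795_A00pm_123_s3 t794_A00pm_123_s3

theorem t797_A00pm_123_s3 : ∃ t, chk3 f_A00pm_123_s3 t 8175 1969 2 = true := ex3_a k495_A00pm_123_s3 k496_A00pm_123_s3

theorem t798_A00pm_123_s3 : ∃ t, chk3 f_A00pm_123_s3 t 8175 1968 2 = true := ex3_a k493_A00pm_123_s3 k494_A00pm_123_s3

theorem t799_A00pm_123_s3 : ∃ t, chk3 f_A00pm_123_s3 t 8175 984 2 = true := ex3_b t798_A00pm_123_s3 t797_A00pm_123_s3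

theorem t800_A00pm_123_s3 : ∃ t, chk3 f_A00pm_123_s3 t 8175 984 1 = true := ex3_c t799_A00pm_123_s3 t796_A00pm_123_s3

theorem t801_A00pm_123_s3 : ∃ t, chk3 f_A00pm_123_s3 t 8174 1969 3 = true := ex3_a k491_A00pm_123_s3 k492_A00pm_123_s3

theorem t802_A00pm_123_s3 : ∃ t, chk3 f_A00pm_123_s3 t 8174 1968 3 = true := ex3_a k489_A00pm_123_s3 k490_A00pm_123_s3

theorem t803_A00pm_123_s3 : ∃ t, chk3 f_A00pm_123_s3 t 8174 984 3 = true := ex3_b t802_A00pm_123_s3 t801_A00pm_123_s3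

theorem t804_A00pm_123_s3 : ∃ t, chk3 f_A00pm_123_s3 t 16349 984 2 = true := ex3_b k487_A00pm_123_s3 k488_A00pm_123_s3

theorem t805_A00pm_123_s3 : ∃ t, chk3 f_A00pm_123_s3 t 8174 984 2 = true := ex3_a k486_A00pm_123_s3 t804_A00pm_123_s3

theorem t806_A00pm_123_s3 : ∃ t, chk3 f_A00pm_123_s3 t 8174 984 1 = true := ex3_c t805_A00pm_123_s3 t803_A00pm_123_s3

theorem t807_A00pm_123_s3 : ∃ t, chk3 f_A00pm_123_s3 t 4087 984 1 = true := ex3_a t806_A00pm_123_s3 t800_A00pm_123_s3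

theorem t808_A00pm_123_s3 : ∃ t, chk3 f_A00pm_123_s3 t 4087 492 1 = true := ex3_b t807_A00pm_123_s3 t793_A00pm_123_s3

theorem t809_A00pm_123_s3 : ∃ t, chk3 f_A00pm_123_s3 t 4086 985 1 = true := ex3_a k484_A00pm_123_s3 k485_A00pm_123_s3

theorem t810_A00pm_123_s3 : ∃ t, chk3 f_A00pm_123_s3 t 8173 984 1 = true := ex3_c k482_A00pm_123_s3 k483_A00pm_123_s3

theorem t811_A00pm_123_s3 : ∃ t, chk3 f_A00pm_123_s3 t 4086 984 1 = true := ex3_a k481_A00pm_123_s3 t810_A00pm_123_s3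

theorem t812_A00pm_123_s3 : ∃ t, chk3 f_A00pm_123_s3 t 4086 492 1 = true := ex3_b t811_A00pm_123_s3 t809_A00pm_123_s3

theorem t813_A00pm_123_s3 : ∃ t, chk3 f_A00pm_123_s3 t 2043 492 1 = true := ex3_a t812_A00pm_123_s3 t808_A00pm_123_s3

theorem t814_A00pm_123_s3 : ∃ t, chk3 f_A00pm_123_s3 t 2043 246 1 = true := ex3_b t813_A00pm_123_s3 t782_A00pm_123_s3

theorem t815_A00pm_123_s3 : ∃ t, chk3 f_A00pm_123_s3 t 2042 493 1 = true := ex3_a k479_A00pm_123_s3 k480_A00pm_123_s3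

theorem t816_A00pm_123_s3 : ∃ t, chk3 f_A00pm_123_s3 t 2042 492 1 = true := ex3_a k477_A00pm_123_s3 k478_A00pm_123_s3

theorem t817_A00pm_123_s3 : ∃ t, chk3 f_A00pm_123_s3 t 2042 246 1 = true := ex3_b t816_A00pm_123_s3 t815_A00pm_123_s3

theorem t818_A00pm_123_s3 : ∃ t, chk3 f_A00pm_123_s3 t 1021 246 1 = true := ex3_a t817_A00pm_123_s3 t814_A00pm_123_s3

theorem t819_A00pm_123_s3 : ∃ t, chk3 f_A00pm_123_s3 t 1021 123 1 = true := ex3_b t818_A00pm_123_s3 t771_A00pm_123_s3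

theorem t820_A00pm_123_s3 : ∃ t, chk3 f_A00pm_123_s3 t 16350 983 3 = true := ex3_a k474_A00pm_123_s3 k475_A00pm_123_s3

theorem t821_A00pm_123_s3 : ∃ t, chk3 f_A00pm_123_s3 t 8175 983 3 = true := ex3_a t820_A00pm_123_s3 k476_A00pm_123_s3

theorem t822_A00pm_123_s3 : ∃ t, chk3 f_A00pm_123_s3 t 8175 983 1 = true := ex3_c k473_A00pm_123_s3 t821_A00pm_123_s3

theorem t823_A00pm_123_s3 : ∃ t, chk3 f_A00pm_123_s3 t 8174 1967 3 = true := ex3_a k471_A00pm_123_s3 k472_A00pm_123_s3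

theorem t824_A00pm_123_s3 : ∃ t, chk3 f_A00pm_123_s3 t 8174 1966 3 = true := ex3_a k469_A00pm_123_s3 k470_A00pm_123_s3

theorem t825_A00pm_123_s3 : ∃ t, chk3 f_A00pm_123_s3 t 8174 983 3 = true := ex3_b t824_A00pm_123_s3 t823_A00pm_123_s3

theorem t826_A00pm_123_s3 : ∃ t, chk3 f_A00pm_123_s3 t 8174 983 2 = true := ex3_b k467_A00pm_123_s3 k468_A00pm_123_s3

theorem t827_A00pm_123_s3 : ∃ t, chk3 f_A00pm_123_s3 t 8174 983 1 = true := ex3_c t826_A00pm_123_s3 t825_A00pm_123_s3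

theorem t828_A00pm_123_s3 : ∃ t, chk3 f_A00pm_123_s3 t 4087 983 1 = true := ex3_a t827_A00pm_123_s3 t822_A00pm_123_s3

theorem t829_A00pm_123_s3 : ∃ t, chk3 f_A00pm_123_s3 t 4087 982 1 = true := ex3_b k465_A00pm_123_s3 k466_A00pm_123_s3

theorem t830_A00pm_123_s3 : ∃ t, chk3 f_A00pm_123_s3 t 4087 491 1 = true := ex3_b t829_A00pm_123_s3 t828_A00pm_123_s3

theorem t831_A00pm_123_s3 : ∃ t, chk3 f_A00pm_123_s3 t 8173 983 1 = true := ex3_c k463_A00pm_123_s3 k464_A00pm_123_s3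

theorem t832_A00pm_123_s3 : ∃ t, chk3 f_A00pm_123_s3 t 4086 983 1 = true := ex3_a k462_A00pm_123_s3 t831_A00pm_123_s3

theorem t833_A00pm_123_s3 : ∃ t, chk3 f_A00pm_123_s3 t 4086 982 1 = true := ex3_a k460_A00pm_123_s3 k461_A00pm_123_s3

theorem t834_A00pm_123_s3 : ∃ t, chk3 f_A00pm_123_s3 t 4086 491 1 = true := ex3_b t833_A00pm_123_s3 t832_A00pm_123_s3

theorem t835_A00pm_123_s3 : ∃ t, chk3 f_A00pm_123_s3 t 2043 491 1 = true := ex3_a t834_A00pm_123_s3 t830_A00pm_123_s3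

theorem t836_A00pm_123_s3 : ∃ t, chk3 f_A00pm_123_s3 t 4086 981 1 = true := ex3_a k457_A00pm_123_s3 k458_A00pm_123_s3

theorem t837_A00pm_123_s3 : ∃ t, chk3 f_A00pm_123_s3 t 8172 980 1 = true := ex3_a k454_A00pm_123_s3 k455_A00pm_123_s3

theorem t838_A00pm_123_s3 : ∃ t, chk3 f_A00pm_123_s3 t 4086 980 1 = true := ex3_a t837_A00pm_123_s3 k456_A00pm_123_s3

theorem t839_A00pm_123_s3 : ∃ t, chk3 f_A00pm_123_s3 t 4086 490 1 = true := ex3_b t838_A00pm_123_s3 t836_A00pm_123_s3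

theorem t840_A00pm_123_s3 : ∃ t, chk3 f_A00pm_123_s3 t 2043 490 1 = true := ex3_a t839_A00pm_123_s3 k459_A00pm_123_s3

theorem t841_A00pm_123_s3 : ∃ t, chk3 f_A00pm_123_s3 t 2043 245 1 = true := ex3_b t840_A00pm_123_s3 t835_A00pm_123_s3

theorem t842_A00pm_123_s3 : ∃ t, chk3 f_A00pm_123_s3 t 4085 491 1 = true := ex3_c k452_A00pm_123_s3 k453_A00pm_123_s3

theorem t843_A00pm_123_s3 : ∃ t, chk3 f_A00pm_123_s3 t 2042 491 1 = true := ex3_a k451_A00pm_123_s3 t842_A00pm_123_s3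

theorem t844_A00pm_123_s3 : ∃ t, chk3 f_A00pm_123_s3 t 4085 980 3 = true := ex3_a k448_A00pm_123_s3 k449_A00pm_123_s3

theorem t845_A00pm_123_s3 : ∃ t, chk3 f_A00pm_123_s3 t 4085 490 3 = true := ex3_b t844_A00pm_123_s3 k450_A00pm_123_s3

theorem t846_A00pm_123_s3 : ∃ t, chk3 f_A00pm_123_s3 t 4084 490 3 = true := ex3_b k446_A00pm_123_s3 k447_A00pm_123_s3

theorem t847_A00pm_123_s3 : ∃ t, chk3 f_A00pm_123_s3 t 2042 490 3 = true := ex3_a t846_A00pm_123_s3 t845_A00pm_123_s3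

theorem t848_A00pm_123_s3 : ∃ t, chk3 f_A00pm_123_s3 t 4085 980 2 = true := ex3_a k443_A00pm_123_s3 k444_A00pm_123_s3

theorem t849_A00pm_123_s3 : ∃ t, chk3 f_A00pm_123_s3 t 4085 490 2 = true := ex3_b t848_A00pm_123_s3 k445_A00pm_123_s3

theorem t850_A00pm_123_s3 : ∃ t, chk3 f_A00pm_123_s3 t 2042 490 2 = true := ex3_a k442_A00pm_123_s3 t849_A00pm_123_s3

theorem t851_A00pm_123_s3 : ∃ t, chk3 f_A00pm_123_s3 t 2042 490 1 = true := ex3_c t850_A00pm_123_s3 t847_A00pm_123_s3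

theorem t852_A00pm_123_s3 : ∃ t, chk3 f_A00pm_123_s3 t 2042 245 1 = true := ex3_b t851_A00pm_123_s3 t843_A00pm_123_s3

theorem t853_A00pm_123_s3 : ∃ t, chk3 f_A00pm_123_s3 t 1021 245 1 = true := ex3_a t852_A00pm_123_s3 t841_A00pm_123_s3

theorem t854_A00pm_123_s3 : ∃ t, chk3 f_A00pm_123_s3 t 16342 979 3 = true := ex3_a k438_A00pm_123_s3 k439_A00pm_123_s3

theorem t855_A00pm_123_s3 : ∃ t, chk3 f_A00pm_123_s3 t 8171 979 3 = true := ex3_a t854_A00pm_123_s3 k440_A00pm_123_s3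

theorem t856_A00pm_123_s3 : ∃ t, chk3 f_A00pm_123_s3 t 4085 979 3 = true := ex3_a k437_A00pm_123_s3 t855_A00pm_123_s3

theorem t857_A00pm_123_s3 : ∃ t, chk3 f_A00pm_123_s3 t 4085 1957 3 = true := ex3_a k435_A00pm_123_s3 k436_A00pm_123_s3

theorem t858_A00pm_123_s3 : ∃ t, chk3 f_A00pm_123_s3 t 4085 978 3 = true := ex3_b k434_A00pm_123_s3 t857_A00pm_123_s3

theorem t859_A00pm_123_s3 : ∃ t, chk3 f_A00pm_123_s3 t 4085 489 3 = true := ex3_b t858_A00pm_123_s3 t856_A00pm_123_s3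

theorem t860_A00pm_123_s3 : ∃ t, chk3 f_A00pm_123_s3 t 16342 979 2 = true := ex3_c k431_A00pm_123_s3 k432_A00pm_123_s3

theorem t861_A00pm_123_s3 : ∃ t, chk3 f_A00pm_123_s3 t 8171 979 2 = true := ex3_a t860_A00pm_123_s3 k433_A00pm_123_s3

theorem t862_A00pm_123_s3 : ∃ t, chk3 f_A00pm_123_s3 t 4085 979 2 = true := ex3_a k430_A00pm_123_s3 t861_A00pm_123_s3

theorem t863_A00pm_123_s3 : ∃ t, chk3 f_A00pm_123_s3 t 4085 978 2 = true := ex3_b k428_A00pm_123_s3 k429_A00pm_123_s3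

theorem t864_A00pm_123_s3 : ∃ t, chk3 f_A00pm_123_s3 t 4085 489 2 = true := ex3_b t863_A00pm_123_s3 t862_A00pm_123_s3

theorem t865_A00pm_123_s3 : ∃ t, chk3 f_A00pm_123_s3 t 4085 489 1 = true := ex3_c t864_A00pm_123_s3 t859_A00pm_123_s3

theorem t866_A00pm_123_s3 : ∃ t, chk3 f_A00pm_123_s3 t 4084 979 1 = true := ex3_c k426_A00pm_123_s3 k427_A00pm_123_s3

theorem t867_A00pm_123_s3 : ∃ t, chk3 f_A00pm_123_s3 t 4084 978 1 = true := ex3_a k424_A00pm_123_s3 k425_A00pm_123_s3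

theorem t868_A00pm_123_s3 : ∃ t, chk3 f_A00pm_123_s3 t 4084 489 1 = true := ex3_b t867_A00pm_123_s3 t866_A00pm_123_s3

theorem t869_A00pm_123_s3 : ∃ t, chk3 f_A00pm_123_s3 t 2042 489 1 = true := ex3_a t868_A00pm_123_s3 t865_A00pm_123_s3

theorem t870_A00pm_123_s3 : ∃ t, chk3 f_A00pm_123_s3 t 4084 977 1 = true := ex3_a k421_A00pm_123_s3 k422_A00pm_123_s3

theorem t871_A00pm_123_s3 : ∃ t, chk3 f_A00pm_123_s3 t 4084 976 1 = true := ex3_a k419_A00pm_123_s3 k420_A00pm_123_s3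

theorem t872_A00pm_123_s3 : ∃ t, chk3 f_A00pm_123_s3 t 4084 488 1 = true := ex3_b t871_A00pm_123_s3 t870_A00pm_123_s3

theorem t873_A00pm_123_s3 : ∃ t, chk3 f_A00pm_123_s3 t 2042 488 1 = true := ex3_a t872_A00pm_123_s3 k423_A00pm_123_s3

theorem t874_A00pm_123_s3 : ∃ t, chk3 f_A00pm_123_s3 t 2042 244 1 = true := ex3_b t873_A00pm_123_s3 t869_A00pm_123_s3

theorem t875_A00pm_123_s3 : ∃ t, chk3 f_A00pm_123_s3 t 1021 244 1 = true := ex3_a t874_A00pm_123_s3 k441_A00pm_123_s3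

theorem t876_A00pm_123_s3 : ∃ t, chk3 f_A00pm_123_s3 t 1021 122 1 = true := ex3_b t875_A00pm_123_s3 t853_A00pm_123_s3

theorem t877_A00pm_123_s3 : ∃ t, chk3 f_A00pm_123_s3 t 1021 61 1 = true := ex3_b t876_A00pm_123_s3 t819_A00pm_123_s3

theorem t878_A00pm_123_s3 : ∃ t, chk3 f_A00pm_123_s3 t 2041 495 1 = true := ex3_c k417_A00pm_123_s3 k418_A00pm_123_s3

theorem t879_A00pm_123_s3 : ∃ t, chk3 f_A00pm_123_s3 t 8166 1978 1 = true := ex3_c k413_A00pm_123_s3 k414_A00pm_123_s3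

theorem t880_A00pm_123_s3 : ∃ t, chk3 f_A00pm_123_s3 t 8166 989 1 = true := ex3_b t879_A00pm_123_s3 k415_A00pm_123_s3

theorem t881_A00pm_123_s3 : ∃ t, chk3 f_A00pm_123_s3 t 8166 494 1 = true := ex3_b k412_A00pm_123_s3 t880_A00pm_123_s3

theorem t882_A00pm_123_s3 : ∃ t, chk3 f_A00pm_123_s3 t 4083 494 1 = true := ex3_a t881_A00pm_123_s3 k416_A00pm_123_s3

theorem t883_A00pm_123_s3 : ∃ t, chk3 f_A00pm_123_s3 t 8165 1977 1 = true := ex3_a k409_A00pm_123_s3 k410_A00pm_123_s3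

theorem t884_A00pm_123_s3 : ∃ t, chk3 f_A00pm_123_s3 t 8165 988 1 = true := ex3_b k408_A00pm_123_s3 t883_A00pm_123_s3

theorem t885_A00pm_123_s3 : ∃ t, chk3 f_A00pm_123_s3 t 8164 988 1 = true := ex3_c k406_A00pm_123_s3 k407_A00pm_123_s3

theorem t886_A00pm_123_s3 : ∃ t, chk3 f_A00pm_123_s3 t 4082 988 1 = true := ex3_a t885_A00pm_123_s3 t884_A00pm_123_s3

theorem t887_A00pm_123_s3 : ∃ t, chk3 f_A00pm_123_s3 t 4082 494 1 = true := ex3_b t886_A00pm_123_s3 k411_A00pm_123_s3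

theorem t888_A00pm_123_s3 : ∃ t, chk3 f_A00pm_123_s3 t 2041 494 1 = true := ex3_a t887_A00pm_123_s3 t882_A00pm_123_s3

theorem t889_A00pm_123_s3 : ∃ t, chk3 f_A00pm_123_s3 t 2041 247 1 = true := ex3_b t888_A00pm_123_s3 t878_A00pm_123_s3

theorem t890_A00pm_123_s3 : ∃ t, chk3 f_A00pm_123_s3 t 1020 247 1 = true := ex3_a k405_A00pm_123_s3 t889_A00pm_123_s3

theorem t891_A00pm_123_s3 : ∃ t, chk3 f_A00pm_123_s3 t 2041 493 1 = true := ex3_a k403_A00pm_123_s3 k404_A00pm_123_s3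

theorem t892_A00pm_123_s3 : ∃ t, chk3 f_A00pm_123_s3 t 2041 246 1 = true := ex3_b k402_A00pm_123_s3 t891_A00pm_123_s3

theorem t893_A00pm_123_s3 : ∃ t, chk3 f_A00pm_123_s3 t 8163 987 1 = true := ex3_b k400_A00pm_123_s3 k401_A00pm_123_s3

theorem t894_A00pm_123_s3 : ∃ t, chk3 f_A00pm_123_s3 t 4081 987 1 = true := ex3_a k399_A00pm_123_s3 t893_A00pm_123_s3

theorem t895_A00pm_123_s3 : ∃ t, chk3 f_A00pm_123_s3 t 8162 1973 1 = true := ex3_a k396_A00pm_123_s3 k397_A00pm_123_s3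

theorem t896_A00pm_123_s3 : ∃ t, chk3 f_A00pm_123_s3 t 4081 1973 1 = true := ex3_a t895_A00pm_123_s3 k398_A00pm_123_s3

theorem t897_A00pm_123_s3 : ∃ t, chk3 f_A00pm_123_s3 t 4081 986 1 = true := ex3_b k395_A00pm_123_s3 t896_A00pm_123_s3

theorem t898_A00pm_123_s3 : ∃ t, chk3 f_A00pm_123_s3 t 4081 493 1 = true := ex3_b t897_A00pm_123_s3 t894_A00pm_123_s3

theorem t899_A00pm_123_s3 : ∃ t, chk3 f_A00pm_123_s3 t 4080 986 1 = true := ex3_a k392_A00pm_123_s3 k393_A00pm_123_s3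

theorem t900_A00pm_123_s3 : ∃ t, chk3 f_A00pm_123_s3 t 4080 493 1 = true := ex3_b t899_A00pm_123_s3 k394_A00pm_123_s3

theorem t901_A00pm_123_s3 : ∃ t, chk3 f_A00pm_123_s3 t 2040 493 1 = true := ex3_a t900_A00pm_123_s3 t898_A00pm_123_s3

theorem t902_A00pm_123_s3 : ∃ t, chk3 f_A00pm_123_s3 t 8160 985 1 = true := ex3_b k388_A00pm_123_s3 k389_A00pm_123_s3

theorem t903_A00pm_123_s3 : ∃ t, chk3 f_A00pm_123_s3 t 8160 492 1 = true := ex3_b k387_A00pm_123_s3 t902_A00pm_123_s3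

theorem t904_A00pm_123_s3 : ∃ t, chk3 f_A00pm_123_s3 t 4080 492 1 = true := ex3_a t903_A00pm_123_s3 k390_A00pm_123_s3

theorem t905_A00pm_123_s3 : ∃ t, chk3 f_A00pm_123_s3 t 2040 492 1 = true := ex3_a t904_A00pm_123_s3 k391_A00pm_123_s3

theorem t906_A00pm_123_s3 : ∃ t, chk3 f_A00pm_123_s3 t 2040 246 1 = true := ex3_b t905_A00pm_123_s3 t901_A00pm_123_s3

theorem t907_A00pm_123_s3 : ∃ t, chk3 f_A00pm_123_s3 t 1020 246 1 = true := ex3_a t906_A00pm_123_s3 t892_A00pm_123_s3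

theorem t908_A00pm_123_s3 : ∃ t, chk3 f_A00pm_123_s3 t 1020 123 1 = true := ex3_b t907_A00pm_123_s3 t890_A00pm_123_s3

theorem t909_A00pm_123_s3 : ∃ t, chk3 f_A00pm_123_s3 t 2041 490 1 = true := ex3_a k384_A00pm_123_s3 k385_A00pm_123_s3

theorem t910_A00pm_123_s3 : ∃ t, chk3 f_A00pm_123_s3 t 2041 245 1 = true := ex3_b t909_A00pm_123_s3 k386_A00pm_123_s3

theorem t911_A00pm_123_s3 : ∃ t, chk3 f_A00pm_123_s3 t 1020 245 1 = true := ex3_a k383_A00pm_123_s3 t910_A00pm_123_s3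

theorem t912_A00pm_123_s3 : ∃ t, chk3 f_A00pm_123_s3 t 4083 489 1 = true := ex3_b k381_A00pm_123_s3 k382_A00pm_123_s3

theorem t913_A00pm_123_s3 : ∃ t, chk3 f_A00pm_123_s3 t 2041 489 1 = true := ex3_a k380_A00pm_123_s3 t912_A00pm_123_s3

theorem t914_A00pm_123_s3 : ∃ t, chk3 f_A00pm_123_s3 t 4083 488 1 = true := ex3_b k378_A00pm_123_s3 k379_A00pm_123_s3

theorem t915_A00pm_123_s3 : ∃ t, chk3 f_A00pm_123_s3 t 2041 488 1 = true := ex3_a k377_A00pm_123_s3 t914_A00pm_123_s3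

theorem t916_A00pm_123_s3 : ∃ t, chk3 f_A00pm_123_s3 t 2041 244 1 = true := ex3_b t915_A00pm_123_s3 t913_A00pm_123_s3

theorem t917_A00pm_123_s3 : ∃ t, chk3 f_A00pm_123_s3 t 2040 244 1 = true := ex3_c k375_A00pm_123_s3 k376_A00pm_123_s3

theorem t918_A00pm_123_s3 : ∃ t, chk3 f_A00pm_123_s3 t 1020 244 1 = true := ex3_a t917_A00pm_123_s3 t916_A00pm_123_s3

theorem t919_A00pm_123_s3 : ∃ t, chk3 f_A00pm_123_s3 t 1020 122 1 = true := ex3_b t918_A00pm_123_s3 t911_A00pm_123_s3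

theorem t920_A00pm_123_s3 : ∃ t, chk3 f_A00pm_123_s3 t 1020 61 1 = true := ex3_b t919_A00pm_123_s3 t908_A00pm_123_s3

theorem t921_A00pm_123_s3 : ∃ t, chk3 f_A00pm_123_s3 t 510 61 1 = true := ex3_a t920_A00pm_123_s3 t877_A00pm_123_s3

theorem t922_A00pm_123_s3 : ∃ t, chk3 f_A00pm_123_s3 t 4083 487 1 = true := ex3_b k372_A00pm_123_s3 k373_A00pm_123_s3

theorem t923_A00pm_123_s3 : ∃ t, chk3 f_A00pm_123_s3 t 2041 487 1 = true := ex3_a k371_A00pm_123_s3 t922_A00pm_123_s3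

theorem t924_A00pm_123_s3 : ∃ t, chk3 f_A00pm_123_s3 t 4082 486 1 = true := ex3_b k368_A00pm_123_s3 k369_A00pm_123_s3

theorem t925_A00pm_123_s3 : ∃ t, chk3 f_A00pm_123_s3 t 2041 486 1 = true := ex3_a t924_A00pm_123_s3 k370_A00pm_123_s3

theorem t926_A00pm_123_s3 : ∃ t, chk3 f_A00pm_123_s3 t 2041 243 1 = true := ex3_b t925_A00pm_123_s3 t923_A00pm_123_s3

theorem t927_A00pm_123_s3 : ∃ t, chk3 f_A00pm_123_s3 t 2040 486 1 = true := ex3_a k365_A00pm_123_s3 k366_A00pm_123_s3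

theorem t928_A00pm_123_s3 : ∃ t, chk3 f_A00pm_123_s3 t 2040 243 1 = true := ex3_b t927_A00pm_123_s3 k367_A00pm_123_s3

theorem t929_A00pm_123_s3 : ∃ t, chk3 f_A00pm_123_s3 t 1020 243 1 = true := ex3_a t928_A00pm_123_s3 t926_A00pm_123_s3

theorem t930_A00pm_123_s3 : ∃ t, chk3 f_A00pm_123_s3 t 2040 485 1 = true := ex3_a k362_A00pm_123_s3 k363_A00pm_123_s3

theorem t931_A00pm_123_s3 : ∃ t, chk3 f_A00pm_123_s3 t 2040 242 1 = true := ex3_b k361_A00pm_123_s3 t930_A00pm_123_s3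

theorem t932_A00pm_123_s3 : ∃ t, chk3 f_A00pm_123_s3 t 1020 242 1 = true := ex3_a t931_A00pm_123_s3 k364_A00pm_123_s3

theorem t933_A00pm_123_s3 : ∃ t, chk3 f_A00pm_123_s3 t 1020 121 1 = true := ex3_b t932_A00pm_123_s3 t929_A00pm_123_s3

theorem t934_A00pm_123_s3 : ∃ t, chk3 f_A00pm_123_s3 t 510 121 1 = true := ex3_a t933_A00pm_123_s3 k374_A00pm_123_s3

theorem t935_A00pm_123_s3 : ∃ t, chk3 f_A00pm_123_s3 t 510 60 1 = true := ex3_b k360_A00pm_123_s3 t934_A00pm_123_s3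

theorem t936_A00pm_123_s3 : ∃ t, chk3 f_A00pm_123_s3 t 510 30 1 = true := ex3_b t935_A00pm_123_s3 t921_A00pm_123_s3

theorem t937_A00pm_123_s3 : ∃ t, chk3 f_A00pm_123_s3 t 255 30 1 = true := ex3_a t936_A00pm_123_s3 t759_A00pm_123_s3

theorem t938_A00pm_123_s3 : ∃ t, chk3 f_A00pm_123_s3 t 8158 984 1 = true := ex3_b k354_A00pm_123_s3 k355_A00pm_123_s3

theorem t939_A00pm_123_s3 : ∃ t, chk3 f_A00pm_123_s3 t 4079 984 1 = true := ex3_a t938_A00pm_123_s3 k356_A00pm_123_s3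

theorem t940_A00pm_123_s3 : ∃ t, chk3 f_A00pm_123_s3 t 4079 492 1 = true := ex3_b t939_A00pm_123_s3 k357_A00pm_123_s3

theorem t941_A00pm_123_s3 : ∃ t, chk3 f_A00pm_123_s3 t 2039 492 1 = true := ex3_a k353_A00pm_123_s3 t940_A00pm_123_s3

theorem t942_A00pm_123_s3 : ∃ t, chk3 f_A00pm_123_s3 t 2039 246 1 = true := ex3_b t941_A00pm_123_s3 k358_A00pm_123_s3

theorem t943_A00pm_123_s3 : ∃ t, chk3 f_A00pm_123_s3 t 1019 246 1 = true := ex3_a k352_A00pm_123_s3 t942_A00pm_123_s3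

theorem t944_A00pm_123_s3 : ∃ t, chk3 f_A00pm_123_s3 t 1019 123 1 = true := ex3_b t943_A00pm_123_s3 k359_A00pm_123_s3

theorem t945_A00pm_123_s3 : ∃ t, chk3 f_A00pm_123_s3 t 509 123 1 = true := ex3_a k351_A00pm_123_s3 t944_A00pm_123_s3

theorem t946_A00pm_123_s3 : ∃ t, chk3 f_A00pm_123_s3 t 2039 491 1 = true := ex3_c k349_A00pm_123_s3 k350_A00pm_123_s3

theorem t947_A00pm_123_s3 : ∃ t, chk3 f_A00pm_123_s3 t 2039 245 1 = true := ex3_b k348_A00pm_123_s3 t946_A00pm_123_s3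

theorem t948_A00pm_123_s3 : ∃ t, chk3 f_A00pm_123_s3 t 2039 122 1 = true := ex3_b k347_A00pm_123_s3 t947_A00pm_123_s3

theorem t949_A00pm_123_s3 : ∃ t, chk3 f_A00pm_123_s3 t 4077 982 1 = true := ex3_a k344_A00pm_123_s3 k345_A00pm_123_s3

theorem t950_A00pm_123_s3 : ∃ t, chk3 f_A00pm_123_s3 t 4077 491 1 = true := ex3_b t949_A00pm_123_s3 k346_A00pm_123_s3

theorem t951_A00pm_123_s3 : ∃ t, chk3 f_A00pm_123_s3 t 2038 491 1 = true := ex3_a k343_A00pm_123_s3 t950_A00pm_123_s3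

theorem t952_A00pm_123_s3 : ∃ t, chk3 f_A00pm_123_s3 t 4076 981 1 = true := ex3_a k340_A00pm_123_s3 k341_A00pm_123_s3

theorem t953_A00pm_123_s3 : ∃ t, chk3 f_A00pm_123_s3 t 4076 490 1 = true := ex3_b k339_A00pm_123_s3 t952_A00pm_123_s3

theorem t954_A00pm_123_s3 : ∃ t, chk3 f_A00pm_123_s3 t 2038 490 1 = true := ex3_a t953_A00pm_123_s3 k342_A00pm_123_s3

theorem t955_A00pm_123_s3 : ∃ t, chk3 f_A00pm_123_s3 t 2038 245 1 = true := ex3_b t954_A00pm_123_s3 t951_A00pm_123_s3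

theorem t956_A00pm_123_s3 : ∃ t, chk3 f_A00pm_123_s3 t 2038 122 1 = true := ex3_b k338_A00pm_123_s3 t955_A00pm_123_s3

theorem t957_A00pm_123_s3 : ∃ t, chk3 f_A00pm_123_s3 t 1019 122 1 = true := ex3_a t956_A00pm_123_s3 t948_A00pm_123_s3

theorem t958_A00pm_123_s3 : ∃ t, chk3 f_A00pm_123_s3 t 4075 980 1 = true := ex3_a k334_A00pm_123_s3 k335_A00pm_123_s3

theorem t959_A00pm_123_s3 : ∃ t, chk3 f_A00pm_123_s3 t 2037 980 1 = true := ex3_a k333_A00pm_123_s3 t958_A00pm_123_s3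

theorem t960_A00pm_123_s3 : ∃ t, chk3 f_A00pm_123_s3 t 1018 980 1 = true := ex3_a k332_A00pm_123_s3 t959_A00pm_123_s3

theorem t961_A00pm_123_s3 : ∃ t, chk3 f_A00pm_123_s3 t 1018 490 1 = true := ex3_b t960_A00pm_123_s3 k336_A00pm_123_s3

theorem t962_A00pm_123_s3 : ∃ t, chk3 f_A00pm_123_s3 t 1018 245 1 = true := ex3_b t961_A00pm_123_s3 k337_A00pm_123_s3

theorem t963_A00pm_123_s3 : ∃ t, chk3 f_A00pm_123_s3 t 4074 979 1 = true := ex3_a k329_A00pm_123_s3 k330_A00pm_123_s3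

theorem t964_A00pm_123_s3 : ∃ t, chk3 f_A00pm_123_s3 t 4074 489 1 = true := ex3_b k328_A00pm_123_s3 t963_A00pm_123_s3

theorem t965_A00pm_123_s3 : ∃ t, chk3 f_A00pm_123_s3 t 2037 489 1 = true := ex3_a t964_A00pm_123_s3 k331_A00pm_123_s3

theorem t966_A00pm_123_s3 : ∃ t, chk3 f_A00pm_123_s3 t 2037 244 1 = true := ex3_b k327_A00pm_123_s3 t965_A00pm_123_s3

theorem t967_A00pm_123_s3 : ∃ t, chk3 f_A00pm_123_s3 t 4073 978 1 = true := ex3_a k324_A00pm_123_s3 k325_A00pm_123_s3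

theorem t968_A00pm_123_s3 : ∃ t, chk3 f_A00pm_123_s3 t 2036 978 1 = true := ex3_a k323_A00pm_123_s3 t967_A00pm_123_s3

theorem t969_A00pm_123_s3 : ∃ t, chk3 f_A00pm_123_s3 t 2036 489 1 = true := ex3_b t968_A00pm_123_s3 k326_A00pm_123_s3

theorem t970_A00pm_123_s3 : ∃ t, chk3 f_A00pm_123_s3 t 4073 488 1 = true := ex3_b k321_A00pm_123_s3 k322_A00pm_123_s3

theorem t971_A00pm_123_s3 : ∃ t, chk3 f_A00pm_123_s3 t 8145 977 1 = true := ex3_b k319_A00pm_123_s3 k320_A00pm_123_s3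

theorem t972_A00pm_123_s3 : ∃ t, chk3 f_A00pm_123_s3 t 4072 977 1 = true := ex3_a k318_A00pm_123_s3 t971_A00pm_123_s3

theorem t973_A00pm_123_s3 : ∃ t, chk3 f_A00pm_123_s3 t 8144 1953 1 = true := ex3_a k315_A00pm_123_s3 k316_A00pm_123_s3

theorem t974_A00pm_123_s3 : ∃ t, chk3 f_A00pm_123_s3 t 8144 976 1 = true := ex3_b k314_A00pm_123_s3 t973_A00pm_123_s3

theorem t975_A00pm_123_s3 : ∃ t, chk3 f_A00pm_123_s3 t 4072 976 1 = true := ex3_a t974_A00pm_123_s3 k317_A00pm_123_s3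

theorem t976_A00pm_123_s3 : ∃ t, chk3 f_A00pm_123_s3 t 4072 488 1 = true := ex3_b t975_A00pm_123_s3 t972_A00pm_123_s3

theorem t977_A00pm_123_s3 : ∃ t, chk3 f_A00pm_123_s3 t 2036 488 1 = true := ex3_a t976_A00pm_123_s3 t970_A00pm_123_s3

theorem t978_A00pm_123_s3 : ∃ t, chk3 f_A00pm_123_s3 t 2036 244 1 = true := ex3_b t977_A00pm_123_s3 t969_A00pm_123_s3

theorem t979_A00pm_123_s3 : ∃ t, chk3 f_A00pm_123_s3 t 1018 244 1 = true := ex3_a t978_A00pm_123_s3 t966_A00pm_123_s3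

theorem t980_A00pm_123_s3 : ∃ t, chk3 f_A00pm_123_s3 t 1018 122 1 = true := ex3_b t979_A00pm_123_s3 t962_A00pm_123_s3

theorem t981_A00pm_123_s3 : ∃ t, chk3 f_A00pm_123_s3 t 509 122 1 = true := ex3_a t980_A00pm_123_s3 t957_A00pm_123_s3

theorem t982_A00pm_123_s3 : ∃ t, chk3 f_A00pm_123_s3 t 509 61 1 = true := ex3_b t981_A00pm_123_s3 t945_A00pm_123_s3

theorem t983_A00pm_123_s3 : ∃ t, chk3 f_A00pm_123_s3 t 8143 1952 1 = true := ex3_a k307_A00pm_123_s3 k308_A00pm_123_s3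

theorem t984_A00pm_123_s3 : ∃ t, chk3 f_A00pm_123_s3 t 8143 976 1 = true := ex3_b t983_A00pm_123_s3 k309_A00pm_123_s3

theorem t985_A00pm_123_s3 : ∃ t, chk3 f_A00pm_123_s3 t 4071 976 1 = true := ex3_a k306_A00pm_123_s3 t984_A00pm_123_s3

theorem t986_A00pm_123_s3 : ∃ t, chk3 f_A00pm_123_s3 t 4071 488 1 = true := ex3_b t985_A00pm_123_s3 k310_A00pm_123_s3

theorem t987_A00pm_123_s3 : ∃ t, chk3 f_A00pm_123_s3 t 2035 488 1 = true := ex3_a k305_A00pm_123_s3 t986_A00pm_123_s3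

theorem t988_A00pm_123_s3 : ∃ t, chk3 f_A00pm_123_s3 t 2035 244 1 = true := ex3_b t987_A00pm_123_s3 k311_A00pm_123_s3

theorem t989_A00pm_123_s3 : ∃ t, chk3 f_A00pm_123_s3 t 1017 244 1 = true := ex3_a k304_A00pm_123_s3 t988_A00pm_123_s3

theorem t990_A00pm_123_s3 : ∃ t, chk3 f_A00pm_123_s3 t 1017 122 1 = true := ex3_b t989_A00pm_123_s3 k312_A00pm_123_s3

theorem t991_A00pm_123_s3 : ∃ t, chk3 f_A00pm_123_s3 t 508 122 1 = true := ex3_a k303_A00pm_123_s3 t990_A00pm_123_s3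

theorem t992_A00pm_123_s3 : ∃ t, chk3 f_A00pm_123_s3 t 508 61 1 = true := ex3_b t991_A00pm_123_s3 k313_A00pm_123_s3

theorem t993_A00pm_123_s3 : ∃ t, chk3 f_A00pm_123_s3 t 254 61 1 = true := ex3_a t992_A00pm_123_s3 t982_A00pm_123_s3

theorem t994_A00pm_123_s3 : ∃ t, chk3 f_A00pm_123_s3 t 1019 243 1 = true := ex3_a k301_A00pm_123_s3 k302_A00pm_123_s3

theorem t995_A00pm_123_s3 : ∃ t, chk3 f_A00pm_123_s3 t 2039 242 1 = true := ex3_b k299_A00pm_123_s3 k300_A00pm_123_s3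

theorem t996_A00pm_123_s3 : ∃ t, chk3 f_A00pm_123_s3 t 1019 242 1 = true := ex3_a k298_A00pm_123_s3 t995_A00pm_123_s3

theorem t997_A00pm_123_s3 : ∃ t, chk3 f_A00pm_123_s3 t 1019 121 1 = true := ex3_b t996_A00pm_123_s3 t994_A00pm_123_s3

theorem t998_A00pm_123_s3 : ∃ t, chk3 f_A00pm_123_s3 t 1018 121 1 = true := ex3_b k296_A00pm_123_s3 k297_A00pm_123_s3

theorem t999_A00pm_123_s3 : ∃ t, chk3 f_A00pm_123_s3 t 509 121 1 = true := ex3_a t998_A00pm_123_s3 t997_A00pm_123_s3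

theorem t1000_A00pm_123_s3 : ∃ t, chk3 f_A00pm_123_s3 t 1019 241 1 = true := ex3_a k294_A00pm_123_s3 k295_A00pm_123_s3

theorem t1001_A00pm_123_s3 : ∃ t, chk3 f_A00pm_123_s3 t 1019 120 1 = true := ex3_b k293_A00pm_123_s3 t1000_A00pm_123_s3

theorem t1002_A00pm_123_s3 : ∃ t, chk3 f_A00pm_123_s3 t 1018 120 1 = true := ex3_b k291_A00pm_123_s3 k292_A00pm_123_s3

theorem t1003_A00pm_123_s3 : ∃ t, chk3 f_A00pm_123_s3 t 509 120 1 = true := ex3_a t1002_A00pm_123_s3 t1001_A00pm_123_s3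

theorem t1004_A00pm_123_s3 : ∃ t, chk3 f_A00pm_123_s3 t 509 60 1 = true := ex3_b t1003_A00pm_123_s3 t999_A00pm_123_s3

theorem t1005_A00pm_123_s3 : ∃ t, chk3 f_A00pm_123_s3 t 8142 1951 1 = true := ex3_a k288_A00pm_123_s3 k289_A00pm_123_s3

theorem t1006_A00pm_123_s3 : ∃ t, chk3 f_A00pm_123_s3 t 8142 975 1 = true := ex3_b k287_A00pm_123_s3 t1005_A00pm_123_s3

theorem t1007_A00pm_123_s3 : ∃ t, chk3 f_A00pm_123_s3 t 4071 975 1 = true := ex3_a t1006_A00pm_123_s3 k290_A00pm_123_s3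

theorem t1008_A00pm_123_s3 : ∃ t, chk3 f_A00pm_123_s3 t 4071 487 1 = true := ex3_b k286_A00pm_123_s3 t1007_A00pm_123_s3

theorem t1009_A00pm_123_s3 : ∃ t, chk3 f_A00pm_123_s3 t 4071 243 1 = true := ex3_b k285_A00pm_123_s3 t1008_A00pm_123_s3

theorem t1010_A00pm_123_s3 : ∃ t, chk3 f_A00pm_123_s3 t 8141 1950 1 = true := ex3_c k282_A00pm_123_s3 k283_A00pm_123_s3

theorem t1011_A00pm_123_s3 : ∃ t, chk3 f_A00pm_123_s3 t 8141 975 1 = true := ex3_b t1010_A00pm_123_s3 k284_A00pm_123_s3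

theorem t1012_A00pm_123_s3 : ∃ t, chk3 f_A00pm_123_s3 t 4070 975 1 = true := ex3_a k281_A00pm_123_s3 t1011_A00pm_123_s3

theorem t1013_A00pm_123_s3 : ∃ t, chk3 f_A00pm_123_s3 t 4070 974 3 = true := ex3_a k279_A00pm_123_s3 k280_A00pm_123_s3

theorem t1014_A00pm_123_s3 : ∃ t, chk3 f_A00pm_123_s3 t 4070 974 1 = true := ex3_c k278_A00pm_123_s3 t1013_A00pm_123_s3

theorem t1015_A00pm_123_s3 : ∃ t, chk3 f_A00pm_123_s3 t 4070 487 1 = true := ex3_b t1014_A00pm_123_s3 t1012_A00pm_123_s3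

theorem t1016_A00pm_123_s3 : ∃ t, chk3 f_A00pm_123_s3 t 4070 243 1 = true := ex3_b k277_A00pm_123_s3 t1015_A00pm_123_s3

theorem t1017_A00pm_123_s3 : ∃ t, chk3 f_A00pm_123_s3 t 2035 243 1 = true := ex3_a t1016_A00pm_123_s3 t1009_A00pm_123_s3

theorem t1018_A00pm_123_s3 : ∃ t, chk3 f_A00pm_123_s3 t 16278 3897 1 = true := ex3_a k272_A00pm_123_s3 k273_A00pm_123_s3

theorem t1019_A00pm_123_s3 : ∃ t, chk3 f_A00pm_123_s3 t 8139 3897 1 = true := ex3_a t1018_A00pm_123_s3 k274_A00pm_123_s3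

theorem t1020_A00pm_123_s3 : ∃ t, chk3 f_A00pm_123_s3 t 8139 1948 1 = true := ex3_b k271_A00pm_123_s3 t1019_A00pm_123_s3

theorem t1021_A00pm_123_s3 : ∃ t, chk3 f_A00pm_123_s3 t 16277 7792 1 = true := ex3_a k267_A00pm_123_s3 k268_A00pm_123_s3

theorem t1022_A00pm_123_s3 : ∃ t, chk3 f_A00pm_123_s3 t 16277 3896 1 = true := ex3_b t1021_A00pm_123_s3 k269_A00pm_123_s3

theorem t1023_A00pm_123_s3 : ∃ t, chk3 f_A00pm_123_s3 t 16277 1948 1 = true := ex3_b t1022_A00pm_123_s3 k270_A00pm_123_s3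

theorem t1024_A00pm_123_s3 : ∃ t, chk3 f_A00pm_123_s3 t 8138 1948 1 = true := ex3_a k266_A00pm_123_s3 t1023_A00pm_123_s3

theorem t1025_A00pm_123_s3 : ∃ t, chk3 f_A00pm_123_s3 t 4069 1948 1 = true := ex3_a t1024_A00pm_123_s3 t1020_A00pm_123_s3

theorem t1026_A00pm_123_s3 : ∃ t, chk3 f_A00pm_123_s3 t 4069 974 1 = true := ex3_b t1025_A00pm_123_s3 k275_A00pm_123_s3

theorem t1027_A00pm_123_s3 : ∃ t, chk3 f_A00pm_123_s3 t 4069 487 1 = true := ex3_b t1026_A00pm_123_s3 k276_A00pm_123_s3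

theorem t1028_A00pm_123_s3 : ∃ t, chk3 f_A00pm_123_s3 t 2034 487 1 = true := ex3_a k265_A00pm_123_s3 t1027_A00pm_123_s3

theorem t1029_A00pm_123_s3 : ∃ t, chk3 f_A00pm_123_s3 t 16276 7790 1 = true := ex3_a k260_A00pm_123_s3 k261_A00pm_123_s3

theorem t1030_A00pm_123_s3 : ∃ t, chk3 f_A00pm_123_s3 t 16276 3895 1 = true := ex3_b t1029_A00pm_123_s3 k262_A00pm_123_s3

theorem t1031_A00pm_123_s3 : ∃ t, chk3 f_A00pm_123_s3 t 8138 3895 1 = true := ex3_a t1030_A00pm_123_s3 k263_A00pm_123_s3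

theorem t1032_A00pm_123_s3 : ∃ t, chk3 f_A00pm_123_s3 t 8138 1947 1 = true := ex3_b k259_A00pm_123_s3 t1031_A00pm_123_s3

theorem t1033_A00pm_123_s3 : ∃ t, chk3 f_A00pm_123_s3 t 8138 973 1 = true := ex3_b k258_A00pm_123_s3 t1032_A00pm_123_s3

theorem t1034_A00pm_123_s3 : ∃ t, chk3 f_A00pm_123_s3 t 4069 973 1 = true := ex3_a t1033_A00pm_123_s3 k264_A00pm_123_s3

theorem t1035_A00pm_123_s3 : ∃ t, chk3 f_A00pm_123_s3 t 4069 486 1 = true := ex3_b k257_A00pm_123_s3 t1034_A00pm_123_s3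

theorem t1036_A00pm_123_s3 : ∃ t, chk3 f_A00pm_123_s3 t 16275 7788 1 = true := ex3_a k253_A00pm_123_s3 k254_A00pm_123_s3

theorem t1037_A00pm_123_s3 : ∃ t, chk3 f_A00pm_123_s3 t 16275 3894 1 = true := ex3_b t1036_A00pm_123_s3 k255_A00pm_123_s3

theorem t1038_A00pm_123_s3 : ∃ t, chk3 f_A00pm_123_s3 t 8137 3894 1 = true := ex3_a k252_A00pm_123_s3 t1037_A00pm_123_s3

theorem t1039_A00pm_123_s3 : ∃ t, chk3 f_A00pm_123_s3 t 8137 1947 1 = true := ex3_b t1038_A00pm_123_s3 k256_A00pm_123_s3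

theorem t1040_A00pm_123_s3 : ∃ t, chk3 f_A00pm_123_s3 t 4068 1947 1 = true := ex3_a k251_A00pm_123_s3 t1039_A00pm_123_s3

theorem t1041_A00pm_123_s3 : ∃ t, chk3 f_A00pm_123_s3 t 32549 15574 1 = true := ex3_a k247_A00pm_123_s3 k248_A00pm_123_s3

theorem t1042_A00pm_123_s3 : ∃ t, chk3 f_A00pm_123_s3 t 32549 7787 1 = true := ex3_b t1041_A00pm_123_s3 k249_A00pm_123_s3

theorem t1043_A00pm_123_s3 : ∃ t, chk3 f_A00pm_123_s3 t 16274 7787 1 = true := ex3_a k246_A00pm_123_s3 t1042_A00pm_123_s3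

theorem t1044_A00pm_123_s3 : ∃ t, chk3 f_A00pm_123_s3 t 32548 15572 1 = true := ex3_a k242_A00pm_123_s3 k243_A00pm_123_s3

theorem t1045_A00pm_123_s3 : ∃ t, chk3 f_A00pm_123_s3 t 32548 7786 1 = true := ex3_b t1044_A00pm_123_s3 k244_A00pm_123_s3

theorem t1046_A00pm_123_s3 : ∃ t, chk3 f_A00pm_123_s3 t 16274 7786 1 = true := ex3_a t1045_A00pm_123_s3 k245_A00pm_123_s3

theorem t1047_A00pm_123_s3 : ∃ t, chk3 f_A00pm_123_s3 t 16274 3893 1 = true := ex3_b t1046_A00pm_123_s3 t1043_A00pm_123_s3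

theorem t1048_A00pm_123_s3 : ∃ t, chk3 f_A00pm_123_s3 t 8137 3893 1 = true := ex3_a t1047_A00pm_123_s3 k250_A00pm_123_s3

theorem t1049_A00pm_123_s3 : ∃ t, chk3 f_A00pm_123_s3 t 8137 1946 1 = true := ex3_b k241_A00pm_123_s3 t1048_A00pm_123_s3

theorem t1050_A00pm_123_s3 : ∃ t, chk3 f_A00pm_123_s3 t 32547 15570 1 = true := ex3_a k237_A00pm_123_s3 k238_A00pm_123_s3

theorem t1051_A00pm_123_s3 : ∃ t, chk3 f_A00pm_123_s3 t 32547 7785 1 = true := ex3_b t1050_A00pm_123_s3 k239_A00pm_123_s3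

theorem t1052_A00pm_123_s3 : ∃ t, chk3 f_A00pm_123_s3 t 16273 7785 1 = true := ex3_a k236_A00pm_123_s3 t1051_A00pm_123_s3

theorem t1053_A00pm_123_s3 : ∃ t, chk3 f_A00pm_123_s3 t 32546 15568 1 = true := ex3_a k232_A00pm_123_s3 k233_A00pm_123_s3

theorem t1054_A00pm_123_s3 : ∃ t, chk3 f_A00pm_123_s3 t 32546 7784 1 = true := ex3_b t1053_A00pm_123_s3 k234_A00pm_123_s3

theorem t1055_A00pm_123_s3 : ∃ t, chk3 f_A00pm_123_s3 t 16273 7784 1 = true := ex3_a t1054_A00pm_123_s3 k235_A00pm_123_s3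

theorem t1056_A00pm_123_s3 : ∃ t, chk3 f_A00pm_123_s3 t 16273 3892 1 = true := ex3_b t1055_A00pm_123_s3 t1052_A00pm_123_s3

theorem t1057_A00pm_123_s3 : ∃ t, chk3 f_A00pm_123_s3 t 8136 3892 1 = true := ex3_a k231_A00pm_123_s3 t1056_A00pm_123_s3

theorem t1058_A00pm_123_s3 : ∃ t, chk3 f_A00pm_123_s3 t 8136 1946 1 = true := ex3_b t1057_A00pm_123_s3 k240_A00pm_123_s3

theorem t1059_A00pm_123_s3 : ∃ t, chk3 f_A00pm_123_s3 t 4068 1946 1 = true := ex3_a t1058_A00pm_123_s3 t1049_A00pm_123_s3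

theorem t1060_A00pm_123_s3 : ∃ t, chk3 f_A00pm_123_s3 t 4068 973 1 = true := ex3_b t1059_A00pm_123_s3 t1040_A00pm_123_s3

theorem t1061_A00pm_123_s3 : ∃ t, chk3 f_A00pm_123_s3 t 32545 7783 1 = true := ex3_b k227_A00pm_123_s3 k228_A00pm_123_s3

theorem t1062_A00pm_123_s3 : ∃ t, chk3 f_A00pm_123_s3 t 16272 7783 1 = true := ex3_a k226_A00pm_123_s3 t1061_A00pm_123_s3

theorem t1063_A00pm_123_s3 : ∃ t, chk3 f_A00pm_123_s3 t 32544 7782 1 = true := ex3_b k223_A00pm_123_s3 k224_A00pm_123_s3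

theorem t1064_A00pm_123_s3 : ∃ t, chk3 f_A00pm_123_s3 t 16272 7782 1 = true := ex3_a t1063_A00pm_123_s3 k225_A00pm_123_s3

theorem t1065_A00pm_123_s3 : ∃ t, chk3 f_A00pm_123_s3 t 16272 3891 1 = true := ex3_b t1064_A00pm_123_s3 t1062_A00pm_123_s3

theorem t1066_A00pm_123_s3 : ∃ t, chk3 f_A00pm_123_s3 t 16272 1945 1 = true := ex3_b k222_A00pm_123_s3 t1065_A00pm_123_s3

theorem t1067_A00pm_123_s3 : ∃ t, chk3 f_A00pm_123_s3 t 8136 1945 1 = true := ex3_a t1066_A00pm_123_s3 k229_A00pm_123_s3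

theorem t1068_A00pm_123_s3 : ∃ t, chk3 f_A00pm_123_s3 t 4068 1945 1 = true := ex3_a t1067_A00pm_123_s3 k230_A00pm_123_s3

theorem t1069_A00pm_123_s3 : ∃ t, chk3 f_A00pm_123_s3 t 4068 972 1 = true := ex3_b k221_A00pm_123_s3 t1068_A00pm_123_s3

theorem t1070_A00pm_123_s3 : ∃ t, chk3 f_A00pm_123_s3 t 4068 486 1 = true := ex3_b t1069_A00pm_123_s3 t1060_A00pm_123_s3

theorem t1071_A00pm_123_s3 : ∃ t, chk3 f_A00pm_123_s3 t 2034 486 1 = true := ex3_a t1070_A00pm_123_s3 t1035_A00pm_123_s3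

theorem t1072_A00pm_123_s3 : ∃ t, chk3 f_A00pm_123_s3 t 2034 243 1 = true := ex3_b t1071_A00pm_123_s3 t1028_A00pm_123_s3

theorem t1073_A00pm_123_s3 : ∃ t, chk3 f_A00pm_123_s3 t 1017 243 1 = true := ex3_a t1072_A00pm_123_s3 t1017_A00pm_123_s3

theorem t1074_A00pm_123_s3 : ∃ t, chk3 f_A00pm_123_s3 t 1017 121 1 = true := ex3_b k220_A00pm_123_s3 t1073_A00pm_123_s3

theorem t1075_A00pm_123_s3 : ∃ t, chk3 f_A00pm_123_s3 t 1017 60 1 = true := ex3_b k219_A00pm_123_s3 t1074_A00pm_123_s3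

theorem t1076_A00pm_123_s3 : ∃ t, chk3 f_A00pm_123_s3 t 32543 7781 1 = true := ex3_b k214_A00pm_123_s3 k215_A00pm_123_s3

theorem t1077_A00pm_123_s3 : ∃ t, chk3 f_A00pm_123_s3 t 16271 7781 1 = true := ex3_a k213_A00pm_123_s3 t1076_A00pm_123_s3

theorem t1078_A00pm_123_s3 : ∃ t, chk3 f_A00pm_123_s3 t 32542 7780 1 = true := ex3_b k210_A00pm_123_s3 k211_A00pm_123_s3

theorem t1079_A00pm_123_s3 : ∃ t, chk3 f_A00pm_123_s3 t 16271 7780 1 = true := ex3_a t1078_A00pm_123_s3 k212_A00pm_123_s3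

theorem t1080_A00pm_123_s3 : ∃ t, chk3 f_A00pm_123_s3 t 16271 3890 1 = true := ex3_b t1079_A00pm_123_s3 t1077_A00pm_123_s3

theorem t1081_A00pm_123_s3 : ∃ t, chk3 f_A00pm_123_s3 t 8135 3890 1 = true := ex3_a k209_A00pm_123_s3 t1080_A00pm_123_s3

theorem t1082_A00pm_123_s3 : ∃ t, chk3 f_A00pm_123_s3 t 8135 1945 1 = true := ex3_b t1081_A00pm_123_s3 k216_A00pm_123_s3

theorem t1083_A00pm_123_s3 : ∃ t, chk3 f_A00pm_123_s3 t 4067 1945 1 = true := ex3_a k208_A00pm_123_s3 t1082_A00pm_123_s3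

theorem t1084_A00pm_123_s3 : ∃ t, chk3 f_A00pm_123_s3 t 16270 7779 1 = true := ex3_a k205_A00pm_123_s3 k206_A00pm_123_s3

theorem t1085_A00pm_123_s3 : ∃ t, chk3 f_A00pm_123_s3 t 16270 3889 1 = true := ex3_b k204_A00pm_123_s3 t1084_A00pm_123_s3

theorem t1086_A00pm_123_s3 : ∃ t, chk3 f_A00pm_123_s3 t 8135 3889 1 = true := ex3_a t1085_A00pm_123_s3 k207_A00pm_123_s3

theorem t1087_A00pm_123_s3 : ∃ t, chk3 f_A00pm_123_s3 t 8135 1944 1 = true := ex3_b k203_A00pm_123_s3 t1086_A00pm_123_s3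

theorem t1088_A00pm_123_s3 : ∃ t, chk3 f_A00pm_123_s3 t 16269 7777 1 = true := ex3_a k200_A00pm_123_s3 k201_A00pm_123_s3

theorem t1089_A00pm_123_s3 : ∃ t, chk3 f_A00pm_123_s3 t 16269 3888 1 = true := ex3_b k199_A00pm_123_s3 t1088_A00pm_123_s3

theorem t1090_A00pm_123_s3 : ∃ t, chk3 f_A00pm_123_s3 t 8134 3888 1 = true := ex3_a k198_A00pm_123_s3 t1089_A00pm_123_s3

theorem t1091_A00pm_123_s3 : ∃ t, chk3 f_A00pm_123_s3 t 8134 1944 1 = true := ex3_b t1090_A00pm_123_s3 k202_A00pm_123_s3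

theorem t1092_A00pm_123_s3 : ∃ t, chk3 f_A00pm_123_s3 t 4067 1944 1 = true := ex3_a t1091_A00pm_123_s3 t1087_A00pm_123_s3

theorem t1093_A00pm_123_s3 : ∃ t, chk3 f_A00pm_123_s3 t 4067 972 1 = true := ex3_b t1092_A00pm_123_s3 t1083_A00pm_123_s3

theorem t1094_A00pm_123_s3 : ∃ t, chk3 f_A00pm_123_s3 t 2033 972 1 = true := ex3_a k197_A00pm_123_s3 t1093_A00pm_123_s3

theorem t1095_A00pm_123_s3 : ∃ t, chk3 f_A00pm_123_s3 t 2033 486 1 = true := ex3_b t1094_A00pm_123_s3 k217_A00pm_123_s3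

theorem t1096_A00pm_123_s3 : ∃ t, chk3 f_A00pm_123_s3 t 1016 486 1 = true := ex3_a k196_A00pm_123_s3 t1095_A00pm_123_s3

theorem t1097_A00pm_123_s3 : ∃ t, chk3 f_A00pm_123_s3 t 1016 243 1 = true := ex3_b t1096_A00pm_123_s3 k218_A00pm_123_s3

theorem t1098_A00pm_123_s3 : ∃ t, chk3 f_A00pm_123_s3 t 16268 7775 1 = true := ex3_a k192_A00pm_123_s3 k193_A00pm_123_s3

theorem t1099_A00pm_123_s3 : ∃ t, chk3 f_A00pm_123_s3 t 16268 3887 1 = true := ex3_b k191_A00pm_123_s3 t1098_A00pm_123_s3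

theorem t1100_A00pm_123_s3 : ∃ t, chk3 f_A00pm_123_s3 t 8134 3887 1 = true := ex3_a t1099_A00pm_123_s3 k194_A00pm_123_s3

theorem t1101_A00pm_123_s3 : ∃ t, chk3 f_A00pm_123_s3 t 8134 1943 1 = true := ex3_b k190_A00pm_123_s3 t1100_A00pm_123_s3

theorem t1102_A00pm_123_s3 : ∃ t, chk3 f_A00pm_123_s3 t 4067 1943 1 = true := ex3_a t1101_A00pm_123_s3 k195_A00pm_123_s3

theorem t1103_A00pm_123_s3 : ∃ t, chk3 f_A00pm_123_s3 t 4067 971 1 = true := ex3_b k189_A00pm_123_s3 t1102_A00pm_123_s3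

theorem t1104_A00pm_123_s3 : ∃ t, chk3 f_A00pm_123_s3 t 8133 3887 1 = true := ex3_a k187_A00pm_123_s3 k188_A00pm_123_s3

theorem t1105_A00pm_123_s3 : ∃ t, chk3 f_A00pm_123_s3 t 16267 3886 1 = true := ex3_b k185_A00pm_123_s3 k186_A00pm_123_s3

theorem t1106_A00pm_123_s3 : ∃ t, chk3 f_A00pm_123_s3 t 16266 3886 1 = true := ex3_b k183_A00pm_123_s3 k184_A00pm_123_s3

theorem t1107_A00pm_123_s3 : ∃ t, chk3 f_A00pm_123_s3 t 8133 3886 1 = true := ex3_a t1106_A00pm_123_s3 t1105_A00pm_123_s3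

theorem t1108_A00pm_123_s3 : ∃ t, chk3 f_A00pm_123_s3 t 8133 1943 1 = true := ex3_b t1107_A00pm_123_s3 t1104_A00pm_123_s3

theorem t1109_A00pm_123_s3 : ∃ t, chk3 f_A00pm_123_s3 t 4066 1943 1 = true := ex3_a k182_A00pm_123_s3 t1108_A00pm_123_s3

theorem t1110_A00pm_123_s3 : ∃ t, chk3 f_A00pm_123_s3 t 8132 3885 1 = true := ex3_c k179_A00pm_123_s3 k180_A00pm_123_s3

theorem t1111_A00pm_123_s3 : ∃ t, chk3 f_A00pm_123_s3 t 16264 3884 1 = true := ex3_c k176_A00pm_123_s3 k177_A00pm_123_s3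

theorem t1112_A00pm_123_s3 : ∃ t, chk3 f_A00pm_123_s3 t 8132 3884 1 = true := ex3_a t1111_A00pm_123_s3 k178_A00pm_123_s3

theorem t1113_A00pm_123_s3 : ∃ t, chk3 f_A00pm_123_s3 t 8132 1942 1 = true := ex3_b t1112_A00pm_123_s3 t1110_A00pm_123_s3

theorem t1114_A00pm_123_s3 : ∃ t, chk3 f_A00pm_123_s3 t 4066 1942 1 = true := ex3_a t1113_A00pm_123_s3 k181_A00pm_123_s3

theorem t1115_A00pm_123_s3 : ∃ t, chk3 f_A00pm_123_s3 t 4066 971 1 = true := ex3_b t1114_A00pm_123_s3 t1109_A00pm_123_s3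

theorem t1116_A00pm_123_s3 : ∃ t, chk3 f_A00pm_123_s3 t 2033 971 1 = true := ex3_a t1115_A00pm_123_s3 t1103_A00pm_123_s3

theorem t1117_A00pm_123_s3 : ∃ t, chk3 f_A00pm_123_s3 t 2033 485 1 = true := ex3_b k175_A00pm_123_s3 t1116_A00pm_123_s3

theorem t1118_A00pm_123_s3 : ∃ t, chk3 f_A00pm_123_s3 t 2033 242 1 = true := ex3_b k174_A00pm_123_s3 t1117_A00pm_123_s3

theorem t1119_A00pm_123_s3 : ∃ t, chk3 f_A00pm_123_s3 t 16263 3883 1 = true := ex3_b k171_A00pm_123_s3 k172_A00pm_123_s3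

theorem t1120_A00pm_123_s3 : ∃ t, chk3 f_A00pm_123_s3 t 8131 3883 1 = true := ex3_a k170_A00pm_123_s3 t1119_A00pm_123_s3

theorem t1121_A00pm_123_s3 : ∃ t, chk3 f_A00pm_123_s3 t 8131 3882 1 = true := ex3_b k168_A00pm_123_s3 k169_A00pm_123_s3

theorem t1122_A00pm_123_s3 : ∃ t, chk3 f_A00pm_123_s3 t 8131 1941 1 = true := ex3_b t1121_A00pm_123_s3 t1120_A00pm_123_s3

theorem t1123_A00pm_123_s3 : ∃ t, chk3 f_A00pm_123_s3 t 4065 1941 1 = true := ex3_a k167_A00pm_123_s3 t1122_A00pm_123_s3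

theorem t1124_A00pm_123_s3 : ∃ t, chk3 f_A00pm_123_s3 t 16261 3881 1 = true := ex3_b k164_A00pm_123_s3 k165_A00pm_123_s3

theorem t1125_A00pm_123_s3 : ∃ t, chk3 f_A00pm_123_s3 t 8130 3881 1 = true := ex3_a k163_A00pm_123_s3 t1124_A00pm_123_s3

theorem t1126_A00pm_123_s3 : ∃ t, chk3 f_A00pm_123_s3 t 8130 1940 1 = true := ex3_b k162_A00pm_123_s3 t1125_A00pm_123_s3

theorem t1127_A00pm_123_s3 : ∃ t, chk3 f_A00pm_123_s3 t 4065 1940 1 = true := ex3_a t1126_A00pm_123_s3 k166_A00pm_123_s3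

theorem t1128_A00pm_123_s3 : ∃ t, chk3 f_A00pm_123_s3 t 4065 970 1 = true := ex3_b t1127_A00pm_123_s3 t1123_A00pm_123_s3

theorem t1129_A00pm_123_s3 : ∃ t, chk3 f_A00pm_123_s3 t 2032 970 1 = true := ex3_a k161_A00pm_123_s3 t1128_A00pm_123_s3

theorem t1130_A00pm_123_s3 : ∃ t, chk3 f_A00pm_123_s3 t 2032 485 1 = true := ex3_b t1129_A00pm_123_s3 k173_A00pm_123_s3

theorem t1131_A00pm_123_s3 : ∃ t, chk3 f_A00pm_123_s3 t 8129 3879 1 = true := ex3_a k158_A00pm_123_s3 k159_A00pm_123_s3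

theorem t1132_A00pm_123_s3 : ∃ t, chk3 f_A00pm_123_s3 t 8129 1939 1 = true := ex3_b k157_A00pm_123_s3 t1131_A00pm_123_s3

theorem t1133_A00pm_123_s3 : ∃ t, chk3 f_A00pm_123_s3 t 4064 1939 1 = true := ex3_a k156_A00pm_123_s3 t1132_A00pm_123_s3

theorem t1134_A00pm_123_s3 : ∃ t, chk3 f_A00pm_123_s3 t 8128 1938 1 = true := ex3_a k153_A00pm_123_s3 k154_A00pm_123_s3

theorem t1135_A00pm_123_s3 : ∃ t, chk3 f_A00pm_123_s3 t 4064 1938 1 = true := ex3_a t1134_A00pm_123_s3 k155_A00pm_123_s3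

theorem t1136_A00pm_123_s3 : ∃ t, chk3 f_A00pm_123_s3 t 4064 969 1 = true := ex3_b t1135_A00pm_123_s3 t1133_A00pm_123_s3

theorem t1137_A00pm_123_s3 : ∃ t, chk3 f_A00pm_123_s3 t 2032 969 1 = true := ex3_a t1136_A00pm_123_s3 k160_A00pm_123_s3

theorem t1138_A00pm_123_s3 : ∃ t, chk3 f_A00pm_123_s3 t 2032 484 1 = true := ex3_b k152_A00pm_123_s3 t1137_A00pm_123_s3

theorem t1139_A00pm_123_s3 : ∃ t, chk3 f_A00pm_123_s3 t 2032 242 1 = true := ex3_b t1138_A00pm_123_s3 t1130_A00pm_123_s3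

theorem t1140_A00pm_123_s3 : ∃ t, chk3 f_A00pm_123_s3 t 1016 242 1 = true := ex3_a t1139_A00pm_123_s3 t1118_A00pm_123_s3

theorem t1141_A00pm_123_s3 : ∃ t, chk3 f_A00pm_123_s3 t 1016 121 1 = true := ex3_b t1140_A00pm_123_s3 t1097_A00pm_123_s3

theorem t1142_A00pm_123_s3 : ∃ t, chk3 f_A00pm_123_s3 t 1016 60 1 = true := ex3_b k151_A00pm_123_s3 t1141_A00pm_123_s3

theorem t1143_A00pm_123_s3 : ∃ t, chk3 f_A00pm_123_s3 t 508 60 1 = true := ex3_a t1142_A00pm_123_s3 t1075_A00pm_123_s3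

theorem t1144_A00pm_123_s3 : ∃ t, chk3 f_A00pm_123_s3 t 254 60 1 = true := ex3_a t1143_A00pm_123_s3 t1004_A00pm_123_s3

theorem t1145_A00pm_123_s3 : ∃ t, chk3 f_A00pm_123_s3 t 254 30 1 = true := ex3_b t1144_A00pm_123_s3 t993_A00pm_123_s3

theorem t1146_A00pm_123_s3 : ∃ t, chk3 f_A00pm_123_s3 t 127 30 1 = true := ex3_a t1145_A00pm_123_s3 t937_A00pm_123_s3

theorem t1147_A00pm_123_s3 : ∃ t, chk3 f_A00pm_123_s3 t 4063 1937 1 = true := ex3_c k145_A00pm_123_s3 k146_A00pm_123_s3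

theorem t1148_A00pm_123_s3 : ∃ t, chk3 f_A00pm_123_s3 t 4063 968 1 = true := ex3_b k144_A00pm_123_s3 t1147_A00pm_123_s3

theorem t1149_A00pm_123_s3 : ∃ t, chk3 f_A00pm_123_s3 t 4062 968 1 = true := ex3_c k142_A00pm_123_s3 k143_A00pm_123_s3

theorem t1150_A00pm_123_s3 : ∃ t, chk3 f_A00pm_123_s3 t 2031 968 1 = true := ex3_a t1149_A00pm_123_s3 t1148_A00pm_123_s3

theorem t1151_A00pm_123_s3 : ∃ t, chk3 f_A00pm_123_s3 t 2031 484 1 = true := ex3_b t1150_A00pm_123_s3 k147_A00pm_123_s3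

theorem t1152_A00pm_123_s3 : ∃ t, chk3 f_A00pm_123_s3 t 1015 484 1 = true := ex3_a k141_A00pm_123_s3 t1151_A00pm_123_s3

theorem t1153_A00pm_123_s3 : ∃ t, chk3 f_A00pm_123_s3 t 1015 242 1 = true := ex3_b t1152_A00pm_123_s3 k148_A00pm_123_s3

theorem t1154_A00pm_123_s3 : ∃ t, chk3 f_A00pm_123_s3 t 507 242 1 = true := ex3_a k140_A00pm_123_s3 t1153_A00pm_123_s3

theorem t1155_A00pm_123_s3 : ∃ t, chk3 f_A00pm_123_s3 t 507 121 1 = true := ex3_b t1154_A00pm_123_s3 k149_A00pm_123_s3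

theorem t1156_A00pm_123_s3 : ∃ t, chk3 f_A00pm_123_s3 t 253 121 1 = true := ex3_a k139_A00pm_123_s3 t1155_A00pm_123_s3

theorem t1157_A00pm_123_s3 : ∃ t, chk3 f_A00pm_123_s3 t 2031 483 1 = true := ex3_c k137_A00pm_123_s3 k138_A00pm_123_s3

theorem t1158_A00pm_123_s3 : ∃ t, chk3 f_A00pm_123_s3 t 8123 1934 1 = true := ex3_b k134_A00pm_123_s3 k135_A00pm_123_s3

theorem t1159_A00pm_123_s3 : ∃ t, chk3 f_A00pm_123_s3 t 4061 1934 1 = true := ex3_a k133_A00pm_123_s3 t1158_A00pm_123_s3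

theorem t1160_A00pm_123_s3 : ∃ t, chk3 f_A00pm_123_s3 t 4061 967 1 = true := ex3_b t1159_A00pm_123_s3 k136_A00pm_123_s3

theorem t1161_A00pm_123_s3 : ∃ t, chk3 f_A00pm_123_s3 t 2030 967 1 = true := ex3_a k132_A00pm_123_s3 t1160_A00pm_123_s3

theorem t1162_A00pm_123_s3 : ∃ t, chk3 f_A00pm_123_s3 t 4060 1932 1 = true := ex3_a k128_A00pm_123_s3 k129_A00pm_123_s3

theorem t1163_A00pm_123_s3 : ∃ t, chk3 f_A00pm_123_s3 t 4060 966 1 = true := ex3_b t1162_A00pm_123_s3 k130_A00pm_123_s3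

theorem t1164_A00pm_123_s3 : ∃ t, chk3 f_A00pm_123_s3 t 2030 966 1 = true := ex3_a t1163_A00pm_123_s3 k131_A00pm_123_s3

theorem t1165_A00pm_123_s3 : ∃ t, chk3 f_A00pm_123_s3 t 2030 483 1 = true := ex3_b t1164_A00pm_123_s3 t1161_A00pm_123_s3

theorem t1166_A00pm_123_s3 : ∃ t, chk3 f_A00pm_123_s3 t 1015 483 1 = true := ex3_a t1165_A00pm_123_s3 t1157_A00pm_123_s3

theorem t1167_A00pm_123_s3 : ∃ t, chk3 f_A00pm_123_s3 t 1015 241 1 = true := ex3_b k127_A00pm_123_s3 t1166_A00pm_123_s3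

theorem t1168_A00pm_123_s3 : ∃ t, chk3 f_A00pm_123_s3 t 1015 120 1 = true := ex3_b k126_A00pm_123_s3 t1167_A00pm_123_s3

theorem t1169_A00pm_123_s3 : ∃ t, chk3 f_A00pm_123_s3 t 4059 965 1 = true := ex3_b k123_A00pm_123_s3 k124_A00pm_123_s3

theorem t1170_A00pm_123_s3 : ∃ t, chk3 f_A00pm_123_s3 t 2029 965 1 = true := ex3_a k122_A00pm_123_s3 t1169_A00pm_123_s3

theorem t1171_A00pm_123_s3 : ∃ t, chk3 f_A00pm_123_s3 t 4058 964 1 = true := ex3_b k119_A00pm_123_s3 k120_A00pm_123_s3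

theorem t1172_A00pm_123_s3 : ∃ t, chk3 f_A00pm_123_s3 t 2029 964 1 = true := ex3_a t1171_A00pm_123_s3 k121_A00pm_123_s3

theorem t1173_A00pm_123_s3 : ∃ t, chk3 f_A00pm_123_s3 t 2029 482 1 = true := ex3_b t1172_A00pm_123_s3 t1170_A00pm_123_s3

theorem t1174_A00pm_123_s3 : ∃ t, chk3 f_A00pm_123_s3 t 1014 482 1 = true := ex3_a k118_A00pm_123_s3 t1173_A00pm_123_s3

theorem t1175_A00pm_123_s3 : ∃ t, chk3 f_A00pm_123_s3 t 1014 241 1 = true := ex3_b t1174_A00pm_123_s3 k125_A00pm_123_s3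

theorem t1176_A00pm_123_s3 : ∃ t, chk3 f_A00pm_123_s3 t 2028 963 1 = true := ex3_a k115_A00pm_123_s3 k116_A00pm_123_s3

theorem t1177_A00pm_123_s3 : ∃ t, chk3 f_A00pm_123_s3 t 1014 963 1 = true := ex3_a t1176_A00pm_123_s3 k117_A00pm_123_s3

theorem t1178_A00pm_123_s3 : ∃ t, chk3 f_A00pm_123_s3 t 1014 481 1 = true := ex3_b k114_A00pm_123_s3 t1177_A00pm_123_s3

theorem t1179_A00pm_123_s3 : ∃ t, chk3 f_A00pm_123_s3 t 1014 240 1 = true := ex3_b k113_A00pm_123_s3 t1178_A00pm_123_s3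

theorem t1180_A00pm_123_s3 : ∃ t, chk3 f_A00pm_123_s3 t 1014 120 1 = true := ex3_b t1179_A00pm_123_s3 t1175_A00pm_123_s3

theorem t1181_A00pm_123_s3 : ∃ t, chk3 f_A00pm_123_s3 t 507 120 1 = true := ex3_a t1180_A00pm_123_s3 t1168_A00pm_123_s3

theorem t1182_A00pm_123_s3 : ∃ t, chk3 f_A00pm_123_s3 t 4055 962 1 = true := ex3_b k109_A00pm_123_s3 k110_A00pm_123_s3

theorem t1183_A00pm_123_s3 : ∃ t, chk3 f_A00pm_123_s3 t 2027 962 1 = true := ex3_a k108_A00pm_123_s3 t1182_A00pm_123_s3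

theorem t1184_A00pm_123_s3 : ∃ t, chk3 f_A00pm_123_s3 t 2027 481 1 = true := ex3_b t1183_A00pm_123_s3 k111_A00pm_123_s3

theorem t1185_A00pm_123_s3 : ∃ t, chk3 f_A00pm_123_s3 t 1013 481 1 = true := ex3_a k107_A00pm_123_s3 t1184_A00pm_123_s3

theorem t1186_A00pm_123_s3 : ∃ t, chk3 f_A00pm_123_s3 t 2027 961 1 = true := ex3_b k105_A00pm_123_s3 k106_A00pm_123_s3

theorem t1187_A00pm_123_s3 : ∃ t, chk3 f_A00pm_123_s3 t 2027 480 1 = true := ex3_b k104_A00pm_123_s3 t1186_A00pm_123_s3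

theorem t1188_A00pm_123_s3 : ∃ t, chk3 f_A00pm_123_s3 t 2026 960 1 = true := ex3_a k101_A00pm_123_s3 k102_A00pm_123_s3

theorem t1189_A00pm_123_s3 : ∃ t, chk3 f_A00pm_123_s3 t 2026 480 1 = true := ex3_b t1188_A00pm_123_s3 k103_A00pm_123_s3

theorem t1190_A00pm_123_s3 : ∃ t, chk3 f_A00pm_123_s3 t 1013 480 1 = true := ex3_a t1189_A00pm_123_s3 t1187_A00pm_123_s3

theorem t1191_A00pm_123_s3 : ∃ t, chk3 f_A00pm_123_s3 t 1013 240 1 = true := ex3_b t1190_A00pm_123_s3 t1185_A00pm_123_s3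

theorem t1192_A00pm_123_s3 : ∃ t, chk3 f_A00pm_123_s3 t 506 240 1 = true := ex3_a k100_A00pm_123_s3 t1191_A00pm_123_s3

theorem t1193_A00pm_123_s3 : ∃ t, chk3 f_A00pm_123_s3 t 506 120 1 = true := ex3_b t1192_A00pm_123_s3 k112_A00pm_123_s3

theorem t1194_A00pm_123_s3 : ∃ t, chk3 f_A00pm_123_s3 t 253 120 1 = true := ex3_a t1193_A00pm_123_s3 t1181_A00pm_123_s3

theorem t1195_A00pm_123_s3 : ∃ t, chk3 f_A00pm_123_s3 t 253 60 1 = true := ex3_b t1194_A00pm_123_s3 t1156_A00pm_123_s3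

theorem t1196_A00pm_123_s3 : ∃ t, chk3 f_A00pm_123_s3 t 126 60 1 = true := ex3_a k99_A00pm_123_s3 t1195_A00pm_123_s3

theorem t1197_A00pm_123_s3 : ∃ t, chk3 f_A00pm_123_s3 t 126 30 1 = true := ex3_b t1196_A00pm_123_s3 k150_A00pm_123_s3

theorem t1198_A00pm_123_s3 : ∃ t, chk3 f_A00pm_123_s3 t 63 30 1 = true := ex3_a t1197_A00pm_123_s3 t1146_A00pm_123_s3

theorem t1199_A00pm_123_s3 : ∃ t, chk3 f_A00pm_123_s3 t 31 30 1 = true := ex3_a k98_A00pm_123_s3 t1198_A00pm_123_s3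

theorem t1200_A00pm_123_s3 : ∃ t, chk3 f_A00pm_123_s3 t 31 15 1 = true := ex3_b t1199_A00pm_123_s3 t700_A00pm_123_s3

theorem t1201_A00pm_123_s3 : ∃ t, chk3 f_A00pm_123_s3 t 15 15 1 = true := ex3_a k97_A00pm_123_s3 t1200_A00pm_123_s3

theorem t1202_A00pm_123_s3 : ∃ t, chk3 f_A00pm_123_s3 t 508 59 3 = true := ex3_b k93_A00pm_123_s3 k94_A00pm_123_s3

theorem t1203_A00pm_123_s3 : ∃ t, chk3 f_A00pm_123_s3 t 254 59 3 = true := ex3_a t1202_A00pm_123_s3 k95_A00pm_123_s3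

theorem t1204_A00pm_123_s3 : ∃ t, chk3 f_A00pm_123_s3 t 254 29 3 = true := ex3_b k92_A00pm_123_s3 t1203_A00pm_123_s3

theorem t1205_A00pm_123_s3 : ∃ t, chk3 f_A00pm_123_s3 t 127 29 3 = true := ex3_a t1204_A00pm_123_s3 k96_A00pm_123_s3

theorem t1206_A00pm_123_s3 : ∃ t, chk3 f_A00pm_123_s3 t 508 59 2 = true := ex3_b k88_A00pm_123_s3 k89_A00pm_123_s3

theorem t1207_A00pm_123_s3 : ∃ t, chk3 f_A00pm_123_s3 t 254 59 2 = true := ex3_a t1206_A00pm_123_s3 k90_A00pm_123_s3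

theorem t1208_A00pm_123_s3 : ∃ t, chk3 f_A00pm_123_s3 t 254 29 2 = true := ex3_b k87_A00pm_123_s3 t1207_A00pm_123_s3

theorem t1209_A00pm_123_s3 : ∃ t, chk3 f_A00pm_123_s3 t 127 29 2 = true := ex3_a t1208_A00pm_123_s3 k91_A00pm_123_s3

theorem t1210_A00pm_123_s3 : ∃ t, chk3 f_A00pm_123_s3 t 127 29 1 = true := ex3_c t1209_A00pm_123_s3 t1205_A00pm_123_s3

theorem t1211_A00pm_123_s3 : ∃ t, chk3 f_A00pm_123_s3 t 2025 479 1 = true := ex3_b k83_A00pm_123_s3 k84_A00pm_123_s3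

theorem t1212_A00pm_123_s3 : ∃ t, chk3 f_A00pm_123_s3 t 1012 479 1 = true := ex3_a k82_A00pm_123_s3 t1211_A00pm_123_s3

theorem t1213_A00pm_123_s3 : ∃ t, chk3 f_A00pm_123_s3 t 2024 478 1 = true := ex3_c k79_A00pm_123_s3 k80_A00pm_123_s3

theorem t1214_A00pm_123_s3 : ∃ t, chk3 f_A00pm_123_s3 t 1012 478 1 = true := ex3_a t1213_A00pm_123_s3 k81_A00pm_123_s3

theorem t1215_A00pm_123_s3 : ∃ t, chk3 f_A00pm_123_s3 t 1012 239 1 = true := ex3_b t1214_A00pm_123_s3 t1212_A00pm_123_s3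

theorem t1216_A00pm_123_s3 : ∃ t, chk3 f_A00pm_123_s3 t 1012 119 1 = true := ex3_b k78_A00pm_123_s3 t1215_A00pm_123_s3

theorem t1217_A00pm_123_s3 : ∃ t, chk3 f_A00pm_123_s3 t 506 119 1 = true := ex3_a t1216_A00pm_123_s3 k85_A00pm_123_s3

theorem t1218_A00pm_123_s3 : ∃ t, chk3 f_A00pm_123_s3 t 253 119 1 = true := ex3_a t1217_A00pm_123_s3 k86_A00pm_123_s3

theorem t1219_A00pm_123_s3 : ∃ t, chk3 f_A00pm_123_s3 t 507 236 1 = true := ex3_a k75_A00pm_123_s3 k76_A00pm_123_s3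

theorem t1220_A00pm_123_s3 : ∃ t, chk3 f_A00pm_123_s3 t 507 118 1 = true := ex3_b t1219_A00pm_123_s3 k77_A00pm_123_s3

theorem t1221_A00pm_123_s3 : ∃ t, chk3 f_A00pm_123_s3 t 253 118 1 = true := ex3_a k74_A00pm_123_s3 t1220_A00pm_123_s3

theorem t1222_A00pm_123_s3 : ∃ t, chk3 f_A00pm_123_s3 t 253 59 1 = true := ex3_b t1221_A00pm_123_s3 t1218_A00pm_123_s3

theorem t1223_A00pm_123_s3 : ∃ t, chk3 f_A00pm_123_s3 t 2031 235 1 = true := ex3_b k72_A00pm_123_s3 k73_A00pm_123_s3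

theorem t1224_A00pm_123_s3 : ∃ t, chk3 f_A00pm_123_s3 t 1015 235 1 = true := ex3_a k71_A00pm_123_s3 t1223_A00pm_123_s3

theorem t1225_A00pm_123_s3 : ∃ t, chk3 f_A00pm_123_s3 t 1015 117 1 = true := ex3_b k70_A00pm_123_s3 t1224_A00pm_123_s3

theorem t1226_A00pm_123_s3 : ∃ t, chk3 f_A00pm_123_s3 t 1014 234 1 = true := ex3_a k67_A00pm_123_s3 k68_A00pm_123_s3

theorem t1227_A00pm_123_s3 : ∃ t, chk3 f_A00pm_123_s3 t 1014 117 1 = true := ex3_b t1226_A00pm_123_s3 k69_A00pm_123_s3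

theorem t1228_A00pm_123_s3 : ∃ t, chk3 f_A00pm_123_s3 t 507 117 1 = true := ex3_a t1227_A00pm_123_s3 t1225_A00pm_123_s3

theorem t1229_A00pm_123_s3 : ∃ t, chk3 f_A00pm_123_s3 t 507 58 1 = true := ex3_b k66_A00pm_123_s3 t1228_A00pm_123_s3

theorem t1230_A00pm_123_s3 : ∃ t, chk3 f_A00pm_123_s3 t 1013 116 1 = true := ex3_b k63_A00pm_123_s3 k64_A00pm_123_s3

theorem t1231_A00pm_123_s3 : ∃ t, chk3 f_A00pm_123_s3 t 506 116 1 = true := ex3_a k62_A00pm_123_s3 t1230_A00pm_123_s3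

theorem t1232_A00pm_123_s3 : ∃ t, chk3 f_A00pm_123_s3 t 506 58 1 = true := ex3_b t1231_A00pm_123_s3 k65_A00pm_123_s3

theorem t1233_A00pm_123_s3 : ∃ t, chk3 f_A00pm_123_s3 t 253 58 1 = true := ex3_a t1232_A00pm_123_s3 t1229_A00pm_123_s3

theorem t1234_A00pm_123_s3 : ∃ t, chk3 f_A00pm_123_s3 t 253 29 1 = true := ex3_b t1233_A00pm_123_s3 t1222_A00pm_123_s3

theorem t1235_A00pm_123_s3 : ∃ t, chk3 f_A00pm_123_s3 t 2022 477 1 = true := ex3_b k58_A00pm_123_s3 k59_A00pm_123_s3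

theorem t1236_A00pm_123_s3 : ∃ t, chk3 f_A00pm_123_s3 t 2022 238 1 = true := ex3_b k57_A00pm_123_s3 t1235_A00pm_123_s3

theorem t1237_A00pm_123_s3 : ∃ t, chk3 f_A00pm_123_s3 t 1011 238 1 = true := ex3_a t1236_A00pm_123_s3 k60_A00pm_123_s3

theorem t1238_A00pm_123_s3 : ∃ t, chk3 f_A00pm_123_s3 t 1010 476 1 = true := ex3_a k54_A00pm_123_s3 k55_A00pm_123_s3

theorem t1239_A00pm_123_s3 : ∃ t, chk3 f_A00pm_123_s3 t 1010 238 1 = true := ex3_b t1238_A00pm_123_s3 k56_A00pm_123_s3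

theorem t1240_A00pm_123_s3 : ∃ t, chk3 f_A00pm_123_s3 t 505 238 1 = true := ex3_a t1239_A00pm_123_s3 t1237_A00pm_123_s3

theorem t1241_A00pm_123_s3 : ∃ t, chk3 f_A00pm_123_s3 t 505 119 1 = true := ex3_b t1240_A00pm_123_s3 k61_A00pm_123_s3

theorem t1242_A00pm_123_s3 : ∃ t, chk3 f_A00pm_123_s3 t 252 119 1 = true := ex3_a k53_A00pm_123_s3 t1241_A00pm_123_s3

theorem t1243_A00pm_123_s3 : ∃ t, chk3 f_A00pm_123_s3 t 1009 237 1 = true := ex3_b k50_A00pm_123_s3 k51_A00pm_123_s3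

theorem t1244_A00pm_123_s3 : ∃ t, chk3 f_A00pm_123_s3 t 504 237 1 = true := ex3_a k49_A00pm_123_s3 t1243_A00pm_123_s3

theorem t1245_A00pm_123_s3 : ∃ t, chk3 f_A00pm_123_s3 t 504 118 1 = true := ex3_b k48_A00pm_123_s3 t1244_A00pm_123_s3

theorem t1246_A00pm_123_s3 : ∃ t, chk3 f_A00pm_123_s3 t 252 118 1 = true := ex3_a t1245_A00pm_123_s3 k52_A00pm_123_s3

theorem t1247_A00pm_123_s3 : ∃ t, chk3 f_A00pm_123_s3 t 252 59 1 = true := ex3_b t1246_A00pm_123_s3 t1242_A00pm_123_s3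

theorem t1248_A00pm_123_s3 : ∃ t, chk3 f_A00pm_123_s3 t 252 29 1 = true := ex3_b k47_A00pm_123_s3 t1247_A00pm_123_s3

theorem t1249_A00pm_123_s3 : ∃ t, chk3 f_A00pm_123_s3 t 126 29 1 = true := ex3_a t1248_A00pm_123_s3 t1234_A00pm_123_s3

theorem t1250_A00pm_123_s3 : ∃ t, chk3 f_A00pm_123_s3 t 63 29 1 = true := ex3_a t1249_A00pm_123_s3 t1210_A00pm_123_s3

theorem t1251_A00pm_123_s3 : ∃ t, chk3 f_A00pm_123_s3 t 1007 236 1 = true := ex3_b k43_A00pm_123_s3 k44_A00pm_123_s3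

theorem t1252_A00pm_123_s3 : ∃ t, chk3 f_A00pm_123_s3 t 503 236 1 = true := ex3_a k42_A00pm_123_s3 t1251_A00pm_123_s3

theorem t1253_A00pm_123_s3 : ∃ t, chk3 f_A00pm_123_s3 t 503 118 1 = true := ex3_b t1252_A00pm_123_s3 k45_A00pm_123_s3

theorem t1254_A00pm_123_s3 : ∃ t, chk3 f_A00pm_123_s3 t 503 59 1 = true := ex3_b t1253_A00pm_123_s3 k46_A00pm_123_s3

theorem t1255_A00pm_123_s3 : ∃ t, chk3 f_A00pm_123_s3 t 251 59 1 = true := ex3_a k41_A00pm_123_s3 t1254_A00pm_123_s3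

theorem t1256_A00pm_123_s3 : ∃ t, chk3 f_A00pm_123_s3 t 125 59 1 = true := ex3_a k40_A00pm_123_s3 t1255_A00pm_123_s3

theorem t1257_A00pm_123_s3 : ∃ t, chk3 f_A00pm_123_s3 t 1006 471 1 = true := ex3_a k37_A00pm_123_s3 k38_A00pm_123_s3

theorem t1258_A00pm_123_s3 : ∃ t, chk3 f_A00pm_123_s3 t 1006 235 1 = true := ex3_b k36_A00pm_123_s3 t1257_A00pm_123_s3

theorem t1259_A00pm_123_s3 : ∃ t, chk3 f_A00pm_123_s3 t 1006 117 1 = true := ex3_b k35_A00pm_123_s3 t1258_A00pm_123_s3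

theorem t1260_A00pm_123_s3 : ∃ t, chk3 f_A00pm_123_s3 t 503 117 1 = true := ex3_a t1259_A00pm_123_s3 k39_A00pm_123_s3

theorem t1261_A00pm_123_s3 : ∃ t, chk3 f_A00pm_123_s3 t 503 58 1 = true := ex3_b k34_A00pm_123_s3 t1260_A00pm_123_s3

theorem t1262_A00pm_123_s3 : ∃ t, chk3 f_A00pm_123_s3 t 502 117 1 = true := ex3_b k32_A00pm_123_s3 k33_A00pm_123_s3

theorem t1263_A00pm_123_s3 : ∃ t, chk3 f_A00pm_123_s3 t 502 58 1 = true := ex3_b k31_A00pm_123_s3 t1262_A00pm_123_s3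

theorem t1264_A00pm_123_s3 : ∃ t, chk3 f_A00pm_123_s3 t 251 58 1 = true := ex3_a t1263_A00pm_123_s3 t1261_A00pm_123_s3

theorem t1265_A00pm_123_s3 : ∃ t, chk3 f_A00pm_123_s3 t 125 58 1 = true := ex3_a k30_A00pm_123_s3 t1264_A00pm_123_s3

theorem t1266_A00pm_123_s3 : ∃ t, chk3 f_A00pm_123_s3 t 125 29 1 = true := ex3_b t1265_A00pm_123_s3 t1256_A00pm_123_s3

theorem t1267_A00pm_123_s3 : ∃ t, chk3 f_A00pm_123_s3 t 62 29 1 = true := ex3_a k29_A00pm_123_s3 t1266_A00pm_123_s3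

theorem t1268_A00pm_123_s3 : ∃ t, chk3 f_A00pm_123_s3 t 31 29 1 = true := ex3_a t1267_A00pm_123_s3 t1250_A00pm_123_s3

theorem t1269_A00pm_123_s3 : ∃ t, chk3 f_A00pm_123_s3 t 252 115 1 = true := ex3_a k25_A00pm_123_s3 k26_A00pm_123_s3

theorem t1270_A00pm_123_s3 : ∃ t, chk3 f_A00pm_123_s3 t 252 57 1 = true := ex3_b k24_A00pm_123_s3 t1269_A00pm_123_s3

theorem t1271_A00pm_123_s3 : ∃ t, chk3 f_A00pm_123_s3 t 252 28 1 = true := ex3_b k23_A00pm_123_s3 t1270_A00pm_123_s3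

theorem t1272_A00pm_123_s3 : ∃ t, chk3 f_A00pm_123_s3 t 126 28 1 = true := ex3_a t1271_A00pm_123_s3 k27_A00pm_123_s3

theorem t1273_A00pm_123_s3 : ∃ t, chk3 f_A00pm_123_s3 t 63 28 1 = true := ex3_a t1272_A00pm_123_s3 k28_A00pm_123_s3

theorem t1274_A00pm_123_s3 : ∃ t, chk3 f_A00pm_123_s3 t 251 56 1 = true := ex3_b k20_A00pm_123_s3 k21_A00pm_123_s3

theorem t1275_A00pm_123_s3 : ∃ t, chk3 f_A00pm_123_s3 t 125 56 1 = true := ex3_a k19_A00pm_123_s3 t1274_A00pm_123_s3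

theorem t1276_A00pm_123_s3 : ∃ t, chk3 f_A00pm_123_s3 t 125 28 1 = true := ex3_b t1275_A00pm_123_s3 k22_A00pm_123_s3

theorem t1277_A00pm_123_s3 : ∃ t, chk3 f_A00pm_123_s3 t 62 28 1 = true := ex3_a k18_A00pm_123_s3 t1276_A00pm_123_s3

theorem t1278_A00pm_123_s3 : ∃ t, chk3 f_A00pm_123_s3 t 31 28 1 = true := ex3_a t1277_A00pm_123_s3 t1273_A00pm_123_s3

theorem t1279_A00pm_123_s3 : ∃ t, chk3 f_A00pm_123_s3 t 31 14 1 = true := ex3_b t1278_A00pm_123_s3 t1268_A00pm_123_s3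

theorem t1280_A00pm_123_s3 : ∃ t, chk3 f_A00pm_123_s3 t 15 14 1 = true := ex3_a k17_A00pm_123_s3 t1279_A00pm_123_s3

theorem t1281_A00pm_123_s3 : ∃ t, chk3 f_A00pm_123_s3 t 15 7 1 = true := ex3_b t1280_A00pm_123_s3 t1201_A00pm_123_s3

theorem t1282_A00pm_123_s3 : ∃ t, chk3 f_A00pm_123_s3 t 7 7 1 = true := ex3_a k16_A00pm_123_s3 t1281_A00pm_123_s3

theorem t1283_A00pm_123_s3 : ∃ t, chk3 f_A00pm_123_s3 t 250 55 1 = true := ex3_a k12_A00pm_123_s3 k13_A00pm_123_s3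

theorem t1284_A00pm_123_s3 : ∃ t, chk3 f_A00pm_123_s3 t 125 55 1 = true := ex3_a t1283_A00pm_123_s3 k14_A00pm_123_s3

theorem t1285_A00pm_123_s3 : ∃ t, chk3 f_A00pm_123_s3 t 125 27 1 = true := ex3_b k11_A00pm_123_s3 t1284_A00pm_123_s3

theorem t1286_A00pm_123_s3 : ∃ t, chk3 f_A00pm_123_s3 t 125 13 1 = true := ex3_b k10_A00pm_123_s3 t1285_A00pm_123_s3

theorem t1287_A00pm_123_s3 : ∃ t, chk3 f_A00pm_123_s3 t 249 27 1 = true := ex3_b k8_A00pm_123_s3 k9_A00pm_123_s3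

theorem t1288_A00pm_123_s3 : ∃ t, chk3 f_A00pm_123_s3 t 124 27 1 = true := ex3_a k7_A00pm_123_s3 t1287_A00pm_123_s3

theorem t1289_A00pm_123_s3 : ∃ t, chk3 f_A00pm_123_s3 t 124 13 1 = true := ex3_b k6_A00pm_123_s3 t1288_A00pm_123_s3

theorem t1290_A00pm_123_s3 : ∃ t, chk3 f_A00pm_123_s3 t 62 13 1 = true := ex3_a t1289_A00pm_123_s3 t1286_A00pm_123_s3

theorem t1291_A00pm_123_s3 : ∃ t, chk3 f_A00pm_123_s3 t 31 13 1 = true := ex3_a t1290_A00pm_123_s3 k15_A00pm_123_s3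

theorem t1292_A00pm_123_s3 : ∃ t, chk3 f_A00pm_123_s3 t 15 13 1 = true := ex3_a k5_A00pm_123_s3 t1291_A00pm_123_s3

theorem t1293_A00pm_123_s3 : ∃ t, chk3 f_A00pm_123_s3 t 15 6 1 = true := ex3_b k4_A00pm_123_s3 t1292_A00pm_123_s3

theorem t1294_A00pm_123_s3 : ∃ t, chk3 f_A00pm_123_s3 t 7 6 1 = true := ex3_a k3_A00pm_123_s3 t1293_A00pm_123_s3

theorem t1295_A00pm_123_s3 : ∃ t, chk3 f_A00pm_123_s3 t 7 3 1 = true := ex3_b t1294_A00pm_123_s3 t1282_A00pm_123_s3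

theorem t1296_A00pm_123_s3 : ∃ t, chk3 f_A00pm_123_s3 t 3 3 1 = true := ex3_a k2_A00pm_123_s3 t1295_A00pm_123_s3

theorem t1297_A00pm_123_s3 : ∃ t, chk3 f_A00pm_123_s3 t 3 1 1 = true := ex3_b k1_A00pm_123_s3 t1296_A00pm_123_s3

theorem t1298_A00pm_123_s3 : ∃ t, chk3 f_A00pm_123_s3 t 1 1 1 = true := ex3_a k0_A00pm_123_s3 t1297_A00pm_123_s3

theorem c_A00pm_123_s3 : CertF 536870912 536870912 0 536870912 1020054732 13421774 true true false .npn 1 2 3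
    ndB0q1 ndB0q2 pcB3 cut_A00pm_123_s3 xt_A00pm_123_s3 :=
  certF2 (fam := true) (s1 := true) (s2 := false) (a := 1) (b := 2) (c := 3) (cn := .npn) (n1 := ndB0q1) (n2 := ndB0q2) (pc := pcB3) (cut := cut_A00pm_123_s3) (xt := xt_A00pm_123_s3) (P1 := 536870912) (W1 := 536870912) (P2 := 0) (W2 := 536870912) (P3 := 1020054732) (W3 := 13421774)
    rfl (fun _ => rfl) t1298_A00pm_123_s3

theorem s_A00pm_123_s3 {κ x : ℝ} (hκ : κ * h0 = ken x) (hx : ((1020054732 : ℕ) : ℝ) / S ≤ x)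
    (hx' : x ≤ (((1020054732 : ℕ) : ℝ) + (13421774 : ℕ)) / S)
    (H : CutA (VFD κ) PP tK tL pcB (Cut.of [[⟨0, 1, 0, 26738688⟩, ⟨1, 1, 0, 26738688⟩, ⟨2, 2, 0, 2621440⟩], [⟨0, 0, 1, 46137344⟩, ⟨1, 1, 0, 2097152⟩, ⟨2, 1, 1, 46137344⟩, ⟨0, 0, 0, 1041207446⟩, ⟨0, 1, 0, 59055800⟩, ⟨2, 1, 0, 1041207446⟩, ⟨2, 2, 0, 59055800⟩], [⟨0, 1, 0, 2097152⟩, ⟨1, 0, 1, 46137344⟩, ⟨2, 1, 1, 46137344⟩, ⟨1, 0, 0, 1041207446⟩, ⟨1, 1, 0, 59055800⟩, ⟨2, 1, 0, 1041207446⟩, ⟨2, 2, 0, 59055800⟩]]) 1 2 3 0 0 (sgb true) (sgb false) x) :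
    AltA (VFD κ) PP tK tL pcB [⟨4, 0, 0, 3194381926⟩] 1 2 3 0 0 (sgb true) (sgb false) x :=
  strip_altAD (m := 3194381926) false rfl hκ (SH.κ0 hκ (SH.hx1 hx).le (SH.hx2 hx').le) (SH.hx1 hx).le (SH.hx2 hx') (covB01).cov (covB02).cov hx hx' c_A00pm_123_s3 H ((okx hx hx').extA (T := tt) (sideB hx hx') hκ rfl rfl (.O 1 true) (.O 2 false) (Or.inr rfl))

end Pool.Agent.Strip051.G.I9500_9625.Tab.St.C
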