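import Pool.Agent.Strip051.G.I9500_9625.StH
import Pool.Agent.Strip051.G.I9500_9625.StF

/-! # Unit strips 6 (generated) -/

set_option linter.all false
set_option maxRecDepth 100000

namespace Pool.Agent.Strip051.G.I9500_9625.Tab.St.C

open Pool.Agent.Strip051.PB Pool.Agent.Strip051.PB.T Pool.Agent.StripNear Pool.Agent.Strip051.LC
open Pool.Agent.Strip051.G.I9500_9625.Tab Pool.Agent.Strip051.G.I9500_9625.Tab.St

noncomputable def cut_A00pm_202_s1 : Cut := Cut.of [[⟨4, 0, 0, 1449551462⟩], [⟨0, 1, 0, 33554432⟩, ⟨1, 0, 0, 33554432⟩, ⟨2, 1, 0, 33554432⟩]]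

noncomputable def f_A00pm_202_s1 : ℕ → ℕ → ℕ → ℕ → Bool := onCell 0 536870912 1073741824 536870912 1020054732 13421774
    (rowF 1 true true false .pp 2 0 2 (qsf 0 536870912 0 536870912 2) ndB0q2 ndB0q0 pcB2 cut_A00pm_202_s1 Ext.none)

def k0_A00pm_202_s1 : ∃ t, chk3 f_A00pm_202_s1 t 2 4 1 = true :=
  ⟨(b (l 1) (l 6)), by decide +kernel⟩

def k1_A00pm_202_s1 : ∃ t, chk3 f_A00pm_202_s1 t 6 8 1 = true :=
  ⟨(l 1), by decide +kernel⟩

def k2_A00pm_202_s1 : ∃ t, chk3 f_A00pm_202_s1 t 14 8 1 = true :=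
  ⟨(b (l 1) (a (b (l 1) (a (l 1) (b (l 1) (l 16473040)))) (a (b (l 1) (b (l 16494752) (l 16521288))) (b (b (b (l 1) (l 16422200)) (a (l 16509472) (l 16453776))) (b (l 16464392) (l 16490968)))))), by decide +kernel⟩

def k3_A00pm_202_s1 : ∃ t, chk3 f_A00pm_202_s1 t 15 16 1 = true :=
  ⟨(b (a (l 1) (l 14)) (a (a (a (l 1) (b (l 1) (a (l 1) (b (l 1) (b (l 1) (b (a (l 1) (l 14)) (c (a (c (l 16580832) (l 16561520)) (l 16563672)) (a (c (a (l 16560824) (l 16565336)) (a (a (l 1) (l 16552840)) (l 16556440))) (c (l 16551168) (l 16553192)))))))))) (b (l 14) (b (l 14) (b (l 14) (b (l 14) (b (l 14) (a (a (c (l 16576840) (a (l 16577944) (l 16587464))) (c (l 16614872) (l 16602112))) (a (l 16606600) (l 16647264))))))))) (b (l 14) (b (l 14) (b (l 14) (a (a (a (l 16644664) (l 16644000)) (l 16684696)) (a (l 16680136) (l 16649784)))))))), by decide +kernel⟩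

def k4_A00pm_202_s1 : ∃ t, chk3 f_A00pm_202_s1 t 30 17 1 = true :=
  ⟨(a (b (a (b (a (b (l 1) (l 16542336)) (b (a (l 16542632) (l 16508368)) (l 16515592))) (b (l 16477552) (l 16489528))) (b (a (c (b (a (l 16568024) (b (l 16557120) (l 16578816))) (l 16542120)) (b (a (l 16548024) (b (a (l 16551544) (b (l 16543848) (l 16556744))) (l 16558416))) (a (l 16558024) (l 16544992)))) (c (b (b (a (b (a (l 16556336) (l 16581384)) (l 16582280)) (l 16568000)) (b (l 16568328) (l 16550336))) (b (l 16575832) (l 16602936))) (b (b (a (b (a (a (c (l 16562200) (l 16542160)) (l 16549272)) (l 16552760)) (c (l 16547104) (l 16547968))) (b (l 16549296) (l 16572640))) (a (c (l 16571904) (l 16561856)) (l 16576256))) (a (b (l 16550880) (l 16576928)) (l 16541760))))) (b (a (a (l 16580704) (l 16546632)) (c (l 16570408) (a (l 16542848) (l 16594080)))) (a (l 16512736) (a (l 16566688) (l 16533264)))))) (a (b (l 16508312) (l 16534896))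 (a (b (l 16531528) (l 16558112)) (b (b (l 16583296) (l 16554176)) (l 16574224))))) (b (a (b (b (a (c (b (b (l 16578960) (l 16602792)) (l 16607136)) (b (a (l 16559904) (l 16590392)) (l 16569440))) (c (b (l 16576392) (l 16623992)) (b (l 16584064) (l 16609808)))) (a (c (l 16574096) (l 16566392)) (b (l 16590840) (l 16585832)))) (b (c (l 16594576) (b (l 16573272) (l 16536632))) (c (l 16565288) (l 16544816)))) (b (b (c (a (l 16596872) (l 16615152)) (a (b (l 16625288) (l 16630048)) (l 16606648))) (c (l 16617176) (b (l 16603408) (l 16566480)))) (b (c (l 16586984) (l 16616200)) (c (l 16599264) (l 16585080))))) (c (b (a (l 16585128) (l 16618624)) (a (l 16610936) (l 16586808))) (a (b (l 16582984) (l 16586624)) (b (l 16602264) (l 16606168)))))), by decide +kernel⟩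

def k5_A00pm_202_s1 : ∃ t, chk3 f_A00pm_202_s1 t 31 17 1 = true :=
  ⟨(b (a (a (b (a (b (b (l 16628536) (l 16591576)) (l 16641280)) (b (l 16672160) (l 16619376))) (b (c (l 16623384) (l 16616856)) (l 16631488))) (b (b (c (l 16638792) (l 16639776)) (l 16691264)) (b (l 16663032) (l 16602760)))) (b (b (a (c (l 16628848) (l 16622504)) (c (l 16601080) (l 16589416))) (a (c (l 16611504) (l 16605352)) (c (l 16583664) (l 16571752)))) (a (b (l 16632480) (l 16613904)) (b (b (l 16564360) (l 16555200)) (b (l 16545992) (l 16620552)))))) (a (b (a (b (l 16614712) (l 16595432)) (b (l 16583800) (l 16564504))) (a (b (l 16575880) (l 16556232)) (b (l 16545000) (l 16609656)))) (a (b (b (l 16594992) (l 16533960)) (b (l 16599056) (l 16580672))) (b (b (l 16564776) (l 16546544)) (b (l 16528896) (l 16553416)))))), by decide +kernel⟩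

def k6_A00pm_202_s1 : ∃ t, chk3 f_A00pm_202_s1 t 6 9 1 = true :=
  ⟨(a (b (l 1) (l 6)) (b (a (b (l 1) (a (l 16321088) (l 16347840))) (b (b (l 1) (a (l 16413936) (l 16448704))) (a (l 16378456) (l 16413152)))) (a (b (a (l 16392088) (l 16418600)) (l 6)) (b (a (l 16449008) (l 16400440)) (a (l 16420064) (l 16407528)))))), by decide +kernel⟩

def k7_A00pm_202_s1 : ∃ t, chk3 f_A00pm_202_s1 t 7 9 1 = true :=
  ⟨(a (a (b (b (a (c (l 16407976) (l 16452848)) (l 16390248)) (a (l 16452144) (l 16411768))) (b (a (l 16438720) (l 16452240)) (a (l 16391624) (l 16372528)))) (b (b (a (l 16480464) (a (l 16519992) (l 16464888))) (a (l 16460232) (l 16474632))) (b (a (l 16427832) (l 16396672)) (a (l 16434320) (l 16409832))))) (a (b (a (b (a (b (l 16563184) (l 16590144)) (b (a (l 16586384) (l 16602520)) (l 16568536))) (a (l 16446576) (b (l 16528760) (l 16491512)))) (b (b (a (l 16584296) (b (l 16566568) (l 16546616))) (a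 (l 16544224) (l 16518016))) (b (a (l 16506184) (l 16481056)) (a (l 16469984) (l 16446088))))) (a (b (a (l 16455664) (b (l 16456144) (l 16505432))) (b (l 16396240) (l 16446960))) (b (a (b (l 16435504) (l 16401552)) (b (l 16411728) (l 16462072))) (a (b (l 16368464) (l 16336408)) (b (l 16429440) (l 16397832)))))) (b (b (a (b (a (b (l 16536480) (l 16517288)) (b (l 16590824) (l 16572632))) (a (c (l 16564864) (l 16582416)) (b (l 16554872) (l 16537536)))) (a (b (b (l 16562912) (l 16545488)) (l 16477960)) (b (b (l 16536328) (l 16519672)) (c (l 16497112) (l 16491864))))) (a (b (a (l 16454416) (l 16427776)) (c (l 16396616) (l 16417208))) (b (c (l 16388744) (l 16390296)) (c (l 16353920) (l 16358904))))) (a (b (c (b (l 16361136) (l 16410256)) (b (l 16385464) (l 16354584))) (c (b (l 16376352) (l 16343200)) (a (l 16408136) (l 16379832)))) (b (b (c (l 16403464) (l 16328288)) (a (l 16387712) (l 16280896))) (b (c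 (l 16336568) (l 16353520)) (c (l 16303928) (l 16325360)))))))), by decide +kernel⟩

def k8_A00pm_202_s1 : ∃ t, chk3 f_A00pm_202_s1 t 1 5 1 = true :=
  ⟨(a (l 6) (a (b (a (l 6) (b (a (l 6) (b (c (l 16388032) (l 16443512)) (l 6))) (l 6))) (l 6)) (a (b (b (b (a (a (l 16314200) (l 16383864)) (l 16354200)) (a (c (l 16374232) (l 16436904)) (l 16289592))) (a (b (l 6) (l 6)) (b (l 16228608) (l 16255096)))) (l 6)) (a (b (b (a (b (l 16315408) (l 16254904)) (b (a (b (l 16305440) (l 16275472)) (b (l 16367160) (l 16337352))) (b (a (l 16246304) (l 16308208)) (b (a (l 16308816) (l 16286752)) (b (a (l 16298304) (l 16276080)) (c (a (a (l 16261432) (l 16252384)) (l 16236592)) (a (l 16327016) (l 16302152)))))))) (a (b (l 16281944) (l 16227880)) (b (a (l 16176808) (l 16238784)) (a (l 16124832) (l 16187496))))) (b (b (a (l 16176760) (a (l 16075800) (l 16139208))) (l 6)) (l 6))) (b (b (b (a (b (c (l 16310792) (l 16351432))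 (a (l 16313168) (l 16289184))) (b (a (l 16295776) (l 16189800)) (c (l 16239568) (l 16270752)))) (b (a (a (l 16284008) (l 16176120)) (c (l 16123752) (l 16244360))) (b (a (a (l 16262448) (l 16238344)) (c (l 16183480) (l 16224936))) (b (a (c (l 16211848) (l 16267704)) (c (l 16170712) (l 16215344))) (a (c (a (l 16214584) (l 16192912)) (l 16261280)) (b (c (a (l 16173896) (l 16112136)) (l 16210568)) (l 16183320))))))) (a (b (a (l 16130504) (l 16106328)) (c (l 16119176) (l 16184920))) (b (b (c (l 16144400) (l 16193328)) (l 16059168)) (b (l 16034336) (l 16010232))))) (b (a (b (c (l 16069264) (l 16139600)) (l 15975448)) (b (c (l 16030736) (l 16088592)) (l 15931560))) (a (l 6) (c (l 15922456) (l 15987904))))))))), by decide +kernel⟩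

def k9_A00pm_202_s1 : ∃ t, chk3 f_A00pm_202_s1 t 1 3 1 = true :=
  ⟨(a (l 6) (l 6)), by decide +kernel⟩

theorem t10_A00pm_202_s1 : ∃ t, chk3 f_A00pm_202_s1 t 3 9 1 = true := ex3_a k6_A00pm_202_s1 k7_A00pm_202_s1

theorem t11_A00pm_202_s1 : ∃ t, chk3 f_A00pm_202_s1 t 15 17 1 = true := ex3_a k4_A00pm_202_s1 k5_A00pm_202_s1

theorem t12_A00pm_202_s1 : ∃ t, chk3 f_A00pm_202_s1 t 15 8 1 = true := ex3_b k3_A00pm_202_s1 t11_A00pm_202_s1

theorem t13_A00pm_202_s1 : ∃ t, chk3 f_A00pm_202_s1 t 7 8 1 = true := ex3_a k2_A00pm_202_s1 t12_A00pm_202_s1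

theorem t14_A00pm_202_s1 : ∃ t, chk3 f_A00pm_202_s1 t 3 8 1 = true := ex3_a k1_A00pm_202_s1 t13_A00pm_202_s1

theorem t15_A00pm_202_s1 : ∃ t, chk3 f_A00pm_202_s1 t 3 4 1 = true := ex3_b t14_A00pm_202_s1 t10_A00pm_202_s1

theorem t16_A00pm_202_s1 : ∃ t, chk3 f_A00pm_202_s1 t 1 4 1 = true := ex3_a k0_A00pm_202_s1 t15_A00pm_202_s1

theorem t17_A00pm_202_s1 : ∃ t, chk3 f_A00pm_202_s1 t 1 2 1 = true := ex3_b t16_A00pm_202_s1 k8_A00pm_202_s1

theorem t18_A00pm_202_s1 : ∃ t, chk3 f_A00pm_202_s1 t 1 1 1 = true := ex3_b t17_A00pm_202_s1 k9_A00pm_202_s1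

theorem c_A00pm_202_s1 : CertF 0 536870912 0 536870912 1020054732 13421774 true true false .pp 2 0 2
    ndB0q2 ndB0q0 pcB2 cut_A00pm_202_s1 Ext.none :=
  certF1 (fam := true) (s1 := true) (s2 := false) (a := 2) (b := 0) (c := 2) (cn := .pp) (n1 := ndB0q2) (n2 := ndB0q0) (pc := pcB2) (cut := cut_A00pm_202_s1) (xt := Ext.none) (P1 := 0) (W1 := 536870912) (P2 := 0) (W2 := 536870912) (P3 := 1020054732) (W3 := 13421774)
    rfl (fun _ => rfl) t18_A00pm_202_s1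

theorem s_A00pm_202_s1 {κ x : ℝ} (hκ : κ * h0 = ken x) (hx : ((1020054732 : ℕ) : ℝ) / S ≤ x)
    (hx' : x ≤ (((1020054732 : ℕ) : ℝ) + (13421774 : ℕ)) / S)
    (H : CutA (VFD κ) PP tK tL pcB (Cut.of [[⟨0, 1, 0, 33554432⟩, ⟨1, 0, 0, 33554432⟩, ⟨2, 1, 0, 33554432⟩]]) 2 0 2 0 0 (sgb true) (sgb false) x) :
    AltA (VFD κ) PP tK tL pcB [⟨3, 0, 0, 1449551462⟩] 2 0 2 0 0 (sgb true) (sgb false) x :=
  strip_altAD (m := 1449551462) true rfl hκ (SH.κ0 hκ (SH.hx1 hx).le (SH.hx2 hx').le) (SH.hx1 hx).le (SH.hx2 hx') (covB02).cov (covB00).cov hx hx' c_A00pm_202_s1 H (noExt_A)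

noncomputable def cut_A00pm_202_s3 : Cut := Cut.of [[⟨3, 0, 0, 2845415833⟩], [⟨0, 1, 0, 33554432⟩, ⟨1, 0, 0, 33554432⟩, ⟨2, 1, 0, 33554432⟩]]

noncomputable def f_A00pm_202_s3 : ℕ → ℕ → ℕ → ℕ → Bool := onCell 0 536870912 1073741824 536870912 1020054732 13421774
    (rowF 1 true true false .pp 2 0 2 (qsf 0 536870912 0 536870912 2) ndB0q2 ndB0q0 pcB2 cut_A00pm_202_s3 Ext.none)

def k0_A00pm_202_s3 : ∃ t, chk3 f_A00pm_202_s3 t 1 1 1 = true :=
  ⟨(b (l 6) (a (l 6) (l 6))), by decide +kernel⟩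

theorem c_A00pm_202_s3 : CertF 0 536870912 0 536870912 1020054732 13421774 true true false .pp 2 0 2
    ndB0q2 ndB0q0 pcB2 cut_A00pm_202_s3 Ext.none :=
  certF1 (fam := true) (s1 := true) (s2 := false) (a := 2) (b := 0) (c := 2) (cn := .pp) (n1 := ndB0q2) (n2 := ndB0q0) (pc := pcB2) (cut := cut_A00pm_202_s3) (xt := Ext.none) (P1 := 0) (W1 := 536870912) (P2 := 0) (W2 := 536870912) (P3 := 1020054732) (W3 := 13421774)
    rfl (fun _ => rfl) k0_A00pm_202_s3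

theorem s_A00pm_202_s3 {κ x : ℝ} (hκ : κ * h0 = ken x) (hx : ((1020054732 : ℕ) : ℝ) / S ≤ x)
    (hx' : x ≤ (((1020054732 : ℕ) : ℝ) + (13421774 : ℕ)) / S)
    (H : CutA (VFD κ) PP tK tL pcB (Cut.of [[⟨0, 1, 0, 33554432⟩, ⟨1, 0, 0, 33554432⟩, ⟨2, 1, 0, 33554432⟩]]) 2 0 2 0 0 (sgb true) (sgb false) x) :
    AltA (VFD κ) PP tK tL pcB [⟨4, 0, 0, 2845415833⟩] 2 0 2 0 0 (sgb true) (sgb false) x :=
  strip_altAD (m := 2845415833) false rfl hκ (SH.κ0 hκ (SH.hx1 hx).le (SH.hx2 hx').le) (SH.hx1 hx).le (SH.hx2 hx') (covB02).cov (covB00).cov hx hx' c_A00pm_202_s3 H (noExt_A)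

noncomputable def cut_A00pm_203_s1 : Cut := Cut.of [[⟨4, 0, 0, 1449551462⟩]]

noncomputable def f_A00pm_203_s1 : ℕ → ℕ → ℕ → ℕ → Bool := onCell 0 536870912 1610612736 536870912 1020054732 13421774
    (rowF 1 true true false .up 2 0 3 (qsf 0 536870912 0 536870912 3) ndB0q2 ndB0q0 pcB3 cut_A00pm_203_s1 Ext.none)

def k0_A00pm_203_s1 : ∃ t, chk3 f_A00pm_203_s1 t 1 1 1 = true :=
  ⟨(l 6), by decide +kernel⟩

theorem c_A00pm_203_s1 : CertF 0 536870912 0 536870912 1020054732 13421774 true true false .up 2 0 3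
    ndB0q2 ndB0q0 pcB3 cut_A00pm_203_s1 Ext.none :=
  certF1 (fam := true) (s1 := true) (s2 := false) (a := 2) (b := 0) (c := 3) (cn := .up) (n1 := ndB0q2) (n2 := ndB0q0) (pc := pcB3) (cut := cut_A00pm_203_s1) (xt := Ext.none) (P1 := 0) (W1 := 536870912) (P2 := 0) (W2 := 536870912) (P3 := 1020054732) (W3 := 13421774)
    rfl (fun _ => rfl) k0_A00pm_203_s1

theorem s_A00pm_203_s1 {κ x : ℝ} (hκ : κ * h0 = ken x) (hx : ((1020054732 : ℕ) : ℝ) / S ≤ x)
    (hx' : x ≤ (((1020054732 : ℕ) : ℝ) + (13421774 : ℕ)) / S) :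
    AltA (VFD κ) PP tK tL pcB [⟨3, 0, 0, 1449551462⟩] 2 0 3 0 0 (sgb true) (sgb false) x :=
  strip_altAD (m := 1449551462) true rfl hκ (SH.κ0 hκ (SH.hx1 hx).le (SH.hx2 hx').le) (SH.hx1 hx).le (SH.hx2 hx') (covB02).cov (covB00).cov hx hx' c_A00pm_203_s1 cutA_nil (noExt_A)

noncomputable def cut_A00pm_203_s3 : Cut := Cut.of [[⟨3, 0, 0, 2845415833⟩]]

noncomputable def xt_A00pm_203_s3 : Ext := strExt dd true true false .u2 .u0m .s2m .up 2 0 3 rfl rfl gl3 vv ndB0q2 ndB0q0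

noncomputable def f_A00pm_203_s3 : ℕ → ℕ → ℕ → ℕ → Bool := onCell 0 536870912 0 536870912 1020054732 13421774
    (rowF 0 true true false .up 2 0 3 (qsf 0 536870912 0 536870912 3) ndB0q2 ndB0q0 pcB3 cut_A00pm_203_s3 xt_A00pm_203_s3)

def k0_A00pm_203_s3 : ∃ t, chk3 f_A00pm_203_s3 t 1 1 1 = true :=
  ⟨(a (b (l 1) (b (a (b (l 1) (a (b (l 1) (a (l 16402128) (l 6))) (l 6))) (l 6)) (a (a (a (b (b (l 16465400) (l 16505768)) (b (l 533539343) (l 533416975))) (b (b (l 6) (l 16485184)) (b (l 533067791) (l 532674831)))) (b (l 6) (b (a (a (l 16507056) (b (l 6) (l 16585912))) (l 6)) (a (b (l 16612288) (l 16545312)) (b (a (l 16508496) (l 6)) (a (l 16524000) (l 16514632))))))) (b (l 6) (l 6))))) (l 6)), by decide +kernel⟩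

theorem c_A00pm_203_s3 : CertF 0 536870912 0 536870912 1020054732 13421774 true true false .up 2 0 3
    ndB0q2 ndB0q0 pcB3 cut_A00pm_203_s3 xt_A00pm_203_s3 :=
  certF0 (fam := true) (s1 := true) (s2 := false) (a := 2) (b := 0) (c := 3) (cn := .up) (n1 := ndB0q2) (n2 := ndB0q0) (pc := pcB3) (cut := cut_A00pm_203_s3) (xt := xt_A00pm_203_s3) (P1 := 0) (W1 := 536870912) (P2 := 0) (W2 := 536870912) (P3 := 1020054732) (W3 := 13421774)
    rfl k0_A00pm_203_s3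

theorem s_A00pm_203_s3 {κ x : ℝ} (hκ : κ * h0 = ken x) (hx : ((1020054732 : ℕ) : ℝ) / S ≤ x)
    (hx' : x ≤ (((1020054732 : ℕ) : ℝ) + (13421774 : ℕ)) / S) :
    AltA (VFD κ) PP tK tL pcB [⟨4, 0, 0, 2845415833⟩] 2 0 3 0 0 (sgb true) (sgb false) x :=
  strip_altAD (m := 2845415833) false rfl hκ (SH.κ0 hκ (SH.hx1 hx).le (SH.hx2 hx').le) (SH.hx1 hx).le (SH.hx2 hx') (covB02).cov (covB00).cov hx hx' c_A00pm_203_s3 cutA_nil ((okx hx hx').extA (T := tt) (sideB hx hx') hκ rfl rfl (.O 2 true) (.O 0 false) (Or.inr rfl))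

noncomputable def cut_A00pm_213_s1 : Cut := Cut.of [[⟨4, 0, 0, 1449551462⟩], [⟨0, 1, 0, 26738688⟩, ⟨1, 1, 0, 26738688⟩, ⟨2, 2, 0, 2621440⟩], [⟨0, 0, 1, 46137344⟩, ⟨1, 1, 0, 2097152⟩, ⟨2, 1, 1, 46137344⟩, ⟨0, 0, 0, 1041207446⟩, ⟨0, 1, 0, 59055800⟩, ⟨2, 1, 0, 1041207446⟩, ⟨2, 2, 0, 59055800⟩], [⟨0, 1, 0, 2097152⟩, ⟨1, 0, 1, 46137344⟩, ⟨2, 1, 1, 46137344⟩, ⟨1, 0, 0, 1041207446⟩, ⟨1, 1, 0, 59055800⟩, ⟨2, 1, 0, 1041207446⟩, ⟨2, 2, 0, 59055800⟩]]

noncomputable def f_A00pm_213_s1 : ℕ → ℕ → ℕ → ℕ → Bool := onCell 0 536870912 536870912 536870912 1020054732 13421774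
    (rowF 0 true true false .pnn 2 1 3 (qsf 0 536870912 536870912 536870912 3) ndB0q2 ndB0q1 pcB3 cut_A00pm_213_s1 Ext.none)

def k0_A00pm_213_s1 : ∃ t, chk3 f_A00pm_213_s1 t 1 1 1 = true :=
  ⟨(l 6), by decide +kernel⟩

theorem c_A00pm_213_s1 : CertF 0 536870912 536870912 536870912 1020054732 13421774 true true false .pnn 2 1 3
    ndB0q2 ndB0q1 pcB3 cut_A00pm_213_s1 Ext.none :=
  certF0 (fam := true) (s1 := true) (s2 := false) (a := 2) (b := 1) (c := 3) (cn := .pnn) (n1 := ndB0q2) (n2 := ndB0q1) (pc := pcB3) (cut := cut_A00pm_213_s1) (xt := Ext.none) (P1 := 0) (W1 := 536870912) (P2 := 536870912) (W2 := 536870912) (P3 := 1020054732) (W3 := 13421774)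
    rfl k0_A00pm_213_s1

theorem s_A00pm_213_s1 {κ x : ℝ} (hκ : κ * h0 = ken x) (hx : ((1020054732 : ℕ) : ℝ) / S ≤ x)
    (hx' : x ≤ (((1020054732 : ℕ) : ℝ) + (13421774 : ℕ)) / S)
    (H : CutA (VFD κ) PP tK tL pcB (Cut.of [[⟨0, 1, 0, 26738688⟩, ⟨1, 1, 0, 26738688⟩, ⟨2, 2, 0, 2621440⟩], [⟨0, 0, 1, 46137344⟩, ⟨1, 1, 0, 2097152⟩, ⟨2, 1, 1, 46137344⟩, ⟨0, 0, 0, 1041207446⟩, ⟨0, 1, 0, 59055800⟩, ⟨2, 1, 0, 1041207446⟩, ⟨2, 2, 0, 59055800⟩], [⟨0, 1, 0, 2097152⟩, ⟨1, 0, 1, 46137344⟩, ⟨2, 1, 1, 46137344⟩, ⟨1, 0, 0, 1041207446⟩, ⟨1, 1, 0, 59055800⟩, ⟨2, 1, 0, 1041207446⟩, ⟨2, 2, 0, 59055800⟩]]) 2 1 3 0 0 (sgb true) (sgb false) x) :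
    AltA (VFD κ) PP tK tL pcB [⟨3, 0, 0, 1449551462⟩] 2 1 3 0 0 (sgb true) (sgb false) x :=
  strip_altAD (m := 1449551462) true rfl hκ (SH.κ0 hκ (SH.hx1 hx).le (SH.hx2 hx').le) (SH.hx1 hx).le (SH.hx2 hx') (covB02).cov (covB01).cov hx hx' c_A00pm_213_s1 H (noExt_A)

end Pool.Agent.Strip051.G.I9500_9625.Tab.St.C
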