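import Pool.Agent.Strip051.G.I9500_9625.StH
import Pool.Agent.Strip051.G.I9500_9625.Sp7_0
import Pool.Agent.Strip051.G.I9500_9625.Sp7_1
import Pool.Agent.Strip051.G.I9500_9625.Sp7_2
import Pool.Agent.Strip051.G.I9500_9625.Sp7_3
import Pool.Agent.Strip051.G.I9500_9625.Sp7_4
import Pool.Agent.Strip051.G.I9500_9625.Sp7_5
import Pool.Agent.Strip051.G.I9500_9625.Sp7_6
import Pool.Agent.Strip051.G.I9500_9625.StF

/-! # Unit strips 7 (generated) -/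

set_option linter.all false
set_option maxRecDepth 100000

namespace Pool.Agent.Strip051.G.I9500_9625.Tab.St.C

open Pool.Agent.Strip051.PB Pool.Agent.Strip051.PB.T Pool.Agent.StripNear Pool.Agent.Strip051.LC
open Pool.Agent.Strip051.G.I9500_9625.Tab Pool.Agent.Strip051.G.I9500_9625.Tab.St

theorem t642_A00pm_213_s3 : ∃ t, chk3 f_A00pm_213_s3 t 255 1020 1 = true := ex3_a k638_A00pm_213_s3 k639_A00pm_213_s3

theorem t643_A00pm_213_s3 : ∃ t, chk3 f_A00pm_213_s3 t 255 510 1 = true := ex3_b t642_A00pm_213_s3 k640_A00pm_213_s3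

theorem t644_A00pm_213_s3 : ∃ t, chk3 f_A00pm_213_s3 t 127 510 1 = true := ex3_a k637_A00pm_213_s3 t643_A00pm_213_s3

theorem t645_A00pm_213_s3 : ∃ t, chk3 f_A00pm_213_s3 t 252 2042 1 = true := ex3_a k633_A00pm_213_s3 k634_A00pm_213_s3

theorem t646_A00pm_213_s3 : ∃ t, chk3 f_A00pm_213_s3 t 126 2042 1 = true := ex3_a t645_A00pm_213_s3 k635_A00pm_213_s3

theorem t647_A00pm_213_s3 : ∃ t, chk3 f_A00pm_213_s3 t 126 1021 1 = true := ex3_b t646_A00pm_213_s3 k636_A00pm_213_s3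

theorem t648_A00pm_213_s3 : ∃ t, chk3 f_A00pm_213_s3 t 126 1020 1 = true := ex3_a k631_A00pm_213_s3 k632_A00pm_213_s3

theorem t649_A00pm_213_s3 : ∃ t, chk3 f_A00pm_213_s3 t 126 510 1 = true := ex3_b t648_A00pm_213_s3 t647_A00pm_213_s3

theorem t650_A00pm_213_s3 : ∃ t, chk3 f_A00pm_213_s3 t 63 510 1 = true := ex3_a t649_A00pm_213_s3 t644_A00pm_213_s3

theorem t651_A00pm_213_s3 : ∃ t, chk3 f_A00pm_213_s3 t 63 255 1 = true := ex3_b t650_A00pm_213_s3 k641_A00pm_213_s3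

theorem t652_A00pm_213_s3 : ∃ t, chk3 f_A00pm_213_s3 t 255 509 1 = true := ex3_a k629_A00pm_213_s3 k630_A00pm_213_s3

theorem t653_A00pm_213_s3 : ∃ t, chk3 f_A00pm_213_s3 t 127 509 1 = true := ex3_a k628_A00pm_213_s3 t652_A00pm_213_s3

theorem t654_A00pm_213_s3 : ∃ t, chk3 f_A00pm_213_s3 t 255 508 1 = true := ex3_a k626_A00pm_213_s3 k627_A00pm_213_s3

theorem t655_A00pm_213_s3 : ∃ t, chk3 f_A00pm_213_s3 t 127 508 1 = true := ex3_a k625_A00pm_213_s3 t654_A00pm_213_s3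

theorem t656_A00pm_213_s3 : ∃ t, chk3 f_A00pm_213_s3 t 127 254 1 = true := ex3_b t655_A00pm_213_s3 t653_A00pm_213_s3

theorem t657_A00pm_213_s3 : ∃ t, chk3 f_A00pm_213_s3 t 126 254 1 = true := ex3_c k623_A00pm_213_s3 k624_A00pm_213_s3

theorem t658_A00pm_213_s3 : ∃ t, chk3 f_A00pm_213_s3 t 63 254 1 = true := ex3_a t657_A00pm_213_s3 t656_A00pm_213_s3

theorem t659_A00pm_213_s3 : ∃ t, chk3 f_A00pm_213_s3 t 63 127 1 = true := ex3_b t658_A00pm_213_s3 t651_A00pm_213_s3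

theorem t660_A00pm_213_s3 : ∃ t, chk3 f_A00pm_213_s3 t 63 63 1 = true := ex3_b k622_A00pm_213_s3 t659_A00pm_213_s3

theorem t661_A00pm_213_s3 : ∃ t, chk3 f_A00pm_213_s3 t 63 31 1 = true := ex3_b k621_A00pm_213_s3 t660_A00pm_213_s3

theorem t662_A00pm_213_s3 : ∃ t, chk3 f_A00pm_213_s3 t 125 2042 1 = true := ex3_a k617_A00pm_213_s3 k618_A00pm_213_s3

theorem t663_A00pm_213_s3 : ∃ t, chk3 f_A00pm_213_s3 t 125 1021 1 = true := ex3_b t662_A00pm_213_s3 k619_A00pm_213_s3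

theorem t664_A00pm_213_s3 : ∃ t, chk3 f_A00pm_213_s3 t 1986 16343 1 = true := ex3_a k611_A00pm_213_s3 k612_A00pm_213_s3

theorem t665_A00pm_213_s3 : ∃ t, chk3 f_A00pm_213_s3 t 1986 8171 1 = true := ex3_b k610_A00pm_213_s3 t664_A00pm_213_s3

theorem t666_A00pm_213_s3 : ∃ t, chk3 f_A00pm_213_s3 t 993 8171 1 = true := ex3_a t665_A00pm_213_s3 k613_A00pm_213_s3

theorem t667_A00pm_213_s3 : ∃ t, chk3 f_A00pm_213_s3 t 993 4085 1 = true := ex3_b k609_A00pm_213_s3 t666_A00pm_213_s3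

theorem t668_A00pm_213_s3 : ∃ t, chk3 f_A00pm_213_s3 t 1985 16342 1 = true := ex3_a k606_A00pm_213_s3 k607_A00pm_213_s3

theorem t669_A00pm_213_s3 : ∃ t, chk3 f_A00pm_213_s3 t 992 16342 1 = true := ex3_a k605_A00pm_213_s3 t668_A00pm_213_s3

theorem t670_A00pm_213_s3 : ∃ t, chk3 f_A00pm_213_s3 t 992 8171 1 = true := ex3_b t669_A00pm_213_s3 k608_A00pm_213_s3

theorem t671_A00pm_213_s3 : ∃ t, chk3 f_A00pm_213_s3 t 1984 8170 1 = true := ex3_a k602_A00pm_213_s3 k603_A00pm_213_s3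

theorem t672_A00pm_213_s3 : ∃ t, chk3 f_A00pm_213_s3 t 992 8170 1 = true := ex3_a t671_A00pm_213_s3 k604_A00pm_213_s3

theorem t673_A00pm_213_s3 : ∃ t, chk3 f_A00pm_213_s3 t 992 4085 1 = true := ex3_b t672_A00pm_213_s3 t670_A00pm_213_s3

theorem t674_A00pm_213_s3 : ∃ t, chk3 f_A00pm_213_s3 t 496 4085 1 = true := ex3_a t673_A00pm_213_s3 t667_A00pm_213_s3

theorem t675_A00pm_213_s3 : ∃ t, chk3 f_A00pm_213_s3 t 496 2042 1 = true := ex3_b k601_A00pm_213_s3 t674_A00pm_213_s3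

theorem t676_A00pm_213_s3 : ∃ t, chk3 f_A00pm_213_s3 t 248 2042 1 = true := ex3_a t675_A00pm_213_s3 k614_A00pm_213_s3

theorem t677_A00pm_213_s3 : ∃ t, chk3 f_A00pm_213_s3 t 124 2042 1 = true := ex3_a t676_A00pm_213_s3 k615_A00pm_213_s3

theorem t678_A00pm_213_s3 : ∃ t, chk3 f_A00pm_213_s3 t 124 1021 1 = true := ex3_b t677_A00pm_213_s3 k616_A00pm_213_s3

theorem t679_A00pm_213_s3 : ∃ t, chk3 f_A00pm_213_s3 t 62 1021 1 = true := ex3_a t678_A00pm_213_s3 t663_A00pm_213_s3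

theorem t680_A00pm_213_s3 : ∃ t, chk3 f_A00pm_213_s3 t 125 1020 1 = true := ex3_a k599_A00pm_213_s3 k600_A00pm_213_s3

theorem t681_A00pm_213_s3 : ∃ t, chk3 f_A00pm_213_s3 t 62 1020 1 = true := ex3_a k598_A00pm_213_s3 t680_A00pm_213_s3

theorem t682_A00pm_213_s3 : ∃ t, chk3 f_A00pm_213_s3 t 62 510 1 = true := ex3_b t681_A00pm_213_s3 t679_A00pm_213_s3

theorem t683_A00pm_213_s3 : ∃ t, chk3 f_A00pm_213_s3 t 62 255 1 = true := ex3_b t682_A00pm_213_s3 k620_A00pm_213_s3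

theorem t684_A00pm_213_s3 : ∃ t, chk3 f_A00pm_213_s3 t 125 509 1 = true := ex3_a k596_A00pm_213_s3 k597_A00pm_213_s3

theorem t685_A00pm_213_s3 : ∃ t, chk3 f_A00pm_213_s3 t 125 254 1 = true := ex3_b k595_A00pm_213_s3 t684_A00pm_213_s3

theorem t686_A00pm_213_s3 : ∃ t, chk3 f_A00pm_213_s3 t 124 254 1 = true := ex3_b k593_A00pm_213_s3 k594_A00pm_213_s3

theorem t687_A00pm_213_s3 : ∃ t, chk3 f_A00pm_213_s3 t 62 254 1 = true := ex3_a t686_A00pm_213_s3 t685_A00pm_213_s3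

theorem t688_A00pm_213_s3 : ∃ t, chk3 f_A00pm_213_s3 t 62 127 1 = true := ex3_b t687_A00pm_213_s3 t683_A00pm_213_s3

theorem t689_A00pm_213_s3 : ∃ t, chk3 f_A00pm_213_s3 t 62 63 1 = true := ex3_b k592_A00pm_213_s3 t688_A00pm_213_s3

theorem t690_A00pm_213_s3 : ∃ t, chk3 f_A00pm_213_s3 t 62 31 1 = true := ex3_b k591_A00pm_213_s3 t689_A00pm_213_s3

theorem t691_A00pm_213_s3 : ∃ t, chk3 f_A00pm_213_s3 t 31 31 1 = true := ex3_a t690_A00pm_213_s3 t661_A00pm_213_s3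

theorem t692_A00pm_213_s3 : ∃ t, chk3 f_A00pm_213_s3 t 1973 4088 7 = true := ex3_b k584_A00pm_213_s3 k585_A00pm_213_s3

theorem t693_A00pm_213_s3 : ∃ t, chk3 f_A00pm_213_s3 t 1973 2044 7 = true := ex3_b t692_A00pm_213_s3 k586_A00pm_213_s3

theorem t694_A00pm_213_s3 : ∃ t, chk3 f_A00pm_213_s3 t 1973 1022 7 = true := ex3_b t693_A00pm_213_s3 k587_A00pm_213_s3

theorem t695_A00pm_213_s3 : ∃ t, chk3 f_A00pm_213_s3 t 1973 511 7 = true := ex3_b t694_A00pm_213_s3 k588_A00pm_213_s3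

theorem t696_A00pm_213_s3 : ∃ t, chk3 f_A00pm_213_s3 t 1972 4088 7 = true := ex3_b k579_A00pm_213_s3 k580_A00pm_213_s3

theorem t697_A00pm_213_s3 : ∃ t, chk3 f_A00pm_213_s3 t 1972 2044 7 = true := ex3_b t696_A00pm_213_s3 k581_A00pm_213_s3

theorem t698_A00pm_213_s3 : ∃ t, chk3 f_A00pm_213_s3 t 1972 1022 7 = true := ex3_b t697_A00pm_213_s3 k582_A00pm_213_s3

theorem t699_A00pm_213_s3 : ∃ t, chk3 f_A00pm_213_s3 t 1972 511 7 = true := ex3_b t698_A00pm_213_s3 k583_A00pm_213_s3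

theorem t700_A00pm_213_s3 : ∃ t, chk3 f_A00pm_213_s3 t 986 511 7 = true := ex3_a t699_A00pm_213_s3 t695_A00pm_213_s3

theorem t701_A00pm_213_s3 : ∃ t, chk3 f_A00pm_213_s3 t 1972 4088 6 = true := ex3_b k573_A00pm_213_s3 k574_A00pm_213_s3

theorem t702_A00pm_213_s3 : ∃ t, chk3 f_A00pm_213_s3 t 1972 2044 6 = true := ex3_b t701_A00pm_213_s3 k575_A00pm_213_s3

theorem t703_A00pm_213_s3 : ∃ t, chk3 f_A00pm_213_s3 t 1972 1022 6 = true := ex3_b t702_A00pm_213_s3 k576_A00pm_213_s3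

theorem t704_A00pm_213_s3 : ∃ t, chk3 f_A00pm_213_s3 t 1972 511 6 = true := ex3_b t703_A00pm_213_s3 k577_A00pm_213_s3

theorem t705_A00pm_213_s3 : ∃ t, chk3 f_A00pm_213_s3 t 986 511 6 = true := ex3_a t704_A00pm_213_s3 k578_A00pm_213_s3

theorem t706_A00pm_213_s3 : ∃ t, chk3 f_A00pm_213_s3 t 986 511 3 = true := ex3_c t705_A00pm_213_s3 t700_A00pm_213_s3

theorem t707_A00pm_213_s3 : ∃ t, chk3 f_A00pm_213_s3 t 493 511 3 = true := ex3_a t706_A00pm_213_s3 k589_A00pm_213_s3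

theorem t708_A00pm_213_s3 : ∃ t, chk3 f_A00pm_213_s3 t 1972 4088 5 = true := ex3_b k566_A00pm_213_s3 k567_A00pm_213_s3

theorem t709_A00pm_213_s3 : ∃ t, chk3 f_A00pm_213_s3 t 1972 2044 5 = true := ex3_b t708_A00pm_213_s3 k568_A00pm_213_s3

theorem t710_A00pm_213_s3 : ∃ t, chk3 f_A00pm_213_s3 t 1972 1022 5 = true := ex3_b t709_A00pm_213_s3 k569_A00pm_213_s3

theorem t711_A00pm_213_s3 : ∃ t, chk3 f_A00pm_213_s3 t 1972 511 5 = true := ex3_b t710_A00pm_213_s3 k570_A00pm_213_s3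

theorem t712_A00pm_213_s3 : ∃ t, chk3 f_A00pm_213_s3 t 986 511 5 = true := ex3_a t711_A00pm_213_s3 k571_A00pm_213_s3

theorem t713_A00pm_213_s3 : ∃ t, chk3 f_A00pm_213_s3 t 1972 4088 4 = true := ex3_b k560_A00pm_213_s3 k561_A00pm_213_s3

theorem t714_A00pm_213_s3 : ∃ t, chk3 f_A00pm_213_s3 t 1972 2044 4 = true := ex3_b t713_A00pm_213_s3 k562_A00pm_213_s3

theorem t715_A00pm_213_s3 : ∃ t, chk3 f_A00pm_213_s3 t 1972 1022 4 = true := ex3_b t714_A00pm_213_s3 k563_A00pm_213_s3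

theorem t716_A00pm_213_s3 : ∃ t, chk3 f_A00pm_213_s3 t 1972 511 4 = true := ex3_b t715_A00pm_213_s3 k564_A00pm_213_s3

theorem t717_A00pm_213_s3 : ∃ t, chk3 f_A00pm_213_s3 t 986 511 4 = true := ex3_a t716_A00pm_213_s3 k565_A00pm_213_s3

theorem t718_A00pm_213_s3 : ∃ t, chk3 f_A00pm_213_s3 t 986 511 2 = true := ex3_c t717_A00pm_213_s3 t712_A00pm_213_s3

theorem t719_A00pm_213_s3 : ∃ t, chk3 f_A00pm_213_s3 t 493 511 2 = true := ex3_a t718_A00pm_213_s3 k572_A00pm_213_s3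

theorem t720_A00pm_213_s3 : ∃ t, chk3 f_A00pm_213_s3 t 493 511 1 = true := ex3_c t719_A00pm_213_s3 t707_A00pm_213_s3

theorem t721_A00pm_213_s3 : ∃ t, chk3 f_A00pm_213_s3 t 1971 4088 7 = true := ex3_b k555_A00pm_213_s3 k556_A00pm_213_s3

theorem t722_A00pm_213_s3 : ∃ t, chk3 f_A00pm_213_s3 t 1971 2044 7 = true := ex3_b t721_A00pm_213_s3 k557_A00pm_213_s3

theorem t723_A00pm_213_s3 : ∃ t, chk3 f_A00pm_213_s3 t 1971 1022 7 = true := ex3_b t722_A00pm_213_s3 k558_A00pm_213_s3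

theorem t724_A00pm_213_s3 : ∃ t, chk3 f_A00pm_213_s3 t 1971 511 7 = true := ex3_b t723_A00pm_213_s3 k559_A00pm_213_s3

theorem t725_A00pm_213_s3 : ∃ t, chk3 f_A00pm_213_s3 t 985 511 7 = true := ex3_a k554_A00pm_213_s3 t724_A00pm_213_s3

theorem t726_A00pm_213_s3 : ∃ t, chk3 f_A00pm_213_s3 t 985 8176 6 = true := ex3_a k548_A00pm_213_s3 k549_A00pm_213_s3

theorem t727_A00pm_213_s3 : ∃ t, chk3 f_A00pm_213_s3 t 985 4088 6 = true := ex3_b t726_A00pm_213_s3 k550_A00pm_213_s3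

theorem t728_A00pm_213_s3 : ∃ t, chk3 f_A00pm_213_s3 t 985 2044 6 = true := ex3_b t727_A00pm_213_s3 k551_A00pm_213_s3

theorem t729_A00pm_213_s3 : ∃ t, chk3 f_A00pm_213_s3 t 985 1022 6 = true := ex3_b t728_A00pm_213_s3 k552_A00pm_213_s3

theorem t730_A00pm_213_s3 : ∃ t, chk3 f_A00pm_213_s3 t 985 511 6 = true := ex3_b t729_A00pm_213_s3 k553_A00pm_213_s3

theorem t731_A00pm_213_s3 : ∃ t, chk3 f_A00pm_213_s3 t 985 511 3 = true := ex3_c t730_A00pm_213_s3 t725_A00pm_213_s3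

theorem t732_A00pm_213_s3 : ∃ t, chk3 f_A00pm_213_s3 t 492 511 3 = true := ex3_a k547_A00pm_213_s3 t731_A00pm_213_s3

theorem t733_A00pm_213_s3 : ∃ t, chk3 f_A00pm_213_s3 t 985 4088 5 = true := ex3_b k542_A00pm_213_s3 k543_A00pm_213_s3

theorem t734_A00pm_213_s3 : ∃ t, chk3 f_A00pm_213_s3 t 985 2044 5 = true := ex3_b t733_A00pm_213_s3 k544_A00pm_213_s3

theorem t735_A00pm_213_s3 : ∃ t, chk3 f_A00pm_213_s3 t 985 1022 5 = true := ex3_b t734_A00pm_213_s3 k545_A00pm_213_s3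

theorem t736_A00pm_213_s3 : ∃ t, chk3 f_A00pm_213_s3 t 985 511 5 = true := ex3_b t735_A00pm_213_s3 k546_A00pm_213_s3

theorem t737_A00pm_213_s3 : ∃ t, chk3 f_A00pm_213_s3 t 985 8176 4 = true := ex3_a k536_A00pm_213_s3 k537_A00pm_213_s3

theorem t738_A00pm_213_s3 : ∃ t, chk3 f_A00pm_213_s3 t 985 4088 4 = true := ex3_b t737_A00pm_213_s3 k538_A00pm_213_s3

theorem t739_A00pm_213_s3 : ∃ t, chk3 f_A00pm_213_s3 t 985 2044 4 = true := ex3_b t738_A00pm_213_s3 k539_A00pm_213_s3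

theorem t740_A00pm_213_s3 : ∃ t, chk3 f_A00pm_213_s3 t 985 1022 4 = true := ex3_b t739_A00pm_213_s3 k540_A00pm_213_s3

theorem t741_A00pm_213_s3 : ∃ t, chk3 f_A00pm_213_s3 t 985 511 4 = true := ex3_b t740_A00pm_213_s3 k541_A00pm_213_s3

theorem t742_A00pm_213_s3 : ∃ t, chk3 f_A00pm_213_s3 t 985 511 2 = true := ex3_c t741_A00pm_213_s3 t736_A00pm_213_s3

theorem t743_A00pm_213_s3 : ∃ t, chk3 f_A00pm_213_s3 t 492 511 2 = true := ex3_a k535_A00pm_213_s3 t742_A00pm_213_s3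

theorem t744_A00pm_213_s3 : ∃ t, chk3 f_A00pm_213_s3 t 492 511 1 = true := ex3_c t743_A00pm_213_s3 t732_A00pm_213_s3

theorem t745_A00pm_213_s3 : ∃ t, chk3 f_A00pm_213_s3 t 246 511 1 = true := ex3_a t744_A00pm_213_s3 t720_A00pm_213_s3

theorem t746_A00pm_213_s3 : ∃ t, chk3 f_A00pm_213_s3 t 123 511 1 = true := ex3_a t745_A00pm_213_s3 k590_A00pm_213_s3

theorem t747_A00pm_213_s3 : ∃ t, chk3 f_A00pm_213_s3 t 61 511 1 = true := ex3_a k534_A00pm_213_s3 t746_A00pm_213_s3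

theorem t748_A00pm_213_s3 : ∃ t, chk3 f_A00pm_213_s3 t 247 4085 1 = true := ex3_c k531_A00pm_213_s3 k532_A00pm_213_s3

theorem t749_A00pm_213_s3 : ∃ t, chk3 f_A00pm_213_s3 t 1983 16339 1 = true := ex3_a k529_A00pm_213_s3 k530_A00pm_213_s3

theorem t750_A00pm_213_s3 : ∃ t, chk3 f_A00pm_213_s3 t 1983 8169 1 = true := ex3_b k528_A00pm_213_s3 t749_A00pm_213_s3

theorem t751_A00pm_213_s3 : ∃ t, chk3 f_A00pm_213_s3 t 1982 8169 1 = true := ex3_a k526_A00pm_213_s3 k527_A00pm_213_s3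

theorem t752_A00pm_213_s3 : ∃ t, chk3 f_A00pm_213_s3 t 991 8169 1 = true := ex3_a t751_A00pm_213_s3 t750_A00pm_213_s3

theorem t753_A00pm_213_s3 : ∃ t, chk3 f_A00pm_213_s3 t 991 4084 1 = true := ex3_b k525_A00pm_213_s3 t752_A00pm_213_s3

theorem t754_A00pm_213_s3 : ∃ t, chk3 f_A00pm_213_s3 t 1981 4084 1 = true := ex3_c k523_A00pm_213_s3 k524_A00pm_213_s3

theorem t755_A00pm_213_s3 : ∃ t, chk3 f_A00pm_213_s3 t 990 4084 1 = true := ex3_a k522_A00pm_213_s3 t754_A00pm_213_s3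

theorem t756_A00pm_213_s3 : ∃ t, chk3 f_A00pm_213_s3 t 495 4084 1 = true := ex3_a t755_A00pm_213_s3 t753_A00pm_213_s3

theorem t757_A00pm_213_s3 : ∃ t, chk3 f_A00pm_213_s3 t 247 4084 1 = true := ex3_a k521_A00pm_213_s3 t756_A00pm_213_s3

theorem t758_A00pm_213_s3 : ∃ t, chk3 f_A00pm_213_s3 t 247 2042 1 = true := ex3_b t757_A00pm_213_s3 t748_A00pm_213_s3

theorem t759_A00pm_213_s3 : ∃ t, chk3 f_A00pm_213_s3 t 247 1021 1 = true := ex3_b t758_A00pm_213_s3 k533_A00pm_213_s3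

theorem t760_A00pm_213_s3 : ∃ t, chk3 f_A00pm_213_s3 t 986 8175 3 = true := ex3_a k518_A00pm_213_s3 k519_A00pm_213_s3

theorem t761_A00pm_213_s3 : ∃ t, chk3 f_A00pm_213_s3 t 986 8175 2 = true := ex3_a k516_A00pm_213_s3 k517_A00pm_213_s3

theorem t762_A00pm_213_s3 : ∃ t, chk3 f_A00pm_213_s3 t 986 8175 1 = true := ex3_c t761_A00pm_213_s3 t760_A00pm_213_s3

theorem t763_A00pm_213_s3 : ∃ t, chk3 f_A00pm_213_s3 t 986 8174 1 = true := ex3_c k514_A00pm_213_s3 k515_A00pm_213_s3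

theorem t764_A00pm_213_s3 : ∃ t, chk3 f_A00pm_213_s3 t 986 4087 1 = true := ex3_b t763_A00pm_213_s3 t762_A00pm_213_s3

theorem t765_A00pm_213_s3 : ∃ t, chk3 f_A00pm_213_s3 t 493 4087 1 = true := ex3_a t764_A00pm_213_s3 k520_A00pm_213_s3

theorem t766_A00pm_213_s3 : ∃ t, chk3 f_A00pm_213_s3 t 986 4086 1 = true := ex3_b k511_A00pm_213_s3 k512_A00pm_213_s3

theorem t767_A00pm_213_s3 : ∃ t, chk3 f_A00pm_213_s3 t 493 4086 1 = true := ex3_a t766_A00pm_213_s3 k513_A00pm_213_s3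

theorem t768_A00pm_213_s3 : ∃ t, chk3 f_A00pm_213_s3 t 493 2043 1 = true := ex3_b t767_A00pm_213_s3 t765_A00pm_213_s3

theorem t769_A00pm_213_s3 : ∃ t, chk3 f_A00pm_213_s3 t 1971 8175 3 = true := ex3_c k509_A00pm_213_s3 k510_A00pm_213_s3

theorem t770_A00pm_213_s3 : ∃ t, chk3 f_A00pm_213_s3 t 1970 8175 3 = true := ex3_c k507_A00pm_213_s3 k508_A00pm_213_s3

theorem t771_A00pm_213_s3 : ∃ t, chk3 f_A00pm_213_s3 t 985 8175 3 = true := ex3_a t770_A00pm_213_s3 t769_A00pm_213_s3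

theorem t772_A00pm_213_s3 : ∃ t, chk3 f_A00pm_213_s3 t 985 8175 2 = true := ex3_a k505_A00pm_213_s3 k506_A00pm_213_s3

theorem t773_A00pm_213_s3 : ∃ t, chk3 f_A00pm_213_s3 t 985 8175 1 = true := ex3_c t772_A00pm_213_s3 t771_A00pm_213_s3

theorem t774_A00pm_213_s3 : ∃ t, chk3 f_A00pm_213_s3 t 985 8174 3 = true := ex3_a k503_A00pm_213_s3 k504_A00pm_213_s3

theorem t775_A00pm_213_s3 : ∃ t, chk3 f_A00pm_213_s3 t 985 8174 2 = true := ex3_a k501_A00pm_213_s3 k502_A00pm_213_s3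

theorem t776_A00pm_213_s3 : ∃ t, chk3 f_A00pm_213_s3 t 985 8174 1 = true := ex3_c t775_A00pm_213_s3 t774_A00pm_213_s3

theorem t777_A00pm_213_s3 : ∃ t, chk3 f_A00pm_213_s3 t 985 4087 1 = true := ex3_b t776_A00pm_213_s3 t773_A00pm_213_s3

theorem t778_A00pm_213_s3 : ∃ t, chk3 f_A00pm_213_s3 t 1969 8175 3 = true := ex3_c k499_A00pm_213_s3 k500_A00pm_213_s3

theorem t779_A00pm_213_s3 : ∃ t, chk3 f_A00pm_213_s3 t 1968 8175 3 = true := ex3_b k497_A00pm_213_s3 k498_A00pm_213_s3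

theorem t780_A00pm_213_s3 : ∃ t, chk3 f_A00pm_213_s3 t 984 8175 3 = true := ex3_a t779_A00pm_213_s3 t778_A00pm_213_s3

theorem t781_A00pm_213_s3 : ∃ t, chk3 f_A00pm_213_s3 t 984 8175 2 = true := ex3_a k495_A00pm_213_s3 k496_A00pm_213_s3

theorem t782_A00pm_213_s3 : ∃ t, chk3 f_A00pm_213_s3 t 984 8175 1 = true := ex3_c t781_A00pm_213_s3 t780_A00pm_213_s3

theorem t783_A00pm_213_s3 : ∃ t, chk3 f_A00pm_213_s3 t 1969 8174 3 = true := ex3_c k493_A00pm_213_s3 k494_A00pm_213_s3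

theorem t784_A00pm_213_s3 : ∃ t, chk3 f_A00pm_213_s3 t 1968 8174 3 = true := ex3_b k491_A00pm_213_s3 k492_A00pm_213_s3

theorem t785_A00pm_213_s3 : ∃ t, chk3 f_A00pm_213_s3 t 984 8174 3 = true := ex3_a t784_A00pm_213_s3 t783_A00pm_213_s3

theorem t786_A00pm_213_s3 : ∃ t, chk3 f_A00pm_213_s3 t 984 8174 2 = true := ex3_a k489_A00pm_213_s3 k490_A00pm_213_s3

theorem t787_A00pm_213_s3 : ∃ t, chk3 f_A00pm_213_s3 t 984 8174 1 = true := ex3_c t786_A00pm_213_s3 t785_A00pm_213_s3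

theorem t788_A00pm_213_s3 : ∃ t, chk3 f_A00pm_213_s3 t 984 4087 1 = true := ex3_b t787_A00pm_213_s3 t782_A00pm_213_s3

theorem t789_A00pm_213_s3 : ∃ t, chk3 f_A00pm_213_s3 t 492 4087 1 = true := ex3_a t788_A00pm_213_s3 t777_A00pm_213_s3

theorem t790_A00pm_213_s3 : ∃ t, chk3 f_A00pm_213_s3 t 985 4086 1 = true := ex3_b k487_A00pm_213_s3 k488_A00pm_213_s3

theorem t791_A00pm_213_s3 : ∃ t, chk3 f_A00pm_213_s3 t 984 8173 1 = true := ex3_c k485_A00pm_213_s3 k486_A00pm_213_s3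

theorem t792_A00pm_213_s3 : ∃ t, chk3 f_A00pm_213_s3 t 984 4086 1 = true := ex3_b k484_A00pm_213_s3 t791_A00pm_213_s3

theorem t793_A00pm_213_s3 : ∃ t, chk3 f_A00pm_213_s3 t 492 4086 1 = true := ex3_a t792_A00pm_213_s3 t790_A00pm_213_s3

theorem t794_A00pm_213_s3 : ∃ t, chk3 f_A00pm_213_s3 t 492 2043 1 = true := ex3_b t793_A00pm_213_s3 t789_A00pm_213_s3

theorem t795_A00pm_213_s3 : ∃ t, chk3 f_A00pm_213_s3 t 246 2043 1 = true := ex3_a t794_A00pm_213_s3 t768_A00pm_213_s3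

theorem t796_A00pm_213_s3 : ∃ t, chk3 f_A00pm_213_s3 t 493 2042 1 = true := ex3_b k482_A00pm_213_s3 k483_A00pm_213_s3

theorem t797_A00pm_213_s3 : ∃ t, chk3 f_A00pm_213_s3 t 492 2042 1 = true := ex3_b k480_A00pm_213_s3 k481_A00pm_213_s3

theorem t798_A00pm_213_s3 : ∃ t, chk3 f_A00pm_213_s3 t 246 2042 1 = true := ex3_a t797_A00pm_213_s3 t796_A00pm_213_s3

theorem t799_A00pm_213_s3 : ∃ t, chk3 f_A00pm_213_s3 t 246 1021 1 = true := ex3_b t798_A00pm_213_s3 t795_A00pm_213_s3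

theorem t800_A00pm_213_s3 : ∃ t, chk3 f_A00pm_213_s3 t 123 1021 1 = true := ex3_a t799_A00pm_213_s3 t759_A00pm_213_s3

theorem t801_A00pm_213_s3 : ∃ t, chk3 f_A00pm_213_s3 t 983 16350 3 = true := ex3_b k477_A00pm_213_s3 k478_A00pm_213_s3

theorem t802_A00pm_213_s3 : ∃ t, chk3 f_A00pm_213_s3 t 983 8175 3 = true := ex3_b t801_A00pm_213_s3 k479_A00pm_213_s3

theorem t803_A00pm_213_s3 : ∃ t, chk3 f_A00pm_213_s3 t 983 8175 1 = true := ex3_c k476_A00pm_213_s3 t802_A00pm_213_s3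

theorem t804_A00pm_213_s3 : ∃ t, chk3 f_A00pm_213_s3 t 1967 8174 3 = true := ex3_c k474_A00pm_213_s3 k475_A00pm_213_s3

theorem t805_A00pm_213_s3 : ∃ t, chk3 f_A00pm_213_s3 t 1966 8174 3 = true := ex3_c k472_A00pm_213_s3 k473_A00pm_213_s3

theorem t806_A00pm_213_s3 : ∃ t, chk3 f_A00pm_213_s3 t 983 8174 3 = true := ex3_a t805_A00pm_213_s3 t804_A00pm_213_s3

theorem t807_A00pm_213_s3 : ∃ t, chk3 f_A00pm_213_s3 t 983 8174 2 = true := ex3_a k470_A00pm_213_s3 k471_A00pm_213_s3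

theorem t808_A00pm_213_s3 : ∃ t, chk3 f_A00pm_213_s3 t 983 8174 1 = true := ex3_c t807_A00pm_213_s3 t806_A00pm_213_s3

theorem t809_A00pm_213_s3 : ∃ t, chk3 f_A00pm_213_s3 t 983 4087 1 = true := ex3_b t808_A00pm_213_s3 t803_A00pm_213_s3

theorem t810_A00pm_213_s3 : ∃ t, chk3 f_A00pm_213_s3 t 982 8174 1 = true := ex3_b k467_A00pm_213_s3 k468_A00pm_213_s3

theorem t811_A00pm_213_s3 : ∃ t, chk3 f_A00pm_213_s3 t 982 4087 1 = true := ex3_b t810_A00pm_213_s3 k469_A00pm_213_s3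

theorem t812_A00pm_213_s3 : ∃ t, chk3 f_A00pm_213_s3 t 491 4087 1 = true := ex3_a t811_A00pm_213_s3 t809_A00pm_213_s3

theorem t813_A00pm_213_s3 : ∃ t, chk3 f_A00pm_213_s3 t 983 8173 1 = true := ex3_c k465_A00pm_213_s3 k466_A00pm_213_s3

theorem t814_A00pm_213_s3 : ∃ t, chk3 f_A00pm_213_s3 t 983 4086 1 = true := ex3_b k464_A00pm_213_s3 t813_A00pm_213_s3

theorem t815_A00pm_213_s3 : ∃ t, chk3 f_A00pm_213_s3 t 982 4086 1 = true := ex3_b k462_A00pm_213_s3 k463_A00pm_213_s3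

theorem t816_A00pm_213_s3 : ∃ t, chk3 f_A00pm_213_s3 t 491 4086 1 = true := ex3_a t815_A00pm_213_s3 t814_A00pm_213_s3

theorem t817_A00pm_213_s3 : ∃ t, chk3 f_A00pm_213_s3 t 491 2043 1 = true := ex3_b t816_A00pm_213_s3 t812_A00pm_213_s3

theorem t818_A00pm_213_s3 : ∃ t, chk3 f_A00pm_213_s3 t 981 4086 1 = true := ex3_b k459_A00pm_213_s3 k460_A00pm_213_s3

theorem t819_A00pm_213_s3 : ∃ t, chk3 f_A00pm_213_s3 t 980 8172 1 = true := ex3_b k456_A00pm_213_s3 k457_A00pm_213_s3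

theorem t820_A00pm_213_s3 : ∃ t, chk3 f_A00pm_213_s3 t 980 4086 1 = true := ex3_b t819_A00pm_213_s3 k458_A00pm_213_s3

theorem t821_A00pm_213_s3 : ∃ t, chk3 f_A00pm_213_s3 t 490 4086 1 = true := ex3_a t820_A00pm_213_s3 t818_A00pm_213_s3

theorem t822_A00pm_213_s3 : ∃ t, chk3 f_A00pm_213_s3 t 490 2043 1 = true := ex3_b t821_A00pm_213_s3 k461_A00pm_213_s3

theorem t823_A00pm_213_s3 : ∃ t, chk3 f_A00pm_213_s3 t 245 2043 1 = true := ex3_a t822_A00pm_213_s3 t817_A00pm_213_s3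

theorem t824_A00pm_213_s3 : ∃ t, chk3 f_A00pm_213_s3 t 491 4085 1 = true := ex3_c k454_A00pm_213_s3 k455_A00pm_213_s3

theorem t825_A00pm_213_s3 : ∃ t, chk3 f_A00pm_213_s3 t 491 2042 1 = true := ex3_b k453_A00pm_213_s3 t824_A00pm_213_s3

theorem t826_A00pm_213_s3 : ∃ t, chk3 f_A00pm_213_s3 t 980 4085 3 = true := ex3_b k450_A00pm_213_s3 k451_A00pm_213_s3

theorem t827_A00pm_213_s3 : ∃ t, chk3 f_A00pm_213_s3 t 490 4085 3 = true := ex3_a t826_A00pm_213_s3 k452_A00pm_213_s3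

theorem t828_A00pm_213_s3 : ∃ t, chk3 f_A00pm_213_s3 t 490 4084 3 = true := ex3_a k448_A00pm_213_s3 k449_A00pm_213_s3

theorem t829_A00pm_213_s3 : ∃ t, chk3 f_A00pm_213_s3 t 490 2042 3 = true := ex3_b t828_A00pm_213_s3 t827_A00pm_213_s3

theorem t830_A00pm_213_s3 : ∃ t, chk3 f_A00pm_213_s3 t 980 4085 2 = true := ex3_b k445_A00pm_213_s3 k446_A00pm_213_s3

theorem t831_A00pm_213_s3 : ∃ t, chk3 f_A00pm_213_s3 t 490 4085 2 = true := ex3_a t830_A00pm_213_s3 k447_A00pm_213_s3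

theorem t832_A00pm_213_s3 : ∃ t, chk3 f_A00pm_213_s3 t 490 4084 2 = true := ex3_a k443_A00pm_213_s3 k444_A00pm_213_s3

theorem t833_A00pm_213_s3 : ∃ t, chk3 f_A00pm_213_s3 t 490 2042 2 = true := ex3_b t832_A00pm_213_s3 t831_A00pm_213_s3

theorem t834_A00pm_213_s3 : ∃ t, chk3 f_A00pm_213_s3 t 490 2042 1 = true := ex3_c t833_A00pm_213_s3 t829_A00pm_213_s3

theorem t835_A00pm_213_s3 : ∃ t, chk3 f_A00pm_213_s3 t 245 2042 1 = true := ex3_a t834_A00pm_213_s3 t825_A00pm_213_s3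

theorem t836_A00pm_213_s3 : ∃ t, chk3 f_A00pm_213_s3 t 245 1021 1 = true := ex3_b t835_A00pm_213_s3 t823_A00pm_213_s3

theorem t837_A00pm_213_s3 : ∃ t, chk3 f_A00pm_213_s3 t 1958 8171 3 = true := ex3_a k439_A00pm_213_s3 k440_A00pm_213_s3

theorem t838_A00pm_213_s3 : ∃ t, chk3 f_A00pm_213_s3 t 979 8171 3 = true := ex3_a t837_A00pm_213_s3 k441_A00pm_213_s3

theorem t839_A00pm_213_s3 : ∃ t, chk3 f_A00pm_213_s3 t 979 8170 3 = true := ex3_c k437_A00pm_213_s3 k438_A00pm_213_s3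

theorem t840_A00pm_213_s3 : ∃ t, chk3 f_A00pm_213_s3 t 979 4085 3 = true := ex3_b t839_A00pm_213_s3 t838_A00pm_213_s3

theorem t841_A00pm_213_s3 : ∃ t, chk3 f_A00pm_213_s3 t 3915 4085 3 = true := ex3_b k435_A00pm_213_s3 k436_A00pm_213_s3

theorem t842_A00pm_213_s3 : ∃ t, chk3 f_A00pm_213_s3 t 1957 4085 3 = true := ex3_a k434_A00pm_213_s3 t841_A00pm_213_s3

theorem t843_A00pm_213_s3 : ∃ t, chk3 f_A00pm_213_s3 t 978 4085 3 = true := ex3_a k433_A00pm_213_s3 t842_A00pm_213_s3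

theorem t844_A00pm_213_s3 : ∃ t, chk3 f_A00pm_213_s3 t 489 4085 3 = true := ex3_a t843_A00pm_213_s3 t840_A00pm_213_s3

theorem t845_A00pm_213_s3 : ∃ t, chk3 f_A00pm_213_s3 t 489 4084 3 = true := ex3_a k431_A00pm_213_s3 k432_A00pm_213_s3

theorem t846_A00pm_213_s3 : ∃ t, chk3 f_A00pm_213_s3 t 489 2042 3 = true := ex3_b t845_A00pm_213_s3 t844_A00pm_213_s3

theorem t847_A00pm_213_s3 : ∃ t, chk3 f_A00pm_213_s3 t 979 16342 2 = true := ex3_c k428_A00pm_213_s3 k429_A00pm_213_s3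

theorem t848_A00pm_213_s3 : ∃ t, chk3 f_A00pm_213_s3 t 979 8171 2 = true := ex3_b t847_A00pm_213_s3 k430_A00pm_213_s3

theorem t849_A00pm_213_s3 : ∃ t, chk3 f_A00pm_213_s3 t 979 4085 2 = true := ex3_b k427_A00pm_213_s3 t848_A00pm_213_s3

theorem t850_A00pm_213_s3 : ∃ t, chk3 f_A00pm_213_s3 t 1957 4085 2 = true := ex3_a k425_A00pm_213_s3 k426_A00pm_213_s3

theorem t851_A00pm_213_s3 : ∃ t, chk3 f_A00pm_213_s3 t 978 4085 2 = true := ex3_a k424_A00pm_213_s3 t850_A00pm_213_s3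

theorem t852_A00pm_213_s3 : ∃ t, chk3 f_A00pm_213_s3 t 489 4085 2 = true := ex3_a t851_A00pm_213_s3 t849_A00pm_213_s3

theorem t853_A00pm_213_s3 : ∃ t, chk3 f_A00pm_213_s3 t 489 4084 2 = true := ex3_a k422_A00pm_213_s3 k423_A00pm_213_s3

theorem t854_A00pm_213_s3 : ∃ t, chk3 f_A00pm_213_s3 t 489 2042 2 = true := ex3_b t853_A00pm_213_s3 t852_A00pm_213_s3

theorem t855_A00pm_213_s3 : ∃ t, chk3 f_A00pm_213_s3 t 489 2042 1 = true := ex3_c t854_A00pm_213_s3 t846_A00pm_213_s3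

theorem t856_A00pm_213_s3 : ∃ t, chk3 f_A00pm_213_s3 t 977 4084 1 = true := ex3_b k419_A00pm_213_s3 k420_A00pm_213_s3

theorem t857_A00pm_213_s3 : ∃ t, chk3 f_A00pm_213_s3 t 976 4084 1 = true := ex3_b k417_A00pm_213_s3 k418_A00pm_213_s3

theorem t858_A00pm_213_s3 : ∃ t, chk3 f_A00pm_213_s3 t 488 4084 1 = true := ex3_a t857_A00pm_213_s3 t856_A00pm_213_s3

theorem t859_A00pm_213_s3 : ∃ t, chk3 f_A00pm_213_s3 t 488 2042 1 = true := ex3_b t858_A00pm_213_s3 k421_A00pm_213_s3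

theorem t860_A00pm_213_s3 : ∃ t, chk3 f_A00pm_213_s3 t 244 2042 1 = true := ex3_a t859_A00pm_213_s3 t855_A00pm_213_s3

theorem t861_A00pm_213_s3 : ∃ t, chk3 f_A00pm_213_s3 t 244 1021 1 = true := ex3_b t860_A00pm_213_s3 k442_A00pm_213_s3

theorem t862_A00pm_213_s3 : ∃ t, chk3 f_A00pm_213_s3 t 122 1021 1 = true := ex3_a t861_A00pm_213_s3 t836_A00pm_213_s3

theorem t863_A00pm_213_s3 : ∃ t, chk3 f_A00pm_213_s3 t 61 1021 1 = true := ex3_a t862_A00pm_213_s3 t800_A00pm_213_s3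

theorem t864_A00pm_213_s3 : ∃ t, chk3 f_A00pm_213_s3 t 495 2041 1 = true := ex3_c k415_A00pm_213_s3 k416_A00pm_213_s3

theorem t865_A00pm_213_s3 : ∃ t, chk3 f_A00pm_213_s3 t 1978 8166 1 = true := ex3_c k411_A00pm_213_s3 k412_A00pm_213_s3

theorem t866_A00pm_213_s3 : ∃ t, chk3 f_A00pm_213_s3 t 989 8166 1 = true := ex3_a t865_A00pm_213_s3 k413_A00pm_213_s3

theorem t867_A00pm_213_s3 : ∃ t, chk3 f_A00pm_213_s3 t 494 8166 1 = true := ex3_a k410_A00pm_213_s3 t866_A00pm_213_s3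

theorem t868_A00pm_213_s3 : ∃ t, chk3 f_A00pm_213_s3 t 494 4083 1 = true := ex3_b t867_A00pm_213_s3 k414_A00pm_213_s3

theorem t869_A00pm_213_s3 : ∃ t, chk3 f_A00pm_213_s3 t 1977 8165 1 = true := ex3_b k407_A00pm_213_s3 k408_A00pm_213_s3

theorem t870_A00pm_213_s3 : ∃ t, chk3 f_A00pm_213_s3 t 988 8165 1 = true := ex3_a k406_A00pm_213_s3 t869_A00pm_213_s3

theorem t871_A00pm_213_s3 : ∃ t, chk3 f_A00pm_213_s3 t 988 8164 1 = true := ex3_c k404_A00pm_213_s3 k405_A00pm_213_s3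

theorem t872_A00pm_213_s3 : ∃ t, chk3 f_A00pm_213_s3 t 988 4082 1 = true := ex3_b t871_A00pm_213_s3 t870_A00pm_213_s3

theorem t873_A00pm_213_s3 : ∃ t, chk3 f_A00pm_213_s3 t 494 4082 1 = true := ex3_a t872_A00pm_213_s3 k409_A00pm_213_s3

theorem t874_A00pm_213_s3 : ∃ t, chk3 f_A00pm_213_s3 t 494 2041 1 = true := ex3_b t873_A00pm_213_s3 t868_A00pm_213_s3

theorem t875_A00pm_213_s3 : ∃ t, chk3 f_A00pm_213_s3 t 247 2041 1 = true := ex3_a t874_A00pm_213_s3 t864_A00pm_213_s3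

theorem t876_A00pm_213_s3 : ∃ t, chk3 f_A00pm_213_s3 t 247 1020 1 = true := ex3_b k403_A00pm_213_s3 t875_A00pm_213_s3

theorem t877_A00pm_213_s3 : ∃ t, chk3 f_A00pm_213_s3 t 493 2041 1 = true := ex3_b k401_A00pm_213_s3 k402_A00pm_213_s3

theorem t878_A00pm_213_s3 : ∃ t, chk3 f_A00pm_213_s3 t 246 2041 1 = true := ex3_a k400_A00pm_213_s3 t877_A00pm_213_s3

theorem t879_A00pm_213_s3 : ∃ t, chk3 f_A00pm_213_s3 t 987 8163 1 = true := ex3_a k398_A00pm_213_s3 k399_A00pm_213_s3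

theorem t880_A00pm_213_s3 : ∃ t, chk3 f_A00pm_213_s3 t 987 4081 1 = true := ex3_b k397_A00pm_213_s3 t879_A00pm_213_s3

theorem t881_A00pm_213_s3 : ∃ t, chk3 f_A00pm_213_s3 t 1973 8162 1 = true := ex3_b k394_A00pm_213_s3 k395_A00pm_213_s3

theorem t882_A00pm_213_s3 : ∃ t, chk3 f_A00pm_213_s3 t 1973 4081 1 = true := ex3_b t881_A00pm_213_s3 k396_A00pm_213_s3

theorem t883_A00pm_213_s3 : ∃ t, chk3 f_A00pm_213_s3 t 986 4081 1 = true := ex3_a k393_A00pm_213_s3 t882_A00pm_213_s3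

theorem t884_A00pm_213_s3 : ∃ t, chk3 f_A00pm_213_s3 t 493 4081 1 = true := ex3_a t883_A00pm_213_s3 t880_A00pm_213_s3

theorem t885_A00pm_213_s3 : ∃ t, chk3 f_A00pm_213_s3 t 986 4080 1 = true := ex3_b k390_A00pm_213_s3 k391_A00pm_213_s3

theorem t886_A00pm_213_s3 : ∃ t, chk3 f_A00pm_213_s3 t 493 4080 1 = true := ex3_a t885_A00pm_213_s3 k392_A00pm_213_s3

theorem t887_A00pm_213_s3 : ∃ t, chk3 f_A00pm_213_s3 t 493 2040 1 = true := ex3_b t886_A00pm_213_s3 t884_A00pm_213_s3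

theorem t888_A00pm_213_s3 : ∃ t, chk3 f_A00pm_213_s3 t 985 8160 1 = true := ex3_a k386_A00pm_213_s3 k387_A00pm_213_s3

theorem t889_A00pm_213_s3 : ∃ t, chk3 f_A00pm_213_s3 t 492 8160 1 = true := ex3_a k385_A00pm_213_s3 t888_A00pm_213_s3

theorem t890_A00pm_213_s3 : ∃ t, chk3 f_A00pm_213_s3 t 492 4080 1 = true := ex3_b t889_A00pm_213_s3 k388_A00pm_213_s3

theorem t891_A00pm_213_s3 : ∃ t, chk3 f_A00pm_213_s3 t 492 2040 1 = true := ex3_b t890_A00pm_213_s3 k389_A00pm_213_s3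

theorem t892_A00pm_213_s3 : ∃ t, chk3 f_A00pm_213_s3 t 246 2040 1 = true := ex3_a t891_A00pm_213_s3 t887_A00pm_213_s3

theorem t893_A00pm_213_s3 : ∃ t, chk3 f_A00pm_213_s3 t 246 1020 1 = true := ex3_b t892_A00pm_213_s3 t878_A00pm_213_s3

theorem t894_A00pm_213_s3 : ∃ t, chk3 f_A00pm_213_s3 t 123 1020 1 = true := ex3_a t893_A00pm_213_s3 t876_A00pm_213_s3

theorem t895_A00pm_213_s3 : ∃ t, chk3 f_A00pm_213_s3 t 490 2041 1 = true := ex3_b k382_A00pm_213_s3 k383_A00pm_213_s3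

theorem t896_A00pm_213_s3 : ∃ t, chk3 f_A00pm_213_s3 t 490 1020 1 = true := ex3_b k381_A00pm_213_s3 t895_A00pm_213_s3

theorem t897_A00pm_213_s3 : ∃ t, chk3 f_A00pm_213_s3 t 245 1020 1 = true := ex3_a t896_A00pm_213_s3 k384_A00pm_213_s3

theorem t898_A00pm_213_s3 : ∃ t, chk3 f_A00pm_213_s3 t 979 2041 1 = true := ex3_c k379_A00pm_213_s3 k380_A00pm_213_s3

theorem t899_A00pm_213_s3 : ∃ t, chk3 f_A00pm_213_s3 t 489 2041 1 = true := ex3_a k378_A00pm_213_s3 t898_A00pm_213_s3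

theorem t900_A00pm_213_s3 : ∃ t, chk3 f_A00pm_213_s3 t 489 1020 1 = true := ex3_b k377_A00pm_213_s3 t899_A00pm_213_s3

theorem t901_A00pm_213_s3 : ∃ t, chk3 f_A00pm_213_s3 t 488 4083 1 = true := ex3_a k375_A00pm_213_s3 k376_A00pm_213_s3

theorem t902_A00pm_213_s3 : ∃ t, chk3 f_A00pm_213_s3 t 488 2041 1 = true := ex3_b k374_A00pm_213_s3 t901_A00pm_213_s3

theorem t903_A00pm_213_s3 : ∃ t, chk3 f_A00pm_213_s3 t 488 1020 1 = true := ex3_b k373_A00pm_213_s3 t902_A00pm_213_s3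

theorem t904_A00pm_213_s3 : ∃ t, chk3 f_A00pm_213_s3 t 244 1020 1 = true := ex3_a t903_A00pm_213_s3 t900_A00pm_213_s3

theorem t905_A00pm_213_s3 : ∃ t, chk3 f_A00pm_213_s3 t 122 1020 1 = true := ex3_a t904_A00pm_213_s3 t897_A00pm_213_s3

theorem t906_A00pm_213_s3 : ∃ t, chk3 f_A00pm_213_s3 t 61 1020 1 = true := ex3_a t905_A00pm_213_s3 t894_A00pm_213_s3

theorem t907_A00pm_213_s3 : ∃ t, chk3 f_A00pm_213_s3 t 61 510 1 = true := ex3_b t906_A00pm_213_s3 t863_A00pm_213_s3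

theorem t908_A00pm_213_s3 : ∃ t, chk3 f_A00pm_213_s3 t 61 255 1 = true := ex3_b t907_A00pm_213_s3 t747_A00pm_213_s3

theorem t909_A00pm_213_s3 : ∃ t, chk3 f_A00pm_213_s3 t 984 8158 1 = true := ex3_a k367_A00pm_213_s3 k368_A00pm_213_s3

theorem t910_A00pm_213_s3 : ∃ t, chk3 f_A00pm_213_s3 t 984 4079 1 = true := ex3_b t909_A00pm_213_s3 k369_A00pm_213_s3

theorem t911_A00pm_213_s3 : ∃ t, chk3 f_A00pm_213_s3 t 492 4079 1 = true := ex3_a t910_A00pm_213_s3 k370_A00pm_213_s3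

theorem t912_A00pm_213_s3 : ∃ t, chk3 f_A00pm_213_s3 t 492 2039 1 = true := ex3_b k366_A00pm_213_s3 t911_A00pm_213_s3

theorem t913_A00pm_213_s3 : ∃ t, chk3 f_A00pm_213_s3 t 246 2039 1 = true := ex3_a t912_A00pm_213_s3 k371_A00pm_213_s3

theorem t914_A00pm_213_s3 : ∃ t, chk3 f_A00pm_213_s3 t 246 1019 1 = true := ex3_b k365_A00pm_213_s3 t913_A00pm_213_s3

theorem t915_A00pm_213_s3 : ∃ t, chk3 f_A00pm_213_s3 t 123 1019 1 = true := ex3_a t914_A00pm_213_s3 k372_A00pm_213_s3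

theorem t916_A00pm_213_s3 : ∃ t, chk3 f_A00pm_213_s3 t 123 509 1 = true := ex3_b k364_A00pm_213_s3 t915_A00pm_213_s3

theorem t917_A00pm_213_s3 : ∃ t, chk3 f_A00pm_213_s3 t 491 2039 1 = true := ex3_c k362_A00pm_213_s3 k363_A00pm_213_s3

theorem t918_A00pm_213_s3 : ∃ t, chk3 f_A00pm_213_s3 t 245 2039 1 = true := ex3_a k361_A00pm_213_s3 t917_A00pm_213_s3

theorem t919_A00pm_213_s3 : ∃ t, chk3 f_A00pm_213_s3 t 122 2039 1 = true := ex3_a k360_A00pm_213_s3 t918_A00pm_213_s3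

theorem t920_A00pm_213_s3 : ∃ t, chk3 f_A00pm_213_s3 t 982 4077 1 = true := ex3_b k357_A00pm_213_s3 k358_A00pm_213_s3

theorem t921_A00pm_213_s3 : ∃ t, chk3 f_A00pm_213_s3 t 491 4077 1 = true := ex3_a t920_A00pm_213_s3 k359_A00pm_213_s3

theorem t922_A00pm_213_s3 : ∃ t, chk3 f_A00pm_213_s3 t 491 2038 1 = true := ex3_b k356_A00pm_213_s3 t921_A00pm_213_s3

theorem t923_A00pm_213_s3 : ∃ t, chk3 f_A00pm_213_s3 t 981 4076 1 = true := ex3_b k353_A00pm_213_s3 k354_A00pm_213_s3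

theorem t924_A00pm_213_s3 : ∃ t, chk3 f_A00pm_213_s3 t 490 4076 1 = true := ex3_a k352_A00pm_213_s3 t923_A00pm_213_s3

theorem t925_A00pm_213_s3 : ∃ t, chk3 f_A00pm_213_s3 t 490 2038 1 = true := ex3_b t924_A00pm_213_s3 k355_A00pm_213_s3

theorem t926_A00pm_213_s3 : ∃ t, chk3 f_A00pm_213_s3 t 245 2038 1 = true := ex3_a t925_A00pm_213_s3 t922_A00pm_213_s3

theorem t927_A00pm_213_s3 : ∃ t, chk3 f_A00pm_213_s3 t 122 2038 1 = true := ex3_a k351_A00pm_213_s3 t926_A00pm_213_s3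

theorem t928_A00pm_213_s3 : ∃ t, chk3 f_A00pm_213_s3 t 122 1019 1 = true := ex3_b t927_A00pm_213_s3 t919_A00pm_213_s3

theorem t929_A00pm_213_s3 : ∃ t, chk3 f_A00pm_213_s3 t 980 4075 1 = true := ex3_b k347_A00pm_213_s3 k348_A00pm_213_s3

theorem t930_A00pm_213_s3 : ∃ t, chk3 f_A00pm_213_s3 t 980 2037 1 = true := ex3_b k346_A00pm_213_s3 t929_A00pm_213_s3

theorem t931_A00pm_213_s3 : ∃ t, chk3 f_A00pm_213_s3 t 980 1018 1 = true := ex3_b k345_A00pm_213_s3 t930_A00pm_213_s3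

theorem t932_A00pm_213_s3 : ∃ t, chk3 f_A00pm_213_s3 t 490 1018 1 = true := ex3_a t931_A00pm_213_s3 k349_A00pm_213_s3

theorem t933_A00pm_213_s3 : ∃ t, chk3 f_A00pm_213_s3 t 245 1018 1 = true := ex3_a t932_A00pm_213_s3 k350_A00pm_213_s3

theorem t934_A00pm_213_s3 : ∃ t, chk3 f_A00pm_213_s3 t 979 4074 1 = true := ex3_b k342_A00pm_213_s3 k343_A00pm_213_s3

theorem t935_A00pm_213_s3 : ∃ t, chk3 f_A00pm_213_s3 t 489 4074 1 = true := ex3_a k341_A00pm_213_s3 t934_A00pm_213_s3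

theorem t936_A00pm_213_s3 : ∃ t, chk3 f_A00pm_213_s3 t 489 2037 1 = true := ex3_b t935_A00pm_213_s3 k344_A00pm_213_s3

theorem t937_A00pm_213_s3 : ∃ t, chk3 f_A00pm_213_s3 t 244 2037 1 = true := ex3_a k340_A00pm_213_s3 t936_A00pm_213_s3

theorem t938_A00pm_213_s3 : ∃ t, chk3 f_A00pm_213_s3 t 978 4073 1 = true := ex3_b k337_A00pm_213_s3 k338_A00pm_213_s3

theorem t939_A00pm_213_s3 : ∃ t, chk3 f_A00pm_213_s3 t 978 2036 1 = true := ex3_b k336_A00pm_213_s3 t938_A00pm_213_s3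

theorem t940_A00pm_213_s3 : ∃ t, chk3 f_A00pm_213_s3 t 489 2036 1 = true := ex3_a t939_A00pm_213_s3 k339_A00pm_213_s3

theorem t941_A00pm_213_s3 : ∃ t, chk3 f_A00pm_213_s3 t 488 4073 1 = true := ex3_a k334_A00pm_213_s3 k335_A00pm_213_s3

theorem t942_A00pm_213_s3 : ∃ t, chk3 f_A00pm_213_s3 t 977 8145 1 = true := ex3_a k332_A00pm_213_s3 k333_A00pm_213_s3

theorem t943_A00pm_213_s3 : ∃ t, chk3 f_A00pm_213_s3 t 977 4072 1 = true := ex3_b k331_A00pm_213_s3 t942_A00pm_213_s3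

theorem t944_A00pm_213_s3 : ∃ t, chk3 f_A00pm_213_s3 t 1953 8144 1 = true := ex3_b k328_A00pm_213_s3 k329_A00pm_213_s3

theorem t945_A00pm_213_s3 : ∃ t, chk3 f_A00pm_213_s3 t 976 8144 1 = true := ex3_a k327_A00pm_213_s3 t944_A00pm_213_s3

theorem t946_A00pm_213_s3 : ∃ t, chk3 f_A00pm_213_s3 t 976 4072 1 = true := ex3_b t945_A00pm_213_s3 k330_A00pm_213_s3

theorem t947_A00pm_213_s3 : ∃ t, chk3 f_A00pm_213_s3 t 488 4072 1 = true := ex3_a t946_A00pm_213_s3 t943_A00pm_213_s3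

theorem t948_A00pm_213_s3 : ∃ t, chk3 f_A00pm_213_s3 t 488 2036 1 = true := ex3_b t947_A00pm_213_s3 t941_A00pm_213_s3

theorem t949_A00pm_213_s3 : ∃ t, chk3 f_A00pm_213_s3 t 244 2036 1 = true := ex3_a t948_A00pm_213_s3 t940_A00pm_213_s3

theorem t950_A00pm_213_s3 : ∃ t, chk3 f_A00pm_213_s3 t 244 1018 1 = true := ex3_b t949_A00pm_213_s3 t937_A00pm_213_s3

theorem t951_A00pm_213_s3 : ∃ t, chk3 f_A00pm_213_s3 t 122 1018 1 = true := ex3_a t950_A00pm_213_s3 t933_A00pm_213_s3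

theorem t952_A00pm_213_s3 : ∃ t, chk3 f_A00pm_213_s3 t 122 509 1 = true := ex3_b t951_A00pm_213_s3 t928_A00pm_213_s3

theorem t953_A00pm_213_s3 : ∃ t, chk3 f_A00pm_213_s3 t 61 509 1 = true := ex3_a t952_A00pm_213_s3 t916_A00pm_213_s3

theorem t954_A00pm_213_s3 : ∃ t, chk3 f_A00pm_213_s3 t 1952 8143 1 = true := ex3_b k320_A00pm_213_s3 k321_A00pm_213_s3

theorem t955_A00pm_213_s3 : ∃ t, chk3 f_A00pm_213_s3 t 976 8143 1 = true := ex3_a t954_A00pm_213_s3 k322_A00pm_213_s3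

theorem t956_A00pm_213_s3 : ∃ t, chk3 f_A00pm_213_s3 t 976 4071 1 = true := ex3_b k319_A00pm_213_s3 t955_A00pm_213_s3

theorem t957_A00pm_213_s3 : ∃ t, chk3 f_A00pm_213_s3 t 488 4071 1 = true := ex3_a t956_A00pm_213_s3 k323_A00pm_213_s3

theorem t958_A00pm_213_s3 : ∃ t, chk3 f_A00pm_213_s3 t 488 2035 1 = true := ex3_b k318_A00pm_213_s3 t957_A00pm_213_s3

theorem t959_A00pm_213_s3 : ∃ t, chk3 f_A00pm_213_s3 t 244 2035 1 = true := ex3_a t958_A00pm_213_s3 k324_A00pm_213_s3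

theorem t960_A00pm_213_s3 : ∃ t, chk3 f_A00pm_213_s3 t 244 1017 1 = true := ex3_b k317_A00pm_213_s3 t959_A00pm_213_s3

theorem t961_A00pm_213_s3 : ∃ t, chk3 f_A00pm_213_s3 t 122 1017 1 = true := ex3_a t960_A00pm_213_s3 k325_A00pm_213_s3

theorem t962_A00pm_213_s3 : ∃ t, chk3 f_A00pm_213_s3 t 122 508 1 = true := ex3_b k316_A00pm_213_s3 t961_A00pm_213_s3

theorem t963_A00pm_213_s3 : ∃ t, chk3 f_A00pm_213_s3 t 61 508 1 = true := ex3_a t962_A00pm_213_s3 k326_A00pm_213_s3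

theorem t964_A00pm_213_s3 : ∃ t, chk3 f_A00pm_213_s3 t 61 254 1 = true := ex3_b t963_A00pm_213_s3 t953_A00pm_213_s3

theorem t965_A00pm_213_s3 : ∃ t, chk3 f_A00pm_213_s3 t 61 127 1 = true := ex3_b t964_A00pm_213_s3 t908_A00pm_213_s3

theorem t966_A00pm_213_s3 : ∃ t, chk3 f_A00pm_213_s3 t 61 63 1 = true := ex3_b k315_A00pm_213_s3 t965_A00pm_213_s3

theorem t967_A00pm_213_s3 : ∃ t, chk3 f_A00pm_213_s3 t 61 31 1 = true := ex3_b k314_A00pm_213_s3 t966_A00pm_213_s3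

theorem t968_A00pm_213_s3 : ∃ t, chk3 f_A00pm_213_s3 t 487 2041 3 = true := ex3_b k310_A00pm_213_s3 k311_A00pm_213_s3

theorem t969_A00pm_213_s3 : ∃ t, chk3 f_A00pm_213_s3 t 243 2041 3 = true := ex3_a k309_A00pm_213_s3 t968_A00pm_213_s3

theorem t970_A00pm_213_s3 : ∃ t, chk3 f_A00pm_213_s3 t 243 2040 3 = true := ex3_a k307_A00pm_213_s3 k308_A00pm_213_s3

theorem t971_A00pm_213_s3 : ∃ t, chk3 f_A00pm_213_s3 t 243 1020 3 = true := ex3_b t970_A00pm_213_s3 t969_A00pm_213_s3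

theorem t972_A00pm_213_s3 : ∃ t, chk3 f_A00pm_213_s3 t 242 2040 3 = true := ex3_a k304_A00pm_213_s3 k305_A00pm_213_s3

theorem t973_A00pm_213_s3 : ∃ t, chk3 f_A00pm_213_s3 t 242 1020 3 = true := ex3_b t972_A00pm_213_s3 k306_A00pm_213_s3

theorem t974_A00pm_213_s3 : ∃ t, chk3 f_A00pm_213_s3 t 121 1020 3 = true := ex3_a t973_A00pm_213_s3 t971_A00pm_213_s3

theorem t975_A00pm_213_s3 : ∃ t, chk3 f_A00pm_213_s3 t 121 510 3 = true := ex3_b t974_A00pm_213_s3 k312_A00pm_213_s3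

theorem t976_A00pm_213_s3 : ∃ t, chk3 f_A00pm_213_s3 t 121 255 3 = true := ex3_b t975_A00pm_213_s3 k313_A00pm_213_s3

theorem t977_A00pm_213_s3 : ∃ t, chk3 f_A00pm_213_s3 t 487 2041 2 = true := ex3_b k300_A00pm_213_s3 k301_A00pm_213_s3

theorem t978_A00pm_213_s3 : ∃ t, chk3 f_A00pm_213_s3 t 243 2041 2 = true := ex3_a k299_A00pm_213_s3 t977_A00pm_213_s3

theorem t979_A00pm_213_s3 : ∃ t, chk3 f_A00pm_213_s3 t 243 1020 2 = true := ex3_b k298_A00pm_213_s3 t978_A00pm_213_s3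

theorem t980_A00pm_213_s3 : ∃ t, chk3 f_A00pm_213_s3 t 243 510 2 = true := ex3_b t979_A00pm_213_s3 k302_A00pm_213_s3

theorem t981_A00pm_213_s3 : ∃ t, chk3 f_A00pm_213_s3 t 243 255 2 = true := ex3_b t980_A00pm_213_s3 k303_A00pm_213_s3

theorem t982_A00pm_213_s3 : ∃ t, chk3 f_A00pm_213_s3 t 242 255 2 = true := ex3_b k296_A00pm_213_s3 k297_A00pm_213_s3

theorem t983_A00pm_213_s3 : ∃ t, chk3 f_A00pm_213_s3 t 121 255 2 = true := ex3_a t982_A00pm_213_s3 t981_A00pm_213_s3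

theorem t984_A00pm_213_s3 : ∃ t, chk3 f_A00pm_213_s3 t 121 255 1 = true := ex3_c t983_A00pm_213_s3 t976_A00pm_213_s3

theorem t985_A00pm_213_s3 : ∃ t, chk3 f_A00pm_213_s3 t 60 255 1 = true := ex3_a k295_A00pm_213_s3 t984_A00pm_213_s3

theorem t986_A00pm_213_s3 : ∃ t, chk3 f_A00pm_213_s3 t 243 1019 1 = true := ex3_a k293_A00pm_213_s3 k294_A00pm_213_s3

theorem t987_A00pm_213_s3 : ∃ t, chk3 f_A00pm_213_s3 t 243 509 1 = true := ex3_b k292_A00pm_213_s3 t986_A00pm_213_s3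

theorem t988_A00pm_213_s3 : ∃ t, chk3 f_A00pm_213_s3 t 242 1019 1 = true := ex3_a k290_A00pm_213_s3 k291_A00pm_213_s3

theorem t989_A00pm_213_s3 : ∃ t, chk3 f_A00pm_213_s3 t 242 509 1 = true := ex3_b k289_A00pm_213_s3 t988_A00pm_213_s3

theorem t990_A00pm_213_s3 : ∃ t, chk3 f_A00pm_213_s3 t 121 509 1 = true := ex3_a t989_A00pm_213_s3 t987_A00pm_213_s3

theorem t991_A00pm_213_s3 : ∃ t, chk3 f_A00pm_213_s3 t 241 1019 1 = true := ex3_b k287_A00pm_213_s3 k288_A00pm_213_s3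

theorem t992_A00pm_213_s3 : ∃ t, chk3 f_A00pm_213_s3 t 120 1019 1 = true := ex3_a k286_A00pm_213_s3 t991_A00pm_213_s3

theorem t993_A00pm_213_s3 : ∃ t, chk3 f_A00pm_213_s3 t 120 1018 1 = true := ex3_a k284_A00pm_213_s3 k285_A00pm_213_s3

theorem t994_A00pm_213_s3 : ∃ t, chk3 f_A00pm_213_s3 t 120 509 1 = true := ex3_b t993_A00pm_213_s3 t992_A00pm_213_s3

theorem t995_A00pm_213_s3 : ∃ t, chk3 f_A00pm_213_s3 t 60 509 1 = true := ex3_a t994_A00pm_213_s3 t990_A00pm_213_s3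

theorem t996_A00pm_213_s3 : ∃ t, chk3 f_A00pm_213_s3 t 243 4071 1 = true := ex3_c k282_A00pm_213_s3 k283_A00pm_213_s3

theorem t997_A00pm_213_s3 : ∃ t, chk3 f_A00pm_213_s3 t 1950 8141 1 = true := ex3_c k279_A00pm_213_s3 k280_A00pm_213_s3

theorem t998_A00pm_213_s3 : ∃ t, chk3 f_A00pm_213_s3 t 975 8141 1 = true := ex3_a t997_A00pm_213_s3 k281_A00pm_213_s3

theorem t999_A00pm_213_s3 : ∃ t, chk3 f_A00pm_213_s3 t 975 4070 1 = true := ex3_b k278_A00pm_213_s3 t998_A00pm_213_s3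

theorem t1000_A00pm_213_s3 : ∃ t, chk3 f_A00pm_213_s3 t 974 4070 3 = true := ex3_b k276_A00pm_213_s3 k277_A00pm_213_s3

theorem t1001_A00pm_213_s3 : ∃ t, chk3 f_A00pm_213_s3 t 974 4070 1 = true := ex3_c k275_A00pm_213_s3 t1000_A00pm_213_s3

theorem t1002_A00pm_213_s3 : ∃ t, chk3 f_A00pm_213_s3 t 487 4070 1 = true := ex3_a t1001_A00pm_213_s3 t999_A00pm_213_s3

theorem t1003_A00pm_213_s3 : ∃ t, chk3 f_A00pm_213_s3 t 243 4070 1 = true := ex3_a k274_A00pm_213_s3 t1002_A00pm_213_s3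

theorem t1004_A00pm_213_s3 : ∃ t, chk3 f_A00pm_213_s3 t 243 2035 1 = true := ex3_b t1003_A00pm_213_s3 t996_A00pm_213_s3

theorem t1005_A00pm_213_s3 : ∃ t, chk3 f_A00pm_213_s3 t 3897 16278 1 = true := ex3_b k269_A00pm_213_s3 k270_A00pm_213_s3

theorem t1006_A00pm_213_s3 : ∃ t, chk3 f_A00pm_213_s3 t 3897 8139 1 = true := ex3_b t1005_A00pm_213_s3 k271_A00pm_213_s3

theorem t1007_A00pm_213_s3 : ∃ t, chk3 f_A00pm_213_s3 t 1948 8139 1 = true := ex3_a k268_A00pm_213_s3 t1006_A00pm_213_s3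

theorem t1008_A00pm_213_s3 : ∃ t, chk3 f_A00pm_213_s3 t 7792 16277 1 = true := ex3_b k264_A00pm_213_s3 k265_A00pm_213_s3

theorem t1009_A00pm_213_s3 : ∃ t, chk3 f_A00pm_213_s3 t 3896 16277 1 = true := ex3_a t1008_A00pm_213_s3 k266_A00pm_213_s3

theorem t1010_A00pm_213_s3 : ∃ t, chk3 f_A00pm_213_s3 t 1948 16277 1 = true := ex3_a t1009_A00pm_213_s3 k267_A00pm_213_s3

theorem t1011_A00pm_213_s3 : ∃ t, chk3 f_A00pm_213_s3 t 1948 8138 1 = true := ex3_b k263_A00pm_213_s3 t1010_A00pm_213_s3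

theorem t1012_A00pm_213_s3 : ∃ t, chk3 f_A00pm_213_s3 t 1948 4069 1 = true := ex3_b t1011_A00pm_213_s3 t1007_A00pm_213_s3

theorem t1013_A00pm_213_s3 : ∃ t, chk3 f_A00pm_213_s3 t 974 4069 1 = true := ex3_a t1012_A00pm_213_s3 k272_A00pm_213_s3

theorem t1014_A00pm_213_s3 : ∃ t, chk3 f_A00pm_213_s3 t 487 4069 1 = true := ex3_a t1013_A00pm_213_s3 k273_A00pm_213_s3

theorem t1015_A00pm_213_s3 : ∃ t, chk3 f_A00pm_213_s3 t 487 2034 1 = true := ex3_b k262_A00pm_213_s3 t1014_A00pm_213_s3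

theorem t1016_A00pm_213_s3 : ∃ t, chk3 f_A00pm_213_s3 t 7790 16276 1 = true := ex3_b k257_A00pm_213_s3 k258_A00pm_213_s3

theorem t1017_A00pm_213_s3 : ∃ t, chk3 f_A00pm_213_s3 t 3895 16276 1 = true := ex3_a t1016_A00pm_213_s3 k259_A00pm_213_s3

theorem t1018_A00pm_213_s3 : ∃ t, chk3 f_A00pm_213_s3 t 3895 8138 1 = true := ex3_b t1017_A00pm_213_s3 k260_A00pm_213_s3

theorem t1019_A00pm_213_s3 : ∃ t, chk3 f_A00pm_213_s3 t 1947 8138 1 = true := ex3_a k256_A00pm_213_s3 t1018_A00pm_213_s3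

theorem t1020_A00pm_213_s3 : ∃ t, chk3 f_A00pm_213_s3 t 973 8138 1 = true := ex3_a k255_A00pm_213_s3 t1019_A00pm_213_s3

theorem t1021_A00pm_213_s3 : ∃ t, chk3 f_A00pm_213_s3 t 973 4069 1 = true := ex3_b t1020_A00pm_213_s3 k261_A00pm_213_s3

theorem t1022_A00pm_213_s3 : ∃ t, chk3 f_A00pm_213_s3 t 486 4069 1 = true := ex3_a k254_A00pm_213_s3 t1021_A00pm_213_s3

theorem t1023_A00pm_213_s3 : ∃ t, chk3 f_A00pm_213_s3 t 7788 16275 1 = true := ex3_b k250_A00pm_213_s3 k251_A00pm_213_s3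

theorem t1024_A00pm_213_s3 : ∃ t, chk3 f_A00pm_213_s3 t 3894 16275 1 = true := ex3_a t1023_A00pm_213_s3 k252_A00pm_213_s3

theorem t1025_A00pm_213_s3 : ∃ t, chk3 f_A00pm_213_s3 t 3894 8137 1 = true := ex3_b k249_A00pm_213_s3 t1024_A00pm_213_s3

theorem t1026_A00pm_213_s3 : ∃ t, chk3 f_A00pm_213_s3 t 1947 8137 1 = true := ex3_a t1025_A00pm_213_s3 k253_A00pm_213_s3

theorem t1027_A00pm_213_s3 : ∃ t, chk3 f_A00pm_213_s3 t 1947 4068 1 = true := ex3_b k248_A00pm_213_s3 t1026_A00pm_213_s3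

theorem t1028_A00pm_213_s3 : ∃ t, chk3 f_A00pm_213_s3 t 15574 32549 1 = true := ex3_b k244_A00pm_213_s3 k245_A00pm_213_s3

theorem t1029_A00pm_213_s3 : ∃ t, chk3 f_A00pm_213_s3 t 7787 32549 1 = true := ex3_a t1028_A00pm_213_s3 k246_A00pm_213_s3

theorem t1030_A00pm_213_s3 : ∃ t, chk3 f_A00pm_213_s3 t 7787 16274 1 = true := ex3_b k243_A00pm_213_s3 t1029_A00pm_213_s3

theorem t1031_A00pm_213_s3 : ∃ t, chk3 f_A00pm_213_s3 t 15572 32548 1 = true := ex3_b k239_A00pm_213_s3 k240_A00pm_213_s3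

theorem t1032_A00pm_213_s3 : ∃ t, chk3 f_A00pm_213_s3 t 7786 32548 1 = true := ex3_a t1031_A00pm_213_s3 k241_A00pm_213_s3

theorem t1033_A00pm_213_s3 : ∃ t, chk3 f_A00pm_213_s3 t 7786 16274 1 = true := ex3_b t1032_A00pm_213_s3 k242_A00pm_213_s3

theorem t1034_A00pm_213_s3 : ∃ t, chk3 f_A00pm_213_s3 t 3893 16274 1 = true := ex3_a t1033_A00pm_213_s3 t1030_A00pm_213_s3

theorem t1035_A00pm_213_s3 : ∃ t, chk3 f_A00pm_213_s3 t 3893 8137 1 = true := ex3_b t1034_A00pm_213_s3 k247_A00pm_213_s3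

theorem t1036_A00pm_213_s3 : ∃ t, chk3 f_A00pm_213_s3 t 1946 8137 1 = true := ex3_a k238_A00pm_213_s3 t1035_A00pm_213_s3

theorem t1037_A00pm_213_s3 : ∃ t, chk3 f_A00pm_213_s3 t 15570 32547 1 = true := ex3_b k234_A00pm_213_s3 k235_A00pm_213_s3

theorem t1038_A00pm_213_s3 : ∃ t, chk3 f_A00pm_213_s3 t 7785 32547 1 = true := ex3_a t1037_A00pm_213_s3 k236_A00pm_213_s3

theorem t1039_A00pm_213_s3 : ∃ t, chk3 f_A00pm_213_s3 t 7785 16273 1 = true := ex3_b k233_A00pm_213_s3 t1038_A00pm_213_s3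

theorem t1040_A00pm_213_s3 : ∃ t, chk3 f_A00pm_213_s3 t 15568 32546 1 = true := ex3_b k229_A00pm_213_s3 k230_A00pm_213_s3

theorem t1041_A00pm_213_s3 : ∃ t, chk3 f_A00pm_213_s3 t 7784 32546 1 = true := ex3_a t1040_A00pm_213_s3 k231_A00pm_213_s3

theorem t1042_A00pm_213_s3 : ∃ t, chk3 f_A00pm_213_s3 t 7784 16273 1 = true := ex3_b t1041_A00pm_213_s3 k232_A00pm_213_s3

theorem t1043_A00pm_213_s3 : ∃ t, chk3 f_A00pm_213_s3 t 3892 16273 1 = true := ex3_a t1042_A00pm_213_s3 t1039_A00pm_213_s3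

theorem t1044_A00pm_213_s3 : ∃ t, chk3 f_A00pm_213_s3 t 3892 8136 1 = true := ex3_b k228_A00pm_213_s3 t1043_A00pm_213_s3

theorem t1045_A00pm_213_s3 : ∃ t, chk3 f_A00pm_213_s3 t 1946 8136 1 = true := ex3_a t1044_A00pm_213_s3 k237_A00pm_213_s3

theorem t1046_A00pm_213_s3 : ∃ t, chk3 f_A00pm_213_s3 t 1946 4068 1 = true := ex3_b t1045_A00pm_213_s3 t1036_A00pm_213_s3

theorem t1047_A00pm_213_s3 : ∃ t, chk3 f_A00pm_213_s3 t 973 4068 1 = true := ex3_a t1046_A00pm_213_s3 t1027_A00pm_213_s3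

theorem t1048_A00pm_213_s3 : ∃ t, chk3 f_A00pm_213_s3 t 7783 32545 1 = true := ex3_a k224_A00pm_213_s3 k225_A00pm_213_s3

theorem t1049_A00pm_213_s3 : ∃ t, chk3 f_A00pm_213_s3 t 7783 16272 1 = true := ex3_b k223_A00pm_213_s3 t1048_A00pm_213_s3

theorem t1050_A00pm_213_s3 : ∃ t, chk3 f_A00pm_213_s3 t 7782 32544 1 = true := ex3_a k220_A00pm_213_s3 k221_A00pm_213_s3

theorem t1051_A00pm_213_s3 : ∃ t, chk3 f_A00pm_213_s3 t 7782 16272 1 = true := ex3_b t1050_A00pm_213_s3 k222_A00pm_213_s3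

theorem t1052_A00pm_213_s3 : ∃ t, chk3 f_A00pm_213_s3 t 3891 16272 1 = true := ex3_a t1051_A00pm_213_s3 t1049_A00pm_213_s3

theorem t1053_A00pm_213_s3 : ∃ t, chk3 f_A00pm_213_s3 t 1945 16272 1 = true := ex3_a k219_A00pm_213_s3 t1052_A00pm_213_s3

theorem t1054_A00pm_213_s3 : ∃ t, chk3 f_A00pm_213_s3 t 1945 8136 1 = true := ex3_b t1053_A00pm_213_s3 k226_A00pm_213_s3

theorem t1055_A00pm_213_s3 : ∃ t, chk3 f_A00pm_213_s3 t 1945 4068 1 = true := ex3_b t1054_A00pm_213_s3 k227_A00pm_213_s3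

theorem t1056_A00pm_213_s3 : ∃ t, chk3 f_A00pm_213_s3 t 972 4068 1 = true := ex3_a k218_A00pm_213_s3 t1055_A00pm_213_s3

theorem t1057_A00pm_213_s3 : ∃ t, chk3 f_A00pm_213_s3 t 486 4068 1 = true := ex3_a t1056_A00pm_213_s3 t1047_A00pm_213_s3

theorem t1058_A00pm_213_s3 : ∃ t, chk3 f_A00pm_213_s3 t 486 2034 1 = true := ex3_b t1057_A00pm_213_s3 t1022_A00pm_213_s3

theorem t1059_A00pm_213_s3 : ∃ t, chk3 f_A00pm_213_s3 t 243 2034 1 = true := ex3_a t1058_A00pm_213_s3 t1015_A00pm_213_s3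

theorem t1060_A00pm_213_s3 : ∃ t, chk3 f_A00pm_213_s3 t 243 1017 1 = true := ex3_b t1059_A00pm_213_s3 t1004_A00pm_213_s3

theorem t1061_A00pm_213_s3 : ∃ t, chk3 f_A00pm_213_s3 t 121 1017 1 = true := ex3_a k217_A00pm_213_s3 t1060_A00pm_213_s3

theorem t1062_A00pm_213_s3 : ∃ t, chk3 f_A00pm_213_s3 t 60 1017 1 = true := ex3_a k216_A00pm_213_s3 t1061_A00pm_213_s3

theorem t1063_A00pm_213_s3 : ∃ t, chk3 f_A00pm_213_s3 t 7781 32543 1 = true := ex3_a k211_A00pm_213_s3 k212_A00pm_213_s3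

theorem t1064_A00pm_213_s3 : ∃ t, chk3 f_A00pm_213_s3 t 7781 16271 1 = true := ex3_b k210_A00pm_213_s3 t1063_A00pm_213_s3

theorem t1065_A00pm_213_s3 : ∃ t, chk3 f_A00pm_213_s3 t 7780 32542 1 = true := ex3_a k207_A00pm_213_s3 k208_A00pm_213_s3

theorem t1066_A00pm_213_s3 : ∃ t, chk3 f_A00pm_213_s3 t 7780 16271 1 = true := ex3_b t1065_A00pm_213_s3 k209_A00pm_213_s3

theorem t1067_A00pm_213_s3 : ∃ t, chk3 f_A00pm_213_s3 t 3890 16271 1 = true := ex3_a t1066_A00pm_213_s3 t1064_A00pm_213_s3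

theorem t1068_A00pm_213_s3 : ∃ t, chk3 f_A00pm_213_s3 t 3890 8135 1 = true := ex3_b k206_A00pm_213_s3 t1067_A00pm_213_s3

theorem t1069_A00pm_213_s3 : ∃ t, chk3 f_A00pm_213_s3 t 1945 8135 1 = true := ex3_a t1068_A00pm_213_s3 k213_A00pm_213_s3

theorem t1070_A00pm_213_s3 : ∃ t, chk3 f_A00pm_213_s3 t 1945 4067 1 = true := ex3_b k205_A00pm_213_s3 t1069_A00pm_213_s3

theorem t1071_A00pm_213_s3 : ∃ t, chk3 f_A00pm_213_s3 t 7779 16270 1 = true := ex3_b k202_A00pm_213_s3 k203_A00pm_213_s3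

theorem t1072_A00pm_213_s3 : ∃ t, chk3 f_A00pm_213_s3 t 3889 16270 1 = true := ex3_a k201_A00pm_213_s3 t1071_A00pm_213_s3

theorem t1073_A00pm_213_s3 : ∃ t, chk3 f_A00pm_213_s3 t 3889 8135 1 = true := ex3_b t1072_A00pm_213_s3 k204_A00pm_213_s3

theorem t1074_A00pm_213_s3 : ∃ t, chk3 f_A00pm_213_s3 t 1944 8135 1 = true := ex3_a k200_A00pm_213_s3 t1073_A00pm_213_s3

theorem t1075_A00pm_213_s3 : ∃ t, chk3 f_A00pm_213_s3 t 7777 16269 1 = true := ex3_b k197_A00pm_213_s3 k198_A00pm_213_s3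

theorem t1076_A00pm_213_s3 : ∃ t, chk3 f_A00pm_213_s3 t 3888 16269 1 = true := ex3_a k196_A00pm_213_s3 t1075_A00pm_213_s3

theorem t1077_A00pm_213_s3 : ∃ t, chk3 f_A00pm_213_s3 t 3888 8134 1 = true := ex3_b k195_A00pm_213_s3 t1076_A00pm_213_s3

theorem t1078_A00pm_213_s3 : ∃ t, chk3 f_A00pm_213_s3 t 1944 8134 1 = true := ex3_a t1077_A00pm_213_s3 k199_A00pm_213_s3

theorem t1079_A00pm_213_s3 : ∃ t, chk3 f_A00pm_213_s3 t 1944 4067 1 = true := ex3_b t1078_A00pm_213_s3 t1074_A00pm_213_s3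

theorem t1080_A00pm_213_s3 : ∃ t, chk3 f_A00pm_213_s3 t 972 4067 1 = true := ex3_a t1079_A00pm_213_s3 t1070_A00pm_213_s3

theorem t1081_A00pm_213_s3 : ∃ t, chk3 f_A00pm_213_s3 t 972 2033 1 = true := ex3_b k194_A00pm_213_s3 t1080_A00pm_213_s3

theorem t1082_A00pm_213_s3 : ∃ t, chk3 f_A00pm_213_s3 t 486 2033 1 = true := ex3_a t1081_A00pm_213_s3 k214_A00pm_213_s3

theorem t1083_A00pm_213_s3 : ∃ t, chk3 f_A00pm_213_s3 t 486 1016 1 = true := ex3_b k193_A00pm_213_s3 t1082_A00pm_213_s3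

theorem t1084_A00pm_213_s3 : ∃ t, chk3 f_A00pm_213_s3 t 243 1016 1 = true := ex3_a t1083_A00pm_213_s3 k215_A00pm_213_s3

theorem t1085_A00pm_213_s3 : ∃ t, chk3 f_A00pm_213_s3 t 7775 16268 1 = true := ex3_b k189_A00pm_213_s3 k190_A00pm_213_s3

theorem t1086_A00pm_213_s3 : ∃ t, chk3 f_A00pm_213_s3 t 3887 16268 1 = true := ex3_a k188_A00pm_213_s3 t1085_A00pm_213_s3

theorem t1087_A00pm_213_s3 : ∃ t, chk3 f_A00pm_213_s3 t 3887 8134 1 = true := ex3_b t1086_A00pm_213_s3 k191_A00pm_213_s3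

theorem t1088_A00pm_213_s3 : ∃ t, chk3 f_A00pm_213_s3 t 1943 8134 1 = true := ex3_a k187_A00pm_213_s3 t1087_A00pm_213_s3

theorem t1089_A00pm_213_s3 : ∃ t, chk3 f_A00pm_213_s3 t 1943 4067 1 = true := ex3_b t1088_A00pm_213_s3 k192_A00pm_213_s3

theorem t1090_A00pm_213_s3 : ∃ t, chk3 f_A00pm_213_s3 t 971 4067 1 = true := ex3_a k186_A00pm_213_s3 t1089_A00pm_213_s3

theorem t1091_A00pm_213_s3 : ∃ t, chk3 f_A00pm_213_s3 t 3887 8133 1 = true := ex3_b k184_A00pm_213_s3 k185_A00pm_213_s3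

theorem t1092_A00pm_213_s3 : ∃ t, chk3 f_A00pm_213_s3 t 3886 16267 1 = true := ex3_a k182_A00pm_213_s3 k183_A00pm_213_s3

theorem t1093_A00pm_213_s3 : ∃ t, chk3 f_A00pm_213_s3 t 3886 16266 1 = true := ex3_a k180_A00pm_213_s3 k181_A00pm_213_s3

theorem t1094_A00pm_213_s3 : ∃ t, chk3 f_A00pm_213_s3 t 3886 8133 1 = true := ex3_b t1093_A00pm_213_s3 t1092_A00pm_213_s3

theorem t1095_A00pm_213_s3 : ∃ t, chk3 f_A00pm_213_s3 t 1943 8133 1 = true := ex3_a t1094_A00pm_213_s3 t1091_A00pm_213_s3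

theorem t1096_A00pm_213_s3 : ∃ t, chk3 f_A00pm_213_s3 t 1943 4066 1 = true := ex3_b k179_A00pm_213_s3 t1095_A00pm_213_s3

theorem t1097_A00pm_213_s3 : ∃ t, chk3 f_A00pm_213_s3 t 3885 8132 1 = true := ex3_c k176_A00pm_213_s3 k177_A00pm_213_s3

theorem t1098_A00pm_213_s3 : ∃ t, chk3 f_A00pm_213_s3 t 3884 8132 1 = true := ex3_a k174_A00pm_213_s3 k175_A00pm_213_s3

theorem t1099_A00pm_213_s3 : ∃ t, chk3 f_A00pm_213_s3 t 1942 8132 1 = true := ex3_a t1098_A00pm_213_s3 t1097_A00pm_213_s3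

theorem t1100_A00pm_213_s3 : ∃ t, chk3 f_A00pm_213_s3 t 1942 4066 1 = true := ex3_b t1099_A00pm_213_s3 k178_A00pm_213_s3

theorem t1101_A00pm_213_s3 : ∃ t, chk3 f_A00pm_213_s3 t 971 4066 1 = true := ex3_a t1100_A00pm_213_s3 t1096_A00pm_213_s3

theorem t1102_A00pm_213_s3 : ∃ t, chk3 f_A00pm_213_s3 t 971 2033 1 = true := ex3_b t1101_A00pm_213_s3 t1090_A00pm_213_s3

theorem t1103_A00pm_213_s3 : ∃ t, chk3 f_A00pm_213_s3 t 485 2033 1 = true := ex3_a k173_A00pm_213_s3 t1102_A00pm_213_s3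

theorem t1104_A00pm_213_s3 : ∃ t, chk3 f_A00pm_213_s3 t 242 2033 1 = true := ex3_a k172_A00pm_213_s3 t1103_A00pm_213_s3

theorem t1105_A00pm_213_s3 : ∃ t, chk3 f_A00pm_213_s3 t 3883 16263 1 = true := ex3_a k169_A00pm_213_s3 k170_A00pm_213_s3

theorem t1106_A00pm_213_s3 : ∃ t, chk3 f_A00pm_213_s3 t 3883 8131 1 = true := ex3_b k168_A00pm_213_s3 t1105_A00pm_213_s3

theorem t1107_A00pm_213_s3 : ∃ t, chk3 f_A00pm_213_s3 t 3882 8131 1 = true := ex3_a k166_A00pm_213_s3 k167_A00pm_213_s3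

theorem t1108_A00pm_213_s3 : ∃ t, chk3 f_A00pm_213_s3 t 1941 8131 1 = true := ex3_a t1107_A00pm_213_s3 t1106_A00pm_213_s3

theorem t1109_A00pm_213_s3 : ∃ t, chk3 f_A00pm_213_s3 t 1941 4065 1 = true := ex3_b k165_A00pm_213_s3 t1108_A00pm_213_s3

theorem t1110_A00pm_213_s3 : ∃ t, chk3 f_A00pm_213_s3 t 3881 8130 1 = true := ex3_c k162_A00pm_213_s3 k163_A00pm_213_s3

theorem t1111_A00pm_213_s3 : ∃ t, chk3 f_A00pm_213_s3 t 1940 8130 1 = true := ex3_a k161_A00pm_213_s3 t1110_A00pm_213_s3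

theorem t1112_A00pm_213_s3 : ∃ t, chk3 f_A00pm_213_s3 t 1940 4065 1 = true := ex3_b t1111_A00pm_213_s3 k164_A00pm_213_s3

theorem t1113_A00pm_213_s3 : ∃ t, chk3 f_A00pm_213_s3 t 970 4065 1 = true := ex3_a t1112_A00pm_213_s3 t1109_A00pm_213_s3

theorem t1114_A00pm_213_s3 : ∃ t, chk3 f_A00pm_213_s3 t 970 2032 1 = true := ex3_b k160_A00pm_213_s3 t1113_A00pm_213_s3

theorem t1115_A00pm_213_s3 : ∃ t, chk3 f_A00pm_213_s3 t 485 2032 1 = true := ex3_a t1114_A00pm_213_s3 k171_A00pm_213_s3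

theorem t1116_A00pm_213_s3 : ∃ t, chk3 f_A00pm_213_s3 t 3879 8129 1 = true := ex3_b k157_A00pm_213_s3 k158_A00pm_213_s3

theorem t1117_A00pm_213_s3 : ∃ t, chk3 f_A00pm_213_s3 t 1939 8129 1 = true := ex3_a k156_A00pm_213_s3 t1116_A00pm_213_s3

theorem t1118_A00pm_213_s3 : ∃ t, chk3 f_A00pm_213_s3 t 1939 4064 1 = true := ex3_b k155_A00pm_213_s3 t1117_A00pm_213_s3

theorem t1119_A00pm_213_s3 : ∃ t, chk3 f_A00pm_213_s3 t 1938 8128 1 = true := ex3_b k152_A00pm_213_s3 k153_A00pm_213_s3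

theorem t1120_A00pm_213_s3 : ∃ t, chk3 f_A00pm_213_s3 t 1938 4064 1 = true := ex3_b t1119_A00pm_213_s3 k154_A00pm_213_s3

theorem t1121_A00pm_213_s3 : ∃ t, chk3 f_A00pm_213_s3 t 969 4064 1 = true := ex3_a t1120_A00pm_213_s3 t1118_A00pm_213_s3

theorem t1122_A00pm_213_s3 : ∃ t, chk3 f_A00pm_213_s3 t 969 2032 1 = true := ex3_b t1121_A00pm_213_s3 k159_A00pm_213_s3

theorem t1123_A00pm_213_s3 : ∃ t, chk3 f_A00pm_213_s3 t 484 2032 1 = true := ex3_a k151_A00pm_213_s3 t1122_A00pm_213_s3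

theorem t1124_A00pm_213_s3 : ∃ t, chk3 f_A00pm_213_s3 t 242 2032 1 = true := ex3_a t1123_A00pm_213_s3 t1115_A00pm_213_s3

theorem t1125_A00pm_213_s3 : ∃ t, chk3 f_A00pm_213_s3 t 242 1016 1 = true := ex3_b t1124_A00pm_213_s3 t1104_A00pm_213_s3

theorem t1126_A00pm_213_s3 : ∃ t, chk3 f_A00pm_213_s3 t 121 1016 1 = true := ex3_a t1125_A00pm_213_s3 t1084_A00pm_213_s3

theorem t1127_A00pm_213_s3 : ∃ t, chk3 f_A00pm_213_s3 t 60 1016 1 = true := ex3_a k150_A00pm_213_s3 t1126_A00pm_213_s3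

theorem t1128_A00pm_213_s3 : ∃ t, chk3 f_A00pm_213_s3 t 60 508 1 = true := ex3_b t1127_A00pm_213_s3 t1062_A00pm_213_s3

theorem t1129_A00pm_213_s3 : ∃ t, chk3 f_A00pm_213_s3 t 60 254 1 = true := ex3_b t1128_A00pm_213_s3 t995_A00pm_213_s3

theorem t1130_A00pm_213_s3 : ∃ t, chk3 f_A00pm_213_s3 t 60 127 1 = true := ex3_b t1129_A00pm_213_s3 t985_A00pm_213_s3

theorem t1131_A00pm_213_s3 : ∃ t, chk3 f_A00pm_213_s3 t 1937 4063 1 = true := ex3_c k145_A00pm_213_s3 k146_A00pm_213_s3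

theorem t1132_A00pm_213_s3 : ∃ t, chk3 f_A00pm_213_s3 t 968 4063 1 = true := ex3_a k144_A00pm_213_s3 t1131_A00pm_213_s3

theorem t1133_A00pm_213_s3 : ∃ t, chk3 f_A00pm_213_s3 t 968 4062 1 = true := ex3_c k142_A00pm_213_s3 k143_A00pm_213_s3

theorem t1134_A00pm_213_s3 : ∃ t, chk3 f_A00pm_213_s3 t 968 2031 1 = true := ex3_b t1133_A00pm_213_s3 t1132_A00pm_213_s3

theorem t1135_A00pm_213_s3 : ∃ t, chk3 f_A00pm_213_s3 t 484 2031 1 = true := ex3_a t1134_A00pm_213_s3 k147_A00pm_213_s3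

theorem t1136_A00pm_213_s3 : ∃ t, chk3 f_A00pm_213_s3 t 484 1015 1 = true := ex3_b k141_A00pm_213_s3 t1135_A00pm_213_s3

theorem t1137_A00pm_213_s3 : ∃ t, chk3 f_A00pm_213_s3 t 242 1015 1 = true := ex3_a t1136_A00pm_213_s3 k148_A00pm_213_s3

theorem t1138_A00pm_213_s3 : ∃ t, chk3 f_A00pm_213_s3 t 242 507 1 = true := ex3_b k140_A00pm_213_s3 t1137_A00pm_213_s3

theorem t1139_A00pm_213_s3 : ∃ t, chk3 f_A00pm_213_s3 t 121 507 1 = true := ex3_a t1138_A00pm_213_s3 k149_A00pm_213_s3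

theorem t1140_A00pm_213_s3 : ∃ t, chk3 f_A00pm_213_s3 t 121 253 1 = true := ex3_b k139_A00pm_213_s3 t1139_A00pm_213_s3

theorem t1141_A00pm_213_s3 : ∃ t, chk3 f_A00pm_213_s3 t 483 2031 1 = true := ex3_c k137_A00pm_213_s3 k138_A00pm_213_s3

theorem t1142_A00pm_213_s3 : ∃ t, chk3 f_A00pm_213_s3 t 1934 8123 1 = true := ex3_a k134_A00pm_213_s3 k135_A00pm_213_s3

theorem t1143_A00pm_213_s3 : ∃ t, chk3 f_A00pm_213_s3 t 1934 4061 1 = true := ex3_b k133_A00pm_213_s3 t1142_A00pm_213_s3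

theorem t1144_A00pm_213_s3 : ∃ t, chk3 f_A00pm_213_s3 t 967 4061 1 = true := ex3_a t1143_A00pm_213_s3 k136_A00pm_213_s3

theorem t1145_A00pm_213_s3 : ∃ t, chk3 f_A00pm_213_s3 t 967 2030 1 = true := ex3_b k132_A00pm_213_s3 t1144_A00pm_213_s3

theorem t1146_A00pm_213_s3 : ∃ t, chk3 f_A00pm_213_s3 t 1932 4060 1 = true := ex3_b k128_A00pm_213_s3 k129_A00pm_213_s3

theorem t1147_A00pm_213_s3 : ∃ t, chk3 f_A00pm_213_s3 t 966 4060 1 = true := ex3_a t1146_A00pm_213_s3 k130_A00pm_213_s3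

theorem t1148_A00pm_213_s3 : ∃ t, chk3 f_A00pm_213_s3 t 966 2030 1 = true := ex3_b t1147_A00pm_213_s3 k131_A00pm_213_s3

theorem t1149_A00pm_213_s3 : ∃ t, chk3 f_A00pm_213_s3 t 483 2030 1 = true := ex3_a t1148_A00pm_213_s3 t1145_A00pm_213_s3

theorem t1150_A00pm_213_s3 : ∃ t, chk3 f_A00pm_213_s3 t 483 1015 1 = true := ex3_b t1149_A00pm_213_s3 t1141_A00pm_213_s3

theorem t1151_A00pm_213_s3 : ∃ t, chk3 f_A00pm_213_s3 t 241 1015 1 = true := ex3_a k127_A00pm_213_s3 t1150_A00pm_213_s3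

theorem t1152_A00pm_213_s3 : ∃ t, chk3 f_A00pm_213_s3 t 120 1015 1 = true := ex3_a k126_A00pm_213_s3 t1151_A00pm_213_s3

theorem t1153_A00pm_213_s3 : ∃ t, chk3 f_A00pm_213_s3 t 965 4059 1 = true := ex3_a k123_A00pm_213_s3 k124_A00pm_213_s3

theorem t1154_A00pm_213_s3 : ∃ t, chk3 f_A00pm_213_s3 t 965 2029 1 = true := ex3_b k122_A00pm_213_s3 t1153_A00pm_213_s3

theorem t1155_A00pm_213_s3 : ∃ t, chk3 f_A00pm_213_s3 t 964 4058 1 = true := ex3_a k119_A00pm_213_s3 k120_A00pm_213_s3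

theorem t1156_A00pm_213_s3 : ∃ t, chk3 f_A00pm_213_s3 t 964 2029 1 = true := ex3_b t1155_A00pm_213_s3 k121_A00pm_213_s3

theorem t1157_A00pm_213_s3 : ∃ t, chk3 f_A00pm_213_s3 t 482 2029 1 = true := ex3_a t1156_A00pm_213_s3 t1154_A00pm_213_s3

theorem t1158_A00pm_213_s3 : ∃ t, chk3 f_A00pm_213_s3 t 482 1014 1 = true := ex3_b k118_A00pm_213_s3 t1157_A00pm_213_s3

theorem t1159_A00pm_213_s3 : ∃ t, chk3 f_A00pm_213_s3 t 241 1014 1 = true := ex3_a t1158_A00pm_213_s3 k125_A00pm_213_s3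

theorem t1160_A00pm_213_s3 : ∃ t, chk3 f_A00pm_213_s3 t 963 2028 1 = true := ex3_b k115_A00pm_213_s3 k116_A00pm_213_s3

theorem t1161_A00pm_213_s3 : ∃ t, chk3 f_A00pm_213_s3 t 963 1014 1 = true := ex3_b t1160_A00pm_213_s3 k117_A00pm_213_s3

theorem t1162_A00pm_213_s3 : ∃ t, chk3 f_A00pm_213_s3 t 481 1014 1 = true := ex3_a k114_A00pm_213_s3 t1161_A00pm_213_s3

theorem t1163_A00pm_213_s3 : ∃ t, chk3 f_A00pm_213_s3 t 240 1014 1 = true := ex3_a k113_A00pm_213_s3 t1162_A00pm_213_s3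

theorem t1164_A00pm_213_s3 : ∃ t, chk3 f_A00pm_213_s3 t 120 1014 1 = true := ex3_a t1163_A00pm_213_s3 t1159_A00pm_213_s3

theorem t1165_A00pm_213_s3 : ∃ t, chk3 f_A00pm_213_s3 t 120 507 1 = true := ex3_b t1164_A00pm_213_s3 t1152_A00pm_213_s3

theorem t1166_A00pm_213_s3 : ∃ t, chk3 f_A00pm_213_s3 t 962 4055 1 = true := ex3_a k109_A00pm_213_s3 k110_A00pm_213_s3

theorem t1167_A00pm_213_s3 : ∃ t, chk3 f_A00pm_213_s3 t 962 2027 1 = true := ex3_b k108_A00pm_213_s3 t1166_A00pm_213_s3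

theorem t1168_A00pm_213_s3 : ∃ t, chk3 f_A00pm_213_s3 t 481 2027 1 = true := ex3_a t1167_A00pm_213_s3 k111_A00pm_213_s3

theorem t1169_A00pm_213_s3 : ∃ t, chk3 f_A00pm_213_s3 t 481 1013 1 = true := ex3_b k107_A00pm_213_s3 t1168_A00pm_213_s3

theorem t1170_A00pm_213_s3 : ∃ t, chk3 f_A00pm_213_s3 t 961 2027 1 = true := ex3_a k105_A00pm_213_s3 k106_A00pm_213_s3

theorem t1171_A00pm_213_s3 : ∃ t, chk3 f_A00pm_213_s3 t 480 2027 1 = true := ex3_a k104_A00pm_213_s3 t1170_A00pm_213_s3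

theorem t1172_A00pm_213_s3 : ∃ t, chk3 f_A00pm_213_s3 t 960 2026 1 = true := ex3_b k101_A00pm_213_s3 k102_A00pm_213_s3

theorem t1173_A00pm_213_s3 : ∃ t, chk3 f_A00pm_213_s3 t 480 2026 1 = true := ex3_a t1172_A00pm_213_s3 k103_A00pm_213_s3

theorem t1174_A00pm_213_s3 : ∃ t, chk3 f_A00pm_213_s3 t 480 1013 1 = true := ex3_b t1173_A00pm_213_s3 t1171_A00pm_213_s3

theorem t1175_A00pm_213_s3 : ∃ t, chk3 f_A00pm_213_s3 t 240 1013 1 = true := ex3_a t1174_A00pm_213_s3 t1169_A00pm_213_s3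

theorem t1176_A00pm_213_s3 : ∃ t, chk3 f_A00pm_213_s3 t 240 506 1 = true := ex3_b k100_A00pm_213_s3 t1175_A00pm_213_s3

theorem t1177_A00pm_213_s3 : ∃ t, chk3 f_A00pm_213_s3 t 120 506 1 = true := ex3_a t1176_A00pm_213_s3 k112_A00pm_213_s3

theorem t1178_A00pm_213_s3 : ∃ t, chk3 f_A00pm_213_s3 t 120 253 1 = true := ex3_b t1177_A00pm_213_s3 t1165_A00pm_213_s3

theorem t1179_A00pm_213_s3 : ∃ t, chk3 f_A00pm_213_s3 t 60 253 1 = true := ex3_a t1178_A00pm_213_s3 t1140_A00pm_213_s3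

theorem t1180_A00pm_213_s3 : ∃ t, chk3 f_A00pm_213_s3 t 60 126 1 = true := ex3_b k99_A00pm_213_s3 t1179_A00pm_213_s3

theorem t1181_A00pm_213_s3 : ∃ t, chk3 f_A00pm_213_s3 t 60 63 1 = true := ex3_b t1180_A00pm_213_s3 t1130_A00pm_213_s3

theorem t1182_A00pm_213_s3 : ∃ t, chk3 f_A00pm_213_s3 t 60 31 1 = true := ex3_b k98_A00pm_213_s3 t1181_A00pm_213_s3

theorem t1183_A00pm_213_s3 : ∃ t, chk3 f_A00pm_213_s3 t 30 31 1 = true := ex3_a t1182_A00pm_213_s3 t967_A00pm_213_s3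

theorem t1184_A00pm_213_s3 : ∃ t, chk3 f_A00pm_213_s3 t 15 31 1 = true := ex3_a t1183_A00pm_213_s3 t691_A00pm_213_s3

theorem t1185_A00pm_213_s3 : ∃ t, chk3 f_A00pm_213_s3 t 15 15 1 = true := ex3_b k97_A00pm_213_s3 t1184_A00pm_213_s3

theorem t1186_A00pm_213_s3 : ∃ t, chk3 f_A00pm_213_s3 t 119 508 1 = true := ex3_a k93_A00pm_213_s3 k94_A00pm_213_s3

theorem t1187_A00pm_213_s3 : ∃ t, chk3 f_A00pm_213_s3 t 118 508 1 = true := ex3_a k91_A00pm_213_s3 k92_A00pm_213_s3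

theorem t1188_A00pm_213_s3 : ∃ t, chk3 f_A00pm_213_s3 t 59 508 1 = true := ex3_a t1187_A00pm_213_s3 t1186_A00pm_213_s3

theorem t1189_A00pm_213_s3 : ∃ t, chk3 f_A00pm_213_s3 t 59 254 1 = true := ex3_b t1188_A00pm_213_s3 k95_A00pm_213_s3

theorem t1190_A00pm_213_s3 : ∃ t, chk3 f_A00pm_213_s3 t 59 127 1 = true := ex3_b t1189_A00pm_213_s3 k96_A00pm_213_s3

theorem t1191_A00pm_213_s3 : ∃ t, chk3 f_A00pm_213_s3 t 479 2025 1 = true := ex3_a k87_A00pm_213_s3 k88_A00pm_213_s3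

theorem t1192_A00pm_213_s3 : ∃ t, chk3 f_A00pm_213_s3 t 479 1012 1 = true := ex3_b k86_A00pm_213_s3 t1191_A00pm_213_s3

theorem t1193_A00pm_213_s3 : ∃ t, chk3 f_A00pm_213_s3 t 478 2024 1 = true := ex3_c k83_A00pm_213_s3 k84_A00pm_213_s3

theorem t1194_A00pm_213_s3 : ∃ t, chk3 f_A00pm_213_s3 t 478 1012 1 = true := ex3_b t1193_A00pm_213_s3 k85_A00pm_213_s3

theorem t1195_A00pm_213_s3 : ∃ t, chk3 f_A00pm_213_s3 t 239 1012 1 = true := ex3_a t1194_A00pm_213_s3 t1192_A00pm_213_s3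

theorem t1196_A00pm_213_s3 : ∃ t, chk3 f_A00pm_213_s3 t 119 1012 1 = true := ex3_a k82_A00pm_213_s3 t1195_A00pm_213_s3

theorem t1197_A00pm_213_s3 : ∃ t, chk3 f_A00pm_213_s3 t 119 506 1 = true := ex3_b t1196_A00pm_213_s3 k89_A00pm_213_s3

theorem t1198_A00pm_213_s3 : ∃ t, chk3 f_A00pm_213_s3 t 119 253 1 = true := ex3_b t1197_A00pm_213_s3 k90_A00pm_213_s3

theorem t1199_A00pm_213_s3 : ∃ t, chk3 f_A00pm_213_s3 t 236 507 1 = true := ex3_b k79_A00pm_213_s3 k80_A00pm_213_s3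

theorem t1200_A00pm_213_s3 : ∃ t, chk3 f_A00pm_213_s3 t 118 507 1 = true := ex3_a t1199_A00pm_213_s3 k81_A00pm_213_s3

theorem t1201_A00pm_213_s3 : ∃ t, chk3 f_A00pm_213_s3 t 118 253 1 = true := ex3_b k78_A00pm_213_s3 t1200_A00pm_213_s3

theorem t1202_A00pm_213_s3 : ∃ t, chk3 f_A00pm_213_s3 t 59 253 1 = true := ex3_a t1201_A00pm_213_s3 t1198_A00pm_213_s3

theorem t1203_A00pm_213_s3 : ∃ t, chk3 f_A00pm_213_s3 t 477 2022 1 = true := ex3_a k74_A00pm_213_s3 k75_A00pm_213_s3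

theorem t1204_A00pm_213_s3 : ∃ t, chk3 f_A00pm_213_s3 t 238 2022 1 = true := ex3_a k73_A00pm_213_s3 t1203_A00pm_213_s3

theorem t1205_A00pm_213_s3 : ∃ t, chk3 f_A00pm_213_s3 t 238 1011 1 = true := ex3_b t1204_A00pm_213_s3 k76_A00pm_213_s3

theorem t1206_A00pm_213_s3 : ∃ t, chk3 f_A00pm_213_s3 t 476 1010 1 = true := ex3_b k70_A00pm_213_s3 k71_A00pm_213_s3

theorem t1207_A00pm_213_s3 : ∃ t, chk3 f_A00pm_213_s3 t 238 1010 1 = true := ex3_a t1206_A00pm_213_s3 k72_A00pm_213_s3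

theorem t1208_A00pm_213_s3 : ∃ t, chk3 f_A00pm_213_s3 t 238 505 1 = true := ex3_b t1207_A00pm_213_s3 t1205_A00pm_213_s3

theorem t1209_A00pm_213_s3 : ∃ t, chk3 f_A00pm_213_s3 t 119 505 1 = true := ex3_a t1208_A00pm_213_s3 k77_A00pm_213_s3

theorem t1210_A00pm_213_s3 : ∃ t, chk3 f_A00pm_213_s3 t 119 252 1 = true := ex3_b k69_A00pm_213_s3 t1209_A00pm_213_s3

theorem t1211_A00pm_213_s3 : ∃ t, chk3 f_A00pm_213_s3 t 237 1009 1 = true := ex3_a k66_A00pm_213_s3 k67_A00pm_213_s3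

theorem t1212_A00pm_213_s3 : ∃ t, chk3 f_A00pm_213_s3 t 237 504 1 = true := ex3_b k65_A00pm_213_s3 t1211_A00pm_213_s3

theorem t1213_A00pm_213_s3 : ∃ t, chk3 f_A00pm_213_s3 t 118 504 1 = true := ex3_a k64_A00pm_213_s3 t1212_A00pm_213_s3

theorem t1214_A00pm_213_s3 : ∃ t, chk3 f_A00pm_213_s3 t 118 252 1 = true := ex3_b t1213_A00pm_213_s3 k68_A00pm_213_s3

theorem t1215_A00pm_213_s3 : ∃ t, chk3 f_A00pm_213_s3 t 59 252 1 = true := ex3_a t1214_A00pm_213_s3 t1210_A00pm_213_s3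

theorem t1216_A00pm_213_s3 : ∃ t, chk3 f_A00pm_213_s3 t 59 126 1 = true := ex3_b t1215_A00pm_213_s3 t1202_A00pm_213_s3

theorem t1217_A00pm_213_s3 : ∃ t, chk3 f_A00pm_213_s3 t 59 63 1 = true := ex3_b t1216_A00pm_213_s3 t1190_A00pm_213_s3

theorem t1218_A00pm_213_s3 : ∃ t, chk3 f_A00pm_213_s3 t 236 1007 1 = true := ex3_a k60_A00pm_213_s3 k61_A00pm_213_s3

theorem t1219_A00pm_213_s3 : ∃ t, chk3 f_A00pm_213_s3 t 236 503 1 = true := ex3_b k59_A00pm_213_s3 t1218_A00pm_213_s3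

theorem t1220_A00pm_213_s3 : ∃ t, chk3 f_A00pm_213_s3 t 118 503 1 = true := ex3_a t1219_A00pm_213_s3 k62_A00pm_213_s3

theorem t1221_A00pm_213_s3 : ∃ t, chk3 f_A00pm_213_s3 t 59 503 1 = true := ex3_a t1220_A00pm_213_s3 k63_A00pm_213_s3

theorem t1222_A00pm_213_s3 : ∃ t, chk3 f_A00pm_213_s3 t 59 251 1 = true := ex3_b k58_A00pm_213_s3 t1221_A00pm_213_s3

theorem t1223_A00pm_213_s3 : ∃ t, chk3 f_A00pm_213_s3 t 59 125 1 = true := ex3_b k57_A00pm_213_s3 t1222_A00pm_213_s3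

theorem t1224_A00pm_213_s3 : ∃ t, chk3 f_A00pm_213_s3 t 59 62 1 = true := ex3_b k56_A00pm_213_s3 t1223_A00pm_213_s3

theorem t1225_A00pm_213_s3 : ∃ t, chk3 f_A00pm_213_s3 t 59 31 1 = true := ex3_b t1224_A00pm_213_s3 t1217_A00pm_213_s3

theorem t1226_A00pm_213_s3 : ∃ t, chk3 f_A00pm_213_s3 t 471 1015 1 = true := ex3_b k53_A00pm_213_s3 k54_A00pm_213_s3

theorem t1227_A00pm_213_s3 : ∃ t, chk3 f_A00pm_213_s3 t 235 1015 1 = true := ex3_a k52_A00pm_213_s3 t1226_A00pm_213_s3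

theorem t1228_A00pm_213_s3 : ∃ t, chk3 f_A00pm_213_s3 t 235 507 1 = true := ex3_b k51_A00pm_213_s3 t1227_A00pm_213_s3

theorem t1229_A00pm_213_s3 : ∃ t, chk3 f_A00pm_213_s3 t 234 1014 1 = true := ex3_b k48_A00pm_213_s3 k49_A00pm_213_s3

theorem t1230_A00pm_213_s3 : ∃ t, chk3 f_A00pm_213_s3 t 234 507 1 = true := ex3_b t1229_A00pm_213_s3 k50_A00pm_213_s3

theorem t1231_A00pm_213_s3 : ∃ t, chk3 f_A00pm_213_s3 t 117 507 1 = true := ex3_a t1230_A00pm_213_s3 t1228_A00pm_213_s3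

theorem t1232_A00pm_213_s3 : ∃ t, chk3 f_A00pm_213_s3 t 117 253 1 = true := ex3_b k47_A00pm_213_s3 t1231_A00pm_213_s3

theorem t1233_A00pm_213_s3 : ∃ t, chk3 f_A00pm_213_s3 t 233 506 1 = true := ex3_b k44_A00pm_213_s3 k45_A00pm_213_s3

theorem t1234_A00pm_213_s3 : ∃ t, chk3 f_A00pm_213_s3 t 116 506 1 = true := ex3_a k43_A00pm_213_s3 t1233_A00pm_213_s3

theorem t1235_A00pm_213_s3 : ∃ t, chk3 f_A00pm_213_s3 t 116 253 1 = true := ex3_b t1234_A00pm_213_s3 k46_A00pm_213_s3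

theorem t1236_A00pm_213_s3 : ∃ t, chk3 f_A00pm_213_s3 t 58 253 1 = true := ex3_a t1235_A00pm_213_s3 t1232_A00pm_213_s3

theorem t1237_A00pm_213_s3 : ∃ t, chk3 f_A00pm_213_s3 t 58 126 1 = true := ex3_b k42_A00pm_213_s3 t1236_A00pm_213_s3

theorem t1238_A00pm_213_s3 : ∃ t, chk3 f_A00pm_213_s3 t 58 63 1 = true := ex3_b t1237_A00pm_213_s3 k55_A00pm_213_s3

theorem t1239_A00pm_213_s3 : ∃ t, chk3 f_A00pm_213_s3 t 471 1006 1 = true := ex3_b k39_A00pm_213_s3 k40_A00pm_213_s3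

theorem t1240_A00pm_213_s3 : ∃ t, chk3 f_A00pm_213_s3 t 235 1006 1 = true := ex3_a k38_A00pm_213_s3 t1239_A00pm_213_s3

theorem t1241_A00pm_213_s3 : ∃ t, chk3 f_A00pm_213_s3 t 117 1006 1 = true := ex3_a k37_A00pm_213_s3 t1240_A00pm_213_s3

theorem t1242_A00pm_213_s3 : ∃ t, chk3 f_A00pm_213_s3 t 117 503 1 = true := ex3_b t1241_A00pm_213_s3 k41_A00pm_213_s3

theorem t1243_A00pm_213_s3 : ∃ t, chk3 f_A00pm_213_s3 t 58 503 1 = true := ex3_a k36_A00pm_213_s3 t1242_A00pm_213_s3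

theorem t1244_A00pm_213_s3 : ∃ t, chk3 f_A00pm_213_s3 t 117 502 1 = true := ex3_a k34_A00pm_213_s3 k35_A00pm_213_s3

theorem t1245_A00pm_213_s3 : ∃ t, chk3 f_A00pm_213_s3 t 58 502 1 = true := ex3_a k33_A00pm_213_s3 t1244_A00pm_213_s3

theorem t1246_A00pm_213_s3 : ∃ t, chk3 f_A00pm_213_s3 t 58 251 1 = true := ex3_b t1245_A00pm_213_s3 t1243_A00pm_213_s3

theorem t1247_A00pm_213_s3 : ∃ t, chk3 f_A00pm_213_s3 t 58 125 1 = true := ex3_b k32_A00pm_213_s3 t1246_A00pm_213_s3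

theorem t1248_A00pm_213_s3 : ∃ t, chk3 f_A00pm_213_s3 t 58 62 1 = true := ex3_b k31_A00pm_213_s3 t1247_A00pm_213_s3

theorem t1249_A00pm_213_s3 : ∃ t, chk3 f_A00pm_213_s3 t 58 31 1 = true := ex3_b t1248_A00pm_213_s3 t1238_A00pm_213_s3

theorem t1250_A00pm_213_s3 : ∃ t, chk3 f_A00pm_213_s3 t 29 31 1 = true := ex3_a t1249_A00pm_213_s3 t1225_A00pm_213_s3

theorem t1251_A00pm_213_s3 : ∃ t, chk3 f_A00pm_213_s3 t 115 505 1 = true := ex3_b k27_A00pm_213_s3 k28_A00pm_213_s3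

theorem t1252_A00pm_213_s3 : ∃ t, chk3 f_A00pm_213_s3 t 115 252 1 = true := ex3_b k26_A00pm_213_s3 t1251_A00pm_213_s3

theorem t1253_A00pm_213_s3 : ∃ t, chk3 f_A00pm_213_s3 t 57 252 1 = true := ex3_a k25_A00pm_213_s3 t1252_A00pm_213_s3

theorem t1254_A00pm_213_s3 : ∃ t, chk3 f_A00pm_213_s3 t 57 126 1 = true := ex3_b t1253_A00pm_213_s3 k29_A00pm_213_s3

theorem t1255_A00pm_213_s3 : ∃ t, chk3 f_A00pm_213_s3 t 57 63 1 = true := ex3_b t1254_A00pm_213_s3 k30_A00pm_213_s3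

theorem t1256_A00pm_213_s3 : ∃ t, chk3 f_A00pm_213_s3 t 57 31 1 = true := ex3_b k24_A00pm_213_s3 t1255_A00pm_213_s3

theorem t1257_A00pm_213_s3 : ∃ t, chk3 f_A00pm_213_s3 t 56 251 1 = true := ex3_a k21_A00pm_213_s3 k22_A00pm_213_s3

theorem t1258_A00pm_213_s3 : ∃ t, chk3 f_A00pm_213_s3 t 56 125 1 = true := ex3_b k20_A00pm_213_s3 t1257_A00pm_213_s3

theorem t1259_A00pm_213_s3 : ∃ t, chk3 f_A00pm_213_s3 t 56 62 1 = true := ex3_b k19_A00pm_213_s3 t1258_A00pm_213_s3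

theorem t1260_A00pm_213_s3 : ∃ t, chk3 f_A00pm_213_s3 t 56 31 1 = true := ex3_b t1259_A00pm_213_s3 k23_A00pm_213_s3

theorem t1261_A00pm_213_s3 : ∃ t, chk3 f_A00pm_213_s3 t 28 31 1 = true := ex3_a t1260_A00pm_213_s3 t1256_A00pm_213_s3

theorem t1262_A00pm_213_s3 : ∃ t, chk3 f_A00pm_213_s3 t 14 31 1 = true := ex3_a t1261_A00pm_213_s3 t1250_A00pm_213_s3

theorem t1263_A00pm_213_s3 : ∃ t, chk3 f_A00pm_213_s3 t 14 15 1 = true := ex3_b k18_A00pm_213_s3 t1262_A00pm_213_s3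

theorem t1264_A00pm_213_s3 : ∃ t, chk3 f_A00pm_213_s3 t 7 15 1 = true := ex3_a t1263_A00pm_213_s3 t1185_A00pm_213_s3

theorem t1265_A00pm_213_s3 : ∃ t, chk3 f_A00pm_213_s3 t 7 7 1 = true := ex3_b k17_A00pm_213_s3 t1264_A00pm_213_s3

theorem t1266_A00pm_213_s3 : ∃ t, chk3 f_A00pm_213_s3 t 7 3 1 = true := ex3_b k16_A00pm_213_s3 t1265_A00pm_213_s3

theorem t1267_A00pm_213_s3 : ∃ t, chk3 f_A00pm_213_s3 t 55 250 1 = true := ex3_a k12_A00pm_213_s3 k13_A00pm_213_s3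

theorem t1268_A00pm_213_s3 : ∃ t, chk3 f_A00pm_213_s3 t 55 125 1 = true := ex3_b t1267_A00pm_213_s3 k14_A00pm_213_s3

theorem t1269_A00pm_213_s3 : ∃ t, chk3 f_A00pm_213_s3 t 27 125 1 = true := ex3_a k11_A00pm_213_s3 t1268_A00pm_213_s3

theorem t1270_A00pm_213_s3 : ∃ t, chk3 f_A00pm_213_s3 t 55 249 1 = true := ex3_b k9_A00pm_213_s3 k10_A00pm_213_s3

theorem t1271_A00pm_213_s3 : ∃ t, chk3 f_A00pm_213_s3 t 55 124 1 = true := ex3_b k8_A00pm_213_s3 t1270_A00pm_213_s3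

theorem t1272_A00pm_213_s3 : ∃ t, chk3 f_A00pm_213_s3 t 27 124 1 = true := ex3_a k7_A00pm_213_s3 t1271_A00pm_213_s3

theorem t1273_A00pm_213_s3 : ∃ t, chk3 f_A00pm_213_s3 t 27 62 1 = true := ex3_b t1272_A00pm_213_s3 t1269_A00pm_213_s3

theorem t1274_A00pm_213_s3 : ∃ t, chk3 f_A00pm_213_s3 t 27 31 1 = true := ex3_b t1273_A00pm_213_s3 k15_A00pm_213_s3

theorem t1275_A00pm_213_s3 : ∃ t, chk3 f_A00pm_213_s3 t 27 15 1 = true := ex3_b k6_A00pm_213_s3 t1274_A00pm_213_s3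

theorem t1276_A00pm_213_s3 : ∃ t, chk3 f_A00pm_213_s3 t 13 15 1 = true := ex3_a k5_A00pm_213_s3 t1275_A00pm_213_s3

theorem t1277_A00pm_213_s3 : ∃ t, chk3 f_A00pm_213_s3 t 6 15 1 = true := ex3_a k4_A00pm_213_s3 t1276_A00pm_213_s3

theorem t1278_A00pm_213_s3 : ∃ t, chk3 f_A00pm_213_s3 t 6 7 1 = true := ex3_b k3_A00pm_213_s3 t1277_A00pm_213_s3

theorem t1279_A00pm_213_s3 : ∃ t, chk3 f_A00pm_213_s3 t 6 3 1 = true := ex3_b k2_A00pm_213_s3 t1278_A00pm_213_s3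

theorem t1280_A00pm_213_s3 : ∃ t, chk3 f_A00pm_213_s3 t 3 3 1 = true := ex3_a t1279_A00pm_213_s3 t1266_A00pm_213_s3

theorem t1281_A00pm_213_s3 : ∃ t, chk3 f_A00pm_213_s3 t 3 1 1 = true := ex3_b k1_A00pm_213_s3 t1280_A00pm_213_s3

theorem t1282_A00pm_213_s3 : ∃ t, chk3 f_A00pm_213_s3 t 1 1 1 = true := ex3_a k0_A00pm_213_s3 t1281_A00pm_213_s3

theorem c_A00pm_213_s3 : CertF 0 536870912 536870912 536870912 1020054732 13421774 true true false .pnn 2 1 3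
    ndB0q2 ndB0q1 pcB3 cut_A00pm_213_s3 xt_A00pm_213_s3 :=
  certF1 (fam := true) (s1 := true) (s2 := false) (a := 2) (b := 1) (c := 3) (cn := .pnn) (n1 := ndB0q2) (n2 := ndB0q1) (pc := pcB3) (cut := cut_A00pm_213_s3) (xt := xt_A00pm_213_s3) (P1 := 0) (W1 := 536870912) (P2 := 536870912) (W2 := 536870912) (P3 := 1020054732) (W3 := 13421774)
    rfl (fun _ => rfl) t1282_A00pm_213_s3

theorem s_A00pm_213_s3 {κ x : ℝ} (hκ : κ * h0 = ken x) (hx : ((1020054732 : ℕ) : ℝ) / S ≤ x)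
    (hx' : x ≤ (((1020054732 : ℕ) : ℝ) + (13421774 : ℕ)) / S)
    (H : CutA (VFD κ) PP tK tL pcB (Cut.of [[⟨0, 1, 0, 26738688⟩, ⟨1, 1, 0, 26738688⟩, ⟨2, 2, 0, 2621440⟩], [⟨0, 0, 1, 46137344⟩, ⟨1, 1, 0, 2097152⟩, ⟨2, 1, 1, 46137344⟩, ⟨0, 0, 0, 1041207446⟩, ⟨0, 1, 0, 59055800⟩, ⟨2, 1, 0, 1041207446⟩, ⟨2, 2, 0, 59055800⟩], [⟨0, 1, 0, 2097152⟩, ⟨1, 0, 1, 46137344⟩, ⟨2, 1, 1, 46137344⟩, ⟨1, 0, 0, 1041207446⟩, ⟨1, 1, 0, 59055800⟩, ⟨2, 1, 0, 1041207446⟩, ⟨2, 2, 0, 59055800⟩]]) 2 1 3 0 0 (sgb true) (sgb false) x) :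
    AltA (VFD κ) PP tK tL pcB [⟨4, 0, 0, 3194381926⟩] 2 1 3 0 0 (sgb true) (sgb false) x :=
  strip_altAD (m := 3194381926) false rfl hκ (SH.κ0 hκ (SH.hx1 hx).le (SH.hx2 hx').le) (SH.hx1 hx).le (SH.hx2 hx') (covB02).cov (covB01).cov hx hx' c_A00pm_213_s3 H ((okx hx hx').extA (T := tt) (sideB hx hx') hκ rfl rfl (.O 2 true) (.O 1 false) (Or.inr rfl))

end Pool.Agent.Strip051.G.I9500_9625.Tab.St.C
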