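import Pool.Agent.Strip051.G.I9500_9625.Tab
import Pool.Agent.Strip051.PB.StripB

/-! # Strips, near vertex: certificates 0 (generated) -/

set_option linter.all false
set_option maxRecDepth 100000

namespace Pool.Agent.Strip051.G.I9500_9625.Tab.CS.BA00

open Pool.Agent.Strip051.PB Pool.Agent.Strip051.PB.T
open Pool.Agent.Strip051.G.I9500_9625.Tab

noncomputable def cut_pp_001_s : Cut := Cut.of [[⟨4, 0, 0, 1449551462⟩]]

noncomputable def f_pp_001_s : ℕ → ℕ → ℕ → ℕ → Bool := onCell 0 536870912 0 536870912 1020054732 13421774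
    (rowNE 3 eng mog cd0q0 cd0q0 pd1 0 true true true .up 0 0 1 (qsf 0 536870912 0 536870912 1) ndB0q0 ndB0q0 pcB1 cut_pp_001_s Ext.none)

def k0_pp_001_s : ∃ t, chk3 f_pp_001_s t 1 1 1 = true :=
  ⟨(l 4), by decide +kernel⟩

theorem c_pp_001_s : CertNE 0 536870912 0 536870912 1020054732 13421774 3 eng mog cd0q0 cd0q0 pd1 true true true .up 0 0 1
    ndB0q0 ndB0q0 pcB1 cut_pp_001_s Ext.none :=
  certNE0 (fam := true) (s1 := true) (s2 := true) (a := 0) (b := 0) (c := 1) (cn := .up) (n1 := ndB0q0) (n2 := ndB0q0) (pc := pcB1) (cut := cut_pp_001_s) (xt := Ext.none) (P1 := 0) (W1 := 536870912) (P2 := 0) (W2 := 536870912) (P3 := 1020054732) (W3 := 13421774) (N0 := 3) (En := eng) (mo := mog) (C1 := cd0q0) (C2 := cd0q0) (C3 := pd1)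
    rfl k0_pp_001_s

noncomputable def cut_pp_001_t : Cut := Cut.of [[⟨3, 0, 0, 2845415833⟩]]

noncomputable def f_pp_001_t : ℕ → ℕ → ℕ → ℕ → Bool := onCell 0 536870912 0 536870912 1020054732 13421774
    (rowNE 3 eng mog cd0q0 cd0q0 pd1 0 true true true .up 0 0 1 (qsf 0 536870912 0 536870912 1) ndB0q0 ndB0q0 pcB1 cut_pp_001_t Ext.none)

def k0_pp_001_t : ∃ t, chk3 f_pp_001_t t 1 1 1 = true :=
  ⟨(l 4), by decide +kernel⟩

theorem c_pp_001_t : CertNE 0 536870912 0 536870912 1020054732 13421774 3 eng mog cd0q0 cd0q0 pd1 true true true .up 0 0 1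
    ndB0q0 ndB0q0 pcB1 cut_pp_001_t Ext.none :=
  certNE0 (fam := true) (s1 := true) (s2 := true) (a := 0) (b := 0) (c := 1) (cn := .up) (n1 := ndB0q0) (n2 := ndB0q0) (pc := pcB1) (cut := cut_pp_001_t) (xt := Ext.none) (P1 := 0) (W1 := 536870912) (P2 := 0) (W2 := 536870912) (P3 := 1020054732) (W3 := 13421774) (N0 := 3) (En := eng) (mo := mog) (C1 := cd0q0) (C2 := cd0q0) (C3 := pd1)
    rfl k0_pp_001_t

noncomputable def cut_pp_011_s : Cut := Cut.of [[⟨4, 0, 0, 1449551462⟩], [⟨0, 0, 0, 38347922⟩, ⟨1, 1, 0, 38347922⟩, ⟨2, 1, 0, 38347922⟩]]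

noncomputable def f_pp_011_s : ℕ → ℕ → ℕ → ℕ → Bool := onCell 0 536870912 536870912 536870912 1020054732 13421774
    (rowNE 3 eng mog cd0q0 cd0q1 pd1 0 true true true .pnn 0 1 1 (qsf 0 536870912 536870912 536870912 1) ndB0q0 ndB0q1 pcB1 cut_pp_011_s Ext.none)

def k0_pp_011_s : ∃ t, chk3 f_pp_011_s t 1 1 1 = true :=
  ⟨(l 6), by decide +kernel⟩

theorem c_pp_011_s : CertNE 0 536870912 536870912 536870912 1020054732 13421774 3 eng mog cd0q0 cd0q1 pd1 true true true .pnn 0 1 1
    ndB0q0 ndB0q1 pcB1 cut_pp_011_s Ext.none :=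
  certNE0 (fam := true) (s1 := true) (s2 := true) (a := 0) (b := 1) (c := 1) (cn := .pnn) (n1 := ndB0q0) (n2 := ndB0q1) (pc := pcB1) (cut := cut_pp_011_s) (xt := Ext.none) (P1 := 0) (W1 := 536870912) (P2 := 536870912) (W2 := 536870912) (P3 := 1020054732) (W3 := 13421774) (N0 := 3) (En := eng) (mo := mog) (C1 := cd0q0) (C2 := cd0q1) (C3 := pd1)
    rfl k0_pp_011_s

noncomputable def cut_pp_011_t : Cut := Cut.of [[⟨3, 0, 0, 2845415833⟩], [⟨0, 0, 0, 38347922⟩, ⟨1, 1, 0, 38347922⟩, ⟨2, 1, 0, 38347922⟩]]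

noncomputable def f_pp_011_t : ℕ → ℕ → ℕ → ℕ → Bool := onCell 0 536870912 536870912 536870912 1020054732 13421774
    (rowNE 3 eng mog cd0q0 cd0q1 pd1 0 true true true .pnn 0 1 1 (qsf 0 536870912 536870912 536870912 1) ndB0q0 ndB0q1 pcB1 cut_pp_011_t Ext.none)

def k0_pp_011_t : ∃ t, chk3 f_pp_011_t t 1 1 1 = true :=
  ⟨(b (l 4) (a (b (l 4) (a (b (l 4) (a (a (b (l 4) (l 14)) (l 4)) (l 4))) (l 4))) (l 4))), by decide +kernel⟩

theorem c_pp_011_t : CertNE 0 536870912 536870912 536870912 1020054732 13421774 3 eng mog cd0q0 cd0q1 pd1 true true true .pnn 0 1 1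
    ndB0q0 ndB0q1 pcB1 cut_pp_011_t Ext.none :=
  certNE0 (fam := true) (s1 := true) (s2 := true) (a := 0) (b := 1) (c := 1) (cn := .pnn) (n1 := ndB0q0) (n2 := ndB0q1) (pc := pcB1) (cut := cut_pp_011_t) (xt := Ext.none) (P1 := 0) (W1 := 536870912) (P2 := 536870912) (W2 := 536870912) (P3 := 1020054732) (W3 := 13421774) (N0 := 3) (En := eng) (mo := mog) (C1 := cd0q0) (C2 := cd0q1) (C3 := pd1)
    rfl k0_pp_011_t

noncomputable def cut_pp_012_s : Cut := Cut.of [[⟨4, 0, 0, 1449551462⟩], [⟨0, 0, 0, 38347922⟩, ⟨1, 1, 0, 38347922⟩, ⟨2, 1, 0, 38347922⟩]]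

noncomputable def f_pp_012_s : ℕ → ℕ → ℕ → ℕ → Bool := onCell 0 536870912 536870912 536870912 1020054732 13421774
    (rowNE 3 eng mog cd0q0 cd0q1 pd2 0 true true true .pnp 0 1 2 (qsf 0 536870912 536870912 536870912 2) ndB0q0 ndB0q1 pcB2 cut_pp_012_s Ext.none)

def k0_pp_012_s : ∃ t, chk3 f_pp_012_s t 1 1 1 = true :=
  ⟨(l 6), by decide +kernel⟩

theorem c_pp_012_s : CertNE 0 536870912 536870912 536870912 1020054732 13421774 3 eng mog cd0q0 cd0q1 pd2 true true true .pnp 0 1 2
    ndB0q0 ndB0q1 pcB2 cut_pp_012_s Ext.none :=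
  certNE0 (fam := true) (s1 := true) (s2 := true) (a := 0) (b := 1) (c := 2) (cn := .pnp) (n1 := ndB0q0) (n2 := ndB0q1) (pc := pcB2) (cut := cut_pp_012_s) (xt := Ext.none) (P1 := 0) (W1 := 536870912) (P2 := 536870912) (W2 := 536870912) (P3 := 1020054732) (W3 := 13421774) (N0 := 3) (En := eng) (mo := mog) (C1 := cd0q0) (C2 := cd0q1) (C3 := pd2)
    rfl k0_pp_012_s

noncomputable def cut_pp_012_t : Cut := Cut.of [[⟨3, 0, 0, 2845415833⟩], [⟨0, 0, 0, 38347922⟩, ⟨1, 1, 0, 38347922⟩, ⟨2, 1, 0, 38347922⟩]]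

noncomputable def f_pp_012_t : ℕ → ℕ → ℕ → ℕ → Bool := onCell 0 536870912 536870912 536870912 1020054732 13421774
    (rowNE 3 eng mog cd0q0 cd0q1 pd2 0 true true true .pnp 0 1 2 (qsf 0 536870912 536870912 536870912 2) ndB0q0 ndB0q1 pcB2 cut_pp_012_t Ext.none)

def k0_pp_012_t : ∃ t, chk3 f_pp_012_t t 1 1 1 = true :=
  ⟨(b (l 4) (a (b (l 4) (a (b (l 4) (a (b (l 4) (a (l 14) (l 4))) (l 4))) (l 4))) (l 4))), by decide +kernel⟩

theorem c_pp_012_t : CertNE 0 536870912 536870912 536870912 1020054732 13421774 3 eng mog cd0q0 cd0q1 pd2 true true true .pnp 0 1 2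
    ndB0q0 ndB0q1 pcB2 cut_pp_012_t Ext.none :=
  certNE0 (fam := true) (s1 := true) (s2 := true) (a := 0) (b := 1) (c := 2) (cn := .pnp) (n1 := ndB0q0) (n2 := ndB0q1) (pc := pcB2) (cut := cut_pp_012_t) (xt := Ext.none) (P1 := 0) (W1 := 536870912) (P2 := 536870912) (W2 := 536870912) (P3 := 1020054732) (W3 := 13421774) (N0 := 3) (En := eng) (mo := mog) (C1 := cd0q0) (C2 := cd0q1) (C3 := pd2)
    rfl k0_pp_012_t

noncomputable def cut_pp_022_s : Cut := Cut.of [[⟨4, 0, 0, 1449551462⟩], [⟨0, 0, 0, 26843545⟩, ⟨1, 1, 0, 26843545⟩, ⟨2, 1, 0, 26843545⟩]]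

noncomputable def f_pp_022_s : ℕ → ℕ → ℕ → ℕ → Bool := onCell 0 536870912 0 536870912 1020054732 13421774
    (rowNE 3 eng mog cd0q0 cd0q2 pd2 0 true true true .pp 0 2 2 (qsf 0 536870912 0 536870912 2) ndB0q0 ndB0q2 pcB2 cut_pp_022_s Ext.none)

def k0_pp_022_s : ∃ t, chk3 f_pp_022_s t 1 1 1 = true :=
  ⟨(l 6), by decide +kernel⟩

theorem c_pp_022_s : CertNE 0 536870912 0 536870912 1020054732 13421774 3 eng mog cd0q0 cd0q2 pd2 true true true .pp 0 2 2
    ndB0q0 ndB0q2 pcB2 cut_pp_022_s Ext.none :=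
  certNE0 (fam := true) (s1 := true) (s2 := true) (a := 0) (b := 2) (c := 2) (cn := .pp) (n1 := ndB0q0) (n2 := ndB0q2) (pc := pcB2) (cut := cut_pp_022_s) (xt := Ext.none) (P1 := 0) (W1 := 536870912) (P2 := 0) (W2 := 536870912) (P3 := 1020054732) (W3 := 13421774) (N0 := 3) (En := eng) (mo := mog) (C1 := cd0q0) (C2 := cd0q2) (C3 := pd2)
    rfl k0_pp_022_s

noncomputable def cut_pp_022_t : Cut := Cut.of [[⟨3, 0, 0, 2845415833⟩], [⟨0, 0, 0, 26843545⟩, ⟨1, 1, 0, 26843545⟩, ⟨2, 1, 0, 26843545⟩]]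

noncomputable def f_pp_022_t : ℕ → ℕ → ℕ → ℕ → Bool := onCell 0 536870912 0 536870912 1020054732 13421774
    (rowNE 3 eng mog cd0q0 cd0q2 pd2 0 true true true .pp 0 2 2 (qsf 0 536870912 0 536870912 2) ndB0q0 ndB0q2 pcB2 cut_pp_022_t Ext.none)

def k0_pp_022_t : ∃ t, chk3 f_pp_022_t t 2 2 1 = true :=
  ⟨(a (b (l 6) (a (l 6) (b (l 6) (b (l 6) (a (a (l 6) (a (l 6) (l 15992568))) (a (a (l 15989688) (l 15989552)) (a (l 15991976) (l 15996800)))))))) (b (a (l 6) (b (l 6) (a (l 6) (b (l 6) (a (l 6) (c (l 15481640) (l 15455608))))))) (a (b (a (l 6) (b (l 6) (a (b (l 6) (l 15712872)) (b (l 15644352) (l 15744728))))) (a (b (a (c (l 15841672) (l 15824000)) (b (l 15783584) (l 15875792))) (a (b (l 15944240) (l 16051280)) (b (l 15987280) (l 16086480)))) (b (a (b (l 15809264) (l 15924976)) (b (l 15864464) (l 15961528))) (a (b (l 16017976) (a (l 16100056) (l 16118632))) (b (l 16076448) (a (l 16139160) (l 16161560))))))) (b (a (b (a (c (l 15538880) (l 15532576)) (c (l 15602432) (l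 15575472))) (a (b (l 15682256) (l 15784848)) (b (l 15728136) (l 15853688)))) (b (a (c (l 15673720) (l 15626304)) (b (l 15620776) (l 15753128))) (a (b (l 15802464) (l 15908792)) (b (l 15862768) (l 15970616))))) (a (b (a (b (l 15906736) (l 16005888)) (b (l 15956528) (l 16057560))) (a (b (l 16124168) (a (l 16185784) (l 16211752))) (b (l 16188160) (a (l 16239416) (l 16268704))))) (b (a (b (l 16013328) (l 16136984)) (b (l 16076624) (l 16201720))) (a (b (a (l 16201144) (l 16232744)) (a (l 16299552) (l 16331896))) (b (a (l 16265824) (l 16300320)) (a (l 16365680) (l 16400824)))))))))), by decide +kernel⟩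

def k1_pp_022_t : ∃ t, chk3 f_pp_022_t t 8 6 1 = true :=
  ⟨(a (b (b (l 6) (b (l 6) (a (l 16393832) (l 16376656)))) (b (a (b (a (l 16492864) (l 16475032)) (a (l 16495480) (l 16500536))) (b (a (l 16458040) (l 16441872)) (a (l 16506584) (l 16492416)))) (a (b (a (l 16526264) (l 16512960)) (a (a (l 16577216) (l 16571840)) (b (l 16574760) (l 16594008)))) (b (a (l 16510264) (l 16519040)) (a (b (l 16584304) (l 16583704)) (b (l 16573584) (l 16594928))))))) (b (b (a (l 6) (b (l 6) (l 16209608))) (a (b (l 16304288) (l 16299992)) (b (l 16274128) (a (l 16341472) (l 16331928))))) (b (a (b (a (l 16426384) (l 16412064)) (a (l 16478864) (l 16466440))) (b (a (l 16400416) (l 16392664)) (a (l 16456664) (l 16450720)))) (a (b (a (l 16486440) (l 16475880)) (a (b (l 16563392) (l 16585680)) (b (l 16554232) (l 16577440)))) (b (a (b (l 16496872) (l 16522704)) (b (l 16492336) (l 16519088))) (a (b (l 16547696) (l 16571824)) (b (l 16545016) (l 16570064)))))))), by decide +kernel⟩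

def k2_pp_022_t : ∃ t, chk3 f_pp_022_t t 9 6 1 = true :=
  ⟨(b (a (b (a (b (l 16120200) (l 16190144)) (a (l 16146888) (l 16144504))) (a (b (l 16258056) (l 16323744)) (b (l 16252888) (l 16336896)))) (b (a (b (l 16086536) (l 16183928)) (b (l 16116864) (l 16196248))) (a (b (l 16258232) (a (l 16327168) (l 16333928))) (b (a (l 16268816) (l 16278688)) (a (l 16343024) (l 16354296)))))) (a (b (a (b (a (l 16388272) (l 16386392)) (a (l 16448080) (l 16447824))) (b (a (l 16387040) (l 16390232)) (a (l 16450080) (l 16454832)))) (a (b (a (b (l 16491016) (l 16518688)) (b (l 16492024) (l 16520568))) (a (b (l 16545552) (l 16571528)) (b (l 16548288) (l 16575176)))) (b (a (b (l 16495488) (l 16524816)) (b (l 16501416) (l 16531528))) (a (b (l 16553360) (l 16581096)) (b (l 16560856) (c (l 16589688) (l 16589040))))))) (b (a (b (a (l 16395968) (l 16404208)) (a (l 16483064) (l 16495416))) (b (a (l 16414744) (l 16427424)) (a (b (l 16466808) (l 16500640)) (b (l 16480536) (l 16515064))))) (b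 (a (a (b (l 16509824) (l 16540696)) (b (l 16520672) (l 16552288))) (a (b (l 16533736) (l 16576568)) (b (l 16548864) (c (l 16582944) (l 16580896))))) (a (a (b (l 16582584) (c (l 16600544) (l 16599600))) (b (c (l 16583864) (l 16582408)) (c (l 16613728) (l 16612600)))) (a (b (c (l 16598448) (l 16596864)) (c (l 16629032) (l 16627800))) (a (b (l 16609880) (l 16651664)) (b (l 16618648) (l 16663400))))))))), by decide +kernel⟩

def k3_pp_022_t : ∃ t, chk3 f_pp_022_t t 16 14 1 = true :=
  ⟨(b (a (b (a (b (l 16589752) (a (l 16605728) (l 16616208))) (b (l 16591128) (l 16608280))) (a (b (a (l 16607808) (l 16617696)) (a (l 16611448) (l 16620776))) (b (a (l 16627624) (l 16637648)) (a (l 16630112) (l 16639496))))) (b (a (b (l 16603264) (l 16600736)) (b (l 16594416) (l 16613944))) (a (b (a (l 16640608) (l 16637440)) (a (l 16648992) (l 16653888))) (b (a (l 16634216) (l 16630888)) (a (l 16651344) (l 16648720)))))) (a (a (b (b (a (l 16616472) (l 16625464)) (a (c (l 16646992) (l 16640608))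 (b (l 16650888) (l 16654312)))) (b (a (b (l 16649320) (l 16653312)) (b (l 16658008) (l 16661952))) (a (c (l 16651744) (l 16636312)) (a (l 16645272) (l 16649464))))) (b (b (a (l 16634240) (l 16643032)) (a (a (l 16658928) (l 16642120)) (l 16648296))) (b (a (a (l 16645232) (l 16649248)) (b (l 16653312) (l 16657096))) (a (c (l 16657848) (l 16653264)) (b (l 16661176) (l 16665584)))))) (b (a (b (a (l 16651880) (l 16660856)) (a (l 16656552) (l 16664872))) (b (a (l 16667208) (l 16665272)) (a (l 16673328) (l 16680480)))) (a (b (a (b (l 16661152) (l 16664712)) (b (l 16669024) (l 16672312))) (a (b (l 16668672) (l 16672960)) (b (l 16676000) (l 16680080)))) (b (a (b (l 16676984) (l 16679968)) (l 16691624)) (a (b (l 16683360) (l 16687168)) (b (l 16690808) (l 16694312)))))))), by decide +kernel⟩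

def k4_pp_022_t : ∃ t, chk3 f_pp_022_t t 17 14 1 = true :=
  ⟨(b (a (b (a (b (l 16586104) (l 16606568)) (b (l 16599752) (l 16600160))) (a (b (a (l 16648688) (l 16645608)) (a (l 16645984) (l 16643360))) (b (a (l 16642768) (l 16640520)) (c (l 16659312) (l 16641632))))) (b (a (b (l 16595056) (a (l 16617976) (l 16616976))) (b (l 16594216) (a (l 16617040) (l 16618072)))) (a (b (a (l 16639064) (l 16638520)) (a (l 16659144) (l 16659056))) (b (a (l 16639040) (l 16640536)) (c (l 16639168) (l 16640672)))))) (a (b (a (b (a (l 16663240) (l 16661056)) (a (l 16679136) (l 16677672))) (b (a (l 16659112) (l 16657760)) (a (l 16676160) (l 16675256)))) (a (b (a (l 16698968) (b (l 16689272) (l 16696656))) (a (b (l 16698416) (l 16701584)) (b (l 16703640) (l 16709080)))) (b (a (b (l 16688280) (l 16696008)) (c (l 16690720) (l 16692976))) (a (b (l 16703448) (l 16710496)) (b (l 16703456) (c (l 16710008) (l 16732816))))))) (b (a (b (a (l 16657200) (l 16657568)) (a (b (l 16691744) (l 16700440))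 (b (l 16692448) (l 16701368)))) (b (a (l 16664248) (b (l 16677400) (l 16687328))) (a (b (l 16694224) (l 16703368)) (b (l 16696992) (l 16706368))))) (a (b (a (c (l 16691152) (l 16692936)) (c (l 16692608) (l 16694000))) (a (b (l 16714592) (c (l 16732168) (l 16712616))) (c (b (l 16726080) (l 16734112)) (b (l 16727272) (l 16735168))))) (b (a (c (l 16695104) (l 16706680)) (b (l 16704992) (a (l 16723448) (l 16725344)))) (a (c (b (l 16728904) (l 16737152)) (b (l 16729816) (l 16737936))) (c (b (l 16732680) (l 16741152)) (b (l 16733392) (l 16741752))))))))), by decide +kernel⟩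

def k5_pp_022_t : ∃ t, chk3 f_pp_022_t t 32 30 1 = true :=
  ⟨(b (b (a (a (b (a (l 16664584) (l 16668952)) (a (l 16669608) (l 16673960))) (b (l 16654344) (c (l 16682232) (l 16678360)))) (a (b (l 16662488) (l 16677944)) (b (l 16670240) (l 16685680)))) (a (a (b (a (l 16674912) (l 16679256)) (a (l 16680504) (l 16684840))) (b (a (l 16683504) (l 16687656)) (a (l 16689088) (l 16693232)))) (a (b (c (l 16695352) (l 16692024)) (a (l 16697280) (l 16701232))) (b (c (l 16702976) (l 16699840)) (c (l 16708360) (l 16705584)))))) (a (b (a (a (b (l 16686408) (c (l 16693816) (l 16691008))) (b (l 16690752) (l 16696760))) (a (b (l 16694992) (l 16690528)) (b (l 16699136) (l 16694672)))) (a (b (a (c (l 16699552) (l 16696984)) (c (l 16703848) (l 16701392))) (a (l 14) (c (l 16709608) (l 16707344)))) (b (a (c (l 16708040) (l 16705712)) (c (l 16712144) (l 16709920))) (a (c (l 16713816) (l 16711680)) (c (l 16717928) (l 16715912)))))) (b (a (b (c (l 16685512) (l 16703856)) (a (l 16698728) (l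 16702680))) (b (c (l 16693112) (l 16690688)) (c (l 16709472) (l 16707376)))) (a (b (a (c (l 16716152) (l 16714040)) (c (l 16720056) (l 16718064))) (a (c (l 16721944) (l 16720040)) (c (l 16725864) (l 16724080)))) (b (a (c (l 16723864) (l 16721984)) (c (l 16727576) (l 16725800))) (a (c (l 16729680) (l 16728016)) (b (l 16731128) (l 16734136)))))))), by decide +kernel⟩

def k6_pp_022_t : ∃ t, chk3 f_pp_022_t t 33 30 1 = true :=
  ⟨(b (b (a (a (b (l 16677560) (l 16693016)) (b (l 16684584) (l 16699936))) (b (a (l 16691416) (l 16698272)) (a (l 16704000) (a (l 16701032) (l 16704336))))) (a (a (b (c (l 16710200) (l 16707256)) (b (l 16691896) (l 16694760))) (b (c (l 16717032) (l 16714264)) (b (l 16698808) (l 16701672)))) (b (a (c (l 16702504) (l 16720888)) (c (l 16708744) (l 16706360))) (a (c (l 16707824) (l 16705608)) (c (l 16713944) (l 16711920)))))) (a (a (b (b (c (l 16700328) (l 16698104)) (c (l 16716680) (l 16714800))) (b (c (a (l 16731192) (l 16734704)) (a (l 16729520)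 (l 16733144))) (c (b (l 16726840) (l 16733728)) (b (l 16725400) (l 16731096))))) (c (b (b (l 16717624) (c (l 16713424) (l 16712600))) (b (c (l 16729648) (l 16728960)) (a (l 16733488) (l 16742056)))) (b (b (l 16705112) (a (l 16730584) (l 16733992))) (b (c (l 16728256) (l 16727552)) (a (l 16732272) (b (l 16744648) (l 16747744))))))) (b (b (a (c (l 16724040) (l 16722200)) (c (c (l 16719968) (l 16719152)) (c (l 16718328) (l 16717488)))) (a (c (c (l 16719792) (l 16719064)) (c (l 16718320) (l 16717568))) (c (a (l 16723976) (l 16726864)) (a (l 16722632) (l 16736104))))) (a (b (c (a (l 16734160) (l 16737272)) (a (l 16722432) (l 16736136))) (c (a (c (l 16740288) (l 16739792)) (c (l 16743384) (l 16742944))) (a (c (l 16739296) (l 16738792)) (c (l 16742496) (l 16742048))))) (c (b (a (l 16740288) (l 16747128)) (b (a (l 16755176) (l 16747608)) (a (l 16747688) (l 16750616)))) (b (a (l 16744488) (l 16746184)) (b (c (l 16745576) (l 16745168)) (a (l 16757448) (l 16749992))))))))), by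 decide +kernel⟩

def k7_pp_022_t : ∃ t, chk3 f_pp_022_t t 32 31 1 = true :=
  ⟨(b (a (b (a (l 14) (b (a (c (l 16719768) (l 16717800)) (c (l 16713416) (l 16722056))) (a (l 14) (a (l 14) (b (l 16728896) (l 14)))))) (l 14)) (b (a (b (a (b (l 16725520) (l 16723408)) (c (l 16726616) (l 16719776))) (a (c (b (l 16732752) (l 16736224)) (b (l 16731176) (l 16734752))) (c (b (l 16736704) (l 16740176)) (b (l 16735248) (l 16738840))))) (b (b (a (l 16733400) (l 16731944)) (a (l 16731304) (c (l 16741000) (l 16739696)))) (a (c (b (l 16740552) (l 16744032)) (b (l 16739224) (l 16742824))) (c (b (l 16744296) (l 16747792)) (b (l 16743096) (l 16746712)))))) (b (a (a (l 14) (a (b (l 16742248) (l 14)) (b (l 16739000) (a (l 16747688) (l 16748680))))) (c (a (b (l 16742480) (a (l 16750648) (l 16752568))) (b (a (l 16750560) (l 16752416)) (c (l 16750344) (l 16749944)))) (a (b (l 16741392) (a (l 16749664) (l 16751640))) (b (a (l 16749568) (l 16751488)) (c (l 16749528) (l 16749120)))))) (a (l 14)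 (a (a (b (c (l 16754744) (l 16753896)) (l 14)) (b (c (l 16751416) (l 16750640)) (b (b (l 16756360) (l 14)) (l 14)))) (b (c (a (b (l 16757504) (l 16759608)) (b (l 16759376) (l 16761480))) (a (b (l 16756760) (l 16758936)) (b (l 16758696) (l 16760880)))) (b (c (c (l 16760216) (l 16759280)) (c (l 16758352) (l 16756760))) (c (a (l 16761336) (c (l 16765944) (l 16765728))) (a (l 16763456) (l 16762776)))))))))) (a (l 14) (b (a (l 14) (b (a (l 14) (b (a (l 14) (a (b (c (l 16767624) (l 16767256)) (l 14)) (c (b (l 16765936) (b (l 16770280) (l 14))) (b (l 16768224) (l 16768000))))) (l 14))) (l 14))) (l 14)))), by decide +kernel⟩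

def k8_pp_022_t : ∃ t, chk3 f_pp_022_t t 66 124 1 = true :=
  ⟨(c (b (a (a (b (l 16741520) (l 16744640)) (b (l 16745056) (l 16748184))) (a (b (l 16748488) (l 16751632)) (b (l 16751824) (l 16754976)))) (a (a (b (l 16747952) (l 16746208)) (b (l 16751496) (l 16749768))) (b (a (l 16749712) (a (l 16757472) (l 16759128))) (a (a (l 16757616) (l 16759320)) (c (l 16756736) (l 16756448)))))) (b (a (a (b (l 16740232) (l 16743456)) (b (l 16743888) (l 16747120))) (a (b (l 16747440) (l 16750680)) (b (l 16750888) (l 16743656)))) (a (a (b (l 16746872) (l 16745248)) (b (l 16750544) (a (l 16753264) (l 16755080)))) (a (b (l 16748872) (a (l 16756872) (l 16758640))) (b (l 16752344) (c (l 16756152) (l 16750608))))))), by decide +kernel⟩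

def k9_pp_022_t : ∃ t, chk3 f_pp_022_t t 132 125 1 = true :=
  ⟨(b (a (c (b (a (l 16754248) (l 16756056)) (a (l 16752912) (b (l 16758968) (l 16760976)))) (b (a (l 16753392) (l 16755264)) (a (l 16752192) (l 16756688)))) (b (c (c (l 16753656) (l 16753312)) (c (l 16752960) (l 16752608))) (c (c (c (l 16757608) (l 16757472)) (b (l 16761496) (l 16758280))) (a (b (l 16760128) (l 16762216)) (b (l 16761960) (l 16764048)))))) (a (b (c (a (c (l 16757160) (l 16756880)) (c (l 16758960) (l 16761336))) (a (b (l 16760608) (l 16762792)) (c (l 16758464) (l 16758208)))) (c (a (b (l 16762856) (c (l 16767776) (l 16767592))) (b (c (l 16767392) (l 16767208)) (c (l 16766960) (l 16766816)))) (a (b (l 16765024) (l 16764696)) (b (l 16761672) (l 16766592))))) (b (b (c (c (l 16760584) (l 16762328)) (c (l 16760136) (l 16759912))) (c (a (l 16764312) (c (l 16768792) (l 16768624))) (a (l 16766536) (l 16763136)))) (b (c (a (a (l 16768648) (l 16766920)) (c (l 16768312) (l 16765568))) (a (l 16766160)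 (c (l 16765440) (l 16765320)))) (a (c (c (l 16769400) (l 16768632)) (c (l 16768520) (l 16765776))) (c (c (b (l 16769952) (l 16771064)) (l 16770424)) (c (l 16770344) (l 16770264)))))))), by decide +kernel⟩

def k10_pp_022_t : ∃ t, chk3 f_pp_022_t t 133 250 1 = true :=
  ⟨(b (a (c (c (l 16757096) (c (l 16756880) (l 16756744))) (a (l 16755488) (l 16757264))) (c (c (a (l 16764848) (l 16761256)) (a (l 16764616) (l 16761048))) (a (l 16759008) (l 16760728)))) (b (a (c (c (l 16765240) (l 16759760)) (a (l 16763760) (l 16765536))) (c (a (l 16762416) (l 16766704)) (c (l 16763000) (l 16762832)))) (a (c (c (l 16764608) (l 16764416)) (c (l 16761600) (l 16761400))) (c (a (l 16767056) (c (l 16766160) (l 16771288))) (a (l 16764144) (l 16765872)))))), by decide +kernel⟩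

def k11_pp_022_t : ∃ t, chk3 f_pp_022_t t 133 502 1 = true :=
  ⟨(b (a (c (a (l 16765720) (b (l 16769536) (l 16767960))) (a (l 16767992) (l 16764536))) (a (c (c (l 16766560) (l 16766456)) (l 16768912)) (c (c (l 16770832) (l 16768136)) (c (l 16768064) (l 16767984))))) (a (c (a (c (l 16765272) (l 16765144)) (c (l 16769600) (l 16766880))) (a (l 16767568) (c (l 16766784) (l 16766680)))) (c (a (c (b (l 16768128) (l 16771816)) (l 16771216)) (b (c (l 16772400) (l 16769736)) (a (l 16773040) (c (l 65196257799) (l 65733128679))))) (a (c (l 16771152) (l 16771080)) (a (l 16772416) (b (l 16770104) (c (l 65733128647) (l 65733128455)))))))), by decide +kernel⟩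

def k12_pp_022_t : ∃ t, chk3 f_pp_022_t t 133 1006 1 = true :=
  ⟨(a (a (c (c (l 16770368) (l 16769952)) (c (l 16769864) (l 16769776))) (c (c (b (l 16771208) (l 16772296)) (l 16771696)) (c (l 16772288) (l 16771904)))) (a (a (c (b (l 16772448) (l 16773544)) (b (l 16769744) (l 16773504))) (b (c (l 16773288) (l 16773240)) (b (a (l 16773888) (c (l 16776928) (l 16776920))) (a (a (l 78081161767) (b (l 16777040) (c (l 119957094807) (l 109756547527)))) (b (a (c (l 16777200) (l 16777192)) (l 4)) (l 4)))))) (b (a (b (c (l 16773856) (l 16776448)) (a (l 16776144) (b (c (l 16777072) (l 16777064)) (a (a (l 16777176) (l 130157642103)) (l 4))))) (a (b (a (l 83449870935) (b (l 16777056) (c (l 16777408) (l 130694513063)))) (c (l 271354691863) (l 274039046423))) (a (b (b (a (l 16777184) (l 133915738503)) (l 4)) (l 4)) (l 4)))) (b (a (a (b (a (l 16777104) (c (l 123178320295) (l 124252062119))) (c (l 187065958999) (l 191360926279))) (l 4)) (l 4)) (l 4))))), by decide +kernel⟩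

def k13_pp_022_t : ∃ t, chk3 f_pp_022_t t 133 1007 1 = true :=
  ⟨(b (a (a (c (c (l 16771688) (l 16769008)) (l 16772192)) (a (c (l 16772952) (l 16772888)) (a (a (l 16774776) (l 16774992)) (b (l 16773728) (c (l 16776912) (l 16776896)))))) (a (b (a (a (l 16776120) (b (c (l 16777048) (l 16777048)) (a (a (l 16777168) (l 105461580183)) (l 233773728151)))) (a (c (l 265449111815) (l 268133466375)) (l 4))) (a (a (a (b (l 16777088) (a (l 134989480327) (l 4))) (b (c (l 105998451127) (l 107072192951)) (l 4))) (l 4)) (l 4))) (l 4))) (a (a (a (c (l 16772344) (l 16772256)) (c (l 16774520) (l 16773160))) (b (a (c (l 16773792) (l 16773760)) (a (a (l 73249323447) (b (l 16777016) (c (l 100092871095) (l 104387838375)))) (b (a (c (l 16777184) (l 16777184)) (l 212835762647)) (l 4)))) (a (a (l 16776096) (b (c (l 16777032) (l 16777024)) (a (c (l 16777176) (l 16777176)) (l 199413989847)))) (a (a (a (b (l 131231383927) (l 4)) (l 4)) (l 4)) (l 4))))) (l 4))), by decide +kernel⟩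

def k14_pp_022_t : ∃ t, chk3 f_pp_022_t t 67 124 1 = true :=
  ⟨(a (c (b (b (a (l 16755064) (l 16752952)) (a (l 16752976) (a (l 16760584) (l 16762128)))) (a (b (c (l 16761704) (l 16750920)) (c (l 16761280) (c (l 16759792) (l 16759680)))) (b (c (l 16759584) (l 16759344)) (c (a (l 16762328) (l 16763864)) (a (l 16756896) (l 16763704)))))) (b (a (b (l 16754232) (l 16752256)) (b (l 16746992) (l 16755512))) (a (b (c (l 16750624) (l 16760808)) (a (l 16758544) (l 16760216))) (b (c (l 16753864) (l 16753616)) (a (l 16761856) (l 16763464)))))) (b (b (c (a (l 16755992) (c (l 16753800) (l 16753552))) (a (l 16750136) (l 16758416))) (a (c (c (l 16754040) (l 16753792)) (l 16758664)) (c (c (l 16762192) (l 16762008)) (a (l 16755720) (l 16757216))))) (b (a (c (c (l 16763912) (l 16762424)) (a (l 16756120) (l 16762920))) (c (c (a (l 16764808) (l 16766240)) (a (l 16759424) (l 16760888))) (a (l 16764448) (l 16765952)))) (b (a (c (c (l 16765224) (l 16765096)) (l 16766856)) (c (c (l 16770776)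 (l 16768080)) (a (l 16767208) (l 16768712)))) (a (c (c (l 16769656) (l 16766944)) (a (l 16760768) (l 16767568))) (a (c (l 16771840) (l 16769112)) (a (c (l 16770312) (l 16770248)) (b (l 16773160) (a (l 16776552) (c (l 16776888) (l 16776880))))))))))), by decide +kernel⟩

def k15_pp_022_t : ∃ t, chk3 f_pp_022_t t 134 250 1 = true :=
  ⟨(b (c (a (c (b (l 16762728) (l 16766928)) (a (l 16762696) (l 16764320))) (a (b (l 16765024) (l 16770224)) (c (b (l 16771872) (l 16768544)) (l 16769464)))) (b (a (l 16764240) (c (l 16765624) (l 16765504))) (a (c (l 16764344) (l 16764192)) (a (l 16766752) (l 16770992))))) (a (c (b (a (l 16768344) (c (l 16767376) (l 16767288))) (a (c (l 16770408) (l 16767704)) (c (l 16772008) (l 16769336)))) (b (a (l 16765480) (l 16769776)) (a (l 16770200) (c (l 16769280) (l 16769232))))) (a (a (b (c (l 16771152) (l 16768392)) (c (b (l 16770040) (l 16773688)) (l 16773120))) (b (c (l 16771936) (l 16769208)) (a (b (l 16773232) (b (l 16776632) (b (l 16777016)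 (c (l 100629742055) (l 83449867735))))) (b (l 16773632) (b (c (l 16777008) (l 16777000)) (a (b (l 126399545815) (l 4)) (l 4))))))) (b (a (c (l 16772720) (l 16770024)) (b (l 16774272) (a (l 16773784) (c (c (l 16776792) (l 16776784)) (l 19562232727))))) (b (a (b (l 16775280) (a (l 16776904) (a (b (l 16777072) (l 132305125847)) (b (l 16777216) (l 4))))) (a (b (a (l 16777056) (b (l 16777128) (l 190824055239))) (l 4)) (a (c (l 262227886423) (l 265449111895)) (l 4)))) (b (b (a (a (a (l 16777168) (l 175791669735)) (l 4)) (l 4)) (l 4)) (l 4))))))), by decide +kernel⟩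

def k16_pp_022_t : ∃ t, chk3 f_pp_022_t t 135 250 1 = true :=
  ⟨(b (a (a (c (b (l 16770736) (b (l 16772176) (l 16773152))) (b (l 16767960) (l 16772912))) (b (a (c (l 16769248) (l 16769136)) (c (l 16769992) (l 16769912))) (b (a (l 16774592) (a (l 16773856) (c (l 16777008) (l 16776824)))) (b (a (l 16774032) (a (a (l 16777096) (a (l 75396809303) (l 133378867783))) (a (l 191897797303) (l 4)))) (a (a (l 16776952) (b (a (l 16777112) (l 16777240)) (l 182234120855))) (l 4)))))) (b (a (a (c (l 16773352) (l 16770680)) (b (l 16773592) (b (c (l 16776920) (l 16776904)) (a (b (l 16777096) (l 122641447047)) (a (l 211762021047) (l 4)))))) (b (a (b (l 16774088) (a (l 16776992) (a (l 80765515911) (l 173644186327)))) (a (a (b (l 16777136) (l 4)) (l 308398783863)) (l 356180294423))) (a (c (b (l 248806113607) (l 4)) (l 327189262919)) (l 4)))) (a (b (a (a (b (l 16776976) (c (l 147874382647) (l 155390575367))) (c (b (l 105461577927) (l 4)) (l 304640686695))) (l 4)) (l 4)) (l 4)))) (a (b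 (a (a (a (b (l 16773552) (b (l 16776928) (a (a (l 107072191703) (l 146800640599)) (l 212835762887)))) (b (l 16773936) (a (b (b (l 16777088) (l 141431931383)) (l 4)) (c (l 250416726311) (l 274575917127))))) (b (a (b (l 16776696) (a (l 16777080) (b (l 16777152) (l 219278213559)))) (c (b (l 16777048) (l 197803377383)) (b (l 16777040) (l 334168587991)))) (l 4))) (b (a (a (c (a (l 236994953479) (l 296050753943)) (l 320746814871)) (l 4)) (l 4)) (l 4))) (l 4)) (l 4))), by decide +kernel⟩

def k17_pp_022_t : ∃ t, chk3 f_pp_022_t t 67 251 1 = true :=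
  ⟨(a (b (a (b (a (a (c (l 16773016) (l 16771928)) (b (c (l 16769696) (l 16769608)) (c (l 16773368) (l 16770704)))) (b (b (a (l 16772832) (l 16774960)) (a (l 16774680) (a (l 16776600) (c (l 16776992) (l 16776984))))) (b (a (l 16775216) (b (a (l 16777000) (a (l 118346482103) (l 4))) (a (a (l 16777144) (l 151632478711)) (l 4)))) (a (a (l 16775544) (b (a (l 16777032) (l 16777184)) (a (l 95261030343) (l 4)))) (c (l 291218915767) (l 295513883047)))))) (a (a (a (b (l 16774696) (b (l 16775520) (b (a (l 16777120) (l 133915737287)) (c (l 202635215415) (l 204782699063))))) (b (l 16775120) (b (b (a (l 16777008) (l 16777424)) (a (a (l 16777192) (l 16777408)) (l 4))) (l 4)))) (a (b (b (l 16776576) (b (l 16776976) (a (l 16777128) (l 140358189543)))) (a (c (l 288534561159) (l 291218915719)) (l 4))) (b (b (c (l 16776968) (l 16776960)) (b (a (l 90966064343) (l 4)) (l 4))) (l 4)))) (b (b (a (b (a (a (l 16777136) (l 144116285943)) (l 4)) (c (l 287460819287) (l 284239593815))) (l 4))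 (l 4)) (l 4)))) (b (a (b (a (b (a (l 16775568) (a (b (l 16777048) (l 122104578503)) (b (l 16777200) (l 4)))) (a (b (a (l 16777152) (l 165591122391)) (l 227331277431)) (l 4))) (l 4)) (l 4)) (l 4)) (l 4))) (l 4)) (l 4)), by decide +kernel⟩

def k18_pp_022_t : ∃ t, chk3 f_pp_022_t t 132 1008 1 = true :=
  ⟨(a (c (a (c (l 16767392) (l 16767256)) (c (c (l 16769232) (l 16769176)) (l 16769424))) (a (c (l 16764488) (l 16764352)) (c (l 16768992) (l 16768888)))) (b (a (c (c (l 16770424) (l 16767720)) (l 16770872)) (c (c (l 16773496) (l 16772136)) (c (l 16772088) (l 16772040)))) (a (c (c (l 16772872) (l 16771496)) (c (l 16771440) (l 16771376))) (c (a (l 16774176) (b (l 16773456) (c (l 65196258631) (l 16775664)))) (a (l 16772792) (a (l 16773488) (c (l 16775584) (l 63048774599)))))))), by decide +kernel⟩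

def k19_pp_022_t : ∃ t, chk3 f_pp_022_t t 132 1009 1 = true :=
  ⟨(b (a (c (a (c (l 16769104) (l 16771616)) (c (l 16772224) (l 16770848))) (a (l 16768832) (c (l 16770776) (l 16770696)))) (a (a (c (l 16773544) (l 16772144)) (c (c (l 16773144) (l 16773120)) (l 16774384))) (a (b (c (l 16773728) (l 16773696)) (a (l 37815842535) (b (c (l 16777000) (l 16776992)) (a (c (l 16777320) (a (l 16777120) (l 16777200))) (c (l 192971538791) (l 195119022439)))))) (b (b (a (l 16775552) (a (c (l 16777160) (a (l 16777128) (l 16777200))) (c (l 195119022455) (l 196729635191)))) (a (a (l 16777040) (b (a (l 16777136) (l 16777216)) (l 168812347719))) (l 4))) (b (a (a (a (a (l 82376129575) (l 146800640295)) (l 208003924327)) (l 4)) (l 4)) (l 4)))))) (a (a (c (c (l 16771576) (l 16770176)) (c (l 16770096) (l 16770008))) (c (c (c (l 16772088) (l 16772064)) (l 16773336)) (a (l 16771480) (l 16772424)))) (a (b (a (c (l 16773112) (l 16773056)) (a (l 16775736) (a (l 16775424) (c (l 16776952) (l 16776944)))))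 (a (c (l 16775016) (l 16773664)) (a (b (l 16775528) (a (l 16777024) (a (b (l 16777120) (l 16777224)) (b (l 16777208) (l 4))))) (a (b (a (l 16777112) (b (l 16777160) (l 176865411303))) (l 4)) (c (l 264375369927) (l 267059724487)))))) (a (a (b (a (b (l 16777032) (a (b (l 16777184) (l 4)) (l 194045280615))) (b (c (c (l 74859938183) (l 79691776375)) (c (l 79691775063) (l 79691775063))) (l 4))) (l 4)) (l 4)) (l 4))))), by decide +kernel⟩

def k20_pp_022_t : ∃ t, chk3 f_pp_022_t t 264 505 1 = true :=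
  ⟨(b (a (b (c (c (c (l 16771448) (l 16771416)) (l 16771368)) (a (l 16770800) (l 16771752))) (a (l 14) (a (l 14) (c (l 16774600) (l 16773232))))) (a (a (c (b (l 16772552) (l 16775056)) (b (l 16772472) (l 16775024))) (b (c (l 16774320) (l 16772944)) (a (b (l 16775080) (b (l 16776848) (a (l 16777096) (b (l 16777136) (l 139284447479))))) (b (l 16775312) (b (c (l 16777072) (l 16777072)) (a (b (l 92576678135) (l 4)) (l 4))))))) (a (b (c (l 16774768) (l 16773416)) (b (b (l 16775512) (b (c (l 16777040) (l 16777032)) (a (l 16777080) (c (l 138747576615) (l 139821318439))))) (a (a (b (b (l 16777168) (l 199413989607)) (l 4)) (c (l 267059724471) (l 269744079031))) (l 4)))) (b (b (l 16775560) (a (l 16775400) (c (l 16776936) (l 16776928)))) (b (b (a (a (l 16777104) (b (l 16777144) (l 148948123895))) (a (b (l 16777344) (l 4)) (l 4))) (c (l 292292657367) (l 294977011927))) (l 4)))))) (a (l 14) (a (b (b (b (a (b (c (l 16777032) (l 16777024)) (a (l 16777072) (c (l 131768254759) (l 138210705687))))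 (c (l 287997690071) (l 290682044631))) (a (a (l 14) (l 4)) (l 4))) (l 4)) (l 4)) (l 4)))), by decide +kernel⟩

def k21_pp_022_t : ∃ t, chk3 f_pp_022_t t 265 505 1 = true :=
  ⟨(b (b (b (b (a (a (a (l 16775216) (c (l 16776984) (l 16776976))) (b (a (a (c (l 16777208) (l 16777208)) (l 4)) (l 4)) (l 4))) (l 4)) (a (a (a (l 16775520) (a (a (l 16777104) (b (l 16777152) (l 152706220295))) (a (b (l 16777224) (l 4)) (l 4)))) (l 4)) (l 4))) (a (a (b (a (b (c (l 16777048) (l 16777040)) (a (l 16777088) (c (l 140895060279) (l 147337511207)))) (c (l 293366399207) (l 299271979223))) (a (a (b (c (l 16777200) (l 16777200)) (l 225183793463)) (l 4)) (l 4))) (l 4)) (l 4))) (l 4)) (l 4)), by decide +kernel⟩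

def k22_pp_022_t : ∃ t, chk3 f_pp_022_t t 133 252 1 = true :=
  ⟨(b (a (b (a (a (a (a (b (l 16774432) (b (l 16774000) (b (l 16777048) (c (l 130157642167) (a (l 16777392) (l 235384340759)))))) (b (l 16774656) (b (l 16774216) (b (b (l 16777176) (l 176865411399)) (l 4))))) (b (c (l 16773696) (l 16773656)) (b (b (c (l 16777016) (l 16777008)) (a (c (l 16777168) (l 16777168)) (c (l 201024602487) (l 203172086135)))) (l 4)))) (a (b (b (l 16775144) (a (l 68417485271) (b (l 16777000) (c (l 95261030231) (l 95797902455))))) (a (b (b (c (l 135526351287) (l 136600093111)) (l 4)) (l 4)) (l 4))) (b (a (b (l 16774160) (b (c (l 16777176) (l 16777168)) (l 4))) (c (b (l 16776992) (l 282628980967)) (b (l 16776984) (l 284776464615)))) (l 4)))) (a (a (b (b (a (b (l 16777072) (b (l 114588385639) (l 4))) (b (c (l 97408516519) (l 97945387431)) (l 4))) (l 4)) (l 4)) (l 4)) (l 4))) (l 4)) (l 4)) (l 4)), by decide +kernel⟩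

def k23_pp_022_t : ∃ t, chk3 f_pp_022_t t 66 253 1 = true :=
  ⟨(l 4), by decide +kernel⟩

def k24_pp_022_t : ∃ t, chk3 f_pp_022_t t 67 126 1 = true :=
  ⟨(l 4), by decide +kernel⟩

def k25_pp_022_t : ∃ t, chk3 f_pp_022_t t 33 127 1 = true :=
  ⟨(l 4), by decide +kernel⟩

def k26_pp_022_t : ∃ t, chk3 f_pp_022_t t 34 60 1 = true :=
  ⟨(a (b (a (b (l 16705216) (b (l 16708248) (l 16710424))) (b (l 16722840) (c (l 16717192) (l 16715040)))) (c (a (b (l 16714992) (l 16730400)) (b (l 16721328) (l 16736448))) (b (a (l 16712840) (l 16719464)) (a (l 16728584) (a (l 16722800) (l 16725976)))))) (b (a (b (a (l 16716984) (l 16717344)) (c (l 16722520) (l 16722080))) (b (a (l 16717792) (l 16718328)) (a (l 16724368) (l 16735616)))) (a (c (b (l 16727664) (c (l 16732280) (l 16731664))) (b (l 16736616) (b (l 16729520) (l 16731952)))) (b (c (l 16740880) (l 16742088)) (c (a (l 16735728) (l 16736984)) (a (l 16735232) (l 16737872))))))), by decide +kernel⟩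

def k27_pp_022_t : ∃ t, chk3 f_pp_022_t t 68 61 1 = true :=
  ⟨(b (a (b (c (a (l 16723896) (l 16726768)) (a (l 16722384) (l 16725368))) (b (c (l 16740136) (l 16738952)) (c (l 16746944) (l 16745920)))) (b (a (c (l 16729648) (l 16728368)) (c (l 16743032) (l 16731392))) (c (a (l 16750944) (b (l 16736608) (l 16739344))) (a (l 16744752) (l 16752880))))) (a (b (b (c (a (l 16755016) (l 16736768)) (c (l 16745256) (l 16734328))) (c (a (l 16736984) (l 16750176)) (a (l 16757176) (l 16739008)))) (a (b (c (l 16750432) (l 16739296)) (c (l 16758680) (l 16752920))) (b (c (l 16753144) (l 16752600)) (c (c (l 16756264) (l 16756056)) (l 16755744))))) (a (b (a (c (l 16755960) (l 16750040)) (b (l 16750248) (l 16759744))) (b (c (l 16761000) (l 16755312)) (c (a (l 16758128) (l 16764656)) (l 16763696)))) (c (b (c (l 16759400) (l 16759128)) (b (a (l 16757680) (l 16758968)) (c (l 16766616) (l 16766504)))) (b (b (l 16741504) (l 16754952)) (a (b (l 16746824) (l 16760432)) (b (l 16758640) (l 16761736)))))))),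 by decide +kernel⟩

def k28_pp_022_t : ∃ t, chk3 f_pp_022_t t 69 61 1 = true :=
  ⟨(b (c (a (b (a (l 16745912) (l 16748688)) (b (c (l 16751392) (l 16751040)) (c (l 16754000) (l 16753712)))) (b (a (l 16756592) (c (l 16742416) (l 16742720))) (a (b (l 16755072) (l 16757600)) (b (l 16757048) (l 16764952))))) (a (b (a (l 16744896) (l 16747816)) (a (l 16755744) (l 16757184))) (b (a (l 16750600) (l 16753256)) (a (c (l 16755984) (l 16755752)) (b (l 16746568) (l 16759624)))))) (b (a (a (c (b (l 16755256) (l 16763264)) (b (l 16744264) (l 16757648))) (c (b (l 16763024) (l 16768344)) (b (l 16757392) (l 16765464)))) (a (b (c (l 16765416) (l 16759888)) (c (c (l 16768088) (l 16762760)) (l 16770504))) (b (c (c (l 16762320) (l 16762368)) (l 16767472)) (a (c (l 16769680) (l 16764344)) (b (l 16772664) (a (l 16771096) (b (l 16776528) (c (l 16777136) (l 16777128))))))))) (a (a (c (b (c (l 16766160) (l 16760800)) (a (l 16771040) (l 16772248))) (b (l 16765856) (c (l 16768936) (l 16770192))))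 (b (a (c (l 16767912) (l 16762504)) (c (l 16769080) (l 16763720))) (b (b (c (l 16770280) (l 16770216)) (a (l 16770400) (a (l 16776520) (c (l 16777040) (l 16777032))))) (a (a (b (l 16776096) (l 86671094983)) (b (l 16776680) (b (l 245048015399) (l 196729636087)))) (b (a (a (l 124252059943) (l 277797141271)) (l 322357418679)) (l 4)))))) (b (a (b (c (l 16772688) (l 16769992)) (a (c (l 16770896) (l 16765608)) (c (b (a (l 16776608) (l 16777088)) (l 271891559911)) (b (l 102777221975) (l 271891560631))))) (b (a (b (c (l 16776568) (l 16776544)) (a (l 43721408327) (l 289608301079))) (a (c (l 277797135063) (l 276723390839)) (l 4))) (a (c (l 305714413767) (l 300882590951)) (l 4)))) (a (b (a (a (b (l 94724158935) (l 293366392023)) (c (l 289608294055) (l 286923936151))) (l 4)) (l 4)) (l 4)))))), by decide +kernel⟩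

def k29_pp_022_t : ∃ t, chk3 f_pp_022_t t 35 60 1 = true :=
  ⟨(a (c (b (b (a (l 16718712) (l 16720912)) (a (l 16736400) (c (l 16728264) (l 16728640)))) (a (b (a (l 16732120) (l 16733416)) (a (l 16748856) (l 16750376))) (b (a (l 16734840) (l 16746936)) (a (l 16757280) (c (l 16753736) (l 16743432)))))) (b (a (b (l 16719968) (l 16727000)) (b (l 16721824) (l 16739704))) (a (b (l 16749376) (a (l 16739120) (l 16740504))) (b (a (l 16735520) (l 16736992)) (b (l 16762200) (l 16760184)))))) (b (b (a (c (l 16734656) (l 16724832)) (c (l 16738880) (l 16728872))) (a (c (c (l 16731760) (l 16732016)) (l 16742896)) (c (a (l 16735160) (l 16748024)) (l 16747176)))) (a (c (b (a (l 16748760) (l 16750872)) (c (a (l 16755760) (l 16758000)) (a (l 16745408) (l 16758096)))) (b (a (l 16738696) (l 16740728)) (c (a (l 16745544) (l 16758192)) (a (l 16745688) (l 16758288))))) (b (c (a (l 16753232) (l 16759656)) (a (l 16743008) (l 16755928))) (b (a (c (l 16758720) (l 16748400)) (c (l 16761296)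 (l 16750912))) (a (c (l 16762280) (l 16772856)) (a (a (l 16763936) (l 16764600)) (b (l 16775200) (c (l 44795134791) (l 43721392343)))))))))), by decide +kernel⟩

def k30_pp_022_t : ∃ t, chk3 f_pp_022_t t 35 122 1 = true :=
  ⟨(a (a (c (b (a (c (l 16754512) (l 16754760)) (c (l 16756272) (l 16756464))) (a (b (l 16758768) (l 16766768)) (b (l 16765896) (c (l 16763472) (l 16763528))))) (a (b (l 16755136) (b (l 16748600) (l 16761720))) (b (l 16764624) (b (l 16760864) (l 16768856))))) (b (a (b (b (l 16761408) (l 16762912)) (c (l 16759744) (l 16759976))) (b (c (l 16758736) (l 16769464)) (c (l 16767080) (l 16761984)))) (b (a (c (l 16770552) (l 16768064)) (a (c (l 16764328) (l 16764400)) (b (l 16769976) (a (l 16771216) (b (l 16776656) (l 138747548567)))))) (a (b (c (l 16770152) (l 16764960)) (a (a (l 16776056) (l 43721409927)) (b (a (l 16776792) (l 138747570295)) (b (l 292829526215) (l 4))))) (b (a (b (a (l 16776440) (l 16777024)) (a (l 43721403479) (c (l 215520117879) (l 141968764071))))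 (c (l 287460802327) (l 284776444343))) (l 4)))))) (b (a (a (b (c (l 16760872) (l 16771512)) (c (c (l 16764088) (l 16764120)) (l 16772040))) (b (c (l 16768464) (l 16763304)) (b (a (l 16770360) (c (l 110830283927) (b (l 16776448) (l 187602808983)))) (a (b (a (l 16776512) (l 16777144)) (a (l 138210681879) (l 4))) (b (l 284239579575) (l 4)))))) (b (a (a (c (l 16766424) (l 16765144)) (b (l 16770808) (b (l 190287178807) (l 285850191191)))) (b (a (b (l 44258274391) (c (l 137673793719) (l 139284405479))) (l 296050741271)) (l 4))) (a (a (a (b (l 267596585863) (l 4)) (l 4)) (l 4)) (l 4)))) (a (b (a (b (a (a (l 16776080) (l 43721407127)) (b (a (l 16776888) (l 138210676551)) (l 283165849335))) (a (c (l 270817809527) (l 270280936423)) (l 4))) (l 4)) (l 4)) (l 4)))), by decide +kernel⟩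

def k31_pp_022_t : ∃ t, chk3 f_pp_022_t t 35 123 1 = true :=
  ⟨(a (b (a (b (a (a (c (l 16763776) (l 16763872)) (c (l 16770016) (l 16764840))) (b (a (l 16773000) (b (l 16765832) (a (l 16776760) (l 138210702711)))) (a (b (a (l 16776392) (l 16776936)) (a (l 43721405911) (l 305714428615))) (c (l 286923933815) (l 284239586183))))) (a (b (a (c (l 16765808) (l 16765808)) (a (b (l 16776728) (l 269207206183)) (c (l 268133460071) (l 268133458407)))) (a (a (b (l 43721406791) (l 298735098871)) (a (l 288534555767) (l 317525574839))) (l 4))) (a (a (b (l 311620003623) (l 4)) (l 4)) (l 4)))) (b (a (b (a (b (a (l 43721404695) (l 314841234327)) (l 312156874791)) (l 4)) (l 4)) (l 4)) (l 4))) (l 4)) (l 4)), by decide +kernel⟩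

def k32_pp_022_t : ∃ t, chk3 f_pp_022_t t 68 248 1 = true :=
  ⟨(b (a (a (c (c (l 16756608) (l 16756408)) (l 16761352)) (c (c (l 16764552) (l 16759168)) (a (l 16758248) (l 16759632)))) (a (c (c (l 16769120) (l 16767056)) (b (l 16760864) (c (l 16762528) (l 16762448)))) (a (c (c (l 16769032) (l 16763736)) (l 16771504)) (b (a (l 16769104) (l 16769736)) (a (l 16773328) (b (l 16776168) (c (l 16776936) (l 16776928)))))))) (a (c (a (c (l 16766320) (l 16764872)) (c (a (l 16767048) (l 16768376)) (l 16768944))) (a (a (l 16758696) (l 16765384)) (b (l 16766656) (a (l 16762416) (l 16763816))))) (a (b (a (c (l 16768840) (l 16763472)) (c (l 16770136) (l 16764816))) (a (c (l 16770488) (l 16770424)) (a (b (l 16776264) (a (l 97408513879) (b (l 16777048) (l 319673073143)))) (b (c (b (l 16776712) (l 16777080)) (l 42110810983)) (c (l 309472522663) (l 304640680887)))))) (b (a (a (b (l 16775896) (l 72712450855)) (b (l 16776536) (a (b (l 16776984) (l 135526351751)) (b (l 91502936951) (l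 4))))) (b (a (a (l 105998448583) (c (l 85060480967) (l 85060480983))) (l 310009390375)) (l 4))) (a (b (a (c (l 284239590919) (l 282092105095)) (l 4)) (l 4)) (l 4)))))), by decide +kernel⟩

def k33_pp_022_t : ∃ t, chk3 f_pp_022_t t 68 249 1 = true :=
  ⟨(a (b (a (c (c (b (l 16767488) (l 16771832)) (b (l 16762160) (l 16769152))) (a (b (l 16761296) (l 16768344)) (a (l 16768528) (l 16771864)))) (b (a (c (l 16769512) (l 16769416)) (a (b (l 16770056) (l 16770936)) (b (l 16775984) (c (b (l 16776648) (l 16777032)) (l 42110810791))))) (a (a (c (l 16770904) (l 16770864)) (b (l 16771136) (b (c (l 16777016) (l 16777000)) (a (a (l 16777112) (l 154853704375)) (l 4))))) (a (b (a (l 89355450103) (b (l 16777000) (a (l 133915738791) (l 4)))) (l 341147905015)) (c (l 319136198871) (l 312693749063)))))) (a (b (a (c (l 16772888) (l 16770200)) (b (a (l 16770840) (c (b (l 16776576) (l 16776992)) (l 42647681511))) (a (b (l 16774152) (a (l 16777040) (c (l 135526351607) (l 134989480711)))) (c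 (l 283702721959) (l 301419458327))))) (a (b (b (a (l 16776272) (c (l 16776968) (l 16776952))) (a (l 16774120) (a (a (l 16777152) (l 134452609687)) (l 4)))) (a (b (a (l 16777016) (c (l 122104578839) (l 125325804295))) (l 326652394263)) (l 4))) (a (c (l 323968040823) (l 339537288119)) (l 4)))) (b (a (b (a (a (b (l 16777064) (l 181697250231)) (l 313230620103)) (l 4)) (l 4)) (l 4)) (l 4)))) (b (a (b (a (b (a (c (l 16776656) (l 16776632)) (a (b (l 16776936) (l 110830287207)) (b (l 68417482503) (l 4)))) (a (c (l 281018366455) (l 279407751607)) (l 4))) (l 4)) (l 4)) (l 4)) (l 4))), by decide +kernel⟩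

def k34_pp_022_t : ∃ t, chk3 f_pp_022_t t 69 124 1 = true :=
  ⟨(b (a (b (a (b (a (c (l 16770696) (l 16765400)) (a (b (l 16776432) (a (l 114051512519) (c (l 100629742663) (l 98482248583)))) (b (c (l 16776992) (l 16776976)) (l 311620001751)))) (a (b (a (l 79154901927) (a (l 244511144375) (b (l 114588386167) (l 4)))) (c (l 299271972391) (l 295513877191))) (l 4))) (b (a (b (a (l 290145170295) (l 4)) (l 4)) (l 4)) (l 4))) (l 4)) (l 4)) (l 4)), by decide +kernel⟩

def k35_pp_022_t : ∃ t, chk3 f_pp_022_t t 34 125 1 = true :=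
  ⟨(l 4), by decide +kernel⟩

def k36_pp_022_t : ∃ t, chk3 f_pp_022_t t 35 62 1 = true :=
  ⟨(l 4), by decide +kernel⟩

def k37_pp_022_t : ∃ t, chk3 f_pp_022_t t 17 63 1 = true :=
  ⟨(l 4), by decide +kernel⟩

def k38_pp_022_t : ∃ t, chk3 f_pp_022_t t 18 28 1 = true :=
  ⟨(a (a (b (b (l 16596600) (a (l 16619720) (l 16621920))) (a (b (l 16642648) (l 16643592)) (b (l 16645304) (a (l 16666856) (l 16668552))))) (c (b (b (l 16600984) (l 16625992)) (b (l 16650048) (a (l 16671040) (l 16675352)))) (b (b (l 16601392) (l 16626496)) (b (l 16629632) (a (l 16671688) (l 16675808)))))) (b (a (b (c (l 16607984) (l 16607928)) (c (l 16633872) (l 16633952))) (a (b (l 16614536) (l 16652928)) (b (l 16619672) (a (l 16645216) (l 16648128))))) (a (b (c (a (l 16656456) (l 16661376)) (a (l 16656704) (l 16661464))) (c (a (l 16680200) (l 16685568)) (a (l 16680488) (l 16685712)))) (b (c (a (l 16666824) (l 16672824)) (a (l 16666760) (l 16672640))) (c (a (l 16670496) (b (l 16691704) (l 16703992)))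 (b (l 16688424) (l 16679656))))))), by decide +kernel⟩

def k39_pp_022_t : ∃ t, chk3 f_pp_022_t t 36 29 1 = true :=
  ⟨(b (a (b (c (a (l 16684936) (l 16688624)) (a (l 16685936) (l 16689408))) (c (a (l 16704768) (l 16693176)) (a (l 16684648) (l 16688600)))) (b (c (b (l 16689752) (l 16687400)) (b (l 16690272) (l 16680024))) (c (a (b (l 16708512) (l 16718608)) (b (l 16713616) (l 16723936))) (a (l 16698352) (b (l 16713992) (l 16724272)))))) (a (b (a (c (b (l 16718960) (l 16728128)) (b (l 16719688) (l 16728760))) (c (b (l 16723432) (l 16732824)) (b (l 16723992) (l 16733304)))) (a (c (b (l 16737064) (l 16735272)) (b (l 16737600) (l 16746200))) (c (b (l 16731496) (a (l 16749568) (l 16752272))) (b (l 16742376) (l 16730240))))) (b (c (a (b (l 16728448) (l 16738064)) (b (l 16734000) (l 16733352))) (a (b (l 16728856) (l 16738408)) (b (l 16734280) (l 16744064)))) (b (a (c (l 16736960) (l 16726744)) (c (c (l 16732432) (l 16753488)) (l 16743136))) (a (c (c (l 16746056) (l 16735664))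 (l 16746296)) (c (a (l 16750720) (l 16753968)) (a (l 16740368) (l 16743576)))))))), by decide +kernel⟩

def k40_pp_022_t : ∃ t, chk3 f_pp_022_t t 37 58 1 = true :=
  ⟨(c (b (a (a (l 16687184) (b (l 16703040) (l 16714360))) (a (b (l 16709280) (l 16720824)) (b (l 16716032) (l 16727800)))) (a (a (b (l 16719248) (l 16729792)) (b (l 16725408) (l 16736184))) (a (b (l 16732096) (l 16732608)) (b (l 16739304) (l 16740040))))) (b (a (a (l 16682224) (l 16687920)) (a (l 16694168) (b (l 16716000) (l 16727800)))) (a (a (b (l 16719504) (l 16730016)) (b (l 16725560) (l 16736312))) (a (b (l 16732160) (l 16743152)) (b (l 16739312) (l 16729568)))))), by decide +kernel⟩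

def k41_pp_022_t : ∃ t, chk3 f_pp_022_t t 37 59 1 = true :=
  ⟨(b (b (c (a (a (l 16719112) (l 16736208)) (a (c (l 16732848) (l 16732872)) (a (l 16738560) (l 16742520)))) (a (a (l 16740264) (l 16725824)) (a (l 16732904) (a (l 16738576) (l 16742528))))) (a (a (c (l 16739664) (l 16729312)) (c (c (l 16736000) (l 16736032)) (l 16746568))) (a (c (a (l 16741488) (l 16755792)) (a (l 16741528) (l 16745328))) (a (c (l 16759736) (l 16759744)) (b (l 16761136) (a (c (l 16765304) (l 16765304)) (b (l 16766064) (l 135526304231)))))))) (a (c (a (b (a (l 16737328) (l 16751216)) (a (l 16757344) (b (l 16747992) (l 16763224)))) (b (a (l 16754744) (l 16758416)) (b (a (l 16751608) (a (l 16775328) (l 135526323383))) (a (b (l 16763000) (l 249342971399)) (l 275112751847))))) (b (a (c (l 16739080) (l 16739128)) (a (l 16744312) (l 16747952))) (a (a (l 16757408) (l 44258268727)) (b (a (l 16751624) (a (l 16775336) (l 138210682487))) (a (b (l 16760384) (l 250953582983)) (l 272965265079)))))) (b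 (a (b (a (l 16764928) (c (l 16763536) (l 16763544))) (b (a (l 16763480) (a (l 16764976) (l 136063176663))) (a (c (l 45868878599) (l 44795136119)) (l 274039020503)))) (b (a (b (c (l 46405747047) (l 45332004743)) (a (l 136063183159) (l 4))) (l 4)) (l 4))) (a (a (a (b (c (l 252564191991) (l 253101061431)) (l 4)) (l 4)) (l 4)) (l 4))))), by decide +kernel⟩

def k42_pp_022_t : ∃ t, chk3 f_pp_022_t t 19 28 1 = true :=
  ⟨(a (b (a (b (c (l 16628848) (l 16628152)) (c (a (l 16653000) (l 16659768)) (a (l 16652560) (l 16659240)))) (b (c (a (l 16639104) (l 16646608)) (l 16620952)) (c (a (l 16667120) (l 16674992)) (a (l 16666536) (l 16674368))))) (b (a (c (a (l 16679376) (l 16665552)) (a (l 16679096) (l 16686176))) (c (a (l 16673280) (b (l 16695712) (l 16709240))) (b (l 16691096) (l 16683648)))) (a (c (a (b (l 16698560) (l 16711056)) (b (l 16706000) (l 16718680))) (a (l 16683712) (l 16691176))) (c (a (b (l 16714008) (l 16726880)) (c (l 16708176) (l 16708056))) (a (b (l 16713728)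 (l 16726672)) (b (l 16722248) (l 16735392))))))) (b (a (b (c (a (l 16654616) (l 16663112)) (a (l 16653712) (l 16662200))) (c (a (l 16683360) (l 16671248)) (a (l 16682720) (l 16691584)))) (b (c (a (l 16672096) (l 16681560)) (a (l 16671184) (l 16680672))) (a (b (l 16693936) (l 16708520)) (b (l 16703672) (l 16707952))))) (b (a (c (a (b (l 16704352) (l 16718064)) (b (l 16713480) (l 16727376))) (a (l 16689848) (l 16699080))) (c (a (c (l 16709264) (l 16709080)) (b (l 16733160) (l 16726432))) (a (b (l 16722664) (l 16736856)) (a (l 16716432) (l 16721656))))) (a (a (c (b (l 16731544) (l 16723816)) (a (l 16714664) (l 16719352))) (b (c (l 16741032) (l 16740792)) (c (l 16733496) (l 16733344)))) (b (a (c (l 16730024) (l 16729832)) (c (l 16740456) (l 16740328))) (a (c (l 16743640) (l 16743544)) (b (a (l 16748104) (l 51237594663)) (a (b (l 16753184) (l 128010128279)) (l 230552487111))))))))), by decide +kernel⟩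

def k43_pp_022_t : ∃ t, chk3 f_pp_022_t t 38 29 1 = true :=
  ⟨(b (a (b (b (a (c (l 16723304) (l 16723216)) (c (l 16731120) (l 16730992))) (a (c (l 16735296) (l 16735240)) (c (l 16722352) (l 16743240)))) (b (a (c (l 16736544) (l 16726024)) (c (l 16744776) (l 16734240))) (a (c (c (l 16737512) (l 16737504)) (l 16747976)) (c (a (l 16743808) (l 16748168)) (a (l 16743792) (l 16748152)))))) (b (b (a (a (l 16737296) (l 16720648)) (c (l 16727440) (l 16727304))) (a (c (l 16730928) (l 16730840)) (c (c (l 16740040) (l 16740000)) (l 16739944)))) (b (a (c (a (l 16740824) (l 16745344)) (l 16753504)) (a (c (l 48553230807) (l 16760384)) (b (l 16762136) (a (a (l 48553236023) (l 131768218615)) (l 239679290599))))) (a (a (b (l 16760208) (a (l 47479499719) (b (l 16776136) (l 132305086599)))) (b (c (l 48553233239) (l 47479491399)) (a (l 244511127159) (l 4)))) (a (b (c (l 236994935751) (l 238068676519)) (l 4)) (l 4)))))) (b (a (b (a (b (c (l 16756416) (l 16745920)) (a (l 16759848) (c (l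 16763992) (l 16763992)))) (b (a (c (l 16752328) (l 16752328)) (c (b (l 16755160) (l 132841946599)) (b (l 16755152) (l 134452558439)))) (a (b (c (l 133378830295) (l 136063184343)) (l 253637928423)) (l 4)))) (a (a (b (a (l 16764208) (c (l 46942615655) (l 45868873511))) (c (l 255248533927) (l 254711660807))) (b (c (l 246121748023) (l 246658617431)) (l 4))) (l 4))) (b (a (b (a (b (l 263838473447) (l 4)) (l 4)) (l 4)) (l 4)) (l 4))) (l 4))), by decide +kernel⟩

def k44_pp_022_t : ∃ t, chk3 f_pp_022_t t 39 29 1 = true :=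
  ⟨(b (b (a (b (a (c (l 16736824) (l 16736720)) (a (l 16754624) (b (l 16745904) (l 16765496)))) (a (a (c (l 16747152) (l 16747112)) (b (l 16748864) (c (l 49626970871) (l 48553228695)))) (b (a (c (l 16753640) (l 16753624)) (a (l 129620730007) (l 252027316551))) (a (b (l 129620725015) (l 4)) (l 4))))) (b (a (b (a (l 16751048) (c (l 127473248679) (l 130157602903))) (a (c (l 128010110775) (l 130157593687)) (l 4))) (b (a (l 249879827431) (l 4)) (l 4))) (l 4))) (a (b (a (b (a (b (l 49090112039) (a (l 16764840) (l 4))) (l 256859145991)) (l 4)) (l 4)) (l 4)) (l 4))) (l 4)), by decide +kernel⟩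

def k45_pp_022_t : ∃ t, chk3 f_pp_022_t t 36 60 1 = true :=
  ⟨(b (a (a (b (c (c (l 16733136) (l 16733296)) (l 16744040)) (c (a (l 16750552) (l 16753208)) (a (l 16740320) (l 16742920)))) (b (c (a (l 16747680) (l 16750504)) (c (l 16738744) (l 16738856))) (a (c (l 16761248) (l 16756144)) (b (c (l 16767344) (l 16767456)) (c (l 16761000) (l 16750584)))))) (b (a (a (c (l 16753456) (l 16743112)) (c (l 16756544) (l 16756640))) (a (b (l 16762816) (c (l 16751504) (l 16751544))) (a (b (l 16760048) (l 45868893303)) (b (l 16761736) (b (l 16775608) (a (l 137136936519) (l 137136924519))))))) (a (a (b (c (l 16749408) (l 16749480)) (c (l 45332015959) (l 16764112))) (a (b (l 16762280) (b (l 16775936) (b (l 137136935127) (l 4)))) (b (l 16763896) (c (l 255785429831) (l 256859169927))))) (b (a (a (c (l 45332007623) (l 44258265175)) (b (l 44795144311) (l 268670319223))) (a (c (l 263838475511) (l 263301602215)) (l 4))) (l 4))))) (a (a (a (c (b (c (l 16758328) (l 16747904)) (b (l 16769256)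 (b (a (l 16776560) (l 260617263319)) (l 278334009383)))) (b (l 16758496) (b (l 16764064) (b (a (l 16776576) (l 261154132791)) (l 276186511591))))) (b (c (b (l 16748696) (l 16763064)) (b (l 16748808) (l 16752632))) (b (a (b (l 16775696) (c (l 136600070807) (l 138747553495))) (b (c (l 45332004023) (l 44258261559)) (l 4))) (l 4)))) (a (a (b (b (l 16761360) (c (l 44795140807) (l 16765264))) (b (b (l 276186510807) (l 4)) (l 4))) (b (b (l 16768064) (b (l 16768392) (c (l 263838486503) (l 263838484935)))) (l 4))) (b (a (b (l 16770872) (c (l 262227877623) (l 262764746199))) (b (b (l 16775328) (a (l 16766448) (l 137673798839))) (l 4))) (l 4)))) (b (a (b (a (b (a (c (l 16766360) (l 16755888)) (l 266522837911)) (a (l 285850184999) (l 4))) (l 4)) (l 4)) (l 4)) (l 4)))), by decide +kernel⟩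

def k46_pp_022_t : ∃ t, chk3 f_pp_022_t t 37 60 1 = true :=
  ⟨(b (a (b (a (b (a (c (b (l 16752688) (l 16765424)) (l 44258268679)) (a (b (l 16765816) (l 261154129511)) (c (l 257932898455) (l 257932896567)))) (a (b (c (l 247732366359) (l 249342978103)) (l 4)) (l 4))) (l 4)) (l 4)) (l 4)) (l 4)), by decide +kernel⟩

def k47_pp_022_t : ∃ t, chk3 f_pp_022_t t 18 61 1 = true :=
  ⟨(l 4), by decide +kernel⟩

def k48_pp_022_t : ∃ t, chk3 f_pp_022_t t 18 31 1 = true :=
  ⟨(l 4), by decide +kernel⟩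

def k49_pp_022_t : ∃ t, chk3 f_pp_022_t t 19 15 1 = true :=
  ⟨(l 4), by decide +kernel⟩

def k50_pp_022_t : ∃ t, chk3 f_pp_022_t t 10 12 1 = true :=
  ⟨(a (b (a (b (a (l 16129960) (l 16141472)) (a (l 16211432) (l 16224280))) (b (a (l 16155136) (l 16170880)) (a (l 16239224) (l 16256200)))) (a (b (a (l 16290736) (l 16304896)) (a (l 16367704) (l 16383176))) (b (a (l 16321112) (l 16339312)) (a (l 16421624) (b (l 16400136) (l 16439904)))))) (b (a (b (a (l 16188648) (l 16208368)) (a (l 16275152) (l 16296008))) (b (a (l 16229992) (l 16253440)) (a (l 16318712) (l 16343192)))) (a (b (a (l 16359432) (l 16381424)) (a (b (l 16421136) (l 16461496)) (b (l 16443976) (l 16484888)))) (b (a (l 16405200) (l 16430720)) (a (b (l 16468568) (l 16510024)) (b (l 16494864) (l 16536840))))))), by decide +kernel⟩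

def k51_pp_022_t : ∃ t, chk3 f_pp_022_t t 20 13 1 = true :=
  ⟨(b (a (b (a (b (l 16423816) (l 16460400)) (b (l 16440280) (l 16477520))) (a (b (l 16496312) (l 16531520)) (b (l 16514080) (l 16549944)))) (b (a (b (l 16458704) (l 16496576)) (b (l 16479040) (l 16517520))) (a (b (l 16533776) (l 16586008)) (b (l 16555336) (a (l 16586744) (l 16598280)))))) (a (b (b (a (l 16576488) (c (l 16586336) (l 16583848))) (a (c (l 16600768) (l 16598720)) (c (l 16620472) (l 16618512)))) (a (b (c (l 16643984) (l 16631912)) (c (a (l 16660496) (l 16670552)) (a (l 16659296) (l 16669400)))) (a (b (l 16658336) (b (l 16672432) (l 16688568))) (b (b (l 16650152) (l 16666856)) (b (l 16683360) (l 16699656)))))) (b (a (b (c (l 16607232) (l 16604888)) (c (l 16642008) (l 16640200))) (a (b (l 16622992) (l 16658504)) (b (l 16634832) (l 16670648)))) (a (b (c (a (l 16670328) (l 16681856)) (l 16643272)) (c (a (l 16703432) (l 16694304)) (b (l 16700104) (l 16695784)))) (b (c (c (l 16668752) (l 16678712))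 (a (l 16692696) (l 16705216))) (c (a (l 16706568) (l 16719256)) (a (l 16705928) (l 16718768)))))))), by decide +kernel⟩

def k52_pp_022_t : ∃ t, chk3 f_pp_022_t t 21 13 1 = true :=
  ⟨(b (a (b (a (b (l 16501216) (l 16540288)) (b (l 16525176) (l 16564816))) (a (b (l 16589176) (c (l 16617656) (l 16615144))) (c (b (l 16605232) (l 16643160)) (b (l 16602336) (l 16640976))))) (b (a (b (l 16550856) (l 16591040)) (b (l 16578192) (l 16618896))) (a (b (c (l 16631816) (l 16629288)) (a (l 16662416) (l 16676472))) (b (l 16616992) (c (l 16678008) (l 16697616)))))) (a (b (a (a (b (l 16647104) (l 16662256)) (b (l 16659808) (l 16675256))) (a (b (l 16672936) (l 16688664)) (b (l 16686464) (l 16702488)))) (a (b (c (c (l 16694272) (l 16683416)) (a (l 16718176) (l 16710584))) (a (b (l 16723632) (l 16740728)) (b (l 16737160) (a (l 16755576) (l 100092822679))))) (b (a (c (l 16724848) (l 16724384)) (b (l 16729744) (a (l 16744096) (l 16750512)))) (b (a (b (l 16746648) (l 61974996631)) (a (l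 94724105719) (l 4))) (a (b (l 96871583063) (l 4)) (l 4)))))) (b (b (a (c (l 16687112) (l 16685984)) (c (l 16695360) (l 16715656))) (a (a (l 16695728) (l 16720816)) (a (b (l 16736928) (l 85597307575)) (b (l 16753072) (l 118346399815))))) (b (a (b (a (l 16743976) (b (l 16752920) (l 16747096))) (a (b (l 16756368) (l 123178254967)) (l 4))) (l 4)) (l 4))))), by decide +kernel⟩

def k53_pp_022_t : ∃ t, chk3 f_pp_022_t t 11 6 1 = true :=
  ⟨(b (a (b (a (b (a (l 16278648) (l 16305568)) (a (l 16369392) (l 16397248))) (b (a (l 16334128) (l 16364256)) (a (l 16426696) (l 16457672)))) (a (b (a (b (l 16436032) (l 16479712)) (b (l 16464592) (l 16508744))) (a (b (l 16522792) (l 16565264)) (b (l 16552296) (l 16595240)))) (b (a (b (l 16494712) (l 16539304)) (b (l 16526320) (l 16571336))) (a (b (l 16583304) (l 16626704)) (b (l 16615768) (l 16659592)))))) (b (a (a (b (l 16395904) (l 16490112)) (b (l 16428992) (l 16523944))) (a (b (l 16463464) (l 16559120)) (b (l 16499256) (l 16574592))))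 (a (b (a (b (l 16559360) (l 16604776)) (l 16543272)) (a (c (l 16630912) (l 16628688)) (c (l 16644928) (l 16664400)))) (b (a (l 16589640) (l 16605768)) (b (a (l 16700208) (a (l 16728176) (l 16743984))) (a (a (l 16714112) (l 16748952)) (l 103850864663))))))) (a (b (a (b (a (b (l 16607112) (l 16648320)) (b (l 16637568) (l 16658280))) (b (a (l 16646920) (l 16678336)) (a (c (l 16708192) (l 16707336)) (a (l 16710504) (b (l 16758792) (l 16753328)))))) (b (a (b (l 16648512) (l 16669680)) (b (l 16681824) (b (l 16713832) (l 16713672)))) (a (b (a (l 16723808) (c (l 16718584) (l 16718256))) (b (a (l 16751640) (l 16763584)) (l 112440790023))) (b (a (b (l 16767248) (l 16745888)) (l 107608971031)) (l 4))))) (b (a (b (a (b (a (l 16750360) (l 16744704)) (a (l 16747712) (l 80228584551))) (a (b (l 16750608) (l 4)) (l 4))) (a (b (a (l 116735796999) (l 4)) (l 4)) (l 4))) (l 4)) (l 4))) (b (b (a (b (a (l 16695512) (b (l 16719104) (l 80228579687))) (a (b (b (l 16742536) (l 16750480)) (l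 79154826503)) (l 106535187991))) (b (a (l 104924591559) (l 4)) (l 4))) (l 4)) (l 4)))), by decide +kernel⟩

def k54_pp_022_t : ∃ t, chk3 f_pp_022_t t 20 28 1 = true :=
  ⟨(a (b (b (a (c (a (l 16691488) (l 16680904)) (a (l 16690648) (l 16701096))) (c (a (l 16691744) (l 16697792)) (a (l 16691048) (l 16702440)))) (a (c (a (b (l 16714184) (l 16729048)) (c (l 16711504) (l 16711288))) (a (l 16700144) (l 16710952))) (b (a (l 16719984) (l 16731576)) (a (c (l 16730160) (l 16729888)) (c (l 16741864) (l 16741704)))))) (b (a (b (a (b (l 16739888) (l 16726216)) (c (l 16733712) (l 16733496))) (a (c (l 16737144) (l 16736976)) (a (l 16745424) (c (l 52311325687) (l 51774454663))))) (a (b (c (l 16750328) (l 16744976)) (a (b (l 16763488) (l 122104522471)) (c (l 219278185911) (l 219815055639)))) (b (b (c (l 55532550071) (l 54458807495)) (a (c (l 16753120) (l 16752984)) (l 4))) (l 4)))) (a (b (a (b (c (l 16747808) (l 16747736)) (a (l 16762456) (c (l 125325760855) (l 127473243863)))) (b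 (a (c (l 16760592) (l 16760576)) (l 244511120663)) (l 4))) (a (b (a (b (l 126936383527) (l 4)) (l 4)) (l 4)) (l 4))) (l 4)))) (b (b (a (a (b (l 16727456) (l 16722528)) (b (l 16718624) (l 16734832))) (a (b (l 16731200) (c (l 56606275367) (l 57143146055))) (b (a (l 16740912) (l 16747400)) (b (c (l 58216895975) (l 58216895623)) (a (l 107072144055) (l 4)))))) (a (a (b (c (l 16738464) (l 16738264)) (b (a (l 16747024) (l 16752872)) (a (l 16764608) (l 114588333799)))) (b (b (l 16746840) (a (l 16751504) (l 112440863975))) (b (a (l 113514599031) (l 4)) (l 4)))) (b (a (b (a (l 16760464) (l 130157586807)) (l 4)) (l 4)) (l 4)))) (b (a (a (a (b (l 240216140087) (l 4)) (l 4)) (l 4)) (l 4)) (l 4)))), by decide +kernel⟩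

def k55_pp_022_t : ∃ t, chk3 f_pp_022_t t 21 28 1 = true :=
  ⟨(b (a (b (a (b (a (b (c (l 16752464) (l 16752408)) (a (l 16752696) (l 4))) (l 228941844103)) (l 4)) (l 4)) (l 4)) (l 4)) (l 4)), by decide +kernel⟩

def k56_pp_022_t : ∃ t, chk3 f_pp_022_t t 11 28 1 = true :=
  ⟨(l 4), by decide +kernel⟩

def k57_pp_022_t : ∃ t, chk3 f_pp_022_t t 5 29 1 = true :=
  ⟨(l 4), by decide +kernel⟩

def k58_pp_022_t : ∃ t, chk3 f_pp_022_t t 5 15 1 = true :=
  ⟨(l 4), by decide +kernel⟩

def k59_pp_022_t : ∃ t, chk3 f_pp_022_t t 6 4 1 = true :=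
  ⟨(a (b (a (l 6) (b (l 6) (a (l 6) (c (a (l 6) (l 15302384)) (l 15243440))))) (a (b (a (l 6) (c (a (l 15363264) (l 15397552)) (l 15344936))) (a (b (l 15453904) (l 15570208)) (b (l 15521736) (l 15660304)))) (b (a (c (a (l 15433456) (l 15470920)) (l 15417984)) (c (a (l 15509864) (l 15550224)) (l 15497360))) (a (b (l 15616880) (l 15735528)) (b (l 15696856) (l 15816296)))))) (a (b (b (a (l 6) (c (a (l 6) (l 15215776)) (l 15150896))) (a (c (a (l 15343360) (l 15385752)) (l 15326992)) (c (a (l 15429488) (l 15474512)) (l 15416312)))) (b (a (c (a (l 15591944) (l 15634936)) (l 15582512)) (c (l 15680808) (l 15672872))) (a (b (l 15782096) (l 15902072)) (b (l 15872048) (l 15992312))))) (a (b (a (a (b (b (l 6) (l 15296336)) (l 15470960)) (l 2)) (l 2)) (b (c (l 15794648) (l 15767896)) (b (l 15966168) (l 16086480)))) (l 2)))), by decide +kernel⟩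

def k60_pp_022_t : ∃ t, chk3 f_pp_022_t t 6 5 1 = true :=
  ⟨(a (b (a (b (a (b (l 15705736) (l 15818512)) (b (l 15776088) (l 15890032))) (a (b (l 15929488) (l 16038632)) (b (l 16002112) (l 16112312)))) (b (a (b (l 15852280) (l 15967144)) (b (l 15933776) (l 16049320))) (a (b (l 16080096) (l 16191136)) (b (l 16162920) (l 16274576))))) (a (b (a (b (l 16145888) (l 16272208)) (b (l 16220600) (l 16326960))) (a (b (a (l 16336176) (l 16373320)) (a (l 16437272) (l 16474968))) (b (a (l 16411688) (l 16451216)) (a (l 16513832) (l 16553808))))) (b (a (b (l 16300240) (l 16323512)) (b (l 16384280) (l 16408136))) (a (b (a (l 16491840) (l 16533488)) (c (l 16554816) (l 16550832))) (b (a (l 16576112) (l 16619624)) (a (l 16637808) (b (l 16697816) (l 16726512)))))))) (b (a (b (a (b (l 16020040) (l 16136032)) (b (l 16110536) (l 16226736))) (a (b (l 16250048) (l 16362096)) (a (l 16227024) (l 16294304)))) (a (b (b (l 16204704) (l 16320896)) (a (l 16341360) (l 16389096))) (a (b (l 16293280)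 (l 16437456)) (l 2)))) (a (b (a (b (l 16451216) (l 16496432)) (b (l 16500528) (a (l 16648592) (l 16653064)))) (a (b (a (l 16643008) (l 16645992)) (b (a (l 16741480) (l 16749360)) (a (l 16748112) (l 4)))) (b (a (b (l 16728600) (l 16768720)) (b (l 16765160) (l 4))) (l 4)))) (b (a (b (l 16573632) (a (c (l 16653560) (l 16652488)) (b (l 16757080) (l 16765480)))) (b (a (l 16642840) (b (l 16748168) (l 16768696))) (a (l 16717800) (l 4)))) (a (b (a (l 16733944) (l 4)) (l 4)) (l 4)))))), by decide +kernel⟩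

def k61_pp_022_t : ∃ t, chk3 f_pp_022_t t 7 2 1 = true :=
  ⟨(b (l 2) (b (l 2) (b (l 2) (l 4)))), by decide +kernel⟩

def k62_pp_022_t : ∃ t, chk3 f_pp_022_t t 3 3 1 = true :=
  ⟨(b (b (a (a (a (b (a (a (b (l 16536312) (l 16591272)) (b (l 16574552) (l 16630072))) (b (c (l 16551856) (l 16548416)) (a (l 16627944) (b (l 16707472) (b (l 16762328) (l 16770192)))))) (a (b (b (a (l 16704520) (l 16701280)) (a (l 16697504) (a (l 16751232) (l 16763808)))) (a (b (b (l 16749720) (l 4)) (l 4)) (l 4))) (b (b (a (b (l 16767424) (l 16766880)) (l 4)) (l 4)) (l 4)))) (b (a (b (a (l 16653832) (b (l 16713080) (l 16716512))) (a (b (l 69491105335) (l 16757280)) (l 97408378423))) (b (a (b (l 16732176) (l 16764336)) (b (l 16746040) (l 4))) (l 4))) (l 4))) (l 4)) (l 4)) (l 4)) (l 4)), by decide +kernel⟩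

theorem s63_pp_022_t : ∃ t, chk3 f_pp_022_t t 6 2 1 = true := ex3_b k59_pp_022_t k60_pp_022_t

theorem s64_pp_022_t : ∃ t, chk3 f_pp_022_t t 3 2 1 = true := ex3_a s63_pp_022_t k61_pp_022_t

theorem s65_pp_022_t : ∃ t, chk3 f_pp_022_t t 3 1 1 = true := ex3_b s64_pp_022_t k62_pp_022_t

theorem s66_pp_022_t : ∃ t, chk3 f_pp_022_t t 10 28 1 = true := ex3_a k54_pp_022_t k55_pp_022_t

theorem s67_pp_022_t : ∃ t, chk3 f_pp_022_t t 5 28 1 = true := ex3_a s66_pp_022_t k56_pp_022_t

theorem s68_pp_022_t : ∃ t, chk3 f_pp_022_t t 5 14 1 = true := ex3_b s67_pp_022_t k57_pp_022_t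

theorem s69_pp_022_t : ∃ t, chk3 f_pp_022_t t 5 7 1 = true := ex3_b s68_pp_022_t k58_pp_022_t

theorem s70_pp_022_t : ∃ t, chk3 f_pp_022_t t 10 13 1 = true := ex3_a k51_pp_022_t k52_pp_022_t

theorem s71_pp_022_t : ∃ t, chk3 f_pp_022_t t 10 6 1 = true := ex3_b k50_pp_022_t s70_pp_022_t

theorem s72_pp_022_t : ∃ t, chk3 f_pp_022_t t 5 6 1 = true := ex3_a s71_pp_022_t k53_pp_022_t

theorem s73_pp_022_t : ∃ t, chk3 f_pp_022_t t 5 3 1 = true := ex3_b s72_pp_022_t s69_pp_022_t

theorem s74_pp_022_t : ∃ t, chk3 f_pp_022_t t 18 60 1 = true := ex3_a k45_pp_022_t k46_pp_022_t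

theorem s75_pp_022_t : ∃ t, chk3 f_pp_022_t t 18 30 1 = true := ex3_b s74_pp_022_t k47_pp_022_t

theorem s76_pp_022_t : ∃ t, chk3 f_pp_022_t t 18 15 1 = true := ex3_b s75_pp_022_t k48_pp_022_t

theorem s77_pp_022_t : ∃ t, chk3 f_pp_022_t t 9 15 1 = true := ex3_a s76_pp_022_t k49_pp_022_t

theorem s78_pp_022_t : ∃ t, chk3 f_pp_022_t t 19 29 1 = true := ex3_a k43_pp_022_t k44_pp_022_t

theorem s79_pp_022_t : ∃ t, chk3 f_pp_022_t t 19 14 1 = true := ex3_b k42_pp_022_t s78_pp_022_t

theorem s80_pp_022_t : ∃ t, chk3 f_pp_022_t t 37 29 1 = true := ex3_b k40_pp_022_t k41_pp_022_t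

theorem s81_pp_022_t : ∃ t, chk3 f_pp_022_t t 18 29 1 = true := ex3_a k39_pp_022_t s80_pp_022_t

theorem s82_pp_022_t : ∃ t, chk3 f_pp_022_t t 18 14 1 = true := ex3_b k38_pp_022_t s81_pp_022_t

theorem s83_pp_022_t : ∃ t, chk3 f_pp_022_t t 9 14 1 = true := ex3_a s82_pp_022_t s79_pp_022_t

theorem s84_pp_022_t : ∃ t, chk3 f_pp_022_t t 9 7 1 = true := ex3_b s83_pp_022_t s77_pp_022_t

theorem s85_pp_022_t : ∃ t, chk3 f_pp_022_t t 68 124 1 = true := ex3_b k32_pp_022_t k33_pp_022_t

theorem s86_pp_022_t : ∃ t, chk3 f_pp_022_t t 34 124 1 = true := ex3_a s85_pp_022_t k34_pp_022_t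

theorem s87_pp_022_t : ∃ t, chk3 f_pp_022_t t 34 62 1 = true := ex3_b s86_pp_022_t k35_pp_022_t

theorem s88_pp_022_t : ∃ t, chk3 f_pp_022_t t 17 62 1 = true := ex3_a s87_pp_022_t k36_pp_022_t

theorem s89_pp_022_t : ∃ t, chk3 f_pp_022_t t 17 31 1 = true := ex3_b s88_pp_022_t k37_pp_022_t

theorem s90_pp_022_t : ∃ t, chk3 f_pp_022_t t 35 61 1 = true := ex3_b k30_pp_022_t k31_pp_022_t

theorem s91_pp_022_t : ∃ t, chk3 f_pp_022_t t 35 30 1 = true := ex3_b k29_pp_022_t s90_pp_022_t

theorem s92_pp_022_t : ∃ t, chk3 f_pp_022_t t 34 61 1 = true := ex3_a k27_pp_022_t k28_pp_022_t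

theorem s93_pp_022_t : ∃ t, chk3 f_pp_022_t t 34 30 1 = true := ex3_b k26_pp_022_t s92_pp_022_t

theorem s94_pp_022_t : ∃ t, chk3 f_pp_022_t t 17 30 1 = true := ex3_a s93_pp_022_t s91_pp_022_t

theorem s95_pp_022_t : ∃ t, chk3 f_pp_022_t t 17 15 1 = true := ex3_b s94_pp_022_t s89_pp_022_t

theorem s96_pp_022_t : ∃ t, chk3 f_pp_022_t t 132 505 1 = true := ex3_a k20_pp_022_t k21_pp_022_t

theorem s97_pp_022_t : ∃ t, chk3 f_pp_022_t t 132 504 1 = true := ex3_b k18_pp_022_t k19_pp_022_t

theorem s98_pp_022_t : ∃ t, chk3 f_pp_022_t t 132 252 1 = true := ex3_b s97_pp_022_t s96_pp_022_t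

theorem s99_pp_022_t : ∃ t, chk3 f_pp_022_t t 66 252 1 = true := ex3_a s98_pp_022_t k22_pp_022_t

theorem s100_pp_022_t : ∃ t, chk3 f_pp_022_t t 66 126 1 = true := ex3_b s99_pp_022_t k23_pp_022_t

theorem s101_pp_022_t : ∃ t, chk3 f_pp_022_t t 33 126 1 = true := ex3_a s100_pp_022_t k24_pp_022_t

theorem s102_pp_022_t : ∃ t, chk3 f_pp_022_t t 33 63 1 = true := ex3_b s101_pp_022_t k25_pp_022_t

theorem s103_pp_022_t : ∃ t, chk3 f_pp_022_t t 67 250 1 = true := ex3_a k15_pp_022_t k16_pp_022_t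

theorem s104_pp_022_t : ∃ t, chk3 f_pp_022_t t 67 125 1 = true := ex3_b s103_pp_022_t k17_pp_022_t

theorem s105_pp_022_t : ∃ t, chk3 f_pp_022_t t 67 62 1 = true := ex3_b k14_pp_022_t s104_pp_022_t

theorem s106_pp_022_t : ∃ t, chk3 f_pp_022_t t 133 503 1 = true := ex3_b k12_pp_022_t k13_pp_022_t

theorem s107_pp_022_t : ∃ t, chk3 f_pp_022_t t 133 251 1 = true := ex3_b k11_pp_022_t s106_pp_022_t

theorem s108_pp_022_t : ∃ t, chk3 f_pp_022_t t 133 125 1 = true := ex3_b k10_pp_022_t s107_pp_022_t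

theorem s109_pp_022_t : ∃ t, chk3 f_pp_022_t t 66 125 1 = true := ex3_a k9_pp_022_t s108_pp_022_t

theorem s110_pp_022_t : ∃ t, chk3 f_pp_022_t t 66 62 1 = true := ex3_b k8_pp_022_t s109_pp_022_t

theorem s111_pp_022_t : ∃ t, chk3 f_pp_022_t t 33 62 1 = true := ex3_a s110_pp_022_t s105_pp_022_t

theorem s112_pp_022_t : ∃ t, chk3 f_pp_022_t t 33 31 1 = true := ex3_b s111_pp_022_t s102_pp_022_t

theorem s113_pp_022_t : ∃ t, chk3 f_pp_022_t t 16 31 1 = true := ex3_a k7_pp_022_t s112_pp_022_t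

theorem s114_pp_022_t : ∃ t, chk3 f_pp_022_t t 16 30 1 = true := ex3_a k5_pp_022_t k6_pp_022_t

theorem s115_pp_022_t : ∃ t, chk3 f_pp_022_t t 16 15 1 = true := ex3_b s114_pp_022_t s113_pp_022_t

theorem s116_pp_022_t : ∃ t, chk3 f_pp_022_t t 8 15 1 = true := ex3_a s115_pp_022_t s95_pp_022_t

theorem s117_pp_022_t : ∃ t, chk3 f_pp_022_t t 8 14 1 = true := ex3_a k3_pp_022_t k4_pp_022_t

theorem s118_pp_022_t : ∃ t, chk3 f_pp_022_t t 8 7 1 = true := ex3_b s117_pp_022_t s116_pp_022_t

theorem s119_pp_022_t : ∃ t, chk3 f_pp_022_t t 4 7 1 = true := ex3_a s118_pp_022_t s84_pp_022_t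

theorem s120_pp_022_t : ∃ t, chk3 f_pp_022_t t 4 6 1 = true := ex3_a k1_pp_022_t k2_pp_022_t

theorem s121_pp_022_t : ∃ t, chk3 f_pp_022_t t 4 3 1 = true := ex3_b s120_pp_022_t s119_pp_022_t

theorem s122_pp_022_t : ∃ t, chk3 f_pp_022_t t 2 3 1 = true := ex3_a s121_pp_022_t s73_pp_022_t

theorem s123_pp_022_t : ∃ t, chk3 f_pp_022_t t 2 1 1 = true := ex3_b k0_pp_022_t s122_pp_022_t

theorem s124_pp_022_t : ∃ t, chk3 f_pp_022_t t 1 1 1 = true := ex3_a s123_pp_022_t s65_pp_022_t

theorem c_pp_022_t : CertNE 0 536870912 0 536870912 1020054732 13421774 3 eng mog cd0q0 cd0q2 pd2 true true true .pp 0 2 2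
    ndB0q0 ndB0q2 pcB2 cut_pp_022_t Ext.none :=
  certNE0 (fam := true) (s1 := true) (s2 := true) (a := 0) (b := 2) (c := 2) (cn := .pp) (n1 := ndB0q0) (n2 := ndB0q2) (pc := pcB2) (cut := cut_pp_022_t) (xt := Ext.none) (P1 := 0) (W1 := 536870912) (P2 := 0) (W2 := 536870912) (P3 := 1020054732) (W3 := 13421774) (N0 := 3) (En := eng) (mo := mog) (C1 := cd0q0) (C2 := cd0q2) (C3 := pd2)
    rfl s124_pp_022_t

noncomputable def cut_pp_023_s : Cut := Cut.of [[⟨4, 0, 0, 1449551462⟩]]

noncomputable def f_pp_023_s : ℕ → ℕ → ℕ → ℕ → Bool := onCell 0 536870912 0 536870912 1020054732 13421774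
    (rowNE 3 eng mog cd0q0 cd0q2 pd3 0 true true true .up 0 2 3 (qsf 0 536870912 0 536870912 3) ndB0q0 ndB0q2 pcB3 cut_pp_023_s Ext.none)

def k0_pp_023_s : ∃ t, chk3 f_pp_023_s t 1 1 1 = true :=
  ⟨(l 6), by decide +kernel⟩

theorem c_pp_023_s : CertNE 0 536870912 0 536870912 1020054732 13421774 3 eng mog cd0q0 cd0q2 pd3 true true true .up 0 2 3
    ndB0q0 ndB0q2 pcB3 cut_pp_023_s Ext.none :=
  certNE0 (fam := true) (s1 := true) (s2 := true) (a := 0) (b := 2) (c := 3) (cn := .up) (n1 := ndB0q0) (n2 := ndB0q2) (pc := pcB3) (cut := cut_pp_023_s) (xt := Ext.none) (P1 := 0) (W1 := 536870912) (P2 := 0) (W2 := 536870912) (P3 := 1020054732) (W3 := 13421774) (N0 := 3) (En := eng) (mo := mog) (C1 := cd0q0) (C2 := cd0q2) (C3 := pd3)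
    rfl k0_pp_023_s

noncomputable def cut_pp_023_t : Cut := Cut.of [[⟨3, 0, 0, 2845415833⟩]]

noncomputable def f_pp_023_t : ℕ → ℕ → ℕ → ℕ → Bool := onCell 1610612736 536870912 0 536870912 1020054732 13421774
    (rowNE 3 eng mog cd0q0 cd0q2 pd3 2 true true true .up 0 2 3 (qsf 0 536870912 0 536870912 3) ndB0q0 ndB0q2 pcB3 cut_pp_023_t Ext.none)

def k0_pp_023_t : ∃ t, chk3 f_pp_023_t t 1 1 1 = true :=
  ⟨(a (b (a (a (b (a (b (a (l 16532288) (l 16563384)) (a (l 16577560) (l 16583264))) (b (c (l 16596232) (l 16570608)) (a (l 16670384) (l 16671448)))) (b (a (a (b (l 16691296) (l 16742736)) (b (l 16714544) (b (l 16751080) (l 16730600)))) (b (a (l 16735744) (l 16754688)) (a (b (l 16768912) (l 99019006567)) (b (l 95260927159) (l 4))))) (a (b (a (b (l 88818473399) (l 4)) (l 4)) (l 4)) (l 4)))) (b (a (b (a (l 16619024) (l 16660968)) (a (l 16712568) (l 16731104))) (b (a (l 16680152) (l 16697840)) (b (l 16738384) (a (l 16743832) (l 89355340327))))) (b (b (a (a (b (l 16762240)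 (l 16728312)) (b (l 16775208) (l 4))) (l 4)) (l 4)) (l 4)))) (a (b (a (b (a (l 16714304) (l 16729840)) (a (b (l 16761552) (l 104387703095)) (b (l 83986653591) (l 4)))) (b (l 2) (l 2))) (l 4)) (l 2))) (l 4)) (l 2)), by decide +kernel⟩

theorem c_pp_023_t : CertNE 0 536870912 0 536870912 1020054732 13421774 3 eng mog cd0q0 cd0q2 pd3 true true true .up 0 2 3
    ndB0q0 ndB0q2 pcB3 cut_pp_023_t Ext.none :=
  certNE2 (fam := true) (s1 := true) (s2 := true) (a := 0) (b := 2) (c := 3) (cn := .up) (n1 := ndB0q0) (n2 := ndB0q2) (pc := pcB3) (cut := cut_pp_023_t) (xt := Ext.none) (P1 := 0) (W1 := 536870912) (P2 := 0) (W2 := 536870912) (P3 := 1020054732) (W3 := 13421774) (N0 := 3) (En := eng) (mo := mog) (C1 := cd0q0) (C2 := cd0q2) (C3 := pd3)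
    rfl (fun _ => rfl) k0_pp_023_t

noncomputable def cut_pp_101_s : Cut := Cut.of [[⟨4, 0, 0, 1449551462⟩]]

noncomputable def f_pp_101_s : ℕ → ℕ → ℕ → ℕ → Bool := onCell 536870912 536870912 0 536870912 1020054732 13421774
    (rowNE 3 eng mog cd0q1 cd0q0 pd1 0 true true true .npn 1 0 1 (qsf 536870912 536870912 0 536870912 1) ndB0q1 ndB0q0 pcB1 cut_pp_101_s Ext.none)

def k0_pp_101_s : ∃ t, chk3 f_pp_101_s t 1 1 1 = true :=
  ⟨(l 6), by decide +kernel⟩

theorem c_pp_101_s : CertNE 536870912 536870912 0 536870912 1020054732 13421774 3 eng mog cd0q1 cd0q0 pd1 true true true .npn 1 0 1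
    ndB0q1 ndB0q0 pcB1 cut_pp_101_s Ext.none :=
  certNE0 (fam := true) (s1 := true) (s2 := true) (a := 1) (b := 0) (c := 1) (cn := .npn) (n1 := ndB0q1) (n2 := ndB0q0) (pc := pcB1) (cut := cut_pp_101_s) (xt := Ext.none) (P1 := 536870912) (W1 := 536870912) (P2 := 0) (W2 := 536870912) (P3 := 1020054732) (W3 := 13421774) (N0 := 3) (En := eng) (mo := mog) (C1 := cd0q1) (C2 := cd0q0) (C3 := pd1)
    rfl k0_pp_101_s

noncomputable def cut_pp_101_t : Cut := Cut.of [[⟨3, 0, 0, 2845415833⟩]]

noncomputable def f_pp_101_t : ℕ → ℕ → ℕ → ℕ → Bool := onCell 536870912 536870912 0 536870912 1020054732 13421774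
    (rowNE 3 eng mog cd0q1 cd0q0 pd1 0 true true true .npn 1 0 1 (qsf 536870912 536870912 0 536870912 1) ndB0q1 ndB0q0 pcB1 cut_pp_101_t Ext.none)

def k0_pp_101_t : ∃ t, chk3 f_pp_101_t t 1 1 1 = true :=
  ⟨(a (l 4) (l 5)), by decide +kernel⟩

theorem c_pp_101_t : CertNE 536870912 536870912 0 536870912 1020054732 13421774 3 eng mog cd0q1 cd0q0 pd1 true true true .npn 1 0 1
    ndB0q1 ndB0q0 pcB1 cut_pp_101_t Ext.none :=
  certNE0 (fam := true) (s1 := true) (s2 := true) (a := 1) (b := 0) (c := 1) (cn := .npn) (n1 := ndB0q1) (n2 := ndB0q0) (pc := pcB1) (cut := cut_pp_101_t) (xt := Ext.none) (P1 := 536870912) (W1 := 536870912) (P2 := 0) (W2 := 536870912) (P3 := 1020054732) (W3 := 13421774) (N0 := 3) (En := eng) (mo := mog) (C1 := cd0q1) (C2 := cd0q0) (C3 := pd1)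
    rfl k0_pp_101_t

noncomputable def cut_pp_102_s : Cut := Cut.of [[⟨4, 0, 0, 1449551462⟩]]

noncomputable def f_pp_102_s : ℕ → ℕ → ℕ → ℕ → Bool := onCell 536870912 536870912 0 536870912 1020054732 13421774
    (rowNE 3 eng mog cd0q1 cd0q0 pd2 0 true true true .npp 1 0 2 (qsf 536870912 536870912 0 536870912 2) ndB0q1 ndB0q0 pcB2 cut_pp_102_s Ext.none)

def k0_pp_102_s : ∃ t, chk3 f_pp_102_s t 1 1 1 = true :=
  ⟨(l 6), by decide +kernel⟩

theorem c_pp_102_s : CertNE 536870912 536870912 0 536870912 1020054732 13421774 3 eng mog cd0q1 cd0q0 pd2 true true true .npp 1 0 2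
    ndB0q1 ndB0q0 pcB2 cut_pp_102_s Ext.none :=
  certNE0 (fam := true) (s1 := true) (s2 := true) (a := 1) (b := 0) (c := 2) (cn := .npp) (n1 := ndB0q1) (n2 := ndB0q0) (pc := pcB2) (cut := cut_pp_102_s) (xt := Ext.none) (P1 := 536870912) (W1 := 536870912) (P2 := 0) (W2 := 536870912) (P3 := 1020054732) (W3 := 13421774) (N0 := 3) (En := eng) (mo := mog) (C1 := cd0q1) (C2 := cd0q0) (C3 := pd2)
    rfl k0_pp_102_s

noncomputable def cut_pp_102_t : Cut := Cut.of [[⟨3, 0, 0, 2845415833⟩]]

noncomputable def f_pp_102_t : ℕ → ℕ → ℕ → ℕ → Bool := onCell 536870912 536870912 0 536870912 1020054732 13421774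
    (rowNE 3 eng mog cd0q1 cd0q0 pd2 0 true true true .npp 1 0 2 (qsf 536870912 536870912 0 536870912 2) ndB0q1 ndB0q0 pcB2 cut_pp_102_t Ext.none)

def k0_pp_102_t : ∃ t, chk3 f_pp_102_t t 1 1 1 = true :=
  ⟨(a (l 4) (l 5)), by decide +kernel⟩

theorem c_pp_102_t : CertNE 536870912 536870912 0 536870912 1020054732 13421774 3 eng mog cd0q1 cd0q0 pd2 true true true .npp 1 0 2
    ndB0q1 ndB0q0 pcB2 cut_pp_102_t Ext.none :=
  certNE0 (fam := true) (s1 := true) (s2 := true) (a := 1) (b := 0) (c := 2) (cn := .npp) (n1 := ndB0q1) (n2 := ndB0q0) (pc := pcB2) (cut := cut_pp_102_t) (xt := Ext.none) (P1 := 536870912) (W1 := 536870912) (P2 := 0) (W2 := 536870912) (P3 := 1020054732) (W3 := 13421774) (N0 := 3) (En := eng) (mo := mog) (C1 := cd0q1) (C2 := cd0q0) (C3 := pd2)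
    rfl k0_pp_102_t

noncomputable def cut_pp_112_s : Cut := Cut.of [[⟨4, 0, 0, 1449551462⟩]]

noncomputable def f_pp_112_s : ℕ → ℕ → ℕ → ℕ → Bool := onCell 536870912 536870912 536870912 536870912 1020054732 13421774
    (rowNE 3 eng mog cd0q1 cd0q1 pd2 0 true true true .dn 1 1 2 (qsf 536870912 536870912 536870912 536870912 2) ndB0q1 ndB0q1 pcB2 cut_pp_112_s Ext.none)

def k0_pp_112_s : ∃ t, chk3 f_pp_112_s t 1 1 1 = true :=
  ⟨(l 4), by decide +kernel⟩

theorem c_pp_112_s : CertNE 536870912 536870912 536870912 536870912 1020054732 13421774 3 eng mog cd0q1 cd0q1 pd2 true true true .dn 1 1 2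
    ndB0q1 ndB0q1 pcB2 cut_pp_112_s Ext.none :=
  certNE0 (fam := true) (s1 := true) (s2 := true) (a := 1) (b := 1) (c := 2) (cn := .dn) (n1 := ndB0q1) (n2 := ndB0q1) (pc := pcB2) (cut := cut_pp_112_s) (xt := Ext.none) (P1 := 536870912) (W1 := 536870912) (P2 := 536870912) (W2 := 536870912) (P3 := 1020054732) (W3 := 13421774) (N0 := 3) (En := eng) (mo := mog) (C1 := cd0q1) (C2 := cd0q1) (C3 := pd2)
    rfl k0_pp_112_s

noncomputable def cut_pp_112_t : Cut := Cut.of [[⟨3, 0, 0, 2845415833⟩]]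

noncomputable def f_pp_112_t : ℕ → ℕ → ℕ → ℕ → Bool := onCell 536870912 536870912 536870912 536870912 1020054732 13421774
    (rowNE 3 eng mog cd0q1 cd0q1 pd2 0 true true true .dn 1 1 2 (qsf 536870912 536870912 536870912 536870912 2) ndB0q1 ndB0q1 pcB2 cut_pp_112_t Ext.none)

def k0_pp_112_t : ∃ t, chk3 f_pp_112_t t 1 1 1 = true :=
  ⟨(l 4), by decide +kernel⟩

theorem c_pp_112_t : CertNE 536870912 536870912 536870912 536870912 1020054732 13421774 3 eng mog cd0q1 cd0q1 pd2 true true true .dn 1 1 2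
    ndB0q1 ndB0q1 pcB2 cut_pp_112_t Ext.none :=
  certNE0 (fam := true) (s1 := true) (s2 := true) (a := 1) (b := 1) (c := 2) (cn := .dn) (n1 := ndB0q1) (n2 := ndB0q1) (pc := pcB2) (cut := cut_pp_112_t) (xt := Ext.none) (P1 := 536870912) (W1 := 536870912) (P2 := 536870912) (W2 := 536870912) (P3 := 1020054732) (W3 := 13421774) (N0 := 3) (En := eng) (mo := mog) (C1 := cd0q1) (C2 := cd0q1) (C3 := pd2)
    rfl k0_pp_112_t

noncomputable def cut_pp_113_s : Cut := Cut.of [[⟨4, 0, 0, 1449551462⟩]]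

noncomputable def f_pp_113_s : ℕ → ℕ → ℕ → ℕ → Bool := onCell 536870912 536870912 536870912 536870912 1020054732 13421774
    (rowNE 3 eng mog cd0q1 cd0q1 pd3 0 true true true .nn 1 1 3 (qsf 536870912 536870912 536870912 536870912 3) ndB0q1 ndB0q1 pcB3 cut_pp_113_s Ext.none)

def k0_pp_113_s : ∃ t, chk3 f_pp_113_s t 1 1 1 = true :=
  ⟨(l 4), by decide +kernel⟩

theorem c_pp_113_s : CertNE 536870912 536870912 536870912 536870912 1020054732 13421774 3 eng mog cd0q1 cd0q1 pd3 true true true .nn 1 1 3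
    ndB0q1 ndB0q1 pcB3 cut_pp_113_s Ext.none :=
  certNE0 (fam := true) (s1 := true) (s2 := true) (a := 1) (b := 1) (c := 3) (cn := .nn) (n1 := ndB0q1) (n2 := ndB0q1) (pc := pcB3) (cut := cut_pp_113_s) (xt := Ext.none) (P1 := 536870912) (W1 := 536870912) (P2 := 536870912) (W2 := 536870912) (P3 := 1020054732) (W3 := 13421774) (N0 := 3) (En := eng) (mo := mog) (C1 := cd0q1) (C2 := cd0q1) (C3 := pd3)
    rfl k0_pp_113_s

noncomputable def cut_pp_113_t : Cut := Cut.of [[⟨3, 0, 0, 2845415833⟩]]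

noncomputable def f_pp_113_t : ℕ → ℕ → ℕ → ℕ → Bool := onCell 536870912 536870912 536870912 536870912 1020054732 13421774
    (rowNE 3 eng mog cd0q1 cd0q1 pd3 0 true true true .nn 1 1 3 (qsf 536870912 536870912 536870912 536870912 3) ndB0q1 ndB0q1 pcB3 cut_pp_113_t Ext.none)

def k0_pp_113_t : ∃ t, chk3 f_pp_113_t t 1 1 1 = true :=
  ⟨(l 4), by decide +kernel⟩

theorem c_pp_113_t : CertNE 536870912 536870912 536870912 536870912 1020054732 13421774 3 eng mog cd0q1 cd0q1 pd3 true true true .nn 1 1 3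
    ndB0q1 ndB0q1 pcB3 cut_pp_113_t Ext.none :=
  certNE0 (fam := true) (s1 := true) (s2 := true) (a := 1) (b := 1) (c := 3) (cn := .nn) (n1 := ndB0q1) (n2 := ndB0q1) (pc := pcB3) (cut := cut_pp_113_t) (xt := Ext.none) (P1 := 536870912) (W1 := 536870912) (P2 := 536870912) (W2 := 536870912) (P3 := 1020054732) (W3 := 13421774) (N0 := 3) (En := eng) (mo := mog) (C1 := cd0q1) (C2 := cd0q1) (C3 := pd3)
    rfl k0_pp_113_t

noncomputable def cut_pp_123_s : Cut := Cut.of [[⟨4, 0, 0, 1449551462⟩]]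

noncomputable def f_pp_123_s : ℕ → ℕ → ℕ → ℕ → Bool := onCell 536870912 536870912 0 536870912 1020054732 13421774
    (rowNE 3 eng mog cd0q1 cd0q2 pd3 0 true true true .npn 1 2 3 (qsf 536870912 536870912 0 536870912 3) ndB0q1 ndB0q2 pcB3 cut_pp_123_s Ext.none)

def k0_pp_123_s : ∃ t, chk3 f_pp_123_s t 1 1 1 = true :=
  ⟨(l 6), by decide +kernel⟩

theorem c_pp_123_s : CertNE 536870912 536870912 0 536870912 1020054732 13421774 3 eng mog cd0q1 cd0q2 pd3 true true true .npn 1 2 3
    ndB0q1 ndB0q2 pcB3 cut_pp_123_s Ext.none :=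
  certNE0 (fam := true) (s1 := true) (s2 := true) (a := 1) (b := 2) (c := 3) (cn := .npn) (n1 := ndB0q1) (n2 := ndB0q2) (pc := pcB3) (cut := cut_pp_123_s) (xt := Ext.none) (P1 := 536870912) (W1 := 536870912) (P2 := 0) (W2 := 536870912) (P3 := 1020054732) (W3 := 13421774) (N0 := 3) (En := eng) (mo := mog) (C1 := cd0q1) (C2 := cd0q2) (C3 := pd3)
    rfl k0_pp_123_s

noncomputable def cut_pp_123_t : Cut := Cut.of [[⟨3, 0, 0, 2845415833⟩]]

noncomputable def f_pp_123_t : ℕ → ℕ → ℕ → ℕ → Bool := onCell 536870912 536870912 0 536870912 1020054732 13421774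
    (rowNE 3 eng mog cd0q1 cd0q2 pd3 0 true true true .npn 1 2 3 (qsf 536870912 536870912 0 536870912 3) ndB0q1 ndB0q2 pcB3 cut_pp_123_t Ext.none)

def k0_pp_123_t : ∃ t, chk3 f_pp_123_t t 1 1 1 = true :=
  ⟨(a (b (b (a (a (b (a (a (l 16742400) (b (l 16742456) (l 16769440))) (a (b (l 16756664) (l 94724064647)) (b (l 16769152) (l 4)))) (a (b (a (l 96334668183) (l 4)) (l 4)) (l 4))) (b (a (b (a (l 94187199127) (l 4)) (l 4)) (l 4)) (l 4))) (l 4)) (l 4)) (l 4)) (l 4)), by decide +kernel⟩

theorem c_pp_123_t : CertNE 536870912 536870912 0 536870912 1020054732 13421774 3 eng mog cd0q1 cd0q2 pd3 true true true .npn 1 2 3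
    ndB0q1 ndB0q2 pcB3 cut_pp_123_t Ext.none :=
  certNE0 (fam := true) (s1 := true) (s2 := true) (a := 1) (b := 2) (c := 3) (cn := .npn) (n1 := ndB0q1) (n2 := ndB0q2) (pc := pcB3) (cut := cut_pp_123_t) (xt := Ext.none) (P1 := 536870912) (W1 := 536870912) (P2 := 0) (W2 := 536870912) (P3 := 1020054732) (W3 := 13421774) (N0 := 3) (En := eng) (mo := mog) (C1 := cd0q1) (C2 := cd0q2) (C3 := pd3)
    rfl k0_pp_123_t

noncomputable def cut_pp_202_s : Cut := Cut.of [[⟨4, 0, 0, 1449551462⟩]]

noncomputable def f_pp_202_s : ℕ → ℕ → ℕ → ℕ → Bool := onCell 0 536870912 0 536870912 1020054732 13421774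
    (rowNE 3 eng mog cd0q2 cd0q0 pd2 0 true true true .pp 2 0 2 (qsf 0 536870912 0 536870912 2) ndB0q2 ndB0q0 pcB2 cut_pp_202_s Ext.none)

def k0_pp_202_s : ∃ t, chk3 f_pp_202_s t 1 1 1 = true :=
  ⟨(l 5), by decide +kernel⟩

theorem c_pp_202_s : CertNE 0 536870912 0 536870912 1020054732 13421774 3 eng mog cd0q2 cd0q0 pd2 true true true .pp 2 0 2
    ndB0q2 ndB0q0 pcB2 cut_pp_202_s Ext.none :=
  certNE0 (fam := true) (s1 := true) (s2 := true) (a := 2) (b := 0) (c := 2) (cn := .pp) (n1 := ndB0q2) (n2 := ndB0q0) (pc := pcB2) (cut := cut_pp_202_s) (xt := Ext.none) (P1 := 0) (W1 := 536870912) (P2 := 0) (W2 := 536870912) (P3 := 1020054732) (W3 := 13421774) (N0 := 3) (En := eng) (mo := mog) (C1 := cd0q2) (C2 := cd0q0) (C3 := pd2)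
    rfl k0_pp_202_s

noncomputable def cut_pp_202_t : Cut := Cut.of [[⟨3, 0, 0, 2845415833⟩]]

noncomputable def f_pp_202_t : ℕ → ℕ → ℕ → ℕ → Bool := onCell 0 536870912 0 536870912 1020054732 13421774
    (rowNE 3 eng mog cd0q2 cd0q0 pd2 0 true true true .pp 2 0 2 (qsf 0 536870912 0 536870912 2) ndB0q2 ndB0q0 pcB2 cut_pp_202_t Ext.none)

def k0_pp_202_t : ∃ t, chk3 f_pp_202_t t 1 1 1 = true :=
  ⟨(l 5), by decide +kernel⟩

theorem c_pp_202_t : CertNE 0 536870912 0 536870912 1020054732 13421774 3 eng mog cd0q2 cd0q0 pd2 true true true .pp 2 0 2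
    ndB0q2 ndB0q0 pcB2 cut_pp_202_t Ext.none :=
  certNE0 (fam := true) (s1 := true) (s2 := true) (a := 2) (b := 0) (c := 2) (cn := .pp) (n1 := ndB0q2) (n2 := ndB0q0) (pc := pcB2) (cut := cut_pp_202_t) (xt := Ext.none) (P1 := 0) (W1 := 536870912) (P2 := 0) (W2 := 536870912) (P3 := 1020054732) (W3 := 13421774) (N0 := 3) (En := eng) (mo := mog) (C1 := cd0q2) (C2 := cd0q0) (C3 := pd2)
    rfl k0_pp_202_t

noncomputable def cut_pp_203_s : Cut := Cut.of [[⟨4, 0, 0, 1449551462⟩]]

noncomputable def f_pp_203_s : ℕ → ℕ → ℕ → ℕ → Bool := onCell 0 536870912 0 536870912 1020054732 13421774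
    (rowNE 3 eng mog cd0q2 cd0q0 pd3 0 true true true .up 2 0 3 (qsf 0 536870912 0 536870912 3) ndB0q2 ndB0q0 pcB3 cut_pp_203_s Ext.none)

def k0_pp_203_s : ∃ t, chk3 f_pp_203_s t 1 1 1 = true :=
  ⟨(l 5), by decide +kernel⟩

theorem c_pp_203_s : CertNE 0 536870912 0 536870912 1020054732 13421774 3 eng mog cd0q2 cd0q0 pd3 true true true .up 2 0 3
    ndB0q2 ndB0q0 pcB3 cut_pp_203_s Ext.none :=
  certNE0 (fam := true) (s1 := true) (s2 := true) (a := 2) (b := 0) (c := 3) (cn := .up) (n1 := ndB0q2) (n2 := ndB0q0) (pc := pcB3) (cut := cut_pp_203_s) (xt := Ext.none) (P1 := 0) (W1 := 536870912) (P2 := 0) (W2 := 536870912) (P3 := 1020054732) (W3 := 13421774) (N0 := 3) (En := eng) (mo := mog) (C1 := cd0q2) (C2 := cd0q0) (C3 := pd3)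
    rfl k0_pp_203_s

noncomputable def cut_pp_203_t : Cut := Cut.of [[⟨3, 0, 0, 2845415833⟩]]

noncomputable def f_pp_203_t : ℕ → ℕ → ℕ → ℕ → Bool := onCell 0 536870912 0 536870912 1020054732 13421774
    (rowNE 3 eng mog cd0q2 cd0q0 pd3 0 true true true .up 2 0 3 (qsf 0 536870912 0 536870912 3) ndB0q2 ndB0q0 pcB3 cut_pp_203_t Ext.none)

def k0_pp_203_t : ∃ t, chk3 f_pp_203_t t 1 1 1 = true :=
  ⟨(l 5), by decide +kernel⟩

theorem c_pp_203_t : CertNE 0 536870912 0 536870912 1020054732 13421774 3 eng mog cd0q2 cd0q0 pd3 true true true .up 2 0 3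
    ndB0q2 ndB0q0 pcB3 cut_pp_203_t Ext.none :=
  certNE0 (fam := true) (s1 := true) (s2 := true) (a := 2) (b := 0) (c := 3) (cn := .up) (n1 := ndB0q2) (n2 := ndB0q0) (pc := pcB3) (cut := cut_pp_203_t) (xt := Ext.none) (P1 := 0) (W1 := 536870912) (P2 := 0) (W2 := 536870912) (P3 := 1020054732) (W3 := 13421774) (N0 := 3) (En := eng) (mo := mog) (C1 := cd0q2) (C2 := cd0q0) (C3 := pd3)
    rfl k0_pp_203_t

noncomputable def cut_pp_213_s : Cut := Cut.of [[⟨4, 0, 0, 1449551462⟩]]

noncomputable def f_pp_213_s : ℕ → ℕ → ℕ → ℕ → Bool := onCell 0 536870912 536870912 536870912 1020054732 13421774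
    (rowNE 3 eng mog cd0q2 cd0q1 pd3 0 true true true .pnn 2 1 3 (qsf 0 536870912 536870912 536870912 3) ndB0q2 ndB0q1 pcB3 cut_pp_213_s Ext.none)

def k0_pp_213_s : ∃ t, chk3 f_pp_213_s t 1 1 1 = true :=
  ⟨(l 6), by decide +kernel⟩

theorem c_pp_213_s : CertNE 0 536870912 536870912 536870912 1020054732 13421774 3 eng mog cd0q2 cd0q1 pd3 true true true .pnn 2 1 3
    ndB0q2 ndB0q1 pcB3 cut_pp_213_s Ext.none :=
  certNE0 (fam := true) (s1 := true) (s2 := true) (a := 2) (b := 1) (c := 3) (cn := .pnn) (n1 := ndB0q2) (n2 := ndB0q1) (pc := pcB3) (cut := cut_pp_213_s) (xt := Ext.none) (P1 := 0) (W1 := 536870912) (P2 := 536870912) (W2 := 536870912) (P3 := 1020054732) (W3 := 13421774) (N0 := 3) (En := eng) (mo := mog) (C1 := cd0q2) (C2 := cd0q1) (C3 := pd3)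
    rfl k0_pp_213_s

noncomputable def cut_pp_213_t : Cut := Cut.of [[⟨3, 0, 0, 2845415833⟩]]

noncomputable def f_pp_213_t : ℕ → ℕ → ℕ → ℕ → Bool := onCell 0 536870912 536870912 536870912 1020054732 13421774
    (rowNE 3 eng mog cd0q2 cd0q1 pd3 0 true true true .pnn 2 1 3 (qsf 0 536870912 536870912 536870912 3) ndB0q2 ndB0q1 pcB3 cut_pp_213_t Ext.none)

def k0_pp_213_t : ∃ t, chk3 f_pp_213_t t 1 1 1 = true :=
  ⟨(a (l 5) (l 4)), by decide +kernel⟩

theorem c_pp_213_t : CertNE 0 536870912 536870912 536870912 1020054732 13421774 3 eng mog cd0q2 cd0q1 pd3 true true true .pnn 2 1 3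
    ndB0q2 ndB0q1 pcB3 cut_pp_213_t Ext.none :=
  certNE0 (fam := true) (s1 := true) (s2 := true) (a := 2) (b := 1) (c := 3) (cn := .pnn) (n1 := ndB0q2) (n2 := ndB0q1) (pc := pcB3) (cut := cut_pp_213_t) (xt := Ext.none) (P1 := 0) (W1 := 536870912) (P2 := 536870912) (W2 := 536870912) (P3 := 1020054732) (W3 := 13421774) (N0 := 3) (En := eng) (mo := mog) (C1 := cd0q2) (C2 := cd0q1) (C3 := pd3)
    rfl k0_pp_213_t

noncomputable def cut_pm_001_s : Cut := Cut.of [[⟨4, 0, 0, 1449551462⟩]]

noncomputable def f_pm_001_s : ℕ → ℕ → ℕ → ℕ → Bool := onCell 0 536870912 0 536870912 1020054732 13421774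
    (rowNE 3 eng mog cd0q0 cd0q0 pd1 0 true true false .up 0 0 1 (qsf 0 536870912 0 536870912 1) ndB0q0 ndB0q0 pcB1 cut_pm_001_s Ext.none)

def k0_pm_001_s : ∃ t, chk3 f_pm_001_s t 1 1 1 = true :=
  ⟨(l 3), by decide +kernel⟩

theorem c_pm_001_s : CertNE 0 536870912 0 536870912 1020054732 13421774 3 eng mog cd0q0 cd0q0 pd1 true true false .up 0 0 1
    ndB0q0 ndB0q0 pcB1 cut_pm_001_s Ext.none :=
  certNE0 (fam := true) (s1 := true) (s2 := false) (a := 0) (b := 0) (c := 1) (cn := .up) (n1 := ndB0q0) (n2 := ndB0q0) (pc := pcB1) (cut := cut_pm_001_s) (xt := Ext.none) (P1 := 0) (W1 := 536870912) (P2 := 0) (W2 := 536870912) (P3 := 1020054732) (W3 := 13421774) (N0 := 3) (En := eng) (mo := mog) (C1 := cd0q0) (C2 := cd0q0) (C3 := pd1)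
    rfl k0_pm_001_s

noncomputable def cut_pm_001_t : Cut := Cut.of [[⟨3, 0, 0, 2845415833⟩]]

noncomputable def f_pm_001_t : ℕ → ℕ → ℕ → ℕ → Bool := onCell 0 536870912 0 536870912 1020054732 13421774
    (rowNE 3 eng mog cd0q0 cd0q0 pd1 0 true true false .up 0 0 1 (qsf 0 536870912 0 536870912 1) ndB0q0 ndB0q0 pcB1 cut_pm_001_t Ext.none)

def k0_pm_001_t : ∃ t, chk3 f_pm_001_t t 1 1 1 = true :=
  ⟨(l 3), by decide +kernel⟩

theorem c_pm_001_t : CertNE 0 536870912 0 536870912 1020054732 13421774 3 eng mog cd0q0 cd0q0 pd1 true true false .up 0 0 1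
    ndB0q0 ndB0q0 pcB1 cut_pm_001_t Ext.none :=
  certNE0 (fam := true) (s1 := true) (s2 := false) (a := 0) (b := 0) (c := 1) (cn := .up) (n1 := ndB0q0) (n2 := ndB0q0) (pc := pcB1) (cut := cut_pm_001_t) (xt := Ext.none) (P1 := 0) (W1 := 536870912) (P2 := 0) (W2 := 536870912) (P3 := 1020054732) (W3 := 13421774) (N0 := 3) (En := eng) (mo := mog) (C1 := cd0q0) (C2 := cd0q0) (C3 := pd1)
    rfl k0_pm_001_t

noncomputable def cut_pm_011_s : Cut := Cut.of [[⟨4, 0, 0, 1449551462⟩], [⟨0, 0, 0, 38347922⟩, ⟨1, 1, 0, 38347922⟩, ⟨2, 1, 0, 38347922⟩]]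

noncomputable def f_pm_011_s : ℕ → ℕ → ℕ → ℕ → Bool := onCell 536870912 536870912 536870912 536870912 1020054732 13421774
    (rowNE 3 eng mog cd0q0 cd0q1 pd1 2 true true false .pnn 0 1 1 (qsf 0 536870912 536870912 536870912 1) ndB0q0 ndB0q1 pcB1 cut_pm_011_s Ext.none)

def k0_pm_011_s : ∃ t, chk3 f_pm_011_s t 1 1 1 = true :=
  ⟨(a (l 3) (b (l 3) (a (l 3) (b (l 3) (a (l 3) (b (l 3) (a (l 3) (b (l 3) (l 14))))))))), by decide +kernel⟩

theorem c_pm_011_s : CertNE 0 536870912 536870912 536870912 1020054732 13421774 3 eng mog cd0q0 cd0q1 pd1 true true false .pnn 0 1 1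
    ndB0q0 ndB0q1 pcB1 cut_pm_011_s Ext.none :=
  certNE2 (fam := true) (s1 := true) (s2 := false) (a := 0) (b := 1) (c := 1) (cn := .pnn) (n1 := ndB0q0) (n2 := ndB0q1) (pc := pcB1) (cut := cut_pm_011_s) (xt := Ext.none) (P1 := 0) (W1 := 536870912) (P2 := 536870912) (W2 := 536870912) (P3 := 1020054732) (W3 := 13421774) (N0 := 3) (En := eng) (mo := mog) (C1 := cd0q0) (C2 := cd0q1) (C3 := pd1)
    rfl (fun _ => rfl) k0_pm_011_s

noncomputable def cut_pm_011_t : Cut := Cut.of [[⟨3, 0, 0, 2845415833⟩], [⟨0, 0, 0, 38347922⟩, ⟨1, 1, 0, 38347922⟩, ⟨2, 1, 0, 38347922⟩]]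

noncomputable def f_pm_011_t : ℕ → ℕ → ℕ → ℕ → Bool := onCell 0 536870912 536870912 536870912 1020054732 13421774
    (rowNE 3 eng mog cd0q0 cd0q1 pd1 0 true true false .pnn 0 1 1 (qsf 0 536870912 536870912 536870912 1) ndB0q0 ndB0q1 pcB1 cut_pm_011_t Ext.none)

def k0_pm_011_t : ∃ t, chk3 f_pm_011_t t 1 1 1 = true :=
  ⟨(l 6), by decide +kernel⟩

theorem c_pm_011_t : CertNE 0 536870912 536870912 536870912 1020054732 13421774 3 eng mog cd0q0 cd0q1 pd1 true true false .pnn 0 1 1
    ndB0q0 ndB0q1 pcB1 cut_pm_011_t Ext.none :=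
  certNE0 (fam := true) (s1 := true) (s2 := false) (a := 0) (b := 1) (c := 1) (cn := .pnn) (n1 := ndB0q0) (n2 := ndB0q1) (pc := pcB1) (cut := cut_pm_011_t) (xt := Ext.none) (P1 := 0) (W1 := 536870912) (P2 := 536870912) (W2 := 536870912) (P3 := 1020054732) (W3 := 13421774) (N0 := 3) (En := eng) (mo := mog) (C1 := cd0q0) (C2 := cd0q1) (C3 := pd1)
    rfl k0_pm_011_t

end Pool.Agent.Strip051.G.I9500_9625.Tab.CS.BA00

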