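import Pool.Agent.Strip051.G.I9500_9625.Tab
import Pool.Agent.Strip051.PB.StripB

/-! # Strips, near vertex: certificates 1 (generated) -/

set_option linter.all false
set_option maxRecDepth 100000

namespace Pool.Agent.Strip051.G.I9500_9625.Tab.CS.BA00

open Pool.Agent.Strip051.PB Pool.Agent.Strip051.PB.T
open Pool.Agent.Strip051.G.I9500_9625.Tab

noncomputable def cut_pm_012_s : Cut := Cut.of [[⟨4, 0, 0, 1449551462⟩], [⟨0, 0, 0, 16777216⟩, ⟨1, 1, 0, 16777216⟩, ⟨2, 1, 0, 16777216⟩]]

noncomputable def f_pm_012_s : ℕ → ℕ → ℕ → ℕ → Bool := onCell 1073741824 536870912 536870912 536870912 1020054732 13421774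
    (rowNE 3 eng mog cd0q0 cd0q1 pd2 2 true true false .pnp 0 1 2 (qsf 0 536870912 536870912 536870912 2) ndB0q0 ndB0q1 pcB2 cut_pm_012_s Ext.none)

def k0_pm_012_s : ∃ t, chk3 f_pm_012_s t 4 2 1 = true :=
  ⟨(a (l 3) (l 3)), by decide +kernel⟩

def k1_pm_012_s : ∃ t, chk3 f_pm_012_s t 4 6 1 = true :=
  ⟨(a (l 3) (a (b (l 3) (a (l 3) (b (l 3) (a (l 3) (b (l 3) (a (l 3) (l 86603868631))))))) (b (a (l 3) (b (l 3) (a (b (l 3) (l 16750104)) (b (l 16763336) (l 16774480))))) (a (b (a (l 3) (b (l 3) (a (l 16754968) (l 16775168)))) (a (b (a (l 16704160) (l 16768552)) (a (l 16773768) (l 16766456))) (b (l 16769272) (a (l 16738240) (c (l 16751048) (l 16723976)))))) (b (a (b (l 16774168) (l 16767376)) (b (l 16764560) (a (l 16756912) (l 16722288)))) (a (b (a (l 16758592) (b (l 16754784) (l 16747048))) (a (b (l 16747216) (c (l 16736416) (l 16712360))) (b (l 16693528) (l 16696720)))) (b (a (b (l 16746432) (l 16714256)) (b (l 16734200) (l 16718344))) (c (l 16665080) (l 16632336))))))))), by decide +kernel⟩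

def k2_pm_012_s : ∃ t, chk3 f_pm_012_s t 8 14 1 = true :=
  ⟨(a (l 3) (b (l 3) (a (l 3) (b (l 3) (a (b (l 3) (a (l 3) (b (l 3) (a (l 412484588839) (b (l 325511527127) (l 16760472)))))) (b (a (b (l 3) (a (l 3) (l 343228253671))) (b (a (l 3) (a (l 176798241175) (l 16755880))) (a (c (l 118279321735) (l 117205579111)) (l 16772480)))) (a (b (a (b (l 416779568359) (l 159081510423)) (l 91972659143)) (a (l 16752544) (l 16748424))) (b (l 16758488) (l 16742312))))))))), by decide +kernel⟩

def k3_pm_012_s : ∃ t, chk3 f_pm_012_s t 16 30 1 = true :=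
  ⟨(a (l 3) (b (l 3) (a (l 3) (b (l 3) (a (l 3) (b (l 3) (a (b (l 3) (a (l 3) (b (l 3) (a (l 381882983655) (b (l 272898194647) (l 16776656)))))) (b (a (l 446844369383) (b (l 389399171255) (a (l 222969196839) (l 16776376)))) (a (b (a (l 336785829639) (l 126332433719)) (l 16775576)) (l 16770464)))))))))), by decide +kernel⟩

def k4_pm_012_s : ∃ t, chk3 f_pm_012_s t 32 62 1 = true :=
  ⟨(a (l 3) (b (l 3) (a (l 3) (b (l 3) (a (l 3) (b (l 3) (a (l 3) (b (l 3) (a (a (l 3) (a (l 437180694215) (b (l 3) (b (l 3) (l 16777072))))) (a (b (l 502678945559) (a (b (l 16777312) (l 16776872)) (l 16776824))) (b (a (l 298667996999) (b (l 440401919655) (l 16777016))) (l 16776480)))))))))))), by decide +kernel⟩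

def k5_pm_012_s : ∃ t, chk3 f_pm_012_s t 66 124 1 = true :=
  ⟨(a (l 3) (b (l 3) (a (l 3) (b (l 3) (a (b (l 3) (a (l 464024239111) (b (l 419463953463) (a (l 168208357671) (l 16776880))))) (b (a (b (l 3) (l 387251698535)) (b (l 338396445735) (l 16776856))) (a (b (c (l 16777016) (l 16776952)) (l 16776288)) (l 16775800)))))))), by decide +kernel⟩

def k6_pm_012_s : ∃ t, chk3 f_pm_012_s t 132 125 1 = true :=
  ⟨(b (a (l 3) (b (l 3) (a (b (l 3) (a (l 3) (l 440401916983))) (b (a (l 3) (c (l 392083534951) (l 396915370519))) (a (b (l 381882990343) (a (a (l 190220075559) (l 16777056)) (l 16776872))) (b (c (a (l 16777040) (l 16776808)) (l 16776952)) (l 16776448))))))) (a (b (a (l 3) (b (l 504289557879) (b (a (l 3) (a (c (l 266992610615) (l 279877517671)) (c (l 16776960) (l 16776984)))) (a (a (l 355576315703) (b (l 204178719207) (l 16776928))) (l 16776520))))) (a (b (a (a (l 464024239767) (b (l 3) (b (l 362018766967) (l 16777016)))) (a (b (l 397452246839) (l 16776800)) (b (b (l 277193163095) (l 16776976))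 (l 16776392)))) (b (a (a (b (l 16777368) (l 16776680)) (l 16776432)) (l 16775768)) (l 16772720))) (b (a (b (l 16776552) (l 16775768)) (l 16770160)) (c (l 16768808) (l 16769144))))) (b (a (b (a (b (l 455434305255) (a (a (l 320679706887) (l 166597750231)) (l 16776280))) (a (b (b (l 408189664839) (l 16777064)) (l 16776632)) (l 80698405287))) (b (l 16773520) (l 16770224))) (b (b (l 16773544) (l 16770336)) (l 16772080))) (a (b (l 16771824) (l 16767808)) (b (l 16768256) (a (b (l 16772744) (a (a (l 16772312) (l 16769760)) (b (l 16767160) (l 16762472)))) (b (a (l 16767400) (b (l 16772640) (l 16767640))) (c (l 16761752) (l 16765464))))))))), by decide +kernel⟩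

def k7_pm_012_s : ∃ t, chk3 f_pm_012_s t 133 250 1 = true :=
  ⟨(a (b (a (a (l 3) (b (l 3) (a (l 446307499719) (b (l 3) (l 159081560103))))) (b (a (l 3) (a (l 378124891319) (b (l 483888463671) (l 16777088)))) (a (b (b (l 316921610567) (l 124184950887)) (l 16776784)) (l 16771136)))) (a (b (a (b (c (l 315847862919) (l 291688667239)) (c (l 16776872) (l 16776944))) (b (l 16776888) (l 16776376))) (b (l 16770952) (l 16770472))) (b (l 16774296) (l 16769248)))) (b (a (b (a (a (b (l 221895459319) (l 16776728)) (l 16775040)) (l 16776104)) (l 16772616)) (b (l 16772232) (l 16773472))) (a (a (l 16769856) (l 16767632)) (b (l 16772080) (a (l 16760696) (b (l 16770504) (c (l 16759472) (a (l 16758680) (l 16757584))))))))), by decide +kernel⟩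

def k8_pm_012_s : ∃ t, chk3 f_pm_012_s t 133 251 1 = true :=
  ⟨(a (b (a (b (l 16769776) (l 16763512)) (b (l 16762912) (a (b (l 16773088) (c (l 16772920) (l 16766640))) (b (c (l 16772528) (l 16760968)) (c (l 16766000) (a (l 16765360) (l 16748128))))))) (a (b (a (b (l 16773320) (c (l 16767368) (a (l 16773192) (l 16767152)))) (b (c (l 16767624) (a (l 16772792) (l 16766784))) (c (l 16766576) (a (l 16765968) (l 16748528))))) (c (a (b (l 16766808) (l 16748544)) (l 16757576)) (a (b (a (l 16760944) (l 16748696)) (l 16746200)) (l 16754856)))) (c (b (a (b (l 16766304) (l 16748136)) (l 16757120)) (c (l 16754448) (l 16752520))) (b (a (b (a (l 16765696) (l 16748328)) (l 16745872)) (l 16754480)) (c (l 16750568) (l 16748576)))))) (b (a (b (a (c (l 16772400) (l 16760872)) (b (l 16760728) (c (l 16765344) (a (l 16759392) (l 16758128))))) (a (b (c (l 16765672) (a (l 16765000) (l 16758384))) (l 16760632)) (c (l 16756608) (l 16754024)))) (b (a (b (c (l 16765024) (a (l 16759032) (l 16757864))) (l 16759176)) (c (l 16745632)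 (l 16743112))) (c (c (l 16742920) (l 16741056)) (c (l 16739176) (l 16747744))))) (c (a (b (c (l 16753944) (l 16752048)) (c (l 16749376) (l 16746664))) (c (c (l 16747328) (l 16745792)) (b (l 16735672) (l 16740800)))) (b (a (c (l 16750128) (l 16748184)) (c (l 16743440) (l 16740696))) (a (c (l 16743912) (l 16741120)) (c (l 16737256) (l 16733664))))))), by decide +kernel⟩

def k9_pm_012_s : ∃ t, chk3 f_pm_012_s t 67 248 1 = true :=
  ⟨(a (a (b (l 3) (a (l 3) (b (l 3) (l 442012528967)))) (b (a (l 3) (b (l 3) (a (l 3) (b (l 465634846167) (l 231022258135))))) (a (c (b (l 413021500487) (a (b (l 392083535911) (l 16776968)) (l 16776448))) (b (l 407115912215) (a (l 232632870695) (l 16776320)))) (b (b (a (l 328732768183) (l 16776472)) (l 16773856)) (l 16772296))))) (a (b (a (b (a (l 425369525415) (b (l 384567340503) (l 16776992))) (a (b (l 180019516263) (l 16776312)) (l 16775744))) (b (c (l 16776016) (l 16775832)) (l 16774264))) (a (b (l 16769336) (l 16772872)) (c (l 16761576) (l 16760824)))) (b (c (a (l 16762896)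 (l 16760976)) (l 16766520)) (c (l 16763896) (l 16757528))))), by decide +kernel⟩

def k10_pm_012_s : ∃ t, chk3 f_pm_012_s t 67 249 1 = true :=
  ⟨(b (a (a (a (b (l 3) (a (c (l 350207603351) (l 381346115303)) (b (c (l 200957483159) (l 247128390999)) (l 16776576)))) (b (a (b (l 449528721287) (c (l 175724560391) (l 16776512))) (b (l 174650812247) (l 16776288))) (c (l 16775728) (l 16775472)))) (c (a (l 16774664) (l 16772752)) (a (l 16769008) (l 16761568)))) (a (a (l 16765016) (c (l 16763392) (l 16762104))) (b (a (l 16761568) (a (b (l 16765712) (c (l 16754688) (l 16758152))) (b (c (l 16754608) (l 16752856)) (c (l 16763072) (l 16760728))))) (a (a (b (l 16765944) (c (l 16754904) (l 16758336))) (b (c (l 16754784) (l 16758232)) (l 16751440))) (c (l 16750080) (l 16736432)))))) (a (a (a (b (a (l 87140854423) (l 16775472)) (l 16774456)) (a (l 16770488) (l 16767512))) (a (c (l 16761136) (l 16760232)) (b (l 16748864) (c (l 16763376) (l 16761976))))) (a (a (a (b (l 16768152) (b (l 16756208) (c (l 16755544) (l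 16753688)))) (b (l 16761680) (b (c (l 16755368) (l 16758760)) (l 16751752)))) (b (a (b (l 16766272) (c (l 16755192) (l 16758600))) (b (c (l 16755040) (l 16758464)) (l 16751560))) (c (l 16750352) (l 16736536)))) (c (a (c (l 16738176) (l 16736184)) (c (l 16733408) (l 16730672))) (a (c (l 16734160) (l 16732104)) (c (l 16727896) (l 16725088))))))), by decide +kernel⟩

def k11_pm_012_s : ∃ t, chk3 f_pm_012_s t 134 250 1 = true :=
  ⟨(a (a (b (a (l 16767480) (l 16761216)) (b (a (l 16770512) (b (l 16769792) (c (l 16758864) (l 16762648)))) (a (b (c (l 16759168) (a (l 16768824) (l 16757312))) (c (l 16746680) (l 16744608))) (c (l 16755704) (l 16755896))))) (b (b (l 16760400) (a (l 16769848) (b (l 16769128) (c (l 16758272) (l 16756784))))) (b (c (a (b (l 16758568) (l 16746280)) (l 16755328)) (a (b (l 16762336) (l 16754784)) (b (l 16754608) (l 16761720)))) (c (l 16751592) (c (l 16738392) (l 16736552)))))) (b (a (a (b (l 16769224) (b (c (l 16757992) (l 16756488)) (c (l 16756352) (l 16754424)))) (b (c (l 16758112)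 (l 16756664)) (b (c (l 16756144) (l 16754240)) (l 16752304)))) (b (a (b (l 16761936) (c (l 16755944) (l 16754048))) (b (c (l 16755736) (l 16753864)) (l 16741520))) (c (l 16750888) (l 16747400)))) (b (a (c (l 16751224) (l 16747664)) (c (l 16745832) (l 16740728))) (c (a (l 16746160) (l 16740760)) (a (b (l 16732160) (l 16728800)) (l 16731392)))))), by decide +kernel⟩

def k12_pm_012_s : ∃ t, chk3 f_pm_012_s t 134 251 1 = true :=
  ⟨(a (b (c (a (c (l 16750600) (b (l 16740600) (l 16735184))) (c (l 16745528) (l 16742520))) (a (b (c (l 16738752) (l 16736872)) (c (l 16732512) (l 16729792))) (c (a (l 16730640) (l 16727328)) (a (l 16727744) (l 16724040))))) (c (c (a (c (l 16731936) (l 16740504)) (l 16736400)) (a (a (l 16739072) (l 16736144)) (c (l 16722440) (l 16730592)))) (a (c (a (l 16735352) (l 16732032)) (a (l 16731576) (l 16727856))) (c (a (l 16728720) (l 16725408)) (a (l 16724144) (l 16720440)))))) (c (b (c (a (l 16740480) (l 16735456)) (a (l 16736696) (l 16730912))) (c (a (l 16731352) (l 16726328))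 (a (b (l 16739112) (l 16733776)) (b (l 16733320) (l 16727984))))) (b (a (c (a (l 16724032) (l 16720736)) (a (l 16720344) (l 16716656))) (c (b (l 16739920) (l 16733680)) (c (l 16712320) (l 16709968)))) (a (c (b (l 16734040) (l 16727880)) (a (l 16716752) (l 16713064))) (c (b (l 16727480) (l 16721312)) (b (l 16721552) (l 16714552))))))), by decide +kernel⟩

def k13_pm_012_s : ∃ t, chk3 f_pm_012_s t 135 125 1 = true :=
  ⟨(b (a (b (c (a (c (l 16738624) (l 16736544)) (c (l 16733712) (l 16730880))) (a (c (l 16734432) (l 16732296)) (c (l 16728008) (l 16725096)))) (c (c (a (l 16729288) (l 16724344)) (a (l 16725600) (l 16719904))) (a (c (l 16732352) (l 16728568)) (c (l 16715408) (l 16710840))))) (c (b (c (c (l 16727408) (l 16725448)) (c (l 16723472) (l 16721480))) (c (b (l 16719376) (l 16714664)) (a (l 16714256) (l 16729632)))) (b (a (c (l 16721640) (l 16717952)) (a (l 16714776) (l 16711448))) (a (c (l 16709000) (l 16703664)) (c (l 16723616) (l 16696544)))))) (c (a (b (c (a (l 16719976) (l 16715016)) (a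 (l 16725160) (l 16708960))) (c (a (l 16721336) (l 16716360)) (a (b (l 16727560) (l 16722232)) (l 16708680)))) (b (c (c (l 16709424) (l 16716344)) (b (l 16713680) (l 16705608))) (c (a (l 16721912) (l 16717000)) (a (l 16702984) (l 16707816))))) (a (b (a (c (l 16719776) (b (l 16728360) (l 16721280))) (c (l 16713296) (l 16701824))) (c (a (b (l 16720944) (l 16714784)) (b (l 16714456) (l 16708296))) (a (b (l 16714240) (l 16707240)) (b (l 16706968) (l 16699968))))) (b (c (a (l 16696376) (l 16710960)) (a (l 16699856) (l 16682216))) (c (a (b (l 16708008) (l 16701840)) (b (l 16701608) (l 16695432))) (a (b (l 16699752) (l 16692744)) (b (l 16692584) (l 16685568)))))))), by decide +kernel⟩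

def k14_pm_012_s : ∃ t, chk3 f_pm_012_s t 64 63 1 = true :=
  ⟨(b (a (l 3) (b (l 3) (a (l 3) (b (l 3) (a (l 3) (b (l 3) (a (l 3) (a (l 3) (b (l 3) (b (l 3) (a (c (c (l 384567343719) (l 387251699591)) (l 390472923751)) (a (b (l 481204109095) (l 16777064)) (b (c (l 177335172071) (l 179482657031)) (l 16776880)))))))))))))) (a (l 14) (b (b (a (l 14) (a (l 14) (b (a (l 14) (a (l 14) (a (l 14) (b (l 16774600) (l 14))))) (l 14)))) (l 14)) (l 14)))), by decide +kernel⟩

def k15_pm_012_s : ∃ t, chk3 f_pm_012_s t 130 252 1 = true :=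
  ⟨(a (l 3) (b (l 3) (a (l 3) (b (l 3) (a (l 3) (b (l 3) (b (b (l 428590759735) (a (l 3) (a (l 309942288551) (l 16777032)))) (a (a (l 440938790551) (b (l 340007059591) (l 16777064))) (l 16775416))))))))), by decide +kernel⟩

def k16_pm_012_s : ∃ t, chk3 f_pm_012_s t 130 506 1 = true :=
  ⟨(a (a (l 3) (b (l 3) (a (l 3) (b (l 3) (a (l 466171723527) (b (l 425906405223) (a (b (l 338933317751) (l 16777040)) (c (l 16776192) (l 16776856))))))))) (a (b (a (l 3) (a (b (l 3) (c (b (l 3) (l 366850603575)) (l 410874018295))) (b (l 3) (a (b (l 3) (b (l 151028498775) (l 16776912))) (b (b (l 3) (l 122574340503)) (l 16776720)))))) (b (b (a (c (a (l 3) (l 384030474087)) (l 422685179655)) (a (b (a (l 181093269863) (l 16776936)) (l 16776760)) (l 16770952))) (a (a (l 405505310567) (b (a (l 225116684599) (l 16776968)) (l 16775488))) (l 16773232))) (a (a (b (b (a (l 276656292071) (l 16777000)) (l 75329697751)) (l 16773664)) (l 16773264)) (l 16772800)))) (b (a (a (b (a (l 512879492919) (b (l 3) (b (l 460803014423) (l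 16777112)))) (a (b (b (l 16777448) (l 16776880)) (l 16776352)) (l 16771088))) (b (a (b (l 470466690967) (a (l 16777032) (l 16776904))) (b (b (l 437717565207) (l 16777088)) (l 16776648))) (l 16773176))) (a (a (b (b (l 16776928) (l 16776288)) (l 16775264)) (l 16772976)) (l 16773120))) (a (b (l 16772136) (l 16770728)) (c (l 16770016) (l 16770176)))))), by decide +kernel⟩

def k17_pm_012_s : ∃ t, chk3 f_pm_012_s t 260 507 1 = true :=
  ⟨(a (b (a (l 3) (b (l 3) (a (l 3) (b (l 3) (a (a (l 364166250599) (b (l 3) (l 16777104))) (b (a (l 249812746407) (l 16777096)) (l 16776840))))))) (a (a (b (l 3) (a (b (a (l 484962205591) (b (l 3) (c (l 151565368327) (l 154249724199)))) (b (l 80161536535) (l 16776544))) (b (b (a (l 446844370727) (c (l 139754208247) (l 141901693207))) (l 16776280)) (l 16773696)))) (a (a (b (l 478519754567) (b (l 16776168) (l 16775984))) (b (b (l 3) (b (l 3) (c (l 127406177255) (l 16777304)))) (l 16773568))) (b (b (l 3) (b (a (l 367924346951) (c (l 16777296) (l 16777128))) (l 16775600)))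 (l 16773248)))) (a (b (a (b (a (l 426443276199) (b (l 3) (c (l 16777120) (l 16777128)))) (l 16775376)) (b (b (a (l 301889224839) (l 16777112)) (l 16776872)) (l 16776256))) (l 16773912)) (b (c (l 16774712) (l 16773424)) (l 16771768))))) (a (b (b (a (l 503215816455) (b (l 469929819991) (a (b (l 451676208919) (a (l 154786595111) (l 16777056))) (b (a (l 16777312) (l 16777040)) (l 16776768))))) (a (b (a (b (l 508584525735) (a (l 206326202615) (l 16777080))) (a (b (l 182703882503) (l 16776904)) (l 16776224))) (l 16773792)) (l 16774672))) (a (b (l 16772584) (l 16770960)) (b (l 16771768) (l 16772792)))) (b (a (b (b (a (b (l 394767892535) (c (l 16777064) (l 16777064))) (c (c (l 16776792) (l 16776880)) (l 16776880))) (l 16773728)) (l 16772560)) (b (l 16773312) (l 16771776))) (b (c (l 16770560) (l 16770648)) (b (l 16772048) (a (l 16770320) (a (b (l 16771272) (c (l 16770984) (c (l 16771128) (l 16771224)))) (b (a (l 16771032) (a (l 16770968) (l 16769664))) (c (l 16771128) (l 16771448)))))))))), by decide +kernel⟩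

def k18_pm_012_s : ∃ t, chk3 f_pm_012_s t 522 507 1 = true :=
  ⟨(b (b (a (c (l 16772120) (l 16772184)) (l 16770688)) (a (l 16771296) (a (l 16772192) (a (l 16771672) (c (l 16771272) (l 16770160)))))) (b (a (a (l 16772112) (b (l 16771768) (a (l 16771208) (b (l 16771032) (c (l 16770840) (a (l 16770992) (l 16771088))))))) (a (a (b (l 16771248) (b (a (l 16770864) (a (l 16770848) (l 16770896))) (l 16768648))) (c (b (l 16769600) (l 16771200)) (b (c (l 16771072) (l 16770528)) (l 16766448)))) (c (b (a (a (l 16769496) (l 16769536)) (l 16769720)) (l 16766504)) (b (a (b (l 16770968) (l 16771232)) (a (l 16770008) (l 16771584))) (l 16767304))))) (a (a (b (b (c (l 16771104) (l 16769960)) (a (c (l 16770936) (l 16771112)) (c (l 16770960) (l 16770240)))) (c (c (l 16771312) (l 16768936)) (c (l 16770504) (a (l 16769144) (l 16772376))))) (a (b (b (a (a (l 16770896) (l 16770928)) (l 16769736)) (l 16768880)) (l 16770072)) (c (l 16769240) (l 16767408)))) (c (c (l 16769824) (l 16767840)) (c (l 16768480) (l 16769136)))))),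 by decide +kernel⟩

def k19_pm_012_s : ∃ t, chk3 f_pm_012_s t 523 507 1 = true :=
  ⟨(b (a (a (b (l 16772272) (a (b (l 16771360) (b (l 16770856) (c (l 16770744) (l 16769736)))) (b (l 16771048) (b (a (l 16769448) (l 16768240)) (l 16771296))))) (b (l 16771608) (a (b (b (l 16770888) (a (l 16770728) (l 16769480))) (l 16768856)) (b (b (a (l 16770720) (l 16769424)) (l 16771088)) (l 16769328))))) (a (b (b (l 16771320) (a (c (l 16770752) (l 16769696)) (b (l 16769752) (a (l 16770792) (l 16771008))))) (c (c (l 16766200) (l 16766624)) (c (l 16767048) (l 16767480)))) (b (a (b (l 16769584) (c (l 16770864) (l 16769688))) (b (b (l 16770744) (a (l 16770680) (l 16770816))) (l 16768928))) (c (l 16767152) (l 16768408))))) (a (c (c (b (l 16766848) (l 16768448)) (b (l 16767424) (l 16767840))) (c (b (l 16768016) (l 16766808)) (b (l 16768608) (l 16765768)))) (b (c (c (l 16768112) (l 16768168)) (c (l 16767200) (l 16766216))) (c (c (l 16766600) (l 16765192)) (c (l 16763768) (l 16762328)))))), by decide +kernel⟩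

def k20_pm_012_s : ∃ t, chk3 f_pm_012_s t 262 252 1 = true :=
  ⟨(b (a (l 3) (b (l 3) (a (b (l 3) (l 458118659783)) (a (b (l 3) (b (l 395841634167) (a (a (l 16777136) (l 16777080)) (l 16776896)))) (b (l 409263406887) (a (b (l 16777072) (l 16776608)) (l 16776592))))))) (a (b (b (l 493552139751) (a (l 3) (a (a (l 381346118183) (b (l 3) (l 16777016))) (b (a (l 221895456519) (l 16776992)) (l 16776592))))) (a (a (b (a (l 420537696071) (b (l 3) (a (l 146733528903) (l 16777040)))) (l 64592277623)) (b (b (a (l 286319968535) (c (l 16777040) (l 16777040))) (l 16776664)) (l 16770472))) (b (l 16774680) (l 16772128)))) (b (b (a (a (b (l 451676208999) (a (l 173040204983) (l 16776960))) (a (b (l 139217337575) (l 16776680)) (l 16776648))) (l 16773288)) (a (l 16773328) (l 16769520))) (a (c (l 16768840) (l 16768992)) (l 16770416))))), by decide +kernel⟩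

def k21_pm_012_s : ∃ t, chk3 f_pm_012_s t 262 506 1 = true :=
  ⟨(a (b (a (c (l 16771416) (l 16768920)) (l 16770576)) (b (a (l 16772136) (a (c (l 16771144) (l 16771424)) (b (l 16771016) (c (c (l 16770584) (l 16769480)) (c (b (l 16770832) (l 16771048)) (b (l 16771016) (l 16766048))))))) (b (a (a (l 16771448) (c (l 16770784) (l 16769928))) (a (a (b (l 16770664) (l 16769512)) (c (l 16770776) (l 16768664))) (c (l 16771320) (l 16761656)))) (a (b (a (l 16770944) (a (a (l 16770632) (l 16770648)) (l 16768280))) (c (a (l 16770632) (l 16770936)) (a (c (l 16770856) (l 16771008)) (l 16771520)))) (c (l 16769224) (l 16767672)))))) (b (a (a (l 16772008) (b (l 16772072) (b (l 16771160) (a (l 16769464) (b (l 16770656) (l 16768200)))))) (a (b (l 16771536) (c (b (l 16769336) (l 16768320)) (b (c (l 16770952) (l 16769848)) (l 16769304)))) (b (c (l 16769632) (b (l 16771488) (l 16769768))) (b (a (b (l 16768088) (l 16771152)) (l 16766120)) (l 16769608))))) (a (b (b (a (a (b (l 16770752) (l 16769352)) (b (l 16769344) (l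 16770960))) (c (l 16765808) (l 16766520))) (c (l 16766320) (l 16767296))) (c (l 16768976) (c (l 16762928) (l 16762104)))) (c (c (l 16767800) (l 16767728)) (c (l 16765432) (b (l 16762408) (l 16758592))))))), by decide +kernel⟩

def k22_pm_012_s : ∃ t, chk3 f_pm_012_s t 262 507 1 = true :=
  ⟨(a (b (a (a (b (a (b (b (a (l 16770648) (l 16770744)) (l 16771168)) (l 16766776)) (c (l 16766264) (l 16767112))) (c (l 16767888) (l 16767912))) (c (c (l 16767336) (l 16768128)) (b (l 16767976) (l 16766272)))) (c (c (l 16768304) (b (l 16763136) (l 16760544))) (c (b (l 16762632) (l 16759240)) (b (l 16761760) (l 16763152))))) (c (a (c (b (l 16761616) (l 16759096)) (b (l 16760264) (l 16762544))) (c (l 16763328) (b (l 16757600) (l 16754648)))) (b (a (c (l 16764144) (l 16762752)) (c (l 16755832) (l 16759288))) (a (c (l 16760720) (l 16758880)) (c (l 16757672) (l 16755432)))))) (a (c (b (c (l 16766032) (l 16763920)) (c (l 16761048) (b (l 16754928) (l 16751984)))) (b (b (c (l 16759544) (l 16758264)) (c (l 16756160) (l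 16754424))) (c (b (l 16752768) (l 16749376)) (b (l 16750584) (l 16751976))))) (b (c (b (l 16764160) (c (l 16757248) (l 16755176))) (c (b (l 16756448) (l 16753072)) (b (l 16754768) (l 16750944)))) (c (c (l 16758768) (c (l 16751472) (l 16750096))) (c (c (l 16748704) (l 16752552)) (c (l 16751144) (l 16749728))))))), by decide +kernel⟩

def k23_pm_012_s : ∃ t, chk3 f_pm_012_s t 263 252 1 = true :=
  ⟨(b (a (b (a (b (l 3) (c (l 401210340503) (l 407115923159))) (a (b (l 3) (b (a (l 446844370599) (l 16777448)) (l 16776864))) (b (c (l 340007056599) (l 345912639255)) (l 16776592)))) (a (b (a (b (l 296520515911) (a (l 16777048) (l 16776832))) (a (l 16776776) (l 16776528))) (l 16770632)) (l 16772696))) (b (a (a (b (b (a (l 335175221383) (l 16777088)) (l 16776808)) (l 16770824)) (l 16773432)) (l 16772704)) (c (l 16771104) (l 16768744)))) (a (b (a (l 16771608) (l 16767976)) (b (l 16769456) (a (c (l 16768680) (l 16769712)) (a (b (l 16771040) (c (l 16769416) (a (l 16771088) (l 16766096)))) (b (a (l 16769552) (a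 (l 16768272) (l 16768408))) (l 16766488)))))) (b (a (l 16767056) (b (l 16771960) (a (c (l 16771040) (l 16768944)) (b (l 16769832) (c (l 16765784) (l 16769144)))))) (b (a (a (a (l 16769832) (b (l 16771120) (a (l 16768272) (l 16768360)))) (c (b (l 16770768) (l 16765872)) (b (l 16768680) (l 16766680)))) (a (c (l 16768864) (b (l 16766584) (l 16752168))) (l 16768552))) (a (c (c (l 16761224) (l 16761856)) (c (l 16762496) (l 16763128))) (c (l 16762112) (l 16765304))))))), by decide +kernel⟩

def k24_pm_012_s : ∃ t, chk3 f_pm_012_s t 263 253 1 = true :=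
  ⟨(b (a (b (a (b (a (c (b (l 16770712) (l 16769480)) (b (l 16771120) (c (l 16768608) (l 16768904)))) (b (c (l 16769432) (a (l 16768472) (l 16766192))) (l 16766720))) (c (l 16767168) (l 16768288))) (c (c (l 16767400) (l 16762816)) (b (l 16768336) (l 16764944)))) (c (c (a (l 16766360) (l 16758784)) (a (l 16765000) (l 16762272))) (a (c (l 16762312) (b (l 16758880) (l 16755080))) (c (l 16757880) (b (l 16755352) (l 16751560)))))) (b (c (c (a (l 16761336) (l 16758968)) (a (l 16760064) (l 16757304))) (a (c (l 16758776) (l 16760096)) (c (l 16755624) (l 16756536)))) (c (c (a (l 16756440) (l 16754096)) (a (l 16759544) (l 16751568))) (c (a (l 16757376) (l 16754248)) (a (c (l 16750480) (l 16749376)) (l 16749024)))))) (c (a (b (a (c (l 16761424) (l 16759184)) (c (l 16759112) (l 16756480))) (c (a (l 16756480) (l 16754192)) (a (a (l 16748776) (l 16747440)) (b (l 16757368) (l 16754464))))) (b (c (a (l 16751552) (l 16749224)) (a (l 16753776) (l 16751064))) (c (a (l 16751896) (l 16749592)) (a (c (l 16754216) (l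 16752256)) (l 16742688))))) (a (b (c (a (c (l 16752240) (l 16751096)) (c (l 16749240) (l 16747896))) (a (c (l 16749944) (l 16748784)) (c (l 16746544) (l 16745184)))) (c (a (c (l 16745736) (l 16744144)) (a (l 16742640) (l 16741104))) (a (c (l 16747776) (l 16746160)) (c (l 16739168) (l 16737352))))) (b (c (a (a (l 16746248) (l 16744696)) (b (l 16754512) (l 16751192))) (a (c (l 16743144) (l 16741584)) (b (l 16751240) (l 16747464)))) (c (a (b (l 16750952) (l 16747616)) (b (l 16747872) (l 16744544))) (a (b (l 16747176) (l 16743376)) (b (l 16743688) (l 16739912)))))))), by decide +kernel⟩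

def k25_pm_012_s : ∃ t, chk3 f_pm_012_s t 520 508 1 = true :=
  ⟨(b (a (a (b (a (l 16772848) (l 16772408)) (l 14)) (b (l 16773080) (l 16770064))) (a (b (l 16770928) (b (l 16772288) (b (b (l 16771760) (l 14)) (l 14)))) (b (l 16772736) (b (a (l 16770384) (b (l 16771504) (a (c (l 16768616) (l 16771368)) (c (l 16771240) (l 16770104))))) (a (b (a (b (l 16771296) (l 16770024)) (c (l 16771320) (l 16771520))) (c (l 16771680) (l 16772064))) (c (l 16771792) (l 16767016))))))) (a (l 14) (b (a (l 14) (a (l 14) (c (l 16770576) (l 16769128)))) (l 14)))), by decide +kernel⟩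

def k26_pm_012_s : ∃ t, chk3 f_pm_012_s t 521 508 1 = true :=
  ⟨(b (b (b (a (a (l 16772360) (a (l 16771776) (c (l 16771360) (l 16771488)))) (a (a (b (l 16771232) (c (l 16770432) (a (l 16771200) (l 16771328)))) (b (c (l 16770376) (a (l 16771152) (l 16771224))) (l 16768912))) (c (l 16769016) (l 16769592)))) (a (b (a (l 16771744) (a (c (l 16771168) (l 16770656)) (c (l 16769840) (a (l 16771272) (l 16771456))))) (a (a (l 16771528) (c (l 16771192) (a (l 16771320) (l 16771272)))) (a (a (b (l 16771136) (l 16771368)) (l 16771448)) (l 16769168)))) (c (c (l 16769384) (l 16769800)) (a (l 16769880) (l 16768368))))) (a (c (a (b (b (a (a (l 16771208) (l 16771176)) (l 16771328)) (l 16770304)) (l 16769696)) (c (l 16767080) (l 16767536))) (a (b (b (a (a (l 16771336) (l 16770680)) (l 16770304)) (l 16770392)) (l 16770464)) (c (l 16768008) (l 16768488)))) (c (c (l 16770600) (l 16770048)) (c (l 16770248) (a (l 16769024) (l 16767320)))))) (a (b (c (c (l 16771032) (l 16770544)) (c (a (l 16769184) (l 16767688)) (a (l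 16768448) (l 16766752)))) (a (l 14) (a (l 14) (c (l 16765952) (l 16763080))))) (b (c (c (l 16767872) (l 16766664)) (b (c (l 16766320) (l 16765200)) (c (l 16764576) (l 16763216)))) (c (c (l 16765288) (l 16764944)) (c (a (l 16762696) (l 16761208)) (a (l 16761088) (l 16759400))))))), by decide +kernel⟩

def k27_pm_012_s : ∃ t, chk3 f_pm_012_s t 260 509 1 = true :=
  ⟨(a (l 14) (b (b (b (a (l 14) (a (l 14) (c (l 16761760) (l 16757504)))) (l 14)) (l 14)) (l 14))), by decide +kernel⟩

def k28_pm_012_s : ∃ t, chk3 f_pm_012_s t 260 255 1 = true :=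
  ⟨(l 14), by decide +kernel⟩

def k29_pm_012_s : ∃ t, chk3 f_pm_012_s t 522 127 1 = true :=
  ⟨(b (a (b (b (c (b (c (l 16770200) (l 16769584)) (c (l 16768224) (l 16767088))) (b (a (l 16770424) (l 16769568)) (c (l 16765936) (a (l 16760376) (l 16758672))))) (c (b (c (l 16765664) (l 16764072)) (c (l 16763096) (l 16761048))) (b (c (l 16763112) (a (l 16761664) (l 16759968))) (c (c (l 16759488) (l 16758448)) (c (l 16757392) (l 16756336)))))) (b (b (c (c (l 16760528) (l 16758024)) (c (c (l 16761360) (l 16760088)) (c (l 16758800) (l 16757504)))) (a (l 14) (b (c (l 16756584) (l 16750616)) (l 14)))) (l 14))) (b (b (c (c (b (l 16768560) (l 16766000)) (b (l 16767480) (l 16764472))) (b (c (l 16766392) (l 16765280)) (c (l 16762928) (a (l 16756968) (l 16755256))))) (c (b (c (l 16763448) (l 16761464)) (c (l 16760888) (l 16758456))) (c (b (l 16759456) (c (l 16761848) (l 16760608))) (b (c (l 16757936) (l 16756912)) (c (l 16759352) (l 16758096)))))) (b (c (c (b (l 16758336) (l 16755776)) (b (l 16755440) (l 16752432)))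 (c (b (c (l 16758488) (l 16757016)) (c (l 16755128) (l 16753424))) (b (c (l 16755528) (l 16754032)) (c (l 16751696) (l 16749968))))) (a (l 14) (b (c (b (l 16751424) (l 14)) (c (l 16750056) (l 16746048))) (l 14)))))) (l 14)), by decide +kernel⟩

def k30_pm_012_s : ∃ t, chk3 f_pm_012_s t 523 127 1 = true :=
  ⟨(a (b (b (b (c (c (b (l 16766312) (l 16763776)) (b (l 16764848) (l 16761856))) (b (c (l 16763368) (l 16761856)) (c (l 16759912) (l 16757944)))) (c (c (b (l 16761232) (l 16758688)) (b (l 16758864) (l 16755864))) (c (b (l 16756456) (l 16753000)) (b (c (l 16759880) (l 16758656)) (c (l 16756072) (l 16754608)))))) (b (c (c (b (l 16756144) (l 16753592)) (b (l 16752864) (l 16749856))) (c (b (c (l 16755616) (l 16753944)) (c (l 16752264) (l 16750360))) (b (c (l 16752256) (l 16750560)) (c (l 16748440) (l 16746512))))) (a (b (b (c (l 16750248) (l 16747416)) (b (c (l 16754448) (l 16746024)) (l 14))) (l 14)) (c (b (b (l 16749064) (c (l 16755384) (l 16751048))) (l 16752856)) (b (b (l 16745840) (b (c (l 16746760)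 (l 16742304)) (l 16744200))) (l 16744096)))))) (l 14)) (b (b (b (c (c (b (l 16764072) (l 16761536)) (b (l 16762216) (l 16759232))) (c (b (l 16760336) (l 16756896)) (b (l 16758432) (l 16754528)))) (c (c (b (l 16759008) (l 16756472)) (b (l 16756248) (l 16753264))) (c (b (l 16753456) (l 16750008)) (b (l 16750624) (c (l 16752784) (l 16751120)))))) (b (c (b (c (l 16759184) (l 16755520)) (c (l 16756648) (l 16752528))) (b (c (l 16746560) (c (l 16748984) (l 16747088))) (a (c (l 16749096) (l 16744960)) (c (l 16747608) (l 16743280))))) (c (b (b (a (c (l 16755304) (l 16750936)) (c (l 16754368) (l 16749848))) (c (l 16754328) (l 16749840))) (l 16751864)) (b (c (b (a (l 16746504) (b (l 16745456) (l 16744992))) (l 16745296)) (b (a (b (l 16742504) (l 16741560)) (b (l 16740832) (l 16740320))) (l 16740680))) (l 16742864))))) (b (b (c (l 16751472) (l 16742704)) (l 14)) (l 14)))), by decide +kernel⟩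

def k31_pm_012_s : ∃ t, chk3 f_pm_012_s t 262 508 1 = true :=
  ⟨(c (b (a (c (c (a (l 16761168) (l 16753776)) (a (l 16759944) (l 16757600))) (a (b (l 16759576) (l 16756608)) (c (l 16756168) (l 16754736)))) (c (a (c (l 16751616) (l 16750008)) (a (l 16749120) (l 16747992))) (a (c (l 16753624) (l 16751992)) (a (l 16750832) (l 16749504))))) (a (c (a (c (l 16756352) (l 16754680)) (a (l 16753848) (l 16752736))) (a (c (l 16752992) (l 16751296)) (c (l 16750480) (l 16748592)))) (c (a (a (l 16751616) (l 16750504)) (a (l 16749384) (l 16748264))) (a (a (l 16747576) (l 16746264)) (a (l 16744952) (l 16743640)))))) (a (b (c (a (b (l 16757304) (l 16753880)) (c (l 16753288) (l 16750520))) (a (b (l 16754992) (l 16751112)) (b (l 16751560) (l 16747688)))) (b (a (c (l 16750448) (l 16747216)) (c (l 16752680) (l 16749056))) (a (c (l 16752256) (l 16743320)) (c (l 16749264) (l 16745168))))) (b (c (a (c (l 16750352) (l 16748696)) (c (l 16747408) (l 16745560))) (a (b (l 16753368) (l 16749504)) (b (l 16749920) (l 16746080))))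 (b (c (a (l 16749664) (l 16746648)) (a (l 16745640) (l 16742224))) (c (a (l 16746264) (l 16743256)) (a (l 16741776) (l 16738376))))))), by decide +kernel⟩

def k32_pm_012_s : ∃ t, chk3 f_pm_012_s t 262 509 1 = true :=
  ⟨(c (b (a (b (a (c (l 16756976) (l 16752928)) (c (l 16754768) (l 16750336))) (a (a (c (l 16754992) (l 16750584)) (b (l 16747056) (c (l 16753360) (l 16748664)))) (b (c (l 16747656) (a (l 16748760) (l 16747496))) (a (c (l 16752512) (l 16747696)) (l 16749320))))) (b (c (a (b (l 16753184) (l 16751928)) (b (l 16750952) (l 16750032))) (a (a (l 16748384) (l 16747072)) (b (l 16745856) (a (l 16745216) (l 16744264))))) (a (b (a (c (l 16751456) (l 16746448)) (l 16748120)) (l 16748272)) (l 16741720)))) (a (a (a (a (c (l 16753480) (l 16748920)) (l 16745600)) (l 16750312)) (c (l 16751672) (l 16746888))) (c (l 16749704) (l 16744696)))) (b (a (b (c (a (l 16748824) (l 16745840)) (a (a (l 16745504) (l 16743816)) (l 16741280))) (a (b (c (l 16746248) (l 16741736)) (a (c (l 16745256) (l 16740608)) (b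 (l 16741832) (a (l 16741400) (l 16740840))))) (b (a (l 16741616) (c (l 16742568) (b (l 16738008) (l 16737144)))) (a (c (l 16742800) (b (l 16737920) (l 16737640))) (l 16739336))))) (b (a (a (b (l 16742088) (l 16740272)) (b (l 16740496) (c (l 16741248) (l 16736080)))) (b (c (l 16740696) (l 16735464)) (c (a (l 16739952) (l 16738888)) (a (b (l 16734872) (l 16734304)) (l 16733432))))) (a (b (a (c (l 16741376) (b (l 16736368) (l 16735968))) (c (l 16740368) (l 16735112))) (l 16738040)) (l 16736368)))) (a (a (a (b (c (l 16744192) (l 16739776)) (l 16741616)) (l 16740840)) (c (l 16742032) (l 16737112))) (c (l 16739608) (l 16734456))))), by decide +kernel⟩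

def k33_pm_012_s : ∃ t, chk3 f_pm_012_s t 526 254 1 = true :=
  ⟨(b (c (c (b (a (l 16751536) (l 16749264)) (a (c (l 16753048) (l 16750608)) (b (l 16750816) (b (l 16748968) (l 16747872))))) (b (a (a (l 16748184) (l 16746856)) (b (l 16751560) (l 16748656))) (a (b (l 16748376) (l 16745456)) (b (l 16745744) (b (l 16743560) (a (l 16742776) (l 16741688))))))) (b (c (a (a (l 16744208) (l 16742688)) (b (l 16747328) (l 16743968))) (a (c (l 16740352) (l 16735656)) (b (l 16743032) (l 16739216)))) (a (c (b (l 16743624) (l 16740248)) (b (l 16738808) (l 16734968))) (b (c (l 16740600) (l 16735392)) (b (c (l 16738080) (l 16732520)) (c (a (l 16737168) (l 16735936)) (a (l 16731480) (b (l 16730264) (l 16729824))))))))) (c (b (a (b (b (c (l 16743712) (a (l 16743992) (l 16742976))) (l 16745784)) (l 16745544)) (c (l 16747072) (l 16741504))) (c (l 16747008) (l 16741704))) (b (a (b (b (c (a (l 16738552) (l 16737408)) (a (b (l 16733416) (l 16732656)) (l 16731760))) (l 16734752)) (l 16734656)) (c (l 16735864) (l 16730152)))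 (c (l 16736328) (l 16730872))))), by decide +kernel⟩

def k34_pm_012_s : ∃ t, chk3 f_pm_012_s t 527 254 1 = true :=
  ⟨(b (a (b (c (c (l 16746992) (b (l 16748896) (l 16746000))) (c (b (l 16744272) (l 16740920)) (b (l 16739576) (l 16735776)))) (c (c (b (l 16748560) (b (l 16746800) (l 16746200))) (b (l 16743104) (b (a (l 16741584) (l 16740408)) (l 16740376)))) (c (b (l 16737576) (b (a (l 16735800) (l 16734472)) (l 16734472))) (b (l 16731968) (b (b (l 16729568) (a (l 16729488) (l 16728120))) (l 16728488)))))) (b (c (c (l 16744720) (b (l 16746232) (l 16743344))) (c (b (l 16741208) (l 16737880)) (b (l 16736128) (l 16732336)))) (b (c (b (l 16736192) (c (l 16745720) (l 16739120))) (b (c (l 16735376) (l 16729488)) (a (l 16731464) (c (l 16733024) (l 16726824))))) (c (c (l 16744944) (l 16738952)) (a (c (l 16733296) (l 16727176)) (l 16729248)))))) (b (c (c (l 16744984) (l 16739200)) (c (l 16733328) (l 16727384))) (c (l 16730960) (l 16730120)))), by decide +kernel⟩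

def k35_pm_012_s : ∃ t, chk3 f_pm_012_s t 131 255 1 = true :=
  ⟨(a (b (a (c (c (l 16751392) (l 16746928)) (c (l 16742400) (l 16737808))) (c (b (l 16736152) (l 16746096)) (b (l 16736832) (l 16736656)))) (a (l 14) (c (l 16745344) (l 16736464)))) (b (c (a (c (l 16745976) (l 16740960)) (l 16730032)) (a (c (l 16735872) (l 16730720)) (l 16729824))) (c (a (l 16742408) (l 16739392)) (a (l 16733040) (l 16729560))))), by decide +kernel⟩

def k36_pm_012_s : ∃ t, chk3 f_pm_012_s t 264 252 1 = true :=
  ⟨(b (a (a (b (l 16769192) (l 16767368)) (b (l 16768400) (a (l 16766832) (b (l 16772168) (a (l 16768864) (b (l 16771432) (l 16768816))))))) (a (b (l 16762456) (b (c (l 16768904) (a (l 16772128) (l 16766816))) (a (b (a (l 16771376) (l 16766224)) (l 16766832)) (b (l 16769088) (l 16762632))))) (b (b (l 16772728) (c (l 16766464) (l 16772376))) (b (c (a (l 16768864) (l 16766712)) (a (b (l 16761504) (l 16762000)) (l 16767832))) (c (l 16762152) (l 16760392)))))) (a (a (a (b (b (l 16768832) (b (a (l 16769208) (l 16766264))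 (l 16761864))) (c (l 16761496) (l 16761904))) (b (b (b (l 16771304) (a (l 16768568) (l 16766216))) (l 16767568)) (c (l 16760200) (l 16760216)))) (a (b (b (b (a (l 16765992) (l 16768816)) (l 16761720)) (l 16767240)) (c (l 16758904) (l 16758520))) (b (c (l 16762432) (l 16761184)) (c (l 16757608) (l 16756824))))) (b (a (c (l 16764808) (c (l 16759192) (l 16758048))) (c (l 16762184) (c (l 16755968) (l 16754424)))) (c (c (l 16758056) (a (l 16754664) (l 16751872))) (c (a (l 16752672) (l 16749472)) (a (l 16750648) (l 16747048))))))), by decide +kernel⟩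

def k37_pm_012_s : ∃ t, chk3 f_pm_012_s t 265 252 1 = true :=
  ⟨(b (a (a (b (b (l 16767008) (c (a (l 16766368) (l 16766744)) (a (b (l 16772200) (l 16762000)) (c (l 16762312) (l 16767864))))) (c (l 16766040) (c (l 16759208) (l 16758128)))) (b (b (a (c (l 16771776) (l 16770000)) (b (l 16769584) (l 16762480))) (c (l 16762000) (l 16760352))) (c (l 16760760) (c (l 16755952) (l 16754472))))) (b (c (c (l 16762472) (a (l 16760104) (l 16746728))) (a (c (l 16759096) (l 16758080)) (l 16757720))) (a (c (l 16758096) (c (l 16752696) (l 16750816))) (c (l 16752816) (c (l 16738952) (l 16736664)))))) (c (a (b (a (l 16758248) (l 16755608)) (c (l 16753232) (c (l 16748400) (l 16746920)))) (c (b (l 16750464) (l 16745768)) (b (l 16750208) (a (l 16753936) (l 16751120))))) (a (b (c (a (l 16752744) (l 16749520)) (a (l 16750800) (l 16747168))) (c (c (l 16745432) (l 16743928)) (a (l 16743448) (l 16739848)))) (b (c (c (l 16745408) (l 16743944)) (c (l 16742464) (l 16740976))) (c (c (l 16739216) (l 16737320)) (c (l 16735408)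 (l 16733480))))))), by decide +kernel⟩

def k38_pm_012_s : ∃ t, chk3 f_pm_012_s t 133 252 1 = true :=
  ⟨(a (b (c (a (b (c (l 16754856) (l 16752880)) (c (l 16750208) (l 16747400))) (c (b (l 16749848) (l 16745240)) (b (l 16747088) (l 16741648)))) (a (b (c (l 16750880) (l 16748848)) (c (l 16744544) (c (l 16742384) (l 16740928)))) (b (c (l 16744296) (l 16741456)) (c (l 16738008) (a (l 16746640) (l 16742968)))))) (c (c (a (b (l 16745560) (l 16740904)) (b (l 16740632) (l 16736024))) (a (b (l 16741904) (l 16736408)) (b (l 16736208) (l 16730752)))) (a (c (b (a (l 16750304) (l 16747064)) (a (l 16743936) (l 16740728))) (b (c (l 16745880) (l 16733504)) (a (l 16739512) (l 16735904)))) (c (b (l 16731712) (a (l 16737504) (l 16734288))) (b (a (l 16739472) (l 16735824)) (a (l 16732288) (l 16728664))))))) (c (b (c (a (c (l 16743512) (l 16741552)) (c (l 16738672) (l 16736320))) (a (b (l 16741280) (l 16735888)) (a (l 16734232) (l 16731320)))) (c (a (c (l 16734800) (l 16732008)) (a (l 16729712) (l 16727240))) (a (b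 (l 16730488) (l 16725088)) (b (l 16735248) (l 16729888))))) (b (a (c (b (l 16737696) (l 16731464)) (b (l 16734056) (l 16726968))) (b (c (l 16731072) (l 16726640)) (c (l 16735384) (l 16719608)))) (b (a (c (l 16725216) (a (l 16732176) (l 16728528))) (c (l 16729192) (l 16712560))) (c (a (a (l 16731064) (l 16727832)) (l 16722984)) (a (a (l 16725048) (l 16721424)) (a (l 16717792) (l 16714168)))))))), by decide +kernel⟩

def k39_pm_012_s : ∃ t, chk3 f_pm_012_s t 264 253 1 = true :=
  ⟨(b (c (a (b (c (a (l 16756592) (l 16754216)) (a (l 16754544) (l 16751776))) (c (a (l 16751744) (l 16749392)) (a (l 16748832) (l 16746088)))) (c (b (a (l 16751840) (l 16749448)) (c (l 16746816) (l 16744888))) (b (a (l 16749008) (l 16746232)) (a (l 16743336) (l 16740592))))) (a (b (c (a (l 16752464) (l 16749304)) (a (l 16750360) (l 16746792))) (c (a (l 16751112) (l 16742736)) (a (l 16745488) (l 16741952)))) (b (c (a (l 16746136) (l 16742968)) (a (l 16743232) (l 16739656))) (c (a (l 16739592) (l 16736448)) (a (l 16735792) (l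 16732256)))))) (c (c (a (b (a (l 16746896) (l 16744568)) (a (l 16742048) (l 16739736))) (b (b (l 16742256) (l 16739864)) (b (l 16737464) (l 16745552)))) (a (a (b (l 16748352) (l 16742616)) (b (l 16740384) (l 16739920))) (a (b (l 16737664) (l 16737224)) (b (l 16745424) (l 16739768))))) (a (b (c (a (l 16741880) (l 16738768)) (a (b (l 16747728) (l 16743968)) (b (l 16744208) (l 16740464)))) (c (a (b (l 16744784) (l 16741464)) (b (l 16741688) (l 16738392))) (a (b (l 16740208) (l 16736440)) (b (l 16736720) (l 16732968))))) (a (b (c (l 16738280) (b (l 16740696) (l 16736960))) (c (b (l 16738592) (l 16735304)) (b (l 16733224) (l 16729488)))) (b (c (l 16735160) (b (l 16737176) (l 16733456))) (b (c (l 16735496) (l 16729736)) (c (l 16732224) (l 16726008)))))))), by decide +kernel⟩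

def k40_pm_012_s : ∃ t, chk3 f_pm_012_s t 265 253 1 = true :=
  ⟨(b (c (c (a (b (l 16748488) (a (l 16752792) (l 16750416))) (b (l 16741064) (a (l 16748040) (l 16745656)))) (a (b (c (l 16743016) (l 16741104)) (c (l 16748112) (l 16735280))) (b (a (l 16748368) (l 16745576)) (a (l 16742800) (l 16740032))))) (a (b (c (c (l 16739176) (l 16737240)) (c (l 16735280) (l 16734624))) (a (c (l 16743792) (l 16728712)) (c (l 16740640) (l 16735648)))) (c (b (a (l 16743928) (l 16740744)) (a (l 16737488) (l 16734328))) (a (b (l 16739424) (l 16732096)) (b (l 16735840) (l 16728544)))))) (c (c (a (b (a (l 16748032) (l 16745680)) (c (l 16743688) (l 16740512))) (b (c (l 16743704) (l 16740584)) (b (l 16738616) (a (l 16737432) (b (l 16735688) (l 16734960)))))) (b (a (a (l 16742696) (l 16739960)) (a (l 16737216) (l 16734480))) (a (a (l 16737056) (l 16734352)) (b (l 16731672) (a (b (l 16730936) (l 16729576)) (b (l 16728224) (l 16727416))))))) (c (b (a (a (l 16737280) (l 16734160)) (a (l 16731032) (l 16727896))) (a (a (l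 16730432) (l 16727664)) (b (l 16724624) (a (b (l 16723752) (l 16722176)) (b (l 16720656) (l 16719760)))))) (b (a (a (a (l 16732672) (l 16730920)) (l 16728280)) (a (l 16724752) (l 16721224))) (a (a (b (l 16726240) (l 16722528)) (b (l 16722736) (l 16719040))) (b (a (l 16719232) (l 16715728)) (a (b (l 16716472) (a (l 16715496) (l 16713856))) (b (l 16712984) (l 16712000))))))))), by decide +kernel⟩

def k41_pm_012_s : ∃ t, chk3 f_pm_012_s t 133 506 1 = true :=
  ⟨(a (c (c (a (b (l 16736248) (l 16731592)) (b (l 16731416) (l 16726800))) (a (b (a (l 16742784) (l 16739984)) (a (l 16737264) (l 16734488))) (b (l 16726608) (c (l 16732072) (l 16728560))))) (a (c (b (a (l 16737560) (l 16734368)) (a (l 16731168) (l 16728000))) (b (a (l 16732256) (l 16728672)) (a (l 16724984) (l 16721432)))) (c (b (a (l 16731176) (l 16727984)) (a (l 16724832) (l 16721664))) (b (a (l 16725088) (l 16721496)) (a (l 16717864) (l 16714304)))))) (c (c (a (b (l 16737048) (l 16732480)) (b (l 16732184) (a (l 16728864) (l 16726416)))) (a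 (b (l 16719680) (c (l 16726688) (l 16722792))) (b (l 16724528) (a (l 16720560) (b (l 16719104) (l 16716400)))))) (b (a (c (a (l 16724784) (l 16721576)) (a (l 16717896) (l 16714304))) (a (c (l 16718376) (l 16710704)) (c (l 16715160) (l 16707096)))) (a (a (c (l 16718488) (l 16710736)) (c (l 16715312) (l 16707168))) (a (c (l 16712136) (l 16703592)) (b (l 16706160) (c (l 16707376) (l 16698216)))))))), by decide +kernel⟩

def k42_pm_012_s : ∃ t, chk3 f_pm_012_s t 133 507 1 = true :=
  ⟨(a (a (a (c (c (b (l 16738600) (b (l 16735088) (l 16733560))) (b (l 16731728) (b (l 16727560) (l 16725848)))) (b (c (l 16724760) (l 16717696)) (b (c (l 16719928) (l 16712192)) (b (c (l 16718120) (l 16710168)) (l 16713840))))) (b (c (c (l 16736232) (l 16728984)) (c (l 16721624) (l 16714168))) (c (b (c (l 16731592) (b (l 16725528) (l 16724520))) (l 16727968)) (b (b (c (l 16717624) (l 16709608)) (c (l 16716480) (l 16708992))) (l 16711984))))) (a (b (c (c (l 16733864) (l 16726224)) (c (l 16718480) (l 16710632))) (c (b (c (l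 16731000) (l 16722912)) (l 16726328)) (b (b (c (l 16714840) (a (l 16707104) (l 16705768))) (l 16710208)) (l 16710080)))) (b (b (c (l 16718264) (c (l 16716920) (l 16708896))) (c (b (l 16726864) (c (l 16729904) (l 16721608))) (b (l 16710384) (c (l 16713200) (l 16705328))))) (c (c (l 16729000) (l 16720792)) (c (l 16712472) (l 16704032)))))) (a (c (b (b (a (l 16715688) (c (l 16727872) (l 16719312))) (a (b (c (l 16728624) (l 16720152)) (l 16723824)) (l 16721624))) (c (l 16726568) (l 16718168))) (b (b (a (c (l 16713768) (l 16705352)) (b (l 16707064) (c (l 16709912) (l 16701016)))) (a (b (c (l 16711552) (l 16702840)) (l 16706584)) (c (l 16709144) (l 16700240)))) (c (l 16709648) (l 16701008)))) (b (a (c (b (b (c (l 16726048) (l 16717216)) (l 16720960)) (l 16720528)) (b (a (b (l 16704544) (l 16703432)) (c (l 16707280) (l 16698112))) (l 16702672))) (c (c (l 16723608) (l 16714632)) (c (l 16705528) (l 16696296)))) (c (c (l 16723272) (l 16714624)) (l 16702744))))), by decide +kernel⟩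

def k43_pm_012_s : ∃ t, chk3 f_pm_012_s t 264 254 1 = true :=
  ⟨(a (b (b (c (c (a (l 16742432) (b (l 16746600) (l 16744168))) (a (b (l 16743560) (l 16740688)) (b (l 16740880) (l 16738000)))) (a (b (c (l 16738152) (l 16732664)) (c (l 16734832) (l 16728888))) (b (c (l 16735088) (l 16729208)) (c (b (l 16732600) (l 16730928)) (b (l 16726384) (l 16724480)))))) (c (c (b (a (b (l 16744640) (l 16743896)) (l 16742592)) (l 16742768)) (b (a (b (l 16738528) (l 16737688)) (b (l 16736336) (l 16735984))) (l 16736536))) (b (b (a (c (l 16732336) (a (l 16726912) (l 16725216))) (a (c (l 16730328) (l 16723800)) (l 16726280))) (a (a (c (l 16731848) (l 16725512)) (l 16727624)) (l 16726240))) (c (l 16730216) (l 16723816))))) (c (c (l 16741760) (l 16735792)) (c (l 16729752) (l 16723624)))) (b (b (b (c (c (l 16743152) (a (l 16738200) (l 16735520))) (c (a (l 16732016) (l 16728944)) (a (l 16725744) (l 16722280)))) (a (c (b (l 16728808) (c (l 16741560) (l 16734984))) (b (c (l 16729544) (l 16722936)) (c (a (l 16728816) (l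 16727688)) (a (l 16722104) (l 16720856))))) (c (b (c (l 16740392) (l 16733632)) (l 16736536)) (b (c (a (l 16727320) (l 16726120)) (a (l 16720424) (l 16719088))) (l 16722784))))) (c (c (l 16740096) (l 16733528)) (c (l 16726864) (l 16720120)))) (c (b (l 16725600) (l 16735384)) (c (l 16726296) (l 16719896))))), by decide +kernel⟩

def k44_pm_012_s : ∃ t, chk3 f_pm_012_s t 265 254 1 = true :=
  ⟨(a (b (c (c (b (b (a (b (l 16740296) (l 16739224)) (b (l 16738048) (l 16737448))) (l 16737832)) (l 16737136)) (b (b (a (b (l 16733536) (l 16732280)) (b (l 16730928) (l 16730288))) (l 16730816)) (l 16730288))) (c (b (b (a (b (l 16726680) (a (l 16725832) (l 16724552))) (b (a (l 16724360) (l 16722992)) (l 16723016))) (l 16723704)) (l 16723360)) (b (b (a (b (l 16719736) (a (l 16718768) (l 16717336))) (b (b (l 16716712) (l 16716008)) (l 16715656))) (l 16716496)) (l 16716328)))) (c (c (l 16735824) (l 16729352)) (c (l 16722784) (l 16716128)))) (b (b (c (a (c (l 16735848) (l 16728576)) (l 16725320)) (a (a (c (l 16721656)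 (l 16714216)) (l 16716912)) (l 16715512))) (c (c (l 16734096) (l 16726992)) (c (l 16719792) (l 16712488)))) (c (l 16719568) (l 16715768)))), by decide +kernel⟩

def k45_pm_012_s : ∃ t, chk3 f_pm_012_s t 133 254 1 = true :=
  ⟨(c (c (b (a (a (l 16731456) (l 16728272)) (a (l 16725024) (l 16721696))) (a (l 16727984) (l 16721376))) (b (a (a (l 16723968) (l 16720536)) (l 16715280)) (a (l 16720920) (l 16713880)))) (b (a (c (a (l 16716376) (l 16712696)) (a (l 16708680) (l 16704744))) (c (l 16707080) (l 16698768))) (a (c (l 16713752) (l 16706496)) (c (l 16706288) (l 16698592))))), by decide +kernel⟩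

def k46_pm_012_s : ∃ t, chk3 f_pm_012_s t 66 255 1 = true :=
  ⟨(a (a (b (c (c (l 16738752) (l 16733112)) (c (l 16727392) (l 16721600))) (c (l 16724256) (l 16724256))) (b (c (c (l 16732624) (l 16726536)) (c (l 16720360) (l 16714096))) (c (l 16728296) (l 16717000)))) (c (b (a (l 16712472) (l 16716064)) (a (l 16721576) (l 16714600))) (b (a (l 16709776) (l 16702112)) (a (l 16709552) (l 16701920))))), by decide +kernel⟩

def k47_pm_012_s : ∃ t, chk3 f_pm_012_s t 134 252 1 = true :=
  ⟨(c (a (b (c (a (a (l 16733728) (l 16731208)) (b (l 16740144) (l 16735688))) (a (c (l 16728344) (l 16725576)) (a (l 16722608) (l 16719704)))) (c (a (a (l 16724760) (l 16722280)) (b (l 16731248) (l 16726824))) (a (c (l 16718160) (l 16714552)) (b (l 16723736) (l 16718480))))) (b (c (a (b (l 16735104) (l 16730656)) (b (l 16730088) (l 16725648))) (a (b (l 16728472) (l 16723208)) (b (l 16722688) (l 16717432)))) (c (a (b (l 16726248) (l 16721856)) (b (l 16721248) (l 16716880))) (a (b (l 16717968) (l 16712744)) (b (l 16712208)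 (l 16707016)))))) (a (b (b (a (a (l 16723600) (l 16720096)) (a (l 16716592) (l 16713096))) (c (a (l 16728800) (l 16722224)) (a (l 16722720) (l 16715344)))) (b (c (a (l 16722664) (l 16716120)) (a (l 16715728) (l 16708392))) (a (c (l 16716512) (l 16708720)) (c (l 16710016) (l 16701440))))) (b (a (b (a (l 16709600) (l 16706120)) (c (l 16715648) (l 16707984))) (c (b (l 16715192) (l 16709096)) (a (l 16695456) (l 16691792)))) (c (a (b (l 16709576) (l 16703512)) (b (l 16703040) (l 16697008))) (a (b (l 16701064) (l 16694152)) (b (l 16693744) (l 16686864))))))), by decide +kernel⟩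

def k48_pm_012_s : ∃ t, chk3 f_pm_012_s t 134 253 1 = true :=
  ⟨(b (a (a (c (c (b (l 16727296) (b (l 16723912) (a (l 16723104) (l 16721144)))) (b (l 16718880) (b (l 16714864) (a (l 16713232) (l 16711712))))) (c (b (l 16710344) (b (l 16705680) (a (b (l 16704976) (l 16704008)) (l 16702144)))) (b (c (l 16703864) (l 16699512)) (b (l 16696376) (a (b (l 16695536) (l 16694472)) (l 16692448)))))) (b (c (c (l 16722392) (l 16713208)) (c (l 16703904) (l 16694472))) (c (a (b (c (l 16720392) (l 16710816)) (l 16714536)) (c (l 16718048) (l 16707640))) (b (a (b (l 16696808) (c (l 16700504) (l 16690584))) (b (c (l 16698744) (l 16688632)) (l 16693192))) (c (l 16699008) (l 16689072)))))) (c (b (a (b (c (l 16718568) (l 16708840)) (a (c (l 16717648) (l 16707712)) (c (l 16715528) (l 16705336)))) (b (a (c (l 16714856) (l 16704568)) (c (l 16712656) (l 16702088))) (c (l 16712704) (l 16702264)))) (a (c (l 16715304) (l 16705328)) (c (l 16711744) (l 16701536)))) (b (c (a (b (l 16698968) (a (l 16697632) (l 16694992))) (b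 (a (l 16694128) (l 16691368)) (l 16691672))) (a (b (l 16688968) (a (b (l 16688176) (l 16686680)) (b (l 16684720) (l 16684072)))) (b (a (l 16683552) (b (l 16680800) (l 16679992))) (l 16680936)))) (a (c (l 16695216) (l 16684968)) (l 16685960))))) (c (a (a (c (l 16720456) (l 16711424)) (c (l 16717032) (l 16707760))) (c (l 16711752) (l 16702152))) (a (c (a (l 16702256) (l 16698368)) (a (l 16692976) (l 16688840))) (c (l 16692424) (l 16682560))))), by decide +kernel⟩

def k49_pm_012_s : ∃ t, chk3 f_pm_012_s t 270 126 1 = true :=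
  ⟨(a (b (b (c (c (b (l 16725088) (l 16720656)) (b (l 16716936) (l 16711680))) (c (b (l 16708664) (l 16702576)) (b (l 16700272) (l 16693344)))) (c (c (b (l 16716264) (b (l 16712992) (l 16710936))) (b (l 16706464) (b (l 16702576) (a (l 16701400) (l 16698824))))) (b (c (l 16696528) (l 16686448)) (b (c (l 16692008) (l 16681296)) (a (c (l 16690608) (l 16679664)) (b (l 16682536) (l 16682896))))))) (b (c (b (c (l 16709448) (l 16698704)) (l 16702928)) (b (c (l 16687800) (l 16678064)) (l 16681784))) (c (l 16701384) (l 16681288)))) (b (c (c (b (l 16707408) (b (l 16711296) (b (l 16708096) (l 16706832)))) (b (b (l 16711208) (l 16705960)) (b (l 16700744) (b (a (l 16698264) (l 16695608)) (l 16695616))))) (c (b (b (l 16702168) (l 16696088)) (b (l 16690040) (b (a (l 16687128) (l 16684144)) (l 16684248)))) (b (b (l 16693008) (l 16686080)) (b (l 16679192) (b (a (l 16675832) (l 16672520)) (l 16672720)))))) (c (b (c (l 16705088) (l 16694272)) (l 16697560)) (b (c (l 16683312) (l 16672192)) (l 16677072))))), by decide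 +kernel⟩

def k50_pm_012_s : ∃ t, chk3 f_pm_012_s t 271 126 1 = true :=
  ⟨(b (b (c (c (a (l 16702464) (l 16708032)) (a (b (l 16705512) (l 16700264)) (b (l 16699856) (l 16694600)))) (c (c (a (l 16695232) (l 16689008)) (a (l 16690088) (l 16683480))) (c (a (l 16684912) (l 16677920)) (a (l 16679696) (l 16672320))))) (c (b (a (b (c (l 16707448) (l 16696352)) (c (l 16705288) (l 16693800))) (b (c (l 16702528) (l 16690696)) (c (l 16701080) (l 16689120)))) (a (c (l 16703576) (l 16692064)) (l 16693936))) (b (a (a (c (l 16685200) (l 16673776)) (b (l 16677712) (c (l 16680608) (l 16668624)))) (b (a (l 16674312) (b (l 16671728) (l 16671592))) (a (b (l 16673600) (l 16671536)) (l 16669560)))) (a (a (c (l 16681408) (l 16669632)) (l 16673232)) (l 16670096))))) (c (b (c (l 16699520) (l 16688400)) (c (l 16696928) (l 16686544))) (b (c (l 16677128) (l 16665704)) (c (l 16676024) (l 16665352))))), by decide +kernel⟩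

def k51_pm_012_s : ∃ t, chk3 f_pm_012_s t 67 127 1 = true :=
  ⟨(a (b (a (c (b (c (l 16716568) (l 16708040)) (l 16700072)) (b (c (l 16699400) (l 16690640)) (l 16694576))) (c (b (c (l 16709488) (l 16700560)) (l 16703208)) (c (l 16693720) (l 16682280)))) (c (b (a (l 16708904) (l 16701496)) (a (l 16707368) (l 16699888))) (b (a (l 16694264) (l 16686224)) (l 16674384)))) (b (c (a (b (l 16681768) (l 16695616)) (b (l 16689688) (l 16687776))) (b (a (l 16678664) (l 16670176)) (a (l 16678264) (l 16669840)))) (a (c (l 16692984) (l 16677936)) (c (l 16685064) (l 16669560))))), by decide +kernel⟩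

def k52_pm_012_s : ∃ t, chk3 f_pm_012_s t 34 60 1 = true :=
  ⟨(a (l 3) (b (l 3) (a (b (l 3) (a (l 3) (b (a (l 3) (l 368998070983)) (a (b (l 389936039399) (l 242296548295)) (l 16775760))))) (b (a (b (l 3) (b (l 416779574407) (l 316921603143))) (b (a (l 361481878791) (l 140827916263)) (l 16764248))) (a (b (c (a (l 146196622567) (l 16774832)) (l 123648042071)) (l 16751576)) (l 16759392)))))), by decide +kernel⟩

def k53_pm_012_s : ∃ t, chk3 f_pm_012_s t 68 61 1 = true :=
  ⟨(b (a (b (l 3) (a (l 3) (b (l 3) (a (l 3) (l 403894675463))))) (b (a (l 3) (b (l 3) (a (l 439328151911) (b (l 379198622743) (l 223506065847))))) (a (b (a (l 3) (b (l 3) (l 326048412103))) (a (b (l 357186918535) (l 189146326759)) (l 52244232983))) (b (a (b (l 206326179943) (l 16775696)) (l 16774408)) (l 16766888))))) (a (b (a (b (l 3) (a (b (l 3) (l 356113183127)) (b (a (l 403894687591) (l 270750708375)) (l 139217330935)))) (b (a (b (l 448454965575) (a (l 370071828551) (l 16776888))) (b (a (l 306721060007) (l 16776472)) (l 16775328)))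 (c (l 16768816) (l 16763192)))) (a (b (a (b (a (l 229411647447) (l 16776000)) (l 16774856)) (l 16763152)) (c (l 16761192) (l 16760472))) (b (c (l 16760400) (l 16749144)) (l 16756608)))) (b (a (b (c (l 16773248) (l 16772792)) (l 16759152)) (b (l 16758256) (l 16744336))) (a (b (l 16755728) (a (b (l 16764704) (a (b (l 16763952) (l 16757592)) (b (l 16757376) (c (l 16761912) (l 16759840))))) (a (b (b (l 16763496) (l 16751912)) (c (l 16739640) (l 16737224))) (b (b (l 16751688) (c (l 16761504) (l 16759440))) (l 16735560))))) (b (a (b (l 16763800) (a (l 16757144) (b (l 16751232) (l 16754808)))) (b (a (l 16756688) (b (l 16761256) (l 16754360))) (c (l 16750696) (a (l 16736408) (l 16754144))))) (a (a (b (c (l 16760200) (l 16736832)) (l 16732736)) (b (l 16735168) (l 16729920))) (c (l 16730784) (l 16725832)))))))), by decide +kernel⟩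

def k54_pm_012_s : ∃ t, chk3 f_pm_012_s t 69 122 1 = true :=
  ⟨(a (b (a (b (a (l 365239975575) (c (l 144586028983) (l 147807232983))) (a (l 16765112) (l 16773464))) (b (l 16763072) (l 16749264))) (a (b (l 16760712) (l 16746840)) (l 16757288))) (b (a (l 16759704) (a (l 16743336) (l 16754200))) (a (b (l 16762480) (a (b (l 16760992) (a (l 16749064) (c (l 16758856) (l 16746448)))) (a (b (l 16753816) (l 16745072)) (b (c (l 16758352) (l 16745928)) (l 16752760))))) (b (a (b (l 16760056) (a (l 16753320) (c (l 16757824) (l 16745384)))) (a (b (l 16752168) (l 16733392)) (b (a (l 16746424) (l 16745328)) (l 16751624)))) (c (c (l 16730600) (l 16728520)) (c (l 16726416) (l 16724272))))))), by decide +kernel⟩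

def k55_pm_012_s : ∃ t, chk3 f_pm_012_s t 69 123 1 = true :=
  ⟨(a (b (a (b (l 16764376) (a (b (l 16762872) (a (l 16750976) (c (l 16750328) (l 16753672)))) (b (a (l 16750504) (c (l 16749856) (l 16753192))) (c (l 16747160) (l 16744432))))) (b (a (b (l 16761936) (a (l 16750032) (b (l 16759832) (l 16747656)))) (b (a (l 16749544) (b (l 16759344) (l 16736640))) (c (l 16735680) (l 16732928)))) (b (a (c (l 16746672) (l 16743936)) (l 16737064)) (c (l 16729320) (l 16724424))))) (b (a (c (a (c (l 16735784) (l 16744576)) (l 16729976)) (a (c (l 16742856) (l 16741120)) (l 16725072))) (c (b (l 16724912) (l 16720480)) (b (l 16718600) (l 16712728)))) (c (a (b (l 16725712) (l 16721200)) (l 16717040)) (a (c (l 16718160) (l 16714560)) (c (l 16727328) (l 16722296)))))) (b (a (a (b (b (c (l 16735160) (l 16732376)) (l 16739192)) (c (l 16745240) (l 16738944))) (c (c (l 16725352) (l 16722256)) (c (l 16719104) (l 16715912)))) (b (c (l 16726208) (a (l 16738024) (l 16731880))) (c (l 16712304) (l 16702528)))) (c (a (c (l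 16711384) (l 16705832)) (c (l 16702528) (l 16695608))) (a (c (b (l 16726688) (l 16715624)) (c (l 16695912) (l 16693040))) (b (l 16690920) (l 16679160)))))), by decide +kernel⟩

def k56_pm_012_s : ∃ t, chk3 f_pm_012_s t 70 60 1 = true :=
  ⟨(b (a (b (a (l 3) (b (l 3) (l 313163500071))) (a (b (l 362555612263) (a (l 177871997463) (l 16775712))) (c (l 87677695655) (l 88214566103)))) (b (a (a (b (l 200420572247) (l 16775496)) (l 16774904)) (l 16750816)) (a (l 16748944) (l 16744784)))) (a (b (a (l 16761584) (l 16746872)) (a (l 16755096) (a (l 16762384) (c (l 16750192) (l 16751496))))) (b (a (l 16742688) (b (l 16761104) (a (l 16758944) (b (l 16757680) (a (l 16756472) (l 16749800)))))) (a (b (a (l 16759832) (c (l 16758128) (l 16746200))) (a (b (b (l 16757752) (l 16746168)) (a (b (l 16756360) (l 16754760)) (l 16742800))) (b (c (l 16744296) (a (l 16754056) (l 16751408))) (l 16728288)))) (b (a (b (a (l 16756968) (l 16745080)) (c (l 16733232) (l 16741624))) (b (a (l 16745904) (l 16751176)) (l 16726968))) (c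 (l 16725008) (l 16720352))))))), by decide +kernel⟩

def k57_pm_012_s : ∃ t, chk3 f_pm_012_s t 71 60 1 = true :=
  ⟨(b (a (a (b (l 16746680) (l 16761624)) (b (l 16763536) (b (l 16759040) (a (l 16756920) (b (l 16755568) (a (l 16754256) (l 16741896))))))) (b (a (l 16759456) (b (l 16756880) (c (a (l 16755112) (b (l 16753720) (l 16751000))) (a (l 16743384) (b (l 16752408) (l 16748992)))))) (b (a (a (l 16750480) (b (l 16749120) (a (l 16742416) (l 16750552)))) (a (c (l 16739600) (a (l 16728104) (l 16746112))) (l 16722704))) (a (a (b (a (l 16743120) (l 16751520)) (l 16748488)) (l 16734992)) (c (l 16740480) (l 16714072)))))) (a (b (a (b (a (l 16758008) (b (l 16756736) (a (l 16755424) (l 16748600)))) (a (b (a (l 16755960) (l 16749224)) (a (l 16742608) (l 16750448))) (c (l 16729336) (l 16726368)))) (b (a (b (a (l 16754856) (l 16742664)) (l 16739712)) (c (l 16748784) (l 16745552))) (c (l 16722472) (l 16717480)))) (a (c (c (l 16721320) (l 16718336)) (c (l 16715312) (l 16712232))) (c (a (l 16713048) (l 16708536))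 (c (l 16704296) (l 16699880))))) (c (b (a (c (l 16718832) (l 16715680)) (a (l 16710552) (l 16727064))) (a (a (l 16704048) (l 16720544)) (l 16692904))) (b (a (c (l 16712480) (l 16709232)) (a (l 16702200) (l 16696456))) (a (a (l 16693400) (l 16687632)) (c (l 16703512) (l 16696472))))))), by decide +kernel⟩

def k58_pm_012_s : ∃ t, chk3 f_pm_012_s t 70 61 1 = true :=
  ⟨(b (a (b (a (b (a (l 16761664) (l 16748888)) (a (b (l 16759040) (c (a (l 16758392) (l 16756752)) (a (l 16756712) (l 16754744)))) (b (c (a (l 16757896) (l 16756192)) (a (l 16756208) (l 16754144))) (l 16741304)))) (b (a (b (l 16758048) (c (l 16749872) (a (l 16755688) (l 16753520)))) (b (a (b (l 16756856) (l 16755376)) (l 16743464)) (l 16729568))) (c (l 16732560) (l 16725536)))) (c (a (c (l 16730864) (l 16724144)) (c (l 16716888) (l 16712752))) (a (b (c (l 16725208) (l 16723016)) (l 16713008)) (c (l 16708560) (l 16704296))))) (a (b (c (c (l 16723520) (l 16720656)) (c (l 16717744) (l 16714792))) (c (c (l 16708240) (l 16702776)) (b (l 16699952)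 (l 16688872)))) (b (c (c (l 16714952) (l 16710768)) (c (l 16706520) (l 16702208))) (c (a (l 16698600) (l 16694016)) (a (l 16685504) (l 16679592)))))) (a (b (c (a (c (l 16709896) (l 16704416)) (a (l 16700112) (l 16695448))) (a (b (l 16701736) (l 16690312)) (c (l 16687432) (l 16680408)))) (c (a (a (l 16691992) (l 16687288)) (a (l 16682608) (l 16677960))) (a (b (l 16678728) (l 16666992)) (a (l 16663816) (l 16657824))))) (c (b (a (a (l 16690800) (l 16686176)) (c (l 16704968) (l 16695520))) (a (c (l 16697424) (l 16686520)) (c (l 16688896) (l 16676696)))) (b (a (a (l 16674936) (l 16668984)) (a (l 16663056) (l 16657168))) (a (a (l 16651856) (l 16645920)) (c (l 16664312) (l 16651744))))))), by decide +kernel⟩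

def k59_pm_012_s : ∃ t, chk3 f_pm_012_s t 71 61 1 = true :=
  ⟨(b (a (c (b (a (a (l 16706024) (l 16701488)) (c (l 16719072) (l 16712296))) (a (c (l 16712176) (l 16704104)) (l 16678168))) (b (a (c (l 16695424) (l 16689768)) (a (l 16683856) (l 16678072))) (a (a (l 16673720) (l 16667872)) (c (l 16684944) (l 16675304))))) (c (b (a (l 16685784) (l 16676944)) (a (l 16669264) (l 16660448))) (b (a (c (l 16694536) (l 16686232)) (c (l 16683784) (l 16674184))) (a (c (l 16674120) (l 16663168)) (c (l 16663408) (l 16651168)))))) (c (a (b (a (l 16670192) (l 16661192)) (a (l 16642288) (l 16643800))) (b (b (l 16652160) (l 16643584)) (b (l 16634904) (l 16605160)))) (a (b (a (c (l 16674872) (l 16663808)) (c (l 16663936) (l 16651560))) (a (c (l 16653296) (l 16639408)) (l 16598128))) (a (b (c (l 16653128) (l 16639456)) (l 16602448)) (b (l 16614024) (l 16591168)))))), by decide +kernel⟩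

def k60_pm_012_s : ∃ t, chk3 f_pm_012_s t 136 124 1 = true :=
  ⟨(b (a (b (c (l 16758016) (l 16746392)) (a (b (l 16766352) (a (b (l 16765496) (c (l 16765016) (l 16752800))) (b (c (l 16764920) (l 16752712)) (c (l 16763032) (l 16760784))))) (a (b (b (l 16765208) (c (l 16764800) (l 16763088))) (c (l 16751280) (l 16738200))) (b (b (c (l 16764656) (l 16762960)) (c (l 16762888) (l 16760712))) (l 16747088))))) (b (a (b (l 16765584) (c (a (l 16754432) (b (l 16764304) (l 16762648))) (a (l 16758040) (b (l 16762616) (l 16760520))))) (a (b (c (l 16764512) (l 16762880)) (c (l 16750856) (l 16748392))) (b (b (l 16757808) (c (l 16762304) (l 16760208))) (l 16746728)))) (a (a (b (c (l 16751120) (l 16748600)) (l 16744232)) (b (l 16746960) (l 16741384))) (c (l 16742472) (l 16732088))))) (a (c (c (b (a (l 16748528) (l 16733384)) (l 16734240)) (b (a (l 16746640) (l 16730760)) (c (l 16723504) (l 16721576)))) (c (b (a (l 16742096) (l 16728096)) (b (l 16721792) (l 16715480))) (b (a (l 16740152) (l 16725392)) (b (l 16718256)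 (l 16711128))))) (b (c (c (l 16726496) (l 16722792)) (a (l 16725584) (l 16713936))) (c (c (l 16717128) (l 16717096)) (c (a (l 16730496) (l 16724464)) (c (l 16702440) (l 16699712))))))), by decide +kernel⟩

def k61_pm_012_s : ∃ t, chk3 f_pm_012_s t 137 124 1 = true :=
  ⟨(b (a (a (b (a (b (c (l 16750512) (l 16748072)) (l 16743888)) (b (l 16746408) (l 16730576))) (c (l 16727048) (l 16720456))) (c (b (l 16741992) (l 16722120)) (b (l 16726488) (l 16714088)))) (c (b (c (l 16725904) (l 16722368)) (a (l 16717216) (l 16712336))) (b (c (l 16718776) (l 16715128)) (c (l 16707160) (l 16701992))))) (b (c (a (c (l 16717352) (l 16712224)) (a (l 16707464) (l 16702592))) (a (c (l 16707016) (l 16701736)) (c (l 16695104) (l 16688368)))) (c (a (c (l 16708024) (l 16701336)) (a (l 16697376) (l 16692528))) (a (c (l 16694536) (l 16687648)) (c (l 16682664) (l 16674328)))))), by decide +kernel⟩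

def k62_pm_012_s : ∃ t, chk3 f_pm_012_s t 69 124 1 = true :=
  ⟨(c (b (a (a (c (a (l 16714808) (l 16710312)) (a (l 16709480) (l 16704280))) (c (b (l 16728840) (l 16720264)) (c (l 16698304) (l 16694744)))) (a (c (b (l 16719936) (l 16711376)) (b (l 16712232) (l 16702208))) (c (l 16685880) (l 16673472)))) (a (a (c (c (l 16696832) (l 16692504)) (a (l 16688544) (l 16683376))) (c (b (l 16711320) (l 16702088)) (b (l 16702008) (l 16691216)))) (a (c (b (l 16702472) (l 16693256)) (b (l 16691792) (l 16681032))) (c (l 16668152) (b (l 16681664) (l 16670936)))))) (a (b (a (b (b (l 16707376) (l 16701312)) (b (l 16695152) (l 16688864))) (b (c (l 16716088) (l 16709568)) (c (l 16704536) (l 16696504)))) (a (a (b (l 16682336) (l 16669136)) (b (l 16697072) (l 16662920))) (a (b (l 16690864) (l 16677704)) (b (l 16684688) (l 16671544))))) (b (a (b (c (l 16704416) (l 16696488)) (c (l 16692904) (l 16683456))) (c (b (l 16692856) (l 16681376)) (b (l 16683536) (l 16670536)))) (a (c (b (l 16680952) (l 16668624)) (b (l 16669952)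 (l 16656040))) (c (b (l 16669456) (l 16657168)) (b (l 16657072) (l 16643200))))))), by decide +kernel⟩

def k63_pm_012_s : ∃ t, chk3 f_pm_012_s t 136 125 1 = true :=
  ⟨(b (c (a (b (c (a (l 16740232) (l 16735512)) (c (l 16712832) (l 16710104))) (c (a (l 16730744) (l 16725976)) (c (l 16702120) (l 16698576)))) (b (c (l 16712832) (a (l 16724336) (l 16719024))) (c (a (l 16721264) (l 16716592)) (a (l 16713136) (l 16707752))))) (a (b (c (c (l 16707352) (l 16704584)) (b (l 16703976) (l 16696800))) (c (c (l 16695008) (l 16696656)) (b (l 16689592) (l 16692856)))) (b (c (a (l 16717736) (l 16711688)) (c (l 16688456) (l 16684896))) (c (c (l 16703992) (l 16678680)) (c (l 16674312) (l 16669920)))))) (c (a (b (c (a (l 16721328) (l 16716520)) (a (l 16713032) (l 16707496))) (c (a (l 16712128) (l 16707296)) (a (l 16702208) (l 16696640)))) (b (c (a (l 16711760) (l 16707048)) (a (l 16702008) (l 16696568))) (c (a (l 16702504) (l 16697744)) (a (l 16691112) (l 16685640))))) (a (a (b (c (l 16704624) (l 16696096)) (c (l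 16686904) (b (l 16685464) (l 16678440)))) (b (c (l 16698344) (l 16689056)) (c (l 16685832) (l 16672248)))) (a (b (c (l 16692112) (l 16682080)) (c (l 16679568) (l 16667856))) (b (c (l 16685944) (l 16675168)) (c (l 16673360) (l 16660904))))))), by decide +kernel⟩

def k64_pm_012_s : ∃ t, chk3 f_pm_012_s t 137 125 1 = true :=
  ⟨(b (c (c (a (b (l 16698440) (a (l 16711984) (l 16707432))) (b (l 16710416) (l 16700672))) (a (b (a (l 16713744) (l 16708504)) (a (l 16702424) (l 16697168))) (b (l 16700720) (a (l 16691952) (l 16686776))))) (a (b (c (a (l 16705696) (l 16699736)) (a (l 16697528) (l 16690840))) (c (a (l 16692728) (l 16686752)) (a (l 16682888) (l 16676192)))) (b (c (l 16669920) (a (l 16684224) (l 16677616))) (c (a (l 16680832) (l 16674944)) (a (l 16669552) (l 16662952)))))) (b (c (c (a (a (l 16702384) (l 16697768)) (l 16680480)) (a (a (l 16691192) (l 16685864)) (a (l 16680600) (l 16675416)))) (a (c (a (l 16679840) (l 16673792)) (a (l 16668328) (l 16661552))) (a (c (l 16667816) (l 16654856)) (c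 (l 16661920) (l 16648240))))) (c (a (a (c (l 16693040) (l 16680216)) (b (l 16684160) (b (l 16680384) (c (l 16685200) (l 16671184))))) (b (a (l 16679208) (c (l 16681616) (l 16667144))) (a (c (l 16682232) (l 16667944)) (l 16671248)))) (a (a (c (l 16667208) (l 16654016)) (b (l 16660152) (b (l 16652504) (c (l 16656968) (l 16642552))))) (b (a (l 16651152) (b (l 16646536) (a (l 16644776) (l 16642224)))) (a (b (a (l 16647800) (l 16645256)) (l 16645240)) (l 16641760))))))), by decide +kernel⟩

def k65_pm_012_s : ∃ t, chk3 f_pm_012_s t 69 125 1 = true :=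
  ⟨(b (a (c (a (b (a (l 16677384) (l 16672592)) (c (l 16691784) (l 16679088))) (b (b (l 16668024) (l 16662840)) (c (l 16682952) (l 16668888)))) (c (a (b (l 16679160) (l 16666208)) (b (l 16667528) (l 16654624))) (a (b (l 16667752) (l 16653144)) (b (l 16654712) (l 16640160))))) (c (b (a (c (l 16683816) (l 16670008)) (c (l 16675088) (l 16659952))) (a (a (l 16647888) (c (l 16671912) (l 16656176))) (b (a (l 16662112) (l 16657432)) (a (l 16657464) (l 16653728))))) (b (a (c (l 16656008) (l 16641800)) (c (l 16644592) (l 16629000))) (b (a (l 16641312) (c (l 16634960) (l 16618160))) (a (a (l 16634832) (b (l 16630512) (l 16627264))) (a (b (l 16624672) (l 16622768)) (l 16619672))))))) (a (c (b (a (a (c (l 16684248) (l 16670264)) (b (l 16675160) (c (l 16677440) (l 16662408)))) (b (a (l 16670416) (c (l 16673472) (l 16657888))) (a (c (l 16673608) (l 16658144)) (l 16662168)))) (b (a (a (c (l 16677720) (l 16662832)) (l 16666552)) (l 16661304)) (c (l 16669800) (l 16654976)))) (b (a (a (c (l 16656072) (l 16641680))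 (b (l 16646224) (b (l 16641040) (a (l 16639128) (l 16636560))))) (b (a (l 16640096) (b (l 16635728) (l 16635152))) (a (c (l 16642456) (l 16626552)) (l 16630304)))) (a (b (a (b (a (l 16641888) (l 16639328)) (l 16639112)) (l 16635840)) (l 16638664)) (c (l 16637176) (l 16621632))))) (c (a (b (a (c (l 16668216) (l 16652336)) (l 16656584)) (l 16653112)) (c (l 16656488) (l 16640688))) (a (b (b (a (b (l 16629880) (l 16628056)) (l 16624920)) (l 16624744)) (l 16622120)) (c (l 16624656) (l 16608400)))))), by decide +kernel⟩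

def k66_pm_012_s : ∃ t, chk3 f_pm_012_s t 35 124 1 = true :=
  ⟨(a (a (a (b (c (b (l 16676208) (l 16666976)) (c (l 16654728) (b (l 16670704) (l 16657744)))) (c (c (l 16680432) (l 16645336)) (c (b (l 16658072) (l 16645824)) (b (l 16644320) (l 16630488))))) (b (b (c (l 16687856) (l 16664064)) (c (l 16678640) (l 16651896))) (c (b (l 16669056) (l 16638192)) (c (l 16640728) (l 16598616))))) (a (b (b (c (l 16678624) (l 16652176)) (c (l 16669432) (l 16640040))) (c (b (l 16659872) (c (l 16658584) (l 16641096))) (b (l 16627448) (a (l 16617424) (b (l 16614832) (l 16608352)))))) (b (b (c (l 16669480) (l 16640416)) (c (l 16660312) (l 16628304))) (b (c (l 16650768) (l 16615752)) (b (c (l 16643360) (a (l 16609000) (l 16603304))) (c (l 16639512) (l 16606360))))))) (b (a (c (c (a (l 16663992) (l 16655680)) (a (l 16647680) (l 16638112))) (c (a (l 16631120) (l 16620272)) (a (l 16614320) (l 16602176)))) (b (c (c (l 16647552) (l 16628848)) (c (l 16609848) (l 16590576))) (c (a (c (l 16643104) (l 16623632)) (c (l 16635656)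 (l 16615424))) (a (b (l 16596920) (l 16590984)) (b (l 16585992) (l 16582392)))))) (a (c (c (b (a (l 16650848) (l 16643176)) (l 16640000)) (b (a (l 16632360) (l 16623832)) (l 16621104))) (b (a (c (l 16613592) (l 16594544)) (b (l 16596000) (l 16591992))) (a (b (l 16596856) (l 16594192)) (l 16588304)))) (c (a (b (l 16626184) (l 16619824)) (l 16615904)) (a (b (l 16586104) (l 16581352)) (l 16576672)))))), by decide +kernel⟩

def k67_pm_012_s : ∃ t, chk3 f_pm_012_s t 35 125 1 = true :=
  ⟨(a (a (b (b (a (c (a (l 16660560) (c (l 16664192) (l 16647416))) (a (l 16627824) (b (l 16625224) (l 16618528)))) (c (b (c (l 16660160) (l 16642808)) (a (l 16649296) (l 16645576))) (b (a (l 16619280) (l 16613424)) (a (l 16613640) (l 16609472))))) (c (a (c (l 16658680) (l 16641696)) (l 16642872)) (a (a (c (l 16626256) (l 16608824)) (l 16613504)) (l 16607984)))) (c (c (l 16659016) (l 16629960)) (c (l 16613784) (l 16597376)))) (c (b (a (b (b (l 16643520) (l 16640264)) (l 16635848)) (c (l 16640552) (l 16622840))) (c (l 16631504)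 (l 16615472))) (b (a (b (c (l 16614856) (l 16596360)) (l 16600824)) (c (l 16604872) (l 16586640))) (c (l 16599208) (l 16582712))))) (c (b (a (c (l 16629920) (l 16612200)) (c (l 16615512) (l 16597872))) (a (c (l 16616816) (l 16600816)) (l 16593976))) (b (a (c (l 16594216) (l 16575976)) (c (l 16579984) (l 16561832))) (a (l 16586864) (l 16561808))))), by decide +kernel⟩

def k68_pm_012_s : ∃ t, chk3 f_pm_012_s t 136 126 1 = true :=
  ⟨(b (b (c (a (c (b (l 16702944) (a (l 16700888) (b (l 16697160) (l 16695520)))) (b (a (l 16694232) (l 16688648)) (a (b (l 16690280) (l 16687648)) (b (l 16684656) (l 16682840))))) (b (a (c (l 16695672) (l 16683056)) (a (b (l 16686800) (l 16684520)) (b (l 16684232) (l 16682440)))) (a (b (c (l 16692824) (l 16679800)) (l 16685232)) (l 16681936)))) (a (a (a (b (l 16678896) (l 16672392)) (b (l 16675536) (c (l 16675208) (l 16662712)))) (c (b (l 16676600) (b (l 16671984) (l 16669976))) (b (l 16664376) (b (l 16659136) (a (l 16658072) (l 16655552)))))) (b (c (a (l 16670264) (b (l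 16665592) (l 16663288))) (a (l 16657288) (b (l 16652080) (l 16652160)))) (a (b (a (b (l 16661432) (l 16660472)) (l 16658568)) (l 16658968)) (l 16655136))))) (a (c (a (b (c (l 16697856) (b (l 16685944) (l 16685064))) (l 16690160)) (c (l 16693208) (l 16680896))) (a (b (b (a (b (l 16668472) (l 16667768)) (l 16665816)) (l 16666408)) (l 16665928)) (c (l 16668408) (l 16655752)))) (c (c (l 16687672) (l 16675096)) (c (l 16662352) (l 16649424))))) (c (a (b (c (l 16691992) (l 16680512)) (c (l 16689192) (l 16678480))) (c (l 16682824) (l 16671416))) (a (b (c (l 16668872) (l 16657064)) (l 16662128)) (c (l 16659848) (l 16648112))))), by decide +kernel⟩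

def k69_pm_012_s : ∃ t, chk3 f_pm_012_s t 137 126 1 = true :=
  ⟨(b (a (c (b (a (b (c (l 16687128) (l 16673488)) (l 16678240)) (c (l 16682280) (l 16668576))) (c (l 16680232) (l 16667352))) (b (a (b (b (c (l 16660080) (l 16645992)) (l 16651880)) (l 16651112)) (c (l 16654672) (l 16640568))) (c (l 16654296) (l 16641056)))) (c (c (b (l 16676888) (l 16672760)) (b (l 16662968) (l 16659624))) (b (c (l 16648856) (l 16634544)) (l 16644816)))) (c (b (a (l 16670664) (l 16662816)) (a (l 16667816) (l 16659736))) (c (b (l 16648232) (l 16646536)) (b (l 16635680) (l 16634832))))), by decide +kernel⟩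

def k70_pm_012_s : ∃ t, chk3 f_pm_012_s t 68 127 1 = true :=
  ⟨(a (a (b (c (b (l 16681688) (l 16679680)) (b (l 16661568) (l 16661216))) (c (l 16676920) (l 16661008))) (b (c (b (l 16673512) (l 16671408)) (l 16657888)) (c (l 16668496) (l 16652232)))) (b (c (a (l 16664072) (l 16655664)) (a (l 16643832) (l 16635064))) (c (a (l 16659960) (l 16651232)) (a (l 16643400) (l 16634424))))), by decide +kernel⟩

def k71_pm_012_s : ∃ t, chk3 f_pm_012_s t 69 63 1 = true :=
  ⟨(b (c (c (b (a (a (l 16667448) (l 16660200)) (a (l 16652896) (l 16645600))) (a (a (l 16659280) (l 16651400)) (l 16639744))) (b (a (a (l 16653688) (l 16646264)) (a (l 16638824) (l 16631424))) (a (l 16653648) (l 16627360)))) (a (b (c (a (l 16639736) (l 16632136)) (a (l 16625592) (l 16617808))) (c (l 16630816) (l 16618304))) (b (c (l 16626040) (l 16606264)) (a (l 16612328) (l 16604408))))) (c (b (a (a (l 16647224) (l 16638776)) (a (l 16630344) (l 16621944))) (a (l 16648432) (l 16620176))) (b (a (a (l 16626328) (l 16617656)) (l 16604824)) (a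 (l 16620872) (l 16602968))))), by decide +kernel⟩

def k72_pm_012_s : ∃ t, chk3 f_pm_012_s t 35 63 1 = true :=
  ⟨(a (b (a (b (c (c (l 16634616) (l 16620360)) (c (l 16605896) (l 16591240))) (c (c (l 16624120) (l 16611664)) (l 16603136))) (c (b (c (l 16619648) (l 16605376)) (l 16602424)) (b (l 16583592) (l 16577288)))) (c (b (a (l 16609600) (l 16593168)) (a (l 16602496) (l 16585200))) (b (a (l 16588272) (l 16572080)) (a (l 16585392) (l 16568464))))) (b (c (b (a (l 16597344) (l 16581976)) (a (l 16586712) (l 16570848))) (b (a (l 16568600) (l 16553640)) (a (l 16561920) (l 16546592)))) (b (c (a (l 16576968) (l 16560600)) (a (l 16556368) (l 16540664))) (a (c (l 16568080) (l 16551920)) (c (l 16551240) (l 16535880)))))), by decide +kernel⟩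

def k73_pm_012_s : ∃ t, chk3 f_pm_012_s t 9 28 1 = true :=
  ⟨(a (a (a (l 3) (b (l 3) (a (b (l 3) (l 362555626119)) (b (l 373829875031) (c (l 16743720) (l 16733176)))))) (a (b (a (l 374366714839) (b (l 3) (l 16777056))) (a (b (l 16734352) (l 16767416)) (b (l 16768648) (l 16759768)))) (b (a (l 59223491015) (l 16766032)) (a (b (l 16761080) (b (l 16754472) (a (l 16751672) (l 16730864)))) (b (a (l 16755456) (l 16730256)) (b (a (l 16727000) (l 16720808)) (c (l 16715592) (l 16712152)))))))) (a (b (a (a (l 16737656) (b (l 16755272) (a (l 16727096) (c (l 16722368) (l 16721000))))) (a (b (c (l 16746680) (l 16724720)) (c (l 16712072) (l 16708040))) (b (c (l 16714208) (l 16710800)) (l 16692192)))) (a (b (a (c (b (l 16726336) (l 16719504)) (b (l 16725568) (l 16717376))) (c (l 16708792) (l 16703664))) (a (c (l 16704528) (l 16697920)) (a (l 16687680) (l 16678728)))) (c (a (l 16662256) (l 16667936)) (a (l 16649608) (l 16629896))))) (a (b (c (b (l 16691320) (l 16673776)) (a (l 16679712) (l 16660400))) (c (a (l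 16652928) (l 16638216)) (a (l 16631544) (l 16612616)))) (b (c (l 16632312) (a (l 16662416) (l 16643824))) (c (b (l 16647192) (l 16627880)) (b (l 16618152) (l 16593328))))))), by decide +kernel⟩

def k74_pm_012_s : ∃ t, chk3 f_pm_012_s t 9 58 1 = true :=
  ⟨(a (a (a (b (a (l 3) (b (l 3) (a (l 392620376535) (l 16777096)))) (a (b (l 377587981159) (a (l 161765844935) (l 16775032))) (a (l 56539171671) (l 16748632)))) (b (a (c (l 58149770439) (l 54391673511)) (l 16744800)) (a (l 16742720) (a (l 16757816) (b (l 16756464) (b (l 16752584) (a (l 16750704) (l 16737264)))))))) (a (b (a (l 16758040) (c (b (l 16731504) (a (l 16728232) (l 16722288))) (b (l 16730960) (a (l 16727408) (l 16720336))))) (b (a (a (l 16741720) (b (l 16738792) (a (l 16747040) (l 16742560)))) (a (c (l 16740336) (l 16716384)) (l 16708256))) (a (a (b (c (l 16726712) (l 16725488)) (l 16719904)) (l 16713736)) (c (l 16703336) (l 16695448))))) (a (b (a (b (b (l 16726304) (l 16721640)) (l 16711960)) (l 16698488)) (c (l 16692776) (l 16661032)))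 (b (c (l 16699248) (l 16690776)) (c (l 16676616) (l 16661208)))))) (a (a (c (b (a (l 16704224) (l 16688520)) (a (l 16681712) (l 16666152))) (b (a (l 16691160) (l 16670960)) (a (l 16661792) (l 16641816)))) (c (a (l 16599176) (l 16605120)) (b (a (l 16651160) (l 16631776)) (a (l 16622256) (l 16603128))))) (a (c (a (l 16611376) (l 16596976)) (a (l 16556784) (l 16538392))) (c (b (l 16607544) (l 16586144)) (c (l 16522576) (l 16479488)))))), by decide +kernel⟩

def k75_pm_012_s : ∃ t, chk3 f_pm_012_s t 36 59 1 = true :=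
  ⟨(a (b (a (b (l 16761320) (l 16745456)) (a (l 16742144) (l 16738168))) (a (b (l 16739920) (a (a (l 16758216) (l 16748144)) (b (a (l 16755640) (b (l 16754352) (l 16742024))) (a (b (l 16753192) (a (l 16751888) (l 16749728))) (c (l 16728064) (l 16736408)))))) (b (a (a (l 16755888) (b (l 16755296) (c (l 16752392) (l 16743400)))) (b (a (l 16753072) (b (l 16751664) (l 16738720))) (a (c (l 16728312) (l 16737072)) (l 16722536)))) (a (a (b (b (a (l 16752672) (l 16751184)) (l 16738376)) (l 16721880)) (c (l 16722648) (l 16719016))) (c (l 16716064) (l 16710536)))))) (b (a (b (a (l 16757872) (c (l 16732936) (l 16742640))) (a (b (l 16753712) (a (b (l 16752800) (l 16750896)) (b (l 16739584) (l 16746896)))) (a (b (b (l 16751328) (l 16728168)) (l 16743792)) (c (l 16723104) (l 16720336))))) (b (a (b (a (l 16752264) (l 16739144)) (a (b (l 16749720) (l 16746864)) (l 16743712))) (c (l 16720720) (b (l 16721584) (l 16734288)))) (c (c (l 16713728) (l 16710816)) (c (l 16707856) (l 16704848))))) (b (a (a (c (c (l 16721816)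 (l 16719968)) (c (l 16718096) (l 16716192))) (c (l 16712160) (l 16705872))) (c (b (l 16702608) (l 16696040)) (c (l 16691880) (l 16686808)))) (a (c (c (l 16705344) (l 16700776)) (a (l 16699360) (l 16688280))) (c (b (l 16689384) (l 16682632)) (c (l 16696408) (l 16668232))))))), by decide +kernel⟩

def k76_pm_012_s : ∃ t, chk3 f_pm_012_s t 37 59 1 = true :=
  ⟨(a (a (c (b (c (l 16703824) (l 16678520)) (b (l 16682504) (l 16669264))) (b (c (l 16674120) (l 16669648)) (b (a (l 16694064) (l 16683352)) (a (l 16676648) (l 16665984))))) (b (c (c (l 16688360) (l 16681688)) (b (l 16679592) (l 16663272))) (c (b (l 16665984) (l 16652832)) (c (l 16643344) (l 16611416))))) (c (b (a (l 16652976) (l 16652680)) (a (c (l 16670624) (l 16657792)) (l 16627416))) (b (a (a (l 16655704) (l 16666288)) (l 16608944)) (a (a (l 16622304) (l 16612040)) (b (l 16626272) (l 16609280)))))), by decide +kernel⟩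

def k77_pm_012_s : ∃ t, chk3 f_pm_012_s t 19 59 1 = true :=
  ⟨(c (a (a (b (a (l 16657936) (l 16642536)) (a (l 16611880) (l 16617640))) (b (l 16562328) (a (l 16602752) (l 16588208)))) (a (b (l 16591144) (a (l 16573592) (l 16559992))) (b (a (l 16570160) (l 16556736)) (a (l 16505296) (l 16533304))))) (a (a (b (a (l 16609768) (l 16611024)) (a (l 16576976) (l 16578520))) (b (a (l 16591744) (l 16572912)) (a (l 16559552) (l 16541048)))) (a (b (l 16503512) (a (l 16522720) (b (l 16513240) (l 16500160)))) (b (a (l 16518960) (l 16503384)) (a (l 16493960) (l 16482152)))))), by decide +kernel⟩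

def k78_pm_012_s : ∃ t, chk3 f_pm_012_s t 36 60 1 = true :=
  ⟨(a (b (a (b (a (b (a (b (l 16754504) (a (l 16753320) (l 16751664))) (b (a (l 16752632) (l 16750768)) (l 16747952))) (c (l 16735600) (l 16726968))) (c (l 16722360) (c (l 16716112) (l 16713648)))) (c (a (a (l 16716488) (l 16733024)) (l 16705432)) (a (a (l 16710280) (l 16704560)) (b (l 16721768) (l 16712200))))) (b (c (a (l 16710952) (l 16702232)) (a (b (l 16729152) (l 16719880)) (l 16692320))) (c (a (l 16696680) (l 16688000)) (a (l 16684752) (l 16673576))))) (c (a (b (a (l 16699448) (l 16690664)) (a (l 16684088) (l 16675344))) (b (a (l 16681952) (l 16694288)) (a (l 16666680) (l 16679064)))) (a (b (a (c (l 16711792) (l 16705920)) (c (l 16701104) (l 16693952))) (a (c (l 16692792) (l 16684456)) (l 16645920))) (b (a (l 16665352) (l 16654248)) (a (l 16645256) (l 16634216)))))) (c (b (a (b (c (l 16692624) (l 16685928)) (b (l 16678704) (l 16671520))) (b (b (l 16675784) (l 16668832)) (a (l 16683408) (l 16675040)))) (a (b (b (l 16664216) (l 16656784))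 (c (l 16673080) (l 16659544))) (b (c (l 16671432) (l 16657904)) (l 16628680)))) (b (a (b (a (l 16681200) (l 16670176)) (a (l 16662512) (l 16651552))) (b (a (l 16680232) (l 16669424)) (a (l 16661680) (l 16650936)))) (a (b (a (l 16643248) (l 16653328)) (b (l 16622904) (l 16612776))) (b (b (l 16621056) (l 16611344)) (c (l 16625568) (l 16609192))))))), by decide +kernel⟩

def k79_pm_012_s : ∃ t, chk3 f_pm_012_s t 37 60 1 = true :=
  ⟨(a (c (b (a (b (l 16655656) (l 16641672)) (b (l 16639304) (l 16625416))) (a (b (l 16627256) (l 16612320)) (a (l 16586760) (l 16599768)))) (b (a (b (a (l 16658728) (l 16648128)) (a (l 16640304) (l 16629776))) (b (l 16590496) (a (l 16619368) (l 16609064)))) (a (b (a (l 16621312) (l 16610864)) (c (l 16605768) (l 16587056))) (b (l 16553448) (l 16533992))))) (b (c (a (b (l 16644248) (l 16630464)) (b (l 16628544) (l 16614864))) (a (b (l 16611904) (l 16593808)) (b (l 16591816) (l 16573880)))) (a (b (c (l 16616264) (l 16575168)) (c (l 16601552) (l 16555880))) (a (c (l 16597344)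 (l 16529816)) (b (l 16532000) (b (l 16540432) (c (l 16578760) (l 16527240)))))))), by decide +kernel⟩

def k80_pm_012_s : ∃ t, chk3 f_pm_012_s t 19 60 1 = true :=
  ⟨(b (a (a (c (a (l 16585456) (l 16591440)) (a (b (l 16572176) (l 16554408)) (l 16523296))) (a (b (l 16517104) (b (l 16474072) (a (l 16543800) (l 16536776)))) (c (b (l 16568704) (l 16556768)) (b (l 16516080) (l 16503648))))) (a (a (c (b (l 16555600) (l 16542944)) (l 16476392)) (c (l 16535696) (l 16485352))) (c (l 16515216) (l 16469008)))) (c (a (a (a (b (l 16585440) (l 16551128)) (b (l 16571072) (l 16558184))) (a (b (l 16557680) (l 16544656)) (l 16537480))) (a (a (l 16523792) (l 16509984)) (l 16447072))) (a (a (a (b (l 16514960) (a (l 16502800) (l 16516872))) (b (a (l 16522360) (l 16514952)) (l 16507528))) (a (b (l 16505560) (l 16495944)) (l 16489144))) (a (c (l 16483440) (l 16460680)) (l 16449544))))), by decide +kernel⟩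

def k81_pm_012_s : ∃ t, chk3 f_pm_012_s t 9 61 2 = true :=
  ⟨(a (a (a (b (a (b (a (l 16668168) (l 16659480)) (a (l 16651720) (l 16664064))) (b (b (l 16650584) (l 16642560)) (c (l 16659280) (l 16643160)))) (a (b (c (l 16659600) (l 16643264)) (c (l 16643632) (l 16624584))) (b (l 16592504) (b (l 16579528) (a (l 16617112) (l 16609872)))))) (b (a (b (c (l 16658608) (l 16642648)) (l 16613496)) (b (l 16613112) (l 16597040))) (b (a (a (l 16621936) (l 16592496)) (b (l 16563552) (l 16577576))) (a (b (a (l 16609392) (l 16602336)) (l 16599336)) (l 16588792))))) (a (b (b (a (l 16617832) (l 16601920)) (a (b (l 16605920) (l 16576856)) (b (l 16569400) (l 16583816)))) (a (b (a (l 16591488) (l 16584280)) (l 16575040)) (c (l 16578424) (l 16556728)))) (b (a (b (a (l 16569048) (l 16582952)) (l 16573280)) (b (a (l 16576192) (l 16569088)) (l 16559608))) (a (c (l 16564200) (l 16543160)) (c (l 16549808) (l 16529520)))))) (a (a (b (a (l 16531448) (l 16517696)) (a (l 16504600) (l 16511344))) (b (a (l 16524808) (l 16510832))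 (a (l 16497024) (l 16482624)))) (a (b (a (l 16496760) (l 16482592)) (a (l 16468152) (l 16453600))) (b (a (l 16468320) (l 16453952)) (a (l 16438984) (l 16424296)))))), by decide +kernel⟩

def k82_pm_012_s : ∃ t, chk3 f_pm_012_s t 9 61 3 = true :=
  ⟨(a (a (a (b (a (b (a (l 16636248) (l 16635544)) (a (l 16625104) (l 16614000))) (a (b (l 16624464) (l 16623968)) (b (l 16634472) (l 16613080)))) (a (b (a (l 16602848) (l 16591800)) (b (l 16580256) (l 16568720))) (b (c (l 16606032) (l 16586720)) (b (a (l 16584864) (l 16574016)) (a (b (l 16576248) (l 16571328)) (l 16565520)))))) (b (a (b (b (l 16602472) (l 16592000)) (c (l 16606440) (l 16587392))) (b (c (l 16606352) (l 16587504)) (c (l 16586528) (l 16565120)))) (b (a (a (l 16580352) (b (l 16575312) (l 16564160))) (b (a (l 16564832) (l 16554704)) (a (l 16555336) (l 16547984)))) (a (b (a (l 16551272) (l 16556616)) (l 16555088)) (l 16544432))))) (a (b (b (a (c (l 16586704) (l 16565536)) (l 16513880)) (a (b (l 16560536) (a (l 16554936) (l 16545696))) (b (a (l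 16545344) (l 16537160)) (l 16535208)))) (a (b (a (b (l 16546640) (l 16541504)) (l 16537448)) (l 16531672)) (c (l 16534688) (l 16512320)))) (b (a (b (b (a (l 16545936) (l 16536064)) (a (l 16536376) (l 16529040))) (l 16503976)) (b (b (l 16504000) (l 16519648)) (l 16512736))) (c (a (l 16521800) (l 16508912)) (a (l 16500112) (l 16487984)))))) (a (a (b (c (l 16511080) (l 16487632)) (c (l 16489608) (l 16470008))) (b (c (l 16486288) (l 16464848)) (c (l 16463936) (l 16446352)))) (a (b (c (l 16461560) (l 16442448)) (c (l 16438392) (l 16423128))) (b (c (l 16436920) (l 16420480)) (c (l 16413000) (l 16400368)))))), by decide +kernel⟩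

def k83_pm_012_s : ∃ t, chk3 f_pm_012_s t 18 62 1 = true :=
  ⟨(a (b (a (b (a (c (a (b (l 16625168) (l 16618312)) (b (l 16617640) (l 16611232))) (b (a (b (l 16586472) (l 16581024)) (b (l 16576120) (l 16572936))) (a (l 16576624) (l 16569664)))) (c (c (l 16614344) (l 16593608)) (c (l 16572552) (l 16551184)))) (c (a (c (l 16614928) (l 16595720)) (l 16591176)) (c (l 16569344) (l 16549688)))) (c (b (a (l 16590088) (l 16576128)) (a (l 16576888) (l 16562536))) (b (a (l 16548632) (l 16535536)) (a (l 16539160) (l 16525736))))) (c (a (b (a (l 16592192) (l 16577536)) (a (l 16578960) (l 16563832))) (b (a (l 16562792) (l 16547984)) (a (l 16548624) (l 16533368)))) (a (b (a (l 16556808) (l 16542760)) (a (l 16547296) (l 16532864))) (b (a (l 16528824) (l 16515000)) (a (l 16518536) (l 16504336)))))) (b (a (c (b (a (l 16562056) (l 16547840)) (a (l 16548088) (l 16533560))) (b (c (l 16525880) (l 16506128)) (a (l 16512400) (l 16499160)))) (c (b (a (l 16533496) (l 16519064)) (a (l 16518920) (l 16504192))) (b (a (l 16496600)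 (l 16483712)) (a (l 16485952) (l 16472816))))) (c (a (b (a (l 16533144) (l 16518256)) (a (l 16518096) (l 16502832))) (b (a (l 16503328) (l 16488312)) (l 16479872))) (a (b (a (l 16501336) (l 16487768)) (a (l 16490280) (l 16476392))) (b (a (l 16474312) (l 16460920)) (l 16455760)))))), by decide +kernel⟩

def k84_pm_012_s : ∃ t, chk3 f_pm_012_s t 18 63 1 = true :=
  ⟨(a (b (a (c (b (a (l 16566480) (l 16550880)) (a (l 16554864) (l 16538800))) (b (a (l 16538752) (l 16523944)) (a (l 16531328) (l 16516144)))) (c (b (a (l 16535216) (l 16519512)) (l 16514616)) (c (l 16503480) (l 16491704)))) (a (c (b (l 16535888) (l 16525808)) (b (l 16517256) (l 16511920))) (c (b (l 16502744) (l 16491768)) (b (l 16486368) (l 16480304))))) (b (a (c (b (l 16495960) (l 16482344)) (b (l 16473080) (l 16463968))) (c (b (l 16464648) (l 16450240)) (c (l 16444232) (l 16435368)))) (a (c (b (l 16469616) (l 16457792)) (b (l 16456016) (l 16449232))) (c (b (l 16436688) (l 16424056)) (b (l 16426344) (l 16418824)))))), by decide +kernel⟩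

def k85_pm_012_s : ∃ t, chk3 f_pm_012_s t 19 31 1 = true :=
  ⟨(b (a (b (c (a (b (a (l 16504536) (l 16489928)) (l 16471000)) (b (l 16467896) (l 16452152))) (a (b (a (l 16470896) (l 16458144)) (l 16453264)) (b (l 16439184) (l 16427448)))) (c (a (b (l 16465680) (l 16449216)) (b (l 16435384) (l 16418424))) (a (b (l 16440992) (l 16428664)) (b (l 16414712) (l 16401904))))) (b (c (a (b (l 16438328) (l 16422168)) (b (l 16408552) (l 16392040))) (a (b (l 16414152) (l 16401992)) (b (l 16389480) (l 16376912)))) (c (a (b (l 16404976) (l 16387584)) (b (l 16374488) (l 16335760))) (a (b (l 16388808) (l 16375552)) (b (l 16342344) (l 16328664)))))) (a (b (c (a (b (l 16433392) (l 16418312)) (b (l 16402104) (l 16365592))) (a (b (l 16417216) (l 16406760)) (b (l 16389968) (l 16358088)))) (a (c (b (l 16404112) (l 16390744)) (b (l 16376472) (l 16368264))) (c (b (l 16350840) (l 16336856)) (l 16369816)))) (c (b (a (b (l 16349864) (l 16333888)) (c (l 16331480) (l 16331168))) (a (b (l 16318688) (l 16304304)) (c (l 16297992)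 (l 16302400)))) (b (a (l 16359952) (l 16330768)) (a (l 16336672) (l 16309224)))))), by decide +kernel⟩

def k86_pm_012_s : ∃ t, chk3 f_pm_012_s t 5 2 1 = true :=
  ⟨(b (a (a (a (l 3) (l 2)) (l 2)) (l 2)) (b (b (a (a (a (l 3) (a (l 3) (a (l 16773896) (l 16773856)))) (l 16745304)) (l 2)) (a (a (a (l 3) (a (l 16746336) (a (l 16775232) (a (l 16770440) (b (l 16768792) (l 16765296)))))) (b (l 16742000) (l 16738552))) (a (l 16669664) (l 2)))) (b (a (a (a (l 3) (a (l 16734744) (a (l 16767952) (a (b (l 16764928) (l 16759328)) (b (l 16759888) (l 16751520)))))) (a (l 16740344) (l 16716536))) (a (b (l 16684872) (l 16677264)) (l 16613024))) (a (a (a (a (l 3) (l 16770976)) (a (l 38285524983) (b (a (l 16760216) (a (l 16751200) (l 16741320))) (a (l 16752496) (a (l 16739360) (l 16729472)))))) (b (l 16692872) (l 16680840))) (a (l 16619472) (l 16616472)))))), by decide +kernel⟩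

def k87_pm_012_s : ∃ t, chk3 f_pm_012_s t 20 6 1 = true :=
  ⟨(a (b (a (b (l 182703774199) (l 16749704)) (b (l 16768144) (b (a (l 16759800) (l 16752256)) (a (l 16749408) (l 16717256))))) (b (a (b (a (l 16753952) (l 16702960)) (a (c (l 16739192) (l 16694592)) (l 16722536))) (a (b (l 16711216) (l 16685240)) (c (l 16666936) (l 16655320)))) (a (b (c (l 16686136) (l 16653368)) (c (l 16657288) (l 16616112))) (b (c (l 16678808) (l 16637656)) (c (l 16650416) (l 16601136)))))) (a (b (b (a (l 16715544) (b (l 16754144) (l 16742928))) (a (b (l 16741720) (l 16722184)) (l 16652888))) (b (b (a (l 16699464) (l 16683000)) (a (l 16673880) (l 16657704))) (b (a (l 16645272) (l 16629544)) (a (l 16613480) (l 16598328))))) (b (a (b (a (l 16696456) (l 16708216)) (b (l 16686976) (l 16688088))) (a (b (l 16655360) (b (l 16693008) (l 16673504))) (b (b (l 16715944) (l 16700656)) (b (l 16662536) (l 16622424))))) (a (b (c (l 16644992) (l 16599072)) (b (l 16613552) (l 16520296))) (a (b (b (l 16651776) (l 16627672)) (b (l 16601048)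 (a (l 16573720) (l 16569816)))) (b (b (l 16580184) (b (l 16625696) (l 16550504))) (a (b (a (a (l 16596056) (a (l 16594680) (l 16593704))) (l 16592800)) (a (a (l 16567136) (a (l 16565824) (l 16564528))) (l 16563504))) (b (l 16591392) (l 16562040))))))))), by decide +kernel⟩

def k88_pm_012_s : ∃ t, chk3 f_pm_012_s t 20 14 1 = true :=
  ⟨(a (b (a (b (a (l 16576552) (l 16581704)) (c (l 16547096) (a (l 16579264) (l 16562024)))) (b (c (l 16597824) (l 16539664)) (a (c (l 16590224) (l 16545264)) (b (l 16563768) (l 16458784))))) (a (b (b (c (l 16580536) (l 16532776)) (a (c (l 16565784) (l 16514032)) (c (l 16552960) (l 16499648)))) (b (a (c (l 16544160) (l 16490880)) (c (l 16530176) (l 16479648))) (c (l 16512728) (l 16466448)))) (b (b (a (c (l 16560784) (l 16508552)) (c (l 16548424) (l 16496184))) (a (c (l 16540168) (l 16488040)) (c (l 16525792) (l 16477656)))) (c (b (l 16509184) (l 16484528)) (b (l 16464504) (l 16445624)))))) (a (b (b (a (l 16536320) (b (l 16572824) (l 16533720))) (a (b (l 16528320) (c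 (l 16555312) (l 16503928))) (b (c (l 16560976) (l 16511152)) (l 16517240)))) (b (c (a (l 16522792) (l 16507712)) (a (l 16476768) (l 16467152))) (c (a (l 16475184) (l 16459832)) (l 16434768)))) (b (b (a (a (l 16490272) (c (l 16569720) (l 16523448))) (a (a (l 16499536) (l 16537104)) (c (l 16548944) (l 16513568)))) (a (c (l 16534768) (l 16492432)) (c (a (l 16519928) (l 16509400)) (l 16441304)))) (a (b (c (l 16491112) (l 16457536)) (c (l 16443120) (l 16419528))) (a (b (c (l 16476328) (l 16450280)) (c (l 16428432) (l 16411912))) (b (c (l 16465864) (l 16445432)) (c (a (l 16377360) (l 16414752)) (l 16406824)))))))), by decide +kernel⟩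

def k89_pm_012_s : ∃ t, chk3 f_pm_012_s t 20 30 1 = true :=
  ⟨(a (b (a (c (b (l 16487376) (l 16460608)) (b (l 16447360) (l 16427216))) (c (b (l 16458704) (l 16431480)) (b (l 16425920) (l 16405152)))) (a (c (b (l 16432136) (a (l 16409528) (l 16394656))) (b (l 16405712) (l 16382960))) (c (b (l 16402552) (l 16372016)) (b (l 16382984) (l 16359552))))) (a (b (c (b (l 16428560) (l 16401024)) (b (l 16404704) (l 16383336))) (c (a (l 16301640) (l 16306808)) (b (l 16360560) (l 16336496)))) (a (b (c (l 16390504) (l 16378080)) (c (c (l 16332016) (l 16331872)) (l 16331728))) (a (b (c (l 16375992) (l 16370072)) (c (c (l 16316352) (l 16319064)) (l 16323312))) (b (c (b (l 16358480) (l 16331072)) (l 16364736)) (c (c (b (l 16300328) (l 16268352)) (l 16289256)) (l 16275776))))))), by decide +kernel⟩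

def k90_pm_012_s : ∃ t, chk3 f_pm_012_s t 20 31 1 = true :=
  ⟨(a (b (c (b (a (a (l 16377704) (l 16341600)) (a (l 16326368) (l 16311008))) (a (b (l 16322912) (l 16304856)) (a (l 16290720) (l 16275168)))) (b (a (b (l 16344200) (l 16331256)) (l 16334560)) (a (l 16331160) (l 16306336)))) (c (a (b (c (l 16298832) (l 16301112)) (b (l 16254912) (l 16239832))) (b (c (l 16266000) (l 16271144)) (b (l 16223168) (l 16207872)))) (b (a (l 16304704) (l 16279128)) (a (l 16282328) (l 16255984))))) (a (b (b (c (a (l 16295440) (l 16279504)) (l 16310848)) (c (a (l 16259456) (l 16243448)) (l 16281952))) (b (c (c (l 16232528) (l 16240984)) (l 16254040)) (c (c (l 16177056) (l 16189720)) (l 16230176)))) (b (a (b (c (l 16283696) (l 16293280)) (c (l 16247688) (l 16263912))) (a (b (c (l 16248744) (l 16284552)) (c (l 16212952) (l 16254960))) (b (c (c (c (l 16232304) (l 16236816)) (l 16243680)) (l 16278744)) (c (a (a (a (l 16227992) (l 16204936)) (l 16223960)) (l 16221632)) (l 16249016))))) (a (b (c (l 16212160) (l 16235520))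 (c (l 16179808) (l 16211152))) (a (b (c (l 16177664) (l 16226336)) (c (l 16145576) (l 16201736))) (c (c (a (a (a (l 16147288) (a (l 16145768) (l 16160288))) (l 16143152)) (l 16140664)) (b (l 16176000) (l 16145904))) (b (l 16220248) (l 16195496)))))))), by decide +kernel⟩

def k91_pm_012_s : ∃ t, chk3 f_pm_012_s t 21 3 1 = true :=
  ⟨(b (b (b (b (l 16646016) (l 16630280)) (b (l 16591608) (l 16550864))) (a (b (b (l 16626040) (l 16602216)) (b (l 16512848) (l 16451400))) (b (l 16524456) (b (l 16547416) (c (l 16538184) (l 16494120)))))) (b (b (b (a (c (l 16529000) (l 16494344)) (l 16480672)) (a (c (l 16488336) (l 16460728)) (l 16441632))) (b (a (c (l 16443592) (l 16424216)) (l 16357000)) (a (c (l 16394512) (l 16384536)) (c (l 16358064) (l 16346568))))) (c (b (b (a (a (l 16350976) (l 16330720)) (l 16301608)) (a (b (l 16296808) (l 16265448)) (l 16218016))) (b (b (a (a (l 16243864) (l 16220776)) (l 16187536)) (a (a (l 16207864) (l 16183904)) (l 16149392))) (a (b (a (l 16172376) (l 16147520)) (a (l 16140120)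 (l 16114320))) (b (l 16111680) (l 16077112))))) (b (b (a (l 16320360) (l 16301464)) (a (b (l 16305768) (l 16280320)) (l 16251296))) (b (b (a (l 16253248) (l 16209824)) (a (l 16222880) (l 16178384))) (a (b (l 16193464) (l 16168040)) (b (l 16147856) (l 16121296)))))))), by decide +kernel⟩

def k92_pm_012_s : ∃ t, chk3 f_pm_012_s t 11 3 1 = true :=
  ⟨(b (b (b (a (l 16549184) (l 16567408)) (a (b (l 16606088) (l 16585240)) (l 16487664))) (b (a (b (l 16561976) (l 16536184)) (b (l 16515472) (l 16488648))) (a (b (l 16465784) (c (l 16415688) (l 16450952))) (b (l 16458960) (c (l 16451816) (l 16398648)))))) (b (b (a (b (a (l 16451376) (l 16423848)) (a (l 16410632) (l 16381536))) (b (c (l 16409832) (l 16361288)) (a (l 16354248) (l 16328664)))) (a (b (a (l 16366064) (l 16335232)) (a (l 16317416) (l 16284680))) (b (a (l 16306352) (l 16279312)) (a (l 16254032) (l 16225368))))) (b (a (b (a (c (l 16264872) (l 16263920)) (l 16229552)) (a (c (l 16199384) (l 16211848)) (c (l 16162352) (l 16174752)))) (b (a (l 16196968)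 (l 16166504)) (c (l 16111544) (l 16123568)))) (b (a (b (a (l 16136144) (l 16118240)) (a (c (l 16105824) (l 16136440)) (l 16080816))) (b (a (l 16081824) (l 16047792)) (c (l 16009056) (l 16042336)))) (c (a (a (b (l 16066408) (l 16030080)) (l 16004560)) (a (l 15964152) (l 15926456))) (a (a (l 16090496) (l 16049504)) (l 15908960))))))), by decide +kernel⟩

def k93_pm_012_s : ∃ t, chk3 f_pm_012_s t 3 1 1 = true :=
  ⟨(b (a (b (l 2) (b (l 2) (a (b (l 2) (a (l 16572600) (l 2))) (l 2)))) (l 2)) (a (a (b (b (b (a (l 16545648) (l 16504088)) (a (l 16508080) (l 16467672))) (b (a (l 16375336) (l 16419056)) (a (b (l 16414696) (a (l 16391224) (l 16369808))) (b (l 16374136) (l 16339680))))) (b (b (a (b (l 16235232) (l 16230528)) (b (c (l 16328968) (l 16269800)) (l 16251208))) (a (b (l 16179280) (l 16186088)) (b (l 16197944) (l 6)))) (b (a (b (l 16103816) (c (l 16051496) (l 16062520))) (l 6)) (l 6)))) (a (b (b (b (l 2) (l 16428560)) (b (l 16381104) (l 16256848))) (l 6)) (b (l 6) (l 6)))) (l 6))), by decide +kernel⟩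

theorem s94_pm_012_s : ∃ t, chk3 f_pm_012_s t 20 15 1 = true := ex3_b k89_pm_012_s k90_pm_012_s

theorem s95_pm_012_s : ∃ t, chk3 f_pm_012_s t 20 7 1 = true := ex3_b k88_pm_012_s s94_pm_012_s

theorem s96_pm_012_s : ∃ t, chk3 f_pm_012_s t 20 3 1 = true := ex3_b k87_pm_012_s s95_pm_012_s

theorem s97_pm_012_s : ∃ t, chk3 f_pm_012_s t 10 3 1 = true := ex3_a s96_pm_012_s k91_pm_012_s

theorem s98_pm_012_s : ∃ t, chk3 f_pm_012_s t 5 3 1 = true := ex3_a s97_pm_012_s k92_pm_012_s

theorem s99_pm_012_s : ∃ t, chk3 f_pm_012_s t 5 1 1 = true := ex3_b k86_pm_012_s s98_pm_012_s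

theorem s100_pm_012_s : ∃ t, chk3 f_pm_012_s t 18 31 1 = true := ex3_b k83_pm_012_s k84_pm_012_s

theorem s101_pm_012_s : ∃ t, chk3 f_pm_012_s t 9 31 1 = true := ex3_a s100_pm_012_s k85_pm_012_s

theorem s102_pm_012_s : ∃ t, chk3 f_pm_012_s t 9 61 1 = true := ex3_c k81_pm_012_s k82_pm_012_s

theorem s103_pm_012_s : ∃ t, chk3 f_pm_012_s t 18 60 1 = true := ex3_a k78_pm_012_s k79_pm_012_s

theorem s104_pm_012_s : ∃ t, chk3 f_pm_012_s t 9 60 1 = true := ex3_a s103_pm_012_s k80_pm_012_s

theorem s105_pm_012_s : ∃ t, chk3 f_pm_012_s t 9 30 1 = true := ex3_b s104_pm_012_s s102_pm_012_s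

theorem s106_pm_012_s : ∃ t, chk3 f_pm_012_s t 9 15 1 = true := ex3_b s105_pm_012_s s101_pm_012_s

theorem s107_pm_012_s : ∃ t, chk3 f_pm_012_s t 18 59 1 = true := ex3_a k75_pm_012_s k76_pm_012_s

theorem s108_pm_012_s : ∃ t, chk3 f_pm_012_s t 9 59 1 = true := ex3_a s107_pm_012_s k77_pm_012_s

theorem s109_pm_012_s : ∃ t, chk3 f_pm_012_s t 9 29 1 = true := ex3_b k74_pm_012_s s108_pm_012_s

theorem s110_pm_012_s : ∃ t, chk3 f_pm_012_s t 9 14 1 = true := ex3_b k73_pm_012_s s109_pm_012_s

theorem s111_pm_012_s : ∃ t, chk3 f_pm_012_s t 9 7 1 = true := ex3_b s110_pm_012_s s106_pm_012_s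

theorem s112_pm_012_s : ∃ t, chk3 f_pm_012_s t 68 126 1 = true := ex3_a k68_pm_012_s k69_pm_012_s

theorem s113_pm_012_s : ∃ t, chk3 f_pm_012_s t 68 63 1 = true := ex3_b s112_pm_012_s k70_pm_012_s

theorem s114_pm_012_s : ∃ t, chk3 f_pm_012_s t 34 63 1 = true := ex3_a s113_pm_012_s k71_pm_012_s

theorem s115_pm_012_s : ∃ t, chk3 f_pm_012_s t 17 63 1 = true := ex3_a s114_pm_012_s k72_pm_012_s

theorem s116_pm_012_s : ∃ t, chk3 f_pm_012_s t 35 62 1 = true := ex3_b k66_pm_012_s k67_pm_012_s

theorem s117_pm_012_s : ∃ t, chk3 f_pm_012_s t 68 125 1 = true := ex3_a k63_pm_012_s k64_pm_012_s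

theorem s118_pm_012_s : ∃ t, chk3 f_pm_012_s t 34 125 1 = true := ex3_a s117_pm_012_s k65_pm_012_s

theorem s119_pm_012_s : ∃ t, chk3 f_pm_012_s t 68 124 1 = true := ex3_a k60_pm_012_s k61_pm_012_s

theorem s120_pm_012_s : ∃ t, chk3 f_pm_012_s t 34 124 1 = true := ex3_a s119_pm_012_s k62_pm_012_s

theorem s121_pm_012_s : ∃ t, chk3 f_pm_012_s t 34 62 1 = true := ex3_b s120_pm_012_s s118_pm_012_s

theorem s122_pm_012_s : ∃ t, chk3 f_pm_012_s t 17 62 1 = true := ex3_a s121_pm_012_s s116_pm_012_s

theorem s123_pm_012_s : ∃ t, chk3 f_pm_012_s t 17 31 1 = true := ex3_b s122_pm_012_s s115_pm_012_s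

theorem s124_pm_012_s : ∃ t, chk3 f_pm_012_s t 35 61 1 = true := ex3_a k58_pm_012_s k59_pm_012_s

theorem s125_pm_012_s : ∃ t, chk3 f_pm_012_s t 35 60 1 = true := ex3_a k56_pm_012_s k57_pm_012_s

theorem s126_pm_012_s : ∃ t, chk3 f_pm_012_s t 35 30 1 = true := ex3_b s125_pm_012_s s124_pm_012_s

theorem s127_pm_012_s : ∃ t, chk3 f_pm_012_s t 69 61 1 = true := ex3_b k54_pm_012_s k55_pm_012_s

theorem s128_pm_012_s : ∃ t, chk3 f_pm_012_s t 34 61 1 = true := ex3_a k53_pm_012_s s127_pm_012_s

theorem s129_pm_012_s : ∃ t, chk3 f_pm_012_s t 34 30 1 = true := ex3_b k52_pm_012_s s128_pm_012_s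

theorem s130_pm_012_s : ∃ t, chk3 f_pm_012_s t 17 30 1 = true := ex3_a s129_pm_012_s s126_pm_012_s

theorem s131_pm_012_s : ∃ t, chk3 f_pm_012_s t 17 15 1 = true := ex3_b s130_pm_012_s s123_pm_012_s

theorem s132_pm_012_s : ∃ t, chk3 f_pm_012_s t 135 126 1 = true := ex3_a k49_pm_012_s k50_pm_012_s

theorem s133_pm_012_s : ∃ t, chk3 f_pm_012_s t 134 126 1 = true := ex3_b k47_pm_012_s k48_pm_012_s

theorem s134_pm_012_s : ∃ t, chk3 f_pm_012_s t 67 126 1 = true := ex3_a s133_pm_012_s s132_pm_012_s

theorem s135_pm_012_s : ∃ t, chk3 f_pm_012_s t 67 63 1 = true := ex3_b s134_pm_012_s k51_pm_012_s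

theorem s136_pm_012_s : ∃ t, chk3 f_pm_012_s t 132 254 1 = true := ex3_a k43_pm_012_s k44_pm_012_s

theorem s137_pm_012_s : ∃ t, chk3 f_pm_012_s t 66 254 1 = true := ex3_a s136_pm_012_s k45_pm_012_s

theorem s138_pm_012_s : ∃ t, chk3 f_pm_012_s t 66 127 1 = true := ex3_b s137_pm_012_s k46_pm_012_s

theorem s139_pm_012_s : ∃ t, chk3 f_pm_012_s t 133 253 1 = true := ex3_b k41_pm_012_s k42_pm_012_s

theorem s140_pm_012_s : ∃ t, chk3 f_pm_012_s t 132 253 1 = true := ex3_a k39_pm_012_s k40_pm_012_s

theorem s141_pm_012_s : ∃ t, chk3 f_pm_012_s t 66 253 1 = true := ex3_a s140_pm_012_s s139_pm_012_s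

theorem s142_pm_012_s : ∃ t, chk3 f_pm_012_s t 132 252 1 = true := ex3_a k36_pm_012_s k37_pm_012_s

theorem s143_pm_012_s : ∃ t, chk3 f_pm_012_s t 66 252 1 = true := ex3_a s142_pm_012_s k38_pm_012_s

theorem s144_pm_012_s : ∃ t, chk3 f_pm_012_s t 66 126 1 = true := ex3_b s143_pm_012_s s141_pm_012_s

theorem s145_pm_012_s : ∃ t, chk3 f_pm_012_s t 66 63 1 = true := ex3_b s144_pm_012_s s138_pm_012_s

theorem s146_pm_012_s : ∃ t, chk3 f_pm_012_s t 33 63 1 = true := ex3_a s145_pm_012_s s135_pm_012_s

theorem s147_pm_012_s : ∃ t, chk3 f_pm_012_s t 263 254 1 = true := ex3_a k33_pm_012_s k34_pm_012_s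

theorem s148_pm_012_s : ∃ t, chk3 f_pm_012_s t 262 254 1 = true := ex3_b k31_pm_012_s k32_pm_012_s

theorem s149_pm_012_s : ∃ t, chk3 f_pm_012_s t 131 254 1 = true := ex3_a s148_pm_012_s s147_pm_012_s

theorem s150_pm_012_s : ∃ t, chk3 f_pm_012_s t 131 127 1 = true := ex3_b s149_pm_012_s k35_pm_012_s

theorem s151_pm_012_s : ∃ t, chk3 f_pm_012_s t 261 127 1 = true := ex3_a k29_pm_012_s k30_pm_012_s

theorem s152_pm_012_s : ∃ t, chk3 f_pm_012_s t 260 508 1 = true := ex3_a k25_pm_012_s k26_pm_012_s

theorem s153_pm_012_s : ∃ t, chk3 f_pm_012_s t 260 254 1 = true := ex3_b s152_pm_012_s k27_pm_012_s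

theorem s154_pm_012_s : ∃ t, chk3 f_pm_012_s t 260 127 1 = true := ex3_b s153_pm_012_s k28_pm_012_s

theorem s155_pm_012_s : ∃ t, chk3 f_pm_012_s t 130 127 1 = true := ex3_a s154_pm_012_s s151_pm_012_s

theorem s156_pm_012_s : ∃ t, chk3 f_pm_012_s t 65 127 1 = true := ex3_a s155_pm_012_s s150_pm_012_s

theorem s157_pm_012_s : ∃ t, chk3 f_pm_012_s t 263 126 1 = true := ex3_b k23_pm_012_s k24_pm_012_s

theorem s158_pm_012_s : ∃ t, chk3 f_pm_012_s t 262 253 1 = true := ex3_b k21_pm_012_s k22_pm_012_s

theorem s159_pm_012_s : ∃ t, chk3 f_pm_012_s t 262 126 1 = true := ex3_b k20_pm_012_s s158_pm_012_s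

theorem s160_pm_012_s : ∃ t, chk3 f_pm_012_s t 131 126 1 = true := ex3_a s159_pm_012_s s157_pm_012_s

theorem s161_pm_012_s : ∃ t, chk3 f_pm_012_s t 261 507 1 = true := ex3_a k18_pm_012_s k19_pm_012_s

theorem s162_pm_012_s : ∃ t, chk3 f_pm_012_s t 130 507 1 = true := ex3_a k17_pm_012_s s161_pm_012_s

theorem s163_pm_012_s : ∃ t, chk3 f_pm_012_s t 130 253 1 = true := ex3_b k16_pm_012_s s162_pm_012_s

theorem s164_pm_012_s : ∃ t, chk3 f_pm_012_s t 130 126 1 = true := ex3_b k15_pm_012_s s163_pm_012_s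

theorem s165_pm_012_s : ∃ t, chk3 f_pm_012_s t 65 126 1 = true := ex3_a s164_pm_012_s s160_pm_012_s

theorem s166_pm_012_s : ∃ t, chk3 f_pm_012_s t 65 63 1 = true := ex3_b s165_pm_012_s s156_pm_012_s

theorem s167_pm_012_s : ∃ t, chk3 f_pm_012_s t 32 63 1 = true := ex3_a k14_pm_012_s s166_pm_012_s

theorem s168_pm_012_s : ∃ t, chk3 f_pm_012_s t 16 63 1 = true := ex3_a s167_pm_012_s s146_pm_012_s

theorem s169_pm_012_s : ∃ t, chk3 f_pm_012_s t 134 125 1 = true := ex3_b k11_pm_012_s k12_pm_012_s

theorem s170_pm_012_s : ∃ t, chk3 f_pm_012_s t 67 125 1 = true := ex3_a s169_pm_012_s k13_pm_012_s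

theorem s171_pm_012_s : ∃ t, chk3 f_pm_012_s t 67 124 1 = true := ex3_b k9_pm_012_s k10_pm_012_s

theorem s172_pm_012_s : ∃ t, chk3 f_pm_012_s t 67 62 1 = true := ex3_b s171_pm_012_s s170_pm_012_s

theorem s173_pm_012_s : ∃ t, chk3 f_pm_012_s t 133 125 1 = true := ex3_b k7_pm_012_s k8_pm_012_s

theorem s174_pm_012_s : ∃ t, chk3 f_pm_012_s t 66 125 1 = true := ex3_a k6_pm_012_s s173_pm_012_s

theorem s175_pm_012_s : ∃ t, chk3 f_pm_012_s t 66 62 1 = true := ex3_b k5_pm_012_s s174_pm_012_s

theorem s176_pm_012_s : ∃ t, chk3 f_pm_012_s t 33 62 1 = true := ex3_a s175_pm_012_s s172_pm_012_s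

theorem s177_pm_012_s : ∃ t, chk3 f_pm_012_s t 16 62 1 = true := ex3_a k4_pm_012_s s176_pm_012_s

theorem s178_pm_012_s : ∃ t, chk3 f_pm_012_s t 16 31 1 = true := ex3_b s177_pm_012_s s168_pm_012_s

theorem s179_pm_012_s : ∃ t, chk3 f_pm_012_s t 16 15 1 = true := ex3_b k3_pm_012_s s178_pm_012_s

theorem s180_pm_012_s : ∃ t, chk3 f_pm_012_s t 8 15 1 = true := ex3_a s179_pm_012_s s131_pm_012_s

theorem s181_pm_012_s : ∃ t, chk3 f_pm_012_s t 8 7 1 = true := ex3_b k2_pm_012_s s180_pm_012_s

theorem s182_pm_012_s : ∃ t, chk3 f_pm_012_s t 4 7 1 = true := ex3_a s181_pm_012_s s111_pm_012_s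

theorem s183_pm_012_s : ∃ t, chk3 f_pm_012_s t 4 3 1 = true := ex3_b k1_pm_012_s s182_pm_012_s

theorem s184_pm_012_s : ∃ t, chk3 f_pm_012_s t 4 1 1 = true := ex3_b k0_pm_012_s s183_pm_012_s

theorem s185_pm_012_s : ∃ t, chk3 f_pm_012_s t 2 1 1 = true := ex3_a s184_pm_012_s s99_pm_012_s

theorem s186_pm_012_s : ∃ t, chk3 f_pm_012_s t 1 1 1 = true := ex3_a s185_pm_012_s k93_pm_012_s

theorem c_pm_012_s : CertNE 0 536870912 536870912 536870912 1020054732 13421774 3 eng mog cd0q0 cd0q1 pd2 true true false .pnp 0 1 2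
    ndB0q0 ndB0q1 pcB2 cut_pm_012_s Ext.none :=
  certNE2 (fam := true) (s1 := true) (s2 := false) (a := 0) (b := 1) (c := 2) (cn := .pnp) (n1 := ndB0q0) (n2 := ndB0q1) (pc := pcB2) (cut := cut_pm_012_s) (xt := Ext.none) (P1 := 0) (W1 := 536870912) (P2 := 536870912) (W2 := 536870912) (P3 := 1020054732) (W3 := 13421774) (N0 := 3) (En := eng) (mo := mog) (C1 := cd0q0) (C2 := cd0q1) (C3 := pd2)
    rfl (fun _ => rfl) s186_pm_012_s

noncomputable def cut_pm_012_t : Cut := Cut.of [[⟨3, 0, 0, 2845415833⟩], [⟨0, 0, 0, 16777216⟩, ⟨1, 1, 0, 16777216⟩, ⟨2, 1, 0, 16777216⟩]]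

noncomputable def f_pm_012_t : ℕ → ℕ → ℕ → ℕ → Bool := onCell 0 536870912 536870912 536870912 1020054732 13421774
    (rowNE 3 eng mog cd0q0 cd0q1 pd2 0 true true false .pnp 0 1 2 (qsf 0 536870912 536870912 536870912 2) ndB0q0 ndB0q1 pcB2 cut_pm_012_t Ext.none)

def k0_pm_012_t : ∃ t, chk3 f_pm_012_t t 1 1 1 = true :=
  ⟨(l 6), by decide +kernel⟩

theorem c_pm_012_t : CertNE 0 536870912 536870912 536870912 1020054732 13421774 3 eng mog cd0q0 cd0q1 pd2 true true false .pnp 0 1 2
    ndB0q0 ndB0q1 pcB2 cut_pm_012_t Ext.none :=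
  certNE0 (fam := true) (s1 := true) (s2 := false) (a := 0) (b := 1) (c := 2) (cn := .pnp) (n1 := ndB0q0) (n2 := ndB0q1) (pc := pcB2) (cut := cut_pm_012_t) (xt := Ext.none) (P1 := 0) (W1 := 536870912) (P2 := 536870912) (W2 := 536870912) (P3 := 1020054732) (W3 := 13421774) (N0 := 3) (En := eng) (mo := mog) (C1 := cd0q0) (C2 := cd0q1) (C3 := pd2)
    rfl k0_pm_012_t

noncomputable def cut_pm_022_s : Cut := Cut.of [[⟨4, 0, 0, 1449551462⟩], [⟨0, 0, 0, 33554432⟩, ⟨1, 1, 0, 33554432⟩, ⟨2, 1, 0, 33554432⟩]]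

noncomputable def f_pm_022_s : ℕ → ℕ → ℕ → ℕ → Bool := onCell 1073741824 536870912 0 536870912 1020054732 13421774
    (rowNE 3 eng mog cd0q0 cd0q2 pd2 2 true true false .pp 0 2 2 (qsf 0 536870912 0 536870912 2) ndB0q0 ndB0q2 pcB2 cut_pm_022_s Ext.none)

def k0_pm_022_s : ∃ t, chk3 f_pm_022_s t 4 2 1 = true :=
  ⟨(a (l 1) (l 6)), by decide +kernel⟩

def k1_pm_022_s : ∃ t, chk3 f_pm_022_s t 8 6 1 = true :=
  ⟨(l 1), by decide +kernel⟩

def k2_pm_022_s : ∃ t, chk3 f_pm_022_s t 8 14 1 = true :=
  ⟨(a (l 1) (b (a (l 1) (b (l 1) (a (l 1) (l 16452064)))) (a (b (l 1) (a (b (l 1) (a (l 1) (l 16520248))) (b (l 16509472) (a (l 16531752) (l 16543704))))) (a (b (l 16473784) (b (l 16534256) (l 16541504))) (b (l 16500320) (l 16511936)))))), by decide +kernel⟩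

def k3_pm_022_s : ∃ t, chk3 f_pm_022_s t 16 15 1 = true :=
  ⟨(a (b (l 1) (l 14)) (a (b (b (l 1) (l 14)) (l 14)) (a (b (b (l 1) (l 14)) (l 14)) (a (b (b (l 1) (l 14)) (l 14)) (b (b (b (l 1) (b (l 1) (c (b (l 16574984) (l 16583216)) (b (l 16557400) (l 16566760))))) (b (c (b (l 16595704) (l 16612816)) (b (l 16580952) (l 16600384))) (b (c (l 16630688) (l 16620672)) (l 16624464)))) (b (b (b (l 16644664) (l 16685944)) (l 16684696)) (b (l 16690616) (b (l 16678376) (l 16663168))))))))), by decide +kernel⟩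

def k4_pm_022_s : ∃ t, chk3 f_pm_022_s t 17 30 1 = true :=
  ⟨(a (b (b (c (a (a (l 16548936) (l 16561072)) (l 16559080)) (a (a (l 16528640) (l 16538616)) (l 16512560))) (a (b (a (c (l 16550944) (b (l 16548024) (l 16555960))) (c (l 16584064) (l 16561992))) (a (c (b (l 16562784) (l 16591896)) (b (a (l 16562080) (l 16566896)) (l 16573832))) (c (l 16578880) (b (l 16574376) (l 16583704))))) (b (a (l 16563664) (l 16575648)) (a (c (l 16612352) (l 16589384)) (l 16570920))))) (b (a (a (c (b (l 16583256) (l 16600176)) (b (a (l 16585616) (l 16590416)) (l 16586432))) (c (b (l 16616032) (l 16632712)) (b (l 16597848) (l 16617224)))) (a (b (l 16576384) (l 16615264)) (c (l 16628208) (l 16607728)))) (a (a (c (a (l 16624240) (l 16629696)) (b (l 16627648) (l 16648592))) (c (l 16638144) (l 16605896))) (a (a (l 16619800) (l 16625448)) (l 16623680))))) (b (a (b (l 16529280) (b (l 16573472) (a (l 16583296) (l 16596120)))) (b (l 16576840) (a (l 16580344) (l 16594032)))) (a (b (a (l 16588336) (l 16601048)) (a (l 16625264)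 (l 16637832))) (b (b (l 16612192) (l 16629776)) (b (l 16624648) (l 16610008)))))), by decide +kernel⟩

def k5_pm_022_s : ∃ t, chk3 f_pm_022_s t 17 31 1 = true :=
  ⟨(a (b (b (a (a (c (l 16643312) (l 16638872)) (b (l 16662248) (l 16682288))) (c (l 16650216) (l 16653624))) (a (a (c (l 16680736) (l 16681720)) (b (l 16702184) (l 16694184))) (c (l 16653592) (l 16654312)))) (a (b (a (c (l 16670792) (l 16664448)) (c (l 16674416) (l 16668264))) (a (c (l 16653504) (a (l 16656600) (l 16648008))) (c (l 16630856) (c (l 16637680) (l 16631640))))) (b (a (c (l 16656352) (l 16650520)) (c (l 16658552) (l 16632144))) (c (a (l 16628664) (l 16610240)) (a (l 16595712) (l 16598368)))))) (b (a (b (a (l 16656656) (l 16637376)) (a (l 16625744) (l 16606448))) (b (c (l 16602128) (l 16613968)) (c (l 16575152) (l 16579488)))) (a (b (a (c (l 16639376) (l 16634472)) (c (l 16619960) (l 16615712))) (c (a (l 16612488) (l 16594016)) (c (l 16552776) (l 16547008)))) (b (c (l 16549344) (l 16546392)) (c (a (l 16576016) (l 16558160))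 (a (l 16565600) (l 16548624))))))), by decide +kernel⟩

def k6_pm_022_s : ∃ t, chk3 f_pm_022_s t 9 6 1 = true :=
  ⟨(b (a (l 1) (l 6)) (a (b (a (l 1) (a (l 16359680) (b (l 16422120) (l 16448816)))) (a (a (l 1) (b (l 16413936) (l 16448704))) (b (a (l 16445792) (l 16479392)) (c (l 16477088) (l 16474712))))) (b (a (b (l 16413064) (l 16418600)) (l 6)) (a (b (l 16428040) (b (l 16474400) (l 16472352))) (a (l 16477072) (l 16434904)))))), by decide +kernel⟩

def k7_pm_022_s : ∃ t, chk3 f_pm_022_s t 9 14 1 = true :=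
  ⟨(a (b (a (b (a (l 16436760) (l 16466800)) (a (l 16480344) (l 16489408))) (b (a (l 16477600) (l 16490088)) (l 16453704))) (a (a (b (l 16507648) (l 16540240)) (b (l 16516696) (l 16549648))) (b (c (l 16566192) (l 16521720)) (b (l 16546296) (l 16507544))))) (b (a (b (l 16464936) (l 16473216)) (b (l 16433568) (l 16414472))) (a (b (a (l 16551184) (l 16511408)) (a (l 16520200) (l 16483224))) (b (a (l 16494920) (l 16501272)) (l 16430800))))), by decide +kernel⟩

def k8_pm_022_s : ∃ t, chk3 f_pm_022_s t 9 15 1 = true :=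
  ⟨(a (b (a (b (a (b (l 16584152) (l 16594528)) (c (l 16560232) (l 16588968))) (a (b (l 16584296) (c (l 16587648) (l 16609976))) (b (l 16544224) (a (l 16569096) (l 16550368))))) (b (a (a (l 16549120) (l 16529448)) (b (l 16552712) (l 16512480))) (a (b (l 16506184) (c (l 16550600) (l 16579504))) (b (l 16469984) (l 16467056))))) (a (b (a (b (a (l 16578424) (l 16580200)) (c (l 16557496) (l 16564320))) (b (c (l 16564864) (l 16561440)) (a (l 16533896) (l 16537536)))) (a (b (c (l 16533528) (l 16532880)) (a (c (l 16540544) (l 16532064)) (c (l 16523288) (l 16516024)))) (c (b (l 16518824) (l 16497112)) (b (l 16521016) (l 16491864))))) (b (c (b (a (l 16527896) (l 16491536)) (a (l 16505176) (l 16469392))) (b (l 16469528) (a (l 16518272) (l 16486024)))) (c (a (b (l 16483304) (l 16462328)) (b (l 16448144) (l 16427840))) (a (b (l 16488664) (l 16460112)) (b (l 16456976) (l 16429024))))))) (b (b (a (a (b (l 16515896) (l 16498088)) (l 16451312)) (a (l 16417216) (l 16425984))) (a (b (a (l 16477448) (l 16443496)) (a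 (l 16453672) (l 16420128))) (b (a (l 16389440) (l 16357376)) (a (l 16387496) (l 16355888))))) (b (a (b (a (l 16406928) (l 16373840)) (c (a (l 16434176) (l 16399656)) (l 16376240))) (b (a (l 16341648) (l 16310424)) (c (a (l 16365936) (l 16332912)) (l 16358856)))) (a (c (a (b (l 16413496) (l 16393808)) (b (l 16379528) (l 16360368))) (a (b (l 16426056) (l 16398728)) (b (l 16396056) (l 16369312)))) (c (a (b (l 16346176) (l 16327408)) (b (l 16313416) (l 16294784))) (a (b (l 16366904) (l 16340664)) (l 16262448))))))), by decide +kernel⟩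

def k9_pm_022_s : ∃ t, chk3 f_pm_022_s t 5 2 1 = true :=
  ⟨(l 6), by decide +kernel⟩

def k10_pm_022_s : ∃ t, chk3 f_pm_022_s t 5 6 1 = true :=
  ⟨(a (b (l 6) (a (b (l 6) (a (b (l 6) (l 16389600)) (l 6))) (l 6))) (l 6)), by decide +kernel⟩

def k11_pm_022_s : ∃ t, chk3 f_pm_022_s t 5 14 1 = true :=
  ⟨(a (a (b (a (b (a (l 16459032) (l 16464600)) (l 16404832)) (b (l 16369416) (l 16356872))) (a (b (l 16407184) (l 16384512)) (b (l 16362080) (l 16342328)))) (b (a (l 6) (l 6)) (a (b (l 16320776) (l 16303800)) (b (l 6) (l 16247344))))) (l 6)), by decide +kernel⟩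

def k12_pm_022_s : ∃ t, chk3 f_pm_022_s t 5 15 1 = true :=
  ⟨(a (a (a (b (b (c (l 16368152) (l 16430952)) (b (a (l 16326416) (l 16296440)) (a (l 16325216) (l 16295408)))) (b (a (b (l 16300992) (l 16255944)) (b (l 16271224) (c (l 16268616) (l 16310128)))) (c (a (b (l 16281048) (l 16262480)) (b (l 16249056) (l 16230432))) (a (l 16234832) (l 16228808))))) (b (b (l 16233928) (a (b (c (l 16297432) (l 16363504)) (l 16245288)) (a (b (l 16287840) (l 16286752)) (a (b (l 16256360) (l 16276080)) (a (c (b (c (l 16220272) (l 16275760)) (l 16217416)) (l 16232192)) (l 16194320)))))) (c (a (b (b (l 16257728) (l 16237016)) (b (l 16217232) (l 16198392))) (a (b (l 16223912) (l 16183480)) (a (b (l 16211848) (l 16170712)) (b (b (l 16214584) (l 16171936)) (a (a (b (l 16132816) (a (l 16155848) (l 16133256))) (l 16162272)) (l 16159696)))))) (a (b (l 16276144) (l 16202416)) (a (b (l 16277424) (l 16224936)) (b (a (l 16267704) (l 16261280)) (a (l 16215344) (l 16188016)))))))) (b (b (a (l 16198064) (l 16164960)) (a (b (l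 16134864) (l 16154896)) (b (l 16082888) (l 16124584)))) (c (b (a (b (l 16182888) (l 16161456)) (l 16077232)) (a (a (l 16144400) (l 16117768)) (l 16016432))) (b (a (l 16191088) (l 16184920)) (a (l 16118128) (l 16133448)))))) (b (a (a (b (l 16134816) (b (l 16054832) (l 16097264))) (l 6)) (l 6)) (a (b (a (c (l 16069264) (l 16139600)) (c (l 16022424) (l 16096960))) (a (c (l 16030736) (l 16088592)) (c (l 15985152) (l 16046368)))) (b (l 6) (c (l 15901488) (l 15987904)))))), by decide +kernel⟩

def k13_pm_022_s : ∃ t, chk3 f_pm_022_s t 3 1 1 = true :=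
  ⟨(b (l 6) (l 6)), by decide +kernel⟩

theorem s14_pm_022_s : ∃ t, chk3 f_pm_022_s t 5 7 1 = true := ex3_b k11_pm_022_s k12_pm_022_s

theorem s15_pm_022_s : ∃ t, chk3 f_pm_022_s t 5 3 1 = true := ex3_b k10_pm_022_s s14_pm_022_s

theorem s16_pm_022_s : ∃ t, chk3 f_pm_022_s t 5 1 1 = true := ex3_b k9_pm_022_s s15_pm_022_s

theorem s17_pm_022_s : ∃ t, chk3 f_pm_022_s t 9 7 1 = true := ex3_b k7_pm_022_s k8_pm_022_s

theorem s18_pm_022_s : ∃ t, chk3 f_pm_022_s t 9 3 1 = true := ex3_b k6_pm_022_s s17_pm_022_s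

theorem s19_pm_022_s : ∃ t, chk3 f_pm_022_s t 17 15 1 = true := ex3_b k4_pm_022_s k5_pm_022_s

theorem s20_pm_022_s : ∃ t, chk3 f_pm_022_s t 8 15 1 = true := ex3_a k3_pm_022_s s19_pm_022_s

theorem s21_pm_022_s : ∃ t, chk3 f_pm_022_s t 8 7 1 = true := ex3_b k2_pm_022_s s20_pm_022_s

theorem s22_pm_022_s : ∃ t, chk3 f_pm_022_s t 8 3 1 = true := ex3_b k1_pm_022_s s21_pm_022_s

theorem s23_pm_022_s : ∃ t, chk3 f_pm_022_s t 4 3 1 = true := ex3_a s22_pm_022_s s18_pm_022_s

theorem s24_pm_022_s : ∃ t, chk3 f_pm_022_s t 4 1 1 = true := ex3_b k0_pm_022_s s23_pm_022_s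

theorem s25_pm_022_s : ∃ t, chk3 f_pm_022_s t 2 1 1 = true := ex3_a s24_pm_022_s s16_pm_022_s

theorem s26_pm_022_s : ∃ t, chk3 f_pm_022_s t 1 1 1 = true := ex3_a s25_pm_022_s k13_pm_022_s

theorem c_pm_022_s : CertNE 0 536870912 0 536870912 1020054732 13421774 3 eng mog cd0q0 cd0q2 pd2 true true false .pp 0 2 2
    ndB0q0 ndB0q2 pcB2 cut_pm_022_s Ext.none :=
  certNE2 (fam := true) (s1 := true) (s2 := false) (a := 0) (b := 2) (c := 2) (cn := .pp) (n1 := ndB0q0) (n2 := ndB0q2) (pc := pcB2) (cut := cut_pm_022_s) (xt := Ext.none) (P1 := 0) (W1 := 536870912) (P2 := 0) (W2 := 536870912) (P3 := 1020054732) (W3 := 13421774) (N0 := 3) (En := eng) (mo := mog) (C1 := cd0q0) (C2 := cd0q2) (C3 := pd2)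
    rfl (fun _ => rfl) s26_pm_022_s

noncomputable def cut_pm_022_t : Cut := Cut.of [[⟨3, 0, 0, 2845415833⟩], [⟨0, 0, 0, 33554432⟩, ⟨1, 1, 0, 33554432⟩, ⟨2, 1, 0, 33554432⟩]]

noncomputable def f_pm_022_t : ℕ → ℕ → ℕ → ℕ → Bool := onCell 1073741824 536870912 0 536870912 1020054732 13421774
    (rowNE 3 eng mog cd0q0 cd0q2 pd2 2 true true false .pp 0 2 2 (qsf 0 536870912 0 536870912 2) ndB0q0 ndB0q2 pcB2 cut_pm_022_t Ext.none)

def k0_pm_022_t : ∃ t, chk3 f_pm_022_t t 1 1 1 = true :=
  ⟨(a (l 6) (b (l 6) (l 6))), by decide +kernel⟩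

theorem c_pm_022_t : CertNE 0 536870912 0 536870912 1020054732 13421774 3 eng mog cd0q0 cd0q2 pd2 true true false .pp 0 2 2
    ndB0q0 ndB0q2 pcB2 cut_pm_022_t Ext.none :=
  certNE2 (fam := true) (s1 := true) (s2 := false) (a := 0) (b := 2) (c := 2) (cn := .pp) (n1 := ndB0q0) (n2 := ndB0q2) (pc := pcB2) (cut := cut_pm_022_t) (xt := Ext.none) (P1 := 0) (W1 := 536870912) (P2 := 0) (W2 := 536870912) (P3 := 1020054732) (W3 := 13421774) (N0 := 3) (En := eng) (mo := mog) (C1 := cd0q0) (C2 := cd0q2) (C3 := pd2)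
    rfl (fun _ => rfl) k0_pm_022_t

noncomputable def cut_pm_023_s : Cut := Cut.of [[⟨4, 0, 0, 1449551462⟩]]

noncomputable def f_pm_023_s : ℕ → ℕ → ℕ → ℕ → Bool := onCell 1610612736 536870912 0 536870912 1020054732 13421774
    (rowNE 3 eng mog cd0q0 cd0q2 pd3 2 true true false .up 0 2 3 (qsf 0 536870912 0 536870912 3) ndB0q0 ndB0q2 pcB3 cut_pm_023_s Ext.none)

def k0_pm_023_s : ∃ t, chk3 f_pm_023_s t 1 1 1 = true :=
  ⟨(l 6), by decide +kernel⟩

theorem c_pm_023_s : CertNE 0 536870912 0 536870912 1020054732 13421774 3 eng mog cd0q0 cd0q2 pd3 true true false .up 0 2 3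
    ndB0q0 ndB0q2 pcB3 cut_pm_023_s Ext.none :=
  certNE2 (fam := true) (s1 := true) (s2 := false) (a := 0) (b := 2) (c := 3) (cn := .up) (n1 := ndB0q0) (n2 := ndB0q2) (pc := pcB3) (cut := cut_pm_023_s) (xt := Ext.none) (P1 := 0) (W1 := 536870912) (P2 := 0) (W2 := 536870912) (P3 := 1020054732) (W3 := 13421774) (N0 := 3) (En := eng) (mo := mog) (C1 := cd0q0) (C2 := cd0q2) (C3 := pd3)
    rfl (fun _ => rfl) k0_pm_023_s

noncomputable def cut_pm_023_t : Cut := Cut.of [[⟨3, 0, 0, 2845415833⟩]]

noncomputable def f_pm_023_t : ℕ → ℕ → ℕ → ℕ → Bool := onCell 0 536870912 0 536870912 1020054732 13421774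
    (rowNE 3 eng mog cd0q0 cd0q2 pd3 0 true true false .up 0 2 3 (qsf 0 536870912 0 536870912 3) ndB0q0 ndB0q2 pcB3 cut_pm_023_t Ext.none)

def k0_pm_023_t : ∃ t, chk3 f_pm_023_t t 1 1 1 = true :=
  ⟨(a (l 1) (b (a (b (a (l 1) (b (a (l 1) (b (l 16465048) (l 6))) (l 6))) (l 6)) (b (a (b (a (b (l 16549280) (l 6)) (a (l 16572608) (l 16596152))) (l 6)) (b (a (c (l 16639800) (l 16593544)) (a (l 16654432) (l 16670760))) (a (b (a (l 16573104) (l 16592680)) (l 6)) (b (l 16620936) (l 16597024))))) (a (l 6) (l 6)))) (l 6))), by decide +kernel⟩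

theorem c_pm_023_t : CertNE 0 536870912 0 536870912 1020054732 13421774 3 eng mog cd0q0 cd0q2 pd3 true true false .up 0 2 3
    ndB0q0 ndB0q2 pcB3 cut_pm_023_t Ext.none :=
  certNE0 (fam := true) (s1 := true) (s2 := false) (a := 0) (b := 2) (c := 3) (cn := .up) (n1 := ndB0q0) (n2 := ndB0q2) (pc := pcB3) (cut := cut_pm_023_t) (xt := Ext.none) (P1 := 0) (W1 := 536870912) (P2 := 0) (W2 := 536870912) (P3 := 1020054732) (W3 := 13421774) (N0 := 3) (En := eng) (mo := mog) (C1 := cd0q0) (C2 := cd0q2) (C3 := pd3)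
    rfl k0_pm_023_t

noncomputable def cut_pm_101_s : Cut := Cut.of [[⟨4, 0, 0, 1449551462⟩], [⟨0, 1, 0, 38347922⟩, ⟨1, 0, 0, 38347922⟩, ⟨2, 1, 0, 38347922⟩]]

noncomputable def f_pm_101_s : ℕ → ℕ → ℕ → ℕ → Bool := onCell 536870912 536870912 536870912 536870912 1020054732 13421774
    (rowNE 3 eng mog cd0q1 cd0q0 pd1 1 true true false .npn 1 0 1 (qsf 536870912 536870912 0 536870912 1) ndB0q1 ndB0q0 pcB1 cut_pm_101_s Ext.none)

def k0_pm_101_s : ∃ t, chk3 f_pm_101_s t 1 1 1 = true :=
  ⟨(b (l 3) (a (l 3) (b (l 3) (a (l 3) (b (l 3) (a (l 3) (b (l 3) (a (l 3) (l 14))))))))), by decide +kernel⟩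

theorem c_pm_101_s : CertNE 536870912 536870912 0 536870912 1020054732 13421774 3 eng mog cd0q1 cd0q0 pd1 true true false .npn 1 0 1
    ndB0q1 ndB0q0 pcB1 cut_pm_101_s Ext.none :=
  certNE1 (fam := true) (s1 := true) (s2 := false) (a := 1) (b := 0) (c := 1) (cn := .npn) (n1 := ndB0q1) (n2 := ndB0q0) (pc := pcB1) (cut := cut_pm_101_s) (xt := Ext.none) (P1 := 536870912) (W1 := 536870912) (P2 := 0) (W2 := 536870912) (P3 := 1020054732) (W3 := 13421774) (N0 := 3) (En := eng) (mo := mog) (C1 := cd0q1) (C2 := cd0q0) (C3 := pd1)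
    rfl (fun _ => rfl) k0_pm_101_s

noncomputable def cut_pm_101_t : Cut := Cut.of [[⟨3, 0, 0, 2845415833⟩], [⟨0, 1, 0, 38347922⟩, ⟨1, 0, 0, 38347922⟩, ⟨2, 1, 0, 38347922⟩]]

noncomputable def f_pm_101_t : ℕ → ℕ → ℕ → ℕ → Bool := onCell 536870912 536870912 0 536870912 1020054732 13421774
    (rowNE 3 eng mog cd0q1 cd0q0 pd1 0 true true false .npn 1 0 1 (qsf 536870912 536870912 0 536870912 1) ndB0q1 ndB0q0 pcB1 cut_pm_101_t Ext.none)

def k0_pm_101_t : ∃ t, chk3 f_pm_101_t t 1 1 1 = true :=
  ⟨(l 6), by decide +kernel⟩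

theorem c_pm_101_t : CertNE 536870912 536870912 0 536870912 1020054732 13421774 3 eng mog cd0q1 cd0q0 pd1 true true false .npn 1 0 1
    ndB0q1 ndB0q0 pcB1 cut_pm_101_t Ext.none :=
  certNE0 (fam := true) (s1 := true) (s2 := false) (a := 1) (b := 0) (c := 1) (cn := .npn) (n1 := ndB0q1) (n2 := ndB0q0) (pc := pcB1) (cut := cut_pm_101_t) (xt := Ext.none) (P1 := 536870912) (W1 := 536870912) (P2 := 0) (W2 := 536870912) (P3 := 1020054732) (W3 := 13421774) (N0 := 3) (En := eng) (mo := mog) (C1 := cd0q1) (C2 := cd0q0) (C3 := pd1)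
    rfl k0_pm_101_t

end Pool.Agent.Strip051.G.I9500_9625.Tab.CS.BA00

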