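import Pool.Agent.Strip051.G.I9500_9625.Tab
import Pool.Agent.Strip051.PB.StripB

/-! # Strips, near vertex: certificates 3 (generated) -/

set_option linter.all false
set_option maxRecDepth 100000

namespace Pool.Agent.Strip051.G.I9500_9625.Tab.CS.BA00

open Pool.Agent.Strip051.PB Pool.Agent.Strip051.PB.T
open Pool.Agent.Strip051.G.I9500_9625.Tab

noncomputable def cut_pm_113_t : Cut := Cut.of [[⟨3, 0, 0, 3194381926⟩], [⟨0, 1, 0, 26738688⟩, ⟨1, 1, 0, 26738688⟩, ⟨2, 2, 0, 2621440⟩], [⟨0, 0, 1, 46137344⟩, ⟨1, 1, 0, 2097152⟩, ⟨2, 1, 1, 46137344⟩, ⟨0, 0, 0, 1041207446⟩, ⟨0, 1, 0, 59055800⟩, ⟨2, 1, 0, 1041207446⟩, ⟨2, 2, 0, 59055800⟩], [⟨0, 1, 0, 2097152⟩, ⟨1, 0, 1, 46137344⟩, ⟨2, 1, 1, 46137344⟩, ⟨1, 0, 0, 1041207446⟩, ⟨1, 1, 0, 59055800⟩, ⟨2, 1, 0, 1041207446⟩, ⟨2, 2, 0, 59055800⟩]]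

noncomputable def f_pm_113_t : ℕ → ℕ → ℕ → ℕ → Bool := onCell 536870912 536870912 536870912 536870912 1020054732 13421774
    (rowNE 3 eng mog cd0q1 cd0q1 pd3 0 true true false .nn 1 1 3 (qsf 536870912 536870912 536870912 536870912 3) ndB0q1 ndB0q1 pcB3 cut_pm_113_t Ext.none)

def k0_pm_113_t : ∃ t, chk3 f_pm_113_t t 2 1 1 = true :=
  ⟨(l 6), by decide +kernel⟩

def k1_pm_113_t : ∃ t, chk3 f_pm_113_t t 3 2 1 = true :=
  ⟨(l 6), by decide +kernel⟩

def k2_pm_113_t : ∃ t, chk3 f_pm_113_t t 6 3 1 = true :=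
  ⟨(l 6), by decide +kernel⟩

def k3_pm_113_t : ∃ t, chk3 f_pm_113_t t 7 6 1 = true :=
  ⟨(l 6), by decide +kernel⟩

def k4_pm_113_t : ∃ t, chk3 f_pm_113_t t 14 7 1 = true :=
  ⟨(l 6), by decide +kernel⟩

def k5_pm_113_t : ∃ t, chk3 f_pm_113_t t 15 14 1 = true :=
  ⟨(l 6), by decide +kernel⟩

def k6_pm_113_t : ∃ t, chk3 f_pm_113_t t 30 15 1 = true :=
  ⟨(l 6), by decide +kernel⟩

def k7_pm_113_t : ∃ t, chk3 f_pm_113_t t 31 30 1 = true :=
  ⟨(l 6), by decide +kernel⟩

def k8_pm_113_t : ∃ t, chk3 f_pm_113_t t 62 31 1 = true :=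
  ⟨(l 6), by decide +kernel⟩

def k9_pm_113_t : ∃ t, chk3 f_pm_113_t t 63 62 1 = true :=
  ⟨(l 6), by decide +kernel⟩

def k10_pm_113_t : ∃ t, chk3 f_pm_113_t t 126 63 1 = true :=
  ⟨(b (l 6) (b (l 6) (b (l 6) (b (l 6) (a (l 6) (a (l 6) (a (l 6) (b (a (l 6) (a (l 6) (c (c (l 16774800) (l 16775568)) (c (l 16776352) (l 16775832))))) (a (b (l 6) (a (l 6) (c (c (l 16771208) (l 16771920)) (c (l 16773944) (l 16774672))))) (c (c (c (l 16773120) (l 16773464)) (c (l 16773816) (l 16774168))) (c (c (l 16773208) (l 16773560)) (c (l 16773920) (b (l 16776000) (l 16775192)))))))))))))), by decide +kernel⟩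

def k11_pm_113_t : ∃ t, chk3 f_pm_113_t t 127 126 1 = true :=
  ⟨(a (l 6) (a (l 6) (a (l 6) (b (l 6) (b (l 6) (b (l 6) (a (a (l 6) (b (l 6) (c (c (l 16774312) (l 16775072)) (c (l 16775840) (l 16776624))))) (b (a (l 6) (a (l 6) (c (c (l 16771552) (l 16771600)) (c (l 16773632) (l 16774360))))) (c (c (c (l 16773120) (l 16773464)) (c (l 16773816) (l 16774168))) (c (c (l 16773208) (l 16773560)) (c (l 16773920) (a (l 16776000) (l 16775192))))))))))))), by decide +kernel⟩

def k12_pm_113_t : ∃ t, chk3 f_pm_113_t t 254 254 1 = true :=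
  ⟨(a (l 6) (a (l 6) (b (l 6) (b (l 6) (b (c (c (l 16781648) (l 16781800)) (c (l 16782608) (l 16783424))) (c (c (l 16781280) (l 16781928)) (c (l 16782416) (c (l 16780248) (l 16780328))))))))), by decide +kernel⟩

def k13_pm_113_t : ∃ t, chk3 f_pm_113_t t 508 510 1 = true :=
  ⟨(a (l 6) (b (l 6) (a (b (l 6) (c (c (l 16778776) (l 16779712)) (c (l 16779344) (c (l 16781376) (l 16781864))))) (c (b (c (l 16778800) (l 16779808)) (c (b (l 16778776) (l 16778808)) (b (l 16779704) (l 16779672)))) (b (c (l 16780824) (l 16781856)) (c (c (l 16780368) (l 16780824)) (c (l 16781288) (l 16781752)))))))), by decide +kernel⟩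

def k14_pm_113_t : ∃ t, chk3 f_pm_113_t t 1018 510 1 = true :=
  ⟨(a (b (a (l 6) (b (l 6) (b (l 6) (c (l 16779264) (l 16780080))))) (c (b (c (b (l 16778720) (l 16778688)) (l 16779680)) (c (b (l 16778704) (l 16778752)) (b (l 16779600) (l 16779592)))) (b (c (l 16780680) (l 16779072)) (c (b (l 16780520) (l 16780440)) (c (l 16781144) (l 16781600)))))) (b (b (a (l 6) (c (c (l 16775224) (l 16776088)) (c (l 16776960) (l 16777848)))) (b (a (b (l 6) (c (l 16779240) (l 16781432))) (c (c (b (a (l 16778744) (l 16778944)) (l 16777264)) (b (a (l 16779824) (l 16779984)) (l 16779656))) (c (b (l 16781008) (l 16780752)) (b (l 16782096) (l 16781864))))) (c (c (l 16778576) (l 16779624)) (c (l 16780688) (l 16781768))))) (c (b (c (b (l 16778536) (l 16778528)) (b (l 16779536) (l 16779472))) (c (b (l 16778560) (l 16778632)) (b (l 16779440) (l 16779448)))) (b (c (c (l 16780240) (l 16780736)) (l 16780176)) (c (b (l 16780344) (l 16780280)) (c (l 16780968) (l 16781408))))))), by decide +kernel⟩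

def k15_pm_113_t : ∃ t, chk3 f_pm_113_t t 2038 510 1 = true :=
  ⟨(b (b (c (c (l 16778960) (l 16779600)) (c (l 16780256) (l 16780920))) (a (c (b (a (b (l 16779768) (c (l 16777360) (l 16779720))) (l 16777152)) (b (a (l 16777648) (b (a (l 16778952) (l 16779048)) (l 16777560))) (l 16778880))) (b (c (l 16779496) (l 16779520)) (b (c (l 16779256) (l 16781648)) (l 16778368)))) (c (b (c (l 16779880) (l 16780712)) (c (b (l 16777536) (a (l 16778264) (c (l 16776824) (l 16778632)))) (b (l 16779808) (a (l 16779304) (l 16779392))))) (b (c (l 16781560) (l 16782416)) (c (b (l 16780784) (a (l 16780360) (l 16780416))) (a (l 16780272) (l 16779040))))))) (c (b (b (c (a (l 16778344) (l 16776888)) (a (l 16779344) (l 16779208))) (c (l 16778280) (l 16779224))) (c (b (l 16778336) (l 16778432)) (b (l 16779216) (l 16779240)))) (b (c (b (a (l 16780360) (l 16780224)) (l 16780184)) (b (c (l 16781040) (l 16781568)) (l 16781160))) (c (b (l 16780112) (l 16780064)) (c (l 16780736) (l 16781168)))))), by decide +kernel⟩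

def k16_pm_113_t : ∃ t, chk3 f_pm_113_t t 2039 510 1 = true :=
  ⟨(b (b (c (c (l 16777920) (l 16778248)) (c (l 16778592) (l 16781552))) (c (a (b (l 16779040) (c (l 16776616) (l 16780096))) (c (l 16778144) (l 16778752))) (c (c (l 16778944) (l 16779296)) (c (l 16779656) (l 16780016))))) (c (b (a (b (a (b (c (a (l 16778112) (l 16776856)) (l 16777856)) (l 16778568)) (c (b (l 16777072) (c (l 16776440) (l 16778248))) (b (l 16779336) (l 16778992)))) (c (l 16778048) (l 16779000))) (b (a (b (l 16776568) (a (b (l 16775976) (l 16777104)) (b (l 16778768) (l 16777160)))) (c (l 16778792) (l 16779648))) (b (b (a (l 16777072) (c (l 16776640) (l 16778912))) (c (l 16777856) (l 16778824))) (l 16777048)))) (c (b (a (l 16778120) (l 16777952)) (a (l 16778232) (l 16778072))) (b (l 16778264) (l 16778968)))) (b (b (c (a (b (a (l 16780192) (l 16780312)) (l 16778720)) (b (l 16780656) (a (l 16780064) (l 16780240)))) (a (b (l 16779968) (l 16781056)) (b (l 16781528) (l 16779816)))) (b (a (l 16779168) (c (a (l 16779864)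 (l 16778528)) (l 16779864))) (c (l 16779864) (l 16780832)))) (b (c (l 16779824) (l 16780736)) (c (l 16779784) (l 16780624)))))), by decide +kernel⟩

def k17_pm_113_t : ∃ t, chk3 f_pm_113_t t 1016 511 1 = true :=
  ⟨(a (b (b (l 6) (c (c (l 16776608) (l 16777432)) (c (l 16775648) (l 16777808)))) (c (c (b (l 16773912) (c (l 16773688) (l 16774016))) (b (l 16774640) (c (l 16774336) (l 16773352)))) (c (b (c (l 16776512) (l 16776880)) (c (l 16773688) (l 16774016))) (b (c (l 16777256) (l 16777640)) (c (l 16774352) (b (l 16776408) (l 16775608))))))) (b (b (a (l 6) (b (l 6) (b (l 6) (c (l 16778560) (l 16780216))))) (c (c (l 16777144) (l 16777912)) (c (l 16776072) (l 16778176)))) (c (c (b (l 16774440) (c (l 16774224) (l 16774528))) (b (l 16775120) (c (l 16774832) (l 16773824)))) (c (b (c (l 16776952) (l 16777304)) (c (l 16774136) (l 16774448))) (b (c (l 16777656) (l 16778008)) (c (l 16774760) (b (l 16776784) (l 16775984)))))))), by decide +kernel⟩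

def k18_pm_113_t : ∃ t, chk3 f_pm_113_t t 1017 511 2 = true :=
  ⟨(b (b (b (a (c (l 16778832) (l 16779680)) (c (l 16778872) (l 16779680))) (a (a (c (l 16777240) (l 16778048)) (b (c (l 16778888) (l 16779672)) (l 16779040))) (c (b (l 16778952) (a (l 16778856) (l 16779000))) (b (l 16779704) (a (l 16779592) (l 16779696)))))) (b (a (l 16777064) (c (l 16778480) (l 16779160))) (c (l 16777544) (l 16778208)))) (b (a (c (l 16774944) (l 16775576)) (c (b (l 16776088) (a (l 16776256) (l 16776448))) (b (a (l 16777568) (l 16777768)) (a (l 16776832) (b (l 16777200) (l 16776792)))))) (a (b (a (b (l 16775560) (l 16775208)) (b (l 16775792) (c (l 16773840) (l 16775712)))) (a (a (b (l 16774800) (l 16774376)) (b (l 16774920) (c (l 16773632) (l 16774176)))) (c (b (l 16774456) (l 16773072)) (b (c (l 16773880) (l 16774152)) (l 16773600))))) (b (b (a (c (l 16774400) (l 16776264)) (l 16776112)) (c (l 16774728) (l 16775896))) (c (c (l 16773976) (l 16774872)) (c (l 16775120) (l 16775368))))))), by decide +kernel⟩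

def k19_pm_113_t : ∃ t, chk3 f_pm_113_t t 1017 511 3 = true :=
  ⟨(b (b (b (c (a (l 16780536) (l 16780488)) (a (l 16781400) (l 16781320))) (a (a (c (l 16778864) (l 16779688)) (b (c (l 16780464) (l 16781264)) (l 16779264))) (c (b (l 16780464) (a (l 16780328) (l 16780408))) (b (l 16781232) (c (l 16780904) (l 16781272)))))) (a (c (l 16776472) (l 16778520)) (b (c (l 16779848) (l 16780552)) (c (l 16779064) (l 16779720))))) (b (a (c (c (l 16777368) (l 16777688)) (c (l 16778016) (l 16778344))) (c (b (a (l 16778192) (l 16778368)) (a (b (l 16777616) (l 16777224)) (b (l 16777768) (l 16777344)))) (b (a (l 16778824) (l 16777656)) (a (b (l 16778216) (l 16777808)) (b (l 16778344) (l 16777904)))))) (a (c (b (a (l 16776280) (b (l 16776664) (l 16776280))) (a (b (l 16775720) (c (l 16774544) (l 16774824))) (b (c (l 16774424) (l 16775360)) (l 16774128)))) (b (a (l 16776896) (c (l 16776912) (l 16776552))) (a (b (l 16776304) (c (l 16775104) (l 16775392))) (b (c (l 16775640) (l 16776576)) (l 16775984))))) (c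 (b (a (b (l 16776824) (l 16776392)) (l 16776688)) (c (l 16774968) (l 16775216))) (b (a (a (b (l 16777368) (l 16776936)) (l 16777184)) (l 16777216)) (b (l 16776496) (a (l 16776008) (l 16776032)))))))), by decide +kernel⟩

def k20_pm_113_t : ∃ t, chk3 f_pm_113_t t 509 1022 2 = true :=
  ⟨(b (a (a (b (c (l 16778848) (l 16779616)) (c (l 16779200) (l 16779680))) (c (b (l 16778744) (l 16778904)) (b (l 16779488) (l 16779568)))) (a (c (b (l 16778568) (l 16778752)) (b (l 16779304) (l 16779400))) (b (c (a (l 16778392) (l 16778240)) (l 16779048)) (c (a (l 16778592) (l 16778456)) (c (l 16779000) (l 16779328)))))) (a (b (b (a (c (a (l 16778952) (l 16779072)) (a (l 16779608) (l 16779696))) (c (l 16779040) (l 16779640))) (a (c (l 16778752) (l 16779360)) (a (c (l 16779016) (l 16779584)) (b (l 16779392) (a (l 16779368) (l 16779408)))))) (b (a (c (l 16778392) (l 16778984)) (c (l 16778784) (l 16779320))) (a (c (l 16778032) (l 16777944)) (l 16777352)))) (b (a (c (a (l 16779032) (l 16778936)) (a (l 16779584)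 (l 16779488))) (c (a (l 16778840) (l 16778720)) (c (l 16779184) (l 16779456)))) (b (b (a (a (c (l 16779112) (l 16779616)) (l 16779352)) (c (l 16778960) (l 16779440))) (a (a (l 16779224) (c (l 16779112) (l 16779576))) (c (l 16779040) (l 16779488)))) (a (c (l 16778776) (l 16779240)) (b (a (c (l 16779096) (l 16779528)) (l 16779272)) (a (l 16779168) (c (l 16778424) (l 16779472))))))))), by decide +kernel⟩

def k21_pm_113_t : ∃ t, chk3 f_pm_113_t t 509 1023 2 = true :=
  ⟨(b (b (a (a (c (a (l 16777376) (l 16777552)) (a (l 16777936) (l 16778080))) (c (l 16777808) (l 16778296))) (a (c (l 16778160) (l 16778592)) (a (l 16777312) (b (l 16777696) (l 16778560))))) (a (c (a (l 16776672) (l 16776976)) (a (l 16777184) (l 16776120))) (a (c (l 16775976) (l 16776712)) (c (l 16776624) (c (l 16777872) (l 16778048)))))) (a (a (a (b (c (l 16775776) (l 16776264)) (c (l 16774920) (l 16775376))) (c (b (l 16775912) (l 16775032)) (b (l 16776368) (c (l 16775352) (l 16775568))))) (c (b (c (l 16776008) (l 16776216))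 (b (l 16775432) (a (l 16774920) (l 16775032)))) (b (c (l 16776424) (l 16776640)) (b (l 16775832) (a (l 16775312) (l 16775400)))))) (a (c (b (c (l 16776296) (l 16776480)) (b (l 16775680) (a (l 16775144) (l 16773944)))) (b (c (l 16775352) (l 16776192)) (c (a (l 16775648) (l 16775744)) (a (l 16775824) (l 16775912))))) (a (c (b (l 16776592) (c (l 16775544) (l 16775696))) (b (l 16776928) (c (l 16775848) (l 16775344)))) (c (b (l 16776736) (c (l 16775016) (l 16775160))) (b (l 16775736) (c (l 16775296) (l 16775440)))))))), by decide +kernel⟩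

def k22_pm_113_t : ∃ t, chk3 f_pm_113_t t 509 1022 3 = true :=
  ⟨(b (a (a (c (b (l 16780392) (l 16780384)) (b (l 16781184) (l 16780440))) (c (b (l 16780248) (l 16780240)) (c (l 16780784) (l 16781152)))) (c (a (b (l 16780040) (l 16780056)) (b (l 16779784) (l 16779152))) (a (c (l 16779920) (l 16780280)) (b (l 16779224) (l 16779808))))) (b (a (a (c (b (a (l 16780264) (l 16780328)) (l 16779984)) (b (c (l 16780112) (l 16781096)) (l 16779304))) (c (b (l 16780248) (a (l 16780168) (c (l 16780072) (l 16780352)))) (b (l 16780216) (a (l 16780752) (l 16780120))))) (a (c (a (l 16780152) (l 16780048)) (c (l 16780528) (l 16780816))) (c (c (l 16779728) (l 16780008)) (c (l 16780288) (l 16780568))))) (a (a (c (a (l 16779312) (l 16779456)) (a (l 16778616) (l 16778728))) (c (a (l 16779592) (l 16779720)) (c (l 16780056) (l 16780328)))) (b (b (a (a (c (l 16780128) (l 16780640)) (l 16779680)) (c (l 16779920) (l 16780408))) (a (a (l 16780216) (c (l 16780048) (l 16780528))) (c (l 16779944) (l 16780400)))) (a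 (c (l 16779704) (l 16780184)) (b (c (a (l 16779968) (l 16779904)) (a (l 16780408) (l 16780336))) (a (l 16780016) (c (l 16779872) (l 16780280))))))))), by decide +kernel⟩

def k23_pm_113_t : ∃ t, chk3 f_pm_113_t t 509 1023 3 = true :=
  ⟨(b (a (a (c (b (a (l 16777192) (l 16778624)) (l 16776392)) (b (a (b (l 16779296) (l 16778864)) (l 16779168)) (c (l 16778096) (l 16778360)))) (c (b (l 16777480) (c (l 16777776) (l 16778016))) (b (l 16777984) (c (l 16778248) (l 16778480))))) (b (a (c (l 16777720) (l 16778496)) (a (b (l 16778352) (l 16778528)) (c (l 16778032) (l 16779072)))) (a (c (c (l 16778000) (l 16778208)) (c (l 16778408) (l 16777312))) (c (c (l 16776920) (l 16777096)) (c (l 16777280) (l 16778112)))))) (a (a (c (b (c (l 16776680) (l 16776920)) (b (l 16776104) (a (l 16775600) (l 16775656)))) (b (c (l 16777168) (l 16776104)) (c (a (l 16776184) (l 16776224)) (a (l 16776424) (l 16776448))))) (c (b (c (l 16776856) (l 16775760)) (c (a (l 16775856) (l 16775928)) (a (l 16776064) (l 16776120))))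 (b (c (l 16776632) (l 16776848)) (c (a (l 16776272) (l 16776312)) (a (l 16776480) (l 16776512)))))) (a (a (c (b (l 16777088) (c (l 16776000) (l 16776184))) (b (l 16776824) (c (l 16776360) (l 16775888)))) (c (b (l 16775864) (c (l 16776080) (l 16775592))) (b (l 16776888) (c (l 16775760) (l 16775928))))) (a (c (b (l 16776608) (c (l 16775496) (l 16775656))) (b (c (l 16777520) (l 16777696)) (b (l 16776816) (l 16776272)))) (c (b (l 16776704) (c (l 16775584) (l 16775720))) (b (c (l 16777600) (l 16777760)) (b (l 16776872) (l 16775992)))))))), by decide +kernel⟩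

def k24_pm_113_t : ∃ t, chk3 f_pm_113_t t 510 508 1 = true :=
  ⟨(b (l 6) (a (l 6) (b (a (l 6) (c (c (l 16778936) (l 16779056)) (c (l 16779672) (c (l 16781376) (l 16781864))))) (c (a (c (l 16778800) (l 16779808)) (c (a (l 16778776) (l 16778808)) (a (l 16779704) (l 16779672)))) (a (c (l 16780824) (l 16781856)) (c (a (l 16780640) (l 16780552)) (c (l 16781288) (l 16781752)))))))), by decide +kernel⟩

def k25_pm_113_t : ∃ t, chk3 f_pm_113_t t 510 1018 1 = true :=
  ⟨(b (a (a (l 6) (a (l 6) (a (l 6) (c (l 16777976) (l 16780088))))) (c (a (c (a (l 16778720) (l 16778688)) (l 16779680)) (c (a (l 16778704) (l 16778752)) (a (l 16779600) (l 16779592)))) (a (c (l 16780680) (l 16779072)) (c (a (l 16780520) (l 16780440)) (c (l 16781144) (l 16781600)))))) (a (a (b (l 6) (c (c (l 16777840) (l 16776088)) (c (l 16776960) (l 16777848)))) (a (a (b (l 6) (c (c (b (l 16778744) (l 16778944)) (b (l 16779824) (l 16779984))) (c (l 16781008) (l 16782096)))) (c (b (l 16779240) (c (l 16777264) (l 16779656))) (c (b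 (l 16780872) (l 16780752)) (l 16780608)))) (c (c (l 16778576) (l 16779624)) (c (l 16780688) (l 16781768))))) (c (a (c (a (l 16778536) (l 16778528)) (a (l 16779536) (l 16779472))) (c (a (l 16778560) (l 16778632)) (a (l 16779440) (l 16779448)))) (a (c (c (l 16780240) (l 16780736)) (l 16780176)) (c (a (l 16780344) (l 16780280)) (c (l 16780968) (l 16781408))))))), by decide +kernel⟩

def k26_pm_113_t : ∃ t, chk3 f_pm_113_t t 510 2038 1 = true :=
  ⟨(a (a (c (c (l 16778960) (l 16779600)) (c (l 16780256) (l 16780920))) (a (c (a (c (l 16774600) (l 16780712)) (b (c (b (l 16777360) (l 16778952)) (l 16778544)) (l 16777344))) (c (b (l 16779496) (l 16781560)) (c (l 16779440) (l 16779904)))) (a (c (b (b (l 16777648) (a (a (l 16779056) (l 16777632)) (l 16777560))) (c (l 16777536) (l 16779808))) (c (b (l 16779256) (l 16780784)) (b (l 16781648) (l 16781784)))) (c (b (l 16778880) (c (b (l 16778264) (c (l 16776824) (l 16778632))) (b (l 16779304) (l 16779392)))) (b (l 16778368) (c (b (l 16780360) (l 16780416))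 (l 16781456))))))) (c (a (a (c (b (l 16778344) (l 16776888)) (b (l 16779344) (l 16779208))) (c (l 16778280) (l 16779224))) (c (a (l 16778336) (l 16778432)) (a (l 16779216) (l 16779240)))) (a (c (a (b (l 16780360) (l 16780224)) (l 16780184)) (a (c (l 16781040) (l 16781568)) (l 16781160))) (c (a (l 16780112) (l 16780064)) (c (l 16780736) (l 16781168)))))), by decide +kernel⟩

def k27_pm_113_t : ∃ t, chk3 f_pm_113_t t 510 2039 1 = true :=
  ⟨(a (a (c (c (l 16777920) (l 16778248)) (c (l 16778592) (l 16781552))) (c (c (a (l 16775824) (b (l 16776616) (l 16780048))) (c (l 16778248) (l 16778592))) (c (c (l 16778944) (l 16779296)) (c (l 16779656) (l 16780016))))) (c (a (a (a (b (b (c (a (l 16778208) (l 16778072)) (l 16778184)) (c (l 16777072) (l 16779336))) (c (l 16778960) (l 16779800))) (a (b (c (b (l 16778072) (l 16778008)) (l 16779040)) (c (l 16778424) (l 16779336))) (b (l 16778520) (b (b (l 16777104) (l 16777160)) (l 16776080))))) (a (b (l 16777208) (a (b (l 16777072) (c (l 16776640) (l 16778912)))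 (c (l 16777200) (l 16778824)))) (c (l 16777976) (l 16778912)))) (c (a (b (l 16778120) (l 16777952)) (b (l 16778232) (l 16778072))) (a (l 16778264) (l 16777656)))) (a (a (c (b (a (b (l 16780192) (l 16780312)) (l 16778720)) (a (l 16780656) (b (l 16780064) (l 16780240)))) (b (a (l 16778656) (l 16781056)) (a (l 16781528) (l 16778504)))) (a (b (l 16779168) (c (b (l 16779864) (l 16778528)) (l 16780192))) (c (l 16779864) (l 16780832)))) (a (c (l 16779824) (l 16780736)) (c (l 16779784) (l 16780624)))))), by decide +kernel⟩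

def k28_pm_113_t : ∃ t, chk3 f_pm_113_t t 511 1016 1 = true :=
  ⟨(b (a (a (l 6) (c (c (l 16776608) (l 16777432)) (c (l 16775648) (l 16777808)))) (c (c (a (l 16773912) (c (l 16773688) (l 16774016))) (a (l 16774480) (c (l 16774336) (l 16773352)))) (c (a (c (l 16776512) (l 16776880)) (c (l 16773688) (l 16774016))) (a (c (l 16777256) (l 16777640)) (c (l 16774352) (a (l 16776408) (l 16775608))))))) (a (a (a (l 6) (a (l 6) (b (l 6) (c (l 16778560) (l 16780216))))) (c (c (l 16777144) (l 16777912)) (c (l 16776072) (l 16778176)))) (c (c (a (l 16774440) (c (l 16774224) (l 16774528))) (a (l 16775120) (c (l 16773520) (l 16773824)))) (c (a (c (l 16776952) (l 16777304)) (c (l 16774136) (l 16774448))) (a (c (l 16777656) (l 16778008)) (c (l 16774760) (a (l 16776784) (l 16775984)))))))), by decide +kernel⟩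

def k29_pm_113_t : ∃ t, chk3 f_pm_113_t t 1022 1017 1 = true :=
  ⟨(a (c (a (b (c (l 16778832) (l 16779680)) (c (l 16778872) (l 16779680))) (b (c (a (b (l 16778728) (l 16778888)) (l 16778536)) (a (b (l 16779544) (l 16779672)) (l 16779312))) (c (a (l 16778952) (b (l 16778856) (l 16779000))) (a (l 16779704) (b (l 16779592) (l 16779696)))))) (a (c (b (l 16780536) (l 16780488)) (b (l 16781400) (l 16781320))) (b (b (c (l 16778864) (l 16779688)) (a (c (l 16780464) (l 16781264)) (l 16779264))) (c (a (l 16780464) (b (l 16780328) (l 16780408))) (a (l 16781232) (c (l 16780904) (l 16781272))))))) (c (a (b (l 16777064) (c (l 16778480) (l 16779160))) (c (l 16777544) (l 16778208))) (b (c (l 16776472) (l 16778520)) (c (a (l 16779848) (l 16779064)) (a (l 16779240) (l 16779720)))))), by decide +kernel⟩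

def k30_pm_113_t : ∃ t, chk3 f_pm_113_t t 1023 1017 1 = true :=
  ⟨(a (c (b (c (l 16774944) (l 16775576)) (a (a (l 16777552) (c (l 16776896) (l 16777488))) (c (b (l 16776256) (l 16776448)) (b (l 16776832) (a (l 16777200) (l 16776792)))))) (b (c (c (l 16777368) (l 16777688)) (c (l 16778016) (l 16775720))) (c (a (b (l 16778192) (l 16778368)) (b (a (l 16777616) (l 16777224)) (a (l 16777768) (l 16777344)))) (a (b (l 16778824) (l 16778312)) (b (a (l 16778216) (l 16777808)) (a (l 16778344) (l 16777904))))))) (a (c (b (a (a (l 16775768) (l 16775712)) (b (l 16775208) (c (l 16773840) (l 16775712)))) (a (b (c (l 16774400) (l 16776264)) (l 16776112)) (c (l 16774728) (l 16775896)))) (b (c (b (l 16776280) (a (l 16776664) (l 16776280))) (b (l 16776896) (c (l 16776912) (l 16776552)))) (c (b (a (l 16776824) (l 16776392)) (l 16776688)) (b (a (a (l 16777496) (l 16777280)) (l 16776944)) (l 16777216))))) (a (c (b (b (c (l 16774576) (l 16775144)) (c (l 16774616) (c (l 16773880) (l 16774152)))) (c (l 16773656)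 (l 16775464))) (b (c (b (l 16775720) (c (l 16774424) (l 16775360))) (b (l 16776304) (c (l 16775640) (l 16776576)))) (c (l 16775976) (l 16776576)))) (c (b (b (b (l 16774416) (c (l 16773632) (l 16774176))) (c (l 16773072) (l 16773600))) (c (l 16774216) (l 16774696))) (b (c (b (c (l 16774544) (l 16774824)) (l 16774128)) (b (b (l 16775872) (l 16776008)) (l 16775984))) (c (l 16775560) (a (l 16775480) (l 16775568)))))))), by decide +kernel⟩

def k31_pm_113_t : ∃ t, chk3 f_pm_113_t t 2044 509 1 = true :=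
  ⟨(a (b (c (c (b (l 16778848) (l 16778744)) (b (l 16779616) (l 16779488))) (c (b (l 16780392) (l 16780248)) (b (l 16781184) (l 16781016)))) (c (b (c (l 16778568) (l 16779304)) (c (b (l 16778392) (l 16778240)) (l 16779048))) (c (b (l 16780040) (l 16779784)) (b (l 16780792) (l 16779224))))) (b (c (b (c (b (l 16778992) (l 16778968)) (l 16779928)) (c (l 16778904) (l 16779568))) (b (c (l 16779808) (c (l 16780912) (l 16781272))) (c (l 16780240) (l 16780928)))) (c (b (c (l 16778752) (l 16779400)) (c (b (l 16778592) (l 16778456)) (c (l 16779000) (l 16779328)))) (c (b (l 16780056) (c (l 16779648) (l 16779976))) (b (l 16780064) (c (l 16780304) (l 16780632))))))), by decide +kernel⟩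

def k32_pm_113_t : ∃ t, chk3 f_pm_113_t t 2045 509 1 = true :=
  ⟨(b (c (a (a (b (c (b (l 16778952) (l 16779072)) (b (l 16779608) (l 16779696))) (c (l 16779040) (l 16779640))) (b (c (l 16778752) (l 16779360)) (b (c (l 16779016) (l 16779584)) (a (l 16779392) (a (l 16779736) (l 16779368)))))) (b (c (b (l 16778112) (l 16778312)) (b (l 16778704) (l 16778880))) (a (c (l 16778784) (l 16779320)) (l 16777352)))) (a (a (b (c (b (l 16780264) (l 16780328)) (c (l 16780112) (l 16780440))) (c (l 16780248) (l 16780216))) (b (c (l 16779984) (l 16779304)) (b (c (l 16780168) (l 16780752)) (a (l 16780520) (c (l 16780192) (l 16780744)))))) (b (c (b (l 16779312) (l 16779456)) (b (l 16778616) (l 16778728))) (c (b (l 16779592) (l 16779720)) (c (l 16780056) (l 16780328)))))) (c (a (b (c (b (l 16779032) (l 16778936)) (b (l 16779584) (l 16779488))) (c (b (l 16778840) (l 16778720)) (c (l 16779184) (l 16779456)))) (a (a (b (b (c (l 16779112) (l 16779616)) (l 16779352)) (c (l 16778960) (l 16779440))) (b (b (l 16779224)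 (c (l 16779112) (l 16779576))) (c (l 16779040) (l 16779488)))) (b (c (l 16778776) (l 16779240)) (a (b (c (l 16779096) (l 16779528)) (l 16779272)) (b (l 16779168) (c (b (l 16779072) (l 16779104)) (l 16779472))))))) (a (b (c (b (l 16780152) (l 16780048)) (c (l 16780528) (l 16780816))) (c (c (l 16779728) (l 16780008)) (c (l 16780288) (l 16780568)))) (a (a (b (b (c (l 16780128) (l 16780640)) (l 16779680)) (c (l 16779920) (l 16780408))) (b (b (l 16780216) (c (l 16780048) (l 16780528))) (c (l 16779944) (l 16780400)))) (b (c (l 16779704) (l 16780184)) (a (c (b (l 16779968) (l 16779904)) (b (l 16780408) (l 16780336))) (b (l 16780016) (c (l 16779872) (l 16780280))))))))), by decide +kernel⟩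

def k33_pm_113_t : ∃ t, chk3 f_pm_113_t t 2046 509 1 = true :=
  ⟨(a (b (c (b (c (b (l 16777376) (l 16777552)) (b (l 16777936) (l 16778080))) (c (l 16777808) (l 16778296))) (b (c (b (l 16777192) (l 16778624)) (b (a (l 16779296) (l 16778864)) (l 16779168))) (c (l 16777480) (l 16777984)))) (c (b (c (l 16778160) (l 16778592)) (b (l 16777312) (a (l 16777696) (l 16778560)))) (b (c (l 16777720) (c (l 16779368) (l 16779592))) (a (c (l 16778208) (l 16778608)) (c (l 16779048) (l 16779432)))))) (b (c (c (b (l 16776672) (l 16776976)) (b (l 16777184) (l 16776120))) (c (b (l 16776392) (c (l 16777776) (l 16778016))) (b (c (l 16778096) (l 16778360)) (c (l 16778248) (l 16778480))))) (c (b (c (l 16775976) (l 16776712)) (c (l 16776624) (c (l 16777872) (l 16778048)))) (b (c (c (l 16778000) (l 16778208)) (c (l 16778408) (l 16777312))) (c (c (l 16776920) (l 16777096)) (c (l 16777280) (l 16778112))))))), by decide +kernel⟩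

def k34_pm_113_t : ∃ t, chk3 f_pm_113_t t 2047 509 1 = true :=
  ⟨(b (c (b (b (a (c (l 16775776) (l 16776264)) (c (l 16774920) (l 16775376))) (c (a (l 16775912) (l 16775032)) (a (l 16776368) (c (l 16775352) (l 16775568))))) (c (a (c (l 16776008) (l 16776216)) (a (l 16775432) (a (l 16774432) (l 16774528)))) (a (c (l 16776424) (l 16776640)) (a (l 16775832) (a (l 16774816) (l 16774904)))))) (b (c (a (c (l 16776680) (l 16776920)) (a (l 16776104) (a (l 16775088) (l 16775176)))) (a (c (l 16777168) (l 16776104)) (c (b (l 16776184) (l 16776224)) (b (l 16776424) (l 16776448))))) (c (a (c (l 16776856) (l 16775760)) (c (b (l 16775856) (l 16775928)) (b (l 16776064) (l 16776120)))) (a (c (l 16776632) (l 16776848)) (c (b (l 16776272) (l 16776312)) (b (l 16776480) (l 16776512))))))) (c (b (c (a (c (l 16776296) (l 16776480)) (a (l 16775680) (a (l 16774664) (l 16774912)))) (a (c (l 16775352) (l 16776192)) (c (b (l 16775648) (l 16775744)) (b (l 16775824) (l 16775912))))) (b (c (a (l 16776592) (c (l 16775544)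 (l 16775696))) (a (l 16776928) (c (l 16775848) (l 16775344)))) (c (a (l 16776736) (c (l 16775016) (l 16775160))) (a (l 16775736) (c (l 16775296) (l 16775440)))))) (b (b (c (a (l 16777088) (c (l 16776000) (l 16776184))) (a (l 16776824) (c (l 16776360) (l 16775888)))) (c (a (l 16775864) (c (l 16776080) (l 16775592))) (a (l 16776888) (c (l 16775760) (l 16775928))))) (b (c (a (l 16776608) (c (l 16775496) (l 16775656))) (a (c (l 16777520) (l 16777696)) (a (l 16776816) (l 16776272)))) (c (a (l 16776704) (c (l 16775584) (l 16775720))) (a (c (l 16777600) (l 16777760)) (a (l 16776872) (l 16775912)))))))), by decide +kernel⟩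

def k35_pm_113_t : ∃ t, chk3 f_pm_113_t t 2040 510 1 = true :=
  ⟨(b (c (c (b (l 16779600) (l 16779088)) (b (l 16779600) (l 16779776))) (c (b (l 16779600) (l 16780136)) (c (l 16781320) (l 16781416)))) (c (b (b (c (l 16777232) (l 16777872)) (a (b (a (c (c (l 16777912) (l 16778360)) (l 16777736)) (l 16777624)) (b (c (a (l 16777104) (l 16777976)) (a (l 16778712) (l 16778880))) (a (l 16778216) (c (c (l 16776840) (l 16777960)) (l 16778664))))) (c (c (l 16775992) (l 16776368)) (l 16777584)))) (b (b (a (c (l 16776408) (l 16778640)) (b (a (c (a (l 16777640) (l 16777760)) (l 16778624)) (l 16775864)) (c (a (l 16777592) (c (l 16777512) (l 16777952))) (a (l 16778504) (l 16778608))))) (b (a (l 16778216) (a (l 16778064) (a (l 16776672) (b (l 16776688) (l 16776624))))) (c (l 16777704) (l 16778576)))) (c (a (l 16777896) (l 16777696)) (a (l 16778712) (l 16778520))))) (b (b (c (l 16778528) (l 16779184)) (c (a (b (l 16778784) (a (l 16779664) (l 16778408))) (l 16779000)) (a (b (l 16778368) (a (l 16780632)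 (l 16780656))) (l 16778464)))) (b (b (a (c (l 16779568) (l 16780512)) (c (a (c (l 16779272) (l 16779736)) (l 16778320)) (a (l 16779128) (l 16780512)))) (a (c (l 16779560) (l 16780464)) (a (l 16778560) (c (l 16778680) (l 16780248))))) (c (c (l 16779248) (l 16779664)) (c (l 16780088) (l 16780512))))))), by decide +kernel⟩

def k36_pm_113_t : ∃ t, chk3 f_pm_113_t t 2041 510 1 = true :=
  ⟨(b (c (c (b (c (l 16776704) (l 16776880)) (l 16779904)) (b (l 16779776) (l 16781216))) (c (c (l 16779960) (l 16780712)) (c (l 16780808) (l 16780896)))) (b (c (b (c (l 16779024) (l 16779312)) (c (c (l 16777408) (l 16777648)) (l 16778664))) (c (c (l 16778952) (l 16779152)) (c (l 16779344) (l 16779544)))) (a (a (c (b (b (l 16777072) (b (c (l 16777768) (l 16778608)) (a (c (l 16777464) (l 16778352)) (c (l 16776216) (l 16778400))))) (b (c (l 16777488) (l 16778344)) (l 16776672))) (b (b (l 16778960) (c (c (l 16777864) (l 16779608)) (l 16778960))) (c (l 16778560) (l 16778768)))) (c (b (c (l 16777080) (l 16776504))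 (b (b (b (c (l 16776240) (l 16778400)) (a (l 16776512) (l 16776576))) (a (l 16777848) (c (l 16777368) (l 16778224)))) (l 16776560))) (b (c (l 16777248) (l 16778000)) (b (c (b (l 16779224) (l 16779112)) (l 16779400)) (l 16778224))))) (c (b (c (l 16776464) (l 16777064)) (b (b (c (l 16778112) (l 16778840)) (a (a (b (l 16776584) (a (l 16776440) (l 16776472))) (l 16776696)) (l 16777008))) (b (c (a (a (l 16777344) (a (l 16777312) (l 16776688))) (l 16776272)) (a (c (l 16777976) (l 16778392)) (l 16778360))) (a (l 16777768) (a (c (l 16776624) (l 16778104)) (b (l 16776480) (a (l 16776336) (l 16776368)))))))) (b (c (l 16777664) (l 16778272)) (c (b (c (l 16777960) (l 16778336)) (a (c (l 16778808) (l 16779232)) (b (l 16779152) (l 16778312)))) (b (a (l 16777512) (l 16780296)) (a (l 16779216) (l 16779072))))))))), by decide +kernel⟩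

def k37_pm_113_t : ∃ t, chk3 f_pm_113_t t 1021 2040 1 = true :=
  ⟨(c (a (a (c (c (l 16777072) (l 16774776)) (l 16777872)) (b (a (b (a (l 16776104) (c (l 16777952) (l 16778888))) (l 16777624)) (a (c (b (l 16777104) (l 16777976)) (b (l 16778712) (l 16778880))) (b (l 16778216) (c (c (l 16777168) (l 16777960)) (l 16778664))))) (c (c (l 16775992) (l 16776368)) (l 16777584)))) (a (a (b (c (l 16776408) (l 16778640)) (a (b (c (a (l 16777760) (l 16776336)) (l 16778624)) (l 16777176)) (c (b (l 16777592) (c (l 16777512) (l 16777952))) (b (l 16778504) (l 16778608))))) (a (b (l 16776904) (b (l 16778064) (b (l 16776672) (a (l 16776688) (l 16776624))))) (c (l 16777704) (l 16778576)))) (c (b (l 16777896) (l 16776384)) (b (l 16778712) (l 16778520))))) (a (a (c (l 16778528) (l 16779184)) (c (b (a (l 16778784) (b (l 16779664) (l 16778408))) (l 16779000)) (b (a (l 16778368) (b (l 16780632) (l 16780656))) (l 16778464)))) (a (b (c (c (l 16779344) (l 16779800)) (l 16779512)) (a (c (b (c (l 16779272) (l 16779736))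 (l 16778320)) (c (l 16778960) (l 16780720))) (b (l 16778560) (c (l 16778680) (l 16780248))))) (c (c (l 16779248) (l 16779664)) (l 16779320))))), by decide +kernel⟩

def k38_pm_113_t : ∃ t, chk3 f_pm_113_t t 1021 2041 1 = true :=
  ⟨(a (c (a (c (l 16779024) (l 16779312)) (c (c (l 16777408) (l 16777648)) (l 16778664))) (c (c (l 16778952) (l 16779152)) (c (l 16779344) (l 16779544)))) (c (a (b (c (a (l 16775928) (b (a (l 16777768) (b (l 16777464) (l 16776216))) (l 16778008))) (a (l 16779272) (a (l 16777480) (b (a (l 16778408) (l 16778336)) (l 16778624))))) (c (l 16776464) (l 16777064))) (b (c (a (b (l 16777488) (a (a (l 16776240) (a (l 16776792) (l 16776752))) (a (l 16777384) (l 16777400)))) (l 16777520)) (a (b (l 16778344) (a (a (l 16778400) (l 16778296)) (l 16778248))) (l 16778336))) (a (a (c (l 16778112) (l 16778840)) (b (b (a (l 16776584) (a (l 16776472) (l 16776440))) (l 16776696)) (l 16777008))) (a (c (b (a (b (l 16777328) (l 16777360)) (l 16777320)) (l 16776272)) (b (c (l 16777976)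 (l 16778392)) (l 16778360))) (b (l 16777768) (b (c (l 16776624) (l 16778104)) (c (a (l 16777392) (l 16777264)) (l 16778152)))))))) (b (b (a (a (l 16778960) (c (c (l 16778520) (l 16779608)) (l 16778960))) (c (l 16778560) (l 16778768))) (a (c (l 16777248) (l 16778000)) (a (c (a (l 16779224) (l 16779112)) (l 16779400)) (l 16778224)))) (a (c (l 16777664) (l 16778272)) (c (a (c (l 16777960) (l 16778336)) (b (c (l 16778808) (l 16779232)) (c (a (l 16778952) (l 16778760)) (l 16778624)))) (a (b (l 16777512) (l 16780296)) (b (l 16778560) (l 16779240)))))))), by decide +kernel⟩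

def k39_pm_113_t : ∃ t, chk3 f_pm_113_t t 1021 1021 1 = true :=
  ⟨(c (b (a (a (c (l 16779704) (l 16779808)) (c (l 16779448) (l 16779544))) (a (c (c (l 16777840) (l 16777992)) (c (l 16778144) (l 16778296))) (b (c (c (l 16776360) (l 16777320)) (c (l 16776320) (l 16776624))) (c (l 16777504) (l 16777264))))) (b (c (a (c (l 16777840) (l 16777992)) (c (l 16778632) (l 16778688))) (a (c (l 16778144) (l 16778296)) (c (l 16778736) (l 16778792)))) (c (a (a (c (l 16777016) (l 16776008)) (l 16776848)) (c (l 16778368) (l 16778424))) (a (a (c (l 16776320) (l 16776624)) (l 16777264)) (c (l 16778472) (l 16778528)))))) (c (b (a (c (l 16777576) (l 16777576)) (a (c (l 16778448) (l 16778608)) (b (c (l 16776936) (l 16777256)) (l 16777688)))) (a (b (c (l 16778448) (l 16778608)) (a (c (l 16776936) (l 16777256)) (l 16777688))) (a (c (l 16778840) (l 16778896)) (c (l 16778584) (l 16778640))))) (c (b (a (l 16777576) (b (l 16779368) (l 16778496))) (a (a (l 16778712) (l 16778496)) (l 16779184))) (b (a (l 16777576)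 (a (l 16778920) (l 16779384))) (a (b (l 16778920) (l 16779384)) (l 16779184)))))), by decide +kernel⟩

def k40_pm_113_t : ∃ t, chk3 f_pm_113_t t 510 4088 1 = true :=
  ⟨(a (c (a (c (a (l 16778072) (l 16777888)) (a (l 16778808) (l 16778624))) (a (c (c (l 16777488) (l 16777864)) (l 16778424)) (c (b (a (l 16777448) (l 16777320)) (l 16777504)) (b (c (l 16777960) (l 16778360)) (l 16778240))))) (a (c (c (l 16779280) (l 16779656)) (l 16779568)) (c (a (l 16779184) (c (l 16778792) (l 16779176))) (a (l 16779960) (c (l 16779568) (l 16779968)))))) (a (c (a (b (a (b (a (c (b (l 16777272) (l 16777208)) (l 16777400)) (c (l 16776072) (l 16778152))) (c (c (a (l 16777056) (l 16776344)) (l 16776760)) (l 16777352))) (a (b (l 16776656) (c (b (l 16777312) (l 16776528)) (l 16777376))) (c (l 16777648) (l 16778352)))) (a (c (l 16777312) (l 16778064)) (b (b (a (l 16776896) (c (l 16776536) (l 16777952))) (c (l 16777160) (l 16777928))) (l 16776280)))) (c (b (l 16776952) (a (a (b (l 16776648) (c (l 16776608) (l 16776656)))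 (b (l 16777528) (b (l 16777232) (a (l 16777080) (l 16777120))))) (l 16776392))) (b (l 16777536) (a (b (l 16776832) (a (l 16777872) (a (l 16777232) (l 16777936)))) (l 16777040))))) (a (a (c (b (b (l 16778256) (l 16778808)) (l 16778824)) (b (c (l 16778824) (l 16779880)) (l 16779600))) (b (c (c (l 16777528) (l 16779208)) (l 16778448)) (b (c (c (l 16778536) (l 16778928)) (l 16779520)) (l 16777792)))) (c (b (l 16776816) (a (b (l 16778864) (a (l 16778640) (l 16778672))) (l 16777688))) (b (l 16777408) (a (a (l 16778672) (l 16778224)) (l 16777040)))))) (c (c (a (c (l 16776152) (l 16776368)) (l 16777976)) (c (l 16777688) (l 16777848))) (c (c (l 16778016) (l 16778840)) (c (l 16777696) (l 16777864)))))), by decide +kernel⟩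

def k41_pm_113_t : ∃ t, chk3 f_pm_113_t t 1020 4089 1 = true :=
  ⟨(c (a (c (a (l 16778304) (l 16778128)) (c (l 16778696) (l 16779016))) (c (a (l 16776616) (b (l 16777632) (l 16777776))) (a (l 16778576) (l 16777712)))) (a (c (c (l 16779344) (l 16779672)) (c (l 16780000) (l 16780336))) (c (c (l 16778320) (l 16779312)) (c (l 16779648) (l 16779992))))), by decide +kernel⟩

def k42_pm_113_t : ∃ t, chk3 f_pm_113_t t 1021 4089 1 = true :=
  ⟨(c (b (a (a (c (l 16777384) (l 16778088)) (b (a (c (l 16777144) (l 16777880)) (b (a (c (a (l 16777072) (l 16777144)) (l 16777848)) (l 16776352)) (a (c (l 16777064) (l 16777792)) (c (l 16776488) (l 16777848))))) (a (l 16776264) (a (l 16776160) (b (a (l 16776096) (b (l 16776096) (l 16776072))) (l 16777424)))))) (a (a (a (b (l 16776488) (b (c (l 16777168) (l 16777864)) (c (a (l 16777016) (l 16777048)) (l 16777752)))) (c (l 16776208) (l 16776840))) (c (l 16776600) (l 16775840))) (c (l 16777400) (l 16777792)))) (a (c (a (l 16777536) (c (l 16777112) (l 16777440)))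 (a (l 16778192) (l 16777944))) (a (a (a (c (l 16776440) (l 16777776)) (b (b (c (a (l 16777008) (l 16777080)) (l 16777744)) (c (l 16777000) (l 16777696))) (l 16776088))) (a (b (b (l 16776272) (a (c (l 16777024) (l 16777704)) (l 16776136))) (b (a (l 16776672) (c (l 16776328) (l 16777664))) (l 16777344))) (b (c (l 16777416) (l 16778032)) (c (b (l 16777112) (a (l 16776960) (l 16776336))) (b (l 16777768) (l 16777408)))))) (a (c (a (l 16776168) (l 16776432)) (l 16777024)) (c (l 16776832) (l 16777288)))))) (a (a (c (c (l 16778656) (l 16779000)) (l 16778872)) (c (b (a (l 16778632) (b (a (l 16777920) (l 16778648)) (l 16777872))) (l 16778616)) (b (a (l 16779368) (b (l 16778040) (l 16779256))) (l 16779304)))) (a (b (a (c (c (b (l 16778696) (l 16777768)) (l 16778248)) (c (l 16777928) (l 16779568))) (c (l 16779016) (l 16779584))) (b (c (a (c (a (l 16778280) (l 16778256)) (l 16778624)) (l 16777928)) (a (l 16778504) (l 16777928))) (a (l 16778136) (a (c (l 16778360) (l 16779056)) (c (a (l 16778360) (l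 16778400)) (l 16779072)))))) (c (c (l 16777776) (l 16778008)) (c (l 16778232) (l 16778464)))))), by decide +kernel⟩

def k43_pm_113_t : ∃ t, chk3 f_pm_113_t t 1020 2045 1 = true :=
  ⟨(a (b (a (c (c (l 16778576) (l 16779112)) (c (l 16779656) (l 16780216))) (c (c (l 16778408) (l 16778952)) (c (l 16779504) (l 16780056)))) (b (c (c (l 16778080) (l 16779192)) (c (l 16779656) (l 16779472))) (c (c (a (l 16778992) (l 16778840)) (a (l 16779392) (l 16779240))) (c (a (l 16779800) (l 16779648)) (a (l 16780208) (l 16780056)))))) (a (c (b (c (l 16778224) (l 16778776)) (c (b (l 16778488) (l 16778672)) (b (l 16778944) (l 16779080)))) (c (b (l 16779328) (c (l 16779336) (l 16779560))) (b (l 16779888) (l 16779400)))) (c (b (c (b (l 16777936) (l 16778104)) (l 16777920)) (c (b (l 16778288) (l 16778488)) (b (l 16778760) (l 16778896)))) (c (b (l 16778480) (c (l 16779152) (l 16779376))) (b (l 16779048) (c (l 16779600) (l 16779832))))))), by decide +kernel⟩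

def k44_pm_113_t : ∃ t, chk3 f_pm_113_t t 2042 2045 1 = true :=
  ⟨(a (c (b (c (b (l 16777704) (l 16777880)) (c (l 16778216) (l 16778496))) (c (b (l 16778072) (l 16778272)) (b (l 16778552) (l 16778688)))) (b (c (c (l 16778784) (l 16779072)) (l 16778856)) (c (c (l 16778960) (l 16779184)) (c (l 16779416) (l 16779648))))) (c (b (c (b (l 16776792) (l 16777632)) (c (l 16777320) (l 16778264))) (c (b (l 16777832) (l 16778040)) (b (l 16778320) (l 16778464)))) (b (c (c (l 16778560) (l 16778856)) (c (l 16779152) (l 16779456))) (c (c (l 16778744) (l 16778976)) (c (l 16779208) (l 16779448)))))), by decide +kernel⟩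

def k45_pm_113_t : ∃ t, chk3 f_pm_113_t t 2043 2045 2 = true :=
  ⟨(b (a (c (b (a (l 16777240) (c (l 16776936) (l 16777248))) (c (l 16777216) (l 16777496))) (b (a (l 16777864) (c (l 16777568) (l 16777888))) (l 16777272))) (b (b (a (b (a (c (a (c (l 16776136) (l 16776464)) (l 16777024)) (l 16777000)) (l 16776208)) (a (c (l 16776624) (l 16777600)) (a (b (l 16776656) (a (l 16776584) (l 16776600))) (l 16776720)))) (c (l 16776200) (l 16778056))) (a (b (a (l 16777312) (a (c (l 16776936) (l 16777584)) (c (a (l 16776920) (l 16776280)) (l 16777568)))) (l 16776496)) (a (b (c (l 16776416) (l 16777680)) (a (c (l 16776912) (l 16777544)) (c (c (l 16776464) (l 16777104)) (l 16777568)))) (c (l 16775912) (l 16777792))))) (a (c (l 16776472) (l 16777720)) (c (b (a (l 16776960) (b (a (a (l 16776896) (l 16776584)) (l 16776984)) (c (l 16776432) (l 16776408)))) (l 16777024)) (a (l 16777120) (b (b (a (l 16777528) (l 16777584)) (l 16777520)) (l 16777576))))))) (a (c (b (c (l 16777432) (l 16777688)) (l 16777128))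 (b (l 16777416) (l 16778224))) (c (a (b (l 16777344) (l 16777568)) (b (l 16776536) (l 16777416))) (b (c (l 16777664) (l 16777928)) (c (l 16777840) (l 16778072)))))), by decide +kernel⟩

def k46_pm_113_t : ∃ t, chk3 f_pm_113_t t 2043 2045 3 = true :=
  ⟨(b (b (a (c (c (l 16777608) (l 16778584)) (c (l 16778912) (l 16779240))) (a (b (a (c (a (l 16778280) (l 16777640)) (l 16777656)) (c (l 16777064) (l 16779008))) (c (c (l 16778096) (l 16778424)) (l 16778256))) (a (b (l 16777832) (c (a (l 16777576) (l 16778272)) (l 16777584))) (c (l 16777216) (l 16777776))))) (a (c (l 16778504) (l 16779088)) (a (c (l 16778312) (l 16778920)) (a (c (l 16777560) (l 16778824)) (b (c (b (l 16778184) (l 16778136)) (l 16778136)) (l 16777816)))))) (c (a (c (l 16777848) (l 16778096)) (b (l 16777680) (l 16777768))) (a (c (l 16778992) (l 16779240)) (c (l 16778432) (l 16778360))))), by decide +kernel⟩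

def k47_pm_113_t : ∃ t, chk3 f_pm_113_t t 2040 1023 1 = true :=
  ⟨(a (b (c (b (b (b (c (a (l 16779048) (l 16779072)) (a (l 16779408) (l 16779424))) (l 16779072)) (l 16778728)) (c (l 16777856) (l 16778168))) (b (b (b (c (l 16779280) (l 16779816)) (l 16779128)) (l 16778752)) (c (l 16777176) (l 16777504)))) (c (c (b (l 16775568) (c (l 16775144) (l 16775272))) (b (l 16775856) (c (l 16775400) (l 16775536)))) (c (b (l 16776800) (b (l 16776656) (l 16776112))) (b (c (l 16777672) (l 16776512)) (b (l 16776928) (a (l 16776360) (l 16776384))))))) (b (c (b (c (b (b (l 16778984) (a (l 16779008) (l 16779024))) (l 16778736)) (b (b (l 16779336) (a (l 16779344) (l 16779352))) (l 16779048))) (c (l 16778016) (l 16778312))) (b (c (b (b (l 16779696) (a (l 16779680) (l 16779680))) (l 16779360)) (b (b (l 16780064) (c (l 16779920) (l 16780088))) (l 16779688))) (c (l 16777296) (l 16777592)))) (c (c (b (l 16775712) (b (l 16776256) (l 16775728))) (b (l 16776632) (b (l 16776496) (l 16775952)))) (c (b (c (l 16777488)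 (l 16776312)) (b (l 16776744) (l 16775696))) (b (c (l 16776448) (l 16776584)) (b (l 16776992) (a (l 16776408) (l 16776440)))))))), by decide +kernel⟩

def k48_pm_113_t : ∃ t, chk3 f_pm_113_t t 2041 1023 1 = true :=
  ⟨(a (b (c (b (b (c (l 16778888) (l 16779224)) (b (c (a (l 16778960) (l 16778976)) (a (l 16779256) (l 16779264))) (l 16778936))) (c (l 16778184) (l 16777144))) (b (b (c (l 16779568) (l 16779912)) (b (c (a (l 16779568) (l 16779560)) (c (l 16779784) (l 16779936))) (l 16778864))) (c (l 16777416) (l 16777688)))) (c (c (b (l 16776520) (b (l 16776384) (l 16775848))) (b (l 16776760) (b (l 16776608) (l 16775728)))) (c (b (c (l 16776280) (l 16776408)) (b (l 16776832) (c (l 16776216) (l 16776320)))) (b (c (l 16776528) (l 16777312)) (b (l 16776400) (c (l 16776424) (l 16776536))))))) (b (c (b (c (b (l 16778696) (b (l 16778864) (a (l 16778896) (l 16778912)))) (b (l 16779040) (b (l 16779160) (a (l 16779168) (l 16779168))))) (a (l 16777784) (b (l 16777456) (l 16778256)))) (b (c (b (l 16779392)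 (b (l 16779456) (a (l 16779440) (l 16779440)))) (b (l 16779744) (b (l 16779760) (c (l 16779304) (l 16779120))))) (b (b (l 16778720) (l 16779104)) (a (l 16778016) (l 16778072))))) (c (b (c (l 16776664) (c (l 16776176) (l 16776280))) (b (c (l 16776520) (l 16776720)) (c (c (l 16775928) (l 16776016)) (c (l 16776112) (l 16776208))))) (c (b (c (l 16776392) (l 16777160)) (b (l 16776920) (c (l 16776296) (l 16776392)))) (b (c (l 16777272) (l 16777384)) (b (l 16776792) (c (l 16776488) (l 16776584)))))))), by decide +kernel⟩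

def k49_pm_113_t : ∃ t, chk3 f_pm_113_t t 2042 1023 1 = true :=
  ⟨(b (b (b (c (c (a (l 16778496) (l 16778264)) (a (l 16778848) (l 16778624))) (c (c (l 16778352) (l 16778536)) (c (l 16778720) (l 16778904)))) (c (a (c (c (l 16778664) (l 16778808)) (c (l 16778944) (l 16779088))) (c (l 16778512) (l 16778800))) (c (a (c (l 16779232) (l 16779376)) (l 16779096)) (a (c (l 16779520) (l 16779664)) (l 16779400))))) (b (b (c (a (c (a (l 16778832) (c (l 16778776) (l 16778888))) (a (l 16779072) (l 16778736))) (c (l 16778696) (l 16778936))) (a (a (c (l 16779312) (l 16779560)) (c (l 16778976) (l 16779216))) (c (l 16779176) (l 16779424)))) (c (a (l 16778112) (a (c (c (l 16778696) (l 16778800)) (l 16778632)) (b (l 16778848) (a (l 16778872) (l 16778864))))) (a (c (l 16779104) (l 16779336)) (a (c (l 16778848) (l 16779064)) (b (l 16779280) (c (l 16779160) (l 16779368))))))) (c (a (l 16777720) (c (l 16777776) (l 16777968))) (c (a (l 16778704) (l 16778168)) (a (l 16778920) (l 16778368)))))) (c (b (c (a (l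 16776656) (c (l 16776272) (l 16776360))) (a (c (l 16776312) (l 16776408)) (c (l 16777104) (l 16777192)))) (b (c (a (l 16776656) (l 16776792)) (a (l 16776832) (l 16776296))) (c (a (c (l 16776056) (l 16776136)) (c (l 16776184) (l 16776256))) (a (c (l 16776216) (l 16776304)) (c (l 16776328) (l 16776080)))))) (b (c (a (c (l 16777160) (l 16777264)) (c (l 16777280) (l 16777200))) (b (a (l 16778352) (l 16778448)) (a (l 16777784) (l 16777208)))) (b (c (a (l 16776360) (l 16776784)) (a (c (l 16777152) (l 16777240)) (c (l 16777232) (l 16777312)))) (b (c (a (l 16776576) (l 16776664)) (a (l 16776752) (l 16776816))) (c (a (l 16776280) (l 16776368)) (a (l 16776448) (c (l 16775824) (l 16776552))))))))), by decide +kernel⟩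

def k50_pm_113_t : ∃ t, chk3 f_pm_113_t t 2043 2046 1 = true :=
  ⟨(c (b (a (c (b (l 16777360) (c (l 16778192) (l 16778344))) (b (l 16777736) (l 16777912))) (c (b (c (l 16777640) (l 16777840)) (c (l 16777920) (l 16778080))) (b (c (l 16778032) (l 16778232)) (c (l 16778240) (l 16778400))))) (b (b (c (a (l 16778464) (l 16778200)) (a (l 16778712) (l 16778464))) (a (c (l 16778600) (l 16778808)) (c (l 16778344) (l 16778568)))) (b (a (b (a (a (l 16778816) (l 16778816)) (l 16778736)) (a (l 16778720) (a (l 16778760) (l 16778432)))) (a (a (l 16778680) (l 16778616)) (l 16777864))) (b (a (l 16778624) (a (c (l 16778288) (l 16778768)) (l 16778616))) (a (l 16778488) (a (l 16778600) (a (l 16778312) (a (l 16778648) (l 16778632))))))))) (b (b (c (a (l 16778768) (l 16778040)) (a (l 16778504) (l 16778608))) (c (a (l 16778224) (c (l 16778560) (l 16778728))) (a (l 16778536) (c (l 16778888) (l 16779056))))) (b (a (c (c (l 16778288) (l 16779064)) (c (l 16779184) (l 16779296))) (c (c (l 16778704) (l 16778832))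 (c (l 16778960) (l 16779088)))) (b (b (a (a (c (l 16779088) (l 16779280)) (l 16778792)) (c (l 16778848) (l 16779056))) (a (a (l 16779080) (c (l 16779008) (l 16779192))) (c (l 16778888) (l 16779072)))) (b (a (l 16778640) (c (a (l 16778936) (l 16778864)) (a (l 16779096) (l 16779032)))) (a (l 16778824) (a (l 16778912) (c (l 16778528) (l 16778680))))))))), by decide +kernel⟩

def k51_pm_113_t : ∃ t, chk3 f_pm_113_t t 2043 2047 1 = true :=
  ⟨(a (b (b (c (c (l 16778056) (l 16778216)) (c (l 16778384) (l 16777888))) (c (a (l 16776880) (l 16776952)) (c (l 16777144) (l 16777296)))) (b (c (c (l 16776272) (l 16776416)) (c (c (l 16777176) (l 16777240)) (c (l 16776656) (l 16776728)))) (a (c (c (l 16776320) (l 16776448)) (c (l 16776256) (a (l 16776056) (l 16776072)))) (b (b (c (l 16776664) (l 16776960)) (l 14)) (l 14))))) (b (c (a (b (l 16778248) (l 16777024)) (b (b (l 16778472) (l 16778184)) (l 16777096))) (b (a (l 16777888) (b (l 16778096) (l 16778456))) (c (l 16777256) (l 16777552)))) (b (a (c (c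 (l 16777032) (l 16777160)) (c (l 16777280) (l 16776752))) (l 14)) (l 14)))), by decide +kernel⟩

def k52_pm_113_t : ∃ t, chk3 f_pm_113_t t 1022 1020 1 = true :=
  ⟨(a (c (b (a (c (b (l 16778072) (l 16777888)) (b (l 16778808) (l 16778624))) (c (b (l 16778304) (l 16778128)) (c (l 16778696) (l 16779016)))) (a (b (c (c (l 16777488) (l 16777864)) (l 16778424)) (c (a (b (l 16777448) (l 16777320)) (l 16777504)) (a (c (l 16777960) (l 16778360)) (l 16778240)))) (c (b (l 16777272) (a (l 16777632) (l 16777776))) (b (l 16778576) (l 16777712))))) (b (c (a (c (l 16779280) (l 16779656)) (c (l 16779344) (l 16779672))) (a (l 16779568) (c (l 16780000) (l 16780336)))) (c (a (b (l 16779184) (c (l 16778136) (l 16779176))) (c (l 16778320) (l 16779312))) (a (b (l 16779960) (c (l 16779568) (l 16779968))) (c (l 16779648) (l 16779992)))))) (b (a (a (c (c (l 16778424) (l 16778984)) (c (l 16779560) (l 16780144))) (c (c (l 16778576) (l 16779088)) (c (l 16779608) (l 16780136)))) (a (c (c (l 16778080) (l 16778544))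 (c (l 16779000) (l 16779472))) (c (c (b (l 16778992) (l 16778840)) (b (l 16779392) (l 16779240))) (c (a (l 16779704) (l 16779080)) (b (l 16780208) (l 16780056)))))) (b (c (a (c (l 16777568) (l 16778776)) (c (a (l 16778488) (l 16778672)) (a (l 16778944) (l 16779080)))) (c (a (l 16779328) (c (l 16779336) (l 16779560))) (a (l 16779888) (c (l 16779776) (l 16780000))))) (c (a (c (a (l 16777936) (l 16778104)) (l 16777840)) (c (a (l 16778288) (l 16778488)) (a (l 16778760) (l 16778896)))) (c (a (l 16778480) (c (l 16779152) (l 16779376))) (a (l 16779048) (c (l 16779600) (l 16779832)))))))), by decide +kernel⟩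

def k53_pm_113_t : ∃ t, chk3 f_pm_113_t t 1022 4084 1 = true :=
  ⟨(a (a (b (a (a (c (b (c (a (l 16777272) (l 16777208)) (l 16777400)) (c (l 16776072) (l 16778152))) (c (l 16778096) (l 16779720))) (c (c (c (b (l 16777056) (l 16776344)) (l 16776760)) (l 16777680)) (c (l 16778808) (l 16779616)))) (c (c (l 16777312) (l 16778064)) (c (l 16778824) (l 16779600)))) (c (a (b (a (l 16776656) (c (a (l 16777312) (l 16776528)) (l 16777376))) (c (l 16777648) (l 16778352))) (a (a (b (l 16776568) (c (l 16776536) (l 16777952))) (c (l 16777160) (l 16777928))) (l 16776280))) (a (c (c (l 16777528) (l 16779208)) (l 16778448)) (a (c (c (l 16778536) (l 16778928)) (l 16779520)) (l 16777792))))) (c (a (c (l 16777384) (l 16778088)) (c (l 16777536) (l 16778192))) (c (c (l 16778656) (l 16779000)) (l 16778872)))) (c (a (c (a (l 16777704) (l 16777880)) (c (l 16778216) (l 16778496))) (c (a (l 16778072) (l 16778272)) (a (l 16778552) (l 16778688)))) (a (c (c (l 16778784) (l 16779072)) (l 16778936)) (c (c (l 16778960)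 (l 16779184)) (c (l 16779416) (l 16779648)))))), by decide +kernel⟩

def k54_pm_113_t : ∃ t, chk3 f_pm_113_t t 1022 4085 1 = true :=
  ⟨(a (c (a (c (a (l 16776952) (b (a (c (b (l 16777120) (l 16777360)) (l 16776296)) (a (b (l 16776456) (l 16777232)) (b (l 16777128) (a (l 16777120) (l 16777080))))) (l 16776392))) (a (l 16777536) (b (a (l 16776832) (b (l 16777872) (a (l 16777968) (l 16777856)))) (l 16777040)))) (a (a (b (c (l 16777144) (l 16777880)) (a (b (c (c (l 16776280) (l 16777304)) (l 16777848)) (l 16776352)) (b (c (l 16777064) (l 16777792)) (c (l 16776488) (l 16777848))))) (b (l 16776264) (a (b (l 16777456) (b (l 16776096) (a (l 16776752) (l 16776072)))) (l 16776144)))) (c (c (l 16777112) (l 16777440)) (l 16777944)))) (a (c (a (l 16776816) (b (a (l 16777552) (a (l 16778032) (l 16778624))) (l 16777688))) (a (l 16777408) (b (c (l 16778688) (l 16779712)) (l 16777040)))) (c (a (b (l 16778632) (a (b (l 16777920) (l 16778648)) (l 16778032))) (l 16778616)) (a (b (l 16779368) (a (l 16778040)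 (l 16779256))) (l 16779304))))) (c (a (c (a (l 16776792) (l 16777632)) (c (l 16777320) (l 16778264))) (c (a (l 16777832) (l 16778040)) (c (l 16777624) (l 16777856)))) (a (c (c (l 16778560) (l 16778856)) (c (l 16779152) (l 16779456))) (c (c (l 16778744) (l 16778976)) (c (l 16779208) (l 16779448)))))), by decide +kernel⟩

def k55_pm_113_t : ∃ t, chk3 f_pm_113_t t 1022 4086 1 = true :=
  ⟨(a (c (a (c (c (l 16776152) (l 16776368)) (c (l 16776584) (l 16776800))) (a (b (b (a (l 16776488) (a (c (l 16777168) (l 16777864)) (c (a (l 16776400) (l 16777016)) (l 16777752)))) (c (l 16776208) (l 16776840))) (c (l 16776600) (l 16777152))) (b (b (c (l 16776440) (l 16777776)) (a (a (c (a (l 16777072) (l 16776688)) (l 16777744)) (c (l 16777000) (l 16777696))) (l 16776088))) (b (a (a (l 16776272) (b (c (l 16776368) (l 16777704)) (l 16776136))) (a (b (l 16776672) (c (l 16776656) (l 16777664))) (l 16777344))) (a (c (l 16777416) (l 16778032)) (a (c (l 16777112) (l 16777768)) (b (c (l 16776960) (l 16777632))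 (c (l 16776336) (l 16777656))))))))) (a (c (l 16778440) (l 16778888)) (a (a (c (l 16777704) (l 16776984)) (c (b (c (l 16777768) (l 16778768)) (l 16778872)) (b (l 16777976) (l 16779464)))) (a (c (b (a (a (l 16777800) (l 16778432)) (l 16778424)) (l 16777928)) (b (l 16778504) (l 16777928))) (b (l 16778136) (b (c (l 16778360) (l 16779056)) (c (a (l 16778432) (l 16778336)) (l 16779072)))))))) (c (a (c (a (b (l 16777240) (c (l 16776936) (l 16777248))) (c (l 16777216) (l 16777496))) (a (b (l 16777864) (c (l 16777568) (l 16777888))) (l 16777272))) (c (a (c (l 16777432) (l 16777688)) (l 16777128)) (a (l 16777416) (l 16778224)))) (a (a (c (c (l 16777608) (l 16778584)) (c (l 16778912) (l 16779240))) (c (l 16778504) (l 16779088))) (c (c (l 16777848) (l 16778096)) (c (l 16778992) (l 16779240)))))), by decide +kernel⟩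

def k56_pm_113_t : ∃ t, chk3 f_pm_113_t t 1022 4087 1 = true :=
  ⟨(a (c (a (c (l 16777976) (l 16778856)) (a (c (l 16777400) (l 16777792)) (c (a (l 16776776) (c (l 16776232) (l 16776496))) (c (l 16776960) (l 16777216))))) (a (c (l 16779072) (l 16779304)) (c (c (a (l 16776776) (l 16777464)) (l 16778008)) (c (l 16778232) (l 16778464))))) (c (a (a (a (b (a (b (c (b (c (l 16776136) (l 16776464)) (l 16777024)) (l 16777160)) (l 16776864)) (b (c (l 16776624) (l 16777600)) (b (a (l 16776656) (a (l 16776600) (l 16776584))) (l 16776392)))) (c (l 16776200) (l 16778056))) (b (b (l 16776680) (a (b (c (l 16776936) (l 16777584)) (c (c (l 16776448) (l 16776432)) (l 16777568))) (l 16775968))) (b (a (c (l 16776416) (l 16777680)) (b (c (l 16776912) (l 16777544)) (c (c (l 16776464) (l 16777104)) (l 16777568)))) (c (l 16775912) (l 16777792))))) (b (c (l 16776472) (l 16777720)) (a (b (c (l 16776960) (l 16777576)) (a (b (c (a (l 16776912) (l 16776888)) (l 16777528)) (c (l 16776328) (l 16777584))) (c (c (l 16776432)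 (l 16776408)) (l 16777520)))) (c (l 16777024) (l 16777608))))) (c (a (b (l 16777344) (l 16776536)) (c (l 16776728) (l 16777608))) (a (c (l 16777664) (l 16777928)) (c (l 16777840) (l 16778072))))) (a (b (c (a (a (b (a (l 16778312) (l 16778264)) (l 16777064)) (c (l 16778096) (l 16778424))) (l 16778312)) (a (a (c (l 16778184) (l 16779168)) (l 16778256)) (l 16778920))) (b (a (a (l 16777832) (c (a (l 16778296) (l 16778200)) (l 16777584))) (c (l 16777560) (l 16778824))) (a (c (l 16777216) (l 16777776)) (a (c (a (l 16778184) (l 16778136)) (l 16778136)) (l 16777816))))) (c (a (c (l 16778200) (l 16778464)) (l 16777768)) (c (l 16778432) (l 16778360)))))), by decide +kernel⟩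

def k57_pm_113_t : ∃ t, chk3 f_pm_113_t t 2046 1020 1 = true :=
  ⟨(c (a (a (b (a (b (c (b (l 16779048) (l 16779072)) (b (l 16779408) (l 16779424))) (c (l 16778984) (l 16779336))) (b (l 16779072) (c (b (l 16779008) (l 16779024)) (b (l 16779344) (l 16779352))))) (b (c (l 16778888) (l 16779224)) (c (l 16778696) (l 16779040)))) (a (b (c (l 16778768) (l 16779096)) (b (c (b (l 16778960) (l 16778976)) (b (l 16779256) (l 16779264))) (c (l 16778864) (l 16779160)))) (b (l 16778032) (b (l 16778936) (c (b (l 16778896) (l 16778912)) (b (l 16779168) (l 16779168))))))) (a (b (c (l 16778176) (l 16778488)) (b (l 16778568) (c (l 16778600) (l 16778856)))) (b (c (l 16777696) (l 16777992)) (c (l 16778016) (l 16778264))))) (a (b (a (a (b (c (c (l 16779680) (l 16779864)) (l 16779816)) (c (l 16779696) (l 16780064))) (b (l 16779128) (c (b (l 16779680) (l 16779680)) (c (l 16779920) (l 16780088))))) (b (l 16778752) (a (l 16779000) (l 16779400)))) (a (c (b (l 16779568) (l 16779392)) (b (l 16779912) (l 16779744)))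 (a (b (c (b (l 16779568) (l 16779560)) (c (l 16779784) (l 16779936))) (c (l 16779456) (l 16779760))) (b (l 16778864) (a (c (l 16779144) (l 16779096)) (c (l 16779408) (l 16779680))))))) (b (c (b (l 16777176) (l 16777296)) (b (l 16777504) (l 16777592))) (b (c (l 16777416) (l 16777688)) (a (a (l 16778800) (l 16779104)) (a (l 16778840) (l 16777912))))))), by decide +kernel⟩

def k58_pm_113_t : ∃ t, chk3 f_pm_113_t t 4092 1021 1 = true :=
  ⟨(a (b (c (c (b (l 16778496) (l 16778264)) (b (l 16778848) (l 16778624))) (c (c (l 16778520) (l 16778536)) (c (l 16778720) (l 16778904)))) (c (b (c (c (l 16777920) (l 16778112)) (l 16777736)) (c (c (l 16777640) (l 16777840)) (c (l 16778032) (l 16778232)))) (c (b (l 16778112) (c (l 16778432) (l 16778632))) (b (l 16778504) (l 16778608))))) (b (c (b (c (c (l 16778664) (l 16778808)) (c (l 16778944) (l 16779088))) (c (l 16778512) (l 16778800))) (c (b (c (l 16779232) (l 16779376)) (l 16779096)) (b (c (l 16779520) (l 16779664)) (l 16779400)))) (c (b (c (c (l 16778192)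 (l 16778344)) (l 16778080)) (c (c (l 16777920) (l 16778080)) (c (l 16778240) (l 16778400)))) (c (b (l 16778224) (c (l 16778560) (l 16778728))) (b (l 16778536) (c (l 16778888) (l 16779056))))))), by decide +kernel⟩

def k59_pm_113_t : ∃ t, chk3 f_pm_113_t t 4093 1021 1 = true :=
  ⟨(a (a (b (c (b (b (c (l 16778832) (l 16779072)) (a (l 16778952) (a (l 16778976) (l 16778952)))) (c (l 16778696) (l 16778936))) (b (b (c (l 16779312) (l 16779560)) (c (l 16778976) (l 16779216))) (c (l 16779176) (l 16779424)))) (c (c (b (l 16778464) (l 16778200)) (b (l 16778712) (l 16778464))) (c (b (l 16778968) (l 16778736)) (b (l 16779224) (l 16779008))))) (b (c (b (l 16778112) (a (b (a (l 16778928) (l 16778904)) (l 16778848)) (b (l 16778824) (a (l 16778880) (l 16778856))))) (b (c (l 16779104) (l 16779336)) (b (c (l 16778848) (l 16779064)) (a (l 16779280) (c (l 16779160) (l 16779368)))))) (c (b (c (l 16778600) (l 16778808)) (c (l 16778344) (l 16778568))) (c (b (l 16779024) (l 16778800)) (b (l 16778592) (l 16779032))))))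 (b (c (b (l 16777720) (c (l 16777776) (l 16777968))) (c (b (l 16778704) (l 16778168)) (b (l 16778920) (l 16778368)))) (a (b (a (b (c (a (l 16778496) (l 16778800)) (c (l 16779088) (l 16779280))) (c (l 16778736) (l 16778792))) (b (c (l 16778720) (l 16779080)) (c (b (l 16778760) (l 16778432)) (c (l 16779008) (l 16779192))))) (b (c (a (l 16778616) (l 16778680)) (a (l 16779008) (l 16778704))) (c (l 16778192) (c (l 16778808) (l 16779008))))) (a (c (b (l 16778624) (b (c (l 16778288) (l 16778768)) (l 16778616))) (b (l 16778560) (c (b (l 16778936) (l 16778864)) (b (l 16779096) (l 16779032))))) (c (b (l 16778488) (b (l 16778600) (b (l 16778312) (a (l 16778632) (l 16778640))))) (b (l 16778824) (b (l 16778912) (c (l 16778528) (l 16778680))))))))), by decide +kernel⟩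

def k60_pm_113_t : ∃ t, chk3 f_pm_113_t t 4094 510 1 = true :=
  ⟨(b (c (b (c (b (l 16775568) (l 16775712)) (b (l 16775856) (l 16776632))) (c (b (l 16776520) (l 16776664)) (b (l 16776760) (c (l 16776176) (l 16776280))))) (b (c (b (l 16776800) (c (l 16777488) (l 16776312))) (b (c (l 16777672) (l 16776512)) (c (l 16776448) (l 16776584)))) (c (b (c (l 16776280) (l 16776408)) (c (l 16776392) (l 16777160))) (b (c (l 16776528) (l 16777312)) (c (l 16777272) (l 16777384)))))) (a (b (b (c (a (l 16777976) (l 16777704)) (c (l 16778144) (l 16778352))) (c (c (l 16777896) (l 16778080)) (b (l 16777672) (l 16777728)))) (c (a (b (l 16778280) (c (l 16778360) (l 16778504))) (c (l 16777344) (l 16777656))) (b (c (l 16778384) (l 16777888)) (b (l 16777888) (a (l 16778096) (l 16778456)))))) (c (b (b (c (l 16777200) (l 16777392)) (c (l 16777352) (l 16777520))) (c (b (l 16777504) (l 16777648)) (b (l 16777648) (l 16777128)))) (b (b (c (l 16777584) (l 16777784)) (c (l 16777688) (l 16777208))) (c (b (l 16777144)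 (l 16777256)) (b (l 16777296) (l 16777552))))))), by decide +kernel⟩

def k61_pm_113_t : ∃ t, chk3 f_pm_113_t t 4095 510 1 = true :=
  ⟨(b (a (c (b (c (b (l 16776120) (l 16776256)) (b (l 16776384) (l 16776496))) (b (c (l 16776384) (l 16776608)) (c (l 16776520) (l 16776720)))) (b (b (c (l 16776656) (l 16776928)) (c (l 16776744) (l 16776992))) (b (c (l 16776832) (l 16776400)) (c (l 16776920) (l 16776792))))) (c (b (c (b (l 16774952) (l 16775728)) (b (l 16775856) (l 16775952))) (c (b (l 16775848) (c (l 16775928) (l 16776016))) (b (l 16775728) (c (l 16776112) (l 16776208))))) (b (b (c (l 16776112) (a (l 16776512) (l 16775576))) (c (a (l 16776328) (l 16775392)) (a (l 16776568) (l 16775624)))) (c (b (c (l 16776216) (l 16776320)) (c (l 16776296) (l 16776392))) (b (c (l 16776424) (l 16776536)) (c (l 16776488) (l 16776584))))))) (b (a (c (c (b (l 16776656) (l 16776792)) (b (l 16776832) (l 16776296))) (c (b (l 16776360) (l 16776784)) (b (c (l 16777152) (l 16777240)) (c (l 16777232) (l 16777312)))))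 (c (c (b (c (l 16776056) (l 16776136)) (c (l 16776184) (l 16776256))) (b (c (l 16776216) (l 16776304)) (c (l 16776328) (l 16776080)))) (a (c (b (l 16776576) (l 16776664)) (b (l 16776752) (l 16776816))) (c (b (l 16776280) (l 16776368)) (b (l 16776448) (c (l 16775824) (l 16776552))))))) (b (a (c (c (l 16776272) (l 16776744)) (c (c (l 16777176) (l 16777240)) (c (l 16776656) (l 16776728)))) (a (c (b (l 16776528) (l 16776592)) (c (l 16776760) (l 16776728))) (b (c (a (l 16775984) (l 16776000)) (c (l 16776432) (l 16776568))) (l 14)))) (a (a (c (c (l 16777216) (l 16777336)) (c (l 16777464) (l 16777584))) (l 14)) (l 14))))), by decide +kernel⟩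

def k62_pm_113_t : ∃ t, chk3 f_pm_113_t t 2044 1022 4 = true :=
  ⟨(b (a (b (l 16778424) (c (l 16776712) (l 16776832))) (b (c (l 16776712) (l 16776832)) (l 16778568))) (b (a (b (c (l 16776712) (l 16776920)) (a (a (a (b (b (l 16777104) (a (l 16776576) (l 16776936))) (l 16776928)) (b (l 16777136) (b (b (l 16776896) (l 16776872)) (l 16776912)))) (b (l 16777344) (b (c (l 16776888) (l 16777176)) (a (c (l 16776400) (l 16776368)) (b (l 16776936) (l 16776544)))))) (c (l 16776128) (l 16776360)))) (b (l 16777960) (c (l 16777024) (l 16777168)))) (a (b (b (a (c (l 16776832) (l 16777112)) (b (a (a (b (l 16776224) (l 16776856)) (l 16776296)) (l 16777144)) (b (a (a (l 16776880) (l 16776520)) (l 16776336)) (a (l 16776888) (a (c (l 16776384) (l 16776336)) (l 16776944)))))) (a (l 16777088) (a (l 16776960) (a (l 16776896) (b (b (c (l 16776400) (l 16776344)) (l 16776840)) (l 16776888)))))) (a (l 16776768) (c (l 16776976) (l 16777224)))) (b (b (c (l 16776344) (l 16776544)) (a (a (b (c (c (l 16776488) (l 16776944))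 (l 16777136)) (a (b (l 16776512) (l 16776856)) (b (l 16776904) (c (l 16776544) (l 16776320))))) (l 16776520)) (l 16776296))) (a (b (b (a (l 16776880) (b (a (a (l 16776824) (l 16776864)) (l 16776968)) (a (l 16776832) (l 16776544)))) (b (a (l 16776928) (a (l 16776864) (a (l 16776824) (l 16776824)))) (l 16776912))) (l 16776336)) (b (b (l 16776624) (a (b (l 16776312) (a (a (l 16776816) (l 16776832)) (l 16776928))) (l 16777200))) (a (a (l 16776224) (b (b (a (l 16776488) (l 16776856)) (l 16776824)) (l 16776872))) (a (b (a (b (l 16776920) (l 16776504)) (l 16776944)) (b (a (l 16776816) (l 16776488)) (l 16776840))) (b (l 16777048) (b (l 16776888) (a (l 16776808) (l 16776504)))))))))))), by decide +kernel⟩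

def k63_pm_113_t : ∃ t, chk3 f_pm_113_t t 2044 1022 5 = true :=
  ⟨(b (a (b (l 16778424) (c (l 16776944) (l 16777056))) (b (c (l 16776944) (l 16777056)) (l 16778568))) (b (a (b (c (l 16777120) (l 16776016)) (b (a (a (c (c (l 16776792) (l 16777592)) (l 16777160)) (l 16777864)) (l 16778200)) (a (b (a (a (l 16777496) (l 16776832)) (l 16777600)) (a (l 16777520) (a (l 16777464) (l 16776832)))) (l 16777016)))) (c (l 16777704) (l 16777824))) (a (a (b (c (l 16776784) (l 16777712)) (l 16777744)) (b (a (b (b (a (l 16777120) (l 16777504)) (l 16777112)) (l 16777504)) (a (b (b (l 16777608) (l 16776800)) (l 16777440)) (b (l 16777624) (b (a (l 16777400) (l 16777408)) (l 16777424))))) (l 16776936))) (b (a (b (l 16776600) (a (b (l 16776872) (a (l 16777392) (c (l 16777280) (l 16777552)))) (l 16776344))) (l 16777208)) (b (a (a (l 16776776) (b (a (c (l 16776920) (l 16777512)) (l 16777440)) (c (l 16776912) (l 16777504)))) (b (l 16776408) (a (a (a (l 16777032) (l 16777392)) (l 16777464)) (l 16777640)))) (a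 (l 16777480) (a (b (a (l 16777360) (a (l 16777336) (l 16777016))) (l 16777384)) (b (c (l 16777344) (l 16777584)) (a (c (l 16776872) (l 16776792)) (b (l 16777376) (l 16776992))))))))))), by decide +kernel⟩

def k64_pm_113_t : ∃ t, chk3 f_pm_113_t t 2045 2044 4 = true :=
  ⟨(a (b (a (c (l 16776712) (l 16776920)) (b (b (b (a (a (l 16777104) (a (l 16776952) (l 16776888))) (l 16776928)) (a (l 16777136) (a (a (l 16776896) (l 16776872)) (l 16776912)))) (a (l 16777344) (a (c (l 16776240) (l 16777176)) (b (c (l 16776400) (l 16776368)) (a (l 16776936) (l 16776544)))))) (c (l 16776128) (l 16776360)))) (a (l 16777960) (c (l 16777024) (l 16777168)))) (b (a (a (b (b (l 16777016) (l 16776280)) (a (b (b (a (l 16776552) (l 16776856)) (l 16776624)) (l 16777144)) (a (b (b (l 16776880) (l 16776520)) (l 16776336)) (b (l 16776888) (b (c (l 16776384) (l 16776336)) (l 16776944)))))) (b (l 16777088) (b (l 16776960) (a (a (b (l 16776856) (c (l 16776400) (l 16776344))) (l 16776536)) (l 16776904))))) (b (c (l 16777144)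 (l 16777384)) (c (l 16776320) (l 16777224)))) (a (a (c (l 16776344) (l 16776544)) (b (b (a (c (c (l 16776488) (l 16776944)) (l 16777136)) (a (b (c (l 16776376) (l 16776320)) (l 16776904)) (b (l 16776856) (a (l 16776840) (l 16776824))))) (l 16776520)) (l 16776952))) (b (a (a (b (l 16776880) (a (b (c (l 16776480) (l 16776328)) (l 16776968)) (b (l 16776832) (l 16776544)))) (a (b (l 16776928) (a (b (l 16776856) (l 16776496)) (l 16776848))) (l 16776912))) (l 16776336)) (a (b (a (l 16777128) (a (l 16776312) (b (a (l 16776504) (l 16776816)) (l 16776928)))) (l 16776000)) (b (b (l 16776224) (a (a (b (l 16776488) (l 16776856)) (l 16776824)) (l 16776872))) (b (a (a (l 16776960) (a (l 16776880) (l 16776512))) (a (b (l 16776816) (l 16776488)) (l 16776840))) (a (l 16777048) (a (l 16776888) (b (l 16776808) (l 16776504))))))))))), by decide +kernel⟩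

def k65_pm_113_t : ∃ t, chk3 f_pm_113_t t 2045 2044 5 = true :=
  ⟨(b (a (a (c (l 16777120) (l 16776016)) (b (a (a (l 16777848) (a (l 16777056) (b (l 16776880) (l 16777728)))) (a (b (a (l 16777168) (l 16777488)) (l 16777600)) (b (l 16777520) (a (l 16777168) (l 16776808))))) (c (l 16776592) (l 16776824)))) (b (a (c (l 16776784) (l 16777712)) (l 16777744)) (a (a (b (a (b (l 16777120) (l 16777504)) (l 16777112)) (a (l 16777664) (b (l 16776800) (l 16777536)))) (a (b (l 16777480) (a (a (l 16777088) (l 16777408)) (l 16777416))) (l 16777488))) (l 16777104)))) (a (c (l 16777376) (l 16777824)) (a (b (a (l 16776600) (b (a (l 16776872) (b (l 16777392) (c (l 16777280) (l 16777552)))) (l 16777000))) (l 16777208)) (b (a (b (l 16776776) (a (b (c (l 16777080) (l 16777512)) (l 16777440)) (c (l 16776912) (l 16777504)))) (l 16777480)) (a (a (l 16776408) (b (a (l 16777464) (b (l 16777344) (l 16777416))) (l 16777640))) (a (a (b (b (l 16777344) (l 16777352)) (l 16777496)) (b (l 16777344) (l 16776760))) (b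 (l 16777384) (b (c (l 16776872) (l 16776792)) (a (l 16777376) (l 16776992)))))))))), by decide +kernel⟩

def k66_pm_113_t : ∃ t, chk3 f_pm_113_t t 2045 2045 2 = true :=
  ⟨(b (b (a (c (l 16778416) (l 16778472)) (c (a (l 16777112) (b (c (l 16776304) (l 16776832)) (l 16776704))) (a (l 16777352) (c (l 16776832) (l 16777344))))) (a (c (l 16778280) (l 16778344)) (c (c (l 16776896) (l 16777320)) (c (l 16777408) (l 16777504))))) (a (a (c (b (l 16777112) (a (c (l 16776632) (l 16776832)) (l 16776704))) (b (l 16777352) (c (l 16776832) (l 16777344)))) (c (c (l 16777224) (l 16777320)) (b (l 16777840) (l 16777408)))) (a (a (b (l 16778520) (l 14)) (l 14)) (l 14)))), by decide +kernel⟩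

def k67_pm_113_t : ∃ t, chk3 f_pm_113_t t 2044 1022 3 = true :=
  ⟨(b (a (c (c (l 16778456) (l 16778512)) (c (l 16778576) (l 16779288))) (c (c (l 16778360) (l 16778584)) (c (l 16778968) (l 16779032)))) (b (a (a (b (c (l 16777464) (l 16777936)) (b (c (c (l 16777536) (l 16778472)) (l 16778240)) (a (c (a (l 16778120) (l 16777768)) (l 16778056)) (c (b (l 16778176) (l 16777424)) (l 16778072))))) (c (c (l 16777392) (l 16777600)) (c (l 16777808) (l 16778024)))) (c (c (l 16777944) (l 16778064)) (c (l 16778184) (l 16778312)))) (c (a (b (b (a (l 16777448) (b (a (l 16777408) (l 16778192)) (a (l 16778016) (l 16777400)))) (a (l 16778152) (a (l 16778048) (b (l 16777568) (l 16777992))))) (c (l 16778040) (l 16778288))) (b (a (a (b (l 16778280) (b (l 16778056) (c (l 16777824) (l 16778096)))) (l 16777480)) (l 16777248)) (b (a (a (l 16777960) (b (a (l 16777912) (l 16777952)) (l 16777896))) (a (c (l 16777568) (l 16777480)) (l 16778176))) (a (l 16777976) (b (a (a (l 16777872) (l 16777200)) (l 16777288)) (a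 (l 16777880) (a (l 16777832) (l 16777192)))))))) (b (b (a (a (l 16778032) (c (a (l 16778480) (l 16778536)) (l 16778472))) (l 16778288)) (a (a (l 16778696) (c (l 16778432) (l 16778720))) (a (c (a (l 16777768) (l 16778512)) (l 16778080)) (l 16777496)))) (b (a (l 16778648) (a (a (l 16778496) (a (l 16777800) (l 16777800))) (c (l 16777792) (l 16778688)))) (a (l 16778672) (a (l 16778480) (a (a (l 16778400) (l 16778048)) (b (l 16778432) (l 16777688)))))))))), by decide +kernel⟩

def k68_pm_113_t : ∃ t, chk3 f_pm_113_t t 2045 2044 3 = true :=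
  ⟨(a (b (b (a (c (l 16777464) (l 16777936)) (a (c (c (l 16777536) (l 16778472)) (l 16778240)) (b (c (c (l 16777952) (l 16778256)) (l 16778056)) (c (a (l 16778176) (l 16777424)) (l 16778072))))) (c (c (l 16777392) (l 16777600)) (c (l 16777808) (l 16778024)))) (c (c (l 16777944) (l 16778064)) (c (l 16778184) (l 16778312)))) (c (b (a (a (b (l 16777448) (a (b (l 16777408) (l 16778192)) (b (l 16778016) (l 16777400)))) (a (b (l 16778144) (c (b (l 16777896) (l 16777840)) (l 16778152))) (l 16778096))) (c (l 16778040) (l 16778288))) (a (b (a (l 16777056) (b (a (l 16778056) (a (l 16777960) (l 16777936))) (l 16776832))) (l 16777904)) (a (b (b (l 16777960) (a (a (l 16777960) (l 16777256)) (l 16777896))) (b (c (l 16777400) (l 16777480)) (l 16778176))) (b (l 16777976) (a (b (a (l 16777536) (l 16777856)) (l 16777288)) (b (l 16777880) (a (l 16777520) (l 16777496)))))))) (a (a (b (b (l 16778032) (c (b (l 16778480) (l 16778536)) (l 16778472))) (l 16778288)) (b (b (l 16778696) (c (l 16778432) (l 16778720)))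 (b (c (b (l 16777768) (l 16778512)) (l 16778080)) (l 16777496)))) (a (b (l 16778648) (b (b (l 16778496) (a (l 16778480) (l 16778432))) (c (l 16777792) (l 16778688)))) (b (l 16778672) (b (l 16778480) (a (b (l 16778384) (l 16778432)) (b (l 16778384) (l 16777688))))))))), by decide +kernel⟩

def k69_pm_113_t : ∃ t, chk3 f_pm_113_t t 2045 2045 3 = true :=
  ⟨(b (a (c (c (l 16777400) (l 16777400)) (c (l 16777400) (l 16778712))) (b (a (c (l 16777600) (l 16777856)) (c (c (l 16776880) (l 16777064)) (c (l 16777256) (l 16777448)))) (c (c (l 16777600) (l 16777696)) (c (l 16777792) (l 16777888))))) (a (a (b (c (l 16777600) (l 16777856)) (c (c (l 16776880) (l 16777064)) (c (l 16777256) (l 16777448)))) (c (c (l 16777600) (l 16777696)) (c (l 16777792) (l 16777888)))) (c (c (l 16778208) (l 16778208)) (c (l 16778208) (l 16778208))))), by decide +kernel⟩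

def k70_pm_113_t : ∃ t, chk3 f_pm_113_t t 1022 1023 1 = true :=
  ⟨(b (a (b (a (c (a (c (b (l 16777512) (l 16777776)) (b (l 16777920) (l 16778112))) (c (b (c (l 16777248) (l 16777456)) (l 16776968)) (b (l 16777120) (l 16777968)))) (c (b (c (l 16778160) (l 16778376)) (c (l 16778304) (l 16778480))) (b (c (l 16778592) (l 16778800)) (c (l 16778648) (l 16778832))))) (a (b (c (c (c (l 16776424) (l 16777296)) (c (l 16777512) (l 16777728))) (c (l 16777408) (l 16778512))) (c (c (c (l 16777376) (l 16777552)) (l 16777168)) (c (l 16778184) (l 16777904)))) (c (b (b (a (b (l 16776536) (l 16776592)) (c (c (l 16776784) (l 16777016)) (l 16777048))) (c (l 16776424) (l 16777512))) (a (c (l 16776680) (l 16777704)) (l 14))) (c (b (c (b (l 16777768) (l 16777840)) (l 16777704)) (l 16777712)) (b (c (l 16777608) (l 16778496)) (l 16777776)))))) (b (a (a (c (c (l 16778064) (l 16778320)) (c (l 16778584) (l 16778848))) (c (c (l 16777416) (l 16777528)) (c (l 16777800) (l 16778080)))) (a (a (b (c (l 16777864) (l 16777984))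 (l 14)) (l 14)) (l 14))) (a (b (c (c (l 16777880) (l 16777760)) (c (l 16777968) (l 16778184))) (a (c (c (l 16778440) (l 16778600)) (c (l 16778760) (l 16778928))) (l 14))) (l 14)))) (b (b (b (b (b (b (a (a (a (a (c (c (l 16776520) (l 16777328)) (l 16777408)) (l 14)) (l 14)) (l 14)) (l 14)) (l 14)) (l 14)) (l 14)) (l 14)) (l 14)) (l 14))) (a (a (a (a (a (b (b (b (c (l 16777856) (l 16778456)) (l 14)) (l 14)) (l 14)) (l 14)) (l 14)) (l 14)) (l 14)) (l 14))), by decide +kernel⟩

def k71_pm_113_t : ∃ t, chk3 f_pm_113_t t 1023 511 1 = true :=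
  ⟨(b (a (b (a (a (b (b (c (c (l 16776856) (l 16777920)) (c (l 16778336) (l 16778760))) (c (c (c (l 16777248) (l 16777456)) (l 16777120)) (c (l 16778200) (l 16778632)))) (c (a (c (b (l 16777120) (a (c (l 16776792) (l 16777032)) (l 16776976))) (b (l 16777576) (c (l 16776632) (l 16777528)))) (c (b (l 16777256) (l 16776424)) (c (l 16777160) (l 16777696)))) (b (c (l 16777408) (l 16778512)) (c (c (a (l 16777768) (l 16777840)) (l 16777704)) (c (l 16777608) (l 16778496)))))) (b (a (c (c (l 16776976) (l 16777992)) (c (l 16778360) (l 16778728))) (c (c (l 16777120) (l 16777440)) (c (l 16778424) (l 16778096)))) (b (c (c (c (l 16777376) (l 16777552)) (l 16777168)) (c (l 16777528) (l 16777904))) (a (c (c (l 16777224) (l 16777616)) (c (l 16778008) (l 16778416))) (l 14))))) (a (b (a (c (c (l 16777256) (l 16777544)) (c (l 16777832) (l 16778120))) (c (c (l 16777736) (l 16777648)) (c (l 16777896) (l 16778152)))) (b (a (a (c (l 16777800) (l 16777936)) (l 14)) (l 14)) (l 14))) (b (a (c (c (l 16777880) (l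 16777760)) (c (l 16777968) (l 16778184))) (b (c (c (l 16778440) (l 16778600)) (c (l 16778760) (l 16778928))) (l 14))) (l 14)))) (a (b (a (a (a (a (a (b (b (b (c (c (l 16776520) (l 16777328)) (l 16777408)) (l 14)) (l 14)) (l 14)) (l 14)) (l 14)) (l 14)) (l 14)) (l 14)) (l 14)) (l 14))) (b (b (b (b (b (a (a (a (c (l 16777856) (l 16778456)) (l 14)) (l 14)) (l 14)) (l 14)) (l 14)) (l 14)) (l 14)) (l 14))) (l 14)), by decide +kernel⟩

theorem s72_pm_113_t : ∃ t, chk3 f_pm_113_t t 2045 1022 3 = true := ex3_b k68_pm_113_t k69_pm_113_t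

theorem s73_pm_113_t : ∃ t, chk3 f_pm_113_t t 1022 1022 3 = true := ex3_a k67_pm_113_t s72_pm_113_t

theorem s74_pm_113_t : ∃ t, chk3 f_pm_113_t t 2045 2044 2 = true := ex3_c k64_pm_113_t k65_pm_113_t

theorem s75_pm_113_t : ∃ t, chk3 f_pm_113_t t 2045 1022 2 = true := ex3_b s74_pm_113_t k66_pm_113_t

theorem s76_pm_113_t : ∃ t, chk3 f_pm_113_t t 2044 1022 2 = true := ex3_c k62_pm_113_t k63_pm_113_t

theorem s77_pm_113_t : ∃ t, chk3 f_pm_113_t t 1022 1022 2 = true := ex3_a s76_pm_113_t s75_pm_113_t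

theorem s78_pm_113_t : ∃ t, chk3 f_pm_113_t t 1022 1022 1 = true := ex3_c s77_pm_113_t s73_pm_113_t

theorem s79_pm_113_t : ∃ t, chk3 f_pm_113_t t 1022 511 1 = true := ex3_b s78_pm_113_t k70_pm_113_t

theorem s80_pm_113_t : ∃ t, chk3 f_pm_113_t t 511 511 1 = true := ex3_a s79_pm_113_t k71_pm_113_t

theorem s81_pm_113_t : ∃ t, chk3 f_pm_113_t t 2047 510 1 = true := ex3_a k60_pm_113_t k61_pm_113_t

theorem s82_pm_113_t : ∃ t, chk3 f_pm_113_t t 2046 1021 1 = true := ex3_a k58_pm_113_t k59_pm_113_t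

theorem s83_pm_113_t : ∃ t, chk3 f_pm_113_t t 2046 510 1 = true := ex3_b k57_pm_113_t s82_pm_113_t

theorem s84_pm_113_t : ∃ t, chk3 f_pm_113_t t 1023 510 1 = true := ex3_a s83_pm_113_t s81_pm_113_t

theorem s85_pm_113_t : ∃ t, chk3 f_pm_113_t t 1022 2043 1 = true := ex3_b k55_pm_113_t k56_pm_113_t

theorem s86_pm_113_t : ∃ t, chk3 f_pm_113_t t 1022 2042 1 = true := ex3_b k53_pm_113_t k54_pm_113_t

theorem s87_pm_113_t : ∃ t, chk3 f_pm_113_t t 1022 1021 1 = true := ex3_b s86_pm_113_t s85_pm_113_t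

theorem s88_pm_113_t : ∃ t, chk3 f_pm_113_t t 1022 510 1 = true := ex3_b k52_pm_113_t s87_pm_113_t

theorem s89_pm_113_t : ∃ t, chk3 f_pm_113_t t 511 510 1 = true := ex3_a s88_pm_113_t s84_pm_113_t

theorem s90_pm_113_t : ∃ t, chk3 f_pm_113_t t 511 255 1 = true := ex3_b s89_pm_113_t s80_pm_113_t

theorem s91_pm_113_t : ∃ t, chk3 f_pm_113_t t 2043 1023 1 = true := ex3_b k50_pm_113_t k51_pm_113_t

theorem s92_pm_113_t : ∃ t, chk3 f_pm_113_t t 1021 1023 1 = true := ex3_a k49_pm_113_t s91_pm_113_t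

theorem s93_pm_113_t : ∃ t, chk3 f_pm_113_t t 1020 1023 1 = true := ex3_a k47_pm_113_t k48_pm_113_t

theorem s94_pm_113_t : ∃ t, chk3 f_pm_113_t t 510 1023 1 = true := ex3_a s93_pm_113_t s92_pm_113_t

theorem s95_pm_113_t : ∃ t, chk3 f_pm_113_t t 2043 2045 1 = true := ex3_c k45_pm_113_t k46_pm_113_t

theorem s96_pm_113_t : ∃ t, chk3 f_pm_113_t t 1021 2045 1 = true := ex3_a k44_pm_113_t s95_pm_113_t

theorem s97_pm_113_t : ∃ t, chk3 f_pm_113_t t 510 2045 1 = true := ex3_a k43_pm_113_t s96_pm_113_t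

theorem s98_pm_113_t : ∃ t, chk3 f_pm_113_t t 510 4089 1 = true := ex3_a k41_pm_113_t k42_pm_113_t

theorem s99_pm_113_t : ∃ t, chk3 f_pm_113_t t 510 2044 1 = true := ex3_b k40_pm_113_t s98_pm_113_t

theorem s100_pm_113_t : ∃ t, chk3 f_pm_113_t t 510 1022 1 = true := ex3_b s99_pm_113_t s97_pm_113_t

theorem s101_pm_113_t : ∃ t, chk3 f_pm_113_t t 510 511 1 = true := ex3_b s100_pm_113_t s94_pm_113_t

theorem s102_pm_113_t : ∃ t, chk3 f_pm_113_t t 1021 1020 1 = true := ex3_b k37_pm_113_t k38_pm_113_t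

theorem s103_pm_113_t : ∃ t, chk3 f_pm_113_t t 1021 510 1 = true := ex3_b s102_pm_113_t k39_pm_113_t

theorem s104_pm_113_t : ∃ t, chk3 f_pm_113_t t 1020 510 1 = true := ex3_a k35_pm_113_t k36_pm_113_t

theorem s105_pm_113_t : ∃ t, chk3 f_pm_113_t t 510 510 1 = true := ex3_a s104_pm_113_t s103_pm_113_t

theorem s106_pm_113_t : ∃ t, chk3 f_pm_113_t t 510 255 1 = true := ex3_b s105_pm_113_t s101_pm_113_t

theorem s107_pm_113_t : ∃ t, chk3 f_pm_113_t t 255 255 1 = true := ex3_a s106_pm_113_t s90_pm_113_t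

theorem s108_pm_113_t : ∃ t, chk3 f_pm_113_t t 1023 509 1 = true := ex3_a k33_pm_113_t k34_pm_113_t

theorem s109_pm_113_t : ∃ t, chk3 f_pm_113_t t 1022 509 1 = true := ex3_a k31_pm_113_t k32_pm_113_t

theorem s110_pm_113_t : ∃ t, chk3 f_pm_113_t t 511 509 1 = true := ex3_a s109_pm_113_t s108_pm_113_t

theorem s111_pm_113_t : ∃ t, chk3 f_pm_113_t t 511 1017 1 = true := ex3_a k29_pm_113_t k30_pm_113_t

theorem s112_pm_113_t : ∃ t, chk3 f_pm_113_t t 511 508 1 = true := ex3_b k28_pm_113_t s111_pm_113_t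

theorem s113_pm_113_t : ∃ t, chk3 f_pm_113_t t 511 254 1 = true := ex3_b s112_pm_113_t s110_pm_113_t

theorem s114_pm_113_t : ∃ t, chk3 f_pm_113_t t 510 1019 1 = true := ex3_b k26_pm_113_t k27_pm_113_t

theorem s115_pm_113_t : ∃ t, chk3 f_pm_113_t t 510 509 1 = true := ex3_b k25_pm_113_t s114_pm_113_t

theorem s116_pm_113_t : ∃ t, chk3 f_pm_113_t t 510 254 1 = true := ex3_b k24_pm_113_t s115_pm_113_t

theorem s117_pm_113_t : ∃ t, chk3 f_pm_113_t t 255 254 1 = true := ex3_a s116_pm_113_t s113_pm_113_t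

theorem s118_pm_113_t : ∃ t, chk3 f_pm_113_t t 255 127 1 = true := ex3_b s117_pm_113_t s107_pm_113_t

theorem s119_pm_113_t : ∃ t, chk3 f_pm_113_t t 509 511 3 = true := ex3_b k22_pm_113_t k23_pm_113_t

theorem s120_pm_113_t : ∃ t, chk3 f_pm_113_t t 509 511 2 = true := ex3_b k20_pm_113_t k21_pm_113_t

theorem s121_pm_113_t : ∃ t, chk3 f_pm_113_t t 509 511 1 = true := ex3_c s120_pm_113_t s119_pm_113_t

theorem s122_pm_113_t : ∃ t, chk3 f_pm_113_t t 1017 511 1 = true := ex3_c k18_pm_113_t k19_pm_113_t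

theorem s123_pm_113_t : ∃ t, chk3 f_pm_113_t t 508 511 1 = true := ex3_a k17_pm_113_t s122_pm_113_t

theorem s124_pm_113_t : ∃ t, chk3 f_pm_113_t t 254 511 1 = true := ex3_a s123_pm_113_t s121_pm_113_t

theorem s125_pm_113_t : ∃ t, chk3 f_pm_113_t t 1019 510 1 = true := ex3_a k15_pm_113_t k16_pm_113_t

theorem s126_pm_113_t : ∃ t, chk3 f_pm_113_t t 509 510 1 = true := ex3_a k14_pm_113_t s125_pm_113_t

theorem s127_pm_113_t : ∃ t, chk3 f_pm_113_t t 254 510 1 = true := ex3_a k13_pm_113_t s126_pm_113_t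

theorem s128_pm_113_t : ∃ t, chk3 f_pm_113_t t 254 255 1 = true := ex3_b s127_pm_113_t s124_pm_113_t

theorem s129_pm_113_t : ∃ t, chk3 f_pm_113_t t 254 127 1 = true := ex3_b k12_pm_113_t s128_pm_113_t

theorem s130_pm_113_t : ∃ t, chk3 f_pm_113_t t 127 127 1 = true := ex3_a s129_pm_113_t s118_pm_113_t

theorem s131_pm_113_t : ∃ t, chk3 f_pm_113_t t 127 63 1 = true := ex3_b k11_pm_113_t s130_pm_113_t

theorem s132_pm_113_t : ∃ t, chk3 f_pm_113_t t 63 63 1 = true := ex3_a k10_pm_113_t s131_pm_113_t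

theorem s133_pm_113_t : ∃ t, chk3 f_pm_113_t t 63 31 1 = true := ex3_b k9_pm_113_t s132_pm_113_t

theorem s134_pm_113_t : ∃ t, chk3 f_pm_113_t t 31 31 1 = true := ex3_a k8_pm_113_t s133_pm_113_t

theorem s135_pm_113_t : ∃ t, chk3 f_pm_113_t t 31 15 1 = true := ex3_b k7_pm_113_t s134_pm_113_t

theorem s136_pm_113_t : ∃ t, chk3 f_pm_113_t t 15 15 1 = true := ex3_a k6_pm_113_t s135_pm_113_t

theorem s137_pm_113_t : ∃ t, chk3 f_pm_113_t t 15 7 1 = true := ex3_b k5_pm_113_t s136_pm_113_t

theorem s138_pm_113_t : ∃ t, chk3 f_pm_113_t t 7 7 1 = true := ex3_a k4_pm_113_t s137_pm_113_t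

theorem s139_pm_113_t : ∃ t, chk3 f_pm_113_t t 7 3 1 = true := ex3_b k3_pm_113_t s138_pm_113_t

theorem s140_pm_113_t : ∃ t, chk3 f_pm_113_t t 3 3 1 = true := ex3_a k2_pm_113_t s139_pm_113_t

theorem s141_pm_113_t : ∃ t, chk3 f_pm_113_t t 3 1 1 = true := ex3_b k1_pm_113_t s140_pm_113_t

theorem s142_pm_113_t : ∃ t, chk3 f_pm_113_t t 1 1 1 = true := ex3_a k0_pm_113_t s141_pm_113_t

theorem c_pm_113_t : CertNE 536870912 536870912 536870912 536870912 1020054732 13421774 3 eng mog cd0q1 cd0q1 pd3 true true false .nn 1 1 3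
    ndB0q1 ndB0q1 pcB3 cut_pm_113_t Ext.none :=
  certNE0 (fam := true) (s1 := true) (s2 := false) (a := 1) (b := 1) (c := 3) (cn := .nn) (n1 := ndB0q1) (n2 := ndB0q1) (pc := pcB3) (cut := cut_pm_113_t) (xt := Ext.none) (P1 := 536870912) (W1 := 536870912) (P2 := 536870912) (W2 := 536870912) (P3 := 1020054732) (W3 := 13421774) (N0 := 3) (En := eng) (mo := mog) (C1 := cd0q1) (C2 := cd0q1) (C3 := pd3)
    rfl s142_pm_113_t

noncomputable def cut_pm_123_s : Cut := Cut.of [[⟨4, 0, 0, 1449551462⟩], [⟨0, 1, 0, 26738688⟩, ⟨1, 1, 0, 26738688⟩, ⟨2, 2, 0, 2621440⟩], [⟨0, 0, 1, 46137344⟩, ⟨1, 1, 0, 2097152⟩, ⟨2, 1, 1, 46137344⟩, ⟨0, 0, 0, 1041207446⟩, ⟨0, 1, 0, 59055800⟩, ⟨2, 1, 0, 1041207446⟩, ⟨2, 2, 0, 59055800⟩], [⟨0, 1, 0, 2097152⟩, ⟨1, 0, 1, 46137344⟩, ⟨2, 1, 1, 46137344⟩, ⟨1, 0, 0, 1041207446⟩, ⟨1, 1, 0, 59055800⟩, ⟨2, 1, 0, 1041207446⟩, ⟨2, 2, 0, 59055800⟩]]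

noncomputable def f_pm_123_s : ℕ → ℕ → ℕ → ℕ → Bool := onCell 536870912 536870912 0 536870912 1020054732 13421774
    (rowNE 3 eng mog cd0q1 cd0q2 pd3 0 true true false .npn 1 2 3 (qsf 536870912 536870912 0 536870912 3) ndB0q1 ndB0q2 pcB3 cut_pm_123_s Ext.none)

def k0_pm_123_s : ∃ t, chk3 f_pm_123_s t 1 1 1 = true :=
  ⟨(l 6), by decide +kernel⟩

theorem c_pm_123_s : CertNE 536870912 536870912 0 536870912 1020054732 13421774 3 eng mog cd0q1 cd0q2 pd3 true true false .npn 1 2 3
    ndB0q1 ndB0q2 pcB3 cut_pm_123_s Ext.none :=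
  certNE0 (fam := true) (s1 := true) (s2 := false) (a := 1) (b := 2) (c := 3) (cn := .npn) (n1 := ndB0q1) (n2 := ndB0q2) (pc := pcB3) (cut := cut_pm_123_s) (xt := Ext.none) (P1 := 536870912) (W1 := 536870912) (P2 := 0) (W2 := 536870912) (P3 := 1020054732) (W3 := 13421774) (N0 := 3) (En := eng) (mo := mog) (C1 := cd0q1) (C2 := cd0q2) (C3 := pd3)
    rfl k0_pm_123_s

noncomputable def cut_pm_123_t : Cut := Cut.of [[⟨3, 0, 0, 3194381926⟩], [⟨0, 1, 0, 26738688⟩, ⟨1, 1, 0, 26738688⟩, ⟨2, 2, 0, 2621440⟩], [⟨0, 0, 1, 46137344⟩, ⟨1, 1, 0, 2097152⟩, ⟨2, 1, 1, 46137344⟩, ⟨0, 0, 0, 1041207446⟩, ⟨0, 1, 0, 59055800⟩, ⟨2, 1, 0, 1041207446⟩, ⟨2, 2, 0, 59055800⟩], [⟨0, 1, 0, 2097152⟩, ⟨1, 0, 1, 46137344⟩, ⟨2, 1, 1, 46137344⟩, ⟨1, 0, 0, 1041207446⟩, ⟨1, 1, 0, 59055800⟩, ⟨2, 1, 0, 1041207446⟩, ⟨2, 2, 0, 59055800⟩]]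

noncomputable def f_pm_123_t : ℕ → ℕ → ℕ → ℕ → Bool := onCell 1610612736 536870912 0 536870912 1020054732 13421774
    (rowNE 3 eng mog cd0q1 cd0q2 pd3 2 true true false .npn 1 2 3 (qsf 536870912 536870912 0 536870912 3) ndB0q1 ndB0q2 pcB3 cut_pm_123_t Ext.none)

def k0_pm_123_t : ∃ t, chk3 f_pm_123_t t 2 1 1 = true :=
  ⟨(b (a (l 6) (a (l 6) (b (b (a (a (l 6) (l 16730480)) (a (l 16744312) (l 47479418855))) (l 6)) (l 6)))) (l 6)), by decide +kernel⟩

def k1_pm_123_t : ∃ t, chk3 f_pm_123_t t 3 2 1 = true :=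
  ⟨(a (a (b (a (b (a (b (l 99019038183) (l 16758664)) (b (l 4) (l 16771448))) (a (l 6) (l 16732000))) (b (b (l 4) (a (l 105998357079) (l 4))) (a (l 16746816) (b (l 16752856) (l 16748304))))) (l 6)) (b (b (l 4) (b (a (a (l 115125155335) (l 4)) (l 4)) (a (a (l 16764392) (l 96871557847)) (l 4)))) (a (b (a (l 6) (l 16717304)) (l 6)) (b (a (b (l 16728504) (l 16741392)) (b (l 116735762855) (l 16761456))) (l 6))))) (b (l 4) (a (a (b (a (b (l 4) (a (l 16775752) (l 16745072))) (l 4)) (a (b (l 16749512) (l 6)) (b (a (l 16769120) (l 16731056)) (l 16735320)))) (b (l 4) (a (b (a (l 121567610167) (l 4)) (a (l 16758904) (l 62511836663))) (b (l 4) (a (l 115125156567) (l 4)))))) (l 4)))), by decide +kernel⟩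

def k2_pm_123_t : ∃ t, chk3 f_pm_123_t t 6 3 1 = true :=
  ⟨(l 6), by decide +kernel⟩

def k3_pm_123_t : ∃ t, chk3 f_pm_123_t t 7 6 1 = true :=
  ⟨(a (a (l 6) (b (a (b (a (l 6) (l 16729160)) (l 6)) (b (a (l 16749184) (b (l 16751832) (l 16758656))) (a (l 6) (l 16706120)))) (l 6))) (b (a (a (a (b (b (l 4) (l 107609000023)) (b (l 16756616) (l 16727416))) (b (l 4) (b (a (l 16776960) (l 16746360)) (l 32447069911)))) (a (b (l 4) (b (l 4) (a (l 16754144) (l 150558668887)))) (l 4))) (l 4)) (a (a (b (a (l 6) (b (l 16725384) (l 6))) (l 6)) (a (b (a (b (l 16749832) (l 16717320)) (b (l 49626920919) (l 16735320))) (b (a (l 6) (l 16701168)) (l 6))) (b (a (b (a (l 16753496) (l 154316779447)) (l 16754288)) (b (l 4) (a (l 16748056) (b (l 16749760) (l 16771472))))) (b (a (l 16741888) (l 16741672)) (a (l 6) (b (l 16716168) (l 16698688))))))) (a (a (b (a (b (l 4) (a (b (l 4) (l 16752816)) (l 4))) (l 4)) (a (b (a (l 16757928) (b (l 16755520) (l 16761016))) (a (l 16745408) (l 16757072))) (b (a (b (l 193508369607)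 (l 16751368)) (b (l 4) (b (l 4) (l 16764336)))) (a (l 16753256) (b (l 16768232) (l 16752096)))))) (b (l 4) (b (l 4) (a (a (b (a (l 16760616) (l 123715161767)) (l 16764600)) (b (l 4) (a (l 16768568) (b (l 4) (l 16755256))))) (a (b (l 4) (a (l 416846694983) (l 4))) (l 4)))))) (l 4))))), by decide +kernel⟩

def k4_pm_123_t : ∃ t, chk3 f_pm_123_t t 14 7 1 = true :=
  ⟨(l 6), by decide +kernel⟩

def k5_pm_123_t : ∃ t, chk3 f_pm_123_t t 30 14 1 = true :=
  ⟨(a (l 6) (l 6)), by decide +kernel⟩

def k6_pm_123_t : ∃ t, chk3 f_pm_123_t t 31 28 1 = true :=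
  ⟨(a (a (b (b (a (l 16725768) (a (l 16723312) (l 16735896))) (a (l 6) (a (l 16706896) (l 16719872)))) (a (l 6) (b (c (l 16705160) (l 16689688)) (l 6)))) (a (a (b (c (l 16754664) (l 16758216)) (b (l 16717808) (l 16724432))) (b (b (l 16761616) (l 16746216)) (b (l 16731416) (l 16717576)))) (b (a (b (a (l 16769328) (b (l 232699965255) (l 16774064))) (l 16759544)) (b (a (b (l 4) (l 169349198823)) (l 4)) (a (l 27078411511) (b (l 167201716087) (l 16772608))))) (a (b (l 16745032) (l 16731600)) (b (a (l 16755224) (l 16762008)) (c (l 16749976) (l 16740904))))))) (a (a (b (a (b (l 4) (a (b (l 4) (a (l 16765888) (l 214983228791))) (l 4))) (l 4)) (a (b (a (b (l 16772224) (l 16765384)) (b (a (l 16771328) (l 224646905559)) (l 16772088))) (a (l 16755696) (l 16762440))) (b (a (b (l 4) (a (l 143042532727) (l 238605548951))) (l 4)) (a (b (l 16772216) (l 16766104)) (b (a (a (l 16765624) (l 192434656807)) (l 452817053607)) (l 16772608)))))) (b (l 4) (a (b (l 4) (a (b (l 4) (a (b (l 255248552983) (l 16775880))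 (l 492008629367))) (l 4))) (l 4)))) (l 4))), by decide +kernel⟩

def k7_pm_123_t : ∃ t, chk3 f_pm_123_t t 62 29 1 = true :=
  ⟨(a (l 6) (b (a (b (a (l 6) (b (l 16708136) (c (l 16712800) (a (l 6) (l 16695616))))) (l 6)) (b (a (c (l 16728392) (l 16711112)) (c (l 16741120) (l 16726952))) (a (b (c (l 16723088) (a (l 16697200) (l 16705568))) (c (l 16720296) (l 16695160))) (b (l 16727184) (a (c (l 16731104) (l 16708304)) (l 16727296)))))) (a (l 6) (b (a (l 6) (b (a (l 16716368) (b (c (l 16737096) (l 16713320)) (l 16724000))) (l 16718168))) (c (l 16728416) (l 16689448)))))), by decide +kernel⟩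

def k8_pm_123_t : ∃ t, chk3 f_pm_123_t t 126 29 1 = true :=
  ⟨(a (a (b (b (c (l 16753144) (l 16742592)) (c (l 16747696) (l 16731200))) (b (b (a (c (l 16743456) (l 16720616)) (l 16739264)) (a (c (l 16744128) (l 16717232)) (b (c (l 16750272) (l 16726576)) (a (l 16736416) (l 16750696))))) (c (l 16751640) (l 16718592)))) (b (b (a (l 16757896) (l 16764368)) (a (l 16749536) (l 16755928))) (b (a (c (l 16755512) (l 16735120)) (c (l 16760712) (l 16742872))) (b (a (b (c (l 16758608) (l 16732920)) (l 16746448)) (b (l 16752376) (c (l 16742768) (l 16761568)))) (a (l 16748360) (c (l 16763272) (l 16741040))))))) (b (a (b (a (b (a (l 16771760) (l 16774776)) (l 16768200)) (b (a (b (l 285313322375) (l 16765864)) (l 591866617623)) (a (l 16772744) (b (l 16772632) (l 16774496))))) (a (l 16762024) (b (l 16769728) (l 16766176)))) (b (a (b (l 4) (a (b (l 626226358023) (l 191897788055)) (l 4))) (l 4)) (a (b (a (l 16773936) (b (c (l 228405009255) (l 232163105271)) (l 16775544))) (l 16771504)) (b (a (b (l 4) (l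 271354679847)) (l 4)) (a (b (l 16770784) (l 16774392)) (b (l 315378093335) (c (l 16771384) (l 16770944)))))))) (a (b (a (c (l 16765264) (l 16750176)) (c (l 16769208) (l 16757128))) (b (a (l 16758696) (l 16763888)) (a (b (c (l 16765640) (l 16748368)) (a (l 16761584) (c (l 16765456) (l 16751152)))) (c (l 16767912) (l 16755560))))) (b (a (b (l 16768880) (l 16767720)) (b (l 16773424) (l 16771840))) (a (c (l 16771088) (l 16761064)) (c (l 16752320) (l 16766488))))))), by decide +kernel⟩

def k9_pm_123_t : ∃ t, chk3 f_pm_123_t t 127 29 1 = true :=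
  ⟨(a (a (b (b (l 4) (a (b (l 4) (a (b (l 4) (l 669712902167)) (l 4))) (l 4))) (b (a (b (a (a (l 16770664) (b (l 289608293719) (l 16776288))) (a (b (l 4) (l 16774096)) (l 657364870135))) (a (l 16774480) (b (l 16773744) (l 16775696)))) (b (l 4) (a (a (b (l 310009388231) (l 16776640)) (b (l 4) (b (l 16770976) (l 16776936)))) (a (l 712125702535) (l 4))))) (a (b (l 16769608) (l 16764408)) (a (b (l 16776368) (l 16775968)) (b (b (a (l 16774256) (l 359401511431)) (l 16771728)) (l 16776472)))))) (b (l 4) (b (l 4) (a (a (a (b (b (l 4) (b (l 399666831703) (l 16771656))) (l 16776832)) (b (l 4) (b (b (l 323968034711) (l 16777208)) (l 16776912)))) (b (l 4) (b (c (l 799635661863) (l 811446821847)) (c (a (l 16771920) (l 386781927655)) (a (l 16771640) (l 394298120375)))))) (l 4))))) (l 4)), by decide +kernel⟩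

def k10_pm_123_t : ∃ t, chk3 f_pm_123_t t 30 15 1 = true :=
  ⟨(l 6), by decide +kernel⟩

def k11_pm_123_t : ∃ t, chk3 f_pm_123_t t 62 30 1 = true :=
  ⟨(l 6), by decide +kernel⟩

def k12_pm_123_t : ∃ t, chk3 f_pm_123_t t 126 30 1 = true :=
  ⟨(b (a (a (b (c (l 16760568) (l 16722472)) (l 6)) (b (c (l 16763384) (l 16741280)) (c (l 16764096) (l 16760648)))) (b (a (b (a (l 16765984) (c (b (a (l 16766104) (l 16767416)) (l 16766472)) (b (a (l 16756136) (l 16759312)) (l 16759912)))) (l 16763080)) (a (b (a (b (l 16769200) (c (l 16768056) (l 16764544))) (l 16770120)) (b (a (l 16768376) (c (b (l 16768832) (l 16768520)) (l 16764664))) (l 16768992))) (a (b (l 16771328) (b (l 16770464) (b (a (l 16769704) (l 16770328)) (l 16764624)))) (b (l 16772456) (c (l 16771024) (l 16772000)))))) (a (c (l 16766912) (l 16768320)) (b (a (l 16769312) (b (a (l 16770120) (b (c (l 16770216) (l 16771264)) (l 16770688))) (l 16770632))) (c (l 16769768) (l 16770904)))))) (a (a (l 6) (a (l 6) (b (b (l 16766096) (l 6)) (l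 6)))) (b (c (a (b (l 16767480) (l 16767664)) (b (l 16770192) (l 16770392))) (b (a (l 16768832) (l 16771312)) (a (l 16768952) (l 16771464)))) (b (a (c (l 16767376) (l 16768528)) (c (b (l 16770224) (l 16769928)) (b (l 16771216) (l 16770848)))) (a (a (l 6) (c (l 16767432) (l 16768360))) (c (b (l 16769664) (l 16769368)) (b (l 16770512) (l 16770136)))))))), by decide +kernel⟩

def k13_pm_123_t : ∃ t, chk3 f_pm_123_t t 254 60 1 = true :=
  ⟨(a (b (a (c (b (l 16773680) (l 16772656)) (b (l 16773320) (l 16773424))) (a (c (l 16753640) (l 16754136)) (b (l 16775792) (l 16775056)))) (a (b (a (b (c (l 16771424) (l 16772368)) (b (c (l 16760472) (l 16750960)) (l 16771576))) (b (l 16772864) (a (c (l 16761304) (l 16751728)) (l 16772744)))) (b (a (l 16771736) (b (c (l 16761248) (l 16762144)) (l 16772368))) (l 16772240))) (b (c (l 16763144) (l 16763784)) (a (a (b (b (l 16772968) (c (l 16772328) (l 16773176))) (l 16772928)) (b (l 16768032) (c (l 16772496) (l 16762816)))) (b (l 16773672) (a (b (l 16773280)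 (b (l 16773080) (l 16773096))) (a (l 16768216) (l 16773520)))))))) (a (b (a (c (l 16770624) (l 16765640)) (b (a (l 16776696) (a (l 16776880) (l 16774480))) (l 16776192))) (a (c (l 16769048) (l 16769560)) (c (l 16772368) (l 16770136)))) (b (b (a (a (b (b (l 452280180039) (l 280481491415)) (l 16777064)) (b (l 4) (b (l 409330508055) (l 215520112007)))) (l 4)) (a (c (l 16776664) (l 16776768)) (b (a (a (l 16774536) (b (l 16770512) (l 16776992))) (l 933853391415)) (a (l 16776944) (a (l 16772008) (b (l 16773496) (l 16777208))))))) (a (b (l 16770856) (l 16770200)) (b (c (l 16776592) (l 16776704)) (c (l 16765456) (l 16776160))))))), by decide +kernel⟩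

def k14_pm_123_t : ∃ t, chk3 f_pm_123_t t 254 61 1 = true :=
  ⟨(a (b (a (b (c (l 16772104) (l 16773040)) (c (l 16772320) (l 16773224))) (b (b (a (l 16773176) (b (c (l 16767496) (l 16768240)) (l 16773320))) (l 16773408)) (c (l 16773128) (l 16773896)))) (b (a (c (l 16772032) (l 16772832)) (c (l 16770224) (b (l 16773640) (l 16773400)))) (a (c (l 16771560) (l 16772232)) (c (b (l 16772552) (l 16772424)) (b (l 16773152) (l 16772976)))))) (b (a (b (a (a (b (b (l 16763088) (c (l 16773000) (l 16773688))) (l 16773536)) (b (b (l 16773824) (l 16768488)) (b (c (l 16773168) (l 16773824)) (l 16773624)))) (b (l 16774248) (a (b (l 16771264) (c (l 16773336) (l 16763472))) (b (l 16774144) (l 16771416))))) (b (a (l 16773640) (a (l 16773728) (b (c (l 16771512) (l 16772088)) (l 16773792)))) (c (l 16773304) (l 16773904)))) (b (a (c (l 16774552) (l 16774984)) (c (l 16764784) (l 16765104))) (b (a (a (b (l 16768920) (a (l 16773792) (b (l 16774016) (l 16773848)))) (c (l 16774152) (l 16774624))) (c (l 16774632)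 (l 16775016))) (a (a (l 16773792) (a (c (l 16773520) (l 16774008)) (b (c (l 16773784) (l 16774264)) (l 16773864)))) (a (a (b (l 16774176) (b (l 16768712) (l 16773904))) (c (l 16768856) (l 16769280))) (l 16774472)))))) (a (b (c (l 16770504) (b (l 16773728) (l 16773528))) (c (l 16770224) (b (l 16773360) (l 16773240)))) (b (a (c (l 16773416) (l 16773864)) (b (a (l 16773824) (a (b (c (l 16771176) (l 16768960)) (l 16773944)) (b (l 16771624) (l 16772648)))) (l 16773840))) (c (b (l 16773416) (l 16773360)) (b (l 16773784) (l 16773704))))))), by decide +kernel⟩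

def k15_pm_123_t : ∃ t, chk3 f_pm_123_t t 510 60 1 = true :=
  ⟨(a (b (a (a (a (b (l 4) (b (l 4) (l 823794856535))) (l 4)) (l 4)) (l 4)) (b (a (a (a (l 16774384) (b (b (l 414162348887) (l 16777216)) (l 16776952))) (a (b (b (l 4) (l 396445608983)) (l 16777112)) (b (l 4) (b (l 383023836311) (l 16777168))))) (a (a (b (l 4) (b (l 4) (l 374433901815))) (l 4)) (l 4))) (a (c (l 16773936) (l 16776672)) (a (a (l 16771712) (b (b (l 370675805495) (l 16777152)) (l 16776944))) (a (b (b (l 4) (l 372823289143)) (l 16777088)) (b (l 4) (b (c (l 377655127335) (l 16773968)) (l 16777160)))))))) (b (l 4) (a (a (a (b (l 4) (b (l 4) (b (l 4) (c (l 392150641879) (l 400203705527))))) (l 4)) (l 4)) (l 4)))), by decide +kernel⟩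

def k16_pm_123_t : ∃ t, chk3 f_pm_123_t t 510 122 1 = true :=
  ⟨(b (a (a (a (l 16773288) (l 16773592)) (b (c (l 16776712) (l 16776800)) (c (l 16773800) (l 16776544)))) (b (a (b (a (a (l 16777168) (c (l 414699219719) (l 422752283367))) (l 4)) (a (l 16775808) (a (c (l 443690248759) (l 452817054247)) (l 4)))) (l 4)) (a (a (l 16776904) (a (b (l 16774608) (l 16777040)) (b (c (l 487713662951) (l 495766726599)) (c (l 16774632) (l 16777240))))) (b (l 4) (a (a (c (l 555359397191) (l 558580622631)) (l 4)) (l 4)))))) (a (a (c (b (l 16775368) (l 16774888)) (b (l 16775640) (l 16775176))) (c (a (l 16765232) (l 16770848)) (b (l 16765760) (l 16765376)))) (a (c (a (l 16771168) (l 16775440)) (a (l 16776520) (l 16771568))) (a (b (a (b (c (l 16775512) (l 16774520)) (l 16777064)) (a (b (l 582202944599) (l 16777208)) (b (l 4) (c (l 16775536) (l 16771600))))) (l 16776944)) (b (a (b (l 4) (l 1194772656903)) (l 4)) (b (a (a (l 16774584) (l 506504146567)) (l 4)) (a (l 16777104) (a (b (l 16774248) (l 16777208))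 (l 619783908391))))))))), by decide +kernel⟩

def k17_pm_123_t : ∃ t, chk3 f_pm_123_t t 510 123 1 = true :=
  ⟨(b (b (a (a (a (a (b (l 16774368) (c (l 16771360) (l 16769104))) (l 16774496)) (l 16774752)) (c (l 16770008) (l 16764976))) (a (a (l 16775944) (l 16771080)) (a (l 16771432) (a (l 16776920) (a (l 16777040) (l 16774520)))))) (a (a (a (a (l 16774040) (b (b (l 16772848) (l 16774128)) (l 16774104))) (b (c (l 16771736) (l 16772048)) (a (l 16774152) (b (l 16774384) (l 16774240))))) (a (c (l 16774688) (l 16769712)) (l 16775152))) (a (a (l 16775576) (l 16775992)) (a (l 16771144) (l 16774128))))) (a (a (c (l 16773936) (l 16774232)) (b (b (a (a (c (l 16771536) (l 16769200)) (c (l 16771816) (l 16769472))) (l 16774848)) (a (l 16774336) (a (b (l 16772008) (l 16774496)) (l 16774832)))) (a (l 16774360) (a (l 16774520) (b (b (c (l 16774504) (l 16774752)) (l 16774632)) (l 16774624)))))) (a (a (b (l 16775200) (a (b (c (l 16772144) (l 16772376)) (l 16774680)) (b (l 16775040) (b (l 16774960) (c (l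 16774704) (l 16774928)))))) (b (l 16775648) (c (l 16770040) (l 16770232)))) (a (b (l 16770832) (l 16773136)) (l 14))))), by decide +kernel⟩

def k18_pm_123_t : ∃ t, chk3 f_pm_123_t t 511 30 1 = true :=
  ⟨(a (b (l 4) (b (l 4) (b (a (a (b (a (a (b (b (l 16773912) (l 16777112)) (l 16777120)) (b (l 1316642354599) (l 16775800))) (a (b (l 4) (l 597235330311)) (l 4))) (a (l 16776992) (a (l 16777120) (b (b (l 16775296) (l 16777152)) (l 14))))) (a (b (l 4) (b (c (l 1407373537639) (l 1425627148599)) (l 14))) (l 4))) (l 4)) (l 14)))) (l 4)), by decide +kernel⟩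

def k19_pm_123_t : ∃ t, chk3 f_pm_123_t t 62 31 1 = true :=
  ⟨(l 6), by decide +kernel⟩

def k20_pm_123_t : ∃ t, chk3 f_pm_123_t t 252 31 1 = true :=
  ⟨(l 6), by decide +kernel⟩

def k21_pm_123_t : ∃ t, chk3 f_pm_123_t t 506 31 1 = true :=
  ⟨(a (l 6) (b (b (b (c (l 16766776) (l 16762288)) (c (l 16766632) (l 16767264))) (l 6)) (l 6))), by decide +kernel⟩

def k22_pm_123_t : ∃ t, chk3 f_pm_123_t t 1014 31 1 = true :=
  ⟨(b (b (b (c (l 16768256) (l 16768952)) (c (l 16768288) (l 16766272))) (b (c (b (l 16768808) (l 16769368)) (b (l 16769408) (l 16769992))) (c (b (l 16770072) (l 16770912)) (b (l 16770736) (l 16771624))))) (b (b (c (b (l 16771792) (l 16772728)) (b (l 16772568) (l 16773568))) (l 6)) (l 6))), by decide +kernel⟩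

def k23_pm_123_t : ∃ t, chk3 f_pm_123_t t 1015 31 1 = true :=
  ⟨(b (b (b (c (l 16769784) (l 16770416)) (c (l 16769944) (b (l 16770408) (l 16770664)))) (b (c (b (l 16770520) (l 16771096)) (b (l 16771104) (l 16771712))) (c (b (l 16771816) (l 16772600)) (b (l 16772480) (l 16773320))))) (b (b (c (b (l 16773432) (l 16774248)) (b (l 16774208) (l 16775088))) (c (b (l 16775072) (l 16775896)) (b (l 16775976) (c (l 16776616) (l 16777104))))) (b (b (c (c (l 16776464) (l 16776976)) (c (l 16777488) (l 16778008))) (b (c (l 16777336) (c (l 16778136) (l 16778688))) (a (a (l 6) (c (l 16777616) (l 16778728))) (c (l 16778000) (l 16779104))))) (a (a (l 6) (b (c (c (b (l 16776904) (l 16775560)) (b (l 16777472) (l 16776168))) (c (b (l 16778056) (l 16776784)) (b (l 16778648) (l 16777408)))) (c (c (b (l 16774216) (c (l 16771384) (l 16773032))) (b (l 16774848) (c (l 16773360) (l 16773704)))) (c (b (l 16775496) (c (l 16774040) (l 16774384))) (b (l 16776160) (c (l 16774728) (l 16775080))))))) (b (c (b (b (c (l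 16777728) (l 16778288)) (l 16777376)) (c (l 16776064) (l 16776648))) (b (b (c (l 16777536) (b (l 16779568) (l 16779312))) (l 16777224)) (c (l 16777248) (l 16775240)))) (c (c (b (c (l 16774536) (l 16774840)) (b (l 16773656) (a (l 16771512) (l 16771800)))) (b (c (l 16775144) (l 16775456)) (b (l 16774288) (a (l 16772168) (l 16773744))))) (c (b (c (l 16775768) (l 16776088)) (b (l 16774936) (a (l 16774152) (l 16774400)))) (b (c (l 16776400) (l 16776720)) (b (l 16775592) (a (l 16774832) (l 16775056))))))))))), by decide +kernel⟩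

def k24_pm_123_t : ∃ t, chk3 f_pm_123_t t 254 62 1 = true :=
  ⟨(b (a (b (a (c (l 16771296) (l 16769256)) (c (b (l 16772344) (l 16772352)) (b (l 16772856) (l 16772840)))) (a (c (l 16771560) (b (l 16771968) (l 16772272))) (c (b (l 16772512) (l 16772832)) (b (l 16772992) (l 16773320))))) (b (a (c (b (l 16772752) (l 16772776)) (b (l 16773160) (l 16773160))) (c (b (l 16773328) (l 16773360)) (b (l 16773648) (l 16773664)))) (a (c (b (l 16772936) (l 16773240)) (b (l 16773320) (l 16773640))) (c (b (l 16773512) (l 16773800)) (b (l 16773816) (l 16774120)))))) (a (b (a (c (b (l 16772176) (l 16772776)) (b (l 16772744) (l 16773384))) (c (b (l 16773296) (l 16773856)) (b (l 16773816) (l 16773096)))) (a (c (b (l 16773456) (l 16774184)) (b (l 16774112) (l 16774896))) (c (b (l 16774464) (l 16775080)) (b (l 16772448) (a (l 16775760) (l 16775728)))))) (b (a (c (b (l 16773672) (l 16774152)) (b (l 16774088) (l 16774608))) (c (b (l 16774144) (l 16774528)) (b (l 16774480) (l 16774888)))) (a (c (b (l 16774648)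 (l 16775144)) (b (l 16775136) (l 16775672))) (c (b (l 16774904) (l 16773976)) (b (l 16775296) (a (l 16775696) (l 16775736)))))))), by decide +kernel⟩

def k25_pm_123_t : ∃ t, chk3 f_pm_123_t t 254 126 1 = true :=
  ⟨(a (a (b (c (b (l 16774904) (l 16775632)) (b (l 16775672) (l 16776456))) (c (b (l 16776360) (l 16775776)) (b (l 16777240) (c (l 16777792) (l 16778264))))) (b (c (b (a (l 16775728) (l 16775696)) (a (l 16776384) (l 16776288))) (b (a (l 16776464) (l 16776360)) (a (l 16777168) (l 16777000)))) (c (b (a (l 16777032) (l 16776880)) (a (l 16777688) (l 16777480))) (b (a (l 16777872) (l 16777648)) (a (c (l 16778360) (l 16778808)) (l 16778288)))))) (b (a (c (b (l 16775640) (a (l 16776192) (l 16776120))) (b (a (l 16776264) (l 16776184)) (a (l 16776832) (l 16776696)))) (c (b (a (l 16775664) (l 16775704)) (a (l 16776080) (l 16776064))) (b (a (l 16776136) (l 16776120)) (a (l 16776584) (l 16776504))))) (a (a (c (b (l 16776728) (l 16777264)) (b (l 16777416) (l 16777992))) (c (b (l 16776592)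 (l 16777072)) (b (l 16777208) (l 16777720)))) (c (b (a (l 16776496) (l 16776416)) (a (l 16776912) (l 16776776))) (b (a (l 16777032) (l 16776888)) (a (l 16777488) (l 16777280))))))), by decide +kernel⟩

def k26_pm_123_t : ∃ t, chk3 f_pm_123_t t 254 254 1 = true :=
  ⟨(a (a (c (b (c (l 16777576) (l 16778064)) (c (l 16778288) (b (l 16778624) (l 16778992)))) (b (c (l 16778568) (l 16779072)) (c (b (l 16779144) (l 16779528)) (b (l 16779672) (l 16780072))))) (c (b (a (c (l 16778112) (l 16778576)) (l 16778072)) (a (a (a (l 16779048) (l 16779072)) (l 16778936)) (c (l 16778440) (l 16778888)))) (b (a (c (l 16779048) (l 16778224)) (c (l 16778712) (l 16779152))) (a (c (a (l 16779824) (l 16779672)) (a (l 16780344) (l 16780168))) (c (l 16779344) (l 16779808)))))) (a (c (b (a (l 16777792) (l 16776232)) (a (c (l 16778120) (l 16778528)) (c (l 16777832) (l 16778192)))) (b (a (c (l 16778376) (l 16778768)) (c (l 16778064) (l 16778408))) (a (c (l 16778936) (l 16778040)) (c (l 16778560) (l 16777624))))) (c (b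 (a (c (l 16777176) (l 16777472)) (b (l 16777040) (l 16777224))) (a (c (l 16777576) (l 16777896)) (c (l 16777344) (l 16776968)))) (b (a (c (l 16777776) (l 16778088)) (c (l 16777528) (l 16777800))) (b (a (l 16778264) (l 16777952)) (a (c (l 16778320) (l 16778656)) (c (l 16778000) (l 16778288)))))))), by decide +kernel⟩

def k27_pm_123_t : ∃ t, chk3 f_pm_123_t t 508 510 1 = true :=
  ⟨(c (a (b (b (b (a (l 16778720) (l 16779168)) (c (l 16777248) (a (l 16778824) (l 16779408)))) (c (l 16778080) (l 16778624))) (c (c (l 16776872) (l 16774528)) (c (l 16774800) (l 16775088)))) (b (b (a (a (c (l 16779208) (l 16779728)) (l 16779336)) (l 16779032)) (a (c (l 16777488) (l 16778000)) (b (a (l 16779104) (l 16778976)) (l 16778752)))) (a (c (a (l 16777712) (l 16777728)) (a (l 16775624) (l 16778240))) (c (l 16776368) (l 16776840))))) (a (a (b (b (b (c (l 16779544) (l 16780104)) (l 16778344)) (l 16777848)) (c (l 16777848) (l 16775808))) (b (b (b (l 16780248) (c (l 16779952) (l 16780496))) (l 16778440)) (c (l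 16778408) (l 16776352)))) (b (b (a (a (c (l 16780264) (b (l 16780760) (l 16780824))) (l 16780352)) (l 16779968)) (a (a (l 16778912) (l 16778752)) (b (c (l 16779736) (l 16779568)) (l 16779704)))) (a (c (a (l 16777472) (l 16778752)) (a (l 16778016) (l 16779272))) (c (l 16777320) (c (l 16776368) (l 16776616))))))), by decide +kernel⟩

def k28_pm_123_t : ∃ t, chk3 f_pm_123_t t 508 511 1 = true :=
  ⟨(a (a (c (c (b (l 16773976) (b (l 16774232) (l 16773360))) (b (c (l 16775728) (l 16776024)) (b (l 16774832) (l 16774136)))) (c (b (c (l 16776320) (l 16776624)) (b (l 16775440) (a (l 16774640) (l 16774872)))) (b (c (l 16776928) (l 16777232)) (b (l 16776064) (a (l 16775280) (l 16775496)))))) (c (c (b (l 16774552) (b (l 16774784) (l 16774056))) (b (l 16775112) (b (l 16775344) (l 16774632)))) (c (b (c (l 16776848) (l 16777128)) (b (l 16775920) (a (l 16775096) (l 16775320)))) (b (c (l 16777416) (l 16777712)) (b (l 16776504) (a (l 16775696) (l 16775896))))))) (c (a (c (b (a (a (l 16776208) (l 16776296))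 (l 16776312)) (a (a (l 16773432) (c (l 16774704) (l 16774968))) (b (l 16775240) (l 16773224)))) (b (a (a (l 16776752) (l 16776824)) (l 16776824)) (a (a (l 16773976) (c (l 16775232) (l 16775504))) (c (l 16775272) (l 16774224))))) (b (c (c (l 16774912) (l 16775144)) (c (l 16775384) (l 16775616))) (b (c (l 16775328) (c (l 16774376) (l 16774616))) (c (c (l 16773888) (l 16774120)) (c (l 16774360) (l 16774600)))))) (a (c (b (a (c (l 16775880) (l 16776152)) (l 16776024)) (a (a (c (l 16775704) (l 16775984)) (c (l 16775776) (l 16776048))) (c (l 16774480) (l 16774744)))) (b (a (c (l 16776432) (l 16776704)) (l 16776552)) (a (a (c (l 16776264) (l 16776544)) (c (l 16776320) (l 16775288))) (c (l 16775008) (l 16775280))))) (a (c (b (l 16776000) (c (l 16774504) (l 16774760))) (b (l 16776496) (c (l 16775008) (l 16775592)))) (c (b (l 16775968) (c (l 16774536) (l 16774776))) (b (l 16776768) (c (l 16775336) (b (l 16776888) (l 16776232))))))))), by decide +kernel⟩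

def k29_pm_123_t : ∃ t, chk3 f_pm_123_t t 509 510 1 = true :=
  ⟨(c (a (b (b (c (l 16778272) (l 16777352)) (a (b (c (l 16778528) (l 16778952)) (l 16777928)) (b (l 16778392) (c (l 16778184) (a (l 16778640) (l 16778512)))))) (a (c (l 16776304) (l 16776888)) (c (b (l 16777824) (l 16777264)) (b (l 16778208) (l 16777640))))) (b (a (a (b (l 16778064) (c (l 16778000) (l 16778352))) (l 16777960)) (c (l 16777600) (l 16777888))) (a (a (b (l 16777928) (l 16777408)) (b (b (l 16777320) (l 16777752)) (l 16777384))) (b (b (c (a (l 16777736) (l 16777640)) (a (l 16778040) (l 16777920))) (l 16777672)) (c (l 16777192) (l 16777480)))))) (a (a (b (b (l 16779504) (b (c (l 16779384) (l 16779160)) (c (l 16779224) (l 16779656)))) (c (b (l 16778776) (l 16778160)) (c (l 16777480) (l 16777704)))) (b (b (l 16779064) (b (l 16779152) (c (b (l 16779000) (l 16778920)) (b (l 16779392) (l 16779312))))) (c (c (l 16776904) (l 16777096)) (a (l 16777440) (l 16777336))))) (b (a (a (b (l 16778752) (c (l 16778696) (l 16779056)))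 (l 16778616)) (c (l 16778184) (l 16778480))) (a (b (c (a (l 16778448) (l 16777688)) (a (l 16778808) (b (l 16778800) (l 16778576)))) (c (l 16777896) (l 16778240))) (b (b (c (a (l 16778344) (l 16778208)) (a (l 16778000) (l 16778496))) (c (l 16778120) (l 16778416))) (c (l 16777776) (l 16777424))))))), by decide +kernel⟩

def k30_pm_123_t : ∃ t, chk3 f_pm_123_t t 1018 511 1 = true :=
  ⟨(c (b (a (c (c (l 16774960) (l 16775832)) (a (l 16775496) (l 16775496))) (c (a (l 16775104) (l 16775128)) (a (l 16775488) (l 16776144)))) (b (a (c (c (l 16774040) (l 16774248)) (c (l 16774464) (l 16775984))) (c (c (l 16774176) (l 16774360)) (c (l 16774552) (l 16776048)))) (c (a (c (l 16774400) (l 16774616)) (a (l 16774320) (l 16774408))) (a (c (l 16774824) (l 16775200)) (a (l 16775360) (l 16775424)))))) (b (b (c (a (l 16777544) (l 16777464)) (a (l 16777976) (l 16777200))) (c (a (l 16776928) (c (l 16776808) (l 16777000))) (a (c (l 16777256) (l 16777472)) (c (l 16777192) (l 16777384))))) (a (c (a (c (l 16775224)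 (l 16775120)) (b (l 16776312) (l 16775712))) (b (c (l 16776632) (l 16776856)) (c (a (l 16776008) (l 16774720)) (a (l 16776240) (l 16776240))))) (c (a (b (l 16776328) (l 16775752)) (b (l 16776344) (a (l 16775784) (l 16775808)))) (b (c (l 16776624) (l 16776168)) (c (a (l 16776048) (l 16774760)) (a (l 16776248) (l 16776264)))))))), by decide +kernel⟩

def k31_pm_123_t : ∃ t, chk3 f_pm_123_t t 1019 511 1 = true :=
  ⟨(c (a (b (b (c (l 16776720) (l 16777056)) (c (l 16776216) (c (l 16776464) (l 16776632)))) (b (c (a (l 16774368) (l 16774432)) (c (l 16775304) (l 16776120))) (c (a (l 16774504) (l 16774928)) (a (l 16775496) (l 16775568))))) (b (b (c (l 16776744) (l 16777032)) (c (a (l 16776280) (l 16776320)) (a (l 16776576) (l 16776592)))) (b (c (a (l 16775160) (l 16775224)) (a (l 16776104) (l 16776152))) (c (a (l 16775184) (c (l 16774728) (l 16774856))) (a (c (l 16774912) (l 16775056)) (c (l 16774992) (l 16775128))))))) (a (b (b (c (l 16777392) (c (l 16777648) (l 16777816))) (c (c (l 16776800)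 (l 16776968)) (c (l 16777136) (l 16777304)))) (c (b (c (l 16776288) (l 16776128)) (c (a (l 16774440) (l 16774496)) (a (l 16774616) (l 16775312)))) (b (a (l 16776712) (l 16776712)) (c (a (l 16774792) (l 16775472)) (a (l 16776280) (l 16776296)))))) (a (b (c (b (l 16777344) (l 16776872)) (c (l 16776024) (l 16776832))) (b (c (l 16776408) (l 16776704)) (c (c (l 16775208) (l 16775352)) (c (l 16775504) (l 16776312))))) (b (c (b (l 16777312) (l 16776872)) (c (l 16776648) (l 16776792))) (b (c (l 16776432) (l 16776384)) (c (c (l 16775264) (l 16775400)) (c (l 16775536) (l 16776336)))))))), by decide +kernel⟩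

def k32_pm_123_t : ∃ t, chk3 f_pm_123_t t 1020 31 2 = true :=
  ⟨(b (b (b (b (l 16774088) (l 16774112)) (b (l 16774264) (l 16774480))) (b (b (l 16774744) (l 16775000)) (b (a (l 16775176) (l 16775392)) (a (l 16775472) (l 16775632))))) (b (b (b (a (l 16775776) (l 16775880)) (a (l 16776072) (l 16776120))) (b (a (l 16776376) (l 16776368)) (a (l 16776680) (l 16775960)))) (b (b (a (b (l 16776904) (l 16777048)) (b (l 16776800) (l 16776920))) (b (a (l 16777200) (l 16777040)) (a (l 16777344) (c (l 16777056) (l 16777256))))) (b (b (a (c (l 16777368) (l 16777616)) (c (l 16777168) (l 16777376))) (b (b (a (c (l 16777456) (l 16777712)) (l 16777344)) (a (c (a (l 16777456) (l 16777400)) (a (l 16777720) (l 16777312))) (a (c (l 16776664) (l 16777544)) (l 16777320)))) (a (c (l 16777160) (l 16776752)) (a (c (l 16777136) (l 16777352)) (b (c (l 16777184) (l 16777096)) (l 16777144)))))) (a (b (c (a (b (l 16776768) (l 16776360)) (b (l 16776776) (l 16776400))) (a (b (l 16777024) (l 16776608)) (b (l 16777016)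 (l 16776632)))) (c (a (b (l 16775296) (c (l 16774832) (l 16774952))) (b (l 16775368) (c (l 16774936) (l 16775048)))) (a (b (l 16776200) (c (l 16775072) (l 16775200))) (b (l 16776256) (c (l 16775160) (l 16775272)))))) (b (c (a (b (l 16776792) (l 16776440)) (b (l 16776808) (l 16776488))) (a (b (l 16777008) (l 16776656)) (b (l 16777000) (l 16776680)))) (c (a (b (l 16775768) (c (l 16775040) (l 16775472))) (b (l 16776008) (c (l 16775480) (l 16775568)))) (a (b (l 16776304) (c (l 16775576) (l 16775672))) (a (b (l 16775688) (l 16775688)) (b (l 16775712) (l 16775728))))))))))), by decide +kernel⟩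

def k33_pm_123_t : ∃ t, chk3 f_pm_123_t t 1020 62 3 = true :=
  ⟨(b (b (b (l 16774336) (l 16774352)) (b (l 16774504) (l 16772112))) (b (b (l 16775008) (l 16773968)) (b (a (l 16775496) (l 16775664)) (a (l 16775816) (l 16775920))))), by decide +kernel⟩

def k34_pm_123_t : ∃ t, chk3 f_pm_123_t t 1020 63 3 = true :=
  ⟨(b (b (b (a (l 16776136) (l 16776184)) (a (l 16776456) (l 16776448))) (b (a (l 16776784) (l 16776712)) (a (l 16776456) (b (l 16776912) (l 16777040))))) (b (b (a (b (l 16777352) (l 16777512)) (b (l 16777176) (l 16777304))) (b (a (l 16777672) (c (l 16777336) (l 16777536))) (a (c (l 16777712) (l 16777960)) (c (l 16777464) (l 16777672))))) (b (b (a (c (l 16777864) (l 16778120)) (c (l 16777584) (l 16777144))) (b (a (b (c (l 16777960) (l 16778224)) (a (c (l 16777984) (l 16778248)) (b (l 16777712) (l 16777992)))) (a (b (l 16777848) (c (l 16777768) (b (l 16777992) (l 16777992)))) (l 16777720))) (b (a (a (l 16777928) (l 16777856)) (a (l 16777120) (b (c (l 16777624) (l 16777832)) (l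 16777672)))) (a (c (l 16777560) (l 16777816)) (c (l 16777464) (l 16777680)))))) (a (b (b (c (a (l 16777280) (l 16777248)) (a (l 16777544) (l 16777496))) (c (a (l 16776864) (l 16776864)) (a (l 16777128) (l 16777104)))) (c (a (b (l 16776456) (c (l 16775328) (l 16775448))) (b (l 16776480) (c (l 16775384) (l 16775832)))) (a (b (c (l 16776648) (l 16776776)) (c (l 16775576) (l 16776360))) (b (c (l 16776656) (l 16776776)) (b (l 16775768) (l 16776152)))))) (b (c (a (b (l 16777224) (l 16776872)) (b (l 16777200) (l 16776872))) (a (b (l 16777448) (l 16777088)) (b (l 16777400) (l 16776744)))) (c (a (a (b (l 16776504) (l 16776144)) (b (l 16776520) (l 16775848))) (a (b (l 16776536) (l 16775880)) (b (l 16776552) (l 16776232)))) (a (b (c (l 16776672) (l 16776784)) (b (l 16776128) (a (l 16776264) (l 16775632)))) (b (c (l 16776688) (l 16776784)) (b (l 16776160) (a (l 16775656) (l 16775680))))))))))), by decide +kernel⟩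

def k35_pm_123_t : ∃ t, chk3 f_pm_123_t t 2042 62 1 = true :=
  ⟨(b (b (b (a (l 16774776) (a (b (b (c (l 16774888) (l 16775096)) (l 16774920)) (l 16774960)) (b (b (l 16775208) (l 16773872)) (b (c (l 16774944) (l 16775144)) (l 16775080))))) (l 16774912)) (b (l 16773720) (l 16775200))) (b (c (l 16774384) (b (l 16775488) (l 16775672))) (c (b (l 16775632) (l 16775824)) (b (l 16775864) (l 16776064))))), by decide +kernel⟩

def k36_pm_123_t : ∃ t, chk3 f_pm_123_t t 2042 126 1 = true :=
  ⟨(b (b (c (l 16776016) (l 16776272)) (c (l 16776208) (l 16776472))) (b (c (l 16775744) (l 16776192)) (c (b (l 16776544) (l 16776640)) (b (l 16776832) (l 16776936))))), by decide +kernel⟩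

def k37_pm_123_t : ∃ t, chk3 f_pm_123_t t 2042 127 1 = true :=
  ⟨(c (b (b (c (l 16776704) (l 16776528)) (b (l 16776592) (c (l 16776928) (l 16777096)))) (b (b (c (l 16777016) (l 16776856)) (b (c (l 16776424) (l 16777248)) (b (a (b (l 16777248) (a (l 16777232) (l 16777216))) (c (l 16776432) (l 16777248))) (a (l 16777120) (c (l 16776360) (l 16777176)))))) (b (a (c (b (l 16776816) (l 16776536)) (b (l 16776992) (l 16776704))) (c (b (l 16776832) (l 16776576)) (b (l 16776992) (l 16776728)))) (c (a (a (b (l 16775568) (l 16775600)) (b (l 16775608) (l 16775656))) (a (b (l 16775648) (l 16775712)) (b (l 16775688) (l 16775928)))) (a (a (b (l 16775744) (l 16775768)) (b (l 16775768) (l 16775976))) (a (b (l 16775800) (l 16776104)) (b (l 16775824) (a (l 16775560) (l 16775584))))))))) (a (b (b (l 16777128) (b (l 16777288) (l 16777400))) (b (b (l 16777504) (b (l 16777584) (b (b (l 16777616) (c (l 16777496) (l 16777680))) (l 16777488)))) (b (c (b (l 16777176) (l 16776880)) (b (l 16777360) (c (l 16777008)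 (l 16777104)))) (c (b (c (l 16775880) (l 16776624)) (b (l 16776032) (a (l 16776192) (l 16776224)))) (b (c (l 16776712) (l 16776472)) (c (b (l 16775832) (l 16776008)) (b (l 16775912) (l 16776088)))))))) (b (b (l 16777072) (b (l 16777208) (l 16777296))) (b (b (l 16777392) (b (l 16777456) (a (b (b (l 16777520) (l 16777528)) (l 16777448)) (b (l 16777464) (c (l 16777336) (l 16777496)))))) (b (c (b (l 16777152) (c (l 16776848) (l 16776928))) (b (l 16776992) (c (l 16777008) (l 16777088)))) (b (a (c (l 16776608) (l 16776768)) (c (l 16776632) (l 16776776))) (b (c (l 16776256) (c (l 16775872) (l 16776280))) (c (a (l 16775608) (l 16775976)) (c (l 16776064) (l 16776304)))))))))), by decide +kernel⟩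

def k38_pm_123_t : ∃ t, chk3 f_pm_123_t t 2043 31 1 = true :=
  ⟨(a (b (a (a (b (b (b (b (l 16775344) (b (l 16775264) (l 16775144))) (l 16775200)) (b (l 16775296) (l 16775440))) (b (b (l 16775584) (l 16775736)) (b (l 16775896) (l 16776056)))) (l 14)) (l 14)) (a (a (b (b (b (l 16776224) (l 16776392)) (b (l 16776072) (c (l 16776600) (l 16776864)))) (a (b (b (c (l 16776760) (l 16777040)) (c (l 16776920) (l 16777208))) (b (b (c (l 16777032) (l 16777336)) (c (b (l 16777088) (b (l 16777112) (l 16777088))) (b (l 16777392) (b (l 16777424) (c (l 16777320) (l 16777480)))))) (c (b (b (l 16776920) (l 16776672)) (b (l 16776456) (b (l 16775920) (l 16775968)))) (c (b (l 16777016) (b (l 16776640) (l 16775736))) (b (l 16776512) (b (l 16776784) (l 16776200))))))) (l 14))) (l 14)) (l 14))) (l 14)), by decide +kernel⟩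

def k39_pm_123_t : ∃ t, chk3 f_pm_123_t t 511 31 1 = true :=
  ⟨(l 14), by decide +kernel⟩

theorem s40_pm_123_t : ∃ t, chk3 f_pm_123_t t 2042 63 1 = true := ex3_b k36_pm_123_t k37_pm_123_t

theorem s41_pm_123_t : ∃ t, chk3 f_pm_123_t t 2042 31 1 = true := ex3_b k35_pm_123_t s40_pm_123_t

theorem s42_pm_123_t : ∃ t, chk3 f_pm_123_t t 1021 31 1 = true := ex3_a s41_pm_123_t k38_pm_123_t

theorem s43_pm_123_t : ∃ t, chk3 f_pm_123_t t 1020 31 3 = true := ex3_b k33_pm_123_t k34_pm_123_t

theorem s44_pm_123_t : ∃ t, chk3 f_pm_123_t t 1020 31 1 = true := ex3_c k32_pm_123_t s43_pm_123_t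

theorem s45_pm_123_t : ∃ t, chk3 f_pm_123_t t 510 31 1 = true := ex3_a s44_pm_123_t s42_pm_123_t

theorem s46_pm_123_t : ∃ t, chk3 f_pm_123_t t 255 31 1 = true := ex3_a s45_pm_123_t k39_pm_123_t

theorem s47_pm_123_t : ∃ t, chk3 f_pm_123_t t 509 511 1 = true := ex3_a k30_pm_123_t k31_pm_123_t

theorem s48_pm_123_t : ∃ t, chk3 f_pm_123_t t 509 255 1 = true := ex3_b k29_pm_123_t s47_pm_123_t

theorem s49_pm_123_t : ∃ t, chk3 f_pm_123_t t 508 255 1 = true := ex3_b k27_pm_123_t k28_pm_123_t

theorem s50_pm_123_t : ∃ t, chk3 f_pm_123_t t 254 255 1 = true := ex3_a s49_pm_123_t s48_pm_123_t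

theorem s51_pm_123_t : ∃ t, chk3 f_pm_123_t t 254 127 1 = true := ex3_b k26_pm_123_t s50_pm_123_t

theorem s52_pm_123_t : ∃ t, chk3 f_pm_123_t t 254 63 1 = true := ex3_b k25_pm_123_t s51_pm_123_t

theorem s53_pm_123_t : ∃ t, chk3 f_pm_123_t t 254 31 1 = true := ex3_b k24_pm_123_t s52_pm_123_t

theorem s54_pm_123_t : ∃ t, chk3 f_pm_123_t t 127 31 1 = true := ex3_a s53_pm_123_t s46_pm_123_t

theorem s55_pm_123_t : ∃ t, chk3 f_pm_123_t t 507 31 1 = true := ex3_a k22_pm_123_t k23_pm_123_t

theorem s56_pm_123_t : ∃ t, chk3 f_pm_123_t t 253 31 1 = true := ex3_a k21_pm_123_t s55_pm_123_t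

theorem s57_pm_123_t : ∃ t, chk3 f_pm_123_t t 126 31 1 = true := ex3_a k20_pm_123_t s56_pm_123_t

theorem s58_pm_123_t : ∃ t, chk3 f_pm_123_t t 63 31 1 = true := ex3_a s57_pm_123_t s54_pm_123_t

theorem s59_pm_123_t : ∃ t, chk3 f_pm_123_t t 31 31 1 = true := ex3_a k19_pm_123_t s58_pm_123_t

theorem s60_pm_123_t : ∃ t, chk3 f_pm_123_t t 510 61 1 = true := ex3_b k16_pm_123_t k17_pm_123_t

theorem s61_pm_123_t : ∃ t, chk3 f_pm_123_t t 510 30 1 = true := ex3_b k15_pm_123_t s60_pm_123_t

theorem s62_pm_123_t : ∃ t, chk3 f_pm_123_t t 255 30 1 = true := ex3_a s61_pm_123_t k18_pm_123_t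

theorem s63_pm_123_t : ∃ t, chk3 f_pm_123_t t 254 30 1 = true := ex3_b k13_pm_123_t k14_pm_123_t

theorem s64_pm_123_t : ∃ t, chk3 f_pm_123_t t 127 30 1 = true := ex3_a s63_pm_123_t s62_pm_123_t

theorem s65_pm_123_t : ∃ t, chk3 f_pm_123_t t 63 30 1 = true := ex3_a k12_pm_123_t s64_pm_123_t

theorem s66_pm_123_t : ∃ t, chk3 f_pm_123_t t 31 30 1 = true := ex3_a k11_pm_123_t s65_pm_123_t

theorem s67_pm_123_t : ∃ t, chk3 f_pm_123_t t 31 15 1 = true := ex3_b s66_pm_123_t s59_pm_123_t

theorem s68_pm_123_t : ∃ t, chk3 f_pm_123_t t 15 15 1 = true := ex3_a k10_pm_123_t s67_pm_123_t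

theorem s69_pm_123_t : ∃ t, chk3 f_pm_123_t t 63 29 1 = true := ex3_a k8_pm_123_t k9_pm_123_t

theorem s70_pm_123_t : ∃ t, chk3 f_pm_123_t t 31 29 1 = true := ex3_a k7_pm_123_t s69_pm_123_t

theorem s71_pm_123_t : ∃ t, chk3 f_pm_123_t t 31 14 1 = true := ex3_b k6_pm_123_t s70_pm_123_t

theorem s72_pm_123_t : ∃ t, chk3 f_pm_123_t t 15 14 1 = true := ex3_a k5_pm_123_t s71_pm_123_t

theorem s73_pm_123_t : ∃ t, chk3 f_pm_123_t t 15 7 1 = true := ex3_b s72_pm_123_t s68_pm_123_t

theorem s74_pm_123_t : ∃ t, chk3 f_pm_123_t t 7 7 1 = true := ex3_a k4_pm_123_t s73_pm_123_t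

theorem s75_pm_123_t : ∃ t, chk3 f_pm_123_t t 7 3 1 = true := ex3_b k3_pm_123_t s74_pm_123_t

theorem s76_pm_123_t : ∃ t, chk3 f_pm_123_t t 3 3 1 = true := ex3_a k2_pm_123_t s75_pm_123_t

theorem s77_pm_123_t : ∃ t, chk3 f_pm_123_t t 3 1 1 = true := ex3_b k1_pm_123_t s76_pm_123_t

theorem s78_pm_123_t : ∃ t, chk3 f_pm_123_t t 1 1 1 = true := ex3_a k0_pm_123_t s77_pm_123_t

theorem c_pm_123_t : CertNE 536870912 536870912 0 536870912 1020054732 13421774 3 eng mog cd0q1 cd0q2 pd3 true true false .npn 1 2 3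
    ndB0q1 ndB0q2 pcB3 cut_pm_123_t Ext.none :=
  certNE2 (fam := true) (s1 := true) (s2 := false) (a := 1) (b := 2) (c := 3) (cn := .npn) (n1 := ndB0q1) (n2 := ndB0q2) (pc := pcB3) (cut := cut_pm_123_t) (xt := Ext.none) (P1 := 536870912) (W1 := 536870912) (P2 := 0) (W2 := 536870912) (P3 := 1020054732) (W3 := 13421774) (N0 := 3) (En := eng) (mo := mog) (C1 := cd0q1) (C2 := cd0q2) (C3 := pd3)
    rfl (fun _ => rfl) s78_pm_123_t

noncomputable def cut_pm_202_s : Cut := Cut.of [[⟨4, 0, 0, 1449551462⟩], [⟨0, 1, 0, 33554432⟩, ⟨1, 0, 0, 33554432⟩, ⟨2, 1, 0, 33554432⟩]]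

noncomputable def f_pm_202_s : ℕ → ℕ → ℕ → ℕ → Bool := onCell 0 536870912 1073741824 536870912 1020054732 13421774
    (rowNE 3 eng mog cd0q2 cd0q0 pd2 1 true true false .pp 2 0 2 (qsf 0 536870912 0 536870912 2) ndB0q2 ndB0q0 pcB2 cut_pm_202_s Ext.none)

def k0_pm_202_s : ∃ t, chk3 f_pm_202_s t 2 4 1 = true :=
  ⟨(b (l 1) (l 6)), by decide +kernel⟩

def k1_pm_202_s : ∃ t, chk3 f_pm_202_s t 6 8 1 = true :=
  ⟨(l 1), by decide +kernel⟩

def k2_pm_202_s : ∃ t, chk3 f_pm_202_s t 14 8 1 = true :=
  ⟨(b (l 1) (a (b (l 1) (b (l 1) (a (l 1) (l 16431096)))) (b (a (l 1) (b (a (l 1) (b (l 1) (l 16520248))) (a (l 16509472) (b (l 16531752) (l 16543704))))) (a (b (l 16431840) (l 16479344)) (b (a (l 16534256) (l 16541504)) (l 16511936)))))), by decide +kernel⟩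

def k3_pm_202_s : ∃ t, chk3 f_pm_202_s t 15 16 1 = true :=
  ⟨(b (a (l 1) (l 14)) (b (a (a (l 1) (l 14)) (l 14)) (b (a (a (l 1) (l 14)) (l 14)) (b (a (a (l 1) (l 14)) (l 14)) (a (a (a (l 1) (a (l 1) (c (a (l 16574984) (l 16583216)) (a (l 16557400) (l 16566760))))) (a (a (c (l 16595704) (l 16580952)) (c (l 16612816) (l 16600384))) (a (c (l 16630688) (l 16620672)) (l 16624464)))) (a (a (a (l 16644664) (l 16685944)) (l 16684696)) (a (l 16690616) (a (l 16678376) (l 16663168))))))))), by decide +kernel⟩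

def k4_pm_202_s : ∃ t, chk3 f_pm_202_s t 30 17 1 = true :=
  ⟨(b (a (a (c (b (b (l 16548936) (l 16561072)) (l 16559080)) (b (b (l 16528640) (l 16538616)) (l 16512560))) (b (a (b (c (b (l 16568944) (l 16574920)) (b (l 16549568) (l 16554448))) (c (l 16584064) (l 16561992))) (b (c (a (l 16562784) (l 16591896)) (a (b (l 16562080) (l 16566896)) (l 16573832))) (c (l 16578880) (a (l 16574376) (l 16583704))))) (a (b (l 16563664) (l 16575648)) (b (c (l 16612352) (l 16589384)) (l 16570920))))) (a (b (b (c (a (l 16583256) (l 16600176)) (a (b (l 16585616) (l 16590416)) (l 16586432))) (c (a (l 16616032) (l 16632712)) (a (l 16597848) (l 16617224)))) (b (a (l 16576384) (l 16615264)) (c (l 16628208) (l 16607728)))) (b (b (c (b (l 16624240) (l 16629696)) (a (l 16627648) (l 16648592))) (c (l 16638144) (l 16605896))) (b (a (l 16633952) (l 16653288)) (l 16623680))))) (a (b (a (l 16529280) (a (l 16573472) (a (l 16585456) (l 16593880)))) (a (l 16576840) (b (l 16580344) (l 16594032)))) (b (a (b (l 16588336)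 (l 16601048)) (b (l 16625264) (l 16637832))) (a (a (l 16612192) (l 16629776)) (a (l 16624648) (l 16610008)))))), by decide +kernel⟩

def k5_pm_202_s : ∃ t, chk3 f_pm_202_s t 31 17 1 = true :=
  ⟨(b (a (a (b (b (c (l 16643312) (l 16638872)) (a (l 16662248) (l 16682288))) (c (l 16650216) (l 16653624))) (b (b (c (l 16680736) (l 16681720)) (a (l 16702184) (l 16694184))) (c (l 16653592) (l 16654312)))) (b (a (b (c (l 16670792) (l 16664448)) (c (l 16674416) (l 16668264))) (b (c (l 16653504) (b (l 16656600) (l 16648008))) (c (l 16630856) (c (l 16637680) (l 16631640))))) (a (b (c (l 16656352) (l 16650520)) (c (l 16658552) (l 16632144))) (c (b (l 16628664) (l 16610240)) (b (l 16595712) (l 16598368)))))) (a (b (a (b (l 16656656) (l 16637376)) (b (l 16625744) (l 16606448))) (a (c (l 16602128) (l 16613968)) (c (l 16596120) (l 16579488)))) (b (a (b (c (l 16639376) (l 16634472)) (c (l 16619960) (l 16615712))) (c (b (l 16612488) (l 16594016)) (c (l 16552776) (l 16547008)))) (a (c (l 16549344) (l 16546392))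 (c (b (l 16576016) (l 16558160)) (b (l 16565600) (l 16548624))))))), by decide +kernel⟩

def k6_pm_202_s : ∃ t, chk3 f_pm_202_s t 6 9 1 = true :=
  ⟨(a (b (l 1) (l 6)) (b (a (b (l 1) (a (l 16321088) (a (l 16382664) (l 16396984)))) (b (b (l 1) (a (l 16413936) (l 16448704))) (a (b (l 16445792) (l 16479392)) (c (l 16477088) (l 16474712))))) (a (b (a (l 16392088) (l 16418600)) (l 6)) (b (a (l 16428040) (a (l 16474400) (l 16472352))) (b (l 16477072) (l 16434904)))))), by decide +kernel⟩

def k7_pm_202_s : ∃ t, chk3 f_pm_202_s t 14 9 1 = true :=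
  ⟨(b (a (b (a (b (l 16415784) (l 16466800)) (b (l 16480344) (l 16489408))) (a (b (l 16477600) (l 16490088)) (l 16453704))) (b (a (b (l 16507648) (l 16516696)) (b (l 16540240) (l 16549648))) (a (c (l 16566192) (l 16521720)) (b (l 16578672) (l 16537896))))) (a (b (a (l 16464936) (l 16473216)) (a (l 16433568) (l 16414472))) (b (a (b (l 16551184) (l 16511408)) (b (l 16520200) (l 16483224))) (a (b (l 16494920) (l 16501272)) (l 16430800))))), by decide +kernel⟩

def k8_pm_202_s : ∃ t, chk3 f_pm_202_s t 15 9 1 = true :=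
  ⟨(b (a (b (a (b (a (l 16584152) (l 16594528)) (c (l 16560232) (l 16588968))) (b (a (l 16584296) (c (l 16587648) (l 16609976))) (a (l 16544224) (b (l 16569096) (l 16550368))))) (a (b (b (l 16549120) (l 16529448)) (a (l 16552712) (l 16512480))) (b (a (l 16506184) (c (l 16550600) (l 16579504))) (a (l 16469984) (l 16467056))))) (b (a (b (a (b (l 16578424) (l 16580200)) (c (l 16557496) (l 16564320))) (a (a (l 16538648) (l 16545592)) (b (l 16533896) (l 16537536)))) (b (a (c (l 16533528) (l 16532880)) (b (c (l 16540544) (l 16532064)) (c (l 16523288) (l 16516024)))) (c (a (l 16518824) (l 16497112)) (a (l 16521016) (l 16491864))))) (a (c (a (b (l 16527896) (l 16491536)) (b (l 16505176) (l 16469392))) (a (l 16469528) (b (l 16518272) (l 16486024)))) (c (b (a (l 16483304) (l 16462328)) (a (l 16448144) (l 16427840))) (b (a (l 16488664) (l 16460112)) (a (l 16456976) (l 16429024))))))) (a (a (b (b (a (l 16515896) (l 16498088)) (l 16451312)) (b (l 16417216) (l 16425984))) (b (a (b (l 16477448) (l 16443496))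 (b (l 16453672) (l 16420128))) (a (b (l 16389440) (l 16357376)) (b (l 16387496) (l 16355888))))) (a (b (a (b (l 16406928) (l 16373840)) (c (b (l 16434176) (l 16399656)) (l 16376240))) (a (b (l 16341648) (l 16310424)) (c (a (l 16354408) (l 16344344)) (l 16358856)))) (b (c (b (a (l 16413496) (l 16393808)) (a (l 16379528) (l 16360368))) (b (a (l 16426056) (l 16398728)) (a (l 16396056) (l 16369312)))) (c (b (a (l 16346176) (l 16327408)) (a (l 16313416) (l 16294784))) (b (a (l 16366904) (l 16340664)) (l 16283416))))))), by decide +kernel⟩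

def k9_pm_202_s : ∃ t, chk3 f_pm_202_s t 2 5 1 = true :=
  ⟨(l 6), by decide +kernel⟩

def k10_pm_202_s : ∃ t, chk3 f_pm_202_s t 6 5 1 = true :=
  ⟨(b (a (l 6) (b (a (l 6) (b (a (l 6) (l 16389600)) (l 6))) (l 6))) (l 6)), by decide +kernel⟩

def k11_pm_202_s : ∃ t, chk3 f_pm_202_s t 7 5 1 = true :=
  ⟨(a (b (b (a (b (a (b (l 16459032) (l 16464600)) (l 16404832)) (a (l 16369416) (l 16356872))) (b (a (l 16407184) (l 16384512)) (a (l 16362080) (l 16342328)))) (a (b (l 6) (l 6)) (b (a (l 16320776) (l 16303800)) (a (l 6) (l 16247344))))) (l 6)) (b (b (a (a (b (l 16262984) (l 16233928)) (b (a (b (l 16326416) (l 16296440)) (b (l 16325216) (l 16316384))) (b (a (c (l 16297432) (l 16363504)) (l 16245288)) (b (a (l 16287840) (l 16286752)) (b (a (l 16256360) (l 16276080)) (b (c (a (c (l 16220272) (l 16275760)) (l 16217416)) (l 16232192)) (l 16194320))))))) (c (b (a (b (l 16232152) (a (l 16289096) (l 16268616))) (b (a (l 16281048) (l 16262480)) (a (l 16249056) (l 16230432)))) (b (a (a (l 16257728)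 (l 16237016)) (a (l 16217232) (l 16198392))) (b (a (l 16223912) (l 16183480)) (b (a (l 16211848) (l 16170712)) (a (a (l 16214584) (l 16171936)) (b (b (a (l 16132816) (b (l 16155848) (l 16133256))) (l 16162272)) (l 16159696))))))) (b (a (b (l 16330456) (l 16302960)) (b (l 16255808) (l 16228808))) (b (a (l 16276144) (l 16202416)) (b (a (l 16277424) (l 16224936)) (a (b (l 16267704) (l 16261280)) (b (l 16215344) (l 16188016)))))))) (a (a (b (l 16198064) (l 16164960)) (b (a (l 16134864) (l 16154896)) (a (l 16103864) (l 16124584)))) (c (a (b (a (l 16182888) (l 16161456)) (l 16077232)) (b (b (l 16144400) (l 16117768)) (l 16037408))) (a (b (l 16191088) (l 16184920)) (b (l 16118128) (l 16133448)))))) (a (b (b (a (l 16134816) (a (l 16075800) (l 16097264))) (l 6)) (l 6)) (b (a (b (c (l 16069264) (l 16139600)) (c (l 16022424) (l 16096960))) (b (c (l 16030736) (l 16088592)) (c (l 15985152) (l 16046368)))) (a (l 6) (c (l 15922456) (l 15987904))))))), by decide +kernel⟩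

def k12_pm_202_s : ∃ t, chk3 f_pm_202_s t 1 3 1 = true :=
  ⟨(a (l 6) (l 6)), by decide +kernel⟩

theorem s13_pm_202_s : ∃ t, chk3 f_pm_202_s t 3 5 1 = true := ex3_a k10_pm_202_s k11_pm_202_s

theorem s14_pm_202_s : ∃ t, chk3 f_pm_202_s t 1 5 1 = true := ex3_a k9_pm_202_s s13_pm_202_s

theorem s15_pm_202_s : ∃ t, chk3 f_pm_202_s t 7 9 1 = true := ex3_a k7_pm_202_s k8_pm_202_s

theorem s16_pm_202_s : ∃ t, chk3 f_pm_202_s t 3 9 1 = true := ex3_a k6_pm_202_s s15_pm_202_s

theorem s17_pm_202_s : ∃ t, chk3 f_pm_202_s t 15 17 1 = true := ex3_a k4_pm_202_s k5_pm_202_s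

theorem s18_pm_202_s : ∃ t, chk3 f_pm_202_s t 15 8 1 = true := ex3_b k3_pm_202_s s17_pm_202_s

theorem s19_pm_202_s : ∃ t, chk3 f_pm_202_s t 7 8 1 = true := ex3_a k2_pm_202_s s18_pm_202_s

theorem s20_pm_202_s : ∃ t, chk3 f_pm_202_s t 3 8 1 = true := ex3_a k1_pm_202_s s19_pm_202_s

theorem s21_pm_202_s : ∃ t, chk3 f_pm_202_s t 3 4 1 = true := ex3_b s20_pm_202_s s16_pm_202_s

theorem s22_pm_202_s : ∃ t, chk3 f_pm_202_s t 1 4 1 = true := ex3_a k0_pm_202_s s21_pm_202_s

theorem s23_pm_202_s : ∃ t, chk3 f_pm_202_s t 1 2 1 = true := ex3_b s22_pm_202_s s14_pm_202_s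

theorem s24_pm_202_s : ∃ t, chk3 f_pm_202_s t 1 1 1 = true := ex3_b s23_pm_202_s k12_pm_202_s

theorem c_pm_202_s : CertNE 0 536870912 0 536870912 1020054732 13421774 3 eng mog cd0q2 cd0q0 pd2 true true false .pp 2 0 2
    ndB0q2 ndB0q0 pcB2 cut_pm_202_s Ext.none :=
  certNE1 (fam := true) (s1 := true) (s2 := false) (a := 2) (b := 0) (c := 2) (cn := .pp) (n1 := ndB0q2) (n2 := ndB0q0) (pc := pcB2) (cut := cut_pm_202_s) (xt := Ext.none) (P1 := 0) (W1 := 536870912) (P2 := 0) (W2 := 536870912) (P3 := 1020054732) (W3 := 13421774) (N0 := 3) (En := eng) (mo := mog) (C1 := cd0q2) (C2 := cd0q0) (C3 := pd2)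
    rfl (fun _ => rfl) s24_pm_202_s

noncomputable def cut_pm_202_t : Cut := Cut.of [[⟨3, 0, 0, 2845415833⟩], [⟨0, 1, 0, 33554432⟩, ⟨1, 0, 0, 33554432⟩, ⟨2, 1, 0, 33554432⟩]]

noncomputable def f_pm_202_t : ℕ → ℕ → ℕ → ℕ → Bool := onCell 0 536870912 1073741824 536870912 1020054732 13421774
    (rowNE 3 eng mog cd0q2 cd0q0 pd2 1 true true false .pp 2 0 2 (qsf 0 536870912 0 536870912 2) ndB0q2 ndB0q0 pcB2 cut_pm_202_t Ext.none)

def k0_pm_202_t : ∃ t, chk3 f_pm_202_t t 1 1 1 = true :=
  ⟨(b (l 6) (a (l 6) (l 6))), by decide +kernel⟩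

theorem c_pm_202_t : CertNE 0 536870912 0 536870912 1020054732 13421774 3 eng mog cd0q2 cd0q0 pd2 true true false .pp 2 0 2
    ndB0q2 ndB0q0 pcB2 cut_pm_202_t Ext.none :=
  certNE1 (fam := true) (s1 := true) (s2 := false) (a := 2) (b := 0) (c := 2) (cn := .pp) (n1 := ndB0q2) (n2 := ndB0q0) (pc := pcB2) (cut := cut_pm_202_t) (xt := Ext.none) (P1 := 0) (W1 := 536870912) (P2 := 0) (W2 := 536870912) (P3 := 1020054732) (W3 := 13421774) (N0 := 3) (En := eng) (mo := mog) (C1 := cd0q2) (C2 := cd0q0) (C3 := pd2)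
    rfl (fun _ => rfl) k0_pm_202_t

noncomputable def cut_pm_203_s : Cut := Cut.of [[⟨4, 0, 0, 1449551462⟩]]

noncomputable def f_pm_203_s : ℕ → ℕ → ℕ → ℕ → Bool := onCell 0 536870912 1610612736 536870912 1020054732 13421774
    (rowNE 3 eng mog cd0q2 cd0q0 pd3 1 true true false .up 2 0 3 (qsf 0 536870912 0 536870912 3) ndB0q2 ndB0q0 pcB3 cut_pm_203_s Ext.none)

def k0_pm_203_s : ∃ t, chk3 f_pm_203_s t 1 1 1 = true :=
  ⟨(l 6), by decide +kernel⟩

theorem c_pm_203_s : CertNE 0 536870912 0 536870912 1020054732 13421774 3 eng mog cd0q2 cd0q0 pd3 true true false .up 2 0 3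
    ndB0q2 ndB0q0 pcB3 cut_pm_203_s Ext.none :=
  certNE1 (fam := true) (s1 := true) (s2 := false) (a := 2) (b := 0) (c := 3) (cn := .up) (n1 := ndB0q2) (n2 := ndB0q0) (pc := pcB3) (cut := cut_pm_203_s) (xt := Ext.none) (P1 := 0) (W1 := 536870912) (P2 := 0) (W2 := 536870912) (P3 := 1020054732) (W3 := 13421774) (N0 := 3) (En := eng) (mo := mog) (C1 := cd0q2) (C2 := cd0q0) (C3 := pd3)
    rfl (fun _ => rfl) k0_pm_203_s

noncomputable def cut_pm_203_t : Cut := Cut.of [[⟨3, 0, 0, 2845415833⟩]]

noncomputable def f_pm_203_t : ℕ → ℕ → ℕ → ℕ → Bool := onCell 0 536870912 0 536870912 1020054732 13421774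
    (rowNE 3 eng mog cd0q2 cd0q0 pd3 0 true true false .up 2 0 3 (qsf 0 536870912 0 536870912 3) ndB0q2 ndB0q0 pcB3 cut_pm_203_t Ext.none)

def k0_pm_203_t : ∃ t, chk3 f_pm_203_t t 1 1 1 = true :=
  ⟨(a (b (l 1) (b (a (b (l 1) (a (b (l 1) (a (l 16486016) (l 6))) (l 6))) (l 6)) (a (b (a (b (a (l 16549280) (l 6)) (b (l 16572608) (l 16596152))) (l 6)) (a (b (b (l 16617432) (l 16615784)) (b (l 16654432) (l 16670760))) (b (a (b (l 16573104) (l 16592680)) (l 6)) (a (l 16620936) (l 16597024))))) (b (l 6) (l 6))))) (l 6)), by decide +kernel⟩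

theorem c_pm_203_t : CertNE 0 536870912 0 536870912 1020054732 13421774 3 eng mog cd0q2 cd0q0 pd3 true true false .up 2 0 3
    ndB0q2 ndB0q0 pcB3 cut_pm_203_t Ext.none :=
  certNE0 (fam := true) (s1 := true) (s2 := false) (a := 2) (b := 0) (c := 3) (cn := .up) (n1 := ndB0q2) (n2 := ndB0q0) (pc := pcB3) (cut := cut_pm_203_t) (xt := Ext.none) (P1 := 0) (W1 := 536870912) (P2 := 0) (W2 := 536870912) (P3 := 1020054732) (W3 := 13421774) (N0 := 3) (En := eng) (mo := mog) (C1 := cd0q2) (C2 := cd0q0) (C3 := pd3)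
    rfl k0_pm_203_t

noncomputable def cut_pm_213_s : Cut := Cut.of [[⟨4, 0, 0, 1449551462⟩], [⟨0, 1, 0, 26738688⟩, ⟨1, 1, 0, 26738688⟩, ⟨2, 2, 0, 2621440⟩], [⟨0, 0, 1, 46137344⟩, ⟨1, 1, 0, 2097152⟩, ⟨2, 1, 1, 46137344⟩, ⟨0, 0, 0, 1041207446⟩, ⟨0, 1, 0, 59055800⟩, ⟨2, 1, 0, 1041207446⟩, ⟨2, 2, 0, 59055800⟩], [⟨0, 1, 0, 2097152⟩, ⟨1, 0, 1, 46137344⟩, ⟨2, 1, 1, 46137344⟩, ⟨1, 0, 0, 1041207446⟩, ⟨1, 1, 0, 59055800⟩, ⟨2, 1, 0, 1041207446⟩, ⟨2, 2, 0, 59055800⟩]]

noncomputable def f_pm_213_s : ℕ → ℕ → ℕ → ℕ → Bool := onCell 0 536870912 536870912 536870912 1020054732 13421774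
    (rowNE 3 eng mog cd0q2 cd0q1 pd3 0 true true false .pnn 2 1 3 (qsf 0 536870912 536870912 536870912 3) ndB0q2 ndB0q1 pcB3 cut_pm_213_s Ext.none)

def k0_pm_213_s : ∃ t, chk3 f_pm_213_s t 1 1 1 = true :=
  ⟨(l 6), by decide +kernel⟩

theorem c_pm_213_s : CertNE 0 536870912 536870912 536870912 1020054732 13421774 3 eng mog cd0q2 cd0q1 pd3 true true false .pnn 2 1 3
    ndB0q2 ndB0q1 pcB3 cut_pm_213_s Ext.none :=
  certNE0 (fam := true) (s1 := true) (s2 := false) (a := 2) (b := 1) (c := 3) (cn := .pnn) (n1 := ndB0q2) (n2 := ndB0q1) (pc := pcB3) (cut := cut_pm_213_s) (xt := Ext.none) (P1 := 0) (W1 := 536870912) (P2 := 536870912) (W2 := 536870912) (P3 := 1020054732) (W3 := 13421774) (N0 := 3) (En := eng) (mo := mog) (C1 := cd0q2) (C2 := cd0q1) (C3 := pd3)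
    rfl k0_pm_213_s

end Pool.Agent.Strip051.G.I9500_9625.Tab.CS.BA00

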