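import Pool.Agent.Strip051.G.I9500_9625.Tab
import Pool.Agent.Strip051.PB.ExtD3

/-! # Certificates B5 (generated) -/

set_option linter.all false
set_option maxRecDepth 100000

namespace Pool.Agent.Strip051.G.I9500_9625.Tab.C.BA00

open Pool.Agent.Strip051.PB Pool.Agent.Strip051.PB.T
open Pool.Agent.Strip051.G.I9500_9625.Tab

noncomputable def cut_mm_001 : Cut := Cut.of [[⟨3, 0, 0, 1449551462⟩], [⟨4, 0, 0, 2845415833⟩]]

noncomputable def f_mm_001 : ℕ → ℕ → ℕ → ℕ → Bool := onCell 0 536870912 0 536870912 1020054732 13421774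
    (rowB 3 eng mog cd0q0 cd0q0 pd1 0 true false false .up 0 0 1 (qsf 0 536870912 0 536870912 1) ndB0q0 ndB0q0 pcB1 cut_mm_001 Ext.none)

def k0_mm_001 : ∃ t, chk3 f_mm_001 t 1 1 1 = true :=
  ⟨(l 4), by decide +kernel⟩

theorem c_mm_001 : CertB 0 536870912 0 536870912 1020054732 13421774 3 eng mog cd0q0 cd0q0 pd1 true false false .up 0 0 1
    ndB0q0 ndB0q0 pcB1 cut_mm_001 Ext.none :=
  certB0 (fam := true) (s1 := false) (s2 := false) (a := 0) (b := 0) (c := 1) (cn := .up) (n1 := ndB0q0) (n2 := ndB0q0) (pc := pcB1) (cut := cut_mm_001) (xt := Ext.none) (P1 := 0) (W1 := 536870912) (P2 := 0) (W2 := 536870912) (P3 := 1020054732) (W3 := 13421774) (N0 := 3) (En := eng) (mo := mog) (C1 := cd0q0) (C2 := cd0q0) (C3 := pd1)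
    rfl k0_mm_001

noncomputable def cut_mm_011 : Cut := Cut.of [[⟨3, 0, 0, 1449551462⟩], [⟨4, 0, 0, 2845415833⟩]]

noncomputable def f_mm_011 : ℕ → ℕ → ℕ → ℕ → Bool := onCell 0 536870912 536870912 536870912 1020054732 13421774
    (rowB 3 eng mog cd0q0 cd0q1 pd1 0 true false false .pnn 0 1 1 (qsf 0 536870912 536870912 536870912 1) ndB0q0 ndB0q1 pcB1 cut_mm_011 Ext.none)

def k0_mm_011 : ∃ t, chk3 f_mm_011 t 1 1 1 = true :=
  ⟨(l 14), by decide +kernel⟩

theorem c_mm_011 : CertB 0 536870912 536870912 536870912 1020054732 13421774 3 eng mog cd0q0 cd0q1 pd1 true false false .pnn 0 1 1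
    ndB0q0 ndB0q1 pcB1 cut_mm_011 Ext.none :=
  certB0 (fam := true) (s1 := false) (s2 := false) (a := 0) (b := 1) (c := 1) (cn := .pnn) (n1 := ndB0q0) (n2 := ndB0q1) (pc := pcB1) (cut := cut_mm_011) (xt := Ext.none) (P1 := 0) (W1 := 536870912) (P2 := 536870912) (W2 := 536870912) (P3 := 1020054732) (W3 := 13421774) (N0 := 3) (En := eng) (mo := mog) (C1 := cd0q0) (C2 := cd0q1) (C3 := pd1)
    rfl k0_mm_011

noncomputable def cut_mm_012 : Cut := Cut.of [[⟨3, 0, 0, 1449551462⟩], [⟨4, 0, 0, 2845415833⟩]]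

noncomputable def f_mm_012 : ℕ → ℕ → ℕ → ℕ → Bool := onCell 0 536870912 536870912 536870912 1020054732 13421774
    (rowB 3 eng mog cd0q0 cd0q1 pd2 0 true false false .pnp 0 1 2 (qsf 0 536870912 536870912 536870912 2) ndB0q0 ndB0q1 pcB2 cut_mm_012 Ext.none)

def k0_mm_012 : ∃ t, chk3 f_mm_012 t 1 1 1 = true :=
  ⟨(l 14), by decide +kernel⟩

theorem c_mm_012 : CertB 0 536870912 536870912 536870912 1020054732 13421774 3 eng mog cd0q0 cd0q1 pd2 true false false .pnp 0 1 2
    ndB0q0 ndB0q1 pcB2 cut_mm_012 Ext.none :=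
  certB0 (fam := true) (s1 := false) (s2 := false) (a := 0) (b := 1) (c := 2) (cn := .pnp) (n1 := ndB0q0) (n2 := ndB0q1) (pc := pcB2) (cut := cut_mm_012) (xt := Ext.none) (P1 := 0) (W1 := 536870912) (P2 := 536870912) (W2 := 536870912) (P3 := 1020054732) (W3 := 13421774) (N0 := 3) (En := eng) (mo := mog) (C1 := cd0q0) (C2 := cd0q1) (C3 := pd2)
    rfl k0_mm_012

noncomputable def cut_mm_022 : Cut := Cut.of [[⟨3, 0, 0, 1449551462⟩], [⟨4, 0, 0, 2845415833⟩]]

noncomputable def f_mm_022 : ℕ → ℕ → ℕ → ℕ → Bool := onCell 0 536870912 0 536870912 1020054732 13421774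
    (rowB 3 eng mog cd0q0 cd0q2 pd2 0 true false false .pp 0 2 2 (qsf 0 536870912 0 536870912 2) ndB0q0 ndB0q2 pcB2 cut_mm_022 Ext.none)

def k0_mm_022 : ∃ t, chk3 f_mm_022 t 1 1 1 = true :=
  ⟨(l 5), by decide +kernel⟩

theorem c_mm_022 : CertB 0 536870912 0 536870912 1020054732 13421774 3 eng mog cd0q0 cd0q2 pd2 true false false .pp 0 2 2
    ndB0q0 ndB0q2 pcB2 cut_mm_022 Ext.none :=
  certB0 (fam := true) (s1 := false) (s2 := false) (a := 0) (b := 2) (c := 2) (cn := .pp) (n1 := ndB0q0) (n2 := ndB0q2) (pc := pcB2) (cut := cut_mm_022) (xt := Ext.none) (P1 := 0) (W1 := 536870912) (P2 := 0) (W2 := 536870912) (P3 := 1020054732) (W3 := 13421774) (N0 := 3) (En := eng) (mo := mog) (C1 := cd0q0) (C2 := cd0q2) (C3 := pd2)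
    rfl k0_mm_022

noncomputable def cut_mm_023 : Cut := Cut.of [[⟨3, 0, 0, 1449551462⟩], [⟨4, 0, 0, 2845415833⟩]]

noncomputable def f_mm_023 : ℕ → ℕ → ℕ → ℕ → Bool := onCell 0 536870912 0 536870912 1020054732 13421774
    (rowB 3 eng mog cd0q0 cd0q2 pd3 0 true false false .up 0 2 3 (qsf 0 536870912 0 536870912 3) ndB0q0 ndB0q2 pcB3 cut_mm_023 Ext.none)

def k0_mm_023 : ∃ t, chk3 f_mm_023 t 1 1 1 = true :=
  ⟨(l 5), by decide +kernel⟩

theorem c_mm_023 : CertB 0 536870912 0 536870912 1020054732 13421774 3 eng mog cd0q0 cd0q2 pd3 true false false .up 0 2 3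
    ndB0q0 ndB0q2 pcB3 cut_mm_023 Ext.none :=
  certB0 (fam := true) (s1 := false) (s2 := false) (a := 0) (b := 2) (c := 3) (cn := .up) (n1 := ndB0q0) (n2 := ndB0q2) (pc := pcB3) (cut := cut_mm_023) (xt := Ext.none) (P1 := 0) (W1 := 536870912) (P2 := 0) (W2 := 536870912) (P3 := 1020054732) (W3 := 13421774) (N0 := 3) (En := eng) (mo := mog) (C1 := cd0q0) (C2 := cd0q2) (C3 := pd3)
    rfl k0_mm_023

noncomputable def cut_mm_101 : Cut := Cut.of [[⟨3, 0, 0, 1449551462⟩], [⟨4, 0, 0, 2845415833⟩], [⟨0, 1, 0, 38347922⟩, ⟨1, 0, 0, 38347922⟩, ⟨2, 1, 0, 38347922⟩]]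

noncomputable def f_mm_101 : ℕ → ℕ → ℕ → ℕ → Bool := onCell 536870912 536870912 0 536870912 1020054732 13421774
    (rowB 3 eng mog cd0q1 cd0q0 pd1 0 true false false .npn 1 0 1 (qsf 536870912 536870912 0 536870912 1) ndB0q1 ndB0q0 pcB1 cut_mm_101 Ext.none)

def k0_mm_101 : ∃ t, chk3 f_mm_101 t 1 1 1 = true :=
  ⟨(l 14), by decide +kernel⟩

theorem c_mm_101 : CertB 536870912 536870912 0 536870912 1020054732 13421774 3 eng mog cd0q1 cd0q0 pd1 true false false .npn 1 0 1
    ndB0q1 ndB0q0 pcB1 cut_mm_101 Ext.none :=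
  certB0 (fam := true) (s1 := false) (s2 := false) (a := 1) (b := 0) (c := 1) (cn := .npn) (n1 := ndB0q1) (n2 := ndB0q0) (pc := pcB1) (cut := cut_mm_101) (xt := Ext.none) (P1 := 536870912) (W1 := 536870912) (P2 := 0) (W2 := 536870912) (P3 := 1020054732) (W3 := 13421774) (N0 := 3) (En := eng) (mo := mog) (C1 := cd0q1) (C2 := cd0q0) (C3 := pd1)
    rfl k0_mm_101

noncomputable def cut_mm_102 : Cut := Cut.of [[⟨3, 0, 0, 1449551462⟩], [⟨4, 0, 0, 2845415833⟩], [⟨0, 1, 0, 38347922⟩, ⟨1, 0, 0, 38347922⟩, ⟨2, 1, 0, 38347922⟩]]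

noncomputable def f_mm_102 : ℕ → ℕ → ℕ → ℕ → Bool := onCell 536870912 536870912 0 536870912 1020054732 13421774
    (rowB 3 eng mog cd0q1 cd0q0 pd2 0 true false false .npp 1 0 2 (qsf 536870912 536870912 0 536870912 2) ndB0q1 ndB0q0 pcB2 cut_mm_102 Ext.none)

def k0_mm_102 : ∃ t, chk3 f_mm_102 t 1 1 1 = true :=
  ⟨(l 14), by decide +kernel⟩

theorem c_mm_102 : CertB 536870912 536870912 0 536870912 1020054732 13421774 3 eng mog cd0q1 cd0q0 pd2 true false false .npp 1 0 2
    ndB0q1 ndB0q0 pcB2 cut_mm_102 Ext.none :=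
  certB0 (fam := true) (s1 := false) (s2 := false) (a := 1) (b := 0) (c := 2) (cn := .npp) (n1 := ndB0q1) (n2 := ndB0q0) (pc := pcB2) (cut := cut_mm_102) (xt := Ext.none) (P1 := 536870912) (W1 := 536870912) (P2 := 0) (W2 := 536870912) (P3 := 1020054732) (W3 := 13421774) (N0 := 3) (En := eng) (mo := mog) (C1 := cd0q1) (C2 := cd0q0) (C3 := pd2)
    rfl k0_mm_102

noncomputable def cut_mm_112 : Cut := Cut.of [[⟨3, 0, 0, 1449551462⟩], [⟨4, 0, 0, 2845415833⟩]]

noncomputable def f_mm_112 : ℕ → ℕ → ℕ → ℕ → Bool := onCell 536870912 536870912 536870912 536870912 1020054732 13421774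
    (rowB 3 eng mog cd0q1 cd0q1 pd2 0 true false false .dn 1 1 2 (qsf 536870912 536870912 536870912 536870912 2) ndB0q1 ndB0q1 pcB2 cut_mm_112 Ext.none)

def k0_mm_112 : ∃ t, chk3 f_mm_112 t 1 1 1 = true :=
  ⟨(l 4), by decide +kernel⟩

theorem c_mm_112 : CertB 536870912 536870912 536870912 536870912 1020054732 13421774 3 eng mog cd0q1 cd0q1 pd2 true false false .dn 1 1 2
    ndB0q1 ndB0q1 pcB2 cut_mm_112 Ext.none :=
  certB0 (fam := true) (s1 := false) (s2 := false) (a := 1) (b := 1) (c := 2) (cn := .dn) (n1 := ndB0q1) (n2 := ndB0q1) (pc := pcB2) (cut := cut_mm_112) (xt := Ext.none) (P1 := 536870912) (W1 := 536870912) (P2 := 536870912) (W2 := 536870912) (P3 := 1020054732) (W3 := 13421774) (N0 := 3) (En := eng) (mo := mog) (C1 := cd0q1) (C2 := cd0q1) (C3 := pd2)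
    rfl k0_mm_112

noncomputable def cut_mm_113 : Cut := Cut.of [[⟨3, 0, 0, 1449551462⟩], [⟨4, 0, 0, 2845415833⟩]]

noncomputable def f_mm_113 : ℕ → ℕ → ℕ → ℕ → Bool := onCell 536870912 536870912 536870912 536870912 1020054732 13421774
    (rowB 3 eng mog cd0q1 cd0q1 pd3 0 true false false .nn 1 1 3 (qsf 536870912 536870912 536870912 536870912 3) ndB0q1 ndB0q1 pcB3 cut_mm_113 Ext.none)

def k0_mm_113 : ∃ t, chk3 f_mm_113 t 1 1 1 = true :=
  ⟨(l 4), by decide +kernel⟩

theorem c_mm_113 : CertB 536870912 536870912 536870912 536870912 1020054732 13421774 3 eng mog cd0q1 cd0q1 pd3 true false false .nn 1 1 3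
    ndB0q1 ndB0q1 pcB3 cut_mm_113 Ext.none :=
  certB0 (fam := true) (s1 := false) (s2 := false) (a := 1) (b := 1) (c := 3) (cn := .nn) (n1 := ndB0q1) (n2 := ndB0q1) (pc := pcB3) (cut := cut_mm_113) (xt := Ext.none) (P1 := 536870912) (W1 := 536870912) (P2 := 536870912) (W2 := 536870912) (P3 := 1020054732) (W3 := 13421774) (N0 := 3) (En := eng) (mo := mog) (C1 := cd0q1) (C2 := cd0q1) (C3 := pd3)
    rfl k0_mm_113

noncomputable def cut_mm_123 : Cut := Cut.of [[⟨3, 0, 0, 1449551462⟩], [⟨4, 0, 0, 2845415833⟩]]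

noncomputable def f_mm_123 : ℕ → ℕ → ℕ → ℕ → Bool := onCell 536870912 536870912 0 536870912 1020054732 13421774
    (rowB 3 eng mog cd0q1 cd0q2 pd3 0 true false false .npn 1 2 3 (qsf 536870912 536870912 0 536870912 3) ndB0q1 ndB0q2 pcB3 cut_mm_123 Ext.none)

def k0_mm_123 : ∃ t, chk3 f_mm_123 t 1 1 1 = true :=
  ⟨(a (l 5) (l 4)), by decide +kernel⟩

theorem c_mm_123 : CertB 536870912 536870912 0 536870912 1020054732 13421774 3 eng mog cd0q1 cd0q2 pd3 true false false .npn 1 2 3
    ndB0q1 ndB0q2 pcB3 cut_mm_123 Ext.none :=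
  certB0 (fam := true) (s1 := false) (s2 := false) (a := 1) (b := 2) (c := 3) (cn := .npn) (n1 := ndB0q1) (n2 := ndB0q2) (pc := pcB3) (cut := cut_mm_123) (xt := Ext.none) (P1 := 536870912) (W1 := 536870912) (P2 := 0) (W2 := 536870912) (P3 := 1020054732) (W3 := 13421774) (N0 := 3) (En := eng) (mo := mog) (C1 := cd0q1) (C2 := cd0q2) (C3 := pd3)
    rfl k0_mm_123

noncomputable def cut_mm_202 : Cut := Cut.of [[⟨3, 0, 0, 1449551462⟩], [⟨4, 0, 0, 2845415833⟩], [⟨0, 1, 0, 26843545⟩, ⟨1, 0, 0, 26843545⟩, ⟨2, 1, 0, 26843545⟩]]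

noncomputable def f_mm_202 : ℕ → ℕ → ℕ → ℕ → Bool := onCell 0 536870912 0 536870912 1020054732 13421774
    (rowB 3 eng mog cd0q2 cd0q0 pd2 0 true false false .pp 2 0 2 (qsf 0 536870912 0 536870912 2) ndB0q2 ndB0q0 pcB2 cut_mm_202 Ext.none)

def k0_mm_202 : ∃ t, chk3 f_mm_202 t 4 4 1 = true :=
  ⟨(b (b (a (b (l 15928032) (l 15819680)) (b (l 15855264) (l 15739176))) (a (b (l 15709808) (l 15603024)) (b (a (l 15638688) (a (l 15611640) (l 15581024))) (a (l 15505728) (a (l 15496704) (a (b (l 15513296) (l 15463712)) (b (l 15525072) (l 15491616)))))))) (a (b (b (l 15462584) (c (l 15417168) (l 15406344))) (b (c (l 15311288) (l 15317328)) (c (a (l 15284592) (l 15199960)) (l 15234080)))) (b (a (c (b (l 15431144) (l 15336112)) (l 15364792)) (a (a (b (l 15395408) (b (l 15321296) (a (l 15275912) (b (l 15286912) (l 15272688))))) (b (b (l 15412776) (a (l 15363544) (l 15368320))) (b (a (l 15323280) (l 15341808)) (l 15310064)))) (b (b (a (l 15424176) (l 15462848)) (l 15417000)) (l 15383864))))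 (a (a (c (b (l 15259632) (l 15177264)) (l 15170816)) (a (b (l 15227408) (c (b (l 15178712) (a (l 15141760) (b (a (l 15147032) (l 15151376)) (l 15140424)))) (b (l 15148992) (a (l 15110192) (l 15114096))))) (b (b (l 15238352) (a (l 15196928) (b (c (l 15220736) (l 15192184)) (l 15194504)))) (b (a (b (c (l 15184440) (l 15154336)) (l 15158456)) (l 15184744)) (l 15162360))))) (b (b (b (a (a (a (l 15245600) (l 15263392)) (l 15296216)) (l 15361704)) (l 15288208)) (l 15278840)) (c (c (l 15263248) (l 15249128)) (l 15248824))))))), by decide +kernel⟩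

def k1_mm_202 : ∃ t, chk3 f_mm_202 t 5 4 1 = true :=
  ⟨(b (b (a (a (b (a (l 15834160) (l 15865688)) (a (l 15726416) (l 15782488))) (b (l 15957376) (l 15881144))) (a (b (l 16077336) (l 16010616)) (b (l 16131336) (l 16115616)))) (a (b (a (b (l 15688360) (l 15651840)) (l 15811096)) (a (l 15602120) (l 15751624))) (b (a (l 15949384) (a (l 16050392) (l 16116368))) (a (l 15898248) (a (l 16005240) (l 16075000)))))) (a (b (a (b (l 15549760) (l 15510240)) (b (l 15707728) (l 15676192))) (a (b (c (l 15473592) (l 15471872)) (c (l 15459360) (l 15455912))) (b (l 15656696) (c (l 15658896) (l 15638344))))) (b (a (b (l 15862288) (l 15838248)) (b (l 16033008) (b (l 15998256) (l 15992568)))) (a (b (l 15825800) (b (l 15823712) (l 15825512))) (b (b (l 15989688) (l 15989552)) (b (l 15991976) (l 15996800))))))), by decide +kernel⟩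

def k2_mm_202 : ∃ t, chk3 f_mm_202 t 8 10 1 = true :=
  ⟨(b (c (a (b (l 15190712) (a (l 15161472) (l 15126200))) (b (b (l 15164096) (a (l 15143664) (l 15111960))) (a (b (l 15109032) (l 15075712)) (b (l 15076776) (l 15042928))))) (b (a (l 15192752) (l 15118920)) (a (l 15121200) (a (l 15063240) (l 15026648))))) (a (b (c (a (l 15099232) (l 15063104)) (l 15054752)) (c (c (l 15031200) (l 15016104)) (l 14993392))) (a (b (c (c (l 15036424) (l 15019976)) (l 14995200)) (c (c (l 14978600) (l 14960176)) (l 14932384))) (b (a (c (l 15030384) (l 14966664)) (b (c (b (l 15010280) (a (l 14998320) (a (l 14992248) (c (b (l 15001968) (l 14996120)) (l 14980592))))) (l 14966584)) (a (c (b (l 14982688) (a (l 14969456) (c (l 14998136) (l 14957496)))) (l 14937848)) (c (c (b (a (b (l 14990360) (l 14984720)) (l 15013848)) (b (l 14987584) (l 14988816))) (b (a (l 14968832) (l 14973448)) (l 14968408))) (b (l 14942840) (l 14938800)))))) (a (b (c (b (l 14965016) (a (l 14954720) (a (l 14948328) (c (l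 14956264) (l 14936104))))) (l 14920128)) (a (b (l 14920448) (c (c (l 14938864) (l 14918336)) (l 14887360))) (c (b (c (a (l 14946440) (l 14951368)) (l 14929464)) (c (l 14948448) (l 14927864))) (b (l 14898688) (l 14896784))))) (b (a (c (c (b (a (l 14966504) (l 14971272)) (l 14967392)) (b (a (l 14946592) (l 14951336)) (l 14947280))) (b (l 14919896) (l 14916920))) (c (l 14982688) (l 14942936))) (c (l 14977040) (l 14936656)))))))), by decide +kernel⟩

def k3_mm_202 : ∃ t, chk3 f_mm_202 t 9 20 1 = true :=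
  ⟨(a (b (a (b (c (a (l 15126144) (b (l 15121392) (l 15103816))) (l 15088848)) (a (c (l 15089184) (l 15056368)) (a (c (b (l 15087336) (a (l 15070896) (b (l 15072016) (l 15064792)))) (l 15045440)) (b (c (a (l 15083728) (l 15088064)) (l 15052488)) (c (b (l 15079856) (l 15078776)) (l 15044288)))))) (b (a (a (b (c (a (l 15114464) (l 15118792)) (l 15084520)) (c (l 15108872) (l 15075288))) (l 15118232)) (l 15154424)) (c (l 15141424) (l 15108024)))) (a (a (b (c (b (l 15062328) (a (l 15048656) (a (l 15042944) (b (l 15043744) (a (l 15036008) (c (l 15045776) (l 15027608))))))) (l 15020056)) (a (c (a (l 15025072) (a (l 15022376) (b (l 15028656) (b (l 15016264) (l 15010608))))) (l 14988096)) (c (b (a (b (l 15030272) (a (l 15022736) (l 15044408))) (b (a (c (l 15039160) (l 15020848)) (l 15035088)) (l 15031704))) (b (a (a (l 15016968) (l 15022088)) (l 15031640)) (l 15025352))) (b (a (l 14990848) (l 14995264)) (l 14987896))))) (b (a (b (c (a (b (l 15057656) (a (l 15049720) (l 15050416)))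 (b (l 15059904) (l 15058536))) (l 15043304)) (c (b (a (a (l 15043504) (l 15048536)) (l 15057904)) (l 15051168)) (l 15015168))) (c (l 15076888) (l 15041464))) (c (l 15063392) (l 15027080)))) (c (b (l 15138984) (c (l 15147840) (l 15130616))) (l 15104488)))) (b (c (b (l 15247264) (l 15244752)) (l 15236832)) (c (b (l 15244896) (a (l 15239696) (l 15339256))) (l 15235960)))), by decide +kernel⟩

def k4_mm_202 : ∃ t, chk3 f_mm_202 t 9 21 1 = true :=
  ⟨(a (b (b (a (a (a (c (b (a (b (l 15004632) (c (l 15007944) (l 14988960))) (b (a (l 15004352) (l 15009536)) (l 15006656))) (b (a (c (l 15004320) (l 14985184)) (l 15007152)) (l 15001304))) (b (l 14988504) (l 14962448))) (c (l 15026296) (l 14988592))) (c (l 15065016) (l 15028192))) (c (l 15142120) (l 15107040))) (c (a (c (l 15052440) (l 15033600)) (l 15147568)) (l 15058688))) (c (c (b (l 15048784) (l 15058480)) (l 15055904)) (l 15049000))) (b (c (b (l 15252872) (l 15260584)) (l 15266664)) (c (b (l 15270704) (l 15304136)) (l 15286464)))),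 by decide +kernel⟩

def k5_mm_202 : ∃ t, chk3 f_mm_202 t 8 22 1 = true :=
  ⟨(a (c (b (c (l 14979648) (l 14962664)) (c (l 14933168) (l 14914288))) (b (l 14937088) (l 14885816))) (a (b (a (c (l 14924768) (l 14884888)) (b (a (l 14903912) (b (l 14901352) (c (c (l 14921264) (l 14900288)) (l 14868616)))) (a (c (b (l 14904864) (a (l 14894672) (l 14892624))) (l 14858016)) (c (b (a (c (l 14911192) (l 14889872)) (l 14905896)) (l 14904808)) (b (l 14861360) (l 14861640)))))) (a (b (a (l 14871584) (c (c (l 14896376) (l 14874776)) (l 14842168))) (a (c (c (l 14883128) (l 14861120)) (l 14827888)) (c (b (a (l 14871232) (l 14877176)) (l 14877968)) (l 14895744)))) (b (a (c (b (a (l 14885104) (l 14890728)) (l 14890584)) (b (l 14845176) (l 14846584))) (l 14894080)) (c (l 14917448) (l 14873688))))) (b (b (b (a (a (c (a (c (l 14928008) (l 14907136)) (l 14922696)) (l 14879184)) (l 14922488)) (l 14964248)) (a (c (c (l 14944688) (l 14923808)) (l 14892296)) (l 14969936))) (c (l 14971992) (l 14930504)))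 (c (b (l 14986704) (l 15003752)) (l 14953352))))), by decide +kernel⟩

def k6_mm_202 : ∃ t, chk3 f_mm_202 t 8 23 1 = true :=
  ⟨(a (a (b (c (l 14900680) (l 14861328)) (c (l 14863536) (l 14820360))) (b (a (c (l 14871520) (l 14828480)) (b (c (c (l 14896888) (l 14853800)) (l 14820416)) (a (c (b (l 14852120) (l 14845168)) (l 14803976)) (c (b (a (l 14848104) (l 14854856)) (l 14857488)) (l 14851496))))) (a (b (c (c (l 14856960) (l 14834112)) (l 14799616)) (a (c (c (l 14844992) (l 14821528)) (l 14786072)) (b (c (a (l 14830944) (l 14838736)) (l 14788072)) (c (l 14843160) (l 14795528))))) (b (a (c (b (a (l 14838792) (l 14846032)) (l 14849568)) (b (l 14796392) (l 14802568))) (l 14851288)) (l 14859864))))) (b (b (a (a (a (c (b (a (l 14858904) (l 14865224)) (l 14866944)) (l 14820408)) (l 14869536)) (l 14913968)) (c (l 15023064) (l 14981376))) (c (l 14943704) (l 14942576))) (c (c (l 14989808) (l 14989448)) (l 14978208)))), by decide +kernel⟩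

def k7_mm_202 : ∃ t, chk3 f_mm_202 t 9 11 1 = true :=
  ⟨(b (a (b (c (b (l 15082256) (l 15096656)) (l 15072736)) (c (b (l 15113352) (l 15153240)) (l 15126984))) (b (c (c (l 15335168) (l 15340064)) (l 15315800)) (c (c (l 15394312) (l 15378296)) (l 15354120)))) (a (b (c (a (l 15149456) (l 15263936)) (l 15169264)) (c (c (l 15245272) (l 15247832)) (l 15220032))) (b (c (l 15432752) (l 15400896)) (c (c (l 15494656) (l 15479096)) (l 15455608))))), by decide +kernel⟩

def k8_mm_202 : ∃ t, chk3 f_mm_202 t 5 5 1 = true :=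
  ⟨(b (a (b (a (b (c (l 15455832) (l 15451088)) (c (b (l 15480832) (l 15465672)) (l 15456872))) (b (c (l 15661808) (l 15640176)) (c (l 15674448) (l 15652112)))) (a (b (c (b (l 15473880) (l 15484416)) (l 15472728)) (c (c (l 15532304) (l 15518696)) (l 15498144))) (b (c (b (l 15689960) (l 15703120)) (l 15673648)) (c (l 15719064) (l 15704240))))) (b (a (b (c (l 15841672) (l 15824000)) (c (l 15859904) (l 15841712))) (b (a (l 15944240) (l 14)) (l 14))) (a (b (a (l 15809264) (l 14)) (l 14)) (l 14)))) (a (b (a (b (c (l 15538880) (l 15532576)) (c (l 15602432) (l 15575472))) (b (a (l 15682256) (l 14)) (l 14))) (a (a (b (l 15563704) (l 15620776)) (l 14)) (l 14))) (l 14))), by decide +kernel⟩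

def k9_mm_202 : ∃ t, chk3 f_mm_202 t 3 2 1 = true :=
  ⟨(b (a (b (b (a (a (b (a (l 16278472) (l 16332848)) (a (l 16227480) (l 16286200))) (a (b (l 16385368) (l 16342992)) (b (l 16393832) (l 16376656)))) (a (b (a (b (l 16492864) (l 16475032)) (l 14)) (l 14)) (l 14))) (a (a (b (a (l 16180784) (l 16243504)) (a (l 16143192) (l 16209608))) (b (a (l 16304288) (b (l 16371200) (l 14))) (a (l 16274128) (l 14)))) (l 14))) (a (b (a (b (a (l 16120200) (l 16190144)) (b (l 16146888) (l 16144504))) (l 14)) (l 14)) (l 14))) (l 14)) (l 14)), by decide +kernel⟩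

def k10_mm_202 : ∃ t, chk3 f_mm_202 t 8 12 1 = true :=
  ⟨(b (a (a (b (a (c (l 14841256) (l 14795616)) (b (a (l 14810608) (b (l 14804232) (c (c (l 14835568) (l 14811584)) (l 14775352)))) (a (c (b (l 14822560) (a (l 14817896) (c (l 14829744) (l 14805368)))) (l 14774000)) (b (c (a (c (l 14831648) (l 14807408)) (l 14828664)) (l 14775936)) (c (l 14834816) (l 14786080)))))) (a (b (c (b (l 14823584) (a (l 14822088) (a (l 14814536) (c (l 14826968) (l 14802336))))) (l 14817392)) (a (c (b (l 14815952) (a (l 14812624) (c (l 14825544) (l 14800688)))) (l 14767536)) (b (c (a (c (l 14826088) (l 14801344)) (l 14824528)) (l 14769656)) (l 14807520)))) (b (a (b (c (a (c (l 14828184) (l 14803680)) (l 14825864)) (l 14772072)) (c (l 14832840) (l 14783632))) (l 14832872)) (c (l 14872192) (l 14823672))))) (b (b (a (a (b (c (a (l 14824536) (l 14832952)) (l 14781264)) (c (l 14838248) (l 14790032))) (l 14839128)) (l 14885864)) (c (l 14905840) (l 14858984))) (c (c (l 14962672) (l 14939648)) (l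 14904864)))) (b (c (b (l 15019096) (l 15048232)) (l 15033064)) (c (b (l 15100232) (l 15133080)) (l 15095920)))) (a (b (b (b (a (a (a (c (a (c (l 14825328) (l 14800376)) (l 14824384)) (l 14768664)) (l 14823904)) (l 14872624)) (c (l 14992088) (l 14946352))) (c (l 14903256) (l 14898080))) (c (c (l 14983160) (l 14959944)) (l 14924856))) (a (c (c (l 14974408) (l 14950824)) (l 14915176)) (c (l 15029288) (l 15048120)))) (b (c (c (l 15216736) (l 15196624)) (l 15166232)) (c (b (l 15262904) (l 15302384)) (b (l 15223440) (l 15263672)))))), by decide +kernel⟩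

def k11_mm_202 : ∃ t, chk3 f_mm_202 t 9 12 1 = true :=
  ⟨(b (a (b (c (c (l 15324112) (l 15306048)) (l 15278768)) (c (c (l 15389048) (l 15371480)) (l 15344936))) (a (b (l 15453904) (l 15521736)) (b (l 15570208) (l 14)))) (a (b (c (b (l 15433456) (l 15470920)) (b (l 15399024) (l 15437168))) (a (b (l 15431944) (l 15472512)) (l 14))) (l 14))), by decide +kernel⟩

def k12_mm_202 : ∃ t, chk3 f_mm_202 t 4 13 1 = true :=
  ⟨(a (b (b (a (c (b (a (l 15021552) (l 15151960)) (a (l 15062896) (l 15193776))) (b (l 15041952) (l 15084336))) (c (b (l 15343360) (a (l 15322544) (l 15449208))) (b (l 15305456) (l 15348712)))) (a (c (b (a (l 15105776) (l 15237048)) (a (l 15150120) (l 15281712))) (b (l 15128280) (a (l 15106288) (l 15241408)))) (a (c (b (l 15366152) (l 15411072)) (l 15330232)) (l 14)))) (a (b (c (b (a (l 33920354935) (l 15327696)) (l 2)) (a (l 40362752679) (l 35531208727))) (l 2)) (l 14))) (l 14)), by decide +kernel⟩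

def k13_mm_202 : ∃ t, chk3 f_mm_202 t 4 7 1 = true :=
  ⟨(l 2), by decide +kernel⟩

def k14_mm_202 : ∃ t, chk3 f_mm_202 t 5 3 1 = true :=
  ⟨(l 14), by decide +kernel⟩

def k15_mm_202 : ∃ t, chk3 f_mm_202 t 3 3 1 = true :=
  ⟨(l 14), by decide +kernel⟩

theorem s16_mm_202 : ∃ t, chk3 f_mm_202 t 4 12 1 = true := ex3_a k10_mm_202 k11_mm_202

theorem s17_mm_202 : ∃ t, chk3 f_mm_202 t 4 6 1 = true := ex3_b s16_mm_202 k12_mm_202

theorem s18_mm_202 : ∃ t, chk3 f_mm_202 t 4 3 1 = true := ex3_b s17_mm_202 k13_mm_202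

theorem s19_mm_202 : ∃ t, chk3 f_mm_202 t 2 3 1 = true := ex3_a s18_mm_202 k14_mm_202

theorem s20_mm_202 : ∃ t, chk3 f_mm_202 t 1 3 1 = true := ex3_a s19_mm_202 k15_mm_202

theorem s21_mm_202 : ∃ t, chk3 f_mm_202 t 8 11 1 = true := ex3_b k5_mm_202 k6_mm_202

theorem s22_mm_202 : ∃ t, chk3 f_mm_202 t 4 11 1 = true := ex3_a s21_mm_202 k7_mm_202

theorem s23_mm_202 : ∃ t, chk3 f_mm_202 t 9 10 1 = true := ex3_b k3_mm_202 k4_mm_202

theorem s24_mm_202 : ∃ t, chk3 f_mm_202 t 4 10 1 = true := ex3_a k2_mm_202 s23_mm_202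

theorem s25_mm_202 : ∃ t, chk3 f_mm_202 t 4 5 1 = true := ex3_b s24_mm_202 s22_mm_202

theorem s26_mm_202 : ∃ t, chk3 f_mm_202 t 2 5 1 = true := ex3_a s25_mm_202 k8_mm_202

theorem s27_mm_202 : ∃ t, chk3 f_mm_202 t 2 4 1 = true := ex3_a k0_mm_202 k1_mm_202

theorem s28_mm_202 : ∃ t, chk3 f_mm_202 t 2 2 1 = true := ex3_b s27_mm_202 s26_mm_202

theorem s29_mm_202 : ∃ t, chk3 f_mm_202 t 1 2 1 = true := ex3_a s28_mm_202 k9_mm_202

theorem s30_mm_202 : ∃ t, chk3 f_mm_202 t 1 1 1 = true := ex3_b s29_mm_202 s20_mm_202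

theorem c_mm_202 : CertB 0 536870912 0 536870912 1020054732 13421774 3 eng mog cd0q2 cd0q0 pd2 true false false .pp 2 0 2
    ndB0q2 ndB0q0 pcB2 cut_mm_202 Ext.none :=
  certB0 (fam := true) (s1 := false) (s2 := false) (a := 2) (b := 0) (c := 2) (cn := .pp) (n1 := ndB0q2) (n2 := ndB0q0) (pc := pcB2) (cut := cut_mm_202) (xt := Ext.none) (P1 := 0) (W1 := 536870912) (P2 := 0) (W2 := 536870912) (P3 := 1020054732) (W3 := 13421774) (N0 := 3) (En := eng) (mo := mog) (C1 := cd0q2) (C2 := cd0q0) (C3 := pd2)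
    rfl s30_mm_202

noncomputable def cut_mm_203 : Cut := Cut.of [[⟨3, 0, 0, 1449551462⟩], [⟨4, 0, 0, 2845415833⟩]]

noncomputable def f_mm_203 : ℕ → ℕ → ℕ → ℕ → Bool := onCell 0 536870912 1610612736 536870912 1020054732 13421774
    (rowB 3 eng mog cd0q2 cd0q0 pd3 1 true false false .up 2 0 3 (qsf 0 536870912 0 536870912 3) ndB0q2 ndB0q0 pcB3 cut_mm_203 Ext.none)

def k0_mm_203 : ∃ t, chk3 f_mm_203 t 1 1 1 = true :=
  ⟨(a (b (b (b (a (a (a (b (l 16507136) (l 14)) (l 14)) (l 14)) (l 14)) (l 14)) (l 14)) (l 2)) (l 14)), by decide +kernel⟩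

theorem c_mm_203 : CertB 0 536870912 0 536870912 1020054732 13421774 3 eng mog cd0q2 cd0q0 pd3 true false false .up 2 0 3
    ndB0q2 ndB0q0 pcB3 cut_mm_203 Ext.none :=
  certB1 (fam := true) (s1 := false) (s2 := false) (a := 2) (b := 0) (c := 3) (cn := .up) (n1 := ndB0q2) (n2 := ndB0q0) (pc := pcB3) (cut := cut_mm_203) (xt := Ext.none) (P1 := 0) (W1 := 536870912) (P2 := 0) (W2 := 536870912) (P3 := 1020054732) (W3 := 13421774) (N0 := 3) (En := eng) (mo := mog) (C1 := cd0q2) (C2 := cd0q0) (C3 := pd3)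
    rfl (fun _ => rfl) k0_mm_203

noncomputable def cut_mm_213 : Cut := Cut.of [[⟨3, 0, 0, 1449551462⟩], [⟨4, 0, 0, 2845415833⟩]]

noncomputable def f_mm_213 : ℕ → ℕ → ℕ → ℕ → Bool := onCell 0 536870912 536870912 536870912 1020054732 13421774
    (rowB 3 eng mog cd0q2 cd0q1 pd3 0 true false false .pnn 2 1 3 (qsf 0 536870912 536870912 536870912 3) ndB0q2 ndB0q1 pcB3 cut_mm_213 Ext.none)

def k0_mm_213 : ∃ t, chk3 f_mm_213 t 1 1 1 = true :=
  ⟨(a (l 14) (l 4)), by decide +kernel⟩

theorem c_mm_213 : CertB 0 536870912 536870912 536870912 1020054732 13421774 3 eng mog cd0q2 cd0q1 pd3 true false false .pnn 2 1 3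
    ndB0q2 ndB0q1 pcB3 cut_mm_213 Ext.none :=
  certB0 (fam := true) (s1 := false) (s2 := false) (a := 2) (b := 1) (c := 3) (cn := .pnn) (n1 := ndB0q2) (n2 := ndB0q1) (pc := pcB3) (cut := cut_mm_213) (xt := Ext.none) (P1 := 0) (W1 := 536870912) (P2 := 536870912) (W2 := 536870912) (P3 := 1020054732) (W3 := 13421774) (N0 := 3) (En := eng) (mo := mog) (C1 := cd0q2) (C2 := cd0q1) (C3 := pd3)
    rfl k0_mm_213

end Pool.Agent.Strip051.G.I9500_9625.Tab.C.BA00

namespace Pool.Agent.Strip051.G.I9500_9625.Tab.C.BA01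

open Pool.Agent.Strip051.PB Pool.Agent.Strip051.PB.T
open Pool.Agent.Strip051.G.I9500_9625.Tab

noncomputable def f_pp_001 : ℕ → ℕ → ℕ → ℕ → Bool := onCell 0 536870912 0 536870912 1020054732 13421774
    (rowB 3 eng mog cd0q0 cd1q0 pd1 0 true true true .up 0 0 1 (qsf 0 536870912 0 536870912 1) ndB0q0 ndB1q0 pcB1 Cut.none Ext.none)

def k0_pp_001 : ∃ t, chk3 f_pp_001 t 1 1 1 = true :=
  ⟨(l 4), by decide +kernel⟩

theorem c_pp_001 : CertB 0 536870912 0 536870912 1020054732 13421774 3 eng mog cd0q0 cd1q0 pd1 true true true .up 0 0 1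
    ndB0q0 ndB1q0 pcB1 Cut.none Ext.none :=
  certB0 (fam := true) (s1 := true) (s2 := true) (a := 0) (b := 0) (c := 1) (cn := .up) (n1 := ndB0q0) (n2 := ndB1q0) (pc := pcB1) (cut := Cut.none) (xt := Ext.none) (P1 := 0) (W1 := 536870912) (P2 := 0) (W2 := 536870912) (P3 := 1020054732) (W3 := 13421774) (N0 := 3) (En := eng) (mo := mog) (C1 := cd0q0) (C2 := cd1q0) (C3 := pd1)
    rfl k0_pp_001

noncomputable def f_pp_011 : ℕ → ℕ → ℕ → ℕ → Bool := onCell 0 536870912 536870912 536870912 1020054732 13421774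
    (rowB 3 eng mog cd0q0 cd1q1 pd1 0 true true true .pnn 0 1 1 (qsf 0 536870912 536870912 536870912 1) ndB0q0 ndB1q1 pcB1 Cut.none Ext.none)

def k0_pp_011 : ∃ t, chk3 f_pp_011 t 1 1 1 = true :=
  ⟨(l 4), by decide +kernel⟩

theorem c_pp_011 : CertB 0 536870912 536870912 536870912 1020054732 13421774 3 eng mog cd0q0 cd1q1 pd1 true true true .pnn 0 1 1
    ndB0q0 ndB1q1 pcB1 Cut.none Ext.none :=
  certB0 (fam := true) (s1 := true) (s2 := true) (a := 0) (b := 1) (c := 1) (cn := .pnn) (n1 := ndB0q0) (n2 := ndB1q1) (pc := pcB1) (cut := Cut.none) (xt := Ext.none) (P1 := 0) (W1 := 536870912) (P2 := 536870912) (W2 := 536870912) (P3 := 1020054732) (W3 := 13421774) (N0 := 3) (En := eng) (mo := mog) (C1 := cd0q0) (C2 := cd1q1) (C3 := pd1)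
    rfl k0_pp_011

noncomputable def f_pp_012 : ℕ → ℕ → ℕ → ℕ → Bool := onCell 0 536870912 536870912 536870912 1020054732 13421774
    (rowB 3 eng mog cd0q0 cd1q1 pd2 0 true true true .pnp 0 1 2 (qsf 0 536870912 536870912 536870912 2) ndB0q0 ndB1q1 pcB2 Cut.none Ext.none)

def k0_pp_012 : ∃ t, chk3 f_pp_012 t 1 1 1 = true :=
  ⟨(l 4), by decide +kernel⟩

theorem c_pp_012 : CertB 0 536870912 536870912 536870912 1020054732 13421774 3 eng mog cd0q0 cd1q1 pd2 true true true .pnp 0 1 2
    ndB0q0 ndB1q1 pcB2 Cut.none Ext.none :=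
  certB0 (fam := true) (s1 := true) (s2 := true) (a := 0) (b := 1) (c := 2) (cn := .pnp) (n1 := ndB0q0) (n2 := ndB1q1) (pc := pcB2) (cut := Cut.none) (xt := Ext.none) (P1 := 0) (W1 := 536870912) (P2 := 536870912) (W2 := 536870912) (P3 := 1020054732) (W3 := 13421774) (N0 := 3) (En := eng) (mo := mog) (C1 := cd0q0) (C2 := cd1q1) (C3 := pd2)
    rfl k0_pp_012

noncomputable def cut_pp_022_a : Cut := Cut.of [[⟨0, 0, 0, 38347922⟩, ⟨1, 1, 0, 38347922⟩, ⟨2, 1, 0, 38347922⟩]]

noncomputable def f_pp_022_a : ℕ → ℕ → ℕ → ℕ → Bool := onCell 0 536870912 0 536870912 1020054732 13421774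
    (rowB 3 eng mog cd0q0 cd1q2a pd2 0 true true true .pp 0 2 2 (qsf 0 536870912 0 536870912 2) ndB0q0 ndB1q2a pcB2 cut_pp_022_a Ext.none)

def k0_pp_022_a : ∃ t, chk3 f_pp_022_a t 4 2 1 = true :=
  ⟨(a (b (a (b (b (l 15665560) (a (l 15774312) (l 15640104))) (a (l 15895864) (l 15830304))) (b (b (a (b (l 15563024) (l 15529192)) (c (b (l 15460344) (a (l 15485984) (l 15452824))) (b (l 15443488) (l 15431224)))) (a (l 15606832) (l 15545240))) (a (l 15770952) (l 15659080)))) (a (b (a (b (l 16035720) (l 16130192)) (b (l 15982800) (l 16084800))) (a (b (l 16223336) (l 16313864)) (b (l 16185032) (l 16282144)))) (b (a (b (l 15935376) (l 16044392)) (b (l 15897728) (l 16013360))) (a (b (l 16151056) (l 16254288)) (b (l 16126104) (l 16234840)))))) (b (a (b (b (a (b (b (a (l 15376768) (l 15331296)) (a (l 15376792) (l 15347648))) (l 15405944)) (a (b (c (l 15322632) (l 15298120)) (l 15375080)) (l 15324960))) (a (l 15499432) (l 15466320))) (a (b (l 15624920) (l 15750424)) (b (l 15599704)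 (l 15732368)))) (b (a (b (l 15262512) (l 15424600)) (c (b (l 15302048) (l 15449416)) (l 15327680))) (a (b (l 15586416) (l 15725840)) (b (l 15563472) (l 15730216))))) (b (a (b (a (l 15874712) (l 15863184)) (a (l 15996672) (l 15991104))) (a (b (l 15862800) (l 15996320)) (b (l 15872936) (l 16011712)))) (a (b (a (l 16115216) (l 16115120)) (a (l 16229304) (l 16234272))) (b (a (l 16125488) (l 16145704)) (a (l 16249400) (b (l 16242592) (l 16305240)))))))), by decide +kernel⟩

def k1_pp_022_a : ∃ t, chk3 f_pp_022_a t 4 6 1 = true :=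
  ⟨(a (a (b (a (b (l 16358288) (b (l 16461312) (l 16500144))) (b (l 16353896) (b (l 16440496) (l 16482232)))) (a (b (b (l 16495224) (a (l 16575944) (l 16568912))) (a (b (l 16607888) (l 16592920)) (b (l 16602816) (l 16610736)))) (b (a (l 16502632) (l 16496384)) (b (l 16553440) (c (l 16604200) (l 16610912)))))) (b (a (b (l 16310704) (b (l 16422488) (l 16466976))) (b (l 16296512) (b (l 16412176) (l 16459056)))) (b (a (b (l 16509472) (l 16507880)) (b (l 16504032) (l 16504896))) (a (b (a (l 16589488) (l 16586552)) (a (l 16603448) (l 16622664))) (b (a (l 16586104) (l 16589328)) (a (l 16623392) (l 16627832))))))) (b (a (b (a (l 16337912) (b (l 16319848) (l 16374880))) (a (b (l 16415104) (l 16464320)) (b (l 16428152) (l 16479528)))) (b (a (b (l 16338368) (l 16395552)) (b (l 16366216) (l 16425416))) (a (b (l 16450912) (l 16504320)) (b (l 16482736) (l 16538056))))) (a (b (a (b (l 16511560) (l 16514800)) (b (l 16528864) (a (l 16570344) (l 16582368)))) (a (b (a (l 16595608) (l 16604056))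 (c (l 16597104) (l 16598624))) (b (a (l 16614712) (l 16627720)) (a (l 16635688) (l 16649624))))) (b (a (b (l 16513704) (a (l 16596736) (l 16613400))) (b (a (l 16581632) (l 16601424)) (a (l 16632160) (l 16652832)))) (a (b (a (l 16643048) (l 16639680)) (a (l 16665904) (l 16692296))) (b (a (l 16659344) (l 16691376)) (a (b (l 16714824) (l 16713240)) (b (l 16712384) (a (l 16722096) (l 155390465879)))))))))), by decide +kernel⟩

def k2_pp_022_a : ∃ t, chk3 f_pp_022_a t 8 14 1 = true :=
  ⟨(a (b (a (b (a (l 16577032) (l 16613920)) (a (b (l 16605120) (l 16611568)) (a (l 16618448) (l 16625416)))) (b (a (l 16630160) (l 16637232)) (a (b (l 16655256) (l 16638600)) (b (l 16670968) (l 16674408))))) (a (a (b (b (l 16619072) (a (l 16645360) (l 16651808))) (b (a (l 16654768) (l 16661368)) (a (l 16665008) (l 16671744)))) (b (b (l 16631736) (l 16634840)) (b (c (l 16652240) (l 16646824)) (a (l 16678088) (l 16663008))))) (b (a (b (l 16644576) (l 16652040)) (b (l 16658384) (l 16664576))) (a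 (b (c (l 16663544) (l 16658360)) (a (l 16668632) (l 16674008))) (b (c (l 16674936) (l 16670168)) (a (l 16679400) (l 16684888))))))) (b (a (b (a (l 16635728) (l 16635104)) (a (l 16665176) (b (l 16679256) (l 16693776)))) (b (a (l 16636976) (l 16642592)) (a (b (l 16660992) (l 16697024)) (b (l 16667480) (l 16704072))))) (a (b (a (b (l 16673064) (a (l 16695712) (l 16702824))) (b (l 16686552) (l 16692528))) (a (b (c (l 16708312) (l 16683280)) (a (l 16690544) (l 16696472))) (b (b (l 16696688) (l 16700000)) (c (l 16707104) (l 16704216))))) (b (a (a (l 16685352) (l 16693496)) (b (l 16697920) (l 16711792))) (a (a (b (l 16728096) (l 16734760)) (b (l 16732760) (l 16739312))) (b (a (l 16736296) (l 16738808)) (a (l 16742616) (b (l 16722264) (l 16725760))))))))), by decide +kernel⟩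

def k3_pp_022_a : ∃ t, chk3 f_pp_022_a t 16 15 1 = true :=
  ⟨(b (a (a (b (a (b (l 16655080) (l 16672152)) (b (l 16661976) (l 16673992))) (b (a (l 6) (a (l 6) (l 16688552))) (l 6))) (b (b (a (l 16668480) (l 16674592)) (a (l 16680680) (l 16686976))) (a (b (b (l 16711320) (l 16697056)) (b (l 16703952) (l 6))) (b (b (l 16717768) (l 16703616)) (b (l 16721120) (c (l 16718752) (l 16716936))))))) (b (a (b (a (l 16680224) (l 16685616)) (a (a (l 16691432) (l 16694280)) (c (l 16699912) (l 16696808)))) (b (a (l 16690800) (l 16695816)) (a (c (l 16704928) (l 16701960)) (b (l 16705000) (l 16711648))))) (a (b (a (b (l 16702856) (l 16709784)) (b (l 16708504) (l 16715544))) (a (b (c (l 16717904) (l 16715920)) (c (l 16725064) (l 16723448))) (b (c (l 16723696) (l 16721896)) (c (l 16730968) (l 16729552))))) (b (a (b (l 16713752) (l 16731392)) (b (l 16718584) (c (l 16726744) (l 16724880)))) (a (b (c (l 16729088) (l 16727456)) (c (l 16736480) (l 16735248))) (b (a (l 16732112) (l 16734544))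 (a (l 16750280) (c (l 16742448) (l 16741416))))))))) (a (b (l 6) (l 6)) (b (a (b (a (b (a (l 16740680) (l 16743856)) (a (l 6) (c (l 16740144) (l 16740728)))) (b (a (l 16746920) (l 16752512)) (a (b (l 16740824) (l 16763008)) (b (l 16762784) (c (l 16753592) (l 16764624)))))) (a (l 6) (b (b (a (c (l 16753824) (l 16754280)) (l 104387806791)) (a (l 6) (l 4))) (l 4)))) (b (a (b (a (c (l 16761648) (l 16741592)) (b (l 16762768) (l 16759160))) (a (b (l 54995678727) (l 136063190647)) (b (l 134989448983) (l 4)))) (b (a (b (l 16754152) (l 4)) (l 4)) (l 4))) (l 4))) (l 4)))), by decide +kernel⟩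

def k4_pp_022_a : ∃ t, chk3 f_pp_022_a t 17 15 1 = true :=
  ⟨(b (a (b (a (b (a (l 16701008) (a (l 16705000) (l 16707744))) (a (b (l 16709904) (l 16716352)) (b (l 16714944) (l 16721192)))) (b (a (b (l 16709360) (l 16714464)) (b (l 16714776) (l 16719552))) (a (b (l 16720024) (l 16726024)) (b (l 16724800) (c (l 16741616) (l 16739840)))))) (a (b (a (b (l 16723200) (c (l 16731288) (l 16729576))) (b (l 16738336) (a (l 16733736) (l 82912943863)))) (a (b (a (l 16736832) (l 80228595479)) (a (l 124252020759) (l 4))) (b (a (l 134452562071) (l 4)) (l 4)))) (b (a (b (c (l 16746120) (l 16741792)) (a (l 165591068727) (l 4))) (b (l 162369836103) (l 4))) (l 4)))) (b (a (b (a (b (l 16719800) (l 16724256)) (b (l 16724080) (l 134989405111))) (a (b (l 136600018359) (l 169349154871)) (b (l 195655827431) (l 4)))) (b (a (b (l 16740312) (l 4)) (l 4)) (l 4))) (l 4))) (l 4)), by decide +kernel⟩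

def k5_pp_022_a : ∃ t, chk3 f_pp_022_a t 9 7 1 = true :=
  ⟨(b (a (b (a (b (a (l 16651320) (l 16641128)) (a (b (l 16677088) (l 16714256)) (a (l 16694064) (l 16700568)))) (b (a (l 16653952) (b (l 16680088) (l 16720528))) (a (b (l 16723472) (l 16736168)) (b (l 16736008) (a (l 16735960) (l 131768168167)))))) (a (b (a (b (l 16708680) (l 16716064)) (b (l 16736520) (a (l 16738904) (l 155927351799)))) (a (b (a (l 16740728) (l 133915647991)) (a (l 161832943351) (l 4))) (b (a (l 161296067527) (l 4)) (l 4)))) (b (a (b (a (l 16737296) (l 131231300087)) (a (l 160759192423) (l 4))) (b (a (l 166664769271) (l 4)) (l 4))) (l 4)))) (b (a (b (a (b (l 16718048) (l 16714752)) (b (l 16714080) (a (l 16733472) (l 157001083399)))) (a (c (b (l 111903941959) (l 165054153767)) (b (l 119957024599) (l 157001111031))) (l 4))) (b (a (b (a (l 16732008) (l 154316726199)) (l 4)) (l 4)) (l 4))) (l 4))) (l 4)), by decide +kernel⟩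

def k6_pp_022_a : ∃ t, chk3 f_pp_022_a t 5 4 1 = true :=
  ⟨(a (b (b (a (a (a (l 15240544) (l 15240504)) (c (l 15239968) (l 15271792))) (a (c (l 15276656) (l 15286920)) (c (l 15343840) (l 15311904)))) (a (a (l 15417400) (c (l 15443184) (l 15436600))) (a (l 15451216) (l 15503184)))) (a (a (b (l 15571832) (l 15744504)) (b (l 15610968) (l 15768184))) (b (a (l 15638432) (l 15674656)) (a (l 15800736) (l 15841632))))) (b (a (a (b (c (l 15378112) (l 15346208)) (l 15542880)) (b (c (l 15420912) (l 15389288)) (l 15590744))) (b (a (c (l 15471736) (l 15440592)) (c (l 15530024) (l 15499608))) (a (l 15646248) (c (l 15721648) (l 15696008))))) (a (b (a (l 15719136) (l 15771336)) (a (l 15890368) (l 15946408))) (a (b (l 15830728) (l 16009224)) (b (l 15896792) (b (l 16033768) (l 16122856))))))), by decide +kernel⟩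

def k7_pp_022_a : ∃ t, chk3 f_pp_022_a t 5 5 1 = true :=
  ⟨(a (b (a (a (b (l 15892592) (l 16036264)) (b (l 15921256) (l 16069456))) (a (b (l 15958392) (a (l 16099672) (l 16122264))) (b (l 16003496) (b (l 16121320) (l 16197880))))) (a (b (a (l 16211440) (b (l 16177064) (l 16246864))) (a (b (l 16274792) (l 16339432)) (b (l 16315056) (l 16381536)))) (b (a (b (l 16221280) (l 16292904)) (b (l 16272832) (l 16346112))) (a (b (l 16362840) (l 16431016)) (a (l 16354168) (l 16404552)))))) (b (a (b (a (l 16056040) (l 16136464)) (a (b (l 16176496) (l 16254680)) (b (l 16238304) (l 16317944)))) (b (a (b (l 16139136) (l 16223536)) (b (l 16210232) (l 16295856))) (a (b (l 16306216) (l 16387128)) (a (l 16359720) (l 16356048))))) (a (b (a (b (l 16331192) (l 16405960)) (b (l 16395832) (l 16471912))) (a (b (l 16478912) (l 16487048)) (b (l 16462208) (a (l 16600704) (l 16636168))))) (b (a (b (l 16445240) (l 16438536)) (b (l 16436880) (a (l 16600248) (l 16618552)))) (a (b (a (l 16599984) (l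 16616448)) (a (l 16630872) (b (l 16692520) (l 16705872)))) (b (a (l 16633976) (b (l 16696672) (l 16710000))) (a (b (l 16707912) (l 71101702375)) (l 74322928183)))))))), by decide +kernel⟩

def k8_pp_022_a : ∃ t, chk3 f_pp_022_a t 5 3 1 = true :=
  ⟨(b (a (b (a (b (a (b (l 16402344) (l 16463424)) (a (l 16402976) (l 16427168))) (a (b (l 16501600) (a (l 16568576) (l 16591256))) (b (a (l 16557384) (l 16582800)) (c (l 16587584) (l 16585728))))) (b (a (b (l 16497344) (l 16519784)) (b (a (l 16540096) (l 16570560)) (a (l 16605552) (l 16636664)))) (a (b (a (l 16609912) (l 16638640)) (b (l 16627512) (l 16636080))) (b (b (l 16626960) (l 16637256)) (a (b (l 16714992) (l 16706592)) (b (l 16705976) (l 16725136))))))) (a (b (a (b (a (l 16623104) (l 16646616)) (a (l 16654392) (l 16683960))) (b (b (l 16629304) (l 16636024)) (a (b (l 16712520) (l 16709728)) (b (l 16708872) (l 154853619527))))) (a (b (a (b (l 16713024) (l 16711496)) (b (l 16710608) (l 118883273271))) (a (b (a (l 16718832)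 (l 158074818647)) (l 4)) (l 4))) (b (a (b (l 148948041703) (l 4)) (l 4)) (l 4)))) (b (a (b (a (b (l 16713208) (l 16729024)) (b (l 16728264) (l 16725760))) (a (b (l 151095521879) (l 4)) (l 4))) (b (a (l 80765447447) (l 4)) (l 4))) (l 4)))) (b (a (b (a (b (a (l 16602520) (l 16635880)) (a (l 16627256) (l 16671464))) (b (a (l 16628600) (l 16663944)) (a (b (l 16721088) (l 16702064)) (b (l 67343598887) (l 4))))) (a (b (a (b (l 16717744) (l 16705440)) (b (l 16705008) (l 4))) (a (l 114588252231) (l 4))) (l 4))) (b (a (b (a (b (l 16703880) (l 67880471751)) (b (l 69491086359) (l 4))) (l 4)) (l 4)) (l 4))) (l 4))) (l 4)), by decide +kernel⟩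

def k9_pp_022_a : ∃ t, chk3 f_pp_022_a t 3 4 1 = true :=
  ⟨(a (a (b (a (a (b (c (l 15595232) (l 15565816)) (b (l 15729568) (l 15826688))) (b (c (l 15666824) (l 15638672)) (b (l 15804120) (l 15902624)))) (a (b (a (l 15710856) (l 15751352)) (a (l 15913304) (l 15954952))) (b (a (l 15793176) (l 15836248)) (a (l 15997808) (l 16041792))))) (a (b (a (a (l 15950336) (l 15987872)) (a (l 16026776) (l 16066968))) (a (b (l 16107960) (l 16198240)) (b (l 16187424) (l 16278704)))) (b (a (b (l 16081728) (l 16177624)) (b (l 16168720) (l 16265360))) (a (b (l 16271624) (l 16363688)) (b (l 16360008) (l 16347776)))))) (a (b (a (b (a (l 15880512) (l 15925888)) (b (l 16059280) (l 16160560))) (b (a (b (l 15919480) (l 16025408)) (b (l 15966760) (l 16072952))) (b (a (l 16129192) (l 16176952)) (a (l 16230848) (l 16278784))))) (a (b (b (l 16259784) (a (l 16333672) (l 16380328))) (b (a (l 16428664) (l 16475472)) (a (l 16521552) (l 16568424)))) (b (a (b (l 16330376) (l 16427776)) (b (l 16378448)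 (l 16475928))) (b (a (l 16523000) (l 16571152)) (a (l 16615904) (l 16621880)))))) (a (a (b (a (b (l 16055872) (l 16264144)) (l 2)) (b (b (l 16427232) (l 16524720)) (b (l 16598840) (b (l 16668344) (l 36741921511))))) (b (l 2) (b (l 2) (b (l 16605912) (b (l 83315479319) (l 94724042599)))))) (l 2)))) (l 2)), by decide +kernel⟩

def k10_pp_022_a : ∃ t, chk3 f_pp_022_a t 3 5 1 = true :=
  ⟨(a (a (b (a (b (a (b (l 16286736) (l 16373400)) (a (l 16327992) (l 16328032))) (a (a (l 16353568) (b (l 16478496) (l 16561504))) (b (a (l 16519960) (l 16562408)) (a (l 16603240) (l 16624864))))) (b (b (a (l 16369896) (a (l 16520480) (l 16565984))) (a (a (l 16519912) (l 16563944)) (a (l 16608760) (l 16612280)))) (a (b (a (l 16605744) (l 16607880)) (a (l 16626192) (b (l 16712376) (l 72712305319)))) (b (a (l 16652376) (b (l 16697104) (l 79154761703))) (a (b (l 77007276039) (l 4)) (l 4)))))) (a (b (a (b (a (l 16601368) (l 16621400)) (a (l 16637800) (b (l 16701440) (l 41036919463)))) (b (a (l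 16642232) (b (l 16706728) (l 54995563559))) (a (b (l 48553112407) (l 16727584)) (l 75933598167)))) (a (b (a (b (l 16691136) (l 16705320)) (l 79154809383)) (l 4)) (l 4))) (b (a (b (a (b (l 63585499207) (l 16729432)) (l 88818463543)) (l 4)) (l 4)) (l 4)))) (b (a (b (a (b (a (l 16612184) (l 16616976)) (a (l 16615736) (b (l 16702720) (l 84523477095)))) (b (a (b (l 16683848) (l 16705480)) (b (l 16687224) (l 89892194263))) (a (b (l 87207835911) (l 4)) (l 4)))) (a (b (a (b (l 81839119463) (l 4)) (l 4)) (l 4)) (l 4))) (b (a (b (a (b (l 93113424711) (l 4)) (l 4)) (l 4)) (l 4)) (l 4))) (l 4))) (l 4)), by decide +kernel⟩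

def k11_pp_022_a : ∃ t, chk3 f_pp_022_a t 3 3 1 = true :=
  ⟨(a (l 4) (l 4)), by decide +kernel⟩

theorem s12_pp_022_a : ∃ t, chk3 f_pp_022_a t 3 2 1 = true := ex3_b k9_pp_022_a k10_pp_022_a

theorem s13_pp_022_a : ∃ t, chk3 f_pp_022_a t 3 1 1 = true := ex3_b s12_pp_022_a k11_pp_022_a

theorem s14_pp_022_a : ∃ t, chk3 f_pp_022_a t 5 2 1 = true := ex3_b k6_pp_022_a k7_pp_022_a

theorem s15_pp_022_a : ∃ t, chk3 f_pp_022_a t 5 1 1 = true := ex3_b s14_pp_022_a k8_pp_022_a

theorem s16_pp_022_a : ∃ t, chk3 f_pp_022_a t 8 15 1 = true := ex3_a k3_pp_022_a k4_pp_022_a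

theorem s17_pp_022_a : ∃ t, chk3 f_pp_022_a t 8 7 1 = true := ex3_b k2_pp_022_a s16_pp_022_a

theorem s18_pp_022_a : ∃ t, chk3 f_pp_022_a t 4 7 1 = true := ex3_a s17_pp_022_a k5_pp_022_a

theorem s19_pp_022_a : ∃ t, chk3 f_pp_022_a t 4 3 1 = true := ex3_b k1_pp_022_a s18_pp_022_a

theorem s20_pp_022_a : ∃ t, chk3 f_pp_022_a t 4 1 1 = true := ex3_b k0_pp_022_a s19_pp_022_a

theorem s21_pp_022_a : ∃ t, chk3 f_pp_022_a t 2 1 1 = true := ex3_a s20_pp_022_a s15_pp_022_a

theorem s22_pp_022_a : ∃ t, chk3 f_pp_022_a t 1 1 1 = true := ex3_a s21_pp_022_a s13_pp_022_a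

theorem c_pp_022_a : CertB 0 536870912 0 536870912 1020054732 13421774 3 eng mog cd0q0 cd1q2a pd2 true true true .pp 0 2 2
    ndB0q0 ndB1q2a pcB2 cut_pp_022_a Ext.none :=
  certB0 (fam := true) (s1 := true) (s2 := true) (a := 0) (b := 2) (c := 2) (cn := .pp) (n1 := ndB0q0) (n2 := ndB1q2a) (pc := pcB2) (cut := cut_pp_022_a) (xt := Ext.none) (P1 := 0) (W1 := 536870912) (P2 := 0) (W2 := 536870912) (P3 := 1020054732) (W3 := 13421774) (N0 := 3) (En := eng) (mo := mog) (C1 := cd0q0) (C2 := cd1q2a) (C3 := pd2)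
    rfl s22_pp_022_a

noncomputable def cut_pp_022_b : Cut := Cut.of [[⟨0, 0, 0, 38347922⟩, ⟨1, 1, 0, 38347922⟩, ⟨2, 1, 0, 38347922⟩]]

noncomputable def f_pp_022_b : ℕ → ℕ → ℕ → ℕ → Bool := onCell 0 536870912 1073741824 536870912 1020054732 13421774
    (rowB 3 eng mog cd0q0 cd1q2b pd2 1 true true true .pp 0 2 2 (qsf 0 536870912 1239849684 370763052 2) ndB0q0 ndB1q2b pcB2 cut_pp_022_b Ext.none)

def k0_pp_022_b : ∃ t, chk3 f_pp_022_b t 1 2 1 = true :=
  ⟨(a (a (b (l 1) (a (b (a (b (l 426844008535) (a (l 15734352) (l 15737784))) (b (l 1) (a (l 362956340999) (l 1)))) (a (b (a (l 15502960) (l 15509168)) (a (l 15293920) (l 15303616))) (b (a (l 15508576) (l 155186752295)) (a (b (l 15347632) (l 15265040)) (b (l 15346696) (l 15265416)))))) (b (l 1) (a (b (a (l 350070872519) (l 1)) (b (a (l 15347752) (l 347386352903)) (a (b (l 15277792) (l 15256128)) (b (l 336111902007) (l 15255024))))) (b (l 1) (b (l 1) (a (b (l 1) (l 359734107287)) (l 1)))))))) (l 1)) (l 1)), by decide +kernel⟩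

def k1_pp_022_b : ∃ t, chk3 f_pp_022_b t 4 3 1 = true :=
  ⟨(b (a (b (a (b (a (l 15192224) (l 15207264)) (l 15165568)) (b (a (l 15215000) (l 15218328)) (a (l 15186392) (l 15193976)))) (a (b (l 15171184) (l 15213840)) (b (a (l 15198344) (l 15210304)) (l 15256216)))) (b (b (a (b (a (l 15233112) (l 15233272)) (l 15213056)) (a (b (l 255581137351) (l 15213904)) (b (l 367250160343) (c (l 277592786599) (l 15196736))))) (a (b (l 15203664) (l 15204688)) (b (a (l 15207008) (l 15206576)) (a (l 15210592) (l 15211696))))) (b (a (l 15225120) (b (l 15225576) (l 15249704))) (a (l 15284648) (b (l 15283072) (l 15325192)))))) (a (b (a (l 15339832) (b (l 15340896) (l 15454576))) (a (l 15531352) (l 15438256))) (b (b (a (l 15377856) (l 15403936)) (l 15517544)) (b (l 15668416) (l 15837392))))), by decide +kernel⟩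

def k2_pp_022_b : ∃ t, chk3 f_pp_022_b t 5 3 1 = true :=
  ⟨(b (b (a (b (a (a (b (l 1) (l 376913795735)) (l 1)) (l 1)) (a (b (a (c (l 296383241399) (l 15187784)) (c (l 396778033063) (l 398925452567))) (a (b (l 15207656) (l 15213512)) (b (l 384430061527) (l 365102720791)))) (b (l 1) (a (b (l 1) (l 502004710759)) (l 1))))) (l 1)) (a (a (b (b (a (l 15227040) (b (l 15219080) (l 15230616))) (l 15295008)) (b (l 15289568) (l 15334928))) (b (b (a (b (l 404294301575) (l 15246936)) (b (l 1) (l 500930998359))) (a (l 15248888) (b (l 423621689735) (l 15251720)))) (b (a (l 15287560) (l 15282664)) (a (l 15335152) (l 15331648))))) (b (a (b (l 1) (a (l 500931028391) (l 1))) (l 1)) (a (b (a (b (l 427379838455) (l 15286752)) (l 499857348503)) (a (l 15325384) (b (l 431674877335) (l 15330536)))) (b (l 1) (a (l 447780949511) (l 1))))))) (b (a (b (a (l 15397720) (b (l 15390184) (l 15454832))) (a (l 15556064) (l 15565680))) (b (a (b (a (l 15384232) (l 15376512)) (a (l 15451072) (l 15444744)))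 (b (a (b (l 207799795159) (l 15382528)) (l 450465400039)) (a (l 15435512) (b (l 15404808) (l 15442200))))) (a (b (l 15522960) (l 15604848)) (b (a (l 15512640) (l 15501824)) (a (l 15596744) (l 15587360)))))) (a (b (a (l 15718592) (l 15735256)) (l 15912696)) (b (a (l 15739480) (b (l 15683304) (l 15780240))) (b (l 15883920) (l 15988184)))))), by decide +kernel⟩

def k3_pp_022_b : ∃ t, chk3 f_pp_022_b t 3 3 1 = true :=
  ⟨(b (l 1) (a (b (a (b (a (b (l 1) (a (l 452613037015) (l 1))) (l 1)) (a (b (a (l 233569848583) (l 454760625463)) (a (l 15574912) (l 243770529479))) (b (l 1) (a (l 457981982823) (l 1))))) (l 1)) (a (b (a (b (a (l 15668336) (l 15654216)) (l 15761344)) (a (b (l 231422686007) (l 15739184)) (b (b (l 1) (l 211021567623)) (b (l 230349021687) (l 15746808))))) (a (b (l 15866536) (l 15976144)) (b (a (l 15846776) (l 15808280)) (l 15951064)))) (b (a (b (l 1) (a (b (l 1) (l 220685401959)) (l 1))) (l 1)) (a (b (a (b (l 240012862935) (l 15836696)) (a (l 224980455815) (l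 1))) (a (l 15923856) (b (l 250213584567) (l 246455605335)))) (b (l 1) (a (b (l 1) (l 240549969607)) (l 1))))))) (l 1))), by decide +kernel⟩

theorem s4_pp_022_b : ∃ t, chk3 f_pp_022_b t 2 3 1 = true := ex3_a k1_pp_022_b k2_pp_022_b

theorem s5_pp_022_b : ∃ t, chk3 f_pp_022_b t 1 3 1 = true := ex3_a s4_pp_022_b k3_pp_022_b

theorem s6_pp_022_b : ∃ t, chk3 f_pp_022_b t 1 1 1 = true := ex3_b k0_pp_022_b s5_pp_022_b

theorem c_pp_022_b : CertB 0 536870912 1239849684 370763052 1020054732 13421774 3 eng mog cd0q0 cd1q2b pd2 true true true .pp 0 2 2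
    ndB0q0 ndB1q2b pcB2 cut_pp_022_b Ext.none :=
  certB1 (fam := true) (s1 := true) (s2 := true) (a := 0) (b := 2) (c := 2) (cn := .pp) (n1 := ndB0q0) (n2 := ndB1q2b) (pc := pcB2) (cut := cut_pp_022_b) (xt := Ext.none) (P1 := 0) (W1 := 536870912) (P2 := 1239849684) (W2 := 370763052) (P3 := 1020054732) (W3 := 13421774) (N0 := 3) (En := eng) (mo := mog) (C1 := cd0q0) (C2 := cd1q2b) (C3 := pd2)
    rfl (fun _ => rfl) s6_pp_022_b

noncomputable def f_pp_023_a : ℕ → ℕ → ℕ → ℕ → Bool := onCell 1610612736 536870912 0 536870912 1020054732 13421774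
    (rowB 3 eng mog cd0q0 cd1q2a pd3 2 true true true .up 0 2 3 (qsf 0 536870912 0 536870912 3) ndB0q0 ndB1q2a pcB3 Cut.none Ext.none)

def k0_pp_023_a : ∃ t, chk3 f_pp_023_a t 1 1 1 = true :=
  ⟨(a (b (b (a (b (a (a (a (b (l 16628840) (l 16641248)) (c (l 16634296) (l 16602248))) (a (b (l 16657376) (a (l 16703160) (l 16692736))) (b (l 16678888) (a (l 16702832) (l 16691472))))) (a (a (b (a (l 16714800) (l 16703288)) (b (a (l 16735448) (l 16723488)) (a (l 65733036871) (l 100092794087)))) (b (a (l 16733360) (l 36205107495)) (b (a (a (l 16729496) (l 68954285447)) (b (l 92039742039) (l 4))) (l 4)))) (b (a (b (a (l 16744312) (l 16752552)) (a (b (l 16732576) (l 92576616983)) (b (l 93113492023) (l 4)))) (b (a (b (l 16757584) (l 93650366983)) (a (l 80765470727) (l 115662088375))) (l 4))) (l 4)))) (a (a (a (b (a (l 16692256) (l 16683040)) (b (a (l 16721208) (l 16710760)) (a (l 77544170743) (l 90965992999)))) (b (a (l 16694248) (b (l 16717128) (l 16713392))) (b (a (l 73249208647)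 (l 100629646983)) (l 4)))) (b (a (b (a (l 16727568) (l 16716416)) (a (l 70564860327) (l 100092780903))) (b (a (l 68417383767) (l 100092786919)) (l 4))) (l 4))) (l 4))) (a (l 4) (l 2))) (a (l 4) (l 4))) (l 4)) (l 2)), by decide +kernel⟩

theorem c_pp_023_a : CertB 0 536870912 0 536870912 1020054732 13421774 3 eng mog cd0q0 cd1q2a pd3 true true true .up 0 2 3
    ndB0q0 ndB1q2a pcB3 Cut.none Ext.none :=
  certB2 (fam := true) (s1 := true) (s2 := true) (a := 0) (b := 2) (c := 3) (cn := .up) (n1 := ndB0q0) (n2 := ndB1q2a) (pc := pcB3) (cut := Cut.none) (xt := Ext.none) (P1 := 0) (W1 := 536870912) (P2 := 0) (W2 := 536870912) (P3 := 1020054732) (W3 := 13421774) (N0 := 3) (En := eng) (mo := mog) (C1 := cd0q0) (C2 := cd1q2a) (C3 := pd3)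
    rfl (fun _ => rfl) k0_pp_023_a

noncomputable def f_pp_023_b : ℕ → ℕ → ℕ → ℕ → Bool := onCell 1610612736 536870912 1239849684 370763052 1020054732 13421774
    (rowB 3 eng mog cd0q0 cd1q2b pd3 2 true true true .up 0 2 3 (qsf 0 536870912 1239849684 370763052 3) ndB0q0 ndB1q2b pcB3 Cut.none Ext.none)

def k0_pp_023_b : ∃ t, chk3 f_pp_023_b t 1 1 1 = true :=
  ⟨(a (b (a (a (b (a (b (a (l 16498152) (l 16505680)) (l 16422056)) (b (b (a (l 16640232) (l 16642136)) (l 16561136)) (l 16460624))) (a (b (l 16337152) (l 16193296)) (b (l 16405912) (l 16272824)))) (b (a (b (b (a (l 16642096) (b (l 16693328) (l 16692352))) (l 16585032)) (l 16489696)) (b (a (b (a (l 16695920) (l 16683592)) (l 16677104)) (b (b (a (l 16723432) (a (l 16729160) (l 16731712))) (l 16683552)) (l 16669056))) (a (l 16602776) (l 4)))) (a (b (l 16462704) (l 16336536)) (l 4)))) (a (b (a (l 4) (l 4)) (l 4)) (l 4))) (a (a (b (a (b (l 16030760) (l 15848856)) (l 15871408)) (b (a (b (l 15696152) (l 15589720)) (l 15764392))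 (a (l 15315536) (b (l 15613800) (l 15486624))))) (a (a (b (l 16101496) (l 15742160)) (l 4)) (l 4))) (l 4))) (l 4)), by decide +kernel⟩

theorem c_pp_023_b : CertB 0 536870912 1239849684 370763052 1020054732 13421774 3 eng mog cd0q0 cd1q2b pd3 true true true .up 0 2 3
    ndB0q0 ndB1q2b pcB3 Cut.none Ext.none :=
  certB2 (fam := true) (s1 := true) (s2 := true) (a := 0) (b := 2) (c := 3) (cn := .up) (n1 := ndB0q0) (n2 := ndB1q2b) (pc := pcB3) (cut := Cut.none) (xt := Ext.none) (P1 := 0) (W1 := 536870912) (P2 := 1239849684) (W2 := 370763052) (P3 := 1020054732) (W3 := 13421774) (N0 := 3) (En := eng) (mo := mog) (C1 := cd0q0) (C2 := cd1q2b) (C3 := pd3)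
    rfl (fun _ => rfl) k0_pp_023_b

noncomputable def f_pp_033 : ℕ → ℕ → ℕ → ℕ → Bool := onCell 0 536870912 1610612736 536870912 1020054732 13421774
    (rowB 3 eng mog cd0q0 cd1q3 pd3 0 true true true .pnn 0 3 3 (qsf 0 536870912 1610612736 536870912 3) ndB0q0 ndB1q3 pcB3 Cut.none Ext.none)

def k0_pp_033 : ∃ t, chk3 f_pp_033 t 1 1 1 = true :=
  ⟨(a (b (a (b (a (b (a (b (l 15461680) (l 15403480)) (b (l 15569688) (l 15498624))) (a (b (l 15331552) (l 4)) (l 4))) (b (b (a (l 15656328) (l 4)) (l 4)) (l 4))) (l 4)) (l 4)) (l 4)) (l 4)), by decide +kernel⟩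

theorem c_pp_033 : CertB 0 536870912 1610612736 536870912 1020054732 13421774 3 eng mog cd0q0 cd1q3 pd3 true true true .pnn 0 3 3
    ndB0q0 ndB1q3 pcB3 Cut.none Ext.none :=
  certB0 (fam := true) (s1 := true) (s2 := true) (a := 0) (b := 3) (c := 3) (cn := .pnn) (n1 := ndB0q0) (n2 := ndB1q3) (pc := pcB3) (cut := Cut.none) (xt := Ext.none) (P1 := 0) (W1 := 536870912) (P2 := 1610612736) (W2 := 536870912) (P3 := 1020054732) (W3 := 13421774) (N0 := 3) (En := eng) (mo := mog) (C1 := cd0q0) (C2 := cd1q3) (C3 := pd3)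
    rfl k0_pp_033

noncomputable def f_pp_101 : ℕ → ℕ → ℕ → ℕ → Bool := onCell 536870912 536870912 0 536870912 1020054732 13421774
    (rowB 3 eng mog cd0q1 cd1q0 pd1 0 true true true .npn 1 0 1 (qsf 536870912 536870912 0 536870912 1) ndB0q1 ndB1q0 pcB1 Cut.none Ext.none)

def k0_pp_101 : ∃ t, chk3 f_pp_101 t 1 1 1 = true :=
  ⟨(a (l 4) (l 5)), by decide +kernel⟩

theorem c_pp_101 : CertB 536870912 536870912 0 536870912 1020054732 13421774 3 eng mog cd0q1 cd1q0 pd1 true true true .npn 1 0 1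
    ndB0q1 ndB1q0 pcB1 Cut.none Ext.none :=
  certB0 (fam := true) (s1 := true) (s2 := true) (a := 1) (b := 0) (c := 1) (cn := .npn) (n1 := ndB0q1) (n2 := ndB1q0) (pc := pcB1) (cut := Cut.none) (xt := Ext.none) (P1 := 536870912) (W1 := 536870912) (P2 := 0) (W2 := 536870912) (P3 := 1020054732) (W3 := 13421774) (N0 := 3) (En := eng) (mo := mog) (C1 := cd0q1) (C2 := cd1q0) (C3 := pd1)
    rfl k0_pp_101

noncomputable def f_pp_102 : ℕ → ℕ → ℕ → ℕ → Bool := onCell 536870912 536870912 0 536870912 1020054732 13421774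
    (rowB 3 eng mog cd0q1 cd1q0 pd2 0 true true true .npp 1 0 2 (qsf 536870912 536870912 0 536870912 2) ndB0q1 ndB1q0 pcB2 Cut.none Ext.none)

def k0_pp_102 : ∃ t, chk3 f_pp_102 t 1 1 1 = true :=
  ⟨(a (l 4) (l 5)), by decide +kernel⟩

theorem c_pp_102 : CertB 536870912 536870912 0 536870912 1020054732 13421774 3 eng mog cd0q1 cd1q0 pd2 true true true .npp 1 0 2
    ndB0q1 ndB1q0 pcB2 Cut.none Ext.none :=
  certB0 (fam := true) (s1 := true) (s2 := true) (a := 1) (b := 0) (c := 2) (cn := .npp) (n1 := ndB0q1) (n2 := ndB1q0) (pc := pcB2) (cut := Cut.none) (xt := Ext.none) (P1 := 536870912) (W1 := 536870912) (P2 := 0) (W2 := 536870912) (P3 := 1020054732) (W3 := 13421774) (N0 := 3) (En := eng) (mo := mog) (C1 := cd0q1) (C2 := cd1q0) (C3 := pd2)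
    rfl k0_pp_102

noncomputable def f_pp_112 : ℕ → ℕ → ℕ → ℕ → Bool := onCell 536870912 536870912 536870912 536870912 1020054732 13421774
    (rowB 3 eng mog cd0q1 cd1q1 pd2 0 true true true .dn 1 1 2 (qsf 536870912 536870912 536870912 536870912 2) ndB0q1 ndB1q1 pcB2 Cut.none Ext.none)

def k0_pp_112 : ∃ t, chk3 f_pp_112 t 1 1 1 = true :=
  ⟨(l 4), by decide +kernel⟩

theorem c_pp_112 : CertB 536870912 536870912 536870912 536870912 1020054732 13421774 3 eng mog cd0q1 cd1q1 pd2 true true true .dn 1 1 2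
    ndB0q1 ndB1q1 pcB2 Cut.none Ext.none :=
  certB0 (fam := true) (s1 := true) (s2 := true) (a := 1) (b := 1) (c := 2) (cn := .dn) (n1 := ndB0q1) (n2 := ndB1q1) (pc := pcB2) (cut := Cut.none) (xt := Ext.none) (P1 := 536870912) (W1 := 536870912) (P2 := 536870912) (W2 := 536870912) (P3 := 1020054732) (W3 := 13421774) (N0 := 3) (En := eng) (mo := mog) (C1 := cd0q1) (C2 := cd1q1) (C3 := pd2)
    rfl k0_pp_112

noncomputable def f_pp_113 : ℕ → ℕ → ℕ → ℕ → Bool := onCell 536870912 536870912 536870912 536870912 1020054732 13421774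
    (rowB 3 eng mog cd0q1 cd1q1 pd3 0 true true true .nn 1 1 3 (qsf 536870912 536870912 536870912 536870912 3) ndB0q1 ndB1q1 pcB3 Cut.none Ext.none)

def k0_pp_113 : ∃ t, chk3 f_pp_113 t 1 1 1 = true :=
  ⟨(l 4), by decide +kernel⟩

theorem c_pp_113 : CertB 536870912 536870912 536870912 536870912 1020054732 13421774 3 eng mog cd0q1 cd1q1 pd3 true true true .nn 1 1 3
    ndB0q1 ndB1q1 pcB3 Cut.none Ext.none :=
  certB0 (fam := true) (s1 := true) (s2 := true) (a := 1) (b := 1) (c := 3) (cn := .nn) (n1 := ndB0q1) (n2 := ndB1q1) (pc := pcB3) (cut := Cut.none) (xt := Ext.none) (P1 := 536870912) (W1 := 536870912) (P2 := 536870912) (W2 := 536870912) (P3 := 1020054732) (W3 := 13421774) (N0 := 3) (En := eng) (mo := mog) (C1 := cd0q1) (C2 := cd1q1) (C3 := pd3)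
    rfl k0_pp_113

noncomputable def f_pp_123_a : ℕ → ℕ → ℕ → ℕ → Bool := onCell 536870912 536870912 0 536870912 1020054732 13421774
    (rowB 3 eng mog cd0q1 cd1q2a pd3 0 true true true .npn 1 2 3 (qsf 536870912 536870912 0 536870912 3) ndB0q1 ndB1q2a pcB3 Cut.none Ext.none)

def k0_pp_123_a : ∃ t, chk3 f_pp_123_a t 1 1 1 = true :=
  ⟨(a (b (l 4) (l 4)) (l 4)), by decide +kernel⟩

theorem c_pp_123_a : CertB 536870912 536870912 0 536870912 1020054732 13421774 3 eng mog cd0q1 cd1q2a pd3 true true true .npn 1 2 3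
    ndB0q1 ndB1q2a pcB3 Cut.none Ext.none :=
  certB0 (fam := true) (s1 := true) (s2 := true) (a := 1) (b := 2) (c := 3) (cn := .npn) (n1 := ndB0q1) (n2 := ndB1q2a) (pc := pcB3) (cut := Cut.none) (xt := Ext.none) (P1 := 536870912) (W1 := 536870912) (P2 := 0) (W2 := 536870912) (P3 := 1020054732) (W3 := 13421774) (N0 := 3) (En := eng) (mo := mog) (C1 := cd0q1) (C2 := cd1q2a) (C3 := pd3)
    rfl k0_pp_123_a

noncomputable def f_pp_123_b : ℕ → ℕ → ℕ → ℕ → Bool := onCell 536870912 536870912 1239849684 370763052 1020054732 13421774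
    (rowB 3 eng mog cd0q1 cd1q2b pd3 0 true true true .npn 1 2 3 (qsf 536870912 536870912 1239849684 370763052 3) ndB0q1 ndB1q2b pcB3 Cut.none Ext.none)

def k0_pp_123_b : ∃ t, chk3 f_pp_123_b t 1 1 1 = true :=
  ⟨(a (b (a (l 4) (l 4)) (l 4)) (l 4)), by decide +kernel⟩

theorem c_pp_123_b : CertB 536870912 536870912 1239849684 370763052 1020054732 13421774 3 eng mog cd0q1 cd1q2b pd3 true true true .npn 1 2 3
    ndB0q1 ndB1q2b pcB3 Cut.none Ext.none :=
  certB0 (fam := true) (s1 := true) (s2 := true) (a := 1) (b := 2) (c := 3) (cn := .npn) (n1 := ndB0q1) (n2 := ndB1q2b) (pc := pcB3) (cut := Cut.none) (xt := Ext.none) (P1 := 536870912) (W1 := 536870912) (P2 := 1239849684) (W2 := 370763052) (P3 := 1020054732) (W3 := 13421774) (N0 := 3) (En := eng) (mo := mog) (C1 := cd0q1) (C2 := cd1q2b) (C3 := pd3)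
    rfl k0_pp_123_b

noncomputable def f_pp_133 : ℕ → ℕ → ℕ → ℕ → Bool := onCell 536870912 536870912 1610612736 536870912 1020054732 13421774
    (rowB 3 eng mog cd0q1 cd1q3 pd3 0 true true true .dn 1 3 3 (qsf 536870912 536870912 1610612736 536870912 3) ndB0q1 ndB1q3 pcB3 Cut.none Ext.none)

def k0_pp_133 : ∃ t, chk3 f_pp_133 t 1 1 1 = true :=
  ⟨(l 4), by decide +kernel⟩

theorem c_pp_133 : CertB 536870912 536870912 1610612736 536870912 1020054732 13421774 3 eng mog cd0q1 cd1q3 pd3 true true true .dn 1 3 3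
    ndB0q1 ndB1q3 pcB3 Cut.none Ext.none :=
  certB0 (fam := true) (s1 := true) (s2 := true) (a := 1) (b := 3) (c := 3) (cn := .dn) (n1 := ndB0q1) (n2 := ndB1q3) (pc := pcB3) (cut := Cut.none) (xt := Ext.none) (P1 := 536870912) (W1 := 536870912) (P2 := 1610612736) (W2 := 536870912) (P3 := 1020054732) (W3 := 13421774) (N0 := 3) (En := eng) (mo := mog) (C1 := cd0q1) (C2 := cd1q3) (C3 := pd3)
    rfl k0_pp_133

noncomputable def f_pp_202 : ℕ → ℕ → ℕ → ℕ → Bool := onCell 0 536870912 0 536870912 1020054732 13421774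
    (rowB 3 eng mog cd0q2 cd1q0 pd2 0 true true true .pp 2 0 2 (qsf 0 536870912 0 536870912 2) ndB0q2 ndB1q0 pcB2 Cut.none Ext.none)

def k0_pp_202 : ∃ t, chk3 f_pp_202 t 1 1 1 = true :=
  ⟨(l 5), by decide +kernel⟩

theorem c_pp_202 : CertB 0 536870912 0 536870912 1020054732 13421774 3 eng mog cd0q2 cd1q0 pd2 true true true .pp 2 0 2
    ndB0q2 ndB1q0 pcB2 Cut.none Ext.none :=
  certB0 (fam := true) (s1 := true) (s2 := true) (a := 2) (b := 0) (c := 2) (cn := .pp) (n1 := ndB0q2) (n2 := ndB1q0) (pc := pcB2) (cut := Cut.none) (xt := Ext.none) (P1 := 0) (W1 := 536870912) (P2 := 0) (W2 := 536870912) (P3 := 1020054732) (W3 := 13421774) (N0 := 3) (En := eng) (mo := mog) (C1 := cd0q2) (C2 := cd1q0) (C3 := pd2)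
    rfl k0_pp_202

noncomputable def f_pp_203 : ℕ → ℕ → ℕ → ℕ → Bool := onCell 0 536870912 0 536870912 1020054732 13421774
    (rowB 3 eng mog cd0q2 cd1q0 pd3 0 true true true .up 2 0 3 (qsf 0 536870912 0 536870912 3) ndB0q2 ndB1q0 pcB3 Cut.none Ext.none)

def k0_pp_203 : ∃ t, chk3 f_pp_203 t 1 1 1 = true :=
  ⟨(l 5), by decide +kernel⟩

theorem c_pp_203 : CertB 0 536870912 0 536870912 1020054732 13421774 3 eng mog cd0q2 cd1q0 pd3 true true true .up 2 0 3
    ndB0q2 ndB1q0 pcB3 Cut.none Ext.none :=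
  certB0 (fam := true) (s1 := true) (s2 := true) (a := 2) (b := 0) (c := 3) (cn := .up) (n1 := ndB0q2) (n2 := ndB1q0) (pc := pcB3) (cut := Cut.none) (xt := Ext.none) (P1 := 0) (W1 := 536870912) (P2 := 0) (W2 := 536870912) (P3 := 1020054732) (W3 := 13421774) (N0 := 3) (En := eng) (mo := mog) (C1 := cd0q2) (C2 := cd1q0) (C3 := pd3)
    rfl k0_pp_203

noncomputable def f_pp_213 : ℕ → ℕ → ℕ → ℕ → Bool := onCell 0 536870912 536870912 536870912 1020054732 13421774
    (rowB 3 eng mog cd0q2 cd1q1 pd3 0 true true true .pnn 2 1 3 (qsf 0 536870912 536870912 536870912 3) ndB0q2 ndB1q1 pcB3 Cut.none Ext.none)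

def k0_pp_213 : ∃ t, chk3 f_pp_213 t 1 1 1 = true :=
  ⟨(l 5), by decide +kernel⟩

theorem c_pp_213 : CertB 0 536870912 536870912 536870912 1020054732 13421774 3 eng mog cd0q2 cd1q1 pd3 true true true .pnn 2 1 3
    ndB0q2 ndB1q1 pcB3 Cut.none Ext.none :=
  certB0 (fam := true) (s1 := true) (s2 := true) (a := 2) (b := 1) (c := 3) (cn := .pnn) (n1 := ndB0q2) (n2 := ndB1q1) (pc := pcB3) (cut := Cut.none) (xt := Ext.none) (P1 := 0) (W1 := 536870912) (P2 := 536870912) (W2 := 536870912) (P3 := 1020054732) (W3 := 13421774) (N0 := 3) (En := eng) (mo := mog) (C1 := cd0q2) (C2 := cd1q1) (C3 := pd3)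
    rfl k0_pp_213

noncomputable def f_pm_001 : ℕ → ℕ → ℕ → ℕ → Bool := onCell 0 536870912 0 536870912 1020054732 13421774
    (rowB 3 eng mog cd0q0 cd1q0 pd1 0 true true false .up 0 0 1 (qsf 0 536870912 0 536870912 1) ndB0q0 ndB1q0 pcB1 Cut.none Ext.none)

def k0_pm_001 : ∃ t, chk3 f_pm_001 t 1 1 1 = true :=
  ⟨(l 3), by decide +kernel⟩

theorem c_pm_001 : CertB 0 536870912 0 536870912 1020054732 13421774 3 eng mog cd0q0 cd1q0 pd1 true true false .up 0 0 1
    ndB0q0 ndB1q0 pcB1 Cut.none Ext.none :=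
  certB0 (fam := true) (s1 := true) (s2 := false) (a := 0) (b := 0) (c := 1) (cn := .up) (n1 := ndB0q0) (n2 := ndB1q0) (pc := pcB1) (cut := Cut.none) (xt := Ext.none) (P1 := 0) (W1 := 536870912) (P2 := 0) (W2 := 536870912) (P3 := 1020054732) (W3 := 13421774) (N0 := 3) (En := eng) (mo := mog) (C1 := cd0q0) (C2 := cd1q0) (C3 := pd1)
    rfl k0_pm_001

noncomputable def f_pm_011 : ℕ → ℕ → ℕ → ℕ → Bool := onCell 0 536870912 536870912 536870912 1020054732 13421774
    (rowB 3 eng mog cd0q0 cd1q1 pd1 1 true true false .pnn 0 1 1 (qsf 0 536870912 536870912 536870912 1) ndB0q0 ndB1q1 pcB1 Cut.none Ext.none)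

def k0_pm_011 : ∃ t, chk3 f_pm_011 t 1 1 1 = true :=
  ⟨(l 3), by decide +kernel⟩

theorem c_pm_011 : CertB 0 536870912 536870912 536870912 1020054732 13421774 3 eng mog cd0q0 cd1q1 pd1 true true false .pnn 0 1 1
    ndB0q0 ndB1q1 pcB1 Cut.none Ext.none :=
  certB1 (fam := true) (s1 := true) (s2 := false) (a := 0) (b := 1) (c := 1) (cn := .pnn) (n1 := ndB0q0) (n2 := ndB1q1) (pc := pcB1) (cut := Cut.none) (xt := Ext.none) (P1 := 0) (W1 := 536870912) (P2 := 536870912) (W2 := 536870912) (P3 := 1020054732) (W3 := 13421774) (N0 := 3) (En := eng) (mo := mog) (C1 := cd0q0) (C2 := cd1q1) (C3 := pd1)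
    rfl (fun _ => rfl) k0_pm_011

noncomputable def xt_pm_012 : Ext := extD3 3 ⟨4, 1, 1, 5, 99, 20, 33, 40, 51, 125, 1, 32⟩ eng cd0q0 cd1q1 pd2 true true false .pnp 0 1 2 rfl ndB0q0 ndB1q1 pcB2

noncomputable def f_pm_012 : ℕ → ℕ → ℕ → ℕ → Bool := onCell 1073741824 536870912 536870912 536870912 1020054732 13421774
    (rowB 3 eng mog cd0q0 cd1q1 pd2 2 true true false .pnp 0 1 2 (qsf 0 536870912 536870912 536870912 2) ndB0q0 ndB1q1 pcB2 Cut.none xt_pm_012)

def k0_pm_012 : ∃ t, chk3 f_pm_012 t 4 2 1 = true :=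
  ⟨(l 3), by decide +kernel⟩

def k1_pm_012 : ∃ t, chk3 f_pm_012 t 8 3 1 = true :=
  ⟨(l 3), by decide +kernel⟩

def k2_pm_012 : ∃ t, chk3 f_pm_012 t 9 6 1 = true :=
  ⟨(l 3), by decide +kernel⟩

def k3_pm_012 : ∃ t, chk3 f_pm_012 t 9 14 1 = true :=
  ⟨(l 3), by decide +kernel⟩

def k4_pm_012 : ∃ t, chk3 f_pm_012 t 18 15 1 = true :=
  ⟨(l 3), by decide +kernel⟩

def k5_pm_012 : ∃ t, chk3 f_pm_012 t 19 30 1 = true :=
  ⟨(a (l 3) (a (a (l 3) (b (l 3) (b (l 3) (b (l 3) (a (l 3) (a (c (l 2613697622147829199394865407) (l 3271353268018032851688063103)) (c (l 141003053979681023) (l 140648667707572351)))))))) (b (a (l 3) (b (c (l 170891976471) (l 16397520)) (c (c (l 120426069367) (l 16379928)) (b (l 16414288) (l 16390752))))) (a (a (c (b (l 2874825599184709497664897087) (b (l 141234501179392127) (l 141006146347712767))) (b (l 3261681861460961130736681023) (b (l 140922789690097727) (l 140832973330399359)))) (b (c (l 141124756180516927) (l 141056174189543487)) (c (a (l 141033496696275071)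 (l 141035352116576383)) (l 140703299668426815)))) (b (a (c (l 141308099733405759) (l 16389944)) (c (c (l 16377080) (l 16388328)) (l 16384584))) (a (c (l 141037963448369279) (l 140888361208184895)) (c (b (l 16374512) (l 16348376)) (l 16401552)))))))), by decide +kernel⟩

def k6_pm_012 : ∃ t, chk3 f_pm_012 t 38 31 1 = true :=
  ⟨(b (l 3) (a (l 3) (b (a (l 3) (a (b (l 3) (c (b (l 186998081575) (l 92508795911)) (c (l 168744544631) (l 178945151911)))) (c (b (c (l 138142782583) (l 147806513223)) (b (l 37211081911) (l 16387072))) (b (c (l 157470243767) (l 168207717959)) (b (l 57075419655) (l 16439080)))))) (b (a (a (l 3) (a (l 3) (c (l 155322694791) (l 174113298583)))) (c (c (c (l 16351696) (l 16365016)) (l 28084305015)) (c (l 44727354311) (l 55464834359)))) (a (c (a (l 178408150007) (b (l 16393720) (l 16392256))) (c (l 81771471927) (l 84992762023))) (c (c (l 16349224) (l 16398640)) (c (l 16427512) (l 16456792)))))))), by decide +kernel⟩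

def k7_pm_012 : ∃ t, chk3 f_pm_012 t 78 31 1 = true :=
  ⟨(b (b (b (a (l 3) (a (c (a (l 3) (l 2052756041846407341227458815)) (c (l 2400926677895437311162056959) (l 2536326369692146586153566463))) (c (a (l 592373651752117748382269695) (l 140951720520532223)) (c (l 140855925625782527) (l 140627502121107711))))) (a (b (l 3) (a (l 3) (c (l 2487969336907638178717663487) (c (l 149417172407) (l 155859662711))))) (a (c (c (l 940544287801624562677793023) (l 1172658045167084639242125567)) (c (l 1404771802532891130691436799) (b (l 114520582199) (l 80160844471)))) (c (a (l 140895095667818751) (l 140897432124358911)) (c (l 16399480) (l 16418752)))))) (a (a (b (l 3) (c (c (l 2188155733643453616460824703) (a (l 166596987383) (l 116667986583))) (a (b (l 3) (l 167133952599)) (c (l 129016068215) (l 141901021911))))) (c (c (b (l 1221015077951986259377979519) (l 16361424)) (b (l 2033413228732536578247884927) (l 16384704))) (b (b (c (l 101635665223) (l 2575011995919589319867678975)) (c (l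 68349663287) (l 86066438263))) (c (l 16412248) (l 16438808))))) (c (b (c (c (l 141503744036012159) (l 141295524042162303)) (l 140829262423818367)) (c (a (l 16354512) (l 16348936)) (l 140758275197485183))) (c (b (a (l 16405720) (l 16408032)) (c (l 16393016) (l 16404256))) (b (a (l 16430600) (l 16428992)) (b (l 16431728) (l 16431776))))))) (b (a (b (c (c (l 141103521816887423) (a (l 16387256) (l 16392104))) (c (a (l 16411200) (l 16416056)) (a (l 16445984) (l 16440360)))) (c (c (l 141046347203133567) (l 16381608)) (c (l 16417696) (l 16443664)))) (b (c (c (l 141113760995950719) (l 140684126875730047)) (c (l 16397176) (l 16431976))) (c (c (l 141237112447533183) (l 16359888)) (c (l 16406464) (l 16432440))))) (a (b (c (c (l 16352216) (l 16368568)) (c (l 16416776) (l 16444400))) (c (b (l 16346192) (l 16351272)) (l 16412360))) (b (c (c (l 16340960) (l 16378288)) (l 16398320)) (c (a (l 16343544) (l 16337944)) (l 16419448)))))), by decide +kernel⟩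

def k8_pm_012 : ∃ t, chk3 f_pm_012 t 79 31 1 = true :=
  ⟨(c (b (a (a (b (c (l 141473713612849407) (l 141117678061977855)) (c (a (l 141378605859831935) (l 141380667438481535)) (l 140982850433826943))) (b (b (l 141139324672360703) (l 140905266124996863)) (b (l 140848366346207359) (l 140788374277374079)))) (a (b (a (l 140935640130109695) (l 140937564269887743)) (b (l 141032878172995711) (l 140793047190569087))) (b (c (l 16340016) (l 16350048)) (b (l 16355232) (l 16351008))))) (b (a (c (b (l 141303151851094143) (l 141246801870979199)) (l 140658357046280319)) (a (b (l 16331536) (l 16348824)) (b (c (l 16314272) (l 16358856)) (a (l 140667634120392831) (b (c (l 16308896) (l 16354520)) (l 16338376)))))) (a (b (l 140406362646331519) (b (l 140171754347118719) (a (l 16352608) (a (l 16327144) (l 16322928))))) (a (b (l 140414334086217855) (b (l 140539678445273215) (l 16313968))) (b (c (l 16300888) (l 16347304)) (c (l 16291640) (l 16338056))))))) (b (a (c (b (a (l 140819366850642175)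 (l 16389568)) (b (l 16389280) (l 16377080))) (b (b (l 140637054111531263) (l 16410512)) (b (l 16399760) (l 16420696)))) (b (a (l 140524354133475583) (l 16377416)) (c (l 16382720) (l 16409784)))) (b (a (b (c (l 16396576) (l 16420896)) (l 16387336)) (a (l 16379272) (b (l 16394944) (a (l 16374192) (c (l 16377784) (l 16403304)))))) (a (a (l 16390024) (b (l 16405408) (c (b (l 16390600) (l 16389056)) (l 16397448)))) (b (a (c (l 140324449136017535) (l 139974186019045503)) (l 16344224)) (c (a (l 16378552) (l 16363872)) (l 16356560))))))), by decide +kernel⟩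

def k9_pm_012 : ∃ t, chk3 f_pm_012 t 5 2 1 = true :=
  ⟨(b (a (a (a (b (l 2) (l 3)) (l 2)) (l 2)) (l 2)) (a (a (a (l 3) (a (l 3) (b (b (b (l 2) (a (l 3) (c (l 32849242631) (l 30701942743)))) (a (l 3) (b (c (l 16519920) (l 16604808)) (c (l 16576208) (l 16593296))))) (a (l 3) (b (b (c (l 16612160) (l 16587264)) (l 16527264)) (b (l 16519384) (l 16510816))))))) (b (b (a (a (b (l 2) (c (l 16538704) (l 16603040))) (l 2)) (l 2)) (b (a (b (c (l 16555064) (l 16591888)) (c (l 16561160) (l 16595656))) (c (l 16606624) (l 16562824))) (a (c (l 16549624) (l 16548912)) (c (l 16595160) (l 16541536))))) (b (b (a (b (l 16522296) (l 16527656)) (a (l 16516184) (l 16503168))) (a (c (l 16597384) (l 16545600)) (l 16465512))) (b (a (a (l 16502736) (l 16487384)) (l 16471112)) (a (l 16470624) (l 16461304)))))) (b (b (l 2) (a (b (l 2) (a (l 16489304) (l 2))) (l 2))) (b (a (b (a (l 16472864) (l 16474496)) (a (l 16472528) (l 16465800))) (b (l 2) (l 16383032))) (a (a (b (l 16463176) (l 16452672)) (b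 (l 16455776) (l 16444696))) (c (l 16527824) (l 16313936))))))), by decide +kernel⟩

def k10_pm_012 : ∃ t, chk3 f_pm_012 t 5 6 1 = true :=
  ⟨(a (a (a (b (l 3) (l 3)) (b (a (l 3) (a (b (l 3) (c (l 16551608) (l 723332175095))) (b (b (l 16501320) (l 16512008)) (c (l 16648096) (l 16510520))))) (c (a (b (b (l 16591928) (l 16533640)) (a (l 16525344) (l 16516120))) (a (b (b (l 16578800) (l 16562192)) (l 16443760)) (b (a (l 16574280) (b (l 16588648) (l 16549104))) (a (l 16391784) (b (l 16507336) (l 16464088)))))) (a (b (l 242295775111) (a (l 16461152) (l 16451816))) (a (b (l 16447968) (l 16442072)) (a (b (l 16461944) (b (l 16444936) (l 16417416))) (b (b (l 16448712) (l 16442232)) (b (l 16432368) (l 16399096))))))))) (b (b (b (a (l 16481576) (l 16450552)) (a (l 16470840) (l 16460144))) (c (b (l 16630536) (l 16591960)) (b (l 16465168) (l 16480848)))) (b (b (l 16336344) (l 16363472)) (b (l 16303328) (a (l 16407184) (l 16372464)))))) (b (b (c (a (b (l 16625768) (l 16607936)) (b (l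 16590072) (l 16529168))) (a (b (l 16456544) (l 16450224)) (l 16321408))) (a (c (b (l 16568480) (l 16528688)) (l 16325440)) (b (l 16363280) (l 16370672)))) (b (b (a (l 16397592) (l 16378232)) (a (l 16320760) (l 16322880))) (a (b (l 16364856) (l 16323480)) (b (l 16305768) (l 16262848)))))), by decide +kernel⟩

def k11_pm_012 : ∃ t, chk3 f_pm_012 t 40 14 1 = true :=
  ⟨(b (a (l 3) (b (l 170355064999) (a (l 16444032) (l 16434176)))) (a (b (a (l 3) (l 169281343847)) (a (b (l 16402352) (l 16392008)) (c (l 16408376) (l 16386232)))) (b (a (l 16419704) (l 16409696)) (a (c (l 16398160) (l 16396936)) (l 16387392))))), by decide +kernel⟩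

def k12_pm_012 : ∃ t, chk3 f_pm_012 t 40 30 1 = true :=
  ⟨(a (b (b (a (b (l 16405632) (l 16400952)) (l 16392840)) (a (c (l 16365344) (l 16381416)) (b (l 16385952) (l 16381608)))) (a (b (c (a (l 16356368) (l 16351056)) (l 16397568)) (c (b (l 16345512) (l 16340328)) (l 16393528))) (b (c (l 16343144) (l 16387008)) (c (a (l 16334920) (l 16329448)) (a (l 16385560) (l 16380000)))))) (b (a (b (l 16382496) (l 16373376)) (b (c (l 16346224) (l 16376072)) (c (a (l 16336000) (l 16349008)) (a (l 16372656) (l 16363160))))) (a (b (a (l 16367608) (c (l 16328984) (l 16372272))) (c (a (b (l 16326432) (c (l 16312024) (l 16326848))) (c (l 16306520) (l 16319512))) (a (b (l 16375088) (l 16370488)) (l 16318424)))) (b (c (a (l 16320432) (l 16329664)) (a (l 16361912) (l 16346656))) (c (c (l 16289968) (l 16321288)) (c (l 16331808) (l 16342488))))))), by decide +kernel⟩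

def k13_pm_012 : ∃ t, chk3 f_pm_012 t 80 31 1 = true :=
  ⟨(b (b (a (c (b (l 16356336) (c (l 16342280) (l 16361008))) (l 16369352)) (a (b (l 16344568) (c (c (l 16312560) (l 16331080)) (a (l 16382784) (l 16378848)))) (c (b (a (l 16322912) (l 16339872)) (b (l 16335992) (l 16331160))) (b (l 16354624) (l 16369272))))) (b (a (a (c (l 16349816) (l 16391176)) (c (c (l 16312904) (l 16333160)) (l 16353632))) (a (c (a (b (l 16319704) (l 16336568)) (l 16332968)) (a (l 16379000) (l 16371816))) (c (l 16303120) (l 16360344)))) (a (a (c (c (l 16313456) (l 16335400)) (l 16389912)) (c (a (b (l 16342208) (l 16338944)) (b (l 16337808) (l 16333088))) (a (l 16363504) (l 16378400)))) (c (c (b (l 16292512) (l 16287784)) (l 16330104)) (c (l 16349368) (l 16368928)))))) (c (b (a (b (a (a (b (l 16343816) (a (l 16342296) (l 16340096))) (b (l 16319056) (l 16335656))) (c (l 16297248) (l 16339984))) (c (a (l 16298944) (l 16287928)) (l 16316152))) (c (b (a (l 16286264) (l 16275352)) (a (l 16276984)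 (l 16266112))) (b (l 16299984) (c (l 16286032) (l 16295816))))) (a (c (b (a (l 16289720) (l 16278744)) (a (l 16280624) (l 16269688))) (b (l 16307064) (c (l 16292280) (l 16303832)))) (c (b (a (l 16267840) (l 16257008)) (c (b (l 16250752) (l 16246296)) (l 16258280))) (b (a (l 16288240) (l 16275768)) (a (l 16279312) (l 16266904)))))) (a (b (a (b (a (l 16347848) (l 16363624)) (l 16379624)) (c (l 16357584) (l 16380088))) (c (b (l 16351248) (l 16342280)) (b (l 16374792) (l 16365880)))) (b (c (b (l 16340472) (l 16331600)) (b (l 16360272) (l 16351592))) (c (b (l 16301784) (l 16292976)) (b (l 16342888) (l 16334160))))))), by decide +kernel⟩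

def k14_pm_012 : ∃ t, chk3 f_pm_012 t 81 31 1 = true :=
  ⟨(b (a (c (b (c (c (l 16288576) (l 16295888)) (l 16327928)) (c (b (l 16277808) (b (l 16270704) (l 16266016))) (b (l 16293112) (l 16283984)))) (b (c (l 16342888) (l 16358072)) (c (b (l 16329616) (l 16320816)) (l 16320184)))) (c (b (c (c (l 16267656) (l 16273280)) (l 16302760)) (c (b (l 16256152) (c (l 16243744) (l 16249848))) (b (l 16268096) (l 16259096)))) (b (c (l 16314256) (l 16325928)) (c (b (l 16280224) (l 16271576)) (a (l 16317408) (l 16280608)))))) (c (a (b (c (b (a (l 16264496) (l 16253712)) (a (l 16255304) (l 16244560))) (b (b (l 16277200) (l 16272696)) (a (l 16272264) (l 16259888)))) (c (b (b (a (l 16248496) (l 16237792)) (c (l 16234560) (l 16242672))) (a (b (l 16239552) (l 16235144)) (c (b (l 16246008) (l 16241608)) (l 16251576)))) (b (a (l 16263376) (l 16251072)) (a (l 16254584) (l 16242352))))) (b (c (b (a (l 16242976) (l 16232304)) (c (a (l 16251456) (l 16241232)) (b (l 16233936) (l 16229464)))) (b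 (c (l 16247016) (l 16253368)) (a (l 16247584) (l 16235344)))) (c (b (c (a (b (l 16244688) (l 16240232)) (b (l 16234504) (l 16230080))) (b (l 16225032) (l 16220640))) (a (c (b (l 16235824) (l 16231456)) (l 16240616)) (c (b (l 16225696) (l 16221360)) (l 16229728)))) (b (a (l 16238840) (l 16226680)) (a (l 16230208) (l 16218128)))))) (a (b (c (b (l 16312056) (l 16282360)) (b (l 16328424) (l 16319928))) (c (b (c (l 16269528) (l 16277856)) (c (l 16260864) (l 16269256))) (b (l 16311424) (l 16281936)))) (b (c (b (l 16262976) (c (l 16251152) (l 16257720))) (a (l 16300720) (l 16264136))) (c (b (c (l 16242608) (l 16249288)) (a (l 16244456) (l 16230784))) (a (l 16263064) (c (l 16244504) (l 16250912)))))))), by decide +kernel⟩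

def k15_pm_012 : ∃ t, chk3 f_pm_012 t 82 14 1 = true :=
  ⟨(b (a (b (l 16450880) (l 16424416)) (b (l 16441360) (l 16414512))) (b (a (l 16399792) (c (l 16394888) (l 16377864))) (b (a (l 16361008) (a (l 16370552) (l 16356472))) (a (a (l 16353032) (l 16365544)) (l 16344736))))), by decide +kernel⟩

def k16_pm_012 : ∃ t, chk3 f_pm_012 t 82 15 2 = true :=
  ⟨(b (b (a (b (l 16351312) (l 16331424)) (c (l 16317336) (l 16317208))) (a (b (l 16311800) (c (l 16268152) (l 16275032))) (b (l 16266928) (c (l 16246232) (l 16249560))))) (b (a (b (c (a (l 16254304) (l 16243496)) (c (l 16254736) (l 16258720))) (c (b (l 16234632) (b (l 16227672) (l 16223080))) (b (l 16243232) (l 16244848)))) (b (c (a (l 16232672) (l 16221792)) (c (l 16230424) (l 16232672))) (c (b (a (l 16239600) (l 16228824)) (a (l 16230440) (l 16219736))) (a (l 16220360) (l 16207920))))) (a (b (c (b (c (a (l 16240112) (l 16229904)) (l 16218592)) (b (a (l 16235880) (l 16225320)) (a (l 16231432) (l 16220904)))) (b (c (l 16223264)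 (l 16227968)) (a (l 16223160) (l 16211008)))) (c (b (a (c (b (l 16224376) (l 16219976)) (l 16227496)) (c (b (l 16214280) (l 16209920)) (l 16216640))) (a (c (b (l 16215632) (l 16211328)) (l 16218896)) (c (b (l 16205608) (l 16201344)) (l 16208120)))) (a (b (l 16214584) (l 16206128)) (c (b (l 16221208) (l 16212800)) (l 16201992))))) (b (c (b (a (c (l 16219712) (l 16223152)) (c (l 16209504) (l 16212120))) (a (c (l 16210792) (l 16214400)) (c (l 16200664) (l 16203464)))) (a (b (l 16228344) (c (l 16218024) (l 16221680))) (b (l 16216072) (c (l 16206280) (l 16209112))))) (c (c (a (b (l 16202056) (b (l 16195616) (l 16191400))) (b (l 16192008) (a (l 16186072) (l 16181096)))) (a (b (l 16205808) (l 16197384)) (b (l 16194968) (l 16186656)))) (a (b (c (l 16209584) (l 16213384)) (c (l 16201280) (l 16205208))) (b (c (l 16197952) (l 16200944)) (c (l 16189776) (l 16192912))))))))), by decide +kernel⟩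

def k17_pm_012 : ∃ t, chk3 f_pm_012 t 82 15 3 = true :=
  ⟨(b (b (a (b (l 16357072) (l 16340240)) (b (l 16325352) (l 16308664))) (a (b (l 16323344) (c (l 16302992) (l 16310080))) (b (l 16292072) (a (l 16262680) (l 16247136))))) (b (a (b (c (l 16285736) (l 16293880)) (c (b (l 16251944) (l 16243480)) (a (l 16264824) (l 16249048)))) (b (a (l 16246248) (l 16230952)) (a (b (l 16234032) (l 16225944)) (b (l 16218928) (l 16210984))))) (a (b (c (b (l 16248184) (c (l 16224288) (l 16229200))) (a (l 16248592) (l 16233072))) (c (a (c (l 16218560) (l 16224080)) (c (l 16205360) (l 16210080))) (a (c (l 16229632) (l 16235224)) (c (l 16214816) (l 16219592))))) (b (a (c (a (l 16213800) (l 16206880)) (l 16217560)) (c (c (l 16195032) (l 16197808)) (l 16201992))) (a (c (c (l 16192200) (l 16196112)) (c (l 16200040) (l 16204000))) (c (c (l 16179040) (l 16182136)) (c (l 16185256) (l 16188392)))))))), by decide +kernel⟩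

def k18_pm_012 : ∃ t, chk3 f_pm_012 t 83 14 1 = true :=
  ⟨(a (b (b (a (l 16434272) (l 16426904)) (a (l 16404744) (l 16350400))) (b (a (l 16369872) (l 16333216)) (c (l 16289984) (l 16295312)))) (c (b (a (b (l 16436216) (l 16393064)) (b (l 16421160) (l 16378752))) (a (b (l 16351232) (b (l 16320488) (l 16300408))) (b (b (l 16347440) (l 16326912)) (a (b (l 16307952) (c (l 16273512) (l 16260704))) (l 16292512))))) (b (a (b (l 16386728) (l 16352560)) (b (l 16365952) (l 16333008))) (a (b (l 16319600) (a (l 16293952) (l 16282456))) (b (b (l 16308528) (l 16292400)) (b (b (l 16280416) (l 16272496)) (c (l 16246344) (l 16233088)))))))), by decide +kernel⟩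

def k19_pm_012 : ∃ t, chk3 f_pm_012 t 166 15 1 = true :=
  ⟨(b (b (c (b (l 16301792) (l 16261216)) (a (l 16292856) (l 16275560))) (c (b (c (l 16242968) (l 16241104)) (a (l 16230024) (l 16217512))) (a (b (l 16268352) (l 16231280)) (b (l 16251488) (l 16214744))))) (b (c (b (a (c (b (l 16236416) (l 16227096)) (l 16233576)) (c (b (l 16225024) (l 16215808)) (l 16199360))) (a (c (b (l 16217928) (l 16208936)) (l 16195336)) (c (b (l 16206752) (a (l 16200768) (l 16195160))) (b (l 16207544) (l 16199192))))) (a (b (l 16215376) (b (l 16203600) (l 16195832))) (b (a (l 16203520) (l 16195256)) (c (l 16183440) (l 16184488))))) (c (b (a (c (b (c (l 16199216) (l 16201000)) (c (l 16190472) (l 16192448))) (b (l 16203680) (a (l 16198576) (l 16192424)))) (c (b (a (l 16192024) (l 16186488)) (a (l 16183472) (l 16178008))) (b (a (l 16194320) (l 16187872)) (a (l 16186192) (l 16179848))))) (a (a (b (c (l 16185672) (l 16190440)) (c (l 16177376) (l 16182440))) (b (c (l 16180416) (l 16184360)) (c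 (l 16172176) (l 16176448)))) (c (b (a (l 16175104) (l 16169720)) (a (l 16166936) (l 16161640))) (b (a (l 16178224) (l 16171984)) (a (l 16170408) (l 16164272)))))) (a (b (b (l 16188128) (b (l 16182400) (l 16178608))) (b (b (l 16174832) (l 16171080)) (b (l 16167344) (l 16163632)))) (b (c (c (b (l 16192336) (l 16184608)) (l 16168512)) (b (l 16173624) (l 16166472))) (c (b (a (l 16181360) (l 16174248)) (a (l 16173896) (l 16166920))) (c (a (l 16180120) (l 16172424)) (l 16156592)))))))), by decide +kernel⟩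

def k20_pm_012 : ∃ t, chk3 f_pm_012 t 167 30 1 = true :=
  ⟨(b (b (a (c (l 16259736) (l 16263120)) (a (a (a (l 16240184) (c (l 16246976) (l 16224320))) (l 16253576)) (l 16251536))) (a (a (l 16239024) (a (l 16232456) (l 16227400))) (a (a (a (l 16222952) (a (l 16219912) (c (l 16227056) (l 16207712)))) (l 16215648)) (l 16213568)))) (a (a (c (c (l 16218736) (l 16215072)) (c (l 16211344) (l 16207536))) (c (b (l 16218424) (c (l 16223304) (l 16219048))) (b (l 16206632) (l 16191528)))) (a (c (c (a (a (l 16206944) (a (l 16204848) (b (l 16233520) (b (l 16219480) (l 16210328))))) (l 16201760)) (a (a (l 16200928) (a (l 16198344) (c (l 16198032) (l 16194544)))) (l 16194648))) (c (a (a (l 16194800) (a (l 16191712) (c (l 16191016) (l 16187464)))) (l 16187392)) (a (a (l 16188560) (a (l 16184960) (c (l 16183880) (l 16180264)))) (l 16200984)))) (b (l 16202224) (c (l 16208240) (l 16195272)))))), by decide +kernel⟩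

def k21_pm_012 : ∃ t, chk3 f_pm_012 t 334 31 1 = true :=
  ⟨(b (c (b (a (b (l 16215216) (l 16206424)) (b (a (l 16210024) (l 16206128)) (a (l 16201312) (l 16197488)))) (b (a (c (l 16198112) (l 16197440)) (a (l 16192752) (c (l 16190080) (l 16187920)))) (a (c (l 16189344) (l 16189232)) (a (l 16184352) (c (l 16181456) (l 16179912)))))) (a (b (l 16186560) (b (l 16196352) (c (l 16189096) (l 16188928)))) (b (b (a (l 16204320) (l 16199000)) (a (l 16196936) (l 16191744))) (b (a (l 16189648) (l 16184576)) (a (l 16182448) (c (l 16178320) (l 16176672))))))) (c (b (a (b (c (l 16180760) (l 16181176)) (c (l 16172376) (l 16173280))) (c (b (a (l 16176304) (l 16173032)) (a (l 16168000) (l 16164808))) (a (b (l 16175944) (l 16168152)) (b (l 16172064) (l 16164376))))) (a (b (c (l 16164184) (l 16165536)) (c (c (l 16155760) (l 16156640)) (l 16157960))) (c (a (b (l 16159896) (l 16152008)) (b (l 16156784) (l 16148984))) (a (b (l 16160528) (l 16153080)) (b (l 16156864) (l 16149520)))))) (a (b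 (b (c (l 16181576) (l 16181944)) (c (l 16174168) (l 16175040))) (b (c (l 16166880) (l 16168208)) (c (l 16159720) (l 16161464)))) (b (c (a (b (l 16175552) (l 16168280)) (b (l 16171056) (l 16163912))) (a (l 16171752) (b (l 16170000) (l 16163408)))) (c (a (b (l 16161144) (l 16154128)) (b (l 16156904) (l 16150032))) (a (b (l 16161728) (l 16155168)) (b (l 16156920) (l 16150520)))))))), by decide +kernel⟩

def k22_pm_012 : ∃ t, chk3 f_pm_012 t 335 62 2 = true :=
  ⟨(a (a (a (b (b (l 16202792) (l 16194232)) (b (l 16185840) (c (l 16178656) (l 16176552)))) (a (b (b (l 16200608) (l 16192112)) (b (c (l 16185352) (l 16182192)) (c (l 16176872) (l 16174368)))) (b (b (c (l 16201352) (l 16206904)) (a (a (l 16190856) (b (l 16192256) (l 16188088))) (l 16189792))) (a (a (b (l 16182576) (c (l 16175840) (l 16173080))) (b (c (l 16183696) (l 16180120)) (c (b (l 16177368) (l 16173216)) (l 16172392)))) (b (l 16181552) (l 16173496)))))) (b (b (l 16197400) (l 16188984)) (b (l 16180744) (l 16172672))))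 (b (b (l 16195272) (l 16186840)) (b (l 16178576) (l 16170496)))), by decide +kernel⟩

def k23_pm_012 : ∃ t, chk3 f_pm_012 t 335 63 2 = true :=
  ⟨(a (a (b (a (b (c (l 16170304) (l 16168800)) (c (l 16162160) (l 16161224))) (b (c (a (l 16168584) (a (a (l 16167600) (b (l 16169104) (l 16165056))) (l 16166768))) (a (l 16166704) (a (a (l 16165480) (b (l 16166696) (l 16162952))) (l 16164448)))) (c (a (l 16160504) (a (a (l 16159568) (c (l 16159480) (l 16158672))) (l 16158776))) (a (l 16159208) (a (a (l 16158048) (b (l 16159256) (l 16155608))) (l 16157072)))))) (a (b (c (l 16154224) (l 16153816)) (c (l 16146504) (l 16146584))) (b (c (a (c (l 16152816) (l 16152456)) (a (a (l 16151752) (c (b (l 16153504) (l 16149600)) (b (l 16152912) (l 16149144)))) (l 16151000))) (a (l 16151896) (a (a (l 16150792) (c (l 16150488) (l 16149944))) (l 16149880)))) (c (a (c (l 16145048) (l 16144936)) (a (a (l 16144160) (c (b (l 16145752) (l 16141960)) (l 16148840))) (l 16143448))) (a (l 16144760) (a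 (a (l 16143728) (c (l 16143328) (l 16143056))) (l 16142872))))))) (b (b (c (l 16165952) (l 16163608)) (c (l 16157960) (l 16156224))) (b (c (l 16150176) (l 16149016)) (c (l 16142624) (l 16142000))))) (b (b (c (l 16163792) (l 16161368)) (c (l 16155784) (l 16153960))) (b (c (l 16147984) (l 16146736)) (c (l 16140416) (l 16139696))))), by decide +kernel⟩

def k24_pm_012 : ∃ t, chk3 f_pm_012 t 335 31 3 = true :=
  ⟨(b (a (a (b (a (b (l 16194392) (l 16187256)) (a (b (l 16191280) (l 16184248)) (b (a (a (l 16189384) (l 16188336)) (l 16187792)) (a (a (l 16182416) (l 16181416)) (l 16180896))))) (a (b (l 16180208) (l 16173272)) (a (b (l 16177312) (c (l 16171792) (l 16169152))) (a (a (b (l 16175560) (l 16168808)) (b (c (l 16176464) (l 16172720)) (c (l 16169416) (l 16166368)))) (b (l 16174104) (l 16167416)))))) (b (b (l 16186944) (l 16180032)) (b (l 16173232) (l 16166536)))) (b (l 16181200) (b (l 16170912) (l 16164192)))) (a (a (b (a (b (c (l 16167240) (l 16165632)) (c (l 16160232)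 (l 16159200))) (a (b (c (l 16164760) (l 16162760)) (c (l 16157864) (l 16156456))) (a (a (b (c (l 16163296) (l 16161040)) (c (l 16156472) (l 16154832))) (b (c (b (l 16164216) (l 16160792)) (l 16160112)) (c (b (l 16157400) (l 16154048)) (b (l 16155488) (l 16152440))))) (b (l 16160856) (l 16154408))))) (a (b (c (l 16153360) (l 16152872)) (c (l 16146632) (l 16146640))) (a (b (c (l 16151104) (l 16150264)) (c (l 16144488) (l 16144176))) (a (a (b (c (l 16149792) (l 16148736)) (c (l 16143264) (l 16142752))) (b (c (b (l 16150736) (l 16147456)) (b (l 16149416) (l 16146424))) (c (b (l 16144216) (l 16141016)) (b (l 16143464) (l 16140528))))) (b (l 16148096) (c (l 16142240) (l 16141576))))))) (b (b (l 16159960) (l 16153512)) (b (c (l 16147808) (l 16146544)) (c (l 16141344) (l 16140632))))) (b (b (l 16157592) (l 16151112)) (b (l 16144760) (l 16138536))))), by decide +kernel⟩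

def k25_pm_012 : ∃ t, chk3 f_pm_012 t 21 7 1 = true :=
  ⟨(b (b (b (a (l 16347528) (l 16332568)) (a (c (l 16354056) (l 16305936)) (l 16292936))) (b (a (c (l 16311928) (l 16272736)) (l 16253848)) (a (c (a (l 16281016) (l 16260880)) (l 16240192)) (l 16194600)))) (c (b (b (a (b (l 16241128) (l 16221840)) (l 16190856)) (a (a (b (l 16213792) (l 16174800)) (l 16162216)) (l 16151904))) (b (a (b (a (b (l 16182640) (l 16174096)) (l 16156208)) (a (a (b (l 16171408) (l 16163256)) (l 16155912)) (l 16139080))) (c (l 16097440) (l 16111984))) (a (b (a (b (c (l 16150960) (l 16148032)) (a (c (l 16148568) (l 16146456)) (l 16135864))) (b (l 16126672) (l 16118656))) (a (c (a (b (l 16140720) (l 16133088)) (l 16125336)) (b (l 16133152) (l 16146968))) (b (l 16110840) (l 16103224)))) (b (l 16068416) (l 16057456))))) (b (b (a (b (l 16216264) (l 16200688)) (l 16165752)) (a (b (l 16185384) (a (l 16161040) (l 16158856))) (l 16133280))) (b (a (b (a (l 16146672) (l 16143984)) (a (c (a (l 16161728)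 (l 16149688)) (l 16130672)) (l 16129496))) (c (l 16105416) (l 16098712))) (a (b (a (a (b (l 16149728) (l 16143160)) (l 16133912)) (l 16115440)) (a (b (c (l 16131296) (l 16129368)) (c (l 16124648) (l 16123248))) (l 16080888))) (b (l 16058624) (l 16044232))))))), by decide +kernel⟩

def k26_pm_012 : ∃ t, chk3 f_pm_012 t 11 7 1 = true :=
  ⟨(b (b (a (b (l 16281960) (l 16240576)) (l 16114240)) (a (b (l 16178616) (a (l 16177440) (l 16141200))) (b (l 16133016) (l 16090352)))) (b (a (b (a (l 16138808) (l 16101200)) (a (c (l 16111912) (l 16090936)) (l 16062464))) (b (l 16048496) (l 16007776))) (a (b (a (c (l 16073840) (l 16057848)) (l 16025336)) (a (c (l 16017472) (l 16026216)) (c (l 15997800) (l 15982416)))) (b (a (l 15986840) (l 15950344)) (a (l 15950200) (l 15912296)))))), by decide +kernel⟩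

def k27_pm_012 : ∃ t, chk3 f_pm_012 t 3 1 1 = true :=
  ⟨(b (a (b (l 2) (b (l 2) (a (b (l 2) (a (c (l 16533664) (l 16342840)) (l 2))) (l 2)))) (l 2)) (b (a (b (a (b (a (b (l 16355648) (l 16362744)) (l 16200880)) (a (l 16205176) (l 16213296))) (b (l 2) (a (l 16202312) (l 2)))) (a (b (a (l 16218888) (l 16225784)) (a (b (l 16249272) (l 16207112)) (b (l 16194072) (l 16155224)))) (a (b (l 16192856) (l 16016648)) (b (l 16140640) (l 16069696))))) (b (l 2) (a (b (l 2) (l 15867112)) (l 2)))) (a (b (a (b (a (l 16140272) (l 16087168)) (a (l 16050560) (l 15994816))) (b (a (l 16038016) (l 15991680)) (a (l 15943880) (l 15896968)))) (a (b (a (b (l 15984048) (l 15941032)) (l 15903600)) (a (b (l 15899344) (l 15859376)) (b (l 15837200) (l 15795024)))) (b (a (l 15850120) (l 15801520)) (a (l 15738584) (l 15708544))))) (b (a (b (a (l 15945304) (l 15898304)) (a (l 15853312) (l 15812144))) (b (l 2) (a (l 15772808) (l 2)))) (a (b (a (l 15757024) (l 15715864)) (a (l 15662472) (l 15620584))) (b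 (a (l 15677304) (l 15640608)) (a (l 15582136) (l 15546384)))))))), by decide +kernel⟩

theorem s28_pm_012 : ∃ t, chk3 f_pm_012 t 335 31 2 = true := ex3_b k22_pm_012 k23_pm_012

theorem s29_pm_012 : ∃ t, chk3 f_pm_012 t 335 31 1 = true := ex3_c s28_pm_012 k24_pm_012

theorem s30_pm_012 : ∃ t, chk3 f_pm_012 t 167 31 1 = true := ex3_a k21_pm_012 s29_pm_012

theorem s31_pm_012 : ∃ t, chk3 f_pm_012 t 167 15 1 = true := ex3_b k20_pm_012 s30_pm_012

theorem s32_pm_012 : ∃ t, chk3 f_pm_012 t 83 15 1 = true := ex3_a k19_pm_012 s31_pm_012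

theorem s33_pm_012 : ∃ t, chk3 f_pm_012 t 83 7 1 = true := ex3_b k18_pm_012 s32_pm_012

theorem s34_pm_012 : ∃ t, chk3 f_pm_012 t 82 15 1 = true := ex3_c k16_pm_012 k17_pm_012

theorem s35_pm_012 : ∃ t, chk3 f_pm_012 t 82 7 1 = true := ex3_b k15_pm_012 s34_pm_012

theorem s36_pm_012 : ∃ t, chk3 f_pm_012 t 41 7 1 = true := ex3_a s35_pm_012 s33_pm_012

theorem s37_pm_012 : ∃ t, chk3 f_pm_012 t 40 31 1 = true := ex3_a k13_pm_012 k14_pm_012

theorem s38_pm_012 : ∃ t, chk3 f_pm_012 t 40 15 1 = true := ex3_b k12_pm_012 s37_pm_012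

theorem s39_pm_012 : ∃ t, chk3 f_pm_012 t 40 7 1 = true := ex3_b k11_pm_012 s38_pm_012

theorem s40_pm_012 : ∃ t, chk3 f_pm_012 t 20 7 1 = true := ex3_a s39_pm_012 s36_pm_012

theorem s41_pm_012 : ∃ t, chk3 f_pm_012 t 10 7 1 = true := ex3_a s40_pm_012 k25_pm_012

theorem s42_pm_012 : ∃ t, chk3 f_pm_012 t 5 7 1 = true := ex3_a s41_pm_012 k26_pm_012

theorem s43_pm_012 : ∃ t, chk3 f_pm_012 t 5 3 1 = true := ex3_b k10_pm_012 s42_pm_012

theorem s44_pm_012 : ∃ t, chk3 f_pm_012 t 5 1 1 = true := ex3_b k9_pm_012 s43_pm_012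

theorem s45_pm_012 : ∃ t, chk3 f_pm_012 t 39 31 1 = true := ex3_a k7_pm_012 k8_pm_012

theorem s46_pm_012 : ∃ t, chk3 f_pm_012 t 19 31 1 = true := ex3_a k6_pm_012 s45_pm_012

theorem s47_pm_012 : ∃ t, chk3 f_pm_012 t 19 15 1 = true := ex3_b k5_pm_012 s46_pm_012

theorem s48_pm_012 : ∃ t, chk3 f_pm_012 t 9 15 1 = true := ex3_a k4_pm_012 s47_pm_012

theorem s49_pm_012 : ∃ t, chk3 f_pm_012 t 9 7 1 = true := ex3_b k3_pm_012 s48_pm_012

theorem s50_pm_012 : ∃ t, chk3 f_pm_012 t 9 3 1 = true := ex3_b k2_pm_012 s49_pm_012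

theorem s51_pm_012 : ∃ t, chk3 f_pm_012 t 4 3 1 = true := ex3_a k1_pm_012 s50_pm_012

theorem s52_pm_012 : ∃ t, chk3 f_pm_012 t 4 1 1 = true := ex3_b k0_pm_012 s51_pm_012

theorem s53_pm_012 : ∃ t, chk3 f_pm_012 t 2 1 1 = true := ex3_a s52_pm_012 s44_pm_012

theorem s54_pm_012 : ∃ t, chk3 f_pm_012 t 1 1 1 = true := ex3_a s53_pm_012 k27_pm_012

theorem c_pm_012 : CertB 0 536870912 536870912 536870912 1020054732 13421774 3 eng mog cd0q0 cd1q1 pd2 true true false .pnp 0 1 2
    ndB0q0 ndB1q1 pcB2 Cut.none xt_pm_012 :=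
  certB2 (fam := true) (s1 := true) (s2 := false) (a := 0) (b := 1) (c := 2) (cn := .pnp) (n1 := ndB0q0) (n2 := ndB1q1) (pc := pcB2) (cut := Cut.none) (xt := xt_pm_012) (P1 := 0) (W1 := 536870912) (P2 := 536870912) (W2 := 536870912) (P3 := 1020054732) (W3 := 13421774) (N0 := 3) (En := eng) (mo := mog) (C1 := cd0q0) (C2 := cd1q1) (C3 := pd2)
    rfl (fun _ => rfl) s54_pm_012

noncomputable def cut_pm_022_a : Cut := Cut.of [[⟨0, 0, 0, 33554432⟩, ⟨1, 1, 0, 33554432⟩, ⟨2, 1, 0, 33554432⟩]]

noncomputable def f_pm_022_a : ℕ → ℕ → ℕ → ℕ → Bool := onCell 1073741824 536870912 0 536870912 1020054732 13421774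
    (rowB 3 eng mog cd0q0 cd1q2a pd2 2 true true false .pp 0 2 2 (qsf 0 536870912 0 536870912 2) ndB0q0 ndB1q2a pcB2 cut_pm_022_a Ext.none)

def k0_pm_022_a : ∃ t, chk3 f_pm_022_a t 8 2 1 = true :=
  ⟨(l 1), by decide +kernel⟩

def k1_pm_022_a : ∃ t, chk3 f_pm_022_a t 8 6 1 = true :=
  ⟨(l 1), by decide +kernel⟩

def k2_pm_022_a : ∃ t, chk3 f_pm_022_a t 16 7 1 = true :=
  ⟨(b (l 1) (a (b (l 1) (l 6)) (a (b (b (l 1) (l 6)) (l 6)) (a (b (b (l 1) (l 6)) (l 6)) (a (b (b (l 1) (l 6)) (l 6)) (b (b (b (l 1) (b (l 1) (c (l 16579344) (l 16569016)))) (a (l 6) (b (c (l 16584128) (l 16576336)) (l 16615896)))) (b (b (l 16651840) (l 16669440)) (b (l 16684672) (b (l 16681288) (l 16664288)))))))))), by decide +kernel⟩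

def k3_pm_022_a : ∃ t, chk3 f_pm_022_a t 17 14 1 = true :=
  ⟨(b (a (l 1) (a (l 1) (b (l 1) (l 16466648)))) (a (b (l 1) (a (a (l 1) (a (l 1) (b (l 1) (c (l 16533496) (l 16512032))))) (b (a (l 16502816) (l 16514016)) (a (b (l 16523784) (a (l 16514472) (l 16540976))) (b (l 16535056) (l 16528528)))))) (b (a (b (l 16478632) (l 16504536)) (l 16453488)) (a (b (l 16489720) (a (l 16533040) (l 16545240))) (a (l 16522616) (l 16535656)))))), by decide +kernel⟩

def k4_pm_022_a : ∃ t, chk3 f_pm_022_a t 17 30 1 = true :=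
  ⟨(a (b (a (a (b (b (l 1) (c (l 16561248) (a (l 1) (l 16542808)))) (c (b (a (l 16568744) (l 16574184)) (a (l 16584560) (l 16589912))) (b (a (l 16555680) (l 16560152)) (a (l 16573368) (l 16577848))))) (b (c (b (l 16552312) (l 16567280)) (b (l 16532728) (l 16528776))) (c (b (l 16582576) (l 16598200)) (a (l 16552632) (l 16557384))))) (b (c (a (b (l 16564200) (l 16579048)) (l 16562936)) (a (a (l 16527480) (l 16532440)) (l 16519136))) (c (a (l 16580984) (l 16614040)) (a (l 16564752) (l 16575032))))) (a (b (a (c (b (l 16582352) (l 16619760)) (a (l 16579616) (l 16584120))) (c (l 16601320) (l 16591128))) (a (c (l 16624128) (l 16619384)) (c (l 16634584) (l 16628712)))) (b (a (c (l 16612648) (l 16600952)) (l 16596992)) (c (l 16630432) (l 16622768))))) (b (a (b (c (b (l 16574920) (l 16610504)) (a (l 16550800) (l 16582960))) (c (l 16591120) (l 16570424))) (b (b (l 16544832) (l 16581656)) (l 16585176))) (a (b (a (l 16608632) (l 16620792)) (a (l 16643832) (l 16655960))) (b (l 16618968)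 (l 16620136))))), by decide +kernel⟩

def k5_pm_022_a : ∃ t, chk3 f_pm_022_a t 17 31 1 = true :=
  ⟨(a (b (a (b (a (c (l 16659088) (l 16658400)) (l 16647536)) (a (c (l 16674496) (l 16677968)) (l 16685848))) (c (b (l 16664712) (l 16660728)) (b (l 16661928) (l 16658544)))) (a (b (a (c (l 16676152) (l 16668432)) (c (l 16680000) (l 16672368))) (a (c (l 16645352) (l 16633272)) (c (l 16628016) (l 16615656)))) (b (a (c (l 16662144) (l 16654728)) (c (l 16664528) (l 16636464))) (a (c (l 16631136) (l 16618680)) (c (l 16612784) (l 16600392)))))) (b (a (b (c (l 16649336) (l 16654048)) (c (l 16622664) (l 16621880))) (b (c (l 16630848) (l 16616752)) (c (l 16604288) (l 16605280)))) (a (b (a (c (l 16645520) (l 16638888)) (l 16581312)) (c (a (l 16615088) (l 16596664)) (a (l 16602936) (l 16584976)))) (b (a (l 16583608) (l 16565320)) (c (a (l 16578712) (l 16560904)) (a (l 16567712) (l 16550768))))))), by decide +kernel⟩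

def k6_pm_022_a : ∃ t, chk3 f_pm_022_a t 9 2 1 = true :=
  ⟨(b (l 1) (a (l 1) (b (l 1) (a (l 1) (b (l 1) (l 16367336)))))), by decide +kernel⟩

def k7_pm_022_a : ∃ t, chk3 f_pm_022_a t 9 6 1 = true :=
  ⟨(a (b (l 1) (a (b (l 1) (a (l 1) (l 16373456))) (b (a (l 16377776) (l 16408528)) (a (l 16402784) (l 16433864))))) (b (a (b (l 16365344) (l 16321088)) (b (l 16373920) (l 16371656))) (b (a (l 16311088) (a (l 16448256) (l 16486296))) (a (a (l 16445696) (l 16438984)) (c (l 16496632) (l 16486472)))))), by decide +kernel⟩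

def k8_pm_022_a : ∃ t, chk3 f_pm_022_a t 9 14 1 = true :=
  ⟨(a (b (a (b (l 16398328) (a (l 16493008) (l 16521152))) (b (l 16457600) (l 16482664))) (a (b (a (l 16501120) (l 16529520)) (a (l 16514080) (l 16522152))) (b (b (l 16499464) (l 16525760)) (c (l 16522296) (l 16545168))))) (b (a (c (l 16495928) (l 16458752)) (a (l 16483480) (l 16465056))) (a (b (b (l 16529200) (l 16512952)) (a (l 16506840) (l 16491696))) (b (l 16404968) (l 16419560))))), by decide +kernel⟩

def k9_pm_022_a : ∃ t, chk3 f_pm_022_a t 9 15 1 = true :=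
  ⟨(a (b (a (b (a (b (l 16558864) (l 16591496)) (b (l 16587688) (l 16571016))) (a (c (l 16564000) (l 16582424)) (b (l 16567496) (l 16542720)))) (c (b (a (l 16524488) (l 16506368)) (a (l 16526720) (l 16489200))) (b (a (l 16561680) (l 16547016)) (a (l 16551448) (l 16517456))))) (a (b (a (b (c (l 16611816) (l 16600152)) (a (l 16597560) (l 16579512))) (c (b (l 16573568) (l 16550024)) (b (l 16585784) (l 16556176)))) (a (b (c (l 16561232) (l 16558608)) (a (c (l 16543320) (l 16534224)) (l 16501200))) (c (b (l 16525744) (l 16499968)) (b (l 16525888) (l 16494080))))) (b (c (a (l 16504696) (l 16468824)) (c (l 16455416) (l 16462656))) (c (a (b (l 16490360) (l 16465224)) (b (l 16455304) (l 16430776))) (a (b (l 16493632) (l 16462360)) (b (l 16462024) (l 16431304))))))) (c (b (a (b (a (l 16447816) (l 16475064)) (a (l 16495608) (l 16460128))) (b (b (l 16431312) (l 16435360)) (a (l 16425456) (l 16391760)))) (a (b (a (l 16454464) (l 16419776)) (a (b (l 16420728) (l 16396768)) (b (l 16386792)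 (l 16363336)))) (b (a (l 16385896) (l 16352712)) (a (b (l 16353456) (l 16330384)) (b (l 16320680) (l 16297752)))))) (b (a (b (b (l 16486600) (l 16527792)) (l 16427896)) (b (b (l 16507432) (l 16486024)) (l 16387472))) (b (a (a (l 16474184) (l 16443408)) (a (l 16413608) (l 16384656))) (a (a (l 16353240) (l 16344544)) (a (l 16336592) (l 16329432))))))), by decide +kernel⟩

def k10_pm_022_a : ∃ t, chk3 f_pm_022_a t 5 2 1 = true :=
  ⟨(a (b (a (b (l 16146408) (b (l 16224784) (l 16239992))) (b (a (l 16179840) (l 16087024)) (a (l 16240072) (l 16171296)))) (a (a (b (l 16404352) (a (l 16417544) (l 16479568))) (b (l 16289408) (l 16317384))) (b (a (l 16246688) (l 16159056)) (a (b (l 16328120) (l 16325088)) (b (l 16285768) (l 16305944)))))) (b (a (b (a (l 15992192) (l 15900800)) (a (l 16080992) (l 15994992))) (b (a (l 15816760) (l 15737424)) (a (l 15915944) (l 15841216)))) (a (b (a (l 16073456) (b (l 16058488) (l 16097464))) (a (b (l 16204728) (l 16230776)) (l 16145592))) (b (a (l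 16004352) (l 15934632)) (a (l 16077192) (l 16012824)))))), by decide +kernel⟩

def k11_pm_022_a : ∃ t, chk3 f_pm_022_a t 5 6 1 = true :=
  ⟨(a (a (b (a (b (l 16473064) (l 16429400)) (b (l 16397768) (l 16356400))) (b (a (l 16404912) (l 16367576)) (a (l 16381432) (a (l 16409544) (l 16438328))))) (b (a (b (l 16316352) (l 16318896)) (b (l 16279184) (l 16330872))) (b (a (l 16358176) (l 16331680)) (a (l 16345464) (l 16323008))))) (b (a (b (l 16069160) (a (l 16262528) (l 16198120))) (b (l 15962144) (l 16024840))) (a (b (a (l 16266952) (l 16206224)) (a (l 16262424) (l 16205032))) (b (l 15974568) (l 15978200))))), by decide +kernel⟩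

def k12_pm_022_a : ∃ t, chk3 f_pm_022_a t 10 7 1 = true :=
  ⟨(b (a (a (b (b (l 16420464) (l 16444184)) (b (l 16421736) (l 16374880))) (b (l 16365112) (b (l 16399480) (l 16334216)))) (b (a (l 16322216) (l 16282928)) (a (b (l 16338976) (l 16297136)) (b (l 16282056) (l 16242064))))) (a (a (b (b (a (b (l 16410592) (l 16413168)) (b (l 16400856) (l 16382904))) (a (c (l 16358896) (l 16406624)) (l 16247728))) (b (a (c (l 16320216) (l 16356560)) (c (l 16288152) (l 16329088))) (a (c (b (l 16288264) (l 16265432)) (l 16301832)) (c (b (l 16256192) (l 16233360)) (l 16274840))))) (a (b (b (b (l 16329152) (l 16332608)) (c (l 16295488) (l 16351504))) (b (c (l 16256424) (l 16302280)) (c (a (l 16220936) (l 16204904)) (l 16248456)))) (a (b (b (l 16256736) (l 16259672)) (b (c (l 16232648) (l 16282576)) (c (l 16188592) (l 16229024)))) (b (a (b (l 16225128) (l 16248864)) (b (c (b (l 16255064) (l 16281120)) (l 16358008)) (c (l 16189784) (l 16315200)))) (a (b (c (l 16220344) (l 16272856)) (c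 (l 16175744) (l 16219432))) (c (c (b (l 16198808) (b (l 16146112) (l 16123456))) (b (l 16225488) (l 16178400))) (b (l 16266424) (l 16213072)))))))) (b (b (a (c (l 16255632) (l 16328656)) (c (l 16200128) (l 16278744))) (a (c (l 16220616) (l 16286600)) (c (l 16166504) (l 16237904)))) (a (b (c (l 16180544) (l 16238136)) (c (a (l 16149360) (l 16122752)) (l 16164144))) (b (c (l 16127640) (l 16189968)) (c (l 16084368) (l 16137504))))))), by decide +kernel⟩

def k13_pm_022_a : ∃ t, chk3 f_pm_022_a t 11 7 1 = true :=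
  ⟨(b (a (b (a (l 16247160) (l 16193296)) (a (c (l 16179152) (l 16260944)) (l 16043688))) (b (a (l 16142432) (l 16094504)) (a (l 16059288) (l 16077672)))) (a (b (b (a (c (l 16147752) (l 16231544)) (c (l 16098440) (l 16186944))) (a (c (l 16115552) (l 16192032)) (l 16003048))) (a (b (c (l 16077856) (l 16144576)) (c (l 16035800) (l 16092624))) (b (l 16003240) (c (l 15990248) (l 16050376))))) (b (b (a (l 16035128) (l 16035448)) (c (l 16001776) (l 16089152))) (c (a (l 15967856) (l 15927560)) (a (l 16036488) (l 15999024)))))), by decide +kernel⟩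

def k14_pm_022_a : ∃ t, chk3 f_pm_022_a t 3 2 1 = true :=
  ⟨(a (a (b (a (b (a (l 15663144) (l 15593656)) (a (l 15771096) (l 15705496))) (a (b (l 15528536) (l 15643944)) (b (l 15467768) (l 15586456)))) (b (a (a (l 15869288) (l 15807808)) (a (l 15750152) (l 15696288))) (a (a (l 15952464) (l 15895520)) (b (l 15795312) (l 15837856))))) (b (a (b (c (l 15378992) (l 15390912)) (c (l 15494768) (l 15521456))) (b (c (l 15264904) (l 15292504)) (c (l 15406088) (l 15428312)))) (b (a (c (l 15602184) (l 15643688)) (c (l 15518568) (l 15556504))) (a (b (l 15700528) (l 15746968)) (b (l 15619696) (l 15669432)))))) (b (a (b (a (c (b (l 15178552) (l 15241352)) (l 15210728)) (c (b (l 15119088) (l 15182832)) (l 15145504))) (a (c (l 15312536) (l 15350560)) (a (l 15274592) (l 15248616)))) (b (a (c (b (l 15076432) (l 15140576)) (l 15096752)) (b (c (l 15050336) (l 15027904)) (l 15107336))) (a (b (l 15204432) (l 15270968)) (b (l 15175024) (l 15241672))))) (a (b (a (c (l 15449968) (l 15483392))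 (c (l 15374976) (l 15424256))) (a (b (l 15552504) (l 15604912)) (c (l 15503928) (l 15549248)))) (b (a (a (l 15376504) (l 15337712)) (b (l 15306736) (l 15369632))) (a (c (l 15445400) (l 15506496)) (c (l 15441480) (l 15475824))))))), by decide +kernel⟩

def k15_pm_022_a : ∃ t, chk3 f_pm_022_a t 3 3 1 = true :=
  ⟨(a (b (a (b (a (b (l 15974888) (l 15979824)) (b (l 15874984) (l 15842864))) (a (b (l 15956200) (l 15944800)) (b (l 15887264) (l 15902184)))) (b (a (b (l 15788184) (l 15823280)) (b (l 15714136) (l 15752912))) (a (b (l 15851216) (l 15870856)) (b (l 15784728) (l 15808416))))) (b (a (a (b (l 15902376) (a (l 16035864) (l 15996712))) (b (l 15907288) (a (l 15960144) (l 15926080)))) (a (b (l 15880880) (l 15879792)) (b (l 15822640) (l 15825864)))) (a (b (a (b (a (l 16017336) (l 15980688)) (c (l 15923768) (l 16017992))) (b (l 15783528) (c (l 15856392) (l 15955904)))) (a (c (a (l 15890048) (l 15855168)) (l 15947520)) (c (l 15807856) (l 15886536)))) (b (a (b (l 15870672) (l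 15766048)) (b (l 15820016) (l 15802856))) (a (c (l 15752824) (l 15833968)) (c (l 15706688) (l 15789080))))))) (b (a (b (a (b (l 15652488) (l 15694296)) (c (l 15594824) (l 15657056))) (a (b (l 15729304) (l 15756328)) (b (l 15684520) (l 15714120)))) (b (a (b (l 15564904) (l 15610712)) (b (l 15538264) (l 15584960))) (a (b (l 15649936) (l 15681312)) (b (l 15625136) (l 15657440))))) (b (a (a (b (l 15773984) (l 15780688)) (b (l 15734392) (l 15743680))) (a (b (l 15703328) (l 15714256)) (b (l 15680288) (l 15691848)))) (a (b (a (c (l 15719424) (l 15825528)) (c (l 15686888) (l 15791192))) (a (c (l 15668672) (l 15751104)) (b (l 15697960) (l 15657256)))) (b (a (b (l 15713952) (l 15705416)) (b (l 15691808) (l 15684896))) (a (b (l 15672800) (l 15631760)) (b (l 15653024) (l 15611280)))))))), by decide +kernel⟩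

theorem s16_pm_022_a : ∃ t, chk3 f_pm_022_a t 3 1 1 = true := ex3_b k14_pm_022_a k15_pm_022_a

theorem s17_pm_022_a : ∃ t, chk3 f_pm_022_a t 5 7 1 = true := ex3_a k12_pm_022_a k13_pm_022_a

theorem s18_pm_022_a : ∃ t, chk3 f_pm_022_a t 5 3 1 = true := ex3_b k11_pm_022_a s17_pm_022_a

theorem s19_pm_022_a : ∃ t, chk3 f_pm_022_a t 5 1 1 = true := ex3_b k10_pm_022_a s18_pm_022_a

theorem s20_pm_022_a : ∃ t, chk3 f_pm_022_a t 9 7 1 = true := ex3_b k8_pm_022_a k9_pm_022_a

theorem s21_pm_022_a : ∃ t, chk3 f_pm_022_a t 9 3 1 = true := ex3_b k7_pm_022_a s20_pm_022_a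

theorem s22_pm_022_a : ∃ t, chk3 f_pm_022_a t 9 1 1 = true := ex3_b k6_pm_022_a s21_pm_022_a

theorem s23_pm_022_a : ∃ t, chk3 f_pm_022_a t 17 15 1 = true := ex3_b k4_pm_022_a k5_pm_022_a

theorem s24_pm_022_a : ∃ t, chk3 f_pm_022_a t 17 7 1 = true := ex3_b k3_pm_022_a s23_pm_022_a

theorem s25_pm_022_a : ∃ t, chk3 f_pm_022_a t 8 7 1 = true := ex3_a k2_pm_022_a s24_pm_022_a

theorem s26_pm_022_a : ∃ t, chk3 f_pm_022_a t 8 3 1 = true := ex3_b k1_pm_022_a s25_pm_022_a

theorem s27_pm_022_a : ∃ t, chk3 f_pm_022_a t 8 1 1 = true := ex3_b k0_pm_022_a s26_pm_022_a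

theorem s28_pm_022_a : ∃ t, chk3 f_pm_022_a t 4 1 1 = true := ex3_a s27_pm_022_a s22_pm_022_a

theorem s29_pm_022_a : ∃ t, chk3 f_pm_022_a t 2 1 1 = true := ex3_a s28_pm_022_a s19_pm_022_a

theorem s30_pm_022_a : ∃ t, chk3 f_pm_022_a t 1 1 1 = true := ex3_a s29_pm_022_a s16_pm_022_a

theorem c_pm_022_a : CertB 0 536870912 0 536870912 1020054732 13421774 3 eng mog cd0q0 cd1q2a pd2 true true false .pp 0 2 2
    ndB0q0 ndB1q2a pcB2 cut_pm_022_a Ext.none :=
  certB2 (fam := true) (s1 := true) (s2 := false) (a := 0) (b := 2) (c := 2) (cn := .pp) (n1 := ndB0q0) (n2 := ndB1q2a) (pc := pcB2) (cut := cut_pm_022_a) (xt := Ext.none) (P1 := 0) (W1 := 536870912) (P2 := 0) (W2 := 536870912) (P3 := 1020054732) (W3 := 13421774) (N0 := 3) (En := eng) (mo := mog) (C1 := cd0q0) (C2 := cd1q2a) (C3 := pd2)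
    rfl (fun _ => rfl) s30_pm_022_a

noncomputable def cut_pm_022_b : Cut := Cut.of [[⟨0, 0, 0, 33554432⟩, ⟨1, 1, 0, 33554432⟩, ⟨2, 1, 0, 33554432⟩]]

noncomputable def f_pm_022_b : ℕ → ℕ → ℕ → ℕ → Bool := onCell 0 536870912 1073741824 536870912 1020054732 13421774
    (rowB 3 eng mog cd0q0 cd1q2b pd2 1 true true false .pp 0 2 2 (qsf 0 536870912 1239849684 370763052 2) ndB0q0 ndB1q2b pcB2 cut_pm_022_b Ext.none)

def k0_pm_022_b : ∃ t, chk3 f_pm_022_b t 2 1 1 = true :=
  ⟨(b (b (l 1) (a (a (b (a (b (l 311417296887) (l 302827051543)) (b (l 1) (a (l 15957976) (l 1)))) (a (b (l 15929272) (l 15771328)) (b (a (l 15908736) (l 15889272)) (a (l 15758536) (l 15744576))))) (b (l 1) (a (b (l 272761863943) (l 184715158727)) (b (l 1) (l 278130613255))))) (l 1))) (a (a (b (b (a (b (l 15617248) (l 15467144)) (b (l 15609008) (l 15469312))) (a (l 15249528) (l 15267272))) (b (a (l 14976848) (l 15015176)) (a (l 14728000) (l 14786608)))) (b (b (a (b (l 15591656) (l 15462432)) (b (a (l 15577008)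 (l 15571528)) (b (l 15481944) (l 15423248)))) (b (a (l 15337360) (l 15337056)) (l 15201608))) (b (a (l 15044680) (l 15068568)) (a (l 14836504) (l 14858400))))) (b (a (b (a (b (l 290478182519) (a (l 15421024) (l 276519345687))) (b (l 1) (b (l 1) (l 329132763703)))) (a (b (b (l 15358264) (l 15306344)) (l 15230456)) (b (b (l 339333221255) (l 350607420807)) (b (l 15252336) (l 15207176))))) (b (l 1) (a (b (b (l 1) (l 337722486999)) (b (l 348459827767) (l 355975946679))) (b (l 1) (b (l 1) (l 340406672647)))))) (a (b (a (b (l 15133624) (l 15042072)) (b (l 15141592) (l 15058904))) (a (l 14894672) (b (l 14982064) (l 14911816)))) (b (b (a (b (l 15164088) (l 15125680)) (b (l 343090962615) (l 148206756839))) (a (l 15070448) (b (l 15093368) (l 15061744)))) (b (a (l 15002048) (l 15016944)) (a (l 14940120) (l 14963008)))))))), by decide +kernel⟩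

def k1_pm_022_b : ∃ t, chk3 f_pm_022_b t 3 1 1 = true :=
  ⟨(b (l 1) (b (l 1) (a (a (b (b (a (b (l 1) (l 341480272391)) (l 1)) (a (b (l 347922669607) (l 159480931159)) (b (l 1) (l 343627653383)))) (b (a (b (l 15040016) (l 15015232)) (b (l 351143805959) (l 170755145031))) (a (l 14981000) (c (l 15009184) (l 14980008))))) (b (l 1) (b (a (b (l 1) (l 341480102055)) (l 1)) (a (b (l 198135541303) (l 182029392775)) (c (l 346311784999) (l 348996090679)))))) (l 1)))), by decide +kernel⟩

theorem s2_pm_022_b : ∃ t, chk3 f_pm_022_b t 1 1 1 = true := ex3_a k0_pm_022_b k1_pm_022_b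

theorem c_pm_022_b : CertB 0 536870912 1239849684 370763052 1020054732 13421774 3 eng mog cd0q0 cd1q2b pd2 true true false .pp 0 2 2
    ndB0q0 ndB1q2b pcB2 cut_pm_022_b Ext.none :=
  certB1 (fam := true) (s1 := true) (s2 := false) (a := 0) (b := 2) (c := 2) (cn := .pp) (n1 := ndB0q0) (n2 := ndB1q2b) (pc := pcB2) (cut := cut_pm_022_b) (xt := Ext.none) (P1 := 0) (W1 := 536870912) (P2 := 1239849684) (W2 := 370763052) (P3 := 1020054732) (W3 := 13421774) (N0 := 3) (En := eng) (mo := mog) (C1 := cd0q0) (C2 := cd1q2b) (C3 := pd2)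
    rfl (fun _ => rfl) s2_pm_022_b

noncomputable def f_pm_023_a : ℕ → ℕ → ℕ → ℕ → Bool := onCell 1610612736 536870912 0 536870912 1020054732 13421774
    (rowB 3 eng mog cd0q0 cd1q2a pd3 2 true true false .up 0 2 3 (qsf 0 536870912 0 536870912 3) ndB0q0 ndB1q2a pcB3 Cut.none Ext.none)

def k0_pm_023_a : ∃ t, chk3 f_pm_023_a t 1 1 1 = true :=
  ⟨(a (a (b (b (a (a (l 16346352) (l 16316448)) (a (b (l 16496968) (l 16498336)) (b (b (l 16499592) (l 16549624)) (l 16535704)))) (a (a (b (l 16391472) (l 16390112)) (l 16334912)) (b (l 16461592) (l 16324656)))) (b (a (a (b (l 16372080) (l 16291040)) (b (l 16432480) (l 16321616))) (b (a (l 16466144) (l 16494192)) (a (l 16326128) (l 16316528)))) (b (a (a (l 16203256) (l 16117904)) (a (b (l 16360088) (l 2)) (l 2))) (a (b (b (l 34995788247) (a (l 16155984) (l 2))) (a (c (l 15904720) (l 16021392)) (l 2))) (l 2))))) (b (a (b (b (a (b (a (l 16564656) (l 142907844807)) (l 16538064)) (l 2)) (a (l 16565912) (l 2))) (a (l 16418120) (l 2)))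 (l 2)) (b (l 2) (l 2)))) (l 2)), by decide +kernel⟩

theorem c_pm_023_a : CertB 0 536870912 0 536870912 1020054732 13421774 3 eng mog cd0q0 cd1q2a pd3 true true false .up 0 2 3
    ndB0q0 ndB1q2a pcB3 Cut.none Ext.none :=
  certB2 (fam := true) (s1 := true) (s2 := false) (a := 0) (b := 2) (c := 3) (cn := .up) (n1 := ndB0q0) (n2 := ndB1q2a) (pc := pcB3) (cut := Cut.none) (xt := Ext.none) (P1 := 0) (W1 := 536870912) (P2 := 0) (W2 := 536870912) (P3 := 1020054732) (W3 := 13421774) (N0 := 3) (En := eng) (mo := mog) (C1 := cd0q0) (C2 := cd1q2a) (C3 := pd3)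
    rfl (fun _ => rfl) k0_pm_023_a

noncomputable def f_pm_023_b : ℕ → ℕ → ℕ → ℕ → Bool := onCell 0 536870912 1610612736 536870912 1020054732 13421774
    (rowB 3 eng mog cd0q0 cd1q2b pd3 1 true true false .up 0 2 3 (qsf 0 536870912 1239849684 370763052 3) ndB0q0 ndB1q2b pcB3 Cut.none Ext.none)

def k0_pm_023_b : ∃ t, chk3 f_pm_023_b t 1 1 1 = true :=
  ⟨(a (b (a (b (a (b (a (l 15027648) (l 15213336)) (a (l 2) (l 15203168))) (b (b (l 15475320) (l 15473640)) (l 15461128))) (a (l 2) (b (l 15431040) (l 2)))) (b (b (a (b (l 15769008) (l 15760896)) (b (l 16014488) (l 16003728))) (a (l 15730208) (l 15994584))) (b (a (l 15721432) (l 15966080)) (b (a (l 15692152) (l 15940608)) (l 4))))) (l 4)) (b (b (a (b (a (b (l 16220296) (l 16209064)) (b (l 16346520) (l 16375648))) (a (b (l 16197496) (l 16189888)) (b (l 16299288) (l 16353720)))) (b (a (b (l 262026012487) (l 216928547095)) (l 1)) (a (b (a (l 16467344) (l 16527176)) (a (l 16453560) (l 16469952))) (b (a (l 211560262567) (l 1))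 (a (b (l 16527992) (l 16498656)) (a (l 270615975367) (l 1))))))) (a (b (a (l 16169232) (l 16188272)) (b (l 16086168) (l 16022200))) (b (a (b (l 16453128) (l 16461488)) (b (a (l 16555024) (b (a (l 16592248) (l 317323805863)) (l 242698719495))) (a (l 16543712) (l 16548768)))) (a (b (l 16448664) (l 16436160)) (b (l 16514208) (l 16545904)))))) (b (a (l 4) (b (b (a (l 16412528) (l 16530936)) (l 4)) (l 4))) (l 4)))), by decide +kernel⟩

theorem c_pm_023_b : CertB 0 536870912 1239849684 370763052 1020054732 13421774 3 eng mog cd0q0 cd1q2b pd3 true true false .up 0 2 3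
    ndB0q0 ndB1q2b pcB3 Cut.none Ext.none :=
  certB1 (fam := true) (s1 := true) (s2 := false) (a := 0) (b := 2) (c := 3) (cn := .up) (n1 := ndB0q0) (n2 := ndB1q2b) (pc := pcB3) (cut := Cut.none) (xt := Ext.none) (P1 := 0) (W1 := 536870912) (P2 := 1239849684) (W2 := 370763052) (P3 := 1020054732) (W3 := 13421774) (N0 := 3) (En := eng) (mo := mog) (C1 := cd0q0) (C2 := cd1q2b) (C3 := pd3)
    rfl (fun _ => rfl) k0_pm_023_b

noncomputable def f_pm_033 : ℕ → ℕ → ℕ → ℕ → Bool := onCell 0 536870912 1610612736 536870912 1020054732 13421774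
    (rowB 3 eng mog cd0q0 cd1q3 pd3 0 true true false .pnn 0 3 3 (qsf 0 536870912 1610612736 536870912 3) ndB0q0 ndB1q3 pcB3 Cut.none Ext.none)

def k0_pm_033 : ∃ t, chk3 f_pm_033 t 1 1 1 = true :=
  ⟨(b (a (a (b (a (b (a (b (l 14830808) (l 14849632)) (b (l 15046384) (l 15054824))) (a (b (l 14859680) (l 14866728)) (b (l 15060192) (l 15064384)))) (b (b (a (l 15243752) (l 15418280)) (a (l 15247792) (l 15420048))) (b (a (l 15250624) (l 15417488)) (a (l 15247784) (l 15405584))))) (b (a (a (b (l 14872472) (l 14870344)) (b (l 15061616) (l 4))) (a (b (l 4) (l 4)) (l 4))) (l 4))) (b (a (b (b (a (l 15576928) (l 15721832)) (a (l 15574896) (l 15710608))) (a (b (l 15563080) (l 4)) (l 4))) (b (a (b (l 15847968) (l 4)) (l 4)) (l 4))) (l 4))) (l 4)) (l 4)), by decide +kernel⟩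

theorem c_pm_033 : CertB 0 536870912 1610612736 536870912 1020054732 13421774 3 eng mog cd0q0 cd1q3 pd3 true true false .pnn 0 3 3
    ndB0q0 ndB1q3 pcB3 Cut.none Ext.none :=
  certB0 (fam := true) (s1 := true) (s2 := false) (a := 0) (b := 3) (c := 3) (cn := .pnn) (n1 := ndB0q0) (n2 := ndB1q3) (pc := pcB3) (cut := Cut.none) (xt := Ext.none) (P1 := 0) (W1 := 536870912) (P2 := 1610612736) (W2 := 536870912) (P3 := 1020054732) (W3 := 13421774) (N0 := 3) (En := eng) (mo := mog) (C1 := cd0q0) (C2 := cd1q3) (C3 := pd3)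
    rfl k0_pm_033

noncomputable def cut_pm_101 : Cut := Cut.of [[⟨0, 1, 0, 38347922⟩, ⟨1, 0, 0, 38347922⟩, ⟨2, 1, 0, 38347922⟩]]

noncomputable def f_pm_101 : ℕ → ℕ → ℕ → ℕ → Bool := onCell 536870912 536870912 0 536870912 1020054732 13421774
    (rowB 3 eng mog cd0q1 cd1q0 pd1 2 true true false .npn 1 0 1 (qsf 536870912 536870912 0 536870912 1) ndB0q1 ndB1q0 pcB1 cut_pm_101 Ext.none)

def k0_pm_101 : ∃ t, chk3 f_pm_101 t 1 1 1 = true :=
  ⟨(a (l 3) (b (a (l 3) (b (a (l 3) (b (a (l 3) (a (l 3) (b (b (l 6) (l 3)) (l 3)))) (l 3))) (l 3))) (l 3))), by decide +kernel⟩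

theorem c_pm_101 : CertB 536870912 536870912 0 536870912 1020054732 13421774 3 eng mog cd0q1 cd1q0 pd1 true true false .npn 1 0 1
    ndB0q1 ndB1q0 pcB1 cut_pm_101 Ext.none :=
  certB2 (fam := true) (s1 := true) (s2 := false) (a := 1) (b := 0) (c := 1) (cn := .npn) (n1 := ndB0q1) (n2 := ndB1q0) (pc := pcB1) (cut := cut_pm_101) (xt := Ext.none) (P1 := 536870912) (W1 := 536870912) (P2 := 0) (W2 := 536870912) (P3 := 1020054732) (W3 := 13421774) (N0 := 3) (En := eng) (mo := mog) (C1 := cd0q1) (C2 := cd1q0) (C3 := pd1)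
    rfl (fun _ => rfl) k0_pm_101

end Pool.Agent.Strip051.G.I9500_9625.Tab.C.BA01

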